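import Mathlib
import Pool.Agent.Lib.MP_6bd702_sv.EigFun

/-!
# Step 1, Lemma A: the upper bound of an eigenvalue function in the strip

For an eigenvalue function `Λ` (structure `EigFun N Λ`, `N ≥ 1`) and `κ = 1 / (2 N)`,
`‖Λ w‖ ≤ ‖M w‖ ≤ exp (2 cosh (3 Im w) / N)` in the closed strip `0 ≤ Re w ≤ π / 3`, where
`M w = (1 - i κ e^{3 i w})² (1 + i κ e^{- 3 i w})²`.
-/

set_option autoImplicit false

open Complex Set Filter Topology

namespace MP6bd

/-! ### Elementary facts -/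

/-- `‖tan (3 i y / 2)‖ = tanh (3 |y| / 2)` -/
lemma norm_tan_side (y : ℝ) :
    ‖Complex.tan (3 * ((y : ℂ) * I) / 2)‖ = Real.tanh (3 * |y| / 2) := by
  have h1 : (3 * ((y : ℂ) * I) / 2) = ((3 * y / 2 : ℝ) : ℂ) * I := by push_cast; ring
  rw [h1, Complex.tan_mul_I, norm_mul, Complex.norm_I, mul_one, ← Complex.ofReal_tanh,
    Complex.norm_real, Real.norm_eq_abs]
  rcases le_total 0 y with h | h
  · rw [abs_of_nonneg h, abs_of_nonneg]
    rw [Real.tanh_eq_sinh_div_cosh]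
    exact div_nonneg (Real.sinh_nonneg_iff.2 (by linarith)) (Real.cosh_pos _).le
  · rw [abs_of_nonpos h, abs_of_nonpos, ← Real.tanh_neg]
    · congr 1; ring
    · rw [Real.tanh_eq_sinh_div_cosh]
      exact div_nonpos_of_nonpos_of_nonneg (Real.sinh_nonpos_iff.2 (by linarith))
        (Real.cosh_pos _).le

/-- `(1 - z) / (1 + z) ≤ exp (- 2 z)` for `z ≥ 0`. -/
lemma one_sub_div_le {z : ℝ} (hz : 0 ≤ z) : (1 - z) / (1 + z) ≤ Real.exp (-(2 * z)) := by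
  rcases le_total 1 z with h | h
  · exact (div_nonpos_of_nonpos_of_nonneg (by linarith) (by linarith)).trans (Real.exp_pos _).le
  -- `log (1+z) - log (1-z) ≥ 2 z`
  rcases h.eq_or_lt with h | h
  · rw [h]; simp [(Real.exp_pos _).le]
  have h1 : 2 * z ≤ Real.log (1 + z) - Real.log (1 - z) := by
    have h2 := Real.hasSum_log_sub_log_of_abs_lt_one (x := z) (by rw [abs_of_nonneg hz]; exact h)
    have h3 := h2.tsum_eq
    have h4 : (fun k : ℕ => (2 : ℝ) * (1 / (2 * k + 1)) * z ^ (2 * k + 1)) 0 ≤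
        ∑' k : ℕ, (2 : ℝ) * (1 / (2 * k + 1)) * z ^ (2 * k + 1) :=
      h2.summable.le_tsum 0 (fun j _ => by positivity)
    rw [h3] at h4
    simpa using h4
  have h5 : (1 - z) / (1 + z) = Real.exp (-(Real.log (1 + z) - Real.log (1 - z))) := by
    rw [neg_sub, Real.exp_sub, Real.exp_log (by linarith), Real.exp_log (by linarith)]
  rw [h5]
  exact Real.exp_le_exp.2 (by linarith)

/-- `3 tanh (3 |y| / 2) ^ N ≤ e^{6 |y|} / (2 N ^ 2)` -/
lemma tanh_pow_le {N : ℕ} (hN : 1 ≤ N) (y : ℝ) :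
    3 * Real.tanh (3 * |y| / 2) ^ N ≤ Real.exp (6 * |y|) / (2 * (N : ℝ) ^ 2) := by
  have hN' : (1 : ℝ) ≤ N := by exact_mod_cast hN
  obtain ⟨z, hz⟩ : ∃ z, z = Real.exp (-(3 * |y|)) := ⟨_, rfl⟩
  have hz0 : 0 < z := by rw [hz]; exact Real.exp_pos _
  have h1 : Real.tanh (3 * |y| / 2) = (1 - z) / (1 + z) := by
    rw [Real.tanh_eq_sinh_div_cosh, Real.sinh_eq, Real.cosh_eq]
    have e1 : Real.exp (3 * |y| / 2) ≠ 0 := (Real.exp_pos _).ne'
    have e2 : z = Real.exp (-(3 * |y| / 2)) / Real.exp (3 * |y| / 2) := by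
      rw [← Real.exp_sub, hz]; congr 1; ring
    rw [e2]
    have e3 := Real.exp_pos (3 * |y| / 2)
    have e4 := Real.exp_pos (-(3 * |y| / 2))
    field_simp
  have h0 : 0 ≤ Real.tanh (3 * |y| / 2) := by
    rw [Real.tanh_eq_sinh_div_cosh]
    exact div_nonneg (Real.sinh_nonneg_iff.2 (by positivity)) (Real.cosh_pos _).le
  have h2 : Real.tanh (3 * |y| / 2) ^ N ≤ Real.exp (-(2 * N * z)) := by
    calc Real.tanh (3 * |y| / 2) ^ N ≤ (Real.exp (-(2 * z))) ^ N :=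
          pow_le_pow_left₀ h0 (h1.trans_le (one_sub_div_le hz0.le)) N
      _ = Real.exp (-(2 * N * z)) := by
          rw [← Real.exp_nat_mul]; congr 1; ring
  have h3 : Real.exp (6 * |y|) = 1 / z ^ 2 := by
    rw [hz, ← Real.exp_nat_mul, one_div, ← Real.exp_neg]; congr 1; push_cast; ring
  rw [h3]
  -- with `u = N z`: `u² e^{-2u} ≤ e^{-2} ≤ 1/6`
  have h4 : ∀ u : ℝ, 0 ≤ u → u ^ 2 * Real.exp (-(2 * u)) ≤ 1 / 6 := by
    intro u hu
    have e1 : u ≤ Real.exp (u - 1) := by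
      have := Real.add_one_le_exp (u - 1); linarith
    have e2 : u ^ 2 ≤ Real.exp (2 * (u - 1)) := by
      calc u ^ 2 ≤ (Real.exp (u - 1)) ^ 2 := pow_le_pow_left₀ hu e1 2
        _ = _ := by rw [← Real.exp_nat_mul]; push_cast; rfl
    have e3 : u ^ 2 * Real.exp (-(2 * u)) ≤ Real.exp (-2) := by
      calc _ ≤ Real.exp (2 * (u - 1)) * Real.exp (-(2 * u)) := by gcongr
        _ = _ := by rw [← Real.exp_add]; congr 1; ring
    refine e3.trans ?_
    have e4 : (6 : ℝ) ≤ Real.exp 2 := by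
      have : Real.exp 2 = Real.exp 1 * Real.exp 1 := by rw [← Real.exp_add]; norm_num
      rw [this]
      have := Real.exp_one_gt_d9
      nlinarith
    rw [Real.exp_neg, one_div]
    exact inv_anti₀ (by norm_num) e4
  have h5 := h4 (N * z) (by positivity)
  calc 3 * Real.tanh (3 * |y| / 2) ^ N ≤ 3 * Real.exp (-(2 * N * z)) := by gcongr
    _ = 3 * ((N * z) ^ 2 * Real.exp (-(2 * (N * z)))) / (N * z) ^ 2 := by
        have : (N * z : ℝ) ≠ 0 := by positivity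
        field_simp
    _ ≤ 3 * (1 / 6) / (N * z) ^ 2 := by gcongr
    _ = 1 / z ^ 2 / (2 * (N : ℝ) ^ 2) := by
        have : (N : ℝ) ≠ 0 := by positivity
        field_simp
        norm_num

/-! ### The majorant -/

/-- `q = e^{3 i w}` -/
noncomputable def qq (w : ℂ) : ℂ := Complex.exp (3 * I * w)

/-- the majorant `M` -/
noncomputable def Maj (N : ℕ) (w : ℂ) : ℂ :=
  (1 - I * (1 / (2 * (N : ℂ))) * qq w) ^ 2 * (1 + I * (1 / (2 * (N : ℂ))) * (qq w)⁻¹) ^ 2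

lemma qq_ne (w : ℂ) : qq w ≠ 0 := Complex.exp_ne_zero _

lemma norm_qq (w : ℂ) : ‖qq w‖ = Real.exp (-(3 * w.im)) := by
  unfold qq
  rw [Complex.norm_exp]
  congr 1
  simp

lemma qq_im_nonneg {w : ℂ} (h0 : 0 ≤ w.re) (h1 : w.re ≤ Real.pi / 3) : 0 ≤ (qq w).im := by
  unfold qq
  rw [Complex.exp_im]
  have : (3 * I * w).im = 3 * w.re := by simp
  rw [this]
  exact mul_nonneg (Real.exp_pos _).le
    (Real.sin_nonneg_of_nonneg_of_le_pi (by linarith) (by linarith))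

lemma qq_inv_im_nonpos {w : ℂ} (h0 : 0 ≤ w.re) (h1 : w.re ≤ Real.pi / 3) : (qq w)⁻¹.im ≤ 0 := by
  rw [Complex.inv_im]
  exact div_nonpos_of_nonpos_of_nonneg (by linarith [qq_im_nonneg h0 h1]) (normSq_nonneg _)

lemma re_fac1 {N : ℕ} {w : ℂ} (h0 : 0 ≤ w.re) (h1 : w.re ≤ Real.pi / 3) :
    1 ≤ (1 - I * (1 / (2 * (N : ℂ))) * qq w).re := by
  have e : (1 / (2 * (N : ℂ))) = ((1 / (2 * (N : ℝ)) : ℝ) : ℂ) := by push_cast; ring
  rw [e]
  have h2 := qq_im_nonneg h0 h1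
  have h3 : (I * ((1 / (2 * (N : ℝ)) : ℝ) : ℂ) * qq w).re = -(1 / (2 * (N : ℝ)) * (qq w).im) := by
    rw [mul_assoc, Complex.I_mul_re, Complex.re_ofReal_mul |> fun _ => Complex.im_ofReal_mul _ _]
  rw [Complex.sub_re, h3, Complex.one_re]
  have : 0 ≤ 1 / (2 * (N : ℝ)) * (qq w).im := by positivity
  linarith

lemma re_fac2 {N : ℕ} {w : ℂ} (h0 : 0 ≤ w.re) (h1 : w.re ≤ Real.pi / 3) :
    1 ≤ (1 + I * (1 / (2 * (N : ℂ))) * (qq w)⁻¹).re := by
  have e : (1 / (2 * (N : ℂ))) = ((1 / (2 * (N : ℝ)) : ℝ) : ℂ) := by push_cast; ring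
  rw [e]
  have h2 := qq_inv_im_nonpos h0 h1
  have h3 : (I * ((1 / (2 * (N : ℝ)) : ℝ) : ℂ) * (qq w)⁻¹).re =
      -(1 / (2 * (N : ℝ)) * (qq w)⁻¹.im) := by
    rw [mul_assoc, Complex.I_mul_re, Complex.im_ofReal_mul]
  rw [Complex.add_re, h3, Complex.one_re]
  have : 0 ≤ 1 / (2 * (N : ℝ)) * (-(qq w)⁻¹.im) := mul_nonneg (by positivity) (by linarith)
  linarith

lemma one_le_norm_Maj {N : ℕ} {w : ℂ} (h0 : 0 ≤ w.re) (h1 : w.re ≤ Real.pi / 3) :
    1 ≤ ‖Maj N w‖ := by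
  unfold Maj
  rw [norm_mul, norm_pow, norm_pow]
  have e1 := (re_fac1 (N := N) h0 h1).trans (Complex.re_le_norm _)
  have e2 := (re_fac2 (N := N) h0 h1).trans (Complex.re_le_norm _)
  have e3 := one_le_pow₀ e1 (n := 2)
  have e4 := one_le_pow₀ e2 (n := 2)
  nlinarith

lemma Maj_ne {N : ℕ} {w : ℂ} (h0 : 0 ≤ w.re) (h1 : w.re ≤ Real.pi / 3) : Maj N w ≠ 0 := by
  intro h
  have := one_le_norm_Maj (N := N) h0 h1
  rw [h, norm_zero] at this
  linarith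

lemma differentiable_qq : Differentiable ℂ qq := by
  unfold qq
  fun_prop

lemma differentiable_Maj (N : ℕ) : Differentiable ℂ (Maj N) := by
  unfold Maj
  have h1 := differentiable_qq
  have h2 : Differentiable ℂ fun w => (qq w)⁻¹ := h1.inv qq_ne
  fun_prop

lemma norm_Maj_le {N : ℕ} (hN : 1 ≤ N) (w : ℂ) :
    ‖Maj N w‖ ≤ Real.exp (2 * Real.cosh (3 * w.im) / N) := by
  have hN' : (0 : ℝ) < N := by exact_mod_cast hN
  obtain ⟨κ, hκ⟩ : ∃ κ : ℝ, κ = 1 / (2 * (N : ℝ)) := ⟨_, rfl⟩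
  have hκ0 : 0 ≤ κ := by rw [hκ]; positivity
  have e : (1 / (2 * (N : ℂ))) = (κ : ℂ) := by rw [hκ]; push_cast; ring
  have h1 : ∀ z : ℂ, ‖I * (κ : ℂ) * z‖ = κ * ‖z‖ := by
    intro z
    rw [norm_mul, norm_mul, Complex.norm_I, one_mul, Complex.norm_real, Real.norm_eq_abs,
      abs_of_nonneg hκ0]
  have h2 : ‖1 - I * (κ : ℂ) * qq w‖ ≤ Real.exp (κ * ‖qq w‖) := by
    calc _ ≤ ‖(1 : ℂ)‖ + ‖I * (κ : ℂ) * qq w‖ := norm_sub_le _ _
      _ = κ * ‖qq w‖ + 1 := by rw [h1, norm_one]; ring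
      _ ≤ _ := Real.add_one_le_exp _
  have h3 : ‖1 + I * (κ : ℂ) * (qq w)⁻¹‖ ≤ Real.exp (κ * ‖(qq w)⁻¹‖) := by
    calc _ ≤ ‖(1 : ℂ)‖ + ‖I * (κ : ℂ) * (qq w)⁻¹‖ := norm_add_le _ _
      _ = κ * ‖(qq w)⁻¹‖ + 1 := by rw [h1, norm_one]; ring
      _ ≤ _ := Real.add_one_le_exp _
  unfold Maj
  rw [e, norm_mul, norm_pow, norm_pow]
  calc _ ≤ (Real.exp (κ * ‖qq w‖)) ^ 2 * (Real.exp (κ * ‖(qq w)⁻¹‖)) ^ 2 := by gcongr
    _ = Real.exp (2 * Real.cosh (3 * w.im) / N) := by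
        rw [← Real.exp_nat_mul, ← Real.exp_nat_mul, ← Real.exp_add, norm_inv, norm_qq,
          ← Real.exp_neg, neg_neg, Real.cosh_eq, hκ]
        congr 1
        push_cast
        field_simp
        ring

lemma norm_Maj_side {N : ℕ} (hN : 1 ≤ N) {w : ℂ} (hw : qq w = ((qq w).re : ℂ))  :
    1 + Real.exp (6 * |w.im|) / (4 * (N : ℝ) ^ 2) ≤ ‖Maj N w‖ := by
  have hN' : (0 : ℝ) < N := by exact_mod_cast hN
  obtain ⟨κ, hκ⟩ : ∃ κ : ℝ, κ = 1 / (2 * (N : ℝ)) := ⟨_, rfl⟩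
  have hκ0 : 0 ≤ κ := by rw [hκ]; positivity
  have e : (1 / (2 * (N : ℂ))) = (κ : ℂ) := by rw [hκ]; push_cast; ring
  obtain ⟨r, hr⟩ : ∃ r : ℝ, qq w = (r : ℂ) := ⟨_, hw⟩
  have hr2 : r ^ 2 = Real.exp (-(6 * w.im)) := by
    have h1 := norm_qq w
    rw [hr, Complex.norm_real, Real.norm_eq_abs] at h1
    rw [← sq_abs, h1, ← Real.exp_nat_mul]
    congr 1; push_cast; ring
  have hr0 : r ≠ 0 := by
    intro h
    rw [h] at hr2
    have := Real.exp_pos (-(6 * w.im))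
    rw [← hr2] at this
    norm_num at this
  have h1 : ‖1 - I * (κ : ℂ) * qq w‖ ^ 2 = 1 + κ ^ 2 * Real.exp (-(6 * w.im)) := by
    rw [← Complex.normSq_eq_norm_sq, Complex.normSq_apply, hr, ← hr2]
    simp
    ring
  have h2 : ‖1 + I * (κ : ℂ) * (qq w)⁻¹‖ ^ 2 = 1 + κ ^ 2 * Real.exp (6 * w.im) := by
    have e2 : (r⁻¹) ^ 2 = Real.exp (6 * w.im) := by
      rw [inv_pow, hr2, ← Real.exp_neg, neg_neg]
    rw [← Complex.normSq_eq_norm_sq, Complex.normSq_apply, hr, ← Complex.ofReal_inv, ← e2]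
    simp
    ring
  unfold Maj
  rw [e, norm_mul, norm_pow, norm_pow, h1, h2]
  have h3 : κ ^ 2 = 1 / (4 * (N : ℝ) ^ 2) := by rw [hκ, div_pow, mul_pow]; norm_num
  have e3 := Real.exp_pos (6 * w.im)
  have e4 := Real.exp_pos (-(6 * w.im))
  have h4 : Real.exp (6 * |w.im|) / (4 * (N : ℝ) ^ 2) = κ ^ 2 * Real.exp (6 * |w.im|) := by
    rw [h3]; ring
  rw [h4]
  have h5 : 0 ≤ κ ^ 2 := sq_nonneg _
  have h6 : 0 ≤ κ ^ 2 * Real.exp (6 * w.im) := by positivity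
  have h7 : 0 ≤ κ ^ 2 * Real.exp (-(6 * w.im)) := by positivity
  rcases le_total 0 w.im with h | h
  · rw [abs_of_nonneg h]
    nlinarith
  · rw [abs_of_nonpos h]
    have : 6 * -w.im = -(6 * w.im) := by ring
    rw [this]
    nlinarith

/-! ### The sides of the strip -/

variable {N : ℕ} {Λ : ℂ → ℂ}

lemma EigFun.right_eq (h : EigFun N Λ) (y : ℝ) :
    Λ ((y : ℂ) * I + (Real.pi / 3 : ℝ)) = (starRingEnd ℂ) (Λ ((y : ℂ) * I)) := by
  have h1 := h.refl ((y : ℂ) * I) (by simp) (by simp [Real.pi_pos.le]; positivity)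
  rw [← h1]
  congr 1
  simp
  ring

/-- the absolute value on the left side -/
theorem EigFun.side (h : EigFun N Λ) (y : ℝ) :
    |‖Λ ((y : ℂ) * I)‖ ^ 2 - 1| ≤ 3 * Real.tanh (3 * |y| / 2) ^ N := by
  have h1 := h.fusion ((y : ℂ) * I) (by simp) (by simp; positivity)
  rw [h.right_eq, norm_tan_side, Complex.mul_conj', ← Complex.ofReal_pow, ← Complex.ofReal_one,
    ← Complex.ofReal_sub, Complex.norm_real, Real.norm_eq_abs] at h1
  exact h1

lemma EigFun.norm_left_le (h : EigFun N Λ) (hN : 1 ≤ N) (y : ℝ) :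
    ‖Λ ((y : ℂ) * I)‖ ≤ 1 + Real.exp (6 * |y|) / (4 * (N : ℝ) ^ 2) := by
  have hN' : (0 : ℝ) < N := by exact_mod_cast hN
  have h1 := (abs_le.1 (h.side y)).2
  have h2 := tanh_pow_le hN y
  have h3 : ‖Λ ((y : ℂ) * I)‖ ^ 2 ≤ (1 + Real.exp (6 * |y|) / (4 * (N : ℝ) ^ 2)) ^ 2 := by
    have e1 : Real.exp (6 * |y|) / (2 * (N : ℝ) ^ 2) = 2 * (Real.exp (6 * |y|) / (4 * (N : ℝ) ^ 2)) := by
      field_simp; norm_num
    have e2 : 0 ≤ Real.exp (6 * |y|) / (4 * (N : ℝ) ^ 2) := by positivity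
    nlinarith
  exact le_of_sq_le_sq h3 (by positivity)

lemma strip_open_subset : {w : ℂ | 0 ≤ w.re ∧ w.re ≤ Real.pi / 3} ⊆
    {w : ℂ | -(Real.pi / 3) < w.re ∧ w.re < 2 * Real.pi / 3} := by
  rintro w ⟨h0, h1⟩
  have := Real.pi_pos
  exact ⟨by linarith, by linarith⟩

lemma closure_strip_subset :
    closure (Complex.re ⁻¹' Ioo (0 : ℝ) (Real.pi / 3)) ⊆ {w : ℂ | 0 ≤ w.re ∧ w.re ≤ Real.pi / 3} := by
  refine closure_minimal ?_ ?_
  · rintro w ⟨h0, h1⟩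
    exact ⟨h0.le, h1.le⟩
  · exact (isClosed_le continuous_const Complex.continuous_re).inter
      (isClosed_le Complex.continuous_re continuous_const)

/-- functions differentiable on the open strip `(-π/3, 2π/3)` -/
lemma diffContOnCl_strip {f : ℂ → ℂ}
    (hf : DifferentiableOn ℂ f {w : ℂ | 0 ≤ w.re ∧ w.re ≤ Real.pi / 3}) :
    DiffContOnCl ℂ f (Complex.re ⁻¹' Ioo (0 : ℝ) (Real.pi / 3)) := by
  refine ⟨hf.mono ?_, ?_⟩
  · rintro w ⟨h0, h1⟩
    exact ⟨h0.le, h1.le⟩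
  · exact hf.continuousOn.mono closure_strip_subset

/-- Phragmen-Lindelöf in the strip for functions of exponential type `2` -/
lemma pl_strip {f : ℂ → ℂ} {C K : ℝ}
    (hf : DifferentiableOn ℂ f {w : ℂ | 0 ≤ w.re ∧ w.re ≤ Real.pi / 3})
    (hB : ∀ w : ℂ, 0 ≤ w.re → w.re ≤ Real.pi / 3 → 1 ≤ |w.im| → K ≤ |w.im| →
      ‖f w‖ ≤ C * Real.exp (2 * |w.im|))
    (h0 : ∀ y : ℝ, ‖f ((y : ℂ) * I)‖ ≤ 1)
    (h1 : ∀ y : ℝ, ‖f ((y : ℂ) * I + (Real.pi / 3 : ℝ))‖ ≤ 1) {w : ℂ}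
    (hw0 : 0 ≤ w.re) (hw1 : w.re ≤ Real.pi / 3) : ‖f w‖ ≤ 1 := by
  refine PhragmenLindelof.vertical_strip (a := 0) (b := Real.pi / 3) (diffContOnCl_strip hf)
    ?_ ?_ ?_ hw0 hw1
  · refine ⟨1, ?_, 2, ?_⟩
    · have := Real.pi_pos
      rw [sub_zero, lt_div_iff₀ (by positivity)]
      linarith
    · refine Asymptotics.IsBigO.of_bound |C| ?_
      rw [eventually_inf_principal]
      have h3 : ∀ᶠ w : ℂ in comap (_root_.abs ∘ Complex.im) atTop, max 1 K ≤ |w.im| :=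
        tendsto_comap.eventually (eventually_ge_atTop (max 1 K))
      filter_upwards [h3] with w hw hw'
      have h4 := hB w hw'.1.le hw'.2.le ((le_max_left _ _).trans hw) ((le_max_right _ _).trans hw)
      refine h4.trans ?_
      rw [Real.norm_eq_abs, abs_of_pos (Real.exp_pos _), one_mul]
      have h5 : 2 * |w.im| ≤ 2 * Real.exp |w.im| := by
        have := Real.add_one_le_exp |w.im|
        linarith
      calc C * Real.exp (2 * |w.im|) ≤ |C| * Real.exp (2 * |w.im|) := by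
            gcongr; exact le_abs_self C
        _ ≤ _ := by gcongr
  · intro z hz
    have : z = ((z.im : ℝ) : ℂ) * I := by
      apply Complex.ext <;> simp [hz]
    rw [this]
    exact h0 _
  · intro z hz
    have : z = ((z.im : ℝ) : ℂ) * I + (Real.pi / 3 : ℝ) := by
      apply Complex.ext <;> simp [hz]
    rw [this]
    exact h1 _

lemma qq_left (y : ℝ) : qq ((y : ℂ) * I) = ((Real.exp (-(3 * y)) : ℝ) : ℂ) := by
  unfold qq
  rw [Complex.ofReal_exp]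
  congr 1
  push_cast
  linear_combination (3 * (y : ℂ)) * Complex.I_mul_I

lemma qq_right (y : ℝ) : qq ((y : ℂ) * I + (Real.pi / 3 : ℝ)) =
    ((-Real.exp (-(3 * y)) : ℝ) : ℂ) := by
  have h1 : qq ((y : ℂ) * I + (Real.pi / 3 : ℝ)) = qq ((y : ℂ) * I) * Complex.exp (Real.pi * I) := by
    unfold qq
    rw [← Complex.exp_add]
    congr 1
    push_cast
    ring
  rw [h1, qq_left, Complex.exp_pi_mul_I]
  push_cast
  ring

/-- **Lemma A**: the upper bound in the strip. -/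
theorem EigFun.lemA (h : EigFun N Λ) (hN : 1 ≤ N) {w : ℂ} (h0 : 0 ≤ w.re)
    (h1 : w.re ≤ Real.pi / 3) : ‖Λ w‖ ≤ ‖Maj N w‖ := by
  obtain ⟨C, hC⟩ := h.bdd
  have key : ‖Λ w / Maj N w‖ ≤ 1 := by
    refine pl_strip (f := fun w => Λ w / Maj N w) (C := |C|) (K := 0) ?_ ?_ ?_ ?_ h0 h1
    · refine DifferentiableOn.div (h.diff.mono strip_open_subset)
        (differentiable_Maj N).differentiableOn ?_
      rintro z ⟨h2, h3⟩
      exact Maj_ne h2 h3
    · intro z h2 h3 _ _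
      rw [norm_div]
      have e1 := one_le_norm_Maj (N := N) h2 h3
      calc ‖Λ z‖ / ‖Maj N z‖ ≤ ‖Λ z‖ / 1 := by gcongr
        _ = ‖Λ z‖ := div_one _
        _ ≤ C := hC z h2 h3
        _ ≤ |C| * 1 := by rw [mul_one]; exact le_abs_self C
        _ ≤ |C| * Real.exp (2 * |z.im|) := by
            gcongr
            exact Real.one_le_exp (by positivity)
    · intro y
      have e1 := h.norm_left_le hN y
      have e2 := norm_Maj_side hN (w := (y : ℂ) * I) (by rw [qq_left, Complex.ofReal_re])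
      simp only [Complex.mul_im, Complex.ofReal_re, Complex.I_im, mul_one, Complex.ofReal_im,
        Complex.I_re, mul_zero, add_zero] at e2
      rw [norm_div]
      exact div_le_one_of_le₀ (e1.trans e2) (norm_nonneg _)
    · intro y
      have e1 := h.norm_left_le hN y
      have e2 := norm_Maj_side hN (w := (y : ℂ) * I + (Real.pi / 3 : ℝ))
        (by rw [qq_right, Complex.ofReal_re])
      have e3 : ((y : ℂ) * I + (Real.pi / 3 : ℝ)).im = y := by simp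
      rw [e3] at e2
      rw [norm_div, h.right_eq, RCLike.norm_conj]
      exact div_le_one_of_le₀ (e1.trans e2) (norm_nonneg _)
  rw [norm_div] at key
  have e1 := one_le_norm_Maj (N := N) h0 h1
  exact (div_le_one₀ (by linarith)).1 key

/-- **Lemma A**, exponential form. -/
theorem EigFun.norm_le_exp (h : EigFun N Λ) (hN : 1 ≤ N) {w : ℂ} (h0 : 0 ≤ w.re)
    (h1 : w.re ≤ Real.pi / 3) : ‖Λ w‖ ≤ Real.exp (2 * Real.cosh (3 * w.im) / N) :=
  (h.lemA hN h0 h1).trans (norm_Maj_le hN w)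

/-- The centre: `‖Λ (π/6)‖ ≤ e^{2/N}`. -/
theorem EigFun.norm_centre_le (h : EigFun N Λ) (hN : 1 ≤ N) :
    ‖Λ ((Real.pi / 6 : ℝ) : ℂ)‖ ≤ Real.exp (2 / N) := by
  have := h.norm_le_exp hN (w := ((Real.pi / 6 : ℝ) : ℂ)) (by simp; positivity)
    (by simp; linarith [Real.pi_pos])
  simpa using this

end MP6bd
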