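import Mathlib
import Pool.Agent.Lib.SixB.S1LemA

/-!
# Step 1, Lemma B: no zeros near the centre at low energy

Let `Λ` be an eigenvalue function, `N ≥ 1` and `e^{-E} ≤ ‖Λ (π/6)‖`. Then `Λ` has no zero `w₀` in the
closed strip `0 ≤ Re w₀ ≤ π / 3` with `cosh (3 Im w₀) ≤ 1 / (2 (max E 0 + 2 / N))`.
-/

set_option autoImplicit false

open Complex Set Filter Topology

namespace MP6bd

variable {N : ℕ} {Λ : ℂ → ℂ}

/-- `‖sin (u + i v)‖² = (cosh 2v - cos 2u) / 2` -/
lemma norm_sin_sq (z : ℂ) :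
    ‖Complex.sin z‖ ^ 2 = (Real.cosh (2 * z.im) - Real.cos (2 * z.re)) / 2 := by
  have h1 : Complex.sin z = ((Real.sin z.re * Real.cosh z.im : ℝ) : ℂ) +
      ((Real.cos z.re * Real.sinh z.im : ℝ) : ℂ) * I := by
    conv_lhs => rw [← Complex.re_add_im z, Complex.sin_add_mul_I]
    push_cast
    ring
  rw [← Complex.normSq_eq_norm_sq, h1, Complex.normSq_add_mul_I, Real.cosh_two_mul, Real.cos_two_mul]
  have e1 := Real.cosh_sq z.im
  have e2 := Real.sin_sq_add_cos_sq z.re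
  have e3 : Real.sin z.re ^ 2 = 1 - Real.cos z.re ^ 2 := by linarith
  calc (Real.sin z.re * Real.cosh z.im) ^ 2 + (Real.cos z.re * Real.sinh z.im) ^ 2
      = Real.sin z.re ^ 2 * Real.cosh z.im ^ 2 + Real.cos z.re ^ 2 * Real.sinh z.im ^ 2 := by ring
    _ = _ := by rw [e3, e1]; ring

lemma norm_cos_sq (z : ℂ) :
    ‖Complex.cos z‖ ^ 2 = (Real.cosh (2 * z.im) + Real.cos (2 * z.re)) / 2 := by
  have h1 := norm_sin_sq (z + ((Real.pi / 2 : ℝ) : ℂ))
  have h2 : Complex.sin (z + ((Real.pi / 2 : ℝ) : ℂ)) = Complex.cos z := by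
    push_cast
    exact Complex.sin_add_pi_div_two z
  rw [h2] at h1
  rw [h1]
  have e1 : (z + ((Real.pi / 2 : ℝ) : ℂ)).im = z.im := by simp
  have e2 : 2 * (z + ((Real.pi / 2 : ℝ) : ℂ)).re = 2 * z.re + Real.pi := by simp; ring
  rw [e1, e2, Real.cos_add_pi]
  ring

lemma conj_aux (y : ℝ) (w₀ : ℂ) : (3 * ((y : ℂ) * I + (starRingEnd ℂ) w₀) / 2) =
    -(starRingEnd ℂ) (3 * ((y : ℂ) * I - w₀) / 2) := by
  have e : (3 * ((y : ℂ) * I - w₀) / 2) = ((3 / 2 : ℝ) : ℂ) * ((y : ℂ) * I - w₀) := by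
    push_cast; ring
  rw [e, map_mul, Complex.conj_ofReal, map_sub, map_mul, Complex.conj_ofReal, Complex.conj_I]
  push_cast
  ring

lemma sqrt_two_ge : (1.4 : ℝ) ≤ √2 := by
  rw [Real.le_sqrt' (by norm_num)]; norm_num

/-! ### Removing a zero -/

/-- The zero `w₀` costs energy: `e^{-E} ≤ ‖Λ (π/6)‖` implies
`sin (3 x₀) / cosh (3 y₀) ≤ E + 2 / N`. -/
theorem EigFun.zero_cost (h : EigFun N Λ) (hN : 1 ≤ N) {w₀ : ℂ} (h0 : 0 < w₀.re)
    (h1 : w₀.re < Real.pi / 3) (hz : Λ w₀ = 0) {E : ℝ}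
    (hE : Real.exp (-E) ≤ ‖Λ ((Real.pi / 6 : ℝ) : ℂ)‖) :
    Real.sin (3 * w₀.re) / Real.cosh (3 * w₀.im) ≤ E + 2 / N := by
  have hpi := Real.pi_pos
  have hN' : (0 : ℝ) < N := by exact_mod_cast hN
  obtain ⟨D, hD⟩ : ∃ D : Set ℂ, D = {w : ℂ | -(Real.pi / 3) < w.re ∧ w.re < 2 * Real.pi / 3} :=
    ⟨_, rfl⟩
  have hDo : IsOpen D := by
    rw [hD]
    exact (isOpen_lt continuous_const Complex.continuous_re).inter
      (isOpen_lt Complex.continuous_re continuous_const)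
  have hw₀ : w₀ ∈ D := by rw [hD]; exact ⟨by linarith, by linarith⟩
  have hsub : {w : ℂ | 0 ≤ w.re ∧ w.re ≤ Real.pi / 3} ⊆ D := by rw [hD]; exact strip_open_subset
  -- `S w = sin (3 (w - w₀) / 2)`
  obtain ⟨S, hS⟩ : ∃ S : ℂ → ℂ, S = fun w => Complex.sin (3 * (w - w₀) / 2) := ⟨_, rfl⟩
  have hSd : Differentiable ℂ S := by rw [hS]; fun_prop
  have hS0 : S w₀ = 0 := by rw [hS]; simp
  have hS' : deriv S w₀ = 3 / 2 := by
    have e1 : HasDerivAt (fun w : ℂ => 3 * (w - w₀) / 2) (3 / 2) w₀ := by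
      have := (((hasDerivAt_id w₀).sub_const w₀).const_mul (3 : ℂ)).div_const 2
      simpa using this
    have e2 := e1.csin
    rw [hS, e2.deriv]
    simp
  have hSne : ∀ w : ℂ, 0 ≤ w.re → w.re ≤ Real.pi / 3 → w ≠ w₀ → S w ≠ 0 := by
    intro w hw0 hw1 hne hw
    have e1 : ‖S w‖ ^ 2 = 0 := by rw [hw]; simp
    rw [hS] at e1
    have e2 := norm_sin_sq (3 * (w - w₀) / 2)
    simp only at e1
    rw [e1] at e2
    have e3 : (3 * (w - w₀) / 2).im = 3 * (w.im - w₀.im) / 2 := by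
      have : (3 * (w - w₀) / 2) = ((3 / 2 : ℝ) : ℂ) * (w - w₀) := by push_cast; ring
      rw [this, Complex.im_ofReal_mul, Complex.sub_im]; ring
    have e4 : (3 * (w - w₀) / 2).re = 3 * (w.re - w₀.re) / 2 := by
      have : (3 * (w - w₀) / 2) = ((3 / 2 : ℝ) : ℂ) * (w - w₀) := by push_cast; ring
      rw [this, Complex.re_ofReal_mul, Complex.sub_re]; ring
    rw [e3, e4] at e2
    have e5 := Real.one_le_cosh (2 * (3 * (w.im - w₀.im) / 2))
    have e6 := Real.cos_le_one (2 * (3 * (w.re - w₀.re) / 2))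
    have e7 : Real.cosh (2 * (3 * (w.im - w₀.im) / 2)) = 1 := by linarith
    have e8 : Real.cos (2 * (3 * (w.re - w₀.re) / 2)) = 1 := by linarith
    have e9 : 2 * (3 * (w.im - w₀.im) / 2) = 0 := by
      by_contra hcon
      have := Real.one_lt_cosh.2 hcon
      linarith
    have e10 : 2 * (3 * (w.re - w₀.re) / 2) = 0 := by
      have := (Real.cos_eq_one_iff_of_lt_of_lt (x := 2 * (3 * (w.re - w₀.re) / 2))
        (by linarith) (by linarith)).1 e8
      exact this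
    exact hne (Complex.ext (by linarith) (by linarith))
  -- `S` and its slope
  have hds : ∀ w : ℂ, 0 ≤ w.re → w.re ≤ Real.pi / 3 → dslope S w₀ w ≠ 0 := by
    intro w hw0 hw1
    by_cases hne : w = w₀
    · rw [hne, dslope_same, hS']
      norm_num
    · rw [dslope_of_ne _ hne, slope_def_field, hS0, sub_zero]
      exact div_ne_zero (hSne w hw0 hw1 hne) (sub_ne_zero.2 hne)
  have hdSd : Differentiable ℂ (dslope S w₀) := by
    rw [← differentiableOn_univ] at hSd ⊢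
    exact (Complex.differentiableOn_dslope univ_mem).2 hSd
  have hdLd : DifferentiableOn ℂ (dslope Λ w₀) D :=
    (Complex.differentiableOn_dslope (hDo.mem_nhds hw₀)).2 (by rw [hD]; exact h.diff)
  -- the quotient
  obtain ⟨g, hg⟩ : ∃ g : ℂ → ℂ, g = fun w => dslope Λ w₀ w *
      Complex.sin (3 * (w + (starRingEnd ℂ) w₀) / 2) / (dslope S w₀ w * Maj N w) := ⟨_, rfl⟩
  have hgd : DifferentiableOn ℂ g {w : ℂ | 0 ≤ w.re ∧ w.re ≤ Real.pi / 3} := by
    rw [hg]
    refine DifferentiableOn.div ((hdLd.mono hsub).mul ?_)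
      (hdSd.differentiableOn.mul (differentiable_Maj N).differentiableOn) ?_
    · exact Differentiable.differentiableOn (by fun_prop)
    · rintro z ⟨h2, h3⟩
      exact mul_ne_zero (hds z h2 h3) (Maj_ne h2 h3)
  have hgne : ∀ w : ℂ, w ≠ w₀ → g w = Λ w *
      Complex.sin (3 * (w + (starRingEnd ℂ) w₀) / 2) / (S w * Maj N w) := by
    intro w hne
    rw [hg]
    simp only
    rw [dslope_of_ne _ hne, dslope_of_ne _ hne, slope_def_field, slope_def_field, hS0, hz, sub_zero,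
      sub_zero]
    have : w - w₀ ≠ 0 := sub_ne_zero.2 hne
    field_simp
  -- the conjugate sine
  have hconj : ∀ y : ℝ, ‖Complex.sin (3 * ((y : ℂ) * I + (starRingEnd ℂ) w₀) / 2)‖ =
      ‖S ((y : ℂ) * I)‖ := by
    intro y
    rw [hS]
    simp only
    have e1 := conj_aux y w₀
    rw [e1, Complex.sin_neg, norm_neg, Complex.sin_conj, RCLike.norm_conj]
  have hconj2 : ∀ y : ℝ,
      ‖Complex.sin (3 * ((y : ℂ) * I + (Real.pi / 3 : ℝ) + (starRingEnd ℂ) w₀) / 2)‖ =
      ‖S ((y : ℂ) * I + (Real.pi / 3 : ℝ))‖ := by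
    intro y
    rw [hS]
    simp only
    have e1 : (3 * ((y : ℂ) * I + (Real.pi / 3 : ℝ) + (starRingEnd ℂ) w₀) / 2) =
        3 * ((y : ℂ) * I + (starRingEnd ℂ) w₀) / 2 + Real.pi / 2 := by
      push_cast; ring
    have e2 : (3 * ((y : ℂ) * I + (Real.pi / 3 : ℝ) - w₀) / 2) =
        3 * ((y : ℂ) * I - w₀) / 2 + Real.pi / 2 := by
      push_cast; ring
    rw [e1, e2, Complex.sin_add_pi_div_two, Complex.sin_add_pi_div_two]
    have e3 := conj_aux y w₀
    rw [e3, Complex.cos_neg, Complex.cos_conj, RCLike.norm_conj]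
  obtain ⟨C, hC⟩ := h.bdd
  have hSlow : ∀ w : ℂ, |w₀.im| + 1 ≤ |w.im| → 1 / 2 ≤ ‖S w‖ := by
    intro w hw
    have e2 := norm_sin_sq (3 * (w - w₀) / 2)
    have e3 : (3 * (w - w₀) / 2).im = 3 * (w.im - w₀.im) / 2 := by
      have : (3 * (w - w₀) / 2) = ((3 / 2 : ℝ) : ℂ) * (w - w₀) := by push_cast; ring
      rw [this, Complex.im_ofReal_mul, Complex.sub_im]; ring
    rw [e3] at e2
    have e4 := Real.cos_le_one (2 * (3 * (w - w₀) / 2).re)
    have e5 : 1 ≤ |w.im - w₀.im| := by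
      have := abs_sub_abs_le_abs_sub w.im w₀.im
      linarith
    have e6 : (3 / 2 : ℝ) ≤ Real.cosh (2 * (3 * (w.im - w₀.im) / 2)) := by
      have e7 : 3 ≤ |2 * (3 * (w.im - w₀.im) / 2)| := by
        have : 2 * (3 * (w.im - w₀.im) / 2) = 3 * (w.im - w₀.im) := by ring
        rw [this, abs_mul, abs_of_pos (by norm_num : (0 : ℝ) < 3)]
        linarith
      rw [← Real.cosh_abs, Real.cosh_eq]
      have e8 := Real.add_one_le_exp |2 * (3 * (w.im - w₀.im) / 2)|
      have e9 := Real.exp_pos (-|2 * (3 * (w.im - w₀.im) / 2)|)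
      linarith
    have e9 : (1 / 2 : ℝ) ^ 2 ≤ ‖S w‖ ^ 2 := by
      rw [hS]
      simp only
      rw [e2]
      linarith
    exact le_of_sq_le_sq e9 (norm_nonneg _)
  have hgC : ‖g ((Real.pi / 6 : ℝ) : ℂ)‖ ≤ 1 := by
    refine pl_strip (C := |C| * Real.exp (3 * |w₀.im| / 2) * 2) (K := |w₀.im| + 1) hgd ?_ ?_ ?_
      (by simp; positivity) (by simp; linarith)
    · intro z h2 h3 h4 h5
      have hne : z ≠ w₀ := by
        rintro rfl
        linarith
      rw [hgne z hne, norm_div, norm_mul, norm_mul]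
      have e1 := one_le_norm_Maj (N := N) h2 h3
      have e2 := hSlow z h5
      have e3 : ‖Complex.sin (3 * (z + (starRingEnd ℂ) w₀) / 2)‖ ≤
          Real.exp (3 * |w₀.im| / 2) * Real.exp (2 * |z.im|) := by
        have e4 := norm_sin_sq (3 * (z + (starRingEnd ℂ) w₀) / 2)
        have e5 : (3 * (z + (starRingEnd ℂ) w₀) / 2).im = 3 * (z.im - w₀.im) / 2 := by
          have : (3 * (z + (starRingEnd ℂ) w₀) / 2) = ((3 / 2 : ℝ) : ℂ) * (z + (starRingEnd ℂ) w₀) := by
            push_cast; ring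
          rw [this, Complex.im_ofReal_mul, Complex.add_im, Complex.conj_im]; ring
        rw [e5] at e4
        have e6 := Real.neg_one_le_cos (2 * (3 * (z + (starRingEnd ℂ) w₀) / 2).re)
        have e7 : Real.cosh (2 * (3 * (z.im - w₀.im) / 2)) ≤
            Real.exp (3 * |w₀.im| + 3 * |z.im|) := by
          rw [← Real.cosh_abs]
          have e8 : |2 * (3 * (z.im - w₀.im) / 2)| ≤ 3 * |w₀.im| + 3 * |z.im| := by
            have : 2 * (3 * (z.im - w₀.im) / 2) = 3 * (z.im - w₀.im) := by ring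
            rw [this, abs_mul, abs_of_pos (by norm_num : (0 : ℝ) < 3)]
            have := abs_sub z.im w₀.im
            linarith
          have e9 : Real.cosh |2 * (3 * (z.im - w₀.im) / 2)| ≤
              Real.exp |2 * (3 * (z.im - w₀.im) / 2)| := by
            rw [Real.cosh_eq]
            have : Real.exp (-|2 * (3 * (z.im - w₀.im) / 2)|) ≤
                Real.exp |2 * (3 * (z.im - w₀.im) / 2)| :=
              Real.exp_le_exp.2 (by have := abs_nonneg (2 * (3 * (z.im - w₀.im) / 2)); linarith)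
            linarith
          exact e9.trans (Real.exp_le_exp.2 e8)
        have e8 : (1 : ℝ) ≤ Real.exp (3 * |w₀.im| + 3 * |z.im|) :=
          Real.one_le_exp (by positivity)
        have e9 : ‖Complex.sin (3 * (z + (starRingEnd ℂ) w₀) / 2)‖ ^ 2 ≤
            (Real.exp (3 * |w₀.im| / 2) * Real.exp (3 * |z.im| / 2)) ^ 2 := by
          rw [e4, ← Real.exp_add, ← Real.exp_nat_mul]
          have : ((2 : ℕ) : ℝ) * (3 * |w₀.im| / 2 + 3 * |z.im| / 2) = 3 * |w₀.im| + 3 * |z.im| := by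
            push_cast; ring
          rw [this]
          linarith
        refine (le_of_sq_le_sq e9 (by positivity)).trans ?_
        gcongr
        have := abs_nonneg z.im
        linarith
      have e4 : (1 / 2 : ℝ) ≤ ‖S z‖ * ‖Maj N z‖ := by nlinarith
      calc ‖Λ z‖ * ‖Complex.sin (3 * (z + (starRingEnd ℂ) w₀) / 2)‖ / (‖S z‖ * ‖Maj N z‖)
          ≤ (|C| * (Real.exp (3 * |w₀.im| / 2) * Real.exp (2 * |z.im|))) / (1 / 2) := by
            gcongr
            exact (hC z h2 h3).trans (le_abs_self C)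
        _ = _ := by ring
    · intro y
      have hne : (y : ℂ) * I ≠ w₀ := by
        intro he
        have := congrArg Complex.re he
        simp at this
        linarith
      have e1 := h.norm_left_le hN y
      have e2 := norm_Maj_side hN (w := (y : ℂ) * I) (by rw [qq_left, Complex.ofReal_re])
      simp only [Complex.mul_im, Complex.ofReal_re, Complex.I_im, mul_one, Complex.ofReal_im,
        Complex.I_re, mul_zero, add_zero] at e2
      rw [hgne _ hne, norm_div, norm_mul, norm_mul, hconj]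
      have e3 : 0 < ‖S ((y : ℂ) * I)‖ := norm_pos_iff.2 (hSne _ (by simp) (by simp; positivity) hne)
      rw [mul_comm ‖Λ _‖, mul_div_mul_left _ _ e3.ne']
      exact div_le_one_of_le₀ (e1.trans e2) (norm_nonneg _)
    · intro y
      have hne : (y : ℂ) * I + (Real.pi / 3 : ℝ) ≠ w₀ := by
        intro he
        have := congrArg Complex.re he
        simp at this
        linarith
      have e1 := h.norm_left_le hN y
      have e2 := norm_Maj_side hN (w := (y : ℂ) * I + (Real.pi / 3 : ℝ))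
        (by rw [qq_right, Complex.ofReal_re])
      have e4 : ((y : ℂ) * I + (Real.pi / 3 : ℝ)).im = y := by simp
      rw [e4] at e2
      rw [hgne _ hne, norm_div, norm_mul, norm_mul, hconj2, h.right_eq, RCLike.norm_conj]
      have e3 : 0 < ‖S ((y : ℂ) * I + (Real.pi / 3 : ℝ))‖ :=
        norm_pos_iff.2 (hSne _ (by simp; positivity) (by simp) hne)
      rw [mul_comm ‖Λ _‖, mul_div_mul_left _ _ e3.ne']
      exact div_le_one_of_le₀ (e1.trans e2) (norm_nonneg _)
  -- evaluate at the centre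
  have hne : ((Real.pi / 6 : ℝ) : ℂ) ≠ w₀ := by
    intro he
    rw [he, hz, norm_zero] at hE
    exact absurd hE (not_le.2 (Real.exp_pos _))
  rw [hgne _ hne, norm_div, norm_mul, norm_mul] at hgC
  have hSc : 0 < ‖S ((Real.pi / 6 : ℝ) : ℂ)‖ :=
    norm_pos_iff.2 (hSne _ (by simp; positivity) (by simp; linarith) hne)
  have hMc := one_le_norm_Maj (N := N) (w := ((Real.pi / 6 : ℝ) : ℂ)) (by simp; positivity)
    (by simp; linarith)
  have hMc' : ‖Maj N ((Real.pi / 6 : ℝ) : ℂ)‖ ≤ Real.exp (2 / N) := by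
    have := norm_Maj_le hN ((Real.pi / 6 : ℝ) : ℂ)
    simpa using this
  rw [div_le_one₀ (by positivity)] at hgC
  -- squares
  have k1 : ‖S ((Real.pi / 6 : ℝ) : ℂ)‖ ^ 2 =
      (Real.cosh (3 * w₀.im) - Real.sin (3 * w₀.re)) / 2 := by
    rw [hS]
    simp only
    rw [norm_sin_sq]
    have e3 : 2 * (3 * (((Real.pi / 6 : ℝ) : ℂ) - w₀) / 2).im = -(3 * w₀.im) := by
      have : (3 * (((Real.pi / 6 : ℝ) : ℂ) - w₀) / 2) = ((3 / 2 : ℝ) : ℂ) *
        (((Real.pi / 6 : ℝ) : ℂ) - w₀) := by push_cast; ring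
      rw [this, Complex.im_ofReal_mul, Complex.sub_im, Complex.ofReal_im]; ring
    have e4 : 2 * (3 * (((Real.pi / 6 : ℝ) : ℂ) - w₀) / 2).re = Real.pi / 2 - 3 * w₀.re := by
      have : (3 * (((Real.pi / 6 : ℝ) : ℂ) - w₀) / 2) = ((3 / 2 : ℝ) : ℂ) *
        (((Real.pi / 6 : ℝ) : ℂ) - w₀) := by push_cast; ring
      rw [this, Complex.re_ofReal_mul, Complex.sub_re, Complex.ofReal_re]; ring
    rw [e3, e4, Real.cosh_neg, Real.cos_pi_div_two_sub]
  have k2 : ‖Complex.sin (3 * (((Real.pi / 6 : ℝ) : ℂ) + (starRingEnd ℂ) w₀) / 2)‖ ^ 2 =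
      (Real.cosh (3 * w₀.im) + Real.sin (3 * w₀.re)) / 2 := by
    rw [norm_sin_sq]
    have e3 : 2 * (3 * (((Real.pi / 6 : ℝ) : ℂ) + (starRingEnd ℂ) w₀) / 2).im = -(3 * w₀.im) := by
      have : (3 * (((Real.pi / 6 : ℝ) : ℂ) + (starRingEnd ℂ) w₀) / 2) = ((3 / 2 : ℝ) : ℂ) *
        (((Real.pi / 6 : ℝ) : ℂ) + (starRingEnd ℂ) w₀) := by push_cast; ring
      rw [this, Complex.im_ofReal_mul, Complex.add_im, Complex.ofReal_im, Complex.conj_im]; ring
    have e4 : 2 * (3 * (((Real.pi / 6 : ℝ) : ℂ) + (starRingEnd ℂ) w₀) / 2).re =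
        3 * w₀.re + Real.pi / 2 := by
      have : (3 * (((Real.pi / 6 : ℝ) : ℂ) + (starRingEnd ℂ) w₀) / 2) = ((3 / 2 : ℝ) : ℂ) *
        (((Real.pi / 6 : ℝ) : ℂ) + (starRingEnd ℂ) w₀) := by push_cast; ring
      rw [this, Complex.re_ofReal_mul, Complex.add_re, Complex.ofReal_re, Complex.conj_re]; ring
    rw [e3, e4, Real.cosh_neg, Real.cos_add_pi_div_two]
    ring
  obtain ⟨c, hc⟩ : ∃ c, c = Real.cosh (3 * w₀.im) := ⟨_, rfl⟩
  obtain ⟨s, hs⟩ : ∃ s, s = Real.sin (3 * w₀.re) := ⟨_, rfl⟩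
  rw [← hc, ← hs] at k1 k2
  rw [← hc, ← hs]
  have hc1 : 1 ≤ c := by rw [hc]; exact Real.one_le_cosh _
  have hs0 : 0 ≤ s := by
    rw [hs]; exact Real.sin_nonneg_of_nonneg_of_le_pi (by linarith) (by linarith)
  -- `(c + s) ‖Λ‖² ≤ (c - s) e^{4/N}`
  have k3 : (c + s) * Real.exp (-(2 * E)) ≤ (c - s) * Real.exp (4 / N) := by
    have e1 : (Real.exp (-E) * ‖Complex.sin (3 * (((Real.pi / 6 : ℝ) : ℂ) +
        (starRingEnd ℂ) w₀) / 2)‖) ^ 2 ≤ (‖S ((Real.pi / 6 : ℝ) : ℂ)‖ * Real.exp (2 / N)) ^ 2 := by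
      refine pow_le_pow_left₀ (by positivity) ?_ 2
      calc _ ≤ ‖Λ ((Real.pi / 6 : ℝ) : ℂ)‖ * ‖Complex.sin (3 * (((Real.pi / 6 : ℝ) : ℂ) +
          (starRingEnd ℂ) w₀) / 2)‖ := by gcongr
        _ ≤ _ := hgC
        _ ≤ _ := by gcongr
    rw [mul_pow, mul_pow, k1, k2, ← Real.exp_nat_mul, ← Real.exp_nat_mul] at e1
    have e2 : ((2 : ℕ) : ℝ) * -E = -(2 * E) := by push_cast; ring
    have e3 : ((2 : ℕ) : ℝ) * (2 / (N : ℝ)) = 4 / N := by push_cast; ring
    rw [e2, e3] at e1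
    nlinarith
  -- `(c - s) / (c + s) ≤ exp (- 2 s / c)`
  have k4 : (c - s) ≤ (c + s) * Real.exp (-(2 * (s / c))) := by
    have e1 := one_sub_div_le (z := s / c) (by positivity)
    have e2 : (1 - s / c) / (1 + s / c) = (c - s) / (c + s) := by
      have : c ≠ 0 := by linarith
      have h3 : c + s ≠ 0 := by linarith
      field_simp
    rw [e2, div_le_iff₀ (by linarith)] at e1
    linarith
  have k5 : Real.exp (-(2 * E)) ≤ Real.exp (-(2 * (s / c)) + 4 / N) := by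
    have e1 : (c + s) * Real.exp (-(2 * E)) ≤
        (c + s) * (Real.exp (-(2 * (s / c))) * Real.exp (4 / N)) := by
      calc _ ≤ (c - s) * Real.exp (4 / N) := k3
        _ ≤ ((c + s) * Real.exp (-(2 * (s / c)))) * Real.exp (4 / N) := by gcongr
        _ = _ := by ring
    rw [Real.exp_add]
    exact le_of_mul_le_mul_left e1 (by linarith)
  have k6 := Real.exp_le_exp.1 k5
  have k7 : (4 : ℝ) / N = 2 * (2 / N) := by ring
  rw [k7] at k6
  linarith

/-- `‖tan (3 w / 2)‖² = (cosh 3y - cos 3x) / (cosh 3y + cos 3x)` -/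
lemma norm_tan_sq (w : ℂ) : ‖Complex.tan (3 * w / 2)‖ ^ 2 =
    (Real.cosh (3 * w.im) - Real.cos (3 * w.re)) / (Real.cosh (3 * w.im) + Real.cos (3 * w.re)) := by
  have e0 : (3 * w / 2) = ((3 / 2 : ℝ) : ℂ) * w := by push_cast; ring
  have e3 : 2 * (3 * w / 2).im = 3 * w.im := by rw [e0, Complex.im_ofReal_mul]; ring
  have e4 : 2 * (3 * w / 2).re = 3 * w.re := by rw [e0, Complex.re_ofReal_mul]; ring
  rw [Complex.tan_eq_sin_div_cos, norm_div, div_pow, norm_sin_sq, norm_cos_sq, e3, e4]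
  rw [div_div_div_cancel_right₀ (by norm_num)]

/-- Zeros near the left side are far away. -/
theorem EigFun.zero_side (h : EigFun N Λ) (hN : 1 ≤ N) {w₀ : ℂ} (h0 : 0 ≤ w₀.re)
    (h1 : w₀.re ≤ Real.pi / 12) (hz : Λ w₀ = 0) : (N : ℝ) / 4 < Real.cosh (3 * w₀.im) := by
  have hpi := Real.pi_pos
  have hN' : (1 : ℝ) ≤ N := by exact_mod_cast hN
  by_contra hcon
  rw [not_lt] at hcon
  have h2 := h.fusion w₀ h0 (by linarith)
  rw [hz, zero_mul, zero_sub, norm_neg, norm_one] at h2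
  obtain ⟨c, hc⟩ : ∃ c, c = Real.cosh (3 * w₀.im) := ⟨_, rfl⟩
  obtain ⟨s, hs⟩ : ∃ s, s = Real.cos (3 * w₀.re) := ⟨_, rfl⟩
  have hc1 : 1 ≤ c := by rw [hc]; exact Real.one_le_cosh _
  have hs1 : s ≤ 1 := by rw [hs]; exact Real.cos_le_one _
  have hs0 : 7 / 10 ≤ s := by
    have e1 : Real.cos (Real.pi / 4) ≤ s := by
      rw [hs]
      exact Real.cos_le_cos_of_nonneg_of_le_pi (by linarith) (by linarith) (by linarith)
    rw [Real.cos_pi_div_four] at e1
    have e2 := sqrt_two_ge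
    linarith
  have h3 : ‖Complex.tan (3 * w₀ / 2)‖ ^ 2 ≤ Real.exp (-(2 * (s / c))) := by
    rw [norm_tan_sq, ← hc, ← hs]
    have e1 := one_sub_div_le (z := s / c) (by positivity)
    have e2 : (1 - s / c) / (1 + s / c) = (c - s) / (c + s) := by
      have : c ≠ 0 := by linarith
      have h3 : c + s ≠ 0 := by linarith
      field_simp
    rwa [e2] at e1
  have h4 : ‖Complex.tan (3 * w₀ / 2)‖ ≤ Real.exp (-(s / c)) := by
    refine le_of_sq_le_sq (h3.trans (le_of_eq ?_)) (Real.exp_pos _).le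
    rw [← Real.exp_nat_mul]
    congr 1
    push_cast
    ring
  have h5 : ‖Complex.tan (3 * w₀ / 2)‖ ^ N ≤ Real.exp (-(N * (s / c))) := by
    calc _ ≤ (Real.exp (-(s / c))) ^ N := pow_le_pow_left₀ (norm_nonneg _) h4 N
      _ = _ := by rw [← Real.exp_nat_mul]; congr 1; ring
  have h6 : 14 / 5 ≤ N * (s / c) := by
    rw [← hc] at hcon
    have e1 : 0 < c := by linarith
    rw [← mul_div_assoc, le_div_iff₀ e1]
    nlinarith
  have h7 : Real.exp (-(N * (s / c))) ≤ Real.exp (-(14 / 5)) := Real.exp_le_exp.2 (by linarith)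
  have h8 : (4 : ℝ) ≤ Real.exp (14 / 5) := by
    have e1 : Real.exp (14 / 5) = Real.exp 1 * Real.exp (9 / 5) := by
      rw [← Real.exp_add]; norm_num
    have e2 := Real.exp_one_gt_d9
    have e3 : 1 + 9 / 5 ≤ Real.exp (9 / 5) := by
      have := Real.add_one_le_exp (9 / 5 : ℝ); linarith
    rw [e1]
    nlinarith
  have h9 : Real.exp (-(14 / 5)) ≤ 1 / 4 := by
    rw [Real.exp_neg, one_div]
    exact inv_anti₀ (by norm_num) h8
  linarith

/-- **Lemma B**: no zero of `Λ` near the centre at low energy. -/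
theorem EigFun.lemB (h : EigFun N Λ) (hN : 1 ≤ N) {E : ℝ}
    (hE : Real.exp (-E) ≤ ‖Λ ((Real.pi / 6 : ℝ) : ℂ)‖) {w : ℂ} (h0 : 0 ≤ w.re)
    (h1 : w.re ≤ Real.pi / 3) (hw : Real.cosh (3 * w.im) * (2 * (max E 0 + 2 / N)) ≤ 1) :
    Λ w ≠ 0 := by
  have hpi := Real.pi_pos
  have hN' : (0 : ℝ) < N := by exact_mod_cast hN
  have hN2 : (0 : ℝ) < 2 / N := by positivity
  have hE0 := le_max_right E 0
  have hE1 := le_max_left E 0
  intro hz
  have hc1 := Real.one_le_cosh (3 * w.im)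
  have hc4 : Real.cosh (3 * w.im) ≤ N / 4 := by
    have e1 : Real.cosh (3 * w.im) * (2 * (2 / N)) ≤ 1 := by
      refine le_trans ?_ hw
      gcongr
      linarith
    have e2 : Real.cosh (3 * w.im) * (2 * (2 / N)) = Real.cosh (3 * w.im) * 4 / N := by ring
    rw [e2, div_le_one hN'] at e1
    linarith
  rcases le_total w.re (Real.pi / 12) with h2 | h2
  · have := h.zero_side hN h0 h2 hz
    linarith
  rcases le_total (Real.pi / 4) w.re with h3 | h3
  · have e1 : Λ ((Real.pi / 3 : ℝ) - (starRingEnd ℂ) w) = 0 := by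
      rw [h.refl w h0 h1, hz, map_zero]
    have e2 : (((Real.pi / 3 : ℝ) : ℂ) - (starRingEnd ℂ) w).re = Real.pi / 3 - w.re := by simp
    have e3 : (((Real.pi / 3 : ℝ) : ℂ) - (starRingEnd ℂ) w).im = w.im := by simp
    have := h.zero_side hN (w₀ := ((Real.pi / 3 : ℝ) : ℂ) - (starRingEnd ℂ) w)
      (by rw [e2]; linarith) (by rw [e2]; linarith) e1
    rw [e3] at this
    linarith
  · have e1 := h.zero_cost hN (w₀ := w) (by linarith) (by linarith) hz hE
    have e2 : 7 / 10 ≤ Real.sin (3 * w.re) := by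
      have e3 : Real.sin (Real.pi / 4) ≤ Real.sin (3 * w.re) := by
        rcases le_total (3 * w.re) (Real.pi / 2) with h4 | h4
        · exact Real.sin_le_sin_of_le_of_le_pi_div_two (by linarith) h4 (by linarith)
        · rw [← Real.sin_pi_sub (3 * w.re)]
          exact Real.sin_le_sin_of_le_of_le_pi_div_two (by linarith) (by linarith) (by linarith)
      rw [Real.sin_pi_div_four] at e3
      have e4 := sqrt_two_ge
      linarith
    rw [div_le_iff₀ (by linarith)] at e1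
    have e3 : (E + 2 / N) * Real.cosh (3 * w.im) ≤ (max E 0 + 2 / N) * Real.cosh (3 * w.im) := by
      gcongr
    nlinarith

end MP6bd
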