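import Pool.Agent.Lib.SixB.A3Strands
import Pool.Agent.Lib.MP_6bd702_z.Z023

/-!
# 6BD: symmetries and the number of crossing strands

`At σ v v'`: the symmetry `σ` maps the boxes around `v` to the boxes around `v'`. `NF_act`: the
number of crossing strands is transported; `pr_NF_act`, `exp_NF_act`: its law is invariant.

`HW i c` is the half plane above, below, right of, left of the line at `c`. `exists_flat`: every
half plane whose line contains `v` is the image of the upper half plane at `(0, 0)`, so the law of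
the number of strands which cross a half annulus at a flat wall depends only on the radii
(`pr_NF_flat`, `exp_NF_flat`).
-/

set_option autoImplicit false

namespace Pool.Agent.SixB

open Finset Pool.Agent.Perc Pool.Agent.PercD Pool.Agent.PercN

variable {ω : Cfg} {v v' v'' : ℤ × ℤ} {r R : ℤ} {σ τ : Sym}

/-- Composition of symmetries. -/
def scomp (σ τ : Sym) : Sym where
  toHSym := σ.toHSym.comp τ.toHSym
  inv := τ.inv.comp σ.inv
  hv := by
    show σ.inv.v.trans τ.inv.v = (τ.v.trans σ.v).symm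
    rw [σ.hv, τ.hv]
    rfl
  hf := by
    show σ.inv.f.trans τ.inv.f = (τ.f.trans σ.f).symm
    rw [σ.hf, τ.hf]
    rfl
  hs := by
    show σ.inv.s.trans τ.inv.s = (τ.s.trans σ.s).symm
    rw [σ.hs, τ.hs]
    rfl
  hb := by
    show xor τ.inv.b σ.inv.b = xor σ.b τ.b
    rw [σ.hb, τ.hb, Bool.xor_comm]

theorem scomp_maps {x₀ x₁ y₀ y₁ x₀' x₁' y₀' y₁' x₀'' x₁'' y₀'' y₁'' : ℤ}
    (hσ : σ.Maps x₀' x₁' y₀' y₁' x₀'' x₁'' y₀'' y₁'') (hτ : τ.Maps x₀ x₁ y₀ y₁ x₀' x₁' y₀' y₁') :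
    (scomp σ τ).Maps x₀ x₁ y₀ y₁ x₀'' x₁'' y₀'' y₁'' where
  img := by
    show (fun x => σ.f (τ.f x)) '' _ = _
    rw [← hσ.img, ← hτ.img, Set.image_image]
  inR w := (hσ.inR (τ.v w)).trans (hτ.inR w)
  onBd w := (hσ.onBd (τ.v w)).trans (hτ.onBd w)
  bdE a := (hσ.bdE (τ.s a)).trans (hτ.bdE a)
  wi ρ x w := (hσ.wi ρ (τ.v x) (τ.v w)).trans (hτ.wi ρ x w)
  par p q := (hσ.par (τ.v p) (τ.v q)).trans (hτ.par p q)

/-- `σ` maps the boxes around `v` to the boxes around `v'`. -/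
def At (σ : Sym) (v v' : ℤ × ℤ) : Prop := ∀ ρ : ℤ,
  σ.Maps (v.1 - ρ) (v.1 + ρ) (v.2 - ρ) (v.2 + ρ) (v'.1 - ρ) (v'.1 + ρ) (v'.2 - ρ) (v'.2 + ρ)

theorem At.img (h : At σ v v') (ρ : ℤ) :
    σ.f '' (BR v ρ : Set (ℤ × ℤ)) = (BR v' ρ : Set (ℤ × ℤ)) := (h ρ).img

theorem At.image_BR (h : At σ v v') (ρ : ℤ) : (BR v ρ).image σ.f = BR v' ρ := (h ρ).image_RF

theorem At.mem_BR (h : At σ v v') {ρ : ℤ} {f : ℤ × ℤ} : σ.f f ∈ BR v' ρ ↔ f ∈ BR v ρ := by
  have h1 : σ.f f ∈ (BR v' ρ : Set (ℤ × ℤ)) ↔ f ∈ (BR v ρ : Set (ℤ × ℤ)) := by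
    rw [← h.img ρ]
    exact σ.f.injective.mem_set_image
  simpa only [mem_coe] using h1

theorem At.mem_An (h : At σ v v') {f : ℤ × ℤ} : σ.f f ∈ An v' r R ↔ f ∈ An v r R := by
  rw [PercN.mem_An, PercN.mem_An, h.mem_BR, h.mem_BR]

theorem At.bdR (h : At σ v v') {a : UE} : BdR v' r (σ.s a) ↔ BdR v r a := (h r).bdE a

theorem At.img_F (h : At σ v v') (F : Set (ℤ × ℤ)) :
    σ.f '' (F ∩ (An v r R : Set (ℤ × ℤ))) = (σ.f '' F) ∩ (An v' r R : Set (ℤ × ℤ)) := by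
  rw [Set.image_inter σ.f.injective]
  congr 1
  ext g
  obtain ⟨f, rfl⟩ := σ.f.surjective g
  rw [σ.f.injective.mem_set_image, mem_coe, mem_coe, h.mem_An]

theorem At.comp (h : At σ v' v'') (h' : At τ v v') : At (scomp σ τ) v v'' := fun ρ =>
  scomp_maps (h ρ) (h' ρ)

/-- The number of crossing strands is transported. -/
theorem NF_act (h : At σ v v') (F : Set (ℤ × ℤ)) (hr : 0 ≤ r) (ω : Cfg) :
    NF (σ.f '' F) v' r R (σ.act ω) = NF F v r R ω := by
  classical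
  unfold NF
  refine (card_bij (fun b _ => σ.s b) ?_ ?_ ?_).symm
  · intro b hb
    rw [mem_filter] at hb ⊢
    obtain ⟨-, hb, a, ha, hab⟩ := hb
    have hb' := h.bdR.2 hb
    refine ⟨(hb'.inE hr).mem_UB, hb', σ.s a, ?_, h.bdR.2 hab⟩
    rw [← h.img_F, σ.mem_MM_iff]
    exact ha
  · intro b _ c _ hbc
    exact σ.s.injective hbc
  · intro b hb
    rw [mem_filter] at hb
    obtain ⟨-, hb, a, ha, hab⟩ := hb
    obtain ⟨b, rfl⟩ := σ.s.surjective b
    obtain ⟨a, rfl⟩ := σ.s.surjective a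
    rw [← h.img_F, σ.mem_MM_iff] at ha
    have hb' := h.bdR.1 hb
    exact ⟨b, mem_filter.2 ⟨(hb'.inE hr).mem_UB, hb', a, ha, h.bdR.1 hab⟩, rfl⟩

/-- The law of the number of crossing strands is invariant. -/
theorem pr_NF_act (h : At σ v v') (F : Set (ℤ × ℤ)) (hr : 0 ≤ r) (P : ℕ → Prop)
    {W W' : Finset (ℤ × ℤ)} (hW : BR v R ⊆ W) (hW' : BR v' R ⊆ W') :
    pr W' {ω | P (NF (σ.f '' F) v' r R ω)} = pr W {ω | P (NF F v r R ω)} := by
  have hd : ∀ (F : Set (ℤ × ℤ)) (v : ℤ × ℤ),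
      DepOn (BR v R : Set (ℤ × ℤ)) {ω | P (NF F v r R ω)} := by
    intro F v ω ω' hω
    exact depOn_NF F v r R P ω ω' fun f hf => hω f (mem_coe.2 (PercN.mem_An.1 (mem_coe.1 hf)).1)
  rw [pr_eq_of_depOn (hd F v) hW, pr_eq_of_depOn (hd (σ.f '' F) v') hW', ← h.image_BR R]
  rw [← Sym.pr_act σ (by rw [h.image_BR]; exact hd (σ.f '' F) v')]
  congr 1
  ext ω
  rw [Set.mem_ofPred_eq, Set.mem_ofPred_eq, Set.mem_ofPred_eq, NF_act h F hr]

/-- Expectations depend only on the law. -/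
theorem exp_eq_of_law {W W' : Finset (ℤ × ℤ)} {N N' : Cfg → ℕ}
    (h : ∀ k, pr W {ω | N ω = k} = pr W' {ω | N' ω = k}) (g : ℕ → ℝ) :
    (∑ T ∈ W.powerset, g (N (cfg T))) / 2 ^ W.card =
      (∑ T ∈ W'.powerset, g (N' (cfg T))) / 2 ^ W'.card := by
  classical
  obtain ⟨K, hK⟩ : ∃ K : ℕ, (∀ T ∈ W.powerset, N (cfg T) < K) ∧
      ∀ T ∈ W'.powerset, N' (cfg T) < K := by
    refine ⟨(W.powerset.sup fun T => N (cfg T)) + (W'.powerset.sup fun T => N' (cfg T)) + 1,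
      fun T hT => ?_, fun T hT => ?_⟩
    · have := Finset.le_sup (f := fun T => N (cfg T)) hT
      omega
    · have := Finset.le_sup (f := fun T => N' (cfg T)) hT
      omega
  have key : ∀ (W : Finset (ℤ × ℤ)) (N : Cfg → ℕ), (∀ T ∈ W.powerset, N (cfg T) < K) →
      (∑ T ∈ W.powerset, g (N (cfg T))) / 2 ^ W.card =
        ∑ k ∈ range K, g k * pr W {ω | N ω = k} := by
    intro W N hN
    have h1 : ∀ T ∈ W.powerset, g (N (cfg T)) =
        ∑ k ∈ range K, g k * (if cfg T ∈ {ω | N ω = k} then (1 : ℝ) else 0) := by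
      intro T hT
      rw [Finset.sum_eq_single (N (cfg T))]
      · rw [if_pos (show cfg T ∈ {ω | N ω = N (cfg T)} from rfl), mul_one]
      · intro k _ hk
        have : ¬ cfg T ∈ {ω | N ω = k} := fun h => hk (show N (cfg T) = k from h).symm
        rw [if_neg this, mul_zero]
      · intro hk
        exact absurd (mem_range.2 (hN T hT)) hk
    rw [Finset.sum_congr rfl h1, Finset.sum_comm, Finset.sum_div]
    refine Finset.sum_congr rfl fun k _ => ?_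
    rw [← Finset.mul_sum, mul_div_assoc, ProbA.pr_eq_sum]
    congr!
  rw [key W N hK.1, key W' N' hK.2]
  exact Finset.sum_congr rfl fun k _ => by rw [h k]

theorem exp_NF_act (h : At σ v v') (F : Set (ℤ × ℤ)) (hr : 0 ≤ r) (g : ℕ → ℝ)
    {W W' : Finset (ℤ × ℤ)} (hW : BR v R ⊆ W) (hW' : BR v' R ⊆ W') :
    (∑ T ∈ W'.powerset, g (NF (σ.f '' F) v' r R (cfg T))) / 2 ^ W'.card =
      (∑ T ∈ W.powerset, g (NF F v r R (cfg T))) / 2 ^ W.card :=
  exp_eq_of_law (fun k => pr_NF_act h F hr (fun n => n = k) hW hW') g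

/-! ## The four half planes -/

/-- The half planes: `0` above, `1` below, `2` right of, `3` left of the line at `c`. -/
def HW (i : Fin 4) (c : ℤ) : Set (ℤ × ℤ) :=
  match i with
  | 0 => {f | c ≤ f.2}
  | 1 => {f | f.2 < c}
  | 2 => {f | c ≤ f.1}
  | 3 => {f | f.1 < c}

/-- The coordinate of `v` which has to be on the line. -/
def cw (i : Fin 4) (v : ℤ × ℤ) : ℤ :=
  match i with
  | 0 => v.2
  | 1 => v.2
  | 2 => v.1
  | 3 => v.1

/-- The natural domain `F` is a half plane in the box of radius `R` around `v`, the line is at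
distance at most `d` from `v`. -/
def FlatAt (F : Set (ℤ × ℤ)) (v : ℤ × ℤ) (d R : ℤ) : Prop :=
  ∃ (i : Fin 4) (c : ℤ), |c - cw i v| ≤ d ∧ ∀ f ∈ BR v R, f ∈ F ↔ f ∈ HW i c

theorem at_symS (v v' : ℤ × ℤ) : At (symS (v'.1 - v.1) (v'.2 - v.2)) v v' := by
  intro ρ
  have := Sym.maps_S (v'.1 - v.1) (v'.2 - v.2) (v.1 - ρ) (v.1 + ρ) (v.2 - ρ) (v.2 + ρ)
  have e1 : v.1 - ρ + (v'.1 - v.1) = v'.1 - ρ := by ring
  have e2 : v.1 + ρ + (v'.1 - v.1) = v'.1 + ρ := by ring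
  have e3 : v.2 - ρ + (v'.2 - v.2) = v'.2 - ρ := by ring
  have e4 : v.2 + ρ + (v'.2 - v.2) = v'.2 + ρ := by ring
  rwa [e1, e2, e3, e4] at this

theorem at_symT (v : ℤ × ℤ) : At symT v (v.2, v.1) := fun _ => Sym.maps_T _ _ _ _

theorem at_symX (c : ℤ) (v : ℤ × ℤ) : At (symX c) v (c - v.1, v.2) := by
  intro ρ
  have := Sym.maps_X c (v.1 - ρ) (v.1 + ρ) (v.2 - ρ) (v.2 + ρ)
  have e1 : c - (v.1 + ρ) = c - v.1 - ρ := by ring
  have e2 : c - (v.1 - ρ) = c - v.1 + ρ := by ring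
  rwa [e1, e2] at this

/-- Every half plane is the image of the upper half plane. -/
theorem exists_flat (i : Fin 4) (v : ℤ × ℤ) : ∃ σ : Sym, At σ (0, 0) v ∧
    σ.f '' (HW 0 0) = HW i (cw i v) := by
  have hS : ∀ (p : ℤ × ℤ) (g : ℤ × ℤ), (symS p.1 p.2).f g = (g.1 + p.1, g.2 + p.2) :=
    fun p g => rfl
  have hT : ∀ g : ℤ × ℤ, symT.f g = (g.2, g.1) := fun g => rfl
  have hX : ∀ g : ℤ × ℤ, (symX 0).f g = (0 - g.1 - 1, g.2) := fun g => rfl
  have a1 : At (symS v.1 v.2) (0, 0) v := by simpa using at_symS (0, 0) v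
  have a2 : At symT (0, 0) (0, 0) := at_symT (0, 0)
  have a3 : At (symX 0) (0, 0) (0, 0) := by simpa using at_symX 0 (0, 0)
  fin_cases i
  · refine ⟨symS v.1 v.2, a1, ?_⟩
    ext ⟨x, y⟩
    simp only [HW, cw, Set.mem_image, Set.mem_ofPred_eq, hS]
    constructor
    · rintro ⟨⟨p, q⟩, h1, h2⟩
      simp only [Prod.mk.injEq] at h2
      omega
    · intro h
      exact ⟨(x - v.1, y - v.2), by simp only; omega, by simp⟩
  · refine ⟨scomp (symS v.1 v.2) (scomp symT (scomp (symX 0) symT)),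
      a1.comp (a2.comp (a3.comp a2)), ?_⟩
    ext ⟨x, y⟩
    have e : ∀ g : ℤ × ℤ, (scomp (symS v.1 v.2)
        (scomp symT (scomp (symX 0) symT))).f g = (g.1 + v.1, 0 - g.2 - 1 + v.2) :=
      fun g => rfl
    simp only [HW, cw, Set.mem_image, Set.mem_ofPred_eq, e]
    constructor
    · rintro ⟨⟨p, q⟩, h1, h2⟩
      simp only [Prod.mk.injEq] at h2
      simp only at h1
      omega
    · intro h
      refine ⟨(x - v.1, v.2 - y - 1), by simp only; omega, ?_⟩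
      simp only [Prod.mk.injEq]
      omega
  · refine ⟨scomp (symS v.1 v.2) symT, a1.comp a2, ?_⟩
    ext ⟨x, y⟩
    have e : ∀ g : ℤ × ℤ, (scomp (symS v.1 v.2) symT).f g = (g.2 + v.1, g.1 + v.2) :=
      fun g => rfl
    simp only [HW, cw, Set.mem_image, Set.mem_ofPred_eq, e]
    constructor
    · rintro ⟨⟨p, q⟩, h1, h2⟩
      simp only [Prod.mk.injEq] at h2
      simp only at h1
      omega
    · intro h
      refine ⟨(y - v.2, x - v.1), by simp only; omega, ?_⟩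
      simp only [Prod.mk.injEq]
      omega
  · refine ⟨scomp (symS v.1 v.2) (scomp (symX 0) symT), a1.comp (a3.comp a2), ?_⟩
    ext ⟨x, y⟩
    have e : ∀ g : ℤ × ℤ, (scomp (symS v.1 v.2) (scomp (symX 0) symT)).f g =
        (0 - g.2 - 1 + v.1, g.1 + v.2) := fun g => rfl
    simp only [HW, cw, Set.mem_image, Set.mem_ofPred_eq, e]
    constructor
    · rintro ⟨⟨p, q⟩, h1, h2⟩
      simp only [Prod.mk.injEq] at h2
      simp only at h1
      omega
    · intro h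
      refine ⟨(y - v.2, v.1 - x - 1), by simp only; omega, ?_⟩
      simp only [Prod.mk.injEq]
      omega

/-- `NF` depends only on the domain in the box. -/
theorem NF_congr {F F' : Set (ℤ × ℤ)} (h : ∀ f ∈ BR v R, f ∈ F ↔ f ∈ F') (ω : Cfg) :
    NF F v r R ω = NF F' v r R ω := by
  have e : F ∩ (An v r R : Set (ℤ × ℤ)) = F' ∩ (An v r R : Set (ℤ × ℤ)) := by
    ext f
    constructor
    · rintro ⟨h1, h2⟩
      exact ⟨(h f (PercN.mem_An.1 (mem_coe.1 h2)).1).1 h1, h2⟩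
    · rintro ⟨h1, h2⟩
      exact ⟨(h f (PercN.mem_An.1 (mem_coe.1 h2)).1).2 h1, h2⟩
  unfold NF
  rw [e]

/-- The law at a flat wall, line through the centre. -/
theorem pr_NF_flat (i : Fin 4) (v : ℤ × ℤ) (hr : 0 ≤ r) (P : ℕ → Prop) {W W' : Finset (ℤ × ℤ)}
    (hW : BR (0, 0) R ⊆ W) (hW' : BR v R ⊆ W') :
    pr W' {ω | P (NF (HW i (cw i v)) v r R ω)} = pr W {ω | P (NF (HW 0 0) (0, 0) r R ω)} := by
  obtain ⟨σ, h1, h2⟩ := exists_flat i v
  rw [← h2]
  exact pr_NF_act h1 (HW 0 0) hr P hW hW'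

theorem exp_NF_flat (i : Fin 4) (v : ℤ × ℤ) (hr : 0 ≤ r) (g : ℕ → ℝ) {W W' : Finset (ℤ × ℤ)}
    (hW : BR (0, 0) R ⊆ W) (hW' : BR v R ⊆ W') :
    (∑ T ∈ W'.powerset, g (NF (HW i (cw i v)) v r R (cfg T))) / 2 ^ W'.card =
      (∑ T ∈ W.powerset, g (NF (HW 0 0) (0, 0) r R (cfg T))) / 2 ^ W.card :=
  exp_eq_of_law (fun k => pr_NF_flat i v hr (fun n => n = k) hW hW') g

/-- The centre can be moved to the line. -/
theorem FlatAt.center {F : Set (ℤ × ℤ)} {d : ℤ} (h : FlatAt F v d R) (hd : 0 ≤ d) (hr : 0 ≤ r)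
    (hR : r + 2 * d < R) : ∃ (i : Fin 4) (v' : ℤ × ℤ), BR v' (R - d) ⊆ BR v R ∧
      ∀ ω, NF F v r R ω ≤ NF (HW i (cw i v')) v' (r + d) (R - d) ω := by
  obtain ⟨i, c, hc, hF⟩ := h
  have hc := abs_le.1 hc
  have key : ∀ v' : ℤ × ℤ, cw i v' = c → |v'.1 - v.1| ≤ d → |v'.2 - v.2| ≤ d →
      BR v' (R - d) ⊆ BR v R ∧
        ∀ ω, NF F v r R ω ≤ NF (HW i (cw i v')) v' (r + d) (R - d) ω := by
    intro v' e h1 h2
    have h1 := abs_le.1 h1
    have h2 := abs_le.1 h2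
    have hs1 : Sub v r v' (r + d) := by
      unfold PercD.Sub
      omega
    have hs2 : Sub v' (R - d) v R := by
      unfold PercD.Sub
      omega
    refine ⟨hs2.subset, fun ω => ?_⟩
    refine (NF_annulus F hr (by omega) hs1 hs2 (by omega) ω).trans (le_of_eq ?_)
    refine NF_congr (fun f hf => ?_) ω
    rw [e]
    exact hF f (hs2.subset hf)
  have h0 : |v.1 - v.1| ≤ d := by simpa using hd
  have h0' : |v.2 - v.2| ≤ d := by simpa using hd
  fin_cases i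
  · refine ⟨0, (v.1, c), key (v.1, c) rfl h0 (abs_le.2 ?_)⟩
    simpa [cw] using hc
  · refine ⟨1, (v.1, c), key (v.1, c) rfl h0 (abs_le.2 ?_)⟩
    simpa [cw] using hc
  · refine ⟨2, (c, v.2), key (c, v.2) rfl (abs_le.2 ?_) h0'⟩
    simpa [cw] using hc
  · refine ⟨3, (c, v.2), key (c, v.2) rfl (abs_le.2 ?_) h0'⟩
    simpa [cw] using hc

end Pool.Agent.SixB
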