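import Pool.Agent.Lib.SixB.S3Large
import Pool.Agent.Lib.SixB.NFSym

/-!
# 6BD: moments of the number of crossing strands on the event of at least `m` crossings

`exp_NF_ge`: for `2 r < R` the moment `E (lam ^ NF ; NF ≥ m)` of the annulus `r : R` is at most
`C (lam)` times the probability that the annulus `2 r : R` is crossed at least `m` times, for every
natural domain.
-/

set_option autoImplicit false

namespace Pool.Agent.SixB

open Finset Pool.Agent.Perc Pool.Agent.PercD Pool.Agent.PercN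

open Classical in
/-- Expectations of a function of a count on an event, by the values of the count. -/
theorem exp_on_eq {W : Finset (ℤ × ℤ)} {N : Cfg → ℕ} {E : Set Cfg} {K : ℕ}
    (hK : ∀ T ∈ W.powerset, N (cfg T) < K) (g : ℕ → ℝ) :
    (∑ T ∈ W.powerset, if cfg T ∈ E then g (N (cfg T)) else 0) / 2 ^ W.card =
      ∑ k ∈ range K, g k * pr W ({ω | N ω = k} ∩ E) := by
  have h1 : ∀ T ∈ W.powerset, (if cfg T ∈ E then g (N (cfg T)) else 0) =
      ∑ k ∈ range K, g k * (if cfg T ∈ {ω | N ω = k} ∩ E then (1 : ℝ) else 0) := by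
    intro T hT
    rw [Finset.sum_eq_single (N (cfg T))]
    · by_cases h : cfg T ∈ E
      · rw [if_pos h, if_pos ⟨rfl, h⟩, mul_one]
      · rw [if_neg h, if_neg fun h' => h h'.2, mul_zero]
    · intro k _ hk
      rw [if_neg fun h => hk (show N (cfg T) = k from h.1).symm, mul_zero]
    · intro hk
      exact absurd (mem_range.2 (hK T hT)) hk
  rw [Finset.sum_congr rfl h1, Finset.sum_comm, Finset.sum_div]
  refine Finset.sum_congr rfl fun k _ => ?_
  rw [← Finset.mul_sum, mul_div_assoc, ProbA.pr_eq_sum]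
  congr!

theorem exists_bound (W : Finset (ℤ × ℤ)) (N : Cfg → ℕ) :
    ∃ K : ℕ, ∀ T ∈ W.powerset, N (cfg T) < K := by
  refine ⟨(W.powerset.sup fun T => N (cfg T)) + 1, fun T hT => ?_⟩
  have := Finset.le_sup (f := fun T => N (cfg T)) hT
  omega

open Classical in
/-- Independence of a count and an event. -/
theorem exp_mul_indep {A B W : Finset (ℤ × ℤ)} {N : Cfg → ℕ} {E : Set Cfg}
    (hN : ∀ k, DepOn (A : Set (ℤ × ℤ)) {ω | N ω = k}) (hE : DepOn (B : Set (ℤ × ℤ)) E)
    (hd : Disjoint A B) (hA : A ⊆ W) (hB : B ⊆ W) (g : ℕ → ℝ) :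
    (∑ T ∈ W.powerset, if cfg T ∈ E then g (N (cfg T)) else 0) / 2 ^ W.card =
      (∑ T ∈ W.powerset, g (N (cfg T))) / 2 ^ W.card * pr W E := by
  obtain ⟨K, hK⟩ := exists_bound W N
  have h2 := exp_on_eq (E := Set.univ) hK g
  simp only [Set.mem_univ, if_true, Set.inter_univ] at h2
  rw [exp_on_eq hK g, h2, Finset.sum_mul]
  refine Finset.sum_congr rfl fun k _ => ?_
  rw [pr_indep (hN k) hE hd hA hB, pr_eq_of_depOn (hN k) hA, pr_eq_of_depOn hE hB, mul_assoc]

open Classical in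
/-- The moment on the event of at least `m` crossings. -/
theorem exp_NF_ge {lam : ℝ} (hlam : 1 ≤ lam) : ∃ C : ℝ, 0 < C ∧
    ∀ (F : Set (ℤ × ℤ)) (v : ℤ × ℤ) (r R : ℤ) (W : Finset (ℤ × ℤ)) (m : ℕ), 0 < r → 2 * r < R →
      BR v R ⊆ W →
      (∑ T ∈ W.powerset, if m ≤ NF F v r R (cfg T) then lam ^ NF F v r R (cfg T) else 0) /
        2 ^ W.card ≤ C * pr W {ω | m ≤ NF F v (2 * r) R ω} := by
  obtain ⟨C, hC, h⟩ := NF_moment 1 hlam
  refine ⟨C, hC, fun F v r R W m hr hrR hW => ?_⟩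
  have hs1 : BR v (2 * r) ⊆ BR v R := (Sub.refl' hrR.le).subset
  have hA : An v r (2 * r) ⊆ W := fun f hf => hW (hs1 (PercN.mem_An.1 hf).1)
  have hB : An v (2 * r) R ⊆ W := fun f hf => hW (PercN.mem_An.1 hf).1
  have hd : Disjoint (An v r (2 * r)) (An v (2 * r) R) := by
    rw [Finset.disjoint_left]
    intro f hf hf'
    exact (PercN.mem_An.1 hf').2 (PercN.mem_An.1 hf).1
  have hN : ∀ k, DepOn (An v r (2 * r) : Set (ℤ × ℤ)) {ω | NF F v r (2 * r) ω = k} := fun k =>
    depOn_NF F v r (2 * r) fun n => n = k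
  have hE : DepOn (An v (2 * r) R : Set (ℤ × ℤ)) {ω | m ≤ NF F v (2 * r) R ω} :=
    depOn_NF F v (2 * r) R fun n => m ≤ n
  have key := exp_mul_indep hN hE hd hA hB fun n => lam ^ n
  have h1 := h F v r (2 * r) W hr (by omega) (by push_cast; omega) (hs1.trans hW)
  have h2 : (∑ T ∈ W.powerset, if m ≤ NF F v r R (cfg T) then lam ^ NF F v r R (cfg T) else 0) ≤
      ∑ T ∈ W.powerset, if cfg T ∈ {ω | m ≤ NF F v (2 * r) R ω} then
        lam ^ NF F v r (2 * r) (cfg T) else 0 := by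
    refine Finset.sum_le_sum fun T _ => ?_
    have e1 : NF F v r R (cfg T) ≤ NF F v (2 * r) R (cfg T) :=
      NF_annulus F hr.le (by omega) (Sub.refl' (by omega)) (Sub.refl' le_rfl) hrR _
    have e2 : NF F v r R (cfg T) ≤ NF F v r (2 * r) (cfg T) :=
      NF_annulus F hr.le hr.le (Sub.refl' le_rfl) (Sub.refl' hrR.le) (by omega) _
    by_cases hm : m ≤ NF F v r R (cfg T)
    · rw [if_pos hm, if_pos (show cfg T ∈ {ω | m ≤ NF F v (2 * r) R ω} from hm.trans e1)]
      exact pow_le_pow_right₀ hlam e2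
    · rw [if_neg hm]
      split_ifs
      · positivity
      · exact le_rfl
  refine (div_le_div_of_nonneg_right h2 (by positivity)).trans ?_
  refine le_trans (le_of_eq ?_) (mul_le_mul_of_nonneg_right h1 (pr_nonneg _ _))
  rw [← key]
  congr!

end Pool.Agent.SixB
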