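import Pool.Agent.Lib.SixB.A1Main
import Pool.Agent.Lib.SixB.NFSym
import Pool.Agent.Lib.SixB.NFMom

/-!
# 6BD, item (A1), part 4: exponential moments, all walls

`nf_one_wall`: any natural domain which is a half plane (four directions) in the box of radius `R`
around `v`, with the wall at distance at most `r` from `v`: a strand crosses the annulus `r : R` with
probability at most `C r / R`. `exp_nf_one_wall`: the same with exponential moments. `nf_one_wall'`: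
wall at distance at most `d`. `oneLeg`: the event form.
-/

set_option autoImplicit false

namespace Pool.Agent.SixB

open Finset Pool.Agent.Perc Pool.Agent.PercD Pool.Agent.PercN Pool.Agent.Perc6

variable {ω : Cfg} {v : ℤ × ℤ} {r R : ℤ}

/-- (A1) at a flat wall, line at distance at most `d` from the centre. -/
theorem nf_one_wall' : ∃ C : ℝ, 0 < C ∧ ∀ (F : Set (ℤ × ℤ)) (v : ℤ × ℤ) (d r R : ℤ)
    (W : Finset (ℤ × ℤ)), FlatAt F v d R → 0 ≤ d → 0 < r → 0 < R → BR v R ⊆ W →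
      pr W {ω | 1 ≤ NF F v r R ω} ≤ C * (r + d) / R := by
  obtain ⟨C, hC, h⟩ := A1.a1
  refine ⟨2 * C + 4, by positivity, fun F v d r R W hF hd hr hR' hW => ?_⟩
  have hrr : (0 : ℝ) < r := by exact_mod_cast hr
  have hRr : (0 : ℝ) < R := by exact_mod_cast hR'
  have hdr : (0 : ℝ) ≤ d := by exact_mod_cast hd
  by_cases hR : 4 * (r + d) < R
  · obtain ⟨i, v', h1, h2⟩ := hF.center hd hr.le (by omega)
    have k1 : pr W {ω | 1 ≤ NF F v r R ω} ≤
        pr W {ω | 1 ≤ NF (HW i (cw i v')) v' (r + d) (R - d) ω} :=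
      pr_mono _ fun ω hω => le_trans (show 1 ≤ NF F v r R ω from hω) (h2 ω)
    have k2 := pr_NF_flat i v' (r := r + d) (R := R - d) (by omega) (fun n => 1 ≤ n)
      (W := BR (0, 0) (R - d)) (W' := W) subset_rfl (h1.trans hW)
    have k3 := h (0, 0) (r + d) (R - d) (BR (0, 0) (R - d)) (by omega) (by omega)
      (fun f hf => mem_coe.1 (A1.HB_sub_BR (mem_coe.2 hf)))
    refine k1.trans ?_
    rw [k2]
    refine k3.trans ?_
    have hpos : (0 : ℝ) < ((R - d : ℤ) : ℝ) := by exact_mod_cast (by omega : 0 < R - d)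
    rw [div_le_div_iff₀ hpos hRr]
    have k4 : (R : ℝ) ≤ 2 * ((R - d : ℤ) : ℝ) := by exact_mod_cast (by omega : R ≤ 2 * (R - d))
    push_cast at k4 hpos ⊢
    have k5 : C * (r + d) * R ≤ C * (r + d) * (2 * (R - d)) :=
      mul_le_mul_of_nonneg_left k4 (by positivity)
    have k6 : 0 ≤ 4 * ((r : ℝ) + d) * (R - d) := by positivity
    nlinarith
  · refine (pr_le_one _ _).trans ?_
    rw [le_div_iff₀ hRr]
    have : (R : ℝ) ≤ 4 * (r + d) := by exact_mod_cast (by omega : R ≤ 4 * (r + d))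
    have k6 : 0 ≤ C * ((r : ℝ) + d) := by positivity
    nlinarith

/-- (A1) at a flat wall. -/
theorem nf_one_wall : ∃ C : ℝ, 0 < C ∧ ∀ (F : Set (ℤ × ℤ)) (v : ℤ × ℤ) (r R : ℤ)
    (W : Finset (ℤ × ℤ)), 1 ≤ r → r ≤ R → FlatAt F v r R → BR v R ⊆ W →
      pr W {ω | 1 ≤ NF F v r R ω} ≤ C * ((r : ℝ) / R) := by
  obtain ⟨C, hC, h⟩ := nf_one_wall'
  refine ⟨2 * C, by positivity, fun F v r R W hr hrR hF hW => ?_⟩
  refine (h F v r r R W hF (by omega) (by omega) (by omega) hW).trans (le_of_eq ?_)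
  ring

/-- (A1) with exponential moments, line at distance at most `d` from the centre. -/
theorem exp_nf_one_wall' {lam : ℝ} (hlam : 1 ≤ lam) : ∃ C : ℝ, 0 < C ∧
    ∀ (F : Set (ℤ × ℤ)) (v : ℤ × ℤ) (d r R : ℤ) (W : Finset (ℤ × ℤ)), FlatAt F v d R → 0 ≤ d →
      1 ≤ r → 2 * r < R → BR v R ⊆ W →
      (∑ T ∈ W.powerset, if 1 ≤ NF F v r R (cfg T) then lam ^ NF F v r R (cfg T) else 0) /
        2 ^ W.card ≤ C * (r + d) / R := by
  obtain ⟨C, hC, h⟩ := nf_one_wall'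
  obtain ⟨C', hC', h'⟩ := exp_NF_ge hlam
  refine ⟨2 * C * C', by positivity, fun F v d r R W hF hd hr hrR hW => ?_⟩
  have hRr : (0 : ℝ) < R := by exact_mod_cast (by omega : 0 < R)
  have hdr : (0 : ℝ) ≤ d := by exact_mod_cast hd
  refine (h' F v r R W 1 (by omega) hrR hW).trans ?_
  have h1 := h F v d (2 * r) R W hF hd (by omega) (by omega) hW
  calc C' * pr W {ω | 1 ≤ NF F v (2 * r) R ω} ≤ C' * (C * ((2 * r : ℤ) + d) / R) :=
        mul_le_mul_of_nonneg_left h1 hC'.le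
    _ ≤ 2 * C * C' * (r + d) / R := by
        rw [mul_div_assoc', div_le_div_iff_of_pos_right hRr]
        push_cast
        have : 0 ≤ C * C' * d := by positivity
        nlinarith

/-- (A1) with exponential moments. -/
theorem exp_nf_one_wall {lam : ℝ} (hlam : 1 ≤ lam) : ∃ C : ℝ, 0 < C ∧
    ∀ (F : Set (ℤ × ℤ)) (v : ℤ × ℤ) (r R : ℤ) (W : Finset (ℤ × ℤ)), 1 ≤ r → 2 * r < R →
      FlatAt F v r R → BR v R ⊆ W →
      (∑ T ∈ W.powerset, if 1 ≤ NF F v r R (cfg T) then lam ^ NF F v r R (cfg T) else 0) /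
        2 ^ W.card ≤ C * ((r : ℝ) / R) := by
  obtain ⟨C, hC, h⟩ := exp_nf_one_wall' hlam
  refine ⟨2 * C, by positivity, fun F v r R W hr hrR hF hW => ?_⟩
  refine (h F v r r R W hF (by omega) hr hrR hW).trans (le_of_eq ?_)
  ring

/-! ### The event form -/

namespace A1

/-- One strand crosses the half annulus above `v`. -/
def X1 (v : ℤ × ℤ) (r R : ℤ) : Set Cfg :=
  {ω | ∃ b a : UE, BdR v r b ∧ BdR v R a ∧ a ∈ MM ω {f | f ∈ BR v R ∧ f ∉ BR v r ∧ v.2 ≤ f.2} b}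

theorem X1_region : {f : ℤ × ℤ | f ∈ BR v R ∧ f ∉ BR v r ∧ v.2 ≤ f.2} = HA v r R := by
  ext f
  rw [mem_HA, Set.mem_ofPred_eq, mem_BR, mem_BR]
  tauto

/-- (A1) in the form of `A2.TwoLegs`. -/
theorem oneLeg : ∃ C : ℝ, 0 < C ∧ ∀ (v : ℤ × ℤ) (r R : ℤ) (W : Finset (ℤ × ℤ)), 1 ≤ r → r ≤ R →
    BR v R ⊆ W → pr W (X1 v r R) ≤ C * ((r : ℝ) / R) := by
  classical
  obtain ⟨C, hC, h⟩ := a1
  refine ⟨C, hC, fun v r R W hr hR hW => ?_⟩
  have h1 := h v r R W (by omega) (by omega)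
    (fun f hf => hW (mem_coe.1 (HB_sub_BR (mem_coe.2 hf))))
  rw [← mul_div_assoc]
  refine (pr_mono _ fun ω hω => ?_).trans h1
  obtain ⟨b, a, hb, ha, hm⟩ := hω
  rw [X1_region] at hm
  rw [Set.mem_ofPred_eq]
  unfold NF
  refine card_pos.2 ⟨b, ?_⟩
  rw [mem_filter]
  exact ⟨(hb.inE (by omega)).mem_UB, hb, a, hm, ha⟩

end A1

end Pool.Agent.SixB
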