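import Pool.Agent.Lib.MP_6bd702_zc.Y030

/-!
# 6BD, item (A3): exponential moments of the number of strands which cross an annulus

`NF F v r R ω` is the number of strands of the natural domain `F` (all faces outside `F` are cut off)
which cross the annulus between the boxes of radius `r` and `R` around `v`. It is at most the number
`NC v r R ω` for the plane, whatever the walls are. `exp_NC`, `exp_NF`: for every `lam` there is `J`
such that `lam ^ N` has bounded expectation for the annulus `r : 2 ^ J r`, uniformly in the position,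
in `r`, in the window and in the domain.
-/

set_option autoImplicit false

namespace Pool.Agent.SixB

open Finset Pool.Agent.Perc Pool.Agent.PercD Pool.Agent.PercN

variable {ω : Cfg} {v v' : ℤ × ℤ} {r r' R R' : ℤ}

open Classical in
/-- The number of strands of the domain `F` which cross the annulus. -/
noncomputable def NF (F : Set (ℤ × ℤ)) (v : ℤ × ℤ) (r R : ℤ) (ω : Cfg) : ℕ :=
  ((UB v r).filter fun b => BdR v r b ∧
    ∃ a ∈ MM ω (F ∩ (An v r R : Set (ℤ × ℤ))) b, BdR v R a).card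

/-- Walls do not create crossing strands. -/
theorem NF_le_NC (F : Set (ℤ × ℤ)) (v : ℤ × ℤ) (r R : ℤ) (ω : Cfg) :
    NF F v r R ω ≤ NC v r R ω := by
  classical
  unfold NF PercN.NC NP
  refine card_le_card fun b hb => ?_
  rw [mem_filter] at hb ⊢
  obtain ⟨h1, h2, a, h3, h4⟩ := hb
  exact ⟨h1, h2, a, MM_mono Set.inter_subset_right h3, h4, trivial⟩

theorem NF_mono {F F' : Set (ℤ × ℤ)} (h : F ⊆ F') (v : ℤ × ℤ) (r R : ℤ) (ω : Cfg) :
    NF F v r R ω ≤ NF F' v r R ω := by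
  classical
  unfold NF
  refine card_le_card fun b hb => ?_
  rw [mem_filter] at hb ⊢
  obtain ⟨h1, h2, a, h3, h4⟩ := hb
  exact ⟨h1, h2, a, MM_mono (Set.inter_subset_inter_left _ h) h3, h4⟩

theorem NF_univ (v : ℤ × ℤ) (r R : ℤ) (ω : Cfg) : NF Set.univ v r R ω = NC v r R ω := by
  classical
  unfold NF PercN.NC NP
  congr 1
  ext b
  rw [mem_filter, mem_filter, Set.univ_inter]
  simp only [and_true]

theorem depOn_NF (F : Set (ℤ × ℤ)) (v : ℤ × ℤ) (r R : ℤ) (P : ℕ → Prop) :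
    DepOn (An v r R : Set (ℤ × ℤ)) {ω | P (NF F v r R ω)} := by
  classical
  intro ω ω' h
  have : NF F v r R ω = NF F v r R ω' := by
    unfold NF
    congr 1
    ext b
    rw [mem_filter, mem_filter,
      MM_congr' (ω := ω) (ω' := ω') (F := F ∩ (An v r R : Set (ℤ × ℤ))) fun f hf => h f hf.2]
  rw [Set.mem_ofPred_eq, Set.mem_ofPred_eq, this]

theorem depOn_NC (v : ℤ × ℤ) (r R : ℤ) (P : ℕ → Prop) :
    DepOn (An v r R : Set (ℤ × ℤ)) {ω | P (NC v r R ω)} := by
  have := depOn_NF Set.univ v r R P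
  simpa only [NF_univ] using this

/-- A smaller annulus is crossed at least as often. -/
theorem NF_annulus (F : Set (ℤ × ℤ)) (hr : 0 ≤ r) (hr' : 0 ≤ r') (h1 : Sub v r v' r')
    (h2 : Sub v' R' v R) (h3 : r' < R') (ω : Cfg) : NF F v r R ω ≤ NF F v' r' R' ω := by
  classical
  have hrR : Sub v r v R := by
    unfold PercD.Sub at *
    omega
  have H : ∀ b ∈ (UB v r).filter (fun b => BdR v r b ∧
      ∃ a ∈ MM ω (F ∩ (An v r R : Set (ℤ × ℤ))) b, BdR v R a),
      ∃ b', b' ∈ MM ω (F ∩ (An v r R : Set (ℤ × ℤ))) b ∧ BdR v' r' b' ∧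
        ∃ a' ∈ MM ω (F ∩ (An v' r' R' : Set (ℤ × ℤ))) b', BdR v' R' a' := by
    intro b hb
    rw [mem_filter] at hb
    obtain ⟨-, hb, a, ha, hab⟩ := hb
    have hin : InE v' r' b := h1.inE (hb.inE hr)
    rcases PercS5.last_exit' hin ha with h4 | ⟨b', hb1, hb2, hb3⟩
    · exfalso
      unfold InE InR at h4
      unfold BdR BdE at hab
      unfold PercD.Sub at h1 h2
      obtain ⟨x, y, c⟩ := a
      cases c <;> simp only [ua_mk, ub_false, ub_true] at h4 hab <;> omega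
    · refine ⟨b', hb1, hb2, ?_⟩
      have hin' : InE v' R' b' := (Sub.refl' h3.le).inE (hb2.inE hr')
      have hsub : (((F ∩ (An v r R : Set (ℤ × ℤ))) \ (BR v' r' : Set (ℤ × ℤ))) ∩
          (BR v' R' : Set (ℤ × ℤ))) ⊆ F ∩ (An v' r' R' : Set (ℤ × ℤ)) := by
        rintro f ⟨⟨⟨hf, -⟩, hf'⟩, hf2⟩
        refine ⟨hf, ?_⟩
        rw [mem_coe, mem_An]
        exact ⟨mem_coe.1 hf2, fun h => hf' (mem_coe.2 h)⟩
      rcases Perc6.N1Aux.first_exitF hin' hb3 with h5 | ⟨c, h5, h6⟩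
      · refine ⟨a, MM_mono hsub h5, ?_⟩
        have h6 := MM_mono (F' := (BR v' R' : Set (ℤ × ℤ))) Set.inter_subset_right h5
        exact bdR_of_sub h2 (MM_inE hin' h6) hab
      · exact ⟨c, MM_mono hsub h5, h6⟩
  choose! t ht1 ht2 ht3 using H
  unfold NF
  refine card_le_card_of_injOn t (fun b hb => ?_) ?_
  · have hb' := mem_coe.1 hb
    rw [mem_coe, mem_filter]
    exact ⟨((ht2 b hb').inE hr').mem_UB, ht2 b hb', ht3 b hb'⟩
  · intro b hb c hc hbc
    have hb' := mem_coe.1 hb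
    have hc' := mem_coe.1 hc
    have kb := ht1 b hb'
    have kc := ht1 c hc'
    rw [← hbc] at kc
    obtain ⟨hb1, hb2, a, ha, hab⟩ := mem_filter.1 hb'
    obtain ⟨hc1, hc2, -⟩ := mem_filter.1 hc'
    have sub : ∀ {x : UE}, BdF (An v r R : Set (ℤ × ℤ)) x →
        BdF (F ∩ (An v r R : Set (ℤ × ℤ))) x := by
      intro x hx d hd hd'
      exact hx d hd.2 hd'.2
    have hne : ∀ {x : UE}, BdR v r x → x ≠ a := by
      intro x hx hxa
      subst hxa
      unfold BdR BdE at hx hab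
      unfold PercD.Sub at h1 h2
      omega
    have e1 : b ∈ MM ω (F ∩ (An v r R : Set (ℤ × ℤ))) a := MM_symm ha
    have e2 : c ∈ MM ω (F ∩ (An v r R : Set (ℤ × ℤ))) a :=
      MM_trans (MM_trans e1 kb) (MM_symm kc)
    exact other_unique (sub (bdF_out hab)) e1 e2 (sub (bdF_in hb2)) (sub (bdF_in hc2))
      (hne hb2) (hne hc2)

/-- The tail of the number of strands which cross the annulus `r : 2 ^ J r`. -/
theorem tail_NC : ∃ q : ℝ, 0 < q ∧ q < 1 ∧ ∀ (J : ℕ) (v : ℤ × ℤ) (r : ℤ) (W : Finset (ℤ × ℤ)),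
    0 < r → BR v (2 ^ J * r) ⊆ W → ∀ k : ℕ,
      pr W {ω | 8 * k ≤ NC v r (2 ^ J * r) ω + 7} ≤ (4 * q ^ k) ^ J := by
  obtain ⟨q, hq0, hq1, hq⟩ := pr_NC_le
  refine ⟨q, hq0, hq1, ?_⟩
  intro J v r W hr hW k
  -- the event of all annuli
  have key : ∀ J : ℕ, BR v (2 ^ J * r) ⊆ W →
      pr W {ω | ∀ j < J, 8 * k ≤ NC v (2 ^ j * r) (2 ^ (j + 1) * r) ω + 7} ≤ (4 * q ^ k) ^ J ∧
      DepOn (BR v (2 ^ J * r) : Set (ℤ × ℤ))
        {ω | ∀ j < J, 8 * k ≤ NC v (2 ^ j * r) (2 ^ (j + 1) * r) ω + 7} := by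
    intro J
    induction J with
    | zero =>
      intro _
      refine ⟨by rw [pow_zero]; exact pr_le_one _ _, ?_⟩
      intro ω ω' _
      simp
    | succ J ih =>
      intro hW
      have hpow : (0 : ℤ) < 2 ^ J := by positivity
      have hpr : (0 : ℤ) < 2 ^ J * r := by positivity
      have e2 : (2 : ℤ) ^ (J + 1) * r = 2 * (2 ^ J * r) := by ring
      have hsub : BR v (2 ^ J * r) ⊆ BR v (2 ^ (J + 1) * r) :=
        (Sub.refl' (by rw [e2]; omega)).subset
      obtain ⟨ih1, ih2⟩ := ih (hsub.trans hW)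
      have hset : {ω | ∀ j < J + 1, 8 * k ≤ NC v (2 ^ j * r) (2 ^ (j + 1) * r) ω + 7} =
          {ω | ∀ j < J, 8 * k ≤ NC v (2 ^ j * r) (2 ^ (j + 1) * r) ω + 7} ∩
            {ω | 8 * k ≤ NC v (2 ^ J * r) (2 ^ (J + 1) * r) ω + 7} := by
        ext ω
        simp only [Set.mem_ofPred_eq, Set.mem_inter_iff, Nat.forall_lt_succ_right]
      have hdA : DepOn (An v (2 ^ J * r) (2 ^ (J + 1) * r) : Set (ℤ × ℤ))
          {ω | 8 * k ≤ NC v (2 ^ J * r) (2 ^ (J + 1) * r) ω + 7} :=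
        depOn_NC v _ _ fun m => 8 * k ≤ m + 7
      have hAs : An v (2 ^ J * r) (2 ^ (J + 1) * r) ⊆ BR v (2 ^ (J + 1) * r) :=
        fun f hf => (mem_An.1 hf).1
      have hdis : Disjoint (BR v (2 ^ J * r)) (An v (2 ^ J * r) (2 ^ (J + 1) * r)) := by
        rw [Finset.disjoint_left]
        intro f hf hf'
        exact (mem_An.1 hf').2 hf
      refine ⟨?_, ?_⟩
      · rw [hset, pr_indep ih2 hdA hdis (hsub.trans hW) (hAs.trans hW), pow_succ]
        have h1 : pr (BR v (2 ^ J * r))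
            {ω | ∀ j < J, 8 * k ≤ NC v (2 ^ j * r) (2 ^ (j + 1) * r) ω + 7} ≤ (4 * q ^ k) ^ J := by
          rw [← pr_eq_of_depOn ih2 (hsub.trans hW)]
          exact ih1
        have h2 : pr (An v (2 ^ J * r) (2 ^ (J + 1) * r))
            {ω | 8 * k ≤ NC v (2 ^ J * r) (2 ^ (J + 1) * r) ω + 7} ≤ 4 * q ^ k := by
          rw [← pr_eq_of_depOn hdA (hAs.trans hW)]
          have := hq v (2 ^ J * r) W hpr (by rw [← e2]; exact hW) k
          rw [← e2] at this
          exact this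
        exact mul_le_mul h1 h2 (pr_nonneg _ _) (pow_nonneg (mul_nonneg (by norm_num)
          (pow_nonneg hq0.le _)) _)
      · rw [hset]
        intro ω ω' h
        have h1 := ih2 ω ω' fun f hf => h f (mem_coe.2 (hsub (mem_coe.1 hf)))
        have h2 := hdA ω ω' fun f hf => h f (mem_coe.2 (hAs (mem_coe.1 hf)))
        rw [Set.mem_inter_iff, Set.mem_inter_iff, h1, h2]
  refine le_trans (pr_mono _ fun ω hω => ?_) (key J hW).1
  rw [Set.mem_ofPred_eq] at hω ⊢
  intro j hj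
  have h2j : (1 : ℤ) ≤ 2 ^ j := one_le_pow₀ (by norm_num)
  have h2J : (2 : ℤ) ^ (j + 1) ≤ 2 ^ J := pow_le_pow_right₀ (by norm_num) hj
  have a1 : r ≤ 2 ^ j * r := by nlinarith
  have a2 : (2 : ℤ) ^ (j + 1) * r ≤ 2 ^ J * r := mul_le_mul_of_nonneg_right h2J hr.le
  have a3 : (2 : ℤ) ^ j * r < 2 ^ (j + 1) * r := by
    rw [pow_succ]
    nlinarith
  have := NF_annulus (v := v) (v' := v) (r := r) (r' := 2 ^ j * r) (R := 2 ^ J * r)
    (R' := 2 ^ (j + 1) * r) Set.univ hr.le (by positivity) (Sub.refl' a1) (Sub.refl' a2) a3 ω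
  rw [NF_univ, NF_univ] at this
  omega

/-- Exponential moments from the tail. -/
theorem exp_of_tail {q lam : ℝ} (hq0 : 0 < q) (hlam : 1 ≤ lam) {J : ℕ}
    (hJ : lam ^ 8 * q ^ J ≤ 1 / 2) (W : Finset (ℤ × ℤ)) (N : Cfg → ℕ)
    (hN : ∀ k : ℕ, pr W {ω | 8 * k ≤ N ω + 7} ≤ (4 * q ^ k) ^ J) :
    (∑ T ∈ W.powerset, lam ^ N (cfg T)) / 2 ^ W.card ≤ 1 + 4 ^ J := by
  classical
  have hpow : (0 : ℝ) < 2 ^ W.card := by positivity
  obtain ⟨K, hK⟩ : ∃ K : ℕ, ∀ T ∈ W.powerset, N (cfg T) ≤ K :=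
    ⟨W.powerset.sup fun T => N (cfg T), fun T hT => Finset.le_sup (f := fun T => N (cfg T)) hT⟩
  have h1 : ∀ T ∈ W.powerset, lam ^ N (cfg T) ≤
      1 + ∑ k ∈ range (K + 1), lam ^ (8 * (k + 1)) *
        (if cfg T ∈ {ω | 8 * (k + 1) ≤ N ω + 7} then (1 : ℝ) else 0) := by
    intro T hT
    have hnn : ∀ k ∈ range (K + 1), (0 : ℝ) ≤ lam ^ (8 * (k + 1)) *
        (if cfg T ∈ {ω | 8 * (k + 1) ≤ N ω + 7} then (1 : ℝ) else 0) := by
      intro k _
      split_ifs
      · positivity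
      · rw [mul_zero]
    by_cases h0 : N (cfg T) = 0
    · have h2 : lam ^ N (cfg T) = 1 := by rw [h0, pow_zero]
      have := Finset.sum_nonneg hnn
      linarith
    · set k := (N (cfg T) - 1) / 8 with hk
      have hkK : k ∈ range (K + 1) := by
        rw [mem_range]
        have := hK T hT
        omega
      have h4 : cfg T ∈ {ω | 8 * (k + 1) ≤ N ω + 7} := by
        rw [Set.mem_ofPred_eq]
        omega
      have h5 := Finset.single_le_sum hnn hkK
      simp only [if_pos h4, mul_one] at h5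
      have h6 : lam ^ N (cfg T) ≤ lam ^ (8 * (k + 1)) := pow_le_pow_right₀ hlam (by omega)
      linarith
  have h2 : ∀ k : ℕ, lam ^ (8 * (k + 1)) * (4 * q ^ (k + 1)) ^ J ≤ 4 ^ J * (1 / 2) ^ (k + 1) := by
    intro k
    have e : lam ^ (8 * (k + 1)) * (4 * q ^ (k + 1)) ^ J =
        4 ^ J * (lam ^ 8 * q ^ J) ^ (k + 1) := by
      rw [mul_pow, mul_pow, ← pow_mul, ← pow_mul, ← pow_mul]
      rw [show (k + 1) * J = J * (k + 1) by ring]
      ring
    rw [e]
    exact mul_le_mul_of_nonneg_left (pow_le_pow_left₀ (by positivity) hJ _) (by positivity)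
  calc (∑ T ∈ W.powerset, lam ^ N (cfg T)) / 2 ^ W.card
      ≤ (∑ T ∈ W.powerset, (1 + ∑ k ∈ range (K + 1), lam ^ (8 * (k + 1)) *
        (if cfg T ∈ {ω | 8 * (k + 1) ≤ N ω + 7} then (1 : ℝ) else 0))) / 2 ^ W.card :=
        div_le_div_of_nonneg_right (Finset.sum_le_sum h1) hpow.le
    _ = 1 + ∑ k ∈ range (K + 1), lam ^ (8 * (k + 1)) *
        pr W {ω | 8 * (k + 1) ≤ N ω + 7} := by
        rw [Finset.sum_add_distrib, Finset.sum_const, card_powerset, nsmul_eq_mul, mul_one,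
          Finset.sum_comm, add_div]
        push_cast
        rw [div_self hpow.ne', Finset.sum_div]
        congr 1
        refine Finset.sum_congr rfl fun k _ => ?_
        rw [← Finset.mul_sum, mul_div_assoc, ProbA.pr_eq_sum]
        congr!
    _ ≤ 1 + ∑ k ∈ range (K + 1), 4 ^ J * (1 / 2 : ℝ) ^ (k + 1) := by
        refine add_le_add le_rfl (Finset.sum_le_sum fun k _ => ?_)
        refine le_trans (mul_le_mul_of_nonneg_left (hN (k + 1)) (by positivity)) ?_
        have := h2 k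
        push_cast at this ⊢
        exact this
    _ ≤ 1 + 4 ^ J := by
        rw [← Finset.mul_sum]
        have h3 : ∑ k ∈ range (K + 1), (1 / 2 : ℝ) ^ (k + 1) ≤ 1 := by
          have h4 : ∀ n : ℕ, ∑ k ∈ range n, (1 / 2 : ℝ) ^ (k + 1) = 1 - (1 / 2) ^ n := by
            intro n
            induction n with
            | zero => simp
            | succ n ih => rw [Finset.sum_range_succ, ih]; ring
          rw [h4]
          have : (0 : ℝ) ≤ (1 / 2) ^ (K + 1) := by positivity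
          linarith
        have h5 : (0 : ℝ) ≤ 4 ^ J := by positivity
        nlinarith

/-- (A3), plane: all exponential moments of the number of strands which cross a wide annulus. -/
theorem exp_NC (lam : ℝ) (hlam : 1 ≤ lam) : ∃ (J : ℕ) (C : ℝ), 0 < C ∧
    ∀ (v : ℤ × ℤ) (r R : ℤ) (W : Finset (ℤ × ℤ)), 0 < r → 2 ^ J * r ≤ R →
      BR v R ⊆ W → (∑ T ∈ W.powerset, lam ^ NC v r R (cfg T)) / 2 ^ W.card ≤ C := by
  obtain ⟨q, hq0, hq1, hq⟩ := tail_NC
  have hl8 : (0 : ℝ) < lam ^ 8 := by positivity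
  obtain ⟨J, hJ⟩ := exists_pow_lt_of_lt_one (show (0 : ℝ) < 1 / (2 * lam ^ 8) by positivity) hq1
  have hJ' : lam ^ 8 * q ^ J ≤ 1 / 2 := by
    have h1 := mul_le_mul_of_nonneg_left hJ.le hl8.le
    refine h1.trans (le_of_eq ?_)
    field_simp
  refine ⟨J, 1 + 4 ^ J, by positivity, fun v r R W hr hR hW => ?_⟩
  have hsub : BR v (2 ^ J * r) ⊆ W := ((Sub.refl' hR).subset).trans hW
  refine exp_of_tail hq0 hlam hJ' W (fun ω => NC v r R ω) fun k => ?_
  refine le_trans (pr_mono _ fun ω hω => ?_) (hq J v r W hr hsub k)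
  rw [Set.mem_ofPred_eq] at hω ⊢
  by_cases hJ0 : J = 0
  · subst hJ0
    exfalso
    rw [pow_zero, mul_one] at hJ'
    have : (1 : ℝ) ≤ lam ^ 8 := one_le_pow₀ hlam
    linarith
  have h2J : (2 : ℤ) ≤ 2 ^ J := by
    calc (2 : ℤ) = 2 ^ 1 := by norm_num
      _ ≤ 2 ^ J := pow_le_pow_right₀ (by norm_num) (by omega)
  have := NF_annulus (v := v) (v' := v) (r := r) (r' := r) (R := R) (R' := 2 ^ J * r) Set.univ
    hr.le hr.le (Sub.refl' le_rfl) (Sub.refl' hR) (by nlinarith) ω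
  rw [NF_univ, NF_univ] at this
  omega

/-- (A3), any natural domain `F`: walls, corners, slits, islands. -/
theorem exp_NF (lam : ℝ) (hlam : 1 ≤ lam) : ∃ (J : ℕ) (C : ℝ), 0 < C ∧
    ∀ (F : Set (ℤ × ℤ)) (v : ℤ × ℤ) (r R : ℤ) (W : Finset (ℤ × ℤ)), 0 < r → 2 ^ J * r ≤ R →
      BR v R ⊆ W → (∑ T ∈ W.powerset, lam ^ NF F v r R (cfg T)) / 2 ^ W.card ≤ C := by
  obtain ⟨J, C, hC, h⟩ := exp_NC lam hlam
  refine ⟨J, C, hC, fun F v r R W hr hR hW => le_trans ?_ (h v r R W hr hR hW)⟩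
  refine div_le_div_of_nonneg_right (Finset.sum_le_sum fun T _ => ?_) (by positivity)
  exact pow_le_pow_right₀ hlam (NF_le_NC F v r R _)

end Pool.Agent.SixB
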