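import Pool.Agent.Lib.SixB.A1Lift
import Pool.Agent.Lib.SixB.A3Strands

/-!
# 6BD, item (A1), part 2: the half annulus

`HP v` is the half plane above `v`, `HP v ∩ An v r R` the half annulus. `wall_exit`: the strand of an
outer unit edge `e` of the half annulus reaches the inner box in `ω`; `ζ` agrees with `ω` on the
visited faces and with `ξ` elsewhere. If `ξ` has half circuits of the two colours around the inner
box, then the strand of `e` in the half box in the configuration `ζ` ends on the wall.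
-/

set_option autoImplicit false

namespace Pool.Agent.SixB.A1

open Finset Pool.Agent.Perc Pool.Agent.PercD Pool.Agent.PercN Pool.Agent.Perc6

/-- The half plane above `v`. -/
def HP (v : ℤ × ℤ) : Set (ℤ × ℤ) := {f | v.2 ≤ f.2}

/-- The half annulus. -/
def HA (v : ℤ × ℤ) (r R : ℤ) : Set (ℤ × ℤ) := HP v ∩ (An v r R : Set (ℤ × ℤ))

/-- The half box. -/
noncomputable def HB (v : ℤ × ℤ) (R : ℤ) : Finset (ℤ × ℤ) := RF (v.1 - R) (v.1 + R) v.2 (v.2 + R)

variable {ω ζ ξ : Cfg} {e a t : UE} {v : ℤ × ℤ} {r R : ℤ} {f : ℤ × ℤ}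

theorem mem_HB : f ∈ (HB v R : Set (ℤ × ℤ)) ↔
    v.1 - R ≤ f.1 ∧ f.1 < v.1 + R ∧ v.2 ≤ f.2 ∧ f.2 < v.2 + R := by
  unfold HB
  rw [mem_RF']

theorem mem_HA : f ∈ HA v r R ↔ v.2 ≤ f.2 ∧ (v.1 - R ≤ f.1 ∧ f.1 < v.1 + R ∧
    v.2 - R ≤ f.2 ∧ f.2 < v.2 + R) ∧ ¬ (v.1 - r ≤ f.1 ∧ f.1 < v.1 + r ∧
    v.2 - r ≤ f.2 ∧ f.2 < v.2 + r) := by
  unfold HA HP
  rw [Set.mem_inter_iff, mem_coe, mem_An, mem_BR, mem_BR]
  rfl

theorem HA_sub_HB (hR : 0 ≤ R) : HA v r R ⊆ (HB v R : Set (ℤ × ℤ)) := by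
  intro f hf
  rw [mem_HA] at hf
  rw [mem_HB]
  omega

theorem HA_eq (hr : 0 < r) (hR : r < R) : HA v r R =
    ((RF (v.1 - R) (v.1 - r) v.2 (v.2 + R) : Set (ℤ × ℤ)) ∪
      (RF (v.1 - R) (v.1 + R) (v.2 + r) (v.2 + R) : Set (ℤ × ℤ))) ∪
      (RF (v.1 + r) (v.1 + R) v.2 (v.2 + R) : Set (ℤ × ℤ)) := by
  ext f
  rw [mem_HA, Set.mem_union, Set.mem_union, mem_RF', mem_RF', mem_RF']
  omega

theorem hasPot_HA (hr : 0 < r) (hR : r < R) : HasPot (HA v r R) := by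
  rw [HA_eq hr hR]
  have h1 : HasPot ((RF (v.1 - R) (v.1 - r) v.2 (v.2 + R) : Set (ℤ × ℤ)) ∪
      (RF (v.1 - R) (v.1 + R) (v.2 + r) (v.2 + R) : Set (ℤ × ℤ))) := by
    refine PotB.glue (hasPot_RF _ _ _ _) (x₀ := v.1 - R) (x₁ := v.1 - r) (y₀ := v.2 + r)
      (y₁ := v.2 + R) (by omega) (by omega) ?_ ?_ ?_
    · intro f hf
      rw [mem_RF'] at hf ⊢
      omega
    · intro f hf
      rw [mem_RF'] at hf ⊢
      omega
    · intro w hw h1 h2 h3 h4
      have := PotB.VF_RF hw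
      omega
  refine PotB.glue h1 (x₀ := v.1 + r) (x₁ := v.1 + R) (y₀ := v.2 + r)
      (y₁ := v.2 + R) (by omega) (by omega) ?_ ?_ ?_
  · intro f hf
    right
    rw [mem_RF'] at hf ⊢
    omega
  · intro f hf
    rw [mem_RF'] at hf ⊢
    omega
  · intro w hw h1 h2 h3 h4
    rw [PotB.VF_union] at hw
    rcases hw with hw | hw
    · have := PotB.VF_RF hw
      omega
    · have := PotB.VF_RF hw
      omega

/-! ### Boundary unit edges -/

/-- The position of a boundary unit edge of the box which is a side of a face above `v`. -/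
theorem bdR_upper (hr : 0 < R) (he : BdR v R e) (hf : v.2 ≤ f.2) (hs : IsSide f e) :
    (e = (v.1 - R, e.2.1, true) ∧ v.2 ≤ e.2.1 ∧ e.2.1 < v.2 + R) ∨
    (e = (e.1, v.2 + R, false) ∧ v.1 - R ≤ e.1 ∧ e.1 < v.1 + R) ∨
    (e = (v.1 + R, e.2.1, true) ∧ v.2 ≤ e.2.1 ∧ e.2.1 < v.2 + R) := by
  obtain ⟨x, y, b⟩ := e
  unfold BdR BdE at he
  unfold IsSide bo le' to' ri at hs
  simp only [Prod.mk.injEq] at he hs ⊢
  rcases he with ⟨rfl, h1, h2, h3⟩ | ⟨rfl, h1, h2, h3⟩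
  · right; left
    have h4 : v.2 ≤ y := by
      rcases hs with h | h | h | h
      · omega
      · exact absurd h.2.2 (by decide)
      · omega
      · exact absurd h.2.2 (by decide)
    refine ⟨⟨trivial, by omega, rfl⟩, h1, h2⟩
  · have h4 : v.2 ≤ y := by
      rcases hs with h | h | h | h
      · exact absurd h.2.2 (by decide)
      · omega
      · exact absurd h.2.2 (by decide)
      · omega
    rcases h3 with h3 | h3
    · left
      exact ⟨⟨h3, trivial, rfl⟩, h4, h2⟩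
    · right; right
      exact ⟨⟨h3, trivial, rfl⟩, h4, h2⟩

theorem bdF_wall {F : Set (ℤ × ℤ)} (hF : F ⊆ HP v) {x : ℤ} : BdF F (x, v.2, false) := by
  intro d hd hd'
  have h1 := hF hd
  have h2 := hF hd'
  unfold HP at h1 h2
  rw [Set.mem_ofPred_eq] at h1 h2
  cases d <;> simp only [Tips.ahead, Bool.not_true, Bool.not_false] at h1 h2 <;> omega

theorem bdF_mono {F F' : Set (ℤ × ℤ)} (h : F ⊆ F') (ha : BdF F' a) : BdF F a :=
  fun d hd hd' => ha d (h hd) (h hd')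

theorem HA_sub_HP : HA v r R ⊆ HP v := fun _ h => h.1

theorem HA_sub_An : HA v r R ⊆ (An v r R : Set (ℤ × ℤ)) := fun _ h => h.2

theorem wall_side_left {x : ℤ} (hx : v.1 - R ≤ x) (hx' : x < v.1 - r) (hr : 0 ≤ r) :
    ∃ f ∈ HA v r R, IsSide f ((x, v.2, false) : UE) := by
  refine ⟨(x, v.2), ?_, Or.inl rfl⟩
  rw [mem_HA]
  simp only
  omega

theorem wall_side_right {x : ℤ} (hx : v.1 + r ≤ x) (hx' : x < v.1 + R) (hr : 0 ≤ r) :
    ∃ f ∈ HA v r R, IsSide f ((x, v.2, false) : UE) := by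
  refine ⟨(x, v.2), ?_, Or.inl rfl⟩
  rw [mem_HA]
  simp only
  omega

/-! ### The potential of a crossing strand -/

variable {Φ : ℤ × ℤ → ZMod 2}

theorem only_two (hr : 0 < r) (hR : r < R) (he : BdR v R e) (ht : t ∈ MM ω (HA v r R) e)
    (htb : BdR v r t) {b : UE} (hb : b ∈ MM ω (HA v r R) e) (hbF : BdF (HA v r R) b) :
    b = e ∨ b = t := by
  by_cases h : b = e
  · exact Or.inl h
  · right
    refine other_unique (bdF_mono HA_sub_An (bdF_out he)) hb ht hbF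
      (bdF_mono HA_sub_An (bdF_in htb)) h ?_
    rintro rfl
    unfold BdR BdE at he htb
    omega

/-- The left and the right part of the wall are on different sides of a crossing strand. -/
theorem pot_corners (hr : 0 < r) (hR : r < R) (he : BdR v R e) (ht : t ∈ MM ω (HA v r R) e)
    (htb : BdR v r t) (hP : IsPot (HA v r R) (MM ω (HA v r R) e) Φ) :
    Φ (v.1 - R, v.2) ≠ Φ (v.1 + R, v.2) := by
  have hte : t ≠ e := by
    rintro rfl
    unfold BdR BdE at he htb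
    omega
  -- outer boundary unit edges different from `e` are not in the strand
  have hno : ∀ b : UE, BdR v R b → b ≠ e → b ∉ MM ω (HA v r R) e := by
    intro b hb hne hbM
    rcases only_two hr hR he ht htb hbM (bdF_mono HA_sub_An (bdF_out hb)) with h | h
    · exact hne h
    · subst h
      unfold BdR BdE at hb htb
      omega
  have sL : ∀ j, v.2 ≤ j → j < v.2 + R → ∃ f ∈ HA v r R, IsSide f ((v.1 - R, j, true) : UE) := by
    intro j h1 h2
    refine ⟨(v.1 - R, j), ?_, Or.inr (Or.inl rfl)⟩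
    rw [mem_HA]
    simp only
    omega
  have sR : ∀ j, v.2 ≤ j → j < v.2 + R → ∃ f ∈ HA v r R, IsSide f ((v.1 + R, j, true) : UE) := by
    intro j h1 h2
    refine ⟨(v.1 + R - 1, j), ?_, Or.inr (Or.inr (Or.inr ?_))⟩
    · rw [mem_HA]
      simp only
      omega
    · unfold ri
      simp
  have sT : ∀ i, v.1 - R ≤ i → i < v.1 + R →
      ∃ f ∈ HA v r R, IsSide f ((i, v.2 + R, false) : UE) := by
    intro i h1 h2
    refine ⟨(i, v.2 + R - 1), ?_, Or.inr (Or.inr (Or.inl ?_))⟩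
    · rw [mem_HA]
      simp only
      omega
    · unfold to'
      simp
  have bL : ∀ j, v.2 ≤ j → j < v.2 + R → BdR v R ((v.1 - R, j, true) : UE) := by
    intro j h1 h2
    exact Or.inr ⟨rfl, by simp only; omega, by simp only; omega, Or.inl rfl⟩
  have bR : ∀ j, v.2 ≤ j → j < v.2 + R → BdR v R ((v.1 + R, j, true) : UE) := by
    intro j h1 h2
    exact Or.inr ⟨rfl, by simp only; omega, by simp only; omega, Or.inr rfl⟩
  have bT : ∀ i, v.1 - R ≤ i → i < v.1 + R → BdR v R ((i, v.2 + R, false) : UE) := by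
    intro i h1 h2
    exact Or.inl ⟨rfl, by simp only; omega, by simp only; omega, Or.inr rfl⟩
  have cL : ∀ a b : ℤ, v.2 ≤ a → a ≤ b → b ≤ v.2 + R →
      (∀ j, a ≤ j → j < b → ((v.1 - R, j, true) : UE) ≠ e) →
      Φ (v.1 - R, a) = Φ (v.1 - R, b) := by
    intro a b h1 h2 h3 h4
    exact pot_segV hP h2 fun j h5 h6 => ⟨sL j (by omega) (by omega),
      hno _ (bL j (by omega) (by omega)) (h4 j h5 h6)⟩
  have cR : ∀ a b : ℤ, v.2 ≤ a → a ≤ b → b ≤ v.2 + R →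
      (∀ j, a ≤ j → j < b → ((v.1 + R, j, true) : UE) ≠ e) →
      Φ (v.1 + R, a) = Φ (v.1 + R, b) := by
    intro a b h1 h2 h3 h4
    exact pot_segV hP h2 fun j h5 h6 => ⟨sR j (by omega) (by omega),
      hno _ (bR j (by omega) (by omega)) (h4 j h5 h6)⟩
  have cT : ∀ a b : ℤ, v.1 - R ≤ a → a ≤ b → b ≤ v.1 + R →
      (∀ j, a ≤ j → j < b → ((j, v.2 + R, false) : UE) ≠ e) →
      Φ (a, v.2 + R) = Φ (b, v.2 + R) := by
    intro a b h1 h2 h3 h4
    exact pot_segH hP h2 fun j h5 h6 => ⟨sT j (by omega) (by omega),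
      hno _ (bT j (by omega) (by omega)) (h4 j h5 h6)⟩
  obtain ⟨f, hf, hs⟩ := exists_side_of_mem ht hte
  have hje : Joins e (ua e) (ub e) := Or.inl ⟨rfl, rfl⟩
  have hne := hP.ne hje ⟨f, hf, hs⟩
  rcases bdR_upper (by omega) he (HA_sub_HP hf) hs with ⟨h1, h2, h3⟩ | ⟨h1, h2, h3⟩ | ⟨h1, h2, h3⟩
  · have e1 := cL v.2 e.2.1 le_rfl h2 (by omega) fun j _ h5 h6 => by
      rw [h1] at h6
      simp only [Prod.mk.injEq] at h6
      omega
    have e2 := cL (e.2.1 + 1) (v.2 + R) (by omega) (by omega) le_rfl fun j h4 _ h6 => by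
      rw [h1] at h6
      simp only [Prod.mk.injEq] at h6
      omega
    have e3 := cT (v.1 - R) (v.1 + R) le_rfl (by omega) le_rfl fun j _ _ h6 => by
      rw [h1] at h6
      simp at h6
    have e4 := cR v.2 (v.2 + R) le_rfl (by omega) le_rfl fun j _ _ h6 => by
      rw [h1] at h6
      simp only [Prod.mk.injEq] at h6
      omega
    have e5 : ua e = (v.1 - R, e.2.1) := by rw [h1, ua_mk]
    have e6 : ub e = (v.1 - R, e.2.1 + 1) := by rw [h1, ub_true]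
    rw [e5, e6] at hne
    rw [e1, e4, ← e3, ← e2]
    exact hne
  · have e1 := cL v.2 (v.2 + R) le_rfl (by omega) le_rfl fun j _ _ h6 => by
      rw [h1] at h6
      simp at h6
    have e2 := cT (v.1 - R) e.1 le_rfl h2 (by omega) fun j _ h5 h6 => by
      rw [h1] at h6
      simp only [Prod.mk.injEq] at h6
      omega
    have e3 := cT (e.1 + 1) (v.1 + R) (by omega) (by omega) le_rfl fun j h4 _ h6 => by
      rw [h1] at h6
      simp only [Prod.mk.injEq] at h6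
      omega
    have e4 := cR v.2 (v.2 + R) le_rfl (by omega) le_rfl fun j _ _ h6 => by
      rw [h1] at h6
      simp at h6
    have e5 : ua e = (e.1, v.2 + R) := by rw [h1, ua_mk]
    have e6 : ub e = (e.1 + 1, v.2 + R) := by rw [h1, ub_false]
    rw [e5, e6] at hne
    rw [e1, e2, e4, ← e3]
    exact hne
  · have e1 := cL v.2 (v.2 + R) le_rfl (by omega) le_rfl fun j _ _ h6 => by
      rw [h1] at h6
      simp only [Prod.mk.injEq] at h6
      omega
    have e2 := cT (v.1 - R) (v.1 + R) le_rfl (by omega) le_rfl fun j _ _ h6 => by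
      rw [h1] at h6
      simp at h6
    have e3 := cR (e.2.1 + 1) (v.2 + R) (by omega) (by omega) le_rfl fun j h4 _ h6 => by
      rw [h1] at h6
      simp only [Prod.mk.injEq] at h6
      omega
    have e4 := cR v.2 e.2.1 le_rfl h2 (by omega) fun j _ h5 h6 => by
      rw [h1] at h6
      simp only [Prod.mk.injEq] at h6
      omega
    have e5 : ua e = (v.1 + R, e.2.1) := by rw [h1, ua_mk]
    have e6 : ub e = (v.1 + R, e.2.1 + 1) := by rw [h1, ub_true]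
    rw [e5, e6] at hne
    rw [e1, e2, ← e3, e4]
    exact hne.symm

/-- The potential is constant along the left part of the wall and along the right part. -/
theorem pot_wall (hr : 0 < r) (hR : r < R) (he : BdR v R e) (ht : t ∈ MM ω (HA v r R) e)
    (htb : BdR v r t) (hP : IsPot (HA v r R) (MM ω (HA v r R) e) Φ) (x : ℤ) :
    (v.1 - R ≤ x → x ≤ v.1 - r → Φ (x, v.2) = Φ (v.1 - R, v.2)) ∧
      (v.1 + r ≤ x → x ≤ v.1 + R → Φ (x, v.2) = Φ (v.1 + R, v.2)) := by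
  have hte : t ≠ e := by
    rintro rfl
    unfold BdR BdE at he htb
    omega
  obtain ⟨f, hf, hs⟩ := exists_side_of_mem ht hte
  obtain ⟨f', hf', hs'⟩ := exists_side_of_mem' ht hte
  have hno : ∀ i : ℤ, ((i, v.2, false) : UE) ∉ MM ω (HA v r R) e := by
    intro i hi
    rcases only_two hr hR he ht htb hi (bdF_wall HA_sub_HP) with h | h
    · rw [← h] at hs he
      rcases bdR_upper (by omega) he (HA_sub_HP hf) hs with ⟨h1, h2, h3⟩ | ⟨h1, h2, h3⟩ |
        ⟨h1, h2, h3⟩ <;> simp only [Prod.mk.injEq, Bool.false_eq_true, and_false] at h1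
      omega
    · rw [← h] at hs' htb
      rcases bdR_upper (by omega) htb (HA_sub_HP hf') hs' with ⟨h1, h2, h3⟩ | ⟨h1, h2, h3⟩ |
        ⟨h1, h2, h3⟩ <;> simp only [Prod.mk.injEq, Bool.false_eq_true, and_false] at h1
      omega
  constructor
  · intro h1 h2
    exact (pot_segH hP h1 fun i h3 h4 => ⟨wall_side_left h3 (by omega) hr.le, hno i⟩).symm
  · intro h1 h2
    exact pot_segH hP h2 fun i h3 h4 => ⟨wall_side_right (by omega) h4 hr.le, hno i⟩

/-! ### Half circuits -/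

/-- The inner arch of cells. -/
def K1 : Finset (ℤ × ℤ) := {(-2, 0), (-2, 1), (-1, 1), (0, 1), (1, 1), (1, 0)}

/-- The outer arch of cells. -/
def K2 : Finset (ℤ × ℤ) :=
  {(-3, 0), (-3, 1), (-3, 2), (-2, 2), (-1, 2), (0, 2), (1, 2), (2, 2), (2, 1), (2, 0)}

theorem cconn_K1 : CConn K1 (-2, 0) (1, 0) := by
  refine Relation.ReflTransGen.head (b := (-2, 1)) ?_ <|
    Relation.ReflTransGen.head (b := (-1, 1)) ?_ <|
    Relation.ReflTransGen.head (b := (0, 1)) ?_ <|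
    Relation.ReflTransGen.head (b := (1, 1)) ?_ <|
    Relation.ReflTransGen.single ?_ <;>
  · unfold Perc6.CAdj K1
    decide

theorem cconn_K2 : CConn K2 (-3, 0) (2, 0) := by
  refine Relation.ReflTransGen.head (b := (-3, 1)) ?_ <|
    Relation.ReflTransGen.head (b := (-3, 2)) ?_ <|
    Relation.ReflTransGen.head (b := (-2, 2)) ?_ <|
    Relation.ReflTransGen.head (b := (-1, 2)) ?_ <|
    Relation.ReflTransGen.head (b := (0, 2)) ?_ <|
    Relation.ReflTransGen.head (b := (1, 2)) ?_ <|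
    Relation.ReflTransGen.head (b := (2, 2)) ?_ <|
    Relation.ReflTransGen.head (b := (2, 1)) ?_ <|
    Relation.ReflTransGen.single ?_ <;>
  · unfold Perc6.CAdj K2
    decide

theorem mem_cellsF {c h a : ℤ} {K : Finset (ℤ × ℤ)} :
    f ∈ Perc6.cellsF c h a K ↔ ∃ k ∈ K, (c + a * k.1 ≤ f.1 ∧ f.1 < c + a * (k.1 + 1)) ∧
      (h + a * k.2 ≤ f.2 ∧ f.2 < h + a * (k.2 + 1)) := by
  unfold Perc6.cellsF Perc6.cellF
  rw [mem_biUnion]
  refine exists_congr fun k => and_congr_right fun _ => ?_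
  rw [mem_RF]
  tauto

theorem cells_K1 (hR : 2 * r ≤ R) :
    (Perc6.cellsF v.1 v.2 r K1 : Set (ℤ × ℤ)) ⊆ HA v r R := by
  intro f hf
  rw [mem_coe, mem_cellsF] at hf
  obtain ⟨k, hk, h1, h2⟩ := hf
  rw [mem_HA]
  unfold K1 at hk
  simp only [mem_insert, mem_singleton] at hk
  rcases hk with rfl | rfl | rfl | rfl | rfl | rfl <;> norm_num at h1 h2 <;> omega

theorem cells_K2 (hR : 3 * r ≤ R) :
    (Perc6.cellsF v.1 v.2 r K2 : Set (ℤ × ℤ)) ⊆ HA v r R := by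
  intro f hf
  rw [mem_coe, mem_cellsF] at hf
  obtain ⟨k, hk, h1, h2⟩ := hf
  rw [mem_HA]
  unfold K2 at hk
  simp only [mem_insert, mem_singleton] at hk
  rcases hk with rfl | rfl | rfl | rfl | rfl | rfl | rfl | rfl | rfl | rfl <;>
    norm_num at h1 h2 <;> omega

theorem cells_disj (hr : 0 < r) : Disjoint (Perc6.cellsF v.1 v.2 r K1) (Perc6.cellsF v.1 v.2 r K2) := by
  rw [Finset.disjoint_left]
  intro f hf hf'
  rw [mem_cellsF] at hf hf'
  obtain ⟨k, hk, h1, h2⟩ := hf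
  obtain ⟨k', hk', h1', h2'⟩ := hf'
  unfold K1 at hk
  unfold K2 at hk'
  simp only [mem_insert, mem_singleton] at hk hk'
  rcases hk with rfl | rfl | rfl | rfl | rfl | rfl <;>
  rcases hk' with rfl | rfl | rfl | rfl | rfl | rfl | rfl | rfl | rfl | rfl <;>
    norm_num at h1 h2 h1' h2' <;> omega

theorem arch_K1 {col : ℤ} (hr : 0 < r) (h : ξ ∈ Perc6.TubeEv col v.1 v.2 r K1) :
    ∃ x x' : ℤ, (v.1 - 2 * r ≤ x ∧ x ≤ v.1 - r) ∧ (v.1 + r ≤ x' ∧ x' ≤ v.1 + 2 * r) ∧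
      (x + v.2 - col) % 2 = 0 ∧ (x' + v.2 - col) % 2 = 0 ∧
      Conn ξ (Perc6.cellsF v.1 v.2 r K1) (x, v.2) (x', v.2) := by
  have m1 : ((-2, 0) : ℤ × ℤ) ∈ K1 := by decide
  have m2 : ((1, 0) : ℤ × ℤ) ∈ K1 := by decide
  obtain ⟨u, -, hu2, -, hu, -, -⟩ := exists_spine_BT (by omega) h m1
  obtain ⟨w, -, hw2, -, hw, -, -⟩ := exists_spine_BT (by omega) h m2
  have hc := tube_conn (by omega) h cconn_K1 m1 hu hw
  obtain ⟨u1, u2⟩ := u
  obtain ⟨w1, w2⟩ := w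
  obtain ⟨a1, a2, -⟩ := hu
  obtain ⟨b1, b2, -⟩ := hw
  norm_num at a1 a2 b1 b2 hu2 hw2
  subst hu2
  subst hw2
  exact ⟨u1, w1, by omega, by omega, by omega, by omega, hc⟩

theorem arch_K2 {col : ℤ} (hr : 0 < r) (h : ξ ∈ Perc6.TubeEv col v.1 v.2 r K2) :
    ∃ x x' : ℤ, (v.1 - 3 * r ≤ x ∧ x ≤ v.1 - 2 * r) ∧ (v.1 + 2 * r ≤ x' ∧ x' ≤ v.1 + 3 * r) ∧
      (x + v.2 - col) % 2 = 0 ∧ (x' + v.2 - col) % 2 = 0 ∧
      Conn ξ (Perc6.cellsF v.1 v.2 r K2) (x, v.2) (x', v.2) := by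
  have m1 : ((-3, 0) : ℤ × ℤ) ∈ K2 := by decide
  have m2 : ((2, 0) : ℤ × ℤ) ∈ K2 := by decide
  obtain ⟨u, -, hu2, -, hu, -, -⟩ := exists_spine_BT (by omega) h m1
  obtain ⟨w, -, hw2, -, hw, -, -⟩ := exists_spine_BT (by omega) h m2
  have hc := tube_conn (by omega) h cconn_K2 m1 hu hw
  obtain ⟨u1, u2⟩ := u
  obtain ⟨w1, w2⟩ := w
  obtain ⟨a1, a2, -⟩ := hu
  obtain ⟨b1, b2, -⟩ := hw
  norm_num at a1 a2 b1 b2 hu2 hw2
  subst hu2
  subst hw2
  exact ⟨u1, w1, by omega, by omega, by omega, by omega, hc⟩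

/-! ### The strand ends on the wall -/

/-- One end of `e` is joined to the wall. -/
theorem arm_to_wall {p q : ℤ × ℤ} {G : Set (ℤ × ℤ)} {x x' : ℤ} (hr : 0 < r) (hR : r < R)
    (he : BdR v R e) (ht : t ∈ MM ω (HA v r R) e) (htb : BdR v r t)
    (hζ1 : ∀ f ∈ SS ω (HA v r R) e, ζ f = ω f) (hζ2 : ∀ f ∉ SS ω (HA v r R) e, ζ f = ξ f)
    (hj : Joins e p q) (hG : G ⊆ HA v r R) (hx : v.1 - R ≤ x ∧ x ≤ v.1 - r)
    (hx' : v.1 + r ≤ x' ∧ x' ≤ v.1 + R) (hp : par (x, v.2) = par p) (hp' : par (x', v.2) = par p)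
    (h : Conn ξ G (x, v.2) (x', v.2)) :
    Conn ζ (HB v R) p (x, v.2) ∨ Conn ζ (HB v R) p (x', v.2) := by
  have hte : t ≠ e := by
    rintro rfl
    unfold BdR BdE at he htb
    omega
  have hs := exists_side_of_mem ht hte
  obtain ⟨Φ, hP⟩ := hasPot_HA (v := v) hr hR (MM ω (HA v r R) e) fun f hf => evenAt_MM hf
  have hc := pot_corners hr hR he ht htb hP
  have e1 := (pot_wall hr hR he ht htb hP x).1 hx.1 hx.2
  have e2 := (pot_wall hr hR he ht htb hP x').2 hx'.1 hx'.2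
  have hsub : SS ω (HA v r R) e ∪ G ⊆ (HB v R : Set (ℤ × ℤ)) :=
    Set.union_subset (SS_sub.trans (HA_sub_HB (by omega))) (hG.trans (HA_sub_HB (by omega)))
  rcases z2_or hc (Φ p) with h1 | h1
  · left
    refine (lift_conn hP hj hs hG hζ1 (fun f _ => hζ2 f) (Conn.symm h) hp ?_ ?_).mono hsub
    · rw [e2, h1]
      exact hc.symm
    · rw [e1, h1]
  · right
    refine (lift_conn hP hj hs hG hζ1 (fun f _ => hζ2 f) h hp' ?_ ?_).mono hsub
    · rw [e1, h1]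
      exact hc
    · rw [e2, h1]

theorem par_eq_of_mod {x y c : ℤ} (h : (x + y - c) % 2 = 0) (hc : c = 0 ∨ c = 1) :
    par (x, y) = c := by
  unfold par
  simp only
  omega

/-- The strand of `e` ends on the wall near `v`. -/
theorem wall_exit (hr : 0 < r) (hR : 3 * r ≤ R) (he : BdR v R e) (ht : t ∈ MM ω (HA v r R) e)
    (htb : BdR v r t) (hζ1 : ∀ f ∈ SS ω (HA v r R) e, ζ f = ω f)
    (hζ2 : ∀ f ∉ SS ω (HA v r R) e, ζ f = ξ f)
    (h1 : ξ ∈ Perc6.TubeEv (par (ua e)) v.1 v.2 r K1) (h2 : ξ ∈ Perc6.TubeEv (par (ub e)) v.1 v.2 r K2) :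
    ∃ x, v.1 - 3 * r ≤ x ∧ x < v.1 + 3 * r ∧ ((x, v.2, false) : UE) ∈ MM ζ (HB v R) e := by
  have hte : t ≠ e := by
    rintro rfl
    unfold BdR BdE at he htb
    omega
  obtain ⟨f, hf, hs⟩ := exists_side_of_mem ht hte
  have hj : Joins e (ua e) (ub e) := Or.inl ⟨rfl, rfl⟩
  obtain ⟨x, x', a1, a2, a3, a4, a5⟩ := arch_K1 hr h1
  obtain ⟨y, y', b1, b2, b3, b4, b5⟩ := arch_K2 hr h2
  have c1 := arm_to_wall hr (by omega) he ht htb hζ1 hζ2 hj (cells_K1 (by omega))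
    (by omega) (by omega) (par_eq_of_mod a3 (par_cases _)) (par_eq_of_mod a4 (par_cases _)) a5
  have c2 := arm_to_wall hr (by omega) he ht htb hζ1 hζ2 hj.symm (cells_K2 hR)
    (by omega) (by omega) (par_eq_of_mod b3 (par_cases _)) (par_eq_of_mod b4 (par_cases _)) b5
  obtain ⟨z, hz1, hz2, hz⟩ : ∃ z, v.1 - 3 * r ≤ z ∧ z ≤ v.1 + 3 * r ∧
      Conn ζ (HB v R) (ua e) (z, v.2) := by
    rcases c1 with c1 | c1
    · exact ⟨x, by omega, by omega, c1⟩
    · exact ⟨x', by omega, by omega, c1⟩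
  obtain ⟨z', hz1', hz2', hz'⟩ : ∃ z, v.1 - 3 * r ≤ z ∧ z ≤ v.1 + 3 * r ∧
      Conn ζ (HB v R) (ub e) (z, v.2) := by
    rcases c2 with c2 | c2
    · exact ⟨y, by omega, by omega, c2⟩
    · exact ⟨y', by omega, by omega, c2⟩
  obtain ⟨Ψ, hΨ⟩ := hasPot_RF (v.1 - R) (v.1 + R) v.2 (v.2 + R) (MM ζ (HB v R) e)
    fun f hf => evenAt_MM hf
  have hΨ' : IsPot (HB v R : Set (ℤ × ℤ)) (MM ζ (HB v R) e) Ψ := hΨ
  have d0 := hΨ'.ne hj ⟨f, HA_sub_HB (by omega) hf, hs⟩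
  have d1 := hΨ'.conn hz
  have d2 := hΨ'.conn hz'
  by_contra hcon
  push Not at hcon
  have key : ∀ a b : ℤ, v.1 - 3 * r ≤ a → a ≤ b → b ≤ v.1 + 3 * r → Ψ (a, v.2) = Ψ (b, v.2) := by
    intro a b k1 k2 k3
    refine pot_segH hΨ' k2 fun i k4 k5 => ⟨⟨(i, v.2), ?_, Or.inl rfl⟩,
      hcon i (by omega) (by omega)⟩
    rw [mem_HB]
    simp only
    omega
  apply d0
  rw [d1, d2]
  rcases le_total z z' with k | k
  · exact key z z' hz1 k hz2'
  · exact (key z' z hz1' k hz2).symm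

end Pool.Agent.SixB.A1
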