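import Pool.Agent.Lib.MP_6bd702_zc.Y017

/-!
# 6BD, item (A1), part 1: lifting of fresh paths, the half annulus

`lift_conn`: `S = SS ω F e` are the faces visited by the strand of `e` in the region `F`, `ζ` agrees
with `ω` on `S` and with `ξ` elsewhere. A path of `ξ` from a vertex on the wrong side of the strand
to a vertex on the side of `u` gives a path of `ζ` from `u` to its last vertex.

`wall_exit`: in the half annulus above `v` the strand of an outer unit edge reaches the inner box.
If `ξ` has two half circuits of the two colours then the strand of `e` in `ζ` ends on the wall.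
-/

set_option autoImplicit false

namespace Pool.Agent.SixB.A1

open Finset Pool.Agent.Perc Pool.Agent.PercD Pool.Agent.PercN Pool.Agent.Perc6

section Lift

variable {ω ζ ξ : Cfg} {F G : Set (ℤ × ℤ)} {e a : UE} {u v p q : ℤ × ℤ} {Φ : ℤ × ℤ → ZMod 2}

theorem conn_of_eq_on {S : Set (ℤ × ℤ)} (h : ∀ f ∈ S, ζ f = ω f) (hc : Conn ω S u p) :
    Conn ζ S u p := by
  induction hc with
  | refl => exact Relation.ReflTransGen.refl
  | tail _ hb ih =>
    obtain ⟨g, hg, hb', -, -⟩ := hb.exists_face
    exact ih.tail ((hb'.congr (h g hg).symm).of_single hg)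

/-- Path lifting, for faces outside the region on which the potential is constant. -/
theorem lift_conn' (hP : IsPot F (MM ω F e) Φ) (he : Joins e u v) (hs : ∃ f ∈ F, IsSide f e)
    (hG : ∀ g ∈ G, g ∉ F → ∀ w w', IsCor g w → IsCor g w' → Φ w = Φ w')
    (hζ1 : ∀ f ∈ SS ω F e, ζ f = ω f) (hζ2 : ∀ f ∈ G, f ∉ SS ω F e → ζ f = ξ f)
    (h : Conn ξ G p q) (hpar : par q = par u) (hp : Φ p ≠ Φ u) (hq : Φ q = Φ u) :
    Conn ζ (SS ω F e ∪ G) u q := by
  have key : par q = par u → Φ q = Φ u → Conn ζ (SS ω F e ∪ G) u q := by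
    clear hpar hq
    induction h with
    | refl => exact fun _ h1 => absurd h1 hp
    | @tail b c hab hb ih =>
      intro hpar hq
      have hbc := hb.par_eq
      obtain ⟨g, hg, hb', hcb, hcc⟩ := hb.exists_face
      by_cases hgS : g ∈ SS ω F e
      · have h1 := hP.ss_conn he hs hgS hcc hpar hq
        exact (conn_of_eq_on hζ1 h1).mono Set.subset_union_left
      · have h2 : Φ b = Φ c := by
          by_cases hgF : g ∈ F
          · exact hP.fresh hgF hgS hcb hcc
          · exact hG g hg hgF _ _ hcb hcc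
        refine (ih (hbc.trans hpar) (h2.trans hq)).tail ?_
        exact (hb'.congr (hζ2 g hg hgS).symm).of_single (Or.inr hg)
  exact key hpar hq

/-- Path lifting. -/
theorem lift_conn (hP : IsPot F (MM ω F e) Φ) (he : Joins e u v) (hs : ∃ f ∈ F, IsSide f e)
    (hG : G ⊆ F) (hζ1 : ∀ f ∈ SS ω F e, ζ f = ω f) (hζ2 : ∀ f ∈ G, f ∉ SS ω F e → ζ f = ξ f)
    (h : Conn ξ G p q) (hpar : par q = par u) (hp : Φ p ≠ Φ u) (hq : Φ q = Φ u) :
    Conn ζ (SS ω F e ∪ G) u q :=
  lift_conn' hP he hs (fun _ hg hgF => absurd (hG hg) hgF) hζ1 hζ2 h hpar hp hq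

/-- The potential along a vertical segment which is not crossed. -/
theorem pot_segV {M : Set UE} (hP : IsPot F M Φ) {x a b : ℤ} (hab : a ≤ b)
    (h : ∀ j, a ≤ j → j < b → (∃ f ∈ F, IsSide f ((x, j, true) : UE)) ∧
      ((x, j, true) : UE) ∉ M) : Φ (x, a) = Φ (x, b) := by
  obtain ⟨n, rfl⟩ := Int.le.dest hab
  clear hab
  induction n with
  | zero => simp
  | succ n ih =>
    push_cast at h ⊢
    rw [ih fun j h1 h2 => h j h1 (by omega)]
    obtain ⟨⟨f, hf, hs⟩, h2⟩ := h (a + n) (by omega) (by omega)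
    have := hP.joins (a := (x, a + n, true)) (p := (x, a + n)) (q := (x, a + n + 1)) hf hs
      (by simp [Joins, ua, ub])
    rw [← add_assoc]
    by_contra hne
    exact h2 (this.2 hne)

/-- The potential along a horizontal segment which is not crossed. -/
theorem pot_segH {M : Set UE} (hP : IsPot F M Φ) {y a b : ℤ} (hab : a ≤ b)
    (h : ∀ i, a ≤ i → i < b → (∃ f ∈ F, IsSide f ((i, y, false) : UE)) ∧
      ((i, y, false) : UE) ∉ M) : Φ (a, y) = Φ (b, y) := by
  obtain ⟨n, rfl⟩ := Int.le.dest hab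
  clear hab
  induction n with
  | zero => simp
  | succ n ih =>
    push_cast at h ⊢
    rw [ih fun j h1 h2 => h j h1 (by omega)]
    obtain ⟨⟨f, hf, hs⟩, h2⟩ := h (a + n) (by omega) (by omega)
    have := hP.joins (a := (a + n, y, false)) (p := (a + n, y)) (q := (a + n + 1, y)) hf hs
      (by simp [Joins, ua, ub])
    rw [← add_assoc]
    by_contra hne
    exact h2 (this.2 hne)

/-- A strand with two different unit edges is not empty. -/
theorem exists_side_of_mem (ha : a ∈ MM ω F e) (hne : a ≠ e) : ∃ f ∈ F, IsSide f e := by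
  rcases Relation.ReflTransGen.cases_head ha with h | ⟨b, ⟨f, hf, hm⟩, -⟩
  · exact absurd h.symm hne
  · exact ⟨f, hf, hm.left⟩

theorem exists_side_of_mem' (ha : a ∈ MM ω F e) (hne : a ≠ e) : ∃ f ∈ F, IsSide f a :=
  exists_side_of_mem (MM_symm ha) hne.symm

end Lift

end Pool.Agent.SixB.A1
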