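import Pool.Agent.Lib.SixB.A1Geo

/-!
# 6BD, item (A1), part 3: the half plane two arm exponent

`a1`: the probability that a strand of the half plane above `v` crosses the half annulus between the
boxes of radius `r` and `R` around the wall point `v` is at most `C r / R`.

Proof. `pr_unit`: for a unit edge of the wall (`m` translates, each of them is the end of its own
crossing strand of a macroscopic annulus). `pr_hit`: given that the strand of an outer unit edge
reaches the inner box, it ends on the wall near `v` with conditional probability at least `c`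
(`wall_exit` and resampling off the visited faces). Summation over the outer unit edges.
-/

set_option autoImplicit false

namespace Pool.Agent.SixB.A1

open Finset Pool.Agent.Perc Pool.Agent.PercD Pool.Agent.PercN Pool.Agent.Perc6

variable {ω ζ ξ : Cfg} {e a t : UE} {v : ℤ × ℤ} {r R m : ℤ} {f : ℤ × ℤ}

/-! ### Sums of probabilities -/

open Classical in
theorem sum_pr_eq {ι : Type} (W : Finset (ℤ × ℤ)) (I : Finset ι) (A : ι → Set Cfg) :
    ∑ i ∈ I, pr W (A i) =
      (∑ T ∈ W.powerset, ((I.filter fun i => cfg T ∈ A i).card : ℝ)) / 2 ^ W.card := by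
  simp_rw [ProbA.pr_eq_sum]
  rw [← sum_div, sum_comm]
  congr 1
  refine sum_congr rfl fun T _ => ?_
  rw [card_filter]
  push_cast
  rfl

open Classical in
theorem sum_pr_le {ι : Type} (W : Finset (ℤ × ℤ)) (I : Finset ι) (A : ι → Set Cfg) (N : Cfg → ℕ)
    (h : ∀ ω : Cfg, (I.filter fun i => ω ∈ A i).card ≤ N ω) :
    ∑ i ∈ I, pr W (A i) ≤ (∑ T ∈ W.powerset, (N (cfg T) : ℝ)) / 2 ^ W.card := by
  rw [sum_pr_eq]
  refine div_le_div_of_nonneg_right (sum_le_sum fun T _ => ?_) (by positivity)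
  exact_mod_cast h (cfg T)

/-- Disjoint events inside `B`. -/
theorem sum_pr_le_pr {ι : Type} (W : Finset (ℤ × ℤ)) (I : Finset ι) (A : ι → Set Cfg) (B : Set Cfg)
    (h : ∀ i ∈ I, ∀ ω ∈ A i, ω ∈ B)
    (h' : ∀ i ∈ I, ∀ j ∈ I, ∀ ω : Cfg, ω ∈ A i → ω ∈ A j → i = j) :
    ∑ i ∈ I, pr W (A i) ≤ pr W B := by
  classical
  rw [sum_pr_eq, ProbA.pr_eq_sum]
  refine div_le_div_of_nonneg_right (sum_le_sum fun T _ => ?_) (by positivity)
  split_ifs with hB
  · have : (I.filter fun i => cfg T ∈ A i).card ≤ 1 := by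
      rw [card_le_one]
      intro i hi j hj
      rw [mem_filter] at hi hj
      exact h' i hi.1 j hj.1 _ hi.2 hj.2
    exact_mod_cast this
  · have : I.filter (fun i => cfg T ∈ A i) = ∅ := by
      rw [filter_eq_empty_iff]
      intro i hi hT
      exact hB (h i hi _ hT)
    rw [this]
    simp

/-! ### One unit edge of the wall -/

/-- The strand of the wall unit edge at `v` in the half box reaches the outer boundary. -/
def WE (v : ℤ × ℤ) (R : ℤ) : Set Cfg :=
  {ω | ∃ a ∈ MM ω (HB v R) (v.1, v.2, false), BdR v R a}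

theorem depOn_WE (v : ℤ × ℤ) (R : ℤ) : DepOn (HB v R : Set (ℤ × ℤ)) (WE v R) := by
  intro ω ω' h
  unfold WE
  rw [Set.mem_ofPred_eq, Set.mem_ofPred_eq, MM_congr' (ω := ω) (ω' := ω') h]

theorem HB_eq (hR : 0 ≤ R) : (HB v R : Set (ℤ × ℤ)) = HP v ∩ (BR v R : Set (ℤ × ℤ)) := by
  ext f
  rw [mem_HB, Set.mem_inter_iff, mem_BR']
  unfold HP
  rw [Set.mem_ofPred_eq]
  omega

theorem HB_sub_HP : (HB v R : Set (ℤ × ℤ)) ⊆ HP v := by
  intro f hf
  rw [mem_HB] at hf
  exact hf.2.2.1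

theorem pr_WE_translate (v : ℤ × ℤ) (R s : ℤ) :
    pr (HB (v.1 + s, v.2) R) (WE (v.1 + s, v.2) R) = pr (HB v R) (WE v R) := by
  have M := Sym.maps_S s 0 (v.1 - R) (v.1 + R) v.2 (v.2 + R)
  have M' := Sym.maps_S s 0 (v.1 - R) (v.1 + R) (v.2 - R) (v.2 + R)
  have e1 : v.1 - R + s = v.1 + s - R := by ring
  have e2 : v.1 + R + s = v.1 + s + R := by ring
  rw [e1, e2, add_zero, add_zero] at M M'
  have h1 : (HB v R).image (symS s 0).f = HB (v.1 + s, v.2) R := M.image_RF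
  have h2 := Sym.pr_act (symS s 0) (S := HB v R) (A := WE (v.1 + s, v.2) R)
    (by rw [h1]; exact depOn_WE _ _)
  rw [h1] at h2
  rw [← h2]
  congr 1
  ext ω
  unfold WE
  rw [Set.mem_ofPred_eq, Set.mem_ofPred_eq, Set.mem_ofPred_eq]
  have hs : (symS s 0).s (v.1, v.2, false) = (v.1 + s, v.2, false) := by
    simp [symS, hsymS]
  constructor
  · rintro ⟨a, ha, hb⟩
    refine ⟨(symS s 0).s.symm a, ?_, ?_⟩
    · have := M.mem_MM_iff (ω := ω) (a := (symS s 0).s.symm a) (e := (v.1, v.2, false))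
      rw [Equiv.apply_symm_apply, hs] at this
      exact this.1 ha
    · have := M'.bdE ((symS s 0).s.symm a)
      rw [Equiv.apply_symm_apply] at this
      exact this.1 hb
  · rintro ⟨a, ha, hb⟩
    refine ⟨(symS s 0).s a, ?_, ?_⟩
    · have := M.mem_MM_iff (ω := ω) (a := a) (e := (v.1, v.2, false))
      rw [hs] at this
      exact this.2 ha
    · exact (M'.bdE a).2 hb

theorem HB_sub_BR : (HB v R : Set (ℤ × ℤ)) ⊆ (BR v R : Set (ℤ × ℤ)) := by
  intro f hf
  rw [mem_HB] at hf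
  rw [mem_BR']
  omega

theorem wall_not_bdR (hR : 0 < R) {x : ℤ} : ¬ BdR v R ((x, v.2, false) : UE) := by
  unfold BdR BdE
  simp only [Bool.false_eq_true, false_and, or_false, not_and]
  omega

/-- The strand of a wall unit edge which goes far crosses the annulus `m : 2 m`. -/
theorem WE_cross (hm : 0 < m) {x : ℤ} (hx : 0 ≤ x) (hx' : x < m)
    (h : ω ∈ WE (v.1 + x, v.2) (3 * m)) :
    ∃ b ∈ MM ω (HB v (2 * m)) (v.1 + x, v.2, false), BdR v m b ∧
      ∃ b' ∈ MM ω (An v m (2 * m)) b, BdR v (2 * m) b' ∧ b' ∈ MM ω (HB v (2 * m)) b := by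
  obtain ⟨a, ha, hab⟩ := h
  simp only at ha
  have hin : InE v (2 * m) (v.1 + x, v.2, false) := by
    unfold InE InR
    simp only [ua_mk, ub_false]
    omega
  have hin' : InE v m (v.1 + x, v.2, false) := by
    unfold InE InR
    simp only [ua_mk, ub_false]
    omega
  have hs1 : ((HB (v.1 + x, v.2) (3 * m) : Set (ℤ × ℤ)) ∩ (BR v (2 * m) : Set (ℤ × ℤ))) ⊆
      (HB v (2 * m) : Set (ℤ × ℤ)) := by
    intro f hf
    have h1 := mem_HB.1 hf.1
    have h2 := mem_BR'.1 hf.2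
    rw [mem_HB]
    simp only at h1
    omega
  obtain ⟨b', hb1, hb2⟩ : ∃ b' ∈ MM ω (HB v (2 * m)) (v.1 + x, v.2, false), BdR v (2 * m) b' := by
    rcases Perc6.N1Aux.first_exitF hin ha with h1 | ⟨b, h1, h2⟩
    · refine ⟨a, MM_mono hs1 h1, ?_⟩
      have h3 := MM_mono (F' := (BR v (2 * m) : Set (ℤ × ℤ))) Set.inter_subset_right h1
      refine bdR_of_sub (v := (v.1 + x, v.2)) (r := 3 * m) ?_ (MM_inE hin h3) hab
      unfold PercD.Sub
      simp only
      omega
    · exact ⟨b, MM_mono hs1 h1, h2⟩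
  rcases PercS5.last_exit' hin' hb1 with h1 | ⟨b, h1, h2, h3⟩
  · exfalso
    unfold InE InR at h1
    unfold BdR BdE at hb2
    obtain ⟨p, q, c⟩ := b'
    cases c <;> simp only [ua_mk, ub_false, ub_true] at h1 hb2 <;> omega
  · refine ⟨b, h1, h2, b', MM_mono ?_ h3, hb2, MM_mono Set.sdiff_subset h3⟩
    intro f hf
    rw [mem_coe, mem_An]
    exact ⟨mem_coe.1 (HB_sub_BR hf.1), fun h => hf.2 (mem_coe.2 h)⟩

open Classical in
/-- Different unit edges of the wall give different crossing strands. -/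
theorem count_WE (hm : 0 < m) (ω : Cfg) :
    ((Ico 0 m).filter fun x => ω ∈ WE (v.1 + x, v.2) (3 * m)).card ≤ NC v m (2 * m) ω := by
  have H : ∀ x ∈ (Ico 0 m).filter fun x => ω ∈ WE (v.1 + x, v.2) (3 * m),
      ∃ b ∈ MM ω (HB v (2 * m)) (v.1 + x, v.2, false), BdR v m b ∧
        ∃ b' ∈ MM ω (An v m (2 * m)) b, BdR v (2 * m) b' ∧ b' ∈ MM ω (HB v (2 * m)) b := by
    intro x hx
    rw [mem_filter, mem_Ico] at hx
    exact WE_cross hm hx.1.1 hx.1.2 hx.2
  choose! t ht1 ht2 ht3 using H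
  unfold PercN.NC
  refine card_le_card_of_injOn t (fun x hx => ?_) ?_
  · have hx' := mem_coe.1 hx
    obtain ⟨b', h1, h2, -⟩ := ht3 x hx'
    exact mem_coe.2 ((mem_NP hm.le).2 ⟨ht2 x hx', b', h1, h2, trivial⟩)
  · intro x hx y hy hxy
    have hx' := mem_coe.1 hx
    have hy' := mem_coe.1 hy
    obtain ⟨b', -, h2, h3⟩ := ht3 x hx'
    have e1 : ((v.1 + x, v.2, false) : UE) ∈ MM ω (HB v (2 * m)) b' :=
      MM_trans (MM_symm h3) (MM_symm (ht1 x hx'))
    have e2 : ((v.1 + y, v.2, false) : UE) ∈ MM ω (HB v (2 * m)) b' := by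
      have := MM_symm (ht1 y hy')
      rw [← hxy] at this
      exact MM_trans (MM_symm h3) this
    have hbd : BdF (HB v (2 * m) : Set (ℤ × ℤ)) b' := bdF_mono HB_sub_BR (bdF_of_bdE h2)
    have hne : ∀ x : ℤ, ((x, v.2, false) : UE) ≠ b' := by
      rintro x rfl
      exact wall_not_bdR (by omega) h2
    have := other_unique hbd e1 e2 (bdF_wall HB_sub_HP) (bdF_wall HB_sub_HP) (hne _) (hne _)
    simp only [Prod.mk.injEq] at this
    omega

/-- The unit edge of the wall at `v` is joined to the distance `R` with probability at most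
`C / R`. -/
theorem pr_unit : ∃ C : ℝ, 0 < C ∧ ∀ (v : ℤ × ℤ) (R : ℤ) (W : Finset (ℤ × ℤ)), 0 < R →
    HB v R ⊆ W → pr W (WE v R) ≤ C / R := by
  obtain ⟨C, hC, h⟩ := moment_NC 1
  refine ⟨5 * C + 3, by positivity, fun v R W hR hW => ?_⟩
  have hRr : (0 : ℝ) < R := by exact_mod_cast hR
  rw [pr_eq_of_depOn (depOn_WE v R) hW]
  by_cases h3 : R < 3
  · refine (pr_le_one _ _).trans ?_
    rw [le_div_iff₀ hRr]
    have : (R : ℝ) < 3 := by exact_mod_cast h3
    linarith
  · obtain ⟨m, hm⟩ : ∃ m : ℤ, m = R / 3 := ⟨_, rfl⟩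
    have hm1 : 1 ≤ m := by omega
    have hm2 : 3 * m ≤ R := by omega
    have hm3 : R ≤ 5 * m := by omega
    have hmr : (0 : ℝ) < m := by exact_mod_cast (by omega : 0 < m)
    -- monotone in the radius
    have hmono : pr (HB v R) (WE v R) ≤ pr (HB v (3 * m)) (WE v (3 * m)) := by
      have hs : HB v (3 * m) ⊆ HB v R := by
        intro f hf
        have h1 := mem_HB.1 (mem_coe.2 hf)
        refine mem_coe.1 (mem_HB.2 ?_)
        omega
      rw [← pr_eq_of_depOn (depOn_WE v (3 * m)) hs]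
      refine pr_mono _ fun ω hω => ?_
      obtain ⟨a, ha, hab⟩ := hω
      have hin : InE v (3 * m) (v.1, v.2, false) := by
        unfold InE InR
        simp only [ua_mk, ub_false]
        omega
      have hs1 : ((HB v R : Set (ℤ × ℤ)) ∩ (BR v (3 * m) : Set (ℤ × ℤ))) ⊆
          (HB v (3 * m) : Set (ℤ × ℤ)) := by
        intro f hf
        have h1 := mem_HB.1 hf.1
        have h2 := mem_BR'.1 hf.2
        rw [mem_HB]
        omega
      rcases Perc6.N1Aux.first_exitF hin ha with h1 | ⟨b, h1, h2⟩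
      · refine ⟨a, MM_mono hs1 h1, ?_⟩
        have h3 := MM_mono (F' := (BR v (3 * m) : Set (ℤ × ℤ))) Set.inter_subset_right h1
        exact bdR_of_sub (Sub.refl' hm2) (MM_inE hin h3) hab
      · exact ⟨b, MM_mono hs1 h1, h2⟩
    have hsum : ∑ x ∈ Ico 0 m, pr (BR v (4 * m)) (WE (v.1 + x, v.2) (3 * m)) ≤ C := by
      refine (sum_pr_le _ _ _ (NC v m (2 * m)) fun ω => ?_).trans ?_
      · convert count_WE (v := v) (m := m) (by omega) ω
      · have := h v m (BR v (4 * m)) (by omega) ((Sub.refl' (by omega)).subset)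
        simpa only [pow_one] using this
    have hterm : ∀ x ∈ Ico 0 m, pr (BR v (4 * m)) (WE (v.1 + x, v.2) (3 * m)) =
        pr (HB v (3 * m)) (WE v (3 * m)) := by
      intro x hx
      rw [mem_Ico] at hx
      rw [← pr_WE_translate v (3 * m) x]
      refine pr_eq_of_depOn (depOn_WE _ _) ?_
      intro f hf
      have h1 := mem_HB.1 (mem_coe.2 hf)
      rw [mem_BR]
      simp only at h1
      omega
    rw [sum_congr rfl hterm, sum_const, Int.card_Ico, nsmul_eq_mul] at hsum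
    have hcast : (((m - 0).toNat : ℕ) : ℝ) = m := by
      rw [sub_zero]
      exact_mod_cast Int.toNat_of_nonneg (by omega : 0 ≤ m)
    rw [hcast] at hsum
    refine hmono.trans ?_
    rw [le_div_iff₀ hRr]
    have h5 : (R : ℝ) ≤ 5 * m := by exact_mod_cast hm3
    have h6 := pr_nonneg (HB v (3 * m)) (WE v (3 * m))
    nlinarith

/-! ### The strand ends on the wall with positive conditional probability -/

/-- The strand of the outer unit edge `e` of the half annulus reaches the inner box. -/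
def CrH (v : ℤ × ℤ) (r R : ℤ) (e : UE) : Set Cfg := {ω | ∃ t ∈ MM ω (HA v r R) e, BdR v r t}

/-- The strand of `e` in the half box ends on the wall near `v`. -/
def Ends (v : ℤ × ℤ) (r R : ℤ) (e : UE) : Set Cfg :=
  {ω | ∃ x, v.1 - 3 * r ≤ x ∧ x < v.1 + 3 * r ∧ ((x, v.2, false) : UE) ∈ MM ω (HB v R) e}

theorem HA_sub_HBf (hR : 0 ≤ R) {K : Finset (ℤ × ℤ)} (h : (K : Set (ℤ × ℤ)) ⊆ HA v r R) :
    K ⊆ HB v R := by
  intro f hf
  exact mem_coe.1 (HA_sub_HB hR (h (mem_coe.2 hf)))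

theorem pr_hit : ∃ c : ℝ, 0 < c ∧ ∀ (v : ℤ × ℤ) (r R : ℤ) (W : Finset (ℤ × ℤ)) (e : UE), 0 < r →
    3 * r ≤ R → HB v R ⊆ W → BdR v R e → c * pr W (CrH v r R e) ≤ pr W (Ends v r R e) := by
  obtain ⟨δ, hδ, h⟩ := pr_tube 10
  refine ⟨δ * δ, by positivity, fun v r R W e hr hR hW he => ?_⟩
  refine PercT.pr_mix (S := fun ω => SS ω (HA v r R) e) (fun ω ω' h => SS_congr h)
    (CrH v r R e) (fun _ => Perc6.TubeEv (par (ua e)) v.1 v.2 r K1 ∩
      Perc6.TubeEv (par (ub e)) v.1 v.2 r K2) (Ends v r R e) ?_ ?_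
  · intro ω _
    have s1 := HA_sub_HBf (by omega) (cells_K1 (v := v) (r := r) (R := R) (by omega))
    have s2 := HA_sub_HBf (by omega) (cells_K2 (v := v) (r := r) (R := R) hR)
    rw [pr_indep (depOn_tube _ _ _ _ _ (by omega)) (depOn_tube _ _ _ _ _ (by omega))
      (cells_disj hr) (s1.trans hW) (s2.trans hW)]
    refine mul_le_mul (h _ _ _ _ _ _ (by omega) (by decide) subset_rfl)
      (h _ _ _ _ _ _ (by omega) (by decide) subset_rfl) hδ.le (pr_nonneg _ _)
  · rintro ω ⟨t, ht, htb⟩ ξ ⟨h1, h2⟩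
    exact wall_exit hr hR he ht htb (fun f hf => PercT.mix_of_mem hf)
      (fun f hf => PercT.mix_of_notMem hf) h1 h2

/-! ### Summation -/

open Classical in
/-- The outer unit edges. -/
noncomputable def EO (v : ℤ × ℤ) (R : ℤ) : Finset UE := (UB v R).filter (BdR v R)

theorem mem_EO (hR : 0 ≤ R) : e ∈ EO v R ↔ BdR v R e := by
  classical
  unfold EO
  rw [mem_filter]
  exact ⟨fun h => h.2, fun h => ⟨(h.inE hR).mem_UB, h⟩⟩

open Classical in
/-- Every crossing strand has its own outer unit edge. -/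
theorem NF_le_card (hr : 0 < r) (hR : r < R) (ω : Cfg) :
    NF (HP v) v r R ω ≤ ((EO v R).filter fun e => ω ∈ CrH v r R e).card := by
  have H : ∀ b ∈ (UB v r).filter (fun b => BdR v r b ∧
      ∃ a ∈ MM ω (HP v ∩ (An v r R : Set (ℤ × ℤ))) b, BdR v R a),
      ∃ a ∈ MM ω (HA v r R) b, BdR v R a := by
    intro b hb
    rw [mem_filter] at hb
    exact hb.2.2
  choose! t ht1 ht2 using H
  unfold NF
  refine card_le_card_of_injOn t (fun b hb => ?_) ?_
  · have hb' := mem_coe.1 hb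
    rw [mem_coe, mem_filter, mem_EO (by omega)]
    exact ⟨ht2 b hb', b, MM_symm (ht1 b hb'), (mem_filter.1 hb').2.1⟩
  · intro b hb c hc hbc
    have hb' := mem_coe.1 hb
    have hc' := mem_coe.1 hc
    have k1 := MM_symm (ht1 b hb')
    have k2 := MM_symm (ht1 c hc')
    rw [← hbc] at k2
    have b1 := (mem_filter.1 hb').2.1
    have c1 := (mem_filter.1 hc').2.1
    refine other_unique (bdF_mono HA_sub_An (bdF_out (ht2 b hb'))) k1 k2
      (bdF_mono HA_sub_An (bdF_in b1)) (bdF_mono HA_sub_An (bdF_in c1)) ?_ ?_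
    · exact Perc6.N1Aux.bdR_ne hR b1 (ht2 b hb')
    · exact Perc6.N1Aux.bdR_ne hR c1 (ht2 b hb')

/-- The expected number of outer unit edges whose strand ends at the wall unit edge `x`. -/
theorem sum_ends (hr : 0 < r) (hR : 3 * r < R) {x : ℤ} (hx : v.1 - 3 * r ≤ x)
    (hx' : x < v.1 + 3 * r) (W : Finset (ℤ × ℤ)) :
    ∑ e ∈ EO v R, pr W {ω | ((x, v.2, false) : UE) ∈ MM ω (HB v R) e} ≤
      pr W (WE (x, v.2) (R - 3 * r)) := by
  refine sum_pr_le_pr _ _ _ _ ?_ ?_
  · intro e he ω hω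
    rw [mem_EO (by omega)] at he
    have ha := MM_symm hω
    have hin : InE (x, v.2) (R - 3 * r) (x, v.2, false) := by
      unfold InE InR
      simp only [ua_mk, ub_false]
      omega
    have hs1 : ((HB v R : Set (ℤ × ℤ)) ∩ (BR (x, v.2) (R - 3 * r) : Set (ℤ × ℤ))) ⊆
        (HB (x, v.2) (R - 3 * r) : Set (ℤ × ℤ)) := by
      intro f hf
      have h1 := mem_HB.1 hf.1
      have h2 := mem_BR'.1 hf.2
      rw [mem_HB]
      simp only at h2 ⊢
      omega
    rcases Perc6.N1Aux.first_exitF hin ha with h1 | ⟨b, h1, h2⟩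
    · refine ⟨e, MM_mono hs1 h1, ?_⟩
      have h3 := MM_mono (F' := (BR (x, v.2) (R - 3 * r) : Set (ℤ × ℤ))) Set.inter_subset_right h1
      refine bdR_of_sub (v := v) (r := R) ?_ (MM_inE hin h3) he
      unfold PercD.Sub
      simp only
      omega
    · exact ⟨b, MM_mono hs1 h1, h2⟩
  · intro e he e' he' ω h1 h2
    rw [mem_EO (by omega)] at he he'
    refine other_unique (bdF_wall HB_sub_HP) (MM_symm h1) (MM_symm h2)
      (bdF_mono HB_sub_BR (bdF_of_bdE he)) (bdF_mono HB_sub_BR (bdF_of_bdE he')) ?_ ?_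
    · rintro rfl
      exact wall_not_bdR (by omega) he
    · rintro rfl
      exact wall_not_bdR (by omega) he'

/-- (A1), expected number of crossing strands. -/
theorem a1_sum : ∃ C : ℝ, 0 < C ∧ ∀ (v : ℤ × ℤ) (r R : ℤ) (W : Finset (ℤ × ℤ)), 0 < r →
    6 * r ≤ R → HB v R ⊆ W → ∑ e ∈ EO v R, pr W (CrH v r R e) ≤ C * r / R := by
  obtain ⟨c, hc, h1⟩ := pr_hit
  obtain ⟨C, hC, h2⟩ := pr_unit
  refine ⟨12 * C / c, by positivity, fun v r R W hr hR hW => ?_⟩
  have hrr : (0 : ℝ) < r := by exact_mod_cast hr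
  have hRr : (0 : ℝ) < R := by exact_mod_cast (by omega : 0 < R)
  have k1 : c * ∑ e ∈ EO v R, pr W (CrH v r R e) ≤ ∑ e ∈ EO v R, pr W (Ends v r R e) := by
    rw [mul_sum]
    refine sum_le_sum fun e he => ?_
    rw [mem_EO (by omega)] at he
    exact h1 v r R W e hr (by omega) hW he
  have k2 : ∑ e ∈ EO v R, pr W (Ends v r R e) ≤
      ∑ x ∈ Ico (v.1 - 3 * r) (v.1 + 3 * r),
        ∑ e ∈ EO v R, pr W {ω | ((x, v.2, false) : UE) ∈ MM ω (HB v R) e} := by
    rw [sum_comm]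
    refine sum_le_sum fun e _ => ?_
    refine le_trans (pr_mono _ ?_) (pr_biUnion_le W _ _)
    rintro ω ⟨x, hx1, hx2, hx3⟩
    rw [Set.mem_iUnion₂]
    exact ⟨x, mem_Ico.2 ⟨hx1, hx2⟩, hx3⟩
  have k3 : ∑ x ∈ Ico (v.1 - 3 * r) (v.1 + 3 * r),
      ∑ e ∈ EO v R, pr W {ω | ((x, v.2, false) : UE) ∈ MM ω (HB v R) e} ≤
      ∑ x ∈ Ico (v.1 - 3 * r) (v.1 + 3 * r), (2 * C / R : ℝ) := by
    refine sum_le_sum fun x hx => ?_
    rw [mem_Ico] at hx
    refine (sum_ends hr (by omega) hx.1 hx.2 W).trans ?_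
    have hs : HB (x, v.2) (R - 3 * r) ⊆ W := by
      refine subset_trans ?_ hW
      intro f hf
      have h1 := mem_HB.1 (mem_coe.2 hf)
      refine mem_coe.1 (mem_HB.2 ?_)
      simp only at h1
      omega
    refine (h2 (x, v.2) (R - 3 * r) W (by omega) hs).trans ?_
    have hpos : (0 : ℝ) < ((R - 3 * r : ℤ) : ℝ) := by exact_mod_cast (by omega : 0 < R - 3 * r)
    rw [div_le_div_iff₀ hpos hRr]
    have : (R : ℝ) ≤ 2 * ((R - 3 * r : ℤ) : ℝ) := by exact_mod_cast (by omega : R ≤ 2 * (R - 3 * r))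
    nlinarith
  have k4 : ∑ x ∈ Ico (v.1 - 3 * r) (v.1 + 3 * r), (2 * C / R : ℝ) = 12 * C * r / R := by
    rw [sum_const, Int.card_Ico, nsmul_eq_mul]
    have : (((v.1 + 3 * r - (v.1 - 3 * r)).toNat : ℕ) : ℝ) = 6 * r := by
      have h3 : v.1 + 3 * r - (v.1 - 3 * r) = 6 * r := by ring
      rw [h3]
      exact_mod_cast Int.toNat_of_nonneg (by omega : 0 ≤ 6 * r)
    rw [this]
    ring
  have k5 := k1.trans (k2.trans (k3.trans k4.le))
  rw [mul_comm, ← le_div_iff₀ hc] at k5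
  refine k5.trans (le_of_eq ?_)
  ring

/-- (A1), mean: the expected number of strands which cross the half annulus. -/
theorem a1_mean : ∃ C : ℝ, 0 < C ∧ ∀ (v : ℤ × ℤ) (r R : ℤ) (W : Finset (ℤ × ℤ)), 0 < r →
    6 * r ≤ R → HB v R ⊆ W →
    (∑ T ∈ W.powerset, (NF (HP v) v r R (cfg T) : ℝ)) / 2 ^ W.card ≤ C * r / R := by
  classical
  obtain ⟨C, hC, h⟩ := a1_sum
  refine ⟨C, hC, fun v r R W hr hR hW => le_trans ?_ (h v r R W hr hR hW)⟩
  rw [sum_pr_eq]
  refine div_le_div_of_nonneg_right (sum_le_sum fun T _ => ?_) (by positivity)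
  exact_mod_cast NF_le_card hr (by omega) (cfg T)

/-- (A1): the half plane two arm event (one strand crosses the half annulus). -/
theorem a1 : ∃ C : ℝ, 0 < C ∧ ∀ (v : ℤ × ℤ) (r R : ℤ) (W : Finset (ℤ × ℤ)), 0 < r → 0 < R →
    HB v R ⊆ W → pr W {ω | 1 ≤ NF (HP v) v r R ω} ≤ C * r / R := by
  classical
  obtain ⟨C, hC, h⟩ := a1_mean
  refine ⟨C + 6, by positivity, fun v r R W hr hR' hW => ?_⟩
  have hrr : (0 : ℝ) < r := by exact_mod_cast hr
  have hRr : (0 : ℝ) < R := by exact_mod_cast hR'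
  by_cases hR : 6 * r ≤ R
  · refine le_trans ?_ ((h v r R W hr hR hW).trans ?_)
    · rw [ProbA.pr_eq_sum]
      refine div_le_div_of_nonneg_right (sum_le_sum fun T _ => ?_) (by positivity)
      split_ifs with h1
      · exact_mod_cast h1
      · positivity
    · refine div_le_div_of_nonneg_right ?_ hRr.le
      nlinarith
  · refine (pr_le_one _ _).trans ?_
    rw [le_div_iff₀ hRr]
    have : (R : ℝ) ≤ 6 * r := by exact_mod_cast (by omega : R ≤ 6 * r)
    nlinarith

end Pool.Agent.SixB.A1
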