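import Pool.Agent.Lib.SixB.A2P5

/-!
# 6BD, (A2): assembly
-/

set_option autoImplicit false

namespace Pool.Agent.SixB.A2

open Finset Pool.Agent.Perc Pool.Agent.PercD Pool.Agent.Perc6 Pool.Agent.PercN

variable {ω : Cfg} {m r N : ℤ} {z : ℤ × ℤ} {k k' j : ℤ}

theorem tip_congr (hz : -N ≤ z.2) {ω ω' : Cfg} (h : ∀ f ∈ (BR (0, 0) N : Set (ℤ × ℤ)), ω f = ω' f)
    (k j : ℤ) : ω ∈ Tip N z r k j ↔ ω' ∈ Tip N z r k j := by
  unfold Tip
  simp only [Set.mem_ofPred_eq]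
  rw [MM_congr' (ω := ω) (ω' := ω') (F := FH N z r) fun f hf => h f (FH_sub hz hf)]

theorem depOn_Pair (hz : -N ≤ z.2) (k k' : ℤ) :
    DepOn (BR (0, 0) N : Set (ℤ × ℤ)) (Pair N z r k k') := by
  intro ω ω' h
  unfold Pair
  simp only [Set.mem_ofPred_eq, tip_congr hz h]

theorem depOn_SepT (hz : -N ≤ z.2) (g k k' : ℤ) :
    DepOn (BR (0, 0) N : Set (ℤ × ℤ)) (SepT N z r g k k') := by
  intro ω ω' h
  unfold SepT
  simp only [Set.mem_ofPred_eq, tip_congr hz h]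

theorem BB_nonneg (N r : ℤ) : 0 ≤ BB N r :=
  Finset.sum_nonneg fun _ _ => Finset.sum_nonneg fun _ _ => Finset.sum_nonneg fun _ _ =>
    pr_nonneg _ _

theorem BB_mono (h6 : P6) {m r s : ℤ} (hs : 1 ≤ s) (hsr : s ≤ r) (hm : 16 * r ≤ 2 * m) :
    BB (2 * m) s ≤ BB (2 * m) r := by
  unfold BB
  refine Finset.sum_le_sum fun z hz => Finset.sum_le_sum fun k _ => Finset.sum_le_sum fun k' _ =>
    pr_mono _ fun ω hω => h6 (2 * m) z r s k k' (ok_cen (by omega) hm hz) hs hsr hω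

/-- P4 in the cell form. -/
def P4c : Prop := ∀ M : ℕ, ∃ c : ℝ, 0 < c ∧ ∀ (N : ℤ) (z : ℤ × ℤ) (a k k' : ℤ)
  (W : Finset (ℤ × ℤ)), 25 ≤ a → Ok N z (M * a) → BR (0, 0) N ⊆ W →
    c * pr W (Pair N z (M * a) k k' ∩ SepT N z (M * a) (4 * a) k k') ≤ pr W (Enh N z (M * a) k k')

theorem p4c_of (h : P4) : P4c := by
  intro M
  obtain ⟨c, hc, h⟩ := h M
  refine ⟨c, hc, fun N z a k k' W ha hok hW => h N z (M * a) (4 * a) k k' W hok ?_ (by omega) hW⟩
  have h1 : (0 : ℤ) ≤ M := by positivity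
  nlinarith

/-- The recursion. -/
theorem BB_step {C3 β c C5 : ℝ} (hc : 0 < c)
    (h3 : ∀ (N : ℤ) (z : ℤ × ℤ) (r s g k k' : ℤ) (W : Finset (ℤ × ℤ)), Ok N z r → 1 ≤ s →
      2 * s ≤ r → 1 ≤ g → BR (0, 0) N ⊆ W →
      pr W (Pair N z s k k' ∩ (SepT N z r g k k')ᶜ) ≤ C3 * ((g : ℝ) / r) ^ β * pr W (Pair N z r k k'))
    {M : ℕ} (h4 : ∀ (N : ℤ) (z : ℤ × ℤ) (a k k' : ℤ) (W : Finset (ℤ × ℤ)), 25 ≤ a →
      Ok N z (M * a) → BR (0, 0) N ⊆ W →
      c * pr W (Pair N z (M * a) k k' ∩ SepT N z (M * a) (4 * a) k k') ≤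
        pr W (Enh N z (M * a) k k'))
    (h5 : ∀ m r : ℤ, 1 ≤ r → 16 * r ≤ 2 * m →
      ∑ z ∈ cen (2 * m), ∑ k ∈ Ico 0 (oL (2 * m) z), ∑ k' ∈ Ico 0 (oL (2 * m) z),
      pr (BR (0, 0) (2 * m)) (Enh (2 * m) z r k k') ≤ C5 * (r : ℝ) ^ 2)
    (h6 : P6) {m r s g a : ℤ} (hs : 1 ≤ s) (hsr : 2 * s ≤ r) (hm : 16 * r ≤ 2 * m)
    (ha : 25 ≤ a) (hr : r = M * a) (hg : g = 4 * a) :
    BB (2 * m) s ≤ C5 / c * (r : ℝ) ^ 2 + C3 * ((g : ℝ) / r) ^ β * BB (2 * m) r := by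
  have key : ∀ z ∈ cen (2 * m), ∀ k k' : ℤ,
      pr (BR (0, 0) (2 * m)) (Pair (2 * m) z s k k') ≤
        1 / c * pr (BR (0, 0) (2 * m)) (Enh (2 * m) z r k k') +
        C3 * ((g : ℝ) / r) ^ β * pr (BR (0, 0) (2 * m)) (Pair (2 * m) z r k k') := by
    intro z hz k k'
    have hok := ok_cen (r := r) (by omega) hm hz
    have e1 : pr (BR (0, 0) (2 * m)) (Pair (2 * m) z s k k') ≤
        pr (BR (0, 0) (2 * m)) (Pair (2 * m) z r k k' ∩ SepT (2 * m) z r g k k') +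
        pr (BR (0, 0) (2 * m)) (Pair (2 * m) z s k k' ∩ (SepT (2 * m) z r g k k')ᶜ) := by
      refine le_trans (pr_mono _ fun ω hω => ?_) (pr_union_le _ _ _)
      by_cases h : ω ∈ SepT (2 * m) z r g k k'
      · exact Or.inl ⟨h6 (2 * m) z r s k k' hok hs (by omega) hω, h⟩
      · exact Or.inr ⟨hω, h⟩
    have e2 := h3 (2 * m) z r s g k k' (BR (0, 0) (2 * m)) hok hs hsr (by omega)
      (Finset.Subset.refl _)
    have e3 := h4 (2 * m) z a k k' (BR (0, 0) (2 * m)) ha (hr ▸ hok) (Finset.Subset.refl _)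
    rw [← hr, ← hg] at e3
    have e4 : pr (BR (0, 0) (2 * m)) (Pair (2 * m) z r k k' ∩ SepT (2 * m) z r g k k') ≤
        1 / c * pr (BR (0, 0) (2 * m)) (Enh (2 * m) z r k k') := by
      rw [one_div, inv_mul_eq_div, le_div_iff₀ hc, mul_comm]
      exact e3
    linarith
  have h := h5 m r (by omega) hm
  have e : BB (2 * m) s ≤ 1 / c * (∑ z ∈ cen (2 * m), ∑ k ∈ Ico 0 (oL (2 * m) z),
      ∑ k' ∈ Ico 0 (oL (2 * m) z), pr (BR (0, 0) (2 * m)) (Enh (2 * m) z r k k')) +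
      C3 * ((g : ℝ) / r) ^ β * BB (2 * m) r := by
    unfold BB
    simp only [Finset.mul_sum, ← Finset.sum_add_distrib]
    exact Finset.sum_le_sum fun z hz => Finset.sum_le_sum fun k _ =>
      Finset.sum_le_sum fun k' _ => key z hz k k'
  refine e.trans ?_
  have : 1 / c * (∑ z ∈ cen (2 * m), ∑ k ∈ Ico 0 (oL (2 * m) z),
      ∑ k' ∈ Ico 0 (oL (2 * m) z), pr (BR (0, 0) (2 * m)) (Enh (2 * m) z r k k')) ≤
      1 / c * (C5 * (r : ℝ) ^ 2) := mul_le_mul_of_nonneg_left h (by positivity)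
  have e5 : 1 / c * (C5 * (r : ℝ) ^ 2) = C5 / c * (r : ℝ) ^ 2 := by ring
  linarith

theorem BB_le (h3 : P3) (h4 : P4c) (h5a : P5a) (h5b : P5b) (h6 : P6) :
    ∃ A : ℝ, 0 < A ∧ ∀ m r : ℤ, 1 ≤ r → 16 * r ≤ 2 * m → BB (2 * m) r ≤ A * (r : ℝ) ^ 2 := by
  obtain ⟨C3, β, hC3, hβ, h3⟩ := h3
  obtain ⟨C5, hC5, h5⟩ := h5a
  obtain ⟨Cb, hCb, hb⟩ := h5b
  -- the choice of the number of cells
  obtain ⟨M, hM0, hM⟩ : ∃ M : ℕ, 0 < M ∧ C3 * (4 / (M : ℝ)) ^ β ≤ 1 / 32 := by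
    have ht : Filter.Tendsto (fun M : ℕ => C3 * (4 / (M : ℝ)) ^ β) Filter.atTop (nhds 0) := by
      have h1 : Filter.Tendsto (fun M : ℕ => (4 / (M : ℝ))) Filter.atTop (nhds 0) :=
        tendsto_const_div_atTop_nhds_zero_nat 4
      have h2 := (h1.rpow_const (p := β) (Or.inr hβ.le)).const_mul C3
      rw [Real.zero_rpow hβ.ne', mul_zero] at h2
      exact h2
    have h1 := ht.eventually (gt_mem_nhds (show (0 : ℝ) < 1 / 32 by norm_num))
    obtain ⟨M, hM1, hM2⟩ := (h1.and (Filter.eventually_gt_atTop 0)).exists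
    exact ⟨M, hM2, hM1.le⟩
  obtain ⟨c, hc, h4⟩ := h4 M
  have hM1 : (1 : ℤ) ≤ M := by exact_mod_cast hM0
  have hMr : (0 : ℝ) < M := by exact_mod_cast hM0
  set s₀ : ℤ := 25 * (M : ℤ) with hs₀
  set A₁ : ℝ := 18 * C5 / c + 576 * Cb with hA₁
  have hA₁0 : 0 < A₁ := by positivity
  have main : ∀ (n : ℕ) (m s : ℤ), (2 * m - s).toNat ≤ n → s₀ ≤ s → 16 * s ≤ 2 * m →
      BB (2 * m) s ≤ A₁ * (s : ℝ) ^ 2 := by
    intro n
    induction n with
    | zero =>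
      intro m s h1 h2 h3
      omega
    | succ n ih =>
      intro m s hn h2 hm
      have hs1 : (1 : ℝ) ≤ s := by
        have : (1 : ℤ) ≤ s := by omega
        exact_mod_cast this
      by_cases hbig : 16 * (3 * s) ≤ 2 * m
      · obtain ⟨a, ha⟩ : ∃ a : ℤ, a = (2 * s + M - 1) / M := ⟨_, rfl⟩
        obtain ⟨r, hr⟩ : ∃ r : ℤ, r = M * a := ⟨_, rfl⟩
        have d1 : a * M ≤ 2 * s + M - 1 := by
          rw [ha]
          exact Int.ediv_mul_le _ (by omega)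
        have d2 : 2 * s + M - 1 < (a + 1) * M := by
          rw [ha]
          exact Int.lt_ediv_add_one_mul_self _ (by omega)
        have d3 : (a + 1) * M = a * M + M := by ring
        have d4 : M * a = a * M := mul_comm _ _
        have r1 : 2 * s ≤ r := by omega
        have r2 : r ≤ 3 * s := by omega
        have a1 : 25 ≤ a := by
          by_contra hcon
          have h7 : a ≤ 24 := by omega
          have h8 : a * M ≤ 24 * M := mul_le_mul_of_nonneg_right h7 (by omega)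
          omega
        have hi := ih m r (by omega) (by omega) (by omega)
        have hst := BB_step hc h3 h4 h5 h6 (m := m) (r := r) (s := s) (g := 4 * a) (a := a)
          (by omega) r1 (by omega) a1 hr rfl
        have har : (0 : ℝ) < a := by exact_mod_cast (show (0 : ℤ) < a by omega)
        have g3 : (((4 * a : ℤ) : ℝ) / (r : ℝ)) = 4 / M := by
          rw [hr]
          push_cast
          field_simp
        rw [g3] at hst
        have hBn := BB_nonneg (2 * m) r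
        have g5 : C3 * (4 / (M : ℝ)) ^ β * BB (2 * m) r ≤ 1 / 32 * BB (2 * m) r :=
          mul_le_mul_of_nonneg_right hM hBn
        have r3 : (r : ℝ) ≤ 3 * s := by exact_mod_cast r2
        have r0 : (0 : ℝ) ≤ r := by
          have : (0 : ℤ) ≤ r := by omega
          exact_mod_cast this
        have r4 : (r : ℝ) ^ 2 ≤ 9 * (s : ℝ) ^ 2 := by
          calc (r : ℝ) ^ 2 ≤ (3 * (s : ℝ)) ^ 2 := pow_le_pow_left₀ r0 r3 2
            _ = 9 * (s : ℝ) ^ 2 := by ring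
        have g7 : 18 * C5 / c ≤ A₁ := by
          have : 0 ≤ 576 * Cb := by positivity
          linarith
        have g8 : C5 / c * (r : ℝ) ^ 2 ≤ A₁ / 2 * (s : ℝ) ^ 2 := by
          calc C5 / c * (r : ℝ) ^ 2 ≤ C5 / c * (9 * (s : ℝ) ^ 2) :=
                mul_le_mul_of_nonneg_left r4 (by positivity)
            _ = (18 * C5 / c) / 2 * (s : ℝ) ^ 2 := by ring
            _ ≤ A₁ / 2 * (s : ℝ) ^ 2 := mul_le_mul_of_nonneg_right (by linarith) (by positivity)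
        have g9 : 1 / 32 * BB (2 * m) r ≤ A₁ / 2 * (s : ℝ) ^ 2 := by
          calc 1 / 32 * BB (2 * m) r ≤ 1 / 32 * (A₁ * (r : ℝ) ^ 2) :=
                mul_le_mul_of_nonneg_left hi (by norm_num)
            _ ≤ 1 / 32 * (A₁ * (9 * (s : ℝ) ^ 2)) :=
                mul_le_mul_of_nonneg_left (mul_le_mul_of_nonneg_left r4 hA₁0.le) (by norm_num)
            _ = 9 / 32 * (A₁ * (s : ℝ) ^ 2) := by ring
            _ ≤ A₁ / 2 * (s : ℝ) ^ 2 := by
                have : 0 ≤ A₁ * (s : ℝ) ^ 2 := by positivity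
                linarith
        linarith
      · have h1 := hb m s (by omega) hm
        refine h1.trans ?_
        have h2 : (m : ℝ) ≤ 24 * s := by
          have : m ≤ 24 * s := by omega
          exact_mod_cast this
        have h3 : (0 : ℝ) ≤ m := by
          have : (0 : ℤ) ≤ m := by omega
          exact_mod_cast this
        have h4 : (m : ℝ) ^ 2 ≤ 576 * (s : ℝ) ^ 2 := by
          calc (m : ℝ) ^ 2 ≤ (24 * (s : ℝ)) ^ 2 := pow_le_pow_left₀ h3 h2 2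
            _ = 576 * (s : ℝ) ^ 2 := by ring
        have h5 : 576 * Cb ≤ A₁ := by
          have : 0 ≤ 18 * C5 / c := by positivity
          linarith
        calc Cb * (m : ℝ) ^ 2 ≤ Cb * (576 * (s : ℝ) ^ 2) := mul_le_mul_of_nonneg_left h4 hCb.le
          _ = 576 * Cb * (s : ℝ) ^ 2 := by ring
          _ ≤ A₁ * (s : ℝ) ^ 2 := mul_le_mul_of_nonneg_right h5 (by positivity)
  have hs₀r : (1 : ℝ) ≤ (s₀ : ℝ) := by
    have : (1 : ℤ) ≤ s₀ := by omega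
    exact_mod_cast this
  refine ⟨(A₁ + 64 * Cb) * (s₀ : ℝ) ^ 2, by positivity, fun m r hr hm => ?_⟩
  have hr1 : (1 : ℝ) ≤ r := by exact_mod_cast hr
  have hr2 : (1 : ℝ) ≤ (r : ℝ) ^ 2 := one_le_pow₀ hr1
  have hs2 : (1 : ℝ) ≤ (s₀ : ℝ) ^ 2 := one_le_pow₀ hs₀r
  by_cases h : s₀ ≤ r
  · refine (main _ m r le_rfl h hm).trans ?_
    refine mul_le_mul_of_nonneg_right ?_ (by positivity)
    have : A₁ * 1 ≤ (A₁ + 64 * Cb) * (s₀ : ℝ) ^ 2 :=
      mul_le_mul (by linarith) hs2 (by norm_num) (by positivity)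
    linarith
  · by_cases h' : 16 * s₀ ≤ 2 * m
    · refine (BB_mono h6 hr (by omega) h').trans ((main _ m s₀ le_rfl le_rfl h').trans ?_)
      calc A₁ * (s₀ : ℝ) ^ 2 ≤ (A₁ + 64 * Cb) * (s₀ : ℝ) ^ 2 :=
            mul_le_mul_of_nonneg_right (by linarith) (by positivity)
        _ = (A₁ + 64 * Cb) * (s₀ : ℝ) ^ 2 * 1 := (mul_one _).symm
        _ ≤ (A₁ + 64 * Cb) * (s₀ : ℝ) ^ 2 * (r : ℝ) ^ 2 :=
            mul_le_mul_of_nonneg_left hr2 (by positivity)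
    · have h1 := hb m r hr hm
      have h2 : (m : ℝ) ≤ 8 * s₀ := by
        have : m ≤ 8 * s₀ := by omega
        exact_mod_cast this
      have h3 : (0 : ℝ) ≤ m := by
        have : (0 : ℤ) ≤ m := by omega
        exact_mod_cast this
      have h4 : (m : ℝ) ^ 2 ≤ 64 * (s₀ : ℝ) ^ 2 := by
        calc (m : ℝ) ^ 2 ≤ (8 * (s₀ : ℝ)) ^ 2 := pow_le_pow_left₀ h3 h2 2
          _ = 64 * (s₀ : ℝ) ^ 2 := by ring
      calc BB (2 * m) r ≤ Cb * (m : ℝ) ^ 2 := h1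
        _ ≤ Cb * (64 * (s₀ : ℝ) ^ 2) := mul_le_mul_of_nonneg_left h4 hCb.le
        _ = (64 * Cb) * (s₀ : ℝ) ^ 2 * 1 := by ring
        _ ≤ (A₁ + 64 * Cb) * (s₀ : ℝ) ^ 2 * (r : ℝ) ^ 2 := by
            refine mul_le_mul ?_ hr2 (by norm_num) (by positivity)
            exact mul_le_mul_of_nonneg_right (by linarith) (by positivity)

theorem depOn_X2a (v : ℤ × ℤ) (r R : ℤ) : DepOn (BR v R : Set (ℤ × ℤ)) (X2 v r R) := by
  intro ω ω' h
  have e : ∀ b, MM ω {f | f ∈ BR v R ∧ f ∉ BR v r ∧ v.2 ≤ f.2} b =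
      MM ω' {f | f ∈ BR v R ∧ f ∉ BR v r ∧ v.2 ≤ f.2} b := fun b =>
    MM_congr' (ω := ω') (ω' := ω) fun f hf => (h f (mem_coe.2 hf.1)).symm
  unfold X2
  simp only [Set.mem_ofPred_eq, e]

theorem twoLegs_of (h1 : P1) (h3 : P3) (h4 : P4c) (h6 : P6) (h7 : P7) (h8 : P8) :
    TwoLegs := by
  classical
  obtain ⟨A, hA, hB⟩ := BB_le h3 h4 p5a p5b h6
  refine ⟨64 * A + 4096, by positivity, fun v r R W hr hrR hW => ?_⟩
  have hr1 : (1 : ℝ) ≤ r := by exact_mod_cast hr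
  have hR1 : (1 : ℝ) ≤ R := by
    have : (1 : ℤ) ≤ R := by omega
    exact_mod_cast this
  rw [pr_eq_of_depOn (depOn_X2a v r R) hW]
  by_cases hbig : 64 * r ≤ R
  · obtain ⟨m, hm⟩ : ∃ m : ℤ, m = R / 4 := ⟨_, rfl⟩
    have hm1 : 16 * r ≤ 2 * m := by omega
    have hm2 : R ≤ 8 * m := by omega
    have key : ∀ z ∈ cen (2 * m), pr (BR v R) (X2 v r R) ≤
        ∑ k ∈ Ico 0 (oL (2 * m) z), ∑ k' ∈ Ico 0 (oL (2 * m) z),
          pr (BR (0, 0) (2 * m)) (Pair (2 * m) z r k k') := by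
      intro z hz
      have hok := ok_cen hr hm1 hz
      obtain ⟨a1, a2, a3, a4, a5⟩ := hok.le
      have hsub : BR (0, 0) (2 * m) ⊆ BR z R := by
        intro f hf
        rw [mem_BR] at hf ⊢
        have e1 := abs_le.1 (le_refl |z.1|)
        have e2 := abs_le.1 (le_refl |z.2|)
        simp only at hf
        omega
      rw [h8 v z r R (by omega) hrR]
      have hun : ∀ ω ∈ X2 z r R, ω ∈ ⋃ p ∈ Ico 0 (oL (2 * m) z) ×ˢ Ico 0 (oL (2 * m) z),
          Pair (2 * m) z r p.1 p.2 := by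
        intro ω hω
        obtain ⟨k₁, k₂, j₁, j₂, hk, t1, t2⟩ := h7 (2 * m) z r R hok (by omega) ω hω
        obtain ⟨k, k', hp⟩ := h1 (2 * m) z r hok ω k₁ k₂ j₁ j₂ hk t1 t2
        obtain ⟨-, -, ⟨j, hj⟩, ⟨j', hj'⟩⟩ := id hp
        simp only [Set.mem_iUnion]
        exact ⟨(k, k'), mem_product.2 ⟨mem_Ico.2 hj.1, mem_Ico.2 hj'.1⟩, hp⟩
      refine (pr_mono _ hun).trans ((PercD.pr_biUnion_le _ _ _).trans (le_of_eq ?_))
      rw [Finset.sum_product]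
      refine Finset.sum_congr rfl fun k _ => Finset.sum_congr rfl fun k' _ => ?_
      exact pr_eq_of_depOn (depOn_Pair a3 k k') hsub
    have hsum : ((cen (2 * m)).card : ℝ) * pr (BR v R) (X2 v r R) ≤ BB (2 * m) r := by
      rw [← nsmul_eq_mul]
      unfold BB
      exact Finset.card_nsmul_le_sum _ _ _ key
    have hc := (card_cen (m := m) (by omega)).2
    have hB' := hB m r hr hm1
    have hp := pr_nonneg (BR v R) (X2 v r R)
    have hm3 : (R : ℝ) ≤ 8 * m := by exact_mod_cast hm2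
    have hm0 : (0 : ℝ) < m := by linarith
    have h9 : (m : ℝ) ^ 2 * pr (BR v R) (X2 v r R) ≤ A * (r : ℝ) ^ 2 :=
      (mul_le_mul_of_nonneg_right hc hp).trans (hsum.trans hB')
    have h10 : pr (BR v R) (X2 v r R) ≤ A * (r : ℝ) ^ 2 / (m : ℝ) ^ 2 := by
      rw [le_div_iff₀ (by positivity), mul_comm]
      exact h9
    have h11 : A * (r : ℝ) ^ 2 / (m : ℝ) ^ 2 ≤ 64 * A * ((r : ℝ) / R) ^ 2 := by
      rw [div_pow, mul_div_assoc', div_le_div_iff₀ (by positivity) (by positivity)]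
      have h12 : (R : ℝ) ^ 2 ≤ 64 * (m : ℝ) ^ 2 := by
        calc (R : ℝ) ^ 2 ≤ (8 * (m : ℝ)) ^ 2 := pow_le_pow_left₀ (by linarith) hm3 2
          _ = 64 * (m : ℝ) ^ 2 := by ring
      calc A * (r : ℝ) ^ 2 * (R : ℝ) ^ 2 ≤ A * (r : ℝ) ^ 2 * (64 * (m : ℝ) ^ 2) :=
            mul_le_mul_of_nonneg_left h12 (by positivity)
        _ = 64 * A * (r : ℝ) ^ 2 * (m : ℝ) ^ 2 := by ring
    refine h10.trans (h11.trans ?_)
    exact mul_le_mul_of_nonneg_right (by linarith) (by positivity)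
  · have h2 : (R : ℝ) ≤ 64 * r := by
      have : R ≤ 64 * r := by omega
      exact_mod_cast this
    have h3 : (1 : ℝ) / 64 ≤ (r : ℝ) / R := by
      rw [div_le_div_iff₀ (by norm_num) (by linarith)]
      linarith
    have h4 : ((1 : ℝ) / 64) ^ 2 ≤ ((r : ℝ) / R) ^ 2 := pow_le_pow_left₀ (by norm_num) h3 2
    have h5 : (1 : ℝ) ≤ 4096 * ((r : ℝ) / R) ^ 2 := by
      norm_num at h4 ⊢
      linarith
    have h6 : (0 : ℝ) ≤ 64 * A * ((r : ℝ) / R) ^ 2 := by positivity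
    have := pr_le_one (BR v R) (X2 v r R)
    nlinarith

end Pool.Agent.SixB.A2
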