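import Pool.Agent.Lib.MP_6bd702_zc.Y007

/-!
# Row P4a of A2: path lifting off two strands, strands of a subregion that close

`F`, `B`, `U` are regions (sets of faces), `MM ω F e` is the strand of the unit edge `e` inside `F`,
`SS ω F e` are its visited faces.
-/

set_option autoImplicit false

namespace Pool.Agent.SixB.A2

open Finset Pool.Agent.Perc Pool.Agent.PercD Pool.Agent.PercL Pool.Agent.Perc6
open Pool.Agent.PercT

variable {ω η ξ : Cfg} {F G S' U B : Set (ℤ × ℤ)} {e e' a t : UE} {f : ℤ × ℤ}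
  {u v p q w u' v' : ℤ × ℤ} {Φ : ℤ × ℤ → ZMod 2}

/-- Path lifting. A path of `ξ` in `G ⊆ F` starts on the side of `u` and ends on the other side of
the strand of `e`; `η` is `ω` on the strand of `e` and on `S'` and `ξ` elsewhere, `S'` has no face on
the side of `u` outside the strand. Then in `η` the start is joined to `u`. -/
theorem pl_two (hP : IsPot F (MM ω F e) Φ) (he : Joins e u v) (hs : ∃ f ∈ F, IsSide f e)
    (hS' : ∀ f ∈ S', f ∈ F → f ∉ SS ω F e → ∀ w, IsCor f w → Φ w ≠ Φ u) (hG : G ⊆ F)
    (hc : Conn ξ G p q) (hpar : par p = par u) (hp : Φ p = Φ u) (hq : Φ q ≠ Φ u) :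
    Conn (mix (SS ω F e ∪ S') ω ξ) (G ∪ SS ω F e) p u := by
  set η := mix (SS ω F e ∪ S') ω ξ with hη
  have hηS : ∀ f ∈ SS ω F e, η f = ω f := by
    intro f hf
    rw [hη, mix_of_mem (Or.inl hf)]
  have key : ∀ p, Conn ξ G p q → par p = par u → Φ p = Φ u → Conn η (G ∪ SS ω F e) p u := by
    intro p hp
    induction hp using Relation.ReflTransGen.head_induction_on with
    | refl => intro _ h; exact absurd h hq
    | head hb hc ih =>
      rename_i p p'
      intro hpar hp
      obtain ⟨g, hg, hbg, hcp, hcp'⟩ := hb.exists_face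
      by_cases hgS : g ∈ SS ω F e
      · have h1 := hP.ss_conn he hs hgS hcp hpar hp
        have h2 : Conn η (SS ω F e) u p := GridA.conn_congr _ (fun g hg => (hηS g hg).symm) h1
        exact (h2.mono (by intro x hx; exact Or.inr hx)).symm
      · have hgF := hG hg
        have h3 : Φ p = Φ p' := hP.fresh hgF hgS hcp hcp'
        have hgS' : g ∉ S' := fun h => hS' g h hgF hgS p hcp hp
        have h4 : η g = ξ g := by
          rw [hη]
          unfold mix
          rw [if_neg (by rintro (h | h); exacts [hgS h, hgS' h])]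
        have h5 : par p' = par u := by rw [← hb.par_eq]; exact hpar
        exact Relation.ReflTransGen.head ((hbg.congr h4.symm).of_single (Or.inl hg))
          (ih h5 (h3 ▸ hp))
  exact key p hc hpar hp

/-- A face of the strand of `e'` outside the strand of `e` lies on the side of `e'`. -/
theorem side_of_ss (hP : IsPot F (MM ω F e) Φ) (he' : Joins e' u' v')
    (hf : f ∈ SS ω F e') (hn : f ∉ SS ω F e) (hw : IsCor f w) : Φ w = Φ u' := by
  obtain ⟨hfF, a, ha, hside⟩ := hf
  obtain ⟨p, q, hj, hp, hc⟩ := MM_conn he' ha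
  have h1 : Φ u' = Φ p := hP.conn (hc.mono SS_sub)
  rw [h1]
  exact hP.fresh hfF hn hw (hside.cor_left hj)

/-- The strand of `e` inside `U` contains a second boundary unit edge of the larger region `B`:
then it is the strand in `B` and it has no side of a face of `B` outside `U`. -/
theorem closed_in (hU : U ⊆ B) (he : BdU B e) (heU : ∃ f ∈ U, IsSide f e) (ht : t ∈ MM η U e)
    (htB : BdU B t) (hne : t ≠ e) :
    MM η B e = MM η U e ∧ ∀ f ∈ B, f ∉ U → ∀ a, IsSide f a → a ∉ MM η B e := by
  have h1 : MM η B e = MM η U e := MM_eq_of_two hU mem_MM_self ht (Ne.symm hne) he htB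
  refine ⟨h1, ?_⟩
  intro f hf hfU a ha haM
  rw [h1] at haM
  -- the edges `e`, `t` are boundary unit edges of `U`
  have hside : ∀ b ∈ MM η U e, ∃ g ∈ U, IsSide g b := by
    intro b hb
    change Relation.ReflTransGen _ e b at hb
    rcases Relation.ReflTransGen.cases_tail hb with h | ⟨c, -, g, hg, hm⟩
    · rw [h]; exact heU
    · exact ⟨g, hg, hm.right⟩
  have hbd : ∀ b, BdU B b → (∃ g ∈ U, IsSide g b) → BdU U b := by
    rintro b ⟨-, g, hg, hgs⟩ h
    exact ⟨h, g, fun hh => hg (hU hh), hgs⟩
  have heb := hbd e he heU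
  have htb := hbd t htB (hside t ht)
  have hab : BdU U a := ⟨hside a haM, f, hfU, ha⟩
  -- a side of `∂B` has only one face in `B`
  have honly : ∀ b, BdU B b → (∃ g ∈ U, IsSide g b) → ∀ g ∈ B, IsSide g b → g ∈ U := by
    rintro b ⟨-, g', hg', hgs'⟩ ⟨g, hg, hgs⟩ g₁ hg₁ hgs₁
    rcases C2Aux.eq_ahead hgs with h | h <;> rcases C2Aux.eq_ahead hgs' with h' | h' <;>
      rcases C2Aux.eq_ahead hgs₁ with h₁ | h₁
    · rw [h₁, ← h]; exact hg
    · exact absurd (hU hg) (by rw [h, ← h']; exact hg')
    · rw [h₁, ← h]; exact hg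
    · exact absurd hg₁ (by rw [h₁, ← h']; exact hg')
    · exact absurd hg₁ (by rw [h₁, ← h']; exact hg')
    · rw [h₁, ← h]; exact hg
    · exact absurd (hU hg) (by rw [h, ← h']; exact hg')
    · rw [h₁, ← h]; exact hg
  rcases eq_or_ne a e with rfl | hae
  · exact hfU (honly a he heU f hf ha)
  · have := bdU_unique heb haM ht hab htb hae hne
    subst this
    exact hfU (honly a htB (hside a ht) f hf ha)

end Pool.Agent.SixB.A2
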