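import Pool.Agent.Lib.SixB.A2Defs
import Pool.Agent.Lib.SixB.A2BarA

/-!
# Row P4a of A2: the barrier

Geometry of the half annulus: the outer arc, the inner arc, the floors.
-/

set_option autoImplicit false

namespace Pool.Agent.SixB.A2

open Finset Pool.Agent.Perc Pool.Agent.PercD Pool.Agent.PercL Pool.Agent.Perc6
open Pool.Agent.PercT

namespace Bar

variable {N r k k' j : ℤ} {z : ℤ × ℤ} {ω ξ : Cfg} {F U : Set (ℤ × ℤ)} {M : Set UE}
  {Φ : ℤ × ℤ → ZMod 2}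

theorem mem_BR {v f : ℤ × ℤ} {s : ℤ} :
    f ∈ BR v s ↔ v.1 - s ≤ f.1 ∧ f.1 < v.1 + s ∧ v.2 - s ≤ f.2 ∧ f.2 < v.2 + s := by
  unfold BR
  rw [Perc.mem_RF]

theorem mem_FH {f : ℤ × ℤ} : f ∈ FH N z r ↔ (-N ≤ f.1 ∧ f.1 < N ∧ z.2 ≤ f.2 ∧ f.2 < N) ∧
    ¬ (z.1 - r ≤ f.1 ∧ f.1 < z.1 + r ∧ z.2 - r ≤ f.2 ∧ f.2 < z.2 + r) := by
  unfold FH
  rw [Set.mem_ofPred_eq, Perc.mem_RF, mem_BR]

theorem joins_ae {x₀ x₁ y₀ y₁ k : ℤ} (hx : x₀ ≤ x₁) :
    Joins (ae x₀ x₁ y₀ y₁ k) (av x₀ x₁ y₀ y₁ k) (av x₀ x₁ y₀ y₁ (k + 1)) := by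
  unfold ae av Joins
  split_ifs <;> first | omega | (simp only [ua, ub, if_true, Prod.mk.injEq]; simp; omega)

theorem joins_oE (h : Ok N z r) : Joins (oE N z k) (oV N z k) (oV N z (k + 1)) :=
  joins_ae (by have := h.r1; have := h.rN; omega)

/-- The face inside the outer side `k` and the face outside. -/
theorem oE_faces (h : Ok N z r) (hk : 0 ≤ k ∧ k < oL N z) :
    (∃ f ∈ FH N z r, IsSide f (oE N z k)) ∧
      ∃ f, f ∉ (BR (0, 0) N : Set (ℤ × ℤ)) ∧ IsSide f (oE N z k) := by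
  obtain ⟨h1, h2, h3, h4⟩ := h
  have h3' := abs_le.1 (show |z.1| ≤ N / 4 by omega)
  have h4' := abs_le.1 (show |z.2| ≤ N / 4 by omega)
  obtain ⟨hk0, hk1⟩ := hk
  unfold oL at hk1
  unfold oE ae
  split_ifs with c1 c2
  · refine ⟨⟨(-N, z.2 + k), ?_, ?_⟩, ⟨(-N - 1, z.2 + k), ?_, ?_⟩⟩
    · rw [mem_FH]; simp only; omega
    · exact Or.inr (Or.inl rfl)
    · rw [mem_coe, mem_BR]; simp only; omega
    · right; right; right; unfold ri; simp
  · refine ⟨⟨(-N + (k - (N - z.2)), N - 1), ?_, ?_⟩, ⟨(-N + (k - (N - z.2)), N), ?_, ?_⟩⟩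
    · rw [mem_FH]; simp only; omega
    · right; right; left; unfold to'; simp
    · rw [mem_coe, mem_BR]; simp only; omega
    · exact Or.inl rfl
  · refine ⟨⟨(N - 1, N - (k - (N - z.2) - (N - -N)) - 1), ?_, ?_⟩,
      ⟨(N, N - (k - (N - z.2) - (N - -N)) - 1), ?_, ?_⟩⟩
    · rw [mem_FH]; simp only; omega
    · right; right; right; unfold ri; simp
    · rw [mem_coe, mem_BR]; simp only; omega
    · exact Or.inr (Or.inl rfl)

theorem bdU_oE (h : Ok N z r) (hk : 0 ≤ k ∧ k < oL N z) (h1 : FH N z r ⊆ F)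
    (h2 : F ⊆ (BR (0, 0) N : Set (ℤ × ℤ))) : BdU F (oE N z k) := by
  obtain ⟨⟨f, hf, hs⟩, g, hg, hs'⟩ := oE_faces h hk
  exact ⟨⟨f, h1 hf, hs⟩, g, fun hh => hg (h2 hh), hs'⟩

/-- The faces at the inner side `j`. -/
theorem iE_faces (h : Ok N z r) (hj : 0 ≤ j ∧ j < 4 * r) :
    (∃ f ∈ FH N z r, IsSide f (iE z r j)) ∧
      ∃ f, f ∈ (BR z r : Set (ℤ × ℤ)) ∧ IsSide f (iE z r j) := by
  obtain ⟨h1, h2, h3, h4⟩ := h
  have h3' := abs_le.1 (show |z.1| ≤ N / 4 by omega)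
  have h4' := abs_le.1 (show |z.2| ≤ N / 4 by omega)
  obtain ⟨hk0, hk1⟩ := hj
  unfold iE ae
  split_ifs with c1 c2
  · refine ⟨⟨(z.1 - r - 1, z.2 + j), ?_, ?_⟩, ⟨(z.1 - r, z.2 + j), ?_, ?_⟩⟩
    · rw [mem_FH]; simp only; omega
    · right; right; right; unfold ri; simp
    · rw [mem_coe, mem_BR]; simp only; omega
    · exact Or.inr (Or.inl rfl)
  · refine ⟨⟨(z.1 - r + (j - (z.2 + r - z.2)), z.2 + r), ?_, ?_⟩,
      ⟨(z.1 - r + (j - (z.2 + r - z.2)), z.2 + r - 1), ?_, ?_⟩⟩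
    · rw [mem_FH]; simp only; omega
    · exact Or.inl rfl
    · rw [mem_coe, mem_BR]; simp only; omega
    · right; right; left; unfold to'; simp
  · refine ⟨⟨(z.1 + r, z.2 + r - (j - (z.2 + r - z.2) - (z.1 + r - (z.1 - r))) - 1), ?_, ?_⟩,
      ⟨(z.1 + r - 1, z.2 + r - (j - (z.2 + r - z.2) - (z.1 + r - (z.1 - r))) - 1), ?_, ?_⟩⟩
    · rw [mem_FH]; simp only; omega
    · exact Or.inr (Or.inl rfl)
    · rw [mem_coe, mem_BR]; simp only; omega
    · right; right; right; unfold ri; simp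

theorem bdU_iE (h : Ok N z r) (hj : 0 ≤ j ∧ j < 4 * r) (h1 : FH N z r ⊆ F)
    (h2 : ∀ f ∈ F, f ∉ (BR z r : Set (ℤ × ℤ))) : BdU F (iE z r j) := by
  obtain ⟨⟨f, hf, hs⟩, g, hg, hs'⟩ := iE_faces h hj
  exact ⟨⟨f, h1 hf, hs⟩, g, fun hh => h2 g hh hg, hs'⟩

theorem oE_inj (hN : 1 ≤ N) (he : oE N z k = oE N z k') : k = k' := by
  unfold oE ae at he
  split_ifs at he <;> simp only [Prod.mk.injEq] at he <;> simp at he <;> omega

theorem iE_ne_oE (h : Ok N z r) (hj : 0 ≤ j ∧ j < 4 * r) : iE z r j ≠ oE N z k := by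
  obtain ⟨h1, h2, h3, h4⟩ := h
  have h3' := abs_le.1 (show |z.1| ≤ N / 4 by omega)
  have h4' := abs_le.1 (show |z.2| ≤ N / 4 by omega)
  intro he
  unfold iE oE ae at he
  split_ifs at he <;> simp only [Prod.mk.injEq] at he <;> simp at he <;> omega

/-- The potential along the outer arc. -/
theorem pot_arc (h : Ok N z r) (h1 : FH N z r ⊆ F) (hP : IsPot F M Φ) {a b : ℤ} (ha : 0 ≤ a)
    (hab : a ≤ b) (hb : b ≤ oL N z) (hM : ∀ i, a ≤ i → i < b → oE N z i ∉ M) :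
    Φ (oV N z a) = Φ (oV N z b) := by
  induction b, hab using Int.leInduction with
  | base => rfl
  | succ b hab ih =>
    rw [ih (by omega) fun i h2 h3 => hM i h2 (by omega)]
    by_contra hne
    obtain ⟨⟨f, hf, hs⟩, -⟩ := oE_faces h (k := b) (by omega)
    exact hM b hab (by omega) ((hP.joins (h1 hf) hs (joins_oE h)).2 hne)

/-- The potential along a floor. -/
theorem pot_floor (hP : IsPot F M Φ) {a b y : ℤ} (hab : a ≤ b)
    (hF : ∀ x, a ≤ x → x < b → (x, y) ∈ F) (hM : ∀ x, a ≤ x → x < b → ((x, y, false) : UE) ∉ M) :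
    Φ (a, y) = Φ (b, y) := by
  induction b, hab using Int.leInduction with
  | base => rfl
  | succ b hab ih =>
    rw [ih (fun x h2 h3 => hF x h2 (by omega)) fun x h2 h3 => hM x h2 (by omega)]
    by_contra hne
    refine hM b hab (by omega) ((hP.joins (hF b hab (by omega)) (a := bo (b, y)) (Or.inl rfl)
      ?_).2 hne)
    simp [Joins, bo, ua, ub]

/-- A boundary edge of the region which is not an end of the strand does not belong to it. -/
theorem notMem_of (h : Ok N z r) (h1 : FH N z r ⊆ F) (h2 : F ⊆ (BR (0, 0) N : Set (ℤ × ℤ)))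
    (h3 : ∀ f ∈ F, f ∉ (BR z r : Set (ℤ × ℤ))) (hT : ω ∈ Tip N z r k j)
    {b : UE} (hb : BdU F b) (hb1 : b ≠ oE N z k) (hb2 : b ≠ iE z r j) :
    b ∉ MM ω F (oE N z k) := by
  obtain ⟨hk, hj, hM⟩ := hT
  intro hbM
  exact hb2 (bdU_unique (bdU_oE h hk h1 h2) hbM (Perc.MM_mono h1 hM) hb (bdU_iE h hj h1 h3) hb1
    (iE_ne_oE h hj))

/-- The strand of a crossing side is the same in larger regions. -/
theorem strand_eq (h : Ok N z r) (h1 : FH N z r ⊆ F) (h2 : F ⊆ (BR (0, 0) N : Set (ℤ × ℤ)))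
    (h3 : ∀ f ∈ F, f ∉ (BR z r : Set (ℤ × ℤ))) (hT : ω ∈ Tip N z r k j) :
    MM ω F (oE N z k) = MM ω (FH N z r) (oE N z k) ∧
      SS ω F (oE N z k) = SS ω (FH N z r) (oE N z k) ∧
      ∀ f ∈ F, f ∉ FH N z r → ∀ a, IsSide f a → a ∉ MM ω F (oE N z k) := by
  obtain ⟨hk, hj, hM⟩ := hT
  obtain ⟨c1, c2⟩ := closed_in (η := ω) h1 (bdU_oE h hk h1 h2) (oE_faces h hk).1 hM
    (bdU_iE h hj h1 h3) (iE_ne_oE h hj)
  refine ⟨c1, ?_, c2⟩
  ext f
  constructor
  · rintro ⟨hf, a, ha, hs⟩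
    by_cases hf' : f ∈ FH N z r
    · exact ⟨hf', a, c1 ▸ ha, hs⟩
    · exact absurd ha (c2 f hf hf' a hs)
  · rintro ⟨hf, a, ha, hs⟩
    exact ⟨h1 hf, a, c1 ▸ ha, hs⟩

/-! ### Regions -/

/-- The half annulus with the lower left rectangle. -/
def FL (N : ℤ) (z : ℤ × ℤ) (r s : ℤ) : Set (ℤ × ℤ) :=
  FH N z r ∪ (RF (z.1 - s) (z.1 - r) (z.2 - s) N : Set (ℤ × ℤ))

/-- The half annulus with the lower right rectangle. -/
def FR (N : ℤ) (z : ℤ × ℤ) (r s : ℤ) : Set (ℤ × ℤ) :=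
  FH N z r ∪ (RF (z.1 + r) (z.1 + s) (z.2 - s) N : Set (ℤ × ℤ))

/-- The half box with the box of radius `s`. -/
def FU (N : ℤ) (z : ℤ × ℤ) (s : ℤ) : Set (ℤ × ℤ) :=
  (RF (-N) N z.2 N : Set (ℤ × ℤ)) ∪ (RF (z.1 - s) (z.1 + s) (z.2 - s) (z.2 + s) : Set (ℤ × ℤ))

theorem FH_eq (h : Ok N z r) : FH N z r = ((RF (-N) (z.1 - r) z.2 N : Set (ℤ × ℤ)) ∪
    (RF (-N) N (z.2 + r) N : Set (ℤ × ℤ))) ∪ (RF (z.1 + r) N z.2 N : Set (ℤ × ℤ)) := by
  obtain ⟨h1, h2, h3, h4⟩ := h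
  have h3' := abs_le.1 (show |z.1| ≤ N / 4 by omega)
  have h4' := abs_le.1 (show |z.2| ≤ N / 4 by omega)
  ext f
  simp only [mem_FH, Set.mem_union, mem_coe, Perc.mem_RF]
  omega

theorem hasPot_three {a₀ a₁ b₀ : ℤ} (h : Ok N z r) (ha : a₀ < a₁) (ha1 : a₁ ≤ z.1 - r ∨ z.1 + r ≤ a₀)
    (ha2 : -N ≤ a₀) (ha3 : a₁ ≤ N) (hb : b₀ ≤ z.2) :
    HasPot (FH N z r ∪ (RF a₀ a₁ b₀ N : Set (ℤ × ℤ))) := by
  have hok := h
  obtain ⟨h1, h2, h3, h4⟩ := h
  have h3' := abs_le.1 (show |z.1| ≤ N / 4 by omega)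
  have h4' := abs_le.1 (show |z.2| ≤ N / 4 by omega)
  have e1 : HasPot ((RF (-N) (z.1 - r) z.2 N : Set (ℤ × ℤ)) ∪
      (RF (-N) N (z.2 + r) N : Set (ℤ × ℤ))) := by
    refine PotB.glue (hasPot_RF _ _ _ _) (x₀ := -N) (x₁ := z.1 - r) (y₀ := z.2 + r) (y₁ := N)
      (by omega) (by omega) ?_ ?_ ?_
    · intro f; rw [mem_coe, mem_coe, Perc.mem_RF, Perc.mem_RF]; omega
    · intro f; rw [mem_coe, mem_coe, Perc.mem_RF, Perc.mem_RF]; omega
    · intro w hw; have := PotB.VF_RF hw; omega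
  have e2 : HasPot (FH N z r) := by
    rw [FH_eq hok]
    refine PotB.glue e1 (x₀ := z.1 + r) (x₁ := N) (y₀ := z.2 + r) (y₁ := N)
      (by omega) (by omega) ?_ ?_ ?_
    · intro f hf; right; rw [mem_coe, Perc.mem_RF] at hf ⊢; omega
    · intro f; rw [mem_coe, mem_coe, Perc.mem_RF, Perc.mem_RF]; omega
    · intro w hw
      rw [PotB.VF_union] at hw
      rcases hw with hw | hw
      · have := PotB.VF_RF hw; omega
      · have := PotB.VF_RF hw; omega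
  refine PotB.glue e2 (x₀ := a₀) (x₁ := a₁) (y₀ := z.2) (y₁ := N)
      (by omega) (by omega) ?_ ?_ ?_
  · intro f; rw [mem_coe, Perc.mem_RF, mem_FH]; omega
  · intro f; rw [mem_coe, mem_coe, Perc.mem_RF, Perc.mem_RF]; omega
  · intro w hw
    obtain ⟨f, hf, hc⟩ := hw
    rw [mem_FH] at hf
    unfold IsCor at hc
    omega

theorem hasPot_FL (h : Ok N z r) : HasPot (FL N z r (8 * r)) := by
  have hok := h
  obtain ⟨h1, h2, h3, h4⟩ := h
  have h3' := abs_le.1 (show |z.1| ≤ N / 4 by omega)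
  have h4' := abs_le.1 (show |z.2| ≤ N / 4 by omega)
  exact hasPot_three hok (by omega) (by omega) (by omega) (by omega) (by omega)

theorem hasPot_FR (h : Ok N z r) : HasPot (FR N z r (8 * r)) := by
  have hok := h
  obtain ⟨h1, h2, h3, h4⟩ := h
  have h3' := abs_le.1 (show |z.1| ≤ N / 4 by omega)
  have h4' := abs_le.1 (show |z.2| ≤ N / 4 by omega)
  exact hasPot_three hok (by omega) (by omega) (by omega) (by omega) (by omega)

theorem hasPot_FU (h : Ok N z r) : HasPot (FU N z (8 * r)) := by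
  obtain ⟨h1, h2, h3, h4⟩ := h
  have h3' := abs_le.1 (show |z.1| ≤ N / 4 by omega)
  have h4' := abs_le.1 (show |z.2| ≤ N / 4 by omega)
  unfold FU
  refine PotB.glue (hasPot_RF _ _ _ _) (x₀ := z.1 - 8 * r) (x₁ := z.1 + 8 * r) (y₀ := z.2)
    (y₁ := z.2 + 8 * r) (by omega) (by omega) ?_ ?_ ?_
  · intro f; rw [mem_coe, mem_coe, Perc.mem_RF, Perc.mem_RF]; omega
  · intro f; rw [mem_coe, mem_coe, Perc.mem_RF, Perc.mem_RF]; omega
  · intro w hw; have := PotB.VF_RF hw; omega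

/-! ### The two strands in the regions `FL`, `FR` -/

theorem oV_zero (h : Ok N z r) : oV N z 0 = (-N, z.2) := by
  obtain ⟨h1, h2, h3, h4⟩ := h
  have h4' := abs_le.1 (show |z.2| ≤ N / 4 by omega)
  unfold oV av
  rw [if_pos (by omega)]
  simp

theorem oV_last (h : Ok N z r) : oV N z (oL N z) = (N, z.2) := by
  obtain ⟨h1, h2, h3, h4⟩ := h
  have h4' := abs_le.1 (show |z.2| ≤ N / 4 by omega)
  unfold oV av oL
  rw [if_neg (by omega), if_neg (by omega)]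
  refine Prod.ext rfl ?_
  simp only
  omega

theorem FH_sub (h : Ok N z r) : FH N z r ⊆ (BR (0, 0) N : Set (ℤ × ℤ)) := by
  obtain ⟨h1, h2, h3, h4⟩ := h
  have h4' := abs_le.1 (show |z.2| ≤ N / 4 by omega)
  intro f hf
  rw [mem_FH] at hf
  rw [mem_coe, mem_BR]
  simp only
  omega

theorem FL_sub (h : Ok N z r) : FL N z r (8 * r) ⊆ (BR (0, 0) N : Set (ℤ × ℤ)) := by
  obtain ⟨h1, h2, h3, h4⟩ := h
  have h3' := abs_le.1 (show |z.1| ≤ N / 4 by omega)
  have h4' := abs_le.1 (show |z.2| ≤ N / 4 by omega)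
  intro f hf
  unfold FL at hf
  rw [Set.mem_union, mem_FH, mem_coe, Perc.mem_RF] at hf
  rw [mem_coe, mem_BR]
  simp only
  omega

theorem FR_sub (h : Ok N z r) : FR N z r (8 * r) ⊆ (BR (0, 0) N : Set (ℤ × ℤ)) := by
  obtain ⟨h1, h2, h3, h4⟩ := h
  have h3' := abs_le.1 (show |z.1| ≤ N / 4 by omega)
  have h4' := abs_le.1 (show |z.2| ≤ N / 4 by omega)
  intro f hf
  unfold FR at hf
  rw [Set.mem_union, mem_FH, mem_coe, Perc.mem_RF] at hf
  rw [mem_coe, mem_BR]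
  simp only
  omega

theorem FL_off : ∀ f ∈ FL N z r (8 * r), f ∉ (BR z r : Set (ℤ × ℤ)) := by
  intro f hf
  unfold FL at hf
  rw [Set.mem_union, mem_FH, mem_coe, Perc.mem_RF] at hf
  rw [mem_coe, mem_BR]
  omega

theorem FR_off : ∀ f ∈ FR N z r (8 * r), f ∉ (BR z r : Set (ℤ × ℤ)) := by
  intro f hf
  unfold FR at hf
  rw [Set.mem_union, mem_FH, mem_coe, Perc.mem_RF] at hf
  rw [mem_coe, mem_BR]
  omega

/-- A floor edge is not an outer or inner side. -/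
theorem floor_ne (h : Ok N z r) {x : ℤ} :
    ((x, z.2, false) : UE) ≠ oE N z k ∧ ((x, z.2, false) : UE) ≠ iE z r j := by
  obtain ⟨h1, h2, h3, h4⟩ := h
  have h4' := abs_le.1 (show |z.2| ≤ N / 4 by omega)
  constructor
  · intro he
    unfold oE ae at he
    split_ifs at he <;> simp only [Prod.mk.injEq] at he <;> simp at he <;> omega
  · intro he
    unfold iE ae at he
    split_ifs at he <;> simp only [Prod.mk.injEq] at he <;> simp at he <;> omega

theorem bdU_floor {x y : ℤ} (h1 : (x, y) ∈ F) (h2 : (x, y - 1) ∉ F) : BdU F (x, y, false) :=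
  ⟨⟨(x, y), h1, Or.inl rfl⟩, (x, y - 1), h2, by right; right; left; unfold to'; simp⟩

/-- The potential on the left of a crossing strand: up to the left floor. -/
theorem pot_left (h : Ok N z r) (h1 : FH N z r ⊆ F) (h2 : F ⊆ (BR (0, 0) N : Set (ℤ × ℤ)))
    (h3 : ∀ f ∈ F, f ∉ (BR z r : Set (ℤ × ℤ))) (hT : ω ∈ Tip N z r k j)
    (hP : IsPot F (MM ω F (oE N z k)) Φ) {b : ℤ} (hb : -N ≤ b) (hb' : b ≤ z.1 - r)
    (hF : ∀ x, x < b → (x, z.2 - 1) ∉ F) : Φ (b, z.2) = Φ (oV N z k) := by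
  have hok := h
  obtain ⟨g1, g2, g3, g4⟩ := h
  have g3' := abs_le.1 (show |z.1| ≤ N / 4 by omega)
  have g4' := abs_le.1 (show |z.2| ≤ N / 4 by omega)
  obtain ⟨hk, hj, hM⟩ := id hT
  rw [← pot_arc hok h1 hP le_rfl hk.1 hk.2.le, oV_zero hok]
  · refine (pot_floor hP hb ?_ ?_).symm
    · intro x hx hx'
      refine h1 ?_
      rw [mem_FH]
      simp only
      omega
    · intro x hx hx'
      have hfl := floor_ne (x := x) (k := k) (j := j) hok
      refine notMem_of hok h1 h2 h3 hT (bdU_floor (h1 ?_) (hF x hx')) hfl.1 hfl.2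
      rw [mem_FH]
      simp only
      omega
  · intro i hi hi'
    refine notMem_of hok h1 h2 h3 hT (bdU_oE hok ⟨hi, by omega⟩ h1 h2) ?_ ?_
    · intro he
      have := oE_inj (by omega) he
      omega
    · exact (iE_ne_oE hok hj).symm

/-- The potential on the right of a crossing strand: up to the right floor. -/
theorem pot_right (h : Ok N z r) (h1 : FH N z r ⊆ F) (h2 : F ⊆ (BR (0, 0) N : Set (ℤ × ℤ)))
    (h3 : ∀ f ∈ F, f ∉ (BR z r : Set (ℤ × ℤ))) (hT : ω ∈ Tip N z r k j)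
    (hP : IsPot F (MM ω F (oE N z k)) Φ) {b : ℤ} (hb : z.1 + r ≤ b) (hb' : b ≤ N)
    (hF : ∀ x, b ≤ x → (x, z.2 - 1) ∉ F) : Φ (b, z.2) = Φ (oV N z (k + 1)) := by
  have hok := h
  obtain ⟨g1, g2, g3, g4⟩ := h
  have g3' := abs_le.1 (show |z.1| ≤ N / 4 by omega)
  have g4' := abs_le.1 (show |z.2| ≤ N / 4 by omega)
  obtain ⟨hk, hj, hM⟩ := id hT
  rw [pot_arc hok h1 hP (a := k + 1) (b := oL N z) (by omega) (by omega) le_rfl, oV_last hok]
  · refine pot_floor hP hb' ?_ ?_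
    · intro x hx hx'
      refine h1 ?_
      rw [mem_FH]
      simp only
      omega
    · intro x hx hx'
      have hfl := floor_ne (x := x) (k := k) (j := j) hok
      refine notMem_of hok h1 h2 h3 hT (bdU_floor (h1 ?_) (hF x hx)) hfl.1 hfl.2
      rw [mem_FH]
      simp only
      omega
  · intro i hi hi'
    refine notMem_of hok h1 h2 h3 hT (bdU_oE hok ⟨by omega, by omega⟩ h1 h2) ?_ ?_
    · intro he
      have := oE_inj (by omega) he
      omega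
    · exact (iE_ne_oE hok hj).symm

/-- The potential between two crossing strands along the outer arc. -/
theorem pot_between (h : Ok N z r) (h1 : FH N z r ⊆ F) (h2 : F ⊆ (BR (0, 0) N : Set (ℤ × ℤ)))
    (h3 : ∀ f ∈ F, f ∉ (BR z r : Set (ℤ × ℤ))) (hT : ω ∈ Tip N z r k j)
    (hP : IsPot F (MM ω F (oE N z k)) Φ) {a b : ℤ} (ha : 0 ≤ a) (hab : a ≤ b) (hb : b ≤ oL N z)
    (hk : b ≤ k ∨ k < a) : Φ (oV N z a) = Φ (oV N z b) := by
  refine pot_arc h h1 hP ha hab hb ?_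
  intro i hi hi'
  refine notMem_of h h1 h2 h3 hT (bdU_oE h ⟨by omega, by omega⟩ h1 h2) ?_ ?_
  · intro he
    have := oE_inj (by have := h.r1; have := h.rN; omega) he
    omega
  · exact (iE_ne_oE h hT.2.1).symm

theorem left_join (h : Ok N z r) (hω : ω ∈ Pair N z r k k') {p q : ℤ × ℤ} {G : Set (ℤ × ℤ)}
    (hp1 : z.1 - 8 * r ≤ p.1 ∧ p.1 ≤ z.1 - 2 * r) (hp2 : z.2 - 8 * r ≤ p.2 ∧ p.2 ≤ z.2 - 2 * r)
    (hq : q.2 = z.2 ∧ z.1 + r ≤ q.1 ∧ q.1 ≤ N) (hG : G ⊆ FL N z r (8 * r))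
    (hpar : par p = par (oV N z k)) (hc : Conn ξ G p q) :
    Conn (mix (SS ω (FH N z r) (oE N z k) ∪ SS ω (FH N z r) (oE N z k')) ω ξ)
      (FL N z r (8 * r)) p (oV N z k) := by
  obtain ⟨hkk, -, ⟨j, hT⟩, ⟨j', hT'⟩⟩ := hω
  obtain ⟨Φ, hΦ⟩ := hasPot_FL h (MM ω (FL N z r (8 * r)) (oE N z k)) fun f hf => evenAt_MM hf
  have hsub : FH N z r ⊆ FL N z r (8 * r) := Set.subset_union_left
  obtain ⟨e1, e2, e3⟩ := strand_eq h hsub (FL_sub h) FL_off hT
  obtain ⟨e1', e2', e3'⟩ := strand_eq h hsub (FL_sub h) FL_off hT'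
  have hs : ∃ f ∈ FL N z r (8 * r), IsSide f (oE N z k) := by
    obtain ⟨⟨f, hf, hs⟩, -⟩ := oE_faces h hT.1
    exact ⟨f, hsub hf, hs⟩
  have hne : Φ (oV N z k) ≠ Φ (oV N z (k + 1)) := hΦ.ne (joins_oE h) hs
  have g1 := h.r1
  have g2 := h.rN
  have g3' := abs_le.1 (show |z.1| ≤ N / 4 by have := h.z1; omega)
  have g4' := abs_le.1 (show |z.2| ≤ N / 4 by have := h.z2; omega)
  have hk := hT.1
  have hk' := hT'.1
  rw [← e2, ← e2']
  have key := pl_two (ξ := ξ) (S' := SS ω (FL N z r (8 * r)) (oE N z k')) (p := p) (q := q) hΦ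
    (joins_oE h) hs ?_ hG hc hpar ?_ ?_
  · refine key.mono ?_
    rintro f (hf | hf)
    · exact hG hf
    · exact SS_sub hf
  · intro f hf hfF hfn w hw
    rw [side_of_ss hΦ (joins_oE h) hf hfn hw,
      ← pot_between h hsub (FL_sub h) FL_off hT hΦ (a := k + 1) (b := k') (by omega) (by omega)
        (by omega) (by omega)]
    exact hne.symm
  · have k1 := pot_left h hsub (FL_sub h) FL_off hT hΦ (b := z.1 - 8 * r) (by omega)
      (by omega) (by
        intro x hx hm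
        unfold FL at hm
        rw [Set.mem_union, mem_FH, mem_coe, Perc.mem_RF] at hm
        simp only at hm
        omega)
    rw [← k1]
    have kf : ∀ f ∈ (RF (z.1 - 8 * r) (z.1 - 2 * r) (z.2 - 8 * r) z.2 : Set (ℤ × ℤ)), ∀ a,
        IsSide f a → Φ (ua a) = Φ (ub a) := by
      intro f hf a ha
      rw [mem_coe, Perc.mem_RF] at hf
      have hfL : f ∈ FL N z r (8 * r) := by
        right; rw [mem_coe, Perc.mem_RF]; omega
      have hfn : f ∉ FH N z r := by rw [mem_FH]; omega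
      by_contra hne
      exact e3 f hfL hfn a ha ((hΦ f hfL a ha).2 hne)
    have k2 := PotB.const_RF (x₀ := z.1 - 8 * r) (x₁ := z.1 - 2 * r) (y₀ := z.2 - 8 * r)
      (y₁ := z.2) (by omega) (by omega) Φ kf (x := p.1) (y := p.2) (by omega) (by omega) (by omega)
      (by omega)
    have k3 := PotB.const_RF (x₀ := z.1 - 8 * r) (x₁ := z.1 - 2 * r) (y₀ := z.2 - 8 * r)
      (y₁ := z.2) (by omega) (by omega) Φ kf (x := z.1 - 8 * r) (y := z.2) (by omega) (by omega)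
      (by omega) (by omega)
    rw [k3, ← k2]
  · have k1 := pot_right h hsub (FL_sub h) FL_off hT hΦ (b := q.1) (by omega)
      (by omega) (by
        intro x hx hm
        unfold FL at hm
        rw [Set.mem_union, mem_FH, mem_coe, Perc.mem_RF] at hm
        simp only at hm
        omega)
    have : q = (q.1, z.2) := by rw [← hq.1]
    rw [this, k1]
    exact hne.symm

theorem right_join (h : Ok N z r) (hω : ω ∈ Pair N z r k k') {p q : ℤ × ℤ} {G : Set (ℤ × ℤ)}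
    (hp1 : z.1 + 2 * r ≤ p.1 ∧ p.1 ≤ z.1 + 8 * r) (hp2 : z.2 - 8 * r ≤ p.2 ∧ p.2 ≤ z.2 - 2 * r)
    (hq : q.2 = z.2 ∧ -N ≤ q.1 ∧ q.1 ≤ z.1 - r) (hG : G ⊆ FR N z r (8 * r))
    (hpar : par p = par (oV N z (k' + 1))) (hc : Conn ξ G p q) :
    Conn (mix (SS ω (FH N z r) (oE N z k) ∪ SS ω (FH N z r) (oE N z k')) ω ξ)
      (FR N z r (8 * r)) p (oV N z (k' + 1)) := by
  obtain ⟨hkk, -, ⟨j, hT⟩, ⟨j', hT'⟩⟩ := hω
  obtain ⟨Φ, hΦ⟩ := hasPot_FR h (MM ω (FR N z r (8 * r)) (oE N z k')) fun f hf => evenAt_MM hf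
  have hsub : FH N z r ⊆ FR N z r (8 * r) := Set.subset_union_left
  obtain ⟨e1, e2, e3⟩ := strand_eq h hsub (FR_sub h) FR_off hT
  obtain ⟨e1', e2', e3'⟩ := strand_eq h hsub (FR_sub h) FR_off hT'
  have hs : ∃ f ∈ FR N z r (8 * r), IsSide f (oE N z k') := by
    obtain ⟨⟨f, hf, hs⟩, -⟩ := oE_faces h hT'.1
    exact ⟨f, hsub hf, hs⟩
  have hne : Φ (oV N z k') ≠ Φ (oV N z (k' + 1)) := hΦ.ne (joins_oE h) hs
  have g1 := h.r1
  have g2 := h.rN
  have g3' := abs_le.1 (show |z.1| ≤ N / 4 by have := h.z1; omega)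
  have g4' := abs_le.1 (show |z.2| ≤ N / 4 by have := h.z2; omega)
  have hk := hT.1
  have hk' := hT'.1
  rw [← e2, ← e2', Set.union_comm]
  have key := pl_two (ξ := ξ) (S' := SS ω (FR N z r (8 * r)) (oE N z k)) (p := p) (q := q) hΦ
    (joins_oE h).symm hs ?_ hG hc hpar ?_ ?_
  · refine key.mono ?_
    rintro f (hf | hf)
    · exact hG hf
    · exact SS_sub hf
  · intro f hf hfF hfn w hw
    rw [side_of_ss hΦ (joins_oE h) hf hfn hw,
      pot_between h hsub (FR_sub h) FR_off hT' hΦ (a := k) (b := k') (by omega) (by omega)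
        (by omega) (by omega)]
    exact hne
  · have k1 := pot_right h hsub (FR_sub h) FR_off hT' hΦ (b := z.1 + 8 * r) (by omega)
      (by omega) (by
        intro x hx hm
        unfold FR at hm
        rw [Set.mem_union, mem_FH, mem_coe, Perc.mem_RF] at hm
        simp only at hm
        omega)
    rw [← k1]
    have kf : ∀ f ∈ (RF (z.1 + 2 * r) (z.1 + 8 * r) (z.2 - 8 * r) z.2 : Set (ℤ × ℤ)), ∀ a,
        IsSide f a → Φ (ua a) = Φ (ub a) := by
      intro f hf a ha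
      rw [mem_coe, Perc.mem_RF] at hf
      have hfL : f ∈ FR N z r (8 * r) := by
        right; rw [mem_coe, Perc.mem_RF]; omega
      have hfn : f ∉ FH N z r := by rw [mem_FH]; omega
      by_contra hne
      exact e3' f hfL hfn a ha ((hΦ f hfL a ha).2 hne)
    have k2 := PotB.const_RF (x₀ := z.1 + 2 * r) (x₁ := z.1 + 8 * r) (y₀ := z.2 - 8 * r)
      (y₁ := z.2) (by omega) (by omega) Φ kf (x := p.1) (y := p.2) (by omega) (by omega) (by omega)
      (by omega)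
    have k3 := PotB.const_RF (x₀ := z.1 + 2 * r) (x₁ := z.1 + 8 * r) (y₀ := z.2 - 8 * r)
      (y₁ := z.2) (by omega) (by omega) Φ kf (x := z.1 + 8 * r) (y := z.2) (by omega) (by omega)
      (by omega) (by omega)
    rw [k3, ← k2]
  · have k1 := pot_left h hsub (FR_sub h) FR_off hT' hΦ (b := q.1) (by omega)
      (by omega) (by
        intro x hx hm
        unfold FR at hm
        rw [Set.mem_union, mem_FH, mem_coe, Perc.mem_RF] at hm
        simp only at hm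
        omega)
    have : q = (q.1, z.2) := by rw [← hq.1]
    rw [this, k1]
    exact hne

end Bar

end Pool.Agent.SixB.A2
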