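import Pool.Agent.Lib.SixB.A2Bar

/-!
# Row P4a of A2: the barrier, conclusion
-/

set_option autoImplicit false

namespace Pool.Agent.SixB.A2

open Finset Pool.Agent.Perc Pool.Agent.PercD Pool.Agent.PercL Pool.Agent.Perc6
open Pool.Agent.PercT

namespace Bar

variable {N r k k' j : ℤ} {z : ℤ × ℤ} {ω ξ η : Cfg} {F U : Set (ℤ × ℤ)} {M : Set UE}
  {Φ Θ : ℤ × ℤ → ZMod 2} {e : UE}

/-- The paths of the circuit. -/
theorem circuit {c : ℤ} (hr : 1 ≤ r) (hc : c = 0 ∨ c = 1) (hξ : ξ ∈ Blk (c + 1) z (2 * r)) :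
    ∃ ml mr tL tR : ℤ × ℤ,
      (z.1 - 8 * r ≤ ml.1 ∧ ml.1 ≤ z.1 - 2 * r) ∧ (z.2 - 8 * r ≤ ml.2 ∧ ml.2 ≤ z.2 - 2 * r) ∧
      (z.1 + 2 * r ≤ mr.1 ∧ mr.1 ≤ z.1 + 8 * r) ∧ (z.2 - 8 * r ≤ mr.2 ∧ mr.2 ≤ z.2 - 2 * r) ∧
      (tR.2 = z.2 ∧ z.1 + 2 * r ≤ tR.1 ∧ tR.1 ≤ z.1 + 8 * r) ∧
      (tL.2 = z.2 ∧ z.1 - 8 * r ≤ tL.1 ∧ tL.1 ≤ z.1 - 2 * r) ∧
      par ml = c ∧ par mr = c ∧
      Conn ξ (RF (z.1 - 8 * r) (z.1 + 8 * r) (z.2 - 8 * r) (z.2 - 2 * r)) ml mr ∧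
      Conn ξ (((RF (z.1 - 8 * r) (z.1 - 2 * r) (z.2 - 8 * r) (z.2 + 8 * r) : Set (ℤ × ℤ)) ∪
        (RF (z.1 - 8 * r) (z.1 + 8 * r) (z.2 + 2 * r) (z.2 + 8 * r) : Set (ℤ × ℤ))) ∪
        (RF (z.1 + 2 * r) (z.1 + 8 * r) z.2 (z.2 + 8 * r) : Set (ℤ × ℤ))) ml tR ∧
      Conn ξ (((RF (z.1 + 2 * r) (z.1 + 8 * r) (z.2 - 8 * r) (z.2 + 8 * r) : Set (ℤ × ℤ)) ∪
        (RF (z.1 - 8 * r) (z.1 + 8 * r) (z.2 + 2 * r) (z.2 + 8 * r) : Set (ℤ × ℤ))) ∪
        (RF (z.1 - 8 * r) (z.1 - 2 * r) z.2 (z.2 + 8 * r) : Set (ℤ × ℤ))) mr tL := by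
  obtain ⟨hT, hB, hL, hR⟩ := hξ
  have x1 : z.1 - 4 * (2 * r) = z.1 - 8 * r := by ring
  have x2 : z.1 + 4 * (2 * r) = z.1 + 8 * r := by ring
  have y1 : z.2 - 4 * (2 * r) = z.2 - 8 * r := by ring
  have y2 : z.2 + 4 * (2 * r) = z.2 + 8 * r := by ring
  rw [x1, x2, y2] at hT
  rw [x1, x2, y1] at hB
  rw [x1, y1, y2] at hL
  rw [x2, y1, y2] at hR
  clear x1 x2 y1 y2
  obtain ⟨ut, vt, t1, t2, t3, t4, t5, t6⟩ := hT
  obtain ⟨ub', vb, b1, b2, b3, b4, b5, b6⟩ := hB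
  obtain ⟨ul, vl, l1, l2, l3, l4, l5, l6⟩ := hL
  obtain ⟨ur, vr, r1, r2, r3, r4, r5, r6⟩ := hR
  have i1 : z.1 - 8 * r < z.1 - 2 * r := by clear * - hr; omega
  have i2 : z.1 - 2 * r ≤ z.1 + 8 * r := by clear * - hr; omega
  have i3 : z.1 - 8 * r ≤ z.1 + 2 * r := by clear * - hr; omega
  have i4 : z.1 + 2 * r < z.1 + 8 * r := by clear * - hr; omega
  have j1 : z.2 - 8 * r < z.2 - 2 * r := by clear * - hr; omega
  have j2 : z.2 - 2 * r ≤ z.2 + 8 * r := by clear * - hr; omega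
  have j3 : z.2 - 8 * r ≤ z.2 + 2 * r := by clear * - hr; omega
  have j4 : z.2 + 2 * r < z.2 + 8 * r := by clear * - hr; omega
  have j5 : z.2 ≤ z.2 + 2 * r := by clear * - hr; omega
  have j6 : z.2 < z.2 + 8 * r := by clear * - hr; omega
  have j7 : z.2 - 8 * r ≤ z.2 := by clear * - hr; omega
  have pbl : (ub'.1 + ub'.2) % 2 = (ul.1 + ul.2) % 2 := by clear * - b5 l5; omega
  have pbr : (ub'.1 + ub'.2) % 2 = (ur.1 + ur.2) % 2 := by clear * - b5 r5; omega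
  have ptl : (ut.1 + ut.2) % 2 = (ul.1 + ul.2) % 2 := by clear * - t5 l5; omega
  have ptr : (ut.1 + ut.2) % 2 = (ur.1 + ur.2) % 2 := by clear * - t5 r5; omega
  -- bottom and left
  obtain ⟨ml, m1, m2, m3, m4, m5, m6⟩ := meet_cross (ξ := ξ) le_rfl i1 i2 le_rfl j1 j2
    ⟨b1, b2, b3⟩ b4 ⟨l1, l2, l3⟩ l4 pbl b6 l6
  -- bottom and right
  obtain ⟨mr, n1, n2, n3, n4, n5, n6⟩ := meet_cross (ξ := ξ) i3 i4 le_rfl le_rfl j1 j2
    ⟨b1, b2, b3⟩ b4 ⟨r1, r2, r3⟩ r4 pbr b6 r6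
  -- top and left
  obtain ⟨p1, o1, o2, -, -, -, -⟩ := meet_cross (ξ := ξ) le_rfl i1 i2 j3 j4 le_rfl
    ⟨t1, t2, t3⟩ t4 ⟨l1, l2, l3⟩ l4 ptl t6 l6
  -- top and right
  obtain ⟨p2, q1, q2, -, -, -, -⟩ := meet_cross (ξ := ξ) i3 i4 le_rfl j3 j4 le_rfl
    ⟨t1, t2, t3⟩ t4 ⟨r1, r2, r3⟩ r4 ptr t6 r6
  -- upper parts of the left and right crossings
  obtain ⟨aR, bR, a1, a2, a3, a4, a5, a6⟩ := strip_ver (y₀' := z.2) (y₁' := z.2 + 8 * r)
    j7 j6 le_rfl (r1.le.trans j7) ⟨r1.ge, r2, r3⟩ r4.ge r6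
  obtain ⟨aL, bL, c1, c2, c3, c4, c5, c6⟩ := strip_ver (y₀' := z.2) (y₁' := z.2 + 8 * r)
    j7 j6 le_rfl (l1.le.trans j7) ⟨l1.ge, l2, l3⟩ l4.ge l6
  obtain ⟨s1, u1, u2, -, -, -, -⟩ := meet_cross (ξ := ξ) i3 i4 le_rfl j5 j4 le_rfl
    ⟨t1, t2, t3⟩ t4 ⟨a1, a2, a3⟩ a4 (ptr.trans (Conn.parity a6)) t6 a5
  obtain ⟨s2, v1, v2, -, -, -, -⟩ := meet_cross (ξ := ξ) le_rfl i1 i2 j5 j4 le_rfl
    ⟨t1, t2, t3⟩ t4 ⟨c1, c2, c3⟩ c4 (ptl.trans (Conn.parity c6)) t6 c5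
  have pml := Conn.parity m1
  have pmr := Conn.parity n1
  have qml : par ml = c := by
    clear * - pml b5 hc
    unfold par
    omega
  have qmr : par mr = c := by
    clear * - pmr b5 hc
    unfold par
    omega
  refine ⟨ml, mr, aL, aR, ⟨m3, m4⟩, ⟨m5, m6⟩, ⟨n3, n4⟩, ⟨n5, n6⟩, ⟨a1, a2, a3⟩, ⟨c1, c2, c3⟩,
    qml, qmr, Relation.ReflTransGen.trans (Conn.symm m1) n1, ?_, ?_⟩
  · refine Relation.ReflTransGen.trans (b := p1) ?_ (Relation.ReflTransGen.trans (b := s1) ?_ ?_)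
    · exact Conn.mono (fun f hf => Or.inl (Or.inl hf))
        (Relation.ReflTransGen.trans (Conn.symm m2) o2)
    · exact Conn.mono (fun f hf => Or.inl (Or.inr hf))
        (Relation.ReflTransGen.trans (Conn.symm o1) u1)
    · exact Conn.mono (fun f hf => Or.inr hf) (Conn.symm u2)
  · refine Relation.ReflTransGen.trans (b := p2) ?_ (Relation.ReflTransGen.trans (b := s2) ?_ ?_)
    · exact Conn.mono (fun f hf => Or.inl (Or.inl hf))
        (Relation.ReflTransGen.trans (Conn.symm n2) q2)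
    · exact Conn.mono (fun f hf => Or.inl (Or.inr hf))
        (Relation.ReflTransGen.trans (Conn.symm q1) v1)
    · exact Conn.mono (fun f hf => Or.inr hf) (Conn.symm v2)

theorem FU_sub (h : Ok N z r) : FU N z (8 * r) ⊆ (BR (0, 0) N : Set (ℤ × ℤ)) := by
  obtain ⟨h1, h2, h3, h4⟩ := h
  have h3' := abs_le.1 (show |z.1| ≤ N / 4 by omega)
  have h4' := abs_le.1 (show |z.2| ≤ N / 4 by omega)
  intro f hf
  unfold FU at hf
  rw [Set.mem_union, mem_coe, mem_coe, Perc.mem_RF, Perc.mem_RF] at hf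
  rw [mem_coe, mem_BR]
  simp only
  omega

theorem FH_sub_FU : FH N z r ⊆ FU N z (8 * r) := by
  intro f hf
  rw [mem_FH] at hf
  left
  rw [mem_coe, Perc.mem_RF]
  omega

theorem FL_sub_FU (h : Ok N z r) : FL N z r (8 * r) ⊆ FU N z (8 * r) := by
  obtain ⟨h1, h2, h3, h4⟩ := h
  have h3' := abs_le.1 (show |z.1| ≤ N / 4 by omega)
  have h4' := abs_le.1 (show |z.2| ≤ N / 4 by omega)
  intro f hf
  unfold FL at hf
  rw [Set.mem_union, mem_FH, mem_coe, Perc.mem_RF] at hf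
  unfold FU
  rw [Set.mem_union, mem_coe, mem_coe, Perc.mem_RF, Perc.mem_RF]
  omega

theorem FR_sub_FU (h : Ok N z r) : FR N z r (8 * r) ⊆ FU N z (8 * r) := by
  obtain ⟨h1, h2, h3, h4⟩ := h
  have h3' := abs_le.1 (show |z.1| ≤ N / 4 by omega)
  have h4' := abs_le.1 (show |z.2| ≤ N / 4 by omega)
  intro f hf
  unfold FR at hf
  rw [Set.mem_union, mem_FH, mem_coe, Perc.mem_RF] at hf
  unfold FU
  rw [Set.mem_union, mem_coe, mem_coe, Perc.mem_RF, Perc.mem_RF]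
  omega

/-- The potential is constant on the lower part of the box off the box of radius `8 r`. -/
theorem low_const (h : Ok N z r) (hΘ : IsPot (BR (0, 0) N : Set (ℤ × ℤ)) M Θ)
    (hoff : ∀ f ∈ (BR (0, 0) N : Set (ℤ × ℤ)), f ∉ FU N z (8 * r) → ∀ a, IsSide f a → a ∉ M)
    {w : ℤ × ℤ} (w1 : -N ≤ w.1) (w2 : w.1 ≤ N) (w3 : -N ≤ w.2) (w4 : w.2 ≤ z.2)
    (hw : w.1 ≤ z.1 - 8 * r ∨ z.1 + 8 * r ≤ w.1 ∨ w.2 ≤ z.2 - 8 * r) : Θ w = Θ (-N, -N) := by
  obtain ⟨h1, h2, h3, h4⟩ := h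
  have h3' := abs_le.1 (show |z.1| ≤ N / 4 by omega)
  have h4' := abs_le.1 (show |z.2| ≤ N / 4 by omega)
  have key : ∀ x₀ x₁ y₁ : ℤ, -N ≤ x₀ → x₁ ≤ N → y₁ ≤ z.2 →
      (x₁ ≤ z.1 - 8 * r ∨ z.1 + 8 * r ≤ x₀ ∨ y₁ ≤ z.2 - 8 * r) →
      ∀ f ∈ (RF x₀ x₁ (-N) y₁ : Set (ℤ × ℤ)), ∀ a, IsSide f a → Θ (ua a) = Θ (ub a) := by
    intro x₀ x₁ y₁ hx0 hx1 hy hc f hf a ha
    rw [mem_coe, Perc.mem_RF] at hf
    have hfB : f ∈ (BR (0, 0) N : Set (ℤ × ℤ)) := by
      rw [mem_coe, mem_BR]; simp only; omega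
    have hfU : f ∉ FU N z (8 * r) := by
      unfold FU
      rw [Set.mem_union, mem_coe, mem_coe, Perc.mem_RF, Perc.mem_RF]
      omega
    by_contra hne
    exact hoff f hfB hfU a ha ((hΘ f hfB a ha).2 hne)
  rcases hw with hw | hw | hw
  · exact PotB.const_RF (by omega) (by omega) Θ (key (-N) (z.1 - 8 * r) z.2 (by omega) (by omega)
      (by omega) (by omega)) w1 hw w3 w4
  · have k1 := PotB.const_RF (by omega) (by omega) Θ (key (z.1 + 8 * r) N z.2 (by omega) (by omega)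
      (by omega) (by omega)) hw w2 w3 w4
    have k2 := PotB.const_RF (by omega) (by omega) Θ (key (-N) N (z.2 - 8 * r) (by omega)
      (by omega) (by omega) (by omega)) (x := z.1 + 8 * r) (y := -N) (by omega) (by omega)
      (by omega) (by omega)
    exact k1.trans k2
  · exact PotB.const_RF (by omega) (by omega) Θ (key (-N) N (z.2 - 8 * r) (by omega) (by omega)
      (by omega) (by omega)) w1 w2 w3 hw

/-- **The barrier (P4a).** -/
theorem barrier_conn (h : Ok N z r) (hω : ω ∈ Pair N z r k k')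
    (hξ : ξ ∈ Blk (par (oV N z k) + 1) z (2 * r)) :
    Conn (mix (SS ω (FH N z r) (oE N z k) ∪ SS ω (FH N z r) (oE N z k')) ω ξ)
      (FU N z (8 * r)) (oV N z k) (oV N z (k' + 1)) := by
  have hr := h.r1
  have g2 := h.rN
  have g3' := abs_le.1 (show |z.1| ≤ N / 4 by have := h.z1; omega)
  have g4' := abs_le.1 (show |z.2| ≤ N / 4 by have := h.z2; omega)
  obtain ⟨ml, mr, tL, tR, c1, c2, c3, c4, c5, c6, c7, c8, c9, c10, c11⟩ :=
    circuit hr (par_cases _) hξ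
  have hpar : par (oV N z (k' + 1)) = par (oV N z k) := by
    obtain ⟨hkk, hpp, -, -⟩ := hω
    have key : ∀ i : ℤ, (par (oV N z i) + par (oV N z 0) + i) % 2 = 0 := by
      intro i
      unfold oV av par
      split_ifs <;> simp only <;> omega
    have e1 := key k
    have e2 := key (k' + 1)
    have e3 := par_cases (oV N z k)
    have e4 := par_cases (oV N z (k' + 1))
    omega
  have k1 := left_join (ξ := ξ) h hω c1 c2 (q := tR) ⟨c5.1, by omega, by omega⟩ ?_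
    c7 c10
  · have k2 := right_join (ξ := ξ) h hω c3 c4 (q := tL) ⟨c6.1, by omega, by omega⟩ ?_
      (c8.trans hpar.symm) c11
    · have k3 : Conn (mix (SS ω (FH N z r) (oE N z k) ∪ SS ω (FH N z r) (oE N z k')) ω ξ)
          (FU N z (8 * r)) ml mr := by
        refine (GridA.conn_congr _ ?_ c9).mono ?_
        · intro f hf
          rw [mem_coe, Perc.mem_RF] at hf
          unfold mix
          rw [if_neg]
          rintro (hh | hh)
          · have := SS_sub hh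
            rw [mem_FH] at this
            omega
          · have := SS_sub hh
            rw [mem_FH] at this
            omega
        · intro f hf
          right
          rw [mem_coe, Perc.mem_RF] at hf ⊢
          omega
      exact (k1.symm.mono (FL_sub_FU h)).trans (k3.trans (k2.mono (FR_sub_FU h)))
    · intro f hf
      unfold FR
      rw [Set.mem_union, mem_FH, mem_coe, Perc.mem_RF]
      simp only [Set.mem_union, mem_coe, Perc.mem_RF] at hf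
      omega
  · intro f hf
    unfold FL
    rw [Set.mem_union, mem_FH, mem_coe, Perc.mem_RF]
    simp only [Set.mem_union, mem_coe, Perc.mem_RF] at hf
    omega

/-- In a configuration in which the outer ends of the pair are joined above the line, the strands
close. -/
theorem closes (h : Ok N z r) (hk0 : 0 ≤ k) (hkk : k < k') (hk1 : k' < oL N z)
    (hc : Conn η (FU N z (8 * r)) (oV N z k) (oV N z (k' + 1))) :
    η ∈ E2 N z r (oV N z (k + 1)) ∩ E2 N z r (oV N z k') := by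
  have hr := h.r1
  have g2 := h.rN
  have g3' := abs_le.1 (show |z.1| ≤ N / 4 by have := h.z1; omega)
  have g4' := abs_le.1 (show |z.2| ≤ N / 4 by have := h.z2; omega)
  have hB : HasPot (BR (0, 0) N : Set (ℤ × ℤ)) := hasPot_RF _ _ _ _
  have hBB : FH N z r ⊆ (BR (0, 0) N : Set (ℤ × ℤ)) := FH_sub h
  have hside : ∀ i, 0 ≤ i → i < oL N z → ∃ f ∈ FU N z (8 * r), IsSide f (oE N z i) := by
    intro i h0 h1
    obtain ⟨⟨f, hf, hs⟩, -⟩ := oE_faces h ⟨h0, h1⟩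
    exact ⟨f, FH_sub_FU hf, hs⟩
  have hsideB : ∀ i, 0 ≤ i → i < oL N z →
      ∃ f ∈ (BR (0, 0) N : Set (ℤ × ℤ)), IsSide f (oE N z i) := by
    intro i h0 h1
    obtain ⟨f, hf, hs⟩ := hside i h0 h1
    exact ⟨f, FU_sub h hf, hs⟩
  have hin : ∀ q w : ℤ × ℤ, Conn η (BR (0, 0) N : Set (ℤ × ℤ)) q w → -N ≤ q.1 → q.1 ≤ N →
      -N ≤ q.2 → q.2 ≤ N → -N ≤ w.1 ∧ w.1 ≤ N ∧ -N ≤ w.2 ∧ w.2 ≤ N := by
    intro q w hqw q1 q2 q3 q4
    have := Conn.mem_rect (x₀ := (0, 0).1 - N) (x₁ := (0, 0).1 + N) (y₀ := (0, 0).2 - N)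
      (y₁ := (0, 0).2 + N) hqw (by simp only; omega)
    simp only at this
    omega
  have hoV : ∀ i, 0 ≤ i → i ≤ oL N z → -N ≤ (oV N z i).1 ∧ (oV N z i).1 ≤ N ∧
      -N ≤ (oV N z i).2 ∧ (oV N z i).2 ≤ N := by
    intro i h0 h1
    unfold oL at h1
    unfold oV av
    split_ifs <;> simp only <;> omega
  constructor
  · -- the strand of `k`
    obtain ⟨Ψ, hΨ⟩ := hasPot_FU h (MM η (FU N z (8 * r)) (oE N z k)) fun f hf => evenAt_MM hf
    have hne : Ψ (oV N z k) ≠ Ψ (oV N z (k + 1)) :=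
      hΨ.ne (joins_oE h) (hside k hk0 (by omega))
    obtain ⟨j, hj1, hj2, hj⟩ : ∃ i, k + 1 ≤ i ∧ i < k' + 1 ∧
        oE N z i ∈ MM η (FU N z (8 * r)) (oE N z k) := by
      by_contra hno
      push Not at hno
      refine hne ((hΨ.conn hc).trans
        (pot_arc h FH_sub_FU hΨ (a := k + 1) (b := k' + 1) (by omega) (by omega) (by omega) hno).symm)
    have hjk : oE N z j ≠ oE N z k := by
      intro he
      have := oE_inj (by omega) he
      omega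
    obtain ⟨m1, m2⟩ := closed_in (FU_sub h) (bdU_oE h ⟨hk0, by omega⟩ hBB le_rfl)
      (hside k hk0 (by omega)) hj (bdU_oE h ⟨by omega, by omega⟩ hBB le_rfl) hjk
    obtain ⟨Θ, hΘ⟩ := hB (MM η (BR (0, 0) N : Set (ℤ × ℤ)) (oE N z k)) fun f hf => evenAt_MM hf
    have hneΘ : Θ (oV N z k) ≠ Θ (oV N z (k + 1)) :=
      hΘ.ne (joins_oE h) (hsideB k hk0 (by omega))
    have hb : BdU (BR (0, 0) N : Set (ℤ × ℤ)) (oE N z k) := bdU_oE h ⟨hk0, by omega⟩ hBB le_rfl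
    have hjB : oE N z j ∈ MM η (BR (0, 0) N : Set (ℤ × ℤ)) (oE N z k) := m1 ▸ hj
    have h0k : Θ (oV N z 0) = Θ (oV N z k) := by
      refine pot_arc h hBB hΘ le_rfl hk0 (by omega) ?_
      intro i hi0 hik hiM
      have hik' : oE N z i ≠ oE N z k := by
        intro he
        have := oE_inj (by omega) he
        omega
      have := bdU_unique hb hiM hjB (bdU_oE h ⟨hi0, by omega⟩ hBB le_rfl)
        (bdU_oE h ⟨by omega, by omega⟩ hBB le_rfl) hik' hjk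
      have := oE_inj (by omega) this
      omega
    intro w hw hwz
    have hwr := hin _ _ hw (hoV (k + 1) (by omega) (by omega)).1
      (hoV (k + 1) (by omega) (by omega)).2.1 (hoV (k + 1) (by omega) (by omega)).2.2.1
      (hoV (k + 1) (by omega) (by omega)).2.2.2
    by_contra hcon
    have hout : w.1 ≤ z.1 - 8 * r ∨ z.1 + 8 * r ≤ w.1 ∨ w.2 ≤ z.2 - 8 * r := by
      by_contra hin'
      apply hcon
      constructor
      · rw [abs_le]; omega
      · rw [abs_le]; omega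
    have e1 := low_const h hΘ m2 hwr.1 hwr.2.1 hwr.2.2.1 hwz hout
    have e2 := low_const h hΘ m2 (w := (-N, z.2)) le_rfl (by simp only; omega) (by simp only; omega)
      le_rfl (Or.inl (by simp only; omega))
    have e3 := hΘ.conn hw
    rw [oV_zero h] at h0k
    exact hneΘ (by rw [← h0k, e2, ← e1, ← e3])
  · -- the strand of `k'`
    obtain ⟨Ψ, hΨ⟩ := hasPot_FU h (MM η (FU N z (8 * r)) (oE N z k')) fun f hf => evenAt_MM hf
    have hne : Ψ (oV N z k') ≠ Ψ (oV N z (k' + 1)) :=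
      hΨ.ne (joins_oE h) (hside k' (by omega) (by omega))
    obtain ⟨j, hj1, hj2, hj⟩ : ∃ i, k ≤ i ∧ i < k' ∧
        oE N z i ∈ MM η (FU N z (8 * r)) (oE N z k') := by
      by_contra hno
      push Not at hno
      refine hne ((pot_arc h FH_sub_FU hΨ (a := k) (b := k') (by omega) (by omega) (by omega)
        hno).symm.trans (hΨ.conn hc))
    have hjk : oE N z j ≠ oE N z k' := by
      intro he
      have := oE_inj (by omega) he
      omega
    obtain ⟨m1, m2⟩ := closed_in (FU_sub h) (bdU_oE h ⟨by omega, by omega⟩ hBB le_rfl)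
      (hside k' (by omega) (by omega)) hj (bdU_oE h ⟨by omega, by omega⟩ hBB le_rfl) hjk
    obtain ⟨Θ, hΘ⟩ := hB (MM η (BR (0, 0) N : Set (ℤ × ℤ)) (oE N z k')) fun f hf => evenAt_MM hf
    have hneΘ : Θ (oV N z k') ≠ Θ (oV N z (k' + 1)) :=
      hΘ.ne (joins_oE h) (hsideB k' (by omega) (by omega))
    have hb : BdU (BR (0, 0) N : Set (ℤ × ℤ)) (oE N z k') :=
      bdU_oE h ⟨by omega, by omega⟩ hBB le_rfl
    have hjB : oE N z j ∈ MM η (BR (0, 0) N : Set (ℤ × ℤ)) (oE N z k') := m1 ▸ hj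
    have h0k : Θ (oV N z (k' + 1)) = Θ (oV N z (oL N z)) := by
      refine pot_arc h hBB hΘ (by omega) (by omega) le_rfl ?_
      intro i hi0 hik hiM
      have hik' : oE N z i ≠ oE N z k' := by
        intro he
        have := oE_inj (by omega) he
        omega
      have := bdU_unique hb hiM hjB (bdU_oE h ⟨by omega, by omega⟩ hBB le_rfl)
        (bdU_oE h ⟨by omega, by omega⟩ hBB le_rfl) hik' hjk
      have := oE_inj (by omega) this
      omega
    intro w hw hwz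
    have hwr := hin _ _ hw (hoV k' (by omega) (by omega)).1
      (hoV k' (by omega) (by omega)).2.1 (hoV k' (by omega) (by omega)).2.2.1
      (hoV k' (by omega) (by omega)).2.2.2
    by_contra hcon
    have hout : w.1 ≤ z.1 - 8 * r ∨ z.1 + 8 * r ≤ w.1 ∨ w.2 ≤ z.2 - 8 * r := by
      by_contra hin'
      apply hcon
      constructor
      · rw [abs_le]; omega
      · rw [abs_le]; omega
    have e1 := low_const h hΘ m2 hwr.1 hwr.2.1 hwr.2.2.1 hwz hout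
    have e2 := low_const h hΘ m2 (w := (N, z.2)) (by simp only; omega) le_rfl
      (by simp only; omega) le_rfl (Or.inr (Or.inl (by simp only; omega)))
    have e3 := hΘ.conn hw
    rw [oV_last h] at h0k
    exact hneΘ (by rw [h0k, e2, ← e1, ← e3])

end Bar

/-- **Row P4a.** A circuit of the outer colour in the fresh faces closes both strands of the pair:
neither inner cluster has a vertex below the line outside the box of radius `8 r`. -/
theorem barrier {N r k k' : ℤ} {z : ℤ × ℤ} {ω ξ : Cfg} (h : Ok N z r) (hω : ω ∈ Pair N z r k k')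
    (hξ : ξ ∈ Blk (par (oV N z k) + 1) z (2 * r)) :
    mix (SS ω (FH N z r) (oE N z k) ∪ SS ω (FH N z r) (oE N z k')) ω ξ ∈
      E2 N z r (oV N z (k + 1)) ∩ E2 N z r (oV N z k') := by
  obtain ⟨hkk, hpp, ⟨j, hT⟩, ⟨j', hT'⟩⟩ := id hω
  exact Bar.closes h hT.1.1 hkk hT'.1.2 (Bar.barrier_conn h hω hξ)

end Pool.Agent.SixB.A2
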