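import Pool.Agent.Lib.MP_6bd702_zc.Y030

/-!
# 6BD, item (A2): two strands across a half annulus: definitions and statements

`FH N z r` is the half annulus above the height of `z` between the box of radius `r` around `z` and
the box of radius `N` around the origin. Its outer boundary sides are numbered clockwise from the
left wall (`oE N z k`), its inner boundary sides likewise (`iE z r j`).
-/

set_option autoImplicit false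

namespace Pool.Agent.SixB.A2

open Finset Pool.Agent.Perc Pool.Agent.PercD Pool.Agent.Perc6 Pool.Agent.PercN

/-- The vertices of the polygonal line left side (upwards), top, right side (downwards) of the
rectangle `[x₀, x₁] × [y₀, y₁]`. -/
def av (x₀ x₁ y₀ y₁ k : ℤ) : ℤ × ℤ :=
  if k ≤ y₁ - y₀ then (x₀, y₀ + k)
  else if k ≤ (y₁ - y₀) + (x₁ - x₀) then (x₀ + (k - (y₁ - y₀)), y₁)
  else (x₁, y₁ - (k - (y₁ - y₀) - (x₁ - x₀)))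

/-- The unit edge from `av k` to `av (k + 1)`. -/
def ae (x₀ x₁ y₀ y₁ k : ℤ) : UE :=
  if k < y₁ - y₀ then (x₀, y₀ + k, true)
  else if k < (y₁ - y₀) + (x₁ - x₀) then (x₀ + (k - (y₁ - y₀)), y₁, false)
  else (x₁, y₁ - (k - (y₁ - y₀) - (x₁ - x₀)) - 1, true)

/-- The half annulus. -/
def FH (N : ℤ) (z : ℤ × ℤ) (r : ℤ) : Set (ℤ × ℤ) := {f | f ∈ RF (-N) N z.2 N ∧ f ∉ BR z r}

/-- The outer arc: vertices and sides, `0 ≤ k ≤ oL N z`. -/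
def oV (N : ℤ) (z : ℤ × ℤ) (k : ℤ) : ℤ × ℤ := av (-N) N z.2 N k
def oE (N : ℤ) (z : ℤ × ℤ) (k : ℤ) : UE := ae (-N) N z.2 N k
def oL (N : ℤ) (z : ℤ × ℤ) : ℤ := 2 * (N - z.2) + 2 * N

/-- The inner arc: vertices and sides, `0 ≤ j ≤ 4 r`. -/
def iV (z : ℤ × ℤ) (r j : ℤ) : ℤ × ℤ := av (z.1 - r) (z.1 + r) z.2 (z.2 + r) j
def iE (z : ℤ × ℤ) (r j : ℤ) : UE := ae (z.1 - r) (z.1 + r) z.2 (z.2 + r) j

/-- The sizes. -/
structure Ok (N : ℤ) (z : ℤ × ℤ) (r : ℤ) : Prop where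
  r1 : 1 ≤ r
  rN : 16 * r ≤ N
  z1 : 4 * |z.1| ≤ N
  z2 : 4 * |z.2| ≤ N

/-- The strand of the outer side `k` crosses the half annulus and has its tip in the inner side
`j`. -/
def Tip (N : ℤ) (z : ℤ × ℤ) (r k j : ℤ) : Set Cfg :=
  {ω | (0 ≤ k ∧ k < oL N z) ∧ (0 ≤ j ∧ j < 4 * r) ∧ iE z r j ∈ MM ω (FH N z r) (oE N z k)}

/-- The strands of `k < k'` cross, with the same colour between them. -/
def Pair (N : ℤ) (z : ℤ × ℤ) (r k k' : ℤ) : Set Cfg :=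
  {ω | k < k' ∧ (k' - k) % 2 = 1 ∧ (∃ j, ω ∈ Tip N z r k j) ∧ ∃ j, ω ∈ Tip N z r k' j}

/-- The two tips are at distance more than `g`. -/
def SepT (N : ℤ) (z : ℤ × ℤ) (r g k k' : ℤ) : Set Cfg :=
  {ω | ∀ j j', ω ∈ Tip N z r k j → ω ∈ Tip N z r k' j' → j + g < j'}

/-- The cluster of `q` in the box has a vertex below `z`, near `z`. -/
def E1 (N : ℤ) (z : ℤ × ℤ) (r : ℤ) (q : ℤ × ℤ) : Set Cfg :=
  {ω | ∃ w, Conn ω (BR (0, 0) N : Set (ℤ × ℤ)) q w ∧ w.2 ≤ z.2 ∧ |w.1 - z.1| ≤ 8 * r ∧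
    |w.2 - z.2| ≤ 8 * r}

/-- The cluster of `q` in the box has no vertex below `z` far from `z`. -/
def E2 (N : ℤ) (z : ℤ × ℤ) (r : ℤ) (q : ℤ × ℤ) : Set Cfg :=
  {ω | ∀ w, Conn ω (BR (0, 0) N : Set (ℤ × ℤ)) q w → w.2 ≤ z.2 → |w.1 - z.1| ≤ 8 * r ∧
    |w.2 - z.2| ≤ 8 * r}

/-- The enhanced event for the pair `k, k'`. -/
def Enh (N : ℤ) (z : ℤ × ℤ) (r k k' : ℤ) : Set Cfg :=
  {ω | ω ∈ Pair N z r k k' ∧ ((ω ∈ E1 N z r (oV N z (k + 1)) ∧ ω ∈ E2 N z r (oV N z (k + 1))) ∨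
    (ω ∈ E1 N z r (oV N z k') ∧ ω ∈ E2 N z r (oV N z k')))}

/-- Two different strands cross the half annulus `r : R` above `v`. -/
def X2 (v : ℤ × ℤ) (r R : ℤ) : Set Cfg :=
  {ω | ∃ b b' a a' : UE, b ≠ b' ∧ BdR v r b ∧ BdR v r b' ∧ BdR v R a ∧ BdR v R a' ∧
    a ∈ MM ω {f | f ∈ BR v R ∧ f ∉ BR v r ∧ v.2 ≤ f.2} b ∧
    a' ∈ MM ω {f | f ∈ BR v R ∧ f ∉ BR v r ∧ v.2 ≤ f.2} b'}

/-! ## The statements of the rows -/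

/-- P1: two crossing strands give a crossing pair. -/
def P1 : Prop := ∀ (N : ℤ) (z : ℤ × ℤ) (r : ℤ), Ok N z r → ∀ (ω : Cfg) (k₁ k₂ j₁ j₂ : ℤ),
  k₁ < k₂ → ω ∈ Tip N z r k₁ j₁ → ω ∈ Tip N z r k₂ j₂ → ∃ k k', ω ∈ Pair N z r k k'

/-- P3: close tips are unlikely if the strands have to go on. -/
def P3 : Prop := ∃ C β : ℝ, 0 < C ∧ 0 < β ∧ ∀ (N : ℤ) (z : ℤ × ℤ) (r s g k k' : ℤ)
  (W : Finset (ℤ × ℤ)), Ok N z r → 1 ≤ s → 2 * s ≤ r → 1 ≤ g → BR (0, 0) N ⊆ W →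
    pr W (Pair N z s k k' ∩ (SepT N z r g k k')ᶜ) ≤
      C * ((g : ℝ) / r) ^ β * pr W (Pair N z r k k')

/-- P4: separated pairs can be closed below. -/
def P4 : Prop := ∀ K : ℕ, ∃ c : ℝ, 0 < c ∧ ∀ (N : ℤ) (z : ℤ × ℤ) (r g k k' : ℤ)
  (W : Finset (ℤ × ℤ)), Ok N z r → r ≤ K * g → 100 ≤ g → BR (0, 0) N ⊆ W →
    c * pr W (Pair N z r k k' ∩ SepT N z r g k k') ≤ pr W (Enh N z r k k')

/-- P5: the sum over the centres and the pairs. -/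
noncomputable def cen (N : ℤ) : Finset (ℤ × ℤ) := Icc (-(N / 4)) (N / 4) ×ˢ Icc (-(N / 4)) (N / 4)

noncomputable def BB (N r : ℤ) : ℝ := ∑ z ∈ cen N, ∑ k ∈ Ico 0 (oL N z), ∑ k' ∈ Ico 0 (oL N z),
  pr (BR (0, 0) N) (Pair N z r k k')

/-- P5a: the sum of the enhanced events. -/
def P5a : Prop := ∃ C : ℝ, 0 < C ∧ ∀ m r : ℤ, 1 ≤ r → 16 * r ≤ 2 * m →
  ∑ z ∈ cen (2 * m), ∑ k ∈ Ico 0 (oL (2 * m) z), ∑ k' ∈ Ico 0 (oL (2 * m) z),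
    pr (BR (0, 0) (2 * m)) (Enh (2 * m) z r k k') ≤ C * (r : ℝ) ^ 2

/-- P5b: the trivial bound. -/
def P5b : Prop := ∃ C : ℝ, 0 < C ∧ ∀ m r : ℤ, 1 ≤ r → 16 * r ≤ 2 * m →
  BB (2 * m) r ≤ C * (m : ℝ) ^ 2

/-- P6: a crossing of a smaller box is a crossing of the larger box. -/
def P6 : Prop := ∀ (N : ℤ) (z : ℤ × ℤ) (r s k k' : ℤ), Ok N z r → 1 ≤ s → s ≤ r →
  Pair N z s k k' ⊆ Pair N z r k k'

/-- P7: two strands across the half annulus around `z`. -/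
def P7 : Prop := ∀ (N : ℤ) (z : ℤ × ℤ) (r R : ℤ), Ok N z r → 2 * N ≤ R → ∀ ω ∈ X2 z r R,
  ∃ k₁ k₂ j₁ j₂, k₁ < k₂ ∧ ω ∈ Tip N z r k₁ j₁ ∧ ω ∈ Tip N z r k₂ j₂

/-- P8: translations. -/
def P8 : Prop := ∀ (v v' : ℤ × ℤ) (r R : ℤ), 0 ≤ r → r ≤ R →
  pr (BR v R) (X2 v r R) = pr (BR v' R) (X2 v' r R)

/-- The result. -/
def TwoLegs : Prop := ∃ C : ℝ, 0 < C ∧ ∀ (v : ℤ × ℤ) (r R : ℤ) (W : Finset (ℤ × ℤ)), 1 ≤ r → r ≤ R →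
  BR v R ⊆ W → pr W (X2 v r R) ≤ C * ((r : ℝ) / R) ^ 2

end Pool.Agent.SixB.A2
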