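import Pool.Agent.Lib.SixB.TopPot

/-!
# Regions whose complement escapes to infinity

`Esc F`: every face outside `F` is joined to faces arbitrarily far away by chains of adjacent faces
outside `F` (so `F`, as a closed set, has no hole). Stability: intersections, removal of the faces
visited by a strand which starts at the boundary, unions of edge components, magnification. Bounded
regions with `Esc` have potentials (`Esc.hasPot`).
-/

set_option autoImplicit false

namespace Pool.Agent.SixB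

open Finset Pool.Agent.Perc Pool.Agent.Perc6

/-- Every face outside `F` is joined to infinity by a chain of adjacent faces outside `F`. -/
def Esc (F : Set (ℤ × ℤ)) : Prop :=
  ∀ f ∉ F, ∀ R : ℤ, ∃ g : ℤ × ℤ, (R < |g.1| ∨ R < |g.2|) ∧ Relation.ReflTransGen (StepC F) f g

/-! ### Adjacent faces -/

theorem adjF_right (x y : ℤ) : AdjF (x, y) (x + 1, y) := by
  refine ⟨by simp, (x + 1, y, true), ?_, ?_⟩
  · right; right; right; rfl
  · right; left; rfl

theorem adjF_up (x y : ℤ) : AdjF (x, y) (x, y + 1) := by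
  refine ⟨by simp, (x, y + 1, false), ?_, ?_⟩
  · right; right; left; rfl
  · left; rfl

theorem adjF_left (x y : ℤ) : AdjF (x, y) (x - 1, y) := by
  have := (adjF_right (x - 1) y).symm
  simpa using this

theorem adjF_down (x y : ℤ) : AdjF (x, y) (x, y - 1) := by
  have := (adjF_up x (y - 1)).symm
  simpa using this

theorem adjF_iff {f g : ℤ × ℤ} : AdjF f g ↔
    (g = (f.1 + 1, f.2) ∨ g = (f.1 - 1, f.2) ∨ g = (f.1, f.2 + 1) ∨ g = (f.1, f.2 - 1)) := by
  constructor
  · rintro ⟨hne, ⟨x, y, b⟩, h1, h2⟩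
    obtain ⟨f1, f2⟩ := f
    obtain ⟨g1, g2⟩ := g
    unfold IsSide bo ri to' le' at h1 h2
    simp only [Prod.mk.injEq, ne_eq] at *
    cases b <;> simp at h1 h2 <;> omega
  · obtain ⟨x, y⟩ := f
    rintro (rfl | rfl | rfl | rfl)
    · exact adjF_right x y
    · exact adjF_left x y
    · exact adjF_up x y
    · exact adjF_down x y

theorem StepC.mono {F G : Set (ℤ × ℤ)} (h : G ⊆ F) {f g : ℤ × ℤ} (hs : StepC F f g) :
    StepC G f g := ⟨hs.1, fun hg => hs.2 (h hg)⟩

theorem chain_mono {F G : Set (ℤ × ℤ)} (h : G ⊆ F) {f g : ℤ × ℤ}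
    (hs : Relation.ReflTransGen (StepC F) f g) : Relation.ReflTransGen (StepC G) f g := by
  induction hs with
  | refl => exact Relation.ReflTransGen.refl
  | tail _ hs ih => exact ih.tail (hs.mono h)

theorem chain_notMem {F : Set (ℤ × ℤ)} {f g : ℤ × ℤ} (hf : f ∉ F)
    (h : Relation.ReflTransGen (StepC F) f g) : g ∉ F := by
  induction h with
  | refl => exact hf
  | tail _ hs _ => exact hs.2

/-! ### Straight chains -/

theorem chain_right {F : Set (ℤ × ℤ)} {x y : ℤ} : ∀ n : ℕ, (∀ k : ℤ, 0 ≤ k → k ≤ n → (x + k, y) ∉ F) →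
    Relation.ReflTransGen (StepC F) (x, y) (x + n, y) := by
  intro n
  induction n with
  | zero => intro _; simpa using Relation.ReflTransGen.refl
  | succ n ih =>
    intro h
    have h1 := ih (fun k h0 hk => h k h0 (by push_cast; omega))
    refine h1.tail ⟨?_, h _ (by positivity) le_rfl⟩
    have := adjF_right (x + n) y
    rw [show x + (n : ℤ) + 1 = x + ((n + 1 : ℕ) : ℤ) by push_cast; ring] at this
    exact this

theorem chain_left {F : Set (ℤ × ℤ)} {x y : ℤ} : ∀ n : ℕ, (∀ k : ℤ, 0 ≤ k → k ≤ n → (x - k, y) ∉ F) →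
    Relation.ReflTransGen (StepC F) (x, y) (x - n, y) := by
  intro n
  induction n with
  | zero => intro _; simpa using Relation.ReflTransGen.refl
  | succ n ih =>
    intro h
    have h1 := ih (fun k h0 hk => h k h0 (by push_cast; omega))
    refine h1.tail ⟨?_, h _ (by positivity) le_rfl⟩
    have := adjF_left (x - n) y
    rw [show x - (n : ℤ) - 1 = x - ((n + 1 : ℕ) : ℤ) by push_cast; ring] at this
    exact this

theorem chain_up {F : Set (ℤ × ℤ)} {x y : ℤ} : ∀ n : ℕ, (∀ k : ℤ, 0 ≤ k → k ≤ n → (x, y + k) ∉ F) →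
    Relation.ReflTransGen (StepC F) (x, y) (x, y + n) := by
  intro n
  induction n with
  | zero => intro _; simpa using Relation.ReflTransGen.refl
  | succ n ih =>
    intro h
    have h1 := ih (fun k h0 hk => h k h0 (by push_cast; omega))
    refine h1.tail ⟨?_, h _ (by positivity) le_rfl⟩
    have := adjF_up x (y + n)
    rw [show y + (n : ℤ) + 1 = y + ((n + 1 : ℕ) : ℤ) by push_cast; ring] at this
    exact this

theorem chain_down {F : Set (ℤ × ℤ)} {x y : ℤ} : ∀ n : ℕ, (∀ k : ℤ, 0 ≤ k → k ≤ n → (x, y - k) ∉ F) →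
    Relation.ReflTransGen (StepC F) (x, y) (x, y - n) := by
  intro n
  induction n with
  | zero => intro _; simpa using Relation.ReflTransGen.refl
  | succ n ih =>
    intro h
    have h1 := ih (fun k h0 hk => h k h0 (by push_cast; omega))
    refine h1.tail ⟨?_, h _ (by positivity) le_rfl⟩
    have := adjF_down x (y - n)
    rw [show y - (n : ℤ) - 1 = y - ((n + 1 : ℕ) : ℤ) by push_cast; ring] at this
    exact this

/-- A face with a free ray in one of the four directions escapes. -/
theorem ray_escape {F : Set (ℤ × ℤ)} {f : ℤ × ℤ}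
    (h : (∀ k : ℤ, 0 ≤ k → (f.1 + k, f.2) ∉ F) ∨ (∀ k : ℤ, 0 ≤ k → (f.1 - k, f.2) ∉ F) ∨
      (∀ k : ℤ, 0 ≤ k → (f.1, f.2 + k) ∉ F) ∨ (∀ k : ℤ, 0 ≤ k → (f.1, f.2 - k) ∉ F)) (R : ℤ) :
    ∃ g : ℤ × ℤ, (R < |g.1| ∨ R < |g.2|) ∧ Relation.ReflTransGen (StepC F) f g := by
  obtain ⟨x, y⟩ := f
  set n : ℕ := (|x| + |y| + |R| + 1).toNat with hn
  have hnn : (n : ℤ) = |x| + |y| + |R| + 1 := by
    rw [hn, Int.toNat_of_nonneg]
    positivity
  have a1 := abs_nonneg x
  have a2 := abs_nonneg y
  have a3 := le_abs_self R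
  have a4 := neg_abs_le x
  have a5 := le_abs_self x
  have a6 := neg_abs_le y
  have a7 := le_abs_self y
  rcases h with h | h | h | h
  · refine ⟨(x + n, y), Or.inl ?_, chain_right n fun k h0 _ => h k h0⟩
    have := le_abs_self (x + n)
    simp only
    omega
  · refine ⟨(x - n, y), Or.inl ?_, chain_left n fun k h0 _ => h k h0⟩
    have := neg_abs_le (x - n)
    simp only
    omega
  · refine ⟨(x, y + n), Or.inr ?_, chain_up n fun k h0 _ => h k h0⟩
    have := le_abs_self (y + n)
    simp only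
    omega
  · refine ⟨(x, y - n), Or.inr ?_, chain_down n fun k h0 _ => h k h0⟩
    have := neg_abs_le (y - n)
    simp only
    omega

/-- A face outside a rectangle which contains `F` escapes. -/
theorem out_escape {F : Set (ℤ × ℤ)} {x₀ x₁ y₀ y₁ : ℤ} (hF : ∀ f ∈ F, f ∈ RF x₀ x₁ y₀ y₁)
    {f : ℤ × ℤ} (hf : f ∉ RF x₀ x₁ y₀ y₁) (R : ℤ) :
    ∃ g : ℤ × ℤ, (R < |g.1| ∨ R < |g.2|) ∧ Relation.ReflTransGen (StepC F) f g := by
  apply ray_escape
  simp only [RF, mem_product, mem_Ico, not_and_or, not_le, not_lt] at hf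
  have key : ∀ g : ℤ × ℤ, ¬ (x₀ ≤ g.1 ∧ g.1 < x₁ ∧ y₀ ≤ g.2 ∧ g.2 < y₁) → g ∉ F := by
    intro g hg hgF
    have := hF g hgF
    simp only [RF, mem_product, mem_Ico] at this
    exact hg ⟨this.1.1, this.1.2, this.2.1, this.2.2⟩
  rcases hf with (h | h) | (h | h)
  · right; left
    intro k hk
    exact key _ (by simp only; omega)
  · left
    intro k hk
    exact key _ (by simp only; omega)
  · right; right; right
    intro k hk
    exact key _ (by simp only; omega)
  · right; right; left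
    intro k hk
    exact key _ (by simp only; omega)

theorem esc_of_escape {F : Set (ℤ × ℤ)} {x₀ x₁ y₀ y₁ : ℤ} (hF : ∀ f ∈ F, f ∈ RF x₀ x₁ y₀ y₁)
    (h : Escape F x₀ x₁ y₀ y₁) : Esc F := by
  intro f hf R
  by_cases hr : f ∈ RF x₀ x₁ y₀ y₁
  · obtain ⟨g, hg, hc⟩ := h f hr hf
    obtain ⟨k, hk, hc'⟩ := out_escape hF hg R
    exact ⟨k, hk, hc.trans hc'⟩
  · exact out_escape hF hr R

theorem Esc.escape {F : Set (ℤ × ℤ)} (h : Esc F) (x₀ x₁ y₀ y₁ : ℤ) : Escape F x₀ x₁ y₀ y₁ := by
  intro f _ hf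
  obtain ⟨g, hg, hc⟩ := h f hf (|x₀| + |x₁| + |y₀| + |y₁|)
  refine ⟨g, ?_, hc⟩
  intro hm
  simp only [RF, mem_product, mem_Ico] at hm
  have a1 := neg_abs_le x₀
  have a2 := le_abs_self x₁
  have a3 := neg_abs_le y₀
  have a4 := le_abs_self y₁
  have b1 := abs_nonneg x₀
  have b2 := abs_nonneg x₁
  have b3 := abs_nonneg y₀
  have b4 := abs_nonneg y₁
  rcases hg with hg | hg
  · rcases abs_cases g.1 with ⟨h1, _⟩ | ⟨h1, _⟩ <;> omega
  · rcases abs_cases g.2 with ⟨h1, _⟩ | ⟨h1, _⟩ <;> omega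

/-- **Potentials in bounded regions without holes.** -/
theorem Esc.hasPot {F : Set (ℤ × ℤ)} (h : Esc F) {x₀ x₁ y₀ y₁ : ℤ}
    (hF : ∀ f ∈ F, f ∈ RF x₀ x₁ y₀ y₁) : HasPot F :=
  hasPot_of_escape hF (h.escape x₀ x₁ y₀ y₁)

theorem exists_RF {F : Set (ℤ × ℤ)} (hF : F.Finite) :
    ∃ x₀ x₁ y₀ y₁ : ℤ, ∀ f ∈ F, f ∈ RF x₀ x₁ y₀ y₁ := by
  set N : ℤ := ∑ f ∈ hF.toFinset, (|f.1| + |f.2|) with hN
  refine ⟨-N, N + 1, -N, N + 1, fun f hf => ?_⟩
  have h1 : |f.1| + |f.2| ≤ N :=
    Finset.single_le_sum (f := fun f : ℤ × ℤ => |f.1| + |f.2|) (fun _ _ => by positivity)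
      (hF.mem_toFinset.mpr hf)
  have a1 := neg_abs_le f.1
  have a2 := le_abs_self f.1
  have a3 := neg_abs_le f.2
  have a4 := le_abs_self f.2
  have b1 := abs_nonneg f.1
  have b2 := abs_nonneg f.2
  simp only [RF, mem_product, mem_Ico]
  omega

theorem Esc.hasPot' {F : Set (ℤ × ℤ)} (h : Esc F) (hF : F.Finite) : HasPot F := by
  obtain ⟨x₀, x₁, y₀, y₁, hb⟩ := exists_RF hF
  exact h.hasPot hb

/-! ### Stability -/

theorem esc_empty : Esc ∅ := fun _ _ R => ray_escape (Or.inl fun _ _ => Set.notMem_empty _) R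

theorem esc_RF (x₀ x₁ y₀ y₁ : ℤ) : Esc (RF x₀ x₁ y₀ y₁ : Set (ℤ × ℤ)) := by
  intro f hf R
  exact out_escape (F := (RF x₀ x₁ y₀ y₁ : Set (ℤ × ℤ))) (fun g hg => Finset.mem_coe.mp hg)
    (fun h => hf (Finset.mem_coe.mpr h)) R

theorem Esc.inter {F G : Set (ℤ × ℤ)} (hF : Esc F) (hG : Esc G) : Esc (F ∩ G) := by
  intro f hf R
  by_cases h : f ∈ F
  · have h2 : f ∉ G := fun h' => hf ⟨h, h'⟩
    obtain ⟨g, hg, hc⟩ := hG f h2 R
    exact ⟨g, hg, chain_mono Set.inter_subset_right hc⟩
  · obtain ⟨g, hg, hc⟩ := hF f h R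
    exact ⟨g, hg, chain_mono Set.inter_subset_left hc⟩

/-- Removal of faces which are joined to the complement of `F`. -/
theorem Esc.sub {F G : Set (ℤ × ℤ)} (hF : Esc F) (hG : G ⊆ F)
    (h : ∀ f ∈ F, f ∉ G → ∃ g, g ∉ F ∧ Relation.ReflTransGen (StepC G) f g) : Esc G := by
  intro f hf R
  by_cases hfF : f ∈ F
  · obtain ⟨g, hg, hc⟩ := h f hfF hf
    obtain ⟨k, hk, hc'⟩ := hF g hg R
    exact ⟨k, hk, hc.trans (chain_mono hG hc')⟩
  · obtain ⟨g, hg, hc⟩ := hF f hfF R
    exact ⟨g, hg, chain_mono hG hc⟩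

/-- A union of edge components of a region without holes has no holes. -/
theorem Esc.component {F G : Set (ℤ × ℤ)} (hF : Esc F) (hG : G ⊆ F) {x₀ x₁ y₀ y₁ : ℤ}
    (hb : ∀ f ∈ F, f ∈ RF x₀ x₁ y₀ y₁) (hc : ∀ f ∈ G, ∀ g ∈ F, AdjF f g → g ∈ G) : Esc G := by
  refine hF.sub hG ?_
  intro f hf hfG
  -- go to the right until `F` is left
  have key : ∀ (n : ℕ) (f : ℤ × ℤ), f ∈ F → f ∉ G → x₁ - f.1 ≤ n →
      ∃ g, g ∉ F ∧ Relation.ReflTransGen (StepC G) f g := by
    intro n
    induction n with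
    | zero =>
      intro f hf _ hn
      have := hb f hf
      simp only [RF, mem_product, mem_Ico] at this
      exfalso
      simp only [Nat.cast_zero] at hn
      omega
    | succ n ih =>
      intro f hf hfG hn
      have hadj : AdjF f (f.1 + 1, f.2) := by
        rw [adjF_iff]
        left; rfl
      by_cases hg : (f.1 + 1, f.2) ∈ F
      · have hgG : (f.1 + 1, f.2) ∉ G := fun h => hfG (hc _ h f hf hadj.symm)
        obtain ⟨g, h1, h2⟩ := ih (f.1 + 1, f.2) hg hgG (by simp only; push_cast at hn; omega)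
        exact ⟨g, h1, Relation.ReflTransGen.head ⟨hadj, hgG⟩ h2⟩
      · exact ⟨_, hg, Relation.ReflTransGen.single ⟨hadj, fun h => hg (hG h)⟩⟩
  exact key (x₁ - f.1).toNat f hf hfG (Int.self_le_toNat _)

/-- Two faces with a common side are equal or adjacent. -/
theorem eq_or_adj {f g : ℤ × ℤ} {a : UE} (h1 : IsSide f a) (h2 : IsSide g a) : f = g ∨ AdjF f g := by
  by_cases h : f = g
  · exact Or.inl h
  · exact Or.inr ⟨h, a, h1, h2⟩

/-- The faces visited by a strand form a chain. -/
theorem ss_chain {ω : Cfg} {F : Set (ℤ × ℤ)} {e : UE} {G : Set (ℤ × ℤ)}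
    (hG : ∀ f ∈ SS ω F e, f ∉ G) {g : ℤ × ℤ} (hg : IsSide g e) {f : ℤ × ℤ}
    (hf : f ∈ SS ω F e) : Relation.ReflTransGen (StepC G) g f := by
  obtain ⟨hfF, a, ha, hs⟩ := hf
  -- every face of `F` with a side in the strand is reached
  have key : ∀ b, b ∈ MM ω F e → ∀ k ∈ F, IsSide k b → Relation.ReflTransGen (StepC G) g k := by
    intro b hb
    change Relation.ReflTransGen _ e b at hb
    induction hb with
    | refl =>
      intro k hk hks
      rcases eq_or_adj hg hks with h | h
      · rw [h]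
      · exact Relation.ReflTransGen.single ⟨h, hG k ⟨hk, e, mem_MM_self, hks⟩⟩
    | @tail b c hb' hstep ih =>
      intro k hk hks
      obtain ⟨l, hl, hm⟩ := hstep
      have h1 := ih l hl hm.left
      rcases eq_or_adj hm.right hks with h | h
      · rw [← h]
        exact h1
      · refine h1.tail ⟨h, hG k ⟨hk, c, ?_, hks⟩⟩
        exact MM_step hl hm hb'
  exact key a ha f hfF hs

/-- The chain can be reversed if its starting point is outside. -/
theorem chain_reverse {G : Set (ℤ × ℤ)} {f g : ℤ × ℤ} (hf : f ∉ G)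
    (h : Relation.ReflTransGen (StepC G) f g) : Relation.ReflTransGen (StepC G) g f := by
  induction h with
  | refl => exact Relation.ReflTransGen.refl
  | @tail b c hb hs ih =>
    have hbG := chain_notMem hf hb
    exact Relation.ReflTransGen.head ⟨hs.1.symm, hbG⟩ ih

/-- **Removal of the faces visited by a strand which starts at the boundary.** -/
theorem Esc.diff_strand {F : Set (ℤ × ℤ)} (hF : Esc F) {ω : Cfg} {e : UE} (he : BdU F e) :
    Esc (F \ SS ω F e) := by
  obtain ⟨-, g, hg, hgs⟩ := he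
  refine hF.sub Set.sdiff_subset ?_
  intro f hf hfG
  have hfS : f ∈ SS ω F e := by
    by_contra h
    exact hfG ⟨hf, h⟩
  have h1 : Relation.ReflTransGen (StepC (F \ SS ω F e)) g f :=
    ss_chain (G := F \ SS ω F e) (fun k hk hk' => hk'.2 hk) hgs hfS
  exact ⟨g, hg, chain_reverse (fun h => hg h.1) h1⟩

/-- More generally: removal of any set of faces of `F`, each of which is joined to the boundary by
a chain of removed faces. -/
theorem Esc.diff {F S : Set (ℤ × ℤ)} (hF : Esc F)
    (hS : ∀ f ∈ S, ∃ g, g ∉ F ∧ Relation.ReflTransGen (StepC (F \ S)) f g) : Esc (F \ S) := by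
  refine hF.sub Set.sdiff_subset ?_
  intro f hf hfG
  have hfS : f ∈ S := by
    by_contra h
    exact hfG ⟨hf, h⟩
  exact hS f hfS

/-! ### Magnification -/

/-- Every face of `F` is replaced by a square of `m ^ 2` faces. -/
def blow (m : ℤ) (F : Set (ℤ × ℤ)) : Set (ℤ × ℤ) := {f | (f.1 / m, f.2 / m) ∈ F}

theorem cell_chain {m : ℤ} (hm : 0 < m) {F : Set (ℤ × ℤ)} {f g : ℤ × ℤ}
    (hf : (f.1 / m, f.2 / m) ∉ F) (h1 : f.1 / m = g.1 / m) (h2 : f.2 / m = g.2 / m) :
    Relation.ReflTransGen (StepC (blow m F)) f g := by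
  obtain ⟨x, y⟩ := f
  obtain ⟨u, v⟩ := g
  simp only at hf h1 h2
  have hx : Relation.ReflTransGen (StepC (blow m F)) (x, y) (u, y) := by
    rcases le_total x u with hxu | hxu
    · have := chain_right (F := blow m F) (x := x) (y := y) (u - x).toNat (by
        intro k h0 hk
        rw [Int.toNat_of_nonneg (by omega)] at hk
        have e1 : (x + k) / m = x / m := by
          apply le_antisymm
          · rw [h1]
            exact Int.ediv_le_ediv hm (by omega)
          · exact Int.ediv_le_ediv hm (by omega)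
        change ¬ ((x + k) / m, y / m) ∈ F
        rw [e1]
        exact hf)
      rw [Int.toNat_of_nonneg (by omega)] at this
      simpa using this
    · have := chain_left (F := blow m F) (x := x) (y := y) (x - u).toNat (by
        intro k h0 hk
        rw [Int.toNat_of_nonneg (by omega)] at hk
        have e1 : (x - k) / m = x / m := by
          apply le_antisymm
          · exact Int.ediv_le_ediv hm (by omega)
          · rw [h1]
            exact Int.ediv_le_ediv hm (by omega)
        change ¬ ((x - k) / m, y / m) ∈ F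
        rw [e1]
        exact hf)
      rw [Int.toNat_of_nonneg (by omega)] at this
      simpa using this
  have hy : Relation.ReflTransGen (StepC (blow m F)) (u, y) (u, v) := by
    rw [h1] at hf
    rcases le_total y v with hxu | hxu
    · have := chain_up (F := blow m F) (x := u) (y := y) (v - y).toNat (by
        intro k h0 hk
        rw [Int.toNat_of_nonneg (by omega)] at hk
        have e1 : (y + k) / m = y / m := by
          apply le_antisymm
          · rw [h2]
            exact Int.ediv_le_ediv hm (by omega)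
          · exact Int.ediv_le_ediv hm (by omega)
        change ¬ (u / m, (y + k) / m) ∈ F
        rw [e1]
        exact hf)
      rw [Int.toNat_of_nonneg (by omega)] at this
      simpa using this
    · have := chain_down (F := blow m F) (x := u) (y := y) (y - v).toNat (by
        intro k h0 hk
        rw [Int.toNat_of_nonneg (by omega)] at hk
        have e1 : (y - k) / m = y / m := by
          apply le_antisymm
          · exact Int.ediv_le_ediv hm (by omega)
          · rw [h2]
            exact Int.ediv_le_ediv hm (by omega)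
        change ¬ (u / m, (y - k) / m) ∈ F
        rw [e1]
        exact hf)
      rw [Int.toNat_of_nonneg (by omega)] at this
      simpa using this
  exact hx.trans hy

theorem blow_chain {m : ℤ} (hm : 0 < m) {F : Set (ℤ × ℤ)} {c d : ℤ × ℤ} (hc : c ∉ F)
    (h : Relation.ReflTransGen (StepC F) c d) :
    ∀ f : ℤ × ℤ, f.1 / m = c.1 → f.2 / m = c.2 →
      ∃ g : ℤ × ℤ, g.1 / m = d.1 ∧ g.2 / m = d.2 ∧ Relation.ReflTransGen (StepC (blow m F)) f g := by
  induction h with
  | refl => intro f h1 h2; exact ⟨f, h1, h2, Relation.ReflTransGen.refl⟩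
  | @tail b d hb hs ih =>
    intro f h1 h2
    obtain ⟨g, e1, e2, hg⟩ := ih f h1 h2
    have hbF := chain_notMem hc hb
    obtain ⟨b1, b2⟩ := b
    obtain ⟨g1, g2⟩ := g
    simp only at e1 e2
    have hgF : (g1 / m, g2 / m) ∉ F := by rw [e1, e2]; exact hbF
    rcases adjF_iff.mp hs.1 with hd | hd | hd | hd
    · -- to the right
      have q1 : (b1 * m + (m - 1)) / m = b1 := by
        rw [Int.add_ediv_of_dvd_left (Dvd.intro_left _ rfl), Int.mul_ediv_cancel _ hm.ne',
          Int.ediv_eq_zero_of_lt (by omega) (by omega), add_zero]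
      have q2 : (b1 * m + (m - 1) + 1) / m = b1 + 1 := by
        rw [show b1 * m + (m - 1) + 1 = (b1 + 1) * m by ring, Int.mul_ediv_cancel _ hm.ne']
      have hA := cell_chain hm (f := (g1, g2)) (g := (b1 * m + (m - 1), g2)) hgF
        (by simp only; rw [q1, e1]) rfl
      refine ⟨(b1 * m + (m - 1) + 1, g2), ?_, ?_, (hg.trans hA).tail ⟨adjF_right _ _, ?_⟩⟩
      · simp only; rw [q2, hd]
      · simp only; rw [e2, hd]
      · change ¬ ((b1 * m + (m - 1) + 1) / m, g2 / m) ∈ F
        rw [q2, e2, ← hd]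
        exact hs.2
    · have q1 : (b1 * m) / m = b1 := Int.mul_ediv_cancel _ hm.ne'
      have q2 : (b1 * m - 1) / m = b1 - 1 := by
        rw [show b1 * m - 1 = (b1 - 1) * m + (m - 1) by ring,
          Int.add_ediv_of_dvd_left (Dvd.intro_left _ rfl), Int.mul_ediv_cancel _ hm.ne',
          Int.ediv_eq_zero_of_lt (by omega) (by omega), add_zero]
      have hA := cell_chain hm (f := (g1, g2)) (g := (b1 * m, g2)) hgF
        (by simp only; rw [q1, e1]) rfl
      refine ⟨(b1 * m - 1, g2), ?_, ?_, (hg.trans hA).tail ⟨adjF_left _ _, ?_⟩⟩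
      · simp only; rw [q2, hd]
      · simp only; rw [e2, hd]
      · change ¬ ((b1 * m - 1) / m, g2 / m) ∈ F
        rw [q2, e2, ← hd]
        exact hs.2
    · have q1 : (b2 * m + (m - 1)) / m = b2 := by
        rw [Int.add_ediv_of_dvd_left (Dvd.intro_left _ rfl), Int.mul_ediv_cancel _ hm.ne',
          Int.ediv_eq_zero_of_lt (by omega) (by omega), add_zero]
      have q2 : (b2 * m + (m - 1) + 1) / m = b2 + 1 := by
        rw [show b2 * m + (m - 1) + 1 = (b2 + 1) * m by ring, Int.mul_ediv_cancel _ hm.ne']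
      have hA := cell_chain hm (f := (g1, g2)) (g := (g1, b2 * m + (m - 1))) hgF
        rfl (by simp only; rw [q1, e2])
      refine ⟨(g1, b2 * m + (m - 1) + 1), ?_, ?_, (hg.trans hA).tail ⟨adjF_up _ _, ?_⟩⟩
      · simp only; rw [e1, hd]
      · simp only; rw [q2, hd]
      · change ¬ (g1 / m, (b2 * m + (m - 1) + 1) / m) ∈ F
        rw [q2, e1, ← hd]
        exact hs.2
    · have q1 : (b2 * m) / m = b2 := Int.mul_ediv_cancel _ hm.ne'
      have q2 : (b2 * m - 1) / m = b2 - 1 := by
        rw [show b2 * m - 1 = (b2 - 1) * m + (m - 1) by ring,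
          Int.add_ediv_of_dvd_left (Dvd.intro_left _ rfl), Int.mul_ediv_cancel _ hm.ne',
          Int.ediv_eq_zero_of_lt (by omega) (by omega), add_zero]
      have hA := cell_chain hm (f := (g1, g2)) (g := (g1, b2 * m)) hgF
        rfl (by simp only; rw [q1, e2])
      refine ⟨(g1, b2 * m - 1), ?_, ?_, (hg.trans hA).tail ⟨adjF_down _ _, ?_⟩⟩
      · simp only; rw [e1, hd]
      · simp only; rw [q2, hd]
      · change ¬ (g1 / m, (b2 * m - 1) / m) ∈ F
        rw [q2, e1, ← hd]
        exact hs.2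

theorem Esc.blow {m : ℤ} (hm : 0 < m) {F : Set (ℤ × ℤ)} (hF : Esc F) : Esc (blow m F) := by
  intro f hf R
  have hc : (f.1 / m, f.2 / m) ∉ F := hf
  obtain ⟨d, hd, hch⟩ := hF _ hc (|R| + 1)
  obtain ⟨g, h1, h2, h3⟩ := blow_chain hm hc hch f rfl rfl
  refine ⟨g, ?_, h3⟩
  have hbig : ∀ a b : ℤ, a / m = b → |R| + 1 < |b| → R < |a| := by
    intro a b hab hb
    have e1 : m * (a / m) + a % m = a := Int.mul_ediv_add_emod a m
    have e2 := Int.emod_nonneg a hm.ne'
    have e3 := Int.emod_lt_of_pos a hm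
    rw [hab] at e1
    have hR := le_abs_self R
    have hR0 := abs_nonneg R
    rcases abs_cases b with ⟨hb1, hb2⟩ | ⟨hb1, hb2⟩
    · have : b ≤ a := by nlinarith
      have := le_abs_self a
      omega
    · have : a ≤ b + (m - 1) - (m - 1) * (-b) + (m-1) * (-b) := by nlinarith
      have h5 : a < m * (b + 1) := by nlinarith
      have h6 : m * (b + 1) ≤ b + 1 := by nlinarith
      have := neg_abs_le a
      omega
  rcases hd with hd | hd
  · exact Or.inl (hbig _ _ h1 hd)
  · exact Or.inr (hbig _ _ h2 hd)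

end Pool.Agent.SixB
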