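import Pool.Agent.Lib.SixB.A2P678
import Pool.Agent.Lib.SixB.TopEsc

/-!
# 6BD, item (A2), row P1

Two crossing strands of a half annulus give a crossing pair with the same colour between them.
-/

set_option autoImplicit false

namespace Pool.Agent.SixB.A2

open Finset Pool.Agent.Perc Pool.Agent.PercD Pool.Agent.Perc6 Pool.Agent.PercN

namespace P1Aux

variable {ω : Cfg} {N r : ℤ} {z : ℤ × ℤ}

/-! ### Geometry of the arcs -/

theorem joins_ae {x₀ x₁ y₀ y₁ k : ℤ} (hx : x₀ < x₁) (hy : y₀ < y₁) :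
    Joins (ae x₀ x₁ y₀ y₁ k) (av x₀ x₁ y₀ y₁ k) (av x₀ x₁ y₀ y₁ (k + 1)) := by
  unfold ae
  split_ifs with h1 h2
  · left
    rw [ua_mk, ub_true]
    unfold av
    rw [if_pos (by omega), if_pos (by omega)]
    exact ⟨rfl, Prod.ext rfl (by dsimp only; omega)⟩
  · left
    rw [ua_mk, ub_false]
    unfold av
    rw [if_neg (by omega : ¬ k + 1 ≤ y₁ - y₀),
      if_pos (by omega : k + 1 ≤ y₁ - y₀ + (x₁ - x₀))]
    refine ⟨?_, Prod.ext (by dsimp only; omega) rfl⟩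
    split_ifs with h3
    · exact Prod.ext (by dsimp only; omega) (by dsimp only; omega)
    · rfl
    · omega
  · right
    rw [ua_mk, ub_true]
    unfold av
    rw [if_neg (by omega : ¬ k ≤ y₁ - y₀), if_neg (by omega : ¬ k + 1 ≤ y₁ - y₀),
      if_neg (by omega : ¬ k + 1 ≤ y₁ - y₀ + (x₁ - x₀))]
    refine ⟨?_, Prod.ext rfl (by dsimp only; omega)⟩
    split_ifs with h3
    · exact Prod.ext (by dsimp only; omega) (by dsimp only; omega)
    · exact Prod.ext rfl (by dsimp only; omega)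

theorem par_av {x₀ x₁ y₀ y₁ k : ℤ} : par (av x₀ x₁ y₀ y₁ k) = (x₀ + y₀ + k) % 2 := by
  unfold av par
  split_ifs <;> dsimp only <;> omega

theorem joins_oE (hN : Ok N z r) (k : ℤ) : Joins (oE N z k) (oV N z k) (oV N z (k + 1)) := by
  have h1 := hN.abs2
  have h2 := hN.rN
  have h3 := hN.r1
  exact joins_ae (by omega) (by omega)

theorem joins_iE (hr : 1 ≤ r) (j : ℤ) : Joins (iE z r j) (iV z r j) (iV z r (j + 1)) :=
  joins_ae (by omega) (by omega)

/-- The outer sides are sides of faces of the half annulus. -/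
theorem side_oE (hN : Ok N z r) {k : ℤ} (h0 : 0 ≤ k) (h1 : k < oL N z) :
    ∃ f ∈ FH N z r, IsSide f (oE N z k) := by
  have h2 := hN.abs2
  have h3 := hN.rN
  have h4 := hN.r1
  have h5 := hN.abs1
  unfold oL at h1
  have key : ∀ f : ℤ × ℤ, (-N ≤ f.1 ∧ f.1 < N ∧ z.2 ≤ f.2 ∧ f.2 < N) →
      (f.1 = -N ∨ f.1 = N - 1 ∨ f.2 = N - 1) → f ∈ FH N z r := by
    intro f hf hf'
    refine ⟨?_, ?_⟩
    · rw [mem_RF]
      exact hf
    · rw [mem_BR]
      omega
  unfold oE ae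
  split_ifs with h6 h7
  · exact ⟨(-N, z.2 + k), key _ (by dsimp only; omega) (by simp), Or.inr (Or.inl rfl)⟩
  · refine ⟨(-N + (k - (N - z.2)), N - 1), key _ (by dsimp only; omega) (by simp),
      Or.inr (Or.inr (Or.inl ?_))⟩
    unfold to'
    refine Prod.ext rfl (Prod.ext ?_ rfl)
    dsimp only
    omega
  · refine ⟨(N - 1, N - (k - (N - z.2) - (N - -N)) - 1), key _ (by dsimp only; omega) (by simp),
      Or.inr (Or.inr (Or.inr ?_))⟩
    unfold ri
    refine Prod.ext ?_ rfl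
    dsimp only
    omega

/-- The inner sides are sides of faces of the half annulus. -/
theorem side_iE (hN : Ok N z r) {j : ℤ} (h0 : 0 ≤ j) (h1 : j < 4 * r) :
    ∃ f ∈ FH N z r, IsSide f (iE z r j) := by
  have h2 := hN.abs2
  have h3 := hN.rN
  have h4 := hN.r1
  have h5 := hN.abs1
  have key : ∀ f : ℤ × ℤ, (-N ≤ f.1 ∧ f.1 < N ∧ z.2 ≤ f.2 ∧ f.2 < N) →
      (f.1 < z.1 - r ∨ z.1 + r ≤ f.1 ∨ z.2 + r ≤ f.2) → f ∈ FH N z r := by
    intro f hf hf'
    refine ⟨?_, ?_⟩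
    · rw [mem_RF]
      exact hf
    · rw [mem_BR]
      omega
  unfold iE ae
  split_ifs with h6 h7
  · refine ⟨(z.1 - r - 1, z.2 + j), key _ (by dsimp only; omega) (by dsimp only; omega),
      Or.inr (Or.inr (Or.inr ?_))⟩
    unfold ri
    refine Prod.ext ?_ rfl
    dsimp only
    omega
  · exact ⟨(z.1 - r + (j - (z.2 + r - z.2)), z.2 + r), key _ (by dsimp only; omega)
      (by dsimp only; omega), Or.inl rfl⟩
  · exact ⟨(z.1 + r, z.2 + r - (j - (z.2 + r - z.2) - (z.1 + r - (z.1 - r))) - 1),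
      key _ (by dsimp only; omega) (by dsimp only; omega), Or.inr (Or.inl rfl)⟩

/-- The half annulus has no hole. -/
theorem esc_FH (N : ℤ) (z : ℤ × ℤ) (r : ℤ) : Esc (FH N z r) := by
  intro f hf R
  by_cases h : f ∈ RF (-N) N z.2 N
  · have h1 : f ∈ BR z r := by
      by_contra h2
      exact hf ⟨h, h2⟩
    apply ray_escape
    right; right; right
    intro k hk hmem
    have h3 := hmem.1
    have h4 := hmem.2
    rw [mem_RF] at h3
    rw [mem_BR] at h1 h4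
    dsimp only at h3 h4
    omega
  · exact out_escape (F := FH N z r) (fun g hg => hg.1) h R

theorem hasPot_FH (N : ℤ) (z : ℤ × ℤ) (r : ℤ) : HasPot (FH N z r) :=
  (esc_FH N z r).hasPot fun _ hf => hf.1

theorem exists_isPot (ω : Cfg) (N : ℤ) (z : ℤ × ℤ) (r : ℤ) (e : UE) :
    ∃ Φ : ℤ × ℤ → ZMod 2, IsPot (FH N z r) (MM ω (FH N z r) e) Φ :=
  hasPot_FH N z r _ fun _ hf => evenAt_MM hf

/-! ### Potentials along the arcs -/

theorem pot_outer {M : Set UE} {Φ : ℤ × ℤ → ZMod 2} (hP : IsPot (FH N z r) M Φ) (hN : Ok N z r)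
    {a : ℤ} (ha : 0 ≤ a) : ∀ n : ℕ, a + n ≤ oL N z →
      (∀ k, a ≤ k → k < a + n → oE N z k ∉ M) → Φ (oV N z a) = Φ (oV N z (a + n)) := by
  intro n
  induction n with
  | zero => intro _ _; simp
  | succ n ih =>
    intro h1 h2
    push_cast at h1 h2 ⊢
    rw [ih (by omega) fun k hk hk' => h2 k hk (by omega)]
    obtain ⟨f, hf, hs⟩ := side_oE hN (k := a + n) (by omega) (by omega)
    by_contra hne
    rw [← add_assoc] at hne
    exact h2 (a + n) (by omega) (by omega) ((hP.joins hf hs (joins_oE hN _)).2 hne)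

theorem pot_outer' {M : Set UE} {Φ : ℤ × ℤ → ZMod 2} (hP : IsPot (FH N z r) M Φ) (hN : Ok N z r)
    {a b : ℤ} (ha : 0 ≤ a) (hab : a ≤ b) (hb : b ≤ oL N z)
    (h : ∀ k, a ≤ k → k < b → oE N z k ∉ M) : Φ (oV N z a) = Φ (oV N z b) := by
  obtain ⟨n, rfl⟩ : ∃ n : ℕ, b = a + n := ⟨(b - a).toNat, by omega⟩
  exact pot_outer hP hN ha n hb h

theorem pot_inner {M : Set UE} {Φ : ℤ × ℤ → ZMod 2} (hP : IsPot (FH N z r) M Φ) (hN : Ok N z r)
    {a : ℤ} (ha : 0 ≤ a) : ∀ n : ℕ, a + n ≤ 4 * r →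
      (∀ k, a ≤ k → k < a + n → iE z r k ∉ M) → Φ (iV z r a) = Φ (iV z r (a + n)) := by
  intro n
  induction n with
  | zero => intro _ _; simp
  | succ n ih =>
    intro h1 h2
    push_cast at h1 h2 ⊢
    rw [ih (by omega) fun k hk hk' => h2 k hk (by omega)]
    obtain ⟨f, hf, hs⟩ := side_iE hN (j := a + n) (by omega) (by omega)
    by_contra hne
    rw [← add_assoc] at hne
    exact h2 (a + n) (by omega) (by omega) ((hP.joins hf hs (joins_iE hN.r1 _)).2 hne)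

theorem pot_inner' {M : Set UE} {Φ : ℤ × ℤ → ZMod 2} (hP : IsPot (FH N z r) M Φ) (hN : Ok N z r)
    {a b : ℤ} (ha : 0 ≤ a) (hab : a ≤ b) (hb : b ≤ 4 * r)
    (h : ∀ k, a ≤ k → k < b → iE z r k ∉ M) : Φ (iV z r a) = Φ (iV z r b) := by
  obtain ⟨n, rfl⟩ : ∃ n : ℕ, b = a + n := ⟨(b - a).toNat, by omega⟩
  exact pot_inner hP hN ha n hb h

/-- If no inner side is crossed, the potential at the outer end of a crossing strand is its value
at the beginning of the inner arc. -/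
theorem pot_tip {Φ : ℤ × ℤ → ZMod 2} {e : UE} (hP : IsPot (FH N z r) (MM ω (FH N z r) e) Φ)
    (hN : Ok N z r) (h : ∀ j, 0 ≤ j → j < 4 * r → iE z r j ∉ MM ω (FH N z r) e)
    {k j : ℤ} (ht : ω ∈ Tip N z r k j) {u v : ℤ × ℤ} (hu : Joins (oE N z k) u v) :
    Φ u = Φ (iV z r 0) := by
  obtain ⟨hk, hj, hm⟩ := ht
  obtain ⟨p, q, hp, -, hc⟩ := MM_conn hu hm
  rw [hP.conn (hc.mono SS_sub)]
  have key : ∀ i, 0 ≤ i → i ≤ 4 * r → Φ (iV z r i) = Φ (iV z r 0) := fun i h0 h1 =>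
    (pot_inner' hP hN le_rfl h0 h1 fun k hk hk' => h k hk (by omega)).symm
  have hj' := joins_iE (z := z) hN.r1 j
  rcases hp with ⟨h1, -⟩ | ⟨h1, -⟩ <;> rcases hj' with ⟨h2, h3⟩ | ⟨h2, h3⟩
  · rw [h1, ← h2]
    exact key j hj.1 (by omega)
  · rw [h1, ← h3]
    exact key (j + 1) (by omega) (by omega)
  · rw [h1, ← h3]
    exact key (j + 1) (by omega) (by omega)
  · rw [h1, ← h2]
    exact key j hj.1 (by omega)

/-- Between two crossing strands with different colours at their inner sides there is another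
crossing strand. -/
theorem exists_between (hN : Ok N z r) {k₁ k₂ j₁ j₂ : ℤ} (hk : k₁ < k₂)
    (h1 : ω ∈ Tip N z r k₁ j₁) (h2 : ω ∈ Tip N z r k₂ j₂) (hpar : (k₂ - k₁) % 2 = 0) :
    ∃ k j, k₁ < k ∧ k < k₂ ∧ ω ∈ Tip N z r k j := by
  classical
  have hk1 := h1.1
  have hk2 := h2.1
  -- the last vertex which is connected to the vertex after `k₁`
  obtain ⟨i, ⟨hi1, hi2, hic⟩, himax⟩ := Int.exists_greatest_of_bdd
    (P := fun i => k₁ + 1 ≤ i ∧ i ≤ k₂ ∧ Conn ω (FH N z r) (oV N z (k₁ + 1)) (oV N z i))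
    ⟨k₂, fun _ h => h.2.1⟩ ⟨k₁ + 1, le_rfl, by omega, Relation.ReflTransGen.refl⟩
  have hik : i ≠ k₂ := by
    rintro rfl
    have := hic.par_eq
    unfold oV at this
    rw [par_av, par_av] at this
    omega
  have hi3 : i < k₂ := lt_of_le_of_ne hi2 hik
  by_contra hcon
  push Not at hcon
  have hno : ∀ j, 0 ≤ j → j < 4 * r → iE z r j ∉ MM ω (FH N z r) (oE N z i) := fun j h3 h4 h5 =>
    hcon i j (by omega) hi3 ⟨⟨by omega, by omega⟩, ⟨h3, h4⟩, h5⟩
  obtain ⟨Φ, hP⟩ := exists_isPot ω N z r (oE N z i)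
  have e1 : Φ (oV N z (k₁ + 1)) = Φ (iV z r 0) :=
    pot_tip hP hN hno h1 (joins_oE hN k₁).symm
  have e2 : Φ (oV N z k₂) = Φ (iV z r 0) := pot_tip hP hN hno h2 (joins_oE hN k₂)
  have e3 : Φ (oV N z (k₁ + 1)) = Φ (oV N z i) := hP.conn hic
  have e4 : Φ (oV N z i) ≠ Φ (oV N z (i + 1)) :=
    hP.ne (joins_oE hN i) (side_oE hN (by omega) (by omega))
  -- a flip after `i`
  obtain ⟨m, hm1, hm2, hm3⟩ : ∃ m, i + 1 ≤ m ∧ m < k₂ ∧ oE N z m ∈ MM ω (FH N z r) (oE N z i) := by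
    by_contra hc
    push Not at hc
    have := pot_outer' hP hN (a := i + 1) (b := k₂) (by omega) (by omega) (by omega) hc
    exact e4 (by rw [← e3, e1, this, e2])
  obtain ⟨p, q, hp, -, hc⟩ := MM_conn (joins_oE hN i) hm3
  have hcon2 : Conn ω (FH N z r) (oV N z (k₁ + 1)) p := hic.trans (hc.mono SS_sub)
  have hj' := joins_oE hN m
  have key : p = oV N z m ∨ p = oV N z (m + 1) := by
    rcases hp with ⟨h3, -⟩ | ⟨h3, -⟩ <;> rcases hj' with ⟨h4, h5⟩ | ⟨h4, h5⟩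
    · exact Or.inl (h3.trans h4.symm)
    · exact Or.inr (h3.trans h5.symm)
    · exact Or.inr (h3.trans h5.symm)
    · exact Or.inl (h3.trans h4.symm)
  rcases key with rfl | rfl
  · have := himax m ⟨by omega, by omega, hcon2⟩
    omega
  · have := himax (m + 1) ⟨by omega, by omega, hcon2⟩
    omega

end P1Aux

/-- P1. -/
theorem p1 : P1 := by
  intro N z r hN ω
  have key : ∀ n : ℕ, ∀ k₁ k₂ j₁ j₂ : ℤ, k₂ - k₁ ≤ n → k₁ < k₂ → ω ∈ Tip N z r k₁ j₁ →
      ω ∈ Tip N z r k₂ j₂ → ∃ k k', ω ∈ Pair N z r k k' := by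
    intro n
    induction n with
    | zero => intro k₁ k₂ _ _ h1 h2; omega
    | succ n ih =>
      intro k₁ k₂ j₁ j₂ hn hk h1 h2
      by_cases hpar : (k₂ - k₁) % 2 = 0
      · obtain ⟨k, j, h3, h4, h5⟩ := P1Aux.exists_between hN hk h1 h2 hpar
        exact ih k₁ k j₁ j (by push_cast at hn; omega) h3 h1 h5
      · exact ⟨k₁, k₂, hk, by omega, ⟨j₁, h1⟩, ⟨j₂, h2⟩⟩
  intro k₁ k₂ j₁ j₂ hk h1 h2
  exact key (k₂ - k₁).toNat k₁ k₂ j₁ j₂ (by omega) hk h1 h2

end Pool.Agent.SixB.A2
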