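import Pool.Agent.Lib.SixB.A2P4
import Pool.Agent.Lib.SixB.A2BarB

/-!
# 6BD, item (A2), row P4
-/

set_option autoImplicit false

namespace Pool.Agent.SixB.A2

/-- **P4**: separated pairs can be closed below. -/
theorem p4 : P4 := p4_of fun _ _ _ _ _ h _ hω _ hξ => barrier h hω hξ

end Pool.Agent.SixB.A2
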