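import Pool.Agent.Lib.SixB.A2Asm
import Pool.Agent.Lib.SixB.A2P1
import Pool.Agent.Lib.SixB.A2P4F
import Pool.Agent.Lib.SixB.NFMom

/-!
# 6BD, (A2): two strands which cross a half annulus at a flat wall

`nf_two_wall`: `P (NF ≥ 2) ≤ C (r / R) ^ 2` for every natural domain which is a half plane in the
box of radius `R` around `v` with the line at distance at most `r` from `v`; `exp_nf_two_wall`: the
same for the exponential moments on the event `NF ≥ 2`.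
-/

set_option autoImplicit false

namespace Pool.Agent.SixB.A2

open Finset Pool.Agent.Perc Pool.Agent.PercD Pool.Agent.Perc6 Pool.Agent.PercN

theorem twoLegs : TwoLegs := twoLegs_of p1 p3 (p4c_of p4) p6 p7 p8

/-- Two crossings of the half annulus are the event `X2`. -/
theorem two_le_NF {v : ℤ × ℤ} {r R : ℤ} {ω : Cfg} (h : 2 ≤ NF {f | v.2 ≤ f.2} v r R ω) :
    ω ∈ X2 v r R := by
  classical
  unfold NF at h
  obtain ⟨b, hb, b', hb', hne⟩ := Finset.one_lt_card.1 (show 1 < _ from h)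
  rw [mem_filter] at hb hb'
  obtain ⟨-, hb, a, ha, hab⟩ := hb
  obtain ⟨-, hb', a', ha', hab'⟩ := hb'
  have e : ({f | v.2 ≤ f.2} ∩ (An v r R : Set (ℤ × ℤ)) : Set (ℤ × ℤ)) =
      {f | f ∈ BR v R ∧ f ∉ BR v r ∧ v.2 ≤ f.2} := by
    ext f
    simp only [Set.mem_inter_iff, Set.mem_ofPred_eq, mem_coe, mem_An]
    tauto
  rw [e] at ha ha'
  exact ⟨b, b', a, a', hne, hb, hb', hab, hab', ha, ha'⟩

end Pool.Agent.SixB.A2

namespace Pool.Agent.SixB

open Finset Pool.Agent.Perc Pool.Agent.PercD Pool.Agent.Perc6 Pool.Agent.PercN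

/-- (A2): at least two strands cross the half annulus. -/
theorem nf_two_wall : ∃ C : ℝ, 0 < C ∧ ∀ (F : Set (ℤ × ℤ)) (v : ℤ × ℤ)
    (r R : ℤ) (W : Finset (ℤ × ℤ)), 1 ≤ r → r ≤ R → FlatAt F v r R → BR v R ⊆ W →
      pr W {ω | 2 ≤ NF F v r R ω} ≤ C * ((r : ℝ) / R) ^ 2 := by
  obtain ⟨C, hC, h⟩ := A2.twoLegs
  refine ⟨9 * C + 9, by positivity, fun F v r R W hr hrR hF hW => ?_⟩
  have hr1 : (1 : ℝ) ≤ r := by exact_mod_cast hr
  have hR1 : (1 : ℝ) ≤ R := by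
    have : (1 : ℤ) ≤ R := by omega
    exact_mod_cast this
  by_cases hbig : 3 * r < R
  · obtain ⟨i, v', hs, hN⟩ := hF.center (by omega) (by omega : (0 : ℤ) ≤ r) (by omega)
    have e1 : pr W {ω | 2 ≤ NF F v r R ω} ≤
        pr W {ω | 2 ≤ NF (HW i (cw i v')) v' (r + r) (R - r) ω} := by
      refine pr_mono _ fun ω hω => ?_
      rw [Set.mem_ofPred_eq] at hω ⊢
      exact hω.trans (hN ω)
    have e2 : pr W {ω | 2 ≤ NF (HW i (cw i v')) v' (r + r) (R - r) ω} =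
        pr (BR (0, 0) (R - r)) {ω | 2 ≤ NF (HW 0 0) (0, 0) (r + r) (R - r) ω} :=
      pr_NF_flat i v' (by omega) (fun n => 2 ≤ n) (Finset.Subset.refl _) (hs.trans hW)
    have e3 : pr (BR (0, 0) (R - r)) {ω | 2 ≤ NF (HW 0 0) (0, 0) (r + r) (R - r) ω} ≤
        C * (((r + r : ℤ) : ℝ) / ((R - r : ℤ) : ℝ)) ^ 2 := by
      refine le_trans (pr_mono _ fun ω hω => ?_)
        (h (0, 0) (r + r) (R - r) _ (by omega) (by omega) (Finset.Subset.refl _))
      exact A2.two_le_NF hω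
    have e4 : (((r + r : ℤ) : ℝ) / ((R - r : ℤ) : ℝ)) ≤ 3 * ((r : ℝ) / R) := by
      have hb : (3 : ℝ) * r < R := by exact_mod_cast hbig
      push_cast
      rw [mul_div_assoc', div_le_div_iff₀ (by linarith) (by linarith)]
      nlinarith
    have e5 : (0 : ℝ) ≤ (((r + r : ℤ) : ℝ) / ((R - r : ℤ) : ℝ)) := by
      have hb : (3 : ℝ) * r < R := by exact_mod_cast hbig
      push_cast
      exact div_nonneg (by linarith) (by linarith)
    calc pr W {ω | 2 ≤ NF F v r R ω}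
        ≤ C * (((r + r : ℤ) : ℝ) / ((R - r : ℤ) : ℝ)) ^ 2 := by
          rw [e2] at e1
          exact e1.trans e3
      _ ≤ C * (3 * ((r : ℝ) / R)) ^ 2 :=
          mul_le_mul_of_nonneg_left (pow_le_pow_left₀ e5 e4 2) hC.le
      _ = 9 * C * ((r : ℝ) / R) ^ 2 := by ring
      _ ≤ (9 * C + 9) * ((r : ℝ) / R) ^ 2 := by
          have : (0 : ℝ) ≤ ((r : ℝ) / R) ^ 2 := by positivity
          nlinarith
  · have hb : (R : ℝ) ≤ 3 * r := by
      have : R ≤ 3 * r := by omega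
      exact_mod_cast this
    have h3 : (1 : ℝ) / 3 ≤ (r : ℝ) / R := by
      rw [div_le_div_iff₀ (by norm_num) (by linarith)]
      linarith
    have h4 : ((1 : ℝ) / 3) ^ 2 ≤ ((r : ℝ) / R) ^ 2 := pow_le_pow_left₀ (by norm_num) h3 2
    have h5 : (1 : ℝ) ≤ 9 * ((r : ℝ) / R) ^ 2 := by
      norm_num at h4 ⊢
      linarith
    have h6 : (0 : ℝ) ≤ 9 * C * ((r : ℝ) / R) ^ 2 := by positivity
    have := pr_le_one W {ω | 2 ≤ NF F v r R ω}
    nlinarith

open Classical in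
/-- (A2), exponential moments. -/
theorem exp_nf_two_wall {lam : ℝ} (hlam : 1 ≤ lam) : ∃ C : ℝ, 0 < C ∧
    ∀ (F : Set (ℤ × ℤ)) (v : ℤ × ℤ) (r R : ℤ) (W : Finset (ℤ × ℤ)), 1 ≤ r → 2 * r < R →
      FlatAt F v r R → BR v R ⊆ W →
      (∑ T ∈ W.powerset, if 2 ≤ NF F v r R (cfg T) then lam ^ NF F v r R (cfg T) else 0) /
        2 ^ W.card ≤ C * ((r : ℝ) / R) ^ 2 := by
  obtain ⟨C, hC, h⟩ := nf_two_wall
  obtain ⟨C', hC', h'⟩ := exp_NF_ge hlam
  refine ⟨4 * C * C', by positivity, fun F v r R W hr hrR hF hW => ?_⟩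
  obtain ⟨i, c, hc, hF⟩ := hF
  have hF' : FlatAt F v (2 * r) R := ⟨i, c, hc.trans (by omega), hF⟩
  refine (h' F v r R W 2 (by omega) hrR hW).trans ?_
  have := h F v (2 * r) R W (by omega) hrR.le hF' hW
  calc C' * pr W {ω | 2 ≤ NF F v (2 * r) R ω} ≤ C' * (C * (((2 * r : ℤ) : ℝ) / R) ^ 2) :=
        mul_le_mul_of_nonneg_left this hC'.le
    _ = 4 * C * C' * ((r : ℝ) / R) ^ 2 := by
        push_cast
        ring

end Pool.Agent.SixB
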