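import Pool.Agent.Lib.SixB.A2Defs

/-!
# 6BD, item (A2): geometry of the half annuli

The arcs `av`, `ae`; the boundary sides of `FH N z r`; regions which have potentials: the half annulus
`FH N z r`, with a rectangle below the level on the left (`FHL`) or on the right (`FHR`), the half box
with a box around `z` (`FHU`). Values of the potential of a strand which joins the outer side `k` to
the inner side `t`.
-/

set_option autoImplicit false

namespace Pool.Agent.SixB.A2.Geo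

open Finset Pool.Agent.Perc Pool.Agent.PercD Pool.Agent.PercL Pool.Agent.Perc6

/-- `F_z(r)` with a rectangle below the level on the left. -/
def FHL (N : ℤ) (z : ℤ × ℤ) (r s : ℤ) : Set (ℤ × ℤ) :=
  FH N z r ∪ (RF (z.1 - s) (z.1 - r) (z.2 - s) z.2 : Set (ℤ × ℤ))

/-- `F_z(r)` with a rectangle below the level on the right. -/
def FHR (N : ℤ) (z : ℤ × ℤ) (r s : ℤ) : Set (ℤ × ℤ) :=
  FH N z r ∪ (RF (z.1 + r) (z.1 + s) (z.2 - s) z.2 : Set (ℤ × ℤ))

/-- The half box with the box of radius `s`. -/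
def FHU (N : ℤ) (z : ℤ × ℤ) (s : ℤ) : Set (ℤ × ℤ) :=
  {f | -N ≤ f.1 ∧ f.1 < N ∧ z.2 ≤ f.2 ∧ f.2 < N} ∪ (BR z s : Set (ℤ × ℤ))

/-- The box of radius `r` around `z` is strictly inside the outer box. -/
structure InB (N : ℤ) (z : ℤ × ℤ) (r : ℤ) : Prop where
  pos : 0 < r
  hl : -N < z.1 - r
  hr : z.1 + r < N
  hb : -N < z.2 - r
  ht : z.2 + r < N

theorem InB.mono {N : ℤ} {z : ℤ × ℤ} {r s : ℤ} (h : InB N z s) (hr : 0 < r) (hrs : r ≤ s) :
    InB N z r := by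
  obtain ⟨h1, h2, h3, h4, h5⟩ := h
  exact ⟨hr, by omega, by omega, by omega, by omega⟩

/-- The standing assumption gives room for `s ≤ 8 r`. -/
theorem _root_.Pool.Agent.SixB.A2.Ok.inB {N : ℤ} {z : ℤ × ℤ} {r s : ℤ} (h : Ok N z r) (h0 : 0 < s) (h8 : s ≤ 8 * r) :
    InB N z s := by
  obtain ⟨h1, h2, h3, h4⟩ := h
  have e1 := le_abs_self z.1
  have e2 := neg_abs_le z.1
  have e3 := le_abs_self z.2
  have e4 := neg_abs_le z.2
  exact ⟨h0, by omega, by omega, by omega, by omega⟩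

theorem _root_.Pool.Agent.SixB.A2.Ok.inB' {N : ℤ} {z : ℤ × ℤ} {r : ℤ} (h : Ok N z r) : InB N z r :=
  h.inB (by have := h.r1; omega) (by have := h.r1; omega)

/-! ### The arcs -/

section Box

variable {x₀ x₁ y₀ y₁ k k' : ℤ}

/-- The three kinds of sides. -/
theorem ae_cases (hx : x₀ ≤ x₁) (k : ℤ) :
    (k < y₁ - y₀ ∧ ae x₀ x₁ y₀ y₁ k = (x₀, y₀ + k, true) ∧
      av x₀ x₁ y₀ y₁ k = (x₀, y₀ + k) ∧ av x₀ x₁ y₀ y₁ (k + 1) = (x₀, y₀ + k + 1)) ∨
    (y₁ - y₀ ≤ k ∧ k < (y₁ - y₀) + (x₁ - x₀) ∧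
      ae x₀ x₁ y₀ y₁ k = (x₀ + (k - (y₁ - y₀)), y₁, false) ∧
      av x₀ x₁ y₀ y₁ k = (x₀ + (k - (y₁ - y₀)), y₁) ∧
      av x₀ x₁ y₀ y₁ (k + 1) = (x₀ + (k - (y₁ - y₀)) + 1, y₁)) ∨
    ((y₁ - y₀) + (x₁ - x₀) ≤ k ∧
      ae x₀ x₁ y₀ y₁ k = (x₁, y₁ - (k - (y₁ - y₀) - (x₁ - x₀)) - 1, true) ∧
      av x₀ x₁ y₀ y₁ k = (x₁, y₁ - (k - (y₁ - y₀) - (x₁ - x₀)) - 1 + 1) ∧
      av x₀ x₁ y₀ y₁ (k + 1) = (x₁, y₁ - (k - (y₁ - y₀) - (x₁ - x₀)) - 1)) := by
  unfold ae av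
  rcases lt_or_ge k (y₁ - y₀) with h1 | h1
  · left
    refine ⟨h1, by rw [if_pos h1], by rw [if_pos h1.le], ?_⟩
    rw [if_pos (by omega)]
    simp only [Prod.mk.injEq, true_and]
    omega
  · right
    rcases lt_or_ge k ((y₁ - y₀) + (x₁ - x₀)) with h2 | h2
    · left
      refine ⟨h1, h2, by rw [if_neg (by omega), if_pos h2], ?_, ?_⟩
      · rcases eq_or_lt_of_le h1 with h3 | h3
        · rw [if_pos (by omega)]
          simp only [Prod.mk.injEq]
          omega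
        · rw [if_neg (by omega), if_pos (by omega)]
      · rw [if_neg (by omega), if_pos (by omega)]
        simp only [Prod.mk.injEq, and_true]
        omega
    · right
      refine ⟨h2, by rw [if_neg (by omega), if_neg (by omega)], ?_, ?_⟩
      · rcases le_or_gt k (y₁ - y₀) with h3 | h3
        · rw [if_pos h3]
          simp only [Prod.mk.injEq]
          omega
        · rw [if_neg (by omega)]
          split_ifs with h4
          · simp only [Prod.mk.injEq]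
            omega
          · simp only [Prod.mk.injEq, true_and]
            omega
      · rw [if_neg (by omega), if_neg (by omega)]
        simp only [Prod.mk.injEq, true_and]
        omega

theorem joins_ae (hx : x₀ ≤ x₁) :
    Joins (ae x₀ x₁ y₀ y₁ k) (av x₀ x₁ y₀ y₁ k) (av x₀ x₁ y₀ y₁ (k + 1)) := by
  rcases ae_cases hx k (y₀ := y₀) (y₁ := y₁) with ⟨_, h1, h2, h3⟩ | ⟨_, _, h1, h2, h3⟩ |
    ⟨_, h1, h2, h3⟩
  · rw [h1, h2, h3]; left; exact ⟨rfl, rfl⟩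
  · rw [h1, h2, h3]; left; exact ⟨rfl, rfl⟩
  · rw [h1, h2, h3]; right; exact ⟨rfl, rfl⟩

theorem ae_inj' (hx : x₀ < x₁) (h : ae x₀ x₁ y₀ y₁ k = ae x₀ x₁ y₀ y₁ k') : k = k' := by
  rcases ae_cases hx.le k (y₀ := y₀) (y₁ := y₁) with ⟨_, e1, -, -⟩ | ⟨_, _, e1, -, -⟩ |
    ⟨_, e1, -, -⟩ <;>
  rcases ae_cases hx.le k' (y₀ := y₀) (y₁ := y₁) with ⟨_, e2, -, -⟩ | ⟨_, _, e2, -, -⟩ |
    ⟨_, e2, -, -⟩ <;>
  · rw [e1, e2] at h
    simp only [Prod.mk.injEq, reduceCtorEq, and_false] at h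
    try omega

theorem par_av (hx : x₀ ≤ x₁) : par (av x₀ x₁ y₀ y₁ k) ≠ par (av x₀ x₁ y₀ y₁ (k + 1)) :=
  (joins_ae hx).par_ne

/-- The colour of the vertices of an arc alternates. -/
theorem par_av_add (hx : x₀ ≤ x₁) (h : k ≤ k') :
    par (av x₀ x₁ y₀ y₁ k') = (par (av x₀ x₁ y₀ y₁ k) + (k' - k)) % 2 := by
  induction k', h using Int.leInduction with
  | base =>
    have := par_cases (av x₀ x₁ y₀ y₁ k)
    omega
  | succ k' h ih =>
    have h1 := par_av hx (y₀ := y₀) (y₁ := y₁) (k := k')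
    have h2 := par_cases (av x₀ x₁ y₀ y₁ k')
    have h3 := par_cases (av x₀ x₁ y₀ y₁ (k' + 1))
    omega

/-- The left end. -/
theorem av_zero (hy : y₀ ≤ y₁) : av x₀ x₁ y₀ y₁ 0 = (x₀, y₀) := by
  unfold av
  rw [if_pos (by omega), add_zero]

/-- The right end. -/
theorem av_last (hx : x₀ ≤ x₁) (hy : y₀ < y₁) :
    av x₀ x₁ y₀ y₁ (2 * (y₁ - y₀) + (x₁ - x₀)) = (x₁, y₀) := by
  unfold av
  rw [if_neg (by omega), if_neg (by omega)]
  simp only [Prod.mk.injEq, true_and]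
  omega

/-- The vertices are on the boundary. -/
theorem av_onBd (hx : x₀ ≤ x₁) (hy : y₀ ≤ y₁) (h0 : 0 ≤ k)
    (h1 : k ≤ 2 * (y₁ - y₀) + (x₁ - x₀)) : OnBd x₀ x₁ y₀ y₁ (av x₀ x₁ y₀ y₁ k) := by
  unfold av OnBd
  split_ifs with h2 h3
  · exact ⟨Or.inl rfl, by simp only; omega, by simp only; omega, by simp only; omega,
      by simp only; omega⟩
  · exact ⟨Or.inr (Or.inr (Or.inr rfl)), by simp only; omega, by simp only; omega,
      by simp only; omega, by simp only; omega⟩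
  · exact ⟨Or.inr (Or.inl rfl), by simp only; omega, by simp only; omega,
      by simp only; omega, by simp only; omega⟩

/-- Every vertex of the three sides. -/
theorem exists_av {w : ℤ × ℤ} (hx : x₀ ≤ x₁) (hw : w.1 = x₀ ∨ w.1 = x₁ ∨ w.2 = y₁)
    (h1 : x₀ ≤ w.1) (h2 : w.1 ≤ x₁) (h3 : y₀ ≤ w.2) (h4 : w.2 ≤ y₁) :
    ∃ k, 0 ≤ k ∧ k ≤ 2 * (y₁ - y₀) + (x₁ - x₀) ∧ av x₀ x₁ y₀ y₁ k = w := by
  obtain ⟨x, y⟩ := w
  simp only at hw h1 h2 h3 h4
  by_cases hx0 : x = x₀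
  · refine ⟨y - y₀, by omega, by omega, ?_⟩
    unfold av
    rw [if_pos (by omega)]
    simp only [Prod.mk.injEq]
    omega
  · by_cases hy1 : y = y₁
    · refine ⟨(y₁ - y₀) + (x - x₀), by omega, by omega, ?_⟩
      unfold av
      rw [if_neg (by omega), if_pos (by omega)]
      simp only [Prod.mk.injEq]
      omega
    · refine ⟨(y₁ - y₀) + (x₁ - x₀) + (y₁ - y), by omega, by omega, ?_⟩
      unfold av
      rw [if_neg (by omega), if_neg (by omega)]
      simp only [Prod.mk.injEq]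
      omega

end Box

/-! ### Potentials exist -/

section HasPot

variable {N r s : ℤ} {z : ℤ × ℤ}

theorem mem_FH {f : ℤ × ℤ} : f ∈ FH N z r ↔
    (-N ≤ f.1 ∧ f.1 < N ∧ z.2 ≤ f.2 ∧ f.2 < N) ∧
      ¬ (z.1 - r ≤ f.1 ∧ f.1 < z.1 + r ∧ z.2 - r ≤ f.2 ∧ f.2 < z.2 + r) := by
  unfold FH BR
  rw [Set.mem_ofPred_eq, Perc.mem_RF, Perc.mem_RF]

theorem FH_mono (hrs : r ≤ s) : FH N z s ⊆ FH N z r := by
  intro f hf
  rw [mem_FH] at hf ⊢
  omega

theorem FH_sub_FHL : FH N z r ⊆ FHL N z r s := Set.subset_union_left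

theorem FH_sub_FHR : FH N z r ⊆ FHR N z r s := Set.subset_union_left

theorem mem_FHU {f : ℤ × ℤ} : f ∈ FHU N z s ↔
    (-N ≤ f.1 ∧ f.1 < N ∧ z.2 ≤ f.2 ∧ f.2 < N) ∨
      (z.1 - s ≤ f.1 ∧ f.1 < z.1 + s ∧ z.2 - s ≤ f.2 ∧ f.2 < z.2 + s) := by
  unfold FHU BR
  rw [Set.mem_union, Set.mem_ofPred_eq, mem_coe, Perc.mem_RF]

theorem FH_sub_FHU : FH N z r ⊆ FHU N z s := by
  intro f hf
  rw [mem_FH] at hf
  rw [mem_FHU]
  exact Or.inl hf.1

theorem mem_FHL {f : ℤ × ℤ} : f ∈ FHL N z r s ↔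
    ((-N ≤ f.1 ∧ f.1 < N ∧ z.2 ≤ f.2 ∧ f.2 < N) ∧
      ¬ (z.1 - r ≤ f.1 ∧ f.1 < z.1 + r ∧ z.2 - r ≤ f.2 ∧ f.2 < z.2 + r)) ∨
    (z.1 - s ≤ f.1 ∧ f.1 < z.1 - r ∧ z.2 - s ≤ f.2 ∧ f.2 < z.2) := by
  unfold FHL
  rw [Set.mem_union, mem_FH, mem_coe, Perc.mem_RF]

theorem mem_FHR {f : ℤ × ℤ} : f ∈ FHR N z r s ↔
    ((-N ≤ f.1 ∧ f.1 < N ∧ z.2 ≤ f.2 ∧ f.2 < N) ∧
      ¬ (z.1 - r ≤ f.1 ∧ f.1 < z.1 + r ∧ z.2 - r ≤ f.2 ∧ f.2 < z.2 + r)) ∨
    (z.1 + r ≤ f.1 ∧ f.1 < z.1 + s ∧ z.2 - s ≤ f.2 ∧ f.2 < z.2) := by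
  unfold FHR
  rw [Set.mem_union, mem_FH, mem_coe, Perc.mem_RF]

theorem FHL_sub_FHU (hr : 0 < r) (hrs : r ≤ s) : FHL N z r s ⊆ FHU N z s := by
  intro f hf
  rw [mem_FHL] at hf
  rw [mem_FHU]
  omega

theorem FHR_sub_FHU (hr : 0 < r) (hrs : r ≤ s) : FHR N z r s ⊆ FHU N z s := by
  intro f hf
  rw [mem_FHR] at hf
  rw [mem_FHU]
  omega

theorem FHU_sub_BR (h : InB N z s) : FHU N z s ⊆ (BR (0, 0) N : Set (ℤ × ℤ)) := by
  intro f hf
  obtain ⟨h1, h2, h3, h4, h5⟩ := h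
  rw [mem_FHU] at hf
  unfold BR
  rw [mem_coe, Perc.mem_RF]
  simp only
  omega

/-- The corners of the faces of `F_z(r)`. -/
theorem VF_FH {w : ℤ × ℤ} (hw : w ∈ VF (FH N z r)) :
    -N ≤ w.1 ∧ w.1 ≤ N ∧ z.2 ≤ w.2 ∧ w.2 ≤ N := by
  obtain ⟨f, hf, hc⟩ := hw
  rw [mem_FH] at hf
  unfold IsCor at hc
  omega

theorem hasPot_FH (h : InB N z r) : HasPot (FH N z r) := by
  obtain ⟨h1, h2, h3, h4, h5⟩ := h
  have e : FH N z r = (((RF (z.1 + r) N z.2 N : Set (ℤ × ℤ)) ∪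
      (RF (-N) N (z.2 + r) N : Set (ℤ × ℤ))) ∪
      (RF (-N) (z.1 - r) z.2 N : Set (ℤ × ℤ))) := by
    ext f
    rw [mem_FH, Set.mem_union, Set.mem_union, mem_RF', mem_RF', mem_RF']
    omega
  rw [e]
  refine PotB.glue (x₀ := -N) (x₁ := z.1 - r) (y₀ := z.2 + r) (y₁ := N) ?_ (by omega)
    (by omega) ?_ ?_ ?_
  · refine PotB.glue (x₀ := z.1 + r) (x₁ := N) (y₀ := z.2 + r) (y₁ := N)
      (hasPot_RF _ _ _ _) (by omega) (by omega) ?_ ?_ ?_
    · intro f hf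
      rw [mem_RF'] at hf ⊢
      omega
    · intro f hf
      rw [mem_RF'] at hf ⊢
      omega
    · intro v hv
      have := PotB.VF_RF hv
      omega
  · intro f hf
    rw [Set.mem_union, mem_RF', mem_RF']
    rw [mem_RF'] at hf
    omega
  · intro f hf
    rw [mem_RF'] at hf ⊢
    omega
  · intro v hv
    rw [PotB.VF_union] at hv
    rcases hv with hv | hv <;>
    · have := PotB.VF_RF hv
      omega

theorem hasPot_FHL (hr : 0 < r) (hrs : r < s) (h : InB N z s) : HasPot (FHL N z r s) := by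
  have hP := hasPot_FH (h.mono hr hrs.le)
  obtain ⟨h1, h2, h3, h4, h5⟩ := h
  have e : FHL N z r s = FH N z r ∪
      (RF (z.1 - s) (z.1 - r) (z.2 - s) (z.2 + r) : Set (ℤ × ℤ)) := by
    ext f
    rw [mem_FHL, Set.mem_union, mem_FH, mem_RF']
    omega
  rw [e]
  refine PotB.glue hP (x₀ := z.1 - s) (x₁ := z.1 - r) (y₀ := z.2) (y₁ := z.2 + r) (by omega)
    (by omega) ?_ ?_ ?_
  · intro f hf
    rw [mem_FH]
    rw [mem_RF'] at hf
    omega
  · intro f hf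
    rw [mem_RF'] at hf ⊢
    omega
  · intro v hv
    have := VF_FH hv
    omega

theorem hasPot_FHR (hr : 0 < r) (hrs : r < s) (h : InB N z s) : HasPot (FHR N z r s) := by
  have hP := hasPot_FH (h.mono hr hrs.le)
  obtain ⟨h1, h2, h3, h4, h5⟩ := h
  have e : FHR N z r s = FH N z r ∪
      (RF (z.1 + r) (z.1 + s) (z.2 - s) (z.2 + r) : Set (ℤ × ℤ)) := by
    ext f
    rw [mem_FHR, Set.mem_union, mem_FH, mem_RF']
    omega
  rw [e]
  refine PotB.glue hP (x₀ := z.1 + r) (x₁ := z.1 + s) (y₀ := z.2) (y₁ := z.2 + r) (by omega)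
    (by omega) ?_ ?_ ?_
  · intro f hf
    rw [mem_FH]
    rw [mem_RF'] at hf
    omega
  · intro f hf
    rw [mem_RF'] at hf ⊢
    omega
  · intro v hv
    have := VF_FH hv
    omega

theorem hasPot_FHU (h : InB N z s) : HasPot (FHU N z s) := by
  obtain ⟨h1, h2, h3, h4, h5⟩ := h
  have e : FHU N z s = (RF (-N) N z.2 N : Set (ℤ × ℤ)) ∪
      (RF (z.1 - s) (z.1 + s) (z.2 - s) (z.2 + s) : Set (ℤ × ℤ)) := by
    ext f
    rw [mem_FHU, Set.mem_union, mem_RF', mem_RF']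
  rw [e]
  refine PotB.glue (hasPot_RF _ _ _ _) (x₀ := z.1 - s) (x₁ := z.1 + s) (y₀ := z.2)
    (y₁ := z.2 + s) (by omega) (by omega) ?_ ?_ ?_
  · intro f hf
    rw [mem_RF'] at hf ⊢
    omega
  · intro f hf
    rw [mem_RF'] at hf ⊢
    omega
  · intro v hv
    have := PotB.VF_RF hv
    omega

theorem hasPot_BR (c : ℤ × ℤ) (R : ℤ) : HasPot (BR c R : Set (ℤ × ℤ)) := hasPot_RF _ _ _ _

end HasPot

/-! ### Boundary unit edges -/

theorem isSide_true {f : ℤ × ℤ} {x y : ℤ} :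
    IsSide f (x, y, true) ↔ f = (x, y) ∨ f = (x - 1, y) := by
  obtain ⟨a, b⟩ := f
  simp only [IsSide, bo, le', to', ri, Prod.mk.injEq, Bool.true_eq_false, and_false, and_true,
    false_or]
  omega

theorem isSide_false {f : ℤ × ℤ} {x y : ℤ} :
    IsSide f (x, y, false) ↔ f = (x, y) ∨ f = (x, y - 1) := by
  obtain ⟨a, b⟩ := f
  simp only [IsSide, bo, le', to', ri, Prod.mk.injEq, Bool.false_eq_true, and_false, and_true,
    or_false, false_or]
  omega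

theorem bdU_true {F : Set (ℤ × ℤ)} {x y : ℤ} : BdU F (x, y, true) ↔
    ((x, y) ∈ F ∧ (x - 1, y) ∉ F) ∨ ((x, y) ∉ F ∧ (x - 1, y) ∈ F) := by
  unfold BdU
  simp only [isSide_true]
  constructor
  · rintro ⟨⟨f, hf, rfl | rfl⟩, g, hg, rfl | rfl⟩
    · exact absurd hf hg
    · exact Or.inl ⟨hf, hg⟩
    · exact Or.inr ⟨hg, hf⟩
    · exact absurd hf hg
  · rintro (⟨h1, h2⟩ | ⟨h1, h2⟩)
    · exact ⟨⟨_, h1, Or.inl rfl⟩, _, h2, Or.inr rfl⟩
    · exact ⟨⟨_, h2, Or.inr rfl⟩, _, h1, Or.inl rfl⟩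

theorem bdU_false {F : Set (ℤ × ℤ)} {x y : ℤ} : BdU F (x, y, false) ↔
    ((x, y) ∈ F ∧ (x, y - 1) ∉ F) ∨ ((x, y) ∉ F ∧ (x, y - 1) ∈ F) := by
  unfold BdU
  simp only [isSide_false]
  constructor
  · rintro ⟨⟨f, hf, rfl | rfl⟩, g, hg, rfl | rfl⟩
    · exact absurd hf hg
    · exact Or.inl ⟨hf, hg⟩
    · exact Or.inr ⟨hg, hf⟩
    · exact absurd hf hg
  · rintro (⟨h1, h2⟩ | ⟨h1, h2⟩)
    · exact ⟨⟨_, h1, Or.inl rfl⟩, _, h2, Or.inr rfl⟩
    · exact ⟨⟨_, h2, Or.inr rfl⟩, _, h1, Or.inl rfl⟩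

theorem bdU_iff_true {F : Set (ℤ × ℤ)} {x y : ℤ} : BdU F (x, y, true) ↔
    ¬ ((x, y) ∈ F ↔ (x - 1, y) ∈ F) := by
  rw [bdU_true]; tauto

theorem bdU_iff_false {F : Set (ℤ × ℤ)} {x y : ℤ} : BdU F (x, y, false) ↔
    ¬ ((x, y) ∈ F ↔ (x, y - 1) ∈ F) := by
  rw [bdU_false]; tauto

section Bd

variable {N r s : ℤ} {z : ℤ × ℤ} {k t : ℤ} {a : UE}

/-- The outer sides. -/
theorem bdU_outer (h : InB N z r) (h0 : 0 ≤ k) (h1 : k < oL N z) :
    BdU (FH N z r) (oE N z k) := by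
  obtain ⟨g1, g2, g3, g4, g5⟩ := h
  unfold oL at h1
  unfold oE
  rcases ae_cases (x₀ := -N) (x₁ := N) (y₀ := z.2) (y₁ := N) (by omega) k with
    ⟨_, e1, -, -⟩ | ⟨_, _, e1, -, -⟩ | ⟨_, e1, -, -⟩
  · rw [e1, bdU_iff_true, mem_FH, mem_FH]
    simp only
    omega
  · rw [e1, bdU_iff_false, mem_FH, mem_FH]
    simp only
    omega
  · rw [e1, bdU_iff_true, mem_FH, mem_FH]
    simp only
    omega

/-- The inner sides. -/
theorem bdU_inner (h : InB N z r) (h0 : 0 ≤ t) (h1 : t < 4 * r) :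
    BdU (FH N z r) (iE z r t) := by
  obtain ⟨g1, g2, g3, g4, g5⟩ := h
  unfold iE
  rcases ae_cases (x₀ := z.1 - r) (x₁ := z.1 + r) (y₀ := z.2) (y₁ := z.2 + r) (by omega) t with
    ⟨_, e1, -, -⟩ | ⟨_, _, e1, -, -⟩ | ⟨_, e1, -, -⟩
  · rw [e1, bdU_iff_true, mem_FH, mem_FH]
    simp only
    omega
  · rw [e1, bdU_iff_false, mem_FH, mem_FH]
    simp only
    omega
  · rw [e1, bdU_iff_true, mem_FH, mem_FH]
    simp only
    omega

/-- The floor sides. -/
theorem bdU_floor (h : InB N z r) {x : ℤ}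
    (hx : (-N ≤ x ∧ x < z.1 - r) ∨ (z.1 + r ≤ x ∧ x < N)) :
    BdU (FH N z r) (x, z.2, false) := by
  obtain ⟨g1, g2, g3, g4, g5⟩ := h
  rw [bdU_iff_false, mem_FH, mem_FH]
  simp only
  omega

/-- The boundary of `F_z(r)`. -/
theorem bdU_FH (h : InB N z r) : BdU (FH N z r) a ↔
    (∃ k, 0 ≤ k ∧ k < oL N z ∧ a = oE N z k) ∨
    (∃ t, 0 ≤ t ∧ t < 4 * r ∧ a = iE z r t) ∨
    (∃ x, a = (x, z.2, false) ∧ ((-N ≤ x ∧ x < z.1 - r) ∨ (z.1 + r ≤ x ∧ x < N))) := by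
  constructor
  · intro ha
    obtain ⟨g1, g2, g3, g4, g5⟩ := h
    obtain ⟨x, y, b⟩ := a
    unfold oL
    cases b with
    | true =>
      rw [bdU_iff_true, mem_FH, mem_FH] at ha
      simp only at ha
      have h6 : (x = -N ∧ z.2 ≤ y ∧ y < N) ∨ (x = N ∧ z.2 ≤ y ∧ y < N) ∨
          (x = z.1 - r ∧ z.2 ≤ y ∧ y < z.2 + r) ∨ (x = z.1 + r ∧ z.2 ≤ y ∧ y < z.2 + r) := by
        omega
      rcases h6 with ⟨rfl, h7, h8⟩ | ⟨rfl, h7, h8⟩ | ⟨rfl, h7, h8⟩ | ⟨rfl, h7, h8⟩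
      · left
        refine ⟨y - z.2, by omega, by omega, ?_⟩
        unfold oE ae
        rw [if_pos (by omega)]
        simp only [Prod.mk.injEq, and_true, true_and]
        omega
      · left
        refine ⟨(x - z.2) + 2 * x + (x - y - 1), by omega, by omega, ?_⟩
        unfold oE ae
        rw [if_neg (by omega), if_neg (by omega)]
        simp only [Prod.mk.injEq, and_true, true_and]
        omega
      · right; left
        refine ⟨y - z.2, by omega, by omega, ?_⟩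
        unfold iE ae
        rw [if_pos (by omega)]
        simp only [Prod.mk.injEq, and_true, true_and]
        omega
      · right; left
        refine ⟨r + 2 * r + (z.2 + r - y - 1), by omega, by omega, ?_⟩
        unfold iE ae
        rw [if_neg (by omega), if_neg (by omega)]
        simp only [Prod.mk.injEq, and_true, true_and]
        omega
    | false =>
      rw [bdU_iff_false, mem_FH, mem_FH] at ha
      simp only at ha
      have h6 : (y = N ∧ -N ≤ x ∧ x < N) ∨ (y = z.2 + r ∧ z.1 - r ≤ x ∧ x < z.1 + r) ∨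
          (y = z.2 ∧ ((-N ≤ x ∧ x < z.1 - r) ∨ (z.1 + r ≤ x ∧ x < N))) := by
        omega
      rcases h6 with ⟨rfl, h7, h8⟩ | ⟨rfl, h7, h8⟩ | ⟨rfl, h7⟩
      · left
        refine ⟨(y - z.2) + (x + y), by omega, by omega, ?_⟩
        unfold oE ae
        rw [if_neg (by omega), if_pos (by omega)]
        simp only [Prod.mk.injEq, and_true]
        omega
      · right; left
        refine ⟨r + (x - z.1 + r), by omega, by omega, ?_⟩
        unfold iE ae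
        rw [if_neg (by omega), if_pos (by omega)]
        simp only [Prod.mk.injEq, and_true]
        omega
      · right; right
        exact ⟨x, rfl, h7⟩
  · rintro (⟨k, h1, h2, rfl⟩ | ⟨t, h1, h2, rfl⟩ | ⟨x, rfl, hx⟩)
    · exact bdU_outer h h1 h2
    · exact bdU_inner h h1 h2
    · exact bdU_floor h hx

/-- An outer side is not an inner side. -/
theorem outer_ne_inner (h : InB N z r) (h1 : k < oL N z) (h3 : t < 4 * r) :
    oE N z k ≠ iE z r t := by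
  obtain ⟨g1, g2, g3, g4, g5⟩ := h
  unfold oL at h1
  unfold oE iE
  intro he
  rcases ae_cases (x₀ := -N) (x₁ := N) (y₀ := z.2) (y₁ := N) (by omega) k with
    ⟨_, e1, -, -⟩ | ⟨_, _, e1, -, -⟩ | ⟨_, e1, -, -⟩ <;>
  rcases ae_cases (x₀ := z.1 - r) (x₁ := z.1 + r) (y₀ := z.2) (y₁ := z.2 + r) (by omega) t with
    ⟨_, e2, -, -⟩ | ⟨_, _, e2, -, -⟩ | ⟨_, e2, -, -⟩ <;>
  · rw [e1, e2] at he
    simp only [Prod.mk.injEq, reduceCtorEq, and_false] at he
    try omega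

/-- An outer side is not a floor side. -/
theorem outer_ne_floor (h : InB N z r) {x : ℤ} : oE N z k ≠ (x, z.2, false) := by
  obtain ⟨g1, g2, g3, g4, g5⟩ := h
  unfold oE
  intro he
  rcases ae_cases (x₀ := -N) (x₁ := N) (y₀ := z.2) (y₁ := N) (by omega) k with
    ⟨_, e1, -, -⟩ | ⟨_, _, e1, -, -⟩ | ⟨_, e1, -, -⟩ <;>
  · rw [e1] at he
    simp only [Prod.mk.injEq, reduceCtorEq, and_false] at he
    try omega

/-- An inner side is not a floor side. -/
theorem inner_ne_floor (h : InB N z r) {x : ℤ} : iE z r t ≠ (x, z.2, false) := by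
  obtain ⟨g1, g2, g3, g4, g5⟩ := h
  unfold iE
  intro he
  rcases ae_cases (x₀ := z.1 - r) (x₁ := z.1 + r) (y₀ := z.2) (y₁ := z.2 + r) (by omega) t with
    ⟨_, e1, -, -⟩ | ⟨_, _, e1, -, -⟩ | ⟨_, e1, -, -⟩ <;>
  · rw [e1] at he
    simp only [Prod.mk.injEq, reduceCtorEq, and_false] at he
    try omega

end Bd

/-! ### Values of potentials -/

section Pot

variable {F F' : Set (ℤ × ℤ)} {M : Set UE} {Φ : ℤ × ℤ → ZMod 2}

theorem IsPot.mono' (hP : IsPot F' M Φ) (h : F ⊆ F') : IsPot F M Φ := fun f hf => hP f (h hf)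

/-- A potential is constant along an arc without marked edges. -/
theorem pot_arc (hP : IsPot F M Φ) (V : ℤ → ℤ × ℤ) (E : ℤ → UE) {x y : ℤ} (hxy : x ≤ y)
    (hJ : ∀ k, x ≤ k → k < y → Joins (E k) (V k) (V (k + 1)))
    (hF : ∀ k, x ≤ k → k < y → ∃ f ∈ F, IsSide f (E k))
    (hM : ∀ k, x ≤ k → k < y → E k ∉ M) : Φ (V y) = Φ (V x) := by
  induction y, hxy using Int.leInduction with
  | base => rfl
  | succ y hy ih =>
    rw [← ih (fun k h1 h2 => hJ k h1 (by omega)) (fun k h1 h2 => hF k h1 (by omega))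
      fun k h1 h2 => hM k h1 (by omega)]
    obtain ⟨f, hf, hs⟩ := hF y hy (by omega)
    by_contra hne
    exact hM y hy (by omega) ((hP.joins hf hs (hJ y hy (by omega))).2 fun h => hne h.symm)

/-- The same for the arcs of rectangles. -/
theorem pot_av (hP : IsPot F M Φ) {x₀ x₁ y₀ y₁ x y : ℤ} (hx : x₀ ≤ x₁) (hxy : x ≤ y)
    (hF : ∀ k, x ≤ k → k < y → ∃ f ∈ F, IsSide f (ae x₀ x₁ y₀ y₁ k))
    (hM : ∀ k, x ≤ k → k < y → ae x₀ x₁ y₀ y₁ k ∉ M) :
    Φ (av x₀ x₁ y₀ y₁ y) = Φ (av x₀ x₁ y₀ y₁ x) :=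
  pot_arc hP (av x₀ x₁ y₀ y₁) (ae x₀ x₁ y₀ y₁) hxy (fun _ _ _ => joins_ae hx) hF hM

/-- The same for horizontal segments. -/
theorem pot_hor' (hP : IsPot F M Φ) {x x' y : ℤ} (hx : x ≤ x')
    (hF : ∀ i, x ≤ i → i < x' → ∃ f ∈ F, IsSide f (i, y, false))
    (hM : ∀ i, x ≤ i → i < x' → (i, y, false) ∉ M) : Φ (x', y) = Φ (x, y) :=
  pot_arc hP (fun i => (i, y)) (fun i => (i, y, false)) hx
    (fun _ _ _ => Or.inl ⟨rfl, rfl⟩) hF hM

/-- The same for vertical segments. -/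
theorem pot_ver' (hP : IsPot F M Φ) {x y y' : ℤ} (hy : y ≤ y')
    (hF : ∀ i, y ≤ i → i < y' → ∃ f ∈ F, IsSide f (x, i, true))
    (hM : ∀ i, y ≤ i → i < y' → (x, i, true) ∉ M) : Φ (x, y') = Φ (x, y) :=
  pot_arc hP (fun i => (x, i)) (fun i => (x, i, true)) hy
    (fun _ _ _ => Or.inl ⟨rfl, rfl⟩) hF hM

end Pot

/-! ### The potential of a strand which joins the outer to the inner boundary -/

section Strand

variable {N r : ℤ} {z : ℤ × ℤ} {k t : ℤ} {ω : Cfg} {Φ : ℤ × ℤ → ZMod 2}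

/-- The only boundary sides of the strand. -/
theorem strand_bd (h : InB N z r) (hT : ω ∈ Tip N z r k t)
    {a : UE} (ha : a ∈ MM ω (FH N z r) (oE N z k)) (hb : BdU (FH N z r) a) :
    a = oE N z k ∨ a = iE z r t := by
  obtain ⟨⟨hk0, hk1⟩, ⟨ht0, ht1⟩, hM⟩ := hT
  by_cases h1 : a = oE N z k
  · exact Or.inl h1
  · right
    exact bdU_unique (bdU_outer h hk0 hk1) ha hM hb (bdU_inner h ht0 ht1) h1
      (outer_ne_inner h hk1 ht1).symm

/-- The side `k` is on the boundary. -/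
theorem Tip.outer (h : InB N z r) (hT : ω ∈ Tip N z r k t) : BdU (FH N z r) (oE N z k) :=
  bdU_outer h hT.1.1 hT.1.2

theorem Tip.inner (h : InB N z r) (hT : ω ∈ Tip N z r k t) : BdU (FH N z r) (iE z r t) :=
  bdU_inner h hT.2.1.1 hT.2.1.2

theorem oE_inj (h : InB N z r) {k k' : ℤ} (he : oE N z k = oE N z k') : k = k' :=
  ae_inj' (by obtain ⟨g1, g2, g3, g4, g5⟩ := h; omega) he

theorem iE_inj (h : InB N z r) {t t' : ℤ} (he : iE z r t = iE z r t') : t = t' :=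
  ae_inj' (by obtain ⟨g1, g2, g3, g4, g5⟩ := h; omega) he

theorem joins_oE (h : InB N z r) : Joins (oE N z k) (oV N z k) (oV N z (k + 1)) :=
  joins_ae (by obtain ⟨g1, g2, g3, g4, g5⟩ := h; omega)

theorem joins_iE (h : InB N z r) : Joins (iE z r t) (iV z r t) (iV z r (t + 1)) :=
  joins_ae (by obtain ⟨g1, g2, g3, g4, g5⟩ := h; omega)

/-- The tip is unique. -/
theorem Tip.unique (h : InB N z r) {t' : ℤ} (hT : ω ∈ Tip N z r k t) (hT' : ω ∈ Tip N z r k t') :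
    t = t' := by
  rcases strand_bd h hT hT'.2.2 (Tip.inner h hT') with h1 | h1
  · exact absurd h1.symm (outer_ne_inner h hT.1.2 hT'.2.1.2)
  · exact (iE_inj h h1).symm

/-- Values on the outer boundary, before the strand. -/
theorem pot_out_le (h : InB N z r) (hT : ω ∈ Tip N z r k t)
    (hP : IsPot (FH N z r) (MM ω (FH N z r) (oE N z k)) Φ) {j : ℤ} (hj0 : 0 ≤ j)
    (hj1 : j ≤ k) : Φ (oV N z j) = Φ (oV N z k) := by
  have hk := hT.1
  refine (pot_av hP (by obtain ⟨g1, g2, g3, g4, g5⟩ := h; omega) hj1 (fun i hi1 hi2 => ?_)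
    fun i hi1 hi2 hi => ?_).symm
  · exact (bdU_outer h (by omega) (by omega)).1
  · rcases strand_bd h hT hi (bdU_outer h (by omega) (by omega)) with h1 | h1
    · have := oE_inj h h1
      omega
    · exact outer_ne_inner h (by omega) hT.2.1.2 h1

/-- Values on the outer boundary, after the strand. -/
theorem pot_out_gt (h : InB N z r) (hT : ω ∈ Tip N z r k t)
    (hP : IsPot (FH N z r) (MM ω (FH N z r) (oE N z k)) Φ) {j : ℤ} (hj0 : k < j)
    (hj1 : j ≤ oL N z) : Φ (oV N z j) = Φ (oV N z (k + 1)) := by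
  have hk := hT.1
  refine pot_av hP (by obtain ⟨g1, g2, g3, g4, g5⟩ := h; omega) (by omega)
    (fun i hi1 hi2 => ?_) fun i hi1 hi2 hi => ?_
  · exact (bdU_outer h (by omega) (by omega)).1
  · rcases strand_bd h hT hi (bdU_outer h (by omega) (by omega)) with h1 | h1
    · have := oE_inj h h1
      omega
    · exact outer_ne_inner h (by omega) hT.2.1.2 h1

/-- The two sides of the strand. -/
theorem pot_out_ne (h : InB N z r) (hk0 : 0 ≤ k) (hk1 : k < oL N z)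
    (hP : IsPot (FH N z r) (MM ω (FH N z r) (oE N z k)) Φ) :
    Φ (oV N z k) ≠ Φ (oV N z (k + 1)) :=
  hP.ne (joins_oE h) (bdU_outer h hk0 hk1).1

theorem oV_zero (h : InB N z r) : oV N z 0 = (-N, z.2) :=
  av_zero (by obtain ⟨g1, g2, g3, g4, g5⟩ := h; omega)

theorem oV_last (h : InB N z r) : oV N z (oL N z) = (N, z.2) := by
  obtain ⟨g1, g2, g3, g4, g5⟩ := h
  have := av_last (x₀ := -N) (x₁ := N) (y₀ := z.2) (y₁ := N) (by omega) (by omega)
  unfold oV oL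
  rw [← this]
  congr 1
  omega

theorem iV_zero (h : InB N z r) : iV z r 0 = (z.1 - r, z.2) :=
  av_zero (by obtain ⟨g1, g2, g3, g4, g5⟩ := h; omega)

theorem iV_last (h : InB N z r) : iV z r (4 * r) = (z.1 + r, z.2) := by
  obtain ⟨g1, g2, g3, g4, g5⟩ := h
  have := av_last (x₀ := z.1 - r) (x₁ := z.1 + r) (y₀ := z.2) (y₁ := z.2 + r) (by omega)
    (by omega)
  unfold iV
  rw [← this]
  congr 1
  omega

/-- Values on the left floor. -/
theorem pot_floor_l (h : InB N z r) (hT : ω ∈ Tip N z r k t)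
    (hP : IsPot (FH N z r) (MM ω (FH N z r) (oE N z k)) Φ) {x : ℤ} (hx0 : -N ≤ x)
    (hx1 : x ≤ z.1 - r) : Φ (x, z.2) = Φ (oV N z k) := by
  rw [← pot_out_le h hT hP le_rfl hT.1.1, oV_zero h]
  refine pot_hor' hP hx0 (fun i hi1 hi2 => ?_) fun i hi1 hi2 hi => ?_
  · exact (bdU_floor h (by omega)).1
  · rcases strand_bd h hT hi (bdU_floor h (by omega)) with h2 | h2
    · exact outer_ne_floor h h2.symm
    · exact inner_ne_floor h h2.symm

/-- Values on the right floor. -/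
theorem pot_floor_r (h : InB N z r) (hT : ω ∈ Tip N z r k t)
    (hP : IsPot (FH N z r) (MM ω (FH N z r) (oE N z k)) Φ) {x : ℤ} (hx0 : z.1 + r ≤ x)
    (hx1 : x ≤ N) : Φ (x, z.2) = Φ (oV N z (k + 1)) := by
  rw [← pot_out_gt h hT hP hT.1.2 le_rfl, oV_last h]
  refine (pot_hor' hP hx1 (fun i hi1 hi2 => ?_) fun i hi1 hi2 hi => ?_).symm
  · exact (bdU_floor h (by omega)).1
  · rcases strand_bd h hT hi (bdU_floor h (by omega)) with h2 | h2
    · exact outer_ne_floor h h2.symm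
    · exact inner_ne_floor h h2.symm

/-- Values on the inner boundary, before the tip. -/
theorem pot_in_le (h : InB N z r) (hT : ω ∈ Tip N z r k t)
    (hP : IsPot (FH N z r) (MM ω (FH N z r) (oE N z k)) Φ) {j : ℤ} (hj0 : 0 ≤ j)
    (hj1 : j ≤ t) : Φ (iV z r j) = Φ (oV N z k) := by
  have ht := hT.2.1
  rw [← pot_floor_l h hT hP (x := z.1 - r) (by have := h.hl; omega) le_rfl, ← iV_zero h]
  refine pot_av hP (by have := h.pos; omega) hj0 (fun i hi1 hi2 => ?_) fun i hi1 hi2 hi => ?_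
  · exact (bdU_inner h (by omega) (by omega)).1
  · rcases strand_bd h hT hi (bdU_inner h (by omega) (by omega)) with h2 | h2
    · exact outer_ne_inner h hT.1.2 (by omega) h2.symm
    · have := iE_inj h h2
      omega

/-- Values on the inner boundary, after the tip. -/
theorem pot_in_gt (h : InB N z r) (hT : ω ∈ Tip N z r k t)
    (hP : IsPot (FH N z r) (MM ω (FH N z r) (oE N z k)) Φ) {j : ℤ} (hj0 : t < j)
    (hj1 : j ≤ 4 * r) : Φ (iV z r j) = Φ (oV N z (k + 1)) := by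
  have ht := hT.2.1
  rw [← pot_floor_r h hT hP (x := z.1 + r) le_rfl (by have := h.hr; omega), ← iV_last h]
  refine (pot_av hP (by have := h.pos; omega) hj1 (fun i hi1 hi2 => ?_)
    fun i hi1 hi2 hi => ?_).symm
  · exact (bdU_inner h (by omega) (by omega)).1
  · rcases strand_bd h hT hi (bdU_inner h (by omega) (by omega)) with h2 | h2
    · exact outer_ne_inner h hT.1.2 (by omega) h2.symm
    · have := iE_inj h h2
      omega

/-- The colours on the two sides of the strand are the same at the outer end and at the tip. -/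
theorem par_tip (h : InB N z r) (hT : ω ∈ Tip N z r k t) :
    par (iV z r t) = par (oV N z k) ∧ par (iV z r (t + 1)) = par (oV N z (k + 1)) := by
  obtain ⟨Φ, hP⟩ := hasPot_FH h (MM ω (FH N z r) (oE N z k)) fun f hf => evenAt_MM hf
  have e2 := pot_in_gt h hT hP (j := t + 1) (by omega) (by have := hT.2.1; omega)
  have e3 := pot_out_ne h hT.1.1 hT.1.2 hP
  have j1 : Joins (oE N z k) (oV N z k) (oV N z (k + 1)) := joins_oE h
  have j2 : Joins (iE z r t) (iV z r t) (iV z r (t + 1)) := joins_iE h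
  have p1 := j1.par_ne
  have p2 := j2.par_ne
  have q1 := par_cases (oV N z k)
  have q2 := par_cases (oV N z (k + 1))
  have q3 := par_cases (iV z r t)
  have q4 := par_cases (iV z r (t + 1))
  by_cases hp : par (iV z r t) = par (oV N z k)
  · exact ⟨hp, by omega⟩
  · exfalso
    have h1 := hP.mm j1 hT.2.2 j2.symm (by omega)
    rw [e2] at h1
    exact e3 h1.1.symm

/-- Two crossing strands with different outer sides are disjoint, with the tips in the same order. -/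
theorem tips_lt (h : InB N z r) {k' t' : ℤ} (hkk : k < k') (hT : ω ∈ Tip N z r k t)
    (hT' : ω ∈ Tip N z r k' t') : t < t' := by
  obtain ⟨Φ, hP⟩ := hasPot_FH h (MM ω (FH N z r) (oE N z k)) fun f hf => evenAt_MM hf
  have hne : oE N z k ≠ oE N z k' := fun he => by
    have := oE_inj h he
    omega
  -- the side `k'` and its tip are not in the component of `k`
  have hk' : oE N z k' ∉ MM ω (FH N z r) (oE N z k) := by
    intro hm
    rcases strand_bd h hT hm (Tip.outer h hT') with h1 | h1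
    · exact hne h1.symm
    · exact outer_ne_inner h hT'.1.2 hT.2.1.2 h1
  have ht' : iE z r t' ∉ MM ω (FH N z r) (oE N z k) := by
    intro hm
    exact hk' (MM_trans hm (MM_symm hT'.2.2))
  -- the potential at the ends of `k'` is the value after `k`
  have e1 := pot_out_gt h hT hP (j := k') hkk (by have := hT'.1; omega)
  have e3 := pot_out_ne h hT.1.1 hT.1.2 hP
  -- it is constant along the strand of `k'`: compare the tips
  have hc : Φ (iV z r t') = Φ (oV N z (k + 1)) := by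
    obtain ⟨p, q, hj, hp, hc⟩ := MM_conn (joins_oE h : Joins (oE N z k') _ _) hT'.2.2
    have h1 := hP.conn (hc.mono SS_sub)
    obtain ⟨f, hf, hs⟩ := (Tip.inner h hT').1
    have h2 : Φ (iV z r t') = Φ (iV z r (t' + 1)) := by
      by_contra h3
      exact ht' ((hP.joins hf hs (joins_iE h)).2 h3)
    rcases hj with ⟨g1, g2⟩ | ⟨g1, g2⟩ <;>
    rcases (joins_iE h : Joins (iE z r t') _ _) with ⟨g3, g4⟩ | ⟨g3, g4⟩
    · rw [g3, ← g1, ← h1, e1]
    · rw [h2, g4, ← g1, ← h1, e1]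
    · rw [h2, g4, ← g1, ← h1, e1]
    · rw [g3, ← g1, ← h1, e1]
  by_contra hlt
  have h4 := pot_in_le h hT hP (j := t') hT'.2.1.1 (by omega)
  rw [hc] at h4
  exact e3 h4.symm

/-- The normalised potential of a crossing strand. -/
theorem exists_pot (h : InB N z r) (hT : ω ∈ Tip N z r k t) :
    ∃ Φ : ℤ × ℤ → ZMod 2, IsPot (FH N z r) (MM ω (FH N z r) (oE N z k)) Φ ∧
      (∀ i, 0 ≤ i → i ≤ oL N z → Φ (oV N z i) = if i ≤ k then 0 else 1) ∧
      (∀ j, 0 ≤ j → j ≤ 4 * r → Φ (iV z r j) = if j ≤ t then 0 else 1) ∧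
      (∀ x, -N ≤ x → x ≤ z.1 - r → Φ (x, z.2) = 0) ∧
      ∀ x, z.1 + r ≤ x → x ≤ N → Φ (x, z.2) = 1 := by
  obtain ⟨Φ, hP⟩ := hasPot_FH h (MM ω (FH N z r) (oE N z k)) fun f hf => evenAt_MM hf
  have e0 : Φ (oV N z k) + Φ (oV N z k) = 0 := CharTwo.add_self_eq_zero _
  have e1 : Φ (oV N z (k + 1)) + Φ (oV N z k) = 1 := by
    have := pot_out_ne h hT.1.1 hT.1.2 hP
    revert this
    generalize Φ (oV N z k) = p
    generalize Φ (oV N z (k + 1)) = q
    revert p q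
    decide
  refine ⟨fun w => Φ w + Φ (oV N z k), hP.add_const _, fun i h0 h1 => ?_, fun j h0 h1 => ?_,
    fun x h0 h1 => ?_, fun x h0 h1 => ?_⟩
  · simp only
    split_ifs with h2
    · rw [pot_out_le h hT hP h0 h2, e0]
    · rw [pot_out_gt h hT hP (by omega) h1, e1]
  · simp only
    split_ifs with h2
    · rw [pot_in_le h hT hP h0 h2, e0]
    · rw [pot_in_gt h hT hP (by omega) h1, e1]
  · simp only
    rw [pot_floor_l h hT hP h0 h1, e0]
  · simp only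
    rw [pot_floor_r h hT hP h0 h1, e1]

end Strand

end Pool.Agent.SixB.A2.Geo
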