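import Pool.Agent.Lib.SixB.A2Defs

/-!
# 6BD, item (A2), row P3: close tips

If the strands of a pair reach the inner arc of radius `r` at a distance at most `g` and go on to
the inner arc of radius `s ≤ r / 2` then there is an arm from the square of radius `g` around the
tip to distance `r - s` in the faces which are not visited.
The file uses the potentials of a crossing strand (`Pots`) and the row `P6`.
-/

set_option autoImplicit false

namespace Pool.Agent.SixB.A2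

open Finset Pool.Agent.Perc Pool.Agent.PercD Pool.Agent.PercL Pool.Agent.Perc6
open Pool.Agent.PercT (pr_mix_le mix mix_of_mem mix_of_notMem)

/-- The potentials of a strand which crosses the half annulus (normalised at the left wall). -/
def Pots (N : ℤ) (z : ℤ × ℤ) (r : ℤ) : Prop := ∀ (ω : Cfg) (k j : ℤ), ω ∈ Tip N z r k j →
  ∃ Φ : ℤ × ℤ → ZMod 2, IsPot (FH N z r) (MM ω (FH N z r) (oE N z k)) Φ ∧
    (∀ i, 0 ≤ i → i ≤ oL N z → Φ (oV N z i) = if i ≤ k then 0 else 1) ∧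
    (∀ t, 0 ≤ t → t ≤ 4 * r → Φ (iV z r t) = if t ≤ j then 0 else 1)

namespace P3Aux

variable {N r s g k k' j j' : ℤ} {z : ℤ × ℤ} {ω : Cfg}

/-! ### The arcs -/

theorem joins_ae {x₀ x₁ y₀ y₁ k : ℤ} (hx : x₀ < x₁) (hy : y₀ < y₁) (h0 : 0 ≤ k)
    (h1 : k < 2 * (y₁ - y₀) + (x₁ - x₀)) :
    Joins (ae x₀ x₁ y₀ y₁ k) (av x₀ x₁ y₀ y₁ k) (av x₀ x₁ y₀ y₁ (k + 1)) := by
  unfold Joins ae av
  by_cases h2 : k < y₁ - y₀
  · rw [if_pos h2, if_pos (by omega), if_pos (by omega)]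
    left
    simp only [ua, ub, if_true, Prod.mk.injEq, true_and]
    omega
  · by_cases h3 : k < y₁ - y₀ + (x₁ - x₀)
    · rw [if_neg h2, if_pos h3]
      left
      by_cases h4 : k = y₁ - y₀
      · rw [if_pos (by omega), if_neg (by omega), if_pos (by omega)]
        simp only [ua, ub, Bool.false_eq_true, if_false, Prod.mk.injEq, and_true]
        omega
      · rw [if_neg (by omega), if_pos (by omega), if_neg (by omega), if_pos (by omega)]
        simp only [ua, ub, Bool.false_eq_true, if_false, Prod.mk.injEq, and_true, true_and]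
        omega
    · rw [if_neg h2, if_neg h3]
      right
      by_cases h4 : k = y₁ - y₀ + (x₁ - x₀)
      · rw [if_neg (by omega), if_pos (by omega), if_neg (by omega), if_neg (by omega)]
        simp only [ua, ub, if_true, Prod.mk.injEq, true_and]
        omega
      · rw [if_neg (by omega), if_neg (by omega), if_neg (by omega), if_neg (by omega)]
        simp only [ua, ub, if_true, Prod.mk.injEq, true_and]
        omega

theorem par_av {x₀ x₁ y₀ y₁ k : ℤ} : par (av x₀ x₁ y₀ y₁ k) = (x₀ + y₀ + k) % 2 := by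
  unfold par av
  split_ifs <;> dsimp only <;> omega

theorem mem_FH {f : ℤ × ℤ} : f ∈ FH N z r ↔ (-N ≤ f.1 ∧ f.1 < N ∧ z.2 ≤ f.2 ∧ f.2 < N) ∧
    ¬ (z.1 - r ≤ f.1 ∧ f.1 < z.1 + r ∧ z.2 - r ≤ f.2 ∧ f.2 < z.2 + r) := by
  unfold FH
  rw [Set.mem_ofPred_eq, mem_RF, mem_BR]

theorem side_ae {F : Set (ℤ × ℤ)} {x₀ x₁ y₀ y₁ k : ℤ} (h0 : 0 ≤ k)
    (h1 : k < 2 * (y₁ - y₀) + (x₁ - x₀)) (hx : x₀ < x₁) (hy : y₀ < y₁)
    (hl : ∀ y, y₀ ≤ y → y < y₁ → (x₀, y) ∈ F ∨ (x₀ - 1, y) ∈ F)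
    (ht : ∀ x, x₀ ≤ x → x < x₁ → (x, y₁) ∈ F ∨ (x, y₁ - 1) ∈ F)
    (hr : ∀ y, y₀ ≤ y → y < y₁ → (x₁, y) ∈ F ∨ (x₁ - 1, y) ∈ F) :
    ∃ f ∈ F, IsSide f (ae x₀ x₁ y₀ y₁ k) := by
  unfold ae
  split_ifs with h2 h3
  · rcases hl (y₀ + k) (by omega) (by omega) with h | h
    · exact ⟨_, h, Or.inr (Or.inl rfl)⟩
    · refine ⟨_, h, Or.inr (Or.inr (Or.inr ?_))⟩
      simp only [ri, sub_add_cancel]
  · rcases ht (x₀ + (k - (y₁ - y₀))) (by omega) (by omega) with h | h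
    · exact ⟨_, h, Or.inl rfl⟩
    · refine ⟨_, h, Or.inr (Or.inr (Or.inl ?_))⟩
      simp only [to', sub_add_cancel]
  · rcases hr (y₁ - (k - (y₁ - y₀) - (x₁ - x₀)) - 1) (by omega) (by omega) with h | h
    · exact ⟨_, h, Or.inr (Or.inl rfl)⟩
    · refine ⟨_, h, Or.inr (Or.inr (Or.inr ?_))⟩
      simp only [ri, sub_add_cancel]

theorem side_oE (hok : Ok N z r) (h0 : 0 ≤ k) (h1 : k < oL N z) :
    ∃ f ∈ FH N z r, IsSide f (oE N z k) := by
  obtain ⟨a1, a2, a3, a4⟩ := hok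
  have b3 := abs_le.1 (show |z.1| ≤ N / 4 by omega)
  have b4 := abs_le.1 (show |z.2| ≤ N / 4 by omega)
  unfold oL at h1
  refine side_ae h0 (by omega) (by omega) (by omega) (fun y h2 h3 => Or.inl ?_)
    (fun x h2 h3 => Or.inr ?_) (fun y h2 h3 => Or.inr ?_)
  · rw [mem_FH]; dsimp only; omega
  · rw [mem_FH]; dsimp only; omega
  · rw [mem_FH]; dsimp only; omega

theorem side_iE (hok : Ok N z r) (h0 : 0 ≤ j) (h1 : j < 4 * r) :
    ∃ f ∈ FH N z r, IsSide f (iE z r j) := by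
  obtain ⟨a1, a2, a3, a4⟩ := hok
  have b3 := abs_le.1 (show |z.1| ≤ N / 4 by omega)
  have b4 := abs_le.1 (show |z.2| ≤ N / 4 by omega)
  refine side_ae h0 (by omega) (by omega) (by omega) (fun y h2 h3 => Or.inr ?_)
    (fun x h2 h3 => Or.inl ?_) (fun y h2 h3 => Or.inl ?_)
  · rw [mem_FH]; dsimp only; omega
  · rw [mem_FH]; dsimp only; omega
  · rw [mem_FH]; dsimp only; omega

theorem joins_oE (hok : Ok N z r) (h0 : 0 ≤ k) (h1 : k < oL N z) :
    Joins (oE N z k) (oV N z k) (oV N z (k + 1)) := by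
  obtain ⟨a1, a2, a3, a4⟩ := hok
  have b4 := abs_le.1 (show |z.2| ≤ N / 4 by omega)
  unfold oL at h1
  exact joins_ae (by omega) (by omega) h0 (by omega)

theorem joins_iE (hr : 1 ≤ r) (h0 : 0 ≤ j) (h1 : j < 4 * r) :
    Joins (iE z r j) (iV z r j) (iV z r (j + 1)) :=
  joins_ae (by omega) (by omega) h0 (by omega)

theorem par_oV : par (oV N z k) = (-N + z.2 + k) % 2 := par_av

/-- The position of the vertices of the inner arc. -/
theorem iV_mem (hr : 1 ≤ r) (h0 : 0 ≤ j) (h1 : j ≤ 4 * r) :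
    z.2 ≤ (iV z r j).2 ∧ (iV z r j).2 ≤ z.2 + r ∧ z.1 - r ≤ (iV z r j).1 ∧
      (iV z r j).1 ≤ z.1 + r ∧
      ((iV z r j).1 = z.1 - r ∨ (iV z r j).1 = z.1 + r ∨ (iV z r j).2 = z.2 + r) := by
  unfold iV av
  split_ifs <;> dsimp only <;> omega

/-- The inner arc is parametrised by arc length. -/
theorem iV_lip (hr : 1 ≤ r) (h0 : 0 ≤ j) (hj : j ≤ j') (h1 : j' ≤ 4 * r) :
    (iV z r j').1 ≤ (iV z r j).1 + (j' - j) ∧ (iV z r j).1 ≤ (iV z r j').1 + (j' - j) ∧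
      (iV z r j').2 ≤ (iV z r j).2 + (j' - j) ∧ (iV z r j).2 ≤ (iV z r j').2 + (j' - j) := by
  unfold iV av
  split_ifs <;> dsimp only <;> omega

/-- The vertices of the upper half of the boundary of the box. -/
theorem exists_iV (hr : 1 ≤ r) {y : ℤ × ℤ} (h1 : z.2 ≤ y.2) (h2 : y.2 ≤ z.2 + r)
    (h3 : z.1 - r ≤ y.1) (h4 : y.1 ≤ z.1 + r)
    (h5 : y.1 = z.1 - r ∨ y.1 = z.1 + r ∨ y.2 = z.2 + r) :
    ∃ t, 0 ≤ t ∧ t ≤ 4 * r ∧ y = iV z r t := by
  obtain ⟨x, y⟩ := y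
  dsimp only at h1 h2 h3 h4 h5
  by_cases h6 : x = z.1 - r
  · refine ⟨y - z.2, by omega, by omega, ?_⟩
    unfold iV av
    rw [if_pos (by omega)]
    refine Prod.ext ?_ ?_ <;> dsimp only <;> omega
  · by_cases h7 : y = z.2 + r
    · refine ⟨r + (x - (z.1 - r)), by omega, by omega, ?_⟩
      unfold iV av
      rw [if_neg (by omega), if_pos (by omega)]
      refine Prod.ext ?_ ?_ <;> dsimp only <;> omega
    · refine ⟨r + 2 * r + (z.2 + r - y), by omega, by omega, ?_⟩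
      unfold iV av
      rw [if_neg (by omega), if_neg (by omega)]
      refine Prod.ext ?_ ?_ <;> dsimp only <;> omega

/-- A vertex of the outer half annulus which is a corner of a face between the boxes is on the
inner arc. -/
theorem exists_arc (hok : Ok N z r) {y f : ℤ × ℤ} (hf : f ∈ FH N z s) (hf' : f ∉ FH N z r)
    (hc : IsCor f y) (hy : y ∈ VF (FH N z r)) : ∃ t, 0 ≤ t ∧ t ≤ 4 * r ∧ y = iV z r t := by
  obtain ⟨f', h1, h2⟩ := hy
  rw [mem_FH] at h1 hf hf'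
  have hr := hok.r1
  unfold IsCor at hc h2
  refine exists_iV hr ?_ ?_ ?_ ?_ ?_ <;> omega

/-- The vertices of the inner arc of radius `s` are not vertices of the outer half annulus. -/
theorem not_VF (hs : 1 ≤ s) (hsr : 2 * s ≤ r) (h0 : 0 ≤ j) (h1 : j ≤ 4 * s) :
    iV z s j ∉ VF (FH N z r) := by
  rintro ⟨f, hf, hc⟩
  have h2 := iV_mem (z := z) hs h0 h1
  rw [mem_FH] at hf
  unfold IsCor at hc
  omega

/-! ### The pair of strands -/

theorem Tip.congr {ω ω' : Cfg} (h : ∀ f ∈ SS ω (FH N z r) (oE N z k), ω f = ω' f)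
    (hω : ω ∈ Tip N z r k j) : ω' ∈ Tip N z r k j := by
  obtain ⟨h1, h2, h3⟩ := hω
  exact ⟨h1, h2, by rw [MM_congr h]; exact h3⟩

/-- The tip is unique. -/
theorem tip_unique (hok : Ok N z r) (hp : Pots N z r) (h : ω ∈ Tip N z r k j)
    (h' : ω ∈ Tip N z r k j') : j' = j := by
  obtain ⟨Φ, h1, -, h3⟩ := hp ω k j h
  obtain ⟨-, ⟨h4, h5⟩, h6⟩ := h'
  obtain ⟨f, hf, hs⟩ := side_iE hok h4 h5
  have h7 := (h1.joins hf hs (joins_iE hok.r1 h4 h5)).1 h6
  rw [h3 j' h4 h5.le, h3 (j' + 1) (by omega) (by omega)] at h7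
  by_contra hne
  apply h7
  by_cases h8 : j' ≤ j
  · rw [if_pos h8, if_pos (by omega)]
  · rw [if_neg h8, if_neg (by omega)]

/-- The two potentials of a pair. -/
theorem duo_of_pair (hok : Ok N z r) (hp : Pots N z r) (h : ω ∈ Pair N z r k k') :
    ∃ (Φ Ψ : ℤ × ℤ → ZMod 2) (j j' : ℤ),
      Duo ω (FH N z r) (oE N z k) (oE N z k') (oV N z (k + 1)) (oV N z k) (oV N z k')
        (oV N z (k' + 1)) Φ Ψ ∧ ω ∈ Tip N z r k j ∧ ω ∈ Tip N z r k' j' ∧ j < j' ∧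
      (∀ t, 0 ≤ t → t ≤ 4 * r → Φ (iV z r t) = if t ≤ j then 0 else 1) ∧
      (∀ t, 0 ≤ t → t ≤ 4 * r → Ψ (iV z r t) = if t ≤ j' then 0 else 1) := by
  obtain ⟨hkk, hpar, ⟨j, hj⟩, ⟨j', hj'⟩⟩ := h
  obtain ⟨Φ, hΦ, hO, hI⟩ := hp ω k j hj
  obtain ⟨Ψ, hΨ, hO', hI'⟩ := hp ω k' j' hj'
  have hj1 := hj
  have hj1' := hj'
  obtain ⟨⟨a1, a2⟩, ⟨t0, t1⟩, hm⟩ := hj
  obtain ⟨⟨a3, a4⟩, ⟨t0', t1'⟩, hm'⟩ := hj'
  have hje := joins_oE hok a1 a2
  have hje' := joins_oE hok a3 a4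
  have hjt' := joins_iE (z := z) hok.r1 t0' t1'
  -- the order of the tips
  have h1 : j ≤ j' := by
    obtain ⟨p, q, hj, hp, hc⟩ := MM_conn hje' hm'
    have h2 := hΦ.conn (hc.mono SS_sub)
    rw [hO k' a3 (by omega), if_neg (by omega)] at h2
    by_contra hlt
    have h4 : Φ (iV z r j') = 0 := by rw [hI j' t0' (by omega), if_pos (by omega)]
    have h5 : Φ (iV z r (j' + 1)) = 0 := by
      rw [hI (j' + 1) (by omega) (by omega), if_pos (by omega)]
    have h6 : p = iV z r j' ∨ p = iV z r (j' + 1) := by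
      rcases hj with ⟨hj1, hj2⟩ | ⟨hj1, hj2⟩ <;> rcases hjt' with ⟨hk1, hk2⟩ | ⟨hk1, hk2⟩
      · left; rw [hj1, hk1]
      · right; rw [hj1, hk2]
      · right; rw [hj1, hk2]
      · left; rw [hj1, hk1]
    rcases h6 with rfl | rfl
    · rw [h4] at h2; exact absurd h2 (by decide)
    · rw [h5] at h2; exact absurd h2 (by decide)
  have h2 : j ≠ j' := by
    rintro rfl
    have h3 : oE N z k' ∈ MM ω (FH N z r) (oE N z k) := MM_trans hm (MM_symm hm')
    obtain ⟨f, hf, hs⟩ := side_oE hok a3 a4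
    have h4 := (hΦ.joins hf hs hje').1 h3
    rw [hO k' a3 (by omega), hO (k' + 1) (by omega) (by omega), if_neg (by omega),
      if_neg (by omega)] at h4
    exact h4 rfl
  refine ⟨Φ, Ψ, j, j', ⟨hΦ, hΨ, side_oE hok a1 a2, side_oE hok a3 a4, hje.symm, hje', ?_,
    ?_, ?_, ?_, ?_, ?_, ?_, ?_, ?_⟩, hj1, hj1', by omega, hI, hI'⟩
  · rw [par_oV, par_oV]; omega
  · rw [hO _ (by omega) (by omega), if_neg (by omega)]
  · rw [hO _ (by omega) (by omega), if_pos (by omega)]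
  · rw [hO _ (by omega) (by omega), if_neg (by omega)]
  · rw [hO _ (by omega) (by omega), if_neg (by omega)]
  · rw [hO' _ (by omega) (by omega), if_pos (by omega)]
  · rw [hO' _ (by omega) (by omega), if_pos (by omega)]
  · rw [hO' _ (by omega) (by omega), if_pos (by omega)]
  · rw [hO' _ (by omega) (by omega), if_neg (by omega)]

/-- The visited faces of the two strands. -/
theorem S2_congr' {ω ω' : Cfg} {F : Set (ℤ × ℤ)} {e e' : UE} (h : ∀ f ∈ S2 ω F e e', ω f = ω' f) :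
    S2 ω' F e e' = S2 ω F e e' := by
  unfold S2
  rw [SS_congr fun f hf => h f (Or.inl hf), SS_congr fun f hf => h f (Or.inr hf)]

theorem Pair.congr {ω ω' : Cfg} (h : ∀ f ∈ S2 ω (FH N z r) (oE N z k) (oE N z k'), ω f = ω' f)
    (hω : ω ∈ Pair N z r k k') : ω' ∈ Pair N z r k k' := by
  obtain ⟨h1, h2, ⟨j, hj⟩, ⟨j', hj'⟩⟩ := hω
  exact ⟨h1, h2, ⟨j, Tip.congr (fun f hf => h f (Or.inl hf)) hj⟩,
    ⟨j', Tip.congr (fun f hf => h f (Or.inr hf)) hj'⟩⟩

/-- A path which leaves a square contains an arm. -/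
theorem arm_of_path {col r ρ : ℤ} {x y z : ℤ × ℤ} {η ξ : Cfg} {F : Set (ℤ × ℤ)} (hr : r ≤ ρ)
    (hy : x.1 - r ≤ y.1 ∧ y.1 ≤ x.1 + r ∧ x.2 - r ≤ y.2 ∧ y.2 ≤ x.2 + r)
    (hpar : (y.1 + y.2 - col) % 2 = 0)
    (hz : ¬ (x.1 - ρ < z.1 ∧ z.1 < x.1 + ρ ∧ x.2 - ρ < z.2 ∧ z.2 < x.2 + ρ))
    (h : Conn η F y z)
    (hξ : ∀ f ∈ F, f ∈ (RF (x.1 - ρ) (x.1 + ρ) (x.2 - ρ) (x.2 + ρ) : Set (ℤ × ℤ)) → η f = ξ f) :
    ξ ∈ ArmB col x r ρ := by
  obtain ⟨v, h1, h2⟩ := Conn.toBd (x₀ := x.1 - ρ) (x₁ := x.1 + ρ) (y₀ := x.2 - ρ)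
    (y₁ := x.2 + ρ) h (by omega) (by omega)
  refine ⟨y, v, hy.1, hy.2.1, hy.2.2.1, hy.2.2.2, hpar, h2, ?_⟩
  have h3 : Conn ξ (F ∩ (RF (x.1 - ρ) (x.1 + ρ) (x.2 - ρ) (x.2 + ρ) : Set (ℤ × ℤ))) y v :=
    GridA.conn_congr _ (fun f hf => hξ f hf.1 hf.2) h1
  exact h3.mono Set.inter_subset_right

/-- Deterministic part. -/
theorem close_det (hok : Ok N z r) (hp : Pots N z r) (hs : 1 ≤ s) (hsr : 2 * s ≤ r)
    (hg : 1 ≤ g) (hgr : g ≤ r - s) {ω η ξ : Cfg} {j : ℤ} (hω : ω ∈ Pair N z r k k')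
    (hj : ω ∈ Tip N z r k j)
    (hη : ∀ f ∈ S2 ω (FH N z r) (oE N z k) (oE N z k'), η f = ω f)
    (hξ : ∀ f, f ∉ S2 ω (FH N z r) (oE N z k) (oE N z k') → η f = ξ f)
    (hηs : η ∈ Pair N z s k k') (hsep : η ∉ SepT N z r g k k') :
    ξ ∈ ArmB (par (oV N z (k + 1))) (iV z r j) g (r - s) := by
  obtain ⟨Φ, Ψ, j₁, j', hD, hj₁, hj', hjj, hI, hI'⟩ := duo_of_pair hok hp hω
  obtain rfl : j₁ = j := tip_unique hok hp hj hj₁
  -- the tips are close
  have hclose : j' ≤ j₁ + g := by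
    by_contra hcon
    apply hsep
    intro t t' ht ht'
    have e1 := tip_unique hok hp hj₁ (Tip.congr (ω' := ω) (fun f hf => hη f ?_) ht)
    · have e2 := tip_unique hok hp hj' (Tip.congr (ω' := ω) (fun f hf => hη f ?_) ht')
      · omega
      · rw [SS_congr (ω := ω) fun f hf => (hη f (Or.inr hf)).symm] at hf
        exact Or.inr hf
    · rw [SS_congr (ω := ω) fun f hf => (hη f (Or.inl hf)).symm] at hf
      exact Or.inl hf
  -- the path in the smaller half annulus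
  obtain ⟨-, -, ⟨i, hi⟩, -⟩ := hηs
  obtain ⟨⟨a1, a2⟩, ⟨i0, i1⟩, hm⟩ := hi
  have hje := joins_oE hok a1 a2
  obtain ⟨p, q, hpq, hpar, hc⟩ := MM_conn hje.symm hm
  have hpi : p = iV z s i ∨ p = iV z s (i + 1) := by
    have hji := joins_iE (z := z) hs i0 i1
    rcases hpq with ⟨b1, b2⟩ | ⟨b1, b2⟩ <;> rcases hji with ⟨c1, c2⟩ | ⟨c1, c2⟩
    · left; rw [b1, c1]
    · right; rw [b1, c2]
    · right; rw [b1, c2]
    · left; rw [b1, c1]
  have hpVF : p ∉ VF (FH N z r) := by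
    rcases hpi with rfl | rfl
    · exact not_VF hs hsr i0 i1.le
    · exact not_VF hs hsr (by omega) (by omega)
  have hpos : z.2 ≤ p.2 ∧ p.2 ≤ z.2 + s ∧ z.1 - s ≤ p.1 ∧ p.1 ≤ z.1 + s := by
    rcases hpi with rfl | rfl
    · have := iV_mem (z := z) hs i0 i1.le
      omega
    · have := iV_mem (z := z) hs (by omega : 0 ≤ i + 1) (by omega)
      omega
  obtain ⟨y, hyF, hyΦ, hyΨ, hyp, ⟨f, hfG, hfF, hfc⟩, hyz⟩ :=
    hD.nearP hη hpVF (hc.mono SS_sub)
  obtain ⟨t, ht0, ht1, rfl⟩ := exists_arc hok hfG hfF hfc hyF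
  have ht2 : j₁ < t := by
    by_contra hcon
    rw [hI t ht0 ht1, if_pos (by omega)] at hyΦ
    exact zero_ne_one hyΦ
  have ht3 : t ≤ j' := by
    by_contra hcon
    rw [hI' t ht0 ht1, if_neg (by omega)] at hyΨ
    exact one_ne_zero hyΨ
  have hj0 : 0 ≤ j₁ := hj₁.2.1.1
  have hlip := iV_lip (z := z) hok.r1 hj0 ht2.le ht1
  have hx := iV_mem (z := z) hok.r1 hj0 (by have := hj₁.2.1.2; omega)
  refine arm_of_path hgr (by omega) ?_ ?_ hyz fun f hf _ => hξ f hf.2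
  · rw [← hyp]
    unfold par
    omega
  · omega

end P3Aux

open P3Aux

/-- **P3** from the potentials and P6. -/
theorem p3_of (hpots : ∀ (N : ℤ) (z : ℤ × ℤ) (r : ℤ), Ok N z r → Pots N z r) (h6 : P6) : P3 := by
  classical
  obtain ⟨C, β, hC, hβ, hone⟩ := oneArm_le
  have hC' : 0 < max C 1 := lt_of_lt_of_le one_pos (le_max_right _ _)
  refine ⟨max C 1 * 2 ^ β, β, by positivity, hβ, ?_⟩
  intro N z r s g k k' W hok hs hsr hg hW
  have hp := hpots N z r hok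
  have hr1 := hok.r1
  have hr0 : (0 : ℝ) < r := by exact_mod_cast (show (0 : ℤ) < r by omega)
  have hg0 : (0 : ℝ) < g := by exact_mod_cast (show (0 : ℤ) < g by omega)
  have hsub : Pair N z s k k' ⊆ Pair N z r k k' := h6 N z r s k k' hok hs (by omega)
  have hrpow : max C 1 * ((g : ℝ) / (r - s : ℤ)) ^ β ≤ max C 1 * 2 ^ β * ((g : ℝ) / r) ^ β := by
    rw [mul_assoc, ← Real.mul_rpow (by norm_num) (by positivity)]
    have h2 : (r : ℝ) ≤ 2 * ((r - s : ℤ) : ℝ) := by exact_mod_cast (by omega : r ≤ 2 * (r - s))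
    have h3 : (0 : ℝ) < ((r - s : ℤ) : ℝ) := by linarith
    refine mul_le_mul_of_nonneg_left (Real.rpow_le_rpow (by positivity) ?_ hβ.le) hC'.le
    rw [mul_div_assoc', div_le_div_iff₀ h3 hr0]
    nlinarith
  by_cases hgr : g ≤ r - s
  · -- the main case
    have h1 : pr W (Pair N z r k k' ∩ (Pair N z s k k' ∩ (SepT N z r g k k')ᶜ)) ≤
        C * ((g : ℝ) / (r - s : ℤ)) ^ β * pr W (Pair N z r k k') := by
      refine pr_mix_le (S := fun ω => S2 ω (FH N z r) (oE N z k) (oE N z k'))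
        (fun ω ω' h => S2_congr' h) (fun ω hω ω' h => Pair.congr h hω)
        (fun ω => {ξ | ∀ j, ω ∈ Tip N z r k j →
          ξ ∈ ArmB (par (oV N z (k + 1))) (iV z r j) g (r - s)}) _ ?_ ?_
      · intro ω hω
        obtain ⟨-, -, ⟨j, hj⟩, -⟩ := hω
        have h7 : {ξ : Cfg | ∀ j, ω ∈ Tip N z r k j →
            ξ ∈ ArmB (par (oV N z (k + 1))) (iV z r j) g (r - s)} ⊆
            ArmB (par (oV N z (k + 1))) (iV z r j) g (r - s) := fun ξ hξ => hξ j hj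
        refine (pr_mono _ h7).trans (hone _ _ _ _ hg hgr W ?_)
        refine Finset.Subset.trans (fun f hf => ?_) hW
        have hx := iV_mem (z := z) hr1 hj.2.1.1 hj.2.1.2.le
        obtain ⟨a1, a2, a3, a4⟩ := hok
        have b3 := abs_le.1 (show |z.1| ≤ N / 4 by omega)
        have b4 := abs_le.1 (show |z.2| ≤ N / 4 by omega)
        unfold QF at hf
        rw [mem_RF] at hf
        rw [mem_BR]
        dsimp only
        omega
      · intro ω hω ξ hX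
        refine fun j hj => close_det hok hp hs hsr hg hgr hω hj (fun f hf => mix_of_mem hf)
          (fun f hf => mix_of_notMem hf) hX.1 hX.2
    have h8 : Pair N z s k k' ∩ (SepT N z r g k k')ᶜ ⊆
        Pair N z r k k' ∩ (Pair N z s k k' ∩ (SepT N z r g k k')ᶜ) :=
      fun ω hω => ⟨hsub hω.1, hω⟩
    refine (pr_mono _ h8).trans (h1.trans ?_)
    refine mul_le_mul_of_nonneg_right (le_trans ?_ hrpow) (pr_nonneg _ _)
    have h3 : (0 : ℝ) < ((r - s : ℤ) : ℝ) := by exact_mod_cast (by omega : (0 : ℤ) < r - s)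
    exact mul_le_mul_of_nonneg_right (le_max_left _ _) (by positivity)
  · -- trivial case
    have h8 : Pair N z s k k' ∩ (SepT N z r g k k')ᶜ ⊆ Pair N z r k k' :=
      fun ω hω => hsub hω.1
    refine (pr_mono _ h8).trans ?_
    have h3 : (0 : ℝ) < ((r - s : ℤ) : ℝ) := by exact_mod_cast (by omega : (0 : ℤ) < r - s)
    have h4 : (1 : ℝ) ≤ (g : ℝ) / (r - s : ℤ) := by
      rw [one_le_div h3]
      exact_mod_cast (by omega : r - s ≤ g)
    have h5 : (1 : ℝ) ≤ max C 1 * ((g : ℝ) / (r - s : ℤ)) ^ β :=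
      one_le_mul_of_one_le_of_one_le (le_max_right _ _) (Real.one_le_rpow h4 hβ.le)
    have h6 := le_trans h5 hrpow
    have h7 := pr_nonneg W (Pair N z r k k')
    nlinarith

end Pool.Agent.SixB.A2
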