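import Pool.Agent.Lib.SixB.A2P4b

/-!
# 6BD, item (A2), row P4: separated pairs can be closed below

`Barrier` is the statement on the barrier below the line (row P4a). `p4_of`: P4 from the barrier.
-/

set_option autoImplicit false

namespace Pool.Agent.SixB.A2

open Finset Pool.Agent.Perc Pool.Agent.PercD Pool.Agent.Perc6 P3Aux
open Pool.Agent.PercT (pr_mix mix mix_of_mem mix_of_notMem)

variable {ω η ξ : Cfg} {N r g k k' col : ℤ} {z : ℤ × ℤ}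

/-- Row P4a: a circuit of the colour of `oV k` around the box makes a barrier. -/
def Barrier : Prop := ∀ (N : ℤ) (z : ℤ × ℤ) (r k k' : ℤ), Ok N z r → ∀ ω ∈ Pair N z r k k',
  ∀ ξ ∈ Blk (par (oV N z k) + 1) z (2 * r),
    mix (S2 ω (FH N z r) (oE N z k) (oE N z k')) ω ξ ∈
      E2 N z r (oV N z (k + 1)) ∩ E2 N z r (oV N z k')

namespace P4Aux

theorem tub_pr (D : ℤ) (A : Fin 3 → Set Cfg) {S : Finset (ℤ × ℤ)} {c : ℝ} (hc : 0 < c)
    (h1 : ∀ i, DepOn (S : Set (ℤ × ℤ)) (A i)) (h2 : ∀ i, IncD (parD D) (A i))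
    (h3 : ∀ i, c ≤ pr S (A i)) : c ^ 3 ≤ pr S {ω | ∀ i, ω ∈ A i} := by
  have h := harris_list (parD D) (univ : Finset (Fin 3)) A (fun i _ => h1 i) (fun i _ => h2 i)
  have h4 : c ^ 3 ≤ ∏ i, pr S (A i) := by
    have h5 : c ^ 3 = ∏ _i : Fin 3, c := by rw [prod_const, card_univ, Fintype.card_fin]
    rw [h5]
    exact prod_le_prod (fun _ _ => hc.le) fun i _ => h3 i
  refine h4.trans (h.trans (pr_mono _ fun ω hω i => hω i (mem_univ _)))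

/-- The probability of the tubes. -/
theorem pr_tub (n : ℕ) : ∃ c : ℝ, 0 < c ∧ ∀ (col : ℤ) (z : ℤ × ℤ) (r : ℤ), 1 ≤ r →
    (∀ x₀ x₁ : ℤ, z.1 - r ≤ x₀ → x₀ < x₁ → x₁ ≤ z.1 + r → 4 * r ≤ n * (x₁ - x₀) →
      DepOn (BR z (2 * r) : Set (ℤ × ℤ)) (TubT col z r x₀ x₁) ∧
        c ≤ pr (BR z (2 * r)) (TubT col z r x₀ x₁)) ∧
    (∀ y₀ y₁ : ℤ, z.2 ≤ y₀ → y₀ < y₁ → y₁ ≤ z.2 + r → 4 * r ≤ n * (y₁ - y₀) →
      (DepOn (BR z (2 * r) : Set (ℤ × ℤ)) (TubL col z r y₀ y₁) ∧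
        c ≤ pr (BR z (2 * r)) (TubL col z r y₀ y₁)) ∧
      (DepOn (BR z (2 * r) : Set (ℤ × ℤ)) (TubR col z r y₀ y₁) ∧
        c ≤ pr (BR z (2 * r)) (TubR col z r y₀ y₁))) := by
  obtain ⟨c₁, hc1, hL⟩ := rswF (n + 4)
  obtain ⟨c₂, hc2, hB⟩ := rswF' (n + 4)
  set c' := min c₁ c₂ with hc'
  have hc0 : 0 < c' := lt_min hc1 hc2
  refine ⟨c' ^ 3, by positivity, fun col z r hr => ?_⟩
  have sub : ∀ {x₀ x₁ y₀ y₁ : ℤ}, z.1 - 2 * r ≤ x₀ → x₁ ≤ z.1 + 2 * r → z.2 - 2 * r ≤ y₀ →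
      y₁ ≤ z.2 + 2 * r → RF x₀ x₁ y₀ y₁ ⊆ BR z (2 * r) := by
    intro x₀ x₁ y₀ y₁ h1 h2 h3 h4 f hf
    rw [mem_RFi] at hf
    rw [mem_BR]
    omega
  have gL : ∀ {x₀ x₁ y₀ y₁ : ℤ}, z.1 - 2 * r ≤ x₀ → x₁ ≤ z.1 + 2 * r → z.2 - 2 * r ≤ y₀ →
      y₁ ≤ z.2 + 2 * r → x₀ < x₁ → y₀ < y₁ →
      (x₁ - x₀ ≤ 4 * r ∧ 4 * r ≤ n * (y₁ - y₀) ∨ x₁ - x₀ ≤ 4 * (y₁ - y₀)) →
      DepOn (BR z (2 * r) : Set (ℤ × ℤ)) (LR col x₀ x₁ y₀ y₁) ∧ IncD (parD col) (LR col x₀ x₁ y₀ y₁) ∧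
        c' ≤ pr (BR z (2 * r)) (LR col x₀ x₁ y₀ y₁) := by
    intro x₀ x₁ y₀ y₁ h1 h2 h3 h4 hx hy hk
    have hs := sub h1 h2 h3 h4
    refine ⟨depOn_mono' (depOn_LR _ _ _ _ _) (by exact_mod_cast hs), incD_LR _ _ _ _ _, ?_⟩
    rw [pr_eq_of_depOn (depOn_LR _ _ _ _ _) hs]
    refine (min_le_left _ _).trans (hL _ _ _ _ _ hx hy ?_)
    push_cast
    have h0 : (0 : ℤ) ≤ n * (y₁ - y₀) := mul_nonneg (by positivity) (by omega)
    have e : ((n : ℤ) + 4) * (y₁ - y₀) = n * (y₁ - y₀) + 4 * (y₁ - y₀) := by ring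
    rw [e]
    omega
  have gB : ∀ {x₀ x₁ y₀ y₁ : ℤ}, z.1 - 2 * r ≤ x₀ → x₁ ≤ z.1 + 2 * r → z.2 - 2 * r ≤ y₀ →
      y₁ ≤ z.2 + 2 * r → x₀ < x₁ → y₀ < y₁ →
      (y₁ - y₀ ≤ 4 * r ∧ 4 * r ≤ n * (x₁ - x₀) ∨ y₁ - y₀ ≤ 4 * (x₁ - x₀)) →
      DepOn (BR z (2 * r) : Set (ℤ × ℤ)) (BT col x₀ x₁ y₀ y₁) ∧ IncD (parD col) (BT col x₀ x₁ y₀ y₁) ∧
        c' ≤ pr (BR z (2 * r)) (BT col x₀ x₁ y₀ y₁) := by
    intro x₀ x₁ y₀ y₁ h1 h2 h3 h4 hx hy hk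
    have hs := sub h1 h2 h3 h4
    refine ⟨depOn_mono' (depOn_BT _ _ _ _ _) (by exact_mod_cast hs), incD_BT' _ _ _ _ _, ?_⟩
    rw [pr_eq_of_depOn (depOn_BT _ _ _ _ _) hs]
    refine (min_le_right _ _).trans (hB _ _ _ _ _ hx hy ?_)
    push_cast
    have h0 : (0 : ℤ) ≤ n * (x₁ - x₀) := mul_nonneg (by positivity) (by omega)
    have e : ((n : ℤ) + 4) * (x₁ - x₀) = n * (x₁ - x₀) + 4 * (x₁ - x₀) := by ring
    rw [e]
    omega
  have dep3 : ∀ {A B C : Set Cfg}, DepOn (BR z (2 * r) : Set (ℤ × ℤ)) A →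
      DepOn (BR z (2 * r) : Set (ℤ × ℤ)) B → DepOn (BR z (2 * r) : Set (ℤ × ℤ)) C →
      DepOn (BR z (2 * r) : Set (ℤ × ℤ)) {ω | ω ∈ A ∧ ω ∈ B ∧ ω ∈ C} := by
    intro A B C hA hB hC ω ω' h
    exact and_congr (hA ω ω' h) (and_congr (hB ω ω' h) (hC ω ω' h))
  have pr3 : ∀ {A B C : Set Cfg},
      (DepOn (BR z (2 * r) : Set (ℤ × ℤ)) A ∧ IncD (parD col) A ∧ c' ≤ pr (BR z (2 * r)) A) →
      (DepOn (BR z (2 * r) : Set (ℤ × ℤ)) B ∧ IncD (parD col) B ∧ c' ≤ pr (BR z (2 * r)) B) →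
      (DepOn (BR z (2 * r) : Set (ℤ × ℤ)) C ∧ IncD (parD col) C ∧ c' ≤ pr (BR z (2 * r)) C) →
      DepOn (BR z (2 * r) : Set (ℤ × ℤ)) {ω | ω ∈ A ∧ ω ∈ B ∧ ω ∈ C} ∧
        c' ^ 3 ≤ pr (BR z (2 * r)) {ω | ω ∈ A ∧ ω ∈ B ∧ ω ∈ C} := by
    intro A B C hA hB hC
    refine ⟨dep3 hA.1 hB.1 hC.1, ?_⟩
    have h := tub_pr col ![A, B, C] hc0 (S := BR z (2 * r))
      (fun i => by fin_cases i; exacts [hA.1, hB.1, hC.1])
      (fun i => by fin_cases i; exacts [hA.2.1, hB.2.1, hC.2.1])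
      (fun i => by fin_cases i; exacts [hA.2.2, hB.2.2, hC.2.2])
    exact h.trans (pr_mono _ fun ω hω => ⟨hω 0, hω 1, hω 2⟩)
  refine ⟨fun x₀ x₁ h1 h2 h3 h4 => ?_, fun y₀ y₁ h1 h2 h3 h4 => ⟨?_, ?_⟩⟩
  · exact pr3 (gB (by omega) (by omega) (by omega) (by omega) (by omega) (by omega)
      (Or.inl ⟨by omega, h4⟩))
      (gL (by omega) (by omega) (by omega) (by omega) (by omega) (by omega) (Or.inr (by omega)))
      (gB (by omega) (by omega) (by omega) (by omega) (by omega) (by omega) (Or.inr (by omega)))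
  · exact pr3 (gL (by omega) (by omega) (by omega) (by omega) (by omega) (by omega)
      (Or.inl ⟨by omega, h4⟩))
      (gB (by omega) (by omega) (by omega) (by omega) (by omega) (by omega) (Or.inr (by omega)))
      (gB (by omega) (by omega) (by omega) (by omega) (by omega) (by omega) (Or.inr (by omega)))
  · exact pr3 (gL (by omega) (by omega) (by omega) (by omega) (by omega) (by omega)
      (Or.inl ⟨by omega, h4⟩))
      (gB (by omega) (by omega) (by omega) (by omega) (by omega) (by omega) (Or.inr (by omega)))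
      (gB (by omega) (by omega) (by omega) (by omega) (by omega) (by omega) (Or.inr (by omega)))

/-- The vertices of the inner arc. -/
theorem iV_left {z : ℤ × ℤ} {r y : ℤ} (h1 : y ≤ z.2 + r) : iV z r (y - z.2) = (z.1 - r, y) := by
  unfold iV av
  rw [if_pos (by omega)]
  exact Prod.ext rfl (by simp only; omega)

theorem iV_top {z : ℤ × ℤ} {r x : ℤ} (h0 : z.1 - r < x) (h1 : x ≤ z.1 + r) :
    iV z r (x - z.1 + 2 * r) = (x, z.2 + r) := by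
  unfold iV av
  rw [if_neg (by omega), if_pos (by omega)]
  exact Prod.ext (by simp only; omega) rfl

theorem iV_right {z : ℤ × ℤ} {r y : ℤ} (hr : 1 ≤ r) (h1 : y < z.2 + r) :
    iV z r (z.2 + 4 * r - y) = (z.1 + r, y) := by
  unfold iV av
  rw [if_neg (by omega), if_neg (by omega)]
  exact Prod.ext rfl (by simp only; omega)

/-- The tubes for a separated pair. -/
theorem exists_tub {n : ℕ} {c : ℝ}
    (hc : ∀ (col : ℤ) (z : ℤ × ℤ) (r : ℤ), 1 ≤ r →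
    (∀ x₀ x₁ : ℤ, z.1 - r ≤ x₀ → x₀ < x₁ → x₁ ≤ z.1 + r → 4 * r ≤ n * (x₁ - x₀) →
      DepOn (BR z (2 * r) : Set (ℤ × ℤ)) (TubT col z r x₀ x₁) ∧
        c ≤ pr (BR z (2 * r)) (TubT col z r x₀ x₁)) ∧
    (∀ y₀ y₁ : ℤ, z.2 ≤ y₀ → y₀ < y₁ → y₁ ≤ z.2 + r → 4 * r ≤ n * (y₁ - y₀) →
      (DepOn (BR z (2 * r) : Set (ℤ × ℤ)) (TubL col z r y₀ y₁) ∧
        c ≤ pr (BR z (2 * r)) (TubL col z r y₀ y₁)) ∧
      (DepOn (BR z (2 * r) : Set (ℤ × ℤ)) (TubR col z r y₀ y₁) ∧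
        c ≤ pr (BR z (2 * r)) (TubR col z r y₀ y₁))))
    (hN : Ok N z r) (hg : 100 ≤ g) (hgr : 4 * r ≤ n * (g / 4)) (hω : ω ∈ Pair N z r k k')
    (hs : ω ∈ SepT N z r g k k') :
    ∃ B : Set Cfg, DepOn (BR z (2 * r) : Set (ℤ × ℤ)) B ∧ c ≤ pr (BR z (2 * r)) B ∧
      ∀ ξ ∈ B, ∀ η : Cfg,
        (∀ f ∈ S2 ω (FH N z r) (oE N z k) (oE N z k'), η f = ω f) →
        (∀ f ∈ BR z (2 * r), f ∉ S2 ω (FH N z r) (oE N z k) (oE N z k') → η f = ξ f) →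
        Low N z r η (oV N z (k + 1)) ∨ Low N z r η (oV N z k') := by
  obtain ⟨Φ, Ψ, j, j', hD, hj, hj', hjj, -, -, hI, hI', hl, hr⟩ := duo_pair hN hω
  have hsep := hs j j' hj hj'
  have hj0 : 0 ≤ j := hj.2.1.1
  have hj1 : j' < 4 * r := hj'.2.1.2
  have hr1 := hN.r1
  have k1 := hN.abs1
  have k3 := hN.rN
  obtain ⟨hct, hcs⟩ := hc ((oV N z (k + 1)).1 + (oV N z (k + 1)).2) z r hr1
  have hmid : ∀ t, j + 1 ≤ t → t ≤ j' → Φ (iV z r t) = 1 ∧ Ψ (iV z r t) = 0 := by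
    intro t t1 t2
    rw [hI t (by omega) (by omega), hI' t (by omega) (by omega), if_neg (by omega),
      if_pos (by omega)]
    exact ⟨rfl, rfl⟩
  have hcol : ((oV N z (k + 1)).1 + (oV N z (k + 1)).2 -
      ((oV N z (k + 1)).1 + (oV N z (k + 1)).2)) % 2 = 0 := by
    rw [sub_self]; rfl
  have hfl : ∀ x, z.1 - 2 * r ≤ x → x ≤ z.1 - r → Φ (x, z.2) = 0 :=
    fun x h1 h2 => (hl x (by omega) h2).1
  have hfr : ∀ x, z.1 + r ≤ x → x ≤ z.1 + 2 * r → Ψ (x, z.2) = 1 :=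
    fun x h1 h2 => (hr x h1 (by omega)).2
  have hchoice : (j + 1 + g / 4 ≤ r - 1) ∨
      (max (j + 1) (r + 1) + g / 4 ≤ j' ∧ max (j + 1) (r + 1) + g / 4 ≤ 3 * r - 1) ∨
      (max (j + 1) (3 * r + 1) + g / 4 ≤ j') := by omega
  rcases hchoice with h1 | ⟨h1, h2⟩ | h1
  · -- left side
    obtain ⟨⟨hd, hp⟩, -⟩ := hcs (z.2 + (j + 1)) (z.2 + (j + 1) + g / 4) (by omega) (by omega)
      (by omega) (by rw [add_sub_cancel_left]; exact hgr)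
    refine ⟨_, hd, hp, fun ξ hξ η he1 he2 => Or.inl ?_⟩
    refine low_of_left hN hD he1 he2 hcol (by omega) (by omega) (by omega) hξ ?_ hfl
    intro y y1 y2
    have := hmid (y - z.2) (by omega) (by omega)
    rwa [iV_left (by omega)] at this
  · -- upper side
    set m := max (j + 1) (r + 1) with hm
    obtain ⟨hd, hp⟩ := hct (z.1 - 2 * r + m) (z.1 - 2 * r + m + g / 4) (by omega) (by omega)
      (by omega) (by rw [add_sub_cancel_left]; exact hgr)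
    refine ⟨_, hd, hp, fun ξ hξ η he1 he2 => Or.inl ?_⟩
    refine low_of_top hN hD he1 he2 hcol (by omega) (by omega) (by omega) hξ ?_ hfl
    intro x x1 x2
    have := hmid (x - z.1 + 2 * r) (by omega) (by omega)
    rwa [iV_top (by omega) (by omega)] at this
  · -- right side
    set m := max (j + 1) (3 * r + 1) with hm
    obtain ⟨-, hd, hp⟩ := hcs (z.2 + 4 * r - m - g / 4) (z.2 + 4 * r - m) (by omega) (by omega)
      (by omega) (by rw [sub_sub_cancel]; exact hgr)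
    refine ⟨_, hd, hp, fun ξ hξ η he1 he2 => Or.inr ?_⟩
    refine low_of_right hN hD he1 he2 hcol (by omega) (by omega) (by omega) hξ ?_ hfr
    intro y y1 y2
    have := hmid (z.2 + 4 * r - y) (by omega) (by omega)
    rwa [iV_right hr1 (by omega)] at this

end P4Aux

open P4Aux

/-- **P4** from the barrier. -/
theorem p4_of (hbar : Barrier) : P4 := by
  intro K
  obtain ⟨c₁, hc1, htub⟩ := pr_tub (20 * K)
  obtain ⟨c₂, hc2, hblk⟩ := pr_Blk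
  refine ⟨c₁ * c₂, by positivity, ?_⟩
  intro N z r g k k' W hN hKg hg hW
  have hr1 := hN.r1
  have hgr : 4 * r ≤ ((20 * K : ℕ) : ℤ) * (g / 4) := by
    push_cast
    have h1 : g ≤ 5 * (g / 4) := by omega
    have h2 : (K : ℤ) * g ≤ K * (5 * (g / 4)) := mul_le_mul_of_nonneg_left h1 (by positivity)
    have h3 : (20 * (K : ℤ)) * (g / 4) = 4 * (K * (5 * (g / 4))) := by ring
    rw [h3]
    omega
  classical
  set A : Set Cfg := Pair N z r k k' ∩ SepT N z r g k k' with hA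
  have key : ∀ ω ∈ A, ∃ B : Set Cfg, DepOn (BR z (2 * r) : Set (ℤ × ℤ)) B ∧
      c₁ ≤ pr (BR z (2 * r)) B ∧ ∀ ξ ∈ B, ∀ η : Cfg,
        (∀ f ∈ S2 ω (FH N z r) (oE N z k) (oE N z k'), η f = ω f) →
        (∀ f ∈ BR z (2 * r), f ∉ S2 ω (FH N z r) (oE N z k) (oE N z k') → η f = ξ f) →
        Low N z r η (oV N z (k + 1)) ∨ Low N z r η (oV N z k') :=
    fun ω hω => exists_tub htub hN hg hgr hω.1 hω.2
  choose! B hB1 hB2 hB3 using key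
  refine pr_mix (S := fun ω => S2 ω (FH N z r) (oE N z k) (oE N z k'))
    (fun ω ω' h => S2_congr' h) A (fun ω => B ω ∩ Blk (par (oV N z k) + 1) z (2 * r)) _ ?_ ?_
  · intro ω hω
    have hsub1 : BR z (2 * r) ⊆ W := by
      refine Finset.Subset.trans (fun f hf => ?_) hW
      rw [mem_BR] at hf
      exact Finset.mem_coe.1 (near_sub_BR hN hf.1 hf.2.1 hf.2.2.1 hf.2.2.2)
    have hsub2 : RFb z (4 * (2 * r)) \ RFb z (2 * r) ⊆ W := by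
      refine Finset.Subset.trans (fun f hf => ?_) hW
      have h1 := (mem_sdiff.1 hf).1
      rw [mem_RFb] at h1
      have k1 := hN.abs1
      have k2 := hN.abs2
      have k3 := hN.rN
      rw [mem_BR]
      simp only
      omega
    have hdis : Disjoint (BR z (2 * r)) (RFb z (4 * (2 * r)) \ RFb z (2 * r)) := by
      rw [Finset.disjoint_left]
      intro f hf hf'
      have h1 := (mem_sdiff.1 hf').2
      rw [mem_BR] at hf
      exact h1 (mem_RFb.2 hf)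
    rw [pr_indep (hB1 ω hω) (depOn_Blk (by omega)) hdis hsub1 hsub2]
    exact mul_le_mul (hB2 ω hω) (hblk _ _ _ _ (by omega) Finset.Subset.rfl) hc2.le
      (pr_nonneg _ _)
  · intro ω hω ξ hξ
    have hE2 := hbar N z r k k' hN ω hω.1 ξ hξ.2
    have hlow := hB3 ω hω ξ hξ.1 (mix (S2 ω (FH N z r) (oE N z k) (oE N z k')) ω ξ)
      (fun f hf => mix_of_mem hf) (fun f _ hf => mix_of_notMem hf)
    refine ⟨Pair.congr (fun f hf => (mix_of_mem hf).symm) hω.1, ?_⟩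
    rcases hlow with ⟨y, h1, h2, h3, h4⟩ | ⟨y, h1, h2, h3, h4⟩
    · exact Or.inl ⟨⟨y, h1, h2, h3, h4⟩, hE2.1⟩
    · exact Or.inr ⟨⟨y, h1, h2, h3, h4⟩, hE2.2⟩

end Pool.Agent.SixB.A2
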