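import Pool.Agent.Lib.SixB.A2Pot

/-!
# 6BD, item (A2), row P4: separated pairs can be closed below

Two strands `e`, `e'` cross the half annulus, `Φ`, `Ψ` are their potentials (`Duo`): `Φ = 0` on the
left floor, `Ψ = 1` on the right floor, `Φ = 1`, `Ψ = 0` on a straight piece of the inner arc. Tubes
of the colour of the middle cluster through this piece join the middle cluster to a vertex of the
box which is not above the line.
-/

set_option autoImplicit false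

namespace Pool.Agent.SixB.A2

open Finset Pool.Agent.Perc Pool.Agent.PercD Pool.Agent.Perc6 Pool.Agent.PercN P3Aux

variable {ω η ξ : Cfg} {e e' : UE} {u v u' v' : ℤ × ℤ} {Φ Ψ : ℤ × ℤ → ZMod 2} {N r col : ℤ}
  {z : ℤ × ℤ}

theorem VF_FH_up {w : ℤ × ℤ} (hw : w ∈ VF (FH N z r)) : z.2 ≤ w.2 := by
  obtain ⟨f, hf, hc⟩ := hw
  rw [mem_FH] at hf
  unfold IsCor at hc
  omega

theorem VF_FH_out {w : ℤ × ℤ} (hw : w ∈ VF (FH N z r)) :
    ¬ (z.1 - r < w.1 ∧ w.1 < z.1 + r ∧ z.2 - r < w.2 ∧ w.2 < z.2 + r) := by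
  obtain ⟨f, hf, hc⟩ := hw
  rw [mem_FH] at hf
  unfold IsCor at hc
  omega

/-- The tubes in the case of a piece of the upper side. -/
def TubT (col : ℤ) (z : ℤ × ℤ) (r x₀ x₁ : ℤ) : Set Cfg :=
  {ω | ω ∈ BT col x₀ x₁ (z.2 - 2 * r) (z.2 + 2 * r) ∧
    ω ∈ LR col (z.1 - 2 * r) (z.1 + 2 * r) (z.2 + r) (z.2 + 2 * r) ∧
    ω ∈ BT col (z.1 - 2 * r) (z.1 - r) z.2 (z.2 + 2 * r)}

/-- The tubes in the case of a piece of the left side. -/
def TubL (col : ℤ) (z : ℤ × ℤ) (r y₀ y₁ : ℤ) : Set Cfg :=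
  {ω | ω ∈ LR col (z.1 - 2 * r) z.1 y₀ y₁ ∧
    ω ∈ BT col (z.1 - 2 * r) (z.1 - r) z.2 (z.2 + 2 * r) ∧
    ω ∈ BT col (z.1 - r) z.1 (z.2 - 2 * r) (z.2 + r)}

/-- The tubes in the case of a piece of the right side. -/
def TubR (col : ℤ) (z : ℤ × ℤ) (r y₀ y₁ : ℤ) : Set Cfg :=
  {ω | ω ∈ LR col z.1 (z.1 + 2 * r) y₀ y₁ ∧
    ω ∈ BT col (z.1 + r) (z.1 + 2 * r) z.2 (z.2 + 2 * r) ∧
    ω ∈ BT col z.1 (z.1 + r) (z.2 - 2 * r) (z.2 + r)}

/-- The vertex found by the tubes. -/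
def Low (N : ℤ) (z : ℤ × ℤ) (r : ℤ) (η : Cfg) (u : ℤ × ℤ) : Prop :=
  ∃ y, Conn η (BR (0, 0) N : Set (ℤ × ℤ)) u y ∧ y.2 ≤ z.2 ∧ |y.1 - z.1| ≤ 8 * r ∧
    |y.2 - z.2| ≤ 8 * r

theorem FH_sub_BR (hN : Ok N z r) : FH N z r ⊆ (BR (0, 0) N : Set (ℤ × ℤ)) := by
  intro f hf
  rw [mem_FH] at hf
  have h2 := hN.abs2
  have h3 := hN.rN
  have h4 := hN.r1
  rw [Finset.mem_coe, mem_BR]
  simp only
  omega

theorem near_sub_BR (hN : Ok N z r) {f : ℤ × ℤ} (h1 : z.1 - 2 * r ≤ f.1) (h2 : f.1 < z.1 + 2 * r)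
    (h3 : z.2 - 2 * r ≤ f.2) (h4 : f.2 < z.2 + 2 * r) : f ∈ (BR (0, 0) N : Set (ℤ × ℤ)) := by
  have k1 := hN.abs1
  have k2 := hN.abs2
  have k3 := hN.rN
  have k4 := hN.r1
  rw [Finset.mem_coe, mem_BR]
  simp only
  omega

theorem low_of_top (hN : Ok N z r) (hD : Duo ω (FH N z r) e e' u v u' v' Φ Ψ)
    (hη : ∀ f ∈ S2 ω (FH N z r) e e', η f = ω f)
    (hξ : ∀ g ∈ BR z (2 * r), g ∉ S2 ω (FH N z r) e e' → η g = ξ g)
    (hcol : (u.1 + u.2 - col) % 2 = 0) {x₀ x₁ : ℤ} (hx0 : z.1 - r < x₀) (hx : x₀ < x₁)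
    (hx1 : x₁ < z.1 + r) (hT : ξ ∈ TubT col z r x₀ x₁)
    (hmid : ∀ x, x₀ ≤ x → x ≤ x₁ → Φ (x, z.2 + r) = 1 ∧ Ψ (x, z.2 + r) = 0)
    (hfl : ∀ x, z.1 - 2 * r ≤ x → x ≤ z.1 - r → Φ (x, z.2) = 0) : Low N z r η u := by
  have k1 := hN.abs1
  have k2 := hN.abs2
  have k3 := hN.rN
  have k4 := hN.r1
  obtain ⟨⟨y, y', y1, y2, y3, y4, y5, yc⟩, ⟨s, t, s1, s2, s3, s4, s5, sc⟩,
    ⟨p, q, p1, p2, p3, p4, p5, pc⟩⟩ := hT
  obtain ⟨w, w1, w2, w3, w4, sw, yw⟩ := PercT.cross_meet (by omega) hx (by omega) (by omega)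
    (by omega) (by omega) ⟨s1, s2, s3⟩ s4 ⟨y1, y2, y3⟩ y4 (by omega) sc yc
  obtain ⟨w', w1', w2', w3', w4', sw', pw'⟩ := PercT.cross_meet (by omega) (by omega)
    (by omega) (by omega) (by omega) (by omega) ⟨s1, s2, s3⟩ s4 ⟨p1, p2, p3⟩ p4 (by omega) sc pc
  set G : Set (ℤ × ℤ) := (RF x₀ x₁ (z.2 - 2 * r) (z.2 + 2 * r) : Set (ℤ × ℤ)) ∪
    ((RF (z.1 - 2 * r) (z.1 + 2 * r) (z.2 + r) (z.2 + 2 * r) : Set (ℤ × ℤ)) ∪
      (RF (z.1 - 2 * r) (z.1 - r) z.2 (z.2 + 2 * r) : Set (ℤ × ℤ))) with hGdef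
  have hyp : Conn ξ G y p :=
    (yw.mono Set.subset_union_left).trans
      ((conn_symm (sw.mono (Set.subset_union_left.trans Set.subset_union_right))).trans
        ((sw'.mono (Set.subset_union_left.trans Set.subset_union_right)).trans
          (conn_symm (pw'.mono (Set.subset_union_right.trans Set.subset_union_right)))))
  have hGb : ∀ g ∈ G, z.1 - 2 * r ≤ g.1 ∧ g.1 < z.1 + 2 * r ∧ z.2 - 2 * r ≤ g.2 ∧
      g.2 < z.2 + 2 * r := by
    rintro g (hg | hg | hg) <;> rw [mem_RF'] at hg <;> omega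
  have hG : ∀ g ∈ G, g ∉ FH N z r → ∀ w, IsCor g w → w ∈ VF (FH N z r) →
      Φ w = 1 ∧ Ψ w = 0 := by
    rintro g hg hgF w hw hwV
    have e1 := VF_FH_up hwV
    have e2 := VF_FH_out hwV
    rw [mem_FH] at hgF
    unfold IsCor at hw
    rcases hg with hg | hg | hg
    · rw [mem_RF'] at hg
      have e3 : w = (w.1, z.2 + r) := Prod.ext rfl (by simp only; omega)
      rw [e3]
      exact hmid w.1 (by omega) (by omega)
    · rw [mem_RF'] at hg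
      exact absurd ⟨by omega, by omega⟩ hgF
    · rw [mem_RF'] at hg
      exact absurd ⟨by omega, by omega⟩ hgF
  have hpV : p ∈ VF (FH N z r) := by
    refine ⟨(if p.1 < z.1 - r then p.1 else p.1 - 1, z.2), ?_, ?_⟩
    · rw [mem_FH]
      simp only
      split_ifs <;> omega
    · refine ⟨?_, Or.inl p1⟩
      change p.1 = (if p.1 < z.1 - r then p.1 else p.1 - 1) ∨
        p.1 = (if p.1 < z.1 - r then p.1 else p.1 - 1) + 1
      split_ifs <;> omega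
  have hp0 : Φ p = 0 := by
    have : p = (p.1, z.2) := Prod.ext rfl p1
    rw [this]
    exact hfl p.1 p2 p3
  have hn : y ∈ VF (FH N z r) → Φ y = 1 ∧ Ψ y = 0 := by
    intro h
    have := VF_FH_up h
    omega
  have hland := hD.landP hη (fun g hg => hξ g (by rw [mem_BR]; exact hGb g hg)) hG
    (by unfold par; omega) hn hyp hpV hp0
  refine ⟨y, conn_symm (hland.mono ?_), by omega, by rw [abs_le]; omega, by rw [abs_le]; omega⟩
  rintro g (hg | hg)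
  · obtain ⟨h1, h2, h3, h4⟩ := hGb g hg
    exact near_sub_BR hN h1 h2 h3 h4
  · exact FH_sub_BR hN (S2_sub hg)

theorem low_of_left (hN : Ok N z r) (hD : Duo ω (FH N z r) e e' u v u' v' Φ Ψ)
    (hη : ∀ f ∈ S2 ω (FH N z r) e e', η f = ω f)
    (hξ : ∀ g ∈ BR z (2 * r), g ∉ S2 ω (FH N z r) e e' → η g = ξ g)
    (hcol : (u.1 + u.2 - col) % 2 = 0) {y₀ y₁ : ℤ} (hy0 : z.2 ≤ y₀) (hy : y₀ < y₁)
    (hy1 : y₁ < z.2 + r) (hT : ξ ∈ TubL col z r y₀ y₁)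
    (hmid : ∀ y, y₀ ≤ y → y ≤ y₁ → Φ (z.1 - r, y) = 1 ∧ Ψ (z.1 - r, y) = 0)
    (hfl : ∀ x, z.1 - 2 * r ≤ x → x ≤ z.1 - r → Φ (x, z.2) = 0) : Low N z r η u := by
  have k1 := hN.abs1
  have k2 := hN.abs2
  have k3 := hN.rN
  have k4 := hN.r1
  obtain ⟨⟨s, t, s1, s2, s3, s4, s5, sc⟩, ⟨p, q, p1, p2, p3, p4, p5, pc⟩,
    ⟨y, y', y1, y2, y3, y4, y5, yc⟩⟩ := hT
  obtain ⟨w', w1', w2', w3', w4', sw', pw'⟩ := PercT.cross_meet (by omega) (by omega)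
    (by omega) (by omega) (by omega) (by omega) ⟨s1, s2, s3⟩ s4 ⟨p1, p2, p3⟩ p4 (by omega) sc pc
  obtain ⟨a, b, a1, a2, a3, b1, ab, sa⟩ := PercT.strip_hor (x₀' := z.1 - r) (x₁' := z.1)
    (by omega) (by omega) (by omega) (by omega) ⟨by omega, s2, s3⟩ (by omega) sc
  have hpa := Conn.parity sa
  obtain ⟨w, w1, w2, w3, w4, aw, yw⟩ := PercT.cross_meet (by omega) (by omega) (by omega)
    (by omega) (by omega) (by omega) ⟨a1, a2, a3⟩ b1 ⟨y1, y2, y3⟩ y4 (by omega) ab yc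
  set G : Set (ℤ × ℤ) := (RF (z.1 - 2 * r) z.1 y₀ y₁ : Set (ℤ × ℤ)) ∪
      (RF (z.1 - 2 * r) (z.1 - r) z.2 (z.2 + 2 * r) : Set (ℤ × ℤ)) with hGdef
  have hap : Conn ξ G a p :=
    (conn_symm (sa.mono Set.subset_union_left)).trans
      ((sw'.mono Set.subset_union_left).trans (conn_symm (pw'.mono Set.subset_union_right)))
  have hGb : ∀ g ∈ G, z.1 - 2 * r ≤ g.1 ∧ g.1 < z.1 + 2 * r ∧ z.2 - 2 * r ≤ g.2 ∧
      g.2 < z.2 + 2 * r := by
    rintro g (hg | hg) <;> rw [mem_RF'] at hg <;> omega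
  have hG : ∀ g ∈ G, g ∉ FH N z r → ∀ w, IsCor g w → w ∈ VF (FH N z r) →
      Φ w = 1 ∧ Ψ w = 0 := by
    rintro g hg hgF w hw hwV
    have e1 := VF_FH_up hwV
    have e2 := VF_FH_out hwV
    rw [mem_FH] at hgF
    unfold IsCor at hw
    rcases hg with hg | hg
    · rw [mem_RF'] at hg
      have e3 : w = (z.1 - r, w.2) := Prod.ext (by simp only; omega) rfl
      rw [e3]
      exact hmid w.2 (by omega) (by omega)
    · rw [mem_RF'] at hg
      exact absurd ⟨by omega, by omega⟩ hgF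
  have hpV : p ∈ VF (FH N z r) := by
    refine ⟨(if p.1 < z.1 - r then p.1 else p.1 - 1, z.2), ?_, ?_⟩
    · rw [mem_FH]
      simp only
      split_ifs <;> omega
    · refine ⟨?_, Or.inl p1⟩
      change p.1 = (if p.1 < z.1 - r then p.1 else p.1 - 1) ∨
        p.1 = (if p.1 < z.1 - r then p.1 else p.1 - 1) + 1
      split_ifs <;> omega
  have hp0 : Φ p = 0 := by
    have : p = (p.1, z.2) := Prod.ext rfl p1
    rw [this]
    exact hfl p.1 p2 p3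
  have hn : a ∈ VF (FH N z r) → Φ a = 1 ∧ Ψ a = 0 := by
    intro _
    have : a = (z.1 - r, a.2) := Prod.ext a1 rfl
    rw [this]
    exact hmid a.2 a2 a3
  have hland := hD.landP hη (fun g hg => hξ g (by rw [mem_BR]; exact hGb g hg)) hG
    (by unfold par; omega) hn hap hpV hp0
  have hland' : Conn η (BR (0, 0) N : Set (ℤ × ℤ)) a u := by
    refine hland.mono ?_
    rintro g (hg | hg)
    · obtain ⟨h1, h2, h3, h4⟩ := hGb g hg
      exact near_sub_BR hN h1 h2 h3 h4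
    · exact FH_sub_BR hN (S2_sub hg)
  have hdown : Conn η (BR (0, 0) N : Set (ℤ × ℤ)) y a := by
    have hya : Conn ξ ((RF (z.1 - r) z.1 (z.2 - 2 * r) (z.2 + r) : Set (ℤ × ℤ)) ∪
        (RF (z.1 - r) z.1 y₀ y₁ : Set (ℤ × ℤ))) y a :=
      (yw.mono Set.subset_union_left).trans (conn_symm (aw.mono Set.subset_union_right))
    refine conn_transfer (fun f hf => ?_) (fun f hf => ?_) hya
    · refine hξ f ?_ fun hS => ?_
      · rw [mem_BR]
        rcases hf with hf | hf <;> rw [mem_RF'] at hf <;> omega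
      · have := S2_sub hS
        rw [mem_FH] at this
        rcases hf with hf | hf <;> rw [mem_RF'] at hf <;> omega
    · rcases hf with hf | hf <;> rw [mem_RF'] at hf <;>
        exact near_sub_BR hN (by omega) (by omega) (by omega) (by omega)
  exact ⟨y, conn_symm (hdown.trans hland'), by omega, by rw [abs_le]; omega,
    by rw [abs_le]; omega⟩

end Pool.Agent.SixB.A2
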