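import Pool.Agent.Lib.SixB.A2P4a

/-!
# 6BD, item (A2), row P4: the case of a piece of the right side
-/

set_option autoImplicit false

namespace Pool.Agent.SixB.A2

open Finset Pool.Agent.Perc Pool.Agent.PercD Pool.Agent.Perc6 Pool.Agent.PercN P3Aux

variable {ω η ξ : Cfg} {e e' : UE} {u v u' v' : ℤ × ℤ} {Φ Ψ : ℤ × ℤ → ZMod 2} {N r col : ℤ}
  {z : ℤ × ℤ}

theorem low_of_right (hN : Ok N z r) (hD : Duo ω (FH N z r) e e' u v u' v' Φ Ψ)
    (hη : ∀ f ∈ S2 ω (FH N z r) e e', η f = ω f)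
    (hξ : ∀ g ∈ BR z (2 * r), g ∉ S2 ω (FH N z r) e e' → η g = ξ g)
    (hcol : (u.1 + u.2 - col) % 2 = 0) {y₀ y₁ : ℤ} (hy0 : z.2 ≤ y₀) (hy : y₀ < y₁)
    (hy1 : y₁ < z.2 + r) (hT : ξ ∈ TubR col z r y₀ y₁)
    (hmid : ∀ y, y₀ ≤ y → y ≤ y₁ → Φ (z.1 + r, y) = 1 ∧ Ψ (z.1 + r, y) = 0)
    (hfl : ∀ x, z.1 + r ≤ x → x ≤ z.1 + 2 * r → Ψ (x, z.2) = 1) : Low N z r η u' := by
  have k1 := hN.abs1
  have k2 := hN.abs2
  have k3 := hN.rN
  have k4 := hN.r1
  have hpe := hD.par_eq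
  obtain ⟨⟨s, t, s1, s2, s3, s4, s5, sc⟩, ⟨p, q, p1, p2, p3, p4, p5, pc⟩,
    ⟨y, y', y1, y2, y3, y4, y5, yc⟩⟩ := hT
  obtain ⟨w', w1', w2', w3', w4', sw', pw'⟩ := PercT.cross_meet (by omega) (by omega)
    (by omega) (by omega) (by omega) (by omega) ⟨s1, s2, s3⟩ s4 ⟨p1, p2, p3⟩ p4 (by omega) sc pc
  obtain ⟨a, b, a1, a2, a3, b1, ab, sa⟩ := PercT.strip_hor (x₀' := z.1) (x₁' := z.1 + r)
    (by omega) (by omega) (by omega) (by omega) ⟨by omega, s2, s3⟩ (by omega) sc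
  have hpa := Conn.parity sa
  have hpab := Conn.parity ab
  obtain ⟨w, w1, w2, w3, w4, aw, yw⟩ := PercT.cross_meet (by omega) (by omega) (by omega)
    (by omega) (by omega) (by omega) ⟨a1, a2, a3⟩ b1 ⟨y1, y2, y3⟩ y4 (by omega) ab yc
  set G : Set (ℤ × ℤ) := (RF z.1 (z.1 + 2 * r) y₀ y₁ : Set (ℤ × ℤ)) ∪
      (RF (z.1 + r) (z.1 + 2 * r) z.2 (z.2 + 2 * r) : Set (ℤ × ℤ)) with hGdef
  have hb := Conn.mem_rect ab ⟨by omega, by omega, a2, a3⟩
  have hsb : Conn ξ (RF z.1 (z.1 + 2 * r) y₀ y₁ : Set (ℤ × ℤ)) s b :=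
    sa.trans (ab.mono (PercT.Cross.rf_sub le_rfl (by omega) le_rfl le_rfl))
  have hap : Conn ξ G b p :=
    (conn_symm (hsb.mono Set.subset_union_left)).trans
      ((sw'.mono Set.subset_union_left).trans (conn_symm (pw'.mono Set.subset_union_right)))
  have hGb : ∀ g ∈ G, z.1 - 2 * r ≤ g.1 ∧ g.1 < z.1 + 2 * r ∧ z.2 - 2 * r ≤ g.2 ∧
      g.2 < z.2 + 2 * r := by
    rintro g (hg | hg) <;> rw [mem_RF'] at hg <;> omega
  have hG : ∀ g ∈ G, g ∉ FH N z r → ∀ w, IsCor g w → w ∈ VF (FH N z r) →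
      Φ w = 1 ∧ Ψ w = 0 := by
    rintro g hg hgF w hw hwV
    have e1 := VF_FH_up hwV
    have e2 := VF_FH_out hwV
    rw [mem_FH] at hgF
    unfold IsCor at hw
    rcases hg with hg | hg
    · rw [mem_RF'] at hg
      have e3 : w = (z.1 + r, w.2) := Prod.ext (by simp only; omega) rfl
      rw [e3]
      exact hmid w.2 (by omega) (by omega)
    · rw [mem_RF'] at hg
      exact absurd ⟨by omega, by omega⟩ hgF
  have hpV : p ∈ VF (FH N z r) := by
    refine ⟨(if z.1 + r < p.1 then p.1 - 1 else p.1, z.2), ?_, ?_⟩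
    · rw [mem_FH]
      simp only
      split_ifs <;> omega
    · refine ⟨?_, Or.inl p1⟩
      change p.1 = (if z.1 + r < p.1 then p.1 - 1 else p.1) ∨
        p.1 = (if z.1 + r < p.1 then p.1 - 1 else p.1) + 1
      split_ifs <;> omega
  have hp0 : Ψ p = 1 := by
    have : p = (p.1, z.2) := Prod.ext rfl p1
    rw [this]
    exact hfl p.1 p2 p3
  have hn : b ∈ VF (FH N z r) → Φ b = 1 ∧ Ψ b = 0 := by
    intro _
    have : b = (z.1 + r, b.2) := Prod.ext b1 rfl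
    rw [this]
    exact hmid b.2 hb.2.2.1 hb.2.2.2
  have hland := hD.landP' hη (fun g hg => hξ g (by rw [mem_BR]; exact hGb g hg)) hG
    (by unfold par; omega) hn hap hpV hp0
  have hland' : Conn η (BR (0, 0) N : Set (ℤ × ℤ)) b u' := by
    refine hland.mono ?_
    rintro g (hg | hg)
    · obtain ⟨h1, h2, h3, h4⟩ := hGb g hg
      exact near_sub_BR hN h1 h2 h3 h4
    · exact FH_sub_BR hN (S2_sub hg)
  have hdown : Conn η (BR (0, 0) N : Set (ℤ × ℤ)) y b := by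
    have hya : Conn ξ ((RF z.1 (z.1 + r) (z.2 - 2 * r) (z.2 + r) : Set (ℤ × ℤ)) ∪
        (RF z.1 (z.1 + r) y₀ y₁ : Set (ℤ × ℤ))) y b :=
      (yw.mono Set.subset_union_left).trans
        ((conn_symm (aw.mono Set.subset_union_right)).trans (ab.mono Set.subset_union_right))
    refine conn_transfer (fun f hf => ?_) (fun f hf => ?_) hya
    · refine hξ f ?_ fun hS => ?_
      · rw [mem_BR]
        rcases hf with hf | hf <;> rw [mem_RF'] at hf <;> omega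
      · have := S2_sub hS
        rw [mem_FH] at this
        rcases hf with hf | hf <;> rw [mem_RF'] at hf <;> omega
    · rcases hf with hf | hf <;> rw [mem_RF'] at hf <;>
        exact near_sub_BR hN (by omega) (by omega) (by omega) (by omega)
  exact ⟨y, conn_symm (hdown.trans hland'), by omega, by rw [abs_le]; omega,
    by rw [abs_le]; omega⟩

end Pool.Agent.SixB.A2
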