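import Pool.Agent.Lib.SixB.A2Defs

/-!
# 6BD, (A2), rows P5a and P5b: the count
-/

set_option autoImplicit false
set_option linter.unusedVariables false

namespace Pool.Agent.SixB.A2

open Finset Pool.Agent.Perc Pool.Agent.PercD Pool.Agent.Perc6 Pool.Agent.PercN

variable {ω : Cfg} {m r N : ℤ} {z : ℤ × ℤ} {k k' j : ℤ}

theorem bdR_oE5 (hz : z.2 ≤ N) (hz' : -N ≤ z.2) (h0 : 0 ≤ k) (h1 : k < oL N z) :
    BdR (0, 0) N (oE N z k) := by
  unfold oL at h1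
  unfold BdR BdE oE ae
  split_ifs <;> simp <;> omega

theorem oE_inj (h0 : 0 ≤ k) (h1 : k < oL N z) (h0' : 0 ≤ k') (h1' : k' < oL N z)
    (hz : z.2 ≤ N) (hN : 0 < N) (h : oE N z k = oE N z k') : k = k' := by
  unfold oL at h1 h1'
  unfold oE ae at h
  split_ifs at h <;> simp only [Prod.mk.injEq] at h <;> simp at h <;> omega

theorem inE_iE (hr : 0 ≤ r) (h0 : 0 ≤ j) (h1 : j < 4 * r) (ha : |z.1| + r ≤ m) (hb : |z.2| + r ≤ m) :
    InE (0, 0) m (iE z r j) := by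
  have e1 := abs_le.1 (le_refl |z.1|)
  have e2 := abs_le.1 (le_refl |z.2|)
  unfold InE InR iE ae
  split_ifs <;> simp only [ua_mk, ub_true, ub_false] <;> simp <;> omega

/-- The outer ends of the strands which cross the annulus `m : 2 m`. -/
noncomputable def OC (m : ℤ) (ω : Cfg) : Finset UE := by
  classical
  exact (UB ((0 : ℤ), (0 : ℤ)) (2 * m)).filter fun a => BdR (0, 0) (2 * m) a ∧
    ∃ b ∈ MM ω (An (0, 0) m (2 * m)) a, BdR (0, 0) m b

theorem mem_OC (hm : 0 < m) {a : UE} : a ∈ OC m ω ↔ BdR (0, 0) (2 * m) a ∧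
    ∃ b ∈ MM ω (An (0, 0) m (2 * m)) a, BdR (0, 0) m b := by
  classical
  unfold OC
  rw [mem_filter]
  exact ⟨fun h => h.2, fun h => ⟨(h.1.inE (by omega)).mem_UB, h⟩⟩

theorem card_OC (hm : 0 < m) : (OC m ω).card ≤ NC (0, 0) m (2 * m) ω := by
  classical
  have H : ∀ a ∈ OC m ω, ∃ b, b ∈ MM ω (An (0, 0) m (2 * m)) a ∧ BdR (0, 0) m b := by
    intro a ha
    obtain ⟨-, b, h1, h2⟩ := (mem_OC hm).1 ha
    exact ⟨b, h1, h2⟩
  choose! t ht1 ht2 using H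
  unfold PercN.NC
  refine card_le_card_of_injOn t (fun a ha => ?_) ?_
  · have ha' := mem_coe.1 ha
    rw [mem_coe, mem_NP hm.le]
    exact ⟨ht2 a ha', a, MM_symm (ht1 a ha'), ((mem_OC hm).1 ha').1, trivial⟩
  · intro a ha a' ha' haa
    have h1 := mem_coe.1 ha
    have h2 := mem_coe.1 ha'
    have e1 : a ∈ MM ω (An (0, 0) m (2 * m)) (t a) := MM_symm (ht1 a h1)
    have e2 : a' ∈ MM ω (An (0, 0) m (2 * m)) (t a) := by
      rw [haa]
      exact MM_symm (ht1 a' h2)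
    have hne : ∀ {x : UE}, BdR (0, 0) (2 * m) x → x ≠ t a := by
      intro x hx hxa
      subst hxa
      have h3 := ht2 a h1
      unfold BdR BdE at hx h3
      simp at hx h3
      omega
    have k1 := ((mem_OC hm).1 h1).1
    have k2 := ((mem_OC hm).1 h2).1
    exact other_unique (bdF_in (ht2 a h1)) e1 e2 (bdF_out k1) (bdF_out k2) (hne k1) (hne k2)

theorem FH_sub (hz : -N ≤ z.2) : FH N z r ⊆ (BR (0, 0) N : Set (ℤ × ℤ)) := by
  intro f hf
  have h1 := hf.1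
  rw [← mem_coe, mem_RF'] at h1
  rw [mem_BR']
  simp only
  omega

theorem Ok.le (h : Ok N z r) : |z.1| + r ≤ N / 2 ∧ |z.2| + r ≤ N / 2 ∧ -N ≤ z.2 ∧ z.2 ≤ N ∧
    0 < N := by
  obtain ⟨h1, h2, h3, h4⟩ := h
  have e1 := abs_le.1 (le_refl |z.2|)
  have e2 := abs_nonneg z.1
  have e3 := abs_nonneg z.2
  omega

theorem oE_mem_OC (h : Ok (2 * m) z r) (hω : ω ∈ Tip (2 * m) z r k j) :
    oE (2 * m) z k ∈ OC m ω := by
  obtain ⟨a1, a2, a3, a4, a5⟩ := h.le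
  have hr := h.r1
  obtain ⟨⟨h1, h2⟩, ⟨h3, h4⟩, h5⟩ := hω
  have hm : 0 < m := by omega
  have hb := bdR_oE5 (N := 2 * m) (z := z) (k := k) a4 a3 h1 h2
  rw [mem_OC hm]
  refine ⟨hb, ?_⟩
  have hin := inE_iE (z := z) (m := m) (r := r) (j := j) (by omega) h3 h4 (by omega) (by omega)
  rcases PercS5.last_exit' hin (MM_symm h5) with h6 | ⟨b, hb1, hb2, hb3⟩
  · exfalso
    generalize oE (2 * m) z k = e at hb h6
    obtain ⟨x, y, c⟩ := e
    unfold InE InR at h6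
    unfold BdR BdE at hb
    cases c <;> simp [ua_mk, ub_false, ub_true] at h6 hb <;> omega
  · refine ⟨b, MM_symm (MM_mono ?_ hb3), hb2⟩
    rintro f ⟨hf, hf'⟩
    rw [mem_coe, mem_An]
    exact ⟨mem_coe.1 (FH_sub a3 hf), fun h => hf' (mem_coe.2 h)⟩

theorem mem_cen {N : ℤ} {z : ℤ × ℤ} : z ∈ cen N ↔ |z.1| ≤ N / 4 ∧ |z.2| ≤ N / 4 := by
  unfold cen
  rw [mem_product, mem_Icc, mem_Icc, abs_le, abs_le]

theorem ok_cen (hr : 1 ≤ r) (hN : 16 * r ≤ N) (hz : z ∈ cen N) : Ok N z r := by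
  rw [mem_cen] at hz
  exact ⟨hr, hN, by omega, by omega⟩

theorem card_cen {m : ℤ} (hm : 0 ≤ m) : ((cen (2 * m)).card : ℝ) ≤ ((m : ℝ) + 1) ^ 2 ∧
    (m : ℝ) ^ 2 ≤ (cen (2 * m)).card := by
  have h : ((cen (2 * m)).card : ℤ) = (2 * (2 * m / 4) + 1) ^ 2 := by
    unfold cen
    rw [card_product, Int.card_Icc]
    push_cast
    rw [Int.toNat_of_nonneg (by omega)]
    ring
  have h2 : ((cen (2 * m)).card : ℝ) = (((2 * (2 * m / 4) + 1 : ℤ)) : ℝ) ^ 2 := by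
    exact_mod_cast h
  rw [h2]
  have a1 : (2 * (2 * m / 4) + 1 : ℤ) ≤ m + 1 := by omega
  have a2 : m ≤ (2 * (2 * m / 4) + 1 : ℤ) := by omega
  have a3 : (((2 * (2 * m / 4) + 1 : ℤ)) : ℝ) ≤ (m : ℝ) + 1 := by exact_mod_cast a1
  have a4 : (m : ℝ) ≤ (((2 * (2 * m / 4) + 1 : ℤ)) : ℝ) := by exact_mod_cast a2
  have a5 : (0 : ℝ) ≤ m := by exact_mod_cast hm
  constructor
  · exact pow_le_pow_left₀ (by linarith) a3 2
  · exact pow_le_pow_left₀ a5 a4 2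

/-- The sum of probabilities as the mean of a count. -/
theorem sum_pr {ι : Type} (s : Finset ι) (A : ι → Set Cfg) (W : Finset (ℤ × ℤ)) (M : Cfg → ℝ)
    (h : ∀ ω, (∑ i ∈ s, (open Classical in if ω ∈ A i then (1 : ℝ) else 0)) ≤ M ω) :
    ∑ i ∈ s, pr W (A i) ≤ (∑ T ∈ W.powerset, M (cfg T)) / 2 ^ W.card := by
  classical
  have e : ∑ i ∈ s, pr W (A i) =
      (∑ T ∈ W.powerset, ∑ i ∈ s, (if cfg T ∈ A i then (1 : ℝ) else 0)) / 2 ^ W.card := by
    rw [Finset.sum_comm, Finset.sum_div]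
    exact Finset.sum_congr rfl fun i _ => by rw [ProbA.pr_eq_sum]
  rw [e]
  refine div_le_div_of_nonneg_right (Finset.sum_le_sum fun T _ => ?_) (by positivity)
  refine le_trans (le_of_eq ?_) (h (cfg T))
  exact Finset.sum_congr rfl fun i _ => by congr

theorem joins_ae {x₀ x₁ y₀ y₁ k : ℤ} (hy : y₀ ≤ y₁) (hx : x₀ < x₁) :
    Joins (ae x₀ x₁ y₀ y₁ k) (av x₀ x₁ y₀ y₁ k) (av x₀ x₁ y₀ y₁ (k + 1)) := by
  unfold Joins ae av
  split_ifs <;> simp only [ua_mk, ub_true, ub_false, Prod.mk.injEq] <;>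
    first | omega | (simp; done) | (simp; omega)

theorem joins_oE (h : Ok N z r) (k : ℤ) : Joins (oE N z k) (oV N z k) (oV N z (k + 1)) := by
  obtain ⟨-, -, a3, a4, a5⟩ := h.le
  exact joins_ae a4 (by omega)

open Classical in
theorem card_Z (hr : 1 ≤ r) (q : ℤ × ℤ) (ω : Cfg) :
    (((cen N).filter fun z => ω ∈ E1 N z r q ∧ ω ∈ E2 N z r q).card : ℝ) ≤ 1089 * (r : ℝ) ^ 2 := by
  have hr' : (1 : ℝ) ≤ r := by exact_mod_cast hr
  rcases ((cen N).filter fun z => ω ∈ E1 N z r q ∧ ω ∈ E2 N z r q).eq_empty_or_nonempty with h | h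
  · rw [h, card_empty]
    push_cast
    positivity
  · obtain ⟨z₀, hz₀⟩ := h
    have key : ∀ z z' : ℤ × ℤ, ω ∈ E1 N z r q → ω ∈ E2 N z' r q → z.2 ≤ z'.2 →
        |z.1 - z'.1| ≤ 16 * r ∧ |z.2 - z'.2| ≤ 16 * r := by
      rintro z z' ⟨w, h1, h2, h3, h4⟩ h5 h6
      obtain ⟨h7, h8⟩ := h5 w h1 (by omega)
      have a1 := abs_le.1 h3
      have a2 := abs_le.1 h4
      have a3 := abs_le.1 h7
      have a4 := abs_le.1 h8
      exact ⟨abs_le.2 (by omega), abs_le.2 (by omega)⟩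
    have hsub : ((cen N).filter fun z => ω ∈ E1 N z r q ∧ ω ∈ E2 N z r q) ⊆
        Icc (z₀.1 - 16 * r) (z₀.1 + 16 * r) ×ˢ Icc (z₀.2 - 16 * r) (z₀.2 + 16 * r) := by
      intro z hz
      rw [mem_filter] at hz hz₀
      rw [mem_product, mem_Icc, mem_Icc]
      rcases le_total z.2 z₀.2 with h | h
      · obtain ⟨h1, h2⟩ := key z z₀ hz.2.1 hz₀.2.2 h
        rw [abs_le] at h1 h2
        omega
      · obtain ⟨h1, h2⟩ := key z₀ z hz₀.2.1 hz.2.2 h
        rw [abs_le] at h1 h2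
        omega
    have h1 := card_le_card hsub
    rw [card_product, Int.card_Icc, Int.card_Icc] at h1
    have e1 : (z₀.1 + 16 * r + 1 - (z₀.1 - 16 * r)).toNat = (32 * r + 1).toNat := by congr 1; ring
    have e2 : (z₀.2 + 16 * r + 1 - (z₀.2 - 16 * r)).toNat = (32 * r + 1).toNat := by congr 1; ring
    rw [e1, e2] at h1
    have h2 : ((32 * r + 1).toNat : ℝ) = 32 * (r : ℝ) + 1 := by
      have : ((32 * r + 1).toNat : ℤ) = 32 * r + 1 := Int.toNat_of_nonneg (by omega)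
      exact_mod_cast this
    have h3 : (((cen N).filter fun z => ω ∈ E1 N z r q ∧ ω ∈ E2 N z r q).card : ℝ) ≤
        (32 * (r : ℝ) + 1) * (32 * (r : ℝ) + 1) := by
      rw [← h2]
      exact_mod_cast h1
    nlinarith

theorem oL_le (h : Ok (2 * m) z r) : oL (2 * m) z ≤ 9 * m := by
  obtain ⟨h1, h2, h3, h4⟩ := h
  have := abs_le.1 (le_refl |z.2|)
  unfold oL
  omega

/-- The index set. -/
noncomputable def idx (m : ℤ) : Finset ((ℤ × ℤ) × ℤ × ℤ) :=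
  cen (2 * m) ×ˢ (Ico 0 (9 * m) ×ˢ Ico 0 (9 * m))

theorem sum_idx (hr : 1 ≤ r) (hm : 16 * r ≤ 2 * m) (A : ℤ × ℤ → ℤ → ℤ → Set Cfg) :
    ∑ z ∈ cen (2 * m), ∑ k ∈ Ico 0 (oL (2 * m) z), ∑ k' ∈ Ico 0 (oL (2 * m) z),
      pr (BR (0, 0) (2 * m)) (A z k k') ≤
    ∑ i ∈ idx m, pr (BR (0, 0) (2 * m)) (A i.1 i.2.1 i.2.2) := by
  unfold idx
  rw [Finset.sum_product]
  refine Finset.sum_le_sum fun z hz => ?_
  rw [Finset.sum_product]
  have hL := oL_le (ok_cen hr hm hz)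
  have hsub : Ico 0 (oL (2 * m) z) ⊆ Ico 0 (9 * m) := Ico_subset_Ico_right hL
  refine le_trans (Finset.sum_le_sum fun k _ => Finset.sum_le_sum_of_subset_of_nonneg hsub
    fun _ _ _ => pr_nonneg _ _) (Finset.sum_le_sum_of_subset_of_nonneg hsub
    fun _ _ _ => Finset.sum_nonneg fun _ _ => pr_nonneg _ _)

open Classical in
/-- The outer sides whose strand crosses. -/
noncomputable def Kz (m r : ℤ) (z : ℤ × ℤ) (ω : Cfg) : Finset ℤ :=
  (Ico 0 (9 * m)).filter fun k => ∃ j, ω ∈ Tip (2 * m) z r k j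

theorem card_Kz (h : Ok (2 * m) z r) : (Kz m r z ω).card ≤ NC (0, 0) m (2 * m) ω := by
  classical
  obtain ⟨-, -, a3, a4, a5⟩ := h.le
  refine le_trans (card_le_card_of_injOn (fun k => oE (2 * m) z k) (fun k hk => ?_) ?_)
    (card_OC (by omega))
  · obtain ⟨-, j, hj⟩ := mem_filter.1 (mem_coe.1 hk)
    exact mem_coe.2 (oE_mem_OC h hj)
  · intro k hk k' hk' hkk
    obtain ⟨-, j, hj⟩ := mem_filter.1 (mem_coe.1 hk)
    obtain ⟨-, j', hj'⟩ := mem_filter.1 (mem_coe.1 hk')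
    exact oE_inj hj.1.1 hj.1.2 hj'.1.1 hj'.1.2 a4 a5 hkk

theorem p5b : P5b := by
  classical
  obtain ⟨C, hC, hM⟩ := moment_NC 2
  refine ⟨4 * C, by positivity, fun m r hr hm => ?_⟩
  have hm0 : 0 < m := by omega
  refine le_trans (sum_idx hr hm fun z k k' => Pair (2 * m) z r k k') ?_
  refine le_trans (sum_pr (idx m) _ _
    (fun ω => ((cen (2 * m)).card : ℝ) * (NC (0, 0) m (2 * m) ω : ℝ) ^ 2) fun ω => ?_) ?_
  · unfold idx
    rw [Finset.sum_product]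
    rw [← nsmul_eq_mul]
    refine Finset.sum_le_card_nsmul _ _ _ fun z hz => ?_
    have hok := ok_cen hr hm hz
    have h1 : ∑ i ∈ Ico 0 (9 * m) ×ˢ Ico 0 (9 * m),
        (if ω ∈ Pair (2 * m) z r i.1 i.2 then (1 : ℝ) else 0) ≤
        (((Kz m r z ω) ×ˢ (Kz m r z ω)).card : ℝ) := by
      rw [Finset.sum_boole]
      norm_cast
      refine card_le_card fun i hi => ?_
      rw [mem_filter, mem_product] at hi
      obtain ⟨⟨h1, h2⟩, -, -, h3, h4⟩ := hi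
      rw [mem_product]
      exact ⟨mem_filter.2 ⟨h1, h3⟩, mem_filter.2 ⟨h2, h4⟩⟩
    refine h1.trans ?_
    rw [card_product, pow_two]
    have := card_Kz (ω := ω) hok
    push_cast
    exact mul_le_mul (by exact_mod_cast this) (by exact_mod_cast this) (Nat.cast_nonneg _)
      (Nat.cast_nonneg _)
  · rw [← Finset.mul_sum, mul_div_assoc]
    have h1 := hM (0, 0) m (BR (0, 0) (2 * m)) hm0 (Finset.Subset.refl _)
    have h2 := (card_cen hm0.le).1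
    have h3 : (1 : ℝ) ≤ m := by exact_mod_cast hm0
    have h4 : ((m : ℝ) + 1) ^ 2 ≤ 4 * (m : ℝ) ^ 2 := by nlinarith
    calc _ ≤ (4 * (m : ℝ) ^ 2) * C := mul_le_mul (h2.trans h4) h1 (by positivity) (by positivity)
      _ = 4 * C * (m : ℝ) ^ 2 := by ring

theorem p5a : P5a := by
  classical
  obtain ⟨C, hC, hM⟩ := moment_NC 2
  refine ⟨4356 * C, by positivity, fun m r hr hm => ?_⟩
  have hm0 : 0 < m := by omega
  have hr' : (1 : ℝ) ≤ r := by exact_mod_cast hr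
  refine le_trans (sum_idx hr hm fun z k k' => Enh (2 * m) z r k k') ?_
  refine le_trans (sum_pr (idx m) _ _
    (fun ω => 4356 * (r : ℝ) ^ 2 * (NC (0, 0) m (2 * m) ω : ℝ) ^ 2) fun ω => ?_) ?_
  · -- the fibres
    set G : UE × UE × (ℤ × ℤ) → Finset ((ℤ × ℤ) × ℤ × ℤ) := fun t =>
      (idx m).filter fun i => Ok (2 * m) i.1 r ∧ (0 ≤ i.2.1 ∧ i.2.1 < oL (2 * m) i.1) ∧
        (0 ≤ i.2.2 ∧ i.2.2 < oL (2 * m) i.1) ∧ oE (2 * m) i.1 i.2.1 = t.1 ∧
        oE (2 * m) i.1 i.2.2 = t.2.1 ∧ ω ∈ E1 (2 * m) i.1 r t.2.2 ∧ ω ∈ E2 (2 * m) i.1 r t.2.2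
      with hG
    have hGc : ∀ t, ((G t).card : ℝ) ≤ 1089 * (r : ℝ) ^ 2 := by
      intro t
      refine le_trans ?_ (card_Z (N := 2 * m) hr t.2.2 ω)
      norm_cast
      refine card_le_card_of_injOn (fun i => i.1) (fun i hi => ?_) ?_
      · have hi' := mem_filter.1 (mem_coe.1 hi)
        rw [mem_coe, mem_filter]
        exact ⟨(mem_product.1 hi'.1).1, hi'.2.2.2.2.2.2⟩
      · intro i hi i' hi' hii
        obtain ⟨-, b1, ⟨b2, b3⟩, ⟨b4, b5⟩, b6, b7, -⟩ := mem_filter.1 (mem_coe.1 hi)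
        obtain ⟨-, -, ⟨c2, c3⟩, ⟨c4, c5⟩, c6, c7, -⟩ := mem_filter.1 (mem_coe.1 hi')
        obtain ⟨z, k, k'⟩ := i
        obtain ⟨z', l, l'⟩ := i'
        simp only at hii b1 b2 b3 b4 b5 b6 b7 c2 c3 c4 c5 c6 c7
        subst hii
        obtain ⟨-, -, a3, a4, a5⟩ := b1.le
        have d1 := oE_inj b2 b3 c2 c3 a4 a5 (b6.trans c6.symm)
        have d2 := oE_inj b4 b5 c4 c5 a4 a5 (b7.trans c7.symm)
        rw [d1, d2]
    set P : Finset (UE × UE × (ℤ × ℤ)) := (OC m ω ×ˢ OC m ω).biUnion fun p =>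
      ({ua p.1, ub p.1, ua p.2, ub p.2} : Finset (ℤ × ℤ)).image fun q => (p.1, p.2, q) with hP
    have hPc : (P.card : ℝ) ≤ 4 * (NC (0, 0) m (2 * m) ω : ℝ) ^ 2 := by
      have h1 : P.card ≤ (OC m ω ×ˢ OC m ω).card * 4 := by
        refine card_biUnion_le_card_mul _ _ _ fun p _ => ?_
        refine card_image_le.trans ?_
        exact card_le_four
      rw [card_product] at h1
      have h2 := card_OC (ω := ω) hm0
      have h3 : (P.card : ℝ) ≤ ((OC m ω).card : ℝ) * (OC m ω).card * 4 := by exact_mod_cast h1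
      have h4 : ((OC m ω).card : ℝ) ≤ NC (0, 0) m (2 * m) ω := by exact_mod_cast h2
      have h5 : (0 : ℝ) ≤ (OC m ω).card := Nat.cast_nonneg _
      nlinarith
    rw [Finset.sum_boole]
    have hsub : ((idx m).filter fun i => ω ∈ Enh (2 * m) i.1 r i.2.1 i.2.2) ⊆ P.biUnion G := by
      intro i hi
      rw [mem_filter] at hi
      obtain ⟨hi, ⟨-, -, ⟨j, hj⟩, ⟨j', hj'⟩⟩, hE⟩ := hi
      have hok : Ok (2 * m) i.1 r := ok_cen hr hm (mem_product.1 hi).1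
      have o1 := oE_mem_OC hok hj
      have o2 := oE_mem_OC hok hj'
      rw [mem_biUnion]
      rcases hE with hE | hE
      · refine ⟨(oE (2 * m) i.1 i.2.1, oE (2 * m) i.1 i.2.2, oV (2 * m) i.1 (i.2.1 + 1)), ?_, ?_⟩
        · rw [hP, mem_biUnion]
          refine ⟨(oE (2 * m) i.1 i.2.1, oE (2 * m) i.1 i.2.2), mem_product.2 ⟨o1, o2⟩, ?_⟩
          rw [mem_image]
          refine ⟨_, ?_, rfl⟩
          rcases joins_oE hok i.2.1 with ⟨-, h2⟩ | ⟨-, h2⟩ <;> simp [h2]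
        · rw [hG, mem_filter]
          exact ⟨hi, hok, hj.1, hj'.1, rfl, rfl, hE⟩
      · refine ⟨(oE (2 * m) i.1 i.2.1, oE (2 * m) i.1 i.2.2, oV (2 * m) i.1 i.2.2), ?_, ?_⟩
        · rw [hP, mem_biUnion]
          refine ⟨(oE (2 * m) i.1 i.2.1, oE (2 * m) i.1 i.2.2), mem_product.2 ⟨o1, o2⟩, ?_⟩
          rw [mem_image]
          refine ⟨_, ?_, rfl⟩
          rcases joins_oE hok i.2.2 with ⟨h2, -⟩ | ⟨h2, -⟩ <;> simp [h2]
        · rw [hG, mem_filter]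
          exact ⟨hi, hok, hj.1, hj'.1, rfl, rfl, hE⟩
    have h1 : (((idx m).filter fun i => ω ∈ Enh (2 * m) i.1 r i.2.1 i.2.2).card : ℝ) ≤
        ∑ t ∈ P, ((G t).card : ℝ) := by
      have := (card_le_card hsub).trans card_biUnion_le
      exact_mod_cast this
    refine h1.trans ?_
    calc ∑ t ∈ P, ((G t).card : ℝ) ≤ ∑ t ∈ P, 1089 * (r : ℝ) ^ 2 :=
          Finset.sum_le_sum fun t _ => hGc t
      _ = P.card * (1089 * (r : ℝ) ^ 2) := by rw [Finset.sum_const, nsmul_eq_mul]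
      _ ≤ 4 * (NC (0, 0) m (2 * m) ω : ℝ) ^ 2 * (1089 * (r : ℝ) ^ 2) :=
          mul_le_mul_of_nonneg_right hPc (by positivity)
      _ = 4356 * (r : ℝ) ^ 2 * (NC (0, 0) m (2 * m) ω : ℝ) ^ 2 := by ring
  · rw [← Finset.mul_sum, mul_div_assoc]
    have h1 := hM (0, 0) m (BR (0, 0) (2 * m)) hm0 (Finset.Subset.refl _)
    calc _ ≤ (4356 * (r : ℝ) ^ 2) * C := mul_le_mul_of_nonneg_left h1 (by positivity)
      _ = 4356 * C * (r : ℝ) ^ 2 := by ring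

end Pool.Agent.SixB.A2
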