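import Pool.Agent.Lib.SixB.A2Defs

/-!
# 6BD, item (A2), rows P6, P7, P8

The two exits from the half annuli and the translations.
-/

set_option autoImplicit false

namespace Pool.Agent.SixB.A2

open Finset Pool.Agent.Perc Pool.Agent.PercD Pool.Agent.Perc6 Pool.Agent.PercN

variable {ω : Cfg} {N r R s : ℤ} {z v : ℤ × ℤ} {b a c : UE} {F : Set (ℤ × ℤ)}

/-- A unit edge of a component different from the start is a side of a face of the region. -/
theorem side_of_mem (h : a ∈ MM ω F b) (hne : a ≠ b) : ∃ f ∈ F, IsSide f a := by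
  rcases Relation.ReflTransGen.cases_tail h with h | ⟨c, -, f, hf, hm⟩
  · exact absurd h hne
  · exact ⟨f, hf, hm.right⟩

/-- The parametrisation of the arc of a box above the line. -/
theorem ae_of_side {x₀ x₁ y₀ y₁ q : ℤ} (hb : BdE x₀ x₁ q y₁ b) (hq : q < y₀)
    (hx : x₀ < x₁) (hy : y₀ < y₁) {f : ℤ × ℤ} (hf : y₀ ≤ f.2) (hs : IsSide f b) :
    ∃ k, 0 ≤ k ∧ k < 2 * (y₁ - y₀) + (x₁ - x₀) ∧ ae x₀ x₁ y₀ y₁ k = b := by
  obtain ⟨x, y, d⟩ := b
  obtain ⟨f1, f2⟩ := f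
  unfold BdE at hb
  unfold IsSide bo le' to' ri at hs
  simp only [Prod.mk.injEq] at hb hs hf
  cases d
  · -- the top
    have hy' : y = y₁ := by
      rcases hb with ⟨-, h1, h2, h3⟩ | ⟨h, -⟩
      · rcases h3 with h3 | h3
        · exfalso
          rcases hs with ⟨-, h, -⟩ | ⟨-, -, h⟩ | ⟨-, h, -⟩ | ⟨-, -, h⟩
          · omega
          · exact absurd h (by decide)
          · omega
          · exact absurd h (by decide)
        · exact h3
      · exact absurd h (by decide)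
    have hx' : x₀ ≤ x ∧ x < x₁ := by
      rcases hb with ⟨-, h1, h2, h3⟩ | ⟨h, -⟩
      · exact ⟨h1, h2⟩
      · exact absurd h (by decide)
    refine ⟨(y₁ - y₀) + (x - x₀), by omega, by omega, ?_⟩
    unfold ae
    rw [if_neg (by omega), if_pos (by omega), hy']
    refine Prod.ext (by dsimp only; omega) rfl
  · have hb' : q ≤ y ∧ y < y₁ ∧ (x = x₀ ∨ x = x₁) := by
      rcases hb with ⟨h, -⟩ | ⟨-, h⟩
      · exact absurd h (by decide)
      · exact h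
    have hy0 : y₀ ≤ y := by
      rcases hs with ⟨-, -, h⟩ | ⟨-, h, -⟩ | ⟨-, -, h⟩ | ⟨-, h, -⟩
      · exact absurd h (by decide)
      · omega
      · exact absurd h (by decide)
      · omega
    rcases hb'.2.2 with rfl | rfl
    · refine ⟨y - y₀, by omega, by omega, ?_⟩
      unfold ae
      rw [if_pos (by omega)]
      refine Prod.ext rfl (Prod.ext ?_ rfl)
      dsimp only
      omega
    · refine ⟨(y₁ - y₀) + (x - x₀) + (y₁ - 1 - y), by omega, by omega, ?_⟩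
      unfold ae
      rw [if_neg (by omega), if_neg (by omega)]
      refine Prod.ext rfl (Prod.ext ?_ rfl)
      dsimp only
      omega

theorem iE_of_side (hr : 1 ≤ r) (hb : BdR z r b) {f : ℤ × ℤ} (hf : z.2 ≤ f.2) (hs : IsSide f b) :
    ∃ j, 0 ≤ j ∧ j < 4 * r ∧ iE z r j = b := by
  obtain ⟨k, h1, h2, h3⟩ := ae_of_side (y₀ := z.2) hb (by omega) (by omega) (by omega) hf hs
  exact ⟨k, h1, by omega, h3⟩

theorem oE_of_side (hN : Ok N z r) (hb : BdR (0, 0) N b) {f : ℤ × ℤ} (hf : z.2 ≤ f.2)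
    (hs : IsSide f b) : ∃ k, 0 ≤ k ∧ k < oL N z ∧ oE N z k = b := by
  obtain ⟨h1, h2, h3, h4⟩ := hN
  have hz := abs_le.1 (show |z.2| ≤ N / 4 by omega)
  unfold BdR at hb
  simp only [zero_sub, zero_add] at hb
  obtain ⟨k, h5, h6, h7⟩ := ae_of_side (y₀ := z.2) hb (by omega) (by omega) (by omega) hf hs
  refine ⟨k, h5, ?_, h7⟩
  unfold oL
  omega

/-- The sides of the arc of a box are on the boundary of the box. -/
theorem bdE_ae {x₀ x₁ y₀ y₁ q k : ℤ} (hq : q ≤ y₀) (hx : x₀ < x₁) (hy : y₀ < y₁) (h0 : 0 ≤ k)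
    (h1 : k < 2 * (y₁ - y₀) + (x₁ - x₀)) : BdE x₀ x₁ q y₁ (ae x₀ x₁ y₀ y₁ k) := by
  unfold ae BdE
  split_ifs with h2 h3
  · right
    refine ⟨rfl, ?_, ?_, Or.inl rfl⟩ <;> dsimp only <;> omega
  · left
    refine ⟨rfl, ?_, ?_, Or.inr rfl⟩ <;> dsimp only <;> omega
  · right
    refine ⟨rfl, ?_, ?_, Or.inr rfl⟩ <;> dsimp only <;> omega

theorem bdR_iE (hr : 1 ≤ r) {j : ℤ} (h0 : 0 ≤ j) (h1 : j < 4 * r) : BdR z r (iE z r j) := by
  unfold BdR iE
  exact bdE_ae (by omega) (by omega) (by omega) h0 (by omega)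

theorem bdR_oE (hN : Ok N z r) {k : ℤ} (h0 : 0 ≤ k) (h1 : k < oL N z) :
    BdR (0, 0) N (oE N z k) := by
  obtain ⟨h2, h3, h4, h5⟩ := hN
  have hz := abs_le.1 (show |z.2| ≤ N / 4 by omega)
  unfold oL at h1
  unfold BdR oE
  simp only [zero_sub, zero_add]
  exact bdE_ae (by omega) (by omega) (by omega) h0 (by omega)

/-- Different numbers give different sides. -/
theorem ae_inj {x₀ x₁ y₀ y₁ k k' : ℤ} (hx : x₀ < x₁)
    (h : ae x₀ x₁ y₀ y₁ k = ae x₀ x₁ y₀ y₁ k') : k = k' := by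
  unfold ae at h
  split_ifs at h <;> simp only [Prod.mk.injEq, reduceCtorEq, and_false, and_true] at h <;> omega

theorem Ok.abs1 (hN : Ok N z r) : -(N / 4) ≤ z.1 ∧ z.1 ≤ N / 4 :=
  abs_le.1 (show |z.1| ≤ N / 4 by have := hN.z1; omega)

theorem Ok.abs2 (hN : Ok N z r) : -(N / 4) ≤ z.2 ∧ z.2 ≤ N / 4 :=
  abs_le.1 (show |z.2| ≤ N / 4 by have := hN.z2; omega)

/-- The small box is inside the large one. -/
theorem Ok.sub (hN : Ok N z r) : PercD.Sub z r (0, 0) (N - 1) := by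
  have h1 := hN.abs1
  have h2 := hN.abs2
  have h3 := hN.r1
  have h4 := hN.rN
  unfold PercD.Sub
  dsimp only
  omega

/-- A unit edge in the small box is not on the boundary of the large one. -/
theorem not_bd (hN : Ok N z r) (ha : InE z r a) (hb : BdR (0, 0) N a) : False := by
  have h1 := hN.sub.inE ha
  have h2 := bdR_of_sub (v' := (0, 0)) (r' := N - 1) (Sub.refl' (by omega)) h1 hb
  exact Perc6.N1Aux.bdR_ne (by omega : N - 1 < N) h2 hb rfl

theorem FH_sub_high {f : ℤ × ℤ} (hf : f ∈ FH N z r) : z.2 ≤ f.2 := by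
  have h1 := hf.1
  rw [mem_RF] at h1
  exact h1.2.2.1

/-- P6. -/
theorem p6 : P6 := by
  intro N z r s k k' hN hs hsr ω hω
  have key : ∀ k, (∃ j, ω ∈ Tip N z s k j) → ∃ j, ω ∈ Tip N z r k j := by
    rintro k ⟨j, hk, hj, h⟩
    have hNs : Ok N z s := ⟨hs, by have := hN.rN; omega, hN.z1, hN.z2⟩
    have hbs : BdR z s (iE z s j) := bdR_iE hs hj.1 hj.2
    have hbN : BdR (0, 0) N (oE N z k) := bdR_oE hN hk.1 hk.2
    have hin : InE z r (iE z s j) := (Sub.refl' hsr).inE (hbs.inE (by omega))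
    rcases PercS5.last_exit' hin (MM_symm h) with h1 | ⟨b, -, hb2, hb3⟩
    · exact (not_bd hN h1 hbN).elim
    · have hsub : FH N z s \ (BR z r : Set (ℤ × ℤ)) ⊆ FH N z r := by
        rintro f ⟨hf, hf'⟩
        exact ⟨hf.1, fun h2 => hf' (mem_coe.2 h2)⟩
      have h4 : b ∈ MM ω (FH N z r) (oE N z k) := MM_mono hsub (MM_symm hb3)
      have hne : b ≠ oE N z k := by
        rintro rfl
        exact not_bd hN (hb2.inE (by have := hN.r1; omega)) hbN
      obtain ⟨f, hf, hfs⟩ := side_of_mem h4 hne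
      obtain ⟨j', h5, h6, h7⟩ := iE_of_side hN.r1 hb2 (FH_sub_high hf) hfs
      exact ⟨j', hk, ⟨h5, h6⟩, by rw [h7]; exact h4⟩
  exact ⟨hω.1, hω.2.1, key k hω.2.2.1, key k' hω.2.2.2⟩

theorem bdF_FH_out (hN : Ok N z r) (hb : BdR (0, 0) N a) : PercN.BdF (FH N z r) a := by
  intro d h1 h2
  have h1 := h1.1
  have h2 := h2.1
  have h3 := hN.abs2
  have h4 := hN.r1
  have h5 := hN.rN
  rw [mem_RF] at h1 h2
  obtain ⟨x, y, c⟩ := a
  unfold BdR BdE at hb
  cases c <;> cases d <;> simp [Tips.ahead] at hb h1 h2 <;> omega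

theorem bdF_FH_in (hb : BdR z r a) : PercN.BdF (FH N z r) a := by
  intro d h1 h2
  have h3 := h1.2
  have h4 := h2.2
  have h1 := h1.1
  have h2 := h2.1
  rw [mem_BR] at h3 h4
  rw [mem_RF] at h1 h2
  obtain ⟨x, y, c⟩ := a
  unfold BdR BdE at hb
  cases c <;> cases d <;> simp [Tips.ahead] at hb h1 h2 h3 h4 <;> omega

/-- P7. -/
theorem p7 : P7 := by
  intro N z r R hN hR ω hω
  obtain ⟨b, b', a, a', hne, hb, hb', ha, ha', h, h'⟩ := hω
  have key : ∀ b a : UE, BdR z r b → BdR z R a →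
      a ∈ MM ω {f | f ∈ BR z R ∧ f ∉ BR z r ∧ z.2 ≤ f.2} b →
      ∃ k j, ω ∈ Tip N z r k j ∧ b ∈ MM ω (FH N z r) (oE N z k) := by
    intro b a hb ha h
    have hin : InE (0, 0) N b := (Sub.refl' (by omega : N - 1 ≤ N)).inE
      (hN.sub.inE (hb.inE (by have := hN.r1; omega)))
    have hsub : ({f | f ∈ BR z R ∧ f ∉ BR z r ∧ z.2 ≤ f.2} ∩ (BR (0, 0) N : Set (ℤ × ℤ))) ⊆
        FH N z r := by
      rintro f ⟨⟨-, h1, h2⟩, h3⟩
      refine ⟨?_, h1⟩
      rw [mem_BR'] at h3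
      rw [mem_RF]
      simp only [zero_sub, zero_add] at h3
      omega
    obtain ⟨c, hc1, hc2⟩ : ∃ c ∈ MM ω ({f | f ∈ BR z R ∧ f ∉ BR z r ∧ z.2 ≤ f.2} ∩
        (BR (0, 0) N : Set (ℤ × ℤ))) b, BdR (0, 0) N c := by
      rcases Perc6.N1Aux.first_exitF hin h with h1 | h1
      · exfalso
        have h2 := MM_inE hin (MM_mono (F' := (BR (0, 0) N : Set (ℤ × ℤ))) Set.inter_subset_right h1)
        have h3 : PercD.Sub (0, 0) N z (R - 1) := by
          have e1 := hN.abs1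
          have e2 := hN.abs2
          have e3 := hN.r1
          have e4 := hN.rN
          unfold PercD.Sub
          dsimp only
          omega
        have h4 := h3.inE h2
        have h5 := bdR_of_sub (v' := z) (r' := R - 1) (Sub.refl' (by omega)) h4 ha
        exact Perc6.N1Aux.bdR_ne (by omega : R - 1 < R) h5 ha rfl
      · exact h1
    have hc3 : c ∈ MM ω (FH N z r) b := MM_mono hsub hc1
    have hne : c ≠ b := by
      rintro rfl
      exact not_bd hN (hb.inE (by have := hN.r1; omega)) hc2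
    obtain ⟨f, hf, hfs⟩ := side_of_mem hc3 hne
    obtain ⟨f', hf', hfs'⟩ := side_of_mem (MM_symm hc3) hne.symm
    obtain ⟨k, h5, h6, h7⟩ := oE_of_side hN hc2 (FH_sub_high hf) hfs
    obtain ⟨j, h8, h9, h10⟩ := iE_of_side hN.r1 hb (FH_sub_high hf') hfs'
    refine ⟨k, j, ⟨⟨h5, h6⟩, ⟨h8, h9⟩, ?_⟩, ?_⟩
    · rw [h7, h10]
      exact MM_symm hc3
    · rw [h7]
      exact MM_symm hc3
  obtain ⟨k₁, j₁, h1, h2⟩ := key b a hb ha h
  obtain ⟨k₂, j₂, h3, h4⟩ := key b' a' hb' ha' h'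
  have hkk : k₁ ≠ k₂ := by
    rintro rfl
    have ho := bdR_oE hN h1.1.1 h1.1.2
    refine hne (PercN.other_unique (bdF_FH_out hN ho) h2 h4 (bdF_FH_in hb) (bdF_FH_in hb') ?_ ?_)
    · rintro rfl
      exact not_bd hN (hb.inE (by have := hN.r1; omega)) ho
    · rintro rfl
      exact not_bd hN (hb'.inE (by have := hN.r1; omega)) ho
  rcases lt_or_gt_of_ne hkk with h5 | h5
  · exact ⟨k₁, k₂, j₁, j₂, h5, h1, h3⟩
  · exact ⟨k₂, k₁, j₂, j₁, h5, h3, h1⟩

/-! ### Translations -/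

theorem bdR_shE' {u : ℤ × ℤ} (h : BdR v r a) :
    BdR (v.1 - u.1, v.2 - u.2) r (PercS5.shE' u a) := by
  obtain ⟨x, y, c⟩ := a
  unfold BdR BdE at h ⊢
  unfold PercS5.shE'
  dsimp only at h ⊢
  rcases h with ⟨h0, h1, h2, h3⟩ | ⟨h0, h1, h2, h3⟩
  · exact Or.inl ⟨h0, by omega, by omega, by omega⟩
  · exact Or.inr ⟨h0, by omega, by omega, by omega⟩

theorem bdR_shE {u : ℤ × ℤ} (h : BdR v r a) :
    BdR (v.1 + u.1, v.2 + u.2) r (PercS5.shE u a) := by
  obtain ⟨x, y, c⟩ := a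
  unfold BdR BdE at h ⊢
  unfold PercS5.shE
  dsimp only at h ⊢
  rcases h with ⟨h0, h1, h2, h3⟩ | ⟨h0, h1, h2, h3⟩
  · exact Or.inl ⟨h0, by omega, by omega, by omega⟩
  · exact Or.inr ⟨h0, by omega, by omega, by omega⟩

theorem shE'_shE (u : ℤ × ℤ) (a : UE) : PercS5.shE' u (PercS5.shE u a) = a := by
  obtain ⟨x, y, b⟩ := a
  simp [PercS5.shE, PercS5.shE']

theorem x2_shift (v u : ℤ × ℤ) (r R : ℤ) :
    {ω : Cfg | shiftC u.1 u.2 ω ∈ X2 v r R} = X2 (v.1 + u.1, v.2 + u.2) r R := by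
  ext ω
  constructor
  · rintro ⟨b, b', a, a', hne, hb, hb', ha, ha', h, h'⟩
    have hF : ∀ f ∈ {f : ℤ × ℤ | f ∈ BR v R ∧ f ∉ BR v r ∧ v.2 ≤ f.2},
        (f.1 + u.1, f.2 + u.2) ∈ {f : ℤ × ℤ | f ∈ BR (v.1 + u.1, v.2 + u.2) R ∧
          f ∉ BR (v.1 + u.1, v.2 + u.2) r ∧ (v.1 + u.1, v.2 + u.2).2 ≤ f.2} := by
      rintro f ⟨h1, h2, h3⟩
      rw [mem_BR] at h1 h2
      refine ⟨?_, ?_, ?_⟩
      · rw [mem_BR]; dsimp only; omega
      · rw [mem_BR]; dsimp only; omega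
      · dsimp only; omega
    refine ⟨PercS5.shE u b, PercS5.shE u b', PercS5.shE u a, PercS5.shE u a', ?_, bdR_shE hb,
      bdR_shE hb', bdR_shE ha, bdR_shE ha', PercS5.MM_unshift hF h, PercS5.MM_unshift hF h'⟩
    intro he
    apply hne
    rw [← shE'_shE u b, he, shE'_shE]
  · rintro ⟨b, b', a, a', hne, hb, hb', ha, ha', h, h'⟩
    have hF : ∀ f ∈ {f : ℤ × ℤ | f ∈ BR (v.1 + u.1, v.2 + u.2) R ∧
          f ∉ BR (v.1 + u.1, v.2 + u.2) r ∧ (v.1 + u.1, v.2 + u.2).2 ≤ f.2},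
        (f.1 - u.1, f.2 - u.2) ∈ {f : ℤ × ℤ | f ∈ BR v R ∧ f ∉ BR v r ∧ v.2 ≤ f.2} := by
      rintro f ⟨h1, h2, h3⟩
      rw [mem_BR] at h1 h2
      dsimp only at h1 h2 h3
      refine ⟨?_, ?_, ?_⟩
      · rw [mem_BR]; dsimp only; omega
      · rw [mem_BR]; dsimp only; omega
      · dsimp only; omega
    have hv : ((v.1 + u.1, v.2 + u.2).1 - u.1, (v.1 + u.1, v.2 + u.2).2 - u.2) = v := by
      refine Prod.ext ?_ ?_ <;> dsimp only <;> omega
    have e1 := bdR_shE' (u := u) hb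
    have e2 := bdR_shE' (u := u) hb'
    have e3 := bdR_shE' (u := u) ha
    have e4 := bdR_shE' (u := u) ha'
    rw [hv] at e1 e2 e3 e4
    exact ⟨PercS5.shE' u b, PercS5.shE' u b', PercS5.shE' u a, PercS5.shE' u a',
      fun he => hne (PercS5.shE'_inj he), e1, e2, e3, e4, PercS5.MM_shift hF h,
      PercS5.MM_shift hF h'⟩

theorem depOn_X2 (v : ℤ × ℤ) (r R : ℤ) : DepOn (BR v R : Set (ℤ × ℤ)) (X2 v r R) := by
  intro ω ω' h
  have hM : ∀ e, MM ω' {f | f ∈ BR v R ∧ f ∉ BR v r ∧ v.2 ≤ f.2} e =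
      MM ω {f | f ∈ BR v R ∧ f ∉ BR v r ∧ v.2 ≤ f.2} e :=
    fun e => MM_congr' fun f hf => h f (mem_coe.2 hf.1)
  unfold X2
  simp only [Set.mem_ofPred_eq, hM]

/-- P8. -/
theorem p8 : P8 := by
  intro v v' r R _ _
  have h := TwoArm.pr_shift (depOn_X2 v r R) (v'.1 - v.1) (v'.2 - v.2) (S' := BR v' R) (by
    intro f hf
    rw [mem_BR] at hf ⊢
    dsimp only
    omega)
  have h2 := x2_shift v (v'.1 - v.1, v'.2 - v.2) r R
  dsimp only at h2
  rw [← h, h2]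
  congr 2
  refine Prod.ext ?_ ?_ <;> dsimp only <;> omega

end Pool.Agent.SixB.A2
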