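import Pool.Agent.Lib.SixB.A2P3
import Pool.Agent.Lib.SixB.A2P678

/-!
# 6BD, item (A2): the potential of a crossing strand of the half annulus

`hasPot_FH`, `strand_pot` (values along the outer arc, the inner arc and the two parts of the
floor), `pots`, `p3`.
-/

set_option autoImplicit false

namespace Pool.Agent.SixB.A2

open Finset Pool.Agent.Perc Pool.Agent.PercD Pool.Agent.PercL Pool.Agent.Perc6
open P3Aux

variable {N r s k k' j j' : ℤ} {z : ℤ × ℤ} {ω : Cfg}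

theorem hasPot_FH (hok : Ok N z r) : HasPot (FH N z r) := by
  have b1 := hok.abs1
  have b2 := hok.abs2
  obtain ⟨a1, a2, -, -⟩ := hok
  have e : FH N z r = (((RF (-N) (z.1 - r) z.2 N : Set (ℤ × ℤ)) ∪
      (RF (-N) N (z.2 + r) N : Set (ℤ × ℤ))) ∪ (RF (z.1 + r) N z.2 N : Set (ℤ × ℤ))) := by
    ext f
    rw [mem_FH, Set.mem_union, Set.mem_union, mem_RF', mem_RF', mem_RF']
    omega
  rw [e]
  refine PotB.glue (x₀ := z.1 + r) (x₁ := N) (y₀ := z.2 + r) (y₁ := N) ?_ (by omega)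
    (by omega) ?_ ?_ ?_
  · refine PotB.glue (x₀ := -N) (x₁ := z.1 - r) (y₀ := z.2 + r) (y₁ := N)
      (hasPot_RF _ _ _ _) (by omega) (by omega) ?_ ?_ ?_
    · intro f hf
      rw [mem_RF'] at hf ⊢
      omega
    · intro f hf
      rw [mem_RF'] at hf ⊢
      omega
    · intro v hv
      have := PotB.VF_RF hv
      omega
  · intro f hf
    rw [Set.mem_union, mem_RF', mem_RF']
    rw [mem_RF'] at hf
    omega
  · intro f hf
    rw [mem_RF'] at hf ⊢
    omega
  · intro v hv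
    rw [PotB.VF_union] at hv
    rcases hv with hv | hv <;>
    · have := PotB.VF_RF hv
      omega

/-- A potential along an arc which meets the set in one side. -/
theorem pot_arc {F : Set (ℤ × ℤ)} {M : Set UE} {Φ : ℤ × ℤ → ZMod 2} (hP : IsPot F M Φ)
    {x₀ x₁ y₀ y₁ L τ : ℤ} (hx : x₀ < x₁) (hy : y₀ < y₁) (hL : L ≤ 2 * (y₁ - y₀) + (x₁ - x₀))
    (hs : ∀ i, 0 ≤ i → i < L → ∃ f ∈ F, IsSide f (ae x₀ x₁ y₀ y₁ i))
    (hτ : ∀ i, 0 ≤ i → i < L → (ae x₀ x₁ y₀ y₁ i ∈ M ↔ i = τ)) (hτ0 : 0 ≤ τ) {i : ℤ}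
    (h0 : 0 ≤ i) (h1 : i ≤ L) :
    Φ (av x₀ x₁ y₀ y₁ i) = Φ (av x₀ x₁ y₀ y₁ 0) + if i ≤ τ then 0 else 1 := by
  revert h1
  induction i, h0 using Int.leInduction with
  | base =>
    intro _
    rw [if_pos hτ0, add_zero]
  | succ i hi ih =>
    intro h1
    have ih' := ih (by omega)
    obtain ⟨f, hf, hfs⟩ := hs i hi (by omega)
    have hj := hP.joins hf hfs (joins_ae hx hy hi (by omega))
    rw [hτ i hi (by omega)] at hj
    by_cases hiτ : i = τ
    · have h3 := hj.1 hiτ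
      rw [ih', if_pos (by omega), add_zero] at h3
      rw [if_neg (by omega)]
      revert h3
      generalize Φ (av x₀ x₁ y₀ y₁ 0) = p
      generalize Φ (av x₀ x₁ y₀ y₁ (i + 1)) = q
      revert p q
      decide
    · have h3 : Φ (av x₀ x₁ y₀ y₁ i) = Φ (av x₀ x₁ y₀ y₁ (i + 1)) := by
        by_contra h4
        exact hiτ (hj.2 h4)
      rw [← h3, ih']
      by_cases h5 : i ≤ τ
      · rw [if_pos h5, if_pos (by omega)]
      · rw [if_neg h5, if_neg (by omega)]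

/-- A horizontal unit edge at the height of the floor is not on the arcs. -/
theorem ae_ne_floor {x₀ x₁ y₀ y₁ i x : ℤ} (hy : y₀ < y₁) : ae x₀ x₁ y₀ y₁ i ≠ (x, y₀, false) := by
  unfold ae
  intro hh
  split_ifs at hh <;> simp only [Prod.mk.injEq, Bool.true_eq_false, and_false] at hh
  omega

theorem bdF_floor {x : ℤ} : PercN.BdF (FH N z r) (x, z.2, false) := by
  intro d h1 h2
  rw [mem_FH] at h1 h2
  cases d <;> simp [Tips.ahead] at h1 h2

/-- The sides of the floor. -/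
theorem side_floor (hok : Ok N z r) {x : ℤ} (h : (-N ≤ x ∧ x < z.1 - r) ∨ (z.1 + r ≤ x ∧ x < N)) :
    ∃ f ∈ FH N z r, IsSide f (x, z.2, false) := by
  have b1 := hok.abs1
  have b2 := hok.abs2
  obtain ⟨a1, a2, -, -⟩ := hok
  refine ⟨(x, z.2), ?_, Or.inl rfl⟩
  rw [mem_FH]
  dsimp only
  omega

/-- **The potential of a crossing strand**: `0` before the strand (left), `1` after it (right). -/
theorem strand_pot (hok : Ok N z r) (h : ω ∈ Tip N z r k j) :
    ∃ Φ : ℤ × ℤ → ZMod 2, IsPot (FH N z r) (MM ω (FH N z r) (oE N z k)) Φ ∧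
      (∀ i, 0 ≤ i → i ≤ oL N z → Φ (oV N z i) = if i ≤ k then 0 else 1) ∧
      (∀ t, 0 ≤ t → t ≤ 4 * r → Φ (iV z r t) = if t ≤ j then 0 else 1) ∧
      (∀ x, -N ≤ x → x ≤ z.1 - r → Φ (x, z.2) = 0) ∧
      (∀ x, z.1 + r ≤ x → x ≤ N → Φ (x, z.2) = 1) := by
  obtain ⟨⟨hk0, hk1⟩, ⟨hj0, hj1⟩, hm⟩ := h
  have b1 := hok.abs1
  have b2 := hok.abs2
  have a1 := hok.r1
  have a2 := hok.rN
  have hNz : z.2 < N := by omega
  set F := FH N z r with hF
  set e := oE N z k with he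
  obtain ⟨Φ₀, hΦ₀⟩ := hasPot_FH hok (MM ω F e) fun f hf => evenAt_MM hf
  have hbe : PercN.BdF F e := bdF_FH_out hok (bdR_oE hok hk0 hk1)
  have hbi : ∀ t, 0 ≤ t → t < 4 * r → PercN.BdF F (iE z r t) := fun t h0 h1 =>
    bdF_FH_in (bdR_iE a1 h0 h1)
  have hie : ∀ t i, 0 ≤ t → t < 4 * r → 0 ≤ i → i < oL N z → iE z r t ≠ oE N z i := by
    intro t i h0 h1 h2 h3 h4
    exact not_bd hok ((bdR_iE a1 h0 h1).inE (by omega)) (h4 ▸ bdR_oE hok h2 h3)
  have hin : ∀ t, 0 ≤ t → t < 4 * r → (iE z r t ∈ MM ω F e ↔ t = j) := by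
    intro t h0 h1
    constructor
    · intro ht
      have := PercN.other_unique hbe ht hm (hbi t h0 h1) (hbi j hj0 hj1)
        (hie t k h0 h1 hk0 hk1) (hie j k hj0 hj1 hk0 hk1)
      exact ae_inj (by omega) this
    · rintro rfl; exact hm
  have hout : ∀ i, 0 ≤ i → i < oL N z → (oE N z i ∈ MM ω F e ↔ i = k) := by
    intro i h0 h1
    constructor
    · intro hi
      by_contra hne
      have h3 : oE N z i ≠ e := fun hh => hne (ae_inj (by omega) hh)
      have := PercN.other_unique hbe hi hm (bdF_FH_out hok (bdR_oE hok h0 h1)) (hbi j hj0 hj1) h3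
        (hie j k hj0 hj1 hk0 hk1)
      exact hie j i hj0 hj1 h0 h1 this.symm
    · rintro rfl; exact mem_MM_self
  have hfl : ∀ x : ℤ, ((x, z.2, false) : UE) ∉ MM ω F e := by
    intro x hx
    have := PercN.other_unique hbe hx hm bdF_floor (hbi j hj0 hj1)
      (ae_ne_floor (by omega)).symm (hie j k hj0 hj1 hk0 hk1)
    exact ae_ne_floor (by omega) this.symm
  set Φ : ℤ × ℤ → ZMod 2 := fun w => Φ₀ w + Φ₀ (oV N z 0) with hΦdef
  have hΦ : IsPot F (MM ω F e) Φ := hΦ₀.add_const _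
  have h00 : Φ (oV N z 0) = 0 := by rw [hΦdef]; exact CharTwo.add_self_eq_zero _
  have hO : ∀ i, 0 ≤ i → i ≤ oL N z → Φ (oV N z i) = if i ≤ k then 0 else 1 := by
    intro i h0 h1
    have h2 := pot_arc hΦ (x₀ := -N) (x₁ := N) (y₀ := z.2) (y₁ := N) (L := oL N z) (τ := k)
      (by omega) (by omega) (by unfold oL; omega) (fun i h0 h1 => side_oE hok h0 h1)
      (fun i h0 h1 => hout i h0 h1) hk0 h0 h1
    exact h2.trans (by rw [show Φ (av (-N) N z.2 N 0) = 0 from h00, zero_add])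
  have step : ∀ x : ℤ, ((-N ≤ x ∧ x < z.1 - r) ∨ (z.1 + r ≤ x ∧ x < N)) →
      Φ (x, z.2) = Φ (x + 1, z.2) := by
    intro x hx
    obtain ⟨f, hf, hs⟩ := side_floor hok hx
    by_contra hne
    exact hfl x ((hΦ.joins (p := (x, z.2)) (q := (x + 1, z.2)) hf hs
      (Or.inl ⟨rfl, by simp [ub]⟩)).2 hne)
  have hleft : ∀ x, -N ≤ x → x ≤ z.1 - r → Φ (x, z.2) = 0 := by
    intro x hx
    induction x, hx using Int.leInduction with
    | base =>
      intro _
      have e0 : oV N z 0 = (-N, z.2) := by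
        unfold oV av
        rw [if_pos (by omega)]
        simp
      rw [← e0]
      exact h00
    | succ x hx ih =>
      intro h1
      rw [← step x (Or.inl ⟨hx, by omega⟩)]
      exact ih (by omega)
  have hI0 : Φ (iV z r 0) = 0 := by
    have e0 : iV z r 0 = (z.1 - r, z.2) := by
      unfold iV av
      rw [if_pos (by omega)]
      simp
    rw [e0]
    exact hleft _ (by omega) le_rfl
  have hI : ∀ t, 0 ≤ t → t ≤ 4 * r → Φ (iV z r t) = if t ≤ j then 0 else 1 := by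
    intro t h0 h1
    have h2 := pot_arc hΦ (x₀ := z.1 - r) (x₁ := z.1 + r) (y₀ := z.2) (y₁ := z.2 + r)
      (L := 4 * r) (τ := j) (by omega) (by omega) (by omega)
      (fun i h0 h1 => side_iE hok h0 h1) (fun i h0 h1 => hin i h0 h1) hj0 h0 h1
    exact h2.trans (by
      rw [show Φ (av (z.1 - r) (z.1 + r) z.2 (z.2 + r) 0) = 0 from hI0, zero_add])
  have hright : ∀ x, z.1 + r ≤ x → x ≤ N → Φ (x, z.2) = 1 := by
    intro x hx
    induction x, hx using Int.leInduction with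
    | base =>
      intro _
      have h1 := hI (4 * r) (by omega) le_rfl
      rw [if_neg (by omega)] at h1
      have e0 : iV z r (4 * r) = (z.1 + r, z.2) := by
        unfold iV av
        rw [if_neg (by omega), if_neg (by omega)]
        refine Prod.ext rfl ?_
        dsimp only
        omega
      rw [← e0]
      exact h1
    | succ x hx ih =>
      intro h1
      rw [← step x (Or.inr ⟨hx, by omega⟩)]
      exact ih (by omega)
  exact ⟨Φ, hΦ, hO, hI, hleft, hright⟩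

theorem pots (hok : Ok N z r) : Pots N z r := by
  intro ω k j h
  obtain ⟨Φ, h1, h2, h3, -, -⟩ := strand_pot hok h
  exact ⟨Φ, h1, h2, h3⟩

/-- **P3**: close tips are unlikely if the strands have to go on. -/
theorem p3 : P3 := p3_of (fun _ _ _ hok => pots hok) p6

/-- The two potentials of a pair, with the values on the floor. -/
theorem duo_pair (hok : Ok N z r) (h : ω ∈ Pair N z r k k') :
    ∃ (Φ Ψ : ℤ × ℤ → ZMod 2) (j j' : ℤ),
      Duo ω (FH N z r) (oE N z k) (oE N z k') (oV N z (k + 1)) (oV N z k) (oV N z k')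
        (oV N z (k' + 1)) Φ Ψ ∧ ω ∈ Tip N z r k j ∧ ω ∈ Tip N z r k' j' ∧ j < j' ∧
      (∀ i, 0 ≤ i → i ≤ oL N z → Φ (oV N z i) = if i ≤ k then 0 else 1) ∧
      (∀ i, 0 ≤ i → i ≤ oL N z → Ψ (oV N z i) = if i ≤ k' then 0 else 1) ∧
      (∀ t, 0 ≤ t → t ≤ 4 * r → Φ (iV z r t) = if t ≤ j then 0 else 1) ∧
      (∀ t, 0 ≤ t → t ≤ 4 * r → Ψ (iV z r t) = if t ≤ j' then 0 else 1) ∧
      (∀ x, -N ≤ x → x ≤ z.1 - r → Φ (x, z.2) = 0 ∧ Ψ (x, z.2) = 0) ∧
      (∀ x, z.1 + r ≤ x → x ≤ N → Φ (x, z.2) = 1 ∧ Ψ (x, z.2) = 1) := by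
  obtain ⟨Φ₁, Ψ₁, j, j', hD, hj, hj', hjj, -, -⟩ := duo_of_pair hok (pots hok) h
  obtain ⟨Φ, hΦ, hO, hI, hl, hr⟩ := strand_pot hok hj
  obtain ⟨Ψ, hΨ, hO', hI', hl', hr'⟩ := strand_pot hok hj'
  have a1 := hj.1.1
  have a2 := hj.1.2
  have a3 := hj'.1.1
  have a4 := hj'.1.2
  have hkk := h.1
  refine ⟨Φ, Ψ, j, j', ⟨hΦ, hΨ, hD.side, hD.side', hD.je, hD.je', hD.par_eq,
    ?_, ?_, ?_, ?_, ?_, ?_, ?_, ?_⟩, hj, hj', hjj, hO, hO', hI, hI',
    fun x h1 h2 => ⟨hl x h1 h2, hl' x h1 h2⟩, fun x h1 h2 => ⟨hr x h1 h2, hr' x h1 h2⟩⟩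
  · rw [hO _ (by omega) (by omega), if_neg (by omega)]
  · rw [hO _ (by omega) (by omega), if_pos (by omega)]
  · rw [hO _ (by omega) (by omega), if_neg (by omega)]
  · rw [hO _ (by omega) (by omega), if_neg (by omega)]
  · rw [hO' _ (by omega) (by omega), if_pos (by omega)]
  · rw [hO' _ (by omega) (by omega), if_pos (by omega)]
  · rw [hO' _ (by omega) (by omega), if_pos (by omega)]
  · rw [hO' _ (by omega) (by omega), if_neg (by omega)]

end Pool.Agent.SixB.A2
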