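import Mathlib

/-! Analysis package for MP_6bd702, file AN1.
* Poisson integrals of circle integrable functions are harmonic.
* Locally uniform limits of harmonic functions are harmonic.
* Second order expansion of circle averages.
* A continuous function with `circleAverage u z r - u z = o(r ^ 2)` locally uniformly is harmonic. -/

open Filter Topology Metric Set Complex InnerProductSpace Real MeasureTheory Laplacian

namespace Pool.Agent.SixB

/-- Poisson integrals are harmonic. -/
theorem harmonicOnNhd_poissonIntegral {g : ℂ → ℝ} {c : ℂ} {R : ℝ} (hg : CircleIntegrable g c R) :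
    HarmonicOnNhd (fun w => circleAverage (poissonKernel c w • g) c R) (ball c R) := by
  set g0 : ℂ → ℝ := fun z => g (z + c) with hg0
  have hg0i : CircleIntegrable g0 0 R := by
    have h1 : (fun θ => g0 (circleMap 0 R θ)) = fun θ => g (circleMap c R θ) := by
      funext θ
      simp only [hg0, circleMap, zero_add]
      rw [add_comm]
    simp only [CircleIntegrable] at hg ⊢
    rw [h1]; exact hg
  have hg1i : CircleIntegrable (fun z => (g0 z : ℂ)) 0 R := by
    simp only [CircleIntegrable, intervalIntegrable_iff] at hg0i ⊢
    exact Complex.ofRealCLM.integrable_comp hg0i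
  have hA := analyticOnNhd_circleAverage_herglotzRieszKernel_smul hg1i
  have key : ∀ w ∈ ball c R, circleAverage (poissonKernel c w • g) c R =
      (circleAverage (fun ζ ↦ herglotzRieszKernel 0 (w - c) ζ • (g0 ζ : ℂ)) 0 R).re := by
    intro w hw
    have hw' : w - c ∈ ball (0 : ℂ) R := by
      rw [mem_ball, dist_zero_right]; rwa [mem_ball, dist_eq_norm] at hw
    rw [re_circleAverage_herglotzRieszKernel_smul hg0i hw', ← circleAverage_map_add_const]
    congr 1
    funext z
    simp only [Pi.smul_apply', Function.comp_apply, hg0, poissonKernel_eq_re_herglotzRieszKernel]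
    rw [herglotzRieszKernel_add_const]
  intro w hw
  have hw' : w - c ∈ ball (0 : ℂ) R := by
    rw [mem_ball, dist_zero_right]; rwa [mem_ball, dist_eq_norm] at hw
  have h2 : AnalyticAt ℂ (fun x => circleAverage
      (fun ζ ↦ herglotzRieszKernel 0 (x - c) ζ • (g0 ζ : ℂ)) 0 R) w :=
    (hA (w - c) hw').comp_of_eq (by fun_prop) rfl
  refine (harmonicAt_congr_nhds ?_).2 h2.harmonicAt_re
  filter_upwards [isOpen_ball.mem_nhds hw] with x hx
  exact key x hx

theorem abs_circleAverage_sub_le {f g : ℂ → ℝ} {c : ℂ} {R ε : ℝ} (hf : CircleIntegrable f c R)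
    (hg : CircleIntegrable g c R) (h : ∀ z ∈ sphere c |R|, |f z - g z| ≤ ε) :
    |circleAverage f c R - circleAverage g c R| ≤ ε := by
  rw [← circleAverage_fun_sub hf hg]
  refine abs_circleAverage_le_circleAverage_abs.trans ?_
  refine circleAverage_mono_on_of_le_circle ?_ ?_
  · exact (hf.sub hg).abs
  · intro z hz
    exact h z hz

/-- Locally uniform limits of harmonic functions are harmonic. -/
theorem harmonicOnNhd_of_tendstoLocallyUniformlyOn {ι : Type*} {l : Filter ι} [l.NeBot]
    {U : Set ℂ} (hU : IsOpen U) {F : ι → ℂ → ℝ} {f : ℂ → ℝ}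
    (hF : ∀ᶠ i in l, HarmonicOnNhd (F i) U) (h : TendstoLocallyUniformlyOn F f l U) :
    HarmonicOnNhd f U := by
  have hfc : ContinuousOn f U :=
    h.continuousOn (hF.mono fun i hi => hi.continuousOn).frequently
  intro c hc
  obtain ⟨R, hR, hRU⟩ := Metric.nhds_basis_closedBall.mem_iff.1 (hU.mem_nhds hc)
  have hunif : TendstoUniformlyOn F f l (closedBall c R) :=
    (tendstoLocallyUniformlyOn_iff_forall_isCompact hU).1 h _ hRU (isCompact_closedBall c R)
  have habs : |R| = R := abs_of_pos hR
  have hsph : sphere c |R| ⊆ closedBall c R := by rw [habs]; exact sphere_subset_closedBall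
  have hfi : CircleIntegrable f c R := (hfc.mono (hsph.trans hRU)).circleIntegrable'
  have key : ∀ w ∈ ball c R, f w = circleAverage (poissonKernel c w • f) c R := by
    intro w hw
    have hKc : ContinuousOn (poissonKernel c w) (sphere c |R|) := by
      rw [poissonKernel_eq_re_herglotzRieszKernel]
      exact Complex.continuous_re.comp_continuousOn (continuousOn_herglotzRieszKernel_sphere hw)
    have hKfi : CircleIntegrable (poissonKernel c w • f) c R :=
      (hKc.smul (hfc.mono (hsph.trans hRU))).circleIntegrable'
    obtain ⟨M, hM⟩ := (isCompact_sphere c |R|).exists_bound_of_continuousOn hKc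
    have hM0 : 0 ≤ M := by
      have : c + R ∈ sphere c |R| := by
        rw [mem_sphere, dist_eq_norm]; simp
      exact (norm_nonneg _).trans (hM _ this)
    have hlim1 : Tendsto (fun i => F i w) l (𝓝 (f w)) :=
      hunif.tendsto_at (ball_subset_closedBall hw)
    have hlim2 : Tendsto (fun i => circleAverage (poissonKernel c w • F i) c R) l
        (𝓝 (circleAverage (poissonKernel c w • f) c R)) := by
      rw [Metric.tendsto_nhds]
      intro ε hε
      have h3 : 0 < ε / (2 * (M + 1)) := by positivity
      filter_upwards [(Metric.tendstoUniformlyOn_iff.1 hunif) _ h3, hF] with i hi hFi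
      have hFic : ContinuousOn (F i) (sphere c |R|) := hFi.continuousOn.mono (hsph.trans hRU)
      rw [Real.dist_eq]
      refine lt_of_le_of_lt (abs_circleAverage_sub_le (ε := ε / 2)
        ((hKc.smul hFic).circleIntegrable') hKfi ?_) (by linarith)
      intro z hz
      have h4 := hi z (hsph hz)
      rw [dist_comm, Real.dist_eq] at h4
      have h5 := hM z hz
      rw [Real.norm_eq_abs] at h5
      simp only [Pi.smul_apply', smul_eq_mul]
      rw [← mul_sub, abs_mul]
      calc |poissonKernel c w z| * |F i z - f z| ≤ (M + 1) * (ε / (2 * (M + 1))) := by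
            gcongr
            linarith
        _ = ε / 2 := by field_simp
    refine tendsto_nhds_unique (hlim1.congr' ?_) hlim2
    filter_upwards [hF] with i hFi
    exact (HarmonicOnNhd.circleAverage_poissonKernel_smul (hFi.mono hRU) hw).symm
  refine (harmonicAt_congr_nhds ?_).2 (harmonicOnNhd_poissonIntegral hfi c (mem_ball_self hR))
  filter_upwards [isOpen_ball.mem_nhds (mem_ball_self hR)] with x hx
  exact key x hx

end Pool.Agent.SixB
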