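import Pool.Agent.Lib.SixB.AN6

/-!
# Lattice functions, Riemann sums, circle averages (AN6, second part)

`mesh n z = z / n` (a point of `ℂ`), `fl n x` = the lattice point below `n x`. A lattice function
`u : ℤ × ℤ → E` gives the step function `x ↦ u (fl n x)`.
* `AE_of_lattice`, `AE_of_hoelder`: equicontinuity of lattice functions on the mesh points gives `AE`.
* `riemann_tendsto`: `n^{-2} ∑ g(z/n) u(z) → ∫ g U`.
* `circleAverage_tendsto`, `circleIntegrable_step`, `circleAverage_step_tendsto`.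
-/

set_option autoImplicit false

namespace Pool.Agent.SixB.DC

open Filter Topology Set MeasureTheory

/-- the mesh point `z / n` -/
noncomputable def mesh (n : ℕ) (z : ℤ × ℤ) : ℂ := ⟨(z.1 : ℝ) / n, (z.2 : ℝ) / n⟩

/-- the lattice point below `n x` -/
noncomputable def fl (n : ℕ) (x : ℂ) : ℤ × ℤ := (⌊(n : ℝ) * x.re⌋, ⌊(n : ℝ) * x.im⌋)

@[simp] lemma mesh_re (n : ℕ) (z : ℤ × ℤ) : (mesh n z).re = (z.1 : ℝ) / n := rfl

@[simp] lemma mesh_im (n : ℕ) (z : ℤ × ℤ) : (mesh n z).im = (z.2 : ℝ) / n := rfl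

lemma fl_mesh {n : ℕ} (hn : 0 < n) (z : ℤ × ℤ) : fl n (mesh n z) = z := by
  have hn' : (n : ℝ) ≠ 0 := by positivity
  ext
  · simp [fl, mul_div_cancel₀ _ hn']
  · simp [fl, mul_div_cancel₀ _ hn']

lemma dist_mesh_fl {n : ℕ} (hn : 0 < n) (x : ℂ) : dist (mesh n (fl n x)) x ≤ 2 / n := by
  have hn' : (0 : ℝ) < n := by positivity
  have key : ∀ a : ℝ, |((⌊(n : ℝ) * a⌋ : ℤ) : ℝ) / n - a| ≤ 1 / n := by
    intro a
    have h1 := Int.floor_le ((n : ℝ) * a)
    have h2 := Int.lt_floor_add_one ((n : ℝ) * a)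
    have h3 : ((⌊(n : ℝ) * a⌋ : ℤ) : ℝ) / n - a = (((⌊(n : ℝ) * a⌋ : ℤ) : ℝ) - n * a) / n := by
      field_simp
    rw [h3, abs_div, abs_of_pos hn']
    gcongr
    rw [abs_le]
    constructor <;> linarith
  calc dist (mesh n (fl n x)) x = ‖mesh n (fl n x) - x‖ := dist_eq_norm _ _
    _ ≤ |(mesh n (fl n x) - x).re| + |(mesh n (fl n x) - x).im| := Complex.norm_le_abs_re_add_abs_im _
    _ ≤ 1 / n + 1 / n := add_le_add (key x.re) (key x.im)
    _ = 2 / n := by ring

lemma measurable_fl (n : ℕ) : Measurable (fl n) := by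
  refine Measurable.prodMk ?_ ?_
  · exact Int.measurable_floor.comp (measurable_const.mul Complex.measurable_re)
  · exact Int.measurable_floor.comp (measurable_const.mul Complex.measurable_im)

/-- the cell of a lattice point -/
def cell (n : ℕ) (z : ℤ × ℤ) : Set ℂ := fl n ⁻¹' {z}

lemma measurableSet_cell (n : ℕ) (z : ℤ × ℤ) : MeasurableSet (cell n z) :=
  measurable_fl n (measurableSet_singleton z)

lemma cell_eq {n : ℕ} (hn : 0 < n) (z : ℤ × ℤ) :
    cell n z = Complex.measurableEquivRealProd ⁻¹'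
      (Ico ((z.1 : ℝ) / n) (((z.1 : ℝ) + 1) / n) ×ˢ Ico ((z.2 : ℝ) / n) (((z.2 : ℝ) + 1) / n)) := by
  have hn' : (0 : ℝ) < n := by positivity
  ext x
  simp only [cell, mem_preimage, mem_singleton_iff, fl, Prod.ext_iff, Int.floor_eq_iff, mem_prod,
    mem_Ico, Complex.measurableEquivRealProd_apply]
  rw [div_le_iff₀ hn', div_le_iff₀ hn', lt_div_iff₀ hn', lt_div_iff₀ hn', mul_comm x.re,
    mul_comm x.im]

lemma volume_cell {n : ℕ} (hn : 0 < n) (z : ℤ × ℤ) :
    (volume : Measure ℂ).real (cell n z) = ((n : ℝ) ^ 2)⁻¹ := by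
  have hn' : (0 : ℝ) < n := by positivity
  rw [measureReal_def, cell_eq hn, (Complex.volume_preserving_equiv_real_prod).measure_preimage
    (measurableSet_Ico.prod measurableSet_Ico).nullMeasurableSet, Measure.volume_eq_prod,
    Measure.prod_prod, Real.volume_Ico, Real.volume_Ico, ← ENNReal.ofReal_mul, ENNReal.toReal_ofReal]
  · field_simp
    ring
  · apply mul_nonneg
    · rw [← sub_div]; simp only [add_sub_cancel_left]; positivity
    · rw [← sub_div]; simp only [add_sub_cancel_left]; positivity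
  · rw [← sub_div]; simp only [add_sub_cancel_left]; positivity

/-- finitely many mesh points in a bounded set -/
lemma finite_mesh {n : ℕ} (hn : 0 < n) {K : Set ℂ} (hK : Bornology.IsBounded K) :
    {z : ℤ × ℤ | mesh n z ∈ K}.Finite := by
  have hn' : (0 : ℝ) < n := by positivity
  obtain ⟨R, hR⟩ := hK.exists_norm_le
  refine Set.Finite.subset ((finite_Icc (-⌈R * n⌉) ⌈R * n⌉).prod (finite_Icc (-⌈R * n⌉) ⌈R * n⌉)) ?_
  have key : ∀ a : ℤ, |(a : ℝ) / n| ≤ R → a ∈ Icc (-⌈R * n⌉) ⌈R * n⌉ := by
    intro a ha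
    rw [abs_div, abs_of_pos hn', div_le_iff₀ hn', abs_le] at ha
    have h3 := Int.le_ceil (R * n)
    constructor
    · have : (-(⌈R * n⌉ : ℤ) : ℝ) ≤ (a : ℝ) := by linarith
      exact_mod_cast this
    · have : (a : ℝ) ≤ (⌈R * n⌉ : ℤ) := by linarith
      exact_mod_cast this
  intro z hz
  have h1 := hR _ hz
  exact ⟨key _ ((Complex.abs_re_le_norm _).trans h1), key _ ((Complex.abs_im_le_norm _).trans h1)⟩

section AEq

variable {ι E : Type*} [PseudoMetricSpace E]

private lemma eventually_two_div {l : Filter ι} {N : ι → ℕ} (hN : Tendsto N l atTop) {η : ℝ}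
    (hη : 0 < η) : ∀ᶠ i in l, 0 < N i ∧ (2 : ℝ) / (N i) ≤ η := by
  obtain ⟨m, hm⟩ := exists_nat_gt (2 / η)
  filter_upwards [hN.eventually (eventually_ge_atTop (m + 1))] with i hi
  have h0 : 0 < N i := by omega
  refine ⟨h0, ?_⟩
  have h1 : (m : ℝ) ≤ N i := by exact_mod_cast (by omega : m ≤ N i)
  have h2 : (0 : ℝ) < N i := by exact_mod_cast h0
  rw [div_le_iff₀ h2]
  rw [div_lt_iff₀ hη] at hm
  nlinarith

/-- equicontinuity on the mesh points gives `AE` for the step functions -/
theorem AE_of_lattice {l : Filter ι} {N : ι → ℕ} (hN : Tendsto N l atTop) {D : Set ℂ}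
    (hD : IsOpen D) {u : ι → ℤ × ℤ → E}
    (h : ∀ K ⊆ D, IsCompact K → ∀ ε > 0, ∃ δ > 0, ∀ᶠ i in l, ∀ z w, mesh (N i) z ∈ K →
      mesh (N i) w ∈ K → dist (mesh (N i) z) (mesh (N i) w) < δ → dist (u i z) (u i w) < ε) :
    AE l (fun i x => u i (fl (N i) x)) D := by
  intro K hKD hK ε hε
  obtain ⟨η, hη, hη'⟩ := hK.exists_cthickening_subset_open hD hKD
  obtain ⟨δ, hδ, h1⟩ := h _ hη' hK.cthickening ε hε
  refine ⟨δ / 2, half_pos hδ, ?_⟩
  filter_upwards [h1, eventually_two_div hN hη, eventually_two_div hN (show 0 < δ / 4 by positivity)]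
    with i h1 h2 h3 x hx y hy hxy
  have hx' := dist_mesh_fl h2.1 x
  have hy' := dist_mesh_fl h2.1 y
  refine h1 _ _ ?_ ?_ ?_
  · exact Metric.mem_cthickening_of_dist_le _ x _ _ hx (hx'.trans h2.2)
  · exact Metric.mem_cthickening_of_dist_le _ y _ _ hy (hy'.trans h2.2)
  · calc dist (mesh (N i) (fl (N i) x)) (mesh (N i) (fl (N i) y))
        ≤ dist (mesh (N i) (fl (N i) x)) x + dist x y + dist y (mesh (N i) (fl (N i) y)) :=
          dist_triangle4 _ _ _ _
      _ < δ := by
          rw [dist_comm y]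
          linarith [h3.2]

/-- a Hoelder bound (down to the lattice scale) gives `AE` for the step functions -/
theorem AE_of_hoelder {l : Filter ι} {N : ι → ℕ} (hN : Tendsto N l atTop) {D : Set ℂ}
    (hD : IsOpen D) {u : ι → ℤ × ℤ → E}
    (h : ∀ K ⊆ D, IsCompact K → ∃ C : ℝ, ∃ c : ℝ, 0 < c ∧ ∀ᶠ i in l, ∀ z w, mesh (N i) z ∈ K →
      mesh (N i) w ∈ K →
      dist (u i z) (u i w) ≤ C * (dist (mesh (N i) z) (mesh (N i) w) + 2 / N i) ^ c) :
    AE l (fun i x => u i (fl (N i) x)) D := by
  refine AE_of_lattice hN hD fun K hKD hK ε hε => ?_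
  obtain ⟨C, c, hc, h1⟩ := h K hKD hK
  have h0 : Tendsto (fun t : ℝ => |C| * t ^ c) (𝓝[≥] 0) (𝓝 0) := by
    have := (Real.continuous_rpow_const hc.le).tendsto (0 : ℝ)
    rw [Real.zero_rpow hc.ne'] at this
    simpa using (this.mono_left nhdsWithin_le_nhds).const_mul |C|
  have h2 : ∀ᶠ t in 𝓝[≥] (0 : ℝ), |C| * t ^ c < ε := h0.eventually (gt_mem_nhds hε)
  rw [eventually_nhdsWithin_iff, Metric.eventually_nhds_iff] at h2
  obtain ⟨δ, hδ, h2⟩ := h2
  refine ⟨δ / 2, half_pos hδ, ?_⟩
  filter_upwards [h1, eventually_two_div hN (half_pos hδ)] with i h1 h3 z w hz hw hzw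
  have h4 : 0 ≤ dist (mesh (N i) z) (mesh (N i) w) + 2 / N i := by positivity
  refine (h1 z w hz hw).trans_lt (lt_of_le_of_lt ?_ (h2 (y := dist (mesh (N i) z) (mesh (N i) w)
    + 2 / N i) ?_ h4))
  · gcongr
    exact le_abs_self C
  · rw [Real.dist_eq, sub_zero, abs_of_nonneg h4]
    linarith [h3.2]

end AEq

section Integral

variable {ι : Type*}

/-- integral of a step function -/
theorem integral_step {n : ℕ} (hn : 0 < n) (h : ℤ × ℤ → ℝ) (hfin : (Function.support h).Finite) :
    ∫ x : ℂ, h (fl n x) = ((n : ℝ) ^ 2)⁻¹ * ∑' z, h z := by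
  classical
  have h1 : ∑' z, h z = ∑ z ∈ hfin.toFinset, h z :=
    tsum_eq_sum fun z hz => by
      by_contra hne
      exact hz (hfin.mem_toFinset.2 hne)
  have h2 : ∀ x : ℂ, h (fl n x) = ∑ z ∈ hfin.toFinset, (cell n z).indicator (fun _ => h z) x := by
    intro x
    by_cases hx : fl n x ∈ hfin.toFinset
    · rw [Finset.sum_eq_single (fl n x)]
      · rw [indicator_of_mem (by rfl)]
      · intro z _ hz
        exact indicator_of_notMem (fun hmem => hz hmem.symm) _
      · intro hcon
        exact absurd hx hcon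
    · rw [Finset.sum_eq_zero]
      · by_contra hne
        exact hx (hfin.mem_toFinset.2 hne)
      · intro z hz
        refine indicator_of_notMem (fun hmem => hx ?_) _
        have : fl n x = z := hmem
        rwa [this]
  rw [h1]
  simp_rw [h2]
  rw [integral_finsetSum]
  · simp_rw [integral_indicator_const _ (measurableSet_cell n _), volume_cell hn, smul_eq_mul]
    rw [← Finset.mul_sum]
  · intro z _
    refine (integrable_indicator_iff (measurableSet_cell n z)).2 ?_
    refine integrableOn_const ?_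
    have h3 := volume_cell hn z
    intro htop
    rw [measureReal_def, htop, ENNReal.toReal_top] at h3
    have : (0 : ℝ) < ((n : ℝ) ^ 2)⁻¹ := by positivity
    linarith

/-- a bounded measurable step function is integrable on compact sets -/
lemma integrableOn_step {n : ℕ} (hn : 0 < n) (h : ℤ × ℤ → ℝ) {K : Set ℂ} (hK : IsCompact K) :
    IntegrableOn (fun x : ℂ => h (fl n x)) K := by
  have hfin : (fl n '' K).Finite := by
    refine (finite_mesh hn (hK.cthickening (r := 2)).isBounded).subset ?_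
    rintro _ ⟨x, hx, rfl⟩
    refine Metric.mem_cthickening_of_dist_le _ x _ _ hx ((dist_mesh_fl hn x).trans ?_)
    have : (1 : ℝ) ≤ n := by exact_mod_cast hn
    rw [div_le_iff₀ (by positivity)]
    linarith
  obtain ⟨B, hB⟩ : ∃ B : ℝ, ∀ x ∈ K, ‖h (fl n x)‖ ≤ B := by
    have := (hfin.image (fun z => ‖h z‖)).bddAbove
    obtain ⟨B, hB⟩ := this
    exact ⟨B, fun x hx => hB ⟨fl n x, ⟨x, hx, rfl⟩, rfl⟩⟩
  refine Measure.integrableOn_of_bounded (M := B) hK.measure_lt_top.ne ?_ ?_
  · exact ((measurable_of_countable h).comp (measurable_fl n)).aestronglyMeasurable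
  · exact (ae_restrict_iff' hK.measurableSet).2 (Eventually.of_forall hB)

/-- uniform convergence on a set of finite measure -/
theorem tendsto_setIntegral_unif {X : Type*} [MeasurableSpace X] {μ : Measure X} {K : Set X}
    (hK : μ K < ⊤) {l : Filter ι} {G : ι → X → ℝ} {V : X → ℝ}
    (hG : ∀ᶠ i in l, IntegrableOn (G i) K μ) (hV : IntegrableOn V K μ)
    (h : TendstoUniformlyOn G V l K) :
    Tendsto (fun i => ∫ x in K, G i x ∂μ) l (𝓝 (∫ x in K, V x ∂μ)) := by
  rw [Metric.tendsto_nhds]
  intro ε hε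
  rw [Metric.tendstoUniformlyOn_iff] at h
  have hpos : 0 < ε / (μ.real K + 1) := by positivity
  filter_upwards [hG, h _ hpos] with i hG h
  rw [Real.dist_eq, ← integral_sub hG hV, ← Real.norm_eq_abs]
  refine (norm_setIntegral_le_of_norm_le_const hK (C := ε / (μ.real K + 1)) ?_).trans_lt ?_
  · intro x hx
    have := h x hx
    rw [dist_comm, Real.dist_eq] at this
    exact this.le
  · rw [div_mul_eq_mul_div, div_lt_iff₀ (by positivity)]
    nlinarith [measureReal_nonneg (μ := μ) (s := K)]

/-- **Riemann sums** of lattice functions with a locally uniform limit -/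
theorem riemann_tendsto {l : Filter ι} {N : ι → ℕ} (hN : Tendsto N l atTop) {D : Set ℂ}
    (hD : IsOpen D) {u : ι → ℤ × ℤ → ℝ} {U : ℂ → ℝ} (hU : ContinuousOn U D)
    (h : TendstoLocallyUniformlyOn (fun i x => u i (fl (N i) x)) U l D) {g : ℂ → ℝ}
    (hg : Continuous g) (hgc : HasCompactSupport g) (hgD : tsupport g ⊆ D) :
    Tendsto (fun i => (((N i : ℕ) : ℝ) ^ 2)⁻¹ * ∑' z : ℤ × ℤ, g (mesh (N i) z) * u i z) l
      (𝓝 (∫ x, g x * U x)) := by
  have hgc' : IsCompact (tsupport g) := hgc
  obtain ⟨η, hη, hη'⟩ := hgc'.exists_cthickening_subset_open hD hgD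
  set K := Metric.cthickening η (tsupport g) with hK
  have hKc : IsCompact K := hgc'.cthickening
  have hsub : tsupport g ⊆ K := Metric.self_subset_cthickening _
  have huc : UniformContinuous g := hgc.uniformContinuous_of_continuous hg
  have hUK : ContinuousOn U K := hU.mono hη'
  obtain ⟨B, hB⟩ := hKc.exists_bound_of_continuousOn hUK
  obtain ⟨A, hA⟩ := hgc'.exists_bound_of_continuousOn hg.continuousOn
  have hA' : ∀ x, |g x| ≤ |A| := by
    intro x
    by_cases hx : x ∈ tsupport g
    · exact (hA x hx).trans (le_abs_self A)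
    · rw [image_eq_zero_of_notMem_tsupport hx, abs_zero]; exact abs_nonneg A
  have hF := unif_compact hD h hη' hKc
  have hunif : TendstoUniformlyOn (fun i x => g (mesh (N i) (fl (N i) x)) * u i (fl (N i) x))
      (fun x => g x * U x) l K := by
    rw [Metric.tendstoUniformlyOn_iff]
    intro ε hε
    rw [Metric.tendstoUniformlyOn_iff] at hF
    have e1 : 0 < ε / (2 * (|B| + 2)) := by positivity
    have e2 : 0 < min 1 (ε / (2 * (|A| + 1))) := by positivity
    obtain ⟨δ, hδ, hδ'⟩ := Metric.uniformContinuous_iff.1 huc _ e1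
    filter_upwards [hF _ e2, eventually_two_div hN (half_pos hδ)] with i h1 h2 x hx
    have a1 : |U x| ≤ |B| := (hB x hx).trans (le_abs_self B)
    have a2 : |U x - u i (fl (N i) x)| < min 1 (ε / (2 * (|A| + 1))) := by
      have := h1 x hx
      rwa [Real.dist_eq] at this
    have a3 : |g x - g (mesh (N i) (fl (N i) x))| < ε / (2 * (|B| + 2)) := by
      have := hδ' (a := x) (b := mesh (N i) (fl (N i) x)) (by
        rw [dist_comm]
        exact ((dist_mesh_fl h2.1 x).trans h2.2).trans_lt (half_lt_self hδ))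
      rwa [Real.dist_eq] at this
    have a4 : |u i (fl (N i) x)| ≤ |B| + 1 := by
      have := abs_sub_abs_le_abs_sub (u i (fl (N i) x)) (U x)
      rw [abs_sub_comm] at this
      linarith [a2.le.trans (min_le_left _ _)]
    have e : g x * U x - g (mesh (N i) (fl (N i) x)) * u i (fl (N i) x)
        = g x * (U x - u i (fl (N i) x)) + (g x - g (mesh (N i) (fl (N i) x))) * u i (fl (N i) x) := by
      ring
    rw [Real.dist_eq, e]
    have b1 : |g x * (U x - u i (fl (N i) x))| ≤ |A| * (ε / (2 * (|A| + 1))) := by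
      rw [abs_mul]
      exact mul_le_mul (hA' x) (a2.le.trans (min_le_right _ _)) (abs_nonneg _) (abs_nonneg _)
    have b2 : |(g x - g (mesh (N i) (fl (N i) x))) * u i (fl (N i) x)|
        ≤ ε / (2 * (|B| + 2)) * (|B| + 1) := by
      rw [abs_mul]
      exact mul_le_mul a3.le a4 (abs_nonneg _) e1.le
    have c1 : |A| * (ε / (2 * (|A| + 1))) ≤ ε / 2 := by
      have : 0 ≤ |A| := abs_nonneg A
      rw [mul_div_assoc', div_le_div_iff₀ (by positivity) (by positivity)]
      nlinarith
    have c2 : ε / (2 * (|B| + 2)) * (|B| + 1) < ε / 2 := by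
      have : 0 ≤ |B| := abs_nonneg B
      rw [div_mul_eq_mul_div, div_lt_div_iff₀ (by positivity) (by positivity)]
      nlinarith
    calc _ ≤ _ := abs_add_le _ _
      _ < ε := by linarith
  have hmain := tendsto_setIntegral_unif (μ := (volume : Measure ℂ))
    hKc.measure_lt_top (l := l)
    (G := fun i x => g (mesh (N i) (fl (N i) x)) * u i (fl (N i) x)) (V := fun x => g x * U x)
    (by
      filter_upwards [eventually_two_div hN hη] with i hi
      exact integrableOn_step hi.1 (fun z => g (mesh (N i) z) * u i z) hKc)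
    ((hg.continuousOn.mul hUK).integrableOn_compact hKc) hunif
  have hlim : ∫ x in K, g x * U x = ∫ x, g x * U x := by
    refine setIntegral_eq_integral_of_forall_compl_eq_zero fun x hx => ?_
    rw [image_eq_zero_of_notMem_tsupport (fun hx' => hx (hsub hx')), zero_mul]
  rw [hlim] at hmain
  refine hmain.congr' ?_
  filter_upwards [eventually_two_div hN hη] with i hi
  rw [setIntegral_eq_integral_of_forall_compl_eq_zero, integral_step hi.1
    (fun z => g (mesh (N i) z) * u i z)]
  · refine (finite_mesh hi.1 hgc'.isBounded).subset fun z hz => ?_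
    rw [Function.mem_support] at hz
    by_contra hcon
    exact hz (by rw [image_eq_zero_of_notMem_tsupport hcon, zero_mul])
  · intro x hx
    have : mesh (N i) (fl (N i) x) ∉ tsupport g := fun hmem =>
      hx (Metric.mem_cthickening_of_dist_le _ _ _ _ hmem (by
        rw [dist_comm]; exact (dist_mesh_fl hi.1 x).trans hi.2))
    rw [image_eq_zero_of_notMem_tsupport this, zero_mul]

/-- circle averages converge under uniform convergence on the circle -/
theorem circleAverage_tendsto {l : Filter ι} {F : ι → ℂ → ℝ} {U : ℂ → ℝ} {c : ℂ} {R : ℝ}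
    (h : TendstoUniformlyOn F U l (Metric.sphere c |R|)) (hF : ∀ᶠ i in l, CircleIntegrable (F i) c R)
    (hU : CircleIntegrable U c R) :
    Tendsto (fun i => Real.circleAverage (F i) c R) l (𝓝 (Real.circleAverage U c R)) := by
  rw [Metric.tendsto_nhds]
  intro ε hε
  rw [Metric.tendstoUniformlyOn_iff] at h
  filter_upwards [hF, h _ (half_pos hε)] with i hF h
  have h1 : Real.circleAverage (F i) c R - Real.circleAverage U c R
      = Real.circleAverage (F i - U) c R := (Real.circleAverage_sub hF hU).symm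
  have hsub : CircleIntegrable (F i - U) c R := hF.sub hU
  have hneg : CircleIntegrable (-(F i - U)) c R := hsub.neg
  have hle : ∀ x ∈ Metric.sphere c |R|, (F i - U) x ≤ ε / 2 := by
    intro x hx
    have := h x hx
    rw [dist_comm, Real.dist_eq] at this
    exact (le_abs_self _).trans this.le
  have hle' : ∀ x ∈ Metric.sphere c |R|, (-(F i - U)) x ≤ ε / 2 := by
    intro x hx
    have := h x hx
    rw [dist_comm, Real.dist_eq] at this
    exact (neg_le_abs _).trans this.le
  have a1 := Real.circleAverage_mono_on_of_le_circle hsub hle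
  have a2 := Real.circleAverage_mono_on_of_le_circle hneg hle'
  have a3 : Real.circleAverage (-(F i - U)) c R = - Real.circleAverage (F i - U) c R := by
    have := Real.circleAverage_smul (𝕜 := ℝ) (a := (-1 : ℝ)) (f := F i - U) (c := c) (R := R)
    simpa using this
  rw [Real.dist_eq, h1, abs_lt]
  rw [a3] at a2
  constructor <;> linarith

lemma circleIntegrable_step {n : ℕ} (hn : 0 < n) (h : ℤ × ℤ → ℝ) (c : ℂ) (R : ℝ) :
    CircleIntegrable (fun x : ℂ => h (fl n x)) c R := by
  have hK : IsCompact (Metric.sphere c |R|) := isCompact_sphere c |R|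
  have hfin : (fl n '' Metric.sphere c |R|).Finite := by
    refine (finite_mesh hn (hK.cthickening (r := 2)).isBounded).subset ?_
    rintro _ ⟨x, hx, rfl⟩
    refine Metric.mem_cthickening_of_dist_le _ x _ _ hx ((dist_mesh_fl hn x).trans ?_)
    have : (1 : ℝ) ≤ n := by exact_mod_cast hn
    rw [div_le_iff₀ (by positivity)]
    linarith
  obtain ⟨B, hB⟩ : ∃ B : ℝ, ∀ x ∈ Metric.sphere c |R|, ‖h (fl n x)‖ ≤ B := by
    have := (hfin.image (fun z => ‖h z‖)).bddAbove
    obtain ⟨B, hB⟩ := this
    exact ⟨B, fun x hx => hB ⟨fl n x, ⟨x, hx, rfl⟩, rfl⟩⟩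
  rw [CircleIntegrable, intervalIntegrable_iff]
  refine Measure.integrableOn_of_bounded (M := B) (by simp [ENNReal.mul_eq_top]) ?_ ?_
  · exact ((measurable_of_countable h).comp ((measurable_fl n).comp
      (continuous_circleMap c R).measurable)).aestronglyMeasurable
  · exact Eventually.of_forall fun θ => hB _ (circleMap_mem_sphere' c R θ)

/-- circle averages of step functions -/
theorem circleAverage_step_tendsto {l : Filter ι} {N : ι → ℕ} (hN : Tendsto N l atTop) {D : Set ℂ}
    (hD : IsOpen D) {u : ι → ℤ × ℤ → ℝ} {U : ℂ → ℝ} (hU : ContinuousOn U D)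
    (h : TendstoLocallyUniformlyOn (fun i x => u i (fl (N i) x)) U l D) {c : ℂ} {R : ℝ}
    (hc : Metric.sphere c |R| ⊆ D) :
    Tendsto (fun i => Real.circleAverage (fun x => u i (fl (N i) x)) c R) l
      (𝓝 (Real.circleAverage U c R)) := by
  refine circleAverage_tendsto (unif_compact hD h hc (isCompact_sphere c |R|)) ?_
    (hU.mono hc).circleIntegrable'
  filter_upwards [eventually_two_div hN one_pos] with i hi
  exact circleIntegrable_step hi.1 (u i) c R

end Integral

end Pool.Agent.SixB.DC
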