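import Pool.Agent.Lib.SixB.AN8

/-! Analysis package for MP_6bd702, file AN7.
* Maximum principle (also with a flat Neumann part).
* Even reflection at a flat wall from the weak Neumann condition.
* Lipschitz and gradient bounds for harmonic functions. -/

open Filter Topology Metric Set Complex InnerProductSpace Real MeasureTheory Laplacian
open scoped ComplexConjugate

namespace Pool.Agent.SixB

theorem circleAverage_normSq (z z0 : ℂ) (r : ℝ) :
    circleAverage (fun w => ‖w - z0‖ ^ 2) z r = ‖z - z0‖ ^ 2 + r ^ 2 := by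
  have h1 : circleAverage (fun w => ‖w - z0‖ ^ 2) z r = circleAverage (fun w =>
      ((‖z - z0‖ ^ 2 + r ^ 2 : ℝ) + 2 * (conj (z - z0) * (w - z)) : ℂ).re) z r := by
    refine circleAverage_congr_sphere ?_
    intro w hw
    rw [mem_sphere, dist_eq_norm] at hw
    have h2 : w - z0 = (z - z0) + (w - z) := by ring
    have h3 : ‖w - z‖ ^ 2 = r ^ 2 := by rw [hw, sq_abs]
    simp only
    rw [h2, ← Complex.normSq_eq_norm_sq, Complex.normSq_add, Complex.normSq_eq_norm_sq,
      Complex.normSq_eq_norm_sq, h3]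
    have h4 : ((z - z0) * conj (w - z)).re = (conj (z - z0) * (w - z)).re := by
      simp only [mul_re, conj_re, conj_im]; ring
    rw [h4]
    simp only [Complex.add_re, Complex.ofReal_re, Complex.mul_re, Complex.re_ofNat, Complex.im_ofNat]
    ring
  rw [h1]
  have hk : HarmonicOnNhd (fun w : ℂ =>
      ((‖z - z0‖ ^ 2 + r ^ 2 : ℝ) + 2 * (conj (z - z0) * (w - z)) : ℂ).re) (closedBall z |r|) := by
    intro w _
    have : AnalyticAt ℂ (fun w : ℂ =>
      ((‖z - z0‖ ^ 2 + r ^ 2 : ℝ) + 2 * (conj (z - z0) * (w - z)) : ℂ)) w := by fun_prop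
    exact this.harmonicAt_re
  rw [hk.circleAverage_eq]
  simp [-ofReal_add, -ofReal_pow]

theorem exists_gt_of_harmonic {h : ℂ → ℝ} {z z0 : ℂ} {r : ℝ} (hr : 0 < r)
    (hh : HarmonicOnNhd h (closedBall z r)) {ε : ℝ} (hε : 0 < ε) :
    ∃ z' ∈ sphere z r, h z + ε * ‖z - z0‖ ^ 2 < h z' + ε * ‖z' - z0‖ ^ 2 := by
  by_contra hcon
  push Not at hcon
  have habs : |r| = r := abs_of_pos hr
  have hsub : sphere z |r| ⊆ closedBall z r := by rw [habs]; exact sphere_subset_closedBall
  have hi1 : CircleIntegrable h z r := (hh.continuousOn.mono hsub).circleIntegrable'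
  have hc2 : Continuous fun w : ℂ => ε * ‖w - z0‖ ^ 2 := by fun_prop
  have hi2 : CircleIntegrable (fun w => ε * ‖w - z0‖ ^ 2) z r := hc2.continuousOn.circleIntegrable'
  have h1 : circleAverage (fun w => h w + ε * ‖w - z0‖ ^ 2) z r ≤ h z + ε * ‖z - z0‖ ^ 2 := by
    refine circleAverage_mono_on_of_le_circle (hi1.add hi2) ?_
    intro w hw
    rw [habs] at hw
    exact hcon w hw
  rw [circleAverage_fun_add hi1 hi2] at h1
  have h2 : circleAverage h z r = h z := by
    have := InnerProductSpace.HarmonicOnNhd.circleAverage_eq (f := h) (c := z) (R := r) (by rwa [habs])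
    exact this
  have h3 : circleAverage (fun w => ε * ‖w - z0‖ ^ 2) z r = ε * (‖z - z0‖ ^ 2 + r ^ 2) := by
    have h4 := circleAverage_smul (f := fun w : ℂ => ‖w - z0‖ ^ 2) (c := z) (R := r) (a := ε)
    rw [circleAverage_normSq] at h4
    exact h4
  rw [h2, h3] at h1
  have : 0 < ε * r ^ 2 := by positivity
  nlinarith

/-- Maximum principle: `B` is the part of `K` where nothing is assumed. -/
theorem max_principle {K : Set ℂ} (hK : IsCompact K) {f : ℂ → ℝ} (hf : ContinuousOn f K)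
    {B : Set ℂ} {M : ℝ} (hB : ∀ z ∈ K, z ∈ B → f z ≤ M)
    (hI : ∀ z ∈ K, z ∉ B → ∃ r > 0, closedBall z r ⊆ K ∧ HarmonicOnNhd f (closedBall z r)) :
    ∀ z ∈ K, f z ≤ M := by
  intro z hz
  obtain ⟨C, hC⟩ := hK.isBounded.exists_norm_le
  refine le_of_forall_pos_le_add fun δ hδ => ?_
  set ε := δ / (C ^ 2 + 1) with hε
  have hεpos : 0 < ε := by positivity
  have hcont : ContinuousOn (fun w => f w + ε * ‖w - 0‖ ^ 2) K := hf.add (by fun_prop)
  obtain ⟨zm, hzm, hmax⟩ := hK.exists_isMaxOn ⟨z, hz⟩ hcont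
  have hmem : zm ∈ B := by
    by_contra hnB
    obtain ⟨r, hr, hrK, hrh⟩ := hI zm hzm hnB
    obtain ⟨z', hz', hgt⟩ := exists_gt_of_harmonic (z0 := 0) hr hrh hεpos
    have := hmax (hrK (sphere_subset_closedBall hz'))
    simp only [Set.mem_ofPred_eq] at this
    linarith
  have h1 : f z + ε * ‖z - 0‖ ^ 2 ≤ f zm + ε * ‖zm - 0‖ ^ 2 := hmax hz
  have h2 := hB zm hzm hmem
  have h3 : ε * ‖zm - 0‖ ^ 2 ≤ δ := by
    rw [sub_zero, hε]
    have h4 := hC zm hzm
    have h5 : ‖zm‖ ^ 2 ≤ C ^ 2 := by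
      have := norm_nonneg zm
      gcongr
    calc δ / (C ^ 2 + 1) * ‖zm‖ ^ 2 ≤ δ / (C ^ 2 + 1) * (C ^ 2 + 1) := by gcongr; linarith
      _ = δ := by field_simp
  have h6 : 0 ≤ ε * ‖z - 0‖ ^ 2 := by positivity
  linarith

/-- Maximum principle with a Neumann part on the real axis. -/
theorem max_principle_neu {K : Set ℂ} (hK : IsCompact K) (hK0 : ∀ z ∈ K, 0 ≤ z.im) {f : ℂ → ℝ}
    (hf : ContinuousOn f K) {B : Set ℂ} {M : ℝ} (hB : ∀ z ∈ K, z ∈ B → f z ≤ M)
    (hI : ∀ z ∈ K, z ∉ B → (∃ r > 0, closedBall z r ⊆ K ∧ HarmonicOnNhd f (closedBall z r)) ∨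
      (∀ ε : ℝ, 0 < ε → ∃ t : ℝ, 0 < t ∧ z + t * I ∈ K ∧ f z - ε * t ≤ f (z + t * I))) :
    ∀ z ∈ K, f z ≤ M := by
  intro z hz
  obtain ⟨C, hC⟩ := hK.isBounded.exists_norm_le
  have hC0 : 0 ≤ C := (norm_nonneg z).trans (hC z hz)
  refine le_of_forall_pos_le_add fun δ hδ => ?_
  set ε := δ / (C ^ 2 + C + 1) with hε
  have hden : 0 < C ^ 2 + C + 1 := by positivity
  have hεpos : 0 < ε := by positivity
  have hcont : ContinuousOn (fun w => (f w + ε * w.im) + ε * ‖w - 0‖ ^ 2) K :=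
    (hf.add (by fun_prop)).add (by fun_prop)
  obtain ⟨zm, hzm, hmax⟩ := hK.exists_isMaxOn ⟨z, hz⟩ hcont
  have hmem : zm ∈ B := by
    by_contra hnB
    rcases hI zm hzm hnB with ⟨r, hr, hrK, hrh⟩ | hneu
    · have hrh' : HarmonicOnNhd (fun w => f w + ε * w.im) (closedBall zm r) := by
        intro w hw
        have h1 : HarmonicAt (fun w : ℂ => ε * w.im) w := by
          have : AnalyticAt ℂ (fun w : ℂ => (ε : ℂ) * w) w := by fun_prop
          have h2 := this.harmonicAt_im
          simpa using h2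
        exact (hrh w hw).add h1
      obtain ⟨z', hz', hgt⟩ := exists_gt_of_harmonic (z0 := 0) hr hrh' hεpos
      have := hmax (hrK (sphere_subset_closedBall hz'))
      simp only [Set.mem_ofPred_eq] at this
      linarith
    · obtain ⟨t, ht, htK, hft⟩ := hneu (ε / 2) (by positivity)
      have h1 := hmax htK
      simp only [Set.mem_ofPred_eq, sub_zero] at h1
      have h2 : ‖zm + t * I‖ ^ 2 = ‖zm‖ ^ 2 + 2 * t * zm.im + t ^ 2 := by
        rw [← Complex.normSq_eq_norm_sq, ← Complex.normSq_eq_norm_sq, Complex.normSq_apply,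
          Complex.normSq_apply]
        simp
        ring
      have h3 : (zm + t * I).im = zm.im + t := by simp
      rw [h2, h3] at h1
      have h4 := hK0 zm hzm
      have h5 : 0 ≤ ε * (2 * t * zm.im) := by positivity
      have h6 : 0 < ε * t := by positivity
      have h7 : 0 < ε * t ^ 2 := by positivity
      nlinarith
  have h1 : (f z + ε * z.im) + ε * ‖z - 0‖ ^ 2 ≤ (f zm + ε * zm.im) + ε * ‖zm - 0‖ ^ 2 := hmax hz
  have h2 := hB zm hzm hmem
  have h4 := hC zm hzm
  have h5 : ‖zm‖ ^ 2 ≤ C ^ 2 := by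
    have := norm_nonneg zm
    gcongr
  have h6 : zm.im ≤ C := (Complex.im_le_norm zm).trans h4
  have h3 : ε * zm.im + ε * ‖zm - 0‖ ^ 2 ≤ δ := by
    rw [sub_zero, hε]
    calc δ / (C ^ 2 + C + 1) * zm.im + δ / (C ^ 2 + C + 1) * ‖zm‖ ^ 2
        = δ / (C ^ 2 + C + 1) * (zm.im + ‖zm‖ ^ 2) := by ring
      _ ≤ δ / (C ^ 2 + C + 1) * (C ^ 2 + C + 1) := by
        refine mul_le_mul_of_nonneg_left (by linarith) (by positivity)
      _ = δ := by field_simp
  have h7 : 0 ≤ ε * ‖z - 0‖ ^ 2 := by positivity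
  have h8 : 0 ≤ ε * z.im := by
    have := hK0 z hz
    positivity
  linarith

/-- Harmonic functions composed with an affine holomorphic map. -/
theorem harmonicAt_comp_affine {u : ℂ → ℝ} {a p w : ℂ} (h : HarmonicAt u (p + w * a)) :
    HarmonicAt (fun w => u (p + w * a)) w := by
  obtain ⟨R, hR, hball⟩ := Metric.eventually_nhds_iff_ball.1 h.eventually
  obtain ⟨F, hF, hFe⟩ := HarmonicOnNhd.exists_analyticOnNhd_ball_re_eq (z := p + w * a) (R := R)
    (f := u) (fun x hx => hball x hx)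
  have h1 : AnalyticAt ℂ (fun x : ℂ => F (p + x * a)) w :=
    (hF (p + w * a) (mem_ball_self hR)).comp_of_eq (by fun_prop) rfl
  refine (harmonicAt_congr_nhds ?_).2 h1.harmonicAt_re
  have h2 : ∀ᶠ x in 𝓝 w, p + x * a ∈ ball (p + w * a) R := by
    have : ContinuousAt (fun x : ℂ => p + x * a) w := by fun_prop
    exact this (ball_mem_nhds _ hR)
  filter_upwards [h2] with x hx
  exact (hFe hx).symm

/-- Harmonic functions composed with conjugation. -/
theorem harmonicAt_comp_conj {u : ℂ → ℝ} {w : ℂ} (h : HarmonicAt u (conj w)) :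
    HarmonicAt (fun w => u (conj w)) w := by
  obtain ⟨R, hR, hball⟩ := Metric.eventually_nhds_iff_ball.1 h.eventually
  obtain ⟨F, hF, hFe⟩ := HarmonicOnNhd.exists_analyticOnNhd_ball_re_eq (z := conj w) (R := R)
    (f := u) (fun x hx => hball x hx)
  have hmem : ∀ x ∈ ball w R, conj x ∈ ball (conj w) R := by
    intro x hx
    rw [mem_ball, dist_eq_norm] at hx ⊢
    rw [← map_sub, Complex.norm_conj]; exact hx
  have h1 : AnalyticAt ℂ (fun x : ℂ => conj (F (conj x))) w := by
    have hd : DifferentiableOn ℂ (fun x : ℂ => conj (F (conj x))) (ball w R) := by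
      intro x hx
      have h3 : DifferentiableAt ℂ F (conj x) := (hF _ (hmem x hx)).differentiableAt
      have h4 := h3.conj_conj
      rw [Complex.conj_conj] at h4
      exact h4.differentiableWithinAt
    exact hd.analyticAt (ball_mem_nhds w hR)
  refine (harmonicAt_congr_nhds ?_).2 h1.harmonicAt_re
  filter_upwards [ball_mem_nhds w hR] with x hx
  rw [conj_re]
  exact (hFe (hmem x hx)).symm

end Pool.Agent.SixB
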