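import Pool.Agent.Lib.SixB.AN1

/-! Analysis package for MP_6bd702, file AN8.
* Dirichlet problem on a disc.
* Maximum principle lemma.
* Even reflection at a flat wall (weak Neumann condition). -/

open Filter Topology Metric Set Complex InnerProductSpace Real MeasureTheory Laplacian

namespace Pool.Agent.SixB

theorem poissonKernel_nonneg {c w z : ℂ} {R : ℝ} (hw : w ∈ ball c R) (hz : z ∈ sphere c R) :
    0 ≤ poissonKernel c w z := by
  rw [mem_ball, dist_eq_norm] at hw
  rw [mem_sphere, dist_eq_norm] at hz
  rw [poissonKernel_def, hz]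
  have : ‖w - c‖ ^ 2 ≤ R ^ 2 := by
    have := norm_nonneg (w - c)
    gcongr
  exact div_nonneg (by linarith) (by positivity)

theorem continuousOn_poissonKernel_sphere {c w : ℂ} {R : ℝ} (hw : w ∈ ball c R) :
    ContinuousOn (poissonKernel c w) (sphere c |R|) := by
  rw [poissonKernel_eq_re_herglotzRieszKernel]
  exact Complex.continuous_re.comp_continuousOn (continuousOn_herglotzRieszKernel_sphere hw)

theorem circleAverage_poissonKernel {c w : ℂ} {R : ℝ} (hw : w ∈ ball c R) :
    circleAverage (poissonKernel c w) c R = 1 := by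
  have h := HarmonicOnNhd.circleAverage_poissonKernel_smul
    (f := fun _ => (1:ℝ)) (c := c) (R := R) (w := w) (harmonicOnNhd_const 1) hw
  have h2 : (poissonKernel c w • fun _ : ℂ => (1:ℝ)) = poissonKernel c w := by
    funext z; simp
  rw [h2] at h
  exact h

/-- The solution of the Dirichlet problem on the disc. -/
noncomputable def dirichletSol (c : ℂ) (R : ℝ) (g : ℂ → ℝ) (w : ℂ) : ℝ :=
  open Classical in
  if w ∈ ball c R then circleAverage (poissonKernel c w • g) c R else g w

theorem dirichletSol_of_mem {c w : ℂ} {R : ℝ} {g : ℂ → ℝ} (hw : w ∈ ball c R) :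
    dirichletSol c R g w = circleAverage (poissonKernel c w • g) c R := by
  rw [dirichletSol, if_pos hw]

theorem dirichletSol_of_notMem {c w : ℂ} {R : ℝ} {g : ℂ → ℝ} (hw : w ∉ ball c R) :
    dirichletSol c R g w = g w := by
  rw [dirichletSol, if_neg hw]

theorem harmonicOnNhd_dirichletSol {c : ℂ} {R : ℝ} {g : ℂ → ℝ} (hg : CircleIntegrable g c R) :
    HarmonicOnNhd (dirichletSol c R g) (ball c R) := by
  intro w hw
  refine (harmonicAt_congr_nhds ?_).2 (harmonicOnNhd_poissonIntegral hg w hw)
  filter_upwards [isOpen_ball.mem_nhds hw] with x hx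
  exact dirichletSol_of_mem hx

theorem continuousOn_dirichletSol {c : ℂ} {R : ℝ} (hR : 0 < R) {g : ℂ → ℝ}
    (hg : ContinuousOn g (sphere c R)) :
    ContinuousOn (dirichletSol c R g) (closedBall c R) := by
  have habs : |R| = R := abs_of_pos hR
  have hgi : CircleIntegrable g c R := by
    apply ContinuousOn.circleIntegrable'
    rwa [habs]
  intro ζ hζ
  rcases (mem_closedBall.1 hζ).lt_or_eq with hlt | heq
  · exact ((harmonicOnNhd_dirichletSol hgi).continuousOn.continuousAt
      (isOpen_ball.mem_nhds hlt)).continuousWithinAt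
  · have hζs : ζ ∈ sphere c R := heq
    obtain ⟨M, hM⟩ := (isCompact_sphere c R).exists_bound_of_continuousOn hg
    have hM0 : 0 ≤ M := (norm_nonneg _).trans (hM ζ hζs)
    rw [Metric.continuousWithinAt_iff]
    intro ε hε
    have hcw := hg ζ hζs
    rw [Metric.continuousWithinAt_iff] at hcw
    obtain ⟨δ, hδ, h1⟩ := hcw (ε / 3) (by positivity)
    -- smallness of R² - |w - c|²
    have hcont : Tendsto (fun w : ℂ => 2 * M * ((R ^ 2 - ‖w - c‖ ^ 2) * (4 / δ ^ 2))) (𝓝 ζ) (𝓝 0) := by
      have : Continuous (fun w : ℂ => 2 * M * ((R ^ 2 - ‖w - c‖ ^ 2) * (4 / δ ^ 2))) := by fun_prop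
      have h2 := this.tendsto ζ
      have h3 : ‖ζ - c‖ = R := by rw [← dist_eq_norm]; exact hζs
      rw [h3, sub_self, zero_mul, mul_zero] at h2
      exact h2
    obtain ⟨δ2, hδ2, h4⟩ := Metric.eventually_nhds_iff.1
      (hcont.eventually (gt_mem_nhds (show (0:ℝ) < ε / 3 by positivity)))
    refine ⟨min (δ / 2) δ2, lt_min (by positivity) hδ2, fun w hw hwd => ?_⟩
    have hwδ : dist w ζ < δ / 2 := lt_of_lt_of_le hwd (min_le_left _ _)
    have hwδ2 : dist w ζ < δ2 := lt_of_lt_of_le hwd (min_le_right _ _)
    have hζn : ζ ∉ ball c R := by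
      rw [mem_ball]; rw [mem_sphere] at hζs; rw [hζs]; exact lt_irrefl _
    rw [dirichletSol_of_notMem hζn]
    by_cases hwb : w ∈ ball c R
    · rw [dirichletSol_of_mem hwb]
      have hKc := continuousOn_poissonKernel_sphere hwb
      have hKi : CircleIntegrable (poissonKernel c w) c R := hKc.circleIntegrable'
      have hgs : ContinuousOn g (sphere c |R|) := by rwa [habs]
      have hKg : CircleIntegrable (poissonKernel c w • g) c R := (hKc.smul hgs).circleIntegrable'
      have hconst : g ζ = circleAverage (fun z => poissonKernel c w z * g ζ) c R := by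
        have h5 := circleAverage_smul (f := poissonKernel c w) (c := c) (R := R) (a := g ζ)
        rw [circleAverage_poissonKernel hwb] at h5
        have h6 : (fun z => poissonKernel c w z * g ζ) = g ζ • poissonKernel c w := by
          funext z; simp [mul_comm]
        rw [h6, h5]; simp
      have hKgi : CircleIntegrable (fun z => poissonKernel c w z * g ζ) c R :=
        (hKc.mul continuousOn_const).circleIntegrable'
      rw [Real.dist_eq, hconst, ← circleAverage_fun_sub hKg hKgi]
      have hbd : ∀ z ∈ sphere c |R|, |(poissonKernel c w • g) z - poissonKernel c w z * g ζ| ≤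
          ε / 3 * poissonKernel c w z + 2 * M * ((R ^ 2 - ‖w - c‖ ^ 2) * (4 / δ ^ 2)) := by
        intro z hz
        rw [habs] at hz
        have hP := poissonKernel_nonneg hwb hz
        have hpos2 : 0 ≤ 2 * M * ((R ^ 2 - ‖w - c‖ ^ 2) * (4 / δ ^ 2)) := by
          have : ‖w - c‖ ^ 2 ≤ R ^ 2 := by
            rw [mem_ball, dist_eq_norm] at hwb
            have := norm_nonneg (w - c)
            gcongr
          have h7 : 0 ≤ R ^ 2 - ‖w - c‖ ^ 2 := by linarith
          positivity
        have heq2 : (poissonKernel c w • g) z - poissonKernel c w z * g ζ =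
            poissonKernel c w z * (g z - g ζ) := by
          simp only [Pi.smul_apply', smul_eq_mul]; ring
        rw [heq2, abs_mul, abs_of_nonneg hP]
        by_cases hzδ : dist z ζ < δ
        · have h8 := (h1 hz hzδ).le
          rw [Real.dist_eq] at h8
          calc poissonKernel c w z * |g z - g ζ| ≤ poissonKernel c w z * (ε / 3) := by gcongr
            _ ≤ _ := by linarith
        · rw [not_lt] at hzδ
          have hzw : δ / 2 ≤ ‖z - w‖ := by
            have h9 := dist_triangle z w ζ
            rw [← dist_eq_norm]
            linarith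
          have h10 : poissonKernel c w z ≤ (R ^ 2 - ‖w - c‖ ^ 2) * (4 / δ ^ 2) := by
            rw [mem_sphere, dist_eq_norm] at hz
            rw [poissonKernel_def, hz, sub_sub_sub_cancel_right, div_eq_mul_inv]
            have : ‖w - c‖ ^ 2 ≤ R ^ 2 := by
              rw [mem_ball, dist_eq_norm] at hwb
              have := norm_nonneg (w - c)
              gcongr
            refine mul_le_mul_of_nonneg_left ?_ (by linarith)
            rw [show (4:ℝ) / δ ^ 2 = ((δ / 2) ^ 2)⁻¹ by field_simp; norm_num]
            gcongr
          have h11 : |g z - g ζ| ≤ 2 * M := by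
            have h12 := hM z hz
            have h13 := hM ζ hζs
            rw [Real.norm_eq_abs] at h12 h13
            exact (abs_sub _ _).trans (by linarith)
          calc poissonKernel c w z * |g z - g ζ| ≤
              ((R ^ 2 - ‖w - c‖ ^ 2) * (4 / δ ^ 2)) * (2 * M) := by
                have h14 : 0 ≤ (R ^ 2 - ‖w - c‖ ^ 2) * (4 / δ ^ 2) := hP.trans h10
                gcongr
            _ = 2 * M * ((R ^ 2 - ‖w - c‖ ^ 2) * (4 / δ ^ 2)) := by ring
            _ ≤ _ := by
              have : 0 ≤ ε / 3 * poissonKernel c w z := by positivity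
              linarith
      have hint2 : CircleIntegrable (fun z => ε / 3 * poissonKernel c w z +
          2 * M * ((R ^ 2 - ‖w - c‖ ^ 2) * (4 / δ ^ 2))) c R :=
        ((continuousOn_const.mul hKc).add continuousOn_const).circleIntegrable'
      have hint1 : CircleIntegrable (fun z => |(poissonKernel c w • g) z -
          poissonKernel c w z * g ζ|) c R :=
        (((hKc.smul hgs).sub (hKc.mul continuousOn_const)).abs).circleIntegrable'
      have hval : circleAverage (fun z => ε / 3 * poissonKernel c w z +
          2 * M * ((R ^ 2 - ‖w - c‖ ^ 2) * (4 / δ ^ 2))) c R =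
          ε / 3 + 2 * M * ((R ^ 2 - ‖w - c‖ ^ 2) * (4 / δ ^ 2)) := by
        have hi3 : CircleIntegrable (fun z => ε / 3 * poissonKernel c w z) c R :=
          (continuousOn_const.mul hKc).circleIntegrable'
        have hi4 : CircleIntegrable (fun _ : ℂ => 2 * M * ((R ^ 2 - ‖w - c‖ ^ 2) * (4 / δ ^ 2)))
          c R := continuousOn_const.circleIntegrable'
        rw [circleAverage_fun_add hi3 hi4, circleAverage_const]
        have h15 := circleAverage_smul (f := poissonKernel c w) (c := c) (R := R) (a := ε / 3)
        rw [circleAverage_poissonKernel hwb] at h15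
        have h16 : (fun z => ε / 3 * poissonKernel c w z) = (ε / 3) • poissonKernel c w := by
          funext z; simp
        rw [h16, h15]; simp
      have h17 := h4 hwδ2
      calc |circleAverage (fun z => (poissonKernel c w • g) z - poissonKernel c w z * g ζ) c R|
          ≤ circleAverage (fun z => |(poissonKernel c w • g) z - poissonKernel c w z * g ζ|) c R :=
            abs_circleAverage_le_circleAverage_abs
        _ ≤ circleAverage (fun z => ε / 3 * poissonKernel c w z +
            2 * M * ((R ^ 2 - ‖w - c‖ ^ 2) * (4 / δ ^ 2))) c R :=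
            circleAverage_mono hint1 hint2 hbd
        _ = ε / 3 + 2 * M * ((R ^ 2 - ‖w - c‖ ^ 2) * (4 / δ ^ 2)) := hval
        _ < ε := by linarith
    · rw [dirichletSol_of_notMem hwb]
      have hws : w ∈ sphere c R := by
        rw [mem_sphere]
        rw [mem_ball, not_lt] at hwb
        exact le_antisymm hw hwb
      have := h1 hws (by linarith)
      linarith

end Pool.Agent.SixB
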