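import Pool.Agent.Lib.SixB.AN1d
import Pool.Agent.Lib.SixB.AN7
import Pool.Agent.Lib.SixB.AN8
import Pool.Agent.Lib.SixB.AN6b

/-!
# The lattice Laplacian against test functions (AN10)

* `lapZ V v`: the lattice Laplacian.
* `lapZ_tendsto`: if the step functions of `V i` converge locally uniformly to `U`, then
  `∑ χ(v/n) (lapZ V)(v) → ∫ U Δχ`.
* `harmonicOnNhd_of_profile`: a continuous function `U` with `∫ U Δ[χ((· - z)/r)] = o(r ^ 2)` locally uniformly in `z`
  is harmonic (one fixed profile `χ` with `∫ χ ≠ 0`).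
* `harmonicAt_of_punctured`: continuous and harmonic off a point implies harmonic.
-/

set_option autoImplicit false

open Filter Topology Metric Set Complex InnerProductSpace Real MeasureTheory Laplacian
open scoped Convolution ContDiff

namespace Pool.Agent.SixB.DC

/-- the lattice Laplacian -/
def lapZ (V : ℤ × ℤ → ℝ) (v : ℤ × ℤ) : ℝ :=
  V (v.1 + 1, v.2) + V (v.1 - 1, v.2) + V (v.1, v.2 + 1) + V (v.1, v.2 - 1) - 4 * V v

/-- second differences in one variable -/
lemma second_diff {f f' f'' : ℝ → ℝ} (h1 : ∀ t, HasDerivAt f (f' t) t)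
    (h2 : ∀ t, HasDerivAt f' (f'' t) t) {T ε c : ℝ} (hT : 0 ≤ T)
    (hε : ∀ s, |s| ≤ T → |f'' s - c| ≤ ε) :
    |f T + f (-T) - 2 * f 0 - T ^ 2 * c| ≤ 2 * ε * T ^ 2 := by
  have hε0 : 0 ≤ ε := (abs_nonneg _).trans (hε 0 (by simpa using hT))
  have hneg : ∀ (g g' : ℝ → ℝ), (∀ t, HasDerivAt g (g' t) t) →
      ∀ t, HasDerivAt (fun t => g (-t)) (-(g' (-t))) t := by
    intro g g' hg t
    have := (hg (-t)).comp t (hasDerivAt_neg t)
    rw [mul_neg_one] at this
    exact this
  have hk : ∀ t ∈ Icc (0 : ℝ) T, |(f' t - f' (-t) - 2 * t * c)| ≤ 2 * ε * T := by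
    intro t ht
    have hd : ∀ s, HasDerivAt (fun s => f' s - f' (-s) - 2 * s * c) (f'' s - (-(f'' (-s))) - 2 * c) s := by
      intro s
      have h3 := ((h2 s).fun_sub (hneg f' f'' h2 s)).fun_sub (((hasDerivAt_id' s).const_mul 2).mul_const c)
      rw [mul_one] at h3
      exact h3
    have h4 := norm_image_sub_le_of_norm_deriv_le_segment' (f := fun s => f' s - f' (-s) - 2 * s * c)
      (f' := fun s => f'' s - (-(f'' (-s))) - 2 * c) (a := 0) (b := T) (C := 2 * ε)
      (fun s _ => (hd s).hasDerivWithinAt) (by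
        intro s hs
        have e1 := hε s (by rw [abs_of_nonneg hs.1]; exact hs.2.le)
        have e2 := hε (-s) (by rw [abs_neg, abs_of_nonneg hs.1]; exact hs.2.le)
        rw [Real.norm_eq_abs]
        rw [abs_le] at e1 e2 ⊢
        constructor <;> linarith [e1.1, e1.2, e2.1, e2.2]) t ht
    simp only [neg_zero, sub_self, mul_zero, zero_mul, sub_zero, Real.norm_eq_abs] at h4
    exact h4.trans (mul_le_mul_of_nonneg_left ht.2 (by positivity))
  have hd : ∀ s, HasDerivAt (fun s => f s + f (-s) - 2 * f 0 - s ^ 2 * c)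
      (f' s - f' (-s) - 2 * s * c) s := by
    intro s
    have h3 := (((h1 s).fun_add (hneg f f' h1 s)).sub_const (2 * f 0)).fun_sub
      ((hasDerivAt_pow 2 s).mul_const c)
    have e : f' s + -(f' (-s)) - (((2 : ℕ) : ℝ) * s ^ (2 - 1)) * c = f' s - f' (-s) - 2 * s * c := by
      push_cast
      simp
      ring
    rw [e] at h3
    exact h3
  have h4 := norm_image_sub_le_of_norm_deriv_le_segment' (f := fun s => f s + f (-s) - 2 * f 0 - s ^ 2 * c)
    (f' := fun s => f' s - f' (-s) - 2 * s * c) (a := 0) (b := T) (C := 2 * ε * T)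
    (fun s _ => (hd s).hasDerivWithinAt) (by
      intro s hs
      rw [Real.norm_eq_abs]
      exact hk s ⟨hs.1, hs.2.le⟩) T ⟨hT, le_rfl⟩
  have e0 : f 0 + f (-0) - 2 * f 0 - (0 : ℝ) ^ 2 * c = 0 := by
    rw [neg_zero]; ring
  simp only [Real.norm_eq_abs] at h4
  rw [e0, sub_zero, sub_zero] at h4
  refine h4.trans (le_of_eq ?_)
  ring

/-- second derivative in the direction `a` -/
noncomputable def dd2 (χ : ℂ → ℝ) (a : ℂ) (y : ℂ) : ℝ :=
  fderiv ℝ (fun y => fderiv ℝ χ y a) y a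

lemma continuous_dd2 {χ : ℂ → ℝ} (hχ : ContDiff ℝ ∞ χ) (a : ℂ) : Continuous (dd2 χ a) :=
  (contDiff_dir (contDiff_dir hχ a) a).continuous

lemma hasCompactSupport_dd2 {χ : ℂ → ℝ} (hχ : HasCompactSupport χ) (a : ℂ) :
    HasCompactSupport (dd2 χ a) :=
  hasCompactSupport_dir (hasCompactSupport_dir hχ a) a

lemma laplacian_eq_dd2 {χ : ℂ → ℝ} (hχ : ContDiff ℝ ∞ χ) (y : ℂ) :
    (Δ χ) y = dd2 χ 1 y + dd2 χ I y :=
  laplacian_eq_dir (hχ.contDiffAt.of_le two_le_infty)

/-- second differences of a smooth function in the direction `a` -/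
lemma second_diff_dir {χ : ℂ → ℝ} (hχ : ContDiff ℝ ∞ χ) (a y : ℂ) {T ε c : ℝ} (hT : 0 ≤ T)
    (hε : ∀ s : ℝ, |s| ≤ T → |dd2 χ a (y + s * a) - c| ≤ ε) :
    |χ (y + T * a) + χ (y - T * a) - 2 * χ y - T ^ 2 * c| ≤ 2 * ε * T ^ 2 := by
  have hline : ∀ t : ℝ, HasDerivAt (fun t : ℝ => y + t * a) a t := by
    intro t
    have h1 : HasDerivAt (fun t : ℝ => (t : ℂ)) 1 t := Complex.ofRealCLM.hasDerivAt
    simpa using (h1.mul_const a).const_add y
  have hd : ∀ (g : ℂ → ℝ), Differentiable ℝ g → ∀ t : ℝ,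
      HasDerivAt (fun t : ℝ => g (y + t * a)) (fderiv ℝ g (y + t * a) a) t := by
    intro g hg t
    exact (hg (y + t * a)).hasFDerivAt.comp_hasDerivAt t (hline t)
  have h1 := hd χ (hχ.differentiable (by simp))
  have h2 := hd (fun y => fderiv ℝ χ y a) ((contDiff_dir hχ a).differentiable (by simp))
  have h3 := second_diff (f := fun t : ℝ => χ (y + t * a)) (f' := fun t : ℝ => fderiv ℝ χ (y + t * a) a)
    (f'' := fun t : ℝ => dd2 χ a (y + t * a)) (c := c) h1 h2 hT hε
  simpa [sub_eq_add_neg] using h3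

/-- the lattice Laplacian of a smooth function, uniformly -/
lemma lapZ_unif {χ : ℂ → ℝ} (hχ : ContDiff ℝ ∞ χ) (hc : HasCompactSupport χ) {ε : ℝ} (hε : 0 < ε) :
    ∃ δ > 0, ∀ n : ℕ, 0 < n → 1 / (n : ℝ) < δ → ∀ v : ℤ × ℤ,
      |lapZ (fun v => χ (mesh n v)) v - ((n : ℝ) ^ 2)⁻¹ * (Δ χ) (mesh n v)| ≤ ε * ((n : ℝ) ^ 2)⁻¹ := by
  have hu : ∀ a : ℂ, ∃ δ > 0, ∀ x y : ℂ, dist x y < δ → |dd2 χ a x - dd2 χ a y| ≤ ε / 4 := by
    intro a
    have h1 := (hasCompactSupport_dd2 hc a).uniformContinuous_of_continuous (continuous_dd2 hχ a)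
    obtain ⟨δ, hδ, h2⟩ := Metric.uniformContinuous_iff.1 h1 (ε / 4) (by positivity)
    exact ⟨δ, hδ, fun x y hxy => (h2 hxy).le⟩
  obtain ⟨δ1, hδ1, h1⟩ := hu 1
  obtain ⟨δ2, hδ2, h2⟩ := hu I
  refine ⟨min δ1 δ2, lt_min hδ1 hδ2, fun n hn hnδ v => ?_⟩
  have hn' : (0 : ℝ) < n := by exact_mod_cast hn
  have hT : (0 : ℝ) ≤ 1 / n := by positivity
  have k1 := second_diff_dir hχ 1 (mesh n v) (T := 1 / n) (ε := ε / 4) (c := dd2 χ 1 (mesh n v)) hT (by
    intro s hs
    refine h1 _ _ ?_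
    rw [dist_eq_norm]
    simp only [mul_one, add_sub_cancel_left, Complex.norm_real, Real.norm_eq_abs]
    exact (hs.trans_lt hnδ).trans_le (min_le_left _ _))
  have k2 := second_diff_dir hχ I (mesh n v) (T := 1 / n) (ε := ε / 4) (c := dd2 χ I (mesh n v)) hT (by
    intro s hs
    refine h2 _ _ ?_
    rw [dist_eq_norm]
    simp only [add_sub_cancel_left, norm_mul, Complex.norm_I, mul_one, Complex.norm_real,
      Real.norm_eq_abs]
    exact (hs.trans_lt hnδ).trans_le (min_le_right _ _))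
  have m1 : mesh n (v.1 + 1, v.2) = mesh n v + ((1 / n : ℝ) : ℂ) * 1 := by
    apply Complex.ext <;> simp [mesh, add_div]
  have m2 : mesh n (v.1 - 1, v.2) = mesh n v - ((1 / n : ℝ) : ℂ) * 1 := by
    apply Complex.ext <;> simp [mesh, sub_div]
  have m3 : mesh n (v.1, v.2 + 1) = mesh n v + ((1 / n : ℝ) : ℂ) * I := by
    apply Complex.ext <;> simp [mesh, add_div]
  have m4 : mesh n (v.1, v.2 - 1) = mesh n v - ((1 / n : ℝ) : ℂ) * I := by
    apply Complex.ext <;> simp [mesh, sub_div]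
  rw [laplacian_eq_dd2 hχ]
  unfold lapZ
  simp only [m1, m2, m3, m4]
  have hsq : (1 / (n : ℝ)) ^ 2 = ((n : ℝ) ^ 2)⁻¹ := by
    rw [div_pow, one_pow, one_div]
  rw [hsq] at k1 k2
  rw [abs_le] at k1 k2 ⊢
  constructor <;> nlinarith [k1.1, k1.2, k2.1, k2.2]

lemma laplacian_eq_zero_of_notMem {χ : ℂ → ℝ} {y : ℂ} (hy : y ∉ tsupport χ) : (Δ χ) y = 0 := by
  have h : χ =ᶠ[𝓝 y] fun _ => (0 : ℝ) := by
    filter_upwards [(isClosed_tsupport χ).isOpen_compl.mem_nhds hy] with x hx
    exact image_eq_zero_of_notMem_tsupport hx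
  rw [(laplacian_congr_nhds h).eq_of_nhds]
  simp

lemma tsupport_laplacian (χ : ℂ → ℝ) : tsupport (Δ χ) ⊆ tsupport χ := by
  refine closure_minimal ?_ (isClosed_tsupport χ)
  intro y hy
  by_contra hn
  exact hy (laplacian_eq_zero_of_notMem hn)

lemma continuous_laplacian {χ : ℂ → ℝ} (hχ : ContDiff ℝ ∞ χ) : Continuous (Δ χ) := by
  have : (Δ χ) = fun y => dd2 χ 1 y + dd2 χ I y := by
    funext y; exact laplacian_eq_dd2 hχ y
  rw [this]
  exact (continuous_dd2 hχ 1).add (continuous_dd2 hχ I)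

lemma hasCompactSupport_laplacian {χ : ℂ → ℝ} (hc : HasCompactSupport χ) :
    HasCompactSupport (Δ χ) :=
  hc.of_isClosed_subset (isClosed_tsupport _) (tsupport_laplacian χ)

/-- summation by parts -/
lemma tsum_lapZ (a V : ℤ × ℤ → ℝ) (ha : (Function.support a).Finite) :
    ∑' v, a v * lapZ V v = ∑' v, lapZ a v * V v := by
  have hfin : ∀ e : ℤ × ℤ, Summable fun v => a v * V (v + e) := by
    intro e
    refine summable_of_hasFiniteSupport (ha.subset ?_)
    intro v hv
    exact left_ne_zero_of_mul hv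
  have hfin' : ∀ e : ℤ × ℤ, Summable fun v => a (v + e) * V v := by
    intro e
    refine summable_of_hasFiniteSupport ((ha.image (fun v => v - e)).subset ?_)
    intro v hv
    exact ⟨v + e, left_ne_zero_of_mul hv, by simp⟩
  have hsh : ∀ e : ℤ × ℤ, ∑' v, a v * V (v + e) = ∑' v, a (v + -e) * V v := by
    intro e
    rw [← (Equiv.addRight (-e)).tsum_eq]
    refine tsum_congr fun v => ?_
    simp
  have e1 : ∀ v, a v * lapZ V v = a v * V (v + (1, 0)) + a v * V (v + (-1, 0)) + a v * V (v + (0, 1)) +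
      a v * V (v + (0, -1)) - 4 * (a v * V (v + 0)) := by
    intro v
    obtain ⟨x, y⟩ := v
    simp [lapZ, sub_eq_add_neg]
    ring
  have e2 : ∀ v, lapZ a v * V v = a (v + (1, 0)) * V v + a (v + (-1, 0)) * V v + a (v + (0, 1)) * V v +
      a (v + (0, -1)) * V v - 4 * (a (v + 0) * V v) := by
    intro v
    obtain ⟨x, y⟩ := v
    simp [lapZ, sub_eq_add_neg]
    ring
  rw [tsum_congr e1, tsum_congr e2]
  rw [Summable.tsum_sub ((((hfin _).add (hfin _)).add (hfin _)).add (hfin _)) ((hfin 0).mul_left 4),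
    Summable.tsum_add (((hfin _).add (hfin _)).add (hfin _)) (hfin _),
    Summable.tsum_add ((hfin _).add (hfin _)) (hfin _), Summable.tsum_add (hfin _) (hfin _), tsum_mul_left]
  rw [Summable.tsum_sub ((((hfin' _).add (hfin' _)).add (hfin' _)).add (hfin' _)) ((hfin' 0).mul_left 4),
    Summable.tsum_add (((hfin' _).add (hfin' _)).add (hfin' _)) (hfin' _),
    Summable.tsum_add ((hfin' _).add (hfin' _)) (hfin' _), Summable.tsum_add (hfin' _) (hfin' _), tsum_mul_left]
  rw [hsh, hsh, hsh, hsh, hsh]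
  simp only [Prod.neg_mk, neg_zero, neg_neg]
  ring

lemma support_mesh_finite {n : ℕ} (hn : 0 < n) {χ : ℂ → ℝ} (hc : HasCompactSupport χ) :
    (Function.support fun v => χ (mesh n v)).Finite :=
  (finite_mesh hn hc.isBounded).subset fun v hv => subset_tsupport χ hv

/-- **The lattice Laplacian against a test function.** -/
theorem lapZ_tendsto {ι : Type*} {l : Filter ι} {N : ι → ℕ} (hN : Tendsto N l atTop) {D : Set ℂ}
    (hD : IsOpen D) {V : ι → ℤ × ℤ → ℝ} {U : ℂ → ℝ} (hU : ContinuousOn U D)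
    (h : TendstoLocallyUniformlyOn (fun i x => V i (fl (N i) x)) U l D) {χ : ℂ → ℝ}
    (hχ : ContDiff ℝ ∞ χ) (hc : HasCompactSupport χ) (hD' : tsupport χ ⊆ D) :
    Tendsto (fun i => ∑' v : ℤ × ℤ, χ (mesh (N i) v) * lapZ (V i) v) l
      (𝓝 (∫ x, (Δ χ) x * U x)) := by
  have h1 := riemann_tendsto hN hD hU h (continuous_laplacian hχ) (hasCompactSupport_laplacian hc)
    ((tsupport_laplacian χ).trans hD')
  -- a cut off
  obtain ⟨δ0, hδ0, hth⟩ := hc.exists_cthickening_subset_open hD hD'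
  obtain ⟨g, hg1, hg2, hg3, hg4⟩ := exists_continuousMap_one_of_isCompact_subset_isOpen
    (hc.cthickening (r := δ0)) hD hth
  have habs : TendstoLocallyUniformlyOn (fun i x => |V i (fl (N i) x)|) (fun x => |U x|) l D := by
    rw [Metric.tendstoLocallyUniformlyOn_iff] at h ⊢
    intro ε hε x hx
    obtain ⟨t, ht, h2⟩ := h ε hε x hx
    refine ⟨t, ht, ?_⟩
    filter_upwards [h2] with i hi y hy
    refine lt_of_le_of_lt ?_ (hi y hy)
    rw [Real.dist_eq, Real.dist_eq]
    exact abs_abs_sub_abs_le _ _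
  have h2 := riemann_tendsto (u := fun i v => |V i v|) hN hD hU.abs habs g.continuous hg2 hg3
  set B := ∫ x, g x * |U x| with hB
  have h3 : Tendsto (fun i => (∑' v : ℤ × ℤ, χ (mesh (N i) v) * lapZ (V i) v) -
      (((N i : ℕ) : ℝ) ^ 2)⁻¹ * ∑' z : ℤ × ℤ, (Δ χ) (mesh (N i) z) * V i z) l (𝓝 0) := by
    rw [Metric.tendsto_nhds]
    intro ε hε
    set ε1 := ε / (2 * (|B| + 1)) with hε1
    have hε1pos : 0 < ε1 := by positivity
    obtain ⟨δ, hδ, h4⟩ := lapZ_unif hχ hc hε1pos
    have h5 : Tendsto (fun i => 1 / ((N i : ℕ) : ℝ)) l (𝓝 0) :=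
      tendsto_one_div_atTop_nhds_zero_nat.comp hN
    filter_upwards [hN.eventually_gt_atTop 0, h5.eventually (gt_mem_nhds (lt_min hδ hδ0)),
      h2.eventually (gt_mem_nhds (show B < |B| + 1 by linarith [le_abs_self B]))] with i hi0 hi1 hi2
    set n := N i with hn
    have hnpos : (0 : ℝ) < n := by exact_mod_cast hi0
    rw [Real.dist_eq, sub_zero]
    rw [tsum_lapZ (fun v => χ (mesh n v)) (V i) (support_mesh_finite hi0 hc), ← tsum_mul_left]
    set S := (finite_mesh hi0 (hc.cthickening (r := δ0)).isBounded).toFinset with hS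
    have hmS : ∀ v, v ∉ S → mesh n v ∉ cthickening δ0 (tsupport χ) := by
      intro v hv hv2
      exact hv ((Set.Finite.mem_toFinset _).2 hv2)
    have hout : ∀ v, v ∉ S → lapZ (fun v => χ (mesh n v)) v = 0 ∧ (Δ χ) (mesh n v) = 0 := by
      intro v hv
      have hv1 := hmS v hv
      have hts : ∀ w : ℤ × ℤ, dist (mesh n v) (mesh n w) ≤ 1 / n → χ (mesh n w) = 0 := by
        intro w hw
        refine image_eq_zero_of_notMem_tsupport fun hw2 => hv1 ?_
        exact mem_cthickening_of_dist_le _ _ _ _ hw2 (hw.trans (hi1.le.trans (min_le_right _ _)))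
      have hd : ∀ a b : ℤ, |a| + |b| ≤ 1 → dist (mesh n v) (mesh n (v.1 + a, v.2 + b)) ≤ 1 / n := by
        intro a b hab
        rw [dist_eq_norm]
        refine (Complex.norm_le_abs_re_add_abs_im _).trans ?_
        have e1 : (mesh n v - mesh n (v.1 + a, v.2 + b)).re = -(a / n) := by
          simp [mesh]; ring
        have e2 : (mesh n v - mesh n (v.1 + a, v.2 + b)).im = -(b / n) := by
          simp [mesh]; ring
        rw [e1, e2, abs_neg, abs_neg, abs_div, abs_div, abs_of_pos hnpos, ← add_div]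
        have : (|(a : ℝ)| + |(b : ℝ)|) ≤ 1 := by exact_mod_cast hab
        gcongr
      constructor
      · have a1 := hts _ (hd 1 0 (by simp))
        have a2 := hts _ (hd (-1) 0 (by simp))
        have a3 := hts _ (hd 0 1 (by simp))
        have a4 := hts _ (hd 0 (-1) (by simp))
        have a5 := hts _ (hd 0 0 (by simp))
        simp only [add_zero] at a1 a2 a3 a4 a5
        simp only [lapZ, sub_eq_add_neg]
        rw [a1, a2, a3, a4]
        have a6 : χ (mesh n v) = 0 := a5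
        rw [a6]
        simp
      · exact laplacian_eq_zero_of_notMem fun hv2 => hv1 (self_subset_cthickening _ hv2)
    rw [tsum_eq_sum (s := S) (fun v hv => by rw [(hout v hv).1, zero_mul]),
      tsum_eq_sum (s := S) (fun v hv => by rw [(hout v hv).2, zero_mul, mul_zero]),
      ← Finset.sum_sub_distrib]
    have hsum : ∑ v ∈ S, |lapZ (fun v => χ (mesh n v)) v * V i v -
        ((n : ℝ) ^ 2)⁻¹ * ((Δ χ) (mesh n v) * V i v)| ≤
        ∑ v ∈ S, ε1 * (((n : ℝ) ^ 2)⁻¹ * (g (mesh n v) * |V i v|)) := by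
      refine Finset.sum_le_sum fun v hv => ?_
      have hv1 : mesh n v ∈ cthickening δ0 (tsupport χ) := by
        rw [hS, Set.Finite.mem_toFinset] at hv
        exact hv
      have e : lapZ (fun v => χ (mesh n v)) v * V i v - ((n : ℝ) ^ 2)⁻¹ * ((Δ χ) (mesh n v) * V i v) =
          (lapZ (fun v => χ (mesh n v)) v - ((n : ℝ) ^ 2)⁻¹ * (Δ χ) (mesh n v)) * V i v := by ring
      rw [e, abs_mul, hg1 hv1]
      have := h4 n hi0 (hi1.trans_le (min_le_left _ _)) v
      calc _ ≤ (ε1 * ((n : ℝ) ^ 2)⁻¹) * |V i v| := mul_le_mul_of_nonneg_right this (abs_nonneg _)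
        _ = _ := by simp; ring
    have hsum2 : ∑ v ∈ S, ε1 * (((n : ℝ) ^ 2)⁻¹ * (g (mesh n v) * |V i v|)) ≤ ε1 * (|B| + 1) := by
      rw [← Finset.mul_sum, ← Finset.mul_sum]
      refine mul_le_mul_of_nonneg_left (le_trans ?_ hi2.le) hε1pos.le
      refine mul_le_mul_of_nonneg_left ?_ (by positivity)
      refine Summable.sum_le_tsum _ (fun v _ => mul_nonneg (hg4 _).1 (abs_nonneg _)) ?_
      refine summable_of_hasFiniteSupport ((support_mesh_finite hi0 (χ := g) hg2).subset ?_)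
      intro v hv
      exact left_ne_zero_of_mul hv
    have hfin : ε1 * (|B| + 1) = ε / 2 := by
      rw [hε1]; field_simp
    calc _ ≤ _ := Finset.abs_sum_le_sum_abs _ _
      _ ≤ _ := hsum
      _ ≤ _ := hsum2
      _ = ε / 2 := hfin
      _ < ε := by linarith
  have h4 := h3.add h1
  simpa using h4

/-! ## One fixed profile -/

lemma fderiv_scale {χ : ℂ → ℝ} (hχ : Differentiable ℝ χ) (z : ℂ) (r : ℝ) (y a : ℂ) :
    fderiv ℝ (fun y : ℂ => χ ((y - z) / r)) y a = r⁻¹ * fderiv ℝ χ ((y - z) / r) a := by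
  have h1 : HasFDerivAt (fun y : ℂ => (y - z) / (r : ℂ)) ((r⁻¹ : ℝ) • ContinuousLinearMap.id ℝ ℂ) y := by
    have h2 : HasFDerivAt (fun y : ℂ => (r⁻¹ : ℝ) • (y - z)) ((r⁻¹ : ℝ) • ContinuousLinearMap.id ℝ ℂ) y :=
      ((hasFDerivAt_id y).sub_const z).fun_const_smul _
    have h3 : (fun y : ℂ => (y - z) / (r : ℂ)) = fun y : ℂ => (r⁻¹ : ℝ) • (y - z) := by
      funext w
      rw [Complex.real_smul, Complex.ofReal_inv]
      ring
    rw [h3]
    exact h2
  have h4 := (hχ ((y - z) / r)).hasFDerivAt.comp y h1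
  have h5 : fderiv ℝ (fun y : ℂ => χ ((y - z) / r)) y = _ := h4.fderiv
  rw [h5]
  simp

lemma contDiff_scale {χ : ℂ → ℝ} (hχ : ContDiff ℝ ∞ χ) (z : ℂ) (r : ℝ) :
    ContDiff ℝ ∞ (fun y : ℂ => χ ((y - z) / r)) := by
  refine hχ.comp ?_
  exact (contDiff_id.sub contDiff_const).div_const _

lemma dd2_scale {χ : ℂ → ℝ} (hχ : ContDiff ℝ ∞ χ) (z : ℂ) (r : ℝ) (y a : ℂ) :
    dd2 (fun y : ℂ => χ ((y - z) / r)) a y = (r ^ 2)⁻¹ * dd2 χ a ((y - z) / r) := by
  have h1 : (fun y : ℂ => fderiv ℝ (fun y : ℂ => χ ((y - z) / r)) y a) =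
      fun y : ℂ => r⁻¹ * (fun w => fderiv ℝ χ w a) ((y - z) / r) := by
    funext w
    exact fderiv_scale (hχ.differentiable (by simp)) z r w a
  have hd : Differentiable ℝ fun w => fderiv ℝ χ w a := (contDiff_dir hχ a).differentiable (by simp)
  unfold dd2
  rw [h1, fderiv_const_mul (((contDiff_scale (contDiff_dir hχ a) z r).differentiable (by simp)) y)]
  rw [_root_.smul_apply, fderiv_scale hd, smul_eq_mul]
  rw [← mul_assoc]
  congr 1
  rw [pow_two, mul_inv]

lemma laplacian_scale {χ : ℂ → ℝ} (hχ : ContDiff ℝ ∞ χ) (z : ℂ) (r : ℝ) (y : ℂ) :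
    (Δ (fun y : ℂ => χ ((y - z) / r))) y = (r ^ 2)⁻¹ * (Δ χ) ((y - z) / r) := by
  rw [laplacian_eq_dd2 (contDiff_scale hχ z r), laplacian_eq_dd2 hχ, dd2_scale hχ, dd2_scale hχ]
  ring

lemma tsupport_scale {χ : ℂ → ℝ} {R : ℝ} (hR : tsupport χ ⊆ closedBall 0 R) (z : ℂ) {r : ℝ}
    (hr : 0 < r) : tsupport (fun y : ℂ => χ ((y - z) / r)) ⊆ closedBall z (R * r) := by
  refine closure_minimal ?_ isClosed_closedBall
  intro y hy
  have h1 : (y - z) / r ∈ closedBall (0 : ℂ) R := hR (subset_tsupport χ hy)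
  rw [mem_closedBall, dist_zero_right, norm_div, Complex.norm_real, Real.norm_eq_abs, abs_of_pos hr,
    div_le_iff₀ hr] at h1
  rw [mem_closedBall, dist_eq_norm]
  exact h1

lemma hasCompactSupport_scale {χ : ℂ → ℝ} (hc : HasCompactSupport χ) (z : ℂ) {r : ℝ} (hr : 0 < r) :
    HasCompactSupport (fun y : ℂ => χ ((y - z) / r)) := by
  obtain ⟨R, hR⟩ := hc.isBounded.subset_closedBall 0
  exact (isCompact_closedBall z (R * r)).of_isClosed_subset (isClosed_tsupport _)
    (tsupport_scale hR z hr)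

/-- the local estimate is uniform on compact sets -/
lemma profile_unif {O K : Set ℂ} {A : ℝ → ℂ → ℝ}
    (h : ∀ z0 ∈ O, ∃ ρ > 0, ∀ ε > 0, ∃ r0 > 0, ∀ z ∈ ball z0 ρ, ∀ r : ℝ, 0 < r → r < r0 →
      |A r z| ≤ ε * r ^ 2) (hK : IsCompact K) (hKO : K ⊆ O) {ε : ℝ} (hε : 0 < ε) :
    ∃ r0 > 0, ∀ z ∈ K, ∀ r : ℝ, 0 < r → r < r0 → |A r z| ≤ ε * r ^ 2 := by
  refine hK.induction_on (p := fun K => ∃ r0 > 0, ∀ z ∈ K, ∀ r : ℝ, 0 < r → r < r0 →
    |A r z| ≤ ε * r ^ 2) ?_ ?_ ?_ ?_
  · exact ⟨1, one_pos, by simp⟩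
  · rintro s t hst ⟨r0, hr0, h1⟩
    exact ⟨r0, hr0, fun z hz => h1 z (hst hz)⟩
  · rintro s t ⟨r0, hr0, h1⟩ ⟨r1, hr1, h2⟩
    refine ⟨min r0 r1, lt_min hr0 hr1, ?_⟩
    rintro z (hz | hz) r hr hr'
    · exact h1 z hz r hr (hr'.trans_le (min_le_left _ _))
    · exact h2 z hz r hr (hr'.trans_le (min_le_right _ _))
  · intro x hx
    obtain ⟨ρ, hρ, h1⟩ := h x (hKO hx)
    obtain ⟨r0, hr0, h2⟩ := h1 ε hε
    exact ⟨ball x ρ, mem_nhdsWithin_of_mem_nhds (ball_mem_nhds x hρ), r0, hr0, h2⟩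

/-- **One fixed profile.** A continuous function `U` with `∫ U Δ[χ((· - z)/r)] = o(r ^ 2)`, locally uniformly
in `z`, is harmonic. -/
theorem harmonicOnNhd_of_profile {O : Set ℂ} (hO : IsOpen O) {U : ℂ → ℝ} (hU : ContinuousOn U O)
    {χ : ℂ → ℝ} (hχ : ContDiff ℝ ∞ χ) (hc : HasCompactSupport χ) (hχ1 : ∫ x, χ x ≠ 0)
    (h : ∀ z0 ∈ O, ∃ ρ > 0, ∀ ε > 0, ∃ r0 > 0, ∀ z ∈ ball z0 ρ, ∀ r : ℝ, 0 < r → r < r0 →
      |∫ x, (Δ (fun y : ℂ => χ ((y - z) / r))) x * U x| ≤ ε * r ^ 2) : HarmonicOnNhd U O := by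
  refine harmonicOnNhd_of_weyl hO hU ?_
  intro ψ hψ hψc hψO
  set K := tsupport ψ with hK
  have hKc : IsCompact K := hψc
  obtain ⟨δ0, hδ0, hth⟩ := hKc.exists_cthickening_subset_open hO hψO
  set K' := cthickening δ0 K with hK'
  have hK'c : IsCompact K' := hKc.cthickening
  set g := K'.indicator U with hg
  have hgi : Integrable g volume := by
    rw [hg, integrable_indicator_iff hK'c.isClosed.measurableSet]
    exact (hU.mono hth).integrableOn_compact hK'c
  obtain ⟨R, hR⟩ := hc.isBounded.subset_closedBall 0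
  have hR0 : tsupport χ ⊆ closedBall 0 (|R| + 1) := hR.trans (closedBall_subset_closedBall (by
    linarith [le_abs_self R]))
  set R1 := |R| + 1 with hR1
  have hR1pos : 0 < R1 := by positivity
  -- the limit
  have hLc := continuous_laplacian hψ
  have hLs := hasCompactSupport_laplacian hψc
  obtain ⟨M, hM⟩ := hLc.bounded_above_of_compact_support hLs
  have hχi : Integrable χ volume := hχ.continuous.integrable_of_hasCompactSupport hc
  set G : ℝ → ℂ × ℂ → ℝ := fun r p => g p.1 * (χ p.2 * (Δ ψ) (p.1 - r * p.2)) with hG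
  have hGm : ∀ r, AEStronglyMeasurable (G r) ((volume : Measure ℂ).prod volume) := by
    intro r
    refine (hgi.aestronglyMeasurable.comp_fst).mul ?_
    refine (hχi.aestronglyMeasurable.comp_snd).mul ?_
    exact (hLc.comp (by fun_prop)).aestronglyMeasurable
  have hGb : ∀ r p, ‖G r p‖ ≤ |g p.1| * (|χ p.2| * M) := by
    intro r p
    simp only [hG, norm_mul, Real.norm_eq_abs]
    refine mul_le_mul_of_nonneg_left ?_ (abs_nonneg _)
    exact mul_le_mul_of_nonneg_left (hM _) (abs_nonneg _)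
  have hbi : Integrable (fun p : ℂ × ℂ => |g p.1| * (|χ p.2| * M)) ((volume : Measure ℂ).prod volume) :=
    hgi.abs.mul_prod (hχi.abs.mul_const M)
  have hGi : ∀ r, Integrable (G r) ((volume : Measure ℂ).prod volume) := fun r =>
    hbi.mono' (hGm r) (Eventually.of_forall (hGb r))
  have hlim : Tendsto (fun r : ℝ => ∫ p, G r p ∂((volume : Measure ℂ).prod volume)) (𝓝[>] 0)
      (𝓝 (∫ p, G 0 p ∂((volume : Measure ℂ).prod volume))) := by
    refine tendsto_integral_filter_of_dominated_convergence (fun p : ℂ × ℂ => |g p.1| * (|χ p.2| * M))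
      (Eventually.of_forall hGm) (Eventually.of_forall fun r => Eventually.of_forall (hGb r)) hbi ?_
    refine Eventually.of_forall fun p => ?_
    have hcont : Continuous fun r : ℝ => G r p := by
      simp only [hG]
      exact continuous_const.mul (continuous_const.mul (hLc.comp (by fun_prop)))
    exact (hcont.tendsto 0).mono_left nhdsWithin_le_nhds
  have hG0 : ∫ p, G 0 p ∂((volume : Measure ℂ).prod volume) = (∫ y, g y * (Δ ψ) y) * ∫ x, χ x := by
    rw [← integral_prod_mul]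
    refine integral_congr_ae (Eventually.of_forall fun p => ?_)
    simp only [hG]
    simp
    ring
  -- the key identity
  have hkey : ∀ r : ℝ, 0 < r → R1 * r ≤ δ0 →
      ∫ z, ψ z * ∫ x, (Δ (fun y : ℂ => χ ((y - z) / r))) x * U x =
        r ^ 2 * ∫ p, G r p ∂((volume : Measure ℂ).prod volume) := by
    intro r hr hrδ
    set χr : ℂ → ℝ := fun y => χ ((y - 0) / r) with hχr
    have hχrs : ContDiff ℝ ∞ χr := contDiff_scale hχ 0 r
    have hχrc : HasCompactSupport χr := hasCompactSupport_scale hc 0 hr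
    have hsh : ∀ z x : ℂ, (Δ (fun y : ℂ => χ ((y - z) / r))) x = (Δ χr) (x - z) := by
      intro z x
      rw [laplacian_scale hχ, hχr, laplacian_scale hχ, sub_zero]
    have hDc := continuous_laplacian hχrs
    obtain ⟨M1, hM1⟩ := hDc.bounded_above_of_compact_support (hasCompactSupport_laplacian hχrc)
    have s1 : ∀ z, ψ z * ∫ x, (Δ (fun y : ℂ => χ ((y - z) / r))) x * U x =
        ∫ x, ψ z * ((Δ χr) (x - z) * g x) := by
      intro z
      rw [integral_const_mul]
      by_cases hz : ψ z = 0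
      · rw [hz, zero_mul, zero_mul]
      · have hzK : z ∈ K := subset_tsupport ψ hz
        congr 1
        refine integral_congr_ae (Eventually.of_forall fun x => ?_)
        simp only
        rw [← hsh]
        by_cases hx : x ∈ closedBall z (R1 * r)
        · have hxK : x ∈ K' := mem_cthickening_of_dist_le _ _ _ _ hzK ((mem_closedBall.1 hx).trans hrδ)
          rw [hg, indicator_of_mem hxK]
        · rw [laplacian_eq_zero_of_notMem (fun h => hx (tsupport_scale hR0 z hr h)), zero_mul, zero_mul]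
    simp only [s1]
    have hint : Integrable (Function.uncurry fun (z x : ℂ) => ψ z * ((Δ χr) (x - z) * g x))
        ((volume : Measure ℂ).prod volume) := by
      have hb2 : Integrable (fun p : ℂ × ℂ => |ψ p.1| * (M1 * |g p.2|)) ((volume : Measure ℂ).prod volume) :=
        (hψ.continuous.integrable_of_hasCompactSupport hψc).abs.mul_prod (hgi.abs.const_mul M1)
      refine hb2.mono' ?_ (Eventually.of_forall fun p => ?_)
      · refine ((hψ.continuous.comp continuous_fst).aestronglyMeasurable).mul ?_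
        exact ((hDc.comp (by fun_prop)).aestronglyMeasurable).mul (hgi.aestronglyMeasurable.comp_snd)
      · simp only [Function.uncurry, norm_mul, Real.norm_eq_abs]
        refine mul_le_mul_of_nonneg_left ?_ (abs_nonneg _)
        exact mul_le_mul_of_nonneg_right (hM1 _) (abs_nonneg _)
    rw [integral_integral_swap hint]
    have hconv : ∀ x, ∫ z, ψ z * ((Δ χr) (x - z) * g x) =
        r ^ 2 * ∫ s, G r (x, s) := by
      intro x
      have c1 : ∫ z, ψ z * ((Δ χr) (x - z) * g x) =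
          g x * (ψ ⋆[ContinuousLinearMap.lsmul ℝ ℝ, volume] (Δ χr)) x := by
        rw [convolution_def, ← integral_const_mul]
        refine integral_congr_ae (Eventually.of_forall fun z => ?_)
        simp only [ContinuousLinearMap.lsmul_apply, smul_eq_mul]
        ring
      have hcomm : ∀ (a b : ℂ → ℝ) (x : ℂ), (a ⋆[ContinuousLinearMap.lsmul ℝ ℝ, volume] b) x =
          (b ⋆[ContinuousLinearMap.lsmul ℝ ℝ, volume] a) x := by
        intro a b x
        rw [convolution_lsmul_swap, convolution_def]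
        refine integral_congr_ae (Eventually.of_forall fun z => ?_)
        simp only [ContinuousLinearMap.lsmul_apply, smul_eq_mul]
        ring
      have c2 : (ψ ⋆[ContinuousLinearMap.lsmul ℝ ℝ, volume] (Δ χr)) x =
          (χr ⋆[ContinuousLinearMap.lsmul ℝ ℝ, volume] (Δ ψ)) x := by
        rw [hcomm, ← laplacian_convolution hχrs hχrc hψ.continuous.locallyIntegrable]
        have : (χr ⋆[ContinuousLinearMap.lsmul ℝ ℝ, volume] ψ) =
            (ψ ⋆[ContinuousLinearMap.lsmul ℝ ℝ, volume] χr) := funext (hcomm _ _)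
        rw [this, laplacian_convolution hψ hψc hχrs.continuous.locallyIntegrable, hcomm]
      have c3 : (χr ⋆[ContinuousLinearMap.lsmul ℝ ℝ, volume] (Δ ψ)) x =
          r ^ 2 * ∫ s, χ s * (Δ ψ) (x - r * s) := by
        rw [convolution_def]
        have e := Measure.integral_comp_smul (volume : Measure ℂ)
          (fun t : ℂ => χr t * (Δ ψ) (x - t)) r
        have e2 : ∫ s : ℂ, χr (r • s) * (Δ ψ) (x - r • s) = ∫ s, χ s * (Δ ψ) (x - r * s) := by
          refine integral_congr_ae (Eventually.of_forall fun s => ?_)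
          simp only [hχr, Complex.real_smul, sub_zero]
          rw [mul_div_cancel_left₀ _ (by exact_mod_cast hr.ne')]
        rw [e2, Complex.finrank_real_complex, smul_eq_mul, abs_of_pos (by positivity)] at e
        rw [e, ← mul_assoc, mul_inv_cancel₀ (by positivity), one_mul]
        rfl
      rw [c1, c2, c3]
      simp only [hG]
      rw [integral_const_mul]
      ring
    simp only [hconv]
    rw [integral_const_mul, integral_prod _ (hGi r)]
  have hψi : Integrable ψ volume := hψ.continuous.integrable_of_hasCompactSupport hψc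
  have hfin : ∀ ε : ℝ, 0 < ε → |(∫ y, g y * (Δ ψ) y) * ∫ x, χ x| ≤ ε * ∫ z, |ψ z| := by
    intro ε hε
    obtain ⟨r0, hr0, hA⟩ := profile_unif h hKc hψO hε
    rw [hG0] at hlim
    refine le_of_tendsto hlim.abs ?_
    have hr1 : 0 < min r0 (δ0 / R1) := lt_min hr0 (by positivity)
    filter_upwards [Ioo_mem_nhdsGT hr1] with r hr
    have hrpos : 0 < r := hr.1
    have k1 := hkey r hrpos (by
      have := (hr.2.trans_le (min_le_right _ _)).le
      rwa [le_div_iff₀ hR1pos, mul_comm] at this)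
    have k2 : |∫ z, ψ z * ∫ x, (Δ (fun y : ℂ => χ ((y - z) / r))) x * U x| ≤
        ∫ z, |ψ z| * (ε * r ^ 2) := by
      rw [← Real.norm_eq_abs]
      refine norm_integral_le_of_norm_le (hψi.abs.mul_const _) (Eventually.of_forall fun z => ?_)
      rw [norm_mul, Real.norm_eq_abs, Real.norm_eq_abs]
      by_cases hz : ψ z = 0
      · rw [hz]; simp
      · exact mul_le_mul_of_nonneg_left (hA z (subset_tsupport ψ hz) r hrpos
          (hr.2.trans_le (min_le_left _ _))) (abs_nonneg _)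
    rw [k1, abs_mul, abs_of_pos (by positivity : (0:ℝ) < r ^ 2), integral_mul_const] at k2
    have hr2 : (0 : ℝ) < r ^ 2 := by positivity
    nlinarith
  have hzero : (∫ y, g y * (Δ ψ) y) * ∫ x, χ x = 0 := by
    by_contra hne
    have hpos := abs_pos.2 hne
    have hI : 0 ≤ ∫ z, |ψ z| := integral_nonneg fun z => abs_nonneg _
    have := hfin (|(∫ y, g y * (Δ ψ) y) * ∫ x, χ x| / (2 * ((∫ z, |ψ z|) + 1))) (by positivity)
    rw [div_mul_eq_mul_div, le_div_iff₀ (by positivity)] at this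
    nlinarith
  have hg0 : ∫ y, g y * (Δ ψ) y = 0 := (mul_eq_zero.1 hzero).resolve_right hχ1
  rw [← hg0]
  refine integral_congr_ae (Eventually.of_forall fun y => ?_)
  simp only
  by_cases hy : y ∈ K
  · rw [hg, indicator_of_mem (self_subset_cthickening _ hy)]
  · rw [laplacian_eq_zero_of_notMem hy, mul_zero, mul_zero]

end Pool.Agent.SixB.DC
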