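import Pool.Agent.Lib.SixB.AN10

/-!
# From the lattice Laplacian to harmonic limits (AN10b): the end of step 3 of MP_6bd702, abstract form

* `harmonicOnNhd_of_diff_finite`: continuous and harmonic off a finite set implies harmonic.
* `profile_compare`: replacing a lattice function by another one, up to a constant and an error `η` in a ball
  of radius `C r`, changes the sum against `χ((· - z)/r)` by at most `C η`.
* `harm_of_profile`: `limsup |∑ χ((v/n - z)/r) (lapZ V)(v)| = o(r ^ 2)` implies that all limits are harmonic.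
* `harm_of_opened`: the same with comparison functions `V'` (heights of the opened domain).
-/

set_option autoImplicit false

open Filter Topology Metric Set Complex InnerProductSpace Real MeasureTheory Laplacian
open scoped Convolution ContDiff

namespace Pool.Agent.SixB.DC

/-! ## Removable points -/

lemma punctured_le {f : ℂ → ℝ} {c : ℂ} {R : ℝ} (hR : 0 < R) (hf : ContinuousOn f (closedBall c R))
    (hs : ∀ z ∈ sphere c R, f z ≤ 0) (hh : HarmonicOnNhd f (ball c R \ {c})) :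
    ∀ z ∈ closedBall c R, f z ≤ 0 := by
  obtain ⟨M, hM⟩ := (isCompact_closedBall c R).exists_bound_of_continuousOn hf
  have hM0 : 0 ≤ M := (norm_nonneg _).trans (hM c (mem_closedBall_self hR.le))
  have hne : ∀ z ∈ closedBall c R, z ≠ c → f z ≤ 0 := by
    intro z hz hzc
    have hzp : 0 < ‖z - c‖ := norm_pos_iff.2 (sub_ne_zero.2 hzc)
    have hzR : ‖z - c‖ ≤ R := by rw [← dist_eq_norm]; exact hz
    have key : ∀ ε : ℝ, 0 < ε → f z ≤ ε * (Real.log R - Real.log ‖z - c‖) := by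
      intro ε hε
      set δ := min ‖z - c‖ (R * Real.exp (-(M / ε))) with hδ
      have hδ0 : 0 < δ := lt_min hzp (by positivity)
      have hδz : δ ≤ ‖z - c‖ := min_le_left _ _
      have hlogδ : Real.log δ ≤ Real.log R - M / ε := by
        have : Real.log δ ≤ Real.log (R * Real.exp (-(M / ε))) := Real.log_le_log hδ0 (min_le_right _ _)
        rw [Real.log_mul hR.ne' (Real.exp_pos _).ne', Real.log_exp] at this
        linarith
      set K := closedBall c R \ ball c δ with hK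
      have hKc : IsCompact K := (isCompact_closedBall c R).diff isOpen_ball
      have hKne : ∀ w ∈ K, w ≠ c := by
        rintro w ⟨-, hw⟩ rfl
        exact hw (mem_ball_self hδ0)
      set F : ℂ → ℝ := fun w => f w + ε • (Real.log ‖w - c‖ - Real.log R) with hF
      have hlogh : ∀ w, w ≠ c → HarmonicAt (fun w => Real.log ‖w - c‖) w := by
        intro w hw
        exact AnalyticAt.harmonicAt_log_norm (f := fun w => w - c) (by fun_prop) (sub_ne_zero.2 hw)
      have hFc : ContinuousOn F K := by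
        refine (hf.mono sdiff_subset).add ?_
        refine ContinuousOn.const_smul ?_ ε
        refine ContinuousOn.sub ?_ continuousOn_const
        intro w hw
        refine ContinuousAt.continuousWithinAt ?_
        refine ContinuousAt.log (by fun_prop) ?_
        exact (norm_pos_iff.2 (sub_ne_zero.2 (hKne w hw))).ne'
      have h1 := max_principle hKc hFc (B := sphere c R ∪ sphere c δ) (M := 0) (by
        rintro w hw (hwR | hwδ)
        · simp only [hF, smul_eq_mul]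
          rw [mem_sphere, dist_eq_norm] at hwR
          have h2 := hs w (by rw [mem_sphere, dist_eq_norm]; exact hwR)
          rw [hwR, sub_self, mul_zero, add_zero]
          exact h2
        · simp only [hF, smul_eq_mul]
          rw [mem_sphere, dist_eq_norm] at hwδ
          have h2 := (le_abs_self _).trans (hM w hw.1)
          rw [hwδ]
          have h3 : ε * (Real.log δ - Real.log R) ≤ ε * (-(M / ε)) :=
            mul_le_mul_of_nonneg_left (by linarith) hε.le
          have h4 : ε * (-(M / ε)) = -M := by field_simp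
          linarith) (by
        intro w hw hwB
        have hw1 : ‖w - c‖ < R := by
          have h2 : ‖w - c‖ ≤ R := by rw [← dist_eq_norm]; exact hw.1
          exact lt_of_le_of_ne h2 fun h => hwB (Or.inl (by rw [mem_sphere, dist_eq_norm]; exact h))
        have hw2 : δ < ‖w - c‖ := by
          have h2 : δ ≤ ‖w - c‖ := by
            rw [← dist_eq_norm]; exact not_lt.1 hw.2
          exact lt_of_le_of_ne h2 fun h => hwB (Or.inr (by rw [mem_sphere, dist_eq_norm]; exact h.symm))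
        set r := min (R - ‖w - c‖) (‖w - c‖ - δ) / 2 with hr
        have hrpos : 0 < r := by
          have : 0 < min (R - ‖w - c‖) (‖w - c‖ - δ) := lt_min (by linarith) (by linarith)
          positivity
        have hr1 : r < R - ‖w - c‖ := by
          have := min_le_left (R - ‖w - c‖) (‖w - c‖ - δ)
          have h5 : 0 < min (R - ‖w - c‖) (‖w - c‖ - δ) := by rw [hr] at hrpos; linarith
          rw [hr]; linarith
        have hr2 : r < ‖w - c‖ - δ := by
          have := min_le_right (R - ‖w - c‖) (‖w - c‖ - δ)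
          have h5 : 0 < min (R - ‖w - c‖) (‖w - c‖ - δ) := by rw [hr] at hrpos; linarith
          rw [hr]; linarith
        have hsub : closedBall w r ⊆ ball c R \ closedBall c δ := by
          intro x hx
          rw [mem_closedBall, dist_eq_norm] at hx
          have e1 : x - c = (x - w) + (w - c) := by ring
          have e2 : w - c = (w - x) + (x - c) := by ring
          constructor
          · rw [mem_ball, dist_eq_norm, e1]
            have := norm_add_le (x - w) (w - c)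
            linarith
          · rw [mem_closedBall, dist_eq_norm, not_le]
            have h5 := norm_add_le (w - x) (x - c)
            rw [← e2, norm_sub_rev w x] at h5
            linarith
        refine ⟨r, hrpos, ?_, ?_⟩
        · intro x hx
          have h5 := hsub hx
          exact ⟨ball_subset_closedBall h5.1, fun h => h5.2 (ball_subset_closedBall h)⟩
        · intro x hx
          have h5 := hsub hx
          have hxc : x ≠ c := by
            rintro rfl
            exact h5.2 (mem_closedBall_self hδ0.le)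
          refine (hh x ⟨h5.1, hxc⟩).add ?_
          exact ((hlogh x hxc).sub (harmonicAt_const _)).const_smul) z ⟨hz, by
            rw [mem_ball, dist_eq_norm, not_lt]; exact hδz⟩
      simp only [hF, smul_eq_mul] at h1
      linarith
    have hL : 0 ≤ Real.log R - Real.log ‖z - c‖ := sub_nonneg.2 (Real.log_le_log hzp hzR)
    refine le_of_forall_pos_le_add fun η hη => ?_
    have h2 := key (η / (Real.log R - Real.log ‖z - c‖ + 1)) (by positivity)
    have h3 : η / (Real.log R - Real.log ‖z - c‖ + 1) * (Real.log R - Real.log ‖z - c‖) ≤ η := by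
      rw [div_mul_eq_mul_div, div_le_iff₀ (by positivity)]
      nlinarith
    linarith
  intro z hz
  by_cases hzc : z = c
  · have hfc : ContinuousAt f z := by
      rw [hzc]
      exact hf.continuousAt (closedBall_mem_nhds c hR)
    have h1 : Tendsto f (𝓝[≠] z) (𝓝 (f z)) := hfc.tendsto.mono_left nhdsWithin_le_nhds
    refine le_of_tendsto h1 ?_
    have h2 : closedBall c R ∈ 𝓝[≠] z := by
      rw [hzc]
      exact mem_nhdsWithin_of_mem_nhds (closedBall_mem_nhds c hR)
    filter_upwards [h2, self_mem_nhdsWithin] with w hw hwz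
    exact hne w hw (by rw [← hzc]; exact hwz)
  · exact hne z hz hzc

/-- **Removable points.** -/
theorem harmonicAt_of_punctured {U : ℂ → ℝ} {c : ℂ} {R : ℝ} (hR : 0 < R)
    (hU : ContinuousOn U (closedBall c R)) (hh : HarmonicOnNhd U (ball c R \ {c})) :
    HarmonicAt U c := by
  have hUs : ContinuousOn U (sphere c R) := hU.mono sphere_subset_closedBall
  have hgi : CircleIntegrable U c R := by
    apply ContinuousOn.circleIntegrable'
    rwa [abs_of_pos hR]
  have hD := harmonicOnNhd_dirichletSol hgi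
  have hDc := continuousOn_dirichletSol hR hUs
  have h1 := punctured_le hR (hU.sub hDc) (by
    intro z hz
    have : z ∉ ball c R := by
      rw [mem_sphere] at hz
      rw [mem_ball, hz]; exact lt_irrefl _
    simp only [Pi.sub_apply]
    rw [dirichletSol_of_notMem this, sub_self]) (hh.sub (hD.mono sdiff_subset))
  have h2 := punctured_le hR (hDc.sub hU) (by
    intro z hz
    have : z ∉ ball c R := by
      rw [mem_sphere] at hz
      rw [mem_ball, hz]; exact lt_irrefl _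
    simp only [Pi.sub_apply]
    rw [dirichletSol_of_notMem this, sub_self]) ((hD.mono sdiff_subset).sub hh)
  refine (harmonicAt_congr_nhds ?_).2 (hD c (mem_ball_self hR))
  filter_upwards [closedBall_mem_nhds c hR] with z hz
  have e1 := h1 z hz
  have e2 := h2 z hz
  simp only [Pi.sub_apply] at e1 e2
  linarith

theorem harmonicOnNhd_of_diff_finite {O S : Set ℂ} (hO : IsOpen O) (hS : S.Finite) {U : ℂ → ℝ}
    (hU : ContinuousOn U O) (hh : HarmonicOnNhd U (O \ S)) : HarmonicOnNhd U O := by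
  intro z hz
  have h1 : O ∩ (S \ {z})ᶜ ∈ 𝓝 z :=
    inter_mem (hO.mem_nhds hz) ((hS.sdiff.isClosed).isOpen_compl.mem_nhds (fun h => h.2 rfl))
  obtain ⟨R, hR, hsub⟩ := Metric.nhds_basis_closedBall.mem_iff.1 h1
  refine harmonicAt_of_punctured hR (hU.mono fun x hx => (hsub hx).1) ?_
  rintro x ⟨hx, hxz⟩
  have h2 := hsub (ball_subset_closedBall hx)
  exact hh x ⟨h2.1, fun hxS => h2.2 ⟨hxS, hxz⟩⟩

/-! ## Limits -/

theorem continuousOn_of_AE {ι : Type*} {l : Filter ι} [l.NeBot] {F : ι → ℂ → ℝ} {O : Set ℂ}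
    (hO : IsOpen O) (h : AE l F O) {U : ℂ → ℝ} (hT : ∀ z ∈ O, Tendsto (fun i => F i z) l (𝓝 (U z))) :
    ContinuousOn U O := by
  intro z hz
  refine ContinuousAt.continuousWithinAt ?_
  obtain ⟨K, hK, hKO, hKc⟩ := local_compact_nhds (hO.mem_nhds hz)
  rw [Metric.continuousAt_iff]
  intro ε hε
  obtain ⟨δ, hδ, h1⟩ := h K hKO hKc (ε / 2) (by positivity)
  obtain ⟨r, hr, hrK⟩ := Metric.mem_nhds_iff.1 hK
  refine ⟨min δ r, lt_min hδ hr, fun {w} hw => ?_⟩
  have hwK : w ∈ K := hrK (mem_ball.2 (hw.trans_le (min_le_right _ _)))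
  have hzK : z ∈ K := mem_of_mem_nhds hK
  have h2 : dist (U w) (U z) ≤ ε / 2 := by
    refine le_of_tendsto ((hT w (hKO hwK)).dist (hT z hz)) ?_
    filter_upwards [h1] with i hi
    exact (hi w hwK z hzK (hw.trans_le (min_le_left _ _))).le
  linarith

/-- **Harmonic limits.** `χ` is one fixed profile, `S` a finite set of exceptional points. -/
theorem harm_of_profile {ι : Type*} {l : Filter ι} {N : ι → ℕ} (hN : Tendsto N l atTop)
    {O S : Set ℂ} (hO : IsOpen O) (hS : S.Finite) {V : ι → ℤ × ℤ → ℝ}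
    (hV : AE l (fun i x => V i (fl (N i) x)) O)
    {χ : ℂ → ℝ} (hχ : ContDiff ℝ ∞ χ) (hc : HasCompactSupport χ) (hχ1 : ∫ x, χ x ≠ 0)
    (h : ∀ z0 ∈ O \ S, ∃ ρ > 0, ∀ ε > 0, ∃ r0 > 0, ∀ z ∈ ball z0 ρ, ∀ r : ℝ, 0 < r → r < r0 →
      ∀ᶠ i in l, |∑' v : ℤ × ℤ, χ ((mesh (N i) v - z) / r) * lapZ (V i) v| ≤ ε * r ^ 2) :
    ∀ u : Ultrafilter ι, (u : Filter ι) ≤ l → ∀ U : ℂ → ℝ,
      TendstoLocallyUniformlyOn (fun i x => V i (fl (N i) x)) U u O → HarmonicOnNhd U O := by
  intro u hu U hT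
  have hUc : ContinuousOn U O :=
    continuousOn_of_AE (l := (u : Filter ι)) hO (hV.mono hu le_rfl) (fun z hz => hT.tendsto_at hz)
  refine harmonicOnNhd_of_diff_finite hO hS hUc ?_
  have hO' : IsOpen (O \ S) := hO.sdiff hS.isClosed
  refine harmonicOnNhd_of_profile hO' (hUc.mono sdiff_subset) hχ hc hχ1 ?_
  intro z0 hz0
  obtain ⟨ρ, hρ, h1⟩ := h z0 hz0
  obtain ⟨R, hR⟩ := hc.isBounded.subset_closedBall 0
  have hR0 : tsupport χ ⊆ closedBall 0 (|R| + 1) := hR.trans (closedBall_subset_closedBall (by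
    linarith [le_abs_self R]))
  set R1 := |R| + 1 with hR1
  have hR1pos : 0 < R1 := by positivity
  obtain ⟨ρ1, hρ1, hball⟩ := Metric.isOpen_iff.1 hO' z0 hz0
  refine ⟨min ρ (ρ1 / 2), by positivity, fun ε hε => ?_⟩
  obtain ⟨r0, hr0, h2⟩ := h1 ε hε
  refine ⟨min r0 (ρ1 / 2 / R1), by positivity, fun z hz r hr hr' => ?_⟩
  have hz1 : z ∈ ball z0 ρ := ball_subset_ball (min_le_left _ _) hz
  have hz2 : dist z z0 < ρ1 / 2 := (mem_ball.1 hz).trans_le (min_le_right _ _)
  have hsupp : tsupport (fun y : ℂ => χ ((y - z) / r)) ⊆ O := by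
    intro x hx
    have hx1 := mem_closedBall.1 (tsupport_scale hR0 z hr hx)
    have hr1 : R1 * r < ρ1 / 2 := by
      have := hr'.trans_le (min_le_right _ _)
      rwa [lt_div_iff₀ hR1pos, mul_comm] at this
    have : x ∈ ball z0 ρ1 := by
      rw [mem_ball]
      have := dist_triangle x z z0
      linarith
    exact (hball this).1
  have h3 := lapZ_tendsto (l := (u : Filter ι)) (hN.mono_left hu) hO hUc hT (contDiff_scale hχ z r)
    (hasCompactSupport_scale hc z hr) hsupp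
  exact le_of_tendsto h3.abs (hu (h2 z hz1 r hr (hr'.trans_le (min_le_left _ _))))

/-! ## Comparison -/

lemma card_mesh_ball {n : ℕ} (hn : 0 < n) (z : ℂ) {ρ : ℝ} (hρ : 0 ≤ ρ) {S : Finset (ℤ × ℤ)}
    (hS : ∀ v ∈ S, dist (mesh n v) z ≤ ρ) : (S.card : ℝ) ≤ (2 * ρ * n + 1) ^ 2 := by
  have hn' : (0 : ℝ) < n := by exact_mod_cast hn
  set A := Finset.Icc ⌈(n : ℝ) * (z.re - ρ)⌉ ⌊(n : ℝ) * (z.re + ρ)⌋ with hA
  set B := Finset.Icc ⌈(n : ℝ) * (z.im - ρ)⌉ ⌊(n : ℝ) * (z.im + ρ)⌋ with hB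
  have hsub : S ⊆ A ×ˢ B := by
    intro v hv
    have h1 := hS v hv
    rw [dist_eq_norm] at h1
    have h2 := (Complex.abs_re_le_norm (mesh n v - z)).trans h1
    have h3 := (Complex.abs_im_le_norm (mesh n v - z)).trans h1
    simp only [Complex.sub_re, Complex.sub_im, mesh_re, mesh_im] at h2 h3
    rw [abs_le] at h2 h3
    have e1 : (n : ℝ) * ((v.1 : ℝ) / n) = v.1 := by field_simp
    have e2 : (n : ℝ) * ((v.2 : ℝ) / n) = v.2 := by field_simp
    rw [Finset.mem_product, hA, hB, Finset.mem_Icc, Finset.mem_Icc]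
    refine ⟨⟨Int.ceil_le.2 ?_, Int.le_floor.2 ?_⟩, ⟨Int.ceil_le.2 ?_, Int.le_floor.2 ?_⟩⟩
    · rw [← e1]; exact mul_le_mul_of_nonneg_left (by linarith [h2.1]) hn'.le
    · rw [← e1]; exact mul_le_mul_of_nonneg_left (by linarith [h2.2]) hn'.le
    · rw [← e2]; exact mul_le_mul_of_nonneg_left (by linarith [h3.1]) hn'.le
    · rw [← e2]; exact mul_le_mul_of_nonneg_left (by linarith [h3.2]) hn'.le
  have hcard : ∀ a : ℝ, ((Finset.Icc ⌈(n : ℝ) * (a - ρ)⌉ ⌊(n : ℝ) * (a + ρ)⌋).card : ℝ) ≤ 2 * ρ * n + 1 := by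
    intro a
    rw [Int.card_Icc]
    have h1 := Int.floor_le ((n : ℝ) * (a + ρ))
    have h2 := Int.le_ceil ((n : ℝ) * (a - ρ))
    rcases le_total 0 (⌊(n : ℝ) * (a + ρ)⌋ + 1 - ⌈(n : ℝ) * (a - ρ)⌉) with h | h
    · have : (((⌊(n : ℝ) * (a + ρ)⌋ + 1 - ⌈(n : ℝ) * (a - ρ)⌉).toNat : ℕ) : ℝ) =
          ((⌊(n : ℝ) * (a + ρ)⌋ + 1 - ⌈(n : ℝ) * (a - ρ)⌉ : ℤ) : ℝ) := by
        have := Int.toNat_of_nonneg h
        exact_mod_cast this
      rw [this]
      push_cast
      nlinarith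
    · rw [Int.toNat_of_nonpos h]
      simp only [Nat.cast_zero]
      positivity
  calc (S.card : ℝ) ≤ ((A ×ˢ B).card : ℝ) := by exact_mod_cast Finset.card_le_card hsub
    _ = (A.card : ℝ) * B.card := by rw [Finset.card_product]; push_cast; ring
    _ ≤ (2 * ρ * n + 1) * (2 * ρ * n + 1) :=
      mul_le_mul (hcard z.re) (hcard z.im) (Nat.cast_nonneg _) (by positivity)
    _ = _ := by ring

/-- the lattice Laplacian of the scaled profile -/
lemma lapZ_scale_le {χ : ℂ → ℝ} (hχ : ContDiff ℝ ∞ χ) (hc : HasCompactSupport χ) :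
    ∃ M : ℝ, 0 ≤ M ∧ ∀ (n : ℕ) (z : ℂ) (r : ℝ), 0 < n → 0 < r → ∀ v : ℤ × ℤ,
      |lapZ (fun v => χ ((mesh n v - z) / r)) v| ≤ M * (r ^ 2)⁻¹ * ((n : ℝ) ^ 2)⁻¹ := by
  obtain ⟨M1, hM1⟩ := (continuous_dd2 hχ 1).bounded_above_of_compact_support (hasCompactSupport_dd2 hc 1)
  obtain ⟨M2, hM2⟩ := (continuous_dd2 hχ I).bounded_above_of_compact_support (hasCompactSupport_dd2 hc I)
  have h10 : 0 ≤ M1 := (norm_nonneg _).trans (hM1 0)
  have h20 : 0 ≤ M2 := (norm_nonneg _).trans (hM2 0)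
  refine ⟨2 * M1 + 2 * M2, by positivity, fun n z r hn hr v => ?_⟩
  have hn' : (0 : ℝ) < n := by exact_mod_cast hn
  have hT : (0 : ℝ) ≤ 1 / n := by positivity
  have hr2 : 0 ≤ (r ^ 2)⁻¹ := by positivity
  have k1 := second_diff_dir (contDiff_scale hχ z r) 1 (mesh n v) (T := 1 / n) (ε := (r ^ 2)⁻¹ * M1)
    (c := 0) hT (by
      intro s hs
      rw [sub_zero, dd2_scale hχ, abs_mul, abs_of_nonneg hr2]
      exact mul_le_mul_of_nonneg_left (hM1 _) hr2)
  have k2 := second_diff_dir (contDiff_scale hχ z r) I (mesh n v) (T := 1 / n) (ε := (r ^ 2)⁻¹ * M2)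
    (c := 0) hT (by
      intro s hs
      rw [sub_zero, dd2_scale hχ, abs_mul, abs_of_nonneg hr2]
      exact mul_le_mul_of_nonneg_left (hM2 _) hr2)
  have m1 : mesh n (v.1 + 1, v.2) = mesh n v + ((1 / n : ℝ) : ℂ) * 1 := by
    apply Complex.ext <;> simp [mesh, add_div]
  have m2 : mesh n (v.1 - 1, v.2) = mesh n v - ((1 / n : ℝ) : ℂ) * 1 := by
    apply Complex.ext <;> simp [mesh, sub_div]
  have m3 : mesh n (v.1, v.2 + 1) = mesh n v + ((1 / n : ℝ) : ℂ) * I := by
    apply Complex.ext <;> simp [mesh, add_div]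
  have m4 : mesh n (v.1, v.2 - 1) = mesh n v - ((1 / n : ℝ) : ℂ) * I := by
    apply Complex.ext <;> simp [mesh, sub_div]
  unfold lapZ
  simp only [m1, m2, m3, m4]
  have hsq : (1 / (n : ℝ)) ^ 2 = ((n : ℝ) ^ 2)⁻¹ := by
    rw [div_pow, one_pow, one_div]
  rw [hsq, mul_zero, sub_zero] at k1 k2
  rw [abs_le] at k1 k2 ⊢
  constructor <;> nlinarith [k1.1, k1.2, k2.1, k2.2]

/-- **Comparison.** -/
theorem profile_compare {χ : ℂ → ℝ} (hχ : ContDiff ℝ ∞ χ) (hc : HasCompactSupport χ) {R : ℝ}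
    (hR0 : 0 ≤ R) (hR : tsupport χ ⊆ closedBall 0 R) :
    ∃ C : ℝ, 0 ≤ C ∧ ∀ (n : ℕ) (z : ℂ) (r : ℝ), 0 < n → 0 < r → 1 / (n : ℝ) ≤ r →
      ∀ (W : ℤ × ℤ → ℝ) (a η : ℝ), 0 ≤ η → (∀ v, dist (mesh n v) z ≤ (R + 1) * r → |W v - a| ≤ η) →
        |∑' v : ℤ × ℤ, χ ((mesh n v - z) / r) * lapZ W v| ≤ C * η := by
  obtain ⟨M, hM0, hM⟩ := lapZ_scale_le hχ hc
  refine ⟨M * (3 * (R + 1)) ^ 2, by positivity, fun n z r hn hr hnr W a η hη0 hW => ?_⟩
  have hn' : (0 : ℝ) < n := by exact_mod_cast hn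
  have hlap : ∀ v, lapZ W v = lapZ (fun v => W v - a) v := by
    intro v; unfold lapZ; ring
  simp only [hlap]
  have hcs := hasCompactSupport_scale hc z hr
  rw [tsum_lapZ (fun v => χ ((mesh n v - z) / r)) (fun v => W v - a)
    (support_mesh_finite hn hcs)]
  set S := (finite_mesh hn (isBounded_closedBall (x := z) (r := (R + 1) * r))).toFinset with hS
  have hSm : ∀ v, v ∈ S ↔ dist (mesh n v) z ≤ (R + 1) * r := by
    intro v
    rw [hS, Set.Finite.mem_toFinset]
    exact Iff.rfl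
  have hout : ∀ v, v ∉ S → lapZ (fun v => χ ((mesh n v - z) / r)) v = 0 := by
    intro v hv
    rw [hSm, not_le] at hv
    have hts : ∀ w : ℤ × ℤ, dist (mesh n v) (mesh n w) ≤ 1 / n → χ ((mesh n w - z) / r) = 0 := by
      intro w hw
      have h1 : mesh n w ∉ tsupport (fun y : ℂ => χ ((y - z) / r)) := by
        intro h2
        have h3 := mem_closedBall.1 (tsupport_scale hR z hr h2)
        have h4 := dist_triangle (mesh n v) (mesh n w) z
        nlinarith
      exact image_eq_zero_of_notMem_tsupport (f := fun y : ℂ => χ ((y - z) / r)) h1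
    have hd : ∀ a b : ℤ, |a| + |b| ≤ 1 → dist (mesh n v) (mesh n (v.1 + a, v.2 + b)) ≤ 1 / n := by
      intro a b hab
      rw [dist_eq_norm]
      refine (Complex.norm_le_abs_re_add_abs_im _).trans ?_
      have e1 : (mesh n v - mesh n (v.1 + a, v.2 + b)).re = -(a / n) := by
        simp [mesh]; ring
      have e2 : (mesh n v - mesh n (v.1 + a, v.2 + b)).im = -(b / n) := by
        simp [mesh]; ring
      rw [e1, e2, abs_neg, abs_neg, abs_div, abs_div, abs_of_pos hn', ← add_div]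
      have : (|(a : ℝ)| + |(b : ℝ)|) ≤ 1 := by exact_mod_cast hab
      gcongr
    have a1 := hts _ (hd 1 0 (by simp))
    have a2 := hts _ (hd (-1) 0 (by simp))
    have a3 := hts _ (hd 0 1 (by simp))
    have a4 := hts _ (hd 0 (-1) (by simp))
    have a5 := hts _ (hd 0 0 (by simp))
    simp only [add_zero] at a1 a2 a3 a4 a5
    simp only [lapZ, sub_eq_add_neg] at a1 a2 a3 a4 a5 ⊢
    rw [a1, a2, a3, a4]
    have a6 : χ ((mesh n v + -z) / r) = 0 := a5
    rw [a6]
    simp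
  rw [tsum_eq_sum (s := S) (fun v hv => by rw [hout v hv, zero_mul])]
  have hcard := card_mesh_ball hn z (ρ := (R + 1) * r) (by positivity) (S := S) (fun v hv => (hSm v).1 hv)
  have hrn : 1 ≤ r * n := by
    rwa [div_le_iff₀ hn'] at hnr
  have hcard2 : (S.card : ℝ) ≤ (3 * (R + 1)) ^ 2 * (r * n) ^ 2 := by
    refine hcard.trans ?_
    rw [← mul_pow]
    refine pow_le_pow_left₀ (by positivity) ?_ 2
    nlinarith
  calc |∑ v ∈ S, lapZ (fun v => χ ((mesh n v - z) / r)) v * (W v - a)|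
      ≤ ∑ v ∈ S, |lapZ (fun v => χ ((mesh n v - z) / r)) v * (W v - a)| := Finset.abs_sum_le_sum_abs _ _
    _ ≤ ∑ v ∈ S, M * (r ^ 2)⁻¹ * ((n : ℝ) ^ 2)⁻¹ * η := by
        refine Finset.sum_le_sum fun v hv => ?_
        rw [abs_mul]
        exact mul_le_mul (hM n z r hn hr v) (hW v ((hSm v).1 hv)) (abs_nonneg _) (by positivity)
    _ = S.card * (M * (r ^ 2)⁻¹ * ((n : ℝ) ^ 2)⁻¹ * η) := by rw [Finset.sum_const, nsmul_eq_mul]
    _ ≤ ((3 * (R + 1)) ^ 2 * (r * n) ^ 2) * (M * (r ^ 2)⁻¹ * ((n : ℝ) ^ 2)⁻¹ * η) :=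
        mul_le_mul_of_nonneg_right hcard2 (by positivity)
    _ = M * (3 * (R + 1)) ^ 2 * η := by
        field_simp

lemma tsum_lapZ_sub {n : ℕ} (hn : 0 < n) {a : ℂ → ℝ} (ha : HasCompactSupport a) (V W : ℤ × ℤ → ℝ) :
    ∑' v : ℤ × ℤ, a (mesh n v) * lapZ V v =
      ∑' v : ℤ × ℤ, a (mesh n v) * lapZ W v + ∑' v : ℤ × ℤ, a (mesh n v) * lapZ (fun v => V v - W v) v := by
  have hfin : ∀ T : ℤ × ℤ → ℝ, Summable fun v => a (mesh n v) * T v := by
    intro T
    refine summable_of_hasFiniteSupport ((support_mesh_finite hn ha).subset ?_)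
    intro v hv
    exact left_ne_zero_of_mul hv
  rw [← Summable.tsum_add (hfin _) (hfin _)]
  refine tsum_congr fun v => ?_
  unfold lapZ
  ring

/-- **The end of step 3.** `V' i` is the mean height of the opened domain (it may depend on `z` and `r`):
its lattice Laplacian is null against the profile, and up to a constant it is `ε r ^ 2` close to `V i`. -/
theorem harm_of_opened {ι : Type*} {l : Filter ι} {N : ι → ℕ} (hN : Tendsto N l atTop)
    {O S : Set ℂ} (hO : IsOpen O) (hS : S.Finite) {V : ι → ℤ × ℤ → ℝ}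
    (hV : AE l (fun i x => V i (fl (N i) x)) O)
    {χ : ℂ → ℝ} (hχ : ContDiff ℝ ∞ χ) (hc : HasCompactSupport χ) (hχ1 : ∫ x, χ x ≠ 0) {R : ℝ}
    (hR0 : 0 ≤ R) (hR : tsupport χ ⊆ closedBall 0 R)
    (h : ∀ z0 ∈ O \ S, ∃ ρ > 0, ∀ ε > 0, ∃ r0 > 0, ∀ z ∈ ball z0 ρ, ∀ r : ℝ, 0 < r → r < r0 →
      ∃ V' : ι → ℤ × ℤ → ℝ,
        (∀ᶠ i in l, |∑' v : ℤ × ℤ, χ ((mesh (N i) v - z) / r) * lapZ (V' i) v| ≤ ε * r ^ 2) ∧
        ∀ᶠ i in l, ∃ a : ℝ, ∀ v, dist (mesh (N i) v) z ≤ (R + 1) * r →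
          |V i v - V' i v - a| ≤ ε * r ^ 2) :
    ∀ u : Ultrafilter ι, (u : Filter ι) ≤ l → ∀ U : ℂ → ℝ,
      TendstoLocallyUniformlyOn (fun i x => V i (fl (N i) x)) U u O → HarmonicOnNhd U O := by
  refine harm_of_profile hN hO hS hV hχ hc hχ1 ?_
  intro z0 hz0
  obtain ⟨ρ, hρ, h1⟩ := h z0 hz0
  obtain ⟨C, hC0, hC⟩ := profile_compare hχ hc hR0 hR
  refine ⟨ρ, hρ, fun ε hε => ?_⟩
  obtain ⟨r0, hr0, h2⟩ := h1 (ε / (C + 1)) (by positivity)
  refine ⟨r0, hr0, fun z hz r hr hr' => ?_⟩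
  obtain ⟨V', h3, h4⟩ := h2 z hz r hr hr'
  have h5 : Tendsto (fun i => 1 / ((N i : ℕ) : ℝ)) l (𝓝 0) :=
    tendsto_one_div_atTop_nhds_zero_nat.comp hN
  filter_upwards [h3, h4, hN.eventually_gt_atTop 0, h5.eventually (gt_mem_nhds hr)] with i hi3 hi4 hi0 hi5
  obtain ⟨a, ha⟩ := hi4
  have h6 := hC (N i) z r hi0 hr hi5.le (fun v => V i v - V' i v) a (ε / (C + 1) * r ^ 2) (by positivity) ha
  rw [tsum_lapZ_sub hi0 (hasCompactSupport_scale hc z hr) (V i) (V' i)]
  refine (abs_add_le _ _).trans ?_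
  have h7 : ε / (C + 1) * r ^ 2 + C * (ε / (C + 1) * r ^ 2) = ε * r ^ 2 := by
    field_simp
    ring
  linarith

/-- The same with the error `C r ^ (2 + c)`. -/
theorem harm_of_opened_pow {ι : Type*} {l : Filter ι} {N : ι → ℕ} (hN : Tendsto N l atTop)
    {O S : Set ℂ} (hO : IsOpen O) (hS : S.Finite) {V : ι → ℤ × ℤ → ℝ}
    (hV : AE l (fun i x => V i (fl (N i) x)) O)
    {χ : ℂ → ℝ} (hχ : ContDiff ℝ ∞ χ) (hc : HasCompactSupport χ) (hχ1 : ∫ x, χ x ≠ 0) {R : ℝ}
    (hR0 : 0 ≤ R) (hR : tsupport χ ⊆ closedBall 0 R)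
    (h : ∀ z0 ∈ O \ S, ∃ ρ > 0, ∃ r0 > 0, ∃ C c : ℝ, 0 < c ∧ ∀ z ∈ ball z0 ρ, ∀ r : ℝ, 0 < r → r < r0 →
      ∃ V' : ι → ℤ × ℤ → ℝ,
        Tendsto (fun i => ∑' v : ℤ × ℤ, χ ((mesh (N i) v - z) / r) * lapZ (V' i) v) l (𝓝 0) ∧
        ∀ᶠ i in l, ∃ a : ℝ, ∀ v, dist (mesh (N i) v) z ≤ (R + 1) * r →
          |V i v - V' i v - a| ≤ C * r ^ (2 + c)) :
    ∀ u : Ultrafilter ι, (u : Filter ι) ≤ l → ∀ U : ℂ → ℝ,
      TendstoLocallyUniformlyOn (fun i x => V i (fl (N i) x)) U u O → HarmonicOnNhd U O := by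
  refine harm_of_opened hN hO hS hV hχ hc hχ1 hR0 hR ?_
  intro z0 hz0
  obtain ⟨ρ, hρ, r0, hr0, C, c, hc0, h1⟩ := h z0 hz0
  refine ⟨ρ, hρ, fun ε hε => ?_⟩
  -- `C r ^ c ≤ ε` for small `r`
  have hlim : Tendsto (fun r : ℝ => C * r ^ c) (𝓝[>] 0) (𝓝 0) := by
    have h2 : Tendsto (fun r : ℝ => C * r ^ c) (𝓝 0) (𝓝 (C * 0 ^ c)) :=
      ((Real.continuous_rpow_const hc0.le).tendsto 0).const_mul C
    rw [Real.zero_rpow hc0.ne', mul_zero] at h2
    exact h2.mono_left nhdsWithin_le_nhds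
  obtain ⟨r1, hr1, h3⟩ := mem_nhdsGT_iff_exists_Ioo_subset.1 (hlim.eventually (gt_mem_nhds hε))
  refine ⟨min r0 r1, lt_min hr0 hr1, fun z hz r hr hr' => ?_⟩
  obtain ⟨V', h4, h5⟩ := h1 z hz r hr (hr'.trans_le (min_le_left _ _))
  refine ⟨V', ?_, ?_⟩
  · have h6 : (0 : ℝ) < ε * r ^ 2 := by positivity
    have h7 := h4.abs
    rw [abs_zero] at h7
    filter_upwards [h7.eventually (gt_mem_nhds h6)] with i hi
    exact hi.le
  · filter_upwards [h5] with i hi
    obtain ⟨a, ha⟩ := hi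
    refine ⟨a, fun v hv => (ha v hv).trans ?_⟩
    have h8 : C * r ^ c < ε := h3 ⟨hr, hr'.trans_le (min_le_right _ _)⟩
    rw [Real.rpow_add hr, Real.rpow_two]
    have : (0 : ℝ) < r ^ 2 := by positivity
    nlinarith

end Pool.Agent.SixB.DC
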