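import Pool.Agent.Lib.SixB.AN10b

/-!
# Weak harmonicity at a centre (AN10c): the export of step 3 of MP_6bd702

* `WHat l N χ V z0`: near the centre `z0` the lattice Laplacian of `V i` is null against the profile `χ`.
* `whAt_of_opened`, `whAt_of_opened_pow`: the comparison with the opened domain gives `WHat`.
* `WHL l N P χ V`: `WHat` at all points of `O` off finitely many horizontal lines.
* `WHat.comp`, `WHat.add`, `WHat.neg`, `WHat.mix`, `WHat.congr_const` and the same for `WHL`.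
* `chiR`: one smooth radial profile with support in the closed unit ball and positive integral.
-/

set_option autoImplicit false

open Filter Topology Metric Set Complex InnerProductSpace Real MeasureTheory Laplacian
open scoped Convolution ContDiff

namespace Pool.Agent.SixB.DC

/-- near the centre `z0` the lattice Laplacian of `V i` is null against the profile `χ` -/
def WHat {ι : Type*} (l : Filter ι) (N : ι → ℕ) (χ : ℂ → ℝ) (V : ι → ℤ × ℤ → ℝ) (z0 : ℂ) : Prop :=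
  ∃ ρ > 0, ∀ ε > 0, ∃ r0 > 0, ∀ z ∈ ball z0 ρ, ∀ r : ℝ, 0 < r → r < r0 →
    ∀ᶠ i in l, |∑' v : ℤ × ℤ, χ ((mesh (N i) v - z) / r) * lapZ (V i) v| ≤ ε * r ^ 2

/-- `WHat` at all points of `O` off finitely many horizontal lines -/
def WHL {ι : Type*} (l : Filter ι) (N : ι → ℕ) (O : Set ℂ) (χ : ℂ → ℝ) (V : ι → ℤ × ℤ → ℝ) : Prop :=
  ∃ X : Set ℝ, X.Finite ∧ ∀ z0 ∈ O, z0.im ∉ X → WHat l N χ V z0

section

variable {ι κ : Type*} {l l' : Filter ι} {m : Filter κ} {N : ι → ℕ} {χ : ℂ → ℝ} {V W V₁ V₂ : ι → ℤ × ℤ → ℝ}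
  {z0 : ℂ} {O : Set ℂ}

/-- **The end of step 3, local form.** `V' i` is the mean height of the opened domain (it may depend on `z`
and `r`): its lattice Laplacian is null against the profile, and up to a constant it is `ε r ^ 2` close. -/
theorem whAt_of_opened (hN : Tendsto N l atTop) (hχ : ContDiff ℝ ∞ χ) (hc : HasCompactSupport χ) {R : ℝ}
    (hR0 : 0 ≤ R) (hR : tsupport χ ⊆ closedBall 0 R)
    (h : ∃ ρ > 0, ∀ ε > 0, ∃ r0 > 0, ∀ z ∈ ball z0 ρ, ∀ r : ℝ, 0 < r → r < r0 →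
      ∃ V' : ι → ℤ × ℤ → ℝ,
        (∀ᶠ i in l, |∑' v : ℤ × ℤ, χ ((mesh (N i) v - z) / r) * lapZ (V' i) v| ≤ ε * r ^ 2) ∧
        ∀ᶠ i in l, ∃ a : ℝ, ∀ v, dist (mesh (N i) v) z ≤ (R + 1) * r →
          |V i v - V' i v - a| ≤ ε * r ^ 2) : WHat l N χ V z0 := by
  obtain ⟨ρ, hρ, h1⟩ := h
  obtain ⟨C, hC0, hC⟩ := profile_compare hχ hc hR0 hR
  refine ⟨ρ, hρ, fun ε hε => ?_⟩
  obtain ⟨r0, hr0, h2⟩ := h1 (ε / (C + 1)) (by positivity)
  refine ⟨r0, hr0, fun z hz r hr hr' => ?_⟩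
  obtain ⟨V', h3, h4⟩ := h2 z hz r hr hr'
  have h5 : Tendsto (fun i => 1 / ((N i : ℕ) : ℝ)) l (𝓝 0) :=
    tendsto_one_div_atTop_nhds_zero_nat.comp hN
  filter_upwards [h3, h4, hN.eventually_gt_atTop 0, h5.eventually (gt_mem_nhds hr)] with i hi3 hi4 hi0 hi5
  obtain ⟨a, ha⟩ := hi4
  have h6 := hC (N i) z r hi0 hr hi5.le (fun v => V i v - V' i v) a (ε / (C + 1) * r ^ 2) (by positivity) ha
  rw [tsum_lapZ_sub hi0 (hasCompactSupport_scale hc z hr) (V i) (V' i)]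
  refine (abs_add_le _ _).trans ?_
  have h7 : ε / (C + 1) * r ^ 2 + C * (ε / (C + 1) * r ^ 2) = ε * r ^ 2 := by
    field_simp
    ring
  linarith

/-- The same with the error `C r ^ (2 + c)`. -/
theorem whAt_of_opened_pow (hN : Tendsto N l atTop) (hχ : ContDiff ℝ ∞ χ) (hc : HasCompactSupport χ) {R : ℝ}
    (hR0 : 0 ≤ R) (hR : tsupport χ ⊆ closedBall 0 R)
    (h : ∃ ρ > 0, ∃ r0 > 0, ∃ C c : ℝ, 0 < c ∧ ∀ z ∈ ball z0 ρ, ∀ r : ℝ, 0 < r → r < r0 →
      ∃ V' : ι → ℤ × ℤ → ℝ,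
        Tendsto (fun i => ∑' v : ℤ × ℤ, χ ((mesh (N i) v - z) / r) * lapZ (V' i) v) l (𝓝 0) ∧
        ∀ᶠ i in l, ∃ a : ℝ, ∀ v, dist (mesh (N i) v) z ≤ (R + 1) * r →
          |V i v - V' i v - a| ≤ C * r ^ (2 + c)) : WHat l N χ V z0 := by
  refine whAt_of_opened hN hχ hc hR0 hR ?_
  obtain ⟨ρ, hρ, r0, hr0, C, c, hc0, h1⟩ := h
  refine ⟨ρ, hρ, fun ε hε => ?_⟩
  have hlim : Tendsto (fun r : ℝ => C * r ^ c) (𝓝[>] 0) (𝓝 0) := by
    have h2 : Tendsto (fun r : ℝ => C * r ^ c) (𝓝 0) (𝓝 (C * 0 ^ c)) :=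
      ((Real.continuous_rpow_const hc0.le).tendsto 0).const_mul C
    rw [Real.zero_rpow hc0.ne', mul_zero] at h2
    exact h2.mono_left nhdsWithin_le_nhds
  obtain ⟨r1, hr1, h3⟩ := mem_nhdsGT_iff_exists_Ioo_subset.1 (hlim.eventually (gt_mem_nhds hε))
  refine ⟨min r0 r1, lt_min hr0 hr1, fun z hz r hr hr' => ?_⟩
  obtain ⟨V', h4, h5⟩ := h1 z hz r hr (hr'.trans_le (min_le_left _ _))
  refine ⟨V', ?_, ?_⟩
  · have h6 : (0 : ℝ) < ε * r ^ 2 := by positivity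
    have h7 := h4.abs
    rw [abs_zero] at h7
    filter_upwards [h7.eventually (gt_mem_nhds h6)] with i hi
    exact hi.le
  · filter_upwards [h5] with i hi
    obtain ⟨a, ha⟩ := hi
    refine ⟨a, fun v hv => (ha v hv).trans ?_⟩
    have h8 : C * r ^ c < ε := h3 ⟨hr, hr'.trans_le (min_le_right _ _)⟩
    rw [Real.rpow_add hr, Real.rpow_two]
    have : (0 : ℝ) < r ^ 2 := by positivity
    nlinarith

/-! ## Rules -/

theorem WHat.mono (h : WHat l N χ V z0) (hl : l' ≤ l) : WHat l' N χ V z0 := by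
  obtain ⟨ρ, hρ, h1⟩ := h
  refine ⟨ρ, hρ, fun ε hε => ?_⟩
  obtain ⟨r0, hr0, h2⟩ := h1 ε hε
  exact ⟨r0, hr0, fun z hz r hr hr' => hl (h2 z hz r hr hr')⟩

theorem WHat.comp (h : WHat l N χ V z0) {φ : κ → ι} (hφ : Tendsto φ m l) :
    WHat m (fun k => N (φ k)) χ (fun k => V (φ k)) z0 := by
  obtain ⟨ρ, hρ, h1⟩ := h
  refine ⟨ρ, hρ, fun ε hε => ?_⟩
  obtain ⟨r0, hr0, h2⟩ := h1 ε hε
  exact ⟨r0, hr0, fun z hz r hr hr' => hφ.eventually (h2 z hz r hr hr')⟩

/-- only the lattice Laplacian counts: `W - V` may be a constant which depends on `i` -/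
theorem WHat.congr_const (h : WHat l N χ V z0) (hVW : ∀ᶠ i in l, ∃ a : ℝ, ∀ v, W i v = V i v + a) :
    WHat l N χ W z0 := by
  obtain ⟨ρ, hρ, h1⟩ := h
  refine ⟨ρ, hρ, fun ε hε => ?_⟩
  obtain ⟨r0, hr0, h2⟩ := h1 ε hε
  refine ⟨r0, hr0, fun z hz r hr hr' => ?_⟩
  filter_upwards [h2 z hz r hr hr', hVW] with i hi hVW
  obtain ⟨a, ha⟩ := hVW
  have e : ∀ v, lapZ (W i) v = lapZ (V i) v := by
    intro v
    unfold lapZ
    simp only [ha]
    ring
  simpa only [e] using hi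

/-- linear combinations with bounded coefficients which may depend on the index -/
theorem WHat.mix (hN : Tendsto N l atTop) (hc : HasCompactSupport χ) (h₁ : WHat l N χ V₁ z0)
    (h₂ : WHat l N χ V₂ z0) {α β : ι → ℝ} {K : ℝ} (hα : ∀ᶠ i in l, |α i| ≤ K)
    (hβ : ∀ᶠ i in l, |β i| ≤ K) (hW : ∀ᶠ i in l, ∀ v, lapZ (W i) v = α i * lapZ (V₁ i) v + β i * lapZ (V₂ i) v) :
    WHat l N χ W z0 := by
  obtain ⟨ρ₁, hρ₁, a1⟩ := h₁
  obtain ⟨ρ₂, hρ₂, a2⟩ := h₂
  refine ⟨min ρ₁ ρ₂, lt_min hρ₁ hρ₂, fun ε hε => ?_⟩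
  have hK : (0 : ℝ) < |K| + 1 := by positivity
  obtain ⟨r₁, hr₁, b1⟩ := a1 (ε / (2 * (|K| + 1))) (by positivity)
  obtain ⟨r₂, hr₂, b2⟩ := a2 (ε / (2 * (|K| + 1))) (by positivity)
  refine ⟨min r₁ r₂, lt_min hr₁ hr₂, fun z hz r hr hr' => ?_⟩
  have hz' : dist z z0 < min ρ₁ ρ₂ := hz
  filter_upwards [b1 z (hz'.trans_le (min_le_left _ _)) r hr (hr'.trans_le (min_le_left _ _)),
    b2 z (hz'.trans_le (min_le_right _ _)) r hr (hr'.trans_le (min_le_right _ _)),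
    hN.eventually_gt_atTop 0, hα, hβ, hW] with i c1 c2 hi0 hα hβ hW
  have hfin : ∀ T : ℤ × ℤ → ℝ, Summable fun v => χ ((mesh (N i) v - z) / r) * T v := by
    intro T
    refine summable_of_hasFiniteSupport
      ((support_mesh_finite hi0 (hasCompactSupport_scale hc z hr)).subset ?_)
    intro v hv
    exact left_ne_zero_of_mul hv
  have e : ∑' v : ℤ × ℤ, χ ((mesh (N i) v - z) / r) * lapZ (W i) v =
      α i * ∑' v : ℤ × ℤ, χ ((mesh (N i) v - z) / r) * lapZ (V₁ i) v +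
      β i * ∑' v : ℤ × ℤ, χ ((mesh (N i) v - z) / r) * lapZ (V₂ i) v := by
    rw [← tsum_mul_left, ← tsum_mul_left,
      ← Summable.tsum_add ((hfin _).mul_left _) ((hfin _).mul_left _)]
    refine tsum_congr fun v => ?_
    rw [hW v]
    ring
  rw [e]
  have hb : ∀ (t x : ℝ), |t| ≤ K → |x| ≤ ε / (2 * (|K| + 1)) * r ^ 2 → |t * x| ≤ ε / 2 * r ^ 2 := by
    intro t x ht hx
    rw [abs_mul]
    calc |t| * |x| ≤ (|K| + 1) * (ε / (2 * (|K| + 1)) * r ^ 2) :=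
          mul_le_mul (ht.trans ((le_abs_self K).trans (by linarith))) hx (abs_nonneg _) hK.le
      _ = ε / 2 * r ^ 2 := by field_simp
  refine (abs_add_le _ _).trans ?_
  have h1 := hb _ _ hα c1
  have h2 := hb _ _ hβ c2
  linarith

theorem WHat.add (hN : Tendsto N l atTop) (hc : HasCompactSupport χ) (h₁ : WHat l N χ V₁ z0)
    (h₂ : WHat l N χ V₂ z0) : WHat l N χ (fun i v => V₁ i v + V₂ i v) z0 := by
  refine h₁.mix hN hc h₂ (α := fun _ => 1) (β := fun _ => 1) (K := 1) (by simp) (by simp) ?_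
  filter_upwards with i v
  unfold lapZ
  ring

theorem WHat.sub (hN : Tendsto N l atTop) (hc : HasCompactSupport χ) (h₁ : WHat l N χ V₁ z0)
    (h₂ : WHat l N χ V₂ z0) : WHat l N χ (fun i v => V₁ i v - V₂ i v) z0 := by
  refine h₁.mix hN hc h₂ (α := fun _ => 1) (β := fun _ => -1) (K := 1) (by simp) (by simp) ?_
  filter_upwards with i v
  unfold lapZ
  ring

/-! ## Off horizontal lines -/

theorem WHL.mono (h : WHL l N O χ V) (hl : l' ≤ l) : WHL l' N O χ V := by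
  obtain ⟨X, hX, h1⟩ := h
  exact ⟨X, hX, fun z hz hz' => (h1 z hz hz').mono hl⟩

theorem WHL.comp (h : WHL l N O χ V) {φ : κ → ι} (hφ : Tendsto φ m l) :
    WHL m (fun k => N (φ k)) O χ (fun k => V (φ k)) := by
  obtain ⟨X, hX, h1⟩ := h
  exact ⟨X, hX, fun z hz hz' => (h1 z hz hz').comp hφ⟩

theorem WHL.congr_const (h : WHL l N O χ V) (hVW : ∀ᶠ i in l, ∃ a : ℝ, ∀ v, W i v = V i v + a) :
    WHL l N O χ W := by
  obtain ⟨X, hX, h1⟩ := h
  exact ⟨X, hX, fun z hz hz' => (h1 z hz hz').congr_const hVW⟩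

theorem WHL.mix (hN : Tendsto N l atTop) (hc : HasCompactSupport χ) (h₁ : WHL l N O χ V₁)
    (h₂ : WHL l N O χ V₂) {α β : ι → ℝ} {K : ℝ} (hα : ∀ᶠ i in l, |α i| ≤ K)
    (hβ : ∀ᶠ i in l, |β i| ≤ K) (hW : ∀ᶠ i in l, ∀ v, lapZ (W i) v = α i * lapZ (V₁ i) v + β i * lapZ (V₂ i) v) :
    WHL l N O χ W := by
  obtain ⟨X, hX, h1⟩ := h₁
  obtain ⟨Y, hY, h2⟩ := h₂
  exact ⟨X ∪ Y, hX.union hY, fun z hz hz' => (h1 z hz fun h => hz' (Or.inl h)).mix hN hc
    (h2 z hz fun h => hz' (Or.inr h)) hα hβ hW⟩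

end

/-! ## One radial profile -/

/-- a smooth radial profile with support in the closed unit ball -/
noncomputable def chiR (z : ℂ) : ℝ := Real.smoothTransition (1 - normSq z)

lemma contDiff_chiR : ContDiff ℝ ∞ chiR := by
  have h1 : ContDiff ℝ ∞ (fun z : ℂ => 1 - normSq z) := by
    have h2 : (fun z : ℂ => 1 - normSq z) = fun z : ℂ => 1 - (reCLM z * reCLM z + imCLM z * imCLM z) := by
      funext z
      simp [normSq_apply]
    rw [h2]
    exact contDiff_const.sub ((reCLM.contDiff.mul reCLM.contDiff).add (imCLM.contDiff.mul imCLM.contDiff))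
  exact Real.smoothTransition.contDiff.comp h1

lemma chiR_nonneg (z : ℂ) : 0 ≤ chiR z := Real.smoothTransition.nonneg _

lemma chiR_le_one (z : ℂ) : chiR z ≤ 1 := Real.smoothTransition.le_one _

lemma support_chiR : Function.support chiR = ball 0 1 := by
  ext z
  rw [Function.mem_support, mem_ball, dist_zero_right]
  constructor
  · intro h
    by_contra h1
    push Not at h1
    refine h (Real.smoothTransition.zero_of_nonpos ?_)
    rw [normSq_eq_norm_sq]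
    nlinarith
  · intro h
    refine (Real.smoothTransition.pos_of_pos ?_).ne'
    rw [normSq_eq_norm_sq]
    nlinarith [norm_nonneg z]

lemma tsupport_chiR : tsupport chiR ⊆ closedBall 0 1 := by
  rw [tsupport, support_chiR]
  exact closure_ball_subset_closedBall

lemma hasCompactSupport_chiR : HasCompactSupport chiR :=
  (isCompact_closedBall (0 : ℂ) 1).of_isClosed_subset (isClosed_tsupport _) tsupport_chiR

lemma integral_chiR_pos : 0 < ∫ z, chiR z := by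
  refine (integral_pos_iff_support_of_nonneg chiR_nonneg
    (contDiff_chiR.continuous.integrable_of_hasCompactSupport hasCompactSupport_chiR)).2 ?_
  rw [support_chiR]
  exact measure_ball_pos _ _ one_pos

lemma chiR_mul {u : ℂ} (hu : ‖u‖ = 1) (z : ℂ) : chiR (u * z) = chiR z := by
  unfold chiR
  rw [map_mul, normSq_eq_norm_sq u, hu, one_pow, one_mul]

lemma chiR_I (z : ℂ) : chiR (I * z) = chiR z := chiR_mul norm_I z

lemma chiR_conj (z : ℂ) : chiR ((starRingEnd ℂ) z) = chiR z := by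
  unfold chiR
  rw [normSq_conj]

lemma chiR_neg (z : ℂ) : chiR (-z) = chiR z := by
  unfold chiR
  rw [normSq_neg]

end Pool.Agent.SixB.DC
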