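import Mathlib

/-! Analysis package for MP_6bd702, file AN1b.
* Second order expansion of circle averages. -/

open Filter Topology Metric Set Complex InnerProductSpace Real MeasureTheory Laplacian

namespace Pool.Agent.SixB

/-- Second order Taylor expansion, uniform in the direction. -/
theorem taylor_two {v : ℂ → ℝ} {z : ℂ} (hv : ContDiffAt ℝ 2 v z) {ε : ℝ} (hε : 0 < ε) :
    ∃ δ > 0, ∀ h : ℂ, ‖h‖ < δ →
      |v (z + h) - v z - fderiv ℝ v z h - (1 / 2) * (fderiv ℝ (fderiv ℝ v) z h h)| ≤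
        ε * ‖h‖ ^ 2 := by
  have hv1 : ∀ᶠ x in 𝓝 z, DifferentiableAt ℝ v x := by
    have h1 : ∀ᶠ x in 𝓝 z, ContDiffAt ℝ 2 v x := hv.eventually (by simp)
    filter_upwards [h1] with x hx
    exact hx.differentiableAt (by norm_num)
  have hv2 : DifferentiableAt ℝ (fderiv ℝ v) z :=
    (hv.fderiv_right (m := 1) (by norm_num)).differentiableAt (by norm_num)
  set B := fderiv ℝ (fderiv ℝ v) z with hB
  have hsymm : ∀ a b, B a b = B b a := by
    have := (hv.isSymmSndFDerivAt (by simp)).eq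
    exact this
  have h3 := hv2.hasFDerivAt.isLittleO
  rw [Asymptotics.isLittleO_iff] at h3
  have h4 := h3 hε
  obtain ⟨δ, hδ, h5⟩ := Metric.eventually_nhds_iff_ball.1 (h4.and hv1)
  refine ⟨δ, hδ, fun h hh => ?_⟩
  -- the remainder as a function on the ball of radius ‖h‖
  set Rm : ℂ → ℝ := fun k => v (z + k) - v z - fderiv ℝ v z k - (1 / 2) * B k k with hRm
  have hder : ∀ k ∈ closedBall (0 : ℂ) ‖h‖, HasFDerivWithinAt Rm
      (fderiv ℝ v (z + k) - fderiv ℝ v z - B k) (closedBall (0 : ℂ) ‖h‖) k := by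
    intro k hk
    rw [mem_closedBall, dist_zero_right] at hk
    have hzk : z + k ∈ ball z δ := by
      rw [mem_ball, dist_eq_norm]; simpa using lt_of_le_of_lt hk hh
    have h6 : HasFDerivAt (fun k => v (z + k)) (fderiv ℝ v (z + k)) k := by
      have h7 := (h5 (z + k) hzk).2.hasFDerivAt
      have h8 : HasFDerivAt (fun k : ℂ => z + k) (ContinuousLinearMap.id ℝ ℂ) k := by
        simpa using (hasFDerivAt_id k).const_add z
      have h8' := h7.comp k h8
      rw [ContinuousLinearMap.comp_id] at h8'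
      exact h8'
    have h9 : HasFDerivAt (fun k => fderiv ℝ v z k) (fderiv ℝ v z) k :=
      (fderiv ℝ v z).hasFDerivAt
    have h10 : HasFDerivAt (fun k => B k k) ((B k) + (B.flip k)) k := by
      have h11 : HasFDerivAt (fun k => B k) B k := B.hasFDerivAt
      have h12 := h11.clm_apply (hasFDerivAt_id k)
      refine h12.congr_fderiv ?_
      refine ContinuousLinearMap.ext fun y => ?_
      simp
    have h13 := ((h6.sub_const (v z)).sub h9).sub (h10.const_mul (1 / 2 : ℝ))
    have h14 : (fderiv ℝ v (z + k) - fderiv ℝ v z - (1 / 2 : ℝ) • ((B k) + (B.flip k))) =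
        fderiv ℝ v (z + k) - fderiv ℝ v z - B k := by
      congr 1
      refine ContinuousLinearMap.ext fun y => ?_
      simp only [_root_.smul_apply, _root_.add_apply,
        ContinuousLinearMap.flip_apply, smul_eq_mul]
      rw [hsymm y k]; ring
    rw [h14] at h13
    exact h13.hasFDerivWithinAt
  have hbd : ∀ k ∈ closedBall (0 : ℂ) ‖h‖,
      ‖fderiv ℝ v (z + k) - fderiv ℝ v z - B k‖ ≤ ε * ‖h‖ := by
    intro k hk
    rw [mem_closedBall, dist_zero_right] at hk
    have hzk : z + k ∈ ball z δ := by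
      rw [mem_ball, dist_eq_norm]; simpa using lt_of_le_of_lt hk hh
    have h6 := (h5 (z + k) hzk).1
    simp only [add_sub_cancel_left] at h6
    exact h6.trans (by gcongr)
  have h7 := (convex_closedBall (0 : ℂ) ‖h‖).norm_image_sub_le_of_norm_hasFDerivWithin_le
    hder hbd (mem_closedBall_self (norm_nonneg h))
    (show h ∈ closedBall (0 : ℂ) ‖h‖ by simp)
  have h8 : Rm 0 = 0 := by simp [hRm]
  rw [h8, sub_zero, sub_zero, Real.norm_eq_abs] at h7
  calc |v (z + h) - v z - fderiv ℝ v z h - 1 / 2 * B h h| = |Rm h| := rfl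
    _ ≤ ε * ‖h‖ * ‖h‖ := h7
    _ = ε * ‖h‖ ^ 2 := by ring

/-- Four point formula for the Laplacian. -/
theorem four_point {v : ℂ → ℝ} {z : ℂ} (hv : ContDiffAt ℝ 2 v z) {ε : ℝ} (hε : 0 < ε) :
    ∃ δ > 0, ∀ h : ℂ, ‖h‖ < δ →
      |v (z + h) + v (z + I * h) + v (z + I * (I * h)) + v (z + I * (I * (I * h))) - 4 * v z -
        ‖h‖ ^ 2 * (Δ v) z| ≤ ε * ‖h‖ ^ 2 := by
  obtain ⟨δ, hδ, h1⟩ := taylor_two hv (show 0 < ε / 4 by positivity)
  refine ⟨δ, hδ, fun h hh => ?_⟩
  have hI : ∀ k : ℂ, ‖I * k‖ = ‖k‖ := fun k => by simp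
  have e0 := h1 h hh
  have e1 := h1 (I * h) (by rwa [hI])
  have e2 := h1 (I * (I * h)) (by rwa [hI, hI])
  have e3 := h1 (I * (I * (I * h))) (by rwa [hI, hI, hI])
  rw [hI] at e1
  rw [hI, hI] at e2
  rw [hI, hI, hI] at e3
  have hII : I * (I * h) = -h := by rw [← mul_assoc, I_mul_I]; ring
  have hIII : I * (I * (I * h)) = -(I * h) := by rw [hII]; ring
  set A := fderiv ℝ v z
  set B := fderiv ℝ (fderiv ℝ v) z with hB
  have hlap : (Δ v) z = B 1 1 + B I I := by
    rw [laplacian_eq_iteratedFDeriv_complexPlane]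
    simp [iteratedFDeriv_two_apply, hB]
  have hsymm : ∀ a b, B a b = B b a := (hv.isSymmSndFDerivAt (by simp)).eq
  have hquad : B h h + B (I * h) (I * h) = ‖h‖ ^ 2 * (Δ v) z := by
    have hh1 : h = h.re • (1 : ℂ) + h.im • I := by
      apply Complex.ext <;> simp
    have hh2 : I * h = -h.im • (1 : ℂ) + h.re • I := by
      apply Complex.ext <;> simp
    have hn : ‖h‖ ^ 2 = h.re * h.re + h.im * h.im := by
      rw [← Complex.normSq_eq_norm_sq, Complex.normSq_apply]
    rw [hlap, hn, hh2]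
    conv_lhs => rw [hh1]
    simp only [map_add, map_smul, _root_.add_apply, _root_.smul_apply,
      smul_eq_mul, map_neg, _root_.neg_apply, neg_smul]
    rw [hsymm I 1]
    simp
    ring
  rw [hIII] at e3 ⊢
  rw [hII] at e2 ⊢
  have f2 : A (-h) = -A h := map_neg _ _
  have f3 : A (-(I * h)) = -A (I * h) := map_neg _ _
  have g2 : B (-h) (-h) = B h h := by simp
  have g3 : B (-(I * h)) (-(I * h)) = B (I * h) (I * h) := by simp
  rw [f2, g2] at e2
  rw [f3, g3] at e3
  rw [← hquad]
  rw [abs_le] at *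
  constructor <;> linarith [e0.1, e0.2, e1.1, e1.2, e2.1, e2.2, e3.1, e3.2]

theorem circleMap_add_quarter (c : ℂ) (R θ : ℝ) :
    circleMap c R (θ + π / 2) = c + I * (circleMap c R θ - c) := by
  simp only [circleMap]
  push_cast
  rw [add_mul, Complex.exp_add]
  have : cexp (π / 2 * I) = I := by
    rw [Complex.exp_mul_I, Complex.cos_pi_div_two, Complex.sin_pi_div_two]; simp
  rw [this]; ring

/-- Circle averages of `C ^ 2` functions. -/
theorem circleAverage_expand {v : ℂ → ℝ} {z : ℂ} (hv : ContDiffAt ℝ 2 v z) {ε : ℝ} (hε : 0 < ε) :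
    ∃ δ > 0, ∀ r : ℝ, 0 < r → r < δ →
      |circleAverage v z r - v z - r ^ 2 / 4 * (Δ v) z| ≤ ε * r ^ 2 := by
  obtain ⟨δ1, hδ1, h1⟩ := four_point hv hε
  have hc : ∀ᶠ x in 𝓝 z, ContinuousAt v x := by
    have h1 : ∀ᶠ x in 𝓝 z, ContDiffAt ℝ 2 v x := hv.eventually (by simp)
    filter_upwards [h1] with x hx
    exact hx.continuousAt
  obtain ⟨δ2, hδ2, h2⟩ := Metric.eventually_nhds_iff_ball.1 hc
  refine ⟨min δ1 δ2, lt_min hδ1 hδ2, fun r hr hrδ => ?_⟩
  have hr1 : r < δ1 := lt_of_lt_of_le hrδ (min_le_left _ _)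
  have hr2 : r < δ2 := lt_of_lt_of_le hrδ (min_le_right _ _)
  have hcs : ContinuousOn v (sphere z |r|) := by
    intro x hx
    refine (h2 x ?_).continuousWithinAt
    rw [mem_sphere, abs_of_pos hr] at hx
    rw [mem_ball, hx]; exact hr2
  have hci : ∀ η : ℝ, IntervalIntegrable (fun θ => v (circleMap z r (θ + η))) volume 0 (2 * π) := by
    intro η
    apply Continuous.intervalIntegrable
    refine hcs.comp_continuous (by fun_prop) (fun θ => ?_)
    exact circleMap_mem_sphere' _ _ _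
  have hrot : ∀ η : ℝ, circleAverage v z r = (2 * π)⁻¹ * ∫ θ in 0..2 * π, v (circleMap z r (θ + η)) := by
    intro η
    rw [circleAverage_eq_integral_add η, smul_eq_mul]
  have hsum : 4 * circleAverage v z r - 4 * v z - r ^ 2 * (Δ v) z = (2 * π)⁻¹ *
      ∫ θ in 0..2 * π, (v (circleMap z r (θ + 0)) + v (circleMap z r (θ + π / 2)) +
        v (circleMap z r (θ + π / 2 + π / 2)) + v (circleMap z r (θ + π / 2 + π / 2 + π / 2))
        - 4 * v z - r ^ 2 * (Δ v) z) := by
    have hconst : ∀ a : ℝ, (∫ _θ in (0:ℝ)..2 * π, a) = 2 * π * a := by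
      intro a; rw [intervalIntegral.integral_const]; simp
    have i0 := hci 0
    have i1 := hci (π / 2)
    have i2 : IntervalIntegrable (fun θ => v (circleMap z r (θ + π / 2 + π / 2))) volume
      0 (2 * π) := by
      have := hci (π / 2 + π / 2)
      simpa only [← add_assoc] using this
    have i3 : IntervalIntegrable (fun θ => v (circleMap z r (θ + π / 2 + π / 2 + π / 2))) volume
      0 (2 * π) := by
      have := hci (π / 2 + π / 2 + π / 2)
      simpa only [← add_assoc] using this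
    have ic : ∀ a : ℝ, IntervalIntegrable (fun _ : ℝ => a) volume 0 (2 * π) := fun a => by simp
    rw [intervalIntegral.integral_sub ((((i0.add i1).add i2).add i3).sub (ic _)) (ic _),
      intervalIntegral.integral_sub (((i0.add i1).add i2).add i3) (ic _),
      intervalIntegral.integral_add ((i0.add i1).add i2) i3,
      intervalIntegral.integral_add (i0.add i1) i2,
      intervalIntegral.integral_add i0 i1, hconst, hconst]
    have r0 := hrot 0
    have r1 := hrot (π / 2)
    have r2 := hrot (π / 2 + π / 2)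
    have r3 := hrot (π / 2 + π / 2 + π / 2)
    simp only [← add_assoc] at r2 r3
    have hp : (2 * π)⁻¹ * (2 * π) = 1 := inv_mul_cancel₀ (by positivity)
    linear_combination r0 + r1 + r2 + r3 + (4 * v z + r ^ 2 * (Δ v) z) * hp
  have hbound : |4 * circleAverage v z r - 4 * v z - r ^ 2 * (Δ v) z| ≤ ε * r ^ 2 := by
    rw [hsum, abs_mul, abs_of_pos (by positivity : (0:ℝ) < (2 * π)⁻¹)]
    have h5 : ∀ θ ∈ Set.uIoc (0:ℝ) (2 * π), ‖(v (circleMap z r (θ + 0)) +
        v (circleMap z r (θ + π / 2)) +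
        v (circleMap z r (θ + π / 2 + π / 2)) + v (circleMap z r (θ + π / 2 + π / 2 + π / 2))
        - 4 * v z - r ^ 2 * (Δ v) z)‖ ≤ ε * r ^ 2 := by
      intro θ _
      have h6 := h1 (circleMap z r θ - z) (by
        rw [circleMap_sub_center, norm_circleMap_zero, abs_of_pos hr]; exact hr1)
      have h7 : ‖circleMap z r θ - z‖ = r := by
        rw [circleMap_sub_center, norm_circleMap_zero, abs_of_pos hr]
      rw [h7] at h6
      simp only [Real.norm_eq_abs, add_zero, circleMap_add_quarter, add_sub_cancel_left]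
      simpa only [add_sub_cancel] using h6
    have h8 := intervalIntegral.norm_integral_le_of_norm_le_const h5
    rw [sub_zero, abs_of_pos (by positivity : (0:ℝ) < 2 * π), Real.norm_eq_abs] at h8
    calc (2 * π)⁻¹ * |∫ θ in 0..2 * π, _| ≤ (2 * π)⁻¹ * (ε * r ^ 2 * (2 * π)) := by gcongr
      _ = ε * r ^ 2 := by field_simp
  have h9 : circleAverage v z r - v z - r ^ 2 / 4 * (Δ v) z =
      (4 * circleAverage v z r - 4 * v z - r ^ 2 * (Δ v) z) / 4 := by ring
  rw [h9, abs_div, abs_of_pos (by norm_num : (0:ℝ) < 4)]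
  have : 0 ≤ ε * r ^ 2 := by positivity
  linarith

/-- A `C ^ 2` function with `o(r ^ 2)` mean value defect has Laplacian zero. -/
theorem laplacian_eq_zero_of_average {v : ℂ → ℝ} {z : ℂ} (hv : ContDiffAt ℝ 2 v z)
    (h : ∀ ε > 0, ∃ r0 > 0, ∀ r : ℝ, 0 < r → r < r0 →
      |circleAverage v z r - v z| ≤ ε * r ^ 2) : (Δ v) z = 0 := by
  by_contra hne
  have hpos : 0 < |(Δ v) z| := abs_pos.2 hne
  obtain ⟨δ, hδ, h1⟩ := circleAverage_expand hv (show 0 < |(Δ v) z| / 16 by positivity)
  obtain ⟨r0, hr0, h2⟩ := h (|(Δ v) z| / 16) (by positivity)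
  set r := min δ r0 / 2 with hr
  have hmin : 0 < min δ r0 := lt_min hδ hr0
  have hrpos : 0 < r := by positivity
  have h3 := h1 r hrpos (by
    have := min_le_left δ r0
    rw [hr]; linarith)
  have h4 := h2 r hrpos (by
    have := min_le_right δ r0
    rw [hr]; linarith)
  have h5 : |r ^ 2 / 4 * (Δ v) z| ≤ |(Δ v) z| / 16 * r ^ 2 + |(Δ v) z| / 16 * r ^ 2 := by
    have h6 : r ^ 2 / 4 * (Δ v) z = (circleAverage v z r - v z) -
      (circleAverage v z r - v z - r ^ 2 / 4 * (Δ v) z) := by ring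
    rw [h6]
    exact (abs_sub _ _).trans (add_le_add h4 h3)
  rw [abs_mul, abs_of_pos (by positivity : 0 < r ^ 2 / 4)] at h5
  have h7 : 0 < r ^ 2 * |(Δ v) z| := by positivity
  nlinarith

end Pool.Agent.SixB
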