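import Pool.Agent.Lib.SixB.AN1
import Pool.Agent.Lib.SixB.AN1b

/-! Analysis package for MP_6bd702, file AN1c.
* A continuous function with circle mean defect `o(r ^ 2)`, locally uniformly, is harmonic.
* Weyl's lemma for continuous functions. -/

open Filter Topology Metric Set Complex InnerProductSpace Real MeasureTheory Laplacian
open scoped Convolution ContDiff

namespace Pool.Agent.SixB

/-- Circle averages commute with convolutions. -/
theorem circleAverage_convolution {φ g : ℂ → ℝ} (hφ : Continuous φ) (hφc : HasCompactSupport φ)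
    (hg : Measurable g) {M : ℝ} (hM : ∀ z, |g z| ≤ M) (x : ℂ) (r : ℝ) :
    circleAverage (φ ⋆[ContinuousLinearMap.lsmul ℝ ℝ, volume] g) x r =
      ∫ t, φ t * circleAverage g (x - t) r := by
  have hφi : Integrable φ volume := hφ.integrable_of_hasCompactSupport hφc
  have hcm : ∀ t θ, circleMap (x - t) r θ = circleMap x r θ - t := by
    intro t θ; simp only [circleMap]; ring
  simp only [circleAverage_def, convolution_def, ContinuousLinearMap.lsmul_apply, smul_eq_mul, hcm]
  have h2 : (0:ℝ) ≤ 2 * π := by positivity
  rw [intervalIntegral.integral_of_le h2]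
  have hint : Integrable (Function.uncurry fun (θ : ℝ) (t : ℂ) => φ t * g (circleMap x r θ - t))
      ((volume.restrict (Ioc 0 (2 * π))).prod volume) := by
    have h3 : Integrable (fun p : ℝ × ℂ => |φ p.2| * M)
        ((volume.restrict (Ioc 0 (2 * π))).prod volume) :=
      (hφi.abs.mul_const M).comp_snd _
    refine h3.mono' ?_ ?_
    · refine Measurable.aestronglyMeasurable ?_
      exact (hφ.measurable.comp measurable_snd).mul (hg.comp (by fun_prop))
    · refine Eventually.of_forall fun p => ?_
      simp only [Function.uncurry, norm_mul, Real.norm_eq_abs]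
      exact mul_le_mul_of_nonneg_left (hM _) (abs_nonneg _)
  rw [integral_integral_swap hint, ← integral_const_mul]
  refine integral_congr_ae (Eventually.of_forall fun t => ?_)
  simp only
  rw [intervalIntegral.integral_of_le h2, integral_const_mul]
  ring

/-- Criterion: if all small mollifications are harmonic near `z0`, so is the function. -/
theorem harmonicAt_of_mollifier {u : ℂ → ℝ} {z0 : ℂ} {ρ : ℝ} (hρ : 0 < ρ)
    (hu : ContinuousOn u (closedBall z0 (3 * ρ)))
    (hΔ : ∀ φ : ContDiffBump (0:ℂ), φ.rOut < ρ → ∀ x ∈ ball z0 ρ,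
      (Δ (φ.normed volume ⋆[ContinuousLinearMap.lsmul ℝ ℝ, volume]
        (closedBall z0 (3 * ρ)).indicator u)) x = 0) : HarmonicAt u z0 := by
  set K := closedBall z0 (3 * ρ) with hK
  have hKm : MeasurableSet K := isClosed_closedBall.measurableSet
  set g := K.indicator u with hg
  have hgi : Integrable g volume := by
    rw [hg, integrable_indicator_iff hKm]
    exact hu.integrableOn_compact (isCompact_closedBall _ _)
  set φ : ℕ → ContDiffBump (0:ℂ) := fun n =>
    { rIn := ρ / (2 * (n + 2)), rOut := ρ / (n + 2), rIn_pos := by positivity,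
      rIn_lt_rOut := by
        have : (0:ℝ) < n + 2 := by positivity
        exact div_lt_div_of_pos_left hρ this (by linarith) } with hφ
  have hrOut : ∀ n, (φ n).rOut = ρ / (n + 2) := fun n => rfl
  have hrlt : ∀ n, (φ n).rOut < ρ := by
    intro n
    rw [hrOut, div_lt_iff₀ (by positivity)]
    nlinarith [(Nat.cast_nonneg n : (0:ℝ) ≤ n)]
  set v : ℕ → ℂ → ℝ := fun n =>
    (φ n).normed volume ⋆[ContinuousLinearMap.lsmul ℝ ℝ, volume] g with hv
  have hsm : ∀ n, ContDiff ℝ 2 (v n) := by
    intro n
    have : ContDiff ℝ ((2 : ℕ∞) : WithTop ℕ∞) (v n) :=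
      (φ n).hasCompactSupport_normed.contDiff_convolution_left _ (φ n).contDiff_normed
        hgi.locallyIntegrable
    exact this
  have hharm : ∀ n, HarmonicOnNhd (v n) (ball z0 ρ) := by
    intro n x hx
    refine ⟨(hsm n).contDiffAt, ?_⟩
    filter_upwards [isOpen_ball.mem_nhds hx] with y hy
    exact hΔ (φ n) (hrlt n) y hy
  have hlim : TendstoUniformlyOn v u atTop (ball z0 ρ) := by
    rw [Metric.tendstoUniformlyOn_iff]
    intro ε hε
    have huc : UniformContinuousOn u K :=
      (isCompact_closedBall _ _).uniformContinuousOn_of_continuous hu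
    rw [Metric.uniformContinuousOn_iff] at huc
    obtain ⟨δ, hδ, h1⟩ := huc (ε / 2) (by positivity)
    have h2 : Tendsto (fun n : ℕ => ρ / ((n : ℝ) + 2)) atTop (𝓝 0) := by
      refine Tendsto.div_atTop tendsto_const_nhds ?_
      exact tendsto_atTop_add_const_right _ _ tendsto_natCast_atTop_atTop
    have h3 : ∀ᶠ n : ℕ in atTop, ρ / ((n : ℝ) + 2) < δ := h2.eventually (gt_mem_nhds hδ)
    filter_upwards [h3] with n hn x hx
    have hxK : x ∈ K := by
      rw [mem_ball] at hx
      rw [hK, mem_closedBall]; linarith
    have h4 : dist (v n x) (g x) ≤ ε / 2 := by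
      refine (φ n).dist_normed_convolution_le hgi.aestronglyMeasurable ?_
      intro y hy
      rw [mem_ball, hrOut] at hy
      have hyK : y ∈ K := by
        rw [hK, mem_closedBall]
        rw [mem_ball] at hx
        have h5 := dist_triangle y x z0
        have h6 := hrlt n
        rw [hrOut] at h6
        linarith
      rw [hg, indicator_of_mem hyK, indicator_of_mem hxK]
      exact (h1 y hyK x hxK (hy.trans hn)).le
    rw [hg, indicator_of_mem hxK] at h4
    rw [dist_comm]
    linarith
  exact harmonicOnNhd_of_tendstoLocallyUniformlyOn isOpen_ball (Eventually.of_forall hharm)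
    hlim.tendstoLocallyUniformlyOn z0 (mem_ball_self hρ)

/-- **Blaschke's criterion** in a strong form: a continuous function whose circle mean defect is
`o(r ^ 2)`, locally uniformly, is harmonic. -/
theorem harmonicOnNhd_of_average {U : Set ℂ} (hU : IsOpen U) {u : ℂ → ℝ} (hu : ContinuousOn u U)
    (h : ∀ z0 ∈ U, ∃ ρ > 0, ∀ ε > 0, ∃ r0 > 0, ∀ z ∈ ball z0 ρ, ∀ r : ℝ, 0 < r → r < r0 →
      |circleAverage u z r - u z| ≤ ε * r ^ 2) : HarmonicOnNhd u U := by
  intro z0 hz0
  obtain ⟨R, hR, hRU⟩ := Metric.nhds_basis_closedBall.mem_iff.1 (hU.mem_nhds hz0)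
  obtain ⟨ρ1, hρ1, h1⟩ := h z0 hz0
  set ρ := min (R / 3) (ρ1 / 2) with hρ
  have hρpos : 0 < ρ := lt_min (by positivity) (by positivity)
  have hρR : 3 * ρ ≤ R := by
    have := min_le_left (R / 3) (ρ1 / 2)
    linarith
  have hρρ : 2 * ρ ≤ ρ1 := by
    have := min_le_right (R / 3) (ρ1 / 2)
    linarith
  set K := closedBall z0 (3 * ρ) with hK
  have hKU : K ⊆ U := (closedBall_subset_closedBall hρR).trans hRU
  have huK : ContinuousOn u K := hu.mono hKU
  have hKm : MeasurableSet K := isClosed_closedBall.measurableSet
  refine harmonicAt_of_mollifier hρpos huK ?_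
  intro φ hφ x hx
  set g := K.indicator u with hg
  have hgm : Measurable g := by
    classical
    have h2 : Measurable (K.piecewise u 0) :=
      huK.measurable_piecewise continuousOn_const hKm
    rw [hg, ← Set.piecewise_eq_indicator]
    exact h2
  obtain ⟨M, hM⟩ := (isCompact_closedBall z0 (3 * ρ)).exists_bound_of_continuousOn huK
  have hM0 : 0 ≤ M := (norm_nonneg _).trans (hM z0 (mem_closedBall_self (by positivity)))
  have hgM : ∀ z, |g z| ≤ M := by
    intro z
    by_cases hz : z ∈ K
    · rw [hg, indicator_of_mem hz]; exact hM z hz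
    · rw [hg, indicator_of_notMem hz, abs_zero]; exact hM0
  have hgi : Integrable g volume := by
    rw [hg, integrable_indicator_iff hKm]
    exact huK.integrableOn_compact (isCompact_closedBall _ _)
  have hsm : ContDiff ℝ 2 (φ.normed volume ⋆[ContinuousLinearMap.lsmul ℝ ℝ, volume] g) := by
    have : ContDiff ℝ ((2 : ℕ∞) : WithTop ℕ∞)
        (φ.normed volume ⋆[ContinuousLinearMap.lsmul ℝ ℝ, volume] g) :=
      φ.hasCompactSupport_normed.contDiff_convolution_left _ φ.contDiff_normed
        hgi.locallyIntegrable
    exact this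
  refine laplacian_eq_zero_of_average hsm.contDiffAt ?_
  intro ε hε
  obtain ⟨r0, hr0, h2⟩ := h1 ε hε
  refine ⟨min r0 ρ, lt_min hr0 hρpos, fun r hr hrr => ?_⟩
  have hrr0 : r < r0 := lt_of_lt_of_le hrr (min_le_left _ _)
  have hrρ : r < ρ := lt_of_lt_of_le hrr (min_le_right _ _)
  rw [circleAverage_convolution φ.continuous_normed φ.hasCompactSupport_normed hgm hgM]
  have hconv : (φ.normed volume ⋆[ContinuousLinearMap.lsmul ℝ ℝ, volume] g) x =
      ∫ t, φ.normed volume t * g (x - t) := by
    simp only [convolution_def, ContinuousLinearMap.lsmul_apply, smul_eq_mul]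
  rw [hconv]
  have hφi : Integrable (φ.normed volume) volume :=
    φ.continuous_normed.integrable_of_hasCompactSupport φ.hasCompactSupport_normed
  have hca : ∀ z, |circleAverage g z r| ≤ M := by
    intro z
    refine (abs_circleAverage_le_circleAverage_abs).trans ?_
    by_cases hci : CircleIntegrable g z r
    · refine circleAverage_mono_on_of_le_circle hci.abs ?_
      intro y _
      exact hgM y
    · by_cases hci' : CircleIntegrable (|g|) z r
      · refine circleAverage_mono_on_of_le_circle hci' ?_
        intro y _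
        exact hgM y
      · rw [circleAverage.integral_undef hci']; exact hM0
  have hi1 : Integrable (fun t => φ.normed volume t * g (x - t)) volume := by
    refine (hφi.abs.mul_const M).mono' ?_ ?_
    · exact (φ.continuous_normed.measurable.mul (hgm.comp (by fun_prop))).aestronglyMeasurable
    · refine Eventually.of_forall fun p => ?_
      simp only [norm_mul, Real.norm_eq_abs]
      exact mul_le_mul_of_nonneg_left (hgM _) (abs_nonneg _)
  have hcam : Measurable (fun t => circleAverage g (x - t) r) := by
    have hcm : ∀ t θ, circleMap (x - t) r θ = circleMap x r θ - t := by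
      intro t θ; simp only [circleMap]; ring
    simp only [circleAverage_def, hcm, smul_eq_mul]
    refine Measurable.const_mul ?_ _
    have h2 : (0:ℝ) ≤ 2 * π := by positivity
    simp only [intervalIntegral.integral_of_le h2]
    have h3 : StronglyMeasurable (Function.uncurry fun (t : ℂ) (θ : ℝ) => g (circleMap x r θ - t)) :=
      (hgm.comp (by fun_prop)).stronglyMeasurable
    exact (h3.integral_prod_right (ν := volume.restrict (Ioc 0 (2 * π)))).measurable
  have hi2 : Integrable (fun t => φ.normed volume t * circleAverage g (x - t) r) volume := by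
    refine (hφi.abs.mul_const M).mono' ?_ ?_
    · exact (φ.continuous_normed.measurable.mul hcam).aestronglyMeasurable
    · refine Eventually.of_forall fun p => ?_
      simp only [norm_mul, Real.norm_eq_abs]
      exact mul_le_mul_of_nonneg_left (hca _) (abs_nonneg _)
  rw [← integral_sub hi2 hi1]
  have hbd : ∀ t, ‖φ.normed volume t * circleAverage g (x - t) r - φ.normed volume t * g (x - t)‖ ≤
      φ.normed volume t * (ε * r ^ 2) := by
    intro t
    by_cases ht : t ∈ ball (0:ℂ) φ.rOut
    · rw [mem_ball, dist_zero_right] at ht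
      rw [mem_ball] at hx
      have hxt : dist (x - t) z0 < 2 * ρ := by
        have h5 := dist_triangle (x - t) x z0
        have h6 : dist (x - t) x = ‖t‖ := by
          rw [dist_eq_norm, sub_sub_cancel_left, norm_neg]
        rw [h6] at h5
        linarith
      have hsph : ∀ y ∈ sphere (x - t) |r|, y ∈ K := by
        intro y hy
        rw [mem_sphere, abs_of_pos hr] at hy
        rw [hK, mem_closedBall]
        have := dist_triangle y (x - t) z0
        linarith
      have hcg : circleAverage g (x - t) r = circleAverage u (x - t) r := by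
        refine circleAverage_congr_sphere ?_
        intro y hy
        rw [hg, indicator_of_mem (hsph y hy)]
      have hgx : g (x - t) = u (x - t) := by
        rw [hg, indicator_of_mem]
        rw [hK, mem_closedBall]; linarith
      rw [hcg, hgx, ← mul_sub, norm_mul, Real.norm_eq_abs, Real.norm_eq_abs,
        abs_of_nonneg (φ.nonneg_normed t)]
      refine mul_le_mul_of_nonneg_left ?_ (φ.nonneg_normed t)
      refine h2 (x - t) ?_ r hr hrr0
      rw [mem_ball]; linarith
    · have h0 : φ.normed volume t = 0 := by
        by_contra hne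
        have : t ∈ Function.support (φ.normed volume) := hne
        rw [φ.support_normed_eq] at this
        exact ht this
      rw [h0]; simp
  calc |∫ t, (φ.normed volume t * circleAverage g (x - t) r - φ.normed volume t * g (x - t))|
      ≤ ∫ t, φ.normed volume t * (ε * r ^ 2) :=
        norm_integral_le_of_norm_le (hφi.mul_const _) (Eventually.of_forall hbd)
    _ = ε * r ^ 2 := by rw [integral_mul_const, φ.integral_normed, one_mul]

/-- The version with a power. -/
theorem harmonicOnNhd_of_average_pow {U : Set ℂ} (hU : IsOpen U) {u : ℂ → ℝ}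
    (hu : ContinuousOn u U)
    (h : ∀ z0 ∈ U, ∃ ρ > 0, ∃ r0 > 0, ∃ C c : ℝ, 0 < c ∧ ∀ z ∈ ball z0 ρ, ∀ r : ℝ, 0 < r → r < r0 →
      |circleAverage u z r - u z| ≤ C * r ^ (2 + c)) : HarmonicOnNhd u U := by
  refine harmonicOnNhd_of_average hU hu fun z0 hz0 => ?_
  obtain ⟨ρ, hρ, r0, hr0, C, c, hc, h1⟩ := h z0 hz0
  refine ⟨ρ, hρ, fun ε hε => ?_⟩
  have h2 : Tendsto (fun r : ℝ => |C| * r ^ c) (𝓝[>] 0) (𝓝 0) := by
    have h3 : Tendsto (fun r : ℝ => r ^ c) (𝓝[>] 0) (𝓝 0) := by
      have := (Real.continuousAt_rpow_const 0 c (Or.inr hc.le)).tendsto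
      rw [Real.zero_rpow hc.ne'] at this
      exact this.mono_left nhdsWithin_le_nhds
    simpa using h3.const_mul |C|
  have h4 := (h2.eventually (gt_mem_nhds hε))
  rw [eventually_nhdsWithin_iff, Metric.eventually_nhds_iff] at h4
  obtain ⟨δ, hδ, h5⟩ := h4
  refine ⟨min r0 δ, lt_min hr0 hδ, fun z hz r hr hrr => ?_⟩
  have h6 := h1 z hz r hr (lt_of_lt_of_le hrr (min_le_left _ _))
  have h7 := h5 (y := r) (by
    rw [Real.dist_eq, sub_zero, abs_of_pos hr]
    exact lt_of_lt_of_le hrr (min_le_right _ _)) hr
  have h8 : r ^ (2 + c) = r ^ 2 * r ^ c := by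
    rw [Real.rpow_add hr]; norm_num
  calc |circleAverage u z r - u z| ≤ C * r ^ (2 + c) := h6
    _ ≤ |C| * (r ^ 2 * r ^ c) := by
      rw [h8]
      exact mul_le_mul_of_nonneg_right (le_abs_self C) (by positivity)
    _ = (|C| * r ^ c) * r ^ 2 := by ring
    _ ≤ ε * r ^ 2 := by gcongr

end Pool.Agent.SixB
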