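import Pool.Agent.Lib.SixB.AN1c

/-! Analysis package for MP_6bd702, file AN1d: Weyl's lemma for continuous functions. -/

open Filter Topology Metric Set Complex InnerProductSpace Real MeasureTheory Laplacian
open scoped Convolution ContDiff

namespace Pool.Agent.SixB

/-- Directional derivative of a convolution. -/
theorem fderiv_convolution_apply {f g : ℂ → ℝ} (hf : ContDiff ℝ 1 f) (hfc : HasCompactSupport f)
    (hg : LocallyIntegrable g volume) (a x : ℂ) :
    fderiv ℝ (f ⋆[ContinuousLinearMap.lsmul ℝ ℝ, volume] g) x a =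
      ((fun y => fderiv ℝ f y a) ⋆[ContinuousLinearMap.lsmul ℝ ℝ, volume] g) x := by
  have h1 := hfc.hasFDerivAt_convolution_left (ContinuousLinearMap.lsmul ℝ ℝ) hf hg x
  rw [h1.fderiv]
  have hfc' : HasCompactSupport (fderiv ℝ f) := hfc.fderiv ℝ
  have hfcont : Continuous (fderiv ℝ f) := hf.continuous_fderiv (by norm_num)
  have h2 : ConvolutionExistsAt (fderiv ℝ f) g x
      ((ContinuousLinearMap.lsmul ℝ ℝ).precompL ℂ) volume :=
    (hfc'.convolutionExists_left _ hfcont hg) x
  rw [convolution_def, convolution_def, ContinuousLinearMap.integral_apply h2]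
  rfl

theorem two_le_infty : (2 : WithTop ℕ∞) ≤ ∞ :=
  ENat.LEInfty.out

theorem contDiff_dir {f : ℂ → ℝ} (hf : ContDiff ℝ ∞ f) (a : ℂ) :
    ContDiff ℝ ∞ (fun y => fderiv ℝ f y a) := by
  have : ContDiff ℝ ∞ (fderiv ℝ f) := hf.fderiv_right (by simp)
  exact this.clm_apply contDiff_const

theorem hasCompactSupport_dir {f : ℂ → ℝ} (hfc : HasCompactSupport f) (a : ℂ) :
    HasCompactSupport (fun y => fderiv ℝ f y a) :=
  hfc.fderiv_apply ℝ a

theorem laplacian_eq_dir {f : ℂ → ℝ} {x : ℂ} (hf : ContDiffAt ℝ 2 f x) :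
    (Δ f) x = fderiv ℝ (fun y => fderiv ℝ f y 1) x 1 + fderiv ℝ (fun y => fderiv ℝ f y I) x I := by
  have hd : DifferentiableAt ℝ (fderiv ℝ f) x :=
    (hf.fderiv_right (m := 1) (by norm_num)).differentiableAt (by norm_num)
  have h1 : ∀ a : ℂ, fderiv ℝ (fun y => fderiv ℝ f y a) x a = fderiv ℝ (fderiv ℝ f) x a a := by
    intro a
    rw [fderiv_clm_apply hd (by fun_prop)]
    simp
  rw [h1, h1, laplacian_eq_iteratedFDeriv_complexPlane]
  simp [iteratedFDeriv_two_apply]

/-- Laplacian of a convolution. -/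
theorem laplacian_convolution {f g : ℂ → ℝ} (hf : ContDiff ℝ ∞ f) (hfc : HasCompactSupport f)
    (hg : LocallyIntegrable g volume) (x : ℂ) :
    (Δ (f ⋆[ContinuousLinearMap.lsmul ℝ ℝ, volume] g)) x =
      ((Δ f) ⋆[ContinuousLinearMap.lsmul ℝ ℝ, volume] g) x := by
  have hsm : ContDiff ℝ 2 (f ⋆[ContinuousLinearMap.lsmul ℝ ℝ, volume] g) := by
    have : ContDiff ℝ ((2 : ℕ∞) : WithTop ℕ∞) (f ⋆[ContinuousLinearMap.lsmul ℝ ℝ, volume] g) :=
      hfc.contDiff_convolution_left _ (hf.of_le (by exact_mod_cast le_top)) hg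
    exact this
  have hf1 : ContDiff ℝ 1 f := hf.of_le (by exact_mod_cast le_top)
  have hdd : ∀ a : ℂ, fderiv ℝ (fun y => fderiv ℝ
      (f ⋆[ContinuousLinearMap.lsmul ℝ ℝ, volume] g) y a) x a =
      ((fun y => fderiv ℝ (fun z => fderiv ℝ f z a) y a) ⋆[ContinuousLinearMap.lsmul ℝ ℝ, volume] g)
        x := by
    intro a
    have h1 : (fun y => fderiv ℝ (f ⋆[ContinuousLinearMap.lsmul ℝ ℝ, volume] g) y a) =
        ((fun y => fderiv ℝ f y a) ⋆[ContinuousLinearMap.lsmul ℝ ℝ, volume] g) := by
      funext y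
      exact fderiv_convolution_apply hf1 hfc hg a y
    rw [h1]
    exact fderiv_convolution_apply ((contDiff_dir hf a).of_le (by exact_mod_cast le_top))
      (hasCompactSupport_dir hfc a) hg a x
  rw [laplacian_eq_dir hsm.contDiffAt, hdd, hdd]
  have hex : ∀ a : ℂ, ConvolutionExistsAt (fun y => fderiv ℝ (fun z => fderiv ℝ f z a) y a) g x
      (ContinuousLinearMap.lsmul ℝ ℝ) volume := by
    intro a
    exact ((hasCompactSupport_dir (hasCompactSupport_dir hfc a) a).convolutionExists_left _
      (contDiff_dir (contDiff_dir hf a) a).continuous hg) x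
  rw [← ConvolutionExistsAt.add_distrib]
  · simp only [convolution_def, ContinuousLinearMap.lsmul_apply, smul_eq_mul, Pi.add_apply]
    refine integral_congr_ae (Eventually.of_forall fun t => ?_)
    simp only
    rw [laplacian_eq_dir (hf.contDiffAt.of_le two_le_infty)]
  · exact hex 1
  · exact hex I

/-- **Weyl's lemma** for continuous functions. -/
theorem harmonicOnNhd_of_weyl {U : Set ℂ} (hU : IsOpen U) {u : ℂ → ℝ} (hu : ContinuousOn u U)
    (h : ∀ χ : ℂ → ℝ, ContDiff ℝ ∞ χ → HasCompactSupport χ → tsupport χ ⊆ U →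
      ∫ y, u y * (Δ χ) y = 0) : HarmonicOnNhd u U := by
  intro z0 hz0
  obtain ⟨R, hR, hRU⟩ := Metric.nhds_basis_closedBall.mem_iff.1 (hU.mem_nhds hz0)
  set ρ := R / 3 with hρ
  have hρpos : 0 < ρ := by positivity
  have hρR : 3 * ρ = R := by rw [hρ]; ring
  have hKU : closedBall z0 (3 * ρ) ⊆ U := by rw [hρR]; exact hRU
  refine harmonicAt_of_mollifier hρpos (hu.mono hKU) ?_
  intro φ hφ x hx
  have hgi : Integrable ((closedBall z0 (3 * ρ)).indicator u) volume := by
    rw [integrable_indicator_iff isClosed_closedBall.measurableSet]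
    exact (hu.mono hKU).integrableOn_compact (isCompact_closedBall _ _)
  rw [laplacian_convolution φ.contDiff_normed φ.hasCompactSupport_normed hgi.locallyIntegrable,
    ← convolution_flip, convolution_def]
  -- the test function
  set χ : ℂ → ℝ := fun y => φ.normed volume (x - y) with hχ
  have hχs : ContDiff ℝ ∞ χ := φ.contDiff_normed.comp (contDiff_const.sub contDiff_id)
  have hts : tsupport χ ⊆ closedBall x φ.rOut := by
    refine closure_minimal ?_ isClosed_closedBall
    intro y hy
    have h1 : φ.normed volume (x - y) ≠ 0 := hy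
    have h2 : x - y ∈ Function.support (φ.normed volume) := h1
    rw [φ.support_normed_eq, mem_ball, dist_zero_right, ← dist_eq_norm, dist_comm] at h2
    exact mem_closedBall.2 h2.le
  have hχc : HasCompactSupport χ :=
    HasCompactSupport.of_support_subset_isCompact (isCompact_closedBall x φ.rOut)
      ((subset_tsupport χ).trans hts)
  have hballK : closedBall x φ.rOut ⊆ closedBall z0 (3 * ρ) := by
    intro y hy
    rw [mem_closedBall] at hy ⊢
    rw [mem_ball] at hx
    have := dist_triangle y x z0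
    linarith
  have h0 := h χ hχs hχc ((hts.trans hballK).trans hKU)
  have hlap : ∀ y, (Δ χ) y = (Δ (φ.normed volume)) (x - y) := by
    intro y
    have hdir : ∀ (f : ℂ → ℝ) (a : ℂ), ContDiff ℝ ∞ f → ∀ y,
        fderiv ℝ (fun y => f (x - y)) y a = - fderiv ℝ f (x - y) a := by
      intro f a hf y
      have hfd : HasFDerivAt f (fderiv ℝ f (x - y)) (x - y) :=
        (hf.differentiable (by simp)).differentiableAt.hasFDerivAt
      have h3 : HasFDerivAt (fun y : ℂ => x - y) (-(ContinuousLinearMap.id ℝ ℂ)) y :=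
        (hasFDerivAt_id y).const_sub x
      have h4 := hfd.comp y h3
      rw [show (fun y => f (x - y)) = f ∘ (fun y => x - y) from rfl, h4.fderiv]
      simp
    have hφs : ContDiff ℝ ∞ (φ.normed volume) := φ.contDiff_normed
    rw [laplacian_eq_dir (hχs.contDiffAt.of_le two_le_infty),
      laplacian_eq_dir (hφs.contDiffAt.of_le two_le_infty)]
    have h5 : ∀ a : ℂ, fderiv ℝ (fun y => fderiv ℝ χ y a) y a =
        fderiv ℝ (fun y => fderiv ℝ (φ.normed volume) y a) (x - y) a := by
      intro a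
      have h6 : (fun y => fderiv ℝ χ y a) =
          fun y => (fun w => - fderiv ℝ (φ.normed volume) w a) (x - y) := by
        funext y
        exact hdir _ a hφs y
      rw [h6, hdir _ a (contDiff_dir hφs a).neg y]
      rw [show (fun w => - fderiv ℝ (φ.normed volume) w a) =
        -(fun w => fderiv ℝ (φ.normed volume) w a) from rfl, fderiv_neg]
      simp
    rw [h5, h5]
  rw [← h0]
  refine integral_congr_ae (Eventually.of_forall fun y => ?_)
  simp only [ContinuousLinearMap.flip_apply, ContinuousLinearMap.lsmul_apply, smul_eq_mul]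
  rw [← hlap y]
  by_cases hy : y ∈ closedBall z0 (3 * ρ)
  · rw [indicator_of_mem hy, mul_comm]
  · rw [indicator_of_notMem hy]
    have h7 : (Δ χ) y = 0 := by
      have hy' : y ∉ tsupport χ := fun hh => hy (hballK (hts hh))
      have h8 : χ =ᶠ[𝓝 y] 0 := notMem_tsupport_iff_eventuallyEq.1 hy'
      rw [laplacian_congr_nhds h8 |>.eq_of_nhds, laplacian_eq_iteratedFDeriv_complexPlane]
      simp
    rw [h7]; simp

end Pool.Agent.SixB
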