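import Mathlib

/-!
# SixB, AN3: the maximum principle with a Neumann condition on straight walls

Everything is stated for functions `ℂ → ℝ`.
-/

set_option autoImplicit false

open Set Filter Topology Metric Complex InnerProductSpace Asymptotics

namespace Pool.Agent.SixB.AN3

/-- Weak Neumann condition at `z` in the direction `ν`. -/
def Neu (u : ℂ → ℝ) (z ν : ℂ) : Prop :=
  ∀ κ > (0 : ℝ), ∀ᶠ t : ℝ in 𝓝[>] 0, |u (z + t * ν) - u z| ≤ κ * t

theorem Neu.neg {u : ℂ → ℝ} {z ν : ℂ} (h : Neu u z ν) : Neu (fun x => -u x) z ν := by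
  intro κ hκ
  filter_upwards [h κ hκ] with t ht
  have : -u (z + t * ν) - -u z = -(u (z + t * ν) - u z) := by ring
  rw [this, abs_neg]
  exact ht

theorem Neu.add {u v : ℂ → ℝ} {z ν : ℂ} (hu : Neu u z ν) (hv : Neu v z ν) :
    Neu (fun x => u x + v x) z ν := by
  intro κ hκ
  filter_upwards [hu (κ / 2) (half_pos hκ), hv (κ / 2) (half_pos hκ)] with t h1 h2
  have : u (z + t * ν) + v (z + t * ν) - (u z + v z) =
      (u (z + t * ν) - u z) + (v (z + t * ν) - v z) := by ring
  rw [this]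
  refine (abs_add_le _ _).trans ?_
  linarith

theorem Neu.sub {u v : ℂ → ℝ} {z ν : ℂ} (hu : Neu u z ν) (hv : Neu v z ν) :
    Neu (fun x => u x - v x) z ν := by
  have := hu.add hv.neg
  simpa [sub_eq_add_neg] using this

theorem Neu.const_mul {u : ℂ → ℝ} {z ν : ℂ} (hu : Neu u z ν) (c : ℝ) :
    Neu (fun x => c * u x) z ν := by
  intro κ hκ
  filter_upwards [hu (κ / (|c| + 1)) (by positivity), self_mem_nhdsWithin] with t h1 ht
  have ht' : (0 : ℝ) < t := ht
  have : c * u (z + t * ν) - c * u z = c * (u (z + t * ν) - u z) := by ring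
  rw [this, abs_mul]
  calc |c| * |u (z + t * ν) - u z| ≤ |c| * (κ / (|c| + 1) * t) := by gcongr
    _ = (|c| / (|c| + 1)) * (κ * t) := by ring
    _ ≤ 1 * (κ * t) := by
        gcongr
        rw [div_le_one (by positivity)]
        linarith
    _ = κ * t := one_mul _

/-! ## Interior maxima -/

/-- A harmonic function plus a positive multiple of the square of the norm has no local
maximum. -/
theorem no_local_max {w : ℂ → ℝ} {z : ℂ} (hw : HarmonicAt w z) {η : ℝ} (hη : 0 < η) :
    ¬ IsLocalMax (fun x => w x + η * ‖x‖ ^ 2) z := by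
  intro hmax
  obtain ⟨r, hr, hball⟩ := Metric.nhds_basis_closedBall.eventually_iff.1
    ((hw.eventually).and hmax)
  -- the auxiliary harmonic function
  set h : ℂ → ℝ := fun x => w x + (2 * η * (starRingEnd ℂ z) * (x - z)).re with hh
  have hharm : HarmonicOnNhd h (closedBall z |r|) := by
    intro x hx
    rw [abs_of_pos hr] at hx
    have h1 : HarmonicAt w x := (hball hx).1
    have h2 : HarmonicAt (fun x : ℂ => (2 * η * (starRingEnd ℂ z) * (x - z)).re) x := by
      apply AnalyticAt.harmonicAt_re (f := fun x : ℂ => 2 * η * (starRingEnd ℂ z) * (x - z))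
      fun_prop
    exact h1.add h2
  have havg := hharm.circleAverage_eq
  have hle : Real.circleAverage h z r ≤ w z - η * r ^ 2 := by
    apply Real.circleAverage_mono_on_of_le_circle
    · exact (hharm.continuousOn.mono sphere_subset_closedBall).circleIntegrable'
    · intro x hx
      have hx' : x ∈ closedBall z r := by
        rw [abs_of_pos hr] at hx
        exact sphere_subset_closedBall hx
      have h1 := (hball hx').2
      simp only at h1
      have h2 : ‖x - z‖ = r := by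
        rw [abs_of_pos hr, mem_sphere, dist_eq_norm] at hx
        exact hx
      have h3 : ‖x‖ ^ 2 = ‖z‖ ^ 2 + r ^ 2 + 2 * ((starRingEnd ℂ z) * (x - z)).re := by
        rw [← h2, ← Complex.normSq_eq_norm_sq, ← Complex.normSq_eq_norm_sq,
          ← Complex.normSq_eq_norm_sq]
        simp only [Complex.normSq_apply, Complex.mul_re, Complex.conj_re, Complex.conj_im,
          Complex.sub_re, Complex.sub_im]
        ring
      have h4 : (2 * η * (starRingEnd ℂ z) * (x - z)).re =
          2 * η * ((starRingEnd ℂ z) * (x - z)).re := by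
        have : (2 * η * (starRingEnd ℂ z) * (x - z) : ℂ) =
            ((2 * η : ℝ) : ℂ) * ((starRingEnd ℂ z) * (x - z)) := by
          push_cast
          ring
        rw [this, Complex.re_ofReal_mul]
      rw [hh]
      simp only
      rw [h4]
      rw [h3] at h1
      nlinarith
  have hz : h z = w z := by simp [hh]
  rw [havg, hz] at hle
  have : 0 < η * r ^ 2 := by positivity
  linarith

/-- Local maxima of harmonic functions: the function is locally constant. -/
theorem eventually_eq_of_local_max {u : ℂ → ℝ} {z : ℂ} (hu : HarmonicAt u z)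
    (hmax : IsLocalMax u z) : ∀ᶠ x in 𝓝 z, u x = u z := by
  obtain ⟨r, hr, hball⟩ := Metric.nhds_basis_ball.eventually_iff.1 hu.eventually
  obtain ⟨F, hF, hre⟩ := HarmonicOnNhd.exists_analyticOnNhd_ball_re_eq
    (f := u) (z := z) (R := r) (fun x hx => hball hx)
  have hzb : z ∈ ball z r := mem_ball_self hr
  have hd : ∀ᶠ x in 𝓝 z, DifferentiableAt ℂ (fun x => Complex.exp (F x)) x := by
    filter_upwards [ball_mem_nhds z hr] with x hx
    exact (hF x hx).differentiableAt.cexp
  have hn : ∀ x ∈ ball z r, ‖Complex.exp (F x)‖ = Real.exp (u x) := by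
    intro x hx
    rw [Complex.norm_exp]
    congr 1
    exact hre hx
  have hm : IsLocalMax (norm ∘ fun x => Complex.exp (F x)) z := by
    filter_upwards [hmax, ball_mem_nhds z hr] with x hx hxb
    simp only [Function.comp_apply]
    rw [hn x hxb, hn z hzb]
    exact Real.exp_le_exp.2 hx
  filter_upwards [Complex.norm_eventually_eq_of_isLocalMax hd hm, ball_mem_nhds z hr] with x hx hxb
  rw [hn x hxb, hn z hzb] at hx
  exact Real.exp_injective hx

/-- Strong maximum principle. -/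
theorem eqOn_of_max {u : ℂ → ℝ} {U : Set ℂ} (hU : IsOpen U) (hc : IsPreconnected U)
    (hu : HarmonicOnNhd u U) {z : ℂ} (hz : z ∈ U) (hmax : ∀ x ∈ U, u x ≤ u z) :
    ∀ x ∈ U, u x = u z := by
  set S : Set ℂ := {x | ∀ᶠ y in 𝓝 x, u y = u z} with hS
  have hSo : IsOpen S := by
    rw [isOpen_iff_mem_nhds]
    intro x hx
    exact (eventually_eventually_nhds.2 hx)
  have key : ∀ x ∈ U, u x = u z → x ∈ S := by
    intro x hx hxz
    have hl : IsLocalMax u x := by
      filter_upwards [hU.mem_nhds hx] with y hy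
      rw [hxz]
      exact hmax y hy
    have := eventually_eq_of_local_max (hu x hx) hl
    rw [hS]
    simpa [hxz] using this
  have hsub : U ⊆ S := by
    refine hc.subset_of_closure_inter_subset hSo ⟨z, hz, key z hz rfl⟩ ?_
    rintro x ⟨hxc, hxU⟩
    refine key x hxU ?_
    have hcont : ContinuousAt u x := (hu x hxU).1.continuousAt
    -- `u = u z` at points of `S` close to `x`
    by_contra hne
    have : ∀ᶠ y in 𝓝 x, u y ≠ u z := hcont.eventually_ne hne
    rw [mem_closure_iff_nhds] at hxc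
    obtain ⟨y, hy1, hy2⟩ := hxc _ this
    exact hy1 hy2.self_of_nhds
  intro x hx
  exact (hsub hx).self_of_nhds

/-! ## The weak maximum principle with walls -/

/-- Weak maximum principle: on the part `A` of the frontier the function is at most `m`, on the
rest it satisfies a one sided Neumann condition in directions which have a positive inner product
with `v`. -/
theorem wall_max {U A : Set ℂ} (hU : IsOpen U) (hb : Bornology.IsBounded U) {w : ℂ → ℝ}
    (hc : ContinuousOn w (closure U)) (hh : HarmonicOnNhd w U) {v : ℂ} {κ₀ m : ℝ} (hκ₀ : 0 < κ₀)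
    (hA : ∀ z ∈ frontier U, z ∈ A → w z ≤ m)
    (hN : ∀ z ∈ frontier U, z ∉ A → ∃ ν : ℂ, ‖ν‖ ≤ 1 ∧ κ₀ ≤ ((starRingEnd ℂ v) * ν).re ∧
      (∀ᶠ t : ℝ in 𝓝[>] 0, z + t * ν ∈ closure U) ∧
      ∀ κ > (0 : ℝ), ∀ᶠ t : ℝ in 𝓝[>] 0, w z - κ * t ≤ w (z + t * ν)) :
    ∀ z ∈ closure U, w z ≤ m := by
  intro z₀ hz₀
  by_contra hcon
  push Not at hcon
  have hK : IsCompact (closure U) := hb.isCompact_closure
  obtain ⟨R, hR⟩ := hK.isBounded.exists_norm_le
  have hR0 : 0 ≤ R := (norm_nonneg _).trans (hR z₀ hz₀)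
  set η : ℝ := κ₀ / (8 * (R + 1)) with hη
  have hη0 : 0 < η := by positivity
  set q : ℂ → ℝ := fun x => ((starRingEnd ℂ v) * x).re + η * ‖x‖ ^ 2 with hq
  set B : ℝ := ‖v‖ * R + η * R ^ 2 with hB
  have hB0 : 0 ≤ B := by positivity
  have hqB : ∀ x ∈ closure U, |q x| ≤ B := by
    intro x hx
    have h1 : |((starRingEnd ℂ v) * x).re| ≤ ‖v‖ * R := by
      refine (Complex.abs_re_le_norm _).trans ?_
      rw [norm_mul, Complex.norm_conj]
      gcongr
      exact hR x hx
    have h2 : |η * ‖x‖ ^ 2| ≤ η * R ^ 2 := by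
      rw [abs_of_nonneg (by positivity)]
      have := hR x hx
      gcongr
    exact (abs_add_le _ _).trans (add_le_add h1 h2)
  set ε : ℝ := (w z₀ - m) / (4 * (B + 1)) with hε
  have hε0 : 0 < ε := by
    have : 0 < w z₀ - m := by linarith
    positivity
  have hεB : ε * B < (w z₀ - m) / 2 := by
    have h1 : 0 < w z₀ - m := by linarith
    have h2 : ε * (4 * (B + 1)) = w z₀ - m := by
      rw [hε]
      field_simp
    nlinarith
  set W : ℂ → ℝ := fun x => w x + ε * q x with hW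
  have hqc : Continuous q := by
    rw [hq]
    fun_prop
  have hWc : ContinuousOn W (closure U) := by
    rw [hW]
    exact hc.add (hqc.continuousOn.const_smul ε)
  obtain ⟨z, hz, hzmax⟩ := hK.exists_isMaxOn ⟨z₀, hz₀⟩ hWc
  have hzmax' : ∀ x ∈ closure U, W x ≤ W z := fun x hx => hzmax hx
  by_cases hzU : z ∈ U
  · -- interior maximum
    have hl : IsLocalMax (fun x => (w x + (ε * (starRingEnd ℂ v) * x).re) +
        (ε * η) * ‖x‖ ^ 2) z := by
      filter_upwards [hU.mem_nhds hzU] with x hx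
      have h1 := hzmax' x (subset_closure hx)
      have h2 : ∀ y : ℂ, (ε * (starRingEnd ℂ v) * y).re = ε * ((starRingEnd ℂ v) * y).re := by
        intro y
        rw [mul_assoc, Complex.re_ofReal_mul]
      rw [h2, h2]
      simp only [hW, hq] at h1
      linarith
    refine no_local_max ?_ (by positivity) hl
    have h2 : HarmonicAt (fun x : ℂ => (ε * (starRingEnd ℂ v) * x).re) z := by
      apply AnalyticAt.harmonicAt_re (f := fun x : ℂ => ε * (starRingEnd ℂ v) * x)
      fun_prop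
    exact (hh z hzU).add h2
  · have hzf : z ∈ frontier U := by
      rw [hU.frontier_eq]
      exact ⟨hz, hzU⟩
    by_cases hzA : z ∈ A
    · have h1 := hA z hzf hzA
      have h2 := hzmax' z₀ hz₀
      have h3 := hqB z hz
      have h4 := hqB z₀ hz₀
      have h5 := abs_le.1 h3
      have h6 := abs_le.1 h4
      simp only [hW] at h2
      have h7 : ε * q z ≤ ε * B := mul_le_mul_of_nonneg_left h5.2 hε0.le
      have h8 : -(ε * B) ≤ ε * q z₀ := by
        have := mul_le_mul_of_nonneg_left h6.1 hε0.le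
        linarith
      linarith
    · obtain ⟨ν, hν1, hν2, hν3, hν4⟩ := hN z hzf hzA
      have h1 : ∀ᶠ t : ℝ in 𝓝[>] 0, t < 1 :=
        nhdsWithin_le_nhds (Iio_mem_nhds one_pos)
      have h0 : ∀ᶠ t : ℝ in 𝓝[>] 0, (0 : ℝ) < t := eventually_mem_nhdsWithin
      obtain ⟨t, ht0', ht1, ht2, ht3⟩ := (h0.and
        (h1.and (hν3.and (hν4 (ε * κ₀ / 4) (by positivity))))).exists
      have hmx := hzmax' _ ht2
      simp only [hW, hq] at hmx
      have e1 : ((starRingEnd ℂ v) * (z + t * ν)).re =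
          ((starRingEnd ℂ v) * z).re + t * ((starRingEnd ℂ v) * ν).re := by
        have : (starRingEnd ℂ v) * (z + t * ν) =
            (starRingEnd ℂ v) * z + t * ((starRingEnd ℂ v) * ν) := by ring
        rw [this, Complex.add_re, Complex.re_ofReal_mul]
      have e2 : ‖z‖ ^ 2 - 2 * R * t ≤ ‖z + t * ν‖ ^ 2 := by
        have h2 : ‖z‖ - t ≤ ‖z + t * ν‖ := by
          have h3 := norm_sub_norm_le z (-(t * ν))
          rw [sub_neg_eq_add, norm_neg, norm_mul, Complex.norm_real, Real.norm_of_nonneg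
            ht0'.le] at h3
          nlinarith
        have h3 := hR z hz
        have h4 := norm_nonneg z
        by_cases h5 : t ≤ ‖z‖
        · have h6 : (‖z‖ - t) ^ 2 ≤ ‖z + t * ν‖ ^ 2 := by
            apply pow_le_pow_left₀ (by linarith) h2
          nlinarith
        · push Not at h5
          have h6 : 0 ≤ ‖z + t * ν‖ ^ 2 := by positivity
          nlinarith
      rw [e1] at hmx
      have h9 : η * (2 * R * t) ≤ κ₀ * t / 4 := by
        have h10 : η * (8 * (R + 1)) = κ₀ := by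
          rw [hη]
          field_simp
        nlinarith [mul_pos hη0 ht0']
      have h11 : η * (‖z‖ ^ 2 - 2 * R * t) ≤ η * ‖z + t * ν‖ ^ 2 :=
        mul_le_mul_of_nonneg_left e2 hη0.le
      have h12 : t * κ₀ ≤ t * ((starRingEnd ℂ v) * ν).re :=
        mul_le_mul_of_nonneg_left hν2 ht0'.le
      have h13 : ε * (((starRingEnd ℂ v) * z).re + t * κ₀ + η * ‖z‖ ^ 2 - κ₀ * t / 4) ≤
          ε * (((starRingEnd ℂ v) * z).re + t * ((starRingEnd ℂ v) * ν).re +
            η * ‖z + t * ν‖ ^ 2) := by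
        apply mul_le_mul_of_nonneg_left _ hε0.le
        nlinarith
      have h14 : 0 < ε * κ₀ * t := by positivity
      nlinarith

/-! ## Removing the special points -/

/-- Domains with straight walls. `S` is the finite set of special points; at the other points of
the frontier there is an inward unit normal `ν` with an interior disc; near a special point `p`
the walls are radial and all their normals have a positive inner product with one vector `v`. -/
structure NDom (D : Set ℂ) (S : Finset ℂ) (ν : ℂ → ℂ) : Prop where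
  isOpen : IsOpen D
  bdd : Bornology.IsBounded D
  conn : IsPreconnected D
  notMem : ∀ p ∈ S, p ∉ D
  norm_eq : ∀ z ∈ frontier D, z ∉ S → ‖ν z‖ = 1
  disc : ∀ z ∈ frontier D, z ∉ S → ∃ ρ > (0 : ℝ), ball (z + ρ * ν z) ρ ⊆ D
  radial : ∀ p ∈ S, ∃ r > (0 : ℝ), ∃ v : ℂ, ∃ κ > (0 : ℝ), ∀ z ∈ frontier D, z ≠ p → ‖z - p‖ < r →
    z ∉ S ∧ ((starRingEnd ℂ (z - p)) * ν z).re = 0 ∧ κ ≤ ((starRingEnd ℂ v) * ν z).re

variable {D : Set ℂ} {S : Finset ℂ} {ν : ℂ → ℂ} {u : ℂ → ℝ}

/-- Points on the inward normal are in the domain. -/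
theorem NDom.mem_of_small (h : NDom D S ν) {z : ℂ} (hz : z ∈ frontier D) (hzS : z ∉ S) :
    ∀ᶠ t : ℝ in 𝓝[>] 0, z + t * ν z ∈ D := by
  obtain ⟨ρ, hρ, hball⟩ := h.disc z hz hzS
  have h0 : ∀ᶠ t : ℝ in 𝓝[>] 0, (0 : ℝ) < t := eventually_mem_nhdsWithin
  have h1 : ∀ᶠ t : ℝ in 𝓝[>] 0, t < ρ := nhdsWithin_le_nhds (Iio_mem_nhds hρ)
  filter_upwards [h0, h1] with t ht0 ht1
  apply hball
  rw [mem_ball, dist_eq_norm]
  have : z + t * ν z - (z + ρ * ν z) = ((t - ρ : ℝ) : ℂ) * ν z := by
    push_cast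
    ring
  rw [this, norm_mul, Complex.norm_real, h.norm_eq z hz hzS, mul_one, Real.norm_eq_abs,
    abs_of_neg (by linarith)]
  linarith

/-- The class of functions: harmonic, continuous up to the walls, Neumann at the walls. -/
structure NHarm (D : Set ℂ) (S : Finset ℂ) (ν : ℂ → ℂ) (u : ℂ → ℝ) : Prop where
  harm : HarmonicOnNhd u D
  cont : ContinuousOn u (closure D \ S)
  neu : ∀ z ∈ frontier D, z ∉ S → Neu u z (ν z)

theorem NHarm.neg {u : ℂ → ℝ} (h : NHarm D S ν u) : NHarm D S ν (fun x => -u x) :=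
  ⟨h.harm.neg, h.cont.neg, fun z hz hzS => (h.neu z hz hzS).neg⟩

theorem NHarm.sub {u v : ℂ → ℝ} (hu : NHarm D S ν u) (hv : NHarm D S ν v) :
    NHarm D S ν (fun x => u x - v x) :=
  ⟨hu.harm.sub hv.harm, hu.cont.sub hv.cont, fun z hz hzS => (hu.neu z hz hzS).sub (hv.neu z hz hzS)⟩

theorem NHarm.add {u v : ℂ → ℝ} (hu : NHarm D S ν u) (hv : NHarm D S ν v) :
    NHarm D S ν (fun x => u x + v x) :=
  ⟨hu.harm.add hv.harm, hu.cont.add hv.cont, fun z hz hzS => (hu.neu z hz hzS).add (hv.neu z hz hzS)⟩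

theorem NHarm.const_mul {u : ℂ → ℝ} (hu : NHarm D S ν u) (c : ℝ) :
    NHarm D S ν (fun x => c * u x) :=
  ⟨hu.harm.const_smul (c := c), hu.cont.const_smul c, fun z hz hzS => (hu.neu z hz hzS).const_mul c⟩

theorem log_norm_harmonicAt {p z : ℂ} (hz : z ≠ p) :
    HarmonicAt (fun x : ℂ => Real.log ‖x - p‖) z :=
  AnalyticAt.harmonicAt_log_norm (f := fun x : ℂ => x - p) (by fun_prop) (sub_ne_zero.2 hz)

/-- The logarithm of the distance to `p` satisfies the Neumann condition on radial walls. -/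
theorem neu_log {p z n : ℂ} (hz : z ≠ p) (hn : ‖n‖ ≤ 1)
    (hrad : ((starRingEnd ℂ (z - p)) * n).re = 0) :
    Neu (fun x => Real.log ‖x - p‖) z n := by
  intro κ hκ
  have hd : 0 < ‖z - p‖ := norm_pos_iff.2 (sub_ne_zero.2 hz)
  have h0 : ∀ᶠ t : ℝ in 𝓝[>] 0, (0 : ℝ) < t := eventually_mem_nhdsWithin
  have h1 : ∀ᶠ t : ℝ in 𝓝[>] 0, t < κ * ‖z - p‖ ^ 2 :=
    nhdsWithin_le_nhds (Iio_mem_nhds (by positivity))
  filter_upwards [h0, h1] with t ht0 ht1
  have e1 : ‖z + t * n - p‖ ^ 2 = ‖z - p‖ ^ 2 + t ^ 2 * ‖n‖ ^ 2 := by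
    rw [← Complex.normSq_eq_norm_sq, ← Complex.normSq_eq_norm_sq, ← Complex.normSq_eq_norm_sq]
    simp only [Complex.normSq_apply, Complex.add_re, Complex.add_im, Complex.sub_re,
      Complex.sub_im, Complex.mul_re, Complex.mul_im, Complex.ofReal_re, Complex.ofReal_im,
      Complex.conj_re, Complex.conj_im] at hrad ⊢
    linear_combination (2 * t) * hrad
  have e2 : ‖z - p‖ ≤ ‖z + t * n - p‖ := by
    apply le_of_sq_le_sq _ (norm_nonneg _)
    rw [e1]
    have : 0 ≤ t ^ 2 * ‖n‖ ^ 2 := by positivity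
    linarith
  have hd2 : 0 < ‖z + t * n - p‖ := hd.trans_le e2
  have e3 : Real.log ‖z - p‖ ≤ Real.log ‖z + t * n - p‖ := Real.log_le_log hd e2
  rw [abs_of_nonneg (by linarith)]
  have e4 : Real.log ‖z + t * n - p‖ - Real.log ‖z - p‖ =
      1 / 2 * Real.log (‖z + t * n - p‖ ^ 2 / ‖z - p‖ ^ 2) := by
    rw [Real.log_div (by positivity) (by positivity), Real.log_pow, Real.log_pow]
    push_cast
    ring
  rw [e4]
  have e5 : ‖z + t * n - p‖ ^ 2 / ‖z - p‖ ^ 2 ≤ 1 + t ^ 2 / ‖z - p‖ ^ 2 := by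
    rw [e1, add_div, div_self (by positivity)]
    have : t ^ 2 * ‖n‖ ^ 2 ≤ t ^ 2 := by
      have : ‖n‖ ^ 2 ≤ 1 := by
        have := norm_nonneg n
        nlinarith
      nlinarith [sq_nonneg t]
    gcongr
  have e6 : Real.log (‖z + t * n - p‖ ^ 2 / ‖z - p‖ ^ 2) ≤ t ^ 2 / ‖z - p‖ ^ 2 := by
    have h3 := Real.log_le_sub_one_of_pos
      (show 0 < ‖z + t * n - p‖ ^ 2 / ‖z - p‖ ^ 2 by positivity)
    linarith
  have e7 : t ^ 2 / ‖z - p‖ ^ 2 ≤ κ * t := by
    rw [div_le_iff₀ (by positivity)]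
    nlinarith
  have : 0 < κ * t := by positivity
  linarith

/-- The local form of the hypotheses at a special point `p`: the walls at distance less than `r₀`
from `p` are radial, their unit normals have a positive inner product with `v`. -/
def WallAt (D : Set ℂ) (ν : ℂ → ℂ) (p v : ℂ) (r₀ κ₀ : ℝ) : Prop :=
  ∀ z ∈ frontier D, z ≠ p → ‖z - p‖ < r₀ → ‖ν z‖ = 1 ∧
      (∀ᶠ t : ℝ in 𝓝[>] 0, z + t * ν z ∈ D) ∧ ((starRingEnd ℂ (z - p)) * ν z).re = 0 ∧
      κ₀ ≤ ((starRingEnd ℂ v) * ν z).re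

/-- The three circles inequality at a special point: if `u ≤ a` at distance `δ` and `u ≤ b` at
distance `r` from `p`, then between them `u` is at most the interpolation in the logarithm of the
distance. -/
theorem three_circles {p v : ℂ} {r r₀ κ₀ δ a b : ℝ} (hD : IsOpen D) (hrr : r < r₀)
    (hκ₀ : 0 < κ₀) (hδ : 0 < δ) (hδr : δ < r) {u : ℂ → ℝ} (hu : HarmonicOnNhd u D)
    (huc : ContinuousOn u ((closure D ∩ ball p r₀) \ {p})) (hw : WallAt D ν p v r₀ κ₀)
    (hneu : ∀ z ∈ frontier D, z ≠ p → ‖z - p‖ < r₀ → Neu u z (ν z))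
    (ha : ∀ z ∈ closure D, ‖z - p‖ = δ → u z ≤ a) (hb : ∀ z ∈ closure D, ‖z - p‖ = r → u z ≤ b)
    {z : ℂ} (hz : z ∈ D) (hz1 : δ < ‖z - p‖) (hz2 : ‖z - p‖ < r) :
    u z ≤ b + (a - b) * (Real.log (r / ‖z - p‖) / Real.log (r / δ)) := by
  have hr : 0 < r := hδ.trans hδr
  have hlog : 0 < Real.log (r / δ) := Real.log_pos (by rwa [one_lt_div hδ])
  set U : Set ℂ := D ∩ {x | δ < ‖x - p‖ ∧ ‖x - p‖ < r} with hU
  have hUo : IsOpen U := by
    refine hD.inter ?_
    have h1 : IsOpen {x : ℂ | δ < ‖x - p‖} := isOpen_lt continuous_const (by fun_prop)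
    have h2 : IsOpen {x : ℂ | ‖x - p‖ < r} := isOpen_lt (by fun_prop) continuous_const
    exact h1.inter h2
  have hcl : ∀ x ∈ closure U, x ∈ closure D ∧ δ ≤ ‖x - p‖ ∧ ‖x - p‖ ≤ r := by
    intro x hx
    refine ⟨closure_mono inter_subset_left hx, ?_, ?_⟩
    · have : closure U ⊆ {x : ℂ | δ ≤ ‖x - p‖} :=
        closure_minimal (fun y hy => hy.2.1.le) (isClosed_le continuous_const (by fun_prop))
      exact this hx
    · have : closure U ⊆ {x : ℂ | ‖x - p‖ ≤ r} :=
        closure_minimal (fun y hy => hy.2.2.le) (isClosed_le (by fun_prop) continuous_const)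
      exact this hx
  have hUb : Bornology.IsBounded U := by
    refine (isBounded_ball (x := p) (r := r)).subset fun x hx => ?_
    rw [mem_ball, dist_eq_norm]
    exact hx.2.2
  set c : ℝ := (a - b) / Real.log (r / δ) with hc
  set w : ℂ → ℝ := fun x => u x + c * Real.log ‖x - p‖ with hwd
  have hne : ∀ x ∈ closure U, x ≠ p := by
    rintro x hx rfl
    have := (hcl x hx).2.1
    rw [sub_self, norm_zero] at this
    linarith
  have hwc : ContinuousOn w (closure U) := by
    refine (huc.mono fun x hx => ?_).add ?_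
    · obtain ⟨h1, h2, h3⟩ := hcl x hx
      refine ⟨⟨h1, ?_⟩, hne x hx⟩
      rw [mem_ball, dist_eq_norm]
      linarith
    · refine (ContinuousOn.log (by fun_prop) fun x hx => ?_).const_smul c
      exact (norm_pos_iff.2 (sub_ne_zero.2 (hne x hx))).ne'
  have hwh : HarmonicOnNhd w U := by
    intro x hx
    exact (hu x hx.1).add ((log_norm_harmonicAt (hne x (subset_closure hx))).const_smul (c := c))
  have key := wall_max (A := {x | ‖x - p‖ = δ ∨ ‖x - p‖ = r}) (w := w) (v := v)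
    (m := b + c * Real.log r) hUo hUb hwc hwh hκ₀ ?_ ?_ z (subset_closure ⟨hz, hz1, hz2⟩)
  · have hzp : 0 < ‖z - p‖ := hδ.trans hz1
    have e1 : Real.log (r / ‖z - p‖) = Real.log r - Real.log ‖z - p‖ :=
      Real.log_div hr.ne' hzp.ne'
    have e2 : b + (a - b) * (Real.log (r / ‖z - p‖) / Real.log (r / δ)) =
        b + c * (Real.log r - Real.log ‖z - p‖) := by
      rw [e1, hc]
      ring
    rw [e2]
    simp only [hwd] at key
    linarith
  · rintro x hx (hx1 | hx1)
    · have h1 := ha x (hcl x (frontier_subset_closure hx)).1 hx1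
      have e1 : Real.log (r / δ) = Real.log r - Real.log δ := Real.log_div hr.ne' hδ.ne'
      have e2 : c * (Real.log r - Real.log δ) = a - b := by
        rw [hc, ← e1]
        field_simp
      simp only [hwd, hx1]
      linarith
    · have h1 := hb x (hcl x (frontier_subset_closure hx)).1 hx1
      simp only [hwd, hx1]
      linarith
  · intro x hx hxA
    have hxc := frontier_subset_closure hx
    obtain ⟨h1, h2, h3⟩ := hcl x hxc
    have hxA' : ¬ (‖x - p‖ = δ ∨ ‖x - p‖ = r) := hxA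
    push Not at hxA'
    have h2' : δ < ‖x - p‖ := lt_of_le_of_ne h2 (Ne.symm hxA'.1)
    have h3' : ‖x - p‖ < r := lt_of_le_of_ne h3 hxA'.2
    have hxD : x ∉ D := by
      intro hxD
      have : x ∈ U := ⟨hxD, h2', h3'⟩
      rw [hUo.frontier_eq] at hx
      exact hx.2 this
    have hxf : x ∈ frontier D := by
      rw [hD.frontier_eq]
      exact ⟨h1, hxD⟩
    obtain ⟨g1, g2, g3, g4⟩ := hw x hxf (hne x hxc) (h3'.trans hrr)
    refine ⟨ν x, g1.le, g4, ?_, ?_⟩
    · have hcont : Tendsto (fun t : ℝ => ‖x + t * ν x - p‖) (𝓝[>] 0) (𝓝 ‖x - p‖) := by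
        have : Continuous fun t : ℝ => ‖x + t * ν x - p‖ := by fun_prop
        have h5 := this.tendsto 0
        simp only [Complex.ofReal_zero, zero_mul, add_zero] at h5
        exact h5.mono_left nhdsWithin_le_nhds
      filter_upwards [g2, hcont.eventually_const_lt h2', hcont.eventually_lt_const h3']
        with t ht1 ht2 ht3
      exact subset_closure ⟨ht1, ht2, ht3⟩
    · have hn := (hneu x hxf (hne x hxc) (h3'.trans hrr)).add
        ((neu_log (hne x hxc) g1.le g3).const_mul c)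
      intro κ hκ
      filter_upwards [hn κ hκ] with t ht
      have := (abs_le.1 ht).1
      simp only [hwd]
      linarith

/-- A special point does not matter for upper bounds. -/
theorem special_le {p v : ℂ} {r r₀ κ₀ A B : ℝ} (hD : IsOpen D) (hr : 0 < r) (hrr : r < r₀)
    (hκ₀ : 0 < κ₀) {u : ℂ → ℝ} (hu : HarmonicOnNhd u D)
    (huc : ContinuousOn u ((closure D ∩ ball p r₀) \ {p})) (hw : WallAt D ν p v r₀ κ₀)
    (hneu : ∀ z ∈ frontier D, z ≠ p → ‖z - p‖ < r₀ → Neu u z (ν z))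
    (hB : ∀ z ∈ closure D, z ≠ p → ‖z - p‖ ≤ r → u z ≤ B)
    (hA : ∀ z ∈ closure D, ‖z - p‖ = r → u z ≤ A)
    {z : ℂ} (hz : z ∈ D) (hz1 : z ≠ p) (hz2 : ‖z - p‖ < r) : u z ≤ A := by
  have hzp : 0 < ‖z - p‖ := norm_pos_iff.2 (sub_ne_zero.2 hz1)
  -- let `δ` tend to zero
  have h1 : ∀ᶠ δ : ℝ in 𝓝[>] 0, u z ≤ A + (max A B - A) *
      (Real.log (r / ‖z - p‖) / Real.log (r / δ)) := by
    have h0 : ∀ᶠ t : ℝ in 𝓝[>] 0, (0 : ℝ) < t := eventually_mem_nhdsWithin
    have h2 : ∀ᶠ t : ℝ in 𝓝[>] 0, t < ‖z - p‖ := nhdsWithin_le_nhds (Iio_mem_nhds hzp)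
    filter_upwards [h0, h2] with δ hδ hδz
    have hδr : δ < r := hδz.trans hz2
    refine three_circles hD hrr hκ₀ hδ hδr hu huc hw hneu ?_ hA hz hδz hz2
    intro x hx hxδ
    have hxp : x ≠ p := by
      rintro rfl
      rw [sub_self, norm_zero] at hxδ
      exact hδ.ne hxδ
    exact (hB x hx hxp (by linarith)).trans (le_max_right _ _)
  have h2 : Tendsto (fun δ : ℝ => Real.log (r / δ)) (𝓝[>] 0) atTop := by
    refine Real.tendsto_log_atTop.comp ?_
    have h5 : Tendsto (fun δ : ℝ => r * δ⁻¹) (𝓝[>] 0) atTop :=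
      Tendsto.const_mul_atTop hr tendsto_inv_nhdsGT_zero
    refine h5.congr fun δ => ?_
    rw [div_eq_mul_inv]
  have h3 : Tendsto (fun δ : ℝ => A + (max A B - A) *
      (Real.log (r / ‖z - p‖) / Real.log (r / δ))) (𝓝[>] 0) (𝓝 (A + (max A B - A) * 0)) := by
    refine tendsto_const_nhds.add (tendsto_const_nhds.mul ?_)
    exact tendsto_const_nhds.div_atTop h2
  rw [mul_zero, add_zero] at h3
  exact ge_of_tendsto h3 h1

/-! ## Hopf's lemma -/

/-- Hopf's lemma: a Neumann point with an interior disc is not a strict maximum. -/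
theorem hopf {u : ℂ → ℝ} {z n : ℂ} {ρ M : ℝ} (hρ : 0 < ρ) (hn : ‖n‖ = 1)
    (hball : ball (z + ρ * n) ρ ⊆ D) (hu : HarmonicOnNhd u D)
    (hc : ContinuousWithinAt u (D ∪ {z}) z) (hM : ∀ x ∈ D, u x < M) (hz : u z = M)
    (hneu : Neu u z n) : False := by
  set r : ℝ := ρ / 2 with hr
  have hr0 : 0 < r := half_pos hρ
  set c : ℂ := z + r * n with hcd
  -- points of the smaller disc
  have hin : ∀ x : ℂ, ‖x - c‖ ≤ r → x ≠ z → x ∈ D := by
    intro x hx hxz
    apply hball
    rw [mem_ball, dist_eq_norm]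
    have h1 : ‖x - c‖ ^ 2 = ‖x - z‖ ^ 2 - 2 * r * ((starRingEnd ℂ n) * (x - z)).re +
        r ^ 2 * ‖n‖ ^ 2 := by
      rw [hcd, ← Complex.normSq_eq_norm_sq, ← Complex.normSq_eq_norm_sq,
        ← Complex.normSq_eq_norm_sq]
      simp only [Complex.normSq_apply, Complex.add_re, Complex.add_im, Complex.sub_re,
        Complex.sub_im, Complex.mul_re, Complex.mul_im, Complex.ofReal_re, Complex.ofReal_im,
        Complex.conj_re, Complex.conj_im]
      ring
    have h2 : ‖x - (z + ρ * n)‖ ^ 2 = ‖x - z‖ ^ 2 - 2 * ρ * ((starRingEnd ℂ n) * (x - z)).re +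
        ρ ^ 2 * ‖n‖ ^ 2 := by
      rw [← Complex.normSq_eq_norm_sq, ← Complex.normSq_eq_norm_sq,
        ← Complex.normSq_eq_norm_sq]
      simp only [Complex.normSq_apply, Complex.add_re, Complex.add_im, Complex.sub_re,
        Complex.sub_im, Complex.mul_re, Complex.mul_im, Complex.ofReal_re, Complex.ofReal_im,
        Complex.conj_re, Complex.conj_im]
      ring
    rw [hn] at h1 h2
    have h3 : ‖x - c‖ ^ 2 ≤ r ^ 2 := pow_le_pow_left₀ (norm_nonneg _) hx 2
    have h4 : 0 < ‖x - z‖ := norm_pos_iff.2 (sub_ne_zero.2 hxz)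
    have h5 : ρ = 2 * r := by rw [hr]; ring
    have h6 : ‖x - (z + ρ * n)‖ ^ 2 < ρ ^ 2 := by
      rw [h5] at h2 ⊢
      nlinarith
    exact lt_of_pow_lt_pow_left₀ 2 hρ.le h6
  -- the inner disc
  have hzc : ‖z - c‖ = r := by
    rw [hcd]
    have : z - (z + r * n) = -((r : ℂ) * n) := by ring
    rw [this, norm_neg, norm_mul, Complex.norm_real, hn, mul_one, Real.norm_of_nonneg hr0.le]
  have hsub : closedBall c (r / 2) ⊆ D := by
    intro x hx
    rw [mem_closedBall, dist_eq_norm] at hx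
    refine hin x (by linarith) ?_
    rintro rfl
    linarith
  obtain ⟨m₀, hm₀, hm₀'⟩ : ∃ m₀ > (0 : ℝ), ∀ x ∈ closedBall c (r / 2), u x ≤ M - m₀ := by
    obtain ⟨y, hy, hymax⟩ := (isCompact_closedBall c (r / 2)).exists_isMaxOn
      ⟨c, mem_closedBall_self (by positivity)⟩ (hu.continuousOn.mono hsub)
    refine ⟨M - u y, by linarith [hM y (hsub hy)], fun x hx => ?_⟩
    have := hymax hx
    have h9 : u x ≤ u y := this
    linarith
  have hlog2 : 0 < Real.log 2 := Real.log_pos (by norm_num)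
  set c₁ : ℝ := m₀ / Real.log 2 with hc₁
  have hc₁0 : 0 < c₁ := div_pos hm₀ hlog2
  set U : Set ℂ := {x | r / 2 < ‖x - c‖ ∧ ‖x - c‖ < r} with hU
  have hUo : IsOpen U := by
    have h1 : IsOpen {x : ℂ | r / 2 < ‖x - c‖} := isOpen_lt continuous_const (by fun_prop)
    have h2 : IsOpen {x : ℂ | ‖x - c‖ < r} := isOpen_lt (by fun_prop) continuous_const
    exact h1.inter h2
  have hcl : ∀ x ∈ closure U, r / 2 ≤ ‖x - c‖ ∧ ‖x - c‖ ≤ r := by
    intro x hx
    constructor
    · have : closure U ⊆ {x : ℂ | r / 2 ≤ ‖x - c‖} :=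
        closure_minimal (fun y hy => hy.1.le) (isClosed_le continuous_const (by fun_prop))
      exact this hx
    · have : closure U ⊆ {x : ℂ | ‖x - c‖ ≤ r} :=
        closure_minimal (fun y hy => hy.2.le) (isClosed_le (by fun_prop) continuous_const)
      exact this hx
  have hne : ∀ x ∈ closure U, x ≠ c := by
    intro x hx hxc
    have := (hcl x hx).1
    rw [hxc, sub_self, norm_zero] at this
    linarith
  have hclD : ∀ x ∈ closure U, x ∈ D ∪ {z} := by
    intro x hx
    by_cases h : x = z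
    · exact Or.inr h
    · exact Or.inl (hin x (hcl x hx).2 h)
  set w : ℂ → ℝ := fun x => u x - c₁ * Real.log ‖x - c‖ with hw
  have hucont : ContinuousOn u (D ∪ {z}) := by
    rintro x (hx | hx)
    · exact (hu x hx).1.continuousAt.continuousWithinAt
    · rw [mem_singleton_iff] at hx
      rw [hx]
      exact hc
  have hwc : ContinuousOn w (closure U) := by
    refine (hucont.mono hclD).sub ?_
    refine (ContinuousOn.log (by fun_prop) fun x hx => ?_).const_smul c₁
    exact (norm_pos_iff.2 (sub_ne_zero.2 (hne x hx))).ne'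
  have hwh : HarmonicOnNhd w U := by
    intro x hx
    have hxD : x ∈ D := by
      refine hin x hx.2.le ?_
      rintro rfl
      have := hx.2
      rw [hzc] at this
      exact lt_irrefl _ this
    exact (hu x hxD).sub ((log_norm_harmonicAt (hne x (subset_closure hx))).const_smul (c := c₁))
  have key := wall_max (A := univ) (w := w) (v := 0) (κ₀ := 1) (m := M - c₁ * Real.log r) hUo
    ((isBounded_ball (x := c) (r := r)).subset fun x hx => by
      rw [mem_ball, dist_eq_norm]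
      exact hx.2) hwc hwh one_pos ?_ (fun x _ hx => absurd (mem_univ x) hx)
  · -- conclusion
    have h0 : ∀ᶠ t : ℝ in 𝓝[>] 0, (0 : ℝ) < t := eventually_mem_nhdsWithin
    have h1 : ∀ᶠ t : ℝ in 𝓝[>] 0, t < r / 2 := nhdsWithin_le_nhds (Iio_mem_nhds (half_pos hr0))
    obtain ⟨t, ht0, ht1, ht2⟩ := (h0.and (h1.and (hneu (c₁ / r / 2) (by positivity)))).exists
    have e1 : ‖z + t * n - c‖ = r - t := by
      have : z + t * n - c = -(((r - t : ℝ) : ℂ) * n) := by
        rw [hcd]
        push_cast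
        ring
      rw [this, norm_neg, norm_mul, Complex.norm_real, hn, mul_one, Real.norm_of_nonneg
        (by linarith)]
    have h2 := key (z + t * n) (subset_closure ⟨by rw [e1]; linarith, by rw [e1]; linarith⟩)
    simp only [hw, e1] at h2
    have e2 : Real.log r - Real.log (r - t) = Real.log (r / (r - t)) :=
      (Real.log_div hr0.ne' (by linarith)).symm
    have e3 : t / r ≤ Real.log (r / (r - t)) := by
      have h3 := Real.one_sub_inv_le_log_of_pos (show 0 < r / (r - t) from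
        div_pos hr0 (by linarith))
      have h4 : 1 - (r / (r - t))⁻¹ = t / r := by
        rw [inv_div]
        field_simp
        ring
      linarith
    have h5 : c₁ * (t / r) ≤ c₁ * (Real.log r - Real.log (r - t)) := by
      rw [e2]
      exact mul_le_mul_of_nonneg_left e3 hc₁0.le
    have h6 := (abs_le.1 ht2).1
    rw [hz] at h6
    have h7 : c₁ / r / 2 * t = c₁ * (t / r) / 2 := by ring
    have h8 : 0 < c₁ * (t / r) := by positivity
    rw [h7] at h6
    nlinarith
  · intro x hx _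
    have hxc := frontier_subset_closure hx
    have h1 := hcl x hxc
    have hxU : x ∉ U := by
      rw [hUo.frontier_eq] at hx
      exact hx.2
    have h2 : ‖x - c‖ = r / 2 ∨ ‖x - c‖ = r := by
      by_contra hcon
      push Not at hcon
      exact hxU ⟨lt_of_le_of_ne h1.1 (Ne.symm hcon.1), lt_of_le_of_ne h1.2 hcon.2⟩
    rcases h2 with h2 | h2
    · have h3 := hm₀' x (by rw [mem_closedBall, dist_eq_norm, h2])
      have h4 : Real.log (r / 2) = Real.log r - Real.log 2 :=
        Real.log_div hr0.ne' (by norm_num)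
      have h5 : c₁ * Real.log 2 = m₀ := by
        rw [hc₁]
        field_simp
      simp only [hw, h2, h4]
      nlinarith
    · have h3 : u x ≤ M := by
        rcases hclD x hxc with h | h
        · exact (hM x h).le
        · rw [mem_singleton_iff] at h
          rw [h, hz]
      simp only [hw, h2]
      linarith

/-! ## Uniqueness -/

/-- Points of the closure are not isolated from `D`: the bound extends to the walls. -/
theorem NHarm.le_of_closure (h : NHarm D S ν u) {M : ℝ} (hM : ∀ z ∈ D, u z ≤ M) {z : ℂ}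
    (hz : z ∈ closure D) (hzS : z ∉ S) : u z ≤ M := by
  have hSo : IsOpen ((S : Set ℂ)ᶜ) := S.finite_toSet.isClosed.isOpen_compl
  have h1 : z ∈ closure ((S : Set ℂ)ᶜ ∩ D) := hSo.inter_closure ⟨hzS, hz⟩
  have h2 : ContinuousWithinAt u ((S : Set ℂ)ᶜ ∩ D) z :=
    (h.cont z ⟨hz, hzS⟩).mono fun x hx => ⟨subset_closure hx.2, hx.1⟩
  have h3 := h2.mem_closure_image h1
  have h4 : closure (u '' ((S : Set ℂ)ᶜ ∩ D)) ⊆ Iic M := by
    refine closure_minimal ?_ isClosed_Iic
    rintro _ ⟨x, hx, rfl⟩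
    exact hM x hx.2
  exact h4 h3

/-- Continuity near a special point. -/
theorem NHarm.cont_near (h : NHarm D S ν u) {p : ℂ} {r₀ : ℝ}
    (hr : ∀ z ∈ frontier D, z ≠ p → ‖z - p‖ < r₀ → z ∉ S) (hD : IsOpen D) :
    ContinuousOn u ((closure D ∩ ball p r₀) \ {p}) := by
  rintro x ⟨⟨hx, hxb⟩, hxp⟩
  rw [mem_singleton_iff] at hxp
  rw [mem_ball, dist_eq_norm] at hxb
  by_cases hxD : x ∈ D
  · exact (h.harm x hxD).1.continuousAt.continuousWithinAt
  · have hxf : x ∈ frontier D := by
      rw [hD.frontier_eq]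
      exact ⟨hx, hxD⟩
    have hxS : x ∉ S := hr x hxf hxp hxb
    refine (h.cont x ⟨hx, hxS⟩).mono_of_mem_nhdsWithin ?_
    have hSo : IsOpen ((S : Set ℂ)ᶜ) := S.finite_toSet.isClosed.isOpen_compl
    filter_upwards [nhdsWithin_le_nhds (hSo.mem_nhds hxS), self_mem_nhdsWithin] with y hy1 hy2
    exact ⟨hy2.1.1, hy1⟩

theorem NDom.wallAt (h : NDom D S ν) {p v : ℂ} {r κ : ℝ}
    (hr : ∀ z ∈ frontier D, z ≠ p → ‖z - p‖ < r →
      z ∉ S ∧ ((starRingEnd ℂ (z - p)) * ν z).re = 0 ∧ κ ≤ ((starRingEnd ℂ v) * ν z).re) :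
    WallAt D ν p v r κ := by
  intro z hz hzp hzr
  obtain ⟨h1, h2, h3⟩ := hr z hz hzp hzr
  exact ⟨h.norm_eq z hz h1, h.mem_of_small hz h1, h2, h3⟩

/-- A function of the class which is bounded above is constant. -/
theorem NDom.const_of_bdd (h : NDom D S ν) {u : ℂ → ℝ} (hu : NHarm D S ν u) {B : ℝ}
    (hB : ∀ z ∈ D, u z ≤ B) : ∀ x ∈ D, ∀ y ∈ D, u x = u y := by
  intro x hx y hy
  -- the supremum
  set M : ℝ := sSup (u '' D) with hMd
  have hbd : BddAbove (u '' D) := ⟨B, by rintro _ ⟨z, hz, rfl⟩; exact hB z hz⟩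
  have hM : ∀ z ∈ D, u z ≤ M := fun z hz => le_csSup hbd ⟨z, hz, rfl⟩
  by_cases hatt : ∃ z ∈ D, u z = M
  · obtain ⟨z, hz, hzM⟩ := hatt
    have := eqOn_of_max h.isOpen h.conn hu.harm hz (fun w hw => by rw [hzM]; exact hM w hw)
    rw [this x hx, this y hy]
  push Not at hatt
  have hlt : ∀ z ∈ D, u z < M := fun z hz => lt_of_le_of_ne (hM z hz) (hatt z hz)
  exfalso
  have hcl : ∀ z ∈ closure D, z ∉ S → u z ≤ M := fun z hz hzS => hu.le_of_closure hM hz hzS
  -- radii
  choose! rr hrr vv kk hkk hrad using h.radial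
  have hxS : ∀ p ∈ S, 0 < ‖x - p‖ := by
    intro p hp
    rw [norm_pos_iff, sub_ne_zero]
    rintro rfl
    exact h.notMem _ hp hx
  obtain ⟨r, hr0, hr1⟩ : ∃ r > (0 : ℝ), ∀ p ∈ S, r < rr p ∧ r < ‖x - p‖ ∧
      ∀ q ∈ S, q ≠ p → r < ‖q - p‖ / 2 := by
    have h1 : ∀ᶠ r : ℝ in 𝓝[>] 0, ∀ p ∈ S, r < rr p ∧ r < ‖x - p‖ ∧
        ∀ q ∈ S, q ≠ p → r < ‖q - p‖ / 2 := by
      rw [Filter.eventually_all_finset]
      intro p hp
      have g1 : ∀ᶠ r : ℝ in 𝓝[>] 0, r < rr p := nhdsWithin_le_nhds (Iio_mem_nhds (hrr p hp))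
      have g2 : ∀ᶠ r : ℝ in 𝓝[>] 0, r < ‖x - p‖ := nhdsWithin_le_nhds (Iio_mem_nhds (hxS p hp))
      have g3 : ∀ᶠ r : ℝ in 𝓝[>] 0, ∀ q ∈ S, q ≠ p → r < ‖q - p‖ / 2 := by
        rw [Filter.eventually_all_finset]
        intro q hq
        by_cases hqp : q = p
        · exact Filter.Eventually.of_forall fun r hr => absurd hqp hr
        · have : 0 < ‖q - p‖ / 2 := half_pos (norm_pos_iff.2 (sub_ne_zero.2 hqp))
          filter_upwards [nhdsWithin_le_nhds (Iio_mem_nhds this)] with r hr _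
          exact hr
      exact g1.and (g2.and g3)
    have h0 : ∀ᶠ t : ℝ in 𝓝[>] 0, (0 : ℝ) < t := eventually_mem_nhdsWithin
    obtain ⟨r, hr1, hr2⟩ := (h0.and h1).exists
    exact ⟨r, hr1, hr2⟩
  -- the compact part
  set K : Set ℂ := closure D \ ⋃ p ∈ S, ball p r with hK
  have hKc : IsCompact K := by
    refine (h.bdd.isCompact_closure).diff ?_
    exact isOpen_biUnion fun p _ => isOpen_ball
  have hxK : x ∈ K := by
    refine ⟨subset_closure hx, ?_⟩
    simp only [mem_iUnion, mem_ball, dist_eq_norm, not_exists, not_lt]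
    exact fun p hp => (hr1 p hp).2.1.le
  have hKS : ∀ z ∈ K, z ∉ S := by
    intro z hz hzS
    apply hz.2
    simp only [mem_iUnion]
    exact ⟨z, hzS, mem_ball_self hr0⟩
  have huK : ContinuousOn u K := hu.cont.mono fun z hz => ⟨hz.1, hKS z hz⟩
  obtain ⟨z₀, hz₀, hmax⟩ := hKc.exists_isMaxOn ⟨x, hxK⟩ huK
  have hmax' : ∀ z ∈ K, u z ≤ u z₀ := hmax
  -- the bound everywhere
  have hall : ∀ z ∈ D, u z ≤ u z₀ := by
    intro z hz
    by_cases hzK : z ∈ K
    · exact hmax' z hzK
    · have h1 : z ∈ ⋃ p ∈ S, ball p r := by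
        by_contra hcon
        exact hzK ⟨subset_closure hz, hcon⟩
      simp only [mem_iUnion, mem_ball, dist_eq_norm, exists_prop] at h1
      obtain ⟨p, hp, hzp⟩ := h1
      have hS' : ∀ z ∈ closure D, z ≠ p → ‖z - p‖ < rr p → z ∉ S := by
        intro w hw hwp hwr hwS
        by_cases hwD : w ∈ D
        · exact h.notMem w hwS hwD
        · exact (hrad p hp w (by rw [h.isOpen.frontier_eq]; exact ⟨hw, hwD⟩) hwp hwr).1 hwS
      have hfr : ∀ z ∈ frontier D, z ≠ p → ‖z - p‖ < rr p → z ∉ S :=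
        fun w hw hwp hwr => (hrad p hp w hw hwp hwr).1
      -- no other special point on the circle
      refine special_le h.isOpen hr0 (hr1 p hp).1 (hkk p hp) hu.harm
        (hu.cont_near hfr h.isOpen) (h.wallAt (hrad p hp))
        (fun w hw hwp hwr => hu.neu w hw (hfr w hw hwp hwr)) (B := M) ?_ ?_ hz ?_ hzp
      · intro w hw hwp hwr
        exact hcl w hw (hS' w hw hwp (hwr.trans_lt (hr1 p hp).1))
      · intro w hw hwr
        refine hmax' w ⟨hw, ?_⟩
        simp only [mem_iUnion, mem_ball, dist_eq_norm, not_exists, not_lt]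
        intro q hq
        by_cases hqp : q = p
        · rw [hqp, hwr]
        · have g1 := (hr1 p hp).2.2 q hq hqp
          have g2 : ‖q - p‖ ≤ ‖w - q‖ + ‖w - p‖ := by
            have : q - p = -(w - q) + (w - p) := by ring
            rw [this]
            refine (norm_add_le _ _).trans ?_
            rw [norm_neg]
          linarith
      · rintro rfl
        exact h.notMem z hp hz
  have hz₀M : u z₀ = M := by
    refine le_antisymm (hcl z₀ hz₀.1 (hKS z₀ hz₀)) ?_
    refine csSup_le ⟨u x, x, hx, rfl⟩ ?_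
    rintro _ ⟨z, hz, rfl⟩
    exact hall z hz
  have hz₀D : z₀ ∉ D := fun hD => (hatt z₀ hD) hz₀M
  have hz₀f : z₀ ∈ frontier D := by
    rw [h.isOpen.frontier_eq]
    exact ⟨hz₀.1, hz₀D⟩
  obtain ⟨ρ, hρ, hball⟩ := h.disc z₀ hz₀f (hKS z₀ hz₀)
  refine hopf hρ (h.norm_eq z₀ hz₀f (hKS z₀ hz₀)) hball hu.harm ?_ hlt hz₀M
    (hu.neu z₀ hz₀f (hKS z₀ hz₀))
  refine (hu.cont z₀ ⟨hz₀.1, hKS z₀ hz₀⟩).mono_of_mem_nhdsWithin ?_
  have hSo : IsOpen ((S : Set ℂ)ᶜ) := S.finite_toSet.isClosed.isOpen_compl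
  filter_upwards [nhdsWithin_le_nhds (hSo.mem_nhds (hKS z₀ hz₀)), self_mem_nhdsWithin]
    with y hy1 hy2
  refine ⟨?_, hy1⟩
  rcases hy2 with hy2 | hy2
  · exact subset_closure hy2
  · rw [mem_singleton_iff] at hy2
    rw [hy2]
    exact hz₀.1

/-- Two functions of the class whose difference is bounded above differ by a constant. -/
theorem NDom.sub_const (h : NDom D S ν) {u v : ℂ → ℝ} (hu : NHarm D S ν u)
    (hv : NHarm D S ν v) {B : ℝ} (hB : ∀ z ∈ D, u z - v z ≤ B) :
    ∃ c : ℝ, ∀ z ∈ D, u z = v z + c := by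
  rcases D.eq_empty_or_nonempty with hD | ⟨x, hx⟩
  · exact ⟨0, fun z hz => by rw [hD] at hz; exact absurd hz (notMem_empty z)⟩
  · refine ⟨u x - v x, fun z hz => ?_⟩
    have := h.const_of_bdd (hu.sub hv) hB z hz x hx
    linarith

end Pool.Agent.SixB.AN3
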