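import Mathlib

/-!
# 6BD block CA (Cardy directly): definitions for the continuum domains and the limit functions

* `csq f`: closed unit square of the face `f = (x, y)` (lower left corner), a subset of `ℂ`.
* `Cl P`, `Om P`: closed region and open region of a finite set of faces.
* `MPoly P`: `P` is nonempty, edge connected, with edge connected complement and without pinch points
  (a simply connected Manhattan polygon with integer vertices).
* `Wall P p ν`: `p` lies on a straight wall with inner normal `ν ∈ {1, -1, I, -I}`.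
* `NeuAt P U p ν`: vanishing normal derivative at the wall point `p`, in a uniform form.
* `NHarm P X U`: `U` is harmonic in `Om P`, continuous on `Cl P` off `X` (corners included), Neumann on the
  walls off `X`.
* `rf n P`: the `n`-th refinement of `P` (faces of the lattice domain `n P`); `fl n z`: rounding
  of `n z`; `ext n u z = u (fl n z)`.
-/

set_option autoImplicit false

namespace Pool.Agent.SixB

noncomputable section

/-- closed unit square of the face `f` -/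
def csq (f : ℤ × ℤ) : Set ℂ :=
  {z | (f.1 : ℝ) ≤ z.re ∧ z.re ≤ f.1 + 1 ∧ (f.2 : ℝ) ≤ z.im ∧ z.im ≤ f.2 + 1}

/-- closed region of a finite set of faces -/
def Cl (P : Finset (ℤ × ℤ)) : Set ℂ := ⋃ f ∈ P, csq f

/-- open region of a finite set of faces -/
def Om (P : Finset (ℤ × ℤ)) : Set ℂ := interior (Cl P)

/-- two faces share a side -/
def EAdj (f g : ℤ × ℤ) : Prop :=
  g = (f.1 + 1, f.2) ∨ g = (f.1 - 1, f.2) ∨ g = (f.1, f.2 + 1) ∨ g = (f.1, f.2 - 1)

/-- edge connected set of faces -/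
def EConn (S : Set (ℤ × ℤ)) : Prop :=
  ∀ f ∈ S, ∀ g ∈ S, Relation.ReflTransGen (fun a b => b ∈ S ∧ EAdj a b) f g

/-- no vertex where exactly two diagonally opposite faces are present -/
def NoPinch (P : Finset (ℤ × ℤ)) : Prop :=
  ∀ x y : ℤ, ¬ ((x, y) ∈ P ∧ (x - 1, y - 1) ∈ P ∧ (x - 1, y) ∉ P ∧ (x, y - 1) ∉ P) ∧
    ¬ ((x, y) ∉ P ∧ (x - 1, y - 1) ∉ P ∧ (x - 1, y) ∈ P ∧ (x, y - 1) ∈ P)

/-- simply connected Manhattan polygon with integer vertices -/
structure MPoly (P : Finset (ℤ × ℤ)) : Prop where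
  nonempty : P.Nonempty
  conn : EConn (P : Set (ℤ × ℤ))
  compl : EConn ((P : Set (ℤ × ℤ))ᶜ)
  noPinch : NoPinch P

/-- the four unit directions -/
def IsDir (ν : ℂ) : Prop := ν = 1 ∨ ν = -1 ∨ ν = Complex.I ∨ ν = -Complex.I

/-- scalar product of vectors -/
def sp (z w : ℂ) : ℝ := z.re * w.re + z.im * w.im

/-- `p` lies on a straight wall with inner normal `ν`: near `p` the closed region is a half plane -/
def Wall (P : Finset (ℤ × ℤ)) (p ν : ℂ) : Prop :=
  IsDir ν ∧ ∃ r > 0, ∀ z : ℂ, ‖z - p‖ < r → (z ∈ Cl P ↔ 0 ≤ sp (z - p) ν)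

/-- convex corner (`ν` and `I * ν` are the inner normals of the two sides) -/
def Convex (P : Finset (ℤ × ℤ)) (p ν : ℂ) : Prop :=
  IsDir ν ∧ ∃ r > 0, ∀ z : ℂ, ‖z - p‖ < r →
    (z ∈ Cl P ↔ 0 ≤ sp (z - p) ν ∧ 0 ≤ sp (z - p) (Complex.I * ν))

/-- concave corner -/
def Concave (P : Finset (ℤ × ℤ)) (p ν : ℂ) : Prop :=
  IsDir ν ∧ ∃ r > 0, ∀ z : ℂ, ‖z - p‖ < r →
    (z ∈ Cl P ↔ 0 ≤ sp (z - p) ν ∨ 0 ≤ sp (z - p) (Complex.I * ν))

/-- vanishing normal derivative at the wall point `p`, uniformly near `p` -/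
def NeuAt (P : Finset (ℤ × ℤ)) (U : ℂ → ℝ) (p ν : ℂ) : Prop :=
  ∀ ε : ℝ, 0 < ε → ∃ δ : ℝ, 0 < δ ∧ ∀ q : ℂ, Wall P q ν → ‖q - p‖ < δ →
    ∀ t : ℝ, 0 < t → t < δ → |U (q + t * ν) - U q| ≤ ε * t

/-- harmonic functions with Neumann boundary values, continuous up to the boundary (corners included) off
the singular points `X` -/
structure NHarm (P : Finset (ℤ × ℤ)) (X : Set ℂ) (U : ℂ → ℝ) : Prop where
  harm : InnerProductSpace.HarmonicOnNhd U (Om P)
  cont : ContinuousOn U (Cl P \ X)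
  neu : ∀ p ν : ℂ, p ∉ X → Wall P p ν → NeuAt P U p ν

/-- at most logarithmic growth at `x` -/
def LogB (P : Finset (ℤ × ℤ)) (U : ℂ → ℝ) (x : ℂ) : Prop :=
  ∃ C : ℝ, ∀ z ∈ Cl P, z ≠ x → |U z| ≤ C + C * |Real.log ‖z - x‖|

/-- `U = c log |z - x| + O(1)` at `x` -/
def LogAt (P : Finset (ℤ × ℤ)) (U : ℂ → ℝ) (x : ℂ) (c : ℝ) : Prop :=
  ∃ r > 0, ∃ C : ℝ, ∀ z ∈ Cl P, z ≠ x → ‖z - x‖ < r → |U z - c * Real.log ‖z - x‖| ≤ C

/-- the `n`-th refinement of `P` -/
def rf (n : ℕ) (P : Finset (ℤ × ℤ)) : Finset (ℤ × ℤ) :=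
  P.biUnion fun f => (Finset.Ico ((n : ℤ) * f.1) (n * f.1 + n)) ×ˢ (Finset.Ico ((n : ℤ) * f.2) (n * f.2 + n))

/-- rounding of `n z` -/
def fl (n : ℕ) (z : ℂ) : ℤ × ℤ := (⌊(n : ℝ) * z.re⌋, ⌊(n : ℝ) * z.im⌋)

/-- extension of a lattice function to the plane -/
def ext (n : ℕ) (u : ℤ × ℤ → ℝ) (z : ℂ) : ℝ := u (fl n z)

end

end Pool.Agent.SixB
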