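import Pool.Agent.Lib.SixB.AN3
import Pool.Agent.Lib.SixB.S6Defs

/-!
# SixB, AN3P: Manhattan polygons are domains with straight walls

`MPoly P` implies `AN3.NDom (Om P) S (nu P)`; the uniqueness theorems N1 and N2 in the language of
`S6Defs`.
-/

set_option autoImplicit false

open Set Filter Topology Metric Complex InnerProductSpace

namespace Pool.Agent.SixB

/-- open unit square of the face `f` -/
def osq (f : ℤ × ℤ) : Set ℂ :=
  {z | (f.1 : ℝ) < z.re ∧ z.re < f.1 + 1 ∧ (f.2 : ℝ) < z.im ∧ z.im < f.2 + 1}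

theorem csq_eq (f : ℤ × ℤ) :
    csq f = Icc (f.1 : ℝ) (f.1 + 1) ×ℂ Icc (f.2 : ℝ) (f.2 + 1) := by
  ext z
  simp only [csq, mem_ofPred_eq, mem_reProdIm, mem_Icc]
  tauto

theorem osq_eq (f : ℤ × ℤ) :
    osq f = Ioo (f.1 : ℝ) (f.1 + 1) ×ℂ Ioo (f.2 : ℝ) (f.2 + 1) := by
  ext z
  simp only [osq, mem_ofPred_eq, mem_reProdIm, mem_Ioo]
  tauto

theorem isClosed_csq (f : ℤ × ℤ) : IsClosed (csq f) := by
  rw [csq_eq]
  exact isClosed_Icc.reProdIm isClosed_Icc

theorem isOpen_osq (f : ℤ × ℤ) : IsOpen (osq f) := by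
  rw [osq_eq]
  exact isOpen_Ioo.reProdIm isOpen_Ioo

theorem closure_osq (f : ℤ × ℤ) : closure (osq f) = csq f := by
  rw [osq_eq, csq_eq, closure_reProdIm, closure_Ioo (by linarith : (f.1 : ℝ) ≠ f.1 + 1).symm.symm,
    closure_Ioo (by linarith)]

theorem osq_subset_csq (f : ℤ × ℤ) : osq f ⊆ csq f := fun _ hz =>
  ⟨hz.1.le, hz.2.1.le, hz.2.2.1.le, hz.2.2.2.le⟩

theorem convex_osq (f : ℤ × ℤ) : _root_.Convex ℝ (osq f) := by
  rw [osq_eq]
  exact ((convex_Ioo _ _).linear_preimage Complex.reLm).inter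
    ((convex_Ioo _ _).linear_preimage Complex.imLm)

variable {P : Finset (ℤ × ℤ)}

theorem mem_Cl {z : ℂ} : z ∈ Cl P ↔ ∃ f ∈ P, z ∈ csq f := by
  simp [Cl]

theorem isClosed_Cl (P : Finset (ℤ × ℤ)) : IsClosed (Cl P) :=
  isClosed_biUnion_finset fun f _ => isClosed_csq f

theorem csq_subset_Cl {f : ℤ × ℤ} (hf : f ∈ P) : csq f ⊆ Cl P := fun _ hz =>
  mem_Cl.2 ⟨f, hf, hz⟩

theorem osq_subset_Om {f : ℤ × ℤ} (hf : f ∈ P) : osq f ⊆ Om P :=
  interior_maximal ((osq_subset_csq f).trans (csq_subset_Cl hf)) (isOpen_osq f)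

theorem isOpen_Om (P : Finset (ℤ × ℤ)) : IsOpen (Om P) := isOpen_interior

theorem Om_subset_Cl (P : Finset (ℤ × ℤ)) : Om P ⊆ Cl P := interior_subset

theorem closure_Om (P : Finset (ℤ × ℤ)) : closure (Om P) = Cl P := by
  refine Subset.antisymm (closure_minimal (Om_subset_Cl P) (isClosed_Cl P)) ?_
  intro z hz
  obtain ⟨f, hf, hzf⟩ := mem_Cl.1 hz
  rw [← closure_osq] at hzf
  exact closure_mono (osq_subset_Om hf) hzf

theorem frontier_Om (P : Finset (ℤ × ℤ)) : frontier (Om P) = Cl P \ Om P := by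
  rw [(isOpen_Om P).frontier_eq, closure_Om]

theorem isCompact_csq (f : ℤ × ℤ) : IsCompact (csq f) := by
  rw [csq_eq]
  exact isCompact_Icc.reProdIm isCompact_Icc

theorem isCompact_Cl (P : Finset (ℤ × ℤ)) : IsCompact (Cl P) :=
  P.isCompact_biUnion fun f _ => isCompact_csq f

/-! ## Connectedness -/

private theorem isOpen_rect (a b c d : ℝ) :
    IsOpen {z : ℂ | a < z.re ∧ z.re < b ∧ c < z.im ∧ z.im < d} := by
  have : {z : ℂ | a < z.re ∧ z.re < b ∧ c < z.im ∧ z.im < d} = Ioo a b ×ℂ Ioo c d := by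
    ext z
    simp only [mem_ofPred_eq, mem_reProdIm, mem_Ioo]
    tauto
  rw [this]
  exact isOpen_Ioo.reProdIm isOpen_Ioo

theorem rect_h {f : ℤ × ℤ} (hf : f ∈ P) (hg : (f.1 + 1, f.2) ∈ P) :
    {z : ℂ | (f.1 : ℝ) < z.re ∧ z.re < f.1 + 2 ∧ (f.2 : ℝ) < z.im ∧ z.im < f.2 + 1} ⊆ Om P := by
  refine interior_maximal ?_ (isOpen_rect _ _ _ _)
  rintro z ⟨h1, h2, h3, h4⟩
  rcases le_total z.re (f.1 + 1) with h | h
  · exact mem_Cl.2 ⟨f, hf, h1.le, h, h3.le, h4.le⟩
  · refine mem_Cl.2 ⟨_, hg, ?_, ?_, h3.le, h4.le⟩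
    · push_cast
      linarith
    · push_cast
      linarith

theorem rect_v {f : ℤ × ℤ} (hf : f ∈ P) (hg : (f.1, f.2 + 1) ∈ P) :
    {z : ℂ | (f.1 : ℝ) < z.re ∧ z.re < f.1 + 1 ∧ (f.2 : ℝ) < z.im ∧ z.im < f.2 + 2} ⊆ Om P := by
  refine interior_maximal ?_ (isOpen_rect _ _ _ _)
  rintro z ⟨h1, h2, h3, h4⟩
  rcases le_total z.im (f.2 + 1) with h | h
  · exact mem_Cl.2 ⟨f, hf, h1.le, h2.le, h3.le, h⟩
  · refine mem_Cl.2 ⟨_, hg, h1.le, h2.le, ?_, ?_⟩
    · push_cast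
      linarith
    · push_cast
      linarith

private theorem adj_h {f : ℤ × ℤ} (hf : f ∈ P) (hg : (f.1 + 1, f.2) ∈ P) :
    ((csq f ∩ Om P) ∩ (csq (f.1 + 1, f.2) ∩ Om P)).Nonempty := by
  have hm : (⟨(f.1 : ℝ) + 1, (f.2 : ℝ) + 1 / 2⟩ : ℂ) ∈ Om P := by
    apply rect_h hf hg
    refine ⟨?_, ?_, ?_, ?_⟩ <;> dsimp only <;> linarith
  refine ⟨⟨(f.1 : ℝ) + 1, (f.2 : ℝ) + 1 / 2⟩, ⟨⟨?_, ?_, ?_, ?_⟩, hm⟩, ⟨⟨?_, ?_, ?_, ?_⟩, hm⟩⟩ <;>
    dsimp only <;> push_cast <;> linarith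

private theorem adj_v {f : ℤ × ℤ} (hf : f ∈ P) (hg : (f.1, f.2 + 1) ∈ P) :
    ((csq f ∩ Om P) ∩ (csq (f.1, f.2 + 1) ∩ Om P)).Nonempty := by
  have hm : (⟨(f.1 : ℝ) + 1 / 2, (f.2 : ℝ) + 1⟩ : ℂ) ∈ Om P := by
    apply rect_v hf hg
    refine ⟨?_, ?_, ?_, ?_⟩ <;> dsimp only <;> linarith
  refine ⟨⟨(f.1 : ℝ) + 1 / 2, (f.2 : ℝ) + 1⟩, ⟨⟨?_, ?_, ?_, ?_⟩, hm⟩, ⟨⟨?_, ?_, ?_, ?_⟩, hm⟩⟩ <;>
    dsimp only <;> push_cast <;> linarith

theorem adj_inter {f g : ℤ × ℤ} (hf : f ∈ P) (hg : g ∈ P) (h : EAdj f g) :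
    ((csq f ∩ Om P) ∩ (csq g ∩ Om P)).Nonempty := by
  rcases h with rfl | rfl | rfl | rfl
  · exact adj_h hf hg
  · have e : ((f.1 - 1, f.2).1 + 1, (f.1 - 1, f.2).2) = f := by ext <;> simp
    have := adj_h (f := (f.1 - 1, f.2)) hg (by rw [e]; exact hf)
    rw [e, inter_comm] at this
    exact this
  · exact adj_v hf hg
  · have e : ((f.1, f.2 - 1).1, (f.1, f.2 - 1).2 + 1) = f := by ext <;> simp
    have := adj_v (f := (f.1, f.2 - 1)) hg (by rw [e]; exact hf)
    rw [e, inter_comm] at this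
    exact this

theorem isPreconnected_Om (h : MPoly P) : IsPreconnected (Om P) := by
  have h1 : Om P = ⋃ f ∈ P, csq f ∩ Om P := by
    ext z
    simp only [mem_iUnion, mem_inter_iff, exists_prop]
    constructor
    · intro hz
      obtain ⟨f, hf, hzf⟩ := mem_Cl.1 (Om_subset_Cl P hz)
      exact ⟨f, hf, hzf, hz⟩
    · rintro ⟨f, hf, hzf, hz⟩
      exact hz
  rw [h1]
  refine IsPreconnected.biUnion_of_reflTransGen (t := (P : Set (ℤ × ℤ))) ?_ ?_
  · intro f hf
    refine (convex_osq f).isPreconnected.subset_closure ?_ ?_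
    · exact fun z hz => ⟨osq_subset_csq f hz, osq_subset_Om hf hz⟩
    · rw [closure_osq]
      exact inter_subset_left
  · intro f hf g hg
    have h2 := h.conn f hf g hg
    clear hg
    induction h2 with
    | refl => exact Relation.ReflTransGen.refl
    | tail h3 h4 ih =>
      refine ih.tail ?_
      have h5 : ∀ b, Relation.ReflTransGen (fun a b => b ∈ (P : Set (ℤ × ℤ)) ∧ EAdj a b) f b →
          b ∈ (P : Set (ℤ × ℤ)) := by
        intro b hb
        cases hb with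
        | refl => exact hf
        | tail _ h6 => exact h6.1
      exact ⟨adj_inter (h5 _ h3) h4.1 h4.2, h5 _ h3⟩

/-! ## Local structure -/

private theorem int_eq {f : ℤ} {x : ℝ} {b : ℤ} (h1 : (b : ℝ) < x) (h2 : x < b + 1)
    (h3 : (f : ℝ) ≤ x) (h4 : x ≤ f + 1) : f = b := by
  have g1 : (f : ℝ) < ((b + 1 : ℤ) : ℝ) := by push_cast; linarith
  have g2 : (b : ℝ) < ((f + 1 : ℤ) : ℝ) := by push_cast; linarith
  have g3 := Int.cast_lt.1 g1
  have g4 := Int.cast_lt.1 g2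
  omega

private theorem int_eq2 {f : ℤ} {x : ℝ} {a : ℤ} (h1 : (a : ℝ) - 1 < x) (h2 : x < a + 1)
    (h3 : (f : ℝ) ≤ x) (h4 : x ≤ f + 1) : f = a ∨ f = a - 1 := by
  have g1 : (f : ℝ) < ((a + 1 : ℤ) : ℝ) := by push_cast; linarith
  have g2 : ((a - 1 : ℤ) : ℝ) < ((f + 1 : ℤ) : ℝ) := by push_cast; linarith
  have g3 := Int.cast_lt.1 g1
  have g4 := Int.cast_lt.1 g2
  omega

/-- points of the closed region off the grid lines are interior -/
theorem mem_Om_of_off {z : ℂ} {a b : ℤ} (h1 : (a : ℝ) < z.re) (h2 : z.re < a + 1)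
    (h3 : (b : ℝ) < z.im) (h4 : z.im < b + 1) (hz : z ∈ Cl P) : z ∈ Om P := by
  obtain ⟨f, hf, g1, g2, g3, g4⟩ := mem_Cl.1 hz
  have e1 := int_eq h1 h2 g1 g2
  have e2 := int_eq h3 h4 g3 g4
  have e3 : f = (a, b) := Prod.ext e1 e2
  rw [e3] at hf
  exact osq_subset_Om hf ⟨h1, h2, h3, h4⟩

/-- near a vertical grid segment -/
theorem mem_Cl_v {w : ℂ} {a b : ℤ} (h1 : (a : ℝ) - 1 < w.re) (h2 : w.re < a + 1)
    (h3 : (b : ℝ) < w.im) (h4 : w.im < b + 1) :
    w ∈ Cl P ↔ ((a, b) ∈ P ∧ (a : ℝ) ≤ w.re) ∨ ((a - 1, b) ∈ P ∧ w.re ≤ a) := by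
  constructor
  · intro hw
    obtain ⟨f, hf, g1, g2, g3, g4⟩ := mem_Cl.1 hw
    have e2 := int_eq h3 h4 g3 g4
    rcases int_eq2 h1 h2 g1 g2 with e1 | e1
    · left
      have e3 : f = (a, b) := Prod.ext e1 e2
      rw [e3] at hf g1
      exact ⟨hf, g1⟩
    · right
      have e3 : f = (a - 1, b) := Prod.ext e1 e2
      rw [e3] at hf g2
      push_cast at g2
      exact ⟨hf, by linarith⟩
  · rintro (⟨hf, g⟩ | ⟨hf, g⟩)
    · exact mem_Cl.2 ⟨_, hf, g, h2.le, h3.le, h4.le⟩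
    · refine mem_Cl.2 ⟨_, hf, ?_, ?_, h3.le, h4.le⟩
      · push_cast
        exact h1.le
      · push_cast
        linarith

/-- near a horizontal grid segment -/
theorem mem_Cl_h {w : ℂ} {a b : ℤ} (h1 : (a : ℝ) < w.re) (h2 : w.re < a + 1)
    (h3 : (b : ℝ) - 1 < w.im) (h4 : w.im < b + 1) :
    w ∈ Cl P ↔ ((a, b) ∈ P ∧ (b : ℝ) ≤ w.im) ∨ ((a, b - 1) ∈ P ∧ w.im ≤ b) := by
  constructor
  · intro hw
    obtain ⟨f, hf, g1, g2, g3, g4⟩ := mem_Cl.1 hw
    have e1 := int_eq h1 h2 g1 g2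
    rcases int_eq2 h3 h4 g3 g4 with e2 | e2
    · left
      have e3 : f = (a, b) := Prod.ext e1 e2
      rw [e3] at hf g3
      exact ⟨hf, g3⟩
    · right
      have e3 : f = (a, b - 1) := Prod.ext e1 e2
      rw [e3] at hf g4
      push_cast at g4
      exact ⟨hf, by linarith⟩
  · rintro (⟨hf, g⟩ | ⟨hf, g⟩)
    · exact mem_Cl.2 ⟨_, hf, h1.le, h2.le, g, h4.le⟩
    · refine mem_Cl.2 ⟨_, hf, h1.le, h2.le, ?_, ?_⟩
      · push_cast
        exact h3.le
      · push_cast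
        linarith

private theorem re_im_lt {z w : ℂ} {r : ℝ} (h : ‖w - z‖ < r) :
    |w.re - z.re| < r ∧ |w.im - z.im| < r := by
  constructor
  · have := Complex.abs_re_le_norm (w - z)
    rw [Complex.sub_re] at this
    linarith
  · have := Complex.abs_im_le_norm (w - z)
    rw [Complex.sub_im] at this
    linarith

/-- a frontier point on a vertical grid segment -/
theorem wall_v {z : ℂ} {a b : ℤ} (hz : z ∈ frontier (Om P)) (h1 : z.re = a)
    (h3 : (b : ℝ) < z.im) (h4 : z.im < b + 1) :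
    ((a, b) ∈ P ∧ (a - 1, b) ∉ P ∧ Wall P z 1) ∨ ((a, b) ∉ P ∧ (a - 1, b) ∈ P ∧ Wall P z (-1)) := by
  rw [frontier_Om] at hz
  obtain ⟨hzC, hzO⟩ := hz
  have hr : 0 < min (min (z.im - b) (b + 1 - z.im)) 1 :=
    lt_min (lt_min (by linarith) (by linarith)) one_pos
  have key : ∀ w : ℂ, ‖w - z‖ < min (min (z.im - b) (b + 1 - z.im)) 1 →
      (w ∈ Cl P ↔ ((a, b) ∈ P ∧ (a : ℝ) ≤ w.re) ∨ ((a - 1, b) ∈ P ∧ w.re ≤ a)) := by
    intro w hw
    obtain ⟨g1, g2⟩ := re_im_lt hw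
    have m1 := min_le_left (min (z.im - b) (b + 1 - z.im)) 1
    have m2 := min_le_right (min (z.im - b) (b + 1 - z.im)) 1
    have m3 := min_le_left (z.im - b) (b + 1 - z.im)
    have m4 := min_le_right (z.im - b) (b + 1 - z.im)
    rw [abs_lt] at g1 g2
    rw [h1] at g1
    exact mem_Cl_v (by linarith) (by linarith) (by linarith) (by linarith)
  have h0 := (key z (by rw [sub_self, norm_zero]; exact hr)).1 hzC
  have hboth : ¬ ((a, b) ∈ P ∧ (a - 1, b) ∈ P) := by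
    rintro ⟨p1, p2⟩
    have e : ((a - 1, b).1 + 1, (a - 1, b).2) = (a, b) := by ext <;> simp
    refine hzO (rect_h (f := (a - 1, b)) p2 (by rw [e]; exact p1) ⟨?_, ?_, h3, h4⟩)
    · push_cast
      rw [h1]
      linarith
    · push_cast
      rw [h1]
      linarith
  by_cases p1 : (a, b) ∈ P
  · have p2 : (a - 1, b) ∉ P := fun p2 => hboth ⟨p1, p2⟩
    refine Or.inl ⟨p1, p2, Or.inl rfl, _, hr, fun w hw => ?_⟩
    rw [key w hw]
    simp only [p1, p2, true_and, false_and, or_false, sp, Complex.sub_re, Complex.sub_im,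
      Complex.one_re, Complex.one_im, mul_one, mul_zero, add_zero, h1, sub_nonneg]
  · have p2 : (a - 1, b) ∈ P := by
      rcases h0 with h0 | h0
      · exact absurd h0.1 p1
      · exact h0.1
    refine Or.inr ⟨p1, p2, Or.inr (Or.inl rfl), _, hr, fun w hw => ?_⟩
    rw [key w hw]
    simp only [p1, p2, true_and, false_and, false_or, sp, Complex.sub_re, Complex.sub_im,
      Complex.neg_re, Complex.neg_im, Complex.one_re, Complex.one_im, h1]
    constructor <;> intro h <;> linarith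

/-- a frontier point on a horizontal grid segment -/
theorem wall_h {z : ℂ} {a b : ℤ} (hz : z ∈ frontier (Om P)) (h1 : (a : ℝ) < z.re)
    (h2 : z.re < a + 1) (h3 : z.im = b) :
    ((a, b) ∈ P ∧ (a, b - 1) ∉ P ∧ Wall P z I) ∨ ((a, b) ∉ P ∧ (a, b - 1) ∈ P ∧ Wall P z (-I)) := by
  rw [frontier_Om] at hz
  obtain ⟨hzC, hzO⟩ := hz
  have hr : 0 < min (min (z.re - a) (a + 1 - z.re)) 1 :=
    lt_min (lt_min (by linarith) (by linarith)) one_pos
  have key : ∀ w : ℂ, ‖w - z‖ < min (min (z.re - a) (a + 1 - z.re)) 1 →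
      (w ∈ Cl P ↔ ((a, b) ∈ P ∧ (b : ℝ) ≤ w.im) ∨ ((a, b - 1) ∈ P ∧ w.im ≤ b)) := by
    intro w hw
    obtain ⟨g1, g2⟩ := re_im_lt hw
    have m1 := min_le_left (min (z.re - a) (a + 1 - z.re)) 1
    have m2 := min_le_right (min (z.re - a) (a + 1 - z.re)) 1
    have m3 := min_le_left (z.re - a) (a + 1 - z.re)
    have m4 := min_le_right (z.re - a) (a + 1 - z.re)
    rw [abs_lt] at g1 g2
    rw [h3] at g2
    exact mem_Cl_h (by linarith) (by linarith) (by linarith) (by linarith)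
  have h0 := (key z (by rw [sub_self, norm_zero]; exact hr)).1 hzC
  have hboth : ¬ ((a, b) ∈ P ∧ (a, b - 1) ∈ P) := by
    rintro ⟨p1, p2⟩
    have e : ((a, b - 1).1, (a, b - 1).2 + 1) = (a, b) := by ext <;> simp
    refine hzO (rect_v (f := (a, b - 1)) p2 (by rw [e]; exact p1) ⟨h1, h2, ?_, ?_⟩)
    · push_cast
      rw [h3]
      linarith
    · push_cast
      rw [h3]
      linarith
  by_cases p1 : (a, b) ∈ P
  · have p2 : (a, b - 1) ∉ P := fun p2 => hboth ⟨p1, p2⟩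
    refine Or.inl ⟨p1, p2, Or.inr (Or.inr (Or.inl rfl)), _, hr, fun w hw => ?_⟩
    rw [key w hw]
    simp only [p1, p2, true_and, false_and, or_false, sp, Complex.sub_re, Complex.sub_im,
      Complex.I_re, Complex.I_im, mul_one, mul_zero, zero_add, h3, sub_nonneg]
  · have p2 : (a, b - 1) ∈ P := by
      rcases h0 with h0 | h0
      · exact absurd h0.1 p1
      · exact h0.1
    refine Or.inr ⟨p1, p2, Or.inr (Or.inr (Or.inr rfl)), _, hr, fun w hw => ?_⟩
    rw [key w hw]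
    simp only [p1, p2, true_and, false_and, false_or, sp, Complex.sub_re, Complex.sub_im,
      Complex.neg_re, Complex.neg_im, Complex.I_re, Complex.I_im, h3]
    constructor <;> intro h <;> linarith

/-- lattice points -/
def IsInt (z : ℂ) : Prop := ∃ a b : ℤ, z = ⟨a, b⟩

/-- a frontier point which is not a lattice point is a wall point -/
theorem exists_wall {z : ℂ} (hz : z ∈ frontier (Om P)) (hi : ¬ IsInt z) : ∃ ν, Wall P z ν := by
  have f1 := Int.floor_le z.re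
  have f2 := Int.lt_floor_add_one z.re
  have f3 := Int.floor_le z.im
  have f4 := Int.lt_floor_add_one z.im
  rcases f1.eq_or_lt with f1 | f1
  · rcases f3.eq_or_lt with f3 | f3
    · exact absurd ⟨_, _, Complex.ext f1.symm f3.symm⟩ hi
    · rcases wall_v hz f1.symm f3 f4 with h | h
      · exact ⟨_, h.2.2⟩
      · exact ⟨_, h.2.2⟩
  · rcases f3.eq_or_lt with f3 | f3
    · rcases wall_h hz f1 f2 f3.symm with h | h
      · exact ⟨_, h.2.2⟩
      · exact ⟨_, h.2.2⟩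
    · rw [frontier_Om] at hz
      exact absurd (mem_Om_of_off f1 f2 f3 f4 hz.1) hz.2

/-! ## Normals -/

theorem IsDir.norm_eq {ν : ℂ} (h : IsDir ν) : ‖ν‖ = 1 := by
  rcases h with rfl | rfl | rfl | rfl <;> simp

theorem sp_eq (z w : ℂ) : sp z w = ((starRingEnd ℂ z) * w).re := by
  simp only [sp, Complex.mul_re, Complex.conj_re, Complex.conj_im]
  ring

theorem sp_self_of_isDir {ν : ℂ} (h : IsDir ν) : sp ν ν = 1 := by
  rcases h with rfl | rfl | rfl | rfl <;> simp [sp]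

theorem Wall.unique {z ν ν' : ℂ} (h : Wall P z ν) (h' : Wall P z ν') : ν = ν' := by
  obtain ⟨hd, r, hr, hw⟩ := h
  obtain ⟨hd', r', hr', hw'⟩ := h'
  by_contra hne
  have hlt : sp ν ν' < 1 := by
    rcases hd with rfl | rfl | rfl | rfl <;> rcases hd' with rfl | rfl | rfl | rfl <;>
      simp [sp] at hne ⊢
  have hlt' : sp ν' ν < 1 := by
    have : sp ν' ν = sp ν ν' := by
      simp only [sp]
      ring
    rw [this]
    exact hlt
  have hpos : 0 < ‖ν - ν'‖ := norm_pos_iff.2 (sub_ne_zero.2 hne)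
  set t : ℝ := min r r' / (2 * ‖ν - ν'‖) with ht
  have ht0 : 0 < t := by
    have := lt_min hr hr'
    positivity
  have hn : ‖z + t * (ν - ν') - z‖ < min r r' := by
    have e : z + t * (ν - ν') - z = t * (ν - ν') := by ring
    rw [e, norm_mul, Complex.norm_real, Real.norm_of_nonneg ht0.le, ht]
    have := lt_min hr hr'
    have e2 : min r r' / (2 * ‖ν - ν'‖) * ‖ν - ν'‖ = min r r' / 2 := by
      field_simp
    rw [e2]
    linarith
  have h1 := hw (z + t * (ν - ν')) (hn.trans_le (min_le_left _ _))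
  have h2 := hw' (z + t * (ν - ν')) (hn.trans_le (min_le_right _ _))
  have e1 : sp (z + t * (ν - ν') - z) ν = t * (sp ν ν - sp ν' ν) := by
    simp only [sp, Complex.add_re, Complex.add_im, Complex.sub_re, Complex.sub_im,
      Complex.mul_re, Complex.mul_im, Complex.ofReal_re, Complex.ofReal_im]
    ring
  have e2 : sp (z + t * (ν - ν') - z) ν' = t * (sp ν ν' - sp ν' ν') := by
    simp only [sp, Complex.add_re, Complex.add_im, Complex.sub_re, Complex.sub_im,
      Complex.mul_re, Complex.mul_im, Complex.ofReal_re, Complex.ofReal_im]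
    ring
  rw [sp_self_of_isDir hd] at e1
  rw [sp_self_of_isDir hd'] at e2
  rw [e1] at h1
  rw [e2] at h2
  have h3 := h1.2 (mul_nonneg ht0.le (by linarith))
  have h4 := h2.1 h3
  have h5 : t * (sp ν ν' - 1) < 0 := mul_neg_of_pos_of_neg ht0 (by linarith)
  linarith

/-- an open half disc at a wall point -/
theorem Wall.half_disc {z ν : ℂ} (h : Wall P z ν) : ∃ r > (0 : ℝ), ∀ w : ℂ, ‖w - z‖ < r →
    (0 < sp (w - z) ν → w ∈ Om P) ∧ (sp (w - z) ν < 0 → w ∉ Cl P) ∧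
    (sp (w - z) ν = 0 → Wall P w ν) := by
  obtain ⟨hd, r, hr, hw⟩ := h
  refine ⟨r, hr, fun w hwr => ⟨fun hs => ?_, fun hs hc => ?_, fun hs => ?_⟩⟩
  · have hopen : IsOpen {x : ℂ | ‖x - z‖ < r ∧ 0 < sp (x - z) ν} := by
      have o1 : IsOpen {x : ℂ | ‖x - z‖ < r} := isOpen_lt (by fun_prop) continuous_const
      have o2 : IsOpen {x : ℂ | 0 < sp (x - z) ν} := by
        refine isOpen_lt continuous_const ?_
        simp only [sp]
        fun_prop
      exact o1.inter o2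
    have hsub : {x : ℂ | ‖x - z‖ < r ∧ 0 < sp (x - z) ν} ⊆ Cl P := fun x hx =>
      (hw x hx.1).2 hx.2.le
    exact interior_maximal hsub hopen ⟨hwr, hs⟩
  · have := (hw w hwr).1 hc
    linarith
  · refine ⟨hd, r - ‖w - z‖, by linarith, fun x hx => ?_⟩
    have hx' : ‖x - z‖ < r := by
      have : x - z = (x - w) + (w - z) := by ring
      rw [this]
      refine (norm_add_le _ _).trans_lt ?_
      linarith
    rw [hw x hx']
    have : sp (x - z) ν = sp (x - w) ν := by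
      have e : sp (x - z) ν = sp (x - w) ν + sp (w - z) ν := by
        simp only [sp, Complex.sub_re, Complex.sub_im]
        ring
      rw [e, hs, add_zero]
    rw [this]

theorem Wall.mem_frontier {z ν : ℂ} (h : Wall P z ν) : z ∈ frontier (Om P) := by
  rw [frontier_Om]
  obtain ⟨hd, r, hr, hw⟩ := h
  refine ⟨(hw z (by rw [sub_self, norm_zero]; exact hr)).2 (by simp [sp]), fun hO => ?_⟩
  have hO' : ∀ᶠ w in 𝓝 z, w ∈ Cl P :=
    Filter.mem_of_superset ((isOpen_Om P).mem_nhds hO) (Om_subset_Cl P)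
  obtain ⟨ε, hε, hball⟩ := Metric.eventually_nhds_iff.1 hO'
  set t : ℝ := min r ε / 2 with ht
  have h0 := lt_min hr hε
  have m1 := min_le_left r ε
  have m2 := min_le_right r ε
  have ht0 : 0 < t := by positivity
  have hn : ‖z + (-t : ℝ) * ν - z‖ = t := by
    have e : z + (-t : ℝ) * ν - z = (-t : ℝ) * ν := by ring
    rw [e, norm_mul, Complex.norm_real, hd.norm_eq, mul_one, norm_neg, Real.norm_of_nonneg ht0.le]
  have h1 := hball (y := z + (-t : ℝ) * ν) (by rw [dist_eq_norm, hn]; linarith)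
  have h2 := (hw (z + (-t : ℝ) * ν) (by rw [hn]; linarith)).1 h1
  have e1 : sp (z + (-t : ℝ) * ν - z) ν = -t * sp ν ν := by
    simp only [sp, Complex.add_re, Complex.add_im, Complex.sub_re, Complex.sub_im,
      Complex.mul_re, Complex.mul_im, Complex.ofReal_re, Complex.ofReal_im]
    ring
  rw [e1, sp_self_of_isDir hd] at h2
  linarith

theorem Wall.disc {z ν : ℂ} (h : Wall P z ν) : ∃ ρ > (0 : ℝ), ball (z + ρ * ν) ρ ⊆ Om P := by
  obtain ⟨r, hr, hw⟩ := h.half_disc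
  have hd := h.1
  refine ⟨r / 2, half_pos hr, fun w hwb => ?_⟩
  rw [mem_ball, dist_eq_norm] at hwb
  have hd1 : sp ν ν = 1 := sp_self_of_isDir hd
  have hs : ‖w - (z + (r / 2 : ℝ) * ν)‖ ^ 2 =
      ‖w - z‖ ^ 2 - 2 * (r / 2) * sp (w - z) ν + (r / 2) ^ 2 * sp ν ν := by
    rw [← Complex.normSq_eq_norm_sq, ← Complex.normSq_eq_norm_sq]
    simp only [Complex.normSq_apply, sp, Complex.add_re, Complex.add_im, Complex.sub_re,
      Complex.sub_im, Complex.mul_re, Complex.mul_im, Complex.ofReal_re, Complex.ofReal_im]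
    ring
  have hlt : ‖w - (z + (r / 2 : ℝ) * ν)‖ ^ 2 < (r / 2) ^ 2 :=
    pow_lt_pow_left₀ hwb (norm_nonneg _) two_ne_zero
  have h1 : ‖w - z‖ < r := by
    have e : w - z = (w - (z + (r / 2 : ℝ) * ν)) + (r / 2 : ℝ) * ν := by ring
    rw [e]
    refine (norm_add_le _ _).trans_lt ?_
    rw [norm_mul, Complex.norm_real, hd.norm_eq, mul_one, Real.norm_of_nonneg (by positivity)]
    linarith
  refine (hw w h1).1 ?_
  rw [hs, hd1] at hlt
  by_contra hcon
  push Not at hcon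
  have h2 : r * sp (w - z) ν ≤ 0 := mul_nonpos_of_nonneg_of_nonpos hr.le hcon
  nlinarith [sq_nonneg ‖w - z‖]

open Classical in
/-- the inner normal at a wall point -/
noncomputable def nu (P : Finset (ℤ × ℤ)) (z : ℂ) : ℂ :=
  if h : ∃ ν, Wall P z ν then h.choose else 1

theorem Wall.nu_eq {z ν : ℂ} (h : Wall P z ν) : nu P z = ν := by
  have hex : ∃ ν, Wall P z ν := ⟨ν, h⟩
  rw [nu, dif_pos hex]
  exact hex.choose_spec.unique h

/-! ## Corners -/

/-- at a lattice point the walls are radial and their normals have a positive inner product with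
one vector -/
theorem radial_int (hP : NoPinch P) (a b : ℤ) : ∃ v : ℂ, ∀ z ∈ frontier (Om P), z ≠ ⟨a, b⟩ →
    ‖z - ⟨a, b⟩‖ < 1 → ((starRingEnd ℂ (z - ⟨a, b⟩)) * nu P z).re = 0 ∧
      1 ≤ ((starRingEnd ℂ v) * nu P z).re := by
  classical
  refine ⟨(if (a, b) ∈ P then (⟨1, 1⟩ : ℂ) else 0) + (if (a - 1, b) ∈ P then (⟨-1, 1⟩ : ℂ) else 0) +
    (if (a - 1, b - 1) ∈ P then (⟨-1, -1⟩ : ℂ) else 0) +
    (if (a, b - 1) ∈ P then (⟨1, -1⟩ : ℂ) else 0), ?_⟩
  intro z hz hne hlt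
  obtain ⟨g1, g2⟩ := re_im_lt hlt
  dsimp only at g1 g2
  rw [abs_lt] at g1 g2
  obtain ⟨hp1, hp2⟩ := hP a b
  have hzC := hz
  rw [frontier_Om] at hzC
  rcases lt_trichotomy z.re a with h | h | h
  · -- west
    rcases lt_trichotomy z.im b with h' | h' | h'
    · exact absurd (mem_Om_of_off (a := a - 1) (b := b - 1) (by push_cast; linarith)
        (by push_cast; linarith) (by push_cast; linarith) (by push_cast; linarith) hzC.1) hzC.2
    · rcases wall_h (a := a - 1) (b := b) hz (by push_cast; linarith) (by push_cast; linarith) h'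
        with ⟨q1, q2, q3⟩ | ⟨q1, q2, q3⟩
      · rw [q3.nu_eq]
        refine ⟨by simp [h'], ?_⟩
        by_cases p1 : (a, b) ∈ P <;> by_cases p2 : (a, b - 1) ∈ P <;> simp_all
      · rw [q3.nu_eq]
        refine ⟨by simp [h'], ?_⟩
        by_cases p1 : (a, b) ∈ P <;> by_cases p2 : (a, b - 1) ∈ P <;> simp_all
    · exact absurd (mem_Om_of_off (a := a - 1) (b := b) (by push_cast; linarith)
        (by push_cast; linarith) (by linarith) (by linarith) hzC.1) hzC.2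
  · rcases lt_trichotomy z.im b with h' | h' | h'
    · -- south
      rcases wall_v (a := a) (b := b - 1) hz h (by push_cast; linarith) (by push_cast; linarith)
        with ⟨q1, q2, q3⟩ | ⟨q1, q2, q3⟩
      · rw [q3.nu_eq]
        refine ⟨by simp [h], ?_⟩
        by_cases p1 : (a, b) ∈ P <;> by_cases p2 : (a - 1, b) ∈ P <;> simp_all
      · rw [q3.nu_eq]
        refine ⟨by simp [h], ?_⟩
        by_cases p1 : (a, b) ∈ P <;> by_cases p2 : (a - 1, b) ∈ P <;> simp_all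
    · exact absurd (Complex.ext h h') hne
    · -- north
      rcases wall_v (a := a) (b := b) hz h (by linarith) (by linarith)
        with ⟨q1, q2, q3⟩ | ⟨q1, q2, q3⟩
      · rw [q3.nu_eq]
        refine ⟨by simp [h], ?_⟩
        by_cases p1 : (a, b - 1) ∈ P <;> by_cases p2 : (a - 1, b - 1) ∈ P <;> simp_all
      · rw [q3.nu_eq]
        refine ⟨by simp [h], ?_⟩
        by_cases p1 : (a, b - 1) ∈ P <;> by_cases p2 : (a - 1, b - 1) ∈ P <;> simp_all
  · -- east
    rcases lt_trichotomy z.im b with h' | h' | h'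
    · exact absurd (mem_Om_of_off (a := a) (b := b - 1) (by linarith)
        (by linarith) (by push_cast; linarith) (by push_cast; linarith) hzC.1) hzC.2
    · rcases wall_h (a := a) (b := b) hz (by linarith) (by linarith) h'
        with ⟨q1, q2, q3⟩ | ⟨q1, q2, q3⟩
      · rw [q3.nu_eq]
        refine ⟨by simp [h'], ?_⟩
        by_cases p1 : (a - 1, b) ∈ P <;> by_cases p2 : (a - 1, b - 1) ∈ P <;> simp_all
      · rw [q3.nu_eq]
        refine ⟨by simp [h'], ?_⟩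
        by_cases p1 : (a - 1, b) ∈ P <;> by_cases p2 : (a - 1, b - 1) ∈ P <;> simp_all
    · exact absurd (mem_Om_of_off (a := a) (b := b) (by linarith)
        (by linarith) (by linarith) (by linarith) hzC.1) hzC.2

/-! ## The domain -/

theorem finite_int (P : Finset (ℤ × ℤ)) : {z : ℂ | z ∈ frontier (Om P) ∧ IsInt z}.Finite := by
  have h1 : {z : ℂ | z ∈ frontier (Om P) ∧ IsInt z} ⊆
      ⋃ f ∈ P, ((fun g : ℤ × ℤ => (⟨g.1, g.2⟩ : ℂ)) ''
        ((Finset.Icc f.1 (f.1 + 1)) ×ˢ (Finset.Icc f.2 (f.2 + 1)) : Finset (ℤ × ℤ))) := by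
    rintro z ⟨hz, a, b, rfl⟩
    rw [frontier_Om] at hz
    obtain ⟨f, hf, g1, g2, g3, g4⟩ := mem_Cl.1 hz.1
    simp only [mem_iUnion]
    refine ⟨f, hf, (a, b), ?_, rfl⟩
    dsimp only at g1 g2 g3 g4
    have h2 : f.1 ≤ a := by exact_mod_cast g1
    have h3 : a ≤ f.1 + 1 := by exact_mod_cast g2
    have h4 : f.2 ≤ b := by exact_mod_cast g3
    have h5 : b ≤ f.2 + 1 := by exact_mod_cast g4
    simp only [Finset.coe_product, Finset.coe_Icc, mem_prod, mem_Icc]
    exact ⟨⟨h2, h3⟩, ⟨h4, h5⟩⟩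
  refine Finite.subset ?_ h1
  exact P.finite_toSet.biUnion fun f _ => (Finset.finite_toSet _).image _

/-- the special points: lattice points of the frontier and the points of `X` -/
noncomputable def spc (P : Finset (ℤ × ℤ)) {X : Set ℂ} (hX : X.Finite) : Finset ℂ :=
  ((finite_int P).union (hX.subset (inter_subset_left (s := X) (t := frontier (Om P))))).toFinset

theorem mem_spc {X : Set ℂ} (hX : X.Finite) {z : ℂ} :
    z ∈ spc P hX ↔ z ∈ frontier (Om P) ∧ (IsInt z ∨ z ∈ X) := by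
  simp only [spc, Finite.mem_toFinset, mem_union, mem_ofPred_eq, mem_inter_iff]
  tauto

theorem ndom (h : MPoly P) {X : Set ℂ} (hX : X.Finite) :
    AN3.NDom (Om P) (spc P hX) (nu P) := by
  have hwall : ∀ z ∈ frontier (Om P), z ∉ spc P hX → ∃ ν, Wall P z ν := by
    intro z hz hzS
    refine exists_wall hz fun hi => hzS ((mem_spc hX).2 ⟨hz, Or.inl hi⟩)
  refine ⟨isOpen_Om P, ?_, isPreconnected_Om h, ?_, ?_, ?_, ?_⟩
  · exact (isCompact_Cl P).isBounded.subset (Om_subset_Cl P)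
  · intro p hp hpO
    have := ((mem_spc hX).1 hp).1
    rw [frontier_Om] at this
    exact this.2 hpO
  · intro z hz hzS
    obtain ⟨ν, hν⟩ := hwall z hz hzS
    rw [hν.nu_eq]
    exact hν.1.norm_eq
  · intro z hz hzS
    obtain ⟨ν, hν⟩ := hwall z hz hzS
    rw [hν.nu_eq]
    exact hν.disc
  · intro p hp
    -- the other special points are far
    have hfar : ∃ r > (0 : ℝ), ∀ z ∈ spc P hX, z ≠ p → r ≤ ‖z - p‖ := by
      have hfin : ((spc P hX).erase p : Set ℂ).Finite := Finset.finite_toSet _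
      have hcl : IsClosed ((spc P hX).erase p : Set ℂ) := hfin.isClosed
      have hmem : p ∈ ((spc P hX).erase p : Set ℂ)ᶜ := by simp
      obtain ⟨r, hr, hball⟩ := Metric.isOpen_iff.1 hcl.isOpen_compl p hmem
      refine ⟨r, hr, fun z hz hzp => ?_⟩
      by_contra hcon
      push Not at hcon
      have hzb : z ∈ ball p r := by rw [mem_ball, dist_eq_norm]; exact hcon
      exact hball hzb (by simp [hz, hzp])
    obtain ⟨r₁, hr₁, hfar⟩ := hfar
    have hpS := (mem_spc hX).1 hp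
    by_cases hi : IsInt p
    · obtain ⟨a, b, rfl⟩ := hi
      obtain ⟨v, hv⟩ := radial_int h.noPinch a b
      refine ⟨min r₁ 1, lt_min hr₁ one_pos, v, 1, one_pos, fun z hz hzp hzr => ?_⟩
      refine ⟨fun hzS => ?_, hv z hz hzp (hzr.trans_le (min_le_right _ _))⟩
      have := hfar z hzS hzp
      exact absurd (hzr.trans_le (min_le_left _ _)) (not_lt.2 this)
    · obtain ⟨ν, hν⟩ := exists_wall hpS.1 hi
      obtain ⟨r₂, hr₂, hw⟩ := hν.half_disc
      refine ⟨min r₁ r₂, lt_min hr₁ hr₂, ν, 1, one_pos, fun z hz hzp hzr => ?_⟩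
      have hzf := hz
      rw [frontier_Om] at hzf
      obtain ⟨w1, w2, w3⟩ := hw z (hzr.trans_le (min_le_right _ _))
      have hs : sp (z - p) ν = 0 := by
        rcases lt_trichotomy (sp (z - p) ν) 0 with hs | hs | hs
        · exact absurd hzf.1 (w2 hs)
        · exact hs
        · exact absurd (w1 hs) hzf.2
      have hnu : nu P z = ν := (w3 hs).nu_eq
      refine ⟨fun hzS => ?_, ?_, ?_⟩
      · have := hfar z hzS hzp
        exact absurd (hzr.trans_le (min_le_left _ _)) (not_lt.2 this)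
      · rw [hnu, ← sp_eq]
        exact hs
      · rw [hnu, ← sp_eq, sp_self_of_isDir hν.1]

theorem NHarm.toAN3 {X : Set ℂ} (hX : X.Finite) {U : ℂ → ℝ} (hU : NHarm P X U) :
    AN3.NHarm (Om P) (spc P hX) (nu P) U := by
  refine ⟨hU.harm, ?_, ?_⟩
  · rintro z ⟨hz, hzS⟩
    by_cases hzO : z ∈ Om P
    · exact (hU.harm z hzO).1.continuousAt.continuousWithinAt
    · rw [closure_Om] at hz ⊢
      have hzf : z ∈ frontier (Om P) := by
        rw [frontier_Om]
        exact ⟨hz, hzO⟩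
      have hzX : z ∉ X := fun hzX => hzS ((mem_spc hX).2 ⟨hzf, Or.inr hzX⟩)
      refine (hU.cont z ⟨hz, hzX⟩).mono_of_mem_nhdsWithin ?_
      filter_upwards [nhdsWithin_le_nhds (hX.isClosed.isOpen_compl.mem_nhds hzX),
        self_mem_nhdsWithin] with y hy1 hy2
      exact ⟨hy2.1, hy1⟩
  · intro z hz hzS
    have hi : ¬ IsInt z := fun hi => hzS ((mem_spc hX).2 ⟨hz, Or.inl hi⟩)
    have hzX : z ∉ X := fun hzX => hzS ((mem_spc hX).2 ⟨hz, Or.inr hzX⟩)
    obtain ⟨ν, hν⟩ := exists_wall hz hi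
    rw [hν.nu_eq]
    intro κ hκ
    obtain ⟨δ, hδ, hd⟩ := hU.neu z ν hzX hν κ hκ
    have h0 : ∀ᶠ t : ℝ in 𝓝[>] 0, (0 : ℝ) < t := eventually_mem_nhdsWithin
    have h1 : ∀ᶠ t : ℝ in 𝓝[>] 0, t < δ := nhdsWithin_le_nhds (Iio_mem_nhds hδ)
    filter_upwards [h0, h1] with t ht0 ht1
    exact hd z hν (by rw [sub_self, norm_zero]; exact hδ) t ht0 ht1

theorem NHarm.neg {X : Set ℂ} {U : ℂ → ℝ} (h : NHarm P X U) : NHarm P X (fun z => -U z) := by
  refine ⟨h.harm.neg, h.cont.neg, fun p ν hp hw ε hε => ?_⟩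
  obtain ⟨δ, hδ, hd⟩ := h.neu p ν hp hw ε hε
  refine ⟨δ, hδ, fun q hq hqp t ht0 ht1 => ?_⟩
  have e : -U (q + t * ν) - -U q = -(U (q + t * ν) - U q) := by ring
  rw [e, abs_neg]
  exact hd q hq hqp t ht0 ht1

theorem NHarm.sub {X : Set ℂ} {U V : ℂ → ℝ} (h : NHarm P X U) (h' : NHarm P X V) :
    NHarm P X (fun z => U z - V z) := by
  refine ⟨h.harm.sub h'.harm, h.cont.sub h'.cont, fun p ν hp hw ε hε => ?_⟩
  obtain ⟨δ, hδ, hd⟩ := h.neu p ν hp hw (ε / 2) (half_pos hε)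
  obtain ⟨δ', hδ', hd'⟩ := h'.neu p ν hp hw (ε / 2) (half_pos hε)
  refine ⟨min δ δ', lt_min hδ hδ', fun q hq hqp t ht0 ht1 => ?_⟩
  have g1 := hd q hq (hqp.trans_le (min_le_left _ _)) t ht0 (ht1.trans_le (min_le_left _ _))
  have g2 := hd' q hq (hqp.trans_le (min_le_right _ _)) t ht0 (ht1.trans_le (min_le_right _ _))
  rw [abs_le] at g1 g2 ⊢
  constructor <;> linarith [g1.1, g1.2, g2.1, g2.2]

/-- N1: a Neumann function which is bounded above on the open region is constant, whatever the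
finite set of singular points. -/
theorem nharm_const_of_le (hP : MPoly P) {X : Set ℂ} (hX : X.Finite) {U : ℂ → ℝ}
    (hU : NHarm P X U) {B : ℝ} (hB : ∀ z ∈ Om P, U z ≤ B) : ∃ c, ∀ z ∈ Cl P \ X, U z = c := by
  obtain ⟨f, hf⟩ := hP.nonempty
  have hz₀ : (⟨(f.1 : ℝ) + 1 / 2, (f.2 : ℝ) + 1 / 2⟩ : ℂ) ∈ Om P := by
    apply osq_subset_Om hf
    refine ⟨?_, ?_, ?_, ?_⟩ <;> dsimp only <;> linarith
  refine ⟨U ⟨(f.1 : ℝ) + 1 / 2, (f.2 : ℝ) + 1 / 2⟩, ?_⟩
  have hc := (ndom hP hX).const_of_bdd (hU.toAN3 hX) hB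
  rintro z ⟨hz, hzX⟩
  have hopen : IsOpen Xᶜ := hX.isClosed.isOpen_compl
  have h1 : z ∈ closure (Xᶜ ∩ Om P) := hopen.inter_closure ⟨hzX, by rwa [closure_Om]⟩
  have h2 : ContinuousWithinAt U (Xᶜ ∩ Om P) z :=
    (hU.cont z ⟨hz, hzX⟩).mono fun x hx => ⟨Om_subset_Cl P hx.2, hx.1⟩
  have h3 := h2.mem_closure_image h1
  have h4 : closure (U '' (Xᶜ ∩ Om P)) ⊆ {U ⟨(f.1 : ℝ) + 1 / 2, (f.2 : ℝ) + 1 / 2⟩} := by
    refine closure_minimal ?_ isClosed_singleton
    rintro _ ⟨x, hx, rfl⟩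
    rw [mem_singleton_iff]
    exact hc x hx.2 _ hz₀
  exact mem_singleton_iff.1 (h4 h3)

/-- N1 for functions bounded below. -/
theorem nharm_const_of_ge (hP : MPoly P) {X : Set ℂ} (hX : X.Finite) {U : ℂ → ℝ}
    (hU : NHarm P X U) {B : ℝ} (hB : ∀ z ∈ Om P, B ≤ U z) : ∃ c, ∀ z ∈ Cl P \ X, U z = c := by
  obtain ⟨c, hc⟩ := nharm_const_of_le hP hX hU.neg (B := -B) fun z hz => neg_le_neg (hB z hz)
  exact ⟨-c, fun z hz => by linarith [hc z hz]⟩

private theorem const_of_logAt_nonneg (hP : MPoly P) {x : ℂ} (hx : x ∉ Om P) {U : ℂ → ℝ}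
    (hU : NHarm P {x} U) (hL : LogB P U x) {c : ℝ} (hc0 : 0 ≤ c) (hc : LogAt P U x c) :
    ∃ c, ∀ z ∈ Cl P \ {x}, U z = c := by
  obtain ⟨C, hC⟩ := hL
  obtain ⟨r, hr, C', hC'⟩ := hc
  -- away from `x` the function is bounded
  obtain ⟨R, hR⟩ := (isCompact_Cl P).isBounded.subset_closedBall x
  have haway : ∃ B : ℝ, ∀ z ∈ Cl P, r ≤ ‖z - x‖ → |U z| ≤ B := by
    refine ⟨|C| + |C| * (|Real.log r| + |Real.log (max R r)|), fun z hz hzr => ?_⟩
    have hzx : z ≠ x := by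
      rintro rfl
      rw [sub_self, norm_zero] at hzr
      linarith
    have h1 := hC z hz hzx
    have h2 : |Real.log ‖z - x‖| ≤ |Real.log r| + |Real.log (max R r)| := by
      have g1 : Real.log r ≤ Real.log ‖z - x‖ := Real.log_le_log hr hzr
      have g2 : ‖z - x‖ ≤ R := by
        have := hR hz
        rwa [mem_closedBall, dist_eq_norm] at this
      have g3 : Real.log ‖z - x‖ ≤ Real.log (max R r) :=
        Real.log_le_log (hr.trans_le hzr) (g2.trans (le_max_left _ _))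
      rw [abs_le]
      constructor
      · linarith [neg_abs_le (Real.log r), abs_nonneg (Real.log (max R r))]
      · linarith [le_abs_self (Real.log (max R r)), abs_nonneg (Real.log r)]
    have h3 : C + C * |Real.log ‖z - x‖| ≤ |C| + |C| * (|Real.log r| + |Real.log (max R r)|) := by
      have g4 : C * |Real.log ‖z - x‖| ≤ |C| * |Real.log ‖z - x‖| :=
        mul_le_mul_of_nonneg_right (le_abs_self C) (abs_nonneg _)
      have g5 : |C| * |Real.log ‖z - x‖| ≤ |C| * (|Real.log r| + |Real.log (max R r)|) :=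
        mul_le_mul_of_nonneg_left h2 (abs_nonneg C)
      linarith [le_abs_self C]
    linarith
  obtain ⟨B, hB⟩ := haway
  refine nharm_const_of_le hP (finite_singleton x) hU
    (B := max B (C' + c * Real.log r)) fun z hz => ?_
  rcases le_or_gt r ‖z - x‖ with h | h
  · exact (le_abs_self _).trans ((hB z (Om_subset_Cl P hz) h).trans (le_max_left _ _))
  · have hzx : z ≠ x := by
      rintro rfl
      exact hx hz
    have h1 := (abs_le.1 (hC' z (Om_subset_Cl P hz) hzx h)).2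
    have h2 : Real.log ‖z - x‖ ≤ Real.log r :=
      Real.log_le_log (norm_pos_iff.2 (sub_ne_zero.2 hzx)) h.le
    have h3 := mul_le_mul_of_nonneg_left h2 hc0
    exact le_trans (by linarith) (le_max_right _ _)

theorem LogB.neg {U : ℂ → ℝ} {x : ℂ} (h : LogB P U x) : LogB P (fun z => -U z) x := by
  obtain ⟨C, hC⟩ := h
  exact ⟨C, fun z hz hzx => by rw [abs_neg]; exact hC z hz hzx⟩

theorem LogAt.neg {U : ℂ → ℝ} {x : ℂ} {c : ℝ} (h : LogAt P U x c) :
    LogAt P (fun z => -U z) x (-c) := by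
  obtain ⟨r, hr, C, hC⟩ := h
  refine ⟨r, hr, C, fun z hz hzx hzr => ?_⟩
  have e : -U z - -c * Real.log ‖z - x‖ = -(U z - c * Real.log ‖z - x‖) := by ring
  rw [e, abs_neg]
  exact hC z hz hzx hzr

/-- N2 from the expansion at `x`: a Neumann function with only one logarithmic point is
constant. -/
theorem nharm_const_of_logAt (hP : MPoly P) {x : ℂ} (hx : x ∉ Om P) {U : ℂ → ℝ}
    (hU : NHarm P {x} U) (hL : LogB P U x) {c : ℝ} (hc : LogAt P U x c) :
    ∃ c, ∀ z ∈ Cl P \ {x}, U z = c := by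
  rcases le_total 0 c with hc0 | hc0
  · exact const_of_logAt_nonneg hP hx hU hL hc0 hc
  · obtain ⟨c', hc'⟩ := const_of_logAt_nonneg hP hx hU.neg hL.neg (neg_nonneg.2 hc0) hc.neg
    exact ⟨-c', fun z hz => by linarith [hc' z hz]⟩

end Pool.Agent.SixB
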