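import Pool.Agent.Lib.SixB.AN9b

/-! Analysis package for MP_6bd702, file AN9c (REFL for block CA).
* `NHarm.wall_ext`: an `NHarm` function extends harmonically across a flat wall (even reflection `foldAt`).
* `hasDerivAt_wall`, `abs_deriv_wall_le`: tangential derivative along the wall.
* `fderiv_continuousWithinAt_joint`: gradients of a jointly continuous family of harmonic functions are jointly continuous.
* `tendsto_fderiv`: locally uniform convergence of harmonic functions gives convergence of gradients. -/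

open Filter Topology Metric Set Complex InnerProductSpace Real MeasureTheory Laplacian
open scoped ComplexConjugate

namespace Pool.Agent.SixB

theorem coord_of_ne {p ν : ℂ} (hν : ‖ν‖ = 1) (z : ℂ) : ∃ w : ℂ, z = p + w * (-I * ν) ∧ ‖w‖ = ‖z - p‖ ∧
    w.im = sp (z - p) ν := by
  have hna : ‖-I * ν‖ = 1 := by simp [hν]
  have hanz : (-I * ν) ≠ 0 := by rw [← norm_pos_iff, hna]; norm_num
  set w := (z - p) * (-I * ν)⁻¹ with hw
  have h1 : w * (-I * ν) = z - p := by
    rw [hw, mul_assoc, inv_mul_cancel₀ hanz, mul_one]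
  refine ⟨w, by rw [h1]; ring, ?_, ?_⟩
  · rw [hw, norm_mul, norm_inv, hna, inv_one, mul_one]
  · rw [← h1]
    have h2 : w * (-I * ν) = ((w.re : ℝ) : ℂ) * (-I * ν) + ((w.im : ℝ) : ℂ) * ν := by
      conv_lhs => rw [← Complex.re_add_im w]
      ring_nf
      rw [Complex.I_sq]
      ring
    rw [h2, spn_add, sp_ofReal_mul, sp_ofReal_mul, sp_self hν]
    have h3 : sp (-I * ν) ν = 0 := by
      simp [sp]; ring
    rw [h3]; ring

theorem norm_foldAt_sub {p ν : ℂ} (hν : ‖ν‖ = 1) (z : ℂ) : ‖foldAt p ν z - p‖ = ‖z - p‖ := by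
  obtain ⟨w, hz, hw, _⟩ := coord_of_ne (p := p) hν z
  have hna : ‖-I * ν‖ = 1 := by simp [hν]
  rw [← hw, hz, foldAt_coord hν, add_sub_cancel_left, norm_mul, hna, mul_one, norm_fold]

theorem sp_foldAt {p ν : ℂ} (hν : ‖ν‖ = 1) (z : ℂ) : sp (foldAt p ν z - p) ν = |sp (z - p) ν| := by
  have h1 : foldAt p ν z - p = (z - p) + ((|sp (z - p) ν| - sp (z - p) ν : ℝ) : ℂ) * ν := by
    rw [foldAt]; ring
  rw [h1, spn_add, sp_ofReal_mul, sp_self hν]; ring

theorem foldAt_of_zero {p ν z : ℂ} (h : sp (z - p) ν = 0) : foldAt p ν z = z :=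
  foldAt_of_nonneg h.ge

theorem sp_mul_I_self (ν : ℂ) : sp (I * ν) ν = 0 := by
  simp [sp]; ring

/-- flat piece of the wall: half disc of radius `r` at `p` -/
def Flat (P : Finset (ℤ × ℤ)) (p ν : ℂ) (r : ℝ) : Prop :=
  IsDir ν ∧ ∀ z : ℂ, ‖z - p‖ < r → (z ∈ Cl P ↔ 0 ≤ sp (z - p) ν)

theorem Wall.exists_flat {P : Finset (ℤ × ℤ)} {p ν : ℂ} (h : Wall P p ν) :
    ∃ r > 0, Flat P p ν r := by
  obtain ⟨hd, r, hr, h1⟩ := h
  exact ⟨r, hr, hd, h1⟩

theorem Flat.mono {P : Finset (ℤ × ℤ)} {p ν : ℂ} {r s : ℝ} (h : Flat P p ν r) (hs : s ≤ r) :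
    Flat P p ν s := ⟨h.1, fun z hz => h.2 z (hz.trans_le hs)⟩

theorem Flat.wall {P : Finset (ℤ × ℤ)} {p ν q : ℂ} {r : ℝ} (h : Flat P p ν r) (hq : ‖q - p‖ < r)
    (hq0 : sp (q - p) ν = 0) : Wall P q ν := by
  refine ⟨h.1, r - ‖q - p‖, by linarith, fun z hz => ?_⟩
  have h1 : ‖z - p‖ < r := by
    have : z - p = (z - q) + (q - p) := by ring
    rw [this]
    exact (norm_add_le _ _).trans_lt (by linarith)
  rw [h.2 z h1]
  have h2 : sp (z - p) ν = sp (z - q) ν + sp (q - p) ν := by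
    rw [← spn_add]; congr 1; ring
  rw [h2, hq0, add_zero]

theorem Flat.mem_Om {P : Finset (ℤ × ℤ)} {p ν z : ℂ} {r : ℝ} (h : Flat P p ν r) (hz : ‖z - p‖ < r)
    (hz0 : 0 < sp (z - p) ν) : z ∈ Om P := by
  rw [Om, mem_interior_iff_mem_nhds]
  have h1 : ∀ᶠ y in 𝓝 z, ‖y - p‖ < r := by
    have : Continuous fun y : ℂ => ‖y - p‖ := by fun_prop
    exact this.continuousAt.eventually (gt_mem_nhds hz)
  have h2 : ∀ᶠ y in 𝓝 z, 0 < sp (y - p) ν := by
    have : Continuous fun y : ℂ => sp (y - p) ν := by unfold sp; fun_prop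
    exact this.continuousAt.eventually (lt_mem_nhds hz0)
  filter_upwards [h1, h2] with y hy1 hy2
  exact (h.2 y hy1).2 hy2.le

/-- **REFL.** -/
theorem NHarm.wall_ext {P : Finset (ℤ × ℤ)} {X : Set ℂ} {U : ℂ → ℝ} {p ν : ℂ} {r : ℝ}
    (h : NHarm P X U) (hf : Flat P p ν r) (hX : ∀ z ∈ X, r ≤ ‖z - p‖) :
    HarmonicOnNhd (fun z => U (foldAt p ν z)) (ball p r) := by
  have hν := norm_of_isDir hf.1
  refine harmonicOnNhd_foldAt hν ?_ ?_ ?_
  · refine h.cont.mono ?_
    intro z hz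
    have hz1 := hz.1
    rw [mem_ball, dist_eq_norm] at hz1
    exact ⟨(hf.2 z hz1).2 hz.2, fun hzX => absurd (hX z hzX) (not_le.2 hz1)⟩
  · intro z hz
    have hz1 := hz.1
    rw [mem_ball, dist_eq_norm] at hz1
    exact h.harm z (hf.mem_Om hz1 hz.2)
  · intro q hq hq0 ε hε
    rw [mem_ball, dist_eq_norm] at hq
    have hqX : q ∉ X := fun hqX => absurd (hX q hqX) (not_le.2 hq)
    have hw := hf.wall hq hq0
    obtain ⟨δ, hδ, h1⟩ := h.neu q ν hqX hw ε hε
    exact ⟨δ, hδ, fun t ht htδ => h1 q hw (by simpa using hδ) t ht htδ⟩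

/-- the extension agrees with `U` on the closed region -/
theorem Flat.ext_eq {P : Finset (ℤ × ℤ)} {U : ℂ → ℝ} {p ν z : ℂ} {r : ℝ} (hf : Flat P p ν r)
    (hz : ‖z - p‖ < r) (hzP : z ∈ Cl P) : U (foldAt p ν z) = U z := by
  rw [foldAt_of_nonneg ((hf.2 z hz).1 hzP)]

/-- folded points are in the closed region -/
theorem Flat.fold_mem {P : Finset (ℤ × ℤ)} {p ν z : ℂ} {r : ℝ} (hf : Flat P p ν r)
    (hz : ‖z - p‖ < r) : foldAt p ν z ∈ Cl P := by
  have hν := norm_of_isDir hf.1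
  refine (hf.2 _ (by rw [norm_foldAt_sub hν]; exact hz)).2 ?_
  rw [sp_foldAt hν]; exact abs_nonneg _

/-- tangential derivative at a wall point -/
theorem hasDerivAt_wall {U : ℂ → ℝ} {p ν q : ℂ} {r : ℝ}
    (hU : HarmonicOnNhd (fun z => U (foldAt p ν z)) (ball p r)) (hq : ‖q - p‖ < r)
    (hq0 : sp (q - p) ν = 0) :
    HasDerivAt (fun s : ℝ => U (q + s * (I * ν)))
      (fderiv ℝ (fun z => U (foldAt p ν z)) q (I * ν)) 0 := by
  have hqb : q ∈ ball p r := by rw [mem_ball, dist_eq_norm]; exact hq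
  have hd : DifferentiableAt ℝ (fun z => U (foldAt p ν z)) q :=
    (hU q hqb).1.differentiableAt (by norm_num)
  have h1 : HasFDerivAt (fun z => U (foldAt p ν z)) (fderiv ℝ (fun z => U (foldAt p ν z)) q)
      (q + ((0:ℝ):ℂ) * (I * ν)) := by simpa using hd.hasFDerivAt
  have h2 : HasDerivAt (fun s : ℝ => q + (s:ℂ) * (I * ν)) (I * ν) (0:ℝ) := by
    have h3 : HasDerivAt (fun t : ℝ => (t:ℂ)) 1 (0:ℝ) := Complex.ofRealCLM.hasDerivAt
    have h4 := (h3.mul_const (I * ν)).const_add q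
    simpa using h4
  have h5 := h1.comp_hasDerivAt (0:ℝ) h2
  have h6 : ((fun z => U (foldAt p ν z)) ∘ fun s : ℝ => q + (s:ℂ) * (I * ν)) =
      fun s : ℝ => U (q + s * (I * ν)) := by
    funext s
    simp only [Function.comp_apply]
    rw [foldAt_of_zero]
    have h7 : q + (s:ℂ) * (I * ν) - p = (q - p) + (s:ℂ) * (I * ν) := by ring
    rw [h7, spn_add, sp_ofReal_mul, sp_mul_I_self, hq0]; ring
  rw [h6] at h5
  exact h5

/-- bound of the gradient of the extension -/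
theorem norm_fderiv_wall_le {P : Finset (ℤ × ℤ)} {X : Set ℂ} {U : ℂ → ℝ} {p ν q : ℂ} {r M : ℝ}
    (h : NHarm P X U) (hf : Flat P p ν r) (hX : ∀ z ∈ X, r ≤ ‖z - p‖)
    (hM : ∀ z ∈ Cl P, ‖z - p‖ < r → |U z| ≤ M) (hq : ‖q - p‖ < r) :
    ‖fderiv ℝ (fun z => U (foldAt p ν z)) q‖ ≤ 16 * M / (r - ‖q - p‖) := by
  have hν := norm_of_isDir hf.1
  have hsub : ball q (r - ‖q - p‖) ⊆ ball p r := by
    intro y hy
    rw [mem_ball, dist_eq_norm] at hy ⊢
    have : y - p = (y - q) + (q - p) := by ring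
    rw [this]
    exact (norm_add_le _ _).trans_lt (by linarith)
  refine norm_fderiv_le_of_harmonic (by linarith) ((h.wall_ext hf hX).mono hsub) ?_
  intro z hz
  have hz1 := hsub hz
  rw [mem_ball, dist_eq_norm] at hz1
  exact hM _ (hf.fold_mem hz1) (by rw [norm_foldAt_sub hν]; exact hz1)

/-- locally uniform convergence of harmonic functions: gradients converge at every point -/
theorem tendsto_fderiv_of_harmonic {ι : Type*} {l : Filter ι} {F : ι → ℂ → ℝ} {f : ℂ → ℝ} {c : ℂ}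
    {R : ℝ} (hR : 0 < R) (hF : ∀ᶠ i in l, HarmonicOnNhd (F i) (ball c R))
    (hf : HarmonicOnNhd f (ball c R)) (h : TendstoUniformlyOn F f l (ball c R)) :
    TendstoUniformlyOn (fun i => fderiv ℝ (F i)) (fderiv ℝ f) l (ball c (R / 2)) := by
  rw [Metric.tendstoUniformlyOn_iff] at h ⊢
  intro ε hε
  have hpos : 0 < ε * R / 64 := by positivity
  filter_upwards [h _ hpos, hF] with i hi hFi z hz
  have hsub : ball z (R / 2) ⊆ ball c R := by
    intro y hy
    rw [mem_ball] at hy hz ⊢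
    have := dist_triangle y z c
    linarith
  have hzc : z ∈ ball c R := ball_subset_ball (by linarith) hz
  have h1 : HarmonicOnNhd (fun y => f y - F i y) (ball z (R / 2)) :=
    (hf.mono hsub).sub (hFi.mono hsub)
  have h2 := norm_fderiv_le_of_harmonic (show 0 < R / 2 by positivity) h1
    (M := ε * R / 64) (fun y hy => by
      have := hi y (hsub hy)
      rw [Real.dist_eq] at this
      exact this.le)
  have hdf : DifferentiableAt ℝ f z := (hf z hzc).1.differentiableAt (by norm_num)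
  have hdF : DifferentiableAt ℝ (F i) z := (hFi z hzc).1.differentiableAt (by norm_num)
  have h3 : fderiv ℝ (fun y => f y - F i y) z = fderiv ℝ f z - fderiv ℝ (F i) z :=
    fderiv_fun_sub hdf hdF
  rw [h3] at h2
  rw [dist_eq_norm]
  refine h2.trans_lt ?_
  have : 16 * (ε * R / 64) / (R / 2) = ε / 2 := by field_simp; ring
  rw [this]; linarith

/-- Gradients of a jointly continuous family of harmonic functions are jointly continuous. -/
theorem fderiv_jointly_continuous {Ξ : Type*} [TopologicalSpace Ξ] {V : Ξ → ℂ → ℝ} {S : Set Ξ}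
    {U : Set ℂ} (hU : IsOpen U) (hV : ∀ ξ ∈ S, HarmonicOnNhd (V ξ) U)
    (hc : ContinuousOn (fun q : Ξ × ℂ => V q.1 q.2) (S ×ˢ U)) :
    ContinuousOn (fun q : Ξ × ℂ => fderiv ℝ (V q.1) q.2) (S ×ˢ U) := by
  rintro ⟨ξ0, z0⟩ ⟨hξ0, hz0⟩
  obtain ⟨R, hR, hRU⟩ := Metric.nhds_basis_closedBall.mem_iff.1 (hU.mem_nhds hz0)
  have hRU' : ball z0 R ⊆ U := ball_subset_closedBall.trans hRU
  -- uniform convergence on the closed ball
  have hunif : TendstoUniformlyOn V (V ξ0) (𝓝[S] ξ0) (closedBall z0 R) := by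
    have h1 : ContinuousOn (fun q : Ξ × ℂ => V q.1 q.2) (S ×ˢ closedBall z0 R) :=
      hc.mono (prod_mono_right hRU)
    rw [Metric.tendstoUniformlyOn_iff]
    intro ε hε
    obtain ⟨v, hv, h2⟩ := (isCompact_closedBall z0 R).mem_uniformity_of_prod h1 hξ0
      (dist_mem_uniformity hε)
    filter_upwards [hv] with ξ hξ x hx
    rw [dist_comm]
    exact h2 ξ hξ x hx
  have hF : ∀ᶠ ξ in 𝓝[S] ξ0, HarmonicOnNhd (V ξ) (ball z0 R) := by
    filter_upwards [self_mem_nhdsWithin] with ξ hξ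
    exact (hV ξ hξ).mono hRU'
  have h2 := tendsto_fderiv_of_harmonic hR hF ((hV ξ0 hξ0).mono hRU')
    (hunif.mono ball_subset_closedBall)
  have hcf : ContinuousAt (fderiv ℝ (V ξ0)) z0 :=
    ((hV ξ0 hξ0 z0 hz0).1.fderiv_right (m := 1) (by norm_num)).continuousAt
  rw [ContinuousWithinAt, nhdsWithin_prod_eq, Metric.tendsto_nhds]
  intro ε hε
  have h3 := (Metric.tendstoUniformlyOn_iff.1 h2) (ε / 2) (by positivity)
  have h4 := (Metric.tendsto_nhds.1 hcf) (ε / 2) (by positivity)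
  have h5 : ∀ᶠ z in 𝓝[U] z0, z ∈ ball z0 (R / 2) :=
    nhdsWithin_le_nhds (ball_mem_nhds z0 (by positivity))
  have h6 : ∀ᶠ z in 𝓝[U] z0, dist (fderiv ℝ (V ξ0) z) (fderiv ℝ (V ξ0) z0) < ε / 2 :=
    nhdsWithin_le_nhds h4
  filter_upwards [h3.prod_mk (h5.and h6)] with q hq
  have h7 := hq.1 q.2 hq.2.1
  rw [dist_comm] at h7
  exact (dist_triangle _ _ _).trans_lt (by linarith [hq.2.2])

end Pool.Agent.SixB
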