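import Mathlib

/-!
# 6BD, analysis package: the theorem of Bocher with logarithmic growth

`bocher_log`: `U` harmonic in a punctured disc, `|U z| <= C + C |log |z||` there. Then
`U = c log |z| + V` with `V` harmonic in the whole disc. Mathlib only.
-/

set_option autoImplicit false

open Complex InnerProductSpace Metric Set Topology Filter

namespace Pool.Agent.SixB

/-- complex derivative of (any holomorphic function with real part) `f` -/
noncomputable def cpd (f : ℂ → ℝ) (z : ℂ) : ℂ := fderiv ℝ f z 1 - I * fderiv ℝ f z I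

theorem cpd_congr {f g : ℂ → ℝ} {z : ℂ} (h : f =ᶠ[𝓝 z] g) : cpd f z = cpd g z := by
  unfold cpd; rw [h.fderiv_eq]

/-- derivative of a real part -/
theorem hasFDerivAt_re {F : ℂ → ℂ} {F' z : ℂ} (hF : HasDerivAt F F' z) :
    HasFDerivAt (fun w => (F w).re) (reCLM.comp ((ContinuousLinearMap.toSpanSingleton ℂ F').restrictScalars ℝ)) z := by
  exact reCLM.hasFDerivAt.comp z (hF.hasFDerivAt.restrictScalars ℝ)

theorem cpd_re {F : ℂ → ℂ} {F' z : ℂ} (hF : HasDerivAt F F' z) :
    cpd (fun w => (F w).re) z = F' := by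
  unfold cpd
  rw [(hasFDerivAt_re hF).fderiv]
  apply Complex.ext <;> simp

/-- real derivative in terms of `cpd` -/
theorem fderiv_eq_cpd (f : ℂ → ℝ) (z w : ℂ) : fderiv ℝ f z w = (cpd f z * w).re := by
  have h : w = (w.re : ℝ) • (1 : ℂ) + (w.im : ℝ) • (I : ℂ) := by
    apply Complex.ext <;> simp
  conv_lhs => rw [h]
  rw [map_add, map_smul, map_smul]
  unfold cpd
  simp
  ring

theorem hasFDerivAt_of_harmonic {f : ℂ → ℝ} {z : ℂ} (hf : HarmonicAt f z) :
    HasFDerivAt f (fderiv ℝ f z) z :=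
  (hf.1.differentiableAt (by norm_num)).hasFDerivAt

/-- gradient bound -/
theorem norm_cpd_le {f : ℂ → ℝ} {z : ℂ} {ρ M : ℝ} (hρ : 0 < ρ) (hf : HarmonicOnNhd f (ball z ρ))
    (hM : ∀ w ∈ ball z ρ, |f w| ≤ M) : ‖cpd f z‖ ≤ 8 * (M + 1) / ρ := by
  obtain ⟨F, hF, hFf⟩ := hf.exists_analyticOnNhd_ball_re_eq
  have hM0 : 0 ≤ M := (abs_nonneg _).trans (hM z (mem_ball_self hρ))
  have hz : z ∈ ball z ρ := mem_ball_self hρ
  have hd : HasDerivAt F (deriv F z) z := (hF z hz).differentiableAt.hasDerivAt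
  have h1 : cpd f z = deriv F z := by
    rw [← cpd_re hd]
    apply cpd_congr
    filter_upwards [isOpen_ball.mem_nhds hz] with w hw
    exact (hFf hw).symm
  rw [h1]
  set G : ℂ → ℂ := fun w => F (z + w) - F z with hG
  have hmem : ∀ w ∈ ball (0:ℂ) ρ, z + w ∈ ball z ρ := by
    intro w hw
    rw [mem_ball_zero_iff] at hw
    rw [mem_ball_iff_norm]
    simpa using hw
  have hGd : DifferentiableOn ℂ G (ball 0 ρ) := by
    intro w hw
    have h2 : DifferentiableAt ℂ F (z + w) := (hF _ (hmem w hw)).differentiableAt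
    have h3 : DifferentiableAt ℂ (fun w : ℂ => F (z + w)) w :=
      DifferentiableAt.comp w h2 ((differentiableAt_const z).add differentiableAt_id)
    exact (h3.sub_const _).differentiableWithinAt
  have hGm : MapsTo G (ball 0 ρ) {w | w.re ≤ 2 * (M + 1)} := by
    intro w hw
    have h2 := hFf (hmem w hw)
    have h3 := hFf hz
    simp only at h2 h3
    have h4 := hM _ (hmem w hw)
    have h5 := hM _ hz
    show (F (z + w) - F z).re ≤ 2 * (M + 1)
    rw [sub_re, h2, h3]
    have := abs_le.mp h4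
    have := abs_le.mp h5
    linarith [this.1]
  have hG0 : G 0 = 0 := by simp [hG]
  have hlip : ∀ᶠ w in 𝓝 z, ‖F w - F z‖ ≤ 8 * (M + 1) / ρ * ‖w - z‖ := by
    have hb : ball z (ρ / 2) ∈ 𝓝 z := isOpen_ball.mem_nhds (mem_ball_self (by linarith))
    filter_upwards [hb] with w hw
    rw [mem_ball_iff_norm] at hw
    have hw' : w - z ∈ ball (0:ℂ) ρ := by
      rw [mem_ball_zero_iff]; linarith
    have h2 := Complex.borelCaratheodory_zero (M := 2 * (M + 1)) (by positivity) hGd hGm hρ hw' hG0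
    have h3 : G (w - z) = F w - F z := by simp [hG]
    rw [h3] at h2
    refine h2.trans ?_
    have h4 : ρ / 2 ≤ ρ - ‖w - z‖ := by linarith
    rw [div_mul_eq_mul_div, div_le_div_iff₀ (by linarith) hρ]
    have h5 : 0 ≤ (M + 1) * ‖w - z‖ := by positivity
    nlinarith [mul_le_mul_of_nonneg_left h4 h5]
  exact hd.le_of_lip' (by positivity) hlip

/-- core: `z^2 * cpd U z -> 0` -/
theorem bocher_core {U : ℂ → ℝ} {r : ℝ} (hr : 0 < r) (hU : HarmonicOnNhd U (ball 0 r \ {0}))
    (hsmall : Tendsto (fun z : ℂ => z ^ 2 * cpd U z) (𝓝[≠] 0) (𝓝 0)) :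
    ∃ (c : ℝ) (V : ℂ → ℝ), HarmonicOnNhd V (ball 0 r) ∧
      ∀ z ∈ ball (0:ℂ) r, z ≠ 0 → U z = c * Real.log ‖z‖ + V z := by
  have h0mem : ball (0:ℂ) r ∈ 𝓝 (0:ℂ) := isOpen_ball.mem_nhds (mem_ball_self hr)
  set h : ℂ → ℂ := fun z => z ^ 2 * cpd U z with hh
  have hgd : ∀ z ∈ ball (0:ℂ) r, z ≠ 0 → DifferentiableAt ℂ (cpd U) z := by
    intro z hz hz0
    exact HarmonicAt.differentiableAt_complex_partial (hU z ⟨hz, hz0⟩)
  have h00 : h 0 = 0 := by simp [hh]
  have hcont : ContinuousAt h 0 := by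
    rw [continuousAt_iff_punctured_nhds, h00]; exact hsmall
  have hdiff : DifferentiableOn ℂ h (ball 0 r) := by
    rw [← Complex.differentiableOn_compl_singleton_and_continuousAt_iff h0mem]
    refine ⟨?_, hcont⟩
    intro z hz
    have := hgd z hz.1 hz.2
    exact ((differentiableAt_id.pow 2).mul this).differentiableWithinAt
  set k : ℂ → ℂ := dslope h 0 with hk
  have hkd : DifferentiableOn ℂ k (ball 0 r) := (Complex.differentiableOn_dslope h0mem).mpr hdiff
  set m : ℂ → ℂ := dslope k 0 with hm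
  have hmd : DifferentiableOn ℂ m (ball 0 r) := (Complex.differentiableOn_dslope h0mem).mpr hkd
  set a : ℂ := k 0 with ha
  have hgeq : ∀ z : ℂ, z ≠ 0 → cpd U z = a / z + m z := by
    intro z hz
    have h1 : k z = z * cpd U z := by
      rw [hk, dslope_of_ne _ hz, slope_def_field, h00]
      simp only [hh]
      field_simp
      ring
    have h2 : m z = (k z - a) / z := by
      rw [hm, dslope_of_ne _ hz, slope_def_field, sub_zero]
    rw [h2, h1]
    field_simp
    ring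
  obtain ⟨P, hP0, hP⟩ := hmd.isExactOn_ball.with_val_at 0 0
  -- `G = U - re P` has complex derivative `a / z`
  set G : ℂ → ℝ := fun z => U z - (P z).re with hG
  have hGd : ∀ z ∈ ball (0:ℂ) r, z ≠ 0 → ∀ w : ℂ,
      HasFDerivAt G (fderiv ℝ G z) z ∧ fderiv ℝ G z w = (a / z * w).re := by
    intro z hz hz0 w
    have h1 := hasFDerivAt_of_harmonic (hU z ⟨hz, hz0⟩)
    have h2 := hasFDerivAt_re (hP z hz)
    have h3 : HasFDerivAt G (fderiv ℝ U z - reCLM.comp
      ((ContinuousLinearMap.toSpanSingleton ℂ (m z)).restrictScalars ℝ)) z := h1.sub h2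
    refine ⟨h3.differentiableAt.hasFDerivAt, ?_⟩
    rw [h3.fderiv]
    rw [sub_apply, fderiv_eq_cpd, hgeq z hz0]
    simp only [ContinuousLinearMap.comp_apply, ContinuousLinearMap.coe_restrictScalars',
      ContinuousLinearMap.toSpanSingleton_apply, reCLM_apply, smul_eq_mul]
    rw [← sub_re]
    congr 1
    ring
  -- in the coordinate `w = log z`
  set S : Set ℂ := {w : ℂ | w.re < Real.log r} with hS
  have hSo : IsOpen S := isOpen_lt Complex.continuous_re continuous_const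
  have hSc : Convex ℝ S := convex_halfSpace_re_lt _
  have hexp : ∀ w ∈ S, cexp w ∈ ball (0:ℂ) r := by
    intro w hw
    rw [mem_ball_zero_iff, Complex.norm_exp]
    calc Real.exp w.re < Real.exp (Real.log r) := Real.exp_lt_exp.mpr hw
      _ = r := Real.exp_log hr
  have hcomp : ∀ w ∈ S, ∀ v : ℂ, ∃ L : ℂ →L[ℝ] ℝ, HasFDerivAt (fun w => G (cexp w)) L w ∧
      L v = (a * v).re := by
    intro w hw v
    have h1 := (hGd _ (hexp w hw) (Complex.exp_ne_zero w) (cexp w * v))
    have h2 : HasFDerivAt cexp ((ContinuousLinearMap.toSpanSingleton ℂ (cexp w)).restrictScalars ℝ) w :=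
      (Complex.hasDerivAt_exp w).hasFDerivAt.restrictScalars ℝ
    refine ⟨_, h1.1.comp w h2, ?_⟩
    simp only [ContinuousLinearMap.comp_apply, ContinuousLinearMap.coe_restrictScalars',
      ContinuousLinearMap.toSpanSingleton_apply, smul_eq_mul]
    rw [mul_comm v (cexp w), h1.2]
    congr 1
    have := Complex.exp_ne_zero w
    field_simp
  have hconst : ∀ w1 ∈ S, ∀ w2 ∈ S, G (cexp w1) - (a * w1).re = G (cexp w2) - (a * w2).re := by
    intro w1 hw1 w2 hw2
    have hlin : ∀ w : ℂ, HasFDerivAt (fun w : ℂ => (a * w).re)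
        (reCLM.comp ((ContinuousLinearMap.toSpanSingleton ℂ a).restrictScalars ℝ)) w := by
      intro w
      have : HasDerivAt (fun w : ℂ => a * w) a w := by
        simpa using (hasDerivAt_id w).const_mul a
      exact hasFDerivAt_re this
    have key : ∀ w ∈ S, HasFDerivAt (fun w => G (cexp w) - (a * w).re) (0 : ℂ →L[ℝ] ℝ) w := by
      intro w hw
      obtain ⟨L0, hL0, -⟩ := hcomp w hw 0
      have h1 := hL0.sub (hlin w)
      refine h1.congr_fderiv ?_
      refine ContinuousLinearMap.ext fun v => ?_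
      obtain ⟨L, hL, hLv⟩ := hcomp w hw v
      rw [hL0.unique hL]
      simp only [zero_apply, sub_apply, ContinuousLinearMap.comp_apply,
        ContinuousLinearMap.coe_restrictScalars', ContinuousLinearMap.toSpanSingleton_apply,
        smul_eq_mul, reCLM_apply, hLv]
      rw [mul_comm v a, sub_self]
    exact hSc.is_const_of_fderivWithin_eq_zero (𝕜 := ℝ)
      (fun w hw => (key w hw).differentiableAt.differentiableWithinAt)
      (fun w hw => (key w hw).hasFDerivWithinAt.fderivWithin (hSo.uniqueDiffWithinAt hw)) hw1 hw2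
  -- `a` is real
  have haim : a.im = 0 := by
    set w0 : ℂ := ((Real.log r - 1 : ℝ) : ℂ) with hw0
    have m1 : w0 ∈ S := by simp [hS, hw0]
    have m2 : w0 + 2 * Real.pi * I ∈ S := by simp [hS, hw0]
    have h1 := hconst _ m1 _ m2
    have h2 : cexp (w0 + 2 * Real.pi * I) = cexp w0 := by
      rw [Complex.exp_add, Complex.exp_two_pi_mul_I, mul_one]
    rw [h2, mul_add, add_re] at h1
    have h3 : (a * (2 * Real.pi * I)).re = - (2 * Real.pi * a.im) := by
      simp; ring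
    rw [h3] at h1
    have h4 : 2 * Real.pi * a.im = 0 := by linarith
    have hpi := Real.pi_pos
    rcases mul_eq_zero.mp h4 with h | h
    · exact absurd h (by positivity)
    · exact h
  set w0 : ℂ := ((Real.log r - 1 : ℝ) : ℂ) with hw0
  have m1 : w0 ∈ S := by simp [hS, hw0]
  refine ⟨a.re, fun z => (P z).re + (G (cexp w0) - (a * w0).re), ?_, ?_⟩
  · intro z hz
    have hPd : DifferentiableOn ℂ P (ball 0 r) :=
      fun x hx => (hP x hx).differentiableAt.differentiableWithinAt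
    have h1 : HarmonicAt (fun z => (P z).re) z :=
      (hPd.analyticAt (isOpen_ball.mem_nhds hz)).harmonicAt_re
    have h2 : HarmonicAt (fun _ : ℂ => G (cexp w0) - (a * w0).re) z := by
      have : AnalyticAt ℂ (fun _ : ℂ => (((G (cexp w0) - (a * w0).re : ℝ)) : ℂ)) z := analyticAt_const
      simpa only [ofReal_re] using this.harmonicAt_re
    exact h1.add h2
  · intro z hz hz0
    have hzp : 0 < ‖z‖ := norm_pos_iff.mpr hz0
    have h1 : Complex.log z ∈ S := by
      show (Complex.log z).re < Real.log r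
      rw [Complex.log_re]
      exact Real.log_lt_log hzp (mem_ball_zero_iff.mp hz)
    have h2 := hconst _ h1 _ m1
    rw [Complex.exp_log hz0] at h2
    have h3 : (a * Complex.log z).re = a.re * Real.log ‖z‖ := by
      rw [mul_re, haim, zero_mul, sub_zero, Complex.log_re]
    rw [h3] at h2
    have h4 : G z = U z - (P z).re := rfl
    linarith

/-- gradient near a puncture: `‖w‖ |U w| <= e` near `0` gives `‖z^2 cpd U z‖ <= 32 e + 16 ‖z‖` -/
theorem sq_cpd_le {U : ℂ → ℝ} {r e δ : ℝ} (hU : HarmonicOnNhd U (ball 0 r \ {0}))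
    (hδb : ∀ w : ℂ, w ≠ 0 → ‖w‖ < δ → ‖w‖ * |U w| ≤ e) {z : ℂ} (hz0 : z ≠ 0)
    (hzδ : ‖z‖ < δ / 2) (hzr : ‖z‖ < r / 2) : ‖z ^ 2 * cpd U z‖ ≤ 32 * e + 16 * ‖z‖ := by
  have hzp : 0 < ‖z‖ := norm_pos_iff.mpr hz0
  have hsub : ∀ w ∈ ball z (‖z‖ / 2), ‖z‖ / 2 < ‖w‖ ∧ ‖w‖ < 2 * ‖z‖ := by
    intro w hw
    rw [mem_ball_iff_norm] at hw
    have h1 : ‖z‖ ≤ ‖w - z‖ + ‖w‖ := by
      have := norm_sub_le w (w - z)
      rw [sub_sub_cancel] at this
      linarith
    have h2 : ‖w‖ ≤ ‖w - z‖ + ‖z‖ := by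
      have := norm_add_le (w - z) z
      rwa [sub_add_cancel] at this
    constructor <;> linarith
  have hharm : HarmonicOnNhd U (ball z (‖z‖ / 2)) := by
    intro w hw
    obtain ⟨h1, h2⟩ := hsub w hw
    refine hU w ⟨?_, ?_⟩
    · rw [mem_ball_zero_iff]; linarith
    · intro hw0
      rw [mem_singleton_iff.mp hw0, norm_zero] at h1
      linarith
  have hM : ∀ w ∈ ball z (‖z‖ / 2), |U w| ≤ 2 * e / ‖z‖ := by
    intro w hw
    obtain ⟨h1, h2⟩ := hsub w hw
    have hw0 : w ≠ 0 := by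
      intro hw0
      rw [hw0, norm_zero] at h1
      linarith
    have h3 := hδb w hw0 (by linarith)
    rw [le_div_iff₀ hzp]
    have h4 : |U w| * (‖z‖ / 2) ≤ e := by
      have : |U w| * (‖z‖ / 2) ≤ |U w| * ‖w‖ := mul_le_mul_of_nonneg_left h1.le (abs_nonneg _)
      rw [mul_comm (|U w|) ‖w‖] at this
      linarith
    linarith
  have hg := norm_cpd_le (by linarith : 0 < ‖z‖ / 2) hharm hM
  rw [norm_mul, norm_pow]
  have h6 : ‖z‖ ^ 2 * ‖cpd U z‖ ≤ ‖z‖ ^ 2 * (8 * (2 * e / ‖z‖ + 1) / (‖z‖ / 2)) :=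
    mul_le_mul_of_nonneg_left hg (by positivity)
  have h7 : ‖z‖ ^ 2 * (8 * (2 * e / ‖z‖ + 1) / (‖z‖ / 2)) = 32 * e + 16 * ‖z‖ := by
    field_simp
    ring
  rw [h7] at h6
  exact h6

/-- the theorem of Bocher at `0`: growth `o(1/|z|)` -/
theorem bocher_zero {U : ℂ → ℝ} {r : ℝ} (hr : 0 < r) (hU : HarmonicOnNhd U (ball 0 r \ {0}))
    (hb : Tendsto (fun z : ℂ => ‖z‖ * U z) (𝓝[≠] 0) (𝓝 0)) :
    ∃ (c : ℝ) (V : ℂ → ℝ), HarmonicOnNhd V (ball 0 r) ∧
      ∀ z ∈ ball (0:ℂ) r, z ≠ 0 → U z = c * Real.log ‖z‖ + V z := by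
  refine bocher_core hr hU ?_
  rw [Metric.tendsto_nhdsWithin_nhds] at hb ⊢
  intro ε hε
  obtain ⟨δ, hδ, hδb⟩ := hb (ε / 128) (by positivity)
  refine ⟨min (min (δ / 2) (r / 2)) (ε / 64), by positivity, ?_⟩
  intro z hz0 hz
  rw [mem_compl_singleton_iff] at hz0
  rw [dist_zero_right] at hz ⊢
  have hzδ : ‖z‖ < δ / 2 := lt_of_lt_of_le hz ((min_le_left _ _).trans (min_le_left _ _))
  have hzr : ‖z‖ < r / 2 := lt_of_lt_of_le hz ((min_le_left _ _).trans (min_le_right _ _))
  have hze : ‖z‖ < ε / 64 := lt_of_lt_of_le hz (min_le_right _ _)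
  have h1 := sq_cpd_le hU (e := ε / 128) (δ := δ) (fun w hw0 hw => by
    have h3 := hδb (x := w) hw0 (by rwa [dist_zero_right])
    rw [dist_zero_right, Real.norm_eq_abs, abs_mul, abs_norm] at h3
    exact h3.le) hz0 hzδ hzr
  linarith

/-- growth `O(1/|z|)` at `0`: logarithm, dipole and harmonic part -/
theorem bocher_dipole_zero {U : ℂ → ℝ} {r C : ℝ} (hr : 0 < r)
    (hU : HarmonicOnNhd U (ball 0 r \ {0}))
    (hb : ∀ z ∈ ball (0:ℂ) r, z ≠ 0 → |U z| ≤ C / ‖z‖) :
    ∃ (c : ℝ) (b : ℂ) (V : ℂ → ℝ), HarmonicOnNhd V (ball 0 r) ∧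
      ∀ z ∈ ball (0:ℂ) r, z ≠ 0 → U z = c * Real.log ‖z‖ + (b / z).re + V z := by
  have h0mem : ball (0:ℂ) r ∈ 𝓝 (0:ℂ) := isOpen_ball.mem_nhds (mem_ball_self hr)
  have hr2mem : ball (0:ℂ) (r / 2) ∈ 𝓝 (0:ℂ) := isOpen_ball.mem_nhds (mem_ball_self (by linarith))
  set h : ℂ → ℂ := fun z => z ^ 2 * cpd U z with hh
  have hd : DifferentiableOn ℂ h (ball 0 (r / 2) \ {0}) := by
    intro z hz
    have hz' : z ∈ ball (0:ℂ) r := ball_subset_ball (by linarith) hz.1
    have := HarmonicAt.differentiableAt_complex_partial (hU z ⟨hz', hz.2⟩)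
    exact ((differentiableAt_id.pow 2).mul this).differentiableWithinAt
  have hbd : BddAbove (norm ∘ h '' (ball 0 (r / 2) \ {0})) := by
    refine ⟨32 * C + 16 * r, ?_⟩
    rintro _ ⟨z, hz, rfl⟩
    have hz1 : ‖z‖ < r / 2 := mem_ball_zero_iff.mp hz.1
    have h1 := sq_cpd_le hU (e := C) (δ := r) (fun w hw0 hw => by
      have h3 := hb w (mem_ball_zero_iff.mpr hw) hw0
      have hp : 0 < ‖w‖ := norm_pos_iff.mpr hw0
      rw [le_div_iff₀ hp] at h3
      linarith) hz.2 hz1 hz1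
    show ‖h z‖ ≤ _
    linarith
  have hlim := Complex.tendsto_limUnder_of_differentiable_on_punctured_nhds_of_bounded_under (f := h)
    (c := 0) (by
      have : ball (0:ℂ) (r / 2) \ {0} ∈ 𝓝[≠] (0:ℂ) := by
        rw [sdiff_eq, inter_comm]
        exact inter_mem_nhdsWithin _ hr2mem
      filter_upwards [this] with z hz
      exact (hd z hz).differentiableAt ((isOpen_ball.sdiff isClosed_singleton).mem_nhds hz))
    (by
      obtain ⟨M, hM⟩ := hbd
      refine ⟨M + ‖h 0‖, ?_⟩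
      rw [eventually_map]
      have : ball (0:ℂ) (r / 2) \ {0} ∈ 𝓝[≠] (0:ℂ) := by
        rw [sdiff_eq, inter_comm]
        exact inter_mem_nhdsWithin _ hr2mem
      filter_upwards [this] with z hz
      have h1 : ‖h z‖ ≤ M := hM ⟨z, hz, rfl⟩
      have h2 := norm_sub_le (h z) (h 0)
      linarith)
  set b : ℂ := limUnder (𝓝[≠] 0) h with hbdef
  have hinv : ∀ z : ℂ, z ≠ 0 → HasDerivAt (fun z : ℂ => b / z) (-(b / z ^ 2)) z := by
    intro z hz
    have h1 := (hasDerivAt_inv hz).const_mul b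
    have h2 : (fun z : ℂ => b / z) = fun z => b * z⁻¹ := by
      funext z; rw [div_eq_mul_inv]
    rw [h2]
    refine h1.congr_deriv ?_
    rw [div_eq_mul_inv]; ring
  have hharm : ∀ z : ℂ, z ≠ 0 → HarmonicAt (fun z : ℂ => (b / z).re) z := by
    intro z hz
    have h1 : AnalyticAt ℂ (fun z : ℂ => b / z) z := analyticAt_const.div analyticAt_id hz
    exact h1.harmonicAt_re
  have hU' : HarmonicOnNhd (fun z => U z + (b / z).re) (ball 0 r \ {0}) := fun z hz =>
    (hU z hz).add (hharm z hz.2)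
  obtain ⟨c, V, hV, hUV⟩ := bocher_core hr hU' (by
    have h1 : Tendsto (fun z => h z - b) (𝓝[≠] 0) (𝓝 0) := by
      have := hlim.sub_const b
      rwa [sub_self] at this
    refine h1.congr' ?_
    have h2 : ∀ᶠ z in 𝓝[≠] (0:ℂ), z ∈ ball (0:ℂ) r := nhdsWithin_le_nhds h0mem
    filter_upwards [h2, self_mem_nhdsWithin] with z hz hz0
    have hz0' : z ≠ 0 := hz0
    have h3 : cpd (fun z => U z + (b / z).re) z = cpd U z + -(b / z ^ 2) := by
      have e1 := hasFDerivAt_of_harmonic (hU z ⟨hz, hz0⟩)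
      have e2 := hasFDerivAt_of_harmonic (hharm z hz0')
      have e3 : cpd (fun z => (b / z).re) z = -(b / z ^ 2) := cpd_re (hinv z hz0')
      rw [← e3]
      have e4 : HasFDerivAt (fun z => U z + (b / z).re)
        (fderiv ℝ U z + fderiv ℝ (fun z => (b / z).re) z) z := e1.add e2
      unfold cpd
      rw [e4.fderiv]
      simp only [add_apply, ofReal_add]
      ring
    show z ^ 2 * cpd U z - b = z ^ 2 * cpd (fun z => U z + (b / z).re) z
    rw [h3]
    field_simp
    ring)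
  refine ⟨c, -b, V, hV, fun z hz hz0 => ?_⟩
  have := hUV z hz hz0
  rw [neg_div, neg_re]
  linarith

/-- growth `O(1/|z|)`, even across the real axis, odd part across the imaginary axis of smaller order: only the
logarithm -/
theorem bocher_odd_zero {U : ℂ → ℝ} {r C D e : ℝ} (hr : 0 < r) (he : 0 < e)
    (hU : HarmonicOnNhd U (ball 0 r \ {0}))
    (hb : ∀ z ∈ ball (0:ℂ) r, z ≠ 0 → |U z| ≤ C / ‖z‖)
    (heven : ∀ z ∈ ball (0:ℂ) r, z ≠ 0 → U (starRingEnd ℂ z) = U z)
    (hodd : ∀ t : ℝ, 0 < t → t < r → |U t - U (-t)| ≤ D * t ^ (e - 1)) :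
    ∃ (c : ℝ) (V : ℂ → ℝ), HarmonicOnNhd V (ball 0 r) ∧
      ∀ z ∈ ball (0:ℂ) r, z ≠ 0 → U z = c * Real.log ‖z‖ + V z := by
  obtain ⟨c, b, V, hV, hUV⟩ := bocher_dipole_zero hr hU hb
  have h0 : (0:ℂ) ∈ ball (0:ℂ) r := mem_ball_self hr
  have hVc : ContinuousAt V 0 := (hV 0 h0).1.continuousAt
  have hrmem : ∀ᶠ t : ℝ in 𝓝[>] 0, t < r := by
    filter_upwards [Ioo_mem_nhdsGT hr] with t ht
    exact ht.2
  have hVt : ∀ w : ℂ, Tendsto (fun t : ℝ => V (t * w)) (𝓝[>] 0) (𝓝 (V 0)) := by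
    intro w
    have h1 : Tendsto (fun t : ℝ => (t : ℂ) * w) (𝓝[>] 0) (𝓝 0) := by
      have : Tendsto (fun t : ℝ => (t : ℂ) * w) (𝓝 0) (𝓝 (((0:ℝ) : ℂ) * w)) :=
        (Complex.continuous_ofReal.mul continuous_const).tendsto 0
      rw [ofReal_zero, zero_mul] at this
      exact this.mono_left nhdsWithin_le_nhds
    exact hVc.tendsto.comp h1
  have hid : Tendsto (fun t : ℝ => t) (𝓝[>] 0) (𝓝 0) := tendsto_id.mono_left nhdsWithin_le_nhds
  -- imaginary part
  have him : b.im = 0 := by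
    have h1 : Tendsto (fun t : ℝ => t / 2 * (V (t * (-I)) - V (t * I))) (𝓝[>] 0) (𝓝 0) := by
      have := (hid.div_const 2).mul ((hVt (-I)).sub (hVt I))
      simpa using this
    have h2 : Tendsto (fun t : ℝ => t / 2 * (V (t * (-I)) - V (t * I))) (𝓝[>] 0) (𝓝 b.im) := by
      refine tendsto_const_nhds.congr' ?_
      filter_upwards [hrmem, self_mem_nhdsWithin] with t ht ht0
      have ht0' : (0:ℝ) < t := ht0
      have n1 : ‖(t:ℂ) * I‖ = t := by simp [abs_of_pos ht0']
      have n2 : ‖(t:ℂ) * (-I)‖ = t := by simp [abs_of_pos ht0']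
      have m1 : (t:ℂ) * I ∈ ball (0:ℂ) r := by rw [mem_ball_zero_iff, n1]; exact ht
      have m2 : (t:ℂ) * (-I) ∈ ball (0:ℂ) r := by rw [mem_ball_zero_iff, n2]; exact ht
      have z1 : (t:ℂ) * I ≠ 0 := by
        rw [← norm_ne_zero_iff, n1]; exact ht0'.ne'
      have z2 : (t:ℂ) * (-I) ≠ 0 := by
        rw [← norm_ne_zero_iff, n2]; exact ht0'.ne'
      have e1 := hUV _ m1 z1
      have e2 := hUV _ m2 z2
      have e3 := heven _ m1 z1
      have e4 : starRingEnd ℂ ((t:ℂ) * I) = (t:ℂ) * (-I) := by simp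
      rw [e4] at e3
      have r1 : (b / ((t:ℂ) * I)).re = b.im / t := by
        rw [div_re, normSq_apply]
        simp
        field_simp
      have r2 : (b / ((t:ℂ) * (-I))).re = - b.im / t := by
        rw [div_re, normSq_apply]
        simp
        field_simp
      rw [n1, r1] at e1
      rw [n2, r2] at e2
      rw [e1, e2] at e3
      have htn : t ≠ 0 := ht0'.ne'
      field_simp at e3 ⊢
      linarith
    exact tendsto_nhds_unique h2 h1
  have hre : b.re = 0 := by
    have h1 : Tendsto (fun t : ℝ => D * t ^ e + t * |V (t * 1) - V (t * (-1))|) (𝓝[>] 0) (𝓝 0) := by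
      have h3 : Tendsto (fun t : ℝ => t ^ e) (𝓝[>] 0) (𝓝 0) := by
        have := (Real.continuousAt_rpow_const 0 e (Or.inr he.le)).tendsto
        rw [Real.zero_rpow he.ne'] at this
        exact this.mono_left nhdsWithin_le_nhds
      have := (h3.const_mul D).add (hid.mul (((hVt 1).sub (hVt (-1))).abs))
      simpa using this
    have h2 : ∀ᶠ t : ℝ in 𝓝[>] 0, 2 * |b.re| ≤ D * t ^ e + t * |V (t * 1) - V (t * (-1))| := by
      filter_upwards [hrmem, self_mem_nhdsWithin] with t ht ht0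
      have ht0' : (0:ℝ) < t := ht0
      have n1 : ‖(t:ℂ) * 1‖ = t := by simp [abs_of_pos ht0']
      have n2 : ‖(t:ℂ) * (-1)‖ = t := by simp [abs_of_pos ht0']
      have m1 : (t:ℂ) * 1 ∈ ball (0:ℂ) r := by rw [mem_ball_zero_iff, n1]; exact ht
      have m2 : (t:ℂ) * (-1) ∈ ball (0:ℂ) r := by rw [mem_ball_zero_iff, n2]; exact ht
      have z1 : (t:ℂ) * 1 ≠ 0 := by
        rw [← norm_ne_zero_iff, n1]; exact ht0'.ne'
      have z2 : (t:ℂ) * (-1) ≠ 0 := by
        rw [← norm_ne_zero_iff, n2]; exact ht0'.ne'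
      have e1 := hUV _ m1 z1
      have e2 := hUV _ m2 z2
      have e3 := hodd t ht0' ht
      have r1 : (b / ((t:ℂ) * 1)).re = b.re / t := by
        rw [mul_one, div_ofReal_re]
      have r2 : (b / ((t:ℂ) * (-1))).re = - b.re / t := by
        rw [mul_neg, mul_one, div_neg, neg_re, div_ofReal_re]; ring
      rw [n1, r1] at e1
      rw [n2, r2] at e2
      have e4 : U (t:ℂ) - U (-(t:ℂ)) = 2 * b.re / t + (V (t * 1) - V (t * (-1))) := by
        have : (t:ℂ) = (t:ℂ) * 1 := by ring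
        rw [this]
        have : -((t:ℂ) * 1) = (t:ℂ) * (-1) := by ring
        rw [this, e1, e2]
        ring_nf
      rw [e4] at e3
      have e5 : |2 * b.re / t| ≤ D * t ^ (e - 1) + |V (t * 1) - V (t * (-1))| := by
        have := abs_sub_abs_le_abs_sub (2 * b.re / t) (-(V (t * 1) - V (t * (-1))))
        rw [sub_neg_eq_add, abs_neg] at this
        linarith
      rw [abs_div, abs_mul, abs_of_pos ht0', abs_two, div_le_iff₀ ht0', add_mul] at e5
      have e6 : D * t ^ (e - 1) * t = D * t ^ e := by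
        rw [Real.rpow_sub_one ht0'.ne']; field_simp
      rw [e6] at e5
      linarith
    have h3 : 2 * |b.re| ≤ 0 := ge_of_tendsto h1 h2
    have := abs_nonneg b.re
    exact abs_eq_zero.mp (by linarith)
  have hb0 : b = 0 := Complex.ext hre him
  refine ⟨c, V, hV, fun z hz hz0 => ?_⟩
  rw [hUV z hz hz0, hb0]
  simp

private theorem harmonicAt_shift {u : ℂ → ℝ} {p w : ℂ} (h : HarmonicAt u (w + p)) :
    HarmonicAt (fun w => u (w + p)) w := by
  obtain ⟨R, hR, hball⟩ := Metric.eventually_nhds_iff_ball.1 h.eventually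
  obtain ⟨F, hF, hFe⟩ := HarmonicOnNhd.exists_analyticOnNhd_ball_re_eq (z := w + p) (R := R)
    (f := u) (fun x hx => hball x hx)
  have h1 : AnalyticAt ℂ (fun x : ℂ => F (x + p)) w :=
    (hF (w + p) (mem_ball_self hR)).comp_of_eq (by fun_prop) rfl
  refine (harmonicAt_congr_nhds ?_).2 h1.harmonicAt_re
  have h2 : ∀ᶠ x in 𝓝 w, x + p ∈ ball (w + p) R := by
    have : ContinuousAt (fun x : ℂ => x + p) w := by fun_prop
    exact this (ball_mem_nhds _ hR)
  filter_upwards [h2] with x hx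
  exact (hFe hx).symm

/-- the theorem of Bocher: growth `o(1/|z - x|)` at `x` -/
theorem bocher {U : ℂ → ℝ} {x : ℂ} {r : ℝ} (hr : 0 < r) (hU : HarmonicOnNhd U (ball x r \ {x}))
    (hb : Tendsto (fun z : ℂ => ‖z - x‖ * U z) (𝓝[≠] x) (𝓝 0)) :
    ∃ (c : ℝ) (V : ℂ → ℝ), HarmonicOnNhd V (ball x r) ∧
      ∀ z ∈ ball x r, z ≠ x → U z = c * Real.log ‖z - x‖ + V z := by
  have hU0 : HarmonicOnNhd (fun z => U (z + x)) (ball 0 r \ {0}) := by
    intro z hz
    apply harmonicAt_shift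
    refine hU _ ⟨?_, ?_⟩
    · rw [mem_ball_iff_norm, add_sub_cancel_right]
      exact mem_ball_zero_iff.mp hz.1
    · intro h
      apply hz.2
      rw [mem_singleton_iff] at h ⊢
      exact add_eq_right.mp h
  have hb0 : Tendsto (fun z : ℂ => ‖z‖ * U (z + x)) (𝓝[≠] 0) (𝓝 0) := by
    have h1 : Tendsto (fun z : ℂ => z + x) (𝓝[≠] 0) (𝓝[≠] x) := by
      apply tendsto_nhdsWithin_of_tendsto_nhds_of_eventually_within
      · have : Tendsto (fun z : ℂ => z + x) (𝓝 0) (𝓝 (0 + x)) := by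
          exact (continuous_add_const x).tendsto 0
        rw [zero_add] at this
        exact this.mono_left nhdsWithin_le_nhds
      · filter_upwards [self_mem_nhdsWithin] with z hz h
        exact hz (add_eq_right.mp (mem_singleton_iff.mp h))
    have := hb.comp h1
    refine this.congr fun z => ?_
    simp [Function.comp]
  obtain ⟨c, V, hV, hUV⟩ := bocher_zero hr hU0 hb0
  refine ⟨c, fun z => V (z - x), ?_, ?_⟩
  · intro z hz
    have : HarmonicAt V (z + (-x)) := hV _ (by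
      rw [mem_ball_zero_iff, ← sub_eq_add_neg]
      exact mem_ball_iff_norm.mp hz)
    simpa only [← sub_eq_add_neg] using harmonicAt_shift this
  · intro z hz hzx
    have := hUV (z - x) (by rw [mem_ball_zero_iff]; exact mem_ball_iff_norm.mp hz)
      (sub_ne_zero.mpr hzx)
    simpa using this

/-- power growth `|U z| <= C |z - x|^(e-1)` -/
theorem bocher_pow {U : ℂ → ℝ} {x : ℂ} {r C e : ℝ} (hr : 0 < r) (he : 0 < e)
    (hU : HarmonicOnNhd U (ball x r \ {x}))
    (hb : ∀ z ∈ ball x r, z ≠ x → |U z| ≤ C * ‖z - x‖ ^ (e - 1)) :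
    ∃ (c : ℝ) (V : ℂ → ℝ), HarmonicOnNhd V (ball x r) ∧
      ∀ z ∈ ball x r, z ≠ x → U z = c * Real.log ‖z - x‖ + V z := by
  refine bocher hr hU ?_
  have h1 : Tendsto (fun z : ℂ => C * ‖z - x‖ ^ e) (𝓝[≠] x) (𝓝 0) := by
    have h2 : Tendsto (fun z : ℂ => ‖z - x‖) (𝓝[≠] x) (𝓝 0) := by
      have : Tendsto (fun z : ℂ => ‖z - x‖) (𝓝 x) (𝓝 ‖x - x‖) :=
        (continuous_id.sub continuous_const).norm.tendsto x
      rw [sub_self, norm_zero] at this
      exact this.mono_left nhdsWithin_le_nhds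
    have h3 : Tendsto (fun t : ℝ => t ^ e) (𝓝 0) (𝓝 0) := by
      have := (Real.continuousAt_rpow_const 0 e (Or.inr he.le)).tendsto
      rwa [Real.zero_rpow he.ne'] at this
    have := (h3.comp h2).const_mul C
    simpa [Function.comp] using this
  refine squeeze_zero_norm' ?_ h1
  have hball : ∀ᶠ z in 𝓝[≠] x, z ∈ ball x r :=
    nhdsWithin_le_nhds (isOpen_ball.mem_nhds (mem_ball_self hr))
  filter_upwards [hball, self_mem_nhdsWithin] with z hz hzx
  have hzx' : z ≠ x := hzx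
  have hp : 0 < ‖z - x‖ := norm_pos_iff.mpr (sub_ne_zero.mpr hzx')
  rw [norm_mul, norm_norm, Real.norm_eq_abs]
  have h2 := mul_le_mul_of_nonneg_left (hb z hz hzx') hp.le
  refine h2.trans (le_of_eq ?_)
  rw [Real.rpow_sub_one hp.ne']
  field_simp

/-- logarithmic growth -/
theorem bocher_log {U : ℂ → ℝ} {x : ℂ} {r C : ℝ} (hr : 0 < r)
    (hU : HarmonicOnNhd U (ball x r \ {x}))
    (hb : ∀ z ∈ ball x r, z ≠ x → |U z| ≤ C + C * |Real.log ‖z - x‖|) :
    ∃ (c : ℝ) (V : ℂ → ℝ), HarmonicOnNhd V (ball x r) ∧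
      ∀ z ∈ ball x r, z ≠ x → U z = c * Real.log ‖z - x‖ + V z := by
  refine bocher hr hU ?_
  have h2 : Tendsto (fun z : ℂ => ‖z - x‖) (𝓝[≠] x) (𝓝[>] 0) := by
    apply tendsto_nhdsWithin_of_tendsto_nhds_of_eventually_within
    · have : Tendsto (fun z : ℂ => ‖z - x‖) (𝓝 x) (𝓝 ‖x - x‖) :=
        (continuous_id.sub continuous_const).norm.tendsto x
      rw [sub_self, norm_zero] at this
      exact this.mono_left nhdsWithin_le_nhds
    · filter_upwards [self_mem_nhdsWithin] with z hz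
      exact norm_pos_iff.mpr (sub_ne_zero.mpr hz)
  have h3 : Tendsto (fun t : ℝ => t * (C + C * |Real.log t|)) (𝓝[>] 0) (𝓝 0) := by
    have h4 : Tendsto (fun t : ℝ => t * Real.log t) (𝓝[>] 0) (𝓝 0) := by
      have := tendsto_log_mul_rpow_nhdsGT_zero zero_lt_one
      simp only [Real.rpow_one] at this
      exact this.congr fun t => mul_comm _ _
    have h5 : Tendsto (fun t : ℝ => |t * Real.log t|) (𝓝[>] 0) (𝓝 0) := by
      simpa using h4.abs
    have h6 : Tendsto (fun t : ℝ => t) (𝓝[>] 0) (𝓝 0) := tendsto_id.mono_left nhdsWithin_le_nhds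
    have h7 : Tendsto (fun t : ℝ => C * t + C * |t * Real.log t|) (𝓝[>] 0) (𝓝 0) := by
      have := (h6.const_mul C).add (h5.const_mul C)
      simpa using this
    refine h7.congr' ?_
    filter_upwards [self_mem_nhdsWithin] with t ht
    have ht' : 0 < t := ht
    rw [abs_mul, abs_of_pos ht']
    ring
  have h1 := h3.comp h2
  refine squeeze_zero_norm' ?_ h1
  have hball : ∀ᶠ z in 𝓝[≠] x, z ∈ ball x r :=
    nhdsWithin_le_nhds (isOpen_ball.mem_nhds (mem_ball_self hr))
  filter_upwards [hball, self_mem_nhdsWithin] with z hz hzx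
  have hzx' : z ≠ x := hzx
  rw [norm_mul, norm_norm, Real.norm_eq_abs]
  exact mul_le_mul_of_nonneg_left (hb z hz hzx') (norm_nonneg _)

/-- a harmonic function in a punctured disc which is continuous at the centre is harmonic there -/
theorem harmonicOnNhd_of_punctured {U : ℂ → ℝ} {x : ℂ} {r : ℝ} (hr : 0 < r)
    (hU : HarmonicOnNhd U (ball x r \ {x})) (hc : ContinuousAt U x) :
    HarmonicOnNhd U (ball x r) := by
  have h2 : Tendsto (fun z : ℂ => ‖z - x‖) (𝓝[≠] x) (𝓝 0) := by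
    have : Tendsto (fun z : ℂ => ‖z - x‖) (𝓝 x) (𝓝 ‖x - x‖) :=
      (continuous_id.sub continuous_const).norm.tendsto x
    rw [sub_self, norm_zero] at this
    exact this.mono_left nhdsWithin_le_nhds
  have hUx : Tendsto U (𝓝[≠] x) (𝓝 (U x)) := hc.tendsto.mono_left nhdsWithin_le_nhds
  have hb : Tendsto (fun z : ℂ => ‖z - x‖ * U z) (𝓝[≠] x) (𝓝 0) := by
    simpa using h2.mul hUx
  obtain ⟨c, V, hV, hUV⟩ := bocher hr hU hb
  have hxb : x ∈ ball x r := mem_ball_self hr
  have hVc : Tendsto V (𝓝[≠] x) (𝓝 (V x)) :=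
    (((hV x hxb).1.continuousAt).tendsto).mono_left nhdsWithin_le_nhds
  have hball : ∀ᶠ z in 𝓝[≠] x, z ∈ ball x r :=
    nhdsWithin_le_nhds (isOpen_ball.mem_nhds hxb)
  -- the coefficient vanishes
  have hc0 : c = 0 := by
    by_contra hc0
    have h3 : Tendsto (fun z : ℂ => c * Real.log ‖z - x‖) (𝓝[≠] x) (𝓝 (U x - V x)) := by
      refine (hUx.sub hVc).congr' ?_
      filter_upwards [hball, self_mem_nhdsWithin] with z hz hzx
      rw [hUV z hz hzx]; ring
    have h4 : Tendsto (fun z : ℂ => Real.log ‖z - x‖) (𝓝[≠] x) (𝓝 (c⁻¹ * (U x - V x))) := by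
      refine (h3.const_mul c⁻¹).congr fun z => ?_
      field_simp
    have h5 : Tendsto (fun z : ℂ => ‖z - x‖) (𝓝[≠] x) (𝓝[>] 0) := by
      apply tendsto_nhdsWithin_of_tendsto_nhds_of_eventually_within _ h2
      filter_upwards [self_mem_nhdsWithin] with z hz
      exact norm_pos_iff.mpr (sub_ne_zero.mpr hz)
    have h6 : Tendsto (fun z : ℂ => Real.log ‖z - x‖) (𝓝[≠] x) atBot :=
      Real.tendsto_log_nhdsGT_zero.comp h5
    exact not_tendsto_nhds_of_tendsto_atBot h6 _ h4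
  have hVU : V x = U x := by
    have h3 : Tendsto U (𝓝[≠] x) (𝓝 (V x)) := by
      refine hVc.congr' ?_
      filter_upwards [hball, self_mem_nhdsWithin] with z hz hzx
      rw [hUV z hz hzx, hc0]; ring
    exact tendsto_nhds_unique h3 hUx
  intro z hz
  have hEq : U =ᶠ[𝓝 z] V := by
    filter_upwards [isOpen_ball.mem_nhds hz] with w hw
    by_cases hwx : w = x
    · rw [hwx, hVU]
    · rw [hUV w hw hwx, hc0]; ring
  exact (harmonicAt_congr_nhds hEq).2 (hV z hz)

end Pool.Agent.SixB
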