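import Pool.Agent.Lib.SixB.AN3P
import Pool.Agent.Lib.SixB.AN9c
import Pool.Agent.Lib.SixB.ANBocher

/-!
# SixB, AN3Q: isolated singular points on a wall

* `NHarm.wall_log`: at an isolated singular point `x` of a flat wall a Neumann function with growth
  `o(1 / |z - x|)` is `c log |z - x|` plus a function which extends harmonically.
* `NHarm.exists_logAt` (N3), `nharm_const_of_growth` (N2).
-/

set_option autoImplicit false

open Set Filter Topology Metric Complex InnerProductSpace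

open scoped ComplexConjugate

namespace Pool.Agent.SixB

variable {P : Finset (ℤ × ℤ)} {X : Set ℂ} {U : ℂ → ℝ} {x ν : ℂ}

private theorem harmonicAt_fold_neg (hν : ‖ν‖ = 1) {q : ℂ} (hq : sp (q - x) ν < 0)
    (h : HarmonicAt U (foldAt x ν q)) : HarmonicAt (fun z => U (foldAt x ν z)) q := by
  set a : ℂ := -I * ν with ha
  have hna : ‖a‖ = 1 := by rw [ha]; simp [hν]
  have hanz : a ≠ 0 := by rw [← norm_pos_iff, hna]; norm_num
  -- coordinates
  have hco : ∀ z : ℂ, x + (-x * a⁻¹ + z * a⁻¹) * a = z := by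
    intro z
    field_simp
    ring
  have him : ∀ z : ℂ, (-x * a⁻¹ + z * a⁻¹).im = sp (z - x) ν := by
    intro z
    obtain ⟨w, hz, -, hw⟩ := coord_of_ne (p := x) hν z
    rw [← hw, ← ha] at *
    have : -x * a⁻¹ + z * a⁻¹ = w := by
      rw [hz]
      field_simp
      ring
    rw [this]
  have hfold : ∀ z : ℂ, sp (z - x) ν < 0 → foldAt x ν z = x + conj (-x * a⁻¹ + z * a⁻¹) * a := by
    intro z hz
    have h1 := foldAt_coord (p := x) hν (-x * a⁻¹ + z * a⁻¹)
    rw [← ha, hco] at h1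
    rw [h1, fold_of_nonpos (by rw [him]; exact hz.le)]
  have h1 : HarmonicAt (fun w => U (x + w * a)) (conj (-x * a⁻¹ + q * a⁻¹)) := by
    apply harmonicAt_comp_affine
    rw [← hfold q hq]
    exact h
  have h2 := harmonicAt_comp_conj h1
  have h3 : HarmonicAt (fun z => (fun w => (fun w => U (x + w * a)) (conj w)) (-x * a⁻¹ + z * a⁻¹)) q :=
    harmonicAt_comp_affine h2
  refine (harmonicAt_congr_nhds ?_).1 h3
  have h4 : ∀ᶠ z in 𝓝 q, sp (z - x) ν < 0 := by
    have : Continuous fun y : ℂ => sp (y - x) ν := by unfold sp; fun_prop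
    exact this.continuousAt.eventually (gt_mem_nhds hq)
  filter_upwards [h4] with z hz
  rw [hfold z hz]

/-- the even extension near an isolated singular point of a flat wall -/
theorem NHarm.wall_ext_punctured {r : ℝ} (h : NHarm P X U) (hf : Flat P x ν r)
    (hX : ∀ z ∈ X, z ≠ x → r ≤ ‖z - x‖) :
    HarmonicOnNhd (fun z => U (foldAt x ν z)) (ball x r \ {x}) := by
  rintro q ⟨hq, hqx⟩
  rw [mem_ball, dist_eq_norm] at hq
  rw [mem_singleton_iff] at hqx
  have hν := norm_of_isDir hf.1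
  rcases lt_trichotomy (sp (q - x) ν) 0 with hs | hs | hs
  · refine harmonicAt_fold_neg hν hs (h.harm _ (hf.mem_Om ?_ ?_))
    · rw [norm_foldAt_sub hν]
      exact hq
    · rw [sp_foldAt hν]
      exact abs_pos.2 hs.ne
  · -- on the wall: use the reflection at `q`
    set ρ : ℝ := min (r - ‖q - x‖) ‖q - x‖ with hρ
    have hqx' : 0 < ‖q - x‖ := norm_pos_iff.2 (sub_ne_zero.2 hqx)
    have hρ0 : 0 < ρ := lt_min (by linarith) hqx'
    have hsp : ∀ z : ℂ, sp (z - x) ν = sp (z - q) ν := by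
      intro z
      have e : z - x = (z - q) + (q - x) := by ring
      rw [e, spn_add, hs, add_zero]
    have hfq : Flat P q ν ρ := by
      refine ⟨hf.1, fun z hz => ?_⟩
      have h1 : ‖z - x‖ < r := by
        have e : z - x = (z - q) + (q - x) := by ring
        rw [e]
        have := min_le_left (r - ‖q - x‖) ‖q - x‖
        refine (norm_add_le _ _).trans_lt ?_
        linarith
      rw [hf.2 z h1, hsp]
    have h1 := h.wall_ext hfq (fun z hz => by
      have m1 := min_le_left (r - ‖q - x‖) ‖q - x‖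
      have m2 := min_le_right (r - ‖q - x‖) ‖q - x‖
      by_cases hzx : z = x
      · rw [hzx, norm_sub_rev]
        exact m2
      · have h2 := hX z hz hzx
        have h3 : ‖z - x‖ ≤ ‖z - q‖ + ‖q - x‖ := by
          have e : z - x = (z - q) + (q - x) := by ring
          rw [e]
          exact norm_add_le _ _
        linarith)
    have h2 := h1 q (mem_ball_self hρ0)
    refine (harmonicAt_congr_nhds (Filter.Eventually.of_forall fun z => ?_)).1 h2
    simp only [foldAt, hsp]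
  · have h1 : q ∈ Om P := hf.mem_Om hq hs
    refine (harmonicAt_congr_nhds ?_).1 (h.harm q h1)
    have h4 : ∀ᶠ z in 𝓝 q, 0 < sp (z - x) ν := by
      have : Continuous fun y : ℂ => sp (y - x) ν := by unfold sp; fun_prop
      exact this.continuousAt.eventually (lt_mem_nhds hs)
    filter_upwards [h4] with z hz
    rw [foldAt_of_nonneg hz.le]

/-- N3: expansion at an isolated singular point of a flat wall -/
theorem NHarm.wall_log {r : ℝ} (hr : 0 < r) (h : NHarm P X U) (hf : Flat P x ν r)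
    (hX : ∀ z ∈ X, z ≠ x → r ≤ ‖z - x‖)
    (hb : Tendsto (fun z : ℂ => ‖z - x‖ * U z) (𝓝[Cl P \ {x}] x) (𝓝 0)) :
    ∃ (c : ℝ) (V : ℂ → ℝ), HarmonicOnNhd V (ball x r) ∧
      ∀ z : ℂ, ‖z - x‖ < r → z ≠ x → U (foldAt x ν z) = c * Real.log ‖z - x‖ + V z := by
  have hν := norm_of_isDir hf.1
  have h1 : Tendsto (fun z : ℂ => ‖z - x‖ * U (foldAt x ν z)) (𝓝[≠] x) (𝓝 0) := by
    have h2 : Tendsto (foldAt x ν) (𝓝[≠] x) (𝓝[Cl P \ {x}] x) := by
      refine tendsto_nhdsWithin_iff.2 ⟨?_, ?_⟩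
      · have h3 := (continuous_foldAt x ν).tendsto x
        rw [foldAt_of_zero (by simp [sp])] at h3
        exact h3.mono_left nhdsWithin_le_nhds
      · filter_upwards [nhdsWithin_le_nhds (ball_mem_nhds x hr), self_mem_nhdsWithin] with z hz hzx
        rw [mem_ball, dist_eq_norm] at hz
        refine ⟨hf.fold_mem hz, fun hcon => hzx ?_⟩
        rw [mem_singleton_iff] at hcon ⊢
        have h4 := norm_foldAt_sub (p := x) hν z
        rw [hcon, sub_self, norm_zero] at h4
        exact sub_eq_zero.1 (norm_eq_zero.1 h4.symm)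
    have h3 := hb.comp h2
    refine h3.congr fun z => ?_
    simp only [Function.comp, norm_foldAt_sub hν]
  obtain ⟨c, V, hV, hUV⟩ := bocher hr (h.wall_ext_punctured hf hX) h1
  refine ⟨c, V, hV, fun z hz hzx => ?_⟩
  exact hUV z (by rw [mem_ball, dist_eq_norm]; exact hz) hzx

/-- N3: a growth bound gives a logarithmic point -/
theorem NHarm.exists_logAt {r : ℝ} (hr : 0 < r) (h : NHarm P X U) (hf : Flat P x ν r)
    (hX : ∀ z ∈ X, z ≠ x → r ≤ ‖z - x‖)
    (hb : Tendsto (fun z : ℂ => ‖z - x‖ * U z) (𝓝[Cl P \ {x}] x) (𝓝 0)) :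
    ∃ c : ℝ, LogAt P U x c := by
  obtain ⟨c, V, hV, hUV⟩ := h.wall_log hr hf hX hb
  have hsub : closedBall x (r / 2) ⊆ ball x r := closedBall_subset_ball (by linarith)
  obtain ⟨C, hC⟩ := (isCompact_closedBall x (r / 2)).exists_bound_of_continuousOn
    (hV.continuousOn.mono hsub)
  refine ⟨c, r / 2, half_pos hr, C, fun z hz hzx hzr => ?_⟩
  have hzr' : ‖z - x‖ < r := by linarith
  have h1 := hUV z hzr' hzx
  rw [Flat.ext_eq (U := U) hf hzr' hz] at h1
  rw [h1, add_sub_cancel_left]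
  exact hC z (by rw [mem_closedBall, dist_eq_norm]; exact hzr.le)

theorem isolated_of_finite (hX : X.Finite) (x : ℂ) :
    ∃ r > (0 : ℝ), ∀ z ∈ X, z ≠ x → r ≤ ‖z - x‖ := by
  have hcl : IsClosed (X \ {x}) := (hX.subset sdiff_subset).isClosed
  have hmem : x ∈ (X \ {x})ᶜ := by simp
  obtain ⟨r, hr, hball⟩ := Metric.isOpen_iff.1 hcl.isOpen_compl x hmem
  refine ⟨r, hr, fun z hz hzp => ?_⟩
  by_contra hcon
  push Not at hcon
  have hzb : z ∈ ball x r := by rw [mem_ball, dist_eq_norm]; exact hcon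
  exact hball hzb ⟨hz, hzp⟩

/-- N3 at a wall point, any finite set of singular points -/
theorem NHarm.exists_logAt_wall (h : NHarm P X U) (hX : X.Finite) (hw : Wall P x ν)
    (hb : Tendsto (fun z : ℂ => ‖z - x‖ * U z) (𝓝[Cl P \ {x}] x) (𝓝 0)) :
    ∃ c : ℝ, LogAt P U x c := by
  obtain ⟨r, hr, hf⟩ := hw.exists_flat
  obtain ⟨r', hr', hfar⟩ := isolated_of_finite hX x
  refine h.exists_logAt (lt_min hr hr') (hf.mono (min_le_left _ _)) (fun z hz hzx => ?_) hb
  exact (min_le_right _ _).trans (hfar z hz hzx)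

private theorem tendsto_norm_sub (x : ℂ) (s : Set ℂ) :
    Tendsto (fun z : ℂ => ‖z - x‖) (𝓝[s] x) (𝓝 0) := by
  have : Tendsto (fun z : ℂ => ‖z - x‖) (𝓝 x) (𝓝 ‖x - x‖) :=
    (continuous_id.sub continuous_const).norm.tendsto x
  rw [sub_self, norm_zero] at this
  exact this.mono_left nhdsWithin_le_nhds

theorem tendsto_of_logB (hL : LogB P U x) :
    Tendsto (fun z : ℂ => ‖z - x‖ * U z) (𝓝[Cl P \ {x}] x) (𝓝 0) := by
  obtain ⟨C, hC⟩ := hL
  have h0 := tendsto_norm_sub x (Cl P \ {x})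
  have h1 : Tendsto (fun t : ℝ => |C| * |t| + |C| * |t * Real.log t|) (𝓝 0) (𝓝 0) := by
    have h2 : Continuous (fun t : ℝ => |C| * |t| + |C| * |t * Real.log t|) := by
      have := Real.continuous_mul_log
      fun_prop
    have h3 := h2.tendsto 0
    simpa using h3
  refine squeeze_zero_norm' ?_ (h1.comp h0)
  filter_upwards [self_mem_nhdsWithin] with z hz
  have h4 := hC z hz.1 hz.2
  have hn := norm_nonneg (z - x)
  rw [Function.comp, Real.norm_eq_abs, abs_mul, abs_mul, abs_of_nonneg hn]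
  calc ‖z - x‖ * |U z| ≤ ‖z - x‖ * (C + C * |Real.log ‖z - x‖|) :=
        mul_le_mul_of_nonneg_left h4 hn
    _ ≤ ‖z - x‖ * (|C| + |C| * |Real.log ‖z - x‖|) := by
        refine mul_le_mul_of_nonneg_left ?_ hn
        have g1 := le_abs_self C
        have g2 := mul_le_mul_of_nonneg_right g1 (abs_nonneg (Real.log ‖z - x‖))
        linarith
    _ = |C| * ‖z - x‖ + |C| * (‖z - x‖ * |Real.log ‖z - x‖|) := by ring

theorem tendsto_of_pow {C e r : ℝ} (hr : 0 < r) (he : 0 < e)
    (hb : ∀ z ∈ Cl P, z ≠ x → ‖z - x‖ < r → |U z| ≤ C * ‖z - x‖ ^ (e - 1)) :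
    Tendsto (fun z : ℂ => ‖z - x‖ * U z) (𝓝[Cl P \ {x}] x) (𝓝 0) := by
  have h0 := tendsto_norm_sub x (Cl P \ {x})
  have h1 : Tendsto (fun t : ℝ => C * t ^ e) (𝓝 0) (𝓝 0) := by
    have h2 : Continuous (fun t : ℝ => C * t ^ e) :=
      continuous_const.mul (Real.continuous_rpow_const he.le)
    have h3 := h2.tendsto 0
    rwa [Real.zero_rpow he.ne', mul_zero] at h3
  refine squeeze_zero_norm' ?_ (h1.comp h0)
  have h5 : ∀ᶠ z in 𝓝[Cl P \ {x}] x, ‖z - x‖ < r := h0.eventually_lt_const hr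
  filter_upwards [self_mem_nhdsWithin, h5] with z hz hzr
  have hzx : z ≠ x := hz.2
  have h4 := hb z hz.1 hzx hzr
  have hn : 0 < ‖z - x‖ := norm_pos_iff.2 (sub_ne_zero.2 hzx)
  rw [Function.comp, Real.norm_eq_abs, abs_mul, abs_of_pos hn]
  calc ‖z - x‖ * |U z| ≤ ‖z - x‖ * (C * ‖z - x‖ ^ (e - 1)) :=
        mul_le_mul_of_nonneg_left h4 hn.le
    _ = C * ‖z - x‖ ^ e := by
        rw [Real.rpow_sub hn, Real.rpow_one]
        field_simp

/-! ## N2 -/

private theorem const_aux (hP : MPoly P) (hx : x ∉ Om P) (hU : NHarm P {x} U) {c : ℝ}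
    (hc0 : 0 ≤ c) (hc : LogAt P U x c) : ∃ c, ∀ z ∈ Cl P \ {x}, U z = c := by
  obtain ⟨r, hr, C', hC'⟩ := hc
  -- away from `x` the function is bounded
  have hK : IsCompact (Cl P \ ball x r) := (isCompact_Cl P).diff isOpen_ball
  have hsub : Cl P \ ball x r ⊆ Cl P \ {x} := by
    rintro z ⟨h1, h2⟩
    refine ⟨h1, fun h3 => h2 ?_⟩
    rw [mem_singleton_iff] at h3
    rw [h3]
    exact mem_ball_self hr
  obtain ⟨B, hB⟩ := hK.exists_bound_of_continuousOn (hU.cont.mono hsub)
  refine nharm_const_of_le hP (finite_singleton x) hU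
    (B := max B (C' + c * Real.log r)) fun z hz => ?_
  rcases le_or_gt r ‖z - x‖ with h | h
  · have h1 := hB z ⟨Om_subset_Cl P hz, by rw [mem_ball, dist_eq_norm, not_lt]; exact h⟩
    exact (le_abs_self _).trans (h1.trans (le_max_left _ _))
  · have hzx : z ≠ x := by
      rintro rfl
      exact hx hz
    have h1 := (abs_le.1 (hC' z (Om_subset_Cl P hz) hzx h)).2
    have h2 : Real.log ‖z - x‖ ≤ Real.log r :=
      Real.log_le_log (norm_pos_iff.2 (sub_ne_zero.2 hzx)) h.le
    have h3 := mul_le_mul_of_nonneg_left h2 hc0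
    exact le_trans (by linarith) (le_max_right _ _)

/-- N2: a Neumann function whose only singular point is a wall point with growth `o(1 / |z - x|)`
is constant. -/
theorem nharm_const_of_growth (hP : MPoly P) (hw : Wall P x ν) (hU : NHarm P {x} U)
    (hb : Tendsto (fun z : ℂ => ‖z - x‖ * U z) (𝓝[Cl P \ {x}] x) (𝓝 0)) :
    ∃ c, ∀ z ∈ Cl P \ {x}, U z = c := by
  have hx : x ∉ Om P := by
    have := hw.mem_frontier
    rw [frontier_Om] at this
    exact this.2
  obtain ⟨c, hc⟩ := hU.exists_logAt_wall (finite_singleton x) hw hb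
  rcases le_total 0 c with hc0 | hc0
  · exact const_aux hP hx hU hc0 hc
  · obtain ⟨c', hc'⟩ := const_aux hP hx hU.neg (neg_nonneg.2 hc0) hc.neg
    exact ⟨-c', fun z hz => by linarith [hc' z hz]⟩

/-- N2 with at most logarithmic growth -/
theorem nharm_const_of_logB (hP : MPoly P) (hw : Wall P x ν) (hU : NHarm P {x} U)
    (hL : LogB P U x) : ∃ c, ∀ z ∈ Cl P \ {x}, U z = c :=
  nharm_const_of_growth hP hw hU (tendsto_of_logB hL)

/-- N2 with growth `|z - x| ^ (e - 1)`, `0 < e` -/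
theorem nharm_const_of_pow (hP : MPoly P) (hw : Wall P x ν) (hU : NHarm P {x} U) {C e r : ℝ}
    (hr : 0 < r) (he : 0 < e)
    (hb : ∀ z ∈ Cl P, z ≠ x → ‖z - x‖ < r → |U z| ≤ C * ‖z - x‖ ^ (e - 1)) :
    ∃ c, ∀ z ∈ Cl P \ {x}, U z = c :=
  nharm_const_of_growth hP hw hU (tendsto_of_pow hr he hb)

end Pool.Agent.SixB
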