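import Pool.Agent.Lib.SixB.AN3Q

/-!
# SixB, AN3R: uniqueness with one weak pole and finitely many exceptional boundary points
-/

set_option autoImplicit false

open Set Filter Topology Metric Complex InnerProductSpace

namespace Pool.Agent.SixB

variable {P : Finset (ℤ × ℤ)} {X : Set ℂ} {U : ℂ → ℝ} {x ν : ℂ}

/-- a constant on the open region extends to all points of continuity -/
theorem const_extend {S : Set ℂ} {a : ℝ} (hc : ContinuousOn U S) (hS : Om P ⊆ S)
    (ha : ∀ z ∈ Om P, U z = a) : ∀ z ∈ Cl P ∩ S, U z = a := by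
  rintro z ⟨hz, hzS⟩
  have h1 : z ∈ closure (Om P) := by rwa [closure_Om]
  have h2 : ContinuousWithinAt U (Om P) z := (hc z hzS).mono hS
  have h3 := h2.mem_closure_image h1
  have h4 : closure (U '' Om P) ⊆ {a} := by
    refine closure_minimal ?_ isClosed_singleton
    rintro _ ⟨y, hy, rfl⟩
    exact ha y hy
  exact h4 h3

private theorem tendsto_of_add_pow {C e : ℝ} (he : 0 < e)
    (hb : ∀ z ∈ Cl P, z ≠ x → |U z| ≤ C + C * ‖z - x‖ ^ (e - 1)) :
    Tendsto (fun z : ℂ => ‖z - x‖ * U z) (𝓝[Cl P \ {x}] x) (𝓝 0) := by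
  have h0 : Tendsto (fun z : ℂ => ‖z - x‖) (𝓝[Cl P \ {x}] x) (𝓝 0) := by
    have : Tendsto (fun z : ℂ => ‖z - x‖) (𝓝 x) (𝓝 ‖x - x‖) :=
      (continuous_id.sub continuous_const).norm.tendsto x
    rw [sub_self, norm_zero] at this
    exact this.mono_left nhdsWithin_le_nhds
  have h1 : Tendsto (fun t : ℝ => C * t + C * t ^ e) (𝓝 0) (𝓝 0) := by
    have h2 : Continuous (fun t : ℝ => C * t + C * t ^ e) :=
      (continuous_const.mul continuous_id).add
        (continuous_const.mul (Real.continuous_rpow_const he.le))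
    have h3 := h2.tendsto 0
    rwa [Real.zero_rpow he.ne', mul_zero, add_zero] at h3
  refine squeeze_zero_norm' ?_ (h1.comp h0)
  filter_upwards [self_mem_nhdsWithin] with z hz
  have hzx : z ≠ x := hz.2
  have h4 := hb z hz.1 hzx
  have hn : 0 < ‖z - x‖ := norm_pos_iff.2 (sub_ne_zero.2 hzx)
  rw [Function.comp, Real.norm_eq_abs, abs_mul, abs_of_pos hn]
  calc ‖z - x‖ * |U z| ≤ ‖z - x‖ * (C + C * ‖z - x‖ ^ (e - 1)) :=
        mul_le_mul_of_nonneg_left h4 hn.le
    _ = C * ‖z - x‖ + C * ‖z - x‖ ^ e := by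
        rw [Real.rpow_sub hn, Real.rpow_one]
        field_simp

private theorem const_aux2 (hP : MPoly P) (hX : X.Finite) (hx : x ∉ Om P)
    (hU : NHarm P X U) (hc : ContinuousOn U (Cl P \ {x})) {c : ℝ}
    (hc0 : 0 ≤ c) (hL : LogAt P U x c) : ∃ c, ∀ z ∈ Cl P \ X, U z = c := by
  obtain ⟨r, hr, C', hC'⟩ := hL
  have hK : IsCompact (Cl P \ ball x r) := (isCompact_Cl P).diff isOpen_ball
  have hsub : Cl P \ ball x r ⊆ Cl P \ {x} := by
    rintro z ⟨h1, h2⟩
    refine ⟨h1, fun h3 => h2 ?_⟩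
    rw [mem_singleton_iff] at h3
    rw [h3]
    exact mem_ball_self hr
  obtain ⟨B, hB⟩ := hK.exists_bound_of_continuousOn (hc.mono hsub)
  refine nharm_const_of_le hP hX hU (B := max B (C' + c * Real.log r)) fun z hz => ?_
  rcases le_or_gt r ‖z - x‖ with h | h
  · have h1 := hB z ⟨Om_subset_Cl P hz, by rw [mem_ball, dist_eq_norm, not_lt]; exact h⟩
    exact (le_abs_self _).trans (h1.trans (le_max_left _ _))
  · have hzx : z ≠ x := by
      rintro rfl
      exact hx hz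
    have h1 := (abs_le.1 (hC' z (Om_subset_Cl P hz) hzx h)).2
    have h2 : Real.log ‖z - x‖ ≤ Real.log r :=
      Real.log_le_log (norm_pos_iff.2 (sub_ne_zero.2 hzx)) h.le
    have h3 := mul_le_mul_of_nonneg_left h2 hc0
    exact le_trans (by linarith) (le_max_right _ _)

/-- Uniqueness with one pole at the wall point `x` (growth `o(1 / |z - x|)`) and a finite set `X` of
exceptional boundary points where the function is continuous. -/
theorem nharm_const_of_growth_X (hP : MPoly P) (hX : X.Finite) (hXO : ∀ z ∈ X, z ∉ Om P)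
    (hw : Wall P x ν) (hh : HarmonicOnNhd U (Om P)) (hc : ContinuousOn U (Cl P \ {x}))
    (hx : x ∈ X) (hN : ∀ p ν : ℂ, p ∉ X → Wall P p ν → NeuAt P U p ν)
    (hb : Tendsto (fun z : ℂ => ‖z - x‖ * U z) (𝓝[Cl P \ {x}] x) (𝓝 0)) :
    ∃ a : ℝ, ∀ z ∈ Cl P \ {x}, U z = a := by
  have hU : NHarm P X U := ⟨hh, hc.mono fun z hz => ⟨hz.1, fun h => hz.2 (by
    rw [mem_singleton_iff] at h
    rw [h]
    exact hx)⟩, hN⟩
  have hxO : x ∉ Om P := hXO x hx
  obtain ⟨c, hcL⟩ := hU.exists_logAt_wall hX hw hb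
  have key : ∃ a, ∀ z ∈ Cl P \ X, U z = a := by
    rcases le_total 0 c with hc0 | hc0
    · exact const_aux2 hP hX hxO hU hc hc0 hcL
    · obtain ⟨c', hc'⟩ := const_aux2 hP hX hxO hU.neg hc.neg (neg_nonneg.2 hc0) hcL.neg
      exact ⟨-c', fun z hz => by linarith [hc' z hz]⟩
  obtain ⟨a, ha⟩ := key
  refine ⟨a, fun z hz => ?_⟩
  refine const_extend hc (fun w hw' => ⟨Om_subset_Cl P hw', fun h => ?_⟩) (fun w hw' => ?_) z
    ⟨hz.1, hz⟩
  · rw [mem_singleton_iff] at h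
    exact hxO (h ▸ hw')
  · exact ha w ⟨Om_subset_Cl P hw', fun h => hXO w h hw'⟩

/-- the same with the growth bound `C + C |z - x| ^ (c - 1)` -/
theorem nharm_const_of_pow_X (hP : MPoly P) {C c : ℝ} (hX : X.Finite)
    (hXO : ∀ z ∈ X, z ∉ Om P) (hx : x ∈ X) (hw : Wall P x ν) (hc0 : 0 < c)
    (hh : HarmonicOnNhd U (Om P)) (hc : ContinuousOn U (Cl P \ {x}))
    (hN : ∀ p ν : ℂ, p ∉ X → Wall P p ν → NeuAt P U p ν)
    (hb : ∀ z ∈ Cl P, z ≠ x → |U z| ≤ C + C * ‖z - x‖ ^ (c - 1)) :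
    ∃ a : ℝ, ∀ z ∈ Cl P \ {x}, U z = a :=
  nharm_const_of_growth_X hP hX hXO hw hh hc hx hN (tendsto_of_add_pow hc0 hb)

end Pool.Agent.SixB
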