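import Mathlib

/-! Analysis package for MP_6bd702: slow variation lemma (AN4). -/

open Filter Topology

namespace Pool.Agent.SixB

/-- If the increments of `s` tend to `0` and all partial sums of `s j - l` are bounded by `C`,
then `s` tends to `l`. -/
theorem tendsto_of_slow_of_bounded_sums {s : ℕ → ℝ} {l C : ℝ}
    (h1 : Tendsto (fun j => s (j + 1) - s j) atTop (𝓝 0))
    (h2 : ∀ a b, |∑ j ∈ Finset.Ico a b, (s j - l)| ≤ C) : Tendsto s atTop (𝓝 l) := by
  have hC : 0 ≤ C := le_trans (abs_nonneg _) (h2 0 0)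
  rw [Metric.tendsto_atTop]
  intro ε hε
  obtain ⟨M, hM⟩ := exists_nat_gt (2 * C / ε + 1)
  have hM0 : (0:ℝ) < M := by
    have : 0 ≤ 2 * C / ε := by positivity
    linarith
  have hMC : C < M * (ε / 2) := by
    have h3 : 2 * C / ε < M := by linarith
    rw [div_lt_iff₀ hε] at h3
    linarith
  rw [Metric.tendsto_atTop] at h1
  obtain ⟨J, hJ⟩ := h1 (ε / (2 * M)) (by positivity)
  refine ⟨J, fun j hj => ?_⟩
  by_contra hcon
  rw [Real.dist_eq, not_lt] at hcon
  -- along the block
  have hstep : ∀ i : ℕ, i ≤ M → |s (j + i) - s j| ≤ i * (ε / (2 * M)) := by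
    intro i hi
    induction i with
    | zero => simp
    | succ i ih =>
      have h3 := ih (by omega)
      have h4 := hJ (j + i) (by omega)
      rw [Real.dist_eq, sub_zero] at h4
      have h5 : s (j + (i + 1)) - s j = (s (j + i + 1) - s (j + i)) + (s (j + i) - s j) := by
        rw [← add_assoc]; ring
      rw [h5]
      calc |(s (j + i + 1) - s (j + i)) + (s (j + i) - s j)|
          ≤ |s (j + i + 1) - s (j + i)| + |s (j + i) - s j| := abs_add_le _ _
        _ ≤ ε / (2 * M) + i * (ε / (2 * M)) := by linarith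
        _ = ((i + 1 : ℕ) : ℝ) * (ε / (2 * M)) := by push_cast; ring
  have hclose : ∀ i : ℕ, i < M → |s (j + i) - s j| ≤ ε / 2 := by
    intro i hi
    refine (hstep i hi.le).trans ?_
    have h3 : (i : ℝ) ≤ M := by exact_mod_cast hi.le
    calc (i : ℝ) * (ε / (2 * M)) ≤ M * (ε / (2 * M)) := by gcongr
      _ = ε / 2 := by field_simp
  have hsum := h2 j (j + M)
  rw [Finset.sum_Ico_eq_sum_range, Nat.add_sub_cancel_left] at hsum
  rcases le_abs.1 hcon with h | h
  · have h3 : (M : ℝ) * (ε / 2) ≤ ∑ i ∈ Finset.range M, (s (j + i) - l) := by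
      calc (M : ℝ) * (ε / 2) = ∑ _i ∈ Finset.range M, (ε / 2) := by simp
        _ ≤ ∑ i ∈ Finset.range M, (s (j + i) - l) := by
          refine Finset.sum_le_sum fun i hi => ?_
          have h4 := (abs_le.1 (hclose i (Finset.mem_range.1 hi))).1
          linarith
    have h4 := (abs_le.1 hsum).2
    linarith
  · have h3 : ∑ i ∈ Finset.range M, (s (j + i) - l) ≤ -((M : ℝ) * (ε / 2)) := by
      calc ∑ i ∈ Finset.range M, (s (j + i) - l)
          ≤ ∑ _i ∈ Finset.range M, (-(ε / 2)) := by
            refine Finset.sum_le_sum fun i hi => ?_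
            have h4 := (abs_le.1 (hclose i (Finset.mem_range.1 hi))).2
            linarith
        _ = -((M : ℝ) * (ε / 2)) := by simp
    have h4 := (abs_le.1 hsum).1
    linarith

end Pool.Agent.SixB
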