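import Mathlib

/-!
# Discrete to continuum compactness (AN6)

* `AE l F D`: the functions `F i` are asymptotically (along the filter `l`) equicontinuous on the
  compact subsets of `D`. The `F i` need not be continuous (lattice step functions).
* `ascoli_ultra`: along an ULTRAFILTER they converge locally uniformly on `D` to a continuous
  function (if they are bounded at one point of the connected open set `D`). No diagonal
  argument is needed for several domains or functions: use the same ultrafilter. At the end use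
  `Filter.tendsto_iff_ultrafilter` (a quantity converges along `atTop` iff it converges to the same
  limit along every ultrafilter below `atTop`).
* `ascoli_seq`: the version with a subsequence.
-/

set_option autoImplicit false

namespace Pool.Agent.SixB.DC

open Filter Topology Set

section General

variable {X E ι : Type*} [PseudoMetricSpace X] [PseudoMetricSpace E]

/-- `F i` is asymptotically equicontinuous along `l` on the compact subsets of `D`. -/
def AE (l : Filter ι) (F : ι → X → E) (D : Set X) : Prop :=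
  ∀ K ⊆ D, IsCompact K → ∀ ε > 0, ∃ δ > 0, ∀ᶠ i in l, ∀ x ∈ K, ∀ y ∈ K, dist x y < δ →
    dist (F i x) (F i y) < ε

theorem AE.mono {l l' : Filter ι} {F : ι → X → E} {D D' : Set X} (h : AE l F D) (hl : l' ≤ l)
    (hD : D' ⊆ D) : AE l' F D' := by
  intro K hK hc ε hε
  obtain ⟨δ, hδ, h1⟩ := h K (hK.trans hD) hc ε hε
  exact ⟨δ, hδ, hl h1⟩

theorem AE.comp {κ : Type*} {l : Filter ι} {F : ι → X → E} {D : Set X} (h : AE l F D)
    {m : Filter κ} {φ : κ → ι} (hφ : Tendsto φ m l) : AE m (fun k => F (φ k)) D := by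
  intro K hK hc ε hε
  obtain ⟨δ, hδ, h1⟩ := h K hK hc ε hε
  exact ⟨δ, hδ, hφ.eventually h1⟩

/-- a closed ball around a point of an open set is a compact subset -/
private lemma exists_ball [LocallyCompactSpace X] {D : Set X} (hD : IsOpen D) {x : X} (hx : x ∈ D) :
    ∃ K ⊆ D, IsCompact K ∧ ∃ r > 0, Metric.ball x r ⊆ K := by
  obtain ⟨K, hK, hKD, hc⟩ := local_compact_nhds (hD.mem_nhds hx)
  obtain ⟨r, hr, hr'⟩ := Metric.mem_nhds_iff.1 hK
  exact ⟨K, hKD, hc, r, hr, hr'⟩

/-- boundedness propagates in a connected open set -/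
theorem AE.bdd [LocallyCompactSpace X] {l : Filter ι} {F : ι → X → E} {D : Set X}
    (h : AE l F D) (hD : IsOpen D) (hc : IsPreconnected D) {x₀ x : X} (hx₀ : x₀ ∈ D)
    (hx : x ∈ D) : ∃ B : ℝ, ∀ᶠ i in l, dist (F i x) (F i x₀) ≤ B := by
  let S : Set X := {x | x ∈ D ∧ ∃ B : ℝ, ∀ᶠ i in l, dist (F i x) (F i x₀) ≤ B}
  have key : ∀ x ∈ D, ∃ r > 0, Metric.ball x r ⊆ D ∧ ∀ y ∈ Metric.ball x r,
      ∀ᶠ i in l, dist (F i x) (F i y) ≤ 1 := by
    intro x hx
    obtain ⟨K, hKD, hKc, r, hr, hrK⟩ := exists_ball hD hx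
    obtain ⟨δ, hδ, h1⟩ := h K hKD hKc 1 one_pos
    refine ⟨min r δ, lt_min hr hδ, ?_, ?_⟩
    · exact (Metric.ball_subset_ball (min_le_left _ _)).trans (hrK.trans hKD)
    · intro y hy
      rw [Metric.mem_ball] at hy
      filter_upwards [h1] with i hi
      refine (hi x (hrK (Metric.mem_ball_self hr)) y (hrK ?_) ?_).le
      · rw [Metric.mem_ball]; exact hy.trans_le (min_le_left _ _)
      · rw [dist_comm]; exact hy.trans_le (min_le_right _ _)
  have hSo : IsOpen S := by
    rw [Metric.isOpen_iff]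
    rintro x ⟨hx, B, hB⟩
    obtain ⟨r, hr, hrD, hrK⟩ := key x hx
    refine ⟨r, hr, fun y hy => ⟨hrD hy, 1 + B, ?_⟩⟩
    filter_upwards [hB, hrK y hy] with i h1 h2
    calc dist (F i y) (F i x₀) ≤ dist (F i y) (F i x) + dist (F i x) (F i x₀) := dist_triangle _ _ _
      _ ≤ 1 + B := by rw [dist_comm (F i y)]; exact add_le_add h2 h1
  have hSD : D ⊆ S := by
    refine hc.subset_of_closure_inter_subset hSo ⟨x₀, hx₀, hx₀, 0, ?_⟩ ?_
    · exact Eventually.of_forall fun i => by rw [dist_self]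
    · rintro y ⟨hy, hyD⟩
      obtain ⟨r, hr, hrD, hrK⟩ := key y hyD
      obtain ⟨z, hz, hzS⟩ := Metric.mem_closure_iff.1 hy r hr
      obtain ⟨hzD, B, hB⟩ := hz
      refine ⟨hyD, 1 + B, ?_⟩
      filter_upwards [hB, hrK z (by rw [Metric.mem_ball, dist_comm]; exact hzS)] with i h1 h2
      calc dist (F i y) (F i x₀) ≤ dist (F i y) (F i z) + dist (F i z) (F i x₀) :=
            dist_triangle _ _ _
        _ ≤ 1 + B := add_le_add h2 h1
  exact (hSD hx).2

/-- uniform bound on compact sets -/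
theorem AE.bdd_compact {l : Filter ι} {F : ι → X → E} {D K : Set X}
    (h : AE l F D) (hK : K ⊆ D) (hKc : IsCompact K) {x₀ : X}
    (hb : ∀ x ∈ K, ∃ B : ℝ, ∀ᶠ i in l, dist (F i x) (F i x₀) ≤ B) :
    ∃ B : ℝ, ∀ᶠ i in l, ∀ x ∈ K, dist (F i x) (F i x₀) ≤ B := by
  obtain ⟨δ, hδ, h1⟩ := h K hK hKc 1 one_pos
  obtain ⟨t, htK, ht⟩ := hKc.elim_nhds_subcover (fun x => Metric.ball x δ)
    (fun x _ => Metric.ball_mem_nhds x hδ)
  choose! B hB using hb
  refine ⟨1 + ∑ x ∈ t, |B x|, ?_⟩
  have h2 : ∀ᶠ i in l, ∀ x ∈ t, dist (F i x) (F i x₀) ≤ B x :=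
    (Filter.eventually_all_finset t).2 fun x hx => hB x (htK x hx)
  filter_upwards [h1, h2] with i h1 h2 x hx
  obtain ⟨y, hy, hxy⟩ := mem_iUnion₂.1 (ht hx)
  calc dist (F i x) (F i x₀) ≤ dist (F i x) (F i y) + dist (F i y) (F i x₀) := dist_triangle _ _ _
    _ ≤ 1 + |B y| := add_le_add (h1 x hx y (htK y hy) hxy).le ((h2 y hy).trans (le_abs_self _))
    _ ≤ 1 + ∑ x ∈ t, |B x| := by
        gcongr
        exact Finset.single_le_sum (f := fun x => |B x|) (fun x _ => abs_nonneg _) hy

/-- **Ascoli along an ultrafilter**, pointwise bounded version -/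
theorem ascoli_ultra' [LocallyCompactSpace X] [ProperSpace E] (u : Ultrafilter ι) {F : ι → X → E}
    {D : Set X} (h : AE (u : Filter ι) F D) (hD : IsOpen D)
    (hb : ∀ x ∈ D, ∃ c : E, ∃ B : ℝ, ∀ᶠ i in (u : Filter ι), dist (F i x) c ≤ B) :
    ∃ U : X → E, ContinuousOn U D ∧ TendstoLocallyUniformlyOn F U u D := by
  classical
  have hlim : ∀ x ∈ D, ∃ y : E, Tendsto (fun i => F i x) u (𝓝 y) := by
    intro x hx
    obtain ⟨c, B, hB⟩ := hb x hx
    have hcomp : IsCompact (Metric.closedBall c B) := isCompact_closedBall c B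
    obtain ⟨y, _, hy⟩ := hcomp.ultrafilter_le_nhds (u.map fun i => F i x)
      (by rw [le_principal_iff]; exact hB)
    exact ⟨y, hy⟩
  rcases isEmpty_or_nonempty E with hE | hE
  · have hDe : D = ∅ := by
      by_contra hne
      obtain ⟨x, hx⟩ := nonempty_iff_ne_empty.2 hne
      exact hE.elim (hlim x hx).choose
    subst hDe
    refine ⟨fun x => (hE.elim (Classical.choice (by
      by_contra hcon
      rw [not_nonempty_iff] at hcon
      have := u.neBot
      obtain ⟨i⟩ := this.nonempty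
      exact hE.elim (F i x)))), by simp, ?_⟩
    intro s _ x hx
    exact absurd hx (notMem_empty x)
  choose! U hU using hlim
  have key : ∀ ε > 0, ∀ x ∈ D, ∃ r > 0, Metric.ball x r ⊆ D ∧
      (∀ y ∈ Metric.ball x r, dist (U x) (U y) ≤ ε) ∧
      ∀ᶠ i in (u : Filter ι), ∀ y ∈ Metric.ball x r, dist (F i x) (F i y) < ε := by
    intro ε hε x hx
    obtain ⟨K, hKD, hKc, r, hr, hrK⟩ := exists_ball hD hx
    obtain ⟨δ, hδ, h1⟩ := h K hKD hKc ε hε
    have h2 : ∀ᶠ i in (u : Filter ι), ∀ y ∈ Metric.ball x (min r δ), dist (F i x) (F i y) < ε := by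
      filter_upwards [h1] with i hi y hy
      rw [Metric.mem_ball] at hy
      refine hi x (hrK (Metric.mem_ball_self hr)) y (hrK ?_) ?_
      · rw [Metric.mem_ball]; exact hy.trans_le (min_le_left _ _)
      · rw [dist_comm]; exact hy.trans_le (min_le_right _ _)
    have h3 : Metric.ball x (min r δ) ⊆ D :=
      (Metric.ball_subset_ball (min_le_left _ _)).trans (hrK.trans hKD)
    refine ⟨min r δ, lt_min hr hδ, h3, ?_, h2⟩
    intro y hy
    have h4 : Tendsto (fun i => dist (F i x) (F i y)) u (𝓝 (dist (U x) (U y))) :=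
      (hU x hx).dist (hU y (h3 hy))
    refine le_of_tendsto h4 ?_
    filter_upwards [h2] with i hi
    exact (hi y hy).le
  refine ⟨U, ?_, ?_⟩
  · intro x hx
    refine ContinuousAt.continuousWithinAt ?_
    rw [Metric.continuousAt_iff]
    intro ε hε
    obtain ⟨r, hr, _, h1, _⟩ := key (ε / 2) (half_pos hε) x hx
    refine ⟨r, hr, fun y hy => ?_⟩
    rw [dist_comm]
    exact (h1 y (Metric.mem_ball.2 hy)).trans_lt (half_lt_self hε)
  · rw [Metric.tendstoLocallyUniformlyOn_iff]
    intro ε hε x hx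
    obtain ⟨r, hr, _, h1, h2⟩ := key (ε / 3) (by positivity) x hx
    have h3 : ∀ᶠ i in (u : Filter ι), dist (F i x) (U x) < ε / 3 :=
      (Metric.tendsto_nhds.1 (hU x hx)) (ε / 3) (by positivity)
    refine ⟨Metric.ball x r, mem_nhdsWithin_of_mem_nhds (Metric.ball_mem_nhds x hr), ?_⟩
    filter_upwards [h2, h3] with i h2 h3 y hy
    calc dist (U y) (F i y) ≤ dist (U y) (U x) + dist (U x) (F i x) + dist (F i x) (F i y) :=
          dist_triangle4 _ _ _ _
      _ < ε := by
          have a1 := h1 y hy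
          have a2 := h2 y hy
          rw [dist_comm] at a1 h3
          linarith

/-- **Ascoli along an ultrafilter**, connected open set, bounded at one point -/
theorem ascoli_ultra [LocallyCompactSpace X] [ProperSpace E] (u : Ultrafilter ι) {F : ι → X → E}
    {D : Set X} (h : AE (u : Filter ι) F D) (hD : IsOpen D) (hc : IsPreconnected D) {x₀ : X}
    (hx₀ : x₀ ∈ D) {c : E} {B : ℝ} (hb : ∀ᶠ i in (u : Filter ι), dist (F i x₀) c ≤ B) :
    ∃ U : X → E, ContinuousOn U D ∧ TendstoLocallyUniformlyOn F U u D := by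
  refine ascoli_ultra' u h hD fun x hx => ?_
  obtain ⟨B', hB'⟩ := h.bdd hD hc hx₀ hx
  refine ⟨c, B' + B, ?_⟩
  filter_upwards [hb, hB'] with i h1 h2
  exact (dist_triangle _ (F i x₀) _).trans (add_le_add h2 h1)

/-- convergence on compact sets -/
theorem unif_compact [LocallyCompactSpace X] {l : Filter ι} {F : ι → X → E} {U : X → E}
    {D K : Set X} (hD : IsOpen D) (h : TendstoLocallyUniformlyOn F U l D) (hK : K ⊆ D)
    (hKc : IsCompact K) : TendstoUniformlyOn F U l K :=
  (tendstoLocallyUniformlyOn_iff_forall_isCompact hD).1 h K hK hKc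

end General

section Seq

variable {X E : Type*} [PseudoMetricSpace X] [PseudoMetricSpace E]

/-- from an ultrafilter to a subsequence: if `F` converges locally uniformly on the open set `D`
along an ultrafilter `u ≤ atTop`, then some subsequence converges to the same limit; several
conditions which hold for `u`-many indices can be added. -/
theorem exists_subseq [LocallyCompactSpace X] [SecondCountableTopology X] (u : Ultrafilter ℕ)
    (hu : (u : Filter ℕ) ≤ atTop) {F : ℕ → X → E} {U : X → E} {D : Set X} (hD : IsOpen D)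
    (h : TendstoLocallyUniformlyOn F U u D) (A : ℕ → Set ℕ) (hA : ∀ k, A k ∈ u) :
    ∃ φ : ℕ → ℕ, StrictMono φ ∧ (∀ k, φ k ∈ A k) ∧
      TendstoLocallyUniformlyOn (fun k => F (φ k)) U atTop D := by
  have : LocallyCompactSpace D := hD.locallyCompactSpace
  let K : CompactExhaustion D := default
  have hKc : ∀ m, IsCompact ((↑) '' (K m) : Set X) := fun m => (K.isCompact m).image continuous_subtype_val
  have hKD : ∀ m, ((↑) '' (K m) : Set X) ⊆ D := by
    rintro m _ ⟨x, _, rfl⟩; exact x.2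
  have hP : ∀ m : ℕ, ∀ᶠ n in (u : Filter ℕ), (∀ x ∈ ((↑) '' (K m) : Set X),
      dist (U x) (F n x) < 1 / ((m : ℝ) + 1)) ∧ n ∈ A m := by
    intro m
    have h1 := unif_compact hD h (hKD m) (hKc m)
    rw [Metric.tendstoUniformlyOn_iff] at h1
    exact (h1 (1 / ((m : ℝ) + 1)) (by positivity)).and (hA m)
  have hfreq : ∀ m : ℕ, ∃ᶠ n in atTop, (∀ x ∈ ((↑) '' (K m) : Set X),
      dist (U x) (F n x) < 1 / ((m : ℝ) + 1)) ∧ n ∈ A m :=
    fun m => (hP m).frequently.filter_mono hu
  obtain ⟨φ, hφ, hφ'⟩ := extraction_forall_of_frequently hfreq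
  refine ⟨φ, hφ, fun k => (hφ' k).2, ?_⟩
  rw [tendstoLocallyUniformlyOn_iff_forall_isCompact hD]
  intro L hL hLc
  rw [Metric.tendstoUniformlyOn_iff]
  intro ε hε
  -- L is contained in some K m
  have hL' : IsCompact (((↑) : D → X) ⁻¹' L) := by
    rw [Topology.IsInducing.subtypeVal.isCompact_iff]
    rw [Subtype.image_preimage_coe, inter_eq_right.2 hL]
    exact hLc
  obtain ⟨m₀, hm₀⟩ := K.exists_superset_of_isCompact hL'
  obtain ⟨m₁, hm₁⟩ := exists_nat_one_div_lt hε
  filter_upwards [eventually_ge_atTop (max m₀ m₁)] with k hk x hx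
  have hxK : x ∈ ((↑) '' (K k) : Set X) :=
    ⟨⟨x, hL hx⟩, K.subset (le_trans (le_max_left _ _) hk) (hm₀ hx), rfl⟩
  refine ((hφ' k).1 x hxK).trans (lt_of_le_of_lt ?_ hm₁)
  have : (m₁ : ℝ) ≤ k := by exact_mod_cast (le_trans (le_max_right _ _) hk)
  exact one_div_le_one_div_of_le (by positivity) (by linarith)

/-- **Ascoli with a subsequence** -/
theorem ascoli_seq [LocallyCompactSpace X] [SecondCountableTopology X] [ProperSpace E]
    {F : ℕ → X → E} {D : Set X} (h : AE atTop F D) (hD : IsOpen D) (hc : IsPreconnected D)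
    {x₀ : X} (hx₀ : x₀ ∈ D) {c : E} {B : ℝ} (hb : ∀ n, dist (F n x₀) c ≤ B) (φ₀ : ℕ → ℕ)
    (hφ₀ : StrictMono φ₀) :
    ∃ φ : ℕ → ℕ, StrictMono φ ∧ ∃ U : X → E, ContinuousOn U D ∧
      TendstoLocallyUniformlyOn (fun k => F (φ₀ (φ k))) U atTop D := by
  let u : Ultrafilter ℕ := hyperfilter ℕ
  have hu : (u : Filter ℕ) ≤ atTop := by
    have := hyperfilter_le_cofinite (α := ℕ)
    rwa [Nat.cofinite_eq_atTop] at this
  have hAE : AE (u : Filter ℕ) (fun k => F (φ₀ k)) D :=
    (h.comp hφ₀.tendsto_atTop).mono hu le_rfl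
  obtain ⟨U, hU, hU'⟩ := ascoli_ultra u hAE hD hc hx₀ (c := c) (B := B)
    (Eventually.of_forall fun k => hb _)
  obtain ⟨φ, hφ, _, hφ'⟩ := exists_subseq u hu hD hU' (fun _ => univ) (fun _ => univ_mem)
  exact ⟨φ, hφ, U, hU, hφ'⟩

end Seq

end Pool.Agent.SixB.DC
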