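import Pool.Agent.Lib.SixB.AN6b
import Pool.Agent.Lib.SixB.S6Defs

/-!
# AN6, third part: closed regions minus finitely many points

* `ascoli_ultra_lc`, `ascoli_seq_lc`: Ascoli for functions on a locally compact, preconnected subset
  `D` (not only open sets), e.g. `D = Cl P \ X`, `X` finite.
* `isPreconnected_Cl_diff`: `Cl P \ X` is preconnected, `lc_Cl_diff`: it is locally compact.
* `AE_ext`: equicontinuity of lattice functions at the mesh points of `Cl P \ X` gives `AE` for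
  `ext n u` on `Cl P \ X`.
* `ext_ultra`, `ext_seq`: the resulting compactness statement for lattice functions on `Cl P \ X`.
-/

set_option autoImplicit false

namespace Pool.Agent.SixB.DC

open Filter Topology Set MeasureTheory

section LC

variable {X E ι : Type*} [PseudoMetricSpace X] [PseudoMetricSpace E]

theorem AE.subtype {l : Filter ι} {F : ι → X → E} {D : Set X} (h : AE l F D) :
    AE l (fun i (x : D) => F i x) univ := by
  intro K _ hK ε hε
  obtain ⟨δ, hδ, h1⟩ := h ((↑) '' K) (by rintro _ ⟨x, _, rfl⟩; exact x.2)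
    (hK.image continuous_subtype_val) ε hε
  refine ⟨δ, hδ, ?_⟩
  filter_upwards [h1] with i hi x hx y hy hxy
  exact hi x ⟨x, hx, rfl⟩ y ⟨y, hy, rfl⟩ hxy

/-- uniform convergence on compact subsets (no assumption on `D`) -/
theorem unif_compact' {l : Filter ι} {F : ι → X → E} {U : X → E}
    {D K : Set X} (h : TendstoLocallyUniformlyOn F U l D) (hK : K ⊆ D)
    (hKc : IsCompact K) : TendstoUniformlyOn F U l K :=
  (tendstoLocallyUniformlyOn_iff_tendstoUniformlyOn_of_compact hKc).1 (h.mono hK)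

/-- extension of a locally uniform limit from the subtype -/
private theorem extend {l : Filter ι} [l.NeBot] {F : ι → X → E} {D : Set X} {U' : D → E}
    (hU' : Continuous U') (h : TendstoLocallyUniformly (fun i (x : D) => F i x) U' l) :
    ∃ U : X → E, ContinuousOn U D ∧ TendstoLocallyUniformlyOn F U l D := by
  classical
  obtain ⟨i₀⟩ := Filter.NeBot.nonempty l
  let U : X → E := fun x => if hx : x ∈ D then U' ⟨x, hx⟩ else F i₀ x
  have hr : D.domRestrict U = U' := by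
    funext x
    simp only [domRestrict_apply, U]
    rw [dif_pos x.2]
  refine ⟨U, ?_, ?_⟩
  · rw [continuousOn_iff_continuous_domRestrict, hr]; exact hU'
  · rw [tendstoLocallyUniformlyOn_iff_tendstoLocallyUniformly_comp_coe]
    have : (U ∘ ((↑) : D → X)) = U' := hr
    rw [this]
    exact h

/-- **Ascoli along an ultrafilter** on a locally compact subset, pointwise bounded -/
theorem ascoli_ultra_lc' [ProperSpace E] (u : Ultrafilter ι) {F : ι → X → E}
    {D : Set X} [LocallyCompactSpace D] (h : AE (u : Filter ι) F D)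
    (hb : ∀ x ∈ D, ∃ c : E, ∃ B : ℝ, ∀ᶠ i in (u : Filter ι), dist (F i x) c ≤ B) :
    ∃ U : X → E, ContinuousOn U D ∧ TendstoLocallyUniformlyOn F U u D := by
  obtain ⟨U', hU', h'⟩ := ascoli_ultra' u h.subtype isOpen_univ (fun x _ => hb x x.2)
  exact extend (continuousOn_univ.1 hU') (tendstoLocallyUniformlyOn_univ.1 h')

/-- **Ascoli along an ultrafilter** on a locally compact preconnected subset -/
theorem ascoli_ultra_lc [ProperSpace E] (u : Ultrafilter ι) {F : ι → X → E}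
    {D : Set X} [LocallyCompactSpace D] (h : AE (u : Filter ι) F D) (hc : IsPreconnected D) {x₀ : X}
    (hx₀ : x₀ ∈ D) {c : E} {B : ℝ} (hb : ∀ᶠ i in (u : Filter ι), dist (F i x₀) c ≤ B) :
    ∃ U : X → E, ContinuousOn U D ∧ TendstoLocallyUniformlyOn F U u D := by
  have : PreconnectedSpace D := isPreconnected_iff_preconnectedSpace.1 hc
  obtain ⟨U', hU', h'⟩ := ascoli_ultra u h.subtype isOpen_univ isPreconnected_univ
    (x₀ := ⟨x₀, hx₀⟩) (mem_univ _) (c := c) (B := B) hb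
  exact extend (continuousOn_univ.1 hU') (tendstoLocallyUniformlyOn_univ.1 h')

/-- from an ultrafilter to a subsequence on a locally compact subset -/
theorem exists_subseq_lc [SecondCountableTopology X] (u : Ultrafilter ℕ)
    (hu : (u : Filter ℕ) ≤ atTop) {F : ℕ → X → E} {U : X → E} {D : Set X} [LocallyCompactSpace D]
    (h : TendstoLocallyUniformlyOn F U u D) (A : ℕ → Set ℕ) (hA : ∀ k, A k ∈ u) :
    ∃ φ : ℕ → ℕ, StrictMono φ ∧ (∀ k, φ k ∈ A k) ∧
      TendstoLocallyUniformlyOn (fun k => F (φ k)) U atTop D := by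
  rw [tendstoLocallyUniformlyOn_iff_tendstoLocallyUniformly_comp_coe] at h
  obtain ⟨φ, hφ, hA', h'⟩ := exists_subseq (X := D) u hu (F := fun n (x : D) => F n x)
    (U := U ∘ ((↑) : D → X)) isOpen_univ (tendstoLocallyUniformlyOn_univ.2 h) A hA
  refine ⟨φ, hφ, hA', ?_⟩
  rw [tendstoLocallyUniformlyOn_iff_tendstoLocallyUniformly_comp_coe]
  exact tendstoLocallyUniformlyOn_univ.1 h'

/-- **Ascoli with a subsequence** on a locally compact preconnected subset -/
theorem ascoli_seq_lc [SecondCountableTopology X] [ProperSpace E]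
    {F : ℕ → X → E} {D : Set X} [LocallyCompactSpace D] (h : AE atTop F D) (hc : IsPreconnected D)
    {x₀ : X} (hx₀ : x₀ ∈ D) {c : E} {B : ℝ} (hb : ∀ᶠ n in atTop, dist (F n x₀) c ≤ B)
    (φ₀ : ℕ → ℕ) (hφ₀ : StrictMono φ₀) :
    ∃ φ : ℕ → ℕ, StrictMono φ ∧ ∃ U : X → E, ContinuousOn U D ∧
      TendstoLocallyUniformlyOn (fun k => F (φ₀ (φ k))) U atTop D := by
  let u : Ultrafilter ℕ := hyperfilter ℕ
  have hu : (u : Filter ℕ) ≤ atTop := by
    have := hyperfilter_le_cofinite (α := ℕ)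
    rwa [Nat.cofinite_eq_atTop] at this
  have hAE : AE (u : Filter ℕ) (fun k => F (φ₀ k)) D :=
    (h.comp hφ₀.tendsto_atTop).mono hu le_rfl
  obtain ⟨U, hU, hU'⟩ := ascoli_ultra_lc u hAE hc hx₀ (c := c) (B := B)
    (hu (hφ₀.tendsto_atTop.eventually hb))
  obtain ⟨φ, hφ, _, hφ'⟩ := exists_subseq_lc u hu hU' (fun _ => univ) (fun _ => univ_mem)
  exact ⟨φ, hφ, U, hU, hφ'⟩

end LC

section Conv

/-- a sequence converges if it converges to the same limit along all ultrafilters -/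
theorem tendsto_of_ultra {X : Type*} {f : ℕ → X} {l : Filter X}
    (h : ∀ u : Ultrafilter ℕ, (u : Filter ℕ) ≤ atTop → Tendsto f u l) : Tendsto f atTop l :=
  (tendsto_iff_ultrafilter f atTop l).2 h

/-- a bounded real sequence with at most one limit along ultrafilters converges -/
theorem exists_tendsto_of_ultra {f : ℕ → ℝ} {B : ℝ} (hB : ∀ᶠ n in atTop, |f n| ≤ B)
    (h : ∀ (u v : Ultrafilter ℕ) (a b : ℝ), (u : Filter ℕ) ≤ atTop → (v : Filter ℕ) ≤ atTop →
      Tendsto f u (𝓝 a) → Tendsto f v (𝓝 b) → a = b) : ∃ a, Tendsto f atTop (𝓝 a) := by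
  have key : ∀ u : Ultrafilter ℕ, (u : Filter ℕ) ≤ atTop → ∃ a, Tendsto f u (𝓝 a) := by
    intro u hu
    obtain ⟨a, _, ha⟩ := (isCompact_Icc (a := -B) (b := B)).ultrafilter_le_nhds (u.map f) (by
      rw [le_principal_iff]
      exact hu (hB.mono fun n hn => abs_le.1 hn))
    exact ⟨a, ha⟩
  have hu0 : ((hyperfilter ℕ : Ultrafilter ℕ) : Filter ℕ) ≤ atTop := by
    have := hyperfilter_le_cofinite (α := ℕ)
    rwa [Nat.cofinite_eq_atTop] at this
  obtain ⟨a, ha⟩ := key _ hu0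
  refine ⟨a, tendsto_of_ultra fun u hu => ?_⟩
  obtain ⟨b, hb⟩ := key u hu
  rw [h _ u a b hu0 hu ha hb]
  exact hb

end Conv

section Region

open Pool.Agent.SixB (csq Cl Om EAdj EConn MPoly)

lemma isCompact_csq (f : ℤ × ℤ) : IsCompact (csq f) := by
  have h : csq f = Complex.equivRealProdCLM.toHomeomorph ⁻¹'
      (Icc ((f.1 : ℝ)) (f.1 + 1) ×ˢ Icc ((f.2 : ℝ)) (f.2 + 1)) := by
    ext z
    simp only [csq, mem_ofPred_eq, mem_preimage, mem_prod, mem_Icc]
    constructor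
    · rintro ⟨h1, h2, h3, h4⟩; exact ⟨⟨h1, h2⟩, h3, h4⟩
    · rintro ⟨⟨h1, h2⟩, h3, h4⟩; exact ⟨h1, h2, h3, h4⟩
  rw [h, Homeomorph.isCompact_preimage]
  exact isCompact_Icc.prod isCompact_Icc

lemma isCompact_Cl (P : Finset (ℤ × ℤ)) : IsCompact (Cl P) :=
  P.isCompact_biUnion fun f _ => isCompact_csq f

lemma isClosed_Cl (P : Finset (ℤ × ℤ)) : IsClosed (Cl P) := (isCompact_Cl P).isClosed

lemma lc_Cl_diff (P : Finset (ℤ × ℤ)) {X : Set ℂ} (hX : IsClosed X) :
    LocallyCompactSpace (Cl P \ X : Set ℂ) := by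
  have : IsLocallyClosed (Cl P \ X) := by
    rw [sdiff_eq]
    exact (isClosed_Cl P).isLocallyClosed.inter hX.isOpen_compl.isLocallyClosed
  exact this.locallyCompactSpace

/-- a convex open set of the plane minus a countable set is preconnected -/
theorem isPreconnected_convex_diff {Q : Set ℂ} (hQ : IsOpen Q) (hQc : _root_.Convex ℝ Q) {s : Set ℂ}
    (hs : s.Countable) : IsPreconnected (Q \ s) := by
  refine isPreconnected_of_forall_pair fun a ha b hb => ?_
  have hrank : 1 < Module.rank ℝ ℂ := by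
    rw [Complex.rank_real_complex]; exact_mod_cast one_lt_two
  rcases eq_or_ne a b with rfl | hab
  · exact ⟨{a}, by simpa using ha, rfl, rfl, isPreconnected_singleton⟩
  let c := (2 : ℝ)⁻¹ • (a + b)
  let x := (2 : ℝ)⁻¹ • (b - a)
  have Ia : c - x = a := by
    simp only [c, x]
    module
  have Ib : c + x = b := by
    simp only [c, x]
    module
  have hcQ : c ∈ Q := by
    have := hQc ha.1 hb.1 (show (0 : ℝ) ≤ 2⁻¹ by norm_num) (show (0 : ℝ) ≤ 2⁻¹ by norm_num)
      (by norm_num)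
    simpa only [c, smul_add] using this
  have x_ne_zero : x ≠ 0 := by simpa [x] using sub_ne_zero.2 hab.symm
  obtain ⟨y, hy⟩ : ∃ y, LinearIndependent ℝ ![x, y] :=
    exists_linearIndependent_pair_of_one_lt_rank hrank x_ne_zero
  have A : Set.Countable {t : ℝ | (segment ℝ (c + x) (c + t • y) ∩ s).Nonempty} := by
    apply countable_ofPred_nonempty_of_disjoint _ (fun t ↦ inter_subset_right) hs
    intro t t' htt'
    apply disjoint_iff_inter_eq_empty.2
    have N : {c + x} ∩ s = ∅ := by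
      simpa only [singleton_inter_eq_empty, mem_compl_iff, Ib] using hb.2
    rw [inter_assoc, inter_comm s, inter_assoc, inter_self, ← inter_assoc, ← subset_empty_iff, ← N]
    apply inter_subset_inter_left
    apply Eq.subset
    apply segment_inter_eq_endpoint_of_linearIndependent_of_ne hy htt'.symm
  have B : Set.Countable {t : ℝ | (segment ℝ (c - x) (c + t • y) ∩ s).Nonempty} := by
    apply countable_ofPred_nonempty_of_disjoint _ (fun t ↦ inter_subset_right) hs
    intro t t' htt'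
    apply disjoint_iff_inter_eq_empty.2
    have N : {c - x} ∩ s = ∅ := by
      simpa only [singleton_inter_eq_empty, mem_compl_iff, Ia] using ha.2
    rw [inter_assoc, inter_comm s, inter_assoc, inter_self, ← inter_assoc, ← subset_empty_iff, ← N]
    apply inter_subset_inter_left
    rw [sub_eq_add_neg _ x]
    apply Eq.subset
    apply segment_inter_eq_endpoint_of_linearIndependent_of_ne _ htt'.symm
    convert! hy.units_smul ![-1, 1]
    simp [← List.ofFn_inj]
  have hO : IsOpen {t : ℝ | c + t • y ∈ Q} :=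
    hQ.preimage (continuous_const.add (continuous_id.smul continuous_const))
  have hO0 : ({t : ℝ | c + t • y ∈ Q}).Nonempty := ⟨0, by simpa using hcQ⟩
  obtain ⟨t, htQ, ht⟩ := ((A.union B).dense_compl ℝ).inter_open_nonempty _ hO hO0
  simp only [compl_union, mem_inter_iff, mem_compl_iff, mem_ofPred_eq, not_nonempty_iff_eq_empty]
    at ht
  have hzQ : c + t • y ∈ Q := htQ
  rw [Ia, Ib] at ht
  refine ⟨segment ℝ a (c + t • y) ∪ segment ℝ b (c + t • y), ?_, Or.inl (left_mem_segment ℝ _ _),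
    Or.inr (left_mem_segment ℝ _ _), ?_⟩
  · rintro w (hw | hw)
    · refine ⟨hQc.segment_subset ha.1 hzQ hw, fun hws => ?_⟩
      have : w ∈ segment ℝ a (c + t • y) ∩ s := ⟨hw, hws⟩
      rw [ht.2] at this
      exact this
    · refine ⟨hQc.segment_subset hb.1 hzQ hw, fun hws => ?_⟩
      have : w ∈ segment ℝ b (c + t • y) ∩ s := ⟨hw, hws⟩
      rw [ht.1] at this
      exact this
  · exact (convex_segment a _).isPreconnected.union (c + t • y) (right_mem_segment ℝ _ _)
      (right_mem_segment ℝ _ _) (convex_segment b _).isPreconnected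

/-- open unit square -/
private def osq (f : ℤ × ℤ) : Set ℂ :=
  {z | (f.1 : ℝ) < z.re ∧ z.re < f.1 + 1 ∧ (f.2 : ℝ) < z.im ∧ z.im < f.2 + 1}

private lemma isOpen_osq (f : ℤ × ℤ) : IsOpen (osq f) := by
  have h1 : IsOpen {z : ℂ | (f.1 : ℝ) < z.re} := isOpen_lt continuous_const Complex.continuous_re
  have h2 : IsOpen {z : ℂ | z.re < f.1 + 1} := isOpen_lt Complex.continuous_re continuous_const
  have h3 : IsOpen {z : ℂ | (f.2 : ℝ) < z.im} := isOpen_lt continuous_const Complex.continuous_im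
  have h4 : IsOpen {z : ℂ | z.im < f.2 + 1} := isOpen_lt Complex.continuous_im continuous_const
  exact (h1.inter (h2.inter (h3.inter h4)))

private lemma convex_osq (f : ℤ × ℤ) : _root_.Convex ℝ (osq f) := by
  intro z hz w hw a b ha hb hab
  obtain ⟨z1, z2, z3, z4⟩ := hz
  obtain ⟨w1, w2, w3, w4⟩ := hw
  have e : b = 1 - a := by linarith
  subst e
  rcases ha.eq_or_lt with h0 | h0
  · subst h0
    simp only [osq, mem_ofPred_eq, zero_smul, sub_zero, one_smul, zero_add]
    exact ⟨w1, w2, w3, w4⟩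
  · simp only [osq, mem_ofPred_eq, Complex.add_re, Complex.add_im, Complex.real_smul,
      Complex.mul_re, Complex.mul_im, Complex.ofReal_re, Complex.ofReal_im, zero_mul, sub_zero,
      add_zero]
    refine ⟨?_, ?_, ?_, ?_⟩ <;> nlinarith

private lemma subset_closure_osq (f : ℤ × ℤ) {s : Set ℂ} (hs : s.Countable) :
    csq f ⊆ closure (osq f \ s) := by
  have h1 : closure (osq f) ⊆ closure (osq f \ s) := by
    have hd : Dense sᶜ := hs.dense_compl ℝ
    rw [sdiff_eq]
    exact closure_minimal (hd.open_subset_closure_inter (isOpen_osq f)) isClosed_closure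
  refine Subset.trans ?_ h1
  intro z hz
  obtain ⟨z1, z2, z3, z4⟩ := hz
  -- the segment from the centre
  rw [Metric.mem_closure_iff]
  intro ε hε
  let m : ℂ := ⟨f.1 + 1 / 2, f.2 + 1 / 2⟩
  have hm1 : ‖z - m‖ ≤ 1 := by
    refine (Complex.norm_le_abs_re_add_abs_im _).trans ?_
    have a1 : |(z - m).re| ≤ 1 / 2 := by
      rw [Complex.sub_re, abs_le]; constructor <;> simp only [m] <;> linarith
    have a2 : |(z - m).im| ≤ 1 / 2 := by
      rw [Complex.sub_im, abs_le]; constructor <;> simp only [m] <;> linarith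
    linarith
  let t : ℝ := min (1 / 2) (ε / 2)
  have ht0 : 0 < t := by simp only [t]; positivity
  have ht1 : t ≤ 1 / 2 := min_le_left _ _
  have ht2 : t ≤ ε / 2 := min_le_right _ _
  refine ⟨z - (t : ℂ) * (z - m), ?_, ?_⟩
  · simp only [osq, mem_ofPred_eq, Complex.sub_re, Complex.sub_im, Complex.mul_re, Complex.mul_im,
      Complex.ofReal_re, Complex.ofReal_im, zero_mul, sub_zero, add_zero, m]
    refine ⟨?_, ?_, ?_, ?_⟩ <;> nlinarith
  · rw [dist_eq_norm, sub_sub_cancel, norm_mul, Complex.norm_real, Real.norm_of_nonneg ht0.le]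
    calc t * ‖z - m‖ ≤ t * 1 := by gcongr
      _ < ε := by linarith

/-- a closed unit square minus a countable set is preconnected -/
lemma isPreconnected_csq_diff (f : ℤ × ℤ) {s : Set ℂ} (hs : s.Countable) :
    IsPreconnected (csq f \ s) := by
  refine (isPreconnected_convex_diff (isOpen_osq f) (convex_osq f) hs).subset_closure ?_ ?_
  · rintro z ⟨⟨h1, h2, h3, h4⟩, h5⟩
    exact ⟨⟨h1.le, h2.le, h3.le, h4.le⟩, h5⟩
  · exact sdiff_subset.trans (subset_closure_osq f hs)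

/-- two squares with a common side have a common point off a countable set -/
lemma csq_inter (f g : ℤ × ℤ) (h : EAdj f g) {s : Set ℂ} (hs : s.Countable) :
    ∃ z, z ∈ csq f \ s ∧ z ∈ csq g \ s := by
  have key : ∀ (φ : ℝ → ℂ), Function.Injective φ → (∀ t ∈ Icc (0 : ℝ) 1, φ t ∈ csq f ∧ φ t ∈ csq g) →
      ∃ z, z ∈ csq f \ s ∧ z ∈ csq g \ s := by
    intro φ hφ hmem
    have h1 : (φ ⁻¹' s).Countable := hs.preimage hφ
    obtain ⟨t, ht, hts⟩ := (h1.dense_compl ℝ).inter_open_nonempty (Ioo (0 : ℝ) 1) isOpen_Ioo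
      ⟨1 / 2, by norm_num, by norm_num⟩
    have := hmem t ⟨ht.1.le, ht.2.le⟩
    exact ⟨φ t, ⟨this.1, hts⟩, this.2, hts⟩
  rcases h with rfl | rfl | rfl | rfl
  · refine key (fun t => ⟨f.1 + 1, f.2 + t⟩) (fun a b hab => ?_) fun t ht => ?_
    · have := congrArg Complex.im hab
      simpa using this
    · simp only [csq, mem_ofPred_eq]
      push_cast
      refine ⟨⟨?_, ?_, ?_, ?_⟩, ?_, ?_, ?_, ?_⟩ <;> linarith [ht.1, ht.2]
  · refine key (fun t => ⟨f.1, f.2 + t⟩) (fun a b hab => ?_) fun t ht => ?_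
    · have := congrArg Complex.im hab
      simpa using this
    · simp only [csq, mem_ofPred_eq]
      push_cast
      refine ⟨⟨?_, ?_, ?_, ?_⟩, ?_, ?_, ?_, ?_⟩ <;> linarith [ht.1, ht.2]
  · refine key (fun t => ⟨f.1 + t, f.2 + 1⟩) (fun a b hab => ?_) fun t ht => ?_
    · have := congrArg Complex.re hab
      simpa using this
    · simp only [csq, mem_ofPred_eq]
      push_cast
      refine ⟨⟨?_, ?_, ?_, ?_⟩, ?_, ?_, ?_, ?_⟩ <;> linarith [ht.1, ht.2]
  · refine key (fun t => ⟨f.1 + t, f.2⟩) (fun a b hab => ?_) fun t ht => ?_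
    · have := congrArg Complex.re hab
      simpa using this
    · simp only [csq, mem_ofPred_eq]
      push_cast
      refine ⟨⟨?_, ?_, ?_, ?_⟩, ?_, ?_, ?_, ?_⟩ <;> linarith [ht.1, ht.2]

/-- **the closed region of an edge connected set of faces minus a countable set is preconnected** -/
theorem isPreconnected_Cl_diff {P : Finset (ℤ × ℤ)} (hP : EConn (P : Set (ℤ × ℤ))) {s : Set ℂ}
    (hs : s.Countable) : IsPreconnected (Cl P \ s) := by
  have h1 : Cl P \ s = ⋃ f ∈ (P : Set (ℤ × ℤ)), (csq f \ s) := by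
    ext z
    simp only [Cl, Set.mem_sdiff, mem_iUnion, Finset.mem_coe, exists_prop]
    constructor
    · rintro ⟨⟨f, hf, hz⟩, hzs⟩; exact ⟨f, hf, hz, hzs⟩
    · rintro ⟨f, hf, hz, hzs⟩; exact ⟨⟨f, hf, hz⟩, hzs⟩
  rw [h1]
  refine IsPreconnected.biUnion_of_reflTransGen (fun f _ => isPreconnected_csq_diff f hs) ?_
  intro f hf g hg
  have h2 : ∀ g, Relation.ReflTransGen (fun a b => b ∈ (P : Set (ℤ × ℤ)) ∧ EAdj a b) f g →
      Relation.ReflTransGen (fun i j => (csq i \ s ∩ (csq j \ s)).Nonempty ∧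
        i ∈ (P : Set (ℤ × ℤ))) f g ∧ g ∈ (P : Set (ℤ × ℤ)) := by
    intro g hg
    induction hg with
    | refl => exact ⟨Relation.ReflTransGen.refl, hf⟩
    | tail _ h ih =>
      obtain ⟨z, hz, hz'⟩ := csq_inter _ _ h.2 hs
      exact ⟨ih.1.tail ⟨⟨z, hz, hz'⟩, ih.2⟩, h.1⟩
  exact (h2 g (hP f hf g hg)).1

lemma ext_eq (n : ℕ) (u : ℤ × ℤ → ℝ) : Pool.Agent.SixB.ext n u = fun x => u (fl n x) := rfl

lemma fl_eq (n : ℕ) (x : ℂ) : Pool.Agent.SixB.fl n x = fl n x := rfl

/-- rounding stays in the region -/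
lemma mesh_fl_mem_Cl {n : ℕ} (hn : 0 < n) {P : Finset (ℤ × ℤ)} {x : ℂ} (hx : x ∈ Cl P) :
    mesh n (fl n x) ∈ Cl P := by
  have hn' : (0 : ℝ) < n := by positivity
  have key : ∀ (a : ℤ) (t : ℝ), (a : ℝ) ≤ t → t ≤ a + 1 →
      (a : ℝ) ≤ ((⌊(n : ℝ) * t⌋ : ℤ) : ℝ) / n ∧ ((⌊(n : ℝ) * t⌋ : ℤ) : ℝ) / n ≤ a + 1 := by
    intro a t h1 h2
    constructor
    · rw [le_div_iff₀ hn']
      have h3 : (((n : ℤ) * a : ℤ) : ℝ) ≤ (n : ℝ) * t := by push_cast; gcongr
      have h4 : (n : ℤ) * a ≤ ⌊(n : ℝ) * t⌋ := Int.le_floor.2 h3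
      have h5 : (((n : ℤ) * a : ℤ) : ℝ) ≤ ((⌊(n : ℝ) * t⌋ : ℤ) : ℝ) := by exact_mod_cast h4
      push_cast at h5
      linarith
    · rw [div_le_iff₀ hn']
      have h3 := Int.floor_le ((n : ℝ) * t)
      nlinarith
  simp only [Cl, mem_iUnion, exists_prop] at hx ⊢
  obtain ⟨f, hf, h1, h2, h3, h4⟩ := hx
  exact ⟨f, hf, (key _ _ h1 h2).1, (key _ _ h1 h2).2, (key _ _ h3 h4).1, (key _ _ h3 h4).2⟩

/-- **equicontinuity of lattice functions at the mesh points of `Cl P \ X`** -/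
theorem AE_ext {ι : Type*} {l : Filter ι} {N : ι → ℕ} (hN : Tendsto N l atTop)
    {P : Finset (ℤ × ℤ)} {X : Set ℂ} (hX : IsClosed X) {u : ι → ℤ × ℤ → ℝ}
    (h : ∀ K ⊆ Cl P \ X, IsCompact K → ∀ ε > 0, ∃ δ > 0, ∀ᶠ i in l, ∀ z w, mesh (N i) z ∈ K →
      mesh (N i) w ∈ K → dist (mesh (N i) z) (mesh (N i) w) < δ → |u i z - u i w| < ε) :
    AE l (fun i => Pool.Agent.SixB.ext (N i) (u i)) (Cl P \ X) := by
  intro K hKD hK ε hε
  obtain ⟨η, hη, hη'⟩ := hK.exists_cthickening_subset_open hX.isOpen_compl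
    (fun x hx => (hKD hx).2)
  obtain ⟨δ, hδ, h1⟩ := h (Metric.cthickening η K ∩ Cl P) (fun x hx => ⟨hx.2, hη' hx.1⟩)
    (hK.cthickening.inter (isCompact_Cl P)) ε hε
  refine ⟨δ / 2, half_pos hδ, ?_⟩
  have hev : ∀ η : ℝ, 0 < η → ∀ᶠ i in l, 0 < N i ∧ (2 : ℝ) / (N i) ≤ η := by
    intro η hη
    obtain ⟨m, hm⟩ := exists_nat_gt (2 / η)
    filter_upwards [hN.eventually (eventually_ge_atTop (m + 1))] with i hi
    have h0 : 0 < N i := by omega
    refine ⟨h0, ?_⟩
    have h1 : (m : ℝ) ≤ N i := by exact_mod_cast (by omega : m ≤ N i)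
    have h2 : (0 : ℝ) < N i := by exact_mod_cast h0
    rw [div_le_iff₀ h2]
    rw [div_lt_iff₀ hη] at hm
    nlinarith
  filter_upwards [h1, hev η hη, hev (δ / 4) (by positivity)] with i h1 h2 h3 x hx y hy hxy
  have hx' := dist_mesh_fl h2.1 x
  have hy' := dist_mesh_fl h2.1 y
  rw [ext_eq, Real.dist_eq]
  refine h1 _ _ ⟨?_, mesh_fl_mem_Cl h2.1 (hKD hx).1⟩ ⟨?_, mesh_fl_mem_Cl h2.1 (hKD hy).1⟩ ?_
  · exact Metric.mem_cthickening_of_dist_le _ x _ _ hx (hx'.trans h2.2)
  · exact Metric.mem_cthickening_of_dist_le _ y _ _ hy (hy'.trans h2.2)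
  · calc dist (mesh (N i) (fl (N i) x)) (mesh (N i) (fl (N i) y))
        ≤ dist (mesh (N i) (fl (N i) x)) x + dist x y + dist y (mesh (N i) (fl (N i) y)) :=
          dist_triangle4 _ _ _ _
      _ < δ := by
          rw [dist_comm y]
          linarith [h3.2]

/-- **compactness of lattice functions on `Cl P \ X`, ultrafilter version** -/
theorem ext_ultra {ι : Type*} (v : Ultrafilter ι) {N : ι → ℕ} (hN : Tendsto N v atTop)
    {P : Finset (ℤ × ℤ)} (hP : EConn (P : Set (ℤ × ℤ))) {X : Set ℂ} (hX : X.Finite)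
    {u : ι → ℤ × ℤ → ℝ}
    (h : ∀ K ⊆ Cl P \ X, IsCompact K → ∀ ε > 0, ∃ δ > 0, ∀ᶠ i in (v : Filter ι), ∀ z w,
      mesh (N i) z ∈ K → mesh (N i) w ∈ K → dist (mesh (N i) z) (mesh (N i) w) < δ →
        |u i z - u i w| < ε)
    {x₀ : ℂ} (hx₀ : x₀ ∈ Cl P \ X) {B : ℝ} (hb : ∀ᶠ i in (v : Filter ι), |u i (fl (N i) x₀)| ≤ B) :
    ∃ U : ℂ → ℝ, ContinuousOn U (Cl P \ X) ∧
      TendstoLocallyUniformlyOn (fun i => Pool.Agent.SixB.ext (N i) (u i)) U v (Cl P \ X) := by
  have := lc_Cl_diff P hX.isClosed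
  refine ascoli_ultra_lc v (AE_ext hN hX.isClosed h) (isPreconnected_Cl_diff hP hX.countable) hx₀
    (c := 0) (B := B) ?_
  filter_upwards [hb] with i hi
  rw [ext_eq, Real.dist_eq, sub_zero]
  exact hi

/-- **compactness of lattice functions on `Cl P \ X`, subsequence version** -/
theorem ext_seq {N : ℕ → ℕ} (hN : Tendsto N atTop atTop)
    {P : Finset (ℤ × ℤ)} (hP : EConn (P : Set (ℤ × ℤ))) {X : Set ℂ} (hX : X.Finite)
    {u : ℕ → ℤ × ℤ → ℝ}
    (h : ∀ K ⊆ Cl P \ X, IsCompact K → ∀ ε > 0, ∃ δ > 0, ∀ᶠ i in atTop, ∀ z w,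
      mesh (N i) z ∈ K → mesh (N i) w ∈ K → dist (mesh (N i) z) (mesh (N i) w) < δ →
        |u i z - u i w| < ε)
    {x₀ : ℂ} (hx₀ : x₀ ∈ Cl P \ X) {B : ℝ} (hb : ∀ᶠ i in atTop, |u i (fl (N i) x₀)| ≤ B)
    (φ₀ : ℕ → ℕ) (hφ₀ : StrictMono φ₀) :
    ∃ φ : ℕ → ℕ, StrictMono φ ∧ ∃ U : ℂ → ℝ, ContinuousOn U (Cl P \ X) ∧
      TendstoLocallyUniformlyOn (fun k => Pool.Agent.SixB.ext (N (φ₀ (φ k))) (u (φ₀ (φ k)))) U atTop
        (Cl P \ X) := by
  have := lc_Cl_diff P hX.isClosed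
  refine ascoli_seq_lc (AE_ext hN hX.isClosed h) (isPreconnected_Cl_diff hP hX.countable) hx₀
    (c := 0) (B := B) ?_ φ₀ hφ₀
  filter_upwards [hb] with i hi
  rw [ext_eq, Real.dist_eq, sub_zero]
  exact hi

end Region

end Pool.Agent.SixB.DC
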