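import Pool.Agent.Lib.SixB.AN7
import Pool.Agent.Lib.SixB.S6Defs

/-! Analysis package for MP_6bd702, file AN9.
* Even reflection at a flat wall from the weak Neumann condition is harmonic.
* Lipschitz and gradient bounds.
* Extension of `NHarm` functions across flat walls. -/

open Filter Topology Metric Set Complex InnerProductSpace Real MeasureTheory Laplacian
open scoped ComplexConjugate

namespace Pool.Agent.SixB

/-- Even reflection at the real axis. -/
noncomputable def evenRefl (u : ℂ → ℝ) (z : ℂ) : ℝ := u (z.re + |z.im| * I)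

theorem fold_of_nonneg {z : ℂ} (h : 0 ≤ z.im) : (z.re + |z.im| * I : ℂ) = z := by
  rw [abs_of_nonneg h]; exact Complex.re_add_im z

theorem fold_of_nonpos {z : ℂ} (h : z.im ≤ 0) : (z.re + |z.im| * I : ℂ) = conj z := by
  rw [abs_of_nonpos h]
  apply Complex.ext <;> simp

theorem norm_fold (z : ℂ) : ‖(z.re + |z.im| * I : ℂ)‖ = ‖z‖ := by
  rcases le_total 0 z.im with h | h
  · rw [fold_of_nonneg h]
  · rw [fold_of_nonpos h, Complex.norm_conj]

theorem im_fold (z : ℂ) : (z.re + |z.im| * I : ℂ).im = |z.im| := by simp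

/-- an even differentiable function has derivative zero at `0` -/
theorem hasDerivAt_zero_of_even {f : ℝ → ℝ} (hf : DifferentiableAt ℝ f 0)
    (he : ∀ t, f (-t) = f t) : HasDerivAt f 0 0 := by
  have h1 := hf.hasDerivAt
  have h2 : HasDerivAt (fun t => f (-t)) (-(deriv f 0)) 0 := by
    have h3 : HasDerivAt f (deriv f 0) (-0) := by rwa [neg_zero]
    have h4 := h3.comp (0:ℝ) (hasDerivAt_neg (0:ℝ))
    have h5 : f ∘ Neg.neg = fun t => f (-t) := rfl
    rw [h5] at h4
    simpa using h4
  have h6 : (fun t => f (-t)) = f := funext he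
  rw [h6] at h2
  have h7 : deriv f 0 = -(deriv f 0) := h1.unique h2
  have h8 : deriv f 0 = 0 := by linarith
  rwa [h8] at h1

/-- **Reflection principle** for harmonic functions with a weak Neumann condition. -/
theorem harmonicOnNhd_evenRefl {u : ℂ → ℝ} {ρ : ℝ} (hρ : 0 < ρ)
    (hc : ContinuousOn u (closedBall 0 ρ ∩ {z | 0 ≤ z.im}))
    (hh : HarmonicOnNhd u (ball 0 ρ ∩ {z | 0 < z.im}))
    (hN : ∀ x : ℝ, |x| < ρ → ∀ ε : ℝ, 0 < ε → ∃ δ : ℝ, 0 < δ ∧ ∀ t : ℝ, 0 < t → t < δ →
      |u (x + t * I) - u x| ≤ ε * t) :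
    HarmonicOnNhd (evenRefl u) (ball 0 ρ) := by
  have hfold : ∀ z ∈ closedBall (0:ℂ) ρ, (z.re + |z.im| * I : ℂ) ∈
      closedBall (0:ℂ) ρ ∩ {z | 0 ≤ z.im} := by
    intro z hz
    rw [mem_closedBall, dist_zero_right] at hz
    refine ⟨?_, ?_⟩
    · rw [mem_closedBall, dist_zero_right, norm_fold]; exact hz
    · rw [Set.mem_ofPred_eq, im_fold]; exact abs_nonneg _
  have hgc : ContinuousOn (evenRefl u) (closedBall 0 ρ) := by
    refine hc.comp ?_ hfold
    fun_prop
  have hgs : ContinuousOn (evenRefl u) (sphere 0 ρ) := hgc.mono sphere_subset_closedBall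
  have hgi : CircleIntegrable (evenRefl u) 0 ρ := by
    apply ContinuousOn.circleIntegrable'
    rwa [abs_of_pos hρ]
  set v := dirichletSol 0 ρ (evenRefl u) with hv
  have hvh : HarmonicOnNhd v (ball 0 ρ) := harmonicOnNhd_dirichletSol hgi
  have hvc : ContinuousOn v (closedBall 0 ρ) := continuousOn_dirichletSol hρ hgs
  have hvs : ∀ z ∈ sphere (0:ℂ) ρ, v z = evenRefl u z := by
    intro z hz
    refine dirichletSol_of_notMem ?_
    rw [mem_ball]; rw [mem_sphere] at hz; rw [hz]; exact lt_irrefl _
  have hconjb : ∀ z ∈ ball (0:ℂ) ρ, conj z ∈ ball (0:ℂ) ρ := by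
    intro z hz
    rw [mem_ball, dist_zero_right] at hz ⊢
    rwa [Complex.norm_conj]
  have hconjc : ∀ z ∈ closedBall (0:ℂ) ρ, conj z ∈ closedBall (0:ℂ) ρ := by
    intro z hz
    rw [mem_closedBall, dist_zero_right] at hz ⊢
    rwa [Complex.norm_conj]
  set v' : ℂ → ℝ := fun z => (1 / 2 : ℝ) • (v z + v (conj z)) with hv'
  have hv'h : HarmonicOnNhd v' (ball 0 ρ) := by
    intro z hz
    have h1 : HarmonicAt (fun w => v (conj w)) z := harmonicAt_comp_conj (hvh _ (hconjb z hz))
    exact ((hvh z hz).add h1).const_smul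
  have hv'c : ContinuousOn v' (closedBall 0 ρ) := by
    have h1 : ContinuousOn (fun z : ℂ => v (conj z)) (closedBall 0 ρ) :=
      hvc.comp Complex.continuous_conj.continuousOn hconjc
    exact (hvc.add h1).const_smul (1 / 2 : ℝ)
  have heven : ∀ z, v' (conj z) = v' z := by
    intro z
    simp only [hv', Complex.conj_conj, add_comm]
  have hg_conj : ∀ z, evenRefl u (conj z) = evenRefl u z := by
    intro z
    simp only [evenRefl, conj_re, conj_im, abs_neg]
  have hv's : ∀ z ∈ sphere (0:ℂ) ρ, v' z = evenRefl u z := by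
    intro z hz
    have hz' : conj z ∈ sphere (0:ℂ) ρ := by
      rw [mem_sphere, dist_zero_right] at hz ⊢
      rwa [Complex.norm_conj]
    simp only [hv', hvs z hz, hvs _ hz', hg_conj, smul_eq_mul]
    ring
  set K := closedBall (0:ℂ) ρ ∩ {z | 0 ≤ z.im} with hK
  have hKcomp : IsCompact K :=
    (isCompact_closedBall 0 ρ).inter_right (isClosed_le continuous_const Complex.continuous_im)
  have hK0 : ∀ z ∈ K, 0 ≤ z.im := fun z hz => hz.2
  have hsgn : ∀ σ : ℝ, (σ = 1 ∨ σ = -1) → ∀ z ∈ K, σ * (u z - v' z) ≤ 0 := by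
    intro σ hσ
    have hσabs : |σ| = 1 := by rcases hσ with h | h <;> rw [h] <;> norm_num
    refine max_principle_neu hKcomp hK0 (B := sphere 0 ρ) ?_ ?_ ?_
    · exact continuousOn_const.mul (hc.sub (hv'c.mono inter_subset_left))
    · intro z hz hzs
      rw [hv's z hzs, evenRefl, fold_of_nonneg hz.2, sub_self, mul_zero]
    · intro z hz hzs
      have hzb : ‖z‖ < ρ := by
        have h1 := hz.1
        rw [mem_closedBall, dist_zero_right] at h1
        rcases h1.lt_or_eq with h | h
        · exact h
        · exact absurd (by rw [mem_sphere, dist_zero_right]; exact h) hzs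
      have hz2 : 0 ≤ z.im := hz.2
      rcases hz2.lt_or_eq with him | him
      · left
        have hopen : IsOpen (ball (0:ℂ) ρ ∩ {z | 0 < z.im}) :=
          isOpen_ball.inter (isOpen_lt continuous_const Complex.continuous_im)
        have hmem : z ∈ ball (0:ℂ) ρ ∩ {z | 0 < z.im} :=
          ⟨by rw [mem_ball, dist_zero_right]; exact hzb, him⟩
        obtain ⟨r, hr, hsub⟩ := Metric.nhds_basis_closedBall.mem_iff.1 (hopen.mem_nhds hmem)
        refine ⟨r, hr, fun y hy => ?_, fun y hy => ?_⟩
        · have hy2 : 0 < y.im := (hsub hy).2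
          exact ⟨ball_subset_closedBall (hsub hy).1, hy2.le⟩
        · exact (((hh y (hsub hy)).sub (hv'h y (hsub hy).1)).const_smul (c := σ))
      · right
        intro ε hε
        have hzx : z = (z.re : ℂ) := by
          apply Complex.ext <;> simp [← him]
        set x := z.re with hx
        have hxρ : |x| < ρ := (Complex.abs_re_le_norm z).trans_lt hzb
        obtain ⟨δ1, hδ1, h1⟩ := hN x hxρ (ε / 2) (by positivity)
        -- derivative of v'
        have hzball : z ∈ ball (0:ℂ) ρ := by rw [mem_ball, dist_zero_right]; exact hzb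
        have hvd : DifferentiableAt ℝ v' z := (hv'h z hzball).1.differentiableAt (by norm_num)
        have hfd : DifferentiableAt ℝ (fun t : ℝ => v' (z + t * I)) 0 := by
          have h3 : DifferentiableAt ℝ v' (z + ((0:ℝ):ℂ) * I) := by simpa using hvd
          have h4 : DifferentiableAt ℝ (fun t : ℝ => z + (t:ℂ) * I) 0 := by
            have h5 : HasDerivAt (fun t : ℝ => (t:ℂ)) 1 (0:ℝ) :=
              Complex.ofRealCLM.hasDerivAt
            exact ((h5.mul_const I).const_add z).differentiableAt
          have h6 := DifferentiableAt.comp (g := v') (0:ℝ) h3 h4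
          exact h6
        have hfe : ∀ t : ℝ, v' (z + ((-t : ℝ) : ℂ) * I) = v' (z + t * I) := by
          intro t
          rw [← heven (z + t * I)]
          congr 1
          rw [hzx]
          simp
        have hder := hasDerivAt_zero_of_even hfd hfe
        have hlo := hder.isLittleO
        rw [Asymptotics.isLittleO_iff] at hlo
        obtain ⟨δ2, hδ2, h2⟩ := Metric.eventually_nhds_iff.1 (hlo (show 0 < ε / 2 by positivity))
        set t := min (min (δ1 / 2) (δ2 / 2)) (ρ - ‖z‖) with ht
        have htpos : 0 < t := lt_min (lt_min (by positivity) (by positivity)) (by linarith)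
        have ht1 : t < δ1 := by
          have : t ≤ δ1 / 2 := (min_le_left _ _).trans (min_le_left _ _)
          linarith
        have ht2 : t < δ2 := by
          have : t ≤ δ2 / 2 := (min_le_left _ _).trans (min_le_right _ _)
          linarith
        have ht3 : t ≤ ρ - ‖z‖ := min_le_right _ _
        refine ⟨t, htpos, ⟨?_, ?_⟩, ?_⟩
        · rw [mem_closedBall, dist_zero_right]
          refine (norm_add_le _ _).trans ?_
          rw [norm_mul, Complex.norm_I, mul_one, Complex.norm_real, Real.norm_eq_abs,
            abs_of_pos htpos]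
          linarith
        · rw [Set.mem_ofPred_eq]
          simp [← him, htpos.le]
        · have h5 := h1 t htpos ht1
          rw [← hzx] at h5
          have h6 := h2 (y := t) (by rw [Real.dist_eq, sub_zero, abs_of_pos htpos]; exact ht2)
          simp only [sub_zero, smul_zero, Complex.ofReal_zero, zero_mul, add_zero,
            Real.norm_eq_abs, abs_of_pos htpos] at h6
          have h7 : |σ * ((u (z + t * I) - v' (z + t * I)) - (u z - v' z))| ≤ ε * t := by
            rw [abs_mul, hσabs, one_mul]
            have h8 : (u (z + t * I) - v' (z + t * I)) - (u z - v' z) =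
                (u (z + t * I) - u z) - (v' (z + t * I) - v' z) := by ring
            rw [h8]
            refine (abs_sub _ _).trans ?_
            linarith
          have h9 := (abs_le.1 h7).1
          linarith
  have heq : ∀ z ∈ K, u z = v' z := by
    intro z hz
    have h1 := hsgn 1 (Or.inl rfl) z hz
    have h2 := hsgn (-1) (Or.inr rfl) z hz
    linarith
  intro z hz
  refine (harmonicAt_congr_nhds ?_).2 (hv'h z hz)
  filter_upwards [isOpen_ball.mem_nhds hz] with y hy
  have hyc : y ∈ closedBall (0:ℂ) ρ := ball_subset_closedBall hy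
  rw [evenRefl, heq _ (hfold y hyc)]
  rcases le_total 0 y.im with h | h
  · rw [fold_of_nonneg h]
  · rw [fold_of_nonpos h, heven]

end Pool.Agent.SixB
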