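import Pool.Agent.Lib.SixB.AN9

/-! Analysis package for MP_6bd702, file AN9b.
* Reflection at a flat wall with any normal direction.
* Lipschitz and gradient bounds for bounded harmonic functions.
* Extension of `NHarm` functions across flat walls (block CA). -/

open Filter Topology Metric Set Complex InnerProductSpace Real MeasureTheory Laplacian
open scoped ComplexConjugate

namespace Pool.Agent.SixB

/-- Lipschitz bound at the centre for bounded harmonic functions. -/
theorem harmonic_sub_le {h : ℂ → ℝ} {c w : ℂ} {R M : ℝ} (hR : 0 < R)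
    (hh : HarmonicOnNhd h (ball c R)) (hM : ∀ z ∈ ball c R, |h z| ≤ M) (hw : ‖w - c‖ ≤ R / 4) :
    |h w - h c| ≤ 16 * M / R * ‖w - c‖ := by
  have hM0 : 0 ≤ M := (abs_nonneg _).trans (hM c (mem_ball_self hR))
  set r := R / 2 with hr
  have hrpos : 0 < r := by positivity
  have hrabs : |r| = r := abs_of_pos hrpos
  have hsub : closedBall c r ⊆ ball c R := closedBall_subset_ball (by rw [hr]; linarith)
  have hwb : w ∈ ball c r := by
    rw [mem_ball, dist_eq_norm]; rw [hr]; linarith
  have hcr : HarmonicOnNhd h (closedBall c r) := hh.mono hsub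
  have hsph : sphere c |r| ⊆ closedBall c r := by rw [hrabs]; exact sphere_subset_closedBall
  -- one sided bound for nonnegative harmonic functions
  have key : ∀ k : ℂ → ℝ, HarmonicOnNhd k (closedBall c r) → (∀ z ∈ sphere c r, 0 ≤ k z) →
      k w - k c ≤ 8 / R * ‖w - c‖ * k c := by
    intro k hk hk0
    have hkc : ContinuousOn k (sphere c |r|) := hk.continuousOn.mono hsph
    have h1 := HarmonicOnNhd.circleAverage_poissonKernel_smul hk hwb
    have h2 : circleAverage k c r = k c := by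
      have := InnerProductSpace.HarmonicOnNhd.circleAverage_eq (f := k) (c := c) (R := r)
        (by rwa [hrabs])
      exact this
    have hKc := continuousOn_poissonKernel_sphere hwb
    have h3 : circleAverage (poissonKernel c w • k) c r ≤
        circleAverage (fun z => ((r + ‖w - c‖) / (r - ‖w - c‖)) * k z) c r := by
      refine circleAverage_mono (hKc.smul hkc).circleIntegrable'
        (continuousOn_const.mul hkc).circleIntegrable' ?_
      intro z hz
      rw [hrabs] at hz
      simp only [Pi.smul_apply', smul_eq_mul]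
      refine mul_le_mul_of_nonneg_right ?_ (hk0 z hz)
      have h4 := re_herglotzRieszKernel_le hz hwb
      rw [poissonKernel_eq_re_herglotzRieszKernel]
      exact h4
    have h5 := circleAverage_smul (f := k) (c := c) (R := r) (a := (r + ‖w - c‖) / (r - ‖w - c‖))
    rw [h2] at h5
    have h6 : (fun z => ((r + ‖w - c‖) / (r - ‖w - c‖)) * k z) =
        ((r + ‖w - c‖) / (r - ‖w - c‖)) • k := by
      funext z; simp
    rw [h1, h6, h5, smul_eq_mul] at h3
    have hkc0 : 0 ≤ k c := by
      rw [← h2]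
      refine circleAverage_nonneg_of_nonneg ?_
      intro z hz
      rw [hrabs] at hz
      exact hk0 z hz
    have hn := norm_nonneg (w - c)
    have hden : 0 < r - ‖w - c‖ := by rw [hr]; linarith
    have h7 : (r + ‖w - c‖) / (r - ‖w - c‖) - 1 ≤ 8 / R * ‖w - c‖ := by
      have h8 : (r + ‖w - c‖) / (r - ‖w - c‖) - 1 = 2 * ‖w - c‖ / (r - ‖w - c‖) := by
        field_simp; ring
      rw [h8, div_le_iff₀ hden]
      have h9 : R / 4 ≤ r - ‖w - c‖ := by rw [hr]; linarith
      calc 2 * ‖w - c‖ = 8 / R * ‖w - c‖ * (R / 4) := by field_simp; ring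
        _ ≤ 8 / R * ‖w - c‖ * (r - ‖w - c‖) := by gcongr
    nlinarith
  have hconst : HarmonicOnNhd (fun _ : ℂ => M) (closedBall c r) := harmonicOnNhd_const M
  have hcc : |h c| ≤ M := hM c (mem_ball_self hR)
  have h1 := key (fun z => M + h z) (hconst.add hcr) (fun z hz => by
    have := (abs_le.1 (hM z (hsub (sphere_subset_closedBall hz)))).1
    linarith)
  have h2 := key (fun z => M - h z) (hconst.sub hcr) (fun z hz => by
    have := (abs_le.1 (hM z (hsub (sphere_subset_closedBall hz)))).2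
    linarith)
  have hn := norm_nonneg (w - c)
  have h3 : 8 / R * ‖w - c‖ * (M + h c) ≤ 16 * M / R * ‖w - c‖ := by
    have := (abs_le.1 hcc).2
    calc 8 / R * ‖w - c‖ * (M + h c) ≤ 8 / R * ‖w - c‖ * (2 * M) := by
          gcongr; linarith
      _ = 16 * M / R * ‖w - c‖ := by ring
  have h4 : 8 / R * ‖w - c‖ * (M - h c) ≤ 16 * M / R * ‖w - c‖ := by
    have := (abs_le.1 hcc).1
    calc 8 / R * ‖w - c‖ * (M - h c) ≤ 8 / R * ‖w - c‖ * (2 * M) := by
          gcongr; linarith
      _ = 16 * M / R * ‖w - c‖ := by ring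
  rw [abs_le]
  constructor <;> linarith

/-- Gradient bound for bounded harmonic functions. -/
theorem norm_fderiv_le_of_harmonic {h : ℂ → ℝ} {c : ℂ} {R M : ℝ} (hR : 0 < R)
    (hh : HarmonicOnNhd h (ball c R)) (hM : ∀ z ∈ ball c R, |h z| ≤ M) :
    ‖fderiv ℝ h c‖ ≤ 16 * M / R := by
  have hM0 : 0 ≤ M := (abs_nonneg _).trans (hM c (mem_ball_self hR))
  refine norm_fderiv_le_of_lip' ℝ (by positivity) ?_
  filter_upwards [closedBall_mem_nhds c (show 0 < R / 4 by positivity)] with w hw
  rw [mem_closedBall, dist_eq_norm] at hw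
  exact harmonic_sub_le hR hh hM hw

/-- Lipschitz bound on half of the ball. -/
theorem harmonic_lipschitz {h : ℂ → ℝ} {c : ℂ} {R M : ℝ} (hR : 0 < R)
    (hh : HarmonicOnNhd h (ball c R)) (hM : ∀ z ∈ ball c R, |h z| ≤ M) :
    ∀ z ∈ ball c (R / 2), ∀ w ∈ ball c (R / 2), |h z - h w| ≤ 32 * M / R * ‖z - w‖ := by
  intro z hz w hw
  have hd : ∀ x ∈ ball c (R / 2), DifferentiableAt ℝ h x := by
    intro x hx
    exact (hh x (ball_subset_ball (by linarith) hx)).1.differentiableAt (by norm_num)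
  have hb : ∀ x ∈ ball c (R / 2), ‖fderiv ℝ h x‖ ≤ 32 * M / R := by
    intro x hx
    have hsub : ball x (R / 2) ⊆ ball c R := by
      intro y hy
      rw [mem_ball] at hx hy ⊢
      have := dist_triangle y x c
      linarith
    have h1 := norm_fderiv_le_of_harmonic (show 0 < R / 2 by positivity) (hh.mono hsub)
      (fun y hy => hM y (hsub hy))
    calc ‖fderiv ℝ h x‖ ≤ 16 * M / (R / 2) := h1
      _ = 32 * M / R := by field_simp; ring
  have := (convex_ball c (R / 2)).norm_image_sub_le_of_norm_fderiv_le hd hb hw hz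
  rwa [Real.norm_eq_abs] at this

/-- The folding map at the line through `p` with normal `ν`. -/
noncomputable def foldAt (p ν z : ℂ) : ℂ := z + ((|sp (z - p) ν| - sp (z - p) ν : ℝ) : ℂ) * ν

theorem foldAt_of_nonneg {p ν z : ℂ} (h : 0 ≤ sp (z - p) ν) : foldAt p ν z = z := by
  rw [foldAt, abs_of_nonneg h, sub_self]; simp

theorem sp_eq_re (z ν : ℂ) : sp z ν = (z * conj ν).re := by
  simp [sp]

theorem spn_add (z w ν : ℂ) : sp (z + w) ν = sp z ν + sp w ν := by
  simp only [sp, add_re, add_im]; ring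

theorem spn_sub (z w ν : ℂ) : sp (z - w) ν = sp z ν - sp w ν := by
  simp only [sp, sub_re, sub_im]; ring

theorem sp_ofReal_mul (a : ℝ) (z ν : ℂ) : sp ((a : ℂ) * z) ν = a * sp z ν := by
  simp only [sp, Complex.mul_re, Complex.mul_im, Complex.ofReal_re, Complex.ofReal_im]; ring

theorem sp_self {ν : ℂ} (hν : ‖ν‖ = 1) : sp ν ν = 1 := by
  have : ‖ν‖ ^ 2 = 1 := by rw [hν]; norm_num
  rw [← Complex.normSq_eq_norm_sq, Complex.normSq_apply] at this
  exact this

theorem abs_sp_le {ν : ℂ} (hν : ‖ν‖ = 1) (z : ℂ) : |sp z ν| ≤ ‖z‖ := by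
  rw [sp_eq_re]
  refine (Complex.abs_re_le_norm _).trans ?_
  rw [norm_mul, Complex.norm_conj, hν, mul_one]

theorem norm_of_isDir {ν : ℂ} (h : IsDir ν) : ‖ν‖ = 1 := by
  rcases h with h | h | h | h <;> rw [h] <;> simp

theorem continuous_foldAt (p ν : ℂ) : Continuous (foldAt p ν) := by
  unfold foldAt sp; fun_prop

/-- coordinates adapted to the wall -/
theorem foldAt_coord {p ν : ℂ} (hν : ‖ν‖ = 1) (w : ℂ) :
    foldAt p ν (p + w * (-I * ν)) = p + ((w.re + |w.im| * I : ℂ)) * (-I * ν) := by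
  have h1 : sp (p + w * (-I * ν) - p) ν = w.im := by
    rw [add_sub_cancel_left]
    have h2 : w * (-I * ν) = ((w.re : ℝ) : ℂ) * (-I * ν) + ((w.im : ℝ) : ℂ) * ν := by
      conv_lhs => rw [← Complex.re_add_im w]
      ring_nf
      rw [Complex.I_sq]
      ring
    rw [h2, spn_add, sp_ofReal_mul, sp_ofReal_mul, sp_self hν]
    have h3 : sp (-I * ν) ν = 0 := by
      simp [sp]; ring
    rw [h3]; ring
  have hw : p + w * (-I * ν) = p + ((w.re : ℂ) + w.im * I) * (-I * ν) := by
    rw [Complex.re_add_im]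
  rw [foldAt, h1, hw]
  push_cast
  ring_nf
  simp only [Complex.I_sq]
  ring

/-- **Reflection principle**, any direction. -/
theorem harmonicOnNhd_foldAt {u : ℂ → ℝ} {p ν : ℂ} (hν : ‖ν‖ = 1) {ρ : ℝ}
    (hc : ContinuousOn u (ball p ρ ∩ {z | 0 ≤ sp (z - p) ν}))
    (hh : HarmonicOnNhd u (ball p ρ ∩ {z | 0 < sp (z - p) ν}))
    (hN : ∀ q ∈ ball p ρ, sp (q - p) ν = 0 → ∀ ε : ℝ, 0 < ε → ∃ δ : ℝ, 0 < δ ∧
      ∀ t : ℝ, 0 < t → t < δ → |u (q + t * ν) - u q| ≤ ε * t) :
    HarmonicOnNhd (fun z => u (foldAt p ν z)) (ball p ρ) := by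
  intro z hz
  rw [mem_ball] at hz
  obtain ⟨r, hr1, hr2⟩ := exists_between hz
  have hrpos : 0 < r := lt_of_le_of_lt dist_nonneg hr1
  set a : ℂ := -I * ν with ha
  have hna : ‖a‖ = 1 := by rw [ha]; simp [hν]
  have hanz : a ≠ 0 := by rw [← norm_pos_iff, hna]; norm_num
  set uT : ℂ → ℝ := fun w => u (p + w * a) with huT
  have hsp : ∀ w : ℂ, sp (p + w * a - p) ν = w.im := by
    intro w
    rw [add_sub_cancel_left]
    have h2 : w * a = ((w.re : ℝ) : ℂ) * a + ((w.im : ℝ) : ℂ) * ν := by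
      conv_lhs => rw [← Complex.re_add_im w]
      rw [ha]
      ring_nf
      rw [Complex.I_sq]
      ring
    rw [h2, spn_add, sp_ofReal_mul, sp_ofReal_mul, sp_self hν]
    have h3 : sp a ν = 0 := by
      rw [ha]; simp [sp]; ring
    rw [h3]; ring
  have hTball : ∀ w : ℂ, ‖w‖ < ρ → p + w * a ∈ ball p ρ := by
    intro w hw
    rw [mem_ball, dist_eq_norm, add_sub_cancel_left, norm_mul, hna, mul_one]; exact hw
  have key : HarmonicOnNhd (evenRefl uT) (ball 0 r) := by
    refine harmonicOnNhd_evenRefl hrpos ?_ ?_ ?_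
    · refine hc.comp (by fun_prop) ?_
      intro w hw
      have hw1 := hw.1
      rw [mem_closedBall, dist_zero_right] at hw1
      refine ⟨hTball w (lt_of_le_of_lt hw1 hr2), ?_⟩
      rw [Set.mem_ofPred_eq, hsp]
      exact hw.2
    · intro w hw
      have hw1 := hw.1
      rw [mem_ball, dist_zero_right] at hw1
      refine harmonicAt_comp_affine (hh _ ⟨hTball w (hw1.trans hr2), ?_⟩)
      rw [Set.mem_ofPred_eq, hsp]
      exact hw.2
    · intro x hx ε hε
      have h1 := hN (p + x * a) (hTball x (by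
        rw [Complex.norm_real]; exact lt_trans hx hr2)) (by rw [hsp]; simp) ε hε
      obtain ⟨δ, hδ, h2⟩ := h1
      refine ⟨δ, hδ, fun t ht htδ => ?_⟩
      have h3 := h2 t ht htδ
      have h4 : p + x * a + t * ν = p + (x + t * I) * a := by
        rw [ha]
        ring_nf
        rw [Complex.I_sq]
        ring
      rw [h4] at h3
      exact h3
  -- go back
  have hainv : ∀ w : ℂ, p + (w - p) * a⁻¹ * a = w := by
    intro w
    rw [mul_assoc, inv_mul_cancel₀ hanz]; ring
  have hfun : ∀ w : ℂ, u (foldAt p ν w) = evenRefl uT ((-(p * a⁻¹)) + w * a⁻¹) := by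
    intro w
    have h1 : (-(p * a⁻¹)) + w * a⁻¹ = (w - p) * a⁻¹ := by ring
    rw [h1, evenRefl, huT]
    simp only
    rw [ha, ← foldAt_coord hν, ← ha, hainv]
  have hz0 : (-(p * a⁻¹)) + z * a⁻¹ ∈ ball (0:ℂ) r := by
    have h1 : (-(p * a⁻¹)) + z * a⁻¹ = (z - p) * a⁻¹ := by ring
    rw [h1, mem_ball, dist_zero_right, norm_mul, norm_inv, hna, inv_one, mul_one, ← dist_eq_norm]
    exact hr1
  have h5 := harmonicAt_comp_affine (u := evenRefl uT) (a := a⁻¹) (p := -(p * a⁻¹)) (w := z)
    (key _ hz0)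
  refine (harmonicAt_congr_nhds ?_).2 h5
  exact Eventually.of_forall hfun

end Pool.Agent.SixB
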