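import Mathlib

/-!
# Vitali's theorem, form used in step 3 of 6BD

A uniformly bounded family of holomorphic functions on a connected open set which tends to zero on
a set with an accumulation point tends to zero everywhere.
-/

set_option autoImplicit false

namespace Pool.Agent.SixB

open Set Filter Topology Metric

/-- Schwarz estimate: bounded holomorphic functions are locally Lipschitz, uniformly. -/
theorem lip_of_bdd {c z : ℂ} {r C : ℝ} (hr : 0 < r) {f : ℂ → ℂ}
    (hf : DifferentiableOn ℂ f (ball c r)) (hb : ∀ w ∈ ball c r, ‖f w‖ ≤ C) (hz : z ∈ ball c r) :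
    ‖f z - f c‖ ≤ (2 * C + 1) / r * ‖z - c‖ := by
  have hm : MapsTo f (ball c r) (closedBall (f c) (2 * C + 1)) := by
    intro w hw
    rw [mem_closedBall, dist_eq_norm]
    calc ‖f w - f c‖ ≤ ‖f w‖ + ‖f c‖ := norm_sub_le _ _
      _ ≤ C + C := add_le_add (hb w hw) (hb c (mem_ball_self hr))
      _ ≤ 2 * C + 1 := by linarith
  have := Complex.dist_le_div_mul_dist_of_mapsTo_ball hf hm hz
  rwa [dist_eq_norm, dist_eq_norm] at this

theorem vitali_ultra {U : Set ℂ} (hU : IsOpen U) {ι : Type*} (u : Ultrafilter ι) (f : ι → ℂ → ℂ)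
    {C : ℝ} (hC : 0 ≤ C) (hf : ∀ i, DifferentiableOn ℂ (f i) U) (hb : ∀ i, ∀ z ∈ U, ‖f i z‖ ≤ C) :
    ∃ F : ℂ → ℂ, DifferentiableOn ℂ F U ∧ (∀ z ∈ U, ‖F z‖ ≤ C) ∧
      TendstoLocallyUniformlyOn f F u U ∧ ∀ z ∈ U, Tendsto (fun i => f i z) u (𝓝 (F z)) := by
  classical
  have hex : ∀ z ∈ U, ∃ y ∈ closedBall (0 : ℂ) C, Tendsto (fun i => f i z) u (𝓝 y) := by
    intro z hz
    have h1 : (u.map (fun i => f i z) : Filter ℂ) ≤ 𝓟 (closedBall (0 : ℂ) C) := by
      rw [le_principal_iff, Ultrafilter.coe_map, Filter.mem_map]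
      refine Filter.univ_mem' (fun i => ?_)
      show f i z ∈ closedBall (0 : ℂ) C
      simpa using hb i z hz
    obtain ⟨y, hy, h2⟩ := (isCompact_closedBall (0 : ℂ) C).ultrafilter_le_nhds _ h1
    exact ⟨y, hy, h2⟩
  choose! F hF1 hF2 using hex
  have hlip : ∀ x r, 0 < r → ball x r ⊆ U → ∀ z ∈ ball x r, ∀ i,
      ‖f i z - f i x‖ ≤ (2 * C + 1) / r * ‖z - x‖ := by
    intro x r hr hsub z hz i
    exact lip_of_bdd hr ((hf i).mono hsub) (fun w hw => hb i w (hsub hw)) hz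
  have hlipF : ∀ x r, 0 < r → ball x r ⊆ U → ∀ z ∈ ball x r,
      ‖F z - F x‖ ≤ (2 * C + 1) / r * ‖z - x‖ := by
    intro x r hr hsub z hz
    have h1 : Tendsto (fun i => ‖f i z - f i x‖) u (𝓝 ‖F z - F x‖) :=
      ((hF2 z (hsub hz)).sub (hF2 x (hsub (mem_ball_self hr)))).norm
    exact le_of_tendsto h1 (Filter.Eventually.of_forall (fun i => hlip x r hr hsub z hz i))
  have hloc : TendstoLocallyUniformlyOn f F u U := by
    rw [Metric.tendstoLocallyUniformlyOn_iff]
    intro ε hε x hx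
    obtain ⟨r, hr, hsub⟩ := Metric.isOpen_iff.1 hU x hx
    set L := (2 * C + 1) / r with hL
    have hLpos : 0 < L := by positivity
    refine ⟨ball x (min r (ε / (4 * L))), ?_, ?_⟩
    · exact mem_nhdsWithin_of_mem_nhds (ball_mem_nhds x (lt_min hr (by positivity)))
    · have h1 := Metric.tendsto_nhds.1 (hF2 x hx) (ε / 4) (by linarith)
      filter_upwards [h1] with i hi y hy
      have hyr : y ∈ ball x r := ball_subset_ball (min_le_left _ _) hy
      have hyd : ‖y - x‖ < ε / (4 * L) := by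
        rw [← dist_eq_norm]
        exact (mem_ball.1 hy).trans_le (min_le_right _ _)
      have h2 := hlip x r hr hsub y hyr i
      have h3 := hlipF x r hr hsub y hyr
      have h4 : L * ‖y - x‖ < ε / 4 := by
        calc L * ‖y - x‖ < L * (ε / (4 * L)) := by
              exact mul_lt_mul_of_pos_left hyd hLpos
          _ = ε / 4 := by field_simp
      rw [dist_eq_norm] at hi ⊢
      have h5 : F y - f i y = (F y - F x) - (f i x - F x) - (f i y - f i x) := by ring
      rw [h5]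
      calc ‖(F y - F x) - (f i x - F x) - (f i y - f i x)‖
          ≤ ‖F y - F x‖ + ‖f i x - F x‖ + ‖f i y - f i x‖ := by
            exact (norm_sub_le _ _).trans (add_le_add_left (norm_sub_le _ _) _)
        _ < ε := by linarith
  refine ⟨F, ?_, ?_, hloc, fun z hz => hF2 z hz⟩
  · exact hloc.differentiableOn (Filter.Eventually.of_forall hf) hU
  · intro z hz
    have := hF1 z hz
    simpa using this

/-- **Vitali**: uniformly bounded holomorphic functions on a connected open set which tend to zero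
along a set of points accumulating inside tend to zero. The points may move with the index. -/
theorem vitali_zero {U : Set ℂ} (hU : IsOpen U) (hc : IsPreconnected U) {ι : Type*} {l : Filter ι}
    (f : ι → ℂ → ℂ) {C : ℝ} (hf : ∀ i, DifferentiableOn ℂ (f i) U)
    (hb : ∀ i, ∀ z ∈ U, ‖f i z‖ ≤ C) {S : Set ℂ} {z₀ : ℂ} (hz₀ : z₀ ∈ U)
    (hS : ∃ᶠ z in 𝓝[≠] z₀, z ∈ S)
    (h0 : ∀ z ∈ S, ∃ w : ι → ℂ, Tendsto w l (𝓝 z) ∧ Tendsto (fun i => f i (w i)) l (𝓝 0)) :
    ∀ z ∈ U, Tendsto (fun i => f i z) l (𝓝 0) := by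
  intro z hz
  rw [tendsto_iff_ultrafilter]
  intro u hu
  have hne : Nonempty ι := by
    have : (u : Filter ι).NeBot := u.neBot
    exact this.nonempty
  obtain ⟨i₀⟩ := hne
  have hC : 0 ≤ C := (norm_nonneg _).trans (hb i₀ z₀ hz₀)
  obtain ⟨F, hF1, hF2, hF3, hF4⟩ := vitali_ultra hU u f hC hf hb
  have hFan : AnalyticOnNhd ℂ F U := hF1.analyticOnNhd hU
  have hzero : EqOn F 0 U := by
    refine hFan.eqOn_zero_of_preconnected_of_frequently_eq_zero hc hz₀ ?_
    have hUn : ∀ᶠ x in 𝓝[≠] z₀, x ∈ U := mem_nhdsWithin_of_mem_nhds (hU.mem_nhds hz₀)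
    refine (hS.and_eventually hUn).mono ?_
    rintro x ⟨hxS, hxU⟩
    obtain ⟨w, hw, hw0⟩ := h0 x hxS
    have hw' : Tendsto w u (𝓝 x) := hw.mono_left hu
    have hw0' : Tendsto (fun i => f i (w i)) u (𝓝 0) := hw0.mono_left hu
    have hcomp : Tendsto (fun i => f i (w i)) u (𝓝 (F x)) := by
      refine hF3.tendsto_comp (hF1.continuousOn x hxU) hxU ?_
      rw [hU.nhdsWithin_eq hxU]
      exact hw'
    exact tendsto_nhds_unique hcomp hw0'
  have := hF4 z hz
  rw [hzero hz] at this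
  exact this

/-- Vitali on a horizontal strip, limit zero on a real interval. The functions are tested at moving real
points (grid points `2 m / n`). -/
theorem vitali_strip {ι : Type*} {l : Filter ι} {h : ℝ} (hh : 0 < h) (f : ι → ℂ → ℂ) {C : ℝ}
    (hf : ∀ i, DifferentiableOn ℂ (f i) {z : ℂ | |z.im| < h})
    (hb : ∀ i, ∀ z : ℂ, |z.im| < h → ‖f i z‖ ≤ C) {a b : ℝ} (hab : a < b)
    (h0 : ∀ x ∈ Ioo a b, ∃ w : ι → ℝ, Tendsto w l (𝓝 x) ∧
      Tendsto (fun i => f i (w i : ℂ)) l (𝓝 0)) :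
    ∀ z : ℂ, |z.im| < h → Tendsto (fun i => f i z) l (𝓝 0) := by
  have hU : IsOpen {z : ℂ | |z.im| < h} := isOpen_lt (by fun_prop) (by fun_prop)
  have hconv : Convex ℝ {z : ℂ | |z.im| < h} := by
    have : {z : ℂ | |z.im| < h} = Complex.imLm ⁻¹' (Ioo (-h) h) := by
      ext z
      simp [abs_lt]
    rw [this]
    exact (convex_Ioo _ _).linear_preimage _
  have hmid : (a + b) / 2 ∈ Ioo a b := ⟨by linarith, by linarith⟩
  refine vitali_zero hU hconv.isPreconnected f hf hb (S := (fun x : ℝ => (x : ℂ)) '' Ioo a b)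
    (z₀ := (((a + b) / 2 : ℝ) : ℂ)) (by simpa using hh) ?_ ?_
  · have h1 : ∃ᶠ x in 𝓝[≠] ((a + b) / 2 : ℝ), x ∈ Ioo a b := by
      have h2 : ∀ᶠ x in 𝓝[≠] ((a + b) / 2 : ℝ), x ∈ Ioo a b :=
        mem_nhdsWithin_of_mem_nhds (Ioo_mem_nhds hmid.1 hmid.2)
      exact h2.frequently
    have h3 : Tendsto (fun x : ℝ => (x : ℂ)) (𝓝[≠] ((a + b) / 2 : ℝ))
        (𝓝[≠] (((a + b) / 2 : ℝ) : ℂ)) := by
      refine tendsto_nhdsWithin_iff.2 ⟨?_, ?_⟩
      · exact (Complex.continuous_ofReal.tendsto _).mono_left nhdsWithin_le_nhds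
      · filter_upwards [self_mem_nhdsWithin] with x hx
        intro hxe
        exact hx (Complex.ofReal_injective hxe)
    exact h3.frequently (h1.mono (fun x hx => ⟨x, hx, rfl⟩))
  · rintro _ ⟨x, hx, rfl⟩
    obtain ⟨w, hw, hw0⟩ := h0 x hx
    exact ⟨fun i => (w i : ℂ), (Complex.continuous_ofReal.tendsto _).comp hw, hw0⟩

end Pool.Agent.SixB
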