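import Pool.Agent.Lib.SixB.CADefs

/-!
# 6BD block CA: refinements of polygons and contours, the boundary curve

* `mem_rf`: `f ∈ rf n P ↔ (f.1 / n, f.2 / n) ∈ P`.
* `MPoly.rf`: the refinement of a simple polygon is a simple polygon.
* `Cont.rf`: `gr n g` is the contour of `rf n P`, period `n * L`.
* `fl_gam`: `fl n (gam g (k / n)) = gr n g k`.
* `gam_lip`: the boundary curve is Lipschitz with constant 1.
* `mem_Om_iff`: `z ∈ Om P` iff all the closed unit squares which contain `z` belong to `P`.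
* `wall_gam`: `Fl g t → ∃ ν, Wall P (gam g t) ν`.
* `exists_gam`, `gam_mem_Cl`, `gam_notMem_Om`: the boundary points are the points of the curve.
-/

set_option autoImplicit false
set_option linter.unusedSimpArgs false
set_option linter.unreachableTactic false
set_option linter.unusedTactic false

namespace Pool.Agent.SixB

open Pool.Agent.Perc Pool.Agent.Perc6 Relation

namespace CARf

variable {P : Finset (ℤ × ℤ)} {L n : ℕ} {g : ℤ → ℤ × ℤ}

/-! ### Refinements -/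

theorem div_eq_iff' {n : ℕ} (hn : 0 < n) {x a : ℤ} : x / (n : ℤ) = a ↔ n * a ≤ x ∧ x < n * a + n := by
  have h0 : (0 : ℤ) < n := by exact_mod_cast hn
  have h1 := Int.mul_ediv_add_emod x n
  have h2 := Int.emod_nonneg x h0.ne'
  have h3 := Int.emod_lt_of_pos x h0
  constructor
  · rintro rfl
    constructor <;> linarith
  · rintro ⟨h4, h5⟩
    apply le_antisymm
    · have : x / n < a + 1 := by
        rw [Int.ediv_lt_iff_lt_mul h0]
        linarith
      omega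
    · rw [Int.le_ediv_iff_mul_le h0]
      linarith

theorem mem_rf (hn : 0 < n) {f : ℤ × ℤ} : f ∈ rf n P ↔ (f.1 / (n : ℤ), f.2 / (n : ℤ)) ∈ P := by
  unfold rf
  simp only [Finset.mem_biUnion, Finset.mem_product, Finset.mem_Ico]
  constructor
  · rintro ⟨a, ha, ⟨h1, h2⟩, h3, h4⟩
    have e1 := (div_eq_iff' hn).2 ⟨h1, h2⟩
    have e2 := (div_eq_iff' hn).2 ⟨h3, h4⟩
    rw [e1, e2]
    exact ha
  · intro h
    have e1 := (div_eq_iff' hn (x := f.1)).1 rfl
    have e2 := (div_eq_iff' hn (x := f.2)).1 rfl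
    exact ⟨_, h, ⟨e1.1, e1.2⟩, e2.1, e2.2⟩

theorem mem_rf' (hn : 0 < n) {x y a b : ℤ} (h1 : n * a ≤ x) (h2 : x < n * a + n) (h3 : n * b ≤ y)
    (h4 : y < n * b + n) : (x, y) ∈ rf n P ↔ (a, b) ∈ P := by
  rw [mem_rf hn]
  simp only
  rw [(div_eq_iff' hn).2 ⟨h1, h2⟩, (div_eq_iff' hn).2 ⟨h3, h4⟩]

/-- the blow up of a set of faces -/
def bl (n : ℕ) (S : Set (ℤ × ℤ)) : Set (ℤ × ℤ) := {f | (f.1 / (n : ℤ), f.2 / (n : ℤ)) ∈ S}

/-- a step inside `S` -/
def St (S : Set (ℤ × ℤ)) (a b : ℤ × ℤ) : Prop := b ∈ S ∧ EAdj a b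

/-- horizontal segment in `S` -/
theorem st_hor {S : Set (ℤ × ℤ)} {y x : ℤ} (m : ℕ) (h : ∀ i : ℤ, x ≤ i → i ≤ x + m → (i, y) ∈ S) :
    ReflTransGen (St S) (x, y) (x + m, y) ∧ ReflTransGen (St S) (x + m, y) (x, y) := by
  induction m with
  | zero => simp only [Nat.cast_zero, add_zero]; exact ⟨ReflTransGen.refl, ReflTransGen.refl⟩
  | succ m ih =>
    obtain ⟨h1, h2⟩ := ih fun i hi hi' => h i hi (by push_cast; omega)
    push_cast at h ⊢
    constructor
    · refine h1.tail ⟨h _ (by omega) (by omega), Or.inl ?_⟩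
      simp only [Prod.mk.injEq, and_true]; omega
    · refine ReflTransGen.head ⟨h _ (by omega) (by omega), Or.inr (Or.inl ?_)⟩ h2
      simp only [Prod.mk.injEq, and_true]; omega

/-- vertical segment in `S` -/
theorem st_ver {S : Set (ℤ × ℤ)} {y x : ℤ} (m : ℕ) (h : ∀ i : ℤ, y ≤ i → i ≤ y + m → (x, i) ∈ S) :
    ReflTransGen (St S) (x, y) (x, y + m) ∧ ReflTransGen (St S) (x, y + m) (x, y) := by
  induction m with
  | zero => simp only [Nat.cast_zero, add_zero]; exact ⟨ReflTransGen.refl, ReflTransGen.refl⟩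
  | succ m ih =>
    obtain ⟨h1, h2⟩ := ih fun i hi hi' => h i hi (by push_cast; omega)
    push_cast at h ⊢
    constructor
    · refine h1.tail ⟨h _ (by omega) (by omega), Or.inr (Or.inr (Or.inl ?_))⟩
      simp only [Prod.mk.injEq, true_and]; omega
    · refine ReflTransGen.head ⟨h _ (by omega) (by omega), Or.inr (Or.inr (Or.inr ?_))⟩ h2
      simp only [Prod.mk.injEq, true_and]; omega

theorem st_hor' {S : Set (ℤ × ℤ)} {y x x' : ℤ} (h : ∀ i : ℤ, min x x' ≤ i → i ≤ max x x' → (i, y) ∈ S) :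
    ReflTransGen (St S) (x, y) (x', y) := by
  rcases le_total x x' with h1 | h1
  · obtain ⟨m, hm⟩ := Int.eq_ofNat_of_zero_le (sub_nonneg.2 h1)
    have e : x' = x + m := by linarith
    subst e
    exact (st_hor m fun i hi hi' => h i (by omega) (by omega)).1
  · obtain ⟨m, hm⟩ := Int.eq_ofNat_of_zero_le (sub_nonneg.2 h1)
    have e : x = x' + m := by linarith
    subst e
    exact (st_hor m fun i hi hi' => h i (by omega) (by omega)).2

theorem st_ver' {S : Set (ℤ × ℤ)} {x y y' : ℤ} (h : ∀ i : ℤ, min y y' ≤ i → i ≤ max y y' → (x, i) ∈ S) :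
    ReflTransGen (St S) (x, y) (x, y') := by
  rcases le_total y y' with h1 | h1
  · obtain ⟨m, hm⟩ := Int.eq_ofNat_of_zero_le (sub_nonneg.2 h1)
    have e : y' = y + m := by linarith
    subst e
    exact (st_ver m fun i hi hi' => h i (by omega) (by omega)).1
  · obtain ⟨m, hm⟩ := Int.eq_ofNat_of_zero_le (sub_nonneg.2 h1)
    have e : y = y' + m := by linarith
    subst e
    exact (st_ver m fun i hi hi' => h i (by omega) (by omega)).2

/-- two points of one block -/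
theorem st_block (hn : 0 < n) {S : Set (ℤ × ℤ)} {a : ℤ × ℤ} (ha : a ∈ S) {f f' : ℤ × ℤ}
    (h1 : (f.1 / (n : ℤ), f.2 / (n : ℤ)) = a) (h2 : (f'.1 / (n : ℤ), f'.2 / (n : ℤ)) = a) :
    ReflTransGen (St (bl n S)) f f' := by
  obtain ⟨x, y⟩ := f
  obtain ⟨x', y'⟩ := f'
  obtain ⟨a1, a2⟩ := a
  simp only [Prod.mk.injEq] at h1 h2
  have e1 := (div_eq_iff' hn).1 h1.1
  have e2 := (div_eq_iff' hn).1 h1.2
  have e3 := (div_eq_iff' hn).1 h2.1
  have e4 := (div_eq_iff' hn).1 h2.2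
  have key : ∀ i j : ℤ, n * a1 ≤ i → i < n * a1 + n → n * a2 ≤ j → j < n * a2 + n →
      (i, j) ∈ bl n S := by
    intro i j k1 k2 k3 k4
    change (i / (n : ℤ), j / (n : ℤ)) ∈ S
    rw [(div_eq_iff' hn).2 ⟨k1, k2⟩, (div_eq_iff' hn).2 ⟨k3, k4⟩]
    exact ha
  refine (st_hor' (x' := x') (y := y) fun i k1 k2 => ?_).trans (st_ver' fun i k1 k2 => ?_)
  · refine key _ _ ?_ ?_ ?_ ?_ <;> omega
  · refine key _ _ ?_ ?_ ?_ ?_ <;> omega

theorem econn_bl (hn : 0 < n) {S : Set (ℤ × ℤ)} (h : EConn S) : EConn (bl n S) := by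
  have hn0 : (0 : ℤ) < n := by exact_mod_cast hn
  intro f hf f' hf'
  have hc := h _ hf _ hf'
  have main : ∀ b : ℤ × ℤ, ReflTransGen (fun a b => b ∈ S ∧ EAdj a b)
      (f.1 / (n : ℤ), f.2 / (n : ℤ)) b →
      b ∈ S ∧ ∀ f' : ℤ × ℤ, (f'.1 / (n : ℤ), f'.2 / (n : ℤ)) = b → ReflTransGen (St (bl n S)) f f' := by
    intro b hb
    induction hb with
    | refl => exact ⟨hf, fun f' hf' => st_block (S := S) (a := (f.1 / (n : ℤ), f.2 / (n : ℤ))) hn hf rfl hf'⟩
    | tail hab hbc ih =>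
      rename_i b c
      obtain ⟨hb, ih⟩ := ih
      obtain ⟨hc, hadj⟩ := hbc
      refine ⟨hc, fun f' hf' => ?_⟩
      obtain ⟨b1, b2⟩ := b
      have key : ∀ i j u v : ℤ, n * b1 ≤ i → i < n * b1 + n → n * b2 ≤ j → j < n * b2 + n →
          n * c.1 ≤ u → u < n * c.1 + n → n * c.2 ≤ v → v < n * c.2 + n → EAdj (i, j) (u, v) →
          ReflTransGen (St (bl n S)) f f' := by
        intro i j u v k1 k2 k3 k4 k5 k6 k7 k8 hE
        have e1 : ((i / (n : ℤ), j / (n : ℤ)) : ℤ × ℤ) = (b1, b2) := by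
          rw [(div_eq_iff' hn).2 ⟨k1, k2⟩, (div_eq_iff' hn).2 ⟨k3, k4⟩]
        have e2 : ((u / (n : ℤ), v / (n : ℤ)) : ℤ × ℤ) = c := by
          rw [(div_eq_iff' hn).2 ⟨k5, k6⟩, (div_eq_iff' hn).2 ⟨k7, k8⟩]
        have m2 : ((u, v) : ℤ × ℤ) ∈ bl n S := by
          change (u / (n : ℤ), v / (n : ℤ)) ∈ S
          rw [e2]; exact hc
        exact ((ih (i, j) e1).tail ⟨m2, hE⟩).trans (st_block hn hc e2 hf')
      rcases hadj with rfl | rfl | rfl | rfl
      · refine key (n * b1 + n - 1) (n * b2) (n * b1 + n) (n * b2) ?_ ?_ ?_ ?_ ?_ ?_ ?_ ?_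
          (Or.inl ?_)
        all_goals first | (simp only [mul_add, mul_one]; omega) | (simp only [Prod.mk.injEq, and_true]; omega) | omega | rfl
      · refine key (n * b1) (n * b2) (n * b1 - 1) (n * b2) ?_ ?_ ?_ ?_ ?_ ?_ ?_ ?_
          (Or.inr (Or.inl ?_))
        all_goals first | (simp only [mul_sub, mul_one]; omega) | (simp only [Prod.mk.injEq, and_true]; omega) | omega | rfl
      · refine key (n * b1) (n * b2 + n - 1) (n * b1) (n * b2 + n) ?_ ?_ ?_ ?_ ?_ ?_ ?_ ?_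
          (Or.inr (Or.inr (Or.inl ?_)))
        all_goals first | (simp only [mul_add, mul_one]; omega) | (simp only [Prod.mk.injEq, true_and]; omega) | omega | rfl
      · refine key (n * b1) (n * b2) (n * b1) (n * b2 - 1) ?_ ?_ ?_ ?_ ?_ ?_ ?_ ?_
          (Or.inr (Or.inr (Or.inr ?_)))
        all_goals first | (simp only [mul_sub, mul_one]; omega) | (simp only [Prod.mk.injEq, and_true]; omega) | omega | rfl
  exact (main _ hc).2 f' rfl

theorem coe_rf (hn : 0 < n) : (rf n P : Set (ℤ × ℤ)) = bl n (P : Set (ℤ × ℤ)) := by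
  ext f
  rw [Finset.mem_coe, mem_rf hn]
  rfl

theorem pinch_aux (hn : 0 < n) (x : ℤ) : (x - 1) / (n : ℤ) = x / (n : ℤ) ∨
    ((x - 1) / (n : ℤ) = x / (n : ℤ) - 1) := by
  have h0 : (0 : ℤ) < n := by exact_mod_cast hn
  have e := (div_eq_iff' hn (x := x)).1 rfl
  rcases eq_or_ne x (n * (x / (n : ℤ))) with h | h
  · right
    rw [div_eq_iff' hn]
    constructor
    · rw [mul_sub, mul_one]; omega
    · rw [mul_sub, mul_one]; omega
  · left
    rw [div_eq_iff' hn]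
    constructor <;> omega

/-- the refinement of a simple polygon -/
theorem mpoly_rf (hP : MPoly P) (hn : 0 < n) : MPoly (rf n P) := by
  have h0 : (0 : ℤ) < n := by exact_mod_cast hn
  refine ⟨?_, ?_, ?_, ?_⟩
  · obtain ⟨⟨a, b⟩, hab⟩ := hP.nonempty
    exact ⟨(n * a, n * b), (mem_rf' hn (a := a) (b := b) (by omega) (by omega) (by omega)
      (by omega)).2 hab⟩
  · rw [coe_rf hn]
    exact econn_bl hn hP.conn
  · rw [coe_rf hn]
    exact econn_bl (S := ((P : Set (ℤ × ℤ))ᶜ)) hn hP.compl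
  · intro x y
    have hp := hP.noPinch (x / (n : ℤ)) (y / (n : ℤ))
    simp only [mem_rf hn]
    rcases pinch_aux hn x with h1 | h1 <;> rcases pinch_aux hn y with h2 | h2 <;>
      rw [h1, h2]
    · tauto
    · tauto
    · tauto
    · exact hp

/-! ### The contour of the refinement -/

theorem gr_eq (g : ℤ → ℤ × ℤ) {k q r : ℤ} (hk : k = n * q + r) (h0 : 0 ≤ r) (h1 : r < n) :
    gr n g k = (n * (g q).1 + r * ((g (q + 1)).1 - (g q).1),
      n * (g q).2 + r * ((g (q + 1)).2 - (g q).2)) := by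
  have hn : 0 < n := by
    have : (0 : ℤ) < n := lt_of_le_of_lt h0 h1
    exact_mod_cast this
  have e1 : k / (n : ℤ) = q := (div_eq_iff' hn).2 ⟨by linarith, by linarith⟩
  have e2 : k % (n : ℤ) = r := by
    have := Int.mul_ediv_add_emod k n
    rw [e1] at this
    linarith
  unfold gr
  rw [e1, e2]

theorem gr_eq' (g : ℤ → ℤ × ℤ) (hn : 0 < n) {k q r : ℤ} (hk : k = n * q + r) (h0 : 0 ≤ r)
    (h1 : r ≤ n) : gr n g k = (n * (g q).1 + r * ((g (q + 1)).1 - (g q).1),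
      n * (g q).2 + r * ((g (q + 1)).2 - (g q).2)) := by
  rcases h1.lt_or_eq with h1 | h1
  · exact gr_eq g hk h0 h1
  · have hn0 : (0 : ℤ) < n := by exact_mod_cast hn
    rw [gr_eq g (k := k) (q := q + 1) (r := 0) (by rw [hk, h1]; ring) le_rfl hn0, h1]
    refine Prod.ext ?_ ?_ <;> simp only <;> ring

theorem LSide.dir {P : Finset (ℤ × ℤ)} {p q : ℤ × ℤ} (h : LSide P p q) :
    (q.1 - p.1 = 1 ∧ q.2 - p.2 = 0) ∨ (q.1 - p.1 = 0 ∧ q.2 - p.2 = 1) ∨
    (q.1 - p.1 = -1 ∧ q.2 - p.2 = 0) ∨ (q.1 - p.1 = 0 ∧ q.2 - p.2 = -1) := by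
  rcases h with ⟨rfl, -⟩ | ⟨rfl, -⟩ | ⟨rfl, -⟩ | ⟨rfl, -⟩ <;> simp

theorem lside_rf (hn : 0 < n) {p q : ℤ × ℤ} (h : LSide P p q) {r : ℤ} (h0 : 0 ≤ r) (h1 : r < n) :
    LSide (rf n P) (n * p.1 + r * (q.1 - p.1), n * p.2 + r * (q.2 - p.2))
      (n * p.1 + (r + 1) * (q.1 - p.1), n * p.2 + (r + 1) * (q.2 - p.2)) := by
  have hn0 : (0 : ℤ) < n := by exact_mod_cast hn
  obtain ⟨x, y⟩ := p
  rcases h with ⟨rfl, ha, hb⟩ | ⟨rfl, ha, hb⟩ | ⟨rfl, ha, hb⟩ | ⟨rfl, ha, hb⟩ <;>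
    simp only at ha hb ⊢
  · refine Or.inl ⟨?_, ?_, ?_⟩
    · simp only [Prod.mk.injEq]; constructor <;> ring
    · exact (mem_rf' hn (a := x) (b := y) (by linarith) (by linarith) (by linarith)
        (by linarith)).2 ha
    · exact fun h => hb ((mem_rf' hn (a := x) (b := y - 1) (by linarith) (by linarith) (by linarith)
        (by linarith)).1 h)
  · refine Or.inr (Or.inl ⟨?_, ?_, ?_⟩)
    · simp only [Prod.mk.injEq]; constructor <;> ring
    · exact (mem_rf' hn (a := x - 1) (b := y) (by linarith) (by linarith) (by linarith)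
        (by linarith)).2 ha
    · exact fun h => hb ((mem_rf' hn (a := x) (b := y) (by linarith) (by linarith) (by linarith)
        (by linarith)).1 h)
  · refine Or.inr (Or.inr (Or.inl ⟨?_, ?_, ?_⟩))
    · simp only [Prod.mk.injEq]; constructor <;> ring
    · exact (mem_rf' hn (a := x - 1) (b := y - 1) (by linarith) (by linarith) (by linarith)
        (by linarith)).2 ha
    · exact fun h => hb ((mem_rf' hn (a := x - 1) (b := y) (by linarith) (by linarith) (by linarith)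
        (by linarith)).1 h)
  · refine Or.inr (Or.inr (Or.inr ⟨?_, ?_, ?_⟩))
    · simp only [Prod.mk.injEq]; constructor <;> ring
    · exact (mem_rf' hn (a := x) (b := y - 1) (by linarith) (by linarith) (by linarith)
        (by linarith)).2 ha
    · exact fun h => hb ((mem_rf' hn (a := x - 1) (b := y - 1) (by linarith) (by linarith)
        (by linarith) (by linarith)).1 h)


theorem LSide.asymm {P : Finset (ℤ × ℤ)} {p q : ℤ × ℤ} (h : LSide P p q) (h' : LSide P q p) : False := by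
  obtain ⟨x, y⟩ := p
  rcases h with ⟨rfl, ha, hb⟩ | ⟨rfl, ha, hb⟩ | ⟨rfl, ha, hb⟩ | ⟨rfl, ha, hb⟩ <;>
    rcases h' with ⟨h, hc, hd⟩ | ⟨h, hc, hd⟩ | ⟨h, hc, hd⟩ | ⟨h, hc, hd⟩ <;>
    simp only [Prod.mk.injEq] at h ha hb hc hd <;> first | omega | skip
  · exact hb (by convert hc using 2; omega)
  · exact hb (by rwa [add_sub_cancel_right] at hc)
  · exact hd (by convert ha using 2)
  · exact hd (by convert ha using 2)

theorem small_mul {n a s : ℤ} (hn : 0 < n) (h : n * a = s) (h1 : -(2 * n) < s) (h2 : s < 2 * n) :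
    (a = 0 ∧ s = 0) ∨ (a = 1 ∧ s = n) ∨ (a = -1 ∧ s = -n) := by
  have h3 : a < 2 := by
    by_contra hc
    have : n * 2 ≤ n * a := mul_le_mul_of_nonneg_left (by omega) hn.le
    omega
  have h4 : -2 < a := by
    by_contra hc
    have : n * a ≤ n * (-2) := mul_le_mul_of_nonneg_left (by omega) hn.le
    omega
  have h5 : a = 0 ∨ a = 1 ∨ a = -1 := by omega
  rcases h5 with rfl | rfl | rfl
  · left; omega
  · right; left; omega
  · right; right; omega

/-- the four directions -/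
def Dr (a b : ℤ) : Prop := (a = 1 ∧ b = 0) ∨ (a = 0 ∧ b = 1) ∨ (a = -1 ∧ b = 0) ∨ (a = 0 ∧ b = -1)

theorem inj_core {n r r' X Y d1 d2 e1 e2 : ℤ} (hn : 0 < n) (hr0 : 0 ≤ r) (hr : r < n)
    (hr0' : 0 ≤ r') (hr' : r' < n) (hd : Dr d1 d2) (he : Dr e1 e2) (hX : n * X = r' * e1 - r * d1)
    (hY : n * Y = r' * e2 - r * d2) :
    (X = 0 ∧ Y = 0 ∧ r = r') ∨ (e1 = -d1 ∧ e2 = -d2 ∧ X = -d1 ∧ Y = -d2) := by
  unfold Dr at hd he
  rcases hd with ⟨rfl, rfl⟩ | ⟨rfl, rfl⟩ | ⟨rfl, rfl⟩ | ⟨rfl, rfl⟩ <;>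
    rcases he with ⟨rfl, rfl⟩ | ⟨rfl, rfl⟩ | ⟨rfl, rfl⟩ | ⟨rfl, rfl⟩ <;>
    rcases small_mul hn hX (by omega) (by omega) with ⟨h1, h2⟩ | ⟨h1, h2⟩ | ⟨h1, h2⟩ <;>
    rcases small_mul hn hY (by omega) (by omega) with ⟨h3, h4⟩ | ⟨h3, h4⟩ | ⟨h3, h4⟩ <;>
    omega

/-- **the contour of the refinement** -/
theorem cont_rf (h : Cont P L g) (hn : 0 < n) : Cont (rf n P) (n * L) (gr n g) := by
  have hn0 : (0 : ℤ) < n := by exact_mod_cast hn
  refine ⟨Nat.mul_pos hn h.pos, ?_, ?_, ?_, ?_⟩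
  · intro k
    have e := (Int.mul_ediv_add_emod k n).symm
    have e0 := Int.emod_nonneg k hn0.ne'
    have e1 := Int.emod_lt_of_pos k hn0
    rw [gr_eq g e e0 e1, gr_eq g (k := k + ((n * L : ℕ) : ℤ)) (q := k / (n : ℤ) + L) (r := k % (n : ℤ))
      (by push_cast; linarith) e0 e1, h.per,
      show k / (n : ℤ) + (L : ℤ) + 1 = k / (n : ℤ) + 1 + L by ring, h.per]
  · intro k
    have e := (Int.mul_ediv_add_emod k n).symm
    have e0 := Int.emod_nonneg k hn0.ne'
    have e1 := Int.emod_lt_of_pos k hn0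
    rw [gr_eq g e e0 e1, gr_eq' g hn (k := k + 1) (q := k / (n : ℤ)) (r := k % (n : ℤ) + 1)
      (by linarith) (by omega) (by omega)]
    exact lside_rf hn (h.side _) e0 e1
  · intro j k hjk
    have e := (Int.mul_ediv_add_emod j n).symm
    have e0 := Int.emod_nonneg j hn0.ne'
    have e1 := Int.emod_lt_of_pos j hn0
    have f := (Int.mul_ediv_add_emod k n).symm
    have f0 := Int.emod_nonneg k hn0.ne'
    have f1 := Int.emod_lt_of_pos k hn0
    rw [gr_eq g e e0 e1, gr_eq g f f0 f1, Prod.mk.injEq] at hjk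
    generalize j / (n : ℤ) = q at e hjk
    generalize j % (n : ℤ) = r at e e0 e1 hjk
    generalize k / (n : ℤ) = q' at f hjk
    generalize k % (n : ℤ) = r' at f f0 f1 hjk
    have hd := LSide.dir (h.side q)
    have hd' := LSide.dir (h.side q')
    rcases inj_core (X := (g q).1 - (g q').1) (Y := (g q).2 - (g q').2) hn0 e0 e1 f0 f1 hd hd'
      (by linarith [hjk.1]) (by linarith [hjk.2]) with ⟨h1, h2, h3⟩ | ⟨h1, h2, h3, h4⟩
    · have h5 : g q = g q' := Prod.ext (by omega) (by omega)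
      obtain ⟨c, hc⟩ := h.inj _ _ h5
      refine ⟨c, ?_⟩
      rw [e, f, h3]
      push_cast
      have : q = q' + L * c := by linarith
      rw [this]; ring
    · exfalso
      have h5 : g q' = g (q + 1) := Prod.ext (by omega) (by omega)
      have h6 : g (q' + 1) = g q := Prod.ext (by omega) (by omega)
      have h7 := h.side q
      have h8 := h.side q'
      rw [h5, h6] at h8
      exact LSide.asymm h7 h8
  · rintro ⟨x, y⟩ q hpq
    have ex := (div_eq_iff' hn (x := x)).1 rfl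
    have ey := (div_eq_iff' hn (x := y)).1 rfl
    have ex' := (div_eq_iff' hn (x := x - 1)).1 rfl
    have ey' := (div_eq_iff' hn (x := y - 1)).1 rfl
    rcases hpq with ⟨rfl, ha, hb⟩ | ⟨rfl, ha, hb⟩ | ⟨rfl, ha, hb⟩ | ⟨rfl, ha, hb⟩ <;>
      simp only [mem_rf hn] at ha hb
    · have h1 : (y - 1) / (n : ℤ) = y / (n : ℤ) - 1 := by
        rcases pinch_aux hn y with h | h
        · rw [h] at hb; exact absurd ha hb
        · exact h
      rw [h1] at hb ey'
      generalize x / (n : ℤ) = a at ha hb ex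
      generalize y / (n : ℤ) = b at ha hb ey ey'
      obtain ⟨k, hk, hk'⟩ := h.all (a, b) (a + 1, b) (Or.inl ⟨rfl, ha, hb⟩)
      rw [mul_sub, mul_one] at ey'
      refine ⟨n * k + (x - n * a), ?_, ?_⟩
      · rw [gr_eq' g hn (q := k) (r := x - n * a) rfl (by omega) (by omega), hk, hk']
        simp only [Prod.mk.injEq]
        constructor <;> linarith
      · rw [gr_eq' g hn (q := k) (r := x - n * a + 1) (by ring) (by omega) (by omega), hk, hk']
        simp only [Prod.mk.injEq]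
        constructor <;> linarith
    · have h1 : (x - 1) / (n : ℤ) = x / (n : ℤ) - 1 := by
        rcases pinch_aux hn x with h | h
        · rw [h] at ha; exact absurd ha hb
        · exact h
      rw [h1] at ha ex'
      generalize x / (n : ℤ) = a at ha hb ex ex'
      generalize y / (n : ℤ) = b at ha hb ey
      obtain ⟨k, hk, hk'⟩ := h.all (a, b) (a, b + 1) (Or.inr (Or.inl ⟨rfl, ha, hb⟩))
      rw [mul_sub, mul_one] at ex'
      refine ⟨n * k + (y - n * b), ?_, ?_⟩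
      · rw [gr_eq' g hn (q := k) (r := y - n * b) rfl (by omega) (by omega), hk, hk']
        simp only [Prod.mk.injEq]
        constructor <;> linarith
      · rw [gr_eq' g hn (q := k) (r := y - n * b + 1) (by ring) (by omega) (by omega), hk, hk']
        simp only [Prod.mk.injEq]
        constructor <;> linarith
    · have h1 : (y - 1) / (n : ℤ) = y / (n : ℤ) - 1 := by
        rcases pinch_aux hn y with h | h
        · rw [h] at ha; exact absurd ha hb
        · exact h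
      rw [h1] at ha ey'
      generalize (x - 1) / (n : ℤ) = a at ha hb ex'
      generalize y / (n : ℤ) = b at ha hb ey ey'
      obtain ⟨k, hk, hk'⟩ := h.all (a + 1, b) (a, b) (Or.inr (Or.inr (Or.inl
        ⟨by simp, by simpa using ha, by simpa using hb⟩)))
      rw [mul_sub, mul_one] at ey'
      refine ⟨n * k + (n * (a + 1) - x), ?_, ?_⟩
      · rw [gr_eq' g hn (q := k) (r := n * (a + 1) - x) rfl (by linarith) (by linarith), hk, hk']
        simp only [Prod.mk.injEq]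
        constructor <;> linarith
      · rw [gr_eq' g hn (q := k) (r := n * (a + 1) - x + 1) (by ring) (by linarith) (by linarith),
          hk, hk']
        simp only [Prod.mk.injEq]
        constructor <;> linarith
    · have h1 : (x - 1) / (n : ℤ) = x / (n : ℤ) - 1 := by
        rcases pinch_aux hn x with h | h
        · rw [h] at hb; exact absurd ha hb
        · exact h
      rw [h1] at hb ex'
      generalize x / (n : ℤ) = a at ha hb ex ex'
      generalize (y - 1) / (n : ℤ) = b at ha hb ey'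
      obtain ⟨k, hk, hk'⟩ := h.all (a, b + 1) (a, b) (Or.inr (Or.inr (Or.inr
        ⟨by simp, by simpa using ha, by simpa using hb⟩)))
      rw [mul_sub, mul_one] at ex'
      refine ⟨n * k + (n * (b + 1) - y), ?_, ?_⟩
      · rw [gr_eq' g hn (q := k) (r := n * (b + 1) - y) rfl (by linarith) (by linarith), hk, hk']
        simp only [Prod.mk.injEq]
        constructor <;> linarith
      · rw [gr_eq' g hn (q := k) (r := n * (b + 1) - y + 1) (by ring) (by linarith) (by linarith),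
          hk, hk']
        simp only [Prod.mk.injEq]
        constructor <;> linarith

/-! ### The boundary curve -/

theorem floor_div {k : ℤ} (hn : 0 < n) : ⌊((k : ℝ) / n)⌋ = k / (n : ℤ) := by
  have h0 : (0 : ℝ) < n := by exact_mod_cast hn
  have e := (div_eq_iff' hn (x := k)).1 rfl
  rw [Int.floor_eq_iff]
  constructor
  · rw [le_div_iff₀ h0]
    have : (((k / (n : ℤ)) : ℤ) : ℝ) * n = (((n : ℤ) * (k / (n : ℤ)) : ℤ) : ℝ) := by push_cast; ring
    rw [this]
    exact_mod_cast e.1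
  · rw [div_lt_iff₀ h0]
    have : ((((k / (n : ℤ)) : ℤ) : ℝ) + 1) * n = (((n : ℤ) * (k / (n : ℤ)) + n : ℤ) : ℝ) := by
      push_cast; ring
    rw [this]
    exact_mod_cast e.2

theorem fract_div {k : ℤ} (hn : 0 < n) :
    Int.fract ((k : ℝ) / n) = ((k % (n : ℤ) : ℤ) : ℝ) / n := by
  have h0 : (n : ℝ) ≠ 0 := by exact_mod_cast hn.ne'
  have e : (k : ℝ) = (n : ℝ) * ((k / (n : ℤ) : ℤ) : ℝ) + ((k % (n : ℤ) : ℤ) : ℝ) := by
    exact_mod_cast (Int.mul_ediv_add_emod k n).symm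
  unfold Int.fract
  rw [floor_div hn]
  field_simp
  linarith

/-- the curve at the points `k / n` -/
theorem gam_div (g : ℤ → ℤ × ℤ) (hn : 0 < n) (k : ℤ) :
    gam g ((k : ℝ) / n) = ⟨((gr n g k).1 : ℝ) / n, ((gr n g k).2 : ℝ) / n⟩ := by
  have h0 : (n : ℝ) ≠ 0 := by exact_mod_cast hn.ne'
  unfold gam gr
  rw [floor_div hn, fract_div hn]
  push_cast
  congr 1 <;> field_simp

/-- **rounding of the curve** -/
theorem fl_gam (g : ℤ → ℤ × ℤ) (hn : 0 < n) (k : ℤ) : fl n (gam g ((k : ℝ) / n)) = gr n g k := by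
  have h0 : (n : ℝ) ≠ 0 := by exact_mod_cast hn.ne'
  unfold fl
  rw [gam_div g hn]
  simp only
  rw [mul_div_cancel₀ _ h0, mul_div_cancel₀ _ h0, Int.floor_intCast, Int.floor_intCast]

theorem gam_int (g : ℤ → ℤ × ℤ) (k : ℤ) : gam g (k : ℝ) = ⟨((g k).1 : ℝ), ((g k).2 : ℝ)⟩ := by
  unfold gam
  simp only [Int.floor_intCast, Int.fract_intCast, zero_mul, add_zero]

/-- the curve on one unit side -/
theorem gam_seg (g : ℤ → ℤ × ℤ) {q : ℤ} {s : ℝ} (h0 : (q : ℝ) ≤ s) (h1 : s ≤ q + 1) :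
    gam g s = ⟨(g q).1 + (s - q) * (((g (q + 1)).1 : ℝ) - (g q).1),
      (g q).2 + (s - q) * (((g (q + 1)).2 : ℝ) - (g q).2)⟩ := by
  rcases h1.lt_or_eq with h1 | h1
  · have e : ⌊s⌋ = q := Int.floor_eq_iff.2 ⟨h0, h1⟩
    unfold gam Int.fract
    rw [e]
  · have : s = ((q + 1 : ℤ) : ℝ) := by push_cast; exact h1
    rw [this, gam_int]
    push_cast
    congr 1 <;> ring

theorem gam_per (h : Cont P L g) (t : ℝ) : gam g (t + L) = gam g t := by
  unfold gam
  have h1 : ⌊t + (L : ℝ)⌋ = ⌊t⌋ + L := by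
    rw [Int.floor_add_natCast]
  have h2 : Int.fract (t + (L : ℝ)) = Int.fract t := Int.fract_add_natCast t L
  rw [h1, h2, h.per, show ⌊t⌋ + (L : ℤ) + 1 = ⌊t⌋ + 1 + L by ring, h.per]

theorem norm_dir {a b : ℤ} (h : Dr a b) (x : ℝ) : ‖(⟨x * a, x * b⟩ : ℂ)‖ = |x| := by
  have : (⟨x * a, x * b⟩ : ℂ) = x * (⟨a, b⟩ : ℂ) := by
    apply Complex.ext <;> simp
  rw [this, norm_mul, Complex.norm_real, Real.norm_eq_abs]
  have h2 : ‖(⟨a, b⟩ : ℂ)‖ = 1 := by
    rw [← sq_eq_sq₀ (norm_nonneg _) zero_le_one, ← Complex.normSq_eq_norm_sq, Complex.normSq_mk]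
    rcases h with ⟨rfl, rfl⟩ | ⟨rfl, rfl⟩ | ⟨rfl, rfl⟩ | ⟨rfl, rfl⟩ <;> norm_num
  rw [h2, mul_one]

theorem gam_lip_seg (h : Cont P L g) {q : ℤ} {s t : ℝ} (h0 : (q : ℝ) ≤ s) (hst : s ≤ t)
    (h1 : t ≤ q + 1) : ‖gam g t - gam g s‖ ≤ t - s := by
  rw [gam_seg g h0 (hst.trans h1), gam_seg g (h0.trans hst) h1]
  have hd := LSide.dir (h.side q)
  have e : ((⟨(g q).1 + (t - q) * (((g (q + 1)).1 : ℝ) - (g q).1),
      (g q).2 + (t - q) * (((g (q + 1)).2 : ℝ) - (g q).2)⟩ : ℂ) -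
      ⟨(g q).1 + (s - q) * (((g (q + 1)).1 : ℝ) - (g q).1),
      (g q).2 + (s - q) * (((g (q + 1)).2 : ℝ) - (g q).2)⟩) =
      ⟨(t - s) * (((g (q + 1)).1 - (g q).1 : ℤ) : ℝ), (t - s) * (((g (q + 1)).2 - (g q).2 : ℤ) : ℝ)⟩ := by
    apply Complex.ext <;> simp only [Complex.sub_re, Complex.sub_im] <;> push_cast <;> ring
  rw [e, norm_dir hd, abs_of_nonneg (by linarith)]

theorem gam_lip_aux (h : Cont P L g) (m : ℕ) : ∀ s t : ℝ, s ≤ t → t ≤ ⌊s⌋ + 1 + m →
    ‖gam g t - gam g s‖ ≤ t - s := by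
  induction m with
  | zero =>
    intro s t hst ht
    push_cast at ht
    exact gam_lip_seg h (Int.floor_le s) hst (by linarith)
  | succ m ih =>
    intro s t hst ht
    push_cast at ht
    rcases le_total t (⌊s⌋ + 1) with h1 | h1
    · exact gam_lip_seg h (Int.floor_le s) hst h1
    · have h2 := ih (⌊s⌋ + 1) t h1 (by
        rw [Int.floor_add_one, Int.floor_intCast]
        push_cast
        linarith)
      have h3 := gam_lip_seg h (Int.floor_le s) (Int.lt_floor_add_one s).le le_rfl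
      calc ‖gam g t - gam g s‖ = ‖(gam g t - gam g (⌊s⌋ + 1)) + (gam g (⌊s⌋ + 1) - gam g s)‖ := by
            congr 1; ring
        _ ≤ (t - (⌊s⌋ + 1)) + ((⌊s⌋ + 1) - s) := (norm_add_le _ _).trans (add_le_add h2 h3)
        _ = t - s := by ring

/-- **the curve is Lipschitz with constant 1** -/
theorem gam_lip (h : Cont P L g) (s t : ℝ) : ‖gam g t - gam g s‖ ≤ |t - s| := by
  have key : ∀ s t : ℝ, s ≤ t → ‖gam g t - gam g s‖ ≤ t - s := by
    intro s t hst
    obtain ⟨m, hm⟩ := exists_nat_ge (t - ⌊s⌋ - 1)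
    exact gam_lip_aux h m s t hst (by linarith)
  rcases le_total s t with h1 | h1
  · rw [abs_of_nonneg (by linarith)]
    exact key s t h1
  · rw [abs_of_nonpos (by linarith), norm_sub_rev, neg_sub]
    exact key t s h1

theorem gam_lipschitz (h : Cont P L g) : LipschitzWith 1 (gam g) := by
  refine LipschitzWith.of_dist_le_mul fun s t => ?_
  rw [dist_eq_norm, dist_eq_norm, NNReal.coe_one, one_mul, Real.norm_eq_abs]
  exact gam_lip h t s

theorem gam_cont (h : Cont P L g) : Continuous (gam g) := (gam_lipschitz h).continuous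

/-! ### The region and the curve -/

theorem near_real (x₀ : ℝ) : ∃ δ : ℝ, 0 < δ ∧ δ ≤ 1 ∧ ∀ x : ℝ, |x - x₀| < δ → ∀ a : ℤ, (a : ℝ) ≤ x →
    x ≤ a + 1 → (a : ℝ) ≤ x₀ ∧ x₀ ≤ a + 1 := by
  have hf := Int.floor_le x₀
  have hf' := Int.lt_floor_add_one x₀
  rcases hf.lt_or_eq with h | h
  · refine ⟨min (x₀ - ⌊x₀⌋) (⌊x₀⌋ + 1 - x₀), lt_min (by linarith) (by linarith), ?_, ?_⟩
    · exact (min_le_left _ _).trans (by linarith)
    · intro x hx a h1 h2
      rw [lt_min_iff, abs_lt, abs_lt] at hx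
      obtain ⟨⟨h3, h4⟩, h5, h6⟩ := hx
      have h7 : a < ⌊x₀⌋ + 1 := by
        have : (a : ℝ) < ⌊x₀⌋ + 1 := by linarith
        exact_mod_cast this
      have h8 : ⌊x₀⌋ < a + 1 := by
        have : (⌊x₀⌋ : ℝ) < a + 1 := by linarith
        exact_mod_cast this
      have h9 : a = ⌊x₀⌋ := by omega
      rw [h9]
      exact ⟨hf, hf'.le⟩
  · refine ⟨1, one_pos, le_rfl, ?_⟩
    intro x hx a h1 h2
    rw [abs_lt] at hx
    obtain ⟨h3, h4⟩ := hx
    rw [← h] at h3 h4 ⊢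
    have h7 : a < ⌊x₀⌋ + 1 := by
      have : (a : ℝ) < ⌊x₀⌋ + 1 := by linarith
      exact_mod_cast this
    have h8 : ⌊x₀⌋ - 1 < a + 1 := by
      have : (⌊x₀⌋ : ℝ) - 1 < a + 1 := by linarith
      exact_mod_cast this
    constructor
    · exact_mod_cast (show a ≤ ⌊x₀⌋ by omega)
    · exact_mod_cast (show ⌊x₀⌋ ≤ a + 1 by omega)

/-- only the squares which contain `p` come close to `p` -/
theorem near (p : ℂ) : ∃ r : ℝ, 0 < r ∧ r ≤ 1 ∧ ∀ z : ℂ, ‖z - p‖ < r → ∀ f, z ∈ csq f → p ∈ csq f := by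
  obtain ⟨δ₁, h1, h1', h2⟩ := near_real p.re
  obtain ⟨δ₂, h3, h3', h4⟩ := near_real p.im
  refine ⟨min δ₁ δ₂, lt_min h1 h3, (min_le_left _ _).trans h1', fun z hz f hf => ?_⟩
  rw [lt_min_iff] at hz
  obtain ⟨k1, k2, k3, k4⟩ := hf
  have e1 := (Complex.abs_re_le_norm (z - p)).trans_lt hz.1
  have e2 := (Complex.abs_im_le_norm (z - p)).trans_lt hz.2
  rw [Complex.sub_re] at e1
  rw [Complex.sub_im] at e2
  obtain ⟨a1, a2⟩ := h2 _ e1 _ k1 k2
  obtain ⟨a3, a4⟩ := h4 _ e2 _ k3 k4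
  exact ⟨a1, a2, a3, a4⟩

theorem mem_Cl {z : ℂ} : z ∈ Cl P ↔ ∃ f ∈ P, z ∈ csq f := by
  unfold Cl
  simp only [Set.mem_iUnion, exists_prop]

theorem mem_csq_floor (z : ℂ) : z ∈ csq (⌊z.re⌋, ⌊z.im⌋) :=
  ⟨Int.floor_le _, (Int.lt_floor_add_one _).le, Int.floor_le _, (Int.lt_floor_add_one _).le⟩

/-- **the open region** -/
theorem mem_Om_iff {z : ℂ} : z ∈ Om P ↔ ∀ f, z ∈ csq f → f ∈ P := by
  constructor
  · intro hz f hf
    unfold Om at hz
    rw [mem_interior_iff_mem_nhds, Metric.mem_nhds_iff] at hz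
    obtain ⟨ε, hε, hb⟩ := hz
    obtain ⟨h1, h2, h3, h4⟩ := hf
    set η : ℝ := min (1 / 2) (ε / 4) with hη
    have hη0 : 0 < η := lt_min (by norm_num) (by linarith)
    have hη1 : η ≤ 1 / 2 := min_le_left _ _
    have hη2 : η ≤ ε / 4 := min_le_right _ _
    set w : ℂ := ⟨z.re + η * (f.1 + 1 / 2 - z.re), z.im + η * (f.2 + 1 / 2 - z.im)⟩ with hw
    have hwz : w ∈ Metric.ball z ε := by
      rw [Metric.mem_ball, dist_eq_norm]
      refine (Complex.norm_le_abs_re_add_abs_im _).trans_lt ?_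
      rw [Complex.sub_re, Complex.sub_im, hw]
      simp only
      have e1 : |z.re + η * (f.1 + 1 / 2 - z.re) - z.re| ≤ η * (1 / 2) := by
        rw [add_sub_cancel_left, abs_mul, abs_of_pos hη0]
        exact mul_le_mul_of_nonneg_left (abs_le.2 ⟨by linarith, by linarith⟩) hη0.le
      have e2 : |z.im + η * (f.2 + 1 / 2 - z.im) - z.im| ≤ η * (1 / 2) := by
        rw [add_sub_cancel_left, abs_mul, abs_of_pos hη0]
        exact mul_le_mul_of_nonneg_left (abs_le.2 ⟨by linarith, by linarith⟩) hη0.le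
      linarith
    obtain ⟨f', hf', k1, k2, k3, k4⟩ := mem_Cl.1 (hb hwz)
    have a1 : (f.1 : ℝ) < w.re := by
      rw [hw]; simp only
      nlinarith
    have a2 : w.re < f.1 + 1 := by
      rw [hw]; simp only
      nlinarith
    have a3 : (f.2 : ℝ) < w.im := by
      rw [hw]; simp only
      nlinarith
    have a4 : w.im < f.2 + 1 := by
      rw [hw]; simp only
      nlinarith
    have b1 : f.1 < f'.1 + 1 := by
      have : (f.1 : ℝ) < f'.1 + 1 := by linarith
      exact_mod_cast this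
    have b2 : f'.1 < f.1 + 1 := by
      have : (f'.1 : ℝ) < f.1 + 1 := by linarith
      exact_mod_cast this
    have b3 : f.2 < f'.2 + 1 := by
      have : (f.2 : ℝ) < f'.2 + 1 := by linarith
      exact_mod_cast this
    have b4 : f'.2 < f.2 + 1 := by
      have : (f'.2 : ℝ) < f.2 + 1 := by linarith
      exact_mod_cast this
    have : f' = f := Prod.ext (by omega) (by omega)
    rw [← this]
    exact hf'
  · intro h
    obtain ⟨r, hr, -, hn⟩ := near z
    unfold Om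
    rw [mem_interior_iff_mem_nhds, Metric.mem_nhds_iff]
    refine ⟨r, hr, fun w hw => ?_⟩
    rw [Metric.mem_ball, dist_eq_norm] at hw
    have h1 := mem_csq_floor w
    exact mem_Cl.2 ⟨_, h _ (hn w hw _ h1), h1⟩

/-- left face and right face of a boundary side -/
theorem side_faces {p q : ℤ × ℤ} (h : LSide P p q) {x : ℝ} (h0 : 0 ≤ x) (h1 : x ≤ 1) :
    ∃ f ∈ P, ∃ f', f' ∉ P ∧ (⟨p.1 + x * ((q.1 : ℝ) - p.1), p.2 + x * ((q.2 : ℝ) - p.2)⟩ : ℂ) ∈ csq f ∧
      (⟨p.1 + x * ((q.1 : ℝ) - p.1), p.2 + x * ((q.2 : ℝ) - p.2)⟩ : ℂ) ∈ csq f' := by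
  rcases h with ⟨rfl, ha, hb⟩ | ⟨rfl, ha, hb⟩ | ⟨rfl, ha, hb⟩ | ⟨rfl, ha, hb⟩ <;>
    refine ⟨_, ha, _, hb, ⟨?_, ?_, ?_, ?_⟩, ?_, ?_, ?_, ?_⟩ <;> push_cast <;> linarith

theorem gam_mem_Cl (h : Cont P L g) (t : ℝ) : gam g t ∈ Cl P := by
  rw [gam_seg g (Int.floor_le t) (Int.lt_floor_add_one t).le]
  obtain ⟨f, hf, f', hf', h1, h2⟩ := side_faces (h.side ⌊t⌋) (x := t - ⌊t⌋)
    (sub_nonneg.2 (Int.floor_le t)) (by linarith [Int.lt_floor_add_one t])
  exact mem_Cl.2 ⟨f, hf, h1⟩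

theorem gam_notMem_Om (h : Cont P L g) (t : ℝ) : gam g t ∉ Om P := by
  rw [gam_seg g (Int.floor_le t) (Int.lt_floor_add_one t).le, mem_Om_iff]
  obtain ⟨f, hf, f', hf', h1, h2⟩ := side_faces (h.side ⌊t⌋) (x := t - ⌊t⌋)
    (sub_nonneg.2 (Int.floor_le t)) (by linarith [Int.lt_floor_add_one t])
  exact fun hc => hf' (hc _ h2)

/-- a point of two neighbouring squares, one of `P` and one not of `P`, is on the curve -/
theorem exists_gam_adj (h : Cont P L g) {z : ℂ} {f f' : ℤ × ℤ} (hf : f ∈ P) (hf' : f' ∉ P)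
    (hE : EAdj f f') (hz : z ∈ csq f) (hz' : z ∈ csq f') : ∃ t, z = gam g t := by
  obtain ⟨x, y⟩ := f
  obtain ⟨h1, h2, h3, h4⟩ := hz
  obtain ⟨k1, k2, k3, k4⟩ := hz'
  simp only at h1 h2 h3 h4
  rcases hE with rfl | rfl | rfl | rfl <;> simp only at k1 k2 k3 k4 <;> push_cast at k1 k2 k3 k4
  · obtain ⟨k, hk, hk'⟩ := h.all (x + 1, y) (x + 1, y + 1)
      (Or.inr (Or.inl ⟨rfl, by simpa using hf, hf'⟩))
    refine ⟨k + (z.im - y), ?_⟩
    rw [gam_seg g (q := k) (by linarith) (by linarith), hk, hk']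
    apply Complex.ext <;> push_cast <;> linarith
  · obtain ⟨k, hk, hk'⟩ := h.all (x, y + 1) (x, y)
      (Or.inr (Or.inr (Or.inr ⟨by simp, by simpa using hf, by simpa using hf'⟩)))
    refine ⟨k + (y + 1 - z.im), ?_⟩
    rw [gam_seg g (q := k) (by linarith) (by linarith), hk, hk']
    apply Complex.ext <;> push_cast <;> linarith
  · obtain ⟨k, hk, hk'⟩ := h.all (x + 1, y + 1) (x, y + 1)
      (Or.inr (Or.inr (Or.inl ⟨by simp, by simpa using hf, by simpa using hf'⟩)))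
    refine ⟨k + (x + 1 - z.re), ?_⟩
    rw [gam_seg g (q := k) (by linarith) (by linarith), hk, hk']
    apply Complex.ext <;> push_cast <;> linarith
  · obtain ⟨k, hk, hk'⟩ := h.all (x, y) (x + 1, y) (Or.inl ⟨rfl, hf, hf'⟩)
    refine ⟨k + (z.re - x), ?_⟩
    rw [gam_seg g (q := k) (by linarith) (by linarith), hk, hk']
    apply Complex.ext <;> push_cast <;> linarith

/-- **every boundary point is on the curve** -/
theorem exists_gam (h : Cont P L g) {z : ℂ} (hz : z ∈ Cl P) (hz' : z ∉ Om P) : ∃ t, z = gam g t := by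
  obtain ⟨f, hf, h1⟩ := mem_Cl.1 hz
  rw [mem_Om_iff] at hz'
  push Not at hz'
  obtain ⟨f', h2, hf'⟩ := hz'
  obtain ⟨x, y⟩ := f
  obtain ⟨x', y'⟩ := f'
  obtain ⟨a1, a2, a3, a4⟩ := h1
  obtain ⟨b1, b2, b3, b4⟩ := h2
  simp only at a1 a2 a3 a4 b1 b2 b3 b4
  have c1 : x ≤ x' + 1 := by exact_mod_cast a1.trans b2
  have c2 : x' ≤ x + 1 := by exact_mod_cast b1.trans a2
  have c3 : y ≤ y' + 1 := by exact_mod_cast a3.trans b4
  have c4 : y' ≤ y + 1 := by exact_mod_cast b3.trans a4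
  have hor : ∀ {u u' v : ℤ}, ((u, v) : ℤ × ℤ) ∈ P → ((u', v) : ℤ × ℤ) ∉ P → u ≤ u' + 1 → u' ≤ u + 1 →
      z ∈ csq (u, v) → z ∈ csq (u', v) → ∃ t, z = gam g t := by
    intro u u' v d1 d2 d3 d4 d5 d6
    have d7 : u' = u + 1 ∨ u' = u - 1 ∨ u' = u := by omega
    rcases d7 with rfl | rfl | rfl
    · exact exists_gam_adj h d1 d2 (Or.inl rfl) d5 d6
    · exact exists_gam_adj h d1 d2 (Or.inr (Or.inl rfl)) d5 d6
    · exact absurd d1 d2
  have ver : ∀ {u v v' : ℤ}, ((u, v) : ℤ × ℤ) ∈ P → ((u, v') : ℤ × ℤ) ∉ P → v ≤ v' + 1 → v' ≤ v + 1 →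
      z ∈ csq (u, v) → z ∈ csq (u, v') → ∃ t, z = gam g t := by
    intro u v v' d1 d2 d3 d4 d5 d6
    have d7 : v' = v + 1 ∨ v' = v - 1 ∨ v' = v := by omega
    rcases d7 with rfl | rfl | rfl
    · exact exists_gam_adj h d1 d2 (Or.inr (Or.inr (Or.inl rfl))) d5 d6
    · exact exists_gam_adj h d1 d2 (Or.inr (Or.inr (Or.inr rfl))) d5 d6
    · exact absurd d1 d2
  by_cases hm : ((x', y) : ℤ × ℤ) ∈ P
  · exact ver hm hf' c3 c4 ⟨b1, b2, a3, a4⟩ ⟨b1, b2, b3, b4⟩
  · exact hor hf hm c1 c2 ⟨a1, a2, a3, a4⟩ ⟨b1, b2, a3, a4⟩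

/-- the wall criterion -/
theorem wall_of {p ν : ℂ} (hν : IsDir ν) (c : ℂ → ℤ × ℤ)
    (h1 : ∀ z : ℂ, ‖z - p‖ < 1 → 0 ≤ sp (z - p) ν → z ∈ csq (c z))
    (h2 : ∀ z : ℂ, p ∈ csq (c z) → c z ∈ P)
    (h3 : ∀ f ∈ P, p ∈ csq f → ∀ z ∈ csq f, 0 ≤ sp (z - p) ν) : Wall P p ν := by
  obtain ⟨r, hr, hr1, hn⟩ := near p
  refine ⟨hν, r, hr, fun z hz => ⟨fun hz' => ?_, fun hs => ?_⟩⟩
  · obtain ⟨f, hf, hzf⟩ := mem_Cl.1 hz'
    exact h3 f hf (hn z hz f hzf) z hzf
  · have h4 := h1 z (hz.trans_le hr1) hs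
    exact mem_Cl.2 ⟨_, h2 z (hn z hz _ h4), h4⟩

/-- points of the curve which are not corners lie on a straight wall, with the direction of the curve -/
theorem wall_gam_dir (h : Cont P L g) {t : ℝ} (ht : Fl g t) : ∃ ν, Wall P (gam g t) ν ∧
    (⟨((g (⌊t⌋ + 1)).1 : ℝ) - (g ⌊t⌋).1, ((g (⌊t⌋ + 1)).2 : ℝ) - (g ⌊t⌋).2⟩ : ℂ) =
      -Complex.I * ν := by
  have hs := h.side ⌊t⌋
  have hθ0 := Int.fract_nonneg t
  have hθ1 := Int.fract_lt_one t
  have hprev : Int.fract t = 0 → LSide P (g ⌊t⌋ - (g (⌊t⌋ + 1) - g ⌊t⌋)) (g ⌊t⌋) := by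
    intro h0
    have h1 : t = ⌊t⌋ := by
      have := Int.floor_add_fract t
      rw [h0, add_zero] at this
      exact this.symm
    have h2 := ht ⌊t⌋ h1
    rw [h2]
    have h3 := h.side (⌊t⌋ - 1)
    rw [sub_add_cancel] at h3
    rwa [sub_sub_cancel]
  have hg : gam g t = ⟨(g ⌊t⌋).1 + Int.fract t * (((g (⌊t⌋ + 1)).1 : ℝ) - (g ⌊t⌋).1),
    (g ⌊t⌋).2 + Int.fract t * (((g (⌊t⌋ + 1)).2 : ℝ) - (g ⌊t⌋).2)⟩ := rfl
  rw [hg]
  generalize Int.fract t = θ at hθ0 hθ1 hprev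
  generalize g (⌊t⌋ + 1) = q at hs hprev
  generalize g ⌊t⌋ = p at hs hprev
  obtain ⟨x, y⟩ := p
  have hcol : ∀ {u : ℤ}, ((u : ℝ) ≤ x + θ) → (x + θ ≤ u + 1) → u = x ∨ (u = x - 1 ∧ θ = 0) := by
    intro u h1 h2
    have h3 : u < x + 1 := by
      have : (u : ℝ) < x + 1 := by linarith
      exact_mod_cast this
    have h4 : x ≤ u + 1 := by
      have : (x : ℝ) ≤ u + 1 := by linarith
      exact_mod_cast this
    rcases eq_or_ne u x with h5 | h5
    · exact Or.inl h5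
    · have h6 : u = x - 1 := by omega
      refine Or.inr ⟨h6, ?_⟩
      rw [h6] at h2
      push_cast at h2
      linarith
  have hrow : ∀ {u : ℤ}, ((u : ℝ) ≤ y + θ) → (y + θ ≤ u + 1) → u = y ∨ (u = y - 1 ∧ θ = 0) := by
    intro u h1 h2
    have h3 : u < y + 1 := by
      have : (u : ℝ) < y + 1 := by linarith
      exact_mod_cast this
    have h4 : y ≤ u + 1 := by
      have : (y : ℝ) ≤ u + 1 := by linarith
      exact_mod_cast this
    rcases eq_or_ne u y with h5 | h5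
    · exact Or.inl h5
    · have h6 : u = y - 1 := by omega
      refine Or.inr ⟨h6, ?_⟩
      rw [h6] at h2
      push_cast at h2
      linarith
  have hcol' : ∀ {u : ℤ}, ((u : ℝ) ≤ x - θ) → (x - θ ≤ u + 1) → u = x - 1 ∨ (u = x ∧ θ = 0) := by
    intro u h1 h2
    have h3 : u ≤ x := by
      have : (u : ℝ) ≤ x := by linarith
      exact_mod_cast this
    have h4 : x < u + 1 + 1 := by
      have : (x : ℝ) < u + 1 + 1 := by linarith
      exact_mod_cast this
    rcases eq_or_ne u x with h5 | h5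
    · refine Or.inr ⟨h5, ?_⟩
      rw [h5] at h1
      linarith
    · exact Or.inl (by omega)
  have hrow' : ∀ {u : ℤ}, ((u : ℝ) ≤ y - θ) → (y - θ ≤ u + 1) → u = y - 1 ∨ (u = y ∧ θ = 0) := by
    intro u h1 h2
    have h3 : u ≤ y := by
      have : (u : ℝ) ≤ y := by linarith
      exact_mod_cast this
    have h4 : y < u + 1 + 1 := by
      have : (y : ℝ) < u + 1 + 1 := by linarith
      exact_mod_cast this
    rcases eq_or_ne u y with h5 | h5
    · refine Or.inr ⟨h5, ?_⟩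
      rw [h5] at h1
      linarith
    · exact Or.inl (by omega)
  have two : ∀ {u v : ℤ}, ((u : ℝ) ≤ v) → ((v : ℝ) ≤ u + 1) → u = v ∨ u = v - 1 := by
    intro u v h1 h2
    have h3 : u ≤ v := by exact_mod_cast h1
    have h4 : v ≤ u + 1 := by exact_mod_cast h2
    omega
  rcases hs with ⟨rfl, ha, hb⟩ | ⟨rfl, ha, hb⟩ | ⟨rfl, ha, hb⟩ | ⟨rfl, ha, hb⟩
  · -- east
    simp only at ha hb
    have e : (⟨((x : ℤ) : ℝ) + θ * (((x + 1 : ℤ) : ℝ) - x), ((y : ℤ) : ℝ) + θ * ((y : ℝ) - y)⟩ : ℂ) =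
        ⟨x + θ, y⟩ := by
      apply Complex.ext <;> push_cast <;> ring
    have hprev' : θ = 0 → ((x - 1, y) : ℤ × ℤ) ∈ P ∧ ((x - 1, y - 1) : ℤ × ℤ) ∉ P := by
      intro h0
      have h1 := hprev h0
      simp only [Prod.mk_sub_mk, add_sub_cancel_left, sub_self, sub_zero] at h1
      rcases h1 with ⟨-, h2, h3⟩ | ⟨h4, -⟩ | ⟨h4, -⟩ | ⟨h4, -⟩
      · exact ⟨h2, h3⟩
      all_goals simp at h4 <;> omega
    refine ⟨Complex.I, ?_, by apply Complex.ext <;> simp⟩
    simp only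
    rw [e]
    refine wall_of (Or.inr (Or.inr (Or.inl rfl))) (fun z => (⌊z.re⌋, y)) ?_ ?_ ?_
    · intro z hz h1
      have h2 := (Complex.abs_im_le_norm _).trans_lt hz
      simp [sp] at h1 h2
      rw [abs_lt] at h2
      exact ⟨Int.floor_le _, (Int.lt_floor_add_one _).le, by simpa using h1, by simp only; linarith⟩
    · intro z h1
      obtain ⟨h1, h2, -, -⟩ := h1
      rcases hcol h1 h2 with h3 | ⟨h3, h4⟩
      · simp only at h3 ⊢
        rw [h3]; exact ha
      · simp only at h3 ⊢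
        rw [h3]; exact (hprev' h4).1
    · rintro ⟨u, v⟩ hf ⟨h1, h2, h3, h4⟩ z ⟨k1, k2, k3, k4⟩
      simp only at h1 h2 h3 h4 k1 k2 k3 k4
      have h5 : v = y := by
        rcases two h3 h4 with h5 | h5
        · exact h5
        · exfalso
          rcases hcol h1 h2 with h6 | ⟨h6, h7⟩
          · rw [h5, h6] at hf; exact hb hf
          · rw [h5, h6] at hf; exact (hprev' h7).2 hf
      rw [h5] at k3
      simp [sp]
      linarith
  · -- north
    simp only at ha hb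
    have e : (⟨((x : ℤ) : ℝ) + θ * ((x : ℝ) - x), ((y : ℤ) : ℝ) + θ * (((y + 1 : ℤ) : ℝ) - y)⟩ : ℂ) =
        ⟨x, y + θ⟩ := by
      apply Complex.ext <;> push_cast <;> ring
    have hprev' : θ = 0 → ((x - 1, y - 1) : ℤ × ℤ) ∈ P ∧ ((x, y - 1) : ℤ × ℤ) ∉ P := by
      intro h0
      have h1 := hprev h0
      simp only [Prod.mk_sub_mk, add_sub_cancel_left, sub_self, sub_zero] at h1
      rcases h1 with ⟨h4, -⟩ | ⟨-, h2, h3⟩ | ⟨h4, -⟩ | ⟨h4, -⟩
      · simp at h4
      · exact ⟨h2, h3⟩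
      all_goals simp at h4 <;> omega
    refine ⟨-1, ?_, by apply Complex.ext <;> simp⟩
    simp only
    rw [e]
    refine wall_of (Or.inr (Or.inl rfl)) (fun z => (x - 1, ⌊z.im⌋)) ?_ ?_ ?_
    · intro z hz h1
      have h2 := (Complex.abs_re_le_norm _).trans_lt hz
      simp [sp] at h1 h2
      rw [abs_lt] at h2
      refine ⟨?_, ?_, Int.floor_le _, (Int.lt_floor_add_one _).le⟩ <;> push_cast <;> linarith
    · intro z h1
      obtain ⟨-, -, h1, h2⟩ := h1
      rcases hrow h1 h2 with h3 | ⟨h3, h4⟩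
      · simp only at h3 ⊢
        rw [h3]; exact ha
      · simp only at h3 ⊢
        rw [h3]; exact (hprev' h4).1
    · rintro ⟨u, v⟩ hf ⟨h1, h2, h3, h4⟩ z ⟨k1, k2, k3, k4⟩
      simp only at h1 h2 h3 h4 k1 k2 k3 k4
      have h5 : u = x - 1 := by
        rcases two h1 h2 with h5 | h5
        · exfalso
          rcases hrow h3 h4 with h6 | ⟨h6, h7⟩
          · rw [h5, h6] at hf; exact hb hf
          · rw [h5, h6] at hf; exact (hprev' h7).2 hf
        · exact h5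
      rw [h5] at k2
      push_cast at k2
      simp [sp]
      linarith
  · -- west
    simp only at ha hb
    have e : (⟨((x : ℤ) : ℝ) + θ * (((x - 1 : ℤ) : ℝ) - x), ((y : ℤ) : ℝ) + θ * ((y : ℝ) - y)⟩ : ℂ) =
        ⟨x - θ, y⟩ := by
      apply Complex.ext <;> push_cast <;> ring
    have hprev' : θ = 0 → ((x, y - 1) : ℤ × ℤ) ∈ P ∧ ((x, y) : ℤ × ℤ) ∉ P := by
      intro h0
      have h1 := hprev h0
      simp only [Prod.mk_sub_mk, sub_self, sub_zero] at h1
      rcases h1 with ⟨h4, -⟩ | ⟨h4, -⟩ | ⟨-, h2, h3⟩ | ⟨h4, -⟩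
      · simp at h4 <;> omega
      · simp at h4
      · constructor
        · convert h2 using 2; ring
        · intro hc; apply h3; convert hc using 2; ring
      · simp at h4
    refine ⟨-Complex.I, ?_, by apply Complex.ext <;> simp⟩
    simp only
    rw [e]
    refine wall_of (Or.inr (Or.inr (Or.inr rfl))) (fun z => (⌊z.re⌋, y - 1)) ?_ ?_ ?_
    · intro z hz h1
      have h2 := (Complex.abs_im_le_norm _).trans_lt hz
      simp [sp] at h1 h2
      rw [abs_lt] at h2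
      refine ⟨Int.floor_le _, (Int.lt_floor_add_one _).le, ?_, ?_⟩ <;> push_cast <;> linarith
    · intro z h1
      obtain ⟨h1, h2, -, -⟩ := h1
      rcases hcol' h1 h2 with h3 | ⟨h3, h4⟩
      · simp only at h3 ⊢
        rw [h3]; exact ha
      · simp only at h3 ⊢
        rw [h3]; exact (hprev' h4).1
    · rintro ⟨u, v⟩ hf ⟨h1, h2, h3, h4⟩ z ⟨k1, k2, k3, k4⟩
      simp only at h1 h2 h3 h4 k1 k2 k3 k4
      have h5 : v = y - 1 := by
        rcases two h3 h4 with h5 | h5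
        · exfalso
          rcases hcol' h1 h2 with h6 | ⟨h6, h7⟩
          · rw [h5, h6] at hf; exact hb hf
          · rw [h5, h6] at hf; exact (hprev' h7).2 hf
        · exact h5
      rw [h5] at k4
      push_cast at k4
      simp [sp]
      linarith
  · -- south
    simp only at ha hb
    have e : (⟨((x : ℤ) : ℝ) + θ * ((x : ℝ) - x), ((y : ℤ) : ℝ) + θ * (((y - 1 : ℤ) : ℝ) - y)⟩ : ℂ) =
        ⟨x, y - θ⟩ := by
      apply Complex.ext <;> push_cast <;> ring
    have hprev' : θ = 0 → ((x, y) : ℤ × ℤ) ∈ P ∧ ((x - 1, y) : ℤ × ℤ) ∉ P := by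
      intro h0
      have h1 := hprev h0
      simp only [Prod.mk_sub_mk, sub_self, sub_zero] at h1
      rcases h1 with ⟨h4, -⟩ | ⟨h4, -⟩ | ⟨h4, -⟩ | ⟨-, h2, h3⟩
      · simp at h4
      · simp at h4 <;> omega
      · simp at h4
      · constructor
        · convert h2 using 2; ring
        · intro hc; apply h3; convert hc using 2; ring
    refine ⟨1, ?_, by apply Complex.ext <;> simp⟩
    simp only
    rw [e]
    refine wall_of (Or.inl rfl) (fun z => (x, ⌊z.im⌋)) ?_ ?_ ?_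
    · intro z hz h1
      have h2 := (Complex.abs_re_le_norm _).trans_lt hz
      simp [sp] at h1 h2
      rw [abs_lt] at h2
      refine ⟨?_, ?_, Int.floor_le _, (Int.lt_floor_add_one _).le⟩ <;> simp only <;> linarith
    · intro z h1
      obtain ⟨-, -, h1, h2⟩ := h1
      rcases hrow' h1 h2 with h3 | ⟨h3, h4⟩
      · simp only at h3 ⊢
        rw [h3]; exact ha
      · simp only at h3 ⊢
        rw [h3]; exact (hprev' h4).1
    · rintro ⟨u, v⟩ hf ⟨h1, h2, h3, h4⟩ z ⟨k1, k2, k3, k4⟩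
      simp only at h1 h2 h3 h4 k1 k2 k3 k4
      have h5 : u = x := by
        rcases two h1 h2 with h5 | h5
        · exact h5
        · exfalso
          rcases hrow' h3 h4 with h6 | ⟨h6, h7⟩
          · rw [h5, h6] at hf; exact hb hf
          · rw [h5, h6] at hf; exact (hprev' h7).2 hf
      rw [h5] at k1
      simp [sp]
      linarith

/-- **points of the curve which are not corners lie on a straight wall** -/
theorem wall_gam (h : Cont P L g) {t : ℝ} (ht : Fl g t) : ∃ ν, Wall P (gam g t) ν := by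
  obtain ⟨ν, hν, -⟩ := wall_gam_dir h ht
  exact ⟨ν, hν⟩

end CARf

end Pool.Agent.SixB
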