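import Pool.Agent.Lib.SixB.S0Defs

/-!
# 6BD: real averages over the configurations of a finite set of faces (any type of faces)

`av S g` is the average of `g` over all configurations `ind T`, `T ⊆ S`.
-/

set_option autoImplicit false
set_option linter.unusedSectionVars false

namespace Pool.Agent.SixB

noncomputable section

variable {Φ Ψ : Type} [DecidableEq Φ] [DecidableEq Ψ] {S S' S₁ S₂ : Finset Φ}
  {g g' : (Φ → Bool) → ℝ}

/-- the average over the configurations of the faces of `S` (all other faces are `false`) -/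
def av (S : Finset Φ) (g : (Φ → Bool) → ℝ) : ℝ := (∑ T ∈ S.powerset, g (ind T)) / 2 ^ S.card

/-- `g` depends only on the faces of `S` -/
def Dep (S : Set Φ) {α : Type} (g : (Φ → Bool) → α) : Prop :=
  ∀ ω ω' : Φ → Bool, (∀ f ∈ S, ω f = ω' f) → g ω = g ω'

theorem Dep.mono {α : Type} {g : (Φ → Bool) → α} {S S' : Set Φ} (h : Dep S g) (hS : S ⊆ S') :
    Dep S' g := fun ω ω' hω => h ω ω' fun f hf => hω f (hS hf)

theorem av_congr (h : ∀ T ⊆ S, g (ind T) = g' (ind T)) : av S g = av S g' := by
  unfold av
  congr 1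
  exact Finset.sum_congr rfl fun T hT => h T (Finset.mem_powerset.mp hT)

theorem av_add : av S (fun ω => g ω + g' ω) = av S g + av S g' := by
  unfold av
  rw [Finset.sum_add_distrib, add_div]

theorem av_sub : av S (fun ω => g ω - g' ω) = av S g - av S g' := by
  unfold av
  rw [Finset.sum_sub_distrib, sub_div]

theorem av_neg : av S (fun ω => -g ω) = -av S g := by
  unfold av
  rw [Finset.sum_neg_distrib, neg_div]

theorem av_mul (c : ℝ) : av S (fun ω => c * g ω) = c * av S g := by
  unfold av
  rw [← Finset.mul_sum, mul_div_assoc]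

theorem av_const (c : ℝ) : av S (fun _ => c) = c := by
  unfold av
  rw [Finset.sum_const, Finset.card_powerset, nsmul_eq_mul]
  push_cast
  rw [mul_comm, mul_div_assoc, div_self (by positivity), mul_one]

theorem av_mono (h : ∀ T ⊆ S, g (ind T) ≤ g' (ind T)) : av S g ≤ av S g' := by
  unfold av
  exact div_le_div_of_nonneg_right
    (Finset.sum_le_sum fun T hT => h T (Finset.mem_powerset.mp hT)) (by positivity)

theorem av_nonneg (h : ∀ T ⊆ S, 0 ≤ g (ind T)) : 0 ≤ av S g := by
  rw [← av_const (S := S) 0]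
  exact av_mono h

theorem av_sum {ι : Type} (s : Finset ι) (g : ι → (Φ → Bool) → ℝ) :
    av S (fun ω => ∑ i ∈ s, g i ω) = ∑ i ∈ s, av S (g i) := by
  unfold av
  rw [Finset.sum_comm, Finset.sum_div]

theorem abs_av_le (h : ∀ T ⊆ S, |g (ind T)| ≤ g' (ind T)) : |av S g| ≤ av S g' := by
  rw [abs_le]
  constructor
  · rw [← av_neg]
    exact av_mono fun T hT => (abs_le.mp (h T hT)).1
  · exact av_mono fun T hT => (abs_le.mp (h T hT)).2

theorem abs_av_sub_le {b : (Φ → Bool) → ℝ} (h : ∀ T ⊆ S, |g (ind T) - g' (ind T)| ≤ b (ind T)) :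
    |av S g - av S g'| ≤ av S b := by
  rw [← av_sub]
  exact abs_av_le h

theorem ind_insert (f : Φ) (T : Finset Φ) : ind (insert f T) = Function.update (ind T) f true := by
  funext x
  unfold ind
  rcases eq_or_ne x f with h | h
  · subst h
    simp
  · rw [Function.update_of_ne h]
    simp [h]

theorem ind_of_notMem {f : Φ} {T : Finset Φ} (hf : f ∉ T) :
    Function.update (ind T) f false = ind T := by
  funext x
  unfold ind
  rcases eq_or_ne x f with h | h
  · subst h
    simp [hf]
  · rw [Function.update_of_ne h]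

theorem av_insert {f : Φ} (hf : f ∉ S) (g : (Φ → Bool) → ℝ) :
    av (insert f S) g = (av S (fun ω => g (Function.update ω f true)) +
      av S (fun ω => g (Function.update ω f false))) / 2 := by
  unfold av
  rw [Finset.sum_powerset_insert hf, Finset.card_insert_of_notMem hf]
  have h1 : ∑ T ∈ S.powerset, g (ind T) =
      ∑ T ∈ S.powerset, g (Function.update (ind T) f false) := by
    refine Finset.sum_congr rfl fun T hT => ?_
    rw [ind_of_notMem fun h => hf (Finset.mem_powerset.1 hT h)]
  have h2 : ∑ T ∈ S.powerset, g (ind (insert f T)) =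
      ∑ T ∈ S.powerset, g (Function.update (ind T) f true) := by
    refine Finset.sum_congr rfl fun T _ => ?_
    rw [ind_insert]
  rw [h1, h2, pow_succ]
  field_simp
  ring

theorem Dep.update {α : Type} {g : (Φ → Bool) → α} {S : Finset Φ} {f : Φ}
    (h : Dep ((insert f S : Finset Φ) : Set Φ) g) (b : Bool) :
    Dep (S : Set Φ) (fun ω => g (Function.update ω f b)) := by
  intro ω ω' hω
  refine h _ _ fun x hx => ?_
  rcases eq_or_ne x f with rfl | hne
  · simp
  · rw [Function.update_of_ne hne, Function.update_of_ne hne]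
    refine hω x ?_
    have := Finset.mem_coe.mp hx
    rw [Finset.mem_insert] at this
    exact Finset.mem_coe.mpr (this.resolve_left hne)

theorem Dep.update_eq {α : Type} {g : (Φ → Bool) → α} {S : Set Φ} {f : Φ} (h : Dep S g)
    (hf : f ∉ S) (b : Bool) (ω : Φ → Bool) : g (Function.update ω f b) = g ω := by
  refine h _ _ fun x hx => ?_
  rw [Function.update_of_ne]
  rintro rfl
  exact hf hx

/-- Independence of disjoint sets of faces. -/
theorem av_indep (hd : Disjoint S₁ S₂) (h2 : Dep (S₂ : Set Φ) g') :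
    ∀ g : (Φ → Bool) → ℝ, Dep (S₁ : Set Φ) g →
      av (S₁ ∪ S₂) (fun ω => g ω * g' ω) = av S₁ g * av S₂ g' := by
  induction S₁ using Finset.induction_on with
  | empty =>
    intro g hg
    have h0 : ∀ ω, g ω = g (ind ∅) := fun ω => hg _ _ (by simp)
    have e1 : av ∅ g = g (ind ∅) := by unfold av; simp
    rw [Finset.empty_union, e1, ← av_mul]
    exact av_congr fun T _ => by rw [h0]
  | insert f S₁ hf ih =>
    intro g hg
    have hd' : Disjoint S₁ S₂ := hd.mono_left (Finset.subset_insert _ _)
    have hf2 : f ∉ S₂ := fun h => (Finset.disjoint_left.mp hd) (Finset.mem_insert_self _ _) h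
    have hf3 : f ∉ S₁ ∪ S₂ := by
      rw [Finset.mem_union]
      tauto
    have hg'2 : ∀ b (ω : Φ → Bool), g' (Function.update ω f b) = g' ω :=
      fun b ω => h2.update_eq (by exact_mod_cast hf2) b ω
    rw [Finset.insert_union, av_insert hf3, av_insert hf]
    simp only [hg'2]
    rw [ih hd' _ (hg.update true), ih hd' _ (hg.update false)]
    ring

/-- Enlarging the window. -/
theorem av_dep (hg : Dep (S : Set Φ) g) (hS : S ⊆ S') : av S' g = av S g := by
  have h1 : Dep ((S' \ S : Finset Φ) : Set Φ) (fun _ : Φ → Bool => (1 : ℝ)) := fun _ _ _ => rfl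
  have h2 := av_indep (S₁ := S) (S₂ := S' \ S) (Finset.disjoint_sdiff) h1 g hg
  rw [Finset.union_sdiff_of_subset hS, av_const, mul_one] at h2
  rw [← h2]
  exact av_congr fun T _ => by rw [mul_one]

/-- Independence inside a larger window. -/
theorem av_indep' (hd : Disjoint S₁ S₂) (h1 : Dep (S₁ : Set Φ) g) (h2 : Dep (S₂ : Set Φ) g')
    (hS₁ : S₁ ⊆ S) (hS₂ : S₂ ⊆ S) : av S (fun ω => g ω * g' ω) = av S g * av S g' := by
  have h3 : Dep ((S₁ ∪ S₂ : Finset Φ) : Set Φ) (fun ω => g ω * g' ω) := by
    intro ω ω' h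
    have e1 := h1 ω ω' fun f hf => h f (by push_cast; exact Or.inl hf)
    have e2 := h2 ω ω' fun f hf => h f (by push_cast; exact Or.inr hf)
    simp only [e1, e2]
  rw [av_dep h3 (Finset.union_subset hS₁ hS₂), av_indep hd h2 g h1, av_dep h1 hS₁, av_dep h2 hS₂]

/-- Transport by an injective map of faces. -/
theorem av_image {φ : Φ → Ψ} (hφ : Set.InjOn φ (S : Set Φ)) (hg : Dep (S : Set Φ) g) :
    av (S.image φ) (fun ω => g (fun f => ω (φ f))) = av S g := by
  unfold av
  rw [Finset.card_image_of_injOn hφ]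
  congr 1
  rw [Finset.powerset_image, Finset.sum_image]
  · refine Finset.sum_congr rfl fun T hT => ?_
    have hT' := Finset.mem_powerset.mp hT
    refine hg _ _ fun f hf => ?_
    unfold ind
    congr 1
    rw [Finset.mem_image, eq_iff_iff]
    constructor
    · rintro ⟨x, hx, hxf⟩
      rwa [← hφ (by exact_mod_cast hT' hx) hf hxf]
    · intro h
      exact ⟨f, h, rfl⟩
  · intro T hT T' hT' h
    have h1 : (T : Set Φ) ⊆ S := by exact_mod_cast Finset.mem_powerset.mp hT
    have h2 : (T' : Set Φ) ⊆ S := by exact_mod_cast Finset.mem_powerset.mp hT'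
    have h3 : φ '' (T : Set Φ) = φ '' (T' : Set Φ) := by
      have := congrArg (fun s : Finset Ψ => (s : Set Ψ)) h
      simpa using this
    have h4 := (hφ.image_eq_image_iff h1 h2).mp h3
    exact_mod_cast h4

/-- Transport by an injective map of faces onto a set of faces. -/
theorem av_map {φ : Φ → Ψ} {S' : Finset Ψ} (hφ : Set.InjOn φ (S : Set Φ)) (hS : S.image φ = S')
    (hg : Dep (S : Set Φ) g) {g₁ : (Ψ → Bool) → ℝ} (h : ∀ ω, g₁ ω = g (fun f => ω (φ f))) :
    av S' g₁ = av S g := by
  rw [← hS, ← av_image hφ hg]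
  exact av_congr fun T _ => h _

/-- The probability of the library is an average. -/
theorem pr_eq_av (S : Finset (ℤ × ℤ)) (A : Set Perc.Cfg) [DecidablePred (· ∈ A)] :
    Perc.pr S A = av S (fun ω => if ω ∈ A then 1 else 0) := by
  unfold Perc.pr av
  rw [Finset.card_filter]
  push_cast
  congr 1

end

end Pool.Agent.SixB
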