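import Pool.Agent.Lib.SixB.S0Ins
import Pool.Agent.Lib.SixB.S0Av

/-!
# 6BD: closed strands, independence of the window, the two point functional of a configuration

* `Clo Q F ω a`: the directed strand of `a` in `F` is closed.
* `gg Q F ω e e'`: mean sign product of the arrows at `e` and `e'`.
* `gc Q F ω e e'`: the same if both strands are closed in `F`, else `0`.
-/

set_option autoImplicit false
set_option linter.unusedSectionVars false

namespace Pool.Agent.SixB

open Pool.Agent.Perc.Q Relation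

noncomputable section

variable {V Φ : Type} [DecidableEq V] [DecidableEq Φ]
variable {Q : QC V Φ} {F F' : Finset Φ} {ω ω' : Φ → Bool} {a b c e e' : V × V}

/-! ## Dependence on the configuration -/

theorem nx_congr {F : Set Φ} (h : ∀ f ∈ F, ω f = ω' f) : Nx Q ω F = Nx Q ω' F := by
  funext a b
  apply propext
  constructor
  · rintro ⟨f, hf, k, h1, h2⟩
    rw [h f hf] at h2
    exact ⟨f, hf, k, h1, h2⟩
  · rintro ⟨f, hf, k, h1, h2⟩
    rw [← h f hf] at h2
    exact ⟨f, hf, k, h1, h2⟩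

theorem srel_congr (h : ∀ f ∈ F, ω f = ω' f) : SRel Q F ω a b ↔ SRel Q F ω' a b := by
  unfold SRel
  rw [nx_congr (ω := ω) (ω' := ω') fun f hf => h f (by exact_mod_cast hf)]

theorem dst_congr (h : ∀ f ∈ F, ω f = ω' f) : dst Q F ω a = dst Q F ω' a := by
  ext b
  rw [mem_dst, mem_dst, srel_congr h]

theorem qt_congr (h : ∀ f ∈ F, ω f = ω' f) : qt Q F ω a = qt Q F ω' a := by
  unfold qt
  refine Finset.sum_congr rfl fun f hf => Finset.sum_congr rfl fun k _ => ?_
  rw [h f hf]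

theorem trn_congr (h : ∀ f ∈ F, ω f = ω' f) : trn Q F ω a = trn Q F ω' a := by
  unfold trn
  rw [dst_congr h]
  exact Finset.sum_congr rfl fun b _ => qt_congr h

/-! ## Closed strands -/

/-- the directed strand of `a` is closed -/
def Clo (Q : QC V Φ) (F : Finset Φ) (ω : Φ → Bool) (a : V × V) : Prop :=
  TransGen (Nx Q ω (F : Set Φ)) a a

theorem clo_congr (h : ∀ f ∈ F, ω f = ω' f) : Clo Q F ω a ↔ Clo Q F ω' a := by
  unfold Clo
  rw [nx_congr (ω := ω) (ω' := ω') fun f hf => h f (by exact_mod_cast hf)]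

theorem tg_rev {F : Set Φ} (h : TransGen (Nx Q ω F) a b) : TransGen (Nx Q ω F) b.swap a.swap := by
  induction h with
  | single h => exact TransGen.single h.rev
  | tail _ h ih => exact TransGen.head h.rev ih

theorem rtg_rev {F : Set Φ} (h : ReflTransGen (Nx Q ω F) a b) :
    ReflTransGen (Nx Q ω F) b.swap a.swap := by
  induction h with
  | refl => exact ReflTransGen.refl
  | tail _ h ih => exact ReflTransGen.head h.rev ih

theorem Clo.swap (h : Clo Q F ω a) : Clo Q F ω a.swap := tg_rev h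

theorem clo_swap : Clo Q F ω a.swap ↔ Clo Q F ω a :=
  ⟨fun h => by have := h.swap; rwa [Prod.swap_swap] at this, Clo.swap⟩

theorem Clo.exists_nx (h : Clo Q F ω a) : ∃ b, Nx Q ω (F : Set Φ) a b ∧
    ReflTransGen (Nx Q ω (F : Set Φ)) b a := by
  obtain ⟨b, h1, h2⟩ := TransGen.head'_iff.mp h
  exact ⟨b, h1, h2⟩

theorem Clo.mem (h : Clo Q F ω a) : a ∈ dE Q F := by
  obtain ⟨b, h1, -⟩ := h.exists_nx
  exact Nx.left_mem h1

theorem Clo.back (h : Clo Q F ω a) (hc : ReflTransGen (Nx Q ω (F : Set Φ)) a c) :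
    ReflTransGen (Nx Q ω (F : Set Φ)) c a := by
  induction hc with
  | refl => exact ReflTransGen.refl
  | @tail c d _ hcd ih =>
    rcases ReflTransGen.cases_head ih with rfl | ⟨d', h1, h2⟩
    · obtain ⟨b, h1, h2⟩ := h.exists_nx
      rw [hcd.unique h1]
      exact h2
    · rw [hcd.unique h1]
      exact h2

theorem Clo.srel (h : Clo Q F ω a) (hc : SRel Q F ω a c) :
    ReflTransGen (Nx Q ω (F : Set Φ)) a c := by
  rcases srel_iff.mp hc with h1 | h1
  · exact h1
  · have h2 := h.swap.back (rtg_rev h1)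
    have h3 := rtg_rev h2
    rwa [Prod.swap_swap, Prod.swap_swap] at h3

theorem Clo.of_srel (h : Clo Q F ω a) (hc : SRel Q F ω a c) : Clo Q F ω c := by
  have h1 := h.srel hc
  have h2 := h.back h1
  exact TransGen.trans_right h2 (TransGen.trans_left h h1)

theorem clo_srel (hc : SRel Q F ω a c) : Clo Q F ω a ↔ Clo Q F ω c :=
  ⟨fun h => h.of_srel hc, fun h => h.of_srel (EqvGen.symm _ _ hc)⟩

theorem Nx.mono {F F' : Set Φ} (hF : F ⊆ F') (h : Nx Q ω F a b) : Nx Q ω F' a b := by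
  obtain ⟨f, hf, h⟩ := h
  exact ⟨f, hF hf, h⟩

theorem Clo.mono (h : Clo Q F ω a) (hF : F ⊆ F') : Clo Q F' ω a :=
  TransGen.mono (fun _ _ => Nx.mono (by exact_mod_cast hF)) _ _ h

theorem SRel.mono (hF : F ⊆ F') (h : SRel Q F ω a b) : SRel Q F' ω a b :=
  EqvGen.mono (fun _ _ => Nx.mono (by exact_mod_cast hF)) _ _ h

theorem Clo.rtg_of (h : Clo Q F ω a) (hF : F ⊆ F')
    (hc : ReflTransGen (Nx Q ω (F' : Set Φ)) a c) : ReflTransGen (Nx Q ω (F : Set Φ)) a c := by
  induction hc with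
  | refl => exact ReflTransGen.refl
  | @tail c d _ hcd ih =>
    have h1 : Clo Q F ω c := h.of_srel (srel_iff.mpr (Or.inl ih))
    obtain ⟨b, h2, -⟩ := h1.exists_nx
    have h3 : Nx Q ω (F' : Set Φ) c b := Nx.mono (by exact_mod_cast hF) h2
    rw [hcd.unique h3]
    exact ih.tail h2

theorem Clo.srel_of (h : Clo Q F ω a) (hF : F ⊆ F') (hc : SRel Q F' ω a c) : SRel Q F ω a c := by
  rcases srel_iff.mp hc with h1 | h1
  · exact srel_iff.mpr (Or.inl (h.rtg_of hF h1))
  · have h2 := h.swap.rtg_of hF (rtg_rev h1)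
    have h3 := rtg_rev h2
    rw [Prod.swap_swap, Prod.swap_swap] at h3
    exact srel_iff.mpr (Or.inr h3)

theorem dE_mono (hF : F ⊆ F') : dE Q F ⊆ dE Q F' := by
  intro a ha
  obtain ⟨f, hf, k, h⟩ := mem_dE.mp ha
  exact mem_dE.mpr ⟨f, hF hf, k, h⟩

theorem Clo.dst_eq (h : Clo Q F ω a) (hF : F ⊆ F') : dst Q F' ω a = dst Q F ω a := by
  ext c
  rw [mem_dst, mem_dst]
  constructor
  · rintro ⟨-, h2⟩
    have h3 := h.srel_of hF h2
    exact ⟨(h.of_srel h3).mem, h3⟩
  · rintro ⟨h1, h2⟩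
    exact ⟨dE_mono hF h1, SRel.mono hF h2⟩

theorem Clo.trn_eq (h : Clo Q F ω a) (hF : F ⊆ F') : trn Q F' ω a = trn Q F ω a := by
  unfold trn
  rw [h.dst_eq hF]
  refine Finset.sum_congr rfl fun b hb => ?_
  have h1 := h.of_srel (mem_dst.mp hb).2
  obtain ⟨c, ⟨f, hf, k, rfl, -⟩, -⟩ := h1.exists_nx
  have hf' : f ∈ F := by exact_mod_cast hf
  change qt Q F' ω (sd Q f k) = qt Q F ω (sd Q f k)
  rw [qt_of_sd hf', qt_of_sd (hF hf')]

/-! ## The two point functional -/

/-- mean orientation of a strand with turning `t`, divided by `i` -/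
def tnt (t : ℤ) : ℝ := Real.tan (Real.pi * t / 12)

theorem tnt_neg (t : ℤ) : tnt (-t) = -tnt t := by
  unfold tnt
  rw [← Real.tan_neg]
  congr 1
  push_cast
  ring

theorem tnt_four : tnt 4 = Real.sqrt 3 := by
  unfold tnt
  rw [← Real.tan_pi_div_three]
  congr 1
  push_cast
  ring

theorem tnt_zero : tnt 0 = 0 := by
  unfold tnt
  simp

theorem tnt_two : tnt 2 = 1 / Real.sqrt 3 := by
  unfold tnt
  rw [← Real.tan_pi_div_six]
  congr 1
  push_cast
  ring

open Classical in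
/-- mean sign product of the arrows at `e` and `e'` -/
def gg (Q : QC V Φ) (F : Finset Φ) (ω : Φ → Bool) (e e' : V × V) : ℝ :=
  if e' ∈ dst Q F ω e then 1 else if e'.swap ∈ dst Q F ω e then -1
  else -(tnt (trn Q F ω e) * tnt (trn Q F ω e'))

open Classical in
/-- the same for closed strands -/
def gc (Q : QC V Φ) (F : Finset Φ) (ω : Φ → Bool) (e e' : V × V) : ℝ :=
  if Clo Q F ω e ∧ Clo Q F ω e' then gg Q F ω e e' else 0

theorem gg_congr (h : ∀ f ∈ F, ω f = ω' f) : gg Q F ω e e' = gg Q F ω' e e' := by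
  unfold gg
  rw [dst_congr h, trn_congr h, trn_congr (a := e') h]

theorem gc_congr (h : ∀ f ∈ F, ω f = ω' f) : gc Q F ω e e' = gc Q F ω' e e' := by
  unfold gc
  rw [gg_congr h, clo_congr h, clo_congr (a := e') h]

theorem dep_gg : Dep (F : Set Φ) (fun ω => gg Q F ω e e') :=
  fun _ _ h => gg_congr fun f hf => h f (by exact_mod_cast hf)

theorem dep_gc : Dep (F : Set Φ) (fun ω => gc Q F ω e e') :=
  fun _ _ h => gc_congr fun f hf => h f (by exact_mod_cast hf)

theorem gg_srel (h : SRel Q F ω a b) : gg Q F ω a e = gg Q F ω b e := by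
  unfold gg
  rw [SixB.dst_eq h, SixB.trn_eq h]

theorem gg_swap_left (hQ : NoLoop Q) (he : e ∈ dE Q F) (he' : e' ∈ dE Q F) :
    gg Q F ω e.swap e' = -gg Q F ω e e' := by
  unfold gg
  have h1 : ∀ x ∈ dE Q F, (x ∈ dst Q F ω e.swap ↔ x.swap ∈ dst Q F ω e) := by
    intro x hx
    rw [← rv_dst, mem_rv]
  have h2 : ¬ (e' ∈ dst Q F ω e ∧ e'.swap ∈ dst Q F ω e) := by
    rintro ⟨h3, h4⟩
    exact not_srel_swap hQ he' (EqvGen.trans _ _ _ (EqvGen.symm _ _ (mem_dst.mp h3).2)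
      (mem_dst.mp h4).2)
  have h3 := h1 e' he'
  have h4 := h1 e'.swap (swap_mem_dE.mpr he')
  rw [Prod.swap_swap] at h4
  rw [trn_swap, tnt_neg]
  by_cases h5 : e' ∈ dst Q F ω e
  · have h6 : e'.swap ∉ dst Q F ω e := fun h => h2 ⟨h5, h⟩
    rw [if_neg (by rw [h3]; exact h6), if_pos (h4.mpr h5), if_pos h5]
  · by_cases h6 : e'.swap ∈ dst Q F ω e
    · rw [if_pos (h3.mpr h6), if_neg h5, if_pos h6]
      norm_num
    · rw [if_neg (by rw [h3]; exact h6), if_neg (by rw [h4]; exact h5), if_neg h5, if_neg h6]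
      ring

theorem gg_symm (he : e ∈ dE Q F) (he' : e' ∈ dE Q F) :
    gg Q F ω e e' = gg Q F ω e' e := by
  unfold gg
  have h1 : e' ∈ dst Q F ω e ↔ e ∈ dst Q F ω e' := by
    rw [mem_dst, mem_dst]
    exact ⟨fun h => ⟨he, EqvGen.symm _ _ h.2⟩, fun h => ⟨he', EqvGen.symm _ _ h.2⟩⟩
  have h2 : e'.swap ∈ dst Q F ω e ↔ e.swap ∈ dst Q F ω e' := by
    rw [mem_dst, mem_dst, swap_mem_dE, swap_mem_dE]
    constructor
    · rintro ⟨-, h⟩
      have := srel_swap h
      rw [Prod.swap_swap] at this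
      exact ⟨he, EqvGen.symm _ _ this⟩
    · rintro ⟨-, h⟩
      have := srel_swap h
      rw [Prod.swap_swap] at this
      exact ⟨he', EqvGen.symm _ _ this⟩
  simp only [h1, h2]
  rw [mul_comm]

theorem gc_srel (h : SRel Q F ω a b) : gc Q F ω a e = gc Q F ω b e := by
  unfold gc
  rw [gg_srel h, clo_srel h]

theorem gc_swap_left (hQ : NoLoop Q) : gc Q F ω e.swap e' = -gc Q F ω e e' := by
  unfold gc
  rw [clo_swap]
  by_cases h : Clo Q F ω e ∧ Clo Q F ω e'
  · rw [if_pos h, if_pos h, gg_swap_left hQ h.1.mem h.2.mem]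
  · rw [if_neg h, if_neg h, neg_zero]

theorem gc_symm : gc Q F ω e e' = gc Q F ω e' e := by
  unfold gc
  by_cases h : Clo Q F ω e ∧ Clo Q F ω e'
  · rw [if_pos h, if_pos h.symm, gg_symm h.1.mem h.2.mem]
  · rw [if_neg h, if_neg (fun h' => h h'.symm)]

/-- Independence of the window. -/
theorem gg_window (h1 : Clo Q F ω e) (h2 : Clo Q F ω e') (hF : F ⊆ F') :
    gg Q F' ω e e' = gg Q F ω e e' := by
  unfold gg
  rw [h1.dst_eq hF, h1.trn_eq hF, h2.trn_eq hF]

theorem gc_window (h1 : Clo Q F ω e) (h2 : Clo Q F ω e') (hF : F ⊆ F') :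
    gc Q F' ω e e' = gc Q F ω e e' := by
  unfold gc
  rw [if_pos ⟨h1.mono hF, h2.mono hF⟩, if_pos ⟨h1, h2⟩, gg_window h1 h2 hF]

/-- **Ice rule**, pointwise: the arrows into a face cancel. -/
theorem gc_ice (hQ : NoLoop Q) {f : Φ} (hf : f ∈ F) :
    gc Q F ω (sd Q f 0) e + gc Q F ω (sd Q f 1) e + gc Q F ω (sd Q f 2) e +
      gc Q F ω (sd Q f 3) e = 0 := by
  have key : ∀ k, ω f = ev k → gc Q F ω (sd Q f (k + 1)) e = -gc Q F ω (sd Q f k) e := by
    intro k hk
    have h1 : Nx Q ω (F : Set Φ) (sd Q f k) (sd Q f (k + 1)).swap := by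
      have := Nx.mk_left (Q := Q) (F := (F : Set Φ)) (by exact_mod_cast hf) hk
      unfold sd
      rw [z1]
      exact this
    have h2 := gc_srel (e := e) (EqvGen.rel _ _ h1 : SRel Q F ω _ _)
    rw [h2, gc_swap_left hQ, neg_neg]
  have k1 : (1 : ZMod 4) + 1 = 2 := by decide
  have k2 : (2 : ZMod 4) + 1 = 3 := by decide
  have k3 : (3 : ZMod 4) + 1 = 0 := by decide
  rcases h : ω f with _ | _
  · have h1 := key 1 (by rw [h]; rfl)
    have h3 := key 3 (by rw [h]; rfl)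
    rw [k1] at h1
    rw [k3] at h3
    rw [h1, h3]
    ring
  · have h0 := key 0 (by rw [h]; rfl)
    have h2 := key 2 (by rw [h]; rfl)
    rw [zero_add] at h0
    rw [k2] at h2
    rw [h0, h2]
    ring

/-- all closed strands have turning `± 4` -/
def Uml (Q : QC V Φ) (F : Finset Φ) : Prop :=
  ∀ ω a, Clo Q F ω a → trn Q F ω a = 4 ∨ trn Q F ω a = -4

theorem Uml.mono (h : Uml Q F') (hF : F ⊆ F') : Uml Q F := by
  intro ω a ha
  rw [← ha.trn_eq hF]
  exact h ω a (ha.mono hF)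

theorem Uml.abs_tnt (h : Uml Q F) (ha : Clo Q F ω a) : |tnt (trn Q F ω a)| = Real.sqrt 3 := by
  rcases h ω a ha with h1 | h1
  · rw [h1, tnt_four, abs_of_nonneg (Real.sqrt_nonneg _)]
  · rw [h1, tnt_neg, tnt_four, abs_neg, abs_of_nonneg (Real.sqrt_nonneg _)]

theorem abs_gc_le (h : Uml Q F) : |gc Q F ω e e'| ≤ 3 := by
  unfold gc
  split_ifs with h1
  · unfold gg
    split_ifs
    · norm_num
    · norm_num
    · rw [abs_neg, abs_mul, h.abs_tnt h1.1, h.abs_tnt h1.2, Real.mul_self_sqrt (by norm_num)]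
  · norm_num

end

end Pool.Agent.SixB
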