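import Pool.Agent.Lib.SixB.S0Arcs
import Pool.Agent.Lib.SixB.S0Av
import Pool.Agent.Lib.SixB.S0Clo
import Pool.Agent.Lib.MP_6bd702_zc.Y024

/-!
# 6BD step 4: the wall theorem, definitions and statements

Domain `F` (finite set of faces of the plane), arcs weighted by `t`, `s` = numerator of the mean arrow of an
arc (`t = cos θ / cos (π / 6)`, `s = sin θ / cos (π / 6)`, `θ` = half of the phase of the directed arc), closed strands have
mean arrow `± √3` (turning `± 4`).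
* `WEnv`: domain with weights; `W`: product over the arcs; `num ω e`: numerator of the mean arrow in the direction of
  `e`; `dU x y y'`: mean height difference (divided by `i`) between `(x, y)` and `(x, y')`.
* `HB0 w`: half box `[-w, w + 1] × [0, w]`, symmetric about `x = 1 / 2`; `wsd i`: wall side, directed upwards.
* `WallAt E d M`: near `0` the domain is the half plane up to the scale `2 d`, the weights are natural there, and
  the weights are dominated by a function of the faces outside `HB0 d` of mean at most `M Z`.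
* `flatEnv d`: the natural reference environment.
* `WallThm`: the theorem. `G` does not depend on the environment, so the difference of two environments is
  Neumann.
-/

set_option autoImplicit false

namespace Pool.Agent.SixB

open Pool.Agent.Perc Pool.Agent.Perc.Q Relation

noncomputable section

/-- vertices of the plane -/
abbrev VZ : Type := ℤ × ℤ

/-- directed unit edges -/
abbrev DZ : Type := VZ × VZ

/-- first directed unit edge of the directed strand of `e` (if it is not closed) -/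
def stt (F : Finset (ℤ × ℤ)) (ω : Cfg) (e : DZ) : DZ := (lst ZQ F ω e.swap).swap

/-- the arc of `e` -/
def arcE (F : Finset (ℤ × ℤ)) (ω : Cfg) (e : DZ) : Sym2 DZ := s(stt F ω e, mate ZQ F ω (stt F ω e))

/-- domain with arc weights -/
structure WEnv where
  F : Finset (ℤ × ℤ)
  t : DZ → DZ → ℝ
  s : DZ → DZ → ℝ
  t_symm : ∀ a b, t a b = t b a
  s_anti : ∀ a b, s b a = -s a b

namespace WEnv

/-- weight of an arc -/
def T (E : WEnv) : Sym2 DZ → ℝ := Sym2.lift ⟨E.t, E.t_symm⟩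

/-- weight of a configuration -/
def W (E : WEnv) (ω : Cfg) : ℝ := ∏ p ∈ arcs ZQ E.F ω, E.T p

open Classical in
/-- numerator of the mean arrow in the direction of `e` -/
def num (E : WEnv) (ω : Cfg) (e : DZ) : ℝ :=
  if Clo ZQ E.F ω e then Real.sqrt 3 / 4 * (trn ZQ E.F ω e : ℝ) * E.W ω
  else E.s (stt E.F ω e) (mate ZQ E.F ω (stt E.F ω e)) *
    ∏ p ∈ (arcs ZQ E.F ω).erase (arcE E.F ω e), E.T p

/-- partition function -/
def Z (E : WEnv) : ℝ := av E.F E.W

/-- the unit edge of the column `x` between the heights `j` and `j + 1`: upper vertex on the left -/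
def pe (x j : ℤ) : DZ := ((x, j + 1), (x, j))

/-- sum of the numerators along a column -/
def numC (E : WEnv) (x y y' : ℤ) (ω : Cfg) : ℝ := ∑ j ∈ Finset.Ico y' y, E.num ω (pe x j)

/-- mean height difference between `(x, y)` and `(x, y')`, divided by `i` -/
def dU (E : WEnv) (x y y' : ℤ) : ℝ := av E.F (E.numC x y y') / E.Z

/-- sum over the two columns next to the axis -/
def dU2 (E : WEnv) (y y' : ℤ) : ℝ := E.dU 0 y y' + E.dU 1 y y'

end WEnv

/-- half box -/
def HB0 (w : ℤ) : Finset (ℤ × ℤ) := RF (-w) (w + 1) 0 w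

/-- wall side, directed into the domain -/
def wsd (i : ℤ) : DZ := ((i, 0), (i + 1, 0))

/-- the wall sides of `HB0 w` -/
def wS (w : ℤ) : Finset DZ := (Finset.Icc (-w) w).image wsd

/-- near `0` the domain is a natural half plane up to the scale `2 d` -/
structure WallAt (E : WEnv) (d : ℤ) (M : ℝ) : Prop where
  hd : 1 ≤ d
  sub : HB0 (2 * d) ⊆ E.F
  below : ∀ i : ℤ, -(2 * d) ≤ i → i ≤ 2 * d → (i, -1) ∉ E.F
  t_wall : ∀ a ∈ wS (2 * d), ∀ b ∈ wS (2 * d), E.t a b = 1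
  s_wall : ∀ i j : ℤ, wsd i ∈ wS (2 * d) → wsd j ∈ wS (2 * d) → i < j →
    E.s (wsd i) (wsd j) = -(1 / Real.sqrt 3)
  t_far : ∀ b ∈ bS ZQ E.F, b ∉ wS (2 * d) → ∀ a ∈ wS (2 * d), ∀ a' ∈ wS (2 * d), E.t a b = E.t a' b
  s_far : ∀ b ∈ bS ZQ E.F, b ∉ wS (2 * d) → ∀ a ∈ wS (2 * d), ∀ a' ∈ wS (2 * d), E.s a b = E.s a' b
  Zpos : 0 < E.Z
  maj : ∃ H : Cfg → ℝ, Dep ((E.F \ HB0 d : Finset (ℤ × ℤ)) : Set (ℤ × ℤ)) H ∧ (∀ ω, |E.W ω| ≤ H ω) ∧
    (∀ ω, ∀ e ∈ dE ZQ (HB0 d), |E.num ω e| ≤ 2 * H ω) ∧ av E.F H ≤ M * E.Z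

/-- mean arrow of the arcs of the flat wall -/
def sFlat (d : ℤ) (a b : DZ) : ℝ :=
  if a ∈ wS (2 * d) ∧ b ∈ wS (2 * d) then
    (if a.1.1 < b.1.1 then -(1 / Real.sqrt 3) else if b.1.1 < a.1.1 then 1 / Real.sqrt 3 else 0)
  else 0

theorem sFlat_anti (d : ℤ) (a b : DZ) : sFlat d b a = -sFlat d a b := by
  unfold sFlat
  by_cases h : a ∈ wS (2 * d) ∧ b ∈ wS (2 * d)
  · rw [if_pos h, if_pos h.symm]
    split_ifs with h1 h2 h3
    · omega
    · rfl
    · simp
    · simp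
  · rw [if_neg h, if_neg fun h' => h h'.symm, neg_zero]

/-- the natural reference environment: strands which leave `HB0 (2 d)` have mean arrow `0` -/
def flatEnv (d : ℤ) : WEnv where
  F := HB0 (2 * d)
  t := fun _ _ => 1
  s := sFlat d
  t_symm := fun _ _ => rfl
  s_anti := sFlat_anti d

/-- **The wall theorem.** -/
def WallThm : Prop := ∃ C c : ℝ, 0 < C ∧ 0 < c ∧ ∀ (E : WEnv) (d : ℤ) (M : ℝ), WallAt E d M →
  ∀ r y y' : ℤ, 1 ≤ r → y' ≤ y → r ≤ 4 * y' → y ≤ r → 16 * r ≤ d →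
    |E.dU2 y y' - (flatEnv d).dU2 y y'| ≤ C * M * ((r : ℝ) / d) ^ (1 + c)

/-! ## Strands which are complete in a half box -/

/-- the strand of `e` is complete in `HB0 R`: closed or an arc of the wall -/
def Full (R : ℤ) (ω : Cfg) (e : DZ) : Prop :=
  Clo ZQ (HB0 R) ω e ∨ (stt (HB0 R) ω e ∈ wS R ∧ mate ZQ (HB0 R) ω (stt (HB0 R) ω e) ∈ wS R)

open Classical in
/-- natural mean arrow of a strand which is complete in `HB0 R` -/
def natA (R : ℤ) (ω : Cfg) (e : DZ) : ℝ :=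
  if Clo ZQ (HB0 R) ω e then Real.sqrt 3 / 4 * (trn ZQ (HB0 R) ω e : ℝ)
  else if (stt (HB0 R) ω e).1.1 < (mate ZQ (HB0 R) ω (stt (HB0 R) ω e)).1.1 then -(1 / Real.sqrt 3)
  else 1 / Real.sqrt 3

open Classical in
/-- contribution of the strands which are complete in `HB0 R`: a function of the faces of `HB0 R` -/
def fIn (R x y y' : ℤ) (ω : Cfg) : ℝ :=
  ∑ j ∈ Finset.Ico y' y, if Full R ω (WEnv.pe x j) then natA R ω (WEnv.pe x j) else 0

open Classical in
/-- contribution of the other strands -/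
def gOut (E : WEnv) (R x y y' : ℤ) (ω : Cfg) : ℝ :=
  ∑ j ∈ Finset.Ico y' y, if Full R ω (WEnv.pe x j) then 0 else E.num ω (WEnv.pe x j)

/-- (SW1) splitting -/
def SW1 : Prop := ∀ (E : WEnv) (d : ℤ) (M : ℝ), WallAt E d M → ∀ (R x y y' : ℤ) (ω : Cfg), 1 ≤ R → R ≤ 2 * d →
  0 ≤ x → x ≤ 1 → 0 ≤ y' → y' ≤ y → y ≤ R → E.numC x y y' ω = fIn R x y y' ω * E.W ω + gOut E R x y y' ω

/-- (SW2) the strands which leave `HB0 R`: one leg oddness -/
def SW2 : Prop := ∃ C c : ℝ, 0 < C ∧ 0 < c ∧ ∀ (E : WEnv) (d : ℤ) (M : ℝ), WallAt E d M →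
  ∀ R r y y' : ℤ, 1 ≤ r → 0 ≤ y' → y' ≤ y → y ≤ r → 4 * r ≤ R → 2 * R ≤ d →
    |av E.F (fun ω => gOut E R 0 y y' ω + gOut E R 1 y y' ω)| ≤ C * M * E.Z * ((r : ℝ) / R) ^ (1 + c)

/-- (SW3) the tilt does not see the complete strands at first order -/
def SW3 : Prop := ∃ C : ℝ, 0 < C ∧ ∀ (E : WEnv) (d : ℤ) (M : ℝ), WallAt E d M →
  ∀ R r x y y' : ℤ, 1 ≤ r → 0 ≤ x → x ≤ 1 → y' ≤ y → r ≤ 4 * y' → y ≤ r → 2 * r ≤ R → 2 * R ≤ d →
    |av E.F (fun ω => fIn R x y y' ω * E.W ω) - av E.F (fIn R x y y') * E.Z| ≤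
      C * M * E.Z * ((r : ℝ) * R / d ^ 2)

end

end Pool.Agent.SixB
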