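import Pool.Agent.Lib.SixB.S0Bd
import Pool.Agent.Lib.SixB.S4WallDefs

/-!
# 6BD: the environments `WEnv` of step 4 are arrow sums

`Disc ZQ F G w` with boundary phases `ψ`. `dth w ψ a b`: angle of the arc from the side `a` to the side `b`.
`envD F w ψ`: the environment with `t = cos dth / cos (π / 6)`, `s = sin dth / cos (π / 6)`.
* `envD_W`, `envD_num`, `envD_Z`: `W`, `num`, `Z` are `WU`, `WU1`, `av WU` divided by `√3 ^ (m / 2)`;
* `envD_dU`: the height difference along a column is the sum of the mean arrows `uE`.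
-/

set_option autoImplicit false
set_option linter.unusedSectionVars false

namespace Pool.Agent.SixB

open Pool.Agent.Perc Pool.Agent.Perc.Q Relation

noncomputable section

section general

variable {V Φ : Type} [DecidableEq V] [DecidableEq Φ]
variable {Q : QC V Φ} {F : Finset Φ} {ω : Φ → Bool} {a b e : V × V} {X : Finset (V × V)}
  {ψ : V × V → ℝ} {G : Set (V × V)} {w : List ((V × V) × ℤ)}

/-- closed strands in the sense of `Clo` -/
theorem clo_iff (he : e ∈ dE Q F) : Clo Q F ω e ↔ ∀ a ∈ dst Q F ω e, ¬ Ini Q (F : Set Φ) a := by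
  constructor
  · intro h a ha hini
    have h1 := h.of_srel (mem_dst.mp ha).2
    have h2 : TransGen (Nx Q ω (F : Set Φ)) a a := h1
    rcases TransGen.tail'_iff.mp h2 with ⟨c, -, h3⟩
    exact ini_nx hini h3
  · intro h
    obtain ⟨n, h1, -⟩ := closed_walk (G := Set.univ) (dst_mem_dstr he) h (self_mem_dst he)
      (fun _ _ => Set.mem_univ _)
    obtain ⟨c, h2, h3, h4, -⟩ := h1.seq
    have hn := h1.pos
    have h5 : ∀ i < n, TransGen (Nx Q ω (F : Set Φ)) (c 0) (c (i + 1)) := by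
      intro i
      induction i with
      | zero => intro hi; exact TransGen.single (h4 0 hi)
      | succ i ih => intro hi; exact (ih (by omega)).tail (h4 (i + 1) hi)
    have h6 := h5 (n - 1) (by omega)
    rw [show n - 1 + 1 = n by omega, h2, h3] at h6
    exact h6

/-- the first directed unit edge of a strand which is not closed -/
theorem start_spec (he : e ∈ dE Q F) (h : ¬ Clo Q F ω e) :
    (lst Q F ω e.swap).swap ∈ bS Q F ∧ SRel Q F ω (lst Q F ω e.swap).swap e := by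
  rw [clo_iff he] at h
  push Not at h
  obtain ⟨a, ha, hini⟩ := h
  obtain ⟨h1, h2⟩ := mem_dst.mp ha
  have h3 : ReflTransGen (Nx Q ω (F : Set Φ)) a e := by
    rcases srel_iff.mp h2 with h4 | h4
    · rcases ReflTransGen.cases_tail h4 with h5 | ⟨c, -, h5⟩
      · rw [h5]
      · exact absurd h5 (ini_nx hini)
    · exact h4
  have hrev : ReflTransGen (Nx Q ω (F : Set Φ)) e.swap a.swap := rtg_rev h3
  have hex : ∃ b, b ∈ Orb Q ω (F : Set Φ) e.swap ∧ Ter Q (F : Set Φ) b :=
    ⟨a.swap, hrev, ter_swap.mpr hini⟩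
  have hl : lst Q F ω e.swap ∈ Orb Q ω (F : Set Φ) e.swap ∧ Ter Q (F : Set Φ) (lst Q F ω e.swap) := by
    unfold lst
    rw [dif_pos hex]
    exact hex.choose_spec
  have h4 : lst Q F ω e.swap = a.swap :=
    ter_unique hl.1 hrev hl.2 (ter_swap.mpr hini)
  rw [h4, Prod.swap_swap]
  exact ⟨mem_bS.mpr ⟨h1, hini⟩, EqvGen.symm _ _ h2⟩

/-- angle of the arc from the side `a` to the side `b` -/
def dth (w : List ((V × V) × ℤ)) (ψ : V × V → ℝ) (a b : V × V) : ℝ :=
  if (w.map Prod.fst).idxOf a < (w.map Prod.fst).idxOf b then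
    th w ψ ((w.map Prod.fst).idxOf b) - th w ψ ((w.map Prod.fst).idxOf a) - Real.pi / 6
  else if (w.map Prod.fst).idxOf b < (w.map Prod.fst).idxOf a then
    th w ψ ((w.map Prod.fst).idxOf b) - th w ψ ((w.map Prod.fst).idxOf a) + Real.pi / 6
  else 0

theorem dth_anti (w : List ((V × V) × ℤ)) (ψ : V × V → ℝ) (a b : V × V) :
    dth w ψ b a = -dth w ψ a b := by
  unfold dth
  split_ifs with h1 h2
  · omega
  · ring
  · ring
  · simp

theorem Disc.idx (h : Disc Q (F : Set Φ) G w) {i : ℕ} (hi : i < w.length) :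
    (w.map Prod.fst).idxOf (w[i].1) = i := by
  have h6 : w[i].1 = (w.map Prod.fst)[i]'(by rw [List.length_map]; exact hi) := by
    rw [List.getElem_map]
  rw [h6]
  exact h.inv.nodup.idxOf_getElem _ _

theorem Disc.angle (h : Disc Q (F : Set Φ) G w) (hw : ∀ e ∈ w.map Prod.fst, Ini Q (F : Set Φ) e)
    (ha : a ∈ bS Q F) :
    ψ (mate Q F ω a) - ψ a + turn Q F ω a * (Real.pi / 12) = dth w ψ a (mate Q F ω a) := by
  obtain ⟨x, hx, hxa⟩ := List.mem_map.mp ((h.mem_bS hw).mp ha)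
  obtain ⟨i, hi, hix⟩ := List.getElem_of_mem hx
  have hia : w[i].1 = a := by rw [hix, hxa]
  obtain ⟨h1, -, h3⟩ := h.cM_all hw ω
  obtain ⟨h4, h5, -⟩ := h1 i hi
  obtain ⟨h7, h8⟩ := h3 i hi h4
  rw [← hia]
  unfold dth
  rw [h7, h8, h.idx hi, h.idx h4, th_lt ψ hi, th_lt ψ h4]
  rcases Nat.lt_or_gt_of_ne h5 with h9 | h9
  · rw [if_neg (by omega), if_neg (by omega), if_pos h9]
    push_cast
    ring
  · rw [if_pos h9, if_pos h9]
    push_cast
    ring

theorem Disc.card_arcs (hQ : NoLoop Q) (h : Disc Q (F : Set Φ) G w)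
    (hw : ∀ e ∈ w.map Prod.fst, Ini Q (F : Set Φ) e) : (SixB.arcs Q F ω).card = w.length / 2 := by
  have h1 := SixB.card_arcs (ω := ω) (F := F) hQ
  have h2 : (bS Q F).card = w.length := by
    have e : bS Q F = (w.map Prod.fst).toFinset := by
      ext a
      rw [List.mem_toFinset, h.mem_bS hw]
    rw [e, List.toFinset_card_of_nodup h.inv.nodup, List.length_map]
  omega

theorem sqrt_three_eq : Real.sqrt 3 = 2 * Real.cos (Real.pi / 6) := by
  rw [Real.cos_pi_div_six]; ring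

end general

variable {F : Finset (ℤ × ℤ)} {w : List (DZ × ℤ)} {G : Set DZ} {ψ : DZ → ℝ} {ω : Cfg} {e : DZ}

/-- the environment of a disc with boundary phases -/
def envD (F : Finset (ℤ × ℤ)) (w : List (DZ × ℤ)) (ψ : DZ → ℝ) : WEnv where
  F := F
  t := fun a b => Real.cos (dth w ψ a b) / Real.cos (Real.pi / 6)
  s := fun a b => Real.sin (dth w ψ a b) / Real.cos (Real.pi / 6)
  t_symm := fun a b => by rw [dth_anti w ψ a b, Real.cos_neg]
  s_anti := fun a b => by rw [dth_anti w ψ a b, Real.sin_neg, neg_div]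

theorem envD_T (a b : DZ) : (envD F w ψ).T s(a, b) = Real.cos (dth w ψ a b) / Real.cos (Real.pi / 6) :=
  rfl

private theorem nlZQ : NoLoop ZQ := by
  intro f k
  obtain ⟨u, v⟩ := f
  have h4 : ∀ k : ZMod 4, k = 0 ∨ k = 1 ∨ k = 2 ∨ k = 3 := by decide
  rcases h4 k with rfl | rfl | rfl | rfl
  · change (u, v) ≠ (u + 1, v)
    simp
  · change (u + 1, v) ≠ (u + 1, v + 1)
    simp
  · change (u + 1, v + 1) ≠ (u, v + 1)
    simp
  · change (u, v + 1) ≠ (u, v)
    simp

section disc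

variable (h : Disc ZQ (F : Set (ℤ × ℤ)) G w)
  (hw : ∀ e ∈ w.map Prod.fst, Ini ZQ (F : Set (ℤ × ℤ)) e)

include h hw

theorem two_cos_eq {a : DZ} (ha : a ∈ bS ZQ F) :
    2 * Real.cos (ψ (mate ZQ F ω a) - ψ a + turn ZQ F ω a * (Real.pi / 12)) =
      Real.sqrt 3 * (envD F w ψ).T s(a, mate ZQ F ω a) := by
  have h3 := cos_pi_div_six_ne
  rw [h.angle hw ha, envD_T, sqrt_three_eq]
  field_simp

theorem envD_W : (envD F w ψ).W ω = WU ZQ F ψ ω / Real.sqrt 3 ^ (w.length / 2) := by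
  have h1 := WU_arcs (ψ := ψ) nlZQ (fun X hX hX' => h.closed (ω := ω) hw (X := X) hX hX')
    (fun p => Real.sqrt 3 * (envD F w ψ).T p) (fun a ha => (two_cos_eq h hw ha).symm)
  rw [Finset.prod_mul_distrib, Finset.prod_const, h.card_arcs nlZQ hw] at h1
  rw [h1, mul_div_cancel_left₀ _ (by positivity)]
  rfl

theorem envD_num (he : e ∈ dE ZQ F) :
    (envD F w ψ).num ω e = WU1 ZQ F ψ e ω / Real.sqrt 3 ^ (w.length / 2) := by
  classical
  have hL := fun X hX hX' => h.closed (ω := ω) hw (X := X) hX hX'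
  have hFe : (envD F w ψ).F = F := rfl
  unfold WEnv.num
  rw [hFe]
  by_cases hc : Clo ZQ F ω e
  · rw [if_pos hc, WU1_closed nlZQ hL he ((clo_iff he).mp hc), envD_W h hw]
    show Real.sqrt 3 / 4 * (turn ZQ F ω e : ℝ) * _ = _
    ring
  · rw [if_neg hc]
    obtain ⟨h1, h2⟩ := start_spec he hc
    have h1' : stt F ω e ∈ bS ZQ F := h1
    have h2' : SRel ZQ F ω (stt F ω e) e := h2
    rw [← WU1_srel h2', WU1_arc nlZQ hL (fun p => Real.sqrt 3 * (envD F w ψ).T p)
      (fun a ha => (two_cos_eq h hw ha).symm) h1', h.angle hw h1', Finset.prod_mul_distrib,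
      Finset.prod_const]
    have h3 : ((arcs ZQ F ω).erase s(stt F ω e, mate ZQ F ω (stt F ω e))).card + 1 =
        w.length / 2 := by
      rw [Finset.card_erase_of_mem (mem_arcs.mpr ⟨_, h1', rfl⟩), h.card_arcs nlZQ hw]
      have : 0 < (arcs ZQ F ω).card := Finset.card_pos.mpr ⟨_, mem_arcs.mpr ⟨_, h1', rfl⟩⟩
      rw [h.card_arcs nlZQ hw] at this
      omega
    rw [← h3, pow_succ]
    have h4 := cos_pi_div_six_ne
    have h5 : Real.sqrt 3 ≠ 0 := by positivity
    show Real.sin (dth w ψ _ _) / Real.cos (Real.pi / 6) *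
      ∏ p ∈ (arcs ZQ F ω).erase s(stt F ω e, mate ZQ F ω (stt F ω e)), (envD F w ψ).T p = _
    set P := ∏ p ∈ (arcs ZQ F ω).erase s(stt F ω e, mate ZQ F ω (stt F ω e)), (envD F w ψ).T p
    set k := ((arcs ZQ F ω).erase s(stt F ω e, mate ZQ F ω (stt F ω e))).card
    set y := Real.sin (dth w ψ (stt F ω e) (mate ZQ F ω (stt F ω e)))
    rw [eq_div_iff (by positivity), mul_assoc (Real.sqrt 3 ^ k)]
    have h6 : y / Real.cos (Real.pi / 6) * Real.sqrt 3 = 2 * y := by
      rw [sqrt_three_eq]; field_simp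
    calc y / Real.cos (Real.pi / 6) * P * (Real.sqrt 3 ^ k * Real.sqrt 3)
        = Real.sqrt 3 ^ k * (P * (y / Real.cos (Real.pi / 6) * Real.sqrt 3)) := by ring
      _ = Real.sqrt 3 ^ k * (P * (2 * y)) := by rw [h6]

theorem envD_Z : (envD F w ψ).Z = av F (WU ZQ F ψ) / Real.sqrt 3 ^ (w.length / 2) := by
  unfold WEnv.Z
  have h1 := av_congr (S := F) (g := (envD F w ψ).W)
    (g' := fun ω => (1 / Real.sqrt 3 ^ (w.length / 2)) * WU ZQ F ψ ω)
    (fun T _ => by rw [envD_W h hw]; ring)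
  have hFe : (envD F w ψ).F = F := rfl
  rw [hFe, h1, av_mul]
  ring

/-- **Height differences along a column are arrow sums.** -/
theorem envD_dU (x y y' : ℤ) (he : ∀ j ∈ Finset.Ico y' y, WEnv.pe x j ∈ dE ZQ F) :
    (envD F w ψ).dU x y y' = ∑ j ∈ Finset.Ico y' y, uE ZQ F ψ (WEnv.pe x j) := by
  unfold WEnv.dU
  rw [envD_Z h hw]
  have hFe : (envD F w ψ).F = F := rfl
  have h1 := av_congr (S := F) (g := (envD F w ψ).numC x y y')
    (g' := fun ω => (1 / Real.sqrt 3 ^ (w.length / 2)) * ∑ j ∈ Finset.Ico y' y, WU1 ZQ F ψ (WEnv.pe x j) ω)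
    (fun T _ => by
      unfold WEnv.numC
      rw [Finset.mul_sum]
      refine Finset.sum_congr rfl fun j hj => ?_
      rw [envD_num h hw (he j hj)]
      ring)
  rw [hFe, h1, av_mul, av_sum]
  unfold uE
  rw [← Finset.sum_div]
  have h5 : Real.sqrt 3 ^ (w.length / 2) ≠ 0 := by positivity
  field_simp

end disc

end

end Pool.Agent.SixB
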