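import Pool.Agent.Lib.SixB.S0Str

/-!
# 6BD step 3: relevant strands

`P` a finite set of directed unit edges. `touch P X`: the directed strand `X` contains an element of `P` or the
reverse of one. `Zr Q F ω h P` = the part of the strand product `Zs Q F ω h` which belongs to the strands that
touch `P`, `Zn` = the rest.
* `Zs_split : Zs = Zr * Zn`; `Zn_congr`: `Zn` does not see `h` on `P`.
* `Zr_sub`: `Zr` of `F` is `Zr` of a subset `F'` if the relevant strands of `F'` do not meet the other faces.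
* `Zr_map`, `Zs_map`: invariance under maps of complexes of quadrangles (with a rotation of the labels).
-/

set_option autoImplicit false
set_option linter.unusedSectionVars false

namespace Pool.Agent.SixB.Rel

open Pool.Agent.Perc.Q Relation

noncomputable section

variable {V Φ : Type} [DecidableEq V] [DecidableEq Φ]
variable {Q : QC V Φ} {F F' : Finset Φ} {ω ω' : Φ → Bool} {a b : V × V} {P X Y : Finset (V × V)}

/-- the directed strand `X` meets `P` in one of the two directions -/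
def touch (P X : Finset (V × V)) : Prop := (X ∩ (P ∪ rv P)).Nonempty

instance (P X : Finset (V × V)) : Decidable (touch P X) := by unfold touch; infer_instance

theorem touch_iff : touch P X ↔ ∃ a ∈ X, a ∈ P ∨ a.swap ∈ P := by
  unfold touch
  constructor
  · rintro ⟨a, ha⟩
    obtain ⟨h1, h2⟩ := Finset.mem_inter.mp ha
    refine ⟨a, h1, ?_⟩
    rcases Finset.mem_union.mp h2 with h | h
    · exact Or.inl h
    · exact Or.inr (mem_rv.mp h)
  · rintro ⟨a, ha, h⟩
    refine ⟨a, Finset.mem_inter.mpr ⟨ha, Finset.mem_union.mpr ?_⟩⟩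
    rcases h with h | h
    · exact Or.inl h
    · exact Or.inr (mem_rv.mpr h)

theorem touch_rv : touch P (rv X) ↔ touch P X := by
  have h : ∀ X : Finset (V × V), touch P (rv X) → touch P X := by
    intro X h
    obtain ⟨a, ha, h⟩ := touch_iff.mp h
    refine touch_iff.mpr ⟨a.swap, mem_rv.mp ha, ?_⟩
    rw [Prod.swap_swap]
    exact h.symm
  refine ⟨h X, fun hX => h (rv X) ?_⟩
  rw [rv_rv]
  exact hX

/-- the pair of the two directions -/
def prs (X : Finset (V × V)) : Finset (Finset (V × V)) := {X, rv X}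

theorem prs_eq (h : prs X = prs Y) : Y = X ∨ Y = rv X := by
  have : Y ∈ prs X := by rw [h]; simp [prs]
  simpa [prs] using this

/-- the relevant part of the strand product -/
def Zr (Q : QC V Φ) (F : Finset Φ) (ω : Φ → Bool) (h : V × V → ℂ) (P : Finset (V × V)) : ℂ :=
  ∏ U ∈ ((dstr Q F ω).filter (touch P)).image prs, ∑ X ∈ U, sw Q F ω h X

/-- the other part of the strand product -/
def Zn (Q : QC V Φ) (F : Finset Φ) (ω : Φ → Bool) (h : V × V → ℂ) (P : Finset (V × V)) : ℂ :=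
  ∏ U ∈ ((dstr Q F ω).filter (fun X => ¬ touch P X)).image prs, ∑ X ∈ U, sw Q F ω h X

theorem Zs_split (Q : QC V Φ) (F : Finset Φ) (ω : Φ → Bool) (h : V × V → ℂ)
    (P : Finset (V × V)) : Zs Q F ω h = Zr Q F ω h P * Zn Q F ω h P := by
  unfold Zs Zr Zn
  rw [← Finset.prod_union]
  · congr 1
    rw [← Finset.image_union]
    unfold ust
    congr 1
    ext X
    simp only [Finset.mem_union, Finset.mem_filter]
    tauto
  · rw [Finset.disjoint_left]
    rintro U hU hU'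
    obtain ⟨X, hX, rfl⟩ := Finset.mem_image.mp hU
    obtain ⟨Y, hY, hXY⟩ := Finset.mem_image.mp hU'
    have h1 := (Finset.mem_filter.mp hX).2
    have h2 := (Finset.mem_filter.mp hY).2
    rcases prs_eq hXY.symm with rfl | rfl
    · exact h2 h1
    · exact h2 (touch_rv.mpr h1)

theorem sw_congr {h h' : V × V → ℂ} (hh : ∀ a ∈ X, h a = h' a) :
    sw Q F ω h X = sw Q F ω h' X := by
  unfold sw
  exact Finset.prod_congr rfl fun a ha => by rw [hh a ha]

theorem mem_of_filter_image {p : Finset (V × V) → Prop} [DecidablePred p]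
    (hp : ∀ X, p (rv X) ↔ p X) {U : Finset (Finset (V × V))}
    (hU : U ∈ ((dstr Q F ω).filter p).image prs) (hX : X ∈ U) : X ∈ dstr Q F ω ∧ p X := by
  obtain ⟨Y, hY, rfl⟩ := Finset.mem_image.mp hU
  obtain ⟨h1, h2⟩ := Finset.mem_filter.mp hY
  unfold prs at hX
  rcases Finset.mem_insert.mp hX with rfl | hX
  · exact ⟨h1, h2⟩
  · rw [Finset.mem_singleton] at hX
    subst hX
    exact ⟨rv_mem_dstr h1, (hp Y).mpr h2⟩

theorem Zn_congr {h h' : V × V → ℂ} (hh : ∀ a, a ∉ P → a.swap ∉ P → h a = h' a) :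
    Zn Q F ω h P = Zn Q F ω h' P := by
  unfold Zn
  refine Finset.prod_congr rfl fun U hU => Finset.sum_congr rfl fun X hX => ?_
  have h1 := (mem_of_filter_image (fun X => not_congr touch_rv) hU hX).2
  refine sw_congr fun a ha => hh a ?_ ?_
  · exact fun h2 => h1 (touch_iff.mpr ⟨a, ha, Or.inl h2⟩)
  · exact fun h2 => h1 (touch_iff.mpr ⟨a, ha, Or.inr h2⟩)

theorem Zr_congr {h h' : V × V → ℂ} (hh : ∀ a ∈ dE Q F, h a = h' a) :
    Zr Q F ω h P = Zr Q F ω h' P := by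
  unfold Zr
  refine Finset.prod_congr rfl fun U hU => Finset.sum_congr rfl fun X hX => ?_
  have h1 := (mem_of_filter_image (fun X => touch_rv) hU hX).1
  exact sw_congr fun a ha => hh a (dstr_of_mem h1 ha).1

/-! ## The configuration matters only on `F` -/

theorem Nx_congr (h : ∀ f ∈ F, ω f = ω' f) :
    Nx Q ω (F : Set Φ) a b ↔ Nx Q ω' (F : Set Φ) a b := by
  have key : ∀ {ω ω' : Φ → Bool}, (∀ f ∈ F, ω f = ω' f) → Nx Q ω (F : Set Φ) a b →
      Nx Q ω' (F : Set Φ) a b := by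
    rintro ω ω' h ⟨f, hf, k, rfl, h1⟩
    refine ⟨f, hf, k, rfl, ?_⟩
    rw [← h f (by exact_mod_cast hf)]
    exact h1
  exact ⟨key h, key fun f hf => (h f hf).symm⟩

theorem SRel_congr (h : ∀ f ∈ F, ω f = ω' f) : SRel Q F ω a b ↔ SRel Q F ω' a b := by
  have key : ∀ {ω ω' : Φ → Bool}, (∀ f ∈ F, ω f = ω' f) → SRel Q F ω a b → SRel Q F ω' a b := by
    intro ω ω' h hab
    induction hab with
    | rel x y h1 => exact EqvGen.rel _ _ ((Nx_congr h).mp h1)
    | refl x => exact EqvGen.refl _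
    | symm x y _ ih => exact EqvGen.symm _ _ ih
    | trans x y z _ _ ih1 ih2 => exact EqvGen.trans _ _ _ ih1 ih2
  exact ⟨key h, key fun f hf => (h f hf).symm⟩

theorem dst_congr (h : ∀ f ∈ F, ω f = ω' f) : dst Q F ω a = dst Q F ω' a := by
  ext b
  rw [mem_dst, mem_dst, SRel_congr h]

theorem dstr_congr (h : ∀ f ∈ F, ω f = ω' f) : dstr Q F ω = dstr Q F ω' := by
  unfold dstr
  exact Finset.image_congr fun a _ => dst_congr h

theorem qt_congr (h : ∀ f ∈ F, ω f = ω' f) : qt Q F ω a = qt Q F ω' a := by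
  unfold qt
  refine Finset.sum_congr rfl fun f hf => Finset.sum_congr rfl fun k _ => ?_
  rw [h f hf]

theorem sw_congr_cfg {h : V × V → ℂ} (hω : ∀ f ∈ F, ω f = ω' f) :
    sw Q F ω h X = sw Q F ω' h X := by
  unfold sw
  exact Finset.prod_congr rfl fun a _ => by rw [qt_congr hω]

theorem Zr_congr_cfg {h : V × V → ℂ} (hω : ∀ f ∈ F, ω f = ω' f) :
    Zr Q F ω h P = Zr Q F ω' h P := by
  unfold Zr
  rw [dstr_congr hω]
  exact Finset.prod_congr rfl fun U _ => Finset.sum_congr rfl fun X _ => sw_congr_cfg hω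

theorem Zn_congr_cfg {h : V × V → ℂ} (hω : ∀ f ∈ F, ω f = ω' f) :
    Zn Q F ω h P = Zn Q F ω' h P := by
  unfold Zn
  rw [dstr_congr hω]
  exact Finset.prod_congr rfl fun U _ => Finset.sum_congr rfl fun X _ => sw_congr_cfg hω

theorem Zs_congr_cfg {h : V × V → ℂ} (hω : ∀ f ∈ F, ω f = ω' f) :
    Zs Q F ω h = Zs Q F ω' h := by
  unfold Zs ust
  rw [dstr_congr hω]
  exact Finset.prod_congr rfl fun U _ => Finset.sum_congr rfl fun X _ => sw_congr_cfg hω

/-! ## Subsets of faces -/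

theorem dE_mono (h : F' ⊆ F) : dE Q F' ⊆ dE Q F := by
  intro a ha
  obtain ⟨f, hf, k, hk⟩ := mem_dE.mp ha
  exact mem_dE.mpr ⟨f, h hf, k, hk⟩

theorem Nx_mono (h : F' ⊆ F) (hab : Nx Q ω (F' : Set Φ) a b) : Nx Q ω (F : Set Φ) a b := by
  obtain ⟨f, hf, hh⟩ := hab
  exact ⟨f, h (by exact_mod_cast hf), hh⟩

theorem SRel_mono (h : F' ⊆ F) (hab : SRel Q F' ω a b) : SRel Q F ω a b := by
  induction hab with
  | rel x y h1 => exact EqvGen.rel _ _ (Nx_mono h h1)
  | refl x => exact EqvGen.refl _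
  | symm x y _ ih => exact EqvGen.symm _ _ ih
  | trans x y z _ _ ih1 ih2 => exact EqvGen.trans _ _ _ ih1 ih2

theorem srel_mem_dE (h : SRel Q F ω a b) : a = b ∨ (a ∈ dE Q F ∧ b ∈ dE Q F) := by
  induction h with
  | rel x y h => exact Or.inr ⟨Nx.left_mem h, Nx.right_mem h⟩
  | refl x => exact Or.inl rfl
  | symm x y _ ih =>
    rcases ih with h | ⟨h1, h2⟩
    · exact Or.inl h.symm
    · exact Or.inr ⟨h2, h1⟩
  | trans x y z _ _ ih1 ih2 =>
    rcases ih1 with rfl | ⟨h1, h2⟩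
    · exact ih2
    · rcases ih2 with rfl | ⟨h3, h4⟩
      · exact Or.inr ⟨h1, h2⟩
      · exact Or.inr ⟨h1, h4⟩

/-- A strand of the subset which does not meet the other faces is a strand. -/
theorem srel_sub (h : F' ⊆ F) (ha : ∀ b ∈ dst Q F' ω a, b ∉ dE Q (F \ F'))
    (haE : a ∈ dE Q F') : SRel Q F ω a b ↔ SRel Q F' ω a b := by
  have key : ∀ c d, SRel Q F' ω a c → (Nx Q ω (F : Set Φ) c d ∨ Nx Q ω (F : Set Φ) d c) →
      SRel Q F' ω c d := by
    intro c d hac hcd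
    have hcE : c ∈ dE Q F' := by
      rcases srel_mem_dE hac with h1 | h1
      · exact h1 ▸ haE
      · exact h1.2
    have hc : c ∉ dE Q (F \ F') := ha c (mem_dst.mpr ⟨hcE, hac⟩)
    rcases hcd with h1 | h1
    · obtain ⟨f, hf, k, e1, e2⟩ := h1
      have hf' : f ∈ F' := by
        by_contra hh
        exact hc (mem_dE.mpr ⟨f, Finset.mem_sdiff.mpr ⟨by exact_mod_cast hf, hh⟩, k, Or.inl e1⟩)
      exact EqvGen.rel _ _ ⟨f, by exact_mod_cast hf', k, e1, e2⟩
    · have h2 := h1.rev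
      obtain ⟨f, hf, k, e1, e2⟩ := h2
      have hf' : f ∈ F' := by
        by_contra hh
        refine hc (mem_dE.mpr ⟨f, Finset.mem_sdiff.mpr ⟨by exact_mod_cast hf, hh⟩, k, Or.inr ?_⟩)
        unfold sd
        rw [← e1, Prod.swap_swap]
      have h3 : Nx Q ω (F' : Set Φ) c.swap d.swap := ⟨f, by exact_mod_cast hf', k, e1, e2⟩
      have h4 := h3.rev
      rw [Prod.swap_swap, Prod.swap_swap] at h4
      exact EqvGen.symm _ _ (EqvGen.rel _ _ h4)
  constructor
  · intro hab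
    -- both directions at once: every `F`-relation starting in the class stays in the class
    have key2 : ∀ x y, SRel Q F ω x y → (SRel Q F' ω a x ↔ SRel Q F' ω a y) := by
      intro x y hxy
      induction hxy with
      | rel x y h1 =>
        exact ⟨fun h2 => EqvGen.trans _ _ _ h2 (key x y h2 (Or.inl h1)),
          fun h2 => EqvGen.trans _ _ _ h2 (key y x h2 (Or.inr h1))⟩
      | refl x => exact Iff.rfl
      | symm x y _ ih => exact ih.symm
      | trans x y z _ _ ih1 ih2 => exact ih1.trans ih2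
    exact (key2 a b hab).mp (EqvGen.refl _)
  · exact SRel_mono h

theorem dst_sub (h : F' ⊆ F) (ha : ∀ b ∈ dst Q F' ω a, b ∉ dE Q (F \ F'))
    (haE : a ∈ dE Q F') : dst Q F ω a = dst Q F' ω a := by
  ext b
  rw [mem_dst, mem_dst, srel_sub h ha haE]
  constructor
  · rintro ⟨-, h2⟩
    refine ⟨?_, h2⟩
    rcases srel_mem_dE h2 with h1 | h1
    · exact h1 ▸ haE
    · exact h1.2
  · rintro ⟨h1, h2⟩
    exact ⟨dE_mono h h1, h2⟩

theorem qt_sub (h : F' ⊆ F) (ha : a ∉ dE Q (F \ F')) : qt Q F ω a = qt Q F' ω a := by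
  unfold qt
  rw [← Finset.sum_sdiff h]
  rw [Finset.sum_eq_zero (s := F \ F'), zero_add]
  intro f hf
  refine Finset.sum_eq_zero fun k _ => ?_
  rw [if_neg]
  rintro rfl
  exact ha (sd_mem hf k)

/-- the relevant strands of `F'` do not meet the faces of `F` outside `F'` -/
def Conf (Q : QC V Φ) (F F' : Finset Φ) (ω : Φ → Bool) (P : Finset (V × V)) : Prop :=
  ∀ X ∈ dstr Q F' ω, touch P X → Disjoint X (dE Q (F \ F'))

theorem filter_sub (h : F' ⊆ F) (hP : P ⊆ dE Q F') (hc : Conf Q F F' ω P) :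
    (dstr Q F ω).filter (touch P) = (dstr Q F' ω).filter (touch P) := by
  ext X
  rw [Finset.mem_filter, Finset.mem_filter]
  constructor
  · rintro ⟨hX, ht⟩
    obtain ⟨a, ha, haP⟩ := touch_iff.mp ht
    obtain ⟨haE, rfl⟩ := dstr_of_mem hX ha
    have haE' : a ∈ dE Q F' := by
      rcases haP with h1 | h1
      · exact hP h1
      · exact swap_mem_dE.mp (hP h1)
    have h1 : dst Q F' ω a ∈ dstr Q F' ω := mem_dstr.mpr ⟨a, haE', rfl⟩
    have h2 : touch P (dst Q F' ω a) := touch_iff.mpr ⟨a, self_mem_dst haE', haP⟩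
    have h3 := hc _ h1 h2
    have h4 : dst Q F ω a = dst Q F' ω a :=
      dst_sub h (fun b hb hb' => Finset.disjoint_left.mp h3 hb hb') haE'
    rw [h4]
    exact ⟨h1, h2⟩
  · rintro ⟨hX, ht⟩
    obtain ⟨a, haE', rfl⟩ := mem_dstr.mp hX
    have h3 := hc _ hX ht
    have h4 : dst Q F ω a = dst Q F' ω a :=
      dst_sub h (fun b hb hb' => Finset.disjoint_left.mp h3 hb hb') haE'
    rw [← h4]
    exact ⟨mem_dstr.mpr ⟨a, dE_mono h haE', rfl⟩, by rw [h4]; exact ht⟩

/-- **Locality of the relevant part.** -/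
theorem Zr_sub (g : V × V → ℂ) (h : F' ⊆ F) (hP : P ⊆ dE Q F') (hc : Conf Q F F' ω P) :
    Zr Q F ω g P = Zr Q F' ω g P := by
  unfold Zr
  rw [filter_sub h hP hc]
  refine Finset.prod_congr rfl fun U hU => Finset.sum_congr rfl fun X hX => ?_
  obtain ⟨h1, h2⟩ := mem_of_filter_image (fun X => touch_rv) hU hX
  have h3 := hc X h1 h2
  unfold sw
  refine Finset.prod_congr rfl fun a ha => ?_
  rw [qt_sub h (Finset.disjoint_left.mp h3 ha)]

/-! ## Maps of complexes of quadrangles -/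

/-- `φ`, `ψ` map the faces of `F` (configuration `ω`) in `Q` to faces of `Q'` (configuration `ω'`); the labels
of the corners are shifted by `r`. -/
structure QMap {V' Φ' : Type} (Q : QC V Φ) (Q' : QC V' Φ') (F : Finset Φ) (ω : Φ → Bool)
    (ω' : Φ' → Bool) (φ : V → V') (ψ : Φ → Φ') (r : ZMod 4) : Prop where
  inj : ∀ f ∈ F, ∀ g ∈ F, ∀ k l, φ (Q.c f k) = φ (Q.c g l) → Q.c f k = Q.c g l
  cor : ∀ f ∈ F, ∀ k, Q'.c (ψ f) (k + r) = φ (Q.c f k)
  cfg : ∀ f ∈ F, ∀ k, ω f = ev k ↔ ω' (ψ f) = ev (k + r)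

namespace QMap

variable {V' Φ' : Type} [DecidableEq V'] [DecidableEq Φ'] {Q' : QC V' Φ'} {ω'' : Φ' → Bool}
  {φ : V → V'} {ψ : Φ → Φ'} {r : ZMod 4}

theorem sd_eq (H : QMap Q Q' F ω ω'' φ ψ r) {f : Φ} (hf : f ∈ F) (k : ZMod 4) :
    sd Q' (ψ f) (k + r) = Prod.map φ φ (sd Q f k) := by
  unfold sd
  have h1 : k + r + 1 = k + 1 + r := by ring
  rw [h1, H.cor f hf, H.cor f hf]
  rfl

theorem swap_map (a : V × V) : (Prod.map φ φ a).swap = Prod.map φ φ a.swap := rfl

theorem dE_map (H : QMap Q Q' F ω ω'' φ ψ r) :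
    dE Q' (F.image ψ) = (dE Q F).image (Prod.map φ φ) := by
  ext a
  rw [mem_dE, Finset.mem_image]
  constructor
  · rintro ⟨f', hf', k, h⟩
    obtain ⟨f, hf, rfl⟩ := Finset.mem_image.mp hf'
    have h1 := H.sd_eq hf (k - r)
    rw [sub_add_cancel] at h1
    rcases h with rfl | rfl
    · exact ⟨_, sd_mem hf _, h1.symm⟩
    · exact ⟨_, swap_mem_dE.mpr (sd_mem hf (k - r)), by rw [h1]; rfl⟩
  · rintro ⟨b, hb, rfl⟩
    obtain ⟨f, hf, k, rfl | rfl⟩ := mem_dE.mp hb
    · exact ⟨ψ f, Finset.mem_image_of_mem _ hf, k + r, Or.inl (H.sd_eq hf k).symm⟩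
    · exact ⟨ψ f, Finset.mem_image_of_mem _ hf, k + r, Or.inr (by rw [H.sd_eq hf k]; rfl)⟩

theorem corner_of (ha : a ∈ dE Q F) : (∃ f ∈ F, ∃ k, a.1 = Q.c f k) ∧ ∃ f ∈ F, ∃ k, a.2 = Q.c f k := by
  obtain ⟨f, hf, k, rfl | rfl⟩ := mem_dE.mp ha
  · exact ⟨⟨f, hf, k, rfl⟩, ⟨f, hf, k + 1, rfl⟩⟩
  · exact ⟨⟨f, hf, k + 1, rfl⟩, ⟨f, hf, k, rfl⟩⟩

theorem inj_dE (H : QMap Q Q' F ω ω'' φ ψ r) (ha : a ∈ dE Q F) (hb : b ∈ dE Q F)
    (h : Prod.map φ φ a = Prod.map φ φ b) : a = b := by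
  obtain ⟨⟨f, hf, k, h1⟩, f2, hf2, k2, h2⟩ := corner_of ha
  obtain ⟨⟨g, hg, l, h3⟩, g2, hg2, l2, h4⟩ := corner_of hb
  have e1 : φ a.1 = φ b.1 := congrArg Prod.fst h
  have e2 : φ a.2 = φ b.2 := congrArg Prod.snd h
  apply Prod.ext
  · rw [h1, h3] at e1 ⊢
    exact H.inj f hf g hg k l e1
  · rw [h2, h4] at e2 ⊢
    exact H.inj f2 hf2 g2 hg2 k2 l2 e2

theorem nx (H : QMap Q Q' F ω ω'' φ ψ r) (h : Nx Q ω (F : Set Φ) a b) :
    Nx Q' ω'' ((F.image ψ : Finset Φ') : Set Φ') (Prod.map φ φ a) (Prod.map φ φ b) := by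
  obtain ⟨f, hf, k, rfl, h⟩ := h
  have hf' : f ∈ F := by exact_mod_cast hf
  refine ⟨ψ f, by exact_mod_cast Finset.mem_image_of_mem ψ hf', k + r, ?_, ?_⟩
  · have := H.sd_eq hf' k
    unfold sd at this
    exact this.symm
  · have e1 : k + r + 1 = k + 1 + r := by ring
    have e2 : k + r + 2 = k + 2 + r := by ring
    have e3 : k + r + 3 = k + 3 + r := by ring
    rw [e1, e2, e3, H.cor f hf', H.cor f hf', H.cor f hf', H.cor f hf']
    rcases h with ⟨h1, rfl⟩ | ⟨h1, rfl⟩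
    · exact Or.inl ⟨(H.cfg f hf' k).mp h1, rfl⟩
    · refine Or.inr ⟨?_, rfl⟩
      have h2 : ¬ ω f = ev k := by rw [h1]; cases ev k <;> decide
      have h3 : ¬ ω'' (ψ f) = ev (k + r) := fun h => h2 ((H.cfg f hf' k).mpr h)
      revert h3
      cases ω'' (ψ f) <;> cases ev (k + r) <;> decide

theorem nx_inv (H : QMap Q Q' F ω ω'' φ ψ r) {b' : V' × V'} (ha : a ∈ dE Q F)
    (h : Nx Q' ω'' ((F.image ψ : Finset Φ') : Set Φ') (Prod.map φ φ a) b') :
    ∃ b, b' = Prod.map φ φ b ∧ Nx Q ω (F : Set Φ) a b := by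
  obtain ⟨f', hf', k, h1, h2⟩ := h
  obtain ⟨f, hf, rfl⟩ := Finset.mem_image.mp (show f' ∈ F.image ψ by exact_mod_cast hf')
  have e1 := H.sd_eq hf (k - r)
  rw [sub_add_cancel] at e1
  have e2 : Prod.map φ φ a = Prod.map φ φ (sd Q f (k - r)) := by rw [← e1]; exact h1
  have e3 : a = sd Q f (k - r) := H.inj_dE ha (sd_mem hf _) e2
  have hf2 : f ∈ (F : Set Φ) := by exact_mod_cast hf
  have c2 : Q'.c (ψ f) (k + 2) = φ (Q.c f (k - r + 2)) := by
    rw [← H.cor f hf]; congr 1; ring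
  have c1 : Q'.c (ψ f) (k + 1) = φ (Q.c f (k - r + 1)) := by
    rw [← H.cor f hf]; congr 1; ring
  have c0 : Q'.c (ψ f) k = φ (Q.c f (k - r)) := by
    rw [← H.cor f hf]; congr 1; ring
  have c3 : Q'.c (ψ f) (k + 3) = φ (Q.c f (k - r + 3)) := by
    rw [← H.cor f hf]; congr 1; ring
  have hk := H.cfg f hf (k - r)
  rw [sub_add_cancel] at hk
  rcases h2 with ⟨h3, rfl⟩ | ⟨h3, rfl⟩
  · refine ⟨(Q.c f (k - r + 2), Q.c f (k - r + 1)), ?_, f, hf2, k - r, e3,
      Or.inl ⟨hk.mpr h3, rfl⟩⟩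
    rw [c2, c1]
    rfl
  · refine ⟨(Q.c f (k - r), Q.c f (k - r + 3)), ?_, f, hf2, k - r, e3, Or.inr ⟨?_, rfl⟩⟩
    · rw [c0, c3]
      rfl
    · have h4 : ¬ ω'' (ψ f) = ev k := by rw [h3]; cases ev k <;> decide
      have h5 : ¬ ω f = ev (k - r) := fun h => h4 (hk.mp h)
      revert h5
      cases ω f <;> cases ev (k - r) <;> decide

theorem srel (H : QMap Q Q' F ω ω'' φ ψ r) (h : SRel Q F ω a b) :
    SRel Q' (F.image ψ) ω'' (Prod.map φ φ a) (Prod.map φ φ b) := by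
  induction h with
  | rel x y h => exact EqvGen.rel _ _ (H.nx h)
  | refl x => exact EqvGen.refl _
  | symm x y _ ih => exact EqvGen.symm _ _ ih
  | trans x y z _ _ ih1 ih2 => exact EqvGen.trans _ _ _ ih1 ih2

theorem srel_inv (H : QMap Q Q' F ω ω'' φ ψ r) (ha : a ∈ dE Q F) {b' : V' × V'}
    (h : SRel Q' (F.image ψ) ω'' (Prod.map φ φ a) b') :
    ∃ b, b' = Prod.map φ φ b ∧ SRel Q F ω a b := by
  have key : ∀ x y, SRel Q' (F.image ψ) ω'' x y →
      ((∃ b, x = Prod.map φ φ b ∧ SRel Q F ω a b) ↔ ∃ b, y = Prod.map φ φ b ∧ SRel Q F ω a b) := by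
    intro x y hxy
    induction hxy with
    | rel x y h1 =>
      constructor
      · rintro ⟨b, rfl, hb⟩
        have hbE : b ∈ dE Q F := by
          rcases srel_mem_dE hb with h2 | h2
          · exact h2 ▸ ha
          · exact h2.2
        obtain ⟨c, rfl, hc⟩ := H.nx_inv hbE h1
        exact ⟨c, rfl, EqvGen.trans _ _ _ hb (EqvGen.rel _ _ hc)⟩
      · rintro ⟨b, rfl, hb⟩
        have hbE : b ∈ dE Q F := by
          rcases srel_mem_dE hb with h2 | h2
          · exact h2 ▸ ha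
          · exact h2.2
        have h2 := h1.rev
        obtain ⟨c, hc1, hc⟩ := H.nx_inv (swap_mem_dE.mpr hbE) h2
        refine ⟨c.swap, ?_, EqvGen.trans _ _ _ hb (EqvGen.symm _ _ (EqvGen.rel _ _ ?_))⟩
        · rw [← swap_map, ← hc1, Prod.swap_swap]
        · have := hc.rev
          rwa [Prod.swap_swap] at this
    | refl x => exact Iff.rfl
    | symm x y _ ih => exact ih.symm
    | trans x y z _ _ ih1 ih2 => exact ih1.trans ih2
  exact (key _ _ h).mp ⟨a, rfl, EqvGen.refl _⟩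

theorem dst_map (H : QMap Q Q' F ω ω'' φ ψ r) (ha : a ∈ dE Q F) :
    dst Q' (F.image ψ) ω'' (Prod.map φ φ a) = (dst Q F ω a).image (Prod.map φ φ) := by
  ext b'
  rw [mem_dst, Finset.mem_image]
  constructor
  · rintro ⟨-, h2⟩
    obtain ⟨b, rfl, hb⟩ := H.srel_inv ha h2
    refine ⟨b, mem_dst.mpr ⟨?_, hb⟩, rfl⟩
    rcases srel_mem_dE hb with h2 | h2
    · exact h2 ▸ ha
    · exact h2.2
  · rintro ⟨b, hb, rfl⟩
    obtain ⟨h1, h2⟩ := mem_dst.mp hb
    exact ⟨by rw [H.dE_map]; exact Finset.mem_image_of_mem _ h1, H.srel h2⟩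

theorem dstr_map (H : QMap Q Q' F ω ω'' φ ψ r) :
    dstr Q' (F.image ψ) ω'' = (dstr Q F ω).image (Finset.image (Prod.map φ φ)) := by
  ext X
  rw [mem_dstr, Finset.mem_image]
  constructor
  · rintro ⟨a', ha', rfl⟩
    rw [H.dE_map] at ha'
    obtain ⟨a, ha, rfl⟩ := Finset.mem_image.mp ha'
    exact ⟨_, mem_dstr.mpr ⟨a, ha, rfl⟩, (H.dst_map ha).symm⟩
  · rintro ⟨Y, hY, rfl⟩
    obtain ⟨a, ha, rfl⟩ := mem_dstr.mp hY
    exact ⟨_, by rw [H.dE_map]; exact Finset.mem_image_of_mem _ ha, H.dst_map ha⟩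

theorem qk_shift (k : ZMod 4) (b b' : Bool) (h : b = ev k ↔ b' = ev (k + r)) :
    qk b' (k + r) = qk b k := by
  unfold qk
  by_cases h1 : b = ev k
  · rw [if_pos h1, if_pos (h.mp h1)]
  · rw [if_neg h1, if_neg (fun h2 => h1 (h.mpr h2))]

theorem inj_face (H : QMap Q Q' F ω ω'' φ ψ r) : Set.InjOn ψ F := by
  intro f hf g hg h
  have hf' : f ∈ F := by exact_mod_cast hf
  have hg' : g ∈ F := by exact_mod_cast hg
  have h1 := H.sd_eq hf' 0
  have h2 := H.sd_eq hg' 0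
  rw [h, h2] at h1
  have h3 : sd Q f 0 = sd Q g 0 := (H.inj_dE (sd_mem hg' 0) (sd_mem hf' 0) h1).symm
  have e1 : Q.c f 0 = Q.c g 0 := congrArg Prod.fst h3
  have e2 : Q.c f (0 + 1) = Q.c g (0 + 1) := congrArg Prod.snd h3
  exact (Q.inj e1 e2).1

theorem qt_map (H : QMap Q Q' F ω ω'' φ ψ r) (ha : a ∈ dE Q F) :
    qt Q' (F.image ψ) ω'' (Prod.map φ φ a) = qt Q F ω a := by
  unfold qt
  rw [Finset.sum_image (fun x hx y hy h => H.inj_face (by exact_mod_cast hx)
    (by exact_mod_cast hy) h)]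
  refine Finset.sum_congr rfl fun f hf => ?_
  rw [← Equiv.sum_comp (Equiv.addRight r)]
  refine Finset.sum_congr rfl fun k _ => ?_
  show (if sd Q' (ψ f) (k + r) = Prod.map φ φ a then qk (ω'' (ψ f)) (k + r) else 0) = _
  rw [H.sd_eq hf, qk_shift k _ _ (H.cfg f hf k)]
  by_cases h : sd Q f k = a
  · rw [if_pos h, if_pos (by rw [h])]
  · rw [if_neg h, if_neg (fun h1 => h (H.inj_dE (sd_mem hf k) ha h1))]

theorem rv_map (X : Finset (V × V)) :
    rv (X.image (Prod.map φ φ)) = (rv X).image (Prod.map φ φ) := by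
  unfold rv
  rw [Finset.image_image, Finset.image_image]
  rfl

theorem prs_map (X : Finset (V × V)) :
    prs (X.image (Prod.map φ φ)) = (prs X).image (Finset.image (Prod.map φ φ)) := by
  unfold prs
  rw [Finset.image_insert, Finset.image_singleton, rv_map]

theorem image_inj (H : QMap Q Q' F ω ω'' φ ψ r) (hX : X ⊆ dE Q F) (hY : Y ⊆ dE Q F)
    (h : X.image (Prod.map φ φ) = Y.image (Prod.map φ φ)) : X = Y := by
  have key : ∀ {X Y : Finset (V × V)}, X ⊆ dE Q F → Y ⊆ dE Q F →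
      X.image (Prod.map φ φ) = Y.image (Prod.map φ φ) → X ⊆ Y := by
    intro X Y hX hY h a ha
    have h1 : Prod.map φ φ a ∈ Y.image (Prod.map φ φ) := by
      rw [← h]; exact Finset.mem_image_of_mem _ ha
    obtain ⟨b, hb, hab⟩ := Finset.mem_image.mp h1
    rw [← H.inj_dE (hY hb) (hX ha) hab]
    exact hb
  exact Finset.Subset.antisymm (key hX hY h) (key hY hX h.symm)

theorem dstr_sub (hX : X ∈ dstr Q F ω) : X ⊆ dE Q F := fun _ ha => (dstr_of_mem hX ha).1

theorem sw_map (H : QMap Q Q' F ω ω'' φ ψ r) {h : V × V → ℂ}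
    {h' : V' × V' → ℂ} (hh : ∀ a ∈ dE Q F, h' (Prod.map φ φ a) = h a) (hX : X ⊆ dE Q F) :
    sw Q' (F.image ψ) ω'' h' (X.image (Prod.map φ φ)) = sw Q F ω h X := by
  unfold sw
  rw [Finset.prod_image (fun x hx y hy hxy => H.inj_dE (hX hx) (hX hy) hxy)]
  exact Finset.prod_congr rfl fun a ha => by rw [hh a (hX ha), H.qt_map (hX ha)]

theorem touch_map (H : QMap Q Q' F ω ω'' φ ψ r) (hP : P ⊆ dE Q F) (hX : X ⊆ dE Q F) :
    touch (P.image (Prod.map φ φ)) (X.image (Prod.map φ φ)) ↔ touch P X := by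
  rw [touch_iff, touch_iff]
  constructor
  · rintro ⟨a', ha', h⟩
    obtain ⟨a, ha, rfl⟩ := Finset.mem_image.mp ha'
    refine ⟨a, ha, ?_⟩
    rcases h with h | h
    · obtain ⟨b, hb, hab⟩ := Finset.mem_image.mp h
      left
      rw [← H.inj_dE (hP hb) (hX ha) hab]
      exact hb
    · obtain ⟨b, hb, hab⟩ := Finset.mem_image.mp h
      right
      rw [← H.inj_dE (hP hb) (swap_mem_dE.mpr (hX ha)) hab]
      exact hb
  · rintro ⟨a, ha, h⟩
    refine ⟨_, Finset.mem_image_of_mem _ ha, ?_⟩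
    rcases h with h | h
    · exact Or.inl (Finset.mem_image_of_mem _ h)
    · exact Or.inr (Finset.mem_image_of_mem _ h)

theorem prod_map (H : QMap Q Q' F ω ω'' φ ψ r) {h : V × V → ℂ}
    {h' : V' × V' → ℂ} (hh : ∀ a ∈ dE Q F, h' (Prod.map φ φ a) = h a)
    (D : Finset (Finset (V × V))) (hD : D ⊆ dstr Q F ω) :
    ∏ U ∈ (D.image (Finset.image (Prod.map φ φ))).image prs,
        ∑ X ∈ U, sw Q' (F.image ψ) ω'' h' X =
      ∏ U ∈ D.image prs, ∑ X ∈ U, sw Q F ω h X := by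
  have e1 : (D.image (Finset.image (Prod.map φ φ))).image prs =
      (D.image prs).image (Finset.image (Finset.image (Prod.map φ φ))) := by
    rw [Finset.image_image, Finset.image_image]
    refine Finset.image_congr fun X _ => ?_
    exact prs_map X
  have hU : ∀ U ∈ D.image prs, ∀ X ∈ U, X ⊆ dE Q F := by
    intro U hU X hX
    obtain ⟨Y, hY, rfl⟩ := Finset.mem_image.mp hU
    unfold prs at hX
    rcases Finset.mem_insert.mp hX with rfl | hX
    · exact dstr_sub (hD hY)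
    · rw [Finset.mem_singleton] at hX
      subst hX
      exact dstr_sub (rv_mem_dstr (hD hY))
  rw [e1, Finset.prod_image]
  · refine Finset.prod_congr rfl fun U hU1 => ?_
    rw [Finset.sum_image]
    · exact Finset.sum_congr rfl fun X hX => H.sw_map hh (hU U hU1 X hX)
    · intro X hX Y hY hXY
      exact H.image_inj (hU U hU1 X hX) (hU U hU1 Y hY) hXY
  · intro U hU1 W hW hUW
    have key : ∀ {U W : Finset (Finset (V × V))}, U ∈ D.image prs → W ∈ D.image prs →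
        U.image (Finset.image (Prod.map φ φ)) = W.image (Finset.image (Prod.map φ φ)) →
        U ⊆ W := by
      intro U W hU1 hW hUW X hX
      have h1 : X.image (Prod.map φ φ) ∈ W.image (Finset.image (Prod.map φ φ)) := by
        rw [← hUW]; exact Finset.mem_image_of_mem _ hX
      obtain ⟨Y, hY, hXY⟩ := Finset.mem_image.mp h1
      rw [← H.image_inj (hU W hW Y hY) (hU U hU1 X hX) hXY]
      exact hY
    exact Finset.Subset.antisymm (key hU1 hW hUW) (key hW hU1 hUW.symm)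

/-- **Invariance of the relevant part.** -/
theorem Zr_map (H : QMap Q Q' F ω ω'' φ ψ r) {h : V × V → ℂ}
    {h' : V' × V' → ℂ} (hh : ∀ a ∈ dE Q F, h' (Prod.map φ φ a) = h a) (hP : P ⊆ dE Q F) :
    Zr Q' (F.image ψ) ω'' h' (P.image (Prod.map φ φ)) = Zr Q F ω h P := by
  unfold Zr
  rw [← H.prod_map hh _ (Finset.filter_subset _ _), H.dstr_map]
  congr 2
  ext X
  rw [Finset.mem_filter, Finset.mem_image, Finset.mem_image]
  constructor
  · rintro ⟨⟨Y, hY, rfl⟩, h2⟩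
    exact ⟨Y, Finset.mem_filter.mpr ⟨hY, (H.touch_map hP (dstr_sub hY)).mp h2⟩, rfl⟩
  · rintro ⟨Y, hY, rfl⟩
    obtain ⟨h1, h2⟩ := Finset.mem_filter.mp hY
    exact ⟨⟨Y, h1, rfl⟩, (H.touch_map hP (dstr_sub h1)).mpr h2⟩

/-- Invariance of the strand product. -/
theorem Zs_map (H : QMap Q Q' F ω ω'' φ ψ r) {h : V × V → ℂ}
    {h' : V' × V' → ℂ} (hh : ∀ a ∈ dE Q F, h' (Prod.map φ φ a) = h a) :
    Zs Q' (F.image ψ) ω'' h' = Zs Q F ω h := by
  have := H.prod_map hh (dstr Q F ω) (Finset.Subset.refl _)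
  unfold Zs ust
  rw [H.dstr_map]
  exact this

end QMap

end

end Pool.Agent.SixB.Rel
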