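import Pool.Agent.Lib.SixB.S4WallDefs
import Pool.Agent.Lib.SixB.S3Rel

/-!
# 6BD step 4: motions of the plane and mean height differences

* `Mot`: an orientation preserving motion of the lattice: maps `φ` of the vertices, `ψ` of the faces, `r` the shift
  of the labels of the corners; `Mot.one`, `Mot.tr v` (translation), `Mot.rot` (rotation by 90 degrees around the
  vertex `0`, counterclockwise), `Mot.comp`, `Mot.inv`; `Mot.cf` configurations, `Mot.e` directed unit edges.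
* everything is equivariant: `Mot.nx_iff`, `lst_e`, `stt_e`, `mate_e`, `bS_e`, `arcs_e`, `clo_e`, `trn_e`,
  `av_move`.
* `WEnv.move m E`, `WEnv.W_move`, `num_move`, `Z_move`, `mA_move` (`mA` = mean arrow), `hD_move` (`hD E p v n` =
  mean height difference, divided by `i`, between `p + n v` and `p`), `dU_eq_hD`, `dU_move`, `dU_tr`.
* `W_dep`, `num_dep`, `numC_dep`: everything depends only on the faces of `F`.
* `WallAtG E m d M`: the wall condition at the image of the standard position under the motion `m` (wall point `m.φ 0`,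
  the other columns `m.φ (x, ·)`); `wallAt_iff`: it is `WallAt (E.move m.inv) d M`.
* `Mot.std k v`: the `k`-th rotation (bottom, right, top, left wall) followed by the translation by `v`, `Mot.nu k` the
  inner normal.
* `wallThmG`: the wall theorem for walls in all positions and directions, `wallThmG_sub`: for the difference of two
  environments.
-/

set_option autoImplicit false

namespace Pool.Agent.SixB

open Pool.Agent.Perc Pool.Agent.Perc.Q Relation

noncomputable section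

theorem ev_add (k r : ZMod 4) : ev (k + r) = (ev k == ev r) := by revert k r; decide

/-- an orientation preserving motion of the lattice -/
structure Mot where
  φ : VZ ≃ VZ
  ψ : (ℤ × ℤ) ≃ (ℤ × ℤ)
  r : ZMod 4
  cor : ∀ f k, ZQ.c (ψ f) (k + r) = φ (ZQ.c f k)

namespace Mot

variable (m : Mot) {F : Finset (ℤ × ℤ)} {ω : Cfg} {a b : DZ}

/-- the image of a directed unit edge -/
def e : DZ ≃ DZ := Equiv.prodCongr m.φ m.φ

theorem e_apply (a : DZ) : m.e a = Prod.map m.φ m.φ a := rfl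

theorem e_mk (p q : VZ) : m.e (p, q) = (m.φ p, m.φ q) := rfl

theorem e_swap (a : DZ) : m.e a.swap = (m.e a).swap := rfl

theorem symm_swap (a : DZ) : m.e.symm a.swap = (m.e.symm a).swap := rfl

/-- the image of a set of faces -/
def im (F : Finset (ℤ × ℤ)) : Finset (ℤ × ℤ) := F.image m.ψ

theorem mem_im {f : ℤ × ℤ} : f ∈ m.im F ↔ m.ψ.symm f ∈ F := by
  unfold im
  rw [Finset.mem_image]
  constructor
  · rintro ⟨g, hg, rfl⟩
    rwa [Equiv.symm_apply_apply]
  · intro h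
    exact ⟨_, h, Equiv.apply_symm_apply _ _⟩

theorem psi_mem {f : ℤ × ℤ} : m.ψ f ∈ m.im F ↔ f ∈ F := by
  rw [mem_im, Equiv.symm_apply_apply]

/-- the image of a configuration -/
def cf (ω : Cfg) : Cfg := fun g => (ω (m.ψ.symm g) == ev m.r)

theorem qmap (F : Finset (ℤ × ℤ)) (ω : Cfg) : Rel.QMap ZQ ZQ F ω (m.cf ω) m.φ m.ψ m.r where
  inj := fun _ _ _ _ _ _ h => m.φ.injective h
  cor := fun f _ k => m.cor f k
  cfg := by
    intro f _ k
    unfold cf
    rw [Equiv.symm_apply_apply, ev_add]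
    cases ω f <;> cases ev k <;> cases ev m.r <;> decide

theorem nx_iff : Nx ZQ (m.cf ω) (m.im F : Set (ℤ × ℤ)) (m.e a) (m.e b) ↔
    Nx ZQ ω (F : Set (ℤ × ℤ)) a b := by
  constructor
  · intro h
    have h1 : m.e a ∈ dE ZQ (m.im F) := Nx.left_mem h
    unfold im at h1
    rw [(m.qmap F ω).dE_map] at h1
    obtain ⟨a', ha', h2⟩ := Finset.mem_image.mp h1
    have h3 : a' = a := m.e.injective h2
    subst h3
    obtain ⟨b', hb', h4⟩ := (m.qmap F ω).nx_inv ha' h
    have h5 : b = b' := m.e.injective hb'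
    rwa [h5]
  · intro h
    exact (m.qmap F ω).nx h

theorem nx_symm (h : Nx ZQ (m.cf ω) (m.im F : Set (ℤ × ℤ)) a b) :
    Nx ZQ ω (F : Set (ℤ × ℤ)) (m.e.symm a) (m.e.symm b) := by
  rw [← m.nx_iff, Equiv.apply_symm_apply, Equiv.apply_symm_apply]
  exact h

theorem rtg_iff : ReflTransGen (Nx ZQ (m.cf ω) (m.im F : Set (ℤ × ℤ))) (m.e a) (m.e b) ↔
    ReflTransGen (Nx ZQ ω (F : Set (ℤ × ℤ))) a b := by
  constructor
  · intro h
    have h1 : ReflTransGen (Nx ZQ ω (F : Set (ℤ × ℤ))) (m.e.symm (m.e a)) (m.e.symm (m.e b)) :=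
      ReflTransGen.lift m.e.symm (fun x y h => m.nx_symm h) _ _ h
    rwa [Equiv.symm_apply_apply, Equiv.symm_apply_apply] at h1
  · intro h
    exact ReflTransGen.lift m.e (fun x y h => m.nx_iff.mpr h) _ _ h

theorem clo_e : Clo ZQ (m.im F) (m.cf ω) (m.e a) ↔ Clo ZQ F ω a := by
  unfold Clo
  constructor
  · intro h
    have h1 : TransGen (Nx ZQ ω (F : Set (ℤ × ℤ))) (m.e.symm (m.e a)) (m.e.symm (m.e a)) :=
      TransGen.lift m.e.symm (fun x y h => m.nx_symm h) _ _ h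
    rwa [Equiv.symm_apply_apply] at h1
  · intro h
    exact TransGen.lift m.e (fun x y h => m.nx_iff.mpr h) _ _ h

theorem srel_e : SRel ZQ (m.im F) (m.cf ω) (m.e a) (m.e b) ↔ SRel ZQ F ω a b := by
  rw [srel_iff, srel_iff, m.rtg_iff, m.rtg_iff]

theorem sd_e (f : ℤ × ℤ) (k : ZMod 4) : sd ZQ (m.ψ f) (k + m.r) = m.e (sd ZQ f k) :=
  (m.qmap {f} (fun _ => true)).sd_eq (Finset.mem_singleton_self f) k

theorem ter_e : Ter ZQ (m.im F : Set (ℤ × ℤ)) (m.e a) ↔ Ter ZQ (F : Set (ℤ × ℤ)) a := by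
  constructor
  · intro h f hf k hk
    refine h (m.ψ f) ?_ (k + m.r) ?_
    · exact_mod_cast m.psi_mem.mpr (by exact_mod_cast hf)
    · rw [hk]
      exact (m.sd_e f k).symm
  · intro h f hf k hk
    have hf' : m.ψ.symm f ∈ F := m.mem_im.mp (by exact_mod_cast hf)
    refine h (m.ψ.symm f) (by exact_mod_cast hf') (k - m.r) ?_
    apply m.e.injective
    rw [hk]
    have h1 := m.sd_e (m.ψ.symm f) (k - m.r)
    rw [Equiv.apply_symm_apply, sub_add_cancel] at h1
    exact h1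

theorem ini_e : Ini ZQ (m.im F : Set (ℤ × ℤ)) (m.e a) ↔ Ini ZQ (F : Set (ℤ × ℤ)) a := by
  rw [← ter_swap, ← ter_swap, ← e_swap, m.ter_e]

theorem dE_e : dE ZQ (m.im F) = (dE ZQ F).image m.e := (m.qmap F (fun _ => true)).dE_map

theorem mem_dE_e : m.e a ∈ dE ZQ (m.im F) ↔ a ∈ dE ZQ F := by
  rw [m.dE_e, Finset.mem_image]
  constructor
  · rintro ⟨b, hb, h⟩
    rwa [← m.e.injective h]
  · intro h
    exact ⟨a, h, rfl⟩

theorem mem_bS_e : m.e a ∈ bS ZQ (m.im F) ↔ a ∈ bS ZQ F := by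
  rw [mem_bS, mem_bS, m.mem_dE_e, m.ini_e]

theorem bS_e : bS ZQ (m.im F) = (bS ZQ F).image m.e := by
  ext a
  obtain ⟨b, rfl⟩ := m.e.surjective a
  rw [m.mem_bS_e, Finset.mem_image]
  constructor
  · intro h
    exact ⟨b, h, rfl⟩
  · rintro ⟨c, hc, h⟩
    rwa [← m.e.injective h]

theorem ter_orb_unique {c : DZ} (hb : b ∈ Orb ZQ ω (F : Set (ℤ × ℤ)) a) (hb' : Ter ZQ (F : Set (ℤ × ℤ)) b)
    (hc : c ∈ Orb ZQ ω (F : Set (ℤ × ℤ)) a) (hc' : Ter ZQ (F : Set (ℤ × ℤ)) c) : b = c :=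
  ter_uniq (ω := ω) hb' hc' (EqvGen.trans _ _ _ (EqvGen.symm _ _ (srel_iff.mpr (Or.inl hb)))
    (srel_iff.mpr (Or.inl hc)))

theorem lst_of {Q : QC VZ (ℤ × ℤ)} (hb : b ∈ Orb Q ω (F : Set (ℤ × ℤ)) a)
    (hb' : Ter Q (F : Set (ℤ × ℤ)) b) : lst Q F ω a = b := by
  classical
  have h : ∃ b, b ∈ Orb Q ω (F : Set (ℤ × ℤ)) a ∧ Ter Q (F : Set (ℤ × ℤ)) b := ⟨b, hb, hb'⟩
  unfold lst
  rw [dif_pos h]
  exact ter_uniq (ω := ω) h.choose_spec.2 hb' (EqvGen.trans _ _ _
    (EqvGen.symm _ _ (srel_iff.mpr (Or.inl h.choose_spec.1))) (srel_iff.mpr (Or.inl hb)))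

theorem orb_e : m.e b ∈ Orb ZQ (m.cf ω) (m.im F : Set (ℤ × ℤ)) (m.e a) ↔
    b ∈ Orb ZQ ω (F : Set (ℤ × ℤ)) a := m.rtg_iff

theorem lst_e : lst ZQ (m.im F) (m.cf ω) (m.e a) = m.e (lst ZQ F ω a) := by
  classical
  by_cases h : ∃ b, b ∈ Orb ZQ ω (F : Set (ℤ × ℤ)) a ∧ Ter ZQ (F : Set (ℤ × ℤ)) b
  · obtain ⟨b, hb, hb'⟩ := h
    rw [lst_of hb hb', lst_of (m.orb_e.mpr hb) (m.ter_e.mpr hb')]
  · have h' : ¬ ∃ b, b ∈ Orb ZQ (m.cf ω) (m.im F : Set (ℤ × ℤ)) (m.e a) ∧
        Ter ZQ (m.im F : Set (ℤ × ℤ)) b := by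
      rintro ⟨b, hb, hb'⟩
      obtain ⟨c, rfl⟩ := m.e.surjective b
      exact h ⟨c, m.orb_e.mp hb, m.ter_e.mp hb'⟩
    unfold lst
    rw [dif_neg h, dif_neg h']

theorem stt_e : stt (m.im F) (m.cf ω) (m.e a) = m.e (stt F ω a) := by
  unfold stt
  rw [← e_swap, m.lst_e, e_swap]

theorem mate_e : mate ZQ (m.im F) (m.cf ω) (m.e a) = m.e (mate ZQ F ω a) := by
  unfold mate
  rw [m.lst_e, e_swap]

theorem arcs_e : arcs ZQ (m.im F) (m.cf ω) = (arcs ZQ F ω).image (Sym2.map m.e) := by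
  unfold arcs
  rw [m.bS_e, Finset.image_image, Finset.image_image]
  refine Finset.image_congr fun a _ => ?_
  show s(m.e a, mate ZQ (m.im F) (m.cf ω) (m.e a)) = Sym2.map m.e s(a, mate ZQ F ω a)
  rw [m.mate_e, Sym2.map_mk]

theorem arcE_e : arcE (m.im F) (m.cf ω) (m.e a) = Sym2.map m.e (arcE F ω a) := by
  unfold arcE
  rw [m.stt_e, m.mate_e, Sym2.map_mk]

theorem trn_e : trn ZQ (m.im F) (m.cf ω) (m.e a) = trn ZQ F ω a := by
  unfold trn
  by_cases ha : a ∈ dE ZQ F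
  · have h1 := (m.qmap F ω).dst_map ha
    have h2 : dst ZQ (m.im F) (m.cf ω) (m.e a) = (dst ZQ F ω a).image m.e := h1
    rw [h2, Finset.sum_image fun x _ y _ h => m.e.injective h]
    refine Finset.sum_congr rfl fun b hb => ?_
    exact (m.qmap F ω).qt_map (mem_dst.mp hb).1
  · have h0 : ∀ (G : Finset (ℤ × ℤ)) (ξ : Cfg) (c : DZ), c ∉ dE ZQ G → dst ZQ G ξ c = ∅ := by
      intro G ξ c hc
      apply Finset.eq_empty_of_forall_notMem
      intro b hb
      obtain ⟨h1, h2⟩ := mem_dst.mp hb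
      exact hc (srel_dE (EqvGen.symm _ _ h2) h1)
    rw [h0 F ω a ha, h0 (m.im F) (m.cf ω) (m.e a) (fun h => ha (m.mem_dE_e.mp h))]
    rfl

/-! ## Averages -/

theorem av_flip {S : Finset (ℤ × ℤ)} {g : Cfg → ℝ} (hg : Dep (S : Set (ℤ × ℤ)) g) :
    av S (fun ω => g (fun f => !ω f)) = av S g := by
  unfold av
  congr 1
  refine Finset.sum_nbij' (fun T => S \ T) (fun T => S \ T) ?_ ?_ ?_ ?_ ?_
  · intro T _
    exact Finset.mem_powerset.mpr Finset.sdiff_subset
  · intro T _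
    exact Finset.mem_powerset.mpr Finset.sdiff_subset
  · intro T hT
    exact Finset.sdiff_sdiff_eq_self (Finset.mem_powerset.mp hT)
  · intro T hT
    exact Finset.sdiff_sdiff_eq_self (Finset.mem_powerset.mp hT)
  · intro T _
    refine hg _ _ fun f hf => ?_
    have hf' : f ∈ S := by exact_mod_cast hf
    unfold ind
    by_cases h : f ∈ T
    · simp [h]
    · simp [h, hf']

theorem av_beq {S : Finset (ℤ × ℤ)} {g : Cfg → ℝ} (hg : Dep (S : Set (ℤ × ℤ)) g) (c : Bool) :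
    av S (fun ω => g (fun f => (ω f == c))) = av S g := by
  cases c
  · have h : (fun ω : Cfg => g (fun f => (ω f == false))) = fun ω => g (fun f => !ω f) := by
      funext ω
      congr 1
      funext f
      cases ω f <;> rfl
    rw [h]
    exact av_flip hg
  · have h : (fun ω : Cfg => g (fun f => (ω f == true))) = g := by
      funext ω
      congr 1
      funext f
      cases ω f <;> rfl
    rw [h]

theorem av_move {g g' : Cfg → ℝ} (hg : Dep (F : Set (ℤ × ℤ)) g) (h : ∀ ω, g' (m.cf ω) = g ω) :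
    av (m.im F) g' = av F g := by
  have hg2 : Dep (F : Set (ℤ × ℤ)) (fun ω => g (fun f => (ω f == ev m.r))) := by
    intro ω ω' hω
    exact hg _ _ fun f hf => by rw [hω f hf]
  have h1 : av (m.im F) g' = av F (fun ω => g (fun f => (ω f == ev m.r))) := by
    refine av_map (S' := m.im F) (φ := m.ψ) m.ψ.injective.injOn rfl hg2 fun ω => ?_
    show g' ω = g (fun f => (ω (m.ψ f) == ev m.r))
    rw [← h]
    congr 1
    funext f
    show ω f = ((ω (m.ψ (m.ψ.symm f)) == ev m.r) == ev m.r)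
    rw [Equiv.apply_symm_apply]
    cases ω f <;> cases ev m.r <;> rfl
  rw [h1, av_beq hg]

/-! ## The motions -/

/-- the identity -/
def one : Mot where
  φ := Equiv.refl _
  ψ := Equiv.refl _
  r := 0
  cor := fun f k => by rw [add_zero]; rfl

/-- first `m`, then `n` -/
def comp (m n : Mot) : Mot where
  φ := m.φ.trans n.φ
  ψ := m.ψ.trans n.ψ
  r := m.r + n.r
  cor := fun f k => by
    rw [← add_assoc, Equiv.trans_apply, n.cor, m.cor]
    rfl

/-- the inverse -/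
def inv (m : Mot) : Mot where
  φ := m.φ.symm
  ψ := m.ψ.symm
  r := -m.r
  cor := fun f k => by
    rw [Equiv.eq_symm_apply, ← m.cor, Equiv.apply_symm_apply, neg_add_cancel_right]

/-- translation by `v` -/
def tr (v : ℤ × ℤ) : Mot where
  φ := Equiv.addRight v
  ψ := Equiv.addRight v
  r := 0
  cor := fun f k => by
    obtain ⟨x, y⟩ := f
    obtain ⟨a, b⟩ := v
    rw [add_zero, ZQ_c, ZQ_c]
    rcases k4_cases k with rfl | rfl | rfl | rfl
    · simp only [cor0_0, Equiv.coe_addRight, Prod.mk_add_mk]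
    · simp only [cor0_1, Equiv.coe_addRight, Prod.mk_add_mk]
      congr 1; ring
    · simp only [cor0_2, Equiv.coe_addRight, Prod.mk_add_mk]
      congr 1 <;> ring
    · simp only [cor0_3, Equiv.coe_addRight, Prod.mk_add_mk]
      congr 1; ring

/-- rotation of the vertices by 90 degrees around `0` -/
def rotV : (ℤ × ℤ) ≃ (ℤ × ℤ) where
  toFun := fun p => (-p.2, p.1)
  invFun := fun p => (p.2, -p.1)
  left_inv := fun p => by simp
  right_inv := fun p => by simp

/-- rotation of the faces by 90 degrees around the vertex `0` -/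
def rotF : (ℤ × ℤ) ≃ (ℤ × ℤ) where
  toFun := fun p => (-p.2 - 1, p.1)
  invFun := fun p => (p.2, -p.1 - 1)
  left_inv := fun p => by ext <;> simp
  right_inv := fun p => by ext <;> simp

/-- rotation by 90 degrees around the vertex `0`, counterclockwise -/
def rot : Mot where
  φ := rotV
  ψ := rotF
  r := 1
  cor := fun f k => by
    obtain ⟨x, y⟩ := f
    rw [ZQ_c, ZQ_c]
    rcases k4_cases k with rfl | rfl | rfl | rfl
    · have e : (0 : ZMod 4) + 1 = 1 := by decide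
      rw [e, cor0_0, cor0_1]
      simp only [rotV, rotF, Equiv.coe_fn_mk]
      congr 1; ring
    · have e : (1 : ZMod 4) + 1 = 2 := by decide
      rw [e, cor0_1, cor0_2]
      simp only [rotV, rotF, Equiv.coe_fn_mk]
      congr 1; ring
    · have e : (2 : ZMod 4) + 1 = 3 := by decide
      rw [e, cor0_2, cor0_3]
      simp only [rotV, rotF, Equiv.coe_fn_mk]
      congr 1; ring
    · have e : (3 : ZMod 4) + 1 = 0 := by decide
      rw [e, cor0_3, cor0_0]
      simp only [rotV, rotF, Equiv.coe_fn_mk]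
      congr 1; ring

theorem one_phi (p : VZ) : one.φ p = p := rfl

theorem comp_phi (m n : Mot) (p : VZ) : (comp m n).φ p = n.φ (m.φ p) := rfl

theorem comp_psi (m n : Mot) (p : ℤ × ℤ) : (comp m n).ψ p = n.ψ (m.ψ p) := rfl

theorem inv_phi (m : Mot) (p : VZ) : m.inv.φ p = m.φ.symm p := rfl

theorem inv_psi (m : Mot) (p : ℤ × ℤ) : m.inv.ψ p = m.ψ.symm p := rfl

theorem tr_phi (v p : VZ) : (tr v).φ p = p + v := rfl

theorem tr_psi (v p : ℤ × ℤ) : (tr v).ψ p = p + v := rfl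

theorem tr_psi_symm (v p : ℤ × ℤ) : (tr v).ψ.symm p = p - v := rfl

theorem rot_phi (p : VZ) : rot.φ p = (-p.2, p.1) := rfl

theorem rot_psi (p : ℤ × ℤ) : rot.ψ p = (-p.2 - 1, p.1) := rfl

theorem rot_psi_symm (p : ℤ × ℤ) : rot.ψ.symm p = (p.2, -p.1 - 1) := rfl

theorem comp_e (m n : Mot) (a : DZ) : (comp m n).e a = n.e (m.e a) := rfl

theorem inv_e (m : Mot) (a : DZ) : m.inv.e a = m.e.symm a := rfl

theorem comp_im (m n : Mot) (F : Finset (ℤ × ℤ)) : (comp m n).im F = n.im (m.im F) := by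
  unfold im
  rw [Finset.image_image]
  rfl

theorem im_inv (m : Mot) (F : Finset (ℤ × ℤ)) : m.inv.im (m.im F) = F := by
  ext f
  rw [mem_im, mem_im]
  show m.ψ.symm (m.ψ f) ∈ F ↔ _
  rw [Equiv.symm_apply_apply]

theorem inv_im (m : Mot) (F : Finset (ℤ × ℤ)) : m.im (m.inv.im F) = F := by
  ext f
  rw [mem_im, mem_im]
  show m.ψ (m.ψ.symm f) ∈ F ↔ _
  rw [Equiv.apply_symm_apply]

end Mot

/-! ## Dependence on the faces of the domain -/

section dep

variable {F : Finset (ℤ × ℤ)} {ω ω' : Cfg}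

theorem lst_congr (h : ∀ f ∈ F, ω f = ω' f) (a : DZ) : lst ZQ F ω a = lst ZQ F ω' a := by
  unfold lst Orb
  rw [nx_congr (ω := ω) (ω' := ω') fun f hf => h f (by exact_mod_cast hf)]

theorem mate_congr (h : ∀ f ∈ F, ω f = ω' f) (a : DZ) : mate ZQ F ω a = mate ZQ F ω' a := by
  unfold mate
  rw [lst_congr h]

theorem stt_congr (h : ∀ f ∈ F, ω f = ω' f) (a : DZ) : stt F ω a = stt F ω' a := by
  unfold stt
  rw [lst_congr h]

theorem arcs_congr (h : ∀ f ∈ F, ω f = ω' f) : arcs ZQ F ω = arcs ZQ F ω' := by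
  unfold arcs
  exact Finset.image_congr fun a _ => by show s(_, _) = s(_, _); rw [mate_congr h]

theorem arcE_congr (h : ∀ f ∈ F, ω f = ω' f) (a : DZ) : arcE F ω a = arcE F ω' a := by
  unfold arcE
  rw [stt_congr h, mate_congr h]

end dep

namespace WEnv

variable {E : WEnv}

theorem W_dep (E : WEnv) : Dep (E.F : Set (ℤ × ℤ)) E.W := by
  intro ω ω' h
  unfold W
  rw [arcs_congr (ω := ω) (ω' := ω') fun f hf => h f (by exact_mod_cast hf)]

theorem num_dep (E : WEnv) (a : DZ) : Dep (E.F : Set (ℤ × ℤ)) (fun ω => E.num ω a) := by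
  intro ω ω' h
  have h' : ∀ f ∈ E.F, ω f = ω' f := fun f hf => h f (by exact_mod_cast hf)
  show E.num ω a = E.num ω' a
  unfold num
  rw [W_dep E ω ω' h, trn_congr h', stt_congr h', mate_congr h', arcs_congr h', arcE_congr h']
  by_cases hc : Clo ZQ E.F ω a
  · rw [if_pos hc, if_pos ((clo_congr h').mp hc)]
  · rw [if_neg hc, if_neg fun h1 => hc ((clo_congr h').mpr h1)]

theorem numC_dep (E : WEnv) (x y y' : ℤ) : Dep (E.F : Set (ℤ × ℤ)) (E.numC x y y') := by
  intro ω ω' h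
  unfold numC
  exact Finset.sum_congr rfl fun j _ => num_dep E (pe x j) ω ω' h

/-! ## Transport of domains with weights -/

/-- the image of a domain with weights -/
def move (m : Mot) (E : WEnv) : WEnv where
  F := m.im E.F
  t := fun a b => E.t (m.e.symm a) (m.e.symm b)
  s := fun a b => E.s (m.e.symm a) (m.e.symm b)
  t_symm := fun _ _ => E.t_symm _ _
  s_anti := fun _ _ => E.s_anti _ _

theorem move_F (m : Mot) : (E.move m).F = m.im E.F := rfl

theorem move_t (m : Mot) (a b : DZ) : (E.move m).t (m.e a) (m.e b) = E.t a b := by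
  show E.t (m.e.symm (m.e a)) (m.e.symm (m.e b)) = _
  rw [Equiv.symm_apply_apply, Equiv.symm_apply_apply]

theorem move_s (m : Mot) (a b : DZ) : (E.move m).s (m.e a) (m.e b) = E.s a b := by
  show E.s (m.e.symm (m.e a)) (m.e.symm (m.e b)) = _
  rw [Equiv.symm_apply_apply, Equiv.symm_apply_apply]

theorem move_T (m : Mot) (p : Sym2 DZ) : (E.move m).T (Sym2.map m.e p) = E.T p := by
  induction p using Sym2.ind with
  | _ a b => exact E.move_t m a b

theorem move_comp (m n : Mot) : E.move (m.comp n) = (E.move m).move n := by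
  have h : (m.comp n).im E.F = n.im (m.im E.F) := Mot.comp_im m n E.F
  unfold move
  simp only [WEnv.mk.injEq]
  exact ⟨h, rfl, rfl⟩

theorem move_inv (m : Mot) : (E.move m).move m.inv = E := by
  obtain ⟨F, t, s, ht, hs⟩ := E
  unfold move
  simp only [WEnv.mk.injEq]
  refine ⟨Mot.im_inv m F, ?_, ?_⟩
  · funext a b
    show t (m.e.symm (m.e a)) (m.e.symm (m.e b)) = t a b
    rw [Equiv.symm_apply_apply, Equiv.symm_apply_apply]
  · funext a b
    show s (m.e.symm (m.e a)) (m.e.symm (m.e b)) = s a b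
    rw [Equiv.symm_apply_apply, Equiv.symm_apply_apply]

theorem W_move (m : Mot) (ω : Cfg) : (E.move m).W (m.cf ω) = E.W ω := by
  unfold W
  rw [move_F, m.arcs_e, Finset.prod_image fun x _ y _ h => Sym2.map.injective m.e.injective h]
  exact Finset.prod_congr rfl fun p _ => move_T m p

theorem num_move (m : Mot) (ω : Cfg) (a : DZ) : (E.move m).num (m.cf ω) (m.e a) = E.num ω a := by
  unfold num
  rw [W_move, move_F, m.trn_e, m.stt_e, m.mate_e, move_s, m.arcE_e, m.arcs_e,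
    ← Finset.image_erase (Sym2.map.injective m.e.injective),
    Finset.prod_image fun x _ y _ h => Sym2.map.injective m.e.injective h]
  simp only [move_T]
  by_cases hc : Clo ZQ E.F ω a
  · rw [if_pos hc, if_pos (m.clo_e.mpr hc)]
  · rw [if_neg hc, if_neg fun h1 => hc (m.clo_e.mp h1)]

theorem Z_move (m : Mot) : (E.move m).Z = E.Z := by
  unfold Z
  exact m.av_move (W_dep E) (W_move m)

/-- mean arrow in the direction of `a` (divided by `i`) -/
def mA (E : WEnv) (a : DZ) : ℝ := av E.F (fun ω => E.num ω a) / E.Z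

theorem mA_move (m : Mot) (a : DZ) : (E.move m).mA (m.e a) = E.mA a := by
  unfold mA
  rw [Z_move, move_F, m.av_move (g' := fun ω => (E.move m).num ω (m.e a)) (num_dep E a)
    fun ω => num_move m ω a]

theorem dU_eq_sum (E : WEnv) (x y y' : ℤ) : E.dU x y y' = ∑ j ∈ Finset.Ico y' y, E.mA (pe x j) := by
  unfold dU numC mA
  rw [av_sum, Finset.sum_div]

/-- mean height difference (divided by `i`) between `p + n v` and `p`, along the segment -/
def hD (E : WEnv) (p v : VZ) (n : ℕ) : ℝ :=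
  ∑ j ∈ Finset.range n, E.mA (p + ((j : ℤ) + 1) • v, p + (j : ℤ) • v)

theorem dU_eq_hD (E : WEnv) (x y' : ℤ) (n : ℕ) : E.dU x (y' + n) y' = E.hD (x, y') (0, 1) n := by
  rw [dU_eq_sum]
  unfold hD
  have h : Finset.Ico y' (y' + n) = (Finset.range n).image (fun j : ℕ => y' + (j : ℤ)) := by
    ext z
    rw [Finset.mem_Ico, Finset.mem_image]
    constructor
    · rintro ⟨h1, h2⟩
      refine ⟨(z - y').toNat, Finset.mem_range.mpr (by omega), by omega⟩
    · rintro ⟨j, hj, rfl⟩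
      have := Finset.mem_range.mp hj
      omega
  rw [h, Finset.sum_image fun a _ b _ hab => by simpa using hab]
  refine Finset.sum_congr rfl fun j _ => ?_
  congr 1
  unfold pe
  ext <;> simp <;> ring

theorem hD_move (m : Mot) {v v' : VZ} (h : ∀ q, m.φ (q + v) = m.φ q + v') (p : VZ) (n : ℕ) :
    (E.move m).hD (m.φ p) v' n = E.hD p v n := by
  have h1 : ∀ j : ℕ, m.φ (p + (j : ℤ) • v) = m.φ p + (j : ℤ) • v' := by
    intro j
    induction j with
    | zero => simp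
    | succ j ih =>
      have e1 : p + ((j + 1 : ℕ) : ℤ) • v = p + (j : ℤ) • v + v := by
        push_cast
        rw [add_smul, one_smul, add_assoc]
      have e2 : m.φ p + ((j + 1 : ℕ) : ℤ) • v' = m.φ p + (j : ℤ) • v' + v' := by
        push_cast
        rw [add_smul, one_smul, add_assoc]
      rw [e1, e2, h, ih]
  unfold hD
  refine Finset.sum_congr rfl fun j _ => ?_
  have h2 := h1 (j + 1)
  push_cast at h2
  rw [← mA_move m (p + ((j : ℤ) + 1) • v, p + (j : ℤ) • v), Mot.e_mk, h1 j, h2]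

/-- translations -/
theorem hD_tr (w p v : VZ) (n : ℕ) : (E.move (Mot.tr w)).hD (p + w) v n = E.hD p v n := by
  refine hD_move (Mot.tr w) (fun q => ?_) p n
  rw [Mot.tr_phi, Mot.tr_phi, add_right_comm]

/-- rotations -/
theorem hD_rot (p v : VZ) (n : ℕ) :
    (E.move Mot.rot).hD (-p.2, p.1) (-v.2, v.1) n = E.hD p v n := by
  refine hD_move Mot.rot (fun q => ?_) p n
  rw [Mot.rot_phi, Mot.rot_phi]
  ext
  · show -(q.2 + v.2) = -q.2 + -v.2
    ring
  · rfl

theorem dU_tr (E : WEnv) (a b x y' : ℤ) (n : ℕ) :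
    (E.move (Mot.tr (a, b))).dU (x + a) (y' + b + n) (y' + b) = E.dU x (y' + n) y' := by
  rw [dU_eq_hD, dU_eq_hD, ← hD_tr (E := E) (a, b) (x, y') (0, 1) n]
  rfl

end WEnv

/-! ## Walls in general position -/

theorem ev_neg (r : ZMod 4) : ev (-r) = ev r := by revert r; decide

namespace Mot

theorem inv_cf (m : Mot) (ω : Cfg) : m.inv.cf (m.cf ω) = ω := by
  funext g
  show ((ω (m.ψ.symm (m.ψ g)) == ev m.r) == ev (-m.r)) = ω g
  rw [Equiv.symm_apply_apply, ev_neg]
  cases ω g <;> cases ev m.r <;> rfl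

theorem cf_inv (m : Mot) (ω : Cfg) : m.cf (m.inv.cf ω) = ω := by
  funext g
  show ((ω (m.ψ (m.ψ.symm g)) == ev (-m.r)) == ev m.r) = ω g
  rw [Equiv.apply_symm_apply, ev_neg]
  cases ω g <;> cases ev m.r <;> rfl

/-- rotations -/
def rotn : ℕ → Mot
  | 0 => one
  | k + 1 => (rotn k).comp rot

/-- the inner normal of the rotated wall -/
def nu : ℕ → VZ
  | 0 => (0, 1)
  | k + 1 => (-(nu k).2, (nu k).1)

/-- the direction of the rotated wall -/
def tau : ℕ → VZ
  | 0 => (1, 0)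
  | k + 1 => (-(tau k).2, (tau k).1)

/-- first `k` rotations by 90 degrees around `0`, then the translation by `v`: the wall at the bottom (`k = 0`), at the
right (`k = 1`), at the top (`k = 2`), at the left (`k = 3`) -/
def std (k : ℕ) (v : VZ) : Mot := (rotn k).comp (tr v)

theorem rot_add (p q : VZ) : rot.φ (p + q) = rot.φ p + rot.φ q := by
  rw [rot_phi, rot_phi, rot_phi]
  ext
  · show -(p.2 + q.2) = -p.2 + -q.2
    ring
  · rfl

theorem rotn_add (k : ℕ) (p q : VZ) : (rotn k).φ (p + q) = (rotn k).φ p + (rotn k).φ q := by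
  induction k with
  | zero => rfl
  | succ k ih =>
    show rot.φ ((rotn k).φ (p + q)) = rot.φ ((rotn k).φ p) + rot.φ ((rotn k).φ q)
    rw [ih, rot_add]

theorem rotn_nu (k : ℕ) : (rotn k).φ (0, 1) = nu k := by
  induction k with
  | zero => rfl
  | succ k ih =>
    show rot.φ ((rotn k).φ (0, 1)) = _
    rw [ih]
    rfl

theorem rotn_tau (k : ℕ) : (rotn k).φ (1, 0) = tau k := by
  induction k with
  | zero => rfl
  | succ k ih =>
    show rot.φ ((rotn k).φ (1, 0)) = _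
    rw [ih]
    rfl

theorem rotn_zero (k : ℕ) : (rotn k).φ (0, 0) = (0, 0) := by
  induction k with
  | zero => rfl
  | succ k ih =>
    show rot.φ ((rotn k).φ (0, 0)) = _
    rw [ih]
    rfl

theorem std_nu (k : ℕ) (v q : VZ) : (std k v).φ (q + (0, 1)) = (std k v).φ q + nu k := by
  show (rotn k).φ (q + (0, 1)) + v = (rotn k).φ q + v + nu k
  rw [rotn_add, rotn_nu]
  abel

theorem std_tau (k : ℕ) (v q : VZ) : (std k v).φ (q + (1, 0)) = (std k v).φ q + tau k := by
  show (rotn k).φ (q + (1, 0)) + v = (rotn k).φ q + v + tau k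
  rw [rotn_add, rotn_tau]
  abel

/-- the vertex of the standard position with the coordinates `x`, `y` -/
theorem std_phi (k : ℕ) (v : VZ) (x y : ℤ) : (std k v).φ (x, y) = v + x • tau k + y • nu k := by
  have hx : ∀ (n : ℕ), (rotn k).φ ((n : ℤ), 0) = (n : ℤ) • tau k := by
    intro n
    induction n with
    | zero =>
      rw [Nat.cast_zero, zero_smul]
      exact rotn_zero k
    | succ n ih =>
      have e : (((n + 1 : ℕ) : ℤ), (0 : ℤ)) = ((n : ℤ), (0 : ℤ)) + (1, 0) := by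
        ext <;> simp
      rw [e, rotn_add, ih, rotn_tau]
      push_cast
      rw [add_smul, one_smul]
  have hy : ∀ (n : ℕ), (rotn k).φ (0, (n : ℤ)) = (n : ℤ) • nu k := by
    intro n
    induction n with
    | zero =>
      rw [Nat.cast_zero, zero_smul]
      exact rotn_zero k
    | succ n ih =>
      have e : ((0 : ℤ), ((n + 1 : ℕ) : ℤ)) = ((0 : ℤ), (n : ℤ)) + (0, 1) := by
        ext <;> simp
      rw [e, rotn_add, ih, rotn_nu]
      push_cast
      rw [add_smul, one_smul]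
  have hneg : ∀ p : VZ, (rotn k).φ (-p) = -(rotn k).φ p := by
    intro p
    have h := rotn_add k p (-p)
    rw [add_neg_cancel] at h
    have h0 : (rotn k).φ 0 = 0 := rotn_zero k
    rw [h0] at h
    exact (neg_eq_of_add_eq_zero_right h.symm).symm
  have hx' : ∀ z : ℤ, (rotn k).φ (z, 0) = z • tau k := by
    intro z
    obtain ⟨n, rfl | rfl⟩ := z.eq_nat_or_neg
    · exact hx n
    · have e : ((-(n : ℤ), (0 : ℤ)) : VZ) = -((n : ℤ), (0 : ℤ)) := by ext <;> simp
      rw [e, hneg, hx, neg_smul]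
  have hy' : ∀ z : ℤ, (rotn k).φ (0, z) = z • nu k := by
    intro z
    obtain ⟨n, rfl | rfl⟩ := z.eq_nat_or_neg
    · exact hy n
    · have e : (((0 : ℤ), -(n : ℤ)) : VZ) = -((0 : ℤ), (n : ℤ)) := by ext <;> simp
      rw [e, hneg, hy, neg_smul]
  show (rotn k).φ (x, y) + v = _
  have e : ((x, y) : VZ) = (x, 0) + (0, y) := by ext <;> simp
  rw [e, rotn_add, hx', hy']
  abel

end Mot

/-- near the image of `0` under the motion `m` the domain is the image of the natural half plane, up to the scale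
`2 d` -/
structure WallAtG (E : WEnv) (m : Mot) (d : ℤ) (M : ℝ) : Prop where
  hd : 1 ≤ d
  sub : m.im (HB0 (2 * d)) ⊆ E.F
  below : ∀ i : ℤ, -(2 * d) ≤ i → i ≤ 2 * d → m.ψ (i, -1) ∉ E.F
  t_wall : ∀ a ∈ wS (2 * d), ∀ b ∈ wS (2 * d), E.t (m.e a) (m.e b) = 1
  s_wall : ∀ i j : ℤ, wsd i ∈ wS (2 * d) → wsd j ∈ wS (2 * d) → i < j →
    E.s (m.e (wsd i)) (m.e (wsd j)) = -(1 / Real.sqrt 3)
  t_far : ∀ b ∈ bS ZQ E.F, b ∉ (wS (2 * d)).image m.e → ∀ a ∈ wS (2 * d), ∀ a' ∈ wS (2 * d),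
    E.t (m.e a) b = E.t (m.e a') b
  s_far : ∀ b ∈ bS ZQ E.F, b ∉ (wS (2 * d)).image m.e → ∀ a ∈ wS (2 * d), ∀ a' ∈ wS (2 * d),
    E.s (m.e a) b = E.s (m.e a') b
  Zpos : 0 < E.Z
  maj : ∃ H : Cfg → ℝ, Dep ((E.F \ m.im (HB0 d) : Finset (ℤ × ℤ)) : Set (ℤ × ℤ)) H ∧
    (∀ ω, |E.W ω| ≤ H ω) ∧ (∀ ω, ∀ e ∈ dE ZQ (m.im (HB0 d)), |E.num ω e| ≤ 2 * H ω) ∧
    av E.F H ≤ M * E.Z

theorem WallAtG.wallAt {E : WEnv} {m : Mot} {d : ℤ} {M : ℝ} (h : WallAtG E m d M) :
    WallAt (E.move m.inv) d M where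
  hd := h.hd
  sub := by
    intro f hf
    have h1 : m.ψ f ∈ E.F := h.sub (m.psi_mem.mpr hf)
    show f ∈ m.inv.im E.F
    rw [Mot.mem_im]
    exact h1
  below := by
    intro i h1 h2 h3
    have h4 : (i, -1) ∈ m.inv.im E.F := h3
    rw [Mot.mem_im] at h4
    exact h.below i h1 h2 h4
  t_wall := fun a ha b hb => h.t_wall a ha b hb
  s_wall := fun i j hi hj hij => h.s_wall i j hi hj hij
  t_far := by
    intro b hb hb' a ha a' ha'
    refine h.t_far (m.e b) ?_ ?_ a ha a' ha'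
    · have h1 : m.inv.e (m.e b) ∈ bS ZQ (m.inv.im E.F) := by
        rw [Mot.inv_e, Equiv.symm_apply_apply]
        exact hb
      exact m.inv.mem_bS_e.mp h1
    · intro h1
      obtain ⟨c, hc, hcb⟩ := Finset.mem_image.mp h1
      exact hb' (m.e.injective hcb ▸ hc)
  s_far := by
    intro b hb hb' a ha a' ha'
    refine h.s_far (m.e b) ?_ ?_ a ha a' ha'
    · have h1 : m.inv.e (m.e b) ∈ bS ZQ (m.inv.im E.F) := by
        rw [Mot.inv_e, Equiv.symm_apply_apply]
        exact hb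
      exact m.inv.mem_bS_e.mp h1
    · intro h1
      obtain ⟨c, hc, hcb⟩ := Finset.mem_image.mp h1
      exact hb' (m.e.injective hcb ▸ hc)
  Zpos := by
    rw [WEnv.Z_move]
    exact h.Zpos
  maj := by
    obtain ⟨H, h1, h2, h3, h4⟩ := h.maj
    have hW : ∀ ω, (E.move m.inv).W ω = E.W (m.cf ω) := by
      intro ω
      rw [← WEnv.W_move m.inv (m.cf ω), Mot.inv_cf]
    have hN : ∀ ω e, (E.move m.inv).num ω e = E.num (m.cf ω) (m.e e) := by
      intro ω e
      rw [← WEnv.num_move m.inv (m.cf ω) (m.e e), Mot.inv_cf, Mot.inv_e, Equiv.symm_apply_apply]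
    refine ⟨fun ω => H (m.cf ω), ?_, ?_, ?_, ?_⟩
    · intro ω ω' hω
      refine h1 _ _ fun g hg => ?_
      have hg' : g ∈ E.F \ m.im (HB0 d) := by exact_mod_cast hg
      obtain ⟨hg1, hg2⟩ := Finset.mem_sdiff.mp hg'
      have h5 : m.ψ.symm g ∈ m.inv.im E.F \ HB0 d := by
        rw [Finset.mem_sdiff, Mot.mem_im, ← Mot.mem_im m]
        refine ⟨?_, hg2⟩
        show m.ψ (m.ψ.symm g) ∈ E.F
        rw [Equiv.apply_symm_apply]
        exact hg1
      show (ω (m.ψ.symm g) == ev m.r) = (ω' (m.ψ.symm g) == ev m.r)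
      rw [hω _ (by exact_mod_cast h5)]
    · intro ω
      rw [hW]
      exact h2 _
    · intro ω e he
      rw [hN]
      exact h3 _ _ (m.mem_dE_e.mpr he)
    · have h5 : av (m.inv.im E.F) (fun ω => H (m.cf ω)) = av E.F H := by
        refine m.inv.av_move (h1.mono ?_) fun ω => ?_
        · intro f hf
          have : f ∈ E.F \ m.im (HB0 d) := by exact_mod_cast hf
          exact_mod_cast (Finset.mem_sdiff.mp this).1
        · rw [Mot.cf_inv]
      rw [WEnv.Z_move]
      show av (m.inv.im E.F) (fun ω => H (m.cf ω)) ≤ _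
      rw [h5]
      exact h4

/-- mean height differences of the moved domain -/
theorem WEnv.dU_inv (E : WEnv) (m : Mot) {ν : VZ} (hν : ∀ q, m.φ (q + (0, 1)) = m.φ q + ν) (x y' : ℤ) (n : ℕ) :
    (E.move m.inv).dU x (y' + n) y' = E.hD (m.φ (x, y')) ν n := by
  rw [WEnv.dU_eq_hD]
  have h := WEnv.hD_move (E := E) m.inv (v := ν) (v' := (0, 1)) (fun q => ?_) (m.φ (x, y')) n
  · rw [← h]
    show _ = (E.move m.inv).hD (m.φ.symm (m.φ (x, y'))) (0, 1) n
    rw [Equiv.symm_apply_apply]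
  · show m.φ.symm (q + ν) = m.φ.symm q + (0, 1)
    rw [Equiv.symm_apply_eq, hν, Equiv.apply_symm_apply]

/-- **The wall theorem** for walls in all positions and directions. -/
theorem wallThmG (H : WallThm) : ∃ C c : ℝ, 0 < C ∧ 0 < c ∧ ∀ (E : WEnv) (m : Mot) (ν : VZ) (d : ℤ) (M : ℝ),
    (∀ q, m.φ (q + (0, 1)) = m.φ q + ν) → WallAtG E m d M →
    ∀ (r y' : ℤ) (n : ℕ), 1 ≤ r → r ≤ 4 * y' → y' + n ≤ r → 16 * r ≤ d →
      |E.hD (m.φ (0, y')) ν n + E.hD (m.φ (1, y')) ν n - (flatEnv d).dU2 (y' + n) y'| ≤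
        C * M * ((r : ℝ) / d) ^ (1 + c) := by
  obtain ⟨C, c, hC, hc, h⟩ := H
  refine ⟨C, c, hC, hc, fun E m ν d M hν hE r y' n h1 h2 h3 h4 => ?_⟩
  have h5 := h (E.move m.inv) d M hE.wallAt r (y' + n) y' h1 (by omega) h2 h3 h4
  rwa [WEnv.dU2, WEnv.dU_inv E m hν, WEnv.dU_inv E m hν] at h5

/-- the difference of two environments which have a wall in the same position -/
theorem wallThmG_sub (H : WallThm) : ∃ C c : ℝ, 0 < C ∧ 0 < c ∧ ∀ (E E' : WEnv) (m m' : Mot) (ν ν' : VZ) (d : ℤ)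
    (M M' : ℝ), (∀ q, m.φ (q + (0, 1)) = m.φ q + ν) → (∀ q, m'.φ (q + (0, 1)) = m'.φ q + ν') →
    WallAtG E m d M → WallAtG E' m' d M' →
    ∀ (r y' : ℤ) (n : ℕ), 1 ≤ r → r ≤ 4 * y' → y' + n ≤ r → 16 * r ≤ d →
      |(E.hD (m.φ (0, y')) ν n + E.hD (m.φ (1, y')) ν n) -
        (E'.hD (m'.φ (0, y')) ν' n + E'.hD (m'.φ (1, y')) ν' n)| ≤
        C * (M + M') * ((r : ℝ) / d) ^ (1 + c) := by
  obtain ⟨C, c, hC, hc, h⟩ := wallThmG H
  refine ⟨C, c, hC, hc, fun E E' m m' ν ν' d M M' hν hν' hE hE' r y' n h1 h2 h3 h4 => ?_⟩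
  have h5 := h E m ν d M hν hE r y' n h1 h2 h3 h4
  have h6 := h E' m' ν' d M' hν' hE' r y' n h1 h2 h3 h4
  rw [abs_le] at h5 h6 ⊢
  have e : C * (M + M') * ((r : ℝ) / d) ^ (1 + c) =
      C * M * ((r : ℝ) / d) ^ (1 + c) + C * M' * ((r : ℝ) / d) ^ (1 + c) := by ring
  rw [e]
  constructor
  · linarith [h5.1, h6.2]
  · linarith [h5.2, h6.1]

/-- the wall theorem in the four standard positions: wall point `v`, inner normal `Mot.nu k`, the second line starts at
`v + Mot.tau k` -/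
theorem wallThm_std (H : WallThm) : ∃ C c : ℝ, 0 < C ∧ 0 < c ∧ ∀ (E : WEnv) (k : ℕ) (v : VZ) (d : ℤ) (M : ℝ),
    WallAtG E (Mot.std k v) d M →
    ∀ (r y' : ℤ) (n : ℕ), 1 ≤ r → r ≤ 4 * y' → y' + n ≤ r → 16 * r ≤ d →
      |E.hD (v + y' • Mot.nu k) (Mot.nu k) n + E.hD (v + Mot.tau k + y' • Mot.nu k) (Mot.nu k) n -
        (flatEnv d).dU2 (y' + n) y'| ≤ C * M * ((r : ℝ) / d) ^ (1 + c) := by
  obtain ⟨C, c, hC, hc, h⟩ := wallThmG H
  refine ⟨C, c, hC, hc, fun E k v d M hE r y' n h1 h2 h3 h4 => ?_⟩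
  have h5 := h E (Mot.std k v) (Mot.nu k) d M (Mot.std_nu k v) hE r y' n h1 h2 h3 h4
  rwa [Mot.std_phi, Mot.std_phi, zero_smul, add_zero, one_smul] at h5

end

end Pool.Agent.SixB
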