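import Pool.Agent.Lib.MP_6bd702_zc.Y007

/-!
# Step 7: definitions

Polygons, contours, marks, cluster explorations. Colour `c`: the vertices `v` with `par v = c`
(`c = 0` or `c = 1`); the vertices of the other parity carry the dual percolation.
-/

set_option autoImplicit false

namespace Pool.Agent.SixB

open Finset Pool.Agent.Perc Pool.Agent.Perc6

/-! ### Contours -/

/-- `w 0, w 1, …, w m = w 0` runs through the boundary of the set `F` of faces: every boundary unit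
edge of `F` is `w i, w (i + 1)` for exactly one `i < m`; every even set of unit edges of `F` has a
potential. The orientation is not specified. -/
structure Ctr (F : Set (ℤ × ℤ)) (m : ℕ) (w : ℕ → ℤ × ℤ) : Prop where
  close : w m = w 0
  step : ∀ i < m, ∃ e, BdU F e ∧ Joins e (w i) (w (i + 1))
  all : ∀ e, BdU F e → ∃ i < m, Joins e (w i) (w (i + 1))
  inj : ∀ i < m, ∀ k < m, ∀ e, Joins e (w i) (w (i + 1)) → Joins e (w k) (w (k + 1)) → i = k
  pot : HasPot F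

/-! ### Polygons -/

/-- Neighbouring faces (or cells): a common side. -/
def Adj (f g : ℤ × ℤ) : Prop :=
  (f.1 = g.1 ∧ (f.2 = g.2 + 1 ∨ g.2 = f.2 + 1)) ∨ (f.2 = g.2 ∧ (f.1 = g.1 + 1 ∨ g.1 = f.1 + 1))

/-- `f` and `g` are joined by a chain of neighbouring faces of `S`. -/
def Chn (S : Set (ℤ × ℤ)) (f g : ℤ × ℤ) : Prop :=
  f ∈ S ∧ Relation.ReflTransGen (fun a b => Adj a b ∧ b ∈ S) f g

/-- A polygon: a nonempty finite set of cells which is connected and has a connected complement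
(connection by common sides). -/
structure IsPoly (S : Finset (ℤ × ℤ)) : Prop where
  ne : S.Nonempty
  conn : ∀ f ∈ S, ∀ g ∈ S, Chn (S : Set (ℤ × ℤ)) f g
  cconn : ∀ f, f ∉ S → ∀ g, g ∉ S → Chn ((S : Set (ℤ × ℤ))ᶜ) f g

/-- The grid line with number `a` of level `j`, in the lattice of mesh `1 / n`. -/
def ln (j : ℕ) (n a : ℤ) : ℤ := n * a / 2 ^ j

/-- The grid point `g` of level `j`. -/
def pt (j : ℕ) (n : ℤ) (g : ℤ × ℤ) : ℤ × ℤ := (ln j n g.1, ln j n g.2)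

/-- The faces of the cell `d` of level `j`. -/
noncomputable def cel (j : ℕ) (n : ℤ) (d : ℤ × ℤ) : Finset (ℤ × ℤ) :=
  RF (ln j n d.1) (ln j n (d.1 + 1)) (ln j n d.2) (ln j n (d.2 + 1))

/-- The faces of the polygon `S` of level `j`. -/
noncomputable def dom (j : ℕ) (n : ℤ) (S : Finset (ℤ × ℤ)) : Finset (ℤ × ℤ) := S.biUnion (cel j n)

/-- The vertices of the axis-parallel segment from `p` to `q`. -/
def seg (p q : ℤ × ℤ) : Set (ℤ × ℤ) :=
  {v | min p.1 q.1 ≤ v.1 ∧ v.1 ≤ max p.1 q.1 ∧ min p.2 q.2 ≤ v.2 ∧ v.2 ≤ max p.2 q.2}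

/-- The vertices of the arc `g i₁, …, g i₂` of a contour of level `j`. -/
def arc (j : ℕ) (n : ℤ) (g : ℕ → ℤ × ℤ) (i₁ i₂ : ℕ) : Set (ℤ × ℤ) :=
  {v | ∃ i, i₁ ≤ i ∧ i < i₂ ∧ v ∈ seg (pt j n (g i)) (pt j n (g (i + 1)))}

/-! ### Marks -/

/-- The real number is not dyadic. -/
def NonDy (t : ℝ) : Prop := ∀ (i : ℕ) (a : ℤ), 2 ^ i * t ≠ a

/-- `P` is a point of the open side from the grid point `p` to the grid point `q` of level `j`, with
a non-dyadic coordinate along the side. -/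
def Mark (j : ℕ) (p q : ℤ × ℤ) (P : ℝ × ℝ) : Prop :=
  (p.2 = q.2 ∧ 2 ^ j * P.2 = p.2 ∧ (min p.1 q.1 : ℤ) < 2 ^ j * P.1 ∧ 2 ^ j * P.1 < (max p.1 q.1 : ℤ) ∧
    NonDy P.1) ∨
  (p.1 = q.1 ∧ 2 ^ j * P.1 = p.1 ∧ (min p.2 q.2 : ℤ) < 2 ^ j * P.2 ∧ 2 ^ j * P.2 < (max p.2 q.2 : ℤ) ∧
    NonDy P.2)

/-- `x n` are vertices of parity `c` of the side from `p` to `q` which approximate the point `P`. -/
def Apx (c : ℤ) (j : ℕ) (p q : ℤ × ℤ) (P : ℝ × ℝ) (x : ℕ → ℤ × ℤ) : Prop :=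
  ∃ (C : ℝ) (N : ℕ), ∀ n : ℕ, N ≤ n → x n ∈ seg (pt j n p) (pt j n q) ∧ par (x n) = c ∧
    |((x n).1 : ℝ) - n * P.1| ≤ C ∧ |((x n).2 : ℝ) - n * P.2| ≤ C

/-- `x` is joined to a vertex of `A` by bonds in the faces of `D`. -/
def Hit (D : Set (ℤ × ℤ)) (x : ℤ × ℤ) (A : Set (ℤ × ℤ)) : Set Cfg :=
  {ω | ∃ v ∈ A, Conn ω D x v}

/-- All the vertices `x 0, …, x (k - 1)` are joined to `A`. -/
def HitAll (D : Set (ℤ × ℤ)) {k : ℕ} (x : Fin k → ℤ × ℤ) (A : Set (ℤ × ℤ)) : Set Cfg :=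
  {ω | ∀ i, ω ∈ Hit D (x i) A}

/-- Convergence of the `k`-point functions with the normalisation `π`. -/
def KPoint (c : ℤ) (π : ℕ → ℝ) (k : ℕ) : Prop :=
  ∀ (j : ℕ) (S : Finset (ℤ × ℤ)) (M : ℕ) (g : ℕ → ℤ × ℤ) (i₁ i₂ : ℕ) (a : Fin k → ℕ)
    (P : Fin k → ℝ × ℝ), IsPoly S → Ctr (S : Set (ℤ × ℤ)) M g → StrictMono a → (∀ i, a i < i₁) →
    i₁ < i₂ → i₂ ≤ M → (∀ i, Mark j (g (a i)) (g (a i + 1)) (P i)) →
    ∃ L : ℝ, ∀ x : Fin k → ℕ → ℤ × ℤ, (∀ i, Apx c j (g (a i)) (g (a i + 1)) (P i) (x i)) →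
      Filter.Tendsto (fun n : ℕ => pr (dom j n S)
        (HitAll (dom j n S : Set (ℤ × ℤ)) (fun i => x i n) (arc j n g i₁ i₂)) / π n ^ k)
        Filter.atTop (nhds L)

/-- The output of step 6: the one-point functions converge. -/
structure OnePt (c : ℤ) (π : ℕ → ℝ) : Prop where
  lower : ∃ b : ℝ, 0 < b ∧ ∀ n : ℕ, 1 ≤ n → b * (n : ℝ) ^ (-(1 / 3 : ℝ)) ≤ π n
  upper : ∃ b : ℝ, ∀ n : ℕ, 1 ≤ n → π n ≤ b * (n : ℝ) ^ (-(1 / 3 : ℝ))
  one : KPoint c π 1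

/-! ### Changing the configuration, cluster explorations -/

/-- All faces of `K` carry the bond of the other colour. -/
noncomputable def setO (c : ℤ) (K : Set (ℤ × ℤ)) (ω : Cfg) : Cfg := by
  classical exact fun f => if f ∈ K then parD c f else ω f

/-- All faces of `K` carry the bond of the colour `c`. -/
noncomputable def setE (c : ℤ) (K : Set (ℤ × ℤ)) (ω : Cfg) : Cfg := by
  classical exact fun f => if f ∈ K then !parD c f else ω f

/-- The faces of `D` with a corner which is joined to a vertex of `B` in `D`: the exploration of the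
clusters of `B`. -/
def Wx (ω : Cfg) (D : Set (ℤ × ℤ)) (B : Set (ℤ × ℤ)) : Set (ℤ × ℤ) :=
  {f | f ∈ D ∧ ∃ q, IsCor f q ∧ ∃ b ∈ B, Conn ω D b q}

end Pool.Agent.SixB
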