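import Pool.Agent.Lib.SixB.S6Defs
import Pool.Agent.Lib.SixB.S7Defs

/-!
# 6BD block CA: lattice domains, contours, crossing probabilities (definitions)

* `LSide P p q`: the directed unit edge from `p` to `q` is a boundary side of `P` with `P` on its left.
* `Cont P L g`: `g : ℤ → ℤ × ℤ` runs counterclockwise through the boundary of the simple polygon `P`, period `L`.
* `gr n g`: the contour of the refinement `rf n P` (period `n * L`); `gam g t`: arc length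
  parametrisation of the boundary curve, `t : ℝ`, period `L`; `Fl g t`: `gam g t` is not a corner.
* `CrE D w c i j k l`: a path of colour `c` joins the closed arcs `w i .. w j` and `w k .. w l` in `D`.
* `Cr P g n c i j k l`: its probability in `rf n P`; `Ct` = sum over both colours; `Kd`, `Kt` = discrete
  derivatives with respect to the last mark.
-/

set_option autoImplicit false

namespace Pool.Agent.SixB

open Pool.Agent.Perc Pool.Agent.Perc6

/-- the directed unit edge from `p` to `q` is a boundary side of `P`, `P` on the left -/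
def LSide (P : Finset (ℤ × ℤ)) (p q : ℤ × ℤ) : Prop :=
  (q = (p.1 + 1, p.2) ∧ (p.1, p.2) ∈ P ∧ (p.1, p.2 - 1) ∉ P) ∨
  (q = (p.1, p.2 + 1) ∧ (p.1 - 1, p.2) ∈ P ∧ (p.1, p.2) ∉ P) ∨
  (q = (p.1 - 1, p.2) ∧ (p.1 - 1, p.2 - 1) ∈ P ∧ (p.1 - 1, p.2) ∉ P) ∨
  (q = (p.1, p.2 - 1) ∧ (p.1, p.2 - 1) ∈ P ∧ (p.1 - 1, p.2 - 1) ∉ P)

/-- counterclockwise contour of a simple polygon, period `L` -/
structure Cont (P : Finset (ℤ × ℤ)) (L : ℕ) (g : ℤ → ℤ × ℤ) : Prop where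
  pos : 0 < L
  per : ∀ k : ℤ, g (k + L) = g k
  side : ∀ k : ℤ, LSide P (g k) (g (k + 1))
  inj : ∀ j k : ℤ, g j = g k → (L : ℤ) ∣ j - k
  all : ∀ p q : ℤ × ℤ, LSide P p q → ∃ k : ℤ, g k = p ∧ g (k + 1) = q

/-- the contour of the `n`-th refinement -/
def gr (n : ℕ) (g : ℤ → ℤ × ℤ) (k : ℤ) : ℤ × ℤ :=
  (n * (g (k / n)).1 + k % n * ((g (k / n + 1)).1 - (g (k / n)).1),
    n * (g (k / n)).2 + k % n * ((g (k / n + 1)).2 - (g (k / n)).2))

/-- the boundary curve parametrised by arc length -/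
noncomputable def gam (g : ℤ → ℤ × ℤ) (t : ℝ) : ℂ :=
  ⟨(g ⌊t⌋).1 + Int.fract t * (((g (⌊t⌋ + 1)).1 : ℝ) - (g ⌊t⌋).1),
    (g ⌊t⌋).2 + Int.fract t * (((g (⌊t⌋ + 1)).2 : ℝ) - (g ⌊t⌋).2)⟩

/-- `gam g t` is not a corner -/
def Fl (g : ℤ → ℤ × ℤ) (t : ℝ) : Prop :=
  ∀ k : ℤ, t = k → g (k + 1) - g k = g k - g (k - 1)

/-- a path of colour `c` joins the closed arcs `w i, …, w j` and `w k, …, w l` in `D` -/
def CrE (D : Set (ℤ × ℤ)) (w : ℤ → ℤ × ℤ) (c i j k l : ℤ) : Set Cfg :=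
  {ω | ∃ a b : ℤ, i ≤ a ∧ a ≤ j ∧ k ≤ b ∧ b ≤ l ∧ par (w a) = c ∧ Conn ω D (w a) (w b)}

/-- crossing probability in the `n`-th refinement of the polygon `P` with contour `g` -/
noncomputable def Cr (P : Finset (ℤ × ℤ)) (g : ℤ → ℤ × ℤ) (n : ℕ) (c i j k l : ℤ) : ℝ :=
  pr (rf n P) (CrE (rf n P : Set (ℤ × ℤ)) (gr n g) c i j k l)

/-- sum over both colours -/
noncomputable def Ct (P : Finset (ℤ × ℤ)) (g : ℤ → ℤ × ℤ) (n : ℕ) (i j k l : ℤ) : ℝ :=
  Cr P g n 0 i j k l + Cr P g n 1 i j k l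

/-- discrete derivative in the last mark: the boundary side `(l - 1, l)`, colour `c` of the vertex `l` -/
noncomputable def Kd (P : Finset (ℤ × ℤ)) (g : ℤ → ℤ × ℤ) (n : ℕ) (c i j k l : ℤ) : ℝ :=
  Cr P g n c i j k l - Cr P g n c i j k (l - 1)

/-- the sides `(l - 1, l)` and `(l, l + 1)` together (one colour each) -/
noncomputable def Kt (P : Finset (ℤ × ℤ)) (g : ℤ → ℤ × ℤ) (n : ℕ) (i j k l : ℤ) : ℝ :=
  Ct P g n i j k (l + 1) - Ct P g n i j k (l - 1)

/-- **Output of block CA**: the crossing probabilities of both colours converge to the same limit, for every simple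
polygon with four flat marks `t₁ < t₂ < t₃ < t₄ < t₁ + L` of the boundary (no corner). -/
def CAOut : Prop :=
  ∀ (P : Finset (ℤ × ℤ)) (L : ℕ) (g : ℤ → ℤ × ℤ), MPoly P → Cont P L g →
    ∀ t₁ t₂ t₃ t₄ : ℝ, t₁ < t₂ → t₂ < t₃ → t₃ < t₄ → t₄ < t₁ + L → Fl g t₁ → Fl g t₂ → Fl g t₃ → Fl g t₄ →
      ∃ p : ℝ, ∀ c : ℤ, c = 0 ∨ c = 1 → ∀ i j k l : ℕ → ℤ,
        Filter.Tendsto (fun n => (i n : ℝ) / n) Filter.atTop (nhds t₁) →
        Filter.Tendsto (fun n => (j n : ℝ) / n) Filter.atTop (nhds t₂) →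
        Filter.Tendsto (fun n => (k n : ℝ) / n) Filter.atTop (nhds t₃) →
        Filter.Tendsto (fun n => (l n : ℝ) / n) Filter.atTop (nhds t₄) →
        Filter.Tendsto (fun n => Cr P g n c (i n) (j n) (k n) (l n)) Filter.atTop (nhds p)

end Pool.Agent.SixB
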