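import Pool.Agent.Lib.SixB.TopCtr
import Pool.Agent.Lib.SixB.CADefs

/-!
# Block CA: existence of the contour of a simple polygon

* `MPoly.esc`, `MPoly.hasPot`, `MPoly.top_econn`; `IsPoly.esc`, `IsPoly.top_econn`, `IsPoly.exists_ctr`.
* `lside_iff`: `LSide P p q` iff a directed unit edge from `p` (left end) to `q` (right end) enters `P`.
* `MPoly.exists_cont`: every simple polygon has a counterclockwise contour `Cont P L g`.
* `Cont.ctr`: the contour in the sense of `S7Defs`, from any starting point.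
-/

set_option autoImplicit false

namespace Pool.Agent.SixB

open Finset Pool.Agent.Perc Pool.Agent.Perc6 Pool.Agent.Perc6.C2Aux Pool.Agent.Perc.Tips
open Pool.Agent.SixB.Top

/-! ### Connectedness in the three forms -/

theorem eAdj_iff_adjF {f g : ℤ × ℤ} : EAdj f g ↔ AdjF f g := by
  rw [adjF_iff]
  rfl

theorem adj_iff_adjF {f g : ℤ × ℤ} : Adj f g ↔ AdjF f g := by
  rw [adjF_iff]
  obtain ⟨f1, f2⟩ := f
  obtain ⟨g1, g2⟩ := g
  simp only [Adj, Prod.mk.injEq]
  omega

theorem rtg_mono {α : Type} {r s : α → α → Prop} (h : ∀ a b, r a b → s a b) {a b : α}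
    (hr : Relation.ReflTransGen r a b) : Relation.ReflTransGen s a b := by
  induction hr with
  | refl => exact Relation.ReflTransGen.refl
  | tail _ hs ih => exact ih.tail (h _ _ hs)

theorem econn_iff_top {S : Set (ℤ × ℤ)} : EConn S ↔ Top.EConn S := by
  constructor
  · intro h f hf g hg
    exact rtg_mono (fun a b hab => ⟨eAdj_iff_adjF.1 hab.2, hab.1⟩) (h f hf g hg)
  · intro h f hf g hg
    exact rtg_mono (fun a b hab => ⟨hab.2, eAdj_iff_adjF.2 hab.1⟩) (h f hf g hg)

/-- A finite set with an edge connected complement has no holes. -/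
theorem esc_of_compl {F : Set (ℤ × ℤ)} (hF : F.Finite)
    (h : ∀ f, f ∉ F → ∀ g, g ∉ F → Relation.ReflTransGen (StepC F) f g) : Esc F := by
  intro f hf R
  obtain ⟨x₀, x₁, y₀, y₁, hb⟩ := exists_RF hF
  set N : ℤ := |R| + |x₁| + 1 with hN
  have h1 := le_abs_self R
  have h2 := abs_nonneg x₁
  have h3 := le_abs_self x₁
  have h4 := abs_nonneg R
  refine ⟨(N, 0), Or.inl ?_, h f hf _ ?_⟩
  · simp only
    have := le_abs_self N
    omega
  · intro hg
    have := hb _ hg
    simp only [RF, mem_product, mem_Ico] at this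
    omega

theorem MPoly.esc {P : Finset (ℤ × ℤ)} (h : MPoly P) : Esc (P : Set (ℤ × ℤ)) :=
  esc_of_compl P.finite_toSet fun f hf g hg =>
    rtg_mono (fun _ _ hab => ⟨eAdj_iff_adjF.1 hab.2, hab.1⟩) (h.compl f hf g hg)

theorem MPoly.top_econn {P : Finset (ℤ × ℤ)} (h : MPoly P) : Top.EConn (P : Set (ℤ × ℤ)) :=
  econn_iff_top.1 h.conn

theorem MPoly.hasPot {P : Finset (ℤ × ℤ)} (h : MPoly P) : HasPot (P : Set (ℤ × ℤ)) :=
  h.esc.hasPot' P.finite_toSet

theorem IsPoly.esc {S : Finset (ℤ × ℤ)} (h : IsPoly S) : Esc (S : Set (ℤ × ℤ)) :=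
  esc_of_compl S.finite_toSet fun f hf g hg =>
    rtg_mono (fun _ _ hab => ⟨adj_iff_adjF.1 hab.1, hab.2⟩) (h.cconn f hf g hg).2

theorem IsPoly.top_econn {S : Finset (ℤ × ℤ)} (h : IsPoly S) : Top.EConn (S : Set (ℤ × ℤ)) :=
  fun f hf g hg => rtg_mono (fun _ _ hab => ⟨adj_iff_adjF.1 hab.1, hab.2⟩) (h.conn f hf g hg).2

theorem IsPoly.exists_ctr {S : Finset (ℤ × ℤ)} (h : IsPoly S) :
    ∃ m w, 0 < m ∧ Ctr (S : Set (ℤ × ℤ)) m w :=
  Top.exists_ctr S.finite_toSet (Finset.coe_nonempty.2 h.ne) h.top_econn h.esc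

theorem MPoly.isPoly {P : Finset (ℤ × ℤ)} (h : MPoly P) : IsPoly P :=
  ⟨h.nonempty,
    fun f hf g hg => ⟨hf, rtg_mono (fun _ _ hab => ⟨adj_iff_adjF.2 (eAdj_iff_adjF.1 hab.2), hab.1⟩)
      (h.conn f hf g hg)⟩,
    fun f hf g hg => ⟨hf, rtg_mono (fun _ _ hab => ⟨adj_iff_adjF.2 (eAdj_iff_adjF.1 hab.2), hab.1⟩)
      (h.compl f hf g hg)⟩⟩

/-! ### Directed boundary sides -/

theorem lside_iff {P : Finset (ℤ × ℤ)} {p q : ℤ × ℤ} :
    LSide P p q ↔ ∃ A, BD (P : Set (ℤ × ℤ)) A ∧ lf A = p ∧ rg A = q := by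
  obtain ⟨p1, p2⟩ := p
  constructor
  · rintro (⟨rfl, h1, h2⟩ | ⟨rfl, h1, h2⟩ | ⟨rfl, h1, h2⟩ | ⟨rfl, h1, h2⟩)
    · exact ⟨((p1, p2, false), true), ⟨by simpa [ahead] using h1, by simpa [ahead, rv] using h2⟩,
        by simp [lf], by simp [rg]⟩
    · exact ⟨((p1, p2, true), false), ⟨by simpa [ahead] using h1, by simpa [ahead, rv] using h2⟩,
        by simp [lf], by simp [rg]⟩
    · exact ⟨((p1 - 1, p2, false), false), ⟨by simpa [ahead] using h1,
        by simpa [ahead, rv] using h2⟩, by simp [lf], by simp [rg]⟩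
    · exact ⟨((p1, p2 - 1, true), true), ⟨by simpa [ahead] using h1,
        by simpa [ahead, rv] using h2⟩, by simp [lf], by simp [rg]⟩
  · rintro ⟨⟨⟨x, y, _ | _⟩, _ | _⟩, ⟨h1, h2⟩, h3, h4⟩
    · simp only [lf, Prod.mk.injEq] at h3
      obtain ⟨rfl, rfl⟩ := h3
      right; right; left
      refine ⟨by rw [← h4]; simp [rg], by simpa [ahead] using h1, by simpa [ahead, rv] using h2⟩
    · simp only [lf, Prod.mk.injEq] at h3
      obtain ⟨rfl, rfl⟩ := h3
      left
      refine ⟨by rw [← h4]; simp [rg], by simpa [ahead] using h1, by simpa [ahead, rv] using h2⟩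
    · simp only [lf, Prod.mk.injEq] at h3
      obtain ⟨rfl, rfl⟩ := h3
      right; left
      refine ⟨by rw [← h4]; simp [rg], by simpa [ahead] using h1, by simpa [ahead, rv] using h2⟩
    · simp only [lf, Prod.mk.injEq] at h3
      obtain ⟨rfl, rfl⟩ := h3
      right; right; right
      refine ⟨by rw [← h4]; simp [rg], by simpa [ahead] using h1, by simpa [ahead, rv] using h2⟩

/-- The four types of outgoing boundary sides. -/
theorem bd_cases {P : Finset (ℤ × ℤ)} {A : UE × Bool} (hA : BD (P : Set (ℤ × ℤ)) A) {u v : ℤ}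
    (hl : lf A = (u, v)) :
    (A = ((u, v, false), true) ∧ (u, v) ∈ P ∧ (u, v - 1) ∉ P) ∨
    (A = ((u, v, true), false) ∧ (u - 1, v) ∈ P ∧ (u, v) ∉ P) ∨
    (A = ((u - 1, v, false), false) ∧ (u - 1, v - 1) ∈ P ∧ (u - 1, v) ∉ P) ∨
    (A = ((u, v - 1, true), true) ∧ (u, v - 1) ∈ P ∧ (u - 1, v - 1) ∉ P) := by
  obtain ⟨⟨x, y, b⟩, c⟩ := A
  obtain ⟨a1, a2⟩ := hA
  cases b <;> cases c
  · simp only [lf, Prod.mk.injEq] at hl
    obtain ⟨h1, h2⟩ := hl
    obtain rfl : x = u - 1 := by omega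
    subst h2
    right; right; left
    exact ⟨rfl, by simpa [ahead] using a1, by simpa [ahead, rv] using a2⟩
  · simp only [lf, Prod.mk.injEq] at hl
    obtain ⟨rfl, rfl⟩ := hl
    left
    exact ⟨rfl, by simpa [ahead] using a1, by simpa [ahead, rv] using a2⟩
  · simp only [lf, Prod.mk.injEq] at hl
    obtain ⟨rfl, rfl⟩ := hl
    right; left
    exact ⟨rfl, by simpa [ahead] using a1, by simpa [ahead, rv] using a2⟩
  · simp only [lf, Prod.mk.injEq] at hl
    obtain ⟨h1, h2⟩ := hl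
    obtain rfl : y = v - 1 := by omega
    subst h1
    right; right; right
    exact ⟨rfl, by simpa [ahead] using a1, by simpa [ahead, rv] using a2⟩

/-- Without pinch points there is one outgoing boundary side at every boundary vertex. -/
theorem bd_eq_of_lf {P : Finset (ℤ × ℤ)} (h : NoPinch P) {A B : UE × Bool}
    (hA : BD (P : Set (ℤ × ℤ)) A) (hB : BD (P : Set (ℤ × ℤ)) B) (hl : lf A = lf B) : A = B := by
  obtain ⟨u, v, hw⟩ : ∃ u v, lf A = (u, v) := ⟨_, _, rfl⟩
  obtain ⟨p1, p2⟩ := h u v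
  rcases bd_cases hA hw with ⟨e, a, a'⟩ | ⟨e, a, a'⟩ | ⟨e, a, a'⟩ | ⟨e, a, a'⟩ <;>
    rcases bd_cases hB (hl.symm.trans hw) with ⟨e', b, b'⟩ | ⟨e', b, b'⟩ | ⟨e', b, b'⟩ | ⟨e', b, b'⟩
  all_goals first
    | exact e.trans e'.symm
    | exact (a' b).elim
    | exact (b' a).elim
    | exact (p1 ⟨a, b, b', a'⟩).elim
    | exact (p1 ⟨b, a, a', b'⟩).elim
    | exact (p2 ⟨a', b', a, b⟩).elim
    | exact (p2 ⟨b', a', b, a⟩).elim

/-! ### The contour -/

/-- **Every simple polygon has a contour**, which may start at any boundary side. -/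
theorem MPoly.exists_cont_from {P : Finset (ℤ × ℤ)} (h : MPoly P) {A : UE × Bool}
    (hA : BD (P : Set (ℤ × ℤ)) A) :
    ∃ (L : ℕ) (g : ℤ → ℤ × ℤ), Cont P L g ∧ ∀ i : ℕ, g i = lf ((sc (P : Set (ℤ × ℤ)))^[i] A) := by
  obtain ⟨m, hm, hper, hinj, hctr⟩ := exists_dctr P.finite_toSet h.top_econn h.esc hA
  have hm' : (0 : ℤ) < m := by exact_mod_cast hm
  set F : Set (ℤ × ℤ) := (P : Set (ℤ × ℤ)) with hF
  have hmod : ∀ i : ℕ, (sc F)^[i % m] A = (sc F)^[i] A := by
    intro i
    have key : ∀ k i : ℕ, (sc F)^[i + k * m] A = (sc F)^[i] A := by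
      intro k
      induction k with
      | zero => intro i; simp
      | succ k ih =>
        intro i
        rw [show i + (k + 1) * m = (i + k * m) + m by ring, Function.iterate_add_apply, hper]
        exact ih i
    conv_rhs => rw [← Nat.mod_add_div i m, mul_comm m]
    exact (key (i / m) (i % m)).symm
  set g : ℤ → ℤ × ℤ := fun k => lf ((sc F)^[(k % m).toNat] A) with hg
  have hgn : ∀ i : ℕ, g i = lf ((sc F)^[i] A) := by
    intro i
    simp only [hg]
    rw [show ((i : ℤ) % m).toNat = i % m by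
      rw [← Int.natCast_mod, Int.toNat_natCast], hmod]
  have hperg : ∀ k : ℤ, g (k + m) = g k := by
    intro k
    simp only [hg]
    rw [Int.add_emod_right]
  have hpm : ∀ (j : ℕ) (k : ℤ), g (k + j * m) = g k := by
    intro j
    induction j with
    | zero => intro k; simp
    | succ j ih =>
      intro k
      rw [show k + ((j + 1 : ℕ) : ℤ) * m = (k + j * m) + m by push_cast; ring, hperg]
      exact ih k
  -- every index can be made a natural number
  have hnat : ∀ k : ℤ, ∃ i : ℕ, (m : ℤ) ∣ k - i ∧ g k = g i ∧ g (k + 1) = g (i + 1) := by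
    intro k
    refine ⟨(k + k.natAbs * m).toNat, ?_, ?_, ?_⟩
    · have hnn : 0 ≤ k + k.natAbs * m := by
        have : (1 : ℤ) ≤ m := by omega
        nlinarith [abs_nonneg k, neg_abs_le k, Int.natCast_natAbs k]
      rw [Int.toNat_of_nonneg hnn]
      exact ⟨-(k.natAbs : ℤ), by ring⟩
    · have hnn : 0 ≤ k + k.natAbs * m := by
        have : (1 : ℤ) ≤ m := by omega
        nlinarith [abs_nonneg k, neg_abs_le k, Int.natCast_natAbs k]
      rw [Int.toNat_of_nonneg hnn, hpm]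
    · have hnn : 0 ≤ k + k.natAbs * m := by
        have : (1 : ℤ) ≤ m := by omega
        nlinarith [abs_nonneg k, neg_abs_le k, Int.natCast_natAbs k]
      rw [Int.toNat_of_nonneg hnn, show k + k.natAbs * m + 1 = (k + 1) + k.natAbs * m by ring, hpm]
  refine ⟨m, g, ⟨hm, hperg, ?_, ?_, ?_⟩, hgn⟩
  · intro k
    obtain ⟨i, -, h1, h2⟩ := hnat k
    rw [h1, h2, lside_iff]
    have h3 := hgn i
    have h4 := hgn (i + 1)
    push_cast at h4
    rw [h3, h4, Function.iterate_succ_apply', lf_sc]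
    exact ⟨_, hA.iterate i, rfl, rfl⟩
  · intro j k hjk
    obtain ⟨i, h1, h2, -⟩ := hnat j
    obtain ⟨l, h3, h4, -⟩ := hnat k
    rw [h2, h4, hgn, hgn] at hjk
    have h5 := bd_eq_of_lf h.noPinch (hA.iterate i) (hA.iterate l) hjk
    rw [← hmod i, ← hmod l] at h5
    have h6 := hinj _ (Nat.mod_lt _ hm) _ (Nat.mod_lt _ hm) h5
    have h7 : (m : ℤ) ∣ (i : ℤ) - l := by
      have : (l : ℤ) % m = (i : ℤ) % m := by exact_mod_cast h6.symm
      exact Int.ModEq.dvd this
    have h8 : j - k = (j - i) + ((i - l) - (k - l)) := by ring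
    rw [h8]
    exact dvd_add h1 (dvd_sub h7 h3)
  · intro p q hpq
    obtain ⟨B, hB, rfl, rfl⟩ := lside_iff.1 hpq
    obtain ⟨n, hn⟩ := contour_all P.finite_toSet h.top_econn h.esc hA hB.bdU
    have h1 := (hA.iterate n).eq_of_fst hB hn
    refine ⟨n, by rw [hgn, h1], ?_⟩
    have h4 := hgn (n + 1)
    push_cast at h4
    rw [h4, Function.iterate_succ_apply', lf_sc, h1]

theorem MPoly.exists_cont {P : Finset (ℤ × ℤ)} (h : MPoly P) :
    ∃ (L : ℕ) (g : ℤ → ℤ × ℤ), Cont P L g := by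
  obtain ⟨A, hA⟩ := exists_boundary P.finite_toSet (Finset.coe_nonempty.2 h.nonempty)
  obtain ⟨L, g, hc, -⟩ := h.exists_cont_from hA
  exact ⟨L, g, hc⟩

/-- The contour in the sense of `S7Defs`, with any starting point. -/
theorem Cont.ctr {P : Finset (ℤ × ℤ)} {L : ℕ} {g : ℤ → ℤ × ℤ} (h : Cont P L g)
    (hP : HasPot (P : Set (ℤ × ℤ))) (k₀ : ℤ) :
    Ctr (P : Set (ℤ × ℤ)) L (fun i => g (k₀ + i)) := by
  have hL : (0 : ℤ) < L := by exact_mod_cast h.pos
  have hstep : ∀ k : ℤ, ∃ A, BD (P : Set (ℤ × ℤ)) A ∧ lf A = g k ∧ rg A = g (k + 1) :=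
    fun k => lside_iff.1 (h.side k)
  have hper : ∀ (j : ℕ) (k : ℤ), g (k + j * L) = g k := by
    intro j
    induction j with
    | zero => intro k; simp
    | succ j ih =>
      intro k
      rw [show k + ((j + 1 : ℕ) : ℤ) * L = (k + j * L) + L by push_cast; ring, h.per]
      exact ih k
  have hdvd : ∀ j k : ℤ, (L : ℤ) ∣ j - k → g j = g k := by
    intro j k ⟨c, hc⟩
    rcases le_total 0 c with h0 | h0
    · have := hper c.toNat k
      rw [Int.toNat_of_nonneg h0] at this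
      rw [← this]
      congr 1
      linarith
    · have := hper (-c).toNat j
      rw [Int.toNat_of_nonneg (by omega)] at this
      rw [← this]
      congr 1
      linarith
  refine ⟨?_, ?_, ?_, ?_, hP⟩
  · simp only [Nat.cast_zero, add_zero]
    exact h.per k₀
  · intro i _
    obtain ⟨A, hA, h1, h2⟩ := hstep (k₀ + i)
    refine ⟨A.1, hA.bdU, ?_⟩
    have := joins_lf_rg A
    rw [h1, h2] at this
    simpa [add_assoc] using this
  · intro e he
    obtain ⟨d, hd⟩ := exists_BD he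
    obtain ⟨k, hk1, hk2⟩ := h.all (lf (e, d)) (rg (e, d)) (lside_iff.2 ⟨_, hd, rfl, rfl⟩)
    set i : ℤ := (k - k₀) % L with hi
    have i0 : 0 ≤ i := Int.emod_nonneg _ hL.ne'
    have i1 : i < L := Int.emod_lt_of_pos _ hL
    refine ⟨i.toNat, by omega, ?_⟩
    have e1 : g (k₀ + i) = g k := by
      apply hdvd
      refine ⟨-((k - k₀) / L), ?_⟩
      have := Int.mul_ediv_add_emod (k - k₀) L
      rw [hi]
      linarith
    have e2 : g (k₀ + i + 1) = g (k + 1) := by
      apply hdvd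
      refine ⟨-((k - k₀) / L), ?_⟩
      have := Int.mul_ediv_add_emod (k - k₀) L
      rw [hi]
      linarith
    have := joins_lf_rg ((e, d) : UE × Bool)
    rw [← hk1, ← hk2, ← e1, ← e2] at this
    simp only [Nat.cast_add, Nat.cast_one, Int.toNat_of_nonneg i0]
    rw [← add_assoc]
    exact this
  · intro i hi k hk e h1 h2
    obtain ⟨A, hA, a1, a2⟩ := hstep (k₀ + i)
    obtain ⟨B, hB, b1, b2⟩ := hstep (k₀ + k)
    have j1 := joins_lf_rg A
    have j2 := joins_lf_rg B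
    rw [a1, a2] at j1
    rw [b1, b2] at j2
    have h1' : Joins e (g (k₀ + i)) (g (k₀ + i + 1)) := by simpa [add_assoc] using h1
    have h2' : Joins e (g (k₀ + k)) (g (k₀ + k + 1)) := by simpa [add_assoc] using h2
    have e1 := Joins.uniq j1 h1'
    have e2 := Joins.uniq j2 h2'
    have h3 := hA.eq_of_fst hB (e1.trans e2.symm)
    rw [h3, b1] at a1
    have h4 := h.inj _ _ a1.symm
    obtain ⟨c, hc⟩ := h4
    have h5 : (i : ℤ) - k = L * c := by linarith
    have h6 : |(i : ℤ) - k| < L := by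
      rw [abs_lt]
      constructor <;> omega
    rw [h5, abs_mul, abs_of_pos hL] at h6
    have h7 : |c| < 1 := by
      by_contra hh
      push Not at hh
      nlinarith
    have h8 : c = 0 := Int.abs_lt_one_iff.1 h7
    rw [h8] at h5
    omega

theorem MPoly.ctr {P : Finset (ℤ × ℤ)} (hP : MPoly P) {L : ℕ} {g : ℤ → ℤ × ℤ} (h : Cont P L g)
    (k₀ : ℤ) : Ctr (P : Set (ℤ × ℤ)) L (fun i => g (k₀ + i)) := h.ctr hP.hasPot k₀

end Pool.Agent.SixB
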