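import Pool.Agent.Lib.SixB.S6KC
import Pool.Agent.Lib.SixB.S4Bridge
import Pool.Agent.Lib.SixB.S4Move
import Pool.Agent.Lib.SixB.CARf
import Pool.Agent.Lib.SixB.TopCA

/-!
# 6BD, block CA: weights and boundary heights of an environment along a contour

`Cont F m b` (contour, `F` on the left), `sdB b k = (b k, b (k + 1))` directed side. `mtc F m b B ω`: the matching
of the sides `B, …, B + m - 1` (positions relative to `B`).
* `mem_bS_iff`: the sides are exactly the boundary sides `bS`;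
* `mate_sdB`: `mate` of the side `B + i` is the side `B + τ i`;
* `WEnv.W_opC`, `WEnv.num_sdB`: weight and numerator of the arrow of a side for EVERY environment;
* `WEnv.sum_mA`: sum of mean arrows along the boundary = average of the arcs over the vertex.
-/

set_option autoImplicit false

namespace Pool.Agent.SixB

open Pool.Agent.Perc Pool.Agent.Perc.Q Pool.Agent.Perc6 Pool.Agent.SixB.Tilt Relation

noncomputable section

variable {F : Finset (ℤ × ℤ)} {m : ℕ} {b : ℤ → ℤ × ℤ} {ω : Cfg} {B : ℤ} {τ : ℕ → ℕ}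

/-- directed side of a contour -/
def sdB (b : ℤ → ℤ × ℤ) (k : ℤ) : DZ := (b k, b (k + 1))

/-- a boundary side with the domain on the left is a boundary side in the sense of `bS` -/
theorem LSide.mem_bS {p q : ℤ × ℤ} (h : LSide F p q) : ((p, q) : DZ) ∈ bS ZQ F := by
  obtain ⟨x, y⟩ := p
  have key : ∀ (f : ℤ × ℤ) (k : ZMod 4), f ∈ F → ((x, y), q) = sd ZQ f k →
      (∀ f' ∈ F, ∀ k', ((x, y), q) ≠ (sd ZQ f' k').swap) → (((x, y), q) : DZ) ∈ bS ZQ F := by
    intro f k hf h1 h2
    refine SixB.mem_bS.mpr ⟨?_, ?_⟩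
    · rw [h1]; exact sd_mem hf k
    · intro f' hf' k' h3
      exact h2 f' (by exact_mod_cast hf') k' h3
  rcases h with ⟨rfl, h1, h2⟩ | ⟨rfl, h1, h2⟩ | ⟨rfl, h1, h2⟩ | ⟨rfl, h1, h2⟩ <;> dsimp only at *
  · refine key (x, y) 0 h1 rfl ?_
    rintro ⟨u, v⟩ hf' k' h3
    rcases k4 k' with rfl | rfl | rfl | rfl
    · change ((x, y), (x + 1, y)) = ((u + 1, v), (u, v)) at h3
      simp only [Prod.mk.injEq] at h3; omega
    · change ((x, y), (x + 1, y)) = ((u + 1, v + 1), (u + 1, v)) at h3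
      simp only [Prod.mk.injEq] at h3; omega
    · change ((x, y), (x + 1, y)) = ((u, v + 1), (u + 1, v + 1)) at h3
      simp only [Prod.mk.injEq] at h3
      have e1 : u = x := by omega
      have e2 : v = y - 1 := by omega
      rw [e1, e2] at hf'
      exact h2 hf'
    · change ((x, y), (x + 1, y)) = ((u, v), (u, v + 1)) at h3
      simp only [Prod.mk.injEq] at h3; omega
  · refine key (x - 1, y) 1 h1 ?_ ?_
    · show ((x, y), (x, y + 1)) = ((x - 1 + 1, y), (x - 1 + 1, y + 1))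
      simp
    rintro ⟨u, v⟩ hf' k' h3
    rcases k4 k' with rfl | rfl | rfl | rfl
    · change ((x, y), (x, y + 1)) = ((u + 1, v), (u, v)) at h3
      simp only [Prod.mk.injEq] at h3; omega
    · change ((x, y), (x, y + 1)) = ((u + 1, v + 1), (u + 1, v)) at h3
      simp only [Prod.mk.injEq] at h3; omega
    · change ((x, y), (x, y + 1)) = ((u, v + 1), (u + 1, v + 1)) at h3
      simp only [Prod.mk.injEq] at h3; omega
    · change ((x, y), (x, y + 1)) = ((u, v), (u, v + 1)) at h3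
      simp only [Prod.mk.injEq] at h3
      have e1 : u = x := by omega
      have e2 : v = y := by omega
      rw [e1, e2] at hf'
      exact h2 hf'
  · refine key (x - 1, y - 1) 2 h1 ?_ ?_
    · show ((x, y), (x - 1, y)) = ((x - 1 + 1, y - 1 + 1), (x - 1, y - 1 + 1))
      simp
    rintro ⟨u, v⟩ hf' k' h3
    rcases k4 k' with rfl | rfl | rfl | rfl
    · change ((x, y), (x - 1, y)) = ((u + 1, v), (u, v)) at h3
      simp only [Prod.mk.injEq] at h3
      have e1 : u = x - 1 := by omega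
      have e2 : v = y := by omega
      rw [e1, e2] at hf'
      exact h2 hf'
    · change ((x, y), (x - 1, y)) = ((u + 1, v + 1), (u + 1, v)) at h3
      simp only [Prod.mk.injEq] at h3; omega
    · change ((x, y), (x - 1, y)) = ((u, v + 1), (u + 1, v + 1)) at h3
      simp only [Prod.mk.injEq] at h3; omega
    · change ((x, y), (x - 1, y)) = ((u, v), (u, v + 1)) at h3
      simp only [Prod.mk.injEq] at h3; omega
  · refine key (x, y - 1) 3 h1 ?_ ?_
    · show ((x, y), (x, y - 1)) = ((x, y - 1 + 1), (x, y - 1))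
      simp
    rintro ⟨u, v⟩ hf' k' h3
    rcases k4 k' with rfl | rfl | rfl | rfl
    · change ((x, y), (x, y - 1)) = ((u + 1, v), (u, v)) at h3
      simp only [Prod.mk.injEq] at h3; omega
    · change ((x, y), (x, y - 1)) = ((u + 1, v + 1), (u + 1, v)) at h3
      simp only [Prod.mk.injEq] at h3
      have e1 : u = x - 1 := by omega
      have e2 : v = y - 1 := by omega
      rw [e1, e2] at hf'
      exact h2 hf'
    · change ((x, y), (x, y - 1)) = ((u, v + 1), (u + 1, v + 1)) at h3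
      simp only [Prod.mk.injEq] at h3; omega
    · change ((x, y), (x, y - 1)) = ((u, v), (u, v + 1)) at h3
      simp only [Prod.mk.injEq] at h3; omega

/-- a boundary side in the sense of `bS` has the domain on the left -/
theorem lside_of_mem_bS {a : DZ} (h : a ∈ bS ZQ F) : LSide F a.1 a.2 := by
  obtain ⟨h1, h2⟩ := SixB.mem_bS.mp h
  obtain ⟨⟨x, y⟩, hf, k, rfl | rfl⟩ := mem_dE.mp h1
  · have hno : ∀ f' : ℤ × ℤ, ∀ k', sd ZQ (x, y) k = (sd ZQ f' k').swap → f' ∉ F := by
      intro f' k' h3 hf'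
      exact h2 f' (by exact_mod_cast hf') k' h3
    rcases k4 k with rfl | rfl | rfl | rfl
    · left
      refine ⟨rfl, hf, hno (x, y - 1) 2 ?_⟩
      show ((x, y), (x + 1, y)) = ((x, y - 1 + 1), (x + 1, y - 1 + 1))
      simp
    · right; left
      refine ⟨rfl, ?_, hno (x + 1, y) 3 ?_⟩
      · show (x + 1 - 1, y) ∈ F
        simpa using hf
      · rfl
    · right; right; left
      refine ⟨?_, ?_, ?_⟩
      · show (x, y + 1) = (x + 1 - 1, y + 1)
        simp
      · show (x + 1 - 1, y + 1 - 1) ∈ F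
        simpa using hf
      · show (x + 1 - 1, y + 1) ∉ F
        have := hno (x, y + 1) 0 rfl
        simpa using this
    · right; right; right
      refine ⟨?_, ?_, ?_⟩
      · show (x, y) = (x, y + 1 - 1)
        simp
      · show (x, y + 1 - 1) ∈ F
        simpa using hf
      · show (x - 1, y + 1 - 1) ∉ F
        have := hno (x - 1, y) 1 (by
          show ((x, y + 1), (x, y)) = ((x - 1 + 1, y + 1), (x - 1 + 1, y))
          simp)
        simpa using this
  · exact absurd rfl (h2 (x, y) (by exact_mod_cast hf) k)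

variable (hb : Cont F m b)

include hb

theorem Cont.sdB_mem (k : ℤ) : sdB b k ∈ bS ZQ F := (hb.side k).mem_bS

theorem Cont.bS_eq {a : DZ} (ha : a ∈ bS ZQ F) : ∃ k : ℤ, a = sdB b k := by
  obtain ⟨k, h1, h2⟩ := hb.all _ _ (lside_of_mem_bS ha)
  exact ⟨k, by unfold sdB; rw [h1, h2]⟩

theorem Cont.per_mulC (k j : ℤ) : b (k + j * m) = b k := by
  induction j using Int.induction_on with
  | zero => simp
  | succ j ih =>
    rw [show k + ((j : ℤ) + 1) * m = (k + j * m) + m by ring, hb.per, ih]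
  | pred j ih =>
    rw [← ih, ← hb.per (k + (-(j : ℤ) - 1) * m)]
    congr 1
    ring

theorem Cont.sdB_per (k j : ℤ) : sdB b (k + j * m) = sdB b k := by
  unfold sdB
  rw [hb.per_mulC, show k + j * m + 1 = (k + 1) + j * m by ring, hb.per_mulC]

theorem Cont.bS_pos (B : ℤ) {a : DZ} (ha : a ∈ bS ZQ F) : ∃ i : ℕ, i < m ∧ a = sdB b (B + i) := by
  obtain ⟨k, rfl⟩ := hb.bS_eq ha
  have h0 : (0 : ℤ) < m := by exact_mod_cast hb.pos
  have h1 := Int.emod_nonneg (k - B) h0.ne'
  have h2 := Int.emod_lt_of_pos (k - B) h0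
  have h3 := Int.mul_ediv_add_emod (k - B) m
  refine ⟨((k - B) % m).toNat, by omega, ?_⟩
  rw [Int.toNat_of_nonneg h1]
  rw [show k = B + (k - B) % m + ((k - B) / m) * m by linarith [mul_comm (m : ℤ) ((k - B) / m)]]
  rw [hb.sdB_per]
  congr 2
  have e1 : (B + (k - B) % m + (k - B) / m * m - B) = k - B := by
    linarith [mul_comm (m : ℤ) ((k - B) / m)]
  rw [e1]

theorem Cont.sdB_inj (B : ℤ) {i k : ℕ} (hi : i < m) (hk : k < m) (h : sdB b (B + i) = sdB b (B + k)) :
    i = k := by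
  have h1 : b (B + i) = b (B + k) := congrArg Prod.fst h
  obtain ⟨c, hc⟩ := hb.inj _ _ h1
  have h0 : (0 : ℤ) < m := by exact_mod_cast hb.pos
  have hc0 : c = 0 := by
    by_contra hcne
    rcases lt_or_gt_of_ne hcne with h5 | h5
    · nlinarith
    · nlinarith
  rw [hc0] at hc
  omega

/-- the other end of the strand of a side -/
theorem Cont.mate_sdB (hτ : Mated F m (fun k : ℕ => b (B + k)) ω τ) {i : ℕ} (hi : i < m) :
    mate ZQ F ω (sdB b (B + i)) = sdB b (B + τ i) := by
  obtain ⟨h1, h2, h3, h4⟩ := hτ i hi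
  have ha := hb.sdB_mem (B + i)
  have hc := hb.sdB_mem (B + τ i)
  obtain ⟨ha1, ha2⟩ := SixB.mem_bS.mp ha
  obtain ⟨hc1, hc2⟩ := SixB.mem_bS.mp hc
  have e1 : Joins (und (sdB b (B + i))) (b (B + i)) (b (B + (i + 1 : ℕ))) := by
    have := joins_und ha1
    push_cast
    rw [← add_assoc]
    exact this
  have e2 : Joins (und (sdB b (B + τ i))) (b (B + τ i)) (b (B + (τ i + 1 : ℕ))) := by
    have := joins_und hc1
    push_cast
    rw [← add_assoc]
    exact this
  have h5 := (h4 _ e1).1 _ e2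
  rw [MM_iff ha1 hc1] at h5
  rcases h5 with h5 | h5
  · have h6 := ini_unique ha2 hc2 h5
    exact absurd (hb.sdB_inj B hi h1 h6).symm h2
  · have h6 := mate_unique (ω := ω) ha2 (ter_swap.mpr hc2) h5
    rwa [Prod.swap_swap] at h6

omit hb

/-- first sides of the arcs -/
def opC (m : ℕ) (τ : ℕ → ℕ) : Finset ℕ := (Finset.range m).filter fun i => i < τ i

theorem mem_opC {i : ℕ} : i ∈ opC m τ ↔ i < m ∧ i < τ i := by
  unfold opC
  rw [Finset.mem_filter, Finset.mem_range]

/-- arcs over the vertex `v` -/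
def ovC (m : ℕ) (τ : ℕ → ℕ) (v : ℕ) : Finset ℕ := (Finset.range m).filter fun i => i < v ∧ v ≤ τ i

theorem mem_ovC {i v : ℕ} : i ∈ ovC m τ v ↔ i < m ∧ i < v ∧ v ≤ τ i := by
  unfold ovC
  rw [Finset.mem_filter, Finset.mem_range]

theorem ovC_subset {v : ℕ} : ovC m τ v ⊆ opC m τ := by
  intro i hi
  rw [mem_ovC] at hi
  rw [mem_opC]
  omega

include hb

theorem Cont.arcs_eq (hτ : Mated F m (fun k : ℕ => b (B + k)) ω τ) :
    arcs ZQ F ω = (opC m τ).image fun i : ℕ => s(sdB b (B + i), sdB b (B + τ i)) := by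
  classical
  ext p
  rw [mem_arcs, Finset.mem_image]
  constructor
  · rintro ⟨a, ha, rfl⟩
    obtain ⟨i, hi, rfl⟩ := hb.bS_pos B ha
    obtain ⟨h1, h2, h3, -⟩ := hτ i hi
    rw [hb.mate_sdB hτ hi]
    rcases Nat.lt_or_gt_of_ne h2 with h4 | h4
    · refine ⟨τ i, mem_opC.mpr ⟨h1, by rw [h3]; exact h4⟩, ?_⟩
      simp only [h3]
      exact Sym2.eq_swap
    · exact ⟨i, mem_opC.mpr ⟨hi, h4⟩, rfl⟩
  · rintro ⟨i, hi, rfl⟩
    obtain ⟨hi1, hi2⟩ := mem_opC.mp hi
    exact ⟨_, hb.sdB_mem _, by rw [hb.mate_sdB hτ hi1]⟩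

theorem Cont.arcs_inj (hτ : Mated F m (fun k : ℕ => b (B + k)) ω τ) {i k : ℕ} (hi : i ∈ opC m τ)
    (hk : k ∈ opC m τ)
    (h : (s(sdB b (B + i), sdB b (B + τ i)) : Sym2 DZ) = s(sdB b (B + k), sdB b (B + τ k))) :
    i = k := by
  obtain ⟨hi1, hi2⟩ := mem_opC.mp hi
  obtain ⟨hk1, hk2⟩ := mem_opC.mp hk
  obtain ⟨h1, h2, h3, -⟩ := hτ i hi1
  obtain ⟨h4, h5, h6, -⟩ := hτ k hk1
  rcases Sym2.eq_iff.mp h with h7 | h7
  · exact hb.sdB_inj B hi1 hk1 h7.1
  · have h8 := hb.sdB_inj B hi1 h4 h7.1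
    have h9 := hb.sdB_inj B h1 hk1 h7.2
    omega

/-- **The weight of a configuration.** -/
theorem Cont.W_opC (E : WEnv) (hF : E.F = F) (hτ : Mated F m (fun k : ℕ => b (B + k)) ω τ) :
    E.W ω = ∏ i ∈ opC m τ, E.t (sdB b (B + i)) (sdB b (B + τ i)) := by
  classical
  unfold WEnv.W
  rw [hF, hb.arcs_eq hτ, Finset.prod_image fun i hi k hk h => hb.arcs_inj hτ hi hk h]
  rfl

omit hb in
/-- numerator of the arc of the side `i` -/
def pEC (E : WEnv) (b : ℤ → ℤ × ℤ) (B : ℤ) (m : ℕ) (τ : ℕ → ℕ) (i : ℕ) : ℝ :=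
  E.s (sdB b (B + i)) (sdB b (B + τ i)) *
    ∏ l ∈ (opC m τ).erase i, E.t (sdB b (B + l)) (sdB b (B + τ l))

theorem Cont.prod_erase (E : WEnv) (hτ : Mated F m (fun k : ℕ => b (B + k)) ω τ) {i : ℕ}
    (hi : i ∈ opC m τ) :
    ∏ p ∈ (arcs ZQ F ω).erase s(sdB b (B + i), sdB b (B + τ i)), E.T p =
      ∏ l ∈ (opC m τ).erase i, E.t (sdB b (B + l)) (sdB b (B + τ l)) := by
  classical
  have e1 : (arcs ZQ F ω).erase s(sdB b (B + i), sdB b (B + τ i)) =
      ((opC m τ).erase i).image fun l : ℕ => s(sdB b (B + l), sdB b (B + τ l)) := by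
    rw [hb.arcs_eq hτ]
    ext p
    rw [Finset.mem_erase, Finset.mem_image, Finset.mem_image]
    constructor
    · rintro ⟨h1, l, hl, rfl⟩
      exact ⟨l, Finset.mem_erase.mpr ⟨fun h => h1 (by rw [h]), hl⟩, rfl⟩
    · rintro ⟨l, hl, rfl⟩
      obtain ⟨h2, h3⟩ := Finset.mem_erase.mp hl
      exact ⟨fun h => h2 (hb.arcs_inj hτ h3 hi h), l, h3, rfl⟩
  rw [e1, Finset.prod_image fun l hl k hk h => hb.arcs_inj hτ (Finset.mem_of_mem_erase hl)
    (Finset.mem_of_mem_erase hk) h]
  rfl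

theorem Cont.num_eq (E : WEnv) (hF : E.F = F) {a : DZ} (ha : a ∈ bS ZQ F) :
    E.num ω a = E.s a (mate ZQ F ω a) *
      ∏ p ∈ (arcs ZQ F ω).erase s(a, mate ZQ F ω a), E.T p := by
  classical
  obtain ⟨h1, h2⟩ := SixB.mem_bS.mp ha
  have hnc : ¬ Clo ZQ F ω a := by
    rw [clo_iff h1]
    intro h
    exact h a (self_mem_dst h1) h2
  have hst : stt F ω a = a := by
    obtain ⟨h3, h4⟩ := start_spec h1 hnc
    exact ini_unique (SixB.mem_bS.mp h3).2 h2 h4
  unfold WEnv.num arcE
  rw [hF, if_neg hnc, hst]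

/-- **The numerator of the arrow of a side.** -/
theorem Cont.num_sdB (E : WEnv) (hF : E.F = F) (hτ : Mated F m (fun k : ℕ => b (B + k)) ω τ) {i : ℕ}
    (hi : i < m) : E.num ω (sdB b (B + i)) = if i < τ i then pEC E b B m τ i else -pEC E b B m τ (τ i) := by
  obtain ⟨h1, h2, h3, -⟩ := hτ i hi
  rw [hb.num_eq E hF (hb.sdB_mem _), hb.mate_sdB hτ hi]
  split_ifs with h4
  · rw [hb.prod_erase E hτ (mem_opC.mpr ⟨hi, h4⟩)]
    rfl
  · have h5 : τ i ∈ opC m τ := mem_opC.mpr ⟨h1, by rw [h3]; omega⟩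
    have h6 := hb.prod_erase E hτ h5
    rw [h3, Sym2.eq_swap] at h6
    rw [h6]
    unfold pEC
    rw [h3, E.s_anti (sdB b (B + i)) (sdB b (B + τ i))]
    ring

theorem Cont.sum_num (E : WEnv) (hF : E.F = F) (hτ : Mated F m (fun k : ℕ => b (B + k)) ω τ) {v : ℕ}
    (hv : v ≤ m) : ∑ i ∈ Finset.range v, E.num ω (sdB b (B + i)) =
      ∑ i ∈ ovC m τ v, pEC E b B m τ i := by
  induction v with
  | zero =>
    rw [Finset.sum_range_zero]
    symm
    apply Finset.sum_eq_zero
    intro i hi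
    rw [mem_ovC] at hi
    omega
  | succ v ih =>
    rw [Finset.sum_range_succ, ih (by omega), hb.num_sdB E hF hτ (by omega)]
    obtain ⟨h1, h2, h3, -⟩ := hτ v (by omega)
    split_ifs with h4
    · have e : ovC m τ (v + 1) = insert v (ovC m τ v) := by
        ext i
        rw [Finset.mem_insert, mem_ovC, mem_ovC]
        constructor
        · rintro ⟨h5, h6, h7⟩
          rcases Nat.lt_succ_iff_lt_or_eq.mp h6 with h8 | h8
          · exact Or.inr ⟨h5, h8, by omega⟩
          · exact Or.inl h8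
        · rintro (rfl | ⟨h5, h6, h7⟩)
          · exact ⟨by omega, by omega, h4⟩
          · refine ⟨h5, by omega, ?_⟩
            by_contra h8
            have h9 : τ i = v := by omega
            have h10 := (hτ i h5).2.2.1
            rw [h9] at h10
            omega
      rw [e, Finset.sum_insert]
      · ring
      · rw [mem_ovC]; omega
    · have e : ovC m τ v = insert (τ v) (ovC m τ (v + 1)) := by
        ext i
        rw [Finset.mem_insert, mem_ovC, mem_ovC]
        constructor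
        · rintro ⟨h5, h6, h7⟩
          by_cases h8 : τ i = v
          · left
            have h10 := (hτ i h5).2.2.1
            rw [h8] at h10
            exact h10.symm
          · exact Or.inr ⟨h5, by omega, by omega⟩
        · rintro (rfl | ⟨h5, h6, h7⟩)
          · refine ⟨h1, by omega, ?_⟩
            rw [h3]
          · refine ⟨h5, ?_, by omega⟩
            by_contra h8
            have h9 : i = v := by omega
            rw [h9] at h7
            omega
      rw [e, Finset.sum_insert]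
      · ring
      · rw [mem_ovC, h3]; omega

omit hb

open Classical in
/-- the matching of the sides, positions relative to `B` -/
def mtc (F : Finset (ℤ × ℤ)) (m : ℕ) (b : ℤ → ℤ × ℤ) (B : ℤ) (ω : Cfg) : ℕ → ℕ :=
  if h : ∃ τ, Mated F m (fun k : ℕ => b (B + k)) ω τ then h.choose else id

theorem mtc_mated (h : Ctr (F : Set (ℤ × ℤ)) m (fun k : ℕ => b (B + k))) (ω : Cfg) :
    Mated F m (fun k : ℕ => b (B + k)) ω (mtc F m b B ω) := by
  classical
  have hex := exists_mated h ω
  unfold mtc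
  rw [dif_pos hex]
  exact hex.choose_spec

include hb

/-- **Sum of the mean arrows of the boundary sides.** -/
theorem Cont.sum_mA (hP : HasPot (F : Set (ℤ × ℤ))) (E : WEnv) (hF : E.F = F) (B : ℤ) {v : ℕ}
    (hv : v ≤ m) : ∑ i ∈ Finset.range v, E.mA (sdB b (B + i)) =
      av F (fun ω => ∑ i ∈ ovC m (mtc F m b B ω) v, pEC E b B m (mtc F m b B ω) i) / E.Z := by
  unfold WEnv.mA
  rw [← Finset.sum_div, hF, ← av_sum]
  congr 1
  refine av_congr fun T _ => ?_
  exact hb.sum_num E hF (mtc_mated (hb.ctr hP B) _) hv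

theorem Cont.Z_eq (hP : HasPot (F : Set (ℤ × ℤ))) (E : WEnv) (hF : E.F = F) (B : ℤ) :
    E.Z = av F (fun ω => ∏ i ∈ opC m (mtc F m b B ω),
      E.t (sdB b (B + i)) (sdB b (B + (mtc F m b B ω) i))) := by
  unfold WEnv.Z
  rw [hF]
  exact av_congr fun T _ => hb.W_opC E hF (mtc_mated (hb.ctr hP B) _)

end

end Pool.Agent.SixB
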