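import Pool.Agent.Lib.SixB.S6Defs
import Pool.Agent.Lib.SixB.AN6
import Pool.Agent.Lib.SixB.AN3P

/-!
# 6BD block CA: from the lattice inputs to the limit (abstract, any filter)

Index type `ι` (scale and moving marks), filter `l` on `ι`. `AE l F D` (AN6): asymptotic
equicontinuity on the compact subsets of `D`.
* `ascoli_rel`: compactness along an ultrafilter on `S ∩ O`, `S` closed, `O` open.
* `AH l P X F`: `F` is bounded and asymptotically equicontinuous off `X`, its limits are harmonic in `Om P` and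
  satisfy the Neumann condition at the wall points off `X`. Closed under linear combinations.
* `AH.limit`: along an ultrafilter there is a limit `U` with `NHarm P X U`.
* `ca1`: if moreover `F` is asymptotically equicontinuous off the pole `x` and of logarithmic growth at `x`,
  then it has constant limits.
* `ca2`: integration over the path `α ∈ [0,1]` (dominated convergence).
-/

set_option autoImplicit false

namespace Pool.Agent.SixB

open Filter Topology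
open DC (AE ascoli_ultra')

noncomputable section

variable {ι : Type*}

/-- Compactness along an ultrafilter on a locally closed set. -/
theorem ascoli_rel (u : Ultrafilter ι) {F : ι → ℂ → ℝ} {S O : Set ℂ} (hS : IsClosed S) (hO : IsOpen O)
    (h : AE (u : Filter ι) F (S ∩ O))
    (hb : ∀ z ∈ S ∩ O, ∃ C : ℝ, ∀ᶠ i in (u : Filter ι), |F i z| ≤ C) :
    ∃ U : ℂ → ℝ, ContinuousOn U (S ∩ O) ∧ TendstoLocallyUniformlyOn F U u (S ∩ O) := by
  classical
  have : LocallyCompactSpace S := hS.locallyCompactSpace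
  let F' : ι → S → ℝ := fun i z => F i z
  let D' : Set S := Subtype.val ⁻¹' O
  have hD' : IsOpen D' := hO.preimage continuous_subtype_val
  have h' : AE (u : Filter ι) F' D' := by
    intro K hK hKc ε hε
    obtain ⟨δ, hδ, h1⟩ := h (Subtype.val '' K) (by
      rintro _ ⟨z, hz, rfl⟩
      exact ⟨z.2, hK hz⟩) (hKc.image continuous_subtype_val) ε hε
    refine ⟨δ, hδ, ?_⟩
    filter_upwards [h1] with i hi z hz w hw hzw
    exact hi z ⟨z, hz, rfl⟩ w ⟨w, hw, rfl⟩ hzw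
  obtain ⟨U', hU', hT'⟩ := ascoli_ultra' u h' hD' (by
    intro z hz
    obtain ⟨C, hC⟩ := hb z ⟨z.2, hz⟩
    refine ⟨0, C, ?_⟩
    filter_upwards [hC] with i hi
    rw [Real.dist_eq, sub_zero]
    exact hi)
  refine ⟨fun z => if hz : z ∈ S then U' ⟨z, hz⟩ else 0, ?_, ?_⟩
  · rw [Metric.continuousOn_iff] at hU' ⊢
    intro b hb ε hε
    obtain ⟨δ, hδ, h1⟩ := hU' ⟨b, hb.1⟩ hb.2 ε hε
    refine ⟨δ, hδ, fun a ha hab => ?_⟩
    rw [dif_pos ha.1, dif_pos hb.1]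
    exact h1 ⟨a, ha.1⟩ ha.2 hab
  · rw [Metric.tendstoLocallyUniformlyOn_iff] at hT' ⊢
    intro ε hε x hx
    obtain ⟨t, ht, h1⟩ := hT' ε hε ⟨x, hx.1⟩ hx.2
    obtain ⟨r, hr, h2⟩ := Metric.mem_nhdsWithin_iff.1 ht
    refine ⟨Metric.ball x r ∩ (S ∩ O), ?_, ?_⟩
    · exact inter_mem_nhdsWithin' (Metric.ball_mem_nhds x hr)
    · filter_upwards [h1] with i hi y hy
      rw [dif_pos hy.2.1]
      exact hi ⟨y, hy.2.1⟩ (h2 ⟨hy.1, hy.2.2⟩)
where
  inter_mem_nhdsWithin' {x : ℂ} {A B : Set ℂ} (h : A ∈ 𝓝 x) : A ∩ B ∈ 𝓝[B] x := by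
    rw [Set.inter_comm]
    exact inter_mem_nhdsWithin B h

/-- moving points -/
theorem ae_seq {l : Filter ι} {D : Set ℂ} {F : ι → ℂ → ℝ} (h : AE l F D) {z : ℂ} {zn : ι → ℂ}
    (hz : D ∈ 𝓝 z) (ht : Tendsto zn l (𝓝 z)) :
    Tendsto (fun i => F i (zn i) - F i z) l (𝓝 0) := by
  obtain ⟨K, hK, hKD, hKc⟩ := local_compact_nhds hz
  rw [Metric.tendsto_nhds]
  intro ε hε
  obtain ⟨δ, hδ, h1⟩ := h K hKD hKc ε hε
  filter_upwards [h1, ht hK, ht (Metric.ball_mem_nhds z hδ)] with i h1 h2 h3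
  rw [Real.dist_eq, sub_zero, ← Real.dist_eq]
  exact h1 _ h2 _ (mem_of_mem_nhds hK) h3

/-- moving points, relative version: `zn i ∈ S`, `D = S ∩ O`. -/
theorem ae_seq' {l : Filter ι} {S O : Set ℂ} (hS : IsClosed S) (hO : IsOpen O) {F : ι → ℂ → ℝ}
    (h : AE l F (S ∩ O)) {z : ℂ} {zn : ι → ℂ}
    (hz : z ∈ S ∩ O) (hzn : ∀ᶠ i in l, zn i ∈ S) (ht : Tendsto zn l (𝓝 z)) :
    Tendsto (fun i => F i (zn i) - F i z) l (𝓝 0) := by
  obtain ⟨K, hK, hKD, hKc⟩ := local_compact_nhds (hO.mem_nhds hz.2)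
  have hSK : IsCompact (S ∩ K) := hKc.inter_left hS
  rw [Metric.tendsto_nhds]
  intro ε hε
  obtain ⟨δ, hδ, h1⟩ := h (S ∩ K) (Set.inter_subset_inter_right S hKD) hSK ε hε
  filter_upwards [h1, ht hK, hzn, ht (Metric.ball_mem_nhds z hδ)] with i h1 h2 h4 h3
  rw [Real.dist_eq, sub_zero, ← Real.dist_eq]
  exact h1 _ ⟨h4, h2⟩ _ ⟨hz.1, mem_of_mem_nhds hK⟩ h3

private theorem sp_smul_self {ν : ℂ} (hν : IsDir ν) (t : ℝ) : sp ((t : ℂ) * ν) ν = t := by
  rcases hν with rfl | rfl | rfl | rfl <;> simp [sp]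

private theorem sp_add (a b ν : ℂ) : sp (a + b) ν = sp a ν + sp b ν := by
  simp [sp]; ring

private theorem norm_dir {ν : ℂ} (hν : IsDir ν) : ‖ν‖ = 1 := by
  rcases hν with rfl | rfl | rfl | rfl <;> simp

theorem Wall.mem {P : Finset (ℤ × ℤ)} {p ν : ℂ} (h : Wall P p ν) : p ∈ Cl P := by
  obtain ⟨-, r, hr, h⟩ := h
  rw [h p (by simpa using hr)]
  simp [sp]

theorem Wall.notMem_Om {P : Finset (ℤ × ℤ)} {p ν : ℂ} (h : Wall P p ν) : p ∉ Om P := by
  obtain ⟨hν, r, hr, h⟩ := h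
  intro hp
  obtain ⟨s, hs, hs2⟩ := Metric.isOpen_iff.1 isOpen_interior p hp
  set t : ℝ := min (r / 2) (s / 2) with ht
  have ht0 : 0 < t := by positivity
  have hz : ‖(p + ((-t : ℝ) : ℂ) * ν) - p‖ = t := by
    rw [add_sub_cancel_left, norm_mul, norm_dir hν, Complex.norm_real, mul_one, Real.norm_eq_abs, abs_neg,
      abs_of_pos ht0]
  have h1 : (p + ((-t : ℝ) : ℂ) * ν) ∈ Cl P := by
    apply interior_subset
    apply hs2
    rw [Metric.mem_ball, dist_eq_norm, hz]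
    have : t ≤ s / 2 := min_le_right _ _
    linarith
  have h2 := (h _ (by rw [hz]; have : t ≤ r / 2 := min_le_left _ _; linarith)).1 h1
  rw [add_sub_cancel_left, sp_smul_self hν] at h2
  linarith

/-- near a wall point the segment into the domain stays in the closed region -/
theorem Wall.step {P : Finset (ℤ × ℤ)} {p ν : ℂ} (h : Wall P p ν) :
    ∃ r > 0, ∀ q : ℂ, q ∈ Cl P → ‖q - p‖ < r → ∀ t : ℝ, 0 < t → t < r → q + t * ν ∈ Cl P := by
  obtain ⟨hν, r, hr, h⟩ := h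
  refine ⟨r / 2, by positivity, fun q hq hqp t ht htr => ?_⟩
  have hnt : ‖((t : ℂ) * ν)‖ = t := by
    rw [norm_mul, norm_dir hν, Complex.norm_real, mul_one, Real.norm_eq_abs, abs_of_pos ht]
  have h1 : (q + t * ν) - p = (q - p) + t * ν := by ring
  have h2 := norm_add_le (q - p) (t * ν)
  rw [hnt] at h2
  rw [h _ (by rw [h1]; linarith), h1, sp_add, sp_smul_self hν]
  have := (h q (by linarith)).1 hq
  linarith

/-- Asymptotically harmonic with Neumann condition, off `X`. -/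
structure AH (l : Filter ι) (P : Finset (ℤ × ℤ)) (X : Set ℂ) (F : ι → ℂ → ℝ) : Prop where
  ae : AE l F (Cl P ∩ Xᶜ)
  bdd : ∀ z ∈ Cl P ∩ Xᶜ, ∃ C : ℝ, ∀ᶠ i in l, |F i z| ≤ C
  harm : ∀ u : Ultrafilter ι, (u : Filter ι) ≤ l → ∀ U : ℂ → ℝ,
    TendstoLocallyUniformlyOn F U u (Om P \ X) → InnerProductSpace.HarmonicOnNhd U (Om P \ X)
  neu : ∀ p ν : ℂ, p ∉ X → Wall P p ν → ∀ ε : ℝ, 0 < ε → ∃ δ : ℝ, 0 < δ ∧ ∀ q : ℂ, Wall P q ν →
    ‖q - p‖ < δ → ∀ t : ℝ, 0 < t → t < δ → ∀ᶠ i in l, |F i (q + t * ν) - F i q| ≤ ε * t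

theorem AH.mono {l l' : Filter ι} {P : Finset (ℤ × ℤ)} {X : Set ℂ} {F : ι → ℂ → ℝ} (h : AH l P X F)
    (hl : l' ≤ l) : AH l' P X F where
  ae := h.ae.mono hl le_rfl
  bdd := fun z hz => by
    obtain ⟨C, hC⟩ := h.bdd z hz
    exact ⟨C, hl hC⟩
  harm := fun u hu => h.harm u (hu.trans hl)
  neu := fun p ν hp hw ε hε => by
    obtain ⟨δ, hδ, h1⟩ := h.neu p ν hp hw ε hε
    exact ⟨δ, hδ, fun q hq hqp t ht htδ => hl (h1 q hq hqp t ht htδ)⟩

/-- the Neumann condition passes to the limit -/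
theorem AH.neu_of_tendsto {u : Ultrafilter ι} {P : Finset (ℤ × ℤ)} {X : Set ℂ} {F : ι → ℂ → ℝ}
    (hX : IsClosed X) (h : AH (u : Filter ι) P X F) {U : ℂ → ℝ}
    (hpt : ∀ z ∈ Cl P ∩ Xᶜ, Tendsto (fun i => F i z) u (𝓝 (U z))) :
    ∀ p ν : ℂ, p ∉ X → Wall P p ν → NeuAt P U p ν := by
  intro p ν hp hpw ε hε
  obtain ⟨δ, hδ, hδ2⟩ := h.neu p ν hp hpw ε hε
  obtain ⟨r, hr, hr2⟩ := hpw.step
  obtain ⟨s, hs, hs2⟩ := Metric.isOpen_iff.1 hX.isOpen_compl p hp
  refine ⟨min δ (min r (s / 2)), by positivity, ?_⟩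
  intro q hq hqp t ht htδ
  have hq1 : ‖q - p‖ < δ := lt_of_lt_of_le hqp (min_le_left _ _)
  have hq2 : ‖q - p‖ < r := lt_of_lt_of_le hqp (le_trans (min_le_right _ _) (min_le_left _ _))
  have hq3 : ‖q - p‖ < s / 2 := lt_of_lt_of_le hqp (le_trans (min_le_right _ _) (min_le_right _ _))
  have ht1 : t < δ := lt_of_lt_of_le htδ (min_le_left _ _)
  have ht2 : t < r := lt_of_lt_of_le htδ (le_trans (min_le_right _ _) (min_le_left _ _))
  have ht3 : t < s / 2 := lt_of_lt_of_le htδ (le_trans (min_le_right _ _) (min_le_right _ _))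
  have hev := hδ2 q hq hq1 t ht ht1
  have hqC : q ∈ Cl P := hq.mem
  have hnt : ‖((t : ℂ) * ν)‖ = t := by
    rw [norm_mul, norm_dir hpw.1, Complex.norm_real, mul_one, Real.norm_eq_abs, abs_of_pos ht]
  have hqt : ‖(q + t * ν) - p‖ < s := by
    have h1 : (q + t * ν) - p = (q - p) + t * ν := by ring
    have h2 := norm_add_le (q - p) (t * ν)
    rw [hnt] at h2
    rw [h1]
    linarith
  have hqX : q ∈ Xᶜ := hs2 (by rw [Metric.mem_ball, dist_eq_norm]; linarith)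
  have hqtX : (q + t * ν) ∈ Xᶜ := hs2 (by rw [Metric.mem_ball, dist_eq_norm]; exact hqt)
  have hqtC : (q + t * ν) ∈ Cl P := hr2 q hqC hq2 t ht ht2
  have h3 := (hpt _ ⟨hqtC, hqtX⟩).sub (hpt q ⟨hqC, hqX⟩)
  exact le_of_tendsto h3.abs hev

/-- the limit along an ultrafilter -/
theorem AH.limit {u : Ultrafilter ι} {P : Finset (ℤ × ℤ)} {X : Set ℂ} {F : ι → ℂ → ℝ}
    (hX : IsClosed X) (hXO : ∀ z ∈ X, z ∉ Om P) (h : AH (u : Filter ι) P X F) :
    ∃ U : ℂ → ℝ, NHarm P X U ∧ ∀ z ∈ Cl P ∩ Xᶜ, Tendsto (fun i => F i z) u (𝓝 (U z)) := by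
  obtain ⟨U, hU, hT⟩ := ascoli_rel u (isClosed_Cl P) hX.isOpen_compl h.ae h.bdd
  have hpt : ∀ z ∈ Cl P ∩ Xᶜ, Tendsto (fun i => F i z) u (𝓝 (U z)) := fun z hz => hT.tendsto_at hz
  have hOX : Om P \ X = Om P := by
    ext z
    exact ⟨fun hz => hz.1, fun hz => ⟨hz, fun hh => hXO z hh hz⟩⟩
  refine ⟨U, ⟨?_, hU, h.neu_of_tendsto hX hpt⟩, hpt⟩
  have h1 := h.harm u le_rfl U (hT.mono fun z hz => ⟨interior_subset hz.1, hz.2⟩)
  rwa [hOX] at h1

/-- **The limit is constant** (`hN2`: uniqueness with one weak pole `x`, growth at most `G`, for instance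
`G z = C + C * ‖z - x‖ ^ (c - 1)`; at the other points of the finite set `X` only continuity is known). -/
theorem ca1 {l : Filter ι} {P : Finset (ℤ × ℤ)} {x : ℂ} {X : Set ℂ}
    (hX : X.Finite) (hXO : ∀ z ∈ X, z ∉ Om P) (hxX : x ∈ X) {G : ℂ → ℝ}
    (hN2 : ∀ U : ℂ → ℝ, InnerProductSpace.HarmonicOnNhd U (Om P) → ContinuousOn U (Cl P \ {x}) →
      (∀ p ν : ℂ, p ∉ X → Wall P p ν → NeuAt P U p ν) → (∀ z ∈ Cl P, z ≠ x → |U z| ≤ G z) →
        ∃ c : ℝ, ∀ z ∈ Cl P \ {x}, U z = c)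
    {F : ι → ℂ → ℝ} (h : AH l P X F) (hE : AE l F (Cl P ∩ {x}ᶜ))
    (hL : ∀ z ∈ Cl P, z ≠ x → ∀ᶠ i in l, |F i z| ≤ G z) :
    ∀ z ∈ Cl P \ {x}, ∀ w ∈ Cl P \ {x}, Tendsto (fun i => F i z - F i w) l (𝓝 0) := by
  intro z hz w hw
  rw [tendsto_iff_ultrafilter]
  intro u hu
  obtain ⟨U, hU, hT⟩ := ascoli_rel u (isClosed_Cl P) (isClosed_singleton (x := x)).isOpen_compl
    (hE.mono hu le_rfl) (fun z hz => ⟨G z, hu (hL z hz.1 hz.2)⟩)
  have hpt : ∀ z ∈ Cl P \ {x}, Tendsto (fun i => F i z) u (𝓝 (U z)) := fun z hz => hT.tendsto_at hz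
  have hu' : AH (u : Filter ι) P X F := h.mono hu
  have hOX : Om P \ X = Om P := by
    ext z
    exact ⟨fun hz => hz.1, fun hz => ⟨hz, fun hh => hXO z hh hz⟩⟩
  have hsub : ∀ z ∈ Om P \ X, z ∈ Cl P ∩ {x}ᶜ := fun z hz =>
    ⟨interior_subset hz.1, fun hh => hz.2 (by rw [(hh : z = x)]; exact hxX)⟩
  have h1 := hu'.harm u le_rfl U (hT.mono hsub)
  rw [hOX] at h1
  have h2 := hu'.neu_of_tendsto hX.isClosed (U := U) (fun z hz => hpt z
    ⟨hz.1, fun hh => hz.2 (by rw [(hh : z = x)]; exact hxX)⟩)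
  have h3 : ∀ z ∈ Cl P, z ≠ x → |U z| ≤ G z := fun z hz hzx =>
    le_of_tendsto (hpt z ⟨hz, hzx⟩).abs (hu (hL z hz hzx))
  obtain ⟨c, hc⟩ := hN2 U h1 hU h2 h3
  have h4 := (hpt z hz).sub (hpt w hw)
  rw [hc z hz, hc w hw, sub_self] at h4
  exact h4

theorem AH.neg {l : Filter ι} {P : Finset (ℤ × ℤ)} {X : Set ℂ} {F : ι → ℂ → ℝ} (h : AH l P X F) :
    AH l P X (fun i z => - F i z) where
  ae := by
    intro K hK hKc ε hε
    obtain ⟨δ, hδ, h1⟩ := h.ae K hK hKc ε hε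
    refine ⟨δ, hδ, ?_⟩
    filter_upwards [h1] with i hi z hz w hw hzw
    rw [dist_neg_neg]
    exact hi z hz w hw hzw
  bdd := fun z hz => by
    obtain ⟨C, hC⟩ := h.bdd z hz
    exact ⟨C, by filter_upwards [hC] with i hi; rwa [abs_neg]⟩
  harm := by
    intro u hu U hU
    have h1 : TendstoLocallyUniformlyOn F (fun z => - U z) u (Om P \ X) := by
      rw [Metric.tendstoLocallyUniformlyOn_iff] at hU ⊢
      intro ε hε x hx
      obtain ⟨t, ht, h2⟩ := hU ε hε x hx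
      refine ⟨t, ht, ?_⟩
      filter_upwards [h2] with i hi y hy
      have := hi y hy
      rwa [← dist_neg_neg, neg_neg] at this
    have h2 := h.harm u hu _ h1
    intro z hz
    have h3 := (h2 z hz).const_smul (c := (-1 : ℝ))
    have h4 : ((-1 : ℝ) • fun z => - U z) = U := by
      funext z; simp
    rw [h4] at h3
    exact h3
  neu := fun p ν hp hw ε hε => by
    obtain ⟨δ, hδ, h1⟩ := h.neu p ν hp hw ε hε
    refine ⟨δ, hδ, fun q hq hqp t ht htδ => ?_⟩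
    filter_upwards [h1 q hq hqp t ht htδ] with i hi
    rw [← abs_neg]
    have e : -(-F i (q + t * ν) - -F i q) = F i (q + t * ν) - F i q := by ring
    rwa [e]

theorem AH.add {l : Filter ι} {P : Finset (ℤ × ℤ)} {X : Set ℂ} {F G : ι → ℂ → ℝ} (hX : IsClosed X)
    (h : AH l P X F) (h' : AH l P X G) : AH l P X (fun i z => F i z + G i z) where
  ae := by
    intro K hK hKc ε hε
    obtain ⟨δ, hδ, h1⟩ := h.ae K hK hKc (ε / 2) (by positivity)
    obtain ⟨δ', hδ', h1'⟩ := h'.ae K hK hKc (ε / 2) (by positivity)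
    refine ⟨min δ δ', lt_min hδ hδ', ?_⟩
    filter_upwards [h1, h1'] with i hi hi' z hz w hw hzw
    have a := hi z hz w hw (lt_of_lt_of_le hzw (min_le_left _ _))
    have b := hi' z hz w hw (lt_of_lt_of_le hzw (min_le_right _ _))
    calc dist (F i z + G i z) (F i w + G i w) ≤ dist (F i z) (F i w) + dist (G i z) (G i w) :=
          dist_add_add_le _ _ _ _
      _ < ε := by linarith
  bdd := fun z hz => by
    obtain ⟨C, hC⟩ := h.bdd z hz
    obtain ⟨C', hC'⟩ := h'.bdd z hz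
    refine ⟨C + C', ?_⟩
    filter_upwards [hC, hC'] with i hi hi'
    exact (abs_add_le _ _).trans (add_le_add hi hi')
  harm := by
    intro u hu U hU
    obtain ⟨UF, -, hF⟩ := ascoli_rel u (isClosed_Cl P) hX.isOpen_compl (h.mono hu).ae (h.mono hu).bdd
    obtain ⟨UG, -, hG⟩ := ascoli_rel u (isClosed_Cl P) hX.isOpen_compl (h'.mono hu).ae (h'.mono hu).bdd
    have hsub : Om P \ X ⊆ Cl P ∩ Xᶜ := fun z hz => ⟨interior_subset hz.1, hz.2⟩
    have hF2 := h.harm u hu UF (hF.mono hsub)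
    have hG2 := h'.harm u hu UG (hG.mono hsub)
    have hO : IsOpen (Om P \ X) := (isOpen_Om P).sdiff hX
    have heq : ∀ z ∈ Om P \ X, U z = UF z + UG z := by
      intro z hz
      refine tendsto_nhds_unique (hU.tendsto_at hz) ?_
      exact (hF.tendsto_at (hsub hz)).add (hG.tendsto_at (hsub hz))
    intro z hz
    have h3 := (hF2 z hz).add (hG2 z hz)
    refine (InnerProductSpace.harmonicAt_congr_nhds ?_).2 h3
    filter_upwards [hO.mem_nhds hz] with w hw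
    exact heq w hw
  neu := fun p ν hp hw ε hε => by
    obtain ⟨δ, hδ, h1⟩ := h.neu p ν hp hw (ε / 2) (by positivity)
    obtain ⟨δ', hδ', h1'⟩ := h'.neu p ν hp hw (ε / 2) (by positivity)
    refine ⟨min δ δ', lt_min hδ hδ', fun q hq hqp t ht htδ => ?_⟩
    filter_upwards [h1 q hq (lt_of_lt_of_le hqp (min_le_left _ _)) t ht
      (lt_of_lt_of_le htδ (min_le_left _ _)), h1' q hq (lt_of_lt_of_le hqp (min_le_right _ _)) t ht
      (lt_of_lt_of_le htδ (min_le_right _ _))] with i hi hi'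
    have e : (F i (q + t * ν) + G i (q + t * ν)) - (F i q + G i q) =
        (F i (q + t * ν) - F i q) + (G i (q + t * ν) - G i q) := by ring
    rw [e]
    refine (abs_add_le _ _).trans ?_
    linarith

/-- RATIO LAW: integration over the path, dominated convergence. `g i α = w_α(a') - w_α(a)`,
`H i` = the same difference of the base functions. -/
theorem ca2 {l : Filter ι} [l.IsCountablyGenerated] {g : ι → ℝ → ℝ} {H L : ι → ℝ} {c M : ℝ}
    (hm : ∀ i, Continuous (g i)) (hM : ∀ᶠ i in l, ∀ α ∈ Set.Icc (0 : ℝ) 1, |g i α - H i| ≤ M)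
    (hl : ∀ i, L i = c * ∫ α in (0 : ℝ)..1, g i α)
    (hg : ∀ α ∈ Set.Ioo (0 : ℝ) 1, Tendsto (fun i => g i α - H i) l (𝓝 0)) :
    Tendsto (fun i => L i - c * H i) l (𝓝 0) := by
  have h1 : Tendsto (fun i => ∫ α in (0 : ℝ)..1, (g i α - H i)) l (𝓝 (∫ _ in (0 : ℝ)..1, (0 : ℝ))) := by
    apply intervalIntegral.tendsto_integral_filter_of_dominated_convergence (fun _ => M)
    · exact Eventually.of_forall fun n => ((hm n).sub continuous_const).aestronglyMeasurable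
    · filter_upwards [hM] with n hn
      apply MeasureTheory.ae_of_all
      intro α hα
      rw [Set.uIoc_of_le zero_le_one] at hα
      exact hn α ⟨hα.1.le, hα.2⟩
    · exact intervalIntegrable_const
    · have h2 : ∀ᵐ α : ℝ, α ≠ 1 := by
        rw [MeasureTheory.ae_iff]
        simp
      filter_upwards [h2] with α hα1 hα
      rw [Set.uIoc_of_le zero_le_one] at hα
      exact hg α ⟨hα.1, lt_of_le_of_ne hα.2 hα1⟩
  have h3 : ∀ n, L n - c * H n = c * ∫ α in (0 : ℝ)..1, (g n α - H n) := by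
    intro n
    rw [intervalIntegral.integral_sub ((hm n).intervalIntegrable _ _) intervalIntegrable_const, hl n]
    simp
    ring
  have h4 := h1.const_mul c
  simp only [h3]
  simpa using h4

/-- pointwise in the parameter along `l ×ᶠ 𝓝 ξ` implies uniformly on compact sets -/
theorem unif_of_filter {κ : Type*} [TopologicalSpace κ] {l : Filter ι} {K : Set κ} (hK : IsCompact K)
    {Q : ι → κ → Prop} (h : ∀ ξ ∈ K, ∀ᶠ p : ι × κ in l ×ˢ 𝓝 ξ, Q p.1 p.2) :
    ∀ᶠ i in l, ∀ ξ ∈ K, Q i ξ := by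
  refine hK.induction_on (p := fun K => ∀ᶠ i in l, ∀ ξ ∈ K, Q i ξ) ?_ ?_ ?_ ?_
  · simp
  · intro s t hst ht
    filter_upwards [ht] with i hi ξ hξ
    exact hi ξ (hst hξ)
  · intro s t hs ht
    filter_upwards [hs, ht] with i hi hi' ξ hξ
    rcases hξ with hξ | hξ
    · exact hi ξ hξ
    · exact hi' ξ hξ
  · intro ξ hξ
    obtain ⟨A, hA, B, hB, hAB⟩ := mem_prod_iff.1 (h ξ hξ)
    refine ⟨B, mem_nhdsWithin_of_mem_nhds hB, ?_⟩
    filter_upwards [hA] with i hi ξ' hξ'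
    exact hAB (Set.mk_mem_prod hi hξ')

end

end Pool.Agent.SixB
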