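import Pool.Agent.Lib.SixB.CADefs
import Pool.Agent.Lib.SixB.S6Lim

/-!
# 6BD block CA: the exact inputs of the assembly

For a polygon `P` with contour `g` (period `L`), base point `z0 ∈ Om P`:
* `uN n b v`: natural function in `rf n P`, base = contour vertex `gr n g b`, at the vertex `v`;
* `uP n α j j' v`: two marks `j`, `j'` with jumps `(1-α)π/3`, `απ/3` on the natural wall;
* `uX n α i j j' m k v`: marks `a1 = i`, `a2 = j`, `a2' = j'`, `a3 = m` and BOTH sides `(k-1,k)`, `(k,k+1)` as `e`.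
All three are only used through differences of their values at vertices (the base of the height is
irrelevant).
-/

set_option autoImplicit false

namespace Pool.Agent.SixB

open Filter Topology
open DC (AE)

noncomputable section

/-- scale to infinity, moving contour index `k` with `k / n → ξ` -/
def lk (ξ : ℝ) : Filter (ℕ × ℤ) :=
  comap (fun p : ℕ × ℤ => p.1) atTop ⊓ comap (fun p : ℕ × ℤ => (p.2 : ℝ) / p.1) (𝓝 ξ)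

/-- contour index of the real mark `t` at scale `n` -/
def ix (n : ℕ) (t : ℝ) : ℤ := ⌊(n : ℝ) * t⌋

/-- the corners of `P` -/
def corners (P : Finset (ℤ × ℤ)) : Set ℂ := {z | z ∈ Cl P ∧ z ∉ Om P ∧ ∀ ν : ℂ, ¬ Wall P z ν}

/-- extension of a lattice function to the plane, normalised at `z0` -/
def nz (n : ℕ) (z0 : ℂ) (u : ℤ × ℤ → ℝ) (z : ℂ) : ℝ := u (fl n z) - u (fl n z0)

/-- flat marks in counterclockwise order -/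
structure Marks5 (L : ℕ) (g : ℤ → ℤ × ℤ) (t₁ t₂ t₂' t₃ t₄ : ℝ) : Prop where
  h1 : t₁ < t₂
  h2 : t₂ < t₂'
  h3 : t₂' < t₃
  h4 : t₃ < t₄
  h5 : t₄ < t₁ + L
  f1 : Fl g t₁
  f2 : Fl g t₂
  f2' : Fl g t₂'
  f3 : Fl g t₃
  f4 : Fl g t₄

/-- the special points of the tilted environments -/
def specX (P : Finset (ℤ × ℤ)) (g : ℤ → ℤ × ℤ) (t₁ t₂ t₂' t₃ t₄ : ℝ) : Set ℂ :=
  corners P ∪ {gam g t₁, gam g t₂, gam g t₂', gam g t₃, gam g t₄}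

/-- the difference of environment functions which has no pole except at `e` -/
def dX (uN : ℕ → ℤ → ℤ × ℤ → ℝ) (uP : ℕ → ℝ → ℤ → ℤ → ℤ × ℤ → ℝ)
    (uX : ℕ → ℝ → ℤ → ℤ → ℤ → ℤ → ℤ → ℤ × ℤ → ℝ) (n : ℕ) (α : ℝ) (i j j' m k : ℤ) (v : ℤ × ℤ) : ℝ :=
  uX n α i j j' m k v - uP n α j j' v - uN n i v - uN n m v + 2 * uN n k v

/-- exact identities (finite combinatorics) -/
structure ExIn (P : Finset (ℤ × ℤ)) (L : ℕ) (g : ℤ → ℤ × ℤ)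
    (uN : ℕ → ℤ → ℤ × ℤ → ℝ) (uP : ℕ → ℝ → ℤ → ℤ → ℤ × ℤ → ℝ)
    (uX : ℕ → ℝ → ℤ → ℤ → ℤ → ℤ → ℤ → ℤ × ℤ → ℝ) : Prop where
  per : ∀ (n : ℕ) (b : ℤ) (v : ℤ × ℤ), uN n (b + n * L) v = uN n b v
  symm : ∀ (n : ℕ) (j k : ℤ), uN n j (gr n g k) = uN n k (gr n g j)
  pair : ∀ (n : ℕ) (j j' : ℤ), j < j' → j' < j + n * L →
    ContinuousOn (fun α => uP n α j j' (gr n g j') - uP n α j j' (gr n g j)) (Set.Icc 0 1) ∧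
    ∫ α in (0 : ℝ)..1, (uP n α j j' (gr n g j') - uP n α j j' (gr n g j)) = 0
  ratio : ∀ t₁ t₂ t₂' t₃ t₄ : ℝ, Marks5 L g t₁ t₂ t₂' t₃ t₄ → ∀ᶠ p : ℕ × ℤ in lk t₄,
    0 < Kt P g p.1 (ix p.1 t₁) (ix p.1 t₂) (ix p.1 t₃) p.2 ∧
    0 < Kt P g p.1 (ix p.1 t₁) (ix p.1 t₂') (ix p.1 t₃) p.2 ∧
    ContinuousOn (fun α => uX p.1 α (ix p.1 t₁) (ix p.1 t₂) (ix p.1 t₂') (ix p.1 t₃) p.2
        (gr p.1 g (ix p.1 t₂')) -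
      uX p.1 α (ix p.1 t₁) (ix p.1 t₂) (ix p.1 t₂') (ix p.1 t₃) p.2 (gr p.1 g (ix p.1 t₂)))
      (Set.Icc 0 1) ∧
    Real.log (Kt P g p.1 (ix p.1 t₁) (ix p.1 t₂') (ix p.1 t₃) p.2) -
      Real.log (Kt P g p.1 (ix p.1 t₁) (ix p.1 t₂) (ix p.1 t₃) p.2) =
    Real.pi / 3 * ∫ α in (0 : ℝ)..1,
      (uX p.1 α (ix p.1 t₁) (ix p.1 t₂) (ix p.1 t₂') (ix p.1 t₃) p.2 (gr p.1 g (ix p.1 t₂')) -
        uX p.1 α (ix p.1 t₁) (ix p.1 t₂) (ix p.1 t₂') (ix p.1 t₃) p.2 (gr p.1 g (ix p.1 t₂)))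

/-- natural environment (percolation): differences of the functions of two bases -/
structure NatIn (P : Finset (ℤ × ℤ)) (g : ℤ → ℤ × ℤ) (z0 : ℂ) (uN : ℕ → ℤ → ℤ × ℤ → ℝ) : Prop where
  /-- off the two marks: equicontinuous and bounded (corners included), harmonic, Neumann -/
  ah : ∀ s s' : ℝ, Fl g s → Fl g s' → gam g s ≠ gam g s' →
    AH atTop P {gam g s, gam g s'} fun n => nz n z0 fun v => uN n (ix n s) v - uN n (ix n s') v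
  growth : ∀ s s' : ℝ, Fl g s → Fl g s' → gam g s ≠ gam g s' → ∃ C : ℝ, ∀ z ∈ Cl P, z ≠ gam g s →
    z ≠ gam g s' → ∀ᶠ n : ℕ in atTop, |nz n z0 (fun v => uN n (ix n s) v - uN n (ix n s') v) z| ≤
      C + C * |Real.log ‖z - gam g s‖| + C * |Real.log ‖z - gam g s'‖|
  /-- continuity in the mark -/
  mark : ∀ s : ℝ, Fl g s → ∀ K : Set ℂ, K ⊆ Cl P \ {gam g s} → IsCompact K → ∀ ε : ℝ, 0 < ε →
    ∃ δ : ℝ, 0 < δ ∧ ∀ᶠ n : ℕ in atTop, ∀ k : ℤ, |(k : ℝ) / n - s| < δ → ∀ z ∈ K, ∀ w ∈ K,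
      |(uN n k (fl n z) - uN n (ix n s) (fl n z)) - (uN n k (fl n w) - uN n (ix n s) (fl n w))| ≤ ε

/-- the difference `dX`: harmonic and Neumann off the special points, no pole except at `e` -/
structure TiltIn (P : Finset (ℤ × ℤ)) (L : ℕ) (g : ℤ → ℤ × ℤ) (z0 : ℂ)
    (uN : ℕ → ℤ → ℤ × ℤ → ℝ) (uP : ℕ → ℝ → ℤ → ℤ → ℤ × ℤ → ℝ)
    (uX : ℕ → ℝ → ℤ → ℤ → ℤ → ℤ → ℤ → ℤ × ℤ → ℝ) : Prop where
  ah : ∀ t₁ t₂ t₂' t₃ t₄ : ℝ, Marks5 L g t₁ t₂ t₂' t₃ t₄ → ∀ α ∈ Set.Ioo (0 : ℝ) 1,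
    AH (lk t₄) P (specX P g t₁ t₂ t₂' t₃ t₄) fun p =>
      nz p.1 z0 (dX uN uP uX p.1 α (ix p.1 t₁) (ix p.1 t₂) (ix p.1 t₂') (ix p.1 t₃) p.2)
  /-- locality at the corners and at the marks `a1, a2, a2', a3`, down to the lattice scale -/
  loc : ∀ t₁ t₂ t₂' t₃ t₄ : ℝ, Marks5 L g t₁ t₂ t₂' t₃ t₄ → ∀ α ∈ Set.Ioo (0 : ℝ) 1,
    ∀ v ∈ specX P g t₁ t₂ t₂' t₃ t₄, v ≠ gam g t₄ → ∀ ε : ℝ, 0 < ε → ∃ δ : ℝ, 0 < δ ∧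
      ∀ᶠ p : ℕ × ℤ in lk t₄, ∀ z ∈ Cl P, ∀ w ∈ Cl P, ‖z - v‖ < δ → ‖w - v‖ < δ →
        |dX uN uP uX p.1 α (ix p.1 t₁) (ix p.1 t₂) (ix p.1 t₂') (ix p.1 t₃) p.2 (fl p.1 z) -
          dX uN uP uX p.1 α (ix p.1 t₁) (ix p.1 t₂) (ix p.1 t₂') (ix p.1 t₃) p.2 (fl p.1 w)| ≤ ε
  growth : ∀ t₁ t₂ t₂' t₃ t₄ : ℝ, Marks5 L g t₁ t₂ t₂' t₃ t₄ → ∀ α ∈ Set.Ioo (0 : ℝ) 1,
    ∃ C c : ℝ, 0 < c ∧ ∀ z ∈ Cl P, z ≠ gam g t₄ → ∀ᶠ p : ℕ × ℤ in lk t₄,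
      |nz p.1 z0 (dX uN uP uX p.1 α (ix p.1 t₁) (ix p.1 t₂) (ix p.1 t₂') (ix p.1 t₃) p.2) z| ≤
        C + C * ‖z - gam g t₄‖ ^ (c - 1)
  /-- domination, uniformly in `α` -/
  dom : ∀ t₁ t₂ t₂' t₃ t₄ : ℝ, Marks5 L g t₁ t₂ t₂' t₃ t₄ → ∃ M : ℝ, ∀ᶠ p : ℕ × ℤ in lk t₄,
    ∀ α ∈ Set.Icc (0 : ℝ) 1,
      |dX uN uP uX p.1 α (ix p.1 t₁) (ix p.1 t₂) (ix p.1 t₂') (ix p.1 t₃) p.2 (gr p.1 g (ix p.1 t₂')) -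
        dX uN uP uX p.1 α (ix p.1 t₁) (ix p.1 t₂) (ix p.1 t₂') (ix p.1 t₃) p.2
          (gr p.1 g (ix p.1 t₂))| ≤ M

/-- the normalised sum of the crossing probabilities of both colours, `p1 = t₁`, `p3 = t₃`,
`p2 = t₁ + x`, `p4 = t₃ + y` -/
def Cxy (P : Finset (ℤ × ℤ)) (g : ℤ → ℤ × ℤ) (t₁ t₃ : ℝ) (n : ℕ) (x y : ℝ) : ℝ :=
  Ct P g n (ix n t₁) (ix n (t₁ + x)) (ix n t₃) (ix n (t₃ + y)) / 2

/-- one arm exponent at the marks `p3` (first half) and `p1` (second half), on the lattice; one pair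
of nearby marks is enough -/
def ArmIn (P : Finset (ℤ × ℤ)) (g : ℤ → ℤ × ℤ) (t₁ t₃ : ℝ) : Prop :=
  (∀ δ : ℝ, 0 < δ → ∃ x x' : ℝ, 0 < x ∧ x < x' ∧ x' < δ ∧ ∃ y0 > 0, ∃ a₁ > 0, ∃ a₂ : ℝ,
    ∀ y ∈ Set.Ioc 0 y0, ∀ᶠ n : ℕ in atTop,
      a₁ * y ^ (1 / 3 : ℝ) ≤ Cxy P g t₁ t₃ n x' y - Cxy P g t₁ t₃ n x y ∧
      Cxy P g t₁ t₃ n x' y - Cxy P g t₁ t₃ n x y ≤ a₂ * y ^ (1 / 3 : ℝ)) ∧
  (∀ δ : ℝ, 0 < δ → ∃ y y' : ℝ, 0 < y ∧ y < y' ∧ y' < δ ∧ ∃ x0 > 0, ∃ a₁ > 0, ∃ a₂ : ℝ,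
    ∀ x ∈ Set.Ioc 0 x0, ∀ᶠ n : ℕ in atTop,
      a₁ * x ^ (1 / 3 : ℝ) ≤ Cxy P g t₁ t₃ n x y' - Cxy P g t₁ t₃ n x y ∧
      Cxy P g t₁ t₃ n x y' - Cxy P g t₁ t₃ n x y ≤ a₂ * x ^ (1 / 3 : ℝ))

end

end Pool.Agent.SixB
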