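import Pool.Agent.Lib.SixB.CAPort
import Pool.Agent.Lib.SixB.CAIn

/-!
# 6BD, block CA: the one arm exponent at the marks (helper14)

`armIn`: the input `ArmIn` of the assembly.
-/

set_option autoImplicit false

namespace Pool.Agent.SixB.Third

open Finset Pool.Agent.Perc Pool.Agent.Perc6 Pool.Agent.AnnH
open Filter Topology

/-! ## Unit sides -/

/-- The inner normal of a side with direction `T`, the domain on the left. -/
def nrm (T : ℤ × ℤ) : ℤ × ℤ := (-T.2, T.1)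

theorem lside_frame {P : Finset (ℤ × ℤ)} {p q : ℤ × ℤ} (h : LSide P p q) :
    Perp (q - p) (nrm (q - p)) ∧ ff p (q - p) (nrm (q - p)) (0, 0) ∈ P ∧
      ff p (q - p) (nrm (q - p)) (0, -1) ∉ P := by
  obtain ⟨p1, p2⟩ := p
  rcases h with ⟨rfl, h1, h2⟩ | ⟨rfl, h1, h2⟩ | ⟨rfl, h1, h2⟩ | ⟨rfl, h1, h2⟩
  all_goals
    simp only at h1 h2
    refine ⟨?_, ?_, ?_⟩
    · simp [Perp, nrm]
    · convert h1 using 1
      ext <;> simp [ff, nrm] <;> try ring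
    · intro h3
      apply h2
      convert h3 using 1
      ext <;> simp [ff, nrm] <;> try ring

theorem neg_div' {n m : ℤ} (hn : 0 < n) : (-m - 1) / n = -(m / n) - 1 := by
  have h1 := Int.emod_add_mul_ediv m n
  have h2 := Int.emod_nonneg m hn.ne'
  have h3 := Int.emod_lt_of_pos m hn
  have h4 : -m - 1 = (n - 1 - m % n) + n * (-(m / n) - 1) := by
    have : m = m % n + n * (m / n) := h1.symm
    linear_combination -this
  rw [h4, Int.add_mul_ediv_left _ _ hn.ne', Int.ediv_eq_zero_of_lt (by omega) (by omega), zero_add]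

theorem mem_cell_div {n : ℕ} (hn : 0 < n) {k g : ℤ × ℤ} :
    g ∈ cellF 0 0 n k ↔ (g.1 / n, g.2 / n) = k := by
  have hn' : (0 : ℤ) < n := by exact_mod_cast hn
  unfold cellF
  rw [mem_RFi, Prod.ext_iff]
  simp only [zero_add]
  have e1 : (n : ℤ) * (k.1 + 1) = n * k.1 + n := by ring
  have e2 : (n : ℤ) * (k.2 + 1) = n * k.2 + n := by ring
  have a1 : (n : ℤ) * k.1 ≤ g.1 ↔ k.1 ≤ g.1 / n := by
    rw [Int.le_ediv_iff_mul_le hn', mul_comm]
  have a2 : (n : ℤ) * k.2 ≤ g.2 ↔ k.2 ≤ g.2 / n := by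
    rw [Int.le_ediv_iff_mul_le hn', mul_comm]
  have b1 : g.1 < (n : ℤ) * (k.1 + 1) ↔ g.1 / n < k.1 + 1 := by
    rw [Int.ediv_lt_iff_lt_mul hn', mul_comm]
  have b2 : g.2 < (n : ℤ) * (k.2 + 1) ↔ g.2 / n < k.2 + 1 := by
    rw [Int.ediv_lt_iff_lt_mul hn', mul_comm]
  rw [a1, a2, b1, b2]
  omega

theorem mem_rf_div {n : ℕ} (hn : 0 < n) {P : Finset (ℤ × ℤ)} {g : ℤ × ℤ} :
    g ∈ rf n P ↔ (g.1 / (n : ℤ), g.2 / (n : ℤ)) ∈ P := by
  rw [mem_rf']
  constructor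
  · rintro ⟨k, hk, hg⟩
    rw [mem_cell_div hn] at hg
    rwa [hg]
  · intro h
    exact ⟨_, h, (mem_cell_div hn).2 rfl⟩

theorem d_pos {n : ℤ} (hn : 0 < n) (a m : ℤ) {z w : ℤ} (hz : z = n * a + m) (hw : w = a + m / n) :
    z / n = w := by
  rw [hz, hw, add_comm, Int.add_mul_ediv_left _ _ hn.ne', add_comm]

theorem d_neg {n : ℤ} (hn : 0 < n) (a m : ℤ) {z w : ℤ} (hz : z = n * a + (-m - 1))
    (hw : w = a - m / n - 1) : z / n = w := by
  rw [hz, hw, add_comm, Int.add_mul_ediv_left _ _ hn.ne', neg_div' hn]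
  ring

/-- The block of a face in a frame. -/
theorem ff_div {n : ℕ} (hn : 0 < n) {q T N : ℤ × ℤ} (h : Perp T N) (r : ℤ) (f : ℤ × ℤ) :
    ((ff (n * q.1 + r * T.1, n * q.2 + r * T.2) T N f).1 / (n : ℤ),
      (ff (n * q.1 + r * T.1, n * q.2 + r * T.2) T N f).2 / (n : ℤ)) =
      ff q T N ((f.1 + r) / n, f.2 / n) := by
  have hn' : (0 : ℤ) < n := by exact_mod_cast hn
  obtain ⟨t1, t2⟩ := T
  obtain ⟨n1, n2⟩ := N
  rcases h with ⟨h1 | h1, h2, h3, h4 | h4⟩ | ⟨h1, h2 | h2, h3 | h3, h4⟩ <;>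
    simp only at h1 h2 h3 h4 <;> subst h1 h2 h3 h4 <;> unfold ff <;> simp only <;>
    ext <;> simp only
  all_goals
    first
    | (refine d_pos hn' q.1 (f.1 + r) ?_ ?_ <;> norm_num <;> ring1)
    | (refine d_pos hn' q.1 f.2 ?_ ?_ <;> norm_num <;> ring1)
    | (refine d_pos hn' q.2 (f.1 + r) ?_ ?_ <;> norm_num <;> ring1)
    | (refine d_pos hn' q.2 f.2 ?_ ?_ <;> norm_num <;> ring1)
    | (refine d_neg hn' q.1 (f.1 + r) ?_ ?_ <;> norm_num <;> ring1)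
    | (refine d_neg hn' q.1 f.2 ?_ ?_ <;> norm_num <;> ring1)
    | (refine d_neg hn' q.2 (f.1 + r) ?_ ?_ <;> norm_num <;> ring1)
    | (refine d_neg hn' q.2 f.2 ?_ ?_ <;> norm_num <;> ring1)

theorem flat_of {P : Finset (ℤ × ℤ)} {n : ℕ} (hn : 0 < n) {q T N : ℤ × ℤ} (hT : Perp T N)
    (h0 : ff q T N (0, 0) ∈ P) (h0' : ff q T N (0, -1) ∉ P) {r R : ℤ} (hr : 0 ≤ r)
    (hrR : r + R ≤ n) (hRn : R ≤ n)
    (hfl : R ≤ r ∨ (ff q T N (-1, 0) ∈ P ∧ ff q T N (-1, -1) ∉ P)) {σ : Sym}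
    (hσ : IsFr σ (n * q.1 + r * T.1, n * q.2 + r * T.2) T N) : Flat (rf n P) σ R := by
  have hn' : (0 : ℤ) < n := by exact_mod_cast hn
  have key : ∀ x : ℤ, -R ≤ x → x < R → (x + r) / (n : ℤ) = 0 ∨
      ((x + r) / (n : ℤ) = -1 ∧ (ff q T N (-1, 0) ∈ P ∧ ff q T N (-1, -1) ∉ P)) := by
    intro x h1 h2
    by_cases h3 : 0 ≤ x + r
    · exact Or.inl (Int.ediv_eq_zero_of_lt h3 (by omega))
    · right
      refine ⟨?_, hfl.resolve_left (by omega)⟩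
      have e : x + r = (x + r + n) + n * (-1) := by ring
      rw [e, Int.add_mul_ediv_left _ _ hn'.ne', Int.ediv_eq_zero_of_lt (by omega) (by omega)]
      rfl
  constructor
  · intro f h1 h2 h3 h4
    rw [mem_rf_div hn, hσ.f, ff_div hn hT, Int.ediv_eq_zero_of_lt h3 (by omega)]
    rcases key f.1 h1 h2 with e | ⟨e, h5, -⟩
    · rw [e]
      exact h0
    · rw [e]
      exact h5
  · intro x h1 h2
    have e1 : (-1 : ℤ) / n = -1 := by
      have := neg_div' (m := 0) hn'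
      simpa using this
    rw [mem_rf_div hn, hσ.f, ff_div hn hT]
    simp only
    rw [e1]
    rcases key x h1 h2 with e | ⟨e, -, h5⟩
    · rw [e]
      exact h0'
    · rw [e]
      exact h5

theorem port_of {P : Finset (ℤ × ℤ)} {n : ℕ} (hn : 0 < n) {q T N : ℤ × ℤ} (hT : Perp T N)
    (h0 : ff q T N (0, 0) ∈ P) {r R : ℤ} (hr : 0 ≤ r) (hrR : r + R ≤ n) {σ : Sym}
    (hσ : IsFr σ (n * q.1 + r * T.1, n * q.2 + r * T.2) T N) : Port P n σ R (ff q T N (0, 0)) := by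
  have hn' : (0 : ℤ) < n := by exact_mod_cast hn
  constructor
  · exact h0
  · intro g hg
    unfold bx at hg
    obtain ⟨f, hf, rfl⟩ := mem_image.1 hg
    rw [mem_RFi] at hf
    rw [mem_cell_div hn, hσ.f, ff_div hn hT, Int.ediv_eq_zero_of_lt (by omega) (by omega),
      Int.ediv_eq_zero_of_lt (by omega) (by omega)]
  · intro x hx hxR
    rw [hσ.v]
    obtain ⟨t1, t2⟩ := T
    obtain ⟨n1, n2⟩ := N
    rcases hT with ⟨h1 | h1, h2, h3, h4 | h4⟩ | ⟨h1, h2 | h2, h3 | h3, h4⟩ <;>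
      simp only at h1 h2 h3 h4 <;> subst h1 h2 h3 h4 <;> refine ⟨?_, ?_, ?_, ?_⟩ <;>
      norm_num [fv, ff] <;> nlinarith
  · have hv := hσ.v
    obtain ⟨t1, t2⟩ := T
    obtain ⟨n1, n2⟩ := N
    rcases hT with ⟨h1 | h1, h2, h3, h4 | h4⟩ | ⟨h1, h2 | h2, h3 | h3, h4⟩ <;>
      simp only at h1 h2 h3 h4 <;> subst h1 h2 h3 h4
    · right; right; left
      intro x y
      rw [hv, hv]
      norm_num [fv, ff]
      try ring
    · right; right; right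
      intro x y
      rw [hv, hv]
      norm_num [fv, ff]
      try ring
    · right; right; left
      intro x y
      rw [hv, hv]
      norm_num [fv, ff]
      try ring
    · right; right; right
      intro x y
      rw [hv, hv]
      norm_num [fv, ff]
      try ring
    · left
      intro x y
      rw [hv, hv]
      norm_num [fv, ff]
      try ring
    · right; left
      intro x y
      rw [hv, hv]
      norm_num [fv, ff]
      try ring
    · left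
      intro x y
      rw [hv, hv]
      norm_num [fv, ff]
      try ring
    · right; left
      intro x y
      rw [hv, hv]
      norm_num [fv, ff]
      try ring

/-! ## The marks -/

theorem gr_formula {n : ℕ} (hn : 0 < n) (g : ℤ → ℤ × ℤ) (j m : ℤ) (h0 : 0 ≤ m) (h1 : m ≤ n) :
    gr n g (n * j + m) = (n * (g j).1 + m * (g (j + 1) - g j).1,
      n * (g j).2 + m * (g (j + 1) - g j).2) := by
  have hn' : (0 : ℤ) < n := by exact_mod_cast hn
  unfold gr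
  rcases h1.lt_or_eq with h2 | h2
  · have e1 : ((n : ℤ) * j + m) / n = j := by
      rw [add_comm, Int.add_mul_ediv_left _ _ hn'.ne', Int.ediv_eq_zero_of_lt h0 h2, zero_add]
    have e2 : ((n : ℤ) * j + m) % n = m := by
      rw [add_comm, Int.add_mul_emod_self_left, Int.emod_eq_of_lt h0 h2]
    rw [e1, e2]
    rfl
  · have e0 : (n : ℤ) * j + m = n * (j + 1) := by rw [h2]; ring
    have e1 : ((n : ℤ) * j + m) / n = j + 1 := by
      rw [e0, Int.mul_ediv_cancel_left _ hn'.ne']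
    have e2 : ((n : ℤ) * j + m) % n = 0 := by
      rw [e0, Int.mul_emod_right]
    rw [e1, e2, h2]
    ext <;> simp <;> ring

/-- The local picture at a flat mark. -/
theorem mark_frame {P : Finset (ℤ × ℤ)} {L : ℕ} {g : ℤ → ℤ × ℤ} (hg : Cont P L g) {t : ℝ}
    (ht : Fl g t) : ∃ ρ : ℝ, 0 < ρ ∧ ∃ T N k : ℤ × ℤ, ∀ᶠ n : ℕ in atTop, ∃ σ : Sym,
      IsFr σ (gr n g (ix n t)) T N ∧
      (∀ R : ℤ, (R : ℝ) ≤ ρ * n → Flat (rf n P) σ R ∧ Port P n σ R k) ∧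
      (∀ i : ℤ, 0 ≤ i → (i : ℝ) ≤ ρ * n → gr n g (ix n t + i) = σ.v (i, 0)) ∧
      |((gr n g (ix n t)).1 : ℝ) - n * (gam g t).re| ≤ 1 ∧
      |((gr n g (ix n t)).2 : ℝ) - n * (gam g t).im| ≤ 1 := by
  obtain ⟨hT, h0, h0'⟩ := lside_frame (hg.side ⌊t⌋)
  set j : ℤ := ⌊t⌋ with hj
  set T : ℤ × ℤ := g (j + 1) - g j with hTd
  set θ : ℝ := Int.fract t with hθ
  have hθ0 : 0 ≤ θ := Int.fract_nonneg t
  have hθ1 : θ < 1 := Int.fract_lt_one t
  have htj : t = j + θ := (Int.floor_add_fract t).symm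
  -- the radius
  obtain ⟨ρ, hρ0, hρ1, hρ2⟩ : ∃ ρ : ℝ, 0 < ρ ∧ ρ ≤ 1 - θ ∧ ∀ᶠ n : ℕ in atTop,
      ρ * n ≤ n * θ - 1 ∨ (ff (g j) T (nrm T) (-1, 0) ∈ P ∧ ff (g j) T (nrm T) (-1, -1) ∉ P) := by
    rcases hθ0.eq_or_lt with h | h
    · refine ⟨1, by norm_num, by linarith, Eventually.of_forall fun n => Or.inr ?_⟩
      have htk : t = ((j : ℤ) : ℝ) := by rw [htj, ← h, add_zero]
      have h1 := ht j htk
      obtain ⟨-, h2, h2'⟩ := lside_frame (hg.side (j - 1))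
      rw [sub_add_cancel] at h2 h2'
      rw [← h1] at h2 h2'
      have e : ∀ y : ℤ, ff (g (j - 1)) T (nrm T) (0, y) = ff (g j) T (nrm T) (-1, y) := by
        intro y
        have e1 : g (j - 1) = g j - T := by rw [hTd, h1]; abel
        rw [e1]
        ext
        · simp [ff]
          ring
        · simp [ff]
          ring
      rw [← hTd, e] at h2 h2'
      exact ⟨h2, h2'⟩
    · refine ⟨min (θ / 2) (1 - θ), lt_min (by linarith) (by linarith), min_le_right _ _, ?_⟩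
      obtain ⟨n₀, hn₀⟩ := exists_nat_gt (2 / θ)
      filter_upwards [eventually_ge_atTop n₀] with n hn
      left
      have h1 : (n₀ : ℝ) ≤ n := by exact_mod_cast hn
      have h2 : 2 < θ * n := by
        rw [div_lt_iff₀ h] at hn₀
        nlinarith
      have h3 : min (θ / 2) (1 - θ) * n ≤ θ / 2 * n :=
        mul_le_mul_of_nonneg_right (min_le_left _ _) (by positivity)
      linarith
  refine ⟨ρ, hρ0, T, nrm T, ff (g j) T (nrm T) (0, 0), ?_⟩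
  filter_upwards [hρ2, eventually_ge_atTop 1] with n hn2 hn1
  have hn' : (0 : ℝ) < n := by exact_mod_cast hn1
  -- the index
  obtain ⟨r, hr⟩ : ∃ r : ℤ, ix n t = n * j + r := ⟨ix n t - n * j, by ring⟩
  have hr1 : (r : ℝ) ≤ n * θ := by
    have h1 : ((ix n t : ℤ) : ℝ) ≤ n * t := Int.floor_le _
    rw [hr, htj] at h1
    push_cast at h1
    linarith
  have hr2 : (n : ℝ) * θ - 1 < r := by
    have h1 : (n : ℝ) * t - 1 < ((ix n t : ℤ) : ℝ) := Int.sub_one_lt_floor _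
    rw [hr, htj] at h1
    push_cast at h1
    linarith
  have hr0 : 0 ≤ r := by
    have : (-1 : ℝ) < r := by nlinarith
    have : (-1 : ℤ) < r := by exact_mod_cast this
    omega
  have hrn : r ≤ n := by
    have : (r : ℝ) ≤ n := by nlinarith
    exact_mod_cast this
  have hp : gr n g (ix n t) = (n * (g j).1 + r * T.1, n * (g j).2 + r * T.2) := by
    rw [hr, gr_formula (by omega) g j r hr0 hrn]
  obtain ⟨σ, hσ⟩ := exists_fr (gr n g (ix n t)) hT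
  have hσ' := hσ
  rw [hp] at hσ'
  have hRr : ∀ R : ℤ, (R : ℝ) ≤ ρ * n → r + R ≤ n ∧ R ≤ n := by
    intro R hR
    have h2 : ρ * n ≤ (1 - θ) * n := mul_le_mul_of_nonneg_right hρ1 hn'.le
    have h1 : (r : ℝ) + R ≤ n := by linarith
    have h3 : r + R ≤ n := by exact_mod_cast h1
    omega
  refine ⟨σ, hσ, fun R hR => ⟨?_, ?_⟩, fun i hi hin => ?_, ?_, ?_⟩
  · refine flat_of (by omega) hT h0 h0' hr0 (hRr R hR).1 (hRr R hR).2 ?_ hσ'
    rcases hn2 with h1 | h1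
    · left
      have : (R : ℝ) ≤ r := by linarith
      exact_mod_cast this
    · exact Or.inr h1
  · exact port_of (by omega) hT h0 hr0 (hRr R hR).1 hσ'
  · rw [hσ'.v, hr, add_assoc, gr_formula (by omega) g j (r + i) (by omega) (hRr i hin).1, ← hTd]
    ext
    · simp only [fv]
      ring
    · simp only [fv]
      ring
  · rw [hp]
    have e : (gam g t).re = (g j).1 + θ * (T.1 : ℝ) := by
      simp [gam, hTd, hj, hθ]
    rw [e]
    push_cast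
    have e1 : (n : ℝ) * (g j).1 + r * T.1 - n * ((g j).1 + θ * T.1) = (r - n * θ) * T.1 := by ring
    rw [e1, abs_mul]
    have e2 : |(r : ℝ) - n * θ| ≤ 1 := by
      rw [abs_le]
      constructor <;> linarith
    have e3 : |(T.1 : ℝ)| ≤ 1 := by
      rcases hT with ⟨h1 | h1, -⟩ | ⟨h1, -⟩ <;> rw [h1] <;> norm_num
    calc _ ≤ (1 : ℝ) * 1 := mul_le_mul e2 e3 (abs_nonneg _) (by norm_num)
      _ = 1 := by norm_num
  · rw [hp]
    have e : (gam g t).im = (g j).2 + θ * (T.2 : ℝ) := by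
      simp [gam, hTd, hj, hθ]
    rw [e]
    push_cast
    have e1 : (n : ℝ) * (g j).2 + r * T.2 - n * ((g j).2 + θ * T.2) = (r - n * θ) * T.2 := by ring
    rw [e1, abs_mul]
    have e2 : |(r : ℝ) - n * θ| ≤ 1 := by
      rw [abs_le]
      constructor <;> linarith
    have e3 : |(T.2 : ℝ)| ≤ 1 := by
      rcases hT with ⟨-, h1, -⟩ | ⟨-, h1 | h1, -⟩ <;> rw [h1] <;> norm_num
    calc _ ≤ (1 : ℝ) * 1 := mul_le_mul e2 e3 (abs_nonneg _) (by norm_num)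
      _ = 1 := by norm_num

/-! ## Injectivity of the boundary curve -/

theorem not_both {P : Finset (ℤ × ℤ)} {p q : ℤ × ℤ} (h : LSide P p q) (h' : LSide P q p) : False := by
  obtain ⟨p1, p2⟩ := p
  obtain ⟨q1, q2⟩ := q
  rcases h with ⟨h1, h2, h3⟩ | ⟨h1, h2, h3⟩ | ⟨h1, h2, h3⟩ | ⟨h1, h2, h3⟩ <;>
  rcases h' with ⟨h1', h2', h3'⟩ | ⟨h1', h2', h3'⟩ | ⟨h1', h2', h3'⟩ | ⟨h1', h2', h3'⟩ <;>
  simp only [Prod.mk.injEq] at h1 h1' h2 h3 h2' h3' <;> obtain ⟨rfl, rfl⟩ := h1 <;>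
  first
  | omega
  | (apply h3'
     convert h2 using 2 <;> omega)

section
variable {θ θ' : ℝ} {x y : ℤ}

theorem sA (h0 : 0 ≤ θ) (h1 : θ < 1) (h0' : 0 ≤ θ') (h1' : θ' < 1) (h : (x : ℝ) + θ = y + θ') :
    x = y ∧ θ = θ' := by
  have h3 : (-1 : ℤ) < x - y := by
    have : (-1 : ℝ) < x - y := by linarith
    exact_mod_cast this
  have h4 : x - y < 1 := by
    have : (x : ℝ) - y < 1 := by linarith
    exact_mod_cast this
  have h5 : x = y := by omega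
  subst h5
  exact ⟨rfl, by linarith⟩

theorem sB (h0 : 0 ≤ θ) (h1 : θ < 1) (h0' : 0 ≤ θ') (h1' : θ' < 1) (h : (x : ℝ) + θ + θ' = y) :
    (x = y ∧ θ = 0 ∧ θ' = 0) ∨ y = x + 1 := by
  have h3 : (-1 : ℤ) < y - x := by
    have : (-1 : ℝ) < y - x := by linarith
    exact_mod_cast this
  have h4 : y - x < 2 := by
    have : (y : ℝ) - x < 2 := by linarith
    exact_mod_cast this
  rcases (by omega : x = y ∨ y = x + 1) with h5 | h5
  · subst h5
    exact Or.inl ⟨rfl, by linarith, by linarith⟩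
  · exact Or.inr h5

theorem sC (h0 : 0 ≤ θ) (h1 : θ < 1) (h : (x : ℝ) + θ = y) : x = y ∧ θ = 0 := by
  have := sA h0 h1 le_rfl one_pos (by rw [h, add_zero] : (x : ℝ) + θ = y + 0)
  exact this

end

/-- Two sides which meet. -/
theorem side_meet {a b T T' : ℤ × ℤ} (hT : Perp T (nrm T)) (hT' : Perp T' (nrm T')) {θ θ' : ℝ}
    (h0 : 0 ≤ θ) (h1 : θ < 1) (h0' : 0 ≤ θ') (h1' : θ' < 1)
    (e1 : (a.1 : ℝ) + θ * T.1 = b.1 + θ' * T'.1) (e2 : (a.2 : ℝ) + θ * T.2 = b.2 + θ' * T'.2) :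
    (a = b ∧ θ = θ') ∨ (b = a + T ∧ T' = -T) := by
  obtain ⟨a1, a2⟩ := a
  obtain ⟨b1, b2⟩ := b
  obtain ⟨t1, t2⟩ := T
  obtain ⟨s1, s2⟩ := T'
  simp only [Perp, nrm] at hT hT'
  simp only at e1 e2
  have hT1 : (t1 = 1 ∧ t2 = 0) ∨ (t1 = -1 ∧ t2 = 0) ∨ (t1 = 0 ∧ t2 = 1) ∨ (t1 = 0 ∧ t2 = -1) := by omega
  have hT1' : (s1 = 1 ∧ s2 = 0) ∨ (s1 = -1 ∧ s2 = 0) ∨ (s1 = 0 ∧ s2 = 1) ∨ (s1 = 0 ∧ s2 = -1) := by
    omega
  clear hT hT'
  rcases hT1 with ⟨rfl, rfl⟩ | ⟨rfl, rfl⟩ | ⟨rfl, rfl⟩ | ⟨rfl, rfl⟩ <;>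
  rcases hT1' with ⟨rfl, rfl⟩ | ⟨rfl, rfl⟩ | ⟨rfl, rfl⟩ | ⟨rfl, rfl⟩ <;> push_cast at e1 e2 <;>
  simp only [mul_one, mul_zero, add_zero, mul_neg] at e1 e2
  -- right
  · obtain ⟨rfl, h⟩ := sA h0 h1 h0' h1' e1
    exact Or.inl ⟨Prod.ext rfl (by exact_mod_cast e2), h⟩
  · rcases sB (x := a1) (y := b1) h0 h1 h0' h1' (by linarith) with ⟨rfl, rfl, rfl⟩ | h
    · exact Or.inl ⟨Prod.ext rfl (by exact_mod_cast e2), rfl⟩
    · right
      simp only [Prod.mk_add_mk, Prod.neg_mk, Prod.mk.injEq]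
      exact ⟨⟨by omega, by rw [add_zero]; exact_mod_cast e2.symm⟩, by norm_num⟩
  · obtain ⟨rfl, rfl⟩ := sC h0 h1 e1
    obtain ⟨rfl, rfl⟩ := sC (x := b2) h0' h1' e2.symm
    exact Or.inl ⟨rfl, rfl⟩
  · obtain ⟨rfl, rfl⟩ := sC h0 h1 e1
    obtain ⟨rfl, rfl⟩ := sC (y := b2) (x := a2) h0' h1' (by linarith)
    exact Or.inl ⟨rfl, rfl⟩
  -- left
  · rcases sB (x := b1) (y := a1) h0' h1' h0 h1 (by linarith) with ⟨rfl, rfl, rfl⟩ | h
    · exact Or.inl ⟨Prod.ext rfl (by exact_mod_cast e2), rfl⟩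
    · right
      simp only [Prod.mk_add_mk, Prod.neg_mk, Prod.mk.injEq]
      exact ⟨⟨by omega, by rw [add_zero]; exact_mod_cast e2.symm⟩, by norm_num⟩
  · obtain ⟨rfl, h⟩ := sA (x := b1) (y := a1) h0 h1 h0' h1' (by linarith)
    exact Or.inl ⟨Prod.ext rfl (by exact_mod_cast e2), h⟩
  · obtain ⟨rfl, rfl⟩ := sC (x := b1) (y := a1) h0 h1 (by linarith)
    obtain ⟨rfl, rfl⟩ := sC (x := b2) h0' h1' e2.symm
    exact Or.inl ⟨rfl, rfl⟩
  · obtain ⟨rfl, rfl⟩ := sC (x := b1) (y := a1) h0 h1 (by linarith)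
    obtain ⟨rfl, rfl⟩ := sC (y := b2) (x := a2) h0' h1' (by linarith)
    exact Or.inl ⟨rfl, rfl⟩
  -- up
  · obtain ⟨rfl, rfl⟩ := sC (x := b1) (y := a1) h0' h1' (by linarith)
    obtain ⟨rfl, rfl⟩ := sC h0 h1 e2
    exact Or.inl ⟨rfl, rfl⟩
  · obtain ⟨rfl, rfl⟩ := sC (x := a1) (y := b1) h0' h1' (by linarith)
    obtain ⟨rfl, rfl⟩ := sC h0 h1 e2
    exact Or.inl ⟨rfl, rfl⟩
  · obtain ⟨rfl, h⟩ := sA h0 h1 h0' h1' e2
    exact Or.inl ⟨Prod.ext (by exact_mod_cast e1) rfl, h⟩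
  · rcases sB (x := a2) (y := b2) h0 h1 h0' h1' (by linarith) with ⟨rfl, rfl, rfl⟩ | h
    · exact Or.inl ⟨Prod.ext (by exact_mod_cast e1) rfl, rfl⟩
    · right
      simp only [Prod.mk_add_mk, Prod.neg_mk, Prod.mk.injEq]
      exact ⟨⟨by rw [add_zero]; exact_mod_cast e1.symm, by omega⟩, by norm_num⟩
  -- down
  · obtain ⟨rfl, rfl⟩ := sC (x := b1) (y := a1) h0' h1' (by linarith)
    obtain ⟨rfl, rfl⟩ := sC (x := b2) (y := a2) h0 h1 (by linarith)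
    exact Or.inl ⟨rfl, rfl⟩
  · obtain ⟨rfl, rfl⟩ := sC (x := a1) (y := b1) h0' h1' (by linarith)
    obtain ⟨rfl, rfl⟩ := sC (x := b2) (y := a2) h0 h1 (by linarith)
    exact Or.inl ⟨rfl, rfl⟩
  · rcases sB (x := b2) (y := a2) h0' h1' h0 h1 (by linarith) with ⟨rfl, rfl, rfl⟩ | h
    · exact Or.inl ⟨Prod.ext (by exact_mod_cast e1) rfl, rfl⟩
    · right
      simp only [Prod.mk_add_mk, Prod.neg_mk, Prod.mk.injEq]
      exact ⟨⟨by rw [add_zero]; exact_mod_cast e1.symm, by omega⟩, by norm_num⟩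
  · obtain ⟨rfl, h⟩ := sA (x := b2) (y := a2) h0 h1 h0' h1' (by linarith)
    exact Or.inl ⟨Prod.ext (by exact_mod_cast e1) rfl, h⟩

theorem gam_ne {P : Finset (ℤ × ℤ)} {L : ℕ} {g : ℤ → ℤ × ℤ} (hg : Cont P L g) {t t' : ℝ}
    (h : t < t') (h' : t' < t + L) : gam g t ≠ gam g t' := by
  intro he
  have h1 := congrArg Complex.re he
  have h2 := congrArg Complex.im he
  simp only [gam] at h1 h2
  obtain ⟨hT, -, -⟩ := lside_frame (hg.side ⌊t⌋)
  obtain ⟨hT', -, -⟩ := lside_frame (hg.side ⌊t'⌋)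
  have hx := Int.floor_add_fract t
  have hx' := Int.floor_add_fract t'
  rcases side_meet (a := g ⌊t⌋) (b := g ⌊t'⌋) hT hT' (Int.fract_nonneg t) (Int.fract_lt_one t)
    (Int.fract_nonneg t') (Int.fract_lt_one t')
    (by
      simp only [Prod.fst_sub]
      push_cast
      exact h1)
    (by
      simp only [Prod.snd_sub]
      push_cast
      exact h2) with ⟨h3, h4⟩ | ⟨h3, h4⟩
  · obtain ⟨m, hm⟩ := hg.inj _ _ h3
    have hm' : (⌊t⌋ : ℝ) - ⌊t'⌋ = L * m := by exact_mod_cast hm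
    have h5 : t - t' = L * m := by linarith
    have hL : (0 : ℝ) < L := by exact_mod_cast hg.pos
    have h6 : (m : ℝ) < 0 := by nlinarith
    have h7 : (-1 : ℝ) < m := by nlinarith
    have h8 : (-1 : ℤ) < m := by exact_mod_cast h7
    have h9 : m < 0 := by exact_mod_cast h6
    omega
  · have s1 := hg.side ⌊t⌋
    have s2 := hg.side ⌊t'⌋
    have e1 : g (⌊t⌋ + 1) = g ⌊t'⌋ := by
      rw [h3]
      abel
    have e2 : g (⌊t'⌋ + 1) = g ⌊t⌋ := by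
      have : g (⌊t'⌋ + 1) = g ⌊t'⌋ + (g (⌊t'⌋ + 1) - g ⌊t'⌋) := by abel
      rw [this, h4, h3]
      abel
    rw [e1] at s1
    rw [e2] at s2
    exact not_both s1 s2

/-! ## Distances -/

theorem fv_dist {p T N z : ℤ × ℤ} (h : Perp T N) {R : ℤ} (h1 : |z.1| ≤ R) (h2 : |z.2| ≤ R) :
    |(fv p T N z).1 - p.1| ≤ R ∧ |(fv p T N z).2 - p.2| ≤ R := by
  unfold fv
  rw [abs_le] at h1 h2
  obtain ⟨t1, t2⟩ := T
  obtain ⟨n1, n2⟩ := N
  rcases h with ⟨h3 | h3, h4, h5, h6 | h6⟩ | ⟨h3, h4 | h4, h5 | h5, h6⟩ <;>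
    simp only at h3 h4 h5 h6 <;> subst h3 h4 h5 h6 <;> simp only <;> rw [abs_le, abs_le] <;> omega

theorem ff_dist {p T N f : ℤ × ℤ} (h : Perp T N) {R : ℤ} (h1 : |f.1| ≤ R) (h2 : |f.2| ≤ R) :
    |(ff p T N f).1 - p.1| ≤ R + 1 ∧ |(ff p T N f).2 - p.2| ≤ R + 1 := by
  unfold ff
  rw [abs_le] at h1 h2
  obtain ⟨t1, t2⟩ := T
  obtain ⟨n1, n2⟩ := N
  rcases h with ⟨h3 | h3, h4, h5, h6 | h6⟩ | ⟨h3, h4 | h4, h5 | h5, h6⟩ <;>
    simp only at h3 h4 h5 h6 <;> subst h3 h4 h5 h6 <;> simp only <;> rw [abs_le, abs_le] <;> omega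

/-- Boxes with distant centres. -/
theorem apart {σ τ : Sym} {p T N p' T' N' : ℤ × ℤ} (hσ : IsFr σ p T N) (hτ : IsFr τ p' T' N')
    {R R' : ℤ} (hR : 0 ≤ R) (hR' : 0 ≤ R')
    (hd : R + R' + 2 < |p.1 - p'.1| ∨ R + R' + 2 < |p.2 - p'.2|) :
    Away σ R (wl τ R') ∧ Away τ R' (wl σ R) ∧
      Disjoint (bx σ (-R) R 0 R) (bx τ (-R') R' 0 R') := by
  have key : ∀ (z z' : ℤ × ℤ), |z.1| ≤ R → |z.2| ≤ R → |z'.1| ≤ R' → |z'.2| ≤ R' →
      σ.v z ≠ τ.v z' := by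
    intro z z' h1 h2 h3 h4 he
    have d1 := fv_dist (p := p) hσ.perp h1 h2
    have d2 := fv_dist (p := p') hτ.perp h3 h4
    rw [← hσ.v] at d1
    rw [← hτ.v, ← he] at d2
    obtain ⟨d3, d4⟩ := d1
    obtain ⟨d5, d6⟩ := d2
    rw [abs_le] at d3 d4 d5 d6
    rw [lt_abs, lt_abs] at hd
    omega
  have key' : ∀ (z z' : ℤ × ℤ), |z.1| ≤ R → |z.2| ≤ R → |z'.1| ≤ R' → |z'.2| ≤ R' →
      σ.f z ≠ τ.f z' := by
    intro z z' h1 h2 h3 h4 he
    have d1 := ff_dist (p := p) hσ.perp h1 h2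
    have d2 := ff_dist (p := p') hτ.perp h3 h4
    rw [← hσ.f] at d1
    rw [← hτ.f, ← he] at d2
    obtain ⟨d3, d4⟩ := d1
    obtain ⟨d5, d6⟩ := d2
    rw [abs_le] at d3 d4 d5 d6
    rw [lt_abs, lt_abs] at hd
    omega
  refine ⟨?_, ?_, ?_⟩
  · rintro z z1 z2 z3 z4 ⟨k, k1, k2, k3⟩
    exact key z (k, 0) (abs_le.2 (by omega)) (abs_le.2 (by omega)) (abs_le.2 (by simp only; omega))
      (abs_le.2 (by simp only; omega)) k3
  · rintro z z1 z2 z3 z4 ⟨k, k1, k2, k3⟩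
    exact key (k, 0) z (abs_le.2 (by simp only; omega)) (abs_le.2 (by simp only; omega))
      (abs_le.2 (by omega)) (abs_le.2 (by omega)) k3.symm
  · rw [Finset.disjoint_left]
    intro g hg hg'
    unfold bx at hg hg'
    obtain ⟨f, hf, rfl⟩ := mem_image.1 hg
    obtain ⟨f', hf', he⟩ := mem_image.1 hg'
    rw [mem_RFi] at hf hf'
    exact key' f f' (abs_le.2 (by omega)) (abs_le.2 (by omega)) (abs_le.2 (by omega))
      (abs_le.2 (by omega)) he.symm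

end Pool.Agent.SixB.Third
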