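import Pool.Agent.Lib.SixB.CAArm

/-!
# 6BD, block CA: `ArmIn` (helper14)

`QQ P g t t' n c s l`: the probability that the arc of `s` steps at the mark `t` is joined by colour `c` to
the arc of `l` steps at the mark `t'` in `rf n P`.
* `core_hi`, `core_hi2`: at most `C (s/n)^(1/3)`, at most `C (s/n)^(1/3) (l/n)^(1/3)`;
* `core_lo`: at least `c (s/n)^(1/3)` for `l ≥ ε n`;
* `armIn`: the input of the assembly.
-/

set_option autoImplicit false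

namespace Pool.Agent.SixB.Third

open Finset Pool.Agent.Perc Pool.Agent.Perc6 Pool.Agent.AnnH
open Filter Topology

/-- The arc of the contour of `s` steps which begins at the mark `t`. -/
def ar (g : ℤ → ℤ × ℤ) (n : ℕ) (t : ℝ) (s : ℤ) : Set (ℤ × ℤ) :=
  {w | ∃ i : ℤ, 0 ≤ i ∧ i ≤ s ∧ w = gr n g (ix n t + i)}

/-- Crossing probability of two arcs. -/
noncomputable def QQ (P : Finset (ℤ × ℤ)) (g : ℤ → ℤ × ℤ) (t t' : ℝ) (n : ℕ) (c s l : ℤ) : ℝ :=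
  pr (rf n P) (CrS (rf n P) c (ar g n t s) (ar g n t' l))

theorem QQ_comm (P : Finset (ℤ × ℤ)) (g : ℤ → ℤ × ℤ) (t t' : ℝ) (n : ℕ) (c s l : ℤ) :
    QQ P g t t' n c s l = QQ P g t' t n c l s := by
  unfold QQ
  congr 1
  ext ω
  constructor
  · rintro ⟨u, hu, v, hv, h1, h2⟩
    have := Conn.parity h2
    exact ⟨v, hv, u, hu, by omega, h2.symm⟩
  · rintro ⟨u, hu, v, hv, h1, h2⟩
    have := Conn.parity h2
    exact ⟨v, hv, u, hu, by omega, h2.symm⟩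

theorem Cr_eq_QQ (P : Finset (ℤ × ℤ)) (g : ℤ → ℤ × ℤ) (t t' x y : ℝ) (n : ℕ) {c : ℤ}
    (hc : c = 0 ∨ c = 1) :
    Cr P g n c (ix n t) (ix n (t + x)) (ix n t') (ix n (t' + y)) =
      QQ P g t t' n c (ix n (t + x) - ix n t) (ix n (t' + y) - ix n t') := by
  unfold Cr QQ
  congr 1
  ext ω
  unfold CrE CrS ar par
  simp only [Set.mem_ofPred_eq]
  constructor
  · rintro ⟨a, b, h1, h2, h3, h4, h5, h6⟩
    refine ⟨gr n g a, ⟨a - ix n t, by omega, by omega, ?_⟩, gr n g b, ⟨b - ix n t', by omega, by omega, ?_⟩,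
      by omega, h6⟩
    · congr 1
      ring
    · congr 1
      ring
  · rintro ⟨u, ⟨i, h1, h2, rfl⟩, v, ⟨k, h3, h4, rfl⟩, h5, h6⟩
    exact ⟨_, _, by omega, by omega, by omega, by omega, by omega, h6⟩

theorem ar_eq {g : ℤ → ℤ × ℤ} {n : ℕ} {t : ℝ} {σ : Sym} {ρ : ℝ}
    (h : ∀ i : ℤ, 0 ≤ i → (i : ℝ) ≤ ρ * n → gr n g (ix n t + i) = σ.v (i, 0)) {s : ℤ}
    (hs : (s : ℝ) ≤ ρ * n) : ar g n t s = wl σ s := by
  ext w
  constructor
  · rintro ⟨i, h1, h2, rfl⟩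
    have : (i : ℝ) ≤ s := by exact_mod_cast h2
    exact ⟨i, h1, h2, h i h1 (this.trans hs)⟩
  · rintro ⟨i, h1, h2, rfl⟩
    have : (i : ℝ) ≤ s := by exact_mod_cast h2
    exact ⟨i, h1, h2, (h i h1 (this.trans hs)).symm⟩

theorem ev_large (K : ℝ) : ∀ᶠ n : ℕ in atTop, K ≤ n := by
  obtain ⟨m, hm⟩ := exists_nat_ge K
  filter_upwards [eventually_ge_atTop m] with n hn
  exact hm.trans (by exact_mod_cast hn)

theorem ev_mul {ρ : ℝ} (hρ : 0 < ρ) (K : ℝ) : ∀ᶠ n : ℕ in atTop, K ≤ ρ * n := by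
  filter_upwards [ev_large (K / ρ)] with n hn
  rw [div_le_iff₀ hρ] at hn
  linarith

variable {P : Finset (ℤ × ℤ)} {L : ℕ} {g : ℤ → ℤ × ℤ} {t t' : ℝ}

/-- Upper bounds. -/
theorem core_hi (hg : Cont P L g) (ht : Fl g t) (ht' : Fl g t') (hne : gam g t ≠ gam g t') :
    ∃ ρ : ℝ, 0 < ρ ∧ ∃ C : ℝ, 0 < C ∧ ∀ᶠ n : ℕ in atTop, ∀ c : ℤ, ∀ s l : ℕ, 0 < s → 0 < l →
      (s : ℝ) ≤ ρ * n → (l : ℝ) ≤ ρ * n →
        QQ P g t t' n c s l ≤ C * ((s : ℝ) / n) ^ (1 / 3 : ℝ) ∧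
        QQ P g t t' n c s l ≤ C * (((s : ℝ) / n) ^ (1 / 3 : ℝ) * ((l : ℝ) / n) ^ (1 / 3 : ℝ)) := by
  obtain ⟨ρ₁, hρ₁, T, N, k, h1⟩ := mark_frame hg ht
  obtain ⟨ρ₂, hρ₂, T', N', k', h2⟩ := mark_frame hg ht'
  obtain ⟨C₁, hC₁, hA⟩ := pr_CrS_hi
  obtain ⟨C₂, hC₂, hB⟩ := pr_CrS_hi2
  obtain ⟨d, hd, hdd⟩ : ∃ d : ℝ, 0 < d ∧ (d ≤ |(gam g t).re - (gam g t').re| ∨
      d ≤ |(gam g t).im - (gam g t').im|) := by
    by_cases hre : (gam g t).re = (gam g t').re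
    · have him : (gam g t).im ≠ (gam g t').im := fun h => hne (Complex.ext hre h)
      exact ⟨_, abs_pos.2 (sub_ne_zero.2 him), Or.inr le_rfl⟩
    · exact ⟨_, abs_pos.2 (sub_ne_zero.2 hre), Or.inl le_rfl⟩
  obtain ⟨ρ, hρ, hρa, hρb, hρd⟩ : ∃ ρ : ℝ, 0 < ρ ∧ ρ ≤ ρ₁ ∧ ρ ≤ ρ₂ ∧ ρ ≤ d / 4 :=
    ⟨min ρ₁ (min ρ₂ (d / 4)), lt_min hρ₁ (lt_min hρ₂ (by linarith)), min_le_left _ _,
      (min_le_right _ _).trans (min_le_left _ _), (min_le_right _ _).trans (min_le_right _ _)⟩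
  set κ : ℝ := (1 + 2 / ρ) ^ (1 / 3 : ℝ) with hκ
  have hκ1 : 1 ≤ κ := Real.one_le_rpow (by have : 0 < 2 / ρ := by positivity
                                           linarith) (by norm_num)
  have hκ0 : 0 < κ := by linarith
  refine ⟨ρ / 12, by positivity, (C₁ + C₂) * (κ * κ), by positivity, ?_⟩
  filter_upwards [h1, h2, ev_mul hρ 2, ev_mul hd 10, eventually_ge_atTop 1] with n hn1 hn2 hn3 hn4 hn5
  intro c s l hs hl hsr hlr
  obtain ⟨σ, hσ, hσf, hσa, hσ1, hσ2⟩ := hn1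
  obtain ⟨τ, hτ, hτf, hτa, hτ1, hτ2⟩ := hn2
  have hn0 : (0 : ℝ) < n := by exact_mod_cast hn5
  set R : ℕ := ⌊ρ * n⌋₊ with hR
  have hR1 : (R : ℝ) ≤ ρ * n := Nat.floor_le (by positivity)
  have hR2 : ρ * n / 2 ≤ R := by
    have := Nat.sub_one_lt_floor (ρ * n)
    linarith
  have hρn : 0 ≤ ρ * n := by positivity
  have hs6 : 6 * s ≤ R := by
    have : (6 : ℝ) * s ≤ R := by linarith
    exact_mod_cast this
  have hl6 : 6 * l ≤ R := by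
    have : (6 : ℝ) * l ≤ R := by linarith
    exact_mod_cast this
  have hsR : (s : ℤ) ≤ R := by omega
  have hlR : (l : ℤ) ≤ R := by omega
  have ha : ρ * n ≤ ρ₁ * n := mul_le_mul_of_nonneg_right hρa hn0.le
  have hb : ρ * n ≤ ρ₂ * n := mul_le_mul_of_nonneg_right hρb hn0.le
  have hfσ := (hσf R (by push_cast; linarith)).1
  have hfτ := (hτf R (by push_cast; linarith)).1
  have hap := apart hσ hτ (R := (R : ℤ)) (R' := (R : ℤ)) (by omega) (by omega) (by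
    have hRd : (R : ℝ) ≤ d * n / 4 := by
      have : ρ * n ≤ d / 4 * n := mul_le_mul_of_nonneg_right hρd hn0.le
      linarith
    rw [abs_le] at hσ1 hσ2 hτ1 hτ2
    rcases hdd with h | h
    · left
      have h3 : d * n ≤ |(n : ℝ) * (gam g t).re - n * (gam g t').re| := by
        rw [← mul_sub, abs_mul, abs_of_pos hn0, mul_comm]
        exact mul_le_mul_of_nonneg_left h hn0.le
      have h4 : (R : ℝ) + R + 2 < |((gr n g (ix n t)).1 : ℝ) - (gr n g (ix n t')).1| := by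
        rw [le_abs] at h3
        rw [lt_abs]
        rcases h3 with h3 | h3
        · left
          linarith
        · right
          linarith
      exact_mod_cast h4
    · right
      have h3 : d * n ≤ |(n : ℝ) * (gam g t).im - n * (gam g t').im| := by
        rw [← mul_sub, abs_mul, abs_of_pos hn0, mul_comm]
        exact mul_le_mul_of_nonneg_left h hn0.le
      have h4 : (R : ℝ) + R + 2 < |((gr n g (ix n t)).2 : ℝ) - (gr n g (ix n t')).2| := by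
        rw [le_abs] at h3
        rw [lt_abs]
        rcases h3 with h3 | h3
        · left
          linarith
        · right
          linarith
      exact_mod_cast h4)
  have haw : Away σ R (wl τ l) := fun z z1 z2 z3 z4 hz => hap.1 z z1 z2 z3 z4 (wl_mono hlR hz)
  have haw' : Away τ R (wl σ s) := fun z z1 z2 z3 z4 hz => hap.2.1 z z1 z2 z3 z4 (wl_mono hsR hz)
  have hsr' : (((s : ℕ) : ℤ) : ℝ) ≤ ρ₁ * n := by push_cast; linarith
  have hlr' : (((l : ℕ) : ℤ) : ℝ) ≤ ρ₂ * n := by push_cast; linarith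
  unfold QQ
  rw [ar_eq hσa hsr', ar_eq hτa hlr']
  have hx : ∀ m : ℕ, ((m : ℝ) / R) ^ (1 / 3 : ℝ) ≤ κ * ((m : ℝ) / n) ^ (1 / 3 : ℝ) := by
    intro m
    rw [hκ, ← Real.mul_rpow (by positivity) (by positivity)]
    refine Real.rpow_le_rpow (by positivity) ?_ (by norm_num)
    have hR0 : (0 : ℝ) < R := by nlinarith
    rw [div_le_iff₀ hR0]
    have e1 : (1 + 2 / ρ) * ((m : ℝ) / n) * R = m * ((1 + 2 / ρ) * R / n) := by ring
    rw [e1]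
    have e2 : 1 ≤ (1 + 2 / ρ) * R / n := by
      rw [le_div_iff₀ hn0, one_mul]
      have e3 : 2 / ρ * R ≥ n := by
        rw [ge_iff_le, div_mul_eq_mul_div, le_div_iff₀ hρ]
        linarith
      nlinarith
    exact le_mul_of_one_le_right (by positivity) e2
  have hXs : 0 ≤ ((s : ℝ) / n) ^ (1 / 3 : ℝ) := by positivity
  have hXl : 0 ≤ ((l : ℝ) / n) ^ (1 / 3 : ℝ) := by positivity
  have hκκ : κ ≤ κ * κ := le_mul_of_one_le_left hκ0.le hκ1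
  constructor
  · refine (hA (rf n P) σ _ T N c s R _ hσ hs hs6 hfσ haw).trans ?_
    calc C₁ * ((s : ℝ) / R) ^ (1 / 3 : ℝ) ≤ C₁ * (κ * ((s : ℝ) / n) ^ (1 / 3 : ℝ)) :=
          mul_le_mul_of_nonneg_left (hx s) hC₁.le
      _ ≤ (C₁ + C₂) * ((κ * κ) * ((s : ℝ) / n) ^ (1 / 3 : ℝ)) :=
          mul_le_mul (by linarith) (mul_le_mul_of_nonneg_right hκκ hXs) (by positivity) (by positivity)
      _ = _ := by ring
  · refine (hB (rf n P) σ _ T N c s R τ _ T' N' l R hσ hs hs6 hfσ hτ hl hl6 hfτ haw haw' hap.2.2).trans ?_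
    calc C₂ * (((s : ℝ) / R) ^ (1 / 3 : ℝ) * ((l : ℝ) / R) ^ (1 / 3 : ℝ)) ≤
          C₂ * ((κ * ((s : ℝ) / n) ^ (1 / 3 : ℝ)) * (κ * ((l : ℝ) / n) ^ (1 / 3 : ℝ))) :=
          mul_le_mul_of_nonneg_left (mul_le_mul (hx s) (hx l) (by positivity) (by positivity)) hC₂.le
      _ = C₂ * ((κ * κ) * (((s : ℝ) / n) ^ (1 / 3 : ℝ) * ((l : ℝ) / n) ^ (1 / 3 : ℝ))) := by ring
      _ ≤ (C₁ + C₂) * ((κ * κ) * (((s : ℝ) / n) ^ (1 / 3 : ℝ) * ((l : ℝ) / n) ^ (1 / 3 : ℝ))) :=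
          mul_le_mul_of_nonneg_right (by linarith) (by positivity)
      _ = _ := by ring

/-- Lower bound. -/
theorem core_lo (hP : EConn (P : Set (ℤ × ℤ))) (hg : Cont P L g) (ht : Fl g t) (ht' : Fl g t') :
    ∃ ρ : ℝ, 0 < ρ ∧ ∀ ε : ℝ, 0 < ε → ∃ c₁ : ℝ, 0 < c₁ ∧ ∀ᶠ n : ℕ in atTop, ∀ c : ℤ, ∀ s l : ℕ,
      8 ≤ s → (s : ℝ) ≤ ρ * n → ε * n ≤ l → (l : ℝ) ≤ ρ * n →
        c₁ * ((s : ℝ) / n) ^ (1 / 3 : ℝ) ≤ QQ P g t t' n c s l := by
  obtain ⟨ρ₁, hρ₁, T, N, k, h1⟩ := mark_frame hg ht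
  obtain ⟨ρ₂, hρ₂, T', N', k', h2⟩ := mark_frame hg ht'
  obtain ⟨ρ, hρ, hρa, hρb, hρc⟩ : ∃ ρ : ℝ, 0 < ρ ∧ ρ ≤ ρ₁ ∧ ρ ≤ ρ₂ ∧ ρ ≤ 1 :=
    ⟨min ρ₁ (min ρ₂ 1), lt_min hρ₁ (lt_min hρ₂ one_pos), min_le_left _ _,
      (min_le_right _ _).trans (min_le_left _ _), (min_le_right _ _).trans (min_le_right _ _)⟩
  refine ⟨ρ / 10, by positivity, fun ε hε => ?_⟩
  obtain ⟨K, hK⟩ := exists_nat_ge (10 / ρ + 1 / ε)
  obtain ⟨c₁, hc₁, hlo⟩ := pr_CrS_lo P hP K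
  refine ⟨c₁, hc₁, ?_⟩
  filter_upwards [h1, h2, ev_mul hρ 10, ev_mul hε 1, eventually_ge_atTop 1] with n hn1 hn2 hn3 hn4 hn5
  intro c s l hs hsr hεl hlr
  obtain ⟨σ, hσ, hσf, hσa, -, -⟩ := hn1
  obtain ⟨τ, hτ, hτf, hτa, -, -⟩ := hn2
  have hn0 : (0 : ℝ) < n := by exact_mod_cast hn5
  set m : ℕ := ⌊ρ / 5 * n⌋₊ with hm
  have hm1 : (m : ℝ) ≤ ρ / 5 * n := Nat.floor_le (by positivity)
  have hm2 : ρ * n / 10 ≤ m := by
    have := Nat.sub_one_lt_floor (ρ / 5 * n)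
    linarith
  have ha : ρ * n ≤ ρ₁ * n := mul_le_mul_of_nonneg_right hρa hn0.le
  have hb : ρ * n ≤ ρ₂ * n := mul_le_mul_of_nonneg_right hρb hn0.le
  have hc : ρ * n ≤ n := by nlinarith
  have hm0 : 0 < m := by
    have : (0 : ℝ) < m := by linarith
    exact_mod_cast this
  have hl0 : 0 < l := by
    have : (0 : ℝ) < l := by linarith
    exact_mod_cast this
  have h4m : 4 * m ≤ n := by
    have : (4 : ℝ) * m ≤ n := by linarith
    exact_mod_cast this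
  have hsm : s ≤ m := by
    have : (s : ℝ) ≤ m := by linarith
    exact_mod_cast this
  have hK1 : 10 / ρ ≤ K := by
    have : 0 < 1 / ε := by positivity
    linarith
  have hK2 : 1 / ε ≤ K := by
    have : 0 < 10 / ρ := by positivity
    linarith
  have hnm : n ≤ K * m := by
    have : (n : ℝ) ≤ K * m := by
      calc (n : ℝ) = 10 / ρ * (ρ * n / 10) := by field_simp
        _ ≤ K * m := mul_le_mul hK1 hm2 (by positivity) (by positivity)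
    exact_mod_cast this
  have hnl : n ≤ K * l := by
    have : (n : ℝ) ≤ K * l := by
      calc (n : ℝ) = 1 / ε * (ε * n) := by field_simp
        _ ≤ K * l := mul_le_mul hK2 hεl (by positivity) (by positivity)
    exact_mod_cast this
  have hfσ := hσf (5 * (m : ℤ)) (by push_cast; linarith)
  have hfτ := hτf (l : ℤ) (by push_cast; linarith)
  unfold QQ
  rw [ar_eq hσa (by push_cast; linarith), ar_eq hτa (by push_cast; linarith)]
  exact hlo n m s l σ τ _ T N _ T' N' k k' c hm0 h4m hnm hl0 hnl hs hsm hσ hτ hfσ.2 hfσ.1 hfτ.2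

theorem ix_bounds (n : ℕ) (t x : ℝ) : (n : ℝ) * x - 1 < ((ix n (t + x) - ix n t : ℤ) : ℝ) ∧
    ((ix n (t + x) - ix n t : ℤ) : ℝ) < n * x + 1 := by
  have h1 : ((ix n t : ℤ) : ℝ) ≤ n * t := Int.floor_le _
  have h2 : (n : ℝ) * t - 1 < ((ix n t : ℤ) : ℝ) := Int.sub_one_lt_floor _
  have h3 : ((ix n (t + x) : ℤ) : ℝ) ≤ n * (t + x) := Int.floor_le _
  have h4 : (n : ℝ) * (t + x) - 1 < ((ix n (t + x) : ℤ) : ℝ) := Int.sub_one_lt_floor _
  push_cast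
  constructor <;> linarith

/-- One half of `ArmIn`. -/
theorem half (hP : EConn (P : Set (ℤ × ℤ))) (hg : Cont P L g) (ht : Fl g t) (ht' : Fl g t')
    (hne : gam g t ≠ gam g t') {δ : ℝ} (hδ : 0 < δ) :
    ∃ x x' : ℝ, 0 < x ∧ x < x' ∧ x' < δ ∧ ∃ y0 > 0, ∃ a₁ > 0, ∃ a₂ : ℝ, ∀ y ∈ Set.Ioc 0 y0,
      ∀ᶠ n : ℕ in atTop, ∀ c : ℤ,
        a₁ * y ^ (1 / 3 : ℝ) ≤
          QQ P g t t' n c (ix n (t + y) - ix n t) (ix n (t' + x') - ix n t') -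
            QQ P g t t' n c (ix n (t + y) - ix n t) (ix n (t' + x) - ix n t') ∧
        QQ P g t t' n c (ix n (t + y) - ix n t) (ix n (t' + x') - ix n t') -
            QQ P g t t' n c (ix n (t + y) - ix n t) (ix n (t' + x) - ix n t') ≤
          a₂ * y ^ (1 / 3 : ℝ) := by
  obtain ⟨ρ₁, hρ₁, C, hC, hhi⟩ := core_hi hg ht ht' hne
  obtain ⟨ρ₂, hρ₂, hlo⟩ := core_lo hP hg ht ht'
  obtain ⟨ρ, hρ, hρa, hρb⟩ : ∃ ρ : ℝ, 0 < ρ ∧ ρ ≤ ρ₁ ∧ ρ ≤ ρ₂ :=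
    ⟨min ρ₁ ρ₂, lt_min hρ₁ hρ₂, min_le_left _ _, min_le_right _ _⟩
  set x' : ℝ := min (δ / 2) (ρ / 2) with hx'
  have hx'0 : 0 < x' := lt_min (by linarith) (by linarith)
  have hx'δ : x' < δ := (min_le_left _ _).trans_lt (by linarith)
  have hx'ρ : x' ≤ ρ / 2 := min_le_right _ _
  obtain ⟨c₁, hc₁, hlo⟩ := hlo (x' / 2) (by linarith)
  set x : ℝ := min (x' / 2) ((c₁ / (2 * C)) ^ (3 : ℝ) / 2) with hx
  have hx0 : 0 < x := lt_min (by linarith) (by positivity)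
  have hxx' : x < x' := (min_le_left _ _).trans_lt (by linarith)
  have hxc : C * (2 * x) ^ (1 / 3 : ℝ) ≤ c₁ / 2 := by
    have h1 : 2 * x ≤ (c₁ / (2 * C)) ^ (3 : ℝ) := by
      have := min_le_right (x' / 2) ((c₁ / (2 * C)) ^ (3 : ℝ) / 2)
      linarith
    have h2 : (2 * x) ^ (1 / 3 : ℝ) ≤ c₁ / (2 * C) := by
      calc (2 * x) ^ (1 / 3 : ℝ) ≤ ((c₁ / (2 * C)) ^ (3 : ℝ)) ^ (1 / 3 : ℝ) :=
            Real.rpow_le_rpow (by positivity) h1 (by norm_num)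
        _ = c₁ / (2 * C) := by
            rw [← Real.rpow_mul (by positivity)]
            norm_num
    calc C * (2 * x) ^ (1 / 3 : ℝ) ≤ C * (c₁ / (2 * C)) := mul_le_mul_of_nonneg_left h2 hC.le
      _ = c₁ / 2 := by field_simp
  refine ⟨x, x', hx0, hxx', hx'δ, ρ / 2, by positivity, c₁ / 2 * (1 / 2 : ℝ) ^ (1 / 3 : ℝ),
    by positivity, C * (2 : ℝ) ^ (1 / 3 : ℝ), fun y hy => ?_⟩
  obtain ⟨hy0, hyρ⟩ := hy
  filter_upwards [hhi, hlo, ev_mul hρ 2, ev_mul hx0 2, ev_mul hx'0 2, ev_mul hy0 10,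
    eventually_ge_atTop 1] with n hn1 hn2 hn3 hn4 hn5 hn6 hn7
  intro c
  have hn0 : (0 : ℝ) < n := by exact_mod_cast hn7
  have hn1' := hn1 c
  have hn2' := hn2 c
  -- the three lengths
  have b1 := ix_bounds n t y
  have b2 := ix_bounds n t' x'
  have b3 := ix_bounds n t' x
  obtain ⟨s, hs⟩ : ∃ s : ℕ, ix n (t + y) - ix n t = s := by
    refine ⟨(ix n (t + y) - ix n t).toNat, (Int.toNat_of_nonneg ?_).symm⟩
    have : (0 : ℝ) < ((ix n (t + y) - ix n t : ℤ) : ℝ) := by linarith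
    exact le_of_lt (by exact_mod_cast this)
  obtain ⟨l', hl'⟩ : ∃ l' : ℕ, ix n (t' + x') - ix n t' = l' := by
    refine ⟨(ix n (t' + x') - ix n t').toNat, (Int.toNat_of_nonneg ?_).symm⟩
    have : (0 : ℝ) < ((ix n (t' + x') - ix n t' : ℤ) : ℝ) := by linarith
    exact le_of_lt (by exact_mod_cast this)
  obtain ⟨l, hl⟩ : ∃ l : ℕ, ix n (t' + x) - ix n t' = l := by
    refine ⟨(ix n (t' + x) - ix n t').toNat, (Int.toNat_of_nonneg ?_).symm⟩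
    have : (0 : ℝ) < ((ix n (t' + x) - ix n t' : ℤ) : ℝ) := by linarith
    exact le_of_lt (by exact_mod_cast this)
  rw [hs] at b1 ⊢
  rw [hl'] at b2 ⊢
  rw [hl] at b3 ⊢
  rw [Int.cast_natCast] at b1 b2 b3
  have ρa : ρ * n ≤ ρ₁ * n := mul_le_mul_of_nonneg_right hρa hn0.le
  have ρb : ρ * n ≤ ρ₂ * n := mul_le_mul_of_nonneg_right hρb hn0.le
  have yρ : n * y ≤ n * (ρ / 2) := mul_le_mul_of_nonneg_left hyρ hn0.le
  have xρ : n * x' ≤ n * (ρ / 2) := mul_le_mul_of_nonneg_left hx'ρ hn0.le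
  have xx : n * x ≤ n * x' := mul_le_mul_of_nonneg_left hxx'.le hn0.le
  have s8 : 8 ≤ s := by
    have : (8 : ℝ) ≤ s := by linarith
    exact_mod_cast this
  have l0 : 0 < l := by
    have : (0 : ℝ) < l := by linarith
    exact_mod_cast this
  have l0' : 0 < l' := by
    have : (0 : ℝ) < l' := by linarith
    exact_mod_cast this
  have A1 := hn2' s l' s8 (by linarith) (by linarith) (by linarith)
  have A2 := (hn1' s l' (by omega) l0' (by linarith) (by linarith)).1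
  have A3 := (hn1' s l (by omega) l0 (by linarith) (by linarith)).2
  have A4 : 0 ≤ QQ P g t t' n c s l := pr_nonneg _ _
  have hX1 : (1 / 2 : ℝ) ^ (1 / 3 : ℝ) * y ^ (1 / 3 : ℝ) ≤ ((s : ℝ) / n) ^ (1 / 3 : ℝ) := by
    rw [← Real.mul_rpow (by norm_num) hy0.le]
    refine Real.rpow_le_rpow (by positivity) ?_ (by norm_num)
    rw [le_div_iff₀ hn0]
    linarith
  have hX2 : ((s : ℝ) / n) ^ (1 / 3 : ℝ) ≤ (2 : ℝ) ^ (1 / 3 : ℝ) * y ^ (1 / 3 : ℝ) := by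
    rw [← Real.mul_rpow (by norm_num) hy0.le]
    refine Real.rpow_le_rpow (by positivity) ?_ (by norm_num)
    rw [div_le_iff₀ hn0]
    linarith
  have hL : C * ((l : ℝ) / n) ^ (1 / 3 : ℝ) ≤ c₁ / 2 := by
    refine (mul_le_mul_of_nonneg_left (Real.rpow_le_rpow (by positivity) ?_ (by norm_num))
      hC.le).trans hxc
    rw [div_le_iff₀ hn0]
    linarith
  set X : ℝ := ((s : ℝ) / n) ^ (1 / 3 : ℝ) with hXd
  have hX0 : 0 ≤ X := by positivity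
  have A3' : QQ P g t t' n c s l ≤ c₁ / 2 * X := by
    calc _ ≤ C * (X * ((l : ℝ) / n) ^ (1 / 3 : ℝ)) := A3
      _ = (C * ((l : ℝ) / n) ^ (1 / 3 : ℝ)) * X := by ring
      _ ≤ c₁ / 2 * X := mul_le_mul_of_nonneg_right hL hX0
  constructor
  · calc c₁ / 2 * (1 / 2 : ℝ) ^ (1 / 3 : ℝ) * y ^ (1 / 3 : ℝ) =
          c₁ / 2 * ((1 / 2 : ℝ) ^ (1 / 3 : ℝ) * y ^ (1 / 3 : ℝ)) := by ring
      _ ≤ c₁ / 2 * X := mul_le_mul_of_nonneg_left hX1 (by positivity)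
      _ ≤ _ := by linarith
  · calc QQ P g t t' n c s l' - QQ P g t t' n c s l ≤ QQ P g t t' n c s l' := by linarith
      _ ≤ C * X := A2
      _ ≤ C * ((2 : ℝ) ^ (1 / 3 : ℝ) * y ^ (1 / 3 : ℝ)) := mul_le_mul_of_nonneg_left hX2 hC.le
      _ = _ := by ring

/-- **The one arm exponent at the marks.** -/
theorem armIn (hP : MPoly P) (hg : Cont P L g) {t₁ t₃ : ℝ} (h1 : Fl g t₁) (h3 : Fl g t₃)
    (h13 : t₁ < t₃) (h31 : t₃ < t₁ + L) : ArmIn P g t₁ t₃ := by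
  have hne := gam_ne hg h13 h31
  have key : ∀ (n : ℕ) (x y : ℝ), Cxy P g t₁ t₃ n x y =
      (QQ P g t₁ t₃ n 0 (ix n (t₁ + x) - ix n t₁) (ix n (t₃ + y) - ix n t₃) +
        QQ P g t₁ t₃ n 1 (ix n (t₁ + x) - ix n t₁) (ix n (t₃ + y) - ix n t₃)) / 2 := by
    intro n x y
    unfold Cxy Ct
    rw [Cr_eq_QQ _ _ _ _ _ _ _ (Or.inl rfl), Cr_eq_QQ _ _ _ _ _ _ _ (Or.inr rfl)]
  constructor
  · intro δ hδ
    obtain ⟨x, x', hx, hxx', hx'δ, y0, hy0, a₁, ha₁, a₂, h⟩ :=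
      half hP.conn hg h3 h1 hne.symm hδ
    refine ⟨x, x', hx, hxx', hx'δ, y0, hy0, a₁, ha₁, a₂, fun y hy => ?_⟩
    filter_upwards [h y hy] with n hn
    have e0 := hn 0
    have e1 := hn 1
    rw [QQ_comm _ _ _ _ _ _ _ (ix n (t₁ + x') - ix n t₁), QQ_comm _ _ _ _ _ _ _ (ix n (t₁ + x) - ix n t₁)]
      at e0 e1
    rw [key, key]
    constructor <;> linarith [e0.1, e0.2, e1.1, e1.2]
  · intro δ hδ
    obtain ⟨y, y', hy, hyy', hy'δ, x0, hx0, a₁, ha₁, a₂, h⟩ :=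
      half hP.conn hg h1 h3 hne hδ
    refine ⟨y, y', hy, hyy', hy'δ, x0, hx0, a₁, ha₁, a₂, fun x hx => ?_⟩
    filter_upwards [h x hx] with n hn
    have e0 := hn 0
    have e1 := hn 1
    rw [key, key]
    constructor <;> linarith [e0.1, e0.2, e1.1, e1.2]

end Pool.Agent.SixB.Third
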