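import Pool.Agent.Lib.SixB.CAColArc
import Pool.Agent.Lib.SixB.CARf
import Pool.Agent.Lib.MP_6bd702_z.Z023

/-!
# 6BD, CACol: both colours have the same crossing probabilities up to a power of the mesh

`Cr_col_pow`: `|Cr P g n 0 i j k l - Cr P g n 1 i j k l| ≤ C (1 / R) ^ β` if the four arcs have length at
least `2 R`, `R ≤ n`. `tendsto_Cr_col`: the difference tends to `0` for all marks.

Proof: colour `0` in `D` is colour `1` in `D + (1, 0)`; both regions are compared with their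
intersection by Lemma C; the arcs induced on the intersection differ near the marks only.
-/

set_option autoImplicit false

namespace Pool.Agent.SixB.Col

open Finset Pool.Agent.Perc Pool.Agent.Perc6 Pool.Agent.SixB Pool.Agent.SixB.LC Pool.Agent.PercT

/-! ### Arms -/

/-- a path of colour `c` in `D` from a vertex near `p` to a vertex far from `p` -/
def Ev (D : Set (ℤ × ℤ)) (c : ℤ) (p : ℤ × ℤ) (r R : ℤ) : Set Cfg :=
  {ω | ∃ u v : ℤ × ℤ, |u.1 - p.1| ≤ r ∧ |u.2 - p.2| ≤ r ∧ (R ≤ |v.1 - p.1| ∨ R ≤ |v.2 - p.2|) ∧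
    par u = c ∧ Conn ω D u v}

theorem depOn_Ev (D : Set (ℤ × ℤ)) (c : ℤ) (p : ℤ × ℤ) (r R : ℤ) : DepOn D (Ev D c p r R) := by
  intro ω ω' h
  simp only [Ev, Set.mem_ofPred_eq, GridA.conn_iff _ h]

theorem pr_Ev : ∃ C β : ℝ, 0 < C ∧ 0 < β ∧ ∀ (D : Finset (ℤ × ℤ)) (c : ℤ) (p : ℤ × ℤ) (r R : ℤ),
    0 < r → r ≤ R → pr D (Ev (D : Set (ℤ × ℤ)) c p r R) ≤ C * ((r : ℝ) / R) ^ β := by
  obtain ⟨C, β, hC, hβ, h⟩ := oneArm
  refine ⟨C, β, hC, hβ, fun D c p r R hr hrR => ?_⟩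
  classical
  have h1 := h c p r R hr hrR
  have e1 : pr (D ∪ RFb p R) (Ev (D : Set (ℤ × ℤ)) c p r R) =
      pr D (Ev (D : Set (ℤ × ℤ)) c p r R) :=
    pr_eq_of_depOn (depOn_Ev _ _ _ _ _) Finset.subset_union_left
  have e2 : pr (D ∪ RFb p R) (ArmB c p r R) = pr (RFb p R) (ArmB c p r R) :=
    pr_eq_of_depOn (depOn_ArmB c p r R) Finset.subset_union_right
  rw [← e1]
  refine le_trans (pr_mono _ ?_) (e2 ▸ h1)
  rintro ω ⟨u, v, a1, a2, hcb, a5, a6⟩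
  rw [abs_le] at a1 a2
  have hpar : (u.1 + u.2) % 2 = c := a5
  obtain ⟨v, hv1, hv2⟩ := Conn.toBd (x₀ := p.1 - R) (x₁ := p.1 + R) (y₀ := p.2 - R)
    (y₁ := p.2 + R) a6 (by omega) (by
      rintro ⟨q1, q2, q3, q4⟩
      rcases hcb with hcb | hcb
      · rw [le_abs] at hcb
        omega
      · rw [le_abs] at hcb
        omega)
  exact ⟨u, v, by omega, by omega, by omega, by omega, by omega, hv2,
    Conn.mono Set.inter_subset_right hv1⟩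

/-! ### Comparison of the arcs -/

/-- A vertex of an arc of `Q` is near the arc of `w` with the same number. -/
theorem near_vertex {ι : Type*} {U P : Finset (ℤ × ℤ)} {κ : ℤ × ℤ → ι}
    {w : ℕ → ℤ × ℤ} {k : ℕ → ℕ} {m₂ : ℕ} {w₂ : ℕ → ℤ × ℤ} {k₂ : ℕ → ℕ}
    {sg : ℕ → Finset (ℤ × ℤ)} (A : ArcLink U P κ 2 w k m₂ w₂ k₂ sg) {j a : ℕ}
    (hj : j < 4) (hlt : k₂ j < k₂ (j + 1)) (h1 : k₂ j ≤ a) (h2 : a ≤ k₂ (j + 1)) :
    ∃ l, k j ≤ l ∧ l < k (j + 1) ∧ |(w l).1 - (w₂ a).1| ≤ 4 ∧ |(w l).2 - (w₂ a).2| ≤ 4 := by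
  obtain ⟨i, hi1, hi2, hai⟩ : ∃ i, k₂ j ≤ i ∧ i < k₂ (j + 1) ∧ (a = i ∨ a = i + 1) := by
    rcases Nat.lt_or_ge a (k₂ (j + 1)) with h | h
    · exact ⟨a, h1, h, Or.inl rfl⟩
    · exact ⟨a - 1, by omega, by omega, Or.inr (by omega)⟩
  have him : i < m₂ := by
    have : k₂ (j + 1) ≤ k₂ 4 := A.mono (by omega)
    rw [A.k4] at this
    omega
  obtain ⟨e, -, hje⟩ := A.ctr.step i him
  have hn := joins_near hje
  unfold InB at hn
  obtain ⟨l, a1, a2, a3, a4⟩ := near_link A (by omega) hj hi1 hi2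
  refine ⟨l, a1, a2, ?_⟩
  simp only [abs_le] at *
  rcases hai with rfl | rfl
  · omega
  · omega

/-- The crossing events of `Q` for the two families of arcs. -/
theorem xa_cmp {ι ι' : Type*} {U U' Q : Finset (ℤ × ℤ)} {κ : ℤ × ℤ → ι} {κ' : ℤ × ℤ → ι'} {m : ℕ}
    {w w' : ℕ → ℤ × ℤ} (hw : ∀ a, |(w' a).1 - (w a).1| ≤ 1 ∧ (w' a).2 = (w a).2)
    (hch : ChA w m 9) (hlip : Lip w m) {k : ℕ → ℕ} (k4 : k 4 = m) (hk : Monotone k)
    {m₂ : ℕ} {w₂ : ℕ → ℤ × ℤ} {k₂ : ℕ → ℕ} {sg : ℕ → Finset (ℤ × ℤ)}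
    (A : ArcLink U Q κ 2 w k m₂ w₂ k₂ sg)
    {m₃ : ℕ} {w₃ : ℕ → ℤ × ℤ} {k₃ : ℕ → ℕ} {sg' : ℕ → Finset (ℤ × ℤ)}
    (A' : ArcLink U' Q κ' 2 w' k m₃ w₃ k₃ sg') (hne : ∀ j < 4, ∃ i, k₂ j ≤ i ∧ i < k₂ (j + 1))
    {R : ℤ} (hsep : ∀ a b : ℕ, a ≤ k 1 → k 2 ≤ b → b ≤ k 3 →
      R ≤ |(w a).1 - (w b).1| ∨ R ≤ |(w a).2 - (w b).2|) (c : ℤ) :
    XA c (Q : Set (ℤ × ℤ)) w₂ 0 (k₂ 1) (k₂ 2) (k₂ 3) ⊆
      XA c (Q : Set (ℤ × ℤ)) w₃ 0 (k₃ 1) (k₃ 2) (k₃ 3) ∪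
        (Ev (Q : Set (ℤ × ℤ)) c (w (k 0)) 30 (R - 4) ∪ (Ev (Q : Set (ℤ × ℤ)) c (w (k 1)) 30 (R - 4) ∪
          (Ev (Q : Set (ℤ × ℤ)) c (w (k 2)) 30 (R - 4) ∪
            Ev (Q : Set (ℤ × ℤ)) c (w (k 3)) 30 (R - 4)))) := by
  have hlt : ∀ j < 4, k₂ j < k₂ (j + 1) := by
    intro j hj
    obtain ⟨i, h1, h2⟩ := hne j hj
    omega
  have k01 : k 0 ≤ k 1 := hk (by omega)
  have k12 : k 1 ≤ k 2 := hk (by omega)
  have k23 : k 2 ≤ k 3 := hk (by omega)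
  rintro ω ⟨a, b, h1, h2, h3, h4, h5, h6⟩
  have c1 := arc_cmp hw hch hlip k4 hk A A' (j := 0) (by omega) (hlt 0 (by omega)) (a := a)
    (by rw [A.k0]; omega) h2
  have c2 := arc_cmp hw hch hlip k4 hk A A' (j := 2) (by omega) (hlt 2 (by omega)) (a := b) h3 h4
  obtain ⟨la, la1, la2, la3, la4⟩ := near_vertex A (j := 0) (by omega) (hlt 0 (by omega)) (a := a)
    (by rw [A.k0]; omega) h2
  obtain ⟨lb, lb1, lb2, lb3, lb4⟩ := near_vertex A (j := 2) (by omega) (hlt 2 (by omega)) (a := b) h3 h4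
  have hpb : par (w₂ b) = c := by rw [← h5]; exact h6.par_eq.symm
  simp only [Nat.reduceAdd] at c1 c2 la2 lb2
  have farb : ∀ x : ℕ, x ≤ k 1 → (R - 4 ≤ |(w₂ b).1 - (w x).1| ∨ R - 4 ≤ |(w₂ b).2 - (w x).2|) := by
    intro x hx
    have := hsep x lb hx lb1 (by omega)
    simp only [abs_le, le_abs] at *
    omega
  have fara : ∀ x : ℕ, k 2 ≤ x → x ≤ k 3 →
      (R - 4 ≤ |(w₂ a).1 - (w x).1| ∨ R - 4 ≤ |(w₂ a).2 - (w x).2|) := by
    intro x hx hx'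
    have := hsep la x (by omega) hx hx'
    simp only [abs_le, le_abs] at *
    omega
  rcases c1 with ⟨a', p1, p2, p3⟩ | ⟨p1, p2⟩ | ⟨p1, p2⟩
  · rcases c2 with ⟨b', q1, q2, q3⟩ | ⟨q1, q2⟩ | ⟨q1, q2⟩
    · refine Or.inl ⟨a', b', by omega, p2, q1, q2, ?_, ?_⟩
      · rw [p3]; exact h5
      · rw [p3, q3]; exact h6
    · exact Or.inr (Or.inr (Or.inr (Or.inl ⟨w₂ b, w₂ a, q1, q2, fara _ le_rfl k23, hpb,
        conn_sym h6⟩)))
    · exact Or.inr (Or.inr (Or.inr (Or.inr ⟨w₂ b, w₂ a, q1, q2, fara _ k23 le_rfl, hpb,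
        conn_sym h6⟩)))
  · exact Or.inr (Or.inl ⟨w₂ a, w₂ b, p1, p2, farb _ k01, h5, h6⟩)
  · exact Or.inr (Or.inr (Or.inl ⟨w₂ a, w₂ b, p1, p2, farb _ le_rfl, h5, h6⟩))

theorem pr_four (D : Finset (ℤ × ℤ)) {A B E₁ E₂ E₃ E₄ : Set Cfg} {x : ℝ}
    (h : A ⊆ B ∪ (E₁ ∪ (E₂ ∪ (E₃ ∪ E₄)))) (h1 : pr D E₁ ≤ x) (h2 : pr D E₂ ≤ x) (h3 : pr D E₃ ≤ x)
    (h4 : pr D E₄ ≤ x) : pr D A ≤ pr D B + 4 * x := by
  have g1 := pr_mono D (A := A) (B := B ∪ (E₁ ∪ (E₂ ∪ (E₃ ∪ E₄)))) fun ω hω => h hω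
  have g2 := pr_union_le D B (E₁ ∪ (E₂ ∪ (E₃ ∪ E₄)))
  have g3 := pr_union_le D E₁ (E₂ ∪ (E₃ ∪ E₄))
  have g4 := pr_union_le D E₂ (E₃ ∪ E₄)
  have g5 := pr_union_le D E₃ E₄
  linarith

/-! ### Separated arcs are not linked in a small box -/

theorem conn_box {ω : Cfg} {F : Set (ℤ × ℤ)} {z u v : ℤ × ℤ} {ρ : ℤ}
    (h : Conn ω (F ∩ RFb z ρ) u v) : u = v ∨ (InB z ρ u ∧ InB z ρ v) := by
  induction h with
  | refl => exact Or.inl rfl
  | tail _ hb ih =>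
    rw [bond_iff] at hb
    obtain ⟨f, hf, g1, g2, -⟩ := hb
    have b1 := inB_of_mem_RFb (mem_coe.1 hf.2) g1
    have b2 := inB_of_mem_RFb (mem_coe.1 hf.2) g2
    rcases ih with rfl | ⟨ih, -⟩
    · exact Or.inr ⟨b1, b2⟩
    · exact Or.inr ⟨ih, b2⟩

theorem hd_of_sep {U : Finset (ℤ × ℤ)} {w : ℕ → ℤ × ℤ} {k1 k2 k3 : ℕ} {R ρ : ℤ}
    (hsep : ∀ a b : ℕ, a ≤ k1 → k2 ≤ b → b ≤ k3 → R ≤ |(w a).1 - (w b).1| ∨ R ≤ |(w a).2 - (w b).2|)
    (hR : 0 < R) (hρ : 2 * ρ < R) (c : ℤ) : HD c U w 0 k1 k2 k3 ρ := by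
  intro ω z a b _ h2 h3 h4 _ hc
  have h5 := hsep a b h2 h3 h4
  rcases conn_box hc with h6 | ⟨h6, h7⟩
  · rw [h6] at h5
    simp only [sub_self, abs_zero] at h5
    omega
  · unfold InB at h6 h7
    simp only [le_abs] at h5
    omega

/-! ### The shift of the probability -/

theorem pr_xa_shift (U : Finset (ℤ × ℤ)) (w : ℕ → ℤ × ℤ) (c : ℤ) (a0 a1 b0 b1 : ℕ) :
    pr (U.image fun f => (f.1 + 1, f.2))
      (XA c ((U.image fun f => (f.1 + 1, f.2) : Finset (ℤ × ℤ)) : Set (ℤ × ℤ))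
        (fun s => ((w s).1 + 1, (w s).2)) a0 a1 b0 b1) =
      pr U (XA (1 - c) (U : Set (ℤ × ℤ)) w a0 a1 b0 b1) := by
  have hf : ∀ x : ℤ × ℤ, (symS 1 0).f x = (x.1 + 1, x.2) := by
    intro x
    simp [symS, hsymS]
  have hv : ∀ x : ℤ × ℤ, (symS 1 0).v x = (x.1 + 1, x.2) := by
    intro x
    simp [symS, hsymS]
  have e1 : (U.image fun f => (f.1 + 1, f.2)) = U.image (symS 1 0).f := by
    congr 1
    funext x
    exact (hf x).symm
  rw [e1]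
  have h2 := Sym.pr_act (symS 1 0) (S := U)
    (A := XA c ((U.image (symS 1 0).f : Finset (ℤ × ℤ)) : Set (ℤ × ℤ))
        (fun s => ((w s).1 + 1, (w s).2)) a0 a1 b0 b1) (depOn_XA _ _ _ _ _ _ _)
  rw [← h2]
  congr 1
  ext ω
  unfold XA
  simp only [Set.mem_ofPred_eq]
  have hcon : ∀ i k : ℕ, Conn ((symS 1 0).act ω) ((U.image (symS 1 0).f : Finset (ℤ × ℤ)) : Set (ℤ × ℤ))
      ((w i).1 + 1, (w i).2) ((w k).1 + 1, (w k).2) ↔ Conn ω (U : Set (ℤ × ℤ)) (w i) (w k) := by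
    intro i k
    rw [← hv (w i), ← hv (w k), Finset.coe_image, (symS 1 0).conn_iff]
  have hpar : ∀ i : ℕ, par ((w i).1 + 1, (w i).2) = c ↔ par (w i) = 1 - c := by
    intro i
    unfold par
    simp only
    omega
  constructor
  · rintro ⟨i, k, h1, h2, h3, h4, h5, h6⟩
    exact ⟨i, k, h1, h2, h3, h4, (hpar i).1 h5, (hcon i k).1 h6⟩
  · rintro ⟨i, k, h1, h2, h3, h4, h5, h6⟩
    exact ⟨i, k, h1, h2, h3, h4, (hpar i).2 h5, (hcon i k).2 h6⟩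

/-! ### The contour of the shifted region -/

theorem mem_shimg {U : Finset (ℤ × ℤ)} {f : ℤ × ℤ} :
    f ∈ (U.image fun f => (f.1 + 1, f.2)) ↔ (f.1 - 1, f.2) ∈ U := by
  rw [mem_image]
  constructor
  · rintro ⟨g, hg, rfl⟩
    simpa using hg
  · intro h
    exact ⟨_, h, by simp⟩

theorem isSide_shift {f : ℤ × ℤ} {e : UE} : IsSide (f.1 + 1, f.2) (e.1 + 1, e.2.1, e.2.2) ↔ IsSide f e := by
  obtain ⟨f1, f2⟩ := f
  obtain ⟨x, y, b⟩ := e
  unfold IsSide bo le' to' ri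
  simp only [Prod.mk.injEq, add_left_inj]

theorem joins_shift {e : UE} {p q : ℤ × ℤ} :
    Joins (e.1 + 1, e.2.1, e.2.2) (p.1 + 1, p.2) (q.1 + 1, q.2) ↔ Joins e p q := by
  obtain ⟨p1, p2⟩ := p
  obtain ⟨q1, q2⟩ := q
  obtain ⟨x, y, b⟩ := e
  unfold Joins ua ub
  cases b <;> simp only [Bool.false_eq_true, if_true, if_false, Prod.mk.injEq, add_left_inj]

theorem ctr_shift {U : Finset (ℤ × ℤ)} {m : ℕ} {w : ℕ → ℤ × ℤ} (h : Ctr (U : Set (ℤ × ℤ)) m w)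
    (hE : Esc (U : Set (ℤ × ℤ))) :
    Ctr ((U.image fun f => (f.1 + 1, f.2) : Finset (ℤ × ℤ)) : Set (ℤ × ℤ)) m
      (fun s => ((w s).1 + 1, (w s).2)) := by
  have hbd : ∀ e : UE, BdU ((U.image fun f => (f.1 + 1, f.2) : Finset (ℤ × ℤ)) : Set (ℤ × ℤ))
      (e.1 + 1, e.2.1, e.2.2) ↔ BdU (U : Set (ℤ × ℤ)) e := by
    intro e
    unfold BdU
    constructor
    · rintro ⟨⟨f, hf, hs⟩, g, hg, hgs⟩
      rw [mem_coe, mem_shimg] at hf hg
      refine ⟨⟨_, mem_coe.2 hf, ?_⟩, _, fun h => hg (mem_coe.1 h), ?_⟩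
      · rw [← isSide_shift]; simpa using hs
      · rw [← isSide_shift]; simpa using hgs
    · rintro ⟨⟨f, hf, hs⟩, g, hg, hgs⟩
      refine ⟨⟨(f.1 + 1, f.2), ?_, isSide_shift.2 hs⟩, (g.1 + 1, g.2), ?_, isSide_shift.2 hgs⟩
      · rw [mem_coe, mem_shimg]; simpa using hf
      · rw [mem_coe, mem_shimg]; simpa using hg
  have hsurj : ∀ e : UE, ∃ e' : UE, e = (e'.1 + 1, e'.2.1, e'.2.2) := fun e =>
    ⟨(e.1 - 1, e.2.1, e.2.2), by simp⟩
  refine ⟨?_, ?_, ?_, ?_, ?_⟩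
  · simp only [h.close]
  · intro i hi
    obtain ⟨e, he, hj⟩ := h.step i hi
    exact ⟨(e.1 + 1, e.2.1, e.2.2), (hbd e).2 he, joins_shift.2 hj⟩
  · intro e he
    obtain ⟨e', rfl⟩ := hsurj e
    obtain ⟨i, hi, hj⟩ := h.all e' ((hbd e').1 he)
    exact ⟨i, hi, joins_shift.2 hj⟩
  · intro i hi k hk e h1 h2
    obtain ⟨e', rfl⟩ := hsurj e
    exact h.inj i hi k hk e' (joins_shift.1 h1) (joins_shift.1 h2)
  · have h1 := esc_shift hE 1 0
    have h2 : ({f : ℤ × ℤ | (f.1 - 1, f.2 - 0) ∈ (U : Set (ℤ × ℤ))}) =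
        ((U.image fun f => (f.1 + 1, f.2) : Finset (ℤ × ℤ)) : Set (ℤ × ℤ)) := by
      ext f
      rw [mem_coe, mem_shimg, Set.mem_ofPred_eq, sub_zero, mem_coe]
    rw [h2] at h1
    exact h1.hasPot' (Finset.finite_toSet _)

/-! ### The comparison -/

/-- **Both colours have nearly the same crossing probability**, general form. -/
theorem col_core : ∃ C β : ℝ, 0 < C ∧ 0 < β ∧ ∀ (U Q : Finset (ℤ × ℤ)) (m m' : ℕ)
    (w w₁ : ℕ → ℤ × ℤ) (k : ℕ → ℕ) (R : ℤ), Ctr (U : Set (ℤ × ℤ)) m w → Esc (U : Set (ℤ × ℤ)) →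
    Ctr (Q : Set (ℤ × ℤ)) m' w₁ → (∀ f, f ∈ Q ↔ f ∈ U ∧ (f.1 - 1, f.2) ∈ U) →
    (∀ f ∈ Q, ∀ g ∈ Q, Chn (Q : Set (ℤ × ℤ)) f g) →
    (∀ f ∈ U, (f.1 - 1, f.2) ∉ U → (f.1 + 1, f.2) ∈ U) →
    (∀ f ∈ U, (f.1 + 1, f.2) ∉ U → (f.1 - 1, f.2) ∈ U) →
    ChA w m 5 → ChA w m 9 → Lip w m → k 0 = 0 → k 4 = m → Monotone k →
    (∀ j < 4, k j + 30 ≤ k (j + 1)) → 100 ≤ R →
    (∀ a b : ℕ, a ≤ k 1 → k 2 ≤ b → b ≤ k 3 → R ≤ |(w a).1 - (w b).1| ∨ R ≤ |(w a).2 - (w b).2|) →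
    |pr U (XA 0 (U : Set (ℤ × ℤ)) w 0 (k 1) (k 2) (k 3)) -
      pr U (XA 1 (U : Set (ℤ × ℤ)) w 0 (k 1) (k 2) (k 3))| ≤ C * ((1 : ℝ) / R) ^ β := by
  obtain ⟨C₁, α, hC₁, hα, hL⟩ := lemC_pow
  obtain ⟨C₂, β, hC₂, hβ, hE⟩ := pr_Ev
  set γ := min α β with hγ
  have hγ0 : 0 < γ := lt_min hα hβ
  refine ⟨2 * (C₁ * 9 ^ α) + 4 * (C₂ * 60 ^ β), γ, by positivity, hγ0, ?_⟩
  intro U Q m m' w w₁ k R hU hEU hQ hQU hcon hth1 hth2 hc5 hc9 hlip k0 k4 hk hlong hR hsep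
  set U' : Finset (ℤ × ℤ) := U.image fun f => (f.1 + 1, f.2) with hU'
  set w' : ℕ → ℤ × ℤ := fun s => ((w s).1 + 1, (w s).2) with hw'
  have hCU' : Ctr (U' : Set (ℤ × ℤ)) m w' := ctr_shift hU hEU
  have hQU1 : ∀ f, f ∈ Q ↔ f ∈ U ∧ (f.1 + -1, f.2) ∈ U := hQU
  have hQU2 : ∀ f, f ∈ Q ↔ f ∈ U' ∧ (f.1 + 1, f.2) ∈ U' := by
    intro f
    rw [hQU, hU', mem_shimg, mem_shimg]
    have : (f.1 + 1 - 1, f.2) = f := by simp
    rw [this]
    exact and_comm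
  -- links
  obtain ⟨w₂, k₂, sg, A⟩ := exists_link (Or.inr rfl) hU hQ hQU1 hcon k0 k4 hk
  obtain ⟨w₃, k₃, sg', A'⟩ := exists_link (Or.inl rfl) hCU' hQ hQU2 hcon k0 k4 hk
  have hch' : ∀ D, ChA w m D → ChA w' m D := by
    intro D h a b ha hb h1 h2
    refine h a b ha hb ?_ ?_
    · have : (w' a).1 - (w' b).1 = (w a).1 - (w b).1 := by simp only [hw']; ring
      rwa [this] at h1
    · exact h2
  have hlip' : Lip w' m := by
    intro a b ha hb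
    have h := hlip a b ha hb
    refine ⟨?_, h.2⟩
    have : (w' a).1 - (w' b).1 = (w a).1 - (w b).1 := by simp only [hw']; ring
    rw [this]
    exact h.1
  have hsep' : ∀ a b : ℕ, a ≤ k 1 → k 2 ≤ b → b ≤ k 3 →
      R ≤ |(w' a).1 - (w' b).1| ∨ R ≤ |(w' a).2 - (w' b).2| := by
    intro a b h1 h2 h3
    have h := hsep a b h1 h2 h3
    have : (w' a).1 - (w' b).1 = (w a).1 - (w b).1 := by simp only [hw']; ring
    rw [this]
    exact h
  have hne := attained (Or.inr rfl) hU hQU1 (fun f hf h => by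
    have := hth1 f hf h
    simpa using this) hc5 A k4 hk hlong
  have hne' := attained (Or.inl rfl) hCU' hQU2 (by
    intro f hf h
    rw [hU', mem_shimg] at hf h ⊢
    have e1 : (f.1 + 1 - 1, f.2) = f := by simp
    rw [e1] at h
    have e2 : ((f.1 - 1, f.2) : ℤ × ℤ).1 + 1 = f.1 := by simp
    have := hth2 (f.1 - 1, f.2) hf (by rw [e2]; exact h)
    simpa using this) (hch' 5 hc5) A' k4 hk hlong
  have a1 := apr_of_link A (by omega) (fun f hf => ((hQU f).1 hf).1) hU k4 hk hne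
  have a2 := apr_of_link A' (by omega) (fun f hf => ((hQU2 f).1 hf).1) hCU' k4 hk hne'
  -- Lemma C
  obtain ⟨ρ, hρ⟩ : ∃ ρ : ℤ, ρ = (R - 1) / 2 := ⟨_, rfl⟩
  have hρ0 : 0 < ρ := by omega
  have hρR : R ≤ 3 * ρ := by omega
  have hRr : (100 : ℝ) ≤ R := by exact_mod_cast hR
  have hR0 : (0 : ℝ) < R := by linarith
  have b1 := hL U Q m w (k 1) (k 2) (k 3) m' w₂ (k₂ 1) (k₂ 2) (k₂ 3) (2 + 1) _ a1 1 (Or.inr rfl) ρ hρ0
    (Or.inl (hd_of_sep hsep (by omega) (by omega) 1))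
  have b2 := hL U' Q m w' (k 1) (k 2) (k 3) m' w₃ (k₃ 1) (k₃ 2) (k₃ 3) (2 + 1) _ a2 1 (Or.inr rfl) ρ hρ0
    (Or.inl (hd_of_sep hsep' (by omega) (by omega) 1))
  have hx1 : C₁ * ((((2 + 1 : ℤ) : ℤ) : ℝ) / ρ) ^ α ≤ C₁ * 9 ^ α * ((1 : ℝ) / R) ^ γ := by
    have e1 : (((2 + 1 : ℤ) : ℤ) : ℝ) / ρ ≤ 9 * (1 / R) := by
      have h1 : (R : ℝ) ≤ 3 * ρ := by exact_mod_cast hρR
      have h2 : (0 : ℝ) < ρ := by exact_mod_cast hρ0
      rw [mul_one_div, div_le_div_iff₀ h2 hR0]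
      push_cast
      linarith
    have e2 : ((((2 + 1 : ℤ) : ℤ) : ℝ) / ρ) ^ α ≤ (9 * (1 / (R : ℝ))) ^ α := by
      apply Real.rpow_le_rpow _ e1 hα.le
      have h2 : (0 : ℝ) < ρ := by exact_mod_cast hρ0
      positivity
    rw [Real.mul_rpow (by norm_num) (by positivity)] at e2
    have e3 : ((1 : ℝ) / R) ^ α ≤ ((1 : ℝ) / R) ^ γ := by
      apply Real.rpow_le_rpow_of_exponent_ge (by positivity)
      · rw [div_le_one hR0]; linarith
      · exact min_le_left _ _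
    calc C₁ * ((((2 + 1 : ℤ) : ℤ) : ℝ) / ρ) ^ α ≤ C₁ * (9 ^ α * ((1 : ℝ) / R) ^ α) := by gcongr
      _ ≤ C₁ * (9 ^ α * ((1 : ℝ) / R) ^ γ) := by gcongr
      _ = _ := by ring
  have hx2 : C₂ * (((30 : ℤ) : ℝ) / ((R - 4 : ℤ) : ℝ)) ^ β ≤ C₂ * 60 ^ β * ((1 : ℝ) / R) ^ γ := by
    have e1 : ((30 : ℤ) : ℝ) / ((R - 4 : ℤ) : ℝ) ≤ 60 * (1 / R) := by
      push_cast
      rw [mul_one_div, div_le_div_iff₀ (by linarith) hR0]
      linarith
    have e2 : (((30 : ℤ) : ℝ) / ((R - 4 : ℤ) : ℝ)) ^ β ≤ (60 * (1 / (R : ℝ))) ^ β := by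
      apply Real.rpow_le_rpow _ e1 hβ.le
      push_cast
      have : (0 : ℝ) < R - 4 := by linarith
      positivity
    rw [Real.mul_rpow (by norm_num) (by positivity)] at e2
    have e3 : ((1 : ℝ) / R) ^ β ≤ ((1 : ℝ) / R) ^ γ := by
      apply Real.rpow_le_rpow_of_exponent_ge (by positivity)
      · rw [div_le_one hR0]; linarith
      · exact min_le_right _ _
    calc C₂ * (((30 : ℤ) : ℝ) / ((R - 4 : ℤ) : ℝ)) ^ β ≤ C₂ * (60 ^ β * ((1 : ℝ) / R) ^ β) := by gcongr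
      _ ≤ C₂ * (60 ^ β * ((1 : ℝ) / R) ^ γ) := by gcongr
      _ = _ := by ring
  -- the two families of arcs of `Q`
  have harm : ∀ p : ℤ × ℤ, pr Q (Ev (Q : Set (ℤ × ℤ)) 1 p 30 (R - 4)) ≤ C₂ * 60 ^ β * ((1 : ℝ) / R) ^ γ :=
    fun p => (hE Q 1 p 30 (R - 4) (by omega) (by omega)).trans hx2
  have c1 := pr_four Q (xa_cmp (w := w) (w' := w') (fun a => ⟨by simp [hw'], rfl⟩) hc9 hlip k4 hk A A' hne
    hsep 1) (harm _) (harm _) (harm _) (harm _)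
  have c2 := pr_four Q (xa_cmp (w := w') (w' := w) (fun a => ⟨by simp [hw'], rfl⟩) (hch' 9 hc9) hlip' k4 hk
    A' A hne' hsep' 1) (harm _) (harm _) (harm _) (harm _)
  have d := pr_xa_shift U w 1 0 (k 1) (k 2) (k 3)
  rw [show (1 : ℤ) - 1 = 0 by norm_num] at d
  rw [← d]
  have b1' := b1.trans hx1
  have b2' := b2.trans hx1
  rw [abs_le] at b1' b2' ⊢
  constructor
  · linarith
  · linarith

/-! ### Refined polygons -/

/-- four marks as a function -/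
def kk (a b c m : ℕ) : ℕ → ℕ := fun x =>
  if x = 0 then 0 else if x = 1 then a else if x = 2 then b else if x = 3 then c else m

theorem kk_mono {a b c m : ℕ} (h1 : a ≤ b) (h2 : b ≤ c) (h3 : c ≤ m) : Monotone (kk a b c m) := by
  intro x y hxy
  unfold kk
  split_ifs <;> omega

theorem cr_eq_xa (P : Finset (ℤ × ℤ)) (g : ℤ → ℤ × ℤ) (n : ℕ) (col i : ℤ) (a b c : ℕ) :
    Cr P g n col i (i + a) (i + b) (i + c) =
      pr (rf n P) (XA col (rf n P : Set (ℤ × ℤ)) (fun s => gr n g (i + s)) 0 a b c) := by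
  unfold Cr
  congr 1
  ext ω
  constructor
  · rintro ⟨x, y, h1, h2, h3, h4, h5, h6⟩
    have e1 : i + ((x - i).toNat : ℤ) = x := by omega
    have e2 : i + ((y - i).toNat : ℤ) = y := by omega
    refine ⟨(x - i).toNat, (y - i).toNat, Nat.zero_le _, by omega, by omega, by omega, ?_, ?_⟩
    · simp only [e1]; exact h5
    · simp only [e1, e2]; exact h6
  · rintro ⟨x, y, h1, h2, h3, h4, h5, h6⟩
    exact ⟨i + x, i + y, by omega, by omega, by omega, by omega, h5, h6⟩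

theorem mem_rf_blk {n : ℕ} (hn : 0 < n) {P : Finset (ℤ × ℤ)} {x y X Y : ℤ} (h1 : n * X ≤ x)
    (h2 : x < n * X + n) (h3 : n * Y ≤ y) (h4 : y < n * Y + n) : (x, y) ∈ rf n P ↔ (X, Y) ∈ P := by
  have hn' : (0 : ℤ) < n := by exact_mod_cast hn
  have hdiv : ∀ X x : ℤ, n * X ≤ x → x < n * X + n → x / n = X := by
    intro X x h1 h2
    apply le_antisymm
    · have : x / n < X + 1 := by
        apply Int.ediv_lt_of_lt_mul hn'
        nlinarith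
      omega
    · apply Int.le_ediv_of_mul_le hn'
      nlinarith
  rw [mem_rf hn]
  simp only [hdiv X x h1 h2, hdiv Y y h3 h4]

/-- a face of the refinement whose left neighbour is outside has its right neighbour inside -/
theorem rf_thick {n : ℕ} (hn : 2 ≤ n) {P : Finset (ℤ × ℤ)} {f : ℤ × ℤ} (hf : f ∈ rf n P) :
    ((f.1 - 1, f.2) ∉ rf n P → (f.1 + 1, f.2) ∈ rf n P) ∧
      ((f.1 + 1, f.2) ∉ rf n P → (f.1 - 1, f.2) ∈ rf n P) := by
  have hn0 : 0 < n := by omega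
  have hn' : (0 : ℤ) < n := by exact_mod_cast hn0
  have hn2 : (2 : ℤ) ≤ n := by exact_mod_cast hn
  obtain ⟨x, y⟩ := f
  obtain ⟨X, hX⟩ : ∃ X, X = x / n := ⟨_, rfl⟩
  obtain ⟨Y, hY⟩ : ∃ Y, Y = y / n := ⟨_, rfl⟩
  have h1 : n * X ≤ x := by rw [hX]; exact Int.mul_ediv_self_le hn'.ne'
  have h2 : x < n * X + n := by
    rw [hX]
    simpa using Int.lt_mul_ediv_self_add (x := x) hn'
  have h3 : n * Y ≤ y := by rw [hY]; exact Int.mul_ediv_self_le hn'.ne'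
  have h4 : y < n * Y + n := by
    rw [hY]
    simpa using Int.lt_mul_ediv_self_add (x := y) hn'
  have hP : (X, Y) ∈ P := (mem_rf_blk hn0 h1 h2 h3 h4).1 hf
  simp only
  constructor
  · intro h
    by_cases h5 : n * X ≤ x - 1
    · exact absurd ((mem_rf_blk hn0 h5 (by omega) h3 h4).2 hP) h
    · exact (mem_rf_blk hn0 (by omega) (by omega) h3 h4).2 hP
  · intro h
    by_cases h5 : x + 1 < n * X + n
    · exact absurd ((mem_rf_blk hn0 (by omega) h5 h3 h4).2 hP) h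
    · exact (mem_rf_blk hn0 (by omega) (by omega) h3 h4).2 hP

/-- **Both colours have the same crossing probabilities**, up to a power of the mesh. -/
theorem Cr_col_pow : ∃ C β : ℝ, 0 < C ∧ 0 < β ∧ ∀ (P : Finset (ℤ × ℤ)) (L : ℕ) (g : ℤ → ℤ × ℤ),
    MPoly P → Cont P L g → ∀ (n : ℕ) (i j k l R : ℤ), 0 < R → R ≤ n → 2 * R ≤ j - i → 2 * R ≤ k - j →
    2 * R ≤ l - k → 2 * R ≤ i + n * L - l →
    |Cr P g n 0 i j k l - Cr P g n 1 i j k l| ≤ C * ((1 : ℝ) / R) ^ β := by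
  obtain ⟨C, β, hC, hβ, h⟩ := col_core
  refine ⟨max C (100 ^ β), β, lt_max_of_lt_left hC, hβ, ?_⟩
  intro P L g hP hg n i j k l R hR0 hRn h1 h2 h3 h4
  have hR0' : (0 : ℝ) < R := by exact_mod_cast hR0
  rcases lt_or_ge R 100 with hR | hR
  · -- trivial range
    have a1 : 0 ≤ Cr P g n 0 i j k l := pr_nonneg _ _
    have a2 : 0 ≤ Cr P g n 1 i j k l := pr_nonneg _ _
    have a3 : Cr P g n 0 i j k l ≤ 1 := pr_le_one _ _
    have a4 : Cr P g n 1 i j k l ≤ 1 := pr_le_one _ _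
    have a5 : |Cr P g n 0 i j k l - Cr P g n 1 i j k l| ≤ 1 := by
      rw [abs_le]; constructor <;> linarith
    refine a5.trans ?_
    have a6 : (1 : ℝ) ≤ (100 * (1 / (R : ℝ))) ^ β := by
      apply Real.one_le_rpow _ hβ.le
      rw [mul_one_div, le_div_iff₀ hR0']
      have : (R : ℝ) ≤ 100 := by exact_mod_cast hR.le
      linarith
    rw [Real.mul_rpow (by norm_num) (by positivity)] at a6
    refine a6.trans ?_
    gcongr
    exact le_max_right _ _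
  -- the main range
  have hn : 2 ≤ n := by omega
  have hn0 : 0 < n := by omega
  obtain ⟨a, ha⟩ := Int.eq_ofNat_of_zero_le (show 0 ≤ j - i by omega)
  obtain ⟨b, hb⟩ := Int.eq_ofNat_of_zero_le (show 0 ≤ k - i by omega)
  obtain ⟨c, hc⟩ := Int.eq_ofNat_of_zero_le (show 0 ≤ l - i by omega)
  obtain ⟨m, hm⟩ : ∃ m : ℕ, m = n * L := ⟨_, rfl⟩
  have hm' : (m : ℤ) = n * L := by rw [hm]; push_cast; ring
  rw [← hm'] at h4
  have ej : j = i + a := by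
    have : (Int.ofNat a) = (a : ℤ) := rfl
    omega
  have ek : k = i + b := by
    have : (Int.ofNat b) = (b : ℤ) := rfl
    omega
  have el : l = i + c := by
    have : (Int.ofNat c) = (c : ℤ) := rfl
    omega
  subst ej ek el
  rw [cr_eq_xa, cr_eq_xa]
  have hgr : Cont (rf n P) (n * L) (gr n g) := CARf.cont_rf hg hn0
  have hE : Esc (rf n P : Set (ℤ × ℤ)) := esc_rf hn0 hP
  have hctr : Ctr (rf n P : Set (ℤ × ℤ)) m (fun s => gr n g (i + s)) := by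
    rw [hm]
    exact hgr.ctr (hE.hasPot' (Finset.finite_toSet _)) i
  -- the common part
  have hfin : (shl (rf n P : Set (ℤ × ℤ))).Finite :=
    (Finset.finite_toSet (rf n P)).subset fun f hf => hf.1
  obtain ⟨m', w₁, -, hw₁⟩ := Top.exists_ctr hfin (shl_nonempty hn hP) (econn_shl hn hP) (esc_shl hE)
  set Q : Finset (ℤ × ℤ) := hfin.toFinset with hQ
  have hQc : (Q : Set (ℤ × ℤ)) = shl (rf n P : Set (ℤ × ℤ)) := hfin.coe_toFinset
  have hQm : ∀ f, f ∈ Q ↔ f ∈ rf n P ∧ (f.1 - 1, f.2) ∈ rf n P := by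
    intro f
    rw [hQ, Set.Finite.mem_toFinset]
    simp only [shl, Set.mem_ofPred_eq, mem_coe]
  rw [← hQc] at hw₁
  have hcon : ∀ f ∈ Q, ∀ g ∈ Q, Chn (Q : Set (ℤ × ℤ)) f g := by
    intro f hf g' hg'
    refine ⟨mem_coe.2 hf, ?_⟩
    have := econn_shl hn hP f (by rw [← hQc]; exact mem_coe.2 hf) g' (by rw [← hQc]; exact mem_coe.2 hg')
    rw [← hQc] at this
    exact rtg_mono (fun _ _ hab => ⟨adj_iff_adjF.2 hab.1, hab.2⟩) this
  have hch : ∀ D : ℤ, D < n → ChA (fun s : ℕ => gr n g (i + s)) m D := by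
    intro D hD x y hx hy d1 d2
    obtain ⟨q, hq⟩ := gr_chord hg hn0 (a := i + y) (b := i + x) hD d1 d2
    rw [← hm'] at hq
    have e : i + (x : ℤ) - (i + y) - q * m = x - y - q * m := by ring
    rw [e] at hq
    have hD0 : 0 ≤ D := (abs_nonneg _).trans d1
    rcases lt_trichotomy q 0 with h0 | h0 | h0
    · right
      have : q * (m : ℤ) ≤ -1 * m := mul_le_mul_of_nonneg_right (by omega) (by omega)
      simp only [abs_le, le_abs] at *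
      omega
    · left
      rw [h0, zero_mul, sub_zero] at hq
      exact hq
    · right
      have : 1 * (m : ℤ) ≤ q * m := mul_le_mul_of_nonneg_right (by omega) (by omega)
      simp only [abs_le, le_abs] at *
      omega
  have hlip : Lip (fun s : ℕ => gr n g (i + s)) m := by
    have one : ∀ x y : ℕ, x ≤ y → |(gr n g (i + x)).1 - (gr n g (i + y)).1| ≤ |(x : ℤ) - y| ∧
        |(gr n g (i + x)).2 - (gr n g (i + y)).2| ≤ |(x : ℤ) - y| := by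
      intro x y hxy
      have := gr_lip hg hn0 (i + x) (y - x)
      have e : i + (x : ℤ) + ((y - x : ℕ) : ℤ) = i + y := by omega
      rw [e, abs_sub_comm, abs_sub_comm (gr n g (i + y)).2] at this
      have e2 : |(x : ℤ) - y| = ((y - x : ℕ) : ℤ) := by
        rw [abs_sub_comm, abs_of_nonneg (by omega)]; omega
      rw [e2]
      exact this
    intro x y _ _
    rcases le_total x y with hxy | hxy
    · exact one x y hxy
    · have := one y x hxy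
      rw [abs_sub_comm, abs_sub_comm (gr n g (i + y)).2, abs_sub_comm (y : ℤ)] at this
      exact this
  have hres := h (rf n P) Q m m' (fun s => gr n g (i + s)) w₁ (kk a b c m) R hctr hE hw₁ hQm hcon
    (fun f hf => (rf_thick hn hf).1) (fun f hf => (rf_thick hn hf).2) (hch 5 (by omega))
    (hch 9 (by omega)) hlip rfl rfl (kk_mono (by omega) (by omega) (by omega)) ?_ hR ?_
  · have e1 : kk a b c m 1 = a := rfl
    have e2 : kk a b c m 2 = b := rfl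
    have e3 : kk a b c m 3 = c := rfl
    rw [e1, e2, e3] at hres
    refine hres.trans ?_
    gcongr
    exact le_max_left _ _
  · intro j hj
    have : j = 0 ∨ j = 1 ∨ j = 2 ∨ j = 3 := by omega
    rcases this with rfl | rfl | rfl | rfl
    · show 0 + 30 ≤ a
      omega
    · show a + 30 ≤ b
      omega
    · show b + 30 ≤ c
      omega
    · show c + 30 ≤ m
      omega
  · intro x y hx hy hy'
    have hx' : x ≤ a := hx
    have hy1 : b ≤ y := hy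
    have hy2 : y ≤ c := hy'
    exact gr_sep hg hn0 hRn (by omega) (by rw [← hm']; omega)

open Filter Topology in
/-- **CACol**: the crossing probabilities of the two colours are asymptotically equal, along all index
sequences with four distinct limits of `index / n`. -/
theorem tendsto_Cr_col {P : Finset (ℤ × ℤ)} {L : ℕ} {g : ℤ → ℤ × ℤ} (hP : MPoly P) (hg : Cont P L g)
    {t₁ t₂ t₃ t₄ : ℝ} (h12 : t₁ < t₂) (h23 : t₂ < t₃) (h34 : t₃ < t₄) (h41 : t₄ < t₁ + L)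
    {i j k l : ℕ → ℤ} (hi : Tendsto (fun n => (i n : ℝ) / n) atTop (𝓝 t₁))
    (hj : Tendsto (fun n => (j n : ℝ) / n) atTop (𝓝 t₂))
    (hk : Tendsto (fun n => (k n : ℝ) / n) atTop (𝓝 t₃))
    (hl : Tendsto (fun n => (l n : ℝ) / n) atTop (𝓝 t₄)) :
    Tendsto (fun n => Cr P g n 0 (i n) (j n) (k n) (l n) - Cr P g n 1 (i n) (j n) (k n) (l n)) atTop
      (𝓝 0) := by
  obtain ⟨C, β, hC, hβ, h⟩ := Cr_col_pow
  -- the gap
  obtain ⟨η, hη, e1, e2, e3, e4⟩ : ∃ η : ℝ, 0 < η ∧ 4 * η < t₂ - t₁ ∧ 4 * η < t₃ - t₂ ∧ 4 * η < t₄ - t₃ ∧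
      4 * η < t₁ + L - t₄ := by
    have := lt_min (lt_min (sub_pos.2 h12) (sub_pos.2 h23)) (lt_min (sub_pos.2 h34) (sub_pos.2 h41))
    refine ⟨min (min (t₂ - t₁) (t₃ - t₂)) (min (t₄ - t₃) (t₁ + L - t₄)) / 8, by positivity, ?_, ?_, ?_, ?_⟩
    · have := min_le_left (min (t₂ - t₁) (t₃ - t₂)) (min (t₄ - t₃) (t₁ + L - t₄))
      have := min_le_left (t₂ - t₁) (t₃ - t₂)
      linarith
    · have := min_le_left (min (t₂ - t₁) (t₃ - t₂)) (min (t₄ - t₃) (t₁ + L - t₄))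
      have := min_le_right (t₂ - t₁) (t₃ - t₂)
      linarith
    · have := min_le_right (min (t₂ - t₁) (t₃ - t₂)) (min (t₄ - t₃) (t₁ + L - t₄))
      have := min_le_left (t₄ - t₃) (t₁ + L - t₄)
      linarith
    · have := min_le_right (min (t₂ - t₁) (t₃ - t₂)) (min (t₄ - t₃) (t₁ + L - t₄))
      have := min_le_right (t₄ - t₃) (t₁ + L - t₄)
      linarith
  set θ : ℝ := min η 1 with hθ
  have hθ0 : 0 < θ := lt_min hη one_pos
  have hθη : θ ≤ η := min_le_left _ _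
  have hθ1 : θ ≤ 1 := min_le_right _ _
  have E1 : ∀ᶠ n : ℕ in atTop, 4 * η < (j n : ℝ) / n - (i n : ℝ) / n := (hj.sub hi).eventually_const_lt e1
  have E2 : ∀ᶠ n : ℕ in atTop, 4 * η < (k n : ℝ) / n - (j n : ℝ) / n := (hk.sub hj).eventually_const_lt e2
  have E3 : ∀ᶠ n : ℕ in atTop, 4 * η < (l n : ℝ) / n - (k n : ℝ) / n := (hl.sub hk).eventually_const_lt e3
  have E4 : ∀ᶠ n : ℕ in atTop, 4 * η < (i n : ℝ) / n + L - (l n : ℝ) / n :=
    ((hi.add_const (L : ℝ)).sub hl).eventually_const_lt e4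
  have E5 : ∀ᶠ n : ℕ in atTop, 2 / θ ≤ (n : ℝ) := tendsto_natCast_atTop_atTop.eventually_ge_atTop _
  -- the bound
  have hlim : Tendsto (fun n : ℕ => C * (2 / (θ * (n : ℝ))) ^ β) atTop (𝓝 0) := by
    have h1 : Tendsto (fun n : ℕ => 2 / (θ * (n : ℝ))) atTop (𝓝 0) := by
      have : Tendsto (fun n : ℕ => θ * (n : ℝ)) atTop atTop :=
        Tendsto.const_mul_atTop hθ0 tendsto_natCast_atTop_atTop
      exact this.const_div_atTop 2
    have h2 : Tendsto (fun n : ℕ => (2 / (θ * (n : ℝ))) ^ β) atTop (𝓝 ((0 : ℝ) ^ β)) :=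
      h1.rpow_const (Or.inr hβ.le)
    rw [Real.zero_rpow hβ.ne'] at h2
    have h3 := h2.const_mul C
    rwa [mul_zero] at h3
  refine squeeze_zero_norm' ?_ hlim
  filter_upwards [E1, E2, E3, E4, E5] with n g1 g2 g3 g4 g5
  have hn0 : (0 : ℝ) < n := lt_of_lt_of_le (by positivity) g5
  have hθn : 2 ≤ θ * n := by
    rw [div_le_iff₀ hθ0] at g5
    linarith
  obtain ⟨R, hR⟩ : ∃ R : ℤ, R = ⌊θ * n⌋ := ⟨_, rfl⟩
  have hR1 : (R : ℝ) ≤ θ * n := by rw [hR]; exact Int.floor_le _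
  have hR2 : θ * n / 2 ≤ R := by
    have := Int.lt_floor_add_one (θ * n)
    rw [← hR] at this
    linarith
  have hR0 : (0 : ℝ) < R := by
    have : (0 : ℝ) < θ * n / 2 := by linarith
    linarith
  have gap : ∀ x y : ℝ, 4 * η < y / n - x / n → 2 * (R : ℝ) ≤ y - x := by
    intro x y hxy
    rw [← sub_div, lt_div_iff₀ hn0] at hxy
    have : θ * n ≤ η * n := by gcongr
    linarith
  have q1 : 2 * R ≤ j n - i n := by exact_mod_cast gap _ _ g1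
  have q2 : 2 * R ≤ k n - j n := by exact_mod_cast gap _ _ g2
  have q3 : 2 * R ≤ l n - k n := by exact_mod_cast gap _ _ g3
  have q4 : 2 * R ≤ i n + n * L - l n := by
    have : (2 : ℝ) * R ≤ (i n + n * L) - l n := by
      apply gap
      rw [add_div, mul_div_cancel_left₀ _ hn0.ne']
      exact g4
    exact_mod_cast this
  have q5 : R ≤ n := by
    have : (R : ℝ) ≤ n := hR1.trans (by
      calc θ * n ≤ 1 * n := by gcongr
        _ = n := one_mul _)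
    exact_mod_cast this
  have hfin := h P L g hP hg n (i n) (j n) (k n) (l n) R (by exact_mod_cast hR0) q5 q1 q2 q3 q4
  rw [Real.norm_eq_abs]
  refine hfin.trans ?_
  have : (1 : ℝ) / R ≤ 2 / (θ * n) := by
    rw [div_le_div_iff₀ hR0 (by linarith)]
    linarith
  gcongr

end Pool.Agent.SixB.Col
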