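import Pool.Agent.Lib.SixB.CADefs
import Pool.Agent.Lib.MP_6bd702_z.Z034

/-!
# 6BD block CA, crossing probabilities: monotonicity, one arm bounds, dependence on the marks (helper96)

* `gr_lip`, `gr_chord`: the refined contour is 1-Lipschitz and satisfies a chord-arc condition;
* `crE_mono`, `crE_swap`, `Cr_shift`: monotonicity and symmetries;
* `Cr_short`: a short arc is joined to a distant arc with small probability;
* `Cr_close`: the crossing probability depends continuously on the four marks, uniformly in the mesh.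
-/

set_option autoImplicit false

namespace Pool.Agent.SixB

open Pool.Agent.Perc Pool.Agent.Perc6

/-! ### The refined contour -/

theorem chord_bd {n r s u e f D : ℤ} (hn : 0 < n) (hr0 : 0 ≤ r) (hr : r < n)
    (hs0 : 0 ≤ s) (hs : s < n) (hD : D < n) (he : e = 1 ∨ e = 0 ∨ e = -1)
    (hf : f = 1 ∨ f = 0 ∨ f = -1) (h1 : -D ≤ n * u + s * f - r * e ∧ n * u + s * f - r * e ≤ D) :
    u = -2 ∨ u = -1 ∨ u = 0 ∨ u = 1 ∨ u = 2 := by
  have h3 : n * u < n * 3 := by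
    rcases he with rfl | rfl | rfl <;> rcases hf with rfl | rfl | rfl <;> omega
  have h4 : n * (-3) < n * u := by
    rcases he with rfl | rfl | rfl <;> rcases hf with rfl | rfl | rfl <;> omega
  have h5 := lt_of_mul_lt_mul_left h3 hn.le
  have h6 := lt_of_mul_lt_mul_left h4 hn.le
  omega

theorem chord_share {n r s u v ex ey fx fy D : ℤ} (hn : 0 < n) (hr0 : 0 ≤ r) (hr : r < n)
    (hs0 : 0 ≤ s) (hs : s < n) (hD : D < n)
    (sk : (ex = 1 ∧ ey = 0) ∨ (ex = 0 ∧ ey = 1) ∨ (ex = -1 ∧ ey = 0) ∨ (ex = 0 ∧ ey = -1))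
    (sj : (fx = 1 ∧ fy = 0) ∨ (fx = 0 ∧ fy = 1) ∨ (fx = -1 ∧ fy = 0) ∨ (fx = 0 ∧ fy = -1))
    (h1 : -D ≤ n * u + s * fx - r * ex ∧ n * u + s * fx - r * ex ≤ D)
    (h2 : -D ≤ n * v + s * fy - r * ey ∧ n * v + s * fy - r * ey ≤ D) :
    (u = 0 ∧ v = 0) ∨ (u = -fx ∧ v = -fy) ∨ (u = ex ∧ v = ey) ∨ (u = ex - fx ∧ v = ey - fy) := by
  have hu2 := chord_bd hn hr0 hr hs0 hs hD (e := ex) (f := fx) (by omega) (by omega) h1
  have hv2 := chord_bd hn hr0 hr hs0 hs hD (e := ey) (f := fy) (by omega) (by omega) h2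
  rcases sk with ⟨rfl, rfl⟩ | ⟨rfl, rfl⟩ | ⟨rfl, rfl⟩ | ⟨rfl, rfl⟩ <;>
    rcases sj with ⟨rfl, rfl⟩ | ⟨rfl, rfl⟩ | ⟨rfl, rfl⟩ | ⟨rfl, rfl⟩ <;>
    rcases hu2 with rfl | rfl | rfl | rfl | rfl <;>
    rcases hv2 with rfl | rfl | rfl | rfl | rfl <;> omega

theorem chord_adj {n r s u v ex ey fx fy D : ℤ}
    (sk : (ex = 1 ∧ ey = 0) ∨ (ex = 0 ∧ ey = 1) ∨ (ex = -1 ∧ ey = 0) ∨ (ex = 0 ∧ ey = -1))
    (sj : (fx = 1 ∧ fy = 0) ∨ (fx = 0 ∧ fy = 1) ∨ (fx = -1 ∧ fy = 0) ∨ (fx = 0 ∧ fy = -1))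
    (h1 : -D ≤ n * u + s * fx - r * ex ∧ n * u + s * fx - r * ex ≤ D)
    (h2 : -D ≤ n * v + s * fy - r * ey ∧ n * v + s * fy - r * ey ≤ D)
    (hnb : ¬ (fx + ex = 0 ∧ fy + ey = 0)) :
    (u = -fx → v = -fy → n - s + r ≤ 2 * D) ∧ (u = ex → v = ey → n - r + s ≤ 2 * D) := by
  rcases sk with ⟨rfl, rfl⟩ | ⟨rfl, rfl⟩ | ⟨rfl, rfl⟩ | ⟨rfl, rfl⟩ <;>
    rcases sj with ⟨rfl, rfl⟩ | ⟨rfl, rfl⟩ | ⟨rfl, rfl⟩ | ⟨rfl, rfl⟩ <;>
    (constructor <;> rintro rfl rfl <;> omega)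

theorem chord_same {n r s ex ey D : ℤ}
    (sk : (ex = 1 ∧ ey = 0) ∨ (ex = 0 ∧ ey = 1) ∨ (ex = -1 ∧ ey = 0) ∨ (ex = 0 ∧ ey = -1))
    (h1 : -D ≤ n * 0 + s * ex - r * ex ∧ n * 0 + s * ex - r * ex ≤ D)
    (h2 : -D ≤ n * 0 + s * ey - r * ey ∧ n * 0 + s * ey - r * ey ≤ D) :
    -D ≤ s - r ∧ s - r ≤ D := by
  rcases sk with ⟨rfl, rfl⟩ | ⟨rfl, rfl⟩ | ⟨rfl, rfl⟩ | ⟨rfl, rfl⟩ <;> omega

theorem gr_step (g : ℤ → ℤ × ℤ) {n : ℕ} (hn : 0 < n) (k : ℤ) :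
    (gr n g (k + 1)).1 = (gr n g k).1 + ((g (k / n + 1)).1 - (g (k / n)).1) ∧
    (gr n g (k + 1)).2 = (gr n g k).2 + ((g (k / n + 1)).2 - (g (k / n)).2) := by
  have hn' : (0 : ℤ) < n := by exact_mod_cast hn
  have h1 := Int.mul_ediv_add_emod k n
  have h2 := Int.emod_nonneg k hn'.ne'
  have h3 := Int.emod_lt_of_pos k hn'
  rcases (show k % n + 1 < n ∨ k % n + 1 = n by omega) with h | h
  · have e1 : (k + 1) / n = k / n := by
      rw [Int.ediv_eq_iff_of_pos hn']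
      constructor <;> nlinarith
    have e2 : (k + 1) % n = k % n + 1 := by
      have := Int.mul_ediv_add_emod (k + 1) n
      rw [e1] at this
      linarith
    unfold gr
    simp only [e1, e2]
    constructor <;> ring
  · have e1 : (k + 1) / n = k / n + 1 := by
      rw [Int.ediv_eq_iff_of_pos hn']
      constructor <;> nlinarith
    have e2 : (k + 1) % n = 0 := by
      have := Int.mul_ediv_add_emod (k + 1) n
      rw [e1] at this
      nlinarith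
    have e3 : (k % n : ℤ) = n - 1 := by omega
    unfold gr
    simp only [e1, e2, e3]
    constructor <;> ring

theorem LSide.step {P : Finset (ℤ × ℤ)} {p q : ℤ × ℤ} (h : LSide P p q) :
    (q.1 = p.1 + 1 ∧ q.2 = p.2) ∨ (q.1 = p.1 ∧ q.2 = p.2 + 1) ∨ (q.1 = p.1 - 1 ∧ q.2 = p.2) ∨
      (q.1 = p.1 ∧ q.2 = p.2 - 1) := by
  rcases h with ⟨rfl, -⟩ | ⟨rfl, -⟩ | ⟨rfl, -⟩ | ⟨rfl, -⟩ <;> simp

theorem LSide.not_back {P : Finset (ℤ × ℤ)} {p q : ℤ × ℤ} (h : LSide P p q) :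
    ¬ LSide P q p := by
  intro h'
  obtain ⟨p1, p2⟩ := p
  obtain ⟨q1, q2⟩ := q
  simp only [LSide, Prod.mk.injEq] at h h'
  rcases h with ⟨⟨rfl, rfl⟩, h1, h2⟩ | ⟨⟨rfl, rfl⟩, h1, h2⟩ | ⟨⟨rfl, rfl⟩, h1, h2⟩ |
    ⟨⟨rfl, rfl⟩, h1, h2⟩
  · rcases h' with ⟨⟨h3, h4⟩, h5, h6⟩ | ⟨⟨h3, h4⟩, h5, h6⟩ | ⟨⟨h3, h4⟩, h5, h6⟩ | ⟨⟨h3, h4⟩, h5, h6⟩
    · omega
    · omega
    · apply h2
      rw [add_sub_cancel_right] at h5
      exact h5
    · omega
  · rcases h' with ⟨⟨h3, h4⟩, h5, h6⟩ | ⟨⟨h3, h4⟩, h5, h6⟩ | ⟨⟨h3, h4⟩, h5, h6⟩ | ⟨⟨h3, h4⟩, h5, h6⟩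
    · omega
    · omega
    · omega
    · apply h2
      rw [add_sub_cancel_right] at h5
      exact h5
  · rcases h' with ⟨⟨h3, h4⟩, h5, h6⟩ | ⟨⟨h3, h4⟩, h5, h6⟩ | ⟨⟨h3, h4⟩, h5, h6⟩ | ⟨⟨h3, h4⟩, h5, h6⟩
    · exact h2 h5
    · omega
    · omega
    · omega
  · rcases h' with ⟨⟨h3, h4⟩, h5, h6⟩ | ⟨⟨h3, h4⟩, h5, h6⟩ | ⟨⟨h3, h4⟩, h5, h6⟩ | ⟨⟨h3, h4⟩, h5, h6⟩
    · omega
    · exact h2 h5
    · omega
    · omega

theorem Cont.per_mul {P : Finset (ℤ × ℤ)} {L : ℕ} {g : ℤ → ℤ × ℤ} (h : Cont P L g) (x q : ℤ) :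
    g (x + q * L) = g x := by
  have hper : ∀ (m : ℕ) (x : ℤ), g (x + m * L) = g x := by
    intro m
    induction m with
    | zero => intro x; simp
    | succ m ih =>
      intro x
      have e : x + ((m + 1 : ℕ) : ℤ) * L = (x + m * L) + L := by push_cast; ring
      rw [e, h.per, ih]
  rcases le_total 0 q with hq | hq
  · obtain ⟨m, rfl⟩ := Int.eq_ofNat_of_zero_le hq
    exact hper m x
  · obtain ⟨m, hm⟩ := Int.eq_ofNat_of_zero_le (show 0 ≤ -q by omega)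
    have h3 := hper m (x + q * L)
    have e : x + q * L + (m : ℤ) * L = x := by
      rw [← hm]
      ring
    rw [e] at h3
    exact h3.symm

theorem gr_lip {P : Finset (ℤ × ℤ)} {L : ℕ} {g : ℤ → ℤ × ℤ} (h : Cont P L g) {n : ℕ} (hn : 0 < n)
    (a : ℤ) (m : ℕ) : |(gr n g (a + m)).1 - (gr n g a).1| ≤ m ∧
      |(gr n g (a + m)).2 - (gr n g a).2| ≤ m := by
  induction m with
  | zero => simp
  | succ m ih =>
    have h1 := gr_step g hn (a + m)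
    have h2 := (h.side ((a + m) / n)).step
    have e : a + ((m + 1 : ℕ) : ℤ) = a + m + 1 := by push_cast; ring
    rw [e, h1.1, h1.2]
    rw [abs_le, abs_le] at ih ⊢
    push_cast
    constructor <;> constructor <;> omega

theorem gr_per {P : Finset (ℤ × ℤ)} {L : ℕ} {g : ℤ → ℤ × ℤ} (h : Cont P L g) {n : ℕ} (hn : 0 < n)
    (k : ℤ) : gr n g (k + n * L) = gr n g k := by
  have hn' : (0 : ℤ) < n := by exact_mod_cast hn
  have e1 : (k + n * L) / n = k / n + L := by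
    rw [Int.add_mul_ediv_left _ _ hn'.ne']
  have e2 : (k + n * L) % n = k % n := by
    rw [Int.add_mul_emod_self_left]
  have e3 : k / n + L + 1 = (k / n + 1) + L := by ring
  unfold gr
  rw [e1, e2, e3, h.per, h.per]

/-- **Chord-arc condition**: two points of the refined contour which are closer than `n` (sup norm) are close
along the contour. -/
theorem gr_chord {P : Finset (ℤ × ℤ)} {L : ℕ} {g : ℤ → ℤ × ℤ} (h : Cont P L g) {n : ℕ} (hn : 0 < n)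
    {a b D : ℤ} (hD : D < n) (h1 : |(gr n g b).1 - (gr n g a).1| ≤ D)
    (h2 : |(gr n g b).2 - (gr n g a).2| ≤ D) : ∃ q : ℤ, |b - a - q * (n * L)| ≤ 2 * D := by
  have hn' : (0 : ℤ) < n := by exact_mod_cast hn
  have hD0 : 0 ≤ D := (abs_nonneg _).trans h1
  have ha1 := Int.mul_ediv_add_emod a n
  have ha2 := Int.emod_nonneg a hn'.ne'
  have ha3 := Int.emod_lt_of_pos a hn'
  have hb1 := Int.mul_ediv_add_emod b n
  have hb2 := Int.emod_nonneg b hn'.ne'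
  have hb3 := Int.emod_lt_of_pos b hn'
  unfold gr at h1 h2
  obtain ⟨k, hk⟩ : ∃ k, a / n = k := ⟨_, rfl⟩
  obtain ⟨r, hr⟩ : ∃ r, a % n = r := ⟨_, rfl⟩
  obtain ⟨j, hj⟩ : ∃ j, b / n = j := ⟨_, rfl⟩
  obtain ⟨s, hs⟩ : ∃ s, b % n = s := ⟨_, rfl⟩
  simp only [hk, hr, hj, hs] at h1 h2 ha1 ha2 ha3 hb1 hb2 hb3
  have sk := (h.side k).step
  have sj := (h.side j).step
  obtain ⟨u, hu⟩ : ∃ u, (g j).1 = (g k).1 + u := ⟨(g j).1 - (g k).1, by ring⟩
  obtain ⟨v, hv⟩ : ∃ v, (g j).2 = (g k).2 + v := ⟨(g j).2 - (g k).2, by ring⟩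
  obtain ⟨ex, hex⟩ : ∃ x, (g (k + 1)).1 - (g k).1 = x := ⟨_, rfl⟩
  obtain ⟨ey, hey⟩ : ∃ x, (g (k + 1)).2 - (g k).2 = x := ⟨_, rfl⟩
  obtain ⟨fx, hfx⟩ : ∃ x, (g (j + 1)).1 - (g j).1 = x := ⟨_, rfl⟩
  obtain ⟨fy, hfy⟩ : ∃ x, (g (j + 1)).2 - (g j).2 = x := ⟨_, rfl⟩
  rw [hex, hfx, hu] at h1
  rw [hey, hfy, hv] at h2
  have e1 : (n : ℤ) * ((g k).1 + u) + s * fx - (n * (g k).1 + r * ex) = n * u + s * fx - r * ex := by
    ring
  have e2 : (n : ℤ) * ((g k).2 + v) + s * fy - (n * (g k).2 + r * ey) = n * v + s * fy - r * ey := by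
    ring
  rw [e1, abs_le] at h1
  rw [e2, abs_le] at h2
  have sk' : (ex = 1 ∧ ey = 0) ∨ (ex = 0 ∧ ey = 1) ∨ (ex = -1 ∧ ey = 0) ∨ (ex = 0 ∧ ey = -1) := by omega
  have sj' : (fx = 1 ∧ fy = 0) ∨ (fx = 0 ∧ fy = 1) ∨ (fx = -1 ∧ fy = 0) ∨ (fx = 0 ∧ fy = -1) := by omega
  have hshare := chord_share hn' ha2 ha3 hb2 hb3 hD sk' sj' h1 h2
  -- the same edge
  have same : ∀ q : ℤ, j - k = L * q → g j = g k → g (j + 1) = g (k + 1) →
      ∃ q : ℤ, |b - a - q * (n * L)| ≤ 2 * D := by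
    intro q hq hg hg1
    refine ⟨q, ?_⟩
    have hx : fx = ex := by rw [← hex, ← hfx, hg, hg1]
    have hy : fy = ey := by rw [← hey, ← hfy, hg, hg1]
    have hu0 : u = 0 := by
      have : (g j).1 = (g k).1 := by rw [hg]
      omega
    have hv0 : v = 0 := by
      have : (g j).2 = (g k).2 := by rw [hg]
      omega
    rw [hx, hu0] at h1
    rw [hy, hv0] at h2
    have h3 := chord_same sk' h1 h2
    have e : b - a - q * (n * L) = s - r := by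
      have : (n : ℤ) * (j - k) = n * (L * q) := by rw [hq]
      linarith
    rw [e, abs_le]
    constructor <;> linarith [h3.1, h3.2]
  rcases hshare with ⟨hu3, hv3⟩ | ⟨hu3, hv3⟩ | ⟨hu3, hv3⟩ | ⟨hu3, hv3⟩
  · -- `g k = g j`
    have hg : g j = g k := Prod.ext (by omega) (by omega)
    obtain ⟨q, hq⟩ := h.inj j k hg
    refine same q hq hg ?_
    have e : j + 1 = (k + 1) + q * L := by linarith
    rw [e, h.per_mul]
  · -- `g k = g (j + 1)`
    have hg : g (j + 1) = g k := Prod.ext (by omega) (by omega)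
    obtain ⟨q, hq⟩ := h.inj (j + 1) k hg
    have hnb' : ¬ (fx + ex = 0 ∧ fy + ey = 0) := by
      rintro ⟨x1, x2⟩
      have g1 : (g (j + 1)).1 = (g k).1 := by rw [hg]
      have g2 : (g (j + 1)).2 = (g k).2 := by rw [hg]
      have hg' : g (k + 1) = g j := Prod.ext (by omega) (by omega)
      have s1 := h.side j
      have s2 := h.side k
      rw [hg] at s1
      rw [hg'] at s2
      exact s1.not_back s2
    refine ⟨q, ?_⟩
    have e : b - a - q * (n * L) = -(n - s + r) := by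
      have : (n : ℤ) * (j + 1 - k) = n * (L * q) := by rw [hq]
      linarith
    rw [e, abs_neg, abs_of_nonneg (by omega)]
    exact (chord_adj sk' sj' h1 h2 hnb').1 hu3 hv3
  · -- `g j = g (k + 1)`
    have hg : g (k + 1) = g j := Prod.ext (by omega) (by omega)
    obtain ⟨q, hq⟩ := h.inj j (k + 1) hg.symm
    have hnb' : ¬ (fx + ex = 0 ∧ fy + ey = 0) := by
      rintro ⟨x1, x2⟩
      have g1 : (g (k + 1)).1 = (g j).1 := by rw [hg]
      have g2 : (g (k + 1)).2 = (g j).2 := by rw [hg]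
      have hg' : g (j + 1) = g k := Prod.ext (by omega) (by omega)
      have s1 := h.side k
      have s2 := h.side j
      rw [hg] at s1
      rw [hg'] at s2
      exact s1.not_back s2
    refine ⟨q, ?_⟩
    have e : b - a - q * (n * L) = n - r + s := by
      have : (n : ℤ) * (j - (k + 1)) = n * (L * q) := by rw [hq]
      linarith
    rw [e, abs_of_nonneg (by omega)]
    exact (chord_adj sk' sj' h1 h2 hnb').2 hu3 hv3
  · -- `g (j + 1) = g (k + 1)`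
    have hg : g (j + 1) = g (k + 1) := Prod.ext (by omega) (by omega)
    obtain ⟨q, hq⟩ := h.inj (j + 1) (k + 1) hg
    have hq' : j - k = L * q := by linarith
    refine same q hq' ?_ hg
    have e : j = k + q * L := by linarith
    rw [e, h.per_mul]

/-! ### Crossing events -/

theorem depOn_CrE (D : Set (ℤ × ℤ)) (w : ℤ → ℤ × ℤ) (c i j k l : ℤ) : DepOn D (CrE D w c i j k l) := by
  intro ω ω' h
  simp only [CrE, Set.mem_ofPred_eq, GridA.conn_iff _ h]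

theorem crE_mono {D : Set (ℤ × ℤ)} {w : ℤ → ℤ × ℤ} {c i j k l i' j' k' l' : ℤ} (hi : i' ≤ i)
    (hj : j ≤ j') (hk : k' ≤ k) (hl : l ≤ l') : CrE D w c i j k l ⊆ CrE D w c i' j' k' l' := by
  rintro ω ⟨a, b, h1, h2, h3, h4, h5, h6⟩
  exact ⟨a, b, by omega, by omega, by omega, by omega, h5, h6⟩

theorem bond_symm {ω : Cfg} {F : Set (ℤ × ℤ)} {u v : ℤ × ℤ} (h : Bond ω F u v) : Bond ω F v u := by
  obtain ⟨x, y, hf, h⟩ := h
  refine ⟨x, y, hf, ?_⟩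
  rcases h with ⟨h1, h2 | h2⟩ | ⟨h1, h2 | h2⟩
  · exact Or.inl ⟨h1, Or.inr ⟨h2.2, h2.1⟩⟩
  · exact Or.inl ⟨h1, Or.inl ⟨h2.2, h2.1⟩⟩
  · exact Or.inr ⟨h1, Or.inr ⟨h2.2, h2.1⟩⟩
  · exact Or.inr ⟨h1, Or.inl ⟨h2.2, h2.1⟩⟩

theorem conn_sym {ω : Cfg} {F : Set (ℤ × ℤ)} {u v : ℤ × ℤ} (h : Conn ω F u v) : Conn ω F v u := by
  induction h with
  | refl => exact Relation.ReflTransGen.refl
  | tail _ hb ih => exact Relation.ReflTransGen.head (bond_symm hb) ih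

theorem crE_swap (D : Set (ℤ × ℤ)) (w : ℤ → ℤ × ℤ) (c i j k l : ℤ) :
    CrE D w c i j k l = CrE D w c k l i j := by
  ext ω
  constructor
  · rintro ⟨a, b, h1, h2, h3, h4, h5, h6⟩
    exact ⟨b, a, h3, h4, h1, h2, by rw [← h6.par_eq]; exact h5, conn_sym h6⟩
  · rintro ⟨a, b, h1, h2, h3, h4, h5, h6⟩
    exact ⟨b, a, h3, h4, h1, h2, by rw [← h6.par_eq]; exact h5, conn_sym h6⟩

/-- A short arc near `p` is joined to an arc far from `p` with small probability. -/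
theorem crE_arm : ∃ C β : ℝ, 0 < C ∧ 0 < β ∧ ∀ (D : Finset (ℤ × ℤ)) (w : ℤ → ℤ × ℤ)
    (c i j k l : ℤ) (p : ℤ × ℤ) (r R : ℤ), 0 < r → r ≤ R →
    (∀ a, i ≤ a → a ≤ j → |(w a).1 - p.1| ≤ r ∧ |(w a).2 - p.2| ≤ r) →
    (∀ b, k ≤ b → b ≤ l → R ≤ |(w b).1 - p.1| ∨ R ≤ |(w b).2 - p.2|) →
    pr D (CrE (D : Set (ℤ × ℤ)) w c i j k l) ≤ C * ((r : ℝ) / R) ^ β := by
  obtain ⟨C, β, hC, hβ, h⟩ := oneArm
  refine ⟨C, β, hC, hβ, fun D w c i j k l p r R hr hrR ha hb => ?_⟩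
  classical
  have h1 := h c p r R hr hrR
  have e1 : pr (D ∪ RFb p R) (CrE (D : Set (ℤ × ℤ)) w c i j k l) =
      pr D (CrE (D : Set (ℤ × ℤ)) w c i j k l) :=
    pr_eq_of_depOn (depOn_CrE _ _ _ _ _ _ _) Finset.subset_union_left
  have e2 : pr (D ∪ RFb p R) (ArmB c p r R) = pr (RFb p R) (ArmB c p r R) :=
    pr_eq_of_depOn (depOn_ArmB c p r R) Finset.subset_union_right
  rw [← e1]
  refine le_trans (pr_mono _ ?_) (e2 ▸ h1)
  rintro ω ⟨a, b, a1, a2, a3, a4, a5, a6⟩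
  have hca := ha a a1 a2
  have hcb := hb b a3 a4
  rw [abs_le, abs_le] at hca
  have hpar : ((w a).1 + (w a).2) % 2 = c := a5
  obtain ⟨v, hv1, hv2⟩ := Conn.toBd (x₀ := p.1 - R) (x₁ := p.1 + R) (y₀ := p.2 - R)
    (y₁ := p.2 + R) a6 (by omega) (by
      rintro ⟨q1, q2, q3, q4⟩
      rcases hcb with hcb | hcb
      · rw [le_abs] at hcb
        omega
      · rw [le_abs] at hcb
        omega)
  exact ⟨w a, v, by omega, by omega, by omega, by omega, by omega, hv2,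
    Conn.mono Set.inter_subset_right hv1⟩

/-! ### Crossing probabilities -/

section
variable {P : Finset (ℤ × ℤ)} {L : ℕ} {g : ℤ → ℤ × ℤ}

theorem crP_nonneg (P : Finset (ℤ × ℤ)) (g : ℤ → ℤ × ℤ) (n : ℕ) (c i j k l : ℤ) :
    0 ≤ Cr P g n c i j k l := pr_nonneg _ _

theorem crP_le_one (P : Finset (ℤ × ℤ)) (g : ℤ → ℤ × ℤ) (n : ℕ) (c i j k l : ℤ) :
    Cr P g n c i j k l ≤ 1 := pr_le_one _ _

theorem crP_mono {n : ℕ} {c i j k l i' j' k' l' : ℤ} (hi : i' ≤ i)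
    (hj : j ≤ j') (hk : k' ≤ k) (hl : l ≤ l') : Cr P g n c i j k l ≤ Cr P g n c i' j' k' l' :=
  pr_mono _ fun _ hω => crE_mono hi hj hk hl hω

theorem crP_swap (P : Finset (ℤ × ℤ)) (g : ℤ → ℤ × ℤ) (n : ℕ) (c i j k l : ℤ) :
    Cr P g n c i j k l = Cr P g n c k l i j := by
  unfold Cr
  rw [crE_swap]

/-- Rotation of the first arc by one period. -/
theorem Cr_per1 (h : Cont P L g) {n : ℕ} (hn : 0 < n) (c i j k l : ℤ) :
    Cr P g n c (i + n * L) (j + n * L) k l = Cr P g n c i j k l := by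
  unfold Cr
  congr 1
  ext ω
  constructor
  · rintro ⟨a, b, h1, h2, h3, h4, h5, h6⟩
    have e : gr n g a = gr n g (a - n * L) := by
      have := gr_per h hn (a - n * L)
      rwa [sub_add_cancel] at this
    exact ⟨a - n * L, b, by omega, by omega, h3, h4, by rw [← e]; exact h5, by rw [← e]; exact h6⟩
  · rintro ⟨a, b, h1, h2, h3, h4, h5, h6⟩
    have e := gr_per h hn a
    exact ⟨a + n * L, b, by omega, by omega, h3, h4, by rw [e]; exact h5, by rw [e]; exact h6⟩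

/-- Rotation of the second arc by one period. -/
theorem Cr_per2 (h : Cont P L g) {n : ℕ} (hn : 0 < n) (c i j k l : ℤ) :
    Cr P g n c i j (k + n * L) (l + n * L) = Cr P g n c i j k l := by
  rw [crP_swap, Cr_per1 h hn, crP_swap]

/-- The roles of the two arcs exchanged, cyclic form. -/
theorem Cr_rot (h : Cont P L g) {n : ℕ} (hn : 0 < n) (c i j k l : ℤ) :
    Cr P g n c i j k l = Cr P g n c k l (i + n * L) (j + n * L) := by
  rw [Cr_per2 h hn, crP_swap]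

/-- Points of separated arcs of the contour are far from each other. -/
theorem gr_sep (h : Cont P L g) {n : ℕ} (hn : 0 < n) {a b R : ℤ} (hR : R ≤ n)
    (h1 : 2 * R ≤ b - a) (h2 : 2 * R ≤ a + n * L - b) :
    R ≤ |(gr n g a).1 - (gr n g b).1| ∨ R ≤ |(gr n g a).2 - (gr n g b).2| := by
  by_contra hneg
  push Not at hneg
  obtain ⟨d1, d2⟩ := hneg
  rw [abs_sub_comm] at d1 d2
  obtain ⟨q, hq⟩ := gr_chord h hn (a := a) (b := b) (D := R - 1) (by omega) (by omega) (by omega)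
  rw [abs_le] at hq
  have hL : (0 : ℤ) < n * L := by
    have := h.pos
    positivity
  rcases le_or_gt q 0 with hq0 | hq0
  · have : q * (n * L) ≤ 0 := mul_nonpos_of_nonpos_of_nonneg hq0 hL.le
    omega
  · have : 1 * ((n : ℤ) * L) ≤ q * (n * L) := mul_le_mul_of_nonneg_right (by omega) hL.le
    omega

/-- **Short arcs.** The arc `[k, l]` of length at most `r`, at distance at least `2 R` (along the contour) from
the arc `[i, j]`. -/
theorem Cr_short : ∃ C β : ℝ, 0 < C ∧ 0 < β ∧ ∀ (P : Finset (ℤ × ℤ)) (L : ℕ) (g : ℤ → ℤ × ℤ),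
    Cont P L g → ∀ (n : ℕ) (c i j k l r R : ℤ), 0 < n → 0 < r → r ≤ R → R ≤ n → l - k ≤ r →
    2 * R ≤ k - j → 2 * R ≤ i + n * L - l → Cr P g n c i j k l ≤ C * ((r : ℝ) / R) ^ β := by
  obtain ⟨C, β, hC, hβ, h⟩ := crE_arm
  refine ⟨C, β, hC, hβ, fun P L g hg n c i j k l r R hn hr hrR hRn hlk h1 h2 => ?_⟩
  rcases lt_or_ge l k with hkl | hkl
  · have e : Cr P g n c i j k l = 0 := by
      have h0 : Cr P g n c i j k l ≤ pr (rf n P) ∅ := by
        refine pr_mono _ ?_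
        rintro ω ⟨a, b, a1, a2, a3, a4, -⟩
        omega
      have h1' : pr (rf n P) (∅ : Set Cfg) = 0 := by simp [pr]
      exact le_antisymm (h1' ▸ h0) (crP_nonneg _ _ _ _ _ _ _ _)
    rw [e]
    have : (0 : ℝ) < r := by exact_mod_cast hr
    have : (0 : ℝ) < R := by exact_mod_cast (lt_of_lt_of_le hr hrR)
    positivity
  rw [crP_swap]
  refine h (rf n P) (gr n g) c k l i j (gr n g k) r R hr hrR ?_ ?_
  · intro a ha1 ha2
    obtain ⟨m, hm⟩ := Int.eq_ofNat_of_zero_le (show 0 ≤ a - k by omega)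
    have e : a = k + m := by
      have : a - k = (m : ℤ) := hm
      omega
    rw [e]
    have := gr_lip hg hn k m
    constructor
    · exact this.1.trans (by omega)
    · exact this.2.trans (by omega)
  · intro b hb1 hb2
    exact gr_sep hg hn hRn (by omega) (by omega)

/-- Short first arc. -/
theorem Cr_short' : ∃ C β : ℝ, 0 < C ∧ 0 < β ∧ ∀ (P : Finset (ℤ × ℤ)) (L : ℕ) (g : ℤ → ℤ × ℤ),
    Cont P L g → ∀ (n : ℕ) (c i j k l r R : ℤ), 0 < n → 0 < r → r ≤ R → R ≤ n →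
    2 * R ≤ k - j → 2 * R ≤ i + n * L - l →
    (l - k ≤ r ∨ j - i ≤ r) → Cr P g n c i j k l ≤ C * ((r : ℝ) / R) ^ β := by
  obtain ⟨C, β, hC, hβ, h⟩ := Cr_short
  refine ⟨C, β, hC, hβ, fun P L g hg n c i j k l r R hn hr hrR hRn h1 h2 h3 => ?_⟩
  rcases h3 with h3 | h3
  · exact h P L g hg n c i j k l r R hn hr hrR hRn h3 h1 h2
  · rw [Cr_rot hg hn]
    exact h P L g hg n c k l (i + n * L) (j + n * L) r R hn hr hrR hRn (by omega) (by omega)
      (by omega)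

/-- Union bound for a change of all four marks. -/
theorem Cr_big (n : ℕ) (c i₁ i₂ j₁ j₂ k₁ k₂ l₁ l₂ : ℤ) :
    Cr P g n c i₁ j₂ k₁ l₂ ≤ Cr P g n c i₂ j₁ k₂ l₁ + (Cr P g n c i₁ i₂ k₁ l₂ +
      (Cr P g n c j₁ j₂ k₁ l₂ + (Cr P g n c i₁ j₂ k₁ k₂ + Cr P g n c i₁ j₂ l₁ l₂))) := by
  unfold Cr
  set F : Set (ℤ × ℤ) := (rf n P : Set (ℤ × ℤ))
  set w := gr n g
  have h1 : pr (rf n P) (CrE F w c i₁ j₂ k₁ l₂) ≤ pr (rf n P) (CrE F w c i₂ j₁ k₂ l₁ ∪
      (CrE F w c i₁ i₂ k₁ l₂ ∪ (CrE F w c j₁ j₂ k₁ l₂ ∪ (CrE F w c i₁ j₂ k₁ k₂ ∪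
        CrE F w c i₁ j₂ l₁ l₂)))) := by
    refine pr_mono _ ?_
    rintro ω ⟨a, b, a1, a2, a3, a4, a5, a6⟩
    by_cases h1 : a < i₂
    · exact Or.inr (Or.inl ⟨a, b, by omega, by omega, by omega, by omega, a5, a6⟩)
    by_cases h2 : j₁ < a
    · exact Or.inr (Or.inr (Or.inl ⟨a, b, by omega, by omega, by omega, by omega, a5, a6⟩))
    by_cases h3 : b < k₂
    · exact Or.inr (Or.inr (Or.inr (Or.inl ⟨a, b, by omega, by omega, by omega, by omega, a5, a6⟩)))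
    by_cases h4 : l₁ < b
    · exact Or.inr (Or.inr (Or.inr (Or.inr ⟨a, b, by omega, by omega, by omega, by omega, a5, a6⟩)))
    · exact Or.inl ⟨a, b, by omega, by omega, by omega, by omega, a5, a6⟩
  refine h1.trans ((pr_union_le _ _ _).trans ?_)
  gcongr
  refine (pr_union_le _ _ _).trans ?_
  gcongr
  refine (pr_union_le _ _ _).trans ?_
  gcongr
  exact pr_union_le _ _ _

/-- The choice of the scales. -/
theorem scale_choice {C β η ε : ℝ} (hC : 0 < C) (hβ : 0 < β) (hη : 0 < η) (hε : 0 < ε) :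
    ∃ δ > 0, δ ≤ η / 16 ∧ ∃ N : ℕ, 0 < N ∧ ∀ n : ℕ, N ≤ n → ∃ r R : ℤ, 0 < r ∧ r ≤ R ∧ R ≤ n ∧
      δ * n ≤ r ∧ 2 * (R : ℝ) ≤ η * n / 2 ∧ C * ((r : ℝ) / R) ^ β ≤ ε := by
  set θ : ℝ := min (η / 4) 1 with hθ
  have hθ0 : 0 < θ := by positivity
  have hθ1 : θ ≤ 1 := min_le_right _ _
  have hθη : θ ≤ η / 4 := min_le_left _ _
  set κ : ℝ := min ((ε / C) ^ (1 / β)) 1 with hκ
  have hκ0 : 0 < κ := by positivity
  have hκ1 : κ ≤ 1 := min_le_right _ _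
  have hκε : C * κ ^ β ≤ ε := by
    have h1 : κ ^ β ≤ ((ε / C) ^ (1 / β)) ^ β :=
      Real.rpow_le_rpow hκ0.le (min_le_left _ _) hβ.le
    rw [← Real.rpow_mul (by positivity), one_div, inv_mul_cancel₀ hβ.ne', Real.rpow_one] at h1
    calc C * κ ^ β ≤ C * (ε / C) := by gcongr
      _ = ε := by field_simp
  set δ : ℝ := θ * κ / 4 with hδ
  have hδ0 : 0 < δ := by positivity
  have hδθ : δ ≤ θ / 4 := by
    rw [hδ]
    have : θ * κ ≤ θ * 1 := by gcongr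
    linarith
  obtain ⟨N, hN⟩ := exists_nat_gt (max (1 / δ) (2 / θ))
  have hN1 : 1 / δ < N := (le_max_left _ _).trans_lt hN
  have hN2 : 2 / θ < N := (le_max_right _ _).trans_lt hN
  have hN0 : 0 < N := by
    have : (0 : ℝ) < N := lt_trans (by positivity) hN1
    exact_mod_cast this
  refine ⟨δ, hδ0, by linarith, N, hN0, ?_⟩
  intro n hn
  have hnN : (N : ℝ) ≤ n := by exact_mod_cast hn
  have h1 : 1 ≤ δ * n := by
    have : 1 / δ ≤ n := hN1.le.trans hnN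
    rw [div_le_iff₀ hδ0] at this
    linarith
  have h2 : 2 ≤ θ * n := by
    have : 2 / θ ≤ n := hN2.le.trans hnN
    rw [div_le_iff₀ hθ0] at this
    linarith
  have hr0 : 0 < ⌈δ * n⌉ := Int.ceil_pos.2 (by linarith)
  have hr1 : (⌈δ * n⌉ : ℝ) ≤ 2 * (δ * n) := by
    have := Int.ceil_lt_add_one (δ * n)
    linarith
  have hR1 : θ * n / 2 ≤ ⌊θ * n⌋ := by
    have := Int.lt_floor_add_one (θ * n)
    linarith
  have hR2 : (⌊θ * n⌋ : ℝ) ≤ θ * n := Int.floor_le _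
  have hn0 : (0 : ℝ) < n := by
    have : (0 : ℝ) < N := by exact_mod_cast hN0
    linarith
  have hκn : 2 * (δ * n) = κ * (θ * n / 2) := by
    rw [hδ]
    ring
  have hrR : (⌈δ * n⌉ : ℝ) ≤ κ * ⌊θ * n⌋ := by
    calc (⌈δ * n⌉ : ℝ) ≤ κ * (θ * n / 2) := by rw [← hκn]; exact hr1
      _ ≤ κ * ⌊θ * n⌋ := by gcongr
  have hR0 : (0 : ℝ) < ⌊θ * n⌋ := by
    have : 0 < θ * n / 2 := by positivity
    linarith
  refine ⟨⌈δ * n⌉, ⌊θ * n⌋, hr0, ?_, ?_, Int.le_ceil _, ?_, ?_⟩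
  · have : (⌈δ * n⌉ : ℝ) ≤ ⌊θ * n⌋ := hrR.trans (by
      calc κ * (⌊θ * n⌋ : ℝ) ≤ 1 * ⌊θ * n⌋ := by gcongr
        _ = _ := one_mul _)
    exact_mod_cast this
  · have : (⌊θ * n⌋ : ℝ) ≤ n := hR2.trans (by
      calc θ * n ≤ 1 * n := by gcongr
        _ = n := one_mul _)
    exact_mod_cast this
  · have : θ * n ≤ η / 4 * n := by gcongr
    linarith
  · refine le_trans ?_ hκε
    gcongr
    rw [div_le_iff₀ hR0]
    exact hrR

/-- **Dependence on the marks.** -/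
theorem Cr_close {η ε : ℝ} (hη : 0 < η) (hε : 0 < ε) : ∃ δ > 0, ∃ N : ℕ, 0 < N ∧
    ∀ (P : Finset (ℤ × ℤ)) (L : ℕ) (g : ℤ → ℤ × ℤ), Cont P L g →
    ∀ n : ℕ, N ≤ n → ∀ c i j k l i' j' k' l' : ℤ, i ≤ j → k ≤ l → η * n ≤ (k : ℝ) - j →
      η * n ≤ (i : ℝ) + n * L - l → |(i' : ℝ) - i| ≤ δ * n → |(j' : ℝ) - j| ≤ δ * n →
      |(k' : ℝ) - k| ≤ δ * n → |(l' : ℝ) - l| ≤ δ * n →
      |Cr P g n c i' j' k' l' - Cr P g n c i j k l| ≤ ε := by
  obtain ⟨C, β, hC, hβ, h⟩ := Cr_short'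
  obtain ⟨δ, hδ, hδη, N, hN0, hsc⟩ := scale_choice hC hβ hη (show 0 < ε / 4 by positivity)
  refine ⟨δ, hδ, N, hN0, ?_⟩
  intro P L g hg n hn c i j k l i' j' k' l' hij hkl h1 h2 hi hj hk hl
  obtain ⟨r, R, hr, hrR, hRn, hδr, hRη, hbd⟩ := hsc n hn
  have hn0 : 0 < n := lt_of_lt_of_le hN0 hn
  have hn0' : (0 : ℝ) < n := by exact_mod_cast hn0
  -- integer forms
  have cast : ∀ x y : ℤ, |(x : ℝ) - y| ≤ δ * n → |x - y| ≤ r := by
    intro x y hxy
    have : |(x : ℝ) - y| ≤ r := hxy.trans hδr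
    exact_mod_cast this
  have hi' := abs_le.1 (cast _ _ hi)
  have hj' := abs_le.1 (cast _ _ hj)
  have hk' := abs_le.1 (cast _ _ hk)
  have hl' := abs_le.1 (cast _ _ hl)
  have hi1 := abs_le.1 hi
  have hj1 := abs_le.1 hj
  have hk1 := abs_le.1 hk
  have hl1 := abs_le.1 hl
  have hδn : δ * n ≤ η / 16 * n := by gcongr
  have hij' : (i : ℝ) ≤ j := by exact_mod_cast hij
  have hkl' : (k : ℝ) ≤ l := by exact_mod_cast hkl
  have sep1 : ∀ x y : ℤ, (k : ℝ) - δ * n ≤ x → (y : ℝ) ≤ j + δ * n → 2 * R ≤ x - y := by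
    intro x y hx hy
    have : (2 * R : ℝ) ≤ x - y := by linarith
    exact_mod_cast this
  have sep2 : ∀ x y : ℤ, (i : ℝ) - δ * n ≤ x → (y : ℝ) ≤ l + δ * n → 2 * R ≤ x + n * L - y := by
    intro x y hx hy
    have : (2 * R : ℝ) ≤ x + n * L - y := by linarith
    exact_mod_cast this
  have mx : ∀ x y : ℤ, ((max x y : ℤ) : ℝ) = max (x : ℝ) y := fun x y => by push_cast; rfl
  have mn : ∀ x y : ℤ, ((min x y : ℤ) : ℝ) = min (x : ℝ) y := fun x y => by push_cast; rfl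
  have dn0 : 0 ≤ δ * n := by positivity
  have hmax : ∀ {x y : ℤ}, -(δ * n) ≤ (y : ℝ) - x ∧ (y : ℝ) - x ≤ δ * n →
      ((max x y : ℤ) : ℝ) ≤ x + δ * n := by
    intro x y hxy
    rw [mx]
    exact max_le (by linarith) (by linarith [hxy.2])
  have hmin : ∀ {x y : ℤ}, -(δ * n) ≤ (y : ℝ) - x ∧ (y : ℝ) - x ≤ δ * n →
      (x : ℝ) - δ * n ≤ ((min x y : ℤ) : ℝ) := by
    intro x y hxy
    rw [mn]
    exact le_min (by linarith) (by linarith [hxy.1])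
  have hmax0 : ∀ {x y : ℤ}, (x : ℝ) ≤ ((max x y : ℤ) : ℝ) := by
    intro x y
    exact_mod_cast le_max_left x y
  have hlen : ∀ {x y : ℤ}, -r ≤ y - x ∧ y - x ≤ r → max x y - min x y ≤ r := by
    intro x y hxy
    omega
  have b1 : Cr P g n c (min i i') (max i i') (min k k') (max l l') ≤ ε / 4 :=
    (h P L g hg n c _ _ _ _ r R hn0 hr hrR hRn (sep1 _ _ (hmin hk1) (by
      have := hmax hi1; linarith)) (sep2 _ _ (hmin hi1) (hmax hl1)) (Or.inr (hlen hi'))).trans hbd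
  have b2 : Cr P g n c (min j j') (max j j') (min k k') (max l l') ≤ ε / 4 :=
    (h P L g hg n c _ _ _ _ r R hn0 hr hrR hRn (sep1 _ _ (hmin hk1) (hmax hj1))
      (sep2 _ _ (by have := hmin hj1; linarith) (hmax hl1)) (Or.inr (hlen hj'))).trans hbd
  have b3 : Cr P g n c (min i i') (max j j') (min k k') (max k k') ≤ ε / 4 :=
    (h P L g hg n c _ _ _ _ r R hn0 hr hrR hRn (sep1 _ _ (hmin hk1) (hmax hj1))
      (sep2 _ _ (hmin hi1) (by have := hmax hk1; linarith)) (Or.inl (hlen hk'))).trans hbd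
  have b4 : Cr P g n c (min i i') (max j j') (min l l') (max l l') ≤ ε / 4 :=
    (h P L g hg n c _ _ _ _ r R hn0 hr hrR hRn (sep1 _ _ (by have := hmin hl1; linarith)
      (hmax hj1)) (sep2 _ _ (hmin hi1) (hmax hl1)) (Or.inl (hlen hl'))).trans hbd
  have hbig := Cr_big (P := P) (g := g) n c (min i i') (max i i') (min j j') (max j j') (min k k')
    (max k k') (min l l') (max l l')
  have s1 : Cr P g n c (max i i') (min j j') (max k k') (min l l') ≤ Cr P g n c i j k l :=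
    crP_mono (le_max_left _ _) (min_le_left _ _) (le_max_left _ _) (min_le_left _ _)
  have s2 : Cr P g n c (max i i') (min j j') (max k k') (min l l') ≤ Cr P g n c i' j' k' l' :=
    crP_mono (le_max_right _ _) (min_le_right _ _) (le_max_right _ _) (min_le_right _ _)
  have s3 : Cr P g n c i j k l ≤ Cr P g n c (min i i') (max j j') (min k k') (max l l') :=
    crP_mono (min_le_left _ _) (le_max_left _ _) (min_le_left _ _) (le_max_left _ _)
  have s4 : Cr P g n c i' j' k' l' ≤ Cr P g n c (min i i') (max j j') (min k k') (max l l') :=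
    crP_mono (min_le_right _ _) (le_max_right _ _) (min_le_right _ _) (le_max_right _ _)
  rw [abs_le]
  constructor <;> linarith

end

end Pool.Agent.SixB
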