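import Pool.Agent.Lib.SixB.S8LemCc

/-!
# Lemma C: the estimate

`Apr.lemC`: let `P` approximate `U` from inside at scale `d` (`Apr`), and assume that the arcs 0 and 2
of `U` are not joined by faces of `U` inside a box of radius `ρ`, or that this holds for the arcs 1
and 3. Then the crossing probabilities of `P` and `U` differ by at most `8 θ ^ n` if
`64 ^ (n + 1) * (d + 1) ≤ ρ`.
-/

set_option autoImplicit false

namespace Pool.Agent.SixB.LC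

open Finset Pool.Agent.Perc Pool.Agent.Perc6 Pool.Agent.PercT

variable {U P : Finset (ℤ × ℤ)} {m : ℕ} {w : ℕ → ℤ × ℤ} {k1 k2 k3 m' : ℕ} {w' : ℕ → ℤ × ℤ}
  {l1 l2 l3 : ℕ} {d : ℤ} {σ : ℕ → Set (ℤ × ℤ)}

/-- The event decomposition of Lemma C. -/
theorem Apr.cover (A : Apr U P m w k1 k2 k3 m' w' l1 l2 l3 d σ) {c : ℤ}
    (hc : c = 0 ∨ c = 1) {R ρ : ℤ} (hR : d + 1 ≤ R) (H : HD c U w 0 k1 k2 k3 ρ) :
    ∃ z1 z2 : ℤ × ℤ, XA c P w' 0 l1 l2 l3 \ XA c U w 0 k1 k2 k3 ⊆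
      ((XA c P w' 0 l1 l2 l3 ∩ {ω | ω ∈ FArm (1 - c) ((U : Set (ℤ × ℤ)) \ SX P m' w' l3 c ω)
        (w' (qS P m' w' l1 l2 l3 c ω).1) (d + 1) R}) ∪
      (XA c P w' 0 l1 l2 l3 ∩ {ω | ω ∈ FArm (1 - c) ((U : Set (ℤ × ℤ)) \ SX P m' w' l3 c ω)
        (w' (qS P m' w' l1 l2 l3 c ω).2.2.1) (d + 1) R})) ∪
      (FArm c P z1 (R + d + 1) (ρ - d - 1) ∪ FArm c P z2 (R + d + 1) (ρ - d - 1)) := by
  obtain ⟨z1, hz1⟩ := A.arm0 hc (R := R) H
  obtain ⟨z2, hz2⟩ := A.arm2 hc (R := R) H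
  refine ⟨z1, z2, ?_⟩
  rintro ω ⟨hP, hU⟩
  have hq := A.qS_spec hc hP
  set q := qS P m' w' l1 l2 l3 c ω with hqd
  obtain ⟨h1, h2, h3, h4, h5, h6, h7, h8⟩ := hq
  obtain ⟨v, b, g1, g2, g3, g4, g5⟩ := A.lemD hc h1 h2 h3 h4 h5 h6 h7 h8 hU
  obtain ⟨ls, hls', hls, en1, en2, hS⟩ := A.ext h1
  obtain ⟨lt, hlt', hlt, en3, en4, hT⟩ := A.ext h4
  rw [h2] at hls
  rw [h5] at hlt
  rcases g4 with g4 | g4
  · rcases A.fresh h1 h3 g4 g3 R g5 with g6 | g6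
    · exact Or.inl (Or.inl ⟨hP, g6⟩)
    · right; left
      obtain ⟨a, e1, e2, e3, e4⟩ := A.link hc h1 h3 hS en1 en2 g4 g3 hR g6
      exact hz1 ω q a ls ⟨h1, h2, h3, h4, h5, h6, h7, h8⟩ hls hS en1 en2 e1
        ⟨Nat.zero_le _, lab0 hls e1, e2, w' q.1, b, g1, g2, e3, e4⟩
  · rcases A.fresh h4 h6 g4 g3 R g5 with g6 | g6
    · exact Or.inl (Or.inr ⟨hP, g6⟩)
    · right; right
      obtain ⟨a, e1, e2, e3, e4⟩ := A.link hc h4 h6 hT en3 en4 g4 g3 hR g6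
      exact hz2 ω q a lt ⟨h1, h2, h3, h4, h5, h6, h7, h8⟩ hlt hT en3 en4 e1
        ⟨(lab2 hlt e1).1, (lab2 hlt e1).2, e2, w' q.2.2.1, b, g1, g2, e3, e4⟩

theorem depOn_XA (c : ℤ) (F : Set (ℤ × ℤ)) (v : ℕ → ℤ × ℤ) (a0 a1 b0 b1 : ℕ) :
    DepOn F (XA c F v a0 a1 b0 b1) := by
  intro ω ω' h
  simp only [XA, Set.mem_ofPred_eq, GridA.conn_iff _ h]

theorem fArm_shrink {col : ℤ} {F : Set (ℤ × ℤ)} {p : ℤ × ℤ} {r r' R R' : ℤ} (h1 : r ≤ r')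
    (h2 : R' ≤ R) : FArm col F p r R ⊆ FArm col F p r' R' := fArm_mono subset_rfl h1 h2

/-- Arms in a subset of the window. -/
theorem pr_fArm_sub : ∃ θ : ℝ, 0 < θ ∧ θ < 1 ∧ ∀ (col : ℤ) (p : ℤ × ℤ) (r R : ℤ) (n : ℕ)
    (F W : Finset (ℤ × ℤ)), 0 < r → 4 ^ n * r ≤ R → F ⊆ W →
    pr W (FArm col (F : Set (ℤ × ℤ)) p r R) ≤ θ ^ n := by
  obtain ⟨θ, h0, h1, h⟩ := pr_fArm
  refine ⟨θ, h0, h1, ?_⟩
  intro col p r R n F W hr hR hF
  rw [pr_eq_of_depOn (depOn_fArm _ _ _ _ _) hF]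
  exact (pr_mono _ (fArm_shrink le_rfl hR)).trans (h col p r n F hr)

/-- **Lemma C, one direction.** -/
theorem lemC_one : ∃ θ : ℝ, 0 < θ ∧ θ < 1 ∧ ∀ (U P : Finset (ℤ × ℤ)) (m : ℕ) (w : ℕ → ℤ × ℤ)
    (k1 k2 k3 m' : ℕ) (w' : ℕ → ℤ × ℤ) (l1 l2 l3 : ℕ) (d : ℤ) (σ : ℕ → Set (ℤ × ℤ)),
    Apr U P m w k1 k2 k3 m' w' l1 l2 l3 d σ → ∀ (c : ℤ), (c = 0 ∨ c = 1) → ∀ (n : ℕ) (ρ : ℤ),
    HD c U w 0 k1 k2 k3 ρ → 4 * 16 ^ n * (d + 1) ≤ ρ →
    pr U (XA c P w' 0 l1 l2 l3 \ XA c U w 0 k1 k2 k3) ≤ 4 * θ ^ n := by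
  obtain ⟨θ1, h10, h11, hth1⟩ := pr_fArm_stop
  obtain ⟨θ2, h20, h21, hth2⟩ := pr_fArm_sub
  refine ⟨max θ1 θ2, lt_max_of_lt_left h10, max_lt h11 h21, ?_⟩
  intro U P m w k1 k2 k3 m' w' l1 l2 l3 d σ A c hc n ρ H hρ
  have hd := A.d1
  have hp4 : (1 : ℤ) ≤ 4 ^ n := one_le_pow₀ (by norm_num)
  have hp16 : (16 : ℤ) ^ n = 4 ^ n * 4 ^ n := by rw [← mul_pow]; norm_num
  obtain ⟨q4, hq4⟩ : ∃ q4 : ℤ, q4 = 4 ^ n := ⟨_, rfl⟩
  have hR1 : d + 1 ≤ 4 ^ n * (d + 1) := by nlinarith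
  have hR2 : 4 ^ n * (4 ^ n * (d + 1) + d + 1) ≤ ρ - d - 1 := by
    rw [hp16, ← hq4] at hρ
    rw [← hq4] at hp4 ⊢
    have e1 : 1 * (d + 1) ≤ q4 * (d + 1) := mul_le_mul_of_nonneg_right hp4 (by omega)
    have e2 : 1 * (q4 * (d + 1)) ≤ q4 * (q4 * (d + 1)) :=
      mul_le_mul_of_nonneg_right hp4 (by nlinarith)
    nlinarith
  obtain ⟨z1, z2, hcov⟩ := A.cover hc (R := 4 ^ n * (d + 1)) hR1 H
  refine (pr_mono _ hcov).trans ?_
  have hθ1 : θ1 ^ n ≤ (max θ1 θ2) ^ n := pow_le_pow_left₀ h10.le (le_max_left _ _) n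
  have hθ2 : θ2 ^ n ≤ (max θ1 θ2) ^ n := pow_le_pow_left₀ h20.le (le_max_right _ _) n
  have hstop : ∀ z : Cfg → ℤ × ℤ, (∀ ω ω' : Cfg, (∀ f ∈ SX P m' w' l3 c ω, ω f = ω' f) →
      z ω' = z ω) → pr U (XA c P w' 0 l1 l2 l3 ∩ {ω | ω ∈ FArm (1 - c)
        ((U : Set (ℤ × ℤ)) \ SX P m' w' l3 c ω) (z ω) (d + 1) (4 ^ n * (d + 1))}) ≤
      (max θ1 θ2) ^ n := by
    intro z hz
    refine (hth1 U (SX P m' w' l3 c) (fun ω ω' h => SX_stop ω ω' h) (XA c P w' 0 l1 l2 l3)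
      (fun ω hω ω' h => A.XA_stop hc hω h) (fun _ => 1 - c) (fun _ => d + 1) z n
      (fun _ _ => by show (0 : ℤ) < d + 1; omega)
      (fun ω _ ω' h => ⟨rfl, rfl, hz ω ω' h⟩)).trans ?_
    refine le_trans ?_ hθ1
    have := pr_le_one U (XA c P w' 0 l1 l2 l3)
    have h0 : 0 ≤ θ1 ^ n := by positivity
    nlinarith
  have b1 := hstop (fun ω => w' (qS P m' w' l1 l2 l3 c ω).1) (fun ω ω' h => by
    show w' (qS P m' w' l1 l2 l3 c ω').1 = w' (qS P m' w' l1 l2 l3 c ω).1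
    rw [qS_congr h])
  have b2 := hstop (fun ω => w' (qS P m' w' l1 l2 l3 c ω).2.2.1) (fun ω ω' h => by
    show w' (qS P m' w' l1 l2 l3 c ω').2.2.1 = w' (qS P m' w' l1 l2 l3 c ω).2.2.1
    rw [qS_congr h])
  have b3 := hth2 c z1 (4 ^ n * (d + 1) + d + 1) (ρ - d - 1) n P U (by nlinarith) hR2 A.sub
  have b4 := hth2 c z2 (4 ^ n * (d + 1) + d + 1) (ρ - d - 1) n P U (by nlinarith) hR2 A.sub
  refine (pr_union_le _ _ _).trans ?_
  refine (add_le_add (pr_union_le _ _ _) (pr_union_le _ _ _)).trans ?_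
  linarith

/-! ### Rotation -/

theorem lab_rot {k1 k2 k3 m : ℕ} (h12 : k1 ≤ k2) (h23 : k2 ≤ k3) (h3 : k3 ≤ m) {i j : ℕ}
    (hi : i < m) (hj : (i + k1 < m ∧ j = i + k1) ∨ (m ≤ i + k1 ∧ j + m = i + k1)) :
    lab k1 k2 k3 j = (lab (k2 - k1) (k3 - k1) (m - k1) i + 1) % 4 := by
  unfold lab
  split_ifs <;> omega

theorem lab_lt (k1 k2 k3 i : ℕ) : lab k1 k2 k3 i < 4 := by
  unfold lab
  split_ifs <;> omega

/-- The side of the unrotated contour. -/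
def unr (m k i : ℕ) : ℕ := if i + k < m then i + k else i + k - m

theorem unr_spec {m k i : ℕ} (hk : k ≤ m) (hi : i < m) : unr m k i < m ∧
    ((i + k < m ∧ unr m k i = i + k) ∨ (m ≤ i + k ∧ unr m k i + m = i + k)) := by
  unfold unr
  split_ifs <;> omega

theorem rotw_unr {F : Finset (ℤ × ℤ)} {m : ℕ} {w : ℕ → ℤ × ℤ} (h : Ctr (F : Set (ℤ × ℤ)) m w)
    {k i : ℕ} (hk : k ≤ m) (hi : i < m) :
    rotw m k w i = w (unr m k i) ∧ rotw m k w (i + 1) = w (unr m k i + 1) := by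
  unfold rotw unr
  rcases Nat.lt_trichotomy (i + k) m with h1 | h1 | h1
  · rw [if_pos h1.le, if_pos h1, if_pos (by omega)]
    exact ⟨rfl, by congr 1; omega⟩
  · rw [if_pos h1.le, if_neg (by omega), if_neg (by omega), h1, h.close]
    exact ⟨by congr 1; omega, by congr 1; omega⟩
  · rw [if_neg (by omega), if_neg (by omega), if_neg (by omega)]
    exact ⟨rfl, by congr 1; omega⟩

theorem unr_surj {m k j : ℕ} (hk : k ≤ m) (hj : j < m) : ∃ i < m, unr m k i = j := by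
  unfold unr
  rcases Nat.lt_or_ge j k with h | h
  · exact ⟨j + m - k, by omega, by split_ifs <;> omega⟩
  · exact ⟨j - k, by omega, by split_ifs <;> omega⟩

/-- **Rotation** of an approximation by one arc. -/
theorem Apr.rot (A : Apr U P m w k1 k2 k3 m' w' l1 l2 l3 d σ) :
    Apr U P m (rotw m k1 w) (k2 - k1) (k3 - k1) (m - k1) m' (rotw m' l1 w') (l2 - l1) (l3 - l1)
      (m' - l1) d (fun i => σ (unr m' l1 i)) := by
  have h12 := A.k12; have h23 := A.k23; have h3 := A.k3m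
  have g0 := A.l01; have g12 := A.l12; have g23 := A.l23; have g3 := A.l3m
  have lr : ∀ i < m', lab l1 l2 l3 (unr m' l1 i) =
      (lab (l2 - l1) (l3 - l1) (m' - l1) i + 1) % 4 := fun i hi =>
    lab_rot g12.le g23.le g3.le hi (unr_spec (by omega) hi).2
  have kr : ∀ i < m, lab k1 k2 k3 (unr m k1 i) =
      (lab (k2 - k1) (k3 - k1) (m - k1) i + 1) % 4 := fun i hi =>
    lab_rot h12 h23 h3 hi (unr_spec (by omega) hi).2
  refine ⟨A.sub, ctr_rot A.ctU (by omega), ctr_rot A.ctP (by omega), by omega, by omega, by omega,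
    by omega, by omega, by omega, by omega, A.d1, ?_, ?_, ?_, ?_, ?_⟩
  · intro i hi
    exact A.out _ (unr_spec (k := l1) (by omega) hi).1
  · intro i hi
    rw [(rotw_unr A.ctP (by omega) hi).1]
    exact A.near _ (unr_spec (k := l1) (by omega) hi).1
  · intro i hi
    exact A.con _ (unr_spec (k := l1) (by omega) hi).1
  · intro i hi
    obtain ⟨e1, e2⟩ := rotw_unr A.ctP (k := l1) (by omega) hi
    rw [e1, e2]
    have key : ∀ l, lab k1 k2 k3 l = lab l1 l2 l3 (unr m' l1 i) → ∀ l' < m, unr m k1 l' = l →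
        lab (k2 - k1) (k3 - k1) (m - k1) l' = lab (l2 - l1) (l3 - l1) (m' - l1) i := by
      intro l hl l' hl' hll
      rw [← hll, kr l' hl', lr i hi] at hl
      have b1 := lab_lt (k2 - k1) (k3 - k1) (m - k1) l'
      have b2 := lab_lt (l2 - l1) (l3 - l1) (m' - l1) i
      omega
    rcases A.fin _ (unr_spec (k := l1) (by omega) hi).1 with ⟨l, hl, hlab, e, q1, q2, q3⟩ |
      ⟨l, hl, hlab, q1, f, hf, e, q2, q3⟩
    · obtain ⟨l', hl', hll⟩ := unr_surj (k := k1) (by omega) hl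
      obtain ⟨e3, e4⟩ := rotw_unr A.ctU (k := k1) (by omega) hl'
      refine Or.inl ⟨l', hl', key l hlab l' hl' hll, e, q1, ?_, q3⟩
      rw [e3, e4, hll]
      exact q2
    · obtain ⟨l', hl', hll⟩ := unr_surj (k := k1) (by omega) hl
      obtain ⟨e3, e4⟩ := rotw_unr A.ctU (k := k1) (by omega) hl'
      refine Or.inr ⟨l', hl', key l hlab l' hl' hll, q1, f, hf, e, q2, ?_⟩
      rw [e3, e4, hll]
      exact q3
  · intro i hi l hl hne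
    refine A.disj _ (unr_spec (k := l1) (by omega) hi).1 _ (unr_spec (k := l1) (by omega) hl).1 ?_
    rw [lr i hi, lr l hl]
    intro h
    have b1 := lab_lt (l2 - l1) (l3 - l1) (m' - l1) l
    have b2 := lab_lt (l2 - l1) (l3 - l1) (m' - l1) i
    omega

theorem rotw_le {k m i : ℕ} (w : ℕ → ℤ × ℤ) (h : i + k ≤ m) : rotw m k w i = w (i + k) := if_pos h

/-- The crossing of the arcs 1, 3 is the crossing of the arcs 0, 2 of the rotated contour. -/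
theorem XA_rot {F : Set (ℤ × ℤ)} {c : ℤ} (h12 : k1 ≤ k2) (h23 : k2 ≤ k3) (h3 : k3 ≤ m) :
    XA c F (rotw m k1 w) 0 (k2 - k1) (k3 - k1) (m - k1) = XA c F w k1 k2 k3 m := by
  ext ω
  constructor
  · rintro ⟨i, k, -, g1, g2, g3, g4, g5⟩
    rw [rotw_le w (by omega)] at g4 g5
    rw [rotw_le w (by omega)] at g5
    exact ⟨i + k1, k + k1, by omega, by omega, by omega, by omega, g4, g5⟩
  · rintro ⟨i, k, g0, g1, g2, g3, g4, g5⟩
    refine ⟨i - k1, k - k1, by omega, by omega, by omega, by omega, ?_, ?_⟩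
    · rw [rotw_le w (by omega), Nat.sub_add_cancel g0]
      exact g4
    · rw [rotw_le w (by omega), rotw_le w (by omega), Nat.sub_add_cancel g0,
        Nat.sub_add_cancel (by omega)]
      exact g5

theorem HD_rot {c : ℤ} {ρ : ℤ} (h12 : k1 ≤ k2) (h23 : k2 ≤ k3) (h3 : k3 ≤ m)
    (H : HD c U w k1 k2 k3 m ρ) :
    HD c U (rotw m k1 w) 0 (k2 - k1) (k3 - k1) (m - k1) ρ := by
  intro ω z a k g0 g1 g2 g3 g4 g5
  rw [rotw_le w (by omega)] at g4 g5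
  rw [rotw_le w (by omega)] at g5
  exact H ω z (a + k1) (k + k1) (by omega) (by omega) (by omega) (by omega) g4 g5

/-- Complementary crossings. -/
theorem XA_compl {F : Finset (ℤ × ℤ)} {n : ℕ} {v : ℕ → ℤ × ℤ} {p1 p2 p3 : ℕ}
    (h : Ctr (F : Set (ℤ × ℤ)) n v) (h12 : p1 ≤ p2) (h23 : p2 ≤ p3) (h3 : p3 ≤ n) {c : ℤ}
    (hc : c = 0 ∨ c = 1) : XA (1 - c) F v p1 p2 p3 n = (XA c F v 0 p1 p2 p3)ᶜ := by
  ext ω
  constructor
  · intro h1 h2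
    exact XA_nc h hc h2 h1
  · intro h1
    exact XA_du h h12 h23 h3 hc h1

/-! ### Linked arcs 1 and 3 -/

/-- If the arcs 1 and 3 are linked in a box of radius `s` and the arcs 0 and 2 are far from each other
then a crossing of `P` is an arm. -/
theorem Apr.linkP (A : Apr U P m w k1 k2 k3 m' w' l1 l2 l3 d σ) {c : ℤ} (hc : c = 0 ∨ c = 1)
    {s ρ : ℤ} (H : HD c U w 0 k1 k2 k3 ρ) {ω0 : Cfg} {z : ℤ × ℤ} {a k : ℕ} (ha : k1 ≤ a)
    (ha' : a ≤ k2) (hk : k3 ≤ k) (hk' : k ≤ m) (hp : par (w a) = 1 - c)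
    (hl : Conn ω0 ((U : Set (ℤ × ℤ)) ∩ RFb z s) (w a) (w k)) :
    XA c P w' 0 l1 l2 l3 ⊆ FArm c P z (s + d + 1) (ρ - d - 1) := by
  intro ω hω
  obtain ⟨q, h1, h2, h3, h4, h5, h6, h7, h8⟩ := A.exists_sel hω
  obtain ⟨ls, hls', hls, -, -, hS⟩ := A.ext h1
  obtain ⟨lt, hlt', hlt, -, -, hT⟩ := A.ext h4
  rw [h2] at hls
  rw [h5] at hlt
  have hl' : Conn (allc (1 - c)) ((U : Set (ℤ × ℤ)) ∩ RFb z s) (w a) (w k) :=
    conn_up hp (fun f hf _ => ⟨hf, allc_col _ f⟩) hl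
  rcases A.near02 hc h1 h3 h4 h6 h7 h8 hS hT hp hl' with ⟨x, hx1, hx2, hx3⟩ |
    ⟨ω', a0, a2, e1, e2, e3, e4, e5, e6⟩
  · obtain ⟨y, hy1, hy2⟩ := A.far02 hc h1 h3 h4 h6 h7 h8 hS hT hls hlt H z hx2
    have hpx : par x = c := by rw [← hx2.par_eq]; exact h7
    unfold InB at hx1
    refine ⟨x, y, hx1.1, hx1.2.1, hx1.2.2.1, hx1.2.2.2, ?_, hy2, hy1⟩
    unfold par at hpx
    omega
  · exfalso
    exact arcs_nc A.ctU (c := c) (lab0 hls e1) ha ha' (lab2 hlt e2).1 (lab2 hlt e2).2 hk hk' e3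
      (by rw [hp]; omega) e5 e6

/-- The same for a crossing of `U`. -/
theorem linkU (hU : Ctr (U : Set (ℤ × ℤ)) m w) {c : ℤ} (hc : c = 0 ∨ c = 1)
    {s ρ : ℤ} (H : HD c U w 0 k1 k2 k3 ρ) {ω0 : Cfg} {z : ℤ × ℤ} {a k : ℕ} (ha : k1 ≤ a)
    (ha' : a ≤ k2) (hk : k3 ≤ k) (hk' : k ≤ m) (hp : par (w a) = 1 - c)
    (hl : Conn ω0 ((U : Set (ℤ × ℤ)) ∩ RFb z s) (w a) (w k)) :
    XA c U w 0 k1 k2 k3 ⊆ FArm c U z s ρ := by
  rintro ω ⟨i, l, hi, hi', hl0, hl1, hpi, hcon⟩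
  rcases conn_last (RFb z s : Set (ℤ × ℤ)) hcon with h1 | ⟨x, ⟨f, hf, -, hfx, -⟩, h2, h3⟩
  · exfalso
    have e5 : Conn (rep c ∅ (RFb z s) ω) U (w i) (w l) :=
      conn_up hpi (fun f hf hfc => ⟨hf.1, rep_out (Set.notMem_empty f) hf.2 hfc⟩) h1
    have e6 : Conn (rep c ∅ (RFb z s) ω) U (w a) (w k) :=
      conn_up hp (fun f hf _ => ⟨hf.1, rep_col' (Set.notMem_empty f) hf.2⟩) hl
    exact arcs_nc hU (c := c) hi' ha ha' hl0 hl1 hk hk' hpi (by rw [hp]; omega) e5 e6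
  · have hx1 := inB_of_mem_RFb (mem_coe.1 hf) hfx
    have hpx : par x = c := by rw [← h2.par_eq]; exact hpi
    rcases conn_exit z ρ hcon with ⟨y, g1, -, g3⟩ | ⟨g1, -, -⟩
    · unfold InB at hx1
      refine ⟨x, y, hx1.1, hx1.2.1, hx1.2.2.1, hx1.2.2.2, ?_, g3, conn_trans (conn_symm h2) g1⟩
      unfold par at hpx
      omega
    · exact (H ω z i l hi hi' hl0 hl1 hpi g1).elim

theorem pr_le_add_diff (W : Finset (ℤ × ℤ)) (X Y : Set Cfg) :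
    pr W X ≤ pr W Y + pr W (X \ Y) := by
  refine le_trans (pr_mono W (B := Y ∪ (X \ Y)) ?_) (pr_union_le _ _ _)
  intro ω hω
  by_cases h : ω ∈ Y
  · exact Or.inl h
  · exact Or.inr ⟨hω, h⟩

/-- **Lemma C** under the hypothesis for the arcs 0 and 2. -/
theorem lemC_two : ∃ θ : ℝ, 0 < θ ∧ θ < 1 ∧ ∀ (U P : Finset (ℤ × ℤ)) (m : ℕ) (w : ℕ → ℤ × ℤ)
    (k1 k2 k3 m' : ℕ) (w' : ℕ → ℤ × ℤ) (l1 l2 l3 : ℕ) (d : ℤ) (σ : ℕ → Set (ℤ × ℤ)),
    Apr U P m w k1 k2 k3 m' w' l1 l2 l3 d σ → ∀ (c : ℤ), (c = 0 ∨ c = 1) → ∀ (n : ℕ) (ρ : ℤ),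
    HD c U w 0 k1 k2 k3 ρ → 64 ^ (n + 1) * (d + 1) ≤ ρ →
    |pr U (XA c P w' 0 l1 l2 l3) - pr U (XA c U w 0 k1 k2 k3)| ≤ 4 * θ ^ n := by
  obtain ⟨θ1, h10, h11, hth1⟩ := lemC_one
  obtain ⟨θ2, h20, h21, hth2⟩ := pr_fArm_sub
  refine ⟨max θ1 θ2, lt_max_of_lt_left h10, max_lt h11 h21, ?_⟩
  intro U P m w k1 k2 k3 m' w' l1 l2 l3 d σ A c hc n ρ H hρ
  have hd := A.d1
  have hk12 := A.k12; have hk23 := A.k23; have hk3m := A.k3m
  have g12 := A.l12; have g23 := A.l23; have g3m := A.l3m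
  have hc' : 1 - c = 0 ∨ 1 - c = 1 := by omega
  have hθ1 : θ1 ^ n ≤ (max θ1 θ2) ^ n := pow_le_pow_left₀ h10.le (le_max_left _ _) n
  have hθ2 : θ2 ^ n ≤ (max θ1 θ2) ^ n := pow_le_pow_left₀ h20.le (le_max_right _ _) n
  have h0 : 0 ≤ (max θ1 θ2) ^ n := by positivity
  have hp4 : (1 : ℤ) ≤ 4 ^ n := one_le_pow₀ (by norm_num)
  have hp16 : (16 : ℤ) ^ n = 4 ^ n * 4 ^ n := by rw [← mul_pow]; norm_num
  have hp64 : (64 : ℤ) ^ (n + 1) = 64 * (4 ^ n * (4 ^ n * 4 ^ n)) := by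
    rw [pow_succ, ← mul_pow, ← mul_pow]; norm_num; ring
  obtain ⟨q, hq⟩ : ∃ q : ℤ, q = 4 ^ n := ⟨_, rfl⟩
  rw [hp64, ← hq] at hρ
  rw [← hq] at hp4
  -- products
  obtain ⟨e, he⟩ : ∃ e : ℤ, e = d + 1 := ⟨_, rfl⟩
  have he2 : 2 ≤ e := by omega
  have m1 : e ≤ q * e := by nlinarith
  have m2 : q * e ≤ q * (q * e) := by nlinarith
  have m3 : q * (q * e) ≤ q * (q * (q * e)) := by nlinarith
  have hρ' : 64 * (q * (q * (q * e))) ≤ ρ := by rw [he]; nlinarith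
  have hs16 : 4 * 16 ^ n * (d + 1) = 4 * (q * (q * e)) := by rw [hp16, ← hq, he]; ring
  have hone : 4 * 16 ^ n * (d + 1) ≤ ρ := by rw [hs16]; nlinarith
  have hA := hth1 U P m w k1 k2 k3 m' w' l1 l2 l3 d σ A c hc n ρ H hone
  by_cases H13 : HD (1 - c) U w k1 k2 k3 m (4 * 16 ^ n * (d + 1))
  · have hB := hth1 U P m _ _ _ _ m' _ _ _ _ d _ A.rot (1 - c) hc' n _
      (HD_rot hk12 hk23 hk3m H13) le_rfl
    rw [XA_rot g12.le g23.le g3m.le, XA_rot hk12 hk23 hk3m,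
      XA_compl A.ctP g12.le g23.le g3m.le hc, XA_compl A.ctU hk12 hk23 hk3m hc] at hB
    have hB' : pr U (XA c U w 0 k1 k2 k3 \ XA c P w' 0 l1 l2 l3) ≤ 4 * θ1 ^ n := by
      refine le_trans (pr_mono U ?_) hB
      rintro ω ⟨h1, h2⟩
      exact ⟨h2, fun h => h h1⟩
    have t1 := pr_le_add_diff U (XA c P w' 0 l1 l2 l3) (XA c U w 0 k1 k2 k3)
    have t2 := pr_le_add_diff U (XA c U w 0 k1 k2 k3) (XA c P w' 0 l1 l2 l3)
    rw [abs_le]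
    constructor <;> linarith
  · unfold HD at H13
    push Not at H13
    obtain ⟨ω0, z, a, k, b1, b2, b3, b4, b5, b6⟩ := H13
    rw [hs16] at b6
    have t1 := pr_mono U (A.linkP hc H b1 b2 b3 b4 b5 b6)
    have t2 := pr_mono U (linkU A.ctU hc H b1 b2 b3 b4 b5 b6)
    have t3 := hth2 c z (4 * (q * (q * e)) + d + 1) (ρ - d - 1) n P U (by nlinarith) (by
      rw [← hq]
      have : q * (4 * (q * (q * e)) + d + 1) = 4 * (q * (q * (q * e))) + q * e := by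
        rw [he]; ring
      rw [this]
      nlinarith) A.sub
    have t4 := hth2 c z (4 * (q * (q * e))) ρ n U U (by nlinarith) (by
      rw [← hq]
      have : q * (4 * (q * (q * e))) = 4 * (q * (q * (q * e))) := by ring
      rw [this]
      nlinarith) subset_rfl
    have t5 := pr_nonneg U (XA c P w' 0 l1 l2 l3)
    have t6 := pr_nonneg U (XA c U w 0 k1 k2 k3)
    have t7 := t1.trans t3
    have t8 := t2.trans t4
    rw [abs_le]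
    constructor <;> linarith

/-- **Lemma C.** -/
theorem lemC : ∃ θ : ℝ, 0 < θ ∧ θ < 1 ∧ ∀ (U P : Finset (ℤ × ℤ)) (m : ℕ) (w : ℕ → ℤ × ℤ)
    (k1 k2 k3 m' : ℕ) (w' : ℕ → ℤ × ℤ) (l1 l2 l3 : ℕ) (d : ℤ) (σ : ℕ → Set (ℤ × ℤ)),
    Apr U P m w k1 k2 k3 m' w' l1 l2 l3 d σ → ∀ (c : ℤ), (c = 0 ∨ c = 1) → ∀ (n : ℕ) (ρ : ℤ),
    (HD c U w 0 k1 k2 k3 ρ ∨ HD (1 - c) U w k1 k2 k3 m ρ) → 64 ^ (n + 1) * (d + 1) ≤ ρ →
    |pr P (XA c P w' 0 l1 l2 l3) - pr U (XA c U w 0 k1 k2 k3)| ≤ 4 * θ ^ n := by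
  obtain ⟨θ, h0, h1, hth⟩ := lemC_two
  refine ⟨θ, h0, h1, ?_⟩
  intro U P m w k1 k2 k3 m' w' l1 l2 l3 d σ A c hc n ρ H hρ
  have hk12 := A.k12; have hk23 := A.k23; have hk3m := A.k3m
  have g12 := A.l12; have g23 := A.l23; have g3m := A.l3m
  rw [← pr_eq_of_depOn (depOn_XA c (P : Set (ℤ × ℤ)) w' 0 l1 l2 l3) A.sub]
  rcases H with H | H
  · exact hth U P m w k1 k2 k3 m' w' l1 l2 l3 d σ A c hc n ρ H hρ
  · have hB := hth U P m _ _ _ _ m' _ _ _ _ d _ A.rot (1 - c) (by omega) n _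
      (HD_rot hk12 hk23 hk3m H) hρ
    rw [XA_rot g12.le g23.le g3m.le, XA_rot hk12 hk23 hk3m,
      XA_compl A.ctP g12.le g23.le g3m.le hc, XA_compl A.ctU hk12 hk23 hk3m hc, pr_compl,
      pr_compl] at hB
    rw [abs_le] at hB ⊢
    constructor <;> linarith

/-- **Lemma C**, power form. -/
theorem lemC_pow : ∃ C α : ℝ, 0 < C ∧ 0 < α ∧ ∀ (U P : Finset (ℤ × ℤ)) (m : ℕ) (w : ℕ → ℤ × ℤ)
    (k1 k2 k3 m' : ℕ) (w' : ℕ → ℤ × ℤ) (l1 l2 l3 : ℕ) (d : ℤ) (σ : ℕ → Set (ℤ × ℤ)),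
    Apr U P m w k1 k2 k3 m' w' l1 l2 l3 d σ → ∀ (c : ℤ), (c = 0 ∨ c = 1) → ∀ (ρ : ℤ), 0 < ρ →
    (HD c U w 0 k1 k2 k3 ρ ∨ HD (1 - c) U w k1 k2 k3 m ρ) →
    |pr P (XA c P w' 0 l1 l2 l3) - pr U (XA c U w 0 k1 k2 k3)| ≤ C * ((d : ℝ) / ρ) ^ α := by
  obtain ⟨θ, h0, h1, hth⟩ := lemC
  set α : ℝ := -Real.log θ / Real.log 64 with hα
  have hl64 : 0 < Real.log 64 := Real.log_pos (by norm_num)
  have hlθ : Real.log θ < 0 := Real.log_neg h0 h1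
  have hα0 : 0 < α := div_pos (by linarith) hl64
  have hθα : θ = (64 : ℝ) ^ (-α) := by
    rw [Real.rpow_def_of_pos (by norm_num), hα]
    rw [show Real.log 64 * -(-Real.log θ / Real.log 64) = Real.log θ by field_simp]
    exact (Real.exp_log h0).symm
  refine ⟨4 * (2 * 64 ^ 2) ^ α, α, by positivity, hα0, ?_⟩
  intro U P m w k1 k2 k3 m' w' l1 l2 l3 d σ A c hc ρ hρ H
  have hd := A.d1
  have hdR : (1 : ℝ) ≤ d := by exact_mod_cast hd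
  have hρR : (0 : ℝ) < ρ := by exact_mod_cast hρ
  rcases lt_or_ge ρ (64 * (d + 1)) with h | h
  · -- trivial bound
    have t1 : |pr P (XA c P w' 0 l1 l2 l3) - pr U (XA c U w 0 k1 k2 k3)| ≤ 1 := by
      have a1 := pr_nonneg P (XA c P w' 0 l1 l2 l3)
      have a2 := pr_le_one P (XA c P w' 0 l1 l2 l3)
      have a3 := pr_nonneg U (XA c U w 0 k1 k2 k3)
      have a4 := pr_le_one U (XA c U w 0 k1 k2 k3)
      rw [abs_le]; constructor <;> linarith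
    refine t1.trans ?_
    have hh : (ρ : ℝ) < 64 * (d + 1) := by exact_mod_cast h
    have t2 : (1 : ℝ) ≤ (2 * 64 ^ 2) * ((d : ℝ) / ρ) := by
      rw [← mul_div_assoc, le_div_iff₀ hρR]
      nlinarith
    have t3 : (1 : ℝ) ≤ ((2 * 64 ^ 2) * ((d : ℝ) / ρ)) ^ α := Real.one_le_rpow t2 hα0.le
    rw [Real.mul_rpow (by norm_num) (by positivity)] at t3
    nlinarith
  · -- the largest `n` with `64 ^ (n + 1) * (d + 1) ≤ ρ`
    have hex : ∃ n : ℕ, ρ < 64 ^ (n + 1) * (d + 1) := by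
      obtain ⟨n, hn⟩ := pow_unbounded_of_one_lt ρ (by norm_num : (1 : ℤ) < 64)
      refine ⟨n, ?_⟩
      have : (0 : ℤ) < 64 ^ n := by positivity
      rw [pow_succ]
      nlinarith
    classical
    obtain ⟨N, hN1, hN2⟩ : ∃ N : ℕ, 64 ^ (N + 1) * (d + 1) ≤ ρ ∧ ρ < 64 ^ (N + 2) * (d + 1) := by
      have hf := Nat.find_spec hex
      have hm := fun k => Nat.find_min hex (m := k)
      rcases Nat.eq_zero_or_pos (Nat.find hex) with h2 | h2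
      · rw [h2] at hf
        simp at hf
        omega
      · refine ⟨Nat.find hex - 1, ?_, ?_⟩
        · exact not_lt.1 (hm (Nat.find hex - 1) (by omega))
        · rw [show Nat.find hex - 1 + 2 = Nat.find hex + 1 by omega]
          exact hf
    have hmain := hth U P m w k1 k2 k3 m' w' l1 l2 l3 d σ A c hc N ρ H hN1
    refine hmain.trans ?_
    have hN2' : (ρ : ℝ) < 64 ^ (N + 2) * (d + 1) := by exact_mod_cast hN2
    have t1 : θ ^ N = ((64 : ℝ) ^ N)⁻¹ ^ α := by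
      rw [hθα, ← Real.rpow_natCast, ← Real.rpow_mul (by norm_num), Real.inv_rpow (by positivity),
        ← Real.rpow_natCast, ← Real.rpow_mul (by norm_num), ← Real.rpow_neg (by norm_num)]
      congr 1; ring
    have t2 : ((64 : ℝ) ^ N)⁻¹ ≤ (2 * 64 ^ 2) * ((d : ℝ) / ρ) := by
      rw [← mul_div_assoc, inv_eq_one_div, div_le_div_iff₀ (by positivity) hρR]
      rw [pow_add] at hN2'
      have : (0 : ℝ) < 64 ^ N := by positivity
      nlinarith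
    rw [t1, mul_assoc]
    refine mul_le_mul_of_nonneg_left ?_ (by norm_num)
    rw [← Real.mul_rpow (by norm_num) (by positivity)]
    exact Real.rpow_le_rpow (by positivity) t2 hα0.le

end Pool.Agent.SixB.LC
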