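import Mathlib.Tactic

/-!
# Step 8: cyclic label sequences

A cyclic sequence of labels `0, 1, 2, 3` without alternations can be rotated and reflected into a
monotone sequence.
-/

set_option autoImplicit false

namespace Pool.Agent.SixB

/-- The predicate `Q` on `0, …, m - 1` does not alternate four times. -/
def NoAlt (m : ℕ) (Q : ℕ → Prop) : Prop :=
  ∀ i k l p, i < k → k < l → l < p → p < m →
    ¬ (Q i ∧ ¬ Q k ∧ Q l ∧ ¬ Q p) ∧ ¬ (¬ Q i ∧ Q k ∧ ¬ Q l ∧ Q p)

/-- Rotation of indices. -/
def ridxL (m r x : ℕ) : ℕ := if x + r < m then x + r else x + r - m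

/-- Rotation, followed by a reflection if `b` is true. -/
def dihI (m : ℕ) (b : Bool) (r x : ℕ) : ℕ := if b then m - 1 - ridxL m r x else ridxL m r x

theorem ridxL_lt {m r x : ℕ} (hr : r < m) (hx : x < m) : ridxL m r x < m := by
  unfold ridxL; split_ifs <;> omega

theorem dihI_lt {m r x : ℕ} {b : Bool} (hr : r < m) (hx : x < m) : dihI m b r x < m := by
  have := ridxL_lt hr hx
  unfold dihI; split_ifs <;> omega

theorem NoAlt.ridxL {m r : ℕ} {Q : ℕ → Prop} (h : NoAlt m Q) (hr : r < m) :
    NoAlt m fun x => Q (ridxL m r x) := by
  intro i k l p hik hkl hlp hp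
  by_cases h1 : i + r < m
  · by_cases h2 : k + r < m
    · by_cases h3 : l + r < m
      · by_cases h4 : p + r < m
        · simp only [SixB.ridxL, if_pos h1, if_pos h2, if_pos h3, if_pos h4]
          exact h _ _ _ _ (by omega) (by omega) (by omega) (by omega)
        · simp only [SixB.ridxL, if_pos h1, if_pos h2, if_pos h3, if_neg h4]
          have := h (p + r - m) (i + r) (k + r) (l + r) (by omega) (by omega) (by omega) (by omega)
          tauto
      · have h4 : ¬ p + r < m := by omega
        simp only [SixB.ridxL, if_pos h1, if_pos h2, if_neg h3, if_neg h4]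
        have := h (l + r - m) (p + r - m) (i + r) (k + r) (by omega) (by omega) (by omega)
          (by omega)
        tauto
    · have h3 : ¬ l + r < m := by omega
      have h4 : ¬ p + r < m := by omega
      simp only [SixB.ridxL, if_pos h1, if_neg h2, if_neg h3, if_neg h4]
      have := h (k + r - m) (l + r - m) (p + r - m) (i + r) (by omega) (by omega) (by omega)
        (by omega)
      tauto
  · have h2 : ¬ k + r < m := by omega
    have h3 : ¬ l + r < m := by omega
    have h4 : ¬ p + r < m := by omega
    simp only [SixB.ridxL, if_neg h1, if_neg h2, if_neg h3, if_neg h4]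
    exact h _ _ _ _ (by omega) (by omega) (by omega) (by omega)

/-- A rotation which starts at a change. -/
theorem exists_ridxL {m : ℕ} {Q : ℕ → Prop} (h1 : ∃ i < m, Q i) (h2 : ∃ i < m, ¬ Q i) :
    ∃ r < m, Q (ridxL m r 0) ∧ ¬ Q (ridxL m r (m - 1)) := by
  classical
  obtain ⟨a, ha, hQa⟩ := h1
  obtain ⟨b, hb, hQb⟩ := h2
  by_cases h0 : Q 0
  · by_cases hm : Q (m - 1)
    · -- the largest `j` with `¬ Q j`
      have hex : ∃ t, t < m ∧ ¬ Q (m - 1 - t) := ⟨m - 1 - b, by omega, by
        rwa [show m - 1 - (m - 1 - b) = b by omega]⟩
      obtain ⟨ht1, ht2⟩ := Nat.find_spec hex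
      have hmin := fun t (ht : t < Nat.find hex) => Nat.find_min hex ht
      set t := Nat.find hex with htdef
      have ht0 : t ≠ 0 := by
        intro hh
        rw [hh] at ht2
        exact ht2 hm
      have hprev : Q (m - t) := by
        have := hmin (t - 1) (by omega)
        by_contra hh
        apply this
        exact ⟨by omega, by rwa [show m - 1 - (t - 1) = m - t by omega]⟩
      refine ⟨m - t, by omega, ?_, ?_⟩
      · unfold ridxL
        rw [if_pos (by omega), zero_add]
        exact hprev
      · unfold ridxL
        rw [if_neg (by omega), show m - 1 + (m - t) - m = m - 1 - t by omega]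
        exact ht2
    · refine ⟨0, by omega, ?_, ?_⟩
      · unfold ridxL
        rw [if_pos (by omega)]
        exact h0
      · unfold ridxL
        rw [if_pos (by omega)]
        exact hm
  · have hex : ∃ t, t < m ∧ Q t := ⟨a, ha, hQa⟩
    obtain ⟨ht1, ht2⟩ := Nat.find_spec hex
    have hmin := fun t (ht : t < Nat.find hex) => Nat.find_min hex ht
    set t := Nat.find hex with htdef
    have ht0 : t ≠ 0 := by
      intro hh
      rw [hh] at ht2
      exact h0 ht2
    refine ⟨t, ht1, ?_, ?_⟩
    · unfold ridxL
      rw [if_pos (by omega), zero_add]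
      exact ht2
    · unfold ridxL
      rw [if_neg (by omega), show m - 1 + t - m = t - 1 by omega]
      intro hh
      exact hmin (t - 1) (by omega) ⟨by omega, hh⟩

/-- After such a rotation the predicate is an initial segment. -/
theorem NoAlt.initial {m : ℕ} {Q : ℕ → Prop} (h : NoAlt m Q) (h0 : Q 0) (h1 : ¬ Q (m - 1))
    {i j : ℕ} (hij : i < j) (hj : j < m) (hQ : Q j) : Q i := by
  by_contra hi
  have h2 : i ≠ 0 := fun hh => hi (hh ▸ h0)
  have h3 : j ≠ m - 1 := fun hh => h1 (hh ▸ hQ)
  exact (h 0 i j (m - 1) (by omega) hij (by omega) (by omega)).1 ⟨h0, hi, hQ, h1⟩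

/-- After such a rotation every class is convex. -/
theorem NoAlt.convex {m : ℕ} {Q : ℕ → Prop} (h : NoAlt m Q) (h1 : ¬ (Q 0 ∧ Q (m - 1)))
    {i k l : ℕ} (hik : i < k) (hkl : k < l) (hl : l < m) (hi : Q i) (hl' : Q l) : Q k := by
  by_contra hk
  by_cases h2 : Q (m - 1)
  · have h3 : ¬ Q 0 := fun hh => h1 ⟨hh, h2⟩
    have h4 : i ≠ 0 := fun hh => h3 (hh ▸ hi)
    exact (h 0 i k l (by omega) hik hkl hl).2 ⟨h3, hi, hk, hl'⟩
  · have h4 : l ≠ m - 1 := fun hh => h2 (hh ▸ hl')
    exact (h i k l (m - 1) hik hkl (by omega) (by omega)).1 ⟨hi, hk, hl', h2⟩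

/-- **Sorting a cyclic label sequence without alternations.** -/
theorem exists_sorted {m : ℕ} {L : ℕ → ℕ} (hm : 0 < m) (h4 : ∀ i < m, L i < 4)
    (h0 : ∀ j, NoAlt m fun i => L i = j) (h1 : NoAlt m fun i => L i < 2)
    (h2 : NoAlt m fun i => L i = 1 ∨ L i = 2) :
    ∃ r < m, ∃ b : Bool, ∀ i j, i < j → j < m → L (dihI m b r i) ≤ L (dihI m b r j) := by
  by_cases ha : ∃ i < m, L i < 2
  · by_cases hb : ∃ i < m, ¬ L i < 2
    · -- the main case
      obtain ⟨r, hr, hr0, hr1⟩ := exists_ridxL (Q := fun i => L i < 2) ha hb
      have g0 : ∀ j, NoAlt m fun i => L (ridxL m r i) = j := fun j => (h0 j).ridxL hr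
      have g1 : NoAlt m fun i => L (ridxL m r i) < 2 := h1.ridxL hr
      have g2 : NoAlt m fun i => L (ridxL m r i) = 1 ∨ L (ridxL m r i) = 2 := h2.ridxL hr
      have g4 : ∀ i < m, L (ridxL m r i) < 4 := fun i hi => h4 _ (ridxL_lt hr hi)
      set L' : ℕ → ℕ := fun i => L (ridxL m r i) with hL'
      have hr0' : L' 0 < 2 := hr0
      have hr1' : ¬ L' (m - 1) < 2 := hr1
      have hini : ∀ i j, i < j → j < m → L' j < 2 → L' i < 2 := fun i j hij hj hQ =>
        g1.initial hr0' hr1' hij hj hQ
      have hcon : ∀ v i k l, i < k → k < l → l < m → L' i = v → L' l = v → L' k = v := by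
        intro v i k l hik hkl hl hi hl'
        refine (g0 v).convex ?_ hik hkl hl hi hl'
        rintro ⟨e1, e2⟩
        simp only [hL'] at hr0' hr1' e1 e2
        omega
      by_cases hs : (¬ ∃ i k, i < k ∧ k < m ∧ L' i = 1 ∧ L' k = 0) ∧
          (¬ ∃ i k, i < k ∧ k < m ∧ L' i = 3 ∧ L' k = 2)
      · refine ⟨r, hr, false, fun i j hij hj => ?_⟩
        show L' i ≤ L' j
        by_contra hlt
        have e1 := g4 i (by omega)
        have e2 := g4 j hj
        have e3 := hini i j hij hj
        have e4 : ¬ (L' i = 1 ∧ L' j = 0) := fun hh => hs.1 ⟨i, j, hij, hj, hh⟩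
        have e5 : ¬ (L' i = 3 ∧ L' j = 2) := fun hh => hs.2 ⟨i, j, hij, hj, hh⟩
        change L' i < 4 at e1
        change L' j < 4 at e2
        omega
      · -- reflected order
        have hA : ¬ ∃ i k, i < k ∧ k < m ∧ L' i = 0 ∧ L' k = 1 := by
          rintro ⟨i, k, hik, hk, e1, e2⟩
          apply hs
          constructor
          · rintro ⟨i', k', hik', hk', f1, f2⟩
            rcases Nat.lt_trichotomy k k' with h | h | h
            · have := hcon 0 i k k' hik h hk' e1 f2
              omega
            · rw [h] at e2; omega
            · have := hcon 1 i' k' k hik' h hk f1 e2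
              omega
          · rintro ⟨i', k', hik', hk', f1, f2⟩
            have h6 : k < i' := by
              by_contra hh
              have h7 : i' < k := by
                rcases Nat.lt_or_ge i' k with h | h
                · exact h
                · exfalso
                  have : i' = k := by omega
                  rw [this] at f1; omega
              have := hini i' k h7 hk (by omega)
              omega
            refine (g2 i k i' k' hik h6 hik' hk').2 ⟨?_, ?_, ?_, ?_⟩
            · change ¬ (L' i = 1 ∨ L' i = 2); omega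
            · change L' k = 1 ∨ L' k = 2; omega
            · change ¬ (L' i' = 1 ∨ L' i' = 2); omega
            · change L' k' = 1 ∨ L' k' = 2; omega
        have hB : ¬ ∃ i k, i < k ∧ k < m ∧ L' i = 2 ∧ L' k = 3 := by
          rintro ⟨i, k, hik, hk, e1, e2⟩
          apply hs
          constructor
          · rintro ⟨i', k', hik', hk', f1, f2⟩
            have h6 : k' < i := by
              by_contra hh
              have h7 : i < k' := by
                rcases Nat.lt_or_ge i k' with h | h
                · exact h
                · exfalso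
                  have : i = k' := by omega
                  rw [this] at e1; omega
              have := hini i k' h7 hk' (by omega)
              omega
            refine (g2 i' k' i k hik' h6 hik hk).1 ⟨?_, ?_, ?_, ?_⟩
            · change L' i' = 1 ∨ L' i' = 2; omega
            · change ¬ (L' k' = 1 ∨ L' k' = 2); omega
            · change L' i = 1 ∨ L' i = 2; omega
            · change ¬ (L' k = 1 ∨ L' k = 2); omega
          · rintro ⟨i', k', hik', hk', f1, f2⟩
            rcases Nat.lt_trichotomy k k' with h | h | h
            · have := hcon 2 i k k' hik h hk' e1 f2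
              omega
            · rw [h] at e2; omega
            · have := hcon 3 i' k' k hik' h hk f1 e2
              omega
        -- the length of the first segment
        classical
        have hex : ∃ t, t < m ∧ ¬ L' t < 2 := ⟨m - 1, by omega, hr1'⟩
        obtain ⟨ha1, ha2⟩ := Nat.find_spec hex
        have hmin := fun t (ht : t < Nat.find hex) => Nat.find_min hex ht
        set a := Nat.find hex with hadef
        have ha0 : a ≠ 0 := by
          intro hh
          rw [hh] at ha2
          exact ha2 hr0'
        have hlow : ∀ t < a, L' t < 2 := by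
          intro t ht
          by_contra hh
          exact hmin t ht ⟨by omega, hh⟩
        have hhigh : ∀ t, a ≤ t → t < m → ¬ L' t < 2 := by
          intro t ht htm hh
          rcases Nat.eq_or_lt_of_le ht with h | h
          · rw [← h] at hh; exact ha2 hh
          · exact ha2 (hini a t h htm hh)
        -- reflected index
        have hR : ∃ R < m, R = if a + r ≤ m then m - (a + r) else 2 * m - (a + r) :=
          ⟨_, by split_ifs <;> omega, rfl⟩
        obtain ⟨R, hR1, hR2⟩ := hR
        have hσ : ∀ x < m, ∃ y < m, L (dihI m true R x) = L' y ∧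
            y = (if x < a then a - 1 - x else m - 1 + a - x) := by
          intro x hx
          refine ⟨if x < a then a - 1 - x else m - 1 + a - x, by split_ifs <;> omega, ?_, rfl⟩
          simp only [hL', dihI, if_true]
          congr 1
          unfold ridxL
          split_ifs at * <;> omega
        refine ⟨R, hR1, true, fun i j hij hj => ?_⟩
        obtain ⟨y, hy, e1, e2⟩ := hσ i (by omega)
        obtain ⟨z, hz, f1, f2⟩ := hσ j hj
        rw [e1, f1]
        by_cases hj' : j < a
        · rw [if_pos (by omega)] at e2
          rw [if_pos hj'] at f2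
          have l1 := hlow y (by omega)
          have l2 := hlow z (by omega)
          have : ¬ (L' z = 0 ∧ L' y = 1) := fun hh => hA ⟨z, y, by omega, hy, hh⟩
          omega
        · rw [if_neg hj'] at f2
          have l2 := hhigh z (by omega) hz
          by_cases hi' : i < a
          · rw [if_pos hi'] at e2
            have l1 := hlow y (by omega)
            omega
          · rw [if_neg hi'] at e2
            have l1 := hhigh y (by omega) hy
            have : ¬ (L' z = 2 ∧ L' y = 3) := fun hh => hB ⟨z, y, by omega, hy, hh⟩
            have m1 : L' y < 4 := g4 y hy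
            have m2 : L' z < 4 := g4 z hz
            omega
    · push Not at hb
      by_cases hc : ∃ i < m, L i = 0
      · by_cases hd : ∃ i < m, ¬ L i = 0
        · obtain ⟨r, hr, hr0, hr1⟩ := exists_ridxL (Q := fun i => L i = 0) hc hd
          refine ⟨r, hr, false, fun i j hij hj => ?_⟩
          have g := (h0 0).ridxL hr
          have e1 := hb _ (ridxL_lt hr (show i < m by omega))
          have e2 : L (ridxL m r j) = 0 → L (ridxL m r i) = 0 := fun hh =>
            g.initial hr0 hr1 hij hj hh
          show L (ridxL m r i) ≤ L (ridxL m r j)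
          omega
        · push Not at hd
          refine ⟨0, hm, false, fun i j hij hj => ?_⟩
          have e1 := hd _ (ridxL_lt hm (show i < m by omega))
          show L (ridxL m 0 i) ≤ L (ridxL m 0 j)
          omega
      · push Not at hc
        refine ⟨0, hm, false, fun i j hij hj => ?_⟩
        have e1 := hc _ (ridxL_lt hm (show i < m by omega))
        have e2 := hc _ (ridxL_lt hm hj)
        have e3 := hb _ (ridxL_lt hm (show i < m by omega))
        have e4 := hb _ (ridxL_lt hm hj)
        show L (ridxL m 0 i) ≤ L (ridxL m 0 j)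
        omega
  · push Not at ha
    by_cases hc : ∃ i < m, L i = 2
    · by_cases hd : ∃ i < m, ¬ L i = 2
      · obtain ⟨r, hr, hr0, hr1⟩ := exists_ridxL (Q := fun i => L i = 2) hc hd
        refine ⟨r, hr, false, fun i j hij hj => ?_⟩
        have g := (h0 2).ridxL hr
        have e1 := h4 _ (ridxL_lt hr (show i < m by omega))
        have e3 := ha _ (ridxL_lt hr hj)
        have e2 : L (ridxL m r j) = 2 → L (ridxL m r i) = 2 := fun hh =>
          g.initial hr0 hr1 hij hj hh
        show L (ridxL m r i) ≤ L (ridxL m r j)
        omega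
      · push Not at hd
        refine ⟨0, hm, false, fun i j hij hj => ?_⟩
        have e1 := hd _ (ridxL_lt hm (show i < m by omega))
        have e2 := hd _ (ridxL_lt hm hj)
        show L (ridxL m 0 i) ≤ L (ridxL m 0 j)
        omega
    · push Not at hc
      refine ⟨0, hm, false, fun i j hij hj => ?_⟩
      have e1 := hc _ (ridxL_lt hm (show i < m by omega))
      have e2 := hc _ (ridxL_lt hm hj)
      have e3 := ha _ (ridxL_lt hm (show i < m by omega))
      have e4 := ha _ (ridxL_lt hm hj)
      have e5 := h4 _ (ridxL_lt hm (show i < m by omega))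
      have e6 := h4 _ (ridxL_lt hm hj)
      show L (ridxL m 0 i) ≤ L (ridxL m 0 j)
      omega

end Pool.Agent.SixB
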