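import Pool.Agent.Lib.SixB.S8Lab
import Pool.Agent.Lib.SixB.S8Sort

/-!
# Step 8: the order lemma for arcs

`order_arcs`: four arcs of the contour of a rough hole-free region `U` induce four arcs, in the same
cyclic order, of the contour of an inner polygon `P` made of cells; every boundary side of `P` in the
arc `j` is linked to the arc `j` of `U` by a connected set of faces of `U \ P` inside one cell.
-/

set_option autoImplicit false

namespace Pool.Agent.SixB

open Finset Pool.Agent.Perc Pool.Agent.Perc6 Pool.Agent.SixB.LC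

/-! ### Reflection of contours, chains -/

/-- The reflected contour. -/
def refw (m : ℕ) (w : ℕ → ℤ × ℤ) : ℕ → ℤ × ℤ := fun i => w (m - i)

theorem Ctr.refl' {F : Set (ℤ × ℤ)} {m : ℕ} {w : ℕ → ℤ × ℤ} (h : Ctr F m w) :
    Ctr F m (refw m w) := by
  have key : ∀ i < m, refw m w i = w (m - 1 - i + 1) ∧ refw m w (i + 1) = w (m - 1 - i) := by
    intro i hi
    constructor
    · unfold refw; congr 1; omega
    · unfold refw; congr 1; omega
  refine ⟨?_, ?_, ?_, ?_, h.pot⟩
  · unfold refw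
    rw [Nat.sub_self, Nat.sub_zero, h.close]
  · intro i hi
    obtain ⟨e, he, hj⟩ := h.step (m - 1 - i) (by omega)
    rw [(key i hi).1, (key i hi).2]
    exact ⟨e, he, hj.symm⟩
  · intro e he
    obtain ⟨i, hi, hj⟩ := h.all e he
    refine ⟨m - 1 - i, by omega, ?_⟩
    rw [(key _ (by omega)).1, (key _ (by omega)).2, show m - 1 - (m - 1 - i) = i by omega]
    exact hj.symm
  · intro i hi k hk e h1 h2
    rw [(key i hi).1, (key i hi).2] at h1
    rw [(key k hk).1, (key k hk).2] at h2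
    have := h.inj (m - 1 - i) (by omega) (m - 1 - k) (by omega) e h1.symm h2.symm
    omega

theorem adj_iff_adjFL {f g : ℤ × ℤ} : Adj f g ↔ AdjF f g := by
  rw [adjF_iff]
  obtain ⟨f1, f2⟩ := f
  obtain ⟨g1, g2⟩ := g
  simp only [Adj, Prod.mk.injEq]
  omega

theorem rtg_iff {S : Set (ℤ × ℤ)} {f g : ℤ × ℤ} :
    Relation.ReflTransGen (fun a b => Adj a b ∧ b ∈ S) f g ↔
      Relation.ReflTransGen (StepC Sᶜ) f g := by
  have : (fun a b => Adj a b ∧ b ∈ S) = StepC Sᶜ := by
    funext a b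
    simp only [StepC, adj_iff_adjFL, Set.mem_compl_iff, not_not]
  rw [this]

/-- The contour with index map `dihI`. -/
def dihw (m : ℕ) (b : Bool) (r : ℕ) (w : ℕ → ℤ × ℤ) : ℕ → ℤ × ℤ :=
  rotw m r (if b then refw m w else w)

theorem Ctr.dihI {F : Finset (ℤ × ℤ)} {m : ℕ} {w : ℕ → ℤ × ℤ} (h : Ctr (F : Set (ℤ × ℤ)) m w)
    (b : Bool) {r : ℕ} (hr : r < m) : Ctr (F : Set (ℤ × ℤ)) m (dihw m b r w) := by
  unfold dihw
  apply ctr_rot _ hr.le
  cases b
  · simpa using h
  · simpa using h.refl'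

theorem rotw_edgeI {m r i : ℕ} {w : ℕ → ℤ × ℤ} (hc : w m = w 0) :
    rotw m r w i = w (ridxL m r i) ∧ rotw m r w (i + 1) = w (ridxL m r i + 1) := by
  unfold rotw ridxL
  by_cases h1 : i + r < m
  · rw [if_pos h1.le, if_pos h1, if_pos (by omega)]
    exact ⟨rfl, by congr 1; omega⟩
  · rw [if_neg h1]
    by_cases h2 : i + r = m
    · rw [if_pos h2.le, if_neg (by omega)]
      constructor
      · rw [h2, hc, Nat.sub_self]
      · congr 1; omega
    · rw [if_neg (by omega), if_neg (by omega)]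
      exact ⟨rfl, by congr 1; omega⟩

theorem dihw_edgeI {m r i : ℕ} {b : Bool} {w : ℕ → ℤ × ℤ} (hc : w m = w 0) (hr : r < m)
    (hi : i < m) {e : UE} :
    Joins e (dihw m b r w i) (dihw m b r w (i + 1)) ↔
      Joins e (w (dihI m b r i)) (w (dihI m b r i + 1)) := by
  have hrl := ridxL_lt hr hi
  cases b
  · have := rotw_edgeI (r := r) (i := i) (w := w) hc
    simp only [dihw, dihI, Bool.false_eq_true, if_false]
    rw [this.1, this.2]
  · have hc' : refw m w m = refw m w 0 := by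
      unfold refw; rw [Nat.sub_self, Nat.sub_zero, hc]
    have := rotw_edgeI (r := r) (i := i) (w := refw m w) hc'
    simp only [dihw, dihI, if_true]
    rw [this.1, this.2]
    have e1 : refw m w (ridxL m r i) = w (m - 1 - ridxL m r i + 1) := by
      unfold refw; congr 1; omega
    have e2 : refw m w (ridxL m r i + 1) = w (m - 1 - ridxL m r i) := by
      unfold refw; congr 1; omega
    rw [e1, e2]
    exact ⟨fun h => h.symm, fun h => h.symm⟩

/-! ### The links -/

/-- The data linking a boundary edge `e` of `P` to a boundary edge `t` of `U`. -/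
structure Link {ι : Type*} (U P : Set (ℤ × ℤ)) (κ : ℤ × ℤ → ι) (e t : UE) (C : Set (ℤ × ℤ)) :
    Prop where
  cnx : ∃ f Γ, Cnx U P C e t f Γ
  cell : ∀ x ∈ C, ∀ y ∈ C, κ x = κ y
  chain : ∀ x ∈ C, ∀ y ∈ C, Relation.ReflTransGen (StepC Cᶜ) x y
  ends : (C = ∅ ∧ e = t) ∨ ((∃ f ∈ C, IsSide f e) ∧ ∃ f ∈ C, IsSide f t)

/-- Every boundary edge of `P` has a link; links with different ends are disjoint. -/
theorem exists_links {ι : Type*} {U P : Set (ℤ × ℤ)} (hPU : P ⊆ U) (κ : ℤ × ℤ → ι)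
    (hsat : ∀ x y, κ x = κ y → x ∈ P → y ∈ P)
    (hcell : ∀ x y, κ x = κ y → Relation.ReflTransGen (StepC {z | κ z = κ x}ᶜ) x y)
    (hnot : ∀ f ∈ P, ∀ g, AdjF f g → g ∉ P → ∃ x, κ x = κ g ∧ x ∉ U) :
    ∃ (R : UE → UE) (C : UE → Set (ℤ × ℤ)), (∀ e, BdU P e → BdU U (R e) ∧ Link U P κ e (R e) (C e)) ∧
      ∀ e e', BdU P e → BdU P e' → R e ≠ R e' → Disjoint (C e) (C e') := by
  classical
  -- the outer face
  have hout : ∀ e, BdU P e → ∃ f g, f ∈ P ∧ g ∉ P ∧ IsSide f e ∧ IsSide g e := by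
    rintro e ⟨⟨f, hf, hs⟩, g, hg, hgs⟩
    exact ⟨f, g, hf, hg, hs, hgs⟩
  choose! inn out hin hout' hsin hsout using hout
  set K : UE → Set (ℤ × ℤ) := fun e => {z | κ z = κ (out e)} with hK
  set C : UE → Set (ℤ × ℤ) := fun e => if out e ∈ U then cmpC U (K e) (out e) else ∅ with hC
  set R : UE → UE := fun e => if out e ∈ U then rootE U (C e) else e with hR
  have hKP : ∀ e, BdU P e → ∀ k ∈ K e, k ∉ P := by
    intro e he k hk hkP
    exact hout' e he (hsat k (out e) hk hkP)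
  have hroot : ∀ e, BdU P e → out e ∈ U → ∃ t, BdU U t ∧ ∃ k ∈ cmpC U (K e) (out e), IsSide k t := by
    intro e he hU
    have hne : inn e ≠ out e := fun h => hout' e he (h ▸ hin e he)
    obtain ⟨x, hx1, hx2⟩ := hnot (inn e) (hin e he) (out e)
      ⟨hne, e, hsin e he, hsout e he⟩ (hout' e he)
    exact exists_root hU (show out e ∈ K e from rfl) hx2 (hcell (out e) x hx1.symm)
  refine ⟨R, C, ?_, ?_⟩
  · intro e he
    by_cases hU : out e ∈ U
    · have hCe : C e = cmpC U (K e) (out e) := if_pos hU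
      have hRe : R e = rootE U (cmpC U (K e) (out e)) := by
        simp only [hR]; rw [if_pos hU, hCe]
      obtain ⟨hb, k, hk, hks⟩ := rootE_spec (hroot e he hU)
      rw [hRe, hCe]
      have hsub := cmpC_sub (K := K e) hU (show out e ∈ K e from rfl)
      refine ⟨hb, ⟨?_, ?_, ?_, Or.inr ⟨⟨out e, mem_cmpC, hsout e he⟩, k, hk, hks⟩⟩⟩
      · obtain ⟨Γ, hΓ⟩ := exists_cnx hPU (hKP e he) (hin e he) (hsin e he) (hsout e he)
          (show out e ∈ K e from rfl) hU (hroot e he hU)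
        exact ⟨_, Γ, hΓ⟩
      · intro x hx y hy
        exact ((hsub hx).2 : κ x = κ (out e)).trans ((hsub hy).2 : κ y = κ (out e)).symm
      · intro x hx y hy
        have hx1 : cmpC U (K e) x = cmpC U (K e) (out e) :=
          cmpC_eq hU (show out e ∈ K e from rfl) hx
        rw [← hx1] at hy ⊢
        have hpath : ∀ h, Relation.ReflTransGen (StepC (U ∩ K e)ᶜ) x h →
            Relation.ReflTransGen (StepC (cmpC U (K e) x)ᶜ) x h := by
          intro h hh
          induction hh with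
          | refl => exact Relation.ReflTransGen.refl
          | @tail b c hb hs ih =>
            exact ih.tail ⟨hs.1, fun hx => hx (show c ∈ cmpC U (K e) x from hb.tail hs)⟩
        exact hpath y hy
    · have hCe : C e = ∅ := if_neg hU
      have hRe : R e = e := if_neg hU
      rw [hRe, hCe]
      refine ⟨⟨⟨inn e, hPU (hin e he), hsin e he⟩, out e, hU, hsout e he⟩,
        ⟨⟨_, _, cnx_self hPU (hin e he) (hsin e he) (hsout e he) hU⟩, ?_, ?_, Or.inl ⟨rfl, rfl⟩⟩⟩
      · intro x hx; exact absurd hx (Set.notMem_empty x)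
      · intro x hx; exact absurd hx (Set.notMem_empty x)
  · intro e e' he he' hne
    by_cases hU : out e ∈ U
    · by_cases hU' : out e' ∈ U
      · rw [Set.disjoint_left]
        intro x hx hx'
        apply hne
        have hCe : C e = cmpC U (K e) (out e) := if_pos hU
        have hCe' : C e' = cmpC U (K e') (out e') := if_pos hU'
        rw [hCe] at hx
        rw [hCe'] at hx'
        have h1 := (cmpC_sub hU (show out e ∈ K e from rfl) hx).2
        have h2 := (cmpC_sub hU' (show out e' ∈ K e' from rfl) hx').2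
        have hKK : K e = K e' := by
          have : κ (out e) = κ (out e') := (h1 : κ x = κ (out e)).symm.trans h2
          simp only [hK, this]
        have h3 := cmpC_eq hU (show out e ∈ K e from rfl) hx
        have h4 := cmpC_eq hU' (show out e' ∈ K e' from rfl) hx'
        have : C e = C e' := by rw [hCe, hCe', ← h3, ← h4, hKK]
        simp only [hR]
        rw [if_pos hU, if_pos hU', this]
      · have hCe' : C e' = ∅ := if_neg hU'
        rw [hCe']; exact Set.disjoint_empty _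
    · have hCe : C e = ∅ := if_neg hU
      rw [hCe]; exact Set.empty_disjoint _

/-! ### The order lemma for arcs -/

theorem lab_side_box {g : ℤ × ℤ} {e : UE} {p q : ℤ × ℤ} (h : IsSide g e) (hj : Joins e p q) :
    |g.1 - p.1| ≤ 1 ∧ |g.2 - p.2| ≤ 1 := by
  have := h.cor_left hj
  obtain ⟨g1, g2⟩ := g
  obtain ⟨p1, p2⟩ := p
  simp only [IsCor] at this
  simp only [abs_le]
  omega

theorem lab_card_lt_iff {m : ℕ} {L : ℕ → ℕ} (hmono : ∀ i j, i < j → j < m → L i ≤ L j) {i j : ℕ}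
    (hi : i < m) : i < ((range m).filter fun x => L x < j).card ↔ L i < j := by
  classical
  constructor
  · intro h
    by_contra hn
    have hsub : (range m).filter (fun x => L x < j) ⊆ range i := by
      intro x hx
      rw [Finset.mem_filter, Finset.mem_range] at hx
      rw [Finset.mem_range]
      by_contra hxi
      have hix : L i ≤ L x := by
        rcases Nat.eq_or_lt_of_le (Nat.le_of_not_lt hxi) with h1 | h1
        · rw [h1]
        · exact hmono i x h1 hx.1
      omega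
    have := Finset.card_le_card hsub
    rw [Finset.card_range] at this
    omega
  · intro h
    have hsub : range (i + 1) ⊆ (range m).filter fun x => L x < j := by
      intro x hx
      rw [Finset.mem_range] at hx
      rw [Finset.mem_filter, Finset.mem_range]
      refine ⟨by omega, ?_⟩
      rcases Nat.eq_or_lt_of_le (Nat.lt_succ_iff.1 hx) with h1 | h1
      · rw [h1]; exact h
      · exact lt_of_le_of_lt (hmono x i h1 hi) h
    have := Finset.card_le_card hsub
    rw [Finset.card_range] at this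
    omega

/-- The data produced by the order lemma: the contour `w₂` of `P` with the marks `k₂`, linked to the
contour `w` of `U` with the marks `k` by the sets `sg`. -/
structure ArcLink {ι : Type*} (U P : Finset (ℤ × ℤ)) (κ : ℤ × ℤ → ι) (d : ℤ) (w : ℕ → ℤ × ℤ)
    (k : ℕ → ℕ) (m₂ : ℕ) (w₂ : ℕ → ℤ × ℤ) (k₂ : ℕ → ℕ) (sg : ℕ → Finset (ℤ × ℤ)) : Prop where
  ctr : Ctr (P : Set (ℤ × ℤ)) m₂ w₂
  k0 : k₂ 0 = 0
  k4 : k₂ 4 = m₂
  mono : Monotone k₂
  sub : ∀ i < m₂, ∀ f ∈ sg i, f ∈ U ∧ f ∉ P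
  box : ∀ i < m₂, ∀ f ∈ sg i, |f.1 - (w₂ i).1| ≤ d ∧ |f.2 - (w₂ i).2| ≤ d
  cell : ∀ i < m₂, ∀ f ∈ sg i, ∀ g ∈ sg i, κ f = κ g
  chn : ∀ i < m₂, ∀ f ∈ sg i, ∀ g ∈ sg i, Chn (sg i : Set (ℤ × ℤ)) f g
  link : ∀ j < 4, ∀ i, k₂ j ≤ i → i < k₂ (j + 1) → ∃ l, k j ≤ l ∧ l < k (j + 1) ∧
    ((sg i = ∅ ∧ ∃ e, Joins e (w₂ i) (w₂ (i + 1)) ∧ Joins e (w l) (w (l + 1))) ∨
      ((∃ f ∈ sg i, ∃ e, IsSide f e ∧ Joins e (w₂ i) (w₂ (i + 1))) ∧
        ∃ f ∈ sg i, ∃ e, IsSide f e ∧ Joins e (w l) (w (l + 1))))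
  disj : ∀ j < 4, ∀ j' < 4, j ≠ j' → ∀ i, k₂ j ≤ i → i < k₂ (j + 1) → ∀ i', k₂ j' ≤ i' →
    i' < k₂ (j' + 1) → Disjoint (sg i) (sg i')

/-- **The order lemma for arcs.** -/
theorem order_arcs {ι : Type*} {U P : Finset (ℤ × ℤ)} {m m' : ℕ} {w w' : ℕ → ℤ × ℤ}
    (hU : Ctr (U : Set (ℤ × ℤ)) m w) (hP : Ctr (P : Set (ℤ × ℤ)) m' w') (hPU : P ⊆ U)
    (hcon : ∀ f ∈ P, ∀ g ∈ P, Chn (P : Set (ℤ × ℤ)) f g) (κ : ℤ × ℤ → ι) {d : ℤ}
    (hsat : ∀ x y, κ x = κ y → x ∈ P → y ∈ P)
    (hcell : ∀ x y, κ x = κ y → Chn {z | κ z = κ x} x y)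
    (hdiam : ∀ x y, κ x = κ y → |x.1 - y.1| < d ∧ |x.2 - y.2| < d)
    (hnot : ∀ f ∈ P, ∀ g, Adj f g → g ∉ P → ∃ x, κ x = κ g ∧ x ∉ U)
    {k : ℕ → ℕ} (k0 : k 0 = 0) (k4 : k 4 = m) (hk : Monotone k) :
    ∃ (w₂ : ℕ → ℤ × ℤ) (k₂ : ℕ → ℕ) (sg : ℕ → Finset (ℤ × ℤ)),
      ArcLink U P κ d w k m' w₂ k₂ sg := by
  classical
  rcases Nat.eq_zero_or_pos m' with h0 | hm'
  · subst h0
    exact ⟨w', fun _ => 0, fun _ => ∅, ⟨hP, rfl, rfl, fun _ _ _ => le_rfl,
      fun i hi => absurd hi (Nat.not_lt_zero i), fun i hi => absurd hi (Nat.not_lt_zero i),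
      fun i hi => absurd hi (Nat.not_lt_zero i), fun i hi => absurd hi (Nat.not_lt_zero i),
      fun j _ i _ hi => absurd hi (Nat.not_lt_zero i),
      fun j _ j' _ _ i _ hi => absurd hi (Nat.not_lt_zero i)⟩⟩
  obtain ⟨R, C, hRC, hdisj⟩ := exists_links (U := (U : Set (ℤ × ℤ))) (P := (P : Set (ℤ × ℤ)))
    (fun x hx => Finset.mem_coe.2 (hPU (Finset.mem_coe.1 hx))) κ
    (fun x y hxy hx => Finset.mem_coe.2 (hsat x y hxy (Finset.mem_coe.1 hx)))
    (fun x y hxy => rtg_iff.1 (hcell x y hxy).2)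
    (fun f hf g hfg hg => by
      obtain ⟨x, hx1, hx2⟩ := hnot f (Finset.mem_coe.1 hf) g (adj_iff_adjFL.2 hfg)
        (fun h => hg (Finset.mem_coe.2 h))
      exact ⟨x, hx1, fun h => hx2 (Finset.mem_coe.1 h)⟩)
  have hcon' : ∀ f ∈ (P : Set (ℤ × ℤ)), ∀ g ∈ (P : Set (ℤ × ℤ)),
      Relation.ReflTransGen (StepC (P : Set (ℤ × ℤ))ᶜ) f g := fun f hf g hg =>
    rtg_iff.1 (hcon f (Finset.mem_coe.1 hf) g (Finset.mem_coe.1 hg)).2
  -- the edges and the indices
  have hE : ∀ i, ∃ e, i < m' → BdU (P : Set (ℤ × ℤ)) e ∧ Joins e (w' i) (w' (i + 1)) := by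
    intro i
    by_cases hi : i < m'
    · obtain ⟨e, he, hj⟩ := hP.step i hi
      exact ⟨e, fun _ => ⟨he, hj⟩⟩
    · exact ⟨(0, 0, false), fun h => absurd h hi⟩
  choose E hE using hE
  have hS : ∀ i, ∃ s, i < m' → s < m ∧ Joins (R (E i)) (w s) (w (s + 1)) := by
    intro i
    by_cases hi : i < m'
    · obtain ⟨s, hs, hj⟩ := hU.all _ (hRC _ (hE i hi).1).1
      exact ⟨s, fun _ => ⟨hs, hj⟩⟩
    · exact ⟨0, fun h => absurd h hi⟩
  choose S hS using hS
  have hRne : ∀ i j, i < m' → j < m' → S i ≠ S j → R (E i) ≠ R (E j) := by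
    intro i j hi hj hne h
    apply hne
    exact hU.inj _ (hS i hi).1 _ (hS j hj).1 (R (E i)) (hS i hi).2 (by rw [h]; exact (hS j hj).2)
  -- no alternation
  have hno : ∀ x y, NoAlt m' fun i => x ≤ S i ∧ S i < y := by
    intro x y i k l p hik hkl hlp hpm
    have key : S k ≠ S i → S k ≠ S l → S p ≠ S i → S p ≠ S l →
        (S i ∈ Ico (min (S k) (S p)) (max (S k) (S p)) ↔
          S l ∉ Ico (min (S k) (S p)) (max (S k) (S p))) := by
      intro n1 n2 n3 n4
      have di := hE i (by omega)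
      have dk := hE k (by omega)
      have dl := hE l (by omega)
      have dp := hE p hpm
      obtain ⟨fi, Γi, ci⟩ := (hRC _ di.1).2.cnx
      obtain ⟨fk, Γk, ck⟩ := (hRC _ dk.1).2.cnx
      obtain ⟨fl, Γl, cl⟩ := (hRC _ dl.1).2.cnx
      obtain ⟨fp, Γp, cp⟩ := (hRC _ dp.1).2.cnx
      exact (Cnx.sep hU hP (fun x hx => Finset.mem_coe.2 (hPU (Finset.mem_coe.1 hx))) hcon' hik hkl
        hlp hpm (hS i (by omega)).1 (hS k (by omega)).1 (hS l (by omega)).1 (hS p hpm).1 di.2 dk.2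
        dl.2 dp.2 (hS i (by omega)).2 (hS k (by omega)).2 (hS l (by omega)).2 (hS p hpm).2 ci ck cl
        cp (hdisj _ _ dk.1 di.1 (hRne k i (by omega) (by omega) n1))
        (hdisj _ _ dk.1 dl.1 (hRne k l (by omega) (by omega) n2))
        (hdisj _ _ dp.1 di.1 (hRne p i hpm (by omega) n3))
        (hdisj _ _ dp.1 dl.1 (hRne p l hpm (by omega) n4)) n1 n2 n3 n4).2.2
    constructor
    · rintro ⟨h1, h2, h3, h4⟩
      have := key (by omega) (by omega) (by omega) (by omega)
      simp only [Finset.mem_Ico] at this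
      omega
    · rintro ⟨h1, h2, h3, h4⟩
      have := key (by omega) (by omega) (by omega) (by omega)
      simp only [Finset.mem_Ico] at this
      omega
  -- the labels
  have c01 := hk (show 0 ≤ 1 by omega)
  have c12 := hk (show 1 ≤ 2 by omega)
  have c23 := hk (show 2 ≤ 3 by omega)
  have c34 := hk (show 3 ≤ 4 by omega)
  set lab : ℕ → ℕ := fun x => if x < k 1 then 0 else if x < k 2 then 1 else if x < k 3 then 2 else 3
    with hlab
  have hlab4 : ∀ x, lab x < 4 := by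
    intro x; simp only [hlab]; split_ifs <;> omega
  have hlabj : ∀ x < m, k (lab x) ≤ x ∧ x < k (lab x + 1) := by
    intro x hx
    simp only [hlab]
    split_ifs
    · exact ⟨by omega, by simpa using ‹x < k 1›⟩
    · exact ⟨by omega, by simpa using ‹x < k 2›⟩
    · exact ⟨by omega, by simpa using ‹x < k 3›⟩
    · exact ⟨by omega, by simpa [k4] using hx⟩
  set L : ℕ → ℕ := fun i => lab (S i) with hL
  have hcongr : ∀ Q Q' : ℕ → Prop, (∀ i < m', (Q i ↔ Q' i)) → NoAlt m' Q → NoAlt m' Q' := by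
    intro Q Q' h hQ i k l p hik hkl hlp hpm
    have := hQ i k l p hik hkl hlp hpm
    rw [h i (by omega), h k (by omega), h l (by omega), h p hpm] at this
    exact this
  have hn0 : ∀ j, NoAlt m' fun i => L i = j := by
    intro j
    by_cases hj : j < 4
    · refine hcongr _ _ ?_ (hno (k j) (k (j + 1)))
      intro i hi
      have hsm := (hS i hi).1
      simp only [hL, hlab]
      have hjc : j = 0 ∨ j = 1 ∨ j = 2 ∨ j = 3 := by omega
      rcases hjc with rfl | rfl | rfl | rfl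
      · show (k 0 ≤ S i ∧ S i < k 1) ↔ _
        split_ifs <;> first | omega | (simp only [iff_false]; omega)
      · show (k 1 ≤ S i ∧ S i < k 2) ↔ _
        split_ifs <;> first | omega | (simp only [iff_false]; omega)
      · show (k 2 ≤ S i ∧ S i < k 3) ↔ _
        split_ifs <;> first | omega | (simp only [iff_false]; omega)
      · show (k 3 ≤ S i ∧ S i < k 4) ↔ _
        split_ifs <;> first | omega | (simp only [iff_false]; omega)
    · intro i k l p _ _ _ _
      have e1 := hlab4 (S i)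
      have e2 := hlab4 (S k)
      constructor
      · rintro ⟨h1, -⟩
        simp only [hL] at h1
        omega
      · rintro ⟨-, h1, -⟩
        simp only [hL] at h1
        omega
  have hn1 : NoAlt m' fun i => L i < 2 := by
    refine hcongr _ _ ?_ (hno 0 (k 2))
    intro i hi
    have hsm := (hS i hi).1
    simp only [hL, hlab]
    split_ifs <;> omega
  have hn2 : NoAlt m' fun i => L i = 1 ∨ L i = 2 := by
    refine hcongr _ _ ?_ (hno (k 1) (k 3))
    intro i hi
    have hsm := (hS i hi).1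
    simp only [hL, hlab]
    split_ifs <;> first | omega | (simp only [or_self, iff_false]; omega)
  obtain ⟨r, hr, b, hmono⟩ := exists_sorted hm' (fun i _ => hlab4 (S i)) hn0 hn1 hn2
  set D : ℕ → ℕ := dihI m' b r with hD
  have hDlt : ∀ i < m', D i < m' := fun i hi => dihI_lt hr hi
  have hedge : ∀ i < m', ∀ e, Joins e (dihw m' b r w' i) (dihw m' b r w' (i + 1)) ↔
      Joins e (w' (D i)) (w' (D i + 1)) := fun i hi e => dihw_edgeI hP.close hr hi
  set k₂ : ℕ → ℕ := fun j => ((range m').filter fun x => L (D x) < j).card with hk₂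
  have hk₂iff : ∀ i < m', ∀ j, i < k₂ j ↔ L (D i) < j := fun i hi j => lab_card_lt_iff hmono hi
  have hk₂m : ∀ j, k₂ j ≤ m' := by
    intro j
    have := Finset.card_filter_le (range m') fun x => L (D x) < j
    rwa [Finset.card_range] at this
  have harc : ∀ j, ∀ i, k₂ j ≤ i → i < k₂ (j + 1) → i < m' ∧ L (D i) = j := by
    intro j i h1 h2
    have hi : i < m' := lt_of_lt_of_le h2 (hk₂m _)
    refine ⟨hi, ?_⟩
    have e1 := (hk₂iff i hi (j + 1)).1 h2
    have e2 : ¬ L (D i) < j := fun h => absurd ((hk₂iff i hi j).2 h) (by omega)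
    omega
  refine ⟨dihw m' b r w', k₂, fun i => U.filter fun x => x ∈ C (E (D i)), ?_⟩
  have hsgC : ∀ i < m', ∀ x, x ∈ U.filter (fun x => x ∈ C (E (D i))) ↔ x ∈ C (E (D i)) := by
    intro i hi x
    rw [Finset.mem_filter]
    refine ⟨fun h => h.2, fun h => ⟨?_, h⟩⟩
    obtain ⟨f, Γ, hc⟩ := (hRC _ (hE (D i) (hDlt i hi)).1).2.cnx
    exact Finset.mem_coe.1 (hc.subU h)
  have hsgset : ∀ i < m', ((U.filter fun x => x ∈ C (E (D i)) : Finset (ℤ × ℤ)) : Set (ℤ × ℤ)) =
      C (E (D i)) := by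
    intro i hi
    ext x
    rw [Finset.mem_coe]
    exact hsgC i hi x
  refine ⟨hP.dihI b hr, ?_, ?_, ?_, ?_, ?_, ?_, ?_, ?_, ?_⟩
  · simp only [hk₂]
    rw [Finset.card_eq_zero, Finset.filter_eq_empty_iff]
    intro x _; omega
  · simp only [hk₂]
    rw [Finset.filter_true_of_mem, Finset.card_range]
    intro x _
    exact hlab4 _
  · intro j j' hjj
    simp only [hk₂]
    apply Finset.card_le_card
    intro x hx
    rw [Finset.mem_filter] at hx ⊢
    exact ⟨hx.1, lt_of_lt_of_le hx.2 hjj⟩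
  · intro i hi f hf
    have h1 := (hsgC i hi f).1 hf
    obtain ⟨f', Γ, hc⟩ := (hRC _ (hE (D i) (hDlt i hi)).1).2.cnx
    exact ⟨Finset.mem_coe.1 (hc.subU h1), fun h => hc.subP f h1 (Finset.mem_coe.2 h)⟩
  · intro i hi f hf
    have h1 := (hsgC i hi f).1 hf
    have hl := (hRC _ (hE (D i) (hDlt i hi)).1).2
    rcases hl.ends with ⟨h2, -⟩ | ⟨⟨g, hg, hgs⟩, -⟩
    · rw [h2] at h1
      exact absurd h1 (Set.notMem_empty f)
    · have h3 := hdiam f g (hl.cell f h1 g hg)
      have hj : Joins (E (D i)) (dihw m' b r w' i) (dihw m' b r w' (i + 1)) :=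
        (hedge i hi _).2 (hE (D i) (hDlt i hi)).2
      have h4 := lab_side_box hgs hj
      obtain ⟨h5, h6⟩ := h3
      obtain ⟨h7, h8⟩ := h4
      simp only [abs_lt, abs_le] at *
      omega
  · intro i hi f hf g hg
    have hl := (hRC _ (hE (D i) (hDlt i hi)).1).2
    exact hl.cell f ((hsgC i hi f).1 hf) g ((hsgC i hi g).1 hg)
  · intro i hi f hf g hg
    have hl := (hRC _ (hE (D i) (hDlt i hi)).1).2
    refine ⟨Finset.mem_coe.2 hf, rtg_iff.2 ?_⟩
    rw [hsgset i hi]
    exact hl.chain f ((hsgC i hi f).1 hf) g ((hsgC i hi g).1 hg)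
  · intro j hj i h1 h2
    obtain ⟨hi, hLi⟩ := harc j i h1 h2
    have hDi := hDlt i hi
    have hlj := hlabj (S (D i)) (hS _ hDi).1
    have hLi' : lab (S (D i)) = j := hLi
    rw [hLi'] at hlj
    refine ⟨S (D i), hlj.1, hlj.2, ?_⟩
    have hl := (hRC _ (hE (D i) hDi).1).2
    have hj1 : Joins (E (D i)) (dihw m' b r w' i) (dihw m' b r w' (i + 1)) :=
      (hedge i hi _).2 (hE (D i) hDi).2
    rcases hl.ends with ⟨h3, h4⟩ | ⟨⟨g, hg, hgs⟩, h, hh, hhs⟩
    · left
      refine ⟨?_, R (E (D i)), ?_, (hS _ hDi).2⟩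
      · ext x
        rw [hsgC i hi x, h3]
        simp
      · rw [← h4]; exact hj1
    · right
      exact ⟨⟨g, (hsgC i hi g).2 hg, _, hgs, hj1⟩, h, (hsgC i hi h).2 hh, _, hhs, (hS _ hDi).2⟩
  · intro j hj j' hj' hne i h1 h2 i' h1' h2'
    obtain ⟨hi, hLi⟩ := harc j i h1 h2
    obtain ⟨hi', hLi'⟩ := harc j' i' h1' h2'
    have hSne : S (D i) ≠ S (D i') := by
      intro h
      apply hne
      have e1 : lab (S (D i)) = j := hLi
      have e2 : lab (S (D i')) = j' := hLi'
      rw [← e1, ← e2, h]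
    have := hdisj _ _ (hE (D i) (hDlt i hi)).1 (hE (D i') (hDlt i' hi')).1
      (hRne _ _ (hDlt i hi) (hDlt i' hi') hSne)
    rw [Finset.disjoint_left]
    intro x hx hx'
    exact Set.disjoint_left.1 this ((hsgC i hi x).1 hx) ((hsgC i' hi' x).1 hx')

end Pool.Agent.SixB
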