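import Pool.Agent.Lib.SixB.CAColGeo
import Pool.Agent.Lib.SixB.CAEqui
import Pool.Agent.Lib.SixB.S8Order
import Pool.Agent.Lib.SixB.S8LemCd

/-!
# 6BD, CACol: a region and its unit shift have a common inner part with comparable arcs

* `apr_of_link`: the output of the order lemma is the input of Lemma C.
* `exists_link`: the order lemma for `Q = {f ∈ U | f + (s, 0) ∈ U}`, `s = ± 1`.
* `attained`: long arcs of `U` have sides of `Q`.
* `arc_cmp`: the arcs of `Q` induced by `U` and by its unit shift differ near the marks only.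
-/

set_option autoImplicit false

namespace Pool.Agent.SixB.Col

open Finset Pool.Agent.Perc Pool.Agent.Perc6 Pool.Agent.SixB Pool.Agent.SixB.LC Pool.Agent.PercT

/-! ### From the order lemma to Lemma C -/

theorem lab_eq_of {k : ℕ → ℕ} (hk : Monotone k) {j l : ℕ} (hj : j < 4) (h : k j ≤ l)
    (h' : l < k (j + 1)) : lab (k 1) (k 2) (k 3) l = j := by
  have c12 := hk (show 1 ≤ 2 by omega)
  have c23 := hk (show 2 ≤ 3 by omega)
  unfold lab
  have : j = 0 ∨ j = 1 ∨ j = 2 ∨ j = 3 := by omega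
  rcases this with rfl | rfl | rfl | rfl
  · rw [if_pos (by simpa using h')]
  · rw [if_neg (by omega), if_pos (by simpa using h')]
  · rw [if_neg (by omega), if_neg (by omega), if_pos (by simpa using h')]
  · rw [if_neg (by omega), if_neg (by omega), if_neg (by omega)]

theorem exists_arc {k : ℕ → ℕ} (k0 : k 0 = 0) {i : ℕ} (hi : i < k 4) :
    ∃ j < 4, k j ≤ i ∧ i < k (j + 1) := by
  by_cases h1 : i < k 1
  · exact ⟨0, by omega, by omega, h1⟩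
  by_cases h2 : i < k 2
  · exact ⟨1, by omega, by omega, h2⟩
  by_cases h3 : i < k 3
  · exact ⟨2, by omega, by omega, h3⟩
  · exact ⟨3, by omega, by omega, hi⟩

theorem apr_of_link {ι : Type*} {U P : Finset (ℤ × ℤ)} {κ : ℤ × ℤ → ι} {d : ℤ} {m : ℕ}
    {w : ℕ → ℤ × ℤ} {k : ℕ → ℕ} {m₂ : ℕ} {w₂ : ℕ → ℤ × ℤ} {k₂ : ℕ → ℕ}
    {sg : ℕ → Finset (ℤ × ℤ)} (A : ArcLink U P κ d w k m₂ w₂ k₂ sg) (hd : 0 ≤ d) (hPU : P ⊆ U)
    (hU : Ctr (U : Set (ℤ × ℤ)) m w) (k4 : k 4 = m) (hk : Monotone k)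
    (hne : ∀ j < 4, ∃ i, k₂ j ≤ i ∧ i < k₂ (j + 1)) :
    Apr U P m w (k 1) (k 2) (k 3) m₂ w₂ (k₂ 1) (k₂ 2) (k₂ 3) (d + 1)
      (fun i => (sg i : Set (ℤ × ℤ))) := by
  have c34 : k 3 ≤ k 4 := hk (by omega)
  have hlt : ∀ j < 4, k₂ j < k₂ (j + 1) := by
    intro j hj
    obtain ⟨i, h1, h2⟩ := hne j hj
    omega
  have e0 := hlt 0 (by omega)
  have e1 := hlt 1 (by omega)
  have e2 := hlt 2 (by omega)
  have e3 := hlt 3 (by omega)
  rw [A.k0] at e0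
  simp only [Nat.reduceAdd] at e0 e1 e2 e3
  rw [A.k4] at e3
  have hk4 : k₂ 4 = m₂ := A.k4
  refine ⟨hPU, hU, A.ctr, hk (by omega), hk (by omega), by omega, e0, e1, e2, e3, by omega,
    fun i hi f hf => A.sub i hi f (mem_coe.1 hf), ?_, fun i hi f hf g hg => A.chn i hi f (mem_coe.1 hf) g
      (mem_coe.1 hg), ?_, ?_⟩
  · intro i hi f hf
    have := A.box i hi f (mem_coe.1 hf)
    rw [abs_le, abs_le] at this
    rw [mem_RFb]
    omega
  · intro i hi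
    obtain ⟨j, hj, h1, h2⟩ := exists_arc A.k0 (show i < k₂ 4 by omega)
    obtain ⟨l, h3, h4, h5⟩ := A.link j hj i h1 h2
    have hlm : l < m := by
      have : k (j + 1) ≤ k 4 := hk (by omega)
      omega
    have e1 := lab_eq_of hk hj h3 h4
    have e2 := lab_eq_of A.mono hj h1 h2
    rcases h5 with ⟨h5, e, h6, h7⟩ | ⟨⟨f, hf, e, h5, h6⟩, f', hf', e', h7, h8⟩
    · exact Or.inl ⟨l, hlm, e1.trans e2.symm, e, h6, h7, by rw [h5]; simp⟩
    · exact Or.inr ⟨l, hlm, e1.trans e2.symm, ⟨f, mem_coe.2 hf, e, h5, h6⟩, f', mem_coe.2 hf', e', h7, h8⟩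
  · intro i hi l hl hne' f hf hf'
    obtain ⟨j, hj, h1, h2⟩ := exists_arc A.k0 (show i < k₂ 4 by omega)
    obtain ⟨j', hj', h3, h4⟩ := exists_arc A.k0 (show l < k₂ 4 by omega)
    rw [lab_eq_of A.mono hj h1 h2, lab_eq_of A.mono hj' h3 h4] at hne'
    exact Finset.disjoint_left.1 (A.disj j hj j' hj' hne' i h1 h2 l h3 h4) (mem_coe.1 hf)
      (mem_coe.1 hf')

/-! ### The classes for the unit shift -/

/-- a face outside of `U` is glued to its neighbour in direction `(-s, 0)`, if this one is in `U` -/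
def kap (U : Finset (ℤ × ℤ)) (s : ℤ) (y : ℤ × ℤ) : ℤ × ℤ :=
  if y ∉ U ∧ (y.1 - s, y.2) ∈ U then (y.1 - s, y.2) else y

theorem kap_cases (U : Finset (ℤ × ℤ)) (s : ℤ) (y : ℤ × ℤ) :
    (kap U s y = (y.1 - s, y.2) ∧ y ∉ U ∧ (y.1 - s, y.2) ∈ U) ∨
      (kap U s y = y ∧ ¬ (y ∉ U ∧ (y.1 - s, y.2) ∈ U)) := by
  unfold kap
  split_ifs with h
  · exact Or.inl ⟨rfl, h⟩
  · exact Or.inr ⟨rfl, h⟩

theorem kap_mem {U : Finset (ℤ × ℤ)} {s : ℤ} {y : ℤ × ℤ} (h : y ∈ U) : kap U s y = y := by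
  unfold kap
  rw [if_neg (fun h' => h'.1 h)]

/-- faces of the same class: equal, or one of them is in `U` and the other is its outer neighbour -/
theorem kap_eq {U : Finset (ℤ × ℤ)} {s : ℤ} {x y : ℤ × ℤ} (h : kap U s x = kap U s y) :
    x = y ∨ (x ∈ U ∧ y ∉ U ∧ y = (x.1 + s, x.2)) ∨ (y ∈ U ∧ x ∉ U ∧ x = (y.1 + s, y.2)) := by
  obtain ⟨x1, x2⟩ := x
  obtain ⟨y1, y2⟩ := y
  rcases kap_cases U s (x1, x2) with ⟨h1, h2, h3⟩ | ⟨h1, h2⟩ <;>
    rcases kap_cases U s (y1, y2) with ⟨h4, h5, h6⟩ | ⟨h4, h5⟩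
  · rw [h1, h4] at h
    simp only [Prod.mk.injEq] at h
    left
    rw [Prod.mk.injEq]
    omega
  · rw [h1, h4] at h
    simp only at h h3
    rw [h] at h3
    refine Or.inr (Or.inr ⟨h3, h2, ?_⟩)
    simp only [Prod.mk.injEq] at h ⊢
    omega
  · rw [h1, h4] at h
    simp only at h h6
    rw [← h] at h6
    refine Or.inr (Or.inl ⟨h6, h5, ?_⟩)
    simp only [Prod.mk.injEq] at h ⊢
    omega
  · rw [h1, h4] at h
    exact Or.inl h

theorem exists_link {U Q : Finset (ℤ × ℤ)} {s : ℤ} (hs : s = 1 ∨ s = -1) {m m' : ℕ}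
    {w w' : ℕ → ℤ × ℤ} (hU : Ctr (U : Set (ℤ × ℤ)) m w) (hQ : Ctr (Q : Set (ℤ × ℤ)) m' w')
    (hQU : ∀ f, f ∈ Q ↔ f ∈ U ∧ (f.1 + s, f.2) ∈ U)
    (hcon : ∀ f ∈ Q, ∀ g ∈ Q, Chn (Q : Set (ℤ × ℤ)) f g) {k : ℕ → ℕ} (k0 : k 0 = 0) (k4 : k 4 = m)
    (hk : Monotone k) :
    ∃ (w₂ : ℕ → ℤ × ℤ) (k₂ : ℕ → ℕ) (sg : ℕ → Finset (ℤ × ℤ)),
      ArcLink U Q (kap U s) 2 w k m' w₂ k₂ sg := by
  refine order_arcs hU hQ (fun f hf => ((hQU f).1 hf).1) hcon (kap U s) ?_ ?_ ?_ ?_ k0 k4 hk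
  · intro x y hxy hx
    have hx' := (hQU x).1 hx
    rcases kap_eq hxy with rfl | ⟨-, h2, h3⟩ | ⟨-, h2, -⟩
    · exact hx
    · rw [h3] at h2
      exact absurd hx'.2 h2
    · exact absurd hx'.1 h2
  · intro x y hxy
    refine ⟨rfl, ?_⟩
    rcases kap_eq hxy with rfl | ⟨-, -, h3⟩ | ⟨-, -, h3⟩
    · exact Relation.ReflTransGen.refl
    · refine Relation.ReflTransGen.single ⟨?_, hxy.symm⟩
      have h4 := congrArg Prod.fst h3
      have h5 := congrArg Prod.snd h3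
      simp only at h4 h5
      unfold Adj
      right
      exact ⟨h5.symm, by omega⟩
    · refine Relation.ReflTransGen.single ⟨?_, hxy.symm⟩
      have h4 := congrArg Prod.fst h3
      have h5 := congrArg Prod.snd h3
      simp only at h4 h5
      unfold Adj
      right
      exact ⟨h5, by omega⟩
  · intro x y hxy
    rcases kap_eq hxy with rfl | ⟨-, -, h3⟩ | ⟨-, -, h3⟩
    · simp
    · rw [h3]
      simp only [abs_lt]
      omega
    · rw [h3]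
      simp only [abs_lt]
      omega
  · intro f hf g _ hg
    by_cases hgU : g ∈ U
    · have h1 : (g.1 + s, g.2) ∉ U := fun h => hg ((hQU g).2 ⟨hgU, h⟩)
      refine ⟨(g.1 + s, g.2), ?_, h1⟩
      rw [kap_mem hgU]
      unfold kap
      have e : ((g.1 + s, g.2) : ℤ × ℤ).1 - s = g.1 := by simp
      rw [if_pos ⟨h1, by rw [e]; exact hgU⟩, e]
    · exact ⟨g, rfl, hgU⟩

/-! ### Near the contour -/

/-- The side of `U` linked to a side of `P` is near this side. -/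
theorem near_link {ι : Type*} {U P : Finset (ℤ × ℤ)} {κ : ℤ × ℤ → ι} {d : ℤ}
    {w : ℕ → ℤ × ℤ} {k : ℕ → ℕ} {m₂ : ℕ} {w₂ : ℕ → ℤ × ℤ} {k₂ : ℕ → ℕ}
    {sg : ℕ → Finset (ℤ × ℤ)} (A : ArcLink U P κ d w k m₂ w₂ k₂ sg) (hd : 0 ≤ d) {j i : ℕ}
    (hj : j < 4) (h1 : k₂ j ≤ i) (h2 : i < k₂ (j + 1)) :
    ∃ l, k j ≤ l ∧ l < k (j + 1) ∧ |(w l).1 - (w₂ i).1| ≤ d + 1 ∧ |(w l).2 - (w₂ i).2| ≤ d + 1 := by
  have him : i < m₂ := by
    have : k₂ (j + 1) ≤ k₂ 4 := A.mono (by omega)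
    rw [A.k4] at this
    omega
  obtain ⟨l, h3, h4, h5⟩ := A.link j hj i h1 h2
  refine ⟨l, h3, h4, ?_⟩
  rcases h5 with ⟨-, e, h6, h7⟩ | ⟨-, f', hf', e', h7, h8⟩
  · have hn := joins_near h6
    unfold InB at hn
    rw [abs_le, abs_le]
    rcases joins_two h7 h6 with ⟨e1, e2⟩ | ⟨e1, e2⟩
    · rw [e1]; omega
    · rw [e1]; omega
  · have h9 := lab_side_box h7 h8
    have h10 := A.box i him f' hf'
    simp only [abs_le] at h9 h10 ⊢
    omega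

/-- Chord-arc condition for a closed contour with distance `D`. -/
def ChA (w : ℕ → ℤ × ℤ) (m : ℕ) (D : ℤ) : Prop :=
  ∀ a b : ℕ, a ≤ m → b ≤ m → |(w a).1 - (w b).1| ≤ D → |(w a).2 - (w b).2| ≤ D →
    |(a : ℤ) - b| ≤ 2 * D ∨ (m : ℤ) - 2 * D ≤ |(a : ℤ) - b|

/-- Lipschitz condition. -/
def Lip (w : ℕ → ℤ × ℤ) (m : ℕ) : Prop :=
  ∀ a b : ℕ, a ≤ m → b ≤ m → |(w a).1 - (w b).1| ≤ |(a : ℤ) - b| ∧ |(w a).2 - (w b).2| ≤ |(a : ℤ) - b|

/-- Every side of `U` is near a side of `Q`. -/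
theorem side_near {U Q : Finset (ℤ × ℤ)} {s : ℤ} (hs : s = 1 ∨ s = -1) {m : ℕ}
    {w : ℕ → ℤ × ℤ} (hU : Ctr (U : Set (ℤ × ℤ)) m w) (hQU : ∀ f, f ∈ Q ↔ f ∈ U ∧ (f.1 + s, f.2) ∈ U)
    (hth : ∀ f ∈ U, (f.1 + s, f.2) ∉ U → (f.1 - s, f.2) ∈ U) {a : ℕ} (ha : a < m) :
    ∃ e, BdU (Q : Set (ℤ × ℤ)) e ∧ ∀ p q, Joins e p q → |p.1 - (w a).1| ≤ 2 ∧ |p.2 - (w a).2| ≤ 2 := by
  obtain ⟨t, ⟨⟨f, hf, hft⟩, g, hg, hgt⟩, hj⟩ := hU.step a ha
  rw [mem_coe] at hf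
  rw [mem_coe] at hg
  by_cases hfQ : f ∈ Q
  · refine ⟨t, ⟨⟨f, mem_coe.2 hfQ, hft⟩, g, fun h => hg ((hQU g).1 (mem_coe.1 h)).1, hgt⟩, ?_⟩
    intro p q hpq
    have hn := joins_near hj
    unfold InB at hn
    rw [abs_le, abs_le]
    rcases joins_two hpq hj with ⟨e1, e2⟩ | ⟨e1, e2⟩
    · rw [e1]; omega
    · rw [e1]; omega
  · have h1 : (f.1 + s, f.2) ∉ U := fun h => hfQ ((hQU f).2 ⟨hf, h⟩)
    have h2 := hth f hf h1
    have h3 : (f.1 - s, f.2) ∈ Q := by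
      rw [hQU]
      refine ⟨h2, ?_⟩
      have : (f.1 - s + s, f.2) = f := by simp
      rw [this]; exact hf
    have hadj : AdjF f (f.1 - s, f.2) := by
      rw [adjF_iff]
      simp only [Prod.mk.injEq]
      rcases hs with rfl | rfl
      · right; left; simp
      · left; simp
    obtain ⟨-, e, he1, he2⟩ := hadj
    refine ⟨e, ⟨⟨_, mem_coe.2 h3, he2⟩, f, fun h => hfQ (mem_coe.1 h), he1⟩, ?_⟩
    intro p q hpq
    have b1 := lab_side_box he1 hpq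
    have b2 := lab_side_box hft hj
    simp only [abs_le] at b1 b2 ⊢
    omega

/-- Long arcs of `U` have sides of `Q`. -/
theorem attained {ι : Type*} {U Q : Finset (ℤ × ℤ)} {κ : ℤ × ℤ → ι} {s : ℤ} (hs : s = 1 ∨ s = -1) {m : ℕ}
    {w : ℕ → ℤ × ℤ} (hU : Ctr (U : Set (ℤ × ℤ)) m w) (hQU : ∀ f, f ∈ Q ↔ f ∈ U ∧ (f.1 + s, f.2) ∈ U)
    (hth : ∀ f ∈ U, (f.1 + s, f.2) ∉ U → (f.1 - s, f.2) ∈ U)
    (hch : ChA w m 5) {k : ℕ → ℕ} {m₂ : ℕ} {w₂ : ℕ → ℤ × ℤ} {k₂ : ℕ → ℕ}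
    {sg : ℕ → Finset (ℤ × ℤ)} (A : ArcLink U Q κ 2 w k m₂ w₂ k₂ sg) (k4 : k 4 = m) (hk : Monotone k)
    (hlong : ∀ j < 4, k j + 30 ≤ k (j + 1)) : ∀ j < 4, ∃ i, k₂ j ≤ i ∧ i < k₂ (j + 1) := by
  intro j hj
  have hl := hlong j hj
  have hjm : k (j + 1) ≤ m := by rw [← k4]; exact hk (by omega)
  set a := k j + 15 with ha
  obtain ⟨e, he, hnear⟩ := side_near hs hU hQU hth (show a < m by omega)
  obtain ⟨i, hi, hji⟩ := A.ctr.all e he
  have h1 := hnear _ _ hji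
  obtain ⟨j', hj', h2, h3⟩ := exists_arc A.k0 (show i < k₂ 4 by rw [A.k4]; exact hi)
  obtain ⟨l, h4, h5, h6, h7⟩ := near_link A (by omega) hj' h2 h3
  have hj'm : k (j' + 1) ≤ m := by rw [← k4]; exact hk (by omega)
  have h8 := hch l a (by omega) (by omega) (by simp only [abs_le] at *; omega)
    (by simp only [abs_le] at *; omega)
  have hjj : j' = j := by
    by_contra hne
    rcases Nat.lt_or_gt_of_ne hne with h9 | h9
    · have := hk (show j' + 1 ≤ j by omega)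
      rcases h8 with h8 | h8
      · rw [abs_le] at h8; omega
      · rw [le_abs] at h8; omega
    · have := hk (show j + 1 ≤ j' by omega)
      rcases h8 with h8 | h8
      · rw [abs_le] at h8; omega
      · rw [le_abs] at h8; omega
  rw [← hjj]
  exact ⟨i, h2, h3⟩

/-- The arcs of `Q` induced by `U` and by its shift `U'`: a vertex of an arc of the first kind is a vertex of
the arc with the same number of the second kind, or it is near one of the two marks of this arc. -/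
theorem arc_cmp {ι ι' : Type*} {U U' Q : Finset (ℤ × ℤ)} {κ : ℤ × ℤ → ι} {κ' : ℤ × ℤ → ι'} {m : ℕ}
    {w w' : ℕ → ℤ × ℤ} (hw : ∀ a, |(w' a).1 - (w a).1| ≤ 1 ∧ (w' a).2 = (w a).2)
    (hch : ChA w m 9) (hlip : Lip w m) {k : ℕ → ℕ} (k4 : k 4 = m) (hk : Monotone k)
    {m₂ : ℕ} {w₂ : ℕ → ℤ × ℤ} {k₂ : ℕ → ℕ} {sg : ℕ → Finset (ℤ × ℤ)}
    (A : ArcLink U Q κ 2 w k m₂ w₂ k₂ sg)
    {m₃ : ℕ} {w₃ : ℕ → ℤ × ℤ} {k₃ : ℕ → ℕ} {sg' : ℕ → Finset (ℤ × ℤ)}
    (A' : ArcLink U' Q κ' 2 w' k m₃ w₃ k₃ sg') {j : ℕ} (hj : j < 4) (hlt : k₂ j < k₂ (j + 1)) {a : ℕ}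
    (h1 : k₂ j ≤ a) (h2 : a ≤ k₂ (j + 1)) :
    (∃ a', k₃ j ≤ a' ∧ a' ≤ k₃ (j + 1) ∧ w₃ a' = w₂ a) ∨
      (|(w₂ a).1 - (w (k j)).1| ≤ 30 ∧ |(w₂ a).2 - (w (k j)).2| ≤ 30) ∨
      (|(w₂ a).1 - (w (k (j + 1))).1| ≤ 30 ∧ |(w₂ a).2 - (w (k (j + 1))).2| ≤ 30) := by
  obtain ⟨i, hi1, hi2, hai⟩ : ∃ i, k₂ j ≤ i ∧ i < k₂ (j + 1) ∧ (a = i ∨ a = i + 1) := by
    rcases Nat.lt_or_ge a (k₂ (j + 1)) with h | h
    · exact ⟨a, h1, h, Or.inl rfl⟩
    · exact ⟨a - 1, by omega, by omega, Or.inr (by omega)⟩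
  have him : i < m₂ := by
    have : k₂ (j + 1) ≤ k₂ 4 := A.mono (by omega)
    rw [A.k4] at this
    omega
  obtain ⟨e, he, hje⟩ := A.ctr.step i him
  obtain ⟨i', hi', hje'⟩ := A'.ctr.all e he
  obtain ⟨j', hj', g1, g2⟩ := exists_arc A'.k0 (show i' < k₃ 4 by rw [A'.k4]; exact hi')
  have htwo := joins_two hje hje'
  by_cases hjj : j' = j
  · subst hjj
    left
    rcases hai with rfl | rfl
    · rcases htwo with ⟨e1, e2⟩ | ⟨e1, e2⟩
      · exact ⟨i', g1, g2.le, e1.symm⟩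
      · exact ⟨i' + 1, by omega, by omega, e1.symm⟩
    · rcases htwo with ⟨e1, e2⟩ | ⟨e1, e2⟩
      · exact ⟨i' + 1, by omega, by omega, e2.symm⟩
      · exact ⟨i', g1, g2.le, e2.symm⟩
  · right
    obtain ⟨l, a1, a2, a3, a4⟩ := near_link A (by omega) hj hi1 hi2
    obtain ⟨l', b1, b2, b3, b4⟩ := near_link A' (by omega) hj' g1 g2
    have hn := joins_near hje
    have hn' := joins_near hje'
    unfold InB at hn hn'
    have hw' := hw l'
    have hjm : k (j + 1) ≤ m := by rw [← k4]; exact hk (by omega)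
    have hj'm : k (j' + 1) ≤ m := by rw [← k4]; exact hk (by omega)
    -- the end `w₂ a` is near `w l`
    have near_a : |(w₂ a).1 - (w l).1| ≤ 4 ∧ |(w₂ a).2 - (w l).2| ≤ 4 := by
      simp only [abs_le] at *
      rcases hai with rfl | rfl
      · omega
      · omega
    have near_i : |(w₃ i').1 - (w₂ i).1| ≤ 1 ∧ |(w₃ i').2 - (w₂ i).2| ≤ 1 := by
      simp only [abs_le]
      rcases htwo with ⟨e1, e2⟩ | ⟨e1, e2⟩
      · rw [e1]; omega
      · rw [← e2]; omega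
    have h8 := hch l l' (by omega) (by omega) (by simp only [abs_le] at *; omega)
      (by simp only [abs_le] at *; omega)
    -- `l` is near one of the marks
    have key : |(l : ℤ) - k j| ≤ 18 ∨ |(l : ℤ) - k (j + 1)| ≤ 18 := by
      rcases Nat.lt_or_gt_of_ne hjj with h9 | h9
      · have := hk (show j' + 1 ≤ j by omega)
        simp only [abs_le, le_abs] at *
        omega
      · have := hk (show j + 1 ≤ j' by omega)
        simp only [abs_le, le_abs] at *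
        omega
    rcases key with h | h
    · left
      have := hlip l (k j) (by omega) (by omega)
      have c1 := this.1.trans h
      have c2 := this.2.trans h
      clear this
      simp only [abs_le] at *
      omega
    · right
      have := hlip l (k (j + 1)) (by omega) hjm
      have c1 := this.1.trans h
      have c2 := this.2.trans h
      clear this
      simp only [abs_le] at *
      omega

end Pool.Agent.SixB.Col
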