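import Pool.Agent.Lib.SixB.TopCA
import Pool.Agent.Lib.SixB.CADefs

/-!
# 6BD, CACol: the common part of a refined polygon and its unit shift

`shl D` = faces of `D` whose left neighbour is in `D` too, i.e. `D` intersected with `D + (1, 0)`.
For `D = rf n P`, `P` a simple polygon, `2 ≤ n`: nonempty, edge connected, no holes.
-/

set_option autoImplicit false

namespace Pool.Agent.SixB.Col

open Finset Pool.Agent.Perc Pool.Agent.Perc6 Pool.Agent.SixB

/-- common part of `D` and `D + (1, 0)` -/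
def shl (D : Set (ℤ × ℤ)) : Set (ℤ × ℤ) := {f | f ∈ D ∧ (f.1 - 1, f.2) ∈ D}

theorem mem_rf {n : ℕ} (hn : 0 < n) {P : Finset (ℤ × ℤ)} {f : ℤ × ℤ} :
    f ∈ rf n P ↔ (f.1 / n, f.2 / n) ∈ P := by
  have hn' : (0 : ℤ) < n := by exact_mod_cast hn
  unfold rf
  simp only [mem_biUnion, mem_product, mem_Ico]
  constructor
  · rintro ⟨c, hc, ⟨h1, h2⟩, h3, h4⟩
    have e1 : f.1 / n = c.1 := by
      apply le_antisymm
      · have : f.1 / n < c.1 + 1 := by
          apply Int.ediv_lt_of_lt_mul hn'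
          nlinarith
        omega
      · apply Int.le_ediv_of_mul_le hn'
        nlinarith
    have e2 : f.2 / n = c.2 := by
      apply le_antisymm
      · have : f.2 / n < c.2 + 1 := by
          apply Int.ediv_lt_of_lt_mul hn'
          nlinarith
        omega
      · apply Int.le_ediv_of_mul_le hn'
        nlinarith
    rw [e1, e2]; exact hc
  · intro h
    refine ⟨_, h, ⟨?_, ?_⟩, ?_, ?_⟩
    · exact Int.mul_ediv_self_le hn'.ne'
    · have := Int.lt_mul_ediv_self_add (x := f.1) hn'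
      simpa using this
    · exact Int.mul_ediv_self_le hn'.ne'
    · have := Int.lt_mul_ediv_self_add (x := f.2) hn'
      simpa using this

theorem rf_eq_blow {n : ℕ} (hn : 0 < n) (P : Finset (ℤ × ℤ)) :
    (rf n P : Set (ℤ × ℤ)) = blow n (P : Set (ℤ × ℤ)) := by
  ext f
  simp only [mem_coe, mem_rf hn, blow, Set.mem_ofPred_eq]

theorem esc_rf {n : ℕ} (hn : 0 < n) {P : Finset (ℤ × ℤ)} (h : MPoly P) :
    Esc (rf n P : Set (ℤ × ℤ)) := by
  rw [rf_eq_blow hn]
  exact h.esc.blow (by exact_mod_cast hn)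

/-- translation of an escape set -/
theorem esc_shift {D : Set (ℤ × ℤ)} (h : Esc D) (a b : ℤ) :
    Esc {f : ℤ × ℤ | (f.1 - a, f.2 - b) ∈ D} := by
  intro f hf R
  obtain ⟨g, hg, hc⟩ := h (f.1 - a, f.2 - b) hf (R + |a| + |b|)
  refine ⟨(g.1 + a, g.2 + b), ?_, ?_⟩
  · have h1 := abs_add_le (g.1 + a) (-a)
    have h2 := abs_add_le (g.2 + b) (-b)
    rw [abs_neg] at h1 h2
    have e1 : g.1 + a + -a = g.1 := by ring
    have e2 : g.2 + b + -b = g.2 := by ring
    rw [e1] at h1
    rw [e2] at h2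
    have h3 := abs_nonneg a
    have h4 := abs_nonneg b
    rcases hg with hg | hg
    · left; linarith
    · right; linarith
  · have key : ∀ x y : ℤ × ℤ, Relation.ReflTransGen (StepC D) x y →
        Relation.ReflTransGen (StepC {f : ℤ × ℤ | (f.1 - a, f.2 - b) ∈ D})
          (x.1 + a, x.2 + b) (y.1 + a, y.2 + b) := by
      intro x y hxy
      induction hxy with
      | refl => exact Relation.ReflTransGen.refl
      | @tail y z _ hs ih =>
        refine ih.tail ⟨?_, ?_⟩
        · have := adjF_iff.1 hs.1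
          rw [adjF_iff]
          simp only [Prod.mk.injEq]
          rcases this with h | h | h | h <;> rw [h] <;> simp <;> omega
        · intro hz
          apply hs.2
          simpa using hz
    have := key _ _ hc
    simpa using this

theorem esc_shl {D : Set (ℤ × ℤ)} (h : Esc D) : Esc (shl D) := by
  have h1 := h.inter (esc_shift h 1 0)
  have : shl D = D ∩ {f : ℤ × ℤ | (f.1 - 1, f.2 - 0) ∈ D} := by
    ext f; simp [shl]
  rw [this]; exact h1

/-- chains of faces inside a set -/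
def Ch (S : Set (ℤ × ℤ)) (f g : ℤ × ℤ) : Prop :=
  Relation.ReflTransGen (fun a b => AdjF a b ∧ b ∈ S) f g

theorem Ch.symm {S : Set (ℤ × ℤ)} {f g : ℤ × ℤ} (hf : f ∈ S) (h : Ch S f g) : Ch S g f := by
  induction h with
  | refl => exact Relation.ReflTransGen.refl
  | @tail b c hb hs ih =>
    have hbS : b ∈ S := by
      rcases Relation.ReflTransGen.cases_tail hb with h | ⟨d, _, hd⟩
      · rw [h]; exact hf
      · exact hd.2
    exact (Relation.ReflTransGen.single ⟨hs.1.symm, hbS⟩).trans ih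

/-- horizontal runs -/
theorem ch_right {S : Set (ℤ × ℤ)} {x y : ℤ} : ∀ k : ℕ, (∀ j : ℤ, 0 ≤ j → j ≤ k → (x + j, y) ∈ S) →
    Ch S (x, y) (x + k, y) := by
  intro k
  induction k with
  | zero =>
    intro _
    have e : x + ((0 : ℕ) : ℤ) = x := by simp
    rw [e]; exact Relation.ReflTransGen.refl
  | succ k ih =>
    intro h
    refine (ih fun j hj hjk => h j hj (by push_cast; omega)).tail ⟨?_, ?_⟩
    · have := adjF_right (x + k) y
      have e : x + (k : ℤ) + 1 = x + ((k + 1 : ℕ) : ℤ) := by push_cast; ring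
      rw [e] at this
      exact this
    · exact h _ (by positivity) le_rfl

theorem ch_up {S : Set (ℤ × ℤ)} {x y : ℤ} : ∀ k : ℕ, (∀ j : ℤ, 0 ≤ j → j ≤ k → (x, y + j) ∈ S) →
    Ch S (x, y) (x, y + k) := by
  intro k
  induction k with
  | zero =>
    intro _
    have e : y + ((0 : ℕ) : ℤ) = y := by simp
    rw [e]; exact Relation.ReflTransGen.refl
  | succ k ih =>
    intro h
    refine (ih fun j hj hjk => h j hj (by push_cast; omega)).tail ⟨?_, ?_⟩
    · have := adjF_up x (y + k)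
      have e : y + (k : ℤ) + 1 = y + ((k + 1 : ℕ) : ℤ) := by push_cast; ring
      rw [e] at this
      exact this
    · exact h _ (by positivity) le_rfl

/-- rectangles are connected -/
theorem ch_rect {S : Set (ℤ × ℤ)} {x0 x1 y0 y1 : ℤ}
    (hS : ∀ x y, x0 ≤ x → x < x1 → y0 ≤ y → y < y1 → (x, y) ∈ S) {f g : ℤ × ℤ}
    (hf : x0 ≤ f.1 ∧ f.1 < x1 ∧ y0 ≤ f.2 ∧ f.2 < y1) (hg : x0 ≤ g.1 ∧ g.1 < x1 ∧ y0 ≤ g.2 ∧ g.2 < y1) :
    Ch S f g := by
  obtain ⟨a, b⟩ := f
  obtain ⟨c, d⟩ := g
  simp only at hf hg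
  have base : ∀ a b : ℤ, x0 ≤ a → a < x1 → y0 ≤ b → b < y1 → Ch S (x0, y0) (a, b) := by
    intro a b h1 h2 h3 h4
    have r1 := ch_right (S := S) (x := x0) (y := y0) (a - x0).toNat (by
      intro j hj hjk
      rw [Int.toNat_of_nonneg (by omega)] at hjk
      exact hS _ _ (by omega) (by omega) le_rfl (by omega))
    rw [Int.toNat_of_nonneg (by omega)] at r1
    have r2 := ch_up (S := S) (x := a) (y := y0) (b - y0).toNat (by
      intro j hj hjk
      rw [Int.toNat_of_nonneg (by omega)] at hjk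
      exact hS _ _ h1 h2 (by omega) (by omega))
    rw [Int.toNat_of_nonneg (by omega)] at r2
    have e1 : x0 + (a - x0) = a := by ring
    have e2 : y0 + (b - y0) = b := by ring
    rw [e1] at r1
    rw [e2] at r2
    exact r1.trans r2
  have h1 := base a b hf.1 hf.2.1 hf.2.2.1 hf.2.2.2
  have h2 := base c d hg.1 hg.2.1 hg.2.2.1 hg.2.2.2
  have h3 : (x0, y0) ∈ S := hS _ _ le_rfl (by omega) le_rfl (by omega)
  exact (h1.symm h3).trans h2

/-- the common part is connected -/
theorem econn_shl {n : ℕ} (hn : 2 ≤ n) {P : Finset (ℤ × ℤ)} (h : MPoly P) :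
    Top.EConn (shl (rf n P : Set (ℤ × ℤ))) := by
  have hn0 : 0 < n := by omega
  have hn' : (0 : ℤ) < n := by exact_mod_cast hn0
  have hn2 : (2 : ℤ) ≤ n := by exact_mod_cast hn
  set S := shl (rf n P : Set (ℤ × ℤ)) with hS
  have hmem : ∀ x y : ℤ, (x, y) ∈ S ↔ (x / n, y / n) ∈ P ∧ ((x - 1) / n, y / n) ∈ P := by
    intro x y
    simp only [hS, shl, Set.mem_ofPred_eq, mem_coe, mem_rf hn0]
  -- the inner part of a block
  have hdiv : ∀ X x : ℤ, n * X ≤ x → x < n * X + n → x / n = X := by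
    intro X x h1 h2
    apply le_antisymm
    · have : x / n < X + 1 := by
        apply Int.ediv_lt_of_lt_mul hn'
        nlinarith
      omega
    · apply Int.le_ediv_of_mul_le hn'
      nlinarith
  have hin : ∀ c ∈ P, ∀ x y : ℤ, n * c.1 + 1 ≤ x → x < n * c.1 + n → n * c.2 ≤ y → y < n * c.2 + n →
      (x, y) ∈ S := by
    intro c hc x y h1 h2 h3 h4
    rw [hmem, hdiv c.1 x (by omega) h2, hdiv c.1 (x - 1) (by omega) (by omega), hdiv c.2 y h3 h4]
    exact ⟨hc, hc⟩
  have hcen : ∀ f ∈ S, ∃ c ∈ P, Ch S f (n * c.1 + 1, n * c.2) ∧ (n * c.1 + 1, n * c.2) ∈ S := by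
    rintro ⟨x, y⟩ hf
    have hf' := (hmem x y).1 hf
    refine ⟨(x / n, y / n), hf'.1, ?_, hin _ hf'.1 _ _ le_rfl (by simp only; omega) le_rfl (by simp only; omega)⟩
    have h1 : n * (x / n) ≤ x := Int.mul_ediv_self_le hn'.ne'
    have h2 : x < n * (x / n) + n := by simpa using Int.lt_mul_ediv_self_add (x := x) hn'
    have h3 : n * (y / n) ≤ y := Int.mul_ediv_self_le hn'.ne'
    have h4 : y < n * (y / n) + n := by simpa using Int.lt_mul_ediv_self_add (x := y) hn'
    by_cases hx : x = n * (x / n)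
    · -- first column: one step to the right
      have hr : (x + 1, y) ∈ S := hin _ hf'.1 _ _ (by simp only; omega) (by simp only; omega) h3 h4
      refine Relation.ReflTransGen.head ⟨adjF_right x y, hr⟩ ?_
      exact ch_rect (hin _ hf'.1) ⟨by simp only; omega, by simp only; omega, h3, h4⟩
        ⟨le_rfl, by simp only; omega, le_rfl, by simp only; omega⟩
    · exact ch_rect (hin _ hf'.1) ⟨by simp only; omega, h2, h3, h4⟩
        ⟨le_rfl, by simp only; omega, le_rfl, by simp only; omega⟩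
  -- adjacent blocks
  have hadj : ∀ c d : ℤ × ℤ, c ∈ P → d ∈ P → EAdj c d →
      Ch S (n * c.1 + 1, n * c.2) (n * d.1 + 1, n * d.2) := by
    have hr : ∀ X Y : ℤ, (X, Y) ∈ P → (X + 1, Y) ∈ P →
        Ch S (n * X + 1, n * Y) (n * (X + 1) + 1, n * Y) := by
      intro X Y h1 h2
      have r := ch_right (S := S) (x := n * X + 1) (y := n * Y) n (by
        intro j hj hjn
        by_cases hj' : n * X + 1 + j < n * X + n
        · exact hin _ h1 _ _ (by simp only; omega) (by simp only; omega) le_rfl (by simp only; omega)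
        · rw [hmem, hdiv (X + 1) (n * X + 1 + j) (by nlinarith) (by nlinarith), hdiv Y (n * Y) le_rfl (by omega)]
          refine ⟨h2, ?_⟩
          by_cases hj2 : n * X + 1 + j - 1 < n * X + n
          · rw [hdiv X _ (by omega) hj2]; exact h1
          · rw [hdiv (X + 1) _ (by nlinarith) (by nlinarith)]; exact h2)
      have e : n * X + 1 + (n : ℤ) = n * (X + 1) + 1 := by ring
      rw [e] at r
      exact r
    have hu : ∀ X Y : ℤ, (X, Y) ∈ P → (X, Y + 1) ∈ P →
        Ch S (n * X + 1, n * Y) (n * X + 1, n * (Y + 1)) := by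
      intro X Y h1 h2
      have r := ch_up (S := S) (x := n * X + 1) (y := n * Y) n (by
        intro j hj hjn
        by_cases hj' : n * Y + j < n * Y + n
        · exact hin _ h1 _ _ le_rfl (by simp only; omega) (by simp only; omega) hj'
        · exact hin _ h2 _ _ le_rfl (by simp only; omega) (by simp only; nlinarith)
            (by simp only; nlinarith))
      have e : n * Y + (n : ℤ) = n * (Y + 1) := by ring
      rw [e] at r
      exact r
    have hc0 : ∀ c ∈ P, (n * c.1 + 1, n * c.2) ∈ S := fun c hc =>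
      hin c hc _ _ le_rfl (by omega) le_rfl (by omega)
    rintro ⟨X, Y⟩ ⟨X', Y'⟩ h1 h2 h3
    simp only [EAdj, Prod.mk.injEq] at h3
    rcases h3 with ⟨rfl, rfl⟩ | ⟨rfl, rfl⟩ | ⟨rfl, rfl⟩ | ⟨rfl, rfl⟩
    · exact hr X Y' h1 h2
    · have h4 : (X - 1 + 1, Y') ∈ P := by simpa using h1
      have := (hr (X - 1) Y' h2 h4).symm (hc0 _ h2)
      simpa using this
    · exact hu X' Y h1 h2
    · have h4 : (X', Y - 1 + 1) ∈ P := by simpa using h1
      have := (hu X' (Y - 1) h2 h4).symm (hc0 _ h2)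
      simpa using this
  have hP : ∀ c d : ℤ × ℤ, c ∈ P → Relation.ReflTransGen (fun a b => b ∈ (P : Set (ℤ × ℤ)) ∧ EAdj a b) c d →
      d ∈ P ∧ Ch S (n * c.1 + 1, n * c.2) (n * d.1 + 1, n * d.2) := by
    intro c d hc hcd
    induction hcd with
    | refl => exact ⟨hc, Relation.ReflTransGen.refl⟩
    | tail _ hs ih => exact ⟨hs.1, ih.2.trans (hadj _ _ ih.1 hs.1 hs.2)⟩
  intro f hf g hg
  obtain ⟨c, hc, h1, h1'⟩ := hcen f hf
  obtain ⟨d, hd, h2, -⟩ := hcen g hg
  exact (h1.trans (hP c d hc (h.conn c hc d hd)).2).trans (h2.symm hg)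

theorem shl_nonempty {n : ℕ} (hn : 2 ≤ n) {P : Finset (ℤ × ℤ)} (h : MPoly P) :
    (shl (rf n P : Set (ℤ × ℤ))).Nonempty := by
  have hn0 : 0 < n := by omega
  have hn' : (0 : ℤ) < n := by exact_mod_cast hn0
  have hn2 : (2 : ℤ) ≤ n := by exact_mod_cast hn
  obtain ⟨c, hc⟩ := h.nonempty
  refine ⟨(n * c.1 + 1, n * c.2), ?_, ?_⟩
  · rw [mem_coe, mem_rf hn0]
    have e1 : (n * c.1 + 1) / (n : ℤ) = c.1 := by
      rw [Int.mul_add_ediv_left _ _ hn'.ne', Int.ediv_eq_zero_of_lt (by norm_num) (by omega), add_zero]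
    have e2 : (n * c.2) / (n : ℤ) = c.2 := Int.mul_ediv_cancel_left _ hn'.ne'
    simp only [e1, e2]
    exact hc
  · rw [mem_coe, mem_rf hn0]
    have e1 : (n * c.1 + 1 - 1) / (n : ℤ) = c.1 := by
      rw [add_sub_cancel_right]; exact Int.mul_ediv_cancel_left _ hn'.ne'
    have e2 : (n * c.2) / (n : ℤ) = c.2 := Int.mul_ediv_cancel_left _ hn'.ne'
    simp only [e1, e2]
    exact hc

end Pool.Agent.SixB.Col
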