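import Pool.Agent.Lib.SixB.S7TopB

/-!
# Duality for arcs of a contour

* `match_key`: the strand matching respects connections (potential argument).
* `strand_end`: the strand which starts at the first contour index of a cluster ends at its last one.
* `arc_du`: if two arcs `[a0, a1]` and `[b0, b1]` of the contour are not joined by the colour `c`, then
  the two other arcs are joined by the other colour.
* `ctr_rot`: rotation of the contour.
-/

set_option autoImplicit false

namespace Pool.Agent.SixB.LC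

open Finset Pool.Agent.Perc Pool.Agent.Perc6

variable {F : Finset (ℤ × ℤ)} {m : ℕ} {w : ℕ → ℤ × ℤ}

/-- The matching of the contour edges by the strands. -/
def IsMt (F : Finset (ℤ × ℤ)) (m : ℕ) (w : ℕ → ℤ × ℤ) (ω : Cfg) (τ : ℕ → ℕ) : Prop :=
  ∀ i < m, τ i < m ∧ τ i ≠ i ∧ τ (τ i) = i ∧
      ∀ e, Joins e (w i) (w (i + 1)) →
        (∀ e', Joins e' (w (τ i)) (w (τ i + 1)) → e' ∈ MM ω F e) ∧
        ∀ k < m, ∀ e', Joins e' (w k) (w (k + 1)) → e' ∈ MM ω F e → k = i ∨ k = τ i

/-- A strand does not separate joined contour vertices. -/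
theorem match_key (h : Ctr (F : Set (ℤ × ℤ)) m w) {ω : Cfg} {τ : ℕ → ℕ} (hτ : IsMt F m w ω τ)
    {i x y : ℕ} (hi : i < m) (hxy : x ≤ y) (hym : y ≤ m) (hc : Conn ω F (w x) (w y))
    (hix : i ∈ Ico x y) : τ i ∈ Ico x y := by
  classical
  obtain ⟨k1, k2, k3, k4⟩ := hτ i hi
  obtain ⟨e, he, hj⟩ := h.step i hi
  obtain ⟨Φ, hΦ⟩ := h.pot (MM ω F e) (fun f hf => evenAt_MM hf)
  have hstep : ∀ l < m, Φ (w l) + Φ (w (l + 1)) = if l = i ∨ l = τ i then 1 else 0 := by
    intro l hl
    obtain ⟨e', ⟨⟨f, hf, hs⟩, -⟩, hj'⟩ := h.step l hl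
    have hiff := hΦ.joins hf hs hj'
    by_cases hl' : l = i ∨ l = τ i
    · rw [if_pos hl']
      have hm : e' ∈ MM ω F e := by
        rcases hl' with rfl | rfl
        · rw [Joins.uniq hj' hj]; exact mem_MM_self
        · exact (k4 e hj).1 e' hj'
      have hne := hiff.1 hm
      rcases z2_cases (Φ (w l)) with h3 | h3 <;> rcases z2_cases (Φ (w (l + 1))) with h4 | h4
      · exact absurd (h3.trans h4.symm) hne
      · rw [h3, h4]; decide
      · rw [h3, h4]; decide
      · exact absurd (h3.trans h4.symm) hne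
    · rw [if_neg hl']
      have hm : e' ∉ MM ω F e := fun hm => hl' ((k4 e hj).2 l hl e' hj' hm)
      have heq : Φ (w l) = Φ (w (l + 1)) := by
        by_contra hne
        exact hm (hiff.2 hne)
      rw [heq]; exact z2_add_self _
  have hs := tele2 (fun l => Φ (w l)) hxy
  have hceq : Φ (w x) = Φ (w y) := hΦ.conn hc
  rw [hceq, z2_add_self] at hs
  have hs2 : ∑ l ∈ Ico x y, (if l = i ∨ l = τ i then (1 : ZMod 2) else 0) = 0 := by
    refine Eq.trans (Finset.sum_congr rfl fun l hl => ?_) hs
    rw [Finset.mem_Ico] at hl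
    exact (hstep l (by omega)).symm
  by_contra hout
  have hs3 : ∑ l ∈ Ico x y, (if l = i ∨ l = τ i then (1 : ZMod 2) else 0) = 1 := by
    have : ∀ l ∈ Ico x y, (if l = i ∨ l = τ i then (1 : ZMod 2) else 0) =
        if l = i then 1 else 0 := by
      intro l hl
      have : l ≠ τ i := fun hh => hout (hh ▸ hl)
      simp [this]
    rw [Finset.sum_congr rfl this, Finset.sum_ite_eq', if_pos hix]
  rw [hs3] at hs2
  exact absurd hs2 (by decide)

/-- The strand which starts just before the first contour index of a cluster ends just after its last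
one: the two vertices of the other colour there are joined. -/
theorem strand_end (h : Ctr (F : Set (ℤ × ℤ)) m w) (ω : Cfg) {z y : ℕ} (hz : 1 ≤ z) (hzy : z ≤ y)
    (hy : y < m) (hc : Conn ω F (w z) (w y))
    (hmin : ∀ i ≤ m, Conn ω F (w z) (w i) → z ≤ i ∧ i ≤ y) :
    Conn ω F (w (z - 1)) (w (y + 1)) := by
  obtain ⟨τ, hτ⟩ := exists_match h ω
  obtain ⟨x, rfl⟩ : ∃ x, z = x + 1 := ⟨z - 1, by omega⟩
  rw [Nat.add_sub_cancel]
  have hx : x < m := by omega
  obtain ⟨k1, k2, k3, k4⟩ := hτ x hx
  set k := τ x with hk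
  obtain ⟨e, -, hj⟩ := h.step x hx
  obtain ⟨e', -, hj'⟩ := h.step k k1
  have hmm := (k4 e hj).1 e' hj'
  have p1 := par_ne_succ h hx
  have p2 := par_ne_succ h k1
  have c1 := par_cases (w x)
  have c2 := par_cases (w (x + 1))
  have c3 := par_cases (w k)
  have c4 := par_cases (w (k + 1))
  -- `k` is not in `[x + 1, y)`
  have hnk : k ∉ Ico (x + 1) y := by
    intro hin
    have := match_key h (τ := τ) hτ k1 hzy hy.le hc hin
    rw [k3, Finset.mem_Ico] at this
    omega
  rw [Finset.mem_Ico] at hnk
  by_cases hp : par (w k) = par (w (x + 1))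
  · have hc1 : Conn ω F (w (x + 1)) (w k) := mm_ends hj.symm hj' hmm hp
    have h1 := hmin k k1.le hc1
    have hky : k = y := by omega
    have hc2 : Conn ω F (w x) (w (k + 1)) := mm_ends hj hj'.symm hmm (by omega)
    rwa [hky] at hc2
  · have hc1 : Conn ω F (w (x + 1)) (w (k + 1)) := mm_ends hj.symm hj'.symm hmm (by omega)
    have h1 := hmin (k + 1) (by omega) hc1
    omega

/-- **Duality for arcs.** -/
theorem arc_du (h : Ctr (F : Set (ℤ × ℤ)) m w) (ω : Cfg) {c : ℤ} (hc : c = 0 ∨ c = 1)
    {a0 a1 b0 b1 : ℕ} (h0 : a0 ≤ a1) (h1 : a1 ≤ b0) (h2 : b0 ≤ b1) (h3 : b1 ≤ m)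
    (hno : ∀ i k, a0 ≤ i → i ≤ a1 → b0 ≤ k → k ≤ b1 → par (w i) = c → ¬ Conn ω F (w i) (w k)) :
    ∃ b b', a1 ≤ b ∧ b ≤ b0 ∧ (b' ≤ a0 ∨ b1 ≤ b') ∧ b' ≤ m ∧ par (w b) ≠ c ∧
      Conn ω F (w b) (w b') := by
  classical
  by_cases hA : ∃ i, a0 ≤ i ∧ i ≤ a1 ∧ par (w i) = c
  · obtain ⟨i0, hi0, hi0', hi0c⟩ := hA
    -- the largest index `x ≤ b0` joined to the arc
    set X : Finset ℕ := (Finset.range (b0 + 1)).filter
      (fun x => ∃ i, a0 ≤ i ∧ i ≤ a1 ∧ par (w i) = c ∧ Conn ω F (w i) (w x)) with hX
    have hXne : X.Nonempty := by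
      refine ⟨i0, ?_⟩
      rw [hX, Finset.mem_filter, Finset.mem_range]
      exact ⟨by omega, i0, hi0, hi0', hi0c, Relation.ReflTransGen.refl⟩
    have hxX := X.max'_mem hXne
    have hmaxX : ∀ j ∈ X, j ≤ X.max' hXne := fun j hj => X.le_max' j hj
    set x := X.max' hXne with hx
    rw [hX, Finset.mem_filter, Finset.mem_range] at hxX
    obtain ⟨hxb, i, hi, hi', hic, hix⟩ := hxX
    have hmax : ∀ j i, j ≤ b0 → a0 ≤ i → i ≤ a1 → par (w i) = c → Conn ω F (w i) (w j) →
        j ≤ x := by
      intro j i' hj g1 g2 g3 g4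
      refine hmaxX j ?_
      rw [hX, Finset.mem_filter, Finset.mem_range]
      exact ⟨by omega, i', g1, g2, g3, g4⟩
    have hxb0 : x < b0 := by
      rcases Nat.lt_or_ge x b0 with h4 | h4
      · exact h4
      · exact absurd hix (hno i x hi hi' h4 (by omega) hic)
    have hparx : par (w x) = c := by rw [← hic]; exact hix.par_eq.symm
    have hxm : x < m := by omega
    have hpx := par_ne_succ h hxm
    have ct := par_cases (w x)
    have ct' := par_cases (w (x + 1))
    -- `a1 ≤ x + 1`
    have hxa : a1 ≤ x + 1 := by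
      by_contra hlt
      push Not at hlt
      have hp2 := par_ne_succ h (i := x + 1) (by omega)
      have c3 := par_cases (w (x + 1 + 1))
      have := hmax (x + 1 + 1) (x + 1 + 1) (by omega) (by
        rcases Nat.lt_or_ge (x + 1 + 1) a0 with h5 | h5
        · exfalso
          have := hmax i0 i0 (by omega) hi0 hi0' hi0c Relation.ReflTransGen.refl
          omega
        · exact h5) (by omega) (by omega) Relation.ReflTransGen.refl
      omega
    by_contra hcon
    push Not at hcon
    -- the cluster of `w (x + 1)`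
    have hD : ∀ j ≤ m, Conn ω F (w (x + 1)) (w j) → a0 < j ∧ j < b1 := by
      intro j hj hcj
      by_contra hn
      refine hcon (x + 1) j hxa (by omega) ?_ hj (by omega) hcj
      omega
    set D : Finset ℕ := (Finset.range (m + 1)).filter (fun j => Conn ω F (w (x + 1)) (w j)) with hDd
    have hDne : D.Nonempty := by
      refine ⟨x + 1, ?_⟩
      rw [hDd, Finset.mem_filter, Finset.mem_range]
      exact ⟨by omega, Relation.ReflTransGen.refl⟩
    have hzD := D.min'_mem hDne
    have hyD := D.max'_mem hDne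
    have hminD : ∀ j ∈ D, D.min' hDne ≤ j := fun j hj => D.min'_le j hj
    have hmaxD : ∀ j ∈ D, j ≤ D.max' hDne := fun j hj => D.le_max' j hj
    set z := D.min' hDne with hz
    set y := D.max' hDne with hy
    rw [hDd, Finset.mem_filter, Finset.mem_range] at hzD hyD
    have hxD : x + 1 ∈ D := by
      rw [hDd, Finset.mem_filter, Finset.mem_range]
      exact ⟨by omega, Relation.ReflTransGen.refl⟩
    have hzx := hminD _ hxD
    have hxy := hmaxD _ hxD
    have hz1 := hD z (by omega) hzD.2
    have hy1 := hD y (by omega) hyD.2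
    have hend := strand_end h ω (z := z) (y := y) (by omega) (by omega) (by omega)
      (conn_trans (conn_symm hzD.2) hyD.2) (by
        intro j hj hcj
        have : j ∈ D := by
          rw [hDd, Finset.mem_filter, Finset.mem_range]
          exact ⟨by omega, conn_trans hzD.2 hcj⟩
        exact ⟨hminD j this, hmaxD j this⟩)
    -- parity of `w (z - 1)`
    have hpz := par_ne_succ h (i := z - 1) (by omega)
    rw [Nat.sub_add_cancel (by omega : 1 ≤ z)] at hpz
    have hzp : par (w z) = par (w (x + 1)) := hzD.2.par_eq.symm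
    have cz := par_cases (w (z - 1))
    have cz' := par_cases (w z)
    -- the contradiction as soon as `w (y + 1)` is joined to the arc
    have hfin : ∀ i', a0 ≤ i' → i' ≤ a1 → par (w i') = c → ¬ Conn ω F (w i') (w (y + 1)) := by
      intro i' g1 g2 g3 g4
      rcases Nat.lt_or_ge (y + 1) b0 with h5 | h5
      · have := hmax (y + 1) i' (by omega) g1 g2 g3 g4
        omega
      · exact hno i' (y + 1) g1 g2 h5 (by omega) g3 g4
    rcases Nat.lt_or_ge a1 (z - 1) with h5 | h5
    · -- `a1 < z - 1`
      rcases Nat.lt_or_ge (z - 1) x with h6 | h6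
      · -- interleaving
        have hzx' : z ≠ x := by
          intro hh
          rw [hh] at hzp
          omega
        have hpar' : par (w z) ≠ par (w i) := by omega
        exact ctr_nc h ω (t := i) (b := z) (a := x) (b' := x + 1) (by omega) (by omega)
          (by omega) (Or.inr (by omega)) (by omega) hpar' hix (conn_symm hzD.2)
      · have : z - 1 = x := by omega
        rw [this] at hend
        exact hfin i hi hi' hic (conn_trans hix hend)
    · exact hfin (z - 1) (by omega) h5 (by omega) hend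
  · push Not at hA
    -- no vertex of colour `c` in the arc
    have ha : a0 = a1 := by
      by_contra hne
      have hp := par_ne_succ h (i := a0) (by omega)
      have c1 := par_cases (w a0)
      have c2 := par_cases (w (a0 + 1))
      have g1 := hA a0 le_rfl (by omega)
      have g2 := hA (a0 + 1) (by omega) (by omega)
      omega
    subst ha
    exact ⟨a0, a0, le_rfl, h1, Or.inl le_rfl, by omega, hA a0 le_rfl le_rfl,
      Relation.ReflTransGen.refl⟩

/-- The rotated contour. -/
def rotw (m k : ℕ) (w : ℕ → ℤ × ℤ) : ℕ → ℤ × ℤ := fun i => if i + k ≤ m then w (i + k) else w (i + k - m)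

theorem ctr_rot (h : Ctr (F : Set (ℤ × ℤ)) m w) {k : ℕ} (hk : k ≤ m) :
    Ctr (F : Set (ℤ × ℤ)) m (rotw m k w) := by
  have key : ∀ i < m, ∃ j < m, rotw m k w i = w j ∧ rotw m k w (i + 1) = w (j + 1) ∧
      (j = i + k ∨ j + m = i + k) := by
    intro i hi
    rcases Nat.lt_or_ge (i + k) m with h1 | h1
    · refine ⟨i + k, h1, ?_, ?_, Or.inl rfl⟩
      · rw [rotw, if_pos h1.le]
      · rw [rotw, if_pos (by omega)]
        congr 1; omega
    · refine ⟨i + k - m, by omega, ?_, ?_, Or.inr (by omega)⟩
      · rw [rotw]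
        split_ifs with h2
        · have : i + k = m := by omega
          rw [this, h.close, Nat.sub_self]
        · rfl
      · rw [rotw, if_neg (by omega)]
        congr 1; omega
  refine ⟨?_, ?_, ?_, ?_, h.pot⟩
  · rw [rotw, rotw]
    rcases Nat.eq_zero_or_pos k with rfl | hk0
    · rw [if_pos (by omega), if_pos (by omega)]
      simpa using h.close
    · rw [if_neg (by omega), if_pos (by omega)]
      congr 1; omega
  · intro i hi
    obtain ⟨j, hj, e1, e2, -⟩ := key i hi
    rw [e1, e2]
    exact h.step j hj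
  · intro e he
    obtain ⟨j, hj, hje⟩ := h.all e he
    rcases Nat.lt_or_ge j k with h1 | h1
    · refine ⟨j + m - k, by omega, ?_⟩
      obtain ⟨j', hj', e1, e2, e3⟩ := key (j + m - k) (by omega)
      have : j' = j := by omega
      rw [e1, e2, this]
      exact hje
    · refine ⟨j - k, by omega, ?_⟩
      obtain ⟨j', hj', e1, e2, e3⟩ := key (j - k) (by omega)
      have : j' = j := by omega
      rw [e1, e2, this]
      exact hje
  · intro i hi l hl e h1 h2
    obtain ⟨j, hj, e1, e2, e3⟩ := key i hi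
    obtain ⟨j', hj', e1', e2', e3'⟩ := key l hl
    rw [e1, e2] at h1
    rw [e1', e2'] at h2
    have := h.inj j hj j' hj' e h1 h2
    omega

end Pool.Agent.SixB.LC
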