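import Pool.Agent.Lib.SixB.CARf
import Pool.Agent.Lib.SixB.S8ArcDu
import Pool.Agent.Lib.SixB.TopCA

/-!
# 6BD block CA: duality

`Cont.du`: for every configuration two opposite arcs of the contour are joined by the colour `c` or
the other two arcs are joined by the colour `1 - c`. `one_le_Cr`: the same for the probabilities.
-/

set_option autoImplicit false

namespace Pool.Agent.SixB

open Pool.Agent.Perc Pool.Agent.Perc6

variable {P : Finset (ℤ × ℤ)} {L n : ℕ} {g : ℤ → ℤ × ℤ} {c i j k l : ℤ}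

/-- Duality for the contour of a polygon, every configuration. -/
theorem Cont.du (hP : MPoly P) (h : Cont P L g) (hc : c = 0 ∨ c = 1) (hij : i ≤ j) (hjk : j ≤ k)
    (hkl : k ≤ l) (hli : l ≤ i + L) (ω : Cfg) :
    ω ∈ CrE (P : Set (ℤ × ℤ)) g c i j k l ∨ ω ∈ CrE (P : Set (ℤ × ℤ)) g (1 - c) j k l (i + L) := by
  by_cases h1 : ω ∈ CrE (P : Set (ℤ × ℤ)) g c i j k l
  · exact Or.inl h1
  right
  have hctr := hP.ctr h i
  obtain ⟨b, b', h2, h3, h4, h5, h6, h7⟩ := LC.arc_du hctr ω hc (a0 := 0) (a1 := (j - i).toNat)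
    (b0 := (k - i).toNat) (b1 := (l - i).toNat) (by omega) (by omega) (by omega) (by omega) (by
      intro a b _ ha hb hb' hpar hconn
      exact h1 ⟨i + a, i + b, by omega, by omega, by omega, by omega, hpar, hconn⟩)
  have hpar : par (g (i + b)) = 1 - c := by
    rcases par_cases (g (i + b)) with hp | hp <;> rcases hc with rfl | rfl <;> omega
  rcases h4 with h4 | h4
  · obtain rfl : b' = 0 := by omega
    refine ⟨i + b, i + L, by omega, by omega, by omega, le_rfl, hpar, ?_⟩
    rw [h.per]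
    simpa using h7
  · exact ⟨i + b, i + b', by omega, by omega, by omega, by omega, hpar, h7⟩

/-- Duality for the crossing probabilities in the refinements. -/
theorem one_le_Cr (hP : MPoly P) (h : Cont P L g) (hn : 0 < n) (hc : c = 0 ∨ c = 1) (hij : i ≤ j)
    (hjk : j ≤ k) (hkl : k ≤ l) (hli : l ≤ i + n * L) :
    1 ≤ Cr P g n c i j k l + Cr P g n (1 - c) j k l (i + n * L) := by
  unfold Cr
  have h1 := pr_compl (rf n P) (CrE (rf n P : Set (ℤ × ℤ)) (gr n g) c i j k l)
  have h2 : pr (rf n P) (CrE (rf n P : Set (ℤ × ℤ)) (gr n g) c i j k l)ᶜ ≤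
      pr (rf n P) (CrE (rf n P : Set (ℤ × ℤ)) (gr n g) (1 - c) j k l (i + n * L)) := by
    refine pr_mono _ ?_
    intro ω hω
    have h1 := (CARf.cont_rf h hn).du (CARf.mpoly_rf hP hn) hc hij hjk hkl
      (by push_cast; exact hli) ω
    push_cast at h1
    exact h1.resolve_left hω
  linarith

end Pool.Agent.SixB
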