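import Pool.Agent.Lib.SixB.CASeq
import Pool.Agent.Lib.SixB.CADual

/-!
# 6BD block CA: final steps (helper96)

* `du_of_mpoly`: the arc duality hypothesis `DU` for simple polygons;
* `crossSeq_of_mpoly`: the structure `CrossSeq` for `Cxy`, without further hypotheses;
* `CAOut.of_lim`: `CAOut` from the convergence of `Cxy` and of the difference of the two colours.
-/

set_option autoImplicit false

namespace Pool.Agent.SixB

open Set Filter Topology Pool.Agent.Perc Pool.Agent.Perc6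

variable {P : Finset (ℤ × ℤ)} {L : ℕ} {g : ℤ → ℤ × ℤ}

theorem du_of_mpoly (hP : MPoly P) (h : Cont P L g) : DU P L g :=
  fun _ _ _ _ _ _ hn hc hij hjk hkl hli => one_le_Cr hP h hn hc hij.le hjk.le hkl.le hli

theorem crossSeq_of_mpoly (hP : MPoly P) (h : Cont P L g) {t₁ t₃ : ℝ} (h31 : t₃ < t₁ + L) :
    CrossSeq (t₃ - t₁) (t₁ + L - t₃) (Cxy P g t₁ t₃) :=
  crossSeq h (du_of_mpoly hP h) h31

theorem ix_div_tendsto (t : ℝ) : Tendsto (fun n : ℕ => (ix n t : ℝ) / n) atTop (𝓝 t) := by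
  have h1 : Tendsto (fun n : ℕ => t - 1 / (n : ℝ)) atTop (𝓝 (t - 0)) :=
    tendsto_const_nhds.sub tendsto_one_div_atTop_nhds_zero_nat
  rw [sub_zero] at h1
  refine tendsto_of_tendsto_of_tendsto_of_le_of_le' h1 tendsto_const_nhds ?_ ?_
  · filter_upwards [eventually_gt_atTop 0] with n hn
    have hn' : (0 : ℝ) < n := by exact_mod_cast hn
    rw [le_div_iff₀ hn']
    have h3 : (t - 1 / (n : ℝ)) * n = n * t - 1 := by field_simp
    rw [h3]
    exact (lt_ix n t).le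
  · filter_upwards [eventually_gt_atTop 0] with n hn
    have hn' : (0 : ℝ) < n := by exact_mod_cast hn
    rw [div_le_iff₀ hn', mul_comm]
    exact ix_le n t

/-- **Final step.** -/
theorem CAOut.of_lim
    (hmain : ∀ (P : Finset (ℤ × ℤ)) (L : ℕ) (g : ℤ → ℤ × ℤ), MPoly P → Cont P L g →
      ∀ t₁ t₂ t₃ t₄ : ℝ, t₁ < t₂ → t₂ < t₃ → t₃ < t₄ → t₄ < t₁ + L →
        Fl g t₁ → Fl g t₂ → Fl g t₃ → Fl g t₄ →
        ∃ p : ℝ, Tendsto (fun n => Cxy P g t₁ t₃ n (t₂ - t₁) (t₄ - t₃)) atTop (𝓝 p))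
    (hcol : ∀ (P : Finset (ℤ × ℤ)) (L : ℕ) (g : ℤ → ℤ × ℤ), MPoly P → Cont P L g →
      ∀ t₁ t₂ t₃ t₄ : ℝ, t₁ < t₂ → t₂ < t₃ → t₃ < t₄ → t₄ < t₁ + L →
        Fl g t₁ → Fl g t₂ → Fl g t₃ → Fl g t₄ →
        Tendsto (fun n => Cr P g n 0 (ix n t₁) (ix n t₂) (ix n t₃) (ix n t₄) -
          Cr P g n 1 (ix n t₁) (ix n t₂) (ix n t₃) (ix n t₄)) atTop (𝓝 0)) : CAOut := by
  intro P L g hP h t₁ t₂ t₃ t₄ h12 h23 h34 h41 f1 f2 f3 f4
  obtain ⟨p, hp⟩ := hmain P L g hP h t₁ t₂ t₃ t₄ h12 h23 h34 h41 f1 f2 f3 f4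
  have hd := hcol P L g hP h t₁ t₂ t₃ t₄ h12 h23 h34 h41 f1 f2 f3 f4
  have hp' : Tendsto (fun n => (Cr P g n 0 (ix n t₁) (ix n t₂) (ix n t₃) (ix n t₄) +
      Cr P g n 1 (ix n t₁) (ix n t₂) (ix n t₃) (ix n t₄)) / 2) atTop (𝓝 p) := by
    refine hp.congr fun n => ?_
    unfold Cxy Ct
    rw [add_sub_cancel, add_sub_cancel]
  refine ⟨p, fun c hc i j k l hi hj hk hl => ?_⟩
  have hc' : Tendsto (fun n => Cr P g n c (ix n t₁) (ix n t₂) (ix n t₃) (ix n t₄)) atTop (𝓝 p) := by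
    rcases hc with rfl | rfl
    · have h1 := hp'.add (hd.div_const 2)
      simp only [zero_div, add_zero] at h1
      refine h1.congr fun n => ?_
      ring
    · have h1 := hp'.sub (hd.div_const 2)
      simp only [zero_div, sub_zero] at h1
      refine h1.congr fun n => ?_
      ring
  have h2 := Cr_seq h h12 h23 h34 h41 c (F := atTop) (nn := fun n : ℕ => n) tendsto_id
    (ix_div_tendsto t₁) (ix_div_tendsto t₂) (ix_div_tendsto t₃) (ix_div_tendsto t₄) hi hj hk hl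
  have h3 := h2.add hc'
  rw [zero_add] at h3
  refine h3.congr fun n => ?_
  ring

end Pool.Agent.SixB
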