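import Pool.Agent.Lib.SixB.CARatio
import Pool.Agent.Lib.SixB.AN3R

/-!
# 6BD block CA: uniqueness with one weak pole, in the form used by the assembly
-/

set_option autoImplicit false

namespace Pool.Agent.SixB

theorem n2p {P : Finset (ℤ × ℤ)} (hP : MPoly P) : N2P P := by
  intro X x C c hX hXO _ hx hw hc U hh hcont hN hb
  obtain ⟨ν, hν⟩ := hw
  exact nharm_const_of_pow_X hP hX hXO hx hν hc hh hcont hN hb

end Pool.Agent.SixB
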