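import Pool.Agent.Lib.SixB.CAKof
import Pool.Agent.Lib.SixB.CAFin
import Pool.Agent.Lib.SixB.CAN2

/-!
# 6BD block CA: assembly

`cxy_converges`: the normalised crossing probabilities converge, from `ExIn`, `NatIn`, `TiltIn`, `ArmIn`.
`caOut_of_in`: `CAOut` from the inputs.
-/

set_option autoImplicit false

namespace Pool.Agent.SixB

open Filter Topology

noncomputable section

variable {P : Finset (ℤ × ℤ)} {L : ℕ} {g : ℤ → ℤ × ℤ} {z0 : ℂ}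
  {uN : ℕ → ℤ → ℤ × ℤ → ℝ} {uP : ℕ → ℝ → ℤ → ℤ → ℤ × ℤ → ℝ}
  {uX : ℕ → ℝ → ℤ → ℤ → ℤ → ℤ → ℤ → ℤ × ℤ → ℝ} {u : Ultrafilter ℕ}

theorem fl_of_nonint {t : ℝ} (h : ∀ k : ℤ, t ≠ k) : Fl g t := fun k hk => absurd hk (h k)

/-- the marks right after `t` are flat -/
theorem fl_right {t x : ℝ} (hx : 0 < x) (hx' : x < ⌊t⌋ + 1 - t) : Fl g (t + x) := by
  refine fl_of_nonint fun k hk => ?_
  have h1 := Int.floor_le t
  have h2 : (⌊t⌋ : ℝ) < k := by linarith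
  have h3 : (k : ℝ) < ⌊t⌋ + 1 := by linarith
  have h4 : ⌊t⌋ < k := by exact_mod_cast h2
  have h5 : k < ⌊t⌋ + 1 := by exact_mod_cast h3
  omega

theorem gapFl (t : ℝ) : 0 < ⌊t⌋ + 1 - t := by linarith [Int.lt_floor_add_one t]

theorem nf0_finite (t M : ℝ) : (NF0 g t M).Finite := by
  have h1 : NF0 g t M ⊆ (fun k : ℤ => (k : ℝ) - t) '' (Set.Icc ⌊t⌋ ⌈t + M⌉) := by
    rintro x ⟨⟨h1, h2⟩, h3⟩
    unfold Fl at h3
    push Not at h3
    obtain ⟨k, hk, -⟩ := h3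
    refine ⟨k, ⟨?_, ?_⟩, by simp only; linarith⟩
    · have h4 : (⌊t⌋ : ℝ) ≤ k := by linarith [Int.floor_le t]
      exact_mod_cast h4
    · have h4 : (k : ℝ) ≤ ⌈t + M⌉ := by linarith [Int.le_ceil (t + M)]
      exact_mod_cast h4
  exact ((Set.finite_Icc _ _).image _).subset h1

theorem setX_eq {t₁ t₃ : ℝ} : Set.Ioo 0 (t₃ - t₁) \ NF0 g t₁ (t₃ - t₁) = SetX g t₁ t₃ := by
  ext x
  constructor
  · rintro ⟨⟨h1, h2⟩, h3⟩
    refine ⟨h1, h2, ?_⟩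
    by_contra hcon
    exact h3 ⟨⟨h1, h2⟩, hcon⟩
  · rintro ⟨h1, h2, h3⟩
    exact ⟨⟨h1, h2⟩, fun h => h.2 h3⟩

theorem setY_eq {t₁ t₃ : ℝ} :
    Set.Ioo 0 (t₁ + L - t₃) \ NF0 g t₃ (t₁ + L - t₃) = SetY L g t₁ t₃ := by
  ext x
  constructor
  · rintro ⟨⟨h1, h2⟩, h3⟩
    refine ⟨h1, h2, ?_⟩
    by_contra hcon
    exact h3 ⟨⟨h1, h2⟩, hcon⟩
  · rintro ⟨h1, h2, h3⟩
    exact ⟨⟨h1, h2⟩, fun h => h.2 h3⟩

/-- **The coefficients of the logarithms** of the limit kernel at both marks. -/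
theorem coef_eq (hg : Cont P L g) (hK : NK P g (HU u z0 uN)) (hG : GeoIn P L g)
    (hu : (u : Filter ℕ) ≤ atTop) {t₁ t₃ x0 y0 : ℝ} (hM : Marks2 L g t₁ t₃) (harm : ArmIn P g t₁ t₃)
    {C : ℝ → ℝ → ℝ} (hC : ∀ x ∈ Set.Ioo 0 (t₃ - t₁), ∀ y ∈ Set.Icc 0 (t₁ + L - t₃),
      Tendsto (fun n => Cxy P g t₁ t₃ n x y) u (𝓝 (C x y)))
    (hx0 : x0 ∈ SetX g t₁ t₃) (hy0 : y0 ∈ SetY L g t₁ t₃)
    (hr1 : Rel (SetX g t₁ t₃) (SetY L g t₁ t₃) (PsiX g (HU u z0 uN) t₁ t₃ x0) C)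
    (hr2 : Rel (SetY L g t₁ t₃) (SetX g t₁ t₃) (fun y x => PsiY g (HU u z0 uN) t₁ t₃ y0 x y)
      (fun y x => C x y))
    {c₁ c₃ : ℝ} (h1 : KC P L g (HU u z0 uN) t₁ t₁ c₁) (h3 : KC P L g (HU u z0 uN) t₁ t₃ c₃) :
    Real.pi / 3 * c₁ = 1 / 3 ∧ Real.pi / 3 * c₃ = 1 / 3 := by
  have hW : ∀ t : ℝ, Fl g t → WPath P (gam g) t := fun t ht => hg.wpath t ht
  have hm1 := hM.h1
  have hm2 := hM.h2
  constructor
  · obtain ⟨y, y', hy, hyy, hy', ξ, hξ, a₁, ha₁, a₂, h⟩ := harm.2 (min (⌊t₃⌋ + 1 - t₃) (t₁ + L - t₃))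
      (lt_min (gapFl t₃) (by linarith))
    have hyy1 := hy'.trans_le (min_le_left _ _)
    have hyy2 := hy'.trans_le (min_le_right _ _)
    have hK1 : Set.Icc y y' ⊆ SetY L g t₁ t₃ := fun t ht =>
      ⟨by linarith [ht.1], by linarith [ht.2], fl_right (by linarith [ht.1]) (by linarith [ht.2])⟩
    obtain ⟨η, hη, B, hB⟩ := hK.psiX_log hG hW hM h1 isCompact_Icc hK1 hx0
    set X0 : ℝ := min (min (η / 2) ξ) (min ((⌊t₁⌋ + 1 - t₁) / 2) ((t₃ - t₁) / 2)) with hX0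
    have hX0p : 0 < X0 := by
      have := gapFl t₁
      refine lt_min (lt_min (by linarith) hξ) (lt_min (by linarith) (by linarith))
    have e1 : X0 ≤ η / 2 := (min_le_left _ _).trans (min_le_left _ _)
    have e2 : X0 ≤ ξ := (min_le_left _ _).trans (min_le_right _ _)
    have e3 : X0 ≤ (⌊t₁⌋ + 1 - t₁) / 2 := (min_le_right _ _).trans (min_le_left _ _)
    have e4 : X0 ≤ (t₃ - t₁) / 2 := (min_le_right _ _).trans (min_le_right _ _)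
    have hin : ∀ x ∈ Set.Ioc 0 X0, x ∈ Set.Ioo 0 (t₃ - t₁) := fun x hx =>
      ⟨hx.1, by linarith [hx.2]⟩
    have hlim : ∀ x ∈ Set.Ioc 0 X0, Tendsto (fun n => Cxy P g t₁ t₃ n x y' - Cxy P g t₁ t₃ n x y) u
        (𝓝 (C x y' - C x y)) := fun x hx =>
      (hC x (hin x hx) y' ⟨by linarith, by linarith⟩).sub (hC x (hin x hx) y ⟨by linarith, by linarith⟩)
    refine hr1.exponent (e := 1 / 3) (B := B) hyy.le hK1 hX0p ?_ ?_ ha₁ (a₂ := a₂) ?_ ?_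
    · intro x hx
      exact ⟨hx.1, by linarith [hx.2], fl_right hx.1 (by linarith [hx.2, gapFl t₁])⟩
    · intro x hx t ht
      exact hB x ⟨hx.1, by linarith [hx.2]⟩ t ht
    · intro x hx
      refine ge_of_tendsto (hlim x hx) (hu ?_)
      filter_upwards [h x ⟨hx.1, hx.2.trans e2⟩] with n hn
      exact hn.1
    · intro x hx
      refine le_of_tendsto (hlim x hx) (hu ?_)
      filter_upwards [h x ⟨hx.1, hx.2.trans e2⟩] with n hn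
      exact hn.2
  · obtain ⟨x, x', hx, hxx, hx', ξ, hξ, a₁, ha₁, a₂, h⟩ := harm.1 (min (⌊t₁⌋ + 1 - t₁) (t₃ - t₁))
      (lt_min (gapFl t₁) (by linarith))
    have hxx1 := hx'.trans_le (min_le_left _ _)
    have hxx2 := hx'.trans_le (min_le_right _ _)
    have hK1 : Set.Icc x x' ⊆ SetX g t₁ t₃ := fun t ht =>
      ⟨by linarith [ht.1], by linarith [ht.2], fl_right (by linarith [ht.1]) (by linarith [ht.2])⟩
    obtain ⟨η, hη, B, hB⟩ := hK.psiY_log hG hW hM h3 isCompact_Icc hK1 hy0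
    set Y0 : ℝ := min (min (η / 2) ξ) (min ((⌊t₃⌋ + 1 - t₃) / 2) ((t₁ + L - t₃) / 2)) with hY0
    have hY0p : 0 < Y0 := by
      have := gapFl t₃
      refine lt_min (lt_min (by linarith) hξ) (lt_min (by linarith) (by linarith))
    have e1 : Y0 ≤ η / 2 := (min_le_left _ _).trans (min_le_left _ _)
    have e2 : Y0 ≤ ξ := (min_le_left _ _).trans (min_le_right _ _)
    have e3 : Y0 ≤ (⌊t₃⌋ + 1 - t₃) / 2 := (min_le_right _ _).trans (min_le_left _ _)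
    have e4 : Y0 ≤ (t₁ + L - t₃) / 2 := (min_le_right _ _).trans (min_le_right _ _)
    have hlim : ∀ y ∈ Set.Ioc 0 Y0, Tendsto (fun n => Cxy P g t₁ t₃ n x' y - Cxy P g t₁ t₃ n x y) u
        (𝓝 (C x' y - C x y)) := fun y hy =>
      (hC x' ⟨by linarith, by linarith⟩ y ⟨hy.1.le, by linarith [hy.2]⟩).sub
        (hC x ⟨by linarith, by linarith⟩ y ⟨hy.1.le, by linarith [hy.2]⟩)
    refine hr2.exponent (e := 1 / 3) (B := B) hxx.le hK1 hY0p ?_ ?_ ha₁ (a₂ := a₂) ?_ ?_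
    · intro y hy
      exact ⟨hy.1, by linarith [hy.2], fl_right hy.1 (by linarith [hy.2, gapFl t₃])⟩
    · intro y hy t ht
      exact hB y ⟨hy.1, by linarith [hy.2]⟩ t ht
    · intro y hy
      refine ge_of_tendsto (hlim y hy) (hu ?_)
      filter_upwards [h y ⟨hy.1, hy.2.trans e2⟩] with n hn
      exact hn.1
    · intro y hy
      refine le_of_tendsto (hlim y hy) (hu ?_)
      filter_upwards [h y ⟨hy.1, hy.2.trans e2⟩] with n hn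
      exact hn.2

theorem fl_per (hg : Cont P L g) (t : ℝ) : Fl g (t + L) ↔ Fl g t := by
  have hper : ∀ k : ℤ, g (k + L) = g k := hg.per
  constructor
  · intro h k hk
    have h1 := h (k + L) (by push_cast; linarith)
    rw [show k + (L : ℤ) + 1 = (k + 1) + L by ring, show k + (L : ℤ) - 1 = (k - 1) + L by ring,
      hper, hper, hper] at h1
    exact h1
  · intro h k hk
    have h1 := h (k - L) (by push_cast; linarith)
    have e1 := hper (k - L)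
    have e2 := hper (k - L + 1)
    have e3 := hper (k - L - 1)
    rw [show k - (L : ℤ) + L = k by ring] at e1
    rw [show k - (L : ℤ) + 1 + L = k + 1 by ring] at e2
    rw [show k - (L : ℤ) - 1 + L = k - 1 by ring] at e3
    rw [e1, e2, e3]
    exact h1

/-- **The normalised crossing probabilities converge.** -/
theorem cxy_converges (hP : MPoly P) (hg : Cont P L g) (ex : ExIn P L g uN uP uX)
    (hN : NatIn P g z0 uN) (ti : TiltIn P L g z0 uN uP uX) (hz0 : z0 ∈ Om P) {t₁ t₃ : ℝ}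
    (hM : Marks2 L g t₁ t₃) (harm : ArmIn P g t₁ t₃) :
    ∀ x ∈ Set.Ioo 0 (t₃ - t₁), ∀ y ∈ Set.Icc 0 (t₁ + L - t₃),
      ∃ p : ℝ, Tendsto (fun n => Cxy P g t₁ t₃ n x y) atTop (𝓝 p) := by
  have hm1 := hM.h1
  have hm2 := hM.h2
  have hG : GeoIn P L g := CARf.geoIn hg
  have hN2 : N2P P := n2p hP
  have hW : ∀ t : ℝ, Fl g t → WPath P (gam g) t := fun t ht => hg.wpath t ht
  have hseq := crossSeq_of_mpoly hP hg hm2 (t₁ := t₁) (t₃ := t₃)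
  have hper : ∀ n : ℕ, 0 < n → ∀ k : ℤ, gr n g (k + (n * L : ℕ)) = gr n g k := by
    intro n hn k
    have h1 := gr_per hg hn k
    push_cast
    exact h1
  have hfl := fl_per hg
  -- base points and the flat piece
  set δ : ℝ := min (⌊t₁⌋ + 1 - t₁) (t₃ - t₁) with hδ
  have hδ0 : 0 < δ := lt_min (gapFl t₁) (by linarith)
  have hδ1 : δ ≤ ⌊t₁⌋ + 1 - t₁ := min_le_left _ _
  have hδ2 : δ ≤ t₃ - t₁ := min_le_right _ _
  have hδX : ∀ x ∈ Set.Ioo 0 δ, x ∈ SetX g t₁ t₃ := fun x hx =>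
    ⟨hx.1, by linarith [hx.2], fl_right hx.1 (by linarith [hx.2])⟩
  have hx0 : δ / 2 ∈ SetX g t₁ t₃ := hδX _ ⟨by linarith, by linarith⟩
  obtain ⟨y0, hy0⟩ : ∃ y0, y0 ∈ SetY L g t₁ t₃ := by
    refine ⟨min (⌊t₃⌋ + 1 - t₃) (t₁ + L - t₃) / 2, ?_, ?_, ?_⟩
    · have : 0 < min (⌊t₃⌋ + 1 - t₃) (t₁ + L - t₃) := lt_min (gapFl t₃) (by linarith)
      linarith
    · have := min_le_right (⌊t₃⌋ + 1 - t₃) (t₁ + L - t₃)
      linarith
    · have h1 : 0 < min (⌊t₃⌋ + 1 - t₃) (t₁ + L - t₃) := lt_min (gapFl t₃) (by linarith)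
      have := min_le_left (⌊t₃⌋ + 1 - t₃) (t₁ + L - t₃)
      exact fl_right (by linarith) (by linarith)
  have hK : ∀ u : Ultrafilter ℕ, (u : Filter ℕ) ≤ atTop → NK P g (HU u z0 uN) := fun u hu =>
    nk_of hN hG ex hz0 hu
  -- relations and coefficients for every ultrafilter
  have key : ∀ (u : Ultrafilter ℕ) (C : ℝ → ℝ → ℝ), (u : Filter ℕ) ≤ atTop →
      (∀ x ∈ Set.Ioo 0 (t₃ - t₁), ∀ y ∈ Set.Icc 0 (t₁ + L - t₃),
        Tendsto (fun n => Cxy P g t₁ t₃ n x y) (u : Filter ℕ) (𝓝 (C x y))) →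
      Rel (SetX g t₁ t₃) (SetY L g t₁ t₃) (PsiX g (HU u z0 uN) t₁ t₃ (δ / 2)) C ∧
      Rel (SetY L g t₁ t₃) (SetX g t₁ t₃) (fun y x => PsiY g (HU u z0 uN) t₁ t₃ y0 x y)
        (fun y x => C x y) ∧
      KC P L g (HU u z0 uN) t₁ t₁ (1 / Real.pi) ∧ KC P L g (HU u z0 uN) t₁ t₃ (1 / Real.pi) := by
    intro u C hu hC
    have h1 := relX hG hN2 ex hN ti hu hM (t₁ + δ / 2) hseq hC
    have h2 := relY hG hN2 ex hN ti hu hper hfl hM (t₃ + y0) hseq hC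
    rw [setX_eq (g := g) (t₁ := t₁) (t₃ := t₃), setY_eq] at h1 h2
    obtain ⟨c₁, hc₁⟩ := (hK u hu).exists_coef hG (t1 := t₁) hM.f1
    obtain ⟨c₃, hc₃⟩ := (hK u hu).exists_coef hG (t1 := t₁) hM.f3
    obtain ⟨e1, e3⟩ := coef_eq hg (hK u hu) hG hu hM harm hC hx0 hy0 h1 h2 hc₁ hc₃
    have hpi := Real.pi_pos
    have e1' : c₁ = 1 / Real.pi := by field_simp at e1 ⊢; linarith
    have e3' : c₃ = 1 / Real.pi := by field_simp at e3 ⊢; linarith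
    exact ⟨h1, h2, by rwa [← e1'], by rwa [← e3']⟩
  -- reference kernel
  set u0 : Ultrafilter ℕ := Ultrafilter.of atTop with hu0
  have hu0' : (u0 : Filter ℕ) ≤ atTop := Ultrafilter.of_le atTop
  obtain ⟨C0, hC0, -⟩ := hseq.exists_ultra (by linarith) u0 hu0'
  obtain ⟨-, -, k1, k3⟩ := key u0 C0 hu0' hC0
  have hK0 := hK u0 hu0'
  have main := CrossSeq.tendsto_ultra (E := NF0 g t₁ (t₃ - t₁)) (F := NF0 g t₃ (t₁ + L - t₃))
    (M := t₃ - t₁) (δ := δ) (L := t₁ + L - t₃) hδ0 (by linarith) hδ2 ?_ (nf0_finite _ _)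
    (nf0_finite _ _) (Ψ := PsiX g (HU u0 z0 uN) t₁ t₃ (δ / 2))
    (Ψ' := PsiY g (HU u0 z0 uN) t₁ t₃ y0)
    (ψ := fun x y => deriv (fun x => PsiX g (HU u0 z0 uN) t₁ t₃ (δ / 2) x y) x)
    (ψ' := fun x y => deriv (PsiY g (HU u0 z0 uN) t₁ t₃ y0 x) y) ?_ ?_ ?_ ?_ ?_ ?_ hseq ?_
  · obtain ⟨C, -, hC⟩ := main
    exact fun x hx y hy => ⟨C x y, hC x hx y hy⟩
  · rw [Set.disjoint_left]
    intro x hx hxE
    exact hxE.2 (hδX x hx).2.2
  · intro x hx y hy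
    rw [setY_eq] at hy
    exact hK0.psiX_hasDerivAt hG hW hM (δ / 2) (hδX x hx) hy
  · rw [setY_eq]
    exact (hK0.psiX_deriv_cont hG hW hM (δ / 2)).mono (Set.prod_mono hδX subset_rfl)
  · intro x hx
    rw [setX_eq] at hx
    rw [setY_eq]
    exact hK0.psiX_cont hG hM hx0 hx
  · intro y hy
    rw [setY_eq] at hy
    exact (hK0.psiY_cont hG hM hy0 hy).mono hδX
  · intro x hx y hy
    rw [setY_eq] at hy
    exact hK0.psiY_hasDerivAt hG hW hM y0 (hδX x hx) hy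
  · intro y hy
    rw [setY_eq] at hy
    exact hK0.psiX_deriv_ne_zero hG hW hM (δ / 2) k1 (by have := Real.pi_pos; positivity) hy
  · intro u C hu hC
    obtain ⟨r1, r2, q1, q3⟩ := key u C hu hC
    have huniq : ∀ x ∈ SetX g t₁ t₃, ∀ y ∈ SetY L g t₁ t₃,
        PsiX g (HU u z0 uN) t₁ t₃ (δ / 2) x y = PsiX g (HU u0 z0 uN) t₁ t₃ (δ / 2) x y ∧
        PsiY g (HU u z0 uN) t₁ t₃ y0 x y = PsiY g (HU u0 z0 uN) t₁ t₃ y0 x y :=
      fun x hx y hy => (hK u hu).psiXY_unique hP hK0 hG hM q1 q3 k1 k3 hx0 hy0 hx hy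
    rw [setX_eq, setY_eq]
    constructor
    · refine r1.congr fun x hx x' hx' y hy => ?_
      rw [(huniq x hx y hy).1, (huniq x' hx' y hy).1]
    · intro y hy y' hy' x x' hxx hsub m Mm hmM
      have hsub' : Set.Icc x x' ⊆ SetX g t₁ t₃ := fun t ht => hδX t (hsub ht)
      refine r2 y hy y' hy' x x' hxx hsub' m Mm fun t ht => ?_
      have h5 := hmM t ht
      beta_reduce at h5 ⊢
      rw [(huniq t (hsub' ht) y hy).2, (huniq t (hsub' ht) y' hy').2]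
      exact h5

/-- the crossing probabilities of the two colours are asymptotically equal -/
def ColIn (P : Finset (ℤ × ℤ)) (L : ℕ) (g : ℤ → ℤ × ℤ) : Prop :=
  ∀ t₁ t₂ t₃ t₄ : ℝ, t₁ < t₂ → t₂ < t₃ → t₃ < t₄ → t₄ < t₁ + L → Fl g t₁ → Fl g t₂ → Fl g t₃ → Fl g t₄ →
    Tendsto (fun n : ℕ => Cr P g n 0 (ix n t₁) (ix n t₂) (ix n t₃) (ix n t₄) -
      Cr P g n 1 (ix n t₁) (ix n t₂) (ix n t₃) (ix n t₄)) atTop (𝓝 0)

/-- the environment inputs of a polygon -/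
def EnvIn (P : Finset (ℤ × ℤ)) (L : ℕ) (g : ℤ → ℤ × ℤ) : Prop :=
  ∃ z0 ∈ Om P, ∃ (uN : ℕ → ℤ → ℤ × ℤ → ℝ) (uP : ℕ → ℝ → ℤ → ℤ → ℤ × ℤ → ℝ)
    (uX : ℕ → ℝ → ℤ → ℤ → ℤ → ℤ → ℤ → ℤ × ℤ → ℝ),
    ExIn P L g uN uP uX ∧ NatIn P g z0 uN ∧ TiltIn P L g z0 uN uP uX

/-- **Block CA**: the output from the inputs. -/
theorem caOut_of_in
    (henv : ∀ (P : Finset (ℤ × ℤ)) (L : ℕ) (g : ℤ → ℤ × ℤ), MPoly P → Cont P L g → EnvIn P L g)
    (harm : ∀ (P : Finset (ℤ × ℤ)) (L : ℕ) (g : ℤ → ℤ × ℤ), MPoly P → Cont P L g →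
      ∀ t₁ t₃ : ℝ, Marks2 L g t₁ t₃ → ArmIn P g t₁ t₃)
    (hcol : ∀ (P : Finset (ℤ × ℤ)) (L : ℕ) (g : ℤ → ℤ × ℤ), MPoly P → Cont P L g → ColIn P L g) :
    CAOut := by
  refine CAOut.of_lim ?_ fun P L g hP h => hcol P L g hP h
  intro P L g hP h t₁ t₂ t₃ t₄ h12 h23 h34 h41 f1 f2 f3 f4
  obtain ⟨z0, hz0, uN, uP, uX, ex, hN, ti⟩ := henv P L g hP h
  have hM : Marks2 L g t₁ t₃ := ⟨by linarith, by linarith, f1, f3⟩
  exact cxy_converges hP h ex hN ti hz0 hM (harm P L g hP h t₁ t₃ hM) (t₂ - t₁)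
    ⟨by linarith, by linarith⟩ (t₄ - t₃) ⟨by linarith, by linarith⟩

end

end Pool.Agent.SixB
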