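import Pool.Agent.Lib.SixB.CACol
import Pool.Agent.Lib.SixB.CAMain

/-!
# 6BD: the input `ColIn` of block CA
-/

set_option autoImplicit false

namespace Pool.Agent.SixB

/-- **ColIn**: the crossing probabilities of the two colours are asymptotically equal. -/
theorem colIn {P : Finset (ℤ × ℤ)} {L : ℕ} {g : ℤ → ℤ × ℤ} (hP : MPoly P) (hg : Cont P L g) :
    ColIn P L g := by
  intro t₁ t₂ t₃ t₄ h12 h23 h34 h41 _ _ _ _
  exact Col.tendsto_Cr_col hP hg h12 h23 h34 h41 (ix_div_tendsto t₁) (ix_div_tendsto t₂)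
    (ix_div_tendsto t₃) (ix_div_tendsto t₄)

end Pool.Agent.SixB
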