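import Pool.Agent.Lib.SixB.CAuniq

/-!
# Compactness for crossing probabilities in both marks (helper96)

`Cn n x y`, `x ∈ (0, M)`, `y ∈ [0, L]`: monotone in both variables, asymptotically equicontinuous.
-/

set_option autoImplicit false

namespace Pool.Agent.SixB

open Set Filter Topology

/-- What RSW gives for the lattice functions `Cn n x y = P_n([p1, x] <-> [p3, y])`. -/
structure CrossSeq (M L : ℝ) (Cn : ℕ → ℝ → ℝ → ℝ) : Prop where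
  nonneg : ∀ n, ∀ x ∈ Ioo 0 M, ∀ y ∈ Icc 0 L, 0 ≤ Cn n x y
  le_one : ∀ n, ∀ x ∈ Ioo 0 M, ∀ y ∈ Icc 0 L, Cn n x y ≤ 1
  mono1 : ∀ n, ∀ y ∈ Icc 0 L, MonotoneOn (fun x => Cn n x y) (Ioo 0 M)
  mono2 : ∀ n, ∀ x ∈ Ioo 0 M, MonotoneOn (Cn n x) (Icc 0 L)
  equi1 : ∀ x ∈ Ioo 0 M, ∀ y ∈ Ioo 0 L, ∀ ε > 0, ∃ δ > 0, ∃ N : ℕ, ∀ n ≥ N, ∀ x' ∈ Ioo 0 M,
    |x' - x| < δ → |Cn n x' y - Cn n x y| ≤ ε
  equi2 : ∀ x ∈ Ioo 0 M, ∀ y ∈ Icc 0 L, ∀ ε > 0, ∃ δ > 0, ∃ N : ℕ, ∀ n ≥ N, ∀ y' ∈ Icc 0 L,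
    |y' - y| < δ → |Cn n x y' - Cn n x y| ≤ ε
  zero : ∀ x ∈ Ioo 0 M, Tendsto (fun n => Cn n x 0) atTop (𝓝 0)
  one : ∀ x ∈ Ioo 0 M, Tendsto (fun n => Cn n x L) atTop (𝓝 1)

/-- The properties pass to subsequences. -/
theorem CrossSeq.comp {M L : ℝ} {Cn : ℕ → ℝ → ℝ → ℝ} (h : CrossSeq M L Cn) {φ : ℕ → ℕ}
    (hφ : Tendsto φ atTop atTop) : CrossSeq M L (fun k => Cn (φ k)) where
  nonneg n := h.nonneg (φ n)
  le_one n := h.le_one (φ n)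
  mono1 n := h.mono1 (φ n)
  mono2 n := h.mono2 (φ n)
  equi1 x hx y hy ε hε := by
    obtain ⟨δ, hδ, N, hN⟩ := h.equi1 x hx y hy ε hε
    obtain ⟨K, hK⟩ := (hφ.eventually_ge_atTop N).exists_forall_of_atTop
    exact ⟨δ, hδ, K, fun k hk x' hx' hd => hN (φ k) (hK k hk) x' hx' hd⟩
  equi2 x hx y hy ε hε := by
    obtain ⟨δ, hδ, N, hN⟩ := h.equi2 x hx y hy ε hε
    obtain ⟨K, hK⟩ := (hφ.eventually_ge_atTop N).exists_forall_of_atTop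
    exact ⟨δ, hδ, K, fun k hk x' hx' hd => hN (φ k) (hK k hk) x' hx' hd⟩
  zero x hx := (h.zero x hx).comp hφ
  one x hx := (h.one x hx).comp hφ

/-- A bounded sequence of functions on a countable type has a pointwise convergent subsequence. -/
theorem exists_subseq_countable {ι : Type} [Countable ι] (f : ℕ → ι → ℝ)
    (hf : ∀ n i, f n i ∈ Icc (0 : ℝ) 1) :
    ∃ ξ : ℕ → ℕ, StrictMono ξ ∧ ∀ i, ∃ l, Tendsto (fun k => f (ξ k) i) atTop (𝓝 l) := by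
  have hK : IsCompact (Set.pi univ (fun _ : ι => Icc (0 : ℝ) 1)) :=
    isCompact_univ_pi fun _ => isCompact_Icc
  obtain ⟨l, -, ξ, hξ, hl⟩ := hK.tendsto_subseq (x := f) (fun n i _ => hf n i)
  exact ⟨ξ, hξ, fun i => ⟨l i, (tendsto_pi_nhds.1 hl) i⟩⟩

/-- **Compactness.** -/
theorem CrossSeq.exists_subseq {M L : ℝ} (hL : 0 < L) {Cn : ℕ → ℝ → ℝ → ℝ}
    (h : CrossSeq M L Cn) :
    ∃ ξ : ℕ → ℕ, StrictMono ξ ∧ ∃ C : ℝ → ℝ → ℝ,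
      (∀ x ∈ Ioo 0 M, ∀ y ∈ Icc 0 L, Tendsto (fun k => Cn (ξ k) x y) atTop (𝓝 (C x y))) ∧
      (∀ y ∈ Icc 0 L, MonotoneOn (fun x => C x y) (Ioo 0 M)) ∧
      (∀ x ∈ Ioo 0 M, MonotoneOn (C x) (Icc 0 L)) ∧
      (∀ x ∈ Ioo 0 M, ContinuousOn (C x) (Icc 0 L)) ∧
      (∀ x ∈ Ioo 0 M, C x 0 = 0) ∧ (∀ x ∈ Ioo 0 M, C x L = 1) := by
  classical
  obtain ⟨ξ, hξ, hl⟩ := exists_subseq_countable
    (fun n (p : {q : ℚ × ℚ // (q.1 : ℝ) ∈ Ioo 0 M ∧ (q.2 : ℝ) ∈ Ioo 0 L}) =>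
      Cn n (p.1.1 : ℝ) (p.1.2 : ℝ))
    (fun n p => ⟨h.nonneg n _ p.2.1 _ (Ioo_subset_Icc_self p.2.2),
      h.le_one n _ p.2.1 _ (Ioo_subset_Icc_self p.2.2)⟩)
  have hξt := hξ.tendsto_atTop
  have hs := h.comp hξt
  -- convergence at every point
  have hconv : ∀ x ∈ Ioo 0 M, ∀ y ∈ Icc 0 L,
      ∃ l, Tendsto (fun k => Cn (ξ k) x y) atTop (𝓝 l) := by
    intro x hx y hy
    apply cauchySeq_tendsto_of_complete
    rw [Metric.cauchySeq_iff]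
    intro ε hε
    obtain ⟨δ, hδ, N, hN⟩ := hs.equi2 x hx y hy (ε / 6) (by positivity)
    -- a rational `y'` in `(0, L)` close to `y`
    obtain ⟨y', hy'1, hy'2⟩ : ∃ y' : ℚ, (y' : ℝ) ∈ Ioo 0 L ∧ |(y' : ℝ) - y| < δ := by
      have h1 : max 0 (y - δ) < min L (y + δ) := by
        apply max_lt
        · exact lt_min hL (by linarith [hy.1])
        · exact lt_min (by linarith [hy.2]) (by linarith)
      obtain ⟨q, hq1, hq2⟩ := exists_rat_btwn h1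
      have a1 := (max_lt_iff.1 hq1)
      have a2 := (lt_min_iff.1 hq2)
      refine ⟨q, ⟨a1.1, a2.1⟩, ?_⟩
      rw [abs_lt]
      constructor <;> linarith [a1.2, a2.2]
    obtain ⟨δ', hδ', N', hN'⟩ := hs.equi1 x hx y' hy'1 (ε / 6) (by positivity)
    obtain ⟨x', hx'1, hx'2⟩ : ∃ x' : ℚ, (x' : ℝ) ∈ Ioo 0 M ∧ |(x' : ℝ) - x| < δ' := by
      have h1 : max 0 (x - δ') < min M (x + δ') := by
        apply max_lt
        · exact lt_min (hx.1.trans hx.2) (by linarith [hx.1])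
        · exact lt_min (by linarith [hx.2]) (by linarith)
      obtain ⟨q, hq1, hq2⟩ := exists_rat_btwn h1
      have a1 := (max_lt_iff.1 hq1)
      have a2 := (lt_min_iff.1 hq2)
      refine ⟨q, ⟨a1.1, a2.1⟩, ?_⟩
      rw [abs_lt]
      constructor <;> linarith [a1.2, a2.2]
    obtain ⟨l, hl'⟩ := hl ⟨(x', y'), hx'1, hy'1⟩
    have hcs := hl'.cauchySeq
    rw [Metric.cauchySeq_iff] at hcs
    obtain ⟨N'', hN''⟩ := hcs (ε / 6) (by positivity)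
    refine ⟨max N (max N' N''), fun m hm n hn => ?_⟩
    have hm1 : m ≥ N := (le_max_left _ _).trans hm
    have hm2 : m ≥ N' := ((le_max_left _ _).trans (le_max_right _ _)).trans hm
    have hm3 : m ≥ N'' := ((le_max_right _ _).trans (le_max_right _ _)).trans hm
    have hn1 : n ≥ N := (le_max_left _ _).trans hn
    have hn2 : n ≥ N' := ((le_max_left _ _).trans (le_max_right _ _)).trans hn
    have hn3 : n ≥ N'' := ((le_max_right _ _).trans (le_max_right _ _)).trans hn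
    have b1 := hN m hm1 y' (Ioo_subset_Icc_self hy'1) hy'2
    have b2 := hN n hn1 y' (Ioo_subset_Icc_self hy'1) hy'2
    have b3 := hN' m hm2 x' hx'1 hx'2
    have b4 := hN' n hn2 x' hx'1 hx'2
    have b5 := hN'' m hm3 n hn3
    simp only [Real.dist_eq] at b5 ⊢
    rw [abs_le] at b1 b2 b3 b4
    rw [abs_lt] at b5 ⊢
    constructor <;> linarith [b1.1, b1.2, b2.1, b2.2, b3.1, b3.2, b4.1, b4.2, b5.1, b5.2]
  choose! C hC using hconv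
  have h0M : ∀ {x : ℝ}, x ∈ Ioo 0 M → (0 : ℝ) ∈ Icc 0 L ∧ L ∈ Icc 0 L := fun _ =>
    ⟨⟨le_refl _, hL.le⟩, ⟨hL.le, le_refl _⟩⟩
  refine ⟨ξ, hξ, C, hC, ?_, ?_, ?_, ?_, ?_⟩
  · intro y hy x hx x' hx' hxx
    exact le_of_tendsto_of_tendsto' (hC x hx y hy) (hC x' hx' y hy)
      (fun k => hs.mono1 k y hy hx hx' hxx)
  · intro x hx y hy y' hy' hyy
    exact le_of_tendsto_of_tendsto' (hC x hx y hy) (hC x hx y' hy')
      (fun k => hs.mono2 k x hx hy hy' hyy)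
  · intro x hx
    rw [Metric.continuousOn_iff]
    intro y hy ε hε
    obtain ⟨δ, hδ, N, hN⟩ := hs.equi2 x hx y hy (ε / 2) (by positivity)
    refine ⟨δ, hδ, fun y' hy' hd => ?_⟩
    rw [Real.dist_eq] at hd ⊢
    have h1 : |C x y' - C x y| ≤ ε / 2 := by
      refine le_of_tendsto ((hC x hx y' hy').sub (hC x hx y hy)).abs ?_
      filter_upwards [eventually_ge_atTop N] with k hk
      exact hN k hk y' hy' hd
    linarith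
  · intro x hx
    exact tendsto_nhds_unique (hC x hx 0 (h0M hx).1) (hs.zero x hx)
  · intro x hx
    exact tendsto_nhds_unique (hC x hx L (h0M hx).2) (hs.one x hx)

/-- **Assembly.** Crossing probabilities converge as soon as every limit along a subsequence satisfies the
two relations, in mean value form, with functions `s Θ`, `s Θ'` for some `s`, and has the exponent
`1/3`. -/
theorem CrossSeq.tendsto {E F : Set ℝ} {M δ L : ℝ} (hδ : 0 < δ) (hL : 0 < L) (hδM : δ ≤ M)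
    (hδE : Disjoint (Ioo 0 δ) E) (hF : F.Finite) {Θ Θ' θ θ' : ℝ → ℝ → ℝ}
    (hθ : ∀ x ∈ Ioo 0 δ, ∀ y ∈ Ioo 0 L \ F, HasDerivAt (fun x => Θ x y) (θ x y) x)
    (hθc : ContinuousOn (fun p : ℝ × ℝ => θ p.1 p.2) (Ioo 0 δ ×ˢ (Ioo 0 L \ F)))
    (hΘc : ∀ x ∈ Ioo 0 M \ E, ContinuousOn (Θ x) (Ioo 0 L \ F))
    (hΘ' : ∀ y ∈ Ioo 0 L \ F, ContinuousOn (fun x => Θ' x y) (Ioo 0 δ))
    (hθ' : ∀ x ∈ Ioo 0 δ, ∀ y ∈ Ioo 0 L \ F, HasDerivAt (Θ' x) (θ' x y) y)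
    (hne : ∀ y ∈ Ioo 0 L \ F, ∃ η > 0, ∀ x ∈ Ioo 0 η, θ x y ≠ 0)
    {x x' y0 B : ℝ} (hy0 : 0 < y0) (hyV : Ioc 0 y0 ⊆ Ioo 0 L \ F)
    (hB : ∀ t ∈ Icc x x', ∀ y ∈ Ioc 0 y0, |Θ' t y - Real.log y| ≤ B)
    {Cn : ℕ → ℝ → ℝ → ℝ} (hseq : CrossSeq M L Cn)
    (hrel : ∀ (φ : ℕ → ℕ) (C : ℝ → ℝ → ℝ), StrictMono φ →
      (∀ u ∈ Ioo 0 M, ∀ y ∈ Icc 0 L, Tendsto (fun k => Cn (φ k) u y) atTop (𝓝 (C u y))) →
      (∀ u ∈ Ioo 0 M, ContinuousOn (C u) (Icc 0 L)) →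
      (∀ u ∈ Ioo 0 M, MonotoneOn (C u) (Icc 0 L)) →
      (∀ y ∈ Icc 0 L, MonotoneOn (fun u => C u y) (Ioo 0 M)) →
      ∃ s : ℝ,
        (∀ u ∈ Ioo 0 M \ E, ∀ u' ∈ Ioo 0 M \ E, ∀ y y' : ℝ, y < y' →
          Icc y y' ⊆ Ioo 0 L \ F → ∃ ξ ∈ Icc y y',
          C u' y' - C u' y = Real.exp (s * Θ u' ξ - s * Θ u ξ) * (C u y' - C u y)) ∧
        (∀ y ∈ Ioo 0 L \ F, ∀ y' ∈ Ioo 0 L \ F, ∀ u u' : ℝ, u < u' →
          Icc u u' ⊆ Ioo 0 M \ E → ∃ ξ ∈ Icc u u',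
          C u' y' - C u y' = Real.exp (s * Θ' ξ y' - s * Θ' ξ y) * (C u' y - C u y)) ∧
        ArmThird δ C x x' y0) :
    ∃ C : ℝ → ℝ → ℝ, CrossLim (Ioo 0 M \ E) (Ioo 0 L \ F) δ L (fun x y => 1 / 3 * Θ x y)
      (fun x y => 1 / 3 * Θ' x y) C ∧
      ∀ u ∈ Ioo 0 M \ E, ∀ y ∈ Icc 0 L, Tendsto (fun n => Cn n u y) atTop (𝓝 (C u y)) := by
  refine CrossLim.tendsto (U := Ioo 0 M \ E) hδ hL
    (fun x hx => ⟨Ioo_subset_Ioo_right hδM hx, fun hxE => Set.disjoint_left.1 hδE hx hxE⟩)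
    hF rfl hθ hθc hΘc hΘ' hθ' hne hy0 hyV hB ?_
  intro φ hφ
  obtain ⟨ξ, hξ, C, hC, hm1, hm2, hc, h0, h1⟩ :=
    (hseq.comp hφ.tendsto_atTop).exists_subseq hL
  obtain ⟨s, hr1, hr2, hA⟩ := hrel (φ ∘ ξ) C (hφ.comp hξ) hC hc hm2 hm1
  refine ⟨ξ, hξ, s, C, ?_, hA, fun u hu y hy => hC u hu.1 y hy⟩
  exact CrossLim.of_mean hδM hδE hr1 hr2
    (fun y hy => hm1 y (Ioo_subset_Icc_self hy.1)) (fun x hx => hm2 x hx.1)
    (fun x hx => hc x hx.1) (fun x hx => h0 x hx.1) (fun x hx => h1 x hx.1)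

end Pool.Agent.SixB
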