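import Pool.Agent.Lib.SixB.S7TopB

/-!
# Duality between two arcs of a contour
-/

set_option autoImplicit false

namespace Pool.Agent.SixB

open Finset Pool.Agent.Perc Pool.Agent.Perc6

variable {F : Finset (ℤ × ℤ)} {m : ℕ} {w : ℕ → ℤ × ℤ}

/-- A sum over an interval of a function with values in `ZMod 2` which is invariant under an
involution without fixed points. -/
theorem sum_invol_fun (s : Finset ℕ) (τ : ℕ → ℕ) (g : ℕ → ZMod 2)
    (h : ∀ i ∈ s, τ i ∈ s ∧ τ i ≠ i ∧ τ (τ i) = i ∧ g (τ i) = g i) : ∑ i ∈ s, g i = 0 :=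
  Finset.sum_involution (fun a _ => τ a) (fun a ha => by rw [(h a ha).2.2.2]; exact z2_add_self _)
    (fun a ha _ => (h a ha).2.1) (fun a ha => (h a ha).1) (fun a ha => (h a ha).2.2.1)

/-- Summation by parts around the vertices of the contour. -/
theorem sum_regroup (χ η : ℕ → ZMod 2) (m : ℕ) :
    ∑ i ∈ Ico 0 m, (χ i * η (i + 1) + χ (i + 1) * η i) =
      ∑ i ∈ Ico 1 m, η i * (χ (i - 1) + χ (i + 1)) +
        (if 0 < m then χ (m - 1) * η m + χ 1 * η 0 else 0) := by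
  induction m with
  | zero => simp
  | succ m ih =>
    rw [Finset.sum_Ico_succ_top (Nat.zero_le m), ih]
    rcases Nat.eq_zero_or_pos m with rfl | hm
    · simp
    · rw [Finset.sum_Ico_succ_top (by omega : 1 ≤ m), if_pos hm, if_pos (Nat.succ_pos m)]
      simp only [Nat.add_sub_cancel]
      have h1 := z2_add_self (χ (m - 1) * η m)
      linear_combination (0 : ZMod 2) * h1

theorem sum_two (χ : ℕ → ZMod 2) {a n : ℕ} (ha : 1 ≤ a) (hn : a ≤ n + 1) :
    ∑ k ∈ Ico a (n + 1), (χ (k - 1) + χ (k + 1)) = χ (a - 1) + χ a + χ n + χ (n + 1) := by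
  have key : ∀ l : ℕ, ∑ k ∈ Ico a (a + l), (χ (k - 1) + χ (k + 1)) =
      χ (a - 1) + χ a + χ (a + l - 1) + χ (a + l) := by
    intro l
    induction l with
    | zero =>
      have h1 := z2_add_self (χ (a - 1))
      have h2 := z2_add_self (χ a)
      simp only [add_zero, Finset.Ico_self, Finset.sum_empty]
      linear_combination -h1 - h2
    | succ l ih =>
      rw [← add_assoc, Finset.sum_Ico_succ_top (by omega : a ≤ a + l), ih]
      have h1 := z2_add_self (χ (a + l - 1))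
      rw [show a + l + 1 - 1 = a + l by omega]
      linear_combination h1
  have h := key (n + 1 - a)
  rw [show a + (n + 1 - a) = n + 1 by omega] at h
  rw [h]
  simp only [Nat.add_sub_cancel]

/-- (Du) for two arcs `[a₀, a₁]`, `[b₀, b₁]`. -/
theorem arc_du (h : Ctr (F : Set (ℤ × ℤ)) m w) (ω : Cfg) {a₀ a₁ b₀ b₁ : ℕ} (h0 : a₀ ≤ a₁)
    (h1 : a₁ < b₀) (h2 : b₀ ≤ b₁) (h3 : b₁ ≤ m) {c : ℤ} (hc : c = 0 ∨ c = 1)
    (hno : ∀ i, a₀ ≤ i → i ≤ a₁ → par (w i) = c → ∀ k, b₀ ≤ k → k ≤ b₁ →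
      ¬ Conn ω F (w i) (w k)) :
    ∃ b b', a₁ ≤ b ∧ b ≤ b₀ ∧ (b' ≤ a₀ ∨ b₁ ≤ b') ∧ b' ≤ m ∧ par (w b) ≠ c ∧
      Conn ω F (w b) (w b') := by
  classical
  by_contra hcon
  have hneg : ∀ b b', a₁ ≤ b → b ≤ b₀ → (b' ≤ a₀ ∨ b₁ ≤ b') → b' ≤ m → par (w b) ≠ c →
      ¬ Conn ω F (w b) (w b') := fun b b' k1 k2 k3 k4 k5 k6 => hcon ⟨b, b', k1, k2, k3, k4, k5, k6⟩
  rcases Nat.eq_or_lt_of_le h0 with heq | hlt
  · -- a single vertex
    subst heq
    have hpa : par (w a₀) = c := by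
      by_contra hne
      exact hneg a₀ a₀ le_rfl h1.le (Or.inl le_rfl) (by omega) hne Relation.ReflTransGen.refl
    obtain ⟨b, b', k1, k2, k3, k4, k5, k6⟩ := ctr_du h ω h1 h2 h3 (hno a₀ le_rfl le_rfl hpa)
    exact hneg b b' k1.le k2 (by omega) k4 (by rw [← hpa]; exact k5) k6
  obtain ⟨τ, hτ⟩ := exists_match h ω
  set Cc : ℤ × ℤ → Prop := fun v => ∃ i, a₀ ≤ i ∧ i ≤ a₁ ∧ par (w i) = c ∧ Conn ω F (w i) v with hCc
  set Yy : ℤ × ℤ → Prop := fun v => ∃ b, a₁ ≤ b ∧ b ≤ b₀ ∧ par (w b) ≠ c ∧ Conn ω F (w b) v with hYy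
  set χ : ℕ → ZMod 2 := fun k => if Cc (w k) then 1 else 0 with hχ
  set η : ℕ → ZMod 2 := fun k => if Yy (w k) then 1 else 0 with hη
  have Cpar : ∀ v, Cc v → par v = c := by
    rintro v ⟨i, -, -, k3, k4⟩
    rw [← k3]; exact k4.par_eq.symm
  have Ypar : ∀ v, Yy v → par v ≠ c := by
    rintro v ⟨i, -, -, k3, k4⟩
    rw [← k4.par_eq]; exact k3
  have χ0 : ∀ k, par (w k) ≠ c → χ k = 0 := fun k hk => if_neg fun hh => hk (Cpar _ hh)
  have η0 : ∀ k, par (w k) = c → η k = 0 := fun k hk => if_neg fun hh => Ypar _ hh hk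
  have χA : ∀ k, a₀ ≤ k → k ≤ a₁ → par (w k) = c → χ k = 1 := fun k k1 k2 k3 =>
    if_pos ⟨k, k1, k2, k3, Relation.ReflTransGen.refl⟩
  have χB : ∀ k, b₀ ≤ k → k ≤ b₁ → χ k = 0 := fun k k1 k2 => if_neg (by
    rintro ⟨i, l1, l2, l3, l4⟩
    exact hno i l1 l2 l3 k k1 k2 l4)
  have ηR : ∀ k, a₁ ≤ k → k ≤ b₀ → par (w k) ≠ c → η k = 1 := fun k k1 k2 k3 =>
    if_pos ⟨k, k1, k2, k3, Relation.ReflTransGen.refl⟩
  have ηL : ∀ k, (k ≤ a₀ ∨ b₁ ≤ k) → k ≤ m → η k = 0 := fun k k1 k2 => if_neg (by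
    rintro ⟨i, l1, l2, l3, l4⟩
    exact hneg i k l1 l2 k1 k2 l3 l4)
  have Csymm : ∀ u v, Conn ω F u v → Cc u → Cc v := by
    rintro u v huv ⟨i, k1, k2, k3, k4⟩
    exact ⟨i, k1, k2, k3, conn_trans k4 huv⟩
  have Ysymm : ∀ u v, Conn ω F u v → Yy u → Yy v := by
    rintro u v huv ⟨i, k1, k2, k3, k4⟩
    exact ⟨i, k1, k2, k3, conn_trans k4 huv⟩
  set g : ℕ → ZMod 2 := fun i => χ i * η (i + 1) + χ (i + 1) * η i with hg
  -- the value of `g` in terms of the ends of the edge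
  have gval : ∀ i < m, ∀ e, Joins e (w i) (w (i + 1)) → ∃ u v, Joins e u v ∧ par u = c ∧ par v ≠ c ∧
      g i = (if Cc u then 1 else 0) * (if Yy v then 1 else 0) := by
    intro i hi e he
    have hp := par_ne_succ h hi
    have p1 := par_cases (w i)
    have p2 := par_cases (w (i + 1))
    by_cases hpi : par (w i) = c
    · refine ⟨w i, w (i + 1), he, hpi, by omega, ?_⟩
      simp only [hg, χ0 (i + 1) (by omega), zero_mul, add_zero]
      rfl
    · have hpi' : par (w (i + 1)) = c := by omega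
      refine ⟨w (i + 1), w i, he.symm, hpi', hpi, ?_⟩
      simp only [hg, χ0 i hpi, zero_mul, zero_add]
      rfl
  have hS0 : ∑ i ∈ Ico 0 m, g i = 0 := by
    refine sum_invol_fun _ τ g fun i hi => ?_
    rw [Finset.mem_Ico] at hi
    obtain ⟨k1, k2, k3, k4⟩ := hτ i hi.2
    refine ⟨Finset.mem_Ico.2 ⟨Nat.zero_le _, k1⟩, k2, k3, ?_⟩
    obtain ⟨e, -, hj⟩ := h.step i hi.2
    obtain ⟨e', -, hj'⟩ := h.step _ k1
    have hmm := (k4 e hj).1 e' hj'
    obtain ⟨u, v, ju, pu, pv, hgu⟩ := gval i hi.2 e hj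
    obtain ⟨u', v', ju', pu', pv', hgu'⟩ := gval _ k1 e' hj'
    have q1 := par_cases v
    have q2 := par_cases v'
    have c1 : Conn ω F u u' := mm_ends ju ju' hmm (by omega)
    have c2 : Conn ω F v v' := mm_ends ju.symm ju'.symm hmm (by omega)
    have i1 : Cc u ↔ Cc u' := ⟨Csymm _ _ c1, Csymm _ _ (conn_symm c1)⟩
    have i2 : Yy v ↔ Yy v' := ⟨Ysymm _ _ c2, Ysymm _ _ (conn_symm c2)⟩
    rw [hgu, hgu']
    simp only [i1, i2]
  have hm : 0 < m := by omega
  have hS1 := sum_regroup χ η m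
  rw [if_pos hm, ηL 0 (Or.inl (Nat.zero_le _)) (Nat.zero_le _), ηL m (Or.inr h3) le_rfl, mul_zero,
    mul_zero, add_zero, add_zero] at hS1
  -- the terms around the vertices
  have hterm : ∀ k ∈ Ico 1 m, η k * (χ (k - 1) + χ (k + 1)) =
      if a₁ ≤ k ∧ k ≤ b₀ then χ (k - 1) + χ (k + 1) else 0 := by
    intro k hk
    rw [Finset.mem_Ico] at hk
    have p0 := par_ne_succ h (i := k - 1) (by omega)
    rw [Nat.sub_add_cancel hk.1] at p0
    have p1 := par_ne_succ h hk.2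
    have q0 := par_cases (w (k - 1))
    have q1 := par_cases (w k)
    have q2 := par_cases (w (k + 1))
    split_ifs with hr
    · by_cases hp : par (w k) = c
      · rw [χ0 (k - 1) (by omega), χ0 (k + 1) (by omega)]; simp
      · rw [ηR k hr.1 hr.2 hp, one_mul]
    · rw [not_and_or, not_le, not_le] at hr
      rcases hr with hr | hr
      · by_cases hka : k ≤ a₀
        · rw [ηL k (Or.inl hka) hk.2.le, zero_mul]
        · by_cases hp : par (w k) = c
          · rw [η0 k hp, zero_mul]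
          · rw [χA (k - 1) (by omega) (by omega) (by omega), χA (k + 1) (by omega) (by omega) (by omega)]
            rw [z2_add_self, mul_zero]
      · by_cases hkb : b₁ ≤ k
        · rw [ηL k (Or.inr hkb) hk.2.le, zero_mul]
        · rw [χB (k - 1) (by omega) (by omega), χB (k + 1) (by omega) (by omega)]; simp
  rw [Finset.sum_congr rfl hterm, ← Finset.sum_filter] at hS1
  have hfil : (Ico 1 m).filter (fun k => a₁ ≤ k ∧ k ≤ b₀) = Ico a₁ (min b₀ (m - 1) + 1) := by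
    ext k
    simp only [Finset.mem_filter, Finset.mem_Ico]
    omega
  have hb01 : b₀ = b₁ → par (w b₀) = c := by
    intro hbb
    by_contra hne
    exact hneg b₀ b₀ h1.le le_rfl (Or.inr hbb.ge) (by omega) hne Relation.ReflTransGen.refl
  have hA1 : χ (a₁ - 1) + χ a₁ = 1 := by
    have p0 := par_ne_succ h (i := a₁ - 1) (by omega)
    rw [Nat.sub_add_cancel (by omega : 1 ≤ a₁)] at p0
    have q0 := par_cases (w (a₁ - 1))
    have q1 := par_cases (w a₁)
    by_cases hp : par (w a₁) = c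
    · rw [χA a₁ h0 le_rfl hp, χ0 (a₁ - 1) (by omega)]; decide
    · rw [χ0 a₁ hp, χA (a₁ - 1) (by omega) (by omega) (by omega)]; decide
  have hB1 : χ (min b₀ (m - 1)) + χ (min b₀ (m - 1) + 1) = 0 := by
    rcases Nat.lt_or_ge b₀ m with hbm | hbm
    · rw [min_eq_left (by omega), χB b₀ le_rfl h2, zero_add]
      rcases Nat.eq_or_lt_of_le h2 with hbb | hbb
      · have p0 := par_ne_succ h hbm
        exact χ0 _ (by have := hb01 hbb; omega)
      · exact χB _ (by omega) (by omega)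
    · have hbm' : b₀ = m := by omega
      rw [min_eq_right (by omega), Nat.sub_add_cancel (by omega : 1 ≤ m), ← hbm', χB b₀ le_rfl h2,
        add_zero]
      have p0 := par_ne_succ h (i := m - 1) (by omega)
      rw [Nat.sub_add_cancel (by omega : 1 ≤ m)] at p0
      rw [hbm']
      apply χ0
      have := hb01 (by omega)
      rw [hbm'] at this
      omega
  rw [hfil, sum_two χ (by omega) (by omega)] at hS1
  rw [hS0] at hS1
  have : (0 : ZMod 2) = 1 := by
    calc (0 : ZMod 2) = χ (a₁ - 1) + χ a₁ + χ (min b₀ (m - 1)) + χ (min b₀ (m - 1) + 1) := hS1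
      _ = (χ (a₁ - 1) + χ a₁) + (χ (min b₀ (m - 1)) + χ (min b₀ (m - 1) + 1)) := by ring
      _ = 1 := by rw [hA1, hB1, add_zero]
  exact absurd this (by decide)

/-- (NC) for two arcs: connections of different parities between opposite arcs are impossible. -/
theorem arc_nc (h : Ctr (F : Set (ℤ × ℤ)) m w) (ω : Cfg) {a₀ a₁ b₀ b₁ i k b b' : ℕ}
    (h1 : a₁ < b₀) (h3 : b₁ ≤ m) (hi0 : a₀ ≤ i) (hi1 : i ≤ a₁)
    (hk0 : b₀ ≤ k) (hk1 : k ≤ b₁) (hik : Conn ω F (w i) (w k)) (hb0 : a₁ ≤ b) (hb1 : b ≤ b₀)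
    (hb' : b' ≤ a₀ ∨ b₁ ≤ b') (hbm : b' ≤ m) (hp : par (w b) ≠ par (w i))
    (hbb : Conn ω F (w b) (w b')) : False := by
  have n1 : b ≠ i := by rintro rfl; exact hp rfl
  have n2 : b ≠ k := by rintro rfl; exact hp hik.par_eq.symm
  have n3 : b' ≠ i := by rintro rfl; exact hp hbb.par_eq
  have n4 : b' ≠ k := by rintro rfl; exact hp (hbb.par_eq.trans hik.par_eq.symm)
  exact ctr_nc h ω (t := i) (a := k) (b := b) (b' := b') (by omega) (by omega) (by omega) (by omega)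
    hbm hp hik hbb

end Pool.Agent.SixB
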