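import Pool.Agent.Lib.MP_6bd702_z.Z032
import Pool.Agent.Lib.MP_6bd702_z.Z034

/-!
# Step 8: fresh crossings off a stopping set

Let `S` be a stopping set, `A` an event decided by `S`, and let a centre `z`, a radius `r` and a colour
be given as functions of the stopped configuration.

* `pr_noBlk_stop`: if `X` forces that the resampled configuration has no blocking circuit of one colour
  in `n` annuli around `z`, then `P(A ∩ X) ≤ θ ^ n P(A)`.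
* `pr_freshArm_stop`: the probability of `A` together with a path of the colour by faces of the window
  outside of `S` from the box of radius `r` around `z` to distance `4 ^ n r` is at most `θ ^ n P(A)`.

The window is arbitrary: no half plane estimates are needed near walls.
-/

set_option autoImplicit false

namespace Pool.Agent.SixB

open Finset Pool.Agent.Perc Pool.Agent.PercT

/-- No blocking circuit at the scales `4 ^ l * r`, `l < n`. -/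
def NoBlk (col : ℤ) (p : ℤ × ℤ) (r : ℤ) (n : ℕ) : Set Cfg :=
  {ω | ∀ l < n, ω ∉ Blk col p (4 ^ l * r)}

theorem noBlk_succ (col : ℤ) (p : ℤ × ℤ) (r : ℤ) (n : ℕ) :
    NoBlk col p r (n + 1) = NoBlk col p r n ∩ (Blk col p (4 ^ n * r))ᶜ := by
  ext ω
  simp only [NoBlk, Set.mem_ofPred_eq, Set.mem_inter_iff, Set.mem_compl_iff]
  constructor
  · intro h
    exact ⟨fun l hl => h l (by omega), h n (by omega)⟩
  · rintro ⟨h1, h2⟩ l hl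
    rcases Nat.lt_succ_iff_lt_or_eq.1 hl with h3 | rfl
    · exact h1 l h3
    · exact h2

theorem RFb_mono {p : ℤ × ℤ} {R R' : ℤ} (h : R ≤ R') : RFb p R ⊆ RFb p R' := by
  intro f hf
  rw [mem_RFb] at hf ⊢
  omega

theorem depOn_noBlk {col : ℤ} {p : ℤ × ℤ} {r : ℤ} (hr : 0 < r) (n : ℕ) :
    DepOn (RFb p (4 ^ n * r) : Set (ℤ × ℤ)) (NoBlk col p r n) := by
  intro ω ω' h
  have key : ∀ l < n, (ω ∉ Blk col p (4 ^ l * r) ↔ ω' ∉ Blk col p (4 ^ l * r)) := by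
    intro l hl
    refine not_congr (depOn_Blk (col := col) (p := p) (r := 4 ^ l * r) (by positivity) ω ω' ?_)
    intro f hf
    refine h f ?_
    have h1 : (4 : ℤ) ^ (l + 1) ≤ 4 ^ n := pow_le_pow_right₀ (by norm_num) hl
    have h2 : 4 * (4 ^ l * r) ≤ 4 ^ n * r := by
      have : 4 * (4 ^ l * r) = 4 ^ (l + 1) * r := by ring
      rw [this]
      exact mul_le_mul_of_nonneg_right h1 hr.le
    exact RFb_mono h2 (mem_sdiff.1 (mem_coe.1 hf)).1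
  exact forall₂_congr key

/-- **No blocking circuit in `n` annuli.** -/
theorem pr_noBlk : ∃ θ : ℝ, 0 < θ ∧ θ < 1 ∧ ∀ (col : ℤ) (p : ℤ × ℤ) (r : ℤ) (n : ℕ)
    (W : Finset (ℤ × ℤ)), 0 < r → RFb p (4 ^ n * r) ⊆ W → pr W (NoBlk col p r n) ≤ θ ^ n := by
  obtain ⟨c, hc, h⟩ := pr_Blk
  refine ⟨max (1 - c) (1 / 2), by positivity, max_lt (by linarith) (by norm_num), ?_⟩
  set θ := max (1 - c) (1 / 2) with hθ
  intro col p r n W hr hW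
  rw [pr_eq_of_depOn (depOn_noBlk hr n) hW]
  clear hW
  induction n with
  | zero => simpa using pr_le_one _ _
  | succ n ih =>
    obtain ⟨ρ, hρ⟩ : ∃ ρ : ℤ, ρ = 4 ^ n * r := ⟨_, rfl⟩
    have hρ0 : 0 < ρ := by rw [hρ]; positivity
    have e : 4 ^ (n + 1) * r = 4 * ρ := by rw [hρ, pow_succ]; ring
    rw [← hρ] at ih
    rw [e, noBlk_succ, ← hρ, pow_succ]
    have hu : RFb p (4 * ρ) = RFb p ρ ∪ (RFb p (4 * ρ) \ RFb p ρ) := by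
      rw [union_sdiff_of_subset (RFb_mono (by omega))]
    have hd : DepOn (RFb p ρ : Set (ℤ × ℤ)) (NoBlk col p r n) := by
      rw [hρ]
      exact depOn_noBlk hr n
    rw [hu, pr_inter_of_disjoint hd (depOn_compl (depOn_Blk hρ0)) disjoint_sdiff, pr_compl]
    have h2 := h col p ρ (RFb p (4 * ρ) \ RFb p ρ) hρ0 (Subset.refl _)
    have h3 : 1 - pr (RFb p (4 * ρ) \ RFb p ρ) (Blk col p ρ) ≤ θ := by
      have := le_max_left (1 - c) (1 / 2 : ℝ)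
      linarith
    refine mul_le_mul ih h3 ?_ (by positivity)
    have := pr_le_one (RFb p (4 * ρ) \ RFb p ρ) (Blk col p ρ)
    linarith

/-- **Resampled configuration without blocking circuits.** -/
theorem pr_noBlk_stop : ∃ θ : ℝ, 0 < θ ∧ θ < 1 ∧ ∀ (W : Finset (ℤ × ℤ)) (S : Cfg → Set (ℤ × ℤ)),
    (∀ ω ω' : Cfg, (∀ f ∈ S ω, ω f = ω' f) → S ω' = S ω) → ∀ A : Set Cfg,
    (∀ ω ∈ A, ∀ ω' : Cfg, (∀ f ∈ S ω, ω f = ω' f) → ω' ∈ A) →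
    ∀ (col r : Cfg → ℤ) (z : Cfg → ℤ × ℤ) (n : ℕ) (X : Set Cfg), (∀ ω ∈ A, 0 < r ω) →
    (∀ ω ∈ A, RFb (z ω) (4 ^ n * r ω) ⊆ W) →
    (∀ ω ∈ A, ∀ ξ : Cfg, mix (S ω) ω ξ ∈ X → ξ ∈ NoBlk (col ω) (z ω) (r ω) n) →
    pr W (A ∩ X) ≤ θ ^ n * pr W A := by
  obtain ⟨θ, h0, h1, h⟩ := pr_noBlk
  refine ⟨θ, h0, h1, ?_⟩
  intro W S hS A hA col r z n X hr hW hX
  exact pr_mix_le hS hA (fun ω => NoBlk (col ω) (z ω) (r ω) n) X
    (fun ω hω => h _ _ _ _ _ (hr ω hω) (hW ω hω)) hX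

/-- A path of colour `col` by faces of `F` from the box of radius `r` around `p` to distance `R`. -/
def FArm (col : ℤ) (F : Set (ℤ × ℤ)) (p : ℤ × ℤ) (r R : ℤ) : Set Cfg :=
  {ω | ∃ u v, p.1 - r ≤ u.1 ∧ u.1 ≤ p.1 + r ∧ p.2 - r ≤ u.2 ∧ u.2 ≤ p.2 + r ∧
    (u.1 + u.2 - col) % 2 = 0 ∧
    ¬(p.1 - R < v.1 ∧ v.1 < p.1 + R ∧ p.2 - R < v.2 ∧ v.2 < p.2 + R) ∧ Conn ω F u v}

theorem fArm_mono {col : ℤ} {F F' : Set (ℤ × ℤ)} {p : ℤ × ℤ} {r r' R R' : ℤ} (hF : F ⊆ F')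
    (h1 : r ≤ r') (h2 : R' ≤ R) : FArm col F p r R ⊆ FArm col F' p r' R' := by
  rintro ω ⟨u, v, a1, a2, a3, a4, a5, a6, a7⟩
  exact ⟨u, v, by omega, by omega, by omega, by omega, a5, fun h => a6 (by omega),
    Conn.mono hF a7⟩

theorem depOn_fArm (col : ℤ) (F : Set (ℤ × ℤ)) (p : ℤ × ℤ) (r R : ℤ) :
    DepOn F (FArm col F p r R) := by
  intro ω ω' h
  simp only [FArm, Set.mem_ofPred_eq, GridA.conn_iff _ h]

theorem fArm_subset_armB {col : ℤ} {F : Set (ℤ × ℤ)} {p : ℤ × ℤ} {r R : ℤ} (h : r ≤ R) :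
    FArm col F p r R ⊆ ArmB col p r R := by
  rintro ω ⟨u, v, a1, a2, a3, a4, a5, a6, a7⟩
  obtain ⟨w, hw, hw'⟩ := Conn.toBd (x₀ := p.1 - R) (x₁ := p.1 + R) (y₀ := p.2 - R)
    (y₁ := p.2 + R) a7 (by omega) a6
  exact ⟨u, w, a1, a2, a3, a4, a5, hw', Conn.mono Set.inter_subset_right hw⟩

/-- **Fresh arms, deterministic centre**: any window. -/
theorem pr_fArm : ∃ θ : ℝ, 0 < θ ∧ θ < 1 ∧ ∀ (col : ℤ) (p : ℤ × ℤ) (r : ℤ) (n : ℕ)
    (W : Finset (ℤ × ℤ)), 0 < r → pr W (FArm col (W : Set (ℤ × ℤ)) p r (4 ^ n * r)) ≤ θ ^ n := by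
  obtain ⟨θ, h0, h1, h⟩ := pr_ArmB_pow
  refine ⟨θ, h0, h1, ?_⟩
  intro col p r n W hr
  have hrR : r ≤ 4 ^ n * r := by
    have : (1 : ℤ) ≤ 4 ^ n := one_le_pow₀ (by norm_num)
    nlinarith
  rw [← pr_eq_of_depOn (depOn_fArm col (W : Set (ℤ × ℤ)) p r (4 ^ n * r))
    (subset_union_left (s₂ := RFb p (4 ^ n * r)))]
  refine (pr_mono _ (fArm_subset_armB hrR)).trans ?_
  rw [pr_eq_of_depOn (depOn_ArmB col p r (4 ^ n * r)) subset_union_right]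
  exact h col p r n hr

/-- **Fresh arms around a random centre.** -/
theorem pr_fArm_stop : ∃ θ : ℝ, 0 < θ ∧ θ < 1 ∧ ∀ (W : Finset (ℤ × ℤ)) (S : Cfg → Set (ℤ × ℤ)),
    (∀ ω ω' : Cfg, (∀ f ∈ S ω, ω f = ω' f) → S ω' = S ω) → ∀ A : Set Cfg,
    (∀ ω ∈ A, ∀ ω' : Cfg, (∀ f ∈ S ω, ω f = ω' f) → ω' ∈ A) →
    ∀ (col r : Cfg → ℤ) (z : Cfg → ℤ × ℤ) (n : ℕ), (∀ ω ∈ A, 0 < r ω) →
    (∀ ω ∈ A, ∀ ω' : Cfg, (∀ f ∈ S ω, ω f = ω' f) →
      col ω' = col ω ∧ r ω' = r ω ∧ z ω' = z ω) →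
    pr W (A ∩ {ω | ω ∈ FArm (col ω) ((W : Set (ℤ × ℤ)) \ S ω) (z ω) (r ω) (4 ^ n * r ω)}) ≤
      θ ^ n * pr W A := by
  obtain ⟨θ, h0, h1, h⟩ := pr_fArm
  refine ⟨θ, h0, h1, ?_⟩
  intro W S hS A hA col r z n hr hz
  refine pr_mix_le hS hA (fun ω => FArm (col ω) (W : Set (ℤ × ℤ)) (z ω) (r ω) (4 ^ n * r ω)) _
    (fun ω hω => h _ _ _ _ _ (hr ω hω)) ?_
  intro ω hω ξ hξ
  have hag : ∀ f ∈ S ω, ω f = mix (S ω) ω ξ f := fun f hf => (mix_of_mem hf).symm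
  obtain ⟨e1, e2, e3⟩ := hz ω hω _ hag
  have e4 := hS ω _ hag
  rw [Set.mem_ofPred_eq, e1, e2, e3, e4] at hξ
  have h5 : ∀ f ∈ (W : Set (ℤ × ℤ)) \ S ω, mix (S ω) ω ξ f = ξ f := fun f hf =>
    mix_of_notMem hf.2
  exact fArm_mono Set.sdiff_subset le_rfl le_rfl
    ((depOn_fArm (col ω) ((W : Set (ℤ × ℤ)) \ S ω) (z ω) (r ω) (4 ^ n * r ω) _ _ h5).1 hξ)

end Pool.Agent.SixB
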