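import Pool.Agent.Lib.SixB.S6K
import Pool.Agent.Lib.SixB.S8Arc
import Pool.Agent.Lib.SixB.S8Fresh

/-!
# Step 8: moving the junctions of a two arc crossing event

`CrE F b c i j k l`: the arcs `[i, j]` and `[k, l]` of the periodic contour `b` are joined by the colour `c`.

* `crE_dual`: its complement is the event `CrE F b (1 - c) j k l (i + m)`.
* `crE_move_i/j/k/l`: if a junction is moved over a piece of the contour, the event changes only if the
  piece is joined by `c` to the opposite arc and by `1 - c` to the other opposite arc.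
* `crE_sub_fArm`, `crE_sub_fArm_gate`: a piece inside a small box (or behind a gate inside a small box) which is
  joined to something far away (inner distance) makes an arm.
* `shift02_sum`, `shift13_sum`: all four junctions at once.
* `pr_shift`: the difference of the probabilities is at most `C (r / R) ^ α`.
-/

set_option autoImplicit false

namespace Pool.Agent.SixB

open Finset Pool.Agent.Perc Pool.Agent.Perc6

/-! ### Duality -/

section Dual
variable {F : Finset (ℤ × ℤ)} {m : ℕ} {b : ℤ → ℤ × ℤ} {c i j k l : ℤ} {ω : Cfg}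

/-- Connections of different colours between opposite arcs are impossible. -/
theorem crE_nc (h : CtrZ (F : Set (ℤ × ℤ)) m b) (hij : i ≤ j) (hjk : j ≤ k) (hkl : k ≤ l)
    (hli : l ≤ i + m) (h1 : ω ∈ CrE F b c i j k l) (h2 : ω ∈ CrE F b (1 - c) j k l (i + m)) :
    False := by
  obtain ⟨x, y, a1, a2, a3, a4, a5, a6⟩ := h1
  obtain ⟨x', y', b1, b2, b3, b4, b5, b6⟩ := h2
  have p1 := a6.par_eq
  have p2 := b6.par_eq
  have c1 := par_cases (b x)
  have c2 := par_cases (b x')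
  have n1 : x ≠ x' := by rintro rfl; omega
  have n2 : x' ≠ y := by rintro rfl; omega
  have n3 : y ≠ y' := by rintro rfl; omega
  have e : ∀ t : ℤ, i ≤ t → b (i + ((t - i).toNat : ℤ)) = b t := by
    intro t ht
    congr 1
    omega
  refine ctr_nc (h.ctr i) ω (t := (x - i).toNat) (b := (x' - i).toNat) (a := (y - i).toNat)
    (b' := (y' - i).toNat) (by omega) (by omega) (by omega) (Or.inr (by omega)) (by omega) ?_ ?_ ?_
  · show par (b (i + ((x' - i).toNat : ℤ))) ≠ par (b (i + ((x - i).toNat : ℤ)))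
    rw [e x' (by omega), e x (by omega)]
    omega
  · show Conn ω F (b (i + ((x - i).toNat : ℤ))) (b (i + ((y - i).toNat : ℤ)))
    rw [e y (by omega), e x (by omega)]
    exact a6
  · show Conn ω F (b (i + ((x' - i).toNat : ℤ))) (b (i + ((y' - i).toNat : ℤ)))
    rw [e y' (by omega), e x' (by omega)]
    exact b6

/-- One of the two pairs of opposite arcs is joined. -/
theorem crE_du (h : CtrZ (F : Set (ℤ × ℤ)) m b) (hc : c = 0 ∨ c = 1) (hij : i ≤ j) (hjk : j ≤ k)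
    (hkl : k ≤ l) (hli : l ≤ i + m) (h1 : ω ∉ CrE F b c i j k l) :
    ω ∈ CrE F b (1 - c) j k l (i + m) := by
  rcases Int.lt_or_le j k with hlt | hge
  · have e : ∀ t : ℤ, i ≤ t → b (i + ((t - i).toNat : ℤ)) = b t := by
      intro t ht
      congr 1
      omega
    obtain ⟨p, q, g1, g2, g3, g4, g5, g6⟩ := arc_du (h.ctr i) ω (a₀ := 0) (a₁ := (j - i).toNat)
      (b₀ := (k - i).toNat) (b₁ := (l - i).toNat) (by omega) (by omega) (by omega) (by omega) hc
      (by
        intro s _ s2 s3 t t1 t2 hst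
        exact h1 ⟨i + s, i + t, by omega, by omega, by omega, by omega, s3, hst⟩)
    refine ⟨i + p, if q = 0 then i + m else i + q, by omega, by omega, ?_, ?_, ?_, ?_⟩
    · split_ifs <;> omega
    · split_ifs <;> omega
    · have := par_cases (b (i + p))
      have g5' : par (b (i + p)) ≠ c := g5
      omega
    · have g6' : Conn ω F (b (i + p)) (b (i + q)) := g6
      split_ifs with hq
      · rw [h.per i]
        rw [hq] at g6'
        simpa using g6'
      · exact g6'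
  · obtain rfl : j = k := by omega
    -- the middle arc is a single vertex
    have hpj : par (b j) ≠ c := fun hp =>
      h1 ⟨j, j, hij, le_rfl, le_rfl, hkl, hp, Relation.ReflTransGen.refl⟩
    have cj := par_cases (b j)
    by_contra hno
    rcases Int.lt_or_le j l with hjl | hjl
    · obtain ⟨p, q, g1, g2, g3, g4, g5, g6⟩ := ctr_du (h.ctr j) ω (t := 0)
        (i₁ := (l - j).toNat) (i₂ := (i + m - j).toNat) (by omega) (by omega) (by omega)
        (by
          intro a ha1 ha2 hca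
          refine hno ⟨j, j + a, le_rfl, le_rfl, by omega, by omega, by omega, ?_⟩
          have hca' : Conn ω F (b (j + ((0 : ℕ) : ℤ))) (b (j + a)) := hca
          simpa using hca')
      have g5' : par (b (j + p)) ≠ par (b (j + ((0 : ℕ) : ℤ))) := g5
      rw [Int.natCast_zero, add_zero] at g5'
      have g6' : Conn ω F (b (j + p)) (b (j + q)) := g6
      have cp := par_cases (b (j + p))
      have g7 := g6'.par_eq
      refine h1 ⟨j + q - m, j + p, by omega, by omega, by omega, by omega, ?_, ?_⟩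
      · rw [← h.per (j + q - m), sub_add_cancel]
        omega
      · rw [← h.per (j + q - m), sub_add_cancel]
        exact conn_symm g6'
    · exact hno ⟨j, j, le_rfl, le_rfl, by omega, by omega, by omega, Relation.ReflTransGen.refl⟩

/-- **Duality**: the complement of a crossing event. -/
theorem crE_dual (h : CtrZ (F : Set (ℤ × ℤ)) m b) (hc : c = 0 ∨ c = 1) (hij : i ≤ j) (hjk : j ≤ k)
    (hkl : k ≤ l) (hli : l ≤ i + m) :
    (CrE F b c i j k l)ᶜ = CrE F b (1 - c) j k l (i + m) := by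
  ext ω
  rw [Set.mem_compl_iff]
  exact ⟨crE_du h hc hij hjk hkl hli, fun h2 h1 => crE_nc h hij hjk hkl hli h1 h2⟩

end Dual

/-! ### Moving one junction -/

section Move
variable {F : Finset (ℤ × ℤ)} {m : ℕ} {b : ℤ → ℤ × ℤ} {c i j k l i' j' k' l' : ℤ}

theorem CrE_shift' (hb : ∀ k, b (k + m) = b k) :
    CrE F b c (i + m) (j + m) k l = CrE F b c i j k l := by
  rw [CrE_swap, CrE_shift hb, CrE_swap]

/-- The second junction. -/
theorem crE_move_j (h : CtrZ (F : Set (ℤ × ℤ)) m b) (hc : c = 0 ∨ c = 1) (hij : i ≤ j)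
    (hjj : j ≤ j') (hjk : j' ≤ k) (hkl : k ≤ l) (hli : l ≤ i + m) :
    CrE F b c i j' k l \ CrE F b c i j k l ⊆
      CrE F b c j j' k l ∩ CrE F b (1 - c) j j' l (i + m) := by
  rintro ω ⟨h1, h2⟩
  constructor
  · obtain ⟨x, y, a1, a2, a3, a4, a5, a6⟩ := h1
    refine ⟨x, y, ?_, a2, a3, a4, a5, a6⟩
    by_contra hlt
    exact h2 ⟨x, y, a1, by omega, a3, a4, a5, a6⟩
  · obtain ⟨x, y, a1, a2, a3, a4, a5, a6⟩ := crE_du h hc hij (hjj.trans hjk) hkl hli h2
    refine ⟨x, y, a1, ?_, a3, a4, a5, a6⟩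
    by_contra hlt
    exact crE_nc h (hij.trans hjj) hjk hkl hli h1 ⟨x, y, by omega, a2, a3, a4, a5, a6⟩

/-- The third junction. -/
theorem crE_move_k (h : CtrZ (F : Set (ℤ × ℤ)) m b) (hc : c = 0 ∨ c = 1) (hij : i ≤ j)
    (hjk : j ≤ k') (hkk : k' ≤ k) (hkl : k ≤ l) (hli : l ≤ i + m) :
    CrE F b c i j k' l \ CrE F b c i j k l ⊆
      CrE F b c i j k' k ∩ CrE F b (1 - c) k' k l (i + m) := by
  rintro ω ⟨h1, h2⟩
  constructor
  · obtain ⟨x, y, a1, a2, a3, a4, a5, a6⟩ := h1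
    refine ⟨x, y, a1, a2, a3, ?_, a5, a6⟩
    by_contra hlt
    exact h2 ⟨x, y, a1, a2, by omega, a4, a5, a6⟩
  · obtain ⟨x, y, a1, a2, a3, a4, a5, a6⟩ := crE_du h hc hij (hjk.trans hkk) hkl hli h2
    refine ⟨x, y, ?_, a2, a3, a4, a5, a6⟩
    by_contra hlt
    exact crE_nc h hij hjk (hkk.trans hkl) hli h1 ⟨x, y, a1, by omega, a3, a4, a5, a6⟩

/-- The fourth junction. -/
theorem crE_move_l (h : CtrZ (F : Set (ℤ × ℤ)) m b) (hc : c = 0 ∨ c = 1) (hij : i ≤ j)
    (hjk : j ≤ k) (hkl : k ≤ l) (hll : l ≤ l') (hli : l' ≤ i + m) :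
    CrE F b c i j k l' \ CrE F b c i j k l ⊆
      CrE F b c i j l l' ∩ CrE F b (1 - c) j k l l' := by
  rintro ω ⟨h1, h2⟩
  constructor
  · obtain ⟨x, y, a1, a2, a3, a4, a5, a6⟩ := h1
    refine ⟨x, y, a1, a2, ?_, a4, a5, a6⟩
    by_contra hlt
    exact h2 ⟨x, y, a1, a2, a3, by omega, a5, a6⟩
  · obtain ⟨x, y, a1, a2, a3, a4, a5, a6⟩ := crE_du h hc hij hjk hkl (hll.trans hli) h2
    refine ⟨x, y, a1, a2, a3, ?_, a5, a6⟩
    by_contra hlt
    exact crE_nc h hij hjk (hkl.trans hll) hli h1 ⟨x, y, a1, a2, by omega, a4, a5, a6⟩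

/-- The first junction. -/
theorem crE_move_i (h : CtrZ (F : Set (ℤ × ℤ)) m b) (hc : c = 0 ∨ c = 1) (hii : i' ≤ i)
    (hij : i ≤ j) (hjk : j ≤ k) (hkl : k ≤ l) (hli : l ≤ i' + m) :
    CrE F b c i' j k l \ CrE F b c i j k l ⊆
      CrE F b c i' i k l ∩ CrE F b (1 - c) j k (i' + m) (i + m) := by
  rintro ω ⟨h1, h2⟩
  constructor
  · obtain ⟨x, y, a1, a2, a3, a4, a5, a6⟩ := h1
    refine ⟨x, y, a1, ?_, a3, a4, a5, a6⟩
    by_contra hlt
    exact h2 ⟨x, y, by omega, a2, a3, a4, a5, a6⟩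
  · obtain ⟨x, y, a1, a2, a3, a4, a5, a6⟩ := crE_du h hc hij hjk hkl (by omega) h2
    refine ⟨x, y, a1, a2, ?_, a4, a5, a6⟩
    by_contra hlt
    exact crE_nc h (hii.trans hij) hjk hkl hli h1 ⟨x, y, a1, a2, a3, by omega, a5, a6⟩

end Move

/-! ### Probabilities -/

theorem pr_diff_le (S : Finset (ℤ × ℤ)) {A B X : Set Cfg} (h : B ⊆ A) (hX : A \ B ⊆ X) {ε : ℝ}
    (hε : pr S X ≤ ε) : pr S B ≤ pr S A ∧ pr S A ≤ pr S B + ε := by
  have h1 := pr_sdiff_sub S h
  have h2 := pr_mono S hX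
  exact ⟨pr_mono S h, by linarith⟩

/-- The piece `[p, q]` of the contour is trivial, or one of its two arm events (colour `c` to the arc
`[s, t]`, colour `1 - c` to the arc `[s', t']`) has probability at most `ε`. -/
def PcSmall (F : Finset (ℤ × ℤ)) (b : ℤ → ℤ × ℤ) (c p q s t s' t' : ℤ) (ε : ℝ) : Prop :=
  (p = q ∧ 0 ≤ ε) ∨ pr F (CrE F b c p q s t) ≤ ε ∨ pr F (CrE F b (1 - c) p q s' t') ≤ ε

section Sum
variable {F : Finset (ℤ × ℤ)} {m : ℕ} {b : ℤ → ℤ × ℤ} {c i j k l i' j' k' l' : ℤ}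

theorem PcSmall.mono {p q s t s' t' p₁ q₁ s₁ t₁ s₁' t₁' : ℤ} {ε : ℝ}
    (h : PcSmall F b c p q s t s' t' ε) (hpq : p₁ ≤ q₁) (h1 : p ≤ p₁) (h2 : q₁ ≤ q) (h3 : s ≤ s₁)
    (h4 : t₁ ≤ t) (h5 : s' ≤ s₁') (h6 : t₁' ≤ t') : PcSmall F b c p₁ q₁ s₁ t₁ s₁' t₁' ε := by
  rcases h with ⟨h7, h8⟩ | h7 | h7
  · exact Or.inl ⟨by omega, h8⟩
  · exact Or.inr (Or.inl ((pr_mono F (CrE_mono h1 h2 h3 h4)).trans h7))
  · exact Or.inr (Or.inr ((pr_mono F (CrE_mono h1 h2 h5 h6)).trans h7))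

theorem PcSmall.nonneg {p q s t s' t' : ℤ} {ε : ℝ} (h : PcSmall F b c p q s t s' t' ε) : 0 ≤ ε := by
  rcases h with ⟨-, h8⟩ | h7 | h7
  · exact h8
  · exact (pr_nonneg _ _).trans h7
  · exact (pr_nonneg _ _).trans h7

theorem PcSmall.le {p q s t s' t' : ℤ} {ε : ℝ} (h : PcSmall F b c p q s t s' t' ε) {A B : Set Cfg}
    (hBA : B ⊆ A) (hpq : p = q → A = B)
    (hX : A \ B ⊆ CrE F b c p q s t ∩ CrE F b (1 - c) p q s' t') :
    pr F B ≤ pr F A ∧ pr F A ≤ pr F B + ε := by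
  rcases h with ⟨h7, h8⟩ | h7 | h7
  · rw [hpq h7]
    exact ⟨le_rfl, by linarith⟩
  · exact pr_diff_le F hBA (hX.trans Set.inter_subset_left) h7
  · exact pr_diff_le F hBA (hX.trans Set.inter_subset_right) h7

/-- One junction: the second. -/
theorem shift_j (h : CtrZ (F : Set (ℤ × ℤ)) m b) (hc : c = 0 ∨ c = 1) (hij : i ≤ j)
    (hjj : j ≤ j') (hjk : j' ≤ k) (hkl : k ≤ l) (hli : l ≤ i + m) {ε : ℝ}
    (hs : PcSmall F b c j j' k l l (i + m) ε) :
    pr F (CrE F b c i j k l) ≤ pr F (CrE F b c i j' k l) ∧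
      pr F (CrE F b c i j' k l) ≤ pr F (CrE F b c i j k l) + ε :=
  hs.le (CrE_mono le_rfl hjj le_rfl le_rfl) (fun e => by rw [e]) (crE_move_j h hc hij hjj hjk hkl hli)

/-- One junction: the third. -/
theorem shift_k (h : CtrZ (F : Set (ℤ × ℤ)) m b) (hc : c = 0 ∨ c = 1) (hij : i ≤ j)
    (hjk : j ≤ k') (hkk : k' ≤ k) (hkl : k ≤ l) (hli : l ≤ i + m) {ε : ℝ}
    (hs : PcSmall F b c k' k i j l (i + m) ε) :
    pr F (CrE F b c i j k l) ≤ pr F (CrE F b c i j k' l) ∧
      pr F (CrE F b c i j k' l) ≤ pr F (CrE F b c i j k l) + ε :=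
  hs.le (CrE_mono le_rfl le_rfl hkk le_rfl) (fun e => by rw [e])
    (by
      rw [CrE_swap (i := k') (k := i)]
      exact crE_move_k h hc hij hjk hkk hkl hli)

/-- One junction: the fourth. -/
theorem shift_l (h : CtrZ (F : Set (ℤ × ℤ)) m b) (hc : c = 0 ∨ c = 1) (hij : i ≤ j)
    (hjk : j ≤ k) (hkl : k ≤ l) (hll : l ≤ l') (hli : l' ≤ i + m) {ε : ℝ}
    (hs : PcSmall F b c l l' i j j k ε) :
    pr F (CrE F b c i j k l) ≤ pr F (CrE F b c i j k l') ∧
      pr F (CrE F b c i j k l') ≤ pr F (CrE F b c i j k l) + ε :=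
  hs.le (CrE_mono le_rfl le_rfl le_rfl hll) (fun e => by rw [e])
    (by
      rw [CrE_swap (i := l) (k := i), CrE_swap (i := l) (k := j)]
      exact crE_move_l h hc hij hjk hkl hll hli)

/-- One junction: the first. -/
theorem shift_i (h : CtrZ (F : Set (ℤ × ℤ)) m b) (hc : c = 0 ∨ c = 1) (hii : i' ≤ i)
    (hij : i ≤ j) (hjk : j ≤ k) (hkl : k ≤ l) (hli : l ≤ i' + m) {ε : ℝ}
    (hs : PcSmall F b c i' i k l j k ε) :
    pr F (CrE F b c i j k l) ≤ pr F (CrE F b c i' j k l) ∧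
      pr F (CrE F b c i' j k l) ≤ pr F (CrE F b c i j k l) + ε :=
  hs.le (CrE_mono hii le_rfl le_rfl le_rfl) (fun e => by rw [e])
    (by
      rw [CrE_swap (c := 1 - c) (i := i') (k := j), ← CrE_shift (c := 1 - c) (k := i') h.per]
      exact crE_move_i h hc hii hij hjk hkl hli)

/-- **Enlarging both arcs.** -/
theorem crE_enlarge (h : CtrZ (F : Set (ℤ × ℤ)) m b) (hc : c = 0 ∨ c = 1) (hii : i' ≤ i)
    (hij : i ≤ j) (hjj : j ≤ j') (hjk : j' ≤ k') (hkk : k' ≤ k) (hkl : k ≤ l) (hll : l ≤ l')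
    (hli : l' ≤ i' + m) {ε₁ ε₂ ε₃ ε₄ : ℝ}
    (h1 : PcSmall F b c i' i k' l' j k ε₁) (h2 : PcSmall F b c j j' k' l' l (i + m) ε₂)
    (h3 : PcSmall F b c k' k i' j' l (i + m) ε₃) (h4 : PcSmall F b c l l' i' j' j k ε₄) :
    pr F (CrE F b c i j k l) ≤ pr F (CrE F b c i' j' k' l') ∧
      pr F (CrE F b c i' j' k' l') ≤ pr F (CrE F b c i j k l) + ε₁ + ε₂ + ε₃ + ε₄ := by
  have m1 := shift_j (l := l) h hc hij hjj (hjk.trans hkk) hkl (by omega)
    (h2.mono hjj le_rfl le_rfl hkk hll le_rfl le_rfl)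
  have m2 := shift_k (l := l) h hc (hij.trans hjj) hjk hkk hkl (by omega)
    (h3.mono hkk le_rfl le_rfl hii le_rfl le_rfl le_rfl)
  have m3 := shift_l h hc (hij.trans hjj) hjk (hkk.trans hkl) hll (by omega)
    (h4.mono hll le_rfl le_rfl hii le_rfl hjj hkk)
  have m4 := shift_i h hc hii (hij.trans hjj) hjk ((hkk.trans hkl).trans hll) hli
    (h1.mono hii le_rfl le_rfl le_rfl le_rfl hjj hkk)
  constructor <;> linarith [m1.1, m1.2, m2.1, m2.2, m3.1, m3.2, m4.1, m4.2]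

/-- **Moving the four junctions**, hulls of the arcs `0` and `2` disjoint. The piece between the two
positions of a junction is small in the sense of `PcSmall`. -/
theorem shift02_sum (h : CtrZ (F : Set (ℤ × ℤ)) m b) (hc : c = 0 ∨ c = 1) (hij : i ≤ j)
    (hkl : k ≤ l) (hij' : i' ≤ j') (hkl' : k' ≤ l') (hjk : max j j' ≤ min k k')
    (hli : max l l' ≤ min i i' + m) {ε₁ ε₂ ε₃ ε₄ : ℝ}
    (h1 : PcSmall F b c (min i i') (max i i') (min k k') (max l l') (min j j') (max k k') ε₁)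
    (h2 : PcSmall F b c (min j j') (max j j') (min k k') (max l l') (min l l') (max i i' + m) ε₂)
    (h3 : PcSmall F b c (min k k') (max k k') (min i i') (max j j') (min l l') (max i i' + m) ε₃)
    (h4 : PcSmall F b c (min l l') (max l l') (min i i') (max j j') (min j j') (max k k') ε₄) :
    |pr F (CrE F b c i j k l) - pr F (CrE F b c i' j' k' l')| ≤ ε₁ + ε₂ + ε₃ + ε₄ := by
  have ki := min_le_left i i'
  have ki' := min_le_right i i'
  have Ki := le_max_left i i'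
  have Ki' := le_max_right i i'
  have kj := min_le_left j j'
  have kj' := min_le_right j j'
  have Kj := le_max_left j j'
  have Kj' := le_max_right j j'
  have kk := min_le_left k k'
  have kk' := min_le_right k k'
  have Kk := le_max_left k k'
  have Kk' := le_max_right k k'
  have kl := min_le_left l l'
  have kl' := min_le_right l l'
  have Kl := le_max_left l l'
  have Kl' := le_max_right l l'
  have a := crE_enlarge (i' := min i i') (j' := max j j') (k' := min k k') (l' := max l l')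
    h hc ki hij Kj hjk kk hkl Kl hli
    (h1.mono ki le_rfl Ki le_rfl le_rfl kj Kk)
    (h2.mono Kj kj le_rfl le_rfl le_rfl kl (by omega))
    (h3.mono kk le_rfl Kk le_rfl le_rfl kl (by omega))
    (h4.mono Kl kl le_rfl le_rfl le_rfl kj Kk)
  have a' := crE_enlarge (i' := min i i') (j' := max j j') (k' := min k k') (l' := max l l')
    h hc ki' hij' Kj' hjk kk' hkl' Kl' hli
    (h1.mono ki' le_rfl Ki' le_rfl le_rfl kj' Kk')
    (h2.mono Kj' kj' le_rfl le_rfl le_rfl kl' (by omega))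
    (h3.mono kk' le_rfl Kk' le_rfl le_rfl kl' (by omega))
    (h4.mono Kl' kl' le_rfl le_rfl le_rfl kj' Kk')
  rw [abs_le]
  constructor <;> linarith [a.1, a.2, a'.1, a'.2]

/-- **Moving the four junctions**, hulls of the arcs `1` and `3` disjoint. -/
theorem shift13_sum (h : CtrZ (F : Set (ℤ × ℤ)) m b) (hc : c = 0 ∨ c = 1) (hij : max i i' ≤ min j j')
    (hjk : j ≤ k) (hjk' : j' ≤ k') (hkl : max k k' ≤ min l l') (hli : l ≤ i + m)
    (hli' : l' ≤ i' + m) {ε₁ ε₂ ε₃ ε₄ : ℝ}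
    (h1 : PcSmall F b c (min i i') (max i i') (min k k') (max l l') (min j j') (max k k') ε₁)
    (h2 : PcSmall F b c (min j j') (max j j') (min k k') (max l l') (min l l') (max i i' + m) ε₂)
    (h3 : PcSmall F b c (min k k') (max k k') (min i i') (max j j') (min l l') (max i i' + m) ε₃)
    (h4 : PcSmall F b c (min l l') (max l l') (min i i') (max j j') (min j j') (max k k') ε₄) :
    |pr F (CrE F b c i j k l) - pr F (CrE F b c i' j' k' l')| ≤ ε₁ + ε₂ + ε₃ + ε₄ := by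
  have e1 : ∀ x y : ℤ, min (x + m) (y + m) = min x y + m := fun x y => min_add_add_right x y _
  have e2 : ∀ x y : ℤ, max (x + m) (y + m) = max x y + m := fun x y => max_add_add_right x y _
  have hd := crE_dual (c := c) (i := i) (j := j) (k := k) (l := l) h hc (by omega) hjk (by omega) hli
  have hd' := crE_dual (c := c) (i := i') (j := j') (k := k') (l := l') h hc (by omega) hjk'
    (by omega) hli'
  have hp : ∀ X : Set Cfg, pr F X = 1 - pr F Xᶜ := fun X => by rw [pr_compl]; ring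
  rw [hp (CrE F b c i j k l), hp (CrE F b c i' j' k' l'), hd, hd',
    show ∀ x y : ℝ, (1 - x) - (1 - y) = y - x from fun x y => by ring, abs_sub_comm]
  have hcc : 1 - (1 - c) = c := by ring
  have hm : ∀ d x y z t : ℤ, CrE F b d x y (z + m) (t + m) = CrE F b d x y z t :=
    fun d x y z t => CrE_shift h.per
  have hm' : ∀ d x y z t : ℤ, CrE F b d (x + m) (y + m) z t = CrE F b d x y z t :=
    fun d x y z t => CrE_shift' h.per
  -- exchange of the colours
  have hsw : ∀ p q s t s' t' : ℤ, ∀ ε : ℝ, PcSmall F b c p q s t s' t' ε →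
      PcSmall F b (1 - c) p q s' t' s t ε := by
    intro p q s t s' t' ε hh
    rcases hh with h7 | h7 | h7
    · exact Or.inl h7
    · exact Or.inr (Or.inr (by rw [hcc]; exact h7))
    · exact Or.inr (Or.inl h7)
  have key := shift02_sum (c := 1 - c) (i := j) (j := k) (k := l) (l := i + m) (i' := j')
    (j' := k') (k' := l') (l' := i' + m) h (by omega) hjk hli hjk' hli' hkl
    (by rw [e2]; omega) (ε₁ := ε₂) (ε₂ := ε₃) (ε₃ := ε₄) (ε₄ := ε₁)
    (by
      rw [e2]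
      exact hsw _ _ _ _ _ _ _ h2)
    (by
      rw [e1, e2]
      refine (hsw _ _ _ _ _ _ _ h3).imp id (Or.imp id fun hh => ?_)
      rw [hm]
      exact hh)
    (by
      rw [e1]
      refine (hsw _ _ _ _ _ _ _ h4).imp id (Or.imp id fun hh => ?_)
      rw [hm]
      exact hh)
    (by
      rw [e1, e2]
      refine (hsw _ _ _ _ _ _ _ h1).imp (fun hh => ⟨by omega, hh.2⟩)
        (Or.imp (fun hh => ?_) fun hh => ?_)
      · rw [hm']
        exact hh
      · rw [hm']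
        exact hh)
  linarith

end Sum

/-! ### Arms -/

/-- The vertices of the closed box of radius `r` around `z`. -/
def BxV (z : ℤ × ℤ) (r : ℤ) : Set (ℤ × ℤ) :=
  {u | z.1 - r ≤ u.1 ∧ u.1 ≤ z.1 + r ∧ z.2 - r ≤ u.2 ∧ u.2 ≤ z.2 + r}

theorem BxV_mono {z : ℤ × ℤ} {r r' : ℤ} (h : r ≤ r') : BxV z r ⊆ BxV z r' := by
  rintro u ⟨h1, h2, h3, h4⟩
  exact ⟨by omega, by omega, by omega, by omega⟩

/-- A connection stays in the faces of the box of radius `R` or reaches the boundary of the box. -/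
theorem conn_leave {ω : Cfg} {F : Set (ℤ × ℤ)} {u v z : ℤ × ℤ} {R : ℤ} (h : Conn ω F u v) :
    Conn ω (F ∩ (RFb z R : Set (ℤ × ℤ))) u v ∨
      ∃ v', ¬(z.1 - R < v'.1 ∧ v'.1 < z.1 + R ∧ z.2 - R < v'.2 ∧ v'.2 < z.2 + R) ∧
        Conn ω F u v' := by
  induction h with
  | refl => exact Or.inl Relation.ReflTransGen.refl
  | @tail p q hp hb ih =>
    rcases ih with ih | ih
    · obtain ⟨f, hf, hb', h1, h2⟩ := hb.exists_face
      by_cases hR : f ∈ (RFb z R : Set (ℤ × ℤ))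
      · exact Or.inl (ih.tail (hb'.of_single ⟨hf, hR⟩))
      · refine Or.inr ⟨p, ?_, hp⟩
        rw [mem_coe, mem_RFb] at hR
        obtain ⟨p1, p2⟩ := p
        obtain ⟨f1, f2⟩ := f
        unfold IsCor at h1
        simp only at h1 hR ⊢
        omega
    · exact Or.inr ih

/-- In the faces of the box of radius `R` there is no connection from `u` to `v`, whatever the
configuration: the inner distance of `u` and `v` is large. -/
def Sepd (F : Set (ℤ × ℤ)) (z : ℤ × ℤ) (R : ℤ) (u v : ℤ × ℤ) : Prop :=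
  ∀ ω : Cfg, ¬ Conn ω (F ∩ (RFb z R : Set (ℤ × ℤ))) u v

/-- A vertex outside of the closed box is separated from the vertices of the closed box. -/
theorem sepd_of_not_mem {F : Set (ℤ × ℤ)} {z u v : ℤ × ℤ} {R : ℤ} (hu : u ∈ BxV z R)
    (hv : v ∉ BxV z R) : Sepd F z R u v := by
  intro ω h
  refine hv ?_
  induction h with
  | refl => exact hu
  | @tail p q hp hb ih =>
    obtain ⟨f, hf, hb', h1, h2⟩ := hb.exists_face
    have hR := mem_RFb.1 (mem_coe.1 hf.2)
    obtain ⟨q1, q2⟩ := q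
    obtain ⟨f1, f2⟩ := f
    unfold IsCor at h2
    simp only at h2 hR
    unfold BxV
    simp only [Set.mem_ofPred_eq]
    omega

section Arm
variable {F : Finset (ℤ × ℤ)} {b : ℤ → ℤ × ℤ} {c p q s t r R : ℤ} {z : ℤ × ℤ}

/-- Piece behind a gate: every connection from the piece `[p, q]` to the arc `[s, t]` passes through
the box of radius `r`. -/
theorem crE_sub_fArm_gate
    (hg : ∀ x y, p ≤ x → x ≤ q → s ≤ y → y ≤ t → par (b x) = c → ∀ ω : Cfg,
      Conn ω F (b x) (b y) → ∃ u ∈ BxV z r, Conn ω F u (b y))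
    (hf : ∀ u ∈ BxV z r, par u = c → ∀ y, s ≤ y → y ≤ t → Sepd F z R u (b y)) :
    CrE F b c p q s t ⊆ FArm c F z r R := by
  rintro ω ⟨x, y, a1, a2, a3, a4, a5, a6⟩
  obtain ⟨u, hu, huy⟩ := hg x y a1 a2 a3 a4 a5 ω a6
  have hpu : par u = c := by rw [huy.par_eq, ← a6.par_eq, a5]
  rcases conn_leave (z := z) (R := R) huy with h | ⟨v, hv, hc⟩
  · exact absurd h (hf u hu hpu y a3 a4 ω)
  · obtain ⟨h1, h2, h3, h4⟩ := hu
    refine ⟨u, v, h1, h2, h3, h4, ?_, hv, hc⟩
    unfold par at hpu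
    omega

/-- Piece inside the box of radius `r`, far from the arc `[s, t]` in the sense of the inner distance. -/
theorem crE_sub_fArm (hb : ∀ x, p ≤ x → x ≤ q → par (b x) = c → b x ∈ BxV z r)
    (hf : ∀ x, p ≤ x → x ≤ q → par (b x) = c → ∀ y, s ≤ y → y ≤ t → Sepd F z R (b x) (b y)) :
    CrE F b c p q s t ⊆ FArm c F z r R := by
  rintro ω ⟨x, y, a1, a2, a3, a4, a5, a6⟩
  rcases conn_leave (z := z) (R := R) a6 with h | ⟨v, hv, hc⟩
  · exact absurd h (hf x a1 a2 a5 y a3 a4 ω)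
  · obtain ⟨h1, h2, h3, h4⟩ := hb x a1 a2 a5
    refine ⟨b x, v, h1, h2, h3, h4, ?_, hv, hc⟩
    have := a5
    unfold par at this
    omega

/-- Piece inside the box of radius `r`, arc outside of the box of radius `R`. -/
theorem crE_sub_fArm_dist (hrR : r ≤ R) (hb : ∀ x, p ≤ x → x ≤ q → par (b x) = c → b x ∈ BxV z r)
    (hf : ∀ y, s ≤ y → y ≤ t → b y ∉ BxV z R) :
    CrE F b c p q s t ⊆ FArm c F z r R :=
  crE_sub_fArm hb fun x h1 h2 h3 y h4 h5 => sepd_of_not_mem (BxV_mono hrR (hb x h1 h2 h3)) (hf y h4 h5)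

end Arm

/-! ### From powers of `θ` to powers of `r / R` -/

theorem theta_scale {θ : ℝ} (h0 : 0 < θ) (h1 : θ < 1) : ∃ C α : ℝ, 0 < C ∧ 0 < α ∧
    ∀ r R : ℤ, 0 < r → r ≤ R → ∃ n : ℕ, 4 ^ n * r ≤ R ∧ θ ^ n ≤ C * ((r : ℝ) / R) ^ α := by
  refine ⟨1 / θ, Real.log (1 / θ) / Real.log 4, by positivity, ?_, ?_⟩
  · exact div_pos (Real.log_pos (by rw [lt_div_iff₀ h0]; linarith)) (Real.log_pos (by norm_num))
  · intro r R hr hrR
    have hR : 0 < R := by omega
    have hrr : (0 : ℝ) < r := by exact_mod_cast hr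
    have hRR : (0 : ℝ) < R := by exact_mod_cast hR
    have hx : (1 : ℝ) ≤ (R : ℝ) / r := by
      rw [le_div_iff₀ hrr, one_mul]; exact_mod_cast hrR
    obtain ⟨n, hn1, hn2⟩ := exists_nat_pow_near hx (by norm_num : (1 : ℝ) < 4)
    refine ⟨n, ?_, ?_⟩
    · rw [le_div_iff₀ hrr] at hn1
      exact_mod_cast hn1
    · set α := Real.log (1 / θ) / Real.log 4 with hα
      have hl4 : 0 < Real.log 4 := Real.log_pos (by norm_num)
      have hα0 : 0 < α := div_pos (Real.log_pos (by rw [lt_div_iff₀ h0]; linarith)) hl4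
      -- `4 ^ (-α) = θ`
      have h4 : (4 : ℝ) ^ (-α) = θ := by
        rw [Real.rpow_def_of_pos (by norm_num), hα]
        have : Real.log 4 * -(Real.log (1 / θ) / Real.log 4) = Real.log θ := by
          rw [one_div, Real.log_inv]
          field_simp
        rw [this, Real.exp_log h0]
      have h5 : (r : ℝ) / R = ((R : ℝ) / r)⁻¹ := by rw [inv_div]
      have h6 : ((4 : ℝ) ^ (n + 1)) ^ (-α) ≤ ((R : ℝ) / r) ^ (-α) :=
        Real.rpow_le_rpow_of_nonpos (by positivity) hn2.le (by linarith)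
      have h7 : ((4 : ℝ) ^ (n + 1)) ^ (-α) = θ ^ (n + 1) := by
        rw [← Real.rpow_natCast, ← Real.rpow_mul (by norm_num), mul_comm,
          Real.rpow_mul (by norm_num), h4, Real.rpow_natCast]
      rw [h5, Real.inv_rpow (by positivity), ← Real.rpow_neg (by positivity)]
      rw [h7, pow_succ] at h6
      calc θ ^ n = 1 / θ * (θ ^ n * θ) := by field_simp
        _ ≤ 1 / θ * ((R : ℝ) / r) ^ (-α) := mul_le_mul_of_nonneg_left h6 (by positivity)

/-- **Arms, power form**: any window, any colour. -/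
theorem pr_fArm_scale : ∃ C α : ℝ, 0 < C ∧ 0 < α ∧ ∀ (col : ℤ) (z : ℤ × ℤ) (r R : ℤ)
    (W : Finset (ℤ × ℤ)), 0 < r → r ≤ R →
    pr W (FArm col (W : Set (ℤ × ℤ)) z r R) ≤ C * ((r : ℝ) / R) ^ α := by
  obtain ⟨θ, h0, h1, h⟩ := pr_fArm
  obtain ⟨C, α, hC, hα, h2⟩ := theta_scale h0 h1
  refine ⟨C, α, hC, hα, ?_⟩
  intro col z r R W hr hrR
  obtain ⟨n, hn1, hn2⟩ := h2 r R hr hrR
  exact ((pr_mono W (fArm_mono (Set.Subset.refl _) le_rfl hn1)).trans (h col z r n W hr)).trans hn2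

/-! ### The junction shift lemma -/

/-- The piece `[p, q]` of the contour is trivial, or it makes an arm from radius `r` to radius `R` around some
centre whenever it is joined by `c` to the arc `[s, t]`, or whenever it is joined by `1 - c` to `[s', t']`. -/
def PcArm (F : Finset (ℤ × ℤ)) (b : ℤ → ℤ × ℤ) (c p q s t s' t' r R : ℤ) : Prop :=
  p = q ∨ (∃ z, CrE F b c p q s t ⊆ FArm c F z r R) ∨
    ∃ z, CrE F b (1 - c) p q s' t' ⊆ FArm (1 - c) F z r R

/-- **JUNCTION SHIFT LEMMA.** The two arc crossing probability as a function of the four junctions: the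
piece between the two positions of every junction is trivial or makes an arm of one of the colours. The
hulls of the arcs `0` and `2`, or those of the arcs `1` and `3`, are disjoint. -/
theorem pr_shift : ∃ C α : ℝ, 0 < C ∧ 0 < α ∧ ∀ (F : Finset (ℤ × ℤ)) (m : ℕ) (b : ℤ → ℤ × ℤ)
    (c i j k l i' j' k' l' r R : ℤ), CtrZ (F : Set (ℤ × ℤ)) m b → (c = 0 ∨ c = 1) → 0 < r → r ≤ R →
    i ≤ j → j ≤ k → k ≤ l → l ≤ i + m → i' ≤ j' → j' ≤ k' → k' ≤ l' → l' ≤ i' + m →
    (max j j' ≤ min k k' ∧ max l l' ≤ min i i' + m ∨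
      max i i' ≤ min j j' ∧ max k k' ≤ min l l') →
    PcArm F b c (min i i') (max i i') (min k k') (max l l') (min j j') (max k k') r R →
    PcArm F b c (min j j') (max j j') (min k k') (max l l') (min l l') (max i i' + m) r R →
    PcArm F b c (min k k') (max k k') (min i i') (max j j') (min l l') (max i i' + m) r R →
    PcArm F b c (min l l') (max l l') (min i i') (max j j') (min j j') (max k k') r R →
    |pr F (CrE F b c i j k l) - pr F (CrE F b c i' j' k' l')| ≤ C * ((r : ℝ) / R) ^ α := by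
  obtain ⟨C, α, hC, hα, h⟩ := pr_fArm_scale
  refine ⟨4 * C, α, by positivity, hα, ?_⟩
  intro F m b c i j k l i' j' k' l' r R hF hc hr hrR g1 g2 g3 g4 g5 g6 g7 g8 hd h1 h2 h3 h4
  have hrr : (0 : ℝ) < r := by exact_mod_cast hr
  have hRR : (0 : ℝ) < R := by exact_mod_cast (show 0 < R by omega)
  have key : ∀ p q s t s' t' : ℤ, PcArm F b c p q s t s' t' r R →
      PcSmall F b c p q s t s' t' (C * ((r : ℝ) / R) ^ α) := by
    intro p q s t s' t' hh
    rcases hh with hh | ⟨z, hz⟩ | ⟨z, hz⟩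
    · exact Or.inl ⟨hh, by positivity⟩
    · exact Or.inr (Or.inl ((pr_mono F hz).trans (h _ _ _ _ _ hr hrR)))
    · exact Or.inr (Or.inr ((pr_mono F hz).trans (h _ _ _ _ _ hr hrR)))
  rcases hd with ⟨d1, d2⟩ | ⟨d1, d2⟩
  · have := shift02_sum hF hc g1 g3 g5 g7 d1 d2 (key _ _ _ _ _ _ h1) (key _ _ _ _ _ _ h2)
      (key _ _ _ _ _ _ h3) (key _ _ _ _ _ _ h4)
    linarith
  · have := shift13_sum hF hc d1 g2 g6 d2 g4 g8 (key _ _ _ _ _ _ h1) (key _ _ _ _ _ _ h2)
      (key _ _ _ _ _ _ h3) (key _ _ _ _ _ _ h4)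
    linarith

/-- **Junction shift, boxes, arcs `0` and `2` apart** (inner distance): every junction moves inside one box
of radius `r`; no box of radius `R` contains a path of the domain from the hull of the arc `0` to the hull of
the arc `2`, starting at a vertex of colour `c`. -/
theorem pr_shift02 : ∃ C α : ℝ, 0 < C ∧ 0 < α ∧ ∀ (F : Finset (ℤ × ℤ)) (m : ℕ) (b : ℤ → ℤ × ℤ)
    (c i j k l i' j' k' l' r R : ℤ), CtrZ (F : Set (ℤ × ℤ)) m b → (c = 0 ∨ c = 1) → 0 < r → r ≤ R →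
    i ≤ j → j ≤ k → k ≤ l → l ≤ i + m → i' ≤ j' → j' ≤ k' → k' ≤ l' → l' ≤ i' + m →
    max j j' ≤ min k k' → max l l' ≤ min i i' + m →
    (∃ z, ∀ x, min i i' ≤ x → x ≤ max i i' → b x ∈ BxV z r) →
    (∃ z, ∀ x, min j j' ≤ x → x ≤ max j j' → b x ∈ BxV z r) →
    (∃ z, ∀ x, min k k' ≤ x → x ≤ max k k' → b x ∈ BxV z r) →
    (∃ z, ∀ x, min l l' ≤ x → x ≤ max l l' → b x ∈ BxV z r) →
    (∀ z x y, min i i' ≤ x → x ≤ max j j' → min k k' ≤ y → y ≤ max l l' → par (b x) = c →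
      Sepd F z R (b x) (b y)) →
    |pr F (CrE F b c i j k l) - pr F (CrE F b c i' j' k' l')| ≤ C * ((r : ℝ) / R) ^ α := by
  obtain ⟨C, α, hC, hα, h⟩ := pr_shift
  refine ⟨C, α, hC, hα, ?_⟩
  intro F m b c i j k l i' j' k' l' r R hF hc hr hrR g1 g2 g3 g4 g5 g6 g7 g8 d1 d2 h1 h2 h3 h4 hs
  obtain ⟨z1, h1⟩ := h1
  obtain ⟨z2, h2⟩ := h2
  obtain ⟨z3, h3⟩ := h3
  obtain ⟨z4, h4⟩ := h4
  have hs' : ∀ z x y, min i i' ≤ x → x ≤ max j j' → min k k' ≤ y → y ≤ max l l' → par (b y) = c →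
      Sepd F z R (b y) (b x) := by
    intro z x y a1 a2 a3 a4 a5 ω hω
    have := hω.par_eq
    exact hs z x y a1 a2 a3 a4 (by omega) ω (conn_symm hω)
  refine h F m b c i j k l i' j' k' l' r R hF hc hr hrR g1 g2 g3 g4 g5 g6 g7 g8 (Or.inl ⟨d1, d2⟩)
    (Or.inr (Or.inl ⟨z1, ?_⟩)) (Or.inr (Or.inl ⟨z2, ?_⟩)) (Or.inr (Or.inl ⟨z3, ?_⟩))
    (Or.inr (Or.inl ⟨z4, ?_⟩))
  · exact crE_sub_fArm (fun x a1 a2 _ => h1 x a1 a2) fun x a1 a2 a3 y a4 a5 =>
      hs _ x y (by omega) (by omega) (by omega) (by omega) a3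
  · exact crE_sub_fArm (fun x a1 a2 _ => h2 x a1 a2) fun x a1 a2 a3 y a4 a5 =>
      hs _ x y (by omega) (by omega) (by omega) (by omega) a3
  · exact crE_sub_fArm (fun x a1 a2 _ => h3 x a1 a2) fun x a1 a2 a3 y a4 a5 =>
      hs' _ y x (by omega) (by omega) (by omega) (by omega) a3
  · exact crE_sub_fArm (fun x a1 a2 _ => h4 x a1 a2) fun x a1 a2 a3 y a4 a5 =>
      hs' _ y x (by omega) (by omega) (by omega) (by omega) a3

/-- **Junction shift, boxes, arcs `1` and `3` apart** (inner distance). -/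
theorem pr_shift13 : ∃ C α : ℝ, 0 < C ∧ 0 < α ∧ ∀ (F : Finset (ℤ × ℤ)) (m : ℕ) (b : ℤ → ℤ × ℤ)
    (c i j k l i' j' k' l' r R : ℤ), CtrZ (F : Set (ℤ × ℤ)) m b → (c = 0 ∨ c = 1) → 0 < r → r ≤ R →
    i ≤ j → j ≤ k → k ≤ l → l ≤ i + m → i' ≤ j' → j' ≤ k' → k' ≤ l' → l' ≤ i' + m →
    max i i' ≤ min j j' → max k k' ≤ min l l' →
    (∃ z, ∀ x, min i i' ≤ x → x ≤ max i i' → b x ∈ BxV z r) →
    (∃ z, ∀ x, min j j' ≤ x → x ≤ max j j' → b x ∈ BxV z r) →
    (∃ z, ∀ x, min k k' ≤ x → x ≤ max k k' → b x ∈ BxV z r) →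
    (∃ z, ∀ x, min l l' ≤ x → x ≤ max l l' → b x ∈ BxV z r) →
    (∀ z x y, min j j' ≤ x → x ≤ max k k' → min l l' ≤ y → y ≤ max i i' + m → par (b x) = 1 - c →
      Sepd F z R (b x) (b y)) →
    |pr F (CrE F b c i j k l) - pr F (CrE F b c i' j' k' l')| ≤ C * ((r : ℝ) / R) ^ α := by
  obtain ⟨C, α, hC, hα, h⟩ := pr_shift02
  refine ⟨C, α, hC, hα, ?_⟩
  intro F m b c i j k l i' j' k' l' r R hF hc hr hrR g1 g2 g3 g4 g5 g6 g7 g8 d1 d2 h1 h2 h3 h4 hs
  have e1 : min (i + m) (i' + m) = min i i' + m := min_add_add_right _ _ _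
  have e2 : max (i + m) (i' + m) = max i i' + m := max_add_add_right _ _ _
  have hd := crE_dual hF hc g1 g2 g3 g4
  have hd' := crE_dual hF hc g5 g6 g7 g8
  have hp : ∀ X : Set Cfg, pr F X = 1 - pr F Xᶜ := fun X => by rw [pr_compl]; ring
  rw [hp (CrE F b c i j k l), hp (CrE F b c i' j' k' l'), hd, hd',
    show ∀ x y : ℝ, (1 - x) - (1 - y) = y - x from fun x y => by ring, abs_sub_comm]
  refine h F m b (1 - c) j k l (i + m) j' k' l' (i' + m) r R hF (by omega) hr hrR g2 g3 g4 (by omega)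
    g6 g7 g8 (by omega) d2 (by omega) h2 h3 h4 ?_ ?_
  · obtain ⟨z, h1⟩ := h1
    refine ⟨z, fun x a1 a2 => ?_⟩
    rw [← sub_add_cancel x m, hF.per]
    exact h1 _ (by omega) (by omega)
  · intro z x y a1 a2 a3 a4 a5
    exact hs z x y a1 a2 a3 (by omega) a5

end Pool.Agent.SixB
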