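import Pool.Agent.Lib.SixB.CAEqui
import Pool.Agent.Lib.SixB.CARf
import Pool.Agent.Lib.SixB.TopCA
import Pool.Agent.Lib.SixB.S8Shift

/-!
# 6BD block CA: marks at corners, touching arcs, shrinking arcs

`CAOut` (flat marks `t₁ < t₂ < t₃ < t₄ < t₁ + L`) implies convergence of the crossing probabilities for arbitrary marks
`t₁ ≤ t₂ ≤ t₃ ≤ t₄ ≤ t₁ + L`, unless an arc shrinks to a point of the other arc:

* `NearM t₁ t₂ t₃ t₄ δ n c i j k l`: `c` is a colour and the marks are `δ n` close to `t₁ n, …, t₄ n`;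
* `ca_unif`: uniform statement; `p = 1` if the arcs touch, `p = 0` if one of them shrinks;
* `ca_corner`: sequences, any `m n → ∞`.
-/

set_option autoImplicit false

namespace Pool.Agent.SixB

open Filter Pool.Agent.Perc Pool.Agent.Perc6

/-- `c` is a colour and `i, j, k, l` are `δ n` close to `t₁ n, …, t₄ n`. -/
def NearM (t₁ t₂ t₃ t₄ δ : ℝ) (n : ℕ) (c i j k l : ℤ) : Prop :=
  (c = 0 ∨ c = 1) ∧ |(i : ℝ) - t₁ * n| ≤ δ * n ∧ |(j : ℝ) - t₂ * n| ≤ δ * n ∧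
    |(k : ℝ) - t₃ * n| ≤ δ * n ∧ |(l : ℝ) - t₄ * n| ≤ δ * n

theorem NearM.mono {t₁ t₂ t₃ t₄ δ δ' : ℝ} {n : ℕ} {c i j k l : ℤ} (h : NearM t₁ t₂ t₃ t₄ δ n c i j k l)
    (hd : δ ≤ δ') : NearM t₁ t₂ t₃ t₄ δ' n c i j k l := by
  have h1 : δ * n ≤ δ' * n := by gcongr
  exact ⟨h.1, h.2.1.trans h1, h.2.2.1.trans h1, h.2.2.2.1.trans h1, h.2.2.2.2.trans h1⟩

theorem near_floor (t₁ t₂ t₃ t₄ : ℝ) {δ : ℝ} {n : ℕ} (hn : 1 ≤ δ * n) {c : ℤ} (hc : c = 0 ∨ c = 1) :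
    NearM t₁ t₂ t₃ t₄ δ n c ⌊t₁ * n⌋ ⌊t₂ * n⌋ ⌊t₃ * n⌋ ⌊t₄ * n⌋ := by
  have h : ∀ t : ℝ, |(⌊t * n⌋ : ℝ) - t * n| ≤ δ * n := by
    intro t
    rw [abs_le]
    have h1 := Int.floor_le (t * n)
    have h2 := Int.lt_floor_add_one (t * n)
    constructor <;> linarith
  exact ⟨hc, h _, h _, h _, h _⟩

/-- Cauchy criterion for a family of sequences with a common limit, uniform version. -/
theorem unif_of_cauchy {A : ℕ → ℤ → ℤ → ℤ → ℤ → ℤ → ℝ} {t₁ t₂ t₃ t₄ : ℝ}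
    (h : ∀ ε > 0, ∃ q : ℝ, ∃ δ > 0, ∃ N : ℕ, ∀ n ≥ N, ∀ c i j k l : ℤ, NearM t₁ t₂ t₃ t₄ δ n c i j k l →
      |A n c i j k l - q| ≤ ε) :
    ∃ p : ℝ, ∀ ε > 0, ∃ δ > 0, ∃ N : ℕ, ∀ n ≥ N, ∀ c i j k l : ℤ, NearM t₁ t₂ t₃ t₄ δ n c i j k l →
      |A n c i j k l - p| ≤ ε := by
  choose q δ hδ N hN using fun m : ℕ => h (1 / ((m : ℝ) + 1)) (by positivity)
  -- comparison of two of the approximate limits
  have hcmp : ∀ a b : ℕ, |q a - q b| ≤ 1 / ((a : ℝ) + 1) + 1 / ((b : ℝ) + 1) := by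
    intro a b
    set d : ℝ := min (δ a) (δ b) with hd
    have hd0 : 0 < d := lt_min (hδ a) (hδ b)
    obtain ⟨M, hM⟩ := exists_nat_gt (1 / d)
    set n : ℕ := max M (max (N a) (N b)) with hn
    have hMn : (M : ℝ) ≤ n := by exact_mod_cast le_max_left _ _
    have h1 : 1 ≤ d * n := by
      have : 1 / d ≤ n := hM.le.trans hMn
      rw [div_le_iff₀ hd0] at this
      linarith
    have hnear := near_floor t₁ t₂ t₃ t₄ h1 (c := 0) (Or.inl rfl)
    have e1 := hN a n ((le_max_left _ _).trans (le_max_right _ _)) _ _ _ _ _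
      (hnear.mono (min_le_left _ _))
    have e2 := hN b n ((le_max_right _ _).trans (le_max_right _ _)) _ _ _ _ _
      (hnear.mono (min_le_right _ _))
    rw [abs_sub_comm] at e1
    exact (abs_sub_le _ _ _).trans (add_le_add e1 e2)
  have hcau : CauchySeq q := by
    rw [Metric.cauchySeq_iff']
    intro ε hε
    obtain ⟨M, hM⟩ := exists_nat_gt (2 / ε)
    refine ⟨M, fun n hn => ?_⟩
    rw [Real.dist_eq]
    have hM0 : 0 < (M : ℝ) := lt_trans (by positivity) hM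
    have h1 : 1 / ((n : ℝ) + 1) ≤ 1 / ((M : ℝ) + 1) := by
      have : (M : ℝ) ≤ n := by exact_mod_cast hn
      gcongr
    have h2 : 1 / ((M : ℝ) + 1) + 1 / ((M : ℝ) + 1) < ε := by
      rw [← add_div, div_lt_iff₀ (by positivity)]
      rw [div_lt_iff₀ hε] at hM
      nlinarith
    have := hcmp n M
    linarith
  obtain ⟨p, hp⟩ := cauchySeq_tendsto_of_complete hcau
  have hqp : ∀ a : ℕ, |q a - p| ≤ 1 / ((a : ℝ) + 1) := by
    intro a
    have h1 : Tendsto (fun b : ℕ => |q a - q b|) atTop (nhds |q a - p|) :=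
      (tendsto_const_nhds.sub hp).abs
    have h2 : Tendsto (fun b : ℕ => 1 / ((a : ℝ) + 1) + 1 / ((b : ℝ) + 1)) atTop
        (nhds (1 / ((a : ℝ) + 1) + 0)) :=
      tendsto_const_nhds.add tendsto_one_div_add_atTop_nhds_zero_nat
    have := le_of_tendsto_of_tendsto' h1 h2 (hcmp a)
    simpa using this
  refine ⟨p, fun ε hε => ?_⟩
  obtain ⟨M, hM⟩ := exists_nat_gt (2 / ε)
  refine ⟨δ M, hδ M, N M, fun n hn c i j k l hnear => ?_⟩
  have h1 := hN M n hn c i j k l hnear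
  have h2 := hqp M
  have hM0 : 0 < (M : ℝ) := lt_trans (by positivity) hM
  have h3 : 1 / ((M : ℝ) + 1) + 1 / ((M : ℝ) + 1) ≤ ε := by
    rw [← add_div, div_le_iff₀ (by positivity)]
    rw [div_lt_iff₀ hε] at hM
    nlinarith
  exact ((abs_sub_le _ _ _).trans (add_le_add h1 h2)).trans h3

section
variable {P : Finset (ℤ × ℤ)} {L : ℕ} {g : ℤ → ℤ × ℤ}

theorem ctrZ_rf (hP : MPoly P) (hg : Cont P L g) {n : ℕ} (hn : 0 < n) :
    CtrZ (rf n P : Set (ℤ × ℤ)) (n * L) (gr n g) where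
  pos := Nat.mul_pos hn hg.pos
  per := (CARf.cont_rf hg hn).per
  ctr := fun r => (CARf.mpoly_rf hP hn).ctr (CARf.cont_rf hg hn) r

/-- Duality. -/
theorem crP_dual (hP : MPoly P) (hg : Cont P L g) {n : ℕ} (hn : 0 < n) {c : ℤ} (hc : c = 0 ∨ c = 1)
    {i j k l : ℤ} (hij : i ≤ j) (hjk : j ≤ k) (hkl : k ≤ l) (hli : l ≤ i + n * L) :
    Cr P g n c i j k l = 1 - Cr P g n (1 - c) j k l (i + n * L) := by
  have h := ctrZ_rf hP hg hn
  have h1 := crE_dual (c := c) h hc hij hjk hkl (by push_cast; exact hli)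
  have h2 : pr (rf n P) (CrE (rf n P : Set (ℤ × ℤ)) (gr n g) c i j k l)ᶜ =
      1 - pr (rf n P) (CrE (rf n P : Set (ℤ × ℤ)) (gr n g) c i j k l) := pr_compl _ _
  unfold Cr
  have h3 : CrE (rf n P : Set (ℤ × ℤ)) (gr n g) (1 - c) j k l (i + n * L) =
      CrE (rf n P : Set (ℤ × ℤ)) (gr n g) (1 - c) j k l (i + ((n * L : ℕ) : ℤ)) := by
    push_cast
    rfl
  rw [h3, ← h1, h2]
  ring

/-- **Shrinking arc**: the limit is zero. -/
theorem caC_zero (hg : Cont P L g) {t₁ t₂ t₃ t₄ : ℝ} (h23 : t₂ < t₃) (h41 : t₄ < t₁ + L)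
    (hdeg : t₁ = t₂ ∨ t₃ = t₄) {ε : ℝ} (hε : 0 < ε) :
    ∃ δ > 0, ∃ N : ℕ, ∀ n ≥ N, ∀ c i j k l : ℤ, NearM t₁ t₂ t₃ t₄ δ n c i j k l →
      Cr P g n c i j k l ≤ ε := by
  obtain ⟨C, β, hC, hβ, h⟩ := Cr_short'
  set η : ℝ := min (t₃ - t₂) (t₁ + L - t₄) with hη
  have hη0 : 0 < η := lt_min (by linarith) (by linarith)
  have hη1 : η ≤ t₃ - t₂ := min_le_left _ _
  have hη2 : η ≤ t₁ + L - t₄ := min_le_right _ _
  obtain ⟨δ, hδ, hδη, N, hN0, hsc⟩ := scale_choice hC hβ hη0 hε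
  refine ⟨δ / 2, by positivity, N, fun n hn c i j k l hnear => ?_⟩
  obtain ⟨r, R, hr, hrR, hRn, hδr, hRη, hbd⟩ := hsc n hn
  have hn0 : 0 < n := lt_of_lt_of_le hN0 hn
  have hn0' : (0 : ℝ) < n := by exact_mod_cast hn0
  obtain ⟨-, hi, hj, hk, hl⟩ := hnear
  rw [abs_le] at hi hj hk hl
  have hδn : δ * n ≤ η / 16 * n := by gcongr
  have hηn : 0 < η * n := by positivity
  have g1 : η * n ≤ (t₃ - t₂) * n := by gcongr
  have g2 : η * n ≤ (t₁ + L - t₄) * n := by gcongr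
  refine (h P L g hg n c i j k l r R hn0 hr hrR hRn ?_ ?_ ?_).trans hbd
  · have : (2 : ℝ) * R ≤ (k : ℝ) - j := by nlinarith
    exact_mod_cast this
  · have : (2 : ℝ) * R ≤ (i : ℝ) + n * L - l := by nlinarith
    exact_mod_cast this
  · rcases hdeg with e | e
    · right
      have : (j : ℝ) - i ≤ r := by rw [e] at hi; linarith
      exact_mod_cast this
    · left
      have : (l : ℝ) - k ≤ r := by rw [e] at hk; linarith
      exact_mod_cast this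

/-- **Touching arcs**: the limit is one. -/
theorem caC_one (hP : MPoly P) (hg : Cont P L g) {t₁ t₂ t₃ t₄ : ℝ} (h12 : t₁ < t₂) (h23 : t₂ ≤ t₃)
    (h34 : t₃ < t₄) (h41 : t₄ ≤ t₁ + L) (hdeg : t₂ = t₃ ∨ t₄ = t₁ + L) {ε : ℝ} (hε : 0 < ε) :
    ∃ δ > 0, ∃ N : ℕ, ∀ n ≥ N, ∀ c i j k l : ℤ, NearM t₁ t₂ t₃ t₄ δ n c i j k l →
      1 - ε ≤ Cr P g n c i j k l := by
  obtain ⟨δ, hδ, N, h⟩ := caC_zero (t₁ := t₂) (t₂ := t₃) (t₃ := t₄) (t₄ := t₁ + L) hg h34
    (by linarith) hdeg hε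
  refine ⟨min δ (min ((t₂ - t₁) / 2) ((t₄ - t₃) / 2)), ?_, max N 1, fun n hn c i j k l hnear => ?_⟩
  · refine lt_min hδ (lt_min ?_ ?_) <;> linarith
  have hn0 : 0 < n := lt_of_lt_of_le one_pos ((le_max_right _ _).trans hn)
  have hn0' : (0 : ℝ) < n := by exact_mod_cast hn0
  set d : ℝ := min δ (min ((t₂ - t₁) / 2) ((t₄ - t₃) / 2)) with hd
  have hd1 : d ≤ δ := min_le_left _ _
  have hd2 : d ≤ (t₂ - t₁) / 2 := (min_le_right _ _).trans (min_le_left _ _)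
  have hd3 : d ≤ (t₄ - t₃) / 2 := (min_le_right _ _).trans (min_le_right _ _)
  have hd1n : d * n ≤ δ * n := by gcongr
  have hd2n : d * n ≤ (t₂ - t₁) / 2 * n := by gcongr
  have hd3n : d * n ≤ (t₄ - t₃) / 2 * n := by gcongr
  have e23 : t₂ * n ≤ t₃ * n := by gcongr
  have e41 : t₄ * n ≤ (t₁ + L) * n := by gcongr
  obtain ⟨hc, hi, hj, hk, hl⟩ := hnear
  rw [abs_le] at hi hj hk hl
  set i' : ℤ := max i (l - n * L) with hi'
  set j' : ℤ := min j k with hj'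
  set k' : ℤ := max j k with hk'
  set l' : ℤ := min l (i + n * L) with hl'
  have ai : |(i' : ℝ) - t₁ * n| ≤ d * n := by
    rw [hi']
    push_cast
    rw [abs_le]
    constructor
    · have := le_max_left (i : ℝ) ((l : ℝ) - n * L)
      linarith
    · rcases max_choice (i : ℝ) ((l : ℝ) - n * L) with e | e <;> rw [e] <;> nlinarith
  have aj : |(j' : ℝ) - t₂ * n| ≤ d * n := by
    rw [hj']
    push_cast
    rw [abs_le]
    constructor
    · rcases min_choice (j : ℝ) (k : ℝ) with e | e <;> rw [e] <;> linarith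
    · have := min_le_left (j : ℝ) (k : ℝ)
      linarith
  have ak : |(k' : ℝ) - t₃ * n| ≤ d * n := by
    rw [hk']
    push_cast
    rw [abs_le]
    constructor
    · have := le_max_right (j : ℝ) (k : ℝ)
      linarith
    · rcases max_choice (j : ℝ) (k : ℝ) with e | e <;> rw [e] <;> linarith
  have al : |(l' : ℝ) - t₄ * n| ≤ d * n := by
    rw [hl']
    push_cast
    rw [abs_le]
    constructor
    · rcases min_choice (l : ℝ) ((i : ℝ) + n * L) with e | e <;> rw [e] <;> nlinarith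
    · have := min_le_left (l : ℝ) ((i : ℝ) + n * L)
      linarith
  have hij : i' ≤ j' := by
    rw [abs_le] at ai aj
    have : (i' : ℝ) ≤ j' := by nlinarith
    exact_mod_cast this
  have hkl : k' ≤ l' := by
    rw [abs_le] at ak al
    have : (k' : ℝ) ≤ l' := by nlinarith
    exact_mod_cast this
  have hjk : j' ≤ k' := (min_le_left _ _).trans (le_max_left _ _)
  have hli : l' ≤ i' + n * L := by
    rw [hl', hi']
    rcases le_total l (i + n * L) with e | e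
    · rw [min_eq_left e]
      have := le_max_right i (l - n * L)
      omega
    · rw [min_eq_right e]
      have := le_max_left i (l - n * L)
      omega
  have h1 : Cr P g n c i' j' k' l' ≤ Cr P g n c i j k l :=
    crP_mono (le_max_left _ _) (min_le_left _ _) (le_max_right _ _) (min_le_left _ _)
  have h2 := crP_dual hP hg hn0 hc hij hjk hkl hli
  have h3 : Cr P g n (1 - c) j' k' l' (i' + n * L) ≤ ε := by
    refine h n ((le_max_left _ _).trans hn) _ _ _ _ _ ⟨?_, aj.trans hd1n, ak.trans hd1n,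
      al.trans hd1n, ?_⟩
    · rcases hc with e | e <;> rw [e] <;> norm_num
    · push_cast
      rw [show ((i' : ℝ) + n * L - (t₁ + L) * n) = i' - t₁ * n by ring]
      exact ai.trans hd1n
  linarith

theorem tendsto_floor_div (s : ℝ) :
    Tendsto (fun n : ℕ => ((⌊s * n⌋ : ℤ) : ℝ) / n) atTop (nhds s) := by
  have h1 : Tendsto (fun n : ℕ => s - 1 / (n : ℝ)) atTop (nhds (s - 0)) :=
    tendsto_const_nhds.sub tendsto_one_div_atTop_nhds_zero_nat
  rw [sub_zero] at h1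
  refine tendsto_of_tendsto_of_tendsto_of_le_of_le' h1 tendsto_const_nhds ?_ ?_
  · filter_upwards [eventually_ge_atTop 1] with n hn
    have hn' : (0 : ℝ) < n := by exact_mod_cast hn
    rw [le_div_iff₀ hn', sub_mul, one_div, inv_mul_cancel₀ hn'.ne']
    linarith [Int.lt_floor_add_one (s * n)]
  · filter_upwards [eventually_ge_atTop 1] with n hn
    have hn' : (0 : ℝ) < n := by exact_mod_cast hn
    rw [div_le_iff₀ hn']
    exact Int.floor_le _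

/-- irrational marks are flat -/
theorem fl_of_irrational (g : ℤ → ℤ × ℤ) {t : ℝ} (h : Irrational t) : Fl g t :=
  fun k hk => absurd hk (h.ne_int k)

/-- **Separated nondegenerate arcs**, corners allowed. -/
theorem caC_sep (hCA : CAOut) (hP : MPoly P) (hg : Cont P L g) {t₁ t₂ t₃ t₄ : ℝ} (h12 : t₁ < t₂)
    (h23 : t₂ < t₃) (h34 : t₃ < t₄) (h41 : t₄ < t₁ + L) {ε : ℝ} (hε : 0 < ε) :
    ∃ q : ℝ, ∃ δ > 0, ∃ N : ℕ, ∀ n ≥ N, ∀ c i j k l : ℤ, NearM t₁ t₂ t₃ t₄ δ n c i j k l →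
      |Cr P g n c i j k l - q| ≤ ε := by
  set η : ℝ := min (t₃ - t₂) (t₁ + L - t₄) / 4 with hη
  have hm : 0 < min (t₃ - t₂) (t₁ + L - t₄) := lt_min (by linarith) (by linarith)
  have hη0 : 0 < η := by positivity
  have hη1 : 4 * η ≤ t₃ - t₂ := by
    have := min_le_left (t₃ - t₂) (t₁ + L - t₄)
    rw [hη]
    linarith
  have hη2 : 4 * η ≤ t₁ + L - t₄ := by
    have := min_le_right (t₃ - t₂) (t₁ + L - t₄)
    rw [hη]
    linarith
  obtain ⟨δ, hδ, N₁, hN₁, hcl⟩ := Cr_close hη0 (show 0 < ε / 2 by positivity)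
  set d : ℝ := min (min (δ / 4) η) (min (t₂ - t₁) (t₄ - t₃)) with hd
  have hd0 : 0 < d := lt_min (lt_min (by positivity) hη0) (lt_min (by linarith) (by linarith))
  have hd1 : d ≤ δ / 4 := (min_le_left _ _).trans (min_le_left _ _)
  have hd2 : d ≤ η := (min_le_left _ _).trans (min_le_right _ _)
  have hd3 : d ≤ t₂ - t₁ := (min_le_right _ _).trans (min_le_left _ _)
  have hd4 : d ≤ t₄ - t₃ := (min_le_right _ _).trans (min_le_right _ _)
  obtain ⟨s₁, i1, a1, b1⟩ := exists_irrational_btwn (show t₁ < t₁ + d by linarith)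
  obtain ⟨s₂, i2, a2, b2⟩ := exists_irrational_btwn (show t₂ < t₂ + d by linarith)
  obtain ⟨s₃, i3, a3, b3⟩ := exists_irrational_btwn (show t₃ < t₃ + d by linarith)
  obtain ⟨s₄, i4, a4, b4⟩ := exists_irrational_btwn (show t₄ < t₄ + d by linarith)
  obtain ⟨p, hp⟩ := hCA P L g hP hg s₁ s₂ s₃ s₄ (by linarith) (by linarith) (by linarith)
    (by linarith) (fl_of_irrational g i1) (fl_of_irrational g i2) (fl_of_irrational g i3)
    (fl_of_irrational g i4)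
  have hc0 := hp 0 (Or.inl rfl) _ _ _ _ (tendsto_floor_div s₁) (tendsto_floor_div s₂)
    (tendsto_floor_div s₃) (tendsto_floor_div s₄)
  have hc1 := hp 1 (Or.inr rfl) _ _ _ _ (tendsto_floor_div s₁) (tendsto_floor_div s₂)
    (tendsto_floor_div s₃) (tendsto_floor_div s₄)
  have he : 0 < ε / 2 := by positivity
  obtain ⟨N₂, hN₂⟩ := Metric.tendsto_atTop.1 hc0 _ he
  obtain ⟨N₃, hN₃⟩ := Metric.tendsto_atTop.1 hc1 _ he
  obtain ⟨M, hM⟩ := exists_nat_gt (max (1 / η) (4 / δ))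
  refine ⟨p, δ / 4, by positivity, max (max N₁ M) (max N₂ N₃), fun n hn c i j k l hnear => ?_⟩
  have n1 : N₁ ≤ n := ((le_max_left _ _).trans (le_max_left _ _)).trans hn
  have n2 : M ≤ n := ((le_max_right _ _).trans (le_max_left _ _)).trans hn
  have n3 : N₂ ≤ n := ((le_max_left _ _).trans (le_max_right _ _)).trans hn
  have n4 : N₃ ≤ n := ((le_max_right _ _).trans (le_max_right _ _)).trans hn
  have hn0 : 0 < n := lt_of_lt_of_le hN₁ n1
  have hn0' : (0 : ℝ) < n := by exact_mod_cast hn0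
  have n2' : (M : ℝ) ≤ n := by exact_mod_cast n2
  have hηn : 1 ≤ η * n := by
    have : 1 / η ≤ n := ((le_max_left _ _).trans hM.le).trans n2'
    rw [div_le_iff₀ hη0] at this
    linarith
  have hδn : 4 ≤ δ * n := by
    have : 4 / δ ≤ n := ((le_max_right _ _).trans hM.le).trans n2'
    rw [div_le_iff₀ hδ] at this
    linarith
  have hfl : ∀ s : ℝ, s * n - 1 < (⌊s * n⌋ : ℝ) ∧ (⌊s * n⌋ : ℝ) ≤ s * n := fun s =>
    ⟨by linarith [Int.lt_floor_add_one (s * n)], Int.floor_le _⟩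
  obtain ⟨u1, v1⟩ := hfl s₁
  obtain ⟨u2, v2⟩ := hfl s₂
  obtain ⟨u3, v3⟩ := hfl s₃
  obtain ⟨u4, v4⟩ := hfl s₄
  obtain ⟨hc, hi, hj, hk, hl⟩ := hnear
  have hdn : d * n ≤ δ / 4 * n := by gcongr
  -- distances of the marks
  have hclose : ∀ (x : ℤ) (t s : ℝ), |(x : ℝ) - t * n| ≤ δ / 4 * n → t < s → s < t + d →
      |(x : ℝ) - (⌊s * n⌋ : ℤ)| ≤ δ * n := by
    intro x t s h1 h2 h3
    obtain ⟨u, v⟩ := hfl s
    rw [abs_le] at h1 ⊢
    have k1 : t * n < s * n := by gcongr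
    have k2 : s * n < t * n + d * n := by
      rw [← add_mul]
      gcongr
    constructor <;> linarith
  have g12 : (⌊s₁ * n⌋ : ℤ) ≤ ⌊s₂ * n⌋ := by
    apply Int.floor_le_floor
    have : s₁ ≤ s₂ := by linarith
    gcongr
  have g34 : (⌊s₃ * n⌋ : ℤ) ≤ ⌊s₄ * n⌋ := by
    apply Int.floor_le_floor
    have : s₃ ≤ s₄ := by linarith
    gcongr
  have g23 : η * n ≤ (⌊s₃ * n⌋ : ℝ) - (⌊s₂ * n⌋ : ℝ) := by
    have h3 : (3 * η) * n ≤ (s₃ - s₂) * n := by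
      have : 3 * η ≤ s₃ - s₂ := by linarith
      gcongr
    rw [sub_mul, mul_assoc] at h3
    linarith
  have g41 : η * n ≤ (⌊s₁ * n⌋ : ℝ) + n * L - (⌊s₄ * n⌋ : ℝ) := by
    have h3 : (3 * η) * n ≤ (s₁ + L - s₄) * n := by
      have : 3 * η ≤ s₁ + L - s₄ := by linarith
      gcongr
    rw [sub_mul, add_mul, mul_assoc, mul_comm (L : ℝ)] at h3
    linarith
  have key := hcl P L g hg n n1 c _ _ _ _ i j k l g12 g34 g23 g41 (hclose _ _ _ hi a1 b1)
    (hclose _ _ _ hj a2 b2) (hclose _ _ _ hk a3 b3) (hclose _ _ _ hl a4 b4)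
  have key2 : |Cr P g n c ⌊s₁ * n⌋ ⌊s₂ * n⌋ ⌊s₃ * n⌋ ⌊s₄ * n⌋ - p| ≤ ε / 2 := by
    rcases hc with rfl | rfl
    · exact (hN₂ n n3).le
    · exact (hN₃ n n4).le
  exact (abs_sub_le _ _ _).trans (by linarith)

/-- **Arbitrary marks** (uniform form): `t₁ ≤ t₂ ≤ t₃ ≤ t₄ ≤ t₁ + L`, corners allowed; either both arcs are
nondegenerate or they are separated. -/
theorem ca_unif (hCA : CAOut) (hP : MPoly P) (hg : Cont P L g) {t₁ t₂ t₃ t₄ : ℝ} (h12 : t₁ ≤ t₂)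
    (h23 : t₂ ≤ t₃) (h34 : t₃ ≤ t₄) (h41 : t₄ ≤ t₁ + L)
    (hnd : (t₁ < t₂ ∧ t₃ < t₄) ∨ (t₂ < t₃ ∧ t₄ < t₁ + L)) :
    ∃ p : ℝ, ((t₁ = t₂ ∨ t₃ = t₄) → p = 0) ∧ ((t₂ = t₃ ∨ t₄ = t₁ + L) → p = 1) ∧
      ∀ ε > 0, ∃ δ > 0, ∃ N : ℕ, ∀ n ≥ N, ∀ c i j k l : ℤ, NearM t₁ t₂ t₃ t₄ δ n c i j k l →
        |Cr P g n c i j k l - p| ≤ ε := by
  by_cases hz : t₁ = t₂ ∨ t₃ = t₄
  · have hs : t₂ < t₃ ∧ t₄ < t₁ + L := by
      rcases hnd with h | h
      · rcases hz with e | e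
        · exact absurd e h.1.ne
        · exact absurd e h.2.ne
      · exact h
    refine ⟨0, fun _ => rfl, fun h => ?_, fun ε hε => ?_⟩
    · rcases h with e | e
      · exact absurd e hs.1.ne
      · exact absurd e hs.2.ne
    · obtain ⟨δ, hδ, N, h⟩ := caC_zero (P := P) hg hs.1 hs.2 hz hε
      refine ⟨δ, hδ, N, fun n hn c i j k l hnear => ?_⟩
      rw [sub_zero, abs_of_nonneg (crP_nonneg _ _ _ _ _ _ _ _)]
      exact h n hn c i j k l hnear
  · have hs : t₁ < t₂ ∧ t₃ < t₄ := by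
      push Not at hz
      exact ⟨lt_of_le_of_ne h12 hz.1, lt_of_le_of_ne h34 hz.2⟩
    by_cases ho : t₂ = t₃ ∨ t₄ = t₁ + L
    · refine ⟨1, fun h => absurd h hz, fun _ => rfl, fun ε hε => ?_⟩
      obtain ⟨δ, hδ, N, h⟩ := caC_one hP hg hs.1 h23 hs.2 h41 ho hε
      refine ⟨δ, hδ, N, fun n hn c i j k l hnear => ?_⟩
      have h1 := h n hn c i j k l hnear
      have h2 := crP_le_one P g n c i j k l
      rw [abs_le]
      constructor <;> linarith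
    · push Not at ho
      obtain ⟨p, hp⟩ := unif_of_cauchy (A := Cr P g) (t₁ := t₁) (t₂ := t₂) (t₃ := t₃) (t₄ := t₄)
        fun ε hε => caC_sep hCA hP hg hs.1 (lt_of_le_of_ne h23 ho.1) hs.2
          (lt_of_le_of_ne h41 ho.2) hε
      exact ⟨p, fun h => absurd h hz, fun h => absurd h (by push Not; exact ho), hp⟩

/-- **Arbitrary marks**, sequences of marks and of refinements. -/
theorem ca_corner (hCA : CAOut) (hP : MPoly P) (hg : Cont P L g) {t₁ t₂ t₃ t₄ : ℝ} (h12 : t₁ ≤ t₂)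
    (h23 : t₂ ≤ t₃) (h34 : t₃ ≤ t₄) (h41 : t₄ ≤ t₁ + L)
    (hnd : (t₁ < t₂ ∧ t₃ < t₄) ∨ (t₂ < t₃ ∧ t₄ < t₁ + L)) :
    ∃ p : ℝ, ((t₁ = t₂ ∨ t₃ = t₄) → p = 0) ∧ ((t₂ = t₃ ∨ t₄ = t₁ + L) → p = 1) ∧
      ∀ (m : ℕ → ℕ) (c i j k l : ℕ → ℤ), Tendsto m atTop atTop → (∀ n, c n = 0 ∨ c n = 1) →
        Tendsto (fun n => (i n : ℝ) / m n) atTop (nhds t₁) →
        Tendsto (fun n => (j n : ℝ) / m n) atTop (nhds t₂) →
        Tendsto (fun n => (k n : ℝ) / m n) atTop (nhds t₃) →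
        Tendsto (fun n => (l n : ℝ) / m n) atTop (nhds t₄) →
        Tendsto (fun n => Cr P g (m n) (c n) (i n) (j n) (k n) (l n)) atTop (nhds p) := by
  obtain ⟨p, hp0, hp1, hp⟩ := ca_unif hCA hP hg h12 h23 h34 h41 hnd
  refine ⟨p, hp0, hp1, fun m c i j k l hm hc hi hj hk hl => ?_⟩
  rw [Metric.tendsto_atTop]
  intro ε hε
  obtain ⟨δ, hδ, N, h⟩ := hp (ε / 2) (by positivity)
  have hev : ∀ (x : ℕ → ℤ) (t : ℝ), Tendsto (fun n => (x n : ℝ) / m n) atTop (nhds t) →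
      ∀ᶠ n in atTop, |(x n : ℝ) - t * m n| ≤ δ * m n := by
    intro x t hx
    filter_upwards [(Metric.tendsto_nhds.1 hx) δ hδ, hm.eventually_ge_atTop 1] with n h1 h2
    have h3 : (0 : ℝ) < m n := by exact_mod_cast h2
    rw [Real.dist_eq] at h1
    have h4 : (x n : ℝ) - t * m n = ((x n : ℝ) / m n - t) * m n := by
      field_simp
    rw [h4, abs_mul, abs_of_pos h3]
    gcongr
  have hfin : ∀ᶠ n in atTop, |Cr P g (m n) (c n) (i n) (j n) (k n) (l n) - p| ≤ ε / 2 := by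
    filter_upwards [hev i t₁ hi, hev j t₂ hj, hev k t₃ hk, hev l t₄ hl,
      hm.eventually_ge_atTop N] with n e1 e2 e3 e4 e5
    exact h (m n) e5 _ _ _ _ _ ⟨hc n, e1, e2, e3, e4⟩
  obtain ⟨N', hN'⟩ := eventually_atTop.1 hfin
  refine ⟨N', fun n hn => ?_⟩
  rw [Real.dist_eq]
  linarith [hN' n hn]

end

end Pool.Agent.SixB
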