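import Pool.Agent.Lib.SixB.A1Main

/-!
# 6BD, step 3: the local factor of the marked wall side

`we_lower`: the strand of a unit edge of a straight wall leaves the half box of radius `R` with
probability at least `c / R` (`pr_unit` of `A1Main` is the upper bound `C / R`).

Proof. With probability at least `c` there are an even crossing of the square on the left of `v` and
an odd crossing of the square on the right of `v`, both from the wall to the height `R`. Then the
strand of one of the `2 R` wall edges of the two squares goes up to the height `R`.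
-/

set_option autoImplicit false

namespace Pool.Agent.SixB

open Finset Pool.Agent.Perc Pool.Agent.PercD Pool.Agent.PercN Pool.Agent.Perc6 Pool.Agent.SixB.A1

variable {ω : Cfg} {v : ℤ × ℤ} {R : ℤ}

/-- An involution without fixed point on a finite set: the cardinality is even. -/
theorem even_card_of_partner {S : Finset ℤ} (r : ℤ → ℤ → Prop) (hs : ∀ x y, r x y → r y x)
    (h1 : ∀ x ∈ S, ∃ y ∈ S, y ≠ x ∧ r x y)
    (h2 : ∀ x ∈ S, ∀ y ∈ S, ∀ z ∈ S, r x y → r x z → y ≠ x → z ≠ x → y = z) : Even S.card := by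
  classical
  choose! g hg1 hg2 hg3 using h1
  have hinv : ∀ x ∈ S, g (g x) = x := by
    intro x hx
    have hgx := hg1 x hx
    exact h2 (g x) hgx (g (g x)) (hg1 _ hgx) x hx (hg3 _ hgx) (hs _ _ (hg3 x hx)) (hg2 _ hgx)
      (hg2 x hx).symm
  have h0 : ∑ _x ∈ S, (1 : ZMod 2) = 0 :=
    Finset.sum_involution (fun x _ => g x) (fun _ _ => by decide) (fun x hx _ => hg2 x hx)
      (fun x hx => hg1 x hx) hinv
  rw [Finset.sum_const, nsmul_eq_mul, mul_one] at h0
  exact (ZMod.natCast_eq_zero_iff_even).1 h0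

/-- The end of a path which is not constant is a corner of a face. -/
theorem conn_end {F : Set (ℤ × ℤ)} {u z : ℤ × ℤ} (h : Conn ω F u z) (hne : u ≠ z) :
    ∃ f ∈ F, IsCor f z := by
  rcases Relation.ReflTransGen.cases_tail h with h | ⟨w, -, hb⟩
  · exact absurd h.symm hne
  · obtain ⟨g, hg, -, -, hcq⟩ := hb.exists_face
    exact ⟨g, hg, hcq⟩

/-- The two crossings. -/
def TwoCr (v : ℤ × ℤ) (R : ℤ) : Set Cfg :=
  BT 0 (v.1 - R) v.1 v.2 (v.2 + R) ∩ BT 1 v.1 (v.1 + R) v.2 (v.2 + R)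

/-- Between the two crossings there is a strand from the wall to the top. -/
theorem exists_strand (hR : 0 < R) (h : ω ∈ TwoCr v R) :
    ∃ x, v.1 - R ≤ x ∧ x < v.1 + R ∧ ∃ p, ((p, v.2 + R, false) : UE) ∈
      MM ω (RF (v.1 - R) (v.1 + R) v.2 (v.2 + R)) (x, v.2, false) := by
  obtain ⟨⟨u0, z0, a1, a2, a3, a4, a5, a6⟩, ⟨u1, z1, b1, b2, b3, b4, b5, b6⟩⟩ := h
  set G : Set (ℤ × ℤ) := (RF (v.1 - R) (v.1 + R) v.2 (v.2 + R) : Set (ℤ × ℤ)) with hG
  have c0 : Conn ω G u0 z0 := Conn.mono (fun f hf => by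
    rw [mem_RF'] at hf
    rw [hG, mem_RF']
    omega) a6
  have c1 : Conn ω G u1 z1 := Conn.mono (fun f hf => by
    rw [mem_RF'] at hf
    rw [hG, mem_RF']
    omega) b6
  obtain ⟨x0, y0⟩ := u0
  obtain ⟨x1, y1⟩ := u1
  simp only at a1 a2 a3 a5 b1 b2 b3 b5
  subst a1 b1
  have hlt : x0 < x1 := by omega
  have hbd : ∀ x : ℤ, v.1 - R ≤ x → x < v.1 + R → BdU G (x, v.2, false) := by
    intro x h1 h2
    refine ⟨⟨(x, v.2), ?_, Or.inl rfl⟩, ⟨(x, v.2 - 1), ?_, Or.inr (Or.inr (Or.inl ?_))⟩⟩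
    · rw [hG, mem_RF']
      simp only
      omega
    · rw [hG, mem_RF']
      simp only
      omega
    · simp [to']
  -- a wall edge between the two crossings which is not joined to another one
  obtain ⟨x, hx, hgood⟩ : ∃ x ∈ Ico x0 x1, ∀ y ∈ Ico x0 x1, y ≠ x →
      ((y, v.2, false) : UE) ∉ MM ω G (x, v.2, false) := by
    by_contra hcon
    push Not at hcon
    have hev := even_card_of_partner (S := Ico x0 x1)
      (fun x y => ((y, v.2, false) : UE) ∈ MM ω G (x, v.2, false))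
      (fun x y h => MM_symm h) hcon (fun x hx y hy z hz hy1 hz1 hyx hzx => by
        rw [mem_Ico] at hx hy hz
        have := bdU_unique (hbd x (by omega) (by omega)) hy1 hz1 (hbd y (by omega) (by omega))
          (hbd z (by omega) (by omega)) (by simpa using hyx) (by simpa using hzx)
        simpa using this)
    rw [Int.card_Ico] at hev
    obtain ⟨k, hk⟩ := hev
    omega
  rw [mem_Ico] at hx
  refine ⟨x, by omega, by omega, ?_⟩
  obtain ⟨Φ, hP⟩ := (show HasPot G from hasPot_RF _ _ _ _) (MM ω G (x, v.2, false))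
    fun f hf => evenAt_MM hf
  -- the potential along the wall
  have hw : ∀ a b : ℤ, x0 ≤ a → a ≤ b → b ≤ x1 → (∀ i, a ≤ i → i < b → i ≠ x) →
      Φ (a, v.2) = Φ (b, v.2) := by
    intro a b h1 h2 h3 h4
    refine pot_segH hP h2 fun i hi hi' => ⟨(hbd i (by omega) (by omega)).1, ?_⟩
    exact hgood i (by rw [mem_Ico]; omega) (h4 i hi hi')
  have e1 := hw x0 x le_rfl (by omega) (by omega) (by intro i _ _; omega)
  have e2 := hw (x + 1) x1 (by omega) (by omega) le_rfl (by intro i _ _; omega)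
  have e3 : Φ (x, v.2) ≠ Φ (x + 1, v.2) := hP.ne (by simp [Joins, ua, ub])
    (hbd x (by omega) (by omega)).1
  have e4 := hP.conn c0
  have e5 := hP.conn c1
  have hz : Φ z0 ≠ Φ z1 := by
    rw [← e4, ← e5, e1, ← e2]
    exact e3
  -- the top side
  obtain ⟨p0, q0⟩ := z0
  obtain ⟨p1, q1⟩ := z1
  simp only at a4 b4
  subst a4 b4
  have hb0 : v.1 - R ≤ p0 ∧ p0 ≤ v.1 + R := by
    obtain ⟨f, hf, hc⟩ := conn_end c0 (by simp; omega)
    have := hc.inR hf
    unfold InR at this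
    simp only at this
    omega
  have hb1 : v.1 - R ≤ p1 ∧ p1 ≤ v.1 + R := by
    obtain ⟨f, hf, hc⟩ := conn_end c1 (by simp; omega)
    have := hc.inR hf
    unfold InR at this
    simp only at this
    omega
  by_contra hcon
  push Not at hcon
  have hT : ∀ a b : ℤ, v.1 - R ≤ a → a ≤ b → b ≤ v.1 + R → Φ (a, v.2 + R) = Φ (b, v.2 + R) := by
    intro a b h1 h2 h3
    refine pot_segH hP h2 fun i hi hi' => ⟨⟨(i, v.2 + R - 1), ?_, ?_⟩, hcon i⟩
    · rw [hG, mem_RF']
      simp only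
      omega
    · right; right; left
      simp [to']
  rcases le_total p0 p1 with h | h
  · exact hz (hT _ _ hb0.1 h hb1.2)
  · exact hz (hT _ _ hb1.1 h hb0.2).symm

/-- The strand leaves the half box around its wall edge. -/
theorem exists_WE (hR : 0 < R) (h : ω ∈ TwoCr v R) :
    ∃ x ∈ Ico (-R) R, ω ∈ WE (v.1 + x, v.2) R := by
  obtain ⟨x, hx, hx', p, hp⟩ := exists_strand hR h
  refine ⟨x - v.1, by rw [mem_Ico]; omega, ?_⟩
  have e1 : (v.1 + (x - v.1), v.2) = (x, v.2) := by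
    rw [Prod.mk.injEq]
    exact ⟨by ring, rfl⟩
  rw [e1]
  have hin : InE (x, v.2) R (x, v.2, false) := by
    unfold InE InR
    simp only [ua_mk, ub_false]
    omega
  have hs1 : ((RF (v.1 - R) (v.1 + R) v.2 (v.2 + R) : Set (ℤ × ℤ)) ∩
      (BR (x, v.2) R : Set (ℤ × ℤ))) ⊆ (HB (x, v.2) R : Set (ℤ × ℤ)) := by
    intro f hf
    have h1 := mem_RF'.1 hf.1
    have h2 := mem_BR'.1 hf.2
    rw [mem_HB]
    simp only at h2 ⊢
    omega
  rcases Perc6.N1Aux.first_exitF hin hp with h1 | ⟨b, h1, h2⟩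
  · refine ⟨_, MM_mono hs1 h1, ?_⟩
    have h3 := MM_inE hin (MM_mono (F' := (BR (x, v.2) R : Set (ℤ × ℤ))) Set.inter_subset_right h1)
    unfold InE InR at h3
    simp only [ua_mk, ub_false] at h3
    unfold BdR BdE
    refine Or.inl ⟨rfl, ?_, ?_, Or.inr ?_⟩ <;> simp only <;> omega
  · exact ⟨b, MM_mono hs1 h1, h2⟩

/-- The strand of the unit edge of the wall at `v` leaves the half box of radius `R` with
probability at least `c / R`. -/
theorem we_lower : ∃ c : ℝ, 0 < c ∧ ∀ (v : ℤ × ℤ) (R : ℤ) (W : Finset (ℤ × ℤ)), 0 < R →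
    HB v R ⊆ W → c / R ≤ pr W (WE v R) := by
  obtain ⟨c, hc, h⟩ := rswF' 1
  refine ⟨c * c / 2, by positivity, fun v R W hR hW => ?_⟩
  have hRr : (0 : ℝ) < R := by exact_mod_cast hR
  rw [pr_eq_of_depOn (depOn_WE v R) hW]
  have hcr : c * c ≤ pr (HB v (2 * R)) (TwoCr v R) := by
    unfold TwoCr
    rw [pr_indep (depOn_BT 0 (v.1 - R) v.1 v.2 (v.2 + R)) (depOn_BT 1 v.1 (v.1 + R) v.2 (v.2 + R))
      ?_ ?_ ?_]
    · have h1 := h 0 (v.1 - R) v.1 v.2 (v.2 + R) (by omega) (by omega) (by push_cast; omega)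
      have h2 := h 1 v.1 (v.1 + R) v.2 (v.2 + R) (by omega) (by omega) (by push_cast; omega)
      exact mul_le_mul h1 h2 hc.le (hc.le.trans h1)
    · rw [disjoint_left]
      intro f hf hf'
      have h1 := mem_RF'.1 (mem_coe.2 hf)
      have h2 := mem_RF'.1 (mem_coe.2 hf')
      omega
    · intro f hf
      have h1 := mem_RF'.1 (mem_coe.2 hf)
      refine mem_coe.1 (mem_HB.2 ?_)
      omega
    · intro f hf
      have h1 := mem_RF'.1 (mem_coe.2 hf)
      refine mem_coe.1 (mem_HB.2 ?_)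
      omega
  have hsum : pr (HB v (2 * R)) (TwoCr v R) ≤
      ∑ x ∈ Ico (-R) R, pr (HB v (2 * R)) (WE (v.1 + x, v.2) R) := by
    refine (pr_mono _ fun ω hω => ?_).trans (pr_biUnion_le (HB v (2 * R)) (Ico (-R) R)
      fun x => WE (v.1 + x, v.2) R)
    obtain ⟨x, hx, hx'⟩ := exists_WE hR hω
    exact Set.mem_iUnion₂.2 ⟨x, hx, hx'⟩
  have hterm : ∀ x ∈ Ico (-R) R, pr (HB v (2 * R)) (WE (v.1 + x, v.2) R) = pr (HB v R) (WE v R) := by
    intro x hx
    rw [mem_Ico] at hx
    rw [← pr_WE_translate v R x]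
    refine pr_eq_of_depOn (depOn_WE _ _) ?_
    intro f hf
    have h1 := mem_HB.1 (mem_coe.2 hf)
    refine mem_coe.1 (mem_HB.2 ?_)
    simp only at h1
    omega
  rw [sum_congr rfl hterm, sum_const, Int.card_Ico, nsmul_eq_mul] at hsum
  have hcast : (((R - -R).toNat : ℕ) : ℝ) = 2 * R := by
    have : ((R - -R).toNat : ℤ) = 2 * R := by omega
    exact_mod_cast this
  rw [hcast] at hsum
  rw [div_le_iff₀ hRr]
  nlinarith [hcr.trans hsum]

end Pool.Agent.SixB
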