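import Pool.Agent.Lib.SixB.CADomUpP
import Pool.Agent.Lib.SixB.S3Fe

/-!
# 6BD block CA: the mean of the majorant, general factor

`F` is a finite set of faces, `v i` special vertices with walls `PA i`, `PB i` and disjoint boxes `BR (v i) (r i)`.
* `dom_avY`: `E[(∏ t i ^ N i) * Y * g] ≤ C √(E Y²) (∏ E[t i ^ N i]) E[g]`, `Y ≥ 0` a function of the faces off the
  inner boxes `BR (v i) (r i / 2)` and off the faces `D` of `g ≥ 0`;
* `KB_av`, `dom_avK`: the same for `Y = q ^ (K + 1)`, `K` at most the number `KB` of the strands of large extent in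
  a window;
* `fac_mono`, `fac_step`, `fac_le`: the factors `E[t ^ N]`, `t ∈ [1, T]`, of different radii are comparable;
* `leg_mono`, `leg_le`: the same for the leg `WE` of a wall side.
-/

set_option autoImplicit false

namespace Pool.Agent.SixB.DomPr

open Finset Pool.Agent.Perc Pool.Agent.PercD Pool.Agent.PercN Pool.Agent.SixB.Wd Pool.Agent.SixB.DomUp

noncomputable section

/-- the hypotheses on the special vertices -/
structure Spec {ι : Type} (V : Finset ι) (F : Finset (ℤ × ℤ)) (v : ι → ℤ × ℤ) (PA PB : ι → UE → Prop)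
    (r : ι → ℕ) : Prop where
  A : ∀ i ∈ V, ∀ e, PA i e → BdF (F : Set (ℤ × ℤ)) e
  B : ∀ i ∈ V, ∀ e, PB i e → BdF (F : Set (ℤ × ℤ)) e
  AB : ∀ i ∈ V, ∀ e, PA i e → ¬ PB i e
  sep : ∀ i ∈ V, ∀ s : ℤ, 0 < s → s ≤ r i → WSep (F : Set (ℤ × ℤ)) (PA i) (PB i) (v i) s
  dis : ∀ i ∈ V, ∀ j ∈ V, i ≠ j → Disjoint (BR (v i) (r i)) (BR (v j) (r j))

/-- the local factor -/
def fac (F : Finset (ℤ × ℤ)) (PA PB : UE → Prop) (v : ℤ × ℤ) (r : ℤ) (t : ℝ) : ℝ :=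
  av F (fun ω => t ^ NA F PA PB v r ω)

/-- **The mean of the majorant, any factor `Y`.** -/
theorem dom_avY (nV : ℕ) (t₀ T : ℝ) (ht₀ : 0 < t₀) (ht₁ : t₀ ≤ 1) (hT : 1 ≤ T) :
    ∃ C : ℝ, 1 ≤ C ∧ ∀ (ι : Type) (V : Finset ι) (F : Finset (ℤ × ℤ)) (v : ι → ℤ × ℤ)
      (PA PB : ι → UE → Prop) (r : ι → ℕ) (t : ι → ℝ) (D : Set (ℤ × ℤ)) (g Y : Cfg → ℝ), V.card ≤ nV →
      Spec V F v PA PB r → (∀ i ∈ V, t₀ ≤ t i ∧ t i ≤ T) →
      (∀ ω, 0 ≤ Y ω) → (∀ i ∈ V, Dep ((BR (v i) ((r i / 2 : ℕ) : ℤ) : Set (ℤ × ℤ))ᶜ) Y) → Dep Dᶜ Y →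
      Dep D g → (∀ ω, 0 ≤ g ω) → (∀ i ∈ V, Disjoint D (BR (v i) (r i) : Set (ℤ × ℤ))) →
      av F (fun ω => (∏ i ∈ V, t i ^ NA F (PA i) (PB i) (v i) (r i) ω) * Y ω * g ω) ≤
        C * Real.sqrt (av F fun ω => Y ω ^ 2) * (∏ i ∈ V, fac F (PA i) (PB i) (v i) (r i) (t i)) * av F g := by
  classical
  obtain ⟨c, hc⟩ := cM_moment
  obtain ⟨C₁, hC₁, h1⟩ := qm_upper c t₀ T 1 ht₀ ht₁ hT
  refine ⟨C₁ ^ nV, one_le_pow₀ hC₁, ?_⟩
  intro ι V F v PA PB r t D g Y hV hsp ht hY0 hYd' hYD hg hg0 hD1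
  obtain ⟨hA, hB, hAB, hs, hdis⟩ := hsp
  let Dt : ChainData (LH.avSys F) V :=
    { B := fun i => cB F (v i) (r i)
      N := fun i => cN F (PA i) (PB i) (v i) (r i)
      M := fun i => cM F (PA i) (PB i) (v i) (r i)
      hB := fun i j => cB_anti j
      hdis := by
        rintro ⟨i, hi⟩ ⟨j, hj⟩ hne
        have h3 := hdis i hi j hj (fun h => hne (Subtype.ext h))
        rw [Set.disjoint_left]
        rintro f ⟨-, hf⟩ ⟨-, hf'⟩
        rw [rj_zero] at hf hf'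
        exact Finset.disjoint_left.1 h3 (mem_coe.1 hf) (mem_coe.1 hf')
      hN := fun i j => dep_cN j
      hM := fun i j => dep_cM j
      hN1 := fun i j ω => cN_anti j ω
      hN2 := fun i j ω => cN_le (hA i i.2) (hB i i.2) (hAB i i.2) j ω
      J := V.sup r
      hJ := fun i j hj ω => cN_of_zero (hAB i i.2) (rj_eq_zero
        ((Finset.le_sup (f := r) i.2).trans hj)) ω }
  have hgood : Dt.Good (fun i => t i) c t₀ T 1 :=
    { mom := fun lam hlam i j => hc lam hlam F (PA i) (PB i) (v i) (r i) j (hA i i.2) (hB i i.2)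
        (hAB i i.2) (hs i i.2)
      t_nonneg := fun i => ht₀.le.trans (ht i i.2).1
      t_le := fun i => (ht i i.2).2
      scale := fun i => Or.inl (ht i i.2).1 }
  have hrj : ∀ i, rj (r i) 0 = (r i : ℤ) := fun i => rj_zero (r i)
  have hrj1 : ∀ i, rj (r i) 1 = ((r i / 2 : ℕ) : ℤ) := fun i => by
    unfold rj
    rw [pow_one]
  -- `Y` depends on the faces of `F` only through `av`
  set Y' : Cfg → ℝ := fun ω => Y fun f => if f ∈ F then ω f else false with hY'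
  have hYY : ∀ T ⊆ F, Y' (ind T) = Y (ind T) := by
    intro T hT
    rw [hY']
    simp only
    congr 1
    funext f
    by_cases hf : f ∈ F
    · rw [if_pos hf]
    · rw [if_neg hf]
      unfold ind
      have : f ∉ T := fun h => hf (hT h)
      simp [this]
  have hYd : ∀ i ∈ (Finset.univ : Finset V), (LH.avSys F).Dep (Dt.B i 1)ᶜ Y' := by
    intro i _ ω ω' hω
    refine hYd' i i.2 _ _ fun f hf => ?_
    by_cases hfF : f ∈ F
    · rw [if_pos hfF, if_pos hfF]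
      refine hω f ?_
      rintro ⟨-, hf'⟩
      rw [hrj1] at hf'
      exact hf hf'
    · rw [if_neg hfF, if_neg hfF]
  have k1 := h1 Cfg (ℤ × ℤ) V (LH.avSys F) Dt (fun i => t i) hgood Finset.univ Y'
    (fun ω => hY0 _) hYd
  set P : Cfg → ℝ := fun ω => ∏ i ∈ V, t i ^ NA F (PA i) (PB i) (v i) (r i) ω with hP
  have eP : ∀ ω, (∏ i ∈ (Finset.univ : Finset V), t i ^ Dt.N i 0 ω) = P ω := by
    intro ω
    rw [hP]
    simp only
    rw [← Finset.prod_coe_sort V (fun i => t i ^ NA F (PA i) (PB i) (v i) (r i) ω)]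
    refine Finset.prod_congr rfl fun i _ => ?_
    show t i ^ NA F (PA i) (PB i) (v i) (rj (r i) 0) ω = _
    rw [hrj]
  have eF : (∏ i ∈ (Finset.univ : Finset V), Dt.F i (t i) 0) =
      ∏ i ∈ V, fac F (PA i) (PB i) (v i) (r i) (t i) := by
    rw [← Finset.prod_coe_sort V (fun i => fac F (PA i) (PB i) (v i) (r i) (t i))]
    refine Finset.prod_congr rfl fun i _ => ?_
    show av F (fun ω => t i ^ NA F (PA i) (PB i) (v i) (rj (r i) 0) ω) = _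
    rw [hrj]
    rfl
  have hF0 : 0 ≤ ∏ i ∈ V, fac F (PA i) (PB i) (v i) (r i) (t i) :=
    Finset.prod_nonneg fun i hi => av_nonneg fun _ _ => pow_nonneg (ht₀.le.trans (ht i hi).1) _
  have k2 : av F (fun ω => Y' ω ^ 2) = av F fun ω => Y ω ^ 2 :=
    av_congr fun T hT => by simp only [hYY T hT]
  have k4 : av F (fun ω => P ω * Y ω) ≤ C₁ ^ nV * Real.sqrt (av F fun ω => Y ω ^ 2) *
      ∏ i ∈ V, fac F (PA i) (PB i) (v i) (r i) (t i) := by
    have e1 : av F (fun ω => P ω * Y ω) = (LH.avSys F).E (fun ω =>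
        (∏ i ∈ (Finset.univ : Finset V), t i ^ Dt.N i 0 ω) * Y' ω) := by
      rw [LH.avSys_E]
      exact av_congr fun T' hT' => by simp only [eP, hYY T' hT']
    rw [e1]
    refine k1.trans ?_
    rw [eF, Finset.card_univ, Fintype.card_coe, LH.avSys_E, k2]
    have h5 : C₁ ^ V.card ≤ C₁ ^ nV := pow_le_pow_right₀ hC₁ hV
    calc C₁ ^ V.card * (∏ i ∈ V, fac F (PA i) (PB i) (v i) (r i) (t i)) *
          Real.sqrt (av F fun ω => Y ω ^ 2)
        ≤ C₁ ^ nV * (∏ i ∈ V, fac F (PA i) (PB i) (v i) (r i) (t i)) *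
          Real.sqrt (av F fun ω => Y ω ^ 2) :=
          mul_le_mul_of_nonneg_right (mul_le_mul_of_nonneg_right h5 hF0) (Real.sqrt_nonneg _)
      _ = _ := by ring
  have k5 : av F (fun ω => P ω * Y ω * g ω) = av F (fun ω => P ω * Y ω) * av F g := by
    refine LH.av_indep_set (A := Dᶜ) (B := D) disjoint_compl_left ?_ hg
    intro ω ω' hω
    have e1 : P ω = P ω' := by
      refine Finset.prod_congr rfl fun i hi => ?_
      congr 1
      refine (depN_NA (F : Set (ℤ × ℤ)) (PA i) (PB i) (v i) (r i) : Dep _ _) ω ω' fun f hf =>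
        hω f fun hfD => ?_
      exact Set.disjoint_left.1 (hD1 i hi) hfD hf.2
    show P ω * Y ω = P ω' * Y ω'
    rw [e1, hYD ω ω' hω]
  rw [k5]
  exact mul_le_mul_of_nonneg_right k4 (av_nonneg fun _ _ => hg0 _)

/-! ## Strands of large extent in a window -/

/-- second moment of `q ^ (K + 1)` -/
theorem KB_av (L : ℕ) {q : ℝ} (hq : 1 ≤ q) : ∃ C : ℝ, 0 < C ∧ ∀ (F : Finset (ℤ × ℤ)) (x₀ y₀ n : ℤ) (K : Cfg → ℕ),
    0 < n → F ⊆ RF x₀ (x₀ + n * L) y₀ (y₀ + n * L) → Dep (F : Set (ℤ × ℤ)) K → (∀ ω, K ω ≤ KB ω x₀ y₀ n L) →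
      av F (fun ω => (q ^ (K ω + 1)) ^ 2) ≤ C := by
  obtain ⟨C, hC, h⟩ := KB_moment L (one_le_pow₀ hq (n := 2))
  refine ⟨q ^ 2 * C, by positivity, fun F x₀ y₀ n K hn hF hd hK => ?_⟩
  have hd' : Dep (F : Set (ℤ × ℤ)) (fun ω => (q ^ (K ω + 1)) ^ 2) := fun ω ω' hω => by
    simp only [hd ω ω' hω]
  rw [← av_dep hd' hF]
  have h1 := h x₀ y₀ n (RF x₀ (x₀ + n * L) y₀ (y₀ + n * L)) hn (Finset.Subset.refl _)
  rw [← av_eq (RF x₀ (x₀ + n * L) y₀ (y₀ + n * L)) (fun ω => (q ^ 2) ^ KB ω x₀ y₀ n L)] at h1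
  refine le_trans (av_mono (g' := fun ω => q ^ 2 * (q ^ 2) ^ KB ω x₀ y₀ n L) fun T _ => ?_) ?_
  · have h2 := hK (ind T)
    have h3 : (1 : ℝ) ≤ q ^ 2 := one_le_pow₀ hq
    calc (q ^ (K (ind T) + 1)) ^ 2 = q ^ 2 * (q ^ 2) ^ K (ind T) := by ring
      _ ≤ _ := mul_le_mul_of_nonneg_left (pow_le_pow_right₀ h3 h2) (by positivity)
  · rw [av_mul]
    exact mul_le_mul_of_nonneg_left h1 (by positivity)

/-- **The mean of the majorant, large strands.** -/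
theorem dom_avK (nV L : ℕ) (t₀ T q : ℝ) (ht₀ : 0 < t₀) (ht₁ : t₀ ≤ 1) (hT : 1 ≤ T) (hq : 1 ≤ q) :
    ∃ C : ℝ, 1 ≤ C ∧ ∀ (ι : Type) (V : Finset ι) (F : Finset (ℤ × ℤ)) (v : ι → ℤ × ℤ)
      (PA PB : ι → UE → Prop) (r : ι → ℕ) (t : ι → ℝ) (D : Set (ℤ × ℤ)) (g : Cfg → ℝ) (K : Cfg → ℕ)
      (x₀ y₀ n : ℤ), V.card ≤ nV → Spec V F v PA PB r → (∀ i ∈ V, t₀ ≤ t i ∧ t i ≤ T) →
      0 < n → F ⊆ RF x₀ (x₀ + n * L) y₀ (y₀ + n * L) → (∀ ω, K ω ≤ KB ω x₀ y₀ n L) →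
      Dep (F : Set (ℤ × ℤ)) K →
      (∀ i ∈ V, Dep ((BR (v i) ((r i / 2 : ℕ) : ℤ) : Set (ℤ × ℤ))ᶜ) K) → Dep Dᶜ K →
      Dep D g → (∀ ω, 0 ≤ g ω) → (∀ i ∈ V, Disjoint D (BR (v i) (r i) : Set (ℤ × ℤ))) →
      av F (fun ω => (∏ i ∈ V, t i ^ NA F (PA i) (PB i) (v i) (r i) ω) * q ^ (K ω + 1) * g ω) ≤
        C * (∏ i ∈ V, fac F (PA i) (PB i) (v i) (r i) (t i)) * av F g := by
  obtain ⟨C₁, hC₁, h1⟩ := dom_avY nV t₀ T ht₀ ht₁ hT
  obtain ⟨C₂, hC₂, h2⟩ := KB_av L hq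
  refine ⟨C₁ * (1 + C₂), by nlinarith, ?_⟩
  intro ι V F v PA PB r t D g K x₀ y₀ n hV hsp ht hn hF hK hKF hKd hKD hg hg0 hD
  have hq0 : (0 : ℝ) ≤ q := by linarith
  have k1 := h1 ι V F v PA PB r t D g (fun ω => q ^ (K ω + 1)) hV hsp ht (fun ω => by positivity)
    (fun i hi ω ω' hω => by simp only [hKd i hi ω ω' hω]) (fun ω ω' hω => by simp only [hKD ω ω' hω])
    hg hg0 hD
  refine k1.trans ?_
  have k2 : Real.sqrt (av F fun ω => (q ^ (K ω + 1)) ^ 2) ≤ 1 + C₂ := by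
    refine Real.sqrt_le_iff.2 ⟨by positivity, (h2 F x₀ y₀ n K hn hF hKF hK).trans ?_⟩
    nlinarith
  have hF0 : 0 ≤ ∏ i ∈ V, fac F (PA i) (PB i) (v i) (r i) (t i) :=
    Finset.prod_nonneg fun i hi => av_nonneg fun _ _ => pow_nonneg (ht₀.le.trans (ht i hi).1) _
  have hg1 : 0 ≤ av F g := av_nonneg fun _ _ => hg0 _
  refine mul_le_mul_of_nonneg_right (mul_le_mul_of_nonneg_right ?_ hF0) hg1
  exact mul_le_mul_of_nonneg_left k2 (by linarith)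

/-! ## Different radii -/

section radii

variable {F : Finset (ℤ × ℤ)} {PA PB : UE → Prop} {v : ℤ × ℤ} {t : ℝ}

theorem fac_nonneg (ht : 0 ≤ t) (r : ℤ) : 0 ≤ fac F PA PB v r t := av_nonneg fun _ _ => pow_nonneg ht _

theorem fac_mono (ht : 1 ≤ t) {r r' : ℤ} (h : r' ≤ r) : fac F PA PB v r' t ≤ fac F PA PB v r t :=
  av_mono fun _ _ => pow_le_pow_right₀ ht (NA_mono h _)

theorem one_le_fac (ht : 1 ≤ t) (r : ℤ) : 1 ≤ fac F PA PB v r t := by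
  rw [← av_const (S := F) 1]
  exact av_mono fun _ _ => one_le_pow₀ ht

end radii

/-- one step: half of the radius -/
theorem fac_step (T : ℝ) (hT : 1 ≤ T) : ∃ A : ℝ, 1 ≤ A ∧ ∀ (F : Finset (ℤ × ℤ)) (PA PB : UE → Prop) (v : ℤ × ℤ)
    (r : ℕ) (t : ℝ), 1 ≤ t → t ≤ T → (∀ e, PA e → BdF (F : Set (ℤ × ℤ)) e) →
    (∀ e, PB e → BdF (F : Set (ℤ × ℤ)) e) → (∀ e, PA e → ¬ PB e) →
    (∀ s : ℤ, 0 < s → s ≤ r → WSep (F : Set (ℤ × ℤ)) PA PB v s) →
      fac F PA PB v r t ≤ A * fac F PA PB v ((r / 2 : ℕ) : ℤ) t := by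
  obtain ⟨c, hc⟩ := cM_moment
  obtain ⟨C₁, hC₁, h1⟩ := dom_avY 1 1 T one_pos le_rfl hT
  have hT2 : (1 : ℝ) ≤ T ^ 2 := one_le_pow₀ hT
  have hT0 : (0 : ℝ) ≤ T := by linarith
  refine ⟨C₁ * (1 + |c (T ^ 2)|), by nlinarith [abs_nonneg (c (T ^ 2))], ?_⟩
  intro F PA PB v r t ht htT hA hB hAB hs
  have hr1 : rj r 1 = ((r / 2 : ℕ) : ℤ) := by
    unfold rj
    rw [pow_one]
  have hr2 : rj r 2 = (((r / 2 : ℕ) / 2 : ℕ) : ℤ) := by
    unfold rj
    rw [Nat.div_div_eq_div_mul]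
    norm_num
  have hr0 : ((r / 2 : ℕ) : ℤ) ≤ r := by exact_mod_cast Nat.div_le_self _ _
  have hM2 : cM (F : Set (ℤ × ℤ)) PA PB v r 0 = cM (F : Set (ℤ × ℤ)) PA PB v r 0 := rfl
  have k1 := h1 Unit {()} F (fun _ => v) (fun _ => PA) (fun _ => PB) (fun _ => r / 2) (fun _ => t) ∅
    (fun _ => 1) (fun ω => T ^ cM (F : Set (ℤ × ℤ)) PA PB v r 0 ω) (by simp)
    { A := fun _ _ => hA
      B := fun _ _ => hB
      AB := fun _ _ => hAB
      sep := fun _ _ s h0 h => hs s h0 (h.trans hr0)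
      dis := fun i _ j _ hij => absurd (Subsingleton.elim i j) hij }
    (fun _ _ => ⟨ht, htT⟩) (fun ω => pow_nonneg hT0 _) (by
      intro _ _ ω ω' hω
      have : cM (F : Set (ℤ × ℤ)) PA PB v r 0 ω = cM (F : Set (ℤ × ℤ)) PA PB v r 0 ω' := by
        refine dep_cM 0 ω ω' ?_
        rintro f ⟨hf, hf'⟩
        refine hω f fun hc' => hf' ⟨hf.1, ?_⟩
        rw [show 0 + 2 = 2 from rfl, hr2]
        exact hc'
      simp only [this])
    (by
      intro ω ω' hω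
      have : ω = ω' := funext fun f => hω f (by simp)
      rw [this])
    (fun _ _ _ => rfl) (fun _ => zero_le_one) (fun _ _ => Set.empty_disjoint _)
  rw [Finset.prod_singleton, av_const, mul_one] at k1
  have k2 : fac F PA PB v r t ≤ av F (fun ω => (∏ i ∈ ({()} : Finset Unit),
      t ^ NA F PA PB v ((r / 2 : ℕ) : ℤ) ω) * T ^ cM (F : Set (ℤ × ℤ)) PA PB v r 0 ω * 1) := by
    refine av_mono fun S _ => ?_
    rw [Finset.prod_singleton, mul_one]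
    have h2 := cN_le (F := (F : Set (ℤ × ℤ))) (v := v) (r := r) hA hB hAB 0 (ind S)
    unfold cN at h2
    rw [rj_zero, show 0 + 1 = 1 from rfl, hr1] at h2
    calc t ^ NA F PA PB v r (ind S)
        ≤ t ^ (NA F PA PB v ((r / 2 : ℕ) : ℤ) (ind S) + cM (F : Set (ℤ × ℤ)) PA PB v r 0 (ind S)) :=
          pow_le_pow_right₀ ht h2
      _ = t ^ NA F PA PB v ((r / 2 : ℕ) : ℤ) (ind S) * t ^ cM (F : Set (ℤ × ℤ)) PA PB v r 0 (ind S) :=
          pow_add _ _ _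
      _ ≤ _ := mul_le_mul_of_nonneg_left (pow_le_pow_left₀ (by linarith) htT _) (by positivity)
  refine (k2.trans k1).trans ?_
  have k3 : av F (fun ω => (T ^ cM (F : Set (ℤ × ℤ)) PA PB v r 0 ω) ^ 2) ≤ c (T ^ 2) := by
    refine le_trans (le_of_eq ?_) (hc (T ^ 2) hT2 F PA PB v r 0 hA hB hAB hs)
    congr 1
    funext ω
    rw [← pow_mul, ← pow_mul, mul_comm]
  have k4 : Real.sqrt (av F fun ω => (T ^ cM (F : Set (ℤ × ℤ)) PA PB v r 0 ω) ^ 2) ≤ 1 + |c (T ^ 2)| := by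
    refine Real.sqrt_le_iff.2 ⟨by positivity, k3.trans ?_⟩
    nlinarith [le_abs_self (c (T ^ 2)), abs_nonneg (c (T ^ 2))]
  have k5 : 0 ≤ fac F PA PB v ((r / 2 : ℕ) : ℤ) t := fac_nonneg (by linarith) _
  exact mul_le_mul_of_nonneg_right (mul_le_mul_of_nonneg_left k4 (by linarith)) k5

/-- **Local factors of comparable radii.** -/
theorem fac_le (T : ℝ) (hT : 1 ≤ T) (k : ℕ) : ∃ A : ℝ, 1 ≤ A ∧ ∀ (F : Finset (ℤ × ℤ)) (PA PB : UE → Prop)
    (v : ℤ × ℤ) (r : ℕ) (r' : ℤ) (t : ℝ), 1 ≤ t → t ≤ T → (∀ e, PA e → BdF (F : Set (ℤ × ℤ)) e) →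
    (∀ e, PB e → BdF (F : Set (ℤ × ℤ)) e) → (∀ e, PA e → ¬ PB e) →
    (∀ s : ℤ, 0 < s → s ≤ r → WSep (F : Set (ℤ × ℤ)) PA PB v s) → (r : ℤ) ≤ 2 ^ k * r' →
      fac F PA PB v r t ≤ A * fac F PA PB v r' t := by
  obtain ⟨A, hA1, h⟩ := fac_step T hT
  refine ⟨A ^ k, one_le_pow₀ hA1, ?_⟩
  induction k with
  | zero =>
    intro F PA PB v r r' t ht htT hA hB hAB hs hr
    rw [pow_zero, one_mul]
    exact fac_mono ht (by simpa using hr)
  | succ k ih =>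
    intro F PA PB v r r' t ht htT hA hB hAB hs hr
    have hr0 : ((r / 2 : ℕ) : ℤ) ≤ r := by exact_mod_cast Nat.div_le_self _ _
    refine (h F PA PB v r t ht htT hA hB hAB hs).trans ?_
    have k1 := ih F PA PB v (r / 2) r' t ht htT hA hB hAB (fun s h0 h1 => hs s h0 (h1.trans hr0)) (by
      have e1 : (2 : ℤ) ^ (k + 1) * r' = 2 * (2 ^ k * r') := by ring
      rw [e1] at hr
      have e2 : ((r / 2 : ℕ) : ℤ) = (r : ℤ) / 2 := by push_cast; rfl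
      omega)
    calc A * fac F PA PB v ((r / 2 : ℕ) : ℤ) t ≤ A * (A ^ k * fac F PA PB v r' t) :=
          mul_le_mul_of_nonneg_left k1 (by linarith)
      _ = A ^ (k + 1) * fac F PA PB v r' t := by ring

/-! ## The leg of a wall side -/

/-- the strand which leaves the large box leaves the small box -/
theorem WE_anti (v : ℤ × ℤ) {r R : ℤ} (hr : 0 < r) (h : r ≤ R) : A1.WE v R ⊆ A1.WE v r := by
  rintro ω ⟨a, ha, hb⟩
  rcases h.eq_or_lt with rfl | hlt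
  · exact ⟨a, ha, hb⟩
  have he : InE v r ((v.1, v.2, false) : UE) := by
    unfold InE InR
    simp only [ua_mk, ub_false]
    omega
  have hsub : (A1.HB v R : Set (ℤ × ℤ)) ∩ (BR v r : Set (ℤ × ℤ)) ⊆ (A1.HB v r : Set (ℤ × ℤ)) := by
    rintro f ⟨hf, hf'⟩
    rw [A1.mem_HB] at hf ⊢
    rw [mem_BR'] at hf'
    omega
  rcases Perc6.N1Aux.first_exitF he ha with h1 | ⟨b, h1, h2⟩
  · exfalso
    have h3 := MM_inE he (MM_mono (F' := (BR v r : Set (ℤ × ℤ))) Set.inter_subset_right h1)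
    obtain ⟨x, y, d⟩ := a
    unfold InE InR at h3
    unfold BdR BdE at hb
    cases d <;> simp only [ua_mk, ub_false, ub_true] at h3 hb <;> omega
  · exact ⟨b, MM_mono hsub h1, h2⟩

/-- legs of comparable radii -/
theorem leg_le (k : ℕ) : ∃ C : ℝ, 0 < C ∧ ∀ (v : ℤ × ℤ) (r R : ℤ) (W W' : Finset (ℤ × ℤ)), 0 < r → 0 < R →
    R ≤ k * r → A1.HB v r ⊆ W → A1.HB v R ⊆ W' → pr W (A1.WE v r) ≤ C * pr W' (A1.WE v R) := by
  obtain ⟨C, hC, h1⟩ := A1.pr_unit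
  obtain ⟨c, hc, h2⟩ := we_lower
  refine ⟨C * (k + 1) / c, by positivity, fun v r R W W' hr hR hk hW hW' => ?_⟩
  have k1 := h1 v r W hr hW
  have k2 := h2 v R W' hR hW'
  have hr' : (0 : ℝ) < r := by exact_mod_cast hr
  have hR' : (0 : ℝ) < R := by exact_mod_cast hR
  have hk' : (R : ℝ) ≤ k * r := by exact_mod_cast hk
  refine k1.trans (le_trans ?_ (mul_le_mul_of_nonneg_left k2 (by positivity)))
  rw [div_mul_div_comm, div_le_div_iff₀ hr' (by positivity)]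
  have : C * c * R ≤ C * c * ((k + 1) * r) := mul_le_mul_of_nonneg_left (by nlinarith) (by positivity)
  nlinarith

end

end Pool.Agent.SixB.DomPr
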