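import Pool.Agent.Lib.SixB.CADomDet
import Pool.Agent.Lib.SixB.CADomPr

/-!
# 6BD block CA, domination from above: the mean of the majorant `majH`

`av_domB_le`, `av_majH_le`: the mean of `domB` / `majH` is at most a constant times the product of the local factors
`fac E.F (PA j) (PB j) (v j) (R j) (τ j)` (times the probability of the leg).
-/

set_option autoImplicit false
set_option linter.unusedSectionVars false

namespace Pool.Agent.SixB.Dom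

open Finset Pool.Agent.Perc Pool.Agent.Perc.Q Pool.Agent.PercD Pool.Agent.PercN Pool.Agent.SixB.Tilt Relation

noncomputable section

variable {F : Finset (ℤ × ℤ)} {I : Finset ℕ} {v : ℕ → VZ} {r : ℕ → ℤ} {n₀ : ℤ}

theorem dep_KO_outF {D : Set (ℤ × ℤ)} (hD : ∀ f ∈ D, ∃ i ∈ I, f ∈ BR (v i) (r i)) :
    Dep Dᶜ (KO (outF F I v r) n₀) := by
  intro ω ω' h
  refine depN_KO (outF F I v r) n₀ ω ω' fun f hf => h f fun hc => ?_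
  rw [mem_coe, mem_outF] at hf
  obtain ⟨i, hi, hfi⟩ := hD f hc
  exact hf.2 i hi hfi

theorem dep_KO_F : Dep (F : Set (ℤ × ℤ)) (KO (outF F I v r) n₀) := fun ω ω' h =>
  depN_KO (outF F I v r) n₀ ω ω' fun f hf => h f (outF_coe_subset hf)

theorem KO_outF_le_KB {x₀ y₀ : ℤ} {L : ℕ} (hn : 0 < n₀)
    (hF : F ⊆ RF x₀ (x₀ + n₀ * L) y₀ (y₀ + n₀ * L)) (ω : Cfg) :
    KO (outF F I v r) n₀ ω ≤ KB ω x₀ y₀ n₀ L :=
  KO_le_KB hn (fun f hf => hF (mem_outF.1 hf).1) ω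

open Classical in
/-- the general form, `g ≥ 0` depends on the faces `D` of some holes -/
theorem av_domB_mul_le (nV L : ℕ) (T q : ℝ) (hT : 1 ≤ T) (hq : 1 ≤ q) :
    ∃ C : ℝ, 1 ≤ C ∧ ∀ (F : Finset (ℤ × ℤ)) (I J : Finset ℕ) (v : ℕ → VZ) (r : ℕ → ℤ) (R : ℕ → ℕ)
      (n₀ : ℤ) (PA PB : ℕ → UE → Prop) (τ : ℕ → ℝ) (x₀ y₀ : ℤ) (D : Set (ℤ × ℤ)) (g : Cfg → ℝ),
      J.card ≤ nV → J ⊆ I → DomPr.Spec J F v PA PB R → (∀ j ∈ J, 1 ≤ τ j ∧ τ j ≤ T) →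
      (∀ j ∈ J, ((R j / 2 : ℕ) : ℤ) ≤ r j) → 0 < n₀ →
      F ⊆ RF x₀ (x₀ + n₀ * L) y₀ (y₀ + n₀ * L) →
      (∀ f ∈ D, ∃ i ∈ I, f ∈ BR (v i) (r i)) → Dep D g → (∀ ω, 0 ≤ g ω) →
      (∀ j ∈ J, Disjoint D (BR (v j) (R j) : Set (ℤ × ℤ))) →
      av F (fun ω => domB F I v r (fun i => (R i : ℤ)) n₀ J PA PB τ q ω * g ω) ≤
        C * (∏ j ∈ J, DomPr.fac F (PA j) (PB j) (v j) (R j) (τ j)) * av F g := by
  obtain ⟨C, hC, h⟩ := DomPr.dom_avK nV L 1 T q one_pos (le_refl _) hT hq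
  refine ⟨C, hC, ?_⟩
  intro F I J v r R n₀ PA PB τ x₀ y₀ D g hJ hJI hsp hτ hr hn hF hD hg hg0 hdis
  have key := h ℕ J F v PA PB R τ D g (KO (outF F I v r) n₀) x₀ y₀ n₀ hJ hsp hτ hn hF
    (KO_outF_le_KB hn hF) dep_KO_F (fun j hj => dep_KO_outF fun f hf => ⟨j, hJI hj, ?_⟩)
    (dep_KO_outF hD) hg hg0 hdis
  · refine (av_mono fun T hT => ?_).trans key
    refine mul_le_mul_of_nonneg_right ?_ (hg0 _)
    unfold domB
    refine mul_le_mul_of_nonneg_left ?_ (Finset.prod_nonneg fun j hj =>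
      pow_nonneg (zero_le_one.trans (hτ j hj).1) _)
    exact pow_le_pow_right₀ hq (Nat.le_succ _)
  · have h1 := mem_coe.1 hf
    have h2 := hr j hj
    rw [mem_BR] at h1 ⊢
    omega

open Classical in
/-- **The mean of the bound without the leg.** -/
theorem av_domB_le (nV L : ℕ) (T q : ℝ) (hT : 1 ≤ T) (hq : 1 ≤ q) :
    ∃ C : ℝ, 1 ≤ C ∧ ∀ (F : Finset (ℤ × ℤ)) (I J : Finset ℕ) (v : ℕ → VZ) (r : ℕ → ℤ) (R : ℕ → ℕ)
      (n₀ : ℤ) (PA PB : ℕ → UE → Prop) (τ : ℕ → ℝ) (x₀ y₀ : ℤ),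
      J.card ≤ nV → J ⊆ I → DomPr.Spec J F v PA PB R → (∀ j ∈ J, 1 ≤ τ j ∧ τ j ≤ T) →
      (∀ j ∈ J, ((R j / 2 : ℕ) : ℤ) ≤ r j) → 0 < n₀ →
      F ⊆ RF x₀ (x₀ + n₀ * L) y₀ (y₀ + n₀ * L) →
      av F (domB F I v r (fun i => (R i : ℤ)) n₀ J PA PB τ q) ≤
        C * (∏ j ∈ J, DomPr.fac F (PA j) (PB j) (v j) (R j) (τ j)) := by
  obtain ⟨C, hC, h⟩ := av_domB_mul_le nV L T q hT hq
  refine ⟨C, hC, ?_⟩
  intro F I J v r R n₀ PA PB τ x₀ y₀ hJ hJI hsp hτ hr hn hF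
  have key := h F I J v r R n₀ PA PB τ x₀ y₀ ∅ (fun _ => 1) hJ hJI hsp hτ hr hn hF
    (fun f hf => absurd hf (Set.notMem_empty f)) (fun _ _ _ => rfl) (fun _ => zero_le_one)
    fun j _ => Set.empty_disjoint _
  rw [av_const, mul_one] at key
  refine le_trans (le_of_eq ?_) key
  exact av_congr fun T _ => (mul_one _).symm

open Classical in
/-- **The mean of the majorant.** -/
theorem av_majH_le (nV L : ℕ) (T q : ℝ) (hT : 1 ≤ T) (hq : 1 ≤ q) :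
    ∃ C : ℝ, 1 ≤ C ∧ ∀ (F : Finset (ℤ × ℤ)) (I J : Finset ℕ) (v : ℕ → VZ) (r : ℕ → ℤ) (R : ℕ → ℕ)
      (n₀ : ℤ) (PA PB : ℕ → UE → Prop) (τ : ℕ → ℝ) (x₀ y₀ : ℤ) (e : DZ) (ve : VZ) (ρ : ℤ),
      J.card ≤ nV → J ⊆ I → DomPr.Spec J F v PA PB R → (∀ j ∈ J, 1 ≤ τ j ∧ τ j ≤ T) →
      (∀ j ∈ J, ((R j / 2 : ℕ) : ℤ) ≤ r j) → 0 < n₀ →
      F ⊆ RF x₀ (x₀ + n₀ * L) y₀ (y₀ + n₀ * L) → (∃ i ∈ I, BR ve ρ ⊆ BR (v i) (r i)) →
      (∀ j ∈ J, Disjoint (BR ve ρ) (BR (v j) (R j))) →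
      av F (majH F I v r (fun i => (R i : ℤ)) n₀ J PA PB τ q e ve ρ) ≤
        C * (∏ j ∈ J, DomPr.fac F (PA j) (PB j) (v j) (R j) (τ j)) *
          av F (fun ω => if leg F e ve ρ ω then 1 else 0) := by
  obtain ⟨C, hC, h⟩ := av_domB_mul_le nV L T q hT hq
  refine ⟨C, hC, ?_⟩
  intro F I J v r R n₀ PA PB τ x₀ y₀ e ve ρ hJ hJI hsp hτ hr hn hF ⟨i, hi, hiB⟩ hdis
  have key := h F I J v r R n₀ PA PB τ x₀ y₀ (BR ve ρ : Set (ℤ × ℤ))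
    (fun ω => if leg F e ve ρ ω then 1 else 0) hJ hJI hsp hτ hr hn hF
    (fun f hf => ⟨i, hi, hiB (mem_coe.1 hf)⟩) (fun ω ω' hω => ?_) (fun ω => ?_)
    fun j hj => by exact_mod_cast hdis j hj
  · refine le_trans (le_of_eq ?_) key
    refine av_congr fun T _ => ?_
    unfold majH
    ring
  · have h1 : leg F e ve ρ ω ↔ leg F e ve ρ ω' := leg_congr fun f _ hf => hω f (mem_coe.2 hf)
    simp only [h1]
  · split_ifs
    · exact zero_le_one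
    · exact le_refl _

end

end Pool.Agent.SixB.Dom
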