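import Pool.Agent.Lib.SixB.S3Large

/-!
# 6BD block CA, domination from above: the number of strands of large extent of a finite face set

`KO F n ω`: the largest number of strands of `F` of extent at least `2 n` (`Large`) which are pairwise
different. `card_le_KO`, `KO_le`, `KO_le_KB` (bounded exponential moments), `depN_KO`.
-/

set_option autoImplicit false

namespace Pool.Agent.SixB.Dom

open Finset Pool.Agent.Perc Pool.Agent.PercD Pool.Agent.PercN

variable {ω ω' : Cfg} {F F' : Finset (ℤ × ℤ)} {n : ℤ} {S : Finset UE} {b : UE}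

/-- the sides of the faces of `F` -/
def sds (F : Finset (ℤ × ℤ)) : Finset UE := F.biUnion fun f => {bo f, to' f, le' f, ri f}

theorem mem_sds : b ∈ sds F ↔ ∃ f ∈ F, IsSide f b := by
  unfold sds IsSide
  simp only [mem_biUnion, mem_insert, mem_singleton]
  constructor
  · rintro ⟨f, hf, h⟩
    exact ⟨f, hf, by tauto⟩
  · rintro ⟨f, hf, h⟩
    exact ⟨f, hf, by tauto⟩

theorem ua_le_ub2 (a : UE) : (ua a).2 ≤ (ub a).2 := by
  obtain ⟨x, y, d⟩ := a
  cases d
  · rw [ua_mk, ub_false]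
  · rw [ua_mk, ub_true]; simp only; omega

/-- A strand of large extent is not a single unit edge. -/
theorem large_mem_sds (hn : 0 < n) (h : Large ω (F : Set (ℤ × ℤ)) n b) : b ∈ sds F := by
  obtain ⟨a₁, ha₁, a₂, ha₂, h12⟩ := h
  rw [mem_sds]
  by_cases h1 : a₁ = b
  · by_cases h2 : a₂ = b
    · exfalso
      subst h1
      subst h2
      have h3 := ua_le_ub a₂
      have h4 := ua_le_ub2 a₂
      omega
    · obtain ⟨f, hf, hs⟩ := side_of_ne (MM_symm ha₂) (Ne.symm h2)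
      exact ⟨f, mem_coe.1 hf, hs⟩
  · obtain ⟨f, hf, hs⟩ := side_of_ne (MM_symm ha₁) (Ne.symm h1)
    exact ⟨f, mem_coe.1 hf, hs⟩

open Classical in
/-- The largest number of different strands of `F` of extent at least `2 n`. -/
noncomputable def KO (F : Finset (ℤ × ℤ)) (n : ℤ) (ω : Cfg) : ℕ :=
  ((sds F).powerset.filter fun S => Diff ω (F : Set (ℤ × ℤ)) S ∧
    ∀ b ∈ S, Large ω (F : Set (ℤ × ℤ)) n b).sup card

theorem card_le_KO (hn : 0 < n) (hS : Diff ω (F : Set (ℤ × ℤ)) S)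
    (h : ∀ b ∈ S, Large ω (F : Set (ℤ × ℤ)) n b) : S.card ≤ KO F n ω := by
  classical
  unfold KO
  refine Finset.le_sup (f := card) ?_
  rw [mem_filter, mem_powerset]
  exact ⟨fun b hb => large_mem_sds hn (h b hb), hS, h⟩

theorem KO_le {k : ℕ} (h : ∀ S : Finset UE, Diff ω (F : Set (ℤ × ℤ)) S →
    (∀ b ∈ S, Large ω (F : Set (ℤ × ℤ)) n b) → S.card ≤ k) : KO F n ω ≤ k := by
  classical
  unfold KO
  refine Finset.sup_le fun S hS => ?_
  rw [mem_filter] at hS
  exact h S hS.2.1 hS.2.2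

theorem KO_le_KB {x₀ y₀ : ℤ} {L : ℕ} (hn : 0 < n)
    (hF : F ⊆ RF x₀ (x₀ + n * L) y₀ (y₀ + n * L)) (ω : Cfg) : KO F n ω ≤ KB ω x₀ y₀ n L :=
  KO_le fun _ hS h => card_le_KB hn hS (by exact_mod_cast hF) h

theorem depN_KO (F : Finset (ℤ × ℤ)) (n : ℤ) : DepN (F : Set (ℤ × ℤ)) (KO F n) := by
  classical
  intro ω ω' h
  have h1 : ∀ b, MM ω (F : Set (ℤ × ℤ)) b = MM ω' (F : Set (ℤ × ℤ)) b := fun b =>
    (MM_congr' (ω := ω) (ω' := ω') (F := (F : Set (ℤ × ℤ))) h).symm
  unfold KO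
  congr 1
  refine Finset.filter_congr fun S _ => ?_
  unfold Diff Large
  simp only [h1]

end Pool.Agent.SixB.Dom
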