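import Pool.Agent.Lib.SixB.S3Large

/-!
# 6BD, step 3: the strands over a special vertex

`F` is any set of faces (a wedge), `PA`, `PB` are predicates for the unit edges of its walls on the two
sides of the vertex `v`. `NA` is the number of strands of `F` in the box `BR v r` from `PA` to `PB`,
`NB` the number of those in the annulus. `NA` increases with the radius (`NA_mono`) and
`NA r₀ ≤ NA r₁ + (NF r₂ r₁ + NB r₂ r₀)` (`NA_le`). The last count depends only on the faces of `F` in the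
annulus `r₂ : r₀` (`depN_MM`) and has bounded exponential moments (`MM_moment`).
-/

set_option autoImplicit false

namespace Pool.Agent.SixB

open Finset Pool.Agent.Perc Pool.Agent.PercD Pool.Agent.PercN

variable {ω : Cfg} {v : ℤ × ℤ} {r r' r₀ r₁ r₂ : ℤ} {F : Set (ℤ × ℤ)} {PA PB : UE → Prop}

theorem bdF_sub_c {F F' : Set (ℤ × ℤ)} {a : UE} (h : F ⊆ F') (ha : BdF F' a) : BdF F a :=
  fun d hd hd' => ha d (h hd) (h hd')

open Classical in
/-- The number of strands from `PA` to `PB` in the faces of `S`; window `UB v r`. -/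
noncomputable def NS (S : Set (ℤ × ℤ)) (PA PB : UE → Prop) (v : ℤ × ℤ) (r : ℤ) (ω : Cfg) : ℕ :=
  ((UB v r).filter fun a => PA a ∧ ∃ b ∈ MM ω S a, PB b).card

/-- The number of strands over `v` in the box. -/
noncomputable def NA (F : Set (ℤ × ℤ)) (PA PB : UE → Prop) (v : ℤ × ℤ) (r : ℤ) (ω : Cfg) : ℕ :=
  NS (F ∩ (BR v r : Set (ℤ × ℤ))) PA PB v r ω

/-- The number of strands over `v` in the annulus. -/
noncomputable def NB (F : Set (ℤ × ℤ)) (PA PB : UE → Prop) (v : ℤ × ℤ) (r R : ℤ) (ω : Cfg) : ℕ :=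
  NS (F ∩ (An v r R : Set (ℤ × ℤ))) PA PB v R ω

theorem depN_NS (S : Set (ℤ × ℤ)) (PA PB : UE → Prop) (v : ℤ × ℤ) (r : ℤ) :
    DepN S (NS S PA PB v r) := by
  classical
  intro ω ω' h
  unfold NS
  congr 1
  ext b
  rw [mem_filter, mem_filter, MM_congr' (ω := ω) (ω' := ω') h]

theorem depN_NA (F : Set (ℤ × ℤ)) (PA PB : UE → Prop) (v : ℤ × ℤ) (r : ℤ) :
    DepN (F ∩ (BR v r : Set (ℤ × ℤ))) (NA F PA PB v r) := depN_NS _ _ _ _ _

theorem depN_NB (F : Set (ℤ × ℤ)) (PA PB : UE → Prop) (v : ℤ × ℤ) (r R : ℤ) :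
    DepN (F ∩ (An v r R : Set (ℤ × ℤ))) (NB F PA PB v r R) := depN_NS _ _ _ _ _

theorem UB_mono (h : r' ≤ r) : UB v r' ⊆ UB v r := by
  intro a ha
  rw [mem_UB] at ha ⊢
  unfold InR at *
  omega

theorem NA_mono (h : r' ≤ r) (ω : Cfg) : NA F PA PB v r' ω ≤ NA F PA PB v r ω := by
  classical
  unfold NA NS
  refine card_le_card fun a ha => ?_
  rw [mem_filter] at ha ⊢
  obtain ⟨h1, h2, b, h3, h4⟩ := ha
  refine ⟨UB_mono h h1, h2, b, MM_mono ?_ h3, h4⟩
  exact Set.inter_subset_inter_right _ fun f hf =>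
    mem_coe.2 ((Sub.refl' h).subset (mem_coe.1 hf))

/-- Different left ends are in different strands. -/
theorem diff_over {S : Set (ℤ × ℤ)} {T : Finset UE} (hA : ∀ a, PA a → BdF S a)
    (hB : ∀ a, PB a → BdF S a) (hAB : ∀ a, PA a → ¬ PB a)
    (hT : ∀ a ∈ T, PA a ∧ ∃ b ∈ MM ω S a, PB b) : Diff ω S T := by
  intro a ha a' ha' h
  obtain ⟨h1, b, h2, h3⟩ := hT a ha
  obtain ⟨h1', -⟩ := hT a' ha'
  by_contra hne
  have := other_unique (hA a h1) h2 h (hB b h3) (hA a' h1') (by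
    rintro rfl
    exact hAB _ h1 h3) fun h => hne h.symm
  subst this
  exact hAB _ h1' h3

/-- (hN2) An arc over `v` in the box `r₀` which is not in the box `r₁` crosses the annulus `r₂ : r₁` or
is in the annulus `r₂ : r₀`. -/
theorem NA_le (hA : ∀ a, PA a → BdF F a) (hB : ∀ a, PB a → BdF F a) (hAB : ∀ a, PA a → ¬ PB a)
    (h2 : 0 ≤ r₂) (h21 : r₂ < r₁) (h10 : r₁ ≤ r₀) (ω : Cfg) :
    NA F PA PB v r₀ ω ≤ NA F PA PB v r₁ ω + (NF F v r₂ r₁ ω + NB F PA PB v r₂ r₀ ω) := by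
  classical
  set F₀ := F ∩ (BR v r₀ : Set (ℤ × ℤ)) with hF₀
  set T := (UB v r₀).filter fun a => PA a ∧ ∃ b ∈ MM ω F₀ a, PB b with hT
  set T₁ := T.filter fun a => ∃ b ∈ MM ω (F ∩ (BR v r₁ : Set (ℤ × ℤ))) a, PB b with hT₁
  set T₂ := T.filter fun a => ∃ b ∈ MM ω (F ∩ (An v r₂ r₀ : Set (ℤ × ℤ))) a, PB b with hT₂
  set T₃ := (T \ T₁) \ T₂ with hT₃
  have hTcard : NA F PA PB v r₀ ω = T.card := rfl
  have hsplit : T ⊆ T₁ ∪ (T₃ ∪ T₂) := by
    intro a ha
    by_cases h1 : a ∈ T₁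
    · exact mem_union_left _ h1
    · by_cases h3 : a ∈ T₂
      · exact mem_union_right _ (mem_union_right _ h3)
      · refine mem_union_right _ (mem_union_left _ ?_)
        rw [hT₃, mem_sdiff, mem_sdiff]
        exact ⟨⟨ha, h1⟩, h3⟩
  have c1 : T₁.card ≤ NA F PA PB v r₁ ω := by
    unfold NA NS
    refine card_le_card fun a ha => ?_
    rw [hT₁, mem_filter, hT, mem_filter] at ha
    obtain ⟨⟨-, h1, -⟩, b, h3, h4⟩ := ha
    rw [mem_filter]
    refine ⟨?_, h1, b, h3, h4⟩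
    have hne : a ≠ b := by
      rintro rfl
      exact hAB _ h1 h4
    obtain ⟨f, hf, hs⟩ := side_of_ne (MM_symm h3) hne
    exact (inE_of_side hf.2 hs).mem_UB
  have c2 : T₂.card ≤ NB F PA PB v r₂ r₀ ω := by
    unfold NB NS
    refine card_le_card fun a ha => ?_
    rw [hT₂, mem_filter, hT, mem_filter] at ha
    obtain ⟨⟨h0, h1, -⟩, b, h3, h4⟩ := ha
    rw [mem_filter]
    exact ⟨h0, h1, b, h3, h4⟩
  have hF₀F : F₀ ⊆ F := Set.inter_subset_left
  have hdiff : Diff ω F₀ T₃ := by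
    refine diff_over (PA := PA) (PB := PB) (fun a ha => bdF_sub_c hF₀F (hA a ha))
      (fun a ha => bdF_sub_c hF₀F (hB a ha)) hAB fun a ha => ?_
    rw [hT₃, mem_sdiff, mem_sdiff, hT, mem_filter] at ha
    exact ha.1.1.2
  have c3 : T₃.card ≤ NF F v r₂ r₁ ω := by
    have := card_le_sum_NF (ι := ℕ) (G := F) (R := r₁) hdiff {0} (fun _ => v) h2 h21
      (fun _ _ f hf => hf.1.1) (fun a ha => ?_)
    · simpa using this
    · rw [hT₃, mem_sdiff, mem_sdiff] at ha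
      obtain ⟨⟨haT, ha1⟩, ha2⟩ := ha
      have haT' := haT
      rw [hT, mem_filter] at haT'
      obtain ⟨h0, h1, b, h3, h4⟩ := haT'
      refine ⟨0, mem_singleton_self _, ?_, ?_⟩
      · rcases PercS5.first_exit' (F := F ∩ (An v r₂ r₀ : Set (ℤ × ℤ))) h3 with h5 |
          ⟨c, h5, f, hf, hf', hs⟩
        · exfalso
          apply ha2
          rw [hT₂, mem_filter]
          exact ⟨haT, b, h5, h4⟩
        · refine ⟨c, MM_mono ?_ h5, ?_⟩
          · rintro g ⟨hg, hg'⟩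
            rw [mem_coe, mem_An] at hg'
            exact ⟨hg, mem_coe.2 hg'.1⟩
          · refine inE_of_side ?_ hs
            by_contra hc
            apply hf'
            refine ⟨hf.1, ?_⟩
            rw [mem_coe, mem_An]
            exact ⟨mem_coe.1 hf.2, fun h => hc (mem_coe.2 h)⟩
      · rcases PercS5.first_exit' (F := F ∩ (BR v r₁ : Set (ℤ × ℤ))) h3 with h5 |
          ⟨c, h5, f, hf, hf', hs⟩
        · exfalso
          apply ha1
          rw [hT₁, mem_filter]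
          exact ⟨haT, b, h5, h4⟩
        · refine ⟨c, MM_mono ?_ h5, fun hin => bd_of_side hin hs ?_⟩
          · exact Set.inter_subset_inter_right _ fun g hg =>
              mem_coe.2 ((Sub.refl' h10).subset (mem_coe.1 hg))
          · intro hc
            exact hf' ⟨hf.1, hc⟩
  have hfin : T.card ≤ T₁.card + (T₃.card + T₂.card) :=
    (card_le_card hsplit).trans ((card_union_le _ _).trans
      (Nat.add_le_add_left (card_union_le _ _) _))
  omega

/-! ### Moments -/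

/-- Two unit edges at distance at least `m` in one coordinate. -/
def Sep (m : ℤ) (a b : UE) : Prop :=
  (ub a).1 + m ≤ (ua b).1 ∨ (ub b).1 + m ≤ (ua a).1 ∨ (ub a).2 + m ≤ (ua b).2 ∨
    (ub b).2 + m ≤ (ua a).2

/-- The walls are separated outside of the box of radius `r`. -/
def WSep (F : Set (ℤ × ℤ)) (PA PB : UE → Prop) (v : ℤ × ℤ) (r : ℤ) : Prop :=
  ∀ a b, PA a → PB b → (∃ f ∈ F, f ∉ (BR v r : Set (ℤ × ℤ)) ∧ IsSide f a) →
    (∃ f ∈ F, f ∉ (BR v r : Set (ℤ × ℤ)) ∧ IsSide f b) → Sep r a b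

theorem NB_le_KB (hA : ∀ a, PA a → BdF F a) (hB : ∀ a, PB a → BdF F a)
    (hAB : ∀ a, PA a → ¬ PB a) {n : ℤ} {L : ℕ} (hs : WSep F PA PB v r) (hn : 0 < n)
    (hnr : 2 * n ≤ r) (hL : 2 * r₀ ≤ n * L) (ω : Cfg) :
    NB F PA PB v r r₀ ω ≤ KB ω (v.1 - r₀) (v.2 - r₀) n L := by
  classical
  set S := F ∩ (An v r r₀ : Set (ℤ × ℤ)) with hS
  have hSF : S ⊆ F := Set.inter_subset_left
  unfold NB NS
  refine card_le_KB (F := S) hn ?_ (fun f hf => ?_) ?_
  · refine diff_over (PA := PA) (PB := PB) (fun a ha => bdF_sub_c hSF (hA a ha))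
      (fun a ha => bdF_sub_c hSF (hB a ha)) hAB fun a ha => ?_
    rw [mem_filter] at ha
    exact ha.2
  · have := hf.2
    rw [mem_coe, mem_An, mem_BR] at this
    rw [mem_RF']
    omega
  · intro a ha
    rw [mem_filter] at ha
    obtain ⟨-, h1, b, h2, h3⟩ := ha
    have hne : a ≠ b := by
      rintro rfl
      exact hAB _ h1 h3
    obtain ⟨f, hf, hsa⟩ := side_of_ne (MM_symm h2) hne
    obtain ⟨g, hg, hsb⟩ := side_of_ne h2 hne.symm
    have hout : ∀ f ∈ S, f ∈ F ∧ f ∉ (BR v r : Set (ℤ × ℤ)) := by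
      rintro f ⟨hf, hf'⟩
      rw [mem_coe, mem_An] at hf'
      exact ⟨hf, fun h => hf'.2 (mem_coe.1 h)⟩
    have hsep := hs a b h1 h3 ⟨f, (hout f hf).1, (hout f hf).2, hsa⟩
      ⟨g, (hout g hg).1, (hout g hg).2, hsb⟩
    unfold Sep at hsep
    rcases hsep with h | h | h | h
    · exact ⟨a, mem_MM_self, b, h2, Or.inl (by omega)⟩
    · exact ⟨b, h2, a, mem_MM_self, Or.inl (by omega)⟩
    · exact ⟨a, mem_MM_self, b, h2, Or.inr (by omega)⟩
    · exact ⟨b, h2, a, mem_MM_self, Or.inr (by omega)⟩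

theorem NS_le_UB {S : Set (ℤ × ℤ)} (ω : Cfg) : NS S PA PB v r ω ≤ (UB v r).card := by
  classical
  unfold NS
  exact card_filter_le _ _

/-- Exponential moments of the number of strands over `v` in an annulus. -/
theorem NB_moment (κ : ℕ) {lam : ℝ} (hlam : 1 ≤ lam) : ∃ C : ℝ, 0 < C ∧
    ∀ (F : Set (ℤ × ℤ)) (PA PB : UE → Prop) (v : ℤ × ℤ) (r R : ℤ) (W : Finset (ℤ × ℤ)),
      (∀ a, PA a → BdF F a) → (∀ a, PB a → BdF F a) → (∀ a, PA a → ¬ PB a) → 0 < r → 0 ≤ R →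
      R ≤ κ * r → WSep F PA PB v r → BR v R ⊆ W →
      (∑ T ∈ W.powerset, lam ^ NB F PA PB v r R (cfg T)) / 2 ^ W.card ≤ C := by
  classical
  obtain ⟨C, hC, h⟩ := KB_moment (6 * κ) hlam
  refine ⟨max C (lam ^ (2 * (2 * κ + 1) ^ 2)), by positivity, ?_⟩
  intro F PA PB v r R W hA hB hAB hr hR0 hκ hs hW
  by_cases hr1 : r = 1
  · refine le_trans ?_ (le_max_right _ _)
    rw [div_le_iff₀ (by positivity)]
    have hb : ∀ T ∈ W.powerset, lam ^ NB F PA PB v r R (cfg T) ≤ lam ^ (2 * (2 * κ + 1) ^ 2) := by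
      intro T _
      refine pow_le_pow_right₀ hlam ((NS_le_UB (v := v) (r := R) _).trans ?_)
      obtain ⟨k, rfl⟩ : ∃ k : ℕ, R = k := ⟨R.toNat, by omega⟩
      rw [card_UB]
      have hk : k ≤ κ := by
        rw [hr1, mul_one] at hκ
        exact_mod_cast hκ
      exact Nat.mul_le_mul_left _ (Nat.pow_le_pow_left (by omega) 2)
    refine (Finset.sum_le_sum hb).trans (le_of_eq ?_)
    rw [Finset.sum_const, card_powerset, nsmul_eq_mul]
    push_cast
    ring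
  · refine le_trans ?_ (le_max_left _ _)
    set n := r / 2 with hn
    have hn0 : 0 < n := by omega
    have hL : 2 * R ≤ n * (6 * κ : ℕ) := by
      have h0 : (0 : ℤ) ≤ κ := by positivity
      have h1 : r ≤ 3 * n := by omega
      push_cast
      nlinarith
    set W' := W ∪ RF (v.1 - R) (v.1 - R + n * (6 * κ : ℕ)) (v.2 - R)
      (v.2 - R + n * (6 * κ : ℕ)) with hW'
    have hd : DepN (BR v R : Set (ℤ × ℤ)) (NB F PA PB v r R) := (depN_NB F PA PB v r R).mono (by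
      rintro f ⟨-, hf⟩
      rw [mem_coe, mem_An] at hf
      exact mem_coe.2 hf.1)
    have e1 := exp_window hd hW (fun m => lam ^ m)
    have e2 := exp_window hd (hW.trans (subset_union_left : W ⊆ W')) fun m => lam ^ m
    rw [e1, ← e2]
    refine le_trans ?_ (h (v.1 - R) (v.2 - R) n W' hn0 subset_union_right)
    exact div_le_div_of_nonneg_right (Finset.sum_le_sum fun T _ =>
      pow_le_pow_right₀ hlam (NB_le_KB hA hB hAB hs hn0 (by omega) hL _)) (by positivity)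

/-- The increment of the chain. -/
noncomputable def MC (F : Set (ℤ × ℤ)) (PA PB : UE → Prop) (v : ℤ × ℤ) (r₂ r₁ r₀ : ℤ) (ω : Cfg) :
    ℕ := NF F v r₂ r₁ ω + NB F PA PB v r₂ r₀ ω

theorem depN_MC (h10 : r₁ ≤ r₀) (F : Set (ℤ × ℤ)) (PA PB : UE → Prop) (v : ℤ × ℤ) :
    DepN (F ∩ (An v r₂ r₀ : Set (ℤ × ℤ))) (MC F PA PB v r₂ r₁ r₀) := by
  intro ω ω' h
  unfold MC
  rw [depN_NB F PA PB v r₂ r₀ ω ω' h, depN_NF F v r₂ r₁ ω ω' fun f hf => h f ⟨hf.1, ?_⟩]
  have := hf.2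
  rw [mem_coe, mem_An] at this ⊢
  exact ⟨(Sub.refl' h10).subset this.1, this.2⟩

/-- All exponential moments of the increment, uniformly in the scale. -/
theorem MC_moment (κ : ℕ) {lam : ℝ} (hlam : 1 ≤ lam) : ∃ C : ℝ, 0 < C ∧
    ∀ (F : Set (ℤ × ℤ)) (PA PB : UE → Prop) (v : ℤ × ℤ) (r₂ r₁ r₀ : ℤ) (W : Finset (ℤ × ℤ)),
      (∀ a, PA a → BdF F a) → (∀ a, PB a → BdF F a) → (∀ a, PA a → ¬ PB a) → 0 < r₂ → r₂ < r₁ →
      r₁ ≤ r₀ → r₀ ≤ κ * r₂ → r₂ ≤ κ * (r₁ - r₂) → WSep F PA PB v r₂ → BR v r₀ ⊆ W →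
      (∑ T ∈ W.powerset, lam ^ MC F PA PB v r₂ r₁ r₀ (cfg T)) / 2 ^ W.card ≤ C := by
  classical
  have hl2 : 1 ≤ lam ^ 2 := one_le_pow₀ hlam
  obtain ⟨C₁, hC₁, h1⟩ := NF_moment κ hl2
  obtain ⟨C₂, hC₂, h2⟩ := NB_moment κ hl2
  refine ⟨C₁ + C₂, by positivity, ?_⟩
  intro F PA PB v r₂ r₁ r₀ W hA hB hAB hr2 hr21 hr10 hκ hκ' hs hW
  have k1 := h1 F v r₂ r₁ W hr2 hr21 hκ' ((Sub.refl' hr10).subset.trans hW)
  have k2 := h2 F PA PB v r₂ r₀ W hA hB hAB hr2 (by omega) hκ hs hW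
  refine le_trans ?_ (add_le_add k1 k2)
  rw [← add_div, ← Finset.sum_add_distrib]
  refine div_le_div_of_nonneg_right (Finset.sum_le_sum fun T _ => ?_) (by positivity)
  set x := NF F v r₂ r₁ (cfg T)
  set y := NB F PA PB v r₂ r₀ (cfg T)
  show lam ^ (x + y) ≤ (lam ^ 2) ^ x + (lam ^ 2) ^ y
  rw [← pow_mul, ← pow_mul]
  rcases le_total x y with hxy | hxy
  · have : lam ^ (x + y) ≤ lam ^ (2 * y) := pow_le_pow_right₀ hlam (by omega)
    have : 0 ≤ lam ^ (2 * x) := by positivity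
    linarith
  · have : lam ^ (x + y) ≤ lam ^ (2 * x) := pow_le_pow_right₀ hlam (by omega)
    have : 0 ≤ lam ^ (2 * y) := by positivity
    linarith

end Pool.Agent.SixB
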