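import Pool.Agent.Lib.SixB.S6LFlat
import Pool.Agent.Lib.SixB.S3Count

/-!
# 6BD block CA: the walls at a flat mark of the lattice polygon

* `wE κ v i`: the unit edge `i` of the wall in the frame; `PAz`, `PBz`: the wall edges before and after `v` within
  the distance `R`. If `F` is flat near `v` (`FlatZ F κ v R`): `bdF_wE`, `wsep_z` (the hypotheses of `DomUp.dom_av`).
* `MA n g k R`, `MB n g k R`: the unit edges of the contour `gr n g` before and after the vertex `k` within `R` sides.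
* `mark_near`: at a flat mark these are the walls; `MA_eq`, `MB_eq`. `boxes_disj`: boxes at different marks.
-/

set_option autoImplicit false

namespace Pool.Agent.SixB.DomMk

open Pool.Agent.Perc Pool.Agent.Perc.Q Pool.Agent.Perc6 Pool.Agent.PercD Pool.Agent.PercN
  Pool.Agent.SixB.Tilt

variable {F : Finset (ℤ × ℤ)} {κ : ZMod 4} {v : ℤ × ℤ} {i j s R R' : ℤ} {a b : UE} {f : ℤ × ℤ}

/-- unit edge `i` of the wall -/
def wE (κ : ZMod 4) (v : ℤ × ℤ) (i : ℤ) : UE := und (fr κ v i 0, fr κ v (i + 1) 0)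

theorem wE_0 : wE 0 v i = (v.1 + i, v.2, false) := by
  unfold wE und
  rw [fr_0, fr_0]
  simp only
  rw [if_neg (by omega)]
  simp only [Prod.mk.injEq, and_true]
  omega

theorem wE_1 : wE 1 v i = (v.1, v.2 + i, true) := by
  unfold wE und
  rw [fr_1, fr_1]
  simp only
  rw [if_pos trivial]
  simp only [Prod.mk.injEq, and_true]
  omega

theorem wE_2 : wE 2 v i = (v.1 - i - 1, v.2, false) := by
  unfold wE und
  rw [fr_2, fr_2]
  simp only
  rw [if_neg (by omega)]
  simp only [Prod.mk.injEq, and_true]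
  omega

theorem wE_3 : wE 3 v i = (v.1, v.2 - i - 1, true) := by
  unfold wE und
  rw [fr_3, fr_3]
  simp only
  rw [if_pos trivial]
  simp only [Prod.mk.injEq, and_true]
  omega

/-- the two faces of a wall edge -/
theorem wE_ahead (κ : ZMod 4) (v : ℤ × ℤ) (i : ℤ) (d : Bool) :
    (Tips.ahead (wE κ v i, d) = cl κ v i 0 ∧ Tips.ahead (wE κ v i, !d) = cl κ v i (-1)) ∨
      (Tips.ahead (wE κ v i, d) = cl κ v i (-1) ∧ Tips.ahead (wE κ v i, !d) = cl κ v i 0) := by
  rcases k4 κ with rfl | rfl | rfl | rfl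
  · rw [wE_0, cl_0, cl_0]
    cases d
    · right
      exact ⟨by apply Prod.ext <;> simp only [Tips.ahead, Bool.not_false] <;> omega,
        by apply Prod.ext <;> simp only [Tips.ahead, Bool.not_false] <;> omega⟩
    · left
      exact ⟨by apply Prod.ext <;> simp only [Tips.ahead, Bool.not_true] <;> omega,
        by apply Prod.ext <;> simp only [Tips.ahead, Bool.not_true] <;> omega⟩
  · rw [wE_1, cl_1, cl_1]
    cases d
    · left
      exact ⟨by apply Prod.ext <;> simp only [Tips.ahead, Bool.not_false] <;> omega,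
        by apply Prod.ext <;> simp only [Tips.ahead, Bool.not_false] <;> omega⟩
    · right
      exact ⟨by apply Prod.ext <;> simp only [Tips.ahead, Bool.not_true] <;> omega,
        by apply Prod.ext <;> simp only [Tips.ahead, Bool.not_true] <;> omega⟩
  · rw [wE_2, cl_2, cl_2]
    cases d
    · left
      exact ⟨by apply Prod.ext <;> simp only [Tips.ahead, Bool.not_false] <;> omega,
        by apply Prod.ext <;> simp only [Tips.ahead, Bool.not_false] <;> omega⟩
    · right
      exact ⟨by apply Prod.ext <;> simp only [Tips.ahead, Bool.not_true] <;> omega,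
        by apply Prod.ext <;> simp only [Tips.ahead, Bool.not_true] <;> omega⟩
  · rw [wE_3, cl_3, cl_3]
    cases d
    · right
      exact ⟨by apply Prod.ext <;> simp only [Tips.ahead, Bool.not_false] <;> omega,
        by apply Prod.ext <;> simp only [Tips.ahead, Bool.not_false] <;> omega⟩
    · left
      exact ⟨by apply Prod.ext <;> simp only [Tips.ahead, Bool.not_true] <;> omega,
        by apply Prod.ext <;> simp only [Tips.ahead, Bool.not_true] <;> omega⟩

theorem bdF_wE (h : FlatZ F κ v R) (h1 : -R ≤ i) (h2 : i < R) :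
    BdF (F : Set (ℤ × ℤ)) (wE κ v i) := by
  have h3 : cl κ v i (-1) ∉ F := fun h' => by
    have := (h i (-1) h1 h2 (by omega) (by omega)).1 h'
    omega
  intro d hd hd'
  rcases wE_ahead κ v i d with ⟨e1, e2⟩ | ⟨e1, e2⟩
  · rw [e2] at hd'
    exact h3 (Finset.mem_coe.1 hd')
  · rw [e1] at hd
    exact h3 (Finset.mem_coe.1 hd)

/-- a face of a unit edge is one of the two faces ahead -/
theorem ahead_of_side (h : IsSide f a) : ∃ d, f = Tips.ahead (a, d) := by
  obtain ⟨x, y, c⟩ := a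
  obtain ⟨f1, f2⟩ := f
  unfold IsSide bo le' to' ri at h
  cases c
  · simp only [Prod.mk.injEq, Bool.false_eq_true, and_false, or_false, false_or, and_true] at h
    rcases h with h | h
    · exact ⟨true, by simp only [Tips.ahead, Prod.mk.injEq]; omega⟩
    · exact ⟨false, by simp only [Tips.ahead, Prod.mk.injEq]; omega⟩
  · simp only [Prod.mk.injEq, Bool.true_eq_false, and_false, false_or, and_true] at h
    rcases h with h | h
    · exact ⟨true, by simp only [Tips.ahead, Prod.mk.injEq]; omega⟩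
    · exact ⟨false, by simp only [Tips.ahead, Prod.mk.injEq]; omega⟩

theorem side_wE (h : FlatZ F κ v R) (h1 : -R ≤ i) (h2 : i < R) (hf : f ∈ F)
    (hs : IsSide f (wE κ v i)) : f = cl κ v i 0 := by
  have h3 : cl κ v i (-1) ∉ F := fun h' => by
    have := (h i (-1) h1 h2 (by omega) (by omega)).1 h'
    omega
  obtain ⟨d, rfl⟩ := ahead_of_side hs
  rcases wE_ahead κ v i d with ⟨e1, -⟩ | ⟨e1, -⟩
  · exact e1
  · rw [e1] at hf
    exact absurd hf h3

theorem wE_inj (h : wE κ v i = wE κ v j) : i = j := by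
  rcases k4 κ with rfl | rfl | rfl | rfl
  · rw [wE_0, wE_0] at h
    simp only [Prod.mk.injEq, and_true] at h
    omega
  · rw [wE_1, wE_1] at h
    simp only [Prod.mk.injEq, and_true] at h
    omega
  · rw [wE_2, wE_2] at h
    simp only [Prod.mk.injEq, and_true] at h
    omega
  · rw [wE_3, wE_3] at h
    simp only [Prod.mk.injEq, and_true] at h
    omega

theorem sep_wE (hs : 0 ≤ s) (hi : i < -s) (hj : s ≤ j) : Sep s (wE κ v i) (wE κ v j) := by
  unfold Sep
  rcases k4 κ with rfl | rfl | rfl | rfl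
  · left
    rw [wE_0, wE_0, ub_false, ua_mk]
    simp only
    omega
  · right; right; left
    rw [wE_1, wE_1, ub_true, ua_mk]
    simp only
    omega
  · right; left
    rw [wE_2, wE_2, ub_false, ua_mk]
    simp only
    omega
  · right; right; right
    rw [wE_3, wE_3, ub_true, ua_mk]
    simp only
    omega

/-- the wall edges before `v` -/
def PAz (κ : ZMod 4) (v : ℤ × ℤ) (R : ℤ) (a : UE) : Prop := ∃ i, -R ≤ i ∧ i < 0 ∧ a = wE κ v i

/-- the wall edges after `v` -/
def PBz (κ : ZMod 4) (v : ℤ × ℤ) (R : ℤ) (a : UE) : Prop := ∃ i, 0 ≤ i ∧ i < R ∧ a = wE κ v i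

theorem bdF_PAz (h : FlatZ F κ v R) (ha : PAz κ v R a) : BdF (F : Set (ℤ × ℤ)) a := by
  obtain ⟨i, h1, h2, rfl⟩ := ha
  exact bdF_wE h h1 (by omega)

theorem bdF_PBz (h : FlatZ F κ v R) (ha : PBz κ v R a) : BdF (F : Set (ℤ × ℤ)) a := by
  obtain ⟨i, h1, h2, rfl⟩ := ha
  exact bdF_wE h (by omega) h2

theorem PAz_not (ha : PAz κ v R a) : ¬ PBz κ v R' a := by
  obtain ⟨i, h1, h2, rfl⟩ := ha
  rintro ⟨j, h3, h4, h5⟩
  have := wE_inj h5
  omega

theorem wsep_z (h : FlatZ F κ v R) (hs : 0 < s) :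
    WSep (F : Set (ℤ × ℤ)) (PAz κ v R) (PBz κ v R) v s := by
  rintro a b ⟨i, h1, h2, rfl⟩ ⟨j, h3, h4, rfl⟩ ⟨f, hf, hf', hfs⟩ ⟨f', hg, hg', hgs⟩
  rw [Finset.mem_coe] at hf hf' hg hg'
  have e1 := side_wE h h1 (by omega) hf hfs
  have e2 := side_wE h (by omega) h4 hg hgs
  rw [e1, cl_mem_BR] at hf'
  rw [e2, cl_mem_BR] at hg'
  exact sep_wE hs.le (by omega) (by omega)

/-! ### The contour of the refinement -/

variable {P : Finset (ℤ × ℤ)} {L n : ℕ} {g : ℤ → ℤ × ℤ} {k : ℤ}

/-- the unit edges of the contour before the vertex `k` -/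
def MA (n : ℕ) (g : ℤ → ℤ × ℤ) (k R : ℤ) (a : UE) : Prop :=
  ∃ i, k - R ≤ i ∧ i < k ∧ a = und (gr n g i, gr n g (i + 1))

/-- the unit edges of the contour after the vertex `k` -/
def MB (n : ℕ) (g : ℤ → ℤ × ℤ) (k R : ℤ) (a : UE) : Prop :=
  ∃ i, k ≤ i ∧ i < k + R ∧ a = und (gr n g i, gr n g (i + 1))

theorem MA_eq (h : ∀ i, -R ≤ i → i ≤ R → gr n g (k + i) = fr κ (gr n g k) i 0) (_hR : 0 ≤ R) :
    MA n g k R = PAz κ (gr n g k) R := by
  funext a
  apply propext
  unfold MA PAz wE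
  constructor
  · rintro ⟨i, h1, h2, rfl⟩
    refine ⟨i - k, by omega, by omega, ?_⟩
    rw [← h (i - k) (by omega) (by omega), ← h (i - k + 1) (by omega) (by omega)]
    congr 3 <;> ring
  · rintro ⟨i, h1, h2, rfl⟩
    refine ⟨k + i, by omega, by omega, ?_⟩
    rw [← h i (by omega) (by omega), ← h (i + 1) (by omega) (by omega), add_assoc]

theorem MB_eq (h : ∀ i, -R ≤ i → i ≤ R → gr n g (k + i) = fr κ (gr n g k) i 0) (_hR : 0 ≤ R) :
    MB n g k R = PBz κ (gr n g k) R := by
  funext a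
  apply propext
  unfold MB PBz wE
  constructor
  · rintro ⟨i, h1, h2, rfl⟩
    refine ⟨i - k, by omega, by omega, ?_⟩
    rw [← h (i - k) (by omega) (by omega), ← h (i - k + 1) (by omega) (by omega)]
    congr 3 <;> ring
  · rintro ⟨i, h1, h2, rfl⟩
    refine ⟨k + i, by omega, by omega, ?_⟩
    rw [← h i (by omega) (by omega), ← h (i + 1) (by omega) (by omega), add_assoc]

/-- **The walls at a flat mark**: the hypotheses of `DomUp.dom_av` for one mark, uniformly in `n` and `k`. -/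
theorem mark_near (h : Cont P L g) {t : ℝ} (ht : Fl g t) : ∃ δ : ℝ, 0 < δ ∧
    ∀ n : ℕ, 0 < n → ∀ k : ℤ, |(k : ℝ) / n - t| < δ → ∀ R : ℤ, 0 ≤ R → (R : ℝ) ≤ δ * n →
      (∀ a, MA n g k R a → BdF (rf n P : Set (ℤ × ℤ)) a) ∧
      (∀ a, MB n g k R a → BdF (rf n P : Set (ℤ × ℤ)) a) ∧
      (∀ a, MA n g k R a → ¬ MB n g k R a) ∧
      ∀ s : ℤ, 0 < s → WSep (rf n P : Set (ℤ × ℤ)) (MA n g k R) (MB n g k R) (gr n g k) s := by
  obtain ⟨κ, δ, hδ, H⟩ := flat_near h ht
  refine ⟨δ, hδ, fun n hn k hk R hR0 hR => ?_⟩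
  obtain ⟨h1, h2⟩ := H n hn k hk R hR0 hR
  rw [MA_eq h2 hR0, MB_eq h2 hR0]
  exact ⟨fun a => bdF_PAz h1, fun a => bdF_PBz h1, fun a => PAz_not, fun s hs => wsep_z h1 hs⟩

/-- **The boxes of two different marks are disjoint**, uniformly in `n`. -/
theorem boxes_disj (h : Cont P L g) {t t' : ℝ} (hne : gam g t ≠ gam g t') : ∃ δ : ℝ, 0 < δ ∧
    ∀ n : ℕ, 0 < n → ∀ k k' : ℤ, |(k : ℝ) / n - t| < δ → |(k' : ℝ) / n - t'| < δ →
      ∀ R R' : ℤ, (R : ℝ) ≤ δ * n → (R' : ℝ) ≤ δ * n →
        Disjoint (BR (gr n g k) R) (BR (gr n g k') R') := by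
  set D := ‖gam g t - gam g t'‖ with hD
  have hD0 : 0 < D := norm_pos_iff.2 (sub_ne_zero.2 hne)
  refine ⟨D / 8, by linarith, fun n hn k k' hk hk' R R' hR hR' => ?_⟩
  have hn0 : (0 : ℝ) < n := by exact_mod_cast hn
  rw [Finset.disjoint_left]
  intro f hf hf'
  rw [mem_BR] at hf hf'
  have e1 := CARf.gam_lip h t ((k : ℝ) / n)
  have e2 := CARf.gam_lip h t' ((k' : ℝ) / n)
  have e3 : ‖gam g ((k : ℝ) / n) - gam g ((k' : ℝ) / n)‖ ≤ (2 * (R + R') : ℝ) / n := by
    rw [CARf.gam_div g hn, CARf.gam_div g hn]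
    refine (Complex.norm_le_abs_re_add_abs_im _).trans ?_
    simp only [Complex.sub_re, Complex.sub_im]
    rw [← sub_div, ← sub_div, abs_div, abs_div, abs_of_pos hn0, ← add_div]
    refine div_le_div_of_nonneg_right ?_ hn0.le
    have h1 : |((gr n g k).1 : ℝ) - (gr n g k').1| ≤ R + R' := by
      rw [abs_le]
      have a1 : -(R + R') ≤ (gr n g k).1 - (gr n g k').1 := by omega
      have a2 : (gr n g k).1 - (gr n g k').1 ≤ R + R' := by omega
      constructor
      · exact_mod_cast a1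
      · exact_mod_cast a2
    have h2 : |((gr n g k).2 : ℝ) - (gr n g k').2| ≤ R + R' := by
      rw [abs_le]
      have a1 : -(R + R') ≤ (gr n g k).2 - (gr n g k').2 := by omega
      have a2 : (gr n g k).2 - (gr n g k').2 ≤ R + R' := by omega
      constructor
      · exact_mod_cast a1
      · exact_mod_cast a2
    linarith
  have e4 : (2 * (R + R') : ℝ) / n ≤ D / 2 := by
    rw [div_le_iff₀ hn0]
    linarith
  have e5 : D ≤ ‖gam g ((k : ℝ) / n) - gam g t‖ + ‖gam g ((k : ℝ) / n) - gam g ((k' : ℝ) / n)‖ +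
      ‖gam g ((k' : ℝ) / n) - gam g t'‖ := by
    have : gam g t - gam g t' = -(gam g ((k : ℝ) / n) - gam g t) +
        (gam g ((k : ℝ) / n) - gam g ((k' : ℝ) / n)) + (gam g ((k' : ℝ) / n) - gam g t') := by ring
    rw [hD, this]
    refine (norm_add_le _ _).trans (add_le_add_left ?_ _)
    refine (norm_add_le _ _).trans (add_le_add_left ?_ _)
    rw [norm_neg]
  linarith

end Pool.Agent.SixB.DomMk
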