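import Pool.Agent.Lib.SixB.CAEnvE
import Pool.Agent.Lib.SixB.CARf

/-!
# 6BD block CA: heights of Manhattan polygons, loops and arcs, the natural environment

`MPoly P`, `Cont P m g` (for the refinements use `mpoly_rf`, `cont_rf`).
* `VX P`: the vertices of `P`; `MPoly.potQ`, `MPoly.connV` (all vertices are joined), `Cont.mem_VX`.
* `MPoly.hU_edge`, `MPoly.hU_unique`, `MPoly.hU_uH` (= `Ht.uH` for all boundary phases with the jumps `j`).
* `hN_cenv`: for every configuration and every start `k` of the contour,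
  `hN z - hN (g k) = √3 * nLp * ∏ tJ + ∑ (arcs over z) dJ * ∏ (other arcs) tJ`.
* natural environment (`jN m b`): `tJ = 1`, `W = 1`, `Z = 1`, `s = ∓ 1 / √3`: `nat_t`, `nat_s`, `nat_W`, `nat_Z`.
-/

set_option autoImplicit false
set_option linter.unusedSectionVars false

namespace Pool.Agent.SixB

open Pool.Agent.Perc Pool.Agent.Perc.Q Relation
open Ht (tJ dJ)

noncomputable section

variable {P : Finset (ℤ × ℤ)} {ω : Cfg} {a b e x y : DZ} {z z' z'' : VZ} {g : ℤ → VZ} {ν : ℤ → ℤ}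
  {m : ℕ} {j : ℤ → ℝ} {ψ : DZ → ℝ} {k : ℤ}

/-- the vertices of the faces of `P` -/
def VX (P : Finset (ℤ × ℤ)) : Set VZ := {v | ∃ f ∈ P, ∃ k : ZMod 4, v = ZQ.c f k}

theorem mem_VX_of {f : ℤ × ℤ} (hf : f ∈ P) (k : ZMod 4) : ZQ.c f k ∈ VX P := ⟨f, hf, k, rfl⟩

theorem mem_VX_iff {v : VZ} : v ∈ VX P ↔ (v.1, v.2) ∈ P ∨ (v.1 - 1, v.2) ∈ P ∨
    (v.1 - 1, v.2 - 1) ∈ P ∨ (v.1, v.2 - 1) ∈ P := by
  obtain ⟨x, y⟩ := v
  constructor
  · rintro ⟨⟨u, w⟩, hf, k, hk⟩
    rcases Tilt.k4 k with rfl | rfl | rfl | rfl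
    · change (x, y) = (u, w) at hk
      obtain ⟨rfl, rfl⟩ := Prod.mk.inj hk
      exact Or.inl hf
    · change (x, y) = (u + 1, w) at hk
      obtain ⟨rfl, rfl⟩ := Prod.mk.inj hk
      exact Or.inr (Or.inl (by simpa using hf))
    · change (x, y) = (u + 1, w + 1) at hk
      obtain ⟨rfl, rfl⟩ := Prod.mk.inj hk
      exact Or.inr (Or.inr (Or.inl (by simpa using hf)))
    · change (x, y) = (u, w + 1) at hk
      obtain ⟨rfl, rfl⟩ := Prod.mk.inj hk
      exact Or.inr (Or.inr (Or.inr (by simpa using hf)))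
  · rintro (h | h | h | h)
    · exact ⟨_, h, 0, rfl⟩
    · refine ⟨_, h, 1, ?_⟩
      change (x, y) = (x - 1 + 1, y)
      simp
    · refine ⟨_, h, 2, ?_⟩
      change (x, y) = (x - 1 + 1, y - 1 + 1)
      simp
    · refine ⟨_, h, 3, ?_⟩
      change (x, y) = (x, y - 1 + 1)
      simp

theorem mem_VX_of_dE (he : e ∈ dE ZQ P) : e.1 ∈ VX P ∧ e.2 ∈ VX P := by
  obtain ⟨f, hf, k, rfl | rfl⟩ := mem_dE.mp he
  · exact ⟨⟨f, hf, k, rfl⟩, ⟨f, hf, k + 1, rfl⟩⟩
  · exact ⟨⟨f, hf, k + 1, rfl⟩, ⟨f, hf, k, rfl⟩⟩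

theorem Cont.mem_VX (hc : Cont P m g) (k : ℤ) : g k ∈ VX P :=
  (mem_VX_of_dE (mem_bS.mp (hc.csd_mem_bS k)).1).1

theorem MPoly.potQ (hP : MPoly P) : Tilt.HasPotQ ZQ P := Tilt.hasPotQ_of_esc hP.esc

/-- all vertices are joined by unit edges -/
theorem MPoly.connV (hP : MPoly P) (hc : Cont P m g) (hz : z ∈ VX P) (hz' : z' ∈ VX P) :
    Tilt.ConnE ZQ P z z' := by
  obtain ⟨f, hf, k, rfl⟩ := hz
  obtain ⟨f', hf', k', rfl⟩ := hz'
  obtain ⟨ν, -, -, -, hD⟩ := hP.disc hc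
  exact Ht.disc_conn (hD 0) hf hf' k k'

/-! ## Mean heights -/

theorem MPoly.hU_edge (hP : MPoly P) (he : e ∈ dE ZQ P) :
    (cenv P g m j).hU e.1 e.2 = (cenv P g m j).mA e := (cenv P g m j).hU_edge hP.potQ he

theorem MPoly.hU_unique (hP : MPoly P) (hc : Cont P m g) {u : VZ → ℝ}
    (hu : ∀ a ∈ dE ZQ P, u a.1 - u a.2 = (cenv P g m j).mA a) (hz : z ∈ VX P) (hz' : z' ∈ VX P) :
    (cenv P g m j).hU z z' = u z - u z' :=
  (cenv P g m j).hU_unique hP.potQ hu (hP.connV hc hz hz')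

/-- **the height of the marked polygon is the height of the arrow sum**, for all boundary phases
with the jumps `j` (`ν` = the lifted directions of the contour) -/
theorem MPoly.hU_uH (hP : MPoly P) (hc : Cont P m g) (hj : ∀ v, j (v + m) = j v)
    (h0 : csum j 0 m = Real.pi / 3) :
    ∃ ν : ℤ → ℤ, (∀ i, g (i + 1) = g i + dv (ν i)) ∧ (∀ i, ν (i + m) = ν i + 4) ∧
      (∀ i, ν (i + 1) = ν i + 1 ∨ ν (i + 1) = ν i ∨ ν (i + 1) = ν i - 1) ∧
      (∀ k : ℤ, Disc ZQ (P : Set (ℤ × ℤ)) (Glued ZQ P) (cword g ν m k)) ∧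
      IsPh g ν j (phC g ν m j) ∧
      ∀ ψ : DZ → ℝ, IsPh g ν j ψ →
        (∀ ω, (cenv P g m j).W ω = WU ZQ P ψ ω / Real.sqrt 3 ^ (m / 2)) ∧
        (cenv P g m j).Z = av P (WU ZQ P ψ) / Real.sqrt 3 ^ (m / 2) ∧
        (∀ e ∈ dE ZQ P, ∀ ω, (cenv P g m j).num ω e = WU1 ZQ P ψ e ω / Real.sqrt 3 ^ (m / 2)) ∧
        (∀ e ∈ dE ZQ P, (cenv P g m j).mA e = uE ZQ P ψ e) ∧
        ∀ z ∈ VX P, ∀ z' ∈ VX P, (cenv P g m j).hU z z' = Ht.uH ZQ P ψ z z' := by
  obtain ⟨ν, h1, h2, h3, hD⟩ := hP.disc hc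
  refine ⟨ν, h1, h2, h3, hD, exists_ph hc h2 hj h0, fun ψ hψ => ⟨?_, ?_, ?_, ?_, ?_⟩⟩
  · exact fun ω => cenv_W hc (hD 0) hj h0 hψ ω
  · exact cenv_Z hc (hD 0) hj h0 hψ
  · exact fun e he ω => cenv_num hc (hD 0) hj h0 hψ he ω
  · exact fun e he => cenv_mA hc (hD 0) hj h0 hψ he
  · exact fun z hz z' hz' => cenv_hU hc (hD 0) hj h0 hψ hP.potQ (hP.connV hc hz hz')

/-- the directions of a contour are determined by one of them -/
theorem dir_unique {ν ν' : ℤ → ℤ} (h : ∀ i, g (i + 1) = g i + dv (ν i))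
    (h' : ∀ i, g (i + 1) = g i + dv (ν' i))
    (hs : ∀ i, ν (i + 1) = ν i + 1 ∨ ν (i + 1) = ν i ∨ ν (i + 1) = ν i - 1)
    (hs' : ∀ i, ν' (i + 1) = ν' i + 1 ∨ ν' (i + 1) = ν' i ∨ ν' (i + 1) = ν' i - 1) (i : ℤ) :
    ν' i - ν i = ν' 0 - ν 0 := by
  have hmod : ∀ i, ν i % 4 = ν' i % 4 := by
    intro i
    rw [← dv_eq_iff]
    exact add_left_cancel ((h i).symm.trans (h' i))
  have step : ∀ i, ν' (i + 1) - ν (i + 1) = ν' i - ν i := by
    intro i
    have h1 := hmod i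
    have h2 := hmod (i + 1)
    have h3 := hs i
    have h4 := hs' i
    omega
  induction i using Int.induction_on with
  | zero => rfl
  | succ i ih => rw [step, ih]
  | pred i ih =>
    have := step (-(i : ℤ) - 1)
    rw [show -(i : ℤ) - 1 + 1 = -i by ring, ih] at this
    exact this.symm

/-! ## Loops and arcs -/

/-- the word of a contour is a closed path -/
theorem wpath_cword (hc : Cont P m g) (ν : ℤ → ℤ) (k : ℤ) : Ht.WPath (g k) (cword g ν m k) (g k) := by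
  have key : ∀ n : ℕ, Ht.WPath (g k) ((List.range n).map fun i : ℕ =>
      (((g (k + i), g (k + i + 1)), ν (k + i)) : DZ × ℤ)) (g (k + n)) := by
    intro n
    induction n with
    | zero => simp [Ht.WPath]
    | succ n ih =>
      rw [List.range_succ, List.map_append]
      refine Ht.wpath_append.mpr ⟨_, ih, rfl, ?_⟩
      show g (k + n + 1) = g (k + (n + 1 : ℕ))
      push_cast
      rw [add_assoc]
  have h1 := key m
  rw [hc.per] at h1
  exact h1

theorem cword_ne_nil (hc : Cont P m g) : cword g ν m k ≠ [] := by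
  intro h
  have h1 := cword_length g ν m k
  rw [h] at h1
  have := hc.pos
  simp at h1
  omega

/-- the height numerators of `cenv` and of the arrow sum -/
theorem hN_HR (hP : Tilt.HasPotQ ZQ P) (hc : Cont P m g) {G : Set DZ}
    (hD : Disc ZQ (P : Set (ℤ × ℤ)) G (cword g ν m k)) (hj : ∀ v, j (v + m) = j v)
    (h0 : csum j 0 m = Real.pi / 3) (hψ : IsPh g ν j ψ) (hz : Tilt.ConnE ZQ P z z') (ω : Cfg) :
    (cenv P g m j).hN ω z - (cenv P g m j).hN ω z' =
      (Ht.HR ZQ P ψ z ω - Ht.HR ZQ P ψ z' ω) / Real.sqrt 3 ^ (m / 2) := by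
  have h := Tilt.sub_eq_of_inc (G := P) (u := fun v => (cenv P g m j).hN ω v)
    (v := fun v => Ht.HR ZQ P ψ v ω / Real.sqrt 3 ^ (m / 2)) (z := z) (z' := z')
    (fun a ha => by
      show (cenv P g m j).hN ω a.1 - (cenv P g m j).hN ω a.2 = _
      rw [(cenv P g m j).hN_sub hP ha, cenv_num hc hD hj h0 hψ ha, ← sub_div,
        Ht.HR_sub Tilt.zq_noLoop hP ha]) hz
  rw [sub_div]
  exact h

/-- **The height numerator: loops and arcs.** -/
theorem hN_cenv (hP : MPoly P) (hc : Cont P m g)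
    (hD : Disc ZQ (P : Set (ℤ × ℤ)) (Glued ZQ P) (cword g ν m k))
    (hν : ∀ i, ν (i + m) = ν i + 4) (hj : ∀ v, j (v + m) = j v) (h0 : csum j 0 m = Real.pi / 3)
    (hz : z ∈ VX P) (ω : Cfg) :
    (cenv P g m j).hN ω z - (cenv P g m j).hN ω (g k) =
      Real.sqrt 3 * Ht.nLp ZQ P ω z (g k) *
        ∏ i ∈ (Finset.range m).filter (fun i => i < cM ZQ P (cword g ν m k) ω i),
          tJ (csum j (k + i) (k + cM ZQ P (cword g ν m k) ω i)) +
      ∑ i ∈ Ht.ovZ ZQ P (cword g ν m k) ω z,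
        (∏ l ∈ ((Finset.range m).filter (fun l => l < cM ZQ P (cword g ν m k) ω l)).erase i,
          tJ (csum j (k + l) (k + cM ZQ P (cword g ν m k) ω l))) *
        dJ (csum j (k + i) (k + cM ZQ P (cword g ν m k) ω i)) := by
  have hψ := exists_ph hc hν hj h0
  have hz' := hP.connV hc hz (hc.mem_VX k)
  rw [hN_HR hP.potQ hc hD hj h0 hψ hz' ω, Ht.disc_HR_norm Tilt.zq_noLoop hP.potQ hD (cword_ini hc)
    (cword_ne_nil hc) (wpath_cword hc ν k) hz', cword_length, mul_div_cancel_left₀ _ (by positivity)]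
  obtain ⟨h1, -, -⟩ := hD.cM_all (cword_ini hc) ω
  rw [cword_length] at h1
  have key : ∀ i ∈ (Finset.range m).filter (fun i => i < cM ZQ P (cword g ν m k) ω i),
      th (cword g ν m k) (phC g ν m j) (cM ZQ P (cword g ν m k) ω i) -
        th (cword g ν m k) (phC g ν m j) i =
      csum j (k + i) (k + cM ZQ P (cword g ν m k) ω i) := by
    intro i hi
    obtain ⟨h2, h3⟩ := Finset.mem_filter.mp hi
    have h4 := Finset.mem_range.mp h2
    exact hψ.th_sub h3.le (h1 i h4).1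
  congr 1
  · congr 1
    exact Finset.prod_congr rfl fun i hi => by rw [key i hi]
  · refine Finset.sum_congr rfl fun i hi => ?_
    have hi' : i ∈ (Finset.range m).filter (fun i => i < cM ZQ P (cword g ν m k) ω i) := by
      unfold Ht.ovZ at hi
      rw [cword_length] at hi
      obtain ⟨h2, h3, -⟩ := Finset.mem_filter.mp hi
      exact Finset.mem_filter.mpr ⟨h2, h3⟩
    rw [key i hi']
    congr 1
    exact Finset.prod_congr rfl fun l hl => by rw [key l (Finset.mem_of_mem_erase hl)]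

/-! ## The natural environment -/

private theorem tJ_zero : tJ 0 = 1 := by
  unfold Ht.tJ
  rw [zero_sub, Real.cos_neg, div_self cos_pi_div_six_ne]

private theorem tJ_third : tJ (Real.pi / 3) = 1 := by
  have := tJ_symm 0
  rw [sub_zero, tJ_zero] at this
  exact this

theorem dJ_zero : dJ 0 = 1 / Real.sqrt 3 := by
  unfold Ht.dJ
  rw [sub_zero, Real.sin_pi_div_six, Real.cos_pi_div_six]
  field_simp

theorem dJ_third : dJ (Real.pi / 3) = -(1 / Real.sqrt 3) := by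
  have := dJ_symm 0
  rw [sub_zero, dJ_zero] at this
  exact this

open Classical in
/-- the sum of the natural jumps over less than a period -/
theorem csum_jN_cases {M : ℕ} (hM : 0 < M) (b : ℤ) {i k : ℤ} (hk : k < i + M) :
    csum (jN M b) i k = if ∃ q : ℤ, i < b + q * M ∧ b + q * M ≤ k then Real.pi / 3 else 0 := by
  have hm : (0 : ℤ) < M := by exact_mod_cast hM
  split_ifs with h
  · obtain ⟨q, h1, h2⟩ := h
    unfold csum
    rw [Finset.sum_eq_single (b + q * M)]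
    · unfold jN
      rw [if_pos ⟨q, by ring⟩]
    · intro v hv hne
      rw [Finset.mem_Ioc] at hv
      unfold jN
      rw [if_neg]
      rintro ⟨c, hc⟩
      apply hne
      have h3 : c = q := by
        by_contra h4
        rcases lt_or_gt_of_ne h4 with h5 | h5
        · have : (M : ℤ) * (c + 1) ≤ M * q := mul_le_mul_of_nonneg_left (by omega) hm.le
          nlinarith
        · have : (M : ℤ) * (q + 1) ≤ M * c := mul_le_mul_of_nonneg_left (by omega) hm.le
          nlinarith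
      rw [h3] at hc
      linarith
    · intro h3
      exact absurd (Finset.mem_Ioc.mpr ⟨h1, h2⟩) h3
  · push Not at h
    unfold csum
    refine Finset.sum_eq_zero fun v hv => ?_
    rw [Finset.mem_Ioc] at hv
    unfold jN
    rw [if_neg]
    rintro ⟨c, hc⟩
    have h1 := h c (by linarith)
    linarith

section natural

variable (hc : Cont P m g)

include hc

theorem bS_csd (hP : MPoly P) (ha : a ∈ bS ZQ P) (k : ℤ) : ∃ i : ℕ, i < m ∧ a = csd g (k + i) := by
  obtain ⟨ν, -, -, -, hD⟩ := hP.disc hc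
  exact bS_pos hc (hD k) ha

open Classical in
theorem nat_ts {b : ℤ} {i k : ℤ} (hik : i < k) (hk : k < i + m) :
    (cenv P g m (jN m b)).t (csd g i) (csd g k) = 1 ∧
    (cenv P g m (jN m b)).s (csd g i) (csd g k) =
      if ∃ q : ℤ, i < b + q * m ∧ b + q * m ≤ k then 1 / Real.sqrt 3 else -(1 / Real.sqrt 3) := by
  obtain ⟨h1, h2⟩ := cenv_ts (F := P) hc (jN_per m b) (csum_jN hc.pos b) hik hk
  rw [csum_jN_cases hc.pos b hk] at h1 h2
  split_ifs at h1 h2 ⊢ with h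
  · exact ⟨by rw [h1, tJ_third], by rw [h2, dJ_third, neg_neg]⟩
  · exact ⟨by rw [h1, tJ_zero], by rw [h2, dJ_zero]⟩

theorem nat_t (hP : MPoly P) {c : ℤ} (ha : a ∈ bS ZQ P) (hb : b ∈ bS ZQ P) (hab : a ≠ b) :
    (cenv P g m (jN m c)).t a b = 1 := by
  obtain ⟨i, hi, rfl⟩ := bS_csd hc hP ha 0
  obtain ⟨l, hl, rfl⟩ := bS_csd hc hP hb 0
  rcases Nat.lt_trichotomy i l with h | h | h
  · exact (nat_ts hc (by omega) (by omega)).1
  · exact absurd (by rw [h]) hab
  · rw [(cenv P g m (jN m c)).t_symm]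
    exact (nat_ts hc (by omega) (by omega)).1

theorem nat_W (hP : MPoly P) (c : ℤ) (ω : Cfg) : (cenv P g m (jN m c)).W ω = 1 := by
  unfold WEnv.W
  refine Finset.prod_eq_one fun p hp => ?_
  obtain ⟨a, ha, rfl⟩ := mem_arcs.mp hp
  exact nat_t hc hP ha (mate_mem ha) (mate_ne Tilt.zq_noLoop ha).symm

theorem nat_Z (hP : MPoly P) (c : ℤ) : (cenv P g m (jN m c)).Z = 1 := by
  unfold WEnv.Z
  have h1 := av_congr (S := (cenv P g m (jN m c)).F) (g := (cenv P g m (jN m c)).W)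
    (g' := fun _ => 1) (fun T _ => nat_W hc hP c (ind T))
  rw [h1, av_const]

end natural

end

end Pool.Agent.SixB
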