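import Pool.Agent.Lib.SixB.S6GDefs
import Pool.Agent.Lib.SixB.CADomPr
import Pool.Agent.Lib.SixB.CADomKO
import Pool.Agent.Lib.SixB.CADomMark
import Pool.Agent.Lib.SixB.CAEnvF
import Pool.Agent.Lib.SixB.CAIn

/-!
# 6BD block CA, domination: definitions and statements

Text: 6bd_helper89_G.md, section 2, with the holes of helper97. Environments of `CAEnvE`: `envN`, `envP`, `envX`;
`n` = scale, the marks have the contour indices `j` (`a2`), `j'` (`a2'`), the side `e` is `csd (gr n g) k`.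
* `tau α`: the weight of the arcs over exactly one of the two marks; `1 ≤ tau α ≤ 2 / √3`.
* `FF P g n j R r α`: the local factor at a mark: walls `DomMk.MA`, `DomMk.MB` of length `R`, box of radius `r`.
* `Lg F a c r ω`: the strand of `a` in the box reaches the boundary of the box.
* `hPr`: the product `tau ^ N * tau ^ N' * q ^ (K + 1)`.
* `DetP`, `DetX`: the deterministic domination (rows D1 + D2); `LowX`: the lower bound of `Z`.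
* `DomE`: the result for one environment with `e`; `MajP`, `MajX`: the result in the form of `GG.Maj`.
-/

set_option autoImplicit false

namespace Pool.Agent.SixB.DomX

open Filter Topology Pool.Agent.Perc Pool.Agent.Perc.Q Pool.Agent.PercD Pool.Agent.PercN

noncomputable section

/-- the weight of the arcs over exactly one of the marks `a2`, `a2'` -/
def tau (α : ℝ) : ℝ := Ht.tJ (α * (Real.pi / 3))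

/-- the largest weight -/
def qq : ℝ := 2 / Real.sqrt 3

/-- the number of arcs over the mark `j` in the box of radius `r` -/
def NM (P : Finset (ℤ × ℤ)) (g : ℤ → ℤ × ℤ) (n : ℕ) (j R r : ℤ) (ω : Cfg) : ℕ :=
  NA (rf n P : Set (ℤ × ℤ)) (DomMk.MA n g j R) (DomMk.MB n g j R) (gr n g j) r ω

/-- the local factor at the mark `j` -/
def FF (P : Finset (ℤ × ℤ)) (g : ℤ → ℤ × ℤ) (n : ℕ) (j R r : ℤ) (α : ℝ) : ℝ :=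
  av (rf n P) fun ω => tau α ^ NM P g n j R r ω

theorem FF_eq (P : Finset (ℤ × ℤ)) (g : ℤ → ℤ × ℤ) (n : ℕ) (j R r : ℤ) (α : ℝ) :
    FF P g n j R r α = DomPr.fac (rf n P) (DomMk.MA n g j R) (DomMk.MB n g j R) (gr n g j) r (tau α) := rfl

/-- the strand of `a` in the box reaches the boundary of the box -/
def Lg (F : Finset (ℤ × ℤ)) (a : UE) (c : ℤ × ℤ) (r : ℤ) (ω : Cfg) : Prop :=
  ∃ b ∈ MM ω ((F : Set (ℤ × ℤ)) ∩ (BR c r : Set (ℤ × ℤ))) a, BdR c r b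

/-- the dominating product: walls of length `r`, boxes of radius `r` -/
def hPr (P : Finset (ℤ × ℤ)) (g : ℤ → ℤ × ℤ) (n : ℕ) (j j' r : ℤ) (α : ℝ) (K : Cfg → ℕ) (ω : Cfg) : ℝ :=
  tau α ^ NM P g n j r r ω * tau α ^ NM P g n j' r r ω * qq ^ (K ω + 1)

/-- the count `K` of the large strands: local, off the holes `B`, of bounded exponential moments -/
structure KOk (F B : Finset (ℤ × ℤ)) (N : ℤ) (L : ℕ) (K : Cfg → ℕ) : Prop where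
  dep : Dep ((F \ B : Finset (ℤ × ℤ)) : Set (ℤ × ℤ)) K
  le : ∃ x₀ y₀ : ℤ, F ⊆ RF x₀ (x₀ + N * L) y₀ (y₀ + N * L) ∧ ∀ ω, K ω ≤ KB ω x₀ y₀ N L

/-- the holes of radius `r / 2` at the marks -/
def h2 (g : ℤ → ℤ × ℤ) (n : ℕ) (j j' r : ℤ) : Finset (ℤ × ℤ) :=
  BR (gr n g j) (r / 2) ∪ BR (gr n g j') (r / 2)

/-- **Deterministic domination, two marks.** For small `ρ`, with `r = ⌊ρ n⌋`: hole `BR z s`, `s ≤ r`, at a vertex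
`z` whose distance from the marks is at least `8 r`. -/
def DetP : Prop := ∀ (P : Finset (ℤ × ℤ)) (L : ℕ) (g : ℤ → ℤ × ℤ), MPoly P → Cont P L g →
  ∀ t₂ t₂' : ℝ, t₂ < t₂' → t₂' < t₂ + L → Fl g t₂ → Fl g t₂' → ∃ ρ₀ : ℝ, 0 < ρ₀ ∧
    ∀ ρ : ℝ, 0 < ρ → ρ ≤ ρ₀ → ∃ M : ℕ, ∀ᶠ n : ℕ in atTop, ∀ α ∈ Set.Icc (0 : ℝ) 1, ∀ (z : VZ) (s : ℤ),
      s ≤ ⌊ρ * n⌋ → 8 * ⌊ρ * n⌋ ≤ GG.dd z (gr n g (ix n t₂)) → 8 * ⌊ρ * n⌋ ≤ GG.dd z (gr n g (ix n t₂')) →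
      ∃ (K : Cfg → ℕ) (N : ℤ), 0 < N ∧
        KOk (rf n P) (h2 g n (ix n t₂) (ix n t₂') ⌊ρ * n⌋ ∪ BR z s) N M K ∧
        ∀ ω, ∀ X : Finset (Sym2 DZ), X.card ≤ 1 →
          |∏ q ∈ arcs ZQ (rf n P) ω \ X, (envP P L g n α (ix n t₂) (ix n t₂')).T q| ≤
            hPr P g n (ix n t₂) (ix n t₂') ⌊ρ * n⌋ α K ω

/-- **Deterministic domination, full environment**, `r = ⌊ρ n⌋`: holes `BR c r` at `e` and `BR z s`. -/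
def DetX : Prop := ∀ (P : Finset (ℤ × ℤ)) (L : ℕ) (g : ℤ → ℤ × ℤ), MPoly P → Cont P L g →
  ∀ t₁ t₂ t₂' t₃ t₄ : ℝ, Marks5 L g t₁ t₂ t₂' t₃ t₄ → ∃ ρ₀ : ℝ, 0 < ρ₀ ∧
    ∀ ρ : ℝ, 0 < ρ → ρ ≤ ρ₀ → ∃ M : ℕ, ∀ᶠ p : ℕ × ℤ in lk t₄, ∀ α ∈ Set.Icc (0 : ℝ) 1, ∀ (z : VZ) (s : ℤ),
      s ≤ ⌊ρ * p.1⌋ → 8 * ⌊ρ * p.1⌋ ≤ GG.dd z (gr p.1 g (ix p.1 t₂)) →
      8 * ⌊ρ * p.1⌋ ≤ GG.dd z (gr p.1 g (ix p.1 t₂')) → 8 * ⌊ρ * p.1⌋ ≤ GG.dd z (gr p.1 g p.2) →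
      ∃ (K : Cfg → ℕ) (N : ℤ), 0 < N ∧
        KOk (rf p.1 P) (h2 g p.1 (ix p.1 t₂) (ix p.1 t₂') ⌊ρ * p.1⌋ ∪ BR z s ∪
          BR (gr p.1 g p.2) ⌊ρ * p.1⌋) N M K ∧
        ∀ ω, (∀ X : Finset (Sym2 DZ), X.card ≤ 1 →
            |∏ q ∈ arcs ZQ (rf p.1 P) ω \ X,
              (envX P L g p.1 α (ix p.1 t₁) (ix p.1 t₂) (ix p.1 t₂') (ix p.1 t₃) p.2).T q| ≤
              hPr P g p.1 (ix p.1 t₂) (ix p.1 t₂') ⌊ρ * p.1⌋ α K ω) ∧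
          (¬ Lg (rf p.1 P) (Tilt.und (csd (gr p.1 g) p.2)) (gr p.1 g p.2) ⌊ρ * p.1⌋ ω →
            (envX P L g p.1 α (ix p.1 t₁) (ix p.1 t₂) (ix p.1 t₂') (ix p.1 t₃) p.2).T
              (arcE (rf p.1 P) ω (csd (gr p.1 g) p.2)) = 0)

/-- **Lower bound of the partition function** (a small radius `ρ n` is enough: `NM_mono`). -/
def LowX : Prop := ∀ (P : Finset (ℤ × ℤ)) (L : ℕ) (g : ℤ → ℤ × ℤ), MPoly P → Cont P L g →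
  ∀ t₁ t₂ t₂' t₃ t₄ : ℝ, Marks5 L g t₁ t₂ t₂' t₃ t₄ → ∃ ρ : ℝ, 0 < ρ ∧
    ∃ c : ℝ, 0 < c ∧ ∀ᶠ p : ℕ × ℤ in lk t₄, ∀ α ∈ Set.Icc (0 : ℝ) 1,
      c / p.1 * (FF P g p.1 (ix p.1 t₂) ⌊ρ * p.1⌋ ⌊ρ * p.1⌋ α * FF P g p.1 (ix p.1 t₂') ⌊ρ * p.1⌋ ⌊ρ * p.1⌋ α) ≤
        (envX P L g p.1 α (ix p.1 t₁) (ix p.1 t₂) (ix p.1 t₂') (ix p.1 t₃) p.2).Z

/-- domination of an environment with a marked side `e` at `c`: `H` does not depend on the faces of `BR c r` and of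
the hole `B` -/
structure DomE (E : WEnv) (e : DZ) (c : VZ) (r : ℤ) (B : Finset (ℤ × ℤ)) (A : ℝ) (H : Cfg → ℝ) : Prop where
  Zpos : 0 < E.Z
  nonneg : ∀ ω, 0 ≤ H ω
  dep : Dep ((E.F \ (BR c r ∪ B) : Finset (ℤ × ℤ)) : Set (ℤ × ℤ)) H
  W : ∀ ω, |E.W ω| ≤ H ω
  W0 : ∀ ω, ¬ Lg E.F (Tilt.und e) c r ω → E.W ω = 0
  T0 : ∀ ω, ¬ Lg E.F (Tilt.und e) c r ω → E.T (arcE E.F ω e) = 0
  num : ∀ ω, ∀ a ∈ dE ZQ E.F, |E.num ω a| ≤ 2 * H ω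
  /-- the strands different from the strand of `e` -/
  num0 : ∀ ω, ¬ Lg E.F (Tilt.und e) c r ω → ∀ a ∈ dE ZQ E.F, ¬ SRel ZQ E.F ω e a → ¬ SRel ZQ E.F ω e a.swap →
    E.num ω a = 0
  pole : ∀ ω, |∏ p ∈ (arcs ZQ E.F ω).erase (arcE E.F ω e), E.T p| ≤ H ω
  mean : av E.F H ≤ A * E.Z

/-- **Result 1**: the full environment, mean `M n Z`; the holes `BR (gr n g k) ⌊ρ n⌋` and `BR z s`. -/
def ResX : Prop := ∀ (P : Finset (ℤ × ℤ)) (L : ℕ) (g : ℤ → ℤ × ℤ), MPoly P → Cont P L g →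
  ∀ t₁ t₂ t₂' t₃ t₄ : ℝ, Marks5 L g t₁ t₂ t₂' t₃ t₄ → ∃ ρ₀ : ℝ, 0 < ρ₀ ∧ ∀ ρ : ℝ, 0 < ρ → ρ ≤ ρ₀ →
    ∃ M : ℝ, 0 < M ∧ ∀ᶠ p : ℕ × ℤ in lk t₄, ∀ α ∈ Set.Icc (0 : ℝ) 1, ∀ (z : VZ) (s : ℤ),
      s ≤ ⌊ρ * p.1⌋ → 8 * ⌊ρ * p.1⌋ ≤ GG.dd z (gr p.1 g (ix p.1 t₂)) →
      8 * ⌊ρ * p.1⌋ ≤ GG.dd z (gr p.1 g (ix p.1 t₂')) → 8 * ⌊ρ * p.1⌋ ≤ GG.dd z (gr p.1 g p.2) →
      ∃ H, DomE (envX P L g p.1 α (ix p.1 t₁) (ix p.1 t₂) (ix p.1 t₂') (ix p.1 t₃) p.2)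
        (csd (gr p.1 g) p.2) (gr p.1 g p.2) ⌊ρ * p.1⌋ (BR z s) (M * p.1) H

/-- **Result 2**: `GG.Maj` for the full environment, at every vertex whose distance from `a2`, `a2'`, `e` is at least
`ε n`, uniformly in `α ∈ [0, 1]`. -/
def MajX : Prop := ∀ (P : Finset (ℤ × ℤ)) (L : ℕ) (g : ℤ → ℤ × ℤ), MPoly P → Cont P L g →
  ∀ t₁ t₂ t₂' t₃ t₄ : ℝ, Marks5 L g t₁ t₂ t₂' t₃ t₄ → ∀ ε : ℝ, 0 < ε → ∃ δ M : ℝ, 0 < δ ∧ 0 < M ∧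
    ∀ᶠ p : ℕ × ℤ in lk t₄, ∀ α ∈ Set.Icc (0 : ℝ) 1, ∀ (z : VZ) (d : ℤ), (d : ℝ) ≤ δ * p.1 →
      ε * p.1 ≤ GG.dd z (gr p.1 g (ix p.1 t₂)) → ε * p.1 ≤ GG.dd z (gr p.1 g (ix p.1 t₂')) →
      ε * p.1 ≤ GG.dd z (gr p.1 g p.2) →
        GG.Maj (envX P L g p.1 α (ix p.1 t₁) (ix p.1 t₂) (ix p.1 t₂') (ix p.1 t₃) p.2) z d M ∧
        GG.Maj (envX P L g p.1 α (ix p.1 t₁) (ix p.1 t₂) (ix p.1 t₂') (ix p.1 t₃) (p.2 - 1)) z d M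

/-- **Result 3**: `GG.Maj` for the environment with two marks. -/
def MajP : Prop := ∀ (P : Finset (ℤ × ℤ)) (L : ℕ) (g : ℤ → ℤ × ℤ), MPoly P → Cont P L g →
  ∀ t₂ t₂' : ℝ, t₂ < t₂' → t₂' < t₂ + L → Fl g t₂ → Fl g t₂' → ∀ ε : ℝ, 0 < ε → ∃ δ M : ℝ, 0 < δ ∧ 0 < M ∧
    ∀ᶠ n : ℕ in atTop, ∀ α ∈ Set.Icc (0 : ℝ) 1, ∀ (z : VZ) (d : ℤ), (d : ℝ) ≤ δ * n →
      ε * n ≤ GG.dd z (gr n g (ix n t₂)) → ε * n ≤ GG.dd z (gr n g (ix n t₂')) →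
        GG.Maj (envP P L g n α (ix n t₂) (ix n t₂')) z d M

/-- **Result 4**: `GG.Maj` for the natural environment. -/
def MajN : Prop := ∀ (P : Finset (ℤ × ℤ)) (L : ℕ) (g : ℤ → ℤ × ℤ), MPoly P → Cont P L g →
  ∀ n : ℕ, 0 < n → ∀ (b : ℤ) (z : VZ) (d : ℤ), GG.Maj (envN P L g n b) z d 1

end

end Pool.Agent.SixB.DomX
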