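import Pool.Agent.Lib.SixB.S6LHgt
import Pool.Agent.Lib.SixB.S3Count
import Pool.Agent.Lib.SixB.CADefs

/-!
# 6BD block CA, rows S6G: definitions and statements

Text: 6bd_helper89_G.md. Heights: `HG.HS`, `HG.u0`, `HG.cls`, `HG.far` of S6LHgt.
* `IsV F z`: `z` is a vertex of a face of `F`; `dd`: sup distance of vertices.
* `LocF F v d`: local connectedness of `F` near `v` up to the scale `d` (plane, half plane, corners).
* `Kap2 E v d`: local mean arrows are bounded by 2; `NatW E v d`: the arcs with both ends near `v` have weight 1.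
* `Maj E v d M`: a majorant which does not depend on the faces of `BR v d`.
* Rows as propositions: `RowCount`, `RowNoLeg`, `RowFar`, `RowInc`, `RowBase`, `RowDec`, `RowMean`; THEOREM `LD1`.
-/

set_option autoImplicit false

namespace Pool.Agent.SixB.GG

open Pool.Agent.Perc Pool.Agent.Perc.Q Pool.Agent.PercD Tilt HG Relation

noncomputable section

/-- sup distance -/
def dd (z w : VZ) : ℤ := max |z.1 - w.1| |z.2 - w.2|

/-- `z` is a vertex of a face of `F` -/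
def IsV (F : Finset (ℤ × ℤ)) (z : VZ) : Prop := ∃ f ∈ F, ∃ k, ZQ.c f k = z

/-- local geometry of `F` near `v` up to the scale `d` -/
structure LocF (F : Finset (ℤ × ℤ)) (v : VZ) (d : ℤ) : Prop where
  join : ∀ (s : ℤ) (z z' : VZ), 1 ≤ s → 2 * s ≤ d → IsV F z → IsV F z' → dd z v ≤ s → dd z' v ≤ s →
    ConnE ZQ (F ∩ BR v (2 * s)) z z'
  avoid : ∀ (w : VZ) (ρ : ℤ) (z q : VZ), 1 ≤ ρ → 8 * ρ ≤ d → IsV F z → IsV F q → dd z v ≤ d → dd q v ≤ d →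
    ρ < dd z w → ρ < dd q w → ConnE ZQ (F \ BR w ρ) z q

/-- the local mean arrows of the strands which are contained in `BR v d` -/
def Kap2 (E : WEnv) (v : VZ) (d : ℤ) : Prop :=
  ∀ (ω : Cfg) (X : Finset DZ) (e : DZ), X ∈ dstr ZQ E.F ω → InF ZQ E.F (BR v d) X → e ∈ X →
    |kap E ω e| ≤ 2

/-- the arcs with both ends in `BR v d` have weight 1 -/
def NatW (E : WEnv) (v : VZ) (d : ℤ) : Prop :=
  ∀ a ∈ bS ZQ E.F, ∀ b ∈ bS ZQ E.F, Ah ZQ (BR v d) a → Ah ZQ (BR v d) b → E.t a b = 1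

/-- majorant which does not depend on the faces of `BR v d` -/
def Maj (E : WEnv) (v : VZ) (d : ℤ) (M : ℝ) : Prop :=
  0 < E.Z ∧ ∃ H : Cfg → ℝ, Dep ((E.F \ BR v d : Finset (ℤ × ℤ)) : Set (ℤ × ℤ)) H ∧ (∀ ω, |E.W ω| ≤ H ω) ∧
    (∀ ω, ∀ e ∈ dE ZQ (E.F ∩ BR v d), |E.num ω e| ≤ 2 * H ω) ∧ av E.F H ≤ M * E.Z

/-- the strand `X` of `F` visits a face of `A` -/
def Vis (F A : Finset (ℤ × ℤ)) (X : Finset DZ) : Prop :=
  ∃ f ∈ F, f ∈ A ∧ ∃ k, sd ZQ f k ∈ X ∨ (sd ZQ f k).swap ∈ X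

/-! ## Rows -/

/-- (RowCount) strands of `F` which visit the inner box and are not contained in the outer box -/
def RowCount : Prop := ∀ (F : Finset (ℤ × ℤ)) (v : VZ) (r R : ℤ) (ω : Cfg) (S : Finset (Finset (Finset DZ))),
  0 ≤ r → r < R → S ⊆ ust ZQ F ω → (∀ U ∈ S, Vis F (BR v r) (rep U) ∧ ¬ InF ZQ F (BR v R) (rep U)) →
    S.card ≤ NF (F : Set (ℤ × ℤ)) v r R ω

/-- (RowNoLeg) no crossing strand: no leg -/
def RowNoLeg : Prop := ∀ (F : Finset (ℤ × ℤ)) (v : VZ) (r R : ℤ) (ω : Cfg), 0 ≤ r → r < R →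
  NF (F : Set (ℤ × ℤ)) v r R ω = 0 → NoLeg ZQ ω F (F ∩ BR v r) (F ∩ BR v R)

/-- (RowFar) strands which are not contained in `BR v R` and separate two vertices of `BR v s` -/
def RowFar : Prop := ∀ (E : WEnv) (v : VZ) (s R : ℤ) (z z' : VZ) (H : ℝ) (ω : Cfg), HasPotQ ZQ E.F → 0 ≤ H → 1 ≤ s →
  s < R → ConnE ZQ (E.F ∩ BR v s) z z' → (∀ e ∈ dE ZQ (E.F ∩ BR v s), |E.num ω e| ≤ H) →
    |far E (BR v R) z z' ω| ≤ H * NF (E.F : Set (ℤ × ℤ)) v s R ω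

/-- the net of mesh `m` around `z` -/
def net (z : VZ) (m : ℤ) : Finset VZ :=
  (Finset.Icc (-34 : ℤ) 34 ×ˢ Finset.Icc (-34 : ℤ) 34).image fun p => (z.1 + m * p.1, z.2 + m * p.2)

/-- (RowInc) one scale of the local height. `q` is a far reference vertex. -/
def RowInc : Prop := ∀ (E : WEnv) (v : VZ) (d m : ℤ) (z q : VZ) (B B' : Finset (ℤ × ℤ)) (ω : Cfg),
  HasPotQ ZQ E.F → LocF E.F v d → Kap2 E v d → 1 ≤ m → 64 * m ≤ d → IsV E.F z → IsV E.F q → 2 * dd z v ≤ d →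
  dd q v ≤ d → 40 * m < dd q z → BR z (8 * m) ⊆ B → B ⊆ B' → B' ⊆ BR z (32 * m) →
    |cls E B' z q ω - cls E B z q ω| ≤ 2 * ∑ w ∈ net z m, (NF (E.F : Set (ℤ × ℤ)) w m (2 * m) ω : ℝ)

/-- (RowBase) the lowest scale -/
def RowBase : Prop := ∃ C : ℝ, 0 < C ∧ ∀ (E : WEnv) (v : VZ) (d : ℤ) (z q : VZ) (B : Finset (ℤ × ℤ)) (ω : Cfg),
  HasPotQ ZQ E.F → Kap2 E v d → B ⊆ BR z 32 → B ⊆ BR v d → |cls E B z q ω| ≤ C

/-- (RowDec) decoupling of a local function from a weight which is locally natural -/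
def RowDec : Prop := ∀ (E : WEnv) (v z : VZ) (d ρ R : ℤ) (M : ℝ) (f : Cfg → ℝ), 1 ≤ ρ → ρ < R → BR z R ⊆ BR v d →
  NatW E v d → Maj E v d M → Dep ((BR z ρ : Finset (ℤ × ℤ)) : Set (ℤ × ℤ)) f →
    |av E.F (fun ω => f ω * E.W ω) - av E.F f * E.Z| ≤
      2 * av E.F (fun ω => |f ω|) * (M * E.Z) *
        av E.F (fun ω => if 1 ≤ NF (E.F : Set (ℤ × ℤ)) z ρ R ω then 1 else 0)

/-- (RowMean) means of crossing numbers, natural scale ratio, and the decay of one crossing -/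
def RowMean : Prop := ∃ C c : ℝ, 0 < C ∧ 0 < c ∧ c < 1 ∧ ∀ (F : Finset (ℤ × ℤ)) (v : VZ) (r R : ℤ), 1 ≤ r → r < R →
  (2 * r ≤ R → av F (fun ω => (NF (F : Set (ℤ × ℤ)) v r R ω : ℝ)) ≤ C * ((r : ℝ) / R) ^ c) ∧
  av F (fun ω => if 1 ≤ NF (F : Set (ℤ × ℤ)) v r R ω then 1 else 0) ≤ C * ((r : ℝ) / R) ^ c

/-- **Theorem LD1**: the mean height difference of nearby vertices is the mean of the local strands, up to
`C M (s / d) ^ c`. `q` is a far reference vertex. -/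
def LD1 : Prop := ∃ C c : ℝ, 0 < C ∧ 0 < c ∧ ∀ (E : WEnv) (v : VZ) (d s R : ℤ) (M : ℝ) (z z' : VZ), HasPotQ ZQ E.F →
  LocF E.F v d → Kap2 E v d → NatW E v d → Maj E v d M → 0 ≤ M → (∃ q, IsV E.F q ∧ dd q v ≤ d ∧ d ≤ 2 * dd q v) → 1 ≤ s →
  4 * s ≤ R → 64 * R ≤ d → IsV E.F z → IsV E.F z' → dd z v ≤ s → dd z' v ≤ s →
    |av E.F (fun ω => HS E ω z - HS E ω z') - av E.F (cls E (BR v R) z z') * E.Z| ≤
      C * M * E.Z * (((s : ℝ) / R) ^ c + ((R : ℝ) / d) ^ c)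

/-- the local functional is the same for two environments with the same local structure -/
def RowSame : Prop := ∀ (E E' : WEnv) (B : Finset (ℤ × ℤ)) (z z' : VZ) (ω : Cfg), E'.F = E.F →
  (∀ a ∈ bS ZQ E.F, ∀ b ∈ bS ZQ E.F, Ah ZQ B a → Ah ZQ B b → E'.t a b = E.t a b ∧ E'.s a b = E.s a b) →
    cls E' B z z' ω = cls E B z z' ω

/-- the local geometry of a polygon at every point, corners included -/
def RowGeo : Prop := ∀ P : Finset (ℤ × ℤ), MPoly P → ∃ δ : ℝ, 0 < δ ∧ ∀ᶠ n : ℕ in Filter.atTop, ∀ (v : VZ) (d : ℤ),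
  IsV (rf n P) v → (d : ℝ) ≤ δ * n → LocF (rf n P) v d ∧ (1 ≤ d → ∃ q, IsV (rf n P) q ∧ dd q v ≤ d ∧ d ≤ 2 * dd q v)

end

end Pool.Agent.SixB.GG
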