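import Pool.Agent.Lib.SixB.CADomDet
import Pool.Agent.Lib.SixB.S6GDefs

/-!
# 6BD block CA, domination from above: the majorants `Maj` of S6GDefs and of `WallAt`
-/

set_option autoImplicit false
set_option linter.unusedSectionVars false

namespace Pool.Agent.SixB.Dom

open Finset Pool.Agent.Perc Pool.Agent.Perc.Q Pool.Agent.PercD Pool.Agent.PercN Pool.Agent.SixB.Tilt Relation

noncomputable section

variable {E : WEnv} {I J : Finset ℕ} {v : ℕ → VZ} {r R : ℕ → ℤ} {n₀ : ℤ} {PA PB : ℕ → UE → Prop}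
  {τ : ℕ → ℝ} {q : ℝ} {e : DZ}

/-- **The majorant of S6GDefs for a hole `BR z d`.** -/
theorem maj_of {z ve : VZ} {d ρ : ℤ} {M : ℝ} (D : DomAt E I v r R n₀ J PA PB τ q)
    (L : LegAt E e ve ρ) (hs : ∀ a ∈ bS ZQ E.F, ∀ b ∈ bS ZQ E.F, a ≠ b → |E.s a b| ≤ 2)
    (hZ : 0 < E.Z) (hI : ∃ i ∈ I, BR z d ⊆ BR (v i) (r i))
    (hJ : ∀ j ∈ J, Disjoint (BR z d) (BR (v j) (R j)))
    (he : ∀ u : UE, InE z d u → ¬ InE ve ρ u)
    (hM : av E.F (majH E.F I v r R n₀ J PA PB τ q e ve ρ) ≤ M * E.Z) : GG.Maj E z d M := by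
  refine ⟨hZ, ?_⟩
  obtain ⟨i, hi, hiB⟩ := hI
  obtain ⟨H, h1, h2, h3, h4⟩ := exists_maj (B := BR z d) D L hs (fun f _ hf => ⟨i, hi, hiB hf⟩)
    (fun j hj f hf hc => Finset.disjoint_left.mp (hJ j hj) hf hc)
    (fun f hf u hu => he u (inE_of_side (mem_coe.2 hf) hu)) hM
  refine ⟨H, h1, h2, fun ω z' hz' => ?_, h4⟩
  obtain ⟨f, hf, hfs⟩ := und_side hz'
  have hf' := Finset.mem_inter.mp hf
  exact h3 ω z' (dE_mono Finset.inter_subset_left hz') ⟨f, hf'.2, hfs⟩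

/-- the majorant of `WallAt` -/
theorem wall_maj {ve : VZ} {d ρ : ℤ} {M : ℝ} (D : DomAt E I v r R n₀ J PA PB τ q)
    (L : LegAt E e ve ρ) (hs : ∀ a ∈ bS ZQ E.F, ∀ b ∈ bS ZQ E.F, a ≠ b → |E.s a b| ≤ 2)
    (hsub : HB0 d ⊆ E.F) (hI : ∃ i ∈ I, HB0 d ⊆ BR (v i) (r i))
    (hJ : ∀ j ∈ J, Disjoint (HB0 d) (BR (v j) (R j)))
    (he : ∀ f ∈ HB0 d, ∀ u : UE, IsSide f u → ¬ InE ve ρ u)
    (hM : av E.F (majH E.F I v r R n₀ J PA PB τ q e ve ρ) ≤ M * E.Z) :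
    ∃ H : Cfg → ℝ, Dep ((E.F \ HB0 d : Finset (ℤ × ℤ)) : Set (ℤ × ℤ)) H ∧ (∀ ω, |E.W ω| ≤ H ω) ∧
      (∀ ω, ∀ e ∈ dE ZQ (HB0 d), |E.num ω e| ≤ 2 * H ω) ∧ av E.F H ≤ M * E.Z := by
  obtain ⟨i, hi, hiB⟩ := hI
  obtain ⟨H, h1, h2, h3, h4⟩ := exists_maj (B := HB0 d) D L hs (fun f _ hf => ⟨i, hi, hiB hf⟩)
    (fun j hj f hf hc => Finset.disjoint_left.mp (hJ j hj) hf hc) he hM
  exact ⟨H, h1, h2, fun ω z' hz' => h3 ω z' (dE_mono hsub hz') (und_side hz'), h4⟩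

/-- the product without one arc (`prO` of CAePar): no leg indicator -/
theorem abs_erase_le (D : DomAt E I v r R n₀ J PA PB τ q) (ω : Cfg) (p : Sym2 DZ) :
    |∏ p' ∈ (arcs ZQ E.F ω).erase p, E.T p'| ≤ domB E.F I v r R n₀ J PA PB τ q ω := by
  rw [Finset.abs_prod]
  exact dom_sub D ω (Finset.erase_subset _ _)

end

end Pool.Agent.SixB.Dom
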