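import Pool.Agent.Lib.SixB.CADomGeo
import Pool.Agent.Lib.SixB.CADomDefs
import Pool.Agent.Lib.SixB.CADomMaj
import Pool.Agent.Lib.SixB.CAEqui

/-!
# 6BD block CA, upper majorant, part D2: the hypotheses of D1 for `envP`, `envX`

* `Chord G N D₀`: chord-arc condition; `Flt G c D`: the contour is straight within `D` of `c`.
* `hot_pos`: the sides of a hot pair which are near each other lie on the two sides of one of the two marks.
* `domAt_of`: `DomAt` of `CADomDet` for an environment of a contour with the jumps `JHot`.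
* `legAt_of`: `LegAt` of `CADomDet` for `envX`.
* `detP`, `detX`: the propositions `DetP`, `DetX` of `CADomDefs`.
-/

set_option autoImplicit false
set_option linter.unusedSectionVars false

namespace Pool.Agent.SixB.Dom

open Finset Pool.Agent.Perc Pool.Agent.Perc.Q Pool.Agent.PercD Pool.Agent.PercN Pool.Agent.SixB.Tilt Relation
open Ht (tJ dJ)

noncomputable section

variable {F : Finset (ℤ × ℤ)} {N : ℕ} {G : ℤ → VZ} {j : ℤ → ℝ} {D D₀ c c' : ℤ} {τ : ℝ} {a b : DZ}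

/-- chord-arc condition up to the scale `D₀` -/
def Chord (G : ℤ → VZ) (N : ℕ) (D₀ : ℤ) : Prop := ∀ a b D : ℤ, D ≤ D₀ → |(G b).1 - (G a).1| ≤ D →
  |(G b).2 - (G a).2| ≤ D → ∃ q : ℤ, |b - a - q * N| ≤ 2 * D

/-- the contour is straight within `D` of `c` -/
def Flt (G : ℤ → VZ) (c D : ℤ) : Prop := ∃ κ : ZMod 4, ∀ i, -D ≤ i → i ≤ D → G (c + i) = fr κ (G c) i 0

/-- one order of the two sides of a hot pair -/
theorem hot_core (hc : Cont F N G) (hJ : JHot N j D c c' τ) {x y : ℤ} (hxy : x < y) (hD : y - x ≤ D)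
    (hN : y < x + N) (hot : 1 < |(cenv F G N j).t (csd G x) (csd G y)|) :
    ∃ m, (m = c ∨ m = c') ∧ ∃ x' y' : ℤ, x' < m ∧ m ≤ y' ∧ y' - x' = y - x ∧
      (cenv F G N j).t (csd G x) (csd G y) = τ ∧ csd G x = csd G x' ∧ csd G y = csd G y' := by
  have h1 := (cenv_ts (F := F) hc hJ.per hJ.tot hxy hN).1
  rw [h1] at hot ⊢
  obtain ⟨h2, h3⟩ := hJ.hot x y hxy hD hN hot
  rcases h2 with ⟨q, h4, h5⟩ | ⟨q, h4, h5⟩
  · refine ⟨c, Or.inl rfl, x - q * N, y - q * N, by omega, by omega, by ring, h3, ?_, ?_⟩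
    · have := hc.csd_per (x - q * N) q
      rw [sub_add_cancel] at this
      exact this
    · have := hc.csd_per (y - q * N) q
      rw [sub_add_cancel] at this
      exact this
  · refine ⟨c', Or.inr rfl, x - q * N, y - q * N, by omega, by omega, by ring, h3, ?_, ?_⟩
    · have := hc.csd_per (x - q * N) q
      rw [sub_add_cancel] at this
      exact this
    · have := hc.csd_per (y - q * N) q
      rw [sub_add_cancel] at this
      exact this

/-- **the position of a hot pair of sides near each other** -/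
theorem hot_pos (hc : Cont F N G) (hP : MPoly F) (hJ : JHot N j D c c' τ) (hch : Chord G N D₀)
    (h2 : 2 * D₀ ≤ D) (hN : 2 * D₀ < N) (ha : a ∈ bS ZQ F) (hb : b ∈ bS ZQ F) (hab : a ≠ b)
    (hot : 1 < |(cenv F G N j).t a b|) {D' : ℤ} (hD' : D' ≤ D₀) (h3 : |b.1.1 - a.1.1| ≤ D')
    (h4 : |b.1.2 - a.1.2| ≤ D') :
    ∃ m, (m = c ∨ m = c') ∧ ∃ x y : ℤ, x < m ∧ m ≤ y ∧ y - x ≤ 2 * D' ∧ (cenv F G N j).t a b = τ ∧
      ((a = csd G x ∧ b = csd G y) ∨ (b = csd G x ∧ a = csd G y)) := by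
  obtain ⟨i, hi, rfl⟩ := bS_csd hc hP ha 0
  obtain ⟨l, hl, rfl⟩ := bS_csd hc hP hb 0
  rw [zero_add] at hot hab h3 h4 ⊢
  rw [zero_add] at hot hab h3 h4 ⊢
  obtain ⟨q, hq⟩ := hch i l D' hD' h3 h4
  have e1 : csd G l = csd G (l - q * N) := by
    have := hc.csd_per ((l : ℤ) - q * N) q
    rw [sub_add_cancel] at this
    exact this
  set y : ℤ := (l : ℤ) - q * N with hy
  have hq' : |y - i| ≤ 2 * D' := by
    rw [hy]
    have : (l : ℤ) - q * N - i = l - i - q * N := by ring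
    rw [this]
    exact hq
  rw [e1] at hot hab ⊢
  have hyi : y ≠ i := fun h => hab (by rw [h])
  rw [abs_le] at hq'
  rcases lt_or_gt_of_ne hyi with h5 | h5
  · -- `y < i`
    rw [(cenv F G N j).t_symm] at hot
    obtain ⟨m, hm, x', y', h6, h7, h8, h9, h10, h11⟩ := hot_core hc hJ h5 (by omega) (by omega) hot
    refine ⟨m, hm, x', y', h6, h7, by omega, ?_, Or.inr ⟨h10, h11⟩⟩
    rw [(cenv F G N j).t_symm]
    exact h9
  · obtain ⟨m, hm, x', y', h6, h7, h8, h9, h10, h11⟩ := hot_core hc hJ h5 (by omega) (by omega) hot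
    exact ⟨m, hm, x', y', h6, h7, by omega, h9, Or.inl ⟨h10, h11⟩⟩

/-! ### Boxes -/

/-- closed box -/
def Bx (v : VZ) (R : ℤ) (z : VZ) : Prop :=
  v.1 - R ≤ z.1 ∧ z.1 ≤ v.1 + R ∧ v.2 - R ≤ z.2 ∧ z.2 ≤ v.2 + R

theorem inE_und {v : VZ} {R : ℤ} (ha : a ∈ dE ZQ F) : InE v R (und a) ↔ Bx v R a.1 ∧ Bx v R a.2 := by
  unfold InE InR Bx
  rcases joins_und ha with ⟨h1, h2⟩ | ⟨h1, h2⟩
  · rw [h1, h2]
  · rw [h1, h2]
    exact and_comm

theorem bS_dE (ha : a ∈ bS ZQ F) : a ∈ dE ZQ F := (mem_bS.mp ha).1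

theorem bx_dist {v z z' : VZ} {R : ℤ} (h : Bx v R z) (h' : Bx v R z') :
    |z'.1 - z.1| ≤ 2 * R ∧ |z'.2 - z.2| ≤ 2 * R := by
  unfold Bx at h h'
  rw [abs_le, abs_le]
  omega

/-- a box which contains two points of a straight line contains the points between them -/
theorem bx_conv {w v : VZ} {R : ℤ} {κ : ZMod 4} {x y : ℤ} (hx : x ≤ 0) (hy : 0 ≤ y)
    (h1 : Bx w R (fr κ v x 0)) (h2 : Bx w R (fr κ v y 0)) : Bx w R v := by
  unfold Bx at h1 h2 ⊢
  rcases k4 κ with rfl | rfl | rfl | rfl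
  · rw [fr_0] at h1 h2; simp only at h1 h2; omega
  · rw [fr_1] at h1 h2; simp only at h1 h2; omega
  · rw [fr_2] at h1 h2; simp only at h1 h2; omega
  · rw [fr_3] at h1 h2; simp only at h1 h2; omega

theorem bx_line {v : VZ} {R : ℤ} {κ : ZMod 4} {x : ℤ} : Bx v R (fr κ v x 0) ↔ -R ≤ x ∧ x ≤ R := by
  unfold Bx
  rcases k4 κ with rfl | rfl | rfl | rfl
  · rw [fr_0]; simp only; omega
  · rw [fr_1]; simp only; omega
  · rw [fr_2]; simp only; omega
  · rw [fr_3]; simp only; omega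

theorem sep_mono {m m' : ℤ} {u w : UE} (h : m' ≤ m) (hs : Sep m u w) : Sep m' u w := by
  unfold Sep at hs ⊢
  omega

theorem sep_symm {m : ℤ} {u w : UE} (hs : Sep m u w) : Sep m w u := by
  unfold Sep at hs ⊢
  omega

/-- the generic hypotheses on the boxes: `0`, `1` = the marks, the other boxes do not contain the marks -/
structure Boxes (G : ℤ → VZ) (c c' : ℤ) (r n₀ : ℤ) (I : Finset ℕ) (v : ℕ → VZ) (rr RR : ℕ → ℤ) :
    Prop where
  hn : 0 < n₀
  hr8 : 8 * n₀ ≤ r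
  I0 : 0 ∈ I
  I1 : 1 ∈ I
  v0 : v 0 = G c
  v1 : v 1 = G c'
  r0 : rr 0 = r / 2
  r1 : rr 1 = r / 2
  R0 : RR 0 = r
  R1 : RR 1 = r
  far : ¬ Bx (G c) r (G c')
  oth : ∀ i ∈ I, i ≠ 0 → i ≠ 1 → 0 ≤ rr i ∧ rr i + 2 * n₀ ≤ RR i ∧ RR i ≤ 2 * r ∧
    ¬ Bx (v i) (RR i) (G c) ∧ ¬ Bx (v i) (RR i) (G c')
  disj : ∀ i ∈ I, ∀ j ∈ I, i ≠ j → Disjoint (BR (v i) (RR i)) (BR (v j) (rr j))

variable {r n₀ : ℤ} {I : Finset ℕ} {v : ℕ → VZ} {rr RR : ℕ → ℤ} {PA PB : ℕ → UE → Prop}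

theorem bx_comm {z w : VZ} {R : ℤ} (h : Bx z R w) : Bx w R z := by
  unfold Bx at h ⊢
  omega

/-- the unit edges of a straight piece of the contour -/
theorem und_line {κ : ZMod 4} {m D x : ℤ} (h : ∀ i, -D ≤ i → i ≤ D → G (m + i) = fr κ (G m) i 0)
    (h1 : m - D ≤ x) (h2 : x < m + D) : und (csd G x) = DomMk.wE κ (G m) (x - m) ∧
      G x = fr κ (G m) (x - m) 0 ∧ G (x + 1) = fr κ (G m) (x - m + 1) 0 := by
  have e1 := h (x - m) (by omega) (by omega)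
  have e2 := h (x - m + 1) (by omega) (by omega)
  rw [show m + (x - m) = x by ring] at e1
  rw [show m + (x - m + 1) = x + 1 by ring] at e2
  unfold csd DomMk.wE
  rw [e1, e2]
  exact ⟨rfl, rfl, rfl⟩

/-- **`DomAt` for the environment of a contour** -/
theorem domAt_of (hc : Cont F N G) (hP : MPoly F) (hJ : JHot N j (8 * r) c c' τ)
    (hch : Chord G N (4 * r)) (hN : 8 * r < N) (hf : Flt G c (8 * r + 1)) (hf' : Flt G c' (8 * r + 1))
    (hB : Boxes G c c' r n₀ I v rr RR) (hτ : 1 ≤ τ)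
    (hA0 : ∀ x, c - r ≤ x → x < c → PA 0 (und (csd G x)))
    (hB0 : ∀ x, c ≤ x → x < c + r → PB 0 (und (csd G x)))
    (hA1 : ∀ x, c' - r ≤ x → x < c' → PA 1 (und (csd G x)))
    (hB1 : ∀ x, c' ≤ x → x < c' + r → PB 1 (und (csd G x))) :
    DomAt (cenv F G N j) I v rr RR n₀ {0, 1} PA PB (fun _ => τ) (2 / Real.sqrt 3) := by
  have hn := hB.hn
  have hr8 := hB.hr8
  have hd2 : n₀ * 2 ≤ r / 2 := by omega
  have flat : ∀ m, (m = c ∨ m = c') → Flt G m (8 * r + 1) := by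
    rintro m (rfl | rfl)
    · exact hf
    · exact hf'
  refine ⟨hn, ?_, ?_, hB.disj, fun _ _ => hτ, ?_, ?_, ?_, ?_⟩
  · intro i hi
    by_cases h0 : i = 0
    · rw [h0, hB.r0]; omega
    by_cases h1 : i = 1
    · rw [h1, hB.r1]; omega
    exact (hB.oth i hi h0 h1).1
  · intro i hi
    by_cases h0 : i = 0
    · rw [h0, hB.r0, hB.R0]; omega
    by_cases h1 : i = 1
    · rw [h1, hB.r1, hB.R1]; omega
    exact (hB.oth i hi h0 h1).2.1
  · rw [le_div_iff₀ (by positivity), one_mul]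
    rw [show (2 : ℝ) = Real.sqrt 4 by
      rw [show (4 : ℝ) = 2 ^ 2 by norm_num, Real.sqrt_sq (by norm_num)]]
    exact Real.sqrt_le_sqrt (by norm_num)
  · intro a ha b hb hab
    exact abs_tJ_le _
  · -- h2
    intro a ha b hb hab hot hoa hob
    by_contra hns
    have hd : |b.1.1 - a.1.1| ≤ 2 * n₀ + 1 ∧ |b.1.2 - a.1.2| ≤ 2 * n₀ + 1 := by
      constructor
      · by_contra h
        refine hns (sep_of_dist (bS_dE ha) (bS_dE hb) (Or.inl ?_))
        rw [abs_sub_comm]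
        omega
      · by_contra h
        refine hns (sep_of_dist (bS_dE ha) (bS_dE hb) (Or.inr ?_))
        rw [abs_sub_comm]
        omega
    obtain ⟨m, hm, x, y, h1, h2, h3, -, h4⟩ := hot_pos hc hP hJ hch (by omega) (by omega) ha hb hab hot
      (D' := 2 * n₀ + 1) (by omega) hd.1 hd.2
    obtain ⟨κ, hκ⟩ := flat m hm
    obtain ⟨u1, u2, u3⟩ := und_line (x := x) hκ (by omega) (by omega)
    obtain ⟨w1, w2, w3⟩ := und_line (x := y) hκ (by omega) (by omega)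
    have key : ∀ u w : DZ, u = csd G x → w = csd G y → (∀ i ∈ I, ¬ InE (v i) (rr i) (und u)) →
        (∀ i ∈ I, ¬ InE (v i) (rr i) (und w)) → Sep (2 * n₀) (und u) (und w) := by
      rintro u w rfl rfl hu hw
      obtain ⟨i, hi, e1, e2⟩ : ∃ i ∈ I, v i = G m ∧ rr i = r / 2 := by
        rcases hm with rfl | rfl
        · exact ⟨0, hB.I0, hB.v0, hB.r0⟩
        · exact ⟨1, hB.I1, hB.v1, hB.r1⟩
      have hu' := hu i hi
      have hw' := hw i hi
      rw [inE_und (bS_dE (hc.csd_mem_bS x)), e1, e2] at hu'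
      rw [inE_und (bS_dE (hc.csd_mem_bS y)), e1, e2] at hw'
      have hu2 : ¬ (Bx (G m) (r / 2) (G x) ∧ Bx (G m) (r / 2) (G (x + 1))) := hu'
      have hw2 : ¬ (Bx (G m) (r / 2) (G y) ∧ Bx (G m) (r / 2) (G (y + 1))) := hw'
      rw [u2, u3, bx_line, bx_line] at hu2
      rw [w2, w3, bx_line, bx_line] at hw2
      rw [u1, w1]
      exact sep_mono (by omega) (DomMk.sep_wE (s := r / 2) (by omega) (by omega) (by omega))
    rcases h4 with ⟨h5, h6⟩ | ⟨h5, h6⟩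
    · exact hns (key a b h5 h6 hoa hob)
    · exact hns (sep_symm (key b a h5 h6 hob hoa))
  · -- h3
    intro a ha b hb hab hot i hi hia hib
    have hRi : RR i ≤ 2 * r := by
      by_cases h0 : i = 0
      · rw [h0, hB.R0]; omega
      by_cases h1 : i = 1
      · rw [h1, hB.R1]; omega
      exact (hB.oth i hi h0 h1).2.2.1
    rw [inE_und (bS_dE ha)] at hia
    rw [inE_und (bS_dE hb)] at hib
    have hd := bx_dist hia.1 hib.1
    obtain ⟨m, hm, x, y, h1, h2, h3, ht, h4⟩ := hot_pos hc hP hJ hch (by omega) (by omega) ha hb hab hot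
      (D' := 2 * RR i) (by omega) hd.1 hd.2
    obtain ⟨κ, hκ⟩ := flat m hm
    obtain ⟨u1, u2, u3⟩ := und_line (x := x) hκ (by omega) (by omega)
    obtain ⟨w1, w2, w3⟩ := und_line (x := y) hκ (by omega) (by omega)
    have key : ∀ u w : DZ, u = csd G x → w = csd G y → (Bx (v i) (RR i) u.1 ∧ Bx (v i) (RR i) u.2) →
        (Bx (v i) (RR i) w.1 ∧ Bx (v i) (RR i) w.2) → i ∈ ({0, 1} : Finset ℕ) ∧
          (PA i (und u) ∧ PB i (und w)) := by
      rintro u w rfl rfl ⟨hu1, hu2⟩ ⟨hw1, hw2⟩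
      replace hu1 : Bx (v i) (RR i) (G x) := hu1
      replace hw1 : Bx (v i) (RR i) (G y) := hw1
      replace hw2 : Bx (v i) (RR i) (G (y + 1)) := hw2
      have hmid : Bx (v i) (RR i) (G m) := by
        rw [u2] at hu1
        rw [w2] at hw1
        exact bx_conv (by omega) (by omega) hu1 hw1
      by_cases h0 : i = 0
      · subst h0
        rw [hB.v0, hB.R0] at hmid hu1 hw2
        rcases hm with rfl | rfl
        · rw [u2, bx_line] at hu1
          rw [w3, bx_line] at hw2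
          exact ⟨by simp, hA0 x (by omega) h1, hB0 y h2 (by omega)⟩
        · exact absurd hmid hB.far
      by_cases h1' : i = 1
      · subst h1'
        rw [hB.v1, hB.R1] at hmid hu1 hw2
        rcases hm with rfl | rfl
        · exact absurd (bx_comm hmid) hB.far
        · rw [u2, bx_line] at hu1
          rw [w3, bx_line] at hw2
          exact ⟨by simp, hA1 x (by omega) h1, hB1 y h2 (by omega)⟩
      · exfalso
        obtain ⟨-, -, -, h5, h6⟩ := hB.oth i hi h0 h1'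
        rcases hm with rfl | rfl
        · exact h5 hmid
        · exact h6 hmid
    have hτ0 : 0 ≤ τ := zero_le_one.trans hτ
    rcases h4 with ⟨h5, h6⟩ | ⟨h5, h6⟩
    · obtain ⟨h7, h8⟩ := key a b h5 h6 hia hib
      exact ⟨h7, by rw [ht, abs_of_nonneg hτ0], Or.inl h8⟩
    · obtain ⟨h7, h8⟩ := key b a h5 h6 hib hia
      exact ⟨h7, by rw [ht, abs_of_nonneg hτ0], Or.inr h8⟩

theorem bx_self_succ (hc : Cont F N G) {k R : ℤ} (hR : 1 ≤ R) :
    Bx (G k) R (G k) ∧ Bx (G k) R (G (k + 1)) := by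
  have := (hc.side k).step
  unfold Bx
  omega

/-- **`LegAt` for the full environment** -/
theorem legAt_of (hc : Cont F N G) (hP : MPoly F) (hch : Chord G N (4 * r)) (hN : 8 * r < N)
    {i j j' l k : ℤ} (hG : Gap N (8 * r) i j j' l k) (hr : 1 ≤ r) (α : ℝ) :
    LegAt (cenv F G N (jX N α i j j' l k)) (csd G k) (G k) r := by
  refine ⟨hc.csd_mem_bS k, ?_, ?_⟩
  · rw [inE_und (F := F) (bS_dE (hc.csd_mem_bS k))]
    exact bx_self_succ hc hr
  · intro b hb hbe ht hin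
    apply ht
    rw [inE_und (F := F) (bS_dE hb)] at hin
    obtain ⟨y0, hy0, rfl⟩ := bS_csd hc hP hb 0
    rw [zero_add] at ht hin hbe ⊢
    have hin1 : Bx (G k) r (G y0) := hin.1
    unfold Bx at hin1
    obtain ⟨q, hq⟩ := hch k y0 r (by omega) (by rw [abs_le]; omega) (by rw [abs_le]; omega)
    have e1 : csd G y0 = csd G (y0 - q * N) := by
      have := hc.csd_per ((y0 : ℤ) - q * N) q
      rw [sub_add_cancel] at this
      exact this
    set y : ℤ := (y0 : ℤ) - q * N with hy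
    have hq' : |y - k| ≤ 2 * r := by
      rw [hy]
      have : (y0 : ℤ) - q * N - k = y0 - k - q * N := by ring
      rw [this]
      exact hq
    rw [e1] at hbe ⊢
    have hyk : y ≠ k := fun h => hbe (by rw [h])
    have hM : 0 < N := hc.pos
    rw [abs_le] at hq'
    rcases lt_or_gt_of_ne hyk with h5 | h5
    · rw [(cenv F G N _).t_symm, (cenv_ts (F := F) hc (jX_per N α i j j' l k)
        (csum_jX hM α i j j' l k) h5 (by omega)).1]
      exact jX_near_e' hG hM α h5 (by omega)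
    · rw [(cenv_ts (F := F) hc (jX_per N α i j j' l k)
        (csum_jX hM α i j j' l k) h5 (by omega)).1]
      exact jX_near_e hG hM α h5 (by omega)

/-! ### The boxes -/

/-- the centres -/
def vv (z0 z1 z2 z3 : VZ) : ℕ → VZ
  | 0 => z0
  | 1 => z1
  | 2 => z2
  | _ => z3

/-- radii of the holes -/
def rrf (r : ℤ) : ℕ → ℤ
  | 0 => r / 2
  | 1 => r / 2
  | _ => r

/-- radii of the outer boxes -/
def RRf (r : ℤ) : ℕ → ℤ
  | 0 => r
  | 1 => r
  | _ => 2 * r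

theorem rrf_le {r : ℤ} (hr : 0 ≤ r) (i : ℕ) : rrf r i ≤ r := by
  match i with
  | 0 => show r / 2 ≤ r; omega
  | 1 => show r / 2 ≤ r; omega
  | _ + 2 => exact le_rfl

theorem RRf_le {r : ℤ} (hr : 0 ≤ r) (i : ℕ) : RRf r i ≤ 2 * r := by
  match i with
  | 0 => show r ≤ 2 * r; omega
  | 1 => show r ≤ 2 * r; omega
  | _ + 2 => exact le_rfl

theorem disj_BR {v w : VZ} {R R' : ℤ} (h : R + R' ≤ GG.dd v w) : Disjoint (BR v R) (BR w R') := by
  rw [Finset.disjoint_left]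
  intro f h1 h2
  rw [mem_BR] at h1 h2
  unfold GG.dd at h
  rcases le_max_iff.mp h with h3 | h3
  · rcases abs_cases (v.1 - w.1) with h4 | h4 <;> omega
  · rcases abs_cases (v.2 - w.2) with h4 | h4 <;> omega

theorem not_bx {v w : VZ} {R : ℤ} (h : R < GG.dd v w) : ¬ Bx v R w := by
  intro h1
  unfold Bx at h1
  unfold GG.dd at h
  rcases lt_max_iff.mp h with h3 | h3
  · rcases abs_cases (v.1 - w.1) with h4 | h4 <;> omega
  · rcases abs_cases (v.2 - w.2) with h4 | h4 <;> omega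

theorem boxes_of {z2 z3 : VZ} (hn : 0 < n₀) (hr8 : 8 * n₀ ≤ r) (h0 : 0 ∈ I) (h1 : 1 ∈ I)
    (hd : ∀ i ∈ I, ∀ j ∈ I, i ≠ j →
      4 * r ≤ GG.dd (vv (G c) (G c') z2 z3 i) (vv (G c) (G c') z2 z3 j)) :
    Boxes G c c' r n₀ I (vv (G c) (G c') z2 z3) (rrf r) (RRf r) where
  hn := hn
  hr8 := hr8
  I0 := h0
  I1 := h1
  v0 := rfl
  v1 := rfl
  r0 := rfl
  r1 := rfl
  R0 := rfl
  R1 := rfl
  far := not_bx (by have := hd 0 h0 1 h1 (by norm_num); simp only [vv] at this; omega)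
  oth := by
    intro i hi hi0 hi1
    match i, hi, hi0, hi1 with
    | i + 2, hi, _, _ =>
      have e0 := hd (i + 2) hi 0 h0 (by omega)
      have e1 := hd (i + 2) hi 1 h1 (by omega)
      refine ⟨?_, ?_, le_rfl, ?_, ?_⟩
      · show 0 ≤ r; omega
      · show r + 2 * n₀ ≤ 2 * r; omega
      · exact not_bx (by
          change 2 * r < _
          change 4 * r ≤ GG.dd _ (G c) at e0
          omega)
      · exact not_bx (by
          change 2 * r < _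
          change 4 * r ≤ GG.dd _ (G c') at e1
          omega)
  disj := by
    intro i hi j hj hij
    refine disj_BR ?_
    have e := hd i hi j hj hij
    have e1 := RRf_le (r := r) (by omega) i
    have e2 := rrf_le (r := r) (by omega) j
    omega

/-! ### Windows and filters -/

theorem rf_window (P : Finset (ℤ × ℤ)) : ∃ A : ℕ, ∀ n : ℕ, 0 < n → ∀ (N : ℤ) (M : ℕ),
    (A : ℤ) * n ≤ N * M → ∃ x₀ y₀ : ℤ, rf n P ⊆ RF x₀ (x₀ + N * M) y₀ (y₀ + N * M) := by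
  obtain ⟨B, hB⟩ : ∃ B : ℕ, ∀ p ∈ P, |p.1| ≤ B ∧ |p.2| ≤ B := by
    refine ⟨∑ p ∈ P, (p.1.natAbs + p.2.natAbs), fun p hp => ?_⟩
    have h1 : p.1.natAbs + p.2.natAbs ≤ ∑ p ∈ P, (p.1.natAbs + p.2.natAbs) :=
      Finset.single_le_sum (f := fun p : ℤ × ℤ => p.1.natAbs + p.2.natAbs) (fun _ _ => Nat.zero_le _) hp
    rw [Int.abs_eq_natAbs, Int.abs_eq_natAbs]
    constructor <;> exact_mod_cast (by omega)
  refine ⟨2 * B + 1, fun n hn N M h => ⟨-(B * n), -(B * n), fun f hf => ?_⟩⟩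
  rw [CARf.mem_rf hn] at hf
  obtain ⟨h1, h2⟩ := hB _ hf
  simp only at h1 h2
  have hn0 : (0 : ℤ) < n := by exact_mod_cast hn
  rw [abs_le] at h1 h2
  have key : ∀ x : ℤ, -(B : ℤ) ≤ x / n → x / n ≤ B → -(B * n) ≤ x ∧ x < -(B * n) + N * M := by
    intro x h3 h4
    rw [Int.le_ediv_iff_mul_le hn0] at h3
    have h5 := Int.lt_ediv_add_one_mul_self x hn0
    have h6 : (x / (n : ℤ) + 1) * n ≤ (B + 1) * n := mul_le_mul_of_nonneg_right (by omega) hn0.le
    push_cast at h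
    constructor
    · linarith
    · nlinarith
  rw [mem_RF]
  obtain ⟨h3, h4⟩ := key f.1 h1.1 h1.2
  obtain ⟨h5, h6⟩ := key f.2 h2.1 h2.2
  exact ⟨h3, h4, h5, h6⟩

open Filter Topology in
theorem eventually_lk {ξ δ : ℝ} (hδ : 0 < δ) {n₁ : ℕ} {Q : ℕ × ℤ → Prop}
    (h : ∀ (n : ℕ) (k : ℤ), n₁ ≤ n → |(k : ℝ) / n - ξ| < δ → Q (n, k)) : ∀ᶠ p in lk ξ, Q p := by
  unfold lk
  have h1 : ∀ᶠ p : ℕ × ℤ in comap (fun p : ℕ × ℤ => p.1) atTop, n₁ ≤ p.1 :=
    (eventually_ge_atTop n₁).comap _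
  have h2 : ∀ᶠ p : ℕ × ℤ in comap (fun p : ℕ × ℤ => (p.2 : ℝ) / p.1) (𝓝 ξ),
      |(p.2 : ℝ) / p.1 - ξ| < δ := by
    have h3 : ∀ᶠ x in 𝓝 ξ, |x - ξ| < δ := by
      have := Metric.ball_mem_nhds ξ hδ
      filter_upwards [this] with x hx
      rwa [Metric.mem_ball, Real.dist_eq] at hx
    exact h3.comap _
  filter_upwards [h1.filter_mono inf_le_left, h2.filter_mono inf_le_right] with p h3 h4
  exact h p.1 p.2 h3 h4

theorem ix_bd (n : ℕ) (t : ℝ) : (ix n t : ℝ) ≤ n * t ∧ n * t < ix n t + 1 :=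
  ⟨Int.floor_le _, Int.lt_floor_add_one _⟩

theorem ix_near {n : ℕ} {t δ : ℝ} (hn : 0 < n) (h : 1 < δ * n) : |(ix n t : ℝ) / n - t| < δ := by
  have hn0 : (0 : ℝ) < n := by exact_mod_cast hn
  obtain ⟨h1, h2⟩ := ix_bd n t
  rw [abs_lt]
  constructor
  · rw [lt_sub_iff_add_lt, lt_div_iff₀ hn0]
    nlinarith
  · rw [sub_lt_iff_lt_add, div_lt_iff₀ hn0]
    nlinarith

/-! ### The two propositions -/

open DomX DomMk

variable {P : Finset (ℤ × ℤ)} {L n : ℕ} {g : ℤ → ℤ × ℤ}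

/-- walls before the marks -/
def PAf (n : ℕ) (g : ℤ → ℤ × ℤ) (c c' r : ℤ) : ℕ → UE → Prop
  | 0 => MA n g c r
  | _ => MA n g c' r

/-- walls after the marks -/
def PBf (n : ℕ) (g : ℤ → ℤ × ℤ) (c c' r : ℤ) : ℕ → UE → Prop
  | 0 => MB n g c r
  | _ => MB n g c' r

theorem fin_core (hc : Cont (rf n P) N (gr n g)) (hMP : MPoly (rf n P)) {jj : ℤ → ℝ} {α : ℝ}
    (h0 : 0 ≤ α) (h1 : α ≤ 1) (hJ : JHot N jj (8 * r) c c' (tJ (α * (Real.pi / 3))))
    (hch : Chord (gr n g) N (4 * r)) (hN : 8 * r < N) (hf : Flt (gr n g) c (8 * r + 1))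
    (hf' : Flt (gr n g) c' (8 * r + 1)) {z2 z3 : VZ}
    (hB : Boxes (gr n g) c c' r n₀ I (vv (gr n g c) (gr n g c') z2 z3) (rrf r) (RRf r)) (ω : Cfg)
    {X : Finset (Sym2 DZ)} :
    |∏ q ∈ arcs ZQ (rf n P) ω \ X, (cenv (rf n P) (gr n g) N jj).T q| ≤
      hPr P g n c c' r α (KO (outF (rf n P) I (vv (gr n g c) (gr n g c') z2 z3) (rrf r)) n₀) ω := by
  have D := domAt_of (PA := PAf n g c c' r) (PB := PBf n g c c' r) hc hMP hJ hch hN hf hf' hB
    (one_le_tJ h0 h1) (fun x hx hx' => ⟨x, hx, hx', rfl⟩) (fun x hx hx' => ⟨x, hx, hx', rfl⟩)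
    (fun x hx hx' => ⟨x, hx, hx', rfl⟩) (fun x hx hx' => ⟨x, hx, hx', rfl⟩)
  have h2 := dom_sub D ω (A := arcs ZQ (rf n P) ω \ X) Finset.sdiff_subset
  rw [Finset.abs_prod]
  refine h2.trans ?_
  unfold domB hPr NM tau qq
  rw [Finset.prod_pair (by norm_num)]
  have hq : (1 : ℝ) ≤ 2 / Real.sqrt 3 := D.q1
  have hτ := one_le_tJ h0 h1
  have hτ0 : 0 ≤ tJ (α * (Real.pi / 3)) := zero_le_one.trans hτ
  show _ * _ * _ ≤ _ * _ * _
  refine mul_le_mul_of_nonneg_left (pow_le_pow_right₀ hq (Nat.le_succ _)) ?_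
  exact mul_nonneg (pow_nonneg hτ0 _) (pow_nonneg hτ0 _)

theorem kok_of {B : Finset (ℤ × ℤ)} {M : ℕ} (hn : 0 < n₀)
    (hB : ∀ f ∈ B, ∃ i ∈ I, f ∈ BR (v i) (rr i))
    (hw : ∃ x₀ y₀ : ℤ, F ⊆ RF x₀ (x₀ + n₀ * M) y₀ (y₀ + n₀ * M)) :
    KOk F B n₀ M (KO (outF F I v rr) n₀) := by
  refine ⟨?_, ?_⟩
  · intro ω ω' h
    refine depN_KO (outF F I v rr) n₀ ω ω' fun f hf => h f ?_
    rw [mem_coe, mem_outF] at hf
    rw [mem_coe, Finset.mem_sdiff]
    refine ⟨hf.1, fun hfB => ?_⟩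
    obtain ⟨i, hi, h2⟩ := hB f hfB
    exact hf.2 i hi h2
  · obtain ⟨x₀, y₀, h⟩ := hw
    refine ⟨x₀, y₀, h, fun ω => KO_le_KB hn (fun f hf => h (mem_outF.mp hf).1) ω⟩

theorem chord_gr (h : Cont P L g) (hn : 0 < n) (hD : D₀ < n) : Chord (gr n g) (n * L) D₀ := by
  intro a b D hD' h1 h2
  obtain ⟨q, hq⟩ := gr_chord h hn (by omega : D < n) h1 h2
  refine ⟨q, ?_⟩
  push_cast
  exact hq

theorem dd_comm (v w : VZ) : GG.dd v w = GG.dd w v := by
  unfold GG.dd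
  rw [abs_sub_comm, abs_sub_comm v.2]

theorem gr_dd (h : Cont P L g) (hn : 0 < n) {a b R : ℤ} (hR : R ≤ n)
    (h1 : 2 * R ≤ b - a) (h2 : 2 * R ≤ a + n * L - b) : R ≤ GG.dd (gr n g a) (gr n g b) := by
  unfold GG.dd
  exact le_max_iff.mpr (gr_sep h hn hR h1 h2)

/-- the facts about one scale -/
structure Scl (P : Finset (ℤ × ℤ)) (L : ℕ) (g : ℤ → ℤ × ℤ) (n : ℕ) (c c' r : ℤ) (M : ℕ) : Prop where
  hn : 0 < n
  hr : 16 ≤ r
  hrn : 8 * r < n
  f : Flt (gr n g) c (8 * r + 1)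
  f' : Flt (gr n g) c' (8 * r + 1)
  w : ∃ x₀ y₀ : ℤ, rf n P ⊆ RF x₀ (x₀ + (r / 8) * M) y₀ (y₀ + (r / 8) * M)

theorem scl_near (h : Cont P L g) {t t' : ℝ} (ht : Fl g t) (ht' : Fl g t') {γ : ℝ} (hγ : 0 < γ) :
    ∃ ρ₀ : ℝ, 0 < ρ₀ ∧ ∀ ρ : ℝ, 0 < ρ → ρ ≤ ρ₀ → ∃ M : ℕ, ∃ n₁ : ℕ, ∀ n : ℕ, n₁ ≤ n →
      Scl P L g n (ix n t) (ix n t') ⌊ρ * n⌋ M ∧ 8 * (⌊ρ * n⌋ : ℝ) ≤ γ / 8 * n ∧ 16 ≤ γ * n := by
  obtain ⟨κ, δ, hδ, H⟩ := flat_near h ht
  obtain ⟨κ', δ', hδ', H'⟩ := flat_near h ht'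
  obtain ⟨A, hA⟩ := rf_window P
  set ρ₀ := min (min (δ / 18) (δ' / 18)) (min (γ / 64) (1 / 16)) with hρ₀
  have hρ₀0 : 0 < ρ₀ := by
    rw [hρ₀]
    exact lt_min (lt_min (by positivity) (by positivity)) (lt_min (by positivity) (by norm_num))
  refine ⟨ρ₀, hρ₀0, fun ρ hρ hρρ => ?_⟩
  have hρ1 : ρ ≤ δ / 18 := hρρ.trans ((min_le_left _ _).trans (min_le_left _ _))
  have hρ2 : ρ ≤ δ' / 18 := hρρ.trans ((min_le_left _ _).trans (min_le_right _ _))
  have hρ3 : ρ ≤ γ / 64 := hρρ.trans ((min_le_right _ _).trans (min_le_left _ _))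
  have hρ4 : ρ ≤ 1 / 16 := hρρ.trans ((min_le_right _ _).trans (min_le_right _ _))
  obtain ⟨M, hM⟩ := exists_nat_ge (16 * A / ρ)
  obtain ⟨n₁, hn₁⟩ := exists_nat_ge (64 / ρ)
  refine ⟨M, n₁, fun n hn => ?_⟩
  have hnr : 64 ≤ ρ * n := by
    have h1 : 64 / ρ ≤ n := hn₁.trans (by exact_mod_cast hn)
    rw [div_le_iff₀ hρ] at h1
    linarith
  have hn0 : (0 : ℝ) < n := by
    by_contra hc
    have : (n : ℝ) ≤ 0 := not_lt.mp hc
    nlinarith
  have hn0' : 0 < n := by exact_mod_cast hn0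
  obtain ⟨r, hr⟩ : ∃ r : ℤ, r = ⌊ρ * n⌋ := ⟨_, rfl⟩
  rw [← hr]
  have hr1 : (r : ℝ) ≤ ρ * n := by rw [hr]; exact Int.floor_le _
  have hr2 : ρ * n < r + 1 := by rw [hr]; exact Int.lt_floor_add_one _
  have hr63 : (63 : ℝ) < r := by linarith
  have hr63' : 63 < r := by exact_mod_cast hr63
  have e1 : δ * n ≥ 18 * (ρ * n) := by nlinarith
  have e2 : δ' * n ≥ 18 * (ρ * n) := by nlinarith
  have e3 : γ * n ≥ 64 * (ρ * n) := by nlinarith
  have e4 : (n : ℝ) ≥ 16 * (ρ * n) := by nlinarith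
  have k1 := ix_near (t := t) hn0' (by linarith : 1 < δ * n)
  have k2 := ix_near (t := t') hn0' (by linarith : 1 < δ' * n)
  refine ⟨⟨hn0', by omega, ?_, ⟨κ, ?_⟩, ⟨κ', ?_⟩, ?_⟩, by linarith, by linarith⟩
  · have : (8 * r : ℝ) < n := by linarith
    exact_mod_cast this
  · exact (H n hn0' _ k1 (8 * r + 1) (by omega) (by push_cast; linarith)).2
  · exact (H' n hn0' _ k2 (8 * r + 1) (by omega) (by push_cast; linarith)).2
  · apply hA n hn0'
    have h5 : ρ * n / 16 ≤ ((r / 8 : ℤ) : ℝ) := by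
      have h6 : r < 8 * (r / 8) + 8 := by omega
      have h7 : (r : ℝ) < 8 * ((r / 8 : ℤ) : ℝ) + 8 := by exact_mod_cast h6
      linarith
    have h8 : 16 * A ≤ M * ρ := by
      rw [div_le_iff₀ hρ] at hM
      exact hM
    have h9 : (A : ℝ) * n ≤ ((r / 8 : ℤ) : ℝ) * M := by
      have hM0 : (0 : ℝ) ≤ M := Nat.cast_nonneg M
      have h10 : ρ * n / 16 * M ≤ ((r / 8 : ℤ) : ℝ) * M := mul_le_mul_of_nonneg_right h5 hM0
      have h11 : 16 * (A : ℝ) * n ≤ M * ρ * n := mul_le_mul_of_nonneg_right h8 hn0.le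
      nlinarith
    exact_mod_cast h9

/-- **Deterministic domination, two marks** -/
theorem detP : DetP := by
  intro P L g hP hc t₂ t₂' h1 h2 f2 f2'
  set γ := min (t₂' - t₂) (t₂ + L - t₂') with hγ
  have hγ0 : 0 < γ := lt_min (by linarith) (by linarith)
  have g1 : γ ≤ t₂' - t₂ := min_le_left _ _
  have g2 : γ ≤ t₂ + L - t₂' := min_le_right _ _
  obtain ⟨ρ₀, hρ₀, H⟩ := scl_near (P := P) hc f2 f2' hγ0
  refine ⟨ρ₀, hρ₀, fun ρ hρ hρρ => ?_⟩
  obtain ⟨M, n₁, H⟩ := H ρ hρ hρρ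
  refine ⟨M, ?_⟩
  filter_upwards [Filter.eventually_ge_atTop n₁] with n hn
  intro α hα z s hs hz hz'
  obtain ⟨S, b1, b2⟩ := H n hn
  obtain ⟨r, hr⟩ : ∃ r : ℤ, r = ⌊ρ * n⌋ := ⟨_, rfl⟩
  rw [← hr] at S b1 hs hz hz' ⊢
  obtain ⟨c, hcc⟩ : ∃ c, c = ix n t₂ := ⟨_, rfl⟩
  obtain ⟨c', hcc'⟩ : ∃ c, c = ix n t₂' := ⟨_, rfl⟩
  have i1 := ix_bd n t₂
  have i2 := ix_bd n t₂'
  rw [← hcc] at S hz i1 ⊢
  rw [← hcc'] at S hz' i2 ⊢
  have hn0 : (0 : ℝ) < n := by exact_mod_cast S.hn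
  have hr16 := S.hr
  have a1 : c + 8 * r ≤ c' := by
    have : (c : ℝ) + 8 * r ≤ c' := by nlinarith
    exact_mod_cast this
  have a2 : c' + 8 * r ≤ c + (n * L : ℕ) := by
    have : (c' : ℝ) + 8 * r ≤ c + n * L := by nlinarith
    exact_mod_cast this
  have a2' : c' + 8 * r ≤ c + n * L := by
    have := a2
    push_cast at this
    exact this
  have hd : 4 * r ≤ GG.dd (gr n g c) (gr n g c') :=
    gr_dd hc S.hn (by have := S.hrn; omega) (by omega) (by omega)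
  have hN : 8 * r < (n * L : ℕ) := by
    have : 0 < r := by omega
    omega
  have hL := hc.pos
  have hc' := CARf.cont_rf hc S.hn
  have hMP := CARf.mpoly_rf hP S.hn
  have hB : Boxes (gr n g) c c' r (r / 8) {0, 1, 2} (vv (gr n g c) (gr n g c') z z) (rrf r) (RRf r) := by
    refine boxes_of (by omega) (by omega) (by simp) (by simp) ?_
    intro i hi j hj hij
    simp only [Finset.mem_insert, Finset.mem_singleton] at hi hj
    have d1 := dd_comm (gr n g c) (gr n g c')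
    have d2 := dd_comm (gr n g c) z
    have d3 := dd_comm (gr n g c') z
    rcases hi with rfl | rfl | rfl <;> rcases hj with rfl | rfl | rfl <;>
      first
        | exact absurd rfl hij
        | (simp only [vv]; omega)
  refine ⟨KO (outF (rf n P) {0, 1, 2} (vv (gr n g c) (gr n g c') z z) (rrf r)) (r / 8), r / 8, by omega,
    kok_of (by omega) ?_ S.w, fun ω X _ => ?_⟩
  · intro f hf
    unfold DomX.h2 at hf
    rw [Finset.mem_union, Finset.mem_union] at hf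
    rcases hf with (hf | hf) | hf
    · exact ⟨0, by simp, hf⟩
    · exact ⟨1, by simp, hf⟩
    · refine ⟨2, by simp, ?_⟩
      show f ∈ BR z r
      rw [mem_BR] at hf ⊢
      omega
  · exact fin_core hc' hMP hα.1 hα.2 (jhot_jP (by omega) a1 a2 hc'.pos α)
      (chord_gr hc S.hn (by have := S.hrn; omega)) hN S.f S.f' hB ω

/-- **Deterministic domination, full environment** -/
theorem detX : DetX := by
  intro P L g hP hc t₁ t₂ t₂' t₃ t₄ hm
  obtain ⟨m1, m2, m3, m4, m5, f1, f2, f2', f3, f4⟩ := hm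
  obtain ⟨γ, hγ0, g1, g2, g3, g4, g5⟩ : ∃ γ : ℝ, 0 < γ ∧ γ ≤ t₂ - t₁ ∧ γ ≤ t₂' - t₂ ∧ γ ≤ t₃ - t₂' ∧
      γ ≤ t₄ - t₃ ∧ γ ≤ t₁ + L - t₄ := by
    refine ⟨min (min (t₂ - t₁) (t₂' - t₂)) (min (min (t₃ - t₂') (t₄ - t₃)) (t₁ + L - t₄)), ?_, ?_, ?_, ?_, ?_, ?_⟩
    · exact lt_min (lt_min (by linarith) (by linarith))
        (lt_min (lt_min (by linarith) (by linarith)) (by linarith))
    · exact (min_le_left _ _).trans (min_le_left _ _)
    · exact (min_le_left _ _).trans (min_le_right _ _)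
    · exact (min_le_right _ _).trans ((min_le_left _ _).trans (min_le_left _ _))
    · exact (min_le_right _ _).trans ((min_le_left _ _).trans (min_le_right _ _))
    · exact (min_le_right _ _).trans (min_le_right _ _)
  obtain ⟨ρ₀, hρ₀, H⟩ := scl_near (P := P) hc f2 f2' hγ0
  refine ⟨ρ₀, hρ₀, fun ρ hρ hρρ => ?_⟩
  obtain ⟨M, n₁, H⟩ := H ρ hρ hρρ
  refine ⟨M, eventually_lk (δ := γ / 8) (by positivity) (n₁ := n₁) fun n k hn hk => ?_⟩
  intro α hα z s hs hz hz' hzk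
  simp only at hs hz hz' hzk ⊢
  obtain ⟨S, b1, b2⟩ := H n hn
  obtain ⟨r, hr⟩ : ∃ r : ℤ, r = ⌊ρ * n⌋ := ⟨_, rfl⟩
  rw [← hr] at S b1 hs hz hz' hzk ⊢
  obtain ⟨i, hi⟩ : ∃ i, i = ix n t₁ := ⟨_, rfl⟩
  obtain ⟨c, hcc⟩ : ∃ c, c = ix n t₂ := ⟨_, rfl⟩
  obtain ⟨c', hcc'⟩ : ∃ c, c = ix n t₂' := ⟨_, rfl⟩
  obtain ⟨l, hl⟩ : ∃ l, l = ix n t₃ := ⟨_, rfl⟩
  have i0 := ix_bd n t₁
  have i1 := ix_bd n t₂
  have i2 := ix_bd n t₂'
  have i3 := ix_bd n t₃
  rw [← hi] at i0 ⊢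
  rw [← hcc] at S hz i1 ⊢
  rw [← hcc'] at S hz' i2 ⊢
  rw [← hl] at i3 ⊢
  have hn0 : (0 : ℝ) < n := by exact_mod_cast S.hn
  have hr16 := S.hr
  rw [abs_lt, lt_sub_iff_add_lt, sub_lt_iff_lt_add, lt_div_iff₀ hn0, div_lt_iff₀ hn0] at hk
  obtain ⟨k1, k2⟩ := hk
  have hG : Gap (n * L) (8 * r) i c c' l k := by
    refine ⟨by omega, ?_, ?_, ?_, ?_, ?_⟩
    · have : (i : ℝ) + 8 * r ≤ c := by nlinarith
      exact_mod_cast this
    · have : (c : ℝ) + 8 * r ≤ c' := by nlinarith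
      exact_mod_cast this
    · have : (c' : ℝ) + 8 * r ≤ l := by nlinarith
      exact_mod_cast this
    · have : (l : ℝ) + 8 * r ≤ k := by nlinarith
      exact_mod_cast this
    · have : (k : ℝ) + 1 + 8 * r ≤ i + n * L := by nlinarith
      exact_mod_cast this
  have hL := hc.pos
  have hc' := CARf.cont_rf hc S.hn
  have hMP := CARf.mpoly_rf hP S.hn
  obtain ⟨q0, q1, q2, q3, q4, q5⟩ := hG
  have q5' : k + 1 + 8 * r ≤ i + n * L := by
    have := q5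
    push_cast at this
    exact this
  have hrn := S.hrn
  have hd : 4 * r ≤ GG.dd (gr n g c) (gr n g c') := gr_dd hc S.hn (by omega) (by omega) (by omega)
  have hdk : 4 * r ≤ GG.dd (gr n g c) (gr n g k) := gr_dd hc S.hn (by omega) (by omega) (by omega)
  have hdk' : 4 * r ≤ GG.dd (gr n g c') (gr n g k) := gr_dd hc S.hn (by omega) (by omega) (by omega)
  have hN : 8 * r < (n * L : ℕ) := by omega
  have hB : Boxes (gr n g) c c' r (r / 8) {0, 1, 2, 3} (vv (gr n g c) (gr n g c') z (gr n g k)) (rrf r)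
      (RRf r) := by
    refine boxes_of (by omega) (by omega) (by simp) (by simp) ?_
    intro i hi j hj hij
    simp only [Finset.mem_insert, Finset.mem_singleton] at hi hj
    have d1 := dd_comm (gr n g c) (gr n g c')
    have d2 := dd_comm (gr n g c) z
    have d3 := dd_comm (gr n g c') z
    have d4 := dd_comm (gr n g c) (gr n g k)
    have d5 := dd_comm (gr n g c') (gr n g k)
    have d6 := dd_comm z (gr n g k)
    rcases hi with rfl | rfl | rfl | rfl <;> rcases hj with rfl | rfl | rfl | rfl <;>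
      first
        | exact absurd rfl hij
        | (simp only [vv]; omega)
  have hch := chord_gr hc S.hn (D₀ := 4 * r) (by omega)
  have hGap : Gap (n * L) (8 * r) i c c' l k := ⟨q0, q1, q2, q3, q4, q5⟩
  refine ⟨KO (outF (rf n P) {0, 1, 2, 3} (vv (gr n g c) (gr n g c') z (gr n g k)) (rrf r)) (r / 8), r / 8,
    by omega, kok_of (by omega) ?_ S.w, fun ω => ⟨fun X _ => ?_, fun hleg => ?_⟩⟩
  · intro f hf
    unfold DomX.h2 at hf
    rw [Finset.mem_union, Finset.mem_union, Finset.mem_union] at hf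
    rcases hf with ((hf | hf) | hf) | hf
    · exact ⟨0, by simp, hf⟩
    · exact ⟨1, by simp, hf⟩
    · refine ⟨2, by simp, ?_⟩
      show f ∈ BR z r
      rw [mem_BR] at hf ⊢
      omega
    · exact ⟨3, by simp, hf⟩
  · exact fin_core hc' hMP hα.1 hα.2 (jhot_jX hGap hc'.pos α) hch hN S.f S.f' hB ω
  · have LA := legAt_of hc' hMP hch hN hGap (by omega) α
    by_contra hT
    apply hleg
    refine LA.leg_of (ω := ω) ?_
    have hIni : Ini ZQ ((rf n P : Finset (ℤ × ℤ)) : Set (ℤ × ℤ)) (csd (gr n g) k) :=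
      (mem_bS.mp (hc'.csd_mem_bS k)).2
    have hst : stt (rf n P) ω (csd (gr n g) k) = csd (gr n g) k :=
      stt_eq hIni ReflTransGen.refl
    unfold arcE at hT
    rw [hst] at hT
    exact hT

end

end Pool.Agent.SixB.Dom
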