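import Pool.Agent.Lib.SixB.S0Seam

/-!
# Rectangles are discs

`Chart Q φ pos R`: the faces `φ (x, y)`, `(x, y) ∈ R`, are unit squares with the corners
`pos (x, y)`, `pos (x + 1, y)`, `pos (x + 1, y + 1)`, `pos (x, y + 1)`.
-/

set_option autoImplicit false

namespace Pool.Agent.SixB

open Pool.Agent.Perc.Q

variable {V Φ : Type}

/-- The unit vector of a lifted direction (in quarter turns). -/
def dv (a : ℤ) : ℤ × ℤ :=
  if a % 4 = 0 then (1, 0) else if a % 4 = 1 then (0, 1) else if a % 4 = 2 then (-1, 0) else (0, -1)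

/-- The straight segment of `n` directed unit edges from `p` in the direction `a`. -/
def segm (pos : ℤ × ℤ → V) (p : ℤ × ℤ) (a : ℤ) : ℕ → List ((V × V) × ℤ)
  | 0 => []
  | n + 1 => ((pos p, pos (p + dv a)), a) :: segm pos (p + dv a) a n

/-- A half open rectangle of faces. -/
def RS (x₀ x₁ y₀ y₁ : ℤ) : Set (ℤ × ℤ) := {p | x₀ ≤ p.1 ∧ p.1 < x₁ ∧ y₀ ≤ p.2 ∧ p.2 < y₁}

/-- The faces `φ f`, `f ∈ R`, form a part of the plane in the coordinates `pos`. -/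
structure Chart (Q : QC V Φ) (φ : ℤ × ℤ → Φ) (pos : ℤ × ℤ → V) (R : Set (ℤ × ℤ)) : Prop where
  inj : ∀ f ∈ R, ∀ g ∈ R, φ f = φ g → f = g
  c0 : ∀ f ∈ R, Q.c (φ f) 0 = pos f
  c1 : ∀ f ∈ R, Q.c (φ f) 1 = pos (f.1 + 1, f.2)
  c2 : ∀ f ∈ R, Q.c (φ f) 2 = pos (f.1 + 1, f.2 + 1)
  c3 : ∀ f ∈ R, Q.c (φ f) 3 = pos (f.1, f.2 + 1)

variable {Q : QC V Φ} {ω : Φ → Bool} {F F' : Set Φ} {G G' : Set (V × V)} {e : V × V}
  {m n : ℕ} {u v s u' v' : List ((V × V) × ℤ)} {φ : ℤ × ℤ → Φ} {pos : ℤ × ℤ → V}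
  {R R' : Set (ℤ × ℤ)} {p : ℤ × ℤ} {a b x y x₀ x₁ y₀ y₁ : ℤ}

theorem dv_add_four (a : ℤ) : dv (a + 4) = dv a := by
  unfold dv
  rw [Int.add_emod_right]

theorem dv_sub_two (a : ℤ) : dv (a - 2) = -dv a := by
  unfold dv
  have h : a % 4 = 0 ∨ a % 4 = 1 ∨ a % 4 = 2 ∨ a % 4 = 3 := by omega
  rcases h with h | h | h | h
  · rw [if_neg (by omega), if_neg (by omega), if_pos (by omega), if_pos h]; rfl
  · rw [if_neg (by omega), if_neg (by omega), if_neg (by omega), if_neg (by omega), if_pos h]; rfl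
  · rw [if_pos (by omega), if_neg (by omega), if_neg (by omega), if_pos h]; rfl
  · rw [if_neg (by omega), if_pos (by omega), if_neg (by omega), if_neg (by omega),
      if_neg (by omega)]; rfl

theorem dv0 : dv 0 = (1, 0) := rfl
theorem dv1 : dv 1 = (0, 1) := rfl
theorem dv2 : dv 2 = (-1, 0) := rfl
theorem dv3 : dv 3 = (0, -1) := rfl

theorem segm_zero (pos : ℤ × ℤ → V) (p : ℤ × ℤ) (a : ℤ) : segm pos p a 0 = [] := rfl

theorem segm_succ (pos : ℤ × ℤ → V) (p : ℤ × ℤ) (a : ℤ) (n : ℕ) :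
    segm pos p a (n + 1) = ((pos p, pos (p + dv a)), a) :: segm pos (p + dv a) a n := rfl

theorem segm_one (pos : ℤ × ℤ → V) (p : ℤ × ℤ) (a : ℤ) :
    segm pos p a 1 = [((pos p, pos (p + dv a)), a)] := rfl

theorem segm_length (pos : ℤ × ℤ → V) (a : ℤ) (n : ℕ) :
    ∀ p : ℤ × ℤ, (segm pos p a n).length = n := by
  induction n with
  | zero => intro p; rfl
  | succ n ih => intro p; rw [segm_succ, List.length_cons, ih]

theorem segm_add (pos : ℤ × ℤ → V) (a : ℤ) (m n : ℕ) : ∀ p : ℤ × ℤ,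
    segm pos p a (m + n) = segm pos p a m ++ segm pos (p + (m : ℤ) • dv a) a n := by
  induction m with
  | zero => intro p; simp [segm_zero]
  | succ m ih =>
    intro p
    rw [show m + 1 + n = (m + n) + 1 by omega, segm_succ, segm_succ, List.cons_append, ih]
    congr 2
    push_cast
    rw [add_smul, one_smul, add_assoc, add_comm (dv a)]

theorem segm_lft (pos : ℤ × ℤ → V) (a : ℤ) (n : ℕ) : ∀ p : ℤ × ℤ,
    lft 4 (segm pos p a n) = segm pos p (a + 4) n := by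
  induction n with
  | zero => intro p; rfl
  | succ n ih => intro p; rw [segm_succ, segm_succ, lft_cons, ih, dv_add_four]

theorem segm_rvw (pos : ℤ × ℤ → V) (a : ℤ) (n : ℕ) : ∀ p : ℤ × ℤ,
    rvw (segm pos p a n) = segm pos (p + (n : ℤ) • dv a) (a - 2) n := by
  induction n with
  | zero => intro p; rfl
  | succ n ih =>
    intro p
    rw [segm_succ, rvw_cons, ih, segm_add, segm_one, flp_def, dv_sub_two]
    have h1 : p + dv a + (n : ℤ) • dv a = p + ((n : ℤ) + 1) • dv a := by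
      rw [add_smul, one_smul, add_assoc, add_comm (dv a)]
    have h2 : p + ((n : ℤ) + 1) • dv a + (n : ℤ) • -dv a = p + dv a := by
      rw [add_smul, one_smul, smul_neg]
      abel
    push_cast
    rw [h1, h2]
    congr 3
    simp

theorem Disc.seg_paste {p : ℤ × ℤ} (h : Disc Q F G (u ++ (segm pos p a (n + 1) ++ v)))
    (h' : Disc Q F' G' (u' ++ (segm pos (p + ((n + 1 : ℕ) : ℤ) • dv a) (a - 2) (n + 1) ++ v')))
    (hd : Disjoint F F') :
    ∃ G'', Disc Q (F ∪ F') G'' (u ++ (v' ++ (SixB.lft 4 u' ++ v))) := by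
  rw [← segm_rvw] at h'
  exact ⟨_, Disc.paste h h' (by rw [segm_succ]; exact List.cons_ne_nil _ _) hd⟩

theorem Chart.mono (h : Chart Q φ pos R) (hR : R' ⊆ R) : Chart Q φ pos R' :=
  ⟨fun f hf g hg => h.inj f (hR hf) g (hR hg), fun f hf => h.c0 f (hR hf),
    fun f hf => h.c1 f (hR hf), fun f hf => h.c2 f (hR hf), fun f hf => h.c3 f (hR hf)⟩

theorem Chart.disj (h : Chart Q φ pos (R ∪ R')) (hd : Disjoint R R') :
    Disjoint (φ '' R) (φ '' R') := by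
  rw [Set.disjoint_left]
  rintro _ ⟨f, hf, rfl⟩ ⟨g, hg, hfg⟩
  rw [h.inj g (Or.inr hg) f (Or.inl hf) hfg] at hg
  exact Set.disjoint_left.1 hd hf hg

/-- One face. -/
theorem disc_one (h : Chart Q φ pos {(x, y)}) : ∃ G, Disc Q (φ '' {(x, y)}) G
    (segm pos (x, y) 0 1 ++ (segm pos (x + 1, y) 1 1 ++ (segm pos (x + 1, y + 1) 2 1 ++
      segm pos (x, y + 1) 3 1))) := by
  refine ⟨_, (Disc.face (Q := Q) (φ (x, y)) 0 0).cast (Set.image_singleton).symm rfl ?_⟩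
  have c0 := h.c0 (x, y) rfl
  have c1 := h.c1 (x, y) rfl
  have c2 := h.c2 (x, y) rfl
  have c3 := h.c3 (x, y) rfl
  have e2 : ((x + 1, y + 1) : ℤ × ℤ) + (-1, 0) = (x, y + 1) := by
    ext <;> simp
  have e3 : ((x, y + 1) : ℤ × ℤ) + (0, -1) = (x, y) := by
    ext <;> simp
  have e0 : ((x, y) : ℤ × ℤ) + (1, 0) = (x + 1, y) := by
    ext <;> simp
  have e1 : ((x + 1, y) : ℤ × ℤ) + (0, 1) = (x + 1, y + 1) := by
    ext <;> simp
  rw [segm_one, segm_one, segm_one, segm_one, dv0, dv1, dv2, dv3, e0, e1, e2, e3]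
  have k1 : (0 : ZMod 4) + 1 = 1 := rfl
  have k2 : (0 : ZMod 4) + 2 = 2 := rfl
  have k3 : (0 : ZMod 4) + 3 = 3 := rfl
  have k11 : (1 : ZMod 4) + 1 = 2 := rfl
  have k21 : (2 : ZMod 4) + 1 = 3 := rfl
  have k31 : (3 : ZMod 4) + 1 = 0 := rfl
  unfold sd
  rw [k1, k2, k3, k11, k21, k31, c0, c1, c2, c3]
  rfl

theorem RS_split_x (h0 : x₀ ≤ x) (h1 : x ≤ x₁) :
    RS x₀ x₁ y₀ y₁ = RS x₀ x y₀ y₁ ∪ RS x x₁ y₀ y₁ := by
  ext p
  unfold RS
  simp only [Set.mem_ofPred_eq, Set.mem_union]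
  omega

theorem RS_split_y (h0 : y₀ ≤ y) (h1 : y ≤ y₁) :
    RS x₀ x₁ y₀ y₁ = RS x₀ x₁ y₀ y ∪ RS x₀ x₁ y y₁ := by
  ext p
  unfold RS
  simp only [Set.mem_ofPred_eq, Set.mem_union]
  omega

theorem RS_disj_x : Disjoint (RS x₀ x y₀ y₁) (RS x x₁ y₀ y₁) := by
  rw [Set.disjoint_left]
  intro p hp hp'
  unfold RS at hp hp'
  simp only [Set.mem_ofPred_eq] at hp hp'
  omega

theorem RS_disj_y : Disjoint (RS x₀ x₁ y₀ y) (RS x₀ x₁ y y₁) := by
  rw [Set.disjoint_left]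
  intro p hp hp'
  unfold RS at hp hp'
  simp only [Set.mem_ofPred_eq] at hp hp'
  omega

theorem RS_one : RS x (x + 1) y (y + 1) = {(x, y)} := by
  ext p
  unfold RS
  simp only [Set.mem_ofPred_eq, Set.mem_singleton_iff, Prod.ext_iff]
  omega

/-- A row of faces. -/
theorem disc_row (n : ℕ) : ∀ {x y : ℤ}, Chart Q φ pos (RS x (x + (n + 1 : ℕ)) y (y + 1)) →
    ∃ G, Disc Q (φ '' RS x (x + (n + 1 : ℕ)) y (y + 1)) G
    (segm pos (x, y) 0 (n + 1) ++ (segm pos (x + (n + 1 : ℕ), y) 1 1 ++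
      (segm pos (x + (n + 1 : ℕ), y + 1) 2 (n + 1) ++ segm pos (x, y + 1) 3 1))) := by
  induction n with
  | zero =>
    intro x y h
    have h1 : RS x (x + ((0 + 1 : ℕ) : ℤ)) y (y + 1) = {(x, y)} := RS_one
    rw [h1] at h ⊢
    exact disc_one h
  | succ n ih =>
    intro x y h
    have hs : RS x (x + ((n + 1 + 1 : ℕ) : ℤ)) y (y + 1) =
        RS x (x + (n + 1 : ℕ)) y (y + 1) ∪ {(x + ((n + 1 : ℕ) : ℤ), y)} := by
      rw [RS_split_x (x := x + ((n + 1 : ℕ) : ℤ)) (by omega) (by push_cast; omega)]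
      congr 1
      rw [← RS_one]
      congr 1
      push_cast
      ring
    have hdis : Disjoint (RS x (x + (n + 1 : ℕ)) y (y + 1)) {(x + ((n + 1 : ℕ) : ℤ), y)} := by
      rw [← RS_one]
      exact RS_disj_x
    rw [hs] at h ⊢
    obtain ⟨G1, h1⟩ := ih (h.mono Set.subset_union_left)
    obtain ⟨G2, h2⟩ := disc_one (h.mono Set.subset_union_right)
    have hd := h.disj hdis
    rw [Set.image_union]
    have h2' := h2.lft (-4)
    have e4 : ∀ p a n, SixB.lft (-4) (segm pos p a n) = segm pos p (a - 4) n := by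
      intro p a n
      have : segm pos p a n = SixB.lft 4 (segm pos p (a - 4) n) := by
        rw [segm_lft, sub_add_cancel]
      rw [this, lft_lft]
      norm_num [lft_zero]
    simp only [lft_append, e4] at h2'
    have h3 := Disc.seg_paste (n := 0) (u := segm pos (x, y) 0 (n + 1))
      (p := (x + ((n + 1 : ℕ) : ℤ), y)) (a := 1)
      (v := segm pos (x + (n + 1 : ℕ), y + 1) 2 (n + 1) ++ segm pos (x, y + 1) 3 1)
      (u' := segm pos (x + ((n + 1 : ℕ) : ℤ), y) (0 - 4) 1 ++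
        (segm pos (x + ((n + 1 : ℕ) : ℤ) + 1, y) (1 - 4) 1 ++
          segm pos (x + ((n + 1 : ℕ) : ℤ) + 1, y + 1) (2 - 4) 1)) (v' := []) h1 (by
        refine h2'.cast rfl rfl ?_
        have e1 : ((x + ((n + 1 : ℕ) : ℤ), y) : ℤ × ℤ) + ((0 + 1 : ℕ) : ℤ) • dv 1 =
            (x + ((n + 1 : ℕ) : ℤ), y + 1) := by
          rw [dv1]; ext <;> simp
        rw [e1]
        simp) hd
    obtain ⟨G3, h3⟩ := h3
    refine ⟨G3, h3.cast rfl rfl ?_⟩
    simp only [lft_append, segm_lft]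
    have e1 : segm pos (x, y) 0 (n + 1 + 1) = segm pos (x, y) 0 (n + 1) ++
        segm pos (x + ((n + 1 : ℕ) : ℤ), y) 0 1 := by
      rw [segm_add]
      congr 2
      rw [dv0]; ext <;> simp
    have e2 : segm pos (x + ((n + 1 + 1 : ℕ) : ℤ), y + 1) 2 (n + 1 + 1) =
        segm pos (x + ((n + 1 : ℕ) : ℤ) + 1, y + 1) 2 1 ++
          segm pos (x + ((n + 1 : ℕ) : ℤ), y + 1) 2 (n + 1) := by
      rw [show n + 1 + 1 = 1 + (n + 1) by omega, segm_add]
      congr 2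
      · push_cast; congr 1; ring
      · rw [dv2]; ext
        · simp; ring
        · simp
    have e3 : x + ((n + 1 : ℕ) : ℤ) + 1 = x + ((n + 1 + 1 : ℕ) : ℤ) := by push_cast; ring
    rw [e1, e2, e3]
    simp

/-- RECTANGLES ARE DISCS. -/
theorem disc_rect (n m : ℕ) : ∀ {x y : ℤ},
    Chart Q φ pos (RS x (x + (n + 1 : ℕ)) y (y + (m + 1 : ℕ))) →
    ∃ G, Disc Q (φ '' RS x (x + (n + 1 : ℕ)) y (y + (m + 1 : ℕ))) G
    (segm pos (x, y) 0 (n + 1) ++ (segm pos (x + (n + 1 : ℕ), y) 1 (m + 1) ++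
      (segm pos (x + (n + 1 : ℕ), y + (m + 1 : ℕ)) 2 (n + 1) ++
        segm pos (x, y + (m + 1 : ℕ)) 3 (m + 1)))) := by
  induction m with
  | zero =>
    intro x y h
    exact disc_row n h
  | succ m ih =>
    intro x y h
    have hs : RS x (x + (n + 1 : ℕ)) y (y + ((m + 1 + 1 : ℕ) : ℤ)) =
        RS x (x + (n + 1 : ℕ)) y (y + (m + 1 : ℕ)) ∪
          RS x (x + (n + 1 : ℕ)) (y + (m + 1 : ℕ)) (y + (m + 1 : ℕ) + 1) := by
      rw [RS_split_y (y := y + ((m + 1 : ℕ) : ℤ)) (by omega) (by push_cast; omega)]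
      congr 2
      push_cast
      ring
    rw [hs] at h ⊢
    obtain ⟨G1, h1⟩ := ih (h.mono Set.subset_union_left)
    obtain ⟨G2, h2⟩ := disc_row n (h.mono Set.subset_union_right)
    have hd := h.disj RS_disj_y
    rw [Set.image_union]
    have e1 : ((x + ((n + 1 : ℕ) : ℤ), y + ((m + 1 : ℕ) : ℤ)) : ℤ × ℤ) +
        ((n + 1 : ℕ) : ℤ) • dv 2 = (x, y + ((m + 1 : ℕ) : ℤ)) := by
      rw [dv2]; ext
      · simp; ring
      · simp
    obtain ⟨G3, h3⟩ := Disc.seg_paste (n := n) (pos := pos)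
      (u := segm pos (x, y) 0 (n + 1) ++ segm pos (x + (n + 1 : ℕ), y) 1 (m + 1))
      (p := (x + ((n + 1 : ℕ) : ℤ), y + ((m + 1 : ℕ) : ℤ))) (a := 2)
      (v := segm pos (x, y + (m + 1 : ℕ)) 3 (m + 1)) (u' := [])
      (v' := segm pos (x + ((n + 1 : ℕ) : ℤ), y + ((m + 1 : ℕ) : ℤ)) 1 1 ++
        (segm pos (x + ((n + 1 : ℕ) : ℤ), y + ((m + 1 : ℕ) : ℤ) + 1) 2 (n + 1) ++
          segm pos (x, y + ((m + 1 : ℕ) : ℤ) + 1) 3 1))
      (h1.cast rfl rfl (by simp)) (h2.cast rfl rfl (by rw [e1]; simp)) hd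
    refine ⟨G3, h3.cast rfl rfl ?_⟩
    have e2 : segm pos (x + ((n + 1 : ℕ) : ℤ), y) 1 (m + 1 + 1) =
        segm pos (x + ((n + 1 : ℕ) : ℤ), y) 1 (m + 1) ++
          segm pos (x + ((n + 1 : ℕ) : ℤ), y + ((m + 1 : ℕ) : ℤ)) 1 1 := by
      rw [segm_add]
      congr 2
      rw [dv1]; ext <;> simp
    have e3 : segm pos (x, y + ((m + 1 + 1 : ℕ) : ℤ)) 3 (m + 1 + 1) =
        segm pos (x, y + ((m + 1 : ℕ) : ℤ) + 1) 3 1 ++
          segm pos (x, y + ((m + 1 : ℕ) : ℤ)) 3 (m + 1) := by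
      rw [show m + 1 + 1 = 1 + (m + 1) by omega, segm_add]
      congr 2
      · push_cast; congr 1; ring
      · rw [dv3]; ext
        · simp
        · simp; ring
    have e4 : y + ((m + 1 : ℕ) : ℤ) + 1 = y + ((m + 1 + 1 : ℕ) : ℤ) := by push_cast; ring
    rw [e2, e3, e4, lft_nil]
    simp

end Pool.Agent.SixB
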