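import Mathlib

/-!
# Non crossing matchings of the entries of a list

`NCM R w`: the entries of the list `w` are matched in pairs without crossings, in such a way that
`R x y` holds for every matched pair with `x` before `y`. The operations which are needed for discs
glued from squares: joining two discs along one side, zipping two adjacent sides, rotation.
-/

set_option autoImplicit false

namespace Pool.Agent.SixB

/-- The entries of the list can be matched without crossings, with `R x y` for every matched pair. -/
inductive NCM {α : Type} (R : α → α → Prop) : List α → Prop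
  | nil : NCM R []
  | cons {x : α} {s : List α} {y : α} {r : List α} (h : R x y) (hs : NCM R s) (hr : NCM R r) :
      NCM R (x :: (s ++ y :: r))

namespace NCM

variable {α β : Type} {R R' : α → α → Prop} {s r u v w : List α} {x y p q : α}

theorem mono (h : NCM R w) (hR : ∀ x y, R x y → R' x y) : NCM R' w := by
  induction h with
  | nil => exact nil
  | cons h _ _ ih1 ih2 => exact cons (hR _ _ h) ih1 ih2

theorem append (h : NCM R s) (h' : NCM R r) : NCM R (s ++ r) := by
  induction h with
  | nil => exact h'
  | cons h hs _ _ ih2 =>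
    rw [List.cons_append, List.append_assoc, List.cons_append]
    exact cons h hs ih2

theorem map {S : β → β → Prop} {f : α → β} (h : NCM R w) (hf : ∀ x y, R x y → S (f x) (f y)) :
    NCM S (w.map f) := by
  induction h with
  | nil => exact nil
  | cons h _ _ ih1 ih2 =>
    rw [List.map_cons, List.map_append, List.map_cons]
    exact cons (hf _ _ h) ih1 ih2

theorem head (h : NCM R (x :: s)) : ∃ u y v, s = u ++ y :: v ∧ R x y ∧ NCM R u ∧ NCM R v := by
  generalize hw : x :: s = w at h
  cases h with
  | nil => cases hw
  | cons h hs hr =>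
    cases hw
    exact ⟨_, _, _, rfl, h, hs, hr⟩

theorem last (h : NCM R w) : ∀ {s : List α} {y : α}, w = s ++ [y] →
    ∃ u x v, s = u ++ x :: v ∧ R x y ∧ NCM R u ∧ NCM R v := by
  induction h with
  | nil =>
    intro s y hw
    exact absurd hw.symm (by simp)
  | @cons x t z r h ht hr _ ih =>
    intro s y hw
    rcases List.eq_nil_or_concat r with rfl | ⟨r', y', rfl⟩
    · have h1 : (x :: t) ++ [z] = s ++ [y] := by rw [← hw]; rfl
      obtain ⟨h2, h3⟩ := List.append_inj' h1 rfl
      obtain rfl : z = y := by simpa using h3
      exact ⟨[], x, t, h2.symm, h, nil, ht⟩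
    · have h1 : (x :: (t ++ z :: r')) ++ [y'] = s ++ [y] := by rw [← hw]; simp
      obtain ⟨h2, h3⟩ := List.append_inj' h1 rfl
      obtain rfl : y' = y := by simpa using h3
      obtain ⟨u, p, v, h4, h5, h6, h7⟩ := ih (s := r') (y := y') (by simp)
      refine ⟨x :: (t ++ z :: u), p, v, ?_, h5, cons h ht h6, h7⟩
      rw [← h2, h4]
      simp

/-- The last entry of the first list and the first entry of the second list disappear, their partners
are matched. -/
theorem join (h : NCM R (u ++ [x])) (h' : NCM R (y :: v))
    (hR : ∀ a b, R a b → R' a b) (hc : ∀ p q, R p x → R y q → R' p q) : NCM R' (u ++ v) := by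
  obtain ⟨u1, p, u2, rfl, h1, h2, h3⟩ := h.last rfl
  obtain ⟨v1, q, v2, rfl, h4, h5, h6⟩ := h'.head
  have h7 : NCM R' (p :: ((u2 ++ v1) ++ q :: v2)) :=
    cons (hc _ _ h1 h4) ((h3.append h5).mono hR) (h6.mono hR)
  have h8 := (h2.mono hR).append h7
  simpa using h8

theorem rot {x' : α} (h : NCM R (x :: u)) (hR : ∀ a b, R a b → R' a b)
    (hx : ∀ y, R x y → R' y x') : NCM R' (u ++ [x']) := by
  obtain ⟨u1, y, u2, rfl, h1, h2, h3⟩ := h.head
  have h4 : NCM R' (y :: (u2 ++ x' :: [])) := cons (hx _ h1) (h3.mono hR) nil
  have h5 := (h2.mono hR).append h4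
  simpa using h5

/-- Two adjacent entries disappear and their partners are matched. -/
theorem zip (hR : ∀ a b, R a b → R' a b) (h1 : ∀ p q, R p x → R y q → R' p q)
    (h2 : ∀ p q, R p x → R q y → R' q p) (h3 : ∀ p q, R x p → R y q → R' q p)
    (h : NCM R w) : ∀ {u v : List α}, w = u ++ x :: y :: v → NCM R' (u ++ v) := by
  induction h with
  | nil =>
    intro u v hw
    exact absurd hw.symm (by simp)
  | @cons a s b r hab hs hr ihs ihr =>
    intro u v hw
    cases u with
    | nil =>
      rw [List.nil_append] at hw
      obtain ⟨hx, hw1⟩ := List.cons.inj hw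
      subst hx
      cases s with
      | nil =>
        rw [List.nil_append] at hw1
        obtain ⟨hy, hv⟩ := List.cons.inj hw1
        subst hv
        exact hr.mono hR
      | cons c s' =>
        rw [List.cons_append] at hw1
        obtain ⟨hy, hv⟩ := List.cons.inj hw1
        subst hy hv
        obtain ⟨s1, q, s2, rfl, h4, h5, h6⟩ := hs.head
        have h7 : NCM R' (q :: (s2 ++ b :: r)) := cons (h3 _ _ hab h4) (h6.mono hR) (hr.mono hR)
        have h8 := (h5.mono hR).append h7
        simpa using h8
    | cons c u' =>
      rw [List.cons_append] at hw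
      obtain ⟨hx, hw1⟩ := List.cons.inj hw
      subst hx
      rw [List.cons_append]
      rcases List.append_eq_append_iff.1 hw1 with ⟨t, ht1, ht2⟩ | ⟨t, ht1, ht2⟩
      · -- u' = s ++ t, b :: r = t ++ x :: y :: v
        cases t with
        | nil =>
          rw [List.nil_append] at ht2
          obtain ⟨hx, hv⟩ := List.cons.inj ht2
          rw [List.append_nil] at ht1
          subst ht1 hx hv
          obtain ⟨r1, q, r2, rfl, h4, h5, h6⟩ := hr.head
          have h7 : NCM R' (a :: ((u' ++ r1) ++ q :: r2)) :=
            cons (h1 _ _ hab h4) ((hs.mono hR).append (h5.mono hR)) (h6.mono hR)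
          simpa using h7
        | cons d t' =>
          rw [List.cons_append] at ht2
          obtain ⟨hx, ht3⟩ := List.cons.inj ht2
          subst ht1 hx
          have h4 : NCM R' (a :: (s ++ b :: (t' ++ v))) :=
            cons (hR _ _ hab) (hs.mono hR) (ihr ht3)
          simpa using h4
      · -- s = u' ++ t, x :: y :: v = t ++ b :: r
        cases t with
        | nil =>
          rw [List.nil_append] at ht2
          obtain ⟨hx, ht3⟩ := List.cons.inj ht2
          rw [List.append_nil] at ht1
          subst hx ht3 ht1
          obtain ⟨r1, q, r2, rfl, h4, h5, h6⟩ := hr.head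
          have h7 : NCM R' (a :: ((s ++ r1) ++ q :: r2)) :=
            cons (h1 _ _ hab h4) ((hs.mono hR).append (h5.mono hR)) (h6.mono hR)
          simpa using h7
        | cons d t' =>
          rw [List.cons_append] at ht2
          obtain ⟨hx, ht3⟩ := List.cons.inj ht2
          subst hx
          cases t' with
          | nil =>
            rw [List.nil_append] at ht3
            obtain ⟨hy, hv⟩ := List.cons.inj ht3
            subst ht1 hy hv
            obtain ⟨s1, p, s2, rfl, h4, h5, h6⟩ := hs.last rfl
            have h7 : NCM R' (a :: (s1 ++ p :: (s2 ++ v))) :=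
              cons (h2 _ _ h4 hab) (h5.mono hR) ((h6.mono hR).append (hr.mono hR))
            simpa using h7
          | cons d' t'' =>
            rw [List.cons_append] at ht3
            obtain ⟨hy, hv⟩ := List.cons.inj ht3
            subst hy hv
            have h4 : NCM R' (a :: ((u' ++ t'') ++ b :: r)) :=
              cons (hR _ _ hab) (ihs ht1) (hr.mono hR)
            simpa using h4

theorem even_length (h : NCM R w) : Even w.length := by
  induction h with
  | nil => exact ⟨0, rfl⟩
  | cons _ _ _ ih1 ih2 =>
    obtain ⟨m, hm⟩ := ih1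
    obtain ⟨n, hn⟩ := ih2
    refine ⟨m + n + 1, ?_⟩
    rw [List.length_cons, List.length_append, List.length_cons, hm, hn]
    omega

/-- The matching as an involution of the positions. -/
theorem exists_fun (h : NCM R w) : ∃ M : ℕ → ℕ, (∀ i < w.length, M i < w.length ∧ M i ≠ i ∧ M (M i) = i) ∧
    (∀ i < w.length, ∀ j, i < j → j < M i → i < M j ∧ M j < M i) ∧
    ∀ i < w.length, ∀ x y, i < M i → w[i]? = some x → w[M i]? = some y → R x y := by
  induction h with
  | nil =>
    refine ⟨id, ?_, ?_, ?_⟩
    · intro i hi
      exact absurd hi (by simp)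
    · intro i hi
      exact absurd hi (by simp)
    · intro i hi
      exact absurd hi (by simp)
  | @cons a s b r hab hs hr ihs ihr =>
    obtain ⟨M, hM1, hM2, hM3⟩ := ihs
    obtain ⟨N, hN1, hN2, hN3⟩ := ihr
    set m := s.length with hm
    set n := r.length with hn
    have hlen : (a :: (s ++ b :: r)).length = m + n + 2 := by
      rw [List.length_cons, List.length_append, List.length_cons]
      omega
    have hval : ∀ i, (i = 0 ∨ i = m + 1 ∨ (1 ≤ i ∧ i ≤ m) ∨ m + 2 ≤ i) := by
      intro i; omega
    let K : ℕ → ℕ := fun i => if i = 0 then m + 1 else if i ≤ m then M (i - 1) + 1 else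
      if i = m + 1 then 0 else N (i - (m + 2)) + (m + 2)
    have hK0 : K 0 = m + 1 := by simp [K]
    have hKm : K (m + 1) = 0 := by simp [K]
    have hKs : ∀ i < m, K (i + 1) = M i + 1 := by
      intro i hi
      simp only [K]
      rw [if_neg (by omega), if_pos (by omega), Nat.add_sub_cancel]
    have hKr : ∀ i, K (i + (m + 2)) = N i + (m + 2) := by
      intro i
      simp only [K]
      rw [if_neg (by omega), if_neg (by omega), if_neg (by omega), Nat.add_sub_cancel]
    have hcase : ∀ i, i < m + n + 2 → i = 0 ∨ i = m + 1 ∨ (∃ j, j < m ∧ i = j + 1) ∨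
        ∃ j, j < n ∧ i = j + (m + 2) := by
      intro i hi
      rcases hval i with h | h | h | h
      · exact Or.inl h
      · exact Or.inr (Or.inl h)
      · exact Or.inr (Or.inr (Or.inl ⟨i - 1, by omega, by omega⟩))
      · exact Or.inr (Or.inr (Or.inr ⟨i - (m + 2), by omega, by omega⟩))
    refine ⟨K, ?_, ?_, ?_⟩
    · intro i hi
      rw [hlen] at hi ⊢
      rcases hcase i hi with rfl | rfl | ⟨j, hj, rfl⟩ | ⟨j, hj, rfl⟩
      · rw [hK0, hKm]; omega
      · rw [hKm, hK0]; omega
      · obtain ⟨h1, h2, h3⟩ := hM1 j hj
        rw [hKs j hj, hKs _ h1, h3]; omega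
      · obtain ⟨h1, h2, h3⟩ := hN1 j hj
        rw [hKr, hKr, h3]; omega
    · intro i hi j hij hj
      rw [hlen] at hi
      rcases hcase i hi with rfl | rfl | ⟨i', hi', rfl⟩ | ⟨i', hi', rfl⟩
      · rw [hK0] at hj ⊢
        obtain ⟨j', rfl⟩ : ∃ j', j = j' + 1 := ⟨j - 1, by omega⟩
        obtain ⟨h1, h2, h3⟩ := hM1 j' (by omega)
        rw [hKs j' (by omega)]; omega
      · rw [hKm] at hj; omega
      · obtain ⟨h1, h2, h3⟩ := hM1 i' hi'
        rw [hKs i' hi'] at hj ⊢
        obtain ⟨j', rfl⟩ : ∃ j', j = j' + 1 := ⟨j - 1, by omega⟩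
        have h4 := hM2 i' hi' j' (by omega) (by omega)
        rw [hKs j' (by omega)]; omega
      · rw [hKr] at hj ⊢
        obtain ⟨h1, h2, h3⟩ := hN1 i' hi'
        obtain ⟨j', rfl⟩ : ∃ j', j = j' + (m + 2) := ⟨j - (m + 2), by omega⟩
        have h4 := hN2 i' hi' j' (by omega) (by omega)
        rw [hKr]; omega
    · have hg0 : (a :: (s ++ b :: r))[0]? = some a := rfl
      have hgm : (a :: (s ++ b :: r))[m + 1]? = some b := by
        rw [List.getElem?_cons_succ, List.getElem?_append_right (by omega), ← hm, Nat.sub_self]
        rfl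
      have hgs : ∀ i < m, (a :: (s ++ b :: r))[i + 1]? = s[i]? := by
        intro i hi
        rw [List.getElem?_cons_succ, List.getElem?_append_left (by omega)]
      have hgr : ∀ i, (a :: (s ++ b :: r))[i + (m + 2)]? = r[i]? := by
        intro i
        rw [show i + (m + 2) = (i + 1 + m) + 1 by omega, List.getElem?_cons_succ,
          List.getElem?_append_right (by omega), ← hm, Nat.add_sub_cancel, List.getElem?_cons_succ]
      intro i hi x y hiM hx hy
      rw [hlen] at hi
      rcases hcase i hi with rfl | rfl | ⟨i', hi', rfl⟩ | ⟨i', hi', rfl⟩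
      · rw [hK0, hgm] at hy
        rw [hg0] at hx
        cases hx; cases hy; exact hab
      · rw [hKm] at hiM; omega
      · obtain ⟨h1, h2, h3⟩ := hM1 i' hi'
        rw [hKs i' hi'] at hy hiM
        rw [hgs _ h1] at hy
        rw [hgs _ hi'] at hx
        exact hM3 i' hi' x y (by omega) hx hy
      · rw [hKr] at hy hiM
        rw [hgr] at hx hy
        exact hN3 i' hi' x y (by omega) hx hy

end NCM

end Pool.Agent.SixB
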