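import Pool.Agent.Lib.SixB.S0Walk
import Pool.Agent.Lib.SixB.S0Match

/-!
# Discs glued from squares

`Disc Q F G w`: the faces `F` glued along the sides `G` form a disc with boundary word `w`: the
boundary sides in counterclockwise order with their lifted directions (in quarter turns). The strands
match the boundary sides without crossings, an arc from an earlier side `x` to a later side `y` of
the word has turning `y.2 - x.2 - 2`, and every loop has turning `4` or `-4`.
-/

set_option autoImplicit false

namespace Pool.Agent.SixB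

open Pool.Agent.Perc.Q

variable {V Φ : Type}

/-- The faces `F` glued along `G` form a disc with the boundary word `w`. -/
inductive Disc (Q : QC V Φ) : Set Φ → Set (V × V) → List ((V × V) × ℤ) → Prop
  | face (f : Φ) (k : ZMod 4) (a : ℤ) :
      Disc Q {f} ∅ [(sd Q f k, a), (sd Q f (k + 1), a + 1), (sd Q f (k + 2), a + 2),
        (sd Q f (k + 3), a + 3)]
  | join {F F' : Set Φ} {G G' : Set (V × V)} {u v : List ((V × V) × ℤ)} {e : V × V} {a : ℤ}
      (h : Disc Q F G (u ++ [(e, a)])) (h' : Disc Q F' G' ((e.swap, a - 2) :: v))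
      (hd : Disjoint F F') : Disc Q (F ∪ F') (G ∪ G' ∪ {e, e.swap}) (u ++ v)
  | zip {F : Set Φ} {G : Set (V × V)} {u v : List ((V × V) × ℤ)} {e : V × V} {a : ℤ}
      (h : Disc Q F G (u ++ (e, a) :: (e.swap, a - 2) :: v)) :
      Disc Q F (G ∪ {e, e.swap}) (u ++ v)
  | rot {F : Set Φ} {G : Set (V × V)} {u : List ((V × V) × ℤ)} {e : V × V} {a : ℤ}
      (h : Disc Q F G ((e, a) :: u)) : Disc Q F G (u ++ [(e, a + 4)])
  | shift {F : Set Φ} {G : Set (V × V)} {u : List ((V × V) × ℤ)} (c : ℤ) (h : Disc Q F G u) :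
      Disc Q F G (u.map fun x => (x.1, x.2 + c))

variable {Q : QC V Φ} {ω : Φ → Bool} {F F' : Set Φ} {G G' : Set (V × V)} {a b c e : V × V}
  {f g : Φ} {k l : ZMod 4} {s t : ℤ} {m n : ℕ} {w w' u v : List ((V × V) × ℤ)}

/-- The sides of the faces of `F`. -/
def Sides (Q : QC V Φ) (F : Set Φ) : Set (V × V) := {e | ∃ f ∈ F, ∃ k, e = sd Q f k}

/-- What every disc satisfies: every side of a face is either glued or in the word, exactly once. -/
structure DInv (Q : QC V Φ) (F : Set Φ) (G : Set (V × V)) (w : List ((V × V) × ℤ)) : Prop where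
  cover : ∀ e ∈ Sides Q F, e ∈ w.map Prod.fst ∨ e ∈ G
  nodup : (w.map Prod.fst).Nodup
  notG : ∀ e ∈ w.map Prod.fst, e ∉ G
  symm : ∀ e ∈ G, e.swap ∈ G
  sideG : ∀ e ∈ G, e ∈ Sides Q F
  sideW : ∀ e ∈ w.map Prod.fst, e ∈ Sides Q F

theorem sides_union : Sides Q (F ∪ F') = Sides Q F ∪ Sides Q F' := by
  ext e
  constructor
  · rintro ⟨f, hf | hf, h⟩
    · exact Or.inl ⟨f, hf, h⟩
    · exact Or.inr ⟨f, hf, h⟩
  · rintro (⟨f, hf, h⟩ | ⟨f, hf, h⟩)
    · exact ⟨f, Or.inl hf, h⟩
    · exact ⟨f, Or.inr hf, h⟩

theorem sides_disj (hd : Disjoint F F') (h : e ∈ Sides Q F) : e ∉ Sides Q F' := by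
  rintro ⟨f', hf', k', h'⟩
  obtain ⟨f, hf, k, h⟩ := h
  obtain ⟨rfl, -⟩ := sd_inj (h.symm.trans h')
  exact Set.disjoint_left.1 hd hf hf'

theorem Disc.inv (h : Disc Q F G w) : DInv Q F G w := by
  induction h with
  | face f k a =>
    refine ⟨?_, ?_, ?_, ?_, ?_, ?_⟩
    · rintro e ⟨f', hf', k', rfl⟩
      obtain rfl : f' = f := hf'
      left
      rcases z4_cases k' k with h | h | h | h <;> rw [h] <;> simp
    · have h1 : ∀ i j : ZMod 4, i ≠ j → sd Q f i ≠ sd Q f j := fun i j h => sd_ne h
      have h2 : k ≠ k + 1 ∧ k ≠ k + 2 ∧ k ≠ k + 3 ∧ k + 1 ≠ k + 2 ∧ k + 1 ≠ k + 3 ∧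
          k + 2 ≠ k + 3 := by
        revert k; decide
      simp only [List.map_cons, List.map_nil, List.nodup_cons, List.mem_cons, List.not_mem_nil,
        or_false, not_or, not_false_eq_true, List.nodup_nil, and_true]
      exact ⟨⟨h1 _ _ h2.1, h1 _ _ h2.2.1, h1 _ _ h2.2.2.1⟩, ⟨h1 _ _ h2.2.2.2.1,
        h1 _ _ h2.2.2.2.2.1⟩, h1 _ _ h2.2.2.2.2.2⟩
    · intro e _ h
      exact h
    · intro e h
      exact absurd h (Set.notMem_empty _)
    · intro e h
      exact absurd h (Set.notMem_empty _)
    · intro e he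
      simp only [List.map_cons, List.map_nil, List.mem_cons, List.not_mem_nil, or_false] at he
      rcases he with rfl | rfl | rfl | rfl
      · exact ⟨f, rfl, _, rfl⟩
      · exact ⟨f, rfl, _, rfl⟩
      · exact ⟨f, rfl, _, rfl⟩
      · exact ⟨f, rfl, _, rfl⟩
  | @join F F' G G' u v e a _ _ hd ih ih' =>
    have hd' := hd.symm
    have heF : e ∈ Sides Q F := ih.sideW e (by simp)
    have heF' : e.swap ∈ Sides Q F' := ih'.sideW _ (by simp)
    have hnd := ih.nodup
    have hnd' := ih'.nodup
    rw [List.map_append, List.map_cons, List.map_nil] at hnd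
    rw [List.map_cons] at hnd'
    have hu : e ∉ u.map Prod.fst := by
      intro h
      exact (List.nodup_append.1 hnd).2.2 e h e (by simp) rfl
    have hv : e.swap ∉ v.map Prod.fst := (List.nodup_cons.1 hnd').1
    have hsu : ∀ x ∈ u.map Prod.fst, x ∈ Sides Q F := fun x hx => ih.sideW x (by simp_all)
    have hsv : ∀ x ∈ v.map Prod.fst, x ∈ Sides Q F' := fun x hx => ih'.sideW x (by simp_all)
    refine ⟨?_, ?_, ?_, ?_, ?_, ?_⟩
    · intro x hx
      rw [sides_union] at hx
      rw [List.map_append]
      rcases hx with hx | hx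
      · rcases ih.cover x hx with h | h
        · rw [List.map_append, List.mem_append] at h
          rcases h with h | h
          · exact Or.inl (List.mem_append_left _ h)
          · right; right
            simp only [List.map_cons, List.map_nil, List.mem_singleton] at h
            rw [h]; exact Set.mem_insert _ _
        · exact Or.inr (Or.inl (Or.inl h))
      · rcases ih'.cover x hx with h | h
        · rw [List.map_cons, List.mem_cons] at h
          rcases h with h | h
          · right; right
            rw [h]; exact Set.mem_insert_of_mem _ rfl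
          · exact Or.inl (List.mem_append_right _ h)
        · exact Or.inr (Or.inl (Or.inr h))
    · rw [List.map_append, List.nodup_append]
      refine ⟨(List.nodup_append.1 hnd).1, (List.nodup_cons.1 hnd').2, ?_⟩
      rintro x hx y hy rfl
      exact sides_disj hd (hsu x hx) (hsv x hy)
    · intro x hx
      rw [List.map_append, List.mem_append] at hx
      rintro ((h | h) | h)
      · rcases hx with hx | hx
        · exact ih.notG x (by simp_all) h
        · exact sides_disj hd (ih.sideG x h) (hsv x hx)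
      · rcases hx with hx | hx
        · exact sides_disj hd (hsu x hx) (ih'.sideG x h)
        · exact ih'.notG x (by simp_all) h
      · rcases h with h | h
        · rcases hx with hx | hx
          · exact hu (h ▸ hx)
          · exact sides_disj hd heF (h ▸ hsv x hx)
        · rcases hx with hx | hx
          · exact sides_disj hd (h ▸ hsu x hx) heF'
          · exact hv (h ▸ hx)
    · rintro x ((h | h) | h)
      · exact Or.inl (Or.inl (ih.symm x h))
      · exact Or.inl (Or.inr (ih'.symm x h))
      · right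
        rcases h with rfl | h
        · exact Set.mem_insert_of_mem _ rfl
        · rw [Set.mem_singleton_iff] at h
          rw [h, Prod.swap_swap]; exact Set.mem_insert _ _
    · rintro x ((h | h) | h)
      · rw [sides_union]; exact Or.inl (ih.sideG x h)
      · rw [sides_union]; exact Or.inr (ih'.sideG x h)
      · rw [sides_union]
        rcases h with rfl | h
        · exact Or.inl heF
        · rw [Set.mem_singleton_iff] at h
          rw [h]; exact Or.inr heF'
    · intro x hx
      rw [List.map_append, List.mem_append] at hx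
      rw [sides_union]
      rcases hx with hx | hx
      · exact Or.inl (hsu x hx)
      · exact Or.inr (hsv x hx)
  | @zip F G u v e a _ ih =>
    have hnd := ih.nodup
    rw [List.map_append, List.map_cons, List.map_cons] at hnd
    have hmem : ∀ x ∈ (u ++ v).map Prod.fst,
        x ∈ (u ++ (e, a) :: (e.swap, a - 2) :: v).map Prod.fst := by
      intro x hx
      rw [List.map_append, List.mem_append] at hx
      rw [List.map_append, List.mem_append, List.map_cons, List.map_cons]
      rcases hx with hx | hx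
      · exact Or.inl hx
      · exact Or.inr (List.mem_cons_of_mem _ (List.mem_cons_of_mem _ hx))
    have heF : e ∈ Sides Q F := ih.sideW e (by simp)
    have heF' : e.swap ∈ Sides Q F := ih.sideW _ (by simp)
    obtain ⟨hn1, hn2, hn3⟩ := List.nodup_append.1 hnd
    have hu : e ∉ u.map Prod.fst := fun h => hn3 e h e (by simp) rfl
    have hu' : e.swap ∉ u.map Prod.fst := fun h => hn3 _ h e.swap (by simp) rfl
    have hv : e ∉ v.map Prod.fst := fun h =>
      (List.nodup_cons.1 hn2).1 (List.mem_cons_of_mem _ h)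
    have hv' : e.swap ∉ v.map Prod.fst := (List.nodup_cons.1 (List.nodup_cons.1 hn2).2).1
    refine ⟨?_, ?_, ?_, ?_, ?_, ?_⟩
    · intro x hx
      rcases ih.cover x hx with h | h
      · rw [List.map_append, List.mem_append, List.map_cons, List.map_cons, List.mem_cons,
          List.mem_cons] at h
        rw [List.map_append, List.mem_append]
        rcases h with h | h | h | h
        · exact Or.inl (Or.inl h)
        · right; right
          rw [h]; exact Set.mem_insert _ _
        · right; right
          rw [h]; exact Set.mem_insert_of_mem _ rfl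
        · exact Or.inl (Or.inr h)
      · exact Or.inr (Or.inl h)
    · rw [List.map_append, List.nodup_append]
      refine ⟨hn1, (List.nodup_cons.1 (List.nodup_cons.1 hn2).2).2, ?_⟩
      intro x hx y hy
      exact hn3 x hx y (List.mem_cons_of_mem _ (List.mem_cons_of_mem _ hy))
    · intro x hx
      rintro (h | h)
      · exact ih.notG x (hmem x hx) h
      · rw [List.map_append, List.mem_append] at hx
        rcases h with h | h
        · rcases hx with hx | hx
          · exact hu (h ▸ hx)
          · exact hv (h ▸ hx)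
        · rcases hx with hx | hx
          · exact hu' (h ▸ hx)
          · exact hv' (h ▸ hx)
    · rintro x (h | h)
      · exact Or.inl (ih.symm x h)
      · right
        rcases h with rfl | h
        · exact Set.mem_insert_of_mem _ rfl
        · rw [Set.mem_singleton_iff] at h
          rw [h, Prod.swap_swap]; exact Set.mem_insert _ _
    · rintro x (h | h)
      · exact ih.sideG x h
      · rcases h with rfl | h
        · exact heF
        · rw [Set.mem_singleton_iff] at h
          rw [h]; exact heF'
    · intro x hx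
      exact ih.sideW x (hmem x hx)
  | @rot F G u e a _ ih =>
    have hm : (u ++ [(e, a + 4)]).map Prod.fst = u.map Prod.fst ++ [e] := by simp
    have hm' : ((e, a) :: u).map Prod.fst = e :: u.map Prod.fst := by simp
    have hmem : ∀ x, x ∈ (u ++ [(e, a + 4)]).map Prod.fst ↔ x ∈ ((e, a) :: u).map Prod.fst := by
      intro x
      rw [hm, hm']
      simp only [List.mem_append, List.mem_cons, List.not_mem_nil, or_false]
      exact or_comm
    refine ⟨?_, ?_, ?_, ih.symm, ih.sideG, ?_⟩
    · intro x hx
      rw [hmem]; exact ih.cover x hx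
    · rw [hm]
      have := ih.nodup
      rw [hm'] at this
      exact (List.perm_append_singleton e (u.map Prod.fst)).nodup_iff.2 this
    · intro x hx
      exact ih.notG x ((hmem x).1 hx)
    · intro x hx
      exact ih.sideW x ((hmem x).1 hx)
  | @shift F G u c _ ih =>
    have hm : (u.map fun x => (x.1, x.2 + c)).map Prod.fst = u.map Prod.fst := by
      rw [List.map_map]; rfl
    refine ⟨?_, ?_, ?_, ih.symm, ih.sideG, ?_⟩
    · rw [hm]; exact ih.cover
    · rw [hm]; exact ih.nodup
    · rw [hm]; exact ih.notG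
    · rw [hm]; exact ih.sideW

/-- The walk from the side `x` of the word to the later side `y`. -/
def AW (Q : QC V Φ) (ω : Φ → Bool) (F : Set Φ) (G : Set (V × V)) (x y : (V × V) × ℤ) : Prop :=
  ∃ n, Walk Q ω F G n x.1 y.1.swap (y.2 - x.2 - 2)

theorem AW.mono {x y : (V × V) × ℤ} (h : AW Q ω F G x y) (hF : F ⊆ F') (hG : G ⊆ G') :
    AW Q ω F' G' x y := h.imp fun _ h => h.mono hF hG

/-- ARCS OF A DISC: the strands match the sides of the word without crossings, with turning
`y.2 - x.2 - 2` from an earlier side `x` to a later side `y`. -/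
theorem Disc.arcs (h : Disc Q F G w) (ω : Φ → Bool) : NCM (AW Q ω F G) w := by
  induction h with
  | face f k a =>
    by_cases h : ω f = ev k
    · have h1 : mt (ω f) k = k + 1 := if_pos h
      have h2 : qk (ω f) k = -1 := if_pos h
      have h' : ω f = ev (k + 2) := by rw [ev_add_two, h]
      have h3 : mt (ω f) (k + 2) = k + 2 + 1 := if_pos h'
      have h4 : qk (ω f) (k + 2) = -1 := if_pos h'
      have w1 : Walk Q ω {f} ∅ 1 (sd Q f k) (sd Q f (k + 1)).swap (-1) :=
        Walk.one ⟨f, rfl, k, rfl, by rw [h1], h2.symm⟩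
      have w2 : Walk Q ω {f} ∅ 1 (sd Q f (k + 2)) (sd Q f (k + 3)).swap (-1) :=
        Walk.one ⟨f, rfl, k + 2, rfl, by rw [h3, z7], h4.symm⟩
      have r1 : AW Q ω {f} ∅ (sd Q f k, a) (sd Q f (k + 1), a + 1) :=
        ⟨1, w1.cast rfl (by ring)⟩
      have r2 : AW Q ω {f} ∅ (sd Q f (k + 2), a + 2) (sd Q f (k + 3), a + 3) :=
        ⟨1, w2.cast rfl (by ring)⟩
      exact NCM.cons (s := []) r1 NCM.nil (NCM.cons (s := []) r2 NCM.nil NCM.nil)
    · have h1 : mt (ω f) k = k + 3 := if_neg h
      have h2 : qk (ω f) k = 1 := if_neg h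
      have h' : ω f = ev (k + 1) := by
        rw [ev_add_one]; cases h2 : ω f <;> cases h3 : ev k <;> simp_all
      have h3 : mt (ω f) (k + 1) = k + 1 + 1 := if_pos h'
      have h4 : qk (ω f) (k + 1) = -1 := if_pos h'
      have w1 : Walk Q ω {f} ∅ 1 (sd Q f k) (sd Q f (k + 3)).swap 1 :=
        Walk.one ⟨f, rfl, k, rfl, by rw [h1], h2.symm⟩
      have w2 : Walk Q ω {f} ∅ 1 (sd Q f (k + 1)) (sd Q f (k + 2)).swap (-1) :=
        Walk.one ⟨f, rfl, k + 1, rfl, by rw [h3, z1], h4.symm⟩
      have r1 : AW Q ω {f} ∅ (sd Q f k, a) (sd Q f (k + 3), a + 3) :=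
        ⟨1, w1.cast rfl (by ring)⟩
      have r2 : AW Q ω {f} ∅ (sd Q f (k + 1), a + 1) (sd Q f (k + 2), a + 2) :=
        ⟨1, w2.cast rfl (by ring)⟩
      exact NCM.cons (s := [_, _]) r1 (NCM.cons (s := []) r2 NCM.nil NCM.nil) NCM.nil
  | @join F F' G G' u v e a _ _ hd ih ih' =>
    have hG : G ⊆ G ∪ G' ∪ {e, e.swap} := fun x h => Or.inl (Or.inl h)
    have hG' : G' ⊆ G ∪ G' ∪ {e, e.swap} := fun x h => Or.inl (Or.inr h)
    have hes : e.swap ∈ G ∪ G' ∪ {e, e.swap} := Or.inr (Set.mem_insert_of_mem _ rfl)
    have h1 := ih.mono fun x y h => h.mono (F' := F ∪ F') Set.subset_union_left hG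
    have h2 := ih'.mono fun x y h => h.mono (F' := F ∪ F') Set.subset_union_right hG'
    refine NCM.join h1 h2 (fun _ _ h => h) ?_
    rintro p q ⟨n, hp⟩ ⟨m, hq⟩
    exact ⟨n + m, (hp.comp hes hq).cast rfl (by ring)⟩
  | @zip F G u v e a hD ih =>
    have hi := (Disc.zip hD).inv
    have hG : G ⊆ G ∪ {e, e.swap} := fun x h => Or.inl h
    have he : e ∈ G ∪ {e, e.swap} := Or.inr (Set.mem_insert _ _)
    have hes : e.swap ∈ G ∪ {e, e.swap} := Or.inr (Set.mem_insert_of_mem _ rfl)
    have h1 := ih.mono fun x y h => h.mono (F' := F) subset_rfl hG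
    refine NCM.zip (fun _ _ h => h) ?_ ?_ ?_ h1 rfl
    · rintro p q ⟨n, hp⟩ ⟨m, hq⟩
      exact ⟨n + m, (hp.comp hes hq).cast rfl (by ring)⟩
    · rintro p q ⟨n, hp⟩ ⟨m, hq⟩
      have h2 := hp.rev hi.symm
      rw [Prod.swap_swap] at h2 hq
      exact ⟨m + n, (hq.comp he h2).cast rfl (by ring)⟩
    · rintro p q ⟨n, hp⟩ ⟨m, hq⟩
      have h2 := hq.rev hi.symm
      rw [Prod.swap_swap, Prod.swap_swap] at h2
      exact ⟨m + n, (h2.comp he hp).cast rfl (by ring)⟩
  | @rot F G u e a hD ih =>
    refine ih.rot (fun _ _ h => h) ?_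
    rintro y ⟨n, h⟩
    have h2 := h.rev hD.inv.symm
    rw [Prod.swap_swap] at h2
    exact ⟨n, h2.cast rfl (by ring)⟩
  | @shift F G u c _ ih =>
    refine ih.map ?_
    rintro x y ⟨n, h⟩
    exact ⟨n, h.cast rfl (by ring)⟩

end Pool.Agent.SixB
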