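import Pool.Agent.Lib.SixB.S0Arcs
import Pool.Agent.Lib.SixB.S0Disc

/-!
# 6BD step 0: walks, strands, mates

Links `Walk` (chains of steps with their turning) with the strands `dst`, `turn`, `mate`.
* `Walk.mate_turn` (L1): a walk from an initial `a` to a final `b` with turning `t`: `mate a = b.swap`,
  `turn a = t`;
* `closed_walk` (L2): a closed strand `X ∋ a` is a minimal closed walk from `a` to `a` with turning
  `tX X`;
* `tX_of_closed_walk`: the converse;
* `Disc.mates` (L3): the mates and the turnings of the boundary sides of a disc.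
-/

set_option autoImplicit false
set_option linter.unusedSectionVars false

namespace Pool.Agent.SixB

open Pool.Agent.Perc.Q Relation

noncomputable section

variable {V Φ : Type} [DecidableEq V] [DecidableEq Φ]
variable {Q : QC V Φ} {F : Finset Φ} {ω : Φ → Bool} {a b c : V × V} {X : Finset (V × V)}
  {G : Set (V × V)} {n m : ℕ} {t s : ℤ}

theorem St.qt_eq (h : St Q ω (F : Set Φ) a b t) : t = qt Q F ω a := by
  obtain ⟨f, hf, k, rfl, -, rfl⟩ := h
  exact (qt_sd (by exact_mod_cast hf) k).symm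

/-- a walk as a sequence -/
theorem Walk.seq (h : Walk Q ω (F : Set Φ) G n a b t) : ∃ c : ℕ → V × V, c 0 = a ∧ c n = b ∧
    (∀ i < n, Nx Q ω (F : Set Φ) (c i) (c (i + 1))) ∧ t = ∑ i ∈ Finset.range n, qt Q F ω (c i) := by
  induction h with
  | @one a b t h =>
    refine ⟨fun i => if i = 0 then a else b, rfl, rfl, ?_, ?_⟩
    · intro i hi
      obtain rfl : i = 0 := by omega
      exact nx_iff.mpr ⟨t, h⟩
    · simp [h.qt_eq]
  | @tail n a b d t s h hb h' ih =>
    obtain ⟨c, h1, h2, h3, h4⟩ := ih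
    refine ⟨fun i => if i ≤ n then c i else d, ?_, ?_, ?_, ?_⟩
    · simp [h1]
    · simp
    · intro i hi
      rcases Nat.lt_succ_iff_lt_or_eq.mp hi with hi | rfl
      · have e1 : (if i ≤ n then c i else d) = c i := if_pos (by omega)
        have e2 : (if i + 1 ≤ n then c (i + 1) else d) = c (i + 1) := if_pos (by omega)
        simp only [e1, e2]
        exact h3 i hi
      · have e1 : (if i ≤ i then c i else d) = b := by rw [if_pos le_rfl, h2]
        have e2 : (if i + 1 ≤ i then c (i + 1) else d) = d := if_neg (by omega)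
        show Nx Q ω (F : Set Φ) (if i ≤ i then c i else d) (if i + 1 ≤ i then c (i + 1) else d)
        rw [e1, e2]
        exact nx_iff.mpr ⟨s, h'⟩
    · rw [Finset.sum_range_succ]
      show t + s = ∑ x ∈ Finset.range n, qt Q F ω (if x ≤ n then c x else d) +
        qt Q F ω (if n ≤ n then c n else d)
      have e1 : (if n ≤ n then c n else d) = b := by rw [if_pos le_rfl, h2]
      rw [e1, ← h'.qt_eq, h4]
      congr 1
      refine Finset.sum_congr rfl fun i hi => ?_
      rw [if_pos (Finset.mem_range.mp hi).le]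

/-- a sequence as a walk -/
theorem walk_of_seq (c : ℕ → V × V) (n : ℕ) (h : ∀ i < n + 1, Nx Q ω (F : Set Φ) (c i) (c (i + 1)))
    (hG : ∀ i, 0 < i → i < n + 1 → c i ∈ G) :
    Walk Q ω (F : Set Φ) G (n + 1) (c 0) (c (n + 1)) (∑ i ∈ Finset.range (n + 1), qt Q F ω (c i)) := by
  induction n with
  | zero =>
    obtain ⟨t, ht⟩ := nx_iff.mp (h 0 (by omega))
    have := Walk.one (G := G) ht
    rw [ht.qt_eq] at this
    simpa using this
  | succ n ih =>
    have h1 := ih (fun i hi => h i (by omega)) (fun i h0 hi => hG i h0 (by omega))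
    obtain ⟨t, ht⟩ := nx_iff.mp (h (n + 1) (by omega))
    have h2 := Walk.tail h1 (hG (n + 1) (by omega) (by omega)) ht
    rw [Finset.sum_range_succ, ← ht.qt_eq]
    exact h2

/-- two chains of steps from the same place agree -/
theorem seq_det (c d : ℕ → V × V) {i j : ℕ} (hij : c i = d j) :
    ∀ l, (∀ x < l, Nx Q ω (F : Set Φ) (c (i + x)) (c (i + x + 1))) →
      (∀ x < l, Nx Q ω (F : Set Φ) (d (j + x)) (d (j + x + 1))) → c (i + l) = d (j + l) := by
  intro l
  induction l with
  | zero => intro _ _; exact hij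
  | succ l ih =>
    intro h1 h2
    have h3 := ih (fun x hx => h1 x (by omega)) (fun x hx => h2 x (by omega))
    have h4 := h1 l (by omega)
    have h5 := h2 l (by omega)
    rw [h3] at h4
    exact h4.unique h5

theorem seq_rtg (c : ℕ → V × V) (h : ∀ i < n, Nx Q ω (F : Set Φ) (c i) (c (i + 1))) :
    ∀ i ≤ n, ReflTransGen (Nx Q ω (F : Set Φ)) (c 0) (c i) := by
  intro i
  induction i with
  | zero => intro _; exact ReflTransGen.refl
  | succ i ih => intro hi; exact (ih (by omega)).tail (h i (by omega))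

/-- **L1.** -/
theorem Walk.mate_turn (h : Walk Q ω (F : Set Φ) G n a b t) (ha : Ini Q (F : Set Φ) a)
    (hb : Ter Q (F : Set Φ) b) : mate Q F ω a = b.swap ∧ turn Q F ω a = t := by
  have hn := h.pos
  obtain ⟨c, h1, h2, h3, h4⟩ := h.seq
  have hr := seq_rtg c h3
  have hab : SRel Q F ω a b := srel_iff.mpr (Or.inl (by rw [← h1, ← h2]; exact hr n le_rfl))
  refine ⟨mate_unique ha hb hab, ?_⟩
  have hinj : ∀ i j, i < j → j ≤ n → c i ≠ c j := by
    intro i j hij hj he
    have h5 := seq_det (Q := Q) (F := F) (ω := ω) c c he (n - j)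
      (fun x hx => h3 _ (by omega)) (fun x hx => h3 _ (by omega))
    rw [show j + (n - j) = n by omega, h2] at h5
    have h6 := h3 (i + (n - j)) (by omega)
    rw [h5] at h6
    exact ter_nx hb h6
  have hset : dst Q F ω a = (Finset.range (n + 1)).image c := by
    ext d
    rw [mem_dst, Finset.mem_image]
    constructor
    · rintro ⟨-, hd⟩
      rcases srel_iff.mp hd with hd | hd
      · induction hd with
        | refl => exact ⟨0, Finset.mem_range.mpr (by omega), h1⟩
        | tail hd1 hd2 ih =>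
          obtain ⟨i, hi, rfl⟩ := ih (srel_iff.mpr (Or.inl hd1))
          have hi' := Finset.mem_range.mp hi
          rcases Nat.lt_succ_iff_lt_or_eq.mp hi' with hi' | rfl
          · exact ⟨i + 1, Finset.mem_range.mpr (by omega), (h3 i hi').unique hd2⟩
          · rw [h2] at hd2
            exact absurd hd2 (ter_nx hb)
      · rcases ReflTransGen.cases_tail hd with hd | ⟨e, -, hd⟩
        · exact ⟨0, Finset.mem_range.mpr (by omega), by rw [h1, hd]⟩
        · exact absurd hd (ini_nx ha)
    · rintro ⟨i, hi, rfl⟩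
      have hi' := Finset.mem_range.mp hi
      have h5 : SRel Q F ω a (c i) := srel_iff.mpr (Or.inl (by rw [← h1]; exact hr i (by omega)))
      refine ⟨srel_dE h5 ?_, h5⟩
      rw [← h1]
      exact Nx.left_mem (h3 0 (by omega))
  unfold turn tX
  rw [hset, Finset.sum_image, Finset.sum_range_succ, h2, qt_ter hb, add_zero, h4]
  intro i hi j hj hij
  by_contra hne
  rcases Nat.lt_or_gt_of_ne hne with h5 | h5
  · exact hinj i j h5 (by have := Finset.mem_coe.mp hj; rw [Finset.mem_range] at this; omega) hij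
  · exact hinj j i h5 (by have := Finset.mem_coe.mp hi; rw [Finset.mem_range] at this; omega) hij.symm

/-- a minimal closed walk is the whole strand -/
theorem tX_of_closed_walk (h : Walk Q ω (F : Set Φ) G n a a t)
    (hmin : ∀ m s, 0 < m → m < n → ¬ Walk Q ω (F : Set Φ) Set.univ m a a s) :
    turn Q F ω a = t := by
  have hn := h.pos
  obtain ⟨c, h1, h2, h3, h4⟩ := h.seq
  have hr := seq_rtg c h3
  have hinj : ∀ i j, i < j → j < n → c i ≠ c j := by
    intro i j hij hj he
    have h5 := seq_det (Q := Q) (F := F) (ω := ω) c c he (n - j)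
      (fun x hx => h3 _ (by omega)) (fun x hx => h3 _ (by omega))
    rw [show j + (n - j) = n by omega, h2] at h5
    obtain ⟨m, hm⟩ : ∃ m, i + (n - j) = m + 1 := ⟨i + (n - j) - 1, by omega⟩
    rw [hm] at h5
    have h6 := walk_of_seq (Q := Q) (F := F) (ω := ω) (G := Set.univ) c m
      (fun x hx => h3 _ (by omega)) (fun _ _ _ => Set.mem_univ _)
    rw [h1, h5] at h6
    exact hmin _ _ (by omega) (by omega) h6
  have hset : dst Q F ω a = (Finset.range n).image c := by
    ext d
    rw [mem_dst, Finset.mem_image]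
    constructor
    · rintro ⟨-, hd⟩
      rcases srel_iff.mp hd with hd | hd
      · clear hinj
        induction hd with
        | refl => exact ⟨0, Finset.mem_range.mpr (by omega), h1⟩
        | tail hd1 hd2 ih =>
          obtain ⟨i, hi, rfl⟩ := ih (srel_iff.mpr (Or.inl hd1))
          have hi' := Finset.mem_range.mp hi
          have h7 := (h3 i hi').unique hd2
          rcases Nat.lt_or_ge (i + 1) n with h8 | h8
          · exact ⟨i + 1, Finset.mem_range.mpr h8, h7⟩
          · refine ⟨0, Finset.mem_range.mpr (by omega), ?_⟩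
            rw [← h7, show i + 1 = n by omega, h2, h1]
      · clear hinj
        induction hd using ReflTransGen.head_induction_on with
        | refl => exact ⟨0, Finset.mem_range.mpr (by omega), h1⟩
        | head hd1 hd2 ih =>
          obtain ⟨i, hi, he⟩ := ih (srel_iff.mpr (Or.inr hd2))
          have hi' := Finset.mem_range.mp hi
          rw [← he] at hd1
          rcases Nat.eq_zero_or_pos i with rfl | h8
          · rw [h1, ← h2] at hd1
            have h9 := h3 (n - 1) (by omega)
            rw [show n - 1 + 1 = n by omega] at h9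
            exact ⟨n - 1, Finset.mem_range.mpr (by omega), h9.inj hd1⟩
          · have h9 := h3 (i - 1) (by omega)
            rw [show i - 1 + 1 = i by omega] at h9
            exact ⟨i - 1, Finset.mem_range.mpr (by omega), h9.inj hd1⟩
    · rintro ⟨i, hi, rfl⟩
      have hi' := Finset.mem_range.mp hi
      have h5 : SRel Q F ω a (c i) := srel_iff.mpr (Or.inl (by rw [← h1]; exact hr i (by omega)))
      refine ⟨srel_dE h5 ?_, h5⟩
      rw [← h1]
      exact Nx.left_mem (h3 0 (by omega))
  unfold turn tX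
  rw [hset, Finset.sum_image, h4]
  intro i hi j hj hij
  by_contra hne
  have hi' : i < n := by simpa using hi
  have hj' : j < n := by simpa using hj
  rcases Nat.lt_or_gt_of_ne hne with h5 | h5
  · exact hinj i j h5 hj' hij
  · exact hinj j i h5 hi' hij.symm

theorem closed_succ (hX : X ∈ dstr Q F ω) (h : ∀ a ∈ X, ¬ Ini Q (F : Set Φ) a) (ha : a ∈ X) :
    ∃ b ∈ X, Nx Q ω (F : Set Φ) a b := by
  by_contra hcon
  push Not at hcon
  have h1 : Ter Q (F : Set Φ) a := by
    intro f hf k hk
    have hf' : f ∈ F := by exact_mod_cast hf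
    have h2 := nx_mt (ω := ω) (Q := Q) hf' k
    have h3 : a = sd Q f k := hk
    rw [← h3] at h2
    exact hcon _ ((mem_step hX h2).mp ha) h2
  obtain ⟨c, hc, hc'⟩ := ini_of_ter hX ha h1
  exact h c hc hc'

/-- the elements of a closed strand are sides in both directions -/
theorem closed_sides (hX : X ∈ dstr Q F ω) (h : ∀ a ∈ X, ¬ Ini Q (F : Set Φ) a) (ha : a ∈ X) :
    (∃ f ∈ F, ∃ k, a = sd Q f k) ∧ ∃ f ∈ F, ∃ k, a.swap = sd Q f k := by
  constructor
  · obtain ⟨b, -, f, hf, k, rfl, -⟩ := closed_succ hX h ha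
    exact ⟨f, by exact_mod_cast hf, k, rfl⟩
  · have h1 := h a ha
    unfold Ini at h1
    push Not at h1
    obtain ⟨f, hf, k, hk⟩ := h1
    exact ⟨f, by exact_mod_cast hf, k, by rw [hk]; rfl⟩

/-- **L2.** -/
theorem closed_walk (hX : X ∈ dstr Q F ω) (h : ∀ a ∈ X, ¬ Ini Q (F : Set Φ) a) (ha : a ∈ X)
    (hG : ∀ b ∈ X, b ∈ G) :
    ∃ n, Walk Q ω (F : Set Φ) G n a a (tX Q F ω X) ∧
      ∀ m s, 0 < m → m < n → ¬ Walk Q ω (F : Set Φ) Set.univ m a a s := by
  classical
  have hs : ∀ x : X, ∃ y : X, Nx Q ω (F : Set Φ) x y := by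
    rintro ⟨x, hx⟩
    obtain ⟨y, hy, hxy⟩ := closed_succ hX h hx
    exact ⟨⟨y, hy⟩, hxy⟩
  choose g hg using hs
  let c : ℕ → X := fun i => g^[i] ⟨a, ha⟩
  have hc : ∀ i, Nx Q ω (F : Set Φ) (c i : V × V) (c (i + 1) : V × V) := by
    intro i
    have : c (i + 1) = g (c i) := Function.iterate_succ_apply' g i _
    rw [this]
    exact hg _
  have hback : ∀ i l, (c i : V × V) = c (i + l) → (c 0 : V × V) = c l := by
    intro i
    induction i with
    | zero => intro l hl; rw [hl, zero_add]
    | succ i ih =>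
      intro l hl
      apply ih
      have h1 := hc i
      have h2 := hc (i + l)
      rw [show i + l + 1 = i + 1 + l by omega, ← hl] at h2
      exact h1.inj h2
  obtain ⟨i, j, hij, he⟩ := Finite.exists_ne_map_eq_of_infinite c
  have hex : ∃ l, 0 < l ∧ (c l : V × V) = a := by
    rcases Nat.lt_or_gt_of_ne hij with h1 | h1
    · refine ⟨j - i, by omega, ?_⟩
      rw [← hback i (j - i) (by rw [show i + (j - i) = j by omega, he])]
      rfl
    · refine ⟨i - j, by omega, ?_⟩
      rw [← hback j (i - j) (by rw [show j + (i - j) = i by omega, he])]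
      rfl
  set n := Nat.find hex with hn
  obtain ⟨hn1, hn2⟩ := Nat.find_spec hex
  have hmin : ∀ m s, 0 < m → m < n → ¬ Walk Q ω (F : Set Φ) Set.univ m a a s := by
    intro m s hm hmn hw
    obtain ⟨d, h1, h2, h3, -⟩ := hw.seq
    refine Nat.find_min hex hmn ⟨hm, ?_⟩
    have h4 := seq_det (Q := Q) (F := F) (ω := ω) (fun i => (c i : V × V)) d (i := 0) (j := 0)
      (by rw [h1]; rfl) m (fun x _ => hc _) (fun x hx => by rw [zero_add]; exact h3 x hx)
    rw [zero_add] at h4
    rw [h4, h2]
  obtain ⟨l, hl⟩ : ∃ l, n = l + 1 := ⟨n - 1, by omega⟩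
  have hw := walk_of_seq (Q := Q) (F := F) (ω := ω) (G := G) (fun i => (c i : V × V)) l
    (fun i _ => hc i) (fun i _ _ => hG _ (c i).2)
  have hw' : Walk Q ω (F : Set Φ) G n a a
      (∑ i ∈ Finset.range n, qt Q F ω (c i)) := by
    have e : (c (l + 1) : V × V) = a := by rw [← hl]; exact hn2
    rw [e, ← hl] at hw
    exact hw
  refine ⟨n, ?_, hmin⟩
  have h5 := tX_of_closed_walk hw' hmin
  unfold turn at h5
  rw [← (dstr_of_mem hX ha).2] at h5
  rw [h5]
  exact hw'

/-! ## Discs -/

variable {w : List ((V × V) × ℤ)}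

/-- if the sides of the word are boundary sides, they are all boundary sides -/
theorem Disc.mem_bS (h : Disc Q (F : Set Φ) G w) (hw : ∀ e ∈ w.map Prod.fst, Ini Q (F : Set Φ) e) :
    a ∈ bS Q F ↔ a ∈ w.map Prod.fst := by
  have hi := h.inv
  constructor
  · intro ha
    obtain ⟨f, hf, k, hk⟩ := bS_sd ha
    rcases hi.cover a ⟨f, by exact_mod_cast hf, k, hk⟩ with h1 | h1
    · exact h1
    · obtain ⟨f', hf', k', hk'⟩ := hi.sideG _ (hi.symm _ h1)
      exact absurd (by rw [← Prod.swap_swap a, hk']; rfl) ((SixB.mem_bS.mp ha).2 f' hf' k')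
  · intro ha
    obtain ⟨f, hf, k, hk⟩ := hi.sideW a ha
    refine SixB.mem_bS.mpr ⟨?_, hw a ha⟩
    rw [hk]
    exact sd_mem (by exact_mod_cast hf) k

/-- the elements of a closed strand of a disc are glued sides -/
theorem Disc.closed_mem (h : Disc Q (F : Set Φ) G w) (hw : ∀ e ∈ w.map Prod.fst, Ini Q (F : Set Φ) e)
    (hX : X ∈ dstr Q F ω) (hX' : ∀ a ∈ X, ¬ Ini Q (F : Set Φ) a) (ha : a ∈ X) : a ∈ G := by
  obtain ⟨⟨f, hf, k, hk⟩, -⟩ := closed_sides hX hX' ha
  rcases h.inv.cover a ⟨f, by exact_mod_cast hf, k, hk⟩ with h1 | h1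
  · exact absurd (hw a h1) (hX' a ha)
  · exact h1

/-- **L3.** Mates and turnings of the boundary sides of a disc. -/
theorem Disc.mates (h : Disc Q (F : Set Φ) G w) (hw : ∀ e ∈ w.map Prod.fst, Ini Q (F : Set Φ) e)
    (ω : Φ → Bool) : ∃ M : ℕ → ℕ,
      (∀ i < w.length, M i < w.length ∧ M i ≠ i ∧ M (M i) = i) ∧
      (∀ i < w.length, ∀ j, i < j → j < M i → i < M j ∧ M j < M i) ∧
      ∀ i x y, w[i]? = some x → w[M i]? = some y → mate Q F ω x.1 = y.1 ∧
        turn Q F ω x.1 = y.2 - x.2 + (if i < M i then -2 else 2) := by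
  obtain ⟨M, h1, h2, h3⟩ := (h.arcs ω).exists_fun
  refine ⟨M, h1, h2, ?_⟩
  intro i x y hx hy
  have hi : i < w.length := by
    by_contra hc
    rw [List.getElem?_eq_none (by omega)] at hx
    cases hx
  have hmem : ∀ (j : ℕ) (z : (V × V) × ℤ), w[j]? = some z → z.1 ∈ w.map Prod.fst := fun j z hz =>
    List.mem_map_of_mem (List.mem_of_getElem? hz)
  obtain ⟨h4, h5, h6⟩ := h1 i hi
  rcases Nat.lt_or_gt_of_ne h5 with h7 | h7
  · rw [if_neg (by omega)]
    obtain ⟨n, hn⟩ := h3 (M i) h4 y x (by rw [h6]; exact h7) hy (by rw [h6]; exact hx)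
    obtain ⟨h8, h9⟩ := hn.mate_turn (hw _ (hmem _ _ hy)) (ter_swap.mpr (hw _ (hmem _ _ hx)))
    rw [Prod.swap_swap] at h8
    have hyb : y.1 ∈ bS Q F := (h.mem_bS hw).mpr (hmem _ _ hy)
    have h10 := mate_mate (ω := ω) hyb
    have h11 := turn_mate (ω := ω) hyb
    rw [h8] at h10 h11
    refine ⟨h10, ?_⟩
    rw [h11, h9]
    ring
  · rw [if_pos h7]
    obtain ⟨n, hn⟩ := h3 i hi x y h7 hx hy
    obtain ⟨h8, h9⟩ := hn.mate_turn (hw _ (hmem _ _ hx)) (ter_swap.mpr (hw _ (hmem _ _ hy)))
    rw [Prod.swap_swap] at h8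
    refine ⟨h8, ?_⟩
    rw [h9]
    ring

end

end Pool.Agent.SixB
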