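import Pool.Agent.Lib.SixB.S0Disc

/-!
# The loops of a disc

Every closed strand of a disc glued from squares, run through once, has turning `4` or `-4`.
-/

set_option autoImplicit false

namespace Pool.Agent.SixB

open Pool.Agent.Perc.Q

/-- The partner of an entry is after it or before it. -/
theorem NCM.split {α : Type} {R : α → α → Prop} {w : List α} (h : NCM R w) :
    ∀ {u : List α} {x : α} {v : List α}, w = u ++ x :: v →
      (∃ v1 y v2, v = v1 ++ y :: v2 ∧ R x y) ∨ ∃ u1 y u2, u = u1 ++ y :: u2 ∧ R y x := by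
  induction h with
  | nil =>
    intro u x v hw
    exact absurd hw.symm (by simp)
  | @cons a s b r hab hs hr ihs ihr =>
    intro u x v hw
    cases u with
    | nil =>
      rw [List.nil_append] at hw
      obtain ⟨hx, hv⟩ := List.cons.inj hw
      subst hx hv
      exact Or.inl ⟨s, b, r, rfl, hab⟩
    | cons c u' =>
      rw [List.cons_append] at hw
      obtain ⟨hx, hw1⟩ := List.cons.inj hw
      subst hx
      rcases List.append_eq_append_iff.1 hw1 with ⟨t, ht1, ht2⟩ | ⟨t, ht1, ht2⟩
      · cases t with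
        | nil =>
          rw [List.nil_append] at ht2
          obtain ⟨hx, hv⟩ := List.cons.inj ht2
          rw [← hx]
          exact Or.inr ⟨[], a, u', rfl, hab⟩
        | cons d t' =>
          rw [List.cons_append] at ht2
          obtain ⟨hx, ht3⟩ := List.cons.inj ht2
          rcases ihr ht3 with ⟨v1, y, v2, h1, h2⟩ | ⟨u1, y, u2, h1, h2⟩
          · exact Or.inl ⟨v1, y, v2, h1, h2⟩
          · refine Or.inr ⟨a :: (s ++ d :: u1), y, u2, ?_, h2⟩
            rw [ht1, h1]
            simp
      · cases t with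
        | nil =>
          rw [List.nil_append] at ht2
          obtain ⟨hx, hv⟩ := List.cons.inj ht2
          rw [hx]
          exact Or.inr ⟨[], a, u', rfl, hab⟩
        | cons d t' =>
          rw [List.cons_append] at ht2
          obtain ⟨hx, ht3⟩ := List.cons.inj ht2
          subst hx
          rcases ihs ht1 with ⟨v1, y, v2, h1, h2⟩ | ⟨u1, y, u2, h1, h2⟩
          · refine Or.inl ⟨v1, y, v2 ++ b :: r, ?_, h2⟩
            rw [ht3, h1]
            simp
          · exact Or.inr ⟨a :: u1, y, u2, by rw [h1]; rfl, h2⟩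

variable {V Φ : Type} {Q : QC V Φ} {ω : Φ → Bool} {F F' : Set Φ} {G G' : Set (V × V)}
  {a b c e : V × V} {f g : Φ} {k l : ZMod 4} {s t : ℤ} {m n : ℕ} {w w' u v : List ((V × V) × ℤ)}

theorem mem_sides_of_st (h : St Q ω F a b t) : a ∈ Sides Q F ∧ b.swap ∈ Sides Q F := by
  obtain ⟨f, hf, k, rfl, rfl, -⟩ := h
  exact ⟨⟨f, hf, k, rfl⟩, ⟨f, hf, _, by rw [Prod.swap_swap]⟩⟩

theorem Walk.first' (h : Walk Q ω F G n a b t) : a ∈ Sides Q F := h.first

theorem Walk.last' (h : Walk Q ω F G n a b t) : b.swap ∈ Sides Q F := by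
  obtain ⟨f, hf, k, rfl⟩ := h.last
  exact ⟨f, hf, k, by rw [Prod.swap_swap]⟩

/-- A walk in two complexes glued along one side stays in the first or crosses the side. -/
theorem walk_join (hd : Disjoint F F') (h1 : ∀ e ∈ G', e.swap ∈ G') (h2 : ∀ e ∈ G', e ∈ Sides Q F')
    {X : Set (V × V)} (h : Walk Q ω (F ∪ F') (G ∪ G' ∪ X) n a b t) (ha : a ∈ Sides Q F)
    (hG : ∀ e ∈ G, e ∈ Sides Q F) :
    Walk Q ω F G n a b t ∨
      ∃ m < n, ∃ c s, Walk Q ω (F ∪ F') (G ∪ G' ∪ X) m a c s ∧ c ∈ X := by
  have hst : ∀ {a b : V × V} {t : ℤ}, St Q ω (F ∪ F') a b t → a ∈ Sides Q F → St Q ω F a b t := by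
    rintro a b t ⟨f, hf, k, rfl, h⟩ ha
    rcases hf with hf | hf
    · exact ⟨f, hf, k, rfl, h⟩
    · exact absurd ⟨f, hf, k, rfl⟩ (sides_disj hd ha)
  induction h with
  | one h => exact Or.inl (Walk.one (hst h ha))
  | @tail n a b c t s h hb h' ih =>
    rcases ih ha with h3 | ⟨m, hm, d, s', h4, h5⟩
    · rcases hb with (hb | hb) | hb
      · exact Or.inl (Walk.tail h3 hb (hst h' (hG b hb)))
      · exact absurd (h2 _ (h1 _ hb)) (sides_disj hd h3.last')
      · exact Or.inr ⟨n, Nat.lt_succ_self n, b, t, h, hb⟩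
    · exact Or.inr ⟨m, by omega, d, s', h4, h5⟩

theorem walk_zip {X : Set (V × V)} (h : Walk Q ω F (G ∪ X) n a b t) :
    Walk Q ω F G n a b t ∨ ∃ m < n, ∃ c s, Walk Q ω F (G ∪ X) m a c s ∧ c ∈ X := by
  induction h with
  | one h => exact Or.inl (Walk.one h)
  | @tail n a b c t s h hb h' ih =>
    rcases ih with h3 | ⟨m, hm, d, s', h4, h5⟩
    · rcases hb with hb | hb
      · exact Or.inl (Walk.tail h3 hb h')
      · exact Or.inr ⟨n, Nat.lt_succ_self n, b, t, h, hb⟩
    · exact Or.inr ⟨m, by omega, d, s', h4, h5⟩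

/-- LOOPS OF A DISC: a closed strand which is run through once has turning `4` or `-4`. -/
theorem Disc.loop (h : Disc Q F G w) (ω : Φ → Bool) : ∀ {e : V × V} {n : ℕ} {t : ℤ}, e ∈ G →
    Walk Q ω F G n e e t → (∀ m < n, ∀ s, ¬ Walk Q ω F G m e e s) → t = 4 ∨ t = -4 := by
  induction h with
  | face f k a =>
    intro e n t he
    exact absurd he (Set.notMem_empty _)
  | @join F F' G G' u v e a hD hD' hd ih ih' =>
    intro e1 n t he1 hw hmin
    have hi := hD.inv
    have hi' := hD'.inv
    have hnew := (Disc.join hD hD' hd).inv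
    set GG : Set (V × V) := G ∪ G' ∪ {e, e.swap} with hGG
    have hG : G ⊆ GG := fun x h => Or.inl (Or.inl h)
    have hG' : G' ⊆ GG := fun x h => Or.inl (Or.inr h)
    have heG : e ∈ GG := Or.inr (Set.mem_insert _ _)
    have hesG : e.swap ∈ GG := Or.inr (Set.mem_insert_of_mem _ rfl)
    have hout : ∀ x ∈ u ++ v, x.1.swap ∉ GG := by
      intro x hx h
      have h1 := hnew.symm _ h
      rw [Prod.swap_swap] at h1
      exact hnew.notG x.1 (List.mem_map_of_mem hx) h1
    have no1 : ∀ m s, ¬ Walk Q ω (F ∪ F') GG m e e s := by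
      intro m s
      rcases (hD.arcs ω).split (u := u) (x := (e, a)) (v := []) rfl with
        ⟨v1, y, v2, h1, -⟩ | ⟨u1, y, u2, h1, n1, h2⟩
      · exact absurd h1.symm (by simp)
      · have h3 := (h2.mono (F' := F ∪ F') Set.subset_union_left hG).rev hnew.symm
        rw [Prod.swap_swap] at h3
        exact h3.not_closed (hout y (by rw [h1]; simp)) heG
    have no2 : ∀ m s, ¬ Walk Q ω (F ∪ F') GG m e.swap e.swap s := by
      intro m s
      rcases (hD'.arcs ω).split (u := []) (x := (e.swap, a - 2)) (v := v) rfl with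
        ⟨v1, y, v2, h1, n1, h2⟩ | ⟨u1, y, u2, h1, -⟩
      · have h3 := h2.mono (F' := F ∪ F') Set.subset_union_right hG'
        exact h3.not_closed (hout y (by rw [h1]; simp)) hesG
      · exact absurd h1.symm (by simp)
    have noX : ∀ c ∈ ({e, e.swap} : Set (V × V)), ∀ m s, ¬ Walk Q ω (F ∪ F') GG m c c s := by
      rintro c (rfl | rfl)
      · exact no1
      · exact no2
    rcases he1 with (he1 | he1) | he1
    · rcases walk_join hd hi'.symm hi'.sideG hw (hi.sideG _ he1) hi.sideG with
        h1 | ⟨m, hm, c, s, h2, h3⟩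
      · refine ih he1 h1 ?_
        intro m hm s h2
        exact hmin m hm s (h2.mono Set.subset_union_left hG)
      · exact absurd (hw.rotate (hG he1) h2 hm).2 (noX c h3 _ _)
    · have hcomm : F ∪ F' = F' ∪ F := Set.union_comm _ _
      have hGc : GG = G' ∪ G ∪ {e, e.swap} := by rw [hGG, Set.union_comm G G']
      have hw' : Walk Q ω (F' ∪ F) (G' ∪ G ∪ {e, e.swap}) n e1 e1 t := by
        rw [← hcomm, ← hGc]; exact hw
      rcases walk_join hd.symm hi.symm hi.sideG hw' (hi'.sideG _ he1) hi'.sideG with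
        h1 | ⟨m, hm, c, s, h2, h3⟩
      · refine ih' he1 h1 ?_
        intro m hm s h2
        exact hmin m hm s (h2.mono Set.subset_union_right hG')
      · rw [← hcomm, ← hGc] at h2
        exact absurd (hw.rotate (hG' he1) h2 hm).2 (noX c h3 _ _)
    · exact absurd hw (noX e1 he1 _ _)
  | @zip F G u v e a hD ih =>
    intro e1 n t he1 hw hmin
    have hi := hD.inv
    have hnew := (Disc.zip hD).inv
    set GG : Set (V × V) := G ∪ {e, e.swap} with hGG
    have hG : G ⊆ GG := fun x h => Or.inl h
    have heG : e ∈ GG := Or.inr (Set.mem_insert _ _)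
    have hesG : e.swap ∈ GG := Or.inr (Set.mem_insert_of_mem _ rfl)
    have hout : ∀ x ∈ u ++ v, x.1.swap ∉ GG := by
      intro x hx h
      have h1 := hnew.symm _ h
      rw [Prod.swap_swap] at h1
      exact hnew.notG x.1 (List.mem_map_of_mem hx) h1
    have heold : e ∉ G := hi.notG e (by simp)
    have hesold : e.swap ∉ G := hi.notG _ (by simp)
    -- the walks from the two sides of the seam
    have w1 : (∃ n1, Walk Q ω F G n1 e e (-4)) ∨ ∀ m s, ¬ Walk Q ω F GG m e e s := by
      rcases (hD.arcs ω).split (u := u) (x := (e, a)) (v := (e.swap, a - 2) :: v) rfl with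
        ⟨v1, y, v2, h1, n1, h2⟩ | ⟨u1, y, u2, h1, n1, h2⟩
      · cases v1 with
        | nil =>
          rw [List.nil_append] at h1
          obtain ⟨h3, -⟩ := List.cons.inj h1
          left
          refine ⟨n1, ?_⟩
          rw [← h3, Prod.swap_swap] at h2
          exact h2.cast rfl (by ring)
        | cons z v1' =>
          right
          intro m s
          rw [List.cons_append] at h1
          obtain ⟨-, h3⟩ := List.cons.inj h1
          exact (h2.mono subset_rfl hG).not_closed (hout y (by rw [h3]; simp)) heG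
      · right
        intro m s
        have h3 := (h2.mono (F' := F) subset_rfl hG).rev hnew.symm
        rw [Prod.swap_swap] at h3
        exact h3.not_closed (hout y (by rw [h1]; simp)) heG
    have w2 : (∃ n1, Walk Q ω F G n1 e.swap e.swap 4) ∨
        ∀ m s, ¬ Walk Q ω F GG m e.swap e.swap s := by
      rcases (hD.arcs ω).split (u := u ++ [(e, a)]) (x := (e.swap, a - 2)) (v := v) (by simp) with
        ⟨v1, y, v2, h1, n1, h2⟩ | ⟨u1, y, u2, h1, n1, h2⟩
      · right
        intro m s
        exact (h2.mono subset_rfl hG).not_closed (hout y (by rw [h1]; simp)) hesG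
      · rcases List.eq_nil_or_concat u2 with rfl | ⟨u2', z, rfl⟩
        · left
          have h3 : (e, a) = y := by
            have h4 := List.append_inj_right' h1 rfl
            simpa using h4
          subst h3
          have h4 := h2.rev hi.symm
          rw [Prod.swap_swap] at h4
          exact ⟨n1, h4.cast rfl (by ring)⟩
        · right
          intro m s
          have h3 : u = u1 ++ y :: u2' := by
            have h4 : u ++ [(e, a)] = (u1 ++ y :: u2') ++ [z] := by rw [h1]; simp
            exact List.append_inj_left' h4 rfl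
          have h4 := (h2.mono (F' := F) subset_rfl hG).rev hnew.symm
          rw [Prod.swap_swap] at h4
          exact h4.not_closed (hout y (by rw [h3]; simp)) hesG
    -- a closed walk through one of the two sides
    have key : ∀ c ∈ ({e, e.swap} : Set (V × V)), ∀ {n : ℕ} {t : ℤ}, Walk Q ω F GG n c c t →
        (∀ n1, Walk Q ω F GG n1 c c (-4) ∨ Walk Q ω F GG n1 c c 4 → n ≤ n1) → t = 4 ∨ t = -4 := by
      intro c hc n t hcw hle
      have hcG : c ∉ G := by
        rcases hc with rfl | rfl
        · exact heold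
        · exact hesold
      obtain ⟨n1, τ, hτ, h1⟩ : ∃ n1 τ, (τ = 4 ∨ τ = -4) ∧ Walk Q ω F G n1 c c τ := by
        rcases hc with rfl | rfl
        · rcases w1 with ⟨n1, h1⟩ | h1
          · exact ⟨n1, -4, Or.inr rfl, h1⟩
          · exact absurd hcw (h1 _ _)
        · rcases w2 with ⟨n1, h1⟩ | h1
          · exact ⟨n1, 4, Or.inl rfl, h1⟩
          · exact absurd hcw (h1 _ _)
      have h2 : n ≤ n1 := by
        apply hle
        rcases hτ with rfl | rfl
        · exact Or.inr (h1.mono subset_rfl hG)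
        · exact Or.inl (h1.mono subset_rfl hG)
      rcases Nat.lt_or_ge n n1 with h3 | h3
      · obtain ⟨d, s, h4, h5, -⟩ := h1.prefix_ hcw.pos h3
        obtain ⟨rfl, -⟩ := (h4.mono subset_rfl hG).unique hcw
        exact absurd h5 hcG
      · obtain rfl : n = n1 := by omega
        obtain ⟨-, rfl⟩ := hcw.unique (h1.mono subset_rfl hG)
        exact hτ
    by_cases hX : e1 ∈ ({e, e.swap} : Set (V × V))
    · refine key e1 hX hw ?_
      intro n1 h1
      by_contra h2
      rcases h1 with h1 | h1
      · exact hmin n1 (by omega) _ h1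
      · exact hmin n1 (by omega) _ h1
    have he1' : e1 ∈ G := by
      rcases he1 with h | h
      · exact h
      · exact absurd h hX
    rcases walk_zip hw with h1 | ⟨m, hm, c, s, h2, h3⟩
    · refine ih he1' h1 ?_
      intro m hm s h2
      exact hmin m hm s (h2.mono subset_rfl hG)
    · obtain ⟨hcG, hcw⟩ := hw.rotate (hG he1') h2 hm
      refine key c h3 hcw ?_
      intro n1 h4
      by_contra h5
      have h6 : ∃ τ, Walk Q ω F GG n1 c c τ := by
        rcases h4 with h4 | h4
        · exact ⟨_, h4⟩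
        · exact ⟨_, h4⟩
      obtain ⟨τ, h6⟩ := h6
      -- come back to `e1` after `n1` steps
      obtain ⟨d, s1, h7, -, h8⟩ := hw.prefix_ h2.pos hm
      obtain ⟨rfl, rfl⟩ := h2.unique h7
      have h9 := (h2.comp hcG h6).comp hcG h8
      obtain ⟨d', s2, h10, -, h11⟩ := h9.prefix_ (m := n) hw.pos (by have := h6.pos; omega)
      obtain ⟨rfl, -⟩ := hw.unique h10
      exact hmin n1 (by omega) _ (h11.cast (by omega) rfl)
  | @rot F G u e a hD ih =>
    intro e1 n t he1 hw hmin
    exact ih he1 hw hmin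
  | @shift F G u c _ ih =>
    intro e1 n t he1 hw hmin
    exact ih he1 hw hmin

/-- The loops of a part of a disc. -/
theorem Disc.loop_sub (h : Disc Q F G w) (hF : F' ⊆ F) (hG : G' ⊆ G) (he : e ∈ G')
    (hw : Walk Q ω F' G' n e e t) (hmin : ∀ m < n, ∀ s, ¬ Walk Q ω F' G' m e e s) :
    t = 4 ∨ t = -4 := by
  refine h.loop ω (hG he) (hw.mono hF hG) ?_
  intro m hm s h1
  obtain ⟨d, s1, h2, -, -⟩ := hw.prefix_ h1.pos hm
  obtain ⟨rfl, -⟩ := (h2.mono hF hG).unique h1
  exact hmin m hm _ h2

end Pool.Agent.SixB
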