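import Pool.Agent.Lib.SixB.S0One
import Pool.Agent.Lib.SixB.S0Link
import Pool.Agent.Lib.SixB.S0Loop

/-!
# 6BD step 0: the six vertex sum of a disc

`Disc Q F G w`, all sides of the word `w` boundary sides of `F`.
* `cM Q F w ω i`: the position of the other end of the arc of the side `i`; `Disc.cM_spec`,
  `Disc.cM_nc` (non crossing), `Disc.cM_mate`, `Disc.cM_turn`;
* `th w ψ i = ψ (w i) + (direction of w i) π / 12`: differences of `th` are the jumps `J`;
* `Disc.WU_eq`: `WU = √3 ^ (m / 2) * ∏ (i < cM i), cos (th (cM i) - th i - π / 6) / cos (π / 6)`;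
* `Disc.Z6_eq`: `Z6 = 2 ^ |F| * √3 ^ (m / 2) * av (∏ ...)`;
* `Disc.agl_side`: angle of the strand of the side `i`.
-/

set_option autoImplicit false
set_option linter.unusedSectionVars false

namespace Pool.Agent.SixB

open Pool.Agent.Perc.Q Relation

noncomputable section

variable {V Φ : Type} [DecidableEq V] [DecidableEq Φ]
variable {Q : QC V Φ} {F : Finset Φ} {ω : Φ → Bool} {a b e : V × V} {X : Finset (V × V)}
  {ψ : V × V → ℝ} {G : Set (V × V)} {w : List ((V × V) × ℤ)}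

/-- closed strands of a disc -/
theorem Disc.closed (h : Disc Q (F : Set Φ) G w) (hw : ∀ e ∈ w.map Prod.fst, Ini Q (F : Set Φ) e)
    (hX : X ∈ dstr Q F ω) (hX' : ∀ a ∈ X, ¬ Ini Q (F : Set Φ) a) :
    tX Q F ω X = 4 ∨ tX Q F ω X = -4 := by
  obtain ⟨a, ha, hX1⟩ := mem_dstr.mp hX
  have ha' : a ∈ X := by rw [← hX1]; exact self_mem_dst ha
  have hG : ∀ b ∈ X, b ∈ G := fun b hb => h.closed_mem hw hX hX' hb
  obtain ⟨n, h1, h2⟩ := closed_walk hX hX' ha' hG
  refine h.loop ω (hG a ha') h1 ?_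
  intro m hm s h3
  exact h2 m s h3.pos hm (h3.mono subset_rfl (Set.subset_univ _))

/-- a function on the pairs of sides with the weights of the arcs -/
theorem exists_T (ψ : V × V → ℝ) (ω : Φ → Bool) : ∃ T : Sym2 (V × V) → ℝ, ∀ a ∈ bS Q F,
    T s(a, mate Q F ω a) = 2 * Real.cos (ψ (mate Q F ω a) - ψ a + turn Q F ω a * (Real.pi / 12)) := by
  classical
  let v : V × V → ℝ := fun a =>
    2 * Real.cos (ψ (mate Q F ω a) - ψ a + turn Q F ω a * (Real.pi / 12))
  have hv : ∀ a ∈ bS Q F, v (mate Q F ω a) = v a := by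
    intro a ha
    show 2 * Real.cos _ = 2 * Real.cos _
    rw [mate_mate ha, turn_mate ha, ← Real.cos_neg]
    congr 2
    push_cast
    ring
  refine ⟨fun p => if h : ∃ a ∈ bS Q F, s(a, mate Q F ω a) = p then v h.choose else 0, ?_⟩
  intro a ha
  have hex : ∃ b ∈ bS Q F, s(b, mate Q F ω b) = s(a, mate Q F ω a) := ⟨a, ha, rfl⟩
  show (if h : ∃ b ∈ bS Q F, s(b, mate Q F ω b) = s(a, mate Q F ω a) then v h.choose else 0) = v a
  rw [dif_pos hex]
  obtain ⟨h1, h2⟩ := hex.choose_spec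
  rcases Sym2.eq_iff.mp h2 with h3 | h3
  · rw [h3.1]
  · rw [h3.1, hv a ha]

/-- position of the other end of the arc of the side `i` -/
def cM (Q : QC V Φ) (F : Finset Φ) (w : List ((V × V) × ℤ)) (ω : Φ → Bool) (i : ℕ) : ℕ :=
  if h : i < w.length then (w.map Prod.fst).idxOf (mate Q F ω (w[i].1)) else i

theorem Disc.cM_all (h : Disc Q (F : Set Φ) G w) (hw : ∀ e ∈ w.map Prod.fst, Ini Q (F : Set Φ) e)
    (ω : Φ → Bool) :
    (∀ i < w.length, cM Q F w ω i < w.length ∧ cM Q F w ω i ≠ i ∧ cM Q F w ω (cM Q F w ω i) = i) ∧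
      (∀ i < w.length, ∀ j, i < j → j < cM Q F w ω i → i < cM Q F w ω j ∧
        cM Q F w ω j < cM Q F w ω i) ∧
      ∀ (i : ℕ) (hi : i < w.length) (hj : cM Q F w ω i < w.length),
        mate Q F ω (w[i].1) = (w[cM Q F w ω i].1) ∧
        turn Q F ω (w[i].1) = w[cM Q F w ω i].2 - w[i].2 + (if i < cM Q F w ω i then -2 else 2) := by
  obtain ⟨M, h1, h2, h3⟩ := h.mates hw ω
  have hM : ∀ i < w.length, cM Q F w ω i = M i := by
    intro i hi
    have h4 := (h1 i hi).1
    have h5 := (h3 i w[i] w[M i] (List.getElem?_eq_getElem hi) (List.getElem?_eq_getElem h4)).1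
    unfold cM
    rw [dif_pos hi, h5]
    have h6 : w[M i].1 = (w.map Prod.fst)[M i]'(by rw [List.length_map]; exact h4) := by
      rw [List.getElem_map]
    rw [h6]
    exact h.inv.nodup.idxOf_getElem _ _
  refine ⟨?_, ?_, ?_⟩
  · intro i hi
    obtain ⟨h4, h5, h6⟩ := h1 i hi
    rw [hM i hi]
    exact ⟨h4, h5, by rw [hM _ h4, h6]⟩
  · intro i hi j hij hj
    rw [hM i hi] at hj ⊢
    have h4 := (h1 i hi).1
    rw [hM j (by omega)]
    exact h2 i hi j hij hj
  · intro i hi hj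
    have h4 := hM i hi
    simp only [h4] at hj ⊢
    exact h3 i w[i] w[M i] (List.getElem?_eq_getElem hi) (List.getElem?_eq_getElem hj)

/-- phase and direction -/
def th (w : List ((V × V) × ℤ)) (ψ : V × V → ℝ) (i : ℕ) : ℝ :=
  if h : i < w.length then ψ (w[i].1) + (w[i].2 : ℝ) * (Real.pi / 12) else 0

theorem th_lt (ψ : V × V → ℝ) {i : ℕ} (hi : i < w.length) :
    th w ψ i = ψ (w[i].1) + (w[i].2 : ℝ) * (Real.pi / 12) := by
  unfold th; rw [dif_pos hi]

theorem side_mem (h : Disc Q (F : Set Φ) G w) (hw : ∀ e ∈ w.map Prod.fst, Ini Q (F : Set Φ) e)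
    {i : ℕ} (hi : i < w.length) : w[i].1 ∈ bS Q F :=
  (h.mem_bS hw).mpr (List.mem_map_of_mem (List.getElem_mem hi))

/-- angle of the strand of a side of the word -/
theorem Disc.agl_side (h : Disc Q (F : Set Φ) G w) (hw : ∀ e ∈ w.map Prod.fst, Ini Q (F : Set Φ) e)
    {i : ℕ} (hi : i < w.length) : agl Q F ω ψ (dst Q F ω (w[i].1)) =
      th w ψ (cM Q F w ω i) - th w ψ i + (if i < cM Q F w ω i then -(Real.pi / 6) else Real.pi / 6) := by
  obtain ⟨h1, -, h3⟩ := h.cM_all hw ω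
  obtain ⟨h4, -, -⟩ := h1 i hi
  obtain ⟨h5, h6⟩ := h3 i hi h4
  rw [agl_arc (side_mem h hw hi), h5, h6, th_lt ψ hi, th_lt ψ h4]
  split_ifs <;> (push_cast; ring)

theorem nodup_inj (h : Disc Q (F : Set Φ) G w) {i j : ℕ} (hi : i < w.length) (hj : j < w.length)
    (he : w[i].1 = w[j].1) : i = j := by
  have h1 : (w.map Prod.fst)[i]'(by rw [List.length_map]; exact hi) =
      (w.map Prod.fst)[j]'(by rw [List.length_map]; exact hj) := by
    rw [List.getElem_map, List.getElem_map]; exact he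
  exact (h.inv.nodup.getElem_inj_iff).mp h1

/-- the weight of a smoothing of a disc -/
theorem Disc.WU_prod (hQ : NoLoop Q) (h : Disc Q (F : Set Φ) G w)
    (hw : ∀ e ∈ w.map Prod.fst, Ini Q (F : Set Φ) e) (ψ : V × V → ℝ) (ω : Φ → Bool) :
    WU Q F ψ ω = ∏ i ∈ (Finset.range w.length).filter (fun i => i < cM Q F w ω i),
      2 * Real.cos (th w ψ (cM Q F w ω i) - th w ψ i - Real.pi / 6) := by
  obtain ⟨T, hT⟩ := exists_T (Q := Q) (F := F) ψ ω
  have hz : WU Q F ψ ω = ∏ p ∈ SixB.arcs Q F ω, T p := by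
    have h1 := Zs_arcs hQ ψ T hT (fun X hX hX' => h.closed hw hX hX')
    rw [Zs_WU hQ] at h1
    exact_mod_cast h1
  rw [hz]
  obtain ⟨h1, h2, h3⟩ := h.cM_all hw ω
  symm
  have hlt : ∀ i ∈ (Finset.range w.length).filter (fun i => i < cM Q F w ω i), i < w.length :=
    fun i hi => Finset.mem_range.mp (Finset.mem_filter.mp hi).1
  refine Finset.prod_bij (fun i hi => s((w[i]'(hlt i hi)).1, mate Q F ω (w[i]'(hlt i hi)).1))
    ?_ ?_ ?_ ?_
  · intro i hi
    exact mem_arcs.mpr ⟨_, side_mem h hw (hlt i hi), rfl⟩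
  · intro i hi j hj he
    have hi' := hlt i hi
    have hj' := hlt j hj
    rcases Sym2.eq_iff.mp he with h4 | h4
    · exact nodup_inj h hi' hj' h4.1
    · exfalso
      have h5 := (h3 j hj' (h1 j hj').1).1
      have h6 := (h3 i hi' (h1 i hi').1).1
      have h7 := h4.1
      have h8 := h4.2
      rw [h5] at h7
      rw [h6] at h8
      have h9 := nodup_inj h hi' (h1 j hj').1 h7
      have h10 := nodup_inj h (h1 i hi').1 hj' h8
      have h11 := (Finset.mem_filter.mp hi).2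
      have h12 := (Finset.mem_filter.mp hj).2
      omega
  · intro p hp
    obtain ⟨a, ha, rfl⟩ := mem_arcs.mp hp
    obtain ⟨x, hx, hxa⟩ := List.mem_map.mp ((h.mem_bS hw).mp ha)
    obtain ⟨i, hi, hix⟩ := List.getElem_of_mem hx
    have hia : w[i].1 = a := by rw [hix, hxa]
    obtain ⟨h4, h5, h6⟩ := h1 i hi
    have h7 := (h3 i hi h4).1
    rcases Nat.lt_or_gt_of_ne h5 with h8 | h8
    · refine ⟨cM Q F w ω i, Finset.mem_filter.mpr ⟨Finset.mem_range.mpr h4, by rw [h6]; exact h8⟩, ?_⟩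
      rw [← h7, hia, mate_mate ha, Sym2.eq_swap]
    · refine ⟨i, Finset.mem_filter.mpr ⟨Finset.mem_range.mpr hi, h8⟩, ?_⟩
      rw [hia]
  · intro i hi
    have hi' := hlt i hi
    have h4 := (h1 i hi').1
    obtain ⟨h5, h6⟩ := h3 i hi' h4
    rw [if_pos (Finset.mem_filter.mp hi).2] at h6
    show _ = T s((w[i]'hi').1, mate Q F ω (w[i]'hi').1)
    rw [hT _ (side_mem h hw hi'), h5, h6, th_lt ψ hi', th_lt ψ h4]
    congr 2
    push_cast
    ring

theorem Disc.two_card (h : Disc Q (F : Set Φ) G w)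
    (hw : ∀ e ∈ w.map Prod.fst, Ini Q (F : Set Φ) e) (ω : Φ → Bool) :
    2 * ((Finset.range w.length).filter (fun i => i < cM Q F w ω i)).card = w.length := by
  obtain ⟨h1, h2, h3⟩ := h.cM_all hw ω
  have e1 : ((Finset.range w.length).filter (fun i => ¬ i < cM Q F w ω i)).card =
      ((Finset.range w.length).filter (fun i => i < cM Q F w ω i)).card := by
    refine Finset.card_bij (fun i _ => cM Q F w ω i) ?_ ?_ ?_
    · intro i hi
      obtain ⟨h4, h5⟩ := Finset.mem_filter.mp hi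
      have h6 := h1 i (Finset.mem_range.mp h4)
      refine Finset.mem_filter.mpr ⟨Finset.mem_range.mpr h6.1, ?_⟩
      rw [h6.2.2]
      omega
    · intro i hi j hj hij
      have hi' := Finset.mem_range.mp (Finset.mem_filter.mp hi).1
      have hj' := Finset.mem_range.mp (Finset.mem_filter.mp hj).1
      rw [← (h1 i hi').2.2, ← (h1 j hj').2.2]
      exact congrArg (cM Q F w ω) hij
    · intro i hi
      obtain ⟨h4, h5⟩ := Finset.mem_filter.mp hi
      have h6 := h1 i (Finset.mem_range.mp h4)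
      refine ⟨cM Q F w ω i, Finset.mem_filter.mpr ⟨Finset.mem_range.mpr h6.1, ?_⟩, h6.2.2⟩
      rw [h6.2.2]
      omega
  have e2 := Finset.card_filter_add_card_filter_not (s := Finset.range w.length)
    (fun i => i < cM Q F w ω i)
  rw [Finset.card_range] at e2
  omega

theorem cos_pi_div_six_ne : Real.cos (Real.pi / 6) ≠ 0 := by
  rw [Real.cos_pi_div_six]
  positivity

/-- **The weight of a smoothing of a disc**, normalised. -/
theorem Disc.WU_eq (hQ : NoLoop Q) (h : Disc Q (F : Set Φ) G w)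
    (hw : ∀ e ∈ w.map Prod.fst, Ini Q (F : Set Φ) e) (ψ : V × V → ℝ) (ω : Φ → Bool) :
    WU Q F ψ ω = Real.sqrt 3 ^ (w.length / 2) *
      ∏ i ∈ (Finset.range w.length).filter (fun i => i < cM Q F w ω i),
        (Real.cos (th w ψ (cM Q F w ω i) - th w ψ i - Real.pi / 6) / Real.cos (Real.pi / 6)) := by
  have h1 := h.two_card hw ω
  rw [show w.length / 2 = ((Finset.range w.length).filter (fun i => i < cM Q F w ω i)).card by omega,
    ← Finset.prod_const, ← Finset.prod_mul_distrib, h.WU_prod hQ hw]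
  refine Finset.prod_congr rfl fun i _ => ?_
  have h2 : Real.sqrt 3 = 2 * Real.cos (Real.pi / 6) := by
    rw [Real.cos_pi_div_six]; ring
  have h3 := cos_pi_div_six_ne
  rw [h2]
  field_simp

/-- **The arrow sum of a disc.** -/
theorem Disc.Z6_eq (hQ : NoLoop Q) (h : Disc Q (F : Set Φ) G w)
    (hw : ∀ e ∈ w.map Prod.fst, Ini Q (F : Set Φ) e) (ψ : V × V → ℝ) :
    Z6 Q F (bph Q F ψ) = ((2 ^ F.card * (Real.sqrt 3 ^ (w.length / 2) *
      av F (fun ω => ∏ i ∈ (Finset.range w.length).filter (fun i => i < cM Q F w ω i),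
        (Real.cos (th w ψ (cM Q F w ω i) - th w ψ i - Real.pi / 6) / Real.cos (Real.pi / 6)))) : ℝ) : ℂ) := by
  have h1 := av_congr (S := F) (fun T _ => h.WU_eq hQ hw ψ (ind T))
    (g := WU Q F ψ) (g' := fun ω => Real.sqrt 3 ^ (w.length / 2) *
      ∏ i ∈ (Finset.range w.length).filter (fun i => i < cM Q F w ω i),
        (Real.cos (th w ψ (cM Q F w ω i) - th w ψ i - Real.pi / 6) / Real.cos (Real.pi / 6)))
  rw [Z6_bph hQ, h1, av_mul]

end

end Pool.Agent.SixB
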