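import Pool.Agent.Lib.SixB.S0Clo
import Pool.Agent.Lib.SixB.S0Z
import Pool.Agent.Lib.SixB.S0Rect
import Pool.Agent.Lib.MP_6bd702_zc.Y024

/-!
# 6BD: closed strands of every finite face set of the plane have turning `4` or `-4`

`uml_ZQ : ∀ F : Finset (ℤ × ℤ), Uml ZQ F`.
-/

set_option autoImplicit false

namespace Pool.Agent.SixB

open Pool.Agent.Perc Pool.Agent.Perc.Q Relation

noncomputable section

theorem noLoop_ZQ : NoLoop ZQ := by
  rintro ⟨x, y⟩ k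
  change cor0 (x, y) k ≠ cor0 (x, y) (k + 1)
  have e1 : (0 : ZMod 4) + 1 = 1 := rfl
  have e2 : (1 : ZMod 4) + 1 = 2 := rfl
  have e3 : (2 : ZMod 4) + 1 = 3 := rfl
  have e4 : (3 : ZMod 4) + 1 = 0 := rfl
  rcases k4_cases k with rfl | rfl | rfl | rfl
  · rw [e1, cor0_0, cor0_1]; simp
  · rw [e2, cor0_1, cor0_2]; simp
  · rw [e3, cor0_2, cor0_3]; simp
  · rw [e4, cor0_3, cor0_0]; simp

theorem chart_ZQ (R : Set (ℤ × ℤ)) : Chart ZQ id id R where
  inj := fun _ _ _ _ h => h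
  c0 := fun _ _ => rfl
  c1 := fun f _ => by change cor0 f 1 = _; rw [cor0_1]; rfl
  c2 := fun f _ => by change cor0 f 2 = _; rw [cor0_2]; rfl
  c3 := fun f _ => by change cor0 f 3 = _; rw [cor0_3]; rfl

theorem mem_segm {V : Type} {pos : ℤ × ℤ → V} {a : ℤ} (n : ℕ) : ∀ {p : ℤ × ℤ} {x : (V × V) × ℤ},
    x ∈ segm pos p a n → ∃ i : ℕ, i < n ∧
      x.1 = (pos (p + (i : ℤ) • dv a), pos (p + (i : ℤ) • dv a + dv a)) := by
  induction n with
  | zero =>
    intro p x hx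
    rw [segm_zero] at hx
    simp at hx
  | succ n ih =>
    intro p x hx
    rw [segm_succ, List.mem_cons] at hx
    rcases hx with rfl | hx
    · exact ⟨0, by omega, by simp⟩
    · obtain ⟨i, hi, h⟩ := ih hx
      refine ⟨i + 1, by omega, ?_⟩
      rw [h]
      have : p + dv a + (i : ℤ) • dv a = p + ((i + 1 : ℕ) : ℤ) • dv a := by
        push_cast
        rw [add_smul, one_smul]
        abel
      rw [this]

theorem clo_not_ini {V Φ : Type} [DecidableEq V] [DecidableEq Φ] {Q : QC V Φ} {F : Finset Φ}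
    {ω : Φ → Bool} {a b : V × V} (h : Clo Q F ω a) (hb : SRel Q F ω a b) :
    ¬ Ini Q (F : Set Φ) b := by
  intro hi
  have h1 := (h.of_srel hb).swap
  obtain ⟨c, h2, -⟩ := h1.exists_nx
  exact ter_nx (ini_swap.mp (by rwa [Prod.swap_swap])) h2

theorem trn_eq_tX {V Φ : Type} [DecidableEq V] [DecidableEq Φ] {Q : QC V Φ} {F : Finset Φ}
    {ω : Φ → Bool} {a : V × V} : trn Q F ω a = tX Q F ω (dst Q F ω a) := rfl

theorem uml_rect (x y : ℤ) (n m : ℕ) {F : Finset (ℤ × ℤ)}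
    (hF : (F : Set (ℤ × ℤ)) = RS x (x + (n + 1 : ℕ)) y (y + (m + 1 : ℕ))) : Uml ZQ F := by
  intro ω a ha
  obtain ⟨G, hD⟩ := disc_rect n m (chart_ZQ (RS x (x + (n + 1 : ℕ)) y (y + (m + 1 : ℕ))))
  rw [Set.image_id, ← hF] at hD
  have hX : dst ZQ F ω a ∈ dstr ZQ F ω := mem_dstr.mpr ⟨a, ha.mem, rfl⟩
  rw [trn_eq_tX]
  refine hD.closed ?_ hX ?_
  · intro e he f hf k hk
    obtain ⟨z, hz, rfl⟩ := List.mem_map.mp he
    have hf' : f ∈ RS x (x + (n + 1 : ℕ)) y (y + (m + 1 : ℕ)) := by rw [← hF]; exact hf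
    obtain ⟨f1, f2⟩ := f
    obtain ⟨h1, h2, h3, h4⟩ := hf'
    simp only at h1 h2 h3 h4
    change z.1 = (cor0 (f1, f2) (k + 1), cor0 (f1, f2) k) at hk
    have e1 : (0 : ZMod 4) + 1 = 1 := rfl
    have e2 : (1 : ZMod 4) + 1 = 2 := rfl
    have e3 : (2 : ZMod 4) + 1 = 3 := rfl
    have e4 : (3 : ZMod 4) + 1 = 0 := rfl
    have hcor : z.1 = ((f1 + 1, f2), (f1, f2)) ∨ z.1 = ((f1 + 1, f2 + 1), (f1 + 1, f2)) ∨
        z.1 = ((f1, f2 + 1), (f1 + 1, f2 + 1)) ∨ z.1 = ((f1, f2), (f1, f2 + 1)) := by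
      rcases k4_cases k with rfl | rfl | rfl | rfl
      · rw [e1, cor0_0, cor0_1] at hk; exact Or.inl hk
      · rw [e2, cor0_1, cor0_2] at hk; exact Or.inr (Or.inl hk)
      · rw [e3, cor0_2, cor0_3] at hk; exact Or.inr (Or.inr (Or.inl hk))
      · rw [e4, cor0_3, cor0_0] at hk; exact Or.inr (Or.inr (Or.inr hk))
    rw [List.mem_append, List.mem_append, List.mem_append] at hz
    rcases hz with hz | hz | hz | hz
    all_goals
      obtain ⟨i, hi, h5⟩ := mem_segm _ hz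
      rw [h5] at hcor
    · simp only [dv0, id, Prod.smul_mk, Prod.mk_add_mk, smul_eq_mul, mul_one, mul_zero, add_zero,
        Prod.mk.injEq] at hcor
      omega
    · simp only [dv1, id, Prod.smul_mk, Prod.mk_add_mk, smul_eq_mul, mul_one, mul_zero, add_zero,
        Prod.mk.injEq] at hcor
      omega
    · simp only [dv2, id, Prod.smul_mk, Prod.mk_add_mk, smul_eq_mul, mul_neg, mul_one, mul_zero,
        add_zero, Prod.mk.injEq] at hcor
      omega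
    · simp only [dv3, id, Prod.smul_mk, Prod.mk_add_mk, smul_eq_mul, mul_neg, mul_one, mul_zero,
        add_zero, Prod.mk.injEq] at hcor
      omega
  · intro b hb
    exact clo_not_ini ha (mem_dst.mp hb).2

/-- **Umlaufsatz.** -/
theorem uml_ZQ (F : Finset (ℤ × ℤ)) : Uml ZQ F := by
  classical
  obtain ⟨M, hM⟩ : ∃ M : ℕ, ∀ f ∈ F, -(M : ℤ) ≤ f.1 ∧ f.1 < M + 1 ∧ -(M : ℤ) ≤ f.2 ∧ f.2 < M + 1 := by
    refine ⟨∑ f ∈ F, (f.1.natAbs + f.2.natAbs), fun f hf => ?_⟩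
    have := Finset.single_le_sum (f := fun f : ℤ × ℤ => f.1.natAbs + f.2.natAbs)
      (fun _ _ => Nat.zero_le _) hf
    omega
  have hR : ((Finset.Ico (-(M : ℤ)) (M + 1) ×ˢ Finset.Ico (-(M : ℤ)) (M + 1) : Finset (ℤ × ℤ)) :
      Set (ℤ × ℤ)) = RS (-(M : ℤ)) (-(M : ℤ) + (2 * M + 1 : ℕ)) (-(M : ℤ)) (-(M : ℤ) + (2 * M + 1 : ℕ)) := by
    ext ⟨p, q⟩
    rw [Finset.mem_coe, Finset.mem_product, Finset.mem_Ico, Finset.mem_Ico]
    unfold RS
    rw [Set.mem_ofPred_eq]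
    push_cast
    constructor <;> intro h <;> omega
  refine (uml_rect _ _ (2 * M) (2 * M) hR).mono ?_
  intro f hf
  have := hM f hf
  rw [Finset.mem_product, Finset.mem_Ico, Finset.mem_Ico]
  omega

end

end Pool.Agent.SixB
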