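import Pool.Agent.Lib.SixB.S0Defs

/-!
# Strands with their turning

`St` is one step of a strand with its turn (`1` left, `-1` right), `Walk` is a chain of steps
whose intermediate directed unit edges lie in a given set `G` (the glued sides).
-/

set_option autoImplicit false

namespace Pool.Agent.SixB

open Pool.Agent.Perc.Q

variable {V Φ : Type}

/-- The side through which the strand which enters the face through the side `k` leaves it. -/
def mt (b : Bool) (k : ZMod 4) : ZMod 4 := if b = ev k then k + 1 else k + 3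

theorem mt_mt (b : Bool) (k : ZMod 4) : mt b (mt b k) = k := by
  revert b k; decide

theorem mt_ne (b : Bool) (k : ZMod 4) : mt b k ≠ k := by
  revert b k; decide

theorem qk_mt (b : Bool) (k : ZMod 4) : qk b (mt b k) = -qk b k := by
  revert b k; decide

theorem qk_cases (b : Bool) (k : ZMod 4) : qk b k = 1 ∨ qk b k = -1 := by
  revert b k; decide

variable {Q : QC V Φ} {ω ω' : Φ → Bool} {F F' : Set Φ} {G G' : Set (V × V)} {a b c e : V × V}
  {f g : Φ} {k l : ZMod 4} {s t : ℤ} {m n : ℕ}

theorem sd_inj (h : sd Q f k = sd Q g l) : f = g ∧ k = l :=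
  Q.inj (Prod.mk.inj h).1 (Prod.mk.inj h).2

theorem sd_ne (h : k ≠ l) : sd Q f k ≠ sd Q g l := fun h' => h (sd_inj h').2

/-- One step of a strand: it enters a face of `F` through `a` and leaves it through `b`, with the
turn `t`. -/
def St (Q : QC V Φ) (ω : Φ → Bool) (F : Set Φ) (a b : V × V) (t : ℤ) : Prop :=
  ∃ f ∈ F, ∃ k, a = sd Q f k ∧ b = (sd Q f (mt (ω f) k)).swap ∧ t = qk (ω f) k

theorem St.mono (hF : F ⊆ F') (h : St Q ω F a b t) : St Q ω F' a b t := by
  obtain ⟨f, hf, h⟩ := h
  exact ⟨f, hF hf, h⟩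

theorem St.congr (hω : ∀ f ∈ F, ω f = ω' f) (h : St Q ω F a b t) : St Q ω' F a b t := by
  obtain ⟨f, hf, k, h1, h2, h3⟩ := h
  exact ⟨f, hf, k, h1, by rw [← hω f hf]; exact h2, by rw [← hω f hf]; exact h3⟩

theorem St.rev (h : St Q ω F a b t) : St Q ω F b.swap a.swap (-t) := by
  obtain ⟨f, hf, k, rfl, rfl, rfl⟩ := h
  refine ⟨f, hf, mt (ω f) k, Prod.swap_swap _, by rw [mt_mt], by rw [qk_mt]⟩

theorem St.unique (h : St Q ω F a b t) (h' : St Q ω F a c s) : b = c ∧ t = s := by
  obtain ⟨f, hf, k, rfl, rfl, rfl⟩ := h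
  obtain ⟨f', hf', k', h1, rfl, rfl⟩ := h'
  obtain ⟨rfl, rfl⟩ := sd_inj h1
  exact ⟨rfl, rfl⟩

theorem nx_iff : Nx Q ω F a b ↔ ∃ t, St Q ω F a b t := by
  constructor
  · rintro ⟨f, hf, k, rfl, ⟨h, rfl⟩ | ⟨h, rfl⟩⟩
    · refine ⟨_, f, hf, k, rfl, ?_, rfl⟩
      have h1 : mt (ω f) k = k + 1 := if_pos h
      rw [h1]
      unfold sd
      rw [z1]
      rfl
    · refine ⟨_, f, hf, k, rfl, ?_, rfl⟩
      have h1 : mt (ω f) k = k + 3 := if_neg (by rw [h]; cases ev k <;> decide)
      rw [h1]
      unfold sd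
      rw [z5]
      rfl
  · rintro ⟨t, f, hf, k, rfl, rfl, -⟩
    refine ⟨f, hf, k, rfl, ?_⟩
    by_cases h : ω f = ev k
    · left
      have h1 : mt (ω f) k = k + 1 := if_pos h
      refine ⟨h, ?_⟩
      rw [h1]
      unfold sd
      rw [z1]
      rfl
    · right
      have h1 : mt (ω f) k = k + 3 := if_neg h
      refine ⟨by cases h2 : ω f <;> cases h3 : ev k <;> simp_all, ?_⟩
      rw [h1]
      unfold sd
      rw [z5]
      rfl

/-- A chain of `n` steps; the intermediate directed unit edges lie in `G`; `t` is the total turning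
in quarter turns. -/
inductive Walk (Q : QC V Φ) (ω : Φ → Bool) (F : Set Φ) (G : Set (V × V)) :
    ℕ → V × V → V × V → ℤ → Prop
  | one {a b : V × V} {t : ℤ} (h : St Q ω F a b t) : Walk Q ω F G 1 a b t
  | tail {n : ℕ} {a b c : V × V} {t s : ℤ} (h : Walk Q ω F G n a b t) (hb : b ∈ G)
      (h' : St Q ω F b c s) : Walk Q ω F G (n + 1) a c (t + s)

namespace Walk

theorem mono (h : Walk Q ω F G n a b t) (hF : F ⊆ F') (hG : G ⊆ G') : Walk Q ω F' G' n a b t := by
  induction h with
  | one h => exact one (h.mono hF)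
  | tail _ hb h' ih => exact tail ih (hG hb) (h'.mono hF)

theorem congr (h : Walk Q ω F G n a b t) (hω : ∀ f ∈ F, ω f = ω' f) :
    Walk Q ω' F G n a b t := by
  induction h with
  | one h => exact one (h.congr hω)
  | tail _ hb h' ih => exact tail ih hb (h'.congr hω)

theorem pos (h : Walk Q ω F G n a b t) : 0 < n := by
  cases h with
  | one _ => exact Nat.one_pos
  | tail _ _ _ => exact Nat.succ_pos _

theorem comp (h : Walk Q ω F G n a b t) (hb : b ∈ G) (h' : Walk Q ω F G m b c s) :
    Walk Q ω F G (n + m) a c (t + s) := by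
  induction h' with
  | one h' => exact tail h hb h'
  | tail _ hb' h'' ih =>
    have := tail (ih h hb) hb' h''
    rwa [add_assoc, add_assoc] at this

theorem cast (h : Walk Q ω F G n a b t) (hn : n = m) (ht : t = s) : Walk Q ω F G m a b s := by
  subst hn ht; exact h

theorem rev (h : Walk Q ω F G n a b t) (hG : ∀ e ∈ G, e.swap ∈ G) :
    Walk Q ω F G n b.swap a.swap (-t) := by
  induction h with
  | one h => exact one h.rev
  | tail h hb h' ih =>
    have h1 := (one (G := G) h'.rev).comp (hG _ hb) ih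
    exact h1.cast (by omega) (by ring)

theorem first (h : Walk Q ω F G n a b t) : ∃ f ∈ F, ∃ k, a = sd Q f k := by
  induction h with
  | one h =>
    obtain ⟨f, hf, k, h, -⟩ := h
    exact ⟨f, hf, k, h⟩
  | tail _ _ _ ih => exact ih

theorem last (h : Walk Q ω F G n a b t) : ∃ f ∈ F, ∃ k, b = (sd Q f k).swap := by
  cases h with
  | one h =>
    obtain ⟨f, hf, k, -, h, -⟩ := h
    exact ⟨f, hf, _, h⟩
  | tail _ _ h =>
    obtain ⟨f, hf, k, -, h, -⟩ := h
    exact ⟨f, hf, _, h⟩

theorem unique (h : Walk Q ω F G n a b t) (h' : Walk Q ω F G' n a c s) : b = c ∧ t = s := by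
  induction h generalizing c s with
  | one h =>
    cases h' with
    | one h' => exact h.unique h'
    | tail h1 _ _ => exact absurd h1.pos (by omega)
  | tail h hb h2 ih =>
    cases h' with
    | one h' => exact absurd h.pos (by omega)
    | tail h1 hb' h3 =>
      obtain ⟨rfl, rfl⟩ := ih h1
      obtain ⟨rfl, rfl⟩ := h2.unique h3
      exact ⟨rfl, rfl⟩

/-- The beginning of a walk. -/
theorem prefix_ (h : Walk Q ω F G n a c t) (hm : 0 < m) (hmn : m < n) :
    ∃ b s, Walk Q ω F G m a b s ∧ b ∈ G ∧ Walk Q ω F G (n - m) b c (t - s) := by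
  induction h with
  | one h => omega
  | @tail n a b c t u h hb h' ih =>
    rcases Nat.lt_succ_iff_lt_or_eq.1 hmn with h1 | rfl
    · obtain ⟨d, s, h2, h3, h4⟩ := ih h1
      refine ⟨d, s, h2, h3, (tail h4 hb h').cast (by omega) (by ring)⟩
    · refine ⟨b, t, h, hb, (one h').cast (by omega) (by ring)⟩

/-- A walk which ends outside `G` is not shorter than any other walk from the same place. -/
theorem le_of_end (h : Walk Q ω F G n a b t) (hb : b ∉ G) (h' : Walk Q ω F G m a c s) : m ≤ n := by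
  by_contra hlt
  obtain ⟨d, u, h1, h2, -⟩ := h'.prefix_ h.pos (by omega)
  exact hb ((h.unique h1).1 ▸ h2)

theorem eq_of_end (h : Walk Q ω F G n a b t) (hb : b ∉ G) (h' : Walk Q ω F G m a c s)
    (hc : c ∉ G) : n = m ∧ b = c ∧ t = s := by
  have h1 := h.le_of_end hb h'
  have h2 := h'.le_of_end hc h
  obtain rfl : n = m := by omega
  exact ⟨rfl, h.unique h'⟩

/-- A closed walk through `G` does not start at a directed unit edge from which a walk leads out of
`G`. -/
theorem not_closed (h : Walk Q ω F G n e b t) (hb : b ∉ G) (he : e ∈ G) :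
    ¬ Walk Q ω F G m e e s := by
  intro h'
  have h1 := h.le_of_end hb h'
  rcases Nat.lt_or_ge m n with h2 | h2
  · -- go around `m` at a time
    have key : ∀ j : ℕ, ∃ s', Walk Q ω F G (m * (j + 1)) e e s' := by
      intro j
      induction j with
      | zero => exact ⟨s, h'.cast (by ring) rfl⟩
      | succ j ih =>
        obtain ⟨s', ih⟩ := ih
        exact ⟨_, (ih.comp he h').cast (by ring) rfl⟩
    obtain ⟨s', h3⟩ := key n
    have h4 := h.le_of_end hb h3
    have h5 : n + 1 ≤ m * (n + 1) := Nat.le_mul_of_pos_left _ h'.pos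
    omega
  · obtain rfl : m = n := by omega
    exact hb ((h.unique h').1 ▸ he)

/-- Rotation of a closed walk. -/
theorem rotate (h : Walk Q ω F G n e e t) (he : e ∈ G) (h1 : Walk Q ω F G m e a s) (hm : m < n) :
    a ∈ G ∧ Walk Q ω F G n a a t := by
  obtain ⟨d, u, h2, h3, h4⟩ := h.prefix_ h1.pos hm
  obtain ⟨rfl, rfl⟩ := h1.unique h2
  exact ⟨h3, (h4.comp he h1).cast (by omega) (by ring)⟩

end Walk

end Pool.Agent.SixB
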