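import Pool.Agent.Lib.SixB.S4Strands
import Pool.Agent.Lib.SixB.S0Walk
import Pool.Agent.Lib.SixB.TopEsc
import Pool.Agent.Lib.MP_6bd702_zc.Y024

/-!
# 6BD: the plane as a complex of quadrangles

Bridge between the undirected notions of the percolation library (`UE`, `MM`, `HasPot`) and the directed
strands of `ZQ` (`dE`, `SRel`, `dst`, `HasPotQ`).
* `und x`: the unit edge of a directed unit edge of the plane.
* `hasPotQ_of_hasPot`, `hasPotQ_of_esc`.
* `MM_iff`: `a ∈ MM ω F (und x)` iff one of the two directions of `a` is in the strand of `x`.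
-/

set_option autoImplicit false
set_option linter.unusedSectionVars false

namespace Pool.Agent.SixB.Tilt

open Pool.Agent.Perc Pool.Agent.Perc.Q Pool.Agent.Perc6 Relation

noncomputable section

variable {F : Finset (ℤ × ℤ)} {ω : Cfg} {x y : (ℤ × ℤ) × (ℤ × ℤ)} {a b : UE} {f : ℤ × ℤ}

/-- the unit edge of a directed unit edge -/
def und (x : (ℤ × ℤ) × (ℤ × ℤ)) : UE :=
  if x.1.1 = x.2.1 then (x.1.1, min x.1.2 x.2.2, true) else (min x.1.1 x.2.1, x.1.2, false)

/-- the sides of a face, counterclockwise from the lower one -/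
def su (f : ℤ × ℤ) (k : ZMod 4) : UE :=
  if k = 0 then bo f else if k = 1 then ri f else if k = 2 then to' f else le' f

theorem su_isSide (f : ℤ × ℤ) (k : ZMod 4) : IsSide f (su f k) := by
  unfold su IsSide
  split_ifs <;> tauto

theorem k4 (k : ZMod 4) : k = 0 ∨ k = 1 ∨ k = 2 ∨ k = 3 := by
  revert k; decide

theorem isSide_iff : IsSide f a ↔ ∃ k, a = su f k := by
  constructor
  · rintro (h | h | h | h)
    · exact ⟨0, h⟩
    · exact ⟨3, h⟩
    · exact ⟨2, h⟩
    · exact ⟨1, h⟩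
  · rintro ⟨k, rfl⟩
    exact su_isSide f k

theorem und_sd (f : ℤ × ℤ) (k : ZMod 4) : und (sd ZQ f k) = su f k := by
  obtain ⟨u, v⟩ := f
  rcases k4 k with rfl | rfl | rfl | rfl
  · change und ((u, v), (u + 1, v)) = (u, v, false)
    unfold und
    rw [if_neg (by simp)]
    simp
  · change und ((u + 1, v), (u + 1, v + 1)) = (u + 1, v, true)
    unfold und
    rw [if_pos rfl]
    simp
  · change und ((u + 1, v + 1), (u, v + 1)) = (u, v + 1, false)
    unfold und
    rw [if_neg (by simp)]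
    simp
  · change und ((u, v + 1), (u, v)) = (u, v, true)
    unfold und
    rw [if_pos rfl]
    simp

theorem und_sd_swap (f : ℤ × ℤ) (k : ZMod 4) : und (sd ZQ f k).swap = su f k := by
  obtain ⟨u, v⟩ := f
  rcases k4 k with rfl | rfl | rfl | rfl
  · change und ((u + 1, v), (u, v)) = (u, v, false)
    unfold und
    rw [if_neg (by simp)]
    simp
  · change und ((u + 1, v + 1), (u + 1, v)) = (u + 1, v, true)
    unfold und
    rw [if_pos rfl]
    simp
  · change und ((u, v + 1), (u + 1, v + 1)) = (u, v + 1, false)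
    unfold und
    rw [if_neg (by simp)]
    simp
  · change und ((u, v), (u, v + 1)) = (u, v, true)
    unfold und
    rw [if_pos rfl]
    simp

theorem mt_iff {a a' : UE} : Mt ω f a a' ↔ ∃ k, a = su f k ∧ a' = su f (mt (ω f) k) := by
  unfold Mt
  cases h : ω f
  · simp only [Bool.false_eq_true, false_and, false_or, true_and]
    constructor
    · rintro (⟨rfl, rfl⟩ | ⟨rfl, rfl⟩ | ⟨rfl, rfl⟩ | ⟨rfl, rfl⟩)
      · exact ⟨0, rfl, rfl⟩
      · exact ⟨3, rfl, rfl⟩
      · exact ⟨2, rfl, rfl⟩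
      · exact ⟨1, rfl, rfl⟩
    · rintro ⟨k, rfl, rfl⟩
      rcases k4 k with rfl | rfl | rfl | rfl
      · exact Or.inl ⟨rfl, rfl⟩
      · exact Or.inr (Or.inr (Or.inr ⟨rfl, rfl⟩))
      · exact Or.inr (Or.inr (Or.inl ⟨rfl, rfl⟩))
      · exact Or.inr (Or.inl ⟨rfl, rfl⟩)
  · simp only [true_and, Bool.true_eq_false, false_and, or_false]
    constructor
    · rintro (⟨rfl, rfl⟩ | ⟨rfl, rfl⟩ | ⟨rfl, rfl⟩ | ⟨rfl, rfl⟩)
      · exact ⟨0, rfl, rfl⟩
      · exact ⟨1, rfl, rfl⟩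
      · exact ⟨3, rfl, rfl⟩
      · exact ⟨2, rfl, rfl⟩
    · rintro ⟨k, rfl, rfl⟩
      rcases k4 k with rfl | rfl | rfl | rfl
      · exact Or.inl ⟨rfl, rfl⟩
      · exact Or.inr (Or.inl ⟨rfl, rfl⟩)
      · exact Or.inr (Or.inr (Or.inr ⟨rfl, rfl⟩))
      · exact Or.inr (Or.inr (Or.inl ⟨rfl, rfl⟩))

theorem zq_noLoop : NoLoop ZQ := by
  intro f k
  obtain ⟨u, v⟩ := f
  rcases k4 k with rfl | rfl | rfl | rfl
  · change (u, v) ≠ (u + 1, v)
    simp
  · change (u + 1, v) ≠ (u + 1, v + 1)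
    simp
  · change (u + 1, v + 1) ≠ (u, v + 1)
    simp
  · change (u, v + 1) ≠ (u, v)
    simp

theorem nx_sd (hf : f ∈ F) (k : ZMod 4) :
    Nx ZQ ω (F : Set (ℤ × ℤ)) (sd ZQ f k) (sd ZQ f (mt (ω f) k)).swap :=
  nx_iff.mpr ⟨_, f, by exact_mod_cast hf, k, rfl, rfl, rfl⟩

theorem und_nx (h : Nx ZQ ω (F : Set (ℤ × ℤ)) x y) : ∃ f ∈ F, Mt ω f (und x) (und y) := by
  rw [nx_iff] at h
  obtain ⟨t, f, hf, k, rfl, rfl, -⟩ := h
  exact ⟨f, by exact_mod_cast hf, mt_iff.mpr ⟨k, und_sd f k, und_sd_swap f _⟩⟩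

theorem MM_of_srel (h : SRel ZQ F ω x y) : und y ∈ MM ω (F : Set (ℤ × ℤ)) (und x) := by
  have hsymm : ∀ {a b : UE}, b ∈ MM ω (F : Set (ℤ × ℤ)) a → a ∈ MM ω (F : Set (ℤ × ℤ)) b := by
    intro a b h
    induction h with
    | refl => exact mem_MM_self
    | tail _ hs ih =>
      obtain ⟨f, hf, hm⟩ := hs
      exact ReflTransGen.head ⟨f, hf, hm.symm⟩ ih
  induction h with
  | rel x y h =>
    obtain ⟨f, hf, hm⟩ := und_nx h
    exact ReflTransGen.single ⟨f, by exact_mod_cast hf, hm⟩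
  | refl x => exact mem_MM_self
  | symm x y _ ih => exact hsymm ih
  | trans x y z _ _ ih1 ih2 => exact ReflTransGen.trans ih1 ih2

/-- the two directions of a side -/
theorem dir_cases (hx : x ∈ dE ZQ F) : ∃ f ∈ F, ∃ k, x = sd ZQ f k ∨ x = (sd ZQ f k).swap :=
  mem_dE.mp hx

/-- the standard direction of a unit edge -/
def dir (a : UE) : (ℤ × ℤ) × (ℤ × ℤ) := (ua a, ub a)

theorem sd_dir (f : ℤ × ℤ) (k : ZMod 4) :
    sd ZQ f k = dir (su f k) ∨ sd ZQ f k = (dir (su f k)).swap := by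
  obtain ⟨u, v⟩ := f
  rcases k4 k with rfl | rfl | rfl | rfl
  · left
    change ((u, v), (u + 1, v)) = (ua (u, v, false), ub (u, v, false))
    simp [ua, ub]
  · left
    change ((u + 1, v), (u + 1, v + 1)) = (ua (u + 1, v, true), ub (u + 1, v, true))
    simp [ua, ub]
  · right
    change ((u + 1, v + 1), (u, v + 1)) = (ub (u, v + 1, false), ua (u, v + 1, false))
    simp [ua, ub]
  · right
    change ((u, v + 1), (u, v)) = (ub (u, v, true), ua (u, v, true))
    simp [ua, ub]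

theorem dE_dir (hx : x ∈ dE ZQ F) : x = dir (und x) ∨ x = (dir (und x)).swap := by
  obtain ⟨f, hf, k, rfl | rfl⟩ := mem_dE.mp hx
  · rw [und_sd]
    exact sd_dir f k
  · rw [und_sd_swap]
    rcases sd_dir f k with h | h
    · exact Or.inr (by rw [h])
    · left
      rw [h, Prod.swap_swap]

/-- a directed unit edge is determined by its unit edge up to the direction -/
theorem und_inj (hx : x ∈ dE ZQ F) {G : Finset (ℤ × ℤ)} (hy : y ∈ dE ZQ G) (h : und x = und y) :
    x = y ∨ x = y.swap := by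
  rcases dE_dir hx with h1 | h1 <;> rcases dE_dir hy with h2 | h2 <;> rw [h] at h1
  · exact Or.inl (h1.trans h2.symm)
  · exact Or.inr (h1.trans (Prod.swap_injective ((Prod.swap_swap _).trans h2).symm))
  · exact Or.inr (h1.trans (congrArg Prod.swap h2).symm)
  · exact Or.inl (h1.trans h2.symm)

theorem und_swap (hx : x ∈ dE ZQ F) : und x.swap = und x := by
  obtain ⟨f, hf, k, rfl | rfl⟩ := mem_dE.mp hx
  · rw [und_sd, und_sd_swap]
  · rw [Prod.swap_swap, und_sd, und_sd_swap]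

/-- the unit edges of the faces of `F` -/
theorem und_side (hx : x ∈ dE ZQ F) : ∃ f ∈ F, IsSide f (und x) := by
  obtain ⟨f, hf, k, rfl | rfl⟩ := mem_dE.mp hx
  · exact ⟨f, hf, by rw [und_sd]; exact su_isSide f k⟩
  · exact ⟨f, hf, by rw [und_sd_swap]; exact su_isSide f k⟩

theorem side_dE (hf : f ∈ F) (ha : IsSide f a) : ∃ x ∈ dE ZQ F, und x = a := by
  obtain ⟨k, rfl⟩ := isSide_iff.mp ha
  exact ⟨sd ZQ f k, sd_mem hf k, und_sd f k⟩

theorem srel_of_MM (hx : x ∈ dE ZQ F) (h : a ∈ MM ω (F : Set (ℤ × ℤ)) (und x)) :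
    ∃ y ∈ dE ZQ F, und y = a ∧ SRel ZQ F ω x y := by
  unfold MM at h
  change ReflTransGen _ (und x) a at h
  induction h with
  | refl => exact ⟨x, hx, rfl, EqvGen.refl _⟩
  | @tail b c _ hs ih =>
    obtain ⟨y, hy, rfl, hxy⟩ := ih
    obtain ⟨f, hf, hm⟩ := hs
    have hf' : f ∈ F := by exact_mod_cast hf
    obtain ⟨k, hk, rfl⟩ := mt_iff.mp hm
    rw [← und_sd] at hk
    have hn := nx_sd (ω := ω) hf' k
    rcases und_inj hy (sd_mem hf' k) hk with rfl | rfl
    · refine ⟨(sd ZQ f (mt (ω f) k)).swap, swap_mem_dE.mpr (sd_mem hf' _), und_sd_swap f _, ?_⟩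
      exact EqvGen.trans _ _ _ hxy (EqvGen.rel _ _ hn)
    · refine ⟨sd ZQ f (mt (ω f) k), sd_mem hf' _, und_sd f _, ?_⟩
      have h2 := hn.rev
      rw [Prod.swap_swap] at h2
      exact EqvGen.trans _ _ _ hxy (EqvGen.symm _ _ (EqvGen.rel _ _ h2))

/-- **undirected components and directed strands** -/
theorem MM_iff (hx : x ∈ dE ZQ F) (hy : y ∈ dE ZQ F) :
    und y ∈ MM ω (F : Set (ℤ × ℤ)) (und x) ↔ SRel ZQ F ω x y ∨ SRel ZQ F ω x y.swap := by
  constructor
  · intro h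
    obtain ⟨y', hy', h1, h2⟩ := srel_of_MM hx h
    rcases und_inj hy' hy h1 with rfl | rfl
    · exact Or.inl h2
    · exact Or.inr h2
  · rintro (h | h)
    · exact MM_of_srel h
    · have := MM_of_srel h
      rwa [und_swap hy] at this

theorem MM_iff_dst (hx : x ∈ dE ZQ F) (hy : y ∈ dE ZQ F) :
    und y ∈ MM ω (F : Set (ℤ × ℤ)) (und x) ↔ y ∈ dst ZQ F ω x ∨ y.swap ∈ dst ZQ F ω x := by
  rw [MM_iff hx hy, mem_dst, mem_dst]
  have := swap_mem_dE.mpr hy
  tauto

/-! ## Potentials -/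

theorem hasPotQ_of_hasPot (h : HasPot (F : Set (ℤ × ℤ))) : HasPotQ ZQ F := by
  intro M hM hF
  obtain ⟨Φ, hΦ⟩ := h {a | dir a ∈ M} (by
    intro f hf
    obtain ⟨b, hb⟩ := hF f (by exact_mod_cast hf)
    have key : ∀ k : ZMod 4, su f k ∈ {a : UE | dir a ∈ M} ↔ sd ZQ f k ∈ M := by
      intro k
      rcases sd_dir f k with h1 | h1
      · rw [h1]; rfl
      · rw [h1]
        constructor
        · exact fun h2 => hM _ h2
        · intro h2
          have := hM _ h2
          rwa [Prod.swap_swap] at this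
    have e0 := key 0
    have e1 := key 1
    have e2 := key 2
    have e3 := key 3
    change (bo f ∈ {a : UE | dir a ∈ M} ↔ _) at e0
    change (ri f ∈ {a : UE | dir a ∈ M} ↔ _) at e1
    change (to' f ∈ {a : UE | dir a ∈ M} ↔ _) at e2
    change (le' f ∈ {a : UE | dir a ∈ M} ↔ _) at e3
    unfold EvenAt
    rw [ind2_congr e0, ind2_congr e1, ind2_congr e2, ind2_congr e3]
    cases b
    · have h1 := hb 1 (by decide)
      have h2 := hb 3 (by decide)
      rw [show (1 : ZMod 4) + 1 = 2 by decide] at h1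
      rw [show (3 : ZMod 4) + 1 = 0 by decide] at h2
      rw [ind2_congr h1, ind2_congr h2]
      generalize ind2 (sd ZQ f 0 ∈ M) = p
      generalize ind2 (sd ZQ f 2 ∈ M) = q
      revert p q
      decide
    · have h1 := hb 0 (by decide)
      have h2 := hb 2 (by decide)
      rw [show (0 : ZMod 4) + 1 = 1 by decide] at h1
      rw [show (2 : ZMod 4) + 1 = 3 by decide] at h2
      rw [ind2_congr h1, ind2_congr h2]
      generalize ind2 (sd ZQ f 1 ∈ M) = p
      generalize ind2 (sd ZQ f 3 ∈ M) = q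
      revert p q
      decide)
  refine ⟨Φ, fun x hx => ?_⟩
  obtain ⟨f, hf, hs⟩ := und_side hx
  have h1 := hΦ f (by exact_mod_cast hf) (und x) hs
  change (dir (und x) ∈ M ↔ _) at h1
  rcases dE_dir hx with h2 | h2
  · rw [h2]
    exact h1
  · constructor
    · intro h3
      rw [h2] at h3
      have h4 := hM _ h3
      rw [Prod.swap_swap] at h4
      have h5 := h1.mp h4
      rw [h2]
      exact h5.symm
    · intro h3
      rw [h2] at h3 ⊢
      exact hM _ (h1.mpr h3.symm)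

theorem hasPotQ_of_esc (h : Esc (F : Set (ℤ × ℤ))) : HasPotQ ZQ F :=
  hasPotQ_of_hasPot (h.hasPot' F.finite_toSet)

end

end Pool.Agent.SixB.Tilt
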