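import Pool.Agent.Lib.SixB.CADomKO
import Pool.Agent.Lib.SixB.S3Count
import Pool.Agent.Lib.SixB.S4WallDefs
import Pool.Agent.Lib.SixB.S4Plane
import Pool.Agent.Lib.SixB.PlaneU
import Pool.Agent.Lib.SixB.S4Bridge

/-!
# 6BD block CA, domination from above, deterministic part (D1)

`DomAt E I v r R n₀ J PA PB τ q`: the holes `BR (v i) (r i)`, `i ∈ I`, with outer boxes `BR (v i) (R i)`; an arc of weight
`> 1` (hot) with both ends in one closed outer box is over one of the special vertices `v j`, `j ∈ J`, and has weight at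
most `τ j`; the ends of a hot arc outside of the holes have distance at least `2 n₀`; all weights are at most `q`.

`dom_all`: the product of the weights `max 1 |T p|` over all arcs is at most
`∏ j ∈ J, τ j ^ NA E.F (PA j) (PB j) (v j) (R j) ω * q ^ KO (outF E.F I v r) n₀ ω`.

`LegAt`, `leg`: the arc of a marked side `e` has weight `0` unless it leaves the box of `e`. `abs_W_le`, `abs_num_le`: the
bounds for `E.W` and `E.num` by `majH`, with the indicator of `leg`. `dep_majH`: the bound does not depend on the faces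
of a hole. `exists_maj`: all together. `leg_anti`: the leg at a smaller radius.
-/

set_option autoImplicit false
set_option linter.unusedSectionVars false

namespace Pool.Agent.SixB.Dom

open Finset Pool.Agent.Perc Pool.Agent.Perc.Q Pool.Agent.PercD Pool.Agent.PercN Pool.Agent.SixB.Tilt Relation

noncomputable section

variable {ω ω' : Cfg} {F F' : Finset (ℤ × ℤ)} {a b e x y : DZ} {E : WEnv} {I J : Finset ℕ}
  {v : ℕ → VZ} {r R : ℕ → ℤ} {n₀ : ℤ} {PA PB : ℕ → UE → Prop} {τ : ℕ → ℝ} {q : ℝ}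

/-- the domain without the holes -/
def outF (F : Finset (ℤ × ℤ)) (I : Finset ℕ) (v : ℕ → VZ) (r : ℕ → ℤ) : Finset (ℤ × ℤ) :=
  F.filter fun f => ∀ i ∈ I, f ∉ BR (v i) (r i)

theorem mem_outF {f : ℤ × ℤ} : f ∈ outF F I v r ↔ f ∈ F ∧ ∀ i ∈ I, f ∉ BR (v i) (r i) := by
  unfold outF
  rw [mem_filter]

/-! ### Arcs and undirected strands -/

theorem mate_of_MM (ha : a ∈ bS ZQ F) (hb : b ∈ bS ZQ F)
    (h : und b ∈ MM ω (F : Set (ℤ × ℤ)) (und a)) : b = a ∨ b = mate ZQ F ω a := by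
  have ha' := mem_bS.mp ha
  have hb' := mem_bS.mp hb
  rcases (MM_iff ha'.1 hb'.1).mp h with h1 | h1
  · exact Or.inl (ini_unique ha'.2 hb'.2 h1).symm
  · right
    have h2 : Ter ZQ (F : Set (ℤ × ℤ)) b.swap := ter_swap.mpr hb'.2
    have h3 := srel_lst (ω := ω) ha'.2
    have h4 : b.swap = lst ZQ F ω a :=
      ter_uniq h2 (lst_spec ha'.2).2 (EqvGen.trans _ _ _ (EqvGen.symm _ _ h1) h3)
    unfold mate
    rw [← h4, Prod.swap_swap]

theorem mate_mem_MM (ha : a ∈ bS ZQ F) : und (mate ZQ F ω a) ∈ MM ω (F : Set (ℤ × ℤ)) (und a) := by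
  have ha' := mem_bS.mp ha
  have hm := mem_bS.mp (mate_mem (ω := ω) ha)
  refine (MM_iff ha'.1 hm.1).mpr (Or.inr ?_)
  have h3 := srel_lst (ω := ω) ha'.2
  unfold mate
  rwa [Prod.swap_swap]

/-- Arcs in the same strand are equal. -/
theorem arc_eq (ha : a ∈ bS ZQ F) (hb : b ∈ bS ZQ F)
    (h : und b ∈ MM ω (F : Set (ℤ × ℤ)) (und a)) :
    s(a, mate ZQ F ω a) = s(b, mate ZQ F ω b) := by
  rcases mate_of_MM ha hb h with rfl | rfl
  · rfl
  · rw [mate_mate ha, Sym2.eq_swap]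

/-! ### Crossings -/

/-- A strand which meets the inner box and is not inside of the outer box crosses the annulus. -/
theorem exists_cross {G : Set (ℤ × ℤ)} {c : ℤ × ℤ} {r R : ℤ} {u : UE} (hr : 0 ≤ r) (hrR : r < R)
    (h1 : ∃ x ∈ MM ω G u, InE c r x) (h2 : ∃ y ∈ MM ω G u, InE c R y → BdR c R y) :
    ∃ b' ∈ MM ω G u, BdR c r b' ∧ ∃ a' ∈ MM ω (G ∩ (An c r R : Set (ℤ × ℤ))) b', BdR c R a' := by
  obtain ⟨e, he, hei⟩ := h1
  obtain ⟨a, ha, haR⟩ := h2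
  have hae : a ∈ MM ω G e := MM_trans (MM_symm he) ha
  rcases PercS5.last_exit' hei hae with h1 | ⟨b', h1, h2, h3⟩
  · exfalso
    have h4 := (Sub.refl' (v := c) hrR.le).inE h1
    have h5 := haR h4
    obtain ⟨x, y, d⟩ := a
    unfold InE InR at h1
    unfold BdR BdE at h5
    cases d <;> simp only [ua_mk, ub_false, ub_true] at h1 h5 <;> omega
  · refine ⟨b', MM_trans he h1, h2, ?_⟩
    have hin : InE c R b' := (Sub.refl' hrR.le).inE (h2.inE hr)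
    have hsub : ((G \ (BR c r : Set (ℤ × ℤ))) ∩ (BR c R : Set (ℤ × ℤ))) ⊆
        G ∩ (An c r R : Set (ℤ × ℤ)) := by
      rintro f ⟨⟨hf, hf'⟩, hf2⟩
      refine ⟨hf, ?_⟩
      rw [mem_coe, mem_An]
      exact ⟨mem_coe.1 hf2, fun h => hf' (mem_coe.2 h)⟩
    rcases Perc6.N1Aux.first_exitF hin h3 with h4 | ⟨c', h4, h5⟩
    · have h5 := MM_mono (F' := (BR c R : Set (ℤ × ℤ))) Set.inter_subset_right h4
      exact ⟨a, MM_mono hsub h4, haR (MM_inE hin h5)⟩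
    · exact ⟨c', MM_mono hsub h4, h5⟩

/-- A crossing has large extent. -/
theorem large_of_cross {G : Set (ℤ × ℤ)} {c : ℤ × ℤ} {r R n : ℤ} {b a : UE} (hr : 0 ≤ r)
    (hn : 2 * n ≤ R - r) (hb : BdR c r b) (ha : a ∈ MM ω G b) (haR : BdR c R a) : Large ω G n b := by
  have hin := hb.inE hr
  obtain ⟨x, y, d⟩ := a
  unfold InE InR at hin
  rcases P_cases haR with h | h | h | h
  · refine ⟨b, mem_MM_self, _, ha, Or.inl ?_⟩
    unfold PercN.PR at h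
    rw [ua_mk]
    simp only at h ⊢
    omega
  · refine ⟨_, ha, b, mem_MM_self, Or.inl ?_⟩
    unfold PercN.PL at h
    obtain ⟨rfl, h⟩ := h
    rw [ub_true]
    simp only at h ⊢
    omega
  · refine ⟨b, mem_MM_self, _, ha, Or.inr ?_⟩
    unfold PercN.PT at h
    rw [ua_mk]
    simp only at h ⊢
    omega
  · refine ⟨_, ha, b, mem_MM_self, Or.inr ?_⟩
    unfold PercN.PB at h
    obtain ⟨rfl, h⟩ := h
    rw [ub_false]
    simp only at h ⊢
    omega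

theorem large_mono {G G' : Set (ℤ × ℤ)} {n : ℤ} {b : UE} (hG : G ⊆ G') (h : Large ω G n b) :
    Large ω G' n b := by
  obtain ⟨a₁, h1, a₂, h2, h3⟩ := h
  exact ⟨a₁, MM_mono hG h1, a₂, MM_mono hG h2, h3⟩

theorem large_of_sep {G : Set (ℤ × ℤ)} {n : ℤ} {a b : UE} (h : b ∈ MM ω G a)
    (hs : Sep (2 * n) a b) : Large ω G n a := by
  unfold Sep at hs
  rcases hs with h1 | h1 | h1 | h1
  · exact ⟨a, mem_MM_self, b, h, Or.inl h1⟩
  · exact ⟨b, h, a, mem_MM_self, Or.inl h1⟩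
  · exact ⟨a, mem_MM_self, b, h, Or.inr h1⟩
  · exact ⟨b, h, a, mem_MM_self, Or.inr h1⟩

/-- A strand which does not meet the holes. -/
theorem MM_outF {u w : UE} (h : w ∈ MM ω (F : Set (ℤ × ℤ)) u)
    (hno : ∀ i ∈ I, ∀ x ∈ MM ω (F : Set (ℤ × ℤ)) u, ¬ InE (v i) (r i) x) :
    w ∈ MM ω (outF F I v r : Set (ℤ × ℤ)) u := by
  have key : ∀ w ∈ MM ω (F : Set (ℤ × ℤ)) u, w ∈ MM ω (outF F I v r : Set (ℤ × ℤ)) u := by
    intro w hw
    induction hw with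
    | refl => exact mem_MM_self
    | tail hab hs ih =>
      obtain ⟨f, hf, hm⟩ := hs
      refine MM_step ?_ hm ih
      rw [mem_coe, mem_outF]
      exact ⟨mem_coe.1 hf, fun i hi hc => hno i hi _ hab (inE_of_side (mem_coe.2 hc) hm.left)⟩
  exact key w h

theorem outF_coe_subset : (outF F I v r : Set (ℤ × ℤ)) ⊆ (F : Set (ℤ × ℤ)) := fun _ hf =>
  mem_coe.2 (mem_outF.1 (mem_coe.1 hf)).1

/-! ### Hot arcs -/

/-- the hypotheses of the domination -/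
structure DomAt (E : WEnv) (I : Finset ℕ) (v : ℕ → VZ) (r R : ℕ → ℤ) (n₀ : ℤ) (J : Finset ℕ)
    (PA PB : ℕ → UE → Prop) (τ : ℕ → ℝ) (q : ℝ) : Prop where
  hn : 0 < n₀
  hr : ∀ i ∈ I, 0 ≤ r i
  hR : ∀ i ∈ I, r i + 2 * n₀ ≤ R i
  disj : ∀ i ∈ I, ∀ j ∈ I, i ≠ j → Disjoint (BR (v i) (R i)) (BR (v j) (r j))
  τ1 : ∀ j ∈ J, 1 ≤ τ j
  q1 : 1 ≤ q
  h1 : ∀ a ∈ bS ZQ E.F, ∀ b ∈ bS ZQ E.F, a ≠ b → |E.t a b| ≤ q
  h2 : ∀ a ∈ bS ZQ E.F, ∀ b ∈ bS ZQ E.F, a ≠ b → 1 < |E.t a b| →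
    (∀ i ∈ I, ¬ InE (v i) (r i) (und a)) → (∀ i ∈ I, ¬ InE (v i) (r i) (und b)) →
    Sep (2 * n₀) (und a) (und b)
  h3 : ∀ a ∈ bS ZQ E.F, ∀ b ∈ bS ZQ E.F, a ≠ b → 1 < |E.t a b| → ∀ i ∈ I,
    InE (v i) (R i) (und a) → InE (v i) (R i) (und b) → i ∈ J ∧ |E.t a b| ≤ τ i ∧
      ((PA i (und a) ∧ PB i (und b)) ∨ (PA i (und b) ∧ PB i (und a)))

/-- the arc is over the special vertex and inside of the box -/
def Over (F : Finset (ℤ × ℤ)) (PA PB : UE → Prop) (v : VZ) (R : ℤ) (ω : Cfg) (p : Sym2 DZ) : Prop :=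
  ∃ a ∈ bS ZQ F, s(a, mate ZQ F ω a) = p ∧ PA (und a) ∧ InE v R (und a) ∧
    ∃ b ∈ MM ω ((F : Set (ℤ × ℤ)) ∩ (BR v R : Set (ℤ × ℤ))) (und a), PB b

theorem an_sub_outF (D : DomAt E I v r R n₀ J PA PB τ q) {i : ℕ} (hi : i ∈ I) :
    ((E.F : Set (ℤ × ℤ)) ∩ (An (v i) (r i) (R i) : Set (ℤ × ℤ))) ⊆
      (outF E.F I v r : Set (ℤ × ℤ)) := by
  rintro f ⟨hf, hf'⟩
  rw [mem_coe, mem_An] at hf'
  rw [mem_coe, mem_outF]
  refine ⟨mem_coe.1 hf, fun j hj hc => ?_⟩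
  by_cases hij : i = j
  · subst hij
    exact hf'.2 hc
  · exact Finset.disjoint_left.mp (D.disj i hi j hj hij) hf'.1 hc

theorem hot_cases (D : DomAt E I v r R n₀ J PA PB τ q) (ha : a ∈ bS ZQ E.F)
    (hot : 1 < |E.t a (mate ZQ E.F ω a)|) :
    (∃ j ∈ J, |E.t a (mate ZQ E.F ω a)| ≤ τ j ∧
      Over E.F (PA j) (PB j) (v j) (R j) ω s(a, mate ZQ E.F ω a)) ∨
    ∃ c ∈ MM ω (E.F : Set (ℤ × ℤ)) (und a), Large ω (outF E.F I v r : Set (ℤ × ℤ)) n₀ c := by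
  have hm : mate ZQ E.F ω a ∈ bS ZQ E.F := mate_mem ha
  have hne : a ≠ mate ZQ E.F ω a := (mate_ne zq_noLoop ha).symm
  have hmm := mate_mem_MM (ω := ω) ha
  by_cases H : ∃ i ∈ I, ∃ x ∈ MM ω (E.F : Set (ℤ × ℤ)) (und a), InE (v i) (r i) x
  · obtain ⟨i, hi, x, hx, hxi⟩ := H
    have hrR : r i < R i := by
      have := D.hR i hi
      have := D.hn
      omega
    have fin : (∃ y ∈ MM ω (E.F : Set (ℤ × ℤ)) (und a), InE (v i) (R i) y → BdR (v i) (R i) y) →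
        ∃ c ∈ MM ω (E.F : Set (ℤ × ℤ)) (und a),
          Large ω (outF E.F I v r : Set (ℤ × ℤ)) n₀ c := by
      intro hy
      obtain ⟨b', h1, h2, a', h3, h4⟩ := exists_cross (D.hr i hi) hrR ⟨x, hx, hxi⟩ hy
      refine ⟨b', h1, large_mono (an_sub_outF D hi) (large_of_cross (D.hr i hi) ?_ h2 h3 h4)⟩
      have := D.hR i hi
      omega
    by_cases hA : InE (v i) (R i) (und a)
    · by_cases hB : InE (v i) (R i) (und (mate ZQ E.F ω a))
      · obtain ⟨hJ, hτ, hP⟩ := D.h3 a ha _ hm hne hot i hi hA hB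
        by_cases hc : und (mate ZQ E.F ω a) ∈
            MM ω ((E.F : Set (ℤ × ℤ)) ∩ (BR (v i) (R i) : Set (ℤ × ℤ))) (und a)
        · left
          refine ⟨i, hJ, hτ, ?_⟩
          rcases hP with ⟨h1, h2⟩ | ⟨h1, h2⟩
          · exact ⟨a, ha, rfl, h1, hA, _, hc, h2⟩
          · refine ⟨_, hm, ?_, h1, hB, _, MM_symm hc, h2⟩
            rw [mate_mate ha, Sym2.eq_swap]
        · right
          rcases PercS5.first_exit' (F := (E.F : Set (ℤ × ℤ)) ∩ (BR (v i) (R i) : Set (ℤ × ℤ)))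
            hmm with h5 | ⟨c, h5, f, hf, hf', hs⟩
          · exact absurd h5 hc
          · refine fin ⟨c, MM_mono Set.inter_subset_left h5, fun hin => bd_of_side hin hs ?_⟩
            intro hcc
            exact hf' ⟨hf, hcc⟩
      · exact Or.inr (fin ⟨_, hmm, fun h => absurd h hB⟩)
    · exact Or.inr (fin ⟨_, mem_MM_self, fun h => absurd h hA⟩)
  · right
    have hno : ∀ i ∈ I, ∀ x ∈ MM ω (E.F : Set (ℤ × ℤ)) (und a), ¬ InE (v i) (r i) x :=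
      fun i hi x hx hc => H ⟨i, hi, x, hx, hc⟩
    refine ⟨_, mem_MM_self, large_of_sep (MM_outF hmm hno) ?_⟩
    exact D.h2 a ha _ hm hne hot (fun i hi => hno i hi _ mem_MM_self) fun i hi => hno i hi _ hmm

/-! ### The number of hot arcs -/

theorem card_over_le {PA PB : UE → Prop} {v : VZ} {R : ℤ} {A : Finset (Sym2 DZ)}
    (hA : ∀ p ∈ A, Over F PA PB v R ω p) : A.card ≤ NA (F : Set (ℤ × ℤ)) PA PB v R ω := by
  classical
  have H : ∀ p ∈ A, ∃ a, a ∈ bS ZQ F ∧ s(a, mate ZQ F ω a) = p ∧ PA (und a) ∧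
      InE v R (und a) ∧ ∃ b ∈ MM ω ((F : Set (ℤ × ℤ)) ∩ (BR v R : Set (ℤ × ℤ))) (und a), PB b := by
    intro p hp
    obtain ⟨a, h1, h2, h3⟩ := hA p hp
    exact ⟨a, h1, h2, h3⟩
  choose! g h1 h2 h3 h4 h5 using H
  unfold NA NS
  refine card_le_card_of_injOn (fun p => und (g p)) (fun p hp => ?_) ?_
  · rw [mem_coe, mem_filter]
    exact ⟨(h4 p (mem_coe.1 hp)).mem_UB, h3 p (mem_coe.1 hp), h5 p (mem_coe.1 hp)⟩
  · intro p hp p' hp' hpp
    have e1 : und (g p') = und (g p) := hpp.symm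
    have h6 := arc_eq (ω := ω) (h1 p (mem_coe.1 hp)) (h1 p' (mem_coe.1 hp'))
      (by rw [e1]; exact mem_MM_self)
    rw [h2 p (mem_coe.1 hp), h2 p' (mem_coe.1 hp')] at h6
    exact h6

theorem card_large_le (hn : 0 < n₀) {A : Finset (Sym2 DZ)}
    (hA : ∀ p ∈ A, ∃ a ∈ bS ZQ F, s(a, mate ZQ F ω a) = p ∧
      ∃ c ∈ MM ω (F : Set (ℤ × ℤ)) (und a), Large ω (outF F I v r : Set (ℤ × ℤ)) n₀ c) :
    A.card ≤ KO (outF F I v r) n₀ ω := by
  classical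
  have H : ∀ p ∈ A, ∃ a c, a ∈ bS ZQ F ∧ s(a, mate ZQ F ω a) = p ∧
      c ∈ MM ω (F : Set (ℤ × ℤ)) (und a) ∧ Large ω (outF F I v r : Set (ℤ × ℤ)) n₀ c := by
    intro p hp
    obtain ⟨a, h1, h2, c, h3, h4⟩ := hA p hp
    exact ⟨a, c, h1, h2, h3, h4⟩
  choose! g c h1 h2 h3 h4 using H
  have key : ∀ p ∈ A, ∀ p' ∈ A, c p' ∈ MM ω (F : Set (ℤ × ℤ)) (c p) → p = p' := by
    intro p hp p' hp' h
    have h5 : und (g p') ∈ MM ω (F : Set (ℤ × ℤ)) (und (g p)) :=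
      MM_trans (MM_trans (h3 p hp) h) (MM_symm (h3 p' hp'))
    have h6 := arc_eq (ω := ω) (h1 p hp) (h1 p' hp') h5
    rwa [h2 p hp, h2 p' hp'] at h6
  have hinj : (A.image c).card = A.card := card_image_of_injOn fun p hp p' hp' hpp => by
    refine key p (mem_coe.1 hp) p' (mem_coe.1 hp') ?_
    have hpp' : c p = c p' := hpp
    rw [hpp']
    exact mem_MM_self
  rw [← hinj]
  refine card_le_KO hn ?_ ?_
  · intro x hx y hy hxy
    obtain ⟨p, hp, rfl⟩ := mem_image.1 hx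
    obtain ⟨p', hp', rfl⟩ := mem_image.1 hy
    rw [key p hp p' hp' (MM_mono outF_coe_subset hxy)]
  · intro x hx
    obtain ⟨p, hp, rfl⟩ := mem_image.1 hx
    exact h4 p hp

/-! ### The product -/

/-- the bound for the product of the weights -/
def domB (F : Finset (ℤ × ℤ)) (I : Finset ℕ) (v : ℕ → VZ) (r R : ℕ → ℤ) (n₀ : ℤ) (J : Finset ℕ)
    (PA PB : ℕ → UE → Prop) (τ : ℕ → ℝ) (q : ℝ) (ω : Cfg) : ℝ :=
  (∏ j ∈ J, τ j ^ NA (F : Set (ℤ × ℤ)) (PA j) (PB j) (v j) (R j) ω) * q ^ KO (outF F I v r) n₀ ω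

theorem one_le_prod' {ι : Type} (s : Finset ι) {f : ι → ℝ} (h : ∀ i ∈ s, 1 ≤ f i) :
    1 ≤ ∏ i ∈ s, f i := by
  have := Finset.prod_le_prod (s := s) (f := fun _ => (1 : ℝ)) (g := f)
    (fun _ _ => zero_le_one) h
  rwa [Finset.prod_const_one] at this

theorem le_prod' {ι : Type} [DecidableEq ι] {s : Finset ι} {f : ι → ℝ} (h : ∀ i ∈ s, 1 ≤ f i)
    {j : ι} (hj : j ∈ s) : f j ≤ ∏ i ∈ s, f i := by
  rw [← Finset.mul_prod_erase s f hj]
  have h1 := one_le_prod' (s.erase j) fun i hi => h i (Finset.mem_of_mem_erase hi)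
  have h2 := h j hj
  nlinarith

theorem prod_ite_pow {α : Type} (s : Finset α) (P : α → Prop) [DecidablePred P] (c : ℝ) :
    ∏ p ∈ s, (if P p then c else 1) = c ^ (s.filter P).card := by
  rw [Finset.prod_ite, Finset.prod_const, Finset.prod_const_one, mul_one]

theorem domB_one_le (D : DomAt E I v r R n₀ J PA PB τ q) (ω : Cfg) :
    1 ≤ domB E.F I v r R n₀ J PA PB τ q ω := by
  unfold domB
  have h1 := one_le_prod' J (f := fun j => τ j ^ NA (E.F : Set (ℤ × ℤ)) (PA j) (PB j) (v j) (R j) ω)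
    fun j hj => one_le_pow₀ (D.τ1 j hj)
  have h2 : 1 ≤ q ^ KO (outF E.F I v r) n₀ ω := one_le_pow₀ D.q1
  nlinarith

/-- **The product of the weights of all arcs.** -/
theorem dom_all (D : DomAt E I v r R n₀ J PA PB τ q) (ω : Cfg) :
    ∏ p ∈ arcs ZQ E.F ω, max 1 |E.T p| ≤ domB E.F I v r R n₀ J PA PB τ q ω := by
  classical
  have step : ∀ p ∈ arcs ZQ E.F ω, max 1 |E.T p| ≤
      (∏ j ∈ J, if Over E.F (PA j) (PB j) (v j) (R j) ω p then τ j else 1) *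
      (if ∃ a ∈ bS ZQ E.F, s(a, mate ZQ E.F ω a) = p ∧
        ∃ c ∈ MM ω (E.F : Set (ℤ × ℤ)) (und a), Large ω (outF E.F I v r : Set (ℤ × ℤ)) n₀ c
        then q else 1) := by
    intro p hp
    obtain ⟨a, ha, rfl⟩ := mem_arcs.mp hp
    have hT : E.T s(a, mate ZQ E.F ω a) = E.t a (mate ZQ E.F ω a) := rfl
    have hf : ∀ j ∈ J, 1 ≤ (if Over E.F (PA j) (PB j) (v j) (R j) ω s(a, mate ZQ E.F ω a)
        then τ j else (1 : ℝ)) := by
      intro j hj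
      split_ifs
      · exact D.τ1 j hj
      · exact le_refl _
    have h1 := one_le_prod' J hf
    have hq := D.q1
    by_cases hot : 1 < |E.t a (mate ZQ E.F ω a)|
    · rw [hT, max_eq_right hot.le]
      rcases hot_cases D ha hot with ⟨j, hj, h2, h3⟩ | h2
      · have h4 := le_prod' hf hj
        rw [if_pos h3] at h4
        have h5 : (1 : ℝ) ≤ (if ∃ a_1 ∈ bS ZQ E.F, s(a_1, mate ZQ E.F ω a_1) =
          s(a, mate ZQ E.F ω a) ∧ ∃ c ∈ MM ω (E.F : Set (ℤ × ℤ)) (und a_1),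
            Large ω (outF E.F I v r : Set (ℤ × ℤ)) n₀ c then q else 1) := by
          split_ifs
          · exact hq
          · exact le_refl _
        have h6 := D.τ1 j hj
        nlinarith
      · rw [if_pos ⟨a, ha, rfl, h2⟩]
        have h3 := D.h1 a ha _ (mate_mem (ω := ω) ha) (mate_ne zq_noLoop ha).symm
        nlinarith
    · rw [hT, max_eq_left (not_lt.mp hot)]
      split_ifs
      · nlinarith
      · nlinarith
  have h0 : ∀ p ∈ arcs ZQ E.F ω, (0 : ℝ) ≤ max 1 |E.T p| := fun p _ =>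
    le_trans zero_le_one (le_max_left _ _)
  refine (Finset.prod_le_prod h0 step).trans ?_
  rw [Finset.prod_mul_distrib, Finset.prod_comm, prod_ite_pow]
  unfold domB
  refine mul_le_mul ?_ ?_ (pow_nonneg (le_trans zero_le_one D.q1) _) ?_
  · refine Finset.prod_le_prod (fun j hj => ?_) fun j hj => ?_
    · refine Finset.prod_nonneg fun p _ => ?_
      split_ifs
      · exact le_trans zero_le_one (D.τ1 j hj)
      · exact zero_le_one
    · rw [prod_ite_pow]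
      exact pow_le_pow_right₀ (D.τ1 j hj) (card_over_le fun p hp => (mem_filter.1 hp).2)
  · exact pow_le_pow_right₀ D.q1 (card_large_le D.hn fun p hp => (mem_filter.1 hp).2)
  · exact Finset.prod_nonneg fun j hj => pow_nonneg (le_trans zero_le_one (D.τ1 j hj)) _

/-- The product over any set of arcs. -/
theorem dom_sub (D : DomAt E I v r R n₀ J PA PB τ q) (ω : Cfg) {A : Finset (Sym2 DZ)}
    (hA : A ⊆ arcs ZQ E.F ω) : ∏ p ∈ A, |E.T p| ≤ domB E.F I v r R n₀ J PA PB τ q ω := by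
  classical
  refine le_trans ?_ (dom_all D ω)
  rw [← Finset.prod_sdiff hA]
  have h1 : ∏ p ∈ A, |E.T p| ≤ ∏ p ∈ A, max 1 |E.T p| :=
    Finset.prod_le_prod (fun _ _ => abs_nonneg _) fun _ _ => le_max_right _ _
  have h2 : 1 ≤ ∏ p ∈ arcs ZQ E.F ω \ A, max 1 |E.T p| := one_le_prod' _ fun _ _ => le_max_left _ _
  have h3 : 0 ≤ ∏ p ∈ A, max 1 |E.T p| := Finset.prod_nonneg fun _ _ =>
    le_trans zero_le_one (le_max_left _ _)
  nlinarith

/-! ### The marked side -/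

/-- the strand of `e` leaves the box -/
def leg (F : Finset (ℤ × ℤ)) (e : DZ) (v : VZ) (ρ : ℤ) (ω : Cfg) : Prop :=
  ∃ c ∈ MM ω ((F : Set (ℤ × ℤ)) ∩ (BR v ρ : Set (ℤ × ℤ))) (und e), BdR v ρ c

/-- arcs of `e` which do not leave the box have weight `0` -/
structure LegAt (E : WEnv) (e : DZ) (v : VZ) (ρ : ℤ) : Prop where
  mem : e ∈ bS ZQ E.F
  inE : InE v ρ (und e)
  far : ∀ b ∈ bS ZQ E.F, b ≠ e → E.t e b ≠ 0 → ¬ InE v ρ (und b)

theorem leg_of_out {v : VZ} {ρ : ℤ} (he : InE v ρ (und e)) {c : UE}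
    (hc : c ∈ MM ω (F : Set (ℤ × ℤ)) (und e)) (hout : ¬ InE v ρ c) : leg F e v ρ ω := by
  rcases Perc6.N1Aux.first_exitF he hc with h | ⟨b, h1, h2⟩
  · exact absurd (MM_inE he (MM_mono Set.inter_subset_right h)) hout
  · exact ⟨b, h1, h2⟩

theorem LegAt.leg_of {v : VZ} {ρ : ℤ} (L : LegAt E e v ρ)
    (h : E.T s(e, mate ZQ E.F ω e) ≠ 0) : leg E.F e v ρ ω :=
  leg_of_out L.inE (mate_mem_MM L.mem) (L.far _ (mate_mem L.mem) (mate_ne zq_noLoop L.mem) h)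

/-! ### The bounds for the weight and for the numerator -/

theorem abs_W_le_domB (D : DomAt E I v r R n₀ J PA PB τ q) (ω : Cfg) :
    |E.W ω| ≤ domB E.F I v r R n₀ J PA PB τ q ω := by
  unfold WEnv.W
  rw [Finset.abs_prod]
  exact dom_sub D ω (Finset.Subset.refl _)

/-- a general bound for the numerator, with an event which holds if the weight of the arcs is not `0` -/
theorem abs_num_le_of (D : DomAt E I v r R n₀ J PA PB τ q)
    (hs : ∀ a ∈ bS ZQ E.F, ∀ b ∈ bS ZQ E.F, a ≠ b → |E.s a b| ≤ 2) (ω : Cfg) {z : DZ}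
    (hz : z ∈ dE ZQ E.F) : |E.num ω z| ≤ 2 * domB E.F I v r R n₀ J PA PB τ q ω := by
  classical
  have hB := domB_one_le D ω
  unfold WEnv.num
  split_ifs with hc
  · have h1 := abs_W_le_domB D ω
    have h3 : Real.sqrt 3 ≤ 2 := by
      rw [show (2 : ℝ) = Real.sqrt 4 by
        rw [show (4 : ℝ) = 2 ^ 2 by norm_num, Real.sqrt_sq (by norm_num)]]
      exact Real.sqrt_le_sqrt (by norm_num)
    have h4 : |Real.sqrt 3 / 4 * (trn ZQ E.F ω z : ℝ)| ≤ 2 := by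
      rcases uml_ZQ E.F ω z hc with h5 | h5
      · rw [h5]
        push_cast
        rw [show Real.sqrt 3 / 4 * 4 = Real.sqrt 3 by ring, abs_of_nonneg (Real.sqrt_nonneg 3)]
        exact h3
      · rw [h5]
        push_cast
        rw [show Real.sqrt 3 / 4 * -4 = -Real.sqrt 3 by ring, abs_neg,
          abs_of_nonneg (Real.sqrt_nonneg 3)]
        exact h3
    rw [abs_mul]
    exact mul_le_mul h4 h1 (abs_nonneg _) (by norm_num)
  · obtain ⟨h1, h2⟩ := start_spec hz hc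
    rw [abs_mul, Finset.abs_prod]
    refine mul_le_mul (hs _ h1 _ (mate_mem h1) (mate_ne zq_noLoop h1).symm)
      (dom_sub D ω (Finset.erase_subset _ _)) (Finset.prod_nonneg fun _ _ => abs_nonneg _)
      (by norm_num)

theorem W_eq_zero {v : VZ} {ρ : ℤ} (L : LegAt E e v ρ) (h : ¬ leg E.F e v ρ ω) : E.W ω = 0 := by
  classical
  have h1 : E.T s(e, mate ZQ E.F ω e) = 0 := by
    by_contra hc
    exact h (L.leg_of hc)
  unfold WEnv.W
  exact Finset.prod_eq_zero (mem_arcs.mpr ⟨e, L.mem, rfl⟩) h1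

theorem num_eq_zero {v : VZ} {ρ : ℤ} (L : LegAt E e v ρ) (h : ¬ leg E.F e v ρ ω) {z : DZ}
    (hz : z ∈ dE ZQ E.F) (hzo : ¬ InE v ρ (und z)) : E.num ω z = 0 := by
  classical
  have h1 : E.T s(e, mate ZQ E.F ω e) = 0 := by
    by_contra hc
    exact h (L.leg_of hc)
  unfold WEnv.num
  split_ifs with hc
  · rw [W_eq_zero L h, mul_zero]
  · obtain ⟨h2, h3⟩ := start_spec hz hc
    refine mul_eq_zero_of_right _ (Finset.prod_eq_zero (i := s(e, mate ZQ E.F ω e)) ?_ h1)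
    refine Finset.mem_erase.mpr ⟨fun heq => ?_, mem_arcs.mpr ⟨e, L.mem, rfl⟩⟩
    -- the strand of `z` is the strand of `e`
    have h4 : und z ∈ MM ω (E.F : Set (ℤ × ℤ)) (und (stt E.F ω z)) := MM_of_srel h3
    have h5 : und z ∈ MM ω (E.F : Set (ℤ × ℤ)) (und e) := by
      have heq' : s(e, mate ZQ E.F ω e) = s(stt E.F ω z, mate ZQ E.F ω (stt E.F ω z)) := heq
      rcases Sym2.eq_iff.mp heq' with ⟨h6, -⟩ | ⟨h6, -⟩
      · rwa [← h6] at h4
      · rw [h6]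
        exact MM_trans (MM_symm (mate_mem_MM h2)) h4
    exact h (leg_of_out L.inE h5 hzo)

/-! ### The majorant -/

open Classical in
/-- the majorant -/
def majH (F : Finset (ℤ × ℤ)) (I : Finset ℕ) (v : ℕ → VZ) (r R : ℕ → ℤ) (n₀ : ℤ) (J : Finset ℕ)
    (PA PB : ℕ → UE → Prop) (τ : ℕ → ℝ) (q : ℝ) (e : DZ) (ve : VZ) (ρ : ℤ) (ω : Cfg) : ℝ :=
  (if leg F e ve ρ ω then 1 else 0) * domB F I v r R n₀ J PA PB τ q ω

theorem abs_W_le {ve : VZ} {ρ : ℤ} (D : DomAt E I v r R n₀ J PA PB τ q) (L : LegAt E e ve ρ)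
    (ω : Cfg) : |E.W ω| ≤ majH E.F I v r R n₀ J PA PB τ q e ve ρ ω := by
  unfold majH
  split_ifs with h
  · rw [one_mul]
    exact abs_W_le_domB D ω
  · rw [W_eq_zero L h, abs_zero, zero_mul]

theorem abs_num_le {ve : VZ} {ρ : ℤ} (D : DomAt E I v r R n₀ J PA PB τ q) (L : LegAt E e ve ρ)
    (hs : ∀ a ∈ bS ZQ E.F, ∀ b ∈ bS ZQ E.F, a ≠ b → |E.s a b| ≤ 2) (ω : Cfg) {z : DZ}
    (hz : z ∈ dE ZQ E.F) (hzo : ¬ InE ve ρ (und z)) :
    |E.num ω z| ≤ 2 * majH E.F I v r R n₀ J PA PB τ q e ve ρ ω := by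
  unfold majH
  split_ifs with h
  · rw [one_mul]
    exact abs_num_le_of D hs ω hz
  · rw [num_eq_zero L h hz hzo, abs_zero, zero_mul, mul_zero]

theorem dep_domB {B : Finset (ℤ × ℤ)} (hI : ∀ f ∈ F, f ∈ B → ∃ i ∈ I, f ∈ BR (v i) (r i))
    (hJ : ∀ j ∈ J, ∀ f ∈ B, f ∉ BR (v j) (R j)) :
    Dep ((F \ B : Finset (ℤ × ℤ)) : Set (ℤ × ℤ)) (domB F I v r R n₀ J PA PB τ q) := by
  intro ω ω' h
  unfold domB
  have h1 : KO (outF F I v r) n₀ ω = KO (outF F I v r) n₀ ω' := by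
    refine depN_KO (outF F I v r) n₀ ω ω' fun f hf => h f ?_
    rw [mem_coe, mem_outF] at hf
    rw [mem_coe, mem_sdiff]
    refine ⟨hf.1, fun hc => ?_⟩
    obtain ⟨i, hi, hfi⟩ := hI f hf.1 hc
    exact hf.2 i hi hfi
  rw [h1]
  congr 1
  refine Finset.prod_congr rfl fun j hj => ?_
  rw [depN_NA (F : Set (ℤ × ℤ)) (PA j) (PB j) (v j) (R j) ω ω' fun f hf => h f ?_]
  rw [mem_coe, mem_sdiff]
  exact ⟨mem_coe.1 hf.1, fun hc => hJ j hj f hc (mem_coe.1 hf.2)⟩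

theorem leg_congr {ve : VZ} {ρ : ℤ} (h : ∀ f ∈ F, f ∈ BR ve ρ → ω f = ω' f) :
    leg F e ve ρ ω ↔ leg F e ve ρ ω' := by
  unfold leg
  rw [MM_congr' (ω := ω) (ω' := ω') (F := (F : Set (ℤ × ℤ)) ∩ (BR ve ρ : Set (ℤ × ℤ)))
    fun f hf => h f (mem_coe.1 hf.1) (mem_coe.1 hf.2)]

theorem dep_majH {B : Finset (ℤ × ℤ)} {ve : VZ} {ρ : ℤ}
    (hI : ∀ f ∈ F, f ∈ B → ∃ i ∈ I, f ∈ BR (v i) (r i))
    (hJ : ∀ j ∈ J, ∀ f ∈ B, f ∉ BR (v j) (R j)) (he : ∀ f ∈ B, f ∉ BR ve ρ) :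
    Dep ((F \ B : Finset (ℤ × ℤ)) : Set (ℤ × ℤ)) (majH F I v r R n₀ J PA PB τ q e ve ρ) := by
  classical
  intro ω ω' h
  have h1 := dep_domB (F := F) (I := I) (v := v) (r := r) (R := R) (n₀ := n₀) (J := J) (PA := PA)
    (PB := PB) (τ := τ) (q := q) hI hJ ω ω' h
  have h2 : leg F e ve ρ ω ↔ leg F e ve ρ ω' := leg_congr fun f hf hfe => h f (by
    rw [mem_coe, mem_sdiff]
    exact ⟨hf, fun hc => he f hc hfe⟩)
  unfold majH
  rw [h1]
  by_cases h3 : leg F e ve ρ ω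
  · rw [if_pos h3, if_pos (h2.mp h3)]
  · rw [if_neg h3, if_neg fun h4 => h3 (h2.mpr h4)]

/-- The leg at a smaller radius. -/
theorem leg_anti {ve : VZ} {ρ ρ' : ℤ} (hρ : ρ' ≤ ρ) (he : InE ve ρ' (und e))
    (h : leg F e ve ρ ω) : leg F e ve ρ' ω := by
  rcases hρ.lt_or_eq with hlt | rfl
  · obtain ⟨c, hc, hcb⟩ := h
    refine leg_of_out he (MM_mono Set.inter_subset_left hc) fun hin => ?_
    obtain ⟨x, y, d⟩ := c
    unfold InE InR at hin
    unfold BdR BdE at hcb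
    cases d <;> simp only [ua_mk, ub_false, ub_true] at hin hcb <;> omega
  · exact h

/-- **The majorant for a hole `B`.** -/
theorem exists_maj {B : Finset (ℤ × ℤ)} {ve : VZ} {ρ : ℤ} {M : ℝ}
    (D : DomAt E I v r R n₀ J PA PB τ q) (L : LegAt E e ve ρ)
    (hs : ∀ a ∈ bS ZQ E.F, ∀ b ∈ bS ZQ E.F, a ≠ b → |E.s a b| ≤ 2)
    (hI : ∀ f ∈ E.F, f ∈ B → ∃ i ∈ I, f ∈ BR (v i) (r i))
    (hJ : ∀ j ∈ J, ∀ f ∈ B, f ∉ BR (v j) (R j))
    (he : ∀ f ∈ B, ∀ u : UE, IsSide f u → ¬ InE ve ρ u)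
    (hM : av E.F (majH E.F I v r R n₀ J PA PB τ q e ve ρ) ≤ M * E.Z) :
    ∃ H : Cfg → ℝ, Dep ((E.F \ B : Finset (ℤ × ℤ)) : Set (ℤ × ℤ)) H ∧ (∀ ω, |E.W ω| ≤ H ω) ∧
      (∀ ω, ∀ z ∈ dE ZQ E.F, (∃ f ∈ B, IsSide f (und z)) → |E.num ω z| ≤ 2 * H ω) ∧
      av E.F H ≤ M * E.Z := by
  refine ⟨_, dep_majH hI hJ (fun f hf hc => he f hf (bo f) (Or.inl rfl)
    (inE_of_side (mem_coe.2 hc) (Or.inl rfl))), abs_W_le D L, fun ω z hz hf => ?_, hM⟩
  obtain ⟨f, hf, hfs⟩ := hf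
  exact abs_num_le D L hs ω hz (he f hf _ hfs)

/-! ### Distances -/

theorem und_near (ha : a ∈ dE ZQ F) : (ub (und a)).1 ≤ a.1.1 + 1 ∧ a.1.1 - 1 ≤ (ua (und a)).1 ∧
    (ub (und a)).2 ≤ a.1.2 + 1 ∧ a.1.2 - 1 ≤ (ua (und a)).2 := by
  rcases dE_dir ha with h | h
  all_goals
    generalize hu : und a = u at h ⊢
    obtain ⟨x, y, c⟩ := u
    rw [h]
    unfold dir
    cases c <;> simp only [Prod.swap, ua_mk, ub_false, ub_true] <;> omega

/-- The first vertices have sup distance at least `m + 2`. -/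
theorem sep_of_dist {m : ℤ} (ha : a ∈ dE ZQ F) {G : Finset (ℤ × ℤ)} (hb : b ∈ dE ZQ G)
    (h : m + 2 ≤ |a.1.1 - b.1.1| ∨ m + 2 ≤ |a.1.2 - b.1.2|) : Sep m (und a) (und b) := by
  have h1 := und_near ha
  have h2 := und_near hb
  unfold Sep
  rcases h with h | h
  · rcases abs_choice (a.1.1 - b.1.1) with h3 | h3 <;> rw [h3] at h <;> omega
  · rcases abs_choice (a.1.2 - b.1.2) with h3 | h3 <;> rw [h3] at h <;> omega

end

end Pool.Agent.SixB.Dom
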