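import Pool.Agent.Lib.SixB.CADomUpC
import Pool.Agent.Lib.SixB.CADomD2

/-!
# 6BD block CA, domination: the final theorems `resX`, `majX`, `majP`
-/

set_option autoImplicit false

namespace Pool.Agent.SixB.DomX

/-- **domination of the full environment** -/
theorem resX : ResX := resX_of_det Dom.detX

/-- **`GG.Maj` for the full environment** -/
theorem majX : MajX := majX_of_det Dom.detX

/-- **`GG.Maj` for the environment with two marks** -/
theorem majP : MajP := majP_of_det Dom.detP

end Pool.Agent.SixB.DomX
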