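import Pool.Agent.Lib.SixB.CAIn

/-!
# 6BD block CA: the ratio law in the limit

`ae_fill`: equicontinuity off a finite set and small oscillation at its points.
`ratio_limit`: `log Kt(a2') - log Kt(a2)` is asymptotically `π/3` times the difference of the natural functions.
-/

set_option autoImplicit false

namespace Pool.Agent.SixB

open Filter Topology
open DC (AE)

noncomputable section

/-- geometric facts about the contour -/
structure GeoIn (P : Finset (ℤ × ℤ)) (L : ℕ) (g : ℤ → ℤ × ℤ) : Prop where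
  flgr : ∀ (n : ℕ) (k : ℤ), 0 < n → fl n (gam g ((k : ℝ) / n)) = gr n g k
  cont : Continuous (gam g)
  wall : ∀ t : ℝ, Fl g t → ∃ ν : ℂ, Wall P (gam g t) ν
  mem : ∀ t : ℝ, gam g t ∈ Cl P
  notMem : ∀ t : ℝ, gam g t ∉ Om P
  per : ∀ t : ℝ, gam g (t + L) = gam g t
  inj : ∀ s t : ℝ, gam g s = gam g t → ∃ m : ℤ, s - t = m * L
  fin : (corners P).Finite

/-- uniqueness with one weak pole -/
def N2P (P : Finset (ℤ × ℤ)) : Prop :=
  ∀ (X : Set ℂ) (x : ℂ) (C c : ℝ), X.Finite → (∀ z ∈ X, z ∉ Om P) → corners P ⊆ X → x ∈ X →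
    (∃ ν : ℂ, Wall P x ν) → 0 < c →
    ∀ U : ℂ → ℝ, InnerProductSpace.HarmonicOnNhd U (Om P) → ContinuousOn U (Cl P \ {x}) →
      (∀ p ν : ℂ, p ∉ X → Wall P p ν → NeuAt P U p ν) →
      (∀ z ∈ Cl P, z ≠ x → |U z| ≤ C + C * ‖z - x‖ ^ (c - 1)) →
        ∃ a : ℝ, ∀ z ∈ Cl P \ {x}, U z = a

instance (ξ : ℝ) : (lk ξ).IsCountablyGenerated := by
  unfold lk
  infer_instance

theorem lk_n (ξ : ℝ) : Tendsto (fun p : ℕ × ℤ => p.1) (lk ξ) atTop :=
  tendsto_comap.mono_left inf_le_left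

theorem lk_k (ξ : ℝ) : Tendsto (fun p : ℕ × ℤ => (p.2 : ℝ) / p.1) (lk ξ) (𝓝 ξ) :=
  tendsto_comap.mono_left inf_le_right

theorem ix_div (t : ℝ) : Tendsto (fun n : ℕ => (ix n t : ℝ) / n) atTop (𝓝 t) := by
  have h1 : Tendsto (fun n : ℕ => t - 1 / (n : ℝ)) atTop (𝓝 (t - 0)) :=
    tendsto_const_nhds.sub tendsto_one_div_atTop_nhds_zero_nat
  rw [sub_zero] at h1
  refine tendsto_of_tendsto_of_tendsto_of_le_of_le' h1 tendsto_const_nhds ?_ ?_
  · filter_upwards [eventually_gt_atTop 0] with n hn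
    have hn' : (0 : ℝ) < n := by exact_mod_cast hn
    have h2 : (n : ℝ) * t - 1 < (ix n t : ℝ) := Int.sub_one_lt_floor _
    rw [le_div_iff₀ hn']
    have h3 : (t - 1 / (n : ℝ)) * n = n * t - 1 := by field_simp
    rw [h3]
    exact h2.le
  · filter_upwards [eventually_gt_atTop 0] with n hn
    have hn' : (0 : ℝ) < n := by exact_mod_cast hn
    have h2 : (ix n t : ℝ) ≤ (n : ℝ) * t := Int.floor_le _
    rw [div_le_iff₀ hn']
    linarith

/-- equicontinuity off a finite set plus small oscillation at its points, except at `x` -/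
theorem ae_fill {ι : Type*} {l : Filter ι} {F : ι → ℂ → ℝ} {S X : Set ℂ} {x : ℂ}
    (hX : X.Finite) (h : AE l F (S ∩ Xᶜ))
    (hosc : ∀ v ∈ X, v ≠ x → ∀ ε : ℝ, 0 < ε → ∃ δ : ℝ, 0 < δ ∧ ∀ᶠ i in l, ∀ z ∈ S, ∀ w ∈ S,
      ‖z - v‖ < δ → ‖w - v‖ < δ → |F i z - F i w| ≤ ε) : AE l F (S ∩ {x}ᶜ) := by
  classical
  intro K hK hKc ε hε
  have h1 : ∀ v : ℂ, ∃ δ : ℝ, 0 < δ ∧ (v ∈ X → v ≠ x → ∀ᶠ i in l, ∀ z ∈ S, ∀ w ∈ S,
      ‖z - v‖ < δ → ‖w - v‖ < δ → |F i z - F i w| ≤ ε / 2) := by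
    intro v
    by_cases hv : v ∈ X ∧ v ≠ x
    · obtain ⟨δ, hδ, h2⟩ := hosc v hv.1 hv.2 (ε / 2) (by positivity)
      exact ⟨δ, hδ, fun _ _ => h2⟩
    · exact ⟨1, one_pos, fun h3 h4 => absurd ⟨h3, h4⟩ hv⟩
  choose δ hδ hδ2 using h1
  set Y : Finset ℂ := hX.toFinset.erase x with hY
  have hYmem : ∀ v, v ∈ Y ↔ v ≠ x ∧ v ∈ X := by
    intro v
    simp [hY]
  set K' : Set ℂ := K \ ⋃ v ∈ Y, Metric.ball v (δ v / 2) with hK'
  have hK'c : IsCompact K' := hKc.diff (isOpen_biUnion fun v _ => Metric.isOpen_ball)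
  have hK'S : K' ⊆ S ∩ Xᶜ := by
    intro z hz
    refine ⟨(hK hz.1).1, fun hzX => hz.2 ?_⟩
    have hzx : z ≠ x := fun hh => (hK hz.1).2 hh
    exact Set.mem_iUnion₂.2 ⟨z, (hYmem z).2 ⟨hzx, hzX⟩, Metric.mem_ball_self (by have := hδ z; positivity)⟩
  obtain ⟨η, hη, h3⟩ := h K' hK'S hK'c ε hε
  -- the minimum of the radii
  obtain ⟨ρ, hρ, hρ2⟩ : ∃ ρ > 0, ∀ v ∈ Y, ρ ≤ δ v / 2 := by
    rcases Y.eq_empty_or_nonempty with hYe | hYn
    · exact ⟨1, one_pos, by simp [hYe]⟩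
    · refine ⟨Y.inf' hYn fun v => δ v / 2, ?_, fun v hv => Finset.inf'_le _ hv⟩
      rw [gt_iff_lt, Finset.lt_inf'_iff]
      intro v _
      have := hδ v
      positivity
  have h4 : ∀ᶠ i in l, ∀ v ∈ Y, ∀ z ∈ S, ∀ w ∈ S, ‖z - v‖ < δ v → ‖w - v‖ < δ v →
      |F i z - F i w| ≤ ε / 2 := by
    rw [Filter.eventually_all_finset]
    intro v hv
    exact hδ2 v ((hYmem v).1 hv).2 ((hYmem v).1 hv).1
  refine ⟨min η ρ, lt_min hη hρ, ?_⟩
  filter_upwards [h3, h4] with i h3 h4 z hz w hw hzw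
  have key : ∀ z ∈ K, ∀ w ∈ K, dist z w < min η ρ → z ∉ K' → dist (F i z) (F i w) < ε := by
    intro z hz w hw hzw hzK
    have h5 : z ∈ ⋃ v ∈ Y, Metric.ball v (δ v / 2) := by
      by_contra hcon
      exact hzK ⟨hz, hcon⟩
    obtain ⟨v, hv, hzv⟩ := Set.mem_iUnion₂.1 h5
    rw [Metric.mem_ball, dist_eq_norm] at hzv
    have hv0 := hδ v
    have h6 : ‖w - v‖ < δ v := by
      have h7 : w - v = (z - v) - (z - w) := by ring
      have h8 := norm_sub_le (z - v) (z - w)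
      rw [← h7] at h8
      have h9 : ‖z - w‖ < δ v / 2 := by
        rw [← dist_eq_norm]
        exact lt_of_lt_of_le hzw (le_trans (min_le_right _ _) (hρ2 v hv))
      linarith
    have h7 := h4 v hv z (hK hz).1 w (hK hw).1 (by linarith) h6
    rw [Real.dist_eq]
    linarith
  by_cases hzK : z ∈ K'
  · by_cases hwK : w ∈ K'
    · exact h3 z hzK w hwK (lt_of_lt_of_le hzw (min_le_left _ _))
    · rw [dist_comm]
      rw [dist_comm] at hzw
      exact key w hw z hz hzw hwK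
  · exact key z hz w hw hzw hzK

/-- dominated convergence, continuity on `[0,1]` only -/
theorem ca2' {ι : Type*} {l : Filter ι} [l.IsCountablyGenerated] {g : ι → ℝ → ℝ} {H L : ι → ℝ} {c M : ℝ}
    (hm : ∀ᶠ i in l, ContinuousOn (g i) (Set.Icc 0 1))
    (hM : ∀ᶠ i in l, ∀ α ∈ Set.Icc (0 : ℝ) 1, |g i α - H i| ≤ M)
    (hl : ∀ᶠ i in l, L i = c * ∫ α in (0 : ℝ)..1, g i α)
    (hg : ∀ α ∈ Set.Ioo (0 : ℝ) 1, Tendsto (fun i => g i α - H i) l (𝓝 0)) :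
    Tendsto (fun i => L i - c * H i) l (𝓝 0) := by
  have h1 : Tendsto (fun i => ∫ α in (0 : ℝ)..1, (g i α - H i)) l (𝓝 (∫ _ in (0 : ℝ)..1, (0 : ℝ))) := by
    apply intervalIntegral.tendsto_integral_filter_of_dominated_convergence (fun _ => M)
    · filter_upwards [hm] with i hi
      rw [Set.uIoc_of_le zero_le_one]
      exact ((hi.sub continuousOn_const).mono Set.Ioc_subset_Icc_self).aestronglyMeasurable
        measurableSet_Ioc
    · filter_upwards [hM] with n hn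
      apply MeasureTheory.ae_of_all
      intro α hα
      rw [Set.uIoc_of_le zero_le_one] at hα
      exact hn α ⟨hα.1.le, hα.2⟩
    · exact intervalIntegrable_const
    · have h2 : ∀ᵐ α : ℝ, α ≠ 1 := by
        rw [MeasureTheory.ae_iff]
        simp
      filter_upwards [h2] with α hα1 hα
      rw [Set.uIoc_of_le zero_le_one] at hα
      exact hg α ⟨hα.1, lt_of_le_of_ne hα.2 hα1⟩
  have h3 : ∀ᶠ i in l, c * ∫ α in (0 : ℝ)..1, (g i α - H i) = L i - c * H i := by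
    filter_upwards [hm, hl] with i hi hli
    have hint : IntervalIntegrable (g i) MeasureTheory.volume 0 1 :=
      ContinuousOn.intervalIntegrable (by rwa [Set.uIcc_of_le zero_le_one])
    rw [intervalIntegral.integral_sub hint intervalIntegrable_const, hli]
    simp
    ring
  have h4 := h1.const_mul c
  have h5 : Tendsto (fun i => L i - c * H i) l (𝓝 (c * ∫ _ in (0 : ℝ)..1, (0 : ℝ))) :=
    h4.congr' h3
  simpa using h5

variable {P : Finset (ℤ × ℤ)} {L : ℕ} {g : ℤ → ℤ × ℤ} {z0 : ℂ}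
  {uN : ℕ → ℤ → ℤ × ℤ → ℝ} {uP : ℕ → ℝ → ℤ → ℤ → ℤ × ℤ → ℝ}
  {uX : ℕ → ℝ → ℤ → ℤ → ℤ → ℤ → ℤ → ℤ × ℤ → ℝ} {t₁ t₂ t₂' t₃ t₄ : ℝ}

theorem specX_finite (hG : GeoIn P L g) : (specX P g t₁ t₂ t₂' t₃ t₄).Finite :=
  hG.fin.union (by simp)

theorem specX_notMem (hG : GeoIn P L g) : ∀ z ∈ specX P g t₁ t₂ t₂' t₃ t₄, z ∉ Om P := by
  intro z hz
  rcases hz with hz | hz
  · exact hz.2.1
  · simp only [Set.mem_insert_iff, Set.mem_singleton_iff] at hz
    rcases hz with rfl | rfl | rfl | rfl | rfl <;> exact hG.notMem _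

theorem mem_specX4 : gam g t₄ ∈ specX P g t₁ t₂ t₂' t₃ t₄ := by
  right; simp

theorem gam_ne (hG : GeoIn P L g) {s t : ℝ} (h1 : s < t) (h2 : t < s + L) : gam g s ≠ gam g t := by
  intro h
  obtain ⟨m, hm⟩ := hG.inj s t h
  have hL : (0 : ℝ) < L := by linarith
  have h3 : (m : ℝ) * L < 0 := by linarith
  have h4 : (-1 : ℝ) * L < m * L := by linarith
  have h5 : (m : ℝ) < 0 := by
    by_contra hcon
    push Not at hcon
    have := mul_nonneg hcon hL.le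
    linarith
  have h6 : (-1 : ℝ) < m := lt_of_mul_lt_mul_right h4 hL.le
  have h7 : m < 0 := by exact_mod_cast h5
  have h8 : -1 < m := by exact_mod_cast h6
  omega

/-- the function `dX` becomes constant -/
theorem dX_tendsto (hG : GeoIn P L g) (hN2 : N2P P) (ti : TiltIn P L g z0 uN uP uX)
    (hm : Marks5 L g t₁ t₂ t₂' t₃ t₄) {α : ℝ} (hα : α ∈ Set.Ioo (0 : ℝ) 1) :
    Tendsto (fun p : ℕ × ℤ =>
      dX uN uP uX p.1 α (ix p.1 t₁) (ix p.1 t₂) (ix p.1 t₂') (ix p.1 t₃) p.2 (gr p.1 g (ix p.1 t₂')) -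
        dX uN uP uX p.1 α (ix p.1 t₁) (ix p.1 t₂) (ix p.1 t₂') (ix p.1 t₃) p.2
          (gr p.1 g (ix p.1 t₂))) (lk t₄) (𝓝 0) := by
  set X := specX P g t₁ t₂ t₂' t₃ t₄ with hXdef
  set D : ℕ × ℤ → ℤ × ℤ → ℝ := fun p =>
    dX uN uP uX p.1 α (ix p.1 t₁) (ix p.1 t₂) (ix p.1 t₂') (ix p.1 t₃) p.2 with hD
  set F : ℕ × ℤ → ℂ → ℝ := fun p => nz p.1 z0 (D p) with hF
  have hah : AH (lk t₄) P X F := ti.ah _ _ _ _ _ hm α hα
  have hae : AE (lk t₄) F (Cl P ∩ {gam g t₄}ᶜ) := by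
    refine ae_fill (specX_finite hG) hah.ae ?_
    intro v hv hvx ε hε
    obtain ⟨δ, hδ, h1⟩ := ti.loc _ _ _ _ _ hm α hα v hv hvx ε hε
    refine ⟨δ, hδ, ?_⟩
    filter_upwards [h1] with p hp z hz w hw hzv hwv
    have h2 := hp z hz w hw hzv hwv
    have h3 : F p z - F p w = D p (fl p.1 z) - D p (fl p.1 w) := by
      simp only [hF, nz]; ring
    rw [h3]
    exact h2
  obtain ⟨C, c, hc, hgr⟩ := ti.growth _ _ _ _ _ hm α hα
  have hca := ca1 (specX_finite hG) (specX_notMem hG) mem_specX4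
    (fun U h1 h2 h3 h4 => hN2 X (gam g t₄) C c (specX_finite hG) (specX_notMem hG)
      Set.subset_union_left mem_specX4 (hG.wall _ hm.f4) hc U h1 h2 h3 h4) hah hae hgr
  have hne2 : gam g t₂ ≠ gam g t₄ := gam_ne hG (by linarith [hm.h2, hm.h3, hm.h4])
    (by linarith [hm.h1, hm.h5])
  have hne2' : gam g t₂' ≠ gam g t₄ := gam_ne hG (by linarith [hm.h3, hm.h4])
    (by linarith [hm.h1, hm.h2, hm.h5])
  have h1 := hca _ ⟨hG.mem t₂', hne2'⟩ _ ⟨hG.mem t₂, hne2⟩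
  -- moving points
  have hmv : ∀ t : ℝ, gam g t ≠ gam g t₄ → Tendsto (fun p : ℕ × ℤ =>
      F p (gam g ((ix p.1 t : ℝ) / p.1)) - F p (gam g t)) (lk t₄) (𝓝 0) := by
    intro t ht
    refine ae_seq' (isClosed_Cl P) (isClosed_singleton (x := gam g t₄)).isOpen_compl hae
      ⟨hG.mem t, ht⟩ (Eventually.of_forall fun p => hG.mem _) ?_
    exact (hG.cont.tendsto t).comp ((ix_div t).comp (lk_n t₄))
  have h2 := ((hmv t₂' hne2').sub (hmv t₂ hne2)).add h1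
  simp only [sub_zero, add_zero] at h2
  refine h2.congr' ?_
  filter_upwards [(lk_n t₄).eventually (eventually_gt_atTop 0)] with p hp
  simp only [hF, nz, hG.flgr p.1 _ hp]
  ring

/-- **Ratio law.** -/
theorem ratio_limit (hG : GeoIn P L g) (hN2 : N2P P) (ex : ExIn P L g uN uP uX)
    (ti : TiltIn P L g z0 uN uP uX) (hm : Marks5 L g t₁ t₂ t₂' t₃ t₄) :
    Tendsto (fun p : ℕ × ℤ =>
      Real.log (Kt P g p.1 (ix p.1 t₁) (ix p.1 t₂') (ix p.1 t₃) p.2) -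
        Real.log (Kt P g p.1 (ix p.1 t₁) (ix p.1 t₂) (ix p.1 t₃) p.2) -
      Real.pi / 3 *
        ((uN p.1 (ix p.1 t₁) (gr p.1 g (ix p.1 t₂')) + uN p.1 (ix p.1 t₃) (gr p.1 g (ix p.1 t₂')) -
            2 * uN p.1 p.2 (gr p.1 g (ix p.1 t₂'))) -
          (uN p.1 (ix p.1 t₁) (gr p.1 g (ix p.1 t₂)) + uN p.1 (ix p.1 t₃) (gr p.1 g (ix p.1 t₂)) -
            2 * uN p.1 p.2 (gr p.1 g (ix p.1 t₂))))) (lk t₄) (𝓝 0) := by
  obtain ⟨M, hM⟩ := ti.dom _ _ _ _ _ hm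
  set H : ℕ × ℤ → ℝ := fun p =>
    (uN p.1 (ix p.1 t₁) (gr p.1 g (ix p.1 t₂')) + uN p.1 (ix p.1 t₃) (gr p.1 g (ix p.1 t₂')) -
            2 * uN p.1 p.2 (gr p.1 g (ix p.1 t₂'))) -
          (uN p.1 (ix p.1 t₁) (gr p.1 g (ix p.1 t₂)) + uN p.1 (ix p.1 t₃) (gr p.1 g (ix p.1 t₂)) -
            2 * uN p.1 p.2 (gr p.1 g (ix p.1 t₂))) with hH
  set gX : ℕ × ℤ → ℝ → ℝ := fun p α =>
    uX p.1 α (ix p.1 t₁) (ix p.1 t₂) (ix p.1 t₂') (ix p.1 t₃) p.2 (gr p.1 g (ix p.1 t₂')) -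
        uX p.1 α (ix p.1 t₁) (ix p.1 t₂) (ix p.1 t₂') (ix p.1 t₃) p.2 (gr p.1 g (ix p.1 t₂)) with hgX
  set gP : ℕ × ℤ → ℝ → ℝ := fun p α =>
    uP p.1 α (ix p.1 t₂) (ix p.1 t₂') (gr p.1 g (ix p.1 t₂')) -
      uP p.1 α (ix p.1 t₂) (ix p.1 t₂') (gr p.1 g (ix p.1 t₂)) with hgP
  have hdX : ∀ p α, (gX p α - gP p α) - H p =
      dX uN uP uX p.1 α (ix p.1 t₁) (ix p.1 t₂) (ix p.1 t₂') (ix p.1 t₃) p.2 (gr p.1 g (ix p.1 t₂')) -
        dX uN uP uX p.1 α (ix p.1 t₁) (ix p.1 t₂) (ix p.1 t₂') (ix p.1 t₃) p.2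
          (gr p.1 g (ix p.1 t₂)) := by
    intro p α
    simp only [hgX, hgP, hH, dX]
    ring
  have hord : ∀ᶠ p : ℕ × ℤ in lk t₄, ix p.1 t₂ < ix p.1 t₂' ∧ ix p.1 t₂' < ix p.1 t₂ + p.1 * L := by
    have e1 : ∀ᶠ n : ℕ in atTop, (1 : ℝ) < n * (t₂' - t₂) := by
      have : Tendsto (fun n : ℕ => (n : ℝ) * (t₂' - t₂)) atTop atTop :=
        tendsto_natCast_atTop_atTop.atTop_mul_const (by linarith [hm.h2])
      exact this.eventually_gt_atTop 1
    have e2 : ∀ᶠ n : ℕ in atTop, (1 : ℝ) < n * (t₂ + L - t₂') := by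
      have : Tendsto (fun n : ℕ => (n : ℝ) * (t₂ + L - t₂')) atTop atTop :=
        tendsto_natCast_atTop_atTop.atTop_mul_const (by linarith [hm.h1, hm.h3, hm.h4, hm.h5])
      exact this.eventually_gt_atTop 1
    filter_upwards [(lk_n t₄).eventually e1, (lk_n t₄).eventually e2] with p h1 h2
    unfold ix
    constructor
    · rw [← Int.add_one_le_iff, Int.le_floor]
      push_cast
      have := Int.floor_le ((p.1 : ℝ) * t₂)
      linarith
    · have h3 : (⌊(p.1 : ℝ) * t₂'⌋ : ℝ) < (⌊(p.1 : ℝ) * t₂⌋ : ℝ) + p.1 * L := by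
        have h4 := Int.floor_le ((p.1 : ℝ) * t₂')
        have h5 := Int.sub_one_lt_floor ((p.1 : ℝ) * t₂)
        nlinarith
      exact_mod_cast h3
  refine ca2' (g := fun p α => gX p α - gP p α) (M := M) ?_ ?_ ?_ ?_
  · filter_upwards [ex.ratio _ _ _ _ _ hm, hord] with p hp ho
    exact hp.2.2.1.sub (ex.pair p.1 _ _ ho.1 ho.2).1
  · filter_upwards [hM] with p hp α hα
    rw [hdX]
    exact hp α hα
  · filter_upwards [ex.ratio _ _ _ _ _ hm, hord] with p hp ho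
    rw [hp.2.2.2]
    have h1 := (ex.pair p.1 _ _ ho.1 ho.2)
    have i1 : IntervalIntegrable (gX p) MeasureTheory.volume 0 1 :=
      ContinuousOn.intervalIntegrable (by rw [Set.uIcc_of_le zero_le_one]; exact hp.2.2.1)
    have i2 : IntervalIntegrable (gP p) MeasureTheory.volume 0 1 :=
      ContinuousOn.intervalIntegrable (by rw [Set.uIcc_of_le zero_le_one]; exact h1.1)
    rw [intervalIntegral.integral_sub i1 i2]
    have h2 : ∫ α in (0 : ℝ)..1, gP p α = 0 := h1.2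
    rw [h2, sub_zero]
  · intro α hα
    exact (dX_tendsto hG hN2 ti hm hα).congr fun p => (hdX p α).symm

end

end Pool.Agent.SixB
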