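import Pool.Agent.Lib.SixB.CARf
import Pool.Agent.Lib.SixB.CARatio

/-!
# 6BD block CA: the geometric inputs `GeoIn`

* `geoIn : Cont P L g → GeoIn P L g`.
* `wall_tau`: near a flat `t` the curve is `gam g t' = gam g t + (t' - t) * τ`, `τ = -I * ν`, `ν` the inner normal.
* `gam_inj`: the curve is injective up to the period.
-/

set_option autoImplicit false
set_option linter.unusedSimpArgs false

namespace Pool.Agent.SixB

namespace CARf

variable {P : Finset (ℤ × ℤ)} {L n : ℕ} {g : ℤ → ℤ × ℤ}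

theorem int_cases {X : ℤ} {s : ℝ} (h : (X : ℝ) = s) (h1 : -2 < s) (h2 : s < 2) :
    (X = 0 ∧ s = 0) ∨ (X = 1 ∧ s = 1) ∨ (X = -1 ∧ s = -1) := by
  have h3 : X < 2 := by exact_mod_cast (show (X : ℝ) < 2 by linarith)
  have h4 : -2 < X := by exact_mod_cast (show (-2 : ℝ) < X by linarith)
  have h5 : X = 0 ∨ X = 1 ∨ X = -1 := by omega
  rcases h5 with rfl | rfl | rfl
  · left; exact ⟨rfl, by rw [← h]; norm_num⟩
  · right; left; exact ⟨rfl, by rw [← h]; norm_num⟩
  · right; right; exact ⟨rfl, by rw [← h]; norm_num⟩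

theorem real_core {r r' : ℝ} {X Y d1 d2 e1 e2 : ℤ} (hr0 : 0 ≤ r) (hr : r < 1)
    (hr0' : 0 ≤ r') (hr' : r' < 1) (hd : Dr d1 d2) (he : Dr e1 e2) (hX : (X : ℝ) = r' * e1 - r * d1)
    (hY : (Y : ℝ) = r' * e2 - r * d2) :
    (X = 0 ∧ Y = 0 ∧ r = r') ∨ (e1 = -d1 ∧ e2 = -d2 ∧ X = -d1 ∧ Y = -d2) := by
  unfold Dr at hd he
  rcases hd with ⟨rfl, rfl⟩ | ⟨rfl, rfl⟩ | ⟨rfl, rfl⟩ | ⟨rfl, rfl⟩ <;>
    rcases he with ⟨rfl, rfl⟩ | ⟨rfl, rfl⟩ | ⟨rfl, rfl⟩ | ⟨rfl, rfl⟩ <;>
    push_cast at hX hY <;>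
    rcases int_cases hX (by linarith) (by linarith) with ⟨h1, h2⟩ | ⟨h1, h2⟩ | ⟨h1, h2⟩ <;>
    rcases int_cases hY (by linarith) (by linarith) with ⟨h3, h4⟩ | ⟨h3, h4⟩ | ⟨h3, h4⟩ <;>
    first
      | exact Or.inl ⟨h1, h3, by linarith⟩
      | exact Or.inr ⟨by omega, by omega, by omega, by omega⟩
      | (exfalso; linarith)

/-- **the curve is injective up to the period** -/
theorem gam_inj (h : Cont P L g) {s t : ℝ} (hst : gam g s = gam g t) : ∃ m : ℤ, s - t = m * L := by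
  have e1 := congrArg Complex.re hst
  have e2 := congrArg Complex.im hst
  unfold gam at e1 e2
  simp only at e1 e2
  have hd := LSide.dir (h.side ⌊s⌋)
  have hd' := LSide.dir (h.side ⌊t⌋)
  rcases real_core (X := (g ⌊s⌋).1 - (g ⌊t⌋).1) (Y := (g ⌊s⌋).2 - (g ⌊t⌋).2) (Int.fract_nonneg s)
    (Int.fract_lt_one s) (Int.fract_nonneg t) (Int.fract_lt_one t) hd hd'
    (by push_cast; linarith) (by push_cast; linarith) with ⟨h1, h2, h3⟩ | ⟨h1, h2, h3, h4⟩
  · have h5 : g ⌊s⌋ = g ⌊t⌋ := Prod.ext (by omega) (by omega)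
    obtain ⟨c, hc⟩ := h.inj _ _ h5
    refine ⟨c, ?_⟩
    have h6 : ((⌊s⌋ - ⌊t⌋ : ℤ) : ℝ) = ((L * c : ℤ) : ℝ) := by rw [hc]
    push_cast at h6
    have h7 := Int.floor_add_fract s
    have h8 := Int.floor_add_fract t
    linarith
  · exfalso
    have h5 : g ⌊t⌋ = g (⌊s⌋ + 1) := Prod.ext (by omega) (by omega)
    have h6 : g (⌊t⌋ + 1) = g ⌊s⌋ := Prod.ext (by omega) (by omega)
    have h7 := h.side ⌊s⌋
    have h8 := h.side ⌊t⌋
    rw [h5, h6] at h8
    exact LSide.asymm h7 h8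

/-- not flat: an integer point -/
theorem notFl {t : ℝ} (h : ¬ Fl g t) : ∃ k : ℤ, t = k := by
  unfold Fl at h
  push Not at h
  obtain ⟨k, hk, -⟩ := h
  exact ⟨k, hk⟩

theorem corners_finite (h : Cont P L g) : (corners P).Finite := by
  have hL : (0 : ℤ) < L := by exact_mod_cast h.pos
  refine ((Set.finite_Ico (0 : ℤ) L).image fun k : ℤ => gam g (k : ℝ)).subset ?_
  rintro z ⟨h1, h2, h3⟩
  obtain ⟨t, rfl⟩ := exists_gam h h1 h2
  by_cases ht : Fl g t
  · obtain ⟨ν, hν⟩ := wall_gam h ht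
    exact absurd hν (h3 ν)
  · obtain ⟨k, rfl⟩ := notFl ht
    refine ⟨k % L, ⟨Int.emod_nonneg _ hL.ne', Int.emod_lt_of_pos _ hL⟩, ?_⟩
    simp only
    have e : k % L + k / L * L = k := by
      have := Int.emod_add_mul_ediv k L
      rwa [mul_comm] at this
    have key : ∀ (m : ℕ) (x : ℝ), gam g (x + m * L) = gam g x := by
      intro m x
      induction m with
      | zero => simp
      | succ m ih =>
        push_cast
        rw [show x + ((m : ℝ) + 1) * L = x + m * L + L by ring, gam_per h, ih]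
    have key2 : ∀ (m : ℤ) (x : ℝ), gam g (x + m * L) = gam g x := by
      intro m x
      rcases le_total 0 m with hm | hm
      · obtain ⟨n, rfl⟩ := Int.eq_ofNat_of_zero_le hm
        exact_mod_cast key n x
      · obtain ⟨n, hn⟩ := Int.eq_ofNat_of_zero_le (neg_nonneg.2 hm)
        have h5 := key n (x + m * L)
        rw [← h5]
        congr 1
        have : (m : ℝ) = -(n : ℝ) := by
          have : m = -(n : ℤ) := by linarith
          rw [this]; push_cast; ring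
        rw [this]; ring
    rw [← key2 (k / L) ((k % L : ℤ) : ℝ)]
    congr 1
    exact_mod_cast e

/-- **the geometric inputs of block CA** -/
theorem geoIn (h : Cont P L g) : GeoIn P L g where
  flgr := fun n k hn => fl_gam g hn k
  cont := gam_cont h
  wall := fun t ht => wall_gam h ht
  mem := gam_mem_Cl h
  notMem := gam_notMem_Om h
  per := gam_per h
  inj := fun s t hst => gam_inj h hst
  fin := corners_finite h

/-! ### The direction of the curve -/

theorem Wall.unique {p ν ν' : ℂ} (h : Wall P p ν) (h' : Wall P p ν') : ν = ν' := by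
  obtain ⟨hν, r, hr, h⟩ := h
  obtain ⟨hν', r', hr', h'⟩ := h'
  -- test with `p + η (ν - ν')` and `p + η (ν' - ν)`
  have key : ∀ w : ℂ, ‖w‖ ≤ 1 → (0 ≤ sp w ν ↔ 0 ≤ sp w ν') := by
    intro w hw
    set η : ℝ := min r r' / 2 with hη
    have hη0 : 0 < η := by
      have := lt_min hr hr'
      rw [hη]; linarith
    have e : (p + η * w) - p = η * w := by ring
    have h1 : ‖(p + η * w) - p‖ < min r r' := by
      rw [e, norm_mul, Complex.norm_real, Real.norm_eq_abs, abs_of_pos hη0]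
      have : η * ‖w‖ ≤ η * 1 := mul_le_mul_of_nonneg_left hw hη0.le
      have h2 := lt_min hr hr'
      rw [hη] at this ⊢
      linarith
    have h2 := h _ (lt_of_lt_of_le h1 (min_le_left _ _))
    have h3 := h' _ (lt_of_lt_of_le h1 (min_le_right _ _))
    have h4 : ∀ u : ℂ, sp ((p + η * w) - p) u = η * sp w u := by
      intro u
      rw [e]
      simp [sp]
      ring
    rw [h4] at h2 h3
    have h5 : ∀ x : ℝ, 0 ≤ η * x ↔ 0 ≤ x := fun x => mul_nonneg_iff_of_pos_left hη0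
    rw [h5] at h2 h3
    exact h2.symm.trans h3
  have k1 := key 1 (by simp)
  have k2 := key (-1) (by simp)
  have k3 := key Complex.I (by simp)
  have k4 := key (-Complex.I) (by simp)
  rcases hν with rfl | rfl | rfl | rfl <;> rcases hν' with rfl | rfl | rfl | rfl <;>
    simp [sp] at k1 k2 k3 k4 ⊢ <;> linarith

/-- **near a flat point the curve is straight**, `τ = -I * ν` -/
theorem wall_tau (h : Cont P L g) {t : ℝ} (ht : Fl g t) : ∃ ν, Wall P (gam g t) ν ∧
    ∃ δ : ℝ, 0 < δ ∧ ∀ t' : ℝ, |t' - t| < δ →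
      gam g t' = gam g t + ((t' - t : ℝ) : ℂ) * (-Complex.I * ν) := by
  obtain ⟨ν, hν, hd⟩ := wall_gam_dir h ht
  refine ⟨ν, hν, ?_⟩
  rw [← hd]
  have hf := Int.floor_le t
  have hf' := Int.lt_floor_add_one t
  -- the formula on a unit interval which contains both points
  have key : ∀ t' : ℝ, (⌊t⌋ : ℝ) ≤ t' → t' ≤ ⌊t⌋ + 1 →
      gam g t' = gam g t + ((t' - t : ℝ) : ℂ) * (⟨((g (⌊t⌋ + 1)).1 : ℝ) - (g ⌊t⌋).1,
        ((g (⌊t⌋ + 1)).2 : ℝ) - (g ⌊t⌋).2⟩ : ℂ) := by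
    intro t' h1 h2
    rw [gam_seg g h1 h2, gam_seg g hf hf'.le]
    apply Complex.ext
    · simp only [Complex.add_re, Complex.mul_re, Complex.ofReal_re, Complex.ofReal_im]
      ring
    · simp only [Complex.add_im, Complex.mul_im, Complex.ofReal_re, Complex.ofReal_im]
      ring
  rcases hf.lt_or_eq with h0 | h0
  · refine ⟨min (t - ⌊t⌋) (⌊t⌋ + 1 - t), lt_min (by linarith) (by linarith), fun t' ht' => ?_⟩
    rw [lt_min_iff, abs_lt, abs_lt] at ht'
    exact key t' (by linarith [ht'.1.1]) (by linarith [ht'.2.2])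
  · refine ⟨1, one_pos, fun t' ht' => ?_⟩
    rw [abs_lt] at ht'
    rcases le_total (⌊t⌋ : ℝ) t' with h1 | h1
    · exact key t' h1 (by linarith [ht'.2])
    · have h2 := ht ⌊t⌋ h0.symm
      have h3 : gam g t = gam g ((⌊t⌋ : ℤ) : ℝ) := by rw [h0]
      have h4 : ((⌊t⌋ - 1 : ℤ) : ℝ) ≤ t' := by push_cast; linarith [ht'.1]
      have h5 : t' ≤ ((⌊t⌋ - 1 : ℤ) : ℝ) + 1 := by push_cast; linarith
      rw [h3, gam_int, gam_seg g h4 h5, sub_add_cancel]
      have e1 := congrArg Prod.fst h2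
      have e2 := congrArg Prod.snd h2
      simp only [Prod.fst_sub, Prod.snd_sub] at e1 e2
      have e1' : ((g (⌊t⌋ + 1)).1 : ℝ) - (g ⌊t⌋).1 = (g ⌊t⌋).1 - (g (⌊t⌋ - 1)).1 := by
        exact_mod_cast e1
      have e2' : ((g (⌊t⌋ + 1)).2 : ℝ) - (g ⌊t⌋).2 = (g ⌊t⌋).2 - (g (⌊t⌋ - 1)).2 := by
        exact_mod_cast e2
      rw [e1', e2']
      apply Complex.ext
      · simp only [Complex.add_re, Complex.mul_re, Complex.ofReal_re, Complex.ofReal_im]
        push_cast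
        linear_combination (-(((g ⌊t⌋).1 : ℝ) - (g (⌊t⌋ - 1)).1)) * h0
      · simp only [Complex.add_im, Complex.mul_im, Complex.ofReal_re, Complex.ofReal_im]
        push_cast
        linear_combination (-(((g ⌊t⌋).2 : ℝ) - (g (⌊t⌋ - 1)).2)) * h0

/-- the inner normal at a flat point is the one of `wall_tau` -/
theorem wall_tau' (h : Cont P L g) {t : ℝ} (ht : Fl g t) {ν : ℂ} (hν : Wall P (gam g t) ν) :
    ∃ δ : ℝ, 0 < δ ∧ ∀ t' : ℝ, |t' - t| < δ →
      gam g t' = gam g t + ((t' - t : ℝ) : ℂ) * (-Complex.I * ν) := by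
  obtain ⟨ν', hν', h1⟩ := wall_tau h ht
  rw [Wall.unique hν hν']
  exact h1

/-- the points near a flat point are flat -/
theorem fl_near {t : ℝ} (ht : Fl g t) : ∃ δ : ℝ, 0 < δ ∧ ∀ t' : ℝ, |t' - t| < δ → Fl g t' := by
  have hf := Int.floor_le t
  have hf' := Int.lt_floor_add_one t
  rcases hf.lt_or_eq with h0 | h0
  · refine ⟨min (t - ⌊t⌋) (⌊t⌋ + 1 - t), lt_min (by linarith) (by linarith), fun t' ht' k hk => ?_⟩
    exfalso
    rw [lt_min_iff, abs_lt, abs_lt, hk] at ht'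
    have h1 : ⌊t⌋ < k := by exact_mod_cast (show (⌊t⌋ : ℝ) < k by linarith [ht'.1.1])
    have h2 : k < ⌊t⌋ + 1 := by exact_mod_cast (show (k : ℝ) < ⌊t⌋ + 1 by linarith [ht'.2.2])
    omega
  · refine ⟨1, one_pos, fun t' ht' k hk => ?_⟩
    rw [abs_lt, hk, ← h0] at ht'
    have h1 : k = ⌊t⌋ := by
      have h1 : ⌊t⌋ - 1 < k := by exact_mod_cast (show (⌊t⌋ : ℝ) - 1 < k by linarith [ht'.1])
      have h2 : k < ⌊t⌋ + 1 := by exact_mod_cast (show (k : ℝ) < ⌊t⌋ + 1 by linarith [ht'.2])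
      omega
    rw [h1]
    exact ht _ h0.symm

end CARf

end Pool.Agent.SixB
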