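import Pool.Agent.Lib.SixB.S0Link

/-!
# 6BD, step 3: localisation of the strand product

Any complex of quadrangles `Q`, any finite face set `F`, any weights.
* `mate_loc`: if the strand of `a` in a subset `G` of the faces ends on the boundary of `F`, then mate
  and turning in `F` are those in `G`.
* `esc`: the sides of a chart whose strand in the chart does not end on the boundary of `F`.
* `Charts`: natural charts (weights at most `√3` inside) and special charts (one special vertex each: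
  the arcs from `PA` to `PB` have the weight `√3 * t v`).
* `Charts.prod_le`: `|∏ p ∈ arcs, T p| ≤ √3 ^ card arcs * ∏ v, t v ^ N v * (2 / √3) ^ K`, `K` is the number
  of the escaping sides plus the number of the arcs over `v` in the big box which are not in the small
  box.
-/

set_option autoImplicit false
set_option linter.unusedSectionVars false

namespace Pool.Agent.SixB

open Pool.Agent.Perc.Q Relation

noncomputable section

variable {V Φ : Type} [DecidableEq V] [DecidableEq Φ]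
variable {Q : QC V Φ} {F G : Finset Φ} {ω : Φ → Bool} {a b c : V × V}

theorem Ini.anti {F G : Set Φ} (h : G ⊆ F) (ha : Ini Q F a) : Ini Q G a := fun f hf => ha f (h hf)

theorem Ter.anti {F G : Set Φ} (h : G ⊆ F) (ha : Ter Q F a) : Ter Q G a := fun f hf => ha f (h hf)

theorem rtg_walk (h : ReflTransGen (Nx Q ω (F : Set Φ)) a b) :
    b = a ∨ ∃ n t, Walk Q ω (F : Set Φ) Set.univ n a b t := by
  induction h with
  | refl => exact Or.inl rfl
  | tail _ hs ih =>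
    right
    obtain ⟨s, hs⟩ := nx_iff.mp hs
    rcases ih with rfl | ⟨n, t, ih⟩
    · exact ⟨1, s, Walk.one hs⟩
    · exact ⟨n + 1, t + s, Walk.tail ih (Set.mem_univ _) hs⟩

/-- The strand of a boundary side as a walk. -/
theorem walk_mate (ha : a ∈ bS Q F) :
    ∃ n, Walk Q ω (F : Set Φ) Set.univ n a (mate Q F ω a).swap (turn Q F ω a) := by
  obtain ⟨h1, h2⟩ := mem_bS.mp ha
  have h3 := lst_spec (ω := ω) h2
  rcases rtg_walk h3.1 with h4 | ⟨n, t, h4⟩
  · exfalso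
    have h5 := h3.2
    rw [h4] at h5
    exact not_ini_ter h1 h2 h5
  · have h5 := h4.mate_turn h2 h3.2
    refine ⟨n, ?_⟩
    rw [h5.1, Prod.swap_swap, h5.2]
    exact h4

/-- Mate and turning are local. -/
theorem mate_loc (hGF : G ⊆ F) (ha : a ∈ bS Q G) (haF : Ini Q (F : Set Φ) a)
    (hb : mate Q G ω a ∈ bS Q F) :
    mate Q F ω a = mate Q G ω a ∧ turn Q F ω a = turn Q G ω a := by
  obtain ⟨n, h⟩ := walk_mate (ω := ω) ha
  have h' := h.mono (F' := (F : Set Φ)) (by exact_mod_cast hGF) (Set.Subset.refl _)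
  have := h'.mate_turn haF (ter_swap.mpr (mem_bS.mp hb).2)
  rw [Prod.swap_swap] at this
  exact this

/-- A boundary side of `F` with its face in `G` is a boundary side of `G`. -/
theorem bS_anti (hGF : G ⊆ F) (ha : a ∈ bS Q F) (hG : a ∈ dE Q G) : a ∈ bS Q G :=
  mem_bS.mpr ⟨hG, Ini.anti (by exact_mod_cast hGF) (mem_bS.mp ha).2⟩

/-- If the mate in the bigger set is a boundary side of `F` then so is the one in the smaller set,
provided that the latter ends on the boundary of `F`. -/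
theorem mate_loc' {G' : Finset Φ} (hGG : G ⊆ G') (ha : a ∈ bS Q G)
    (haF : Ini Q (G' : Set Φ) a) (hb : Ini Q (G' : Set Φ) (mate Q G ω a)) :
    mate Q G' ω a = mate Q G ω a ∧ turn Q G' ω a = turn Q G ω a := by
  refine mate_loc hGG ha haF (mem_bS.mpr ⟨?_, hb⟩)
  exact dE_mono hGG (mem_bS.mp (mate_mem ha)).1
  where
  dE_mono {F F' : Finset Φ} (hF : F ⊆ F') : dE Q F ⊆ dE Q F' := by
    intro a ha
    obtain ⟨f, hf, k, h⟩ := mem_dE.mp ha
    exact mem_dE.mpr ⟨f, hF hf, k, h⟩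

/-! ## Products over arcs -/

/-- The local factor of a boundary side. -/
def wt (Q : QC V Φ) (F : Finset Φ) (ω : Φ → Bool) (ψ : V × V → ℝ) (a : V × V) : ℝ :=
  2 * Real.cos (ψ (mate Q F ω a) - ψ a + turn Q F ω a * (Real.pi / 12))

theorem wt_mate (ψ : V × V → ℝ) (ha : a ∈ bS Q F) :
    wt Q F ω ψ (mate Q F ω a) = wt Q F ω ψ a := by
  unfold wt
  rw [mate_mate ha, turn_mate ha, ← Real.cos_neg]
  congr 2
  push_cast
  ring

theorem abs_wt_le (ψ : V × V → ℝ) : |wt Q F ω ψ a| ≤ 2 := by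
  unfold wt
  rw [abs_mul, abs_two]
  have := Real.abs_cos_le_one (ψ (mate Q F ω a) - ψ a + turn Q F ω a * (Real.pi / 12))
  linarith

theorem wt_loc (ψ : V × V → ℝ) (hGF : G ⊆ F) (ha : a ∈ bS Q G) (haF : Ini Q (F : Set Φ) a)
    (hb : mate Q G ω a ∈ bS Q F) : wt Q F ω ψ a = wt Q G ω ψ a := by
  obtain ⟨h1, h2⟩ := mate_loc hGF ha haF hb
  unfold wt
  rw [h1, h2]

/-- The weight of an arc. -/
def wA (Q : QC V Φ) (F : Finset Φ) (ω : Φ → Bool) (ψ : V × V → ℝ) (p : Sym2 (V × V)) : ℝ :=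
  if h : ∃ a ∈ bS Q F, s(a, mate Q F ω a) = p then wt Q F ω ψ h.choose else 0

theorem wA_eq (ψ : V × V → ℝ) (ha : a ∈ bS Q F) :
    wA Q F ω ψ s(a, mate Q F ω a) = wt Q F ω ψ a := by
  have h : ∃ b ∈ bS Q F, s(b, mate Q F ω b) = s(a, mate Q F ω a) := ⟨a, ha, rfl⟩
  unfold wA
  rw [dif_pos h]
  obtain ⟨h1, h2⟩ := h.choose_spec
  rw [Sym2.eq_iff] at h2
  rcases h2 with ⟨h2, -⟩ | ⟨h2, -⟩
  · rw [h2]
  · rw [h2, wt_mate ψ ha]

theorem Zs_wA (hQ : NoLoop Q) (ψ : V × V → ℝ)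
    (hL : ∀ X ∈ dstr Q F ω, (∀ a ∈ X, ¬ Ini Q (F : Set Φ) a) →
      tX Q F ω X = 4 ∨ tX Q F ω X = -4) :
    Zs Q F ω (bph Q F ψ) = ((∏ p ∈ arcs Q F ω, wA Q F ω ψ p : ℝ) : ℂ) :=
  Zs_arcs hQ ψ _ (fun _ ha => wA_eq ψ ha) hL

/-! ## Charts -/

open Classical in
/-- The sides of `H` whose strand in `G` does not end on the boundary of `F`. -/
def esc (Q : QC V Φ) (F G : Finset Φ) (H : Finset (V × V)) (ω : Φ → Bool) : Finset (V × V) :=
  H.filter fun a => mate Q G ω a ∉ bS Q F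

open Classical in
/-- The sides of `P` with the mate in `P'`. -/
def ovr (Q : QC V Φ) (G : Finset Φ) (P P' : Finset (V × V)) (ω : Φ → Bool) : Finset (V × V) :=
  P.filter fun a => a ∈ bS Q G ∧ mate Q G ω a ∈ P'

theorem mem_esc {H : Finset (V × V)} : a ∈ esc Q F G H ω ↔ a ∈ H ∧ mate Q G ω a ∉ bS Q F := by
  classical
  unfold esc
  rw [Finset.mem_filter]

theorem mem_ovr {P P' : Finset (V × V)} :
    a ∈ ovr Q G P P' ω ↔ a ∈ P ∧ a ∈ bS Q G ∧ mate Q G ω a ∈ P' := by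
  classical
  unfold ovr
  rw [Finset.mem_filter]

/-- Charts of `F` with the phases `ψ`. -/
structure Charts (Q : QC V Φ) (F : Finset Φ) (ψ : V × V → ℝ) (ι κ : Type) where
  I : Finset ι
  S : Finset κ
  /-- faces of the natural charts, sides of the half charts -/
  G : ι → Finset Φ
  H : ι → Finset (V × V)
  /-- special charts: big box, small box, sides of the half box, sides of the two walls -/
  Gb : κ → Finset Φ
  Gs : κ → Finset Φ
  Hb : κ → Finset (V × V)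
  PA : κ → Finset (V × V)
  PB : κ → Finset (V × V)
  t : κ → ℝ
  G_sub : ∀ i ∈ I, G i ⊆ F
  H_F : ∀ i ∈ I, H i ⊆ bS Q F
  H_G : ∀ i ∈ I, H i ⊆ bS Q (G i)
  nat : ∀ i ∈ I, ∀ ω, ∀ a ∈ H i, mate Q (G i) ω a ∈ bS Q F → |wt Q (G i) ω ψ a| ≤ Real.sqrt 3
  Gb_sub : ∀ v ∈ S, Gb v ⊆ F
  Gs_sub : ∀ v ∈ S, Gs v ⊆ Gb v
  Hb_F : ∀ v ∈ S, Hb v ⊆ bS Q F
  Hb_G : ∀ v ∈ S, Hb v ⊆ bS Q (Gb v)
  PA_F : ∀ v ∈ S, PA v ⊆ bS Q F
  PB_F : ∀ v ∈ S, PB v ⊆ bS Q F
  dAB : ∀ v ∈ S, ∀ v' ∈ S, Disjoint (PA v) (PB v')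
  dAA : ∀ v ∈ S, ∀ v' ∈ S, v ≠ v' → Disjoint (PA v) (PA v')
  t_nonneg : ∀ v ∈ S, 0 ≤ t v
  spec : ∀ v ∈ S, ∀ ω, ∀ a ∈ Hb v, mate Q (Gb v) ω a ∈ bS Q F →
    (a ∈ PA v ∧ mate Q (Gb v) ω a ∈ PB v) ∨ (a ∈ PB v ∧ mate Q (Gb v) ω a ∈ PA v) ∨
      |wt Q (Gb v) ω ψ a| ≤ Real.sqrt 3
  ovw : ∀ v ∈ S, ∀ ω, ∀ a ∈ PA v, a ∈ bS Q (Gb v) → mate Q (Gb v) ω a ∈ PB v →
    wt Q (Gb v) ω ψ a = Real.sqrt 3 * t v
  cover : ∀ a ∈ bS Q F, (∃ i ∈ I, a ∈ H i) ∨ ∃ v ∈ S, a ∈ Hb v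

namespace Charts

variable {ψ : V × V → ℝ} {ι κ : Type} [DecidableEq ι] [DecidableEq κ]

/-- The number of the arcs over `v` in the small box. -/
def N (C : Charts Q F ψ ι κ) (v : κ) (ω : Φ → Bool) : ℕ :=
  (ovr Q (C.Gs v) (C.PA v) (C.PB v) ω).card

/-- The number of the arcs over `v` in the big box. -/
def Nb (C : Charts Q F ψ ι κ) (v : κ) (ω : Φ → Bool) : ℕ :=
  (ovr Q (C.Gb v) (C.PA v) (C.PB v) ω).card

/-- The number of the exceptional arcs. -/
def K (C : Charts Q F ψ ι κ) (ω : Φ → Bool) : ℕ :=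
  ∑ i ∈ C.I, (esc Q F (C.G i) (C.H i) ω).card +
    ∑ v ∈ C.S, ((esc Q F (C.Gb v) (C.Hb v) ω).card + (C.Nb v ω - C.N v ω))

theorem ovr_sub (C : Charts Q F ψ ι κ) {v : κ} (hv : v ∈ C.S) (ω : Φ → Bool) :
    ovr Q (C.Gs v) (C.PA v) (C.PB v) ω ⊆ ovr Q (C.Gb v) (C.PA v) (C.PB v) ω := by
  intro a ha
  obtain ⟨h1, h2, h3⟩ := mem_ovr.mp ha
  have haF := (mem_bS.mp (C.PA_F v hv h1)).2
  have hbF := (mem_bS.mp (C.PB_F v hv h3)).2
  have hsub : ((C.Gb v : Finset Φ) : Set Φ) ⊆ (F : Set Φ) := by exact_mod_cast C.Gb_sub v hv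
  have h4 := mate_loc' (C.Gs_sub v hv) h2 (Ini.anti hsub haF) (Ini.anti hsub hbF)
  refine mem_ovr.mpr ⟨h1, ?_, by rw [h4.1]; exact h3⟩
  exact mem_bS.mpr ⟨mate_loc'.dE_mono (C.Gs_sub v hv) (mem_bS.mp h2).1, Ini.anti hsub haF⟩

/-- Arcs over `v` in the big box as arcs of `F`. -/
theorem over_F (C : Charts Q F ψ ι κ) {v : κ} (hv : v ∈ C.S)
    (ha : a ∈ ovr Q (C.Gb v) (C.PA v) (C.PB v) ω) :
    a ∈ bS Q F ∧ mate Q F ω a = mate Q (C.Gb v) ω a ∧ wt Q F ω ψ a = Real.sqrt 3 * C.t v := by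
  obtain ⟨h1, h2, h3⟩ := mem_ovr.mp ha
  have haF := C.PA_F v hv h1
  have h4 := mate_loc (C.Gb_sub v hv) h2 (mem_bS.mp haF).2 (C.PB_F v hv h3)
  refine ⟨haF, h4.1, ?_⟩
  rw [wt_loc ψ (C.Gb_sub v hv) h2 (mem_bS.mp haF).2 (C.PB_F v hv h3)]
  exact C.ovw v hv ω a h1 h2 h3

/-- The local arcs over `v`. -/
def A (C : Charts Q F ψ ι κ) (ω : Φ → Bool) (v : κ) : Finset (Sym2 (V × V)) :=
  (ovr Q (C.Gs v) (C.PA v) (C.PB v) ω).image fun a => s(a, mate Q F ω a)

theorem card_A (C : Charts Q F ψ ι κ) {v : κ} (hv : v ∈ C.S) (ω : Φ → Bool) :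
    (C.A ω v).card = C.N v ω := by
  unfold A N
  refine Finset.card_image_of_injOn fun a ha b hb h => ?_
  have ha' := C.over_F hv (C.ovr_sub hv ω (Finset.mem_coe.mp ha))
  have ha3 := (mem_ovr.mp (C.ovr_sub hv ω (Finset.mem_coe.mp ha))).2.2
  have hb1 := (mem_ovr.mp (Finset.mem_coe.mp hb)).1
  have h' : s(a, mate Q F ω a) = s(b, mate Q F ω b) := h
  rw [Sym2.eq_iff] at h'
  rcases h' with ⟨h1, -⟩ | ⟨-, h1⟩
  · exact h1
  · exfalso
    rw [ha'.2.1] at h1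
    rw [h1] at ha3
    exact Finset.disjoint_left.mp (C.dAB v hv v hv) hb1 ha3

/-- **Localisation of the product over the arcs.** -/
theorem prod_le (C : Charts Q F ψ ι κ) (ω : Φ → Bool) :
    |∏ p ∈ arcs Q F ω, wA Q F ω ψ p| ≤
      Real.sqrt 3 ^ (arcs Q F ω).card * (∏ v ∈ C.S, C.t v ^ C.N v ω) *
        (2 / Real.sqrt 3) ^ C.K ω := by
  classical
  have h3 : (0 : ℝ) < Real.sqrt 3 := Real.sqrt_pos.mpr (by norm_num)
  have h32 : Real.sqrt 3 ≤ 2 := by
    rw [Real.sqrt_le_left (by norm_num)]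
    norm_num
  have hq : 1 ≤ 2 / Real.sqrt 3 := by rwa [le_div_iff₀ h3, one_mul]
  -- the three classes of arcs
  set U := C.S.biUnion (C.A ω) with hU
  have hUa : U ⊆ arcs Q F ω := by
    intro p hp
    obtain ⟨v, hv, hp⟩ := Finset.mem_biUnion.mp hp
    obtain ⟨a, ha, rfl⟩ := Finset.mem_image.mp hp
    exact mem_arcs.mpr ⟨a, (C.over_F hv (C.ovr_sub hv ω ha)).1, rfl⟩
  set B := (arcs Q F ω \ U).filter fun p => Real.sqrt 3 < |wA Q F ω ψ p| with hB
  have hAdis : ∀ v ∈ C.S, ∀ v' ∈ C.S, v ≠ v' → Disjoint (C.A ω v) (C.A ω v') := by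
    intro v hv v' hv' hne
    rw [Finset.disjoint_left]
    intro p hp hp'
    obtain ⟨a, ha, rfl⟩ := Finset.mem_image.mp hp
    obtain ⟨b, hb, hab⟩ := Finset.mem_image.mp hp'
    have h1 := (mem_ovr.mp ha).1
    have h2 := (mem_ovr.mp hb).1
    have h4 := C.over_F hv (C.ovr_sub hv ω ha)
    have h5 := (mem_ovr.mp (C.ovr_sub hv ω ha)).2.2
    rw [← h4.2.1] at h5
    have hab' : s(b, mate Q F ω b) = s(a, mate Q F ω a) := hab
    rw [Sym2.eq_iff] at hab'
    rcases hab' with ⟨h6, -⟩ | ⟨h6, -⟩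
    · rw [h6] at h2
      exact Finset.disjoint_left.mp (C.dAA v hv v' hv' hne) h1 h2
    · rw [h6] at h2
      exact Finset.disjoint_left.mp (C.dAB v' hv' v hv) h2 h5
  -- the product over `U`
  have hprodU : ∏ p ∈ U, |wA Q F ω ψ p| =
      Real.sqrt 3 ^ U.card * ∏ v ∈ C.S, C.t v ^ C.N v ω := by
    have e1 : ∏ p ∈ U, |wA Q F ω ψ p| = ∏ v ∈ C.S, ∏ p ∈ C.A ω v, |wA Q F ω ψ p| :=
      Finset.prod_biUnion (fun v hv v' hv' hne => hAdis v (Finset.mem_coe.mp hv) v'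
        (Finset.mem_coe.mp hv') hne)
    have e2 : U.card = ∑ v ∈ C.S, C.N v ω := by
      rw [hU, Finset.card_biUnion hAdis]
      exact Finset.sum_congr rfl fun v hv => C.card_A hv ω
    rw [e1, e2, ← Finset.prod_pow_eq_pow_sum, ← Finset.prod_mul_distrib]
    refine Finset.prod_congr rfl fun v hv => ?_
    rw [← mul_pow, ← C.card_A hv ω]
    refine Finset.prod_eq_pow_card fun p hp => ?_
    obtain ⟨a, ha, rfl⟩ := Finset.mem_image.mp hp
    have h4 := C.over_F hv (C.ovr_sub hv ω ha)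
    rw [wA_eq ψ h4.1, h4.2.2, abs_of_nonneg (mul_nonneg h3.le (C.t_nonneg v hv))]
  -- the exceptional arcs
  have hBcard : B.card ≤ C.K ω := by
    set D := (C.I.biUnion fun i => esc Q F (C.G i) (C.H i) ω) ∪
      C.S.biUnion fun v => esc Q F (C.Gb v) (C.Hb v) ω ∪
        (ovr Q (C.Gb v) (C.PA v) (C.PB v) ω \ ovr Q (C.Gs v) (C.PA v) (C.PB v) ω) with hD
    have hDcard : D.card ≤ C.K ω := by
      unfold K
      refine (Finset.card_union_le _ _).trans (Nat.add_le_add Finset.card_biUnion_le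
        (Finset.card_biUnion_le.trans (Finset.sum_le_sum fun v hv => ?_)))
      refine (Finset.card_union_le _ _).trans (Nat.add_le_add_left ?_ _)
      rw [Finset.card_sdiff_of_subset (C.ovr_sub hv ω)]
      exact le_rfl
    refine le_trans ?_ hDcard
    have hsub : B ⊆ D.image fun a => s(a, mate Q F ω a) := by
      intro p hp
      rw [hB, Finset.mem_filter, Finset.mem_sdiff] at hp
      obtain ⟨⟨hp1, hp2⟩, hp3⟩ := hp
      obtain ⟨a, ha, rfl⟩ := mem_arcs.mp hp1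
      rw [wA_eq ψ ha] at hp3
      rw [Finset.mem_image]
      -- an arc over `v` in the big box
      have key : ∀ v ∈ C.S, ∀ b ∈ bS Q F, s(b, mate Q F ω b) = s(a, mate Q F ω a) →
          b ∈ ovr Q (C.Gb v) (C.PA v) (C.PB v) ω → ∃ c ∈ D, s(c, mate Q F ω c) = s(a, mate Q F ω a) := by
        intro v hv b _ hba hb
        refine ⟨b, ?_, hba⟩
        rw [hD]
        refine Finset.mem_union_right _ (Finset.mem_biUnion.mpr ⟨v, hv, Finset.mem_union_right _ ?_⟩)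
        rw [Finset.mem_sdiff]
        refine ⟨hb, fun hb' => hp2 ?_⟩
        rw [hU, Finset.mem_biUnion]
        refine ⟨v, hv, ?_⟩
        rw [← hba]
        exact Finset.mem_image_of_mem _ hb'
      rcases C.cover a ha with ⟨i, hi, hai⟩ | ⟨v, hv, hav⟩
      · refine ⟨a, ?_, rfl⟩
        rw [hD]
        refine Finset.mem_union_left _ (Finset.mem_biUnion.mpr ⟨i, hi, mem_esc.mpr ⟨hai, fun hm => ?_⟩⟩)
        have h1 := C.nat i hi ω a hai hm
        rw [← wt_loc ψ (C.G_sub i hi) (C.H_G i hi hai) (mem_bS.mp ha).2 hm] at h1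
        linarith
      · by_cases hm : mate Q (C.Gb v) ω a ∈ bS Q F
        · have hab := C.Hb_G v hv hav
          have hloc := mate_loc (C.Gb_sub v hv) hab (mem_bS.mp ha).2 hm
          rcases C.spec v hv ω a hav hm with ⟨h1, h2⟩ | ⟨h1, h2⟩ | h1
          · exact key v hv a ha rfl (mem_ovr.mpr ⟨h1, hab, h2⟩)
          · have hmb : mate Q (C.Gb v) ω a ∈ bS Q (C.Gb v) := mate_mem hab
            refine key v hv _ hm ?_ (mem_ovr.mpr ⟨h2, hmb, by rw [mate_mate hab]; exact h1⟩)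
            rw [← hloc.1, mate_mate ha, Sym2.eq_swap]
          · exfalso
            rw [← wt_loc ψ (C.Gb_sub v hv) hab (mem_bS.mp ha).2 hm] at h1
            linarith
        · refine ⟨a, ?_, rfl⟩
          rw [hD]
          refine Finset.mem_union_right _ (Finset.mem_biUnion.mpr ⟨v, hv, Finset.mem_union_left _ ?_⟩)
          exact mem_esc.mpr ⟨hav, hm⟩
    exact (Finset.card_le_card hsub).trans Finset.card_image_le
  -- the product over the rest
  have hrest : ∏ p ∈ arcs Q F ω \ U, |wA Q F ω ψ p| ≤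
      Real.sqrt 3 ^ (arcs Q F ω \ U).card * (2 / Real.sqrt 3) ^ C.K ω := by
    have e1 : ∀ p ∈ arcs Q F ω \ U, |wA Q F ω ψ p| ≤
        Real.sqrt 3 * (if Real.sqrt 3 < |wA Q F ω ψ p| then 2 / Real.sqrt 3 else 1) := by
      intro p hp
      obtain ⟨a, ha, rfl⟩ := mem_arcs.mp (Finset.mem_sdiff.mp hp).1
      rw [wA_eq ψ ha]
      split_ifs with h
      · rw [mul_div_cancel₀ _ h3.ne']
        exact abs_wt_le ψ
      · rw [mul_one]
        exact not_lt.mp h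
    refine (Finset.prod_le_prod (fun p _ => abs_nonneg _) e1).trans ?_
    rw [Finset.prod_mul_distrib, Finset.prod_const]
    refine mul_le_mul_of_nonneg_left ?_ (by positivity)
    rw [Finset.prod_ite, Finset.prod_const, Finset.prod_const_one, mul_one]
    exact pow_le_pow_right₀ hq hBcard
  rw [Finset.abs_prod, ← Finset.prod_sdiff hUa, hprodU]
  have hcard : (arcs Q F ω).card = (arcs Q F ω \ U).card + U.card := by
    rw [Finset.card_sdiff_add_card_eq_card hUa]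
  rw [hcard, pow_add]
  have hT : 0 ≤ ∏ v ∈ C.S, C.t v ^ C.N v ω :=
    Finset.prod_nonneg fun v hv => pow_nonneg (C.t_nonneg v hv) _
  calc (∏ p ∈ arcs Q F ω \ U, |wA Q F ω ψ p|) * (Real.sqrt 3 ^ U.card * ∏ v ∈ C.S, C.t v ^ C.N v ω)
      ≤ (Real.sqrt 3 ^ (arcs Q F ω \ U).card * (2 / Real.sqrt 3) ^ C.K ω) *
          (Real.sqrt 3 ^ U.card * ∏ v ∈ C.S, C.t v ^ C.N v ω) :=
        mul_le_mul_of_nonneg_right hrest (by positivity)
    _ = _ := by ring

end Charts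

end

end Pool.Agent.SixB
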