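import Pool.Agent.Lib.SixB.S3Chain
import Pool.Agent.Lib.SixB.S0Av

/-!
# 6BD, block CA-L, row L4: `ExpSys` instance of `av`, resampling of a set of faces, heavy events

* `avSys W : ExpSys (Φ → Bool) Φ`, `E = av W`, `agree A` = equal on `A`.
* `rs A g ω`: mean of `g` over the faces of `A` (the other faces as in `ω`); tower, pull out, dependence.
* `heavy`: for `g ≥ 0` depending on `A ∪ A'` (disjoint): the event `Hv A' κ g = {κ < rs A' g}` depends
  on `A` only, has probability `≤ E g / κ`, and `E (h g) ≤ κ E h` for every `h ≥ 0` which depends on the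
  faces off `A'` and vanishes on the event.
* `Xb`: the factor of a bad level: `T ^ Y` on `cross \ heavy`, `T ^ M` on `heavy`, `0` on good levels;
  fourth moment bound, and the choice of constants (first the ratio `L`, then `κ`).
-/

set_option autoImplicit false
set_option linter.unusedSectionVars false

namespace Pool.Agent.SixB.LH

noncomputable section

variable {Φ : Type} [DecidableEq Φ]

/-- restriction to the window: faces outside `W` are `false` -/
def toW (W : Finset Φ) (ω : Φ → Bool) : Φ → Bool := fun f => if f ∈ W then ω f else false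

theorem toW_ind {W T : Finset Φ} (hT : T ⊆ W) : toW W (ind T) = ind T := by
  funext f
  unfold toW ind
  by_cases h : f ∈ W
  · simp [h]
  · have : f ∉ T := fun h' => h (hT h')
    simp [h, this]

theorem dep_toW {α : Type} {A : Set Φ} {g : (Φ → Bool) → α} (hg : Dep A g) (W : Finset Φ)
    [DecidablePred (· ∈ A)] :
    Dep ((W.filter (· ∈ A) : Finset Φ) : Set Φ) (fun ω => g (toW W ω)) := by
  intro ω ω' h
  refine hg _ _ fun f hf => ?_
  unfold toW
  by_cases hW : f ∈ W
  · simp only [hW, if_true]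
    exact h f (by simp [hW, hf])
  · simp [hW]

/-- independence for arbitrary sets of faces -/
theorem av_indep_set {W : Finset Φ} {A B : Set Φ} (hd : Disjoint A B) {f g : (Φ → Bool) → ℝ}
    (hf : Dep A f) (hg : Dep B g) : av W (fun ω => f ω * g ω) = av W f * av W g := by
  classical
  have h1 := dep_toW hf W
  have h2 := dep_toW hg W
  have hd' : Disjoint (W.filter (· ∈ A)) (W.filter (· ∈ B)) := by
    rw [Finset.disjoint_left]
    intro x hx hx'
    rw [Finset.mem_filter] at hx hx'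
    exact Set.disjoint_left.mp hd hx.2 hx'.2
  have h3 := av_indep' (S := W) hd' h1 h2 (Finset.filter_subset _ _) (Finset.filter_subset _ _)
  have e1 : av W (fun ω => f ω * g ω) = av W (fun ω => f (toW W ω) * g (toW W ω)) :=
    av_congr fun T hT => by simp only [toW_ind hT]
  have e2 : av W f = av W (fun ω => f (toW W ω)) := av_congr fun T hT => by simp only [toW_ind hT]
  have e3 : av W g = av W (fun ω => g (toW W ω)) := av_congr fun T hT => by simp only [toW_ind hT]
  rw [e1, e2, e3, h3]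

/-- the averages over the configurations of `W` as an expectation system -/
def avSys (W : Finset Φ) : ExpSys (Φ → Bool) Φ where
  agree A ω ω' := ∀ f ∈ A, ω f = ω' f
  anti _ _ _ _ h hω := fun f hf => hω f (h hf)
  E := av W
  add _ _ := av_add
  smul c _ := av_mul c
  one := av_const 1
  mono _ _ h := av_mono fun _ _ => h _
  indep _ _ _ _ hd hf hg := av_indep_set hd hf hg

@[simp] theorem avSys_E (W : Finset Φ) (g : (Φ → Bool) → ℝ) : (avSys W).E g = av W g := rfl

theorem avSys_dep {α : Type} {W : Finset Φ} {A : Set Φ} {g : (Φ → Bool) → α} :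
    (avSys W).Dep A g ↔ Dep A g := Iff.rfl

/-- replace the faces of `A` by those of `ξ` -/
def mx (A : Finset Φ) (ω ξ : Φ → Bool) : Φ → Bool := fun f => if f ∈ A then ξ f else ω f

theorem mx_empty (ω ξ : Φ → Bool) : mx ∅ ω ξ = ω := by
  funext f
  simp [mx]

theorem mx_insert {A : Finset Φ} {f : Φ} (hf : f ∉ A) (ω ξ : Φ → Bool) (b : Bool) :
    mx (insert f A) ω (Function.update ξ f b) = mx A (Function.update ω f b) ξ := by
  funext x
  unfold mx
  rcases eq_or_ne x f with rfl | h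
  · simp [hf]
  · simp [h, Finset.mem_insert]

/-- the mean over the faces of `A` -/
def rs (A : Finset Φ) (g : (Φ → Bool) → ℝ) (ω : Φ → Bool) : ℝ := av A (fun ξ => g (mx A ω ξ))

theorem rs_empty (g : (Φ → Bool) → ℝ) : rs ∅ g = g := by
  funext ω
  unfold rs
  simp only [mx_empty]
  exact av_const _

theorem rs_insert {A : Finset Φ} {f : Φ} (hf : f ∉ A) (g : (Φ → Bool) → ℝ) (ω : Φ → Bool) :
    rs (insert f A) g ω =
      (rs A g (Function.update ω f true) + rs A g (Function.update ω f false)) / 2 := by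
  unfold rs
  rw [av_insert hf]
  simp only [mx_insert hf]

/-- the mean over `A` does not depend on `A` -/
theorem rs_dep {A : Finset Φ} {B : Set Φ} {g : (Φ → Bool) → ℝ} (hg : Dep (B ∪ A) g) :
    Dep B (rs A g) := by
  intro ω ω' h
  unfold rs
  refine av_congr fun T _ => hg _ _ fun f hf => ?_
  unfold mx
  by_cases hA : f ∈ A
  · simp [hA]
  · simp only [hA, if_false]
    refine h f ?_
    rcases hf with hf | hf
    · exact hf
    · exact absurd (Finset.mem_coe.mp hf) hA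

theorem rs_dep_compl (A : Finset Φ) (g : (Φ → Bool) → ℝ) : Dep ((A : Set Φ)ᶜ) (rs A g) :=
  rs_dep (B := (A : Set Φ)ᶜ) (by
    intro ω ω' h
    congr 1
    funext f
    exact h f (by by_cases hf : f ∈ A <;> simp [hf]))

/-- tower property -/
theorem av_rs {W A : Finset Φ} (hA : A ⊆ W) (g : (Φ → Bool) → ℝ) : av W (rs A g) = av W g := by
  induction A using Finset.induction_on generalizing g with
  | empty => rw [rs_empty]
  | insert f A hf ih =>
    have hfW : f ∈ W := hA (Finset.mem_insert_self _ _)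
    have hAW : A ⊆ W := fun x hx => hA (Finset.mem_insert_of_mem hx)
    rw [← ih hAW g]
    have hW : W = insert f (W.erase f) := (Finset.insert_erase hfW).symm
    have hnf : f ∉ W.erase f := Finset.notMem_erase _ _
    rw [hW, av_insert hnf, av_insert hnf]
    have e : ∀ b, (fun ω => rs (insert f A) g (Function.update ω f b)) =
        fun ω => (rs A g (Function.update ω f true) + rs A g (Function.update ω f false)) / 2 := by
      intro b
      funext ω
      rw [rs_insert hf]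
      simp only [Function.update_idem]
    rw [e true, e false]
    have e2 : (fun ω => (rs A g (Function.update ω f true) +
        rs A g (Function.update ω f false)) / 2) =
        fun ω => (1 / 2 : ℝ) * (rs A g (Function.update ω f true) +
          rs A g (Function.update ω f false)) := by
      funext ω
      ring
    rw [e2, av_mul, av_add]
    ring

/-- pulling out a function of the other faces -/
theorem rs_mul {A : Finset Φ} {h : (Φ → Bool) → ℝ} (hh : Dep ((A : Set Φ)ᶜ) h)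
    (g : (Φ → Bool) → ℝ) (ω : Φ → Bool) : rs A (fun ω => h ω * g ω) ω = h ω * rs A g ω := by
  unfold rs
  rw [← av_mul]
  refine av_congr fun T _ => ?_
  have : h (mx A ω (ind T)) = h ω := hh _ _ fun f hf => by
    have : f ∉ A := fun h' => hf (Finset.mem_coe.mpr h')
    simp [mx, this]
  simp only [this]

theorem av_mul_rs {W A : Finset Φ} (hA : A ⊆ W) {h : (Φ → Bool) → ℝ} (hh : Dep ((A : Set Φ)ᶜ) h)
    (g : (Φ → Bool) → ℝ) : av W (fun ω => h ω * rs A g ω) = av W (fun ω => h ω * g ω) := by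
  rw [← av_rs hA (fun ω => h ω * g ω)]
  exact av_congr fun T _ => (rs_mul hh g _).symm

theorem rs_add (A : Finset Φ) (g g' : (Φ → Bool) → ℝ) (ω : Φ → Bool) :
    rs A (fun ω => g ω + g' ω) ω = rs A g ω + rs A g' ω := av_add

theorem rs_mul_left (A : Finset Φ) (c : ℝ) (g : (Φ → Bool) → ℝ) (ω : Φ → Bool) :
    rs A (fun ω => c * g ω) ω = c * rs A g ω := av_mul c

theorem rs_const (A : Finset Φ) (c : ℝ) (ω : Φ → Bool) : rs A (fun _ => c) ω = c := av_const c

theorem rs_mono {A : Finset Φ} {g g' : (Φ → Bool) → ℝ} (h : ∀ ω, g ω ≤ g' ω) (ω : Φ → Bool) :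
    rs A g ω ≤ rs A g' ω := av_mono fun _ _ => h _

theorem rs_nonneg {A : Finset Φ} {g : (Φ → Bool) → ℝ} (h : ∀ ω, 0 ≤ g ω) (ω : Φ → Bool) :
    0 ≤ rs A g ω := av_nonneg fun _ _ => h _

theorem abs_rs_le {A : Finset Φ} (g : (Φ → Bool) → ℝ) (ω : Φ → Bool) :
    |rs A g ω| ≤ rs A (fun ω => |g ω|) ω := abs_av_le fun _ _ => le_rfl

/-- resampling a set of faces which does not matter -/
theorem rs_of_dep {A : Finset Φ} {h : (Φ → Bool) → ℝ} (hh : Dep ((A : Set Φ)ᶜ) h) (ω : Φ → Bool) :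
    rs A h ω = h ω := by
  have := rs_mul hh (fun _ => 1) ω
  simp only [mul_one, rs_const] at this
  exact this

theorem mx_union (A B : Finset Φ) (ω ξ : Φ → Bool) : mx (A ∪ B) ω ξ = mx A (mx B ω ξ) ξ := by
  funext f
  unfold mx
  by_cases h : f ∈ A <;> by_cases h' : f ∈ B <;> simp [h, h']

/-- resampling in two steps (disjoint sets) -/
theorem rs_rs {A B : Finset Φ} (hd : Disjoint A B) (g : (Φ → Bool) → ℝ) :
    rs B (rs A g) = rs (A ∪ B) g := by
  induction B using Finset.induction_on with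
  | empty => rw [rs_empty, Finset.union_empty]
  | insert f B hf ih =>
    have hfA : f ∉ A := fun h => Finset.disjoint_left.mp hd h (Finset.mem_insert_self _ _)
    have hd' : Disjoint A B := hd.mono_right (Finset.subset_insert _ _)
    have h1 : A ∪ insert f B = insert f (A ∪ B) := by
      ext x
      simp only [Finset.mem_union, Finset.mem_insert]
      tauto
    funext ω
    rw [h1, rs_insert hf, rs_insert (by simp [hf, hfA]), ih hd']

/-- the heavy event -/
def Hv (A' : Finset Φ) (κ : ℝ) (g : (Φ → Bool) → ℝ) (ω : Φ → Bool) : Prop := κ < rs A' g ω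

theorem hv_dep {A' : Finset Φ} {A : Set Φ} {g : (Φ → Bool) → ℝ} (hg : Dep (A ∪ A') g) (κ : ℝ) :
    Dep A (Hv A' κ g) := by
  intro ω ω' h
  unfold Hv
  rw [rs_dep hg ω ω' h]

open Classical in
/-- Markov inequality for the heavy event -/
theorem hv_prob {W A' : Finset Φ} (hA : A' ⊆ W) {κ : ℝ} (hκ : 0 < κ) {g : (Φ → Bool) → ℝ}
    (hg0 : ∀ ω, 0 ≤ g ω) : av W (fun ω => if Hv A' κ g ω then 1 else 0) ≤ av W g / κ := by
  rw [le_div_iff₀ hκ, mul_comm, ← av_mul, ← av_rs hA g]
  refine av_mono fun T _ => ?_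
  by_cases h : Hv A' κ g (ind T)
  · rw [if_pos h, mul_one]
    exact h.le
  · rw [if_neg h, mul_zero]
    exact rs_nonneg hg0 _

/-- off the heavy event the factor `g` costs at most `κ` -/
theorem hv_bound {W A' : Finset Φ} (hA : A' ⊆ W) {κ : ℝ} {g h : (Φ → Bool) → ℝ}
    (hh : Dep ((A' : Set Φ)ᶜ) h) (hh0 : ∀ ω, 0 ≤ h ω) (hhv : ∀ ω, Hv A' κ g ω → h ω = 0) :
    av W (fun ω => h ω * g ω) ≤ κ * av W h := by
  rw [← av_mul_rs hA hh, ← av_mul]
  refine av_mono fun T _ => ?_
  by_cases hv : Hv A' κ g (ind T)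
  · rw [hhv _ hv]
    simp
  · have h1 : rs A' g (ind T) ≤ κ := not_lt.mp hv
    have h2 := mul_le_mul_of_nonneg_left h1 (hh0 (ind T))
    linarith

/-- pointwise version: `h` may be any function off `A'` vanishing on the heavy event, conditional
on the faces off `A'` -/
theorem hv_bound_rs {A' : Finset Φ} {κ : ℝ} {g h : (Φ → Bool) → ℝ}
    (hh : Dep ((A' : Set Φ)ᶜ) h) (hh0 : ∀ ω, 0 ≤ h ω) (hhv : ∀ ω, Hv A' κ g ω → h ω = 0)
    (ω : Φ → Bool) : rs A' (fun ω => h ω * g ω) ω ≤ κ * h ω := by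
  rw [rs_mul hh]
  by_cases hv : Hv A' κ g ω
  · rw [hhv _ hv]
    simp
  · have h1 : rs A' g ω ≤ κ := not_lt.mp hv
    have h2 := mul_le_mul_of_nonneg_left h1 (hh0 ω)
    linarith

/-! ### The factor of a bad level -/

section bad

variable {Ω ι : Type*} (P : ExpSys Ω ι)

open Classical in
/-- indicator -/
def ic (A : Ω → Prop) (ω : Ω) : ℝ := if A ω then 1 else 0

open Classical in
theorem ic_nonneg (A : Ω → Prop) (ω : Ω) : 0 ≤ ic A ω := by unfold ic; split_ifs <;> norm_num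

open Classical in
theorem ic_le_one (A : Ω → Prop) (ω : Ω) : ic A ω ≤ 1 := by unfold ic; split_ifs <;> norm_num

theorem ic_sq (A : Ω → Prop) (ω : Ω) : ic A ω ^ 2 = ic A ω := by
  unfold ic; split_ifs <;> norm_num

theorem ic_pow (A : Ω → Prop) (ω : Ω) {n : ℕ} (hn : n ≠ 0) : ic A ω ^ n = ic A ω := by
  unfold ic; split_ifs <;> simp [hn]

theorem ic_congr {A : Ω → Prop} {ω ω' : Ω} (h : A ω = A ω') : ic A ω = ic A ω' := by
  unfold ic
  by_cases h1 : A ω
  · rw [if_pos h1, if_pos (h ▸ h1)]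
  · rw [if_neg h1, if_neg (h ▸ h1)]

/-- Cauchy-Schwarz with an indicator -/
theorem E_mul_ic (f : Ω → ℝ) (A : Ω → Prop) {Cf p : ℝ}
    (hf : P.E (fun ω => f ω ^ 2) ≤ Cf) (hp : P.E (ic A) ≤ p) :
    P.E (fun ω => f ω * ic A ω) ≤ Real.sqrt (Cf * p) := by
  have h0 : 0 ≤ P.E (ic A) := P.E_nonneg (ic_nonneg A)
  have h1 : 0 ≤ P.E (fun ω => f ω ^ 2) := P.E_nonneg fun ω => sq_nonneg _
  refine Real.le_sqrt_of_sq_le ((P.cs f (ic A)).trans ?_)
  have e : (fun ω => ic A ω ^ 2) = ic A := funext (ic_sq A)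
  rw [e]
  exact mul_le_mul hf hp h0 (h1.trans hf)

/-- the factor of one level: `T ^ Y` on `cross \ heavy`, `T ^ M` on `heavy`, `0` on good levels -/
def Xb (T : ℝ) (Y M : Ω → ℕ) (cross heavy : Ω → Prop) (ω : Ω) : ℝ :=
  T ^ Y ω * ic cross ω * (1 - ic heavy ω) + T ^ M ω * ic heavy ω

theorem Xb_nonneg {T : ℝ} (hT : 1 ≤ T) (Y M : Ω → ℕ) (cross heavy : Ω → Prop) (ω : Ω) :
    0 ≤ Xb T Y M cross heavy ω := by
  unfold Xb
  have h1 : (0:ℝ) ≤ T ^ Y ω := by positivity
  have h2 : (0:ℝ) ≤ T ^ M ω := by positivity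
  have h3 := ic_nonneg cross ω
  have h4 := ic_nonneg heavy ω
  have h5 := ic_le_one heavy ω
  have h6 : 0 ≤ 1 - ic heavy ω := by linarith
  positivity

theorem Xb_good {T : ℝ} {Y M : Ω → ℕ} {cross heavy : Ω → Prop} {ω : Ω} (h1 : ¬ cross ω)
    (h2 : ¬ heavy ω) : Xb T Y M cross heavy ω = 0 := by
  simp [Xb, ic, h1, h2]

theorem Xb_cross {T : ℝ} {Y M : Ω → ℕ} {cross heavy : Ω → Prop} {ω : Ω} (h1 : cross ω)
    (h2 : ¬ heavy ω) : Xb T Y M cross heavy ω = T ^ Y ω := by
  simp [Xb, ic, h1, h2]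

theorem Xb_heavy {T : ℝ} {Y M : Ω → ℕ} {cross heavy : Ω → Prop} {ω : Ω}
    (h2 : heavy ω) : Xb T Y M cross heavy ω = T ^ M ω := by
  simp [Xb, ic, h2]

/-- `t ^ N ≤ t ^ N' * Xb` on a bad level -/
theorem le_Xb {t T : ℝ} (ht : 1 ≤ t) (htT : t ≤ T) {Y M : Ω → ℕ} {cross heavy : Ω → Prop}
    {N N' : ℕ} {ω : Ω} (hM : N ≤ N' + M ω) (hY : cross ω → N ≤ N' + Y ω)
    (hbad : cross ω ∨ heavy ω) : t ^ N ≤ t ^ N' * Xb T Y M cross heavy ω := by
  have key : ∀ k : ℕ, N ≤ N' + k → t ^ N ≤ t ^ N' * T ^ k := by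
    intro k hk
    calc t ^ N ≤ t ^ (N' + k) := pow_le_pow_right₀ ht hk
      _ = t ^ N' * t ^ k := pow_add _ _ _
      _ ≤ t ^ N' * T ^ k := by gcongr
  by_cases h2 : heavy ω
  · rw [Xb_heavy h2]
    exact key _ hM
  · have h1 : cross ω := hbad.resolve_right h2
    rw [Xb_cross h1 h2]
    exact key _ (hY h1)

theorem Xb_dep {P : ExpSys Ω ι} {S : Set ι} {T : ℝ} {Y M : Ω → ℕ} {cross heavy : Ω → Prop}
    (hY : P.Dep S Y) (hM : P.Dep S M) (hc : P.Dep S cross) (hh : P.Dep S heavy) :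
    P.Dep S (Xb T Y M cross heavy) := by
  intro ω ω' h
  have h1 : ic cross ω = ic cross ω' := ic_congr (hc ω ω' h)
  have h2 : ic heavy ω = ic heavy ω' := ic_congr (hh ω ω' h)
  simp only [Xb, h1, h2, hY ω ω' h, hM ω ω' h]

theorem Xb_pow (T : ℝ) (Y M : Ω → ℕ) (cross heavy : Ω → Prop) (ω : Ω) {n : ℕ} (hn : n ≠ 0) :
    Xb T Y M cross heavy ω ^ n =
      (T ^ n) ^ Y ω * ic cross ω * (1 - ic heavy ω) + (T ^ n) ^ M ω * ic heavy ω := by
  by_cases h1 : cross ω <;> by_cases h2 : heavy ω <;>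
    simp [Xb, ic, h1, h2, ← pow_mul, mul_comm n, hn]

/-- moments of the factor of a bad level -/
theorem Xb_moment {T : ℝ} (hT : 1 ≤ T) {n : ℕ} (hn : n ≠ 0) {Y M : Ω → ℕ}
    {cross heavy : Ω → Prop} {CY CM p q : ℝ} (hY : P.E (fun ω => (T ^ (2 * n)) ^ Y ω) ≤ CY)
    (hM : P.E (fun ω => (T ^ (2 * n)) ^ M ω) ≤ CM) (hp : P.E (ic cross) ≤ p)
    (hq : P.E (ic heavy) ≤ q) :
    P.E (fun ω => Xb T Y M cross heavy ω ^ n) ≤ Real.sqrt (CY * p) + Real.sqrt (CM * q) := by
  have e1 : ∀ (Z : Ω → ℕ), (fun ω => ((T ^ n) ^ Z ω) ^ 2) = fun ω => (T ^ (2 * n)) ^ Z ω := by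
    intro Z
    funext ω
    rw [← pow_mul, ← pow_mul, ← pow_mul]
    congr 1
    ring
  have h1 := E_mul_ic P (fun ω => (T ^ n) ^ Y ω) cross (Cf := CY) (p := p) (by rwa [e1]) hp
  have h2 := E_mul_ic P (fun ω => (T ^ n) ^ M ω) heavy (Cf := CM) (p := q) (by rwa [e1]) hq
  have h3 : P.E (fun ω => Xb T Y M cross heavy ω ^ n) ≤
      P.E (fun ω => (T ^ n) ^ Y ω * ic cross ω + (T ^ n) ^ M ω * ic heavy ω) := by
    refine P.mono _ _ fun ω => ?_
    rw [Xb_pow _ _ _ _ _ _ hn]
    refine add_le_add ?_ le_rfl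
    have h4 : 0 ≤ (T ^ n) ^ Y ω * ic cross ω := mul_nonneg (by positivity) (ic_nonneg _ _)
    have h5 := ic_nonneg heavy ω
    nlinarith
  rw [P.add] at h3
  linarith

/-- choice of the constants: first the probability of a crossing, then the threshold `κ` -/
theorem choose_const {CY η : ℝ} (hη : 0 < η) (hCY : 0 ≤ CY) :
    ∃ p : ℝ, 0 < p ∧ ∀ CM Cg : ℝ, 0 ≤ CM → 0 ≤ Cg → ∃ κ0 : ℝ, 0 < κ0 ∧ ∀ κ, κ0 ≤ κ →
      Real.sqrt (CY * p) + Real.sqrt (CM * (Cg / κ)) ≤ η := by
  refine ⟨(η / 2) ^ 2 / (CY + 1), by positivity, ?_⟩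
  intro CM Cg hCM hCg
  refine ⟨4 * (CM * Cg + 1) / η ^ 2, by positivity, ?_⟩
  intro κ hκ
  have hκ0 : 0 < κ := lt_of_lt_of_le (by positivity) hκ
  have h1 : Real.sqrt (CY * ((η / 2) ^ 2 / (CY + 1))) ≤ η / 2 := by
    rw [Real.sqrt_le_left (by positivity)]
    have : CY / (CY + 1) ≤ 1 := by
      rw [div_le_one (by positivity)]
      linarith
    calc CY * ((η / 2) ^ 2 / (CY + 1)) = CY / (CY + 1) * (η / 2) ^ 2 := by ring
      _ ≤ 1 * (η / 2) ^ 2 := by gcongr
      _ = _ := one_mul _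
  have h2 : Real.sqrt (CM * (Cg / κ)) ≤ η / 2 := by
    rw [Real.sqrt_le_left (by positivity)]
    rw [div_le_iff₀ (by positivity)] at hκ
    rw [← mul_div_assoc, div_le_iff₀ hκ0]
    nlinarith [mul_nonneg hCM hCg]
  linarith

end bad

end

end Pool.Agent.SixB.LH
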