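import Pool.Agent.Lib.SixB.S3Count
import Pool.Agent.Lib.SixB.S6LHeavy

/-!
# 6BD, step 3: planar wedges

`Wdg m o` (`m = 1, 2, 3`, `o : ℕ` read mod `4`): the union of the `m` quadrants `o, …, o + m - 1` around
the origin; `Ray o` and `Ray (o + m)` are the unit edges of its walls. `wN m o r j` is the number of the
strands over the origin in the box of radius `r / 2 ^ j`, `wM` the increment of the chain, `wB` the faces.
`wN_anti`, `wN_le`, `dep_wN`, `dep_wM`, `wN_zero`, `wM_moment` are the hypotheses of `ChainData` and `Good`.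
`Fw m o t r = E[t ^ wN m o r 0]` does not depend on the orientation (`Fw_rot`).
-/

set_option autoImplicit false

namespace Pool.Agent.SixB.Wd

open Finset Pool.Agent.Perc Pool.Agent.PercD Pool.Agent.PercN

/-- The quadrants around the origin. -/
def Qd (k : ℕ) (f : ℤ × ℤ) : Prop :=
  (k % 4 = 0 ∧ 0 ≤ f.1 ∧ 0 ≤ f.2) ∨ (k % 4 = 1 ∧ f.1 < 0 ∧ 0 ≤ f.2) ∨
    (k % 4 = 2 ∧ f.1 < 0 ∧ f.2 < 0) ∨ (k % 4 = 3 ∧ 0 ≤ f.1 ∧ f.2 < 0)

/-- The wedge of `m` quadrants. -/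
def Wdg (m o : ℕ) : Set (ℤ × ℤ) := {f | Qd o f ∨ (2 ≤ m ∧ Qd (o + 1) f) ∨ (3 ≤ m ∧ Qd (o + 2) f)}

theorem mem_Wdg {m o : ℕ} {f : ℤ × ℤ} :
    f ∈ Wdg m o ↔ Qd o f ∨ (2 ≤ m ∧ Qd (o + 1) f) ∨ (3 ≤ m ∧ Qd (o + 2) f) := Iff.rfl

/-- The unit edges of the half axes. -/
def Ray (k : ℕ) (a : UE) : Prop :=
  (k % 4 = 0 ∧ a.2.2 = false ∧ a.2.1 = 0 ∧ 0 ≤ a.1) ∨ (k % 4 = 1 ∧ a.2.2 = true ∧ a.1 = 0 ∧ 0 ≤ a.2.1) ∨
    (k % 4 = 2 ∧ a.2.2 = false ∧ a.2.1 = 0 ∧ a.1 < 0) ∨ (k % 4 = 3 ∧ a.2.2 = true ∧ a.1 = 0 ∧ a.2.1 < 0)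

variable {m o : ℕ} {a b : UE}

theorem mod_cases (o : ℕ) : o % 4 = 0 ∨ o % 4 = 1 ∨ o % 4 = 2 ∨ o % 4 = 3 := by omega

theorem bdF_left (hm0 : 1 ≤ m) (hm : m ≤ 3) (ha : Ray o a) : BdF (Wdg m o) a := by
  intro d h1 h2
  obtain ⟨x, y, c⟩ := a
  rw [mem_Wdg] at h1 h2
  unfold Ray at ha
  unfold Qd at h1 h2
  cases c <;> cases d <;> simp only [Tips.ahead, Bool.not_true, Bool.not_false] at ha h1 h2 <;>
    simp only [reduceCtorEq, false_and, and_false, or_false, false_or, true_and] at ha <;> omega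

theorem bdF_right (hm0 : 1 ≤ m) (hm : m ≤ 3) (ha : Ray (o + m) a) : BdF (Wdg m o) a := by
  intro d h1 h2
  obtain ⟨x, y, c⟩ := a
  rw [mem_Wdg] at h1 h2
  unfold Ray at ha
  unfold Qd at h1 h2
  have hm' : m = 1 ∨ m = 2 ∨ m = 3 := by omega
  rcases hm' with rfl | rfl | rfl <;> cases c <;> cases d <;>
    simp only [Tips.ahead, Bool.not_true, Bool.not_false] at ha h1 h2 <;>
    simp only [reduceCtorEq, false_and, and_false, or_false, false_or, true_and] at ha <;> omega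

theorem ray_disj (_hm0 : 1 ≤ m) (_hm : m ≤ 3) (ha : Ray o a) : ¬ Ray (o + m) a := by
  intro h
  unfold Ray at ha h
  obtain ⟨x, y, c⟩ := a
  cases c <;> simp only [reduceCtorEq, false_and, and_false, or_false, false_or, true_and] at ha h <;>
    omega

theorem wsep (hm0 : 1 ≤ m) (hm : m ≤ 3) (r : ℤ) :
    WSep (Wdg m o) (Ray o) (Ray (o + m)) (0, 0) r := by
  rintro ⟨x, y, c⟩ ⟨x', y', c'⟩ ha hb ⟨⟨p, q⟩, hf, hf', hs⟩ ⟨⟨p', q'⟩, hg, hg', hs'⟩
  rw [mem_BR'] at hf' hg'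
  rw [mem_Wdg] at hf hg
  unfold Qd at hf hg
  unfold Ray at ha hb
  unfold Sep
  unfold IsSide at hs hs'
  simp only [bo, le', to', ri, Prod.mk.injEq] at hs hs'
  have hm' : m = 1 ∨ m = 2 ∨ m = 3 := by omega
  rcases hm' with rfl | rfl | rfl <;> cases c <;> cases c' <;>
    simp only [reduceCtorEq, false_and, and_false, or_false, false_or, true_and, and_true,
      ua_mk, ub_false, ub_true] at ha hb hs hs' hf hg hf' hg' ⊢ <;> omega

/-! ### The chain -/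

noncomputable section

/-- The radius number `j`. -/
def rj (r j : ℕ) : ℤ := ((r / 2 ^ j : ℕ) : ℤ)

theorem rj_nonneg (r j : ℕ) : 0 ≤ rj r j := Int.natCast_nonneg _

theorem rj_succ (r j : ℕ) : rj r (j + 1) = rj r j / 2 := by
  unfold rj
  rw [pow_succ, ← Nat.div_div_eq_div_mul]
  push_cast
  rfl

theorem rj_anti (r j : ℕ) : rj r (j + 1) ≤ rj r j := by
  rw [rj_succ]
  have := rj_nonneg r j
  omega

theorem rj_zero (r : ℕ) : rj r 0 = r := by
  unfold rj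
  simp

theorem rj_eq_zero {r j : ℕ} (h : r ≤ j) : rj r j = 0 := by
  unfold rj
  have h1 : r < 2 ^ r := Nat.lt_two_pow_self
  have h2 : 2 ^ r ≤ 2 ^ j := Nat.pow_le_pow_right (by norm_num) h
  rw [Nat.div_eq_of_lt (by omega)]
  rfl

/-- The number of the strands over the origin. -/
def wN (m o r j : ℕ) (ω : Cfg) : ℕ := NA (Wdg m o) (Ray o) (Ray (o + m)) (0, 0) (rj r j) ω

/-- The increment. -/
def wM (m o r j : ℕ) (ω : Cfg) : ℕ :=
  if rj r (j + 2) = 0 then wN m o r j ω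
  else MC (Wdg m o) (Ray o) (Ray (o + m)) (0, 0) (rj r (j + 2)) (rj r (j + 1)) (rj r j) ω

open Classical in
/-- The faces of the wedge in the box. -/
def wB (m o r j : ℕ) : Finset (ℤ × ℤ) := (BR (0, 0) (rj r j)).filter fun f => f ∈ Wdg m o

theorem mem_wB {m o r j : ℕ} {f : ℤ × ℤ} :
    f ∈ wB m o r j ↔ f ∈ BR (0, 0) (rj r j) ∧ f ∈ Wdg m o := by
  classical
  unfold wB
  rw [mem_filter]

theorem coe_wB (m o r j : ℕ) :
    (wB m o r j : Set (ℤ × ℤ)) = Wdg m o ∩ (BR (0, 0) (rj r j) : Set (ℤ × ℤ)) := by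
  ext f
  rw [mem_coe, mem_wB, Set.mem_inter_iff, mem_coe, and_comm]

theorem wB_anti (m o r j : ℕ) : wB m o r (j + 1) ⊆ wB m o r j := by
  intro f hf
  rw [mem_wB] at hf ⊢
  exact ⟨(Sub.refl' (rj_anti r j)).subset hf.1, hf.2⟩

theorem wB_anti' (m o r : ℕ) {i j : ℕ} (h : i ≤ j) : wB m o r j ⊆ wB m o r i := by
  induction h with
  | refl => exact Finset.Subset.refl _
  | step _ ih => exact (wB_anti m o r _).trans ih

theorem dep_wN (m o r j : ℕ) : Dep (wB m o r j : Set (ℤ × ℤ)) (wN m o r j) := by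
  rw [coe_wB]
  exact depN_NA _ _ _ _ _

theorem wN_anti (m o r j : ℕ) (ω : Cfg) : wN m o r (j + 1) ω ≤ wN m o r j ω :=
  NA_mono (rj_anti r j) ω

theorem BR_zero : BR (0, 0) 0 = ∅ := by
  ext f
  rw [mem_BR]
  simp only [notMem_empty, iff_false]
  omega

theorem wN_of_zero {m o r j : ℕ} (hm0 : 1 ≤ m) (hm : m ≤ 3) (h : rj r j = 0) (ω : Cfg) :
    wN m o r j ω = 0 := by
  classical
  unfold wN NA NS
  rw [card_eq_zero, filter_eq_empty_iff]
  rintro a - ⟨h1, b, h2, h3⟩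
  have hne : a ≠ b := by
    rintro rfl
    exact ray_disj hm0 hm h1 h3
  obtain ⟨f, hf, -⟩ := side_of_ne h2 hne.symm
  have := hf.2
  rw [h, BR_zero] at this
  simp at this

theorem wN_zero {m o r j : ℕ} (hm0 : 1 ≤ m) (hm : m ≤ 3) (h : r ≤ j) (ω : Cfg) :
    wN m o r j ω = 0 := wN_of_zero hm0 hm (rj_eq_zero h) ω

theorem wN_le {m o : ℕ} (hm0 : 1 ≤ m) (hm : m ≤ 3) (r j : ℕ) (ω : Cfg) :
    wN m o r j ω ≤ wN m o r (j + 1) ω + wM m o r j ω := by
  unfold wM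
  split_ifs with h
  · omega
  · have h1 := rj_succ r j
    have h2 := rj_succ r (j + 1)
    have h3 := rj_nonneg r (j + 2)
    have h4 : rj r (j + 2) = rj r (j + 1) / 2 := h2
    exact NA_le (fun a ha => bdF_left hm0 hm ha) (fun a ha => bdF_right hm0 hm ha)
      (fun a ha => ray_disj hm0 hm ha) h3 (by omega) (by omega) ω

theorem dep_wM (m o r j : ℕ) :
    Dep ((wB m o r j : Set (ℤ × ℤ)) \ (wB m o r (j + 2) : Set (ℤ × ℤ))) (wM m o r j) := by
  unfold wM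
  by_cases h : rj r (j + 2) = 0
  · simp only [h, if_true]
    have e : (wB m o r (j + 2) : Set (ℤ × ℤ)) = ∅ := by
      rw [coe_wB, h, BR_zero]
      simp
    rw [e, Set.sdiff_empty]
    exact dep_wN m o r j
  · simp only [h, if_false]
    have h0 := depN_MC (v := (0, 0)) (r₂ := rj r (j + 2)) (rj_anti r j) (Wdg m o) (Ray o) (Ray (o + m))
    refine h0.mono ?_
    rintro f ⟨hf, hf'⟩
    rw [mem_coe, mem_An] at hf'
    rw [coe_wB, coe_wB]
    exact ⟨⟨hf, mem_coe.2 hf'.1⟩, fun h => hf'.2 (mem_coe.1 h.2)⟩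

theorem wN_le_card (m o r j : ℕ) (ω : Cfg) (h : rj r j ≤ 3) : wN m o r j ω ≤ 98 := by
  refine (NS_le_UB (v := (0, 0)) (r := rj r j) ω).trans ?_
  obtain ⟨k, hk⟩ : ∃ k : ℕ, rj r j = k := ⟨(rj r j).toNat, by
    have := rj_nonneg r j
    omega⟩
  rw [hk, card_UB]
  have : k ≤ 3 := by omega
  have h1 : (2 * k + 1) ^ 2 ≤ 7 ^ 2 := Nat.pow_le_pow_left (by omega) 2
  omega

theorem av_eq (W : Finset (ℤ × ℤ)) (g : Cfg → ℝ) :
    av W g = (∑ T ∈ W.powerset, g (cfg T)) / 2 ^ W.card := rfl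

/-- **Moments.** -/
theorem wM_moment : ∃ cM : ℝ → ℝ, ∀ lam : ℝ, 1 ≤ lam → ∀ m o r j : ℕ, 1 ≤ m → m ≤ 3 →
    ∀ W : Finset (ℤ × ℤ), wB m o r j ⊆ W → av W (fun ω => lam ^ wM m o r j ω) ≤ cM lam := by
  classical
  have H : ∀ lam : ℝ, ∃ C : ℝ, 1 ≤ lam → ∀ m o r j : ℕ, 1 ≤ m → m ≤ 3 →
      ∀ W : Finset (ℤ × ℤ), wB m o r j ⊆ W → av W (fun ω => lam ^ wM m o r j ω) ≤ C := by
    intro lam
    by_cases hlam : 1 ≤ lam
    · obtain ⟨C, hC, h⟩ := MC_moment 7 hlam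
      refine ⟨max C (lam ^ 98), fun _ m o r j hm0 hm W hW => ?_⟩
      have hd : Dep (wB m o r j : Set (ℤ × ℤ)) (fun ω => lam ^ wM m o r j ω) := by
        have h1 := (dep_wM m o r j).mono (Set.sdiff_subset : _ ⊆ (wB m o r j : Set (ℤ × ℤ)))
        intro ω ω' hω
        simp only [h1 ω ω' hω]
      rw [av_dep hd hW]
      by_cases h0 : rj r (j + 2) = 0
      · refine le_trans (av_mono (g' := fun _ => lam ^ 98) fun T _ => ?_)
          ((av_const _).le.trans (le_max_right _ _))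
        refine pow_le_pow_right₀ hlam ?_
        unfold wM
        rw [if_pos h0]
        refine wN_le_card m o r j _ ?_
        have h1 := rj_succ r j
        have h2 : rj r (j + 2) = rj r (j + 1) / 2 := rj_succ r (j + 1)
        have h3 := rj_nonneg r j
        omega
      · refine le_trans ?_ (le_max_left _ _)
        have hW' : wB m o r j ⊆ BR (0, 0) (rj r j) := fun f hf => (mem_wB.1 hf).1
        rw [← av_dep hd hW', av_eq]
        have h1 := rj_succ r j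
        have h2 : rj r (j + 2) = rj r (j + 1) / 2 := rj_succ r (j + 1)
        have h3 := rj_nonneg r j
        have h4 := rj_nonneg r (j + 2)
        have := h (Wdg m o) (Ray o) (Ray (o + m)) (0, 0) (rj r (j + 2)) (rj r (j + 1)) (rj r j)
          (BR (0, 0) (rj r j)) (fun a ha => bdF_left hm0 hm ha) (fun a ha => bdF_right hm0 hm ha)
          (fun a ha => ray_disj hm0 hm ha) (by omega) (by omega) (by omega) (by push_cast; omega)
          (by push_cast; omega) (wsep hm0 hm _) (Finset.Subset.refl _)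
        refine le_trans (le_of_eq ?_) this
        congr 1
        refine Finset.sum_congr rfl fun T _ => ?_
        unfold wM
        rw [if_neg h0]
    · exact ⟨0, fun h => absurd h hlam⟩
  choose cM hcM using H
  exact ⟨cM, fun lam hlam => hcM lam hlam⟩

/-- The local factor of a wedge. -/
def Fw (m o : ℕ) (t : ℝ) (r : ℕ) : ℝ := av (wB m o r 0) (fun ω => t ^ wN m o r 0 ω)

theorem Fw_eq (m o : ℕ) (t : ℝ) (r j : ℕ) {W : Finset (ℤ × ℤ)} (hW : wB m o r j ⊆ W) :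
    av W (fun ω => t ^ wN m o r j ω) = Fw m o t (r / 2 ^ j) := by
  have hr : rj (r / 2 ^ j) 0 = rj r j := by
    unfold rj
    simp
  have h1 : wB m o (r / 2 ^ j) 0 = wB m o r j := by
    ext f
    rw [mem_wB, mem_wB, hr]
  have h2 : wN m o (r / 2 ^ j) 0 = wN m o r j := by
    funext ω
    unfold wN
    rw [hr]
  unfold Fw
  rw [h1, h2]
  refine av_dep (fun ω ω' hω => ?_) hW
  simp only [dep_wN m o r j ω ω' hω]

/-! ### Rotations -/

/-- Symmetries do not decrease the number of the strands. -/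
theorem NS_act (σ : HSym) {S S' : Set (ℤ × ℤ)} {PA PB PA' PB' : UE → Prop} {r : ℤ}
    (hAB : ∀ a, PA a → ¬ PB a) (hS : S ⊆ (BR (0, 0) r : Set (ℤ × ℤ)))
    (hA : ∀ a, PA a → PA' (σ.s a)) (hB : ∀ a, PB a → PB' (σ.s a)) (hS' : σ.f '' S ⊆ S')
    (hin : ∀ a, InE (0, 0) r a → InE (0, 0) r (σ.s a)) (ω : Cfg) :
    NS S PA PB (0, 0) r ω ≤ NS S' PA' PB' (0, 0) r (σ.act ω) := by
  classical
  unfold NS
  refine card_le_card_of_injOn σ.s (fun a ha => ?_) (σ.s.injective.injOn)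
  rw [mem_coe, mem_filter] at ha ⊢
  obtain ⟨-, h1, b, h2, h3⟩ := ha
  have hne : a ≠ b := by
    rintro rfl
    exact hAB _ h1 h3
  obtain ⟨f, hf, hs⟩ := side_of_ne (MM_symm h2) hne
  exact ⟨(hin a (inE_of_side (hS hf) hs)).mem_UB, hA a h1, σ.s b,
    MM_mono hS' (σ.mem_MM_act h2), hB b h3⟩

/-- Rotation by a quarter turn. -/
def rotH : HSym := (hsymX 0).comp hsymT

/-- The inverse rotation. -/
def rotI : HSym := hsymT.comp (hsymX 0)

theorem rotH_f (f : ℤ × ℤ) : rotH.f f = (-f.2 - 1, f.1) := by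
  simp [rotH, HSym.comp, hsymX, hsymT]

theorem rotI_f (f : ℤ × ℤ) : rotI.f f = (f.2, -f.1 - 1) := by
  simp [rotI, HSym.comp, hsymX, hsymT]

theorem rotH_s (a : UE) : rotH.s a = (if a.2.2 then -a.2.1 - 1 else -a.2.1, a.1, !a.2.2) := by
  obtain ⟨x, y, c⟩ := a
  cases c <;> simp [rotH, HSym.comp, hsymX, hsymT]

theorem rotI_s (a : UE) : rotI.s a = (a.2.1, if a.2.2 then -a.1 else -a.1 - 1, !a.2.2) := by
  obtain ⟨x, y, c⟩ := a
  cases c <;> simp [rotI, HSym.comp, hsymX, hsymT]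

theorem rotI_act (ω : Cfg) : rotI.act (rotH.act ω) = ω := by
  have e1 : rotH.act ω = (hsymX 0).act (hsymT.act ω) := HSym.act_comp _ _ _
  have e2 : ∀ η, rotI.act η = hsymT.act ((hsymX 0).act η) := fun η => HSym.act_comp _ _ _
  rw [e1, e2]
  have e3 := (symX 0).inv_act (hsymT.act ω)
  have e4 := symT.inv_act ω
  have e5 : (hsymX 0).act ((hsymX 0).act (hsymT.act ω)) = hsymT.act ω := e3
  rw [e5]
  exact e4

theorem rotH_Qd {k : ℕ} {f : ℤ × ℤ} : Qd (k + 1) (rotH.f f) ↔ Qd k f := by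
  rw [rotH_f]
  unfold Qd
  simp only
  omega

theorem rotI_Qd {k : ℕ} {f : ℤ × ℤ} : Qd k (rotI.f f) ↔ Qd (k + 1) f := by
  rw [rotI_f]
  unfold Qd
  simp only
  omega

theorem rotH_wedge {m o : ℕ} {f : ℤ × ℤ} : rotH.f f ∈ Wdg m (o + 1) ↔ f ∈ Wdg m o := by
  rw [mem_Wdg, mem_Wdg, rotH_Qd, show o + 1 + 1 = (o + 1) + 1 from rfl, rotH_Qd,
    show o + 1 + 2 = (o + 2) + 1 by ring, rotH_Qd]

theorem rotI_wedge {m o : ℕ} {f : ℤ × ℤ} (hf : f ∈ Wdg m (o + 1)) : rotI.f f ∈ Wdg m o := by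
  rw [mem_Wdg] at hf
  rw [mem_Wdg, rotI_Qd, rotI_Qd, rotI_Qd, show o + 2 + 1 = o + 1 + 2 by ring]
  exact hf

theorem rotH_ray {o : ℕ} {a : UE} (ha : Ray o a) : Ray (o + 1) (rotH.s a) := by
  rw [rotH_s]
  obtain ⟨x, y, c⟩ := a
  unfold Ray at *
  cases c <;> simp at ha ⊢ <;> omega

theorem rotI_ray {o : ℕ} {a : UE} (ha : Ray (o + 1) a) : Ray o (rotI.s a) := by
  rw [rotI_s]
  obtain ⟨x, y, c⟩ := a
  unfold Ray at *
  cases c <;> simp at ha ⊢ <;> omega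

theorem rotH_in {a : UE} {r : ℤ} (ha : InE (0, 0) r a) : InE (0, 0) r (rotH.s a) := by
  rw [rotH_s]
  obtain ⟨x, y, c⟩ := a
  unfold InE InR at *
  cases c <;> simp [ua, ub] at ha ⊢ <;> omega

theorem rotI_in {a : UE} {r : ℤ} (ha : InE (0, 0) r a) : InE (0, 0) r (rotI.s a) := by
  rw [rotI_s]
  obtain ⟨x, y, c⟩ := a
  unfold InE InR at *
  cases c <;> simp [ua, ub] at ha ⊢ <;> omega

theorem rotH_box {r : ℤ} {f : ℤ × ℤ} (hf : f ∈ BR (0, 0) r) : rotH.f f ∈ BR (0, 0) r := by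
  rw [mem_BR] at hf
  rw [rotH_f, mem_BR]
  simp only at *
  omega

theorem rotI_box {r : ℤ} {f : ℤ × ℤ} (hf : f ∈ BR (0, 0) r) : rotI.f f ∈ BR (0, 0) r := by
  rw [mem_BR] at hf
  rw [rotI_f, mem_BR]
  simp only at *
  omega

theorem wN_rot {m o : ℕ} (hm0 : 1 ≤ m) (hm : m ≤ 3) (r j : ℕ) (ω : Cfg) :
    wN m (o + 1) r j (rotH.act ω) = wN m o r j ω := by
  refine le_antisymm ?_ ?_
  · have := NS_act rotI (S := Wdg m (o + 1) ∩ (BR (0, 0) (rj r j) : Set (ℤ × ℤ)))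
      (S' := Wdg m o ∩ (BR (0, 0) (rj r j) : Set (ℤ × ℤ))) (PA := Ray (o + 1)) (PB := Ray (o + 1 + m))
      (PA' := Ray o) (PB' := Ray (o + m)) (r := rj r j) (fun a ha => ray_disj hm0 hm ha)
      Set.inter_subset_right (fun a ha => rotI_ray ha)
      (fun a ha => rotI_ray (by rw [show o + m + 1 = o + 1 + m by ring]; exact ha))
      (by
        rintro _ ⟨f, ⟨hf, hf'⟩, rfl⟩
        exact ⟨rotI_wedge hf, mem_coe.2 (rotI_box (mem_coe.1 hf'))⟩)
      (fun a ha => rotI_in ha) (rotH.act ω)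
    rw [rotI_act] at this
    exact this
  · exact NS_act rotH (S := Wdg m o ∩ (BR (0, 0) (rj r j) : Set (ℤ × ℤ)))
      (S' := Wdg m (o + 1) ∩ (BR (0, 0) (rj r j) : Set (ℤ × ℤ))) (PA := Ray o) (PB := Ray (o + m))
      (PA' := Ray (o + 1)) (PB' := Ray (o + 1 + m)) (r := rj r j) (fun a ha => ray_disj hm0 hm ha)
      Set.inter_subset_right (fun a ha => rotH_ray ha)
      (fun a ha => by rw [show o + 1 + m = o + m + 1 by ring]; exact rotH_ray ha)
      (by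
        rintro _ ⟨f, ⟨hf, hf'⟩, rfl⟩
        exact ⟨rotH_wedge.2 hf, mem_coe.2 (rotH_box (mem_coe.1 hf'))⟩)
      (fun a ha => rotH_in ha) ω

theorem wB_rot (m o r j : ℕ) : (wB m o r j).image rotH.f = wB m (o + 1) r j := by
  ext f
  rw [mem_image, mem_wB]
  constructor
  · rintro ⟨g, hg, rfl⟩
    rw [mem_wB] at hg
    exact ⟨rotH_box hg.1, rotH_wedge.2 hg.2⟩
  · rintro ⟨h1, h2⟩
    refine ⟨rotI.f f, mem_wB.2 ⟨rotI_box h1, rotI_wedge h2⟩, ?_⟩
    rw [rotI_f, rotH_f]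
    ext
    · simp only; omega
    · simp only

/-- Flips of the faces of `D` preserve the average. -/
theorem av_flip {Φ : Type} [DecidableEq Φ] {S : Finset Φ} {g : (Φ → Bool) → ℝ} (D : Φ → Bool)
    (hg : Dep (S : Set Φ) g) : av S (fun ω => g fun f => xor (D f) (ω f)) = av S g := by
  unfold av
  congr 1
  have key : ∀ T ⊆ S, (S.filter fun f => xor (D f)
      (decide (f ∈ S.filter fun f => xor (D f) (decide (f ∈ T)) = true)) = true) = T := by
    intro T hT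
    ext f
    simp only [mem_filter]
    by_cases hf : f ∈ S
    · by_cases hfT : f ∈ T <;> cases h : D f <;> simp [hf, hfT]
    · have : f ∉ T := fun h => hf (hT h)
      simp [hf, this]
  refine Finset.sum_nbij' (fun T => S.filter fun f => xor (D f) (decide (f ∈ T)) = true)
    (fun T => S.filter fun f => xor (D f) (decide (f ∈ T)) = true)
    (fun T _ => mem_powerset.2 (filter_subset _ _)) (fun T _ => mem_powerset.2 (filter_subset _ _))
    (fun T hT => key T (mem_powerset.1 hT)) (fun T hT => key T (mem_powerset.1 hT)) ?_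
  intro T _
  refine hg _ _ fun f hf => ?_
  unfold ind
  have hf' : f ∈ S := mem_coe.1 hf
  simp only [mem_filter]
  cases h : D f <;> by_cases hfT : f ∈ T <;> simp [hf', hfT]

/-- The local factor does not depend on the orientation. -/
theorem Fw_rot {m o : ℕ} (hm0 : 1 ≤ m) (hm : m ≤ 3) (t : ℝ) (r : ℕ) :
    Fw m (o + 1) t r = Fw m o t r := by
  classical
  unfold Fw
  have h1 : av (wB m (o + 1) r 0) (fun ω => t ^ wN m (o + 1) r 0 fun f => xor true (ω f)) =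
      av (wB m o r 0) fun ω => t ^ wN m o r 0 ω := by
    refine av_map (φ := rotH.f) rotH.f.injective.injOn (wB_rot m o r 0) (fun ω ω' hω => ?_)
      fun ω => ?_
    · simp only [dep_wN m o r 0 ω ω' hω]
    · have h2 := wN_rot (o := o) hm0 hm r 0 fun f => ω (rotH.f f)
      have h3 : rotH.act (fun f => ω (rotH.f f)) = fun f => xor true (ω f) := by
        funext g
        show xor rotH.b (ω (rotH.f (rotH.f.symm g))) = _
        rw [Equiv.apply_symm_apply]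
        rfl
      rw [h3] at h2
      rw [h2]
  rw [← h1]
  refine (av_flip (fun _ => true) (g := fun ω => t ^ wN m (o + 1) r 0 ω) fun ω ω' hω => ?_).symm
  simp only [dep_wN m (o + 1) r 0 ω ω' hω]

theorem Fw_orient {m : ℕ} (hm0 : 1 ≤ m) (hm : m ≤ 3) (o : ℕ) (t : ℝ) (r : ℕ) :
    Fw m o t r = Fw m 0 t r := by
  induction o with
  | zero => rfl
  | succ o ih => rw [Fw_rot hm0 hm, ih]

end

end Pool.Agent.SixB.Wd
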