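import Pool.Agent.Lib.SixB.S3PlaneC
import Pool.Agent.Lib.SixB.S3Wedge
import Pool.Agent.Lib.SixB.S3Loc
import Pool.Agent.Lib.SixB.S4Plane

/-!
# 6BD step 3: planar box charts of a complex of quadrangles

`PChart Q F p R L ν φ`: the faces `L` (a planar set in the box `BR p R`) are mapped by `φ` (vertices by `ν`) to
faces of `F ⊆ Q`, labels kept, and the map is full strictly inside the box: a boundary side of `L` which is not on
the boundary of the box becomes a boundary side of `F`.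
* `PC.mate_map`, `PC.turn_map`: mates and turnings in the chart;
* `PChart.card_esc_le` (c1): the sides of `H` (inside `BR p ρ`) whose strand leaves the chart are at most
  `NF L p ρ R`;
* `PC.card_ovr` (c2): the strands from wall `PA` to wall `PB` are counted by `NS` of `S3Count`;
  `PC.card_ovr_wN`: for the wedge boxes `wB m o r j` of `S3Wedge` the number is `wN m o r j`;
* `hsd`: the sides of the half chart, `PChart.hsd_F`, `PChart.hsd_G`, `PChart.sub`: fields of `Charts`.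
-/

set_option autoImplicit false
set_option linter.unusedSectionVars false

namespace Pool.Agent.SixB.PC

open Pool.Agent.Perc Pool.Agent.PercD Pool.Agent.PercN Pool.Agent.Perc.Q Relation
open Pool.Agent.SixB Pool.Agent.SixB.Tilt
open Pool.Agent.SixB.Rel (QChart QMap)

noncomputable section

variable {V Φ : Type} [DecidableEq V] [DecidableEq Φ]
variable {Q : QC V Φ} {F : Finset Φ} {p : ℤ × ℤ} {R ρ : ℤ} {L L' : Finset (ℤ × ℤ)}
  {ν : ℤ × ℤ → V} {φ : ℤ × ℤ → Φ} {ω : Φ → Bool} {a b : (ℤ × ℤ) × (ℤ × ℤ)}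

/-- the configuration in the chart -/
def pb (φ : ℤ × ℤ → Φ) (ω : Φ → Bool) : ℤ × ℤ → Bool := fun f => ω (φ f)

/-- the directed unit edge in the complex -/
def mv (ν : ℤ × ℤ → V) (a : (ℤ × ℤ) × (ℤ × ℤ)) : V × V := Prod.map ν ν a

@[simp] theorem mv_swap (a : (ℤ × ℤ) × (ℤ × ℤ)) : mv ν a.swap = (mv ν a).swap := rfl

theorem toMap (H : QChart ZQ Q L ν φ 0) (ω : Φ → Bool) : QMap ZQ Q L (pb φ ω) ω ν φ 0 := by
  have h := H.toMap ω
  have e : QChart.pull φ 0 ω = pb φ ω := by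
    funext f
    unfold QChart.pull pb
    have : ev (0 : ZMod 4) = true := by decide
    rw [this]
    simp
  rwa [e] at h

theorem ini_map (H : QChart ZQ Q L ν φ 0) (ha : a ∈ dE ZQ L) :
    Ini Q ((L.image φ : Finset Φ) : Set Φ) (mv ν a) ↔ Ini ZQ (L : Set (ℤ × ℤ)) a := by
  have H' := toMap H (fun _ => false)
  constructor
  · intro h f hf k he
    have hf' : f ∈ L := by exact_mod_cast hf
    refine h (φ f) (by exact_mod_cast Finset.mem_image_of_mem φ hf') (k + 0) ?_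
    have h1 := H'.sd_eq hf' k
    have h2 : a = (sd ZQ f k).swap := he
    rw [h2]
    change (Prod.map ν ν (sd ZQ f k)).swap = (sd Q (φ f) (k + 0)).swap
    rw [h1]
  · intro h f' hf' k he
    obtain ⟨f, hf, rfl⟩ := Finset.mem_image.mp (show f' ∈ L.image φ by exact_mod_cast hf')
    have h1 := H'.sd_eq hf k
    rw [add_zero] at h1
    have h2 : mv ν a = (sd Q (φ f) k).swap := he
    rw [h1] at h2
    have h3 : Prod.map ν ν a = Prod.map ν ν (sd ZQ f k).swap := h2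
    have h4 := H'.inj_dE ha (swap_mem_dE.mpr (sd_mem hf k)) h3
    exact h f (by exact_mod_cast hf) k h4

theorem ter_map (H : QChart ZQ Q L ν φ 0) (ha : a ∈ dE ZQ L) :
    Ter Q ((L.image φ : Finset Φ) : Set Φ) (mv ν a) ↔ Ter ZQ (L : Set (ℤ × ℤ)) a := by
  rw [← ini_swap, ← ini_swap, ← mv_swap]
  exact ini_map H (swap_mem_dE.mpr ha)

theorem dE_map (H : QChart ZQ Q L ν φ 0) : dE Q (L.image φ) = (dE ZQ L).image (mv ν) :=
  (toMap H (fun _ => false)).dE_map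

theorem bS_map (H : QChart ZQ Q L ν φ 0) : bS Q (L.image φ) = (bS ZQ L).image (mv ν) := by
  ext x
  rw [mem_bS, dE_map H, Finset.mem_image, Finset.mem_image]
  constructor
  · rintro ⟨⟨a, ha, rfl⟩, h2⟩
    exact ⟨a, mem_bS.mpr ⟨ha, (ini_map H ha).mp h2⟩, rfl⟩
  · rintro ⟨a, ha, rfl⟩
    obtain ⟨h1, h2⟩ := mem_bS.mp ha
    exact ⟨⟨a, h1, rfl⟩, (ini_map H h1).mpr h2⟩

theorem mv_inj (H : QChart ZQ Q L ν φ 0) (ha : a ∈ dE ZQ L) (hb : b ∈ dE ZQ L)
    (h : mv ν a = mv ν b) : a = b := H.inj_dE ha hb h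

/-- **Mates in a chart.** -/
theorem mate_map (H : QChart ZQ Q L ν φ 0) (ha : a ∈ bS ZQ L) :
    mate Q (L.image φ) ω (mv ν a) = mv ν (mate ZQ L (pb φ ω) a) := by
  have H' := toMap H ω
  obtain ⟨h1, h2⟩ := mem_bS.mp ha
  have h3 := srel_lst (ω := pb φ ω) h2
  have h4 : lst ZQ L (pb φ ω) a ∈ dE ZQ L := srel_dE h3 h1
  have h5 : Ter Q ((L.image φ : Finset Φ) : Set Φ) (mv ν (lst ZQ L (pb φ ω) a)) :=
    (ter_map H h4).mpr (lst_spec h2).2
  exact mate_unique ((ini_map H h1).mpr h2) h5 (H'.srel h3)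

/-- **Turnings in a chart.** -/
theorem turn_map (H : QChart ZQ Q L ν φ 0) (ha : a ∈ dE ZQ L) :
    turn Q (L.image φ) ω (mv ν a) = turn ZQ L (pb φ ω) a := by
  have H' := toMap H ω
  unfold turn tX mv
  rw [H'.dst_map ha, Finset.sum_image]
  · exact Finset.sum_congr rfl fun b hb => H'.qt_map (mem_dst.mp hb).1
  · intro x hx y hy hxy
    exact H'.inj_dE (mem_dst.mp hx).1 (mem_dst.mp hy).1 hxy

/-! ## Undirected form -/

theorem side_ahead (a : UE) (d : Bool) : IsSide (Tips.ahead (a, d)) a := by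
  obtain ⟨x, y, b⟩ := a
  cases b <;> cases d <;> simp [Tips.ahead, IsSide, bo, le', to', ri]

theorem ahead_of_side {f : ℤ × ℤ} {a : UE} (h : IsSide f a) :
    f = Tips.ahead (a, true) ∨ f = Tips.ahead (a, false) := by
  obtain ⟨x, y⟩ := f
  rcases h with rfl | rfl | rfl | rfl <;> simp [Tips.ahead, bo, le', to', ri]

theorem ahead_ne (a : UE) : Tips.ahead (a, true) ≠ Tips.ahead (a, false) := by
  obtain ⟨x, y, b⟩ := a
  cases b <;> simp only [Tips.ahead, ne_eq, Prod.mk.injEq, not_and] <;> intros <;> omega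

theorem sd_ne_swap (f : ℤ × ℤ) (k l : ZMod 4) : sd ZQ f k ≠ (sd ZQ f l).swap := by
  obtain ⟨x, y⟩ := f
  rcases k4 k with rfl | rfl | rfl | rfl <;> rcases k4 l with rfl | rfl | rfl | rfl
  · change ((x, y), (x + 1, y)) ≠ ((x + 1, y), (x, y)); simp
  · change ((x, y), (x + 1, y)) ≠ ((x + 1, y + 1), (x + 1, y)); simp
  · change ((x, y), (x + 1, y)) ≠ ((x, y + 1), (x + 1, y + 1)); simp
  · change ((x, y), (x + 1, y)) ≠ ((x, y), (x, y + 1)); simp
  · change ((x + 1, y), (x + 1, y + 1)) ≠ ((x + 1, y), (x, y)); simp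
  · change ((x + 1, y), (x + 1, y + 1)) ≠ ((x + 1, y + 1), (x + 1, y)); simp
  · change ((x + 1, y), (x + 1, y + 1)) ≠ ((x, y + 1), (x + 1, y + 1)); simp
  · change ((x + 1, y), (x + 1, y + 1)) ≠ ((x, y), (x, y + 1)); simp
  · change ((x + 1, y + 1), (x, y + 1)) ≠ ((x + 1, y), (x, y)); simp
  · change ((x + 1, y + 1), (x, y + 1)) ≠ ((x + 1, y + 1), (x + 1, y)); simp
  · change ((x + 1, y + 1), (x, y + 1)) ≠ ((x, y + 1), (x + 1, y + 1)); simp
  · change ((x + 1, y + 1), (x, y + 1)) ≠ ((x, y), (x, y + 1)); simp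
  · change ((x, y + 1), (x, y)) ≠ ((x + 1, y), (x, y)); simp
  · change ((x, y + 1), (x, y)) ≠ ((x + 1, y + 1), (x + 1, y)); simp
  · change ((x, y + 1), (x, y)) ≠ ((x, y + 1), (x + 1, y + 1)); simp
  · change ((x, y + 1), (x, y)) ≠ ((x, y), (x, y + 1)); simp

theorem bdF_of_bS (hx : a ∈ bS ZQ L) : BdF (L : Set (ℤ × ℤ)) (und a) := by
  obtain ⟨f, hf, k, rfl⟩ := bS_sd hx
  intro d h1 h2
  have key : ∀ g ∈ L, IsSide g (und (sd ZQ f k)) → g = f := by
    intro g hg hs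
    obtain ⟨l, hl⟩ := isSide_iff.mp hs
    have h3 : und (sd ZQ f k) = und (sd ZQ g l) := by rw [hl, und_sd]
    rcases und_inj (sd_mem hf k) (sd_mem hg l) h3 with h4 | h4
    · exact (sd_inj h4).1.symm
    · exact absurd h4 ((mem_bS.mp hx).2 g (by exact_mod_cast hg) l)
  have e1 := key _ (by exact_mod_cast h1) (side_ahead _ d)
  have e2 := key _ (by exact_mod_cast h2) (side_ahead _ (!d))
  have e3 := ahead_ne (und (sd ZQ f k))
  cases d
  · exact e3 (e2.trans e1.symm)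
  · exact e3 (e1.trans e2.symm)

theorem bS_of_bdF {f : ℤ × ℤ} (hf : f ∈ L) (k : ZMod 4) {L₀ : Set (ℤ × ℤ)} (hL : (L : Set (ℤ × ℤ)) ⊆ L₀)
    (h : BdF L₀ (su f k)) : sd ZQ f k ∈ bS ZQ L := by
  refine mem_bS.mpr ⟨sd_mem hf k, ?_⟩
  intro g hg l he
  have he' : sd ZQ f k = (sd ZQ g l).swap := he
  have h1 : su f k = su g l := by
    rw [← und_sd f k, he', und_sd_swap]
  have hfg : f ≠ g := by
    rintro rfl
    exact sd_ne_swap f k l he'
  have hf1 := ahead_of_side (su_isSide f k)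
  have hg1 := ahead_of_side (su_isSide g l)
  rw [← h1] at hg1
  have hf2 : f ∈ L₀ := hL (by exact_mod_cast hf)
  have hg2 : g ∈ L₀ := hL hg
  rcases hf1 with e1 | e1 <;> rcases hg1 with e2 | e2
  · exact hfg (e1.trans e2.symm)
  · exact h true (e1 ▸ hf2) (by rw [Bool.not_true]; exact e2 ▸ hg2)
  · exact h false (e1 ▸ hf2) (by rw [Bool.not_false]; exact e2 ▸ hg2)
  · exact hfg (e1.trans e2.symm)

/-- the inward boundary side over a unit edge -/
theorem exists_bS {c : UE} {f : ℤ × ℤ} (hf : f ∈ L) (hs : IsSide f c) {L₀ : Set (ℤ × ℤ)}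
    (hL : (L : Set (ℤ × ℤ)) ⊆ L₀) (h : BdF L₀ c) : ∃ x ∈ bS ZQ L, und x = c := by
  obtain ⟨k, rfl⟩ := isSide_iff.mp hs
  exact ⟨sd ZQ f k, bS_of_bdF hf k hL h, und_sd f k⟩

/-- the mate of a boundary side, undirected -/
theorem mate_MM (ha : a ∈ bS ZQ L) (ω : Cfg) :
    und (mate ZQ L ω a) ∈ MM ω (L : Set (ℤ × ℤ)) (und a) := by
  have h := MM_of_srel (srel_lst (ω := ω) (mem_bS.mp ha).2)
  have h2 : und (mate ZQ L ω a) = und (lst ZQ L ω a) := by
    unfold mate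
    exact und_swap (srel_dE (srel_lst (mem_bS.mp ha).2) (mem_bS.mp ha).1)
  rw [h2]
  exact h

theorem MM_cases (ha : a ∈ bS ZQ L) (hb : b ∈ bS ZQ L) {ω : Cfg}
    (h : und b ∈ MM ω (L : Set (ℤ × ℤ)) (und a)) : b = a ∨ b = mate ZQ L ω a := by
  rcases (MM_iff (mem_bS.mp ha).1 (mem_bS.mp hb).1).mp h with h1 | h1
  · exact Or.inl (ini_unique (mem_bS.mp ha).2 (mem_bS.mp hb).2 h1).symm
  · right
    have h2 := mate_unique (ω := ω) (mem_bS.mp ha).2 (ter_swap.mpr (mem_bS.mp hb).2) h1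
    rw [h2, Prod.swap_swap]

/-- a boundary side is determined by its unit edge -/
theorem und_bS_inj (ha : a ∈ bS ZQ L) (hb : b ∈ bS ZQ L) (h : und a = und b) : a = b := by
  rcases und_inj (mem_bS.mp ha).1 (mem_bS.mp hb).1 h with h1 | h1
  · exact h1
  · exfalso
    have h2 := (mem_bS.mp ha).2
    rw [h1] at h2
    exact not_ini_ter (mem_bS.mp hb).1 (mem_bS.mp hb).2 (ini_swap.mp h2)

/-! ## (c2) strands from wall to wall -/

/-- **Strands from wall to wall.** `L ⊆ L₀`, `P₀`, `P₀'` the boundary sides of `L₀` on the walls. -/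
theorem card_ovr {L₀ : Finset (ℤ × ℤ)} (H : QChart ZQ Q L₀ ν φ 0) (hL : L ⊆ L₀) {PA PB : UE → Prop}
    (hA : ∀ c, PA c → BdF (L₀ : Set (ℤ × ℤ)) c) (hB : ∀ c, PB c → BdF (L₀ : Set (ℤ × ℤ)) c)
    (hAB : ∀ c, PA c → ¬ PB c) (hLR : L ⊆ BR p R) {P P' : Finset (V × V)}
    (hP : ∀ y, y ∈ P ↔ ∃ x ∈ bS ZQ L₀, PA (und x) ∧ mv ν x = y)
    (hP' : ∀ y, y ∈ P' ↔ ∃ x ∈ bS ZQ L₀, PB (und x) ∧ mv ν x = y) (ω : Φ → Bool) :
    (ovr Q (L.image φ) P P' ω).card = NS (L : Set (ℤ × ℤ)) PA PB p R (pb φ ω) := by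
  classical
  have HL := H.mono hL
  have hdL : ∀ x ∈ bS ZQ L, x ∈ dE ZQ L₀ := fun x hx => Rel.dE_mono hL (mem_bS.mp hx).1
  have up : ∀ x ∈ bS ZQ L, (PA (und x) ∨ PB (und x)) → x ∈ bS ZQ L₀ := by
    intro x hx h
    obtain ⟨f, hf, k, rfl⟩ := bS_sd hx
    rw [und_sd] at h
    exact bS_of_bdF (hL hf) k (Set.Subset.refl _) (h.elim (hA _) (hB _))
  unfold NS
  have himg : (UB p R).filter (fun c => PA c ∧ ∃ b ∈ MM (pb φ ω) (L : Set (ℤ × ℤ)) c, PB b) =
      ((bS ZQ L).filter fun x => PA (und x) ∧ PB (und (mate ZQ L (pb φ ω) x))).image und := by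
    ext c
    rw [Finset.mem_filter, Finset.mem_image]
    constructor
    · rintro ⟨-, h1, b, h2, h3⟩
      have hne : c ≠ b := by
        rintro rfl
        exact hAB _ h1 h3
      obtain ⟨f, hf, hs⟩ := side_of_ne (MM_symm h2) hne
      obtain ⟨g, hg, hs'⟩ := side_of_ne h2 hne.symm
      obtain ⟨x, hx, rfl⟩ := exists_bS (L := L) (by exact_mod_cast hf) hs
        (L₀ := (L₀ : Set (ℤ × ℤ))) (by exact_mod_cast hL) (hA _ h1)
      obtain ⟨y, hy, rfl⟩ := exists_bS (L := L) (by exact_mod_cast hg) hs'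
        (L₀ := (L₀ : Set (ℤ × ℤ))) (by exact_mod_cast hL) (hB _ h3)
      refine ⟨x, Finset.mem_filter.mpr ⟨hx, h1, ?_⟩, rfl⟩
      rcases MM_cases hx hy h2 with h4 | h4
      · exact absurd (congrArg und h4).symm hne
      · rw [← h4]
        exact h3
    · rintro ⟨x, hx, rfl⟩
      obtain ⟨h1, h2, h3⟩ := Finset.mem_filter.mp hx
      refine ⟨?_, h2, _, mate_MM h1 _, h3⟩
      obtain ⟨f, hf, hs⟩ := und_side (mem_bS.mp h1).1
      have hfR := hLR hf
      rw [mem_BR] at hfR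
      obtain ⟨u, v⟩ := f
      simp only at hfR
      unfold UB
      rcases hs with hs | hs | hs | hs <;> rw [hs] <;>
        simp only [bo, le', to', ri, Finset.mem_product, Finset.mem_Icc, Finset.mem_univ,
          and_true] <;> omega
  rw [himg, Finset.card_image_of_injOn]
  swap
  · intro x hx y hy hxy
    exact und_bS_inj (Finset.mem_filter.mp (Finset.mem_coe.mp hx)).1
      (Finset.mem_filter.mp (Finset.mem_coe.mp hy)).1 hxy
  have himg2 : ovr Q (L.image φ) P P' ω =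
      ((bS ZQ L).filter fun x => PA (und x) ∧ PB (und (mate ZQ L (pb φ ω) x))).image (mv ν) := by
    ext y
    rw [mem_ovr, Finset.mem_image]
    constructor
    · rintro ⟨h1, h2, h3⟩
      rw [bS_map HL] at h2
      obtain ⟨x, hx, rfl⟩ := Finset.mem_image.mp h2
      obtain ⟨x₀, hx₀, hx₁, he⟩ := (hP _).mp h1
      have hxx : x₀ = x := mv_inj H (mem_bS.mp hx₀).1 (hdL x hx) he
      rw [hxx] at hx₁
      refine ⟨x, Finset.mem_filter.mpr ⟨hx, hx₁, ?_⟩, rfl⟩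
      rw [mate_map HL hx] at h3
      obtain ⟨y₀, hy₀, hy₁, he'⟩ := (hP' _).mp h3
      have hyy := mv_inj H (mem_bS.mp hy₀).1 (hdL _ (mate_mem hx)) he'
      rw [← hyy]
      exact hy₁
    · rintro ⟨x, hx, rfl⟩
      obtain ⟨h1, h2, h3⟩ := Finset.mem_filter.mp hx
      refine ⟨(hP _).mpr ⟨x, up x h1 (Or.inl h2), h2, rfl⟩, ?_, ?_⟩
      · rw [bS_map HL]
        exact Finset.mem_image_of_mem _ h1
      · rw [mate_map HL h1]
        exact (hP' _).mpr ⟨_, up _ (mate_mem h1) (Or.inr h3), h3, rfl⟩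
  rw [himg2, Finset.card_image_of_injOn]
  intro x hx y hy hxy
  exact mv_inj HL (mem_bS.mp (Finset.mem_filter.mp (Finset.mem_coe.mp hx)).1).1
    (mem_bS.mp (Finset.mem_filter.mp (Finset.mem_coe.mp hy)).1).1 hxy

/-! ## (c1) escaping strands -/

/-- A box chart which is full strictly inside the box. -/
structure PChart (Q : QC V Φ) (F : Finset Φ) (p : ℤ × ℤ) (R : ℤ) (L : Finset (ℤ × ℤ))
    (ν : ℤ × ℤ → V) (φ : ℤ × ℤ → Φ) : Prop where
  chart : QChart ZQ Q L ν φ 0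
  box : L ⊆ BR p R
  mem : ∀ f ∈ L, φ f ∈ F
  full : ∀ x ∈ bS ZQ L, ¬ BdR p R (und x) → Ini Q (F : Set Φ) (mv ν x)

theorem PChart.bS_F (C : PChart Q F p R L ν φ) {x : (ℤ × ℤ) × (ℤ × ℤ)} (hx : x ∈ bS ZQ L)
    (h : ¬ BdR p R (und x)) : mv ν x ∈ bS Q F := by
  refine mem_bS.mpr ⟨?_, C.full x hx h⟩
  obtain ⟨f, hf, k, rfl⟩ := bS_sd hx
  have h1 := (toMap C.chart (fun _ => false)).sd_eq hf k
  exact mem_dE.mpr ⟨φ f, C.mem f hf, k + 0, Or.inl h1.symm⟩

/-- **Escaping strands are crossings of the annulus.** -/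
theorem PChart.card_esc_le (C : PChart Q F p R L ν φ) (hρ : 0 ≤ ρ) (hρR : ρ < R)
    {H : Finset (V × V)} (hH : ∀ y ∈ H, ∃ x ∈ bS ZQ L, InE p ρ (und x) ∧ mv ν x = y) (ω : Φ → Bool) :
    (esc Q F (L.image φ) H ω).card ≤ NF (L : Set (ℤ × ℤ)) p ρ R (pb φ ω) := by
  classical
  set S := ((bS ZQ L).filter fun x => InE p ρ (und x) ∧ BdR p R (und (mate ZQ L (pb φ ω) x))).image und
    with hS
  have hsub : esc Q F (L.image φ) H ω ⊆
      ((bS ZQ L).filter fun x => InE p ρ (und x) ∧ BdR p R (und (mate ZQ L (pb φ ω) x))).image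
        (mv ν) := by
    intro y hy
    obtain ⟨h1, h2⟩ := mem_esc.mp hy
    obtain ⟨x, hx, hx1, rfl⟩ := hH y h1
    rw [Finset.mem_image]
    refine ⟨x, Finset.mem_filter.mpr ⟨hx, hx1, ?_⟩, rfl⟩
    by_contra h3
    apply h2
    rw [mate_map C.chart hx]
    exact C.bS_F (mate_mem hx) h3
  have hSc : (esc Q F (L.image φ) H ω).card ≤ S.card := by
    refine (Finset.card_le_card hsub).trans (Finset.card_image_le.trans (le_of_eq ?_))
    rw [hS, Finset.card_image_of_injOn]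
    intro x hx y hy hxy
    exact und_bS_inj (Finset.mem_filter.mp (Finset.mem_coe.mp hx)).1
      (Finset.mem_filter.mp (Finset.mem_coe.mp hy)).1 hxy
  refine hSc.trans ?_
  have hnot : ∀ c : UE, InE p ρ c → ¬ BdR p R c := by
    rintro ⟨x, y, d⟩ h1 h2
    unfold InE InR at h1
    unfold BdR BdE at h2
    cases d <;> simp only [ua_mk, ub_false, ub_true] at h1 h2 <;> omega
  have hdiff : Diff (pb φ ω) (L : Set (ℤ × ℤ)) S := by
    intro c hc c' hc' h
    rw [hS] at hc hc'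
    obtain ⟨x, hx, rfl⟩ := Finset.mem_image.mp hc
    obtain ⟨y, hy, rfl⟩ := Finset.mem_image.mp hc'
    obtain ⟨hx1, hx2, hx3⟩ := Finset.mem_filter.mp hx
    obtain ⟨hy1, hy2, hy3⟩ := Finset.mem_filter.mp hy
    rcases MM_cases hx1 hy1 h with h4 | h4
    · rw [h4]
    · exfalso
      rw [← h4] at hx3
      exact hnot _ hy2 hx3
  have := card_le_sum_NF (ι := ℕ) (G := (L : Set (ℤ × ℤ))) hdiff {0} (fun _ => p) hρ hρR
    (fun _ _ f hf => hf.1) (fun c hc => ?_)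
  · simpa using this
  · rw [hS] at hc
    obtain ⟨x, hx, rfl⟩ := Finset.mem_image.mp hc
    obtain ⟨hx1, hx2, hx3⟩ := Finset.mem_filter.mp hx
    exact ⟨0, Finset.mem_singleton_self _, ⟨_, mem_MM_self, hx2⟩, _, mate_MM hx1 _, fun _ => hx3⟩

/-! ## Sides of the half chart, weights -/

open Classical in
/-- the sides of the half chart -/
def hsd (ν : ℤ × ℤ → V) (L : Finset (ℤ × ℤ)) (p : ℤ × ℤ) (ρ : ℤ) : Finset (V × V) :=
  ((bS ZQ L).filter fun x => InE p ρ (und x)).image (mv ν)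

theorem mem_hsd {y : V × V} :
    y ∈ hsd ν L p ρ ↔ ∃ x ∈ bS ZQ L, InE p ρ (und x) ∧ mv ν x = y := by
  classical
  unfold hsd
  rw [Finset.mem_image]
  constructor
  · rintro ⟨x, hx, rfl⟩
    obtain ⟨h1, h2⟩ := Finset.mem_filter.mp hx
    exact ⟨x, h1, h2, rfl⟩
  · rintro ⟨x, h1, h2, rfl⟩
    exact ⟨x, Finset.mem_filter.mpr ⟨h1, h2⟩, rfl⟩

theorem not_bdR_of_inE (hρR : ρ < R) {c : UE} (h1 : InE p ρ c) : ¬ BdR p R c := by
  intro h2
  obtain ⟨x, y, d⟩ := c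
  unfold InE InR at h1
  unfold BdR BdE at h2
  cases d <;> simp only [ua_mk, ub_false, ub_true] at h1 h2 <;> omega

theorem PChart.sub (C : PChart Q F p R L ν φ) : L.image φ ⊆ F := by
  intro f hf
  obtain ⟨g, hg, rfl⟩ := Finset.mem_image.mp hf
  exact C.mem g hg

theorem PChart.hsd_F (C : PChart Q F p R L ν φ) (hρR : ρ < R) : hsd ν L p ρ ⊆ bS Q F := by
  intro y hy
  obtain ⟨x, h1, h2, rfl⟩ := mem_hsd.mp hy
  exact C.bS_F h1 (not_bdR_of_inE hρR h2)

theorem PChart.hsd_G (C : PChart Q F p R L ν φ) : hsd ν L p ρ ⊆ bS Q (L.image φ) := by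
  intro y hy
  obtain ⟨x, h1, -, rfl⟩ := mem_hsd.mp hy
  rw [bS_map C.chart]
  exact Finset.mem_image_of_mem _ h1

/-- (c1) for the sides of the half chart and any planar set `S` which contains `L`. -/
theorem PChart.card_esc_hsd (C : PChart Q F p R L ν φ) (hρ : 0 ≤ ρ) (hρR : ρ < R)
    {S : Set (ℤ × ℤ)} (hS : (L : Set (ℤ × ℤ)) ⊆ S) (ω : Φ → Bool) :
    (esc Q F (L.image φ) (hsd ν L p ρ) ω).card ≤ NF S p ρ R (pb φ ω) :=
  (C.card_esc_le hρ hρR (fun _ hy => mem_hsd.mp hy) ω).trans (NF_mono hS _ _ _ _)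

/-- The mate of a side of the half chart: it is a boundary side of `F` or lies on the boundary of the box. -/
theorem PChart.mate_cases (C : PChart Q F p R L ν φ) {x : (ℤ × ℤ) × (ℤ × ℤ)} (hx : x ∈ bS ZQ L)
    (ω : Φ → Bool) : mate Q (L.image φ) ω (mv ν x) ∈ bS Q F ∨ BdR p R (und (mate ZQ L (pb φ ω) x)) := by
  by_cases h : BdR p R (und (mate ZQ L (pb φ ω) x))
  · exact Or.inr h
  · left
    rw [mate_map C.chart hx]
    exact C.bS_F (mate_mem hx) h

/-- **Weights in a chart.** -/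
theorem wt_map (H : QChart ZQ Q L ν φ 0) (ha : a ∈ bS ZQ L) (ψ : V × V → ℝ) :
    wt Q (L.image φ) ω ψ (mv ν a) = wt ZQ L (pb φ ω) (fun x => ψ (mv ν x)) a := by
  unfold wt
  rw [mate_map H ha, turn_map H (mem_bS.mp ha).1]

/-! ## Wedges -/

open Pool.Agent.SixB.Wd in
/-- (c2) for the wedge boxes. -/
theorem card_ovr_wN {m o r : ℕ} (hm0 : 1 ≤ m) (hm : m ≤ 3) (H : QChart ZQ Q (wB m o r 0) ν φ 0) (j : ℕ)
    {P P' : Finset (V × V)}
    (hP : ∀ y, y ∈ P ↔ ∃ x ∈ bS ZQ (wB m o r 0), Ray o (und x) ∧ mv ν x = y)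
    (hP' : ∀ y, y ∈ P' ↔ ∃ x ∈ bS ZQ (wB m o r 0), Ray (o + m) (und x) ∧ mv ν x = y) (ω : Φ → Bool) :
    (ovr Q ((wB m o r j).image φ) P P' ω).card = wN m o r j (pb φ ω) := by
  have hsub : ((wB m o r 0 : Finset (ℤ × ℤ)) : Set (ℤ × ℤ)) ⊆ Wdg m o := by
    rw [coe_wB]
    exact Set.inter_subset_left
  have hbox : wB m o r j ⊆ BR (0, 0) (rj r j) := fun f hf => (mem_wB.mp hf).1
  rw [card_ovr (p := (0, 0)) (R := rj r j) H (wB_anti' m o r (Nat.zero_le j))
    (fun c hc => bdF_sub_c hsub (bdF_left hm0 hm hc)) (fun c hc => bdF_sub_c hsub (bdF_right hm0 hm hc))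
    (fun c hc => ray_disj hm0 hm hc) hbox hP hP']
  unfold wN NA
  rw [coe_wB]

end

end Pool.Agent.SixB.PC
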