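import Pool.Agent.Lib.SixB.S0Z

/-!
# 6BD step 0: arrows in product form, boundary heights of a disc

* `WU1_arc`: weight with the arrow of a boundary side inserted, product form; `WU1_closed`: the same for a closed
  strand (`±√3` times the weight);
* `hB`: boundary height (divided by `i`), `hB v = - ∑ (i < v), uE (w i)`; `Disc.hB_eq`: it is the average
  of the sum over the arcs `i < v ≤ cM i` of the product form, divided by the partition function;
* `Disc.hasDerivAt_av`: derivative of the partition function in the phases: `∑ (change of the jump) * height`.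
-/

set_option autoImplicit false
set_option linter.unusedSectionVars false

namespace Pool.Agent.SixB

open Pool.Agent.Perc.Q Relation

noncomputable section

variable {V Φ : Type} [DecidableEq V] [DecidableEq Φ]
variable {Q : QC V Φ} {F : Finset Φ} {ω : Φ → Bool} {a b e : V × V} {X : Finset (V × V)}
  {ψ : V × V → ℝ} {G : Set (V × V)} {w : List ((V × V) × ℤ)}

theorem ust_subst : ust Q F ω = lps Q F ω ∪ (arcs Q F ω).image (uarc Q F ω) := ust_split

theorem uarc_usE (ha : a ∈ bS Q F) : uarc Q F ω s(a, mate Q F ω a) = usE Q F ω a := by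
  rw [uarc_eq ha, rv_dst]
  rfl

theorem cos_four : Real.cos (4 * (Real.pi / 12)) = 1 / 2 := by
  rw [show 4 * (Real.pi / 12) = Real.pi / 3 by ring, Real.cos_pi_div_three]

theorem sin_four : Real.sin (4 * (Real.pi / 12)) = Real.sqrt 3 / 2 := by
  rw [show 4 * (Real.pi / 12) = Real.pi / 3 by ring, Real.sin_pi_div_three]

/-- closed strands of turning `±4` have weight `1` -/
theorem uc_lps (hQ : NoLoop Q) (hL : ∀ X ∈ dstr Q F ω, (∀ a ∈ X, ¬ Ini Q (F : Set Φ) a) →
      tX Q F ω X = 4 ∨ tX Q F ω X = -4) {U : Finset (Finset (V × V))} (hU : U ∈ lps Q F ω) :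
    uc Q F ω ψ U = 1 := by
  classical
  unfold lps at hU
  obtain ⟨X, hX, rfl⟩ := Finset.mem_image.mp hU
  obtain ⟨hX1, hX2⟩ := Finset.mem_filter.mp hX
  unfold uc
  rw [Finset.sum_pair (rv_ne hQ hX1).symm, agl_rv hX1, agl_loop hX1 hX2, Real.cos_neg]
  rcases hL X hX1 hX2 with h | h <;> rw [h]
  · push_cast
    rw [cos_four]; norm_num
  · push_cast
    rw [show (-4 : ℝ) * (Real.pi / 12) = -(4 * (Real.pi / 12)) by ring, Real.cos_neg, cos_four]
    norm_num

theorem uc_arc (hQ : NoLoop Q) (ha : a ∈ bS Q F) :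
    uc Q F ω ψ (uarc Q F ω s(a, mate Q F ω a)) =
      2 * Real.cos (ψ (mate Q F ω a) - ψ a + turn Q F ω a * (Real.pi / 12)) := by
  rw [uarc_usE ha, uc_usE hQ (mem_bS.mp ha).1, agl_arc ha]

/-- the weight as a product over the arcs -/
theorem WU_arcs (hQ : NoLoop Q) (hL : ∀ X ∈ dstr Q F ω, (∀ a ∈ X, ¬ Ini Q (F : Set Φ) a) →
      tX Q F ω X = 4 ∨ tX Q F ω X = -4) (T : Sym2 (V × V) → ℝ)
    (hT : ∀ a ∈ bS Q F, T s(a, mate Q F ω a) =
      2 * Real.cos (ψ (mate Q F ω a) - ψ a + turn Q F ω a * (Real.pi / 12))) :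
    WU Q F ψ ω = ∏ p ∈ arcs Q F ω, T p := by
  unfold WU
  rw [ust_split, Finset.prod_union lps_arcs_disj, Finset.prod_image uarc_inj,
    Finset.prod_eq_one (fun U hU => uc_lps hQ hL hU), one_mul]
  refine Finset.prod_congr rfl fun p hp => ?_
  obtain ⟨a, ha, rfl⟩ := mem_arcs.mp hp
  rw [uc_arc hQ ha, hT a ha]

/-- product over the other strands -/
theorem prod_erase_arc (hQ : NoLoop Q) (hL : ∀ X ∈ dstr Q F ω, (∀ a ∈ X, ¬ Ini Q (F : Set Φ) a) →
      tX Q F ω X = 4 ∨ tX Q F ω X = -4) (T : Sym2 (V × V) → ℝ)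
    (hT : ∀ a ∈ bS Q F, T s(a, mate Q F ω a) =
      2 * Real.cos (ψ (mate Q F ω a) - ψ a + turn Q F ω a * (Real.pi / 12))) (ha : a ∈ bS Q F) :
    ∏ U ∈ (ust Q F ω).erase (usE Q F ω a), uc Q F ω ψ U =
      ∏ p ∈ (arcs Q F ω).erase s(a, mate Q F ω a), T p := by
  have hp : s(a, mate Q F ω a) ∈ arcs Q F ω := mem_arcs.mpr ⟨a, ha, rfl⟩
  have h1 : (ust Q F ω).erase (usE Q F ω a) =
      lps Q F ω ∪ ((arcs Q F ω).erase s(a, mate Q F ω a)).image (uarc Q F ω) := by
    ext U
    rw [Finset.mem_erase, ust_split, Finset.mem_union, Finset.mem_union, ← uarc_usE ha]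
    constructor
    · rintro ⟨h2, h3 | h3⟩
      · exact Or.inl h3
      · right
        obtain ⟨q, hq, rfl⟩ := Finset.mem_image.mp h3
        exact Finset.mem_image.mpr ⟨q, Finset.mem_erase.mpr ⟨fun h4 => h2 (by rw [h4]), hq⟩, rfl⟩
    · rintro (h3 | h3)
      · refine ⟨?_, Or.inl h3⟩
        rintro rfl
        exact Finset.disjoint_left.mp lps_arcs_disj h3 (Finset.mem_image_of_mem _ hp)
      · obtain ⟨q, hq, rfl⟩ := Finset.mem_image.mp h3
        obtain ⟨h4, h5⟩ := Finset.mem_erase.mp hq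
        exact ⟨fun h6 => h4 (uarc_inj (Finset.mem_coe.mpr h5) (Finset.mem_coe.mpr hp) h6),
          Or.inr (Finset.mem_image_of_mem _ h5)⟩
  have h2 : Disjoint (lps Q F ω) (((arcs Q F ω).erase s(a, mate Q F ω a)).image (uarc Q F ω)) :=
    Finset.disjoint_of_subset_right (Finset.image_subset_image (Finset.erase_subset _ _)) lps_arcs_disj
  rw [h1, Finset.prod_union h2, Finset.prod_image (uarc_inj.mono
    (Finset.coe_subset.mpr (Finset.erase_subset _ _))),
    Finset.prod_eq_one (fun U hU => uc_lps hQ hL hU), one_mul]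
  refine Finset.prod_congr rfl fun p hp => ?_
  obtain ⟨b, hb, rfl⟩ := mem_arcs.mp (Finset.mem_of_mem_erase hp)
  rw [uc_arc hQ hb, hT b hb]

/-- **the arrow of a boundary side inserted**, product form -/
theorem WU1_arc (hQ : NoLoop Q) (hL : ∀ X ∈ dstr Q F ω, (∀ a ∈ X, ¬ Ini Q (F : Set Φ) a) →
      tX Q F ω X = 4 ∨ tX Q F ω X = -4) (T : Sym2 (V × V) → ℝ)
    (hT : ∀ a ∈ bS Q F, T s(a, mate Q F ω a) =
      2 * Real.cos (ψ (mate Q F ω a) - ψ a + turn Q F ω a * (Real.pi / 12))) (ha : a ∈ bS Q F) :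
    WU1 Q F ψ a ω = (∏ p ∈ (arcs Q F ω).erase s(a, mate Q F ω a), T p) *
      (2 * Real.sin (ψ (mate Q F ω a) - ψ a + turn Q F ω a * (Real.pi / 12))) := by
  unfold WU1
  rw [prod_erase_arc hQ hL T hT ha, agl_arc ha]

/-- **the arrow of a closed strand inserted** -/
theorem WU1_closed (hQ : NoLoop Q) (hL : ∀ X ∈ dstr Q F ω, (∀ a ∈ X, ¬ Ini Q (F : Set Φ) a) →
      tX Q F ω X = 4 ∨ tX Q F ω X = -4) (he : e ∈ dE Q F)
    (hc : ∀ a ∈ dst Q F ω e, ¬ Ini Q (F : Set Φ) a) :
    WU1 Q F ψ e ω = Real.sqrt 3 / 4 * (turn Q F ω e : ℝ) * WU Q F ψ ω := by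
  have hX := dst_mem_dstr (ω := ω) he
  rw [WU_eq he, uc_usE hQ he]
  unfold WU1
  rw [agl_loop hX hc]
  unfold turn
  rcases hL _ hX hc with h | h <;> rw [h]
  · push_cast
    rw [cos_four, sin_four]; ring
  · push_cast
    rw [show (-4 : ℝ) * (Real.pi / 12) = -(4 * (Real.pi / 12)) by ring, Real.cos_neg, Real.sin_neg,
      cos_four, sin_four]
    ring

/-! ## Discs: positions -/

/-- product form of the arrow of the side `i` of the word: the arc of `i` counted by `sin` -/
def pS (Q : QC V Φ) (F : Finset Φ) (w : List ((V × V) × ℤ)) (ψ : V × V → ℝ) (ω : Φ → Bool) (i : ℕ) : ℝ :=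
  (∏ l ∈ ((Finset.range w.length).filter (fun l => l < cM Q F w ω l)).erase i,
    2 * Real.cos (th w ψ (cM Q F w ω l) - th w ψ l - Real.pi / 6)) *
      (2 * Real.sin (Real.pi / 6 - (th w ψ (cM Q F w ω i) - th w ψ i)))

theorem Disc.WU1_open (hQ : NoLoop Q) (h : Disc Q (F : Set Φ) G w)
    (hw : ∀ e ∈ w.map Prod.fst, Ini Q (F : Set Φ) e) {i : ℕ} (hi : i < w.length)
    (hlt : i < cM Q F w ω i) : WU1 Q F ψ (w[i].1) ω = -pS Q F w ψ ω i := by
  obtain ⟨T, hT⟩ := exists_T (Q := Q) (F := F) ψ ω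
  have hL := fun X hX hX' => h.closed (ω := ω) hw (X := X) hX hX'
  have ha := side_mem h hw hi
  obtain ⟨h1, h2, h3⟩ := h.cM_all hw ω
  have h4 := (h1 i hi).1
  obtain ⟨h5, h6⟩ := h3 i hi h4
  rw [if_pos hlt] at h6
  have hfl : ∀ l ∈ (Finset.range w.length).filter (fun l => l < cM Q F w ω l), l < w.length :=
    fun l hl => Finset.mem_range.mp (Finset.mem_filter.mp hl).1
  have hprod : ∏ p ∈ (SixB.arcs Q F ω).erase s(w[i].1, mate Q F ω w[i].1), T p =
      ∏ l ∈ ((Finset.range w.length).filter (fun l => l < cM Q F w ω l)).erase i,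
        2 * Real.cos (th w ψ (cM Q F w ω l) - th w ψ l - Real.pi / 6) := by
    symm
    refine Finset.prod_bij (fun l hl => s((w[l]'(hfl l (Finset.mem_of_mem_erase hl))).1,
      mate Q F ω (w[l]'(hfl l (Finset.mem_of_mem_erase hl))).1)) ?_ ?_ ?_ ?_
    · intro l hl
      have hl' := hfl l (Finset.mem_of_mem_erase hl)
      refine Finset.mem_erase.mpr ⟨?_, mem_arcs.mpr ⟨_, side_mem h hw hl', rfl⟩⟩
      intro he
      rcases Sym2.eq_iff.mp he with h7 | h7
      · exact (Finset.mem_erase.mp hl).1 (nodup_inj h hl' hi h7.1)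
      · have h8 := h7.1
        have h9 := h7.2
        rw [h5] at h8
        rw [(h3 l hl' (h1 l hl').1).1] at h9
        have h10 := nodup_inj h hl' h4 h8
        have h11 := nodup_inj h (h1 l hl').1 hi h9
        have h12 := (Finset.mem_filter.mp (Finset.mem_of_mem_erase hl)).2
        omega
    · intro l hl l' hl' he
      have hl1 := hfl l (Finset.mem_of_mem_erase hl)
      have hl2 := hfl l' (Finset.mem_of_mem_erase hl')
      rcases Sym2.eq_iff.mp he with h7 | h7
      · exact nodup_inj h hl1 hl2 h7.1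
      · exfalso
        have h8 := h7.1
        have h9 := h7.2
        rw [(h3 l' hl2 (h1 l' hl2).1).1] at h8
        rw [(h3 l hl1 (h1 l hl1).1).1] at h9
        have h10 := nodup_inj h hl1 (h1 l' hl2).1 h8
        have h11 := nodup_inj h (h1 l hl1).1 hl2 h9
        have h12 := (Finset.mem_filter.mp (Finset.mem_of_mem_erase hl)).2
        have h13 := (Finset.mem_filter.mp (Finset.mem_of_mem_erase hl')).2
        omega
    · intro p hp
      obtain ⟨hp1, hp2⟩ := Finset.mem_erase.mp hp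
      obtain ⟨a, ha, rfl⟩ := mem_arcs.mp hp2
      obtain ⟨x, hx, hxa⟩ := List.mem_map.mp ((h.mem_bS hw).mp ha)
      obtain ⟨l, hl, hlx⟩ := List.getElem_of_mem hx
      have hla : w[l].1 = a := by rw [hlx, hxa]
      obtain ⟨h7, h8, h9⟩ := h1 l hl
      have h10 := (h3 l hl h7).1
      rcases Nat.lt_or_gt_of_ne h8 with h11 | h11
      · refine ⟨cM Q F w ω l, Finset.mem_erase.mpr ⟨?_, Finset.mem_filter.mpr
          ⟨Finset.mem_range.mpr h7, by rw [h9]; exact h11⟩⟩, ?_⟩
        · intro h12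
          apply hp1
          have h13 : a = w[cM Q F w ω i].1 := by
            rw [← hla]
            congr 1
            have : l = cM Q F w ω i := by rw [← h12, h9]
            simp only [this]
          rw [← h5] at h13
          rw [h13, mate_mate (side_mem h hw hi), Sym2.eq_swap]
        · rw [← h10, hla, mate_mate ha, Sym2.eq_swap]
      · refine ⟨l, Finset.mem_erase.mpr ⟨?_, Finset.mem_filter.mpr ⟨Finset.mem_range.mpr hl, h11⟩⟩, ?_⟩
        · rintro rfl
          exact hp1 (by rw [hla])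
        · rw [hla]
    · intro l hl
      have hl' := hfl l (Finset.mem_of_mem_erase hl)
      have h7 := (h1 l hl').1
      obtain ⟨h8, h9⟩ := h3 l hl' h7
      rw [if_pos (Finset.mem_filter.mp (Finset.mem_of_mem_erase hl)).2] at h9
      show _ = T s((w[l]'hl').1, mate Q F ω (w[l]'hl').1)
      rw [hT _ (side_mem h hw hl'), h8, h9, th_lt ψ hl', th_lt ψ h7]
      congr 2
      push_cast
      ring
  rw [WU1_arc hQ hL T hT ha, hprod]
  unfold pS
  rw [← mul_neg, ← mul_neg, ← Real.sin_neg, h5, h6, th_lt ψ hi, th_lt ψ h4]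
  congr 3
  push_cast
  ring

theorem Disc.WU1_close (hQ : NoLoop Q) (h : Disc Q (F : Set Φ) G w)
    (hw : ∀ e ∈ w.map Prod.fst, Ini Q (F : Set Φ) e) {i : ℕ} (hi : i < w.length)
    (hlt : cM Q F w ω i < i) : WU1 Q F ψ (w[i].1) ω = pS Q F w ψ ω (cM Q F w ω i) := by
  obtain ⟨h1, h2, h3⟩ := h.cM_all hw ω
  obtain ⟨h4, -, h6⟩ := h1 i hi
  have h7 := h.WU1_open hQ hw (ψ := ψ) (ω := ω) h4 (by rw [h6]; exact hlt)
  have ha := side_mem h hw hi
  have h8 : WU1 Q F ψ (mate Q F ω w[i].1) ω = -WU1 Q F ψ (w[i].1) ω := by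
    have h9 := WU1_srel (ψ := ψ) (srel_mate (ω := ω) ha)
    rw [h9, WU1_swap (SixB.mem_bS.mp ha).1]
  rw [(h3 i hi h4).1] at h8
  linarith

/-- mean arrow of the side `i` -/
def uS (Q : QC V Φ) (F : Finset Φ) (w : List ((V × V) × ℤ)) (ψ : V × V → ℝ) (i : ℕ) : ℝ :=
  if h : i < w.length then uE Q F ψ (w[i].1) else 0

/-- boundary height (divided by `i`) of the vertex `v` (between the sides `v - 1` and `v`) -/
def hB (Q : QC V Φ) (F : Finset Φ) (w : List ((V × V) × ℤ)) (ψ : V × V → ℝ) (v : ℕ) : ℝ :=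
  -∑ i ∈ Finset.range v, uS Q F w ψ i

theorem hB_zero : hB Q F w ψ 0 = 0 := by simp [hB]

theorem hB_succ (v : ℕ) : hB Q F w ψ (v + 1) = hB Q F w ψ v - uS Q F w ψ v := by
  unfold hB
  rw [Finset.sum_range_succ]
  ring

/-- arcs over the vertex `v` -/
def ovB (Q : QC V Φ) (F : Finset Φ) (w : List ((V × V) × ℤ)) (ω : Φ → Bool) (v : ℕ) : Finset ℕ :=
  (Finset.range w.length).filter (fun i => i < v ∧ v ≤ cM Q F w ω i)

theorem Disc.sum_ovB (h : Disc Q (F : Set Φ) G w) (hw : ∀ e ∈ w.map Prod.fst, Ini Q (F : Set Φ) e)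
    (g : ℕ → ℝ) {v : ℕ} (hv : v < w.length) :
    ∑ i ∈ ovB Q F w ω (v + 1), g i = ∑ i ∈ ovB Q F w ω v, g i +
      (if v < cM Q F w ω v then g v else -g (cM Q F w ω v)) := by
  obtain ⟨h1, h2, h3⟩ := h.cM_all hw ω
  obtain ⟨h4, h5, h6⟩ := h1 v hv
  by_cases hlt : v < cM Q F w ω v
  · rw [if_pos hlt]
    have e : ovB Q F w ω (v + 1) = insert v (ovB Q F w ω v) := by
      unfold ovB
      ext i
      simp only [Finset.mem_insert, Finset.mem_filter, Finset.mem_range]
      constructor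
      · rintro ⟨h7, h8, h9⟩
        rcases Nat.lt_succ_iff_lt_or_eq.mp h8 with h10 | h10
        · exact Or.inr ⟨h7, h10, by omega⟩
        · exact Or.inl h10
      · rintro (rfl | ⟨h7, h8, h9⟩)
        · exact ⟨hv, by omega, by omega⟩
        · refine ⟨h7, by omega, ?_⟩
          by_contra h10
          have h11 : cM Q F w ω i = v := by omega
          rw [← h11, (h1 i h7).2.2] at hlt
          omega
    rw [e, Finset.sum_insert]
    · ring
    · unfold ovB
      simp
  · rw [if_neg hlt]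
    have e : ovB Q F w ω v = insert (cM Q F w ω v) (ovB Q F w ω (v + 1)) := by
      unfold ovB
      ext i
      simp only [Finset.mem_insert, Finset.mem_filter, Finset.mem_range]
      constructor
      · rintro ⟨h7, h8, h9⟩
        by_cases h10 : cM Q F w ω i = v
        · left
          rw [← h10, (h1 i h7).2.2]
        · exact Or.inr ⟨h7, by omega, by omega⟩
      · rintro (rfl | ⟨h7, h8, h9⟩)
        · rw [h6]
          exact ⟨h4, by omega, le_rfl⟩
        · refine ⟨h7, ?_, by omega⟩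
          by_contra h10
          have h11 : i = v := by omega
          rw [h11] at h9
          omega
    rw [e, Finset.sum_insert]
    · ring
    · unfold ovB
      simp only [Finset.mem_filter, Finset.mem_range, not_and]
      intro _ _
      rw [h6]
      omega

/-- **Boundary heights** in product form. -/
theorem Disc.hB_eq (hQ : NoLoop Q) (h : Disc Q (F : Set Φ) G w)
    (hw : ∀ e ∈ w.map Prod.fst, Ini Q (F : Set Φ) e) (ψ : V × V → ℝ) {v : ℕ} (hv : v ≤ w.length) :
    hB Q F w ψ v = av F (fun ω => ∑ i ∈ ovB Q F w ω v, pS Q F w ψ ω i) / av F (WU Q F ψ) := by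
  induction v with
  | zero =>
    have e : ∀ ω : Φ → Bool, ovB Q F w ω 0 = ∅ := by
      intro ω
      unfold ovB
      rw [Finset.filter_eq_empty_iff]
      intro i _ h
      omega
    rw [hB_zero]
    simp only [e, Finset.sum_empty, av_const, zero_div]
  | succ v ih =>
    have hv' : v < w.length := by omega
    rw [hB_succ, ih (by omega)]
    unfold uS
    rw [dif_pos hv']
    unfold uE
    rw [← sub_div, ← av_sub]
    congr 1
    refine av_congr fun T _ => ?_
    show _ - _ = _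
    rw [h.sum_ovB hw _ hv', sub_eq_add_neg]
    congr 1
    obtain ⟨h1, h2, h3⟩ := h.cM_all hw (ind T)
    rcases Nat.lt_or_gt_of_ne (h1 v hv').2.1 with h4 | h4
    · rw [if_neg (by omega), h.WU1_close hQ hw hv' h4]
    · rw [if_pos h4, h.WU1_open hQ hw hv' h4, neg_neg]

/-- the boundary height is single valued -/
theorem Disc.hB_length (hQ : NoLoop Q) (h : Disc Q (F : Set Φ) G w)
    (hw : ∀ e ∈ w.map Prod.fst, Ini Q (F : Set Φ) e) (ψ : V × V → ℝ) :
    hB Q F w ψ w.length = 0 := by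
  rw [h.hB_eq hQ hw ψ le_rfl]
  have e : ∀ ω : Φ → Bool, ovB Q F w ω w.length = ∅ := by
    intro ω
    unfold ovB
    rw [Finset.filter_eq_empty_iff]
    intro i hi h5
    have := ((h.cM_all hw ω).1 i (Finset.mem_range.mp hi)).1
    omega
  simp only [e, Finset.sum_empty, av_const, zero_div]

theorem Disc.sum_bS (h : Disc Q (F : Set Φ) G w) (hw : ∀ e ∈ w.map Prod.fst, Ini Q (F : Set Φ) e)
    (g : V × V → ℝ) :
    ∑ a ∈ bS Q F, g a = ∑ i ∈ Finset.range w.length, (if h : i < w.length then g (w[i].1) else 0) := by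
  symm
  refine Finset.sum_bij (fun i hi => (w[i]'(Finset.mem_range.mp hi)).1) ?_ ?_ ?_ ?_
  · intro i hi
    exact side_mem h hw (Finset.mem_range.mp hi)
  · intro i hi j hj he
    exact nodup_inj h (Finset.mem_range.mp hi) (Finset.mem_range.mp hj) he
  · intro a ha
    obtain ⟨x, hx, hxa⟩ := List.mem_map.mp ((h.mem_bS hw).mp ha)
    obtain ⟨i, hi, hix⟩ := List.getElem_of_mem hx
    exact ⟨i, Finset.mem_range.mpr hi, by rw [hix, hxa]⟩
  · intro i hi
    rw [dif_pos (Finset.mem_range.mp hi)]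

/-- phase of the side `i` -/
def phS (w : List ((V × V) × ℤ)) (g : V × V → ℝ) (i : ℕ) : ℝ :=
  if h : i < w.length then g (w[i].1) else 0

/-- Abel summation -/
theorem abel (g u : ℕ → ℝ) (m : ℕ) :
    ∑ i ∈ Finset.range (m + 1), g i * (u i - u (i + 1)) =
      g 0 * u 0 - g m * u (m + 1) + ∑ v ∈ Finset.Ico 1 (m + 1), (g v - g (v - 1)) * u v := by
  induction m with
  | zero => simp; ring
  | succ m ih =>
    have h1 := Finset.sum_Ico_succ_top (show 1 ≤ m + 1 by omega) (fun v => (g v - g (v - 1)) * u v)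
    rw [Finset.sum_range_succ, ih, h1, show m + 1 - 1 = m by omega]
    ring

/-- **Derivative of the partition function in the phases**: changes of the jumps times heights. -/
theorem Disc.hasDerivAt_av (hQ : NoLoop Q) (h : Disc Q (F : Set Φ) G w)
    (hw : ∀ e ∈ w.map Prod.fst, Ini Q (F : Set Φ) e) (p : ℝ → V × V → ℝ) (p' : V × V → ℝ) (t : ℝ)
    (hp : ∀ a ∈ bS Q F, HasDerivAt (fun s => p s a) (p' a) t) (hZ : av F (WU Q F (p t)) ≠ 0) :
    HasDerivAt (fun s => av F (WU Q F (p s))) (av F (WU Q F (p t)) *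
      ∑ v ∈ Finset.Ico 1 w.length, (phS w p' v - phS w p' (v - 1)) * hB Q F w (p t) v) t := by
  refine (hasDerivAt_av_WU hQ p p' t hp).congr_deriv ?_
  rw [h.sum_bS hw]
  have e1 : ∀ i ∈ Finset.range w.length,
      (if h : i < w.length then p' (w[i].1) * av F (WU1 Q F (p t) (w[i].1)) else 0) =
        av F (WU Q F (p t)) * (phS w p' i * (hB Q F w (p t) i - hB Q F w (p t) (i + 1))) := by
    intro i hi
    have hi' := Finset.mem_range.mp hi
    rw [dif_pos hi', hB_succ]
    unfold phS uS uE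
    rw [dif_pos hi', dif_pos hi']
    field_simp
    ring
  rw [Finset.sum_congr rfl e1, ← Finset.mul_sum]
  congr 1
  rcases Nat.eq_zero_or_pos w.length with h0 | h0
  · rw [h0]; simp
  · obtain ⟨m, hm⟩ : ∃ m, w.length = m + 1 := ⟨w.length - 1, by omega⟩
    have h1 := h.hB_length hQ hw (p t)
    rw [hm] at h1 ⊢
    rw [abel, h1, hB_zero]
    ring

end

end Pool.Agent.SixB
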