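import Pool.Agent.Lib.SixB.S6KB
import Pool.Agent.Lib.SixB.S4Plane
import Pool.Agent.Lib.SixB.S0Bd

/-!
# 6BD, block CA: the boundary word of a disc and the matching of its sides by the strands

`Disc.mated`: if the word `w` of the disc `F` runs along the contour `c` (side `i` = directed edge from
`c i` to `c (i + 1)`), then `cM` (position of the other end of the arc of the side `i`) is the matching
`Mated` of S6K.
-/

set_option autoImplicit false

namespace Pool.Agent.SixB

open Pool.Agent.Perc Pool.Agent.Perc.Q Pool.Agent.Perc6 Pool.Agent.SixB.Tilt Relation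

variable {F : Finset (ℤ × ℤ)} {G : Set ((ℤ × ℤ) × (ℤ × ℤ))} {w : List (((ℤ × ℤ) × (ℤ × ℤ)) × ℤ)}
  {c : ℕ → ℤ × ℤ} {m : ℕ}

/-- the unit edge of a directed unit edge joins its ends -/
theorem joins_und {x : (ℤ × ℤ) × (ℤ × ℤ)} (hx : x ∈ dE ZQ F) : Joins (und x) x.1 x.2 := by
  rcases dE_dir hx with h | h
  · left
    exact ⟨congrArg Prod.fst h, congrArg Prod.snd h⟩
  · right
    exact ⟨congrArg Prod.fst h, congrArg Prod.snd h⟩

/-- **The positions of the arcs in the boundary word of a disc are the matching of the contour.** -/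
theorem Disc.mated (h : Disc ZQ (F : Set (ℤ × ℤ)) G w)
    (hw : ∀ e ∈ w.map Prod.fst, Ini ZQ (F : Set (ℤ × ℤ)) e) (hm : w.length = m)
    (hc : ∀ (i : ℕ) (hi : i < w.length), w[i].1 = (c i, c (i + 1))) (ω : Cfg) :
    Mated F m c ω (cM ZQ F w ω) := by
  subst hm
  obtain ⟨h1, h2, h3⟩ := h.cM_all hw ω
  intro i hi
  obtain ⟨h4, h5, h6⟩ := h1 i hi
  refine ⟨h4, h5, h6, ?_⟩
  intro e hj
  have ha := side_mem h hw hi
  obtain ⟨ha1, ha2⟩ := SixB.mem_bS.mp ha
  have hb := side_mem h hw h4
  obtain ⟨hb1, hb2⟩ := SixB.mem_bS.mp hb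
  have hmate := (h3 i hi h4).1
  have hl := lst_spec (ω := ω) ha2
  have hs := srel_lst (ω := ω) ha2
  have hsw : (mate ZQ F ω w[i].1).swap = lst ZQ F ω w[i].1 := by unfold mate; rw [Prod.swap_swap]
  have hs2 : SRel ZQ F ω (w[i].1) (w[cM ZQ F w ω i].1).swap := by
    rw [← hmate, hsw]; exact hs
  have he : e = und (w[i].1) := by
    have := joins_und ha1
    rw [hc i hi] at this ⊢
    exact Joins.uniq hj this
  constructor
  · intro e' hj'
    have he' : e' = und (w[cM ZQ F w ω i].1) := by
      have := joins_und hb1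
      rw [hc _ h4] at this ⊢
      exact Joins.uniq hj' this
    rw [he, he', MM_iff ha1 hb1]
    exact Or.inr hs2
  · intro k hk e' hj' hmm
    have hk1 := side_mem h hw hk
    obtain ⟨hd1, hd2⟩ := SixB.mem_bS.mp hk1
    have he' : e' = und (w[k].1) := by
      have := joins_und hd1
      rw [hc _ hk] at this ⊢
      exact Joins.uniq hj' this
    rw [he, he', MM_iff ha1 hd1] at hmm
    rcases hmm with h7 | h7
    · left
      exact (nodup_inj h hi hk (ini_unique ha2 hd2 h7)).symm
    · right
      have h8 := mate_unique (ω := ω) ha2 (ter_swap.mpr hd2) h7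
      rw [Prod.swap_swap, hmate] at h8
      exact (nodup_inj h h4 hk h8).symm

end Pool.Agent.SixB
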