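import Pool.Agent.Lib.SixB.S6LBox
import Pool.Agent.Lib.SixB.CARf

/-!
# 6BD: the lattice polygon near a flat boundary point

* `cl_rf`: membership of the refinement `rf n P` in frame coordinates.
* `lside_fr`: boundary sides in frame coordinates.
* `flat_near`: near a flat mark `t` the refinement is a half plane in one of the four frames (`FlatZ`) and the contour
  `gr n g` is the straight line `fr κ (gr n g k) i 0`, uniformly in `n` and in the position `k`.
* `wbox_near`: the boxes `WBox` of `S6LPlan` around every contour vertex `k` near `n t`.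
-/

set_option autoImplicit false
set_option linter.unusedSectionVars false

namespace Pool.Agent.SixB.Tilt

open Pool.Agent.Perc Pool.Agent.Perc.Q Pool.Agent.Perc6 Pool.Agent.PercD Relation

variable {P : Finset (ℤ × ℤ)} {L n : ℕ} {g : ℤ → ℤ × ℤ} {κ : ZMod 4} {v p q : ℤ × ℤ}
  {x y x' y' r s R : ℤ}

/-- dilation of a lattice point -/
def dil (n : ℕ) (p : ℤ × ℤ) : ℤ × ℤ := (n * p.1, n * p.2)

theorem neg_div' (hn : 0 < n) (x : ℤ) : (-x - 1) / (n : ℤ) = -(x / n) - 1 := by
  obtain ⟨h1, h2⟩ := (CARf.div_eq_iff' hn (x := x)).1 rfl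
  rw [CARf.div_eq_iff' hn]
  constructor
  · nlinarith
  · nlinarith

theorem add_mul_div' (hn : 0 < n) (a x : ℤ) : (n * a + x) / (n : ℤ) = a + x / n := by
  obtain ⟨h1, h2⟩ := (CARf.div_eq_iff' hn (x := x)).1 rfl
  rw [CARf.div_eq_iff' hn]
  constructor
  · nlinarith
  · nlinarith

/-- **the refinement in frame coordinates** -/
theorem cl_rf (hn : 0 < n) : cl κ (dil n p) x y ∈ rf n P ↔ cl κ p (x / n) (y / n) ∈ P := by
  rw [CARf.mem_rf hn]
  have key : ∀ a z : ℤ, ((n : ℤ) * a - z - 1) / (n : ℤ) = a - z / n - 1 := by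
    intro a z
    rw [show (n : ℤ) * a - z - 1 = n * a + (-z - 1) by ring, add_mul_div' hn, neg_div' hn]
    ring
  have e : ((cl κ (dil n p) x y).1 / (n : ℤ), (cl κ (dil n p) x y).2 / (n : ℤ)) =
      cl κ p (x / n) (y / n) := by
    unfold dil
    rcases k4 κ with rfl | rfl | rfl | rfl
    · rw [cl_0, cl_0]
      simp only
      rw [add_mul_div' hn, add_mul_div' hn]
    · rw [cl_1, cl_1]
      simp only
      rw [add_mul_div' hn, key]
    · rw [cl_2, cl_2]
      simp only
      rw [key, key]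
    · rw [cl_3, cl_3]
      simp only
      rw [add_mul_div' hn, key]
  rw [e]

theorem cl_shift (κ : ZMod 4) (v : ℤ × ℤ) (X Y x y : ℤ) :
    cl κ (fr κ v X Y) x y = cl κ v (X + x) (Y + y) := by
  rcases k4 κ with rfl | rfl | rfl | rfl
  · rw [fr_0, cl_0, cl_0]; apply Prod.ext <;> dsimp only <;> ring
  · rw [fr_1, cl_1, cl_1]; apply Prod.ext <;> dsimp only <;> ring
  · rw [fr_2, cl_2, cl_2]; apply Prod.ext <;> dsimp only <;> ring
  · rw [fr_3, cl_3, cl_3]; apply Prod.ext <;> dsimp only <;> ring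

theorem fr_shift (κ : ZMod 4) (v : ℤ × ℤ) (X Y x y : ℤ) :
    fr κ (fr κ v X Y) x y = fr κ v (X + x) (Y + y) := by
  rcases k4 κ with rfl | rfl | rfl | rfl
  · rw [fr_0, fr_0, fr_0]; apply Prod.ext <;> dsimp only <;> ring
  · rw [fr_1, fr_1, fr_1]; apply Prod.ext <;> dsimp only <;> ring
  · rw [fr_2, fr_2, fr_2]; apply Prod.ext <;> dsimp only <;> ring
  · rw [fr_3, fr_3, fr_3]; apply Prod.ext <;> dsimp only <;> ring

/-- a boundary side in frame coordinates -/
theorem lside_fr (h : LSide P p q) : ∃ κ, q = fr κ p 1 0 ∧ cl κ p 0 0 ∈ P ∧ cl κ p 0 (-1) ∉ P := by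
  obtain ⟨p1, p2⟩ := p
  rcases h with ⟨h1, h2, h3⟩ | ⟨h1, h2, h3⟩ | ⟨h1, h2, h3⟩ | ⟨h1, h2, h3⟩
  · refine ⟨0, ?_, ?_, ?_⟩
    · rw [h1, fr_0]; apply Prod.ext <;> dsimp only <;> ring
    · rw [cl_0]; simpa using h2
    · rw [cl_0]; simpa [sub_eq_add_neg] using h3
  · refine ⟨1, ?_, ?_, ?_⟩
    · rw [h1, fr_1]; apply Prod.ext <;> dsimp only <;> ring
    · rw [cl_1]; simpa using h2
    · rw [cl_1]; simpa using h3
  · refine ⟨2, ?_, ?_, ?_⟩
    · rw [h1, fr_2]; apply Prod.ext <;> dsimp only <;> ring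
    · rw [cl_2]; simpa using h2
    · rw [cl_2]; simpa using h3
  · refine ⟨3, ?_, ?_, ?_⟩
    · rw [h1, fr_3]; apply Prod.ext <;> dsimp only <;> ring
    · rw [cl_3]; simpa using h2
    · rw [cl_3]; simpa [sub_eq_add_neg] using h3

theorem dil_fr (n : ℕ) (κ : ZMod 4) (p : ℤ × ℤ) (x y : ℤ) :
    dil n (fr κ p x y) = fr κ (dil n p) (n * x) (n * y) := by
  unfold dil
  rcases k4 κ with rfl | rfl | rfl | rfl
  · rw [fr_0, fr_0]; apply Prod.ext <;> dsimp only <;> ring
  · rw [fr_1, fr_1]; apply Prod.ext <;> dsimp only <;> ring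
  · rw [fr_2, fr_2]; apply Prod.ext <;> dsimp only <;> ring
  · rw [fr_3, fr_3]; apply Prod.ext <;> dsimp only <;> ring

/-- the refined contour along a straight run of sides -/
theorem gr_run (hn : 0 < n) {a b j₀ : ℤ} (hg : ∀ j, a ≤ j → j ≤ b → g (j₀ + j) = fr κ p j 0)
    {X : ℤ} (h1 : n * a ≤ X) (h2 : X ≤ n * b) :
    gr n g (n * j₀ + X) = fr κ (dil n p) X 0 := by
  have hn0 : (0 : ℤ) < n := by exact_mod_cast hn
  -- the case of a side
  have key : ∀ j, a ≤ j → j < b → ∀ r : ℤ, 0 ≤ r → r ≤ n →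
      gr n g (n * (j₀ + j) + r) = fr κ (dil n p) (n * j + r) 0 := by
    intro j hj hj' r hr hr'
    have e1 := hg j hj hj'.le
    have e2 := hg (j + 1) (by omega) (by omega)
    rw [← add_assoc] at e2
    rw [CARf.gr_eq' g hn rfl hr hr', e1, e2]
    rcases k4 κ with rfl | rfl | rfl | rfl
    · unfold dil; rw [fr_0, fr_0, fr_0]; apply Prod.ext <;> dsimp only <;> ring
    · unfold dil; rw [fr_1, fr_1, fr_1]; apply Prod.ext <;> dsimp only <;> ring
    · unfold dil; rw [fr_2, fr_2, fr_2]; apply Prod.ext <;> dsimp only <;> ring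
    · unfold dil; rw [fr_3, fr_3, fr_3]; apply Prod.ext <;> dsimp only <;> ring
  obtain ⟨h3, h4⟩ := (CARf.div_eq_iff' hn (x := X)).1 rfl
  rcases lt_or_ge (X / n) b with h5 | h5
  · have h6 : a ≤ X / n := by
      rw [Int.le_ediv_iff_mul_le hn0]
      linarith
    have := key (X / n) h6 h5 (X - n * (X / n)) (by linarith) (by linarith)
    rw [show (n : ℤ) * (j₀ + X / n) + (X - n * (X / n)) = n * j₀ + X by ring,
      show (n : ℤ) * (X / n) + (X - n * (X / n)) = X by ring] at this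
    exact this
  · -- `X = n * b`
    have h6 : X = n * b := by
      apply le_antisymm h2
      nlinarith
    rcases eq_or_lt_of_le (show a ≤ b by
      by_contra hc
      nlinarith) with h7 | h7
    · -- only one vertex
      subst h7
      have e1 := hg a le_rfl le_rfl
      have e3 : gr n g (n * j₀ + X) = dil n (g (j₀ + a)) := by
        rw [CARf.gr_eq g (k := n * j₀ + X) (q := j₀ + a) (r := 0) (by rw [h6]; ring) le_rfl hn0]
        unfold dil
        apply Prod.ext <;> dsimp only <;> ring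
      rw [e3, e1, dil_fr, h6, mul_zero]
    · have := key (b - 1) (by omega) (by omega) n (by omega) le_rfl
      rw [show (n : ℤ) * (j₀ + (b - 1)) + n = n * j₀ + X by rw [h6]; ring,
        show (n : ℤ) * (b - 1) + n = X by rw [h6]; ring] at this
      exact this

/-- a straight run of sides is flat -/
theorem flat_run (hn : 0 < n) {a b j₀ : ℤ} (hg : ∀ j, a ≤ j → j ≤ b → g (j₀ + j) = fr κ p j 0)
    (hP : ∀ j, a ≤ j → j < b → cl κ p j 0 ∈ P ∧ cl κ p j (-1) ∉ P) {X : ℤ} (hR : 0 ≤ R)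
    (h1 : n * a ≤ X - R) (h2 : X + R ≤ n * b) (h3 : R ≤ n) :
    FlatZ (rf n P) κ (gr n g (n * j₀ + X)) R ∧
      ∀ i, -R ≤ i → i ≤ R → gr n g (n * j₀ + X + i) = fr κ (gr n g (n * j₀ + X)) i 0 := by
  have hn0 : (0 : ℤ) < n := by exact_mod_cast hn
  have e0 : gr n g (n * j₀ + X) = fr κ (dil n p) X 0 := gr_run hn hg (by linarith) (by linarith)
  constructor
  · intro x y hx hx' hy hy'
    rw [e0, cl_shift, zero_add, cl_rf hn]
    have h4 : a ≤ (X + x) / n := by
      rw [Int.le_ediv_iff_mul_le hn0]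
      linarith
    have h5 : (X + x) / n < b := by
      rw [Int.ediv_lt_iff_lt_mul hn0]
      linarith
    obtain ⟨h6, h7⟩ := hP _ h4 h5
    rcases le_or_gt 0 y with h8 | h8
    · have e1 : y / (n : ℤ) = 0 := (CARf.div_eq_iff' hn).2 ⟨by linarith, by linarith⟩
      rw [e1]
      exact ⟨fun _ => h8, fun _ => h6⟩
    · have e1 : y / (n : ℤ) = -1 := (CARf.div_eq_iff' hn).2 ⟨by linarith, by linarith⟩
      rw [e1]
      exact ⟨fun h => absurd h h7, fun h => absurd h (not_le.2 h8)⟩
  · intro i hi hi'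
    rw [e0, fr_shift, add_zero, add_assoc]
    exact gr_run hn hg (by linarith) (by linarith)

/-- **near a flat mark the lattice polygon is a half plane** -/
theorem flat_near (h : Cont P L g) {t : ℝ} (ht : Fl g t) : ∃ κ : ZMod 4, ∃ δ : ℝ, 0 < δ ∧
    ∀ n : ℕ, 0 < n → ∀ k : ℤ, |(k : ℝ) / n - t| < δ → ∀ R : ℤ, 0 ≤ R → (R : ℝ) ≤ δ * n →
      FlatZ (rf n P) κ (gr n g k) R ∧
        ∀ i, -R ≤ i → i ≤ R → gr n g (k + i) = fr κ (gr n g k) i 0 := by
  -- common part
  have key : ∀ (κ : ZMod 4) (p : ℤ × ℤ) (j₀ a b : ℤ) (δ : ℝ), 0 < δ → δ ≤ 1 →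
      (∀ j, a ≤ j → j ≤ b → g (j₀ + j) = fr κ p j 0) →
      (∀ j, a ≤ j → j < b → cl κ p j 0 ∈ P ∧ cl κ p j (-1) ∉ P) →
      (a : ℝ) + 2 * δ ≤ t - j₀ → t - j₀ ≤ b - 2 * δ → ∀ n : ℕ, 0 < n → ∀ k : ℤ,
      |(k : ℝ) / n - t| < δ → ∀ R : ℤ, 0 ≤ R → (R : ℝ) ≤ δ * n →
      FlatZ (rf n P) κ (gr n g k) R ∧
        ∀ i, -R ≤ i → i ≤ R → gr n g (k + i) = fr κ (gr n g k) i 0 := by
    intro κ p j₀ a b δ hδ hδ1 hg hP h1 h2 n hn k hk R hR0 hR
    have hn0 : (0 : ℝ) < n := by exact_mod_cast hn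
    rw [abs_lt, sub_lt_iff_lt_add, div_lt_iff₀ hn0, lt_sub_iff_add_lt, lt_div_iff₀ hn0] at hk
    obtain ⟨h3, h4⟩ := hk
    have e : k = n * j₀ + (k - n * j₀) := by ring
    have h5 : n * a ≤ (k - n * j₀) - R := by
      have : (n : ℝ) * a ≤ ((k : ℝ) - n * j₀) - R := by nlinarith
      exact_mod_cast this
    have h6 : (k - n * j₀) + R ≤ n * b := by
      have : ((k : ℝ) - n * j₀) + R ≤ n * b := by nlinarith
      exact_mod_cast this
    have h7 : R ≤ n := by
      have : (R : ℝ) ≤ n := by nlinarith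
      exact_mod_cast this
    have := flat_run (κ := κ) (p := p) (j₀ := j₀) hn hg hP (X := k - n * j₀) hR0 h5 h6 h7
    rw [← e] at this
    exact this
  by_cases hti : ∃ q : ℤ, t = q
  · obtain ⟨q, rfl⟩ := hti
    have hfl := ht q rfl
    obtain ⟨κ, h1, h2, h3⟩ := lside_fr (h.side q)
    have e1 : g (q - 1) = fr κ (g q) (-1) 0 := by
      have h4 : g (q - 1) = g q - (g (q + 1) - g q) := by rw [hfl]; abel
      rw [h4, h1]
      rcases k4 κ with rfl | rfl | rfl | rfl
      · rw [fr_0, fr_0]; apply Prod.ext <;> simp [sub_eq_add_neg]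
      · rw [fr_1, fr_1]; apply Prod.ext <;> simp [sub_eq_add_neg]
      · rw [fr_2, fr_2]; apply Prod.ext <;> simp [sub_eq_add_neg]
      · rw [fr_3, fr_3]; apply Prod.ext <;> simp [sub_eq_add_neg]
    obtain ⟨κ', h4, h5, h6⟩ := lside_fr (h.side (q - 1))
    rw [sub_add_cancel] at h4
    have hκ : κ' = κ := by
      have h7 : fr κ' (g (q - 1)) 1 0 = fr κ (g (q - 1)) 1 0 := by
        rw [← h4, e1, fr_shift]
        rcases k4 κ with rfl | rfl | rfl | rfl
        · rw [fr_0]; apply Prod.ext <;> simp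
        · rw [fr_1]; apply Prod.ext <;> simp
        · rw [fr_2]; apply Prod.ext <;> simp
        · rw [fr_3]; apply Prod.ext <;> simp
      generalize g (q - 1) = z at h7
      rcases k4 κ with rfl | rfl | rfl | rfl <;> rcases k4 κ' with rfl | rfl | rfl | rfl <;>
        first
          | rfl
          | (exfalso
             simp only [fr_0, fr_1, fr_2, fr_3, Prod.mk.injEq] at h7
             omega)
    subst hκ
    refine ⟨κ', 1 / 2, by norm_num, key κ' (g q) q (-1) 1 (1 / 2) (by norm_num) (by norm_num)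
      (fun j hj hj' => ?_) (fun j hj hj' => ?_) (by push_cast; linarith) (by push_cast; linarith)⟩
    · obtain rfl | rfl | rfl : j = -1 ∨ j = 0 ∨ j = 1 := by omega
      · exact e1
      · rw [add_zero]
        rcases k4 κ' with rfl | rfl | rfl | rfl
        · rw [fr_0]; apply Prod.ext <;> simp
        · rw [fr_1]; apply Prod.ext <;> simp
        · rw [fr_2]; apply Prod.ext <;> simp
        · rw [fr_3]; apply Prod.ext <;> simp
      · exact h1
    · obtain rfl | rfl : j = -1 ∨ j = 0 := by omega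
      · rw [e1, cl_shift] at h5 h6
        exact ⟨by simpa using h5, by simpa using h6⟩
      · exact ⟨h2, h3⟩
  · set q := ⌊t⌋ with hq
    have hs0 : 0 < t - q := by
      have h1 := Int.floor_le t
      rcases eq_or_lt_of_le h1 with h2 | h2
      · exact absurd ⟨q, h2.symm⟩ hti
      · rw [← hq] at h2
        linarith
    have hs1 : t - q < 1 := by
      have := Int.lt_floor_add_one t
      rw [← hq] at this
      linarith
    obtain ⟨κ, h1, h2, h3⟩ := lside_fr (h.side q)
    set δ := min (t - q) (1 - (t - q)) / 2 with hδ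
    have hδ0 : 0 < δ := by
      rw [hδ]
      have : 0 < min (t - q) (1 - (t - q)) := lt_min hs0 (by linarith)
      linarith
    have hδ1 : 2 * δ ≤ t - q := by
      have := min_le_left (t - q : ℝ) (1 - (t - q))
      rw [hδ]
      linarith
    have hδ2 : 2 * δ ≤ 1 - (t - q) := by
      have := min_le_right (t - q : ℝ) (1 - (t - q))
      rw [hδ]
      linarith
    refine ⟨κ, δ, hδ0, key κ (g q) q 0 1 δ hδ0 (by linarith) (fun j hj hj' => ?_)
      (fun j hj hj' => ?_) (by push_cast; linarith) (by push_cast; linarith)⟩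
    · obtain rfl | rfl : j = 0 ∨ j = 1 := by omega
      · rw [add_zero]
        rcases k4 κ with rfl | rfl | rfl | rfl
        · rw [fr_0]; apply Prod.ext <;> simp
        · rw [fr_1]; apply Prod.ext <;> simp
        · rw [fr_2]; apply Prod.ext <;> simp
        · rw [fr_3]; apply Prod.ext <;> simp
      · exact h1
    · obtain rfl : j = 0 := by omega
      exact ⟨h2, h3⟩

/-- the boxes at a contour vertex near a flat mark -/
theorem wbox_near (h : Cont P L g) {t : ℝ} (ht : Fl g t) : ∃ δ : ℝ, 0 < δ ∧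
    ∀ n : ℕ, 0 < n → ∀ k : ℤ, |(k : ℝ) / n - t| < δ → ∀ s r R : ℤ, 0 ≤ s → s ≤ r → r < R →
      (R : ℝ) ≤ δ * n →
      WBox ZQ (rf n P) (fun i => gr n g (k + i)) R (rf n P ∩ BR (gr n g k) s) s
        (rf n P ∩ BR (gr n g k) r) r := by
  obtain ⟨κ, δ, hδ, H⟩ := flat_near h ht
  refine ⟨δ, hδ, fun n hn k hk s r R hs hsr hrR hR => ?_⟩
  obtain ⟨h1, h2⟩ := H n hn k hk R (by omega) hR
  have h3 := h1.wbox hs hsr hrR
  have e : ∀ i, -R ≤ i → i ≤ R → fr κ (gr n g k) i 0 = gr n g (k + i) := fun i hi hi' =>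
    (h2 i hi hi').symm
  refine ⟨h3.sub, h3.subF, h3.s0, h3.sr, h3.rR, fun i hi hi' => ?_, fun i i' hi hi' hj hj' he => ?_,
    fun i hi hi' => ?_, fun i hi hi' he => ?_, fun e' he => ?_, fun b hb hb' => ?_⟩
  · have := h3.side i hi hi'
    beta_reduce at this ⊢
    rw [e i hi (by omega), e (i + 1) (by omega) (by omega)] at this
    exact this
  · refine h3.inj i i' hi hi' hj hj' ?_
    beta_reduce at he ⊢
    rw [e i hi (by omega), e (i + 1) (by omega) (by omega), e i' hj (by omega),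
      e (i' + 1) (by omega) (by omega)]
    exact he
  · have := h3.memI i hi hi'
    beta_reduce at this ⊢
    rw [e i (by omega) (by omega), e (i + 1) (by omega) (by omega)] at this
    exact this
  · refine h3.memM i hi hi' ?_
    beta_reduce at he ⊢
    rw [e i hi (by omega), e (i + 1) (by omega) (by omega)]
    exact he
  · have := h3.connI e' he
    beta_reduce at this ⊢
    rw [e (-s) (by omega) (by omega)] at this
    exact this
  · have := h3.connO b hb hb'
    beta_reduce at this ⊢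
    rw [e (-r) (by omega) (by omega)] at this
    exact this

end Pool.Agent.SixB.Tilt
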