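import Pool.Agent.Lib.SixB.CAEnvF
import Pool.Agent.Lib.SixB.CAGeo
import Pool.Agent.Lib.SixB.S6LFlat
import Pool.Agent.Lib.SixB.S3Count
import Pool.Agent.Lib.SixB.S3Chart
import Pool.Agent.Lib.SixB.S6KC

/-!
# 6BD block CA, upper majorant: the contour of `rf n P` near itself and near the marks

* `gam_near`: points of the curve at small distance have parameters at small distance (mod the period);
  `gr_near`: the lattice version, uniform in the scale.
* `hit M x y b`: the interval `(x, y]` contains the contour vertex `b` mod `M`.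
* `JHot M j D c c' τ`: short arcs `(x, y]` of weight `> 1` contain `c` or `c'` and have the weight `τ`;
  `jhot_jX`, `jhot_jP`, `jhot_jN`.
-/

set_option autoImplicit false
set_option linter.unusedSectionVars false

namespace Pool.Agent.SixB.Dom

open Pool.Agent.Perc Pool.Agent.Perc.Q Pool.Agent.PercD Pool.Agent.SixB.Tilt CARf Relation

noncomputable section

variable {P : Finset (ℤ × ℤ)} {L n : ℕ} {g : ℤ → ℤ × ℤ}

/-! ### The curve near itself -/

theorem gam_pz (h : Cont P L g) (m : ℤ) (x : ℝ) : gam g (x + m * L) = gam g x := by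
  have key : ∀ (m : ℕ) (x : ℝ), gam g (x + m * L) = gam g x := by
    intro m x
    induction m with
    | zero => simp
    | succ m ih =>
      push_cast
      rw [show x + ((m : ℝ) + 1) * L = x + m * L + L by ring, gam_per h, ih]
  rcases le_total 0 m with hm | hm
  · obtain ⟨n, rfl⟩ := Int.eq_ofNat_of_zero_le hm
    exact_mod_cast key n x
  · obtain ⟨n, hn⟩ := Int.eq_ofNat_of_zero_le (neg_nonneg.2 hm)
    have h5 := key n (x + m * L)
    rw [← h5]
    congr 1
    have : (m : ℝ) = -(n : ℝ) := by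
      have : m = -(n : ℤ) := by linarith
      rw [this]; push_cast; ring
    rw [this]; ring

/-- **points of the curve at small distance have parameters at small distance** -/
theorem gam_near (h : Cont P L g) {η : ℝ} (hη : 0 < η) : ∃ ε : ℝ, 0 < ε ∧
    ∀ s t : ℝ, ‖gam g s - gam g t‖ < ε → ∃ q : ℤ, |s - t - q * L| < η := by
  have hL : (0 : ℝ) < L := by exact_mod_cast h.pos
  set K : Set (ℝ × ℝ) := (Set.Icc (0 : ℝ) L ×ˢ Set.Icc (0 : ℝ) L) ∩
    {p | ∀ q : ℤ, η ≤ |p.1 - p.2 - q * L|} with hK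
  have hcl : IsClosed {p : ℝ × ℝ | ∀ q : ℤ, η ≤ |p.1 - p.2 - q * L|} := by
    have : {p : ℝ × ℝ | ∀ q : ℤ, η ≤ |p.1 - p.2 - q * L|} =
        ⋂ q : ℤ, {p : ℝ × ℝ | η ≤ |p.1 - p.2 - q * L|} := by
      ext p; simp
    rw [this]
    refine isClosed_iInter fun q => ?_
    exact isClosed_le continuous_const (by fun_prop)
  have hKc : IsCompact K := (isCompact_Icc.prod isCompact_Icc).inter_right hcl
  have hred : ∀ s : ℝ, ∃ m : ℤ, 0 ≤ s + m * L ∧ s + m * L ≤ L := by
    intro s
    refine ⟨-⌊s / L⌋, ?_, ?_⟩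
    · have h1 := Int.floor_le (s / L)
      rw [le_div_iff₀ hL] at h1
      push_cast
      linarith
    · have h1 := Int.lt_floor_add_one (s / L)
      rw [div_lt_iff₀ hL] at h1
      push_cast
      linarith
  have hin : ∀ s t : ℝ, (∀ q : ℤ, ¬ |s - t - q * L| < η) → ∃ p ∈ K, gam g s = gam g p.1 ∧
      gam g t = gam g p.2 := by
    intro s t hst
    obtain ⟨m, hm⟩ := hred s
    obtain ⟨m', hm'⟩ := hred t
    refine ⟨(s + m * L, t + m' * L), ⟨⟨hm, hm'⟩, fun q => ?_⟩, (gam_pz h m s).symm,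
      (gam_pz h m' t).symm⟩
    have h1 := hst (q - m + m')
    rw [not_lt] at h1
    refine h1.trans (le_of_eq ?_)
    congr 1
    push_cast
    ring
  rcases Set.eq_empty_or_nonempty K with h0 | h0
  · refine ⟨1, one_pos, fun s t _ => ?_⟩
    by_contra hc
    push Not at hc
    obtain ⟨p, hp, -⟩ := hin s t fun q => not_lt.mpr (hc q)
    rw [h0] at hp
    exact hp
  · have hc : Continuous fun p : ℝ × ℝ => ‖gam g p.1 - gam g p.2‖ :=
      (((gam_cont h).comp continuous_fst).sub ((gam_cont h).comp continuous_snd)).norm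
    obtain ⟨p₀, hp₀, hmin⟩ := hKc.exists_isMinOn h0 hc.continuousOn
    refine ⟨‖gam g p₀.1 - gam g p₀.2‖, ?_, fun s t hst => ?_⟩
    · rw [norm_pos_iff, sub_ne_zero]
      intro he
      obtain ⟨m, hm⟩ := gam_inj h he
      have h1 := hp₀.2 m
      rw [hm, sub_self, abs_zero] at h1
      linarith
    · by_contra hcon
      push Not at hcon
      obtain ⟨p, hp, h1, h2⟩ := hin s t fun q => not_lt.mpr (hcon q)
      have h3 := hmin hp
      simp only [Set.mem_ofPred_eq] at h3
      rw [h1, h2] at hst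
      linarith

/-- **the lattice contour near itself**, uniformly in the scale -/
theorem gr_near (h : Cont P L g) {η : ℝ} (hη : 0 < η) : ∃ ε : ℝ, 0 < ε ∧
    ∀ n : ℕ, 0 < n → ∀ x y : ℤ, |((gr n g x).1 : ℝ) - (gr n g y).1| ≤ ε * n →
      |((gr n g x).2 : ℝ) - (gr n g y).2| ≤ ε * n →
        ∃ q : ℤ, |(x : ℝ) - y - q * (n * L)| < η * n := by
  obtain ⟨ε, hε, H⟩ := gam_near h hη
  refine ⟨ε / 4, by positivity, fun n hn x y h1 h2 => ?_⟩
  have hn0 : (0 : ℝ) < n := by exact_mod_cast hn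
  obtain ⟨q, hq⟩ := H (x / n) (y / n) (by
    rw [gam_div g hn, gam_div g hn]
    refine lt_of_le_of_lt (Complex.norm_le_abs_re_add_abs_im _) ?_
    simp only [Complex.sub_re, Complex.sub_im]
    have e1 : ((gr n g x).1 : ℝ) / n - (gr n g y).1 / n = (((gr n g x).1 : ℝ) - (gr n g y).1) / n := by
      ring
    have e2 : ((gr n g x).2 : ℝ) / n - (gr n g y).2 / n = (((gr n g x).2 : ℝ) - (gr n g y).2) / n := by
      ring
    rw [e1, e2, abs_div, abs_div, abs_of_pos hn0]
    have h3 : |((gr n g x).1 : ℝ) - (gr n g y).1| / n ≤ ε / 4 := by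
      rw [div_le_iff₀ hn0]; exact h1
    have h4 : |((gr n g x).2 : ℝ) - (gr n g y).2| / n ≤ ε / 4 := by
      rw [div_le_iff₀ hn0]; exact h2
    linarith)
  refine ⟨q, ?_⟩
  have e : (x : ℝ) - y - q * (n * L) = ((x : ℝ) / n - y / n - q * L) * n := by
    field_simp
  rw [e, abs_mul, abs_of_pos hn0]
  exact mul_lt_mul_of_pos_right hq hn0

/-! ### The weights -/

open Ht (tJ dJ)

theorem cos_pi_six : Real.cos (Real.pi / 6) = Real.sqrt 3 / 2 := Real.cos_pi_div_six

theorem abs_tJ_le (x : ℝ) : |tJ x| ≤ 2 / Real.sqrt 3 := by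
  unfold Ht.tJ
  have h3 : (0 : ℝ) < Real.sqrt 3 := by positivity
  rw [cos_pi_six, abs_div, abs_of_pos (by positivity : (0 : ℝ) < Real.sqrt 3 / 2)]
  rw [div_le_div_iff₀ (by positivity) h3]
  have := Real.abs_cos_le_one (x - Real.pi / 6)
  nlinarith

theorem abs_dJ_le (x : ℝ) : |dJ x| ≤ 2 / Real.sqrt 3 := by
  unfold Ht.dJ
  have h3 : (0 : ℝ) < Real.sqrt 3 := by positivity
  rw [cos_pi_six, abs_div, abs_of_pos (by positivity : (0 : ℝ) < Real.sqrt 3 / 2)]
  rw [div_le_div_iff₀ (by positivity) h3]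
  have := Real.abs_sin_le_one (Real.pi / 6 - x)
  nlinarith

theorem tJ_add_pi (x : ℝ) : tJ (x + Real.pi) = -tJ x := by
  unfold Ht.tJ
  rw [show x + Real.pi - Real.pi / 6 = x - Real.pi / 6 + Real.pi by ring, Real.cos_add_pi, neg_div]

theorem tJ_0 : tJ 0 = 1 := by
  unfold Ht.tJ
  rw [zero_sub, Real.cos_neg, div_self]
  rw [cos_pi_six]
  positivity

theorem tJ_1 : tJ (Real.pi / 3) = 1 := by
  have := tJ_symm 0
  rw [sub_zero, tJ_0] at this
  exact this

theorem tJ_m1 : tJ (-(Real.pi / 3)) = 0 := by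
  unfold Ht.tJ
  rw [show -(Real.pi / 3) - Real.pi / 6 = -(Real.pi / 2) by ring, Real.cos_neg, Real.cos_pi_div_two,
    zero_div]

theorem tJ_2 : tJ (2 * (Real.pi / 3)) = 0 := by
  unfold Ht.tJ
  rw [show 2 * (Real.pi / 3) - Real.pi / 6 = Real.pi / 2 by ring, Real.cos_pi_div_two, zero_div]

/-- integer multiples of `π / 3` are not hot -/
theorem abs_tJ_int (m : ℤ) : |tJ (m * (Real.pi / 3))| ≤ 1 := by
  have h3 : ∀ x : ℝ, |tJ (x + Real.pi)| = |tJ x| := fun x => by rw [tJ_add_pi, abs_neg]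
  have h4 : ∀ (q : ℤ) (x : ℝ), |tJ (x + q * Real.pi)| = |tJ x| := by
    intro q x
    have h5 : Function.Periodic (fun x => |tJ x|) Real.pi := h3
    exact h5.int_mul q x
  have h5 : (m : ℝ) * (Real.pi / 3) = ((m % 3 : ℤ) : ℝ) * (Real.pi / 3) + (m / 3 : ℤ) * Real.pi := by
    have := Int.emod_add_mul_ediv m 3
    have h6 : ((m % 3 : ℤ) : ℝ) + 3 * ((m / 3 : ℤ) : ℝ) = m := by exact_mod_cast this
    rw [← h6]
    ring
  rw [h5, h4]
  have h7 : m % 3 = 0 ∨ m % 3 = 1 ∨ m % 3 = 2 := by omega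
  rcases h7 with h | h | h <;> rw [h]
  · rw [Int.cast_zero, zero_mul, tJ_0, abs_one]
  · rw [Int.cast_one, one_mul, tJ_1, abs_one]
  · rw [Int.cast_ofNat, tJ_2, abs_zero]
    exact zero_le_one

/-- the weight of an arc over one of the marks `a2`, `a2'` -/
theorem tJ_comp (α : ℝ) : tJ ((1 - α) * (Real.pi / 3)) = tJ (α * (Real.pi / 3)) := by
  rw [show (1 - α) * (Real.pi / 3) = Real.pi / 3 - α * (Real.pi / 3) by ring, tJ_symm]

theorem one_le_tJ {α : ℝ} (h0 : 0 ≤ α) (h1 : α ≤ 1) : 1 ≤ tJ (α * (Real.pi / 3)) := by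
  unfold Ht.tJ
  have hπ := Real.pi_pos
  have hc : 0 < Real.cos (Real.pi / 6) := by rw [cos_pi_six]; positivity
  rw [le_div_iff₀ hc, one_mul]
  rcases le_total (α * (Real.pi / 3)) (Real.pi / 6) with h | h
  · rw [← Real.cos_neg (α * (Real.pi / 3) - Real.pi / 6)]
    apply Real.cos_le_cos_of_nonneg_of_le_pi <;> nlinarith
  · apply Real.cos_le_cos_of_nonneg_of_le_pi <;> nlinarith

/-! ### Jumps over short intervals -/

/-- the interval `(x, y]` contains the contour vertex `b` mod `M` -/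
def hit (M : ℕ) (x y b : ℤ) : Prop := ∃ q : ℤ, x < b + q * M ∧ b + q * M ≤ y

open Classical in
theorem csum_jN_hit {M : ℕ} (hM : 0 < M) (b : ℤ) {x y : ℤ} (hk : y < x + M) :
    csum (jN M b) x y = (if hit M x y b then 1 else 0) * (Real.pi / 3) := by
  rw [csum_jN_cases hM b hk]
  unfold hit
  split_ifs <;> ring

theorem no_two {M : ℕ} {D x y b b' : ℤ} (h1 : b + D ≤ b') (h2 : b' + D ≤ b + M) (hxy : y - x ≤ D)
    (hb : hit M x y b) (hb' : hit M x y b') : False := by
  obtain ⟨q, h3, h4⟩ := hb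
  obtain ⟨q', h5, h6⟩ := hb'
  have hM : (0 : ℤ) ≤ M := Int.natCast_nonneg M
  rcases le_or_gt q q' with h7 | h7
  · have : q * (M : ℤ) ≤ q' * M := mul_le_mul_of_nonneg_right h7 hM
    omega
  · have : (q' + 1) * (M : ℤ) ≤ q * M := mul_le_mul_of_nonneg_right h7 hM
    have h8 : (q' + 1) * (M : ℤ) = q' * M + M := by ring
    omega

/-- short intervals of weight `> 1` contain the mark `c` or the mark `c'` -/
structure JHot (M : ℕ) (j : ℤ → ℝ) (D c c' : ℤ) (τ : ℝ) : Prop where
  pos : 0 < M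
  D0 : 0 ≤ D
  per : ∀ v, j (v + M) = j v
  tot : csum j 0 M = Real.pi / 3
  hot : ∀ x y : ℤ, x < y → y - x ≤ D → y < x + M → 1 < |tJ (csum j x y)| →
    (hit M x y c ∨ hit M x y c') ∧ tJ (csum j x y) = τ

/-- the gaps between the marks are at least `D` -/
structure Gap (M : ℕ) (D i j j' l k : ℤ) : Prop where
  D0 : 0 ≤ D
  h1 : i + D ≤ j
  h2 : j + D ≤ j'
  h3 : j' + D ≤ l
  h4 : l + D ≤ k
  h5 : k + 1 + D ≤ i + M

theorem csum_jX_hit {M : ℕ} (hM : 0 < M) (α : ℝ) (i j j' l k : ℤ) {x y : ℤ} (hk : y < x + M) :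
    csum (jX M α i j j' l k) x y = csum (jN M i) x y +
      ((1 - α) * csum (jN M j) x y + α * csum (jN M j') x y) + csum (jN M l) x y -
        csum (jN M k) x y - csum (jN M (k + 1)) x y := by
  unfold csum jX
  rw [Finset.sum_sub_distrib, Finset.sum_sub_distrib, Finset.sum_add_distrib,
    Finset.sum_add_distrib, Finset.sum_add_distrib, ← Finset.mul_sum, ← Finset.mul_sum]

theorem jhot_jX {M : ℕ} {D i j j' l k : ℤ} (hG : Gap M D i j j' l k) (hM : 0 < M) (α : ℝ) :
    JHot M (jX M α i j j' l k) D j j' (tJ (α * (Real.pi / 3))) where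
  pos := hM
  D0 := hG.D0
  per := jX_per M α i j j' l k
  tot := csum_jX hM α i j j' l k
  hot x y hxy hD hk ht := by
    classical
    obtain ⟨h0, h1, h2, h3, h4, h5⟩ := hG
    rw [csum_jX_hit hM α i j j' l k hk] at ht ⊢
    rw [csum_jN_hit hM i hk, csum_jN_hit hM j hk, csum_jN_hit hM j' hk, csum_jN_hit hM l hk,
      csum_jN_hit hM k hk, csum_jN_hit hM (k + 1) hk] at ht ⊢
    by_cases hj : hit M x y j
    · have e1 : ¬ hit M x y i := fun h => no_two h1 (by omega) hD h hj
      have e2 : ¬ hit M x y j' := fun h => no_two h2 (by omega) hD hj h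
      have e3 : ¬ hit M x y l := fun h => no_two (b := j) (b' := l) (by omega) (by omega) hD hj h
      have e4 : ¬ hit M x y k := fun h => no_two (b := j) (b' := k) (by omega) (by omega) hD hj h
      have e5 : ¬ hit M x y (k + 1) := fun h =>
        no_two (b := j) (b' := k + 1) (by omega) (by omega) hD hj h
      refine ⟨Or.inl hj, ?_⟩
      rw [if_neg e1, if_pos hj, if_neg e2, if_neg e3, if_neg e4, if_neg e5]
      rw [← tJ_comp]
      congr 1
      ring
    · by_cases hj' : hit M x y j'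
      · have e1 : ¬ hit M x y i := fun h => no_two (b := i) (b' := j') (by omega) (by omega) hD h hj'
        have e3 : ¬ hit M x y l := fun h => no_two (b := j') (b' := l) (by omega) (by omega) hD hj' h
        have e4 : ¬ hit M x y k := fun h => no_two (b := j') (b' := k) (by omega) (by omega) hD hj' h
        have e5 : ¬ hit M x y (k + 1) := fun h =>
          no_two (b := j') (b' := k + 1) (by omega) (by omega) hD hj' h
        refine ⟨Or.inr hj', ?_⟩
        rw [if_neg e1, if_neg hj, if_pos hj', if_neg e3, if_neg e4, if_neg e5]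
        congr 1
        ring
      · exfalso
        rw [if_neg hj, if_neg hj'] at ht
        have hint : ∃ m : ℤ, (if hit M x y i then (1 : ℝ) else 0) * (Real.pi / 3) +
            ((1 - α) * (0 * (Real.pi / 3)) + α * (0 * (Real.pi / 3))) +
            (if hit M x y l then (1 : ℝ) else 0) * (Real.pi / 3) -
            (if hit M x y k then (1 : ℝ) else 0) * (Real.pi / 3) -
            (if hit M x y (k + 1) then (1 : ℝ) else 0) * (Real.pi / 3) = m * (Real.pi / 3) := by
          refine ⟨(if hit M x y i then 1 else 0) + (if hit M x y l then 1 else 0) -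
            (if hit M x y k then 1 else 0) - (if hit M x y (k + 1) then 1 else 0), ?_⟩
          push_cast
          ring
        obtain ⟨m, hm⟩ := hint
        rw [hm] at ht
        exact absurd (abs_tJ_int m) (not_le.mpr ht)

theorem jhot_jP {M : ℕ} {D j j' : ℤ} (h0 : 0 ≤ D) (h1 : j + D ≤ j') (h2 : j' + D ≤ j + M)
    (hM : 0 < M) (α : ℝ) :
    JHot M (jP M α j j') D j j' (tJ (α * (Real.pi / 3))) where
  pos := hM
  D0 := h0
  per := jP_per M α j j'
  tot := csum_jP hM α j j'
  hot x y hxy hD hk ht := by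
    classical
    have e0 : csum (jP M α j j') x y = (1 - α) * csum (jN M j) x y + α * csum (jN M j') x y :=
      csum_lin (jN M j) (jN M j') (1 - α) α x y
    rw [e0] at ht ⊢
    rw [csum_jN_hit hM j hk, csum_jN_hit hM j' hk] at ht ⊢
    by_cases hj : hit M x y j
    · have e2 : ¬ hit M x y j' := fun h => no_two h1 h2 hD hj h
      refine ⟨Or.inl hj, ?_⟩
      rw [if_pos hj, if_neg e2, ← tJ_comp]
      congr 1
      ring
    · by_cases hj' : hit M x y j'
      · refine ⟨Or.inr hj', ?_⟩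
        rw [if_neg hj, if_pos hj']
        congr 1
        ring
      · exfalso
        rw [if_neg hj, if_neg hj', zero_mul, mul_zero, mul_zero, add_zero, tJ_0, abs_one] at ht
        exact lt_irrefl _ ht

theorem jhot_jN {M : ℕ} {D b c c' : ℤ} (h0 : 0 ≤ D) (hM : 0 < M) (τ : ℝ) :
    JHot M (jN M b) D c c' τ where
  pos := hM
  D0 := h0
  per := jN_per M b
  tot := csum_jN hM b
  hot x y hxy hD hk ht := by
    classical
    exfalso
    rw [csum_jN_hit hM b hk] at ht
    split_ifs at ht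
    · rw [one_mul, tJ_1, abs_one] at ht
      exact lt_irrefl _ ht
    · rw [zero_mul, tJ_0, abs_one] at ht
      exact lt_irrefl _ ht

/-- the arcs from `e = (k, k + 1)` to a side near `e` have weight zero -/
theorem jX_near_e {M : ℕ} {D i j j' l k : ℤ} (hG : Gap M D i j j' l k) (hM : 0 < M) (α : ℝ)
    {x : ℤ} (h1 : k < x) (h2 : x - k ≤ D) :
    tJ (csum (jX M α i j j' l k) k x) = 0 := by
  classical
  obtain ⟨h0, g1, g2, g3, g4, g5⟩ := hG
  have hk : x < k + M := by omega
  have hD : x - k ≤ D := h2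
  rw [csum_jX_hit hM α i j j' l k hk]
  rw [csum_jN_hit hM i hk, csum_jN_hit hM j hk, csum_jN_hit hM j' hk, csum_jN_hit hM l hk,
      csum_jN_hit hM k hk, csum_jN_hit hM (k + 1) hk]
  have hk1 : hit M k x (k + 1) := ⟨0, by omega, by omega⟩
  have e1 : ¬ hit M k x i := fun h => no_two (b := i) (b' := k + 1) (by omega) (by omega) hD h hk1
  have e2 : ¬ hit M k x j := fun h => no_two (b := j) (b' := k + 1) (by omega) (by omega) hD h hk1
  have e3 : ¬ hit M k x j' := fun h => no_two (b := j') (b' := k + 1) (by omega) (by omega) hD h hk1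
  have e4 : ¬ hit M k x l := fun h => no_two (b := l) (b' := k + 1) (by omega) (by omega) hD h hk1
  have e5 : ¬ hit M k x k := by
    rintro ⟨q, h3, h4⟩
    have hM' : (0 : ℤ) < M := by exact_mod_cast hM
    have h5 : 0 < q := by
      by_contra hq
      have : q * (M : ℤ) ≤ 0 := mul_nonpos_of_nonpos_of_nonneg (not_lt.mp hq) hM'.le
      omega
    have h6 : 1 * (M : ℤ) ≤ q * M := mul_le_mul_of_nonneg_right h5 hM'.le
    omega
  rw [if_neg e1, if_neg e2, if_neg e3, if_neg e4, if_neg e5, if_pos hk1]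
  refine Eq.trans ?_ tJ_m1
  congr 1
  ring

theorem jX_near_e' {M : ℕ} {D i j j' l k : ℤ} (hG : Gap M D i j j' l k) (hM : 0 < M) (α : ℝ)
    {x : ℤ} (h1 : x < k) (h2 : k - x ≤ D) :
    tJ (csum (jX M α i j j' l k) x k) = 0 := by
  classical
  obtain ⟨h0, g1, g2, g3, g4, g5⟩ := hG
  have hk : k < x + M := by omega
  have hD : k - x ≤ D := h2
  rw [csum_jX_hit hM α i j j' l k hk]
  rw [csum_jN_hit hM i hk, csum_jN_hit hM j hk, csum_jN_hit hM j' hk, csum_jN_hit hM l hk,
      csum_jN_hit hM k hk, csum_jN_hit hM (k + 1) hk]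
  have hk1 : hit M x k k := ⟨0, by omega, by omega⟩
  have e1 : ¬ hit M x k i := fun h => no_two (b := i) (b' := k) (by omega) (by omega) hD h hk1
  have e2 : ¬ hit M x k j := fun h => no_two (b := j) (b' := k) (by omega) (by omega) hD h hk1
  have e3 : ¬ hit M x k j' := fun h => no_two (b := j') (b' := k) (by omega) (by omega) hD h hk1
  have e4 : ¬ hit M x k l := fun h => no_two (b := l) (b' := k) (by omega) (by omega) hD h hk1
  have e5 : ¬ hit M x k (k + 1) := by
    rintro ⟨q, h3, h4⟩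
    have hM' : (0 : ℤ) < M := by exact_mod_cast hM
    have h5 : q < 0 := by
      by_contra hq
      have : 0 ≤ q * (M : ℤ) := mul_nonneg (not_lt.mp hq) hM'.le
      omega
    have h6 : q * (M : ℤ) ≤ (-1) * M := mul_le_mul_of_nonneg_right (by omega) hM'.le
    omega
  rw [if_neg e1, if_neg e2, if_neg e3, if_neg e4, if_neg e5, if_pos hk1]
  refine Eq.trans ?_ tJ_m1
  congr 1
  ring

end

end Pool.Agent.SixB.Dom
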