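import Pool.Agent.Lib.SixB.CAThird
import Pool.Agent.Lib.SixB.S6Defs
import Pool.Agent.Lib.MP_6bd702_zc.Y007

/-!
# 6BD, block CA: frames at the flat points of the wall, half plane arms in a domain (helper14)

`IsFr σ p T N`: the symmetry `σ` maps the standard half plane picture to the picture with the wall
point `p`, the direction `T` of the wall and the inner normal `N`. `HArmF σ c s R`: a path of colour
`c` from the half box of radius `s` to the half circle of radius `R`.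

* `pr_HArmF_hi`: its probability is at most `C (s / R) ^ (1 / 3)`.
* `exitF`: a path of the domain which leaves the half box contains a path inside the half box.
-/

set_option autoImplicit false

namespace Pool.Agent.SixB.Third

open Finset Pool.Agent.Perc Pool.Agent.AnnH

/-- Orthogonal unit steps. -/
def Perp (T N : ℤ × ℤ) : Prop :=
  ((T.1 = 1 ∨ T.1 = -1) ∧ T.2 = 0 ∧ N.1 = 0 ∧ (N.2 = 1 ∨ N.2 = -1)) ∨
  (T.1 = 0 ∧ (T.2 = 1 ∨ T.2 = -1) ∧ (N.1 = 1 ∨ N.1 = -1) ∧ N.2 = 0)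

/-- Vertices in the frame `p, T, N`. -/
def fv (p T N w : ℤ × ℤ) : ℤ × ℤ := (p.1 + w.1 * T.1 + w.2 * N.1, p.2 + w.1 * T.2 + w.2 * N.2)

/-- Faces in the frame `p, T, N`. -/
def ff (p T N f : ℤ × ℤ) : ℤ × ℤ :=
  (p.1 + f.1 * T.1 + f.2 * N.1 + min 0 (T.1 + N.1),
    p.2 + f.1 * T.2 + f.2 * N.2 + min 0 (T.2 + N.2))

/-- The symmetry which belongs to a frame. -/
structure IsFr (σ : Sym) (p T N : ℤ × ℤ) : Prop where
  perp : Perp T N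
  v : ∀ w, σ.v w = fv p T N w
  f : ∀ f, σ.f f = ff p T N f

/-- Composition of symmetries. -/
def cmp (σ τ : Sym) : Sym where
  toHSym := σ.toHSym.comp τ.toHSym
  inv := τ.inv.comp σ.inv
  hv := by
    show σ.inv.v.trans τ.inv.v = (τ.v.trans σ.v).symm
    rw [σ.hv, τ.hv]
    rfl
  hf := by
    show σ.inv.f.trans τ.inv.f = (τ.f.trans σ.f).symm
    rw [σ.hf, τ.hf]
    rfl
  hs := by
    show σ.inv.s.trans τ.inv.s = (τ.s.trans σ.s).symm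
    rw [σ.hs, τ.hs]
    rfl
  hb := by
    show xor τ.inv.b σ.inv.b = xor σ.b τ.b
    rw [σ.hb, τ.hb, Bool.xor_comm]

theorem isFr_S (p : ℤ × ℤ) {τ : Sym} {T N : ℤ × ℤ} (h : IsFr τ (0, 0) T N) :
    IsFr (cmp (symS p.1 p.2) τ) p T N where
  perp := h.perp
  v w := by
    show (symS p.1 p.2).v (τ.v w) = _
    rw [h.v]
    ext <;> simp [symS, hsymS, fv] <;> ring
  f w := by
    show (symS p.1 p.2).f (τ.f w) = _
    rw [h.f]
    ext <;> simp [symS, hsymS, ff] <;> ring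

theorem isFr_1 : IsFr (symS 0 0) (0, 0) (1, 0) (0, 1) where
  perp := Or.inl ⟨Or.inl rfl, rfl, rfl, Or.inl rfl⟩
  v w := by ext <;> simp [symS, hsymS, fv]
  f w := by ext <;> simp [symS, hsymS, ff]

theorem isFr_X {τ : Sym} {T N : ℤ × ℤ} (h : IsFr τ (0, 0) T N) :
    IsFr (cmp (symX 0) τ) (0, 0) (-T.1, T.2) (-N.1, N.2) where
  perp := by
    rcases h.perp with ⟨h1, h2, h3, h4⟩ | ⟨h1, h2, h3, h4⟩
    · left
      simp only
      omega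
    · right
      simp only
      omega
  v w := by
    show (symX 0).v (τ.v w) = _
    rw [h.v]
    ext
    · simp [symX, hsymX, fv]
      ring
    · simp [symX, hsymX, fv]
  f w := by
    show (symX 0).f (τ.f w) = _
    rw [h.f]
    rcases h.perp with ⟨h1 | h1, h2, h3, h4 | h4⟩ | ⟨h1, h2 | h2, h3 | h3, h4⟩
    all_goals
      ext
      · simp only [symX, hsymX, ff, Equiv.coe_fn_mk]
        simp [*]
        try ring
      · simp only [symX, hsymX, ff, Equiv.coe_fn_mk]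

theorem isFr_T {τ : Sym} {T N : ℤ × ℤ} (h : IsFr τ (0, 0) T N) :
    IsFr (cmp symT τ) (0, 0) (T.2, T.1) (N.2, N.1) where
  perp := by
    rcases h.perp with ⟨h1, h2, h3, h4⟩ | ⟨h1, h2, h3, h4⟩
    · right
      simp only
      omega
    · left
      simp only
      omega
  v w := by
    show symT.v (τ.v w) = _
    rw [h.v]
    ext <;> simp [symT, hsymT, fv]
  f w := by
    show symT.f (τ.f w) = _
    rw [h.f]
    ext <;> simp [symT, hsymT, ff]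

theorem exists_fr0 {T N : ℤ × ℤ} (h : Perp T N) : ∃ σ : Sym, IsFr σ (0, 0) T N := by
  obtain ⟨t1, t2⟩ := T
  obtain ⟨n1, n2⟩ := N
  have h0 := isFr_1
  have hX := isFr_X h0
  have hT := isFr_T h0
  have hTX := isFr_T hX
  have hXT := isFr_X hT
  have hXTX := isFr_X hTX
  have hTXT := isFr_T hXT
  have hXTXT := isFr_X hTXT
  simp only [neg_zero] at h0 hX hT hTX hXT hXTX hTXT hXTXT
  rcases h with ⟨h1 | h1, h2, h3, h4 | h4⟩ | ⟨h1, h2 | h2, h3 | h3, h4⟩ <;> simp only at h1 h2 h3 h4 <;>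
    subst h1 h2 h3 h4
  · exact ⟨_, h0⟩
  · exact ⟨_, hTXT⟩
  · exact ⟨_, hX⟩
  · exact ⟨_, hXTXT⟩
  · exact ⟨_, hT⟩
  · exact ⟨_, hXT⟩
  · exact ⟨_, hTX⟩
  · exact ⟨_, hXTX⟩

theorem exists_fr (p : ℤ × ℤ) {T N : ℤ × ℤ} (h : Perp T N) : ∃ σ : Sym, IsFr σ p T N := by
  obtain ⟨τ, hτ⟩ := exists_fr0 h
  exact ⟨_, isFr_S p hτ⟩

theorem IsFr.shift {σ : Sym} {p T N : ℤ × ℤ} (h : IsFr σ p T N) (k : ℤ) :
    ∃ τ : Sym, IsFr τ (p.1 + k * T.1, p.2 + k * T.2) T N ∧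
      (∀ w : ℤ × ℤ, τ.v w = σ.v (w.1 + k, w.2)) ∧ ∀ f : ℤ × ℤ, τ.f f = σ.f (f.1 + k, f.2) := by
  obtain ⟨τ, hτ⟩ := exists_fr (p.1 + k * T.1, p.2 + k * T.2) h.perp
  refine ⟨τ, hτ, fun w => ?_, fun f => ?_⟩
  · rw [hτ.v, h.v]
    ext <;> simp only [fv] <;> ring
  · rw [hτ.f, h.f]
    ext <;> simp only [ff] <;> ring

theorem IsFr.par {σ : Sym} {p T N : ℤ × ℤ} (h : IsFr σ p T N) (w : ℤ × ℤ) :
    ((σ.v w).1 + (σ.v w).2) % 2 = (p.1 + p.2 + w.1 + w.2) % 2 := by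
  rw [h.v]
  unfold fv
  obtain ⟨t1, t2⟩ := T
  obtain ⟨n1, n2⟩ := N
  rcases h.perp with ⟨h1 | h1, h2, h3, h4 | h4⟩ | ⟨h1, h2 | h2, h3 | h3, h4⟩ <;>
    simp only at h1 h2 h3 h4 <;> subst h1 h2 h3 h4 <;> simp only <;> omega

/-- The faces of a rectangle in the frame. -/
noncomputable def bx (σ : Sym) (x₀ x₁ y₀ y₁ : ℤ) : Finset (ℤ × ℤ) := (RF x₀ x₁ y₀ y₁).image σ.f

theorem coe_bx (σ : Sym) (x₀ x₁ y₀ y₁ : ℤ) :
    (bx σ x₀ x₁ y₀ y₁ : Set (ℤ × ℤ)) = σ.f '' (RF x₀ x₁ y₀ y₁ : Set (ℤ × ℤ)) := by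
  unfold bx
  rw [Finset.coe_image]

theorem bx_mono {σ : Sym} {x₀ x₁ y₀ y₁ a₀ a₁ b₀ b₁ : ℤ} (h1 : a₀ ≤ x₀) (h2 : x₁ ≤ a₁) (h3 : b₀ ≤ y₀)
    (h4 : y₁ ≤ b₁) : bx σ x₀ x₁ y₀ y₁ ⊆ bx σ a₀ a₁ b₀ b₁ := by
  refine image_subset_image fun f hf => ?_
  rw [mem_RFi] at hf ⊢
  omega

/-- The law of an event in a frame. -/
theorem pr_fr {σ : Sym} {S D : Finset (ℤ × ℤ)} {A A' : Set Cfg}
    (hA : DepOn (S.image σ.f : Finset (ℤ × ℤ)) A) (hD : S.image σ.f ⊆ D)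
    (h : ∀ ω, σ.act ω ∈ A ↔ ω ∈ A') : pr D A = pr S A' := by
  rw [pr_eq_of_depOn hA hD, ← σ.pr_act hA]
  congr 1
  ext ω
  exact h ω

/-- A path which leaves a rectangle at the wall. -/
theorem exit0 {ω : Cfg} {F : Set (ℤ × ℤ)} {a b h : ℤ} {u w : ℤ × ℤ}
    (hF : ∀ x, a ≤ x → x < b → (x, -1) ∉ F) (hu : a ≤ u.1 ∧ u.1 ≤ b ∧ 0 ≤ u.2 ∧ u.2 ≤ h)
    (hc : Conn ω F u w) :
    (∃ v, Conn ω (RF a b 0 h) u v ∧ (v.1 = a ∨ v.1 = b ∨ v.2 = h)) ∨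
      (Conn ω (RF a b 0 h) u w ∧ a < w.1 ∧ w.1 < b ∧ 0 ≤ w.2 ∧ w.2 < h) := by
  have key : (∃ v, Conn ω (RF a b 0 h) u v ∧ (v.1 = a ∨ v.1 = b ∨ v.2 = h)) ∨
      (Conn ω (RF a b 0 h) u w ∧ a ≤ w.1 ∧ w.1 ≤ b ∧ 0 ≤ w.2 ∧ w.2 ≤ h) := by
    induction hc with
    | refl => exact Or.inr ⟨Relation.ReflTransGen.refl, hu⟩
    | @tail x y _ hb ih =>
      rcases ih with ih | ⟨ih, hx⟩
      · exact Or.inl ih
      · by_cases hxb : x.1 = a ∨ x.1 = b ∨ x.2 = h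
        · exact Or.inl ⟨x, ih, hxb⟩
        · right
          obtain ⟨i, j, hm, hbb⟩ := hb
          have hij : i = x.1 ∨ i = x.1 - 1 := by
            rcases hbb with ⟨-, ⟨rfl, -⟩ | ⟨rfl, -⟩⟩ | ⟨-, ⟨rfl, -⟩ | ⟨rfl, -⟩⟩ <;> simp
          have hij' : j = x.2 ∨ j = x.2 - 1 := by
            rcases hbb with ⟨-, ⟨rfl, -⟩ | ⟨rfl, -⟩⟩ | ⟨-, ⟨rfl, -⟩ | ⟨rfl, -⟩⟩ <;> simp
          have hj : j ≠ -1 := by
            rintro rfl
            exact hF i (by omega) (by omega) hm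
          have hm' : (i, j) ∈ (RF a b 0 h : Set (ℤ × ℤ)) := by
            rw [Finset.mem_coe, mem_RFi]
            simp only
            omega
          have hy : (y.1 = i ∨ y.1 = i + 1) ∧ (y.2 = j ∨ y.2 = j + 1) := by
            rcases hbb with ⟨-, ⟨-, rfl⟩ | ⟨-, rfl⟩⟩ | ⟨-, ⟨-, rfl⟩ | ⟨-, rfl⟩⟩ <;> simp
          refine ⟨ih.tail ⟨i, j, hm', hbb⟩, ?_⟩
          omega
  rcases key with h1 | ⟨h1, h2⟩
  · exact Or.inl h1
  · by_cases hwb : w.1 = a ∨ w.1 = b ∨ w.2 = h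
    · exact Or.inl ⟨w, h1, hwb⟩
    · right
      exact ⟨h1, by omega⟩

/-- The same in a frame. -/
theorem exitF {ω : Cfg} {σ : Sym} {F : Set (ℤ × ℤ)} {a b h : ℤ} {u w : ℤ × ℤ}
    (hF : ∀ x, a ≤ x → x < b → σ.f (x, -1) ∉ F) (hu : a ≤ u.1 ∧ u.1 ≤ b ∧ 0 ≤ u.2 ∧ u.2 ≤ h)
    (hc : Conn ω F (σ.v u) w)
    (hw : ∀ z : ℤ × ℤ, a < z.1 → z.1 < b → 0 ≤ z.2 → z.2 < h → σ.v z ≠ w) :
    ∃ v, Conn ω (bx σ a b 0 h) (σ.v u) (σ.v v) ∧ (v.1 = a ∨ v.1 = b ∨ v.2 = h) := by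
  obtain ⟨z, rfl⟩ := σ.v.surjective w
  obtain ⟨ω', rfl⟩ : ∃ ω', σ.act ω' = ω := ⟨σ.inv.act ω, σ.act_inv ω⟩
  obtain ⟨F', rfl⟩ : ∃ F' : Set (ℤ × ℤ), σ.f '' F' = F := ⟨σ.f.symm '' F, σ.f.image_symm_image F⟩
  rw [σ.conn_iff] at hc
  have h1 := exit0 (F := F') (a := a) (b := b) (h := h) (fun x h1 h2 h3 =>
    hF x h1 h2 ⟨_, h3, rfl⟩) hu hc
  rcases h1 with ⟨v, h1, h2⟩ | ⟨-, h1, h2, h3, h4⟩
  · refine ⟨v, ?_, h2⟩
    rw [coe_bx, σ.conn_iff]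
    exact h1
  · exact absurd rfl (hw z h1 h2 h3 h4)

/-- An arm of colour `c` in the frame. -/
def HArmF (σ : Sym) (c s R : ℤ) : Set Cfg :=
  {ω | ∃ u v : ℤ × ℤ, (-s ≤ u.1 ∧ u.1 ≤ s ∧ 0 ≤ u.2 ∧ u.2 ≤ s) ∧
    ((σ.v u).1 + (σ.v u).2 - c) % 2 = 0 ∧
    Conn ω (bx σ (-R) R 0 R) (σ.v u) (σ.v v) ∧ (v.1 = -R ∨ v.1 = R ∨ v.2 = R)}

theorem depOn_HArmF (σ : Sym) (c s R : ℤ) :
    DepOn (bx σ (-R) R 0 R : Set (ℤ × ℤ)) (HArmF σ c s R) := by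
  intro ω ω' h
  simp only [HArmF, Set.mem_ofPred_eq, GridA.conn_iff _ h]

theorem pr_HArmF {σ : Sym} {p T N : ℤ × ℤ} (h : IsFr σ p T N) {c : ℤ} (hc : (p.1 + p.2 - c) % 2 = 0)
    {s R : ℤ} {D : Finset (ℤ × ℤ)} (hD : bx σ (-R) R 0 R ⊆ D) :
    pr D (HArmF σ c s R) = pr (RF (-R) R 0 R) (HArm s R) := by
  refine pr_fr (σ := σ) (depOn_HArmF σ c s R) hD fun ω => ?_
  unfold HArmF HArm
  simp only [Set.mem_ofPred_eq, coe_bx, σ.conn_iff]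
  refine exists_congr fun u => exists_congr fun v => and_congr_right fun _ => and_congr_left fun _ => ?_
  have := h.par u
  omega

/-- Change of the centre. -/
theorem HArmF_shift {σ : Sym} {c s R : ℤ} (hsR : s + 1 < R) {τ : Sym}
    (hv : ∀ w : ℤ × ℤ, τ.v w = σ.v (w.1 + 1, w.2)) (hf : ∀ f : ℤ × ℤ, τ.f f = σ.f (f.1 + 1, f.2)) :
    HArmF σ c s R ⊆ HArmF τ c (s + 1) (R - 1) := by
  rintro ω ⟨u, v, hu, hpu, huv, hv'⟩
  have e : ∀ w : ℤ × ℤ, σ.v w = τ.v (w.1 - 1, w.2) := by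
    intro w
    rw [hv]
    congr 1
    ext <;> simp
  have e' : ∀ f : ℤ × ℤ, σ.f f = τ.f (f.1 - 1, f.2) := by
    intro w
    rw [hf]
    congr 1
    ext <;> simp
  rw [e u, e v] at huv
  have h1 := exitF (σ := τ) (a := -(R - 1)) (b := R - 1) (h := R - 1) (F := bx σ (-R) R 0 R)
    (u := (u.1 - 1, u.2)) (fun x _ _ hx => by
      rw [coe_bx] at hx
      obtain ⟨g, hg, hgx⟩ := hx
      rw [e' g] at hgx
      have h2 := τ.f.injective hgx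
      rw [Finset.mem_coe, mem_RFi] at hg
      simp only [Prod.mk.injEq] at h2
      omega) (by simp only; omega) huv (by
      rintro z z1 z2 z3 z4 hz
      have h2 := τ.v.injective hz
      rw [h2] at z1 z2 z3 z4
      simp only at z1 z2 z3 z4
      omega)
  obtain ⟨v', h2, h3⟩ := h1
  refine ⟨(u.1 - 1, u.2), v', by simp only; omega, ?_, h2, h3⟩
  rw [← e u]
  exact hpu

/-- Upper bound for the arm in a frame. -/
theorem pr_HArmF_hi : ∃ C : ℝ, 0 < C ∧ ∀ (σ : Sym) (p T N : ℤ × ℤ) (c : ℤ) (s R : ℕ)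
    (D : Finset (ℤ × ℤ)), IsFr σ p T N → 0 < s → 6 * s ≤ R → bx σ (-(R : ℤ)) R 0 R ⊆ D →
    pr D (HArmF σ c s R) ≤ C * ((s : ℝ) / R) ^ (1 / 3 : ℝ) := by
  obtain ⟨C, hC, h⟩ := pr_HArm_hi
  refine ⟨C * 4 ^ (1 / 3 : ℝ), by positivity, fun σ p T N c s R D hσ hs hR hD => ?_⟩
  have hs' : (1 : ℝ) ≤ s := by exact_mod_cast hs
  have hR' : (6 : ℝ) ≤ R := by exact_mod_cast (by omega : 6 ≤ R)
  rw [mul_assoc, ← Real.mul_rpow (by norm_num) (by positivity)]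
  by_cases hc : (p.1 + p.2 - c) % 2 = 0
  · rw [pr_HArmF hσ hc hD]
    refine (h s R hs (by omega)).trans ?_
    gcongr
    have : 0 ≤ (s : ℝ) / R := by positivity
    linarith
  · obtain ⟨τ, hτ, hv, hf⟩ := hσ.shift 1
    have h1 := HArmF_shift (σ := σ) (c := c) (s := (s : ℤ)) (R := (R : ℤ)) (by omega) hv hf
    have hτD : bx τ (-((R : ℤ) - 1)) ((R : ℤ) - 1) 0 ((R : ℤ) - 1) ⊆ D := by
      refine Finset.Subset.trans ?_ hD
      intro g hg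
      unfold bx at hg ⊢
      rw [mem_image] at hg ⊢
      obtain ⟨f, hf1, rfl⟩ := hg
      rw [mem_RFi] at hf1
      refine ⟨(f.1 + 1, f.2), ?_, (hf f).symm⟩
      rw [mem_RFi]
      simp only
      omega
    have hp : ((p.1 + 1 * T.1, p.2 + 1 * T.2) : ℤ × ℤ).1 + (p.1 + 1 * T.1, p.2 + 1 * T.2).2 - c =
      p.1 + p.2 + (T.1 + T.2) - c := by
      simp only
      ring
    have h2 := pr_HArmF hτ (c := c) (s := (s : ℤ) + 1) (R := (R : ℤ) - 1) (D := D) (by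
      rw [hp]
      rcases hσ.perp with ⟨h3 | h3, h4, -, -⟩ | ⟨h3, h4 | h4, -, -⟩ <;> rw [h3, h4] <;> omega) hτD
    have h3 := h (s + 1) (R - 1) (by omega) (by omega)
    have eR : ((R - 1 : ℕ) : ℝ) = R - 1 := by rw [Nat.cast_sub (by omega), Nat.cast_one]
    have eZ : ((R - 1 : ℕ) : ℤ) = R - 1 := by omega
    rw [eR, eZ] at h3
    push_cast at h3 h2
    refine (pr_mono _ fun ω hω => h1 hω).trans (h2.le.trans (h3.trans ?_))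
    have h4 : 0 ≤ ((s : ℝ) + 1) / (R - 1) := div_nonneg (by linarith) (by linarith)
    gcongr
    rw [mul_div_assoc', div_le_div_iff₀ (by linarith) (by linarith)]
    nlinarith

/-! ## Crossings from a flat piece of the wall -/

/-- Some vertex of `A` of colour `c` is joined to a vertex of `B` in `D`. -/
def CrS (D : Set (ℤ × ℤ)) (c : ℤ) (A B : Set (ℤ × ℤ)) : Set Cfg :=
  {ω | ∃ u ∈ A, ∃ v ∈ B, (u.1 + u.2 - c) % 2 = 0 ∧ Conn ω D u v}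

theorem depOn_CrS (D : Set (ℤ × ℤ)) (c : ℤ) (A B : Set (ℤ × ℤ)) : DepOn D (CrS D c A B) := by
  intro ω ω' h
  simp only [CrS, Set.mem_ofPred_eq, GridA.conn_iff _ h]

theorem incD_CrS (D : Set (ℤ × ℤ)) (c : ℤ) (A B : Set (ℤ × ℤ)) : IncD (parD c) (CrS D c A B) := by
  rintro ω ω' h ⟨u, hu, v, hv, h1, h2⟩
  exact ⟨u, hu, v, hv, h1, incD_conn c _ h1 ω ω' h h2⟩

theorem CrS_mono {D : Set (ℤ × ℤ)} {c : ℤ} {A B A' B' : Set (ℤ × ℤ)} (hA : A ⊆ A') (hB : B ⊆ B') :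
    CrS D c A B ⊆ CrS D c A' B' := by
  rintro ω ⟨u, hu, v, hv, h⟩
  exact ⟨u, hA hu, v, hB hv, h⟩

/-- The wall segment with the indices `0, …, s`. -/
def wl (σ : Sym) (s : ℤ) : Set (ℤ × ℤ) := {w | ∃ k : ℤ, 0 ≤ k ∧ k ≤ s ∧ w = σ.v (k, 0)}

theorem wl_mono {σ : Sym} {s t : ℤ} (h : s ≤ t) : wl σ s ⊆ wl σ t := by
  rintro w ⟨k, h1, h2, rfl⟩
  exact ⟨k, h1, by omega, rfl⟩

/-- `D` is a half plane in the box of radius `R`. -/
structure Flat (D : Finset (ℤ × ℤ)) (σ : Sym) (R : ℤ) : Prop where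
  ins : ∀ f : ℤ × ℤ, -R ≤ f.1 → f.1 < R → 0 ≤ f.2 → f.2 < R → σ.f f ∈ D
  out : ∀ x : ℤ, -R ≤ x → x < R → σ.f (x, -1) ∉ D

theorem Flat.bx {D : Finset (ℤ × ℤ)} {σ : Sym} {R : ℤ} (h : Flat D σ R) : bx σ (-R) R 0 R ⊆ D := by
  intro g hg
  unfold Third.bx at hg
  obtain ⟨f, hf, rfl⟩ := mem_image.1 hg
  rw [mem_RFi] at hf
  exact h.ins f hf.1 hf.2.1 hf.2.2.1 hf.2.2.2

theorem Flat.mono {D : Finset (ℤ × ℤ)} {σ : Sym} {R R' : ℤ} (h : Flat D σ R) (hR : R' ≤ R) :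
    Flat D σ R' where
  ins f h1 h2 h3 h4 := h.ins f (by omega) (by omega) h3 (by omega)
  out x h1 h2 := h.out x (by omega) (by omega)

/-- `B` does not meet the open half box. -/
def Away (σ : Sym) (R : ℤ) (B : Set (ℤ × ℤ)) : Prop :=
  ∀ z : ℤ × ℤ, -R < z.1 → z.1 < R → 0 ≤ z.2 → z.2 < R → σ.v z ∉ B

theorem CrS_sub_HArmF {D : Finset (ℤ × ℤ)} {σ : Sym} {R c s : ℤ} {B : Set (ℤ × ℤ)} (h : Flat D σ R)
    (hs : 0 ≤ s) (hsR : s ≤ R) (hB : Away σ R B) : CrS D c (wl σ s) B ⊆ HArmF σ c s R := by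
  rintro ω ⟨u, ⟨k, h1, h2, rfl⟩, v, hv, h3, h4⟩
  obtain ⟨w, h5, h6⟩ := exitF (σ := σ) (a := -R) (b := R) (h := R) (u := (k, 0))
    (fun x hx1 hx2 => h.out x hx1 hx2) (by simp only; omega) h4 (fun z z1 z2 z3 z4 e => by
      rw [← e] at hv
      exact hB z z1 z2 z3 z4 hv)
  exact ⟨(k, 0), w, by simp only; omega, h3, h5, h6⟩

/-- **Upper bound for one arm.** -/
theorem pr_CrS_hi : ∃ C : ℝ, 0 < C ∧ ∀ (D : Finset (ℤ × ℤ)) (σ : Sym) (p T N : ℤ × ℤ) (c : ℤ)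
    (s R : ℕ) (B : Set (ℤ × ℤ)), IsFr σ p T N → 0 < s → 6 * s ≤ R → Flat D σ R → Away σ R B →
    pr D (CrS D c (wl σ s) B) ≤ C * ((s : ℝ) / R) ^ (1 / 3 : ℝ) := by
  obtain ⟨C, hC, h⟩ := pr_HArmF_hi
  refine ⟨C, hC, fun D σ p T N c s R B hσ hs hR hf hB => ?_⟩
  exact (pr_mono _ fun ω hω => CrS_sub_HArmF hf (by omega) (by omega) hB hω).trans
    (h σ p T N c s R D hσ hs hR hf.bx)

/-- **Upper bound for two arms at distant places.** -/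
theorem pr_CrS_hi2 : ∃ C : ℝ, 0 < C ∧ ∀ (D : Finset (ℤ × ℤ)) (σ : Sym) (p T N : ℤ × ℤ) (c : ℤ)
    (s R : ℕ) (τ : Sym) (p' T' N' : ℤ × ℤ) (s' R' : ℕ), IsFr σ p T N → 0 < s → 6 * s ≤ R →
    Flat D σ R → IsFr τ p' T' N' → 0 < s' → 6 * s' ≤ R' → Flat D τ R' →
    Away σ R (wl τ s') → Away τ R' (wl σ s) →
    Disjoint (bx σ (-(R : ℤ)) R 0 R) (bx τ (-(R' : ℤ)) R' 0 R') →
    pr D (CrS D c (wl σ s) (wl τ s')) ≤
      C * (((s : ℝ) / R) ^ (1 / 3 : ℝ) * ((s' : ℝ) / R') ^ (1 / 3 : ℝ)) := by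
  obtain ⟨C, hC, h⟩ := pr_HArmF_hi
  refine ⟨C * C, by positivity, fun D σ p T N c s R τ p' T' N' s' R' hσ hs hR hf hτ hs' hR' hf' hB hB'
    hd => ?_⟩
  have h1 : ∀ ω ∈ CrS D c (wl σ s) (wl τ s'), ω ∈ HArmF σ c s R ∩ HArmF τ c s' R' := by
    intro ω hω
    refine ⟨CrS_sub_HArmF hf (by omega) (by omega) hB hω,
      CrS_sub_HArmF hf' (by omega) (by omega) hB' ?_⟩
    obtain ⟨u, hu, v, hv, h3, h4⟩ := hω
    have := Conn.parity h4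
    exact ⟨v, hv, u, hu, by omega, h4.symm⟩
  have h2 : pr D (HArmF σ c s R ∩ HArmF τ c s' R') =
      pr D (HArmF σ c s R) * pr D (HArmF τ c s' R') := by
    have e1 := depOn_HArmF σ c s R
    have e2 := depOn_HArmF τ c s' R'
    have e3 : DepOn ((bx σ (-(R : ℤ)) R 0 R ∪ bx τ (-(R' : ℤ)) R' 0 R' : Finset (ℤ × ℤ)) : Set (ℤ × ℤ))
        (HArmF σ c s R ∩ HArmF τ c s' R') := by
      rw [Finset.coe_union]
      exact depOn_inter' (depOn_mono' e1 Set.subset_union_left) (depOn_mono' e2 Set.subset_union_right)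
    rw [pr_eq_of_depOn e3 (Finset.union_subset hf.bx hf'.bx), pr_inter_of_disjoint e1 e2 hd,
      pr_eq_of_depOn e1 hf.bx, pr_eq_of_depOn e2 hf'.bx]
  refine (pr_mono _ h1).trans (h2.le.trans ?_)
  have h3 := h σ p T N c s R D hσ hs hR hf.bx
  have h4 := h τ p' T' N' c s' R' D hτ hs' hR' hf'.bx
  refine (mul_le_mul h3 h4 (pr_nonneg _ _) (by positivity)).trans (le_of_eq ?_)
  ring

end Pool.Agent.SixB.Third
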