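import Pool.Agent.Lib.SixB.CADomDefs
import Pool.Agent.Lib.SixB.CAFrame

/-!
# 6BD block CA, domination: the leg of a side of a flat wall

* `lg_dep`: `Lg F a c r` depends on the faces of `F` in `BR c r`;
* `lg_mono`: the leg of the large radius is a leg of the small radius;
* `lg_exit`: if the strand of `e` contains an edge outside of the box, then `Lg`;
* `lg_pr`: if `F` is a half plane near `c` up to the distance `r`, then the probability of the leg of the wall side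
  at `c` is at most `C / r` (all four directions), by `A1.pr_unit`.
-/

set_option autoImplicit false

namespace Pool.Agent.SixB.DomX

open Pool.Agent.Perc Pool.Agent.Perc.Q Pool.Agent.PercD Pool.Agent.PercN Pool.Agent.Perc6 Pool.Agent.SixB.Third
  Pool.Agent.SixB.Tilt

noncomputable section

variable {F : Finset (ℤ × ℤ)} {ω ω' : Cfg} {a b e : UE} {c v : ℤ × ℤ} {r R : ℤ} {κ : ZMod 4} {x y : ℤ}

theorem lg_congr (h : ∀ f ∈ F, f ∈ BR c r → ω f = ω' f) : Lg F a c r ω ↔ Lg F a c r ω' := by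
  unfold Lg
  rw [MM_congr' (ω := ω) (ω' := ω')]
  rintro f ⟨hf, hf'⟩
  exact h f (Finset.mem_coe.1 hf) (Finset.mem_coe.1 hf')

theorem lg_dep (F : Finset (ℤ × ℤ)) (a : UE) (c : ℤ × ℤ) (r : ℤ) :
    Dep ((F ∩ BR c r : Finset (ℤ × ℤ)) : Set (ℤ × ℤ)) (Lg F a c r) := by
  intro ω ω' h
  refine propext (lg_congr fun f hf hf' => h f ?_)
  exact Finset.mem_coe.2 (Finset.mem_inter.2 ⟨hf, hf'⟩)

open Classical in
/-- indicator of the leg -/
def lgi (F : Finset (ℤ × ℤ)) (a : UE) (c : ℤ × ℤ) (r : ℤ) (ω : Cfg) : ℝ := if Lg F a c r ω then 1 else 0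

theorem lgi_nonneg : 0 ≤ lgi F a c r ω := by unfold lgi; split_ifs <;> norm_num

theorem lgi_le_one : lgi F a c r ω ≤ 1 := by unfold lgi; split_ifs <;> norm_num

theorem lgi_of (h : Lg F a c r ω) : lgi F a c r ω = 1 := by unfold lgi; rw [if_pos h]

theorem lgi_of_not (h : ¬ Lg F a c r ω) : lgi F a c r ω = 0 := by unfold lgi; rw [if_neg h]

theorem lgi_dep (F : Finset (ℤ × ℤ)) (a : UE) (c : ℤ × ℤ) (r : ℤ) :
    Dep ((F ∩ BR c r : Finset (ℤ × ℤ)) : Set (ℤ × ℤ)) (lgi F a c r) := by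
  intro ω ω' h
  unfold lgi
  rw [lg_dep F a c r ω ω' h]

/-- the strand which has an edge outside of the box leaves the box -/
theorem lg_exit (he : InE c r a) (h : b ∈ MM ω (F : Set (ℤ × ℤ)) a) (hb : ¬ InE c r b) : Lg F a c r ω := by
  rcases Perc6.N1Aux.first_exitF he h with h1 | h1
  · exact absurd (MM_inE he (MM_mono Set.inter_subset_right h1)) hb
  · exact h1

theorem lg_mono (hr : r ≤ R) (he : InE c r a) (h : Lg F a c R ω) : Lg F a c r ω := by
  obtain ⟨b, hb, hbR⟩ := h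
  rcases hr.eq_or_lt with rfl | hlt
  · exact ⟨b, hb, hbR⟩
  · refine lg_exit he (MM_mono Set.inter_subset_left hb) fun hin => ?_
    obtain ⟨x, y, d⟩ := b
    unfold BdR BdE at hbR
    unfold InE InR at hin
    cases d <;> simp only [ua_mk, ub_false, ub_true] at hin hbR <;> omega

/-! ### The frame -/

/-- the tangent and the normal of the frame `κ` -/
def fT (κ : ZMod 4) : ℤ × ℤ := fr κ (0, 0) 1 0

/-- the normal of the frame -/
def fN (κ : ZMod 4) : ℤ × ℤ := fr κ (0, 0) 0 1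

theorem perp_fr (κ : ZMod 4) : Perp (fT κ) (fN κ) := by
  unfold Perp fT fN
  rcases Tilt.k4 κ with rfl | rfl | rfl | rfl
  · rw [fr_0, fr_0]; simp
  · rw [fr_1, fr_1]; simp
  · rw [fr_2, fr_2]; simp
  · rw [fr_3, fr_3]; simp

theorem fv_fr (κ : ZMod 4) (c : ℤ × ℤ) (x y : ℤ) : fv c (fT κ) (fN κ) (x, y) = fr κ c x y := by
  unfold fv fT fN
  rcases Tilt.k4 κ with rfl | rfl | rfl | rfl
  · simp only [fr_0]; ext <;> simp
  · simp only [fr_1]; ext <;> (simp; try ring)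
  · simp only [fr_2]; ext <;> (simp; try ring)
  · simp only [fr_3]; ext <;> (simp; try ring)

theorem ff_cl (κ : ZMod 4) (c : ℤ × ℤ) (x y : ℤ) : ff c (fT κ) (fN κ) (x, y) = cl κ c x y := by
  unfold ff fT fN
  rcases Tilt.k4 κ with rfl | rfl | rfl | rfl
  · simp only [fr_0, cl_0]; ext <;> simp
  · simp only [fr_1, cl_1]; ext <;> (simp; try ring)
  · simp only [fr_2, cl_2]; ext <;> (simp; try ring)
  · simp only [fr_3, cl_3]; ext <;> (simp; try ring)

section sym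

variable {σ : Sym} (hσ : IsFr σ c (fT κ) (fN κ))

include hσ

theorem sym_v (x y : ℤ) : σ.v (x, y) = fr κ c x y := by rw [hσ.v, fv_fr]

theorem sym_f (x y : ℤ) : σ.f (x, y) = cl κ c x y := by rw [hσ.f, ff_cl]

omit hσ in
/-- the ends of the image of an edge -/
theorem sym_s (a : UE) : (ua (σ.s a) = σ.v (ua a) ∧ ub (σ.s a) = σ.v (ub a)) ∨
    (ua (σ.s a) = σ.v (ub a) ∧ ub (σ.s a) = σ.v (ua a)) := by
  have h : Joins (σ.s a) (σ.v (ua a)) (σ.v (ub a)) := σ.joins_iff.2 (Or.inl ⟨rfl, rfl⟩)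
  rcases h with ⟨h1, h2⟩ | ⟨h1, h2⟩
  · exact Or.inl ⟨h1.symm, h2.symm⟩
  · exact Or.inr ⟨h2.symm, h1.symm⟩

theorem sym_bdR (hr : 0 < r) (a : UE) : BdR c r (σ.s a) ↔ BdR (0, 0) r a := by
  obtain ⟨x, y, d⟩ := a
  have h := sym_s (σ := σ) (x, y, d)
  obtain ⟨x', y', d', hs⟩ : ∃ x' y' d', σ.s (x, y, d) = (x', y', d') := ⟨_, _, _, rfl⟩
  rw [hs] at h ⊢
  unfold BdR BdE
  rcases Tilt.k4 κ with rfl | rfl | rfl | rfl <;> cases d <;> cases d' <;>
    simp only [ua_mk, ub_false, ub_true, sym_v hσ, fr_0, fr_1, fr_2, fr_3, Prod.mk.injEq] at h <;>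
    simp only [Bool.false_eq_true, reduceCtorEq, false_and, true_and, false_or, or_false] <;> omega

theorem sym_e : σ.s (0, 0, false) = Tilt.und (fr κ c 0 0, fr κ c 1 0) := by
  have h := sym_s (σ := σ) (0, 0, false)
  have h0 : Tilt.und (fr κ c 0 0, fr κ c 1 0) = DomMk.wE κ c 0 := rfl
  obtain ⟨x', y', d', hs⟩ : ∃ x' y' d', σ.s (0, 0, false) = (x', y', d') := ⟨_, _, _, rfl⟩
  rw [hs] at h ⊢
  rw [h0]
  rcases Tilt.k4 κ with rfl | rfl | rfl | rfl
  · rw [DomMk.wE_0]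
    cases d' <;> simp only [ua_mk, ub_false, ub_true, sym_v hσ, fr_0, Prod.mk.injEq,
      and_true, reduceCtorEq, and_false] at h ⊢ <;> omega
  · rw [DomMk.wE_1]
    cases d' <;> simp only [ua_mk, ub_false, ub_true, sym_v hσ, fr_1, Prod.mk.injEq,
      and_true, reduceCtorEq, and_false] at h ⊢ <;> omega
  · rw [DomMk.wE_2]
    cases d' <;> simp only [ua_mk, ub_false, ub_true, sym_v hσ, fr_2, Prod.mk.injEq,
      and_true, reduceCtorEq, and_false] at h ⊢ <;> omega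
  · rw [DomMk.wE_3]
    cases d' <;> simp only [ua_mk, ub_false, ub_true, sym_v hσ, fr_3, Prod.mk.injEq,
      and_true, reduceCtorEq, and_false] at h ⊢ <;> omega

theorem sym_HB (h : FlatZ F κ c r) :
    (A1.HB (0, 0) r).image σ.f = F ∩ BR c r := by
  ext f
  rw [Finset.mem_image]
  constructor
  · rintro ⟨⟨x, y⟩, hg, rfl⟩
    rw [sym_f hσ, h.mem_box le_rfl]
    have := A1.mem_HB.1 (Finset.mem_coe.2 hg)
    simp only at this
    omega
  · intro hf
    obtain ⟨x, y, rfl⟩ := exists_cl κ c f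
    rw [h.mem_box le_rfl] at hf
    refine ⟨(x, y), Finset.mem_coe.1 (A1.mem_HB.2 ?_), sym_f hσ x y⟩
    simp only
    omega

theorem sym_lg (h : FlatZ F κ c r) (hr : 0 < r) (ω : Cfg) :
    Lg F (Tilt.und (fr κ c 0 0, fr κ c 1 0)) c r (σ.act ω) ↔ ω ∈ A1.WE (0, 0) r := by
  have hH : ((F : Set (ℤ × ℤ)) ∩ (BR c r : Set (ℤ × ℤ))) = σ.f '' (A1.HB (0, 0) r : Set (ℤ × ℤ)) := by
    rw [← Finset.coe_image, sym_HB hσ h, Finset.coe_inter]
  unfold Lg
  rw [hH, ← sym_e hσ]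
  constructor
  · rintro ⟨b, hb, hb'⟩
    obtain ⟨b, rfl⟩ := σ.s.surjective b
    exact ⟨b, σ.mem_MM_iff.1 hb, (sym_bdR hσ hr b).1 hb'⟩
  · rintro ⟨b, hb, hb'⟩
    exact ⟨σ.s b, σ.mem_MM_iff.2 hb, (sym_bdR hσ hr b).2 hb'⟩

end sym

/-- **The probability of the leg of a side of a flat wall.** -/
theorem lg_pr : ∃ C : ℝ, 0 < C ∧ ∀ (F : Finset (ℤ × ℤ)) (κ : ZMod 4) (c : ℤ × ℤ) (r : ℤ), 0 < r →
    FlatZ F κ c r → av F (lgi F (Tilt.und (fr κ c 0 0, fr κ c 1 0)) c r) ≤ C / r := by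
  classical
  obtain ⟨C, hC, h⟩ := A1.pr_unit
  refine ⟨C, hC, fun F κ c r hr hF => ?_⟩
  obtain ⟨σ, hσ⟩ := exists_fr c (perp_fr κ)
  have h1 := sym_HB hσ hF
  have h2 : pr F {ω | Lg F (Tilt.und (fr κ c 0 0, fr κ c 1 0)) c r ω} =
      pr (A1.HB (0, 0) r) (A1.WE (0, 0) r) := by
    refine pr_fr (σ := σ) ?_ ?_ fun ω => sym_lg hσ hF hr ω
    · rw [h1]
      intro ω ω' hω
      have := lg_dep F (Tilt.und (fr κ c 0 0, fr κ c 1 0)) c r ω ω' hω
      rw [Set.mem_ofPred_eq, Set.mem_ofPred_eq, this]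
    · rw [h1]
      exact Finset.inter_subset_left
  have h3 := h (0, 0) r _ hr (Finset.Subset.refl _)
  rw [← h2, pr_eq_av] at h3
  refine le_trans (le_of_eq ?_) h3
  refine av_congr fun T _ => ?_
  unfold lgi
  rfl

end

end Pool.Agent.SixB.DomX
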