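import Pool.Agent.Lib.SixB.S7TopA

/-!
# Step 7, planar core: the matching of the contour, (Du) and (NC)
-/

set_option autoImplicit false

namespace Pool.Agent.SixB

open Finset Pool.Agent.Perc Pool.Agent.Perc6

variable {F : Finset (ℤ × ℤ)} {m : ℕ} {w : ℕ → ℤ × ℤ}

/-- The matching of the edges of the contour by the strands. -/
theorem exists_match (h : Ctr (F : Set (ℤ × ℤ)) m w) (ω : Cfg) :
    ∃ τ : ℕ → ℕ, ∀ i < m, τ i < m ∧ τ i ≠ i ∧ τ (τ i) = i ∧
      ∀ e, Joins e (w i) (w (i + 1)) →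
        (∀ e', Joins e' (w (τ i)) (w (τ i + 1)) → e' ∈ MM ω F e) ∧
        ∀ k < m, ∀ e', Joins e' (w k) (w (k + 1)) → e' ∈ MM ω F e → k = i ∨ k = τ i := by
  classical
  have h1 : ∀ i < m, ∃ k < m, k ≠ i ∧ ∀ e, Joins e (w i) (w (i + 1)) →
      ∀ e', Joins e' (w k) (w (k + 1)) → e' ∈ MM ω F e := by
    intro i hi
    obtain ⟨e, he, hj⟩ := h.step i hi
    obtain ⟨t, ht, htb, hte⟩ := exists_other (ω := ω) he
    obtain ⟨k, hk, hkj⟩ := h.all t htb
    refine ⟨k, hk, ?_, ?_⟩
    · rintro rfl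
      exact hte (Joins.uniq hkj hj)
    · intro e1 h1 e2 h2
      rw [Joins.uniq h1 hj, Joins.uniq h2 hkj]
      exact ht
  choose! τ hτ hne hmm using h1
  refine ⟨τ, fun i hi => ?_⟩
  have huniq : ∀ i < m, ∀ e, Joins e (w i) (w (i + 1)) → ∀ k < m, ∀ e',
      Joins e' (w k) (w (k + 1)) → e' ∈ MM ω F e → k = i ∨ k = τ i := by
    intro i hi e he k hk e' he' hm
    by_contra hno
    push Not at hno
    obtain ⟨e0, hb0, hj0⟩ := h.step i hi
    obtain ⟨e1, hb1, hj1⟩ := h.step _ (hτ i hi)
    obtain ⟨e2, hb2, hj2⟩ := h.step k hk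
    rw [Joins.uniq he hj0] at hm
    rw [Joins.uniq he' hj2] at hm
    have h3 := hmm i hi _ hj0 _ hj1
    have k1 : e1 ≠ e0 := by
      rintro rfl
      exact hne i hi (h.inj _ (hτ i hi) _ hi _ hj1 hj0)
    have k2 : e2 ≠ e0 := by
      rintro rfl
      exact hno.1 (h.inj _ hk _ hi _ hj2 hj0)
    have h4 := bdU_unique hb0 h3 hm hb1 hb2 k1 k2
    subst h4
    exact hno.2 (h.inj _ hk _ (hτ i hi) _ hj2 hj1)
  refine ⟨hτ i hi, hne i hi, ?_, fun e he => ⟨fun e' he' => hmm i hi e he e' he',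
    huniq i hi e he⟩⟩
  obtain ⟨e0, hb0, hj0⟩ := h.step i hi
  obtain ⟨e1, hb1, hj1⟩ := h.step _ (hτ i hi)
  have h3 := hmm i hi _ hj0 _ hj1
  have h4 : e0 ∈ MM ω F e1 := by
    have hs : ∀ {a b : UE}, b ∈ MM ω (F : Set (ℤ × ℤ)) a → a ∈ MM ω (F : Set (ℤ × ℤ)) b := by
      intro a b hab
      induction hab with
      | refl => exact mem_MM_self
      | tail _ hs ih =>
        obtain ⟨f, hf, hm⟩ := hs
        exact Relation.ReflTransGen.head ⟨f, hf, hm.symm⟩ ih
    exact hs h3
  rcases huniq _ (hτ i hi) _ hj1 i hi _ hj0 h4 with h5 | h5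
  · exact absurd h5.symm (hne i hi)
  · exact h5.symm

theorem par_ne_succ (h : Ctr (F : Set (ℤ × ℤ)) m w) {i : ℕ} (hi : i < m) :
    par (w i) ≠ par (w (i + 1)) := by
  obtain ⟨e, -, hj⟩ := h.step i hi
  exact hj.par_ne

theorem conn_symm {ω : Cfg} {F : Set (ℤ × ℤ)} {u v : ℤ × ℤ} (h : Conn ω F u v) :
    Conn ω F v u := by
  induction h with
  | refl => exact Relation.ReflTransGen.refl
  | tail _ hb ih => exact Relation.ReflTransGen.head hb.symm' ih

theorem conn_trans {ω : Cfg} {F : Set (ℤ × ℤ)} {u v x : ℤ × ℤ} (h : Conn ω F u v)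
    (h' : Conn ω F v x) : Conn ω F u x := Relation.ReflTransGen.trans h h'

theorem conn_mono {ω : Cfg} {F F' : Set (ℤ × ℤ)} {u v : ℤ × ℤ} (hF : F ⊆ F')
    (h : Conn ω F u v) : Conn ω F' u v := h.mono hF

/-- A sum over an interval which is invariant under an involution without fixed points. -/
theorem sum_invol (s : Finset ℕ) (τ : ℕ → ℕ) (h : ∀ i ∈ s, τ i ∈ s ∧ τ i ≠ i ∧ τ (τ i) = i) :
    ∑ _i ∈ s, (1 : ZMod 2) = 0 :=
  Finset.sum_involution (fun a _ => τ a) (fun _ _ => by decide) (fun a ha _ => (h a ha).2.1)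
    (fun a ha => (h a ha).1) (fun a ha => (h a ha).2.2)

/-- Telescoping in `ZMod 2`. -/
theorem tele2 (g : ℕ → ZMod 2) {a b : ℕ} (h : a ≤ b) :
    ∑ i ∈ Ico a b, (g i + g (i + 1)) = g a + g b := by
  induction b, h using Nat.le_induction with
  | base => simp [z2_add_self]
  | succ b hab ih =>
    rw [Finset.sum_Ico_succ_top hab, ih]
    have := z2_add_self (g b)
    linear_combination this

/-- The ends of two edges of the same strand: the ends of the same parity are joined. -/
theorem mm_ends {ω : Cfg} {e e' : UE} {p q p' q' : ℤ × ℤ} {D : Set (ℤ × ℤ)} (he : Joins e p q)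
    (he' : Joins e' p' q') (hm : e' ∈ MM ω D e) (hp : par p' = par p) : Conn ω D p p' := by
  obtain ⟨r, s, hj, hr, hc⟩ := MM_conn he hm
  obtain ⟨rfl, -⟩ := he'.of_par hj (hp.trans hr.symm)
  exact hc.mono SS_sub

/-- (Du): if `w t` is not joined to the arc `[i₁, i₂]` then the two other arcs are joined by the
other colour. -/
theorem ctr_du (h : Ctr (F : Set (ℤ × ℤ)) m w) (ω : Cfg) {t i₁ i₂ : ℕ} (ht : t < i₁)
    (h12 : i₁ ≤ i₂) (h2m : i₂ ≤ m) (hno : ∀ a, i₁ ≤ a → a ≤ i₂ → ¬ Conn ω F (w t) (w a)) :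
    ∃ b b', t < b ∧ b ≤ i₁ ∧ (b' < t ∨ i₂ ≤ b') ∧ b' ≤ m ∧ par (w b) ≠ par (w t) ∧
      Conn ω F (w b) (w b') := by
  classical
  obtain ⟨τ, hτ⟩ := exists_match h ω
  set χ : ℕ → ZMod 2 := fun i => if Conn ω F (w t) (w i) then 1 else 0 with hχ
  have hpar : ∀ {i}, Conn ω F (w t) (w i) → par (w i) = par (w t) := fun hc => hc.par_eq.symm
  -- marks are preserved
  have hmark : ∀ i < m, ∀ k < m, (∀ e, Joins e (w i) (w (i + 1)) →
      ∀ e', Joins e' (w k) (w (k + 1)) → e' ∈ MM ω F e) → χ i + χ (i + 1) = 1 →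
      χ k + χ (k + 1) = 1 := by
    intro i hi k hk hm hc
    obtain ⟨e, -, hj⟩ := h.step i hi
    obtain ⟨e', -, hj'⟩ := h.step k hk
    have hmm := hm e hj e' hj'
    have p1 := par_ne_succ h hi
    have p2 := par_ne_succ h hk
    have c1 := par_cases (w i)
    have c2 := par_cases (w (i + 1))
    have c3 := par_cases (w k)
    have c4 := par_cases (w (k + 1))
    -- the marked end
    have hor : Conn ω F (w t) (w i) ∨ Conn ω F (w t) (w (i + 1)) := by
      by_contra hn
      push Not at hn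
      simp only [hχ, if_neg hn.1, if_neg hn.2] at hc
      exact absurd hc (by decide)
    have hk' : (Conn ω F (w t) (w k) ∧ ¬ Conn ω F (w t) (w (k + 1))) ∨
        (¬ Conn ω F (w t) (w k) ∧ Conn ω F (w t) (w (k + 1))) := by
      have hx : ∀ p q, Joins e p q → Conn ω F (w t) p → (Conn ω F (w t) (w k) ∨
          Conn ω F (w t) (w (k + 1))) := by
        intro p q hpq hcp
        have cp := par_cases p
        by_cases hpk : par (w k) = par p
        · exact Or.inl (conn_trans hcp (mm_ends hpq hj' hmm hpk))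
        · exact Or.inr (conn_trans hcp (mm_ends hpq hj'.symm hmm (by omega)))
      have hy : Conn ω F (w t) (w k) ∨ Conn ω F (w t) (w (k + 1)) := by
        rcases hor with h1 | h1
        · exact hx _ _ hj h1
        · exact hx _ _ hj.symm h1
      rcases hy with h1 | h1
      · exact Or.inl ⟨h1, fun h2 => p2 ((hpar h1).trans (hpar h2).symm)⟩
      · exact Or.inr ⟨fun h2 => p2 ((hpar h2).trans (hpar h1).symm), h1⟩
    rcases hk' with ⟨h1, h2⟩ | ⟨h1, h2⟩ <;> simp [hχ, h1, h2]
  have hsum : ∑ i ∈ Ico t i₁, (χ i + χ (i + 1)) = 1 := by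
    rw [tele2 χ ht.le]
    have e1 : χ t = 1 := if_pos (show Conn ω F (w t) (w t) from Relation.ReflTransGen.refl)
    have e2 : χ i₁ = 0 := by simp only [hχ]; rw [if_neg (hno i₁ le_rfl h12)]
    rw [e1, e2]; decide
  have hex : ∃ i ∈ Ico t i₁, χ i + χ (i + 1) = 1 ∧ τ i ∉ Ico t i₁ := by
    by_contra hall
    push Not at hall
    have h1 : ∑ i ∈ Ico t i₁, (χ i + χ (i + 1)) =
        ∑ i ∈ (Ico t i₁).filter (fun i => χ i + χ (i + 1) = 1), (1 : ZMod 2) := by
      rw [Finset.sum_filter]
      refine Finset.sum_congr rfl fun i _ => ?_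
      split_ifs with hc
      · exact hc
      · rcases z2_cases (χ i + χ (i + 1)) with h0 | h0
        · exact h0
        · exact absurd h0 hc
    have h2 : ∑ i ∈ (Ico t i₁).filter (fun i => χ i + χ (i + 1) = 1), (1 : ZMod 2) = 0 := by
      refine sum_invol _ τ fun i hi => ?_
      rw [Finset.mem_filter, Finset.mem_Ico] at hi
      have him : i < m := by omega
      obtain ⟨k1, k2, k3, k4⟩ := hτ i him
      refine ⟨?_, k2, k3⟩
      rw [Finset.mem_filter]
      exact ⟨hall i (Finset.mem_Ico.2 hi.1) hi.2,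
        hmark i him _ k1 (fun e he e' he' => (k4 e he).1 e' he') hi.2⟩
    rw [h1, h2] at hsum
    exact absurd hsum (by decide)
  obtain ⟨i, hi, hmi, hout⟩ := hex
  rw [Finset.mem_Ico] at hi hout
  have him : i < m := by omega
  obtain ⟨k1, k2, k3, k4⟩ := hτ i him
  set k := τ i with hk
  have hmk := hmark i him k k1 (fun e he e' he' => (k4 e he).1 e' he') hmi
  obtain ⟨e, -, hj⟩ := h.step i him
  obtain ⟨e', -, hj'⟩ := h.step k k1
  have hmm := (k4 e hj).1 e' hj'
  have p1 := par_ne_succ h him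
  have p2 := par_ne_succ h k1
  have ct := par_cases (w t)
  have c1 := par_cases (w i)
  have c2 := par_cases (w (i + 1))
  have c3 := par_cases (w k)
  have c4 := par_cases (w (k + 1))
  -- the marked ends
  have hor : ∀ l, χ l + χ (l + 1) = 1 → Conn ω F (w t) (w l) ∨ Conn ω F (w t) (w (l + 1)) := by
    intro l hc
    by_contra hn
    push Not at hn
    simp only [hχ, if_neg hn.1, if_neg hn.2] at hc
    exact absurd hc (by decide)
  have hk2 : k < t ∨ i₂ ≤ k := by
    by_contra hn
    push Not at hn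
    have hk1 : i₁ ≤ k := by
      by_contra hlt
      exact hout ⟨hn.1, by omega⟩
    rcases hor k hmk with h1 | h1
    · exact hno k hk1 (by omega) h1
    · exact hno (k + 1) (by omega) (by omega) h1
  -- the other ends
  have hb : ∃ b, (b = i ∨ b = i + 1) ∧ par (w b) ≠ par (w t) ∧ ∃ q, Joins e (w b) q := by
    by_cases hp : par (w i) = par (w t)
    · exact ⟨i + 1, Or.inr rfl, by omega, _, hj.symm⟩
    · exact ⟨i, Or.inl rfl, hp, _, hj⟩
  have hb' : ∃ b, (b = k ∨ b = k + 1) ∧ par (w b) ≠ par (w t) ∧ ∃ q, Joins e' (w b) q := by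
    by_cases hp : par (w k) = par (w t)
    · exact ⟨k + 1, Or.inr rfl, by omega, _, hj'.symm⟩
    · exact ⟨k, Or.inl rfl, hp, _, hj'⟩
  obtain ⟨b, hb1, hb2, q, hb3⟩ := hb
  obtain ⟨b', hb1', hb2', q', hb3'⟩ := hb'
  have cb := par_cases (w b)
  have cb' := par_cases (w b')
  refine ⟨b, b', ?_, by omega, ?_, by omega, hb2, mm_ends hb3 hb3' hmm (by omega)⟩
  · rcases Nat.lt_or_ge t b with h1 | h1
    · exact h1
    · have : b = t := by omega
      rw [this] at hb2
      exact absurd rfl hb2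
  · rcases hk2 with h1 | h1
    · left
      rcases Nat.lt_or_ge b' t with h2 | h2
      · exact h2
      · have : b' = t := by omega
        rw [this] at hb2'
        exact absurd rfl hb2'
    · right; omega

/-- (NC): interleaved connections of different parities are impossible. -/
theorem ctr_nc (h : Ctr (F : Set (ℤ × ℤ)) m w) (ω : Cfg) {t a b b' : ℕ} (htb : t < b)
    (hba : b < a) (ham : a ≤ m) (hb' : b' < t ∨ a < b') (hbm : b' ≤ m)
    (hp : par (w b) ≠ par (w t)) (h1 : Conn ω F (w t) (w a)) (h2 : Conn ω F (w b) (w b')) :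
    False := by
  classical
  obtain ⟨τ, hτ⟩ := exists_match h ω
  -- the potentials
  have key : ∀ i < m, ∀ x y : ℕ, x ≤ y → y ≤ m → Conn ω F (w x) (w y) → i ∈ Ico x y →
      τ i ∈ Ico x y := by
    intro i hi x y hxy hym hc hix
    obtain ⟨k1, k2, k3, k4⟩ := hτ i hi
    obtain ⟨e, he, hj⟩ := h.step i hi
    obtain ⟨Φ, hΦ⟩ := h.pot (MM ω F e) (fun f hf => evenAt_MM hf)
    have hstep : ∀ l < m, Φ (w l) + Φ (w (l + 1)) = if l = i ∨ l = τ i then 1 else 0 := by
      intro l hl
      obtain ⟨e', ⟨⟨f, hf, hs⟩, -⟩, hj'⟩ := h.step l hl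
      have hiff := hΦ.joins hf hs hj'
      by_cases hl' : l = i ∨ l = τ i
      · rw [if_pos hl']
        have hm : e' ∈ MM ω F e := by
          rcases hl' with rfl | rfl
          · rw [Joins.uniq hj' hj]; exact mem_MM_self
          · exact (k4 e hj).1 e' hj'
        have hne := hiff.1 hm
        rcases z2_cases (Φ (w l)) with h3 | h3 <;> rcases z2_cases (Φ (w (l + 1))) with h4 | h4
        · exact absurd (h3.trans h4.symm) hne
        · rw [h3, h4]; decide
        · rw [h3, h4]; decide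
        · exact absurd (h3.trans h4.symm) hne
      · rw [if_neg hl']
        have hm : e' ∉ MM ω F e := fun hm => hl' ((k4 e hj).2 l hl e' hj' hm)
        have heq : Φ (w l) = Φ (w (l + 1)) := by
          by_contra hne
          exact hm (hiff.2 hne)
        rw [heq]; exact z2_add_self _
    have hs := tele2 (fun l => Φ (w l)) hxy
    have hceq : Φ (w x) = Φ (w y) := hΦ.conn hc
    rw [hceq, z2_add_self] at hs
    have hs2 : ∑ l ∈ Ico x y, (if l = i ∨ l = τ i then (1 : ZMod 2) else 0) = 0 := by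
      refine Eq.trans (Finset.sum_congr rfl fun l hl => ?_) hs
      rw [Finset.mem_Ico] at hl
      exact (hstep l (by omega)).symm
    by_contra hout
    have hs3 : ∑ l ∈ Ico x y, (if l = i ∨ l = τ i then (1 : ZMod 2) else 0) = 1 := by
      have : ∀ l ∈ Ico x y, (if l = i ∨ l = τ i then (1 : ZMod 2) else 0) =
          if l = i then 1 else 0 := by
        intro l hl
        have : l ≠ τ i := fun hh => hout (hh ▸ hl)
        simp [this]
      rw [Finset.sum_congr rfl this, Finset.sum_ite_eq', if_pos hix]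
    rw [hs3] at hs2
    exact absurd hs2 (by decide)
  -- the interval `[b, a)` is invariant
  have hinv : ∀ i ∈ Ico b a, τ i ∈ Ico b a ∧ τ i ≠ i ∧ τ (τ i) = i := by
    intro i hi
    rw [Finset.mem_Ico] at hi
    have him : i < m := by omega
    obtain ⟨k1, k2, k3, k4⟩ := hτ i him
    have r1 := key i him t a (by omega) ham h1 (Finset.mem_Ico.2 (by omega))
    rw [Finset.mem_Ico] at r1
    refine ⟨?_, k2, k3⟩
    rcases hb' with hb' | hb'
    · -- `τ i ∉ [b', b)`
      by_contra hout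
      rw [Finset.mem_Ico] at hout
      have r2 := key (τ i) k1 b' b (by omega) (by omega) (conn_symm h2)
        (Finset.mem_Ico.2 (by omega))
      rw [k3, Finset.mem_Ico] at r2
      omega
    · have r2 := key i him b b' (by omega) hbm h2 (Finset.mem_Ico.2 (by omega))
      rw [Finset.mem_Ico] at r2 ⊢
      omega
  have hz := sum_invol (Ico b a) τ hinv
  -- parities
  have hpar : ∀ k, b + k ≤ m → ((par (w (b + k)) : ℤ) + par (w b) + k) % 2 = 0 := by
    intro k
    induction k with
    | zero => intro _; simp; omega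
    | succ k ih =>
      intro hk
      have h3 := ih (by omega)
      have h4 := par_ne_succ h (i := b + k) (by omega)
      have h5 := par_cases (w (b + k))
      have h6 := par_cases (w (b + k + 1))
      rw [← add_assoc]
      push_cast
      omega
  have h3 := hpar (a - b) (by omega)
  rw [show b + (a - b) = a by omega] at h3
  have h4 := h1.par_eq
  have h5 := par_cases (w b)
  have h6 := par_cases (w t)
  rw [Finset.sum_const, Nat.card_Ico, nsmul_eq_mul, mul_one] at hz
  have h7 : ((a - b : ℕ) : ZMod 2) = 0 := hz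
  rw [ZMod.natCast_eq_zero_iff] at h7
  omega

end Pool.Agent.SixB
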