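import Pool.Agent.Lib.SixB.S8Fresh
import Pool.Agent.Lib.SixB.S7TopB

/-!
# 6BD, block CA: lower bound with the marked side `e`, deterministic part

`F` is a face set with contour `w`, the last side `e` has the end points `x = w 0` and `x' = w (m - 1)`.
`G` is the part of `F` in a box around `e`. Suppose that the strand of `e` in `G` leaves through a side
which is not a side of the boundary of `F`. Its potential `nP` is `0` at `x` and `1` at `x'`; it is
constant along the contour on both sides of `e`.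

`RG`: the faces of `G` on the right (`nP = 0`) which are not visited, together with the faces of
`F \ G` in the set `O`. A bond of the colour of `x'` at a vertex with `nP = 0` is never in a visited
face. So, if in `RG` there is no path of the colour of `x'` which crosses one of the annuli around the
points of the contour between `x` and the arc `[a₁, a₂]`, then `x` is joined to this arc (`right_conn`).
-/

set_option autoImplicit false

namespace Pool.Agent.SixB.Low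

open Finset Pool.Agent.Perc Pool.Agent.PercT Pool.Agent.Perc6

variable {ω η ξ : Cfg} {F G : Set (ℤ × ℤ)} {e : UE} {x x' : ℤ × ℤ}

/-! ### The normalised potential -/

open Classical in
/-- The potential of `M` in `G` which vanishes at `x`. -/
noncomputable def nP (G : Set (ℤ × ℤ)) (M : Set UE) (x : ℤ × ℤ) (z : ℤ × ℤ) : ZMod 2 :=
  if h : ∃ Φ, IsPot G M Φ then h.choose z + h.choose x else 0

theorem nP_self (G : Set (ℤ × ℤ)) (M : Set UE) (x : ℤ × ℤ) : nP G M x x = 0 := by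
  unfold nP
  split_ifs with h
  · exact CharTwo.add_self_eq_zero _
  · rfl

theorem nP_isPot (hG : HasPot G) (x : ℤ × ℤ) : IsPot G (MM ω G e) (nP G (MM ω G e) x) := by
  have h : ∃ Φ, IsPot G (MM ω G e) Φ := hG _ fun f hf => evenAt_MM hf
  have h1 := h.choose_spec.add_const (h.choose x)
  intro f hf a hs
  have h2 := h1 f hf a hs
  simp only [nP, dif_pos h]
  exact h2

/-- The faces on the right which are not visited, and the faces of `F \ G` in `O`. -/
def RG (F G O : Set (ℤ × ℤ)) (e : UE) (x : ℤ × ℤ) (ω : Cfg) : Set (ℤ × ℤ) :=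
  {f | (f ∈ G ∧ f ∉ SS ω G e ∧ nP G (MM ω G e) x f = 0) ∨ (f ∈ F ∧ f ∉ G ∧ f ∈ O)}

theorem RG_congr {O : Set (ℤ × ℤ)} (h : ∀ f ∈ SS ω G e, ω f = η f) :
    RG F G O e x η = RG F G O e x ω := by
  unfold RG
  rw [SS_congr h, MM_congr h]

theorem RG_fresh {O : Set (ℤ × ℤ)} {f : ℤ × ℤ} (h : f ∈ RG F G O e x ω) : f ∉ SS ω G e := by
  rcases h with ⟨-, h, -⟩ | ⟨-, h, -⟩
  · exact h
  · exact fun h' => h h'.1

theorem RG_sub {O : Set (ℤ × ℤ)} (hGF : G ⊆ F) : RG F G O e x ω ⊆ F := by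
  rintro f (⟨h, -, -⟩ | ⟨h, -, -⟩)
  · exact hGF h
  · exact h

theorem pot_add (he : Joins e x x') (hs : ∃ f ∈ G, IsSide f e) {Φ : ℤ × ℤ → ZMod 2}
    (hP : IsPot G (MM ω G e) Φ) : Φ x + Φ x' = 1 := by
  have h1 := hP.ne he hs
  revert h1
  generalize Φ x = a
  generalize Φ x' = b
  revert a b
  decide

theorem nP_other (hG : HasPot G) (he : Joins e x x') (hs : ∃ f ∈ G, IsSide f e) :
    nP G (MM ω G e) x x' = 1 := by
  have h1 := pot_add he hs (nP_isPot (ω := ω) (e := e) hG x)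
  rw [nP_self, zero_add] at h1
  exact h1

/-- The right faces and the left faces are disjoint. -/
theorem RG_disj {O O' : Set (ℤ × ℤ)} (hG : HasPot G) (he : Joins e x x')
    (hs : ∃ f ∈ G, IsSide f e) (hO : ∀ f ∈ F, f ∉ G → f ∈ O → f ∉ O') {f : ℤ × ℤ}
    (h1 : f ∈ RG F G O e x ω) : f ∉ RG F G O' e x' ω := by
  intro h2
  rcases h1 with ⟨k1, k2, k3⟩ | ⟨k1, k2, k3⟩ <;> rcases h2 with ⟨l1, l2, l3⟩ | ⟨l1, l2, l3⟩
  · have h : ∃ Φ, IsPot G (MM ω G e) Φ := hG _ fun f hf => evenAt_MM hf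
    unfold nP at k3 l3
    rw [dif_pos h] at k3 l3
    have h4 := pot_add he hs h.choose_spec
    have h5 : h.choose x + h.choose x' = (h.choose f + h.choose x) + (h.choose f + h.choose x') := by
      have := CharTwo.add_self_eq_zero (h.choose f)
      linear_combination -this
    rw [k3, l3, h4] at h5
    exact absurd h5 (by decide)
  · exact absurd k1 l2
  · exact absurd l1 k2
  · exact hO f k1 k2 k3 l3

/-! ### Paths of the colour of `x'` at potential `0` -/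

/-- A face with a bond of the colour of `x'` and potential `0` is not visited. -/
theorem not_visited (hG : HasPot G) (he : Joins e x x') (hs : ∃ f ∈ G, IsSide f e) {f p q : ℤ × ℤ}
    (hb : Bond ω {f} p q) (hp : par p = par x') (h0 : nP G (MM ω G e) x p = 0) :
    f ∉ SS ω G e := by
  intro hf
  have hP := nP_isPot (ω := ω) (e := e) hG x
  have h1 := (hP.ss_bond he.symm hs hf hb hp).1
  rw [h0, nP_other hG he hs] at h1
  exact absurd h1 (by decide)

/-- Paths stay in a smaller set. -/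
theorem conn_in {H U : Set (ℤ × ℤ)} {u z : ℤ × ℤ}
    (hstep : ∀ f ∈ H, ∀ p q, Bond ω {f} p q → Conn ω H u p → f ∈ U) (h : Conn ω H u z) :
    Conn ω U u z := by
  induction h with
  | refl => exact Relation.ReflTransGen.refl
  | tail h1 hb ih =>
    obtain ⟨f, hf, hb', -, -⟩ := hb.exists_face
    exact ih.tail (hb'.of_single (hstep f hf _ _ hb' h1))

/-- Inside `G`. -/
theorem conn_alpha {O H : Set (ℤ × ℤ)} (hG : HasPot G) (he : Joins e x x')
    (hs : ∃ f ∈ G, IsSide f e) (hH : H ⊆ G) {u z : ℤ × ℤ} (hu : par u = par x')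
    (h0 : nP G (MM ω G e) x u = 0) (h : Conn ω H u z) : Conn ω (RG F G O e x ω) u z := by
  refine conn_in (fun f hf p q hb hc => Or.inl ?_) h
  have hP := nP_isPot (ω := ω) (e := e) hG x
  have hc' : Conn ω G u p := Conn.mono hH hc
  have hp0 : nP G (MM ω G e) x p = 0 := by rw [← hP.conn hc', h0]
  have hpp : par p = par x' := by rw [← hc.par_eq, hu]
  have hv := not_visited hG he hs hb hpp hp0
  obtain ⟨g, hg, -, hcp, -⟩ := hb.exists_face
  rw [Set.mem_singleton_iff] at hg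
  subst hg
  refine ⟨hH hf, hv, ?_⟩
  rw [← hp0]
  exact hP.fresh (hH hf) hv ⟨Or.inl rfl, Or.inl rfl⟩ hcp

/-- Outside `G` and in faces which are known to be on the right. -/
theorem conn_beta {O H : Set (ℤ × ℤ)} (hH : H ⊆ F)
    (hO : ∀ f ∈ H, f ∉ G → f ∈ O)
    (hN : ∀ f ∈ H, f ∈ G → f ∉ SS ω G e ∧ nP G (MM ω G e) x f = 0) {u z : ℤ × ℤ}
    (h : Conn ω H u z) : Conn ω (RG F G O e x ω) u z := by
  refine Conn.mono (fun f hf => ?_) h
  by_cases hfG : f ∈ G
  · exact Or.inl ⟨hfG, hN f hf hfG⟩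
  · exact Or.inr ⟨hH hf, hfG, hO f hf hfG⟩

/-- A path stays in the box or reaches its boundary. -/
theorem conn_box {F : Set (ℤ × ℤ)} {p : ℤ × ℤ} {R : ℤ} {u v : ℤ × ℤ}
    (hu : p.1 - R ≤ u.1 ∧ u.1 ≤ p.1 + R ∧ p.2 - R ≤ u.2 ∧ u.2 ≤ p.2 + R) (h : Conn ω F u v) :
    Conn ω (F ∩ (RFb p R : Set (ℤ × ℤ))) u v ∨
      ∃ w, Conn ω (F ∩ (RFb p R : Set (ℤ × ℤ))) u w ∧
        OnBd (p.1 - R) (p.1 + R) (p.2 - R) (p.2 + R) w := by
  induction h with
  | refl => exact Or.inl Relation.ReflTransGen.refl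
  | @tail y z hc hb ih =>
    rcases ih with ih | ih
    · by_cases hy : p.1 - R < y.1 ∧ y.1 < p.1 + R ∧ p.2 - R < y.2 ∧ y.2 < p.2 + R
      · left
        obtain ⟨f, hf, hb', hcf, -⟩ := hb.exists_face
        refine ih.tail (hb'.of_single ⟨hf, ?_⟩)
        rw [mem_coe, mem_RFb]
        unfold IsCor at hcf
        omega
      · right
        obtain ⟨w', hw1, hw2⟩ := Conn.toBd (x₀ := p.1 - R) (x₁ := p.1 + R) (y₀ := p.2 - R)
          (y₁ := p.2 + R) hc hu hy
        exact ⟨w', hw1, hw2⟩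
    · exact Or.inr ih

/-! ### The right side -/

/-- The closed box. -/
def Cb (p : ℤ × ℤ) (r : ℤ) (u : ℤ × ℤ) : Prop :=
  p.1 - r ≤ u.1 ∧ u.1 ≤ p.1 + r ∧ p.2 - r ≤ u.2 ∧ u.2 ≤ p.2 + r

/-- The open box. -/
def Ob (p : ℤ × ℤ) (r : ℤ) (u : ℤ × ℤ) : Prop :=
  p.1 - r < u.1 ∧ u.1 < p.1 + r ∧ p.2 - r < u.2 ∧ u.2 < p.2 + r

/-- The faces of the balls. -/
def BO (I : Finset ((ℤ × ℤ) × ℤ)) : Set (ℤ × ℤ) := {f | ∃ i ∈ I, f ∈ RFb i.1 (4 * i.2)}

/-- No path of the colour of `x'` on the right crosses one of the annuli. -/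
def BlkR (F G : Set (ℤ × ℤ)) (I : Finset ((ℤ × ℤ) × ℤ)) (e : UE) (x x' : ℤ × ℤ) (ω : Cfg) : Set Cfg :=
  {ξ | ∀ i ∈ I, ξ ∉ FArm (par x') (RG F G (BO I) e x ω) i.1 i.2 (4 * i.2)}

/-- The geometry on the right side of `e`: the contour sides `0, …, kR - 1` and
`m - 1 - kL, …, m - 2` are sides of faces of `G`; the vertices `w b`, `0 < b ≤ a₁`, are covered by the
balls of `I`, and the part of the contour from `a₂` to `m - 1` is far away, except for the left wall. -/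
structure RSide (F G : Set (ℤ × ℤ)) (m : ℕ) (w : ℕ → ℤ × ℤ) (e : UE) (kR kL a₁ a₂ : ℕ)
    (I : Finset ((ℤ × ℤ) × ℤ)) (N : Set (ℤ × ℤ)) : Prop where
  kR_le : kR ≤ m - 1
  kL_le : kL ≤ m - 1
  m_pos : 0 < m
  lt₁ : 0 < a₁
  le₁₂ : a₁ ≤ a₂
  le₂ : a₂ ≤ m
  join : Joins e (w 0) (w (m - 1))
  side : ∃ f ∈ G, IsSide f e
  right : ∀ i < kR, ∀ a, Joins a (w i) (w (i + 1)) → ∃ f ∈ G, IsSide f a
  left : ∀ i, m - 1 - kL ≤ i → i < m - 1 → ∀ a, Joins a (w i) (w (i + 1)) → ∃ f ∈ G, IsSide f a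
  rad : ∀ i ∈ I, 0 < i.2
  cov : ∀ b, 0 < b → b ≤ a₁ → ∃ i ∈ I, Cb i.1 i.2 (w b) ∧
    ((F ∩ (RFb i.1 (4 * i.2) : Set (ℤ × ℤ)) ⊆ G ∧ b ≤ kR ∧
        ∀ b', a₂ ≤ b' → b' < m → Ob i.1 (4 * i.2) (w b') → m - 1 - kL ≤ b') ∨
      ((∀ f ∈ F, f ∈ RFb i.1 (4 * i.2) → f ∈ G → f ∈ N) ∧
        ∀ b', a₂ ≤ b' → b' < m → ¬ Ob i.1 (4 * i.2) (w b')))

variable {m : ℕ} {w : ℕ → ℤ × ℤ}

/-- The strand of `e` leaves `G` through the interior of `F`. -/
def Lv (F G : Set (ℤ × ℤ)) (e : UE) : Set Cfg :=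
  {ω | ∃ t ∈ MM ω G e, BdU G t ∧ ¬ BdU F t}

theorem bdU_GF (hGF : G ⊆ F) {a : UE} (h : BdU F a) (hs : ∃ f ∈ G, IsSide f a) : BdU G a := by
  obtain ⟨-, g, hg, hg'⟩ := h
  exact ⟨hs, g, fun h' => hg (hGF h'), hg'⟩

/-- The potential is constant along a piece of the contour which does not contain `e`. -/
theorem pot_wall (h : Ctr F m w) (hGF : G ⊆ F) (hG : HasPot G) (he : BdU F e)
    (hs : ∃ f ∈ G, IsSide f e) {ie : ℕ} (hie : ie < m) (hje : Joins e (w ie) (w (ie + 1)))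
    (hL : ω ∈ Lv F G e) {y : ℤ × ℤ} {a b : ℕ} (hab : a ≤ b) (hb : b ≤ m)
    (hne : ∀ i, a ≤ i → i < b → i ≠ ie)
    (hside : ∀ i, a ≤ i → i < b → ∀ c, Joins c (w i) (w (i + 1)) → ∃ f ∈ G, IsSide f c) :
    nP G (MM ω G e) y (w a) = nP G (MM ω G e) y (w b) := by
  obtain ⟨t, ht, htb, htF⟩ := hL
  have hP := nP_isPot (ω := ω) (e := e) hG y
  obtain ⟨n, rfl⟩ := Nat.exists_eq_add_of_le hab
  clear hab
  induction n with
  | zero => rfl
  | succ n ih =>
    rw [ih (by omega) (fun i h1 h2 => hne i h1 (by omega))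
      (fun i h1 h2 => hside i h1 (by omega))]
    obtain ⟨c, hc, hjc⟩ := h.step (a + n) (by omega)
    have hcs := hside (a + n) (by omega) (by omega) c hjc
    obtain ⟨f, hf, hfc⟩ := hcs
    by_contra hcon
    have hcM : c ∈ MM ω G e := (hP.joins hf hfc hjc).2 hcon
    have hcG : BdU G c := bdU_GF hGF hc ⟨f, hf, hfc⟩
    have heG : BdU G e := bdU_GF hGF he hs
    have hce : c ≠ e := by
      rintro rfl
      exact hne (a + n) (by omega) (by omega) (h.inj _ (by omega) _ hie _ hjc hje)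
    have hte : t ≠ e := by
      rintro rfl
      exact htF he
    have := bdU_unique heG ht hcM htb hcG hte hce
    rw [this] at htF
    exact htF hc

/-- **The right side.** If the annuli are blocked on the right, then `x` is joined to the arc. -/
theorem right_conn {F G : Finset (ℤ × ℤ)} {kR kL a₁ a₂ : ℕ} {I : Finset ((ℤ × ℤ) × ℤ)}
    {N : Set (ℤ × ℤ)} (h : Ctr (F : Set (ℤ × ℤ)) m w) (hGF : (G : Set (ℤ × ℤ)) ⊆ F)
    (hG : HasPot (G : Set (ℤ × ℤ)))
    (H : RSide (F : Set (ℤ × ℤ)) (G : Set (ℤ × ℤ)) m w e kR kL a₁ a₂ I N)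
    (hL : ω ∈ Lv (F : Set (ℤ × ℤ)) (G : Set (ℤ × ℤ)) e)
    (hN : ∀ f ∈ N, f ∈ (G : Set (ℤ × ℤ)) → f ∉ SS ω G e ∧ nP G (MM ω G e) (w 0) f = 0)
    (hB : ω ∈ BlkR (F : Set (ℤ × ℤ)) (G : Set (ℤ × ℤ)) I e (w 0) (w (m - 1)) ω) :
    ∃ a, a₁ ≤ a ∧ a ≤ a₂ ∧ Conn ω F (w 0) (w a) := by
  by_contra hcon
  push Not at hcon
  obtain ⟨b, b', hb0, hb1, hb2, hb3, hpar, hc⟩ := ctr_du h ω (t := 0) (i₁ := a₁) (i₂ := a₂) H.lt₁
    H.le₁₂ H.le₂ hcon
  have hb2' : a₂ ≤ b' := by omega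
  have hm := H.m_pos
  -- `e` is the last side
  have hje : Joins e (w (m - 1)) (w (m - 1 + 1)) := by
    rw [show m - 1 + 1 = m by omega, h.close]
    exact H.join.symm
  obtain ⟨e', he', hj'⟩ := h.step (m - 1) (by omega)
  have hee : e' = e := Joins.uniq hj' hje
  subst hee
  have hparx : par (w b) = par (w (m - 1)) := by
    have h1 := H.join.par_ne
    have h2 := par_cases (w b)
    have h3 := par_cases (w 0)
    have h4 := par_cases (w (m - 1))
    omega
  have hbm : b' ≠ m := by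
    rintro rfl
    rw [h.close] at hc
    exact hpar hc.par_eq
  have hP := nP_isPot (ω := ω) (e := e') hG (w 0)
  -- potentials along the walls
  have hR : ∀ j ≤ kR, nP G (MM ω G e') (w 0) (w j) = 0 := by
    intro j hj
    have hkR := H.kR_le
    have := pot_wall h hGF hG he' H.side (ie := m - 1) (by omega) hj' hL (y := w 0) (a := 0)
      (b := j) (Nat.zero_le _) (by omega) (fun i _ h2 => by omega)
      (fun i _ h2 c hc => H.right i (by omega) c hc)
    rw [← this, nP_self]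
  have hLf : ∀ j, m - 1 - kL ≤ j → j ≤ m - 1 → nP G (MM ω G e') (w 0) (w j) = 1 := by
    intro j h1 h2
    have := pot_wall h hGF hG he' H.side (ie := m - 1) (by omega) hj' hL (y := w 0) (a := j)
      (b := m - 1) h2 (by omega) (fun i _ h3 => by omega)
      (fun i h3 h4 c hc => H.left i (by omega) h4 c hc)
    rw [this]
    exact nP_other hG H.join H.side
  obtain ⟨i, hi, hbi, hcase⟩ := H.cov b hb0 hb1
  have hblk := hB i hi
  have hr := H.rad i hi
  have hu : i.1.1 - 4 * i.2 ≤ (w b).1 ∧ (w b).1 ≤ i.1.1 + 4 * i.2 ∧ i.1.2 - 4 * i.2 ≤ (w b).2 ∧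
      (w b).2 ≤ i.1.2 + 4 * i.2 := by
    unfold Cb at hbi
    omega
  have hcolor : ((w b).1 + (w b).2 - par (w (m - 1))) % 2 = 0 := by
    rw [← hparx]
    unfold par
    omega
  -- a path in the right faces which reaches the outer box gives an arm
  have harm : ∀ z, Conn ω (RG F G (BO I) e' (w 0) ω) (w b) z → Ob i.1 (4 * i.2) z := by
    intro z hz
    by_contra hz'
    refine hblk ⟨w b, z, hbi.1, hbi.2.1, hbi.2.2.1, hbi.2.2.2, hcolor, ?_, hz⟩
    exact hz'
  rcases hcase with ⟨hsub, hbk, hfar⟩ | ⟨hsub, hfar⟩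
  · have h0 := hR b hbk
    have hal : ∀ z, Conn ω ((F : Set (ℤ × ℤ)) ∩ (RFb i.1 (4 * i.2) : Set (ℤ × ℤ))) (w b) z →
        Conn ω (RG F G (BO I) e' (w 0) ω) (w b) z ∧ nP G (MM ω G e') (w 0) z = 0 := by
      intro z hz
      refine ⟨conn_alpha hG H.join H.side hsub hparx h0 hz, ?_⟩
      rw [← hP.conn (Conn.mono hsub hz), h0]
    rcases conn_box hu hc with h1 | ⟨z, h1, h2⟩
    · obtain ⟨h3, h4⟩ := hal _ h1
      have h5 := hfar b' hb2' (by omega) (harm _ h3)
      rw [hLf b' h5 (by omega)] at h4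
      exact absurd h4 (by decide)
    · have h3 := harm _ (hal _ h1).1
      unfold Ob at h3
      unfold OnBd at h2
      omega
  · have hbe : ∀ z, Conn ω ((F : Set (ℤ × ℤ)) ∩ (RFb i.1 (4 * i.2) : Set (ℤ × ℤ))) (w b) z →
        Conn ω (RG F G (BO I) e' (w 0) ω) (w b) z := by
      intro z hz
      exact conn_beta (O := BO I) Set.inter_subset_left (fun f hf _ => ⟨i, hi, mem_coe.1 hf.2⟩)
        (fun f hf hfG => hN f (hsub f hf.1 (mem_coe.1 hf.2) hfG) hfG) hz
    rcases conn_box hu hc with h1 | ⟨z, h1, h2⟩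
    · exact hfar b' hb2' (by omega) (harm _ (hbe _ h1))
    · have h3 := harm _ (hbe _ h1)
      unfold Ob at h3
      unfold OnBd at h2
      omega

end Pool.Agent.SixB.Low
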