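import Pool.Agent.Lib.SixB.S3Count
import Pool.Agent.Lib.MP_6bd702_z.Main

/-!
# 6BD, block CA-L, row L3: percolation inputs for the decoupling of tilted measures

`NY` is the number of arcs over `v` in the box of radius `r₀` which are neither in the box of radius `r`
nor in the annulus `r : r₀`. It is at most `YC` (`NY_le`), a count which depends only on the faces of
`F` in the annulus `r₂ : r₃`, `r₂ < r < r₃` (`depN_YC`), with exponential moments bounded by constants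
which do not depend on `r₀` (`YC_moment`). `pr_NF_pos`: the probability that a strand of `F` crosses
the annulus `r : R` is at most `C (r / R) ^ (1 / 4)`, for every set of faces `F`.
-/

set_option autoImplicit false

namespace Pool.Agent.SixB

open Finset Pool.Agent.Perc Pool.Agent.PercD Pool.Agent.PercN

variable {ω : Cfg} {v : ℤ × ℤ} {r r₀ r₂ r₃ : ℤ} {F : Set (ℤ × ℤ)} {PA PB : UE → Prop}

open Classical in
/-- The number of arcs over `v` in the box `r₀` which are neither in the box `r` nor in the annulus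
`r : r₀`. -/
noncomputable def NY (F : Set (ℤ × ℤ)) (PA PB : UE → Prop) (v : ℤ × ℤ) (r r₀ : ℤ) (ω : Cfg) : ℕ :=
  ((UB v r₀).filter fun a => PA a ∧ (∃ b ∈ MM ω (F ∩ (BR v r₀ : Set (ℤ × ℤ))) a, PB b) ∧
    (¬ ∃ b ∈ MM ω (F ∩ (BR v r : Set (ℤ × ℤ))) a, PB b) ∧
    ¬ ∃ b ∈ MM ω (F ∩ (An v r r₀ : Set (ℤ × ℤ))) a, PB b).card

/-- The bound of `NY`. -/
noncomputable def YC (F : Set (ℤ × ℤ)) (PA PB : UE → Prop) (v : ℤ × ℤ) (r₂ r r₃ : ℤ) (ω : Cfg) :
    ℕ := NF F v r₂ r ω + NF F v r r₃ ω + NB F PA PB v r₂ r₃ ω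

/-- The arcs in the box `r₀` are in the box `r`, in the annulus `r : r₀`, or counted by `NY`. -/
theorem NA_le_NY (hAB : ∀ a, PA a → ¬ PB a) (ω : Cfg) :
    NA F PA PB v r₀ ω ≤ NA F PA PB v r ω + (NB F PA PB v r r₀ ω + NY F PA PB v r r₀ ω) := by
  classical
  set T := (UB v r₀).filter fun a => PA a ∧ ∃ b ∈ MM ω (F ∩ (BR v r₀ : Set (ℤ × ℤ))) a, PB b with hT
  set T₁ := T.filter fun a => ∃ b ∈ MM ω (F ∩ (BR v r : Set (ℤ × ℤ))) a, PB b with hT₁
  set T₂ := T.filter fun a => ∃ b ∈ MM ω (F ∩ (An v r r₀ : Set (ℤ × ℤ))) a, PB b with hT₂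
  set T₃ := (UB v r₀).filter fun a => PA a ∧ (∃ b ∈ MM ω (F ∩ (BR v r₀ : Set (ℤ × ℤ))) a, PB b) ∧
    (¬ ∃ b ∈ MM ω (F ∩ (BR v r : Set (ℤ × ℤ))) a, PB b) ∧
    ¬ ∃ b ∈ MM ω (F ∩ (An v r r₀ : Set (ℤ × ℤ))) a, PB b with hT₃
  have hTcard : NA F PA PB v r₀ ω = T.card := rfl
  have hT3card : NY F PA PB v r r₀ ω = T₃.card := rfl
  have hsplit : T ⊆ T₁ ∪ (T₂ ∪ T₃) := by
    intro a ha
    by_cases h1 : a ∈ T₁
    · exact mem_union_left _ h1
    · by_cases h2 : a ∈ T₂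
      · exact mem_union_right _ (mem_union_left _ h2)
      · refine mem_union_right _ (mem_union_right _ ?_)
        have ha' := ha
        rw [hT, mem_filter] at ha'
        rw [hT₃, mem_filter]
        refine ⟨ha'.1, ha'.2.1, ha'.2.2, fun h => h1 ?_, fun h => h2 ?_⟩
        · rw [hT₁, mem_filter]; exact ⟨ha, h⟩
        · rw [hT₂, mem_filter]; exact ⟨ha, h⟩
  have c1 : T₁.card ≤ NA F PA PB v r ω := by
    unfold NA NS
    refine card_le_card fun a ha => ?_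
    rw [hT₁, mem_filter, hT, mem_filter] at ha
    obtain ⟨⟨-, h1, -⟩, b, h3, h4⟩ := ha
    rw [mem_filter]
    refine ⟨?_, h1, b, h3, h4⟩
    have hne : a ≠ b := by
      rintro rfl
      exact hAB _ h1 h4
    obtain ⟨f, hf, hs⟩ := side_of_ne (MM_symm h3) hne
    exact (inE_of_side hf.2 hs).mem_UB
  have c2 : T₂.card ≤ NB F PA PB v r r₀ ω := by
    unfold NB NS
    refine card_le_card fun a ha => ?_
    rw [hT₂, mem_filter, hT, mem_filter] at ha
    obtain ⟨⟨h0, h1, -⟩, b, h3, h4⟩ := ha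
    rw [mem_filter]
    exact ⟨h0, h1, b, h3, h4⟩
  have hfin : T.card ≤ T₁.card + (T₂.card + T₃.card) :=
    (card_le_card hsplit).trans ((card_union_le _ _).trans
      (Nat.add_le_add_left (card_union_le _ _) _))
  omega

private theorem bdF_mn {F F' : Set (ℤ × ℤ)} {a : UE} (h : F ⊆ F') (ha : BdF F' a) : BdF F a :=
  fun d hd hd' => ha d (h hd) (h hd')

/-- One radius. -/
private theorem card_le_NF {F' G : Set (ℤ × ℤ)} {S : Finset UE} {R : ℤ} (hS : Diff ω F' S)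
    (hr : 0 ≤ r) (hrR : r < R) (hG : F' ⊆ G)
    (h : ∀ b ∈ S, (∃ e ∈ MM ω F' b, InE v r e) ∧ ∃ a ∈ MM ω F' b, InE v R a → BdR v R a) :
    S.card ≤ NF G v r R ω := by
  have := card_le_sum_NF (ι := ℕ) (G := G) (R := R) hS {0} (fun _ => v) hr hrR
    (fun _ _ f hf => hG hf.1) fun b hb => ⟨0, mem_singleton_self _, h b hb⟩
  simpa using this

/-- An arc over `v` which visits the box `r` and its complement crosses one of the annuli `r₂ : r`,
`r : r₃` or is in the annulus `r₂ : r₃`. -/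
theorem NY_le (hA : ∀ a, PA a → BdF F a) (hB : ∀ a, PB a → BdF F a) (hAB : ∀ a, PA a → ¬ PB a)
    (h2 : 0 ≤ r₂) (h2r : r₂ < r) (hr3 : r < r₃) (h30 : r₃ ≤ r₀) (ω : Cfg) :
    NY F PA PB v r r₀ ω ≤ YC F PA PB v r₂ r r₃ ω := by
  classical
  set F₀ := F ∩ (BR v r₀ : Set (ℤ × ℤ)) with hF₀
  have hF₀F : F₀ ⊆ F := Set.inter_subset_left
  set T := (UB v r₀).filter fun a => PA a ∧ (∃ b ∈ MM ω F₀ a, PB b) ∧
    (¬ ∃ b ∈ MM ω (F ∩ (BR v r : Set (ℤ × ℤ))) a, PB b) ∧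
    ¬ ∃ b ∈ MM ω (F ∩ (An v r r₀ : Set (ℤ × ℤ))) a, PB b with hT
  have hTcard : NY F PA PB v r r₀ ω = T.card := rfl
  -- all members visit the box `r` and its complement
  have hin : ∀ a ∈ T, ∃ e ∈ MM ω F₀ a, InE v r e := by
    intro a ha
    rw [hT, mem_filter] at ha
    obtain ⟨h0, h1, ⟨b, h3, h4⟩, -, h6⟩ := ha
    rcases PercS5.first_exit' (F := F ∩ (An v r r₀ : Set (ℤ × ℤ))) h3 with h5 |
      ⟨c, h5, f, hf, hf', hs⟩
    · exact absurd ⟨b, h5, h4⟩ h6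
    · refine ⟨c, MM_mono ?_ h5, ?_⟩
      · rintro g ⟨hg, hg'⟩
        rw [mem_coe, mem_An] at hg'
        exact ⟨hg, mem_coe.2 hg'.1⟩
      · refine inE_of_side ?_ hs
        by_contra hc
        apply hf'
        refine ⟨hf.1, ?_⟩
        rw [mem_coe, mem_An]
        exact ⟨mem_coe.1 hf.2, fun h => hc (mem_coe.2 h)⟩
  have hout : ∀ a ∈ T, ∃ e ∈ MM ω F₀ a, InE v r e → BdR v r e := by
    intro a ha
    rw [hT, mem_filter] at ha
    obtain ⟨h0, h1, ⟨b, h3, h4⟩, h5', -⟩ := ha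
    rcases PercS5.first_exit' (F := F ∩ (BR v r : Set (ℤ × ℤ))) h3 with h5 |
      ⟨c, h5, f, hf, hf', hs⟩
    · exact absurd ⟨b, h5, h4⟩ h5'
    · refine ⟨c, MM_mono ?_ h5, fun hin => bd_of_side hin hs fun h => hf' ⟨hf.1, h⟩⟩
      exact Set.inter_subset_inter_right _ fun g hg =>
        mem_coe.2 ((Sub.refl' (by omega : r ≤ r₀)).subset (mem_coe.1 hg))
  set T₁ := T.filter fun a => ∃ e ∈ MM ω F₀ a, InE v r₂ e with hT₁
  set T₂ := T.filter fun a => ∃ e ∈ MM ω F₀ a, InE v r₃ e → BdR v r₃ e with hT₂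
  set T₃ := T.filter fun a => ∃ b ∈ MM ω (F ∩ (An v r₂ r₃ : Set (ℤ × ℤ))) a, PB b with hT₃
  have hdiff : ∀ S ⊆ T, Diff ω F₀ S := by
    intro S hS
    refine diff_over (PA := PA) (PB := PB) (fun a ha => bdF_mn hF₀F (hA a ha))
      (fun a ha => bdF_mn hF₀F (hB a ha)) hAB fun a ha => ?_
    have := hS ha
    rw [hT, mem_filter] at this
    exact ⟨this.2.1, this.2.2.1⟩
  have hsplit : T ⊆ T₁ ∪ T₂ ∪ T₃ := by
    intro a ha
    have ha' := ha
    rw [hT, mem_filter] at ha'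
    obtain ⟨h0, h1, ⟨b, h3, h4⟩, -, -⟩ := ha'
    rcases PercS5.first_exit' (F := F ∩ (An v r₂ r₃ : Set (ℤ × ℤ))) h3 with h5 |
      ⟨c, h5, f, hf, hf', hs⟩
    · exact mem_union_right _ (mem_filter.2 ⟨ha, b, h5, h4⟩)
    · have h5' : c ∈ MM ω F₀ a := by
        refine MM_mono ?_ h5
        rintro g ⟨hg, hg'⟩
        rw [mem_coe, mem_An] at hg'
        exact ⟨hg, mem_coe.2 ((Sub.refl' h30).subset hg'.1)⟩
      by_cases hfr : f ∈ (BR v r₂ : Set (ℤ × ℤ))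
      · exact mem_union_left _ (mem_union_left _ (mem_filter.2 ⟨ha, c, h5', inE_of_side hfr hs⟩))
      · refine mem_union_left _ (mem_union_right _ (mem_filter.2 ⟨ha, c, h5', fun hin =>
          bd_of_side hin hs fun h => hf' ⟨hf.1, ?_⟩⟩))
        rw [mem_coe, mem_An]
        exact ⟨mem_coe.1 h, fun h => hfr (mem_coe.2 h)⟩
  have c1 : T₁.card ≤ NF F v r₂ r ω := by
    refine card_le_NF (hdiff T₁ (filter_subset _ _)) h2 h2r hF₀F fun a ha => ?_
    rw [hT₁, mem_filter] at ha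
    exact ⟨ha.2, hout a ha.1⟩
  have c2 : T₂.card ≤ NF F v r r₃ ω := by
    refine card_le_NF (hdiff T₂ (filter_subset _ _)) (by omega) hr3 hF₀F fun a ha => ?_
    rw [hT₂, mem_filter] at ha
    exact ⟨hin a ha.1, ha.2⟩
  have c3 : T₃.card ≤ NB F PA PB v r₂ r₃ ω := by
    unfold NB NS
    refine card_le_card fun a ha => ?_
    rw [hT₃, mem_filter] at ha
    obtain ⟨haT, b, h3, h4⟩ := ha
    rw [hT, mem_filter] at haT
    have h1 := haT.2.1
    rw [mem_filter]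
    refine ⟨?_, h1, b, h3, h4⟩
    have hne : a ≠ b := by
      rintro rfl
      exact hAB _ h1 h4
    obtain ⟨f, hf, hs⟩ := side_of_ne (MM_symm h3) hne
    have hf2 := hf.2
    rw [mem_coe, mem_An] at hf2
    exact (inE_of_side (mem_coe.2 hf2.1) hs).mem_UB
  have hfin : T.card ≤ T₁.card + T₂.card + T₃.card :=
    (card_le_card hsplit).trans ((card_union_le _ _).trans
      (Nat.add_le_add_right (card_union_le _ _) _))
  unfold YC
  omega

theorem depN_YC (h2r : r₂ ≤ r) (hr3 : r ≤ r₃) (F : Set (ℤ × ℤ)) (PA PB : UE → Prop) (v : ℤ × ℤ) :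
    DepN (F ∩ (An v r₂ r₃ : Set (ℤ × ℤ))) (YC F PA PB v r₂ r r₃) := by
  intro ω ω' h
  unfold YC
  rw [depN_NB F PA PB v r₂ r₃ ω ω' h, depN_NF F v r₂ r ω ω' fun f hf => h f ⟨hf.1, ?_⟩,
    depN_NF F v r r₃ ω ω' fun f hf => h f ⟨hf.1, ?_⟩]
  · have := hf.2
    rw [mem_coe, mem_An] at this ⊢
    exact ⟨this.1, fun hc => this.2 ((Sub.refl' h2r).subset hc)⟩
  · have := hf.2
    rw [mem_coe, mem_An] at this ⊢
    exact ⟨(Sub.refl' hr3).subset this.1, this.2⟩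

/-- All exponential moments of `YC`, uniformly in the scale and in the set of faces. -/
theorem YC_moment (κ : ℕ) {lam : ℝ} (hlam : 1 ≤ lam) : ∃ C : ℝ, 0 < C ∧
    ∀ (F : Set (ℤ × ℤ)) (PA PB : UE → Prop) (v : ℤ × ℤ) (r₂ r r₃ : ℤ) (W : Finset (ℤ × ℤ)),
      (∀ a, PA a → BdF F a) → (∀ a, PB a → BdF F a) → (∀ a, PA a → ¬ PB a) → 0 < r₂ → r₂ < r →
      r < r₃ → r₃ ≤ κ * r₂ → r₂ ≤ κ * (r - r₂) → r ≤ κ * (r₃ - r) → WSep F PA PB v r₂ →
      BR v r₃ ⊆ W →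
      (∑ T ∈ W.powerset, lam ^ YC F PA PB v r₂ r r₃ (cfg T)) / 2 ^ W.card ≤ C := by
  classical
  have hl3 : 1 ≤ lam ^ 3 := one_le_pow₀ hlam
  obtain ⟨C₁, hC₁, h1⟩ := NF_moment κ hl3
  obtain ⟨C₂, hC₂, h2⟩ := NB_moment κ hl3
  refine ⟨C₁ + C₁ + C₂, by positivity, ?_⟩
  intro F PA PB v r₂ r r₃ W hA hB hAB hr2 hr21 hr3 hκ hκ' hκ'' hs hW
  have k1 := h1 F v r₂ r W hr2 hr21 hκ' ((Sub.refl' hr3.le).subset.trans hW)
  have k2 := h1 F v r r₃ W (by omega) hr3 hκ'' hW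
  have k3 := h2 F PA PB v r₂ r₃ W hA hB hAB hr2 (by omega) hκ hs hW
  refine le_trans ?_ (add_le_add (add_le_add k1 k2) k3)
  rw [← add_div, ← Finset.sum_add_distrib, ← add_div, ← Finset.sum_add_distrib]
  refine div_le_div_of_nonneg_right (Finset.sum_le_sum fun T _ => ?_) (by positivity)
  set x := NF F v r₂ r (cfg T)
  set y := NF F v r r₃ (cfg T)
  set z := NB F PA PB v r₂ r₃ (cfg T)
  show lam ^ (x + y + z) ≤ (lam ^ 3) ^ x + (lam ^ 3) ^ y + (lam ^ 3) ^ z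
  rw [← pow_mul, ← pow_mul, ← pow_mul]
  have hx : 0 ≤ lam ^ (3 * x) := by positivity
  have hy : 0 ≤ lam ^ (3 * y) := by positivity
  have hz : 0 ≤ lam ^ (3 * z) := by positivity
  rcases le_total x y with hxy | hxy
  · rcases le_total y z with hyz | hyz
    · have : lam ^ (x + y + z) ≤ lam ^ (3 * z) := pow_le_pow_right₀ hlam (by omega)
      linarith
    · have : lam ^ (x + y + z) ≤ lam ^ (3 * y) := pow_le_pow_right₀ hlam (by omega)
      linarith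
  · rcases le_total x z with hxz | hxz
    · have : lam ^ (x + y + z) ≤ lam ^ (3 * z) := pow_le_pow_right₀ hlam (by omega)
      linarith
    · have : lam ^ (x + y + z) ≤ lam ^ (3 * x) := pow_le_pow_right₀ hlam (by omega)
      linarith

/-- A strand of `F` which crosses the annulus is a strand of the plane which crosses it. -/
theorem NF_pos_sub {R : ℤ} (F : Set (ℤ × ℤ)) (hr : 0 ≤ r) :
    {ω : Cfg | 1 ≤ NF F v r R ω} ⊆ Pev v r R := by
  classical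
  intro ω h
  have h' : 1 ≤ NF F v r R ω := h
  unfold NF at h'
  obtain ⟨b, hb⟩ := card_pos.1 (Nat.lt_of_lt_of_le Nat.zero_lt_one h')
  rw [mem_filter] at hb
  obtain ⟨-, h1, a, h2, h3⟩ := hb
  refine Xev_sub_Pev hr ⟨b, h1, a, ?_, h3⟩
  refine MM_mono ?_ h2
  rintro f ⟨-, hf⟩
  exact hf

/-- The probability that a strand of `F` crosses the annulus `r : R`. -/
theorem pr_NF_pos : ∃ C : ℝ, 0 < C ∧ ∀ (F : Set (ℤ × ℤ)) (v : ℤ × ℤ) (r R : ℕ)
    (W : Finset (ℤ × ℤ)), 1 ≤ r → r ≤ R → BR v (R : ℤ) ⊆ W →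
    pr W {ω | 1 ≤ NF F v (r : ℤ) (R : ℤ) ω} ≤ C * ((r : ℝ) / R) ^ (1 / 4 : ℝ) := by
  obtain ⟨C, hC, h⟩ := pi_bound upperHyp tailHyp
  refine ⟨C, hC, fun F v r R W hr hrR hW => ?_⟩
  refine (pr_mono W (NF_pos_sub F (by positivity))).trans ?_
  rw [pr_eq_of_depOn (depOn_Pev v r R) hW]
  exact h v r R hr hrR

end Pool.Agent.SixB
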