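import Pool.Agent.Lib.SixB.CADomLowA
import Pool.Agent.Lib.SixB.A1Final
import Pool.Agent.Lib.SixB.S6LPerc

/-!
# 6BD, block CA: lower bound with the marked side `e`, probability

`LowEv`: the strand of `e` leaves `G`, does not visit the faces of `N` and the annuli on the right and
on the left are blocked. `pr_low`: the probability is at least `c ^ (number of annuli)` times the
probability that the strand of `e` leaves `G` and does not visit `N` (the right faces and the left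
faces are disjoint and fresh).
-/

set_option autoImplicit false

namespace Pool.Agent.SixB.Low

open Finset Pool.Agent.Perc Pool.Agent.PercD Pool.Agent.PercN Pool.Agent.PercT Pool.Agent.Perc6

variable {ω η ξ : Cfg} {e : UE} {x x' : ℤ × ℤ}

/-! ### Harris -/

/-- Finitely many blocking annuli of one colour. -/
theorem pr_blks : ∃ c : ℝ, 0 < c ∧ c ≤ 1 ∧ ∀ (col : ℤ) (I : Finset ((ℤ × ℤ) × ℤ)) (W : Finset (ℤ × ℤ)),
    (∀ i ∈ I, 0 < i.2) → (∀ i ∈ I, RFb i.1 (4 * i.2) ⊆ W) →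
    c ^ I.card ≤ pr W {ω | ∀ i ∈ I, ω ∈ Blk col i.1 i.2} := by
  classical
  obtain ⟨c, hc, h⟩ := pr_Blk
  refine ⟨min c 1, lt_min hc one_pos, min_le_right _ _, ?_⟩
  intro col I W
  induction I using Finset.induction_on with
  | empty =>
    intro _ _
    have : {ω : Cfg | ∀ i ∈ (∅ : Finset ((ℤ × ℤ) × ℤ)), ω ∈ Blk col i.1 i.2} = Set.univ := by
      ext; simp
    rw [this, card_empty, pow_zero]
    have h0 := pr_compl W (∅ : Set Cfg)
    rw [Set.compl_empty] at h0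
    have h1 : pr W (∅ : Set Cfg) = 0 := by
      rw [ProbA.pr_eq_sum, Finset.sum_eq_zero, zero_div]
      intro T _
      rw [if_neg (Set.notMem_empty _)]
    rw [h0, h1, sub_zero]
  | insert a I ha ih =>
    intro hr hW
    have h1 := ih (fun i hi => hr i (mem_insert_of_mem hi)) (fun i hi => hW i (mem_insert_of_mem hi))
    have h2 : min c 1 ≤ pr W (Blk col a.1 a.2) := (min_le_left _ _).trans
      (h col a.1 a.2 W (hr a (mem_insert_self _ _))
        (sdiff_subset.trans (hW a (mem_insert_self _ _))))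
    have hdep : ∀ i ∈ insert a I, DepOn (W : Set (ℤ × ℤ)) (Blk col i.1 i.2) := fun i hi =>
      depOn_mono' (depOn_Blk (hr i hi)) (coe_subset.2 (sdiff_subset.trans (hW i hi)))
    have hd : DepOn (W : Set (ℤ × ℤ)) {ω | ∀ i ∈ I, ω ∈ Blk col i.1 i.2} := by
      intro ω ω' hω
      simp only [Set.mem_ofPred_eq]
      exact forall₂_congr fun i hi => hdep i (mem_insert_of_mem hi) ω ω' hω
    have hi : IncD (parD (col + 1)) {ω | ∀ i ∈ I, ω ∈ Blk col i.1 i.2} := by
      intro ω ω' hω hA i hi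
      exact incD_Blk col i.1 i.2 ω ω' hω (hA i hi)
    have h3 := harris (parD (col + 1)) (hdep a (mem_insert_self _ _)) hd
      (incD_Blk col a.1 a.2) hi
    have e1 : Blk col a.1 a.2 ∩ {ω | ∀ i ∈ I, ω ∈ Blk col i.1 i.2} =
        {ω | ∀ i ∈ insert a I, ω ∈ Blk col i.1 i.2} := by
      ext ω
      simp [mem_insert, or_imp, forall_and]
    rw [e1] at h3
    rw [card_insert_of_notMem ha, pow_succ, mul_comm]
    refine le_trans (mul_le_mul h2 h1 (by positivity) (pr_nonneg _ _)) h3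

/-- The annuli are blocked on the right. -/
theorem pr_blkR : ∃ c : ℝ, 0 < c ∧ c ≤ 1 ∧ ∀ (F G : Set (ℤ × ℤ)) (I : Finset ((ℤ × ℤ) × ℤ)) (e : UE)
    (x x' : ℤ × ℤ) (ω : Cfg) (W : Finset (ℤ × ℤ)), (∀ i ∈ I, 0 < i.2) →
    RG F G (BO I) e x ω ⊆ (W : Set (ℤ × ℤ)) → c ^ I.card ≤ pr W (BlkR F G I e x x' ω) := by
  obtain ⟨c, hc, hc1, h⟩ := pr_blks
  refine ⟨c, hc, hc1, fun F G I e x x' ω W hr hW => ?_⟩
  have hdep : DepOn (RG F G (BO I) e x ω) (BlkR F G I e x x' ω) := by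
    intro η η' hη
    simp only [BlkR, Set.mem_ofPred_eq]
    exact forall₂_congr fun i _ => not_congr (depOn_fArm _ _ _ _ _ η η' hη)
  classical
  set W' := W ∪ I.biUnion fun i => RFb i.1 (4 * i.2) with hW'
  have e1 : pr W' (BlkR F G I e x x' ω) = pr W (BlkR F G I e x x' ω) :=
    pr_eq_of_depOn (depOn_mono' hdep hW) subset_union_left
  rw [← e1]
  refine (h (par x') I W' hr fun i hi => ?_).trans (pr_mono _ fun ξ hξ i hi hA => ?_)
  · exact (subset_biUnion_of_mem (fun i : (ℤ × ℤ) × ℤ => RFb i.1 (4 * i.2)) hi).trans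
      subset_union_right
  · have h1 := blk_not_arm (hr i hi) (hξ i hi)
    exact h1 (fArm_subset_armB (by have := hr i hi; omega) hA)

/-! ### The event -/

/-- The strand of `e` leaves `G` and does not visit `N`. -/
def LvN (F G : Set (ℤ × ℤ)) (e : UE) (N : Set (ℤ × ℤ)) : Set Cfg :=
  {ω | ω ∈ Lv F G e ∧ ∀ f ∈ N, f ∉ SS ω G e}

/-- The strand of `e` leaves `G`, does not visit `N`, and the annuli of `I` are blocked on the right
(side of `x`), the annuli of `J` on the left. -/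
def LowEv (F G : Set (ℤ × ℤ)) (I J : Finset ((ℤ × ℤ) × ℤ)) (N : Set (ℤ × ℤ)) (e : UE) (x x' : ℤ × ℤ) :
    Set Cfg :=
  {ω | ω ∈ LvN F G e N ∧ ω ∈ BlkR F G I e x x' ω ∧ ω ∈ BlkR F G J e x' x ω}

theorem blkR_congr {F G : Set (ℤ × ℤ)} {I : Finset ((ℤ × ℤ) × ℤ)} {D : Set (ℤ × ℤ)}
    (hD : G ⊆ D) (hD' : ∀ f ∈ F, f ∈ BO I → f ∈ D) (h : ∀ f ∈ D, ω f = η f) :
    ω ∈ BlkR F G I e x x' ω ↔ η ∈ BlkR F G I e x x' η := by
  have h1 : RG F G (BO I) e x η = RG F G (BO I) e x ω :=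
    RG_congr fun f hf => h f (hD hf.1)
  simp only [BlkR, Set.mem_ofPred_eq, h1]
  refine forall₂_congr fun i _ => not_congr (depOn_fArm _ _ _ _ _ ω η fun f hf => h f ?_)
  rcases hf with ⟨h2, -, -⟩ | ⟨h2, -, h3⟩
  · exact hD h2
  · exact hD' f h2 h3

/-- The event depends on the faces of `G` and on the faces of `F` in the balls. -/
theorem depOn_lowEv (F G : Set (ℤ × ℤ)) (I J : Finset ((ℤ × ℤ) × ℤ)) (N : Set (ℤ × ℤ)) (e : UE)
    (x x' : ℤ × ℤ) : DepOn (G ∪ (F ∩ (BO I ∪ BO J))) (LowEv F G I J N e x x') := by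
  intro ω η h
  have hG : ∀ f ∈ G, ω f = η f := fun f hf => h f (Or.inl hf)
  have e1 : MM η G e = MM ω G e := MM_congr fun f hf => hG f hf.1
  have e2 : SS η G e = SS ω G e := SS_congr fun f hf => hG f hf.1
  simp only [LowEv, LvN, Lv, Set.mem_ofPred_eq, e1, e2]
  have k1 := blkR_congr (F := F) (G := G) (I := I) (e := e) (x := x) (x' := x')
    (D := G ∪ (F ∩ (BO I ∪ BO J))) Set.subset_union_left
    (fun f hf hf' => Or.inr ⟨hf, Or.inl hf'⟩) h
  have k2 := blkR_congr (F := F) (G := G) (I := J) (e := e) (x := x') (x' := x)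
    (D := G ∪ (F ∩ (BO I ∪ BO J))) Set.subset_union_left
    (fun f hf hf' => Or.inr ⟨hf, Or.inr hf'⟩) h
  rw [k1, k2]

/-- **Both sides are blocked with positive conditional probability.** -/
theorem pr_low : ∃ c : ℝ, 0 < c ∧ c ≤ 1 ∧ ∀ (F G : Set (ℤ × ℤ)) (I J : Finset ((ℤ × ℤ) × ℤ))
    (N : Set (ℤ × ℤ)) (e : UE) (x x' : ℤ × ℤ) (W : Finset (ℤ × ℤ)), (∀ i ∈ I, 0 < i.2) →
    (∀ i ∈ J, 0 < i.2) → HasPot G → Joins e x x' → (∃ f ∈ G, IsSide f e) →
    (∀ f ∈ F, f ∉ G → f ∈ BO I → f ∉ BO J) → G ⊆ F → F ⊆ (W : Set (ℤ × ℤ)) →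
    c ^ (I.card + J.card) * pr W (LvN F G e N) ≤ pr W (LowEv F G I J N e x x') := by
  classical
  obtain ⟨c, hc, hc1, h⟩ := pr_blkR
  refine ⟨c, hc, hc1, fun F G I J N e x x' W hI hJ hG he hs hIJ hGF hFW => ?_⟩
  refine pr_mix (S := fun ω => SS ω G e) (fun ω ω' h => SS_congr h) (LvN F G e N)
    (fun ω => BlkR F G I e x x' ω ∩ BlkR F G J e x' x ω) _ ?_ ?_
  · intro ω _
    have s1 : RG F G (BO I) e x ω ⊆ (W : Set (ℤ × ℤ)) := (RG_sub hGF).trans hFW
    have s2 : RG F G (BO J) e x' ω ⊆ (W : Set (ℤ × ℤ)) := (RG_sub hGF).trans hFW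
    set A := W.filter fun f => f ∈ RG F G (BO I) e x ω with hA
    set B := W.filter fun f => f ∈ RG F G (BO J) e x' ω with hB
    have cA : (A : Set (ℤ × ℤ)) = RG F G (BO I) e x ω := by
      ext f
      rw [hA, mem_coe, mem_filter]
      exact ⟨fun h => h.2, fun h => ⟨mem_coe.1 (s1 h), h⟩⟩
    have cB : (B : Set (ℤ × ℤ)) = RG F G (BO J) e x' ω := by
      ext f
      rw [hB, mem_coe, mem_filter]
      exact ⟨fun h => h.2, fun h => ⟨mem_coe.1 (s2 h), h⟩⟩
    have dA : DepOn (A : Set (ℤ × ℤ)) (BlkR F G I e x x' ω) := by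
      rw [cA]
      intro η η' hη
      simp only [BlkR, Set.mem_ofPred_eq]
      exact forall₂_congr fun i _ => not_congr (depOn_fArm _ _ _ _ _ η η' hη)
    have dB : DepOn (B : Set (ℤ × ℤ)) (BlkR F G J e x' x ω) := by
      rw [cB]
      intro η η' hη
      simp only [BlkR, Set.mem_ofPred_eq]
      exact forall₂_congr fun i _ => not_congr (depOn_fArm _ _ _ _ _ η η' hη)
    have hdis : Disjoint A B := by
      rw [disjoint_left]
      intro f hf hf'
      have h1 : f ∈ RG F G (BO I) e x ω := by rw [← cA]; exact mem_coe.2 hf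
      have h2 : f ∈ RG F G (BO J) e x' ω := by rw [← cB]; exact mem_coe.2 hf'
      exact RG_disj hG he hs hIJ h1 h2
    rw [pr_indep dA dB hdis (filter_subset _ _) (filter_subset _ _), pow_add]
    refine mul_le_mul ?_ ?_ (by positivity) (pr_nonneg _ _)
    · exact h F G I e x x' ω A hI (by rw [cA])
    · exact h F G J e x' x ω B hJ (by rw [cB])
  · rintro ω hω ξ ⟨h1, h2⟩
    have hag : ∀ f ∈ SS ω G e, ω f = mix (SS ω G e) ω ξ f := fun f hf => (mix_of_mem hf).symm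
    have e1 : MM (mix (SS ω G e) ω ξ) G e = MM ω G e := MM_congr hag
    have e2 : SS (mix (SS ω G e) ω ξ) G e = SS ω G e := SS_congr hag
    have key : ∀ (K : Finset ((ℤ × ℤ) × ℤ)) (y y' : ℤ × ℤ), ξ ∈ BlkR F G K e y y' ω →
        mix (SS ω G e) ω ξ ∈ BlkR F G K e y y' (mix (SS ω G e) ω ξ) := by
      intro K y y' hK
      have h3 : RG F G (BO K) e y (mix (SS ω G e) ω ξ) = RG F G (BO K) e y ω := RG_congr hag
      simp only [BlkR, Set.mem_ofPred_eq, h3] at hK ⊢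
      intro i hi hcon
      refine hK i hi ((depOn_fArm _ _ _ _ _ _ _ fun f hf => ?_).1 hcon)
      exact mix_of_notMem (RG_fresh hf)
    refine ⟨⟨?_, ?_⟩, key I x x' h1, key J x' x h2⟩
    · obtain ⟨t, ht, hb⟩ := hω.1
      exact ⟨t, by rw [e1]; exact ht, hb⟩
    · intro f hf
      rw [e2]
      exact hω.2 f hf

end Pool.Agent.SixB.Low
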