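import Pool.Agent.Lib.SixB.S3Fe
import Pool.Agent.Lib.SixB.S6LPerc

/-!
# 6BD, block CA, lower domination, the corners of the half box

`corner_le`: the strand of a unit edge of a straight wall, explored until it leaves the half box of
radius `R`, visits a box of radius `r` whose centre is at distance at least `3 R / 4` from the edge
with probability at most `(C / R) (r / R) ^ (1 / 4)`.

`free_lower`: with probability at least half of the probability that the strand leaves the half box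
it does so without visiting the boxes of radius `r` around the two corners of the half box on the
wall, for `r ≤ ρ R`.
-/

set_option autoImplicit false

namespace Pool.Agent.SixB.DLCor

open Finset Pool.Agent.Perc Pool.Agent.PercD Pool.Agent.PercN Pool.Agent.Perc6 Pool.Agent.SixB.A1

variable {ω : Cfg} {v q : ℤ × ℤ} {r R : ℤ}

/-- The strand of the wall edge at `v` in the half box of radius `R` visits the box of radius `r`
around `q`. -/
def Vis (v : ℤ × ℤ) (R : ℤ) (q : ℤ × ℤ) (r : ℤ) : Set Cfg :=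
  {ω | ∃ f ∈ SS ω (HB v R : Set (ℤ × ℤ)) (v.1, v.2, false), f ∈ (BR q r : Set (ℤ × ℤ))}

theorem depOn_Vis (v : ℤ × ℤ) (R : ℤ) (q : ℤ × ℤ) (r : ℤ) :
    DepOn (HB v R : Set (ℤ × ℤ)) (Vis v R q r) := by
  intro ω ω' h
  unfold Vis
  rw [Set.mem_ofPred_eq, Set.mem_ofPred_eq]
  unfold SS
  rw [MM_congr' (ω := ω) (ω' := ω') (F := (HB v R : Set (ℤ × ℤ))) fun f hf => h f hf]

/-- The two centres are far from each other. -/
def Far (v q : ℤ × ℤ) (R : ℤ) : Prop :=
  3 * R ≤ 4 * |q.1 - v.1| ∨ 3 * R ≤ 4 * |q.2 - v.2|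

theorem vis_we {s : ℤ} (hs1 : 1 ≤ s) (hs : 4 * s ≤ R) (hr : 4 * r ≤ R) (hF : Far v q R)
    {ω : Cfg} (h : ω ∈ Vis v R q r) : ω ∈ WE v s := by
  obtain ⟨f, ⟨hf, a, ha, hfa⟩, hfq⟩ := h
  have hina : InE q r a := inE_of_side hfq hfa
  have hine : InE v s (v.1, v.2, false) := by
    unfold InE InR
    simp only [ua_mk, ub_false]
    omega
  have habs : ∀ z : ℤ, |z| = z ∨ |z| = -z := abs_choice
  have hnot : ¬ InE v s a := by
    intro hc
    unfold InE at hc hina
    obtain ⟨x, y, d⟩ := a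
    unfold InR at hc hina
    unfold Far at hF
    cases d <;> simp only [ua_mk, ub_false, ub_true] at hc hina <;>
    rcases habs (q.1 - v.1) with h1 | h1 <;> rcases habs (q.2 - v.2) with h2 | h2 <;> omega
  rcases Perc6.N1Aux.first_exitF hine ha with h1 | ⟨b, h1, h2⟩
  · exact absurd (MM_inE hine (MM_mono Set.inter_subset_right h1)) hnot
  · refine ⟨b, MM_mono ?_ h1, h2⟩
    rintro g ⟨hg, hg'⟩
    rw [mem_HB] at hg ⊢
    rw [mem_BR'] at hg'
    omega

theorem vis_nf {s : ℤ} (hr : 1 ≤ r) (hrs : r ≤ s) (hs : 4 * s ≤ R) (hF : Far v q R)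
    {ω : Cfg} (h : ω ∈ Vis v R q r) : 1 ≤ NF (HB v R : Set (ℤ × ℤ)) q r s ω := by
  classical
  obtain ⟨f, ⟨hf, a, ha, hfa⟩, hfq⟩ := h
  have hina : InE q r a := inE_of_side hfq hfa
  have habs : ∀ z : ℤ, |z| = z ∨ |z| = -z := abs_choice
  have hnote : ¬ InE q s (v.1, v.2, false) := by
    intro hc
    unfold InE InR at hc
    unfold Far at hF
    simp only [ua_mk, ub_false] at hc
    rcases habs (q.1 - v.1) with h1 | h1 <;> rcases habs (q.2 - v.2) with h2 | h2 <;> omega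
  have he : ((v.1, v.2, false) : UE) ∈ MM ω (HB v R : Set (ℤ × ℤ)) a := MM_symm ha
  rcases PercS5.last_exit' hina he with h4 | ⟨b, hb1, hb2, hb3⟩
  · exfalso
    refine hnote ?_
    unfold InE InR at h4 ⊢
    omega
  · have hin' : InE q s b := by
      have := hb2.inE (by omega : 0 ≤ r)
      unfold InE InR at this ⊢
      omega
    have hsub : (((HB v R : Set (ℤ × ℤ)) \ (BR q r : Set (ℤ × ℤ))) ∩ (BR q s : Set (ℤ × ℤ))) ⊆
        (HB v R : Set (ℤ × ℤ)) ∩ (An q r s : Set (ℤ × ℤ)) := by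
      rintro g ⟨⟨hg, hg'⟩, hg2⟩
      refine ⟨hg, ?_⟩
      rw [mem_coe, mem_An]
      exact ⟨mem_coe.1 hg2, fun h => hg' (mem_coe.2 h)⟩
    rcases Perc6.N1Aux.first_exitF hin' hb3 with h5 | ⟨c, h5, h6⟩
    · exact absurd (MM_inE hin' (MM_mono Set.inter_subset_right h5)) hnote
    · unfold NF
      refine card_pos.2 ⟨b, ?_⟩
      rw [mem_filter]
      exact ⟨(hb2.inE (by omega)).mem_UB, hb2, c, MM_mono hsub h5, h6⟩

/-- The strand of the wall edge visits a far box with small probability. -/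
theorem corner_le : ∃ C : ℝ, 0 < C ∧ ∀ (v q : ℤ × ℤ) (r R : ℤ) (W : Finset (ℤ × ℤ)),
    1 ≤ r → 4 * r ≤ R → Far v q R → HB v R ⊆ W →
      pr W (Vis v R q r) ≤ C / R * ((r : ℝ) / R) ^ (1 / 4 : ℝ) := by
  classical
  obtain ⟨C₁, hC₁, h₁⟩ := pr_unit
  obtain ⟨C₂, hC₂, h₂⟩ := pr_NF_pos
  refine ⟨16 * C₁ * C₂ + 16 * C₁, by positivity, fun v q r R W hr hrR hF hW => ?_⟩
  have hRr : (0 : ℝ) < R := by exact_mod_cast (by omega : 0 < R)
  have hrr : (1 : ℝ) ≤ r := by exact_mod_cast hr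
  rw [pr_eq_of_depOn (depOn_Vis v R q r) hW, ← pr_eq_of_depOn (depOn_Vis v R q r)
    (subset_union_left (s₂ := BR q R))]
  set W' := HB v R ∪ BR q R with hW'
  obtain ⟨s, hs⟩ : ∃ s : ℤ, s = R / 4 := ⟨_, rfl⟩
  have hs1 : 1 ≤ s := by omega
  have hrs : r ≤ s := by omega
  have hsr : (0 : ℝ) < s := by exact_mod_cast (by omega : 0 < s)
  have hsR : (R : ℝ) ≤ 8 * s := by exact_mod_cast (by omega : R ≤ 8 * s)
  have hHs : HB v s ⊆ W' := fun f hf => by
    refine mem_union_left _ (mem_coe.1 ?_)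
    have := mem_HB.1 (mem_coe.2 hf)
    exact mem_HB.2 (by omega)
  have hBs : BR q s ⊆ W' := fun f hf => by
    refine mem_union_right _ (mem_coe.1 ?_)
    have := mem_BR'.1 (mem_coe.2 hf)
    exact mem_BR'.2 (by omega)
  have habs : ∀ z : ℤ, |z| = z ∨ |z| = -z := abs_choice
  have hdisj : Disjoint (HB v s) (An q r s) := by
    rw [disjoint_left]
    intro f hf hf'
    have h1 := mem_HB.1 (mem_coe.2 hf)
    have h2 := mem_BR'.1 (mem_coe.2 (mem_An.1 hf').1)
    unfold Far at hF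
    rcases habs (q.1 - v.1) with h3 | h3 <;> rcases habs (q.2 - v.2) with h4 | h4 <;> omega
  have key : pr W' (Vis v R q r) ≤ pr W' (WE v s ∩ {ω | 1 ≤ NF (HB v R : Set (ℤ × ℤ)) q r s ω}) :=
    pr_mono _ fun ω hω => ⟨vis_we hs1 (by omega) hrR hF hω, vis_nf hr hrs (by omega) hF hω⟩
  have hdA := depOn_NF (HB v R : Set (ℤ × ℤ)) q r s fun n => 1 ≤ n
  have hind := pr_indep (W := W') (depOn_WE v s) hdA hdisj hHs (fun f hf => hBs (mem_An.1 hf).1)
  rw [hind, ← pr_eq_of_depOn hdA (fun f hf => hBs (mem_An.1 hf).1)] at key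
  have k1 := h₁ v s (HB v s) (by omega) subset_rfl
  obtain ⟨r', rfl⟩ := Int.eq_ofNat_of_zero_le (by omega : 0 ≤ r)
  obtain ⟨s', rfl⟩ := Int.eq_ofNat_of_zero_le (by omega : 0 ≤ s)
  have k2 := h₂ (HB v R : Set (ℤ × ℤ)) q r' s' W' (by omega) (by omega) hBs
  push_cast at hrr hsr hsR k1 k2 ⊢
  have k3 : (r' : ℝ) / s' ≤ 8 * (r' / R) := by
    rw [← mul_div_assoc, div_le_div_iff₀ hsr hRr]
    nlinarith
  have k4 : ((r' : ℝ) / s') ^ (1 / 4 : ℝ) ≤ 2 * (r' / R) ^ (1 / 4 : ℝ) := by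
    refine (Real.rpow_le_rpow (by positivity) k3 (by norm_num)).trans ?_
    rw [Real.mul_rpow (by norm_num) (by positivity)]
    refine mul_le_mul_of_nonneg_right ?_ (by positivity)
    have : (2 : ℝ) = 16 ^ (1 / 4 : ℝ) := by
      rw [show (16 : ℝ) = 2 ^ (4 : ℝ) by norm_num, ← Real.rpow_mul (by norm_num)]
      norm_num
    rw [this]
    exact Real.rpow_le_rpow (by norm_num) (by norm_num) (by norm_num)
  have k5 : C₁ / (s' : ℝ) ≤ 8 * C₁ / R := by
    rw [div_le_div_iff₀ hsr hRr]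
    nlinarith
  refine key.trans ?_
  have k6 : (0 : ℝ) ≤ (r' / R) ^ (1 / 4 : ℝ) := by positivity
  calc pr (HB v s') (WE v s') * pr W' {ω | 1 ≤ NF (HB v R : Set (ℤ × ℤ)) q r' s' ω}
      ≤ (8 * C₁ / R) * (C₂ * (2 * (r' / R) ^ (1 / 4 : ℝ))) := by
        refine mul_le_mul (k1.trans k5) (k2.trans ?_) (pr_nonneg _ _) (by positivity)
        exact mul_le_mul_of_nonneg_left k4 hC₂.le
    _ = 16 * C₁ * C₂ / R * (r' / R) ^ (1 / 4 : ℝ) := by ring
    _ ≤ (16 * C₁ * C₂ + 16 * C₁) / R * (r' / R) ^ (1 / 4 : ℝ) := by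
        refine mul_le_mul_of_nonneg_right ?_ k6
        exact div_le_div_of_nonneg_right (by nlinarith) hRr.le

/-- The strand of the wall edge at `v` leaves the half box of radius `R` and does not visit the
boxes of radius `r` around the two corners of the half box on the wall. -/
def Free (v : ℤ × ℤ) (r R : ℤ) : Set Cfg :=
  WE v R \ (Vis v R (v.1 - R, v.2) r ∪ Vis v R (v.1 + R, v.2) r)

theorem depOn_Free (v : ℤ × ℤ) (r R : ℤ) : DepOn (HB v R : Set (ℤ × ℤ)) (Free v r R) := by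
  intro ω ω' h
  have h1 := depOn_WE v R ω ω' h
  have h2 := depOn_Vis v R (v.1 - R, v.2) r ω ω' h
  have h3 := depOn_Vis v R (v.1 + R, v.2) r ω ω' h
  unfold Free
  rw [Set.mem_sdiff, Set.mem_sdiff, Set.mem_union, Set.mem_union, h1, h2, h3]

/-- With probability at least half of the probability of `WE` the strand of the wall edge leaves the
half box without visiting the neighbourhoods of the corners. -/
theorem free_lower : ∃ ρ : ℝ, 0 < ρ ∧ ∀ (v : ℤ × ℤ) (r R : ℤ) (W : Finset (ℤ × ℤ)),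
    1 ≤ r → (r : ℝ) ≤ ρ * R → HB v R ⊆ W → pr W (WE v R) ≤ 2 * pr W (Free v r R) := by
  classical
  obtain ⟨C, hC, h⟩ := corner_le
  obtain ⟨c, hc, h'⟩ := we_lower
  refine ⟨min (1 / 4) ((c / (4 * C)) ^ 4), lt_min (by norm_num) (by positivity),
    fun v r R W hr hrR hW => ?_⟩
  have hrr : (1 : ℝ) ≤ r := by exact_mod_cast hr
  have hRr : (0 : ℝ) < R := by
    by_contra hcon
    push Not at hcon
    have : min (1 / 4) ((c / (4 * C)) ^ 4) * (R : ℝ) ≤ 0 :=
      mul_nonpos_of_nonneg_of_nonpos (le_min (by norm_num) (by positivity)) hcon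
    linarith
  have h4 : 4 * r ≤ R := by
    have : (r : ℝ) ≤ 1 / 4 * R := hrR.trans (mul_le_mul_of_nonneg_right (min_le_left _ _) hRr.le)
    have : (4 : ℝ) * r ≤ R := by linarith
    exact_mod_cast this
  have hpow : ((r : ℝ) / R) ^ (1 / 4 : ℝ) ≤ c / (4 * C) := by
    have h5 : (r : ℝ) / R ≤ (c / (4 * C)) ^ 4 := by
      rw [div_le_iff₀ hRr]
      exact hrR.trans (mul_le_mul_of_nonneg_right (min_le_right _ _) hRr.le)
    refine (Real.rpow_le_rpow (by positivity) h5 (by norm_num)).trans (le_of_eq ?_)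
    rw [← Real.rpow_natCast, ← Real.rpow_mul (by positivity)]
    norm_num
  have hq : ∀ q : ℤ × ℤ, Far v q R → pr W (Vis v R q r) ≤ c / R / 4 := by
    intro q hq
    refine (h v q r R W hr h4 hq hW).trans ?_
    calc C / R * ((r : ℝ) / R) ^ (1 / 4 : ℝ) ≤ C / R * (c / (4 * C)) :=
          mul_le_mul_of_nonneg_left hpow (by positivity)
      _ = c / R / 4 := by field_simp
  have hWE := h' v R W (by omega) hW
  have hsub : WE v R ⊆ Free v r R ∪ (Vis v R (v.1 - R, v.2) r ∪ Vis v R (v.1 + R, v.2) r) := by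
    intro ω hω
    by_cases hω' : ω ∈ Vis v R (v.1 - R, v.2) r ∪ Vis v R (v.1 + R, v.2) r
    · exact Or.inr hω'
    · exact Or.inl ⟨hω, hω'⟩
  have k1 := (pr_mono W hsub).trans (pr_union_le _ _ _)
  have k2 := pr_union_le W (Vis v R (v.1 - R, v.2) r) (Vis v R (v.1 + R, v.2) r)
  have k3 := hq (v.1 - R, v.2) (Or.inl (by
    have : |(v.1 - R, v.2).1 - v.1| = R := by
      rw [show (v.1 - R, v.2).1 - v.1 = -R by simp, abs_neg, abs_of_nonneg (by omega)]
    omega))
  have k4 := hq (v.1 + R, v.2) (Or.inl (by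
    have : |(v.1 + R, v.2).1 - v.1| = R := by
      rw [show (v.1 + R, v.2).1 - v.1 = R by simp, abs_of_nonneg (by omega)]
    omega))
  linarith

/-- The lower bound for the free strand. -/
theorem free_ge : ∃ ρ c : ℝ, 0 < ρ ∧ 0 < c ∧ ∀ (v : ℤ × ℤ) (r R : ℤ) (W : Finset (ℤ × ℤ)),
    1 ≤ r → (r : ℝ) ≤ ρ * R → HB v R ⊆ W → c / R ≤ pr W (Free v r R) := by
  obtain ⟨ρ, hρ, h⟩ := free_lower
  obtain ⟨c, hc, h'⟩ := we_lower
  refine ⟨ρ, c / 2, hρ, by positivity, fun v r R W hr hrR hW => ?_⟩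
  have hrr : (1 : ℝ) ≤ r := by exact_mod_cast hr
  have hR : 0 < R := by
    by_contra hcon
    have : ρ * (R : ℝ) ≤ 0 :=
      mul_nonpos_of_nonneg_of_nonpos hρ.le (by exact_mod_cast (by omega : R ≤ 0))
    linarith
  have h1 := h v r R W hr hrR hW
  have h2 := h' v R W hR hW
  rw [div_div, mul_comm 2, ← div_div]
  linarith

end Pool.Agent.SixB.DLCor
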