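import Pool.Agent.Lib.SixB.CADomLowL
import Pool.Agent.Lib.SixB.CAFrame
import Pool.Agent.Lib.SixB.CAIn
import Pool.Agent.Lib.SixB.CAEqui
import Pool.Agent.Lib.SixB.S6LFlat

/-!
# 6BD, block CA: lower bound with the marked side `e`, the nets of the walls in `rf n P`

* `rside_abs`: the structure `RSide` of `CADomLowA` for a contour which is separated and straight near the marked side.
* `LowGeo`: all the geometric data of the lower bound in `rf n P`, on both sides of the marked side.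
* `exists_lowGeo`: they exist, uniformly in `n` and in the position of the marked side, with a bounded number of balls.
-/

set_option autoImplicit false

namespace Pool.Agent.SixB.Low

open Finset Pool.Agent.Perc Pool.Agent.PercT Pool.Agent.Perc6 Pool.Agent.AnnH
open Third Pool.Agent.SixB.Tilt

/-! ### One side -/

/-- A frame at the marked side: vertices `V x y`, faces `C x y`. -/
structure Frm (F : Set (ℤ × ℤ)) (V C : ℤ → ℤ → ℤ × ℤ) (R' : ℤ) : Prop where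
  sur : ∀ f : ℤ × ℤ, ∃ x y, f = C x y
  box : ∀ a x y s, C x y ∈ RFb (V a 0) s ↔ a - s ≤ x ∧ x < a + s ∧ -s ≤ y ∧ y < s
  flat : ∀ x y, -R' < x → x < R' → -R' < y → y < R' → (C x y ∈ F ↔ 0 ≤ y)
  side : ∀ x a, Joins a (V x 0) (V (x + 1) 0) → IsSide (C x 0) a

/-- The contour `w` (period `m`, the marked side is the last one) in a frame: separated, and straight up to `R'`. -/
structure Wal (m : ℕ) (w : ℕ → ℤ × ℤ) (V : ℤ → ℤ → ℤ × ℤ) (n R' : ℤ) : Prop where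
  lip : ∀ i j : ℕ, i ≤ j → |(w j).1 - (w i).1| ≤ (j : ℤ) - i ∧ |(w j).2 - (w i).2| ≤ (j : ℤ) - i
  sep : ∀ (i j : ℕ) (D : ℤ), D ≤ n → 2 * D ≤ (j : ℤ) - i → 2 * D ≤ (i : ℤ) + m - j →
    D ≤ |(w i).1 - (w j).1| ∨ D ≤ |(w i).2 - (w j).2|
  fwd : ∀ i : ℕ, (i : ℤ) < R' → w i = V (i + 1) 0
  bwd : ∀ i : ℕ, i < m → (m : ℤ) - i ≤ R' → w i = V (i + 1 - m) 0

/-- The net of the contour vertices `w 0, w s, w (2 s), …` up to `a`. -/
def net (w : ℕ → ℤ × ℤ) (s a : ℕ) : Finset ((ℤ × ℤ) × ℤ) :=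
  (range (a / s + 1)).image fun j => (w (s * j), (s : ℤ))

theorem mem_net {w : ℕ → ℤ × ℤ} {s a : ℕ} {i : (ℤ × ℤ) × ℤ} (h : i ∈ net w s a) :
    ∃ j : ℕ, s * j ≤ a ∧ i = (w (s * j), (s : ℤ)) := by
  obtain ⟨j, hj, rfl⟩ := mem_image.1 h
  refine ⟨j, ?_, rfl⟩
  have h1 : j ≤ a / s := by have := mem_range.1 hj; omega
  exact (Nat.mul_le_mul_left s h1).trans (Nat.mul_div_le a s)

theorem card_net (w : ℕ → ℤ × ℤ) (s a : ℕ) : (net w s a).card ≤ a / s + 1 :=
  card_image_le.trans (card_range _).le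

theorem net_of_le {w : ℕ → ℤ × ℤ} {s a b : ℕ} (hs : 0 < s) (h : b ≤ a) :
    ∃ j : ℕ, s * j ≤ b ∧ b < s * j + s ∧ (w (s * j), (s : ℤ)) ∈ net w s a := by
  refine ⟨b / s, Nat.mul_div_le b s, ?_, mem_image.2 ⟨b / s, ?_, rfl⟩⟩
  · have := Nat.lt_mul_div_succ b hs
    rw [mul_add, mul_one] at this
    exact this
  · rw [mem_range]
    have := Nat.div_le_div_right (c := s) h
    omega

/-- Boxes of distant points are disjoint. -/
theorem rfb_disj {p q f : ℤ × ℤ} {a b : ℤ} (h : a + b ≤ |p.1 - q.1| ∨ a + b ≤ |p.2 - q.2|)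
    (h1 : f ∈ RFb p a) : f ∉ RFb q b := by
  intro h2
  rw [mem_RFb] at h1 h2
  rcases h with h | h
  · rcases le_abs'.1 h with h | h <;> omega
  · rcases le_abs'.1 h with h | h <;> omega

theorem rside_abs {F G N : Set (ℤ × ℤ)} {V C : ℤ → ℤ → ℤ × ℤ} {n R' A B H M r : ℤ} {m : ℕ}
    {w : ℕ → ℤ × ℤ} {e : UE} {s a₁ a₂ : ℕ} (hf : Frm F V C R') (hw : Wal m w V n R')
    (hG : ∀ x y, C x y ∈ G ↔ -A ≤ x ∧ x < B ∧ 0 ≤ y ∧ y < H)
    (hN : ∀ x y, B - r ≤ x → x < B → 0 ≤ y → y < r → C x y ∈ N)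
    (he : Joins e (V 0 0) (V 1 0)) (hs : 0 < s) (hA : 8 * s ≤ A) (hB : 12 * s ≤ B) (hH : 4 * s ≤ H)
    (hr : 8 * s ≤ r) (hAM : A ≤ M) (hBM : B ≤ M) (hHM : H ≤ M) (hM : 2 * (M + 4 * s) ≤ R')
    (hRn : R' ≤ n) (h1 : 0 < a₁) (h12 : a₁ + 8 * s ≤ a₂) (h2 : a₂ ≤ m)
    (h3 : a₁ + 2 * (M + 4 * s) + 1 ≤ m) :
    RSide F G m w e (B - 1).toNat A.toNat a₁ a₂ (net w s a₁) N := by
  have hs' : (0 : ℤ) < s := by exact_mod_cast hs
  have hm : 0 < m := by omega
  have hw0 : w 0 = V 1 0 := by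
    have := hw.fwd 0 (by push_cast; omega)
    simpa using this
  have hw1 : w (m - 1) = V 0 0 := by
    have := hw.bwd (m - 1) (by omega) (by omega)
    rw [this]
    congr 1
    omega
  refine ⟨by omega, by omega, hm, h1, by omega, h2, ?_, ?_, ?_, ?_, ?_, ?_⟩
  · rw [hw0, hw1]
    exact he.symm
  · refine ⟨C 0 0, (hG 0 0).2 ⟨by omega, by omega, by omega, by omega⟩, hf.side 0 e ?_⟩
    simpa using he
  · intro i hi a ha
    have e1 := hw.fwd i (by omega)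
    have e2 := hw.fwd (i + 1) (by push_cast; omega)
    rw [e1, e2] at ha
    refine ⟨C (i + 1) 0, (hG _ _).2 ⟨by omega, by omega, by omega, by omega⟩, hf.side _ a ?_⟩
    push_cast at ha
    exact ha
  · intro i hi hi' a ha
    have e1 := hw.bwd i (by omega) (by omega)
    have e2 := hw.bwd (i + 1) (by omega) (by push_cast; omega)
    rw [e1, e2] at ha
    refine ⟨C (i + 1 - m) 0, (hG _ _).2 ⟨by omega, by omega, by omega, by omega⟩, hf.side _ a ?_⟩
    have e3 : (((i + 1 : ℕ) : ℤ) + 1 - m) = (i : ℤ) + 1 - m + 1 := by push_cast; ring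
    rw [e3] at ha
    exact ha
  · intro i hi
    obtain ⟨j, -, rfl⟩ := mem_net hi
    exact hs'
  · intro b hb hb'
    obtain ⟨j, hj1, hj2, hj3⟩ := net_of_le (w := w) hs hb'
    refine ⟨_, hj3, ?_, ?_⟩
    · obtain ⟨l1, l2⟩ := hw.lip (s * j) b hj1
      rw [abs_le] at l1 l2
      unfold Cb
      have : (b : ℤ) < (s * j : ℕ) + s := by exact_mod_cast hj2
      simp only
      omega
    simp only
    set c : ℕ := s * j with hc
    by_cases hcase : (c : ℤ) + 1 + 4 * s ≤ B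
    · left
      have ec := hw.fwd c (by omega)
      refine ⟨?_, by omega, ?_⟩
      · rintro f ⟨hfF, hfb⟩
        obtain ⟨x, y, rfl⟩ := hf.sur f
        rw [mem_coe, ec, hf.box] at hfb
        have h5 := (hf.flat x y (by omega) (by omega) (by omega) (by omega)).1 hfF
        exact (hG _ _).2 ⟨by omega, by omega, by omega, by omega⟩
      · intro b' hb1 hb2 hO
        by_contra hcon
        have := hw.sep c b' (4 * s) (by omega) (by omega) (by omega)
        unfold Ob at hO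
        rcases this with h | h
        · rcases le_abs'.1 h with h | h <;> omega
        · rcases le_abs'.1 h with h | h <;> omega
    · right
      refine ⟨?_, ?_⟩
      · intro f hfF hfb hfG
        by_cases hcR : (c : ℤ) < R'
        · have ec := hw.fwd c hcR
          obtain ⟨x, y, rfl⟩ := hf.sur f
          rw [ec, hf.box] at hfb
          rw [hG] at hfG
          exact hN x y (by omega) (by omega) (by omega) (by omega)
        · exfalso
          obtain ⟨x, y, rfl⟩ := hf.sur f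
          rw [hG] at hfG
          have h6 : C x y ∈ RFb (w (m - 1)) M := by
            rw [hw1, hf.box]
            omega
          have h7 := hw.sep c (m - 1) (M + 4 * s) (by omega) (by omega) (by omega)
          have h8 : M + 4 * (s : ℤ) ≤ |(w (m - 1)).1 - (w c).1| ∨
              M + 4 * (s : ℤ) ≤ |(w (m - 1)).2 - (w c).2| := by
            rcases h7 with h | h
            · left; rwa [abs_sub_comm]
            · right; rwa [abs_sub_comm]
          exact rfb_disj h8 h6 hfb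
      · intro b' hb1 hb2 hO
        have := hw.sep c b' (4 * s) (by omega) (by omega) (by omega)
        unfold Ob at hO
        rcases this with h | h
        · rcases le_abs'.1 h with h | h <;> omega
        · rcases le_abs'.1 h with h | h <;> omega

/-! ### The frames of the four orientations -/

theorem frame_kap (κ : ZMod 4) (p : ℤ × ℤ) : ∃ (σ : Sym) (T N : ℤ × ℤ), IsFr σ p T N ∧
    (∀ x y, σ.v (x, y) = fr κ p x y) ∧ ∀ x y, σ.f (x, y) = cl κ p x y := by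
  have key : ∀ T N : ℤ × ℤ, Perp T N → (∀ x y, fv p T N (x, y) = fr κ p x y) →
      (∀ x y, ff p T N (x, y) = cl κ p x y) → ∃ (σ : Sym) (T N : ℤ × ℤ), IsFr σ p T N ∧
      (∀ x y, σ.v (x, y) = fr κ p x y) ∧ ∀ x y, σ.f (x, y) = cl κ p x y := by
    intro T N h h1 h2
    obtain ⟨σ, hσ⟩ := exists_fr p h
    exact ⟨σ, T, N, hσ, fun x y => by rw [hσ.v, h1], fun x y => by rw [hσ.f, h2]⟩
  rcases k4 κ with rfl | rfl | rfl | rfl
  · refine key (1, 0) (0, 1) (by simp [Perp]) (fun x y => ?_) fun x y => ?_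
    · rw [fr_0]; unfold fv; ext <;> simp
    · rw [cl_0]; unfold ff; ext <;> simp
  · refine key (0, 1) (-1, 0) (by simp [Perp]) (fun x y => ?_) fun x y => ?_
    · rw [fr_1]; unfold fv; ext <;> simp <;> ring
    · rw [cl_1]; unfold ff; ext <;> simp <;> ring
  · refine key (-1, 0) (0, -1) (by simp [Perp]) (fun x y => ?_) fun x y => ?_
    · rw [fr_2]; unfold fv; ext <;> simp <;> ring
    · rw [cl_2]; unfold ff; ext <;> simp <;> ring
  · refine key (0, -1) (1, 0) (by simp [Perp]) (fun x y => ?_) fun x y => ?_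
    · rw [fr_3]; unfold fv; ext <;> simp <;> ring
    · rw [cl_3]; unfold ff; ext <;> simp <;> ring

theorem cl_mem_RFb {κ : ZMod 4} {p : ℤ × ℤ} {x y a b s : ℤ} :
    cl κ p x y ∈ RFb (fr κ p a b) s ↔ a - s ≤ x ∧ x < a + s ∧ b - s ≤ y ∧ y < b + s := by
  have e : cl κ p x y = cl κ (fr κ p a b) (x - a) (y - b) := by
    rw [cl_shift]; congr 1 <;> ring
  have h : cl κ (fr κ p a b) (x - a) (y - b) ∈ Pool.Agent.PercD.BR (fr κ p a b) s ↔ _ := cl_mem_BR
  rw [e]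
  change _ ∈ Pool.Agent.PercD.BR (fr κ p a b) s ↔ _
  rw [h]
  omega

/-- The side of the face `cl κ p x 0` on the wall. -/
theorem side_cl {κ : ZMod 4} {p : ℤ × ℤ} {σ : Sym} (hv : ∀ x y, σ.v (x, y) = fr κ p x y)
    (hf : ∀ x y, σ.f (x, y) = cl κ p x y) {x : ℤ} {a : UE}
    (h : Joins a (fr κ p x 0) (fr κ p (x + 1) 0)) : IsSide (cl κ p x 0) a := by
  have h0 : Joins ((x, 0, false) : UE) (x, 0) (x + 1, 0) := Or.inl ⟨rfl, by simp [ub]⟩
  have h1 := σ.joins_act h0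
  rw [hv, hv] at h1
  rw [Joins.uniq h h1, ← hf, Sym.isSide_iff]
  exact Or.inl rfl

section
variable {P : Finset (ℤ × ℤ)} {L : ℕ} {g : ℤ → ℤ × ℤ} {n : ℕ} {κ : ZMod 4} {X R' : ℤ} {p : ℤ × ℤ}

theorem frm_right {F : Finset (ℤ × ℤ)} {σ : Sym} (hv : ∀ x y, σ.v (x, y) = fr κ p x y)
    (hf : ∀ x y, σ.f (x, y) = cl κ p x y) (hF : FlatZ F κ p R') :
    Frm (F : Set (ℤ × ℤ)) (fun x y => fr κ p x y) (fun x y => cl κ p x y) R' where
  sur f := ⟨(σ.f.symm f).1, (σ.f.symm f).2, by rw [← hf]; simp⟩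
  box a x y s := by
    rw [cl_mem_RFb]
    omega
  flat x y h1 h2 h3 h4 := by
    rw [mem_coe]
    exact hF x y (by omega) h2 (by omega) h4
  side x a h := side_cl hv hf h

theorem frm_left {F : Finset (ℤ × ℤ)} {σ : Sym} (hv : ∀ x y, σ.v (x, y) = fr κ p x y)
    (hf : ∀ x y, σ.f (x, y) = cl κ p x y) (hF : FlatZ F κ p R') :
    Frm (F : Set (ℤ × ℤ)) (fun x y => fr κ p (1 - x) y) (fun x y => cl κ p (-x) y) R' where
  sur f := ⟨-(σ.f.symm f).1, (σ.f.symm f).2, by rw [neg_neg, ← hf]; simp⟩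
  box a x y s := by
    rw [cl_mem_RFb]
    omega
  flat x y h1 h2 h3 h4 := by
    rw [mem_coe]
    exact hF (-x) y (by omega) (by omega) (by omega) h4
  side x a h := by
    refine side_cl hv hf ?_
    rw [show -x + 1 = 1 - x by ring]
    rw [show 1 - (x + 1) = -x by ring] at h
    exact h.symm

theorem wal_right (hg : Cont P L g) (hn : 0 < n)
    (hw : ∀ i, -R' ≤ i → i ≤ R' → gr n g (X - 1 + i) = fr κ p i 0) :
    Wal (n * L) (fun i : ℕ => gr n g (X - n * L + i)) (fun x y => fr κ p x y) n R' where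
  lip i j hij := by
    obtain ⟨h1, h2⟩ := gr_lip hg hn (X - n * L + i) (j - i)
    have e : X - (n : ℤ) * L + i + ((j - i : ℕ) : ℤ) = X - n * L + j := by
      rw [Nat.cast_sub hij]; ring
    rw [e, Nat.cast_sub hij] at h1 h2
    exact ⟨h1, h2⟩
  sep i j D h1 h2 h3 := by
    push_cast at h3
    exact gr_sep hg hn h1 (by linarith) (by linarith)
  fwd i hi := by
    have h1 := gr_per hg hn (X - n * L + i)
    have e : X - (n : ℤ) * L + i + n * L = X - 1 + (i + 1) := by ring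
    rw [← h1, e]
    exact hw _ (by omega) (by omega)
  bwd i hi hi' := by
    push_cast at hi'
    have e : X - (n : ℤ) * L + i = X - 1 + (i + 1 - n * L) := by ring
    rw [e, hw _ (by omega) (by
      have : (i : ℤ) < n * L := by exact_mod_cast hi
      omega)]
    push_cast
    rfl

theorem wal_left (hg : Cont P L g) (hn : 0 < n)
    (hw : ∀ i, -R' ≤ i → i ≤ R' → gr n g (X - 1 + i) = fr κ p i 0) :
    Wal (n * L) (fun i : ℕ => gr n g (X - 1 - i)) (fun x y => fr κ p (1 - x) y) n R' where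
  lip i j hij := by
    obtain ⟨h1, h2⟩ := gr_lip hg hn (X - 1 - j) (j - i)
    have e : X - 1 - (j : ℤ) + ((j - i : ℕ) : ℤ) = X - 1 - i := by
      rw [Nat.cast_sub hij]; ring
    rw [e, Nat.cast_sub hij] at h1 h2
    rw [abs_sub_comm, abs_sub_comm (gr n g (X - 1 - j)).2]
    exact ⟨h1, h2⟩
  sep i j D h1 h2 h3 := by
    push_cast at h3
    have := gr_sep hg hn (a := X - 1 - j) (b := X - 1 - i) h1 (by linarith) (by linarith)
    rw [abs_sub_comm, abs_sub_comm (gr n g (X - 1 - i)).2]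
    exact this
  fwd i hi := by
    have e : X - 1 - (i : ℤ) = X - 1 + -i := by ring
    rw [e, hw _ (by omega) (by omega)]
    congr 1
    ring
  bwd i hi hi' := by
    push_cast at hi'
    have h1 := gr_per hg hn (X - 1 - i)
    have e : X - 1 - (i : ℤ) + n * L = X - 1 + (n * L - i) := by ring
    rw [← h1, e, hw _ (by
      have : (i : ℤ) < n * L := by exact_mod_cast hi
      omega) (by omega)]
    push_cast
    congr 1
    ring

end

/-! ### The geometric data -/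

/-- The geometry of the lower bound in `rf n P`: the marked side `e = σ.s (0, 0, false)` is the side `(X - 1, X)` of the
contour, `x = gr n g X`, `x' = gr n g (X - 1)`; `G` is the half box of radius `R`; `I`, `J` are the nets of the walls from
`x` to the mark `i₁` and from the mark `i₃` to `x'`; nothing meets the boxes of radius `d` at the marks `i₂`, `i₂'`. -/
structure LowGeo (P : Finset (ℤ × ℤ)) (L : ℕ) (g : ℤ → ℤ × ℤ) (n : ℕ) (X i₁ i₂ i₂' i₃ : ℤ) (d : ℝ)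
    (σ : Sym) (p T N : ℤ × ℤ) (R r : ℤ) (I J : Finset ((ℤ × ℤ) × ℤ)) : Prop where
  fr : IsFr σ p T N
  flat : Flat (rf n P) σ (R + 1)
  r1 : 1 ≤ r
  rR : r ≤ R
  Rn : R ≤ n
  v0 : σ.v (0, 0) = gr n g (X - 1)
  v1 : σ.v (1, 0) = gr n g X
  right : RSide (rf n P : Set (ℤ × ℤ)) (bx σ (-R) R 0 R : Set (ℤ × ℤ)) (n * L)
    (fun i : ℕ => gr n g (X - n * L + i)) (σ.s (0, 0, false)) (R - 1).toNat R.toNat
    (i₁ + n * L - X).toNat (i₂ + n * L - X).toNat I (bx σ (R - r) R 0 r : Set (ℤ × ℤ))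
  left : RSide (rf n P : Set (ℤ × ℤ)) (bx σ (-R) R 0 R : Set (ℤ × ℤ)) (n * L)
    (fun i : ℕ => gr n g (X - 1 - i)) (σ.s (0, 0, false)) R.toNat (R - 1).toNat
    (X - 1 - i₃).toNat (X - 1 - i₂').toNat J (bx σ (-R) (-R + r) 0 r : Set (ℤ × ℤ))
  dis : ∀ f ∈ rf n P, f ∉ bx σ (-R) R 0 R → f ∈ BO I → f ∉ BO J
  off : ∀ f, (f ∈ bx σ (-R) R 0 R ∨ f ∈ BO I ∨ f ∈ BO J) → ∀ d' : ℤ, (d' : ℝ) ≤ d →
    f ∉ RFb (gr n g i₂) d' ∧ f ∉ RFb (gr n g i₂') d'

section
variable {P : Finset (ℤ × ℤ)} {L : ℕ} {g : ℤ → ℤ × ℤ} {n : ℕ}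

theorem mem_bx {σ : Sym} {κ : ZMod 4} {p : ℤ × ℤ} (hf : ∀ x y, σ.f (x, y) = cl κ p x y)
    {x₀ x₁ y₀ y₁ x y : ℤ} : cl κ p x y ∈ bx σ x₀ x₁ y₀ y₁ ↔ x₀ ≤ x ∧ x < x₁ ∧ y₀ ≤ y ∧ y < y₁ := by
  unfold bx
  rw [mem_image]
  constructor
  · rintro ⟨f, h1, h2⟩
    rw [← hf] at h2
    have h3 := σ.f.injective h2
    subst h3
    exact mem_RFi.1 h1
  · intro h
    exact ⟨(x, y), mem_RFi.2 h, hf x y⟩

/-- Integer form. -/
theorem lowGeo_abs (hg : Cont P L g) (hn : 0 < n) {κ : ZMod 4} {X R' : ℤ}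
    (hF : FlatZ (rf n P) κ (gr n g (X - 1)) R')
    (hw : ∀ i, -R' ≤ i → i ≤ R' → gr n g (X - 1 + i) = fr κ (gr n g (X - 1)) i 0)
    {s : ℕ} {R r : ℤ} {d : ℝ} (hs : 0 < s) (hr : 8 * (s : ℤ) ≤ r) (rR : r ≤ R)
    (hsR : 24 * (s : ℤ) + 8 ≤ R) (hR' : 8 * R ≤ R') (hRn : R' ≤ n) (hd : d ≤ R) {i₁ i₂ i₂' i₃ : ℤ}
    (g1 : i₁ + R' ≤ i₂) (g2 : i₂ + R' ≤ i₂') (g3 : i₂' + R' ≤ i₃) (g4 : i₃ + R' ≤ X)
    (g5 : X + R' ≤ i₁ + n * L) : ∃ (σ : Sym) (T N : ℤ × ℤ),
    LowGeo P L g n X i₁ i₂ i₂' i₃ d σ (gr n g (X - 1)) T N R r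
      (net (fun i : ℕ => gr n g (X - n * L + i)) s (i₁ + n * L - X).toNat)
      (net (fun i : ℕ => gr n g (X - 1 - i)) s (X - 1 - i₃).toNat) := by
  obtain ⟨σ, T, N, hσ, hv, hf⟩ := frame_kap κ (gr n g (X - 1))
  have hs' : (1 : ℤ) ≤ s := by exact_mod_cast hs
  have hv0 : σ.v (0, 0) = gr n g (X - 1) := by
    rw [hv]
    have := hw 0 (by omega) (by omega)
    rw [add_zero] at this
    exact this.symm
  have hv1 : σ.v (1, 0) = gr n g X := by
    rw [hv]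
    have := hw 1 (by omega) (by omega)
    rw [sub_add_cancel] at this
    exact this.symm
  have hje : Joins (σ.s (0, 0, false)) (σ.v (0, 0)) (σ.v (1, 0)) :=
    σ.joins_act (Or.inl ⟨rfl, by simp [ub]⟩)
  have hm : ((n * L : ℕ) : ℤ) = n * L := by push_cast; ring
  have hdis : ∀ d' : ℤ, (d' : ℝ) ≤ d → d' ≤ R := fun d' h => by exact_mod_cast h.trans hd
  refine ⟨σ, T, N, hσ, ⟨?_, ?_⟩, by omega, rR, by omega, hv0, hv1, ?_, ?_, ?_, ?_⟩
  · rintro ⟨x, y⟩ h1 h2 h3 h4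
    simp only at h1 h2 h3 h4
    rw [hf]
    exact (hF x y (by omega) (by omega) (by omega) (by omega)).2 h3
  · intro x h1 h2
    rw [hf]
    intro h
    have := (hF x (-1) (by omega) (by omega) (by omega) (by omega)).1 h
    omega
  · refine rside_abs (A := R) (B := R) (H := R) (M := R + 1) (r := r) (frm_right hv hf hF)
      (wal_right hg hn hw) (fun x y => ?_) (fun x y h1 h2 h3 h4 => ?_) ?_ hs (by omega) (by omega)
      (by omega) hr (by omega) (by omega) (by omega) (by omega) hRn (by omega) (by omega) (by omega)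
      (by omega)
    · rw [mem_coe, mem_bx hf]
    · rw [mem_coe, mem_bx hf]
      exact ⟨h1, h2, h3, h4⟩
    · rw [← hv, ← hv]
      exact hje
  · have h0 := rside_abs (A := R - 1) (B := R + 1) (H := R) (M := R + 1) (r := r)
      (G := (bx σ (-R) R 0 R : Set (ℤ × ℤ))) (N := (bx σ (-R) (-R + r) 0 r : Set (ℤ × ℤ)))
      (e := σ.s (0, 0, false)) (s := s) (a₁ := (X - 1 - i₃).toNat) (a₂ := (X - 1 - i₂').toNat)
      (frm_left hv hf hF)
      (wal_left hg hn hw) (fun x y => ?_) (fun x y h1 h2 h3 h4 => ?_) ?_ hs (by omega) (by omega)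
      (by omega) hr (by omega) (by omega) (by omega) (by omega) hRn (by omega) (by omega) (by omega)
      (by omega)
    · rw [show R + 1 - 1 = R by ring] at h0
      exact h0
    · rw [mem_coe, mem_bx hf]
      omega
    · rw [mem_coe, mem_bx hf]
      omega
    · simp only [sub_zero, sub_self]
      rw [← hv, ← hv]
      exact hje.symm
  · intro f hfF hfG h1 h2
    obtain ⟨_, hi, hfi⟩ := h1
    obtain ⟨j, hj, rfl⟩ := mem_net hi
    obtain ⟨_, hi', hfi'⟩ := h2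
    obtain ⟨j', hj', rfl⟩ := mem_net hi'
    simp only at hfi hfi'
    set c : ℕ := s * j with hc
    set c' : ℕ := s * j' with hc'
    by_cases hcase : 16 * (s : ℤ) ≤ c + 1 + c'
    · have h3 := gr_sep hg hn (a := X - 1 - c') (b := X + c) (R := 8 * s) (by omega) (by omega)
        (by omega)
      have h4 : gr n g (X - n * L + c) = gr n g (X + c) := by
        rw [← gr_per hg hn (X - n * L + c)]
        congr 1
        ring
      rw [← h4] at h3
      exact rfb_disj (a := 4 * s) (b := 4 * s) (by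
        rcases h3 with h | h
        · left; linarith
        · right; linarith) hfi' hfi
    · have ec := (wal_right hg hn hw).fwd c (by omega)
      obtain ⟨x, y, rfl⟩ := (frm_right hv hf hF).sur f
      rw [ec, cl_mem_RFb] at hfi
      have h5 := (hF x y (by omega) (by omega) (by omega) (by omega)).1 hfF
      exact hfG ((mem_bx hf).2 ⟨by omega, by omega, by omega, by omega⟩)
  · intro f h d' hd'
    have hdR := hdis d' hd'
    rcases h with h | ⟨_, hi, hfi⟩ | ⟨_, hi, hfi⟩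
    · have h6 : f ∈ RFb (gr n g (X - 1)) R := by
        obtain ⟨x, y, rfl⟩ := (frm_right hv hf hF).sur f
        rw [mem_bx hf] at h
        have h7 : cl κ (gr n g (X - 1)) x y ∈ RFb (fr κ (gr n g (X - 1)) 0 0) R :=
          cl_mem_RFb.2 (by omega)
        rwa [← hv, hv0] at h7
      constructor
      · have h3 := gr_sep hg hn (a := i₂) (b := X - 1) (R := R + d') (by omega) (by omega)
          (by omega)
        rw [abs_sub_comm, abs_sub_comm (gr n g i₂).2] at h3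
        exact rfb_disj h3 h6
      · have h3 := gr_sep hg hn (a := i₂') (b := X - 1) (R := R + d') (by omega) (by omega)
          (by omega)
        rw [abs_sub_comm, abs_sub_comm (gr n g i₂').2] at h3
        exact rfb_disj h3 h6
    · obtain ⟨j, hj, rfl⟩ := mem_net hi
      simp only at hfi
      set c : ℕ := s * j with hc
      constructor
      · exact rfb_disj (gr_sep hg hn (a := X - n * L + c) (b := i₂) (R := 4 * s + d') (by omega)
          (by omega) (by omega)) hfi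
      · exact rfb_disj (gr_sep hg hn (a := X - n * L + c) (b := i₂') (R := 4 * s + d') (by omega)
          (by omega) (by omega)) hfi
    · obtain ⟨j, hj, rfl⟩ := mem_net hi
      simp only at hfi
      set c : ℕ := s * j with hc
      constructor
      · have h3 := gr_sep hg hn (a := i₂) (b := X - 1 - c) (R := 4 * s + d') (by omega) (by omega)
          (by omega)
        rw [abs_sub_comm, abs_sub_comm (gr n g i₂).2] at h3
        exact rfb_disj h3 hfi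
      · have h3 := gr_sep hg hn (a := i₂') (b := X - 1 - c) (R := 4 * s + d') (by omega) (by omega)
          (by omega)
        rw [abs_sub_comm, abs_sub_comm (gr n g i₂').2] at h3
        exact rfb_disj h3 hfi

end

/-- Index gaps from real gaps. -/
theorem gap_of {n : ℕ} (hn : 0 < n) {i j : ℤ} {s t ρ ε : ℝ} {R' : ℤ} (h1 : |(i : ℝ) / n - s| < ρ)
    (h2 : |(j : ℝ) / n - t| < ρ) (h : 2 * ρ + ε ≤ t - s) (hR : (R' : ℝ) ≤ ε * n) : i + R' ≤ j := by
  have hn' : (0 : ℝ) < n := by exact_mod_cast hn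
  rw [abs_lt] at h1 h2
  have h3 : (i : ℝ) < n * (s + ρ) := by
    have : (i : ℝ) / n < s + ρ := by linarith
    rw [div_lt_iff₀ hn'] at this
    linarith
  have h4 : n * (t - ρ) < (j : ℝ) := by
    have : t - ρ < (j : ℝ) / n := by linarith
    rw [lt_div_iff₀ hn'] at this
    linarith
  have h5 : (i : ℝ) + R' < j := by nlinarith
  exact_mod_cast h5.le

theorem card_net_le {w : ℕ → ℤ × ℤ} {s a n : ℕ} {c A : ℝ} (hc : 0 < c) (hn : 0 < n)
    (hs : c * n ≤ s) (ha : (a : ℝ) ≤ A * n) : (net w s a).card ≤ ⌊A / c⌋₊ + 1 := by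
  have hn' : (0 : ℝ) < n := by exact_mod_cast hn
  have hs0 : (0 : ℝ) < s := lt_of_lt_of_le (by positivity) hs
  refine (card_net w s a).trans (Nat.succ_le_succ (Nat.le_floor ?_))
  refine Nat.cast_div_le.trans ?_
  have hA : 0 ≤ A := by
    by_contra hcon
    push Not at hcon
    have : (0 : ℝ) ≤ a := by positivity
    nlinarith
  rw [div_le_div_iff₀ hs0 hc]
  calc (a : ℝ) * c ≤ A * n * c := mul_le_mul_of_nonneg_right ha hc.le
    _ = A * (c * n) := by ring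
    _ ≤ A * s := mul_le_mul_of_nonneg_left hs hA

/-- The faces of the balls of a net are close to its centres. -/
theorem near_net {w : ℕ → ℤ × ℤ} {s a : ℕ} {f : ℤ × ℤ} (h : f ∈ BO (net w s a)) :
    ∃ c : ℕ, c ≤ a ∧ |f.1 - (w c).1| ≤ 4 * s ∧ |f.2 - (w c).2| ≤ 4 * s := by
  obtain ⟨_, hi, hfi⟩ := h
  obtain ⟨j, hj, rfl⟩ := mem_net hi
  rw [mem_RFb] at hfi
  refine ⟨s * j, hj, ?_, ?_⟩ <;>
  · rw [abs_le]
    simp only at hfi
    omega

/-- **The geometric data exist, uniformly**, with small boxes. -/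
theorem exists_lowGeoE {P : Finset (ℤ × ℤ)} {L : ℕ} {g : ℤ → ℤ × ℤ} (hg : Cont P L g)
    {t₁ t₂ t₂' t₃ t₄ : ℝ} (hm : Marks5 L g t₁ t₂ t₂' t₃ t₄) {θ η : ℝ} (h0 : 0 < θ) (h1 : θ ≤ 1)
    (hη : 0 < η) :
    ∃ ρ : ℝ, 0 < ρ ∧ ∃ K n₀ : ℕ, ∀ n : ℕ, n₀ ≤ n → ∀ X i₁ i₂ i₂' i₃ : ℤ,
      |(X : ℝ) / n - t₄| < ρ → |(i₁ : ℝ) / n - t₁| < ρ → |(i₂ : ℝ) / n - t₂| < ρ →
      |(i₂' : ℝ) / n - t₂'| < ρ → |(i₃ : ℝ) / n - t₃| < ρ →
      ∃ (σ : Sym) (p T N : ℤ × ℤ) (R r : ℤ) (I J : Finset ((ℤ × ℤ) × ℤ)),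
        LowGeo P L g n X i₁ i₂ i₂' i₃ (ρ * n) σ p T N R r I J ∧ ρ * n ≤ R ∧ (r : ℝ) ≤ θ * R ∧
        I.card ≤ K ∧ J.card ≤ K ∧ (R : ℝ) ≤ η * n ∧
        (∀ f ∈ BO I, ∃ j : ℤ, X - n * L ≤ j ∧ j ≤ i₁ ∧ |((f.1 - (gr n g j).1 : ℤ) : ℝ)| ≤ η * n ∧
          |((f.2 - (gr n g j).2 : ℤ) : ℝ)| ≤ η * n) ∧
        ∀ f ∈ BO J, ∃ j : ℤ, i₃ ≤ j ∧ j ≤ X - 1 ∧ |((f.1 - (gr n g j).1 : ℤ) : ℝ)| ≤ η * n ∧
          |((f.2 - (gr n g j).2 : ℤ) : ℝ)| ≤ η * n := by
  obtain ⟨κ, δ, hδ, hfl⟩ := flat_near hg hm.f4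
  obtain ⟨m1, m2, m3, m4, m5, -, -, -, -, -⟩ := hm
  -- the gaps
  obtain ⟨γ, hγ, γ1, γ2, γ3, γ4, γ5⟩ : ∃ γ : ℝ, 0 < γ ∧ γ ≤ t₂ - t₁ ∧ γ ≤ t₂' - t₂ ∧ γ ≤ t₃ - t₂' ∧
      γ ≤ t₄ - t₃ ∧ γ ≤ t₁ + L - t₄ := by
    refine ⟨min (t₂ - t₁) (min (t₂' - t₂) (min (t₃ - t₂') (min (t₄ - t₃) (t₁ + L - t₄)))), ?_,
      min_le_left _ _, (min_le_right _ _).trans (min_le_left _ _),
      (min_le_right _ _).trans ((min_le_right _ _).trans (min_le_left _ _)),
      (min_le_right _ _).trans ((min_le_right _ _).trans ((min_le_right _ _).trans (min_le_left _ _))),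
      (min_le_right _ _).trans ((min_le_right _ _).trans ((min_le_right _ _).trans
        (min_le_right _ _)))⟩
    refine lt_min (by linarith) (lt_min (by linarith) (lt_min (by linarith)
      (lt_min (by linarith) (by linarith))))
  obtain ⟨ε, hε, ε1, ε2, ε3, ε4⟩ : ∃ ε : ℝ, 0 < ε ∧ ε ≤ δ ∧ ε ≤ γ / 2 ∧ ε ≤ 1 ∧ ε ≤ η :=
    ⟨min δ (min (γ / 2) (min 1 η)), lt_min hδ (lt_min (by linarith) (lt_min one_pos hη)),
      min_le_left _ _, (min_le_right _ _).trans (min_le_left _ _),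
      (min_le_right _ _).trans ((min_le_right _ _).trans (min_le_left _ _)),
      (min_le_right _ _).trans ((min_le_right _ _).trans (min_le_right _ _))⟩
  have hρ : 0 < ε / 16 := by positivity
  set c : ℝ := θ * ε / 384 with hc
  have hc0 : 0 < c := by positivity
  obtain ⟨n₀, hn₀⟩ := exists_nat_gt (528 / (θ * ε))
  have hθε : 0 < θ * ε := by positivity
  refine ⟨ε / 16, hρ, ⌊((L : ℝ) + 1) / c⌋₊ + 1, n₀, fun n hn X i₁ i₂ i₂' i₃ hX hi1 hi2 hi2' hi3 => ?_⟩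
  have hnn : (n₀ : ℝ) ≤ n := by exact_mod_cast hn
  have hn528 : 528 < θ * ε * n := by
    rw [div_lt_iff₀ hθε] at hn₀
    nlinarith
  have hn0 : (0 : ℝ) < n := by
    by_contra hcon
    nlinarith
  have hn' : 0 < n := by exact_mod_cast hn0
  have hεn : 528 < ε * n := by
    have : θ * (ε * n) ≤ 1 * (ε * n) := mul_le_mul_of_nonneg_right h1 (by positivity)
    nlinarith
  -- the radii
  set R' : ℤ := ⌊ε * n⌋ with hR'
  have a1 : (R' : ℝ) ≤ ε * n := Int.floor_le _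
  have a2 : ε * n - 1 < R' := Int.sub_one_lt_floor _
  set R : ℤ := R' / 8 with hR
  have b1 : 8 * R ≤ R' := by omega
  have b2 : R' ≤ 8 * R + 7 := by omega
  have b3 : ε * n / 8 - 1 < R := by
    have : (R' : ℝ) ≤ 8 * R + 7 := by exact_mod_cast b2
    linarith
  set r : ℤ := ⌊θ * R⌋ with hr
  have c1 : (r : ℝ) ≤ θ * R := Int.floor_le _
  have c2 : θ * R - 1 < r := Int.sub_one_lt_floor _
  have c3 : θ * ε * n / 8 - 2 < r := by
    have : θ * (ε * n / 8 - 1) ≤ θ * R := mul_le_mul_of_nonneg_left b3.le h0.le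
    nlinarith
  have hR0 : (0 : ℝ) < R := by nlinarith
  have rR : r ≤ R := by
    have : (r : ℝ) ≤ R := by nlinarith
    exact_mod_cast this
  have r64 : 64 ≤ r := by
    have : (63 : ℝ) < r := by nlinarith
    have : (63 : ℤ) < r := by exact_mod_cast this
    omega
  set s : ℕ := ((r - 8) / 24).toNat with hs
  have d1 : 24 * (s : ℤ) ≤ r - 8 := by omega
  have d2 : r - 8 ≤ 24 * (s : ℤ) + 23 := by omega
  have d3 : 0 < s := by omega
  have d4 : c * n ≤ s := by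
    have : (r : ℝ) - 8 ≤ 24 * s + 23 := by exact_mod_cast d2
    rw [hc]
    nlinarith
  have hX' : |((X - 1 : ℤ) : ℝ) / n - t₄| < δ := by
    have e : ((X - 1 : ℤ) : ℝ) / n - t₄ = ((X : ℝ) / n - t₄) - 1 / n := by push_cast; ring
    have e2 : (1 : ℝ) / n < ε / 16 := by
      rw [div_lt_iff₀ hn0]
      linarith
    have e3 : (0 : ℝ) < 1 / n := by positivity
    rw [e]
    rw [abs_lt] at hX ⊢
    constructor <;> linarith
  have hRn : R' ≤ n := by
    have : (R' : ℝ) ≤ n := by nlinarith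
    exact_mod_cast this
  have hR'0 : 0 ≤ R' := by omega
  obtain ⟨hF, hw⟩ := hfl n hn' (X - 1) hX' R' hR'0 (a1.trans (by nlinarith))
  have hd : ε / 16 * n ≤ R := by nlinarith
  have hi1' : |((i₁ + n * L : ℤ) : ℝ) / n - (t₁ + L)| < ε / 16 := by
    have e : ((i₁ + n * L : ℤ) : ℝ) / n - (t₁ + L) = (i₁ : ℝ) / n - t₁ := by
      push_cast
      field_simp
      ring
    rw [e]
    exact hi1
  obtain ⟨σ, T, N, hgeo⟩ := lowGeo_abs hg hn' hF hw (s := s) (R := R) (r := r) (d := ε / 16 * n) d3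
    (by omega) rR (by omega) b1 hRn hd (gap_of hn' hi1 hi2 (by linarith) a1)
    (gap_of hn' hi2 hi2' (by linarith) a1) (gap_of hn' hi2' hi3 (by linarith) a1)
    (gap_of hn' hi3 hX (by linarith) a1) (gap_of hn' hX hi1' (by linarith) a1)
  have hlen : ∀ a : ℤ, 0 ≤ a → a ≤ n * L → ((a.toNat : ℕ) : ℝ) ≤ ((L : ℝ) + 1) * n := by
    intro a ha ha'
    have e1 : ((a.toNat : ℕ) : ℤ) = a := Int.toNat_of_nonneg ha
    have e2 : ((a.toNat : ℕ) : ℝ) = (a : ℝ) := by exact_mod_cast congrArg (Int.cast (R := ℝ)) e1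
    have e3 : (a : ℝ) ≤ n * L := by exact_mod_cast ha'
    rw [e2]
    nlinarith
  have g4 : i₃ + R' ≤ X := gap_of hn' hi3 hX (by linarith) a1
  have g5 : X + R' ≤ i₁ + n * L := gap_of hn' hX hi1' (by linarith) a1
  have g1 : i₁ + R' ≤ i₂ := gap_of hn' hi1 hi2 (by linarith) a1
  have g2 : i₂ + R' ≤ i₂' := gap_of hn' hi2 hi2' (by linarith) a1
  have g3 : i₂' + R' ≤ i₃ := gap_of hn' hi2' hi3 (by linarith) a1
  have hRη : (R : ℝ) ≤ η * n := by
    have e1 : (8 : ℝ) * R ≤ R' := by exact_mod_cast b1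
    have e2 : ε * n ≤ η * n := mul_le_mul_of_nonneg_right ε4 hn0.le
    linarith
  have h4s : ∀ z : ℤ, |z| ≤ 4 * s → |(z : ℝ)| ≤ η * n := by
    intro z hz
    have e1 : |z| ≤ R := by omega
    have e2 : (|z| : ℝ) ≤ R := by exact_mod_cast e1
    exact e2.trans hRη
  refine ⟨σ, _, T, N, R, r, _, _, hgeo, hd, c1, ?_, ?_, hRη, ?_, ?_⟩
  · exact card_net_le hc0 hn' d4 (hlen _ (by omega) (by omega))
  · exact card_net_le hc0 hn' d4 (hlen _ (by omega) (by omega))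
  · intro f hf
    obtain ⟨c, e1, e2, e3⟩ := near_net hf
    exact ⟨X - n * L + c, by omega, by omega, h4s _ e2, h4s _ e3⟩
  · intro f hf
    obtain ⟨c, e1, e2, e3⟩ := near_net hf
    exact ⟨X - 1 - c, by omega, by omega, h4s _ e2, h4s _ e3⟩

/-- **The geometric data exist, uniformly.** -/
theorem exists_lowGeo {P : Finset (ℤ × ℤ)} {L : ℕ} {g : ℤ → ℤ × ℤ} (hg : Cont P L g)
    {t₁ t₂ t₂' t₃ t₄ : ℝ} (hm : Marks5 L g t₁ t₂ t₂' t₃ t₄) {θ : ℝ} (h0 : 0 < θ) (h1 : θ ≤ 1) :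
    ∃ ρ : ℝ, 0 < ρ ∧ ∃ K n₀ : ℕ, ∀ n : ℕ, n₀ ≤ n → ∀ X i₁ i₂ i₂' i₃ : ℤ,
      |(X : ℝ) / n - t₄| < ρ → |(i₁ : ℝ) / n - t₁| < ρ → |(i₂ : ℝ) / n - t₂| < ρ →
      |(i₂' : ℝ) / n - t₂'| < ρ → |(i₃ : ℝ) / n - t₃| < ρ →
      ∃ (σ : Sym) (p T N : ℤ × ℤ) (R r : ℤ) (I J : Finset ((ℤ × ℤ) × ℤ)),
        LowGeo P L g n X i₁ i₂ i₂' i₃ (ρ * n) σ p T N R r I J ∧ ρ * n ≤ R ∧ (r : ℝ) ≤ θ * R ∧
        I.card ≤ K ∧ J.card ≤ K := by
  obtain ⟨ρ, hρ, K, n₀, h⟩ := exists_lowGeoE hg hm h0 h1 one_pos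
  refine ⟨ρ, hρ, K, n₀, fun n hn X i₁ i₂ i₂' i₃ hX hi1 hi2 hi2' hi3 => ?_⟩
  obtain ⟨σ, p, T, N, R, r, I, J, k1, k2, k3, k4, k5, -⟩ := h n hn X i₁ i₂ i₂' i₃ hX hi1 hi2 hi2' hi3
  exact ⟨σ, p, T, N, R, r, I, J, k1, k2, k3, k4, k5⟩

/-! ### The reflected contour of `CADomLowL` -/

/-- `RSide` uses only the first `m + 1` vertices. -/
theorem RSide.congr_w {F G N : Set (ℤ × ℤ)} {m : ℕ} {w w' : ℕ → ℤ × ℤ} {e : UE} {kR kL a₁ a₂ : ℕ}
    {I : Finset ((ℤ × ℤ) × ℤ)} (h : RSide F G m w e kR kL a₁ a₂ I N) (hw : ∀ i ≤ m, w' i = w i) :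
    RSide F G m w' e kR kL a₁ a₂ I N := by
  have := h.kR_le
  have := h.kL_le
  have := h.m_pos
  have := h.le₁₂
  have := h.le₂
  refine ⟨h.kR_le, h.kL_le, h.m_pos, h.lt₁, h.le₁₂, h.le₂, ?_, h.side, ?_, ?_, h.rad, ?_⟩
  · rw [hw _ (by omega), hw _ (by omega)]
    exact h.join
  · intro i hi a ha
    rw [hw _ (by omega), hw _ (by omega)] at ha
    exact h.right i hi a ha
  · intro i hi hi' a ha
    rw [hw _ (by omega), hw _ (by omega)] at ha
    exact h.left i hi hi' a ha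
  · intro b hb hb'
    obtain ⟨i, hi, h1, h2⟩ := h.cov b hb hb'
    refine ⟨i, hi, ?_, ?_⟩
    · rw [hw _ (by omega)]
      exact h1
    · rcases h2 with ⟨h3, h4, h5⟩ | ⟨h3, h4⟩
      · refine Or.inl ⟨h3, h4, fun b' k1 k2 k3 => h5 b' k1 k2 ?_⟩
        rwa [hw _ (by omega)] at k3
      · refine Or.inr ⟨h3, fun b' k1 k2 k3 => h4 b' k1 k2 ?_⟩
        rwa [hw _ (by omega)] at k3

/-- `RSide` is monotone in the net. -/
theorem RSide.mono_I {F G N : Set (ℤ × ℤ)} {m : ℕ} {w : ℕ → ℤ × ℤ} {e : UE} {kR kL a₁ a₂ : ℕ}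
    {I I' : Finset ((ℤ × ℤ) × ℤ)} (h : RSide F G m w e kR kL a₁ a₂ I N) (hI : I ⊆ I')
    (hr : ∀ i ∈ I', 0 < i.2) : RSide F G m w e kR kL a₁ a₂ I' N :=
  ⟨h.kR_le, h.kL_le, h.m_pos, h.lt₁, h.le₁₂, h.le₂, h.join, h.side, h.right, h.left, hr,
    fun b hb hb' => by
      obtain ⟨i, hi, h1⟩ := h.cov b hb hb'
      exact ⟨i, hI hi, h1⟩⟩

/-- The left side in the form of `CADomLowL`. -/
theorem LowGeo.left_refl {P : Finset (ℤ × ℤ)} {L : ℕ} {g : ℤ → ℤ × ℤ} (hg : Cont P L g) {n : ℕ}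
    (hn : 0 < n) {X i₁ i₂ i₂' i₃ : ℤ} {d : ℝ} {σ : Sym} {p T N : ℤ × ℤ} {R r : ℤ}
    {I J : Finset ((ℤ × ℤ) × ℤ)} (h : LowGeo P L g n X i₁ i₂ i₂' i₃ d σ p T N R r I J) :
    RSide (rf n P : Set (ℤ × ℤ)) (bx σ (-R) R 0 R : Set (ℤ × ℤ)) (n * L)
      (refl (n * L) fun i : ℕ => gr n g (X - n * L + i)) (σ.s (0, 0, false)) R.toNat (R - 1).toNat
      (X - 1 - i₃).toNat (X - 1 - i₂').toNat J (bx σ (-R) (-R + r) 0 r : Set (ℤ × ℤ)) := by
  have hm := h.left.m_pos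
  refine h.left.congr_w fun i hi => ?_
  rcases hi.lt_or_eq with hi | hi
  · rw [refl_lt hi]
    have e : ((n * L - 1 - i : ℕ) : ℤ) = n * L - 1 - i := by
      rw [show n * L - 1 - i = n * L - (1 + i) by omega, Nat.cast_sub (by omega)]
      push_cast
      ring
    rw [e]
    congr 1
    ring
  · rw [hi, refl_self]
    have h1 := gr_per hg hn (X - 1 - n * L)
    rw [show X - 1 - (n : ℤ) * L + n * L = X - n * L + ((n * L - 1 : ℕ) : ℤ) by
      rw [Nat.cast_sub (by omega)]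
      push_cast
      ring] at h1
    rw [h1]
    congr 1

end Pool.Agent.SixB.Low
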