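import Pool.Agent.Lib.SixB.CADomLowB
import Pool.Agent.Lib.SixB.CADomLowC
import Pool.Agent.Lib.SixB.CAFrame

/-!
# 6BD, block CA, lower domination, part C: the half box at a flat wall in a frame

`e = σ.s (0, 0, false)` is the wall edge at the origin of the frame `σ`, `G = bx σ (-R) R 0 R` the half
box, `nR σ r R`, `nL σ r R` the boxes of radius `r` at the two corners of `G` on the wall.

* `lvN_lower` (C1): the strand of `e` leaves `G` through the interior of the domain without visiting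
  the two boxes with probability at least `c / R`, for `r ≤ ρ R`.
* `hasPot_bx`, `joins_e`, `side_e`, `bdU_e` (C2).
* `wallR`, `wallL`, `boxR`, `boxL` (C3): the potential vanishes on the wall and on the boxes.
-/

set_option autoImplicit false

namespace Pool.Agent.SixB.LowE

open Finset Pool.Agent.Perc Pool.Agent.PercD Pool.Agent.Perc6 Pool.Agent.PercT
  Pool.Agent.SixB.Third Pool.Agent.SixB.Low

variable {ω : Cfg} {σ : Sym} {D : Finset (ℤ × ℤ)} {r R : ℤ}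

/-- The wall edge at the origin of the frame. -/
def eS (σ : Sym) : UE := σ.s (0, 0, false)

/-- The half box. -/
noncomputable def gS (σ : Sym) (R : ℤ) : Finset (ℤ × ℤ) := bx σ (-R) R 0 R

/-- The corner box on the side of `σ.v (1, 0)`. -/
noncomputable def nR (σ : Sym) (r R : ℤ) : Finset (ℤ × ℤ) := bx σ (R - r) R 0 r

/-- The corner box on the side of `σ.v (0, 0)`. -/
noncomputable def nL (σ : Sym) (r R : ℤ) : Finset (ℤ × ℤ) := bx σ (-R) (-R + r) 0 r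

/-- The two corner boxes. -/
noncomputable def nS (σ : Sym) (r R : ℤ) : Finset (ℤ × ℤ) := nL σ r R ∪ nR σ r R

theorem mem_bx {x₀ x₁ y₀ y₁ : ℤ} {f : ℤ × ℤ} :
    σ.f f ∈ (bx σ x₀ x₁ y₀ y₁ : Set (ℤ × ℤ)) ↔ x₀ ≤ f.1 ∧ f.1 < x₁ ∧ y₀ ≤ f.2 ∧ f.2 < y₁ := by
  rw [coe_bx, σ.f.injective.mem_set_image, mem_RF']

/-- A rectangle in a frame is a rectangle. -/
theorem bx_rect {p T N : ℤ × ℤ} (h : IsFr σ p T N) (x₀ x₁ y₀ y₁ : ℤ) :
    ∃ a b c d : ℤ, (bx σ x₀ x₁ y₀ y₁ : Set (ℤ × ℤ)) = (RF a b c d : Set (ℤ × ℤ)) := by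
  obtain ⟨p1, p2⟩ := p
  obtain ⟨t1, t2⟩ := T
  obtain ⟨n1, n2⟩ := N
  have key : ∀ a b c d : ℤ, (∀ f : ℤ × ℤ, (x₀ ≤ f.1 ∧ f.1 < x₁ ∧ y₀ ≤ f.2 ∧ f.2 < y₁) ↔
      (a ≤ (ff (p1, p2) (t1, t2) (n1, n2) f).1 ∧ (ff (p1, p2) (t1, t2) (n1, n2) f).1 < b ∧
        c ≤ (ff (p1, p2) (t1, t2) (n1, n2) f).2 ∧ (ff (p1, p2) (t1, t2) (n1, n2) f).2 < d)) →
      (bx σ x₀ x₁ y₀ y₁ : Set (ℤ × ℤ)) = (RF a b c d : Set (ℤ × ℤ)) := by
    intro a b c d H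
    ext g
    obtain ⟨f, rfl⟩ := σ.f.surjective g
    rw [mem_bx, mem_RF', h.f, H]
  have hp := h.perp
  simp only [ff] at key
  rcases hp with ⟨h1 | h1, h2, h3, h4 | h4⟩ | ⟨h1, h2 | h2, h3 | h3, h4⟩ <;>
    simp only at h1 h2 h3 h4 <;> subst h1 h2 h3 h4
  · exact ⟨p1 + x₀, p1 + x₁, p2 + y₀, p2 + y₁, key _ _ _ _ fun f => by omega⟩
  · exact ⟨p1 + x₀, p1 + x₁, p2 - y₁, p2 - y₀, key _ _ _ _ fun f => by omega⟩
  · exact ⟨p1 - x₁, p1 - x₀, p2 + y₀, p2 + y₁, key _ _ _ _ fun f => by omega⟩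
  · exact ⟨p1 - x₁, p1 - x₀, p2 - y₁, p2 - y₀, key _ _ _ _ fun f => by omega⟩
  · exact ⟨p1 + y₀, p1 + y₁, p2 + x₀, p2 + x₁, key _ _ _ _ fun f => by omega⟩
  · exact ⟨p1 - y₁, p1 - y₀, p2 + x₀, p2 + x₁, key _ _ _ _ fun f => by omega⟩
  · exact ⟨p1 + y₀, p1 + y₁, p2 - x₁, p2 - x₀, key _ _ _ _ fun f => by omega⟩
  · exact ⟨p1 - y₁, p1 - y₀, p2 - x₁, p2 - x₀, key _ _ _ _ fun f => by omega⟩

theorem hasPot_bx {p T N : ℤ × ℤ} (h : IsFr σ p T N) (x₀ x₁ y₀ y₁ : ℤ) :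
    HasPot (bx σ x₀ x₁ y₀ y₁ : Set (ℤ × ℤ)) := by
  obtain ⟨a, b, c, d, e⟩ := bx_rect h x₀ x₁ y₀ y₁
  rw [e]
  exact hasPot_RF a b c d

theorem hasPot_g {p T N : ℤ × ℤ} (h : IsFr σ p T N) (R : ℤ) : HasPot (gS σ R : Set (ℤ × ℤ)) :=
  hasPot_bx h _ _ _ _

theorem joins_e (σ : Sym) : Joins (eS σ) (σ.v (0, 0)) (σ.v (1, 0)) :=
  σ.joins_iff.2 (by simp [Joins, ua, ub])

theorem side_e (hR : 0 < R) : ∃ f ∈ (gS σ R : Set (ℤ × ℤ)), IsSide f (eS σ) :=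
  ⟨σ.f (0, 0), mem_bx.2 (by simp only; omega), σ.isSide_iff.2 (Or.inl rfl)⟩

/-- The wall edges are sides of the domain. -/
theorem bdU_wall (h : Flat D σ (R + 1)) {k : ℤ} (h1 : -(R + 1) ≤ k) (h2 : k < R + 1) :
    BdU (D : Set (ℤ × ℤ)) (σ.s (k, 0, false)) :=
  ⟨⟨σ.f (k, 0), mem_coe.2 (h.ins _ h1 h2 le_rfl (by simp only; omega)), σ.isSide_iff.2 (Or.inl rfl)⟩,
    ⟨σ.f (k, -1), fun h3 => h.out k h1 h2 (mem_coe.1 h3),
      σ.isSide_iff.2 (Or.inr (Or.inr (Or.inl (by simp [to']))))⟩⟩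

theorem bdU_e (h : Flat D σ (R + 1)) (hR : 0 ≤ R) : BdU (D : Set (ℤ × ℤ)) (eS σ) :=
  bdU_wall h (by omega) (by omega)

/-- The wall edges of the half box are sides of the half box. -/
theorem bdU_wallG {k : ℤ} (h1 : -R ≤ k) (h2 : k < R) :
    BdU (gS σ R : Set (ℤ × ℤ)) (σ.s (k, 0, false)) :=
  ⟨⟨σ.f (k, 0), mem_bx.2 (by simp only; omega), σ.isSide_iff.2 (Or.inl rfl)⟩,
    ⟨σ.f (k, -1), fun h3 => by have := mem_bx.1 h3; simp only at this; omega,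
      σ.isSide_iff.2 (Or.inr (Or.inr (Or.inl (by simp [to']))))⟩⟩

/-! ### C1 -/

theorem HB_zero (R : ℤ) : (A1.HB (0, 0) R : Set (ℤ × ℤ)) = (RF (-R) R 0 R : Set (ℤ × ℤ)) := by
  unfold A1.HB
  rw [zero_sub, zero_add]

/-- The strand reaches the boundary of the box: it leaves the half box inside the domain. -/
theorem lv_of_WE (hF : Flat D σ (R + 1)) (hR : 0 < R) (h : ω ∈ A1.WE (0, 0) R) :
    σ.act ω ∈ Lv (D : Set (ℤ × ℤ)) (gS σ R : Set (ℤ × ℤ)) (eS σ) := by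
  obtain ⟨a, ha, hb⟩ := h
  rw [HB_zero] at ha
  have hne : ((0, 0, false) : UE) ≠ a := by
    rintro rfl
    unfold BdR BdE at hb
    simp only at hb
    omega
  have hm : σ.s a ∈ MM (σ.act ω) (gS σ R : Set (ℤ × ℤ)) (eS σ) := by
    unfold gS eS
    rw [coe_bx]
    exact σ.mem_MM_iff.2 ha
  have ha' : Relation.ReflTransGen (fun a a' => ∃ f ∈ (RF (-R) R 0 R : Set (ℤ × ℤ)), Mt ω f a a')
    ((0, 0, false) : UE) a := ha
  rcases Relation.ReflTransGen.cases_tail ha' with h1 | ⟨b, -, f, hf, hmt⟩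
  · exact absurd h1.symm hne
  · have hs : IsSide f a := hmt.right
    rw [mem_RF'] at hf
    obtain ⟨g, hg, hgs, hg'⟩ : ∃ g : ℤ × ℤ, (-(R + 1) ≤ g.1 ∧ g.1 < R + 1 ∧ 0 ≤ g.2 ∧
        g.2 < R + 1) ∧ IsSide g a ∧ ¬ (-R ≤ g.1 ∧ g.1 < R ∧ 0 ≤ g.2 ∧ g.2 < R) := by
      obtain ⟨x, y⟩ := f
      unfold BdR BdE at hb
      simp only at hf hb
      rcases hs with rfl | rfl | rfl | rfl
      · exfalso
        simp only [bo, Bool.false_eq_true, false_and, or_false, true_and] at hb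
        omega
      · refine ⟨(x - 1, y), ?_, Or.inr (Or.inr (Or.inr (by simp [ri, le']))), ?_⟩
        · simp only [le', Bool.true_eq_false, false_and, false_or, true_and] at hb ⊢
          omega
        · simp only [le', Bool.true_eq_false, false_and, false_or, true_and] at hb ⊢
          omega
      · refine ⟨(x, y + 1), ?_, Or.inl (by simp [bo, to']), ?_⟩
        · simp only [to', Bool.false_eq_true, false_and, or_false, true_and] at hb ⊢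
          omega
        · simp only [to', Bool.false_eq_true, false_and, or_false, true_and] at hb ⊢
          omega
      · refine ⟨(x + 1, y), ?_, Or.inr (Or.inl (by simp [ri, le'])), ?_⟩
        · simp only [ri, Bool.true_eq_false, false_and, false_or, true_and] at hb ⊢
          omega
        · simp only [ri, Bool.true_eq_false, false_and, false_or, true_and] at hb ⊢
          omega
    refine ⟨σ.s a, hm, ⟨⟨σ.f f, mem_bx.2 hf, σ.isSide_iff.2 hs⟩,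
      ⟨σ.f g, fun h => hg' (mem_bx.1 h), σ.isSide_iff.2 hgs⟩⟩, ?_⟩
    rintro ⟨-, k, hk, hks⟩
    have hfD : σ.f f ∈ D := hF.ins f (by omega) (by omega) (by omega) (by omega)
    have hgD : σ.f g ∈ D := hF.ins g hg.1 hg.2.1 hg.2.2.1 hg.2.2.2
    obtain ⟨l, rfl⟩ := σ.f.surjective k
    rw [σ.isSide_iff] at hks
    -- an edge has two faces
    have two : l = f ∨ l = g := by
      obtain ⟨l1, l2⟩ := l
      obtain ⟨f1, f2⟩ := f
      obtain ⟨g1, g2⟩ := g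
      obtain ⟨a1, a2, a3⟩ := a
      unfold IsSide bo le' to' ri at hs hgs hks
      simp only [Prod.mk.injEq] at hs hgs hks hf hg' ⊢
      cases a3 <;>
        simp only [and_true, and_false, or_false, false_or, reduceCtorEq] at hs hgs hks <;> omega
    rcases two with rfl | rfl
    · exact hk (mem_coe.2 hfD)
    · exact hk (mem_coe.2 hgD)

theorem lvN_of_free (hF : Flat D σ (R + 1)) (hR : 0 < R) (h : ω ∈ DLCor.Free (0, 0) r R) :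
    σ.act ω ∈ LvN (D : Set (ℤ × ℤ)) (gS σ R : Set (ℤ × ℤ)) (eS σ) (nS σ r R : Set (ℤ × ℤ)) := by
  obtain ⟨h1, h2⟩ := h
  refine ⟨lv_of_WE hF hR h1, fun f hf hs => h2 ?_⟩
  obtain ⟨g, rfl⟩ := σ.f.surjective f
  unfold gS eS at hs
  rw [coe_bx, σ.mem_SS_iff] at hs
  unfold nS nL nR at hf
  rw [mem_coe, mem_union, ← mem_coe, ← mem_coe, mem_bx, mem_bx] at hf
  have hs' : g ∈ SS ω (A1.HB (0, 0) R : Set (ℤ × ℤ)) ((0, 0, false) : UE) := by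
    rw [HB_zero]
    exact hs
  rcases hf with hf | hf
  · left
    exact ⟨g, hs', mem_BR'.2 (by simp only; omega)⟩
  · right
    exact ⟨g, hs', mem_BR'.2 (by simp only; omega)⟩

theorem depOn_LvN (D G N : Set (ℤ × ℤ)) (e : UE) : DepOn G (LvN D G e N) := by
  intro ω η h
  have e1 : MM η G e = MM ω G e := MM_congr fun f hf => h f hf.1
  have e2 : SS η G e = SS ω G e := SS_congr fun f hf => h f hf.1
  simp only [LvN, Lv, Set.mem_ofPred_eq, e1, e2]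

/-- **C1.** -/
theorem lvN_lower : ∃ c ρ : ℝ, 0 < c ∧ 0 < ρ ∧ ρ ≤ 1 / 4 ∧ ∀ (D W : Finset (ℤ × ℤ)) (σ : Sym)
    (r R : ℤ), Flat D σ (R + 1) → 1 ≤ r → (r : ℝ) ≤ ρ * R → D ⊆ W →
    c / R ≤ pr W (LvN (D : Set (ℤ × ℤ)) (gS σ R : Set (ℤ × ℤ)) (eS σ) (nS σ r R : Set (ℤ × ℤ))) := by
  obtain ⟨ρ, c, hρ, hc, h⟩ := DLCor.free_ge
  refine ⟨c, min ρ (1 / 4), hc, lt_min hρ (by norm_num), min_le_right _ _,
    fun D W σ r R hF hr hrR hDW => ?_⟩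
  have hrr : (1 : ℝ) ≤ r := by exact_mod_cast hr
  have hRr : (0 : ℝ) < R := by
    by_contra hcon
    push Not at hcon
    have : min ρ (1 / 4) * (R : ℝ) ≤ 0 :=
      mul_nonpos_of_nonneg_of_nonpos (le_min hρ.le (by norm_num)) hcon
    linarith
  have hR : 0 < R := by exact_mod_cast hRr
  have hgD : gS σ R ⊆ D := (hF.mono (by omega)).bx
  have k1 := h (0, 0) r R (A1.HB (0, 0) R) hr
    (hrR.trans (mul_le_mul_of_nonneg_right (min_le_left _ _) hRr.le)) subset_rfl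
  have k2 : pr W (LvN (D : Set (ℤ × ℤ)) (gS σ R : Set (ℤ × ℤ)) (eS σ) (nS σ r R : Set (ℤ × ℤ))) =
      pr (RF (-R) R 0 R) {ω | σ.act ω ∈
        LvN (D : Set (ℤ × ℤ)) (gS σ R : Set (ℤ × ℤ)) (eS σ) (nS σ r R : Set (ℤ × ℤ))} :=
    pr_fr (σ := σ) (S := RF (-R) R 0 R) (depOn_LvN _ _ _ _) (hgD.trans hDW) fun ω => Iff.rfl
  have e1 : A1.HB (0, 0) R = RF (-R) R 0 R := by
    unfold A1.HB
    rw [zero_sub, zero_add]
  rw [k2, ← e1]
  exact k1.trans (pr_mono _ fun ω hω => lvN_of_free hF hR hω)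

/-! ### C3 -/

section Pot

variable {x : ℤ × ℤ} {p T N : ℤ × ℤ}

/-- The potential is constant across a wall edge which is not `e`. -/
theorem pot_step (hσ : IsFr σ p T N) (hF : Flat D σ (R + 1))
    (hL : ω ∈ Lv (D : Set (ℤ × ℤ)) (gS σ R : Set (ℤ × ℤ)) (eS σ)) {k : ℤ} (h1 : -R ≤ k) (h2 : k < R)
    (hk : k ≠ 0) (y : ℤ × ℤ) :
    nP (gS σ R : Set (ℤ × ℤ)) (MM ω (gS σ R : Set (ℤ × ℤ)) (eS σ)) y (σ.v (k, 0)) =
      nP (gS σ R : Set (ℤ × ℤ)) (MM ω (gS σ R : Set (ℤ × ℤ)) (eS σ)) y (σ.v (k + 1, 0)) := by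
  obtain ⟨t, ht, htb, htF⟩ := hL
  have hP := nP_isPot (ω := ω) (e := eS σ) (hasPot_g hσ R) y
  by_contra hcon
  have hj : Joins (σ.s (k, 0, false)) (σ.v (k, 0)) (σ.v (k + 1, 0)) :=
    σ.joins_iff.2 (by simp [Joins, ua, ub])
  have hb := bdU_wallG (σ := σ) h1 h2
  obtain ⟨f, hf, hfs⟩ := hb.1
  have hcM := (hP.joins hf hfs hj).2 hcon
  have hce : σ.s (k, 0, false) ≠ eS σ := by
    intro h
    have := σ.s.injective h
    simp only [Prod.mk.injEq] at this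
    exact hk this.1
  have hte : t ≠ eS σ := by
    rintro rfl
    exact htF (bdU_e hF (by omega))
  have := bdU_unique (bdU_wallG (σ := σ) (k := 0) (by omega) (by omega)) ht hcM htb hb hte hce
  rw [this] at htF
  exact htF (bdU_wall hF (by omega) (by omega))

/-- **C3**, the wall on the side of `σ.v (1, 0)`. -/
theorem wallR (hσ : IsFr σ p T N) (hF : Flat D σ (R + 1))
    (hL : ω ∈ Lv (D : Set (ℤ × ℤ)) (gS σ R : Set (ℤ × ℤ)) (eS σ)) {k : ℤ} (h1 : 1 ≤ k) (h2 : k ≤ R) :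
    nP (gS σ R : Set (ℤ × ℤ)) (MM ω (gS σ R : Set (ℤ × ℤ)) (eS σ)) (σ.v (1, 0)) (σ.v (k, 0)) = 0 := by
  obtain ⟨n, rfl⟩ : ∃ n : ℕ, k = 1 + n := ⟨(k - 1).toNat, by omega⟩
  clear h1
  induction n with
  | zero => simpa using nP_self _ _ _
  | succ n ih =>
    have h3 := pot_step hσ hF hL (k := 1 + n) (by omega) (by push_cast at h2; omega) (by omega)
      (σ.v (1, 0))
    rw [ih (by push_cast at h2 ⊢; omega)] at h3
    rw [show ((1 + ((n + 1 : ℕ) : ℤ), 0) : ℤ × ℤ) = (1 + (n : ℤ) + 1, 0) by push_cast; rw [add_assoc],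
      ← h3]

/-- **C3**, the wall on the side of `σ.v (0, 0)`. -/
theorem wallL (hσ : IsFr σ p T N) (hF : Flat D σ (R + 1))
    (hL : ω ∈ Lv (D : Set (ℤ × ℤ)) (gS σ R : Set (ℤ × ℤ)) (eS σ)) {k : ℤ} (h1 : -R ≤ k) (h2 : k ≤ 0) :
    nP (gS σ R : Set (ℤ × ℤ)) (MM ω (gS σ R : Set (ℤ × ℤ)) (eS σ)) (σ.v (0, 0)) (σ.v (k, 0)) = 0 := by
  obtain ⟨n, rfl⟩ : ∃ n : ℕ, k = -n := ⟨(-k).toNat, by omega⟩
  clear h2
  induction n with
  | zero => simpa using nP_self _ _ _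
  | succ n ih =>
    have h3 := pot_step hσ hF hL (k := -((n + 1 : ℕ) : ℤ)) h1 (by push_cast at h1 ⊢; omega)
      (by push_cast; omega) (σ.v (0, 0))
    rw [h3, show ((-((n + 1 : ℕ) : ℤ) + 1, 0) : ℤ × ℤ) = (-(n : ℤ), 0) by push_cast; ring_nf]
    exact ih (by push_cast at h1 ⊢; omega)

/-- Corners of faces in a frame. -/
theorem isCor_fr (hσ : IsFr σ p T N) {f w : ℤ × ℤ} (h : IsCor f w) : IsCor (σ.f f) (σ.v w) := by
  rw [hσ.f, hσ.v]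
  obtain ⟨f1, f2⟩ := f
  obtain ⟨w1, w2⟩ := w
  obtain ⟨p1, p2⟩ := p
  obtain ⟨t1, t2⟩ := T
  obtain ⟨n1, n2⟩ := N
  unfold IsCor at h ⊢
  simp only [ff, fv] at h ⊢
  rcases hσ.perp with ⟨h1 | h1, h2, h3, h4 | h4⟩ | ⟨h1, h2 | h2, h3 | h3, h4⟩ <;>
    simp only at h1 h2 h3 h4 <;> subst h1 h2 h3 h4 <;> simp only [mul_one, mul_zero, mul_neg] <;>
    omega

/-- Every corner of a face in a frame is the image of a corner. -/
theorem isCor_fr_iff (hσ : IsFr σ p T N) {f w : ℤ × ℤ} : IsCor (σ.f f) (σ.v w) ↔ IsCor f w := by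
  refine ⟨fun h => ?_, isCor_fr hσ⟩
  rw [hσ.f, hσ.v] at h
  obtain ⟨f1, f2⟩ := f
  obtain ⟨w1, w2⟩ := w
  obtain ⟨p1, p2⟩ := p
  obtain ⟨t1, t2⟩ := T
  obtain ⟨n1, n2⟩ := N
  unfold IsCor at h ⊢
  simp only [ff, fv] at h ⊢
  rcases hσ.perp with ⟨h1 | h1, h2, h3, h4 | h4⟩ | ⟨h1, h2 | h2, h3 | h3, h4⟩ <;>
    simp only at h1 h2 h3 h4 <;> subst h1 h2 h3 h4 <;> simp only [mul_one, mul_zero, mul_neg] at h <;>
    omega

/-- Corners of a face which is not visited. -/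
theorem pot_face (hσ : IsFr σ p T N) {f : ℤ × ℤ} (hf : σ.f f ∈ (gS σ R : Set (ℤ × ℤ)))
    (hS : σ.f f ∉ SS ω (gS σ R : Set (ℤ × ℤ)) (eS σ)) {w w' : ℤ × ℤ} (hw : IsCor f w) (hw' : IsCor f w')
    (y : ℤ × ℤ) :
    nP (gS σ R : Set (ℤ × ℤ)) (MM ω (gS σ R : Set (ℤ × ℤ)) (eS σ)) y (σ.v w) =
      nP (gS σ R : Set (ℤ × ℤ)) (MM ω (gS σ R : Set (ℤ × ℤ)) (eS σ)) y (σ.v w') := by
  have hP := nP_isPot (ω := ω) (e := eS σ) (hasPot_g hσ R) y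
  exact hP.fresh hf hS (isCor_fr hσ hw) (isCor_fr hσ hw')

/-- Going up in a column of a box of faces which are not visited. -/
theorem pot_col (hσ : IsFr σ p T N) {x₀ x₁ y₁ : ℤ} (hx : x₀ < x₁) (h0 : -R ≤ x₀) (h1 : x₁ ≤ R)
    (hy : y₁ ≤ R) (hS : ∀ f ∈ (bx σ x₀ x₁ 0 y₁ : Set (ℤ × ℤ)),
      f ∉ SS ω (gS σ R : Set (ℤ × ℤ)) (eS σ)) {k l : ℤ} (hk : x₀ ≤ k) (hk' : k ≤ x₁) (hl : 0 ≤ l)
    (hl' : l ≤ y₁) (y : ℤ × ℤ) :
    nP (gS σ R : Set (ℤ × ℤ)) (MM ω (gS σ R : Set (ℤ × ℤ)) (eS σ)) y (σ.v (k, l)) =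
      nP (gS σ R : Set (ℤ × ℤ)) (MM ω (gS σ R : Set (ℤ × ℤ)) (eS σ)) y (σ.v (k, 0)) := by
  obtain ⟨n, rfl⟩ : ∃ n : ℕ, l = n := ⟨l.toNat, by omega⟩
  clear hl
  obtain ⟨c, hc0, hc1, hck⟩ : ∃ c : ℤ, x₀ ≤ c ∧ c < x₁ ∧ (k = c ∨ k = c + 1) := by
    rcases eq_or_lt_of_le hk' with h | h
    · exact ⟨x₁ - 1, by omega, by omega, by omega⟩
    · exact ⟨k, hk, h, Or.inl rfl⟩
  induction n with
  | zero => rfl
  | succ n ih =>
    rw [← ih (by push_cast at hl'; omega)]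
    have hin : σ.f (c, (n : ℤ)) ∈ (bx σ x₀ x₁ 0 y₁ : Set (ℤ × ℤ)) :=
      mem_bx.2 (by simp only; push_cast at hl'; omega)
    refine pot_face hσ (f := (c, (n : ℤ))) ?_ (hS _ hin) ?_ ?_ y
    · exact mem_bx.2 (by simp only; push_cast at hl'; omega)
    · exact ⟨hck, Or.inr (by push_cast; rfl)⟩
    · exact ⟨hck, Or.inl rfl⟩

/-- **C3**, the corner box on the side of `σ.v (1, 0)`. -/
theorem boxR (hσ : IsFr σ p T N) (hF : Flat D σ (R + 1)) (hrR : r < R)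
    (h : ω ∈ LvN (D : Set (ℤ × ℤ)) (gS σ R : Set (ℤ × ℤ)) (eS σ) (nS σ r R : Set (ℤ × ℤ)))
    {f : ℤ × ℤ} (hf : f ∈ (nR σ r R : Set (ℤ × ℤ))) :
    f ∉ SS ω (gS σ R : Set (ℤ × ℤ)) (eS σ) ∧ ∀ z, IsCor f z →
      nP (gS σ R : Set (ℤ × ℤ)) (MM ω (gS σ R : Set (ℤ × ℤ)) (eS σ)) (σ.v (1, 0)) z = 0 := by
  have hS : ∀ f ∈ (nR σ r R : Set (ℤ × ℤ)), f ∉ SS ω (gS σ R : Set (ℤ × ℤ)) (eS σ) := fun f hf =>
    h.2 f (by
      unfold nS
      rw [mem_coe, mem_union]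
      exact Or.inr (mem_coe.1 hf))
  refine ⟨hS f hf, fun z hz => ?_⟩
  obtain ⟨g, rfl⟩ := σ.f.surjective f
  obtain ⟨w, rfl⟩ := σ.v.surjective z
  rw [isCor_fr_iff hσ] at hz
  unfold nR at hf
  rw [mem_bx] at hf
  obtain ⟨w1, w2⟩ := w
  unfold IsCor at hz
  simp only at hz
  rw [pot_col hσ (x₀ := R - r) (x₁ := R) (y₁ := r) (by omega) (by omega) le_rfl hrR.le hS
    (by omega) (by omega) (by omega) (by omega)]
  exact wallR hσ hF h.1 (by omega) (by omega)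

/-- **C3**, the corner box on the side of `σ.v (0, 0)`. -/
theorem boxL (hσ : IsFr σ p T N) (hF : Flat D σ (R + 1)) (hrR : r < R)
    (h : ω ∈ LvN (D : Set (ℤ × ℤ)) (gS σ R : Set (ℤ × ℤ)) (eS σ) (nS σ r R : Set (ℤ × ℤ)))
    {f : ℤ × ℤ} (hf : f ∈ (nL σ r R : Set (ℤ × ℤ))) :
    f ∉ SS ω (gS σ R : Set (ℤ × ℤ)) (eS σ) ∧ ∀ z, IsCor f z →
      nP (gS σ R : Set (ℤ × ℤ)) (MM ω (gS σ R : Set (ℤ × ℤ)) (eS σ)) (σ.v (0, 0)) z = 0 := by
  have hS : ∀ f ∈ (nL σ r R : Set (ℤ × ℤ)), f ∉ SS ω (gS σ R : Set (ℤ × ℤ)) (eS σ) := fun f hf =>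
    h.2 f (by
      unfold nS
      rw [mem_coe, mem_union]
      exact Or.inl (mem_coe.1 hf))
  refine ⟨hS f hf, fun z hz => ?_⟩
  obtain ⟨g, rfl⟩ := σ.f.surjective f
  obtain ⟨w, rfl⟩ := σ.v.surjective z
  rw [isCor_fr_iff hσ] at hz
  unfold nL at hf
  rw [mem_bx] at hf
  obtain ⟨w1, w2⟩ := w
  unfold IsCor at hz
  simp only at hz
  rw [pot_col hσ (x₀ := -R) (x₁ := -R + r) (y₁ := r) (by omega) le_rfl (by omega) hrR.le hS
    (by omega) (by omega) (by omega) (by omega)]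
  exact wallL hσ hF h.1 (by omega) (by omega)

end Pot

end Pool.Agent.SixB.LowE
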