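import Pool.Agent.Lib.SixB.CADomLowB

/-!
# 6BD, block CA: lower bound with the marked side `e`, the left side

`refl m w`: the contour `w` in the opposite direction, the last side remains the last side; it exchanges
`x = w 0` and `x' = w (m - 1)`. `both_conn`: on the event `LowEv`, `x` is joined to the arc `[a₁, a₂]` of `w`
and `x'` is joined to the arc `[b₁, b₂]` of `refl m w`.
-/

set_option autoImplicit false

namespace Pool.Agent.SixB.Low

open Finset Pool.Agent.Perc Pool.Agent.PercT Pool.Agent.Perc6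

variable {ω : Cfg} {e : UE} {m : ℕ} {w : ℕ → ℤ × ℤ}

/-- The contour in the opposite direction. -/
def refl (m : ℕ) (w : ℕ → ℤ × ℤ) (i : ℕ) : ℤ × ℤ := if i < m then w (m - 1 - i) else w (m - 1)

theorem refl_lt {i : ℕ} (hi : i < m) : refl m w i = w (m - 1 - i) := if_pos hi

theorem refl_zero (hm : 0 < m) : refl m w 0 = w (m - 1) := by
  rw [refl_lt hm, Nat.sub_zero]

theorem refl_self : refl m w m = w (m - 1) := if_neg (lt_irrefl m)

theorem refl_pred (hm : 0 < m) : refl m w (m - 1) = w 0 := by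
  rw [refl_lt (by omega), Nat.sub_self]

/-- The index of the reflected side. -/
def rix (m i : ℕ) : ℕ := if i + 1 < m then m - 2 - i else m - 1

theorem rix_lt {i : ℕ} (hi : i < m) : rix m i < m := by
  unfold rix
  split_ifs <;> omega

theorem rix_rix {i : ℕ} (hi : i < m) : rix m (rix m i) = i := by
  unfold rix
  split_ifs <;> omega

theorem refl_side (hc : w m = w 0) {i : ℕ} (hi : i < m) :
    refl m w i = w (rix m i + 1) ∧ refl m w (i + 1) = w (rix m i) := by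
  unfold rix
  by_cases h : i + 1 < m
  · rw [if_pos h, refl_lt hi, refl_lt h]
    exact ⟨congrArg w (by omega), congrArg w (by omega)⟩
  · rw [if_neg h, refl_lt hi]
    have h1 : i + 1 = m := by omega
    have h2 : m - 1 + 1 = m := by omega
    rw [h1, refl_self, h2, hc]
    exact ⟨congrArg w (by omega), rfl⟩

theorem refl_joins (hc : w m = w 0) {i : ℕ} (hi : i < m) {a : UE} :
    Joins a (refl m w i) (refl m w (i + 1)) ↔ Joins a (w (rix m i)) (w (rix m i + 1)) := by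
  obtain ⟨h1, h2⟩ := refl_side hc hi
  rw [h1, h2]
  exact ⟨fun h => h.symm, fun h => h.symm⟩

/-- The reflected contour is a contour. -/
theorem ctr_refl {F : Set (ℤ × ℤ)} (h : Ctr F m w) (hm : 0 < m) : Ctr F m (refl m w) where
  close := by rw [refl_self, refl_zero hm]
  step := by
    intro i hi
    obtain ⟨a, ha, hj⟩ := h.step _ (rix_lt hi)
    exact ⟨a, ha, (refl_joins h.close hi).2 hj⟩
  all := by
    intro a ha
    obtain ⟨i, hi, hj⟩ := h.all a ha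
    refine ⟨rix m i, rix_lt hi, (refl_joins h.close (rix_lt hi)).2 ?_⟩
    rw [rix_rix hi]
    exact hj
  inj := by
    intro i hi k hk a ha hb
    have h1 := h.inj _ (rix_lt hi) _ (rix_lt hk) a ((refl_joins h.close hi).1 ha)
      ((refl_joins h.close hk).1 hb)
    rw [← rix_rix hi, h1, rix_rix hk]
  pot := h.pot

/-- **Both sides.** -/
theorem both_conn {F G : Finset (ℤ × ℤ)} {kR kL a₁ a₂ kR' kL' b₁ b₂ : ℕ}
    {I J : Finset ((ℤ × ℤ) × ℤ)} {N NR NL : Set (ℤ × ℤ)} (h : Ctr (F : Set (ℤ × ℤ)) m w)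
    (hGF : (G : Set (ℤ × ℤ)) ⊆ F) (hG : HasPot (G : Set (ℤ × ℤ)))
    (HR : RSide (F : Set (ℤ × ℤ)) (G : Set (ℤ × ℤ)) m w e kR kL a₁ a₂ I NR)
    (HL : RSide (F : Set (ℤ × ℤ)) (G : Set (ℤ × ℤ)) m (refl m w) e kR' kL' b₁ b₂ J NL)
    (hE : ω ∈ LowEv (F : Set (ℤ × ℤ)) (G : Set (ℤ × ℤ)) I J N e (w 0) (w (m - 1)))
    (hNR : ∀ f ∈ NR, f ∈ (G : Set (ℤ × ℤ)) → f ∉ SS ω G e ∧ nP G (MM ω G e) (w 0) f = 0)
    (hNL : ∀ f ∈ NL, f ∈ (G : Set (ℤ × ℤ)) → f ∉ SS ω G e ∧ nP G (MM ω G e) (w (m - 1)) f = 0) :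
    (∃ a, a₁ ≤ a ∧ a ≤ a₂ ∧ Conn ω F (w 0) (w a)) ∧
      ∃ b, b₁ ≤ b ∧ b ≤ b₂ ∧ Conn ω F (w (m - 1)) (refl m w b) := by
  obtain ⟨⟨hL, -⟩, hB, hB'⟩ := hE
  have hm := HR.m_pos
  have e0 : refl m w 0 = w (m - 1) := refl_zero hm
  have e1 : refl m w (m - 1) = w 0 := refl_pred hm
  refine ⟨right_conn h hGF hG HR hL hNR hB, ?_⟩
  have h2 := right_conn (ctr_refl h hm) hGF hG HL hL (by rw [e0]; exact hNL)
    (by rw [e0, e1]; exact hB')
  rw [e0] at h2
  exact h2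

/-- The arc `[b₁, b₂]` of the reflected contour is the arc `[m - 1 - b₂, m - 1 - b₁]` of the contour. -/
theorem refl_arc {F : Set (ℤ × ℤ)} {z : ℤ × ℤ} {b₁ b₂ : ℕ} (hb : b₂ < m)
    (h : ∃ b, b₁ ≤ b ∧ b ≤ b₂ ∧ Conn ω F z (refl m w b)) :
    ∃ b, m - 1 - b₂ ≤ b ∧ b ≤ m - 1 - b₁ ∧ Conn ω F z (w b) := by
  obtain ⟨b, h1, h2, h3⟩ := h
  rw [refl_lt (by omega)] at h3
  exact ⟨m - 1 - b, by omega, by omega, h3⟩

end Pool.Agent.SixB.Low
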