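import Pool.Agent.Lib.SixB.CADomLowD
import Pool.Agent.Lib.SixB.CADomLowE
import Pool.Agent.Lib.SixB.CADomLowL
import Pool.Agent.Lib.SixB.TopCA

/-!
# 6BD, block CA: lower bound with the marked side `e`, the final event

`e` = the side of the contour of `rf n P` from `X - 1` to `X`, `LowGeo` = the nets `I`, `J` of the two walls next
to `e`. `evE P g n X σ R r I' J'` is the event `LowEv` for nets `I'`, `J'` which contain `I`, `J` (additional annuli off the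
half box of `e` are allowed, they are blocked as well).
* `LowGeo.conn_right`, `LowGeo.conn_left`: on the event the vertex `X` is joined to the arc `[i1, i2]` and the
  vertex `X - 1` is joined to the arc `[i2', i3]`.
* `evE_ring_right`, `evE_ring_left`: the additional annuli are blocked in `rf n P`.
* `depOn_evE`: the faces; `pr_evE`: the probability is at least `c ^ (1 + card I' + card J') / n`.
* `exists_lowEv`: the statement without additional annuli.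
-/

set_option autoImplicit false

namespace Pool.Agent.SixB.Low

open Finset Pool.Agent.Perc Pool.Agent.PercT Pool.Agent.Perc6
open Pool.Agent.SixB.Third (IsFr Flat bx)
open Pool.Agent.SixB.LowE (gS nR nL nS eS)
open Pool.Agent.SixB.CARf (mpoly_rf cont_rf)

variable {P : Finset (ℤ × ℤ)} {L : ℕ} {g : ℤ → ℤ × ℤ}

/-- A contour is determined by the vertices up to the index `m`. -/
theorem ctr_congr {F : Set (ℤ × ℤ)} {m : ℕ} {w w' : ℕ → ℤ × ℤ} (h : Ctr F m w)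
    (hw : ∀ i ≤ m, w' i = w i) : Ctr F m w' where
  close := by rw [hw m le_rfl, hw 0 (Nat.zero_le m), h.close]
  step := by
    intro i hi
    rw [hw i hi.le, hw (i + 1) hi]
    exact h.step i hi
  all := by
    intro a ha
    obtain ⟨i, hi, hj⟩ := h.all a ha
    refine ⟨i, hi, ?_⟩
    rw [hw i hi.le, hw (i + 1) hi]
    exact hj
  inj := by
    intro i hi k hk a ha hb
    rw [hw i hi.le, hw (i + 1) hi] at ha
    rw [hw k hk.le, hw (k + 1) hk] at hb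
    exact h.inj i hi k hk a ha hb
  pot := h.pot

/-- The contour of the refinement which starts at `X` and ends with the side `(X - 1, X)`. -/
theorem ctr_right (hP : MPoly P) (hg : Cont P L g) {n : ℕ} (hn : 0 < n) (X : ℤ) :
    Ctr (rf n P : Set (ℤ × ℤ)) (n * L) (fun i : ℕ => gr n g (X - n * L + i)) := by
  have h := (mpoly_rf hP hn).ctr (cont_rf hg hn) (X - n * L)
  exact h

/-- The contour in the opposite direction, it starts at `X - 1` and ends with the side `(X, X - 1)`. -/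
theorem ctr_left (hP : MPoly P) (hg : Cont P L g) {n : ℕ} (hn : 0 < n) (X : ℤ) :
    Ctr (rf n P : Set (ℤ × ℤ)) (n * L) (fun i : ℕ => gr n g (X - 1 - i)) := by
  have hm : 0 < n * L := Nat.mul_pos hn hg.pos
  have hc : (((n * L : ℕ) : ℤ)) = n * L := by push_cast; ring
  refine ctr_congr (ctr_refl (ctr_right hP hg hn X) hm) fun i hi => ?_
  rcases Nat.lt_or_ge i (n * L) with h | h
  · rw [refl_lt h]
    refine congrArg (gr n g) ?_
    push_cast [Nat.sub_sub, Nat.cast_sub (show 1 + i ≤ n * L by omega)]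
    ring
  · have h1 : i = n * L := le_antisymm hi h
    subst h1
    rw [refl_self]
    have h2 := (cont_rf hg hn).per (X - 1 - n * L)
    push_cast [Nat.cast_sub (show 1 ≤ n * L by omega)] at h2 ⊢
    have e1 : X - 1 - (n : ℤ) * L + n * L = X - 1 := by ring
    have e2 : X - (n : ℤ) * L + (n * L - 1) = X - 1 := by ring
    rw [e1] at h2
    rw [e2, h2]

/-- the event, for the nets `I`, `J` -/
def evE (P : Finset (ℤ × ℤ)) (g : ℤ → ℤ × ℤ) (n : ℕ) (X : ℤ) (σ : Sym) (R r : ℤ)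
    (I J : Finset ((ℤ × ℤ) × ℤ)) : Set Cfg :=
  LowEv (rf n P : Set (ℤ × ℤ)) (gS σ R : Set (ℤ × ℤ)) I J (nS σ r R : Set (ℤ × ℤ)) (eS σ) (gr n g X)
    (gr n g (X - 1))

/-- more annuli -/
theorem RSide.mono {F G : Set (ℤ × ℤ)} {m : ℕ} {w : ℕ → ℤ × ℤ} {e : UE} {kR kL a₁ a₂ : ℕ}
    {I I' : Finset ((ℤ × ℤ) × ℤ)} {N : Set (ℤ × ℤ)} (H : RSide F G m w e kR kL a₁ a₂ I N)
    (hI : I ⊆ I') (h0 : ∀ i ∈ I', 0 < i.2) : RSide F G m w e kR kL a₁ a₂ I' N where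
  kR_le := H.kR_le
  kL_le := H.kL_le
  m_pos := H.m_pos
  lt₁ := H.lt₁
  le₁₂ := H.le₁₂
  le₂ := H.le₂
  join := H.join
  side := H.side
  right := H.right
  left := H.left
  rad := h0
  cov b hb hb' := by
    obtain ⟨i, hi, h⟩ := H.cov b hb hb'
    exact ⟨i, hI hi, h⟩

section geo

variable {n : ℕ} {X i1 i2 i2' i3 : ℤ} {d : ℝ} {σ : Sym} {p T N : ℤ × ℤ} {R r : ℤ}
  {I J I' J' : Finset ((ℤ × ℤ) × ℤ)} {ω : Cfg}

theorem LowGeo.R_pos (H : LowGeo P L g n X i1 i2 i2' i3 d σ p T N R r I J) : 0 < R := by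
  have h1 := H.r1
  have h2 := H.rR
  omega

theorem LowGeo.sub (H : LowGeo P L g n X i1 i2 i2' i3 d σ p T N R r I J) :
    (gS σ R : Set (ℤ × ℤ)) ⊆ (rf n P : Set (ℤ × ℤ)) :=
  coe_subset.2 (H.flat.mono (show R ≤ R + 1 by omega)).bx

/-- the vertex `X` is joined to the arc `[i1, i2]` -/
theorem LowGeo.conn_right (H : LowGeo P L g n X i1 i2 i2' i3 d σ p T N R r I J) (hP : MPoly P)
    (hg : Cont P L g) (hn : 0 < n) (hrR : r < R) (hI : I ⊆ I') (h0 : ∀ i ∈ I', 0 < i.2)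
    (hω : ω ∈ evE P g n X σ R r I' J') :
    ∃ a, i1 ≤ a ∧ a ≤ i2 ∧ Conn ω (rf n P : Set (ℤ × ℤ)) (gr n g X) (gr n g a) := by
  obtain ⟨hLv, hB, -⟩ := hω
  have hm' : 0 < n * L := H.right.m_pos
  have hc : (((n * L : ℕ) : ℤ)) = n * L := by push_cast; ring
  have w0 : gr n g (X - n * L + ((0 : ℕ) : ℤ)) = gr n g X := by
    have h4 := (cont_rf hg hn).per (X - n * L)
    rw [hc, sub_add_cancel] at h4
    rw [h4]
    simp
  have w1 : gr n g (X - n * L + ((n * L - 1 : ℕ) : ℤ)) = gr n g (X - 1) := by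
    refine congrArg (gr n g) ?_
    push_cast [Nat.cast_sub (show 1 ≤ n * L by omega)]
    ring
  obtain ⟨a, ha1, ha2, ha3⟩ := right_conn (ctr_right hP hg hn X) H.sub (LowE.hasPot_g H.fr R)
    (H.right.mono hI h0) hLv.1 (by
    intro f hf _
    have h4 := LowE.boxR H.fr H.flat hrR hLv (mem_coe.2 hf)
    rw [w0, ← H.v1]
    exact ⟨h4.1, h4.2 f (by simp [IsCor])⟩) (by rw [w0, w1]; exact hB)
  rw [w0] at ha3
  have h5 := H.right.lt₁
  have h6 := H.right.le₁₂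
  exact ⟨X - n * L + a, by omega, by omega, ha3⟩

/-- the vertex `X - 1` is joined to the arc `[i2', i3]` -/
theorem LowGeo.conn_left (H : LowGeo P L g n X i1 i2 i2' i3 d σ p T N R r I J) (hP : MPoly P)
    (hg : Cont P L g) (hn : 0 < n) (hrR : r < R) (hJ : J ⊆ J') (h0 : ∀ i ∈ J', 0 < i.2)
    (hω : ω ∈ evE P g n X σ R r I' J') :
    ∃ b, i2' ≤ b ∧ b ≤ i3 ∧ Conn ω (rf n P : Set (ℤ × ℤ)) (gr n g (X - 1)) (gr n g b) := by
  obtain ⟨hLv, -, hB'⟩ := hω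
  have hm' : 0 < n * L := H.right.m_pos
  have hc : (((n * L : ℕ) : ℤ)) = n * L := by push_cast; ring
  have w0' : gr n g (X - 1 - ((0 : ℕ) : ℤ)) = gr n g (X - 1) := by simp
  have w1' : gr n g (X - 1 - ((n * L - 1 : ℕ) : ℤ)) = gr n g X := by
    have h4 := (cont_rf hg hn).per (X - n * L)
    rw [hc, sub_add_cancel] at h4
    rw [h4]
    refine congrArg (gr n g) ?_
    push_cast [Nat.cast_sub (show 1 ≤ n * L by omega)]
    ring
  obtain ⟨a, ha1, ha2, ha3⟩ := right_conn (ctr_left hP hg hn X) H.sub (LowE.hasPot_g H.fr R)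
    (H.left.mono hJ h0) hLv.1 (by
    intro f hf _
    have h4 := LowE.boxL H.fr H.flat hrR hLv (mem_coe.2 hf)
    rw [w0', ← H.v0]
    exact ⟨h4.1, h4.2 f (by simp [IsCor])⟩) (by rw [w0', w1']; exact hB')
  rw [w0'] at ha3
  have h5 := H.left.lt₁
  have h6 := H.left.le₁₂
  exact ⟨X - 1 - a, by omega, by omega, ha3⟩

/-- the faces of the event -/
theorem depOn_evE : DepOn ((gS σ R : Set (ℤ × ℤ)) ∪ ((rf n P : Set (ℤ × ℤ)) ∩ (BO I' ∪ BO J')))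
    (evE P g n X σ R r I' J') := depOn_lowEv _ _ _ _ _ _ _ _

/-- the event depends only on the faces off the boxes of `i2`, `i2'` -/
theorem LowGeo.depOn (H : LowGeo P L g n X i1 i2 i2' i3 d σ p T N R r I J)
    (hoff : ∀ f, (f ∈ BO I' ∨ f ∈ BO J') → ∀ d' : ℤ, (d' : ℝ) ≤ d →
      f ∉ RFb (gr n g i2) d' ∧ f ∉ RFb (gr n g i2') d') :
    DepOn {f | f ∈ rf n P ∧ ∀ d' : ℤ, (d' : ℝ) ≤ d →
      f ∉ RFb (gr n g i2) d' ∧ f ∉ RFb (gr n g i2') d'} (evE P g n X σ R r I' J') := by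
  intro ω η h
  refine depOn_evE ω η fun f hf => h f ?_
  rcases hf with hf | ⟨hf, hf'⟩
  · exact ⟨mem_coe.1 (H.sub hf), H.off f (Or.inl (mem_coe.1 hf))⟩
  · exact ⟨mem_coe.1 hf, hoff f hf'⟩

/-- an arm may be cut at the outer box -/
theorem fArm_cut {col : ℤ} {F : Set (ℤ × ℤ)} {q : ℤ × ℤ} {a b : ℤ} (hab : a ≤ b)
    (h : ω ∈ FArm col F q a b) : ω ∈ FArm col (F ∩ (RFb q b : Set (ℤ × ℤ))) q a b := by
  obtain ⟨u, v, a1, a2, a3, a4, a5, a6, a7⟩ := h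
  obtain ⟨w, hw, hw'⟩ := Conn.toBd (x₀ := q.1 - b) (x₁ := q.1 + b) (y₀ := q.2 - b)
    (y₁ := q.2 + b) a7 (by omega) a6
  refine ⟨u, w, a1, a2, a3, a4, a5, ?_, hw⟩
  unfold OnBd at hw'
  omega

/-- an additional annulus on the right is blocked: no path of the colour of `X - 1` -/
theorem evE_ring_right (hω : ω ∈ evE P g n X σ R r I' J') {i : (ℤ × ℤ) × ℤ} (hi : i ∈ I')
    (h0 : 0 < i.2)
    (hG : ∀ f ∈ rf n P, f ∈ RFb i.1 (4 * i.2) → f ∉ gS σ R) :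
    ω ∉ FArm (par (gr n g (X - 1))) (rf n P : Set (ℤ × ℤ)) i.1 i.2 (4 * i.2) := by
  intro h
  refine hω.2.1 i hi (fArm_mono ?_ le_rfl le_rfl (fArm_cut (by omega) h))
  rintro f ⟨hf, hf'⟩
  exact Or.inr ⟨hf, fun h1 => hG f (mem_coe.1 hf) hf' (mem_coe.1 h1), i, hi, hf'⟩

/-- an additional annulus on the left is blocked: no path of the colour of `X` -/
theorem evE_ring_left (hω : ω ∈ evE P g n X σ R r I' J') {i : (ℤ × ℤ) × ℤ} (hi : i ∈ J')
    (h0 : 0 < i.2)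
    (hG : ∀ f ∈ rf n P, f ∈ RFb i.1 (4 * i.2) → f ∉ gS σ R) :
    ω ∉ FArm (par (gr n g X)) (rf n P : Set (ℤ × ℤ)) i.1 i.2 (4 * i.2) := by
  intro h
  refine hω.2.2 i hi (fArm_mono ?_ le_rfl le_rfl (fArm_cut (by omega) h))
  rintro f ⟨hf, hf'⟩
  exact Or.inr ⟨hf, fun h1 => hG f (mem_coe.1 hf) hf' (mem_coe.1 h1), i, hi, hf'⟩

end geo

/-- **the probability of the event** -/
theorem pr_evE : ∃ c θ : ℝ, 0 < c ∧ c ≤ 1 ∧ 0 < θ ∧ θ ≤ 1 / 4 ∧
    ∀ (P : Finset (ℤ × ℤ)) (L : ℕ) (g : ℤ → ℤ × ℤ) (n : ℕ) (X i1 i2 i2' i3 : ℤ) (d : ℝ) (σ : Sym)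
      (p T N : ℤ × ℤ) (R r : ℤ) (I J I' J' : Finset ((ℤ × ℤ) × ℤ)),
      LowGeo P L g n X i1 i2 i2' i3 d σ p T N R r I J → (r : ℝ) ≤ θ * R →
      (∀ i ∈ I', 0 < i.2) → (∀ i ∈ J', 0 < i.2) →
      (∀ f ∈ rf n P, f ∉ gS σ R → f ∈ BO I' → f ∉ BO J') →
      c ^ (1 + I'.card + J'.card) / n ≤ pr (rf n P) (evE P g n X σ R r I' J') := by
  obtain ⟨c₁, θ, hc₁, hθ, hθ', hC1⟩ := LowE.lvN_lower
  obtain ⟨c₀, hc₀, hc₀', hlow⟩ := pr_low
  refine ⟨min c₁ c₀, θ, lt_min hc₁ hc₀, (min_le_right _ _).trans hc₀', hθ, hθ', ?_⟩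
  intro P L g n X i1 i2 i2' i3 d σ p T N R r I J I' J' H hrR hI hJ hdis
  have hR0 := H.R_pos
  have hRr : (0 : ℝ) < R := by exact_mod_cast hR0
  have hj : Joins (eS σ) (gr n g X) (gr n g (X - 1)) := by
    rw [← H.v0, ← H.v1]
    exact (LowE.joins_e σ).symm
  have k1 := hlow (rf n P : Set (ℤ × ℤ)) (gS σ R : Set (ℤ × ℤ)) I' J' (nS σ r R : Set (ℤ × ℤ)) (eS σ)
    (gr n g X) (gr n g (X - 1)) (rf n P) hI hJ (LowE.hasPot_g H.fr R) hj (LowE.side_e hR0)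
    (fun f hf hf' => hdis f (mem_coe.1 hf) fun h4 => hf' (mem_coe.2 h4)) H.sub subset_rfl
  have k2 := hC1 (rf n P) (rf n P) σ r R H.flat H.r1 hrR subset_rfl
  have hRn' : (R : ℝ) ≤ n := by exact_mod_cast H.Rn
  have k3 : min c₁ c₀ / n ≤ c₁ / R :=
    div_le_div₀ hc₁.le (min_le_left _ _) hRr hRn'
  have k4 : min c₁ c₀ ^ (I'.card + J'.card) ≤ c₀ ^ (I'.card + J'.card) :=
    pow_le_pow_left₀ (lt_min hc₁ hc₀).le (min_le_right _ _) _
  have hmin := lt_min hc₁ hc₀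
  calc min c₁ c₀ ^ (1 + I'.card + J'.card) / n
      = min c₁ c₀ ^ (I'.card + J'.card) * (min c₁ c₀ / n) := by
        rw [add_assoc, pow_add, pow_one]; ring
    _ ≤ c₀ ^ (I'.card + J'.card) * pr (rf n P) (LvN (rf n P : Set (ℤ × ℤ)) (gS σ R : Set (ℤ × ℤ))
        (eS σ) (nS σ r R : Set (ℤ × ℤ))) :=
      mul_le_mul k4 (k3.trans k2) (by positivity) (by positivity)
    _ ≤ pr (rf n P) (evE P g n X σ R r I' J') := k1

/-- **The event.** -/
theorem exists_lowEv (hP : MPoly P) (hg : Cont P L g) {t₁ t₂ t₂' t₃ t₄ : ℝ}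
    (hm : Marks5 L g t₁ t₂ t₂' t₃ t₄) : ∃ ρ c : ℝ, 0 < ρ ∧ 0 < c ∧ ∃ n0 : ℕ, 0 < n0 ∧ ∀ n ≥ n0,
      ∀ X i1 i2 i2' i3 : ℤ, |(X : ℝ) / n - t₄| < ρ → |(i1 : ℝ) / n - t₁| < ρ →
      |(i2 : ℝ) / n - t₂| < ρ → |(i2' : ℝ) / n - t₂'| < ρ → |(i3 : ℝ) / n - t₃| < ρ →
      ∃ E : Set Cfg, DepOn {f | f ∈ rf n P ∧ ∀ d : ℤ, (d : ℝ) ≤ ρ * n →
          f ∉ RFb (gr n g i2) d ∧ f ∉ RFb (gr n g i2') d} E ∧
        (∀ ω ∈ E, (∃ a, i1 ≤ a ∧ a ≤ i2 ∧ Conn ω (rf n P : Set (ℤ × ℤ)) (gr n g X) (gr n g a)) ∧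
          ∃ b, i2' ≤ b ∧ b ≤ i3 ∧ Conn ω (rf n P : Set (ℤ × ℤ)) (gr n g (X - 1)) (gr n g b)) ∧
        c / n ≤ pr (rf n P) E := by
  obtain ⟨c, θ, hc, hc1, hθ, hθ', hpr⟩ := pr_evE
  obtain ⟨ρ, hρ, K, n0, hD⟩ := exists_lowGeo hg hm hθ (by linarith)
  refine ⟨ρ, c ^ (1 + 2 * K), hρ, by positivity, n0 + 1, by omega, ?_⟩
  intro n hn X i1 i2 i2' i3 hX h1 h2 h2' h3
  have hn0 : 0 < n := by omega
  obtain ⟨σ, p, T, N, R, r, I, J, H, hRn, hrR, hI, hJ⟩ := hD n (by omega) X i1 i2 i2' i3 hX h1 h2 h2' h3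
  have hR0 := H.R_pos
  have hRr : (0 : ℝ) < R := by exact_mod_cast hR0
  have hrR' : r < R := by
    have h4 : (r : ℝ) < R := by nlinarith
    exact_mod_cast h4
  refine ⟨evE P g n X σ R r I J, H.depOn fun f hf => H.off f (Or.inr hf), fun ω hω =>
    ⟨H.conn_right hP hg hn0 hrR' subset_rfl H.right.rad hω,
      H.conn_left hP hg hn0 hrR' subset_rfl H.left.rad hω⟩, ?_⟩
  refine le_trans ?_ (hpr P L g n X i1 i2 i2' i3 _ σ p T N R r I J I J H hrR H.right.rad H.left.rad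
    fun f hf hf' => H.dis f hf hf')
  exact div_le_div_of_nonneg_right (pow_le_pow_of_le_one hc.le hc1 (by omega)) (by positivity)

end Pool.Agent.SixB.Low
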