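import Pool.Agent.Lib.SixB.CAEnvD

/-!
# 6BD block CA: the environment of a contour is an arrow sum; the functions `uN`, `uP`, `uX`

`Cont F m g`, `Disc ZQ F G (cword g ν m k)` (helper13: `Cont.disc_of_esc`, `MPoly.disc`).
* `IsPh g ν j ψ`: the boundary phases `ψ` have the jumps `j`: `ψ (side v) - ψ (side (v - 1)) +
  (ν v - ν (v - 1)) π / 12 = j v`. `exists_ph`: they exist.
* `cenv_W`, `cenv_num`, `cenv_Z`, `cenv_mA`: `W`, `num`, `Z`, `mA` of `cenv F g m j` are `WU`, `WU1`, `av WU` divided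
  by `√3 ^ (m / 2)`, and `uE`; `cenv_hU`: `(cenv F g m j).hU z z' = Ht.uH ZQ F ψ z z'`; `cenv_arrow`: `i` times it is
  the mean height difference of the arrow configurations.
* `jN`: jump `π / 3` at one contour vertex; `uN`, `uP`, `uX`: the functions of `CAIn`.
-/

set_option autoImplicit false
set_option linter.unusedSectionVars false

namespace Pool.Agent.SixB

open Pool.Agent.Perc Pool.Agent.Perc.Q Relation
open Ht (tJ dJ)

noncomputable section

variable {F : Finset (ℤ × ℤ)} {ω : Cfg} {a b e x y : DZ} {z z' z'' : VZ} {g : ℤ → VZ} {ν : ℤ → ℤ}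
  {m : ℕ} {j : ℤ → ℝ} {ψ : DZ → ℝ} {G : Set DZ} {k : ℤ}

/-- the boundary phases `ψ` have the jumps `j` -/
def IsPh (g : ℤ → VZ) (ν : ℤ → ℤ) (j : ℤ → ℝ) (ψ : DZ → ℝ) : Prop :=
  ∀ v : ℤ, ψ (csd g v) - ψ (csd g (v - 1)) + ((ν v - ν (v - 1) : ℤ) : ℝ) * (Real.pi / 12) = j v

theorem cword_get (g : ℤ → VZ) (ν : ℤ → ℤ) (m : ℕ) (k : ℤ) {i : ℕ} (hi : i < (cword g ν m k).length) :
    (cword g ν m k)[i] = (csd g (k + i), ν (k + i)) := by
  have h1 := List.getElem?_eq_getElem hi
  rw [cword_length] at hi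
  rw [cword_getElem? g ν k hi] at h1
  exact (Option.some.inj h1).symm

theorem th_cword {i : ℕ} (hi : i < m) :
    th (cword g ν m k) ψ i = ψ (csd g (k + i)) + (ν (k + i) : ℝ) * (Real.pi / 12) := by
  have hl : i < (cword g ν m k).length := by rw [cword_length]; exact hi
  rw [th_lt ψ hl, cword_get]

/-- differences of phase and direction are sums of jumps -/
theorem IsPh.th_sub (h : IsPh g ν j ψ) {i l : ℕ} (hil : i ≤ l) (hl : l < m) :
    th (cword g ν m k) ψ l - th (cword g ν m k) ψ i = csum j (k + i) (k + l) := by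
  induction l with
  | zero =>
    obtain rfl : i = 0 := by omega
    rw [sub_self, csum_self]
  | succ l ih =>
    rcases Nat.eq_or_lt_of_le hil with rfl | h1
    · rw [sub_self, csum_self]
    · have h2 := ih (by omega) (by omega)
      have e1 : k + ((l + 1 : ℕ) : ℤ) = k + l + 1 := by push_cast; ring
      rw [e1, csum_succ j (by omega : k + (i : ℤ) ≤ k + l), ← h2, th_cword hl,
        th_cword (by omega : l < m), e1]
      have h3 := h (k + l + 1)
      rw [show k + (l : ℤ) + 1 - 1 = k + l by ring] at h3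
      push_cast at h3
      linarith

theorem dth_pos {V Φ : Type} [DecidableEq V] [DecidableEq Φ] {Q : QC V Φ} {F : Finset Φ}
    {G : Set (V × V)} {w : List ((V × V) × ℤ)} (ψ : V × V → ℝ) (h : Disc Q (F : Set Φ) G w) {i l : ℕ}
    (hi : i < w.length) (hl : l < w.length) (hil : i < l) :
    dth w ψ (w[i].1) (w[l].1) = th w ψ l - th w ψ i - Real.pi / 6 := by
  unfold dth
  rw [h.idx hi, h.idx hl, if_pos hil]

section disc

variable (hc : Cont F m g) (hD : Disc ZQ (F : Set (ℤ × ℤ)) G (cword g ν m k))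

include hc

/-- the sides of the contour are the boundary sides -/
theorem Cont.ini (i : ℤ) : Ini ZQ (F : Set (ℤ × ℤ)) (csd g i) := by
  intro f hf l hl
  apply (lside_sides.mp (hc.side i)).2
  refine ⟨f, hf, l, ?_⟩
  show (csd g i).swap = _
  rw [hl]
  rfl

theorem cword_ini : ∀ e ∈ (cword g ν m k).map Prod.fst, Ini ZQ (F : Set (ℤ × ℤ)) e := by
  intro e he
  obtain ⟨x, hx, rfl⟩ := List.mem_map.mp he
  obtain ⟨i, hi, rfl⟩ := List.getElem_of_mem hx
  rw [cword_get]
  exact hc.ini _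

theorem Cont.csd_mem_bS (i : ℤ) : csd g i ∈ bS ZQ F := by
  obtain ⟨f, hf, l, hl⟩ := (lside_sides.mp (hc.side i)).1
  refine mem_bS.mpr ⟨?_, hc.ini i⟩
  show (g i, g (i + 1)) ∈ _
  rw [hl]
  exact sd_mem (by exact_mod_cast hf) l

include hD

/-- the positions of two boundary sides -/
theorem bS_pos (ha : a ∈ bS ZQ F) : ∃ i : ℕ, i < m ∧ a = csd g (k + i) := by
  obtain ⟨x, hx, hxa⟩ := List.mem_map.mp ((hD.mem_bS (cword_ini hc)).mp ha)
  obtain ⟨i, hi, hix⟩ := List.getElem_of_mem hx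
  have hi' : i < m := by rw [cword_length] at hi; exact hi
  have h1 : ((cword g ν m k)[i]).1 = csd g (k + i) := by rw [cword_get]
  exact ⟨i, hi', by rw [← h1, hix, hxa]⟩

/-- `cenv` agrees with the environment of the disc -/
theorem cenv_envD (hj : ∀ v, j (v + m) = j v) (h0 : csum j 0 m = Real.pi / 3) (hψ : IsPh g ν j ψ)
    (ha : a ∈ bS ZQ F) (hb : b ∈ bS ZQ F) (hab : a ≠ b) :
    (cenv F g m j).t a b = (envD F (cword g ν m k) ψ).t a b ∧
    (cenv F g m j).s a b = (envD F (cword g ν m k) ψ).s a b := by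
  have key : ∀ {a b : DZ} {i l : ℕ}, i < l → l < m → a = csd g (k + i) → b = csd g (k + l) →
      (cenv F g m j).t a b = (envD F (cword g ν m k) ψ).t a b ∧
      (cenv F g m j).s a b = (envD F (cword g ν m k) ψ).s a b := by
    intro a b i l hil hl ha hb
    obtain ⟨h1, h2⟩ := cenv_ts (F := F) hc hj h0 (i := k + i) (k := k + l) (by omega) (by omega)
    have h3 : dth (cword g ν m k) ψ a b = csum j (k + i) (k + l) - Real.pi / 6 := by
      have h4 := dth_pos ψ hD (i := i) (l := l) (by rw [cword_length]; omega)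
        (by rw [cword_length]; omega) hil
      rw [cword_get, cword_get, hψ.th_sub hil.le hl] at h4
      rw [ha, hb]
      exact h4
    rw [ha, hb, h1, h2, ← ha, ← hb]
    constructor
    · show _ = Real.cos (dth _ _ a b) / _
      rw [h3]
      rfl
    · show _ = Real.sin (dth _ _ a b) / _
      rw [h3]
      unfold Ht.dJ
      rw [← neg_div, ← Real.sin_neg]
      congr 2
      ring
  obtain ⟨i, hi, hai⟩ := bS_pos hc hD ha
  obtain ⟨l, hl, hbl⟩ := bS_pos hc hD hb
  rcases Nat.lt_trichotomy i l with h | h | h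
  · exact key h hl hai hbl
  · exact absurd (by rw [hai, hbl, h]) hab
  · obtain ⟨h1, h2⟩ := key h hi hbl hai
    refine ⟨?_, ?_⟩
    · rw [(cenv F g m j).t_symm, (envD F (cword g ν m k) ψ).t_symm]
      exact h1
    · rw [(cenv F g m j).s_anti, (envD F (cword g ν m k) ψ).s_anti, h2]

variable (hj : ∀ v, j (v + m) = j v) (h0 : csum j 0 m = Real.pi / 3) (hψ : IsPh g ν j ψ)

include hj h0 hψ

theorem cenv_W (ω : Cfg) : (cenv F g m j).W ω = WU ZQ F ψ ω / Real.sqrt 3 ^ (m / 2) := by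
  rw [WEnv.W_cg (E := envD F (cword g ν m k) ψ) (E' := cenv F g m j) rfl
    (fun a ha b hb hab => (cenv_envD hc hD hj h0 hψ ha hb hab).1), envD_W hD (cword_ini hc),
    cword_length]

theorem cenv_num (he : e ∈ dE ZQ F) (ω : Cfg) :
    (cenv F g m j).num ω e = WU1 ZQ F ψ e ω / Real.sqrt 3 ^ (m / 2) := by
  rw [WEnv.num_cg (E := envD F (cword g ν m k) ψ) (E' := cenv F g m j) rfl
    (fun a ha b hb hab => (cenv_envD hc hD hj h0 hψ ha hb hab).1)
    (fun a ha b hb hab => (cenv_envD hc hD hj h0 hψ ha hb hab).2) he,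
    envD_num hD (cword_ini hc) he, cword_length]

theorem cenv_Z : (cenv F g m j).Z = av F (WU ZQ F ψ) / Real.sqrt 3 ^ (m / 2) := by
  rw [WEnv.Z_cg (E := envD F (cword g ν m k) ψ) (E' := cenv F g m j) rfl
    (fun a ha b hb hab => (cenv_envD hc hD hj h0 hψ ha hb hab).1), envD_Z hD (cword_ini hc),
    cword_length]

theorem cenv_mA (he : e ∈ dE ZQ F) : (cenv F g m j).mA e = uE ZQ F ψ e := by
  unfold WEnv.mA uE
  rw [cenv_Z hc hD hj h0 hψ]
  have hFe : (cenv F g m j).F = F := rfl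
  have h1 := av_congr (S := F) (g := fun ω => (cenv F g m j).num ω e)
    (g' := fun ω => (1 / Real.sqrt 3 ^ (m / 2)) * WU1 ZQ F ψ e ω)
    (fun T _ => by
      show (cenv F g m j).num (ind T) e = _
      rw [cenv_num hc hD hj h0 hψ he]
      ring)
  rw [hFe, h1, av_mul]
  have h5 : Real.sqrt 3 ^ (m / 2) ≠ 0 := by positivity
  field_simp

/-- **The height of the environment of a contour is the height of the arrow sum.** -/
theorem cenv_hU (hP : Tilt.HasPotQ ZQ F) (hz : Tilt.ConnE ZQ F z z') :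
    (cenv F g m j).hU z z' = Ht.uH ZQ F ψ z z' := by
  rw [(cenv F g m j).hU_unique (g := fun v => Ht.uH ZQ F ψ v z') hP (fun a ha => ?_) hz,
    Ht.uH_self, sub_zero]
  rw [Ht.uH_sub, Ht.uH_edge Tilt.zq_noLoop hP ha, cenv_mA hc hD hj h0 hψ ha]

/-- the mean height difference of the arrow configurations is `i * hU` -/
theorem cenv_arrow (hP : Tilt.HasPotQ ZQ F) (hz : Tilt.ConnE ZQ F z z') :
    (∑ α ∈ Arrs ZQ F, Ht.wA ZQ F (bph ZQ F ψ) α *
      ((Ht.hgt ZQ F α z - Ht.hgt ZQ F α z' : ℤ) : ℂ)) / Z6 ZQ F (bph ZQ F ψ) =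
      (((cenv F g m j).hU z z' : ℝ) : ℂ) * Complex.I := by
  rw [Ht.Z6_hgt_div Tilt.zq_noLoop hP hz, cenv_hU hc hD hj h0 hψ hP hz]

/-- the arrow sum with one sign inserted -/
theorem cenv_Z6_one (he : e ∈ dE ZQ F) :
    Z6 ZQ F (fun a => bph ZQ F ψ a * sgE e a) / Z6 ZQ F (bph ZQ F ψ) =
      (((cenv F g m j).mA e : ℝ) : ℂ) * Complex.I := by
  rw [Z6_ratio Tilt.zq_noLoop he, cenv_mA hc hD hj h0 hψ he]

end disc

/-! ## Phases with given jumps -/

/-- boundary phases with the jumps `j` -/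
def phC (g : ℤ → VZ) (ν : ℤ → ℤ) (m : ℕ) (j : ℤ → ℝ) (a : DZ) : ℝ :=
  csum j 0 (cidx g m a) - (ν (cidx g m a) : ℝ) * (Real.pi / 12)

theorem exists_ph (hc : Cont F m g) (hν : ∀ i, ν (i + m) = ν i + 4) (hj : ∀ v, j (v + m) = j v)
    (h0 : csum j 0 m = Real.pi / 3) : IsPh g ν j (phC g ν m j) := by
  intro v
  have hm : (0 : ℤ) < m := by exact_mod_cast hc.pos
  have hv := hc.cidx_int v
  have hv1 := hc.cidx_int (v - 1)
  have h1 := Int.emod_nonneg v hm.ne'
  have h2 := Int.emod_lt_of_pos v hm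
  have h3 := Int.emod_add_mul_ediv v m
  have hνq : ∀ (q i : ℤ), ν (i + q * m) = ν i + 4 * q := by
    intro q i
    induction q using Int.induction_on with
    | zero => simp
    | succ q ih =>
      rw [show i + ((q : ℤ) + 1) * m = i + q * m + m by ring, hν, ih]
      ring
    | pred q ih =>
      have h4 := hν (i + (-(q : ℤ) - 1) * m)
      rw [show i + (-(q : ℤ) - 1) * m + m = i + -q * m by ring, ih] at h4
      linarith
  have hjq : ∀ (q i : ℤ), j (i + q * m) = j i := by
    intro q i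
    have h4 : Function.Periodic j (m : ℤ) := hj
    exact h4.int_mul q i
  set r := v % m with hr
  set q := v / m with hq
  have ev : v = r + q * m := by rw [← h3]; ring
  unfold phC
  rw [hv, hv1]
  rcases Int.lt_or_le 0 r with h4 | h4
  · have e1 : (v - 1) % m = r - 1 := by
      rw [ev, show r + q * m - 1 = r - 1 + q * m by ring, Int.add_mul_emod_self_right]
      exact Int.emod_eq_of_lt (by omega) (by omega)
    rw [e1]
    have e2 : csum j 0 r = csum j 0 (r - 1) + j r := by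
      have := csum_succ j (by omega : (0 : ℤ) ≤ r - 1)
      rwa [show r - 1 + 1 = r by ring] at this
    have e3 : ν v - ν (v - 1) = ν r - ν (r - 1) := by
      rw [ev, show r + q * m - 1 = r - 1 + q * m by ring, hνq, hνq]
      ring
    rw [e2, e3, ev, hjq]
    push_cast
    ring
  · have h5 : r = 0 := by omega
    have e1 : (v - 1) % m = m - 1 := by
      rw [ev, h5, show 0 + q * (m : ℤ) - 1 = (m - 1) + (q - 1) * m by ring,
        Int.add_mul_emod_self_right]
      exact Int.emod_eq_of_lt (by omega) (by omega)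
    rw [e1, h5]
    have e2 : csum j 0 m = csum j 0 (m - 1) + j m := by
      have := csum_succ j (by omega : (0 : ℤ) ≤ m - 1)
      rwa [show (m : ℤ) - 1 + 1 = m by ring] at this
    have e3 : ν v - ν (v - 1) = ν 0 + 4 - ν (m - 1) := by
      rw [ev, h5, show 0 + q * (m : ℤ) - 1 = (m - 1) + (q - 1) * m by ring, hνq, hνq]
      ring
    have e4 : j v = j m := by
      have h6 := hjq q 0
      have h7 := hjq 1 0
      rw [one_mul, zero_add] at h7
      rw [ev, h5, h6, h7]
    rw [csum_self, e3, e4]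
    rw [h0] at e2
    push_cast
    linarith

/-! ## The functions of the block CA -/

/-- jump `π / 3` at the contour vertex `b`, period `M` -/
def jN (M : ℕ) (b v : ℤ) : ℝ := if (M : ℤ) ∣ v - b then Real.pi / 3 else 0

theorem jN_per (M : ℕ) (b v : ℤ) : jN M b (v + M) = jN M b v := by
  unfold jN
  have : (M : ℤ) ∣ v + M - b ↔ (M : ℤ) ∣ v - b := by
    rw [show v + (M : ℤ) - b = v - b + M by ring]
    exact dvd_add_self_right
  simp only [this]

theorem jN_base (M : ℕ) (b q v : ℤ) : jN M (b + q * M) v = jN M b v := by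
  unfold jN
  have : (M : ℤ) ∣ v - (b + q * M) ↔ (M : ℤ) ∣ v - b := by
    rw [show v - (b + q * (M : ℤ)) = v - b - q * M by ring]
    exact dvd_sub_left (dvd_mul_left _ _)
  simp only [this]

theorem csum_jN {M : ℕ} (hM : 0 < M) (b : ℤ) : csum (jN M b) 0 M = Real.pi / 3 := by
  have hm : (0 : ℤ) < M := by exact_mod_cast hM
  -- the representative of `b` in `(0, M]`
  have h1 := Int.emod_nonneg (b - 1) hm.ne'
  have h2 := Int.emod_lt_of_pos (b - 1) hm
  have h3 := Int.emod_add_mul_ediv (b - 1) M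
  unfold csum jN
  rw [Finset.sum_eq_single ((b - 1) % M + 1), if_pos]
  · refine ⟨-((b - 1) / M), ?_⟩
    linarith
  · intro v hv hne
    rw [Finset.mem_Ioc] at hv
    rw [if_neg]
    rintro ⟨c, hc⟩
    apply hne
    have h4 : v - 1 = (b - 1) % M + M * ((b - 1) / M + c) := by
      rw [mul_add, ← add_assoc, h3, ← hc]
      ring
    have h5 : (b - 1) / M + c = 0 := by
      by_contra h6
      rcases lt_or_gt_of_ne h6 with h7 | h7 <;> nlinarith
    rw [h5, mul_zero, add_zero] at h4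
    omega
  · intro h
    exact absurd (Finset.mem_Ioc.mpr ⟨by omega, by omega⟩) h

theorem csum_lin (j j' : ℤ → ℝ) (c c' : ℝ) (i k : ℤ) :
    csum (fun v => c * j v + c' * j' v) i k = c * csum j i k + c' * csum j' i k := by
  unfold csum
  rw [Finset.sum_add_distrib, Finset.mul_sum, Finset.mul_sum]

/-- jumps of the pair of marks `i`, `i'` -/
def jP (M : ℕ) (α : ℝ) (i i' v : ℤ) : ℝ := (1 - α) * jN M i v + α * jN M i' v

/-- jumps of the full environment: `e = (k, k + 1)`, `a1 = i`, `a2 = j`, `a2' = j'`, `a3 = l` -/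
def jX (M : ℕ) (α : ℝ) (i j j' l k v : ℤ) : ℝ :=
  jN M i v + ((1 - α) * jN M j v + α * jN M j' v) + jN M l v - jN M k v - jN M (k + 1) v

theorem jP_per (M : ℕ) (α : ℝ) (i i' v : ℤ) : jP M α i i' (v + M) = jP M α i i' v := by
  unfold jP; rw [jN_per, jN_per]

theorem jX_per (M : ℕ) (α : ℝ) (i j j' l k v : ℤ) :
    jX M α i j j' l k (v + M) = jX M α i j j' l k v := by
  unfold jX; rw [jN_per, jN_per, jN_per, jN_per, jN_per, jN_per]

theorem csum_jP {M : ℕ} (hM : 0 < M) (α : ℝ) (i i' : ℤ) :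
    csum (jP M α i i') 0 M = Real.pi / 3 := by
  have h1 := csum_lin (jN M i) (jN M i') (1 - α) α 0 M
  rw [csum_jN hM, csum_jN hM] at h1
  show csum (fun v => (1 - α) * jN M i v + α * jN M i' v) 0 M = _
  rw [h1]
  ring

theorem csum_jX {M : ℕ} (hM : 0 < M) (α : ℝ) (i j j' l k : ℤ) :
    csum (jX M α i j j' l k) 0 M = Real.pi / 3 := by
  have h1 := csum_jN hM i
  have h2 := csum_jN hM j
  have h3 := csum_jN hM j'
  have h4 := csum_jN hM l
  have h5 := csum_jN hM k
  have h6 := csum_jN hM (k + 1)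
  unfold csum jX at *
  rw [Finset.sum_sub_distrib, Finset.sum_sub_distrib, Finset.sum_add_distrib,
    Finset.sum_add_distrib, Finset.sum_add_distrib, ← Finset.mul_sum, ← Finset.mul_sum, h1, h2, h3,
    h4, h5, h6]
  ring

/-- mean height numerator -/
def WEnv.hM (E : WEnv) (z z' : VZ) : ℝ := av E.F (fun ω => E.hN ω z - E.hN ω z')

theorem WEnv.hM_div (E : WEnv) (z z' : VZ) : E.hM z z' / E.Z = E.hU z z' := rfl

theorem WEnv.hM_eq (E : WEnv) (h : E.Z ≠ 0) (z z' : VZ) : E.hM z z' = E.Z * E.hU z z' := by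
  rw [← E.hM_div, mul_div_cancel₀ _ h]

theorem WEnv.hM_self (E : WEnv) (z : VZ) : E.hM z z = 0 := by
  unfold WEnv.hM
  rw [av_sub, sub_self]

theorem WEnv.hM_add (E : WEnv) (z z' z'' : VZ) : E.hM z z' + E.hM z' z'' = E.hM z z'' := by
  unfold WEnv.hM
  rw [av_sub, av_sub, av_sub]
  ring

section functions

variable (P : Finset (ℤ × ℤ)) (L : ℕ)

/-- environment of the `n`-th refinement of the polygon `P` with contour `g` and jumps `j` -/
def envJ (g : ℤ → VZ) (n : ℕ) (j : ℤ → ℝ) : WEnv := cenv (rf n P) (gr n g) (n * L) j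

/-- natural environment with the base `b` -/
def envN (g : ℤ → VZ) (n : ℕ) (b : ℤ) : WEnv := envJ P L g n (jN (n * L) b)

/-- two marks -/
def envP (g : ℤ → VZ) (n : ℕ) (α : ℝ) (i i' : ℤ) : WEnv := envJ P L g n (jP (n * L) α i i')

/-- full environment, one side `e = (k, k + 1)` -/
def envX (g : ℤ → VZ) (n : ℕ) (α : ℝ) (i j j' l k : ℤ) : WEnv :=
  envJ P L g n (jX (n * L) α i j j' l k)

/-- natural function, normalised at its own base -/
def uN (g : ℤ → VZ) (n : ℕ) (b : ℤ) (v : ℤ × ℤ) : ℝ := (envN P L g n b).hU v (gr n g b)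

/-- function of two marks -/
def uP (g : ℤ → VZ) (n : ℕ) (α : ℝ) (i i' : ℤ) (v : ℤ × ℤ) : ℝ :=
  (envP P L g n α i i').hU v (gr n g 0)

/-- function of the full environment, both sides at the mark `k` -/
def uX (g : ℤ → VZ) (n : ℕ) (α : ℝ) (i j j' l k : ℤ) (v : ℤ × ℤ) : ℝ :=
  ((envX P L g n α i j j' l (k - 1)).hM v (gr n g 0) + (envX P L g n α i j j' l k).hM v (gr n g 0)) /
    ((envX P L g n α i j j' l (k - 1)).Z + (envX P L g n α i j j' l k).Z)

end functions

private theorem gr_per_self {P : Finset (ℤ × ℤ)} {L : ℕ} {g : ℤ → VZ} (h : Cont P L g) {n : ℕ}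
    (hn : 0 < n) (k : ℤ) : gr n g (k + n * L) = gr n g k := by
  have hn' : (0 : ℤ) < n := by exact_mod_cast hn
  have e1 : (k + n * L) / n = k / n + L := by
    rw [Int.add_mul_ediv_left _ _ hn'.ne']
  have e2 : (k + n * L) % n = k % n := by
    rw [Int.add_mul_emod_self_left]
  have e3 : k / n + L + 1 = (k / n + 1) + L := by ring
  unfold gr
  rw [e1, e2, e3, h.per, h.per]

theorem uN_per {P : Finset (ℤ × ℤ)} {L : ℕ} {g : ℤ → VZ} (hc : Cont P L g) (n : ℕ) (b : ℤ)
    (v : ℤ × ℤ) : uN P L g n (b + n * L) v = uN P L g n b v := by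
  have h : jN (n * L) (b + n * L) = jN (n * L) b := by
    funext w
    have := jN_base (n * L) b 1 w
    rw [one_mul] at this
    push_cast at this
    exact this
  unfold uN envN
  rw [h]
  rcases Nat.eq_zero_or_pos n with rfl | hn
  · simp
  · rw [gr_per_self hc hn]

/-- base change of the natural function -/
theorem uN_sub {P : Finset (ℤ × ℤ)} {L : ℕ} {g : ℤ → VZ} (n : ℕ) (b : ℤ) (v v' : ℤ × ℤ) :
    uN P L g n b v - uN P L g n b v' = (envN P L g n b).hU v v' := by
  unfold uN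
  rw [(envN P L g n b).hU_sub]

theorem uN_base {P : Finset (ℤ × ℤ)} {L : ℕ} {g : ℤ → VZ} (n : ℕ) (b : ℤ) :
    uN P L g n b (gr n g b) = 0 := (envN P L g n b).hU_self _

theorem uP_sub {P : Finset (ℤ × ℤ)} {L : ℕ} {g : ℤ → VZ} (n : ℕ) (α : ℝ) (i i' : ℤ)
    (v v' : ℤ × ℤ) : uP P L g n α i i' v - uP P L g n α i i' v' = (envP P L g n α i i').hU v v' := by
  unfold uP
  rw [(envP P L g n α i i').hU_sub]

theorem uX_sub {P : Finset (ℤ × ℤ)} {L : ℕ} {g : ℤ → VZ} (n : ℕ) (α : ℝ) (i j j' l k : ℤ)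
    (v v' : ℤ × ℤ) : uX P L g n α i j j' l k v - uX P L g n α i j j' l k v' =
      ((envX P L g n α i j j' l (k - 1)).hM v v' + (envX P L g n α i j j' l k).hM v v') /
        ((envX P L g n α i j j' l (k - 1)).Z + (envX P L g n α i j j' l k).Z) := by
  unfold uX
  rw [← sub_div]
  congr 1
  rw [← (envX P L g n α i j j' l (k - 1)).hM_add v v' (gr n g 0),
    ← (envX P L g n α i j j' l k).hM_add v v' (gr n g 0)]
  ring

end

end Pool.Agent.SixB
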