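import Pool.Agent.Lib.SixB.CAArc

/-!
# 6BD, block CA: environments given by jumps along a contour

`JEnv F m b j E`: the weights of `E` are `tt`, `td` of the sum of the jumps `j` between the two sides (`j v` = jump
at the contour vertex `b v`). Everything relative to a base `B`: `Wt`, `Nt` (arcs over a vertex).
* `JEnv.Z_eq`, `JEnv.sum_mA_eq`: partition function and boundary heights;
* `hasDerivAt_Wt`, `hasDerivAt_ZJ`: derivative in the jumps;
* `log_ratio`: `log Z 1 - log Z 0` for a sum of two partition functions.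
-/

set_option autoImplicit false

namespace Pool.Agent.SixB

open Pool.Agent.Perc Pool.Agent.Perc.Q Pool.Agent.Perc6 Pool.Agent.SixB.Tilt Relation

noncomputable section

namespace CJ

/-- weight of an arc with jump `x` -/
def tt (x : ℝ) : ℝ := Real.cos (x - Real.pi / 6) / Real.cos (Real.pi / 6)

/-- numerator of the mean height step of an arc with jump `x` -/
def td (x : ℝ) : ℝ := Real.sin (Real.pi / 6 - x) / Real.cos (Real.pi / 6)

theorem hasDerivAt_tt (x : ℝ) : HasDerivAt tt (td x) x := by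
  have h1 : HasDerivAt (fun y : ℝ => y - Real.pi / 6) 1 x := (hasDerivAt_id x).sub_const _
  have h2 := (h1.cos).div_const (Real.cos (Real.pi / 6))
  refine h2.congr_deriv ?_
  unfold td
  rw [show Real.pi / 6 - x = -(x - Real.pi / 6) by ring, Real.sin_neg]
  ring

theorem continuous_tt : Continuous tt := by unfold tt; fun_prop

theorem continuous_td : Continuous td := by unfold td; fun_prop

theorem tt_zero : tt 0 = 1 := by
  unfold tt
  rw [zero_sub, Real.cos_neg, div_self cos_pi_div_six_ne]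

theorem tt_third : tt (Real.pi / 3) = 1 := by
  unfold tt
  rw [show Real.pi / 3 - Real.pi / 6 = Real.pi / 6 by ring, div_self cos_pi_div_six_ne]

theorem td_zero : td 0 = 1 / Real.sqrt 3 := by
  unfold td
  rw [sub_zero, Real.sin_pi_div_six, Real.cos_pi_div_six]
  have : Real.sqrt 3 ≠ 0 := by positivity
  field_simp

theorem cos6_pos : 0 < Real.cos (Real.pi / 6) := by
  rw [Real.cos_pi_div_six]; positivity

theorem tt_pos {x : ℝ} (h0 : 0 ≤ x) (h1 : x ≤ Real.pi / 3) : 0 < tt x := by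
  unfold tt
  refine div_pos (Real.cos_pos_of_mem_Ioo ⟨?_, ?_⟩) cos6_pos <;> linarith [Real.pi_pos]

/-- sum of the jumps over the vertices `i + 1, …, k` -/
def Jn (j : ℕ → ℝ) (i k : ℕ) : ℝ := ∑ v ∈ Finset.Ioc i k, j v

theorem Jn_add (j j' : ℕ → ℝ) (c : ℝ) (i k : ℕ) :
    Jn (fun v => j v + c * j' v) i k = Jn j i k + c * Jn j' i k := by
  unfold Jn
  rw [Finset.sum_add_distrib, Finset.mul_sum]

/-- weight of a matching -/
def Wt (m : ℕ) (τ : ℕ → ℕ) (j : ℕ → ℝ) : ℝ := ∏ i ∈ opC m τ, tt (Jn j i (τ i))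

/-- numerator of the arc of `i` -/
def Pt (m : ℕ) (τ : ℕ → ℕ) (j : ℕ → ℝ) (i : ℕ) : ℝ :=
  td (Jn j i (τ i)) * ∏ l ∈ (opC m τ).erase i, tt (Jn j l (τ l))

/-- numerator of the height of the vertex `v` -/
def Nt (m : ℕ) (τ : ℕ → ℕ) (j : ℕ → ℝ) (v : ℕ) : ℝ := ∑ i ∈ ovC m τ v, Pt m τ j i

theorem hasDerivAt_Wt' (m : ℕ) (τ : ℕ → ℕ) (j j₁ : ℕ → ℝ) (α : ℝ) :
    HasDerivAt (fun a => Wt m τ fun v => j v + a * j₁ v)
      (∑ i ∈ opC m τ, Jn j₁ i (τ i) * Pt m τ (fun v => j v + α * j₁ v) i) α := by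
  unfold Wt
  have h1 := HasDerivAt.fun_finsetProd (u := opC m τ)
    (f := fun i a => tt (Jn (fun v => j v + a * j₁ v) i (τ i)))
    (f' := fun i => td (Jn (fun v => j v + α * j₁ v) i (τ i)) * Jn j₁ i (τ i)) (x := α) (by
      intro i _
      have h2 : (fun a : ℝ => tt (Jn (fun v => j v + a * j₁ v) i (τ i))) =
          fun a => tt (Jn j i (τ i) + a * Jn j₁ i (τ i)) := by
        funext a
        rw [Jn_add]
      rw [h2, Jn_add]
      have h3 : HasDerivAt (fun a : ℝ => Jn j i (τ i) + a * Jn j₁ i (τ i)) (Jn j₁ i (τ i)) α := by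
        simpa using ((hasDerivAt_id α).mul_const (Jn j₁ i (τ i))).const_add (Jn j i (τ i))
      exact (hasDerivAt_tt _).comp α h3)
  refine h1.congr_deriv ?_
  refine Finset.sum_congr rfl fun i _ => ?_
  unfold Pt
  rw [smul_eq_mul]
  ring

theorem sum_Jn (m : ℕ) (τ : ℕ → ℕ) (hτ : ∀ i < m, τ i < m) (j₁ : ℕ → ℝ) (g : ℕ → ℝ) :
    ∑ i ∈ opC m τ, Jn j₁ i (τ i) * g i = ∑ v ∈ Finset.Ico 1 m, j₁ v * ∑ i ∈ ovC m τ v, g i := by
  unfold Jn
  simp only [Finset.sum_mul, Finset.mul_sum]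
  rw [Finset.sum_sigma', Finset.sum_sigma']
  refine Finset.sum_bij' (fun x _ => ⟨x.2, x.1⟩) (fun x _ => ⟨x.2, x.1⟩) ?_ ?_ ?_ ?_ ?_
  · rintro ⟨i, v⟩ h
    simp only [Finset.mem_sigma, Finset.mem_Ioc, Finset.mem_Ico, mem_opC, mem_ovC] at h ⊢
    have := hτ i h.1.1
    omega
  · rintro ⟨v, i⟩ h
    simp only [Finset.mem_sigma, Finset.mem_Ioc, Finset.mem_Ico, mem_opC, mem_ovC] at h ⊢
    omega
  · rintro ⟨i, v⟩ _; rfl
  · rintro ⟨v, i⟩ _; rfl
  · rintro ⟨i, v⟩ _; rfl

/-- **Derivative of the weight in the jumps.** -/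
theorem hasDerivAt_Wt (m : ℕ) (τ : ℕ → ℕ) (hτ : ∀ i < m, τ i < m) (j j₁ : ℕ → ℝ) (α : ℝ) :
    HasDerivAt (fun a => Wt m τ fun v => j v + a * j₁ v)
      (∑ v ∈ Finset.Ico 1 m, j₁ v * Nt m τ (fun v => j v + α * j₁ v) v) α :=
  (hasDerivAt_Wt' m τ j j₁ α).congr_deriv (sum_Jn m τ hτ j₁ _)

theorem continuous_Nt (m : ℕ) (τ : ℕ → ℕ) (j j₁ : ℕ → ℝ) (v : ℕ) :
    Continuous fun a : ℝ => Nt m τ (fun v => j v + a * j₁ v) v := by
  unfold Nt Pt
  simp only [Jn_add]
  refine continuous_finset_sum _ fun i _ => ?_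
  refine (continuous_td.comp (by fun_prop)).mul ?_
  exact continuous_finset_prod _ fun l _ => continuous_tt.comp (by fun_prop)

theorem continuous_Wt (m : ℕ) (τ : ℕ → ℕ) (j j₁ : ℕ → ℝ) :
    Continuous fun a : ℝ => Wt m τ (fun v => j v + a * j₁ v) := by
  unfold Wt
  simp only [Jn_add]
  exact continuous_finset_prod _ fun l _ => continuous_tt.comp (by fun_prop)

variable {F : Finset (ℤ × ℤ)} {m : ℕ} {b : ℤ → ℤ × ℤ}

/-- partition function, base `B` -/
def ZJ (F : Finset (ℤ × ℤ)) (m : ℕ) (b : ℤ → ℤ × ℤ) (B : ℤ) (j : ℕ → ℝ) : ℝ :=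
  av F fun ω => Wt m (mtc F m b B ω) j

/-- numerator of the height of the vertex `B + v` -/
def NJ (F : Finset (ℤ × ℤ)) (m : ℕ) (b : ℤ → ℤ × ℤ) (B : ℤ) (j : ℕ → ℝ) (v : ℕ) : ℝ :=
  av F fun ω => Nt m (mtc F m b B ω) j v

theorem hasDerivAt_av {g g' : ℝ → Cfg → ℝ} {α : ℝ}
    (h : ∀ ω, HasDerivAt (fun a => g a ω) (g' α ω) α) :
    HasDerivAt (fun a => av F (g a)) (av F (g' α)) α := by
  unfold av
  exact (HasDerivAt.fun_sum fun T _ => h (ind T)).div_const _

theorem continuous_av {g : ℝ → Cfg → ℝ} (h : ∀ ω, Continuous fun a => g a ω) :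
    Continuous fun a => av F (g a) := by
  unfold av
  exact (continuous_finset_sum _ fun T _ => h (ind T)).div_const _

variable {B : ℤ} (hc : Ctr (F : Set (ℤ × ℤ)) m (fun k : ℕ => b (B + k)))

include hc

theorem mtc_lt (ω : Cfg) : ∀ i < m, mtc F m b B ω i < m := fun i hi => (mtc_mated hc ω i hi).1

/-- **Derivative of the partition function in the jumps.** -/
theorem hasDerivAt_ZJ (j j₁ : ℕ → ℝ) (α : ℝ) :
    HasDerivAt (fun a => ZJ F m b B fun v => j v + a * j₁ v)
      (∑ v ∈ Finset.Ico 1 m, j₁ v * NJ F m b B (fun v => j v + α * j₁ v) v) α := by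
  unfold ZJ NJ
  have h1 := hasDerivAt_av (F := F) (g := fun a ω => Wt m (mtc F m b B ω) fun v => j v + a * j₁ v)
    (g' := fun a ω => ∑ v ∈ Finset.Ico 1 m, j₁ v * Nt m (mtc F m b B ω) (fun v => j v + a * j₁ v) v)
    (α := α) (fun ω => hasDerivAt_Wt m _ (mtc_lt hc ω) j j₁ α)
  refine h1.congr_deriv ?_
  rw [av_sum]
  exact Finset.sum_congr rfl fun v _ => av_mul _

theorem continuous_NJ (j j₁ : ℕ → ℝ) (v : ℕ) :
    Continuous fun a : ℝ => NJ F m b B (fun v => j v + a * j₁ v) v :=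
  continuous_av fun ω => continuous_Nt m _ j j₁ v

theorem continuous_ZJ (j j₁ : ℕ → ℝ) :
    Continuous fun a : ℝ => ZJ F m b B (fun v => j v + a * j₁ v) :=
  continuous_av fun ω => continuous_Wt m _ j j₁

omit hc

/-- logarithmic derivative, integrated -/
theorem log_ratio {Z N : ℝ → ℝ} {c : ℝ} (hZ : ∀ α, HasDerivAt Z (c * N α) α) (hN : Continuous N)
    (hpos : ∀ α ∈ Set.Icc (0 : ℝ) 1, 0 < Z α) :
    Real.log (Z 1) - Real.log (Z 0) = c * ∫ α in (0 : ℝ)..1, N α / Z α := by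
  have hZc : Continuous Z := continuous_iff_continuousAt.mpr fun α => (hZ α).continuousAt
  have h1 : ∀ α ∈ Set.uIcc (0 : ℝ) 1, HasDerivAt (fun a => Real.log (Z a)) (c * N α / Z α) α := by
    intro α hα
    rw [Set.uIcc_of_le zero_le_one] at hα
    exact (hZ α).log (hpos α hα).ne'
  have h2 : IntervalIntegrable (fun α => c * N α / Z α) MeasureTheory.volume 0 1 := by
    apply ContinuousOn.intervalIntegrable
    rw [Set.uIcc_of_le zero_le_one]
    exact (continuous_const.mul hN).continuousOn.div hZc.continuousOn fun α hα => (hpos α hα).ne'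
  have h3 := intervalIntegral.integral_eq_sub_of_hasDerivAt h1 h2
  rw [← h3, ← intervalIntegral.integral_const_mul]
  refine intervalIntegral.integral_congr fun α _ => ?_
  show c * N α / Z α = c * (N α / Z α)
  ring

theorem Wt_congr {τ : ℕ → ℕ} (hτ : ∀ i < m, τ i < m) {j j' : ℕ → ℝ}
    (h : ∀ v, 1 ≤ v → v < m → j v = j' v) : Wt m τ j = Wt m τ j' := by
  unfold Wt
  refine Finset.prod_congr rfl fun i hi => ?_
  rw [mem_opC] at hi
  have := hτ i hi.1
  congr 1
  unfold Jn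
  refine Finset.sum_congr rfl fun v hv => ?_
  rw [Finset.mem_Ioc] at hv
  exact h v (by omega) (by omega)

theorem Nt_congr {τ : ℕ → ℕ} (hτ : ∀ i < m, τ i < m) {j j' : ℕ → ℝ}
    (h : ∀ v, 1 ≤ v → v < m → j v = j' v) (v : ℕ) : Nt m τ j v = Nt m τ j' v := by
  have key : ∀ i ∈ opC m τ, Jn j i (τ i) = Jn j' i (τ i) := by
    intro i hi
    rw [mem_opC] at hi
    have := hτ i hi.1
    unfold Jn
    refine Finset.sum_congr rfl fun v hv => ?_
    rw [Finset.mem_Ioc] at hv
    exact h v (by omega) (by omega)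
  unfold Nt Pt
  refine Finset.sum_congr rfl fun i hi => ?_
  rw [key i (ovC_subset hi)]
  congr 1
  refine Finset.prod_congr rfl fun l hl => ?_
  rw [key l (Finset.mem_of_mem_erase hl)]

include hc in
theorem ZJ_congr {j j' : ℕ → ℝ} (h : ∀ v, 1 ≤ v → v < m → j v = j' v) :
    ZJ F m b B j = ZJ F m b B j' :=
  av_congr fun _ _ => Wt_congr (mtc_lt hc _) h

include hc in
theorem NJ_congr {j j' : ℕ → ℝ} (h : ∀ v, 1 ≤ v → v < m → j v = j' v) (v : ℕ) :
    NJ F m b B j v = NJ F m b B j' v :=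
  av_congr fun _ _ => Nt_congr (mtc_lt hc _) h v

/-! ### Natural environment -/

theorem Wt_zero (m : ℕ) (τ : ℕ → ℕ) : Wt m τ (fun _ => 0) = 1 := by
  unfold Wt Jn
  simp [tt_zero]

theorem Nt_zero (m : ℕ) (τ : ℕ → ℕ) (v : ℕ) :
    Nt m τ (fun _ => 0) v = 1 / Real.sqrt 3 * ((ovC m τ v).card : ℝ) := by
  unfold Nt Pt Jn
  simp only [Finset.sum_const_zero, tt_zero, td_zero, Finset.prod_const_one, mul_one, Finset.sum_const,
    nsmul_eq_mul]
  ring

/-- mean number of strands which separate the contour vertices `B` and `B + v` -/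
def crs (F : Finset (ℤ × ℤ)) (m : ℕ) (b : ℤ → ℤ × ℤ) (B : ℤ) (v : ℕ) : ℝ :=
  av F fun ω => ((ovC m (mtc F m b B ω) v).card : ℝ)

theorem ZJ_zero : ZJ F m b B (fun _ => 0) = 1 := by
  unfold ZJ
  simp only [Wt_zero]
  exact av_const 1

theorem NJ_zero (v : ℕ) : NJ F m b B (fun _ => 0) v = 1 / Real.sqrt 3 * crs F m b B v := by
  unfold NJ crs
  simp only [Nt_zero]
  exact av_mul _

theorem card_ovC_rot {τ τ' : ℕ → ℕ} {v : ℕ} (hv : v < m) (hτ : ∀ i < m, τ i < m)
    (hinv : ∀ i < m, τ (τ i) = i) (hrot : ∀ i < m, τ' i = rotM m v τ i) :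
    (ovC m τ v).card = (ovC m τ' (m - v)).card := by
  refine Finset.card_bij' (fun i _ => τ i - v) (fun i' _ => τ' i' + v - m) ?_ ?_ ?_ ?_
  · intro i hi
    rw [mem_ovC] at hi ⊢
    have h1 := hτ i hi.1
    have h2 := hrot (τ i - v) (by omega)
    have h3 : rotI m v (τ i - v) = τ i := by unfold rotI; split_ifs <;> omega
    unfold rotM at h2
    rw [h3, hinv i hi.1] at h2
    unfold rotB at h2
    rw [if_neg (by omega)] at h2
    omega
  · intro i' hi'
    rw [mem_ovC] at hi' ⊢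
    have h2 := hrot i' hi'.1
    have h3 : rotI m v i' = i' + v := by unfold rotI; split_ifs <;> omega
    unfold rotM at h2
    rw [h3] at h2
    have h4 := hτ (i' + v) (by omega)
    have h5 := hinv (i' + v) (by omega)
    unfold rotB at h2
    split_ifs at h2 with h6
    · omega
    · have h7 : τ' i' + v - m = τ (i' + v) := by omega
      rw [h7, h5]
      omega
  · intro i hi
    rw [mem_ovC] at hi
    have h1 := hτ i hi.1
    have h2 := hrot (τ i - v) (by omega)
    have h3 : rotI m v (τ i - v) = τ i := by unfold rotI; split_ifs <;> omega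
    unfold rotM at h2
    rw [h3, hinv i hi.1] at h2
    unfold rotB at h2
    rw [if_neg (by omega)] at h2
    show τ' (τ i - v) + v - m = i
    omega
  · intro i' hi'
    rw [mem_ovC] at hi'
    have h2 := hrot i' hi'.1
    have h3 : rotI m v i' = i' + v := by unfold rotI; split_ifs <;> omega
    unfold rotM at h2
    rw [h3] at h2
    have h4 := hτ (i' + v) (by omega)
    have h5 := hinv (i' + v) (by omega)
    unfold rotB at h2
    show τ (τ' i' + v - m) - v = i'
    split_ifs at h2 with h6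
    · omega
    · have h7 : τ' i' + v - m = τ (i' + v) := by omega
      rw [h7, h5]
      omega

/-- **Symmetry of the mean number of separating strands.** -/
theorem crs_symm (hb : Cont F m b) (hP : HasPot (F : Set (ℤ × ℤ))) (B : ℤ) {v : ℕ} (hv : v < m) :
    crs F m b B v = crs F m b (B + v) (m - v) := by
  unfold crs
  refine av_congr fun T _ => ?_
  have h1 := mtc_mated (hb.ctr hP B) (ind T)
  have h2 := mtc_mated (hb.ctr hP (B + v)) (ind T)
  have h3 := h1.rot hb.per hv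
  have h4 := Mated.unique (hb.ctr hP (B + v)) h2 h3
  rw [card_ovC_rot hv (fun i hi => (h1 i hi).1) (fun i hi => (h1 i hi).2.2.1) h4]

theorem mtc_per (hb : Cont F m b) (B : ℤ) (c : ℤ) (ω : Cfg) :
    mtc F m b (B + c * m) ω = mtc F m b B ω := by
  have e : (fun k : ℕ => b (B + c * m + k)) = fun k : ℕ => b (B + k) := by
    funext k
    rw [show B + c * m + (k : ℤ) = (B + k) + c * m by ring, hb.per_mulC]
  unfold mtc
  rw [e]

theorem crs_per (hb : Cont F m b) (B : ℤ) (c : ℤ) (v : ℕ) : crs F m b (B + c * m) v = crs F m b B v := by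
  unfold crs
  simp only [mtc_per hb]

/-! ### Two marks on a natural wall -/

/-- jump `x` at the vertex `v₀` only -/
def dl (v₀ : ℕ) (x : ℝ) (v : ℕ) : ℝ := if v = v₀ then x else 0

theorem Jn_dl (v₀ : ℕ) (x : ℝ) (i k : ℕ) : Jn (dl v₀ x) i k = if i < v₀ ∧ v₀ ≤ k then x else 0 := by
  unfold Jn dl
  rw [Finset.sum_ite_eq']
  simp only [Finset.mem_Ioc]

include hc in
theorem pair_integral {v₀ : ℕ} (h0 : 1 ≤ v₀) (hm : v₀ < m) :
    (∀ α ∈ Set.Icc (0 : ℝ) 1, 0 < ZJ F m b B (dl v₀ (α * (Real.pi / 3)))) ∧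
    ContinuousOn (fun α => NJ F m b B (dl v₀ (α * (Real.pi / 3))) v₀ /
      ZJ F m b B (dl v₀ (α * (Real.pi / 3)))) (Set.Icc 0 1) ∧
    ∫ α in (0 : ℝ)..1, NJ F m b B (dl v₀ (α * (Real.pi / 3))) v₀ /
      ZJ F m b B (dl v₀ (α * (Real.pi / 3))) = 0 := by
  have e1 : ∀ α : ℝ, dl v₀ (α * (Real.pi / 3)) =
      fun v => (fun _ : ℕ => (0 : ℝ)) v + α * dl v₀ (Real.pi / 3) v := by
    intro α
    funext v
    unfold dl
    split_ifs <;> ring
  have hpos : ∀ α ∈ Set.Icc (0 : ℝ) 1, 0 < ZJ F m b B (dl v₀ (α * (Real.pi / 3))) := by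
    intro α hα
    have hp := Real.pi_pos
    have h1 : ∀ ω, 0 < Wt m (mtc F m b B ω) (dl v₀ (α * (Real.pi / 3))) := by
      intro ω
      unfold Wt
      refine Finset.prod_pos fun i _ => ?_
      rw [Jn_dl]
      split_ifs
      · exact tt_pos (by nlinarith [hα.1]) (by nlinarith [hα.2])
      · rw [tt_zero]; exact one_pos
    unfold ZJ av
    refine div_pos (Finset.sum_pos (fun T _ => h1 _) (Finset.powerset_nonempty _)) (by positivity)
  have hd : ∀ α : ℝ, HasDerivAt (fun a => ZJ F m b B (dl v₀ (a * (Real.pi / 3))))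
      (Real.pi / 3 * NJ F m b B (dl v₀ (α * (Real.pi / 3))) v₀) α := by
    intro α
    have h1 := hasDerivAt_ZJ hc (fun _ => 0) (dl v₀ (Real.pi / 3)) α
    simp only [e1]
    refine h1.congr_deriv ?_
    rw [Finset.sum_eq_single v₀]
    · unfold dl
      rw [if_pos rfl]
    · intro v _ hv
      unfold dl
      rw [if_neg hv, zero_mul]
    · intro h
      exact absurd (Finset.mem_Ico.mpr ⟨h0, hm⟩) h
  have hN : Continuous fun α : ℝ => NJ F m b B (dl v₀ (α * (Real.pi / 3))) v₀ := by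
    simp only [e1]
    exact continuous_NJ hc _ _ _
  have hZc : Continuous fun α : ℝ => ZJ F m b B (dl v₀ (α * (Real.pi / 3))) :=
    continuous_iff_continuousAt.mpr fun α => (hd α).continuousAt
  refine ⟨hpos, hN.continuousOn.div hZc.continuousOn fun α hα => (hpos α hα).ne', ?_⟩
  have h2 := log_ratio hd hN hpos
  have e2 : ZJ F m b B (dl v₀ (1 * (Real.pi / 3))) = 1 := by
    unfold ZJ Wt
    have : ∀ ω, ∏ i ∈ opC m (mtc F m b B ω),
        tt (Jn (dl v₀ (1 * (Real.pi / 3))) i (mtc F m b B ω i)) = 1 := by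
      intro ω
      refine Finset.prod_eq_one fun i _ => ?_
      rw [Jn_dl, one_mul]
      split_ifs
      · exact tt_third
      · exact tt_zero
    simp only [this]
    exact av_const 1
  have e3 : ZJ F m b B (dl v₀ (0 * (Real.pi / 3))) = 1 := by
    have : dl v₀ (0 * (Real.pi / 3)) = fun _ => 0 := by
      funext v
      unfold dl
      split_ifs <;> ring
    rw [this]
    exact ZJ_zero
  rw [e2, e3, sub_self] at h2
  have hp : Real.pi / 3 ≠ 0 := by positivity
  rcases mul_eq_zero.mp h2.symm with h3 | h3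
  · exact absurd h3 hp
  · exact h3

/-! ## Environments given by jumps -/

/-- sum of the jumps over the contour vertices `i + 1, …, k` -/
def Jz (j : ℤ → ℝ) (i k : ℤ) : ℝ := ∑ v ∈ Finset.Ioc i k, j v

theorem Jz_rel (j : ℤ → ℝ) (B : ℤ) (i k : ℕ) :
    Jz j (B + i) (B + k) = Jn (fun v : ℕ => j (B + v)) i k := by
  unfold Jz Jn
  symm
  refine Finset.sum_bij (fun (v : ℕ) _ => B + (v : ℤ)) ?_ ?_ ?_ ?_
  · intro v hv
    rw [Finset.mem_Ioc] at hv ⊢
    omega
  · intro v _ v' _ h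
    omega
  · intro z hz
    rw [Finset.mem_Ioc] at hz
    refine ⟨(z - B).toNat, ?_, ?_⟩
    · rw [Finset.mem_Ioc]; omega
    · omega
  · intro v _
    rfl

/-- the environment `E` has the jumps `j` along the contour `b` -/
structure JEnv (F : Finset (ℤ × ℤ)) (m : ℕ) (b : ℤ → ℤ × ℤ) (j : ℤ → ℝ) (E : WEnv) : Prop where
  hF : E.F = F
  ht : ∀ i k : ℤ, i < k → k < i + m → E.t (sdB b i) (sdB b k) = tt (Jz j i k)
  hs : ∀ i k : ℤ, i < k → k < i + m → E.s (sdB b i) (sdB b k) = -td (Jz j i k)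

variable {j : ℤ → ℝ} {E : WEnv}

theorem JEnv.Z_eq (h : JEnv F m b j E) (hb : Cont F m b) (hP : HasPot (F : Set (ℤ × ℤ))) (B : ℤ) :
    E.Z = ZJ F m b B fun v : ℕ => j (B + v) := by
  rw [hb.Z_eq hP E h.hF B]
  unfold ZJ Wt
  refine av_congr fun T _ => Finset.prod_congr rfl fun i hi => ?_
  have hlt := mtc_lt (hb.ctr hP B) (ind T)
  rw [mem_opC] at hi
  have := hlt i hi.1
  rw [h.ht _ _ (by omega) (by omega), Jz_rel]

/-- **Boundary heights.** -/
theorem JEnv.sum_mA (h : JEnv F m b j E) (hb : Cont F m b) (hP : HasPot (F : Set (ℤ × ℤ))) (B : ℤ)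
    {v : ℕ} (hv : v ≤ m) : ∑ i ∈ Finset.range v, E.mA (sdB b (B + i)) =
      -(NJ F m b B (fun v : ℕ => j (B + v)) v / ZJ F m b B fun v : ℕ => j (B + v)) := by
  rw [hb.sum_mA hP E h.hF B hv, h.Z_eq hb hP B, ← neg_div]
  congr 1
  unfold NJ
  rw [← av_neg]
  refine av_congr fun T _ => ?_
  have hlt := mtc_lt (hb.ctr hP B) (ind T)
  unfold Nt
  rw [← Finset.sum_neg_distrib]
  refine Finset.sum_congr rfl fun i hi => ?_
  rw [mem_ovC] at hi
  have := hlt i hi.1
  unfold pEC Pt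
  rw [h.hs _ _ (by omega) (by omega), Jz_rel]
  have h1 : ∏ l ∈ (opC m (mtc F m b B (ind T))).erase i,
      E.t (sdB b (B + l)) (sdB b (B + (mtc F m b B (ind T)) l)) =
      ∏ l ∈ (opC m (mtc F m b B (ind T))).erase i,
        tt (Jn (fun v : ℕ => j (B + v)) l ((mtc F m b B (ind T)) l)) := by
    refine Finset.prod_congr rfl fun l hl => ?_
    have h2 := Finset.mem_of_mem_erase hl
    rw [mem_opC] at h2
    have := hlt l h2.1
    rw [h.ht _ _ (by omega) (by omega), Jz_rel]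
  rw [h1]
  ring

end CJ

end

end Pool.Agent.SixB
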