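import Pool.Agent.Lib.SixB.S6W

/-!
# SixB, block CA: the family (A), the pair family, the natural bases

See `S6W.lean`. Marks of the family (A): `e` is the side `k` (marks `-π/3` at `k`, `k + 1`), `π/3` at `n1` and
`n4`, `(1 - α) π/3` at `n2`, `α π/3` at `n3`, `k < n1 ≤ n2 ≤ n3 ≤ n4 ≤ m`; the base vertex `0` is in `A4` or at
`x'`.
* `WA_zero`, `W_class` (A1.1), `WA_nonneg`, `WA_pos`, `W_jK` (A1.2: the weight is the indicator of `Kev` at
  the ends), `ZW_jA_pos`, `ratio_A` (A3.1, A3.2); the side `k` may depend on the index, so sums over several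
  sides are included;
* `W_nat`, `WU_nat`, `ub_nat`, `msep_symm` (natural bases), `pair_eq` (pair family).
-/

set_option autoImplicit false

namespace Pool.Agent.SixB.TW

open Finset

noncomputable section

variable {m : ℕ}

/-! ## Marks -/

/-- A single mark. -/
def mk (n : ℕ) (c : ℝ) : ℕ → ℝ := fun v => if v = n then c else 0

/-- Step function of a mark. -/
def Hv (n i : ℕ) : ℝ := if n ≤ i then 1 else 0

theorem J_mk (n : ℕ) (c : ℝ) {a b : ℕ} (h : a ≤ b) : J (mk n c) a b = c * (Hv n b - Hv n a) := by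
  unfold J mk Hv
  rw [sum_ite_eq']
  simp only [mem_Ioc]
  by_cases h1 : n ≤ a
  · rw [if_neg (by omega), if_pos h1, if_pos (h1.trans h)]; ring
  · by_cases h2 : n ≤ b
    · rw [if_pos ⟨by omega, h2⟩, if_pos h2, if_neg h1]; ring
    · rw [if_neg (by omega), if_neg h2, if_neg h1]; ring

theorem sum_mk (n : ℕ) (c : ℝ) (X : ℕ → ℝ) (hX : m ≤ n → X n = 0) :
    ∑ v ∈ range m, mk n c v * X v = c * X n := by
  unfold mk
  simp only [ite_mul, zero_mul, sum_ite_eq', mem_range]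
  by_cases h : n < m
  · rw [if_pos h]
  · rw [if_neg h, hX (by omega), mul_zero]

/-- The jumps of the event `K`: the side `k` and the marks `b1, b2, b3`. -/
def jK (k b1 b2 b3 : ℕ) : ℕ → ℝ :=
  mk k (-(Real.pi / 3)) + mk (k + 1) (-(Real.pi / 3)) + mk b1 (Real.pi / 3) + mk b2 (Real.pi / 3) +
    mk b3 (Real.pi / 3)

/-- The direction of the family: the mark moves from `n2` to `n3`. -/
def jM (n2 n3 : ℕ) : ℕ → ℝ := mk n3 (Real.pi / 3) + mk n2 (-(Real.pi / 3))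

/-- The family (A). -/
def jA (k n1 n2 n3 n4 : ℕ) (α : ℝ) : ℕ → ℝ := fj (jK k n1 n2 n4) (jM n2 n3) α

/-- The potential of the family (A). -/
def phA (k n1 n2 n3 n4 : ℕ) (α : ℝ) (i : ℕ) : ℝ :=
  Hv n1 i + (1 - α) * Hv n2 i + α * Hv n3 i + Hv n4 i - Hv k i - Hv (k + 1) i

theorem J_jA (k n1 n2 n3 n4 : ℕ) (α : ℝ) {a b : ℕ} (h : a ≤ b) :
    J (jA k n1 n2 n3 n4 α) a b =
      Real.pi / 3 * (phA k n1 n2 n3 n4 α b - phA k n1 n2 n3 n4 α a) := by
  unfold jA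
  rw [J_fj]
  unfold jK jM phA
  simp only [J_add, J_mk _ _ h]
  ring

theorem jA_zero (k n1 n2 n3 n4 : ℕ) : jA k n1 n2 n3 n4 0 = jK k n1 n2 n4 := by
  unfold jA fj
  rw [zero_smul, add_zero]

theorem jA_one (k n1 n2 n3 n4 : ℕ) : jA k n1 n2 n3 n4 1 = jK k n1 n3 n4 := by
  unfold jA fj
  rw [one_smul]
  unfold jK jM
  funext v
  simp only [Pi.add_apply, mk]
  split_ifs <;> ring

/-- `tau` -/
def tau (a : ℝ) : ℝ := tt (a * (Real.pi / 3))

/-- `hat` -/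
def hat (a : ℝ) : ℝ := tt ((1 + a) * (Real.pi / 3))

theorem tau_symm (a : ℝ) : tau (1 - a) = tau a := by
  unfold tau
  rw [← tt_symm]
  congr 1
  ring

theorem tau_ge_one {a : ℝ} (h0 : 0 ≤ a) (h1 : a ≤ 1) : 1 ≤ tau a := by
  unfold tau
  have := Real.pi_pos
  exact tt_ge_one (by positivity) (by nlinarith)

theorem tau_zero : tau 0 = 1 := by
  unfold tau
  rw [zero_mul, tt_zero]

theorem tau_one : tau 1 = 1 := by
  unfold tau
  rw [one_mul, tt_third]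

theorem tau_le (a : ℝ) : tau a ≤ 2 / Real.sqrt 3 := (le_abs_self _).trans (abs_tt_le _)

theorem hat_zero : hat 0 = 1 := by
  unfold hat
  rw [add_zero, one_mul, tt_third]

theorem hat_one : hat 1 = 0 := by
  unfold hat
  rw [show ((1 : ℝ) + 1) = 2 by norm_num, tt_two_third]

theorem hat_nonneg {a : ℝ} (h0 : 0 ≤ a) (h1 : a ≤ 1) : 0 ≤ hat a := by
  unfold hat
  have := Real.pi_pos
  exact tt_nonneg (by nlinarith) (by nlinarith)

theorem hat_pos {a : ℝ} (h0 : 0 ≤ a) (h1 : a < 1) : 0 < hat a := by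
  unfold hat
  have := Real.pi_pos
  exact tt_pos (by nlinarith) (by nlinarith)

theorem hat_le_one {a : ℝ} (h0 : 0 ≤ a) (h1 : a ≤ 1) : hat a ≤ 1 := by
  unfold hat tt
  have := Real.pi_pos
  rw [div_le_one cos6_pos]
  exact Real.cos_le_cos_of_nonneg_of_le_pi (by linarith) (by nlinarith) (by nlinarith)

/-- The order of the marks. -/
structure Ord (k n1 n2 n3 n4 m : ℕ) : Prop where
  h01 : k < n1
  h12 : n1 ≤ n2
  h23 : n2 ≤ n3
  h34 : n3 ≤ n4
  h4 : n4 ≤ m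

/-- The arc of the side `k` lands in `[n1, n4)`, there is no arc from `(k, n1)` to `[n3, n4)` and no arc
from `[n1, n2)` to `[0, k) ∪ [n4, m)`. -/
def Gd (μ : NM m) (k n1 n2 n3 n4 : ℕ) : Prop :=
  (n1 ≤ μ.M k ∧ μ.M k < n4) ∧ (∀ i, k < i → i < n1 → ¬ (n3 ≤ μ.M i ∧ μ.M i < n4)) ∧
    ∀ i, n1 ≤ i → i < n2 → ¬ (μ.M i < k ∨ n4 ≤ μ.M i)

/-- The event `K` of the side `k` and the marks `b1, b2, b3`. -/
def Kev (μ : NM m) (k b1 b2 b3 : ℕ) : Prop := Gd μ k b1 b2 b2 b3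

section Regions

variable {k n1 n2 n3 n4 : ℕ} (o : Ord k n1 n2 n3 n4 m) (α : ℝ) {i : ℕ}

theorem Hv_lt {n i : ℕ} (h : i < n) : Hv n i = 0 := if_neg (by omega)

theorem Hv_ge {n i : ℕ} (h : n ≤ i) : Hv n i = 1 := if_pos h

include o

theorem ph_0 (h : i < k) : phA k n1 n2 n3 n4 α i = 0 := by
  obtain ⟨h01, h12, h23, h34, h4⟩ := o
  unfold phA
  rw [Hv_lt (n := n1) (by omega), Hv_lt (n := n2) (by omega), Hv_lt (n := n3) (by omega),
    Hv_lt (n := n4) (by omega), Hv_lt (n := k) (by omega), Hv_lt (n := k + 1) (by omega)]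
  ring

theorem ph_e (h : i = k) : phA k n1 n2 n3 n4 α i = -1 := by
  obtain ⟨h01, h12, h23, h34, h4⟩ := o
  unfold phA
  rw [Hv_lt (n := n1) (by omega), Hv_lt (n := n2) (by omega), Hv_lt (n := n3) (by omega),
    Hv_lt (n := n4) (by omega), Hv_ge (n := k) (by omega), Hv_lt (n := k + 1) (by omega)]
  ring

theorem ph_1 (h : k < i) (h' : i < n1) : phA k n1 n2 n3 n4 α i = -2 := by
  obtain ⟨h01, h12, h23, h34, h4⟩ := o
  unfold phA
  rw [Hv_lt (n := n1) (by omega), Hv_lt (n := n2) (by omega), Hv_lt (n := n3) (by omega),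
    Hv_lt (n := n4) (by omega), Hv_ge (n := k) (by omega), Hv_ge (n := k + 1) (by omega)]
  ring

theorem ph_2 (h : n1 ≤ i) (h' : i < n2) : phA k n1 n2 n3 n4 α i = -1 := by
  obtain ⟨h01, h12, h23, h34, h4⟩ := o
  unfold phA
  rw [Hv_ge (n := n1) (by omega), Hv_lt (n := n2) (by omega), Hv_lt (n := n3) (by omega),
    Hv_lt (n := n4) (by omega), Hv_ge (n := k) (by omega), Hv_ge (n := k + 1) (by omega)]
  ring

theorem ph_M (h : n2 ≤ i) (h' : i < n3) : phA k n1 n2 n3 n4 α i = -α := by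
  obtain ⟨h01, h12, h23, h34, h4⟩ := o
  unfold phA
  rw [Hv_ge (n := n1) (by omega), Hv_ge (n := n2) (by omega), Hv_lt (n := n3) (by omega),
    Hv_lt (n := n4) (by omega), Hv_ge (n := k) (by omega), Hv_ge (n := k + 1) (by omega)]
  ring

theorem ph_3 (h : n3 ≤ i) (h' : i < n4) : phA k n1 n2 n3 n4 α i = 0 := by
  obtain ⟨h01, h12, h23, h34, h4⟩ := o
  unfold phA
  rw [Hv_ge (n := n1) (by omega), Hv_ge (n := n2) (by omega), Hv_ge (n := n3) (by omega),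
    Hv_lt (n := n4) (by omega), Hv_ge (n := k) (by omega), Hv_ge (n := k + 1) (by omega)]
  ring

theorem ph_4 (h : n4 ≤ i) : phA k n1 n2 n3 n4 α i = 1 := by
  obtain ⟨h01, h12, h23, h34, h4⟩ := o
  unfold phA
  rw [Hv_ge (n := n1) (by omega), Hv_ge (n := n2) (by omega), Hv_ge (n := n3) (by omega),
    Hv_ge (n := n4) (by omega), Hv_ge (n := k) (by omega), Hv_ge (n := k + 1) (by omega)]
  ring

omit o in
theorem reg_cases (k n1 n2 n3 n4 i : ℕ) : i < k ∨ i = k ∨ (k < i ∧ i < n1) ∨ (n1 ≤ i ∧ i < n2) ∨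
    (n2 ≤ i ∧ i < n3) ∨ (n3 ≤ i ∧ i < n4) ∨ n4 ≤ i := by
  omega

end Regions

theorem tt_of {x c y : ℝ} (h : x = c) (hy : tt c = y) : tt x = y := by rw [h, hy]

theorem tt_tau' (α : ℝ) : tt ((1 - α) * (Real.pi / 3)) = tau α := by
  rw [← tau_symm]; rfl

theorem tt_hat' (α : ℝ) : tt (-(α * (Real.pi / 3))) = hat α := by
  unfold hat
  rw [← tt_symm]
  congr 1
  ring

theorem tt_hat'' (α : ℝ) : tt ((2 - α) * (Real.pi / 3)) = hat (1 - α) := by
  unfold hat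
  congr 1
  ring

theorem W_eq_zero {j : ℕ → ℝ} {μ : NM m} {i : ℕ} (hi : i < m) (hi' : i < μ.M i)
    (h : tt (J j i (μ.M i)) = 0) : W j μ = 0 :=
  prod_eq_zero (μ.mem_opn.2 ⟨hi, hi'⟩) h

/-- The weight vanishes off the event `Gd`. -/
theorem WA_zero {μ : NM m} {k n1 n2 n3 n4 : ℕ} (o : Ord k n1 n2 n3 n4 m) (α : ℝ)
    (h : ¬ Gd μ k n1 n2 n3 n4) : W (jA k n1 n2 n3 n4 α) μ = 0 := by
  have o' := o
  obtain ⟨h01, h12, h23, h34, h4⟩ := o'
  have hkm : k < m := by omega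
  have hN := μ.ne hkm
  by_cases h1 : n1 ≤ μ.M k ∧ μ.M k < n4
  · by_cases h2 : ∀ i, k < i → i < n1 → ¬ (n3 ≤ μ.M i ∧ μ.M i < n4)
    · have h3 : ¬ ∀ i, n1 ≤ i → i < n2 → ¬ (μ.M i < k ∨ n4 ≤ μ.M i) := fun h3 => h ⟨h1, h2, h3⟩
      push Not at h3
      obtain ⟨i, hi1, hi2, hi3⟩ := h3
      have him : i < m := by omega
      rcases hi3 with hi3 | hi3
      · have hinv := μ.inv him
        refine W_eq_zero (i := μ.M i) (μ.lt him) (by rw [hinv]; omega) ?_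
        rw [hinv, J_jA _ _ _ _ _ _ (by omega), ph_2 o α hi1 hi2, ph_0 o α hi3]
        refine tt_of ?_ tt_neg_third
        ring1
      · refine W_eq_zero (i := i) him (by omega) ?_
        rw [J_jA _ _ _ _ _ _ (by omega), ph_2 o α hi1 hi2, ph_4 o α hi3]
        refine tt_of ?_ tt_two_third
        ring1
    · push Not at h2
      obtain ⟨i, hi1, hi2, hi3, hi4⟩ := h2
      refine W_eq_zero (i := i) (by omega) (by omega) ?_
      rw [J_jA _ _ _ _ _ _ (by omega), ph_1 o α hi1 hi2, ph_3 o α hi3 hi4]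
      refine tt_of ?_ tt_two_third
      ring1
  · rcases lt_or_gt_of_ne hN with h5 | h5
    · have hinv := μ.inv hkm
      refine W_eq_zero (i := μ.M k) (μ.lt hkm) (by rw [hinv]; omega) ?_
      rw [hinv, J_jA _ _ _ _ _ _ (by omega), ph_0 o α h5, ph_e o α rfl]
      refine tt_of ?_ tt_neg_third
      ring1
    · refine W_eq_zero (i := k) hkm h5 ?_
      rcases lt_or_ge (μ.M k) n1 with h6 | h6
      · rw [J_jA _ _ _ _ _ _ (by omega), ph_1 o α h5 h6, ph_e o α rfl]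
        refine tt_of ?_ tt_neg_third
        ring1
      · rw [J_jA _ _ _ _ _ _ (by omega), ph_4 o α (i := μ.M k) (by omega), ph_e o α rfl]
        refine tt_of ?_ tt_two_third
        ring1

/-- Arcs `e - M`, `A2 - M`, `M - A3`. -/
def aT (μ : NM m) (k n1 n2 n3 n4 : ℕ) : Finset ℕ := μ.opn.filter fun i =>
  ((i = k ∨ n1 ≤ i ∧ i < n2) ∧ n2 ≤ μ.M i ∧ μ.M i < n3) ∨
    ((n2 ≤ i ∧ i < n3) ∧ n3 ≤ μ.M i ∧ μ.M i < n4)

/-- Arcs `A1 - M`. -/
def a1 (μ : NM m) (k n1 n2 n3 : ℕ) : Finset ℕ := μ.opn.filter fun i =>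
  (k < i ∧ i < n1) ∧ n2 ≤ μ.M i ∧ μ.M i < n3

/-- Arcs `M - A4`. -/
def a4 (μ : NM m) (k n2 n3 n4 : ℕ) : Finset ℕ := μ.opn.filter fun i =>
  (i < k ∧ n2 ≤ μ.M i ∧ μ.M i < n3) ∨ ((n2 ≤ i ∧ i < n3) ∧ n4 ≤ μ.M i)

/-- The factor of an arc in the family (A). -/
theorem fac_class {k n1 n2 n3 n4 : ℕ} (o : Ord k n1 n2 n3 n4 m) (α : ℝ) {i j : ℕ} (hij : i < j)
    (E1 : ¬ (i < k ∧ j = k)) (E2 : ¬ (i < k ∧ k < j ∧ j < n1)) (E3 : ¬ (i < k ∧ n1 ≤ j ∧ j < n2))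
    (E4 : ¬ (i = k ∧ j < n1)) (E5 : ¬ (i = k ∧ n4 ≤ j)) (E6 : ¬ (k < i ∧ i < n1 ∧ n3 ≤ j ∧ j < n4))
    (E7 : ¬ (k < i ∧ i < n1 ∧ n4 ≤ j)) (E8 : ¬ (n1 ≤ i ∧ i < n2 ∧ n4 ≤ j)) :
    tt (J (jA k n1 n2 n3 n4 α) i j) =
      (if ((i = k ∨ n1 ≤ i ∧ i < n2) ∧ n2 ≤ j ∧ j < n3) ∨
        ((n2 ≤ i ∧ i < n3) ∧ n3 ≤ j ∧ j < n4) then tau α else 1) *
      (if (k < i ∧ i < n1) ∧ n2 ≤ j ∧ j < n3 then hat (1 - α) else 1) *
      (if (i < k ∧ n2 ≤ j ∧ j < n3) ∨ ((n2 ≤ i ∧ i < n3) ∧ n4 ≤ j) then hat α else 1) := by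
  rw [J_jA _ _ _ _ _ _ hij.le]
  have o' := o
  obtain ⟨h01, h12, h23, h34, h4⟩ := o'
  rcases reg_cases k n1 n2 n3 n4 i with g | g | ⟨g, g'⟩ | ⟨g, g'⟩ | ⟨g, g'⟩ | ⟨g, g'⟩ | g
  · rcases reg_cases k n1 n2 n3 n4 j with f | f | ⟨f, f'⟩ | ⟨f, f'⟩ | ⟨f, f'⟩ | ⟨f, f'⟩ | f
    · clear E1 E2 E3 E4 E5 E6 E7 E8
      rw [ph_0 o α f, ph_0 o α g, if_neg (by omega), if_neg (by omega), if_neg (by omega)]
      simp only [mul_one]
      refine tt_of ?_ tt_zero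
      ring1
    · exact absurd ⟨g, f⟩ E1
    · exact absurd ⟨g, f, f'⟩ E2
    · exact absurd ⟨g, f, f'⟩ E3
    · clear E1 E2 E3 E4 E5 E6 E7 E8
      rw [ph_M o α f f', ph_0 o α g, if_neg (by omega), if_neg (by omega), if_pos (by omega)]
      simp only [one_mul, mul_one]
      refine tt_of ?_ (tt_hat' α)
      ring1
    · clear E1 E2 E3 E4 E5 E6 E7 E8
      rw [ph_3 o α f f', ph_0 o α g, if_neg (by omega), if_neg (by omega), if_neg (by omega)]
      simp only [mul_one]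
      refine tt_of ?_ tt_zero
      ring1
    · clear E1 E2 E3 E4 E5 E6 E7 E8
      rw [ph_4 o α f, ph_0 o α g, if_neg (by omega), if_neg (by omega), if_neg (by omega)]
      simp only [mul_one]
      refine tt_of ?_ tt_third
      ring1
  · rcases reg_cases k n1 n2 n3 n4 j with f | f | ⟨f, f'⟩ | ⟨f, f'⟩ | ⟨f, f'⟩ | ⟨f, f'⟩ | f
    · exfalso; clear E1 E2 E3 E4 E5 E6 E7 E8; omega
    · exfalso; clear E1 E2 E3 E4 E5 E6 E7 E8; omega
    · exact absurd ⟨g, f'⟩ E4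
    · clear E1 E2 E3 E4 E5 E6 E7 E8
      rw [ph_2 o α f f', ph_e o α g, if_neg (by omega), if_neg (by omega), if_neg (by omega)]
      simp only [mul_one]
      refine tt_of ?_ tt_zero
      ring1
    · clear E1 E2 E3 E4 E5 E6 E7 E8
      rw [ph_M o α f f', ph_e o α g, if_pos (by omega), if_neg (by omega), if_neg (by omega)]
      simp only [mul_one]
      refine tt_of ?_ (tt_tau' α)
      ring1
    · clear E1 E2 E3 E4 E5 E6 E7 E8
      rw [ph_3 o α f f', ph_e o α g, if_neg (by omega), if_neg (by omega), if_neg (by omega)]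
      simp only [mul_one]
      refine tt_of ?_ tt_third
      ring1
    · exact absurd ⟨g, f⟩ E5
  · rcases reg_cases k n1 n2 n3 n4 j with f | f | ⟨f, f'⟩ | ⟨f, f'⟩ | ⟨f, f'⟩ | ⟨f, f'⟩ | f
    · exfalso; clear E1 E2 E3 E4 E5 E6 E7 E8; omega
    · exfalso; clear E1 E2 E3 E4 E5 E6 E7 E8; omega
    · clear E1 E2 E3 E4 E5 E6 E7 E8
      rw [ph_1 o α f f', ph_1 o α g g', if_neg (by omega), if_neg (by omega), if_neg (by omega)]
      simp only [mul_one]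
      refine tt_of ?_ tt_zero
      ring1
    · clear E1 E2 E3 E4 E5 E6 E7 E8
      rw [ph_2 o α f f', ph_1 o α g g', if_neg (by omega), if_neg (by omega), if_neg (by omega)]
      simp only [mul_one]
      refine tt_of ?_ tt_third
      ring1
    · clear E1 E2 E3 E4 E5 E6 E7 E8
      rw [ph_M o α f f', ph_1 o α g g', if_neg (by omega), if_pos (by omega), if_neg (by omega)]
      simp only [one_mul, mul_one]
      refine tt_of ?_ (tt_hat'' α)
      ring1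
    · exact absurd ⟨g, g', f, f'⟩ E6
    · exact absurd ⟨g, g', f⟩ E7
  · rcases reg_cases k n1 n2 n3 n4 j with f | f | ⟨f, f'⟩ | ⟨f, f'⟩ | ⟨f, f'⟩ | ⟨f, f'⟩ | f
    · exfalso; clear E1 E2 E3 E4 E5 E6 E7 E8; omega
    · exfalso; clear E1 E2 E3 E4 E5 E6 E7 E8; omega
    · exfalso; clear E1 E2 E3 E4 E5 E6 E7 E8; omega
    · clear E1 E2 E3 E4 E5 E6 E7 E8
      rw [ph_2 o α f f', ph_2 o α g g', if_neg (by omega), if_neg (by omega), if_neg (by omega)]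
      simp only [mul_one]
      refine tt_of ?_ tt_zero
      ring1
    · clear E1 E2 E3 E4 E5 E6 E7 E8
      rw [ph_M o α f f', ph_2 o α g g', if_pos (by omega), if_neg (by omega), if_neg (by omega)]
      simp only [mul_one]
      refine tt_of ?_ (tt_tau' α)
      ring1
    · clear E1 E2 E3 E4 E5 E6 E7 E8
      rw [ph_3 o α f f', ph_2 o α g g', if_neg (by omega), if_neg (by omega), if_neg (by omega)]
      simp only [mul_one]
      refine tt_of ?_ tt_third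
      ring1
    · exact absurd ⟨g, g', f⟩ E8
  · rcases reg_cases k n1 n2 n3 n4 j with f | f | ⟨f, f'⟩ | ⟨f, f'⟩ | ⟨f, f'⟩ | ⟨f, f'⟩ | f
    · exfalso; clear E1 E2 E3 E4 E5 E6 E7 E8; omega
    · exfalso; clear E1 E2 E3 E4 E5 E6 E7 E8; omega
    · exfalso; clear E1 E2 E3 E4 E5 E6 E7 E8; omega
    · exfalso; clear E1 E2 E3 E4 E5 E6 E7 E8; omega
    · clear E1 E2 E3 E4 E5 E6 E7 E8
      rw [ph_M o α f f', ph_M o α g g', if_neg (by omega), if_neg (by omega), if_neg (by omega)]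
      simp only [mul_one]
      refine tt_of ?_ tt_zero
      ring1
    · clear E1 E2 E3 E4 E5 E6 E7 E8
      rw [ph_3 o α f f', ph_M o α g g', if_pos (by omega), if_neg (by omega), if_neg (by omega)]
      simp only [mul_one]
      refine tt_of (c := α * (Real.pi / 3)) ?_ rfl
      ring1
    · clear E1 E2 E3 E4 E5 E6 E7 E8
      rw [ph_4 o α f, ph_M o α g g', if_neg (by omega), if_neg (by omega), if_pos (by omega)]
      simp only [one_mul, mul_one]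
      refine tt_of (c := (1 + α) * (Real.pi / 3)) ?_ rfl
      ring1
  · rcases reg_cases k n1 n2 n3 n4 j with f | f | ⟨f, f'⟩ | ⟨f, f'⟩ | ⟨f, f'⟩ | ⟨f, f'⟩ | f
    · exfalso; clear E1 E2 E3 E4 E5 E6 E7 E8; omega
    · exfalso; clear E1 E2 E3 E4 E5 E6 E7 E8; omega
    · exfalso; clear E1 E2 E3 E4 E5 E6 E7 E8; omega
    · exfalso; clear E1 E2 E3 E4 E5 E6 E7 E8; omega
    · exfalso; clear E1 E2 E3 E4 E5 E6 E7 E8; omega
    · clear E1 E2 E3 E4 E5 E6 E7 E8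
      rw [ph_3 o α f f', ph_3 o α g g', if_neg (by omega), if_neg (by omega), if_neg (by omega)]
      simp only [mul_one]
      refine tt_of ?_ tt_zero
      ring1
    · clear E1 E2 E3 E4 E5 E6 E7 E8
      rw [ph_4 o α f, ph_3 o α g g', if_neg (by omega), if_neg (by omega), if_neg (by omega)]
      simp only [mul_one]
      refine tt_of ?_ tt_third
      ring1
  · rcases reg_cases k n1 n2 n3 n4 j with f | f | ⟨f, f'⟩ | ⟨f, f'⟩ | ⟨f, f'⟩ | ⟨f, f'⟩ | f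
    · exfalso; clear E1 E2 E3 E4 E5 E6 E7 E8; omega
    · exfalso; clear E1 E2 E3 E4 E5 E6 E7 E8; omega
    · exfalso; clear E1 E2 E3 E4 E5 E6 E7 E8; omega
    · exfalso; clear E1 E2 E3 E4 E5 E6 E7 E8; omega
    · exfalso; clear E1 E2 E3 E4 E5 E6 E7 E8; omega
    · exfalso; clear E1 E2 E3 E4 E5 E6 E7 E8; omega
    · clear E1 E2 E3 E4 E5 E6 E7 E8
      rw [ph_4 o α f, ph_4 o α g, if_neg (by omega), if_neg (by omega), if_neg (by omega)]
      simp only [mul_one]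
      refine tt_of ?_ tt_zero
      ring1

/-- **A1.1.** The weight on the event `Gd`. -/
theorem W_class {μ : NM m} {k n1 n2 n3 n4 : ℕ} (o : Ord k n1 n2 n3 n4 m) (α : ℝ)
    (h : Gd μ k n1 n2 n3 n4) : W (jA k n1 n2 n3 n4 α) μ =
      tau α ^ (aT μ k n1 n2 n3 n4).card * hat (1 - α) ^ (a1 μ k n1 n2 n3).card *
        hat α ^ (a4 μ k n2 n3 n4).card := by
  have key : ∀ i ∈ μ.opn, tt (J (jA k n1 n2 n3 n4 α) i (μ.M i)) =
      (if ((i = k ∨ n1 ≤ i ∧ i < n2) ∧ n2 ≤ μ.M i ∧ μ.M i < n3) ∨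
        ((n2 ≤ i ∧ i < n3) ∧ n3 ≤ μ.M i ∧ μ.M i < n4) then tau α else 1) *
      (if (k < i ∧ i < n1) ∧ n2 ≤ μ.M i ∧ μ.M i < n3 then hat (1 - α) else 1) *
      (if (i < k ∧ n2 ≤ μ.M i ∧ μ.M i < n3) ∨ ((n2 ≤ i ∧ i < n3) ∧ n4 ≤ μ.M i)
        then hat α else 1) := by
    intro i hi
    rw [μ.mem_opn] at hi
    obtain ⟨him, hi'⟩ := hi
    obtain ⟨⟨h1, h1'⟩, h2, h3⟩ := h
    have o' := o
    obtain ⟨h01, h12, h23, h34, h4⟩ := o'
    have hkm : k < m := by omega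
    have hnc1 : i < k → k < μ.M i → i < μ.M k ∧ μ.M k < μ.M i := fun a b => μ.nc i him k a b
    have hnc2 : k < i → i < μ.M k → k < μ.M i ∧ μ.M i < μ.M k := fun a b => μ.nc k hkm i a b
    have h2' := h2 i
    have h3' := h3 i
    have h3'' := h3 (μ.M i)
    rw [μ.inv him] at h3''
    have hek : i = k → μ.M i = μ.M k := fun e => by rw [e]
    have hek' : μ.M i = k → i = μ.M k := fun e => by rw [← e, μ.inv him]
    refine fac_class o α hi' ?_ ?_ ?_ ?_ ?_ ?_ ?_ ?_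
    · rintro ⟨a, b⟩
      have := hek' b
      omega
    · rintro ⟨a, b, c⟩
      have := hnc1 a b
      omega
    · rintro ⟨a, b, c⟩
      exact h3'' b c (Or.inl a)
    · rintro ⟨a, b⟩
      have := hek a
      omega
    · rintro ⟨a, b⟩
      have := hek a
      omega
    · rintro ⟨a, b, c⟩
      exact h2' a b c
    · rintro ⟨a, b, c⟩
      have := hnc2 a (by omega)
      omega
    · rintro ⟨a, b, c⟩
      exact h3' a b (Or.inr c)
  unfold W
  rw [prod_congr rfl key, prod_mul_distrib, prod_mul_distrib]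
  simp only [prod_ite, prod_const, one_pow, mul_one]
  rfl

theorem Gd_of_Kev_left {μ : NM m} {k n1 n2 n3 n4 : ℕ} (o : Ord k n1 n2 n3 n4 m)
    (h : Kev μ k n1 n2 n4) : Gd μ k n1 n2 n3 n4 :=
  ⟨h.1, fun i h1 h2 h3 => h.2.1 i h1 h2 ⟨o.h23.trans h3.1, h3.2⟩, h.2.2⟩

theorem Gd_of_Kev_right {μ : NM m} {k n1 n2 n3 n4 : ℕ} (o : Ord k n1 n2 n3 n4 m)
    (h : Kev μ k n1 n3 n4) : Gd μ k n1 n2 n3 n4 :=
  ⟨h.1, h.2.1, fun i h1 h2 => h.2.2 i h1 (lt_of_lt_of_le h2 o.h23)⟩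

/-- The weight is nonnegative on `[0, 1]`. -/
theorem WA_nonneg {k n1 n2 n3 n4 : ℕ} (o : Ord k n1 n2 n3 n4 m) (μ : NM m) {α : ℝ}
    (h0 : 0 ≤ α) (h1 : α ≤ 1) : 0 ≤ W (jA k n1 n2 n3 n4 α) μ := by
  by_cases h : Gd μ k n1 n2 n3 n4
  · rw [W_class o α h]
    have t := tau_ge_one h0 h1
    have h2 := hat_nonneg (a := 1 - α) (by linarith) (by linarith)
    have h3 := hat_nonneg h0 h1
    positivity
  · rw [WA_zero o α h]

/-- The weight is positive on `(0, 1)` on the event `Gd`. -/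
theorem WA_pos {k n1 n2 n3 n4 : ℕ} (o : Ord k n1 n2 n3 n4 m) {μ : NM m}
    (h : Gd μ k n1 n2 n3 n4) {α : ℝ} (h0 : 0 < α) (h1 : α < 1) :
    0 < W (jA k n1 n2 n3 n4 α) μ := by
  rw [W_class o α h]
  have t := lt_of_lt_of_le one_pos (tau_ge_one h0.le h1.le)
  have h2 := hat_pos (a := 1 - α) (by linarith) (by linarith)
  have h3 := hat_pos h0.le h1
  positivity

open Classical in
/-- **A1.2.** At the ends of the family the weight is the indicator of `K`. -/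
theorem W_jK {k b1 b2 b3 : ℕ} (h1 : k < b1) (h2 : b1 ≤ b2) (h3 : b2 ≤ b3) (h4 : b3 ≤ m)
    (μ : NM m) : W (jK k b1 b2 b3) μ = if Kev μ k b1 b2 b3 then 1 else 0 := by
  have o : Ord k b1 b2 b2 b3 m := ⟨h1, h2, le_rfl, h3, h4⟩
  rw [← jA_zero k b1 b2 b2 b3]
  by_cases h : Kev μ k b1 b2 b3
  · rw [if_pos h, W_class o 0 h, tau_zero, one_pow, one_mul, hat_zero, one_pow, mul_one]
    have : (a1 μ k b1 b2 b2) = ∅ := by
      unfold a1
      rw [filter_eq_empty_iff]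
      rintro i - ⟨-, h5, h6⟩
      omega
    rw [this, card_empty, pow_zero]
  · rw [if_neg h, WA_zero o 0 h]

open Classical in
/-- Probability of the event `K`. -/
def PK {Ω : Type*} (s : Finset Ω) (p : Ω → ℝ) (μ : Ω → NM m) (k : Ω → ℕ) (b1 b2 b3 : ℕ) : ℝ :=
  ∑ ω ∈ s, if Kev (μ ω) (k ω) b1 b2 b3 then p ω else 0

section FamilyA

variable {Ω : Type*} {s : Finset Ω} {p : Ω → ℝ} {μ : Ω → NM m} {k : Ω → ℕ} {n1 n2 n3 n4 : ℕ}

theorem ZW_jK {b1 b2 b3 : ℕ} (h1 : ∀ ω ∈ s, k ω < b1) (h2 : b1 ≤ b2) (h3 : b2 ≤ b3) (h4 : b3 ≤ m) :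
    ZW s p μ (fun ω => jK (k ω) b1 b2 b3) = PK s p μ k b1 b2 b3 := by
  unfold ZW PK
  refine sum_congr rfl fun ω hω => ?_
  rw [W_jK (h1 ω hω) h2 h3 h4]
  split_ifs
  · rw [mul_one]
  · rw [mul_zero]

theorem PK_nonneg (hp : ∀ ω ∈ s, 0 ≤ p ω) (b1 b2 b3 : ℕ) : 0 ≤ PK s p μ k b1 b2 b3 := by
  unfold PK
  refine sum_nonneg fun ω hω => ?_
  split_ifs
  · exact hp ω hω
  · exact le_rfl

/-- The partition function of the family (A) is positive on `[0, 1]` if it is at the ends. -/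
theorem ZW_jA_pos (o : ∀ ω ∈ s, Ord (k ω) n1 n2 n3 n4 m) (hp : ∀ ω ∈ s, 0 ≤ p ω)
    (h0 : 0 < PK s p μ k n1 n2 n4) (h1 : 0 < PK s p μ k n1 n3 n4) {α : ℝ}
    (hα : α ∈ Set.Icc (0 : ℝ) 1) : 0 < ZW s p μ fun ω => jA (k ω) n1 n2 n3 n4 α := by
  have hne : s.Nonempty := by
    rw [nonempty_iff_ne_empty]
    rintro rfl
    simp [PK] at h0
  obtain ⟨ω₀, hω₀⟩ := hne
  have o₀ := o ω₀ hω₀
  rcases eq_or_lt_of_le hα.1 with h | hα0
  · rw [← h]
    simp_rw [jA_zero]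
    rwa [ZW_jK (fun ω hω => (o ω hω).h01) o₀.h12 (o₀.h23.trans o₀.h34) o₀.h4]
  rcases eq_or_lt_of_le hα.2 with h | hα1
  · rw [h]
    simp_rw [jA_one]
    rwa [ZW_jK (fun ω hω => lt_of_lt_of_le (o ω hω).h01 le_rfl) (o₀.h12.trans o₀.h23) o₀.h34 o₀.h4]
  obtain ⟨ω, hω, hK, hlt⟩ : ∃ ω ∈ s, Kev (μ ω) (k ω) n1 n2 n4 ∧ 0 < p ω := by
    by_contra hcon
    push Not at hcon
    refine absurd h0 (not_lt.2 ?_)
    unfold PK
    refine sum_nonpos fun ω hω => ?_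
    split_ifs with hK
    · exact hcon ω hω hK
    · exact le_rfl
  unfold ZW
  refine sum_pos' (fun ω' hω' => mul_nonneg (hp ω' hω') (WA_nonneg (o ω' hω') _ hα.1 hα.2))
    ⟨ω, hω, mul_pos hlt (WA_pos (o ω hω) (Gd_of_Kev_left (o ω hω) hK) hα0 hα1)⟩

/-- **A3.1, A3.2.** The exact ratio formula of the family (A). -/
theorem ratio_A (o : ∀ ω ∈ s, Ord (k ω) n1 n2 n3 n4 m) (hp : ∀ ω ∈ s, 0 ≤ p ω)
    (h0 : 0 < PK s p μ k n1 n2 n4) (h1 : 0 < PK s p μ k n1 n3 n4) :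
    Real.log (PK s p μ k n1 n3 n4) - Real.log (PK s p μ k n1 n2 n4) =
      Real.pi / 3 * ((∫ α in (0 : ℝ)..1, ub s p μ (fun ω => jA (k ω) n1 n2 n3 n4 α) n3) -
        ∫ α in (0 : ℝ)..1, ub s p μ (fun ω => jA (k ω) n1 n2 n3 n4 α) n2) := by
  have hne : s.Nonempty := by
    rw [nonempty_iff_ne_empty]
    rintro rfl
    simp [PK] at h0
  obtain ⟨ω₀, hω₀⟩ := hne
  have o₀ := o ω₀ hω₀
  have h := log_ratio s p μ (fun ω => jK (k ω) n1 n2 n4) (jM n2 n3)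
    (fun α hα => ZW_jA_pos o hp h0 h1 hα)
  have e1 : (ZW s p μ fun ω => fj (jK (k ω) n1 n2 n4) (jM n2 n3) 1) = PK s p μ k n1 n3 n4 := by
    rw [← ZW_jK (fun ω hω => (o ω hω).h01) (o₀.h12.trans o₀.h23) o₀.h34 o₀.h4]
    congr 1
    funext ω
    exact jA_one _ _ _ _ _
  have e0 : (ZW s p μ fun ω => fj (jK (k ω) n1 n2 n4) (jM n2 n3) 0) = PK s p μ k n1 n2 n4 := by
    rw [← ZW_jK (fun ω hω => (o ω hω).h01) o₀.h12 (o₀.h23.trans o₀.h34) o₀.h4]
    congr 1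
    funext ω
    exact jA_zero _ _ _ _ _
  rw [e1, e0] at h
  rw [h]
  have hz : ∀ n, m ≤ n → ∀ j : Ω → ℕ → ℝ, ub s p μ j n = 0 := by
    intro n hn j
    unfold ub uW
    rw [HW_bdry]
    have : ∀ ω ∈ s, p ω * WU (j ω) (μ ω) ((μ ω).ovr n) = 0 := by
      intro ω _
      rw [(μ ω).ovr_of_le hn, WU_empty, mul_zero]
    rw [sum_eq_zero this, zero_div]
  unfold jM
  simp only [Pi.add_apply, add_mul, sum_add_distrib]
  rw [sum_mk, sum_mk]
  · unfold jA jM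
    ring
  · intro hn
    simp only [hz _ hn, intervalIntegral.integral_zero]
  · intro hn
    simp only [hz _ hn, intervalIntegral.integral_zero]

end FamilyA

/-! ## The pair family and the natural bases -/

theorem tt_jump_ge_one {x : ℝ} (h : x ∈ Set.Icc (0 : ℝ) 1) : 1 ≤ tt (Real.pi / 3 * x) := by
  have := Real.pi_pos
  exact tt_ge_one (by have := h.1; positivity) (by have := h.2; nlinarith)

/-- The weight of a natural base is `1`. -/
theorem W_nat (n : ℕ) (μ : NM m) : W (mk n (Real.pi / 3)) μ = 1 := by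
  unfold W
  refine prod_eq_one fun i hi => ?_
  rw [μ.mem_opn] at hi
  rw [J_mk _ _ hi.2.le]
  unfold Hv
  split_ifs with h1 h2
  · refine tt_of ?_ tt_zero; ring1
  · refine tt_of ?_ tt_third; ring1
  · omega
  · refine tt_of ?_ tt_zero; ring1

/-- The height numerator of a natural base. -/
theorem WU_nat (n : ℕ) (μ : NM m) {A : Finset ℕ} (hA : A ⊆ μ.opn) :
    WU (mk n (Real.pi / 3)) μ A =
      1 / Real.sqrt 3 * (((A \ μ.ovr n).card : ℝ) - ((A ∩ μ.ovr n).card : ℝ)) := by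
  have key : ∀ i ∈ A, (∏ l ∈ μ.opn.erase i, tt (J (mk n (Real.pi / 3)) l (μ.M l))) *
      td (J (mk n (Real.pi / 3)) i (μ.M i)) =
      if i ∈ μ.ovr n then -(1 / Real.sqrt 3) else 1 / Real.sqrt 3 := by
    intro i hi
    have hi' := hA hi
    have h1 : (∏ l ∈ μ.opn.erase i, tt (J (mk n (Real.pi / 3)) l (μ.M l))) = 1 := by
      refine prod_eq_one fun l hl => ?_
      have hl' := mem_of_mem_erase hl
      rw [μ.mem_opn] at hl'
      rw [J_mk _ _ hl'.2.le]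
      unfold Hv
      split_ifs with h1 h2
      · refine tt_of ?_ tt_zero; ring1
      · refine tt_of ?_ tt_third; ring1
      · omega
      · refine tt_of ?_ tt_zero; ring1
    rw [h1, one_mul]
    rw [μ.mem_opn] at hi'
    rw [J_mk _ _ hi'.2.le]
    by_cases h2 : i < n ∧ n ≤ μ.M i
    · rw [if_pos (μ.mem_ovr.2 ⟨hi', h2⟩), Hv_ge h2.2, Hv_lt h2.1, sub_zero, mul_one, td_third]
    · rw [if_neg fun h3 => h2 (μ.mem_ovr.1 h3).2]
      have : Hv n (μ.M i) = Hv n i := by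
        unfold Hv
        split_ifs <;> first | rfl | omega
      rw [this, sub_self, mul_zero, td_zero]
  unfold WU
  rw [sum_congr rfl key, sum_ite, sum_const, sum_const, nsmul_eq_mul, nsmul_eq_mul]
  have e1 : A.filter (fun i => i ∈ μ.ovr n) = A ∩ μ.ovr n := by ext; simp
  have e2 : A.filter (fun i => i ∉ μ.ovr n) = A \ μ.ovr n := by ext; simp
  rw [e1, e2]
  ring

/-- The number of arcs which separate the boundary vertices `v` and `w`. -/
def nsep (μ : NM m) (v w : ℕ) : ℕ := (μ.ovr v \ μ.ovr w).card + (μ.ovr w \ μ.ovr v).card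

theorem nsep_symm (μ : NM m) (v w : ℕ) : nsep μ v w = nsep μ w v := by
  unfold nsep
  rw [add_comm]

theorem nsep_zero (μ : NM m) (v : ℕ) : nsep μ 0 v = (μ.ovr v).card := by
  unfold nsep
  rw [μ.ovr_zero]
  simp

/-- The height of a natural base at the boundary. -/
theorem WU_nat_bdry (n v : ℕ) (μ : NM m) :
    WU (mk n (Real.pi / 3)) μ (μ.ovr v) =
      1 / Real.sqrt 3 * ((nsep μ v n : ℝ) - (nsep μ 0 n : ℝ)) := by
  rw [WU_nat n μ (μ.ovr_subset v), nsep_zero]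
  unfold nsep
  have : (μ.ovr n).card = (μ.ovr n \ μ.ovr v).card + (μ.ovr v ∩ μ.ovr n).card := by
    rw [inter_comm, card_sdiff_add_card_inter]
  rw [this]
  push_cast
  ring

section Pair

variable {Ω : Type*} {s : Finset Ω} {p : Ω → ℝ} {μ : Ω → NM m}

/-- Mean number of separating arcs, over `√3`. -/
def msep (s : Finset Ω) (p : Ω → ℝ) (μ : Ω → NM m) (v w : ℕ) : ℝ :=
  1 / Real.sqrt 3 * ((∑ ω ∈ s, p ω * nsep (μ ω) v w) / ∑ ω ∈ s, p ω)

theorem msep_symm (v w : ℕ) : msep s p μ v w = msep s p μ w v := by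
  unfold msep
  simp_rw [nsep_symm]

theorem ZW_nat (n : ℕ) : (ZW s p μ fun _ => mk n (Real.pi / 3)) = ∑ ω ∈ s, p ω := by
  unfold ZW
  exact sum_congr rfl fun ω _ => by rw [W_nat, mul_one]

/-- The height of a natural base `n`. -/
theorem ub_nat (n v : ℕ) :
    ub s p μ (fun _ => mk n (Real.pi / 3)) v = msep s p μ v n - msep s p μ 0 n := by
  unfold ub uW
  rw [HW_bdry, ZW_nat]
  simp_rw [WU_nat_bdry]
  unfold msep
  rw [← mul_sub, ← sub_div, ← sum_sub_distrib, ← mul_div_assoc, mul_sum]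
  congr 1
  exact sum_congr rfl fun ω _ => by ring

/-- The pair family: `(1 - α) π / 3` at `n2`, `α π / 3` at `n3`. -/
def jP (n2 n3 : ℕ) (α : ℝ) : ℕ → ℝ := fj (mk n2 (Real.pi / 3)) (jM n2 n3) α

theorem J_jP (n2 n3 : ℕ) (α : ℝ) {a b : ℕ} (h : a ≤ b) : J (jP n2 n3 α) a b =
    Real.pi / 3 * ((1 - α) * (Hv n2 b - Hv n2 a) + α * (Hv n3 b - Hv n3 a)) := by
  unfold jP
  rw [J_fj]
  unfold jM
  simp only [J_add, J_mk _ _ h]
  ring

theorem Hv_sub_mem (n : ℕ) {a b : ℕ} (h : a ≤ b) : Hv n b - Hv n a = 0 ∨ Hv n b - Hv n a = 1 := by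
  unfold Hv
  split_ifs with h1 h2
  · left; ring
  · right; ring
  · omega
  · left; ring

theorem W_jP_ge_one (n2 n3 : ℕ) {α : ℝ} (hα : α ∈ Set.Icc (0 : ℝ) 1) (μ : NM m) :
    1 ≤ W (jP n2 n3 α) μ := by
  unfold W
  rw [← prod_const_one (s := μ.opn)]
  refine prod_le_prod (fun _ _ => zero_le_one) fun i hi => ?_
  rw [μ.mem_opn] at hi
  rw [J_jP _ _ _ hi.2.le]
  refine tt_jump_ge_one ?_
  obtain ⟨h0, h1⟩ := hα
  rcases Hv_sub_mem n2 hi.2.le with e | e <;> rcases Hv_sub_mem n3 hi.2.le with f | f <;>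
    rw [e, f] <;> constructor <;> linarith

theorem jP_zero (n2 n3 : ℕ) : jP n2 n3 0 = mk n2 (Real.pi / 3) := by
  unfold jP fj
  rw [zero_smul, add_zero]

theorem jP_one (n2 n3 : ℕ) : jP n2 n3 1 = mk n3 (Real.pi / 3) := by
  unfold jP fj
  rw [one_smul]
  unfold jM
  funext v
  simp only [Pi.add_apply, mk]
  split_ifs <;> ring

theorem ZW_jP_ge (n2 n3 : ℕ) (hp : ∀ ω ∈ s, 0 ≤ p ω) {α : ℝ} (hα : α ∈ Set.Icc (0 : ℝ) 1) :
    ∑ ω ∈ s, p ω ≤ ZW s p μ fun _ => jP n2 n3 α := by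
  unfold ZW
  refine sum_le_sum fun ω hω => ?_
  have := W_jP_ge_one n2 n3 hα (μ ω)
  nlinarith [hp ω hω]

theorem ub_of_le {n : ℕ} (hn : m ≤ n) (j : Ω → ℕ → ℝ) : ub s p μ j n = 0 := by
  unfold ub uW
  rw [HW_bdry]
  have : ∀ ω ∈ s, p ω * WU (j ω) (μ ω) ((μ ω).ovr n) = 0 := by
    intro ω _
    rw [(μ ω).ovr_of_le hn, WU_empty, mul_zero]
  rw [sum_eq_zero this, zero_div]

/-- The pair family: equal mean heights at the two marks. -/
theorem pair_eq (n2 n3 : ℕ) (hp : ∀ ω ∈ s, 0 ≤ p ω) (hs : 0 < ∑ ω ∈ s, p ω) :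
    (∫ α in (0 : ℝ)..1, ub s p μ (fun _ => jP n2 n3 α) n3) =
      ∫ α in (0 : ℝ)..1, ub s p μ (fun _ => jP n2 n3 α) n2 := by
  have h := log_ratio s p μ (fun _ => mk n2 (Real.pi / 3)) (jM n2 n3)
    (fun α hα => lt_of_lt_of_le hs (ZW_jP_ge n2 n3 hp hα))
  have e1 : (ZW s p μ fun _ => fj (mk n2 (Real.pi / 3)) (jM n2 n3) 1) = ∑ ω ∈ s, p ω := by
    have := ZW_nat (s := s) (p := p) (μ := μ) n3
    rw [← jP_one n2 n3] at this
    exact this
  have e0 : (ZW s p μ fun _ => fj (mk n2 (Real.pi / 3)) (jM n2 n3) 0) = ∑ ω ∈ s, p ω := by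
    have := ZW_nat (s := s) (p := p) (μ := μ) n2
    rw [← jP_zero n2 n3] at this
    exact this
  rw [e1, e0, sub_self] at h
  unfold jM at h
  simp only [Pi.add_apply, add_mul, sum_add_distrib] at h
  rw [sum_mk, sum_mk] at h
  · have hpi := Real.pi_pos
    unfold jP jM
    have h' : Real.pi / 3 *
        ((∫ α in (0 : ℝ)..1, ub s p μ (fun _ => fj (mk n2 (Real.pi / 3))
            (mk n3 (Real.pi / 3) + mk n2 (-(Real.pi / 3))) α) n3) -
          ∫ α in (0 : ℝ)..1, ub s p μ (fun _ => fj (mk n2 (Real.pi / 3))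
            (mk n3 (Real.pi / 3) + mk n2 (-(Real.pi / 3))) α) n2) = 0 := by
      linarith
    rcases mul_eq_zero.1 h' with h2 | h2
    · exact absurd h2 (by positivity)
    · linarith
  · intro hn
    simp only [ub_of_le hn, intervalIntegral.integral_zero]
  · intro hn
    simp only [ub_of_le hn, intervalIntegral.integral_zero]

end Pair

end

end Pool.Agent.SixB.TW
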