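import Pool.Agent.Lib.SixB.CADomMark
import Pool.Agent.Lib.SixB.CADomPr
import Pool.Agent.Lib.SixB.CAJump
import Pool.Agent.Lib.SixB.CAEnvE
import Pool.Agent.Lib.SixB.S6W2

/-!
# 6BD block CA: lower bound of the partition function of the full environment, chain part

* `prod_low`: `E[W] ≥ P(G) E[τ ^ N] E[τ' ^ N']` if `W ≥ 0`, `W ≥ τ ^ N τ' ^ N'` on `G` and `G`, `N`, `N'` depend on
  disjoint sets of faces.
* `envW`: the weight of the environment with the jumps `jX` is the weight `TW.W (TW.jA ..)` of the matching of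
  the contour with the base `e`; `envW_nonneg`.
* `envW_ge`: if `x` is joined to a vertex of `[i1, i2]` and `x'` to a vertex of `[i2', i3]`, the weight is
  at least `tau α ^ (NA + NA')`, `NA` the number of strands over the mark `i2` in the box (`DomMk.MA`, `DomMk.MB`).
THEOREM `Z_low`: `P(G) fac fac' ≤ Z` for every event `G` of faces off the boxes at `i2`, `i2'` on which `x`, `x'` are
joined to these parts of the wall. `av_ind_ge`, `Z_low_ind`: the same for the mean of `W` on `G`.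
-/

set_option autoImplicit false
set_option linter.unusedSectionVars false

namespace Pool.Agent.SixB.LowZ

open Finset Pool.Agent.Perc Pool.Agent.Perc.Q Pool.Agent.Perc6 Pool.Agent.PercD Pool.Agent.PercN
  Pool.Agent.SixB.Tilt Pool.Agent.SixB.DomMk Pool.Agent.SixB.DomPr Relation

noncomputable section

/-! ### The product -/

theorem prod_low {F : Finset (ℤ × ℤ)} {G : Set Cfg} {D S S' : Set (ℤ × ℤ)} {N N' : Cfg → ℕ} {τ τ' : ℝ}
    {W : Cfg → ℝ} (hG : DepOn D G) (hN : DepN S N) (hN' : DepN S' N') (h1 : Disjoint D S) (h2 : Disjoint D S')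
    (h3 : Disjoint S S') (hW : ∀ ω, 0 ≤ W ω)
    (hGW : ∀ ω ∈ G, τ ^ N ω * τ' ^ N' ω ≤ W ω) :
    pr F G * av F (fun ω => τ ^ N ω) * av F (fun ω => τ' ^ N' ω) ≤ av F W := by
  classical
  have e0 : Dep D (fun ω => if ω ∈ G then (1 : ℝ) else 0) := by
    intro ω ω' h
    simp only [hG ω ω' h]
  have e1 : Dep S (fun ω => τ ^ N ω) := by
    intro ω ω' h
    simp only [hN ω ω' h]
  have e2 : Dep S' (fun ω => τ' ^ N' ω) := by
    intro ω ω' h
    simp only [hN' ω ω' h]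
  have e3 : Dep (D ∪ S) (fun ω => (if ω ∈ G then (1 : ℝ) else 0) * τ ^ N ω) := by
    intro ω ω' h
    have a1 := e0 ω ω' fun f hf => h f (Or.inl hf)
    have a2 := e1 ω ω' fun f hf => h f (Or.inr hf)
    simp only at a1 a2
    simp only [a1, a2]
  rw [pr_eq_av, ← LH.av_indep_set h1 e0 e1, ← LH.av_indep_set (Disjoint.union_left h2 h3) e3 e2]
  refine av_mono fun T _ => ?_
  by_cases h : ind T ∈ G
  · simp only [if_pos h, one_mul]
    exact hGW _ h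
  · simp only [if_neg h, zero_mul]
    exact hW _

/-! ### The weight of the full environment -/

variable {F : Finset (ℤ × ℤ)} {m : ℕ} {b : ℤ → ℤ × ℤ} {ω : Cfg} {τ : ℕ → ℕ} {k i1 i2 i2' i3 R R' : ℤ} {α : ℝ}

/-- position of the contour vertex `i` relative to `k`, in the next period -/
def ps (m : ℕ) (k i : ℤ) : ℕ := (i + m - k).toNat

/-- the matching as a non crossing matching -/
def toNM (hN : NCMat m τ) : TW.NM m where
  M := τ
  spec := fun i hi => ⟨hN.lt i hi, hN.ne i hi, hN.inv i hi⟩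
  nc := fun i hi j h1 h2 => hN.nc i hi (h1.trans h2) j h1 h2

theorem opn_eq (hN : NCMat m τ) : (toNM hN).opn = opC m τ := rfl

theorem jN_pos {i : ℤ} (h1 : k < i + m) (h2 : i ≤ k) {v : ℕ} (hv1 : 1 ≤ v) (hv2 : v < m) :
    jN m i (k + v) = TW.mk (ps m k i) (Real.pi / 3) v := by
  unfold jN TW.mk ps
  have hiff : ((m : ℤ) ∣ k + v - i) ↔ v = (i + m - k).toNat := by
    constructor
    · rintro ⟨c, hc⟩
      have hm : (0 : ℤ) < m := by omega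
      have hc1 : c = 1 := by
        have a1 : (m : ℤ) * c < m * 2 := by omega
        have a2 : (m : ℤ) * 0 < m * c := by omega
        have a3 := lt_of_mul_lt_mul_left a1 hm.le
        have a4 := lt_of_mul_lt_mul_left a2 hm.le
        omega
      rw [hc1] at hc
      omega
    · intro hv
      refine ⟨1, ?_⟩
      omega
  by_cases h : v = (i + m - k).toNat
  · rw [if_pos (hiff.mpr h), if_pos h]
  · rw [if_neg fun h' => h (hiff.mp h'), if_neg h]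

theorem jN_self {v : ℕ} (hv1 : 1 ≤ v) (hv2 : v < m) : jN m k (k + v) = 0 := by
  unfold jN
  rw [if_neg]
  rintro ⟨c, hc⟩
  have hm : (0 : ℤ) < m := by omega
  have a1 : (m : ℤ) * c < m * 1 := by omega
  have a2 : (m : ℤ) * 0 < m * c := by omega
  have a3 := lt_of_mul_lt_mul_left a1 hm.le
  have a4 := lt_of_mul_lt_mul_left a2 hm.le
  omega

theorem jN_next {v : ℕ} (hv1 : 1 ≤ v) (hv2 : v < m) :
    jN m (k + 1) (k + v) = TW.mk 1 (Real.pi / 3) v := by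
  unfold jN TW.mk
  have hiff : ((m : ℤ) ∣ k + v - (k + 1)) ↔ v = 1 := by
    constructor
    · rintro ⟨c, hc⟩
      by_contra hne
      have hm : (0 : ℤ) < m := by omega
      have a1 : (m : ℤ) * c < m * 1 := by omega
      have a2 : (m : ℤ) * 0 < m * c := by omega
      have a3 := lt_of_mul_lt_mul_left a1 hm.le
      have a4 := lt_of_mul_lt_mul_left a2 hm.le
      omega
    · rintro rfl
      exact ⟨0, by push_cast; ring⟩
  by_cases h : v = 1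
  · rw [if_pos (hiff.mpr h), if_pos h]
  · rw [if_neg fun h' => h (hiff.mp h'), if_neg h]

/-- the order of the marks around the contour -/
structure Mk4 (m : ℕ) (k i1 i2 i2' i3 : ℤ) : Prop where
  h1 : k < i1 + m
  h12 : i1 ≤ i2
  h23 : i2 ≤ i2'
  h34 : i2' ≤ i3
  h4 : i3 ≤ k

theorem Mk4.ord (h : Mk4 m k i1 i2 i2' i3) :
    TW.Ord 0 (ps m k i1) (ps m k i2) (ps m k i2') (ps m k i3) m := by
  obtain ⟨h1, h12, h23, h34, h4⟩ := h
  unfold ps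
  constructor <;> omega

theorem jX_eq (h : Mk4 m k i1 i2 i2' i3) {v : ℕ} (hv1 : 1 ≤ v) (hv2 : v < m) :
    jX m α i1 i2 i2' i3 k (k + v) =
      TW.jA 0 (ps m k i1) (ps m k i2) (ps m k i2') (ps m k i3) α v := by
  obtain ⟨h1, h12, h23, h34, h4⟩ := h
  unfold jX
  rw [jN_pos (i := i1) h1 (by omega) hv1 hv2, jN_pos (i := i2) (by omega) (by omega) hv1 hv2,
    jN_pos (i := i2') (by omega) (by omega) hv1 hv2, jN_pos (i := i3) (by omega) h4 hv1 hv2,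
    jN_self hv1 hv2, jN_next hv1 hv2]
  unfold TW.jA TW.fj TW.jK TW.jM
  simp only [Pi.add_apply, Pi.smul_apply, smul_eq_mul]
  unfold TW.mk
  rw [if_neg (by omega : ¬ v = 0)]
  simp only [zero_add]
  split_ifs <;> ring

theorem csum_eq (h : Mk4 m k i1 i2 i2' i3) {i j : ℕ} (hj : j < m) :
    csum (jX m α i1 i2 i2' i3 k) (k + i) (k + j) =
      TW.J (TW.jA 0 (ps m k i1) (ps m k i2) (ps m k i2') (ps m k i3) α) i j := by
  have h1 : csum (jX m α i1 i2 i2' i3 k) (k + i) (k + j) =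
      TW.J (fun v : ℕ => jX m α i1 i2 i2' i3 k (k + v)) i j := CJ.Jz_rel _ k i j
  rw [h1]
  unfold TW.J
  refine Finset.sum_congr rfl fun v hv => ?_
  rw [Finset.mem_Ioc] at hv
  exact jX_eq h (by omega) (by omega)

/-- **The weight of the full environment.** -/
theorem envW (hb : Cont F m b) (hP : HasPot (F : Set (ℤ × ℤ))) (h : Mk4 m k i1 i2 i2' i3) (ω : Cfg)
    (hN : NCMat m (mtc F m b k ω)) :
    (cenv F b m (jX m α i1 i2 i2' i3 k)).W ω =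
      TW.W (TW.jA 0 (ps m k i1) (ps m k i2) (ps m k i2') (ps m k i3) α) (toNM hN) := by
  have hτ := mtc_mated (hb.ctr hP k) ω
  rw [hb.W_opC _ rfl hτ]
  unfold TW.W
  rw [opn_eq]
  refine Finset.prod_congr rfl fun i hi => ?_
  obtain ⟨h1, h2⟩ := mem_opC.mp hi
  have h3 := hN.lt i h1
  have h4 := (cenv_ts (F := F) hb (jX_per m α i1 i2 i2' i3 k) (csum_jX hb.pos α i1 i2 i2' i3 k)
    (i := k + i) (k := k + mtc F m b k ω i) (by omega) (by omega)).1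
  refine h4.trans ?_
  rw [csum_eq h h3]
  rfl

theorem envW_nonneg (hb : Cont F m b) (hP : HasPot (F : Set (ℤ × ℤ))) (h : Mk4 m k i1 i2 i2' i3)
    (h0 : 0 ≤ α) (h1 : α ≤ 1) (ω : Cfg) : 0 ≤ (cenv F b m (jX m α i1 i2 i2' i3 k)).W ω := by
  have hN := (mtc_mated (hb.ctr hP k) ω).ncMat (hb.ctr hP k)
  rw [envW hb hP h ω hN]
  exact TW.WA_nonneg h.ord _ h0 h1

/-- the event of the lower bound in terms of the matching -/
structure Good (τ : ℕ → ℕ) (m n1 n2 n3 n4 : ℕ) : Prop where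
  a : ∃ p, n1 ≤ p ∧ p ≤ n2 ∧ Inv τ 1 p
  b : ∃ q, n3 ≤ q ∧ q ≤ n4 ∧ Inv τ q m

theorem Good.gd {n1 n2 n3 n4 : ℕ} (hN : NCMat m τ) (o : TW.Ord 0 n1 n2 n3 n4 m) (h : Good τ m n1 n2 n3 n4) :
    TW.Gd (toNM hN) 0 n1 n2 n3 n4 ∧ TW.a1 (toNM hN) 0 n1 n2 n3 = ∅ ∧ TW.a4 (toNM hN) 0 n2 n3 n4 = ∅ := by
  obtain ⟨h01, h12, h23, h34, h4⟩ := o
  obtain ⟨⟨p, hp1, hp2, hp⟩, ⟨q, hq1, hq2, hq⟩⟩ := h
  have hm : 0 < m := by omega
  have hinv := hN.inv 0 hm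
  have hlt := hN.lt 0 hm
  have hne := hN.ne 0 hm
  have k1 : ¬ (1 ≤ τ 0 ∧ τ 0 < p) := by
    rintro ⟨a1, a2⟩
    have := hp (τ 0) a1 a2
    rw [hinv] at this
    omega
  have k2 : ¬ (q ≤ τ 0) := by
    intro a1
    have := hq (τ 0) a1 hlt
    rw [hinv] at this
    omega
  refine ⟨⟨⟨?_, ?_⟩, ?_, ?_⟩, ?_, ?_⟩
  · show n1 ≤ τ 0
    omega
  · show τ 0 < n4
    omega
  · intro i hi1 hi2
    show ¬ (n3 ≤ τ i ∧ τ i < n4)
    have := hp i (by omega) (by omega)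
    omega
  · intro i hi1 hi2
    show ¬ (τ i < 0 ∨ n4 ≤ τ i)
    rintro (a1 | a1)
    · omega
    · have a2 := hN.lt i (by omega)
      have := hq (τ i) (by omega) a2
      rw [hN.inv i (by omega)] at this
      omega
  · unfold TW.a1
    rw [Finset.filter_eq_empty_iff]
    rintro i - ⟨⟨a1, a2⟩, a3, -⟩
    have := hp i (by omega) (by omega)
    have e : (toNM hN).M i = τ i := rfl
    rw [e] at a3
    omega
  · unfold TW.a4
    rw [Finset.filter_eq_empty_iff]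
    rintro i - (⟨a1, -⟩ | ⟨⟨a1, a2⟩, a3⟩)
    · omega
    · have e : (toNM hN).M i = τ i := rfl
      rw [e] at a3
      have him : i < m := by omega
      have := hq (τ i) (by omega) (hN.lt i him)
      rw [hN.inv i him] at this
      omega

/-- positions of the strands over the mark -/
def ovr (τ : ℕ → ℕ) (m n R : ℕ) : Finset ℕ := (Finset.range m).filter fun p =>
  (n ≤ p + R ∧ p < n) ∧ n ≤ τ p ∧ τ p < n + R

theorem ovr_sub {n1 n2 n3 n4 R R' : ℕ} (hN : NCMat m τ) (h1 : n1 + R ≤ n2) (h2 : n2 + R ≤ n3) (h3 : n2 + R' ≤ n3)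
    (h4 : n3 + R' ≤ n4) : (ovr τ m n2 R).card + (ovr τ m n3 R').card ≤
      (TW.aT (toNM hN) 0 n1 n2 n3 n4).card := by
  classical
  rw [← Finset.card_union_of_disjoint]
  · refine Finset.card_le_card fun p hp => ?_
    unfold TW.aT
    rw [Finset.mem_filter, TW.NM.mem_opn]
    have e : (toNM hN).M p = τ p := rfl
    rw [e]
    rw [Finset.mem_union] at hp
    unfold ovr at hp
    rw [Finset.mem_filter, Finset.mem_filter, Finset.mem_range] at hp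
    omega
  · rw [Finset.disjoint_left]
    intro p hp hp'
    unfold ovr at hp hp'
    rw [Finset.mem_filter] at hp hp'
    omega

theorem one_le_tau (h0 : 0 ≤ α) (h1 : α ≤ 1) : 1 ≤ TW.tau α := TW.tau_ge_one h0 h1

/-- the strands of the box over the mark `i` are arcs of the contour -/
theorem NA_le_ovr (hb : Cont F m b) (hP : HasPot (F : Set (ℤ × ℤ))) {PA PB : UE → Prop} {i : ℤ} {v : ℤ × ℤ}
    {s : ℤ} (hA : ∀ a, PA a → ∃ x, i - R ≤ x ∧ x < i ∧ a = und (b x, b (x + 1)))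
    (hB : ∀ a, PB a → ∃ x, i ≤ x ∧ x < i + R ∧ a = und (b x, b (x + 1)))
    (h1 : k ≤ i + m - R) (h2 : i + R ≤ k) (hR : 0 ≤ R) (ω : Cfg) :
    NA (F : Set (ℤ × ℤ)) PA PB v s ω ≤ (ovr (mtc F m b k ω) m (ps m k i) R.toNat).card := by
  classical
  have hτ := mtc_mated (hb.ctr hP k) ω
  set τ := mtc F m b k ω with hτd
  have hper : ∀ x : ℤ, (b (x + m), b (x + m + 1)) = (b x, b (x + 1)) := by
    intro x
    rw [hb.per, show x + (m : ℤ) + 1 = (x + 1) + m by ring, hb.per]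
  unfold NA NS
  refine le_trans (Finset.card_le_card (t := (ovr τ m (ps m k i) R.toNat).image
    fun p : ℕ => und (sdB b (k + p))) ?_) Finset.card_image_le
  intro a ha
  rw [Finset.mem_filter] at ha
  obtain ⟨-, hPA, c, hc, hPB⟩ := ha
  obtain ⟨x, hx1, hx2, rfl⟩ := hA a hPA
  obtain ⟨y, hy1, hy2, rfl⟩ := hB c hPB
  have hc' : und (b y, b (y + 1)) ∈ MM ω (F : Set (ℤ × ℤ)) (und (b x, b (x + 1))) :=
    MM_mono Set.inter_subset_left hc
  obtain ⟨p, hp⟩ : ∃ p : ℕ, (p : ℤ) = x + m - k := ⟨(x + m - k).toNat, by omega⟩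
  obtain ⟨q, hq⟩ : ∃ q : ℕ, (q : ℤ) = y + m - k := ⟨(y + m - k).toNat, by omega⟩
  have hpm : p < m := by omega
  have hqm : q < m := by omega
  have ep : sdB b (k + p) = (b x, b (x + 1)) := by
    rw [hp, show k + (x + m - k) = x + (m : ℤ) by ring]
    exact hper x
  have eq' : sdB b (k + q) = (b y, b (y + 1)) := by
    rw [hq, show k + (y + m - k) = y + (m : ℤ) by ring]
    exact hper y
  obtain ⟨t1, t2, t3, t4⟩ := hτ p hpm
  have hja : Joins (und (sdB b (k + p))) (b (k + p)) (b (k + ((p + 1 : ℕ) : ℤ))) := by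
    have h3 := joins_und (SixB.mem_bS.mp (hb.sdB_mem (k + p))).1
    push_cast
    rw [← add_assoc]
    exact h3
  have hjb : Joins (und (sdB b (k + q))) (b (k + q)) (b (k + ((q + 1 : ℕ) : ℤ))) := by
    have h3 := joins_und (SixB.mem_bS.mp (hb.sdB_mem (k + q))).1
    push_cast
    rw [← add_assoc]
    exact h3
  rw [← ep, ← eq'] at hc'
  have hor := (t4 _ hja).2 q hqm _ hjb hc'
  refine Finset.mem_image.mpr ⟨p, ?_, by rw [ep]⟩
  unfold ovr ps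
  rw [Finset.mem_filter, Finset.mem_range]
  rcases hor with h3 | h3
  · omega
  · omega

/-- **The weight on the event.** -/
theorem envW_ge (hb : Cont F m b) (hP : HasPot (F : Set (ℤ × ℤ))) (h0 : 0 ≤ α) (h1 : α ≤ 1)
    (k1 : k < i1 + m) (k12 : i1 + R ≤ i2) (k23 : i2 + R ≤ i2') (k23' : i2 + R' ≤ i2') (k34 : i2' + R' ≤ i3)
    (k4 : i3 ≤ k) (hR : 0 ≤ R) (hR' : 0 ≤ R') {PA PB PA' PB' : UE → Prop} {v v' : ℤ × ℤ} {s s' : ℤ}
    (hA : ∀ a, PA a → ∃ x, i2 - R ≤ x ∧ x < i2 ∧ a = und (b x, b (x + 1)))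
    (hB : ∀ a, PB a → ∃ x, i2 ≤ x ∧ x < i2 + R ∧ a = und (b x, b (x + 1)))
    (hA' : ∀ a, PA' a → ∃ x, i2' - R' ≤ x ∧ x < i2' ∧ a = und (b x, b (x + 1)))
    (hB' : ∀ a, PB' a → ∃ x, i2' ≤ x ∧ x < i2' + R' ∧ a = und (b x, b (x + 1))) {ω : Cfg}
    (hω : ∃ a, i1 ≤ a ∧ a ≤ i2 ∧ Conn ω (F : Set (ℤ × ℤ)) (b (k + 1)) (b a))
    (hω' : ∃ a, i2' ≤ a ∧ a ≤ i3 ∧ Conn ω (F : Set (ℤ × ℤ)) (b k) (b a)) :
    TW.tau α ^ NA (F : Set (ℤ × ℤ)) PA PB v s ω * TW.tau α ^ NA (F : Set (ℤ × ℤ)) PA' PB' v' s' ω ≤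
      (cenv F b m (jX m α i1 i2 i2' i3 k)).W ω := by
  have hM : Mk4 m k i1 i2 i2' i3 := ⟨k1, by omega, by omega, by omega, k4⟩
  have hC := hb.ctr hP k
  have hτ := mtc_mated hC ω
  have hN := hτ.ncMat hC
  have o := hM.ord
  rw [envW hb hP hM ω hN]
  have hgood : Good (mtc F m b k ω) m (ps m k i1) (ps m k i2) (ps m k i2') (ps m k i3) := by
    obtain ⟨a, ha1, ha2, ha3⟩ := hω
    obtain ⟨c, hc1, hc2, hc3⟩ := hω'
    refine ⟨⟨ps m k a, ?_, ?_, ?_⟩, ⟨ps m k c, ?_, ?_, ?_⟩⟩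
    · unfold ps; omega
    · unfold ps; omega
    · refine hτ.inv_of_conn hC (x := 1) (y := ps m k a) (by unfold ps; omega) (by unfold ps; omega) ?_
      show Conn ω (F : Set (ℤ × ℤ)) (b (k + (1 : ℕ))) (b (k + (ps m k a : ℕ)))
      have e : k + ((ps m k a : ℕ) : ℤ) = a + m := by unfold ps; omega
      rw [e, hb.per]
      exact_mod_cast ha3
    · unfold ps; omega
    · unfold ps; omega
    · refine hτ.inv_of_conn hC (x := ps m k c) (y := m) (by unfold ps; omega) le_rfl ?_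
      show Conn ω (F : Set (ℤ × ℤ)) (b (k + (ps m k c : ℕ))) (b (k + (m : ℕ)))
      have e : k + ((ps m k c : ℕ) : ℤ) = c + m := by unfold ps; omega
      rw [e, hb.per, hb.per]
      exact conn_symm hc3
  obtain ⟨g1, g2, g3⟩ := hgood.gd hN o
  rw [TW.W_class o α g1, g2, g3, Finset.card_empty, pow_zero, pow_zero, mul_one, mul_one, ← pow_add]
  refine pow_le_pow_right₀ (one_le_tau h0 h1) ?_
  have n1 := NA_le_ovr hb hP (k := k) (v := v) (s := s) hA hB (by omega) (by omega) hR ω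
  have n2 := NA_le_ovr hb hP (k := k) (v := v') (s := s') hA' hB' (by omega) (by omega) hR' ω
  have n3 := ovr_sub (m := m) (n1 := ps m k i1) (n2 := ps m k i2) (n3 := ps m k i2') (n4 := ps m k i3)
    (R := R.toNat) (R' := R'.toNat) hN (by unfold ps; omega) (by unfold ps; omega) (by unfold ps; omega)
    (by unfold ps; omega)
  omega

/-! ### The partition function -/

/-- **Chain part of the lower bound.** `e = (k, k + 1)`, `x = b (k + 1)`, `x' = b k`. -/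
theorem Z_ge (hb : Cont F m b) (hP : HasPot (F : Set (ℤ × ℤ))) (h0 : 0 ≤ α) (h1 : α ≤ 1)
    (k1 : k < i1 + m) (k12 : i1 + R ≤ i2) (k23 : i2 + R ≤ i2') (k23' : i2 + R' ≤ i2') (k34 : i2' + R' ≤ i3)
    (k4 : i3 ≤ k) (hR : 0 ≤ R) (hR' : 0 ≤ R') {PA PB PA' PB' : UE → Prop} {v v' : ℤ × ℤ} {s s' : ℤ}
    (hA : ∀ a, PA a → ∃ x, i2 - R ≤ x ∧ x < i2 ∧ a = und (b x, b (x + 1)))
    (hB : ∀ a, PB a → ∃ x, i2 ≤ x ∧ x < i2 + R ∧ a = und (b x, b (x + 1)))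
    (hA' : ∀ a, PA' a → ∃ x, i2' - R' ≤ x ∧ x < i2' ∧ a = und (b x, b (x + 1)))
    (hB' : ∀ a, PB' a → ∃ x, i2' ≤ x ∧ x < i2' + R' ∧ a = und (b x, b (x + 1)))
    {G : Set Cfg} {D : Set (ℤ × ℤ)} (hG : DepOn D G)
    (hD : Disjoint D ((F : Set (ℤ × ℤ)) ∩ (BR v s : Set (ℤ × ℤ))))
    (hD' : Disjoint D ((F : Set (ℤ × ℤ)) ∩ (BR v' s' : Set (ℤ × ℤ))))
    (hDD : Disjoint ((F : Set (ℤ × ℤ)) ∩ (BR v s : Set (ℤ × ℤ))) ((F : Set (ℤ × ℤ)) ∩ (BR v' s' : Set (ℤ × ℤ))))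
    (hG1 : ∀ ω ∈ G, ∃ a, i1 ≤ a ∧ a ≤ i2 ∧ Conn ω (F : Set (ℤ × ℤ)) (b (k + 1)) (b a))
    (hG2 : ∀ ω ∈ G, ∃ a, i2' ≤ a ∧ a ≤ i3 ∧ Conn ω (F : Set (ℤ × ℤ)) (b k) (b a)) :
    pr F G * fac F PA PB v s (TW.tau α) * fac F PA' PB' v' s' (TW.tau α) ≤
      (cenv F b m (jX m α i1 i2 i2' i3 k)).Z :=
  prod_low hG (depN_NA _ _ _ _ _) (depN_NA _ _ _ _ _) hD hD' hDD
    (envW_nonneg hb hP ⟨k1, by omega, by omega, by omega, k4⟩ h0 h1)
    fun ω hω => envW_ge hb hP h0 h1 k1 k12 k23 k23' k34 k4 hR hR' hA hB hA' hB' (hG1 ω hω) (hG2 ω hω)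

open Classical in
/-- the same with the indicator of the event -/
theorem av_ind_ge (hb : Cont F m b) (hP : HasPot (F : Set (ℤ × ℤ))) (h0 : 0 ≤ α) (h1 : α ≤ 1)
    (k1 : k < i1 + m) (k12 : i1 + R ≤ i2) (k23 : i2 + R ≤ i2') (k23' : i2 + R' ≤ i2') (k34 : i2' + R' ≤ i3)
    (k4 : i3 ≤ k) (hR : 0 ≤ R) (hR' : 0 ≤ R') {PA PB PA' PB' : UE → Prop} {v v' : ℤ × ℤ} {s s' : ℤ}
    (hA : ∀ a, PA a → ∃ x, i2 - R ≤ x ∧ x < i2 ∧ a = und (b x, b (x + 1)))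
    (hB : ∀ a, PB a → ∃ x, i2 ≤ x ∧ x < i2 + R ∧ a = und (b x, b (x + 1)))
    (hA' : ∀ a, PA' a → ∃ x, i2' - R' ≤ x ∧ x < i2' ∧ a = und (b x, b (x + 1)))
    (hB' : ∀ a, PB' a → ∃ x, i2' ≤ x ∧ x < i2' + R' ∧ a = und (b x, b (x + 1)))
    {G : Set Cfg} {D : Set (ℤ × ℤ)} (hG : DepOn D G)
    (hD : Disjoint D ((F : Set (ℤ × ℤ)) ∩ (BR v s : Set (ℤ × ℤ))))
    (hD' : Disjoint D ((F : Set (ℤ × ℤ)) ∩ (BR v' s' : Set (ℤ × ℤ))))
    (hDD : Disjoint ((F : Set (ℤ × ℤ)) ∩ (BR v s : Set (ℤ × ℤ))) ((F : Set (ℤ × ℤ)) ∩ (BR v' s' : Set (ℤ × ℤ))))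
    (hG1 : ∀ ω ∈ G, ∃ a, i1 ≤ a ∧ a ≤ i2 ∧ Conn ω (F : Set (ℤ × ℤ)) (b (k + 1)) (b a))
    (hG2 : ∀ ω ∈ G, ∃ a, i2' ≤ a ∧ a ≤ i3 ∧ Conn ω (F : Set (ℤ × ℤ)) (b k) (b a)) :
    pr F G * fac F PA PB v s (TW.tau α) * fac F PA' PB' v' s' (TW.tau α) ≤
      av F fun ω => if ω ∈ G then (cenv F b m (jX m α i1 i2 i2' i3 k)).W ω else 0 := by
  refine prod_low hG (depN_NA _ _ _ _ _) (depN_NA _ _ _ _ _) hD hD' hDD (fun ω => ?_) fun ω hω => ?_
  · split_ifs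
    · exact envW_nonneg hb hP ⟨k1, by omega, by omega, by omega, k4⟩ h0 h1 ω
    · exact le_rfl
  · rw [if_pos hω]
    exact envW_ge hb hP h0 h1 k1 k12 k23 k23' k34 k4 hR hR' hA hB hA' hB' (hG1 ω hω) (hG2 ω hω)

section rf

variable {P : Finset (ℤ × ℤ)} {L n : ℕ} {g : ℤ → ℤ × ℤ}

/-- the weight of the full environment is not negative -/
theorem envX_nonneg (hP : MPoly P) (hg : Cont P L g) (hn : 0 < n) (h0 : 0 ≤ α) (h1 : α ≤ 1)
    (hM : Mk4 (n * L) k i1 i2 i2' i3) (ω : Cfg) : 0 ≤ (envX P L g n α i1 i2 i2' i3 k).W ω :=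
  envW_nonneg (CARf.cont_rf hg hn) (CARf.mpoly_rf hP hn).hasPot hM h0 h1 ω

/-- **Chain part of the lower bound, refined polygon.** -/
theorem Z_low (hP : MPoly P) (hg : Cont P L g) (hn : 0 < n) (h0 : 0 ≤ α) (h1 : α ≤ 1)
    (k1 : k < i1 + (n * L : ℕ)) (k12 : i1 + R ≤ i2) (k23 : i2 + R ≤ i2') (k23' : i2 + R' ≤ i2')
    (k34 : i2' + R' ≤ i3) (k4 : i3 ≤ k) (hR : 0 ≤ R) (hR' : 0 ≤ R') {G : Set Cfg} {D : Set (ℤ × ℤ)}
    (hG : DepOn D G) (hD : ∀ f ∈ D, f ∉ BR (gr n g i2) R ∧ f ∉ BR (gr n g i2') R')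
    (hDD : Disjoint (BR (gr n g i2) R) (BR (gr n g i2') R'))
    (hG1 : ∀ ω ∈ G, ∃ a, i1 ≤ a ∧ a ≤ i2 ∧ Conn ω (rf n P : Set (ℤ × ℤ)) (gr n g (k + 1)) (gr n g a))
    (hG2 : ∀ ω ∈ G, ∃ a, i2' ≤ a ∧ a ≤ i3 ∧ Conn ω (rf n P : Set (ℤ × ℤ)) (gr n g k) (gr n g a)) :
    pr (rf n P) G * fac (rf n P) (MA n g i2 R) (MB n g i2 R) (gr n g i2) R (TW.tau α) *
        fac (rf n P) (MA n g i2' R') (MB n g i2' R') (gr n g i2') R' (TW.tau α) ≤
      (envX P L g n α i1 i2 i2' i3 k).Z := by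
  refine Z_ge (CARf.cont_rf hg hn) (CARf.mpoly_rf hP hn).hasPot h0 h1 k1 k12 k23 k23' k34 k4 hR hR'
    (fun a ha => ha) (fun a ha => ha) (fun a ha => ha) (fun a ha => ha) hG ?_ ?_ ?_ hG1 hG2
  · rw [Set.disjoint_left]
    exact fun f hf hf' => (hD f hf).1 (Finset.mem_coe.1 hf'.2)
  · rw [Set.disjoint_left]
    exact fun f hf hf' => (hD f hf).2 (Finset.mem_coe.1 hf'.2)
  · rw [Set.disjoint_left]
    exact fun f hf hf' => Finset.disjoint_left.1 hDD (Finset.mem_coe.1 hf.2) (Finset.mem_coe.1 hf'.2)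

open Classical in
/-- the same with the indicator of the event -/
theorem Z_low_ind (hP : MPoly P) (hg : Cont P L g) (hn : 0 < n) (h0 : 0 ≤ α) (h1 : α ≤ 1)
    (k1 : k < i1 + (n * L : ℕ)) (k12 : i1 + R ≤ i2) (k23 : i2 + R ≤ i2') (k23' : i2 + R' ≤ i2')
    (k34 : i2' + R' ≤ i3) (k4 : i3 ≤ k) (hR : 0 ≤ R) (hR' : 0 ≤ R') {G : Set Cfg} {D : Set (ℤ × ℤ)}
    (hG : DepOn D G) (hD : ∀ f ∈ D, f ∉ BR (gr n g i2) R ∧ f ∉ BR (gr n g i2') R')
    (hDD : Disjoint (BR (gr n g i2) R) (BR (gr n g i2') R'))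
    (hG1 : ∀ ω ∈ G, ∃ a, i1 ≤ a ∧ a ≤ i2 ∧ Conn ω (rf n P : Set (ℤ × ℤ)) (gr n g (k + 1)) (gr n g a))
    (hG2 : ∀ ω ∈ G, ∃ a, i2' ≤ a ∧ a ≤ i3 ∧ Conn ω (rf n P : Set (ℤ × ℤ)) (gr n g k) (gr n g a)) :
    pr (rf n P) G * fac (rf n P) (MA n g i2 R) (MB n g i2 R) (gr n g i2) R (TW.tau α) *
        fac (rf n P) (MA n g i2' R') (MB n g i2' R') (gr n g i2') R' (TW.tau α) ≤
      av (rf n P) fun ω => if ω ∈ G then (envX P L g n α i1 i2 i2' i3 k).W ω else 0 := by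
  refine av_ind_ge (CARf.cont_rf hg hn) (CARf.mpoly_rf hP hn).hasPot h0 h1 k1 k12 k23 k23' k34 k4 hR hR'
    (fun a ha => ha) (fun a ha => ha) (fun a ha => ha) (fun a ha => ha) hG ?_ ?_ ?_ hG1 hG2
  · rw [Set.disjoint_left]
    exact fun f hf hf' => (hD f hf).1 (Finset.mem_coe.1 hf'.2)
  · rw [Set.disjoint_left]
    exact fun f hf hf' => (hD f hf).2 (Finset.mem_coe.1 hf'.2)
  · rw [Set.disjoint_left]
    exact fun f hf hf' => Finset.disjoint_left.1 hDD (Finset.mem_coe.1 hf.2) (Finset.mem_coe.1 hf'.2)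

end rf

end

end Pool.Agent.SixB.LowZ
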