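import Pool.Agent.Lib.SixB.CADomLowD2
import Pool.Agent.Lib.SixB.CADomLowZ
import Pool.Agent.Lib.SixB.CADomDefs
import Pool.Agent.Lib.SixB.CAArm

/-!
# 6BD, block CA: lower bound with the marked side `e`, the partition function

`lowX : DomX.LowX`: `c / n * (FF * FF') ≤ Z` for the full environment with the marked side `csd (gr n g) k`, `k = p.2`
near `t₄`, uniformly in `α ∈ [0, 1]`. `lowX_two` is the same for the two sides `k` and `k - 1` and for every small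
radius; `lowX_pos`: the partition functions of both sides are positive. -/

set_option autoImplicit false

namespace Pool.Agent.SixB.Low

open Filter Topology Finset Pool.Agent.Perc Pool.Agent.Perc6 Pool.Agent.PercD

variable {P : Finset (ℤ × ℤ)} {L : ℕ} {g : ℤ → ℤ × ℤ}

theorem lk_ev (ξ : ℝ) {ε : ℝ} (hε : 0 < ε) (n0 : ℕ) :
    ∀ᶠ p : ℕ × ℤ in lk ξ, n0 ≤ p.1 ∧ |(p.2 : ℝ) / p.1 - ξ| < ε := by
  unfold lk
  have h1 : ∀ᶠ p : ℕ × ℤ in comap (fun p : ℕ × ℤ => p.1) atTop, n0 ≤ p.1 :=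
    tendsto_comap.eventually (eventually_ge_atTop n0)
  have h2 : ∀ᶠ p : ℕ × ℤ in comap (fun p : ℕ × ℤ => (p.2 : ℝ) / p.1) (𝓝 ξ),
      |(p.2 : ℝ) / p.1 - ξ| < ε := by
    refine tendsto_comap.eventually (p := fun x => |x - ξ| < ε) ?_
    exact Metric.ball_mem_nhds ξ hε
  exact (h1.filter_mono inf_le_left).and (h2.filter_mono inf_le_right)

theorem ix_near {n : ℕ} (hn : 0 < n) (t : ℝ) {ε : ℝ} (h : 1 / ε < n) (hε : 0 < ε) :
    |(ix n t : ℝ) / n - t| < ε := by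
  have hn' : (0 : ℝ) < n := by exact_mod_cast hn
  have h1 : (1 : ℝ) / n < ε := by
    rw [div_lt_iff₀ hn']
    rw [div_lt_iff₀ hε] at h
    linarith
  have h2 := Int.floor_le ((n : ℝ) * t)
  have h3 := Int.lt_floor_add_one ((n : ℝ) * t)
  have h4 : (ix n t : ℝ) / n - t = ((⌊(n : ℝ) * t⌋ : ℝ) - n * t) / n := by
    unfold ix
    field_simp
  rw [h4, abs_div, abs_of_pos hn']
  refine lt_of_le_of_lt ?_ h1
  refine div_le_div_of_nonneg_right ?_ hn'.le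
  rw [abs_le]
  constructor <;> linarith

/-- **The lower bound at both sides `k`, `k - 1` and for every small radius.** -/
theorem lowX_two (hP : MPoly P) (hg : Cont P L g) {t₁ t₂ t₂' t₃ t₄ : ℝ}
    (hm : Marks5 L g t₁ t₂ t₂' t₃ t₄) : ∃ ρ₀ : ℝ, 0 < ρ₀ ∧ ∃ c : ℝ, 0 < c ∧
      ∀ ρ : ℝ, 0 < ρ → ρ ≤ ρ₀ → ∀ᶠ p : ℕ × ℤ in lk t₄, ∀ α ∈ Set.Icc (0 : ℝ) 1,
        ∀ k : ℤ, k = p.2 ∨ k = p.2 - 1 →
        c / p.1 * (DomX.FF P g p.1 (ix p.1 t₂) ⌊ρ * p.1⌋ ⌊ρ * p.1⌋ α *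
          DomX.FF P g p.1 (ix p.1 t₂') ⌊ρ * p.1⌋ ⌊ρ * p.1⌋ α) ≤
        (envX P L g p.1 α (ix p.1 t₁) (ix p.1 t₂) (ix p.1 t₂') (ix p.1 t₃) k).Z := by
  obtain ⟨ρ₁, c, hρ₁, hc, n1, hn1, hE⟩ := exists_lowEv hP hg hm
  obtain ⟨δ, hδ, hbd⟩ := DomMk.boxes_disj hg (Third.gam_ne hg hm.h2
    (by have h3 := hm.h3; have h4 := hm.h4; have h5 := hm.h5; have h1 := hm.h1; linarith))
  have e1 : 0 < t₂ - t₁ := sub_pos.2 hm.h1
  have e2 : 0 < t₂' - t₂ := sub_pos.2 hm.h2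
  have e3 : 0 < t₃ - t₂' := sub_pos.2 hm.h3
  have e4 : 0 < t₄ - t₃ := sub_pos.2 hm.h4
  have e5 : 0 < t₁ + L - t₄ := sub_pos.2 hm.h5
  obtain ⟨ε, hε, he⟩ : ∃ ε : ℝ, 0 < ε ∧ (3 * ε ≤ t₂ - t₁ ∧ 3 * ε ≤ t₂' - t₂ ∧ 3 * ε ≤ t₃ - t₂' ∧
      3 * ε ≤ t₄ - t₃ ∧ 3 * ε ≤ t₁ + L - t₄) ∧ ε ≤ ρ₁ ∧ ε ≤ δ := by
    refine ⟨min (min (min (t₂ - t₁) (t₂' - t₂)) (min (t₃ - t₂') (min (t₄ - t₃) (t₁ + L - t₄))) / 3)
      (min ρ₁ δ), by positivity, ⟨?_, ?_, ?_, ?_, ?_⟩, ?_, ?_⟩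
    · have := min_le_left (min (min (t₂ - t₁) (t₂' - t₂)) (min (t₃ - t₂') (min (t₄ - t₃) (t₁ + L - t₄))) / 3)
        (min ρ₁ δ)
      have h2 := (min_le_left (min (t₂ - t₁) (t₂' - t₂)) (min (t₃ - t₂') (min (t₄ - t₃) (t₁ + L - t₄)))).trans
        (min_le_left _ _)
      linarith
    · have := min_le_left (min (min (t₂ - t₁) (t₂' - t₂)) (min (t₃ - t₂') (min (t₄ - t₃) (t₁ + L - t₄))) / 3)
        (min ρ₁ δ)
      have h2 := (min_le_left (min (t₂ - t₁) (t₂' - t₂)) (min (t₃ - t₂') (min (t₄ - t₃) (t₁ + L - t₄)))).trans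
        (min_le_right _ _)
      linarith
    · have := min_le_left (min (min (t₂ - t₁) (t₂' - t₂)) (min (t₃ - t₂') (min (t₄ - t₃) (t₁ + L - t₄))) / 3)
        (min ρ₁ δ)
      have h2 := (min_le_right (min (t₂ - t₁) (t₂' - t₂)) (min (t₃ - t₂') (min (t₄ - t₃) (t₁ + L - t₄)))).trans
        (min_le_left _ _)
      linarith
    · have := min_le_left (min (min (t₂ - t₁) (t₂' - t₂)) (min (t₃ - t₂') (min (t₄ - t₃) (t₁ + L - t₄))) / 3)
        (min ρ₁ δ)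
      have h2 := ((min_le_right (min (t₂ - t₁) (t₂' - t₂)) (min (t₃ - t₂') (min (t₄ - t₃) (t₁ + L - t₄)))).trans
        (min_le_right _ _)).trans (min_le_left _ _)
      linarith
    · have := min_le_left (min (min (t₂ - t₁) (t₂' - t₂)) (min (t₃ - t₂') (min (t₄ - t₃) (t₁ + L - t₄))) / 3)
        (min ρ₁ δ)
      have h2 := ((min_le_right (min (t₂ - t₁) (t₂' - t₂)) (min (t₃ - t₂') (min (t₄ - t₃) (t₁ + L - t₄)))).trans
        (min_le_right _ _)).trans (min_le_right _ _)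
      linarith
    · exact (min_le_right _ _).trans (min_le_left _ _)
    · exact (min_le_right _ _).trans (min_le_right _ _)
  obtain ⟨⟨g1, g2, g3, g4, g5⟩, hερ, hεδ⟩ := he
  refine ⟨ε, hε, c, hc, fun ρ hρ hρε => ?_⟩
  obtain ⟨n2, hn2⟩ := exists_nat_gt (2 / ε)
  filter_upwards [lk_ev t₄ (half_pos hε) (max n1 (max n2 1))] with p hp α hα k hk
  obtain ⟨hp1, hp2⟩ := hp
  have hn : 0 < p.1 := by
    have := le_max_right n2 1
    have := le_max_right n1 (max n2 1)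
    omega
  have hn' : (0 : ℝ) < p.1 := by exact_mod_cast hn
  have hnn1 : n1 ≤ p.1 := (le_max_left _ _).trans hp1
  have hnn2 : (2 / ε : ℝ) < p.1 := by
    refine hn2.trans_le ?_
    exact_mod_cast (((le_max_left n2 1).trans (le_max_right n1 _)).trans hp1)
  have hinv : (1 : ℝ) / ε < p.1 := by
    refine lt_of_le_of_lt ?_ hnn2
    exact div_le_div_of_nonneg_right one_le_two hε.le
  have hx : ∀ t : ℝ, |(ix p.1 t : ℝ) / p.1 - t| < ε := fun t => ix_near hn t hinv hε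
  have h1n : (1 : ℝ) / p.1 < ε / 2 := by
    rw [div_lt_iff₀ hn']
    rw [div_lt_iff₀ hε] at hnn2
    linarith
  -- positions of the side
  have hk1 : |(k : ℝ) / p.1 - t₄| < ε := by
    rcases hk with rfl | rfl
    · linarith
    · push_cast
      rw [sub_div]
      rw [abs_lt] at hp2 ⊢
      constructor <;> linarith [hp2.1, hp2.2, (by positivity : (0 : ℝ) < 1 / p.1)]
  have hk2 : |((k + 1 : ℤ) : ℝ) / p.1 - t₄| < ε := by
    rcases hk with rfl | rfl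
    · push_cast
      rw [add_div]
      rw [abs_lt] at hp2 ⊢
      constructor <;> linarith [hp2.1, hp2.2, (by positivity : (0 : ℝ) < 1 / p.1)]
    · push_cast
      rw [sub_add_cancel]
      linarith
  obtain ⟨E, hdep, hconn, hpr⟩ := hE p.1 hnn1 (k + 1) (ix p.1 t₁) (ix p.1 t₂) (ix p.1 t₂') (ix p.1 t₃)
    (hk2.trans_le hερ) ((hx _).trans_le hερ) ((hx _).trans_le hερ) ((hx _).trans_le hερ)
    ((hx _).trans_le hερ)
  set R : ℤ := ⌊ρ * p.1⌋ with hR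
  have hR0 : 0 ≤ R := Int.floor_nonneg.2 (by positivity)
  have hRρ : (R : ℝ) ≤ ρ * p.1 := Int.floor_le _
  have hRε : (R : ℝ) ≤ ε * p.1 := hRρ.trans (mul_le_mul_of_nonneg_right hρε hn'.le)
  have i12 : ix p.1 t₁ + R ≤ ix p.1 t₂ := gap_of hn (hx _) (hx _) (by linarith) hRε
  have i23 : ix p.1 t₂ + R ≤ ix p.1 t₂' := gap_of hn (hx _) (hx _) (by linarith) hRε
  have i34 : ix p.1 t₂' + R ≤ ix p.1 t₃ := gap_of hn (hx _) (hx _) (by linarith) hRε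
  have i4 : ix p.1 t₃ + R ≤ k := gap_of hn (hx _) hk1 (by linarith) hRε
  have i5 : k + 1 < ix p.1 t₁ + (p.1 * L : ℕ) := by
    have h6 : |((ix p.1 t₁ + (p.1 * L : ℕ) : ℤ) : ℝ) / p.1 - (t₁ + L)| < ε := by
      have := hx t₁
      push_cast
      rw [add_div, mul_div_cancel_left₀ _ hn'.ne']
      rw [abs_lt] at this ⊢
      constructor <;> linarith [this.1, this.2]
    have h7 : (2 : ℤ) ≤ ε * p.1 := by
      push_cast
      rw [div_lt_iff₀ hε] at hnn2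
      linarith
    have := gap_of hn hk1 h6 (R' := 2) (ε := ε) (by linarith) h7
    omega
  have key := LowZ.Z_low (k := k) (R := R) (R' := R) hP hg hn hα.1 hα.2 (by omega) i12 i23 i23 i34
    (by omega) hR0 hR0 hdep (fun f hf => hf.2 R (hRε.trans (mul_le_mul_of_nonneg_right hερ hn'.le)))
    (hbd p.1 hn _ _ ((hx _).trans_le hεδ) ((hx _).trans_le hεδ) R R
      (hRε.trans (mul_le_mul_of_nonneg_right hεδ hn'.le)) (hRε.trans (mul_le_mul_of_nonneg_right hεδ hn'.le)))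
    (fun ω hω => (hconn ω hω).1) (fun ω hω => by
      have := (hconn ω hω).2
      rwa [add_sub_cancel_right] at this)
  have hF : ∀ j : ℤ, 0 ≤ DomX.FF P g p.1 j R R α := by
    intro j
    refine av_nonneg fun ω _ => pow_nonneg ?_ _
    have := LowZ.one_le_tau hα.1 hα.2
    exact zero_le_one.trans this
  refine le_trans ?_ key
  rw [mul_assoc]
  refine mul_le_mul_of_nonneg_right ?_ (mul_nonneg (hF _) (hF _))
  exact hpr

/-- **The lower bound of the partition function.** -/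
theorem lowX : DomX.LowX := by
  intro P L g hP hg t₁ t₂ t₂' t₃ t₄ hm
  obtain ⟨ρ₀, hρ₀, c, hc, h⟩ := lowX_two hP hg hm
  refine ⟨ρ₀, hρ₀, c, hc, ?_⟩
  filter_upwards [h ρ₀ hρ₀ le_rfl] with p hp α hα
  exact hp α hα p.2 (Or.inl rfl)

/-- the partition functions of both sides are positive -/
theorem lowX_pos (hP : MPoly P) (hg : Cont P L g) {t₁ t₂ t₂' t₃ t₄ : ℝ}
    (hm : Marks5 L g t₁ t₂ t₂' t₃ t₄) : ∀ᶠ p : ℕ × ℤ in lk t₄, ∀ α ∈ Set.Icc (0 : ℝ) 1,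
      ∀ k : ℤ, k = p.2 ∨ k = p.2 - 1 →
        0 < (envX P L g p.1 α (ix p.1 t₁) (ix p.1 t₂) (ix p.1 t₂') (ix p.1 t₃) k).Z := by
  obtain ⟨ρ₀, hρ₀, c, hc, h⟩ := lowX_two hP hg hm
  filter_upwards [h ρ₀ hρ₀ le_rfl, lk_ev t₄ one_pos 1] with p hp hp1 α hα k hk
  refine lt_of_lt_of_le ?_ (hp α hα k hk)
  have hn' : (0 : ℝ) < p.1 := by exact_mod_cast hp1.1
  have h1 := LowZ.one_le_tau hα.1 hα.2
  have hF : ∀ j : ℤ, 0 < DomX.FF P g p.1 j ⌊ρ₀ * p.1⌋ ⌊ρ₀ * p.1⌋ α := by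
    intro j
    refine lt_of_lt_of_le one_pos ?_
    rw [← av_const (S := rf p.1 P) 1]
    exact av_mono fun ω _ => one_le_pow₀ h1
  exact mul_pos (div_pos hc hn') (mul_pos (hF _) (hF _))

end Pool.Agent.SixB.Low
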