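import Pool.Agent.Lib.SixB.CADomLowZ
import Pool.Agent.Lib.SixB.CADomDefs
import Pool.Agent.Lib.SixB.CAGeo

/-!
# 6BD block CA: lower bound of the partition function of the environment with two marks

* `envPW`: the weight of the environment with the jumps `jP` is the weight `TW.W (TW.jP ..)`; `envPW_ge`: it is at
  least `tau α ^ (NA + NA')` for every configuration.
THEOREM `lowP`: for small `ρ`, `r = ⌊ρ n⌋`: `FF * FF' ≤ Z` for large `n`, all `α ∈ [0, 1]`.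
-/

set_option autoImplicit false
set_option linter.unusedSectionVars false

namespace Pool.Agent.SixB.LowZ

open Finset Pool.Agent.Perc Pool.Agent.Perc.Q Pool.Agent.Perc6 Pool.Agent.PercD Pool.Agent.PercN
  Pool.Agent.SixB.Tilt Pool.Agent.SixB.DomMk Pool.Agent.SixB.DomPr Relation

noncomputable section

variable {F : Finset (ℤ × ℤ)} {m : ℕ} {b : ℤ → ℤ × ℤ} {ω : Cfg} {τ : ℕ → ℕ} {k i2 i2' R R' : ℤ} {α : ℝ}

theorem jP_eq (h1 : k < i2 + m) (h12 : i2 ≤ i2') (h2 : i2' ≤ k) {v : ℕ} (hv1 : 1 ≤ v) (hv2 : v < m) :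
    jP m α i2 i2' (k + v) = TW.jP (ps m k i2) (ps m k i2') α v := by
  unfold jP
  rw [jN_pos (i := i2) h1 (by omega) hv1 hv2, jN_pos (i := i2') (by omega) h2 hv1 hv2]
  unfold TW.jP TW.fj TW.jM
  simp only [Pi.add_apply, Pi.smul_apply, smul_eq_mul]
  unfold TW.mk
  split_ifs <;> ring

theorem csumP_eq (h1 : k < i2 + m) (h12 : i2 ≤ i2') (h2 : i2' ≤ k) {i j : ℕ} (hj : j < m) :
    csum (jP m α i2 i2') (k + i) (k + j) = TW.J (TW.jP (ps m k i2) (ps m k i2') α) i j := by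
  have e : csum (jP m α i2 i2') (k + i) (k + j) = TW.J (fun v : ℕ => jP m α i2 i2' (k + v)) i j :=
    CJ.Jz_rel _ k i j
  rw [e]
  unfold TW.J
  refine Finset.sum_congr rfl fun v hv => ?_
  rw [Finset.mem_Ioc] at hv
  exact jP_eq h1 h12 h2 (by omega) (by omega)

/-- **The weight of the environment with two marks.** -/
theorem envPW (hb : Cont F m b) (hP : HasPot (F : Set (ℤ × ℤ))) (h1 : k < i2 + m) (h12 : i2 ≤ i2')
    (h2 : i2' ≤ k) (ω : Cfg) (hN : NCMat m (mtc F m b k ω)) :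
    (cenv F b m (jP m α i2 i2')).W ω = TW.W (TW.jP (ps m k i2) (ps m k i2') α) (toNM hN) := by
  have hτ := mtc_mated (hb.ctr hP k) ω
  rw [hb.W_opC _ rfl hτ]
  unfold TW.W
  rw [opn_eq]
  refine Finset.prod_congr rfl fun i hi => ?_
  obtain ⟨k1, k2⟩ := mem_opC.mp hi
  have k3 := hN.lt i k1
  have k4 := (cenv_ts (F := F) hb (jP_per m α i2 i2') (csum_jP hb.pos α i2 i2')
    (i := k + i) (k := k + mtc F m b k ω i) (by omega) (by omega)).1
  refine k4.trans ?_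
  rw [csumP_eq h1 h12 h2 k3]
  rfl

/-- the weight of a matching, two marks -/
theorem TWjP_ge {n2 n3 R R' : ℕ} (hN : NCMat m τ) (h0 : 0 ≤ α) (h1 : α ≤ 1) (h23 : n2 + R ≤ n3)
    (h23' : n2 + R' ≤ n3) :
    TW.tau α ^ ((ovr τ m n2 R).card + (ovr τ m n3 R').card) ≤ TW.W (TW.jP n2 n3 α) (toNM hN) := by
  classical
  have hdis : Disjoint (ovr τ m n2 R) (ovr τ m n3 R') := by
    rw [Finset.disjoint_left]
    intro p hp hp'
    unfold ovr at hp hp'
    rw [Finset.mem_filter] at hp hp'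
    omega
  have hsub : ovr τ m n2 R ∪ ovr τ m n3 R' ⊆ (toNM hN).opn := by
    intro p hp
    rw [TW.NM.mem_opn]
    have e : (toNM hN).M p = τ p := rfl
    rw [e]
    rw [Finset.mem_union] at hp
    unfold ovr at hp
    rw [Finset.mem_filter, Finset.mem_filter, Finset.mem_range] at hp
    omega
  rw [← Finset.card_union_of_disjoint hdis]
  have e1 : TW.tau α ^ (ovr τ m n2 R ∪ ovr τ m n3 R').card =
      ∏ p ∈ (toNM hN).opn, if p ∈ ovr τ m n2 R ∪ ovr τ m n3 R' then TW.tau α else 1 := by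
    rw [Finset.prod_ite_mem, Finset.prod_const, Finset.inter_eq_right.mpr hsub]
  rw [e1]
  unfold TW.W
  have ht := one_le_tau h0 h1
  refine Finset.prod_le_prod (fun p _ => by split_ifs <;> linarith) fun p hp => ?_
  rw [TW.NM.mem_opn] at hp
  have e : (toNM hN).M p = τ p := rfl
  rw [e] at hp ⊢
  rw [TW.J_jP _ _ _ hp.2.le]
  split_ifs with hmem
  · rw [Finset.mem_union] at hmem
    rcases hmem with hm | hm
    · unfold ovr at hm
      rw [Finset.mem_filter] at hm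
      rw [TW.Hv_ge (n := n2) (by omega), TW.Hv_lt (n := n2) (by omega), TW.Hv_lt (n := n3) (by omega),
        TW.Hv_lt (n := n3) (by omega)]
      refine le_of_eq ?_
      rw [← TW.tt_tau' α]
      congr 1
      ring
    · unfold ovr at hm
      rw [Finset.mem_filter] at hm
      rw [TW.Hv_ge (n := n2) (by omega), TW.Hv_ge (n := n2) (by omega), TW.Hv_ge (n := n3) (by omega),
        TW.Hv_lt (n := n3) (by omega)]
      refine le_of_eq ?_
      unfold TW.tau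
      congr 1
      ring
  · refine TW.tt_jump_ge_one ?_
    rcases TW.Hv_sub_mem n2 hp.2.le with e | e <;> rcases TW.Hv_sub_mem n3 hp.2.le with f | f <;>
      rw [e, f] <;> constructor <;> linarith

/-- **The weight with two marks, every configuration.** -/
theorem envPW_ge (hb : Cont F m b) (hP : HasPot (F : Set (ℤ × ℤ))) (h0 : 0 ≤ α) (h1 : α ≤ 1)
    (k23 : i2 + R ≤ i2') (k23' : i2 + R' ≤ i2') (k4 : i2' + R' < i2 + m) (k4' : i2' + R' ≤ i2 + m - R)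
    (hR : 0 ≤ R) (hR' : 0 ≤ R') {PA PB PA' PB' : UE → Prop} {v v' : ℤ × ℤ} {s s' : ℤ}
    (hA : ∀ a, PA a → ∃ x, i2 - R ≤ x ∧ x < i2 ∧ a = und (b x, b (x + 1)))
    (hB : ∀ a, PB a → ∃ x, i2 ≤ x ∧ x < i2 + R ∧ a = und (b x, b (x + 1)))
    (hA' : ∀ a, PA' a → ∃ x, i2' - R' ≤ x ∧ x < i2' ∧ a = und (b x, b (x + 1)))
    (hB' : ∀ a, PB' a → ∃ x, i2' ≤ x ∧ x < i2' + R' ∧ a = und (b x, b (x + 1))) (ω : Cfg) :
    TW.tau α ^ NA (F : Set (ℤ × ℤ)) PA PB v s ω * TW.tau α ^ NA (F : Set (ℤ × ℤ)) PA' PB' v' s' ω ≤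
      (cenv F b m (jP m α i2 i2')).W ω := by
  obtain ⟨k, hk⟩ : ∃ k, k = i2' + R' := ⟨_, rfl⟩
  have hN := (mtc_mated (hb.ctr hP k) ω).ncMat (hb.ctr hP k)
  rw [envPW hb hP (k := k) (by omega) (by omega) (by omega) ω hN, ← pow_add]
  have n1 := NA_le_ovr hb hP (k := k) (v := v) (s := s) hA hB (by omega) (by omega) hR ω
  have n2 := NA_le_ovr hb hP (k := k) (v := v') (s := s') hA' hB' (by omega) (by omega) hR' ω
  refine (pow_le_pow_right₀ (one_le_tau h0 h1) (add_le_add n1 n2)).trans ?_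
  exact TWjP_ge hN h0 h1 (by unfold ps; omega) (by unfold ps; omega)

theorem pr_full (F : Finset (ℤ × ℤ)) : pr F (Set.univ : Set Cfg) = 1 := by
  classical
  rw [pr_eq_av]
  refine (av_congr (g' := fun _ => (1 : ℝ)) fun T _ => if_pos (Set.mem_univ _)).trans (av_const _)

/-- **Two marks, refined polygon.** -/
theorem Z_lowP {P : Finset (ℤ × ℤ)} {L n : ℕ} {g : ℤ → ℤ × ℤ} (hP : MPoly P) (hg : Cont P L g) (hn : 0 < n)
    (h0 : 0 ≤ α) (h1 : α ≤ 1) (k23 : i2 + R ≤ i2') (k23' : i2 + R' ≤ i2') (k4 : i2' + R' < i2 + (n * L : ℕ))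
    (k4' : i2' + R' ≤ i2 + (n * L : ℕ) - R) (hR : 0 ≤ R) (hR' : 0 ≤ R')
    (hDD : Disjoint (BR (gr n g i2) R) (BR (gr n g i2') R')) :
    fac (rf n P) (MA n g i2 R) (MB n g i2 R) (gr n g i2) R (TW.tau α) *
        fac (rf n P) (MA n g i2' R') (MB n g i2' R') (gr n g i2') R' (TW.tau α) ≤
      (envP P L g n α i2 i2').Z := by
  have hb := CARf.cont_rf hg hn
  have hpot := (CARf.mpoly_rf hP hn).hasPot
  have hge := fun ω => envPW_ge (m := n * L) (b := gr n g) (v := gr n g i2) (v' := gr n g i2') (s := R) (s' := R')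
    (PA := MA n g i2 R) (PB := MB n g i2 R) (PA' := MA n g i2' R') (PB' := MB n g i2' R')
    hb hpot h0 h1 k23 k23' k4 k4' hR hR' (fun a ha => ha) (fun a ha => ha) (fun a ha => ha) (fun a ha => ha) ω
  have ht := one_le_tau h0 h1
  have key := prod_low (F := rf n P) (G := Set.univ) (D := ∅) (τ := TW.tau α) (τ' := TW.tau α)
    (W := (envP P L g n α i2 i2').W) (fun _ _ _ => Iff.rfl)
    (depN_NA (rf n P : Set (ℤ × ℤ)) (MA n g i2 R) (MB n g i2 R) (gr n g i2) R)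
    (depN_NA (rf n P : Set (ℤ × ℤ)) (MA n g i2' R') (MB n g i2' R') (gr n g i2') R')
    (Set.empty_disjoint _) (Set.empty_disjoint _) ?_ (fun ω => ?_) fun ω _ => hge ω
  · rw [pr_full, one_mul] at key
    exact key
  · rw [Set.disjoint_left]
    exact fun f hf hf' => Finset.disjoint_left.1 hDD (Finset.mem_coe.1 hf.2) (Finset.mem_coe.1 hf'.2)
  · exact le_trans (by positivity) (hge ω)

/-! ### Uniform form -/

theorem ix_near (t : ℝ) {n : ℕ} : (ix n t : ℝ) ≤ n * t ∧ (n : ℝ) * t - 1 < ix n t :=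
  ⟨Int.floor_le _, Int.sub_one_lt_floor _⟩

theorem tau_eq (α : ℝ) : DomX.tau α = TW.tau α := rfl

/-- **Lower bound of the partition function, two marks.** -/
theorem lowP {P : Finset (ℤ × ℤ)} {L : ℕ} {g : ℤ → ℤ × ℤ} (hP : MPoly P) (hg : Cont P L g) {t₂ t₂' : ℝ}
    (h12 : t₂ < t₂') (h21 : t₂' < t₂ + L) : ∃ ρ₀ : ℝ, 0 < ρ₀ ∧ ∀ ρ : ℝ, 0 < ρ → ρ ≤ ρ₀ →
      ∀ᶠ n : ℕ in Filter.atTop, ∀ α ∈ Set.Icc (0 : ℝ) 1,
        DomX.FF P g n (ix n t₂) ⌊ρ * n⌋ ⌊ρ * n⌋ α * DomX.FF P g n (ix n t₂') ⌊ρ * n⌋ ⌊ρ * n⌋ α ≤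
          (envP P L g n α (ix n t₂) (ix n t₂')).Z := by
  obtain ⟨δ, hδ, hdis⟩ := boxes_disj hg (gam_ne (CARf.geoIn hg) h12 h21)
  have hd1 : 0 < t₂' - t₂ := by linarith
  have hd2 : 0 < t₂ + L - t₂' := by linarith
  refine ⟨min δ (min ((t₂' - t₂) / 4) ((t₂ + L - t₂') / 4)), lt_min hδ (lt_min (by linarith) (by linarith)),
    fun ρ hρ hρ' => ?_⟩
  have r1 : ρ ≤ δ := hρ'.trans (min_le_left _ _)
  have r2 : ρ ≤ (t₂' - t₂) / 4 := hρ'.trans ((min_le_right _ _).trans (min_le_left _ _))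
  have r3 : ρ ≤ (t₂ + L - t₂') / 4 := hρ'.trans ((min_le_right _ _).trans (min_le_right _ _))
  obtain ⟨N1, hN1⟩ := exists_nat_gt (1 / δ)
  obtain ⟨N2, hN2⟩ := exists_nat_gt (4 / (t₂' - t₂))
  obtain ⟨N3, hN3⟩ := exists_nat_gt (4 / (t₂ + L - t₂'))
  filter_upwards [Filter.eventually_ge_atTop (max 1 (max N1 (max N2 N3)))] with n hn α hα
  have hn1 : 1 ≤ n := (le_max_left _ _).trans hn
  have hn2 : N1 ≤ n := (le_max_left _ _).trans ((le_max_right _ _).trans hn)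
  have hn3 : N2 ≤ n := (le_max_left _ _).trans ((le_max_right _ _).trans ((le_max_right _ _).trans hn))
  have hn4 : N3 ≤ n := (le_max_right _ _).trans ((le_max_right _ _).trans ((le_max_right _ _).trans hn))
  have hn0 : (0 : ℝ) < n := by exact_mod_cast hn1
  have e1 : 1 < δ * n := by
    have : 1 / δ < n := hN1.trans_le (by exact_mod_cast hn2)
    rwa [div_lt_iff₀ hδ, mul_comm] at this
  have e2 : 4 < (t₂' - t₂) * n := by
    have : 4 / (t₂' - t₂) < n := hN2.trans_le (by exact_mod_cast hn3)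
    rwa [div_lt_iff₀ hd1, mul_comm] at this
  have e3 : 4 < (t₂ + L - t₂') * n := by
    have : 4 / (t₂ + L - t₂') < n := hN3.trans_le (by exact_mod_cast hn4)
    rwa [div_lt_iff₀ hd2, mul_comm] at this
  obtain ⟨a1, a2⟩ := ix_near t₂ (n := n)
  obtain ⟨a3, a4⟩ := ix_near t₂' (n := n)
  have hr0 : 0 ≤ ⌊ρ * n⌋ := Int.floor_nonneg.mpr (by positivity)
  have hr : ((⌊ρ * n⌋ : ℤ) : ℝ) ≤ ρ * n := Int.floor_le _
  have m1 : ρ * n ≤ (t₂' - t₂) / 4 * n := mul_le_mul_of_nonneg_right r2 hn0.le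
  have m2 : ρ * n ≤ (t₂ + L - t₂') / 4 * n := mul_le_mul_of_nonneg_right r3 hn0.le
  have m3 : ρ * n ≤ δ * n := mul_le_mul_of_nonneg_right r1 hn0.le
  have hnear : ∀ t : ℝ, |((ix n t : ℤ) : ℝ) / n - t| < δ := by
    intro t
    obtain ⟨b1, b2⟩ := ix_near t (n := n)
    have e4 : ((ix n t : ℤ) : ℝ) / n - t = ((ix n t : ℤ) - n * t) / n := by field_simp
    rw [e4, abs_div, abs_of_pos hn0, div_lt_iff₀ hn0, abs_lt]
    constructor <;> linarith
  have k1 : ix n t₂ + ⌊ρ * n⌋ ≤ ix n t₂' := by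
    have : ((ix n t₂ : ℤ) : ℝ) + (⌊ρ * n⌋ : ℤ) ≤ (ix n t₂' : ℤ) := by nlinarith
    exact_mod_cast this
  have k2 : ix n t₂' + ⌊ρ * n⌋ ≤ ix n t₂ + (n * L : ℕ) - ⌊ρ * n⌋ := by
    have : ((ix n t₂' : ℤ) : ℝ) + (⌊ρ * n⌋ : ℤ) ≤ (ix n t₂ : ℤ) + n * L - (⌊ρ * n⌋ : ℤ) := by nlinarith
    exact_mod_cast this
  have k3 : ix n t₂' + ⌊ρ * n⌋ < ix n t₂ + (n * L : ℕ) := by
    have : ((ix n t₂' : ℤ) : ℝ) + (⌊ρ * n⌋ : ℤ) < (ix n t₂ : ℤ) + n * L := by nlinarith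
    exact_mod_cast this
  exact Z_lowP hP hg (by omega) hα.1 hα.2 k1 k1 k3 k2 hr0 hr0
    (hdis n (by omega) _ _ (hnear t₂) (hnear t₂') _ _ (hr.trans m3) (hr.trans m3))

end

end Pool.Agent.SixB.LowZ
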