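import Pool.Agent.Lib.SixB.CADomLeg
import Pool.Agent.Lib.SixB.CADomDet
import Pool.Agent.Lib.SixB.S6W2

/-!
# 6BD block CA, domination: assembly for one environment

* `one_le_tau`, `tau_le`, `abs_tJ_le`, `abs_dJ_le`, `abs_cs_le`: weights and local mean arrows of `cenv` are at most
  `qq = 2 / √3`.
* `num_le`: bound of the numerators from the bound of the products with at most one removed arc.
* `NM_mono`, `FF_mono`, `one_le_FF`.
* `av_hPr_le`: the mean of the dominating product is at most `C * (FF * FF)`.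
* `domE_of`: the structure `DomE` from the pointwise domination; `DomE.maj_far`: `GG.Maj` from `DomE` off `e`.
-/

set_option autoImplicit false

namespace Pool.Agent.SixB.DomX

open Filter Topology Pool.Agent.Perc Pool.Agent.Perc.Q Pool.Agent.PercD Pool.Agent.PercN Pool.Agent.Perc6
  Pool.Agent.SixB.Tilt Relation

noncomputable section

/-! ### Weights -/

theorem qq_nonneg : 0 ≤ qq := by unfold qq; positivity

theorem sqrt3_le : Real.sqrt 3 ≤ 2 := by
  rw [show (2 : ℝ) = Real.sqrt 4 by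
    rw [show (4 : ℝ) = 2 ^ 2 by norm_num, Real.sqrt_sq (by norm_num)]]
  exact Real.sqrt_le_sqrt (by norm_num)

theorem one_le_qq : 1 ≤ qq := by
  unfold qq
  rw [le_div_iff₀ (Real.sqrt_pos.2 (by norm_num)), one_mul]
  exact sqrt3_le

theorem qq_le_two : qq ≤ 2 := by
  unfold qq
  rw [div_le_iff₀ (Real.sqrt_pos.2 (by norm_num))]
  have : 1 ≤ Real.sqrt 3 := by
    rw [Real.one_le_sqrt]
    norm_num
  linarith

theorem div_cos {x : ℝ} (hx : |x| ≤ 1) : |x / Real.cos (Real.pi / 6)| ≤ qq := by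
  have h3 : 0 < Real.sqrt 3 := Real.sqrt_pos.2 (by norm_num)
  unfold qq
  rw [Real.cos_pi_div_six, abs_div, abs_of_pos (by positivity : 0 < Real.sqrt 3 / 2), div_div_eq_mul_div]
  refine div_le_div_of_nonneg_right ?_ h3.le
  linarith

theorem abs_tJ_le (x : ℝ) : |Ht.tJ x| ≤ qq := div_cos (Real.abs_cos_le_one _)

theorem abs_dJ_le (x : ℝ) : |Ht.dJ x| ≤ qq := div_cos (Real.abs_sin_le_one _)

theorem one_le_tau {α : ℝ} (h : α ∈ Set.Icc (0 : ℝ) 1) : 1 ≤ tau α := TW.tau_ge_one h.1 h.2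

theorem tau_nonneg {α : ℝ} (h : α ∈ Set.Icc (0 : ℝ) 1) : 0 ≤ tau α := zero_le_one.trans (one_le_tau h)

theorem tau_le (α : ℝ) : tau α ≤ qq := (le_abs_self _).trans (abs_tJ_le _)

theorem abs_cs_le (F : Finset (ℤ × ℤ)) (b : ℤ → VZ) (m : ℕ) (j : ℤ → ℝ) (a a' : DZ) :
    |(cenv F b m j).s a a'| ≤ 2 := by
  refine le_trans ?_ qq_le_two
  show |(if cidx b m a < cidx b m a' then -Ht.dJ (csum j (cidx b m a) (cidx b m a'))
    else if cidx b m a' < cidx b m a then Ht.dJ (csum j (cidx b m a') (cidx b m a)) else 0)| ≤ qq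
  split_ifs
  · rw [abs_neg]; exact abs_dJ_le _
  · exact abs_dJ_le _
  · rw [abs_zero]; exact qq_nonneg

/-! ### Numerators -/

section num

variable {E : WEnv} {ω : Cfg} {h : ℝ} {e a : DZ}

theorem num_le (hs : ∀ a a', |E.s a a'| ≤ 2)
    (hX : ∀ X : Finset (Sym2 DZ), X.card ≤ 1 → |∏ q ∈ arcs ZQ E.F ω \ X, E.T q| ≤ h) (a : DZ) :
    |E.num ω a| ≤ 2 * h := by
  classical
  have hW : |E.W ω| ≤ h := by
    have := hX ∅ (by simp)
    rwa [Finset.sdiff_empty] at this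
  unfold WEnv.num
  split_ifs with hc
  · have h4 : |Real.sqrt 3 / 4 * (trn ZQ E.F ω a : ℝ)| ≤ 2 := by
      rcases uml_ZQ E.F ω a hc with h5 | h5
      · rw [h5]
        push_cast
        rw [show Real.sqrt 3 / 4 * 4 = Real.sqrt 3 by ring, abs_of_nonneg (Real.sqrt_nonneg 3)]
        exact sqrt3_le
      · rw [h5]
        push_cast
        rw [show Real.sqrt 3 / 4 * -4 = -Real.sqrt 3 by ring, abs_neg,
          abs_of_nonneg (Real.sqrt_nonneg 3)]
        exact sqrt3_le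
    rw [abs_mul]
    exact mul_le_mul h4 hW (abs_nonneg _) (by norm_num)
  · rw [abs_mul, ← Finset.sdiff_singleton_eq_erase]
    exact mul_le_mul (hs _ _) (hX _ (by simp)) (abs_nonneg _) (by norm_num)

theorem stt_bS {F : Finset (ℤ × ℤ)} (he : e ∈ bS ZQ F) (ω : Cfg) :
    ¬ Clo ZQ F ω e ∧ stt F ω e = e := by
  have he' := mem_bS.mp he
  have hc : ¬ Clo ZQ F ω e := by
    intro hcl
    rw [clo_iff he'.1] at hcl
    exact hcl e (self_mem_dst he'.1) he'.2
  obtain ⟨h2, h3⟩ := start_spec he'.1 hc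
  exact ⟨hc, (ini_unique (mem_bS.mp h2).2 he'.2 h3)⟩

theorem arcE_mem {F : Finset (ℤ × ℤ)} (he : e ∈ bS ZQ F) (ω : Cfg) : arcE F ω e ∈ arcs ZQ F ω := by
  unfold arcE
  rw [(stt_bS he ω).2]
  exact mem_arcs.mpr ⟨e, he, rfl⟩

theorem W_zero (he : e ∈ bS ZQ E.F) (h0 : E.T (arcE E.F ω e) = 0) : E.W ω = 0 :=
  Finset.prod_eq_zero (arcE_mem he ω) h0

/-- the strands different from the strand of `e` -/
theorem num_zero (he : e ∈ bS ZQ E.F) (h0 : E.T (arcE E.F ω e) = 0) (ha : a ∈ dE ZQ E.F)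
    (h1 : ¬ SRel ZQ E.F ω e a) (h2 : ¬ SRel ZQ E.F ω e a.swap) : E.num ω a = 0 := by
  classical
  unfold WEnv.num
  split_ifs with hc
  · rw [W_zero he h0, mul_zero]
  · obtain ⟨h3, h4⟩ := start_spec ha hc
    refine mul_eq_zero_of_right _ (Finset.prod_eq_zero (i := arcE E.F ω e) ?_ h0)
    refine Finset.mem_erase.mpr ⟨fun heq => ?_, arcE_mem he ω⟩
    have h5 : Tilt.und a ∈ MM ω (E.F : Set (ℤ × ℤ)) (Tilt.und (stt E.F ω a)) := MM_of_srel h4
    have h6 : Tilt.und a ∈ MM ω (E.F : Set (ℤ × ℤ)) (Tilt.und e) := by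
      have heq' : s(e, mate ZQ E.F ω e) = s(stt E.F ω a, mate ZQ E.F ω (stt E.F ω a)) := by
        have := heq
        unfold arcE at this
        rwa [(stt_bS he ω).2] at this
      rcases Sym2.eq_iff.mp heq' with ⟨h7, -⟩ | ⟨h7, -⟩
      · rwa [← h7] at h5
      · rw [h7]
        exact MM_trans (MM_symm (Dom.mate_mem_MM h3)) h5
    rcases (MM_iff (mem_bS.mp he).1 ha).mp h6 with h7 | h7
    · exact h1 h7
    · exact h2 h7

end num

/-! ### The counts over the marks -/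

section marks

variable {P : Finset (ℤ × ℤ)} {g : ℤ → ℤ × ℤ} {n : ℕ} {j j' R R' r r' : ℤ} {α : ℝ} {ω : Cfg} {K : Cfg → ℕ}

theorem MA_mono (h : R ≤ R') {a : UE} (ha : DomMk.MA n g j R a) : DomMk.MA n g j R' a := by
  obtain ⟨i, h1, h2, h3⟩ := ha
  exact ⟨i, by omega, h2, h3⟩

theorem MB_mono (h : R ≤ R') {a : UE} (ha : DomMk.MB n g j R a) : DomMk.MB n g j R' a := by
  obtain ⟨i, h1, h2, h3⟩ := ha
  exact ⟨i, h1, by omega, h3⟩

theorem NM_mono (hR : R ≤ R') (hr : r ≤ r') (ω : Cfg) : NM P g n j R r ω ≤ NM P g n j R' r' ω := by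
  classical
  refine (NA_mono hr ω).trans ?_
  unfold NM NA NS
  refine Finset.card_le_card fun a ha => ?_
  rw [Finset.mem_filter] at ha ⊢
  obtain ⟨h1, h2, b, h3, h4⟩ := ha
  exact ⟨h1, MA_mono hR h2, b, h3, MB_mono hR h4⟩

theorem NM_dep (P : Finset (ℤ × ℤ)) (g : ℤ → ℤ × ℤ) (n : ℕ) (j R r : ℤ) :
    Dep ((rf n P ∩ BR (gr n g j) r : Finset (ℤ × ℤ)) : Set (ℤ × ℤ)) (NM P g n j R r) := by
  rw [Finset.coe_inter]
  exact depN_NA _ _ _ _ _

theorem FF_mono (hα : α ∈ Set.Icc (0 : ℝ) 1) (hR : R ≤ R') (hr : r ≤ r') :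
    FF P g n j R r α ≤ FF P g n j R' r' α :=
  av_mono fun _ _ => pow_le_pow_right₀ (one_le_tau hα) (NM_mono hR hr _)

theorem one_le_FF (hα : α ∈ Set.Icc (0 : ℝ) 1) : 1 ≤ FF P g n j R r α := by
  have h1 : av (rf n P) (fun _ => (1 : ℝ)) ≤ FF P g n j R r α :=
    av_mono fun _ _ => one_le_pow₀ (one_le_tau hα)
  rwa [av_const] at h1

theorem hPr_nonneg (hα : α ∈ Set.Icc (0 : ℝ) 1) : 0 ≤ hPr P g n j j' r α K ω := by
  have := tau_nonneg hα
  have := qq_nonneg
  unfold hPr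
  positivity

/-- the dominating product depends on the faces off the holes -/
theorem hPr_dep {F B C : Finset (ℤ × ℤ)} (hF : F = rf n P) {N : ℤ} {M : ℕ} (hK : KOk F B N M K) (hC : C ⊆ B)
    (h1 : Disjoint (BR (gr n g j) r) C) (h2 : Disjoint (BR (gr n g j') r) C) (α : ℝ) :
    Dep ((F \ C : Finset (ℤ × ℤ)) : Set (ℤ × ℤ)) (hPr P g n j j' r α K) := by
  subst hF
  intro ω ω' h
  have e1 : K ω = K ω' := hK.dep ω ω' fun f hf => h f (by
    rw [Finset.mem_coe, Finset.mem_sdiff] at hf ⊢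
    exact ⟨hf.1, fun h' => hf.2 (hC h')⟩)
  have e2 : ∀ i, Disjoint (BR (gr n g i) r) C → NM P g n i r r ω = NM P g n i r r ω' := fun i hi =>
    NM_dep P g n i r r ω ω' fun f hf => h f (by
      rw [Finset.mem_coe, Finset.mem_inter] at hf
      rw [Finset.mem_coe, Finset.mem_sdiff]
      exact ⟨hf.1, Finset.disjoint_left.1 hi hf.2⟩)
  unfold hPr
  rw [e1, e2 j h1, e2 j' h2]

/-- the facts on one mark -/
structure MkOk (P : Finset (ℤ × ℤ)) (g : ℤ → ℤ × ℤ) (n : ℕ) (j r : ℤ) : Prop where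
  A : ∀ a, DomMk.MA n g j r a → BdF (rf n P : Set (ℤ × ℤ)) a
  B : ∀ a, DomMk.MB n g j r a → BdF (rf n P : Set (ℤ × ℤ)) a
  AB : ∀ a, DomMk.MA n g j r a → ¬ DomMk.MB n g j r a
  sep : ∀ s : ℤ, 0 < s → WSep (rf n P : Set (ℤ × ℤ)) (DomMk.MA n g j r) (DomMk.MB n g j r) (gr n g j) s

open Classical in
/-- **The mean of the dominating product.** -/
theorem av_hPr_le (M : ℕ) : ∃ C : ℝ, 1 ≤ C ∧ ∀ (P : Finset (ℤ × ℤ)) (g : ℤ → ℤ × ℤ) (n : ℕ) (j j' r : ℤ) (α : ℝ)
    (K : Cfg → ℕ) (B : Finset (ℤ × ℤ)) (N : ℤ), α ∈ Set.Icc (0 : ℝ) 1 → 0 ≤ r → MkOk P g n j r → MkOk P g n j' r →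
    Disjoint (BR (gr n g j) r) (BR (gr n g j') r) → 0 < N → h2 g n j j' r ⊆ B → KOk (rf n P) B N M K →
      av (rf n P) (hPr P g n j j' r α K) ≤ C * (FF P g n j r r α * FF P g n j' r r α) := by
  obtain ⟨C, hC, h⟩ := DomPr.dom_avK 2 M 1 qq qq one_pos le_rfl one_le_qq one_le_qq
  refine ⟨C, hC, ?_⟩
  intro P g n j j' r α K B N hα hr h1 h2' hdis hN hB hK
  obtain ⟨r', rfl⟩ := Int.eq_ofNat_of_zero_le hr
  obtain ⟨x₀, y₀, hF, hKB⟩ := hK.le
  set jj : Bool → ℤ := fun b => if b then j else j' with hjj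
  have hKd : ∀ S : Set (ℤ × ℤ), ((rf n P \ B : Finset (ℤ × ℤ)) : Set (ℤ × ℤ)) ⊆ S → Dep S K :=
    fun S hS ω ω' hω => hK.dep ω ω' fun f hf => hω f (hS hf)
  have key := h Bool Finset.univ (rf n P) (fun b => gr n g (jj b)) (fun b => DomMk.MA n g (jj b) r')
    (fun b => DomMk.MB n g (jj b) r') (fun _ => r') (fun _ => tau α) ∅ (fun _ => 1) K x₀ y₀ N (by simp)
    { A := fun b _ => by cases b <;> [exact h2'.A; exact h1.A]
      B := fun b _ => by cases b <;> [exact h2'.B; exact h1.B]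
      AB := fun b _ => by cases b <;> [exact h2'.AB; exact h1.AB]
      sep := fun b _ s hs _ => by cases b <;> [exact h2'.sep s hs; exact h1.sep s hs]
      dis := fun b _ b' _ hne => by
        cases b <;> cases b' <;> first
          | exact absurd rfl hne
          | exact hdis
          | exact hdis.symm }
    (fun _ _ => ⟨one_le_tau hα, tau_le α⟩) hN hF hKB (hKd _ fun f hf => by
      rw [Finset.mem_coe, Finset.mem_sdiff] at hf
      exact Finset.mem_coe.2 hf.1)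
    (fun b _ => hKd _ fun f hf hf' => by
      rw [Finset.mem_coe, Finset.mem_sdiff] at hf
      refine hf.2 (hB ?_)
      unfold h2
      rw [Finset.mem_union]
      rw [Finset.mem_coe] at hf'
      push_cast at hf'
      cases b
      · exact Or.inr hf'
      · exact Or.inl hf')
    (hKd _ fun f _ hf' => absurd hf' (Set.notMem_empty f)) (fun _ _ _ => rfl) (fun _ => zero_le_one)
    fun _ _ => Set.empty_disjoint _
  rw [av_const, mul_one, Fintype.prod_bool] at key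
  refine le_trans (le_of_eq ?_) key
  refine av_congr fun T _ => ?_
  rw [Fintype.prod_bool, mul_one]
  rfl

end marks

end

end Pool.Agent.SixB.DomX
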