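import Pool.Agent.Lib.SixB.CAEnvA
import Pool.Agent.Lib.SixB.CARatio

/-!
# 6BD block CA: the statements about single environments, and the inputs `NatIn`, `TiltIn`

`EnvLat P L g z0 χ c uN uP uX`: everything which blocks S3 (fields `..H`), S4 (fields `..C`) and S6
(fields `..L`, `..G`) prove about the heights of the environments. Only differences of two heights are used in the
estimates; `χ` is one fixed profile, `c` the exponent of the wall theorem.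
* filters: `lk ξ` (one moving index), `lk2 ξ η` (two moving indices), `lka ξ` (one moving index, uniformly in
  `α ∈ [0, 1]`).
* `natIn_of_lat`, `tiltIn_of_lat`: `EnvLat` implies `NatIn`, `TiltIn` (CAIn.lean).
-/

set_option autoImplicit false

namespace Pool.Agent.SixB

open Filter Topology
open DC (AE)

noncomputable section

/-- scale to infinity, two moving contour indices -/
def lk2 (ξ η : ℝ) : Filter (ℕ × ℤ × ℤ) :=
  comap (fun p : ℕ × ℤ × ℤ => p.1) atTop ⊓ (comap (fun p : ℕ × ℤ × ℤ => (p.2.1 : ℝ) / p.1) (𝓝 ξ) ⊓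
    comap (fun p : ℕ × ℤ × ℤ => (p.2.2 : ℝ) / p.1) (𝓝 η))

/-- scale to infinity, one moving contour index, uniformly in `α ∈ [0, 1]` -/
def lka (ξ : ℝ) : Filter ((ℕ × ℤ) × ℝ) := lk ξ ×ˢ 𝓟 (Set.Icc 0 1)

/-- **The inputs from the other blocks.** -/
structure EnvLat (P : Finset (ℤ × ℤ)) (L : ℕ) (g : ℤ → ℤ × ℤ) (z0 : ℂ) (χ : ℂ → ℝ) (c : ℝ)
    (uN : ℕ → ℤ → ℤ × ℤ → ℝ) (uP : ℕ → ℝ → ℤ → ℤ → ℤ × ℤ → ℝ)
    (uX : ℕ → ℝ → ℤ → ℤ → ℤ → ℤ → ℤ → ℤ × ℤ → ℝ) : Prop where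
  /-- natural environments, two bases: oscillation off the bases (interior, walls, corners) -/
  nnL : ∀ s s' : ℝ, Fl g s → Fl g s' → ∀ v ∈ Cl P, v ≠ gam g s → v ≠ gam g s' →
    LOsc (lk2 s s') (fun q => q.1) P (fun q w => uN q.1 q.2.1 w - uN q.1 q.2.2 w) v
  /-- growth at the first base -/
  nnG : ∀ s s' : ℝ, Fl g s → Fl g s' → ∃ C δ : ℝ, 0 < δ ∧ ∀ z ∈ Cl P, z ≠ gam g s → ‖z - gam g s‖ < δ →
    ∀ᶠ q in lk2 s s', |nz q.1 z0 (fun w => uN q.1 q.2.1 w - uN q.1 q.2.2 w) z| ≤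
      C + C * |Real.log ‖z - gam g s‖|
  nH : ∀ s : ℝ, Fl g s → WH (lk s) (fun p => p.1) (Om P) χ (fun p => uN p.1 p.2)
  nC : ∀ s : ℝ, Fl g s → ColB (lk s) (fun p => p.1) P (corners P ∪ {gam g s}) c (fun p => uN p.1 p.2)
  /-- two marks `a2`, `a2'` against the natural environment with the base `k` near `e` -/
  pnL : ∀ t₂ t₂' t₄ : ℝ, t₂ < t₂' → t₂' < t₄ → t₄ < t₂ + L → Fl g t₂ → Fl g t₂' → Fl g t₄ →
    ∀ v ∈ Cl P, v ≠ gam g t₂ → v ≠ gam g t₂' → v ≠ gam g t₄ →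
      LOsc (lka t₄) (fun q => q.1.1) P
        (fun q w => uP q.1.1 q.2 (ix q.1.1 t₂) (ix q.1.1 t₂') w - uN q.1.1 q.1.2 w) v
  pH : ∀ t₂ t₂' : ℝ, t₂ < t₂' → t₂' < t₂ + L → Fl g t₂ → Fl g t₂' → ∀ α ∈ Set.Ioo (0 : ℝ) 1,
    WH atTop (fun n : ℕ => n) (Om P) χ (fun n => uP n α (ix n t₂) (ix n t₂'))
  pC : ∀ t₂ t₂' : ℝ, t₂ < t₂' → t₂' < t₂ + L → Fl g t₂ → Fl g t₂' → ∀ α ∈ Set.Ioo (0 : ℝ) 1,
    ColB atTop (fun n : ℕ => n) P (corners P ∪ {gam g t₂, gam g t₂'}) c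
      (fun n => uP n α (ix n t₂) (ix n t₂'))
  /-- full environment against the natural one with the base `a1`: interior, walls, corners, and at `a1` -/
  xnL : ∀ t₁ t₂ t₂' t₃ t₄ : ℝ, Marks5 L g t₁ t₂ t₂' t₃ t₄ → ∀ v ∈ Cl P, v ≠ gam g t₂ → v ≠ gam g t₂' →
    v ≠ gam g t₃ → v ≠ gam g t₄ → LOsc (lka t₄) (fun q => q.1.1) P
      (fun q w => uX q.1.1 q.2 (ix q.1.1 t₁) (ix q.1.1 t₂) (ix q.1.1 t₂') (ix q.1.1 t₃) q.1.2 w -
        uN q.1.1 (ix q.1.1 t₁) w) v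
  /-- at `a3`, against the natural one with the base `a3` -/
  xmL : ∀ t₁ t₂ t₂' t₃ t₄ : ℝ, Marks5 L g t₁ t₂ t₂' t₃ t₄ → LOsc (lka t₄) (fun q => q.1.1) P
      (fun q w => uX q.1.1 q.2 (ix q.1.1 t₁) (ix q.1.1 t₂) (ix q.1.1 t₂') (ix q.1.1 t₃) q.1.2 w -
        uN q.1.1 (ix q.1.1 t₃) w) (gam g t₃)
  /-- at `a2`, `a2'`, against the environment with these two marks only -/
  xpL : ∀ t₁ t₂ t₂' t₃ t₄ : ℝ, Marks5 L g t₁ t₂ t₂' t₃ t₄ → ∀ v : ℂ, v = gam g t₂ ∨ v = gam g t₂' →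
    LOsc (lka t₄) (fun q => q.1.1) P
      (fun q w => uX q.1.1 q.2 (ix q.1.1 t₁) (ix q.1.1 t₂) (ix q.1.1 t₂') (ix q.1.1 t₃) q.1.2 w -
        uP q.1.1 q.2 (ix q.1.1 t₂) (ix q.1.1 t₂') w) v
  /-- growth at `e` -/
  xpG : ∀ t₁ t₂ t₂' t₃ t₄ : ℝ, Marks5 L g t₁ t₂ t₂' t₃ t₄ → ∀ α ∈ Set.Ioo (0 : ℝ) 1,
    ∃ C a δ : ℝ, 0 < a ∧ 0 < δ ∧ ∀ z ∈ Cl P, z ≠ gam g t₄ → ‖z - gam g t₄‖ < δ → ∀ᶠ p in lk t₄,
      |nz p.1 z0 (fun w => uX p.1 α (ix p.1 t₁) (ix p.1 t₂) (ix p.1 t₂') (ix p.1 t₃) p.2 w -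
        uP p.1 α (ix p.1 t₂) (ix p.1 t₂') w) z| ≤ C + C * ‖z - gam g t₄‖ ^ (a - 1)
  xH : ∀ t₁ t₂ t₂' t₃ t₄ : ℝ, Marks5 L g t₁ t₂ t₂' t₃ t₄ → ∀ α ∈ Set.Ioo (0 : ℝ) 1,
    WH (lk t₄) (fun p => p.1) (Om P) χ
      (fun p => uX p.1 α (ix p.1 t₁) (ix p.1 t₂) (ix p.1 t₂') (ix p.1 t₃) p.2)
  xC : ∀ t₁ t₂ t₂' t₃ t₄ : ℝ, Marks5 L g t₁ t₂ t₂' t₃ t₄ → ∀ α ∈ Set.Ioo (0 : ℝ) 1,
    ColB (lk t₄) (fun p => p.1) P (specX P g t₁ t₂ t₂' t₃ t₄) c
      (fun p => uX p.1 α (ix p.1 t₁) (ix p.1 t₂) (ix p.1 t₂') (ix p.1 t₃) p.2)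

/-! ## Filters -/

theorem lka_lk (ξ : ℝ) : Tendsto (fun q : (ℕ × ℤ) × ℝ => q.1) (lka ξ) (lk ξ) := tendsto_fst

theorem lka_n (ξ : ℝ) : Tendsto (fun q : (ℕ × ℤ) × ℝ => q.1.1) (lka ξ) atTop :=
  (lk_n ξ).comp (lka_lk ξ)

theorem tendsto_lka (ξ : ℝ) {α : ℝ} (hα : α ∈ Set.Icc (0 : ℝ) 1) :
    Tendsto (fun p : ℕ × ℤ => (p, α)) (lk ξ) (lka ξ) := by
  refine Tendsto.prodMk tendsto_id ?_
  rw [tendsto_principal]
  exact Eventually.of_forall fun _ => hα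

theorem tendsto_lk {ι : Type*} {l : Filter ι} {n : ι → ℕ} {k : ι → ℤ} {ξ : ℝ}
    (hn : Tendsto n l atTop) (hk : Tendsto (fun i => (k i : ℝ) / n i) l (𝓝 ξ)) :
    Tendsto (fun i => (n i, k i)) l (lk ξ) := by
  unfold lk
  rw [tendsto_inf, tendsto_comap_iff, tendsto_comap_iff]
  exact ⟨hn, hk⟩

theorem tendsto_lk2 {ι : Type*} {l : Filter ι} {n : ι → ℕ} {k k' : ι → ℤ} {ξ η : ℝ}
    (hn : Tendsto n l atTop) (hk : Tendsto (fun i => (k i : ℝ) / n i) l (𝓝 ξ))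
    (hk' : Tendsto (fun i => (k' i : ℝ) / n i) l (𝓝 η)) :
    Tendsto (fun i => (n i, k i, k' i)) l (lk2 ξ η) := by
  unfold lk2
  rw [tendsto_inf, tendsto_inf, tendsto_comap_iff, tendsto_comap_iff, tendsto_comap_iff]
  exact ⟨hn, hk, hk'⟩

theorem lk_ev {ξ : ℝ} {Q : ℕ × ℤ → Prop} (h : ∀ᶠ p in lk ξ, Q p) :
    ∃ δ : ℝ, 0 < δ ∧ ∀ᶠ n : ℕ in atTop, ∀ k : ℤ, |(k : ℝ) / n - ξ| < δ → Q (n, k) := by
  unfold lk at h
  obtain ⟨⟨N, δ⟩, ⟨-, hδ⟩, h1⟩ :=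
    (((atTop_basis (α := ℕ)).comap (fun p : ℕ × ℤ => p.1)).inf
      ((Metric.nhds_basis_ball (x := ξ)).comap (fun p : ℕ × ℤ => (p.2 : ℝ) / p.1))).eventually_iff.1 h
  refine ⟨δ, hδ, ?_⟩
  filter_upwards [eventually_ge_atTop N] with n hn k hk
  exact h1 ⟨hn, hk⟩

theorem ixn_div {ι : Type*} {l : Filter ι} {n : ι → ℕ} (hn : Tendsto n l atTop) (t : ℝ) :
    Tendsto (fun i => (ix (n i) t : ℝ) / n i) l (𝓝 t) := (ix_div t).comp hn

/-! ## Corners are not in flat discs -/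

theorem Flat.corner_far {P : Finset (ℤ × ℤ)} {p ν x : ℂ} {ρ : ℝ} (hf : Flat P p ν ρ)
    (hx : x ∈ corners P) : ρ ≤ ‖x - p‖ := by
  by_contra hlt
  rw [not_le] at hlt
  have h1 : 0 ≤ sp (x - p) ν := (hf.2 x hlt).1 hx.1
  rcases h1.lt_or_eq with h2 | h2
  · exact hx.2.1 (hf.mem_Om hlt h2)
  · exact hx.2.2 ν (hf.wall hlt h2.symm)

theorem ColK.drop_corners {ι : Type*} {l : Filter ι} {n : ι → ℕ} {P : Finset (ℤ × ℤ)} {X : Set ℂ}
    {c κ : ℝ} {D : ι → ℤ × ℤ → ℝ} (h : ColK l n P (corners P ∪ X) c κ D) : ColK l n P X c κ D :=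
  fun p ν ρ hρ hf hX => h p ν ρ hρ hf fun x hx => hx.elim (fun h1 => hf.corner_far h1) (hX x)

/-! ## Gluing of growth bounds -/

theorem growth_glue {ι : Type*} {l : Filter ι} {n : ι → ℕ} {P : Finset (ℤ × ℤ)}
    {D : ι → ℤ × ℤ → ℝ} {z0 x : ℂ} (hP : MPoly P) (hz0 : z0 ∈ Cl P) (hz0x : z0 ≠ x)
    (hosc : ∀ v ∈ Cl P, v ≠ x → LOsc l n P D v)
    (hloc : ∃ C a δ : ℝ, 0 < a ∧ 0 < δ ∧ ∀ z ∈ Cl P, z ≠ x → ‖z - x‖ < δ → ∀ᶠ i in l,
      |nz (n i) z0 (D i) z| ≤ C + C * ‖z - x‖ ^ (a - 1)) :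
    ∃ C a : ℝ, 0 < a ∧ ∀ z ∈ Cl P, z ≠ x → ∀ᶠ i in l,
      |nz (n i) z0 (D i) z| ≤ C + C * ‖z - x‖ ^ (a - 1) := by
  obtain ⟨C, a, δ, ha, hδ, h1⟩ := hloc
  have hK : Cl P \ Metric.ball x δ ⊆ Cl P \ {x} := by
    rintro z ⟨hz1, hz2⟩
    refine ⟨hz1, fun hh => hz2 ?_⟩
    rw [(hh : z = x)]
    exact Metric.mem_ball_self hδ
  obtain ⟨B, hB⟩ := bddK_of_losc (l := l) (n := n) (P := P) (D := D) (S := Cl P \ {x}) (z0 := z0)
    Set.sdiff_subset (DC.isPreconnected_Cl_diff hP.conn (Set.countable_singleton x))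
    (fun v hv => hosc v hv.1 hv.2) ⟨hz0, hz0x⟩ hK ((isCompact_Cl P).diff Metric.isOpen_ball)
  refine ⟨max C B, a, ha, fun z hz hzx => ?_⟩
  have h0 : 0 ≤ ‖z - x‖ ^ (a - 1) := by positivity
  by_cases hzδ : ‖z - x‖ < δ
  · filter_upwards [h1 z hz hzx hzδ] with i hi
    refine hi.trans (add_le_add (le_max_left _ _) (mul_le_mul_of_nonneg_right (le_max_left _ _) h0))
  · filter_upwards [hB] with i hi
    have h2 := hi z ⟨hz, by rw [Metric.mem_ball, dist_eq_norm]; exact hzδ⟩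
    have hB0 : 0 ≤ B := (abs_nonneg _).trans h2
    have h3 : 0 ≤ max C B * ‖z - x‖ ^ (a - 1) := mul_nonneg (hB0.trans (le_max_right _ _)) h0
    have h4 := le_max_right C B
    linarith

theorem abs_log_le {r : ℝ} (hr : 0 < r) : |Real.log r| ≤ 2 * r ^ (1 / 2 : ℝ) + 2 * r ^ ((1 / 2 : ℝ) - 1) := by
  have h1 : Real.log r = 2 * Real.log (r ^ (1 / 2 : ℝ)) := by
    rw [Real.log_rpow hr]; ring
  have h2 : Real.log (r ^ (1 / 2 : ℝ)) ≤ r ^ (1 / 2 : ℝ) := by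
    have := Real.log_le_sub_one_of_pos (x := r ^ (1 / 2 : ℝ)) (by positivity)
    linarith
  have h3 : -Real.log r = 2 * Real.log (r ^ ((1 / 2 : ℝ) - 1)) := by
    rw [Real.log_rpow hr]; ring
  have h4 : Real.log (r ^ ((1 / 2 : ℝ) - 1)) ≤ r ^ ((1 / 2 : ℝ) - 1) := by
    have := Real.log_le_sub_one_of_pos (x := r ^ ((1 / 2 : ℝ) - 1)) (by positivity)
    linarith
  have h5 : 0 < r ^ (1 / 2 : ℝ) := by positivity
  have h6 : 0 < r ^ ((1 / 2 : ℝ) - 1) := by positivity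
  rw [abs_le]
  constructor <;> linarith

/-- logarithmic growth is growth of order `‖z - x‖ ^ (1 / 2 - 1)` -/
theorem pow_of_log {C r δ : ℝ} (hr : 0 < r) (hrδ : r < δ) :
    C + C * |Real.log r| ≤ |C| * (1 + 2 * δ ^ (1 / 2 : ℝ) + 2) +
      |C| * (1 + 2 * δ ^ (1 / 2 : ℝ) + 2) * r ^ ((1 / 2 : ℝ) - 1) := by
  have hδ : 0 < δ := hr.trans hrδ
  have h1 := abs_log_le hr
  have h2 : r ^ (1 / 2 : ℝ) ≤ δ ^ (1 / 2 : ℝ) := Real.rpow_le_rpow hr.le hrδ.le (by norm_num)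
  have h3 : 0 < r ^ ((1 / 2 : ℝ) - 1) := by positivity
  have h4 : 0 < δ ^ (1 / 2 : ℝ) := by positivity
  have h5 : C + C * |Real.log r| ≤ |C| + |C| * (2 * δ ^ (1 / 2 : ℝ) + 2 * r ^ ((1 / 2 : ℝ) - 1)) := by
    have a1 : C * |Real.log r| ≤ |C| * |Real.log r| :=
      mul_le_mul_of_nonneg_right (le_abs_self C) (abs_nonneg _)
    have a2 : |C| * |Real.log r| ≤ |C| * (2 * δ ^ (1 / 2 : ℝ) + 2 * r ^ ((1 / 2 : ℝ) - 1)) :=
      mul_le_mul_of_nonneg_left (by linarith) (abs_nonneg C)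
    have a3 := le_abs_self C
    linarith
  have h6 : 0 ≤ |C| * (1 + 2 * δ ^ (1 / 2 : ℝ)) * r ^ ((1 / 2 : ℝ) - 1) := by positivity
  have h7 : 0 ≤ |C| * 2 := by positivity
  nlinarith

/-! ## The natural environments -/

section

variable {P : Finset (ℤ × ℤ)} {L : ℕ} {g : ℤ → ℤ × ℤ} {z0 : ℂ} {χ : ℂ → ℝ} {c : ℝ}
  {uN : ℕ → ℤ → ℤ × ℤ → ℝ} {uP : ℕ → ℝ → ℤ → ℤ → ℤ × ℤ → ℝ}
  {uX : ℕ → ℝ → ℤ → ℤ → ℤ → ℤ → ℤ → ℤ × ℤ → ℝ} {t₁ t₂ t₂' t₃ t₄ : ℝ}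

private theorem z0_ne (hG : GeoIn P L g) (hz0 : z0 ∈ Om P) (t : ℝ) : z0 ≠ gam g t := by
  rintro rfl
  exact hG.notMem t hz0

/-- two natural environments with moving bases -/
theorem nat_ah (hP : MPoly P) (hχ : Prof χ) (hc : 0 < c) (hz0 : z0 ∈ Om P)
    (E : EnvLat P L g z0 χ c uN uP uX) {ι : Type*} {l : Filter ι} {n : ι → ℕ} {k k' : ι → ℤ} {s s' : ℝ}
    (hn : Tendsto n l atTop) (hk : Tendsto (fun i => (k i : ℝ) / n i) l (𝓝 s))
    (hk' : Tendsto (fun i => (k' i : ℝ) / n i) l (𝓝 s')) (hs : Fl g s) (hs' : Fl g s') {X : Set ℂ}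
    (hX : X.Finite) (hXO : ∀ z ∈ X, z ∉ Om P) (h1 : gam g s ∈ X) (h2 : gam g s' ∈ X) :
    AH l P X (fun i => nz (n i) z0 (fun w => uN (n i) (k i) w - uN (n i) (k' i) w)) := by
  refine ah_of hP hn hχ hc hX hXO hz0 ?_ ?_ ?_
  · intro v hv
    have a := (E.nnL s s' hs hs' v hv.1 (fun h => hv.2 (h ▸ h1)) (fun h => hv.2 (h ▸ h2)))
    exact a.comp (tendsto_lk2 hn hk hk')
  · have a := (E.nH s hs).comp (φ := fun i => (n i, k i)) (tendsto_lk hn hk)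
    have b := (E.nH s' hs').comp (φ := fun i => (n i, k' i)) (tendsto_lk hn hk')
    exact a.sub hn hχ b
  · have a := ((E.nC s hs).colK.drop_corners.mono (Set.singleton_subset_iff.2 h1)).comp
      (φ := fun i => (n i, k i)) (tendsto_lk hn hk)
    have b := ((E.nC s' hs').colK.drop_corners.mono (Set.singleton_subset_iff.2 h2)).comp
      (φ := fun i => (n i, k' i)) (tendsto_lk hn hk')
    have d := a.sub b
    rw [sub_self] at d
    exact d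

/-- continuity in the base -/
theorem nat_mark (hP : MPoly P) (hχ : Prof χ) (hc : 0 < c) (hz0 : z0 ∈ Om P) (hG : GeoIn P L g)
    (hN2 : N2P P) (E : EnvLat P L g z0 χ c uN uP uX) (s : ℝ) (hs : Fl g s) (K : Set ℂ)
    (hK : K ⊆ Cl P \ {gam g s}) (hKc : IsCompact K) (ε : ℝ) (hε : 0 < ε) :
    ∃ δ : ℝ, 0 < δ ∧ ∀ᶠ n : ℕ in atTop, ∀ k : ℤ, |(k : ℝ) / n - s| < δ → ∀ z ∈ K, ∀ w ∈ K,
      |(uN n k (fl n z) - uN n (ix n s) (fl n z)) - (uN n k (fl n w) - uN n (ix n s) (fl n w))| ≤ ε := by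
  set D : ℕ × ℤ → ℤ × ℤ → ℝ := fun p w => uN p.1 p.2 w - uN p.1 (ix p.1 s) w with hD
  set x := gam g s with hx
  set X : Set ℂ := corners P ∪ {x} with hXdef
  have hXf : X.Finite := hG.fin.union (Set.finite_singleton x)
  have hXO : ∀ z ∈ X, z ∉ Om P := by
    intro z hz
    rcases hz with hz | hz
    · exact hz.2.1
    · rw [Set.mem_singleton_iff] at hz
      rw [hz]
      exact hG.notMem s
  have hxX : x ∈ X := Or.inr rfl
  have hφ : Tendsto (fun p : ℕ × ℤ => (p.1, p.2, ix p.1 s)) (lk s) (lk2 s s) :=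
    tendsto_lk2 (lk_n s) (lk_k s) (ixn_div (lk_n s) s)
  have hosc : ∀ v ∈ Cl P, v ≠ x → LOsc (lk s) (fun p : ℕ × ℤ => p.1) P D v := fun v hv hvx =>
    (E.nnL s s hs hs v hv hvx hvx).comp hφ
  have hah : AH (lk s) P X (fun p => nz p.1 z0 (D p)) :=
    nat_ah hP hχ hc hz0 E (lk_n s) (lk_k s) (ixn_div (lk_n s) s) hs hs hXf hXO hxX hxX
  have hae : AE (lk s) (fun p => nz p.1 z0 (D p)) (Cl P ∩ {x}ᶜ) :=
    ae_of_losc Set.inter_subset_left (fun v hv => hosc v hv.1 hv.2)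
  obtain ⟨C, a, ha, hgr⟩ := growth_glue (D := D) (n := fun p : ℕ × ℤ => p.1) (l := lk s) hP
    (interior_subset hz0) (z0_ne hG hz0 s) hosc (by
      obtain ⟨C, δ, hδ, h1⟩ := E.nnG s s hs hs
      refine ⟨|C| * (1 + 2 * δ ^ (1 / 2 : ℝ) + 2), 1 / 2, δ, by norm_num, hδ, fun z hz hzx hzδ => ?_⟩
      filter_upwards [hφ.eventually (h1 z hz hzx hzδ)] with p hp
      exact hp.trans (pow_of_log (norm_pos_iff.2 (sub_ne_zero.2 hzx)) hzδ))
  have hca := ca1 hXf hXO hxX (fun U h1 h2 h3 h4 => hN2 X x C a hXf hXO Set.subset_union_left hxX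
    (hG.wall s hs) ha U h1 h2 h3 h4) hah hae hgr
  -- uniformly on `K`
  have hev : ∀ᶠ p in lk s, ∀ z ∈ K, ∀ w ∈ K, |D p (fl p.1 z) - D p (fl p.1 w)| ≤ ε := by
    obtain ⟨δ, hδ, h1⟩ := hae K hK hKc (ε / 4) (by positivity)
    obtain ⟨T, hT, hcov⟩ := hKc.elim_nhds_subcover (fun v => Metric.ball v δ)
      (fun v _ => Metric.ball_mem_nhds v hδ)
    have h2 : ∀ᶠ p in lk s, ∀ v ∈ T, ∀ v' ∈ T,
        |nz p.1 z0 (D p) v - nz p.1 z0 (D p) v'| ≤ ε / 4 := by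
      rw [Filter.eventually_all_finset]
      intro v hv
      rw [Filter.eventually_all_finset]
      intro v' hv'
      have h3 := hca v (hK (hT v hv)) v' (hK (hT v' hv'))
      have h4 := (h3.abs).eventually (gt_mem_nhds (by rw [abs_zero]; positivity : |(0 : ℝ)| < ε / 4))
      filter_upwards [h4] with p hp
      exact hp.le
    filter_upwards [h1, h2] with p h1 h2 z hz w hw
    obtain ⟨v, hv, hzv⟩ := Set.mem_iUnion₂.1 (hcov hz)
    obtain ⟨v', hv', hwv'⟩ := Set.mem_iUnion₂.1 (hcov hw)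
    have a1 := h1 z hz v (hT v hv) hzv
    have a2 := h1 w hw v' (hT v' hv') hwv'
    have a3 := h2 v hv v' hv'
    rw [Real.dist_eq] at a1 a2
    have e : D p (fl p.1 z) - D p (fl p.1 w) = nz p.1 z0 (D p) z - nz p.1 z0 (D p) w := by
      unfold nz; ring
    rw [e]
    rw [abs_lt] at a1 a2
    rw [abs_le] at a3 ⊢
    constructor <;> linarith [a1.1, a1.2, a2.1, a2.2, a3.1, a3.2]
  obtain ⟨δ, hδ, h1⟩ := lk_ev hev
  exact ⟨δ, hδ, h1⟩

theorem natIn_of_lat (hP : MPoly P) (hχ : Prof χ) (hc : 0 < c) (hz0 : z0 ∈ Om P) (hG : GeoIn P L g)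
    (hN2 : N2P P) (E : EnvLat P L g z0 χ c uN uP uX) : NatIn P g z0 uN where
  ah := by
    intro s s' hs hs' _
    refine nat_ah hP hχ hc hz0 E tendsto_id (ix_div s) (ix_div s') hs hs' (by simp) ?_ (by simp) (by simp)
    intro z hz
    simp only [Set.mem_insert_iff, Set.mem_singleton_iff] at hz
    rcases hz with rfl | rfl
    · exact hG.notMem s
    · exact hG.notMem s'
  growth := by
    intro s s' hs hs' hne
    have hφ : Tendsto (fun n : ℕ => (n, ix n s, ix n s')) atTop (lk2 s s') :=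
      tendsto_lk2 tendsto_id (ix_div s) (ix_div s')
    have hφ' : Tendsto (fun n : ℕ => (n, ix n s', ix n s)) atTop (lk2 s' s) :=
      tendsto_lk2 tendsto_id (ix_div s') (ix_div s)
    obtain ⟨C₁, δ₁, hδ₁, h1⟩ := E.nnG s s' hs hs'
    obtain ⟨C₂, δ₂, hδ₂, h2⟩ := E.nnG s' s hs' hs
    set S : Set ℂ := Cl P \ {gam g s, gam g s'} with hS
    have hSC : S ⊆ Cl P := Set.sdiff_subset
    have hosc : ∀ v ∈ S, LOsc atTop (fun n : ℕ => n) P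
        (fun n w => uN n (ix n s) w - uN n (ix n s') w) v := by
      intro v hv
      have h3 : v ≠ gam g s ∧ v ≠ gam g s' := by
        have := hv.2
        simp only [Set.mem_insert_iff, Set.mem_singleton_iff, not_or] at this
        exact this
      exact (E.nnL s s' hs hs' v hv.1 h3.1 h3.2).comp hφ
    have hz0S : z0 ∈ S := by
      refine ⟨interior_subset hz0, ?_⟩
      simp only [Set.mem_insert_iff, Set.mem_singleton_iff, not_or]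
      exact ⟨z0_ne hG hz0 s, z0_ne hG hz0 s'⟩
    have hK : Cl P \ (Metric.ball (gam g s) δ₁ ∪ Metric.ball (gam g s') δ₂) ⊆ S := by
      rintro z ⟨hz1, hz2⟩
      refine ⟨hz1, fun hh => hz2 ?_⟩
      simp only [Set.mem_insert_iff, Set.mem_singleton_iff] at hh
      rcases hh with rfl | rfl
      · exact Or.inl (Metric.mem_ball_self hδ₁)
      · exact Or.inr (Metric.mem_ball_self hδ₂)
    obtain ⟨B, hB⟩ := bddK_of_losc (z0 := z0) hSC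
      (DC.isPreconnected_Cl_diff hP.conn (Set.Countable.insert _ (Set.countable_singleton _))) hosc hz0S hK
      ((isCompact_Cl P).diff (Metric.isOpen_ball.union Metric.isOpen_ball))
    refine ⟨max (max C₁ C₂) (max B 0), fun z hz hz1 hz2 => ?_⟩
    set M := max (max C₁ C₂) (max B 0) with hM
    have hM0 : 0 ≤ M := (le_max_right B 0).trans (le_max_right _ _)
    have hMB : B ≤ M := (le_max_left B 0).trans (le_max_right _ _)
    have hM1 : C₁ ≤ M := (le_max_left C₁ C₂).trans (le_max_left _ _)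
    have hM2 : C₂ ≤ M := (le_max_right C₁ C₂).trans (le_max_left _ _)
    have l1 : 0 ≤ |Real.log ‖z - gam g s‖| := abs_nonneg _
    have l2 : 0 ≤ |Real.log ‖z - gam g s'‖| := abs_nonneg _
    have m1 := mul_nonneg hM0 l1
    have m2 := mul_nonneg hM0 l2
    by_cases hA : ‖z - gam g s‖ < δ₁
    · filter_upwards [hφ.eventually (h1 z hz hz1 hA)] with n hn
      have := mul_le_mul_of_nonneg_right hM1 l1
      linarith
    by_cases hA' : ‖z - gam g s'‖ < δ₂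
    · filter_upwards [hφ'.eventually (h2 z hz hz2 hA')] with n hn
      have := mul_le_mul_of_nonneg_right hM2 l2
      have e : nz n z0 (fun v => uN n (ix n s) v - uN n (ix n s') v) z =
          -nz n z0 (fun w => uN n (ix n s') w - uN n (ix n s) w) z := by
        unfold nz; ring
      rw [e, abs_neg]
      linarith
    · filter_upwards [hB] with n hn
      have := hn z ⟨hz, by
        rintro (h | h)
        · rw [Metric.mem_ball, dist_eq_norm] at h; exact hA h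
        · rw [Metric.mem_ball, dist_eq_norm] at h; exact hA' h⟩
      linarith
  mark := fun s hs K hK hKc ε hε => nat_mark hP hχ hc hz0 hG hN2 E s hs K hK hKc ε hε

/-! ## The full environment -/

/-- oscillation of `dX`, uniformly in `α` -/
theorem dX_losc (hG : GeoIn P L g) (E : EnvLat P L g z0 χ c uN uP uX) (hm : Marks5 L g t₁ t₂ t₂' t₃ t₄) :
    ∀ v ∈ Cl P, v ≠ gam g t₄ → LOsc (lka t₄) (fun q => q.1.1) P
      (fun q => dX uN uP uX q.1.1 q.2 (ix q.1.1 t₁) (ix q.1.1 t₂) (ix q.1.1 t₂') (ix q.1.1 t₃) q.1.2) v := by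
  intro v hv hv4
  have hn := lka_n t₄
  have hk4 : Tendsto (fun q : (ℕ × ℤ) × ℝ => (q.1.2 : ℝ) / q.1.1) (lka t₄) (𝓝 t₄) :=
    (lk_k t₄).comp (lka_lk t₄)
  have h1 := hm.h1
  have h2 := hm.h2
  have h3 := hm.h3
  have h4 := hm.h4
  have h5 := hm.h5
  have nn1 : v ≠ gam g t₁ → LOsc (lka t₄) (fun q => q.1.1) P
      (fun q w => uN q.1.1 (ix q.1.1 t₁) w - uN q.1.1 q.1.2 w) v := by
    intro h
    have a := (E.nnL t₁ t₄ hm.f1 hm.f4 v hv h hv4).comp (φ := fun q : (ℕ × ℤ) × ℝ =>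
      (q.1.1, ix q.1.1 t₁, q.1.2)) (tendsto_lk2 hn (ixn_div hn t₁) hk4)
    exact a
  have nn3 : v ≠ gam g t₃ → LOsc (lka t₄) (fun q => q.1.1) P
      (fun q w => uN q.1.1 (ix q.1.1 t₃) w - uN q.1.1 q.1.2 w) v := by
    intro h
    have a := (E.nnL t₃ t₄ hm.f3 hm.f4 v hv h hv4).comp (φ := fun q : (ℕ × ℤ) × ℝ =>
      (q.1.1, ix q.1.1 t₃, q.1.2)) (tendsto_lk2 hn (ixn_div hn t₃) hk4)
    exact a
  by_cases hv2 : v = gam g t₂ ∨ v = gam g t₂'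
  · have hv1 : v ≠ gam g t₁ := by
      rcases hv2 with rfl | rfl
      · exact (gam_ne hG h1 (by linarith)).symm
      · exact (gam_ne hG (by linarith) (by linarith)).symm
    have hv3 : v ≠ gam g t₃ := by
      rcases hv2 with rfl | rfl
      · exact gam_ne hG (by linarith) (by linarith)
      · exact gam_ne hG h3 (by linarith)
    have b := ((E.xpL _ _ _ _ _ hm v hv2).sub (nn1 hv1)).sub (nn3 hv3)
    convert b using 3 with q w
    unfold dX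
    ring
  · rw [not_or] at hv2
    have p4 := E.pnL t₂ t₂' t₄ h2 (h3.trans h4) (by linarith) hm.f2 hm.f2' hm.f4 v hv hv2.1 hv2.2 hv4
    by_cases hv3 : v = gam g t₃
    · have a := E.xmL _ _ _ _ _ hm
      rw [← hv3] at a
      have hv1 : v ≠ gam g t₁ := by
        rw [hv3]
        exact (gam_ne hG (by linarith) (by linarith)).symm
      have b := (a.sub p4).sub (nn1 hv1)
      convert b using 3 with q w
      unfold dX
      ring
    · have b := ((E.xnL _ _ _ _ _ hm v hv hv2.1 hv2.2 hv3 hv4).sub p4).sub (nn3 hv3)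
      convert b using 3 with q w
      unfold dX
      ring

theorem dX_ah (hP : MPoly P) (hχ : Prof χ) (hc : 0 < c) (hz0 : z0 ∈ Om P) (hG : GeoIn P L g)
    (E : EnvLat P L g z0 χ c uN uP uX) (hm : Marks5 L g t₁ t₂ t₂' t₃ t₄) {α : ℝ}
    (hα : α ∈ Set.Ioo (0 : ℝ) 1) :
    AH (lk t₄) P (specX P g t₁ t₂ t₂' t₃ t₄) fun p =>
      nz p.1 z0 (dX uN uP uX p.1 α (ix p.1 t₁) (ix p.1 t₂) (ix p.1 t₂') (ix p.1 t₃) p.2) := by
  have hn := lk_n t₄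
  have hp1 : t₂' < t₂ + L := by linarith [hm.h1, hm.h2, hm.h3, hm.h4, hm.h5]
  refine ah_of (c := c) (χ := χ) hP hn hχ hc (specX_finite hG) (specX_notMem hG) hz0 ?_ ?_ ?_
  · intro v hv
    have a := (dX_losc hG E hm v hv.1 (fun h => hv.2 (h ▸ mem_specX4))).comp
      (φ := fun p : ℕ × ℤ => (p, α)) (tendsto_lka t₄ ⟨hα.1.le, hα.2.le⟩)
    exact a
  · have x := E.xH _ _ _ _ _ hm α hα
    have b := (E.pH t₂ t₂' hm.h2 hp1 hm.f2 hm.f2' α hα).comp (φ := fun p : ℕ × ℤ => p.1) hn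
    have i := (E.nH t₁ hm.f1).comp (φ := fun p : ℕ × ℤ => (p.1, ix p.1 t₁)) (tendsto_lk hn (ixn_div hn t₁))
    have m := (E.nH t₃ hm.f3).comp (φ := fun p : ℕ × ℤ => (p.1, ix p.1 t₃)) (tendsto_lk hn (ixn_div hn t₃))
    have k := E.nH t₄ hm.f4
    have d := ((((x.sub hn hχ b).sub hn hχ i).sub hn hχ m).add hn hχ k).add hn hχ k
    convert d using 3 with p w
    unfold dX
    ring
  · have x := (E.xC _ _ _ _ _ hm α hα).colK
    have b := ((E.pC t₂ t₂' hm.h2 hp1 hm.f2 hm.f2' α hα).colK.drop_corners.comp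
      (φ := fun p : ℕ × ℤ => p.1) hn).mono (X' := specX P g t₁ t₂ t₂' t₃ t₄) (by
        intro z hz
        simp only [Set.mem_insert_iff, Set.mem_singleton_iff] at hz
        right
        rcases hz with rfl | rfl <;> simp)
    have i := ((E.nC t₁ hm.f1).colK.drop_corners.comp (φ := fun p : ℕ × ℤ => (p.1, ix p.1 t₁))
      (tendsto_lk hn (ixn_div hn t₁))).mono (X' := specX P g t₁ t₂ t₂' t₃ t₄) (by
        intro z hz
        rw [Set.mem_singleton_iff] at hz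
        right
        rw [hz]; simp)
    have m := ((E.nC t₃ hm.f3).colK.drop_corners.comp (φ := fun p : ℕ × ℤ => (p.1, ix p.1 t₃))
      (tendsto_lk hn (ixn_div hn t₃))).mono (X' := specX P g t₁ t₂ t₂' t₃ t₄) (by
        intro z hz
        rw [Set.mem_singleton_iff] at hz
        right
        rw [hz]; simp)
    have k := (E.nC t₄ hm.f4).colK.drop_corners.mono (X' := specX P g t₁ t₂ t₂' t₃ t₄) (by
        intro z hz
        rw [Set.mem_singleton_iff] at hz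
        rw [hz]
        exact mem_specX4)
    have d := ((((x.sub b).sub i).sub m).add k).add k
    have e0 : (1 : ℝ) - 1 - 1 - 1 + 1 + 1 = 0 := by norm_num
    rw [e0] at d
    convert d using 3 with p w
    unfold dX
    ring

theorem dX_growth (hP : MPoly P) (hz0 : z0 ∈ Om P) (hG : GeoIn P L g)
    (E : EnvLat P L g z0 χ c uN uP uX) (hm : Marks5 L g t₁ t₂ t₂' t₃ t₄) {α : ℝ}
    (hα : α ∈ Set.Ioo (0 : ℝ) 1) :
    ∃ C a : ℝ, 0 < a ∧ ∀ z ∈ Cl P, z ≠ gam g t₄ → ∀ᶠ p : ℕ × ℤ in lk t₄,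
      |nz p.1 z0 (dX uN uP uX p.1 α (ix p.1 t₁) (ix p.1 t₂) (ix p.1 t₂') (ix p.1 t₃) p.2) z| ≤
        C + C * ‖z - gam g t₄‖ ^ (a - 1) := by
  have hn := lk_n t₄
  refine growth_glue (D := fun p : ℕ × ℤ => dX uN uP uX p.1 α (ix p.1 t₁) (ix p.1 t₂) (ix p.1 t₂')
    (ix p.1 t₃) p.2) (n := fun p : ℕ × ℤ => p.1) hP (interior_subset hz0) (z0_ne hG hz0 t₄) ?_ ?_
  · intro v hv hv4
    have a := (dX_losc hG E hm v hv hv4).comp
      (φ := fun p : ℕ × ℤ => (p, α)) (tendsto_lka t₄ ⟨hα.1.le, hα.2.le⟩)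
    exact a
  · obtain ⟨C, a, δ, ha, hδ, h0⟩ := E.xpG _ _ _ _ _ hm α hα
    obtain ⟨C₁, δ₁, hδ₁, h1⟩ := E.nnG t₄ t₁ hm.f4 hm.f1
    obtain ⟨C₃, δ₃, hδ₃, h3⟩ := E.nnG t₄ t₃ hm.f4 hm.f3
    have hφ₁ : Tendsto (fun p : ℕ × ℤ => (p.1, p.2, ix p.1 t₁)) (lk t₄) (lk2 t₄ t₁) :=
      tendsto_lk2 hn (lk_k t₄) (ixn_div hn t₁)
    have hφ₃ : Tendsto (fun p : ℕ × ℤ => (p.1, p.2, ix p.1 t₃)) (lk t₄) (lk2 t₄ t₃) :=
      tendsto_lk2 hn (lk_k t₄) (ixn_div hn t₃)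
    set B₁ : ℝ := |C₁| * (1 + 2 * δ₁ ^ (1 / 2 : ℝ) + 2) with hB₁
    set B₃ : ℝ := |C₃| * (1 + 2 * δ₃ ^ (1 / 2 : ℝ) + 2) with hB₃
    have hB₁0 : 0 ≤ B₁ := by positivity
    have hB₃0 : 0 ≤ B₃ := by positivity
    refine ⟨|C| + B₁ + B₃, min a (1 / 2), min (min δ 1) (min δ₁ δ₃), lt_min ha (by norm_num),
      by positivity, fun z hz hz4 hzδ => ?_⟩
    have g0 : ‖z - gam g t₄‖ < δ := hzδ.trans_le ((min_le_left _ _).trans (min_le_left _ _))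
    have g1 : ‖z - gam g t₄‖ < 1 := hzδ.trans_le ((min_le_left _ _).trans (min_le_right _ _))
    have g2 : ‖z - gam g t₄‖ < δ₁ := hzδ.trans_le ((min_le_right _ _).trans (min_le_left _ _))
    have g3 : ‖z - gam g t₄‖ < δ₃ := hzδ.trans_le ((min_le_right _ _).trans (min_le_right _ _))
    have hr : 0 < ‖z - gam g t₄‖ := norm_pos_iff.2 (sub_ne_zero.2 hz4)
    filter_upwards [h0 z hz hz4 g0, hφ₁.eventually (h1 z hz hz4 g2), hφ₃.eventually (h3 z hz hz4 g3)]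
      with p e0 e1 e3
    set r := ‖z - gam g t₄‖ with hrdef
    have q1 := e1.trans (pow_of_log hr g2)
    have q3 := e3.trans (pow_of_log hr g3)
    rw [← hB₁] at q1
    rw [← hB₃] at q3
    set y := r ^ (min a (1 / 2) - 1) with hy
    have y0 : 0 ≤ y := by positivity
    have ya : r ^ (a - 1) ≤ y :=
      Real.rpow_le_rpow_of_exponent_ge hr g1.le (by linarith [min_le_left a (1 / 2 : ℝ)])
    have yh : r ^ ((1 / 2 : ℝ) - 1) ≤ y :=
      Real.rpow_le_rpow_of_exponent_ge hr g1.le (by linarith [min_le_right a (1 / 2 : ℝ)])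
    have ra : 0 ≤ r ^ (a - 1) := by positivity
    have q0 : C + C * r ^ (a - 1) ≤ |C| + |C| * y := by
      have a1 : C * r ^ (a - 1) ≤ |C| * r ^ (a - 1) := mul_le_mul_of_nonneg_right (le_abs_self C) ra
      have a2 : |C| * r ^ (a - 1) ≤ |C| * y := mul_le_mul_of_nonneg_left ya (abs_nonneg C)
      have a3 := le_abs_self C
      linarith
    have q1' : B₁ * r ^ ((1 / 2 : ℝ) - 1) ≤ B₁ * y := mul_le_mul_of_nonneg_left yh hB₁0
    have q3' : B₃ * r ^ ((1 / 2 : ℝ) - 1) ≤ B₃ * y := mul_le_mul_of_nonneg_left yh hB₃0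
    have e : nz p.1 z0 (dX uN uP uX p.1 α (ix p.1 t₁) (ix p.1 t₂) (ix p.1 t₂') (ix p.1 t₃) p.2) z =
        nz p.1 z0 (fun w => uX p.1 α (ix p.1 t₁) (ix p.1 t₂) (ix p.1 t₂') (ix p.1 t₃) p.2 w -
          uP p.1 α (ix p.1 t₂) (ix p.1 t₂') w) z +
        (nz p.1 z0 (fun w => uN p.1 p.2 w - uN p.1 (ix p.1 t₁) w) z +
        nz p.1 z0 (fun w => uN p.1 p.2 w - uN p.1 (ix p.1 t₃) w) z) := by
      unfold nz dX
      ring
    rw [e]
    have s1 := abs_add_le (nz p.1 z0 (fun w => uX p.1 α (ix p.1 t₁) (ix p.1 t₂) (ix p.1 t₂')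
        (ix p.1 t₃) p.2 w - uP p.1 α (ix p.1 t₂) (ix p.1 t₂') w) z)
        (nz p.1 z0 (fun w => uN p.1 p.2 w - uN p.1 (ix p.1 t₁) w) z +
        nz p.1 z0 (fun w => uN p.1 p.2 w - uN p.1 (ix p.1 t₃) w) z)
    have s2 := abs_add_le (nz p.1 z0 (fun w => uN p.1 p.2 w - uN p.1 (ix p.1 t₁) w) z)
        (nz p.1 z0 (fun w => uN p.1 p.2 w - uN p.1 (ix p.1 t₃) w) z)
    have s3 : (|C| + B₁ + B₃) + (|C| + B₁ + B₃) * y =
      (|C| + |C| * y) + ((B₁ + B₁ * y) + (B₃ + B₃ * y)) := by ring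
    rw [s3]
    linarith

theorem dX_dom (hP : MPoly P) (hz0 : z0 ∈ Om P) (hG : GeoIn P L g)
    (E : EnvLat P L g z0 χ c uN uP uX) (hm : Marks5 L g t₁ t₂ t₂' t₃ t₄) :
    ∃ M : ℝ, ∀ᶠ p : ℕ × ℤ in lk t₄, ∀ α ∈ Set.Icc (0 : ℝ) 1,
      |dX uN uP uX p.1 α (ix p.1 t₁) (ix p.1 t₂) (ix p.1 t₂') (ix p.1 t₃) p.2 (gr p.1 g (ix p.1 t₂')) -
        dX uN uP uX p.1 α (ix p.1 t₁) (ix p.1 t₂) (ix p.1 t₂') (ix p.1 t₃) p.2
          (gr p.1 g (ix p.1 t₂))| ≤ M := by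
  have h1 := hm.h1
  have h2 := hm.h2
  have h3 := hm.h3
  have h4 := hm.h4
  have h5 := hm.h5
  set D : (ℕ × ℤ) × ℝ → ℤ × ℤ → ℝ := fun q =>
    dX uN uP uX q.1.1 q.2 (ix q.1.1 t₁) (ix q.1.1 t₂) (ix q.1.1 t₂') (ix q.1.1 t₃) q.1.2 with hD
  have hne : ∀ t : ℝ, gam g t ≠ gam g t₄ → ∃ C : ℝ, ∀ᶠ q in lka t₄,
      |nz q.1.1 z0 (D q) (gam g ((ix q.1.1 t : ℝ) / q.1.1))| ≤ C := by
    intro t ht
    have hr : 0 < ‖gam g t - gam g t₄‖ / 2 := by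
      have := norm_pos_iff.2 (sub_ne_zero.2 ht)
      positivity
    set r := ‖gam g t - gam g t₄‖ / 2 with hrdef
    have hK : Cl P ∩ Metric.closedBall (gam g t) r ⊆ Cl P \ {gam g t₄} := by
      rintro z ⟨hz1, hz2⟩
      refine ⟨hz1, fun hh => ?_⟩
      rw [Set.mem_singleton_iff] at hh
      rw [Metric.mem_closedBall, dist_comm, dist_eq_norm, hh] at hz2
      linarith
    obtain ⟨C, hC⟩ := bddK_of_losc (l := lka t₄) (n := fun q => q.1.1) (P := P) (D := D)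
      (S := Cl P \ {gam g t₄}) (z0 := z0) Set.sdiff_subset
      (DC.isPreconnected_Cl_diff hP.conn (Set.countable_singleton _))
      (fun v hv => dX_losc hG E hm v hv.1 hv.2) ⟨interior_subset hz0, z0_ne hG hz0 t₄⟩ hK
      ((isCompact_Cl P).inter_right Metric.isClosed_closedBall)
    refine ⟨C, ?_⟩
    have hmv : Tendsto (fun q : (ℕ × ℤ) × ℝ => gam g ((ix q.1.1 t : ℝ) / q.1.1)) (lka t₄)
        (𝓝 (gam g t)) := (hG.cont.tendsto t).comp (ixn_div (lka_n t₄) t)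
    filter_upwards [hC, hmv.eventually (Metric.closedBall_mem_nhds _ hr)] with q hq hq2
    exact hq _ ⟨hG.mem _, hq2⟩
  obtain ⟨C, hC⟩ := hne t₂ (gam_ne hG (by linarith) (by linarith))
  obtain ⟨C', hC'⟩ := hne t₂' (gam_ne hG (by linarith) (by linarith))
  refine ⟨C' + C, ?_⟩
  have hev : ∀ᶠ q in lka t₄, |D q (gr q.1.1 g (ix q.1.1 t₂')) - D q (gr q.1.1 g (ix q.1.1 t₂))| ≤ C' + C := by
    filter_upwards [hC, hC', (lka_n t₄).eventually (eventually_gt_atTop 0)] with q a b hq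
    unfold nz at a b
    rw [hG.flgr q.1.1 _ hq] at a b
    have e : D q (gr q.1.1 g (ix q.1.1 t₂')) - D q (gr q.1.1 g (ix q.1.1 t₂)) =
      (D q (gr q.1.1 g (ix q.1.1 t₂')) - D q (fl q.1.1 z0)) -
        (D q (gr q.1.1 g (ix q.1.1 t₂)) - D q (fl q.1.1 z0)) := by ring
    rw [e]
    refine (abs_sub _ _).trans (add_le_add b a)
  exact eventually_prod_principal_iff.1 hev

theorem tiltIn_of_lat (hP : MPoly P) (hχ : Prof χ) (hc : 0 < c) (hz0 : z0 ∈ Om P) (hG : GeoIn P L g)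
    (E : EnvLat P L g z0 χ c uN uP uX) : TiltIn P L g z0 uN uP uX where
  ah := fun _ _ _ _ _ hm _ hα => dX_ah hP hχ hc hz0 hG E hm hα
  loc := by
    intro t₁ t₂ t₂' t₃ t₄ hm α hα v hv hv4 ε hε
    have hvC : v ∈ Cl P := by
      rcases hv with hv | hv
      · exact hv.1
      · simp only [Set.mem_insert_iff, Set.mem_singleton_iff] at hv
        rcases hv with rfl | rfl | rfl | rfl | rfl <;> exact hG.mem _
    have a := (dX_losc hG E hm v hvC hv4).comp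
      (φ := fun p : ℕ × ℤ => (p, α)) (tendsto_lka t₄ ⟨hα.1.le, hα.2.le⟩)
    exact a ε hε
  growth := fun _ _ _ _ _ hm _ hα => dX_growth hP hz0 hG E hm hα
  dom := fun _ _ _ _ _ hm => dX_dom hP hz0 hG E hm

end

end

end Pool.Agent.SixB
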