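import Pool.Agent.Lib.SixB.CADomUp
import Pool.Agent.Lib.SixB.CAGeo
import Pool.Agent.Lib.SixB.CAEqui
import Pool.Agent.Lib.SixB.CAEnvIn

/-!
# 6BD block CA, domination: the results for the environments of a marked polygon

* `resX_of : DetX → LowX → ResX`, `majX_of_res : ResX → MajX`, `majP_of : DetP → LowP → MajP`, `majN : MajN`.
* `majX_at`, `majP_at`: `GG.Maj` near a point of the plane different from the marks and from `e`.
-/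

set_option autoImplicit false

namespace Pool.Agent.SixB.DomX

open Filter Topology Pool.Agent.Perc Pool.Agent.Perc.Q Pool.Agent.PercD Pool.Agent.PercN Pool.Agent.Perc6
  Pool.Agent.SixB.Tilt Relation

noncomputable section

/-! ### Boxes and marks -/

theorem disj_BR {z v : VZ} {s r : ℤ} (h : s + r ≤ GG.dd z v) : Disjoint (BR z s) (BR v r) := by
  rw [Finset.disjoint_left]
  intro f hf hf'
  rw [mem_BR] at hf hf'
  unfold GG.dd at h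
  rcases le_max_iff.1 h with h1 | h1 <;> rw [le_abs] at h1 <;> omega

theorem dd_comm (z v : VZ) : GG.dd z v = GG.dd v z := by
  unfold GG.dd
  rw [abs_sub_comm z.1 v.1, abs_sub_comm z.2 v.2]

theorem dd_nonneg (z v : VZ) : 0 ≤ GG.dd z v := le_max_of_le_left (abs_nonneg _)

theorem dd_tri (z v w : VZ) : GG.dd z w ≤ GG.dd z v + GG.dd v w := by
  unfold GG.dd
  have h1 := abs_sub_le z.1 v.1 w.1
  have h2 := abs_sub_le z.2 v.2 w.2
  have h3 := le_max_left |z.1 - v.1| |z.2 - v.2|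
  have h4 := le_max_right |z.1 - v.1| |z.2 - v.2|
  have h5 := le_max_left |v.1 - w.1| |v.2 - w.2|
  have h6 := le_max_right |v.1 - w.1| |v.2 - w.2|
  exact max_le (by linarith) (by linarith)

theorem gam_ne' {P : Finset (ℤ × ℤ)} {L : ℕ} {g : ℤ → ℤ × ℤ} (hc : Cont P L g) {s t : ℝ} (h1 : s < t)
    (h2 : t < s + L) : gam g s ≠ gam g t := by
  intro h
  obtain ⟨m, hm⟩ := CARf.gam_inj hc h
  have hL : (0 : ℝ) < L := by exact_mod_cast hc.pos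
  have h3 : (m : ℝ) * L < 0 * L := by linarith
  have h4 : (-1 : ℝ) * L < m * L := by linarith
  have h5 : (m : ℝ) < 0 := lt_of_mul_lt_mul_right h3 hL.le
  have h6 : (-1 : ℝ) < m := lt_of_mul_lt_mul_right h4 hL.le
  have h7 : m < 0 := by exact_mod_cast h5
  have h8 : -1 < m := by exact_mod_cast h6
  omega

theorem mkOk_near {P : Finset (ℤ × ℤ)} {L : ℕ} {g : ℤ → ℤ × ℤ} (hc : Cont P L g) {t : ℝ} (ht : Fl g t) :
    ∃ δ : ℝ, 0 < δ ∧ ∀ n : ℕ, 0 < n → ∀ k : ℤ, |(k : ℝ) / n - t| < δ → ∀ R : ℤ, 0 ≤ R → (R : ℝ) ≤ δ * n →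
      MkOk P g n k R := by
  obtain ⟨δ, hδ, h⟩ := DomMk.mark_near hc ht
  refine ⟨δ, hδ, fun n hn k hk R hR0 hR => ?_⟩
  obtain ⟨h1, h2, h3, h4⟩ := h n hn k hk R hR0 hR
  exact ⟨h1, h2, h3, h4⟩

theorem ix_near {ι : Type*} {l : Filter ι} {n : ι → ℕ} (hn : Tendsto n l atTop) (t : ℝ) {δ : ℝ} (hδ : 0 < δ) :
    ∀ᶠ i in l, |(ix (n i) t : ℝ) / n i - t| < δ := by
  have h := ((ix_div t).comp hn).eventually (Metric.ball_mem_nhds t hδ)
  filter_upwards [h] with i hi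
  rw [← Real.dist_eq]
  exact hi

theorem lk_near {ξ δ : ℝ} (hδ : 0 < δ) : ∀ᶠ p : ℕ × ℤ in lk ξ, |(p.2 : ℝ) / p.1 - ξ| < δ := by
  have h := (lk_k ξ).eventually (Metric.ball_mem_nhds ξ hδ)
  filter_upwards [h] with p hp
  rw [← Real.dist_eq]
  exact hp

theorem lk_pos (ξ : ℝ) (N : ℕ) : ∀ᶠ p : ℕ × ℤ in lk ξ, N < p.1 := (lk_n ξ).eventually (eventually_gt_atTop N)

/-- the index before the moving index -/
theorem lk_pred (ξ : ℝ) : Tendsto (fun p : ℕ × ℤ => (p.1, p.2 - 1)) (lk ξ) (lk ξ) := by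
  rw [lk, tendsto_inf, tendsto_comap_iff, tendsto_comap_iff]
  refine ⟨lk_n ξ, ?_⟩
  have h1 : Tendsto (fun p : ℕ × ℤ => (p.2 : ℝ) / p.1 - 1 / (p.1 : ℝ)) (lk ξ) (𝓝 (ξ - 0)) :=
    (lk_k ξ).sub (tendsto_one_div_atTop_nhds_zero_nat.comp (lk_n ξ))
  rw [sub_zero] at h1
  refine h1.congr fun p => ?_
  simp only [Function.comp_apply]
  push_cast
  ring

/-! ### One environment -/

section one

variable {P : Finset (ℤ × ℤ)} {L : ℕ} {g : ℤ → ℤ × ℤ} {n : ℕ} {E : WEnv} {e : DZ} {c z : VZ} {r s d : ℤ}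
  {A : ℝ} {H : Cfg → ℝ}

/-- the majorant with the leg, off `e` -/
theorem DomE.maj_far (h : DomE E e c r (BR z s) A H) (hE : InE c r (Tilt.und e)) (he : e ∈ dE ZQ E.F) (hd : d ≤ s)
    (hz : d + r < GG.dd z c) {M : ℝ} (hM : av E.F (lgi E.F (Tilt.und e) c r) * A ≤ M) : GG.Maj E z d M := by
  have hdis : Disjoint (BR z d) (BR c r) := disj_BR hz.le
  have hH0 : 0 ≤ av E.F H := av_nonneg fun _ _ => h.nonneg _
  refine ⟨h.Zpos, fun ω => lgi E.F (Tilt.und e) c r ω * H ω, ?_, ?_, ?_, ?_⟩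
  · intro ω ω' hω
    have e1 : lgi E.F (Tilt.und e) c r ω = lgi E.F (Tilt.und e) c r ω' :=
      lgi_dep E.F (Tilt.und e) c r ω ω' fun f hf => hω f (by
        rw [Finset.mem_coe, Finset.mem_inter] at hf
        rw [Finset.mem_coe, Finset.mem_sdiff]
        exact ⟨hf.1, fun h' => Finset.disjoint_left.1 hdis h' hf.2⟩)
    have e2 : H ω = H ω' := h.dep ω ω' fun f hf => hω f (by
      rw [Finset.mem_coe, Finset.mem_sdiff, Finset.mem_union, not_or] at hf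
      rw [Finset.mem_coe, Finset.mem_sdiff]
      refine ⟨hf.1, fun h' => hf.2.2 ?_⟩
      rw [mem_BR] at h' ⊢
      omega)
    simp only [e1, e2]
  · intro ω
    beta_reduce
    by_cases hl : Lg E.F (Tilt.und e) c r ω
    · rw [lgi_of hl, one_mul]
      exact h.W ω
    · rw [lgi_of_not hl, zero_mul, h.W0 ω hl, abs_zero]
  · intro ω a ha
    have ha' : a ∈ dE ZQ E.F := dE_mono Finset.inter_subset_left ha
    beta_reduce
    by_cases hl : Lg E.F (Tilt.und e) c r ω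
    · rw [lgi_of hl, one_mul]
      exact h.num ω a ha'
    · rw [lgi_of_not hl, zero_mul, mul_zero]
      obtain ⟨f, hf, hfs⟩ := und_side ha
      have hout : ¬ InE c r (Tilt.und a) := by
        intro hin
        have hin' : InE z d (Tilt.und a) :=
          inE_of_side (Finset.mem_coe.2 (Finset.mem_inter.1 hf).2) hfs
        unfold GG.dd at hz
        unfold InE InR at hin hin'
        rcases lt_max_iff.1 hz with h1 | h1 <;> rw [lt_abs] at h1 <;> omega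
      have hno : ∀ b : DZ, b ∈ dE ZQ E.F → ¬ InE c r (Tilt.und b) → ¬ SRel ZQ E.F ω e b := by
        intro b hb hbo hs
        exact hl (lg_exit hE ((MM_iff he hb).2 (Or.inl hs)) hbo)
      have h1 := hno a ha' hout
      have h2 := hno a.swap (swap_mem_dE.2 ha') (by rw [und_swap ha']; exact hout)
      rw [h.num0 ω hl a ha' h1 h2, abs_zero]
  · have e1 : av E.F (fun ω => lgi E.F (Tilt.und e) c r ω * H ω) =
        av E.F (lgi E.F (Tilt.und e) c r) * av E.F H := by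
      refine LH.av_indep_set (A := ((E.F ∩ BR c r : Finset (ℤ × ℤ)) : Set (ℤ × ℤ)))
        (B := ((E.F \ (BR c r ∪ BR z s) : Finset (ℤ × ℤ)) : Set (ℤ × ℤ))) ?_ (lgi_dep _ _ _ _) h.dep
      rw [Set.disjoint_left]
      intro f hf hf'
      rw [Finset.mem_coe, Finset.mem_inter] at hf
      rw [Finset.mem_coe, Finset.mem_sdiff, Finset.mem_union, not_or] at hf'
      exact hf'.2.1 hf.2
    rw [e1]
    have h0 : 0 ≤ av E.F (lgi E.F (Tilt.und e) c r) := av_nonneg fun _ _ => lgi_nonneg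
    calc av E.F (lgi E.F (Tilt.und e) c r) * av E.F H
        ≤ av E.F (lgi E.F (Tilt.und e) c r) * (A * E.Z) := mul_le_mul_of_nonneg_left h.mean h0
      _ = av E.F (lgi E.F (Tilt.und e) c r) * A * E.Z := by ring
      _ ≤ M * E.Z := mul_le_mul_of_nonneg_right hM h.Zpos.le

end one

/-! ### The full environment -/

/-- the pointwise domination gives the structure `DomE`, up to the mean -/
theorem domE_of {P : Finset (ℤ × ℤ)} {g : ℤ → ℤ × ℤ} {n : ℕ} {j j' r s N : ℤ} {α A : ℝ} {K : Cfg → ℕ} {M : ℕ}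
    {E : WEnv} {e : DZ} {c z : VZ} (hα : α ∈ Set.Icc (0 : ℝ) 1) (hF : E.F = rf n P) (he : e ∈ bS ZQ E.F)
    (hs : ∀ a a', |E.s a a'| ≤ 2) (hK : KOk (rf n P) (h2 g n j j' r ∪ BR z s ∪ BR c r) N M K)
    (h1c : Disjoint (BR (gr n g j) r) (BR c r)) (h2c : Disjoint (BR (gr n g j') r) (BR c r))
    (h1z : r + s ≤ GG.dd (gr n g j) z) (h2z : r + s ≤ GG.dd (gr n g j') z)
    (hX : ∀ ω, (∀ X : Finset (Sym2 DZ), X.card ≤ 1 →
      |∏ q ∈ arcs ZQ E.F ω \ X, E.T q| ≤ hPr P g n j j' r α K ω) ∧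
      (¬ Lg E.F (Tilt.und e) c r ω → E.T (arcE E.F ω e) = 0)) (hZ : 0 < E.Z)
    (hM : av E.F (hPr P g n j j' r α K) ≤ A * E.Z) :
    DomE E e c r (BR z s) A (hPr P g n j j' r α K) where
  Zpos := hZ
  nonneg ω := hPr_nonneg hα
  dep := by
    have hd : ∀ i, Disjoint (BR (gr n g i) r) (BR c r) → r + s ≤ GG.dd (gr n g i) z →
        Disjoint (BR (gr n g i) r) (BR c r ∪ BR z s) := by
      intro i h1 h2
      rw [Finset.disjoint_union_right]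
      exact ⟨h1, disj_BR h2⟩
    refine hPr_dep hF (F := E.F) (B := h2 g n j j' r ∪ BR z s ∪ BR c r) (by rw [hF]; exact hK) ?_
      (hd j h1c h1z) (hd j' h2c h2z) α
    intro f hf
    rw [Finset.mem_union] at hf ⊢
    rcases hf with hf | hf
    · exact Or.inr hf
    · exact Or.inl (Finset.mem_union_right _ hf)
  W ω := by
    have := (hX ω).1 ∅ (by simp)
    rwa [Finset.sdiff_empty] at this
  W0 ω hl := W_zero he ((hX ω).2 hl)
  T0 ω hl := (hX ω).2 hl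
  num ω a _ := num_le hs (hX ω).1 a
  num0 ω hl a ha h1 h2 := num_zero he ((hX ω).2 hl) ha h1 h2
  pole ω := by
    rw [← Finset.sdiff_singleton_eq_erase]
    exact (hX ω).1 _ (by simp)
  mean := hM

theorem resX_of (hDet : DetX) (hLow : LowX) : ResX := by
  intro P L g hP hc t₁ t₂ t₂' t₃ t₄ hM
  obtain ⟨ρD, hρD, hD⟩ := hDet P L g hP hc _ _ _ _ _ hM
  obtain ⟨ρL, hρL, c, hc0, hL⟩ := hLow P L g hP hc _ _ _ _ _ hM
  obtain ⟨δ₂, hδ₂, hm₂⟩ := mkOk_near hc hM.f2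
  obtain ⟨δ₂', hδ₂', hm₂'⟩ := mkOk_near hc hM.f2'
  obtain ⟨δa, hδa, ha⟩ := DomMk.boxes_disj hc (gam_ne' hc hM.h2 (by linarith [hM.h1, hM.h3, hM.h4, hM.h5]))
  obtain ⟨δb, hδb, hb⟩ := DomMk.boxes_disj hc
    (gam_ne' hc (by linarith [hM.h2, hM.h3, hM.h4] : t₂ < t₄) (by linarith [hM.h1, hM.h5]))
  obtain ⟨δd, hδd, hd⟩ := DomMk.boxes_disj hc
    (gam_ne' hc (by linarith [hM.h3, hM.h4] : t₂' < t₄) (by linarith [hM.h1, hM.h2, hM.h5]))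
  refine ⟨min (min ρD ρL) (min (min δ₂ δ₂') (min δa (min δb δd))), by positivity, fun ρ hρ hρ' => ?_⟩
  simp only [le_min_iff] at hρ'
  obtain ⟨⟨hρD', hρL'⟩, ⟨hρ₂, hρ₂'⟩, hρa, hρb, hρd⟩ := hρ'
  obtain ⟨Mk, hMk⟩ := hD ρ hρ hρD'
  obtain ⟨C, hC, hav⟩ := av_hPr_le Mk
  have hC0 : 0 < C := by linarith
  refine ⟨C / c, by positivity, ?_⟩
  filter_upwards [hMk, hL, lk_pos t₄ 0, ix_near (lk_n t₄) t₂ hδ₂, ix_near (lk_n t₄) t₂' hδ₂',
    ix_near (lk_n t₄) t₂ hδa, ix_near (lk_n t₄) t₂' hδa, ix_near (lk_n t₄) t₂ hδb, lk_near hδb,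
    ix_near (lk_n t₄) t₂' hδd, lk_near hδd] with p k1 k2 hn e2 e2' ea ea' eb eb4 ed ed4
  intro α hα z s hs hz2 hz2' hz4
  have hn' : (0 : ℝ) < p.1 := by exact_mod_cast hn
  set r : ℤ := ⌊ρ * p.1⌋ with hr
  have hr0 : 0 ≤ r := Int.floor_nonneg.2 (by positivity)
  have hrr : (r : ℝ) ≤ ρ * p.1 := Int.floor_le _
  have hle : ∀ δ : ℝ, ρ ≤ δ → (r : ℝ) ≤ δ * p.1 := fun δ hδ =>
    hrr.trans (mul_le_mul_of_nonneg_right hδ hn'.le)
  obtain ⟨K, N, hN, hK, hX⟩ := k1 α hα z s hs hz2 hz2' hz4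
  have hLow2 := k2 α hα
  have hrL : r ≤ ⌊ρL * p.1⌋ := Int.floor_le_floor (mul_le_mul_of_nonneg_right hρL' hn'.le)
  set E := envX P L g p.1 α (ix p.1 t₁) (ix p.1 t₂) (ix p.1 t₂') (ix p.1 t₃) p.2 with hE
  have hEF : E.F = rf p.1 P := rfl
  have hdisj : Disjoint (BR (gr p.1 g (ix p.1 t₂)) r) (BR (gr p.1 g (ix p.1 t₂')) r) :=
    ha p.1 hn _ _ ea ea' r r (hle _ hρa) (hle _ hρa)
  have hgF : ∀ i R r : ℤ, 1 ≤ FF P g p.1 i R r α := fun i R r => one_le_FF hα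
  have hZ : 0 < E.Z := by
    refine lt_of_lt_of_le ?_ hLow2
    have h3 := hgF (ix p.1 t₂) ⌊ρL * p.1⌋ ⌊ρL * p.1⌋
    have h4 := hgF (ix p.1 t₂') ⌊ρL * p.1⌋ ⌊ρL * p.1⌋
    have h5 : 0 < FF P g p.1 (ix p.1 t₂) ⌊ρL * p.1⌋ ⌊ρL * p.1⌋ α := by linarith
    have h6 : 0 < FF P g p.1 (ix p.1 t₂') ⌊ρL * p.1⌋ ⌊ρL * p.1⌋ α := by linarith
    positivity
  have hB : h2 g p.1 (ix p.1 t₂) (ix p.1 t₂') r ⊆
      h2 g p.1 (ix p.1 t₂) (ix p.1 t₂') r ∪ BR z s ∪ BR (gr p.1 g p.2) r :=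
    Finset.subset_union_left.trans Finset.subset_union_left
  have hmean := hav P g p.1 (ix p.1 t₂) (ix p.1 t₂') r α K _ N hα hr0 (hm₂ p.1 hn _ e2 r hr0 (hle _ hρ₂))
    (hm₂' p.1 hn _ e2' r hr0 (hle _ hρ₂')) hdisj hN hB hK
  refine ⟨hPr P g p.1 (ix p.1 t₂) (ix p.1 t₂') r α K, domE_of (N := N) (M := Mk) hα hEF
    ((CARf.cont_rf hc hn).csd_mem_bS p.2) (abs_cs_le _ _ _ _) hK ?_ ?_ ?_ ?_ hX hZ ?_⟩
  · exact hb p.1 hn _ _ eb eb4 r r (hle _ hρb) (hle _ hρb)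
  · exact hd p.1 hn _ _ ed ed4 r r (hle _ hρd) (hle _ hρd)
  · rw [dd_comm]; linarith
  · rw [dd_comm]; linarith
  · have h3 : FF P g p.1 (ix p.1 t₂) r r α ≤ FF P g p.1 (ix p.1 t₂) ⌊ρL * p.1⌋ ⌊ρL * p.1⌋ α :=
      FF_mono hα hrL hrL
    have h4 : FF P g p.1 (ix p.1 t₂') r r α ≤ FF P g p.1 (ix p.1 t₂') ⌊ρL * p.1⌋ ⌊ρL * p.1⌋ α :=
      FF_mono hα hrL hrL
    have h5 := hgF (ix p.1 t₂) r r
    have h6 := hgF (ix p.1 t₂') r r
    have h7 : FF P g p.1 (ix p.1 t₂) r r α * FF P g p.1 (ix p.1 t₂') r r α ≤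
        FF P g p.1 (ix p.1 t₂) ⌊ρL * p.1⌋ ⌊ρL * p.1⌋ α * FF P g p.1 (ix p.1 t₂') ⌊ρL * p.1⌋ ⌊ρL * p.1⌋ α :=
      mul_le_mul h3 h4 (by linarith) (by linarith)
    refine hmean.trans ?_
    calc C * (FF P g p.1 (ix p.1 t₂) r r α * FF P g p.1 (ix p.1 t₂') r r α)
        ≤ C * (FF P g p.1 (ix p.1 t₂) ⌊ρL * p.1⌋ ⌊ρL * p.1⌋ α *
            FF P g p.1 (ix p.1 t₂') ⌊ρL * p.1⌋ ⌊ρL * p.1⌋ α) := mul_le_mul_of_nonneg_left h7 hC0.le
      _ = C / c * p.1 * (c / p.1 * (FF P g p.1 (ix p.1 t₂) ⌊ρL * p.1⌋ ⌊ρL * p.1⌋ α *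
            FF P g p.1 (ix p.1 t₂') ⌊ρL * p.1⌋ ⌊ρL * p.1⌋ α)) := by
          field_simp
      _ ≤ C / c * p.1 * E.Z := mul_le_mul_of_nonneg_left hLow2 (by positivity)

/-! ### `GG.Maj` -/

theorem inE_side {P : Finset (ℤ × ℤ)} {L : ℕ} {g : ℤ → ℤ × ℤ} (hc : Cont P L g) (k : ℤ) {r : ℤ} (hr : 1 ≤ r) :
    InE (g k) r (Tilt.und (csd g k)) := by
  have h1 := (mem_bS.mp (hc.csd_mem_bS k)).1
  obtain ⟨h2, h3, h4, h5⟩ := Dom.und_near h1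
  have h6 := ua_le_ub (Tilt.und (csd g k))
  have h7 := Dom.ua_le_ub2 (Tilt.und (csd g k))
  have e1 : (csd g k).1 = g k := rfl
  rw [e1] at h2 h3 h4 h5
  unfold InE InR
  omega

theorem dd_succ {P : Finset (ℤ × ℤ)} {L : ℕ} {g : ℤ → ℤ × ℤ} (hc : Cont P L g) {n : ℕ} (hn : 0 < n) (k : ℤ) :
    GG.dd (gr n g (k - 1)) (gr n g k) ≤ 1 := by
  have h := gr_lip hc hn (k - 1) 1
  rw [show k - 1 + ((1 : ℕ) : ℤ) = k by push_cast; ring] at h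
  unfold GG.dd
  rw [abs_sub_comm (gr n g (k - 1)).1, abs_sub_comm (gr n g (k - 1)).2]
  exact max_le (by exact_mod_cast h.1) (by exact_mod_cast h.2)

theorem majX_of (h : ResX) : MajX := by
  intro P L g hP hc t₁ t₂ t₂' t₃ t₄ hM ε hε
  obtain ⟨ρ₀, hρ₀, hR⟩ := h P L g hP hc _ _ _ _ _ hM
  obtain ⟨κ, δ, hδ, hflat⟩ := flat_near hc hM.f4
  obtain ⟨C, hC, hleg⟩ := lg_pr
  set ρ := min (min ρ₀ δ) (ε / 16) with hρd
  have hρ : 0 < ρ := by positivity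
  have hρ1 : ρ ≤ ρ₀ := (min_le_left _ _).trans (min_le_left _ _)
  have hρ2 : ρ ≤ δ := (min_le_left _ _).trans (min_le_right _ _)
  have hρ3 : ρ ≤ ε / 16 := min_le_right _ _
  obtain ⟨M, hM0, hRρ⟩ := hR ρ hρ hρ1
  have key : ∀ᶠ p : ℕ × ℤ in lk t₄, ∀ α ∈ Set.Icc (0 : ℝ) 1, ∀ (z : VZ) (d : ℤ), (d : ℝ) ≤ ρ * p.1 →
      ε / 2 * p.1 ≤ GG.dd z (gr p.1 g (ix p.1 t₂)) → ε / 2 * p.1 ≤ GG.dd z (gr p.1 g (ix p.1 t₂')) →
      ε / 2 * p.1 ≤ GG.dd z (gr p.1 g p.2) →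
        GG.Maj (envX P L g p.1 α (ix p.1 t₁) (ix p.1 t₂) (ix p.1 t₂') (ix p.1 t₃) p.2) z d (2 * C * M / ρ) := by
    filter_upwards [hRρ, lk_near hδ, lk_pos t₄ ⌈2 / ρ⌉₊] with p k1 hk hn
    intro α hα z d hd hz2 hz2' hz4
    have hn1 : 2 / ρ < p.1 := (Nat.le_ceil _).trans_lt (by exact_mod_cast hn)
    have hn' : (0 : ℝ) < p.1 := lt_trans (by positivity) hn1
    have hn0 : 0 < p.1 := by exact_mod_cast hn'
    have hρn : 2 < ρ * p.1 := by rwa [div_lt_iff₀' hρ] at hn1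
    set r : ℤ := ⌊ρ * p.1⌋ with hr
    have hr1 : (r : ℝ) ≤ ρ * p.1 := Int.floor_le _
    have hr2 : ρ * p.1 - 1 < r := Int.sub_one_lt_floor _
    have hrp : (1 : ℝ) < r := by linarith
    have hrz : 1 ≤ r := by exact_mod_cast hrp.le
    have h8 : ∀ v : VZ, ε / 2 * p.1 ≤ GG.dd z v → 8 * r ≤ GG.dd z v := by
      intro v hv
      have : (8 * r : ℝ) ≤ GG.dd z v := by
        refine le_trans ?_ hv
        have : ρ * p.1 ≤ ε / 16 * p.1 := mul_le_mul_of_nonneg_right hρ3 hn'.le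
        linarith
      exact_mod_cast this
    obtain ⟨H, hH⟩ := k1 α hα z r le_rfl (h8 _ hz2) (h8 _ hz2') (h8 _ hz4)
    have hcf := CARf.cont_rf hc hn0
    obtain ⟨hF, hfr⟩ := hflat p.1 hn0 p.2 hk r (by omega) (hr1.trans (mul_le_mul_of_nonneg_right hρ2 hn'.le))
    have hdr : d ≤ r := Int.le_floor.2 hd
    have hzz := h8 _ hz4
    refine hH.maj_far (inE_side hcf p.2 hrz) ((mem_bS.mp (hcf.csd_mem_bS p.2)).1) hdr (by omega) ?_
    have e1 : csd (gr p.1 g) p.2 = (fr κ (gr p.1 g p.2) 0 0, fr κ (gr p.1 g p.2) 1 0) := by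
      unfold csd
      rw [← hfr 0 (by omega) (by omega), ← hfr 1 (by omega) (by omega), add_zero]
    have hp := hleg (rf p.1 P) κ (gr p.1 g p.2) r (by omega) hF
    rw [← e1] at hp
    have hr0 : (0 : ℝ) < r := by linarith
    calc av (rf p.1 P) (lgi (rf p.1 P) (Tilt.und (csd (gr p.1 g) p.2)) (gr p.1 g p.2) r) * (M * p.1)
        ≤ C / r * (M * p.1) := mul_le_mul_of_nonneg_right hp (by positivity)
      _ ≤ 2 * C * M / ρ := by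
          rw [div_mul_eq_mul_div, div_le_div_iff₀ hr0 hρ]
          have : ρ * p.1 ≤ 2 * r := by linarith
          nlinarith [mul_le_mul_of_nonneg_left this (by positivity : 0 ≤ C * M)]
  refine ⟨ρ, 2 * C * M / ρ, hρ, by positivity, ?_⟩
  filter_upwards [key, (lk_pred t₄).eventually key, lk_pos t₄ ⌈2 / ε⌉₊] with p k1 k2 hn
  intro α hα z d hd hz2 hz2' hz4
  have hn1 : 2 / ε < p.1 := (Nat.le_ceil _).trans_lt (by exact_mod_cast hn)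
  have hn' : (0 : ℝ) < p.1 := lt_trans (by positivity) hn1
  have hn0 : 0 < p.1 := by exact_mod_cast hn'
  have hεn : 2 < ε * p.1 := by rwa [div_lt_iff₀' hε] at hn1
  have hw : ∀ x : ℝ, ε * p.1 ≤ x → ε / 2 * p.1 ≤ x := fun x hx => by nlinarith
  refine ⟨k1 α hα z d hd (hw _ hz2) (hw _ hz2') (hw _ hz4), k2 α hα z d hd (hw _ hz2) (hw _ hz2') ?_⟩
  have h1 := dd_succ hc hn0 p.2
  have h2 := dd_tri z (gr p.1 g (p.2 - 1)) (gr p.1 g p.2)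
  have h3 : (GG.dd z (gr p.1 g p.2) : ℝ) ≤ GG.dd z (gr p.1 g (p.2 - 1)) + 1 := by
    exact_mod_cast h2.trans (by linarith)
  show ε / 2 * p.1 ≤ GG.dd z (gr p.1 g (p.2 - 1))
  linarith

/-! ### Two marks -/

/-- **Lower bound of the partition function**, two marks. -/
def LowP : Prop := ∀ (P : Finset (ℤ × ℤ)) (L : ℕ) (g : ℤ → ℤ × ℤ), MPoly P → Cont P L g →
  ∀ t₂ t₂' : ℝ, t₂ < t₂' → t₂' < t₂ + L → Fl g t₂ → Fl g t₂' → ∃ ρ : ℝ, 0 < ρ ∧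
    ∃ c : ℝ, 0 < c ∧ ∀ᶠ n : ℕ in atTop, ∀ α ∈ Set.Icc (0 : ℝ) 1,
      c * (FF P g n (ix n t₂) ⌊ρ * n⌋ ⌊ρ * n⌋ α * FF P g n (ix n t₂') ⌊ρ * n⌋ ⌊ρ * n⌋ α) ≤
        (envP P L g n α (ix n t₂) (ix n t₂')).Z

theorem majP_of (hDet : DetP) (hLow : LowP) : MajP := by
  intro P L g hP hc t₂ t₂' h22 h22' hf hf' ε hε
  obtain ⟨ρD, hρD, hD⟩ := hDet P L g hP hc _ _ h22 h22' hf hf'
  obtain ⟨ρL, hρL, c, hc0, hL⟩ := hLow P L g hP hc _ _ h22 h22' hf hf'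
  obtain ⟨δ₂, hδ₂, hm₂⟩ := mkOk_near hc hf
  obtain ⟨δ₂', hδ₂', hm₂'⟩ := mkOk_near hc hf'
  obtain ⟨δa, hδa, ha⟩ := DomMk.boxes_disj hc (gam_ne' hc h22 h22')
  set ρ := min (min (min ρD ρL) (ε / 8)) (min (min δ₂ δ₂') δa) with hρd
  have hρ : 0 < ρ := by positivity
  have hρ' : ρ ≤ ρ := le_rfl
  conv_rhs at hρ' => rw [hρd]
  simp only [le_min_iff] at hρ'
  obtain ⟨⟨⟨hρD', hρL'⟩, hρε⟩, ⟨hρ₂, hρ₂'⟩, hρa⟩ := hρ'
  obtain ⟨Mk, hMk⟩ := hD ρ hρ hρD'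
  obtain ⟨C, hC, hav⟩ := av_hPr_le Mk
  have hC0 : 0 < C := by linarith
  refine ⟨ρ, C / c, hρ, by positivity, ?_⟩
  filter_upwards [hMk, hL, eventually_gt_atTop 0, ix_near tendsto_id t₂ hδ₂, ix_near tendsto_id t₂' hδ₂',
    ix_near tendsto_id t₂ hδa, ix_near tendsto_id t₂' hδa] with n k1 k2 hn e2 e2' ea ea'
  intro α hα z d hd hz2 hz2'
  simp only [id] at e2 e2' ea ea'
  have hn' : (0 : ℝ) < n := by exact_mod_cast hn
  set r : ℤ := ⌊ρ * n⌋ with hr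
  have hr0 : 0 ≤ r := Int.floor_nonneg.2 (by positivity)
  have hrr : (r : ℝ) ≤ ρ * n := Int.floor_le _
  have hle : ∀ δ : ℝ, ρ ≤ δ → (r : ℝ) ≤ δ * n := fun δ hδ =>
    hrr.trans (mul_le_mul_of_nonneg_right hδ hn'.le)
  have h8 : ∀ v : VZ, ε * n ≤ GG.dd z v → 8 * r ≤ GG.dd z v := by
    intro v hv
    have : (8 * r : ℝ) ≤ GG.dd z v := by
      refine le_trans ?_ hv
      have : ρ * n ≤ ε / 8 * n := mul_le_mul_of_nonneg_right hρε hn'.le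
      linarith
    exact_mod_cast this
  have hdr : d ≤ r := Int.le_floor.2 hd
  have hz8 := h8 _ hz2
  have hz8' := h8 _ hz2'
  obtain ⟨K, N, hN, hK, hX⟩ := k1 α hα z d hdr hz8 hz8'
  have hLow2 := k2 α hα
  have hrL : r ≤ ⌊ρL * n⌋ := Int.floor_le_floor (mul_le_mul_of_nonneg_right hρL' hn'.le)
  set E := envP P L g n α (ix n t₂) (ix n t₂') with hE
  have hdisj : Disjoint (BR (gr n g (ix n t₂)) r) (BR (gr n g (ix n t₂')) r) :=
    ha n hn _ _ ea ea' r r (hle _ hρa) (hle _ hρa)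
  have hgF : ∀ i R r : ℤ, 1 ≤ FF P g n i R r α := fun i R r => one_le_FF hα
  have hZ : 0 < E.Z := by
    refine lt_of_lt_of_le ?_ hLow2
    have h3 := hgF (ix n t₂) ⌊ρL * n⌋ ⌊ρL * n⌋
    have h4 := hgF (ix n t₂') ⌊ρL * n⌋ ⌊ρL * n⌋
    have h5 : 0 < FF P g n (ix n t₂) ⌊ρL * n⌋ ⌊ρL * n⌋ α := by linarith
    have h6 : 0 < FF P g n (ix n t₂') ⌊ρL * n⌋ ⌊ρL * n⌋ α := by linarith
    positivity
  have hmean := hav P g n (ix n t₂) (ix n t₂') r α K _ N hα hr0 (hm₂ n hn _ e2 r hr0 (hle _ hρ₂))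
    (hm₂' n hn _ e2' r hr0 (hle _ hρ₂')) hdisj hN Finset.subset_union_left hK
  refine ⟨hZ, hPr P g n (ix n t₂) (ix n t₂') r α K, ?_, ?_, ?_, ?_⟩
  · exact hPr_dep rfl hK Finset.subset_union_right (disj_BR (by rw [dd_comm]; linarith))
      (disj_BR (by rw [dd_comm]; linarith)) α
  · intro ω
    have := hX ω ∅ (by simp)
    rwa [Finset.sdiff_empty] at this
  · exact fun ω a _ => num_le (abs_cs_le _ _ _ _) (hX ω) a
  · have h3 : FF P g n (ix n t₂) r r α ≤ FF P g n (ix n t₂) ⌊ρL * n⌋ ⌊ρL * n⌋ α := FF_mono hα hrL hrL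
    have h4 : FF P g n (ix n t₂') r r α ≤ FF P g n (ix n t₂') ⌊ρL * n⌋ ⌊ρL * n⌋ α := FF_mono hα hrL hrL
    have h5 := hgF (ix n t₂) r r
    have h6 := hgF (ix n t₂') r r
    have h7 : FF P g n (ix n t₂) r r α * FF P g n (ix n t₂') r r α ≤
        FF P g n (ix n t₂) ⌊ρL * n⌋ ⌊ρL * n⌋ α * FF P g n (ix n t₂') ⌊ρL * n⌋ ⌊ρL * n⌋ α :=
      mul_le_mul h3 h4 (by linarith) (by linarith)
    refine hmean.trans ?_
    calc C * (FF P g n (ix n t₂) r r α * FF P g n (ix n t₂') r r α)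
        ≤ C * (FF P g n (ix n t₂) ⌊ρL * n⌋ ⌊ρL * n⌋ α * FF P g n (ix n t₂') ⌊ρL * n⌋ ⌊ρL * n⌋ α) :=
          mul_le_mul_of_nonneg_left h7 hC0.le
      _ = C / c * (c * (FF P g n (ix n t₂) ⌊ρL * n⌋ ⌊ρL * n⌋ α *
            FF P g n (ix n t₂') ⌊ρL * n⌋ ⌊ρL * n⌋ α)) := by field_simp
      _ ≤ C / c * E.Z := mul_le_mul_of_nonneg_left hLow2 (by positivity)

/-! ### The natural environment -/

theorem majN : MajN := by
  intro P L g hP hc n hn b z d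
  have hcf := CARf.cont_rf hc hn
  have hPf := CARf.mpoly_rf hP hn
  have hZ : (envN P L g n b).Z = 1 := nat_Z hcf hPf b
  have hs3 : (0 : ℝ) < 1 / Real.sqrt 3 := by positivity
  refine ⟨by rw [hZ]; exact one_pos, fun _ => 1, fun _ _ _ => rfl, fun ω => ?_, fun ω a _ => ?_, ?_⟩
  · show |(cenv (rf n P) (gr n g) (n * L) (jN (n * L) b)).W ω| ≤ 1
    rw [nat_W hcf hPf b ω, abs_one]
  · refine num_le (abs_cs_le _ _ _ _) (fun X _ => ?_) a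
    rw [Finset.prod_eq_one, abs_one]
    intro q hq
    obtain ⟨x, hx, rfl⟩ := mem_arcs.mp (Finset.mem_sdiff.1 hq).1
    exact nat_t hcf hPf hx (mate_mem hx) (mate_ne Tilt.zq_noLoop hx).symm
  · rw [av_const, hZ, one_mul]

/-! ### Near a point of the plane -/

/-- a point of the plane is far from the contour vertices near a different point of the contour -/
theorem dd_fl {P : Finset (ℤ × ℤ)} {L : ℕ} {g : ℤ → ℤ × ℤ} (hc : Cont P L g) {p : ℂ} {t : ℝ}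
    (hne : p ≠ gam g t) : ∃ ε : ℝ, 0 < ε ∧ ∃ δ : ℝ, 0 < δ ∧ ∃ N : ℕ, ∀ n : ℕ, N < n → ∀ k : ℤ,
      |(k : ℝ) / n - t| < δ → ε * n ≤ GG.dd (fl n p) (gr n g k) := by
  set D := ‖p - gam g t‖ with hD
  have hD0 : 0 < D := norm_pos_iff.2 (sub_ne_zero.2 hne)
  refine ⟨D / 4, by positivity, D / 4, by positivity, ⌈8 / D⌉₊, fun n hn k hk => ?_⟩
  have hn1 : 8 / D < n := (Nat.le_ceil _).trans_lt (by exact_mod_cast hn)
  have hn' : (0 : ℝ) < n := lt_trans (by positivity) hn1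
  have hn0 : 0 < n := by exact_mod_cast hn'
  have hDn : 8 < D * n := by rwa [div_lt_iff₀' hD0] at hn1
  have h1 := CARf.gam_lip hc t ((k : ℝ) / n)
  have h2 : D ≤ ‖p - gam g ((k : ℝ) / n)‖ + ‖gam g ((k : ℝ) / n) - gam g t‖ := by
    have : p - gam g t = (p - gam g ((k : ℝ) / n)) + (gam g ((k : ℝ) / n) - gam g t) := by ring
    rw [hD, this]
    exact norm_add_le _ _
  have h3 : ‖p - gam g ((k : ℝ) / n)‖ ≤ (2 * GG.dd (fl n p) (gr n g k) + 2) / n := by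
    rw [CARf.gam_div g hn0]
    refine (Complex.norm_le_abs_re_add_abs_im _).trans ?_
    simp only [Complex.sub_re, Complex.sub_im]
    have e1 : ∀ (x : ℝ) (a b : ℤ), a = ⌊(n : ℝ) * x⌋ → |x - (b : ℝ) / n| ≤ (|((a - b : ℤ) : ℝ)| + 1) / n := by
      intro x a b ha
      have h5 : x - (b : ℝ) / n = (n * x - b) / n := by field_simp
      rw [h5, abs_div, abs_of_pos hn']
      refine div_le_div_of_nonneg_right ?_ hn'.le
      have h6 := Int.floor_le ((n : ℝ) * x)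
      have h7 := Int.lt_floor_add_one ((n : ℝ) * x)
      rw [← ha] at h6 h7
      have h8 : (n : ℝ) * x - b = ((a - b : ℤ) : ℝ) + (n * x - a) := by push_cast; ring
      rw [h8]
      refine (abs_add_le _ _).trans (add_le_add le_rfl ?_)
      rw [abs_le]
      constructor <;> linarith
    have e2 := e1 p.re (fl n p).1 (gr n g k).1 rfl
    have e3 := e1 p.im (fl n p).2 (gr n g k).2 rfl
    have e4 : |(((fl n p).1 - (gr n g k).1 : ℤ) : ℝ)| ≤ GG.dd (fl n p) (gr n g k) := by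
      rw [← Int.cast_abs]
      exact_mod_cast le_max_left _ _
    have e5 : |(((fl n p).2 - (gr n g k).2 : ℤ) : ℝ)| ≤ GG.dd (fl n p) (gr n g k) := by
      rw [← Int.cast_abs]
      exact_mod_cast le_max_right _ _
    refine (add_le_add e2 e3).trans ?_
    rw [← add_div]
    refine div_le_div_of_nonneg_right ?_ hn'.le
    linarith
  have h4 : 3 * D / 4 ≤ (2 * GG.dd (fl n p) (gr n g k) + 2) / n := by linarith
  rw [le_div_iff₀ hn'] at h4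
  linarith

/-- **`GG.Maj` for the full environment near a point of the plane**, both sides at `e`. -/
theorem majX_at (h : MajX) {P : Finset (ℤ × ℤ)} {L : ℕ} {g : ℤ → ℤ × ℤ} (hP : MPoly P) (hc : Cont P L g)
    {t₁ t₂ t₂' t₃ t₄ : ℝ} (hM : Marks5 L g t₁ t₂ t₂' t₃ t₄) {p : ℂ} (h2 : p ≠ gam g t₂) (h2' : p ≠ gam g t₂')
    (h4 : p ≠ gam g t₄) : ∃ ρ : ℝ, 0 < ρ ∧ ∃ M : ℝ, 0 < M ∧ ∀ ρ' : ℝ, ρ' ≤ ρ → ∀ᶠ q : (ℕ × ℤ) × ℝ in lka t₄,
      GG.Maj (envX P L g q.1.1 q.2 (ix q.1.1 t₁) (ix q.1.1 t₂) (ix q.1.1 t₂') (ix q.1.1 t₃) q.1.2)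
        (fl q.1.1 p) ⌊ρ' * q.1.1⌋ M ∧
      GG.Maj (envX P L g q.1.1 q.2 (ix q.1.1 t₁) (ix q.1.1 t₂) (ix q.1.1 t₂') (ix q.1.1 t₃) (q.1.2 - 1))
        (fl q.1.1 p) ⌊ρ' * q.1.1⌋ M := by
  obtain ⟨ε₂, hε₂, δ₂, hδ₂, N₂, hN₂⟩ := dd_fl hc h2
  obtain ⟨ε₂', hε₂', δ₂', hδ₂', N₂', hN₂'⟩ := dd_fl hc h2'
  obtain ⟨ε₄, hε₄, δ₄, hδ₄, N₄, hN₄⟩ := dd_fl hc h4
  obtain ⟨ρ, M, hρ, hM0, hev⟩ := h P L g hP hc _ _ _ _ _ hM (min ε₂ (min ε₂' ε₄)) (by positivity)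
  refine ⟨ρ, hρ, M, hM0, fun ρ' hρ' => ?_⟩
  rw [lka, eventually_prod_principal_iff]
  filter_upwards [hev, lk_pos t₄ (max N₂ (max N₂' N₄)), ix_near (lk_n t₄) t₂ hδ₂, ix_near (lk_n t₄) t₂' hδ₂',
    lk_near hδ₄] with q k1 hn e2 e2' e4
  intro α hα
  simp only [max_lt_iff] at hn
  have hq : (0 : ℝ) ≤ q.1 := Nat.cast_nonneg _
  refine k1 α hα (fl q.1 p) ⌊ρ' * q.1⌋ ((Int.floor_le _).trans (mul_le_mul_of_nonneg_right hρ' hq)) ?_ ?_ ?_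
  · exact (mul_le_mul_of_nonneg_right (min_le_left _ _) hq).trans (hN₂ _ hn.1 _ e2)
  · exact (mul_le_mul_of_nonneg_right ((min_le_right _ _).trans (min_le_left _ _)) hq).trans
      (hN₂' _ hn.2.1 _ e2')
  · exact (mul_le_mul_of_nonneg_right ((min_le_right _ _).trans (min_le_right _ _)) hq).trans
      (hN₄ _ hn.2.2 _ e4)

/-- **`GG.Maj` for two marks near a point of the plane.** -/
theorem majP_at (h : MajP) {P : Finset (ℤ × ℤ)} {L : ℕ} {g : ℤ → ℤ × ℤ} (hP : MPoly P) (hc : Cont P L g)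
    {t₂ t₂' : ℝ} (h22 : t₂ < t₂') (h22' : t₂' < t₂ + L) (hf : Fl g t₂) (hf' : Fl g t₂') {p : ℂ}
    (h2 : p ≠ gam g t₂) (h2' : p ≠ gam g t₂') : ∃ ρ : ℝ, 0 < ρ ∧ ∃ M : ℝ, 0 < M ∧ ∀ ρ' : ℝ, ρ' ≤ ρ →
      ∀ᶠ n : ℕ in atTop, ∀ α ∈ Set.Icc (0 : ℝ) 1,
        GG.Maj (envP P L g n α (ix n t₂) (ix n t₂')) (fl n p) ⌊ρ' * n⌋ M := by
  obtain ⟨ε₂, hε₂, δ₂, hδ₂, N₂, hN₂⟩ := dd_fl hc h2
  obtain ⟨ε₂', hε₂', δ₂', hδ₂', N₂', hN₂'⟩ := dd_fl hc h2'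
  obtain ⟨ρ, M, hρ, hM0, hev⟩ := h P L g hP hc _ _ h22 h22' hf hf' (min ε₂ ε₂') (by positivity)
  refine ⟨ρ, hρ, M, hM0, fun ρ' hρ' => ?_⟩
  filter_upwards [hev, eventually_gt_atTop (max N₂ N₂'), ix_near tendsto_id t₂ hδ₂,
    ix_near tendsto_id t₂' hδ₂'] with n k1 hn e2 e2'
  intro α hα
  simp only [max_lt_iff] at hn
  have hq : (0 : ℝ) ≤ n := Nat.cast_nonneg _
  refine k1 α hα (fl n p) ⌊ρ' * n⌋ ((Int.floor_le _).trans (mul_le_mul_of_nonneg_right hρ' hq)) ?_ ?_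
  · exact (mul_le_mul_of_nonneg_right (min_le_left _ _) hq).trans (hN₂ _ hn.1 _ e2)
  · exact (mul_le_mul_of_nonneg_right (min_le_right _ _) hq).trans (hN₂' _ hn.2 _ e2')

end

end Pool.Agent.SixB.DomX
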