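import Pool.Agent.Lib.SixB.CADomUpB
import Pool.Agent.Lib.SixB.CADomLowP
import Pool.Agent.Lib.SixB.CADomLowF

/-!
# 6BD block CA, domination: the lower bounds are theorems

`lowP'`, `Low.lowX`: the lower bounds. `resX_of_det`, `majX_of_det : DetX → _`, `majP_of_det : DetP → MajP`.
-/

set_option autoImplicit false

namespace Pool.Agent.SixB.DomX

open Filter

theorem lowP' : LowP := by
  intro P L g hP hc t₂ t₂' h1 h2 _ _
  obtain ⟨ρ, hρ, h⟩ := LowZ.lowP hP hc h1 h2
  refine ⟨ρ, hρ, 1, one_pos, ?_⟩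
  filter_upwards [h ρ hρ le_rfl] with n hn
  intro α hα
  rw [one_mul]
  exact hn α hα

theorem resX_of_det (h : DetX) : ResX := resX_of h Low.lowX

theorem majX_of_det (h : DetX) : MajX := majX_of (resX_of_det h)

theorem majP_of_det (h : DetP) : MajP := majP_of h lowP'

end Pool.Agent.SixB.DomX
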