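import Pool.Agent.Lib.SixB.S3Wedge

/-!
# 6BD block CA: the mean of the majorant (probability half of the domination)

`F` is a finite set of faces. `v i` (`i : ι`) are special vertices with predicates `PA i`, `PB i` for the
unit edges of the walls on their two sides, boxes `BR (v i) (r i)` which are disjoint, weights `t i`.
`An (p s) (a s) (b s)` (`s : σ`) are finitely many annuli off the boxes `BR (v i) (r i / 2)`, `g ≥ 0` depends
on faces `D` off the boxes and the annuli (indicator of the leg of `e`).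
`dom_av`: `E[(∏ t i ^ N i) * L ^ (∑ NF) * g] ≤ C * (∏ E[t i ^ N i]) * E[g]`, `N i` = number of strands over
`v i` in the box `BR (v i) (r i)`; the constant depends only on the numbers of vertices and annuli, on `t₀`, `T`,
`L` and on the bound `κ` of the aspect ratios. `dom_gen`: any `Y ≥ 0` off the inner boxes in place of `L ^ (∑ NF)`,
with the factor `√E[Y²]`.
-/

set_option autoImplicit false

namespace Pool.Agent.SixB.DomUp

open Finset Pool.Agent.Perc Pool.Agent.PercD Pool.Agent.PercN Pool.Agent.SixB.Wd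

noncomputable section

/-! ### The chain over one special vertex -/

section chain

variable {F : Set (ℤ × ℤ)} {PA PB : UE → Prop} {v : ℤ × ℤ} {r : ℕ} {m o : ℕ}

/-- number of the strands over `v` at the scale `j` -/
def cN (F : Set (ℤ × ℤ)) (PA PB : UE → Prop) (v : ℤ × ℤ) (r j : ℕ) (ω : Cfg) : ℕ :=
  NA F PA PB v (rj r j) ω

/-- increment of the chain -/
def cM (F : Set (ℤ × ℤ)) (PA PB : UE → Prop) (v : ℤ × ℤ) (r j : ℕ) (ω : Cfg) : ℕ :=
  if rj r (j + 2) = 0 then cN F PA PB v r j ω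
  else MC F PA PB v (rj r (j + 2)) (rj r (j + 1)) (rj r j) ω

/-- faces of the box at the scale `j` -/
def cB (F : Set (ℤ × ℤ)) (v : ℤ × ℤ) (r j : ℕ) : Set (ℤ × ℤ) := F ∩ (BR v (rj r j) : Set (ℤ × ℤ))

theorem BR_sub {a b : ℤ} (h : a ≤ b) : (BR v a : Set (ℤ × ℤ)) ⊆ (BR v b : Set (ℤ × ℤ)) :=
  fun _ hf => mem_coe.2 ((Sub.refl' h).subset (mem_coe.1 hf))

theorem cB_anti (j : ℕ) : cB F v r (j + 1) ⊆ cB F v r j :=
  Set.inter_subset_inter_right _ (BR_sub (rj_anti r j))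

theorem dep_cN (j : ℕ) : Dep (cB F v r j) (cN F PA PB v r j) := depN_NA _ _ _ _ _

theorem cN_anti (j : ℕ) (ω : Cfg) : cN F PA PB v r (j + 1) ω ≤ cN F PA PB v r j ω :=
  NA_mono (rj_anti r j) ω

theorem BR_zero' : BR v 0 = ∅ := by
  ext f
  rw [mem_BR]
  simp only [notMem_empty, iff_false]
  omega

theorem cN_of_zero (hAB : ∀ a, PA a → ¬ PB a) {j : ℕ} (h : rj r j = 0) (ω : Cfg) :
    cN F PA PB v r j ω = 0 := by
  classical
  unfold cN NA NS
  rw [card_eq_zero, filter_eq_empty_iff]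
  rintro a - ⟨h1, b, h2, h3⟩
  have hne : a ≠ b := by
    rintro rfl
    exact hAB _ h1 h3
  obtain ⟨f, hf, -⟩ := side_of_ne h2 hne.symm
  have := hf.2
  rw [h, BR_zero'] at this
  simp at this

theorem cN_le (hA : ∀ a, PA a → BdF F a) (hB : ∀ a, PB a → BdF F a) (hAB : ∀ a, PA a → ¬ PB a)
    (j : ℕ) (ω : Cfg) : cN F PA PB v r j ω ≤ cN F PA PB v r (j + 1) ω + cM F PA PB v r j ω := by
  unfold cM
  split_ifs with h
  · omega
  · have h1 := rj_succ r j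
    have h2 := rj_succ r (j + 1)
    have h3 := rj_nonneg r (j + 2)
    have h4 : rj r (j + 2) = rj r (j + 1) / 2 := h2
    exact NA_le hA hB hAB h3 (by omega) (by omega) ω

theorem dep_cM (j : ℕ) : Dep (cB F v r j \ cB F v r (j + 2)) (cM F PA PB v r j) := by
  unfold cM
  by_cases h : rj r (j + 2) = 0
  · simp only [h, if_true]
    have e : cB F v r (j + 2) = ∅ := by
      unfold cB
      rw [h, BR_zero']
      simp
    rw [e, Set.sdiff_empty]
    exact dep_cN j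
  · simp only [h, if_false]
    have h0 := depN_MC (v := v) (r₂ := rj r (j + 2)) (rj_anti r j) F PA PB
    refine h0.mono ?_
    rintro f ⟨hf, hf'⟩
    rw [mem_coe, mem_An] at hf'
    exact ⟨⟨hf, mem_coe.2 hf'.1⟩, fun h => hf'.2 (mem_coe.1 h.2)⟩

theorem cN_le_card (j : ℕ) (ω : Cfg) (h : rj r j ≤ 3) : cN F PA PB v r j ω ≤ 98 := by
  refine (NS_le_UB (v := v) (r := rj r j) ω).trans ?_
  obtain ⟨k, hk⟩ : ∃ k : ℕ, rj r j = k := ⟨(rj r j).toNat, by
    have := rj_nonneg r j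
    omega⟩
  rw [hk, card_UB]
  have : k ≤ 3 := by omega
  have h1 : (2 * k + 1) ^ 2 ≤ 7 ^ 2 := Nat.pow_le_pow_left (by omega) 2
  omega

/-- a function of the faces `A ∩ B` has the same mean in the window `A` and in a large window -/
theorem av_window {F W : Finset (ℤ × ℤ)} {A : Set (ℤ × ℤ)} {g : Cfg → ℝ}
    (hg : Dep ((F : Set (ℤ × ℤ)) ∩ A) g) (hA : A ⊆ (W : Set (ℤ × ℤ))) : av F g = av W g := by
  classical
  set S := F.filter (· ∈ A) with hS
  have hc : (S : Set (ℤ × ℤ)) = (F : Set (ℤ × ℤ)) ∩ A := by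
    ext f
    rw [hS, mem_coe, mem_filter]
    rfl
  rw [← hc] at hg
  rw [av_dep hg (filter_subset _ _), av_dep hg (S' := W)]
  intro f hf
  have : f ∈ (F : Set (ℤ × ℤ)) ∩ A := by
    rw [← hc]
    exact mem_coe.2 hf
  exact mem_coe.1 (hA this.2)

end chain

/-- all moments of the increments, uniform in the domain -/
theorem cM_moment : ∃ c : ℝ → ℝ, ∀ lam : ℝ, 1 ≤ lam → ∀ (F : Finset (ℤ × ℤ)) (PA PB : UE → Prop)
    (v : ℤ × ℤ) (r j : ℕ), (∀ a, PA a → BdF (F : Set (ℤ × ℤ)) a) → (∀ a, PB a → BdF (F : Set (ℤ × ℤ)) a) →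
    (∀ a, PA a → ¬ PB a) → (∀ s : ℤ, 0 < s → s ≤ r → WSep (F : Set (ℤ × ℤ)) PA PB v s) →
    av F (fun ω => lam ^ cM F PA PB v r j ω) ≤ c lam := by
  classical
  have H : ∀ lam : ℝ, ∃ C : ℝ, 1 ≤ lam → ∀ (F : Finset (ℤ × ℤ)) (PA PB : UE → Prop)
    (v : ℤ × ℤ) (r j : ℕ), (∀ a, PA a → BdF (F : Set (ℤ × ℤ)) a) → (∀ a, PB a → BdF (F : Set (ℤ × ℤ)) a) →
    (∀ a, PA a → ¬ PB a) → (∀ s : ℤ, 0 < s → s ≤ r → WSep (F : Set (ℤ × ℤ)) PA PB v s) →
    av F (fun ω => lam ^ cM F PA PB v r j ω) ≤ C := by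
    intro lam
    by_cases hlam : 1 ≤ lam
    · obtain ⟨C, hC, h⟩ := MC_moment 7 hlam
      refine ⟨max C (lam ^ 98), fun _ F PA PB v r j hA hB hAB hs => ?_⟩
      have h1 := rj_succ r j
      have h2 : rj r (j + 2) = rj r (j + 1) / 2 := rj_succ r (j + 1)
      have h3 := rj_nonneg r j
      have h4 := rj_nonneg r (j + 2)
      by_cases h0 : rj r (j + 2) = 0
      · refine le_trans (av_mono (g' := fun _ => lam ^ 98) fun T _ => ?_)
          ((av_const _).le.trans (le_max_right _ _))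
        refine pow_le_pow_right₀ hlam ?_
        unfold cM
        rw [if_pos h0]
        exact cN_le_card j _ (by omega)
      · refine le_trans ?_ (le_max_left _ _)
        have hd : Dep ((F : Set (ℤ × ℤ)) ∩ (BR v (rj r j) : Set (ℤ × ℤ)))
            (fun ω => lam ^ cM F PA PB v r j ω) := by
          have h5 := (dep_cM (F := (F : Set (ℤ × ℤ))) (PA := PA) (PB := PB) (v := v) (r := r) j).mono
            (Set.sdiff_subset : _ ⊆ cB F v r j)
          intro ω ω' hω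
          simp only [h5 ω ω' hω]
        rw [av_window hd (Set.Subset.refl _)]
        have hle : rj r (j + 2) ≤ r := by
          have : ((r / 2 ^ (j + 2) : ℕ) : ℤ) ≤ r := by exact_mod_cast Nat.div_le_self _ _
          exact this
        have := h (F : Set (ℤ × ℤ)) PA PB v (rj r (j + 2)) (rj r (j + 1)) (rj r j)
          (BR v (rj r j)) hA hB hAB (by omega) (by omega) (by omega) (by push_cast; omega)
          (by push_cast; omega) (hs _ (by omega) hle) (Finset.Subset.refl _)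
        refine le_trans (le_of_eq ?_) this
        rw [av_eq]
        congr 1
        refine Finset.sum_congr rfl fun T _ => ?_
        unfold cM
        rw [if_neg h0]
    · exact ⟨0, fun h => absurd h hlam⟩
  choose c hc using H
  exact ⟨c, fun lam hlam => hc lam hlam⟩

/-- exponential moments of the crossings of an annulus of `F` -/
theorem NF_av (κ : ℕ) {lam : ℝ} (hlam : 1 ≤ lam) : ∃ C : ℝ, 0 < C ∧
    ∀ (F : Finset (ℤ × ℤ)) (v : ℤ × ℤ) (a b : ℤ), 0 < a → a < b → a ≤ κ * (b - a) →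
      av F (fun ω => lam ^ NF F v a b ω) ≤ C := by
  obtain ⟨C, hC, h⟩ := NF_moment κ hlam
  refine ⟨C, hC, fun F v a b ha hab hκ => ?_⟩
  have hd : Dep ((F : Set (ℤ × ℤ)) ∩ (BR v b : Set (ℤ × ℤ))) (fun ω => lam ^ NF F v a b ω) := by
    have h5 := (depN_NF F v a b : Dep _ (NF (F : Set (ℤ × ℤ)) v a b)).mono
      (S' := (F : Set (ℤ × ℤ)) ∩ (BR v b : Set (ℤ × ℤ))) (by
        rintro f ⟨hf, hf'⟩
        rw [mem_coe, mem_An] at hf'
        exact ⟨hf, mem_coe.2 hf'.1⟩)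
    intro ω ω' hω
    simp only [h5 ω ω' hω]
  rw [av_window hd (Set.Subset.refl _), av_eq]
  exact h F v a b (BR v b) ha hab hκ (Finset.Subset.refl _)

/-- exponential moments of a sum of crossing numbers -/
theorem NF_sum (κ n : ℕ) {lam : ℝ} (hlam : 1 ≤ lam) : ∃ C : ℝ, 0 < C ∧
    ∀ (σ : Type) (S : Finset σ) (F : Finset (ℤ × ℤ)) (p : σ → ℤ × ℤ) (a b : σ → ℤ), S.card ≤ n →
      (∀ s ∈ S, 0 < a s ∧ a s < b s ∧ a s ≤ κ * (b s - a s)) →
      av F (fun ω => lam ^ (∑ s ∈ S, NF F (p s) (a s) (b s) ω)) ≤ C := by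
  obtain ⟨C, hC, h⟩ := NF_av κ (one_le_pow₀ hlam (n := n))
  refine ⟨1 + n * C, by positivity, fun σ S F p a b hn hS => ?_⟩
  have h1 := exp_sum hlam S (fun s => NF F (p s) (a s) (b s)) F (C := C) (fun s hs => by
    obtain ⟨h2, h3, h4⟩ := hS s hs
    refine le_trans ?_ (h F (p s) (a s) (b s) h2 h3 h4)
    rw [av_eq]
    refine div_le_div_of_nonneg_right (Finset.sum_le_sum fun T _ => ?_) (by positivity)
    exact pow_le_pow_left₀ (by positivity) (pow_le_pow_right₀ hlam hn) _)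
  rw [av_eq]
  refine h1.trans ?_
  have : (S.card : ℝ) ≤ n := by exact_mod_cast hn
  nlinarith

/-- exponential moments of a function of `F` which is bounded by the number of large strands of a box -/
theorem KB_av (L : ℕ) {lam : ℝ} (hlam : 1 ≤ lam) : ∃ C : ℝ, 0 < C ∧
    ∀ (F : Finset (ℤ × ℤ)) (K : Cfg → ℕ) (x₀ y₀ n : ℤ), 0 < n →
      F ⊆ RF x₀ (x₀ + n * L) y₀ (y₀ + n * L) → Dep (F : Set (ℤ × ℤ)) K →
      (∀ ω, K ω ≤ KB ω x₀ y₀ n L) → av F (fun ω => lam ^ K ω) ≤ C := by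
  obtain ⟨C, hC, h⟩ := KB_moment L hlam
  refine ⟨C, hC, fun F K x₀ y₀ n hn hF hd hK => ?_⟩
  rw [av_dep (S := F) (S' := RF x₀ (x₀ + n * L) y₀ (y₀ + n * L)) (by
    intro ω ω' hω
    simp only [hd ω ω' hω]) hF |>.symm, av_eq]
  refine le_trans ?_ (h x₀ y₀ n _ hn (Finset.Subset.refl _))
  exact div_le_div_of_nonneg_right (Finset.sum_le_sum fun T _ =>
    pow_le_pow_right₀ hlam (hK _)) (by positivity)

/-- **The mean of the majorant**, general form: `Y ≥ 0` depends on the faces off the inner boxes. -/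
theorem dom_gen (nV : ℕ) (t₀ T : ℝ) (ht₀ : 0 < t₀) (ht₁ : t₀ ≤ 1) (hT : 1 ≤ T) :
    ∃ C : ℝ, 1 ≤ C ∧ ∀ (ι : Type) (V : Finset ι) (F : Finset (ℤ × ℤ)) (v : ι → ℤ × ℤ)
      (PA PB : ι → UE → Prop) (r : ι → ℕ) (t : ι → ℝ) (D : Set (ℤ × ℤ)) (Y g : Cfg → ℝ), V.card ≤ nV →
      (∀ i ∈ V, ∀ e, PA i e → BdF (F : Set (ℤ × ℤ)) e) → (∀ i ∈ V, ∀ e, PB i e → BdF (F : Set (ℤ × ℤ)) e) →
      (∀ i ∈ V, ∀ e, PA i e → ¬ PB i e) →
      (∀ i ∈ V, ∀ s : ℤ, 0 < s → s ≤ r i → WSep (F : Set (ℤ × ℤ)) (PA i) (PB i) (v i) s) →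
      (∀ i ∈ V, ∀ j ∈ V, i ≠ j → Disjoint (BR (v i) (r i)) (BR (v j) (r j))) →
      (∀ i ∈ V, t₀ ≤ t i ∧ t i ≤ T) → (∀ ω, 0 ≤ Y ω) →
      (∀ i ∈ V, Dep ((F : Set (ℤ × ℤ)) ∩ (BR (v i) ((r i / 2 : ℕ) : ℤ) : Set (ℤ × ℤ)))ᶜ Y) → Dep Dᶜ Y →
      Dep D g → (∀ ω, 0 ≤ g ω) → (∀ i ∈ V, Disjoint D (BR (v i) (r i) : Set (ℤ × ℤ))) →
      av F (fun ω => (∏ i ∈ V, t i ^ NA F (PA i) (PB i) (v i) (r i) ω) * Y ω * g ω) ≤
        C * (∏ i ∈ V, av F (fun ω => t i ^ NA F (PA i) (PB i) (v i) (r i) ω)) *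
          Real.sqrt (av F (fun ω => Y ω ^ 2)) * av F g := by
  classical
  obtain ⟨c, hc⟩ := cM_moment
  obtain ⟨C₁, hC₁, h1⟩ := qm_upper c t₀ T 1 ht₀ ht₁ hT
  refine ⟨C₁ ^ nV, one_le_pow₀ hC₁, ?_⟩
  intro ι V F v PA PB r t D Y g hV hA hB hAB hs hdis ht hY0 hYd' hYD hg hg0 hD1
  -- the chain data on the subtype
  let Dt : ChainData (LH.avSys F) V :=
    { B := fun i => cB F (v i) (r i)
      N := fun i => cN F (PA i) (PB i) (v i) (r i)
      M := fun i => cM F (PA i) (PB i) (v i) (r i)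
      hB := fun i j => cB_anti j
      hdis := by
        rintro ⟨i, hi⟩ ⟨j, hj⟩ hne
        have h3 := hdis i hi j hj (fun h => hne (Subtype.ext h))
        rw [Set.disjoint_left]
        rintro f ⟨-, hf⟩ ⟨-, hf'⟩
        rw [rj_zero] at hf hf'
        exact Finset.disjoint_left.1 h3 (mem_coe.1 hf) (mem_coe.1 hf')
      hN := fun i j => dep_cN j
      hM := fun i j => dep_cM j
      hN1 := fun i j ω => cN_anti j ω
      hN2 := fun i j ω => cN_le (hA i i.2) (hB i i.2) (hAB i i.2) j ω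
      J := V.sup r
      hJ := fun i j hj ω => cN_of_zero (hAB i i.2) (rj_eq_zero
        ((Finset.le_sup (f := r) i.2).trans hj)) ω }
  have hgood : Dt.Good (fun i => t i) c t₀ T 1 :=
    { mom := fun lam hlam i j => hc lam hlam F (PA i) (PB i) (v i) (r i) j (hA i i.2) (hB i i.2)
        (hAB i i.2) (hs i i.2)
      t_nonneg := fun i => ht₀.le.trans (ht i i.2).1
      t_le := fun i => (ht i i.2).2
      scale := fun i => Or.inl (ht i i.2).1 }
  have hYd : ∀ i ∈ (Finset.univ : Finset V), (LH.avSys F).Dep (Dt.B i 1)ᶜ Y := by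
    intro i _
    exact hYd' i i.2
  have k1 := h1 Cfg (ℤ × ℤ) V (LH.avSys F) Dt (fun i => t i) hgood Finset.univ Y hY0 hYd
  have hrj : ∀ i, rj (r i) 0 = (r i : ℤ) := fun i => rj_zero (r i)
  set P : Cfg → ℝ := fun ω => ∏ i ∈ V, t i ^ NA F (PA i) (PB i) (v i) (r i) ω with hP
  have eP : ∀ ω, (∏ i ∈ (Finset.univ : Finset V), t i ^ Dt.N i 0 ω) = P ω := by
    intro ω
    rw [hP]
    simp only
    rw [← Finset.prod_coe_sort V (fun i => t i ^ NA F (PA i) (PB i) (v i) (r i) ω)]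
    refine Finset.prod_congr rfl fun i _ => ?_
    show t i ^ NA F (PA i) (PB i) (v i) (rj (r i) 0) ω = _
    rw [hrj]
  have eF : (∏ i ∈ (Finset.univ : Finset V), Dt.F i (t i) 0) =
      ∏ i ∈ V, av F (fun ω => t i ^ NA F (PA i) (PB i) (v i) (r i) ω) := by
    rw [← Finset.prod_coe_sort V (fun i => av F (fun ω => t i ^ NA F (PA i) (PB i) (v i) (r i) ω))]
    refine Finset.prod_congr rfl fun i _ => ?_
    show av F (fun ω => t i ^ NA F (PA i) (PB i) (v i) (rj (r i) 0) ω) = _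
    rw [hrj]
  have hF0 : 0 ≤ ∏ i ∈ V, av F (fun ω => t i ^ NA F (PA i) (PB i) (v i) (r i) ω) :=
    Finset.prod_nonneg fun i hi => av_nonneg fun _ _ => pow_nonneg (ht₀.le.trans (ht i hi).1) _
  have k4 : av F (fun ω => P ω * Y ω) ≤ C₁ ^ nV *
      (∏ i ∈ V, av F (fun ω => t i ^ NA F (PA i) (PB i) (v i) (r i) ω)) *
        Real.sqrt (av F (fun ω => Y ω ^ 2)) := by
    have e1 : av F (fun ω => P ω * Y ω) = (LH.avSys F).E (fun ω =>
        (∏ i ∈ (Finset.univ : Finset V), t i ^ Dt.N i 0 ω) * Y ω) := by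
      rw [LH.avSys_E]
      exact av_congr fun T' _ => by simp only [eP]
    rw [e1]
    refine k1.trans ?_
    rw [eF, Finset.card_univ, Fintype.card_coe]
    have h5 : C₁ ^ V.card ≤ C₁ ^ nV := pow_le_pow_right₀ hC₁ hV
    exact mul_le_mul_of_nonneg_right (mul_le_mul_of_nonneg_right h5 hF0) (Real.sqrt_nonneg _)
  -- the leg
  have k5 : av F (fun ω => P ω * Y ω * g ω) = av F (fun ω => P ω * Y ω) * av F g := by
    refine LH.av_indep_set (A := Dᶜ) (B := D) ?_ ?_ hg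
    · exact disjoint_compl_left
    · intro ω ω' hω
      have e1 : P ω = P ω' := by
        refine Finset.prod_congr rfl fun i hi => ?_
        congr 1
        refine (depN_NA (F : Set (ℤ × ℤ)) (PA i) (PB i) (v i) (r i) : Dep _ _) ω ω' fun f hf =>
          hω f fun hfD => ?_
        exact Set.disjoint_left.1 (hD1 i hi) hfD hf.2
      show P ω * Y ω = P ω' * Y ω'
      rw [e1, hYD ω ω' hω]
  rw [k5]
  exact mul_le_mul_of_nonneg_right k4 (av_nonneg fun _ _ => hg0 _)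

/-- **The mean of the majorant**, with crossing numbers of annuli. -/
theorem dom_av (κ nV nS : ℕ) (t₀ T L : ℝ) (ht₀ : 0 < t₀) (ht₁ : t₀ ≤ 1) (hT : 1 ≤ T) (hL : 1 ≤ L) :
    ∃ C : ℝ, 1 ≤ C ∧ ∀ (ι σ : Type) (V : Finset ι) (S : Finset σ) (F : Finset (ℤ × ℤ)) (v : ι → ℤ × ℤ)
      (PA PB : ι → UE → Prop) (r : ι → ℕ) (t : ι → ℝ) (p : σ → ℤ × ℤ) (a b : σ → ℤ) (D : Set (ℤ × ℤ))
      (g : Cfg → ℝ), V.card ≤ nV → S.card ≤ nS →
      (∀ i ∈ V, ∀ e, PA i e → BdF (F : Set (ℤ × ℤ)) e) → (∀ i ∈ V, ∀ e, PB i e → BdF (F : Set (ℤ × ℤ)) e) →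
      (∀ i ∈ V, ∀ e, PA i e → ¬ PB i e) →
      (∀ i ∈ V, ∀ s : ℤ, 0 < s → s ≤ r i → WSep (F : Set (ℤ × ℤ)) (PA i) (PB i) (v i) s) →
      (∀ i ∈ V, ∀ j ∈ V, i ≠ j → Disjoint (BR (v i) (r i)) (BR (v j) (r j))) →
      (∀ i ∈ V, t₀ ≤ t i ∧ t i ≤ T) →
      (∀ s ∈ S, 0 < a s ∧ a s < b s ∧ a s ≤ κ * (b s - a s)) →
      (∀ s ∈ S, ∀ i ∈ V, Disjoint (An (p s) (a s) (b s)) (BR (v i) ((r i / 2 : ℕ) : ℤ))) →
      Dep D g → (∀ ω, 0 ≤ g ω) → (∀ i ∈ V, Disjoint D (BR (v i) (r i) : Set (ℤ × ℤ))) →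
      (∀ s ∈ S, Disjoint D (An (p s) (a s) (b s) : Set (ℤ × ℤ))) →
      av F (fun ω => (∏ i ∈ V, t i ^ NA F (PA i) (PB i) (v i) (r i) ω) *
        L ^ (∑ s ∈ S, NF F (p s) (a s) (b s) ω) * g ω) ≤
        C * (∏ i ∈ V, av F (fun ω => t i ^ NA F (PA i) (PB i) (v i) (r i) ω)) * av F g := by
  classical
  obtain ⟨C₁, hC₁, h1⟩ := dom_gen nV t₀ T ht₀ ht₁ hT
  obtain ⟨C₂, hC₂, h2⟩ := NF_sum κ nS (one_le_pow₀ hL (n := 2))
  refine ⟨C₁ * (1 + C₂), by nlinarith, ?_⟩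
  intro ι σ V S F v PA PB r t p a b D g hV hS hA hB hAB hs hdis ht hann hoff hg hg0 hD1 hD2
  set Y : Cfg → ℝ := fun ω => L ^ (∑ s ∈ S, NF F (p s) (a s) (b s) ω) with hY
  have hL0 : (0 : ℝ) ≤ L := by linarith
  have hY0 : ∀ ω, 0 ≤ Y ω := fun ω => by positivity
  have hNFd : ∀ s, Dep ((F : Set (ℤ × ℤ)) ∩ (An (p s) (a s) (b s) : Set (ℤ × ℤ)))
      (NF (F : Set (ℤ × ℤ)) (p s) (a s) (b s)) := fun s => depN_NF _ _ _ _
  have hYd : ∀ i ∈ V, Dep ((F : Set (ℤ × ℤ)) ∩ (BR (v i) ((r i / 2 : ℕ) : ℤ) : Set (ℤ × ℤ)))ᶜ Y := by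
    intro i hi ω ω' hω
    show L ^ _ = L ^ _
    congr 1
    refine Finset.sum_congr rfl fun s hs' => hNFd s ω ω' fun f hf => hω f ?_
    rintro ⟨-, hf'⟩
    exact Finset.disjoint_left.1 (hoff s hs' i hi) (mem_coe.1 hf.2) (mem_coe.1 hf')
  have hYD : Dep Dᶜ Y := by
    intro ω ω' hω
    show L ^ _ = L ^ _
    congr 1
    refine Finset.sum_congr rfl fun s hs' => hNFd s ω ω' fun f hf => hω f fun hfD => ?_
    exact Set.disjoint_left.1 (hD2 s hs') hfD hf.2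
  have k1 := h1 ι V F v PA PB r t D Y g hV hA hB hAB hs hdis ht hY0 hYd hYD hg hg0 hD1
  have k2 : av F (fun ω => Y ω ^ 2) ≤ C₂ := by
    refine le_trans (le_of_eq ?_) (h2 σ S F p a b hS hann)
    congr 1
    funext ω
    rw [hY]
    simp only
    rw [← pow_mul, ← pow_mul, mul_comm]
  have k3 : Real.sqrt (av F (fun ω => Y ω ^ 2)) ≤ 1 + C₂ := by
    refine Real.sqrt_le_iff.2 ⟨by positivity, k2.trans ?_⟩
    nlinarith
  have hF0 : 0 ≤ ∏ i ∈ V, av F (fun ω => t i ^ NA F (PA i) (PB i) (v i) (r i) ω) :=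
    Finset.prod_nonneg fun i hi => av_nonneg fun _ _ => pow_nonneg (ht₀.le.trans (ht i hi).1) _
  refine k1.trans ?_
  have hg1 : 0 ≤ av F g := av_nonneg fun _ _ => hg0 _
  calc C₁ * (∏ i ∈ V, av F (fun ω => t i ^ NA F (PA i) (PB i) (v i) (r i) ω)) *
        Real.sqrt (av F (fun ω => Y ω ^ 2)) * av F g
      ≤ C₁ * (∏ i ∈ V, av F (fun ω => t i ^ NA F (PA i) (PB i) (v i) (r i) ω)) *
        (1 + C₂) * av F g := by
        refine mul_le_mul_of_nonneg_right (mul_le_mul_of_nonneg_left k3 ?_) hg1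
        exact mul_nonneg (by linarith) hF0
    _ = _ := by ring

end

end Pool.Agent.SixB.DomUp
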