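import Pool.Agent.Lib.SixB.S0Ins

/-!
# 6BD: the mean height difference as a sum over strands

Every complex of quadrangles `Q`, every finite set of faces `F` with mod 2 potentials (`HasPotQ Q F`).
* `IsLft Q F X L`: `L : V → ℤ` has values `0, 1`, and `L a.1 - L a.2 = [a ∈ X] - [a.swap ∈ X]` for every
  directed unit edge `a` (`L z = 1`: `z` is on the left of the directed strand `X`). `exists_lft`.
* `Zs_one`: `Zs` with the sign of one arrow inserted.
* `HW Q F ω h z`: the weighted height; `HW_sub`: `HW a.1 - HW a.2 = Zs (h * sgE a)` for `a ∈ dE Q F`.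
  `HW_diff`: `HW z - HW z'` = sum over the strands of `(L z - L z')` (difference of the two weights of the
  strand) (product of the sums of the weights of the other strands).
-/

set_option autoImplicit false
set_option linter.unusedSectionVars false

namespace Pool.Agent.SixB.Tilt

open Pool.Agent.Perc.Q Relation

noncomputable section

variable {V Φ : Type} [DecidableEq V] [DecidableEq Φ]
variable {Q : QC V Φ} {F : Finset Φ} {ω : Φ → Bool} {a b e : V × V} {z z' : V} {X : Finset (V × V)}

/-- every set of unit edges which is matched in every face of `F` has a mod 2 potential -/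
def HasPotQ (Q : QC V Φ) (F : Finset Φ) : Prop :=
  ∀ M : Set (V × V), (∀ a, a ∈ M → a.swap ∈ M) →
    (∀ f ∈ F, ∃ b : Bool, ∀ k : ZMod 4, b = ev k → (sd Q f k ∈ M ↔ sd Q f (k + 1) ∈ M)) →
    ∃ κ : V → ZMod 2, ∀ a ∈ dE Q F, (a ∈ M ↔ κ a.1 ≠ κ a.2)

/-- `L z = 1` on the left of the directed strand `X`, `0` on the right -/
structure IsLft (Q : QC V Φ) (F : Finset Φ) (X : Finset (V × V)) (L : V → ℤ) : Prop where
  val : ∀ z, L z = 0 ∨ L z = 1
  inc : ∀ a ∈ dE Q F, L a.1 - L a.2 = (if a ∈ X then 1 else 0) - (if a.swap ∈ X then 1 else 0)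

/-- both directions of the edges of a strand -/
theorem un_step (hX : X ∈ dstr Q F ω) {f : Φ} (hf : f ∈ F) {k : ZMod 4} (h : ω f = ev k) :
    (sd Q f k ∈ X ∨ (sd Q f k).swap ∈ X) ↔ (sd Q f (k + 1) ∈ X ∨ (sd Q f (k + 1)).swap ∈ X) := by
  obtain ⟨c, hc, rfl⟩ := mem_dstr.mp hX
  have h1 : Nx Q ω (F : Set Φ) (sd Q f k) (sd Q f (k + 1)).swap := by
    have := Nx.mk_left (Q := Q) (F := (F : Set Φ)) (by exact_mod_cast hf : f ∈ (F : Set Φ)) h
    unfold sd
    rw [z1]
    exact this
  have h2 := h1.rev
  rw [Prod.swap_swap] at h2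
  have key : ∀ {x y : V × V}, Nx Q ω (F : Set Φ) x y → (x ∈ dst Q F ω c ↔ y ∈ dst Q F ω c) := by
    intro x y hxy
    rw [mem_dst, mem_dst]
    constructor
    · rintro ⟨-, h3⟩
      exact ⟨Nx.right_mem hxy, EqvGen.trans _ _ _ h3 (EqvGen.rel _ _ hxy)⟩
    · rintro ⟨-, h3⟩
      exact ⟨Nx.left_mem hxy, EqvGen.trans _ _ _ h3 (EqvGen.symm _ _ (EqvGen.rel _ _ hxy))⟩
  rw [key h1, ← key h2]
  tauto

/-- the left corners of a strand have one value of the potential, the right corners the other one -/
theorem exists_lft (hP : HasPotQ Q F) (hX : X ∈ dstr Q F ω) :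
    ∃ L : V → ℤ, IsLft Q F X L := by
  classical
  obtain ⟨κ, hκ⟩ := hP {a | a ∈ X ∨ a.swap ∈ X}
    (fun a ha => by
      rcases ha with h | h
      · exact Or.inr (by rw [Prod.swap_swap]; exact h)
      · exact Or.inl h)
    (fun f hf => ⟨ω f, fun k hk => un_step hX hf hk⟩)
  obtain ⟨c, hc, hXc⟩ := mem_dstr.mp hX
  have hsub : ∀ x ∈ X, x ∈ dE Q F := fun x hx => (dstr_of_mem hX hx).1
  have hne : ∀ x ∈ X, κ x.1 ≠ κ x.2 := fun x hx => (hκ x (hsub x hx)).mp (Or.inl hx)
  have hstep : ∀ x y, Nx Q ω (F : Set Φ) x y → x ∈ X → y ∈ X → κ x.1 = κ y.1 := by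
    intro x y hxy hx hy
    have h1 := hne x hx
    have h2 := hne y hy
    obtain ⟨f, hf, k, rfl, ⟨-, rfl⟩ | ⟨-, rfl⟩⟩ := hxy
    · simp only at h1 h2 ⊢
      generalize κ (Q.c f k) = p at *
      generalize κ (Q.c f (k + 1)) = q at *
      generalize κ (Q.c f (k + 2)) = r at *
      revert p q r
      decide
    · rfl
  have hstep' : ∀ x y, SRel Q F ω x y → x ∈ X → κ x.1 = κ y.1 := by
    intro x y hxy
    have hcl : ∀ u v, SRel Q F ω u v → u ∈ X → v ∈ dE Q F → v ∈ X := by
      intro u v huv hu hv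
      rw [← hXc] at hu ⊢
      exact mem_dst.mpr ⟨hv, EqvGen.trans _ _ _ (mem_dst.mp hu).2 huv⟩
    induction hxy with
    | rel u v h =>
      intro hu
      exact hstep u v h hu (hcl u v (EqvGen.rel _ _ h) hu (Nx.right_mem h))
    | refl u => intro _; rfl
    | symm u v h ih =>
      intro hv
      have hu : u ∈ X ∨ u = v := by
        by_cases huv : u = v
        · exact Or.inr huv
        · left
          refine hcl v u (EqvGen.symm _ _ h) hv ?_
          rcases srel_iff.mp h with h1 | h1
          · rcases ReflTransGen.cases_head h1 with h2 | ⟨w, h2, -⟩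
            · exact absurd h2 huv
            · exact Nx.left_mem h2
          · rcases ReflTransGen.cases_tail h1 with h2 | ⟨w, -, h2⟩
            · exact absurd h2 huv
            · exact Nx.right_mem h2
      rcases hu with hu | hu
      · exact (ih hu).symm
      · rw [hu]
    | trans u v w h1 h2 ih1 ih2 =>
      intro hu
      have hv : v ∈ X ∨ u = v := by
        by_cases huv : u = v
        · exact Or.inr huv
        · left
          refine hcl u v h1 hu ?_
          rcases srel_iff.mp h1 with h3 | h3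
          · rcases ReflTransGen.cases_tail h3 with h4 | ⟨w, -, h4⟩
            · exact absurd h4.symm huv
            · exact Nx.right_mem h4
          · rcases ReflTransGen.cases_head h3 with h4 | ⟨w, h4, -⟩
            · exact absurd h4.symm huv
            · exact Nx.left_mem h4
      rcases hv with hv | hv
      · exact (ih1 hu).trans (ih2 hv)
      · rw [hv] at hu ⊢
        exact ih2 hu
  have hcX : c ∈ X := by rw [← hXc]; exact self_mem_dst hc
  have hval : ∀ x ∈ X, κ x.1 = κ c.1 := by
    intro x hx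
    have h1 : SRel Q F ω c x := by
      rw [← hXc] at hx
      exact (mem_dst.mp hx).2
    exact (hstep' c x h1 hcX).symm
  have hval2 : ∀ x ∈ X, κ x.2 ≠ κ c.1 := fun x hx h => hne x hx ((hval x hx).trans h.symm)
  refine ⟨fun w => if κ w = κ c.1 then 1 else 0, ⟨fun w => ?_, fun x hx => ?_⟩⟩
  · by_cases h : κ w = κ c.1
    · right; simp [h]
    · left; simp [h]
  · by_cases h1 : x ∈ X
    · have h2 : x.swap ∉ X := by
        intro h2
        have h3 := hval2 _ h2
        exact h3 (hval x h1)
      rw [if_pos h1, if_neg h2, if_pos (hval x h1), if_neg (hval2 x h1)]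
    · by_cases h2 : x.swap ∈ X
      · have h3 := hval _ h2
        have h4 := hval2 _ h2
        simp only [Prod.fst_swap, Prod.snd_swap] at h3 h4
        rw [if_neg h1, if_pos h2, if_neg h4, if_pos h3]
      · have h3 : κ x.1 = κ x.2 := by
          by_contra h
          rcases (hκ x hx).mpr h with h | h
          · exact h1 h
          · exact h2 h
        rw [if_neg h1, if_neg h2, h3]
        simp

/-- **Insertion of one sign.** -/
theorem Zs_one (hQ : NoLoop Q) (h : V × V → ℂ) (he : e ∈ dE Q F) :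
    Zs Q F ω (fun a => h a * sgE e a) =
      (∏ U ∈ (ust Q F ω).erase (usE Q F ω e), ∑ X ∈ U, sw Q F ω h X) * swm Q F ω h e := by
  unfold Zs
  have hsw : ∀ X, sw Q F ω (fun a => h a * sgE e a) X = sw Q F ω h X * eps e X := by
    intro X
    rw [sw_mul h (sgE e), prod_sgE]
  simp only [hsw]
  have hU := usE_mem (ω := ω) he
  rw [← Finset.mul_prod_erase _ _ hU, mul_comm]
  congr 1
  · refine Finset.prod_congr rfl fun U hU2 => ?_
    obtain ⟨h3, h4⟩ := Finset.mem_erase.mp hU2
    refine Finset.sum_congr rfl fun X hX => ?_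
    rw [eps_of_notMem he h4 h3 hX, mul_one]
  · rw [sum_usE hQ he, (eps_self hQ he).1, (eps_self hQ he).2]
    unfold swm
    ring

/-! ## Heights -/

open Classical in
/-- the left indicator of a directed strand -/
def lft (Q : QC V Φ) (F : Finset Φ) (X : Finset (V × V)) : V → ℤ :=
  if h : ∃ L : V → ℤ, IsLft Q F X L then h.choose else fun _ => 0

theorem lft_spec (hP : HasPotQ Q F) (hX : X ∈ dstr Q F ω) : IsLft Q F X (lft Q F X) := by
  have h := exists_lft hP hX
  unfold lft
  rw [dif_pos h]
  exact h.choose_spec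

theorem IsLft.abs_le {L : V → ℤ} (h : IsLft Q F X L) (z z' : V) : |L z - L z'| ≤ 1 := by
  rcases h.val z with h1 | h1 <;> rcases h.val z' with h2 | h2 <;> rw [h1, h2] <;> decide

/-- a path along the unit edges of the faces of `G` -/
def ConnE (Q : QC V Φ) (G : Finset Φ) (z z' : V) : Prop :=
  ReflTransGen (fun u v => (u, v) ∈ dE Q G) z z'

theorem ConnE.symm {G : Finset Φ} (h : ConnE Q G z z') : ConnE Q G z' z :=
  rtg_symm (fun u v huv => by
    have := swap_mem_dE.mpr huv
    exact this) h

theorem dE_mono {G : Finset Φ} (hG : G ⊆ F) (h : a ∈ dE Q G) : a ∈ dE Q F := by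
  obtain ⟨f, hf, k, h⟩ := mem_dE.mp h
  exact mem_dE.mpr ⟨f, hG hf, k, h⟩

/-- a function is determined up to a constant by its increments along the unit edges -/
theorem sub_eq_of_inc {R : Type} [AddCommGroup R] {G : Finset Φ} {u v : V → R}
    (h : ∀ a ∈ dE Q G, u a.1 - u a.2 = v a.1 - v a.2) (hz : ConnE Q G z z') :
    u z - u z' = v z - v z' := by
  induction hz with
  | refl => rw [sub_self, sub_self]
  | @tail x y _ hs ih =>
    have h1 := h (x, y) hs
    simp only at h1
    rw [show u z - u y = (u z - u x) + (u x - u y) by abel, ih, h1]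
    abel

/-- two left indicators of one strand have the same differences -/
theorem IsLft.diff {L L' : V → ℤ} (h : IsLft Q F X L) (h' : IsLft Q F X L')
    (hz : ConnE Q F z z') : L z - L z' = L' z - L' z' :=
  sub_eq_of_inc (fun a ha => by rw [h.inc a ha, h'.inc a ha]) hz

/-- the reversed strand -/
theorem IsLft.rev {L : V → ℤ} (h : IsLft Q F X L) : IsLft Q F (rv X) (fun w => 1 - L w) := by
  refine ⟨fun w => ?_, fun a ha => ?_⟩
  · rcases h.val w with h1 | h1 <;> simp [h1]
  · have h1 := h.inc a ha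
    rw [show (1 - L a.1) - (1 - L a.2) = -(L a.1 - L a.2) by ring, h1]
    simp only [mem_rv, Prod.swap_swap]
    ring

/-- a strand which separates two vertices which are joined in `G` has a unit edge in `G` -/
theorem IsLft.visits {L : V → ℤ} (h : IsLft Q F X L) {G : Finset Φ} (hG : G ⊆ F)
    (hz : ConnE Q G z z') (hne : L z ≠ L z') : ∃ a ∈ dE Q G, a ∈ X ∨ a.swap ∈ X := by
  by_contra hcon
  push Not at hcon
  apply hne
  have h1 : L z - L z' = (0 : ℤ) - 0 :=
    sub_eq_of_inc (v := fun _ => (0 : ℤ)) (fun a ha => by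
      rw [h.inc a (dE_mono hG ha), if_neg (hcon a ha).1, if_neg (hcon a ha).2]) hz
  omega

open Classical in
/-- a representative of an undirected strand -/
def rep (U : Finset (Finset (V × V))) : Finset (V × V) :=
  if h : U.Nonempty then h.choose else ∅

theorem rep_mem {U : Finset (Finset (V × V))} (hU : U ∈ ust Q F ω) : rep U ∈ U := by
  obtain ⟨a, -, rfl⟩ := mem_ust.mp hU
  have h : ({dst Q F ω a, dst Q F ω a.swap} : Finset (Finset (V × V))).Nonempty :=
    Finset.insert_nonempty _ _
  unfold rep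
  rw [dif_pos h]
  exact h.choose_spec

theorem ust_eq {U : Finset (Finset (V × V))} (hU : U ∈ ust Q F ω) (hX : X ∈ U) :
    X ∈ dstr Q F ω ∧ U = {X, rv X} := by
  obtain ⟨a, ha, rfl⟩ := mem_ust.mp hU
  rw [Finset.mem_insert, Finset.mem_singleton] at hX
  rcases hX with rfl | rfl
  · exact ⟨mem_dstr.mpr ⟨a, ha, rfl⟩, by rw [rv_dst]⟩
  · refine ⟨mem_dstr.mpr ⟨a.swap, swap_mem_dE.mpr ha, rfl⟩, ?_⟩
    rw [rv_dst, Prod.swap_swap, Finset.pair_comm]

/-- the product of the strand sums of the strands other than `U` -/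
def prodE (Q : QC V Φ) (F : Finset Φ) (ω : Φ → Bool) (h : V × V → ℂ)
    (U : Finset (Finset (V × V))) : ℂ := ∏ U' ∈ (ust Q F ω).erase U, ∑ X ∈ U', sw Q F ω h X

/-- the difference of the two weights of the strand of `X` -/
def swd (Q : QC V Φ) (F : Finset Φ) (ω : Φ → Bool) (h : V × V → ℂ) (X : Finset (V × V)) : ℂ :=
  sw Q F ω h X - sw Q F ω h (rv X)

theorem swd_rv (h : V × V → ℂ) (X : Finset (V × V)) :
    swd Q F ω h (rv X) = -swd Q F ω h X := by
  unfold swd
  rw [rv_rv]
  ring

theorem swd_dst (h : V × V → ℂ) : swd Q F ω h (dst Q F ω e) = swm Q F ω h e := by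
  unfold swd swm
  rw [rv_dst]

/-- the weighted height -/
def HW (Q : QC V Φ) (F : Finset Φ) (ω : Φ → Bool) (h : V × V → ℂ) (z : V) : ℂ :=
  ∑ U ∈ ust Q F ω, prodE Q F ω h U * ((lft Q F (rep U) z : ℂ) * swd Q F ω h (rep U))

/-- the weighted height difference as a sum over the strands -/
theorem HW_diff (h : V × V → ℂ) (z z' : V) : HW Q F ω h z - HW Q F ω h z' =
    ∑ U ∈ ust Q F ω, prodE Q F ω h U *
      (((lft Q F (rep U) z - lft Q F (rep U) z' : ℤ) : ℂ) * swd Q F ω h (rep U)) := by
  unfold HW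
  rw [← Finset.sum_sub_distrib]
  refine Finset.sum_congr rfl fun U _ => ?_
  push_cast
  ring

/-- the term of a strand does not depend on the direction -/
theorem lft_swd (hP : HasPotQ Q F) (h : V × V → ℂ) {U : Finset (Finset (V × V))}
    (hU : U ∈ ust Q F ω) (hX : X ∈ U) {L : V → ℤ} (hL : IsLft Q F X L) (hz : ConnE Q F z z') :
    ((lft Q F (rep U) z - lft Q F (rep U) z' : ℤ) : ℂ) * swd Q F ω h (rep U) =
      ((L z - L z' : ℤ) : ℂ) * swd Q F ω h X := by
  obtain ⟨h1, h2⟩ := ust_eq hU (rep_mem hU)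
  have hs := lft_spec hP h1
  rw [h2, Finset.mem_insert, Finset.mem_singleton] at hX
  rcases hX with rfl | rfl
  · rw [hs.diff hL hz]
  · rw [swd_rv, ← hs.rev.diff hL hz]
    push_cast
    ring

/-- **the increments of the weighted height are the sign insertions** -/
theorem HW_sub (hQ : NoLoop Q) (hP : HasPotQ Q F) (h : V × V → ℂ) (he : e ∈ dE Q F) :
    HW Q F ω h e.1 - HW Q F ω h e.2 = Zs Q F ω (fun a => h a * sgE e a) := by
  rw [HW_diff, Zs_one hQ h he, Finset.sum_eq_single (usE Q F ω e)]
  · unfold prodE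
    congr 1
    have hU := usE_mem (ω := ω) he
    have hX : dst Q F ω e ∈ usE Q F ω e := by unfold usE; simp
    have hs := lft_spec hP (ust_eq hU hX).1
    have hz : ConnE Q F e.1 e.2 := ReflTransGen.single (by exact he)
    rw [lft_swd hP h hU hX hs hz, hs.inc e he, if_pos (self_mem_dst he), if_neg, swd_dst]
    · push_cast
      ring
    · intro h1
      exact not_srel_swap hQ he (mem_dst.mp h1).2
  · intro U hU hne
    obtain ⟨h1, h2⟩ := ust_eq hU (rep_mem hU)
    have hs := lft_spec hP h1
    have h3 : e ∉ rep U := by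
      intro h3
      apply hne
      have h4 := (dstr_of_mem h1 h3).2
      rw [h2, h4, rv_dst]
      rfl
    have h5 : e.swap ∉ rep U := by
      intro h5
      apply hne
      have h4 := (dstr_of_mem h1 h5).2
      rw [h2, h4, rv_dst, Prod.swap_swap, Finset.pair_comm]
      rfl
    rw [hs.inc e he, if_neg h3, if_neg h5]
    push_cast
    ring
  · intro hU
    exact absurd (usE_mem he) hU

end

end Pool.Agent.SixB.Tilt
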