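import Pool.Agent.Lib.SixB.S0Z
import Pool.Agent.Lib.SixB.S4Strands

/-!
# 6BD block CA: the mean height of a domain with boundary phases, all vertices (namespace `Ht`)

Every complex of quadrangles `Q` without loops, every finite set of faces `F` with mod 2 potentials
(`Tilt.HasPotQ`), boundary phases `ψ`.
* `HR Q F ψ z ω`: height numerator of the smoothing `ω` (real form of `Tilt.HW`): sum over the strands
  `X` of `lft X z * 2 sin (agl X) * (product of 2 cos (agl) over the other strands)`; strands of weight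
  zero are kept. `HR_sub`: `HR a.1 - HR a.2 = WU1 a` for every unit edge `a`.
* `HD Q F ψ z z' = av (HR z - HR z')`, `uH Q F ψ z z' = HD z z' / av WU`: mean height difference
  divided by `i`. `uH_edge`: `uH a.1 a.2 = uE a`; cocycle (`uH_add`, `uH_swap`), `uH_path`, `uH_unique`.
* Arrow side: `IsHgt Q F α H`: `H` is a height function of the arrow configuration `α` (increment `1` from
  the right to the left of an arrow); `exists_hgt`: it exists if the weight of `α` is not zero.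
  `Z6_hgt`: the arrow sum of the height difference is `i * 2 ^ |F| * HD z z'`; `Z6_hgt_div`: the mean
  height difference is `i * uH z z'`.
* `HT`, `uT`: finite families of phases (for the sum over both sides at a mark).
-/

set_option autoImplicit false
set_option linter.unusedSectionVars false

namespace Pool.Agent.SixB.Ht

open Pool.Agent.Perc.Q Relation

noncomputable section

variable {V Φ : Type} [DecidableEq V] [DecidableEq Φ]
variable {Q : QC V Φ} {F : Finset Φ} {ω : Φ → Bool} {a b e : V × V} {X : Finset (V × V)}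
  {ψ : V × V → ℝ} {x y z z' z'' : V}

/-! ## The height numerator of a smoothing -/

/-- height numerator of a smoothing -/
def HR (Q : QC V Φ) (F : Finset Φ) (ψ : V × V → ℝ) (z : V) (ω : Φ → Bool) : ℝ :=
  ∑ U ∈ ust Q F ω, (∏ U' ∈ (ust Q F ω).erase U, uc Q F ω ψ U') *
    ((Tilt.lft Q F (Tilt.rep U) z : ℝ) * (2 * Real.sin (agl Q F ω ψ (Tilt.rep U))))

theorem swd_agl (hX : X ∈ dstr Q F ω) : Tilt.swd Q F ω (bph Q F ψ) X =
    ((2 * Real.sin (agl Q F ω ψ X) : ℝ) : ℂ) * Complex.I := by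
  unfold Tilt.swd
  rw [sw_agl, sw_agl, agl_rv hX, exp_sub_exp_neg]

theorem prodE_uc (hQ : NoLoop Q) (U : Finset (Finset (V × V))) :
    Tilt.prodE Q F ω (bph Q F ψ) U = ((∏ U' ∈ (ust Q F ω).erase U, uc Q F ω ψ U' : ℝ) : ℂ) := by
  unfold Tilt.prodE
  push_cast
  exact Finset.prod_congr rfl fun U' hU' => sum_sw hQ (Finset.mem_erase.mp hU').2

/-- the link with the weighted height of `S4Strands` -/
theorem HW_eq (hQ : NoLoop Q) (z : V) :
    Tilt.HW Q F ω (bph Q F ψ) z = ((HR Q F ψ z ω : ℝ) : ℂ) * Complex.I := by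
  unfold Tilt.HW HR
  push_cast
  rw [Finset.sum_mul]
  refine Finset.sum_congr rfl fun U hU => ?_
  rw [prodE_uc hQ, swd_agl (Tilt.ust_eq hU (Tilt.rep_mem hU)).1]
  push_cast
  ring

theorem HR_diff (z z' : V) : HR Q F ψ z ω - HR Q F ψ z' ω =
    ∑ U ∈ ust Q F ω, (∏ U' ∈ (ust Q F ω).erase U, uc Q F ω ψ U') *
      (((Tilt.lft Q F (Tilt.rep U) z - Tilt.lft Q F (Tilt.rep U) z' : ℤ) : ℝ) *
        (2 * Real.sin (agl Q F ω ψ (Tilt.rep U)))) := by
  unfold HR
  rw [← Finset.sum_sub_distrib]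
  refine Finset.sum_congr rfl fun U _ => ?_
  push_cast
  ring

/-- the term of a strand does not depend on the direction and on the left indicator -/
theorem lft_sin (hP : Tilt.HasPotQ Q F) {U : Finset (Finset (V × V))} (hU : U ∈ ust Q F ω)
    (hX : X ∈ U) {L : V → ℤ} (hL : Tilt.IsLft Q F X L) (hz : Tilt.ConnE Q F z z') :
    ((Tilt.lft Q F (Tilt.rep U) z - Tilt.lft Q F (Tilt.rep U) z' : ℤ) : ℝ) *
      (2 * Real.sin (agl Q F ω ψ (Tilt.rep U))) =
      ((L z - L z' : ℤ) : ℝ) * (2 * Real.sin (agl Q F ω ψ X)) := by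
  obtain ⟨h1, h2⟩ := Tilt.ust_eq hU (Tilt.rep_mem hU)
  have hs := Tilt.lft_spec hP h1
  rw [h2, Finset.mem_insert, Finset.mem_singleton] at hX
  rcases hX with rfl | rfl
  · rw [hs.diff hL hz]
  · rw [agl_rv h1, ← hs.rev.diff hL hz, Real.sin_neg]
    push_cast
    ring

/-- **increments of the height numerator** -/
theorem HR_sub (hQ : NoLoop Q) (hP : Tilt.HasPotQ Q F) (he : e ∈ dE Q F) :
    HR Q F ψ e.1 ω - HR Q F ψ e.2 ω = WU1 Q F ψ e ω := by
  have h1 := Tilt.HW_sub (ω := ω) hQ hP (bph Q F ψ) he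
  rw [HW_eq hQ, HW_eq hQ, Zs_WU1 hQ he, ← sub_mul] at h1
  have h2 := mul_right_cancel₀ Complex.I_ne_zero h1
  exact_mod_cast h2

/-! ## Mean height differences -/

/-- averaged height numerator of a pair of vertices -/
def HD (Q : QC V Φ) (F : Finset Φ) (ψ : V × V → ℝ) (z z' : V) : ℝ :=
  av F (fun ω => HR Q F ψ z ω - HR Q F ψ z' ω)

/-- mean height difference, divided by `i` -/
def uH (Q : QC V Φ) (F : Finset Φ) (ψ : V × V → ℝ) (z z' : V) : ℝ :=
  HD Q F ψ z z' / av F (WU Q F ψ)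

theorem HD_eq (z z' : V) : HD Q F ψ z z' = av F (HR Q F ψ z) - av F (HR Q F ψ z') := by
  unfold HD
  exact av_sub

theorem HD_self (z : V) : HD Q F ψ z z = 0 := by rw [HD_eq, sub_self]

theorem HD_swap (z z' : V) : HD Q F ψ z' z = -HD Q F ψ z z' := by
  rw [HD_eq, HD_eq]; ring

theorem HD_add (z z' z'' : V) : HD Q F ψ z z' + HD Q F ψ z' z'' = HD Q F ψ z z'' := by
  rw [HD_eq, HD_eq, HD_eq]; ring

theorem HD_edge (hQ : NoLoop Q) (hP : Tilt.HasPotQ Q F) (he : e ∈ dE Q F) :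
    HD Q F ψ e.1 e.2 = av F (WU1 Q F ψ e) :=
  av_congr fun _ _ => HR_sub hQ hP he

theorem uH_self (z : V) : uH Q F ψ z z = 0 := by unfold uH; rw [HD_self, zero_div]

theorem uH_swap (z z' : V) : uH Q F ψ z' z = -uH Q F ψ z z' := by
  unfold uH; rw [HD_swap, neg_div]

theorem uH_add (z z' z'' : V) : uH Q F ψ z z' + uH Q F ψ z' z'' = uH Q F ψ z z'' := by
  unfold uH; rw [← add_div, HD_add]

theorem uH_sub (z z' z'' : V) : uH Q F ψ z z'' - uH Q F ψ z' z'' = uH Q F ψ z z' := by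
  rw [← uH_add z z' z'']; ring

theorem uH_edge (hQ : NoLoop Q) (hP : Tilt.HasPotQ Q F) (he : e ∈ dE Q F) :
    uH Q F ψ e.1 e.2 = uE Q F ψ e := by
  unfold uH uE
  rw [HD_edge hQ hP he]

/-- along a path of unit edges -/
theorem HD_path (hQ : NoLoop Q) (hP : Tilt.HasPotQ Q F) (γ : ℕ → V) (n : ℕ)
    (h : ∀ i < n, (γ i, γ (i + 1)) ∈ dE Q F) :
    HD Q F ψ (γ 0) (γ n) = ∑ i ∈ Finset.range n, av F (WU1 Q F ψ (γ i, γ (i + 1))) := by
  induction n with
  | zero => rw [Finset.sum_range_zero, HD_self]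
  | succ n ih =>
    rw [Finset.sum_range_succ, ← ih fun i hi => h i (by omega), ← HD_add (γ 0) (γ n) (γ (n + 1)),
      ← HD_edge hQ hP (h n (Nat.lt_succ_self n))]

theorem uH_path (hQ : NoLoop Q) (hP : Tilt.HasPotQ Q F) (γ : ℕ → V) (n : ℕ)
    (h : ∀ i < n, (γ i, γ (i + 1)) ∈ dE Q F) :
    uH Q F ψ (γ 0) (γ n) = ∑ i ∈ Finset.range n, uE Q F ψ (γ i, γ (i + 1)) := by
  unfold uH uE
  rw [HD_path hQ hP γ n h, Finset.sum_div]

/-- a function with the increments `uE` -/
theorem uH_unique (hQ : NoLoop Q) (hP : Tilt.HasPotQ Q F) {g : V → ℝ}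
    (hg : ∀ a ∈ dE Q F, g a.1 - g a.2 = uE Q F ψ a) (hz : Tilt.ConnE Q F z z') :
    uH Q F ψ z z' = g z - g z' := by
  have h := Tilt.sub_eq_of_inc (G := F) (u := fun v => uH Q F ψ v z') (v := g) (z := z) (z' := z')
    (fun a ha => by
      show uH Q F ψ a.1 z' - uH Q F ψ a.2 z' = _
      rw [uH_sub, hg a ha, uH_edge hQ hP ha]) hz
  simp only [uH_self, sub_zero] at h
  exact h

/-! ## The height of an arrow configuration -/

/-- `H` is a height function of the arrow configuration `α` -/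
def IsHgt (Q : QC V Φ) (F : Finset Φ) (α : Finset (V × V)) (H : V → ℤ) : Prop :=
  ∀ a ∈ dE Q F, H a.1 - H a.2 = if a ∈ α then 1 else -1

/-- an arrow configuration without forbidden faces is compatible with a smoothing -/
theorem exists_cmp {α : Finset (V × V)}
    (h : ∀ f ∈ F, fw (fun k => decide (sd Q f k ∈ α)) ≠ 0) : ∃ ω : Φ → Bool, Cmp Q F ω α := by
  have key : ∀ f ∈ F, ∃ b : Bool, cmp b (fun k => decide (sd Q f k ∈ α)) := by
    intro f hf
    have h1 := h f hf
    rw [fw_eq] at h1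
    by_contra hcon
    push Not at hcon
    apply h1
    unfold bw
    rw [if_neg (hcon true), if_neg (hcon false), add_zero]
  choose! g hg using key
  exact ⟨g, cmp_iff.mpr hg⟩

/-- a height function exists if the weight of the arrow configuration is not zero -/
theorem exists_hgt (hP : Tilt.HasPotQ Q F) {α : Finset (V × V)} (hα : α ∈ Arrs Q F)
    (h : ∀ f ∈ F, fw (fun k => decide (sd Q f k ∈ α)) ≠ 0) : ∃ H : V → ℤ, IsHgt Q F α H := by
  obtain ⟨ω, hω⟩ := exists_cmp h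
  have hA := (Finset.mem_filter.mp hα).2
  refine ⟨fun v => ∑ X ∈ (dstr Q F ω).filter (fun X => X ⊆ α), Tilt.lft Q F X v, fun a ha => ?_⟩
  have key : ∀ b ∈ dE Q F, (∑ X ∈ (dstr Q F ω).filter (fun X => X ⊆ α),
      (if b ∈ X then (1 : ℤ) else 0)) = if b ∈ α then 1 else 0 := by
    intro b hb
    by_cases hbα : b ∈ α
    · rw [if_pos hbα, Finset.sum_eq_single (dst Q F ω b), if_pos (self_mem_dst hb)]
      · intro X hX hne
        rw [if_neg]
        intro hbX
        exact hne (dstr_of_mem (Finset.mem_filter.mp hX).1 hbX).2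
      · intro hX
        exfalso
        apply hX
        refine Finset.mem_filter.mpr ⟨dst_mem_dstr hb, fun c hc => ?_⟩
        exact (cmp_srel hα hω (mem_dst.mp hc).2).mp hbα
    · rw [if_neg hbα]
      refine Finset.sum_eq_zero fun X hX => ?_
      rw [if_neg]
      intro hbX
      exact hbα ((Finset.mem_filter.mp hX).2 hbX)
  rw [← Finset.sum_sub_distrib, Finset.sum_congr rfl (fun X hX =>
    (Tilt.lft_spec hP (Finset.mem_filter.mp hX).1).inc a ha), Finset.sum_sub_distrib, key a ha,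
    key _ (swap_mem_dE.mpr ha)]
  have h1 := hA a ha
  by_cases h2 : a ∈ α
  · rw [if_pos h2, if_neg (h1.mp h2), if_pos h2]
    ring
  · have h3 : a.swap ∈ α := by
      by_contra h3
      exact h2 (h1.mpr h3)
    rw [if_neg h2, if_pos h3, if_neg h2]
    ring

open Classical in
/-- a height function of the arrow configuration -/
def hgt (Q : QC V Φ) (F : Finset Φ) (α : Finset (V × V)) : V → ℤ :=
  if h : ∃ H : V → ℤ, IsHgt Q F α H then h.choose else fun _ => 0

theorem hgt_spec (hP : Tilt.HasPotQ Q F) {α : Finset (V × V)} (hα : α ∈ Arrs Q F)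
    (h : ∀ f ∈ F, fw (fun k => decide (sd Q f k ∈ α)) ≠ 0) : IsHgt Q F α (hgt Q F α) := by
  have h1 := exists_hgt hP hα h
  unfold hgt
  rw [dif_pos h1]
  exact h1.choose_spec

/-- two height functions of one arrow configuration have the same differences -/
theorem IsHgt.diff {α : Finset (V × V)} {H H' : V → ℤ} (h : IsHgt Q F α H) (h' : IsHgt Q F α H')
    (hz : Tilt.ConnE Q F z z') : H z - H z' = H' z - H' z' :=
  Tilt.sub_eq_of_inc (fun a ha => by rw [h a ha, h' a ha]) hz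

/-- weight of an arrow configuration -/
def wA (Q : QC V Φ) (F : Finset Φ) (h : V × V → ℂ) (α : Finset (V × V)) : ℂ :=
  (∏ f ∈ F, fw (fun k => decide (sd Q f k ∈ α))) * ∏ a ∈ α, h a

theorem Z6_wA (h : V × V → ℂ) : Z6 Q F h = ∑ α ∈ Arrs Q F, wA Q F h α := rfl

/-- the arrow sum with the sign of one arrow -/
theorem Z6_sgE (h : V × V → ℂ) (he : e ∈ dE Q F) : Z6 Q F (fun a => h a * sgE e a) =
    ∑ α ∈ Arrs Q F, wA Q F h α * (if e ∈ α then 1 else -1) := by
  unfold Z6 wA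
  refine Finset.sum_congr rfl fun α hα => ?_
  rw [Finset.prod_mul_distrib, prod_sgE, ← mul_assoc]
  congr 1
  have h1 := (Finset.mem_filter.mp hα).2 e he
  unfold eps
  by_cases h2 : e ∈ α
  · rw [if_pos h2, if_neg (h1.mp h2)]
  · have h3 : e.swap ∈ α := by
      by_contra h3
      exact h2 (h1.mpr h3)
    rw [if_neg h2, if_pos h3]

/-- **The arrow sum of the height difference.** `H α` = any height function of `α`. -/
theorem Z6_hgt (hQ : NoLoop Q) (hP : Tilt.HasPotQ Q F) (H : Finset (V × V) → V → ℤ)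
    (hH : ∀ α ∈ Arrs Q F, wA Q F (bph Q F ψ) α ≠ 0 → IsHgt Q F α (H α))
    (hz : Tilt.ConnE Q F z z') :
    ∑ α ∈ Arrs Q F, wA Q F (bph Q F ψ) α * ((H α z - H α z' : ℤ) : ℂ) =
      ((2 ^ F.card * HD Q F ψ z z' : ℝ) : ℂ) * Complex.I := by
  induction hz with
  | refl =>
    rw [HD_self]
    push_cast
    rw [mul_zero, zero_mul]
    exact Finset.sum_eq_zero fun α _ => by rw [sub_self, mul_zero]
  | @tail x y _ hs ih =>
    have h1 : ∑ α ∈ Arrs Q F, wA Q F (bph Q F ψ) α * ((H α x - H α y : ℤ) : ℂ) =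
        ((2 ^ F.card * HD Q F ψ x y : ℝ) : ℂ) * Complex.I := by
      have h2 := HD_edge (ψ := ψ) hQ hP hs
      simp only at h2
      rw [h2, ← Z6_bph_one hQ hs, Z6_sgE _ hs]
      refine Finset.sum_congr rfl fun α hα => ?_
      by_cases h0 : wA Q F (bph Q F ψ) α = 0
      · rw [h0, zero_mul, zero_mul]
      · have h3 := hH α hα h0 _ hs
        simp only at h3
        rw [h3]
        congr 1
        split_ifs <;> push_cast <;> rfl
    have h4 : ∑ α ∈ Arrs Q F, wA Q F (bph Q F ψ) α * ((H α z - H α y : ℤ) : ℂ) =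
        ∑ α ∈ Arrs Q F, wA Q F (bph Q F ψ) α * ((H α z - H α x : ℤ) : ℂ) +
        ∑ α ∈ Arrs Q F, wA Q F (bph Q F ψ) α * ((H α x - H α y : ℤ) : ℂ) := by
      rw [← Finset.sum_add_distrib]
      refine Finset.sum_congr rfl fun α _ => ?_
      push_cast
      ring
    rw [h4, ih, h1, ← HD_add z x y]
    push_cast
    ring

theorem wA_ne {h : V × V → ℂ} {α : Finset (V × V)} (h0 : wA Q F h α ≠ 0) :
    ∀ f ∈ F, fw (fun k => decide (sd Q f k ∈ α)) ≠ 0 := by
  intro f hf h1
  apply h0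
  unfold wA
  rw [Finset.prod_eq_zero hf h1, zero_mul]

/-- the standard height functions -/
theorem Z6_hgt' (hQ : NoLoop Q) (hP : Tilt.HasPotQ Q F) (hz : Tilt.ConnE Q F z z') :
    ∑ α ∈ Arrs Q F, wA Q F (bph Q F ψ) α * ((hgt Q F α z - hgt Q F α z' : ℤ) : ℂ) =
      ((2 ^ F.card * HD Q F ψ z z' : ℝ) : ℂ) * Complex.I :=
  Z6_hgt hQ hP (hgt Q F) (fun _ hα h0 => hgt_spec hP hα (wA_ne h0)) hz

/-- **The mean height difference is `i * uH`.** -/
theorem Z6_hgt_div (hQ : NoLoop Q) (hP : Tilt.HasPotQ Q F) (hz : Tilt.ConnE Q F z z') :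
    (∑ α ∈ Arrs Q F, wA Q F (bph Q F ψ) α * ((hgt Q F α z - hgt Q F α z' : ℤ) : ℂ)) /
      Z6 Q F (bph Q F ψ) = ((uH Q F ψ z z' : ℝ) : ℂ) * Complex.I := by
  rw [Z6_hgt' hQ hP hz, Z6_bph hQ]
  unfold uH
  push_cast
  have h2 : (2 : ℂ) ^ F.card ≠ 0 := pow_ne_zero _ two_ne_zero
  rw [mul_assoc, mul_div_mul_left _ _ h2, mul_div_right_comm]

/-- along a path of unit edges: arrow sums with one sign -/
theorem Z6_path (hQ : NoLoop Q) (hP : Tilt.HasPotQ Q F) (γ : ℕ → V) (n : ℕ)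
    (h : ∀ i < n, (γ i, γ (i + 1)) ∈ dE Q F) :
    ∑ i ∈ Finset.range n, Z6 Q F (fun a => bph Q F ψ a * sgE (γ i, γ (i + 1)) a) =
      ((2 ^ F.card * HD Q F ψ (γ 0) (γ n) : ℝ) : ℂ) * Complex.I := by
  rw [HD_path hQ hP γ n h, Finset.mul_sum]
  push_cast
  rw [Finset.sum_mul]
  refine Finset.sum_congr rfl fun i hi => ?_
  rw [Z6_bph_one hQ (h i (Finset.mem_range.mp hi))]
  push_cast
  rfl

/-! ## Families of phases -/

/-- partition function of a finite family of phases with coefficients -/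
def ZT {ι : Type} (Q : QC V Φ) (F : Finset Φ) (s : Finset ι) (p : ι → ℝ) (ψ : ι → V × V → ℝ) : ℝ :=
  ∑ i ∈ s, p i * av F (WU Q F (ψ i))

/-- height numerator of a family -/
def HT {ι : Type} (Q : QC V Φ) (F : Finset Φ) (s : Finset ι) (p : ι → ℝ) (ψ : ι → V × V → ℝ)
    (z z' : V) : ℝ := ∑ i ∈ s, p i * HD Q F (ψ i) z z'

/-- mean height difference of a family, divided by `i` -/
def uT {ι : Type} (Q : QC V Φ) (F : Finset Φ) (s : Finset ι) (p : ι → ℝ) (ψ : ι → V × V → ℝ)
    (z z' : V) : ℝ := HT Q F s p ψ z z' / ZT Q F s p ψ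

section fam

variable {ι : Type} {s : Finset ι} {p : ι → ℝ} {Ψ : ι → V × V → ℝ}

theorem HT_self (z : V) : HT Q F s p Ψ z z = 0 :=
  Finset.sum_eq_zero fun i _ => by rw [HD_self, mul_zero]

theorem HT_swap (z z' : V) : HT Q F s p Ψ z' z = -HT Q F s p Ψ z z' := by
  unfold HT
  rw [← Finset.sum_neg_distrib]
  exact Finset.sum_congr rfl fun i _ => by rw [HD_swap, mul_neg]

theorem HT_add (z z' z'' : V) : HT Q F s p Ψ z z' + HT Q F s p Ψ z' z'' = HT Q F s p Ψ z z'' := by
  unfold HT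
  rw [← Finset.sum_add_distrib]
  exact Finset.sum_congr rfl fun i _ => by rw [← mul_add, HD_add]

theorem uT_self (z : V) : uT Q F s p Ψ z z = 0 := by unfold uT; rw [HT_self, zero_div]

theorem uT_swap (z z' : V) : uT Q F s p Ψ z' z = -uT Q F s p Ψ z z' := by
  unfold uT; rw [HT_swap, neg_div]

theorem uT_add (z z' z'' : V) : uT Q F s p Ψ z z' + uT Q F s p Ψ z' z'' = uT Q F s p Ψ z z'' := by
  unfold uT; rw [← add_div, HT_add]

theorem HT_edge (hQ : NoLoop Q) (hP : Tilt.HasPotQ Q F) (he : e ∈ dE Q F) :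
    HT Q F s p Ψ e.1 e.2 = ∑ i ∈ s, p i * av F (WU1 Q F (Ψ i) e) :=
  Finset.sum_congr rfl fun i _ => by rw [HD_edge hQ hP he]

/-- the mean of a family is the weighted mean of the means of its members -/
theorem uT_eq (h : ∀ i ∈ s, av F (WU Q F (Ψ i)) ≠ 0) (z z' : V) : uT Q F s p Ψ z z' =
    (∑ i ∈ s, p i * av F (WU Q F (Ψ i)) * uH Q F (Ψ i) z z') / ZT Q F s p Ψ := by
  unfold uT HT uH
  congr 1
  refine Finset.sum_congr rfl fun i hi => ?_
  have := h i hi
  field_simp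

theorem uT_single (i : ι) (z z' : V) : uT Q F {i} (fun _ => 1) Ψ z z' = uH Q F (Ψ i) z z' := by
  unfold uT HT ZT uH
  rw [Finset.sum_singleton, Finset.sum_singleton, one_mul, one_mul]

end fam

end

end Pool.Agent.SixB.Ht
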