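import Pool.Agent.Lib.SixB.CANeu
import Pool.Agent.Lib.SixB.AN10b
import Pool.Agent.Lib.SixB.AN6c

/-!
# 6BD block CA: tools for the environment inputs

* `LOsc l n P D v`: small oscillation of the lattice functions `D i` at `v`, down to the lattice scale.
* `ae_of_losc`: `LOsc` at all points of `S` gives `AE` on `S`; `bdd_of_losc`, `bddK_of_losc`: boundedness by
  connectivity, uniformly on compact sets.
* `WH l n O χ V`: the lattice Laplacian of `V i` is null against one fixed profile `χ`, up to finitely many centres.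
* `ah_of`: `LOsc` off `X`, `WH`, and the column bound with coefficient sum `0` give `AH`.
-/

set_option autoImplicit false

namespace Pool.Agent.SixB

open Filter Topology
open DC (AE lapZ)
open scoped ContDiff

noncomputable section

/-- small oscillation at `v`, down to the lattice scale -/
def LOsc {ι : Type*} (l : Filter ι) (n : ι → ℕ) (P : Finset (ℤ × ℤ)) (D : ι → ℤ × ℤ → ℝ)
    (v : ℂ) : Prop :=
  ∀ ε : ℝ, 0 < ε → ∃ δ : ℝ, 0 < δ ∧ ∀ᶠ i in l, ∀ z ∈ Cl P, ∀ w ∈ Cl P, ‖z - v‖ < δ → ‖w - v‖ < δ →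
    |D i (fl (n i) z) - D i (fl (n i) w)| ≤ ε

/-- the lattice Laplacian of `V i` is null against the profile `χ`, up to finitely many centres -/
def WH {ι : Type*} (l : Filter ι) (n : ι → ℕ) (O : Set ℂ) (χ : ℂ → ℝ) (V : ι → ℤ × ℤ → ℝ) : Prop :=
  ∃ S : Set ℂ, S.Finite ∧ ∀ z0 ∈ O \ S, ∃ ρ > 0, ∀ ε > 0, ∃ r0 > 0, ∀ z ∈ Metric.ball z0 ρ,
    ∀ r : ℝ, 0 < r → r < r0 →
      ∀ᶠ i in l, |∑' v : ℤ × ℤ, χ ((DC.mesh (n i) v - z) / r) * lapZ (V i) v| ≤ ε * r ^ 2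

/-- a fixed profile -/
structure Prof (χ : ℂ → ℝ) : Prop where
  smooth : ContDiff ℝ ∞ χ
  supp : HasCompactSupport χ
  int : ∫ x, χ x ≠ 0

section

variable {ι κ : Type*} {l l' : Filter ι} {m : Filter κ} {n : ι → ℕ} {P : Finset (ℤ × ℤ)}
  {D D₁ D₂ : ι → ℤ × ℤ → ℝ} {v : ℂ} {S X O : Set ℂ} {z0 : ℂ} {χ : ℂ → ℝ} {c : ℝ}

theorem LOsc.mono (h : LOsc l n P D v) (hl : l' ≤ l) : LOsc l' n P D v := by
  intro ε hε
  obtain ⟨δ, hδ, h1⟩ := h ε hε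
  exact ⟨δ, hδ, hl h1⟩

theorem LOsc.comp (h : LOsc l n P D v) {φ : κ → ι} (hφ : Tendsto φ m l) :
    LOsc m (fun k => n (φ k)) P (fun k => D (φ k)) v := by
  intro ε hε
  obtain ⟨δ, hδ, h1⟩ := h ε hε
  exact ⟨δ, hδ, hφ.eventually h1⟩

theorem LOsc.add (h₁ : LOsc l n P D₁ v) (h₂ : LOsc l n P D₂ v) :
    LOsc l n P (fun i w => D₁ i w + D₂ i w) v := by
  intro ε hε
  obtain ⟨δ₁, hδ₁, h1⟩ := h₁ (ε / 2) (by positivity)
  obtain ⟨δ₂, hδ₂, h2⟩ := h₂ (ε / 2) (by positivity)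
  refine ⟨min δ₁ δ₂, lt_min hδ₁ hδ₂, ?_⟩
  filter_upwards [h1, h2] with i a b z hz w hw hzv hwv
  have a' := a z hz w hw (hzv.trans_le (min_le_left _ _)) (hwv.trans_le (min_le_left _ _))
  have b' := b z hz w hw (hzv.trans_le (min_le_right _ _)) (hwv.trans_le (min_le_right _ _))
  have e : (D₁ i (fl (n i) z) + D₂ i (fl (n i) z)) - (D₁ i (fl (n i) w) + D₂ i (fl (n i) w)) =
    (D₁ i (fl (n i) z) - D₁ i (fl (n i) w)) + (D₂ i (fl (n i) z) - D₂ i (fl (n i) w)) := by ring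
  rw [e]
  have := abs_add_le (D₁ i (fl (n i) z) - D₁ i (fl (n i) w)) (D₂ i (fl (n i) z) - D₂ i (fl (n i) w))
  linarith

theorem LOsc.neg (h : LOsc l n P D v) : LOsc l n P (fun i w => - D i w) v := by
  intro ε hε
  obtain ⟨δ, hδ, h1⟩ := h ε hε
  refine ⟨δ, hδ, ?_⟩
  filter_upwards [h1] with i a z hz w hw hzv hwv
  have e : -D i (fl (n i) z) - -D i (fl (n i) w) = -(D i (fl (n i) z) - D i (fl (n i) w)) := by ring
  rw [e, abs_neg]
  exact a z hz w hw hzv hwv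

theorem LOsc.sub (h₁ : LOsc l n P D₁ v) (h₂ : LOsc l n P D₂ v) :
    LOsc l n P (fun i w => D₁ i w - D₂ i w) v := by
  have h := h₁.add h₂.neg
  simpa only [← sub_eq_add_neg] using h

private theorem nz_sub (n : ℕ) (z0 : ℂ) (u : ℤ × ℤ → ℝ) (z w : ℂ) :
    nz n z0 u z - nz n z0 u w = u (fl n z) - u (fl n w) := by
  unfold nz; ring

/-- local oscillation gives asymptotic equicontinuity -/
theorem ae_of_losc (hS : S ⊆ Cl P) (h : ∀ v ∈ S, LOsc l n P D v) :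
    AE l (fun i => nz (n i) z0 (D i)) S := by
  intro K hK hKc ε hε
  have h1 : ∀ v : ℂ, ∃ δ : ℝ, 0 < δ ∧ (v ∈ S → ∀ᶠ i in l, ∀ z ∈ Cl P, ∀ w ∈ Cl P, ‖z - v‖ < δ →
      ‖w - v‖ < δ → |D i (fl (n i) z) - D i (fl (n i) w)| ≤ ε / 2) := by
    intro v
    by_cases hv : v ∈ S
    · obtain ⟨δ, hδ, h2⟩ := h v hv (ε / 2) (by positivity)
      exact ⟨δ, hδ, fun _ => h2⟩
    · exact ⟨1, one_pos, fun h3 => absurd h3 hv⟩
  choose δ hδ hδ2 using h1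
  obtain ⟨T, hT, hcov⟩ := hKc.elim_nhds_subcover (fun v => Metric.ball v (δ v / 2))
    (fun v _ => Metric.ball_mem_nhds v (by have := hδ v; positivity))
  obtain ⟨ρ, hρ, hρ2⟩ : ∃ ρ > 0, ∀ v ∈ T, ρ ≤ δ v / 2 := by
    rcases T.eq_empty_or_nonempty with hYe | hYn
    · exact ⟨1, one_pos, by simp [hYe]⟩
    · refine ⟨T.inf' hYn fun v => δ v / 2, ?_, fun v hv => Finset.inf'_le _ hv⟩
      rw [gt_iff_lt, Finset.lt_inf'_iff]
      intro v _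
      have := hδ v
      positivity
  have h4 : ∀ᶠ i in l, ∀ v ∈ T, ∀ z ∈ Cl P, ∀ w ∈ Cl P, ‖z - v‖ < δ v → ‖w - v‖ < δ v →
      |D i (fl (n i) z) - D i (fl (n i) w)| ≤ ε / 2 := by
    rw [Filter.eventually_all_finset]
    intro v hv
    exact hδ2 v (hK (hT v hv))
  refine ⟨ρ, hρ, ?_⟩
  filter_upwards [h4] with i h4 z hz w hw hzw
  obtain ⟨v, hv, hzv⟩ := Set.mem_iUnion₂.1 (hcov hz)
  rw [Metric.mem_ball, dist_eq_norm] at hzv
  have hv0 := hδ v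
  have h6 : ‖w - v‖ < δ v := by
    have h7 : w - v = (z - v) - (z - w) := by ring
    have h8 := norm_sub_le (z - v) (z - w)
    rw [← h7] at h8
    have h9 : ‖z - w‖ < δ v / 2 := by
      rw [← dist_eq_norm]
      exact lt_of_lt_of_le hzw (hρ2 v hv)
    linarith
  have h7 := h4 v hv z (hS (hK hz)) w (hS (hK hw)) (by linarith) h6
  rw [Real.dist_eq, nz_sub]
  linarith

/-- boundedness of differences by connectivity -/
theorem bdd2_of_losc (hS : S ⊆ Cl P) (hSc : IsPreconnected S) (h : ∀ v ∈ S, LOsc l n P D v) :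
    ∀ z ∈ S, ∀ w ∈ S, ∃ C : ℝ, ∀ᶠ i in l, |D i (fl (n i) z) - D i (fl (n i) w)| ≤ C := by
  intro z hz w hw
  refine hSc.induction₂' (fun z w => ∃ C : ℝ, ∀ᶠ i in l, |D i (fl (n i) z) - D i (fl (n i) w)| ≤ C)
    ?_ ?_ hz hw
  · intro x hx
    obtain ⟨δ, hδ, h1⟩ := h x hx 1 one_pos
    have h2 : ∀ᶠ y in 𝓝[S] x, y ∈ S ∧ ‖y - x‖ < δ := by
      refine (eventually_mem_nhdsWithin).and ?_
      refine nhdsWithin_le_nhds ?_
      filter_upwards [Metric.ball_mem_nhds x hδ] with y hy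
      rwa [Metric.mem_ball, dist_eq_norm] at hy
    filter_upwards [h2] with y hy
    have hxx : ‖x - x‖ < δ := by simpa using hδ
    refine ⟨⟨1, ?_⟩, ⟨1, ?_⟩⟩
    · filter_upwards [h1] with i hi
      exact hi x (hS hx) y (hS hy.1) hxx hy.2
    · filter_upwards [h1] with i hi
      exact hi y (hS hy.1) x (hS hx) hy.2 hxx
  · intro x y z _ _ _ hxy hyz
    obtain ⟨C, hC⟩ := hxy
    obtain ⟨C', hC'⟩ := hyz
    refine ⟨C + C', ?_⟩
    filter_upwards [hC, hC'] with i a b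
    have e : D i (fl (n i) x) - D i (fl (n i) z) =
      (D i (fl (n i) x) - D i (fl (n i) y)) + (D i (fl (n i) y) - D i (fl (n i) z)) := by ring
    rw [e]
    exact (abs_add_le _ _).trans (add_le_add a b)

/-- uniform boundedness on compact sets -/
theorem bddK_of_losc (hS : S ⊆ Cl P) (hSc : IsPreconnected S) (h : ∀ v ∈ S, LOsc l n P D v)
    (hz0 : z0 ∈ S) {K : Set ℂ} (hK : K ⊆ S) (hKc : IsCompact K) :
    ∃ C : ℝ, ∀ᶠ i in l, ∀ z ∈ K, |nz (n i) z0 (D i) z| ≤ C := by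
  have h1 : ∀ v : ℂ, ∃ δ : ℝ, 0 < δ ∧ (v ∈ S → ∀ᶠ i in l, ∀ z ∈ Cl P, ∀ w ∈ Cl P, ‖z - v‖ < δ →
      ‖w - v‖ < δ → |D i (fl (n i) z) - D i (fl (n i) w)| ≤ 1) := by
    intro v
    by_cases hv : v ∈ S
    · obtain ⟨δ, hδ, h2⟩ := h v hv 1 one_pos
      exact ⟨δ, hδ, fun _ => h2⟩
    · exact ⟨1, one_pos, fun h3 => absurd h3 hv⟩
  choose δ hδ hδ2 using h1
  have h2 : ∀ v : ℂ, ∃ C : ℝ, v ∈ S → ∀ᶠ i in l, |D i (fl (n i) v) - D i (fl (n i) z0)| ≤ C := by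
    intro v
    by_cases hv : v ∈ S
    · obtain ⟨C, hC⟩ := bdd2_of_losc hS hSc h v hv z0 hz0
      exact ⟨C, fun _ => hC⟩
    · exact ⟨1, fun h3 => absurd h3 hv⟩
  choose C hC using h2
  obtain ⟨T, hT, hcov⟩ := hKc.elim_nhds_subcover (fun v => Metric.ball v (δ v))
    (fun v _ => Metric.ball_mem_nhds v (hδ v))
  obtain ⟨B, hB⟩ : ∃ B : ℝ, ∀ v ∈ T, C v ≤ B := by
    rcases T.eq_empty_or_nonempty with hYe | hYn
    · exact ⟨1, by simp [hYe]⟩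
    · exact ⟨T.sup' hYn C, fun v hv => Finset.le_sup' _ hv⟩
  have h4 : ∀ᶠ i in l, ∀ v ∈ T, ∀ z ∈ Cl P, ∀ w ∈ Cl P, ‖z - v‖ < δ v → ‖w - v‖ < δ v →
      |D i (fl (n i) z) - D i (fl (n i) w)| ≤ 1 := by
    rw [Filter.eventually_all_finset]
    intro v hv
    exact hδ2 v (hK (hT v hv))
  have h5 : ∀ᶠ i in l, ∀ v ∈ T, |D i (fl (n i) v) - D i (fl (n i) z0)| ≤ C v := by
    rw [Filter.eventually_all_finset]
    intro v hv
    exact hC v (hK (hT v hv))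
  refine ⟨1 + B, ?_⟩
  filter_upwards [h4, h5] with i h4 h5 z hz
  obtain ⟨v, hv, hzv⟩ := Set.mem_iUnion₂.1 (hcov hz)
  rw [Metric.mem_ball, dist_eq_norm] at hzv
  have h6 := h4 v hv z (hS (hK hz)) v (hS (hK (hT v hv))) hzv (by simpa using hδ v)
  have h7 := h5 v hv
  have e : nz (n i) z0 (D i) z = (D i (fl (n i) z) - D i (fl (n i) v)) +
    (D i (fl (n i) v) - D i (fl (n i) z0)) := by unfold nz; ring
  rw [e]
  exact (abs_add_le _ _).trans (add_le_add h6 (h7.trans (hB v hv)))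

/-! ## Weak harmonicity -/

theorem WH.comp (h : WH l n O χ D) {φ : κ → ι} (hφ : Tendsto φ m l) :
    WH m (fun k => n (φ k)) O χ (fun k => D (φ k)) := by
  obtain ⟨S, hS, h1⟩ := h
  refine ⟨S, hS, fun z0 hz0 => ?_⟩
  obtain ⟨ρ, hρ, h2⟩ := h1 z0 hz0
  refine ⟨ρ, hρ, fun ε hε => ?_⟩
  obtain ⟨r0, hr0, h3⟩ := h2 ε hε
  exact ⟨r0, hr0, fun z hz r hr hr' => hφ.eventually (h3 z hz r hr hr')⟩

private theorem lapZ_neg (V : ℤ × ℤ → ℝ) (v : ℤ × ℤ) : lapZ (fun v => - V v) v = - lapZ V v := by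
  unfold lapZ; ring

theorem WH.neg (h : WH l n O χ D) : WH l n O χ (fun i v => - D i v) := by
  obtain ⟨S, hS, h1⟩ := h
  refine ⟨S, hS, fun z0 hz0 => ?_⟩
  obtain ⟨ρ, hρ, h2⟩ := h1 z0 hz0
  refine ⟨ρ, hρ, fun ε hε => ?_⟩
  obtain ⟨r0, hr0, h3⟩ := h2 ε hε
  refine ⟨r0, hr0, fun z hz r hr hr' => ?_⟩
  filter_upwards [h3 z hz r hr hr'] with i hi
  have e : ∑' v : ℤ × ℤ, χ ((DC.mesh (n i) v - z) / r) * lapZ (fun v => - D i v) v =
      - ∑' v : ℤ × ℤ, χ ((DC.mesh (n i) v - z) / r) * lapZ (D i) v := by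
    rw [← tsum_neg]
    refine tsum_congr fun v => ?_
    rw [lapZ_neg, mul_neg]
  rw [e, abs_neg]
  exact hi

theorem WH.add (hn : Tendsto n l atTop) (hχ : Prof χ) (h₁ : WH l n O χ D₁) (h₂ : WH l n O χ D₂) :
    WH l n O χ (fun i v => D₁ i v + D₂ i v) := by
  obtain ⟨S₁, hS₁, h1⟩ := h₁
  obtain ⟨S₂, hS₂, h2⟩ := h₂
  refine ⟨S₁ ∪ S₂, hS₁.union hS₂, fun z0 hz0 => ?_⟩
  obtain ⟨ρ₁, hρ₁, a1⟩ := h1 z0 ⟨hz0.1, fun hh => hz0.2 (Or.inl hh)⟩
  obtain ⟨ρ₂, hρ₂, a2⟩ := h2 z0 ⟨hz0.1, fun hh => hz0.2 (Or.inr hh)⟩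
  refine ⟨min ρ₁ ρ₂, lt_min hρ₁ hρ₂, fun ε hε => ?_⟩
  obtain ⟨r₁, hr₁, b1⟩ := a1 (ε / 2) (by positivity)
  obtain ⟨r₂, hr₂, b2⟩ := a2 (ε / 2) (by positivity)
  refine ⟨min r₁ r₂, lt_min hr₁ hr₂, fun z hz r hr hr' => ?_⟩
  have hz' : dist z z0 < min ρ₁ ρ₂ := hz
  filter_upwards [b1 z (hz'.trans_le (min_le_left _ _)) r hr (hr'.trans_le (min_le_left _ _)),
    b2 z (hz'.trans_le (min_le_right _ _)) r hr (hr'.trans_le (min_le_right _ _)),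
    hn.eventually_gt_atTop 0] with i c1 c2 hi0
  rw [DC.tsum_lapZ_sub hi0 (DC.hasCompactSupport_scale hχ.supp z hr) (fun v => D₁ i v + D₂ i v) (D₁ i)]
  have e : (fun v => D₁ i v + D₂ i v - D₁ i v) = D₂ i := by funext v; ring
  rw [e]
  refine (abs_add_le _ _).trans ?_
  linarith

theorem WH.sub (hn : Tendsto n l atTop) (hχ : Prof χ) (h₁ : WH l n O χ D₁) (h₂ : WH l n O χ D₂) :
    WH l n O χ (fun i v => D₁ i v - D₂ i v) := by
  have h := h₁.add hn hχ h₂.neg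
  simpa only [← sub_eq_add_neg] using h

/-- **The four inputs give `AH`.** -/
theorem ah_of (hP : MPoly P) (hn : Tendsto n l atTop) (hχ : Prof χ) (hc : 0 < c)
    (hX : X.Finite) (hXO : ∀ z ∈ X, z ∉ Om P) (hz0 : z0 ∈ Om P)
    (hosc : ∀ v ∈ Cl P \ X, LOsc l n P D v) (hwh : WH l n (Om P) χ D) (hcol : ColK l n P X c 0 D) :
    AH l P X (fun i => nz (n i) z0 (D i)) := by
  have hSC : Cl P \ X ⊆ Cl P := Set.diff_subset
  have hae : AE l (fun i => nz (n i) z0 (D i)) (Cl P ∩ Xᶜ) := ae_of_losc Set.inter_subset_left hosc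
  have hz0' : z0 ∈ Cl P \ X := ⟨interior_subset hz0, fun h => hXO _ h hz0⟩
  refine ⟨hae, ?_, ?_, neu_of_colK hn hc hX.isClosed hcol hae⟩
  · intro z hz
    exact bdd2_of_losc hSC (DC.isPreconnected_Cl_diff hP.conn hX.countable) hosc z hz z0 hz0'
  · intro u hu U hU
    have hOX : Om P \ X = Om P := by
      ext z
      exact ⟨fun hz => hz.1, fun hz => ⟨hz, fun hh => hXO z hh hz⟩⟩
    rw [hOX] at hU ⊢
    obtain ⟨S, hS, h1⟩ := hwh
    refine DC.harm_of_profile (V := fun i v => D i v - D i (fl (n i) z0)) hn (isOpen_Om P) hS ?_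
      hχ.smooth hχ.supp hχ.int ?_ u hu U hU
    · refine hae.mono le_rfl ?_
      intro z hz
      exact ⟨interior_subset hz, fun h => hXO _ h hz⟩
    · intro z1 hz1
      obtain ⟨ρ, hρ, h2⟩ := h1 z1 hz1
      refine ⟨ρ, hρ, fun ε hε => ?_⟩
      obtain ⟨r0, hr0, h3⟩ := h2 ε hε
      refine ⟨r0, hr0, fun z hz r hr hr' => ?_⟩
      filter_upwards [h3 z hz r hr hr'] with i hi
      have e : ∀ v, lapZ (fun v => D i v - D i (fl (n i) z0)) v = lapZ (D i) v := by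
        intro v
        unfold lapZ; ring
      simpa only [e] using hi

end

end

end Pool.Agent.SixB
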