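import Pool.Agent.Lib.SixB.CAEnv

/-!
# 6BD block CA: on which side of a strand is the boundary of a disc

* `WPath p w q`: the word `w` is a path of directed unit edges from `p` to `q`. `disc_wpath`: the word of
  a disc is a closed path.
* `disc_loop_side`: a closed strand with turning `4` has the boundary on its right, a closed strand with
  turning `-4` on its left. `lft_closed`: the same for `lft`.
* `lft_closed_term`: `(lft z - lft p) * 2 sin (agl X) = √3` if the closed strand `X` separates the vertex `z`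
  from the boundary vertex `p`.
-/

set_option autoImplicit false
set_option linter.unusedSectionVars false

namespace Pool.Agent.SixB.Ht

open Pool.Agent.Perc.Q Relation

section

variable {V Φ : Type}

/-- the word is a path of directed unit edges from `p` to `q` -/
def WPath : V → List ((V × V) × ℤ) → V → Prop
  | p, [], q => p = q
  | p, x :: w, q => x.1.1 = p ∧ WPath x.1.2 w q

theorem wpath_append {p q : V} {u v : List ((V × V) × ℤ)} :
    WPath p (u ++ v) q ↔ ∃ r, WPath p u r ∧ WPath r v q := by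
  induction u generalizing p with
  | nil => exact ⟨fun h => ⟨p, rfl, h⟩, fun ⟨r, h1, h2⟩ => by rw [show p = r from h1]; exact h2⟩
  | cons x u ih =>
    rw [List.cons_append]
    constructor
    · rintro ⟨h1, h2⟩
      obtain ⟨r, h3, h4⟩ := ih.mp h2
      exact ⟨r, ⟨h1, h3⟩, h4⟩
    · rintro ⟨r, ⟨h1, h3⟩, h4⟩
      exact ⟨h1, ih.mpr ⟨r, h3, h4⟩⟩

theorem wpath_start {p q p' q' : V} {w : List ((V × V) × ℤ)} (h : WPath p w q) (h' : WPath p' w q')
    (hw : w ≠ []) : p = p' := by
  cases w with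
  | nil => exact absurd rfl hw
  | cons x w => exact h.1.symm.trans h'.1

theorem wpath_shift {p q : V} {w : List ((V × V) × ℤ)} (c : ℤ) :
    WPath p (w.map fun x => (x.1, x.2 + c)) q ↔ WPath p w q := by
  induction w generalizing p with
  | nil => exact Iff.rfl
  | cons x w ih => exact and_congr Iff.rfl ih

/-- a function which does not change along the sides of the word -/
theorem wpath_const {p q : V} {w : List ((V × V) × ℤ)} (h : WPath p w q) {L : V → ℤ}
    (hL : ∀ x ∈ w, L x.1.1 = L x.1.2) : L p = L q := by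
  induction w generalizing p with
  | nil => exact congrArg L h
  | cons x w ih =>
    rw [← h.1, hL x List.mem_cons_self]
    exact ih h.2 fun y hy => hL y (List.mem_cons_of_mem _ hy)

variable {Q : QC V Φ} {ω : Φ → Bool} {F F' : Set Φ} {G G' : Set (V × V)}
  {a b c e : V × V} {f g : Φ} {k l : ZMod 4} {s t : ℤ} {m n : ℕ} {w w' u v : List ((V × V) × ℤ)}

/-- the word of a disc is a closed path -/
theorem disc_wpath (h : Disc Q F G w) : ∃ p, WPath p w p := by
  induction h with
  | face f k a =>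
    refine ⟨Q.c f k, rfl, ?_, ?_, ?_, ?_⟩
    · rfl
    · show Q.c f (k + 2) = Q.c f (k + 1 + 1)
      rw [z1]
    · show Q.c f (k + 3) = Q.c f (k + 2 + 1)
      rw [z7]
    · show Q.c f (k + 3 + 1) = Q.c f k
      rw [z5]
  | @join F F' G G' u v e a _ _ _ ih ih' =>
    obtain ⟨p, hp⟩ := ih
    obtain ⟨p', hp'⟩ := ih'
    obtain ⟨r, h1, h2, h3⟩ := wpath_append.mp hp
    obtain ⟨h4, h5⟩ := hp'
    have e1 : e.1 = r := h2
    have e2 : e.2 = p := h3
    have e3 : e.2 = p' := h4
    have h5' : WPath e.1 v p' := h5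
    refine ⟨p, wpath_append.mpr ⟨r, h1, ?_⟩⟩
    rw [← e1, ← e2, e3]
    exact h5'
  | @zip F G u v e a _ ih =>
    obtain ⟨p, hp⟩ := ih
    obtain ⟨r, h1, h2, h3, h4⟩ := wpath_append.mp hp
    have e1 : e.1 = r := h2
    have h4' : WPath e.1 v p := h4
    exact ⟨p, wpath_append.mpr ⟨r, h1, by rw [← e1]; exact h4'⟩⟩
  | @rot F G u e a _ ih =>
    obtain ⟨p, h1, h2⟩ := ih
    have e1 : e.1 = p := h1
    have h2' : WPath e.2 u p := h2
    exact ⟨e.2, wpath_append.mpr ⟨p, h2', e1, rfl⟩⟩
  | @shift F G u c _ ih =>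
    obtain ⟨p, hp⟩ := ih
    exact ⟨p, (wpath_shift c).mpr hp⟩

/-- the edges which are visited by a closed walk -/
theorem walk_visit (h : Walk Q ω F G n e e t) (he : e ∈ G) (hF : F ⊆ F') (hG : G ⊆ G') :
    ∀ (m : ℕ) {a : V × V} {s : ℤ}, Walk Q ω F' G' m e a s → (∃ m' s', Walk Q ω F G m' e a s') ∧ a ∈ G := by
  intro m
  induction m using Nat.strong_induction_on with
  | _ m ih =>
    intro a s hw
    have hbig := h.mono hF hG
    rcases Nat.lt_trichotomy m n with h1 | rfl | h1
    · obtain ⟨d, u, h2, h3, -⟩ := h.prefix_ hw.pos h1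
      obtain ⟨rfl, -⟩ := (h2.mono hF hG).unique hw
      exact ⟨⟨m, u, h2⟩, h3⟩
    · obtain ⟨rfl, -⟩ := hbig.unique hw
      exact ⟨⟨_, _, h⟩, he⟩
    · obtain ⟨d, u, h2, -, h4⟩ := hw.prefix_ h.pos h1
      obtain ⟨rfl, -⟩ := hbig.unique h2
      exact ih (m - n) (by have := h.pos; omega) h4

/-- `L` is `1` on the left of the edges of `X` and `0` on their right -/
structure LftW (Q : QC V Φ) (F : Set Φ) (X : Set (V × V)) (L : V → ℤ) : Prop where
  on : ∀ a ∈ Sides Q F, a ∈ X → L a.1 = 1 ∧ L a.2 = 0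
  onr : ∀ a ∈ Sides Q F, a.swap ∈ X → L a.1 = 0 ∧ L a.2 = 1
  off : ∀ a ∈ Sides Q F, a ∉ X → a.swap ∉ X → L a.1 = L a.2

theorem LftW.mono {X : Set (V × V)} {L : V → ℤ} (h : LftW Q F' X L) (hF : F ⊆ F') : LftW Q F X L := by
  have hs : Sides Q F ⊆ Sides Q F' := fun a ⟨f, hf, hk⟩ => ⟨f, hF hf, hk⟩
  exact ⟨fun a ha => h.on a (hs ha), fun a ha => h.onr a (hs ha), fun a ha => h.off a (hs ha)⟩

/-- **The side of the boundary of a closed strand of a disc.** -/
theorem disc_loop_side (h : Disc Q F G w) (ω : Φ → Bool) : ∀ {e : V × V} {n : ℕ} {t : ℤ}, e ∈ G →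
    Walk Q ω F G n e e t → (∀ m < n, ∀ s, ¬ Walk Q ω F G m e e s) → w ≠ [] →
    ∀ (p : V) (X : Set (V × V)) (L : V → ℤ), WPath p w p → (∀ a, a ∈ X ↔ ∃ m s, Walk Q ω F G m e a s) →
    LftW Q F X L → (t = 4 ∧ L p = 0) ∨ (t = -4 ∧ L p = 1) := by
  induction h with
  | face f k a =>
    intro e n t he
    exact absurd he (Set.notMem_empty _)
  | @join F F' G G' u v e a hD hD' hd ih ih' =>
    intro e1 n t he1 hw hmin hne p X L hp hX hL
    have hi := hD.inv
    have hi' := hD'.inv
    have hnew := (Disc.join hD hD' hd).inv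
    -- the start vertices
    obtain ⟨p1, hp1⟩ := disc_wpath hD
    obtain ⟨p2, hp2⟩ := disc_wpath hD'
    have hpp : p = p1 ∧ p = p2 := by
      obtain ⟨r, h1, h2, h3⟩ := wpath_append.mp hp1
      obtain ⟨h4, h5⟩ := hp2
      have e1 : e.1 = r := h2
      have e2 : e.2 = p1 := h3
      have e3 : e.2 = p2 := h4
      have h5' : WPath e.1 v p2 := h5
      have h6 : WPath p1 (u ++ v) p1 := by
        refine wpath_append.mpr ⟨r, h1, ?_⟩
        rw [← e1, ← e2, e3]
        exact h5'
      have h7 := wpath_start hp h6 hne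
      exact ⟨h7, h7.trans (e2.symm.trans e3)⟩
    set GG : Set (V × V) := G ∪ G' ∪ {e, e.swap} with hGG
    have hG : G ⊆ GG := fun x h => Or.inl (Or.inl h)
    have hG' : G' ⊆ GG := fun x h => Or.inl (Or.inr h)
    have heG : e ∈ GG := Or.inr (Set.mem_insert _ _)
    have hesG : e.swap ∈ GG := Or.inr (Set.mem_insert_of_mem _ rfl)
    have hout : ∀ x ∈ u ++ v, x.1.swap ∉ GG := by
      intro x hx h
      have h1 := hnew.symm _ h
      rw [Prod.swap_swap] at h1
      exact hnew.notG x.1 (List.mem_map_of_mem hx) h1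
    have no1 : ∀ m s, ¬ Walk Q ω (F ∪ F') GG m e e s := by
      intro m s
      rcases (hD.arcs ω).split (u := u) (x := (e, a)) (v := []) rfl with
        ⟨v1, y, v2, h1, -⟩ | ⟨u1, y, u2, h1, n1, h2⟩
      · exact absurd h1.symm (by simp)
      · have h3 := (h2.mono (F' := F ∪ F') Set.subset_union_left hG).rev hnew.symm
        rw [Prod.swap_swap] at h3
        exact h3.not_closed (hout y (by rw [h1]; simp)) heG
    have no2 : ∀ m s, ¬ Walk Q ω (F ∪ F') GG m e.swap e.swap s := by
      intro m s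
      rcases (hD'.arcs ω).split (u := []) (x := (e.swap, a - 2)) (v := v) rfl with
        ⟨v1, y, v2, h1, n1, h2⟩ | ⟨u1, y, u2, h1, -⟩
      · have h3 := h2.mono (F' := F ∪ F') Set.subset_union_right hG'
        exact h3.not_closed (hout y (by rw [h1]; simp)) hesG
      · exact absurd h1.symm (by simp)
    have noX : ∀ c ∈ ({e, e.swap} : Set (V × V)), ∀ m s, ¬ Walk Q ω (F ∪ F') GG m c c s := by
      rintro c (rfl | rfl)
      · exact no1
      · exact no2
    rcases he1 with (he1 | he1) | he1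
    · rcases walk_join hd hi'.symm hi'.sideG hw (hi.sideG _ he1) hi.sideG with
        h1 | ⟨m, hm, c, s, h2, h3⟩
      · refine ih he1 h1 ?_ (by simp) p X L (hpp.1 ▸ hp1) ?_ (hL.mono Set.subset_union_left)
        · intro m hm s h2
          exact hmin m hm s (h2.mono Set.subset_union_left hG)
        · intro a'
          rw [hX]
          constructor
          · rintro ⟨m, s, h2⟩
            exact (walk_visit h1 he1 Set.subset_union_left hG m h2).1
          · rintro ⟨m, s, h2⟩
            exact ⟨m, s, h2.mono Set.subset_union_left hG⟩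
      · exact absurd (hw.rotate (hG he1) h2 hm).2 (noX c h3 _ _)
    · have hcomm : F ∪ F' = F' ∪ F := Set.union_comm _ _
      have hGc : GG = G' ∪ G ∪ {e, e.swap} := by rw [hGG, Set.union_comm G G']
      have hw' : Walk Q ω (F' ∪ F) (G' ∪ G ∪ {e, e.swap}) n e1 e1 t := by
        rw [← hcomm, ← hGc]; exact hw
      rcases walk_join hd.symm hi.symm hi.sideG hw' (hi'.sideG _ he1) hi'.sideG with
        h1 | ⟨m, hm, c, s, h2, h3⟩
      · refine ih' he1 h1 ?_ (by simp) p X L (hpp.2 ▸ hp2) ?_ (hL.mono Set.subset_union_right)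
        · intro m hm s h2
          exact hmin m hm s (h2.mono Set.subset_union_right hG')
        · intro a'
          rw [hX]
          constructor
          · rintro ⟨m, s, h2⟩
            exact (walk_visit h1 he1 Set.subset_union_right hG' m h2).1
          · rintro ⟨m, s, h2⟩
            exact ⟨m, s, h2.mono Set.subset_union_right hG'⟩
      · rw [← hcomm, ← hGc] at h2
        exact absurd (hw.rotate (hG' he1) h2 hm).2 (noX c h3 _ _)
    · exact absurd hw (noX e1 he1 _ _)
  | @zip F G u v e a hD ih =>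
    intro e1 n t he1 hw hmin hne p X L hp hX hL
    have hi := hD.inv
    have hnew := (Disc.zip hD).inv
    -- the start vertex
    obtain ⟨p1, hp1⟩ := disc_wpath hD
    obtain ⟨hpp, hpu⟩ : p = p1 ∧ WPath p u e.1 := by
      obtain ⟨r, h1, h2, h3, h4⟩ := wpath_append.mp hp1
      have e1 : e.1 = r := h2
      have h4' : WPath e.1 v p1 := h4
      have h6 : WPath p1 (u ++ v) p1 := wpath_append.mpr ⟨r, h1, by rw [← e1]; exact h4'⟩
      have h7 := wpath_start hp h6 hne
      exact ⟨h7, by rw [h7, e1]; exact h1⟩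
    set GG : Set (V × V) := G ∪ {e, e.swap} with hGG
    have hG : G ⊆ GG := fun x h => Or.inl h
    have heG : e ∈ GG := Or.inr (Set.mem_insert _ _)
    have hesG : e.swap ∈ GG := Or.inr (Set.mem_insert_of_mem _ rfl)
    have hout : ∀ x ∈ u ++ v, x.1.swap ∉ GG := by
      intro x hx h
      have h1 := hnew.symm _ h
      rw [Prod.swap_swap] at h1
      exact hnew.notG x.1 (List.mem_map_of_mem hx) h1
    have heold : e ∉ G := hi.notG e (by simp)
    have hesold : e.swap ∉ G := hi.notG _ (by simp)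
    -- the walks from the two sides of the seam
    have w1 : (∃ n1, Walk Q ω F G n1 e e (-4)) ∨ ∀ m s, ¬ Walk Q ω F GG m e e s := by
      rcases (hD.arcs ω).split (u := u) (x := (e, a)) (v := (e.swap, a - 2) :: v) rfl with
        ⟨v1, y, v2, h1, n1, h2⟩ | ⟨u1, y, u2, h1, n1, h2⟩
      · cases v1 with
        | nil =>
          rw [List.nil_append] at h1
          obtain ⟨h3, -⟩ := List.cons.inj h1
          left
          refine ⟨n1, ?_⟩
          rw [← h3, Prod.swap_swap] at h2
          exact h2.cast rfl (by ring)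
        | cons z v1' =>
          right
          intro m s
          rw [List.cons_append] at h1
          obtain ⟨-, h3⟩ := List.cons.inj h1
          exact (h2.mono subset_rfl hG).not_closed (hout y (by rw [h3]; simp)) heG
      · right
        intro m s
        have h3 := (h2.mono (F' := F) subset_rfl hG).rev hnew.symm
        rw [Prod.swap_swap] at h3
        exact h3.not_closed (hout y (by rw [h1]; simp)) heG
    have w2 : (∃ n1, Walk Q ω F G n1 e.swap e.swap 4) ∨
        ∀ m s, ¬ Walk Q ω F GG m e.swap e.swap s := by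
      rcases (hD.arcs ω).split (u := u ++ [(e, a)]) (x := (e.swap, a - 2)) (v := v) (by simp) with
        ⟨v1, y, v2, h1, n1, h2⟩ | ⟨u1, y, u2, h1, n1, h2⟩
      · right
        intro m s
        exact (h2.mono subset_rfl hG).not_closed (hout y (by rw [h1]; simp)) hesG
      · rcases List.eq_nil_or_concat u2 with rfl | ⟨u2', z, rfl⟩
        · left
          have h3 : (e, a) = y := by
            have h4 := List.append_inj_right' h1 rfl
            simpa using h4
          subst h3
          have h4 := h2.rev hi.symm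
          rw [Prod.swap_swap] at h4
          exact ⟨n1, h4.cast rfl (by ring)⟩
        · right
          intro m s
          have h3 : u = u1 ++ y :: u2' := by
            have h4 : u ++ [(e, a)] = (u1 ++ y :: u2') ++ [z] := by rw [h1]; simp
            exact List.append_inj_left' h4 rfl
          have h4 := (h2.mono (F' := F) subset_rfl hG).rev hnew.symm
          rw [Prod.swap_swap] at h4
          exact h4.not_closed (hout y (by rw [h3]; simp)) hesG
    -- a closed walk through one of the two sides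
    have key : ∀ c ∈ ({e, e.swap} : Set (V × V)), ∀ {n : ℕ} {t : ℤ}, Walk Q ω F GG n c c t →
        (∀ n1, Walk Q ω F GG n1 c c (-4) ∨ Walk Q ω F GG n1 c c 4 → n ≤ n1) →
        (t = 4 ∧ c = e.swap) ∨ (t = -4 ∧ c = e) := by
      intro c hc n t hcw hle
      have hcG : c ∉ G := by
        rcases hc with rfl | rfl
        · exact heold
        · exact hesold
      obtain ⟨n1, τ, hτ, h1⟩ : ∃ n1 τ, ((τ = 4 ∧ c = e.swap) ∨ (τ = -4 ∧ c = e)) ∧
          Walk Q ω F G n1 c c τ := by
        rcases hc with rfl | rfl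
        · rcases w1 with ⟨n1, h1⟩ | h1
          · exact ⟨n1, -4, Or.inr ⟨rfl, rfl⟩, h1⟩
          · exact absurd hcw (h1 _ _)
        · rcases w2 with ⟨n1, h1⟩ | h1
          · exact ⟨n1, 4, Or.inl ⟨rfl, rfl⟩, h1⟩
          · exact absurd hcw (h1 _ _)
      have h2 : n ≤ n1 := by
        apply hle
        rcases hτ with ⟨rfl, -⟩ | ⟨rfl, -⟩
        · exact Or.inr (h1.mono subset_rfl hG)
        · exact Or.inl (h1.mono subset_rfl hG)
      rcases Nat.lt_or_ge n n1 with h3 | h3
      · obtain ⟨d, s, h4, h5, -⟩ := h1.prefix_ hcw.pos h3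
        obtain ⟨rfl, -⟩ := (h4.mono subset_rfl hG).unique hcw
        exact absurd h5 hcG
      · obtain rfl : n = n1 := by omega
        obtain ⟨-, rfl⟩ := hcw.unique (h1.mono subset_rfl hG)
        exact hτ
    -- the edges of `X` are glued
    have hXG : ∀ c ∈ X, c ∈ GG := by
      intro c hc
      obtain ⟨m, s, h1⟩ := (hX c).mp hc
      exact (walk_visit hw he1 subset_rfl subset_rfl m h1).2
    have hpL : L p = L e.1 := by
      refine wpath_const hpu fun x hx => ?_
      have h1 : x.1 ∈ (u ++ v).map Prod.fst := List.mem_map_of_mem (List.mem_append_left _ hx)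
      refine hL.off x.1 (hnew.sideW _ h1) (fun h => hnew.notG _ h1 (hXG _ h)) fun h => ?_
      exact hout x (List.mem_append_left _ hx) (hXG _ h)
    -- the conclusion if one of the two sides is visited
    have fin : ∀ c ∈ X, ((t = 4 ∧ c = e.swap) ∨ (t = -4 ∧ c = e)) →
        (t = 4 ∧ L p = 0) ∨ (t = -4 ∧ L p = 1) := by
      intro c hc h
      rcases h with ⟨h1, rfl⟩ | ⟨h1, rfl⟩
      · refine Or.inl ⟨h1, ?_⟩
        rw [hpL]
        exact (hL.onr e (hi.sideW e (by simp)) hc).1
      · refine Or.inr ⟨h1, ?_⟩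
        rw [hpL]
        exact (hL.on c (hi.sideW c (by simp)) hc).1
    by_cases hX1 : e1 ∈ ({e, e.swap} : Set (V × V))
    · refine fin e1 ((hX e1).mpr ⟨n, t, hw⟩) (key e1 hX1 hw ?_)
      intro n1 h1
      by_contra h2
      rcases h1 with h1 | h1
      · exact hmin n1 (by omega) _ h1
      · exact hmin n1 (by omega) _ h1
    have he1' : e1 ∈ G := by
      rcases he1 with h | h
      · exact h
      · exact absurd h hX1
    rcases walk_zip hw with h1 | ⟨m, hm, c, s, h2, h3⟩
    · refine ih he1' h1 ?_ (by simp) p X L (hpp ▸ hp1) ?_ hL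
      · intro m hm s h2
        exact hmin m hm s (h2.mono subset_rfl hG)
      · intro a'
        rw [hX]
        constructor
        · rintro ⟨m, s, h2⟩
          exact (walk_visit h1 he1' subset_rfl hG m h2).1
        · rintro ⟨m, s, h2⟩
          exact ⟨m, s, h2.mono subset_rfl hG⟩
    · obtain ⟨hcG, hcw⟩ := hw.rotate (hG he1') h2 hm
      refine fin c ((hX c).mpr ⟨m, s, h2⟩) (key c h3 hcw ?_)
      intro n1 h4
      by_contra h5
      have h6 : ∃ τ, Walk Q ω F GG n1 c c τ := by
        rcases h4 with h4 | h4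
        · exact ⟨_, h4⟩
        · exact ⟨_, h4⟩
      obtain ⟨τ, h6⟩ := h6
      -- come back to `e1` after `n1` steps
      obtain ⟨d, s1, h7, -, h8⟩ := hw.prefix_ h2.pos hm
      obtain ⟨rfl, rfl⟩ := h2.unique h7
      have h9 := (h2.comp hcG h6).comp hcG h8
      obtain ⟨d', s2, h10, -, h11⟩ := h9.prefix_ (m := n) hw.pos (by have := h6.pos; omega)
      obtain ⟨rfl, -⟩ := hw.unique h10
      exact hmin n1 (by omega) _ (h11.cast (by omega) rfl)
  | @rot F G u e a hD ih =>
    intro e1 n t he1 hw hmin hne p X L hp hX hL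
    have hi := hD.inv
    obtain ⟨r, h1, h2, h3⟩ := wpath_append.mp hp
    have e2 : e.1 = r := h2
    have e3 : e.2 = p := h3
    have hXG : ∀ c ∈ X, c ∈ G := by
      intro c hc
      obtain ⟨m, s, h4⟩ := (hX c).mp hc
      exact (walk_visit hw he1 subset_rfl subset_rfl m h4).2
    have heG : e ∉ G := hi.notG e (by simp)
    have heG' : e.swap ∉ G := by
      intro h
      have h4 := hi.symm _ h
      rw [Prod.swap_swap] at h4
      exact heG h4
    have h5 : L e.1 = L e.2 := hL.off e (hi.sideW e (by simp)) (fun h => heG (hXG _ h))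
      (fun h => heG' (hXG _ h))
    have h6 := ih he1 hw hmin (by simp) e.1 X L ⟨rfl, by
      show WPath e.2 u e.1
      rw [e3, e2]
      exact h1⟩ hX hL
    rw [h5, e3] at h6
    exact h6
  | @shift F G u c hD ih =>
    intro e1 n t he1 hw hmin hne p X L hp hX hL
    exact ih he1 hw hmin (fun h => hne (by rw [h]; rfl)) p X L ((wpath_shift c).mp hp) hX hL

end

noncomputable section

variable {V Φ : Type} [DecidableEq V] [DecidableEq Φ]
variable {Q : QC V Φ} {F : Finset Φ} {ω : Φ → Bool} {a b e : V × V} {X : Finset (V × V)}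
  {ψ : V × V → ℝ} {p x y z z' z'' : V} {G : Set (V × V)} {w : List ((V × V) × ℤ)}

theorem lftW_of (hQ : NoLoop Q) (hX : X ∈ dstr Q F ω) {L : V → ℤ} (hL : Tilt.IsLft Q F X L) :
    LftW Q (F : Set Φ) (X : Set (V × V)) L := by
  have hs : ∀ a, a ∈ Sides Q (F : Set Φ) → a ∈ dE Q F := by
    rintro a ⟨f, hf, k, rfl⟩
    exact sd_mem (by exact_mod_cast hf) k
  have hno : ∀ a, a ∈ X → a.swap ∉ X := by
    intro a ha ha'
    obtain ⟨h1, h2⟩ := dstr_of_mem hX ha
    rw [h2] at ha'
    exact not_srel_swap hQ h1 (mem_dst.mp ha').2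
  refine ⟨fun a ha h => ?_, fun a ha h => ?_, fun a ha h h' => ?_⟩
  · have h : a ∈ X := by exact_mod_cast h
    have h1 := hL.inc a (hs a ha)
    rw [if_pos h, if_neg (hno a h)] at h1
    rcases hL.val a.1 with h2 | h2 <;> rcases hL.val a.2 with h3 | h3 <;> constructor <;> omega
  · have h : a.swap ∈ X := by exact_mod_cast h
    have h0 : a ∉ X := fun h' => hno a h' h
    have h1 := hL.inc a (hs a ha)
    rw [if_neg h0, if_pos h] at h1
    rcases hL.val a.1 with h2 | h2 <;> rcases hL.val a.2 with h3 | h3 <;> constructor <;> omega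
  · have h : a ∉ X := fun h1 => h (by exact_mod_cast h1)
    have h' : a.swap ∉ X := fun h1 => h' (by exact_mod_cast h1)
    have h1 := hL.inc a (hs a ha)
    rw [if_neg h, if_neg h'] at h1
    omega

theorem walk_nx_last {n : ℕ} {t : ℤ} (h : Walk Q ω (F : Set Φ) G n a b t) {c : V × V}
    (hc : Nx Q ω (F : Set Φ) c b) : c = a ∨ ∃ m s, Walk Q ω (F : Set Φ) G m a c s := by
  cases h with
  | one h =>
    left
    exact hc.inj (nx_iff.mpr ⟨_, h⟩)
  | @tail n a d b t s h hd h' =>
    right
    have h1 : c = d := hc.inj (nx_iff.mpr ⟨_, h'⟩)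
    exact ⟨n, t, by rw [h1]; exact h⟩

/-- the side of the boundary of a closed strand -/
theorem lft_closed (hQ : NoLoop Q) (h : Disc Q (F : Set Φ) G w)
    (hw : ∀ e ∈ w.map Prod.fst, Ini Q (F : Set Φ) e) (hne : w ≠ []) (hp : WPath p w p)
    (hX : X ∈ dstr Q F ω) (hX' : ∀ a ∈ X, ¬ Ini Q (F : Set Φ) a) {L : V → ℤ}
    (hL : Tilt.IsLft Q F X L) :
    (tX Q F ω X = 4 ∧ L p = 0) ∨ (tX Q F ω X = -4 ∧ L p = 1) := by
  obtain ⟨a, ha, hXa⟩ := mem_dstr.mp hX
  have ha' : a ∈ X := by rw [← hXa]; exact self_mem_dst ha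
  have hG : ∀ b ∈ X, b ∈ G := fun b hb => h.closed_mem hw hX hX' hb
  obtain ⟨n, h1, h2⟩ := closed_walk hX hX' ha' hG
  have hmin : ∀ m < n, ∀ s, ¬ Walk Q ω (F : Set Φ) G m a a s := by
    intro m hm s h3
    exact h2 m s h3.pos hm (h3.mono subset_rfl (Set.subset_univ _))
  refine disc_loop_side h ω (hG a ha') h1 hmin hne p (X : Set (V × V)) L hp (fun b => ?_)
    (lftW_of hQ hX hL)
  rw [Finset.mem_coe]
  constructor
  · intro hb
    have hsucc : ∀ b c, (∃ m s, Walk Q ω (F : Set Φ) G m a b s) → Nx Q ω (F : Set Φ) b c →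
        ∃ m s, Walk Q ω (F : Set Φ) G m a c s := by
      rintro b c ⟨m, s, h3⟩ h4
      obtain ⟨u, h5⟩ := nx_iff.mp h4
      exact ⟨m + 1, _, Walk.tail h3 (walk_visit h1 (hG a ha') subset_rfl subset_rfl m h3).2 h5⟩
    have hpred : ∀ b c, (∃ m s, Walk Q ω (F : Set Φ) G m a b s) → Nx Q ω (F : Set Φ) c b →
        ∃ m s, Walk Q ω (F : Set Φ) G m a c s := by
      rintro b c ⟨m, s, h3⟩ h4
      rcases walk_nx_last h3 h4 with rfl | h5
      · exact ⟨n, _, h1⟩
      · exact h5
    rw [← hXa] at hb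
    rcases srel_iff.mp (mem_dst.mp hb).2 with h3 | h3
    · induction h3 with
      | refl => exact ⟨n, _, h1⟩
      | tail h4 h5 ih =>
        exact hsucc _ _ (ih (mem_dst.mpr ⟨srel_dE (srel_iff.mpr (Or.inl h4)) ha,
          srel_iff.mpr (Or.inl h4)⟩)) h5
    · induction h3 using ReflTransGen.head_induction_on with
      | refl => exact ⟨n, _, h1⟩
      | head h4 h5 ih =>
        exact hpred _ _ (ih (mem_dst.mpr ⟨srel_dE (srel_iff.mpr (Or.inr h5)) ha,
          srel_iff.mpr (Or.inr h5)⟩)) h4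
  · rintro ⟨m, s, h3⟩
    obtain ⟨c, h4, h5, h6, -⟩ := h3.seq
    have h7 := seq_rtg c h6 m le_rfl
    rw [h4, h5] at h7
    have h8 : SRel Q F ω a b := srel_iff.mpr (Or.inl h7)
    rw [← hXa]
    exact mem_dst.mpr ⟨srel_dE h8 ha, h8⟩

theorem sin_pi_div_three : 2 * Real.sin (4 * (Real.pi / 12)) = Real.sqrt 3 := by
  rw [show 4 * (Real.pi / 12) = Real.pi / 3 by ring, Real.sin_pi_div_three]
  ring

/-- the term of a closed strand -/
theorem lft_closed_term (hQ : NoLoop Q) (h : Disc Q (F : Set Φ) G w)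
    (hw : ∀ e ∈ w.map Prod.fst, Ini Q (F : Set Φ) e) (hne : w ≠ []) (hp : WPath p w p)
    (hX : X ∈ dstr Q F ω) (hX' : ∀ a ∈ X, ¬ Ini Q (F : Set Φ) a) {L : V → ℤ}
    (hL : Tilt.IsLft Q F X L) (z : V) :
    ((L z - L p : ℤ) : ℝ) * (2 * Real.sin (agl Q F ω ψ X)) = if L z ≠ L p then Real.sqrt 3 else 0 := by
  rw [agl_loop hX hX']
  rcases lft_closed hQ h hw hne hp hX hX' hL with ⟨h1, h2⟩ | ⟨h1, h2⟩
  · rw [h1, h2]
    rcases hL.val z with h3 | h3
    · rw [h3, if_neg (by simp)]
      simp
    · rw [h3, if_pos (by simp)]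
      push_cast
      rw [← sin_pi_div_three]
      ring
  · rw [h1, h2]
    rcases hL.val z with h3 | h3
    · rw [h3, if_pos (by simp)]
      push_cast
      rw [show (-4 : ℝ) * (Real.pi / 12) = -(4 * (Real.pi / 12)) by ring, Real.sin_neg,
        ← sin_pi_div_three]
      ring
    · rw [h3, if_neg (by simp)]
      simp

theorem uc_closed (hQ : NoLoop Q) (h : Disc Q (F : Set Φ) G w)
    (hw : ∀ e ∈ w.map Prod.fst, Ini Q (F : Set Φ) e)
    (hX : X ∈ dstr Q F ω) (hX' : ∀ a ∈ X, ¬ Ini Q (F : Set Φ) a) : uc Q F ω ψ {X, rv X} = 1 := by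
  have h1 : Real.cos (4 * (Real.pi / 12)) = 1 / 2 := by
    rw [show 4 * (Real.pi / 12) = Real.pi / 3 by ring, Real.cos_pi_div_three]
  unfold uc
  rw [Finset.sum_pair (rv_ne hQ hX).symm, agl_rv hX, Real.cos_neg, agl_loop hX hX']
  rcases h.closed hw hX hX' with h2 | h2
  · rw [h2]
    push_cast
    rw [h1]
    norm_num
  · rw [h2]
    push_cast
    rw [neg_mul, Real.cos_neg, h1]
    norm_num

/-! ## Arcs -/

theorem wpath_take {q : V} : ∀ {p : V} {w : List ((V × V) × ℤ)}, WPath p w q → ∀ (i : ℕ) (hi : i < w.length),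
    WPath p (w.take i) (w[i].1.1)
  | p, [], _, i, hi => absurd hi (by simp)
  | p, x :: w, h, 0, _ => by
    show p = x.1.1
    exact h.1.symm
  | p, x :: w, h, i + 1, hi => by
    refine ⟨h.1, ?_⟩
    exact wpath_take h.2 i (by simpa using hi)

/-- a side of the word is visited only by its own strand -/
theorem side_notMem (h : Disc Q (F : Set Φ) G w) (hw : ∀ e ∈ w.map Prod.fst, Ini Q (F : Set Φ) e)
    {i k : ℕ} (hi : i < w.length) (hk : k < w.length) (hik : k ≠ i) :
    w[k].1 ∉ dst Q F ω (w[i].1) := by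
  intro h1
  have h2 := ini_unique (ω := ω) (mem_bS.mp (side_mem h hw hi)).2 (mem_bS.mp (side_mem h hw hk)).2
    (mem_dst.mp h1).2
  exact hik (nodup_inj h hk hi h2.symm)

theorem side_swap_notMem (h : Disc Q (F : Set Φ) G w)
    (hw : ∀ e ∈ w.map Prod.fst, Ini Q (F : Set Φ) e)
    {i k : ℕ} (hi : i < w.length) (hk : k < w.length) (hik : k ≠ cM Q F w ω i) :
    (w[k].1).swap ∉ dst Q F ω (w[i].1) := by
  intro h1
  obtain ⟨h2, -, h3⟩ := h.cM_all hw ω
  have h4 := mate_unique (ω := ω) (mem_bS.mp (side_mem h hw hi)).2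
    (ter_swap.mpr (mem_bS.mp (side_mem h hw hk)).2) (mem_dst.mp h1).2
  rw [Prod.swap_swap, (h3 i hi (h2 i hi).1).1] at h4
  exact hik (nodup_inj h hk (h2 i hi).1 h4.symm)

theorem side_swap_mem (h : Disc Q (F : Set Φ) G w) (hw : ∀ e ∈ w.map Prod.fst, Ini Q (F : Set Φ) e)
    {i : ℕ} (hi : i < w.length) (hj : cM Q F w ω i < w.length) :
    (w[cM Q F w ω i].1).swap ∈ dst Q F ω (w[i].1) := by
  obtain ⟨h2, -, h3⟩ := h.cM_all hw ω
  have h4 := side_mem h hw hi
  have h5 := srel_lst (ω := ω) (mem_bS.mp h4).2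
  have h6 : (mate Q F ω (w[i].1)).swap = lst Q F ω (w[i].1) := by unfold mate; rw [Prod.swap_swap]
  rw [← (h3 i hi hj).1, h6]
  exact mem_dst.mpr ⟨srel_dE h5 (mem_bS.mp h4).1, h5⟩

/-- the boundary vertices on the two sides of an arc: `L = 1` up to the vertex `i`, `0` from `i + 1` to
`cM i`, then `1` -/
theorem lft_arc_bd (hQ : NoLoop Q) (h : Disc Q (F : Set Φ) G w)
    (hw : ∀ e ∈ w.map Prod.fst, Ini Q (F : Set Φ) e) (hp : WPath p w p) {i : ℕ} (hi : i < w.length)
    (hij : i < cM Q F w ω i) {L : V → ℤ} (hL : Tilt.IsLft Q F (dst Q F ω (w[i].1)) L) :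
    L p = 1 ∧ ∀ (k : ℕ) (hk : k < w.length), L (w[k].1.1) = if i < k ∧ k ≤ cM Q F w ω i then 0 else 1 := by
  obtain ⟨h2, -, h3⟩ := h.cM_all hw ω
  have hX : dst Q F ω (w[i].1) ∈ dstr Q F ω := dst_mem_dstr (mem_bS.mp (side_mem h hw hi)).1
  have hl := lftW_of hQ hX hL
  have hs : ∀ (k : ℕ) (hk : k < w.length), w[k].1 ∈ Sides Q (F : Set Φ) := fun k hk =>
    h.inv.sideW _ (List.mem_map_of_mem (List.getElem_mem hk))
  have hself : w[i].1 ∈ dst Q F ω (w[i].1) := self_mem_dst (mem_bS.mp (side_mem h hw hi)).1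
  have hon := hl.on _ (hs i hi) (by exact_mod_cast hself)
  -- one side
  have hstep : ∀ (k : ℕ) (hk : k < w.length), k ≠ i → k ≠ cM Q F w ω i →
      L (w[k].1.1) = L (w[k].1.2) := by
    intro k hk h4 h5
    refine hl.off _ (hs k hk) (fun h6 => ?_) (fun h6 => ?_)
    · exact side_notMem h hw hi hk h4 (by exact_mod_cast h6)
    · exact side_swap_notMem h hw hi hk h5 (by exact_mod_cast h6)
  have hjl := (h2 i hi).1
  have hoff := hl.onr _ (hs _ hjl) (by
    exact_mod_cast side_swap_mem h hw hi hjl)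
  -- the path from `p`
  have hpk : ∀ (k : ℕ) (hk : k < w.length), k ≤ i → L p = L (w[k].1.1) := by
    intro k hk hki
    refine wpath_const (wpath_take hp k hk) fun x hx => ?_
    obtain ⟨l, hl1, rfl⟩ := List.getElem_of_mem hx
    rw [List.getElem_take]
    rw [List.length_take] at hl1
    have h4 : l < k := lt_of_lt_of_le hl1 (min_le_left _ _)
    exact hstep l (by omega) (by omega) (by omega)
  have hLp : L p = 1 := by rw [hpk i hi le_rfl]; exact hon.1
  refine ⟨hLp, ?_⟩
  -- the vertices of the path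
  have hnext : ∀ (k : ℕ) (hk : k + 1 < w.length), w[k].1.2 = w[k + 1].1.1 := by
    intro k hk
    have h4 := wpath_take hp (k + 1) hk
    rw [List.take_add_one, List.getElem?_eq_getElem (by omega)] at h4
    obtain ⟨r, -, h5, h6⟩ := wpath_append.mp h4
    exact h6
  intro k hk
  induction k with
  | zero =>
    rw [if_neg (by omega), ← hpk 0 hk (Nat.zero_le _), hLp]
  | succ k ih =>
    have ih := ih (by omega)
    rw [← hnext k hk]
    by_cases h4 : k = i
    · subst h4
      rw [if_pos (by omega), hon.2]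
    by_cases h5 : k = cM Q F w ω i
    · rw [if_neg (by omega)]
      have h6 : ∀ (l : ℕ) (hl : l < w.length), l = cM Q F w ω i → L (w[l].1.2) = 1 := by
        intro l hl h7
        subst h7
        exact hoff.2
      exact h6 k (by omega) h5
    · rw [← hstep k (by omega) h4 h5, ih]
      congr 1
      apply propext
      omega

end

end Pool.Agent.SixB.Ht
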