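import Pool.Agent.Lib.SixB.CAEnvB
import Pool.Agent.Lib.SixB.S0Bd

/-!
# 6BD block CA: the height of a disc, loops and arcs

`Disc Q F G w`, all sides of `w` boundary sides of `F`, `WPath p w p` (the vertex `p` is the start of the
word), `z` any vertex which is joined to `p`.
* `nLp Q F ω z p`: number of the closed strands which separate `z` from `p`.
* `ovZ Q F w ω z`: the sides `i < cM i` of the word such that `z` is on the right of the arc from `i` to
  `cM i`, i.e. the arcs which separate `z` from `p`.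
* `disc_HR`: `HR z - HR p = √3 * nLp * WU + ∑ (i ∈ ovZ), pS i`. Arcs of weight zero are kept: `pS i` is
  `2 sin (π / 6 - J i)` times the product of `2 cos (J l - π / 6)` over the other arcs,
  `J i = th (cM i) - th i`.
* `disc_uH`: the mean height. `uH_bd`: at the boundary vertex `k` it is `hB k`. `disc_conn`.
* `tJ x = cos (x - π / 6) / cos (π / 6)`, `dJ x = sin (π / 6 - x) / cos (π / 6)`; `disc_HR_norm`: normalised form.
-/

set_option autoImplicit false
set_option linter.unusedSectionVars false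

namespace Pool.Agent.SixB.Ht

open Pool.Agent.Perc.Q Relation

noncomputable section

variable {V Φ : Type} [DecidableEq V] [DecidableEq Φ]
variable {Q : QC V Φ} {F : Finset Φ} {ω : Φ → Bool} {a b e : V × V} {X : Finset (V × V)}
  {ψ : V × V → ℝ} {p x y z z' z'' : V} {G : Set (V × V)} {w : List ((V × V) × ℤ)}

/-! ## Connectedness -/

/-- neighbours along a unit edge of `F` -/
def Adj (Q : QC V Φ) (F : Set Φ) (u v : V) : Prop :=
  ∃ f ∈ F, ∃ k : ZMod 4, (u, v) = sd Q f k ∨ (u, v) = (sd Q f k).swap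

theorem Adj.mono {F F' : Set Φ} {u v : V} (h : Adj Q F u v) (hF : F ⊆ F') : Adj Q F' u v := by
  obtain ⟨f, hf, h⟩ := h
  exact ⟨f, hF hf, h⟩

theorem Adj.symm {F : Set Φ} {u v : V} (h : Adj Q F u v) : Adj Q F v u := by
  obtain ⟨f, hf, k, h | h⟩ := h
  · exact ⟨f, hf, k, Or.inr (by rw [← h]; rfl)⟩
  · refine ⟨f, hf, k, Or.inl ?_⟩
    have := congrArg Prod.swap h
    rw [Prod.swap_swap] at this
    exact this

theorem rtg_lift {r s : V → V → Prop} {u v : V} (h : ReflTransGen r u v)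
    (hrs : ∀ a b, r a b → s a b) : ReflTransGen s u v := by
  induction h with
  | refl => exact ReflTransGen.refl
  | tail _ h2 ih => exact ih.tail (hrs _ _ h2)

theorem rtg_adj_mono {F F' : Set Φ} {u v : V} (h : ReflTransGen (Adj Q F) u v) (hF : F ⊆ F') :
    ReflTransGen (Adj Q F') u v := rtg_lift h fun _ _ h => h.mono hF

theorem rtg_adj_symm {F : Set Φ} {u v : V} (h : ReflTransGen (Adj Q F) u v) :
    ReflTransGen (Adj Q F) v u := by
  induction h with
  | refl => exact ReflTransGen.refl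
  | tail _ h2 ih => exact ReflTransGen.head h2.symm ih

/-- a disc is connected -/
theorem disc_adj {F : Set Φ} (h : Disc Q F G w) : ∀ f ∈ F, ∀ g ∈ F, ∀ k l : ZMod 4,
    ReflTransGen (Adj Q F) (Q.c f k) (Q.c g l) := by
  induction h with
  | face f0 k0 a =>
    rintro f rfl g hg k l
    obtain rfl : g = f := hg
    have hs : ∀ k : ZMod 4, ReflTransGen (Adj Q {g}) (Q.c g 0) (Q.c g k) := by
      have h1 : ∀ k : ZMod 4, Adj Q {g} (Q.c g k) (Q.c g (k + 1)) := fun k =>
        ⟨g, rfl, k, Or.inl rfl⟩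
      intro k
      have e1 : (1 : ZMod 4) = 0 + 1 := by decide
      have e2 : (2 : ZMod 4) = 0 + 1 + 1 := by decide
      have e3 : (3 : ZMod 4) = 0 + 1 + 1 + 1 := by decide
      have : k = 0 ∨ k = 1 ∨ k = 2 ∨ k = 3 := by revert k; decide
      rcases this with rfl | rfl | rfl | rfl
      · exact ReflTransGen.refl
      · rw [e1]
        exact ReflTransGen.single (h1 _)
      · rw [e2]
        exact (ReflTransGen.single (h1 _)).tail (h1 _)
      · rw [e3]
        exact ((ReflTransGen.single (h1 _)).tail (h1 _)).tail (h1 _)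
    exact (rtg_adj_symm (hs k)).trans (hs l)
  | @join F F' G G' u v e a hD hD' hd ih ih' =>
    obtain ⟨f1, hf1, k1, h1⟩ := hD.inv.sideW e (by simp)
    obtain ⟨f2, hf2, k2, h2⟩ := hD'.inv.sideW e.swap (by simp)
    have hm : ∀ {u v : V}, ReflTransGen (Adj Q F) u v → ReflTransGen (Adj Q (F ∪ F')) u v :=
      fun h => rtg_adj_mono h Set.subset_union_left
    have hm' : ∀ {u v : V}, ReflTransGen (Adj Q F') u v → ReflTransGen (Adj Q (F ∪ F')) u v :=
      fun h => rtg_adj_mono h Set.subset_union_right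
    have e1 : Q.c f1 k1 = e.1 := by rw [h1]; rfl
    have e2 : Q.c f2 k2 = e.2 := by
      have := congrArg Prod.fst h2
      exact this.symm
    have h3 : ReflTransGen (Adj Q (F ∪ F')) (Q.c f1 k1) (Q.c f2 k2) := by
      rw [e1, e2]
      exact ReflTransGen.single ⟨f1, Or.inl hf1, k1, Or.inl h1⟩
    have key : ∀ f ∈ F ∪ F', ∀ k : ZMod 4,
        ReflTransGen (Adj Q (F ∪ F')) (Q.c f1 k1) (Q.c f k) := by
      rintro f (hf | hf) k
      · exact hm (ih f1 hf1 f hf k1 k)
      · exact h3.trans (hm' (ih' f2 hf2 f hf k2 k))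
    intro f hf g hg k l
    exact (rtg_adj_symm (key f hf k)).trans (key g hg l)
  | zip _ ih => exact ih
  | rot _ ih => exact ih
  | shift c _ ih => exact ih

theorem adj_iff {u v : V} : Adj Q (F : Set Φ) u v ↔ (u, v) ∈ dE Q F := by
  rw [mem_dE]
  constructor
  · rintro ⟨f, hf, h⟩
    exact ⟨f, by exact_mod_cast hf, h⟩
  · rintro ⟨f, hf, h⟩
    exact ⟨f, by exact_mod_cast hf, h⟩

/-- all vertices of a disc are joined -/
theorem disc_conn (h : Disc Q (F : Set Φ) G w) {f g : Φ} (hf : f ∈ F) (hg : g ∈ F) (k l : ZMod 4) :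
    Tilt.ConnE Q F (Q.c f k) (Q.c g l) :=
  rtg_lift (disc_adj h f (by exact_mod_cast hf) g (by exact_mod_cast hg) k l)
    fun _ _ h => adj_iff.mp h

/-- the start of the word is joined to all vertices -/
theorem disc_conn_start (h : Disc Q (F : Set Φ) G w) (hne : w ≠ []) (hp : WPath p w p) {f : Φ}
    (hf : f ∈ F) (k : ZMod 4) : Tilt.ConnE Q F (Q.c f k) p := by
  cases w with
  | nil => exact absurd rfl hne
  | cons x w =>
    obtain ⟨g, hg, l, hl⟩ := h.inv.sideW x.1 (by simp)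
    have h1 : p = Q.c g l := by
      rw [← hp.1, hl]
      rfl
    rw [h1]
    exact disc_conn h hf (by exact_mod_cast hg) k l

/-! ## Loops and arcs -/

open Classical in
/-- number of the closed strands which separate `z` from `p` -/
def nLp (Q : QC V Φ) (F : Finset Φ) (ω : Φ → Bool) (z p : V) : ℕ :=
  ((lps Q F ω).filter fun U => Tilt.lft Q F (Tilt.rep U) z ≠ Tilt.lft Q F (Tilt.rep U) p).card

/-- left indicator of the strand of the side `i` of the word -/
def lI (Q : QC V Φ) (F : Finset Φ) (w : List ((V × V) × ℤ)) (ω : Φ → Bool) (i : ℕ) (z : V) : ℤ :=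
  if h : i < w.length then Tilt.lft Q F (dst Q F ω (w[i].1)) z else 1

/-- the arcs of the word with `z` on the right -/
def ovZ (Q : QC V Φ) (F : Finset Φ) (w : List ((V × V) × ℤ)) (ω : Φ → Bool) (z : V) : Finset ℕ :=
  (Finset.range w.length).filter fun i => i < cM Q F w ω i ∧ lI Q F w ω i z = 0

theorem lI_lt {i : ℕ} (hi : i < w.length) :
    lI Q F w ω i z = Tilt.lft Q F (dst Q F ω (w[i].1)) z := by
  unfold lI; rw [dif_pos hi]

/-- sums over the arcs as sums over positions -/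
theorem sum_arcs_pos (h : Disc Q (F : Set Φ) G w) (hw : ∀ e ∈ w.map Prod.fst, Ini Q (F : Set Φ) e)
    (g : Sym2 (V × V) → ℝ) (g' : ℕ → ℝ)
    (hg : ∀ (i : ℕ) (hi : i < w.length), i < cM Q F w ω i → g s(w[i].1, mate Q F ω (w[i].1)) = g' i) :
    ∑ q ∈ arcs Q F ω, g q = ∑ i ∈ (Finset.range w.length).filter (fun i => i < cM Q F w ω i), g' i := by
  obtain ⟨h1, h2, h3⟩ := h.cM_all hw ω
  symm
  have hlt : ∀ i ∈ (Finset.range w.length).filter (fun i => i < cM Q F w ω i), i < w.length :=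
    fun i hi => Finset.mem_range.mp (Finset.mem_filter.mp hi).1
  refine Finset.sum_bij (fun i hi => s((w[i]'(hlt i hi)).1, mate Q F ω (w[i]'(hlt i hi)).1))
    ?_ ?_ ?_ ?_
  · intro i hi
    exact mem_arcs.mpr ⟨_, side_mem h hw (hlt i hi), rfl⟩
  · intro i hi j hj he
    have hi' := hlt i hi
    have hj' := hlt j hj
    rcases Sym2.eq_iff.mp he with h4 | h4
    · exact nodup_inj h hi' hj' h4.1
    · exfalso
      have h5 := (h3 j hj' (h1 j hj').1).1
      have h6 := (h3 i hi' (h1 i hi').1).1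
      have h7 := h4.1
      have h8 := h4.2
      rw [h5] at h7
      rw [h6] at h8
      have h9 := nodup_inj h hi' (h1 j hj').1 h7
      have h10 := nodup_inj h (h1 i hi').1 hj' h8
      have h11 := (Finset.mem_filter.mp hi).2
      have h12 := (Finset.mem_filter.mp hj).2
      omega
  · intro p hp
    obtain ⟨a, ha, rfl⟩ := mem_arcs.mp hp
    obtain ⟨x, hx, hxa⟩ := List.mem_map.mp ((h.mem_bS hw).mp ha)
    obtain ⟨i, hi, hix⟩ := List.getElem_of_mem hx
    have hia : w[i].1 = a := by rw [hix, hxa]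
    obtain ⟨h4, h5, h6⟩ := h1 i hi
    have h7 := (h3 i hi h4).1
    rcases Nat.lt_or_gt_of_ne h5 with h8 | h8
    · refine ⟨cM Q F w ω i, Finset.mem_filter.mpr ⟨Finset.mem_range.mpr h4, by rw [h6]; exact h8⟩, ?_⟩
      rw [← h7, hia, mate_mate ha, Sym2.eq_swap]
    · refine ⟨i, Finset.mem_filter.mpr ⟨Finset.mem_range.mpr hi, h8⟩, ?_⟩
      rw [hia]
  · intro i hi
    exact (hg i (hlt i hi) (Finset.mem_filter.mp hi).2).symm

/-- the term of a strand in the height difference -/
def tmU (Q : QC V Φ) (F : Finset Φ) (ψ : V × V → ℝ) (ω : Φ → Bool) (z z' : V)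
    (U : Finset (Finset (V × V))) : ℝ :=
  (∏ U' ∈ (ust Q F ω).erase U, uc Q F ω ψ U') *
    (((Tilt.lft Q F (Tilt.rep U) z - Tilt.lft Q F (Tilt.rep U) z' : ℤ) : ℝ) *
      (2 * Real.sin (agl Q F ω ψ (Tilt.rep U))))

theorem HR_tmU (z z' : V) : HR Q F ψ z ω - HR Q F ψ z' ω = ∑ U ∈ ust Q F ω, tmU Q F ψ ω z z' U :=
  HR_diff z z'

/-- the term of a strand through `e` -/
theorem tmU_usE (hP : Tilt.HasPotQ Q F) (he : e ∈ dE Q F) (hz : Tilt.ConnE Q F z z') :
    tmU Q F ψ ω z z' (usE Q F ω e) = ((Tilt.lft Q F (dst Q F ω e) z -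
      Tilt.lft Q F (dst Q F ω e) z' : ℤ) : ℝ) * WU1 Q F ψ e ω := by
  have hX : dst Q F ω e ∈ usE Q F ω e := by unfold usE; simp
  unfold tmU WU1
  rw [lft_sin hP (usE_mem he) hX (Tilt.lft_spec hP (dst_mem_dstr he)) hz]
  ring

/-- **The height of a disc.** -/
theorem disc_HR (hQ : NoLoop Q) (hP : Tilt.HasPotQ Q F) (h : Disc Q (F : Set Φ) G w)
    (hw : ∀ e ∈ w.map Prod.fst, Ini Q (F : Set Φ) e) (hne : w ≠ []) (hp : WPath p w p)
    (hz : Tilt.ConnE Q F z p) :
    HR Q F ψ z ω - HR Q F ψ p ω = Real.sqrt 3 * nLp Q F ω z p * WU Q F ψ ω +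
      ∑ i ∈ ovZ Q F w ω z, pS Q F w ψ ω i := by
  classical
  have hcl := fun X hX hX' => h.closed (ω := ω) hw (X := X) hX hX'
  rw [HR_tmU, ust_split, Finset.sum_union lps_arcs_disj, Finset.sum_image uarc_inj]
  congr 1
  · -- loops
    have h1 : ∀ U ∈ lps Q F ω, tmU Q F ψ ω z p U =
        if Tilt.lft Q F (Tilt.rep U) z ≠ Tilt.lft Q F (Tilt.rep U) p then
          Real.sqrt 3 * WU Q F ψ ω else 0 := by
      intro U hU
      have hU' : U ∈ ust Q F ω := by rw [ust_split]; exact Finset.mem_union_left _ hU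
      have hX := Tilt.rep_mem hU'
      obtain ⟨hX1, hX2⟩ := Tilt.ust_eq hU' hX
      have hX3 : ∀ a ∈ Tilt.rep U, ¬ Ini Q (F : Set Φ) a := by
        unfold lps at hU
        obtain ⟨Y, hY, hYU⟩ := Finset.mem_image.mp hU
        obtain ⟨hY1, hY2⟩ := Finset.mem_filter.mp hY
        rw [← hYU] at hX
        rw [Finset.mem_insert, Finset.mem_singleton] at hX
        rw [← hYU]
        rcases hX with hX | hX <;> rw [hX]
        · exact hY2
        · exact closed_rv hY1 hY2
      have h2 : WU Q F ψ ω = ∏ U' ∈ (ust Q F ω).erase U, uc Q F ω ψ U' := by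
        unfold WU
        rw [← Finset.mul_prod_erase _ _ hU', uc_lps hQ hcl hU, one_mul]
      unfold tmU
      rw [lft_closed_term hQ h hw hne hp hX1 hX3 (Tilt.lft_spec hP hX1) z, ← h2]
      split_ifs
      · ring
      · rw [mul_zero]
    rw [Finset.sum_congr rfl h1, ← Finset.sum_filter, Finset.sum_const, nsmul_eq_mul]
    unfold nLp
    ring
  · -- arcs
    have h1 : ∀ (i : ℕ) (hi : i < w.length), i < cM Q F w ω i →
        tmU Q F ψ ω z p (uarc Q F ω s(w[i].1, mate Q F ω (w[i].1))) =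
          if lI Q F w ω i z = 0 then pS Q F w ψ ω i else 0 := by
      intro i hi hlt
      have ha := side_mem h hw hi
      have hX := dst_mem_dstr (ω := ω) (mem_bS.mp ha).1
      have hL := Tilt.lft_spec hP hX
      rw [uarc_usE ha, tmU_usE hP (mem_bS.mp ha).1 hz, h.WU1_open hQ hw hi hlt,
        (lft_arc_bd hQ h hw hp hi hlt hL).1, lI_lt hi]
      rcases hL.val z with h2 | h2
      · rw [h2, if_pos rfl]
        push_cast
        ring
      · rw [h2, if_neg one_ne_zero]
        push_cast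
        ring
    rw [sum_arcs_pos h hw _ _ h1, ← Finset.sum_filter]
    congr 1
    unfold ovZ
    rw [Finset.filter_filter]

/-- **The mean height of a disc.** -/
theorem disc_uH (hQ : NoLoop Q) (hP : Tilt.HasPotQ Q F) (h : Disc Q (F : Set Φ) G w)
    (hw : ∀ e ∈ w.map Prod.fst, Ini Q (F : Set Φ) e) (hne : w ≠ []) (hp : WPath p w p)
    (hz : Tilt.ConnE Q F z p) :
    uH Q F ψ z p = av F (fun ω => Real.sqrt 3 * nLp Q F ω z p * WU Q F ψ ω +
      ∑ i ∈ ovZ Q F w ω z, pS Q F w ψ ω i) / av F (WU Q F ψ) := by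
  unfold uH HD
  congr 1
  exact av_congr fun _ _ => disc_HR hQ hP h hw hne hp hz

theorem wpath_next (hp : WPath p w z) (k : ℕ) (hk : k + 1 < w.length) :
    (w[k]'(Nat.lt_of_succ_lt hk)).1.2 = (w[k + 1]'hk).1.1 := by
  have h4 := wpath_take hp (k + 1) hk
  rw [List.take_add_one, List.getElem?_eq_getElem (Nat.lt_of_succ_lt hk)] at h4
  obtain ⟨r, -, h5, h6⟩ := wpath_append.mp h4
  exact h6

/-- the boundary vertices: `uH` is the boundary height `hB` -/
theorem uH_bd (hQ : NoLoop Q) (hP : Tilt.HasPotQ Q F) (h : Disc Q (F : Set Φ) G w) (hp : WPath p w p)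
    (k : ℕ) (hk : k < w.length) : uH Q F ψ (w[k].1.1) p = hB Q F w ψ k := by
  induction k with
  | zero =>
    have h1 := wpath_take hp 0 hk
    have h2 : p = w[0].1.1 := h1
    rw [← h2, uH_self, hB_zero]
  | succ k ih =>
    have hk' : k < w.length := by omega
    have hd : w[k].1 ∈ dE Q F := by
      obtain ⟨f, hf, l, hl⟩ := h.inv.sideW (w[k].1) (List.mem_map_of_mem (List.getElem_mem hk'))
      rw [hl]
      exact sd_mem (by exact_mod_cast hf) l
    rw [← wpath_next hp k hk, hB_succ, ← ih hk']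
    have h1 := uH_edge (ψ := ψ) hQ hP hd
    have h2 := uH_add (Q := Q) (F := F) (ψ := ψ) (w[k].1.1) (w[k].1.2) p
    unfold uS
    rw [dif_pos hk']
    linarith

/-! ## Normalised form -/

/-- weight of an arc with jump `x` -/
def tJ (x : ℝ) : ℝ := Real.cos (x - Real.pi / 6) / Real.cos (Real.pi / 6)

/-- height of an arc with jump `x` -/
def dJ (x : ℝ) : ℝ := Real.sin (Real.pi / 6 - x) / Real.cos (Real.pi / 6)

theorem two_cos_tJ (x : ℝ) : 2 * Real.cos (x - Real.pi / 6) = Real.sqrt 3 * tJ x := by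
  unfold tJ
  have h3 := cos_pi_div_six_ne
  rw [Real.cos_pi_div_six]
  field_simp

theorem two_sin_dJ (x : ℝ) : 2 * Real.sin (Real.pi / 6 - x) = Real.sqrt 3 * dJ x := by
  unfold dJ
  rw [Real.cos_pi_div_six]
  field_simp

theorem disc_WU_norm (hQ : NoLoop Q) (h : Disc Q (F : Set Φ) G w)
    (hw : ∀ e ∈ w.map Prod.fst, Ini Q (F : Set Φ) e) :
    WU Q F ψ ω = Real.sqrt 3 ^ (w.length / 2) *
      ∏ i ∈ (Finset.range w.length).filter (fun i => i < cM Q F w ω i),
        tJ (th w ψ (cM Q F w ω i) - th w ψ i) := h.WU_eq hQ hw ψ ω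

theorem disc_pS_norm (h : Disc Q (F : Set Φ) G w)
    (hw : ∀ e ∈ w.map Prod.fst, Ini Q (F : Set Φ) e) {i : ℕ} (hi : i < w.length)
    (hlt : i < cM Q F w ω i) :
    pS Q F w ψ ω i = Real.sqrt 3 ^ (w.length / 2) *
      ((∏ l ∈ ((Finset.range w.length).filter (fun l => l < cM Q F w ω l)).erase i,
        tJ (th w ψ (cM Q F w ω l) - th w ψ l)) * dJ (th w ψ (cM Q F w ω i) - th w ψ i)) := by
  have hmem : i ∈ (Finset.range w.length).filter (fun l => l < cM Q F w ω l) :=
    Finset.mem_filter.mpr ⟨Finset.mem_range.mpr hi, hlt⟩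
  have h1 := h.two_card hw ω
  have h2 := Finset.card_erase_add_one hmem
  unfold pS
  rw [two_sin_dJ, Finset.prod_congr rfl fun l _ => two_cos_tJ _, Finset.prod_mul_distrib,
    Finset.prod_const, show w.length / 2 =
      (((Finset.range w.length).filter (fun l => l < cM Q F w ω l)).erase i).card + 1 by omega, pow_succ]
  ring

/-- **The height of a disc, normalised.** -/
theorem disc_HR_norm (hQ : NoLoop Q) (hP : Tilt.HasPotQ Q F) (h : Disc Q (F : Set Φ) G w)
    (hw : ∀ e ∈ w.map Prod.fst, Ini Q (F : Set Φ) e) (hne : w ≠ []) (hp : WPath p w p)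
    (hz : Tilt.ConnE Q F z p) :
    HR Q F ψ z ω - HR Q F ψ p ω = Real.sqrt 3 ^ (w.length / 2) *
      (Real.sqrt 3 * nLp Q F ω z p *
        ∏ i ∈ (Finset.range w.length).filter (fun i => i < cM Q F w ω i),
          tJ (th w ψ (cM Q F w ω i) - th w ψ i) +
      ∑ i ∈ ovZ Q F w ω z,
        (∏ l ∈ ((Finset.range w.length).filter (fun l => l < cM Q F w ω l)).erase i,
          tJ (th w ψ (cM Q F w ω l) - th w ψ l)) * dJ (th w ψ (cM Q F w ω i) - th w ψ i)) := by
  rw [disc_HR hQ hP h hw hne hp hz, disc_WU_norm hQ h hw, mul_add, Finset.mul_sum]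
  congr 1
  · ring
  · refine Finset.sum_congr rfl fun i hi => ?_
    unfold ovZ at hi
    obtain ⟨h1, h2, -⟩ := Finset.mem_filter.mp hi
    exact disc_pS_norm h hw (Finset.mem_range.mp h1) h2

/-- the mean height of a disc, normalised -/
theorem disc_uH_norm (hQ : NoLoop Q) (hP : Tilt.HasPotQ Q F) (h : Disc Q (F : Set Φ) G w)
    (hw : ∀ e ∈ w.map Prod.fst, Ini Q (F : Set Φ) e) (hne : w ≠ []) (hp : WPath p w p)
    (hz : Tilt.ConnE Q F z p) :
    uH Q F ψ z p = av F (fun ω => Real.sqrt 3 * nLp Q F ω z p *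
        ∏ i ∈ (Finset.range w.length).filter (fun i => i < cM Q F w ω i),
          tJ (th w ψ (cM Q F w ω i) - th w ψ i) +
      ∑ i ∈ ovZ Q F w ω z,
        (∏ l ∈ ((Finset.range w.length).filter (fun l => l < cM Q F w ω l)).erase i,
          tJ (th w ψ (cM Q F w ω l) - th w ψ l)) * dJ (th w ψ (cM Q F w ω i) - th w ψ i)) /
      av F (fun ω => ∏ i ∈ (Finset.range w.length).filter (fun i => i < cM Q F w ω i),
          tJ (th w ψ (cM Q F w ω i) - th w ψ i)) := by
  unfold uH HD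
  have e1 := av_congr (S := F) (g := fun ω => HR Q F ψ z ω - HR Q F ψ p ω)
    (g' := fun ω => Real.sqrt 3 ^ (w.length / 2) * (Real.sqrt 3 * nLp Q F ω z p *
        ∏ i ∈ (Finset.range w.length).filter (fun i => i < cM Q F w ω i),
          tJ (th w ψ (cM Q F w ω i) - th w ψ i) +
      ∑ i ∈ ovZ Q F w ω z,
        (∏ l ∈ ((Finset.range w.length).filter (fun l => l < cM Q F w ω l)).erase i,
          tJ (th w ψ (cM Q F w ω l) - th w ψ l)) * dJ (th w ψ (cM Q F w ω i) - th w ψ i)))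
    (fun T _ => disc_HR_norm hQ hP h hw hne hp hz)
  have e2 := av_congr (S := F) (g := WU Q F ψ) (g' := fun ω => Real.sqrt 3 ^ (w.length / 2) *
      ∏ i ∈ (Finset.range w.length).filter (fun i => i < cM Q F w ω i),
        tJ (th w ψ (cM Q F w ω i) - th w ψ i)) (fun T _ => disc_WU_norm (ψ := ψ) hQ h hw)
  rw [e1, e2, av_mul, av_mul, mul_div_mul_left]
  positivity

end

end Pool.Agent.SixB.Ht
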