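import Pool.Agent.Lib.SixB.S0Shell
import Pool.Agent.Lib.SixB.TopCA

/-!
# The disc of a contour

`Cont S L g`: counterclockwise contour of the finite set `S` of faces. If `S` is edge connected and
has no holes, then `S` is a disc and its boundary word can be taken as `cword g ν L k`: the directed unit
edges `(g (k + i), g (k + i + 1))`, `i < L`, with the lifted directions `ν (k + i)`, where
`g (i + 1) = g i + dv (ν i)`, `ν (i + L) = ν i + 4` and `|ν (i + 1) - ν i| ≤ 1`; every start `k`.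
-/

set_option autoImplicit false

namespace Pool.Agent.SixB

open Pool.Agent.Perc Pool.Agent.Perc.Q Relation

/-- The boundary word of a contour. -/
def cword (g : ℤ → ℤ × ℤ) (ν : ℤ → ℤ) (L : ℕ) (k : ℤ) : List (((ℤ × ℤ) × (ℤ × ℤ)) × ℤ) :=
  (List.range L).map fun i : ℕ => ((g (k + i), g (k + i + 1)), ν (k + i))

section General

variable {V Φ : Type} {Q : QC V Φ} {F : Set Φ} {G : Set (V × V)} {x y : (V × V) × ℤ}

theorem Ar.start (h : Ar Q F G x y) : y.1.1 = x.1.1 := by
  induction h with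
  | refl _ => rfl
  | @step e a f k y he hf hs _ ih =>
    rw [ih]
    have h1 : e.1 = (e.swap).2 := rfl
    have h2 : (sd Q f (k + 1)).1 = (sd Q f k).2 := rfl
    simp only [h2, h1, hs]

theorem Nx0.start (h : Nx0 Q F G x y) : y.1.1 = x.1.2 := by
  obtain ⟨f, -, k, h1, h2⟩ := h
  rw [h2.start, h1]
  rfl

end General

variable {S : Set (ℤ × ℤ)} {G : Set ((ℤ × ℤ) × (ℤ × ℤ))} {f f₁ f₂ f₃ : ℤ × ℤ}
  {k l k₁ k₂ k₃ : ZMod 4} {w : List (((ℤ × ℤ) × (ℤ × ℤ)) × ℤ)}

theorem zq_flat (h : (sd ZQ f k).swap = sd ZQ f₁ l) : l = k + 2 := by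
  obtain ⟨x, y⟩ := f
  obtain ⟨x', y'⟩ := f₁
  rcases k4_cases k with rfl | rfl | rfl | rfl <;> rcases k4_cases l with rfl | rfl | rfl | rfl <;>
    simp only [sd_ZQ0, sd_ZQ1, sd_ZQ2, sd_ZQ3, Prod.swap, Prod.mk.injEq] at h <;>
    first | decide | (exfalso; omega)

/-- Around a vertex of the plane. -/
theorem zq_around (h1 : (sd ZQ f (k + 1)).swap = sd ZQ f₁ k₁)
    (h2 : (sd ZQ f₁ (k₁ + 1)).swap = sd ZQ f₂ k₂) (h3 : (sd ZQ f₂ (k₂ + 1)).swap = sd ZQ f₃ k₃) :
    sd ZQ f₃ (k₃ + 1) = (sd ZQ f k).swap := by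
  obtain rfl := zq_flat h1
  obtain rfl := zq_flat h2
  obtain rfl := zq_flat h3
  obtain ⟨x, y⟩ := f
  obtain ⟨x1, y1⟩ := f₁
  obtain ⟨x2, y2⟩ := f₂
  obtain ⟨x3, y3⟩ := f₃
  have e0 : (0 : ZMod 4) + 1 = 1 := rfl
  have e1 : (1 : ZMod 4) + 1 = 2 := rfl
  have e2 : (2 : ZMod 4) + 1 = 3 := rfl
  have e3 : (3 : ZMod 4) + 1 = 0 := rfl
  have d0 : (0 : ZMod 4) + 2 = 2 := rfl
  have d1 : (1 : ZMod 4) + 2 = 3 := rfl
  have d2 : (2 : ZMod 4) + 2 = 0 := rfl
  have d3 : (3 : ZMod 4) + 2 = 1 := rfl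
  rcases k4_cases k with rfl | rfl | rfl | rfl <;>
    simp only [e0, e1, e2, e3, d0, d1, d2, d3, sd_ZQ0, sd_ZQ1, sd_ZQ2, sd_ZQ3, Prod.swap,
      Prod.mk.injEq] at h1 h2 h3 ⊢ <;> omega

/-- The direction changes by at most one quarter turn along the boundary. -/
theorem nx0_step {x y : ((ℤ × ℤ) × (ℤ × ℤ)) × ℤ} (h : Nx0 ZQ S G x y) (hx : x.1.swap ∉ Sides ZQ S) :
    y.2 = x.2 + 1 ∨ y.2 = x.2 ∨ y.2 = x.2 - 1 := by
  obtain ⟨f, hf, k, h1, h2⟩ := h
  cases h2 with
  | refl _ => exact Or.inl rfl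
  | @step _ _ f1 k1 _ he1 hf1 hs1 h3 =>
    cases h3 with
    | refl _ => right; left; simp
    | @step _ _ f2 k2 _ he2 hf2 hs2 h4 =>
      cases h4 with
      | refl _ => right; right; simp
      | @step _ _ f3 k3 _ he3 hf3 hs3 h5 =>
        exfalso
        apply hx
        rw [h1, ← zq_around hs1 hs2 hs3]
        exact ⟨f3, hf3, _, rfl⟩

theorem dv_eq_iff {a b : ℤ} : dv a = dv b ↔ a % 4 = b % 4 := by
  constructor
  · intro h
    unfold dv at h
    split_ifs at h <;> simp at h <;> omega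
  · intro h
    unfold dv
    rw [h]

theorem dv_congr {a b : ℤ} (h : a % 4 = b % 4) : dv a = dv b := dv_eq_iff.2 h

theorem sd_dv (f : ℤ × ℤ) (k : ZMod 4) : (sd ZQ f k).2 = (sd ZQ f k).1 + dv (k.val : ℤ) := by
  obtain ⟨x, y⟩ := f
  rcases k4_cases k with rfl | rfl | rfl | rfl
  · rw [sd_ZQ0]; show (x + 1, y) = (x, y) + dv 0; rw [dv0]; simp
  · rw [sd_ZQ1]; show (x + 1, y + 1) = (x + 1, y) + dv 1; rw [dv1]; simp
  · rw [sd_ZQ2]; show (x, y + 1) = (x + 1, y + 1) + dv 2; rw [dv2]; simp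
  · rw [sd_ZQ3]; show (x, y) = (x, y + 1) + dv 3; rw [dv3]; simp

theorem sd_dv_add (f : ℤ × ℤ) (k : ZMod 4) (j : ℕ) :
    (sd ZQ f (k + (j : ZMod 4))).2 = (sd ZQ f (k + (j : ZMod 4))).1 + dv ((k.val : ℤ) + j) := by
  rw [sd_dv]
  congr 1
  apply dv_congr
  have h1 : (((k + (j : ZMod 4)).val : ℤ) : ZMod 4) = (((k.val : ℤ) + j : ℤ) : ZMod 4) := by
    push_cast
    rw [ZMod.natCast_val, ZMod.natCast_val, ZMod.cast_id, ZMod.cast_id]
  rw [ZMod.intCast_eq_intCast_iff] at h1
  exact h1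

/-- The lifted directions of the word of a disc of the plane are the directions, up to a constant. -/
theorem Disc.dir {Q : QC (ℤ × ℤ) (ℤ × ℤ)} (h : Disc Q S G w) (hQ : Q = ZQ) :
    ∃ c : ℤ, ∀ x ∈ w, x.1.2 = x.1.1 + dv (x.2 + c) := by
  induction h with
  | face f k a =>
    subst hQ
    refine ⟨(k.val : ℤ) - a, ?_⟩
    intro x hx
    have h0 := sd_dv_add f k 0
    have h1 := sd_dv_add f k 1
    have h2 := sd_dv_add f k 2
    have h3 := sd_dv_add f k 3
    simp only [Nat.cast_zero, add_zero] at h0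
    have c1 : ((1 : ℕ) : ZMod 4) = 1 := rfl
    have c2 : ((2 : ℕ) : ZMod 4) = 2 := rfl
    have c3 : ((3 : ℕ) : ZMod 4) = 3 := rfl
    rw [c1] at h1
    rw [c2] at h2
    rw [c3] at h3
    simp only [List.mem_cons, List.not_mem_nil, or_false] at hx
    rcases hx with rfl | rfl | rfl | rfl
    · rw [h0]; congr 2; simp
    · rw [h1]; congr 2; push_cast; ring
    · rw [h2]; congr 2; push_cast; ring
    · rw [h3]; congr 2; push_cast; ring
  | @join F F' G G' u v e a _ _ _ ih ih' =>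
    obtain ⟨c, hc⟩ := ih
    obtain ⟨c', hc'⟩ := ih'
    refine ⟨c, ?_⟩
    have h1 := hc (e, a) (by simp)
    have h2 := hc' (e.swap, a - 2) (by simp)
    simp only [Prod.fst_swap, Prod.snd_swap] at h1 h2
    have h3 : dv (a + c) = dv (a + c') := by
      have h4 : dv (a - 2 + c') = -dv (a + c') := by
        rw [← dv_sub_two]
        congr 1
        ring
      rw [h4] at h2
      have h5 : e.1 + dv (a + c) = e.1 + dv (a + c') := by
        rw [← h1]
        have h6 : e.1 + dv (a + c') = e.2 := by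
          nth_rewrite 1 [h2]
          rw [neg_add_cancel_right]
        rw [h6]
      exact add_left_cancel h5
    rw [dv_eq_iff] at h3
    intro x hx
    rcases List.mem_append.1 hx with hx | hx
    · exact hc x (by simp [hx])
    · rw [hc' x (by simp [hx])]
      congr 1
      apply dv_congr
      omega
  | @zip F G u v e a _ ih =>
    obtain ⟨c, hc⟩ := ih
    refine ⟨c, fun x hx => hc x ?_⟩
    rcases List.mem_append.1 hx with hx | hx
    · simp [hx]
    · simp [hx]
  | @rot F G u e a _ ih =>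
    obtain ⟨c, hc⟩ := ih
    refine ⟨c, fun x hx => ?_⟩
    rcases List.mem_append.1 hx with hx | hx
    · exact hc x (by simp [hx])
    · simp only [List.mem_cons, List.not_mem_nil, or_false] at hx
      subst hx
      have := hc (e, a) (by simp)
      simp only at this ⊢
      rw [this]
      congr 1
      apply dv_congr
      omega
  | @shift F G u d _ ih =>
    obtain ⟨c, hc⟩ := ih
    refine ⟨c - d, fun x hx => ?_⟩
    obtain ⟨z, hz, rfl⟩ := List.mem_map.1 hx
    simp only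
    rw [hc z hz]
    congr 2
    ring

theorem cword_length (g : ℤ → ℤ × ℤ) (ν : ℤ → ℤ) (L : ℕ) (k : ℤ) : (cword g ν L k).length = L := by
  unfold cword
  rw [List.length_map, List.length_range]

theorem cword_getElem? (g : ℤ → ℤ × ℤ) (ν : ℤ → ℤ) {L : ℕ} (k : ℤ) {i : ℕ} (hi : i < L) :
    (cword g ν L k)[i]? = some ((g (k + i), g (k + i + 1)), ν (k + i)) := by
  unfold cword
  rw [List.getElem?_map, List.getElem?_range hi]
  rfl

theorem cword_rot {g : ℤ → ℤ × ℤ} {ν : ℤ → ℤ} {L : ℕ} (hg : ∀ k : ℤ, g (k + L) = g k)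
    (hν : ∀ k : ℤ, ν (k + L) = ν k + 4) {k : ℤ} (hL : 0 < L)
    (h : Disc ZQ S G (cword g ν L k)) : Disc ZQ S G (cword g ν L (k + 1)) := by
  obtain ⟨n, rfl⟩ : ∃ n, L = n + 1 := ⟨L - 1, by omega⟩
  have h1 : cword g ν (n + 1) k = ((g k, g (k + 1)), ν k) ::
      (List.range n).map fun i : ℕ => ((g (k + 1 + i), g (k + 1 + i + 1)), ν (k + 1 + i)) := by
    unfold cword
    rw [List.range_succ_eq_map, List.map_cons, List.map_map]
    simp only [Nat.cast_zero, add_zero]
    congr 1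
    apply List.map_congr_left
    intro i _
    simp only [Function.comp]
    push_cast
    have e1 : k + ((i : ℤ) + 1) = k + 1 + i := by ring
    rw [e1]
  rw [h1] at h
  have h2 := Disc.rot h
  have h3 : cword g ν (n + 1) (k + 1) = ((List.range n).map fun i : ℕ =>
      ((g (k + 1 + i), g (k + 1 + i + 1)), ν (k + 1 + i))) ++ [((g k, g (k + 1)), ν k + 4)] := by
    unfold cword
    rw [List.range_succ, List.map_append]
    congr 1
    simp only [List.map_cons, List.map_nil]
    have e1 : k + 1 + (n : ℤ) = k + ((n + 1 : ℕ) : ℤ) := by push_cast; ring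
    have e2 : k + ((n + 1 : ℕ) : ℤ) + 1 = k + 1 + ((n + 1 : ℕ) : ℤ) := by ring
    rw [e1, e2, hg, hg, hν]
  rw [h3]
  exact h2

theorem cword_rots {g : ℤ → ℤ × ℤ} {ν : ℤ → ℤ} {L : ℕ} (hg : ∀ k : ℤ, g (k + L) = g k)
    (hν : ∀ k : ℤ, ν (k + L) = ν k + 4) {k : ℤ} (hL : 0 < L)
    (h : Disc ZQ S G (cword g ν L k)) (k' : ℤ) : Disc ZQ S G (cword g ν L k') := by
  have h1 : ∀ n : ℕ, Disc ZQ S G (cword g ν L (k + n)) := by
    intro n
    induction n with
    | zero => simpa using h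
    | succ n ih =>
      have := cword_rot hg hν hL ih
      rwa [show k + (n : ℤ) + 1 = k + ((n + 1 : ℕ) : ℤ) by push_cast; ring] at this
  have hper : ∀ n : ℕ, ∀ k : ℤ, g (k + n * L) = g k ∧ ν (k + n * L) = ν k + 4 * n := by
    intro n
    induction n with
    | zero => intro k; simp
    | succ n ih =>
      intro k
      have e1 : k + ((n + 1 : ℕ) : ℤ) * L = (k + n * L) + L := by push_cast; ring
      rw [e1, hg, hν, (ih k).1, (ih k).2]
      refine ⟨rfl, ?_⟩
      push_cast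
      ring
  have h2 : ∀ n : ℕ, ∀ k : ℤ, cword g ν L (k + n * L) = SixB.lft (4 * n) (cword g ν L k) := by
    intro n k
    unfold cword SixB.lft
    rw [List.map_map]
    apply List.map_congr_left
    intro i _
    simp only [Function.comp]
    have e1 : k + (n : ℤ) * L + i = (k + i) + n * L := by ring
    have e2 : k + (i : ℤ) + (n : ℤ) * L + 1 = (k + i + 1) + n * L := by ring
    rw [e1, e2, (hper n _).1, (hper n _).1, (hper n _).2]
  -- `k' + N * L ≥ k`
  have hL' : (1 : ℤ) ≤ L := by exact_mod_cast hL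
  obtain ⟨N, m, hm⟩ : ∃ N m : ℕ, k' + N * L = k + m := by
    have h3 : k - k' ≤ ((k - k').toNat : ℤ) := Int.self_le_toNat _
    have h4 : (0 : ℤ) ≤ (k - k').toNat := Int.natCast_nonneg _
    have h5 : ((k - k').toNat : ℤ) ≤ (k - k').toNat * L := by nlinarith
    refine ⟨(k - k').toNat, (((k - k').toNat : ℤ) * L + (k' - k)).toNat, ?_⟩
    rw [Int.toNat_of_nonneg (by omega : 0 ≤ ((k - k').toNat : ℤ) * L + (k' - k))]
    ring
  have h3 := h1 m
  rw [← hm, h2] at h3
  have h4 := h3.lft (-(4 * N))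
  rw [lft_lft] at h4
  have e1 : (4 * (N : ℤ)) + -(4 * N) = 0 := by ring
  rw [e1, lft_zero] at h4
  exact h4

/-- The left sides of the contour are the boundary sides. -/
theorem lside_sides {P : Finset (ℤ × ℤ)} {p q : ℤ × ℤ} :
    LSide P p q ↔ (p, q) ∈ Sides ZQ (P : Set (ℤ × ℤ)) ∧ (p, q).swap ∉ Sides ZQ (P : Set (ℤ × ℤ)) := by
  obtain ⟨x, y⟩ := p
  constructor
  · have hsw : ∀ a : ℤ, ((x, y), (x, y) + dv a).swap ∉ Sides ZQ (P : Set (ℤ × ℤ)) ↔
        lface ((x, y) + dv a) (a - 2) ∉ P := by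
      intro a
      rw [swap_mem_sides_ZQ, Finset.mem_coe]
    rintro (⟨rfl, h1, h2⟩ | ⟨rfl, h1, h2⟩ | ⟨rfl, h1, h2⟩ | ⟨rfl, h1, h2⟩)
    · have e1 : ((x + 1, y) : ℤ × ℤ) = (x, y) + dv 0 := by rw [dv0]; simp
      simp only at h1 h2 ⊢
      rw [e1, mem_sides_ZQ, hsw 0]
      refine ⟨h1, ?_⟩
      rw [dv0]
      simpa [lface] using h2
    · have e1 : ((x, y + 1) : ℤ × ℤ) = (x, y) + dv 1 := by rw [dv1]; simp
      simp only at h1 h2 ⊢
      rw [e1, mem_sides_ZQ, hsw 1]
      refine ⟨h1, ?_⟩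
      rw [dv1]
      simpa [lface] using h2
    · have e1 : ((x - 1, y) : ℤ × ℤ) = (x, y) + dv 2 := by rw [dv2]; simp; omega
      simp only at h1 h2 ⊢
      rw [e1, mem_sides_ZQ, hsw 2]
      refine ⟨h1, ?_⟩
      rw [dv2]
      simpa [lface, ← sub_eq_add_neg] using h2
    · have e1 : ((x, y - 1) : ℤ × ℤ) = (x, y) + dv 3 := by rw [dv3]; simp; omega
      simp only at h1 h2 ⊢
      rw [e1, mem_sides_ZQ, hsw 3]
      refine ⟨h1, ?_⟩
      rw [dv3]
      simpa [lface, ← sub_eq_add_neg] using h2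
  · rintro ⟨⟨⟨u, v⟩, hf, k, hk⟩, h2⟩
    have hsw : ∀ a : ℤ, ((x, y), (x, y) + dv a).swap ∉ Sides ZQ (P : Set (ℤ × ℤ)) →
        lface ((x, y) + dv a) (a - 2) ∉ P := by
      intro a
      rw [swap_mem_sides_ZQ, Finset.mem_coe]
      exact id
    rcases k4_cases k with rfl | rfl | rfl | rfl
    · rw [sd_ZQ0, Prod.mk.injEq, Prod.mk.injEq] at hk
      obtain ⟨⟨rfl, rfl⟩, rfl⟩ := hk
      have e1 : ((x + 1, y) : ℤ × ℤ) = (x, y) + dv 0 := by rw [dv0]; simp
      rw [e1] at h2
      have h3 := hsw 0 h2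
      rw [dv0] at h3
      exact Or.inl ⟨rfl, hf, by simpa [lface] using h3⟩
    · rw [sd_ZQ1, Prod.mk.injEq, Prod.mk.injEq] at hk
      obtain ⟨⟨rfl, rfl⟩, rfl⟩ := hk
      have e1 : ((u + 1, y + 1) : ℤ × ℤ) = (u + 1, y) + dv 1 := by rw [dv1]; simp
      rw [e1] at h2
      have h3 := hsw 1 h2
      rw [dv1] at h3
      exact Or.inr (Or.inl ⟨rfl, by simpa using hf, by simpa [lface] using h3⟩)
    · rw [sd_ZQ2, Prod.mk.injEq, Prod.mk.injEq] at hk
      obtain ⟨⟨rfl, rfl⟩, rfl⟩ := hk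
      have e1 : ((u, v + 1) : ℤ × ℤ) = (u + 1, v + 1) + dv 2 := by rw [dv2]; simp
      rw [e1] at h2
      have h3 := hsw 2 h2
      rw [dv2] at h3
      exact Or.inr (Or.inr (Or.inl ⟨by simp, by simpa using hf, by simpa [lface] using h3⟩))
    · rw [sd_ZQ3, Prod.mk.injEq, Prod.mk.injEq] at hk
      obtain ⟨⟨rfl, rfl⟩, rfl⟩ := hk
      have e1 : ((x, v) : ℤ × ℤ) = (x, v + 1) + dv 3 := by rw [dv3]; simp
      rw [e1] at h2
      have h3 := hsw 3 h2
      rw [dv3] at h3
      exact Or.inr (Or.inr (Or.inr ⟨by simp, by simpa using hf, by simpa [lface] using h3⟩))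

/-- THE DISC OF A CONTOUR. -/
theorem Cont.disc {P : Finset (ℤ × ℤ)} {L : ℕ} {g : ℤ → ℤ × ℤ} (hc : Cont P L g)
    (hD : ∃ w, Disc ZQ (P : Set (ℤ × ℤ)) (Glued ZQ P) w) :
    ∃ ν : ℤ → ℤ, (∀ i, g (i + 1) = g i + dv (ν i)) ∧ (∀ i, ν (i + L) = ν i + 4) ∧
      (∀ i, ν (i + 1) = ν i + 1 ∨ ν (i + 1) = ν i ∨ ν (i + 1) = ν i - 1) ∧
      ∀ k : ℤ, Disc ZQ (P : Set (ℤ × ℤ)) (Glued ZQ P) (cword g ν L k) := by
  obtain ⟨w, hw⟩ := hD
  have hgper : ∀ (n : ℤ) (k : ℤ), g (k + n * L) = g k := by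
    have hnat : ∀ (n : ℕ) (k : ℤ), g (k + n * L) = g k := by
      intro n
      induction n with
      | zero => intro k; simp
      | succ n ih =>
        intro k
        have e1 : k + ((n + 1 : ℕ) : ℤ) * L = (k + n * L) + L := by push_cast; ring
        rw [e1, hc.per, ih]
    intro n k
    rcases le_total 0 n with hn | hn
    · have := hnat n.toNat k
      rwa [Int.toNat_of_nonneg hn] at this
    · have := hnat (-n).toNat (k + n * L)
      rw [Int.toNat_of_nonneg (by omega)] at this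
      rw [← this]
      congr 1
      ring
  -- a boundary side is determined by its first vertex
  have hdet : ∀ (m : ℤ) (e : (ℤ × ℤ) × (ℤ × ℤ)), e ∈ Sides ZQ (P : Set (ℤ × ℤ)) →
      e.swap ∉ Sides ZQ (P : Set (ℤ × ℤ)) → e.1 = g m → e = (g m, g (m + 1)) := by
    intro m e h1 h2 h3
    obtain ⟨j, hj1, hj2⟩ := hc.all e.1 e.2 (lside_sides.2 ⟨h1, h2⟩)
    obtain ⟨n, hn⟩ := hc.inj j m (by rw [hj1, h3])
    have h4 : g (m + 1) = g (j + 1) := by
      have e1 : j + 1 = (m + 1) + n * L := by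
        rw [mul_comm] at hn
        omega
      rw [e1, hgper]
    rw [h4, hj2, ← h3]
  have hne : w ≠ [] := by
    rintro rfl
    have h1 := (lside_sides.1 (hc.side 0))
    have := hw.mem_of_bd h1.1 h1.2
    simp at this
  obtain ⟨x0, w0, rfl⟩ := List.exists_cons_of_ne_nil hne
  obtain ⟨hb1, hb2⟩ := hw.bd (x := x0) (by simp)
  obtain ⟨k0, hk0, -⟩ := hc.all x0.1.1 x0.1.2 (lside_sides.2 ⟨hb1, hb2⟩)
  set w : List (((ℤ × ℤ) × (ℤ × ℤ)) × ℤ) := x0 :: w0 with hwdef
  have hcyc := hw.cyc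
  have hmem : ∀ i (hi : i < w.length), w[i] ∈ w := fun i hi => List.getElem_mem hi
  -- the entries of the word
  have hent : ∀ i (hi : i < w.length), (w[i]).1 = (g (k0 + i), g (k0 + i + 1)) := by
    intro i
    induction i with
    | zero =>
      intro hi
      obtain ⟨h1, h2⟩ := hw.bd (hmem 0 hi)
      have h3 : (w[0]).1.1 = g (k0 + (0 : ℕ)) := by
        have : w[0] = x0 := rfl
        rw [this, ← hk0]
        simp
      exact hdet _ _ h1 h2 h3
    | succ i ih =>
      intro hi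
      obtain ⟨h1, h2⟩ := hw.bd (hmem (i + 1) hi)
      have h4 : w = w.take i ++ w[i] :: w[i + 1] :: w.drop (i + 2) := by
        rw [← List.drop_eq_getElem_cons, ← List.drop_eq_getElem_cons, List.take_append_drop]
      have h5 := (hcyc.1 _ _ _ _ h4).start
      rw [ih (by omega)] at h5
      have h6 := hdet (k0 + i + 1) _ h1 h2 h5
      rw [h6]
      push_cast
      rw [show k0 + ((i : ℤ) + 1) = k0 + i + 1 by ring]
  -- the length of the word
  have hlen : w.length = L := by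
    have hpos : 0 < w.length := by rw [hwdef]; simp
    obtain ⟨y, hy⟩ : ∃ y, w = w.dropLast ++ [y] := by
      refine ⟨w.getLast hne, ?_⟩
      exact (List.dropLast_append_getLast hne).symm
    have hyl : w[w.length - 1] = y := by
      have h1 : w.getLast hne = y := by
        have := List.getLast_append_singleton (a := y) w.dropLast
        simp only [← hy] at this
        exact this
      rw [← h1, List.getLast_eq_getElem]
    have h1 := (hcyc.2 x0 w0 w.dropLast y rfl hy).start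
    simp only at h1
    rw [← hyl, hent _ (by omega)] at h1
    simp only at h1
    rw [← hk0] at h1
    obtain ⟨n, hn⟩ := hc.inj _ _ h1
    have hL := hc.pos
    have h2 : ((w.length - 1 : ℕ) : ℤ) = (w.length : ℤ) - 1 := by omega
    rw [h2] at hn
    have h3 : (w.length : ℤ) = L * (-n) := by linarith
    have h4 : w.length ≤ L := by
      by_contra hlt
      push Not at hlt
      have h5 := hent 0 hpos
      have h6 := hent L (by omega)
      have h7 : (w[0]).1 = (w[L]).1 := by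
        rw [h5, h6]
        have e1 : k0 + ((L : ℕ) : ℤ) + 1 = (k0 + 1) + L := by ring
        rw [e1, hc.per, hc.per]
        simp
      have h8 := hw.inv.nodup
      have h9 : (w.map Prod.fst)[0]'(by rw [List.length_map]; omega) =
          (w.map Prod.fst)[L]'(by rw [List.length_map]; omega) := by
        rw [List.getElem_map, List.getElem_map]
        exact h7
      have := (List.Nodup.getElem_inj_iff h8).1 h9
      omega
    have h5 : 0 < -n := by
      by_contra h6
      push Not at h6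
      have : (w.length : ℤ) ≤ 0 := by rw [h3]; nlinarith
      omega
    have h6 : (L : ℤ) ≤ w.length := by rw [h3]; nlinarith
    omega
  obtain ⟨c, hdir⟩ := hw.dir rfl
  -- the lifted direction
  have hL := hc.pos
  have hLz : (0 : ℤ) < L := by exact_mod_cast hL
  set ν : ℤ → ℤ := fun i =>
    (w[((i - k0) % L).toNat]?.map Prod.snd).getD 0 + c + 4 * ((i - k0) / L) with hν
  have hν0 : ∀ i : ℕ, ∀ hi : i < L, ν (k0 + i) = (w[i]'(by omega)).2 + c := by
    intro i hi
    rw [hν]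
    simp only
    have e1 : k0 + (i : ℤ) - k0 = i := by ring
    have e2 : (i : ℤ) % L = i := Int.emod_eq_of_lt (by omega) (by omega)
    have e3 : (i : ℤ) / L = 0 := Int.ediv_eq_zero_of_lt (by omega) (by omega)
    rw [e1, e2, e3, Int.toNat_natCast, List.getElem?_eq_getElem (by omega)]
    simp
  have hνper : ∀ i : ℤ, ν (i + L) = ν i + 4 := by
    intro i
    rw [hν]
    simp only
    have e1 : i + L - k0 = (i - k0) + L := by ring
    rw [e1, Int.add_emod_right, Int.add_ediv_of_dvd_right (dvd_refl _), Int.ediv_self (by omega)]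
    ring
  have hνpern : ∀ (n : ℤ) (k : ℤ), ν (k + n * L) = ν k + 4 * n := by
    have hnat : ∀ (n : ℕ) (k : ℤ), ν (k + n * L) = ν k + 4 * n := by
      intro n
      induction n with
      | zero => intro k; simp
      | succ n ih =>
        intro k
        have e1 : k + ((n + 1 : ℕ) : ℤ) * L = (k + n * L) + L := by push_cast; ring
        rw [e1, hνper, ih]
        push_cast
        ring
    intro n k
    rcases le_total 0 n with hn | hn
    · have := hnat n.toNat k
      rwa [Int.toNat_of_nonneg hn] at this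
    · have := hnat (-n).toNat (k + n * L)
      rw [Int.toNat_of_nonneg (by omega)] at this
      have e1 : k + n * (L : ℤ) + -n * L = k := by ring
      rw [e1] at this
      rw [this]
      ring
  -- every index is `k0 + i + n * L`
  have hred : ∀ i : ℤ, ∃ (j : ℕ) (n : ℤ), j < L ∧ i = (k0 + j) + n * L := by
    intro i
    refine ⟨((i - k0) % L).toNat, (i - k0) / L, ?_, ?_⟩
    · have := Int.emod_lt_of_pos (i - k0) hLz
      have := Int.emod_nonneg (i - k0) (by omega : (L : ℤ) ≠ 0)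
      omega
    · rw [Int.toNat_of_nonneg (Int.emod_nonneg _ (by omega))]
      have := Int.emod_add_mul_ediv (i - k0) L
      linarith
  have hwcw : Disc ZQ (P : Set (ℤ × ℤ)) (Glued ZQ P) (cword g ν L k0) := by
    refine (hw.lft c).cast rfl rfl ?_
    apply List.ext_getElem
    · rw [cword_length]
      unfold SixB.lft
      rw [List.length_map, hlen]
    · intro i hi1 hi2
      rw [cword_length] at hi2
      unfold SixB.lft cword
      rw [List.getElem_map, List.getElem_map, List.getElem_range, hν0 i hi2, hent i (by omega)]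
  refine ⟨ν, ?_, hνper, ?_, fun k => cword_rots hc.per hνper hL hwcw k⟩
  · intro i
    obtain ⟨j, n, hj, rfl⟩ := hred i
    have e1 : k0 + (j : ℤ) + n * L + 1 = (k0 + j + 1) + n * L := by ring
    rw [e1, hgper, hgper, hνpern]
    have h1 := hdir _ (hmem j (by omega))
    rw [hent j (by omega)] at h1
    simp only at h1
    rw [h1, ← hν0 j hj]
    congr 1
    apply dv_congr
    omega
  · intro i
    obtain ⟨j, n, hj, rfl⟩ := hred i
    have e1 : k0 + (j : ℤ) + n * L + 1 = (k0 + j + 1) + n * L := by ring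
    rw [e1, hνpern, hνpern]
    have hsw : ((w[j]'(by omega)).1).swap ∉ Sides ZQ (P : Set (ℤ × ℤ)) :=
      (hw.bd (hmem j (by omega))).2
    rcases Nat.lt_or_ge (j + 1) L with h1 | h1
    · have h4 : w = w.take j ++ (w[j]'(by omega)) :: (w[j + 1]'(by omega)) :: w.drop (j + 2) := by
        rw [← List.drop_eq_getElem_cons, ← List.drop_eq_getElem_cons, List.take_append_drop]
      have h5 := nx0_step (hcyc.1 _ _ _ _ h4) hsw
      have h6 := hν0 j hj
      have h7 := hν0 (j + 1) h1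
      have e2 : k0 + ((j + 1 : ℕ) : ℤ) = k0 + j + 1 := by push_cast; ring
      rw [e2] at h7
      rw [h6, h7]
      omega
    · have hjL : j + 1 = L := by omega
      obtain ⟨y, hy⟩ : ∃ y, w = w.dropLast ++ [y] :=
        ⟨w.getLast hne, (List.dropLast_append_getLast hne).symm⟩
      have hyl : w[j]'(by omega) = y := by
        have h1 : w.getLast hne = y := by
          have := List.getLast_append_singleton (a := y) w.dropLast
          simp only [← hy] at this
          exact this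
        rw [← h1, List.getLast_eq_getElem]
        congr 1
        omega
      have h5 := hcyc.2 x0 w0 w.dropLast y rfl hy
      rw [← hyl] at h5
      have h5' := nx0_step h5 hsw
      simp only at h5'
      have h6 := hν0 j hj
      have h7 := hν0 0 hL
      have e2 : k0 + (j : ℤ) + 1 = (k0 + ((0 : ℕ) : ℤ)) + L := by
        push_cast
        omega
      rw [e2, hνper, h6, h7]
      have h8 : w[0]'(by omega) = x0 := rfl
      rw [h8]
      omega

/-- The disc of the contour of a finite edge connected set of faces without holes. -/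
theorem Cont.disc_of_esc {P : Finset (ℤ × ℤ)} {L : ℕ} {g : ℤ → ℤ × ℤ} (hc : Cont P L g)
    (hne : P.Nonempty) (hconn : ConnS (P : Set (ℤ × ℤ))) (hesc : Esc (P : Set (ℤ × ℤ))) :
    ∃ ν : ℤ → ℤ, (∀ i, g (i + 1) = g i + dv (ν i)) ∧ (∀ i, ν (i + L) = ν i + 4) ∧
      (∀ i, ν (i + 1) = ν i + 1 ∨ ν (i + 1) = ν i ∨ ν (i + 1) = ν i - 1) ∧
      ∀ k : ℤ, Disc ZQ (P : Set (ℤ × ℤ)) (Glued ZQ P) (cword g ν L k) :=
  hc.disc (esc_disc P.finite_toSet (by exact_mod_cast hne) hconn hesc)

/-- The disc of a Manhattan polygon. -/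
theorem MPoly.disc {P : Finset (ℤ × ℤ)} (hP : MPoly P) {L : ℕ} {g : ℤ → ℤ × ℤ} (hc : Cont P L g) :
    ∃ ν : ℤ → ℤ, (∀ i, g (i + 1) = g i + dv (ν i)) ∧ (∀ i, ν (i + L) = ν i + 4) ∧
      (∀ i, ν (i + 1) = ν i + 1 ∨ ν (i + 1) = ν i ∨ ν (i + 1) = ν i - 1) ∧
      ∀ k : ℤ, Disc ZQ (P : Set (ℤ × ℤ)) (Glued ZQ P) (cword g ν L k) :=
  hc.disc_of_esc hP.nonempty hP.top_econn hP.esc

end Pool.Agent.SixB
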