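import Pool.Agent.Lib.SixB.CAEnvC
import Pool.Agent.Lib.SixB.S0Cont
import Pool.Agent.Lib.SixB.S4Bridge
import Pool.Agent.Lib.SixB.S4Move
import Pool.Agent.Lib.SixB.S4Plane

/-!
# 6BD: heights of the environments `WEnv`, the official environment of a marked polygon

* `WEnv.hN E ω z`: height numerator of the vertex `z`: sum over the strands of `lft z * num`; `hN_sub`: its
  increment along a directed unit edge `a` is `E.num ω a`.
* `E.hU z z'`: mean height difference (divided by `i`); `hU_edge : E.hU a.1 a.2 = E.mA a`, `hU_add`, `hU_swap`,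
  `hU_unique` (any function with the increments `mA`), `hU_congr`, `hU_move`.
* `cenv F b m j`: the environment of a contour `b` (period `m`) with jumps `j v` at the vertices `b v`:
  `t = tJ (jumps between)`, `s = -dJ (jumps between)` (`tJ`, `dJ` of `CAEnvC`). `cenv_ts`: for all integers
  `i < k < i + m`.
-/

set_option autoImplicit false
set_option linter.unusedSectionVars false

namespace Pool.Agent.SixB

open Pool.Agent.Perc Pool.Agent.Perc.Q Relation

noncomputable section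

variable {F : Finset (ℤ × ℤ)} {ω : Cfg} {a b e x y : DZ} {X : Finset DZ} {z z' z'' : VZ} {E : WEnv}

/-! ## The numerator along a strand -/

private theorem stt_in (he : e ∈ dE ZQ F) (h : ¬ Clo ZQ F ω e) :
    stt F ω e ∈ bS ZQ F ∧ SRel ZQ F ω (stt F ω e) e := start_spec he h

private theorem stt_uniq (he : e ∈ dE ZQ F) (h : ¬ Clo ZQ F ω e) (ha : a ∈ bS ZQ F)
    (hae : SRel ZQ F ω a e) : stt F ω e = a := by
  obtain ⟨h1, h2⟩ := stt_in he h
  exact ini_unique (mem_bS.mp h1).2 (mem_bS.mp ha).2 (EqvGen.trans _ _ _ h2 (EqvGen.symm _ _ hae))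

private theorem stt_sw (he : e ∈ dE ZQ F) (h : ¬ Clo ZQ F ω e) :
    stt F ω e.swap = mate ZQ F ω (stt F ω e) := by
  obtain ⟨h1, h2⟩ := stt_in he h
  refine stt_uniq (swap_mem_dE.mpr he) (fun hh => h (clo_swap.mp hh)) (mate_mem h1) ?_
  exact EqvGen.trans _ _ _ (srel_mate h1) (srel_swap h2)

/-- the numerator of the mean arrow is odd -/
theorem WEnv.num_swp (E : WEnv) (ω : Cfg) (he : e ∈ dE ZQ E.F) :
    E.num ω e.swap = -E.num ω e := by
  classical
  unfold WEnv.num
  by_cases hc : Clo ZQ E.F ω e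
  · rw [if_pos hc, if_pos (clo_swap.mpr hc), trn_swap]
    push_cast
    ring
  · have hc' : ¬ Clo ZQ E.F ω e.swap := fun hh => hc (clo_swap.mp hh)
    rw [if_neg hc, if_neg hc']
    unfold arcE
    rw [stt_sw he hc, mate_mate (stt_in he hc).1, E.s_anti, Sym2.eq_swap]
    ring

/-- the numerator is constant along a directed strand -/
theorem WEnv.num_srl (E : WEnv) (ω : Cfg) (hx : x ∈ dE ZQ E.F) (h : SRel ZQ E.F ω x y) :
    E.num ω x = E.num ω y := by
  classical
  unfold WEnv.num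
  by_cases hc : Clo ZQ E.F ω x
  · rw [if_pos hc, if_pos ((clo_srel h).mp hc), trn_eq h]
  · have hc' : ¬ Clo ZQ E.F ω y := fun hh => hc ((clo_srel h).mpr hh)
    rw [if_neg hc, if_neg hc']
    obtain ⟨h1, h2⟩ := stt_in (srel_dE h hx) hc'
    have h3 : stt E.F ω x = stt E.F ω y :=
      stt_uniq hx hc h1 (EqvGen.trans _ _ _ h2 (EqvGen.symm _ _ h))
    unfold arcE
    rw [h3]

open Classical in
/-- an element of a strand -/
def elt (X : Finset DZ) : DZ := if h : X.Nonempty then h.choose else ((0, 0), (0, 0))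

theorem elt_mem (h : X.Nonempty) : elt X ∈ X := by
  unfold elt
  rw [dif_pos h]
  exact h.choose_spec

/-- numerator of the mean arrow in the direction of a strand -/
def WEnv.nX (E : WEnv) (ω : Cfg) (X : Finset DZ) : ℝ := E.num ω (elt X)

theorem WEnv.nX_eq (E : WEnv) (hX : X ∈ dstr ZQ E.F ω) (ha : a ∈ X) : E.nX ω X = E.num ω a := by
  have h1 := elt_mem ⟨a, ha⟩
  obtain ⟨h2, h3⟩ := dstr_of_mem hX h1
  rw [h3] at ha
  exact E.num_srl ω h2 (mem_dst.mp ha).2

theorem WEnv.nX_rv (E : WEnv) (hX : X ∈ dstr ZQ E.F ω) : E.nX ω (rv X) = -E.nX ω X := by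
  obtain ⟨a, ha, hXa⟩ := mem_dstr.mp hX
  have ha' : a ∈ X := by rw [← hXa]; exact self_mem_dst ha
  have h1 : a.swap ∈ rv X := mem_rv.mpr (by rw [Prod.swap_swap]; exact ha')
  rw [E.nX_eq hX ha', E.nX_eq (rv_mem_dstr hX) h1, E.num_swp ω ha]

/-! ## Heights -/

/-- height numerator of a vertex -/
def WEnv.hN (E : WEnv) (ω : Cfg) (z : VZ) : ℝ :=
  ∑ U ∈ ust ZQ E.F ω, (Tilt.lft ZQ E.F (Tilt.rep U) z : ℝ) * E.nX ω (Tilt.rep U)

/-- mean height difference, divided by `i` -/
def WEnv.hU (E : WEnv) (z z' : VZ) : ℝ := av E.F (fun ω => E.hN ω z - E.hN ω z') / E.Z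

theorem WEnv.hN_diff (E : WEnv) (ω : Cfg) (z z' : VZ) : E.hN ω z - E.hN ω z' =
    ∑ U ∈ ust ZQ E.F ω, ((Tilt.lft ZQ E.F (Tilt.rep U) z - Tilt.lft ZQ E.F (Tilt.rep U) z' : ℤ) : ℝ) *
      E.nX ω (Tilt.rep U) := by
  unfold WEnv.hN
  rw [← Finset.sum_sub_distrib]
  refine Finset.sum_congr rfl fun U _ => ?_
  push_cast
  ring

/-- the term of a strand does not depend on the direction and on the left indicator -/
theorem WEnv.lft_nX (E : WEnv) (hP : Tilt.HasPotQ ZQ E.F) {U : Finset (Finset DZ)}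
    (hU : U ∈ ust ZQ E.F ω) (hX : X ∈ U) {L : VZ → ℤ} (hL : Tilt.IsLft ZQ E.F X L)
    (hz : Tilt.ConnE ZQ E.F z z') :
    ((Tilt.lft ZQ E.F (Tilt.rep U) z - Tilt.lft ZQ E.F (Tilt.rep U) z' : ℤ) : ℝ) *
      E.nX ω (Tilt.rep U) = ((L z - L z' : ℤ) : ℝ) * E.nX ω X := by
  obtain ⟨h1, h2⟩ := Tilt.ust_eq hU (Tilt.rep_mem hU)
  have hs := Tilt.lft_spec hP h1
  rw [h2, Finset.mem_insert, Finset.mem_singleton] at hX
  rcases hX with rfl | rfl
  · rw [hs.diff hL hz]
  · rw [E.nX_rv h1, ← hs.rev.diff hL hz]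
    push_cast
    ring

/-- **increments of the height numerator** -/
theorem WEnv.hN_sub (E : WEnv) (hP : Tilt.HasPotQ ZQ E.F) (he : e ∈ dE ZQ E.F) :
    E.hN ω e.1 - E.hN ω e.2 = E.num ω e := by
  rw [E.hN_diff, Finset.sum_eq_single (usE ZQ E.F ω e)]
  · have hU := usE_mem (ω := ω) he
    have hX : dst ZQ E.F ω e ∈ usE ZQ E.F ω e := by unfold usE; simp
    have hXd := (Tilt.ust_eq hU hX).1
    have hs := Tilt.lft_spec hP hXd
    have hz : Tilt.ConnE ZQ E.F e.1 e.2 := ReflTransGen.single (by exact he)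
    rw [E.lft_nX hP hU hX hs hz, hs.inc e he, if_pos (self_mem_dst he), if_neg,
      E.nX_eq hXd (self_mem_dst he)]
    · push_cast
      ring
    · intro h1
      exact not_srel_swap Tilt.zq_noLoop he (mem_dst.mp h1).2
  · intro U hU hne
    obtain ⟨h1, h2⟩ := Tilt.ust_eq hU (Tilt.rep_mem hU)
    have hs := Tilt.lft_spec hP h1
    have h3 : e ∉ Tilt.rep U := by
      intro h3
      apply hne
      have h4 := (dstr_of_mem h1 h3).2
      rw [h2, h4, rv_dst]
      rfl
    have h5 : e.swap ∉ Tilt.rep U := by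
      intro h5
      apply hne
      have h4 := (dstr_of_mem h1 h5).2
      rw [h2, h4, rv_dst, Prod.swap_swap, Finset.pair_comm]
      rfl
    rw [hs.inc e he, if_neg h3, if_neg h5]
    push_cast
    ring
  · intro hU
    exact absurd (usE_mem he) hU

theorem WEnv.hU_eq (E : WEnv) (z z' : VZ) :
    E.hU z z' = (av E.F (fun ω => E.hN ω z) - av E.F (fun ω => E.hN ω z')) / E.Z := by
  unfold WEnv.hU
  rw [av_sub]

theorem WEnv.hU_self (E : WEnv) (z : VZ) : E.hU z z = 0 := by rw [E.hU_eq]; simp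

theorem WEnv.hU_swap (E : WEnv) (z z' : VZ) : E.hU z' z = -E.hU z z' := by
  rw [E.hU_eq, E.hU_eq]; ring

theorem WEnv.hU_add (E : WEnv) (z z' z'' : VZ) : E.hU z z' + E.hU z' z'' = E.hU z z'' := by
  rw [E.hU_eq, E.hU_eq, E.hU_eq]; ring

theorem WEnv.hU_sub (E : WEnv) (z z' z'' : VZ) : E.hU z z'' - E.hU z' z'' = E.hU z z' := by
  rw [E.hU_eq, E.hU_eq, E.hU_eq]; ring

theorem WEnv.hU_edge (E : WEnv) (hP : Tilt.HasPotQ ZQ E.F) (he : e ∈ dE ZQ E.F) :
    E.hU e.1 e.2 = E.mA e := by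
  unfold WEnv.hU WEnv.mA
  congr 1
  exact av_congr fun _ _ => E.hN_sub hP he

/-- a function with the increments `mA` -/
theorem WEnv.hU_unique (E : WEnv) (hP : Tilt.HasPotQ ZQ E.F) {g : VZ → ℝ}
    (hg : ∀ a ∈ dE ZQ E.F, g a.1 - g a.2 = E.mA a) (hz : Tilt.ConnE ZQ E.F z z') :
    E.hU z z' = g z - g z' := by
  have h := Tilt.sub_eq_of_inc (G := E.F) (u := fun v => E.hU v z') (v := g) (z := z) (z' := z')
    (fun a ha => by
      show E.hU a.1 z' - E.hU a.2 z' = _
      rw [E.hU_sub, hg a ha, E.hU_edge hP ha]) hz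
  simp only [E.hU_self, sub_zero] at h
  exact h

/-- along a path of unit edges -/
theorem WEnv.hU_path (E : WEnv) (hP : Tilt.HasPotQ ZQ E.F) (γ : ℕ → VZ) (n : ℕ)
    (h : ∀ i < n, (γ i, γ (i + 1)) ∈ dE ZQ E.F) :
    E.hU (γ 0) (γ n) = ∑ i ∈ Finset.range n, E.mA (γ i, γ (i + 1)) := by
  induction n with
  | zero => rw [Finset.sum_range_zero, E.hU_self]
  | succ n ih =>
    rw [Finset.sum_range_succ, ← ih fun i hi => h i (by omega), ← E.hU_add (γ 0) (γ n) (γ (n + 1)),
      ← E.hU_edge hP (h n (Nat.lt_succ_self n))]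

/-- the path sums of `S4Move` -/
theorem WEnv.hD_eq_hU (E : WEnv) (hP : Tilt.HasPotQ ZQ E.F) (p v : VZ) (n : ℕ)
    (h : ∀ j < n, (p + ((j : ℤ) + 1) • v, p + (j : ℤ) • v) ∈ dE ZQ E.F) :
    E.hD p v n = E.hU (p + (n : ℤ) • v) p := by
  unfold WEnv.hD
  induction n with
  | zero => simp [E.hU_self]
  | succ n ih =>
    rw [Finset.sum_range_succ, ih fun j hj => h j (by omega),
      ← E.hU_edge hP (h n (Nat.lt_succ_self n))]
    push_cast
    rw [add_comm, E.hU_add]

/-! ## Congruence -/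

section congr

variable {E' : WEnv}

theorem WEnv.W_cg (hF : E'.F = E.F) (ht : ∀ a ∈ bS ZQ E.F, ∀ b ∈ bS ZQ E.F, a ≠ b → E'.t a b = E.t a b)
    (ω : Cfg) : E'.W ω = E.W ω := by
  unfold WEnv.W
  rw [hF]
  refine Finset.prod_congr rfl fun p hp => ?_
  obtain ⟨a, ha, rfl⟩ := mem_arcs.mp hp
  exact ht a ha _ (mate_mem ha) (mate_ne Tilt.zq_noLoop ha).symm

theorem WEnv.num_cg (hF : E'.F = E.F) (ht : ∀ a ∈ bS ZQ E.F, ∀ b ∈ bS ZQ E.F, a ≠ b → E'.t a b = E.t a b)
    (hs : ∀ a ∈ bS ZQ E.F, ∀ b ∈ bS ZQ E.F, a ≠ b → E'.s a b = E.s a b) (he : e ∈ dE ZQ E.F) (ω : Cfg) :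
    E'.num ω e = E.num ω e := by
  classical
  unfold WEnv.num
  rw [WEnv.W_cg hF ht, hF]
  by_cases hc : Clo ZQ E.F ω e
  · rw [if_pos hc, if_pos hc]
  · rw [if_neg hc, if_neg hc]
    obtain ⟨h1, -⟩ := stt_in he hc
    rw [hs _ h1 _ (mate_mem h1) (mate_ne Tilt.zq_noLoop h1).symm]
    congr 1
    refine Finset.prod_congr rfl fun p hp => ?_
    obtain ⟨a, ha, rfl⟩ := mem_arcs.mp (Finset.mem_of_mem_erase hp)
    exact ht a ha _ (mate_mem ha) (mate_ne Tilt.zq_noLoop ha).symm

theorem WEnv.Z_cg (hF : E'.F = E.F) (ht : ∀ a ∈ bS ZQ E.F, ∀ b ∈ bS ZQ E.F, a ≠ b → E'.t a b = E.t a b) :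
    E'.Z = E.Z := by
  unfold WEnv.Z
  rw [hF]
  exact av_congr fun _ _ => WEnv.W_cg hF ht _

theorem WEnv.mA_cg (hF : E'.F = E.F) (ht : ∀ a ∈ bS ZQ E.F, ∀ b ∈ bS ZQ E.F, a ≠ b → E'.t a b = E.t a b)
    (hs : ∀ a ∈ bS ZQ E.F, ∀ b ∈ bS ZQ E.F, a ≠ b → E'.s a b = E.s a b) (he : e ∈ dE ZQ E.F) :
    E'.mA e = E.mA e := by
  unfold WEnv.mA
  rw [WEnv.Z_cg hF ht, hF]
  congr 1
  exact av_congr fun _ _ => WEnv.num_cg hF ht hs he _

theorem WEnv.hU_cg (hP : Tilt.HasPotQ ZQ E.F) (hF : E'.F = E.F)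
    (ht : ∀ a ∈ bS ZQ E.F, ∀ b ∈ bS ZQ E.F, a ≠ b → E'.t a b = E.t a b)
    (hs : ∀ a ∈ bS ZQ E.F, ∀ b ∈ bS ZQ E.F, a ≠ b → E'.s a b = E.s a b) (hz : Tilt.ConnE ZQ E.F z z') :
    E'.hU z z' = E.hU z z' := by
  rw [E.hU_unique hP (g := fun v => E'.hU v z') (fun a ha => ?_) hz, E'.hU_self, sub_zero]
  rw [E'.hU_sub, E'.hU_edge (hF ▸ hP) (hF ▸ ha), WEnv.mA_cg hF ht hs ha]

end congr

/-- motions -/
theorem WEnv.hU_move (E : WEnv) (hP : Tilt.HasPotQ ZQ E.F) (m : Mot)
    (hP' : Tilt.HasPotQ ZQ (m.im E.F)) (hz : Tilt.ConnE ZQ E.F z z') :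
    (E.move m).hU (m.φ z) (m.φ z') = E.hU z z' := by
  rw [E.hU_unique hP (g := fun v => (E.move m).hU (m.φ v) (m.φ z')) (fun a ha => ?_) hz,
    (E.move m).hU_self, sub_zero]
  have h1 : m.e a ∈ dE ZQ (E.move m).F := m.mem_dE_e.mpr ha
  have h2 := (E.move m).hU_edge hP' h1
  rw [E.mA_move] at h2
  rw [(E.move m).hU_sub]
  exact h2

/-! ## The environment of a contour -/

open Ht (tJ dJ)

theorem tJ_symm (x : ℝ) : tJ (Real.pi / 3 - x) = tJ x := by
  unfold Ht.tJ
  rw [show Real.pi / 3 - x - Real.pi / 6 = -(x - Real.pi / 6) by ring, Real.cos_neg]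

theorem dJ_symm (x : ℝ) : dJ (Real.pi / 3 - x) = -dJ x := by
  unfold Ht.dJ
  rw [show Real.pi / 6 - (Real.pi / 3 - x) = -(Real.pi / 6 - x) by ring, Real.sin_neg, neg_div]

/-- sum of the jumps over `(i, k]` -/
def csum (j : ℤ → ℝ) (i k : ℤ) : ℝ := ∑ v ∈ Finset.Ioc i k, j v

/-- position of a side in the contour, in `[0, m)` -/
def cidx (b : ℤ → VZ) (m : ℕ) (a : DZ) : ℕ :=
  ((List.range m).map fun i : ℕ => (b i, b (i + 1))).idxOf a

/-- **the environment of a contour `b` of period `m` with jumps `j`** -/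
def cenv (F : Finset (ℤ × ℤ)) (b : ℤ → VZ) (m : ℕ) (j : ℤ → ℝ) : WEnv where
  F := F
  t := fun a a' => tJ (csum j (min (cidx b m a : ℤ) (cidx b m a')) (max (cidx b m a : ℤ) (cidx b m a')))
  s := fun a a' => if cidx b m a < cidx b m a' then -dJ (csum j (cidx b m a) (cidx b m a'))
    else if cidx b m a' < cidx b m a then dJ (csum j (cidx b m a') (cidx b m a)) else 0
  t_symm := fun a a' => by rw [min_comm, max_comm]
  s_anti := fun a a' => by
    split_ifs with h1 h2
    · omega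
    · rfl
    · rw [neg_neg]
    · simp

theorem csum_self (j : ℤ → ℝ) (i : ℤ) : csum j i i = 0 := by simp [csum]

theorem csum_add (j : ℤ → ℝ) {i k l : ℤ} (h1 : i ≤ k) (h2 : k ≤ l) :
    csum j i k + csum j k l = csum j i l := by
  unfold csum
  rw [← Finset.sum_union]
  · rw [Finset.Ioc_union_Ioc_eq_Ioc h1 h2]
  · rw [Finset.disjoint_left]
    intro v hv hv'
    rw [Finset.mem_Ioc] at hv hv'
    omega

theorem csum_succ (j : ℤ → ℝ) {i k : ℤ} (h : i ≤ k) : csum j i (k + 1) = csum j i k + j (k + 1) := by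
  rw [← csum_add j h (by omega : k ≤ k + 1)]
  congr 1
  unfold csum
  have : Finset.Ioc k (k + 1) = {k + 1} := by
    ext v
    rw [Finset.mem_Ioc, Finset.mem_singleton]
    omega
  rw [this, Finset.sum_singleton]

theorem csum_shift {j : ℤ → ℝ} {m : ℤ} (hj : ∀ v, j (v + m) = j v) (i k : ℤ) :
    csum j (i + m) (k + m) = csum j i k := by
  unfold csum
  symm
  refine Finset.sum_bij (fun v _ => v + m) ?_ ?_ ?_ ?_
  · intro v hv
    rw [Finset.mem_Ioc] at hv ⊢
    omega
  · intro v _ v' _ h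
    exact add_right_cancel h
  · intro v hv
    rw [Finset.mem_Ioc] at hv
    exact ⟨v - m, by rw [Finset.mem_Ioc]; omega, by ring⟩
  · intro v _
    exact (hj v).symm

theorem csum_shift' {j : ℤ → ℝ} {m : ℤ} (hj : ∀ v, j (v + m) = j v) (q i k : ℤ) :
    csum j (i + q * m) (k + q * m) = csum j i k := by
  have hq : ∀ v, j (v + q * m) = j v := by
    intro v
    have h1 : Function.Periodic j m := hj
    exact h1.int_mul q v
  exact csum_shift hq i k

/-- the sum over every period is the same -/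
theorem csum_period {j : ℤ → ℝ} {m : ℕ} (hj : ∀ v, j (v + m) = j v) {s : ℝ}
    (h0 : csum j 0 m = s) (i : ℤ) : csum j i (i + m) = s := by
  have hm : (0 : ℤ) ≤ m := Int.natCast_nonneg m
  have step : ∀ i, csum j (i + 1) (i + 1 + m) = csum j i (i + m) := by
    intro i
    have h1 := csum_add j (by omega : i ≤ i + 1) (by omega : i + 1 ≤ i + 1 + m)
    have h2 := csum_succ j (by omega : i ≤ i + m)
    have h3 := csum_succ j (le_refl i)
    rw [csum_self, zero_add] at h3
    have h4 : i + 1 + (m : ℤ) = i + m + 1 := by ring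
    have h5 : j (i + m + 1) = j (i + 1) := by rw [← h4]; exact hj (i + 1)
    rw [h4] at h1 ⊢
    rw [h5] at h2
    linarith
  induction i using Int.induction_on with
  | zero => rw [zero_add]; exact h0
  | succ i ih => rw [step]; exact ih
  | pred i ih =>
    rw [← ih, ← step (-(i : ℤ) - 1)]
    congr 1 <;> ring

section contour

variable {P : Finset (ℤ × ℤ)} {g : ℤ → VZ} {m : ℕ}

theorem Cont.per_zmul (hc : Cont P m g) (k q : ℤ) : g (k + q * m) = g k := by
  have h1 : Function.Periodic g (m : ℤ) := hc.per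
  exact h1.int_mul q k

/-- directed side of the contour -/
def csd (g : ℤ → VZ) (k : ℤ) : DZ := (g k, g (k + 1))

theorem Cont.csd_per (hc : Cont P m g) (k q : ℤ) : csd g (k + q * m) = csd g k := by
  unfold csd
  rw [hc.per_zmul, show k + q * m + 1 = k + 1 + q * m by ring, hc.per_zmul]

theorem Cont.csd_inj (hc : Cont P m g) {i k : ℤ} (h : csd g i = csd g k) : (m : ℤ) ∣ i - k :=
  hc.inj i k (congrArg Prod.fst h)

theorem Cont.cidx_nat (hc : Cont P m g) {i : ℕ} (hi : i < m) : cidx g m (csd g i) = i := by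
  unfold cidx
  have hnd : ((List.range m).map fun i : ℕ => (g i, g (i + 1))).Nodup := by
    rw [List.nodup_map_iff_inj_on List.nodup_range]
    intro k hk l hl hkl
    rw [List.mem_range] at hk hl
    have h1 := hc.csd_inj (i := k) (k := l) hkl
    obtain ⟨c, hc'⟩ := h1
    have h2 : c = 0 := by
      by_contra hne
      rcases lt_or_gt_of_ne hne with h3 | h3
      · nlinarith
      · nlinarith
    rw [h2, mul_zero] at hc'
    omega
  have h1 : csd g i = ((List.range m).map fun i : ℕ => (g i, g (i + 1)))[i]'(by simpa using hi) := by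
    rw [List.getElem_map, List.getElem_range]
    rfl
  rw [h1]
  exact hnd.idxOf_getElem _ _

theorem Cont.cidx_int (hc : Cont P m g) (i : ℤ) : (cidx g m (csd g i) : ℤ) = i % m := by
  have hm : (0 : ℤ) < m := by exact_mod_cast hc.pos
  have h0 := Int.emod_nonneg i hm.ne'
  have h1 := Int.emod_lt_of_pos i hm
  have h2 : csd g i = csd g (i % m) := by
    have h3 := hc.csd_per (i % m) (i / m)
    rw [← h3]
    congr 1
    rw [mul_comm]
    exact (Int.emod_add_mul_ediv i m).symm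
  have h4 : ((i % m).toNat : ℤ) = i % m := Int.toNat_of_nonneg h0
  rw [h2, ← h4, hc.cidx_nat (by omega), h4]

/-- **weights of the environment of a contour**, all positions -/
theorem cenv_ts (hc : Cont P m g) {j : ℤ → ℝ} (hj : ∀ v, j (v + m) = j v)
    (h0 : csum j 0 m = Real.pi / 3) {i k : ℤ} (hik : i < k) (hkm : k < i + m) :
    (cenv F g m j).t (csd g i) (csd g k) = tJ (csum j i k) ∧
    (cenv F g m j).s (csd g i) (csd g k) = -dJ (csum j i k) := by
  have hm : (0 : ℤ) < m := by exact_mod_cast hc.pos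
  have hi := hc.cidx_int i
  have hk := hc.cidx_int k
  have hi0 := Int.emod_nonneg i hm.ne'
  have hi1 := Int.emod_lt_of_pos i hm
  have hk0 := Int.emod_nonneg k hm.ne'
  have hk1 := Int.emod_lt_of_pos k hm
  have hid := Int.emod_add_mul_ediv i m
  have hkd := Int.emod_add_mul_ediv k m
  set i0 := i % m with hi0d
  set k0 := k % m with hk0d
  set q := i / m
  set r := k / m
  have hqr : r = q ∨ r = q + 1 := by
    have h1 : (m : ℤ) * (r - q) < m * 2 := by nlinarith
    have h2 : (m : ℤ) * (-1) < m * (r - q) := by nlinarith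
    have h3 : r - q < 2 := lt_of_mul_lt_mul_left h1 hm.le
    have h4 : -1 < r - q := lt_of_mul_lt_mul_left h2 hm.le
    omega
  rcases hqr with hr | hr
  · -- same period
    have h1 : i0 < k0 := by rw [hr] at hkd; omega
    have h2 : csum j i k = csum j i0 k0 := by
      rw [← csum_shift' hj q i0 k0, mul_comm q, hid, ← hr, hkd]
    have hlt : cidx g m (csd g i) < cidx g m (csd g k) := by omega
    constructor
    · show tJ (csum j (min (cidx g m (csd g i) : ℤ) (cidx g m (csd g k)))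
        (max (cidx g m (csd g i) : ℤ) (cidx g m (csd g k)))) = _
      rw [hi, hk, min_eq_left h1.le, max_eq_right h1.le, h2]
    · show (if cidx g m (csd g i) < cidx g m (csd g k) then
        -dJ (csum j (cidx g m (csd g i)) (cidx g m (csd g k))) else _) = _
      rw [if_pos hlt, hi, hk, h2]
  · -- next period
    have h1 : k0 < i0 := by
      rw [hr, mul_add, mul_one] at hkd
      omega
    have h2 : csum j i k = Real.pi / 3 - csum j k0 i0 := by
      have h3 : csum j i k = csum j i0 (k0 + m) := by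
        rw [← csum_shift' hj q i0 (k0 + m), mul_comm q, hid]
        congr 1
        rw [← hkd, hr]
        ring
      have h4 := csum_add j h1.le (by omega : i0 ≤ k0 + m)
      have h5 := csum_period hj h0 k0
      rw [h3]
      linarith
    have hlt : cidx g m (csd g k) < cidx g m (csd g i) := by omega
    constructor
    · show tJ (csum j (min (cidx g m (csd g i) : ℤ) (cidx g m (csd g k)))
        (max (cidx g m (csd g i) : ℤ) (cidx g m (csd g k)))) = _
      rw [hi, hk, min_eq_right h1.le, max_eq_left h1.le, h2, tJ_symm]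
    · show (if cidx g m (csd g i) < cidx g m (csd g k) then _
        else if cidx g m (csd g k) < cidx g m (csd g i) then
        dJ (csum j (cidx g m (csd g k)) (cidx g m (csd g i))) else _) = _
      rw [if_neg (by omega), if_pos hlt, hi, hk, h2, dJ_symm, neg_neg]

end contour

end

end Pool.Agent.SixB
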