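import Pool.Agent.Lib.SixB.CAEnvF
import Pool.Agent.Lib.SixB.S6GDefs

/-!
# 6BD block CA: link of the height of `CAEnvD` with the strand heights of `S6LHgt`

* `WEnv.hN_HS`: `hN` and `HG.HS` have the same differences on every edge connected set of vertices.
* `WEnv.hU_HS`: `hU z z' = av (HS z - HS z') / Z`.
* `isV_iff`: `GG.IsV F z ↔ z ∈ VX F`; `MPoly.hU_HS`, `MPoly.hU_u0`: all vertices of a Manhattan polygon.
-/

set_option autoImplicit false

namespace Pool.Agent.SixB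

open Pool.Agent.Perc Pool.Agent.Perc.Q Relation

noncomputable section

variable {P : Finset (ℤ × ℤ)} {ω : Cfg} {z z' : VZ} {g : ℤ → VZ} {m : ℕ} {j : ℤ → ℝ}

theorem WEnv.hN_HS (E : WEnv) (hP : Tilt.HasPotQ ZQ E.F) (h : Tilt.ConnE ZQ E.F z z') (ω : Cfg) :
    E.hN ω z - E.hN ω z' = HG.HS E ω z - HG.HS E ω z' :=
  Tilt.sub_eq_of_inc (G := E.F) (u := fun v => E.hN ω v) (v := fun v => HG.HS E ω v) (z := z)
    (z' := z') (fun a ha => by
      show E.hN ω a.1 - E.hN ω a.2 = HG.HS E ω a.1 - HG.HS E ω a.2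
      rw [E.hN_sub hP ha, HG.HS_inc E hP ha]) h

/-- mean height numerator = mean strand height numerator -/
theorem WEnv.hM_HS (E : WEnv) (hP : Tilt.HasPotQ ZQ E.F) (h : Tilt.ConnE ZQ E.F z z') :
    E.hM z z' = av E.F (fun ω => HG.HS E ω z - HG.HS E ω z') := by
  unfold WEnv.hM
  exact av_congr (g := fun ω => E.hN ω z - E.hN ω z')
    (g' := fun ω => HG.HS E ω z - HG.HS E ω z') fun T _ => E.hN_HS hP h (ind T)

/-- **mean height = mean strand height** -/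
theorem WEnv.hU_HS (E : WEnv) (hP : Tilt.HasPotQ ZQ E.F) (h : Tilt.ConnE ZQ E.F z z') :
    E.hU z z' = av E.F (fun ω => HG.HS E ω z - HG.HS E ω z') / E.Z := by
  have h1 := E.hM_div z z'
  rw [E.hM_HS hP h] at h1
  exact h1.symm

theorem WEnv.hU_u0 (E : WEnv) (hP : Tilt.HasPotQ ZQ E.F) (h : Tilt.ConnE ZQ E.F z z') :
    E.hU z z' = HG.u0 E z - HG.u0 E z' := by
  rw [E.hU_HS hP h, av_sub, sub_div]
  rfl

theorem isV_iff : GG.IsV P z ↔ z ∈ VX P := by
  unfold GG.IsV VX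
  constructor
  · rintro ⟨f, hf, k, h⟩
    exact ⟨f, hf, k, h.symm⟩
  · rintro ⟨f, hf, k, h⟩
    exact ⟨f, hf, k, h.symm⟩

theorem MPoly.hM_HS (hP : MPoly P) (hc : Cont P m g) (hz : GG.IsV P z) (hz' : GG.IsV P z') :
    (cenv P g m j).hM z z' = av P (fun ω => HG.HS (cenv P g m j) ω z - HG.HS (cenv P g m j) ω z') :=
  (cenv P g m j).hM_HS hP.potQ (hP.connV hc (isV_iff.mp hz) (isV_iff.mp hz'))

theorem MPoly.hU_HS (hP : MPoly P) (hc : Cont P m g) (hz : GG.IsV P z) (hz' : GG.IsV P z') :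
    (cenv P g m j).hU z z' =
      av P (fun ω => HG.HS (cenv P g m j) ω z - HG.HS (cenv P g m j) ω z') / (cenv P g m j).Z :=
  (cenv P g m j).hU_HS hP.potQ (hP.connV hc (isV_iff.mp hz) (isV_iff.mp hz'))

theorem MPoly.hU_u0 (hP : MPoly P) (hc : Cont P m g) (hz : GG.IsV P z) (hz' : GG.IsV P z') :
    (cenv P g m j).hU z z' = HG.u0 (cenv P g m j) z - HG.u0 (cenv P g m j) z' :=
  (cenv P g m j).hU_u0 hP.potQ (hP.connV hc (isV_iff.mp hz) (isV_iff.mp hz'))

end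

end Pool.Agent.SixB
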