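import Pool.Agent.Lib.SixB.S3OpBoxA

/-!
# 6BD, operator bound (4): the value of a gradient on a strand

For a rectangle `B` and a function `f` which vanishes near its boundary, `∑ a ∈ Y, (f a.2 - f a.1)`
is the sum of the lattice Laplacian of `f` over the vertices on the left of the strand `Y`.
-/

set_option autoImplicit false
set_option linter.unusedSectionVars false

namespace Pool.Agent.SixB.Op

open Pool.Agent.Perc Pool.Agent.Perc.Q Pool.Agent.PercD Pool.Agent.PercN Relation Pool.Agent.SixB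

noncomputable section

variable {F B : Finset (ℤ × ℤ)} {ω : Cfg} {a b : DZ} {X Y : Finset DZ} {x₀ x₁ y₀ y₁ : ℤ}
variable {P : ℤ × ℤ → ZMod 2}

/-- the lattice Laplacian -/
def lapZ (f : ℤ × ℤ → ℝ) (p : ℤ × ℤ) : ℝ :=
  f (p.1 + 1, p.2) + f (p.1, p.2 + 1) + f (p.1 - 1, p.2) + f (p.1, p.2 - 1) - 4 * f p

/-- the gradient of `f` on the directed edges of `B` -/
def cB (B : Finset (ℤ × ℤ)) (f : ℤ × ℤ → ℝ) (a : DZ) : ℝ := if a ∈ dE ZQ B then f a.2 - f a.1 else 0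

/-- the four neighbours -/
def nbd (i : Fin 4) (p : ℤ × ℤ) : ℤ × ℤ :=
  if i = 0 then (p.1 + 1, p.2) else if i = 1 then (p.1, p.2 + 1) else if i = 2 then (p.1 - 1, p.2)
  else (p.1, p.2 - 1)

theorem nbd_0 (p : ℤ × ℤ) : nbd 0 p = (p.1 + 1, p.2) := rfl
theorem nbd_1 (p : ℤ × ℤ) : nbd 1 p = (p.1, p.2 + 1) := rfl
theorem nbd_2 (p : ℤ × ℤ) : nbd 2 p = (p.1 - 1, p.2) := rfl
theorem nbd_3 (p : ℤ × ℤ) : nbd 3 p = (p.1, p.2 - 1) := rfl

theorem lapZ_eq (f : ℤ × ℤ → ℝ) (p : ℤ × ℤ) : lapZ f p = ∑ i : Fin 4, (f (nbd i p) - f p) := by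
  rw [Fin.sum_univ_four, nbd_0, nbd_1, nbd_2, nbd_3]
  unfold lapZ
  ring

theorem nbd_inj {i j : Fin 4} {p : ℤ × ℤ} (h : nbd i p = nbd j p) : i = j := by
  fin_cases i <;> fin_cases j <;> simp [nbd, Prod.ext_iff] at h ⊢ <;> omega

/-- the vertices of a rectangle -/
def VB (x₀ x₁ y₀ y₁ : ℤ) : Finset (ℤ × ℤ) := Finset.Icc x₀ x₁ ×ˢ Finset.Icc y₀ y₁

theorem mem_VB {p : ℤ × ℤ} : p ∈ VB x₀ x₁ y₀ y₁ ↔ x₀ ≤ p.1 ∧ p.1 ≤ x₁ ∧ y₀ ≤ p.2 ∧ p.2 ≤ y₁ := by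
  unfold VB
  simp only [Finset.mem_product, Finset.mem_Icc]
  tauto

/-- every directed edge of the rectangle goes from a vertex to a neighbour -/
theorem dE_nbd (h : a ∈ dE ZQ (RF x₀ x₁ y₀ y₁)) :
    a.1 ∈ VB x₀ x₁ y₀ y₁ ∧ a.2 ∈ VB x₀ x₁ y₀ y₁ ∧ ∃ i, a = (a.1, nbd i a.1) := by
  obtain ⟨f, hf, k, h⟩ := mem_dE_iff.1 h
  rw [mem_RF] at hf
  rw [mem_VB, mem_VB]
  have h0 : sd ZQ f 0 = (f, (f.1 + 1, f.2)) := rfl
  have h1 : sd ZQ f 1 = ((f.1 + 1, f.2), (f.1 + 1, f.2 + 1)) := rfl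
  have h2 : sd ZQ f 2 = ((f.1 + 1, f.2 + 1), (f.1, f.2 + 1)) := rfl
  have h3 : sd ZQ f 3 = ((f.1, f.2 + 1), f) := rfl
  rcases h with rfl | rfl <;> rcases k4_cases k with rfl | rfl | rfl | rfl
  · rw [h0]; refine ⟨by simp only; omega, by simp only; omega, 0, rfl⟩
  · rw [h1]; refine ⟨by simp only; omega, by simp only; omega, 1, rfl⟩
  · rw [h2]; refine ⟨by simp only; omega, by simp only; omega, 2, ?_⟩
    rw [nbd_2]; simp
  · rw [h3]; refine ⟨by simp only; omega, by simp only; omega, 3, ?_⟩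
    rw [nbd_3]; simp
  · rw [h0]; refine ⟨by simp only [Prod.swap]; omega, by simp only [Prod.swap]; omega, 2, ?_⟩
    rw [nbd_2]; simp
  · rw [h1]; refine ⟨by simp only [Prod.swap]; omega, by simp only [Prod.swap]; omega, 3, ?_⟩
    rw [nbd_3]; simp
  · rw [h2]; refine ⟨by simp only [Prod.swap]; omega, by simp only [Prod.swap]; omega, 0, ?_⟩
    rw [nbd_0]; simp
  · rw [h3]; refine ⟨by simp only [Prod.swap]; omega, by simp only [Prod.swap]; omega, 1, ?_⟩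
    rw [nbd_1]; simp

/-- the edges at an interior vertex are in `dE` -/
theorem nbd_dE {p : ℤ × ℤ} (h : x₀ < p.1 ∧ p.1 < x₁ ∧ y₀ < p.2 ∧ p.2 < y₁) (i : Fin 4) :
    (p, nbd i p) ∈ dE ZQ (RF x₀ x₁ y₀ y₁) := by
  rw [mem_dE_iff]
  fin_cases i
  · refine ⟨p, by rw [mem_RF]; omega, 0, Or.inl rfl⟩
  · refine ⟨p, by rw [mem_RF]; omega, 3, Or.inr rfl⟩
  · refine ⟨(p.1 - 1, p.2), by rw [mem_RF]; simp only; omega, 0, Or.inr ?_⟩
    have h0 : sd ZQ (p.1 - 1, p.2) 0 = ((p.1 - 1, p.2), (p.1 - 1 + 1, p.2)) := rfl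
    rw [h0]
    change (p, nbd 2 p) = _
    rw [nbd_2]
    simp
  · refine ⟨(p.1, p.2 - 1), by rw [mem_RF]; simp only; omega, 3, Or.inl ?_⟩
    have h0 : sd ZQ (p.1, p.2 - 1) 3 = ((p.1, p.2 - 1 + 1), (p.1, p.2 - 1)) := rfl
    rw [h0]
    change (p, nbd 3 p) = _
    rw [nbd_3]
    simp

/-- `f` vanishes near the boundary of the rectangle -/
def Inside (x₀ x₁ y₀ y₁ : ℤ) (f : ℤ × ℤ → ℝ) : Prop :=
  ∀ p : ℤ × ℤ, ¬ (x₀ + 1 < p.1 ∧ p.1 < x₁ - 1 ∧ y₀ + 1 < p.2 ∧ p.2 < y₁ - 1) → f p = 0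

theorem inside_nbd {f : ℤ × ℤ → ℝ} (hf : Inside x₀ x₁ y₀ y₁ f) {p : ℤ × ℤ}
    (h : ¬ (x₀ < p.1 ∧ p.1 < x₁ ∧ y₀ < p.2 ∧ p.2 < y₁)) (i : Fin 4) : f (nbd i p) = 0 ∧ f p = 0 := by
  refine ⟨?_, hf p (by omega)⟩
  apply hf
  fin_cases i
  · change ¬ (x₀ + 1 < (nbd 0 p).1 ∧ (nbd 0 p).1 < x₁ - 1 ∧ y₀ + 1 < (nbd 0 p).2 ∧ (nbd 0 p).2 < y₁ - 1)
    rw [nbd_0]; simp only; omega
  · change ¬ (x₀ + 1 < (nbd 1 p).1 ∧ (nbd 1 p).1 < x₁ - 1 ∧ y₀ + 1 < (nbd 1 p).2 ∧ (nbd 1 p).2 < y₁ - 1)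
    rw [nbd_1]; simp only; omega
  · change ¬ (x₀ + 1 < (nbd 2 p).1 ∧ (nbd 2 p).1 < x₁ - 1 ∧ y₀ + 1 < (nbd 2 p).2 ∧ (nbd 2 p).2 < y₁ - 1)
    rw [nbd_2]; simp only; omega
  · change ¬ (x₀ + 1 < (nbd 3 p).1 ∧ (nbd 3 p).1 < x₁ - 1 ∧ y₀ + 1 < (nbd 3 p).2 ∧ (nbd 3 p).2 < y₁ - 1)
    rw [nbd_3]; simp only; omega

/-- the sum of the gradient over the edges which start in `P` -/
theorem sum_start {f : ℤ × ℤ → ℝ} (hf : Inside x₀ x₁ y₀ y₁ f) (P : ℤ × ℤ → Prop) [DecidablePred P] :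
    ∑ a ∈ (dE ZQ (RF x₀ x₁ y₀ y₁)).filter (fun a => P a.1), (f a.2 - f a.1) =
      ∑ p ∈ (VB x₀ x₁ y₀ y₁).filter P, lapZ f p := by
  have h1 : ∑ p ∈ (VB x₀ x₁ y₀ y₁).filter P, lapZ f p =
      ∑ x ∈ ((VB x₀ x₁ y₀ y₁).filter P) ×ˢ (Finset.univ : Finset (Fin 4)),
        (f (nbd x.2 x.1) - f x.1) := by
    rw [Finset.sum_product]
    exact Finset.sum_congr rfl fun p _ => lapZ_eq f p
  have h2 : ∑ x ∈ ((VB x₀ x₁ y₀ y₁).filter P) ×ˢ (Finset.univ : Finset (Fin 4)),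
        (f (nbd x.2 x.1) - f x.1) =
      ∑ a ∈ (((VB x₀ x₁ y₀ y₁).filter P) ×ˢ (Finset.univ : Finset (Fin 4))).image
        (fun x => (x.1, nbd x.2 x.1)), (f a.2 - f a.1) := by
    rw [Finset.sum_image]
    rintro ⟨p, i⟩ _ ⟨q, j⟩ _ h
    simp only [Prod.mk.injEq] at h ⊢
    obtain ⟨rfl, h⟩ := h
    exact ⟨rfl, nbd_inj h⟩
  rw [h1, h2]
  refine Finset.sum_subset ?_ ?_
  · intro a ha
    obtain ⟨ha, hP⟩ := Finset.mem_filter.1 ha
    obtain ⟨h3, -, i, h4⟩ := dE_nbd ha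
    rw [Finset.mem_image]
    refine ⟨(a.1, i), ?_, h4.symm⟩
    rw [Finset.mem_product]
    exact ⟨Finset.mem_filter.2 ⟨h3, hP⟩, Finset.mem_univ _⟩
  · intro a ha h
    obtain ⟨⟨p, i⟩, hx, rfl⟩ := Finset.mem_image.1 ha
    obtain ⟨hx, -⟩ := Finset.mem_product.1 hx
    obtain ⟨-, hP⟩ := Finset.mem_filter.1 hx
    by_cases hp : x₀ < p.1 ∧ p.1 < x₁ ∧ y₀ < p.2 ∧ p.2 < y₁
    · exact absurd (Finset.mem_filter.2 ⟨nbd_dE hp i, hP⟩) h
    · obtain ⟨h3, h4⟩ := inside_nbd hf hp i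
      simp only at h3 h4 ⊢
      rw [h3, h4, sub_zero]

theorem swap_mem_dE {a : DZ} : a.swap ∈ dE ZQ F ↔ a ∈ dE ZQ F := by
  rw [mem_dE_iff, mem_dE_iff]
  constructor
  · rintro ⟨f, hf, k, h | h⟩
    · exact ⟨f, hf, k, Or.inr (by rw [← h, Prod.swap_swap])⟩
    · exact ⟨f, hf, k, Or.inl (Prod.swap_injective h)⟩
  · rintro ⟨f, hf, k, h | h⟩
    · exact ⟨f, hf, k, Or.inr (by rw [h])⟩
    · exact ⟨f, hf, k, Or.inl (by rw [h, Prod.swap_swap])⟩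

theorem sum_both (f : ℤ × ℤ → ℝ) (P : ℤ × ℤ → Prop) [DecidablePred P] :
    ∑ a ∈ (dE ZQ F).filter (fun a => P a.1 ∧ P a.2), (f a.2 - f a.1) = 0 := by
  have h : ∑ a ∈ (dE ZQ F).filter (fun a => P a.1 ∧ P a.2), (f a.2 - f a.1) =
      ∑ a ∈ (dE ZQ F).filter (fun a => P a.1 ∧ P a.2), -(f a.2 - f a.1) := by
    refine Finset.sum_bij (fun a _ => a.swap) ?_ ?_ ?_ ?_
    · intro a ha
      obtain ⟨h1, h2, h3⟩ := Finset.mem_filter.1 ha
      exact Finset.mem_filter.2 ⟨swap_mem_dE.2 h1, h3, h2⟩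
    · intro a _ b _ h
      exact Prod.swap_injective h
    · intro a ha
      obtain ⟨h1, h2, h3⟩ := Finset.mem_filter.1 ha
      exact ⟨a.swap, Finset.mem_filter.2 ⟨swap_mem_dE.2 h1, h3, h2⟩, Prod.swap_swap a⟩
    · intro a _
      simp only [Prod.fst_swap, Prod.snd_swap]
      ring
  rw [Finset.sum_neg_distrib] at h
  linarith

/-! ### the potential of a strand -/

/-- `P` changes exactly across the unit edges of `Y` -/
def PotY (F : Finset (ℤ × ℤ)) (Y : Finset DZ) (P : ℤ × ℤ → ZMod 2) : Prop :=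
  ∀ a ∈ dE ZQ F, (∃ b ∈ Y, te b = te a) ↔ P a.1 ≠ P a.2

theorem z2c {x y z w : ZMod 2} (h1 : x ≠ y) (h2 : z ≠ w) (h3 : y = w) : x = z := by
  revert x y z w; decide

theorem pot_left (hP : PotY F Y P) (hY : Y ∈ dstr ZQ F ω) (ha : a ∈ Y) (hb : b ∈ Y) :
    P a.1 = P b.1 := by
  have hE := (dstr_of_mem hY ha).2
  rw [hE] at hb
  have h := (mem_dst.1 hb).2
  have key : ∀ x y : DZ, EqvGen (Nx ZQ ω (F : Set (ℤ × ℤ))) x y →
      (x ∈ Y ↔ y ∈ Y) ∧ (x ∈ Y → P x.1 = P y.1) := by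
    intro x y h
    induction h with
    | rel x y h =>
      refine ⟨⟨fun hx => dst_nx hY hx h, fun hy => dst_pred hY hy h⟩, fun hx => ?_⟩
      have hy := dst_nx hY hx h
      have h1 : P x.1 ≠ P x.2 := (hP x (dstr_of_mem hY hx).1).1 ⟨x, hx, rfl⟩
      have h2 : P y.1 ≠ P y.2 := (hP y (dstr_of_mem hY hy).1).1 ⟨y, hy, rfl⟩
      obtain ⟨f, hf, k, rfl, ⟨-, rfl⟩ | ⟨-, rfl⟩⟩ := h
      · exact z2c h1 h2 rfl
      · rfl
    | refl x => exact ⟨Iff.rfl, fun _ => rfl⟩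
    | symm x y _ ih => exact ⟨ih.1.symm, fun hy => (ih.2 (ih.1.2 hy)).symm⟩
    | trans x y z _ _ ih1 ih2 =>
      exact ⟨ih1.1.trans ih2.1, fun hx => (ih1.2 hx).trans (ih2.2 (ih1.1.1 hx))⟩
  exact (key a b h).2 ha

/-- a directed strand is the set of the edges which leave its left side -/
theorem strand_eq (hP : PotY F Y P) (hY : Y ∈ dstr ZQ F ω) (ha : a ∈ Y) :
    Y = (dE ZQ F).filter (fun b => P b.1 = P a.1 ∧ P b.2 ≠ P a.1) := by
  ext b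
  rw [Finset.mem_filter]
  constructor
  · intro hb
    have h1 := (dstr_of_mem hY hb).1
    have h2 : P b.1 ≠ P b.2 := (hP b h1).1 ⟨b, hb, rfl⟩
    have h3 := pot_left hP hY hb ha
    exact ⟨h1, h3, fun h => h2 (h3.trans h.symm)⟩
  · rintro ⟨h1, h2, h3⟩
    obtain ⟨c, hc, h4⟩ := (hP b h1).2 (fun h => h3 (h.symm.trans h2))
    rcases te_inj (dstr_of_mem hY hc).1 h1 h4 with h5 | h5
    · rwa [← h5]
    · exfalso
      have h6 := pot_left hP hY hc ha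
      rw [h5] at h6
      exact h3 h6

/-- the value of a gradient on a strand -/
theorem fS_eq {f : ℤ × ℤ → ℝ} (hf : Inside x₀ x₁ y₀ y₁ f) (hP : PotY (RF x₀ x₁ y₀ y₁) Y P)
    (hY : Y ∈ dstr ZQ (RF x₀ x₁ y₀ y₁) ω) (ha : a ∈ Y) :
    fS (cB (RF x₀ x₁ y₀ y₁) f) Y = ∑ p ∈ (VB x₀ x₁ y₀ y₁).filter (fun p => P p = P a.1), lapZ f p := by
  have h1 : fS (cB (RF x₀ x₁ y₀ y₁) f) Y = ∑ b ∈ Y, (f b.2 - f b.1) := by
    unfold fS cB
    refine Finset.sum_congr rfl ?_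
    intro b hb
    rw [if_pos (dstr_of_mem hY hb).1]
  rw [h1, strand_eq hP hY ha, ← sum_start hf]
  have h2 := sum_both (F := RF x₀ x₁ y₀ y₁) f (fun p => P p = P a.1)
  have h3 : (dE ZQ (RF x₀ x₁ y₀ y₁)).filter (fun b => P b.1 = P a.1) =
      (dE ZQ (RF x₀ x₁ y₀ y₁)).filter (fun b => P b.1 = P a.1 ∧ P b.2 ≠ P a.1) ∪
      (dE ZQ (RF x₀ x₁ y₀ y₁)).filter (fun b => P b.1 = P a.1 ∧ P b.2 = P a.1) := by
    ext b
    simp only [Finset.mem_union, Finset.mem_filter]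
    tauto
  rw [h3, Finset.sum_union, h2, add_zero]
  rw [Finset.disjoint_left]
  intro b hb hb'
  exact (Finset.mem_filter.1 hb).2.2 (Finset.mem_filter.1 hb').2.2

/-- the total Laplacian vanishes -/
theorem sum_lapZ {f : ℤ × ℤ → ℝ} (hf : Inside x₀ x₁ y₀ y₁ f) :
    ∑ p ∈ VB x₀ x₁ y₀ y₁, lapZ f p = 0 := by
  have h1 := sum_start hf (fun _ => True)
  have h2 := sum_both (F := RF x₀ x₁ y₀ y₁) f (fun _ => True)
  simp only [and_self] at h2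
  rw [h2] at h1
  rw [Finset.filter_true_of_mem (fun _ _ => trivial)] at h1
  exact h1.symm

theorem fS_le {f : ℤ × ℤ → ℝ} {D : Finset (ℤ × ℤ)} {κ : ℝ} (hf : Inside x₀ x₁ y₀ y₁ f)
    (hP : PotY (RF x₀ x₁ y₀ y₁) Y P) (hY : Y ∈ dstr ZQ (RF x₀ x₁ y₀ y₁) ω)
    (hD : ∀ p ∈ VB x₀ x₁ y₀ y₁, p ∉ D → P p = 0 ∨ lapZ f p = 0) (hκ : ∀ p, |lapZ f p| ≤ κ) :
    |fS (cB (RF x₀ x₁ y₀ y₁) f) Y| ≤ D.card * κ := by
  obtain ⟨a, ha⟩ := dstr_nonempty hY
  rw [fS_eq hf hP hY ha]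
  have h1 : |∑ p ∈ (VB x₀ x₁ y₀ y₁).filter (fun p => P p = 1), lapZ f p| ≤ D.card * κ := by
    have h2 : ∑ p ∈ (VB x₀ x₁ y₀ y₁).filter (fun p => P p = 1), lapZ f p =
        ∑ p ∈ ((VB x₀ x₁ y₀ y₁).filter (fun p => P p = 1)).filter (fun p => p ∈ D), lapZ f p := by
      symm
      refine Finset.sum_subset (Finset.filter_subset _ _) ?_
      intro p hp hp'
      obtain ⟨h3, h4⟩ := Finset.mem_filter.1 hp
      rcases hD p h3 (fun h => hp' (Finset.mem_filter.2 ⟨hp, h⟩)) with h5 | h5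
      · rw [h5] at h4; exact absurd h4 (by decide)
      · exact h5
    rw [h2]
    refine (Finset.abs_sum_le_sum_abs _ _).trans ?_
    refine (Finset.sum_le_card_nsmul _ _ κ (fun p _ => hκ p)).trans ?_
    rw [nsmul_eq_mul]
    have h0 : 0 ≤ κ := (abs_nonneg _).trans (hκ (0, 0))
    refine mul_le_mul_of_nonneg_right ?_ h0
    have : (((VB x₀ x₁ y₀ y₁).filter (fun p => P p = 1)).filter (fun p => p ∈ D)).card ≤ D.card := by
      refine Finset.card_le_card ?_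
      intro p hp
      exact (Finset.mem_filter.1 hp).2
    exact_mod_cast this
  rcases z2_cases (P a.1) with h | h
  · rw [h]
    have h2 := sum_lapZ hf
    rw [← Finset.sum_filter_add_sum_filter_not _ (fun p => P p = 0)] at h2
    have h3 : (VB x₀ x₁ y₀ y₁).filter (fun p => ¬ P p = 0) =
        (VB x₀ x₁ y₀ y₁).filter (fun p => P p = 1) := by
      refine Finset.filter_congr ?_
      intro p _
      rcases z2_cases (P p) with h | h <;> rw [h] <;> decide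
    rw [h3] at h2
    have h4 : ∑ p ∈ (VB x₀ x₁ y₀ y₁).filter (fun p => P p = 0), lapZ f p =
        - ∑ p ∈ (VB x₀ x₁ y₀ y₁).filter (fun p => P p = 1), lapZ f p := by linarith
    rw [h4, abs_neg]
    exact h1
  · rw [h]
    exact h1

/-- the explicit potential -/
theorem potY_pot (hY : Y ∈ dstr ZQ (RF x₀ x₁ y₀ y₁) ω) (ha : a ∈ Y) :
    PotY (RF x₀ x₁ y₀ y₁) Y (pot x₀ y₀ (MM ω (RF x₀ x₁ y₀ y₁ : Set (ℤ × ℤ)) (te a))) := by
  intro b hb
  have h1 : (∃ c ∈ Y, te c = te b) ↔ te b ∈ MM ω (RF x₀ x₁ y₀ y₁ : Set (ℤ × ℤ)) (te a) := by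
    rw [MM_eq hY ha]
    exact Iff.rfl
  have h2 := joins_of_dE hb
  obtain ⟨h3, h4, -⟩ := dE_nbd hb
  rw [mem_VB] at h3 h4
  rw [h1]
  have h5 : InR x₀ x₁ y₀ y₁ (ua (te b)) := by
    rcases h2 with ⟨h, -⟩ | ⟨-, h⟩
    · rw [← h]; exact h3
    · rw [← h]; exact h4
  have h6 : InR x₀ x₁ y₀ y₁ (ub (te b)) := by
    rcases h2 with ⟨-, h⟩ | ⟨h, -⟩
    · rw [← h]; exact h4
    · rw [← h]; exact h3
  rw [potR_iff h5 h6]
  unfold potR
  rcases h2 with ⟨h, h'⟩ | ⟨h, h'⟩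
  · rw [h, h']
  · rw [h, h', ne_comm]

/-- outside a box which contains the strand, the potential vanishes -/
theorem pot_zero {M : Set Pool.Agent.Perc.UE} {w : ℤ × ℤ} {d : ℤ}
    (hM : ∀ f ∈ RF x₀ x₁ y₀ y₁, EvenAt M f) (hd : ∀ e ∈ M, InE w d e) (hx : x₀ < w.1 - d)
    (hy : y₀ < w.2 - d) {p : ℤ × ℤ} (hp : p ∈ VB x₀ x₁ y₀ y₁)
    (h : ¬ (w.1 - d ≤ p.1 ∧ p.1 ≤ w.1 + d ∧ w.2 - d ≤ p.2 ∧ p.2 ≤ w.2 + d)) :
    pot x₀ y₀ M p = 0 := by
  rw [mem_VB] at hp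
  obtain ⟨p1, p2⟩ := p
  simp only at hp h
  have hbase : ∀ x, pot x₀ y₀ M (x, y₀) = 0 := by
    intro x
    rw [pot_eq]
    simp only [Finset.Ico_self, Finset.sum_empty, add_zero]
    refine Finset.sum_eq_zero ?_
    intro i _
    rw [ind2_neg]
    intro hi
    have := hd _ hi
    unfold InE InR at this
    rw [ua_mk] at this
    simp only at this
    omega
  have hcol : ∀ x, ¬ (w.1 - d ≤ x ∧ x ≤ w.1 + d) → ∀ y, pot x₀ y₀ M (x, y) = 0 := by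
    intro x hx' y
    have h1 := hbase x
    rw [pot_eq] at h1 ⊢
    simp only [Finset.Ico_self, Finset.sum_empty, add_zero] at h1 ⊢
    rw [h1, zero_add]
    refine Finset.sum_eq_zero ?_
    intro j _
    rw [ind2_neg]
    intro hj
    have := hd _ hj
    unfold InE InR at this
    rw [ua_mk] at this
    simp only at this
    omega
  by_cases h1 : w.1 - d ≤ p1 ∧ p1 ≤ w.1 + d
  · by_cases h2 : p2 < w.2 - d
    · rw [pot_eq]
      have h3 := hbase p1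
      rw [pot_eq] at h3
      simp only [Finset.Ico_self, Finset.sum_empty, add_zero] at h3 ⊢
      rw [h3, zero_add]
      refine Finset.sum_eq_zero ?_
      intro j hj
      rw [Finset.mem_Ico] at hj
      rw [ind2_neg]
      intro hj'
      have := hd _ hj'
      unfold InE InR at this
      rw [ua_mk] at this
      simp only at this
      omega
    · have h3 : w.2 + d < p2 := by omega
      have key : ∀ n : ℕ, x₀ + n ≤ x₁ → pot x₀ y₀ M (x₀ + n, p2) = 0 := by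
        intro n
        induction n with
        | zero =>
          intro _
          exact hcol _ (by push_cast; omega) _
        | succ n ih =>
          intro hn
          push_cast at hn
          have h4 := pot_hor (x₁ := x₁) (y₁ := y₁) hM (x := x₀ + n) (by omega) (by omega)
            (y := p2) (by omega) (by omega)
          rw [ih (by omega), ind2_neg, add_zero] at h4
          · rw [show x₀ + ((n + 1 : ℕ) : ℤ) = x₀ + n + 1 by push_cast; ring]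
            exact h4
          · intro hj'
            have := hd _ hj'
            unfold InE InR at this
            rw [ua_mk] at this
            simp only at this
            omega
      have h5 := key (p1 - x₀).toNat (by rw [Int.toNat_of_nonneg (by omega)]; omega)
      rw [Int.toNat_of_nonneg (by omega), show x₀ + (p1 - x₀) = p1 by ring] at h5
      exact h5
  · exact hcol p1 h1 p2

end

end Pool.Agent.SixB.Op
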