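import Pool.Agent.Lib.SixB.AN10b
import Pool.Agent.Lib.SixB.S3OpBoxB

/-!
# 6BD, U3: heights and insertions in a rectangle

`m` = an increment function on the directed sides of the faces of a rectangle `RF x₀ x₁ y₀ y₁` of the plane
(mean arrows of an environment, divided by `i`): antisymmetric (`m a.swap = - m a`) and with the ice rule.

* `exists_pot`: there is a height `V` with `V a.1 - V a.2 = m a` on all sides; `pot_unique`: unique up to a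
  constant;
* `EP R`: one direction of every side of `R`;
* `sum_form`: `∑ a ∈ EP R, (f a.2 - f a.1) * (V a.1 - V a.2) = ∑' v, f v * lapZ V v` for `f` inside;
* `lap_of_null`: if the insertion `∑ a ∈ EP R, (f a.2 - f a.1) * zs a`, divided by `z`, tends to `0` and
  `zs a / z = i m a`, then the heights satisfy premise (a) of `DC.harm_of_opened`.
-/

set_option autoImplicit false
set_option linter.unusedSectionVars false

namespace Pool.Agent.SixB.Ins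

open Pool.Agent.Perc.Q Pool.Agent.Perc Pool.Agent.SixB.Op Filter Topology

noncomputable section

variable {x₀ x₁ y₀ y₁ : ℤ} {m : (ℤ × ℤ) × (ℤ × ℤ) → ℝ} {f V : ℤ × ℤ → ℝ}

/-! ## The sides of a rectangle -/

theorem sum4 {M : Type} [AddCommMonoid M] (g : ZMod 4 → M) :
    ∑ k : ZMod 4, g k = g 0 + g 1 + g 2 + g 3 := by
  exact Fin.sum_univ_four (fun k : Fin 4 => g k)

theorem sd0 (x y : ℤ) : sd ZQ (x, y) 0 = ((x, y), (x + 1, y)) := rfl
theorem sd1 (x y : ℤ) : sd ZQ (x, y) 1 = ((x + 1, y), (x + 1, y + 1)) := rfl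
theorem sd2 (x y : ℤ) : sd ZQ (x, y) 2 = ((x + 1, y + 1), (x, y + 1)) := rfl
theorem sd3 (x y : ℤ) : sd ZQ (x, y) 3 = ((x, y + 1), (x, y)) := rfl

theorem mem_RF {g : ℤ × ℤ} : g ∈ RF x₀ x₁ y₀ y₁ ↔ (x₀ ≤ g.1 ∧ g.1 < x₁) ∧ y₀ ≤ g.2 ∧ g.2 < y₁ := by
  unfold RF
  rw [Finset.mem_product, Finset.mem_Ico, Finset.mem_Ico]

/-- horizontal side -/
theorem hor_mem {x y : ℤ} (h1 : x₀ ≤ x) (h2 : x < x₁) (h3 : y₀ ≤ y) (h4 : y ≤ y₁) (h5 : y₀ < y₁) :
    ((x, y), (x + 1, y)) ∈ dE ZQ (RF x₀ x₁ y₀ y₁) := by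
  rcases h4.lt_or_eq with h | h
  · exact mem_dE.mpr ⟨(x, y), mem_RF.mpr ⟨⟨h1, h2⟩, h3, h⟩, 0, Or.inl (sd0 x y).symm⟩
  · refine mem_dE.mpr ⟨(x, y - 1), mem_RF.mpr ⟨⟨h1, h2⟩, by simp only; omega, by simp only; omega⟩, 2,
      Or.inr ?_⟩
    rw [sd2, sub_add_cancel]
    rfl

/-- vertical side -/
theorem ver_mem {x y : ℤ} (h1 : x₀ ≤ x) (h2 : x ≤ x₁) (h3 : y₀ ≤ y) (h4 : y < y₁) (h5 : x₀ < x₁) :
    ((x, y), (x, y + 1)) ∈ dE ZQ (RF x₀ x₁ y₀ y₁) := by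
  rcases h2.lt_or_eq with h | h
  · refine mem_dE.mpr ⟨(x, y), mem_RF.mpr ⟨⟨h1, h⟩, h3, h4⟩, 3, Or.inr ?_⟩
    rw [sd3]
    rfl
  · refine mem_dE.mpr ⟨(x - 1, y), mem_RF.mpr ⟨⟨by simp only; omega, by simp only; omega⟩, h3, h4⟩, 1,
      Or.inl ?_⟩
    rw [sd1, sub_add_cancel]

/-! ## The potential -/

/-- the sum of `m` along the path first to the right along the lower side, then up -/
def potf (m : (ℤ × ℤ) × (ℤ × ℤ) → ℝ) (x₀ y₀ : ℤ) (v : ℤ × ℤ) : ℝ :=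
  ∑ i ∈ Finset.range (v.1 - x₀).toNat, m ((x₀ + i + 1, y₀), (x₀ + i, y₀)) +
    ∑ j ∈ Finset.range (v.2 - y₀).toNat, m ((v.1, y₀ + j + 1), (v.1, y₀ + j))

theorem toNat_succ {x y : ℤ} (h : x ≤ y) : (y + 1 - x).toNat = (y - x).toNat + 1 := by omega

theorem potf_ver {x y : ℤ} (h : y₀ ≤ y) :
    potf m x₀ y₀ (x, y + 1) - potf m x₀ y₀ (x, y) = m ((x, y + 1), (x, y)) := by
  unfold potf
  simp only
  rw [toNat_succ h, Finset.sum_range_succ]
  have h1 : y₀ + (((y - y₀).toNat : ℕ) : ℤ) = y := by omega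
  rw [h1]
  ring

theorem potf_hor (hs : ∀ a ∈ dE ZQ (RF x₀ x₁ y₀ y₁), m a.swap = -m a)
    (hi : ∀ g ∈ RF x₀ x₁ y₀ y₁, ∑ k : ZMod 4, m (sd ZQ g k) = 0) {x : ℤ} (h1 : x₀ ≤ x) (h2 : x < x₁)
    (n : ℕ) (hn : y₀ + n ≤ y₁) (hy : y₀ < y₁) :
    potf m x₀ y₀ (x + 1, y₀ + n) - potf m x₀ y₀ (x, y₀ + n) = m ((x + 1, y₀ + n), (x, y₀ + n)) := by
  induction n with
  | zero =>
    unfold potf
    simp only [Nat.cast_zero, add_zero, sub_self, Int.toNat_zero, Finset.range_zero, Finset.sum_empty]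
    rw [toNat_succ h1, Finset.sum_range_succ]
    have h3 : x₀ + (((x - x₀).toNat : ℕ) : ℤ) = x := by omega
    rw [h3]
    ring
  | succ n ih =>
    have ih' := ih (by push_cast at hn; omega)
    have e1 := potf_ver (m := m) (x₀ := x₀) (y₀ := y₀) (x := x + 1) (y := y₀ + n) (by omega)
    have e2 := potf_ver (m := m) (x₀ := x₀) (y₀ := y₀) (x := x) (y := y₀ + n) (by omega)
    have hg : ((x, y₀ + n) : ℤ × ℤ) ∈ RF x₀ x₁ y₀ y₁ :=
      mem_RF.mpr ⟨⟨h1, h2⟩, by simp only; omega, by simp only; push_cast at hn; omega⟩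
    have e3 := hi _ hg
    rw [sum4, sd0, sd1, sd2, sd3] at e3
    have s0 := hs ((x, y₀ + n), (x + 1, y₀ + n)) (hor_mem h1 h2 (by omega) (by push_cast at hn; omega) hy)
    have s1 := hs ((x + 1, y₀ + n), (x + 1, y₀ + n + 1))
      (ver_mem (by omega) (by omega) (by omega) (by push_cast at hn; omega) (by omega))
    simp only [Prod.swap_prod_mk] at s0 s1
    have c1 : y₀ + ((n + 1 : ℕ) : ℤ) = y₀ + n + 1 := by push_cast; ring
    rw [c1]
    linarith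

/-- **Existence of the height.** -/
theorem exists_pot (hs : ∀ a ∈ dE ZQ (RF x₀ x₁ y₀ y₁), m a.swap = -m a)
    (hi : ∀ g ∈ RF x₀ x₁ y₀ y₁, ∑ k : ZMod 4, m (sd ZQ g k) = 0) :
    ∃ V : ℤ × ℤ → ℝ, ∀ a ∈ dE ZQ (RF x₀ x₁ y₀ y₁), V a.1 - V a.2 = m a := by
  refine ⟨potf m x₀ y₀, ?_⟩
  have key : ∀ g ∈ RF x₀ x₁ y₀ y₁, ∀ k : ZMod 4,
      potf m x₀ y₀ (sd ZQ g k).1 - potf m x₀ y₀ (sd ZQ g k).2 = m (sd ZQ g k) := by
    rintro ⟨x, y⟩ hg k
    obtain ⟨⟨h1, h2⟩, h3, h4⟩ := mem_RF.mp hg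
    simp only at h1 h2 h3 h4
    have hsd := fun k : ZMod 4 => hs (sd ZQ (x, y) k) (mem_dE.mpr ⟨_, hg, k, Or.inl rfl⟩)
    have hy : y₀ < y₁ := by omega
    obtain ⟨n, hn⟩ : ∃ n : ℕ, y = y₀ + n := ⟨(y - y₀).toNat, by omega⟩
    have v1 := potf_ver (m := m) (x₀ := x₀) (y₀ := y₀) (x := x + 1) (y := y) h3
    have v0 := potf_ver (m := m) (x₀ := x₀) (y₀ := y₀) (x := x) (y := y) h3
    have w0 := potf_hor hs hi h1 h2 n (by omega) hy
    have w1 := potf_hor hs hi h1 h2 (n + 1) (by push_cast; omega) hy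
    have c1 : y₀ + ((n + 1 : ℕ) : ℤ) = y + 1 := by push_cast; omega
    rw [← hn] at w0
    rw [c1] at w1
    have t0 := hsd 0
    have t1 := hsd 1
    rw [sd0] at t0
    rw [sd1] at t1
    simp only [Prod.swap_prod_mk] at t0 t1
    fin_cases k
    · change potf m x₀ y₀ (sd ZQ (x, y) 0).1 - potf m x₀ y₀ (sd ZQ (x, y) 0).2 = m (sd ZQ (x, y) 0)
      rw [sd0]
      simp only
      linarith
    · change potf m x₀ y₀ (sd ZQ (x, y) 1).1 - potf m x₀ y₀ (sd ZQ (x, y) 1).2 = m (sd ZQ (x, y) 1)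
      rw [sd1]
      simp only
      linarith
    · change potf m x₀ y₀ (sd ZQ (x, y) 2).1 - potf m x₀ y₀ (sd ZQ (x, y) 2).2 = m (sd ZQ (x, y) 2)
      rw [sd2]
      simp only
      linarith
    · change potf m x₀ y₀ (sd ZQ (x, y) 3).1 - potf m x₀ y₀ (sd ZQ (x, y) 3).2 = m (sd ZQ (x, y) 3)
      rw [sd3]
      simp only
      linarith
  intro a ha
  obtain ⟨g, hg, k, rfl | rfl⟩ := mem_dE.mp ha
  · exact key g hg k
  · have h1 := key g hg k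
    have h2 := hs (sd ZQ g k) (mem_dE.mpr ⟨g, hg, k, Or.inl rfl⟩)
    simp only [Prod.fst_swap, Prod.snd_swap]
    linarith

/-- two heights with the same increments differ by a constant -/
theorem pot_unique {V V' : ℤ × ℤ → ℝ} (h : ∀ a ∈ dE ZQ (RF x₀ x₁ y₀ y₁), V a.1 - V a.2 = V' a.1 - V' a.2)
    (hx : x₀ < x₁) (hy : y₀ < y₁) {v : ℤ × ℤ} (h1 : x₀ ≤ v.1) (h2 : v.1 ≤ x₁) (h3 : y₀ ≤ v.2)
    (h4 : v.2 ≤ y₁) : V v - V' v = V (x₀, y₀) - V' (x₀, y₀) := by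
  obtain ⟨x, y⟩ := v
  simp only at h1 h2 h3 h4
  have hh : ∀ n : ℕ, x₀ + n ≤ x₁ → V (x₀ + n, y₀) - V' (x₀ + n, y₀) = V (x₀, y₀) - V' (x₀, y₀) := by
    intro n
    induction n with
    | zero => intro _; simp
    | succ n ih =>
      intro hn
      have e1 := ih (by push_cast at hn; omega)
      have e2 := h _ (hor_mem (x₀ := x₀) (x₁ := x₁) (y₀ := y₀) (y₁ := y₁) (x := x₀ + n) (y := y₀)
        (by omega) (by push_cast at hn; omega) le_rfl hy.le hy)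
      simp only at e2
      have e3 : x₀ + ((n + 1 : ℕ) : ℤ) = x₀ + n + 1 := by push_cast; ring
      rw [e3]
      linarith
  have hv : ∀ n : ℕ, y₀ + n ≤ y₁ → V (x, y₀ + n) - V' (x, y₀ + n) = V (x, y₀) - V' (x, y₀) := by
    intro n
    induction n with
    | zero => intro _; simp
    | succ n ih =>
      intro hn
      have e1 := ih (by push_cast at hn; omega)
      have e2 := h _ (ver_mem (x₀ := x₀) (x₁ := x₁) (y₀ := y₀) (y₁ := y₁) (x := x) (y := y₀ + n)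
        h1 h2 (by omega) (by push_cast at hn; omega) hx)
      simp only at e2
      have e3 : y₀ + ((n + 1 : ℕ) : ℤ) = y₀ + n + 1 := by push_cast; ring
      rw [e3]
      linarith
  obtain ⟨p, hp⟩ : ∃ p : ℕ, x = x₀ + p := ⟨(x - x₀).toNat, by omega⟩
  obtain ⟨q, hq⟩ : ∃ q : ℕ, y = y₀ + q := ⟨(y - y₀).toNat, by omega⟩
  have e1 := hv q (by omega)
  have e2 := hh p (by omega)
  rw [← hq] at e1
  rw [← hp] at e2
  rw [e1, e2]

/-! ## Summation by parts -/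

/-- one direction of every side -/
def EP (R : Finset (ℤ × ℤ)) : Finset ((ℤ × ℤ) × (ℤ × ℤ)) :=
  (dE ZQ R).filter fun a => a.2 = (a.1.1 + 1, a.1.2) ∨ a.2 = (a.1.1, a.1.2 + 1)

/-- the two steps -/
def stp (b : Bool) (p : ℤ × ℤ) : ℤ × ℤ := if b then (p.1, p.2 + 1) else (p.1 + 1, p.2)

theorem stp_inj {b c : Bool} {p : ℤ × ℤ} (h : stp b p = stp c p) : b = c := by
  cases b <;> cases c <;> simp [stp] at h ⊢

theorem stp_nbd (b : Bool) (p : ℤ × ℤ) : ∃ i : Fin 4, stp b p = nbd i p := by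
  cases b
  · exact ⟨0, rfl⟩
  · exact ⟨1, rfl⟩

theorem mem_EP {R : Finset (ℤ × ℤ)} {a : (ℤ × ℤ) × (ℤ × ℤ)} :
    a ∈ EP R ↔ a ∈ dE ZQ R ∧ ∃ b, a.2 = stp b a.1 := by
  unfold EP
  rw [Finset.mem_filter]
  refine and_congr_right fun _ => ?_
  constructor
  · rintro (h | h)
    · exact ⟨false, h⟩
    · exact ⟨true, h⟩
  · rintro ⟨b, h⟩
    cases b
    · exact Or.inl h
    · exact Or.inr h

/-- sums over the sides of the rectangle as sums over vertices -/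
theorem sum_EP {M : Type} [AddCommMonoid M] (g : (ℤ × ℤ) × (ℤ × ℤ) → M)
    (hg : ∀ a : (ℤ × ℤ) × (ℤ × ℤ), ¬ (x₀ < a.1.1 ∧ a.1.1 < x₁ ∧ y₀ < a.1.2 ∧ a.1.2 < y₁) →
      (∃ b, a.2 = stp b a.1) → g a = 0) :
    ∑ a ∈ EP (RF x₀ x₁ y₀ y₁), g a = ∑ p ∈ VB x₀ x₁ y₀ y₁, (g (p, stp false p) + g (p, stp true p)) := by
  have h1 : ∑ p ∈ VB x₀ x₁ y₀ y₁, (g (p, stp false p) + g (p, stp true p)) =
      ∑ x ∈ (VB x₀ x₁ y₀ y₁) ×ˢ (Finset.univ : Finset Bool), g (x.1, stp x.2 x.1) := by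
    rw [Finset.sum_product]
    refine Finset.sum_congr rfl fun p _ => ?_
    rw [Fintype.sum_bool, add_comm]
  have h2 : ∑ x ∈ (VB x₀ x₁ y₀ y₁) ×ˢ (Finset.univ : Finset Bool), g (x.1, stp x.2 x.1) =
      ∑ a ∈ ((VB x₀ x₁ y₀ y₁) ×ˢ (Finset.univ : Finset Bool)).image (fun x => (x.1, stp x.2 x.1)), g a := by
    rw [Finset.sum_image]
    rintro ⟨p, i⟩ _ ⟨q, j⟩ _ h
    simp only [Prod.mk.injEq] at h ⊢
    obtain ⟨rfl, h⟩ := h
    exact ⟨rfl, stp_inj h⟩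
  rw [h1, h2]
  refine Finset.sum_subset ?_ ?_
  · intro a ha
    obtain ⟨h3, b, h4⟩ := mem_EP.mp ha
    rw [Finset.mem_image]
    refine ⟨(a.1, b), ?_, ?_⟩
    · rw [Finset.mem_product]
      exact ⟨(dE_nbd h3).1, Finset.mem_univ _⟩
    · rw [← h4]
  · intro a ha h
    obtain ⟨⟨p, b⟩, hx, rfl⟩ := Finset.mem_image.1 ha
    by_cases hp : x₀ < p.1 ∧ p.1 < x₁ ∧ y₀ < p.2 ∧ p.2 < y₁
    · obtain ⟨i, hi⟩ := stp_nbd b p
      exact absurd (mem_EP.mpr ⟨by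
        have := nbd_dE (x₀ := x₀) (x₁ := x₁) (y₀ := y₀) (y₁ := y₁) hp i
        rw [← hi] at this
        exact this, b, rfl⟩) h
    · exact hg _ hp ⟨b, rfl⟩

theorem inside_stp (hf : Inside x₀ x₁ y₀ y₁ f) {p : ℤ × ℤ}
    (h : ¬ (x₀ < p.1 ∧ p.1 < x₁ ∧ y₀ < p.2 ∧ p.2 < y₁)) (b : Bool) : f (stp b p) = 0 ∧ f p = 0 := by
  obtain ⟨i, hi⟩ := stp_nbd b p
  rw [hi]
  exact inside_nbd hf h i

/-- **Summation by parts**: the gradient of `f` against the increments of `V`. -/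
theorem sum_form (hf : Inside x₀ x₁ y₀ y₁ f) (V : ℤ × ℤ → ℝ) :
    ∑ a ∈ EP (RF x₀ x₁ y₀ y₁), (f a.2 - f a.1) * (V a.1 - V a.2) = ∑' v, f v * DC.lapZ V v := by
  rw [sum_EP (fun a => (f a.2 - f a.1) * (V a.1 - V a.2)) (by
    rintro a h ⟨b, hb⟩
    obtain ⟨h1, h2⟩ := inside_stp hf h b
    simp only [hb, h1, h2, sub_zero, zero_mul])]
  have hfs : (Function.support f).Finite := by
    refine (Finset.finite_toSet (VB x₀ x₁ y₀ y₁)).subset fun p hp => ?_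
    by_contra h
    refine hp (hf p fun h1 => h ?_)
    rw [Finset.mem_coe, mem_VB]
    omega
  have hsum : ∀ d : ℤ × ℤ, Summable fun v => f v * V (v + d) := fun d =>
    summable_of_hasFiniteSupport (hfs.subset fun v hv => left_ne_zero_of_mul hv)
  have hsum' : ∀ d e : ℤ × ℤ, Summable fun v => f (v + e) * V (v + d) := fun d e => by
    refine summable_of_hasFiniteSupport ((hfs.image (fun v => v - e)).subset fun v hv => ?_)
    exact ⟨v + e, left_ne_zero_of_mul hv, by simp⟩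
  have hsh : ∀ d e : ℤ × ℤ, ∑' v, f (v + e) * V (v + d) = ∑' v, f v * V (v + (d - e)) := by
    intro d e
    rw [← (Equiv.addRight (-e)).tsum_eq]
    refine tsum_congr fun v => ?_
    rw [Equiv.coe_addRight, neg_add_cancel_right, sub_eq_add_neg, add_comm d, add_assoc]
  have h1 : ∑ p ∈ VB x₀ x₁ y₀ y₁, ((f (stp false p) - f p) * (V p - V (stp false p)) +
      (f (stp true p) - f p) * (V p - V (stp true p))) =
      ∑' p, ((f (stp false p) - f p) * (V p - V (stp false p)) +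
      (f (stp true p) - f p) * (V p - V (stp true p))) := by
    rw [tsum_eq_sum]
    intro p hp
    have hp' : ¬ (x₀ < p.1 ∧ p.1 < x₁ ∧ y₀ < p.2 ∧ p.2 < y₁) := fun h => hp (mem_VB.mpr (by omega))
    obtain ⟨h1, h2⟩ := inside_stp hf hp' false
    obtain ⟨h3, -⟩ := inside_stp hf hp' true
    rw [h1, h2, h3]
    ring
  rw [h1]
  have e1 : ∀ p : ℤ × ℤ, stp false p = p + (1, 0) := fun p => by simp [stp, Prod.ext_iff]
  have e2 : ∀ p : ℤ × ℤ, stp true p = p + (0, 1) := fun p => by simp [stp, Prod.ext_iff]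
  have g1 : ∀ e : ℤ × ℤ, ∑' p, (f (p + e) - f p) * (V p - V (p + e)) =
      ∑' p, (f p * V (p + e) + f p * V (p + -e) - 2 * (f p * V p)) := by
    intro e
    have t1 : ∀ p, (f (p + e) - f p) * (V p - V (p + e)) =
        (f (p + e) * V (p + 0) + f p * V (p + e)) - (f (p + e) * V (p + e) + f p * V (p + 0)) := by
      intro p
      rw [add_zero]
      ring
    have t2 : ∀ p, f p * V (p + e) + f p * V (p + -e) - 2 * (f p * V p) =
        (f p * V (p + (0 - e)) + f p * V (p + e)) - (f p * V (p + (e - e)) + f p * V (p + 0)) := by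
      intro p
      rw [zero_sub, sub_self, add_zero]
      ring
    rw [tsum_congr t1, tsum_congr t2]
    rw [((hsum' 0 e).add (hsum e)).tsum_sub ((hsum' e e).add (hsum 0)),
      (hsum' 0 e).tsum_add (hsum e), (hsum' e e).tsum_add (hsum 0), hsh, hsh,
      ((hsum (0 - e)).add (hsum e)).tsum_sub ((hsum (e - e)).add (hsum 0)),
      (hsum (0 - e)).tsum_add (hsum e), (hsum (e - e)).tsum_add (hsum 0)]
  have hS : ∀ e : ℤ × ℤ, Summable fun p => (f (p + e) - f p) * (V p - V (p + e)) := by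
    intro e
    have := (((hsum' 0 e).add (hsum e)).sub ((hsum' e e).add (hsum 0)))
    refine this.congr fun p => ?_
    rw [add_zero]
    ring
  have hT : ∀ e : ℤ × ℤ, Summable fun p => f p * V (p + e) + f p * V (p + -e) - 2 * (f p * V p) := by
    intro e
    have := ((hsum e).add (hsum (-e))).sub ((hsum 0).mul_left 2)
    refine this.congr fun p => ?_
    rw [add_zero]
  simp only [e1, e2]
  rw [(hS (1, 0)).tsum_add (hS (0, 1)), g1, g1, ← (hT (1, 0)).tsum_add (hT (0, 1))]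
  refine tsum_congr fun p => ?_
  unfold DC.lapZ
  have a1 : p + (1, 0) = (p.1 + 1, p.2) := by simp [Prod.ext_iff]
  have a2 : p + -(1, 0) = (p.1 - 1, p.2) := by simp [Prod.ext_iff, sub_eq_add_neg]
  have a3 : p + (0, 1) = (p.1, p.2 + 1) := by simp [Prod.ext_iff]
  have a4 : p + -(0, 1) = (p.1, p.2 - 1) := by simp [Prod.ext_iff, sub_eq_add_neg]
  rw [a1, a2, a3, a4]
  ring

/-! ## The form of an insertion -/

/-- the insertion of the smeared Laplacian of the height: `zs a` = value with the sign of `a` inserted -/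
def zJ (x₀ x₁ y₀ y₁ : ℤ) (f : ℤ × ℤ → ℝ) (zs : (ℤ × ℤ) × (ℤ × ℤ) → ℂ) : ℂ :=
  ∑ a ∈ EP (RF x₀ x₁ y₀ y₁), ((f a.2 - f a.1 : ℝ) : ℂ) * zs a

/-- **The insertion is `i` times the smeared Laplacian of the height.** -/
theorem zJ_eq (hf : Inside x₀ x₁ y₀ y₁ f) {zs : (ℤ × ℤ) × (ℤ × ℤ) → ℂ} {z : ℂ}
    {V : ℤ × ℤ → ℝ}
    (h : ∀ a ∈ dE ZQ (RF x₀ x₁ y₀ y₁), zs a / z = ((V a.1 - V a.2 : ℝ) : ℂ) * Complex.I) :
    zJ x₀ x₁ y₀ y₁ f zs / z = ((∑' v, f v * DC.lapZ V v : ℝ) : ℂ) * Complex.I := by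
  rw [← sum_form hf V]
  unfold zJ
  push_cast
  rw [Finset.sum_div, Finset.sum_mul]
  refine Finset.sum_congr rfl fun a ha => ?_
  have h1 := h a (mem_EP.mp ha).1
  rw [mul_div_assoc, h1]
  push_cast
  ring

/-- **Premise (a).** -/
theorem lap_of_null {ι : Type*} {l : Filter ι} {X₀ X₁ Y₀ Y₁ : ι → ℤ} {f : ι → ℤ × ℤ → ℝ}
    (hf : ∀ᶠ i in l, Inside (X₀ i) (X₁ i) (Y₀ i) (Y₁ i) (f i)) {zs : ι → (ℤ × ℤ) × (ℤ × ℤ) → ℂ}
    {z : ι → ℂ} {V : ι → ℤ × ℤ → ℝ}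
    (h : ∀ᶠ i in l, ∀ a ∈ dE ZQ (RF (X₀ i) (X₁ i) (Y₀ i) (Y₁ i)),
      zs i a / z i = ((V i a.1 - V i a.2 : ℝ) : ℂ) * Complex.I)
    (h0 : Tendsto (fun i => zJ (X₀ i) (X₁ i) (Y₀ i) (Y₁ i) (f i) (zs i) / z i) l (𝓝 0)) :
    Tendsto (fun i => ∑' v, f i v * DC.lapZ (V i) v) l (𝓝 0) := by
  have h1 : Tendsto (fun i => (zJ (X₀ i) (X₁ i) (Y₀ i) (Y₁ i) (f i) (zs i) / z i).im) l (𝓝 0) := by
    have := (Complex.continuous_im.tendsto 0).comp h0
    rw [Complex.zero_im] at this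
    exact this
  refine h1.congr' ?_
  filter_upwards [hf, h] with i hi1 hi3
  rw [zJ_eq hi1 hi3]
  simp

end

end Pool.Agent.SixB.Ins
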