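import Pool.Agent.Lib.SixB.S0Str

/-!
# 6BD step 0: turning of a directed strand and insertion of arrow signs (every complex of quadrangles)

* `trn Q F ω a`: turning of the directed strand of `a` in quarter turns; `trn_swap : trn a.swap = - trn a`.
* `sgE e`: the weight `-1` on `e.swap`, `1` elsewhere (the sign of the arrow at `e`).
* `gsg Q F ω h e e'`: `Zs (h * sgE e * sgE e') = gsg * Zs h` for weights with nonzero strand sums.
-/

set_option autoImplicit false
set_option linter.unusedSectionVars false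

namespace Pool.Agent.SixB

open Pool.Agent.Perc.Q Relation

noncomputable section

variable {V Φ : Type} [DecidableEq V] [DecidableEq Φ]
variable {Q : QC V Φ} {F : Finset Φ} {ω : Φ → Bool} {a b e e' : V × V}

/-! ## Turning -/

theorem qt_of_sd {f : Φ} (hf : f ∈ F) (k : ZMod 4) : qt Q F ω (sd Q f k) = qk (ω f) k := by
  unfold qt
  rw [Finset.sum_eq_single f, Finset.sum_eq_single k, if_pos rfl]
  · intro k' _ hk'
    rw [if_neg]
    intro h
    exact hk' (Q.inj (Prod.mk.inj h).1 (Prod.mk.inj h).2).2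
  · intro h
    exact absurd (Finset.mem_univ k) h
  · intro f' _ hf'
    refine Finset.sum_eq_zero fun k' _ => ?_
    rw [if_neg]
    intro h
    exact hf' (Q.inj (Prod.mk.inj h).1 (Prod.mk.inj h).2).1
  · intro h
    exact absurd hf h

theorem qt_eq_zero (h : Ter Q (F : Set Φ) a) : qt Q F ω a = 0 := by
  unfold qt
  refine Finset.sum_eq_zero fun f hf => Finset.sum_eq_zero fun k _ => ?_
  rw [if_neg]
  intro h'
  exact h f (by exact_mod_cast hf) k h'.symm

/-- a directed edge which is not terminal has a successor -/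
theorem exists_nx (h : ¬ Ter Q (F : Set Φ) a) : ∃ b, Nx Q ω (F : Set Φ) a b := by
  unfold Ter at h
  push Not at h
  obtain ⟨f, hf, k, rfl⟩ := h
  rcases Bool.eq_or_eq_not (ω f) (ev k) with h | h
  · exact ⟨_, Nx.mk_left hf h⟩
  · exact ⟨_, Nx.mk_right hf h⟩

theorem Nx.not_ter (h : Nx Q ω (F : Set Φ) a b) : ¬ Ter Q (F : Set Φ) a := by
  obtain ⟨f, hf, k, rfl, -⟩ := h
  exact fun hh => hh f hf k rfl

/-- the reversed step has the opposite quarter turn -/
theorem qt_step (h : Nx Q ω (F : Set Φ) a b) : qt Q F ω b.swap = -qt Q F ω a := by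
  obtain ⟨f, hf, k, rfl, ⟨h1, rfl⟩ | ⟨h1, rfl⟩⟩ := h
  · have hf' : f ∈ F := by exact_mod_cast hf
    have e1 : (Q.c f (k + 2), Q.c f (k + 1)).swap = sd Q f (k + 1) := by
      unfold sd; rw [z1]; rfl
    rw [e1, qt_of_sd hf']
    change qk (ω f) (k + 1) = -qt Q F ω (sd Q f k)
    rw [qt_of_sd hf']
    unfold qk
    rw [ev_add_one, h1]
    cases ev k <;> rfl
  · have hf' : f ∈ F := by exact_mod_cast hf
    have e1 : (Q.c f k, Q.c f (k + 3)).swap = sd Q f (k + 3) := by
      unfold sd; rw [z5]; rfl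
    rw [e1, qt_of_sd hf']
    change qk (ω f) (k + 3) = -qt Q F ω (sd Q f k)
    rw [qt_of_sd hf']
    unfold qk
    rw [ev_add_three, h1]
    cases ev k <;> rfl

/-- turning of the directed strand of `a` -/
def trn (Q : QC V Φ) (F : Finset Φ) (ω : Φ → Bool) (a : V × V) : ℤ :=
  ∑ b ∈ dst Q F ω a, qt Q F ω b

theorem trn_eq (h : SRel Q F ω a b) : trn Q F ω a = trn Q F ω b := by
  unfold trn
  rw [dst_eq h]

theorem trn_swap : trn Q F ω a.swap = -trn Q F ω a := by
  classical
  unfold trn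
  rw [← rv_dst, rv, Finset.sum_image Prod.swap_injective.injOn, ← Finset.sum_neg_distrib]
  set X := dst Q F ω a with hX
  have hcl : ∀ b c, b ∈ X → SRel Q F ω b c → c ∈ dE Q F → c ∈ X := by
    intro b c hb hbc hc
    exact mem_dst.mpr ⟨hc, EqvGen.trans _ _ _ (mem_dst.mp hb).2 hbc⟩
  have h1 : ∑ b ∈ X.filter (fun b => ¬ Ter Q (F : Set Φ) b.swap), qt Q F ω b.swap =
      ∑ b ∈ X, qt Q F ω b.swap := by
    refine Finset.sum_subset (Finset.filter_subset _ _) fun b hb hb' => ?_
    apply qt_eq_zero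
    by_contra hh
    exact hb' (Finset.mem_filter.mpr ⟨hb, hh⟩)
  have h2 : ∑ b ∈ X.filter (fun b => ¬ Ter Q (F : Set Φ) b), -qt Q F ω b =
      ∑ b ∈ X, -qt Q F ω b := by
    refine Finset.sum_subset (Finset.filter_subset _ _) fun b hb hb' => ?_
    rw [qt_eq_zero, neg_zero]
    by_contra hh
    exact hb' (Finset.mem_filter.mpr ⟨hb, hh⟩)
  rw [← h1, ← h2]
  symm
  have hex : ∀ b, ¬ Ter Q (F : Set Φ) b → ∃ c, Nx Q ω (F : Set Φ) b c := fun b hb => exists_nx hb
  choose! n hn using hex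
  refine Finset.sum_bij (fun b _ => n b) ?_ ?_ ?_ ?_
  · intro b hb
    obtain ⟨h3, h4⟩ := Finset.mem_filter.mp hb
    have h5 := hn b h4
    refine Finset.mem_filter.mpr ⟨hcl b _ h3 (EqvGen.rel _ _ h5) (Nx.right_mem h5), ?_⟩
    exact Nx.not_ter h5.rev
  · intro b hb c hc hbc
    obtain ⟨-, h4⟩ := Finset.mem_filter.mp hb
    obtain ⟨-, h5⟩ := Finset.mem_filter.mp hc
    have h6 := hn b h4
    rw [hbc] at h6
    exact h6.inj (hn c h5)
  · intro c hc
    obtain ⟨h3, h4⟩ := Finset.mem_filter.mp hc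
    obtain ⟨b, hb⟩ := exists_nx (ω := ω) h4
    have hb' : Nx Q ω (F : Set Φ) b.swap c := by
      have := hb.rev
      rwa [Prod.swap_swap] at this
    have hnt := Nx.not_ter hb'
    refine ⟨b.swap, Finset.mem_filter.mpr ⟨?_, hnt⟩, (hn _ hnt).unique hb'⟩
    exact hcl c _ h3 (EqvGen.symm _ _ (EqvGen.rel _ _ hb')) (Nx.left_mem hb')
  · intro b hb
    obtain ⟨-, h4⟩ := Finset.mem_filter.mp hb
    rw [qt_step (hn b h4)]

/-! ## Signs -/

/-- the sign of the arrow at `e`, as a weight of directed edges -/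
def sgE (e : V × V) : V × V → ℂ := fun a => if a = e.swap then -1 else 1

/-- the sign of `e` in a directed strand -/
def eps (e : V × V) (X : Finset (V × V)) : ℂ := if e.swap ∈ X then -1 else 1

theorem prod_sgE (X : Finset (V × V)) : ∏ a ∈ X, sgE e a = eps e X := by
  unfold sgE eps
  rw [Finset.prod_ite_eq']

theorem sw_mul (h g : V × V → ℂ) (X : Finset (V × V)) :
    sw Q F ω (fun a => h a * g a) X = sw Q F ω h X * ∏ a ∈ X, g a := by
  unfold sw
  rw [← Finset.prod_mul_distrib]
  exact Finset.prod_congr rfl fun a _ => by ring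

/-- the sum of the two weights of the strand of `e` -/
def swp (Q : QC V Φ) (F : Finset Φ) (ω : Φ → Bool) (h : V × V → ℂ) (e : V × V) : ℂ :=
  sw Q F ω h (dst Q F ω e) + sw Q F ω h (dst Q F ω e.swap)

/-- the difference of the two weights of the strand of `e` -/
def swm (Q : QC V Φ) (F : Finset Φ) (ω : Φ → Bool) (h : V × V → ℂ) (e : V × V) : ℂ :=
  sw Q F ω h (dst Q F ω e) - sw Q F ω h (dst Q F ω e.swap)

theorem dst_ne_swap (hQ : NoLoop Q) (he : e ∈ dE Q F) : dst Q F ω e ≠ dst Q F ω e.swap := by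
  intro h
  have := self_mem_dst (ω := ω) he
  rw [h] at this
  exact not_srel_swap hQ he (EqvGen.symm _ _ (mem_dst.mp this).2)

theorem mem_ust {U : Finset (Finset (V × V))} :
    U ∈ ust Q F ω ↔ ∃ a ∈ dE Q F, U = {dst Q F ω a, dst Q F ω a.swap} := by
  unfold ust
  rw [Finset.mem_image]
  constructor
  · rintro ⟨X, hX, rfl⟩
    obtain ⟨a, ha, rfl⟩ := mem_dstr.mp hX
    exact ⟨a, ha, by rw [rv_dst]⟩
  · rintro ⟨a, ha, rfl⟩
    exact ⟨dst Q F ω a, mem_dstr.mpr ⟨a, ha, rfl⟩, by rw [rv_dst]⟩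

/-- the undirected strand of `e` -/
def usE (Q : QC V Φ) (F : Finset Φ) (ω : Φ → Bool) (e : V × V) : Finset (Finset (V × V)) :=
  {dst Q F ω e, dst Q F ω e.swap}

theorem usE_mem (he : e ∈ dE Q F) : usE Q F ω e ∈ ust Q F ω := mem_ust.mpr ⟨e, he, rfl⟩

theorem dst_mem_usE_iff {a : V × V} (ha : a ∈ dE Q F) (he : e ∈ dE Q F) :
    dst Q F ω a ∈ usE Q F ω e ↔ usE Q F ω a = usE Q F ω e := by
  unfold usE
  rw [Finset.mem_insert, Finset.mem_singleton]
  constructor
  · rintro (h | h)
    · have h1 : SRel Q F ω e a := by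
        have := self_mem_dst (ω := ω) ha
        rw [h] at this
        exact (mem_dst.mp this).2
      rw [h, dst_eq (srel_swap h1)]
    · have h1 : SRel Q F ω e.swap a := by
        have := self_mem_dst (ω := ω) ha
        rw [h] at this
        exact (mem_dst.mp this).2
      have h2 := srel_swap h1
      rw [Prod.swap_swap] at h2
      rw [h, ← dst_eq h2, Finset.pair_comm]
  · intro h
    have : dst Q F ω a ∈ ({dst Q F ω e, dst Q F ω e.swap} : Finset (Finset (V × V))) := by
      rw [← h]; simp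
    simpa using this

theorem mem_of_usE_eq (ha : a ∈ dE Q F) (he : e ∈ dE Q F) (h : usE Q F ω a = usE Q F ω e) :
    a ∈ dst Q F ω e ∨ a.swap ∈ dst Q F ω e := by
  rw [← dst_mem_usE_iff ha he] at h
  unfold usE at h
  rw [Finset.mem_insert, Finset.mem_singleton] at h
  rcases h with h | h
  · left
    rw [← h]
    exact self_mem_dst ha
  · right
    have h1 := self_mem_dst (ω := ω) ha
    rw [h] at h1
    have h2 := srel_swap (mem_dst.mp h1).2
    rw [Prod.swap_swap] at h2
    exact mem_dst.mpr ⟨swap_mem_dE.mpr ha, h2⟩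

theorem usE_eq_of_mem (ha : a ∈ dE Q F) (he : e ∈ dE Q F)
    (h : a ∈ dst Q F ω e ∨ a.swap ∈ dst Q F ω e) : usE Q F ω a = usE Q F ω e := by
  rw [← dst_mem_usE_iff ha he]
  unfold usE
  rw [Finset.mem_insert, Finset.mem_singleton]
  rcases h with h | h
  · exact Or.inl (dst_eq (mem_dst.mp h).2).symm
  · right
    have h2 := srel_swap (mem_dst.mp h).2
    rw [Prod.swap_swap] at h2
    exact (dst_eq h2).symm

/-- strands other than the strand of `e` do not see the sign at `e` -/
theorem eps_of_notMem (he : e ∈ dE Q F) {U : Finset (Finset (V × V))} (hU : U ∈ ust Q F ω)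
    (hne : U ≠ usE Q F ω e) {X : Finset (V × V)} (hX : X ∈ U) : eps e X = 1 := by
  unfold eps
  rw [if_neg]
  intro h
  apply hne
  obtain ⟨a, ha, rfl⟩ := mem_ust.mp hU
  have key : dst Q F ω e.swap = X := by
    rw [Finset.mem_insert, Finset.mem_singleton] at hX
    rcases hX with rfl | rfl
    · exact (dst_eq (mem_dst.mp h).2).symm
    · exact (dst_eq (mem_dst.mp h).2).symm
  have h2 : usE Q F ω e.swap = usE Q F ω a := by
    rw [← dst_mem_usE_iff (swap_mem_dE.mpr he) ha, key]
    exact hX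
  have h3 : usE Q F ω e.swap = usE Q F ω e := by
    unfold usE
    rw [Prod.swap_swap, Finset.pair_comm]
  rw [← h3, h2]
  rfl

theorem eps_self (hQ : NoLoop Q) (he : e ∈ dE Q F) :
    eps e (dst Q F ω e) = 1 ∧ eps e (dst Q F ω e.swap) = -1 := by
  constructor
  · unfold eps
    rw [if_neg]
    intro h
    exact not_srel_swap hQ he (mem_dst.mp h).2
  · unfold eps
    rw [if_pos (self_mem_dst (swap_mem_dE.mpr he))]

theorem eps_of_mem (hQ : NoLoop Q) (he : e ∈ dE Q F) (h : e ∈ dst Q F ω a) :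
    eps e (dst Q F ω a) = 1 ∧ eps e (dst Q F ω a.swap) = -1 := by
  have h1 := (mem_dst.mp h).2
  rw [dst_eq h1, dst_eq (srel_swap h1)]
  exact eps_self hQ he

theorem eps_of_swap_mem (hQ : NoLoop Q) (he : e ∈ dE Q F) (h : e.swap ∈ dst Q F ω a) :
    eps e (dst Q F ω a) = -1 ∧ eps e (dst Q F ω a.swap) = 1 := by
  have h1 := (mem_dst.mp h).2
  rw [dst_eq h1, dst_eq (srel_swap h1), Prod.swap_swap]
  exact (eps_self hQ he).symm

theorem sum_usE (hQ : NoLoop Q) (he : e ∈ dE Q F) (g : Finset (V × V) → ℂ) :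
    ∑ X ∈ usE Q F ω e, g X = g (dst Q F ω e) + g (dst Q F ω e.swap) := by
  unfold usE
  rw [Finset.sum_pair (dst_ne_swap hQ he)]

open Classical in
/-- **Insertion of two signs.** -/
theorem Zs_two (hQ : NoLoop Q) (h : V × V → ℂ) (he : e ∈ dE Q F) (he' : e' ∈ dE Q F) :
    Zs Q F ω (fun a => h a * (sgE e a * sgE e' a)) =
      if e' ∈ dst Q F ω e then Zs Q F ω h
      else if e'.swap ∈ dst Q F ω e then -Zs Q F ω h
      else (∏ U ∈ ((ust Q F ω).erase (usE Q F ω e)).erase (usE Q F ω e'), ∑ X ∈ U, sw Q F ω h X) *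
        (swm Q F ω h e * swm Q F ω h e') := by
  unfold Zs
  have hsw : ∀ X, sw Q F ω (fun a => h a * (sgE e a * sgE e' a)) X =
      sw Q F ω h X * (eps e X * eps e' X) := by
    intro X
    rw [sw_mul h (fun a => sgE e a * sgE e' a), Finset.prod_mul_distrib, prod_sgE, prod_sgE]
  simp only [hsw]
  have hU := usE_mem (ω := ω) he
  have hU' := usE_mem (ω := ω) he'
  have hrest : ∀ U ∈ ust Q F ω, U ≠ usE Q F ω e → U ≠ usE Q F ω e' →
      ∑ X ∈ U, sw Q F ω h X * (eps e X * eps e' X) = ∑ X ∈ U, sw Q F ω h X := by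
    intro U hU h1 h2
    refine Finset.sum_congr rfl fun X hX => ?_
    rw [eps_of_notMem he hU h1 hX, eps_of_notMem he' hU h2 hX, mul_one, mul_one]
  by_cases h1 : e' ∈ dst Q F ω e
  · rw [if_pos h1]
    have hEq := usE_eq_of_mem he' he (Or.inl h1)
    rw [← Finset.mul_prod_erase _ _ hU, ← Finset.mul_prod_erase _ (fun U => ∑ X ∈ U, sw Q F ω h X) hU]
    congr 1
    · rw [sum_usE hQ he, sum_usE hQ he, (eps_self hQ he).1, (eps_self hQ he).2,
        (eps_of_mem hQ he' h1).1, (eps_of_mem hQ he' h1).2]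
      ring
    · refine Finset.prod_congr rfl fun U hU2 => ?_
      obtain ⟨h3, h4⟩ := Finset.mem_erase.mp hU2
      exact hrest U h4 h3 (by rw [hEq]; exact h3)
  · rw [if_neg h1]
    by_cases h2 : e'.swap ∈ dst Q F ω e
    · rw [if_pos h2]
      have hEq := usE_eq_of_mem he' he (Or.inr h2)
      rw [← Finset.mul_prod_erase _ _ hU,
        ← Finset.mul_prod_erase _ (fun U => ∑ X ∈ U, sw Q F ω h X) hU, ← neg_mul]
      congr 1
      · rw [sum_usE hQ he, sum_usE hQ he, (eps_self hQ he).1, (eps_self hQ he).2,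
          (eps_of_swap_mem hQ he' h2).1, (eps_of_swap_mem hQ he' h2).2]
        ring
      · refine Finset.prod_congr rfl fun U hU2 => ?_
        obtain ⟨h3, h4⟩ := Finset.mem_erase.mp hU2
        exact hrest U h4 h3 (by rw [hEq]; exact h3)
    · rw [if_neg h2]
      have hne : usE Q F ω e' ≠ usE Q F ω e := by
        intro h3
        rcases mem_of_usE_eq he' he h3 with h4 | h4
        · exact h1 h4
        · exact h2 h4
      have hU'' : usE Q F ω e' ∈ (ust Q F ω).erase (usE Q F ω e) := Finset.mem_erase.mpr ⟨hne, hU'⟩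
      rw [← Finset.mul_prod_erase _ _ hU, ← Finset.mul_prod_erase _ _ hU'']
      have e1 : ∑ X ∈ usE Q F ω e, sw Q F ω h X * (eps e X * eps e' X) = swm Q F ω h e := by
        rw [sum_usE hQ he, (eps_self hQ he).1, (eps_self hQ he).2,
          eps_of_notMem he' hU hne.symm (by unfold usE; simp),
          eps_of_notMem he' hU hne.symm (by unfold usE; simp)]
        unfold swm
        ring
      have e2 : ∑ X ∈ usE Q F ω e', sw Q F ω h X * (eps e X * eps e' X) = swm Q F ω h e' := by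
        rw [sum_usE hQ he', (eps_self hQ he').1, (eps_self hQ he').2,
          eps_of_notMem he hU' hne (by unfold usE; simp),
          eps_of_notMem he hU' hne (by unfold usE; simp)]
        unfold swm
        ring
      rw [e1, e2]
      have e3 : ∏ U ∈ ((ust Q F ω).erase (usE Q F ω e)).erase (usE Q F ω e'),
          ∑ X ∈ U, sw Q F ω h X * (eps e X * eps e' X) =
          ∏ U ∈ ((ust Q F ω).erase (usE Q F ω e)).erase (usE Q F ω e'), ∑ X ∈ U, sw Q F ω h X := by
        refine Finset.prod_congr rfl fun U hU2 => ?_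
        obtain ⟨h3, h4⟩ := Finset.mem_erase.mp hU2
        obtain ⟨h5, h6⟩ := Finset.mem_erase.mp h4
        exact hrest U h6 h5 h3
      rw [e3]
      ring

end

end Pool.Agent.SixB
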