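import Pool.Agent.Lib.SixB.S0Arcs
import Pool.Agent.Lib.SixB.S0Ins
import Pool.Agent.Lib.SixB.S0Av

/-!
# 6BD step 0: angles of strands, weight of a smoothing, mean arrows, derivative in the phases

Every complex of quadrangles `Q` without loops, every finite set `F` of faces, boundary phases `ψ`.
* `agl Q F ω ψ X`: angle of the directed strand `X` (boundary phases and turning); opposite for `rv X`;
  `agl (dst a) = ψ (mate a) - ψ a + turn a π / 12` for arcs;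
* `uc`: real weight of an undirected strand, `2 cos agl`; `WU Q F ψ ω = ∏ uc` weight of the smoothing;
* `WU1 Q F ψ e ω`: the weight with the strand of `e` counted by `2 sin agl` instead of `2 cos agl`;
* `Z6_bph`: `Z6 = 2 ^ |F| * av WU`; `Z6_bph_one`: with the sign of the arrow `e` inserted: `i` times
  `2 ^ |F| * av (WU1 e)`; mean arrow `uE Q F ψ e = av (WU1 e) / av WU`;
* `WU1_swap`, `uE_swap`, `WU1_ice`, `uE_ice`;
* `hasDerivAt_av_WU`: derivative of `av WU` in the phases: `∑ a ∈ bS, ψ' a * av (WU1 a)`.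
-/

set_option autoImplicit false
set_option linter.unusedSectionVars false

namespace Pool.Agent.SixB

open Pool.Agent.Perc.Q Relation

noncomputable section

variable {V Φ : Type} [DecidableEq V] [DecidableEq Φ]
variable {Q : QC V Φ} {F : Finset Φ} {ω : Φ → Bool} {a b e : V × V} {X : Finset (V × V)}
  {ψ : V × V → ℝ}

/-! ## Angles -/

open Classical in
/-- boundary phase of a directed side -/
def bre (Q : QC V Φ) (F : Finset Φ) (ψ : V × V → ℝ) (a : V × V) : ℝ :=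
  if Ini Q (F : Set Φ) a then -ψ a else if Ter Q (F : Set Φ) a then ψ a.swap else 0

theorem bph_eq (a : V × V) : bph Q F ψ a = Complex.exp ((bre Q F ψ a : ℂ) * Complex.I) := by
  unfold bph bre
  by_cases h1 : Ini Q (F : Set Φ) a
  · rw [if_pos h1, if_pos h1]
    push_cast
    rfl
  · rw [if_neg h1, if_neg h1]
    by_cases h2 : Ter Q (F : Set Φ) a
    · rw [if_pos h2, if_pos h2]
    · rw [if_neg h2, if_neg h2]
      simp

theorem bre_ini (h : Ini Q (F : Set Φ) a) : bre Q F ψ a = -ψ a := by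
  unfold bre; rw [if_pos h]

theorem bre_ter (ha : a ∈ dE Q F) (h : Ter Q (F : Set Φ) a) : bre Q F ψ a = ψ a.swap := by
  unfold bre; rw [if_neg (fun h' => not_ini_ter ha h' h), if_pos h]

theorem bre_in (h : ¬ Ini Q (F : Set Φ) a) (h' : ¬ Ter Q (F : Set Φ) a) : bre Q F ψ a = 0 := by
  unfold bre; rw [if_neg h, if_neg h']

theorem bre_swap (ha : a ∈ dE Q F) : bre Q F ψ a.swap = -bre Q F ψ a := by
  by_cases h1 : Ini Q (F : Set Φ) a
  · rw [bre_ini h1, bre_ter (swap_mem_dE.mpr ha) (ter_swap.mpr h1), Prod.swap_swap, neg_neg]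
  · by_cases h2 : Ter Q (F : Set Φ) a
    · rw [bre_ter ha h2, bre_ini (ini_swap.mpr h2)]
    · rw [bre_in h1 h2, bre_in (fun h => h2 (ini_swap.mp h)) (fun h => h1 (ter_swap.mp h)), neg_zero]

/-- angle of a directed strand -/
def agl (Q : QC V Φ) (F : Finset Φ) (ω : Φ → Bool) (ψ : V × V → ℝ) (X : Finset (V × V)) : ℝ :=
  ∑ a ∈ X, bre Q F ψ a + tX Q F ω X * (Real.pi / 12)

theorem sw_agl (X : Finset (V × V)) :
    sw Q F ω (bph Q F ψ) X = Complex.exp ((agl Q F ω ψ X : ℂ) * Complex.I) := by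
  rw [sw_eq, zeta_zpow]
  have h : ∏ a ∈ X, bph Q F ψ a =
      Complex.exp (((∑ a ∈ X, bre Q F ψ a : ℝ) : ℂ) * Complex.I) := by
    push_cast
    rw [Finset.sum_mul, Complex.exp_sum]
    exact Finset.prod_congr rfl fun a _ => bph_eq a
  rw [h, ← Complex.exp_add]
  congr 1
  unfold agl
  push_cast
  ring

theorem dstr_sub (hX : X ∈ dstr Q F ω) : X ⊆ dE Q F := by
  obtain ⟨a, -, rfl⟩ := mem_dstr.mp hX
  intro b hb
  exact (mem_dst.mp hb).1

theorem agl_rv (hX : X ∈ dstr Q F ω) : agl Q F ω ψ (rv X) = -agl Q F ω ψ X := by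
  unfold agl
  rw [tX_rv hX, rv, Finset.sum_image Prod.swap_injective.injOn,
    Finset.sum_congr rfl (fun a ha => bre_swap (ψ := ψ) (dstr_sub hX ha)), Finset.sum_neg_distrib]
  push_cast
  ring

theorem agl_dst_swap (ha : a ∈ dE Q F) : agl Q F ω ψ (dst Q F ω a.swap) = -agl Q F ω ψ (dst Q F ω a) := by
  rw [← rv_dst, agl_rv (dst_mem_dstr ha)]

theorem agl_arc (ha : a ∈ bS Q F) : agl Q F ω ψ (dst Q F ω a) =
    ψ (mate Q F ω a) - ψ a + turn Q F ω a * (Real.pi / 12) := by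
  obtain ⟨h1, h2⟩ := mem_bS.mp ha
  have h3 := lst_spec (ω := ω) h2
  have h4 := srel_lst (ω := ω) h2
  have hne : a ≠ lst Q F ω a := by
    intro h
    have := h3.2
    rw [← h] at this
    exact not_ini_ter h1 h2 this
  unfold agl turn
  congr 1
  rw [Finset.sum_eq_add a (lst Q F ω a) hne]
  · rw [bre_ini h2, bre_ter (srel_dE h4 h1) h3.2]
    unfold mate
    ring
  · rintro c hc ⟨hc1, hc2⟩
    obtain ⟨hc3, hc4⟩ := mem_dst.mp hc
    apply bre_in
    · intro h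
      exact hc1 (ini_unique h2 h hc4).symm
    · intro h
      exact hc2 (ter_uniq (ω := ω) h3.2 h (EqvGen.trans _ _ _ (EqvGen.symm _ _ h4) hc4)).symm
  · intro h; exact absurd (self_mem_dst h1) h
  · intro h; exact absurd (mem_dst.mpr ⟨srel_dE h4 h1, h4⟩) h

theorem closed_no_ter (hX : X ∈ dstr Q F ω) (h : ∀ a ∈ X, ¬ Ini Q (F : Set Φ) a) :
    ∀ a ∈ X, ¬ Ter Q (F : Set Φ) a := by
  intro a ha h2
  obtain ⟨c, hc, hc'⟩ := ini_of_ter hX ha h2
  exact h c hc hc'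

theorem closed_rv (hX : X ∈ dstr Q F ω) (h : ∀ a ∈ X, ¬ Ini Q (F : Set Φ) a) :
    ∀ a ∈ rv X, ¬ Ini Q (F : Set Φ) a := by
  intro a ha h2
  exact closed_no_ter hX h _ (mem_rv.mp ha) (ter_swap.mpr h2)

theorem agl_loop (hX : X ∈ dstr Q F ω) (h : ∀ a ∈ X, ¬ Ini Q (F : Set Φ) a) :
    agl Q F ω ψ X = tX Q F ω X * (Real.pi / 12) := by
  unfold agl
  rw [Finset.sum_eq_zero, zero_add]
  intro a ha
  exact bre_in (h a ha) (closed_no_ter hX h a ha)

/-! ## Weight of a smoothing -/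

/-- real weight of an undirected strand -/
def uc (Q : QC V Φ) (F : Finset Φ) (ω : Φ → Bool) (ψ : V × V → ℝ) (U : Finset (Finset (V × V))) : ℝ :=
  ∑ X ∈ U, Real.cos (agl Q F ω ψ X)

theorem uc_usE (hQ : NoLoop Q) (he : e ∈ dE Q F) :
    uc Q F ω ψ (usE Q F ω e) = 2 * Real.cos (agl Q F ω ψ (dst Q F ω e)) := by
  unfold uc usE
  rw [Finset.sum_pair (dst_ne_swap hQ he), agl_dst_swap he, Real.cos_neg]
  ring

theorem exp_sub_exp_neg (x : ℝ) :
    Complex.exp ((x : ℂ) * Complex.I) - Complex.exp (((-x : ℝ) : ℂ) * Complex.I) =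
      ((2 * Real.sin x : ℝ) : ℂ) * Complex.I := by
  push_cast
  rw [Complex.exp_mul_I, Complex.exp_mul_I, Complex.cos_neg, Complex.sin_neg]
  ring

theorem sum_sw (hQ : NoLoop Q) {U : Finset (Finset (V × V))} (hU : U ∈ ust Q F ω) :
    ∑ X ∈ U, sw Q F ω (bph Q F ψ) X = ((uc Q F ω ψ U : ℝ) : ℂ) := by
  obtain ⟨a, ha, rfl⟩ := mem_ust.mp hU
  have h := uc_usE (ω := ω) (ψ := ψ) hQ ha
  unfold usE at h
  rw [h, Finset.sum_pair (dst_ne_swap hQ ha), sw_agl, sw_agl, agl_dst_swap ha, exp_add_exp_neg]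

theorem swm_bph (he : e ∈ dE Q F) : swm Q F ω (bph Q F ψ) e =
    ((2 * Real.sin (agl Q F ω ψ (dst Q F ω e)) : ℝ) : ℂ) * Complex.I := by
  unfold swm
  rw [sw_agl, sw_agl, agl_dst_swap he, exp_sub_exp_neg]

/-- weight of a smoothing -/
def WU (Q : QC V Φ) (F : Finset Φ) (ψ : V × V → ℝ) (ω : Φ → Bool) : ℝ :=
  ∏ U ∈ ust Q F ω, uc Q F ω ψ U

/-- weight of a smoothing with the arrow of `e` inserted -/
def WU1 (Q : QC V Φ) (F : Finset Φ) (ψ : V × V → ℝ) (e : V × V) (ω : Φ → Bool) : ℝ :=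
  (∏ U ∈ (ust Q F ω).erase (usE Q F ω e), uc Q F ω ψ U) *
    (2 * Real.sin (agl Q F ω ψ (dst Q F ω e)))

theorem Zs_WU (hQ : NoLoop Q) : Zs Q F ω (bph Q F ψ) = ((WU Q F ψ ω : ℝ) : ℂ) := by
  unfold Zs WU
  push_cast
  exact Finset.prod_congr rfl fun U hU => sum_sw hQ hU

/-- **Insertion of one sign.** -/
theorem Zs_one (hQ : NoLoop Q) (h : V × V → ℂ) (he : e ∈ dE Q F) :
    Zs Q F ω (fun a => h a * sgE e a) =
      (∏ U ∈ (ust Q F ω).erase (usE Q F ω e), ∑ X ∈ U, sw Q F ω h X) * swm Q F ω h e := by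
  unfold Zs
  have hsw : ∀ X, sw Q F ω (fun a => h a * sgE e a) X = sw Q F ω h X * eps e X := by
    intro X
    rw [sw_mul h (sgE e), prod_sgE]
  simp only [hsw]
  have hU := usE_mem (ω := ω) he
  rw [← Finset.mul_prod_erase _ _ hU, mul_comm]
  congr 1
  · refine Finset.prod_congr rfl fun U hU2 => ?_
    obtain ⟨h3, h4⟩ := Finset.mem_erase.mp hU2
    refine Finset.sum_congr rfl fun X hX => ?_
    rw [eps_of_notMem he h4 h3 hX, mul_one]
  · rw [sum_usE hQ he, (eps_self hQ he).1, (eps_self hQ he).2]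
    unfold swm
    ring

theorem Zs_WU1 (hQ : NoLoop Q) (he : e ∈ dE Q F) :
    Zs Q F ω (fun a => bph Q F ψ a * sgE e a) = ((WU1 Q F ψ e ω : ℝ) : ℂ) * Complex.I := by
  rw [Zs_one hQ _ he, swm_bph he]
  unfold WU1
  push_cast
  rw [← mul_assoc]
  congr 2
  exact Finset.prod_congr rfl fun U hU => sum_sw hQ (Finset.mem_erase.mp hU).2

theorem WU_eq (he : e ∈ dE Q F) : WU Q F ψ ω =
    (∏ U ∈ (ust Q F ω).erase (usE Q F ω e), uc Q F ω ψ U) * uc Q F ω ψ (usE Q F ω e) := by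
  unfold WU
  rw [← Finset.mul_prod_erase _ _ (usE_mem (ω := ω) he), mul_comm]

/-- the tangent form -/
theorem WU1_tan (hQ : NoLoop Q) (he : e ∈ dE Q F)
    (hc : Real.cos (agl Q F ω ψ (dst Q F ω e)) ≠ 0) :
    WU1 Q F ψ e ω = WU Q F ψ ω * Real.tan (agl Q F ω ψ (dst Q F ω e)) := by
  rw [WU_eq he, uc_usE hQ he, Real.tan_eq_sin_div_cos]
  unfold WU1
  field_simp

theorem usE_swap (e : V × V) : usE Q F ω e.swap = usE Q F ω e := by
  unfold usE
  rw [Prod.swap_swap, Finset.pair_comm]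

theorem WU1_swap (he : e ∈ dE Q F) : WU1 Q F ψ e.swap ω = -WU1 Q F ψ e ω := by
  unfold WU1
  rw [usE_swap, agl_dst_swap he, Real.sin_neg]
  ring

theorem WU1_srel (h : SRel Q F ω a b) : WU1 Q F ψ a ω = WU1 Q F ψ b ω := by
  unfold WU1 usE
  rw [dst_eq h, dst_eq (srel_swap h)]

/-- the ice rule, for every smoothing -/
theorem WU1_ice {f : Φ} (hf : f ∈ F) : ∑ k : ZMod 4, WU1 Q F ψ (sd Q f k) ω = 0 := by
  have hinv : Function.Involutive (mt (ω f)) := mt_mt (ω f)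
  have h1 : ∑ k : ZMod 4, WU1 Q F ψ (sd Q f k) ω = ∑ k : ZMod 4, WU1 Q F ψ (sd Q f (mt (ω f) k)) ω := by
    rw [← Equiv.sum_comp hinv.toPerm]
    rfl
  have h2 : ∑ k : ZMod 4, WU1 Q F ψ (sd Q f (mt (ω f) k)) ω = -∑ k : ZMod 4, WU1 Q F ψ (sd Q f k) ω := by
    rw [← Finset.sum_neg_distrib]
    refine Finset.sum_congr rfl fun k _ => ?_
    have h3 := WU1_swap (Q := Q) (F := F) (ψ := ψ) (ω := ω) (sd_mem hf (mt (ω f) k))
    rw [← WU1_srel (EqvGen.rel _ _ (nx_mt hf k))] at h3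
    linarith
  linarith

/-! ## Averages -/

/-- the partition function -/
theorem Z6_bph (hQ : NoLoop Q) :
    Z6 Q F (bph Q F ψ) = ((2 ^ F.card * av F (WU Q F ψ) : ℝ) : ℂ) := by
  rw [Z6_eq hQ]
  unfold av
  rw [mul_div_cancel₀ _ (by positivity)]
  push_cast
  exact Finset.sum_congr rfl fun T _ => Zs_WU hQ

/-- the arrow sum with the sign of one arrow -/
theorem Z6_bph_one (hQ : NoLoop Q) (he : e ∈ dE Q F) :
    Z6 Q F (fun a => bph Q F ψ a * sgE e a) =
      ((2 ^ F.card * av F (WU1 Q F ψ e) : ℝ) : ℂ) * Complex.I := by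
  rw [Z6_eq hQ]
  unfold av
  rw [mul_div_cancel₀ _ (by positivity)]
  push_cast
  rw [Finset.sum_mul]
  exact Finset.sum_congr rfl fun T _ => Zs_WU1 hQ he

/-- mean arrow (divided by `i`) -/
def uE (Q : QC V Φ) (F : Finset Φ) (ψ : V × V → ℝ) (e : V × V) : ℝ :=
  av F (WU1 Q F ψ e) / av F (WU Q F ψ)

theorem Z6_ratio (hQ : NoLoop Q) (he : e ∈ dE Q F) :
    Z6 Q F (fun a => bph Q F ψ a * sgE e a) / Z6 Q F (bph Q F ψ) =
      ((uE Q F ψ e : ℝ) : ℂ) * Complex.I := by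
  rw [Z6_bph hQ, Z6_bph_one hQ he]
  unfold uE
  push_cast
  have h2 : (2 : ℂ) ^ F.card ≠ 0 := pow_ne_zero _ two_ne_zero
  rw [mul_assoc, mul_div_mul_left _ _ h2, mul_div_right_comm]

theorem uE_swap (he : e ∈ dE Q F) : uE Q F ψ e.swap = -uE Q F ψ e := by
  unfold uE
  rw [av_congr (g' := fun ω => -WU1 Q F ψ e ω) (fun T _ => WU1_swap he), av_neg, neg_div]

theorem uE_ice {f : Φ} (hf : f ∈ F) : ∑ k : ZMod 4, uE Q F ψ (sd Q f k) = 0 := by
  unfold uE
  rw [← Finset.sum_div, ← av_sum, av_congr (g' := fun _ => 0) (fun T _ => WU1_ice hf), av_const,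
    zero_div]

/-! ## Derivative in the phases -/

theorem hasDerivAt_agl (p : ℝ → V × V → ℝ) (p' : V × V → ℝ) (t : ℝ)
    (h : ∀ a ∈ bS Q F, HasDerivAt (fun s => p s a) (p' a) t) (ha : a ∈ bS Q F) :
    HasDerivAt (fun s => agl Q F ω (p s) (dst Q F ω a)) (p' (mate Q F ω a) - p' a) t := by
  have h1 : (fun s => agl Q F ω (p s) (dst Q F ω a)) =
      fun s => p s (mate Q F ω a) - p s a + turn Q F ω a * (Real.pi / 12) := by
    funext s
    exact agl_arc ha
  rw [h1]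
  exact ((h _ (mate_mem ha)).sub (h a ha)).add_const _

theorem usE_filter (ha : a ∈ bS Q F) :
    (bS Q F).filter (fun b => usE Q F ω b = usE Q F ω a) = {a, mate Q F ω a} := by
  obtain ⟨h1, h2⟩ := mem_bS.mp ha
  have hm := mate_mem (ω := ω) ha
  ext b
  rw [Finset.mem_filter, Finset.mem_insert, Finset.mem_singleton]
  constructor
  · rintro ⟨hb, h⟩
    obtain ⟨h3, h4⟩ := mem_bS.mp hb
    rcases mem_of_usE_eq h3 h1 h with h5 | h5
    · exact Or.inl (ini_unique h2 h4 (mem_dst.mp h5).2).symm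
    · right
      rw [mate_unique (ω := ω) h2 (ter_swap.mpr h4) (mem_dst.mp h5).2, Prod.swap_swap]
  · rintro (rfl | rfl)
    · exact ⟨ha, rfl⟩
    · refine ⟨hm, usE_eq_of_mem (mem_bS.mp hm).1 h1 (Or.inr ?_)⟩
      have h5 := srel_lst (ω := ω) h2
      have h6 : (mate Q F ω a).swap = lst Q F ω a := by unfold mate; rw [Prod.swap_swap]
      rw [h6]
      exact mem_dst.mpr ⟨srel_dE h5 h1, h5⟩

theorem hasDerivAt_uc (hQ : NoLoop Q) (p : ℝ → V × V → ℝ) (p' : V × V → ℝ) (t : ℝ)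
    (h : ∀ a ∈ bS Q F, HasDerivAt (fun s => p s a) (p' a) t) {U : Finset (Finset (V × V))}
    (hU : U ∈ ust Q F ω) :
    HasDerivAt (fun s => uc Q F ω (p s) U)
      (∑ a ∈ (bS Q F).filter (fun b => usE Q F ω b = U),
        p' a * (2 * Real.sin (agl Q F ω (p t) (dst Q F ω a)))) t := by
  obtain ⟨e, he, rfl⟩ := mem_ust.mp hU
  by_cases hcl : ∃ a ∈ bS Q F, usE Q F ω a = {dst Q F ω e, dst Q F ω e.swap}
  · obtain ⟨a, ha, hae⟩ := hcl
    rw [← hae, usE_filter ha, Finset.sum_pair (mate_ne hQ ha).symm]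
    have h1 : (fun s => uc Q F ω (p s) (usE Q F ω a)) =
        fun s => 2 * Real.cos (agl Q F ω (p s) (dst Q F ω a)) := by
      funext s
      exact uc_usE hQ (mem_bS.mp ha).1
    rw [h1]
    have h2 := ((hasDerivAt_agl (ω := ω) p p' t h ha).cos).const_mul 2
    refine h2.congr_deriv ?_
    have h3 : agl Q F ω (p t) (dst Q F ω (mate Q F ω a)) = -agl Q F ω (p t) (dst Q F ω a) := by
      rw [← rv_dst_mate ha, agl_rv (dst_mem_dstr (mem_bS.mp ha).1)]
    rw [h3, Real.sin_neg]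
    ring
  · push Not at hcl
    have hno : ∀ b ∈ dst Q F ω e, ¬ Ini Q (F : Set Φ) b := by
      intro b hb hb'
      have h1 : b ∈ bS Q F := mem_bS.mpr ⟨(mem_dst.mp hb).1, hb'⟩
      exact hcl b h1 (usE_eq_of_mem (mem_dst.mp hb).1 he (Or.inl hb))
    have h2 : (bS Q F).filter (fun b => usE Q F ω b = {dst Q F ω e, dst Q F ω e.swap}) = ∅ := by
      rw [Finset.filter_eq_empty_iff]
      intro b hb
      exact hcl b hb
    rw [h2, Finset.sum_empty]
    have h3 : (fun s => uc Q F ω (p s) {dst Q F ω e, dst Q F ω e.swap}) =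
        fun _ => 2 * Real.cos (tX Q F ω (dst Q F ω e) * (Real.pi / 12)) := by
      funext s
      have := uc_usE (ω := ω) (ψ := p s) hQ he
      unfold usE at this
      rw [this, agl_loop (dst_mem_dstr he) hno]
    rw [h3]
    exact hasDerivAt_const _ _

theorem hasDerivAt_WU (hQ : NoLoop Q) (p : ℝ → V × V → ℝ) (p' : V × V → ℝ) (t : ℝ)
    (h : ∀ a ∈ bS Q F, HasDerivAt (fun s => p s a) (p' a) t) :
    HasDerivAt (fun s => WU Q F (p s) ω) (∑ a ∈ bS Q F, p' a * WU1 Q F (p t) a ω) t := by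
  unfold WU
  have h1 := HasDerivAt.fun_finsetProd (u := ust Q F ω) (f := fun U s => uc Q F ω (p s) U) (x := t)
    (fun U hU => hasDerivAt_uc hQ p p' t h hU)
  refine h1.congr_deriv ?_
  have h2 : ∑ a ∈ bS Q F, p' a * WU1 Q F (p t) a ω =
      ∑ U ∈ ust Q F ω, ∑ a ∈ (bS Q F).filter (fun b => usE Q F ω b = U),
        p' a * WU1 Q F (p t) a ω := by
    rw [Finset.sum_fiberwise_of_maps_to]
    intro a ha
    exact usE_mem (mem_bS.mp ha).1
  rw [h2]
  refine Finset.sum_congr rfl fun U hU => ?_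
  rw [smul_eq_mul, Finset.mul_sum]
  refine Finset.sum_congr rfl fun a ha => ?_
  obtain ⟨h3, h4⟩ := Finset.mem_filter.mp ha
  unfold WU1
  rw [h4]
  ring

/-- **Derivative of the partition function in the phases.** -/
theorem hasDerivAt_av_WU (hQ : NoLoop Q) (p : ℝ → V × V → ℝ) (p' : V × V → ℝ) (t : ℝ)
    (h : ∀ a ∈ bS Q F, HasDerivAt (fun s => p s a) (p' a) t) :
    HasDerivAt (fun s => av F (WU Q F (p s))) (∑ a ∈ bS Q F, p' a * av F (WU1 Q F (p t) a)) t := by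
  unfold av
  have h1 := (HasDerivAt.fun_sum (u := F.powerset) (A := fun T s => WU Q F (p s) (ind T)) (x := t)
    (fun T _ => hasDerivAt_WU (ω := ind T) hQ p p' t h)).div_const (2 ^ F.card)
  refine h1.congr_deriv ?_
  rw [Finset.sum_comm, Finset.sum_div]
  refine Finset.sum_congr rfl fun a _ => ?_
  rw [← Finset.mul_sum, mul_div_assoc]

end

end Pool.Agent.SixB
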