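import Pool.Agent.Lib.SixB.S0Str
import Pool.Agent.Lib.SixB.S0Walk

/-!
# 6BD step 0: the strand product as a product over arcs

Every complex of quadrangles `Q` without loops, every finite set `F` of faces, every smoothing `ω`.
* `bS Q F`: the boundary sides, directed into `F`;
* `lst Q F ω a`: last directed unit edge of the strand of `a`; `mate Q F ω a = (lst a).swap`, an
  involution of `bS Q F` without fixed points;
* `tX Q F ω X`: turning of a directed strand (quarter turns), `turn Q F ω a = tX (dst a)`;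
* `bph Q F ψ`: boundary phases, `exp (-i ψ a)` for the entering arrow `a ∈ bS`, `exp (i ψ a)` for
  `a.swap`, `1` inside;
* `arcs Q F ω`: the pairs `s(a, mate a)`.
THEOREM `Zs_arcs`: if closed strands have turning `±4`, then
`Zs Q F ω (bph Q F ψ) = ∏ p ∈ arcs, T p`, `T s(a, mate a) = 2 cos (ψ (mate a) - ψ a + turn a π / 12)`.
-/

set_option autoImplicit false
set_option linter.unusedSectionVars false

namespace Pool.Agent.SixB

open Pool.Agent.Perc.Q Relation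

noncomputable section

variable {V Φ : Type} [DecidableEq V] [DecidableEq Φ]
variable {Q : QC V Φ} {F : Finset Φ} {ω : Φ → Bool} {a b c : V × V} {X : Finset (V × V)}

/-! ## Turning -/

/-- turning of a set of directed unit edges -/
def tX (Q : QC V Φ) (F : Finset Φ) (ω : Φ → Bool) (X : Finset (V × V)) : ℤ := ∑ a ∈ X, qt Q F ω a

theorem tX_eq (X : Finset (V × V)) :
    tX Q F ω X = ∑ f ∈ F, ∑ k : ZMod 4, if sd Q f k ∈ X then qk (ω f) k else 0 := by
  unfold tX qt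
  rw [Finset.sum_comm]
  refine Finset.sum_congr rfl fun f _ => ?_
  rw [Finset.sum_comm]
  refine Finset.sum_congr rfl fun k _ => ?_
  rw [Finset.sum_ite_eq]

theorem qt_sd {f : Φ} (hf : f ∈ F) (k : ZMod 4) : qt Q F ω (sd Q f k) = qk (ω f) k := by
  unfold qt
  rw [Finset.sum_eq_single f]
  · rw [Finset.sum_eq_single k]
    · simp
    · intro l _ hl
      rw [if_neg]
      exact sd_ne hl
    · intro h; exact absurd (Finset.mem_univ k) h
  · intro g _ hg
    refine Finset.sum_eq_zero fun l _ => ?_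
    rw [if_neg]
    intro h
    exact hg (sd_inj h).1
  · intro h; exact absurd hf h

/-- no face ahead: no turn -/
theorem qt_ter (h : Ter Q (F : Set Φ) a) : qt Q F ω a = 0 := by
  unfold qt
  refine Finset.sum_eq_zero fun f hf => Finset.sum_eq_zero fun k _ => ?_
  rw [if_neg]
  intro hh
  exact h f (by exact_mod_cast hf) k hh.symm

theorem nx_mt {f : Φ} (hf : f ∈ F) (k : ZMod 4) :
    Nx Q ω (F : Set Φ) (sd Q f k) (sd Q f (mt (ω f) k)).swap :=
  nx_iff.mpr ⟨_, f, by exact_mod_cast hf, k, rfl, rfl, rfl⟩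

theorem mem_step (hX : X ∈ dstr Q F ω) (h : Nx Q ω (F : Set Φ) a b) : a ∈ X ↔ b ∈ X := by
  obtain ⟨c, -, rfl⟩ := mem_dstr.mp hX
  rw [mem_dst, mem_dst]
  constructor
  · rintro ⟨-, h2⟩
    exact ⟨Nx.right_mem h, EqvGen.trans _ _ _ h2 (EqvGen.rel _ _ h)⟩
  · rintro ⟨-, h2⟩
    exact ⟨Nx.left_mem h, EqvGen.trans _ _ _ h2 (EqvGen.symm _ _ (EqvGen.rel _ _ h))⟩

/-- the reversed strand has the opposite turning -/
theorem tX_rv (hX : X ∈ dstr Q F ω) : tX Q F ω (rv X) = -tX Q F ω X := by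
  rw [tX_eq, tX_eq, ← Finset.sum_neg_distrib]
  refine Finset.sum_congr rfl fun f hf => ?_
  rw [← Finset.sum_neg_distrib]
  have hinv : Function.Involutive (mt (ω f)) := mt_mt (ω f)
  rw [← Equiv.sum_comp hinv.toPerm]
  refine Finset.sum_congr rfl fun k _ => ?_
  have h1 : sd Q f (mt (ω f) k) ∈ rv X ↔ sd Q f k ∈ X := by
    rw [mem_rv, mem_step hX (nx_mt hf k)]
  show (if sd Q f (mt (ω f) k) ∈ rv X then qk (ω f) (mt (ω f) k) else 0) = _
  rw [qk_mt]
  by_cases h2 : sd Q f k ∈ X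
  · rw [if_pos (h1.mpr h2), if_pos h2]
  · rw [if_neg (fun h => h2 (h1.mp h)), if_neg h2, neg_zero]

theorem sw_eq (h : V × V → ℂ) (X : Finset (V × V)) :
    sw Q F ω h X = (∏ a ∈ X, h a) * zeta ^ (tX Q F ω X) := by
  unfold sw tX
  rw [Finset.prod_mul_distrib, zprod]

theorem zeta_zpow (t : ℤ) : zeta ^ t = Complex.exp (((t : ℝ) * (Real.pi / 12) : ℝ) * Complex.I) := by
  unfold zeta
  rw [← Complex.exp_int_mul]
  congr 1
  push_cast
  ring

/-! ## Ends of a strand -/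

/-- the boundary sides of `F`, directed into `F` -/
def bS (Q : QC V Φ) (F : Finset Φ) : Finset (V × V) := by
  classical exact (dE Q F).filter fun a => Ini Q (F : Set Φ) a

theorem mem_bS : a ∈ bS Q F ↔ a ∈ dE Q F ∧ Ini Q (F : Set Φ) a := by
  classical
  unfold bS
  rw [Finset.mem_filter]

theorem ini_swap : Ini Q (F : Set Φ) a.swap ↔ Ter Q (F : Set Φ) a := by
  unfold Ini Ter
  constructor
  · intro h f hf k hh
    exact h f hf k (by rw [hh]; rfl)
  · intro h f hf k hh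
    exact h f hf k (by rw [← Prod.swap_swap a, hh]; rfl)

theorem ter_swap : Ter Q (F : Set Φ) a.swap ↔ Ini Q (F : Set Φ) a := by
  rw [← ini_swap, Prod.swap_swap]

/-- an inward boundary side has a face ahead -/
theorem bS_sd (h : a ∈ bS Q F) : ∃ f ∈ F, ∃ k, a = sd Q f k := by
  obtain ⟨h1, h2⟩ := mem_bS.mp h
  obtain ⟨f, hf, k, h3 | h3⟩ := mem_dE.mp h1
  · exact ⟨f, hf, k, h3⟩
  · exact absurd h3 (h2 f (by exact_mod_cast hf) k)

theorem not_ini_ter (h : a ∈ dE Q F) (h1 : Ini Q (F : Set Φ) a) (h2 : Ter Q (F : Set Φ) a) : False := by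
  obtain ⟨f, hf, k, h3⟩ := bS_sd (mem_bS.mpr ⟨h, h1⟩)
  exact h2 f (by exact_mod_cast hf) k h3

theorem ini_nx (h : Ini Q (F : Set Φ) b) : ¬ Nx Q ω (F : Set Φ) a b := by
  rw [nx_iff]
  rintro ⟨t, f, hf, k, -, rfl, -⟩
  exact h f hf _ rfl

theorem ter_nx (h : Ter Q (F : Set Φ) a) : ¬ Nx Q ω (F : Set Φ) a b := by
  rw [nx_iff]
  rintro ⟨t, f, hf, k, rfl, -, -⟩
  exact h f hf _ rfl

theorem ini_unique (ha : Ini Q (F : Set Φ) a) (hb : Ini Q (F : Set Φ) b) (h : SRel Q F ω a b) :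
    a = b := by
  rcases srel_iff.mp h with h | h
  · rcases ReflTransGen.cases_tail h with h | ⟨c, -, h⟩
    · exact h.symm
    · exact absurd h (ini_nx hb)
  · rcases ReflTransGen.cases_tail h with h | ⟨c, -, h⟩
    · exact h
    · exact absurd h (ini_nx ha)

theorem ter_uniq (ha : Ter Q (F : Set Φ) a) (hb : Ter Q (F : Set Φ) b) (h : SRel Q F ω a b) :
    a = b := by
  have := ini_unique (ω := ω) (ini_swap.mpr ha) (ini_swap.mpr hb) (srel_swap h)
  rw [← Prod.swap_swap a, this, Prod.swap_swap]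

theorem exists_last (ha : Ini Q (F : Set Φ) a) : ∃ b, b ∈ Orb Q ω (F : Set Φ) a ∧ Ter Q (F : Set Φ) b := by
  obtain ⟨b, h1, h2⟩ := exists_ter (ω := ω) F.finite_toSet ha
  exact ⟨b, h1, h2⟩

open Classical in
/-- the last directed unit edge of the strand of `a` -/
def lst (Q : QC V Φ) (F : Finset Φ) (ω : Φ → Bool) (a : V × V) : V × V :=
  if h : ∃ b, b ∈ Orb Q ω (F : Set Φ) a ∧ Ter Q (F : Set Φ) b then h.choose else a

theorem lst_spec (ha : Ini Q (F : Set Φ) a) :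
    lst Q F ω a ∈ Orb Q ω (F : Set Φ) a ∧ Ter Q (F : Set Φ) (lst Q F ω a) := by
  unfold lst
  rw [dif_pos (exists_last ha)]
  exact (exists_last ha).choose_spec

/-- the other end of the strand of the boundary side `a` -/
def mate (Q : QC V Φ) (F : Finset Φ) (ω : Φ → Bool) (a : V × V) : V × V := (lst Q F ω a).swap

/-- turning of the strand of `a` -/
def turn (Q : QC V Φ) (F : Finset Φ) (ω : Φ → Bool) (a : V × V) : ℤ := tX Q F ω (dst Q F ω a)

theorem srel_lst (ha : Ini Q (F : Set Φ) a) : SRel Q F ω a (lst Q F ω a) :=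
  srel_iff.mpr (Or.inl (lst_spec ha).1)

theorem srel_dE (h : SRel Q F ω a b) (ha : a ∈ dE Q F) : b ∈ dE Q F := by
  rcases srel_iff.mp h with h | h
  · rcases ReflTransGen.cases_tail h with h | ⟨c, -, h⟩
    · rwa [h]
    · exact Nx.right_mem h
  · rcases ReflTransGen.cases_head h with h | ⟨c, h, -⟩
    · rwa [h]
    · exact Nx.left_mem h

theorem mate_mem (ha : a ∈ bS Q F) : mate Q F ω a ∈ bS Q F := by
  obtain ⟨h1, h2⟩ := mem_bS.mp ha
  refine mem_bS.mpr ⟨?_, ?_⟩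
  · exact swap_mem_dE.mpr (srel_dE (srel_lst h2) h1)
  · exact ini_swap.mpr (lst_spec h2).2

/-- the only pair of ends -/
theorem mate_unique (ha : Ini Q (F : Set Φ) a) (hb : Ter Q (F : Set Φ) b) (h : SRel Q F ω a b) :
    mate Q F ω a = b.swap := by
  unfold mate
  rw [ter_uniq (ω := ω) (lst_spec (ω := ω) ha).2 hb
    (EqvGen.trans _ _ _ (EqvGen.symm _ _ (srel_lst ha)) h)]

theorem srel_mate (ha : a ∈ bS Q F) : SRel Q F ω (mate Q F ω a) a.swap := by
  have := srel_swap (srel_lst (ω := ω) (mem_bS.mp ha).2)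
  exact EqvGen.symm _ _ this

theorem mate_mate (ha : a ∈ bS Q F) : mate Q F ω (mate Q F ω a) = a := by
  have h := mate_unique (ω := ω) (mem_bS.mp (mate_mem (ω := ω) ha)).2
    (ter_swap.mpr (mem_bS.mp ha).2) (srel_mate ha)
  rw [h, Prod.swap_swap]

theorem mate_ne (hQ : NoLoop Q) (ha : a ∈ bS Q F) : mate Q F ω a ≠ a := by
  intro h
  have h1 := srel_mate (ω := ω) ha
  rw [h] at h1
  exact not_srel_swap hQ (mem_bS.mp ha).1 h1

/-- the reversed strand starts with the other end -/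
theorem rv_dst_mate (ha : a ∈ bS Q F) : rv (dst Q F ω a) = dst Q F ω (mate Q F ω a) := by
  rw [rv_dst]
  exact (dst_eq (srel_mate ha)).symm

theorem dst_mem_dstr (ha : a ∈ dE Q F) : dst Q F ω a ∈ dstr Q F ω := mem_dstr.mpr ⟨a, ha, rfl⟩

theorem turn_mate (ha : a ∈ bS Q F) : turn Q F ω (mate Q F ω a) = -turn Q F ω a := by
  unfold turn
  rw [← rv_dst_mate ha, tX_rv (dst_mem_dstr (mem_bS.mp ha).1)]

theorem dst_inj (ha : a ∈ bS Q F) (hb : b ∈ bS Q F) (h : dst Q F ω a = dst Q F ω b) : a = b := by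
  have h1 : b ∈ dst Q F ω a := by rw [h]; exact self_mem_dst (mem_bS.mp hb).1
  exact ini_unique (mem_bS.mp ha).2 (mem_bS.mp hb).2 (mem_dst.mp h1).2

/-- the boundary sides of a directed strand -/
theorem ini_of_ter (hX : X ∈ dstr Q F ω) (hb : b ∈ X) (hb' : Ter Q (F : Set Φ) b) :
    ∃ a ∈ X, Ini Q (F : Set Φ) a := by
  obtain ⟨h1, h2⟩ := dstr_of_mem hX hb
  have h3 : b.swap ∈ bS Q F := mem_bS.mpr ⟨swap_mem_dE.mpr h1, ini_swap.mpr hb'⟩
  have h4 := mate_mem (ω := ω) h3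
  have h5 := srel_mate (ω := ω) h3
  rw [Prod.swap_swap] at h5
  refine ⟨mate Q F ω b.swap, ?_, (mem_bS.mp h4).2⟩
  rw [h2, mem_dst]
  exact ⟨(mem_bS.mp h4).1, EqvGen.symm _ _ h5⟩

/-! ## Boundary phases -/

open Classical in
/-- phases on the boundary sides: `ψ a` for the inward boundary side `a` -/
def bph (Q : QC V Φ) (F : Finset Φ) (ψ : V × V → ℝ) (a : V × V) : ℂ :=
  if Ini Q (F : Set Φ) a then Complex.exp (-(ψ a : ℂ) * Complex.I)
  else if Ter Q (F : Set Φ) a then Complex.exp ((ψ a.swap : ℂ) * Complex.I) else 1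

theorem bph_ini (ψ : V × V → ℝ) (h : Ini Q (F : Set Φ) a) :
    bph Q F ψ a = Complex.exp (-(ψ a : ℂ) * Complex.I) := by
  unfold bph; rw [if_pos h]

theorem bph_ter (ψ : V × V → ℝ) (ha : a ∈ dE Q F) (h : Ter Q (F : Set Φ) a) :
    bph Q F ψ a = Complex.exp ((ψ a.swap : ℂ) * Complex.I) := by
  unfold bph; rw [if_neg (fun h' => not_ini_ter ha h' h), if_pos h]

theorem bph_in (ψ : V × V → ℝ) (h : ¬ Ini Q (F : Set Φ) a) (h' : ¬ Ter Q (F : Set Φ) a) :
    bph Q F ψ a = 1 := by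
  unfold bph; rw [if_neg h, if_neg h']

theorem prod_bph (ψ : V × V → ℝ) (ha : a ∈ bS Q F) :
    ∏ c ∈ dst Q F ω a, bph Q F ψ c =
      Complex.exp (((ψ (mate Q F ω a) - ψ a : ℝ) : ℂ) * Complex.I) := by
  obtain ⟨h1, h2⟩ := mem_bS.mp ha
  have h3 := lst_spec (ω := ω) h2
  have h4 := srel_lst (ω := ω) h2
  have hne : a ≠ lst Q F ω a := by
    intro h
    have := h3.2
    rw [← h] at this
    exact not_ini_ter h1 h2 this
  rw [Finset.prod_eq_mul a (lst Q F ω a) hne]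
  · rw [bph_ini ψ h2, bph_ter ψ (srel_dE h4 h1) h3.2, ← Complex.exp_add]
    congr 1
    unfold mate
    push_cast
    ring
  · rintro c hc ⟨hc1, hc2⟩
    obtain ⟨hc3, hc4⟩ := mem_dst.mp hc
    apply bph_in
    · intro h
      exact hc1 (ini_unique h2 h hc4).symm
    · intro h
      exact hc2 (ter_uniq (ω := ω) h3.2 h (EqvGen.trans _ _ _ (EqvGen.symm _ _ h4) hc4)).symm
  · intro h; exact absurd (self_mem_dst h1) h
  · intro h; exact absurd (mem_dst.mpr ⟨srel_dE h4 h1, h4⟩) h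

/-- weight of a directed arc -/
theorem sw_arc (ψ : V × V → ℝ) (ha : a ∈ bS Q F) :
    sw Q F ω (bph Q F ψ) (dst Q F ω a) =
      Complex.exp (((ψ (mate Q F ω a) - ψ a + turn Q F ω a * (Real.pi / 12) : ℝ) : ℂ) * Complex.I) := by
  rw [sw_eq, prod_bph ψ ha, zeta_zpow, ← Complex.exp_add]
  congr 1
  unfold turn
  push_cast
  ring

theorem exp_add_exp_neg (x : ℝ) : Complex.exp ((x : ℂ) * Complex.I) + Complex.exp (((-x : ℝ) : ℂ) * Complex.I) =
    ((2 * Real.cos x : ℝ) : ℂ) := by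
  push_cast
  rw [Complex.cos, mul_div_cancel₀ _ (two_ne_zero' ℂ)]

/-- weight of an arc -/
theorem sw_arc_sum (hQ : NoLoop Q) (ψ : V × V → ℝ) (ha : a ∈ bS Q F) :
    ∑ Y ∈ {dst Q F ω a, rv (dst Q F ω a)}, sw Q F ω (bph Q F ψ) Y =
      ((2 * Real.cos (ψ (mate Q F ω a) - ψ a + turn Q F ω a * (Real.pi / 12)) : ℝ) : ℂ) := by
  rw [Finset.sum_pair (rv_ne hQ (dst_mem_dstr (mem_bS.mp ha).1)).symm, rv_dst_mate ha,
    sw_arc ψ ha, sw_arc ψ (mate_mem ha), mate_mate ha, turn_mate ha, ← exp_add_exp_neg]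
  congr 3
  push_cast
  ring

/-- weight of a closed strand -/
theorem sw_loop_sum (hQ : NoLoop Q) (ψ : V × V → ℝ) (hX : X ∈ dstr Q F ω)
    (h : ∀ a ∈ X, ¬ Ini Q (F : Set Φ) a) :
    ∑ Y ∈ {X, rv X}, sw Q F ω (bph Q F ψ) Y =
      ((2 * Real.cos (tX Q F ω X * (Real.pi / 12)) : ℝ) : ℂ) := by
  have h1 : ∀ a ∈ X, ¬ Ter Q (F : Set Φ) a := by
    intro a ha h2
    obtain ⟨c, hc, hc'⟩ := ini_of_ter hX ha h2
    exact h c hc hc'
  have h2 : ∏ c ∈ X, bph Q F ψ c = 1 :=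
    Finset.prod_eq_one fun c hc => bph_in ψ (h c hc) (h1 c hc)
  have h3 : ∏ c ∈ rv X, bph Q F ψ c = 1 := by
    refine Finset.prod_eq_one fun c hc => bph_in ψ ?_ ?_
    · intro h4
      have := ter_swap.mpr h4
      exact h1 _ (mem_rv.mp hc) this
    · intro h4
      exact h _ (mem_rv.mp hc) (ini_swap.mpr h4)
  rw [Finset.sum_pair (rv_ne hQ hX).symm, sw_eq, sw_eq, h2, h3, one_mul, one_mul, tX_rv hX, zeta_zpow,
    zeta_zpow, ← exp_add_exp_neg]
  congr 3
  push_cast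
  ring

/-! ## The product -/

/-- the arcs, as pairs of boundary sides -/
def arcs (Q : QC V Φ) (F : Finset Φ) (ω : Φ → Bool) : Finset (Sym2 (V × V)) :=
  (bS Q F).image fun a => s(a, mate Q F ω a)

theorem mem_arcs {p : Sym2 (V × V)} : p ∈ arcs Q F ω ↔ ∃ a ∈ bS Q F, s(a, mate Q F ω a) = p := by
  unfold arcs
  rw [Finset.mem_image]

open Classical in
/-- the closed strands, as pairs of directed strands -/
def lps (Q : QC V Φ) (F : Finset Φ) (ω : Φ → Bool) : Finset (Finset (Finset (V × V))) :=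
  ((dstr Q F ω).filter fun X => ∀ a ∈ X, ¬ Ini Q (F : Set Φ) a).image fun X => {X, rv X}

/-- the undirected strand of an arc -/
def uarc (Q : QC V Φ) (F : Finset Φ) (ω : Φ → Bool) (p : Sym2 (V × V)) : Finset (Finset (V × V)) :=
  (p.map (dst Q F ω)).toFinset

theorem uarc_eq (ha : a ∈ bS Q F) :
    uarc Q F ω s(a, mate Q F ω a) = {dst Q F ω a, rv (dst Q F ω a)} := by
  unfold uarc
  rw [Sym2.map_mk, rv_dst_mate ha]
  ext Y
  simp

theorem ust_split : ust Q F ω = lps Q F ω ∪ (arcs Q F ω).image (uarc Q F ω) := by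
  classical
  ext U
  simp only [ust, lps, Finset.mem_union, Finset.mem_image, Finset.mem_filter]
  constructor
  · rintro ⟨X, hX, rfl⟩
    by_cases h : ∀ a ∈ X, ¬ Ini Q (F : Set Φ) a
    · exact Or.inl ⟨X, ⟨hX, h⟩, rfl⟩
    · push Not at h
      obtain ⟨a, ha, ha'⟩ := h
      obtain ⟨h1, h2⟩ := dstr_of_mem hX ha
      have h3 : a ∈ bS Q F := mem_bS.mpr ⟨h1, ha'⟩
      exact Or.inr ⟨_, mem_arcs.mpr ⟨a, h3, rfl⟩, by rw [uarc_eq h3, h2]⟩
  · rintro (⟨X, ⟨hX, -⟩, rfl⟩ | ⟨p, hp, rfl⟩)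
    · exact ⟨X, hX, rfl⟩
    · obtain ⟨a, ha, rfl⟩ := mem_arcs.mp hp
      exact ⟨_, dst_mem_dstr (mem_bS.mp ha).1, (uarc_eq ha).symm⟩

theorem uarc_inj : Set.InjOn (uarc Q F ω) (arcs Q F ω : Set (Sym2 (V × V))) := by
  intro p hp q hq h
  obtain ⟨a, ha, rfl⟩ := mem_arcs.mp (Finset.mem_coe.mp hp)
  obtain ⟨b, hb, rfl⟩ := mem_arcs.mp (Finset.mem_coe.mp hq)
  rw [uarc_eq ha, uarc_eq hb] at h
  have h1 : dst Q F ω a ∈ ({dst Q F ω b, rv (dst Q F ω b)} : Finset (Finset (V × V))) := by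
    rw [← h]; simp
  rw [Finset.mem_insert, Finset.mem_singleton, rv_dst_mate hb] at h1
  rcases h1 with h1 | h1
  · rw [dst_inj ha hb h1]
  · rw [dst_inj ha (mate_mem hb) h1, mate_mate hb, Sym2.eq_swap]

theorem lps_arcs_disj : Disjoint (lps Q F ω) ((arcs Q F ω).image (uarc Q F ω)) := by
  classical
  rw [Finset.disjoint_left]
  intro U hU hU'
  obtain ⟨p, hp, rfl⟩ := Finset.mem_image.mp hU'
  obtain ⟨a, ha, rfl⟩ := mem_arcs.mp hp
  unfold lps at hU
  obtain ⟨X, hX, h⟩ := Finset.mem_image.mp hU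
  obtain ⟨hX1, hX2⟩ := Finset.mem_filter.mp hX
  rw [uarc_eq ha] at h
  have h1 : X ∈ ({dst Q F ω a, rv (dst Q F ω a)} : Finset (Finset (V × V))) := by rw [← h]; simp
  rw [Finset.mem_insert, Finset.mem_singleton, rv_dst_mate ha] at h1
  rcases h1 with rfl | rfl
  · exact hX2 a (self_mem_dst (mem_bS.mp ha).1) (mem_bS.mp ha).2
  · have h2 := mate_mem (ω := ω) ha
    exact hX2 _ (self_mem_dst (mem_bS.mp h2).1) (mem_bS.mp h2).2

/-- the strand product = (product over the closed strands) × (product over the arcs) -/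
theorem Zs_split (hQ : NoLoop Q) (ψ : V × V → ℝ) (T : Sym2 (V × V) → ℝ)
    (hT : ∀ a ∈ bS Q F, T s(a, mate Q F ω a) =
      2 * Real.cos (ψ (mate Q F ω a) - ψ a + turn Q F ω a * (Real.pi / 12))) :
    Zs Q F ω (bph Q F ψ) = (∏ U ∈ lps Q F ω, ∑ X ∈ U, sw Q F ω (bph Q F ψ) X) *
      ((∏ p ∈ arcs Q F ω, T p : ℝ) : ℂ) := by
  unfold Zs
  rw [ust_split, Finset.prod_union lps_arcs_disj, Finset.prod_image uarc_inj]
  congr 1
  push_cast
  refine Finset.prod_congr rfl fun p hp => ?_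
  obtain ⟨a, ha, rfl⟩ := mem_arcs.mp hp
  rw [uarc_eq ha, sw_arc_sum hQ ψ ha, hT a ha]

/-- **Closed strands of turning `±4` have weight `1`.** -/
theorem Zs_arcs (hQ : NoLoop Q) (ψ : V × V → ℝ) (T : Sym2 (V × V) → ℝ)
    (hT : ∀ a ∈ bS Q F, T s(a, mate Q F ω a) =
      2 * Real.cos (ψ (mate Q F ω a) - ψ a + turn Q F ω a * (Real.pi / 12)))
    (hL : ∀ X ∈ dstr Q F ω, (∀ a ∈ X, ¬ Ini Q (F : Set Φ) a) →
      tX Q F ω X = 4 ∨ tX Q F ω X = -4) :
    Zs Q F ω (bph Q F ψ) = ((∏ p ∈ arcs Q F ω, T p : ℝ) : ℂ) := by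
  classical
  rw [Zs_split hQ ψ T hT, Finset.prod_eq_one, one_mul]
  intro U hU
  unfold lps at hU
  obtain ⟨X, hX, rfl⟩ := Finset.mem_image.mp hU
  obtain ⟨hX1, hX2⟩ := Finset.mem_filter.mp hX
  rw [sw_loop_sum hQ ψ hX1 hX2]
  have h1 : Real.cos (4 * (Real.pi / 12)) = 1 / 2 := by
    rw [show 4 * (Real.pi / 12) = Real.pi / 3 by ring, Real.cos_pi_div_three]
  have h2 : Real.cos (-4 * (Real.pi / 12)) = 1 / 2 := by
    rw [show -4 * (Real.pi / 12) = -(4 * (Real.pi / 12)) by ring, Real.cos_neg, h1]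
  rcases hL X hX1 hX2 with h | h
  · rw [h]
    push_cast
    rw [show (4 : ℂ) * (Real.pi / 12) = ((4 * (Real.pi / 12) : ℝ) : ℂ) by push_cast; ring,
      ← Complex.ofReal_cos, h1]
    push_cast
    ring
  · rw [h]
    push_cast
    rw [show (-4 : ℂ) * (Real.pi / 12) = ((-4 * (Real.pi / 12) : ℝ) : ℂ) by push_cast; ring,
      ← Complex.ofReal_cos, h2]
    push_cast
    ring

/-- number of arcs: half the number of the boundary sides -/
theorem card_arcs (hQ : NoLoop Q) : 2 * (arcs Q F ω).card = (bS Q F).card := by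
  classical
  have h : (bS Q F).card = ∑ p ∈ arcs Q F ω, ((bS Q F).filter fun a => s(a, mate Q F ω a) = p).card :=
    Finset.card_eq_sum_card_image _ _
  rw [h, Finset.sum_const_nat (m := 2), mul_comm]
  intro p hp
  obtain ⟨a, ha, rfl⟩ := mem_arcs.mp hp
  have : (bS Q F).filter (fun b => s(b, mate Q F ω b) = s(a, mate Q F ω a)) = {a, mate Q F ω a} := by
    ext b
    rw [Finset.mem_filter, Finset.mem_insert, Finset.mem_singleton, Sym2.eq_iff]
    constructor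
    · rintro ⟨-, h | h⟩
      · exact Or.inl h.1
      · exact Or.inr h.1
    · rintro (rfl | rfl)
      · exact ⟨ha, Or.inl ⟨rfl, rfl⟩⟩
      · exact ⟨mate_mem ha, Or.inr ⟨rfl, mate_mate ha⟩⟩
  rw [this, Finset.card_pair (mate_ne hQ ha).symm]

end

end Pool.Agent.SixB
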