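import Pool.Agent.Lib.SixB.S3Rel
import Pool.Agent.Lib.SixB.S0Arcs
import Pool.Agent.Lib.SixB.S0Av

/-!
# 6BD step 3: blocking annuli and the flat ends

* `Blk Q R ω C D`: no strand of the set of faces `R` joins an element of `C` to an element of `D`.
* `conf_of_blk`: the relevant strands of the core stay inside the first blocking annulus.
* `dst_of_blk`: the strands of the outer part do not see the inside of a blocking annulus.
* `Flat`: the ends of a cylinder (`Eb`, `Et` entering sides at the bottom and at the top); `Zn_eval`: the product of the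
  irrelevant strands is `r ^ m * (2 / r ^ 2) ^ k`, `r ^ 2 = √3`.
-/

set_option autoImplicit false
set_option linter.unusedSectionVars false

namespace Pool.Agent.SixB.Rel

open Pool.Agent.Perc.Q Relation
open Pool.Agent.SixB hiding Zs_split

noncomputable section

variable {V Φ : Type} [DecidableEq V] [DecidableEq Φ]
variable {Q : QC V Φ} {F F' : Finset Φ} {ω ω' : Φ → Bool} {a b : V × V} {P X Y : Finset (V × V)}

/-- no strand of `R` joins `C` to `D` -/
def Blk (Q : QC V Φ) (R : Finset Φ) (ω : Φ → Bool) (C D : Finset (V × V)) : Prop :=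
  ∀ c ∈ C, ∀ d ∈ D, c ∈ dE Q R → d ∈ dE Q R → ¬ SRel Q R ω c d

theorem Blk.symm {R : Finset Φ} {C D : Finset (V × V)} (h : Blk Q R ω C D) : Blk Q R ω D C :=
  fun c hc d hd h1 h2 h3 => h d hd c hc h2 h1 (EqvGen.symm _ _ h3)

theorem Blk.mono {R : Finset Φ} {C D C' D' : Finset (V × V)} (h : Blk Q R ω C D) (hC : C' ⊆ C)
    (hD : D' ⊆ D) : Blk Q R ω C' D' := fun c hc d hd => h c (hC hc) d (hD hd)

theorem Blk.congr {R : Finset Φ} {C D : Finset (V × V)} (hω : ∀ f ∈ R, ω f = ω' f) :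
    Blk Q R ω C D ↔ Blk Q R ω' C D := by
  unfold Blk
  simp only [SRel_congr hω]

/-- the last exit from `C` -/
theorem chain_exit {C R : Finset Φ} (h : ReflTransGen (Nx Q ω ((C ∪ R : Finset Φ) : Set Φ)) a b)
    (ha : a ∈ dE Q C) : ∃ c ∈ dE Q C, ReflTransGen (Nx Q ω (R : Set Φ)) c b := by
  induction h with
  | refl => exact ⟨a, ha, ReflTransGen.refl⟩
  | tail h1 h2 ih =>
    rename_i b b'
    obtain ⟨c, hc, hcb⟩ := ih
    obtain ⟨f, hf, k, e1, e2⟩ := h2
    have hf' : f ∈ C ∪ R := by exact_mod_cast hf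
    rcases Finset.mem_union.mp hf' with h3 | h3
    · refine ⟨b', ?_, ReflTransGen.refl⟩
      exact Nx.right_mem (ω := ω) (F := C) ⟨f, by exact_mod_cast h3, k, e1, e2⟩
    · exact ⟨c, hc, hcb.tail ⟨f, by exact_mod_cast h3, k, e1, e2⟩⟩

theorem rtg_srel (h : ReflTransGen (Nx Q ω (F : Set Φ)) a b) : SRel Q F ω a b :=
  srel_iff.mpr (Or.inl h)

theorem no_cross_fwd {C R : Finset Φ} {D : Finset (V × V)} (hCD : Disjoint (dE Q C) D)
    (hb : Blk Q R ω (dE Q C) D)
    (h : ReflTransGen (Nx Q ω ((C ∪ R : Finset Φ) : Set Φ)) a b) (ha : a ∈ dE Q C) : b ∉ D := by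
  intro hbD
  obtain ⟨c, hc, hcb⟩ := chain_exit h ha
  have h1 := rtg_srel hcb
  rcases srel_mem_dE h1 with h2 | ⟨h2, h3⟩
  · rw [h2] at hc
    exact Finset.disjoint_left.mp hCD hc hbD
  · exact hb c hc b hbD h2 h3 h1

theorem rtg_rev (h : ReflTransGen (Nx Q ω (F : Set Φ)) a b) :
    ReflTransGen (Nx Q ω (F : Set Φ)) b.swap a.swap := by
  induction h with
  | refl => exact ReflTransGen.refl
  | tail _ h2 ih => exact ReflTransGen.head h2.rev ih

/-- A strand which meets the faces of `C` does not reach `D`. -/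
theorem no_cross {C R : Finset Φ} {D : Finset (V × V)} (hDs : ∀ d, d ∈ D → d.swap ∈ D)
    (hCD : Disjoint (dE Q C) D)
    (hb : Blk Q R ω (dE Q C) D) (h : SRel Q (C ∪ R) ω a b) (ha : a ∈ dE Q C) : b ∉ D := by
  rcases srel_iff.mp h with h1 | h1
  · exact no_cross_fwd hCD hb h1 ha
  · intro hbD
    exact no_cross_fwd hCD hb (rtg_rev h1) (swap_mem_dE.mpr ha) (hDs b hbD)

/-- **The relevant strands stay inside the first annulus.** `A` core, `R` annulus, `D` the rest. -/
theorem conf_of_blk {A R D : Finset Φ} (hAD : Disjoint (dE Q A) (dE Q D)) (hP : P ⊆ dE Q A)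
    (hb : Blk Q R ω (dE Q A) (dE Q D)) : Conf Q (A ∪ R ∪ D) (A ∪ R) ω P := by
  intro X hX ht
  obtain ⟨a, ha, haP⟩ := touch_iff.mp ht
  obtain ⟨haE, rfl⟩ := dstr_of_mem hX ha
  have haA : a ∈ dE Q A := by
    rcases haP with h1 | h1
    · exact hP h1
    · exact swap_mem_dE.mp (hP h1)
  have hsub : dE Q ((A ∪ R ∪ D) \ (A ∪ R)) ⊆ dE Q D := by
    apply dE_mono
    intro f hf
    obtain ⟨h1, h2⟩ := Finset.mem_sdiff.mp hf
    rcases Finset.mem_union.mp h1 with h3 | h3
    · exact absurd h3 h2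
    · exact h3
  rw [Finset.disjoint_left]
  intro b hb1 hb2
  exact no_cross (fun d hd => swap_mem_dE.mpr hd) hAD hb (mem_dst.mp hb1).2 haA (hsub hb2)

/-- **The strands of the outer part do not see the inside.** `B` outer part, `R` annulus, `C` the inside. -/
theorem dst_of_blk {B R C : Finset Φ} (hBC : Disjoint (dE Q B) (dE Q C))
    (hb : Blk Q R ω (dE Q B) (dE Q C)) (ha : a ∈ dE Q B) :
    dst Q (C ∪ (B ∪ R)) ω a = dst Q (B ∪ R) ω a ∧
      Disjoint (dst Q (B ∪ R) ω a) (dE Q C) := by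
  have h1 : ∀ b ∈ dst Q (B ∪ R) ω a, b ∉ dE Q C := fun b hb1 =>
    no_cross (fun d hd => swap_mem_dE.mpr hd) hBC hb (mem_dst.mp hb1).2 ha
  have hsub : dE Q ((C ∪ (B ∪ R)) \ (B ∪ R)) ⊆ dE Q C := by
    apply dE_mono
    intro f hf
    obtain ⟨h1, h2⟩ := Finset.mem_sdiff.mp hf
    rcases Finset.mem_union.mp h1 with h3 | h3
    · exact h3
    · exact absurd h3 h2
  refine ⟨dst_sub Finset.subset_union_right (fun b hb1 hb2 => h1 b hb1 (hsub hb2))
    (dE_mono Finset.subset_union_left ha), Finset.disjoint_left.mpr h1⟩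

/-! ## The flat ends -/

/-- The boundary sides of `F` are the entering sides `Eb` (bottom), `Et` (top) and sides of `P`. -/
structure Flat (Q : QC V Φ) (F : Finset Φ) (P Eb Et : Finset (V × V)) : Prop where
  bot : Eb ⊆ bS Q F
  top : Et ⊆ bS Q F
  disj : Disjoint Eb Et
  all : ∀ a ∈ bS Q F, a ∈ Eb ∨ a ∈ Et ∨ a ∈ P ∨ a.swap ∈ P

/-- The turnings of the closed strands and of the strands which join the flat ends. -/
structure Turns (Q : QC V Φ) (F : Finset Φ) (ω : Φ → Bool) (Eb Et : Finset (V × V)) : Prop where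
  closed : ∀ X ∈ dstr Q F ω, (∀ a ∈ X, ¬ Ini Q (F : Set Φ) a) →
    tX Q F ω X = 4 ∨ tX Q F ω X = -4
  bb : ∀ a ∈ Eb, mate Q F ω a ∈ Eb → turn Q F ω a = 2 ∨ turn Q F ω a = -2
  tt : ∀ a ∈ Et, mate Q F ω a ∈ Et → turn Q F ω a = 2 ∨ turn Q F ω a = -2
  bt : ∀ a ∈ Eb, mate Q F ω a ∈ Et → turn Q F ω a = 0

/-- `3 ^ (1/4)` -/
def r4 : ℝ := Real.sqrt (Real.sqrt 3)

theorem r4_sq : r4 ^ 2 = Real.sqrt 3 := Real.sq_sqrt (Real.sqrt_nonneg 3)

theorem r4_ge : 1 ≤ r4 := by
  unfold r4
  rw [Real.one_le_sqrt, Real.one_le_sqrt]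
  norm_num

theorem r4_pos : 0 < r4 := lt_of_lt_of_le one_pos r4_ge

/-- `2 / √3` -/
def c4 : ℝ := 2 / r4 ^ 2

theorem c4_ge : 1 ≤ c4 := by
  unfold c4
  rw [r4_sq, le_div_iff₀ (Real.sqrt_pos.mpr (by norm_num)), one_mul]
  rw [Real.sqrt_le_left (by norm_num)]
  norm_num

theorem c4_pos : 0 < c4 := lt_of_lt_of_le one_pos c4_ge

open Classical in
/-- the last sides of the strands from the bottom to the top -/
def thr (Q : QC V Φ) (F : Finset Φ) (ω : Φ → Bool) (Eb Et : Finset (V × V)) :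
    Finset (V × V) := (rv Et).filter fun t => ∃ a ∈ Eb, SRel Q F ω a t

theorem mem_thr {Eb Et : Finset (V × V)} {t : V × V} :
    t ∈ thr Q F ω Eb Et ↔ t.swap ∈ Et ∧ ∃ a ∈ Eb, SRel Q F ω a t := by
  classical
  unfold thr
  rw [Finset.mem_filter, mem_rv]

theorem thr_congr {Eb Et : Finset (V × V)} (hω : ∀ f ∈ F, ω f = ω' f) :
    thr Q F ω Eb Et = thr Q F ω' Eb Et := by
  ext t
  simp only [mem_thr, SRel_congr hω]

/-- elements of `S` in the two directions of a strand -/
def cnt (S : Finset (V × V)) (U : Finset (Finset (V × V))) : ℕ := (S ∩ U.biUnion id).card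

theorem biUnion_prs (X : Finset (V × V)) : (prs X).biUnion id = X ∪ rv X := by
  unfold prs
  rw [Finset.biUnion_insert, Finset.singleton_biUnion]
  rfl

theorem sum_cnt {D : Finset (Finset (V × V))} (hD : D ⊆ dstr Q F ω)
    (S : Finset (V × V)) : ∑ U ∈ D.image prs, cnt S U ≤ S.card := by
  unfold cnt
  rw [← Finset.card_biUnion]
  · apply Finset.card_le_card
    intro a ha
    obtain ⟨U, _, h2⟩ := Finset.mem_biUnion.mp ha
    exact (Finset.mem_inter.mp h2).1
  · intro U hU W hW hne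
    obtain ⟨X, hX, rfl⟩ := Finset.mem_image.mp hU
    obtain ⟨Y, hY, rfl⟩ := Finset.mem_image.mp hW
    show Disjoint (S ∩ (prs X).biUnion id) (S ∩ (prs Y).biUnion id)
    rw [biUnion_prs, biUnion_prs]
    rw [Finset.disjoint_left]
    intro a ha ha'
    apply hne
    have h1 := (Finset.mem_inter.mp ha).2
    have h2 := (Finset.mem_inter.mp ha').2
    have key : ∀ {X Y : Finset (V × V)}, X ∈ dstr Q F ω → Y ∈ dstr Q F ω → a ∈ X → a ∈ Y →
        X = Y := by
      intro X Y hX hY hx hy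
      rw [(dstr_of_mem hX hx).2, (dstr_of_mem hY hy).2]
    rcases Finset.mem_union.mp h1 with h1 | h1 <;> rcases Finset.mem_union.mp h2 with h2 | h2
    · rw [key (hD hX) (hD hY) h1 h2]
    · rw [key (hD hX) (rv_mem_dstr (hD hY)) h1 h2]
      unfold prs
      rw [rv_rv, Finset.pair_comm]
    · rw [← key (rv_mem_dstr (hD hX)) (hD hY) h1 h2]
      unfold prs
      rw [rv_rv, Finset.pair_comm]
    · have h3 := key (rv_mem_dstr (hD hX)) (rv_mem_dstr (hD hY)) h1 h2
      rw [← rv_rv X, h3, rv_rv]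

theorem sum_cnt_eq {D : Finset (Finset (V × V))} (hD : D ⊆ dstr Q F ω)
    (S : Finset (V × V)) (hS : ∀ a ∈ S, a ∈ dE Q F ∧ dst Q F ω a ∈ D) :
    ∑ U ∈ D.image prs, cnt S U = S.card := by
  apply le_antisymm (sum_cnt hD S)
  calc S.card ≤ ((D.image prs).biUnion fun U => S ∩ U.biUnion id).card := by
        apply Finset.card_le_card
        intro a ha
        obtain ⟨h1, h2⟩ := hS a ha
        refine Finset.mem_biUnion.mpr ⟨prs (dst Q F ω a), Finset.mem_image_of_mem _ h2, ?_⟩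
        rw [biUnion_prs]
        exact Finset.mem_inter.mpr ⟨ha, Finset.mem_union_left _ (self_mem_dst h1)⟩
    _ ≤ ∑ U ∈ D.image prs, cnt S U := Finset.card_biUnion_le

theorem sw_one (X : Finset (V × V)) : sw Q F ω (fun _ => 1) X = zeta ^ (tX Q F ω X) := by
  rw [sw_eq, Finset.prod_const_one, one_mul]

theorem sum_prs (hQ : NoLoop Q) (hX : X ∈ dstr Q F ω) (g : Finset (V × V) → ℂ) :
    ∑ Y ∈ prs X, g Y = g X + g (rv X) := by
  unfold prs
  exact Finset.sum_pair (rv_ne hQ hX).symm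

theorem zeta_sum_zero : zeta ^ (0 : ℤ) + zeta ^ (-0 : ℤ) = ((r4 ^ 2 * c4 : ℝ) : ℂ) := by
  have h : r4 ^ 2 * c4 = 2 := by
    unfold c4
    have := r4_pos
    field_simp
  rw [h]
  norm_num

theorem zeta_sum_two : zeta ^ (2 : ℤ) + zeta ^ (-2 : ℤ) = ((r4 ^ 2 : ℝ) : ℂ) := by
  rw [zeta_two, r4_sq]

/-- The weight of an irrelevant strand. -/
theorem wt_prs (hQ : NoLoop Q) {Eb Et : Finset (V × V)} (hF : Flat Q F P Eb Et)
    (hT : Turns Q F ω Eb Et) (hX : X ∈ dstr Q F ω) (hn : ¬ touch P X) :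
    ∑ Y ∈ prs X, sw Q F ω (fun _ => 1) Y =
      ((r4 ^ cnt (Eb ∪ Et) (prs X) * c4 ^ cnt (thr Q F ω Eb Et) (prs X) : ℝ) : ℂ) := by
  rw [sum_prs hQ hX, sw_one, sw_one, tX_rv hX]
  unfold cnt
  rw [biUnion_prs]
  have hIb : ∀ a ∈ Eb, Ini Q (F : Set Φ) a := fun a ha => (mem_bS.mp (hF.bot ha)).2
  have hIt : ∀ a ∈ Et, Ini Q (F : Set Φ) a := fun a ha => (mem_bS.mp (hF.top ha)).2
  have hI : ∀ a ∈ Eb ∪ Et, Ini Q (F : Set Φ) a := by
    intro a ha
    rcases Finset.mem_union.mp ha with h | h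
    · exact hIb a h
    · exact hIt a h
  by_cases hc : ∀ a ∈ X, ¬ Ini Q (F : Set Φ) a
  · -- closed
    have hT' : ∀ a ∈ X, ¬ Ter Q (F : Set Φ) a := by
      intro a ha ht
      obtain ⟨b, hb, hb2⟩ := ini_of_ter hX ha ht
      exact hc b hb hb2
    have e1 : (Eb ∪ Et) ∩ (X ∪ rv X) = ∅ := by
      rw [Finset.eq_empty_iff_forall_notMem]
      intro a ha
      obtain ⟨h1, h2⟩ := Finset.mem_inter.mp ha
      rcases Finset.mem_union.mp h2 with h3 | h3
      · exact hc a h3 (hI a h1)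
      · exact hT' _ (mem_rv.mp h3) (ter_swap.mpr (hI a h1))
    have e2 : thr Q F ω Eb Et ∩ (X ∪ rv X) = ∅ := by
      rw [Finset.eq_empty_iff_forall_notMem]
      intro a ha
      obtain ⟨h1, h2⟩ := Finset.mem_inter.mp ha
      have h4 := hIt _ (mem_thr.mp h1).1
      rcases Finset.mem_union.mp h2 with h3 | h3
      · exact hT' a h3 (ini_swap.mp h4)
      · exact hc _ (mem_rv.mp h3) h4
    rw [e1, e2, Finset.card_empty, pow_zero, pow_zero, mul_one]
    rcases hT.closed X hX hc with h | h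
    · rw [h]
      rw [zeta_four]
      norm_num
    · rw [h, neg_neg, add_comm, zeta_four]
      norm_num
  · push Not at hc
    obtain ⟨a, haX, haI⟩ := hc
    obtain ⟨haE, rfl⟩ := dstr_of_mem hX haX
    have ha : a ∈ bS Q F := mem_bS.mpr ⟨haE, haI⟩
    have hb := mate_mem (ω := ω) ha
    set b := mate Q F ω a with hbdef
    have hrv : rv (dst Q F ω a) = dst Q F ω b := rv_dst_mate ha
    have hab : a ≠ b := (mate_ne hQ ha).symm
    have hnb : ¬ touch P (dst Q F ω b) := by rw [← hrv, touch_rv]; exact hn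
    have haE0 : a ∈ Eb ∨ a ∈ Et := by
      rcases hF.all a ha with h | h | h
      · exact Or.inl h
      · exact Or.inr h
      · exact absurd (touch_iff.mpr ⟨a, haX, h⟩) hn
    have hbX : b ∈ dst Q F ω b := self_mem_dst (mem_bS.mp hb).1
    have hbE0 : b ∈ Eb ∨ b ∈ Et := by
      rcases hF.all b hb with h | h | h
      · exact Or.inl h
      · exact Or.inr h
      · exact absurd (touch_iff.mpr ⟨b, hbX, h⟩) hnb
    have uX : ∀ e ∈ dst Q F ω a, Ini Q (F : Set Φ) e → e = a := fun e he hi =>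
      (ini_unique haI hi (mem_dst.mp he).2).symm
    have uY : ∀ e ∈ dst Q F ω b, Ini Q (F : Set Φ) e → e = b := fun e he hi =>
      (ini_unique (mem_bS.mp hb).2 hi (mem_dst.mp he).2).symm
    have e1 : (Eb ∪ Et) ∩ (dst Q F ω a ∪ rv (dst Q F ω a)) = {a, b} := by
      rw [hrv]
      ext e
      simp only [Finset.mem_inter, Finset.mem_union, Finset.mem_insert, Finset.mem_singleton]
      constructor
      · rintro ⟨h1, h2 | h2⟩
        · exact Or.inl (uX e h2 (hI e (Finset.mem_union.mpr h1)))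
        · exact Or.inr (uY e h2 (hI e (Finset.mem_union.mpr h1)))
      · rintro (rfl | rfl)
        · exact ⟨haE0, Or.inl haX⟩
        · exact ⟨hbE0, Or.inr hbX⟩
    have sab : SRel Q F ω a b.swap := by
      have := srel_mate (ω := ω) ha
      have h2 := srel_swap this
      rw [Prod.swap_swap] at h2
      exact EqvGen.symm _ _ h2
    have sba : SRel Q F ω b a.swap := srel_mate ha
    -- the through strands
    have t1 : ∀ t ∈ thr Q F ω Eb Et, t ∈ dst Q F ω a → t = b.swap ∧ a ∈ Eb ∧ b ∈ Et := by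
      intro t ht htX
      obtain ⟨h1, a', ha', h2⟩ := mem_thr.mp ht
      have h3 : Ter Q (F : Set Φ) t := ini_swap.mp (hIt _ h1)
      have h4 := mate_unique (ω := ω) haI h3 (mem_dst.mp htX).2
      rw [← hbdef] at h4
      have h5 : a' = a := by
        refine uX a' (mem_dst.mpr ⟨(mem_bS.mp (hF.bot ha')).1, ?_⟩) (hIb a' ha')
        exact EqvGen.trans _ _ _ (mem_dst.mp htX).2 (EqvGen.symm _ _ h2)
      refine ⟨by rw [h4, Prod.swap_swap], h5 ▸ ha', ?_⟩
      rw [h4]
      exact h1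
    have t2 : ∀ t ∈ thr Q F ω Eb Et, t ∈ dst Q F ω b → t = a.swap ∧ b ∈ Eb ∧ a ∈ Et := by
      intro t ht htX
      obtain ⟨h1, a', ha', h2⟩ := mem_thr.mp ht
      have h3 : Ter Q (F : Set Φ) t := ini_swap.mp (hIt _ h1)
      have h4 := mate_unique (ω := ω) (mem_bS.mp hb).2 h3 (mem_dst.mp htX).2
      rw [hbdef, mate_mate ha] at h4
      have h5 : a' = b := by
        refine uY a' (mem_dst.mpr ⟨(mem_bS.mp (hF.bot ha')).1, ?_⟩) (hIb a' ha')
        exact EqvGen.trans _ _ _ (mem_dst.mp htX).2 (EqvGen.symm _ _ h2)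
      refine ⟨by rw [h4, Prod.swap_swap], h5 ▸ ha', ?_⟩
      rw [h4]
      exact h1
    rw [e1, Finset.card_pair hab]
    have hdis := Finset.disjoint_left.mp hF.disj
    rcases haE0 with ha0 | ha0 <;> rcases hbE0 with hb0 | hb0
    · -- both at the bottom
      have e2 : thr Q F ω Eb Et ∩ (dst Q F ω a ∪ rv (dst Q F ω a)) = ∅ := by
        rw [hrv, Finset.eq_empty_iff_forall_notMem]
        intro t ht
        obtain ⟨h1, h2⟩ := Finset.mem_inter.mp ht
        rcases Finset.mem_union.mp h2 with h3 | h3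
        · exact hdis hb0 (t1 t h1 h3).2.2
        · exact hdis ha0 (t2 t h1 h3).2.2
      rw [e2, Finset.card_empty, pow_zero, mul_one]
      rcases hT.bb a ha0 hb0 with h | h
      · unfold turn at h
        rw [h]
        exact zeta_sum_two
      · unfold turn at h
        rw [h, neg_neg, add_comm]
        exact zeta_sum_two
    · -- from the bottom to the top
      have e2 : thr Q F ω Eb Et ∩ (dst Q F ω a ∪ rv (dst Q F ω a)) = {b.swap} := by
        rw [hrv]
        ext t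
        simp only [Finset.mem_inter, Finset.mem_union, Finset.mem_singleton]
        constructor
        · rintro ⟨h1, h3 | h3⟩
          · exact (t1 t h1 h3).1
          · exact absurd (t2 t h1 h3).2.2 (hdis ha0)
        · rintro rfl
          refine ⟨mem_thr.mpr ⟨by rw [Prod.swap_swap]; exact hb0, a, ha0, sab⟩, Or.inl ?_⟩
          exact mem_dst.mpr ⟨swap_mem_dE.mpr (mem_bS.mp hb).1, sab⟩
      rw [e2, Finset.card_singleton, pow_one]
      have h := hT.bt a ha0 hb0
      unfold turn at h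
      rw [h]
      exact zeta_sum_zero
    · -- from the top to the bottom
      have e2 : thr Q F ω Eb Et ∩ (dst Q F ω a ∪ rv (dst Q F ω a)) = {a.swap} := by
        rw [hrv]
        ext t
        simp only [Finset.mem_inter, Finset.mem_union, Finset.mem_singleton]
        constructor
        · rintro ⟨h1, h3 | h3⟩
          · exact absurd (t1 t h1 h3).2.2 (hdis hb0)
          · exact (t2 t h1 h3).1
        · rintro rfl
          refine ⟨mem_thr.mpr ⟨by rw [Prod.swap_swap]; exact ha0, b, hb0, sba⟩, Or.inr ?_⟩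
          exact mem_dst.mpr ⟨swap_mem_dE.mpr haE, sba⟩
      rw [e2, Finset.card_singleton, pow_one]
      have h := hT.bt b hb0 (by rw [hbdef, mate_mate ha]; exact ha0)
      have h1 := turn_mate (ω := ω) ha
      rw [← hbdef, h] at h1
      have h2 : turn Q F ω a = 0 := by omega
      unfold turn at h2
      rw [h2]
      exact zeta_sum_zero
    · -- both at the top
      have e2 : thr Q F ω Eb Et ∩ (dst Q F ω a ∪ rv (dst Q F ω a)) = ∅ := by
        rw [hrv, Finset.eq_empty_iff_forall_notMem]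
        intro t ht
        obtain ⟨h1, h2⟩ := Finset.mem_inter.mp ht
        rcases Finset.mem_union.mp h2 with h3 | h3
        · exact hdis (t1 t h1 h3).2.1 ha0
        · exact hdis (t2 t h1 h3).2.1 hb0
      rw [e2, Finset.card_empty, pow_zero, mul_one]
      rcases hT.tt a ha0 hb0 with h | h
      · unfold turn at h
        rw [h]
        exact zeta_sum_two
      · unfold turn at h
        rw [h, neg_neg, add_comm]
        exact zeta_sum_two

theorem Zn_eq_prod (hQ : NoLoop Q) {Eb Et : Finset (V × V)} (hF : Flat Q F P Eb Et)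
    (hT : Turns Q F ω Eb Et) : Zn Q F ω (fun _ => 1) P =
      ((r4 ^ (∑ U ∈ ((dstr Q F ω).filter (fun X => ¬ touch P X)).image prs, cnt (Eb ∪ Et) U) *
        c4 ^ (∑ U ∈ ((dstr Q F ω).filter (fun X => ¬ touch P X)).image prs,
          cnt (thr Q F ω Eb Et) U) : ℝ) : ℂ) := by
  unfold Zn
  rw [← Finset.prod_pow_eq_pow_sum, ← Finset.prod_pow_eq_pow_sum, ← Finset.prod_mul_distrib,
    Complex.ofReal_prod]
  refine Finset.prod_congr rfl fun U hU => ?_
  obtain ⟨X, hX, rfl⟩ := Finset.mem_image.mp hU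
  obtain ⟨h1, h2⟩ := Finset.mem_filter.mp hX
  exact wt_prs hQ hF hT h1 h2

/-- **Bound of the irrelevant part.** -/
theorem norm_Zn_le (hQ : NoLoop Q) {Eb Et : Finset (V × V)} (hF : Flat Q F P Eb Et)
    (hT : Turns Q F ω Eb Et) : ‖Zn Q F ω (fun _ => 1) P‖ ≤
      r4 ^ (Eb ∪ Et).card * c4 ^ (thr Q F ω Eb Et).card := by
  have r0 := r4_pos
  have c0 := c4_pos
  rw [Zn_eq_prod hQ hF hT, Complex.norm_real, Real.norm_eq_abs, abs_of_pos (by positivity)]
  apply mul_le_mul
  · exact pow_le_pow_right₀ r4_ge (sum_cnt (Finset.filter_subset _ _) _)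
  · exact pow_le_pow_right₀ c4_ge (sum_cnt (Finset.filter_subset _ _) _)
  · positivity
  · positivity

/-- **Value of the irrelevant part** if the strands of the flat ends are irrelevant. -/
theorem Zn_eval (hQ : NoLoop Q) {Eb Et : Finset (V × V)} (hF : Flat Q F P Eb Et)
    (hT : Turns Q F ω Eb Et) (hn : ∀ a ∈ Eb ∪ Et, ¬ touch P (dst Q F ω a)) :
    Zn Q F ω (fun _ => 1) P =
      ((r4 ^ (Eb ∪ Et).card * c4 ^ (thr Q F ω Eb Et).card : ℝ) : ℂ) := by
  have hE : ∀ a ∈ Eb ∪ Et, a ∈ dE Q F := by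
    intro a ha
    rcases Finset.mem_union.mp ha with h | h
    · exact (mem_bS.mp (hF.bot h)).1
    · exact (mem_bS.mp (hF.top h)).1
  rw [Zn_eq_prod hQ hF hT, sum_cnt_eq (Finset.filter_subset _ _),
    sum_cnt_eq (Finset.filter_subset _ _)]
  · intro t ht
    obtain ⟨h1, -, -, -⟩ := mem_thr.mp ht
    have h2 := hE _ (Finset.mem_union_right _ h1)
    have h3 : t ∈ dE Q F := swap_mem_dE.mp h2
    refine ⟨h3, Finset.mem_filter.mpr ⟨mem_dstr.mpr ⟨t, h3, rfl⟩, ?_⟩⟩
    have h4 := hn _ (Finset.mem_union_right _ h1)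
    rwa [← rv_dst, touch_rv] at h4
  · intro a ha
    exact ⟨hE a ha, Finset.mem_filter.mpr ⟨mem_dstr.mpr ⟨a, hE a ha, rfl⟩, hn a ha⟩⟩

end

end Pool.Agent.SixB.Rel
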