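import Pool.Agent.Lib.SixB.CylTurn
import Pool.Agent.Lib.SixB.PlaneU
import Pool.Agent.Lib.SixB.S3Plane

/-!
# The cylinder of odd circumference: turnings of the strands, part B

`Cyl.turns`: closed strands `± 4`, strands with both ends at the bottom (or both at the top) `± 2`,
strands from the bottom to the top `0`.
-/

set_option autoImplicit false
set_option linter.unusedSectionVars false

namespace Pool.Agent.SixB

open Pool.Agent.Perc Pool.Agent.Perc.Q Relation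

noncomputable section

theorem segm_label {V : Type} {pos : ℤ × ℤ → V} {a : ℤ} (n : ℕ) : ∀ {p : ℤ × ℤ} {x : (V × V) × ℤ},
    x ∈ segm pos p a n → x.2 = a := by
  induction n with
  | zero =>
    intro p x hx
    rw [segm_zero] at hx
    simp at hx
  | succ n ih =>
    intro p x hx
    rw [segm_succ, List.mem_cons] at hx
    rcases hx with rfl | hx
    · rfl
    · exact ih hx

section Rect

variable {x y : ℤ} {n m : ℕ}

/-- the four parts of the boundary word of a rectangle -/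
def wR (x y : ℤ) (n m : ℕ) : List (((ℤ × ℤ) × (ℤ × ℤ)) × ℤ) :=
  segm id (x, y) 0 (n + 1) ++ (segm id (x + (n + 1 : ℕ), y) 1 (m + 1) ++
    (segm id (x + (n + 1 : ℕ), y + (m + 1 : ℕ)) 2 (n + 1) ++
      segm id (x, y + (m + 1 : ℕ)) 3 (m + 1)))

theorem segm0 {x y : ℤ} {n : ℕ} {z : ((ℤ × ℤ) × (ℤ × ℤ)) × ℤ} (h : z ∈ segm id (x, y) 0 n) :
    ∃ i : ℤ, x ≤ i ∧ i < x + n ∧ z = (((i, y), (i + 1, y)), 0) := by
  obtain ⟨j, hj, h1⟩ := mem_segm _ h
  refine ⟨x + j, by omega, by omega, Prod.ext ?_ (segm_label _ h)⟩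
  rw [h1]
  simp [dv0]

theorem segm1 {x y : ℤ} {n : ℕ} {z : ((ℤ × ℤ) × (ℤ × ℤ)) × ℤ} (h : z ∈ segm id (x, y) 1 n) :
    ∃ i : ℤ, y ≤ i ∧ i < y + n ∧ z = (((x, i), (x, i + 1)), 1) := by
  obtain ⟨j, hj, h1⟩ := mem_segm _ h
  refine ⟨y + j, by omega, by omega, Prod.ext ?_ (segm_label _ h)⟩
  rw [h1]
  simp [dv1]

theorem segm2 {x y : ℤ} {n : ℕ} {z : ((ℤ × ℤ) × (ℤ × ℤ)) × ℤ} (h : z ∈ segm id (x, y) 2 n) :
    ∃ i : ℤ, x - n ≤ i ∧ i < x ∧ z = (((i + 1, y), (i, y)), 2) := by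
  obtain ⟨j, hj, h1⟩ := mem_segm _ h
  refine ⟨x - j - 1, by omega, by omega, Prod.ext ?_ (segm_label _ h)⟩
  rw [h1]
  simp [dv2]
  constructor <;> ring

theorem segm3 {x y : ℤ} {n : ℕ} {z : ((ℤ × ℤ) × (ℤ × ℤ)) × ℤ} (h : z ∈ segm id (x, y) 3 n) :
    ∃ i : ℤ, y - n ≤ i ∧ i < y ∧ z = (((x, i + 1), (x, i)), 3) := by
  obtain ⟨j, hj, h1⟩ := mem_segm _ h
  refine ⟨y - j - 1, by omega, by omega, Prod.ext ?_ (segm_label _ h)⟩
  rw [h1]
  simp [dv3]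
  constructor <;> ring

/-- a horizontal edge to the right in the word is in the bottom part -/
theorem wR_bot {z : ((ℤ × ℤ) × (ℤ × ℤ)) × ℤ} {i : ℕ} (h : (wR x y n m)[i]? = some z) {p q : ℤ}
    (hz : z.1 = ((p, q), (p + 1, q))) : i < n + 1 ∧ z.2 = 0 := by
  have hlt : i < n + 1 := by
    by_contra hc
    unfold wR at h
    rw [List.getElem?_append_right (by rw [segm_length]; omega)] at h
    have hm := List.mem_of_getElem? h
    rw [List.mem_append, List.mem_append] at hm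
    rcases hm with hm | hm | hm
    · obtain ⟨j, -, -, rfl⟩ := segm1 hm
      simp only [Prod.mk.injEq] at hz
      omega
    · obtain ⟨j, -, -, rfl⟩ := segm2 hm
      simp only [Prod.mk.injEq] at hz
      omega
    · obtain ⟨j, -, -, rfl⟩ := segm3 hm
      simp only [Prod.mk.injEq] at hz
      omega
  refine ⟨hlt, ?_⟩
  unfold wR at h
  rw [List.getElem?_append_left (by rw [segm_length]; exact hlt)] at h
  obtain ⟨j, -, -, rfl⟩ := segm0 (List.mem_of_getElem? h)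
  rfl

/-- a horizontal edge to the left in the word is in the top part -/
theorem wR_top {z : ((ℤ × ℤ) × (ℤ × ℤ)) × ℤ} {i : ℕ} (h : (wR x y n m)[i]? = some z) {p q : ℤ}
    (hz : z.1 = ((p + 1, q), (p, q))) : n + 1 ≤ i ∧ z.2 = 2 := by
  have hge : n + 1 ≤ i := by
    by_contra hc
    unfold wR at h
    rw [List.getElem?_append_left (by rw [segm_length]; omega)] at h
    obtain ⟨j, -, -, rfl⟩ := segm0 (List.mem_of_getElem? h)
    simp only [Prod.mk.injEq] at hz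
    omega
  refine ⟨hge, ?_⟩
  unfold wR at h
  rw [List.getElem?_append_right (by rw [segm_length]; omega)] at h
  have hm := List.mem_of_getElem? h
  rw [List.mem_append, List.mem_append] at hm
  rcases hm with hm | hm | hm
  · obtain ⟨j, -, -, rfl⟩ := segm1 hm
    simp only [Prod.mk.injEq] at hz
    omega
  · obtain ⟨j, -, -, rfl⟩ := segm2 hm
    rfl
  · obtain ⟨j, -, -, rfl⟩ := segm3 hm
    simp only [Prod.mk.injEq] at hz
    omega

variable {F : Finset (ℤ × ℤ)}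

/-- turnings of the strands of a rectangle which join horizontal sides -/
theorem rect_turn (hF : (F : Set (ℤ × ℤ)) = RS x (x + (n + 1 : ℕ)) y (y + (m + 1 : ℕ))) (w : Cfg)
    {a : (ℤ × ℤ) × (ℤ × ℤ)} (ha : a ∈ bS ZQ F) {p q p' q' : ℤ} :
    (a = ((p, q), (p + 1, q)) → mate ZQ F w a = ((p', q'), (p' + 1, q')) →
      turn ZQ F w a = 2 ∨ turn ZQ F w a = -2) ∧
    (a = ((p + 1, q), (p, q)) → mate ZQ F w a = ((p' + 1, q'), (p', q')) →
      turn ZQ F w a = 2 ∨ turn ZQ F w a = -2) ∧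
    (a = ((p, q), (p + 1, q)) → mate ZQ F w a = ((p' + 1, q'), (p', q')) →
      turn ZQ F w a = 0) := by
  obtain ⟨G, hD⟩ := disc_rect n m (chart_ZQ (RS x (x + (n + 1 : ℕ)) y (y + (m + 1 : ℕ))))
  rw [Set.image_id, ← hF] at hD
  have hw : ∀ e ∈ (wR x y n m).map Prod.fst, Ini ZQ (F : Set (ℤ × ℤ)) e := by
    intro e he f hf k hk
    obtain ⟨z, hz, rfl⟩ := List.mem_map.mp he
    have hf' : f ∈ RS x (x + (n + 1 : ℕ)) y (y + (m + 1 : ℕ)) := by rw [← hF]; exact hf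
    obtain ⟨f1, f2⟩ := f
    obtain ⟨h1, h2, h3, h4⟩ := hf'
    simp only at h1 h2 h3 h4
    change z.1 = (cor0 (f1, f2) (k + 1), cor0 (f1, f2) k) at hk
    have e1 : (0 : ZMod 4) + 1 = 1 := rfl
    have e2 : (1 : ZMod 4) + 1 = 2 := rfl
    have e3 : (2 : ZMod 4) + 1 = 3 := rfl
    have e4 : (3 : ZMod 4) + 1 = 0 := rfl
    have hcor : z.1 = ((f1 + 1, f2), (f1, f2)) ∨ z.1 = ((f1 + 1, f2 + 1), (f1 + 1, f2)) ∨
        z.1 = ((f1, f2 + 1), (f1 + 1, f2 + 1)) ∨ z.1 = ((f1, f2), (f1, f2 + 1)) := by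
      rcases k4_cases k with rfl | rfl | rfl | rfl
      · rw [e1, cor0_0, cor0_1] at hk; exact Or.inl hk
      · rw [e2, cor0_1, cor0_2] at hk; exact Or.inr (Or.inl hk)
      · rw [e3, cor0_2, cor0_3] at hk; exact Or.inr (Or.inr (Or.inl hk))
      · rw [e4, cor0_3, cor0_0] at hk; exact Or.inr (Or.inr (Or.inr hk))
    unfold wR at hz
    rw [List.mem_append, List.mem_append, List.mem_append] at hz
    rcases hz with hz | hz | hz | hz
    · obtain ⟨j, j1, j2, rfl⟩ := segm0 hz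
      simp only [Prod.mk.injEq] at hcor
      omega
    · obtain ⟨j, j1, j2, rfl⟩ := segm1 hz
      simp only [Prod.mk.injEq] at hcor
      omega
    · obtain ⟨j, j1, j2, rfl⟩ := segm2 hz
      simp only [Prod.mk.injEq] at hcor
      omega
    · obtain ⟨j, j1, j2, rfl⟩ := segm3 hz
      simp only [Prod.mk.injEq] at hcor
      omega
  have hD' : Disc ZQ (F : Set (ℤ × ℤ)) G (wR x y n m) := by
    unfold wR
    exact hD
  obtain ⟨M, h1, -, h3⟩ := hD'.mates hw w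
  have ha' := (hD'.mem_bS hw).mp ha
  obtain ⟨z, hz, hza⟩ := List.mem_map.mp ha'
  obtain ⟨i, hi⟩ := List.getElem?_of_mem hz
  have hilt : i < (wR x y n m).length := by
    by_contra hc
    rw [List.getElem?_eq_none (by omega)] at hi
    cases hi
  obtain ⟨h4, h5, h6⟩ := h1 i hilt
  obtain ⟨z', hz'⟩ : ∃ z', (wR x y n m)[M i]? = some z' := ⟨_, List.getElem?_eq_getElem h4⟩
  obtain ⟨h7, h8⟩ := h3 i z z' hi hz'
  rw [hza] at h7 h8
  refine ⟨fun e1 e2 => ?_, fun e1 e2 => ?_, fun e1 e2 => ?_⟩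
  · have h9 := wR_bot hi (hza.trans e1)
    have h10 := wR_bot hz' (h7.symm.trans e2)
    rw [h8, h9.2, h10.2]
    split_ifs
    · right; norm_num
    · left; norm_num
  · have h9 := wR_top hi (hza.trans e1)
    have h10 := wR_top hz' (h7.symm.trans e2)
    rw [h8, h9.2, h10.2]
    split_ifs
    · right; norm_num
    · left; norm_num
  · have h9 := wR_bot hi (hza.trans e1)
    have h10 := wR_top hz' (h7.symm.trans e2)
    rw [h8, h9.2, h10.2, if_pos (by omega)]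
    norm_num

end Rect

theorem iniBot {x₀ x₁ y₀ y₁ p : ℤ} :
    Ini ZQ (RF x₀ x₁ y₀ y₁ : Finset (ℤ × ℤ)) ((p, y₀), (p + 1, y₀)) := by
  rintro ⟨f1, f2⟩ hf k h
  rw [Finset.mem_coe, mem_RFi] at hf
  simp only at hf
  change ((p, y₀), (p + 1, y₀)) = (cor0 (f1, f2) (k + 1), cor0 (f1, f2) k) at h
  have e1 : (0 : ZMod 4) + 1 = 1 := rfl
  have e2 : (1 : ZMod 4) + 1 = 2 := rfl
  have e3 : (2 : ZMod 4) + 1 = 3 := rfl
  have e4 : (3 : ZMod 4) + 1 = 0 := rfl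
  rcases k4_cases k with rfl | rfl | rfl | rfl
  · rw [e1, cor0_0, cor0_1] at h; simp only [Prod.mk.injEq] at h; omega
  · rw [e2, cor0_1, cor0_2] at h; simp only [Prod.mk.injEq] at h; omega
  · rw [e3, cor0_2, cor0_3] at h; simp only [Prod.mk.injEq] at h; omega
  · rw [e4, cor0_3, cor0_0] at h; simp only [Prod.mk.injEq] at h; omega

theorem iniTop {x₀ x₁ y₀ y₁ p : ℤ} :
    Ini ZQ (RF x₀ x₁ y₀ y₁ : Finset (ℤ × ℤ)) ((p + 1, y₁), (p, y₁)) := by
  rintro ⟨f1, f2⟩ hf k h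
  rw [Finset.mem_coe, mem_RFi] at hf
  simp only at hf
  change ((p + 1, y₁), (p, y₁)) = (cor0 (f1, f2) (k + 1), cor0 (f1, f2) k) at h
  have e1 : (0 : ZMod 4) + 1 = 1 := rfl
  have e2 : (1 : ZMod 4) + 1 = 2 := rfl
  have e3 : (2 : ZMod 4) + 1 = 3 := rfl
  have e4 : (3 : ZMod 4) + 1 = 0 := rfl
  rcases k4_cases k with rfl | rfl | rfl | rfl
  · rw [e1, cor0_0, cor0_1] at h; simp only [Prod.mk.injEq] at h; omega
  · rw [e2, cor0_1, cor0_2] at h; simp only [Prod.mk.injEq] at h; omega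
  · rw [e3, cor0_2, cor0_3] at h; simp only [Prod.mk.injEq] at h; omega
  · rw [e4, cor0_3, cor0_0] at h; simp only [Prod.mk.injEq] at h; omega

theorem RF_eq_RS {L y₀ y₁ : ℤ} (hL : 1 ≤ L) (hy : y₀ < y₁) : ∃ n m : ℕ,
    ((RF (-L) L y₀ y₁ : Finset (ℤ × ℤ)) : Set (ℤ × ℤ)) =
      RS (-L) (-L + (n + 1 : ℕ)) y₀ (y₀ + (m + 1 : ℕ)) := by
  refine ⟨(2 * L - 1).toNat, (y₁ - y₀ - 1).toNat, ?_⟩
  ext f
  rw [Finset.mem_coe, mem_RFi]
  unfold RS
  rw [Set.mem_ofPred_eq]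
  omega

variable {N : ℕ} [hN : Fact (3 ≤ N)] {ω : ZMod N × ℤ → Bool} {y₀ y₁ : ℤ}

theorem exists_ue {F' : Finset (ZMod N × ℤ)} {a' : (ZMod N × ℤ) × (ZMod N × ℤ)}
    (h : a' ∈ dE (CQ N) F') : ∃ a, UE a ∧ pE N a = a' := by
  have key : ∀ (f : ZMod N × ℤ) (k : ZMod 4), ∃ a, UE a ∧ pE N a = sd (CQ N) f k := by
    rintro ⟨x, y⟩ k
    obtain ⟨xi, rfl⟩ := ZMod.intCast_surjective x
    exact ⟨sd ZQ (xi, y) k, ⟨_, _, rfl⟩, pE_sd (xi, y) k⟩
  obtain ⟨f, -, k, rfl | rfl⟩ := mem_dE.mp h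
  · exact key f k
  · obtain ⟨a, ha, ha'⟩ := key f k
    exact ⟨a.swap, ha.swap, by rw [pE_swap, ha']⟩

theorem bE_lift (x : ZMod N) (y : ℤ) : ∃ p : ℤ, UE ((p, y), (p + 1, y)) ∧
    pE N ((p, y), (p + 1, y)) = bE x y := by
  obtain ⟨xi, rfl⟩ := ZMod.intCast_surjective x
  refine ⟨xi, ⟨(xi, y), 0, ?_⟩, ?_⟩
  · change _ = (cor0 (xi, y) 0, cor0 (xi, y) 1)
    rw [cor0_0, cor0_1]
  · have h1 : bE (xi : ZMod N) y = pE N (sd ZQ (xi, y) 0) := (pE_sd (N := N) (xi, y) 0).symm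
    rw [h1]
    change _ = pE N (cor0 (xi, y) 0, cor0 (xi, y) 1)
    rw [cor0_0, cor0_1]

/-- every lift of an edge of a level is an edge of the level -/
theorem lift_bE {b : (ℤ × ℤ) × (ℤ × ℤ)} (hb : UE b) {x : ZMod N} {y : ℤ} (h : pE N b = bE x y) :
    ∃ p : ℤ, b = ((p, y), (p + 1, y)) := by
  obtain ⟨p, h1, h2⟩ := bE_lift x y
  obtain ⟨m, rfl⟩ := exists_tau h1 hb (h2.trans h.symm)
  refine ⟨p + N * m, ?_⟩
  unfold tauE tau
  simp only [Prod.map]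
  refine Prod.ext rfl (Prod.ext ?_ rfl)
  simp only
  ring

theorem lift_bE_swap {b : (ℤ × ℤ) × (ℤ × ℤ)} (hb : UE b) {x : ZMod N} {y : ℤ}
    (h : pE N b = (bE x y).swap) : ∃ p : ℤ, b = ((p + 1, y), (p, y)) := by
  obtain ⟨p, hp⟩ := lift_bE hb.swap (x := x) (y := y) (by rw [pE_swap, h, Prod.swap_swap])
  exact ⟨p, by rw [← Prod.swap_swap b, hp]; rfl⟩

/-- the entering bottom sides -/
def Ebot (N : ℕ) [Fact (3 ≤ N)] (y₀ : ℤ) : Finset ((ZMod N × ℤ) × (ZMod N × ℤ)) :=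
  Finset.univ.image fun x : ZMod N => bE x y₀

/-- the entering top sides -/
def Etop (N : ℕ) [Fact (3 ≤ N)] (y₁ : ℤ) : Finset ((ZMod N × ℤ) × (ZMod N × ℤ)) :=
  Finset.univ.image fun x : ZMod N => (bE x y₁).swap

theorem mem_Ebot {a : (ZMod N × ℤ) × (ZMod N × ℤ)} : a ∈ Ebot N y₀ ↔ ∃ x, bE x y₀ = a := by
  unfold Ebot
  simp

theorem mem_Etop {a : (ZMod N × ℤ) × (ZMod N × ℤ)} : a ∈ Etop N y₁ ↔ ∃ x, (bE x y₁).swap = a := by
  unfold Etop
  simp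

theorem top_sd (x : ZMod N) (y : ℤ) : (bE x y).swap = sd (CQ N) (x, y - 1) 2 := by
  rw [bE, csd_swap_0]

theorem top_not_ter (hy : y₀ < y₁) (x : ZMod N) :
    ¬ Ter (CQ N) (cylF N y₀ y₁ : Set (ZMod N × ℤ)) (bE x y₁).swap := by
  intro h
  exact h (x, y₁ - 1) (mem_cylF_coe (by omega) (by omega)) 2 (top_sd x y₁)

/-- **Turnings of the strands of a cylinder of odd circumference.** -/
theorem cyl_turns (hodd : Odd N) (hy : y₀ < y₁) (ω : ZMod N × ℤ → Bool) :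
    Rel.Turns (CQ N) (cylF N y₀ y₁) ω (Ebot N y₀) (Etop N y₁) where
  closed := by
    intro X hX hX'
    obtain ⟨a', ha', rfl⟩ := mem_dstr.mp hX
    obtain ⟨n, h1, -⟩ := closed_walk (G := Set.univ) hX hX' (self_mem_dst ha')
      (fun _ _ => Set.mem_univ _)
    obtain ⟨a, ha, rfl⟩ := exists_ue ha'
    have hclo : Clo (CQ N) (cylF N y₀ y₁) ω (pE N a) := walk_tg h1
    obtain ⟨L, hL⟩ := turn_closed hodd hy ha hclo
    obtain ⟨h2, h3⟩ := hL L le_rfl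
    have h4 := uml_ZQ (RF (-L) L y₀ y₁) (lc N ω) a h2
    rw [← h3] at h4
    exact h4
  bb := by
    intro a' ha' hm
    obtain ⟨x, rfl⟩ := mem_Ebot.mp ha'
    obtain ⟨p, hp, hp'⟩ := bE_lift x y₀
    rw [← hp'] at hm ⊢
    obtain ⟨b, hb, h1, h2, L, hL⟩ := turn_open (ω := ω) (y₀ := y₀) (y₁ := y₁) hp
      (by rw [hp']; exact bE_ini x) (by rw [hp']; exact bE_not_ter hy x) (fun _ => iniBot)
    rw [h1] at hm
    obtain ⟨x', hx'⟩ := mem_Ebot.mp hm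
    obtain ⟨q, hq⟩ := lift_bE_swap hb (x := x') (y := y₀) (by rw [hx', Prod.swap_swap])
    obtain ⟨n, m, hRS⟩ := RF_eq_RS (L := max L 1) (le_max_right _ _) hy
    obtain ⟨h3, h4⟩ := hL (max L 1) (le_max_left _ _)
    obtain ⟨h5, h6⟩ := h4 (by rw [hq]; exact ini_swap.mp iniBot)
    rw [h6]
    exact (rect_turn hRS (lc N ω) h3).1 rfl (by rw [h5, hq]; rfl)
  tt := by
    intro a' ha' hm
    obtain ⟨x, rfl⟩ := mem_Etop.mp ha'
    obtain ⟨p, hp, hp'⟩ := bE_lift x y₁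
    have hp1 : pE N ((p + 1, y₁), (p, y₁)) = (bE x y₁).swap := by rw [← hp']; rfl
    rw [← hp1] at hm ⊢
    obtain ⟨b, hb, h1, h2, L, hL⟩ := turn_open (ω := ω) (y₀ := y₀) (y₁ := y₁)
      (a := ((p + 1, y₁), (p, y₁))) hp.swap
      (by rw [hp1]; exact ini_swap.mpr (bE_top_ter x)) (by rw [hp1]; exact top_not_ter hy x)
      (fun _ => iniTop)
    rw [h1] at hm
    obtain ⟨x', hx'⟩ := mem_Etop.mp hm
    obtain ⟨q, hq⟩ := lift_bE hb (x := x') (y := y₁) (Prod.swap_injective hx'.symm)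
    obtain ⟨n, m, hRS⟩ := RF_eq_RS (L := max L 1) (le_max_right _ _) hy
    obtain ⟨h3, h4⟩ := hL (max L 1) (le_max_left _ _)
    obtain ⟨h5, h6⟩ := h4 (by rw [hq]; exact ini_swap.mp iniTop)
    rw [h6]
    exact (rect_turn hRS (lc N ω) h3).2.1 rfl (by rw [h5, hq]; rfl)
  bt := by
    intro a' ha' hm
    obtain ⟨x, rfl⟩ := mem_Ebot.mp ha'
    obtain ⟨p, hp, hp'⟩ := bE_lift x y₀
    rw [← hp'] at hm ⊢
    obtain ⟨b, hb, h1, h2, L, hL⟩ := turn_open (ω := ω) (y₀ := y₀) (y₁ := y₁) hp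
      (by rw [hp']; exact bE_ini x) (by rw [hp']; exact bE_not_ter hy x) (fun _ => iniBot)
    rw [h1] at hm
    obtain ⟨x', hx'⟩ := mem_Etop.mp hm
    obtain ⟨q, hq⟩ := lift_bE hb (x := x') (y := y₁) (Prod.swap_injective hx'.symm)
    obtain ⟨n, m, hRS⟩ := RF_eq_RS (L := max L 1) (le_max_right _ _) hy
    obtain ⟨h3, h4⟩ := hL (max L 1) (le_max_left _ _)
    obtain ⟨h5, h6⟩ := h4 (by rw [hq]; exact ini_swap.mp iniTop)
    rw [h6]
    exact (rect_turn hRS (lc N ω) h3).2.2 rfl (by rw [h5, hq]; rfl)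

end

end Pool.Agent.SixB
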