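import Pool.Agent.Lib.SixB.S3PlaneC
import Pool.Agent.Lib.MP_6bd702_z.Z034
import Pool.Agent.Lib.MP_6bd702_zc.Y024

/-!
# 6BD step 3: blocking annuli of the plane have probability `≥ 1 - 2 θ ^ n`

`oS p L`: the sides on the boundary of the box of radius `L` around `p`, in both directions.
* `blk_plane`: a strand of the annulus from the inner box to the outer boundary gives an arm of one of
  the two colours.
* `sides_inner`, `disj_sides`: the sides which the box shares with an annulus around it.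
-/

set_option autoImplicit false
set_option linter.unusedSectionVars false

namespace Pool.Agent.SixB.Rel

open Pool.Agent.Perc.Q Relation
open Pool.Agent.SixB hiding Zs_split
open Pool.Agent.Perc (Cfg Conn RFb mem_RFb ArmB pr_ArmB_pow OnBd)

noncomputable section

variable {ω ω' : ℤ × ℤ → Bool} {F : Finset (ℤ × ℤ)} {p : ℤ × ℤ} {L L' L₀ L₁ L₂ : ℤ}
  {a b : (ℤ × ℤ) × (ℤ × ℤ)}

/-- the sides on the boundary of the box of radius `L`, in both directions -/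
def oS (p : ℤ × ℤ) (L : ℤ) : Finset ((ℤ × ℤ) × (ℤ × ℤ)) :=
  dE ZQ (RFb p L) ∩ dE ZQ (RFb p (L + 1) \ RFb p L)

/-- the left end of a side of a face is a corner of the face -/
theorem cor_left (ha : a ∈ dE ZQ F) : ∃ f ∈ F, (a.1.1 = f.1 ∨ a.1.1 = f.1 + 1) ∧
    (a.1.2 = f.2 ∨ a.1.2 = f.2 + 1) ∧ (a.2.1 = f.1 ∨ a.2.1 = f.1 + 1) ∧
      (a.2.2 = f.2 ∨ a.2.2 = f.2 + 1) := by
  unfold dE at ha
  simp only [Finset.mem_biUnion, Finset.mem_univ, true_and, Finset.mem_insert,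
    Finset.mem_singleton] at ha
  obtain ⟨f, hf, k, h⟩ := ha
  refine ⟨f, hf, ?_⟩
  have key : ∀ k : ZMod 4, ((ZQ.c f k).1 = f.1 ∨ (ZQ.c f k).1 = f.1 + 1) ∧
      ((ZQ.c f k).2 = f.2 ∨ (ZQ.c f k).2 = f.2 + 1) := by
    intro k
    rcases k4_cases k with rfl | rfl | rfl | rfl
    · exact ⟨Or.inl rfl, Or.inl rfl⟩
    · exact ⟨Or.inr rfl, Or.inl rfl⟩
    · exact ⟨Or.inr rfl, Or.inr rfl⟩
    · exact ⟨Or.inl rfl, Or.inr rfl⟩
  rcases h with rfl | rfl
  · exact ⟨(key k).1, (key k).2, (key (k + 1)).1, (key (k + 1)).2⟩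
  · exact ⟨(key (k + 1)).1, (key (k + 1)).2, (key k).1, (key k).2⟩

/-- the left ends of the sides of a strand are joined -/
theorem srel_conn (h : SRel ZQ F ω a b) : Conn ω (F : Set (ℤ × ℤ)) a.1 b.1 := by
  rw [← connZ_iff]
  rcases srel_iff.mp h with h | h
  · exact (marks h).1.mono Vis_sub
  · exact ConnQ.symm ((marks h).1.mono Vis_sub)

theorem disj_sides (h : L₀ < L₁) : Disjoint (dE ZQ (RFb p L₀)) (dE ZQ (RFb p L₂ \ RFb p L₁)) := by
  rw [Finset.disjoint_left]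
  intro a ha ha'
  obtain ⟨f, hf, h1, h2, -, -⟩ := cor_left ha
  obtain ⟨g, hg, h3, h4, -, -⟩ := cor_left ha'
  obtain ⟨hg1, hg2⟩ := Finset.mem_sdiff.mp hg
  rw [mem_RFb] at hf hg2
  omega

theorem sides_inner : dE ZQ (RFb p L) ∩ dE ZQ (RFb p L' \ RFb p L) ⊆ oS p L := by
  intro a ha
  obtain ⟨ha1, ha2⟩ := Finset.mem_inter.mp ha
  refine Finset.mem_inter.mpr ⟨ha1, ?_⟩
  obtain ⟨f, hf, h1, h2, h3, h4⟩ := cor_left ha1
  unfold dE at ha2 ⊢
  simp only [Finset.mem_biUnion, Finset.mem_univ, true_and] at ha2 ⊢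
  obtain ⟨g, hg, k, h⟩ := ha2
  refine ⟨g, ?_, k, h⟩
  have ha' : a ∈ dE ZQ {g} := by
    unfold dE
    simp only [Finset.mem_biUnion, Finset.mem_univ, true_and, Finset.mem_singleton]
    exact ⟨g, rfl, k, h⟩
  obtain ⟨g', hg', h5, h6, -, -⟩ := cor_left ha'
  rw [Finset.mem_singleton] at hg'
  subst hg'
  obtain ⟨hg1, hg2⟩ := Finset.mem_sdiff.mp hg
  refine Finset.mem_sdiff.mpr ⟨?_, hg2⟩
  rw [mem_RFb] at hf ⊢
  omega

/-- A side on the boundary of a box: both ends are on the boundary. -/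
theorem oS_onBd (ha : a ∈ oS p L) : OnBd (p.1 - L) (p.1 + L) (p.2 - L) (p.2 + L) a.1 := by
  obtain ⟨ha1, ha2⟩ := Finset.mem_inter.mp ha
  obtain ⟨f, hf, h1, h2, -, -⟩ := cor_left ha1
  obtain ⟨g, hg, h3, h4, -, -⟩ := cor_left ha2
  obtain ⟨hg1, hg2⟩ := Finset.mem_sdiff.mp hg
  rw [mem_RFb] at hf hg2
  unfold OnBd
  omega

theorem dep_notBlk {R : Finset (ℤ × ℤ)} {C D : Finset ((ℤ × ℤ) × (ℤ × ℤ))} :
    Dep (R : Set (ℤ × ℤ)) (fun ω => ic (¬ Blk ZQ R ω C D)) := by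
  intro ω ω' h
  have := Blk.congr (Q := ZQ) (R := R) (C := C) (D := D) (ω := ω) (ω' := ω')
    fun f hf => h f (by exact_mod_cast hf)
  simp only [this]

/-- **Blocking annuli of the plane.** -/
theorem blk_plane : ∃ θ : ℝ, 0 < θ ∧ θ < 1 ∧ ∀ (p : ℤ × ℤ) (L : ℤ) (n : ℕ), 0 < L →
    av (RFb p (4 ^ n * L) \ RFb p L) (fun ω => ic (¬ Blk ZQ (RFb p (4 ^ n * L) \ RFb p L) ω
      (dE ZQ (RFb p L)) (oS p (4 ^ n * L)))) ≤ 2 * θ ^ n := by
  classical
  obtain ⟨θ, h0, h1, harm⟩ := pr_ArmB_pow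
  refine ⟨θ, h0, h1, fun p L n hL => ?_⟩
  set R := 4 ^ n * L with hR
  rw [← av_dep (S' := RFb p R) dep_notBlk Finset.sdiff_subset]
  have h2 : av (RFb p R) (fun ω => ic (¬ Blk ZQ (RFb p R \ RFb p L) ω (dE ZQ (RFb p L))
      (oS p R))) ≤ av (RFb p R) (fun ω => (if ω ∈ ArmB 0 p L R then (1 : ℝ) else 0) +
        (if ω ∈ ArmB 1 p L R then (1 : ℝ) else 0)) := by
    refine av_mono fun T _ => ?_
    by_cases hb : Blk ZQ (RFb p R \ RFb p L) (ind T) (dE ZQ (RFb p L)) (oS p R)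
    · rw [ic_not (not_not.mpr hb)]
      split_ifs <;> norm_num
    · rw [ic_of hb]
      unfold Blk at hb
      push Not at hb
      obtain ⟨c, hc, d, hd, -, -, hs⟩ := hb
      have hconn := (srel_conn hs).mono (show ((RFb p R \ RFb p L : Finset (ℤ × ℤ)) :
        Set (ℤ × ℤ)) ⊆ (RFb p R : Set (ℤ × ℤ)) by exact_mod_cast Finset.sdiff_subset)
      obtain ⟨f, hf, h3, h4, -, -⟩ := cor_left hc
      have hbd := oS_onBd hd
      rw [mem_RFb] at hf
      have key : ∀ col : ℤ, (c.1.1 + c.1.2 - col) % 2 = 0 → ind T ∈ ArmB col p L R :=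
        fun col hcol => ⟨c.1, d.1, by omega, by omega, by omega, by omega, hcol, hbd, hconn⟩
      rcases Int.emod_two_eq_zero_or_one (c.1.1 + c.1.2) with h5 | h5
      · rw [if_pos (key 0 (by omega))]
        split_ifs <;> norm_num
      · rw [if_pos (key 1 (by omega))]
        split_ifs <;> norm_num
  refine h2.trans ?_
  rw [av_add, ← pr_eq_av, ← pr_eq_av]
  have h3 := harm 0 p L n hL
  have h4 := harm 1 p L n hL
  linarith

/-- **Blocking annuli of the plane**, for sets of edges which are known only through their left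
ends. -/
theorem blk_planeV : ∃ θ : ℝ, 0 < θ ∧ θ < 1 ∧ ∀ (p : ℤ × ℤ) (L : ℤ) (n : ℕ), 0 < L →
    ∀ C D : Finset ((ℤ × ℤ) × (ℤ × ℤ)),
      (∀ c ∈ C, |c.1.1 - p.1| ≤ L ∧ |c.1.2 - p.2| ≤ L) →
      (∀ d ∈ D, 4 ^ n * L ≤ |d.1.1 - p.1| ∨ 4 ^ n * L ≤ |d.1.2 - p.2|) →
      av (RFb p (4 ^ n * L) \ RFb p L) (fun ω => ic (¬ Blk ZQ (RFb p (4 ^ n * L) \ RFb p L) ω
        C D)) ≤ 2 * θ ^ n := by
  classical
  obtain ⟨θ, h0, h1, harm⟩ := pr_ArmB_pow
  refine ⟨θ, h0, h1, fun p L n hL C D hC hD => ?_⟩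
  set R := 4 ^ n * L with hR
  rw [← av_dep (S' := RFb p R) dep_notBlk Finset.sdiff_subset]
  have h2 : av (RFb p R) (fun ω => ic (¬ Blk ZQ (RFb p R \ RFb p L) ω C D)) ≤
      av (RFb p R) (fun ω => (if ω ∈ ArmB 0 p L R then (1 : ℝ) else 0) +
        (if ω ∈ ArmB 1 p L R then (1 : ℝ) else 0)) := by
    refine av_mono fun T _ => ?_
    by_cases hb : Blk ZQ (RFb p R \ RFb p L) (ind T) C D
    · rw [ic_not (not_not.mpr hb)]
      split_ifs <;> norm_num
    · rw [ic_of hb]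
      unfold Blk at hb
      push Not at hb
      obtain ⟨c, hc, d, hd, -, hdR, hs⟩ := hb
      have hconn := (srel_conn hs).mono (show ((RFb p R \ RFb p L : Finset (ℤ × ℤ)) :
        Set (ℤ × ℤ)) ⊆ (RFb p R : Set (ℤ × ℤ)) by exact_mod_cast Finset.sdiff_subset)
      obtain ⟨h3, h4⟩ := hC c hc
      rw [abs_le] at h3 h4
      have hbd : OnBd (p.1 - R) (p.1 + R) (p.2 - R) (p.2 + R) d.1 := by
        obtain ⟨f, hf, h5, h6, -, -⟩ := cor_left hdR
        obtain ⟨hf1, -⟩ := Finset.mem_sdiff.mp hf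
        rw [mem_RFb] at hf1
        have h7 := hD d hd
        rw [le_abs, le_abs] at h7
        unfold OnBd
        omega
      have key : ∀ col : ℤ, (c.1.1 + c.1.2 - col) % 2 = 0 → ind T ∈ ArmB col p L R :=
        fun col hcol => ⟨c.1, d.1, by omega, by omega, by omega, by omega, hcol, hbd, hconn⟩
      rcases Int.emod_two_eq_zero_or_one (c.1.1 + c.1.2) with h5 | h5
      · rw [if_pos (key 0 (by omega))]
        split_ifs <;> norm_num
      · rw [if_pos (key 1 (by omega))]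
        split_ifs <;> norm_num
  refine h2.trans ?_
  rw [av_add, ← pr_eq_av, ← pr_eq_av]
  have h3 := harm 0 p L n hL
  have h4 := harm 1 p L n hL
  linarith

end

end Pool.Agent.SixB.Rel
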