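import Pool.Agent.Lib.SixB.S3PlaneD
import Pool.Agent.Lib.SixB.S3PlaneBlk
import Pool.Agent.Lib.SixB.CylTurns

/-!
# 6BD step 3: blocking of annuli in glued surfaces, the plane functional `Zp`

* `av_blk_chart`: probabilities of blocking are invariant under charts;
* `GlueZ`: surface which is the plane outside a box; `zn` the functional in the window of radius
  `4 ^ n * L`, `Zp` its limit, `‖zn n - Zp‖ ≤ 4 * CP * thB ^ n`;
* `GlueC.blk`: blocking of annuli in surfaces which are a cylinder outside a box.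
-/

set_option autoImplicit false
set_option linter.unusedSectionVars false

namespace Pool.Agent.SixB.Rel

open Pool.Agent.Perc Pool.Agent.Perc.Q Relation Filter Topology
open Pool.Agent.SixB hiding Zs_split dst_congr qt_congr dE_mono

noncomputable section

section General

variable {V Φ V' Φ' V₂ Φ₂ : Type} [DecidableEq V] [DecidableEq Φ] [DecidableEq V'] [DecidableEq Φ']
  [DecidableEq V₂] [DecidableEq Φ₂]
variable {Q : QC V Φ} {Q' : QC V' Φ'} {Q₂ : QC V₂ Φ₂} {F F' S R : Finset Φ} {ω ω' : Φ → Bool}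
  {a b : V × V} {P : Finset (V × V)} {φ : V → V'} {ψ : Φ → Φ'} {r r' : ZMod 4}

/-- composition of charts -/
theorem QChart.comp {φ' : V' → V₂} {ψ' : Φ' → Φ₂} (H : QChart Q Q' F φ ψ r)
    (H' : QChart Q' Q₂ (F.image ψ) φ' ψ' r') : QChart Q Q₂ F (φ' ∘ φ) (ψ' ∘ ψ) (r + r') where
  inj f hf g hg k l h := by
    have h1 := H.cor f hf k
    have h2 := H.cor g hg l
    have h3 := H'.inj (ψ f) (Finset.mem_image_of_mem _ hf) (ψ g) (Finset.mem_image_of_mem _ hg)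
      (k + r) (l + r) (by rw [h1, h2]; exact h)
    rw [h1, h2] at h3
    exact H.inj f hf g hg k l h3
  cor f hf k := by
    have h1 := H'.cor (ψ f) (Finset.mem_image_of_mem _ hf) (k + r)
    rw [H.cor f hf k] at h1
    rw [← add_assoc]
    exact h1

theorem av_map (hψ : Set.InjOn ψ (S : Set Φ)) {g : (Φ → Bool) → ℝ}
    (hg : Dep (S : Set Φ) g) (c : Bool) {g' : (Φ' → Bool) → ℝ}
    (h : ∀ ω', g' ω' = g (fun f => xor c (ω' (ψ f)))) : av (S.image ψ) g' = av S g := by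
  have h1 := avc_map hψ (g := fun ω => ((g ω : ℝ) : ℂ)) (fun ω ω' hω => by simp only [hg ω ω' hω])
    c (g' := fun ω => ((g' ω : ℝ) : ℂ)) (fun ω' => by rw [h])
  rw [avc_ofReal, avc_ofReal] at h1
  exact_mod_cast h1

theorem blk_restrict {R : Finset Φ} {C D : Finset (V × V)} :
    Blk Q R ω (C ∩ dE Q R) (D ∩ dE Q R) ↔ Blk Q R ω C D := by
  unfold Blk
  constructor
  · intro h c hc d hd hc1 hd1
    exact h c (Finset.mem_inter.mpr ⟨hc, hc1⟩) d (Finset.mem_inter.mpr ⟨hd, hd1⟩) hc1 hd1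
  · intro h c hc d hd hc1 hd1
    exact h c (Finset.mem_inter.mp hc).1 d (Finset.mem_inter.mp hd).1 hc1 hd1

theorem blk_symm {R : Finset Φ} {C D : Finset (V × V)} : Blk Q R ω C D ↔ Blk Q R ω D C := by
  unfold Blk
  constructor
  · intro h c hc d hd hc1 hd1 h2
    exact h d hd c hc hd1 hc1 (EqvGen.symm _ _ h2)
  · intro h c hc d hd hc1 hd1 h2
    exact h d hd c hc hd1 hc1 (EqvGen.symm _ _ h2)

/-- Probabilities of blocking are invariant under charts. -/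
theorem av_blk_chart (H : QChart Q Q' R φ ψ r) (C' D' : Finset (V' × V')) :
    av (R.image ψ) (fun ω => ic (¬ Blk Q' (R.image ψ) ω C' D')) =
      av R (fun ω => ic (¬ Blk Q R ω ((dE Q R).filter fun a => Prod.map φ φ a ∈ C')
        ((dE Q R).filter fun a => Prod.map φ φ a ∈ D'))) := by
  have e1 : ∀ C' : Finset (V' × V'), C' ∩ dE Q' (R.image ψ) =
      ((dE Q R).filter fun a => Prod.map φ φ a ∈ C').image (Prod.map φ φ) := by
    intro C'
    rw [H.dE_map (Finset.Subset.refl R)]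
    ext a
    simp only [Finset.mem_inter, Finset.mem_image, Finset.mem_filter]
    constructor
    · rintro ⟨h1, b, hb, rfl⟩
      exact ⟨b, ⟨hb, h1⟩, rfl⟩
    · rintro ⟨b, ⟨hb, h1⟩, rfl⟩
      exact ⟨h1, b, hb, rfl⟩
  refine av_map H.injOn ?_ (!ev r) ?_
  · intro ω ω' hω
    have e2 := Blk.congr (Q := Q) (R := R) (C := (dE Q R).filter fun a => Prod.map φ φ a ∈ C')
      (D := (dE Q R).filter fun a => Prod.map φ φ a ∈ D') (ω := ω) (ω' := ω')
      fun f hf => hω f (by exact_mod_cast hf)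
    exact ic_congr (not_congr e2)
  · intro ω'
    have e0 : (fun f => xor (!ev r) (ω' (ψ f))) = QChart.pull ψ r ω' := rfl
    rw [e0]
    apply ic_congr
    rw [← blk_restrict, e1, e1, H.blk ω' (Finset.Subset.refl R) (Finset.filter_subset _ _)
      (Finset.filter_subset _ _)]

theorem blk_empty {R : Finset Φ} {C : Finset (V × V)} : Blk Q R ω C ∅ := by
  intro c _ d hd
  exact absurd hd (Finset.notMem_empty d)

theorem zplO_empty (A R : Finset Φ) (h : V × V → ℂ) (P : Finset (V × V)) :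
    zplO Q A R ∅ h P = avc (A ∪ R) (fun ω => Zr Q (A ∪ R) ω h P) := by
  unfold zplO
  congr 1
  funext ω
  rw [ic_of blk_empty, Complex.ofReal_one, mul_one]

theorem dep_nblk {R : Finset Φ} {C D : Finset (V × V)} :
    Dep (R : Set Φ) (fun ω => ic (¬ Blk Q R ω C D)) := by
  intro ω ω' hω
  have e2 : Blk Q R ω C D = Blk Q R ω' C D :=
    propext (Blk.congr fun f hf => hω f (by exact_mod_cast hf))
  simp only [e2]

theorem zplO_O (hQ : NoLoop Q) {A R : Finset Φ} {O : Finset (V × V)} {h : V × V → ℂ}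
    (hh : ∀ a, a ∉ P → a.swap ∉ P → h a = 1) :
    ‖zplO Q A R O h P - zplO Q A R ∅ h P‖ ≤
      CP h P * av R (fun ω => ic (¬ Blk Q R ω (dE Q A) O)) := by
  rw [zplO_empty]
  unfold zplO
  rw [← avc_sub]
  refine (norm_avc_le (f := fun ω => CP h P * ic (¬ Blk Q R ω (dE Q A) O)) fun T _ => ?_).trans ?_
  · have n1 := norm_Zr_le (Q := Q) (F := A ∪ R) (ω := ind T) hQ hh
    have c0 := CP_nonneg h P
    by_cases h1 : Blk Q R (ind T) (dE Q A) O
    · rw [ic_of h1, Complex.ofReal_one, mul_one, sub_self, norm_zero]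
      exact mul_nonneg c0 (ic_nonneg _)
    · rw [ic_not h1, Complex.ofReal_zero, mul_zero, zero_sub, norm_neg, ic_of h1, mul_one]
      exact n1
  · rw [av_mul, av_dep dep_nblk Finset.subset_union_right]

/-- window independence without blocking event -/
theorem zw_window (hQ : NoLoop Q) {A R D : Finset Φ} (hAD : Disjoint (dE Q A) (dE Q D))
    (hP : P ⊆ dE Q A) {h : V × V → ℂ} (hh : ∀ a, a ∉ P → a.swap ∉ P → h a = 1) :
    ‖zplO Q A (R ∪ D) ∅ h P - zplO Q A R ∅ h P‖ ≤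
      2 * CP h P * av R (fun ω => ic (¬ Blk Q R ω (dE Q A) (dE Q D ∩ dE Q R))) := by
  have h1 := zplO_window hQ hAD hP (Finset.Subset.refl (dE Q D ∩ dE Q R)) hh (O' := ∅)
  have h2 := zplO_O (A := A) (R := R) (O := dE Q D ∩ dE Q R) hQ hh
  have e0 : av (R ∪ D) (fun ω => ic (¬ Blk Q (R ∪ D) ω (dE Q A) ∅)) = 0 := by
    have : (fun ω : Φ → Bool => ic (¬ Blk Q (R ∪ D) ω (dE Q A) ∅)) = fun _ => (0 : ℝ) := by
      funext ω
      exact ic_not (not_not.mpr blk_empty)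
    rw [this, av_const]
  rw [e0, add_zero] at h1
  calc _ = ‖(zplO Q A (R ∪ D) ∅ h P - zplO Q A R (dE Q D ∩ dE Q R) h P) +
        (zplO Q A R (dE Q D ∩ dE Q R) h P - zplO Q A R ∅ h P)‖ := by rw [sub_add_sub_cancel]
    _ ≤ _ := norm_add_le _ _
    _ ≤ CP h P * av R (fun ω => ic (¬ Blk Q R ω (dE Q A) (dE Q D ∩ dE Q R))) +
        CP h P * av R (fun ω => ic (¬ Blk Q R ω (dE Q A) (dE Q D ∩ dE Q R))) := add_le_add h1 h2
    _ = _ := by ring

end General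

/-! ## The constant of the blocking annuli -/

/-- the rate -/
def thB : ℝ := blk_planeV.choose

theorem thB_pos : 0 < thB := blk_planeV.choose_spec.1

theorem thB_lt : thB < 1 := blk_planeV.choose_spec.2.1

/-- annulus of faces -/
def aZ (L : ℤ) (n : ℕ) : Finset (ℤ × ℤ) := RFb (0, 0) (4 ^ n * L) \ RFb (0, 0) L

theorem mem_aZ {L : ℤ} {n : ℕ} {f : ℤ × ℤ} :
    f ∈ aZ L n ↔ f ∈ RFb (0, 0) (4 ^ n * L) ∧ f ∉ RFb (0, 0) L := by
  unfold aZ
  rw [Finset.mem_sdiff]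

theorem mem_RF0 {L : ℤ} {f : ℤ × ℤ} :
    f ∈ RFb (0, 0) L ↔ -L ≤ f.1 ∧ f.1 < L ∧ -L ≤ f.2 ∧ f.2 < L := by
  rw [mem_RFb]
  simp only [zero_sub, zero_add]

theorem RF0_mono {L L' : ℤ} (h : L ≤ L') : RFb (0, 0) L ⊆ RFb (0, 0) L' := by
  intro f hf
  rw [mem_RF0] at hf ⊢
  omega

theorem blk_aZ {L : ℤ} {n : ℕ} (hL : 0 < L) {C D : Finset ((ℤ × ℤ) × (ℤ × ℤ))}
    (hC : ∀ c ∈ C, |c.1.1| ≤ L ∧ |c.1.2| ≤ L)
    (hD : ∀ d ∈ D, 4 ^ n * L ≤ |d.1.1| ∨ 4 ^ n * L ≤ |d.1.2|) :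
    av (aZ L n) (fun ω => ic (¬ Blk ZQ (aZ L n) ω C D)) ≤ 2 * thB ^ n := by
  refine blk_planeV.choose_spec.2.2 (0, 0) L n hL C D ?_ ?_
  · intro c hc
    simpa using hC c hc
  · intro d hd
    simpa using hD d hd

/-- the corners of a face with a corner inside the open box are in the closed box -/
theorem face_of_cor0 {L : ℤ} {f : ℤ × ℤ} {k : ZMod 4} (h1 : |(ZQ.c f k).1| < L)
    (h2 : |(ZQ.c f k).2| < L) : f ∈ RFb (0, 0) L := by
  rw [abs_lt] at h1 h2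
  rw [mem_RF0]
  change -L < (cor0 f k).1 ∧ (cor0 f k).1 < L at h1
  change -L < (cor0 f k).2 ∧ (cor0 f k).2 < L at h2
  rcases k4_cases k with rfl | rfl | rfl | rfl
  · rw [cor0_0] at h1 h2
    omega
  · rw [cor0_1] at h1 h2
    simp only at h1 h2
    omega
  · rw [cor0_2] at h1 h2
    simp only at h1 h2
    omega
  · rw [cor0_3] at h1 h2
    simp only at h1 h2
    omega

theorem cor0_le {L : ℤ} {f : ℤ × ℤ} (hf : f ∈ RFb (0, 0) L) (k : ZMod 4) :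
    |(ZQ.c f k).1| ≤ L ∧ |(ZQ.c f k).2| ≤ L := by
  rw [mem_RF0] at hf
  change |(cor0 f k).1| ≤ L ∧ |(cor0 f k).2| ≤ L
  rw [abs_le, abs_le]
  rcases k4_cases k with rfl | rfl | rfl | rfl
  · rw [cor0_0]; omega
  · rw [cor0_1]; simp only; omega
  · rw [cor0_2]; simp only; omega
  · rw [cor0_3]; simp only; omega

/-! ## Surfaces which are the plane outside a box -/

section Plane

variable {V Φ : Type} [DecidableEq V] [DecidableEq Φ]

/-- A surface with core `A` which is the plane outside the box of radius `L`. -/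
structure GlueZ (L : ℤ) (Q : QC V Φ) (A : Finset Φ) (φ : ℤ × ℤ → V) (ψ : ℤ × ℤ → Φ)
    (P : Finset (V × V)) : Prop where
  chart : ∀ M : ℤ, QChart ZQ Q (RFb (0, 0) M \ RFb (0, 0) L) φ ψ 0
  dj : ∀ g, g ∉ RFb (0, 0) L → ψ g ∉ A
  nb : ∀ f ∈ A, ∀ k, ∀ g, g ∉ RFb (0, 0) L → ∀ l, Q.c f k = φ (ZQ.c g l) →
    |(ZQ.c g l).1| ≤ L ∧ |(ZQ.c g l).2| ≤ L
  P_sub : P ⊆ dE Q A

/-- the functional in the window of radius `4 ^ n * L` -/
def zn (L : ℤ) (Q : QC V Φ) (A : Finset Φ) (ψ : ℤ × ℤ → Φ) (h : V × V → ℂ) (P : Finset (V × V))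
    (n : ℕ) : ℂ := zplO Q A ((aZ L n).image ψ) ∅ h P

/-- **The plane functional.** -/
def Zp (L : ℤ) (Q : QC V Φ) (A : Finset Φ) (ψ : ℤ × ℤ → Φ) (h : V × V → ℂ)
    (P : Finset (V × V)) : ℂ := limUnder atTop (zn L Q A ψ h P)

namespace GlueZ

variable {L : ℤ} {Q : QC V Φ} {A : Finset Φ} {φ : ℤ × ℤ → V} {ψ : ℤ × ℤ → Φ}
  {P : Finset (V × V)}

theorem blk (H : GlueZ L Q A φ ψ P) (hL : 0 < L) (n m : ℕ) (hnm : n ≤ m) :
    av ((aZ L n).image ψ) (fun ω => ic (¬ Blk Q ((aZ L n).image ψ) ω (dE Q A)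
      (dE Q ((RFb (0, 0) (4 ^ m * L) \ RFb (0, 0) (4 ^ n * L)).image ψ) ∩
        dE Q ((aZ L n).image ψ)))) ≤ 2 * thB ^ n := by
  have hX := H.chart (4 ^ m * L)
  have p1 : (4 : ℤ) ^ n * L ≤ 4 ^ m * L :=
    mul_le_mul_of_nonneg_right (pow_le_pow_right₀ (by norm_num) hnm) hL.le
  have p0 : L ≤ 4 ^ n * L := by
    have : (1 : ℤ) ≤ 4 ^ n := one_le_pow₀ (by norm_num)
    nlinarith
  have s1 : aZ L n ⊆ RFb (0, 0) (4 ^ m * L) \ RFb (0, 0) L :=
    Finset.sdiff_subset_sdiff (RF0_mono p1) (Finset.Subset.refl _)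
  have s2 : RFb (0, 0) (4 ^ m * L) \ RFb (0, 0) (4 ^ n * L) ⊆
      RFb (0, 0) (4 ^ m * L) \ RFb (0, 0) L :=
    Finset.sdiff_subset_sdiff (Finset.Subset.refl _) (RF0_mono p0)
  rw [av_blk_chart (hX.mono s1)]
  apply blk_aZ hL
  · intro c hc
    obtain ⟨h1, h2⟩ := Finset.mem_filter.mp hc
    obtain ⟨⟨g, hg, l, e1⟩, -⟩ := GlueC.dE_corner h1
    obtain ⟨⟨f, hf, k, e2⟩, -⟩ := GlueC.dE_corner h2
    have e3 : Q.c f k = φ (ZQ.c g l) := by
      rw [← e2, ← e1]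
      rfl
    have h3 := H.nb f hf k g (mem_aZ.mp hg).2 l e3
    rw [e1]
    exact h3
  · intro d hd
    obtain ⟨h1, h2⟩ := Finset.mem_filter.mp hd
    have h3 := (Finset.mem_inter.mp h2).1
    rw [hX.dE_map s2] at h3
    obtain ⟨e, he, h4⟩ := Finset.mem_image.mp h3
    have h5 : e = d := hX.inj_dE (dE_mono s2 he) (dE_mono s1 h1) h4
    subst h5
    obtain ⟨⟨g, hg, l, e1⟩, -⟩ := GlueC.dE_corner he
    by_contra hcon
    push Not at hcon
    rw [e1] at hcon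
    exact (Finset.mem_sdiff.mp hg).2 (face_of_cor0 hcon.1 hcon.2)

theorem sep (H : GlueZ L Q A φ ψ P) {L₁ M : ℤ} (h1 : L < L₁) :
    Disjoint (dE Q A) (dE Q ((RFb (0, 0) M \ RFb (0, 0) L₁).image ψ)) := by
  have s1 : RFb (0, 0) M \ RFb (0, 0) L₁ ⊆ RFb (0, 0) M \ RFb (0, 0) L :=
    Finset.sdiff_subset_sdiff (Finset.Subset.refl _) (RF0_mono h1.le)
  rw [Finset.disjoint_left]
  intro a ha ha'
  rw [(H.chart M).dE_map s1] at ha'
  obtain ⟨b, hb, rfl⟩ := Finset.mem_image.mp ha'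
  obtain ⟨⟨g, hg, l, e1⟩, -⟩ := GlueC.dE_corner hb
  obtain ⟨⟨f, hf, k, e2⟩, -⟩ := GlueC.dE_corner ha
  have e3 : Q.c f k = φ (ZQ.c g l) := by
    rw [← e2, ← e1]
    rfl
  have h2 := H.nb f hf k g (Finset.mem_sdiff.mp (s1 hg)).2 l e3
  exact (Finset.mem_sdiff.mp hg).2 (face_of_cor0 (k := l) (by omega) (by omega))

theorem zn_sub (hQ : NoLoop Q) (H : GlueZ L Q A φ ψ P) (hL : 0 < L) {h : V × V → ℂ}
    (hh : ∀ a, a ∉ P → a.swap ∉ P → h a = 1) {n m : ℕ} (hn : 1 ≤ n) (hnm : n ≤ m) :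
    ‖zn L Q A ψ h P m - zn L Q A ψ h P n‖ ≤ 4 * CP h P * thB ^ n := by
  have p1 : (4 : ℤ) ^ n * L ≤ 4 ^ m * L :=
    mul_le_mul_of_nonneg_right (pow_le_pow_right₀ (by norm_num) hnm) hL.le
  have p0 : L < 4 ^ n * L := by
    have h4 : (4 : ℤ) ^ 1 ≤ 4 ^ n := pow_le_pow_right₀ (by norm_num) hn
    nlinarith
  have e0 : aZ L m = aZ L n ∪ (RFb (0, 0) (4 ^ m * L) \ RFb (0, 0) (4 ^ n * L)) := by
    ext g
    rw [Finset.mem_union, mem_aZ, mem_aZ, Finset.mem_sdiff]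
    have a1 : g ∈ RFb (0, 0) L → g ∈ RFb (0, 0) (4 ^ n * L) := fun h => RF0_mono p0.le h
    have a2 : g ∈ RFb (0, 0) (4 ^ n * L) → g ∈ RFb (0, 0) (4 ^ m * L) := fun h => RF0_mono p1 h
    tauto
  unfold zn
  rw [e0, Finset.image_union]
  refine (zw_window hQ (H.sep p0) H.P_sub hh).trans ?_
  have h1 := H.blk hL n m hnm
  have c0 := CP_nonneg h P
  nlinarith

theorem cauchy (hQ : NoLoop Q) (H : GlueZ L Q A φ ψ P) (hL : 0 < L) {h : V × V → ℂ}
    (hh : ∀ a, a ∉ P → a.swap ∉ P → h a = 1) : CauchySeq (zn L Q A ψ h P) := by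
  have ht : Tendsto (fun n : ℕ => 4 * CP h P * thB ^ n) atTop (𝓝 0) := by
    have h1 := tendsto_pow_atTop_nhds_zero_of_lt_one thB_pos.le thB_lt
    simpa using h1.const_mul (4 * CP h P)
  rw [Metric.cauchySeq_iff']
  intro ε hε
  obtain ⟨N, hN⟩ := ((ht.eventually (gt_mem_nhds hε)).and (eventually_ge_atTop 1)).exists
  refine ⟨N, fun n hn => ?_⟩
  rw [dist_eq_norm]
  exact (H.zn_sub hQ hL hh hN.2 hn).trans_lt hN.1

/-- **The limit exists.** -/
theorem tendsto (hQ : NoLoop Q) (H : GlueZ L Q A φ ψ P) (hL : 0 < L) {h : V × V → ℂ}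
    (hh : ∀ a, a ∉ P → a.swap ∉ P → h a = 1) :
    Tendsto (zn L Q A ψ h P) atTop (𝓝 (Zp L Q A ψ h P)) :=
  (H.cauchy hQ hL hh).tendsto_limUnder

theorem zn_Zp (hQ : NoLoop Q) (H : GlueZ L Q A φ ψ P) (hL : 0 < L) {h : V × V → ℂ}
    (hh : ∀ a, a ∉ P → a.swap ∉ P → h a = 1) {n : ℕ} (hn : 1 ≤ n) :
    ‖Zp L Q A ψ h P - zn L Q A ψ h P n‖ ≤ 4 * CP h P * thB ^ n := by
  have h1 : Tendsto (fun m => ‖zn L Q A ψ h P m - zn L Q A ψ h P n‖) atTop
      (𝓝 ‖Zp L Q A ψ h P - zn L Q A ψ h P n‖) :=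
    ((H.tendsto hQ hL hh).sub tendsto_const_nhds).norm
  refine le_of_tendsto h1 ?_
  filter_upwards [eventually_ge_atTop n] with m hm
  exact H.zn_sub hQ hL hh hn hm

end GlueZ

end Plane

end

end Pool.Agent.SixB.Rel
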