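import Pool.Agent.Lib.SixB.CAEnvL
import Pool.Agent.Lib.SixB.S3PlaneE
import Pool.Agent.Lib.SixB.S0One

/-!
# 6BD, U3: one arrow inserted into `Zr`, `zn`, `Zp`

Every complex of quadrangles `Q` without loops, every finite set `F` of faces, `P` a set of sides.
* `Zr1 Q F ω h P e`: the relevant strands other than the strand of `e`, times the difference of the two
  directions of the strand of `e`; `Zr_one`: this is `Zr` with the sign `sgE e`, if the strand of `e` meets `P`;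
  `Zr1_swap`, `Zr1_srel`, `Zr1_ice`;
* `Zr_im`, `Zr1_re`: `Zr` is real and `Zr1` is imaginary if `h a.swap = conj (h a)`;
* `Zp_one_swap`, `Zp_ice`, `Zp_imC`, `Zp_one_re`: the same for the plane functional;
* `GlueZ.exists_height`: the height of an environment in a rectangle.
-/

set_option autoImplicit false
set_option linter.unusedSectionVars false

namespace Pool.Agent.SixB.Rel

open Pool.Agent.Perc Pool.Agent.Perc.Q Relation Filter Topology
open Pool.Agent.SixB hiding Zs_split dst_congr qt_congr dE_mono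
open scoped ComplexConjugate

noncomputable section

section General

variable {V Φ : Type} [DecidableEq V] [DecidableEq Φ]
variable {Q : QC V Φ} {F F' : Finset Φ} {ω ω' : Φ → Bool} {a b e : V × V} {P X Y : Finset (V × V)}
  {h : V × V → ℂ}

/-- the relevant undirected strands -/
def RU (Q : QC V Φ) (F : Finset Φ) (ω : Φ → Bool) (P : Finset (V × V)) :
    Finset (Finset (Finset (V × V))) := ((dstr Q F ω).filter (touch P)).image prs

theorem Zr_eq (h : V × V → ℂ) : Zr Q F ω h P = ∏ U ∈ RU Q F ω P, ∑ X ∈ U, sw Q F ω h X := rfl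

theorem prs_dst (e : V × V) : prs (dst Q F ω e) = usE Q F ω e := by
  unfold prs usE
  rw [rv_dst]

theorem RU_sub : RU Q F ω P ⊆ ust Q F ω := by
  intro U hU
  obtain ⟨X, hX, rfl⟩ := Finset.mem_image.mp hU
  obtain ⟨a, ha, rfl⟩ := mem_dstr.mp (Finset.mem_filter.mp hX).1
  rw [prs_dst]
  exact usE_mem ha

theorem usE_mem_RU (he : e ∈ dE Q F) (ht : touch P (dst Q F ω e)) : usE Q F ω e ∈ RU Q F ω P := by
  rw [← prs_dst]
  exact Finset.mem_image_of_mem _ (Finset.mem_filter.mpr ⟨dst_mem_dstr he, ht⟩)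

theorem touch_of_mem (he : e ∈ dE Q F) (hP : e ∈ P ∨ e.swap ∈ P) : touch P (dst Q F ω e) :=
  touch_iff.mpr ⟨e, self_mem_dst he, hP⟩

/-- the strands other than the strand of `e`, and the difference for the strand of `e` -/
def Zr1 (Q : QC V Φ) (F : Finset Φ) (ω : Φ → Bool) (h : V × V → ℂ) (P : Finset (V × V))
    (e : V × V) : ℂ :=
  (∏ U ∈ (RU Q F ω P).erase (usE Q F ω e), ∑ X ∈ U, sw Q F ω h X) * swm Q F ω h e

/-- **Insertion of one sign.** -/
theorem Zr_one (hQ : NoLoop Q) (h : V × V → ℂ) (he : e ∈ dE Q F) (ht : touch P (dst Q F ω e)) :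
    Zr Q F ω (fun a => h a * sgE e a) P = Zr1 Q F ω h P e := by
  rw [Zr_eq]
  have hsw : ∀ X, sw Q F ω (fun a => h a * sgE e a) X = sw Q F ω h X * eps e X := by
    intro X
    rw [sw_mul h (sgE e), prod_sgE]
  simp only [hsw]
  have hU := usE_mem_RU he ht
  unfold Zr1
  rw [← Finset.mul_prod_erase _ _ hU, mul_comm]
  congr 1
  · refine Finset.prod_congr rfl fun U hU2 => ?_
    obtain ⟨h3, h4⟩ := Finset.mem_erase.mp hU2
    refine Finset.sum_congr rfl fun X hX => ?_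
    rw [eps_of_notMem he (RU_sub h4) h3 hX, mul_one]
  · rw [sum_usE hQ he, (eps_self hQ he).1, (eps_self hQ he).2]
    unfold swm
    ring

theorem Zr1_swap (h : V × V → ℂ) : Zr1 Q F ω h P e.swap = -Zr1 Q F ω h P e := by
  unfold Zr1 swm
  rw [usE_swap, Prod.swap_swap]
  ring

theorem Zr1_srel (h : V × V → ℂ) (hs : SRel Q F ω a b) : Zr1 Q F ω h P a = Zr1 Q F ω h P b := by
  unfold Zr1 swm usE
  rw [dst_eq hs, dst_eq (srel_swap hs)]

/-- the ice rule, for every smoothing -/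
theorem Zr1_ice (h : V × V → ℂ) {f : Φ} (hf : f ∈ F) :
    ∑ k : ZMod 4, Zr1 Q F ω h P (sd Q f k) = 0 := by
  have hinv : Function.Involutive (mt (ω f)) := mt_mt (ω f)
  have h1 : ∑ k : ZMod 4, Zr1 Q F ω h P (sd Q f k) =
      ∑ k : ZMod 4, Zr1 Q F ω h P (sd Q f (mt (ω f) k)) := by
    rw [← Equiv.sum_comp hinv.toPerm]
    rfl
  have h2 : ∑ k : ZMod 4, Zr1 Q F ω h P (sd Q f (mt (ω f) k)) =
      -∑ k : ZMod 4, Zr1 Q F ω h P (sd Q f k) := by
    rw [← Finset.sum_neg_distrib]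
    refine Finset.sum_congr rfl fun k _ => ?_
    have h3 := Zr1_swap (Q := Q) (F := F) (ω := ω) (P := P) (e := sd Q f (mt (ω f) k)) h
    rw [← Zr1_srel h (EqvGen.rel _ _ (nx_mt hf k))] at h3
    rw [h3, neg_neg]
  rw [h2] at h1
  exact self_eq_neg.mp h1

/-! ## Reality -/

/-- the weight of the reversed side is the conjugate -/
def CJ (h : V × V → ℂ) : Prop := ∀ a, h a.swap = conj (h a)

theorem conj_zeta_zpow (n : ℤ) : conj (zeta ^ n) = zeta ^ (-n) := by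
  rw [zeta_zpow, zeta_zpow, ← Complex.exp_conj]
  congr 1
  rw [map_mul, Complex.conj_ofReal, Complex.conj_I]
  push_cast
  ring

theorem sw_rv_conj (hc : CJ h) (hX : X ∈ dstr Q F ω) :
    sw Q F ω h (rv X) = conj (sw Q F ω h X) := by
  rw [sw_eq, sw_eq, tX_rv hX, map_mul, conj_zeta_zpow, map_prod]
  congr 1
  unfold rv
  rw [Finset.prod_image Prod.swap_injective.injOn]
  exact Finset.prod_congr rfl fun a _ => hc a

theorem sum_pair_im (hQ : NoLoop Q) (hc : CJ h) {U : Finset (Finset (V × V))} (hU : U ∈ ust Q F ω) :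
    (∑ X ∈ U, sw Q F ω h X).im = 0 := by
  obtain ⟨a, ha, rfl⟩ := mem_ust.mp hU
  rw [Finset.sum_pair (dst_ne_swap hQ ha), ← rv_dst, sw_rv_conj hc (dst_mem_dstr ha),
    Complex.add_im, Complex.conj_im, add_neg_cancel]

theorem prod_im {ι : Type} (s : Finset ι) (g : ι → ℂ) (hg : ∀ i ∈ s, (g i).im = 0) :
    (∏ i ∈ s, g i).im = 0 := by
  classical
  induction s using Finset.induction_on with
  | empty => simp
  | insert i s hi ih =>
    rw [Finset.prod_insert hi, Complex.mul_im, hg i (Finset.mem_insert_self _ _),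
      ih fun j hj => hg j (Finset.mem_insert_of_mem hj)]
    simp

theorem Zr_im (hQ : NoLoop Q) (hc : CJ h) : (Zr Q F ω h P).im = 0 := by
  rw [Zr_eq]
  exact prod_im _ _ fun U hU => sum_pair_im hQ hc (RU_sub hU)

theorem Zr1_re (hQ : NoLoop Q) (hc : CJ h) (he : e ∈ dE Q F) : (Zr1 Q F ω h P e).re = 0 := by
  unfold Zr1
  rw [Complex.mul_re, prod_im _ _ fun U hU => sum_pair_im hQ hc (RU_sub (Finset.mem_erase.mp hU).2)]
  have h1 : (swm Q F ω h e).re = 0 := by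
    unfold swm
    rw [← rv_dst, sw_rv_conj hc (dst_mem_dstr he), Complex.sub_re, Complex.conj_re, sub_self]
  rw [h1]
  ring

theorem avc_im {S : Finset Φ} {g : (Φ → Bool) → ℂ} (hg : ∀ ω, (g ω).im = 0) : (avc S g).im = 0 := by
  rw [avc_eq]
  have h1 : (fun ω => (g ω).im) = fun _ => (0 : ℝ) := funext hg
  rw [h1, av_const]
  simp

theorem avc_re {S : Finset Φ} {g : (Φ → Bool) → ℂ} (hg : ∀ ω, (g ω).re = 0) : (avc S g).re = 0 := by
  rw [avc_eq]
  have h1 : (fun ω => (g ω).re) = fun _ => (0 : ℝ) := funext hg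
  rw [h1, av_const]
  simp

theorem avc_neg {S : Finset Φ} {g : (Φ → Bool) → ℂ} : avc S (fun ω => -g ω) = -avc S g := by
  unfold avc
  rw [Finset.sum_neg_distrib, neg_div]

end General

/-! ## The plane functional -/

section Plane

variable {V Φ : Type} [DecidableEq V] [DecidableEq Φ]
variable {L : ℤ} {Q : QC V Φ} {A : Finset Φ} {φ : ℤ × ℤ → V} {ψ : ℤ × ℤ → Φ} {P : Finset (V × V)}
  {h : V × V → ℂ} {e : V × V} {n : ℕ}

/-- the faces of the window -/
def Fn (L : ℤ) (A : Finset Φ) (ψ : ℤ × ℤ → Φ) (n : ℕ) : Finset Φ := A ∪ (aZ L n).image ψ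

theorem A_sub_Fn : A ⊆ Fn L A ψ n := Finset.subset_union_left

theorem zn_eq (h : V × V → ℂ) : zn L Q A ψ h P n = avc (Fn L A ψ n) (fun ω => Zr Q (Fn L A ψ n) ω h P) := by
  unfold zn Fn
  rw [zplO_empty]

/-- insertion in the window -/
def zn1 (L : ℤ) (Q : QC V Φ) (A : Finset Φ) (ψ : ℤ × ℤ → Φ) (h : V × V → ℂ) (P : Finset (V × V))
    (n : ℕ) (e : V × V) : ℂ := avc (Fn L A ψ n) (fun ω => Zr1 Q (Fn L A ψ n) ω h P e)

theorem zn_one (hQ : NoLoop Q) (h : V × V → ℂ) (hPA : P ⊆ dE Q A) (he : e ∈ P ∨ e.swap ∈ P) :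
    zn L Q A ψ (fun a => h a * sgE e a) P n = zn1 L Q A ψ h P n e := by
  rw [zn_eq]
  unfold zn1
  have heA : e ∈ dE Q (Fn L A ψ n) := by
    apply dE_mono A_sub_Fn
    rcases he with he | he
    · exact hPA he
    · exact swap_mem_dE.mp (hPA he)
  congr 1
  funext ω
  exact Zr_one hQ h heA (touch_of_mem heA he)

theorem zn1_swap : zn1 L Q A ψ h P n e.swap = -zn1 L Q A ψ h P n e := by
  unfold zn1
  rw [← avc_neg]
  congr 1
  funext ω
  exact Zr1_swap h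

theorem zn1_ice {f : Φ} (hf : f ∈ A) : ∑ k : ZMod 4, zn1 L Q A ψ h P n (sd Q f k) = 0 := by
  unfold zn1
  rw [← avc_sum]
  have h1 : (fun ω => ∑ k : ZMod 4, Zr1 Q (Fn L A ψ n) ω h P (sd Q f k)) = fun _ => (0 : ℂ) := by
    funext ω
    exact Zr1_ice h (A_sub_Fn hf)
  rw [h1]
  unfold avc
  simp

theorem zn_im (hQ : NoLoop Q) (hc : CJ h) : (zn L Q A ψ h P n).im = 0 := by
  rw [zn_eq]
  exact avc_im fun ω => Zr_im hQ hc

theorem zn1_re (hQ : NoLoop Q) (hc : CJ h) (he : e ∈ dE Q A) : (zn1 L Q A ψ h P n e).re = 0 := by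
  unfold zn1
  exact avc_re fun ω => Zr1_re hQ hc (dE_mono A_sub_Fn he)

/-- with the sign of `e` inserted the weight is still `1` off `P` -/
theorem one_off (hh : ∀ a, a ∉ P → a.swap ∉ P → h a = 1) (he : e ∈ P ∨ e.swap ∈ P) :
    ∀ a, a ∉ P → a.swap ∉ P → h a * sgE e a = 1 := by
  intro a h1 h2
  rw [hh a h1 h2, one_mul]
  unfold sgE
  rw [if_neg]
  rintro rfl
  rcases he with he | he
  · exact h2 (by rwa [Prod.swap_swap])
  · exact h1 he

namespace GlueZ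

theorem tendsto_one (hQ : NoLoop Q) (H : GlueZ L Q A φ ψ P) (hL : 0 < L)
    (hh : ∀ a, a ∉ P → a.swap ∉ P → h a = 1) (he : e ∈ P ∨ e.swap ∈ P) :
    Tendsto (fun n => zn1 L Q A ψ h P n e) atTop (𝓝 (Zp L Q A ψ (fun a => h a * sgE e a) P)) := by
  have h1 := H.tendsto hQ hL (h := fun a => h a * sgE e a) (one_off hh he)
  refine h1.congr fun n => ?_
  exact zn_one hQ h H.P_sub he

theorem Zp_one_swap (hQ : NoLoop Q) (H : GlueZ L Q A φ ψ P) (hL : 0 < L)
    (hh : ∀ a, a ∉ P → a.swap ∉ P → h a = 1) (he : e ∈ P ∨ e.swap ∈ P) :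
    Zp L Q A ψ (fun a => h a * sgE e.swap a) P = -Zp L Q A ψ (fun a => h a * sgE e a) P := by
  have he' : e.swap ∈ P ∨ e.swap.swap ∈ P := by rw [Prod.swap_swap]; exact he.symm
  have h1 := H.tendsto_one hQ hL hh he'
  have h2 := (H.tendsto_one hQ hL hh he).neg
  refine tendsto_nhds_unique h1 (h2.congr fun n => ?_)
  exact zn1_swap.symm

/-- **The ice rule.** -/
theorem Zp_ice (hQ : NoLoop Q) (H : GlueZ L Q A φ ψ P) (hL : 0 < L)
    (hh : ∀ a, a ∉ P → a.swap ∉ P → h a = 1) {f : Φ} (hf : f ∈ A)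
    (hs : ∀ k : ZMod 4, sd Q f k ∈ P ∨ (sd Q f k).swap ∈ P) :
    ∑ k : ZMod 4, Zp L Q A ψ (fun a => h a * sgE (sd Q f k) a) P = 0 := by
  have h1 : Tendsto (fun n => ∑ k : ZMod 4, zn1 L Q A ψ h P n (sd Q f k)) atTop
      (𝓝 (∑ k : ZMod 4, Zp L Q A ψ (fun a => h a * sgE (sd Q f k) a) P)) :=
    tendsto_finsetSum _ fun k _ => H.tendsto_one hQ hL hh (hs k)
  have h2 : (fun n => ∑ k : ZMod 4, zn1 L Q A ψ h P n (sd Q f k)) = fun _ => (0 : ℂ) := by
    funext n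
    exact zn1_ice hf
  rw [h2] at h1
  exact tendsto_nhds_unique h1 tendsto_const_nhds

theorem Zp_imC (hQ : NoLoop Q) (H : GlueZ L Q A φ ψ P) (hL : 0 < L)
    (hh : ∀ a, a ∉ P → a.swap ∉ P → h a = 1) (hc : CJ h) : (Zp L Q A ψ h P).im = 0 := by
  have h1 := (Complex.continuous_im.tendsto _).comp (H.tendsto hQ hL hh)
  refine tendsto_nhds_unique h1 ?_
  have h2 : (Complex.im ∘ zn L Q A ψ h P) = fun _ => (0 : ℝ) := funext fun n => zn_im hQ hc
  rw [h2]
  exact tendsto_const_nhds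

theorem Zp_one_re (hQ : NoLoop Q) (H : GlueZ L Q A φ ψ P) (hL : 0 < L)
    (hh : ∀ a, a ∉ P → a.swap ∉ P → h a = 1) (hc : CJ h) (he : e ∈ P ∨ e.swap ∈ P) :
    (Zp L Q A ψ (fun a => h a * sgE e a) P).re = 0 := by
  have heA : e ∈ dE Q A := by
    rcases he with he | he
    · exact H.P_sub he
    · exact swap_mem_dE.mp (H.P_sub he)
  have h1 := (Complex.continuous_re.tendsto _).comp (H.tendsto_one hQ hL hh he)
  refine tendsto_nhds_unique h1 ?_
  have h2 : (Complex.re ∘ fun n => zn1 L Q A ψ h P n e) = fun _ => (0 : ℝ) :=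
    funext fun n => zn1_re hQ hc heA
  rw [h2]
  exact tendsto_const_nhds

/-- the mean arrow of the plane functional -/
def mZ (L : ℤ) (Q : QC V Φ) (A : Finset Φ) (ψ : ℤ × ℤ → Φ) (h : V × V → ℂ) (P : Finset (V × V))
    (e : V × V) : ℝ := (Zp L Q A ψ (fun a => h a * sgE e a) P / Zp L Q A ψ h P).im

theorem mZ_eq (hQ : NoLoop Q) (H : GlueZ L Q A φ ψ P) (hL : 0 < L)
    (hh : ∀ a, a ∉ P → a.swap ∉ P → h a = 1) (hc : CJ h) (he : e ∈ P ∨ e.swap ∈ P) :
    Zp L Q A ψ (fun a => h a * sgE e a) P / Zp L Q A ψ h P =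
      ((mZ L Q A ψ h P e : ℝ) : ℂ) * Complex.I := by
  apply Complex.ext
  · rw [Complex.div_re, H.Zp_one_re hQ hL hh hc he, H.Zp_imC hQ hL hh hc]
    simp
  · unfold mZ
    simp

theorem mZ_swap (hQ : NoLoop Q) (H : GlueZ L Q A φ ψ P) (hL : 0 < L)
    (hh : ∀ a, a ∉ P → a.swap ∉ P → h a = 1) (he : e ∈ P ∨ e.swap ∈ P) :
    mZ L Q A ψ h P e.swap = -mZ L Q A ψ h P e := by
  unfold mZ
  rw [H.Zp_one_swap hQ hL hh he, neg_div, Complex.neg_im]

theorem mZ_ice (hQ : NoLoop Q) (H : GlueZ L Q A φ ψ P) (hL : 0 < L)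
    (hh : ∀ a, a ∉ P → a.swap ∉ P → h a = 1) {f : Φ} (hf : f ∈ A)
    (hs : ∀ k : ZMod 4, sd Q f k ∈ P ∨ (sd Q f k).swap ∈ P) :
    ∑ k : ZMod 4, mZ L Q A ψ h P (sd Q f k) = 0 := by
  unfold mZ
  have h1 := H.Zp_ice hQ hL hh hf hs
  rw [← Complex.im_sum, ← Finset.sum_div, h1, zero_div, Complex.zero_im]

/-- **The height of an environment in a rectangle.** `ν`, `μ` chart of the rectangle. -/
theorem exists_height (hQ : NoLoop Q) (H : GlueZ L Q A φ ψ P) (hL : 0 < L)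
    (hh : ∀ a, a ∉ P → a.swap ∉ P → h a = 1) {x₀ x₁ y₀ y₁ : ℤ} {ν : ℤ × ℤ → V} {μ : ℤ × ℤ → Φ}
    (hcor : ∀ f ∈ RF x₀ x₁ y₀ y₁, ∀ k, Q.c (μ f) k = ν (ZQ.c f k))
    (hA : ∀ f ∈ RF x₀ x₁ y₀ y₁, μ f ∈ A)
    (hP : ∀ a ∈ dE ZQ (RF x₀ x₁ y₀ y₁), (ν a.1, ν a.2) ∈ P ∨ (ν a.2, ν a.1) ∈ P) :
    ∃ W : ℤ × ℤ → ℝ, ∀ a ∈ dE ZQ (RF x₀ x₁ y₀ y₁),
      W a.1 - W a.2 = mZ L Q A ψ h P (ν a.1, ν a.2) := by
  refine Ins.exists_pot (m := fun a => mZ L Q A ψ h P (ν a.1, ν a.2)) ?_ ?_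
  · intro a ha
    exact mZ_swap hQ H hL hh (e := (ν a.1, ν a.2)) (hP a ha)
  · intro g hg
    have e1 : ∀ k : ZMod 4, sd Q (μ g) k = (ν (sd ZQ g k).1, ν (sd ZQ g k).2) := by
      intro k
      unfold sd
      rw [hcor g hg, hcor g hg]
    have h1 := H.mZ_ice hQ hL hh (hA g hg) (fun k => by
      rw [e1]
      exact hP _ (mem_dE.mpr ⟨g, hg, k, Or.inl rfl⟩))
    simp only [e1] at h1
    exact h1

end GlueZ

end Plane

end

end Pool.Agent.SixB.Rel
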