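import Pool.Agent.Lib.SixB.CAMain
import Pool.Agent.Lib.SixB.CAEnvIn

/-!
# 6BD block CA: the environment inputs from the statements about single environments

`envIn_of_lat`: `ExIn` and `EnvLat` give `EnvIn` (CAMain.lean).
`caOut_of_lat`: `CAOut` from `ExIn`, `EnvLat`, `ArmIn`, `ColIn`.
-/

set_option autoImplicit false

namespace Pool.Agent.SixB

/-- for each polygon: the heights of the environments exist with all the properties -/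
def LatIn (P : Finset (ℤ × ℤ)) (L : ℕ) (g : ℤ → ℤ × ℤ) : Prop :=
  ∃ z0 ∈ Om P, ∃ χ : ℂ → ℝ, Prof χ ∧ ∃ c : ℝ, 0 < c ∧ ∃ (uN : ℕ → ℤ → ℤ × ℤ → ℝ)
    (uP : ℕ → ℝ → ℤ → ℤ → ℤ × ℤ → ℝ) (uX : ℕ → ℝ → ℤ → ℤ → ℤ → ℤ → ℤ → ℤ × ℤ → ℝ),
    ExIn P L g uN uP uX ∧ EnvLat P L g z0 χ c uN uP uX

theorem envIn_of_lat {P : Finset (ℤ × ℤ)} {L : ℕ} {g : ℤ → ℤ × ℤ} (hP : MPoly P) (h : Cont P L g)
    (hF : LatIn P L g) : EnvIn P L g := by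
  obtain ⟨z0, hz0, χ, hχ, c, hc, uN, uP, uX, ex, E⟩ := hF
  exact ⟨z0, hz0, uN, uP, uX, ex, natIn_of_lat hP hχ hc hz0 (CARf.geoIn h) (n2p hP) E,
    tiltIn_of_lat hP hχ hc hz0 (CARf.geoIn h) E⟩

theorem caOut_of_lat
    (henv : ∀ (P : Finset (ℤ × ℤ)) (L : ℕ) (g : ℤ → ℤ × ℤ), MPoly P → Cont P L g → LatIn P L g)
    (harm : ∀ (P : Finset (ℤ × ℤ)) (L : ℕ) (g : ℤ → ℤ × ℤ), MPoly P → Cont P L g →
      ∀ t₁ t₃ : ℝ, Marks2 L g t₁ t₃ → ArmIn P g t₁ t₃)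
    (hcol : ∀ (P : Finset (ℤ × ℤ)) (L : ℕ) (g : ℤ → ℤ × ℤ), MPoly P → Cont P L g → ColIn P L g) :
    CAOut :=
  caOut_of_in (fun P L g hP h => envIn_of_lat hP h (henv P L g hP h)) harm hcol

end Pool.Agent.SixB
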