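import Pool.Agent.Lib.SixB.S6K

/-!
# 6BD, block CA: rotation of the matching of a contour

`Mated.rot`: the matching for the contour which starts `d` sides later.
-/

set_option autoImplicit false

namespace Pool.Agent.SixB

open Finset Pool.Agent.Perc Pool.Agent.Perc6

/-- Index of the old contour. -/
def rotI (m d i : ℕ) : ℕ := if i + d < m then i + d else i + d - m

/-- Index of the new contour. -/
def rotB (m d t : ℕ) : ℕ := if d ≤ t then t - d else t + m - d

/-- The rotated matching. -/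
def rotM (m d : ℕ) (τ : ℕ → ℕ) (i : ℕ) : ℕ := rotB m d (τ (rotI m d i))

variable {m d i t : ℕ}

theorem rotI_lt (hd : d < m) (hi : i < m) : rotI m d i < m := by
  unfold rotI; split_ifs <;> omega

theorem rotB_lt (hd : d < m) (ht : t < m) : rotB m d t < m := by
  unfold rotB; split_ifs <;> omega

theorem rotB_rotI (hd : d < m) (hi : i < m) : rotB m d (rotI m d i) = i := by
  unfold rotI rotB; split_ifs <;> omega

theorem rotI_rotB (hd : d < m) (ht : t < m) : rotI m d (rotB m d t) = t := by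
  unfold rotI rotB; split_ifs <;> omega

theorem rotI_per {b : ℤ → ℤ × ℤ} (hb : ∀ k, b (k + m) = b k) (r : ℤ) (i : ℕ) (h : d + i < 2 * m) :
    b (r + d + i) = b (r + rotI m d i) ∧
      b (r + d + (i + 1 : ℕ)) = b (r + (rotI m d i + 1 : ℕ)) := by
  unfold rotI
  split_ifs with h1
  · constructor
    · congr 1; push_cast; ring
    · congr 1; push_cast; ring
  · constructor
    · rw [← hb (r + _)]
      congr 1
      omega
    · rw [← hb (r + _)]
      congr 1
      omega

/-- **Rotation of the matching.** -/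
theorem Mated.rot {F : Finset (ℤ × ℤ)} {b : ℤ → ℤ × ℤ} (hb : ∀ k, b (k + m) = b k) {r : ℤ} {ω : Cfg}
    {τ : ℕ → ℕ} (hτ : Mated F m (fun k : ℕ => b (r + k)) ω τ) (hd : d < m) :
    Mated F m (fun k : ℕ => b (r + d + k)) ω (rotM m d τ) := by
  intro i hi
  have hi' := rotI_lt hd hi
  obtain ⟨k1, k2, k3, k4⟩ := hτ _ hi'
  have e1 := rotI_per (d := d) hb r i (by omega)
  have e2 := rotI_per (d := d) hb r (rotM m d τ i) (by
    have : rotM m d τ i < m := rotB_lt hd k1
    omega)
  have e3 : rotI m d (rotM m d τ i) = τ (rotI m d i) := rotI_rotB hd k1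
  rw [e3] at e2
  refine ⟨rotB_lt hd k1, ?_, ?_, ?_⟩
  · intro h
    apply k2
    rw [← rotI_rotB hd k1]
    show rotI m d (rotM m d τ i) = _
    rw [h]
  · show rotB m d (τ (rotI m d (rotM m d τ i))) = i
    rw [e3, k3]
    exact rotB_rotI hd hi
  · intro e he
    simp only at he
    rw [e1.1, e1.2] at he
    obtain ⟨k5, k6⟩ := k4 e he
    refine ⟨fun e' he' => ?_, fun k hk e' he' hm => ?_⟩
    · simp only at he'
      rw [e2.1, e2.2] at he'
      exact k5 e' he'
    · have e4 := rotI_per (d := d) hb r k (by omega)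
      simp only at he'
      rw [e4.1, e4.2] at he'
      rcases k6 _ (rotI_lt hd hk) e' he' hm with h | h
      · left
        rw [← rotB_rotI hd hk, h, rotB_rotI hd hi]
      · right
        rw [← rotB_rotI hd hk, h]
        rfl

/-- The event `K` of the side `k` with the base in `A₄`: marks `n₁ ≤ n₂ ≤ n₄`. -/
def KEvB (k n₁ n₂ n₄ : ℕ) (μ : ℕ → ℕ) : Prop :=
  (n₁ ≤ μ k ∧ μ k < n₄) ∧ (∀ i, k < i → i < n₁ → ¬ (n₂ ≤ μ i ∧ μ i < n₄)) ∧
    ∀ i, n₁ ≤ i → i < n₂ → ¬ (n₄ ≤ μ i ∨ μ i < k)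

theorem kevB_iff {μ : ℕ → ℕ} (hμ : ∀ i < m, μ i < m) (hne : ∀ i < m, μ i ≠ i)
    (hinv : ∀ i < m, μ (μ i) = i) {k n₁ n₂ n₄ : ℕ} (hk : k < n₁)
    (h12 : n₁ ≤ n₂) (h24 : n₂ ≤ n₄) (h4 : n₄ ≤ m) (hkm : k + 1 < m) :
    KEv m (n₁ - (k + 1)) (n₂ - (k + 1)) (n₄ - (k + 1)) (rotM m (k + 1) μ) ↔
      KEvB k n₁ n₂ n₄ μ := by
  have hk' : k < m := by omega
  have hkk := hμ k hk'
  have hkn := hne k hk'
  unfold KEv KEvB rotM
  have e1 : rotI m (k + 1) (m - 1) = k := by unfold rotI; split_ifs <;> omega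
  rw [e1]
  refine and_congr ?_ (and_congr ?_ ?_)
  · unfold rotB
    split_ifs <;> omega
  · constructor
    · intro h i h1 h2 h3
      have e2 : rotI m (k + 1) (i - (k + 1)) = i := by unfold rotI; split_ifs <;> omega
      have := h (i - (k + 1)) (by omega)
      rw [e2] at this
      apply this
      unfold rotB
      split_ifs <;> omega
    · intro h i h1 h2
      have e2 : rotI m (k + 1) i = i + (k + 1) := by unfold rotI; split_ifs <;> omega
      rw [e2] at h2
      have h5 := hμ (i + (k + 1)) (by omega)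
      refine h (i + (k + 1)) (by omega) (by omega) ?_
      unfold rotB at h2
      split_ifs at h2 <;> omega
  · constructor
    · intro h i h1 h2 h3
      have e2 : rotI m (k + 1) (i - (k + 1)) = i := by unfold rotI; split_ifs <;> omega
      have := h (i - (k + 1)) (by omega) (by omega)
      rw [e2] at this
      apply this
      have h5 := hμ i (by omega)
      have h6 : μ i ≠ k := by
        intro h7
        have := hinv i (by omega)
        rw [h7] at this
        omega
      unfold rotB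
      split_ifs <;> omega
    · intro h i h1 h2 h3
      have e2 : rotI m (k + 1) i = i + (k + 1) := by unfold rotI; split_ifs <;> omega
      rw [e2] at h3
      have h5 := hμ (i + (k + 1)) (by omega)
      refine h (i + (k + 1)) (by omega) (by omega) ?_
      unfold rotB at h3
      split_ifs at h3 <;> omega

theorem KEv_congr {a₁ a₂ a₃ : ℕ} {τ τ' : ℕ → ℕ} (h : ∀ i < m, τ i = τ' i) (hm : 0 < m) (h1 : a₁ ≤ m)
    (h2 : a₂ ≤ m) : KEv m a₁ a₂ a₃ τ ↔ KEv m a₁ a₂ a₃ τ' := by
  unfold KEv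
  rw [h (m - 1) (by omega)]
  refine and_congr Iff.rfl (and_congr ?_ ?_)
  · constructor <;>
    · intro g i hi
      have := g i hi
      first
        | rwa [h i (by omega)] at this
        | rwa [← h i (by omega)] at this
  · constructor <;>
    · intro g i h3 h4
      have := g i h3 h4
      first
        | rwa [h i (by omega)] at this
        | rwa [← h i (by omega)] at this

/-- **The event `K` seen from a base vertex `B` of the arc `[a₃, X - 1]`.** -/
theorem kevZ_base {F : Finset (ℤ × ℤ)} {b : ℤ → ℤ × ℤ} (h : CtrZ (F : Set (ℤ × ℤ)) m b)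
    {a₁ a₂ a₃ X B : ℤ} (h12 : a₁ ≤ a₂) (h23 : a₂ ≤ a₃) (hB : a₃ ≤ B) (hBX : B < X)
    (hX : X ≤ a₁ + m) (hXB : X < B + m) {ω : Cfg} {μ : ℕ → ℕ}
    (hμ : Mated F m (fun i : ℕ => b (B + i)) ω μ) :
    ω ∈ kevZ F m b a₁ a₂ a₃ X ↔
      KEvB (X - 1 - B).toNat (a₁ + m - B).toNat (a₂ + m - B).toNat (a₃ + m - B).toNat μ := by
  obtain ⟨k, hk⟩ := Int.eq_ofNat_of_zero_le (show 0 ≤ X - 1 - B by omega)
  obtain ⟨n₁, hn₁⟩ := Int.eq_ofNat_of_zero_le (show 0 ≤ a₁ + m - B by omega)
  obtain ⟨n₂, hn₂⟩ := Int.eq_ofNat_of_zero_le (show 0 ≤ a₂ + m - B by omega)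
  obtain ⟨n₄, hn₄⟩ := Int.eq_ofNat_of_zero_le (show 0 ≤ a₃ + m - B by omega)
  have hm := h.pos
  rw [hk, hn₁, hn₂, hn₄]
  simp only [Int.toNat_natCast]
  rw [← kevB_iff (m := m) (fun i hi => (hμ i hi).1) (fun i hi => (hμ i hi).2.1)
    (fun i hi => (hμ i hi).2.2.1) (by omega) (by omega) (by omega) (by omega) (by omega)]
  have hr := hμ.rot h.per (d := k + 1) (by omega)
  have ew : (fun i : ℕ => b (B + ((k + 1 : ℕ) : ℤ) + i)) = fun i : ℕ => b (X - m + i) := by
    funext i
    rw [← h.per (X - m + i)]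
    congr 1
    push_cast
    omega
  rw [ew] at hr
  have hc := h.ctr (X - m)
  have t1 : (a₁ - (X - m)).toNat = n₁ - (k + 1) := by omega
  have t2 : (a₂ - (X - m)).toNat = n₂ - (k + 1) := by omega
  have t3 : (a₃ - (X - m)).toNat = n₄ - (k + 1) := by omega
  unfold kevZ
  rw [t1, t2, t3]
  constructor
  · rintro ⟨τ', hτ', hK⟩
    exact (KEv_congr (Mated.unique hc hτ' hr) hm (by omega) (by omega)).1 hK
  · intro hK
    exact ⟨_, hr, hK⟩

end Pool.Agent.SixB
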