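import Pool.Agent.Lib.SixB.CAEnvE
import Pool.Agent.Lib.SixB.CAIn
import Pool.Agent.Lib.SixB.CAJump
import Pool.Agent.Lib.SixB.S6W2
import Pool.Agent.Lib.SixB.S6KB

/-!
# 6BD, block CA: the exact inputs `ExIn` for the official environments

* `JEnv.hM_eq`, `JEnv.hU_eq`: heights of the contour vertices of an environment with jumps;
* `sep`, `sep_symm`: mean number of strands between two contour vertices, symmetric;
* `uN_symm`: symmetry of the natural function (own base);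
* `exIn_official`: `ExIn P L g (uN P L g) (uP P L g) (uX P L g)` from `0 < Kt`.
-/

set_option autoImplicit false

namespace Pool.Agent.SixB

open Pool.Agent.Perc Pool.Agent.Perc.Q Pool.Agent.Perc6 Pool.Agent.SixB.Tilt Relation Filter Topology

noncomputable section

namespace CJ

variable {F : Finset (ℤ × ℤ)} {m : ℕ} {b : ℤ → ℤ × ℤ} {j : ℤ → ℝ} {E : WEnv} {B : ℤ}

/-- **Height numerator of a contour vertex relative to the base.** -/
theorem JEnv.hM_eq (h : JEnv F m b j E) (hb : Cont F m b) (hP : HasPot (F : Set (ℤ × ℤ))) (B : ℤ)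
    {v : ℕ} (hv : v ≤ m) : E.hM (b (B + v)) (b B) = NJ F m b B (fun v : ℕ => j (B + v)) v := by
  have hPQ : Tilt.HasPotQ ZQ E.F := by rw [h.hF]; exact Tilt.hasPotQ_of_hasPot hP
  unfold WEnv.hM NJ
  rw [h.hF]
  refine av_congr fun T _ => ?_
  have h1 : ∀ w : ℕ, E.hN (ind T) (b (B + w)) - E.hN (ind T) (b B) =
      -∑ i ∈ Finset.range w, E.num (ind T) (sdB b (B + i)) := by
    intro w
    induction w with
    | zero => simp
    | succ w ih =>
      have h2 : sdB b (B + w) ∈ dE ZQ E.F := by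
        rw [h.hF]
        exact (SixB.mem_bS.mp (hb.sdB_mem (B + w))).1
      have h3 : E.hN (ind T) (b (B + w)) - E.hN (ind T) (b (B + w + 1)) =
          E.num (ind T) (sdB b (B + w)) := E.hN_sub hPQ h2
      rw [Finset.sum_range_succ, ← h3, show B + ((w + 1 : ℕ) : ℤ) = B + w + 1 by push_cast; ring]
      linarith
  rw [h1 v, hb.sum_num E h.hF (mtc_mated (hb.ctr hP B) _) hv, ← Finset.sum_neg_distrib]
  have hlt := mtc_lt (hb.ctr hP B) (ind T)
  unfold Nt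
  refine Finset.sum_congr rfl fun i hi => ?_
  rw [mem_ovC] at hi
  have := hlt i hi.1
  unfold pEC Pt
  rw [h.hs _ _ (by omega) (by omega), Jz_rel]
  have h1 : ∏ l ∈ (opC m (mtc F m b B (ind T))).erase i,
      E.t (sdB b (B + l)) (sdB b (B + (mtc F m b B (ind T)) l)) =
      ∏ l ∈ (opC m (mtc F m b B (ind T))).erase i,
        tt (Jn (fun v : ℕ => j (B + v)) l ((mtc F m b B (ind T)) l)) := by
    refine Finset.prod_congr rfl fun l hl => ?_
    have h2 := Finset.mem_of_mem_erase hl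
    rw [mem_opC] at h2
    have := hlt l h2.1
    rw [h.ht _ _ (by omega) (by omega), Jz_rel]
  rw [h1]
  ring

theorem JEnv.hU_eq (h : JEnv F m b j E) (hb : Cont F m b) (hP : HasPot (F : Set (ℤ × ℤ))) (B : ℤ)
    {v : ℕ} (hv : v ≤ m) : E.hU (b (B + v)) (b B) =
      NJ F m b B (fun v : ℕ => j (B + v)) v / ZJ F m b B fun v : ℕ => j (B + v) := by
  rw [← E.hM_div, h.hM_eq hb hP B hv, h.Z_eq hb hP B]

theorem cenv_jEnv (hb : Cont F m b) (hj : ∀ v, j (v + m) = j v) (h0 : csum j 0 m = Real.pi / 3) :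
    JEnv F m b j (cenv F b m j) :=
  ⟨rfl, fun _ _ hik hk => (cenv_ts hb hj h0 hik hk).1, fun _ _ hik hk => (cenv_ts hb hj h0 hik hk).2⟩

/-! ## Jumps relative to a base -/

theorem jN_at {m : ℕ} {c v : ℤ} (h : |v - c| < m) : jN m c v = if v = c then Real.pi / 3 else 0 := by
  unfold jN
  by_cases h1 : v = c
  · rw [if_pos h1, if_pos]
    rw [h1, sub_self]
    exact dvd_zero _
  · rw [if_neg h1, if_neg]
    rintro ⟨q, hq⟩
    have h2 : q ≠ 0 := by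
      rintro rfl
      omega
    have h3 : (1 : ℤ) ≤ |q| := Int.one_le_abs h2
    rw [hq, abs_mul, Nat.abs_cast] at h
    have hm : (0 : ℤ) ≤ m := Int.natCast_nonneg m
    nlinarith

theorem jN_base1 (m : ℕ) (c v : ℤ) : jN m (c + m) v = jN m c v := by
  have := jN_base m c 1 v
  rwa [one_mul] at this

/-! ## Natural environment -/

theorem crs_zero (B : ℤ) : crs F m b B 0 = 0 := by
  unfold crs
  have : ∀ ω : Cfg, ((ovC m (mtc F m b B ω) 0).card : ℝ) = 0 := by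
    intro ω
    have h1 : ovC m (mtc F m b B ω) 0 = ∅ := by
      ext i
      rw [mem_ovC]
      constructor
      · intro h; omega
      · intro h; simp at h
    rw [h1]
    simp
  simp only [this]
  exact av_const 0

/-- mean number of strands between two contour vertices -/
def sep (F : Finset (ℤ × ℤ)) (m : ℕ) (b : ℤ → ℤ × ℤ) (x y : ℤ) : ℝ :=
  crs F m b x ((y - x) % m).toNat

theorem sep_symm (hb : Cont F m b) (hP : HasPot (F : Set (ℤ × ℤ))) (x y : ℤ) :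
    sep F m b x y = sep F m b y x := by
  have hm : (0 : ℤ) < m := by exact_mod_cast hb.pos
  have h0 := Int.emod_nonneg (y - x) hm.ne'
  have h1 := Int.emod_lt_of_pos (y - x) hm
  have h2 := Int.emod_add_mul_ediv (y - x) m
  have h0' := Int.emod_nonneg (x - y) hm.ne'
  have h1' := Int.emod_lt_of_pos (x - y) hm
  have h2' := Int.emod_add_mul_ediv (x - y) m
  obtain ⟨v, hv⟩ := Int.eq_ofNat_of_zero_le h0
  obtain ⟨v', hv'⟩ := Int.eq_ofNat_of_zero_le h0'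
  set q := (y - x) / m
  set q' := (x - y) / m
  unfold sep
  rw [hv, hv', Int.toNat_natCast, Int.toNat_natCast]
  rw [hv] at h1 h2
  rw [hv'] at h1' h2'
  have h3 : (v : ℤ) + v' = m * (-(q + q')) := by linarith
  have h4 : -(q + q') = 0 ∨ -(q + q') = 1 := by
    have h5 : (m : ℤ) * (-(q + q')) < m * 2 := by rw [← h3]; linarith
    have h6 : (m : ℤ) * (-1) < m * (-(q + q')) := by rw [← h3]; nlinarith
    have h7 := lt_of_mul_lt_mul_left h5 hm.le
    have h8 := lt_of_mul_lt_mul_left h6 hm.le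
    omega
  rcases h4 with h4 | h4
  · rw [h4, mul_zero] at h3
    have e1 : v = 0 := by omega
    have e2 : v' = 0 := by omega
    rw [e1, e2, crs_zero, crs_zero]
  · rw [h4, mul_one] at h3
    have e1 : m - v = v' := by omega
    rw [crs_symm hb hP x (by omega : v < m), e1]
    have e2 : x + (v : ℤ) = y + (-q) * m := by linarith
    rw [e2, crs_per hb]

/-- **Boundary heights of the natural environment**, relative to its base. -/
theorem hU_nat (hb : Cont F m b) (hP : HasPot (F : Set (ℤ × ℤ))) (x y : ℤ) :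
    (cenv F b m (jN m x)).hU (b y) (b x) = 1 / Real.sqrt 3 * sep F m b x y := by
  have hm : (0 : ℤ) < m := by exact_mod_cast hb.pos
  have h0 := Int.emod_nonneg (y - x) hm.ne'
  have h1 := Int.emod_lt_of_pos (y - x) hm
  have h2 := Int.emod_add_mul_ediv (y - x) m
  obtain ⟨v, hv⟩ := Int.eq_ofNat_of_zero_le h0
  set q := (y - x) / m
  unfold sep
  rw [hv, Int.toNat_natCast]
  rw [hv] at h1 h2
  have e1 : b y = b (x + v) := by
    rw [← hb.per_mulC (x + v) q]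
    congr 1
    linarith
  have hJ := cenv_jEnv (F := F) hb (j := jN m x) (jN_per m x) (csum_jN hb.pos x)
  have hc := hb.ctr hP x
  have hz : ∀ v : ℕ, 1 ≤ v → v < m → jN m x (x + v) = 0 := by
    intro v h3 h4
    rw [jN_at, if_neg (by omega)]
    rw [add_sub_cancel_left, Nat.abs_cast]
    exact_mod_cast h4
  rw [e1, hJ.hU_eq hb hP x (by omega), NJ_congr hc (j' := fun _ => 0) hz,
    ZJ_congr hc (j' := fun _ => 0) hz, NJ_zero, ZJ_zero, div_one]

/-! ## Two marks -/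

theorem jP_rel {x y : ℤ} (hxy : x < y) (hy : y < x + m) (α : ℝ) {v₀ : ℕ} (h0 : (v₀ : ℤ) = y - x) :
    ∀ v : ℕ, 1 ≤ v → v < m → jP m α x y (x + v) = dl v₀ (α * (Real.pi / 3)) v := by
  intro v h3 h4
  unfold jP dl
  rw [jN_at, jN_at]
  · by_cases h5 : v = v₀
    · rw [if_neg (by omega), if_pos (by omega), if_pos h5]
      ring
    · rw [if_neg (by omega), if_neg (by omega), if_neg h5]
      ring
  · rw [abs_lt]
    constructor <;> omega
  · rw [abs_lt]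
    constructor <;> omega

theorem hU_pair (hb : Cont F m b) (hP : HasPot (F : Set (ℤ × ℤ))) {x y : ℤ} (hxy : x < y)
    (hy : y < x + m) (α : ℝ) : ∃ v₀ : ℕ, (v₀ : ℤ) = y - x ∧
    (cenv F b m (jP m α x y)).hU (b y) (b x) = NJ F m b x (dl v₀ (α * (Real.pi / 3))) v₀ /
      ZJ F m b x (dl v₀ (α * (Real.pi / 3))) := by
  obtain ⟨v₀, hv⟩ := Int.eq_ofNat_of_zero_le (show 0 ≤ y - x by omega)
  refine ⟨v₀, hv.symm, ?_⟩
  have hJ := cenv_jEnv (F := F) hb (j := jP m α x y) (jP_per m α x y) (csum_jP hb.pos α x y)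
  have hc := hb.ctr hP x
  have e1 : b y = b (x + v₀) := by congr 1; omega
  have hz := jP_rel hxy hy α hv.symm
  rw [e1, hJ.hU_eq hb hP x (by omega), NJ_congr hc hz, ZJ_congr hc hz]

/-! ## The family (A) -/

/-- the matching of the sides as a structure -/
def nm (hc : Ctr (F : Set (ℤ × ℤ)) m (fun k : ℕ => b (B + k))) (ω : Cfg) : TW.NM m where
  M := mtc F m b B ω
  spec := fun i hi => by
    have h := mtc_mated hc ω i hi
    exact ⟨h.1, h.2.1, h.2.2.1⟩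
  nc := fun i hi j h1 h2 => (Mated.ncMat hc (mtc_mated hc ω)).nc i hi (by omega) j h1 h2

theorem ZJ_eq_W (hc : Ctr (F : Set (ℤ × ℤ)) m (fun k : ℕ => b (B + k))) (J : ℕ → ℝ) :
    ZJ F m b B J = av F fun ω => TW.W J (nm hc ω) := rfl

theorem kevB_Kev (hc : Ctr (F : Set (ℤ × ℤ)) m (fun k : ℕ => b (B + k))) (ω : Cfg) (k n₁ n₂ n₄ : ℕ) :
    KEvB k n₁ n₂ n₄ (mtc F m b B ω) ↔ TW.Kev (nm hc ω) k n₁ n₂ n₄ := by
  unfold KEvB TW.Kev TW.Gd
  refine and_congr Iff.rfl (and_congr Iff.rfl ?_)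
  constructor
  · intro h i h1 h2 h3
    exact h i h1 h2 h3.symm
  · intro h i h1 h2 h3
    exact h i h1 h2 h3.symm

/-- **The partition function of the side `(X - 1, X)` is the probability of the event `K`.** -/
theorem ZJ_jK (hZ : CtrZ (F : Set (ℤ × ℤ)) m b) {a₁ a₂ X : ℤ} (h12 : a₁ ≤ a₂) (h23 : a₂ < B)
    (hBX : B < X) (hX : X ≤ a₁ + m) {k n₁ n₂ : ℕ} (hk : (k : ℤ) = X - 1 - B)
    (h₁ : (n₁ : ℤ) = a₁ + m - B) (h₂ : (n₂ : ℤ) = a₂ + m - B) :
    ZJ F m b B (TW.jK k n₁ n₂ m) = pr F (kevZ F m b a₁ a₂ B X) := by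
  classical
  have hc := hZ.ctr B
  rw [ZJ_eq_W hc]
  unfold av pr
  congr 1
  have h1 : ∀ T ∈ F.powerset, TW.W (TW.jK k n₁ n₂ m) (nm hc (ind T)) =
      if cfg T ∈ kevZ F m b a₁ a₂ B X then 1 else 0 := by
    intro T _
    rw [TW.W_jK (by omega) (by omega) (by omega) le_rfl]
    have h2 := kevZ_base hZ (a₁ := a₁) (a₂ := a₂) (a₃ := B) (X := X) (B := B) h12 h23.le le_rfl hBX hX
      (by omega) (ω := ind T) (mtc_mated hc (ind T))
    have e1 : (X - 1 - B).toNat = k := by omega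
    have e2 : (a₁ + m - B).toNat = n₁ := by omega
    have e3 : (a₂ + m - B).toNat = n₂ := by omega
    have e4 : (B + m - B).toNat = m := by omega
    rw [e1, e2, e3, e4, kevB_Kev hc] at h2
    have e5 : (ind T : Cfg) = cfg T := by
      funext f
      unfold ind cfg
      congr
    rw [← e5]
    exact if_congr h2.symm rfl rfl
  rw [Finset.sum_congr rfl h1, Finset.sum_boole]

theorem sum_jM {n2 n3 : ℕ} (h2 : 1 ≤ n2) (h2' : n2 < m) (h3 : 1 ≤ n3) (h3' : n3 < m) (X : ℕ → ℝ) :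
    ∑ v ∈ Finset.Ico 1 m, TW.jM n2 n3 v * X v = Real.pi / 3 * (X n3 - X n2) := by
  unfold TW.jM TW.mk
  simp only [Pi.add_apply, add_mul, Finset.sum_add_distrib, ite_mul, zero_mul,
    Finset.sum_ite_eq', Finset.mem_Ico]
  rw [if_pos ⟨h3, h3'⟩, if_pos ⟨h2, h2'⟩]
  ring

/-- the full environment relative to the base `a₃` -/
theorem jX_rel {a₁ a₂ a₂' k : ℤ} (h12 : a₁ < a₂) (h22 : a₂ < a₂') (h23 : a₂' < B) (hBk : B ≤ k)
    (hk : k + 1 ≤ a₁ + m) (α : ℝ) {κ n₁ n₂ n₃ : ℕ} (hκ : (κ : ℤ) = k - B)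
    (h₁ : (n₁ : ℤ) = a₁ + m - B) (h₂ : (n₂ : ℤ) = a₂ + m - B) (h₃ : (n₃ : ℤ) = a₂' + m - B) :
    ∀ v : ℕ, 1 ≤ v → v < m → jX m α a₁ a₂ a₂' B k (B + v) = TW.jA κ n₁ n₂ n₃ m α v := by
  intro v hv hv'
  have e0 : TW.jA κ n₁ n₂ n₃ m α v = TW.mk κ (-(Real.pi / 3)) v + TW.mk (κ + 1) (-(Real.pi / 3)) v +
      TW.mk n₁ (Real.pi / 3) v + TW.mk n₂ (Real.pi / 3) v + TW.mk m (Real.pi / 3) v +
      α * (TW.mk n₃ (Real.pi / 3) v + TW.mk n₂ (-(Real.pi / 3)) v) := rfl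
  have e1 : jN m a₁ (B + v) = if v = n₁ then Real.pi / 3 else 0 := by
    rw [← jN_base1, jN_at (by rw [abs_lt]; constructor <;> omega)]
    exact if_congr (by omega) rfl rfl
  have e2 : jN m a₂ (B + v) = if v = n₂ then Real.pi / 3 else 0 := by
    rw [← jN_base1, jN_at (by rw [abs_lt]; constructor <;> omega)]
    exact if_congr (by omega) rfl rfl
  have e3 : jN m a₂' (B + v) = if v = n₃ then Real.pi / 3 else 0 := by
    rw [← jN_base1, jN_at (by rw [abs_lt]; constructor <;> omega)]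
    exact if_congr (by omega) rfl rfl
  have e4 : jN m B (B + v) = 0 := by
    rw [jN_at (by rw [abs_lt]; constructor <;> omega), if_neg (by omega)]
  have e5 : jN m k (B + v) = if v = κ then Real.pi / 3 else 0 := by
    rw [jN_at (by rw [abs_lt]; constructor <;> omega)]
    exact if_congr (by omega) rfl rfl
  have e6 : jN m (k + 1) (B + v) = if v = κ + 1 then Real.pi / 3 else 0 := by
    rw [jN_at (by rw [abs_lt]; constructor <;> omega)]
    exact if_congr (by omega) rfl rfl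
  have e7 : TW.mk m (Real.pi / 3) v = 0 := if_neg (by omega)
  have e8 : ∀ n : ℕ, TW.mk n (-(Real.pi / 3)) v = -(TW.mk n (Real.pi / 3) v) := by
    intro n
    unfold TW.mk
    split_ifs <;> ring
  have e9 : ∀ n : ℕ, TW.mk n (Real.pi / 3) v = if v = n then Real.pi / 3 else 0 := fun n => rfl
  unfold jX
  rw [e1, e2, e3, e4, e5, e6, e0, e7]
  simp only [e8, e9]
  ring

section ratio

variable (hb : Cont F m b) (hP : HasPot (F : Set (ℤ × ℤ))) (hZ : CtrZ (F : Set (ℤ × ℤ)) m b)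
  {a₁ a₂ a₂' a₃ X : ℤ} (h12 : a₁ < a₂) (h22 : a₂ < a₂') (h23 : a₂' < a₃) (h3X : a₃ < X)
  (hX : X < a₁ + m)

include hb hP h12 h22 h23 in
/-- partition function and height difference of the full environment with the side `(k, k + 1)` -/
theorem envX_eq {k : ℤ} (hBk : a₃ ≤ k) (hk : k + 1 ≤ a₁ + m) (α : ℝ) {κ n₁ n₂ n₃ : ℕ}
    (hκ : (κ : ℤ) = k - a₃) (h₁ : (n₁ : ℤ) = a₁ + m - a₃) (h₂ : (n₂ : ℤ) = a₂ + m - a₃)
    (h₃ : (n₃ : ℤ) = a₂' + m - a₃) :
    (cenv F b m (jX m α a₁ a₂ a₂' a₃ k)).Z = ZJ F m b a₃ (TW.jA κ n₁ n₂ n₃ m α) ∧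
    (cenv F b m (jX m α a₁ a₂ a₂' a₃ k)).hM (b a₂') (b a₂) =
      NJ F m b a₃ (TW.jA κ n₁ n₂ n₃ m α) n₃ - NJ F m b a₃ (TW.jA κ n₁ n₂ n₃ m α) n₂ := by
  have hJ := cenv_jEnv (F := F) hb (j := jX m α a₁ a₂ a₂' a₃ k) (jX_per m α a₁ a₂ a₂' a₃ k)
    (csum_jX hb.pos α a₁ a₂ a₂' a₃ k)
  have hc := hb.ctr hP a₃
  have hz := jX_rel h12 h22 h23 hBk hk α hκ h₁ h₂ h₃
  refine ⟨?_, ?_⟩
  · rw [hJ.Z_eq hb hP a₃, ZJ_congr hc hz]
  · have e1 : b a₂' = b (a₃ + n₃) := by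
      rw [← hb.per a₂']
      congr 1
      omega
    have e2 : b a₂ = b (a₃ + n₂) := by
      rw [← hb.per a₂]
      congr 1
      omega
    have h3 := hJ.hM_eq hb hP a₃ (v := n₃) (by omega)
    have h4 := hJ.hM_eq hb hP a₃ (v := n₂) (by omega)
    rw [NJ_congr hc hz, ← e1] at h3
    rw [NJ_congr hc hz, ← e2] at h4
    rw [← h3, ← h4, ← (cenv F b m (jX m α a₁ a₂ a₂' a₃ k)).hM_add (b a₂') (b a₂) (b a₃)]
    ring

theorem ZW_pair (hc : Ctr (F : Set (ℤ × ℤ)) m (fun k : ℕ => b (B + k))) (J : ℕ → ℕ → ℝ) (κ : ℕ) :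
    TW.ZW (F.powerset ×ˢ {κ, κ + 1}) (fun _ => 1) (fun ω => nm hc (ind ω.1)) (fun ω => J ω.2) =
      2 ^ F.card * (ZJ F m b B (J κ) + ZJ F m b B (J (κ + 1))) := by
  unfold TW.ZW
  rw [Finset.sum_product]
  have h1 : ∀ T ∈ F.powerset, ∑ y ∈ ({κ, κ + 1} : Finset ℕ), (1 : ℝ) * TW.W (J y) (nm hc (ind T)) =
      TW.W (J κ) (nm hc (ind T)) + TW.W (J (κ + 1)) (nm hc (ind T)) := by
    intro T _
    rw [Finset.sum_pair (by omega)]
    ring
  rw [Finset.sum_congr rfl h1, Finset.sum_add_distrib, ZJ_eq_W hc, ZJ_eq_W hc]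
  unfold av
  field_simp

include hb hP hZ h12 h22 h23 h3X hX in
/-- **The exact ratio formula**, both sides at the vertex `X`. -/
theorem ratio_gen
    (h0 : 0 < pr F (kevZ F m b a₁ a₂ a₃ X) + pr F (kevZ F m b a₁ a₂ a₃ (X + 1)))
    (h1 : 0 < pr F (kevZ F m b a₁ a₂' a₃ X) + pr F (kevZ F m b a₁ a₂' a₃ (X + 1))) :
    ContinuousOn (fun α => ((cenv F b m (jX m α a₁ a₂ a₂' a₃ (X - 1))).hM (b a₂') (b a₂) +
        (cenv F b m (jX m α a₁ a₂ a₂' a₃ X)).hM (b a₂') (b a₂)) /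
      ((cenv F b m (jX m α a₁ a₂ a₂' a₃ (X - 1))).Z + (cenv F b m (jX m α a₁ a₂ a₂' a₃ X)).Z))
      (Set.Icc 0 1) ∧
    Real.log (pr F (kevZ F m b a₁ a₂' a₃ X) + pr F (kevZ F m b a₁ a₂' a₃ (X + 1))) -
      Real.log (pr F (kevZ F m b a₁ a₂ a₃ X) + pr F (kevZ F m b a₁ a₂ a₃ (X + 1))) =
    Real.pi / 3 * ∫ α in (0 : ℝ)..1,
      ((cenv F b m (jX m α a₁ a₂ a₂' a₃ (X - 1))).hM (b a₂') (b a₂) +
        (cenv F b m (jX m α a₁ a₂ a₂' a₃ X)).hM (b a₂') (b a₂)) /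
      ((cenv F b m (jX m α a₁ a₂ a₂' a₃ (X - 1))).Z + (cenv F b m (jX m α a₁ a₂ a₂' a₃ X)).Z) := by
  have hc := hb.ctr hP a₃
  obtain ⟨κ, hκ⟩ := Int.eq_ofNat_of_zero_le (show 0 ≤ X - 1 - a₃ by omega)
  obtain ⟨n₁, hn₁⟩ := Int.eq_ofNat_of_zero_le (show 0 ≤ a₁ + m - a₃ by omega)
  obtain ⟨n₂, hn₂⟩ := Int.eq_ofNat_of_zero_le (show 0 ≤ a₂ + m - a₃ by omega)
  obtain ⟨n₃, hn₃⟩ := Int.eq_ofNat_of_zero_le (show 0 ≤ a₂' + m - a₃ by omega)
  have x1 := fun α => envX_eq hb hP h12 h22 h23 (k := X - 1) (by omega) (by omega) α (κ := κ)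
    hκ.symm hn₁.symm hn₂.symm hn₃.symm
  have x2 := fun α => envX_eq hb hP h12 h22 h23 (k := X) (by omega) (by omega) α (κ := κ + 1)
    (by push_cast; omega) hn₁.symm hn₂.symm hn₃.symm
  simp only [(x1 _).1, (x1 _).2, (x2 _).1, (x2 _).2]
  set Z : ℝ → ℝ := fun α => ZJ F m b a₃ (TW.jA κ n₁ n₂ n₃ m α) +
    ZJ F m b a₃ (TW.jA (κ + 1) n₁ n₂ n₃ m α) with hZdef
  set N : ℝ → ℝ := fun α => (NJ F m b a₃ (TW.jA κ n₁ n₂ n₃ m α) n₃ -
      NJ F m b a₃ (TW.jA κ n₁ n₂ n₃ m α) n₂) +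
    (NJ F m b a₃ (TW.jA (κ + 1) n₁ n₂ n₃ m α) n₃ - NJ F m b a₃ (TW.jA (κ + 1) n₁ n₂ n₃ m α) n₂)
    with hNdef
  have hd1 : ∀ (κ : ℕ) (α : ℝ), HasDerivAt (fun a => ZJ F m b a₃ (TW.jA κ n₁ n₂ n₃ m a))
      (Real.pi / 3 * (NJ F m b a₃ (TW.jA κ n₁ n₂ n₃ m α) n₃ -
        NJ F m b a₃ (TW.jA κ n₁ n₂ n₃ m α) n₂)) α := by
    intro κ α
    have h2 := hasDerivAt_ZJ hc (TW.jK κ n₁ n₂ m) (TW.jM n₂ n₃) α
    rw [sum_jM (by omega) (by omega) (by omega) (by omega)] at h2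
    exact h2
  have hN1 : ∀ (κ : ℕ) (v : ℕ), Continuous fun a : ℝ => NJ F m b a₃ (TW.jA κ n₁ n₂ n₃ m a) v :=
    fun κ v => continuous_NJ hc (TW.jK κ n₁ n₂ m) (TW.jM n₂ n₃) v
  have hd : ∀ α, HasDerivAt Z (Real.pi / 3 * N α) α := by
    intro α
    refine ((hd1 κ α).add (hd1 (κ + 1) α)).congr_deriv ?_
    simp only [hNdef]
    ring
  have hN : Continuous N := (((hN1 κ n₃).sub (hN1 κ n₂)).add
    ((hN1 (κ + 1) n₃).sub (hN1 (κ + 1) n₂)))
  have hZc : Continuous Z := continuous_iff_continuousAt.mpr fun α => (hd α).continuousAt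
  -- the ends
  have z0 : Z 0 = pr F (kevZ F m b a₁ a₂ a₃ X) + pr F (kevZ F m b a₁ a₂ a₃ (X + 1)) := by
    simp only [hZdef, TW.jA_zero]
    rw [ZJ_jK hZ h12.le (h22.trans h23) h3X hX.le hκ.symm hn₁.symm hn₂.symm,
      ZJ_jK hZ h12.le (h22.trans h23) (by omega : a₃ < X + 1) (by omega) (by push_cast; omega)
        hn₁.symm hn₂.symm]
  have z1 : Z 1 = pr F (kevZ F m b a₁ a₂' a₃ X) + pr F (kevZ F m b a₁ a₂' a₃ (X + 1)) := by
    simp only [hZdef, TW.jA_one]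
    rw [ZJ_jK hZ (h12.trans h22).le h23 h3X hX.le hκ.symm hn₁.symm hn₃.symm,
      ZJ_jK hZ (h12.trans h22).le h23 (by omega : a₃ < X + 1) (by omega) (by push_cast; omega)
        hn₁.symm hn₃.symm]
  -- positivity
  have hpos : ∀ α ∈ Set.Icc (0 : ℝ) 1, 0 < Z α := by
    intro α hα
    have ho : ∀ ω ∈ F.powerset ×ˢ ({κ, κ + 1} : Finset ℕ), TW.Ord ω.2 n₁ n₂ n₃ m m := by
      intro ω hω
      rw [Finset.mem_product, Finset.mem_insert, Finset.mem_singleton] at hω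
      exact ⟨by omega, by omega, by omega, by omega, le_rfl⟩
    have hPK : ∀ n : ℕ, n₁ ≤ n → n ≤ m →
        TW.PK (F.powerset ×ˢ {κ, κ + 1}) (fun _ => 1) (fun ω => nm hc (ind ω.1)) (fun ω => ω.2)
          n₁ n m = 2 ^ F.card * (ZJ F m b a₃ (TW.jK κ n₁ n m) + ZJ F m b a₃ (TW.jK (κ + 1) n₁ n m)) := by
      intro n h2 h3
      rw [← TW.ZW_jK (fun ω hω => (ho ω hω).h01) h2 h3 le_rfl]
      exact ZW_pair hc (fun κ => TW.jK κ n₁ n m) κ
    have hp0 : 0 < TW.PK (F.powerset ×ˢ {κ, κ + 1}) (fun _ => 1) (fun ω => nm hc (ind ω.1))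
        (fun ω => ω.2) n₁ n₂ m := by
      rw [hPK n₂ (by omega) (by omega)]
      have h2 : 0 < Z 0 := by rw [z0]; exact h0
      simp only [hZdef, TW.jA_zero] at h2
      positivity
    have hp1 : 0 < TW.PK (F.powerset ×ˢ {κ, κ + 1}) (fun _ => 1) (fun ω => nm hc (ind ω.1))
        (fun ω => ω.2) n₁ n₃ m := by
      rw [hPK n₃ (by omega) (by omega)]
      have h2 : 0 < Z 1 := by rw [z1]; exact h1
      simp only [hZdef, TW.jA_one] at h2
      positivity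
    have h3 := TW.ZW_jA_pos (s := F.powerset ×ˢ {κ, κ + 1}) (p := fun _ => 1)
      (μ := fun ω => nm hc (ind ω.1)) (k := fun ω => ω.2) ho (fun _ _ => zero_le_one) hp0 hp1 hα
    rw [ZW_pair hc (fun κ => TW.jA κ n₁ n₂ n₃ m α) κ] at h3
    exact (pos_iff_pos_of_mul_pos h3).mp (by positivity)
  refine ⟨hN.continuousOn.div hZc.continuousOn fun α hα => (hpos α hα).ne', ?_⟩
  rw [← z0, ← z1]
  exact log_ratio hd hN hpos

end ratio

end CJ

/-! ## The official environments -/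

section official

variable {P : Finset (ℤ × ℤ)} {L : ℕ} {g : ℤ → ℤ × ℤ}

theorem rf_zero (P : Finset (ℤ × ℤ)) : rf 0 P = ∅ := by
  unfold rf
  ext f
  simp

theorem hU_empty (E : WEnv) (hE : E.F = ∅) (z z' : VZ) : E.hU z z' = 0 := by
  have h1 : ∀ ω : Cfg, ust ZQ (∅ : Finset (ℤ × ℤ)) ω = ∅ := by
    intro ω
    unfold ust dstr dE
    simp
  unfold WEnv.hU WEnv.hN
  rw [hE]
  simp only [h1, Finset.sum_empty, sub_zero]
  rw [av_const, zero_div]

theorem uN_symm (hP : MPoly P) (hg : Cont P L g) (n : ℕ) (j k : ℤ) :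
    uN P L g n j (gr n g k) = uN P L g n k (gr n g j) := by
  rcases Nat.eq_zero_or_pos n with h0 | hn
  · subst h0
    unfold uN
    rw [hU_empty _ (rf_zero P), hU_empty _ (rf_zero P)]
  · have hb := CARf.cont_rf hg hn
    have hp := (CARf.mpoly_rf hP hn).hasPot
    have h1 : uN P L g n j (gr n g k) = 1 / Real.sqrt 3 * CJ.sep (rf n P) (n * L) (gr n g) j k :=
      CJ.hU_nat hb hp j k
    have h2 : uN P L g n k (gr n g j) = 1 / Real.sqrt 3 * CJ.sep (rf n P) (n * L) (gr n g) k j :=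
      CJ.hU_nat hb hp k j
    rw [h1, h2, CJ.sep_symm hb hp]

theorem uP_pair (hP : MPoly P) (hg : Cont P L g) (n : ℕ) (j j' : ℤ) (h1 : j < j')
    (h2 : j' < j + n * L) :
    ContinuousOn (fun α => uP P L g n α j j' (gr n g j') - uP P L g n α j j' (gr n g j))
      (Set.Icc 0 1) ∧
    ∫ α in (0 : ℝ)..1, (uP P L g n α j j' (gr n g j') - uP P L g n α j j' (gr n g j)) = 0 := by
  have hn : 0 < n := by
    rcases Nat.eq_zero_or_pos n with h0 | hn
    · subst h0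
      exfalso
      push_cast at h2
      omega
    · exact hn
  have hb := CARf.cont_rf hg hn
  have hp := (CARf.mpoly_rf hP hn).hasPot
  have h2' : j' < j + (n * L : ℕ) := by push_cast; exact h2
  obtain ⟨v₀, hv⟩ := Int.eq_ofNat_of_zero_le (show 0 ≤ j' - j by omega)
  have key : ∀ α : ℝ, uP P L g n α j j' (gr n g j') - uP P L g n α j j' (gr n g j) =
      CJ.NJ (rf n P) (n * L) (gr n g) j (CJ.dl v₀ (α * (Real.pi / 3))) v₀ /
        CJ.ZJ (rf n P) (n * L) (gr n g) j (CJ.dl v₀ (α * (Real.pi / 3))) := by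
    intro α
    obtain ⟨w, hw, h3⟩ := CJ.hU_pair hb hp h1 h2' α
    have : w = v₀ := by omega
    subst this
    rw [uP_sub]
    exact h3
  simp only [key]
  have h4 := CJ.pair_integral (hb.ctr hp j) (v₀ := v₀) (by omega) (by omega)
  exact ⟨h4.2.1, h4.2.2⟩

theorem ixE_lt {s t : ℝ} (h : s < t) : ∀ᶠ n : ℕ in atTop, ix n s < ix n t := by
  have h1 : Tendsto (fun n : ℕ => (n : ℝ) * (t - s)) atTop atTop :=
    tendsto_natCast_atTop_atTop.atTop_mul_const (by linarith)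
  filter_upwards [h1.eventually_ge_atTop 1] with n hn
  unfold ix
  have h2 : ⌊(n : ℝ) * s⌋ + 1 ≤ ⌊(n : ℝ) * t⌋ := by
    rw [← Int.floor_add_one]
    exact Int.floor_le_floor (by linarith)
  omega

/-- the marks are eventually ordered -/
theorem lkE_order {t₁ t₂ t₂' t₃ t₄ : ℝ} (hm : Marks5 L g t₁ t₂ t₂' t₃ t₄) :
    ∀ᶠ p : ℕ × ℤ in lk t₄, 0 < p.1 ∧ ix p.1 t₁ < ix p.1 t₂ ∧ ix p.1 t₂ < ix p.1 t₂' ∧
      ix p.1 t₂' < ix p.1 t₃ ∧ ix p.1 t₃ < p.2 ∧ p.2 < ix p.1 t₁ + p.1 * L := by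
  have hn : Tendsto (fun p : ℕ × ℤ => p.1) (lk t₄) atTop := by
    unfold lk
    exact tendsto_comap.mono_left inf_le_left
  have hk : Tendsto (fun p : ℕ × ℤ => (p.2 : ℝ) / p.1) (lk t₄) (𝓝 t₄) := by
    unfold lk
    exact tendsto_comap.mono_left inf_le_right
  have hm4 := hm.h4
  have hm5 := hm.h5
  have h5 : Tendsto (fun n : ℕ => (n : ℝ) * ((t₁ + L - t₄) / 2)) atTop atTop :=
    tendsto_natCast_atTop_atTop.atTop_mul_const (by linarith)
  filter_upwards [hn.eventually (eventually_gt_atTop 0), hn.eventually (ixE_lt hm.h1),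
    hn.eventually (ixE_lt hm.h2), hn.eventually (ixE_lt hm.h3),
    hk.eventually (lt_mem_nhds (show (t₃ + t₄) / 2 < t₄ by linarith)),
    hk.eventually (gt_mem_nhds (show t₄ < (t₄ + (t₁ + L)) / 2 by linarith)),
    hn.eventually (h5.eventually_ge_atTop 1)] with p p0 p1 p2 p3 p4 p5 p6
  refine ⟨p0, p1, p2, p3, ?_, ?_⟩
  · have hp : (0 : ℝ) < p.1 := by exact_mod_cast p0
    rw [lt_div_iff₀ hp] at p4
    have h6 : (ix p.1 t₃ : ℝ) < p.2 := by
      have := Int.floor_le ((p.1 : ℝ) * t₃)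
      unfold ix
      nlinarith
    exact_mod_cast h6
  · have hp : (0 : ℝ) < p.1 := by exact_mod_cast p0
    rw [div_lt_iff₀ hp] at p5
    have h6 : (p.2 : ℝ) < ix p.1 t₁ + p.1 * L := by
      have := Int.lt_floor_add_one ((p.1 : ℝ) * t₁)
      unfold ix
      nlinarith
    exact_mod_cast h6

/-- **The exact inputs for the official environments.** -/
theorem exIn_official (hP : MPoly P) (hg : Cont P L g)
    (hK : ∀ t₁ t₂ t₃ t₄ : ℝ, t₁ < t₂ → t₂ < t₃ → t₃ < t₄ → t₄ < t₁ + L → Fl g t₁ → Fl g t₂ → Fl g t₃ →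
      Fl g t₄ → ∀ᶠ p : ℕ × ℤ in lk t₄, 0 < Kt P g p.1 (ix p.1 t₁) (ix p.1 t₂) (ix p.1 t₃) p.2) :
    ExIn P L g (uN P L g) (uP P L g) (uX P L g) := by
  refine ⟨uN_per hg, uN_symm hP hg, uP_pair hP hg, ?_⟩
  intro t₁ t₂ t₂' t₃ t₄ hm
  filter_upwards [lkE_order hm, hK t₁ t₂ t₃ t₄ hm.h1 (hm.h2.trans hm.h3) hm.h4 hm.h5 hm.f1 hm.f2 hm.f3
    hm.f4, hK t₁ t₂' t₃ t₄ (hm.h1.trans hm.h2) hm.h3 hm.h4 hm.h5 hm.f1 hm.f2' hm.f3 hm.f4]
    with p ho k1 k2
  obtain ⟨p0, p1, p2, p3, p4, p5⟩ := ho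
  have hb := CARf.cont_rf hg p0
  have hp := (CARf.mpoly_rf hP p0).hasPot
  have hZ : CtrZ (rf p.1 P : Set (ℤ × ℤ)) (p.1 * L) (gr p.1 g) :=
    ⟨hb.pos, hb.per, fun r => (CARf.mpoly_rf hP p0).ctr hb r⟩
  have p5' : p.2 < ix p.1 t₁ + (p.1 * L : ℕ) := by push_cast; exact p5
  have e1 := Kt_eq hZ p1.le (p2.trans p3).le p4 p5'
  have e2 := Kt_eq hZ (p1.trans p2).le p3.le p4 p5'
  refine ⟨k1, k2, ?_⟩
  simp only [uX_sub]
  rw [e1] at k1 ⊢
  rw [e2] at k2 ⊢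
  exact CJ.ratio_gen hb hp hZ p1 p2 p3 p4 p5' k1 k2

end official

end

end Pool.Agent.SixB
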