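import Pool.Agent.Lib.SixB.CAExIn
import Pool.Agent.Lib.SixB.CAEqui
import Pool.Agent.Lib.SixB.CADual

/-!
# 6BD, block CA: positivity of the partition functions of the environments

* `kev_pos`: for `n ≥ 2` and ordered marks the event `K` of every side has positive probability;
* `Kt_pos'`, `exIn`: `0 < Kt`, the exact inputs `ExIn` without hypothesis;
* `envN_Z`, `envP_Z_pos`, `envX_Z_pos`: partition functions of the environments.
-/

set_option autoImplicit false

namespace Pool.Agent.SixB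

open Pool.Agent.Perc Pool.Agent.Perc.Q Pool.Agent.Perc6 Pool.Agent.SixB.Tilt Relation Filter Topology

noncomputable section

variable {P : Finset (ℤ × ℤ)} {L n : ℕ} {g : ℤ → ℤ × ℤ}

/-- the face `f` has a corner of colour `c` on the arc `[a, e]` -/
def Tch (b : ℤ → ℤ × ℤ) (c a e : ℤ) (f : ℤ × ℤ) : Prop :=
  ∃ q : ℤ, a ≤ q ∧ q ≤ e ∧ par (b q) = c ∧ IsCor f (b q)

open Classical in
/-- the faces which touch the `c`-vertices of the arc are open for the other colour, all others for `c` -/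
def tchT (F : Finset (ℤ × ℤ)) (b : ℤ → ℤ × ℤ) (c a e : ℤ) : Finset (ℤ × ℤ) :=
  F.filter fun f => if Tch b c a e f then par f ≠ c else par f = c

theorem tch_bond {F : Finset (ℤ × ℤ)} {b : ℤ → ℤ × ℤ} {c a e : ℤ} (hc : c = 0 ∨ c = 1)
    {p q : ℤ × ℤ} (h : Bond (cfg (tchT F b c a e)) (F : Set (ℤ × ℤ)) p q) :
    ∃ f ∈ F, IsCor f p ∧ IsCor f q ∧ (par p = c ↔ ¬ Tch b c a e f) := by
  classical
  obtain ⟨x, y, hf, h⟩ := h
  have hf' : (x, y) ∈ F := by exact_mod_cast hf
  refine ⟨(x, y), hf', ?_, ?_, ?_⟩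
  · unfold IsCor
    rcases h with ⟨-, (⟨rfl, rfl⟩ | ⟨rfl, rfl⟩)⟩ | ⟨-, (⟨rfl, rfl⟩ | ⟨rfl, rfl⟩)⟩ <;> simp
  · unfold IsCor
    rcases h with ⟨-, (⟨rfl, rfl⟩ | ⟨rfl, rfl⟩)⟩ | ⟨-, (⟨rfl, rfl⟩ | ⟨rfl, rfl⟩)⟩ <;> simp
  · have hm : (x, y) ∈ tchT F b c a e ↔
        if Tch b c a e (x, y) then par (x, y) ≠ c else par (x, y) = c := by
      unfold tchT
      rw [Finset.mem_filter]
      exact ⟨fun h => h.2, fun h => ⟨hf', h⟩⟩
    rcases h with ⟨h1, h2⟩ | ⟨h1, h2⟩
    · have h3 : (x, y) ∈ tchT F b c a e := by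
        unfold cfg at h1
        exact of_decide_eq_true h1
      rw [hm] at h3
      have h4 : par p = par (x, y) := by
        rcases h2 with ⟨rfl, -⟩ | ⟨rfl, -⟩
        · rfl
        · unfold par; simp only; omega
      rw [h4]
      by_cases ht : Tch b c a e (x, y)
      · rw [if_pos ht] at h3
        exact ⟨fun h5 => absurd h5 h3, fun h5 => absurd ht h5⟩
      · rw [if_neg ht] at h3
        exact ⟨fun _ => ht, fun _ => h3⟩
    · have h3 : (x, y) ∉ tchT F b c a e := by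
        unfold cfg at h1
        exact of_decide_eq_false h1
      rw [hm] at h3
      have h4 : par p ≠ par (x, y) := by
        rcases h2 with ⟨rfl, -⟩ | ⟨rfl, -⟩
        · unfold par; simp only; omega
        · unfold par; simp only; omega
      have h5 := par_cases p
      have h6 := par_cases (x, y)
      by_cases ht : Tch b c a e (x, y)
      · rw [if_pos ht] at h3
        push Not at h3
        exact ⟨fun h7 => absurd (h7.trans h3.symm) h4, fun h7 => absurd ht h7⟩
      · rw [if_neg ht] at h3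
        refine ⟨fun _ => ht, fun _ => ?_⟩
        rcases hc with rfl | rfl <;> omega

theorem cor_near {f p q : ℤ × ℤ} (hp : IsCor f p) (hq : IsCor f q) :
    |p.1 - q.1| ≤ 1 ∧ |p.2 - q.2| ≤ 1 := by
  unfold IsCor at hp hq
  rw [abs_le, abs_le]
  constructor <;> constructor <;> omega

/-- **The event `K` of every side has positive probability.** -/
theorem kev_pos (hP : MPoly P) (hg : Cont P L g) (hn : 2 ≤ n) {a₁ a₂ a₃ X : ℤ} (h12 : a₁ < a₂)
    (h23 : a₂ < a₃) (h3X : a₃ < X) (hX : X ≤ a₁ + (n * L : ℕ)) :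
    0 < pr (rf n P) (kevZ (rf n P) (n * L) (gr n g) a₁ a₂ a₃ X) := by
  classical
  have hn0 : 0 < n := by omega
  have hb := CARf.cont_rf hg hn0
  have hPn := CARf.mpoly_rf hP hn0
  have hZ : CtrZ (rf n P : Set (ℤ × ℤ)) (n * L) (gr n g) :=
    ⟨hb.pos, hb.per, fun r => hPn.ctr hb r⟩
  set F := rf n P with hF
  set b := gr n g with hbd
  set m := n * L with hmd
  have hmpos : (0 : ℤ) < m := by exact_mod_cast hb.pos
  have hev := hZ.even
  set c := par (b X) with hcd
  have hc : c = 0 ∨ c = 1 := par_cases _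
  set ω : Cfg := cfg (tchT F b c a₃ (X - 1)) with hω
  have hne : ∀ x y : ℤ, 0 < y - x → y - x < m → b x ≠ b y := by
    intro x y h1 h2 h3
    obtain ⟨q, hq⟩ := hb.inj _ _ h3.symm
    have hq0 : 0 < q := by
      by_contra h4
      push Not at h4
      nlinarith
    nlinarith
  have key : ω ∈ kevZ F m b a₁ a₂ a₃ X := by
    rw [kevZ_iff hZ h12.le h23.le h3X hX]
    refine ⟨?_, ?_⟩
    · -- the path
      rcases Cont.du (c := c) (i := a₁) (j := a₂) (k := X) (l := X) hPn hb hc h12.le (by omega) le_rfl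
        hX ω with h1 | h1
      · exact CrE_mono le_rfl le_rfl h3X.le le_rfl h1
      · exfalso
        obtain ⟨y, y', g1, g2, g3, g4, g5, g6⟩ := h1
        have p1 : par (b y') = 1 - c := by rw [← g6.par_eq]; exact g5
        have hyX : y ≠ X := by
          rintro rfl
          rw [← hcd] at g5
          omega
        have hyX' : y' ≠ X := by
          rintro rfl
          rw [← hcd] at p1
          omega
        have hyy : b y ≠ b y' := hne y y' (by omega) (by omega)
        rcases ReflTransGen.cases_tail g6 with h2 | ⟨z, -, h2⟩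
        · exact hyy h2.symm
        · obtain ⟨f, hf, c1, c2, c3⟩ := tch_bond hc h2
          have hz : par z = 1 - c := by rw [h2.par_eq]; exact p1
          have ht : Tch b c a₃ (X - 1) f := by
            by_contra h3
            have := c3.mpr h3
            omega
          obtain ⟨q, q1, q2, q3, q4⟩ := ht
          have h3 := cor_near c2 q4
          obtain ⟨r, hr⟩ := gr_chord hg hn0 (a := q) (b := y') (D := 1) (by exact_mod_cast hn) h3.1 h3.2
          have h4 : ¬ (y' - q) % 2 = 0 := by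
            intro h4
            have := (hZ.par_iff (by omega : q ≤ y')).mpr h4
            omega
          rw [show ((n : ℤ) * L) = (m : ℤ) by rw [hmd]; push_cast; ring, abs_le] at hr
          have h6 : y' - q ≤ m - 2 := by omega
          have h7 : 2 ≤ y' - q := by omega
          have h8 : r < 1 := by
            by_contra h8
            push Not at h8
            have : (m : ℤ) ≤ r * m := by nlinarith
            have h9 : r * m ≤ m := by omega
            omega
          have h9 : 0 < r := by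
            by_contra h9
            push Not at h9
            have h10 : r * m ≤ 0 := mul_nonpos_of_nonpos_of_nonneg h9 hmpos.le
            omega
          omega
    · rintro ⟨p, q, g1, g2, g3, g4, g5, g6⟩
      have hpq : b p ≠ b q := hne p q (by omega) (by omega)
      rcases ReflTransGen.cases_tail g6 with h2 | ⟨z, -, h2⟩
      · exact hpq h2.symm
      · obtain ⟨f, hf, c1, c2, c3⟩ := tch_bond hc h2
        have p1 : par (b q) = c := by rw [← g6.par_eq]; exact g5
        have hz : par z = c := by rw [h2.par_eq]; exact p1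
        exact c3.mp hz ⟨q, g3, g4, p1, c2⟩
  unfold pr
  refine div_pos ?_ (by positivity)
  have hcard : 0 < (F.powerset.filter fun T => cfg T ∈ kevZ F m b a₁ a₂ a₃ X).card := by
    rw [Finset.card_pos]
    refine ⟨tchT F b c a₃ (X - 1), ?_⟩
    rw [Finset.mem_filter, Finset.mem_powerset]
    exact ⟨Finset.filter_subset _ _, key⟩
  exact_mod_cast hcard

theorem ctrZ_gr (hP : MPoly P) (hg : Cont P L g) (hn : 0 < n) :
    CtrZ (rf n P : Set (ℤ × ℤ)) (n * L) (gr n g) :=
  ⟨(CARf.cont_rf hg hn).pos, (CARf.cont_rf hg hn).per,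
    fun r => (CARf.mpoly_rf hP hn).ctr (CARf.cont_rf hg hn) r⟩

/-- **The discrete derivative of the crossing probabilities is positive.** -/
theorem Kt_pos' (hP : MPoly P) (hg : Cont P L g) (hn : 2 ≤ n) {i j k l : ℤ} (h12 : i < j) (h23 : j < k)
    (h3 : k < l) (hX : l < i + n * L) : 0 < Kt P g n i j k l := by
  have hX' : l < i + (n * L : ℕ) := by push_cast; exact hX
  rw [Kt_eq (ctrZ_gr hP hg (by omega)) h12.le h23.le h3 hX']
  exact add_pos (kev_pos hP hg hn h12 h23 h3 hX'.le)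
    (kev_pos hP hg hn h12 h23 (by omega) (by omega))

/-- four marks are eventually ordered -/
theorem lk_order4 {t₁ t₂ t₃ t₄ : ℝ} (h12 : t₁ < t₂) (h23 : t₂ < t₃) (h34 : t₃ < t₄)
    (h41 : t₄ < t₁ + L) : ∀ᶠ p : ℕ × ℤ in lk t₄, 2 ≤ p.1 ∧ ix p.1 t₁ < ix p.1 t₂ ∧
      ix p.1 t₂ < ix p.1 t₃ ∧ ix p.1 t₃ < p.2 ∧ p.2 < ix p.1 t₁ + p.1 * L := by
  have hn : Tendsto (fun p : ℕ × ℤ => p.1) (lk t₄) atTop := by
    unfold lk
    exact tendsto_comap.mono_left inf_le_left
  have hk : Tendsto (fun p : ℕ × ℤ => (p.2 : ℝ) / p.1) (lk t₄) (𝓝 t₄) := by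
    unfold lk
    exact tendsto_comap.mono_left inf_le_right
  have h5 : Tendsto (fun n : ℕ => (n : ℝ) * ((t₁ + L - t₄) / 2)) atTop atTop :=
    tendsto_natCast_atTop_atTop.atTop_mul_const (by linarith)
  filter_upwards [hn.eventually (eventually_ge_atTop 2), hn.eventually (ixE_lt h12),
    hn.eventually (ixE_lt h23),
    hk.eventually (lt_mem_nhds (show (t₃ + t₄) / 2 < t₄ by linarith)),
    hk.eventually (gt_mem_nhds (show t₄ < (t₄ + (t₁ + L)) / 2 by linarith)),
    hn.eventually (h5.eventually_ge_atTop 1)] with p p0 p1 p2 p4 p5 p6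
  have hp : (0 : ℝ) < p.1 := by
    have : 0 < p.1 := by omega
    exact_mod_cast this
  refine ⟨p0, p1, p2, ?_, ?_⟩
  · rw [lt_div_iff₀ hp] at p4
    have h6 : (ix p.1 t₃ : ℝ) < p.2 := by
      have := Int.floor_le ((p.1 : ℝ) * t₃)
      unfold ix
      nlinarith
    exact_mod_cast h6
  · rw [div_lt_iff₀ hp] at p5
    have h6 : (p.2 : ℝ) < ix p.1 t₁ + p.1 * L := by
      have := Int.lt_floor_add_one ((p.1 : ℝ) * t₁)
      unfold ix
      nlinarith
    exact_mod_cast h6

/-- **The exact inputs of the block CA for the official environments**, no hypothesis. -/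
theorem exIn (hP : MPoly P) (hg : Cont P L g) : ExIn P L g (uN P L g) (uP P L g) (uX P L g) :=
  exIn_official hP hg fun t₁ t₂ t₃ t₄ h12 h23 h34 h41 _ _ _ _ => by
    filter_upwards [lk_order4 h12 h23 h34 h41] with p hp
    exact Kt_pos' hP hg hp.1 hp.2.1 hp.2.2.1 hp.2.2.2.1 hp.2.2.2.2

/-! ## Partition functions -/

/-- natural environment -/
theorem envN_Z (hP : MPoly P) (hg : Cont P L g) (hn : 0 < n) (b : ℤ) : (envN P L g n b).Z = 1 := by
  have hb := CARf.cont_rf hg hn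
  have hp := (CARf.mpoly_rf hP hn).hasPot
  have hJ := CJ.cenv_jEnv (F := rf n P) hb (j := jN (n * L) b) (jN_per (n * L) b) (csum_jN hb.pos b)
  have hz : ∀ v : ℕ, 1 ≤ v → v < n * L → jN (n * L) b (b + v) = 0 := by
    intro v h3 h4
    rw [CJ.jN_at, if_neg (by omega)]
    rw [add_sub_cancel_left, Nat.abs_cast]
    exact_mod_cast h4
  have h1 := hJ.Z_eq hb hp b
  rw [CJ.ZJ_congr (hb.ctr hp b) (j' := fun _ => 0) hz, CJ.ZJ_zero] at h1
  exact h1

/-- two marks -/
theorem envP_Z_pos (hP : MPoly P) (hg : Cont P L g) (hn : 0 < n) {i i' : ℤ} (h1 : i < i')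
    (h2 : i' < i + n * L) {α : ℝ} (hα : α ∈ Set.Icc (0 : ℝ) 1) : 0 < (envP P L g n α i i').Z := by
  have hb := CARf.cont_rf hg hn
  have hp := (CARf.mpoly_rf hP hn).hasPot
  have h2' : i' < i + (n * L : ℕ) := by push_cast; exact h2
  obtain ⟨v₀, hv⟩ := Int.eq_ofNat_of_zero_le (show 0 ≤ i' - i by omega)
  have hJ := CJ.cenv_jEnv (F := rf n P) hb (j := jP (n * L) α i i') (jP_per (n * L) α i i')
    (csum_jP hb.pos α i i')
  have h3 := hJ.Z_eq hb hp i
  rw [CJ.ZJ_congr (hb.ctr hp i) (CJ.jP_rel h1 h2' α hv.symm)] at h3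
  have h4 : (envP P L g n α i i').Z =
      CJ.ZJ (rf n P) (n * L) (gr n g) i (CJ.dl v₀ (α * (Real.pi / 3))) := h3
  rw [h4]
  exact (CJ.pair_integral (hb.ctr hp i) (v₀ := v₀) (by omega) (by omega)).1 α hα

theorem ZW_one {F : Finset (ℤ × ℤ)} {m : ℕ} {b : ℤ → ℤ × ℤ} {B : ℤ}
    (hc : Ctr (F : Set (ℤ × ℤ)) m (fun k : ℕ => b (B + k))) (J : ℕ → ℝ) :
    TW.ZW F.powerset (fun _ => 1) (fun T => CJ.nm hc (ind T)) (fun _ => J) =
      2 ^ F.card * CJ.ZJ F m b B J := by
  unfold TW.ZW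
  rw [CJ.ZJ_eq_W hc]
  unfold av
  simp only [one_mul]
  field_simp

/-- **The full environment with one side `(k, k + 1)`**, all `α ∈ [0, 1]`. -/
theorem envX_Z_pos (hP : MPoly P) (hg : Cont P L g) (hn : 2 ≤ n) {i j j' l k : ℤ} (h1 : i < j)
    (h2 : j < j') (h3 : j' < l) (h4 : l ≤ k) (h5 : k + 1 ≤ i + n * L) {α : ℝ}
    (hα : α ∈ Set.Icc (0 : ℝ) 1) : 0 < (envX P L g n α i j j' l k).Z := by
  have hn0 : 0 < n := by omega
  have hb := CARf.cont_rf hg hn0
  have hp := (CARf.mpoly_rf hP hn0).hasPot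
  have hZ := ctrZ_gr hP hg hn0
  have hc := hb.ctr hp l
  have h5' : k + 1 ≤ i + (n * L : ℕ) := by push_cast; exact h5
  obtain ⟨κ, hκ⟩ := Int.eq_ofNat_of_zero_le (show 0 ≤ k - l by omega)
  obtain ⟨n₁, hn₁⟩ := Int.eq_ofNat_of_zero_le (show 0 ≤ i + (n * L : ℕ) - l by omega)
  obtain ⟨n₂, hn₂⟩ := Int.eq_ofNat_of_zero_le (show 0 ≤ j + (n * L : ℕ) - l by omega)
  obtain ⟨n₃, hn₃⟩ := Int.eq_ofNat_of_zero_le (show 0 ≤ j' + (n * L : ℕ) - l by omega)
  have x1 := (CJ.envX_eq hb hp h1 h2 h3 h4 h5' α hκ.symm hn₁.symm hn₂.symm hn₃.symm).1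
  have x2 : (envX P L g n α i j j' l k).Z =
      CJ.ZJ (rf n P) (n * L) (gr n g) l (TW.jA κ n₁ n₂ n₃ (n * L) α) := x1
  rw [x2]
  have ho : TW.Ord κ n₁ n₂ n₃ (n * L) (n * L) := ⟨by omega, by omega, by omega, by omega, le_rfl⟩
  have hPK : ∀ (w : ℤ) (u : ℕ), (u : ℤ) = w + (n * L : ℕ) - l → i < w → w < l →
      0 < TW.PK (rf n P).powerset (fun _ => 1) (fun T => CJ.nm hc (ind T)) (fun _ => κ) n₁ u (n * L) := by
    intro w u h6 h7 h8
    rw [← TW.ZW_jK (fun _ _ => ho.h01) (by omega) (by omega) le_rfl, ZW_one hc]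
    rw [CJ.ZJ_jK hZ (a₁ := i) (a₂ := w) (X := k + 1) h7.le h8 (by omega) h5' (by omega) hn₁.symm h6]
    have := kev_pos hP hg hn h7 h8 (show l < k + 1 by omega) h5'
    positivity
  have h6 := TW.ZW_jA_pos (s := (rf n P).powerset) (p := fun _ => 1)
    (μ := fun T => CJ.nm hc (ind T)) (k := fun _ => κ) (fun _ _ => ho) (fun _ _ => zero_le_one)
    (hPK j n₂ hn₂.symm h1 (by omega)) (hPK j' n₃ hn₃.symm (by omega) h3) hα
  rw [ZW_one hc] at h6
  exact (pos_iff_pos_of_mul_pos h6).mp (by positivity)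

/-- both sides at the moving vertex, eventually -/
theorem envX_Z_lk (hP : MPoly P) (hg : Cont P L g) {t₁ t₂ t₂' t₃ t₄ : ℝ}
    (hm : Marks5 L g t₁ t₂ t₂' t₃ t₄) : ∀ᶠ p : ℕ × ℤ in lk t₄, ∀ α ∈ Set.Icc (0 : ℝ) 1,
      0 < (envX P L g p.1 α (ix p.1 t₁) (ix p.1 t₂) (ix p.1 t₂') (ix p.1 t₃) (p.2 - 1)).Z ∧
      0 < (envX P L g p.1 α (ix p.1 t₁) (ix p.1 t₂) (ix p.1 t₂') (ix p.1 t₃) p.2).Z := by
  have hn : Tendsto (fun p : ℕ × ℤ => p.1) (lk t₄) atTop := by
    unfold lk
    exact tendsto_comap.mono_left inf_le_left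
  filter_upwards [lkE_order hm, hn.eventually (eventually_ge_atTop 2)] with p ho h2 α hα
  obtain ⟨-, p1, p2, p3, p4, p5⟩ := ho
  exact ⟨envX_Z_pos hP hg h2 p1 p2 p3 (by omega) (by omega) hα,
    envX_Z_pos hP hg h2 p1 p2 p3 (by omega) (by omega) hα⟩

end

end Pool.Agent.SixB
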