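import Pool.Agent.Lib.SixB.CAEnvOut
import Pool.Agent.Lib.SixB.CAPos
import Pool.Agent.Lib.SixB.CAArmIn
import Pool.Agent.Lib.SixB.CAColIn

/-!
# 6BD block CA: `CAOut` from the statements `EnvLat` about the official environments

All the other inputs (`ExIn`, `ArmIn`, `ColIn`) are proved.
-/

set_option autoImplicit false

namespace Pool.Agent.SixB

/-- the remaining input of block CA -/
def LatOff (P : Finset (ℤ × ℤ)) (L : ℕ) (g : ℤ → ℤ × ℤ) : Prop :=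
  ∃ z0 ∈ Om P, ∃ χ : ℂ → ℝ, Prof χ ∧ ∃ c : ℝ, 0 < c ∧
    EnvLat P L g z0 χ c (uN P L g) (uP P L g) (uX P L g)

theorem caOut_of_envLat
    (h : ∀ (P : Finset (ℤ × ℤ)) (L : ℕ) (g : ℤ → ℤ × ℤ), MPoly P → Cont P L g → LatOff P L g) :
    CAOut :=
  caOut_of_lat
    (fun P L g hP hg => by
      obtain ⟨z0, hz0, χ, hχ, c, hc, E⟩ := h P L g hP hg
      exact ⟨z0, hz0, χ, hχ, c, hc, uN P L g, uP P L g, uX P L g, exIn hP hg, E⟩)
    (fun _ _ _ hP hg _ _ hM => Third.armIn hP hg hM.f1 hM.f3 hM.h1 hM.h2)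
    (fun _ _ _ hP hg => colIn hP hg)

end Pool.Agent.SixB
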