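import Pool.Agent.Lib.SixB.AN3Q

/-! # 6BD block CA, CA-Psi (helper4): derivative along the wall of the limit functions

`h z y` (`y ∈ Y` a parameter, for example the position of the pole `ξ y`) is for every `y` a harmonic function
with Neumann boundary values off the set `X y` of marks, jointly continuous off the marks (`WFam`).
Along a path `γ` which runs with unit speed on the straight walls (`WPath`):
* `WFam.differentiableAt`, `WFam.continuousWithinAt_deriv`, `WFam.continuousOn_deriv`: the derivative exists and is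
  jointly continuous;
* `NHarm.log_ext`: at a mark `b` with a logarithmic pole, `U ∘ fold = c log |z - b| + harmonic`;
* `NHarm.deriv_log`, `NHarm.deriv_ne_zero`: the derivative is `c / x + O(1)` near `b`;
* `WFam.log_uniform`: `h z y = c log |z - b| + O(1)` uniformly for `y` in a compact set;
* `NHarm.const_of_log`: two functions with the same logarithmic poles differ by a constant. -/

set_option autoImplicit false

open Filter Topology Metric Set Complex InnerProductSpace Real MeasureTheory Laplacian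
open scoped ComplexConjugate

namespace Pool.Agent.SixB

variable {Ξ : Type*} [TopologicalSpace Ξ]

/-- the marks stay away from `p` for the parameters near `y0` -/
def MSep (Y : Set Ξ) (X : Ξ → Set ℂ) (p : ℂ) (y0 : Ξ) : Prop :=
  ∃ r : ℝ, 0 < r ∧ ∀ᶠ y in 𝓝[Y] y0, ∀ z ∈ X y, r ≤ ‖z - p‖

/-- near `x0` the path `γ` runs along a straight wall with unit speed -/
def WPath (P : Finset (ℤ × ℤ)) (γ : ℝ → ℂ) (x0 : ℝ) : Prop :=
  ∃ ν τ : ℂ, Wall P (γ x0) ν ∧ (τ = I * ν ∨ τ = -(I * ν)) ∧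
    ∀ᶠ x in 𝓝 x0, γ x = γ x0 + ((x - x0 : ℝ) : ℂ) * τ

/-- a jointly continuous family of harmonic functions with Neumann boundary values off the marks -/
structure WFam (P : Finset (ℤ × ℤ)) (Y : Set Ξ) (X : Ξ → Set ℂ) (h : ℂ → Ξ → ℝ) : Prop where
  nh : ∀ y ∈ Y, NHarm P (X y) (fun z => h z y)
  jc : ContinuousOn (fun q : ℂ × Ξ => h q.1 q.2) {q | q.1 ∈ Cl P ∧ q.2 ∈ Y ∧ q.1 ∉ X q.2}

/-- separation for a set of marks consisting of fixed marks and one moving mark -/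
theorem msep_insert {Y : Set Ξ} {F : Set ℂ} (hF : F.Finite) {ξ : Ξ → ℂ} {p : ℂ} {y0 : Ξ}
    (hpF : p ∉ F) (hξ : ContinuousWithinAt ξ Y y0) (hp : ξ y0 ≠ p) :
    MSep Y (fun y => insert (ξ y) F) p y0 := by
  have h1 : 0 < ‖ξ y0 - p‖ := norm_pos_iff.2 (sub_ne_zero.2 hp)
  obtain ⟨r, hr, hrF⟩ : ∃ r : ℝ, 0 < r ∧ ∀ z ∈ F, r ≤ ‖z - p‖ := by
    have h2 : Fᶜ ∈ 𝓝 p := hF.isClosed.isOpen_compl.mem_nhds hpF
    obtain ⟨r, hr, hb⟩ := Metric.mem_nhds_iff.1 h2
    refine ⟨r, hr, fun z hz => ?_⟩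
    by_contra hcon
    exact hb (show z ∈ ball p r by rw [mem_ball, dist_eq_norm]; exact not_le.1 hcon) hz
  refine ⟨min r (‖ξ y0 - p‖ / 2), lt_min hr (by positivity), ?_⟩
  have h3 : Tendsto (fun y => ‖ξ y - p‖) (𝓝[Y] y0) (𝓝 ‖ξ y0 - p‖) :=
    (hξ.sub continuousWithinAt_const).norm
  filter_upwards [h3.eventually (lt_mem_nhds (show ‖ξ y0 - p‖ / 2 < ‖ξ y0 - p‖ by linarith))] with y hy
  intro z hz
  rcases mem_insert_iff.1 hz with rfl | hz
  · exact (min_le_right _ _).trans hy.le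
  · exact (min_le_left _ _).trans (hrF z hz)

private theorem norm_tau {ν τ : ℂ} (hν : IsDir ν) (hτ : τ = I * ν ∨ τ = -(I * ν)) : ‖τ‖ = 1 := by
  rcases hτ with h | h <;> rw [h] <;> simp [norm_of_isDir hν]

private theorem sp_tau {ν τ : ℂ} (hτ : τ = I * ν ∨ τ = -(I * ν)) : sp τ ν = 0 := by
  rcases hτ with h | h
  · rw [h, sp_mul_I_self]
  · have h1 : -(I * ν) = ((-1 : ℝ) : ℂ) * (I * ν) := by push_cast; ring
    rw [h, h1, sp_ofReal_mul, sp_mul_I_self, mul_zero]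

/-- local form of the derivative along the wall -/
theorem WFam.local_deriv {P : Finset (ℤ × ℤ)} {Y : Set Ξ} {X : Ξ → Set ℂ} {h : ℂ → Ξ → ℝ}
    (hF : WFam P Y X h) {γ : ℝ → ℂ} {x0 : ℝ} {y0 : Ξ} (hy0 : y0 ∈ Y) (hp : WPath P γ x0)
    (hs : MSep Y X (γ x0) y0) :
    ∃ D : ℝ × Ξ → ℝ, ContinuousWithinAt D (univ ×ˢ Y) (x0, y0) ∧
      ∀ᶠ q in 𝓝[univ ×ˢ Y] (x0, y0), HasDerivAt (fun x => h (γ x) q.2) (D q) q.1 := by
  obtain ⟨ν, τ, hw, hτ, hγ⟩ := hp
  obtain ⟨r1, hr1, hf1⟩ := hw.exists_flat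
  obtain ⟨r2, hr2, hs2⟩ := hs
  set p := γ x0 with hpdef
  set r := min r1 r2 with hr
  have hr0 : 0 < r := lt_min hr1 hr2
  have hf : Flat P p ν r := hf1.mono (min_le_left _ _)
  have hν : ‖ν‖ = 1 := norm_of_isDir hf.1
  set S : Set Ξ := {y | y ∈ Y ∧ ∀ z ∈ X y, r ≤ ‖z - p‖} with hS
  have hSn : ∀ᶠ y in 𝓝[Y] y0, y ∈ S := by
    filter_upwards [hs2, self_mem_nhdsWithin] with y hy hyY
    exact ⟨hyY, fun z hz => (min_le_right _ _).trans (hy z hz)⟩
  have hy0S : y0 ∈ S := hSn.self_of_nhdsWithin hy0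
  set V : Ξ → ℂ → ℝ := fun y z => h (foldAt p ν z) y with hV
  have hVh : ∀ y ∈ S, HarmonicOnNhd (V y) (ball p r) := by
    intro y hy
    exact (hF.nh y hy.1).wall_ext hf hy.2
  have hVc : ContinuousOn (fun q : Ξ × ℂ => V q.1 q.2) (S ×ˢ ball p r) := by
    have h1 : ContinuousOn (fun q : Ξ × ℂ => (foldAt p ν q.2, q.1)) (S ×ˢ ball p r) := by
      refine Continuous.continuousOn ?_
      exact ((continuous_foldAt p ν).comp continuous_snd).prodMk continuous_fst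
    refine hF.jc.comp h1 ?_
    rintro ⟨y, z⟩ ⟨hy, hz⟩
    have hz1 : ‖z - p‖ < r := by
      have := hz
      rw [mem_ball, dist_eq_norm] at this
      exact this
    refine ⟨hf.fold_mem hz1, hy.1, fun hX => ?_⟩
    have h2 := hy.2 _ hX
    rw [norm_foldAt_sub hν] at h2
    exact absurd h2 (not_le.2 hz1)
  have hDc := fderiv_jointly_continuous isOpen_ball hVh hVc
  -- eventually near `x0`
  have hcont : ContinuousAt (fun x : ℝ => p + ((x - x0 : ℝ) : ℂ) * τ) x0 := by fun_prop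
  have hγc : ContinuousAt γ x0 := by
    refine hcont.congr ?_
    filter_upwards [hγ] with x hx
    rw [hx]
  have hγb : ∀ᶠ x in 𝓝 x0, γ x ∈ ball p r := hγc.eventually (ball_mem_nhds p hr0)
  have hγ2 : ∀ᶠ x in 𝓝 x0, ∀ᶠ x' in 𝓝 x, γ x' = p + ((x' - x0 : ℝ) : ℂ) * τ :=
    eventually_eventually_nhds.2 hγ
  refine ⟨fun q => fderiv ℝ (V q.2) (γ q.1) τ, ?_, ?_⟩
  · have h1 : ContinuousWithinAt (fun q : Ξ × ℂ => fderiv ℝ (V q.1) q.2) (S ×ˢ ball p r) (y0, p) :=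
      hDc (y0, p) ⟨hy0S, mem_ball_self hr0⟩
    have h2 : Tendsto (fun q : ℝ × Ξ => (q.2, γ q.1)) (𝓝[univ ×ˢ Y] (x0, y0))
        (𝓝[S ×ˢ ball p r] (y0, p)) := by
      rw [nhdsWithin_prod_eq, nhdsWithin_prod_eq, nhdsWithin_univ]
      refine Filter.Tendsto.prodMk ?_ ?_
      · have h3 : Tendsto (fun q : ℝ × Ξ => q.2) (𝓝 x0 ×ˢ 𝓝[Y] y0) (𝓝[Y] y0) := tendsto_snd
        refine tendsto_nhdsWithin_iff.2 ⟨h3.mono_right nhdsWithin_le_nhds, ?_⟩
        exact h3.eventually hSn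
      · have h3 : Tendsto (fun q : ℝ × Ξ => q.1) (𝓝 x0 ×ˢ 𝓝[Y] y0) (𝓝 x0) := tendsto_fst
        have h4 : Tendsto (fun q : ℝ × Ξ => γ q.1) (𝓝 x0 ×ˢ 𝓝[Y] y0) (𝓝 p) := hγc.tendsto.comp h3
        exact tendsto_nhdsWithin_iff.2 ⟨h4, h3.eventually hγb⟩
    have h3 : Tendsto (fun q : ℝ × Ξ => fderiv ℝ (V q.2) (γ q.1)) (𝓝[univ ×ˢ Y] (x0, y0))
        (𝓝 (fderiv ℝ (V y0) p)) := h1.tendsto.comp h2
    have h4 : Tendsto (fun q : ℝ × Ξ => fderiv ℝ (V q.2) (γ q.1) τ) (𝓝[univ ×ˢ Y] (x0, y0))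
        (𝓝 (fderiv ℝ (V y0) p τ)) := by
      have h5 : Continuous fun L : ℂ →L[ℝ] ℝ => L τ := by fun_prop
      exact (h5.tendsto _).comp h3
    exact h4
  · rw [nhdsWithin_prod_eq, nhdsWithin_univ]
    filter_upwards [(hγb.and hγ2).prod_mk hSn] with q hq
    obtain ⟨⟨hq1, hq2⟩, hq3⟩ := hq
    have hd : DifferentiableAt ℝ (V q.2) (γ q.1) :=
      (hVh q.2 hq3 _ hq1).1.differentiableAt (by norm_num)
    have hq4 : γ q.1 = p + ((q.1 - x0 : ℝ) : ℂ) * τ := hq2.self_of_nhds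
    have h1 : HasDerivAt (fun x : ℝ => p + ((x - x0 : ℝ) : ℂ) * τ) τ q.1 := by
      have h2 : HasDerivAt (fun x : ℝ => ((x - x0 : ℝ) : ℂ)) 1 q.1 := by
        have h3 : HasDerivAt (fun x : ℝ => x - x0) 1 q.1 := (hasDerivAt_id q.1).sub_const x0
        exact h3.ofReal_comp
      have h4 := (h2.mul_const τ).const_add p
      simpa using h4
    have h5 : HasDerivAt (fun x : ℝ => V q.2 (p + ((x - x0 : ℝ) : ℂ) * τ))
        (fderiv ℝ (V q.2) (γ q.1) τ) q.1 := by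
      have h6 : HasFDerivAt (V q.2) (fderiv ℝ (V q.2) (γ q.1)) (p + ((q.1 - x0 : ℝ) : ℂ) * τ) := by
        rw [← hq4]; exact hd.hasFDerivAt
      exact h6.comp_hasDerivAt q.1 h1
    refine h5.congr_of_eventuallyEq ?_
    filter_upwards [hq2] with x hx
    rw [hx]
    simp only [hV]
    rw [foldAt_of_zero]
    rw [add_sub_cancel_left, sp_ofReal_mul, sp_tau hτ, mul_zero]

/-- the function is differentiable along the wall -/
theorem WFam.differentiableAt {P : Finset (ℤ × ℤ)} {Y : Set Ξ} {X : Ξ → Set ℂ} {h : ℂ → Ξ → ℝ}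
    (hF : WFam P Y X h) {γ : ℝ → ℂ} {x0 : ℝ} {y0 : Ξ} (hy0 : y0 ∈ Y) (hp : WPath P γ x0)
    (hs : MSep Y X (γ x0) y0) : DifferentiableAt ℝ (fun x => h (γ x) y0) x0 := by
  obtain ⟨D, -, h1⟩ := hF.local_deriv hy0 hp hs
  have h2 := h1.self_of_nhdsWithin (show (x0, y0) ∈ (univ : Set ℝ) ×ˢ Y from ⟨mem_univ _, hy0⟩)
  exact h2.differentiableAt

/-- the derivative along the wall is jointly continuous -/
theorem WFam.continuousWithinAt_deriv {P : Finset (ℤ × ℤ)} {Y : Set Ξ} {X : Ξ → Set ℂ}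
    {h : ℂ → Ξ → ℝ} (hF : WFam P Y X h) {γ : ℝ → ℂ} {x0 : ℝ} {y0 : Ξ} (hy0 : y0 ∈ Y)
    (hp : WPath P γ x0) (hs : MSep Y X (γ x0) y0) :
    ContinuousWithinAt (fun q : ℝ × Ξ => deriv (fun x => h (γ x) q.2) q.1) (univ ×ˢ Y) (x0, y0) := by
  obtain ⟨D, h1, h2⟩ := hF.local_deriv hy0 hp hs
  refine h1.congr_of_eventuallyEq ?_ ?_
  · filter_upwards [h2] with q hq
    exact hq.deriv
  · exact (h2.self_of_nhdsWithin
      (show (x0, y0) ∈ (univ : Set ℝ) ×ˢ Y from ⟨mem_univ _, hy0⟩)).deriv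

/-- the derivative along the wall is jointly continuous -/
theorem WFam.continuousOn_deriv {P : Finset (ℤ × ℤ)} {Y : Set Ξ} {X : Ξ → Set ℂ}
    {h : ℂ → Ξ → ℝ} (hF : WFam P Y X h) {γ : ℝ → ℂ} {T : Set ℝ} (hp : ∀ x ∈ T, WPath P γ x)
    (hs : ∀ x ∈ T, ∀ y ∈ Y, MSep Y X (γ x) y) :
    ContinuousOn (fun q : ℝ × Ξ => deriv (fun x => h (γ x) q.2) q.1) (T ×ˢ Y) := by
  rintro ⟨x, y⟩ ⟨hx, hy⟩
  exact (hF.continuousWithinAt_deriv hy (hp x hx) (hs x hx y hy)).mono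
    (prod_mono_left (subset_univ _))

/-- the derivative along the wall exists -/
theorem WFam.hasDerivAt {P : Finset (ℤ × ℤ)} {Y : Set Ξ} {X : Ξ → Set ℂ}
    {h : ℂ → Ξ → ℝ} (hF : WFam P Y X h) {γ : ℝ → ℂ} {x : ℝ} {y : Ξ} (hy : y ∈ Y) (hp : WPath P γ x)
    (hs : MSep Y X (γ x) y) :
    HasDerivAt (fun x => h (γ x) y) (deriv (fun x => h (γ x) y) x) x :=
  (hF.differentiableAt hy hp hs).hasDerivAt

/-- continuity along the wall -/
theorem WFam.continuousOn_left {P : Finset (ℤ × ℤ)} {Y : Set Ξ} {X : Ξ → Set ℂ}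
    {h : ℂ → Ξ → ℝ} (hF : WFam P Y X h) {γ : ℝ → ℂ} {T : Set ℝ} {y : Ξ} (hy : y ∈ Y)
    (hp : ∀ x ∈ T, WPath P γ x) (hs : ∀ x ∈ T, MSep Y X (γ x) y) :
    ContinuousOn (fun x => h (γ x) y) T := fun x hx =>
  (hF.differentiableAt hy (hp x hx) (hs x hx)).continuousAt.continuousWithinAt

/-- continuity in the parameter -/
theorem WFam.continuousOn_right {P : Finset (ℤ × ℤ)} {Y : Set Ξ} {X : Ξ → Set ℂ}
    {h : ℂ → Ξ → ℝ} (hF : WFam P Y X h) {z : ℂ} (hz : z ∈ Cl P) (hX : ∀ y ∈ Y, z ∉ X y) :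
    ContinuousOn (fun y => h z y) Y := by
  have h1 : ContinuousOn (fun y : Ξ => (z, y)) Y := (Continuous.prodMk_right z).continuousOn
  exact hF.jc.comp h1 fun y hy => ⟨hz, hy, hX y hy⟩

/-! ### the behaviour at a logarithmic pole -/

private theorem harmonicAt_log_norm_sub {b z : ℂ} (hz : z ≠ b) :
    HarmonicAt (fun x : ℂ => Real.log ‖x - b‖) z :=
  AnalyticAt.harmonicAt_log_norm (f := fun x : ℂ => x - b) (by fun_prop) (sub_ne_zero.2 hz)

/-- **Expansion at a logarithmic pole.** -/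
theorem NHarm.log_ext {P : Finset (ℤ × ℤ)} {X : Set ℂ} {U : ℂ → ℝ} {b ν : ℂ} {r c : ℝ}
    (h : NHarm P X U) (hr : 0 < r) (hf : Flat P b ν r) (hX : ∀ z ∈ X, z ≠ b → r ≤ ‖z - b‖)
    (hlog : LogAt P U b c) :
    ∃ g : ℂ → ℝ, HarmonicOnNhd g (ball b r) ∧
      ∀ z ∈ ball b r, z ≠ b → U (foldAt b ν z) = c * Real.log ‖z - b‖ + g z := by
  have hν : ‖ν‖ = 1 := norm_of_isDir hf.1
  obtain ⟨ρ, hρ, C, hC⟩ := hlog
  set G : ℂ → ℝ := fun z => U (foldAt b ν z) - c * Real.log ‖z - b‖ with hG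
  have hGh : HarmonicOnNhd G (ball b r \ {b}) := by
    intro z hz
    have h1 : HarmonicAt (fun z : ℂ => c * Real.log ‖z - b‖) z :=
      (harmonicAt_log_norm_sub hz.2).const_smul (c := c)
    exact (h.wall_ext_punctured hf hX z hz).sub h1
  have hGb : ∀ z : ℂ, z ≠ b → ‖z - b‖ < min r ρ → |G z| ≤ C := by
    intro z hzb hz
    have h1 : ‖z - b‖ < r := hz.trans_le (min_le_left _ _)
    have h2 : ‖z - b‖ < ρ := hz.trans_le (min_le_right _ _)
    have h3 : foldAt b ν z ≠ b := by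
      intro h4
      have h5 := norm_foldAt_sub (p := b) hν z
      rw [h4, sub_self, norm_zero] at h5
      exact hzb (sub_eq_zero.1 (norm_eq_zero.1 h5.symm))
    have h4 := hC _ (hf.fold_mem h1) h3 (by rw [norm_foldAt_sub hν]; exact h2)
    rw [norm_foldAt_sub hν] at h4
    exact h4
  have hm : 0 < min r ρ := lt_min hr hρ
  have hnear : ∀ᶠ z in 𝓝[≠] b, z ≠ b ∧ ‖z - b‖ < min r ρ := by
    have h1 : ∀ᶠ z in 𝓝[≠] b, z ∈ ball b (min r ρ) := nhdsWithin_le_nhds (ball_mem_nhds b hm)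
    filter_upwards [h1, self_mem_nhdsWithin] with z hz hzb
    rw [mem_ball, dist_eq_norm] at hz
    exact ⟨hzb, hz⟩
  have hn0 : Tendsto (fun z : ℂ => ‖z - b‖) (𝓝[≠] b) (𝓝 0) := by
    have h1 : Tendsto (fun z : ℂ => ‖z - b‖) (𝓝 b) (𝓝 ‖b - b‖) :=
      (continuous_id.sub continuous_const).norm.tendsto b
    rw [sub_self, norm_zero] at h1
    exact h1.mono_left nhdsWithin_le_nhds
  obtain ⟨d, V, hV, hVG⟩ := bocher hr hGh (by
    rw [tendsto_zero_iff_abs_tendsto_zero]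
    have h1 : Tendsto (fun z : ℂ => ‖z - b‖ * C) (𝓝[≠] b) (𝓝 (0 * C)) := hn0.mul_const C
    rw [zero_mul] at h1
    refine squeeze_zero' (Eventually.of_forall fun z => abs_nonneg _) ?_ h1
    filter_upwards [hnear] with z hz
    simp only [Function.comp_apply]
    rw [abs_mul, abs_of_nonneg (norm_nonneg _)]
    exact mul_le_mul_of_nonneg_left (hGb z hz.1 hz.2) (norm_nonneg _))
  have hd : d = 0 := by
    by_contra hd
    have hlogt : Tendsto (fun z : ℂ => |Real.log ‖z - b‖|) (𝓝[≠] b) atTop := by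
      have h1 : Tendsto (fun z : ℂ => ‖z - b‖) (𝓝[≠] b) (𝓝[>] 0) := by
        refine tendsto_nhdsWithin_iff.2 ⟨hn0, ?_⟩
        filter_upwards [self_mem_nhdsWithin] with z hz
        exact norm_pos_iff.2 (sub_ne_zero.2 hz)
      exact tendsto_abs_atBot_atTop.comp (Real.tendsto_log_nhdsGT_zero.comp h1)
    have hVc : ContinuousAt V b := (hV b (mem_ball_self hr)).1.continuousAt
    have hVb : ∀ᶠ z in 𝓝[≠] b, |V z| ≤ |V b| + 1 := by
      have h1 : ∀ᶠ z in 𝓝 b, |V z| < |V b| + 1 :=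
        hVc.abs.eventually (gt_mem_nhds (by linarith))
      exact nhdsWithin_le_nhds (h1.mono fun z hz => hz.le)
    have h1 := hlogt.eventually (eventually_gt_atTop ((C + (|V b| + 1)) / |d|))
    have h2 : ∀ᶠ z in 𝓝[≠] b, z ∈ ball b r := nhdsWithin_le_nhds (ball_mem_nhds b hr)
    obtain ⟨z, hz1, hz2, hz3, hz4, hz5⟩ := (h1.and (hVb.and (hnear.and
      (h2.and self_mem_nhdsWithin)))).exists
    have hz6 : z ≠ b := hz5
    have h3 := hVG z hz4 hz6
    have h4 := hGb z hz3.1 hz3.2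
    have hdp : 0 < |d| := abs_pos.2 hd
    have h5 : |d| * |Real.log ‖z - b‖| ≤ C + (|V b| + 1) := by
      rw [← abs_mul]
      have h6 : d * Real.log ‖z - b‖ = G z - V z := by rw [h3]; ring
      rw [h6]
      exact (abs_sub _ _).trans (add_le_add h4 hz2)
    rw [div_lt_iff₀ hdp] at hz1
    linarith [mul_comm |d| |Real.log ‖z - b‖|]
  refine ⟨V, hV, fun z hz hzb => ?_⟩
  have h1 := hVG z hz hzb
  rw [hd, zero_mul, zero_add] at h1
  rw [← h1, hG]
  ring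

/-- **The derivative along the wall near a logarithmic pole** is `c / x + O(1)`. -/
theorem NHarm.deriv_log {P : Finset (ℤ × ℤ)} {X : Set ℂ} {U : ℂ → ℝ} {γ : ℝ → ℂ} {x1 c : ℝ}
    (h : NHarm P X U) (hp : WPath P γ x1)
    (hX : ∃ r : ℝ, 0 < r ∧ ∀ z ∈ X, z ≠ γ x1 → r ≤ ‖z - γ x1‖) (hlog : LogAt P U (γ x1) c) :
    ∃ η : ℝ, 0 < η ∧ ∃ C : ℝ, ∀ x : ℝ, x ≠ x1 → |x - x1| < η →
      |deriv (fun x => U (γ x)) x - c / (x - x1)| ≤ C := by
  obtain ⟨ν, τ, hw, hτ, hγ⟩ := hp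
  obtain ⟨r1, hr1, hf1⟩ := hw.exists_flat
  obtain ⟨r2, hr2, hX2⟩ := hX
  set b := γ x1 with hb
  set r := min r1 r2 with hr
  have hr0 : 0 < r := lt_min hr1 hr2
  have hf : Flat P b ν r := hf1.mono (min_le_left _ _)
  have hν : ‖ν‖ = 1 := norm_of_isDir hf.1
  have hnτ : ‖τ‖ = 1 := norm_tau hf.1 hτ
  obtain ⟨g, hg, hgU⟩ := h.log_ext hr0 hf
    (fun z hz hzb => (min_le_right _ _).trans (hX2 z hz hzb)) hlog
  -- bound of the gradient of `g`
  have hgc : ContinuousOn g (closedBall b (r / 2)) := fun z hz =>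
    ((hg z (closedBall_subset_ball (by linarith) hz)).1.continuousAt).continuousWithinAt
  obtain ⟨M, hM⟩ := (isCompact_closedBall b (r / 2)).exists_bound_of_continuousOn hgc
  have hgr : ∀ z ∈ ball b (r / 4), ‖fderiv ℝ g z‖ ≤ 64 * M / r := by
    intro z hz
    have hsub : ball z (r / 4) ⊆ closedBall b (r / 2) := by
      intro y hy
      rw [mem_ball] at hy hz
      rw [mem_closedBall]
      have := dist_triangle y z b
      linarith
    have h1 := norm_fderiv_le_of_harmonic (h := g) (c := z) (R := r / 4) (M := M) (by positivity)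
      (hg.mono (hsub.trans (closedBall_subset_ball (by linarith)))) (fun y hy => by
        have := hM y (hsub hy)
        rwa [Real.norm_eq_abs] at this)
    calc ‖fderiv ℝ g z‖ ≤ 16 * M / (r / 4) := h1
      _ = 64 * M / r := by field_simp; ring
  obtain ⟨δ, hδ, hδγ⟩ := Metric.eventually_nhds_iff.1 hγ
  refine ⟨min δ (r / 4), lt_min hδ (by positivity), 64 * M / r, fun x hx hxη => ?_⟩
  have hxδ : |x - x1| < δ := hxη.trans_le (min_le_left _ _)
  have hxr : |x - x1| < r / 4 := hxη.trans_le (min_le_right _ _)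
  have hdist : ∀ y : ℝ, |y - x1| < δ → γ y = b + ((y - x1 : ℝ) : ℂ) * τ := fun y hy =>
    hδγ (by rw [Real.dist_eq]; exact hy)
  have hnorm : ∀ y : ℝ, ‖(b + ((y - x1 : ℝ) : ℂ) * τ) - b‖ = |y - x1| := by
    intro y
    rw [add_sub_cancel_left, norm_mul, hnτ, mul_one, Complex.norm_real, Real.norm_eq_abs]
  have habs : Continuous fun y : ℝ => |y - x1| := by fun_prop
  -- the function near `x`
  have hfun : (fun y => U (γ y)) =ᶠ[𝓝 x] fun y => c * Real.log (y - x1) +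
      g (b + ((y - x1 : ℝ) : ℂ) * τ) := by
    have e1 : ∀ᶠ y in 𝓝 x, |y - x1| < δ := habs.continuousAt.eventually (gt_mem_nhds hxδ)
    have e2 : ∀ᶠ y in 𝓝 x, |y - x1| < r / 4 := habs.continuousAt.eventually (gt_mem_nhds hxr)
    have e3 : ∀ᶠ y in 𝓝 x, y ≠ x1 := isOpen_ne.mem_nhds hx
    filter_upwards [e1, e2, e3] with y hy1 hy2 hy3
    have h1 : (b + ((y - x1 : ℝ) : ℂ) * τ) ∈ ball b r := by
      rw [mem_ball, dist_eq_norm, hnorm]; linarith
    have h2 : (b + ((y - x1 : ℝ) : ℂ) * τ) ≠ b := by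
      intro h3
      have h4 := hnorm y
      rw [h3, sub_self, norm_zero] at h4
      exact hy3 (sub_eq_zero.1 (abs_eq_zero.1 h4.symm))
    have h3 := hgU _ h1 h2
    rw [foldAt_of_zero (by rw [add_sub_cancel_left, sp_ofReal_mul, sp_tau hτ, mul_zero]),
      hnorm, Real.log_abs] at h3
    rw [hdist y hy1, h3]
  have hxb : (b + ((x - x1 : ℝ) : ℂ) * τ) ∈ ball b (r / 4) := by
    rw [mem_ball, dist_eq_norm, hnorm]; exact hxr
  have hgd : HasFDerivAt g (fderiv ℝ g (b + ((x - x1 : ℝ) : ℂ) * τ))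
      (b + ((x - x1 : ℝ) : ℂ) * τ) :=
    ((hg _ (ball_subset_ball (by linarith) hxb)).1.differentiableAt (by norm_num)).hasFDerivAt
  have h1 : HasDerivAt (fun y : ℝ => b + ((y - x1 : ℝ) : ℂ) * τ) τ x := by
    have h2 : HasDerivAt (fun y : ℝ => ((y - x1 : ℝ) : ℂ)) 1 x := by
      have h3 : HasDerivAt (fun y : ℝ => y - x1) 1 x := (hasDerivAt_id x).sub_const x1
      exact h3.ofReal_comp
    have h4 := (h2.mul_const τ).const_add b
    simpa using h4
  have h5 := hgd.comp_hasDerivAt x h1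
  have h6 : HasDerivAt (fun y : ℝ => Real.log (y - x1)) (1 / (x - x1)) x := by
    have h3 : HasDerivAt (fun y : ℝ => y - x1) 1 x := (hasDerivAt_id x).sub_const x1
    exact h3.log (sub_ne_zero.2 hx)
  have h7 := ((h6.const_mul c).add h5).congr_of_eventuallyEq hfun
  rw [h7.deriv]
  have h8 : c * (1 / (x - x1)) + fderiv ℝ g (b + ((x - x1 : ℝ) : ℂ) * τ) τ - c / (x - x1) =
      fderiv ℝ g (b + ((x - x1 : ℝ) : ℂ) * τ) τ := by ring
  rw [h8]
  have h9 := (fderiv ℝ g (b + ((x - x1 : ℝ) : ℂ) * τ)).le_opNorm τ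
  rw [hnτ, mul_one, Real.norm_eq_abs] at h9
  exact h9.trans (hgr _ hxb)

/-- the derivative along the wall does not vanish near a logarithmic pole -/
theorem NHarm.deriv_ne_zero {P : Finset (ℤ × ℤ)} {X : Set ℂ} {U : ℂ → ℝ} {γ : ℝ → ℂ} {x1 c : ℝ}
    (h : NHarm P X U) (hp : WPath P γ x1)
    (hX : ∃ r : ℝ, 0 < r ∧ ∀ z ∈ X, z ≠ γ x1 → r ≤ ‖z - γ x1‖) (hlog : LogAt P U (γ x1) c)
    (hc : c ≠ 0) :
    ∃ η : ℝ, 0 < η ∧ ∀ x : ℝ, x ≠ x1 → |x - x1| < η → deriv (fun x => U (γ x)) x ≠ 0 := by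
  obtain ⟨η, hη, C, hC⟩ := h.deriv_log hp hX hlog
  have hcp : 0 < |c| := abs_pos.2 hc
  refine ⟨min η (|c| / (|C| + 1)), lt_min hη (by positivity), fun x hx hxη h0 => ?_⟩
  have h1 := hC x hx (hxη.trans_le (min_le_left _ _))
  rw [h0, zero_sub, abs_neg, abs_div] at h1
  have hxp : 0 < |x - x1| := abs_pos.2 (sub_ne_zero.2 hx)
  have h2 : |x - x1| < |c| / (|C| + 1) := hxη.trans_le (min_le_right _ _)
  rw [lt_div_iff₀ (by positivity)] at h2
  rw [div_le_iff₀ hxp] at h1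
  have h3 : C * |x - x1| ≤ |C| * |x - x1| := by gcongr; exact le_abs_self C
  nlinarith

/-- **Uniform expansion** for the parameters in a compact set. -/
theorem WFam.log_uniform {P : Finset (ℤ × ℤ)} {Y : Set Ξ} {X : Ξ → Set ℂ} {h : ℂ → Ξ → ℝ}
    (hF : WFam P Y X h) {K : Set Ξ} (hK : IsCompact K) (hKY : K ⊆ Y) {b ν : ℂ} {r c : ℝ}
    (hr : 0 < r) (hf : Flat P b ν r) (hX : ∀ y ∈ K, ∀ z ∈ X y, z ≠ b → r ≤ ‖z - b‖)
    (hlog : ∀ y ∈ K, LogAt P (fun z => h z y) b c) :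
    ∃ B : ℝ, ∀ y ∈ K, ∀ z ∈ Cl P, z ≠ b → ‖z - b‖ ≤ r / 2 →
      |h z y - c * Real.log ‖z - b‖| ≤ B := by
  have hν : ‖ν‖ = 1 := norm_of_isDir hf.1
  set Q : Set ℂ := sphere b (r / 2) ∩ {z | 0 ≤ sp (z - b) ν} with hQ
  have hspc : Continuous fun z : ℂ => sp (z - b) ν := by unfold sp; fun_prop
  have hQc : IsCompact Q := (isCompact_sphere b (r / 2)).inter_right
    (isClosed_le continuous_const hspc)
  have hQn : ∀ z ∈ Q, ‖z - b‖ = r / 2 := by
    intro z hz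
    have := hz.1
    rwa [mem_sphere, dist_eq_norm] at this
  have hjc : ContinuousOn (fun q : ℂ × Ξ => h q.1 q.2) (Q ×ˢ K) := by
    refine hF.jc.mono ?_
    rintro ⟨z, y⟩ ⟨hz, hy⟩
    have h1 := hQn z hz
    refine ⟨(hf.2 z (by rw [h1]; linarith)).2 hz.2, hKY hy, fun hX' => ?_⟩
    have h2 : z ≠ b := by
      intro h3
      rw [h3, sub_self, norm_zero] at h1
      linarith
    have h3 := hX y hy z hX' h2
    rw [h1] at h3
    linarith
  obtain ⟨M, hM⟩ := (hQc.prod hK).exists_bound_of_continuousOn hjc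
  refine ⟨M + |c * Real.log (r / 2)|, fun y hy z hz hzb hzr => ?_⟩
  obtain ⟨g, hg, hgU⟩ := (hF.nh y (hKY hy)).log_ext hr hf (hX y hy) (hlog y hy)
  have hsph : ∀ w ∈ sphere b (r / 2), |g w| ≤ M + |c * Real.log (r / 2)| := by
    intro w hw
    have h1 : ‖w - b‖ = r / 2 := by rwa [mem_sphere, dist_eq_norm] at hw
    have hwb : w ≠ b := by
      intro h3
      rw [h3, sub_self, norm_zero] at h1
      linarith
    have h2 := hgU w (by rw [mem_ball, dist_eq_norm, h1]; linarith) hwb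
    rw [h1] at h2
    have h3 : foldAt b ν w ∈ Q := by
      refine ⟨?_, ?_⟩
      · rw [mem_sphere, dist_eq_norm, norm_foldAt_sub hν, h1]
      · show 0 ≤ sp (foldAt b ν w - b) ν
        rw [sp_foldAt hν]; exact abs_nonneg _
    have h4 := hM (foldAt b ν w, y) ⟨h3, hy⟩
    rw [Real.norm_eq_abs] at h4
    have h5 : g w = h (foldAt b ν w) y - c * Real.log (r / 2) := by rw [h2]; ring
    rw [h5]
    exact (abs_sub _ _).trans (add_le_add h4 le_rfl)
  have hmax : ∀ σ : ℝ, (σ = 1 ∨ σ = -1) → ∀ w ∈ closedBall b (r / 2),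
      σ * g w ≤ M + |c * Real.log (r / 2)| := by
    intro σ hσ
    have hσa : |σ| = 1 := by rcases hσ with h | h <;> rw [h] <;> norm_num
    have hgc : ContinuousOn (fun w => σ * g w) (closedBall b (r / 2)) := fun w hw =>
      (((hg w (closedBall_subset_ball (by linarith) hw)).1.continuousAt).const_mul
        σ).continuousWithinAt
    refine max_principle (isCompact_closedBall b (r / 2)) hgc (B := sphere b (r / 2)) ?_ ?_
    · intro w _ hw
      refine (le_abs_self _).trans ?_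
      rw [abs_mul, hσa, one_mul]
      exact hsph w hw
    · intro w hw hws
      have h1 : dist w b < r / 2 := by
        rcases (mem_closedBall.1 hw).lt_or_eq with h | h
        · exact h
        · exact absurd (mem_sphere.2 h) hws
      refine ⟨(r / 2 - dist w b) / 2, by linarith, fun x hx => ?_, fun x hx => ?_⟩
      · rw [mem_closedBall] at hx ⊢
        have := dist_triangle x w b
        linarith
      · rw [mem_closedBall] at hx
        have := dist_triangle x w b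
        exact (hg x (by rw [mem_ball]; linarith)).const_smul (c := σ)
  have hzm : z ∈ closedBall b (r / 2) := by rw [mem_closedBall, dist_eq_norm]; exact hzr
  have h1 := hmax 1 (Or.inl rfl) z hzm
  have h2 := hmax (-1) (Or.inr rfl) z hzm
  have hzr' : ‖z - b‖ < r := by linarith
  have h3 := hgU z (by rw [mem_ball, dist_eq_norm]; exact hzr') hzb
  rw [hf.ext_eq (U := fun z => h z y) hzr' hz] at h3
  have h4 : h z y - c * Real.log ‖z - b‖ = g z := by
    rw [h3]; ring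
  rw [h4, abs_le]
  constructor <;> linarith

/-! ### algebra and uniqueness -/

theorem NHarm.mono {P : Finset (ℤ × ℤ)} {X X' : Set ℂ} {U : ℂ → ℝ} (h : NHarm P X U)
    (hX : X ⊆ X') : NHarm P X' U :=
  ⟨h.harm, h.cont.mono (Set.sdiff_subset_sdiff_right hX), fun p ν hp => h.neu p ν fun hpX => hp (hX hpX)⟩

theorem NHarm.add {P : Finset (ℤ × ℤ)} {X : Set ℂ} {U V : ℂ → ℝ} (h : NHarm P X U)
    (h' : NHarm P X V) : NHarm P X (fun z => U z + V z) := by
  have h1 := h.sub h'.neg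
  simpa using h1

theorem LogAt.add {P : Finset (ℤ × ℤ)} {U V : ℂ → ℝ} {x : ℂ} {c d : ℝ} (h : LogAt P U x c)
    (h' : LogAt P V x d) : LogAt P (fun z => U z + V z) x (c + d) := by
  obtain ⟨r, hr, C, hC⟩ := h
  obtain ⟨r', hr', C', hC'⟩ := h'
  refine ⟨min r r', lt_min hr hr', C + C', fun z hz hzx hzr => ?_⟩
  have h1 := hC z hz hzx (hzr.trans_le (min_le_left _ _))
  have h2 := hC' z hz hzx (hzr.trans_le (min_le_right _ _))
  have e : U z + V z - (c + d) * Real.log ‖z - x‖ =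
      (U z - c * Real.log ‖z - x‖) + (V z - d * Real.log ‖z - x‖) := by ring
  rw [e]
  exact (abs_add_le _ _).trans (add_le_add h1 h2)

theorem LogAt.sub {P : Finset (ℤ × ℤ)} {U V : ℂ → ℝ} {x : ℂ} {c d : ℝ} (h : LogAt P U x c)
    (h' : LogAt P V x d) : LogAt P (fun z => U z - V z) x (c - d) := by
  have h1 := h.add h'.neg
  simpa [sub_eq_add_neg] using h1

theorem LogAt.congr {P : Finset (ℤ × ℤ)} {U V : ℂ → ℝ} {x : ℂ} {c : ℝ} (h : LogAt P U x c)
    {r : ℝ} (hr : 0 < r) (hUV : ∀ z ∈ Cl P, z ≠ x → ‖z - x‖ < r → V z = U z) : LogAt P V x c := by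
  obtain ⟨r', hr', C, hC⟩ := h
  refine ⟨min r r', lt_min hr hr', C, fun z hz hzx hzr => ?_⟩
  rw [hUV z hz hzx (hzr.trans_le (min_le_left _ _))]
  exact hC z hz hzx (hzr.trans_le (min_le_right _ _))

/-- the coefficient is `0` at a point of continuity -/
theorem NHarm.logAt_zero {P : Finset (ℤ × ℤ)} {X : Set ℂ} {U : ℂ → ℝ} (h : NHarm P X U)
    (hX : X.Finite) {x : ℂ} (hx : x ∈ Cl P) (hxX : x ∉ X) : LogAt P U x 0 := by
  have h1 : ContinuousWithinAt U (Cl P \ X) x := h.cont x ⟨hx, hxX⟩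
  have h2 : Xᶜ ∈ 𝓝 x := hX.isClosed.isOpen_compl.mem_nhds hxX
  have h3 : ∀ᶠ z in 𝓝[Cl P \ X] x, |U z| < |U x| + 1 :=
    h1.abs.eventually (gt_mem_nhds (by linarith))
  obtain ⟨r, hr, hr2⟩ := Metric.mem_nhdsWithin_iff.1 h3
  obtain ⟨s, hs, hs2⟩ := Metric.mem_nhds_iff.1 h2
  refine ⟨min r s, lt_min hr hs, |U x| + 1, fun z hz _ hzr => ?_⟩
  rw [zero_mul, sub_zero]
  have h4 : z ∉ X := hs2 (show z ∈ ball x s by
    rw [mem_ball, dist_eq_norm]; exact hzr.trans_le (min_le_right _ _))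
  have h5 : z ∈ ball x r ∩ (Cl P \ X) :=
    ⟨by rw [mem_ball, dist_eq_norm]; exact hzr.trans_le (min_le_left _ _), hz, h4⟩
  exact (show |U z| < |U x| + 1 from hr2 h5).le

private theorem bdd_above_of_local {P : Finset (ℤ × ℤ)} {X : Set ℂ} {U : ℂ → ℝ}
    (hXO : ∀ z ∈ X, z ∉ Om P) (hU : ContinuousOn U (Cl P \ X))
    (hloc : ∀ b ∈ X, ∃ r : ℝ, 0 < r ∧ ∃ C : ℝ, ∀ z ∈ Om P, ‖z - b‖ < r → U z ≤ C) :
    ∃ B : ℝ, ∀ z ∈ Om P, U z ≤ B := by
  have key : ∃ B : ℝ, ∀ z ∈ Cl P ∩ Om P, U z ≤ B := by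
    refine (isCompact_Cl P).induction_on (p := fun s => ∃ B : ℝ, ∀ z ∈ s ∩ Om P, U z ≤ B)
      ⟨0, fun z hz => absurd hz.1 (notMem_empty z)⟩ ?_ ?_ ?_
    · rintro s t hst ⟨B, hB⟩
      exact ⟨B, fun z hz => hB z ⟨hst hz.1, hz.2⟩⟩
    · rintro s t ⟨B, hB⟩ ⟨B', hB'⟩
      refine ⟨max B B', fun z hz => ?_⟩
      rcases hz.1 with h | h
      · exact (hB z ⟨h, hz.2⟩).trans (le_max_left _ _)
      · exact (hB' z ⟨h, hz.2⟩).trans (le_max_right _ _)
    · intro x hx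
      by_cases hxX : x ∈ X
      · obtain ⟨r, hr, C, hC⟩ := hloc x hxX
        refine ⟨ball x r, mem_nhdsWithin_of_mem_nhds (ball_mem_nhds x hr), C, fun z hz => ?_⟩
        have := hz.1
        rw [mem_ball, dist_eq_norm] at this
        exact hC z hz.2 this
      · have h1 : ContinuousWithinAt U (Cl P \ X) x := hU x ⟨hx, hxX⟩
        have h3 : ∀ᶠ z in 𝓝[Cl P \ X] x, U z < U x + 1 :=
          h1.eventually (gt_mem_nhds (by linarith))
        obtain ⟨r, hr, hr2⟩ := Metric.mem_nhdsWithin_iff.1 h3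
        refine ⟨ball x r, mem_nhdsWithin_of_mem_nhds (ball_mem_nhds x hr), U x + 1, fun z hz => ?_⟩
        have h5 : z ∈ ball x r ∩ (Cl P \ X) :=
          ⟨hz.1, interior_subset hz.2, fun hzX => hXO z hzX hz.2⟩
        exact (show U z < U x + 1 from hr2 h5).le
  obtain ⟨B, hB⟩ := key
  exact ⟨B, fun z hz => hB z ⟨interior_subset hz, hz⟩⟩

/-- **Uniqueness**: a Neumann function with a logarithmic pole at one point `x` of the finite set `X` of
marks, and bounded at the other marks, is constant. -/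
theorem NHarm.const_of_log {P : Finset (ℤ × ℤ)} (hP : MPoly P) {X : Set ℂ} (hX : X.Finite)
    (hXO : ∀ z ∈ X, z ∉ Om P) {U : ℂ → ℝ} (hU : NHarm P X U) {x : ℂ} {c : ℝ}
    (hx : LogAt P U x c) (hb : ∀ b ∈ X, b ≠ x → LogAt P U b 0) :
    ∃ a : ℝ, ∀ z ∈ Cl P \ X, U z = a := by
  have main : ∀ V : ℂ → ℝ, NHarm P X V → ∀ d : ℝ, 0 ≤ d → LogAt P V x d →
      (∀ b ∈ X, b ≠ x → LogAt P V b 0) → ∃ a : ℝ, ∀ z ∈ Cl P \ X, V z = a := by
    intro V hV d hd hVx hVb
    obtain ⟨B, hB⟩ := bdd_above_of_local hXO hV.cont (fun b hbX => by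
      by_cases hbx : b = x
      · obtain ⟨r, hr, C, hC⟩ := hVx
        refine ⟨min r 1, lt_min hr one_pos, C, fun z hz hzr => ?_⟩
        have hzb : z ≠ x := fun h => hXO b hbX (by rw [hbx, ← h]; exact hz)
        rw [hbx] at hzr
        have h1 := (abs_le.1 (hC z (interior_subset hz) hzb (hzr.trans_le (min_le_left _ _)))).2
        have h2 : Real.log ‖z - x‖ ≤ 0 :=
          Real.log_nonpos (norm_nonneg _) (hzr.le.trans (min_le_right _ _))
        have h3 : d * Real.log ‖z - x‖ ≤ 0 := mul_nonpos_of_nonneg_of_nonpos hd h2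
        linarith
      · obtain ⟨r, hr, C, hC⟩ := hVb b hbX hbx
        refine ⟨r, hr, C, fun z hz hzr => ?_⟩
        have hzb : z ≠ b := fun h => hXO b hbX (by rw [← h]; exact hz)
        have h1 := (abs_le.1 (hC z (interior_subset hz) hzb hzr)).2
        rw [zero_mul, sub_zero] at h1
        exact h1)
    exact nharm_const_of_le hP hX hV hB
  rcases le_total 0 c with hc | hc
  · exact main U hU c hc hx hb
  · obtain ⟨a, ha⟩ := main (fun z => -U z) hU.neg (-c) (neg_nonneg.2 hc) hx.neg (fun b hbX hbx => by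
      have := (hb b hbX hbx).neg
      rwa [neg_zero] at this)
    exact ⟨-a, fun z hz => by linarith [ha z hz]⟩

end Pool.Agent.SixB
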