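import Pool.Agent.Lib.SixB.CAGeo
import Pool.Agent.Lib.SixB.S6Psi

/-!
# 6BD block CA: flat points of the boundary curve are `WPath` points
-/

set_option autoImplicit false

namespace Pool.Agent.SixB

open Filter Topology

theorem wpath_gam {P : Finset (ℤ × ℤ)} {L : ℕ} {g : ℤ → ℤ × ℤ} (h : Cont P L g) {t : ℝ}
    (ht : Fl g t) : WPath P (gam g) t := by
  obtain ⟨ν, hν, δ, hδ, h1⟩ := CARf.wall_tau h ht
  refine ⟨ν, -(Complex.I * ν), hν, Or.inr rfl, ?_⟩
  filter_upwards [Metric.ball_mem_nhds t hδ] with x hx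
  rw [Metric.mem_ball, Real.dist_eq] at hx
  rw [h1 x hx]
  ring

end Pool.Agent.SixB
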