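import Pool.Agent.Lib.SixB.CARatio

/-!
# 6BD block CA: the limit kernel along an ultrafilter

`HU u z0 uN s s' z = lim_u (uN(ix n s) - uN(ix n s'))` normalised at `z0`, and its properties (the fields of
the structure `NK` of the analysis of the kernel): `nharm`, `anti`, `coc`, `sym`, `growth`, `jcont`.
`log_ratio_tendsto`: the logarithm of the ratio of the discrete derivatives along a moving side.
-/

set_option autoImplicit false

namespace Pool.Agent.SixB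

open Filter Topology
open DC (AE)

noncomputable section

theorem NHarm.congr {P : Finset (ℤ × ℤ)} {X : Set ℂ} {U V : ℂ → ℝ} (hX : IsClosed X)
    (hXO : ∀ z ∈ X, z ∉ Om P) (h : NHarm P X U) (he : ∀ z ∈ Cl P, z ∉ X → V z = U z) : NHarm P X V := by
  refine ⟨?_, ?_, ?_⟩
  · intro z hz
    refine (InnerProductSpace.harmonicAt_congr_nhds ?_).2 (h.harm z hz)
    filter_upwards [(isOpen_Om P).mem_nhds hz] with w hw
    exact he w (Om_subset_Cl P hw) fun hh => hXO w hh hw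
  · exact h.cont.congr fun z hz => he z hz.1 hz.2
  · intro p ν hp hpw ε hε
    obtain ⟨δ, hδ, h1⟩ := h.neu p ν hp hpw ε hε
    obtain ⟨r, hr, hr2⟩ := hpw.step
    obtain ⟨s, hs, hs2⟩ := Metric.isOpen_iff.1 hX.isOpen_compl p hp
    refine ⟨min δ (min r (s / 2)), by positivity, ?_⟩
    intro q hq hqp t ht htδ
    have hq1 : ‖q - p‖ < δ := lt_of_lt_of_le hqp (min_le_left _ _)
    have hq2 : ‖q - p‖ < r := lt_of_lt_of_le hqp (le_trans (min_le_right _ _) (min_le_left _ _))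
    have hq3 : ‖q - p‖ < s / 2 := lt_of_lt_of_le hqp (le_trans (min_le_right _ _) (min_le_right _ _))
    have ht1 : t < δ := lt_of_lt_of_le htδ (min_le_left _ _)
    have ht2 : t < r := lt_of_lt_of_le htδ (le_trans (min_le_right _ _) (min_le_left _ _))
    have ht3 : t < s / 2 := lt_of_lt_of_le htδ (le_trans (min_le_right _ _) (min_le_right _ _))
    have hqC : q ∈ Cl P := hq.mem
    have hnt : ‖((t : ℂ) * ν)‖ = t := by
      rw [norm_mul, hpw.1.norm_eq, Complex.norm_real, mul_one, Real.norm_eq_abs, abs_of_pos ht]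
    have hqt : ‖(q + t * ν) - p‖ < s := by
      have h1 : (q + t * ν) - p = (q - p) + t * ν := by ring
      have h2 := norm_add_le (q - p) (t * ν)
      rw [hnt] at h2
      rw [h1]
      linarith
    have hqX : q ∉ X := hs2 (by rw [Metric.mem_ball, dist_eq_norm]; linarith)
    have hqtX : (q + t * ν) ∉ X := hs2 (by rw [Metric.mem_ball, dist_eq_norm]; exact hqt)
    have hqtC : (q + t * ν) ∈ Cl P := hr2 q hqC hq2 t ht ht2
    rw [he _ hqtC hqtX, he _ hqC hqX]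
    exact h1 q hq hq1 t ht ht1

/-- the difference of two natural functions at scale `n`, normalised -/
def dN (z0 : ℂ) (uN : ℕ → ℤ → ℤ × ℤ → ℝ) (s s' : ℝ) (n : ℕ) (z : ℂ) : ℝ :=
  nz n z0 (fun v => uN n (ix n s) v - uN n (ix n s') v) z

/-- the limit kernel -/
def HU (u : Ultrafilter ℕ) (z0 : ℂ) (uN : ℕ → ℤ → ℤ × ℤ → ℝ) (s s' : ℝ) (z : ℂ) : ℝ :=
  limUnder (u : Filter ℕ) (fun n => dN z0 uN s s' n z)

variable {P : Finset (ℤ × ℤ)} {L : ℕ} {g : ℤ → ℤ × ℤ} {z0 : ℂ}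
  {uN : ℕ → ℤ → ℤ × ℤ → ℝ} {uP : ℕ → ℝ → ℤ → ℤ → ℤ × ℤ → ℝ}
  {uX : ℕ → ℝ → ℤ → ℤ → ℤ → ℤ → ℤ → ℤ × ℤ → ℝ} {u : Ultrafilter ℕ}

theorem ix_shift (n : ℕ) (t : ℝ) (m : ℤ) : ix n (t + m * L) = ix n t + m * (n * L) := by
  unfold ix
  rw [show (n : ℝ) * (t + m * L) = n * t + ((m * (n * L) : ℤ) : ℝ) by push_cast; ring]
  rw [Int.floor_add_intCast]

theorem uN_shift (hex : ∀ (n : ℕ) (b : ℤ) (v : ℤ × ℤ), uN n (b + n * L) v = uN n b v) (n : ℕ) (b m : ℤ)
    (v : ℤ × ℤ) : uN n (b + m * (n * L)) v = uN n b v := by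
  induction m using Int.induction_on with
  | zero => simp
  | succ k ih =>
    rw [show b + ((k : ℤ) + 1) * (n * L) = (b + k * (n * L)) + n * L by ring, hex, ih]
  | pred k ih =>
    have h := hex n (b + (-(k : ℤ) - 1) * (n * L)) v
    rw [← h, show b + (-(k : ℤ) - 1) * (n * L) + n * L = b + -(k : ℤ) * (n * L) by ring, ih]

/-- equal marks give the same function -/
theorem dN_of_eq (hG : GeoIn P L g) (hex : ∀ (n : ℕ) (b : ℤ) (v : ℤ × ℤ), uN n (b + n * L) v = uN n b v)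
    {s s' : ℝ} (h : gam g s = gam g s') (n : ℕ) (z : ℂ) : dN z0 uN s s' n z = 0 := by
  obtain ⟨m, hm⟩ := hG.inj s s' h
  have h1 : s = s' + m * L := by linarith
  have h2 : ∀ v, uN n (ix n s) v = uN n (ix n s') v := by
    intro v
    rw [h1, ix_shift, uN_shift hex]
  simp [dN, nz, h2]

theorem limit_exists (hN : NatIn P g z0 uN) (hG : GeoIn P L g) (hu : (u : Filter ℕ) ≤ atTop)
    {s s' : ℝ} (hs : Fl g s) (hs' : Fl g s') (hss : gam g s ≠ gam g s') :
    ∃ U : ℂ → ℝ, NHarm P {gam g s, gam g s'} U ∧ ∀ z ∈ Cl P ∩ {gam g s, gam g s'}ᶜ,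
      Tendsto (fun n => dN z0 uN s s' n z) u (𝓝 (U z)) := by
  have hfin : ({gam g s, gam g s'} : Set ℂ).Finite := by simp
  refine ((hN.ah s s' hs hs' hss).mono hu).limit hfin.isClosed ?_
  intro z hz
  simp only [Set.mem_insert_iff, Set.mem_singleton_iff] at hz
  rcases hz with rfl | rfl <;> exact hG.notMem _

/-- convergence to the kernel -/
theorem HU_tendsto (hN : NatIn P g z0 uN) (hG : GeoIn P L g)
    (hex : ∀ (n : ℕ) (b : ℤ) (v : ℤ × ℤ), uN n (b + n * L) v = uN n b v) (hu : (u : Filter ℕ) ≤ atTop)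
    {s s' : ℝ} (hs : Fl g s) (hs' : Fl g s') {z : ℂ} (hz : z ∈ Cl P) (h1 : z ≠ gam g s)
    (h2 : z ≠ gam g s') :
    Tendsto (fun n => dN z0 uN s s' n z) u (𝓝 (HU u z0 uN s s' z)) := by
  apply tendsto_nhds_limUnder
  by_cases hss : gam g s = gam g s'
  · refine ⟨0, ?_⟩
    simp only [dN_of_eq hG hex hss]
    exact tendsto_const_nhds
  · obtain ⟨U, -, hU⟩ := limit_exists hN hG hu hs hs' hss
    exact ⟨U z, hU z ⟨hz, by simp [h1, h2]⟩⟩

theorem HU_nharm (hN : NatIn P g z0 uN) (hG : GeoIn P L g)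
    (hex : ∀ (n : ℕ) (b : ℤ) (v : ℤ × ℤ), uN n (b + n * L) v = uN n b v) (hu : (u : Filter ℕ) ≤ atTop)
    {s s' : ℝ} (hs : Fl g s) (hs' : Fl g s') (hss : gam g s ≠ gam g s') :
    NHarm P {gam g s, gam g s'} (HU u z0 uN s s') := by
  obtain ⟨U, hU, hU2⟩ := limit_exists hN hG hu hs hs' hss
  have hfin : ({gam g s, gam g s'} : Set ℂ).Finite := by simp
  refine hU.congr hfin.isClosed ?_ ?_
  · intro z hz
    simp only [Set.mem_insert_iff, Set.mem_singleton_iff] at hz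
    rcases hz with rfl | rfl <;> exact hG.notMem _
  · intro z hz hzX
    have hz1 : z ≠ gam g s := fun hh => hzX (by simp [hh])
    have hz2 : z ≠ gam g s' := fun hh => hzX (by simp [hh])
    exact tendsto_nhds_unique (HU_tendsto hN hG hex hu hs hs' hz hz1 hz2) (hU2 z ⟨hz, hzX⟩)

theorem HU_anti (hN : NatIn P g z0 uN) (hG : GeoIn P L g)
    (hex : ∀ (n : ℕ) (b : ℤ) (v : ℤ × ℤ), uN n (b + n * L) v = uN n b v) (hu : (u : Filter ℕ) ≤ atTop)
    {s s' : ℝ} (hs : Fl g s) (hs' : Fl g s') {z : ℂ} (hz : z ∈ Cl P) (h1 : z ≠ gam g s)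
    (h2 : z ≠ gam g s') : HU u z0 uN s s' z = - HU u z0 uN s' s z := by
  refine tendsto_nhds_unique (HU_tendsto hN hG hex hu hs hs' hz h1 h2) ?_
  refine (HU_tendsto hN hG hex hu hs' hs hz h2 h1).neg.congr fun n => ?_
  simp only [dN, nz]; ring

theorem HU_coc (hN : NatIn P g z0 uN) (hG : GeoIn P L g)
    (hex : ∀ (n : ℕ) (b : ℤ) (v : ℤ × ℤ), uN n (b + n * L) v = uN n b v) (hu : (u : Filter ℕ) ≤ atTop)
    {s s' s'' : ℝ} (hs : Fl g s) (hs' : Fl g s') (hs'' : Fl g s'') {z : ℂ} (hz : z ∈ Cl P)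
    (h1 : z ≠ gam g s) (h2 : z ≠ gam g s') (h3 : z ≠ gam g s'') :
    HU u z0 uN s s' z + HU u z0 uN s' s'' z = HU u z0 uN s s'' z := by
  refine tendsto_nhds_unique ((HU_tendsto hN hG hex hu hs hs' hz h1 h2).add
    (HU_tendsto hN hG hex hu hs' hs'' hz h2 h3)) ?_
  refine (HU_tendsto hN hG hex hu hs hs'' hz h1 h3).congr fun n => ?_
  simp only [dN, nz]; ring

theorem HU_per (hex : ∀ (n : ℕ) (b : ℤ) (v : ℤ × ℤ), uN n (b + n * L) v = uN n b v)
    (s s' : ℝ) (z : ℂ) : HU u z0 uN (s + L) s' z = HU u z0 uN s s' z := by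
  unfold HU
  congr 1
  funext n
  have h : ix n (s + L) = ix n s + (1 : ℤ) * (n * L) := by
    have := ix_shift (L := L) n s 1
    simpa using this
  simp only [dN, nz, h, uN_shift hex]

theorem HU_per' (hex : ∀ (n : ℕ) (b : ℤ) (v : ℤ × ℤ), uN n (b + n * L) v = uN n b v)
    (s s' : ℝ) (z : ℂ) : HU u z0 uN s (s' + L) z = HU u z0 uN s s' z := by
  unfold HU
  congr 1
  funext n
  have h : ix n (s' + L) = ix n s' + (1 : ℤ) * (n * L) := by
    have := ix_shift (L := L) n s' 1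
    simpa using this
  simp only [dN, nz, h, uN_shift hex]

/-- values at the lattice points next to a boundary point -/
theorem dN_lattice (hN : NatIn P g z0 uN) (hG : GeoIn P L g)
    (hex : ∀ (n : ℕ) (b : ℤ) (v : ℤ × ℤ), uN n (b + n * L) v = uN n b v) (hu : (u : Filter ℕ) ≤ atTop)
    {s s' t : ℝ} (hs : Fl g s) (hs' : Fl g s') (h1 : gam g t ≠ gam g s) (h2 : gam g t ≠ gam g s') :
    Tendsto (fun n : ℕ => (uN n (ix n s) (gr n g (ix n t)) - uN n (ix n s') (gr n g (ix n t))) -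
      (uN n (ix n s) (fl n z0) - uN n (ix n s') (fl n z0))) u (𝓝 (HU u z0 uN s s' (gam g t))) := by
  have hlim := HU_tendsto hN hG hex hu hs hs' (hG.mem t) h1 h2
  have hmv : Tendsto (fun n : ℕ => dN z0 uN s s' n (gam g ((ix n t : ℝ) / n)) - dN z0 uN s s' n (gam g t))
      u (𝓝 0) := by
    by_cases hss : gam g s = gam g s'
    · simp only [dN_of_eq hG hex hss, sub_zero]
      exact tendsto_const_nhds
    · have hfin : ({gam g s, gam g s'} : Set ℂ).Finite := by simp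
      refine ae_seq' (isClosed_Cl P) hfin.isClosed.isOpen_compl
        (((hN.ah s s' hs hs' hss).mono hu).ae) ⟨hG.mem t, by simp [h1, h2]⟩
        (Eventually.of_forall fun n => hG.mem _) ?_
      exact ((hG.cont.tendsto t).comp (ix_div t)).mono_left hu
  have h3 := hmv.add hlim
  rw [zero_add] at h3
  refine h3.congr' ?_
  filter_upwards [hu (eventually_gt_atTop 0)] with n hn
  simp only [dN, nz, hG.flgr n _ hn]
  ring

theorem HU_sym (hN : NatIn P g z0 uN) (hG : GeoIn P L g)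
    (hex : ∀ (n : ℕ) (b : ℤ) (v : ℤ × ℤ), uN n (b + n * L) v = uN n b v)
    (hsy : ∀ (n : ℕ) (j k : ℤ), uN n j (gr n g k) = uN n k (gr n g j)) (hu : (u : Filter ℕ) ≤ atTop)
    {s s' t t' : ℝ} (hs : Fl g s) (hs' : Fl g s') (ht : Fl g t) (ht' : Fl g t')
    (h1 : gam g t ≠ gam g s) (h2 : gam g t ≠ gam g s') (h3 : gam g t' ≠ gam g s)
    (h4 : gam g t' ≠ gam g s') :
    HU u z0 uN s s' (gam g t) - HU u z0 uN s s' (gam g t') =
      HU u z0 uN t t' (gam g s) - HU u z0 uN t t' (gam g s') := by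
  refine tendsto_nhds_unique ((dN_lattice hN hG hex hu hs hs' h1 h2).sub
    (dN_lattice hN hG hex hu hs hs' h3 h4)) ?_
  refine ((dN_lattice hN hG hex hu ht ht' h1.symm h3.symm).sub
    (dN_lattice hN hG hex hu ht ht' h2.symm h4.symm)).congr fun n => ?_
  rw [hsy n (ix n t) (ix n s), hsy n (ix n t') (ix n s), hsy n (ix n t) (ix n s'),
    hsy n (ix n t') (ix n s')]
  ring

theorem HU_growth (hN : NatIn P g z0 uN) (hG : GeoIn P L g)
    (hex : ∀ (n : ℕ) (b : ℤ) (v : ℤ × ℤ), uN n (b + n * L) v = uN n b v) (hu : (u : Filter ℕ) ≤ atTop)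
    {s s' : ℝ} (hs : Fl g s) (hs' : Fl g s') (hss : gam g s ≠ gam g s') :
    ∃ C : ℝ, ∀ z ∈ Cl P, z ≠ gam g s → z ≠ gam g s' → |HU u z0 uN s s' z| ≤
      C + C * |Real.log ‖z - gam g s‖| + C * |Real.log ‖z - gam g s'‖| := by
  obtain ⟨C, hC⟩ := hN.growth s s' hs hs' hss
  exact ⟨C, fun z hz h1 h2 => le_of_tendsto (HU_tendsto hN hG hex hu hs hs' hz h1 h2).abs
    (hu (hC z hz h1 h2))⟩

/-- small change of the mark -/
theorem HU_mark (hN : NatIn P g z0 uN) (hG : GeoIn P L g)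
    (hex : ∀ (n : ℕ) (b : ℤ) (v : ℤ × ℤ), uN n (b + n * L) v = uN n b v) (hu : (u : Filter ℕ) ≤ atTop)
    (hz0 : z0 ∈ Om P) {s : ℝ} (hs : Fl g s) {K : Set ℂ} (hK : K ⊆ Cl P \ {gam g s}) (hKc : IsCompact K)
    {ε : ℝ} (hε : 0 < ε) : ∃ δ : ℝ, 0 < δ ∧ ∀ s₂ s' : ℝ, Fl g s₂ → Fl g s' → |s₂ - s| < δ →
      ∀ z ∈ K, z ≠ gam g s₂ → z ≠ gam g s' →
        |HU u z0 uN s₂ s' z - HU u z0 uN s s' z| ≤ ε := by
  have hz0C : z0 ∈ Cl P := Om_subset_Cl P hz0
  have hz0s : ∀ t : ℝ, z0 ≠ gam g t := fun t hh => hG.notMem t (hh ▸ hz0)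
  obtain ⟨δ, hδ, h1⟩ := hN.mark s hs (insert z0 K) (by
    intro z hz
    rcases hz with rfl | hz
    · exact ⟨hz0C, hz0s s⟩
    · exact hK hz) (hKc.insert z0) ε hε
  refine ⟨δ / 2, by positivity, ?_⟩
  intro s₂ s' hs₂ hs' hd z hz hz2 hz3
  have hzC : z ∈ Cl P := (hK hz).1
  have hzs : z ≠ gam g s := (hK hz).2
  have h2 := (HU_tendsto hN hG hex hu hs₂ hs' hzC hz2 hz3).sub
    (HU_tendsto hN hG hex hu hs hs' hzC hzs hz3)
  refine le_of_tendsto h2.abs ?_
  have h3 : ∀ᶠ n : ℕ in atTop, |((ix n s₂ : ℤ) : ℝ) / n - s₂| < δ / 2 := by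
    have := (ix_div s₂).eventually (Metric.ball_mem_nhds s₂ (show 0 < δ / 2 by positivity))
    filter_upwards [this] with n hn
    rwa [Real.dist_eq] at hn
  filter_upwards [hu h1, hu h3] with n h1 h3
  have h4 := h1 (ix n s₂) (by
    have := abs_add_le (((ix n s₂ : ℤ) : ℝ) / n - s₂) (s₂ - s)
    rw [sub_add_sub_cancel] at this
    linarith) z (Or.inr hz) z0 (Or.inl rfl)
  have e : dN z0 uN s₂ s' n z - dN z0 uN s s' n z =
      (uN n (ix n s₂) (fl n z) - uN n (ix n s) (fl n z)) -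
        (uN n (ix n s₂) (fl n z0) - uN n (ix n s) (fl n z0)) := by
    simp only [dN, nz]; ring
  rw [e]
  exact h4

/-- joint continuity in the mark and the point -/
theorem HU_jcont (hN : NatIn P g z0 uN) (hG : GeoIn P L g)
    (hex : ∀ (n : ℕ) (b : ℤ) (v : ℤ × ℤ), uN n (b + n * L) v = uN n b v) (hu : (u : Filter ℕ) ≤ atTop)
    (hz0 : z0 ∈ Om P) {s' : ℝ} (hs' : Fl g s') :
    ContinuousOn (fun p : ℝ × ℂ => HU u z0 uN p.1 s' p.2)
      {p | Fl g p.1 ∧ p.2 ∈ Cl P ∧ p.2 ≠ gam g p.1 ∧ p.2 ≠ gam g s'} := by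
  rw [Metric.continuousOn_iff]
  rintro ⟨s, z⟩ ⟨hs, hz, hzs, hzs'⟩ ε hε
  simp only at hs hz hzs hzs'
  -- continuity in the point
  have hc : ∃ δ₁ : ℝ, 0 < δ₁ ∧ ∀ w ∈ Cl P, w ≠ gam g s → w ≠ gam g s' → dist w z < δ₁ →
      |HU u z0 uN s s' w - HU u z0 uN s s' z| < ε / 2 := by
    by_cases hss : gam g s = gam g s'
    · refine ⟨1, one_pos, fun w hw hw1 hw2 _ => ?_⟩
      have hzero : ∀ w ∈ Cl P, w ≠ gam g s → w ≠ gam g s' → HU u z0 uN s s' w = 0 := by
        intro w hw hw1 hw2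
        refine tendsto_nhds_unique (HU_tendsto hN hG hex hu hs hs' hw hw1 hw2) ?_
        simp only [dN_of_eq hG hex hss]
        exact tendsto_const_nhds
      rw [hzero w hw hw1 hw2, hzero z hz hzs hzs']
      simp only [sub_zero, abs_zero]
      positivity
    · have h1 := (HU_nharm hN hG hex hu hs hs' hss).cont
      rw [Metric.continuousOn_iff] at h1
      obtain ⟨δ, hδ, h2⟩ := h1 z ⟨hz, by simp [hzs, hzs']⟩ (ε / 2) (by positivity)
      refine ⟨δ, hδ, fun w hw hw1 hw2 hwz => ?_⟩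
      rw [← Real.dist_eq]
      exact h2 w ⟨hw, by simp [hw1, hw2]⟩ hwz
  obtain ⟨δ₁, hδ₁, h1⟩ := hc
  -- a compact neighbourhood
  have hρ : 0 < dist z (gam g s) := dist_pos.2 hzs
  set K : Set ℂ := Cl P ∩ Metric.closedBall z (dist z (gam g s) / 2) with hK
  have hKc : IsCompact K := (isCompact_Cl P).inter_right Metric.isClosed_closedBall
  have hKs : K ⊆ Cl P \ {gam g s} := by
    intro w hw
    refine ⟨hw.1, fun hh => ?_⟩
    have h2 := hw.2
    rw [(hh : w = gam g s), Metric.mem_closedBall, dist_comm] at h2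
    linarith
  obtain ⟨δ₂, hδ₂, h2⟩ := HU_mark hN hG hex hu hz0 hs hKs hKc (ε := ε / 4) (by positivity)
  refine ⟨min δ₁ (min δ₂ (dist z (gam g s) / 2)), by positivity, ?_⟩
  rintro ⟨s₂, w⟩ ⟨hs₂, hw, hws₂, hws'⟩ hd
  simp only at hs₂ hw hws₂ hws'
  rw [Prod.dist_eq, max_lt_iff] at hd
  simp only at hd
  have hd1 : dist w z < δ₁ := lt_of_lt_of_le hd.2 (min_le_left _ _)
  have hd2 : dist s₂ s < δ₂ := lt_of_lt_of_le hd.1 (le_trans (min_le_right _ _) (min_le_left _ _))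
  have hd3 : dist w z < dist z (gam g s) / 2 :=
    lt_of_lt_of_le hd.2 (le_trans (min_le_right _ _) (min_le_right _ _))
  have hwK : w ∈ K := ⟨hw, by rw [Metric.mem_closedBall]; exact hd3.le⟩
  have hws : w ≠ gam g s := (hKs hwK).2
  have h3 := h2 s₂ s' hs₂ hs' (by rw [← Real.dist_eq]; exact hd2) w hwK hws₂ hws'
  have h4 := h1 w hw hws hws' hd1
  rw [Real.dist_eq]
  have h5 : HU u z0 uN s₂ s' w - HU u z0 uN s s' z =
      (HU u z0 uN s₂ s' w - HU u z0 uN s s' w) + (HU u z0 uN s s' w - HU u z0 uN s s' z) := by ring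
  rw [h5]
  have h6 := abs_add_le (HU u z0 uN s₂ s' w - HU u z0 uN s s' w)
    (HU u z0 uN s s' w - HU u z0 uN s s' z)
  linarith

/-- the natural functions along a moving mark -/
theorem dN_moving (hN : NatIn P g z0 uN) (hG : GeoIn P L g)
    (hex : ∀ (n : ℕ) (b : ℤ) (v : ℤ × ℤ), uN n (b + n * L) v = uN n b v) (hu : (u : Filter ℕ) ≤ atTop)
    {s t t' x : ℝ} (hs : Fl g s) (hx : Fl g x) (h1 : gam g t ≠ gam g s) (h2 : gam g t ≠ gam g x)
    (h3 : gam g t' ≠ gam g s) (h4 : gam g t' ≠ gam g x) {k : ℕ → ℤ}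
    (hk : Tendsto (fun n : ℕ => (k n : ℝ) / n) u (𝓝 x)) :
    Tendsto (fun n : ℕ => (uN n (ix n s) (gr n g (ix n t')) - uN n (k n) (gr n g (ix n t'))) -
      (uN n (ix n s) (gr n g (ix n t)) - uN n (k n) (gr n g (ix n t)))) u
      (𝓝 (HU u z0 uN s x (gam g t') - HU u z0 uN s x (gam g t))) := by
  have ha := (dN_lattice hN hG hex hu hs hx h3 h4).sub (dN_lattice hN hG hex hu hs hx h1 h2)
  -- compact neighbourhood of the two points
  have hρ1 : 0 < dist (gam g t) (gam g x) := dist_pos.2 h2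
  have hρ2 : 0 < dist (gam g t') (gam g x) := dist_pos.2 h4
  set K : Set ℂ := Cl P ∩ (Metric.closedBall (gam g t) (dist (gam g t) (gam g x) / 2) ∪
    Metric.closedBall (gam g t') (dist (gam g t') (gam g x) / 2)) with hK
  have hKc : IsCompact K := (isCompact_Cl P).inter_right
    (Metric.isClosed_closedBall.union Metric.isClosed_closedBall)
  have hKx : K ⊆ Cl P \ {gam g x} := by
    intro w hw
    refine ⟨hw.1, fun hh => ?_⟩
    rcases hw.2 with h5 | h5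
    · rw [(hh : w = gam g x), Metric.mem_closedBall, dist_comm] at h5
      linarith
    · rw [(hh : w = gam g x), Metric.mem_closedBall, dist_comm] at h5
      linarith
  have hE : Tendsto (fun n : ℕ => (uN n (k n) (gr n g (ix n t')) - uN n (ix n x) (gr n g (ix n t'))) -
      (uN n (k n) (gr n g (ix n t)) - uN n (ix n x) (gr n g (ix n t)))) u (𝓝 0) := by
    rw [Metric.tendsto_nhds]
    intro ε hε
    obtain ⟨δ, hδ, h5⟩ := hN.mark x hx K hKx hKc (ε / 2) (by positivity)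
    have hkd : ∀ᶠ n in (u : Filter ℕ), |(k n : ℝ) / n - x| < δ := by
      filter_upwards [hk.eventually (Metric.ball_mem_nhds x hδ)] with n hn
      rwa [Real.dist_eq] at hn
    have hnear : ∀ r : ℝ, 0 < dist (gam g r) (gam g x) → ∀ᶠ n : ℕ in (u : Filter ℕ),
        gam g ((ix n r : ℝ) / n) ∈ Metric.closedBall (gam g r) (dist (gam g r) (gam g x) / 2) := by
      intro r hr
      have h6 : Tendsto (fun n : ℕ => gam g ((ix n r : ℝ) / n)) u (𝓝 (gam g r)) :=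
        ((hG.cont.tendsto r).comp (ix_div r)).mono_left hu
      exact h6.eventually (Metric.closedBall_mem_nhds _ (by positivity))
    filter_upwards [hu h5, hkd, hnear t hρ1, hnear t' hρ2, hu (eventually_gt_atTop 0)]
      with n h5 hkd ht ht' hn
    have h6 := h5 (k n) hkd _ ⟨hG.mem _, Or.inr ht'⟩ _ ⟨hG.mem _, Or.inl ht⟩
    rw [hG.flgr n _ hn, hG.flgr n _ hn] at h6
    rw [Real.dist_eq, sub_zero]
    linarith
  have h5 := ha.sub hE
  rw [sub_zero] at h5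
  refine h5.congr fun n => ?_
  ring

/-- **The ratio of the discrete derivatives along a moving side.** -/
theorem log_ratio_tendsto (hG : GeoIn P L g) (hN2 : N2P P) (ex : ExIn P L g uN uP uX)
    (hN : NatIn P g z0 uN) (ti : TiltIn P L g z0 uN uP uX) (hu : (u : Filter ℕ) ≤ atTop)
    {t₁ t₂ t₂' t₃ t₄ : ℝ} (hm : Marks5 L g t₁ t₂ t₂' t₃ t₄) {k : ℕ → ℤ}
    (hk : Tendsto (fun n : ℕ => (k n : ℝ) / n) u (𝓝 t₄)) :
    Tendsto (fun n : ℕ => Real.log (Kt P g n (ix n t₁) (ix n t₂') (ix n t₃) (k n)) -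
      Real.log (Kt P g n (ix n t₁) (ix n t₂) (ix n t₃) (k n))) u
      (𝓝 (Real.pi / 3 *
        ((HU u z0 uN t₁ t₄ (gam g t₂') + HU u z0 uN t₃ t₄ (gam g t₂')) -
          (HU u z0 uN t₁ t₄ (gam g t₂) + HU u z0 uN t₃ t₄ (gam g t₂))))) := by
  have hcomp : Tendsto (fun n : ℕ => (n, k n)) u (lk t₄) := by
    unfold lk
    rw [tendsto_inf, tendsto_comap_iff, tendsto_comap_iff]
    exact ⟨hu, hk⟩
  have h1 := (ratio_limit hG hN2 ex ti hm).comp hcomp
  have n1 : gam g t₂ ≠ gam g t₁ := (gam_ne hG (by linarith [hm.h1]) (by linarith [hm.h2, hm.h3, hm.h4, hm.h5])).symm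
  have n2 : gam g t₂ ≠ gam g t₄ := gam_ne hG (by linarith [hm.h2, hm.h3, hm.h4]) (by linarith [hm.h1, hm.h5])
  have n3 : gam g t₂' ≠ gam g t₁ := (gam_ne hG (by linarith [hm.h1, hm.h2]) (by linarith [hm.h3, hm.h4, hm.h5])).symm
  have n4 : gam g t₂' ≠ gam g t₄ := gam_ne hG (by linarith [hm.h3, hm.h4]) (by linarith [hm.h1, hm.h2, hm.h5])
  have n5 : gam g t₂ ≠ gam g t₃ := gam_ne hG (by linarith [hm.h2, hm.h3]) (by linarith [hm.h1, hm.h4, hm.h5])
  have n6 : gam g t₂' ≠ gam g t₃ := gam_ne hG (by linarith [hm.h3]) (by linarith [hm.h1, hm.h2, hm.h4, hm.h5])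
  have h2 := dN_moving hN hG ex.per hu hm.f1 hm.f4 n1 n2 n3 n4 hk
  have h3 := dN_moving hN hG ex.per hu hm.f3 hm.f4 n5 n2 n6 n4 hk
  have h4 := h1.add ((h2.add h3).const_mul (Real.pi / 3))
  rw [zero_add] at h4
  have e : Real.pi / 3 *
        ((HU u z0 uN t₁ t₄ (gam g t₂') + HU u z0 uN t₃ t₄ (gam g t₂')) -
          (HU u z0 uN t₁ t₄ (gam g t₂) + HU u z0 uN t₃ t₄ (gam g t₂))) =
      Real.pi / 3 * (HU u z0 uN t₁ t₄ (gam g t₂') - HU u z0 uN t₁ t₄ (gam g t₂) +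
        (HU u z0 uN t₃ t₄ (gam g t₂') - HU u z0 uN t₃ t₄ (gam g t₂))) := by ring
  rw [e]
  refine h4.congr fun n => ?_
  simp only [Function.comp]
  ring

end

end Pool.Agent.SixB
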