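import Pool.Agent.Lib.SixB.CAGeo
import Pool.Agent.Lib.SixB.S6Psi

/-! # 6BD block CA, CA-Psi (helper4): the limit kernel

`NK P g H`: properties of the limit `H s s' z` of the difference of the natural functions of two flat
marks `s`, `s'` (interface of helper75). `PsiK g H t1 t3 p0 z s`: the exponent of the ratio law, evaluation
point `z`, pole `s`, fixed marks `t1`, `t3`, base point `p0`.
* `KC`: the coefficient of the logarithm of `H t s` at the mark `t` is `c` for all `s`; `NK.exists_coef`.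
* `NK.psi_hasDerivAt`, `NK.psi_deriv_cont`, `NK.psi_cont_pole`, `NK.psi_cont`: regularity.
* `NK.psi_deriv_ne_zero`, `NK.psi_log`: behaviour at the fixed marks.
* `NK.psi_unique`: two kernels with the same coefficients have the same exponent.
* `PsiX`, `PsiY`: shifted coordinates of `CrossSeq.tendsto_ultra`. -/

set_option autoImplicit false

open Filter Topology Metric Set Complex InnerProductSpace Real MeasureTheory Laplacian
open scoped ComplexConjugate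

namespace Pool.Agent.SixB

/-- the limit kernel -/
structure NK (P : Finset (ℤ × ℤ)) (g : ℤ → ℤ × ℤ) (H : ℝ → ℝ → ℂ → ℝ) : Prop where
  nharm : ∀ s s' : ℝ, Fl g s → Fl g s' → gam g s ≠ gam g s' → NHarm P {gam g s, gam g s'} (H s s')
  anti : ∀ s s' : ℝ, Fl g s → Fl g s' → ∀ z ∈ Cl P, z ≠ gam g s → z ≠ gam g s' →
    H s s' z = -H s' s z
  coc : ∀ s s' s'' : ℝ, Fl g s → Fl g s' → Fl g s'' → ∀ z ∈ Cl P, z ≠ gam g s → z ≠ gam g s' →
    z ≠ gam g s'' → H s s' z + H s' s'' z = H s s'' z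
  sym : ∀ s s' t t' : ℝ, Fl g s → Fl g s' → Fl g t → Fl g t' → gam g s ≠ gam g s' →
    gam g t ≠ gam g t' → gam g s ≠ gam g t → gam g s ≠ gam g t' → gam g s' ≠ gam g t →
    gam g s' ≠ gam g t' → H s s' (gam g t) - H s s' (gam g t') = H t t' (gam g s) - H t t' (gam g s')
  growth : ∀ s s' : ℝ, Fl g s → Fl g s' → gam g s ≠ gam g s' → ∃ C : ℝ, ∀ z ∈ Cl P, z ≠ gam g s →
    z ≠ gam g s' → |H s s' z| ≤ C + C * |Real.log ‖z - gam g s‖| + C * |Real.log ‖z - gam g s'‖|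
  jcont : ∀ s' : ℝ, Fl g s' → ContinuousOn (fun q : ℝ × ℂ => H q.1 s' q.2)
    {q | Fl g q.1 ∧ q.2 ∈ Cl P ∧ q.2 ≠ gam g q.1 ∧ q.2 ≠ gam g s'}

/-- the exponent of the ratio law: evaluation point `z`, pole `s`, base point `p0` -/
noncomputable def PsiK (g : ℤ → ℤ × ℤ) (H : ℝ → ℝ → ℂ → ℝ) (t1 t3 p0 z s : ℝ) : ℝ :=
  Real.pi / 3 * ((H t1 s (gam g z) + H t3 s (gam g z)) - (H t1 s (gam g p0) + H t3 s (gam g p0)))

/-- the coefficient of the logarithm at the mark `t` is `c`, for every second mark `s` in `(t1, t1 + L)` -/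
def KC (P : Finset (ℤ × ℤ)) (L : ℕ) (g : ℤ → ℤ × ℤ) (H : ℝ → ℝ → ℂ → ℝ) (t1 t c : ℝ) : Prop :=
  ∀ s : ℝ, t1 < s → s < t1 + L → Fl g s → gam g s ≠ gam g t → LogAt P (H t s) (gam g t) c

/-- flat marks `t1 < t3 < t1 + L` -/
structure Marks2 (L : ℕ) (g : ℤ → ℤ × ℤ) (t1 t3 : ℝ) : Prop where
  h1 : t1 < t3
  h2 : t3 < t1 + L
  f1 : Fl g t1
  f3 : Fl g t3

section

variable {P : Finset (ℤ × ℤ)} {L : ℕ} {g : ℤ → ℤ × ℤ} {H : ℝ → ℝ → ℂ → ℝ} {t1 t3 : ℝ}

theorem GeoIn.inj_lt (hG : GeoIn P L g) {s t : ℝ} (h : s < t) (h' : t < s + L) :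
    gam g s ≠ gam g t := by
  intro he
  obtain ⟨m, hm⟩ := hG.inj s t he
  have hL : (0 : ℝ) < L := by linarith
  have h1 : (m : ℝ) < 0 := by
    by_contra hcon
    push Not at hcon
    have := mul_nonneg hcon hL.le
    linarith
  have h2 : (-1 : ℝ) < m := by
    by_contra hcon
    push Not at hcon
    have := mul_le_mul_of_nonneg_right hcon hL.le
    linarith
  have h3 : m < 0 := by exact_mod_cast h1
  have h4 : -1 < m := by exact_mod_cast h2
  omega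

/-- the boundary curve runs along the walls with unit speed (helper16) -/
theorem Cont.wpath (hC : Cont P L g) (t : ℝ) (ht : Fl g t) : WPath P (gam g) t := by
  obtain ⟨ν, hν, δ, hδ, h1⟩ := CARf.wall_tau hC ht
  refine ⟨ν, -(I * ν), hν, Or.inr rfl, ?_⟩
  rw [Metric.eventually_nhds_iff]
  refine ⟨δ, hδ, fun x hx => ?_⟩
  rw [h1 x (by rwa [← Real.dist_eq]), neg_mul]

private theorem pair_finite (a b : ℂ) : ({a, b} : Set ℂ).Finite := (finite_singleton b).insert a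

/-- the growth of `NK` gives the hypothesis of helper24's N3 -/
private theorem tendsto_of_growth {U : ℂ → ℝ} {a b : ℂ} (hab : a ≠ b) {C : ℝ}
    (hC : ∀ z ∈ Cl P, z ≠ a → z ≠ b →
      |U z| ≤ C + C * |Real.log ‖z - a‖| + C * |Real.log ‖z - b‖|) :
    Tendsto (fun z : ℂ => ‖z - a‖ * U z) (𝓝[Cl P \ {a}] a) (𝓝 0) := by
  have h0 : Tendsto (fun z : ℂ => ‖z - a‖) (𝓝[Cl P \ {a}] a) (𝓝 0) := by
    have h1 : Tendsto (fun z : ℂ => ‖z - a‖) (𝓝 a) (𝓝 ‖a - a‖) :=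
      (continuous_id.sub continuous_const).norm.tendsto a
    rw [sub_self, norm_zero] at h1
    exact h1.mono_left nhdsWithin_le_nhds
  have hba : 0 < ‖a - b‖ := norm_pos_iff.2 (sub_ne_zero.2 hab)
  have h1 : Tendsto (fun z : ℂ => |C| * |‖z - a‖| + |C| * |‖z - a‖ * Real.log ‖z - a‖| +
      ‖z - a‖ * (|C| * |Real.log ‖z - b‖|)) (𝓝[Cl P \ {a}] a) (𝓝 0) := by
    have h2 : Continuous (fun t : ℝ => |C| * |t| + |C| * |t * Real.log t|) := by
      have := Real.continuous_mul_log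
      fun_prop
    have h3 := (h2.tendsto 0).comp h0
    have h4 : Tendsto (fun z : ℂ => |C| * |Real.log ‖z - b‖|) (𝓝[Cl P \ {a}] a)
        (𝓝 (|C| * |Real.log ‖a - b‖|)) := by
      have h5 : ContinuousAt (fun z : ℂ => |C| * |Real.log ‖z - b‖|) a := by
        have h6 : ContinuousAt (fun z : ℂ => Real.log ‖z - b‖) a :=
          ContinuousAt.log (by fun_prop) hba.ne'
        exact h6.abs.const_mul _
      exact h5.tendsto.mono_left nhdsWithin_le_nhds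
    have h5 := h3.add (h0.mul h4)
    simpa using h5
  refine squeeze_zero_norm' ?_ h1
  have hne : ∀ᶠ z in 𝓝[Cl P \ {a}] a, z ≠ b :=
    nhdsWithin_le_nhds (isOpen_ne.mem_nhds hab)
  filter_upwards [self_mem_nhdsWithin, hne] with z hz hzb
  have h2 := hC z hz.1 hz.2 hzb
  rw [norm_mul, Real.norm_eq_abs, Real.norm_eq_abs]
  have h3 : |U z| ≤ |C| + |C| * |Real.log ‖z - a‖| + |C| * |Real.log ‖z - b‖| := by
    refine h2.trans ?_
    gcongr <;> exact le_abs_self C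
  have h4 := abs_nonneg ‖z - a‖
  have h5 := mul_le_mul_of_nonneg_left h3 h4
  rw [abs_mul ‖z - a‖ (Real.log ‖z - a‖)]
  have h6 : ‖z - a‖ = |‖z - a‖| := (abs_of_nonneg (norm_nonneg _)).symm
  calc |‖z - a‖| * |U z| ≤ |‖z - a‖| * (|C| + |C| * |Real.log ‖z - a‖| + |C| * |Real.log ‖z - b‖|) := h5
    _ = |C| * |‖z - a‖| + |C| * (|‖z - a‖| * |Real.log ‖z - a‖|) +
        |‖z - a‖| * (|C| * |Real.log ‖z - b‖|) := by ring
    _ = _ := by rw [← h6]

/-- existence of the coefficient for one pair of marks -/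
theorem NK.logAt_left (hK : NK P g H) (hG : GeoIn P L g) {s s' : ℝ} (hs : Fl g s) (hs' : Fl g s')
    (hne : gam g s ≠ gam g s') : ∃ c : ℝ, LogAt P (H s s') (gam g s) c := by
  obtain ⟨C, hC⟩ := hK.growth s s' hs hs' hne
  obtain ⟨ν, hν⟩ := hG.wall s hs
  exact (hK.nharm s s' hs hs' hne).exists_logAt_wall (pair_finite _ _) hν (tendsto_of_growth hne hC)

theorem NK.logAt_right (hK : NK P g H) (hG : GeoIn P L g) {s s' : ℝ} (hs : Fl g s) (hs' : Fl g s')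
    (hne : gam g s ≠ gam g s') : ∃ c : ℝ, LogAt P (H s s') (gam g s') c := by
  obtain ⟨C, hC⟩ := hK.growth s s' hs hs' hne
  obtain ⟨ν, hν⟩ := hG.wall s' hs'
  exact (hK.nharm s s' hs hs' hne).exists_logAt_wall (pair_finite _ _) hν
    (tendsto_of_growth hne.symm (C := C) fun z hz h1 h2 => by
      have := hC z hz h2 h1
      linarith)

/-- **The coefficient does not depend on the second mark.** -/
theorem NK.exists_coef (hK : NK P g H) (hG : GeoIn P L g) {t : ℝ} (ht : Fl g t) :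
    ∃ c : ℝ, KC P L g H t1 t c := by
  by_cases hex : ∃ s0 : ℝ, t1 < s0 ∧ s0 < t1 + L ∧ Fl g s0 ∧ gam g s0 ≠ gam g t
  · obtain ⟨s0, h1, h2, h3, h4⟩ := hex
    obtain ⟨c, hc⟩ := hK.logAt_left hG ht h3 h4.symm
    refine ⟨c, fun s hs1 hs2 hs3 hs4 => ?_⟩
    by_cases hss : s = s0
    · rw [hss]; exact hc
    have hne : gam g s0 ≠ gam g s := by
      rcases lt_or_gt_of_ne hss with h | h
      · exact (hG.inj_lt h (by linarith)).symm
      · exact hG.inj_lt h (by linarith)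
    have h5 := hK.nharm s0 s h3 hs3 hne
    have h6 : LogAt P (H s0 s) (gam g t) 0 := by
      refine h5.logAt_zero (pair_finite _ _) (hG.mem t) ?_
      rintro (h | h)
      · exact h4 h.symm
      · exact hs4 (mem_singleton_iff.1 h).symm
    have h7 := hc.add h6
    rw [add_zero] at h7
    -- near `gam g t` the other two marks are away
    obtain ⟨r, hr, hr2⟩ : ∃ r : ℝ, 0 < r ∧ ∀ z : ℂ, ‖z - gam g t‖ < r → z ≠ gam g s0 ∧ z ≠ gam g s := by
      refine ⟨min ‖gam g s0 - gam g t‖ ‖gam g s - gam g t‖,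
        lt_min (norm_pos_iff.2 (sub_ne_zero.2 h4)) (norm_pos_iff.2 (sub_ne_zero.2 hs4)), ?_⟩
      intro z hz
      refine ⟨fun h => ?_, fun h => ?_⟩
      · rw [h] at hz; exact absurd hz (not_lt.2 (min_le_left _ _))
      · rw [h] at hz; exact absurd hz (not_lt.2 (min_le_right _ _))
    refine h7.congr hr fun z hz hzt hzr => ?_
    obtain ⟨h8, h9⟩ := hr2 z hzr
    exact (hK.coc t s0 s ht h3 hs3 z hz hzt h8 h9).symm
  · push Not at hex
    exact ⟨0, fun s h1 h2 h3 h4 => absurd (hex s h1 h2 h3) h4⟩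

/-! ### the family of the exponent -/

/-- the flat marks in `(t1, t1 + L)` different from `t3` -/
def polesK (L : ℕ) (g : ℤ → ℤ × ℤ) (t1 t3 : ℝ) : Set ℝ :=
  {s | t1 < s ∧ s < t1 + L ∧ s ≠ t3 ∧ Fl g s}

theorem GeoIn.ne_of_mem (hG : GeoIn P L g) {s t : ℝ} (hs : t1 ≤ s) (hs' : s < t1 + L)
    (ht : t1 ≤ t) (ht' : t < t1 + L) (hne : s ≠ t) : gam g s ≠ gam g t := by
  rcases lt_or_gt_of_ne hne with h | h
  · exact hG.inj_lt h (by linarith)
  · exact (hG.inj_lt h (by linarith)).symm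

theorem Marks2.facts (hM : Marks2 L g t1 t3) (hG : GeoIn P L g) {s : ℝ}
    (hs : s ∈ polesK L g t1 t3) : gam g t1 ≠ gam g s ∧ gam g t3 ≠ gam g s := by
  have h1 := hM.h1
  have h2 := hM.h2
  obtain ⟨hs1, hs2, hs3, -⟩ := hs
  exact ⟨hG.inj_lt hs1 hs2, hG.ne_of_mem h1.le h2 hs1.le hs2 hs3.symm⟩

theorem NK.wfam (hK : NK P g H) (hG : GeoIn P L g) (hM : Marks2 L g t1 t3) :
    WFam P (polesK L g t1 t3) (fun s => insert (gam g s) {gam g t1, gam g t3})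
      (fun z s => H t1 s z + H t3 s z) := by
  refine ⟨fun s hs => ?_, ?_⟩
  · obtain ⟨h1, h3⟩ := hM.facts hG hs
    refine NHarm.add ((hK.nharm t1 s hM.f1 hs.2.2.2 h1).mono ?_)
      ((hK.nharm t3 s hM.f3 hs.2.2.2 h3).mono ?_)
    · intro z hz
      rcases hz with hz | hz
      · exact Or.inr (Or.inl hz)
      · exact Or.inl hz
    · intro z hz
      rcases hz with hz | hz
      · exact Or.inr (Or.inr hz)
      · exact Or.inl hz
  · have hsw : Continuous fun q : ℂ × ℝ => (q.2, q.1) := continuous_swap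
    have hc : ∀ t : ℝ, Fl g t → (t = t1 ∨ t = t3) →
        ContinuousOn (fun q : ℂ × ℝ => -H q.2 t q.1) {q | q.1 ∈ Cl P ∧ q.2 ∈ polesK L g t1 t3 ∧
          q.1 ∉ insert (gam g q.2) ({gam g t1, gam g t3} : Set ℂ)} := by
      intro t ht htt
      refine ((hK.jcont t ht).comp hsw.continuousOn ?_).neg
      rintro ⟨z, s⟩ ⟨hz, hs, hX⟩
      refine ⟨hs.2.2.2, hz, fun h => hX (Or.inl h), fun h => hX ?_⟩
      rcases htt with rfl | rfl
      · exact Or.inr (Or.inl h)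
      · exact Or.inr (Or.inr h)
    refine ((hc t1 hM.f1 (Or.inl rfl)).add (hc t3 hM.f3 (Or.inr rfl))).congr ?_
    rintro ⟨z, s⟩ ⟨hz, hs, hX⟩
    have h0 : z ≠ gam g s := fun h => hX (Or.inl h)
    have h1 : z ≠ gam g t1 := fun h => hX (Or.inr (Or.inl h))
    have h3 : z ≠ gam g t3 := fun h => hX (Or.inr (Or.inr h))
    show H t1 s z + H t3 s z = -H s t1 z + -H s t3 z
    rw [hK.anti t1 s hM.f1 hs.2.2.2 z hz h1 h0, hK.anti t3 s hM.f3 hs.2.2.2 z hz h3 h0]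

/-- the marks are separated from a flat point -/
theorem Marks2.msep (hM : Marks2 L g t1 t3) (hG : GeoIn P L g) {z s : ℝ}
    (hz : z ∈ polesK L g t1 t3) (hs : s ∈ polesK L g t1 t3) (hzs : z ≠ s) :
    MSep (polesK L g t1 t3) (fun s => insert (gam g s) {gam g t1, gam g t3}) (gam g z) s := by
  obtain ⟨h1, h3⟩ := hM.facts hG hz
  refine msep_insert ((finite_singleton _).insert _) ?_ hG.cont.continuousWithinAt
    (hG.ne_of_mem hs.1.le hs.2.1 hz.1.le hz.2.1 hzs.symm)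
  rintro (h | h)
  · exact h1 h.symm
  · exact h3 (mem_singleton_iff.1 h).symm

theorem Marks2.notMem (hM : Marks2 L g t1 t3) (hG : GeoIn P L g) {z s : ℝ}
    (hz : z ∈ polesK L g t1 t3) (hs : s ∈ polesK L g t1 t3) (hzs : z ≠ s) :
    gam g z ∉ (insert (gam g s) {gam g t1, gam g t3} : Set ℂ) := by
  obtain ⟨h1, h3⟩ := hM.facts hG hz
  rintro (h | h | h)
  · exact hG.ne_of_mem hs.1.le hs.2.1 hz.1.le hz.2.1 hzs.symm h.symm
  · exact h1 h.symm
  · exact h3 (mem_singleton_iff.1 h).symm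

private theorem deriv_psiK (p0 z s : ℝ) : deriv (fun z => PsiK g H t1 t3 p0 z s) z =
    Real.pi / 3 * deriv (fun z => H t1 s (gam g z) + H t3 s (gam g z)) z := by
  unfold PsiK
  rw [deriv_const_mul_field, deriv_sub_const]

/-- the exponent is differentiable in the evaluation mark -/
theorem NK.psi_hasDerivAt (hK : NK P g H) (hG : GeoIn P L g)
    (hW : ∀ t : ℝ, Fl g t → WPath P (gam g) t) (hM : Marks2 L g t1 t3) (p0 : ℝ) {z s : ℝ}
    (hz : z ∈ polesK L g t1 t3) (hs : s ∈ polesK L g t1 t3) (hzs : z ≠ s) :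
    HasDerivAt (fun z => PsiK g H t1 t3 p0 z s) (deriv (fun z => PsiK g H t1 t3 p0 z s) z) z := by
  have h1 := (hK.wfam hG hM).differentiableAt hs (hW z hz.2.2.2) (hM.msep hG hz hs hzs)
  have h2 : DifferentiableAt ℝ (fun z => PsiK g H t1 t3 p0 z s) z :=
    (h1.sub_const _).const_mul _
  exact h2.hasDerivAt

/-- the derivative in the evaluation mark is jointly continuous -/
theorem NK.psi_deriv_cont (hK : NK P g H) (hG : GeoIn P L g)
    (hW : ∀ t : ℝ, Fl g t → WPath P (gam g) t) (hM : Marks2 L g t1 t3) (p0 : ℝ) {A B : Set ℝ}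
    (hA : A ⊆ polesK L g t1 t3) (hB : B ⊆ polesK L g t1 t3) (hAB : Disjoint A B) :
    ContinuousOn (fun q : ℝ × ℝ => deriv (fun z => PsiK g H t1 t3 p0 z q.2) q.1) (A ×ˢ B) := by
  have h1 : ContinuousOn (fun q : ℝ × ℝ => Real.pi / 3 *
      deriv (fun z => H t1 q.2 (gam g z) + H t3 q.2 (gam g z)) q.1) (A ×ˢ B) := by
    refine ContinuousOn.mul continuousOn_const ?_
    rintro ⟨z, s⟩ ⟨hz, hs⟩
    have hzs : z ≠ s := fun h => Set.disjoint_left.1 hAB hz (by rw [h]; exact hs)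
    exact ((hK.wfam hG hM).continuousWithinAt_deriv (hB hs) (hW z (hA hz).2.2.2)
      (hM.msep hG (hA hz) (hB hs) hzs)).mono (prod_mono (subset_univ _) hB)
  refine h1.congr ?_
  rintro ⟨z, s⟩ -
  exact deriv_psiK p0 z s

/-- continuity of the exponent in the pole -/
theorem NK.psi_cont_pole (hK : NK P g H) (hG : GeoIn P L g) (hM : Marks2 L g t1 t3) {p0 z : ℝ}
    {B : Set ℝ} (hz : z ∈ polesK L g t1 t3) (hp : p0 ∈ polesK L g t1 t3)
    (hB : B ⊆ polesK L g t1 t3) (hzB : z ∉ B) (hpB : p0 ∉ B) :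
    ContinuousOn (fun s => PsiK g H t1 t3 p0 z s) B := by
  have hne : ∀ w : ℝ, w ∉ B → ∀ s ∈ B, w ≠ s := fun w hw s hs h => hw (by rw [h]; exact hs)
  have key : ∀ w ∈ polesK L g t1 t3, w ∉ B →
      ContinuousOn (fun s => H t1 s (gam g w) + H t3 s (gam g w)) B := by
    intro w hw hwB
    have h1 : ContinuousOn (fun s : ℝ => (gam g w, s)) B := (Continuous.prodMk_right _).continuousOn
    exact (hK.wfam hG hM).jc.comp h1 fun s hs =>
      ⟨hG.mem w, hB hs, hM.notMem hG hw (hB hs) (hne w hwB s hs)⟩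
  exact continuousOn_const.mul ((key z hz hzB).sub (key p0 hp hpB))

/-- the logarithm at the fixed mark `t`, `t = t1` or `t = t3` -/
theorem NK.logAt_sum (hK : NK P g H) (hG : GeoIn P L g) (hM : Marks2 L g t1 t3) {t t' c s : ℝ}
    (htt : (t = t1 ∧ t' = t3) ∨ (t = t3 ∧ t' = t1)) (hs : s ∈ polesK L g t1 t3)
    (hc : KC P L g H t1 t c) : LogAt P (fun z => H t1 s z + H t3 s z) (gam g t) c := by
  obtain ⟨h1, h3⟩ := hM.facts hG hs
  have h13 : gam g t1 ≠ gam g t3 := hG.inj_lt hM.h1 hM.h2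
  have hother : ∀ u : ℝ, Fl g u → gam g u ≠ gam g s → gam g t ≠ gam g u → gam g t ≠ gam g s →
      LogAt P (H u s) (gam g t) 0 := by
    intro u hu hus htu hts
    refine (hK.nharm u s hu hs.2.2.2 hus).logAt_zero (pair_finite _ _) (hG.mem t) ?_
    rintro (h | h)
    · exact htu h
    · exact hts (mem_singleton_iff.1 h)
  rcases htt with ⟨rfl, rfl⟩ | ⟨rfl, rfl⟩
  · have h4 := (hc s hs.1 hs.2.1 hs.2.2.2 h1.symm).add (hother t' hM.f3 h3 h13 h1)
    rwa [add_zero] at h4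
  · have h4 := (hother t' hM.f1 h1 h13.symm h3).add (hc s hs.1 hs.2.1 hs.2.2.2 h3.symm)
    rwa [zero_add] at h4

/-- **The derivative does not vanish near the fixed marks.** -/
theorem NK.psi_deriv_ne_zero (hK : NK P g H) (hG : GeoIn P L g)
    (hW : ∀ t : ℝ, Fl g t → WPath P (gam g) t) (hM : Marks2 L g t1 t3) (p0 : ℝ) {t t' c s : ℝ}
    (htt : (t = t1 ∧ t' = t3) ∨ (t = t3 ∧ t' = t1)) (hs : s ∈ polesK L g t1 t3)
    (hc : KC P L g H t1 t c) (hc0 : c ≠ 0) :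
    ∃ η : ℝ, 0 < η ∧ ∀ z : ℝ, z ≠ t → |z - t| < η →
      deriv (fun z => PsiK g H t1 t3 p0 z s) z ≠ 0 := by
  have hft : Fl g t := by
    rcases htt with ⟨rfl, -⟩ | ⟨rfl, -⟩
    · exact hM.f1
    · exact hM.f3
  obtain ⟨η, hη, h1⟩ := ((hK.wfam hG hM).nh s hs).deriv_ne_zero (hW t hft)
    (isolated_of_finite (((finite_singleton _).insert _).insert _) _)
    (hK.logAt_sum hG hM htt hs hc) hc0
  refine ⟨η, hη, fun z hz hzη => ?_⟩
  rw [deriv_psiK]
  exact mul_ne_zero (by positivity) (h1 z hz hzη)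

/-- **Uniform logarithmic behaviour** at a fixed mark, for the poles in a compact set. -/
theorem NK.psi_log (hK : NK P g H) (hG : GeoIn P L g)
    (hW : ∀ t : ℝ, Fl g t → WPath P (gam g) t) (hM : Marks2 L g t1 t3) {p0 : ℝ} {t t' c : ℝ}
    (htt : (t = t1 ∧ t' = t3) ∨ (t = t3 ∧ t' = t1)) (hc : KC P L g H t1 t c) {K : Set ℝ}
    (hKc : IsCompact K) (hKp : K ⊆ polesK L g t1 t3) (hp : p0 ∈ polesK L g t1 t3) (hpK : p0 ∉ K) :
    ∃ η : ℝ, 0 < η ∧ ∃ B : ℝ, ∀ s ∈ K, ∀ z : ℝ, z ≠ t → |z - t| < η →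
      |PsiK g H t1 t3 p0 z s - Real.pi / 3 * c * Real.log (|z - t|)| ≤ B := by
  have hft : Fl g t := by
    rcases htt with ⟨rfl, -⟩ | ⟨rfl, -⟩
    · exact hM.f1
    · exact hM.f3
  have hts : ∀ s ∈ polesK L g t1 t3, gam g t ≠ gam g s := by
    intro s hs
    rcases htt with ⟨rfl, -⟩ | ⟨rfl, -⟩
    · exact (hM.facts hG hs).1
    · exact (hM.facts hG hs).2
  have h13 : gam g t1 ≠ gam g t3 := hG.inj_lt hM.h1 hM.h2
  obtain ⟨ν, τ, hw, hτ, hγ⟩ := hW t hft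
  obtain ⟨r1, hr1, hf1⟩ := hw.exists_flat
  obtain ⟨r2, hr2, hX2⟩ := isolated_of_finite (X := ({gam g t1, gam g t3} : Set ℂ))
    (pair_finite _ _) (gam g t)
  obtain ⟨r3, hr3, hX3⟩ : ∃ r : ℝ, 0 < r ∧ ∀ s ∈ K, r ≤ ‖gam g s - gam g t‖ := by
    rcases K.eq_empty_or_nonempty with hKe | hKne
    · exact ⟨1, one_pos, fun s hs => by rw [hKe] at hs; exact absurd hs (notMem_empty s)⟩
    · have hcn : ContinuousOn (fun s => ‖gam g s - gam g t‖) K :=
        (hG.cont.sub continuous_const).norm.continuousOn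
      obtain ⟨s0, hs0, hmin⟩ := hKc.exists_isMinOn hKne hcn
      exact ⟨‖gam g s0 - gam g t‖, norm_pos_iff.2 (sub_ne_zero.2 (hts s0 (hKp hs0)).symm),
        fun s hs => hmin hs⟩
  set r := min r1 (min r2 r3) with hr
  have hr0 : 0 < r := lt_min hr1 (lt_min hr2 hr3)
  have hra : r ≤ r2 := (min_le_right _ _).trans (min_le_left _ _)
  have hrb : r ≤ r3 := (min_le_right _ _).trans (min_le_right _ _)
  obtain ⟨B1, hB1⟩ := (hK.wfam hG hM).log_uniform hKc hKp hr0 (hf1.mono (min_le_left _ _))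
    (fun s hs z hz hzb => by
      rcases hz with hz | hz
      · rw [hz]; exact hrb.trans (hX3 s hs)
      · exact hra.trans (hX2 z hz hzb))
    (fun s hs => hK.logAt_sum hG hM htt (hKp hs) hc)
  -- the value at the base point
  have hbase : ContinuousOn (fun s => H t1 s (gam g p0) + H t3 s (gam g p0)) K := by
    have h1 : ContinuousOn (fun s : ℝ => (gam g p0, s)) K :=
      (Continuous.prodMk_right _).continuousOn
    exact (hK.wfam hG hM).jc.comp h1 fun s hs =>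
      ⟨hG.mem p0, hKp hs, hM.notMem hG hp (hKp hs) fun h => hpK (by rw [h]; exact hs)⟩
  obtain ⟨B2, hB2⟩ := hKc.exists_bound_of_continuousOn hbase
  obtain ⟨δ, hδ, hδγ⟩ := Metric.eventually_nhds_iff.1 hγ
  have hnτ : ‖τ‖ = 1 := by
    rcases hτ with h | h <;> rw [h] <;> simp [norm_of_isDir hw.1]
  refine ⟨min δ (r / 2), lt_min hδ (by positivity), Real.pi / 3 * (B1 + B2), fun s hs z hz hzη => ?_⟩
  have hzδ : dist z t < δ := by rw [Real.dist_eq]; exact hzη.trans_le (min_le_left _ _)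
  have hn : ‖gam g z - gam g t‖ = |z - t| := by
    rw [hδγ hzδ, add_sub_cancel_left, norm_mul, hnτ, mul_one, Complex.norm_real, Real.norm_eq_abs]
  have hzt : gam g z ≠ gam g t := by
    intro h
    rw [h, sub_self, norm_zero] at hn
    exact hz (sub_eq_zero.1 (abs_eq_zero.1 hn.symm))
  have h1 := hB1 s hs (gam g z) (hG.mem z) hzt (by rw [hn]; exact (hzη.trans_le (min_le_right _ _)).le)
  rw [hn] at h1
  have h2 := hB2 s hs
  rw [Real.norm_eq_abs] at h2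
  have e : PsiK g H t1 t3 p0 z s - Real.pi / 3 * c * Real.log |z - t| =
      Real.pi / 3 * ((H t1 s (gam g z) + H t3 s (gam g z) - c * Real.log |z - t|) -
        (H t1 s (gam g p0) + H t3 s (gam g p0))) := by
    rw [PsiK]; ring
  rw [e, abs_mul, abs_of_pos (by positivity : (0:ℝ) < Real.pi / 3)]
  refine mul_le_mul_of_nonneg_left ?_ (by positivity)
  exact (abs_sub _ _).trans (add_le_add h1 h2)

/-- **Uniqueness**: kernels with the same coefficients at the fixed marks have the same exponent. -/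
theorem NK.psi_unique (hP : MPoly P) {H' : ℝ → ℝ → ℂ → ℝ} (hK : NK P g H) (hK' : NK P g H')
    (hG : GeoIn P L g) (hM : Marks2 L g t1 t3) {c1 c3 : ℝ} (h1 : KC P L g H t1 t1 c1)
    (h3 : KC P L g H t1 t3 c3) (h1' : KC P L g H' t1 t1 c1) (h3' : KC P L g H' t1 t3 c3)
    {p0 z s : ℝ} (hz : z ∈ polesK L g t1 t3) (hp : p0 ∈ polesK L g t1 t3)
    (hs : s ∈ polesK L g t1 t3) (hzs : z ≠ s) (hps : p0 ≠ s) :
    PsiK g H t1 t3 p0 z s = PsiK g H' t1 t3 p0 z s := by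
  obtain ⟨hs1, hs3⟩ := hM.facts hG hs
  have hU := ((hK.wfam hG hM).nh s hs).sub ((hK'.wfam hG hM).nh s hs)
  obtain ⟨a1, ha1⟩ := hK.logAt_right hG hM.f1 hs.2.2.2 hs1
  obtain ⟨a3, ha3⟩ := hK.logAt_right hG hM.f3 hs.2.2.2 hs3
  obtain ⟨b1, hb1⟩ := hK'.logAt_right hG hM.f1 hs.2.2.2 hs1
  obtain ⟨b3, hb3⟩ := hK'.logAt_right hG hM.f3 hs.2.2.2 hs3
  have hX : (insert (gam g s) ({gam g t1, gam g t3} : Set ℂ)).Finite := (pair_finite _ _).insert _
  obtain ⟨a, ha⟩ := hU.const_of_log hP hX (by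
      rintro w (hw | hw | hw)
      · rw [hw]; exact hG.notMem s
      · rw [hw]; exact hG.notMem t1
      · rw [mem_singleton_iff.1 hw]; exact hG.notMem t3)
    ((ha1.add ha3).sub (hb1.add hb3)) (by
      rintro w (hw | hw | hw) hws
      · exact absurd hw hws
      · rw [hw]
        have h4 := (hK.logAt_sum hG hM (Or.inl ⟨rfl, rfl⟩) hs h1).sub
          (hK'.logAt_sum hG hM (Or.inl ⟨rfl, rfl⟩) hs h1')
        rwa [sub_self] at h4
      · rw [mem_singleton_iff.1 hw]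
        have h4 := (hK.logAt_sum hG hM (Or.inr ⟨rfl, rfl⟩) hs h3).sub
          (hK'.logAt_sum hG hM (Or.inr ⟨rfl, rfl⟩) hs h3')
        rwa [sub_self] at h4)
  have e1 := ha (gam g z) ⟨hG.mem z, hM.notMem hG hz hs hzs⟩
  have e2 := ha (gam g p0) ⟨hG.mem p0, hM.notMem hG hp hs hps⟩
  rw [PsiK, PsiK]
  have e3 : H t1 s (gam g z) + H t3 s (gam g z) - (H t1 s (gam g p0) + H t3 s (gam g p0)) =
      H' t1 s (gam g z) + H' t3 s (gam g z) - (H' t1 s (gam g p0) + H' t3 s (gam g p0)) := by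
    linarith
  rw [e3]

/-! ### shifted coordinates: `x = z - t1`, `y = z - t3` -/

/-- mark `t1 + x` moves, pole `t3 + y` -/
noncomputable def PsiX (g : ℤ → ℤ × ℤ) (H : ℝ → ℝ → ℂ → ℝ) (t1 t3 x0 x y : ℝ) : ℝ :=
  PsiK g H t1 t3 (t1 + x0) (t1 + x) (t3 + y)

/-- mark `t3 + y` moves, pole `t1 + x` -/
noncomputable def PsiY (g : ℤ → ℤ × ℤ) (H : ℝ → ℝ → ℂ → ℝ) (t1 t3 y0 x y : ℝ) : ℝ :=
  PsiK g H t1 t3 (t3 + y0) (t3 + y) (t1 + x)

/-- flat positions of the second mark -/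
def SetX (g : ℤ → ℤ × ℤ) (t1 t3 : ℝ) : Set ℝ := {x | 0 < x ∧ x < t3 - t1 ∧ Fl g (t1 + x)}

/-- flat positions of the fourth mark -/
def SetY (L : ℕ) (g : ℤ → ℤ × ℤ) (t1 t3 : ℝ) : Set ℝ :=
  {y | 0 < y ∧ y < t1 + L - t3 ∧ Fl g (t3 + y)}

theorem Marks2.polesX (hM : Marks2 L g t1 t3) {x : ℝ} (hx : x ∈ SetX g t1 t3) :
    t1 + x ∈ polesK L g t1 t3 := by
  obtain ⟨h1, h2, h3⟩ := hx
  have := hM.h2
  exact ⟨by linarith, by linarith, fun h => by linarith, h3⟩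

theorem Marks2.polesY (hM : Marks2 L g t1 t3) {y : ℝ} (hy : y ∈ SetY L g t1 t3) :
    t3 + y ∈ polesK L g t1 t3 := by
  obtain ⟨h1, h2, h3⟩ := hy
  have := hM.h1
  exact ⟨by linarith, by linarith, fun h => by linarith, h3⟩

theorem ne_XY {x y : ℝ} (hx : x ∈ SetX g t1 t3) (hy : y ∈ SetY L g t1 t3) : t1 + x ≠ t3 + y := by
  have h1 := hx.2.1
  have h2 := hy.1
  intro h
  linarith

/-- derivative in `x` -/
theorem NK.psiX_hasDerivAt (hK : NK P g H) (hG : GeoIn P L g)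
    (hW : ∀ t : ℝ, Fl g t → WPath P (gam g) t) (hM : Marks2 L g t1 t3) (x0 : ℝ) {x y : ℝ}
    (hx : x ∈ SetX g t1 t3) (hy : y ∈ SetY L g t1 t3) :
    HasDerivAt (fun x => PsiX g H t1 t3 x0 x y) (deriv (fun x => PsiX g H t1 t3 x0 x y) x) x := by
  have h1 := hK.psi_hasDerivAt hG hW hM (t1 + x0) (hM.polesX hx) (hM.polesY hy) (ne_XY hx hy)
  have h2 : HasDerivAt (fun x => PsiK g H t1 t3 (t1 + x0) (t1 + x) (t3 + y))
      (deriv (fun z => PsiK g H t1 t3 (t1 + x0) z (t3 + y)) (t1 + x)) x := h1.comp_const_add t1 x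
  exact h2.differentiableAt.hasDerivAt

private theorem deriv_psiX (x0 x y : ℝ) : deriv (fun x => PsiX g H t1 t3 x0 x y) x =
    deriv (fun z => PsiK g H t1 t3 (t1 + x0) z (t3 + y)) (t1 + x) := by
  unfold PsiX
  rw [deriv_comp_const_add (f := fun z => PsiK g H t1 t3 (t1 + x0) z (t3 + y))]

/-- the derivative in `x` is jointly continuous -/
theorem NK.psiX_deriv_cont (hK : NK P g H) (hG : GeoIn P L g)
    (hW : ∀ t : ℝ, Fl g t → WPath P (gam g) t) (hM : Marks2 L g t1 t3) (x0 : ℝ) :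
    ContinuousOn (fun q : ℝ × ℝ => deriv (fun x => PsiX g H t1 t3 x0 x q.2) q.1)
      (SetX g t1 t3 ×ˢ SetY L g t1 t3) := by
  have h1 := hK.psi_deriv_cont hG hW hM (t1 + x0) (A := (fun x => t1 + x) '' SetX g t1 t3)
    (B := (fun y => t3 + y) '' SetY L g t1 t3) (by
      rintro _ ⟨x, hx, rfl⟩; exact hM.polesX hx) (by
      rintro _ ⟨y, hy, rfl⟩; exact hM.polesY hy) (by
      rw [Set.disjoint_left]
      rintro _ ⟨x, hx, rfl⟩ ⟨y, hy, h⟩
      exact ne_XY hx hy h.symm)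
  have h2 : ContinuousOn (fun q : ℝ × ℝ => (t1 + q.1, t3 + q.2))
      (SetX g t1 t3 ×ˢ SetY L g t1 t3) := by fun_prop
  refine (h1.comp h2 ?_).congr ?_
  · rintro ⟨x, y⟩ ⟨hx, hy⟩
    exact ⟨⟨x, hx, rfl⟩, ⟨y, hy, rfl⟩⟩
  · rintro ⟨x, y⟩ -
    exact deriv_psiX x0 x y

/-- continuity in the pole -/
theorem NK.psiX_cont (hK : NK P g H) (hG : GeoIn P L g) (hM : Marks2 L g t1 t3) {x0 x : ℝ}
    (hx0 : x0 ∈ SetX g t1 t3) (hx : x ∈ SetX g t1 t3) :
    ContinuousOn (PsiX g H t1 t3 x0 x) (SetY L g t1 t3) := by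
  have hn : ∀ w ∈ SetX g t1 t3, t1 + w ∉ (fun y => t3 + y) '' SetY L g t1 t3 := by
    rintro w hw ⟨y, hy, h⟩
    exact ne_XY hw hy h.symm
  have h1 := hK.psi_cont_pole hG hM (B := (fun y => t3 + y) '' SetY L g t1 t3) (hM.polesX hx)
    (hM.polesX hx0) (by rintro _ ⟨y, hy, rfl⟩; exact hM.polesY hy) (hn x hx) (hn x0 hx0)
  have h2 : ContinuousOn (fun y : ℝ => t3 + y) (SetY L g t1 t3) := by fun_prop
  exact h1.comp h2 fun y hy => ⟨y, hy, rfl⟩

theorem NK.psiY_cont (hK : NK P g H) (hG : GeoIn P L g) (hM : Marks2 L g t1 t3) {y0 y : ℝ}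
    (hy0 : y0 ∈ SetY L g t1 t3) (hy : y ∈ SetY L g t1 t3) :
    ContinuousOn (fun x => PsiY g H t1 t3 y0 x y) (SetX g t1 t3) := by
  have hn : ∀ w ∈ SetY L g t1 t3, t3 + w ∉ (fun x => t1 + x) '' SetX g t1 t3 := by
    rintro w hw ⟨x, hx, h⟩
    exact ne_XY hx hw h
  have h1 := hK.psi_cont_pole hG hM (B := (fun x => t1 + x) '' SetX g t1 t3) (hM.polesY hy)
    (hM.polesY hy0) (by rintro _ ⟨x, hx, rfl⟩; exact hM.polesX hx) (hn y hy) (hn y0 hy0)
  have h2 : ContinuousOn (fun x : ℝ => t1 + x) (SetX g t1 t3) := by fun_prop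
  exact h1.comp h2 fun x hx => ⟨x, hx, rfl⟩

/-- derivative in `y` -/
theorem NK.psiY_hasDerivAt (hK : NK P g H) (hG : GeoIn P L g)
    (hW : ∀ t : ℝ, Fl g t → WPath P (gam g) t) (hM : Marks2 L g t1 t3) (y0 : ℝ) {x y : ℝ}
    (hx : x ∈ SetX g t1 t3) (hy : y ∈ SetY L g t1 t3) :
    HasDerivAt (PsiY g H t1 t3 y0 x) (deriv (PsiY g H t1 t3 y0 x) y) y := by
  have h1 := hK.psi_hasDerivAt hG hW hM (t3 + y0) (hM.polesY hy) (hM.polesX hx) (ne_XY hx hy).symm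
  have h2 : HasDerivAt (fun y => PsiK g H t1 t3 (t3 + y0) (t3 + y) (t1 + x))
      (deriv (fun z => PsiK g H t1 t3 (t3 + y0) z (t1 + x)) (t3 + y)) y := h1.comp_const_add t3 y
  exact h2.differentiableAt.hasDerivAt

/-- the derivative in `x` is not zero near `x = 0` -/
theorem NK.psiX_deriv_ne_zero (hK : NK P g H) (hG : GeoIn P L g)
    (hW : ∀ t : ℝ, Fl g t → WPath P (gam g) t) (hM : Marks2 L g t1 t3) (x0 : ℝ) {c1 : ℝ}
    (hc : KC P L g H t1 t1 c1) (hc0 : c1 ≠ 0) {y : ℝ} (hy : y ∈ SetY L g t1 t3) :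
    ∃ η > 0, ∀ x ∈ Ioo 0 η, deriv (fun x => PsiX g H t1 t3 x0 x y) x ≠ 0 := by
  obtain ⟨η, hη, h1⟩ := hK.psi_deriv_ne_zero hG hW hM (t1 + x0) (Or.inl ⟨rfl, rfl⟩)
    (hM.polesY hy) hc hc0
  refine ⟨η, hη, fun x hx => ?_⟩
  rw [deriv_psiX]
  refine h1 _ (fun h => by linarith [hx.1]) ?_
  rw [add_sub_cancel_left, abs_of_pos hx.1]
  exact hx.2

/-- logarithm at `x = 0` -/
theorem NK.psiX_log (hK : NK P g H) (hG : GeoIn P L g)
    (hW : ∀ t : ℝ, Fl g t → WPath P (gam g) t) (hM : Marks2 L g t1 t3) {x0 c1 : ℝ}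
    (hc : KC P L g H t1 t1 c1) {K : Set ℝ} (hKc : IsCompact K) (hKy : K ⊆ SetY L g t1 t3)
    (hx0 : x0 ∈ SetX g t1 t3) :
    ∃ η > 0, ∃ B : ℝ, ∀ x ∈ Ioo 0 η, ∀ y ∈ K,
      |PsiX g H t1 t3 x0 x y - Real.pi / 3 * c1 * Real.log x| ≤ B := by
  obtain ⟨η, hη, B, hB⟩ := hK.psi_log hG hW hM (p0 := t1 + x0) (Or.inl ⟨rfl, rfl⟩) hc
    (K := (fun y => t3 + y) '' K) (hKc.image (by fun_prop))
    (by rintro _ ⟨y, hy, rfl⟩; exact hM.polesY (hKy hy)) (hM.polesX hx0)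
    (by rintro ⟨y, hy, h⟩; exact ne_XY hx0 (hKy hy) h.symm)
  refine ⟨η, hη, B, fun x hx y hy => ?_⟩
  have h1 := hB (t3 + y) ⟨y, hy, rfl⟩ (t1 + x) (fun h => by linarith [hx.1])
    (by rw [add_sub_cancel_left, abs_of_pos hx.1]; exact hx.2)
  rwa [add_sub_cancel_left, abs_of_pos hx.1] at h1

/-- logarithm at `y = 0` -/
theorem NK.psiY_log (hK : NK P g H) (hG : GeoIn P L g)
    (hW : ∀ t : ℝ, Fl g t → WPath P (gam g) t) (hM : Marks2 L g t1 t3) {y0 c3 : ℝ}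
    (hc : KC P L g H t1 t3 c3) {K : Set ℝ} (hKc : IsCompact K) (hKx : K ⊆ SetX g t1 t3)
    (hy0 : y0 ∈ SetY L g t1 t3) :
    ∃ η > 0, ∃ B : ℝ, ∀ y ∈ Ioo 0 η, ∀ x ∈ K,
      |PsiY g H t1 t3 y0 x y - Real.pi / 3 * c3 * Real.log y| ≤ B := by
  obtain ⟨η, hη, B, hB⟩ := hK.psi_log hG hW hM (p0 := t3 + y0) (Or.inr ⟨rfl, rfl⟩) hc
    (K := (fun x => t1 + x) '' K) (hKc.image (by fun_prop))
    (by rintro _ ⟨x, hx, rfl⟩; exact hM.polesX (hKx hx)) (hM.polesY hy0)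
    (by rintro ⟨x, hx, h⟩; exact ne_XY (hKx hx) hy0 h)
  refine ⟨η, hη, B, fun y hy x hx => ?_⟩
  have h1 := hB (t1 + x) ⟨x, hx, rfl⟩ (t3 + y) (fun h => by linarith [hy.1])
    (by rw [add_sub_cancel_left, abs_of_pos hy.1]; exact hy.2)
  rwa [add_sub_cancel_left, abs_of_pos hy.1] at h1

/-- uniqueness of both exponents -/
theorem NK.psiXY_unique (hP : MPoly P) {H' : ℝ → ℝ → ℂ → ℝ} (hK : NK P g H) (hK' : NK P g H')
    (hG : GeoIn P L g) (hM : Marks2 L g t1 t3) {c1 c3 : ℝ} (h1 : KC P L g H t1 t1 c1)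
    (h3 : KC P L g H t1 t3 c3) (h1' : KC P L g H' t1 t1 c1) (h3' : KC P L g H' t1 t3 c3)
    {x0 y0 x y : ℝ} (hx0 : x0 ∈ SetX g t1 t3) (hy0 : y0 ∈ SetY L g t1 t3)
    (hx : x ∈ SetX g t1 t3) (hy : y ∈ SetY L g t1 t3) :
    PsiX g H t1 t3 x0 x y = PsiX g H' t1 t3 x0 x y ∧
      PsiY g H t1 t3 y0 x y = PsiY g H' t1 t3 y0 x y :=
  ⟨hK.psi_unique hP hK' hG hM h1 h3 h1' h3' (hM.polesX hx) (hM.polesX hx0) (hM.polesY hy)
      (ne_XY hx hy) (ne_XY hx0 hy),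
    hK.psi_unique hP hK' hG hM h1 h3 h1' h3' (hM.polesY hy) (hM.polesY hy0) (hM.polesX hx)
      (ne_XY hx hy).symm (ne_XY hx hy0).symm⟩

end

end Pool.Agent.SixB
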