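import Pool.Agent.Lib.SixB.CARel
import Pool.Agent.Lib.SixB.S6NK

/-!
# 6BD block CA: `HU u` is a kernel; the relations for `Cxy` in shifted coordinates

`nk_of`: `NK P g (HU u z0 uN)`. `relX`, `relY`: both relations for a limit `C` of `Cxy P g t₁ t₃ n`.
-/

set_option autoImplicit false

namespace Pool.Agent.SixB

open Filter Topology

noncomputable section

variable {P : Finset (ℤ × ℤ)} {L : ℕ} {g : ℤ → ℤ × ℤ} {z0 : ℂ}
  {uN : ℕ → ℤ → ℤ × ℤ → ℝ} {uP : ℕ → ℝ → ℤ → ℤ → ℤ × ℤ → ℝ}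
  {uX : ℕ → ℝ → ℤ → ℤ → ℤ → ℤ → ℤ → ℤ × ℤ → ℝ} {u : Ultrafilter ℕ}

theorem nk_of (hN : NatIn P g z0 uN) (hG : GeoIn P L g) (ex : ExIn P L g uN uP uX)
    (hz0 : z0 ∈ Om P) (hu : (u : Filter ℕ) ≤ atTop) : NK P g (HU u z0 uN) where
  nharm := fun _ _ hs hs' hss => HU_nharm hN hG ex.per hu hs hs' hss
  anti := fun _ _ hs hs' _ hz h1 h2 => HU_anti hN hG ex.per hu hs hs' hz h1 h2
  coc := fun _ _ _ hs hs' hs'' _ hz h1 h2 h3 => HU_coc hN hG ex.per hu hs hs' hs'' hz h1 h2 h3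
  sym := fun _ _ _ _ hs hs' ht ht' _ _ h1 h2 h3 h4 =>
    HU_sym hN hG ex.per ex.symm hu hs hs' ht ht' h1.symm h3.symm h2.symm h4.symm
  growth := fun _ _ hs hs' hss => HU_growth hN hG ex.per hu hs hs' hss
  jcont := fun _ hs' => HU_jcont hN hG ex.per hu hz0 hs'

/-- flat parameters, shifted coordinates -/
def NF0 (g : ℤ → ℤ × ℤ) (t M : ℝ) : Set ℝ := {x | x ∈ Set.Ioo 0 M ∧ ¬ Fl g (t + x)}

theorem mem_flI {t a b x : ℝ} (hx : x ∈ Set.Ioo 0 (b - a) \ NF0 g t (b - a)) (ht : t = a) :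
    t + x ∈ FlI g a b := by
  subst ht
  obtain ⟨⟨h1, h2⟩, h3⟩ := hx
  refine ⟨by linarith, by linarith, ?_⟩
  by_contra hcon
  exact h3 ⟨⟨h1, h2⟩, hcon⟩

theorem Rel.shift {U V : Set ℝ} {Ψ C : ℝ → ℝ → ℝ} {a b : ℝ} (h : Rel U V Ψ C) {U' V' : Set ℝ}
    (hU : ∀ x ∈ U', a + x ∈ U) (hV : ∀ y ∈ V', b + y ∈ V) :
    Rel U' V' (fun x y => Ψ (a + x) (b + y)) (fun x y => C (a + x) (b + y)) := by
  intro x hx x' hx' y y' hyy hsub m M hmM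
  refine h (a + x) (hU x hx) (a + x') (hU x' hx') (b + y) (b + y') (by linarith) ?_ m M ?_
  · intro t ht
    have h1 := hV (t - b) (hsub ⟨by linarith [ht.1], by linarith [ht.2]⟩)
    rwa [add_sub_cancel] at h1
  · intro t ht
    have h1 := hmM (t - b) ⟨by linarith [ht.1], by linarith [ht.2]⟩
    simpa using h1

theorem ix_ratio {n : ℕ} (hn : 0 < n) (k : ℤ) : ix n ((k : ℝ) / n) = k := by
  unfold ix
  have hn' : (n : ℝ) ≠ 0 := by positivity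
  rw [mul_div_cancel₀ _ hn', Int.floor_intCast]

/-- moving last mark -/
theorem cxy_y {M Lr t₁ t₃ : ℝ} (hseq : CrossSeq M Lr (Cxy P g t₁ t₃)) (hu : (u : Filter ℕ) ≤ atTop)
    {C : ℝ → ℝ → ℝ} (hC : ∀ x ∈ Set.Ioo 0 M, ∀ y ∈ Set.Icc 0 Lr,
      Tendsto (fun n => Cxy P g t₁ t₃ n x y) u (𝓝 (C x y))) {x y : ℝ} (hx : x ∈ Set.Ioo 0 M)
    (hy : y ∈ Set.Ioo 0 Lr) {k : ℕ → ℤ} (hk : Tendsto (fun n : ℕ => (k n : ℝ) / n) u (𝓝 (t₃ + y))) :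
    Tendsto (fun n : ℕ => Ct P g n (ix n t₁) (ix n (t₁ + x)) (ix n t₃) (k n) / 2) u (𝓝 (C x y)) := by
  have h0 : Tendsto (fun n : ℕ => (k n : ℝ) / n - t₃) u (𝓝 y) := by
    have := hk.sub_const t₃
    rwa [add_sub_cancel_left] at this
  have h1 : Tendsto (fun n : ℕ => Cxy P g t₁ t₃ n x ((k n : ℝ) / n - t₃) - Cxy P g t₁ t₃ n x y) u
      (𝓝 0) := by
    rw [Metric.tendsto_nhds]
    intro ε hε
    obtain ⟨δ, hδ, N, hN⟩ := hseq.equi2 x hx y ⟨hy.1.le, hy.2.le⟩ (ε / 2) (by positivity)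
    filter_upwards [h0.eventually (Metric.ball_mem_nhds y hδ), h0.eventually (isOpen_Ioo.mem_nhds hy),
      hu (eventually_ge_atTop N)] with n h1 h2 h3
    have h4 := hN n h3 ((k n : ℝ) / n - t₃) ⟨h2.1.le, h2.2.le⟩ (by rwa [← Real.dist_eq])
    rw [Real.dist_eq, sub_zero]
    linarith
  have h2 := h1.add (hC x hx y ⟨hy.1.le, hy.2.le⟩)
  rw [zero_add] at h2
  refine h2.congr' ?_
  filter_upwards [hu (eventually_gt_atTop 0)] with n hn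
  unfold Cxy
  rw [add_sub_cancel, ix_ratio hn]
  ring

/-- moving second mark -/
theorem cxy_x {M Lr t₁ t₃ : ℝ} (hseq : CrossSeq M Lr (Cxy P g t₁ t₃)) (hu : (u : Filter ℕ) ≤ atTop)
    {C : ℝ → ℝ → ℝ} (hC : ∀ x ∈ Set.Ioo 0 M, ∀ y ∈ Set.Icc 0 Lr,
      Tendsto (fun n => Cxy P g t₁ t₃ n x y) u (𝓝 (C x y))) {x y : ℝ} (hx : x ∈ Set.Ioo 0 M)
    (hy : y ∈ Set.Ioo 0 Lr) {k : ℕ → ℤ} (hk : Tendsto (fun n : ℕ => (k n : ℝ) / n) u (𝓝 (t₁ + x))) :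
    Tendsto (fun n : ℕ => Ct P g n (ix n t₁) (k n) (ix n t₃) (ix n (t₃ + y)) / 2) u (𝓝 (C x y)) := by
  have h0 : Tendsto (fun n : ℕ => (k n : ℝ) / n - t₁) u (𝓝 x) := by
    have := hk.sub_const t₁
    rwa [add_sub_cancel_left] at this
  have h1 : Tendsto (fun n : ℕ => Cxy P g t₁ t₃ n ((k n : ℝ) / n - t₁) y - Cxy P g t₁ t₃ n x y) u
      (𝓝 0) := by
    rw [Metric.tendsto_nhds]
    intro ε hε
    obtain ⟨δ, hδ, N, hN⟩ := hseq.equi1 x hx y hy (ε / 2) (by positivity)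
    filter_upwards [h0.eventually (Metric.ball_mem_nhds x hδ), h0.eventually (isOpen_Ioo.mem_nhds hx),
      hu (eventually_ge_atTop N)] with n h1 h2 h3
    have h4 := hN n h3 ((k n : ℝ) / n - t₁) h2 (by rwa [← Real.dist_eq])
    rw [Real.dist_eq, sub_zero]
    linarith
  have h2 := h1.add (hC x hx y ⟨hy.1.le, hy.2.le⟩)
  rw [zero_add] at h2
  refine h2.congr' ?_
  filter_upwards [hu (eventually_gt_atTop 0)] with n hn
  unfold Cxy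
  rw [add_sub_cancel, ix_ratio hn]
  ring

/-- **Relation (R) in `y`.** -/
theorem relX (hG : GeoIn P L g) (hN2 : N2P P) (ex : ExIn P L g uN uP uX)
    (hN : NatIn P g z0 uN) (ti : TiltIn P L g z0 uN uP uX) (hu : (u : Filter ℕ) ≤ atTop)
    {t₁ t₃ : ℝ} (hm : Marks2 L g t₁ t₃) (p0 : ℝ)
    (hseq : CrossSeq (t₃ - t₁) (t₁ + L - t₃) (Cxy P g t₁ t₃)) {C : ℝ → ℝ → ℝ}
    (hC : ∀ x ∈ Set.Ioo 0 (t₃ - t₁), ∀ y ∈ Set.Icc 0 (t₁ + L - t₃),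
      Tendsto (fun n => Cxy P g t₁ t₃ n x y) u (𝓝 (C x y))) :
    Rel (Set.Ioo 0 (t₃ - t₁) \ NF0 g t₁ (t₃ - t₁)) (Set.Ioo 0 (t₁ + L - t₃) \ NF0 g t₃ (t₁ + L - t₃))
      (fun x y => PsiK g (HU u z0 uN) t₁ t₃ p0 (t₁ + x) (t₃ + y)) C := by
  have h1 := rel_abs (C := fun x y => C (x - t₁) (y - t₃)) hG hN2 ex hN ti hu hm.f1 hm.f3 (by
    intro x hx y hy k hk
    have h2 := cxy_y hseq hu hC (x := x - t₁) (y := y - t₃) ⟨by linarith [hx.1], by linarith [hx.2.1]⟩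
      ⟨by linarith [hy.1], by linarith [hy.2.1]⟩ (k := k) (by rwa [add_sub_cancel])
    rwa [add_sub_cancel] at h2)
  have h3 := h1.shift (a := t₁) (b := t₃)
    (U' := Set.Ioo 0 (t₃ - t₁) \ NF0 g t₁ (t₃ - t₁))
    (V' := Set.Ioo 0 (t₁ + L - t₃) \ NF0 g t₃ (t₁ + L - t₃))
    (fun x hx => mem_flI hx rfl) (fun y hy => mem_flI hy rfl)
  simp only [add_sub_cancel_left] at h3
  refine h3.congr ?_
  intro x hx x' hx' y hy
  unfold PsiA PsiK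
  ring

/-- **Relation (R) in `x`.** -/
theorem relY (hG : GeoIn P L g) (hN2 : N2P P) (ex : ExIn P L g uN uP uX)
    (hN : NatIn P g z0 uN) (ti : TiltIn P L g z0 uN uP uX) (hu : (u : Filter ℕ) ≤ atTop)
    (hper : ∀ n : ℕ, 0 < n → ∀ k : ℤ, gr n g (k + (n * L : ℕ)) = gr n g k)
    (hfl : ∀ t : ℝ, Fl g (t + L) ↔ Fl g t)
    {t₁ t₃ : ℝ} (hm : Marks2 L g t₁ t₃) (q0 : ℝ)
    (hseq : CrossSeq (t₃ - t₁) (t₁ + L - t₃) (Cxy P g t₁ t₃)) {C : ℝ → ℝ → ℝ}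
    (hC : ∀ x ∈ Set.Ioo 0 (t₃ - t₁), ∀ y ∈ Set.Icc 0 (t₁ + L - t₃),
      Tendsto (fun n => Cxy P g t₁ t₃ n x y) u (𝓝 (C x y))) :
    Rel (Set.Ioo 0 (t₁ + L - t₃) \ NF0 g t₃ (t₁ + L - t₃)) (Set.Ioo 0 (t₃ - t₁) \ NF0 g t₁ (t₃ - t₁))
      (fun y x => PsiK g (HU u z0 uN) t₁ t₃ q0 (t₃ + y) (t₁ + x)) (fun y x => C x y) := by
  have h1 := rel_abs (C := fun y x => C (x - (t₁ + L)) (y - t₃)) (t₁ := t₃) (t₃ := t₁ + L)
    hG hN2 ex hN ti hu hm.f3 ((hfl t₁).2 hm.f1) (by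
    intro y hy x hx k hk
    have h2 := cxy_x hseq hu hC (x := x - (t₁ + L)) (y := y - t₃)
      ⟨by linarith [hx.1], by linarith [hx.2.1]⟩
      ⟨by linarith [hy.1], by linarith [hy.2.1]⟩ (k := fun n => k n - (n * L : ℕ)) (by
        have h3 : Tendsto (fun n : ℕ => (k n : ℝ) / n - L) u (𝓝 (x - L)) := hk.sub_const _
        rw [show t₁ + (x - (t₁ + L)) = x - L by ring]
        refine h3.congr' ?_
        filter_upwards [hu (eventually_gt_atTop 0)] with n hn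
        have hn' : (n : ℝ) ≠ 0 := by positivity
        push_cast
        field_simp)
    rw [add_sub_cancel] at h2
    refine h2.congr' ?_
    filter_upwards [hu (eventually_gt_atTop 0)] with n hn
    rw [Ct_swap (m := n * L) (hper n hn)]
    have e1 : ix n (t₁ + L) = ix n t₁ + ((n * L : ℕ) : ℤ) := by
      have := ix_shift (L := L) n t₁ 1
      push_cast at this ⊢
      simpa using this
    rw [e1]
    rw [sub_add_cancel])
  have h3 := h1.shift (a := t₃) (b := t₁ + L)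
    (U' := Set.Ioo 0 (t₁ + L - t₃) \ NF0 g t₃ (t₁ + L - t₃))
    (V' := Set.Ioo 0 (t₃ - t₁) \ NF0 g t₁ (t₃ - t₁))
    (fun y hy => mem_flI hy rfl) (fun x hx => by
      have h4 := mem_flI (a := t₁) hx rfl
      refine ⟨by linarith [h4.1], by linarith [h4.2.1], ?_⟩
      rw [show t₁ + (L : ℝ) + x = (t₁ + x) + L by ring]
      exact (hfl _).2 h4.2.2)
  simp only [add_sub_cancel_left] at h3
  refine h3.congr ?_
  intro y hy y' hy' x hx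
  unfold PsiA PsiK
  have e : ∀ s z, HU u z0 uN s (t₁ + L + x) z = HU u z0 uN s (t₁ + x) z := by
    intro s z
    rw [show t₁ + (L : ℝ) + x = (t₁ + x) + L by ring, HU_per' ex.per]
  have e' : ∀ s z, HU u z0 uN (t₁ + L) s z = HU u z0 uN t₁ s z := fun s z => HU_per ex.per t₁ s z
  rw [e, e, e, e, e', e']
  ring

end

end Pool.Agent.SixB
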