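import Pool.Agent.Lib.SixB.CAEnvIn
import Pool.Agent.Lib.SixB.CAEnvE

/-!
# 6BD block CA: the statements of the fields of `EnvLat` for the official functions

`ColF c` (`nC`, `pC`, `xC`), `NnG`, `XpL`, `XpG`.
-/

set_option autoImplicit false

namespace Pool.Agent.SixB

open Filter Topology

noncomputable section

/-- the statement of the fields `nC`, `pC`, `xC` -/
def ColF (c : ℝ) : Prop := ∀ (P : Finset (ℤ × ℤ)) (L : ℕ) (g : ℤ → ℤ × ℤ), MPoly P → Cont P L g →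
  (∀ s : ℝ, Fl g s → ColB (lk s) (fun p => p.1) P (corners P ∪ {gam g s}) c
    (fun p => uN P L g p.1 p.2)) ∧
  (∀ t₂ t₂' : ℝ, t₂ < t₂' → t₂' < t₂ + L → Fl g t₂ → Fl g t₂' → ∀ α ∈ Set.Ioo (0 : ℝ) 1,
    ColB atTop (fun n : ℕ => n) P (corners P ∪ {gam g t₂, gam g t₂'}) c
      (fun n => uP P L g n α (ix n t₂) (ix n t₂'))) ∧
  (∀ t₁ t₂ t₂' t₃ t₄ : ℝ, Marks5 L g t₁ t₂ t₂' t₃ t₄ → ∀ α ∈ Set.Ioo (0 : ℝ) 1,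
    ColB (lk t₄) (fun p => p.1) P (specX P g t₁ t₂ t₂' t₃ t₄) c
      (fun p => uX P L g p.1 α (ix p.1 t₁) (ix p.1 t₂) (ix p.1 t₂') (ix p.1 t₃) p.2))

/-- the statement of the field `nnG` -/
def NnG : Prop := ∀ (P : Finset (ℤ × ℤ)) (L : ℕ) (g : ℤ → ℤ × ℤ), MPoly P → Cont P L g →
  ∀ z0 ∈ Om P, ∀ s s' : ℝ, Fl g s → Fl g s' → ∃ C δ : ℝ, 0 < δ ∧ ∀ z ∈ Cl P, z ≠ gam g s →
    ‖z - gam g s‖ < δ → ∀ᶠ q in lk2 s s',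
      |nz q.1 z0 (fun w => uN P L g q.1 q.2.1 w - uN P L g q.1 q.2.2 w) z| ≤
        C + C * |Real.log ‖z - gam g s‖|

/-- the statement of the field `xpL` -/
def XpL : Prop := ∀ (P : Finset (ℤ × ℤ)) (L : ℕ) (g : ℤ → ℤ × ℤ), MPoly P → Cont P L g →
  ∀ t₁ t₂ t₂' t₃ t₄ : ℝ, Marks5 L g t₁ t₂ t₂' t₃ t₄ → ∀ v : ℂ, v = gam g t₂ ∨ v = gam g t₂' →
    LOsc (lka t₄) (fun q => q.1.1) P
      (fun q w => uX P L g q.1.1 q.2 (ix q.1.1 t₁) (ix q.1.1 t₂) (ix q.1.1 t₂') (ix q.1.1 t₃) q.1.2 w -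
        uP P L g q.1.1 q.2 (ix q.1.1 t₂) (ix q.1.1 t₂') w) v

/-- the statement of the field `xpG` -/
def XpG : Prop := ∀ (P : Finset (ℤ × ℤ)) (L : ℕ) (g : ℤ → ℤ × ℤ), MPoly P → Cont P L g →
  ∀ z0 ∈ Om P, ∀ t₁ t₂ t₂' t₃ t₄ : ℝ, Marks5 L g t₁ t₂ t₂' t₃ t₄ → ∀ α ∈ Set.Ioo (0 : ℝ) 1,
    ∃ C a δ : ℝ, 0 < a ∧ 0 < δ ∧ ∀ z ∈ Cl P, z ≠ gam g t₄ → ‖z - gam g t₄‖ < δ → ∀ᶠ p in lk t₄,
      |nz p.1 z0 (fun w => uX P L g p.1 α (ix p.1 t₁) (ix p.1 t₂) (ix p.1 t₂') (ix p.1 t₃) p.2 w -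
        uP P L g p.1 α (ix p.1 t₂) (ix p.1 t₂') w) z| ≤ C + C * ‖z - gam g t₄‖ ^ (a - 1)

end

end Pool.Agent.SixB
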