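import Pool.Agent.Lib.SixB.S6Defs

/-!
# 6BD block CA: the open region of a polygon is not empty
-/

set_option autoImplicit false

namespace Pool.Agent.SixB

/-- centre of a face -/
noncomputable def ctrF (f : ℤ × ℤ) : ℂ := ⟨(f.1 : ℝ) + 1 / 2, (f.2 : ℝ) + 1 / 2⟩

/-- the centre of a face is in the open region -/
theorem ctrF_mem_Om {P : Finset (ℤ × ℤ)} {f : ℤ × ℤ} (hf : f ∈ P) : ctrF f ∈ Om P := by
  unfold Om
  rw [mem_interior_iff_mem_nhds, Metric.mem_nhds_iff]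
  refine ⟨1 / 2, by norm_num, fun z hz => ?_⟩
  rw [Metric.mem_ball, dist_eq_norm] at hz
  have h1 := (Complex.abs_re_le_norm (z - ctrF f)).trans_lt hz
  have h2 := (Complex.abs_im_le_norm (z - ctrF f)).trans_lt hz
  rw [Complex.sub_re, abs_lt] at h1
  rw [Complex.sub_im, abs_lt] at h2
  have e1 : (ctrF f).re = (f.1 : ℝ) + 1 / 2 := rfl
  have e2 : (ctrF f).im = (f.2 : ℝ) + 1 / 2 := rfl
  rw [e1] at h1
  rw [e2] at h2
  unfold Cl
  simp only [Set.mem_iUnion]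
  exact ⟨f, hf, by constructor <;> [linarith [h1.1]; (refine ⟨by linarith [h1.2], by linarith [h2.1], by linarith [h2.2]⟩)]⟩

theorem MPoly.exists_mem_Om {P : Finset (ℤ × ℤ)} (hP : MPoly P) : ∃ z0 : ℂ, z0 ∈ Om P := by
  obtain ⟨f, hf⟩ := hP.nonempty
  exact ⟨_, ctrF_mem_Om hf⟩

end Pool.Agent.SixB
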