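import Pool.Agent.Lib.SixB.A2Defs

/-!
# Strands in regions above the wall and half boxes (6BD, block S4, row (d))

`S3 x₀ x₁ h a`: the unit edge `a` is on the left, right or top side of the box `[x₀, x₁] × [0, h]`
(not on the wall). `I3 x₀ x₁ h a`: both ends of `a` are in the box. Exits of a strand of a region
above the wall from the box.
-/

set_option autoImplicit false

namespace Pool.Agent.SixB

open Finset Pool.Agent.Perc Pool.Agent.PercD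

namespace Half

/-- The left, right and top side of the box `[x₀, x₁] × [0, h]`. -/
def S3 (x₀ x₁ h : ℤ) (a : UE) : Prop :=
  (a.2.2 = true ∧ 0 ≤ a.2.1 ∧ a.2.1 < h ∧ (a.1 = x₀ ∨ a.1 = x₁)) ∨
    (a.2.2 = false ∧ x₀ ≤ a.1 ∧ a.1 < x₁ ∧ a.2.1 = h)

/-- The unit edges of the closed box. -/
def I3 (x₀ x₁ h : ℤ) (a : UE) : Prop := InR x₀ x₁ 0 h (ua a) ∧ InR x₀ x₁ 0 h (ub a)

/-- The upper half plane. -/
def Up : Set (ℤ × ℤ) := {f | 0 ≤ f.2}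

variable {ω ω' : Cfg} {F F' : Set (ℤ × ℤ)} {x₀ x₁ h y₀ y₁ k : ℤ} {a b e : UE} {f : ℤ × ℤ}

theorem S3.inn (hx : x₀ ≤ x₁) (hh : 0 ≤ h) (ha : S3 x₀ x₁ h a) : I3 x₀ x₁ h a := by
  obtain ⟨x, y, c⟩ := a
  unfold S3 at ha
  unfold I3 InR
  cases c <;> simp only [ua_mk, ub_false, ub_true] at ha ⊢ <;> simp at ha <;> omega

theorem i3_of_side (hf : f ∈ (RF x₀ x₁ 0 h : Set (ℤ × ℤ))) (hs : IsSide f a) : I3 x₀ x₁ h a :=
  ⟨IsCor.inR hf hs.cor.1, IsCor.inR hf hs.cor.2⟩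

/-- A unit edge of the closed box which is a side of a face above the wall off the box. -/
theorem s3_of_side (ha : I3 x₀ x₁ h a) (hs : IsSide f a) (hf : f ∉ (RF x₀ x₁ 0 h : Set (ℤ × ℤ)))
    (hu : 0 ≤ f.2) : S3 x₀ x₁ h a := by
  rw [mem_RF'] at hf
  obtain ⟨x, y⟩ := f
  unfold I3 InR at ha
  unfold S3
  rcases hs with rfl | rfl | rfl | rfl
  · simp only [bo, ua_mk, ub_false] at ha ⊢
    simp at hf hu ⊢
    omega
  · simp only [le', ua_mk, ub_true] at ha ⊢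
    simp at hf hu ⊢
    omega
  · simp only [to', ua_mk, ub_false] at ha ⊢
    simp at hf hu ⊢
    omega
  · simp only [ri, ua_mk, ub_true] at ha ⊢
    simp at hf hu ⊢
    omega

theorem MM_i3 (he : I3 x₀ x₁ h e) (ha : a ∈ MM ω (F ∩ RF x₀ x₁ 0 h) e) : I3 x₀ x₁ h a := by
  induction ha with
  | refl => exact he
  | tail _ hs _ =>
    obtain ⟨f, hf, hm⟩ := hs
    exact i3_of_side hf.2 hm.right

/-- First exit from the box. -/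
theorem first3 (hF : F ⊆ Up) (he : I3 x₀ x₁ h e) (ha : a ∈ MM ω F e) :
    (a ∈ MM ω (F ∩ RF x₀ x₁ 0 h) e ∧ I3 x₀ x₁ h a) ∨
      ∃ b ∈ MM ω (F ∩ RF x₀ x₁ 0 h) e, S3 x₀ x₁ h b := by
  induction ha with
  | refl => exact Or.inl ⟨mem_MM_self, he⟩
  | tail _ hs ih =>
    rename_i b₁ b₂ _
    obtain ⟨f, hf, hm⟩ := hs
    rcases ih with ⟨ih, hi⟩ | ih
    · by_cases hfR : f ∈ (RF x₀ x₁ 0 h : Set (ℤ × ℤ))
      · exact Or.inl ⟨MM_step ⟨hf, hfR⟩ hm ih, i3_of_side hfR hm.right⟩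
      · exact Or.inr ⟨_, ih, s3_of_side hi hm.left hfR (hF hf)⟩
    · exact Or.inr ih

/-- Last exit from the box. -/
theorem last3 (hF : F ⊆ Up) (he : I3 x₀ x₁ h e) (ha : a ∈ MM ω F e) :
    I3 x₀ x₁ h a ∨ ∃ b ∈ MM ω F e, S3 x₀ x₁ h b ∧ a ∈ MM ω (F \ RF x₀ x₁ 0 h) b := by
  induction ha with
  | refl => exact Or.inl he
  | tail hab hs ih =>
    obtain ⟨f, hf, hm⟩ := hs
    by_cases hf' : f ∈ (RF x₀ x₁ 0 h : Set (ℤ × ℤ))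
    · exact Or.inl (i3_of_side hf' hm.right)
    · right
      rcases ih with ih | ⟨b, hb1, hb2, hb3⟩
      · exact ⟨_, hab, s3_of_side ih hm.left hf' (hF hf),
          Relation.ReflTransGen.single ⟨f, ⟨hf, hf'⟩, hm⟩⟩
      · exact ⟨b, hb1, hb2, MM_step ⟨hf, hf'⟩ hm hb3⟩

theorem up_RF (x₀ x₁ h : ℤ) : (RF x₀ x₁ 0 h : Set (ℤ × ℤ)) ⊆ Up := fun f hf => by
  have := mem_RF'.1 hf
  show (0 : ℤ) ≤ f.2
  omega

/-- A side of a larger box which is in the closed box is a side of the box. -/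
theorem s3_of_sub {X₀ X₁ H : ℤ} (h0 : X₀ ≤ x₀) (h1 : x₁ ≤ X₁) (h2 : h ≤ H)
    (ha : S3 X₀ X₁ H a) (hi : I3 x₀ x₁ h a) : S3 x₀ x₁ h a := by
  obtain ⟨x, y, c⟩ := a
  unfold S3 at *
  unfold I3 InR at hi
  cases c
  · simp only [ua_mk, ub_false] at hi
    simp at ha ⊢
    omega
  · simp only [ua_mk, ub_true] at hi
    simp at ha ⊢
    omega

/-- **Crossing of a ring inside a ring.** A strand from the side of the small box `[x₀, x₁] × [0, h]`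
to the side of the big box `[X₀, X₁] × [0, H]` crosses every ring in between. -/
theorem ring {X₀ X₁ H p₀ p₁ s q₀ q₁ t : ℤ} (hx : x₀ ≤ x₁) (hh : 0 ≤ h)
    (hp0 : p₀ ≤ x₀) (hp1 : x₁ ≤ p₁) (hp : h ≤ s)
    (hq0 : X₀ ≤ q₀) (hq1 : q₁ ≤ X₁) (hq : t ≤ H) (hpq0 : q₀ < p₀) (hpq1 : p₁ < q₁) (hpq : s < t)
    (he : S3 x₀ x₁ h e) (ha : a ∈ MM ω (RF X₀ X₁ 0 H \ RF x₀ x₁ 0 h : Set (ℤ × ℤ)) e)
    (hs : S3 X₀ X₁ H a) :
    ∃ b c, b ∈ MM ω (RF X₀ X₁ 0 H \ RF x₀ x₁ 0 h : Set (ℤ × ℤ)) e ∧ S3 p₀ p₁ s b ∧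
      S3 q₀ q₁ t c ∧ c ∈ MM ω (RF q₀ q₁ 0 t \ RF p₀ p₁ 0 s : Set (ℤ × ℤ)) b := by
  set F : Set (ℤ × ℤ) := (RF X₀ X₁ 0 H \ RF x₀ x₁ 0 h : Set (ℤ × ℤ)) with hF
  have hFu : F ⊆ Up := fun f hf => up_RF _ _ _ hf.1
  have hei : I3 p₀ p₁ s e := by
    have := he.inn hx hh
    unfold I3 InR at *
    omega
  rcases last3 hFu hei ha with h4 | ⟨b, hb1, hb2, hb3⟩
  · exfalso
    obtain ⟨x, y, c⟩ := a
    unfold I3 InR at h4
    unfold S3 at hs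
    cases c
    · simp only [ua_mk, ub_false] at h4
      simp at hs
      omega
    · simp only [ua_mk, ub_true] at h4
      simp at hs
      omega
  · have hs0 : 0 ≤ s := by omega
    have hbi : I3 q₀ q₁ t b := by
      have := hb2.inn (by omega) hs0
      unfold I3 InR at *
      omega
    have hFu' : F \ (RF p₀ p₁ 0 s : Set (ℤ × ℤ)) ⊆ Up := fun f hf => hFu hf.1
    have hsub : (F \ (RF p₀ p₁ 0 s : Set (ℤ × ℤ))) ∩ (RF q₀ q₁ 0 t : Set (ℤ × ℤ)) ⊆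
        (RF q₀ q₁ 0 t \ RF p₀ p₁ 0 s : Set (ℤ × ℤ)) := by
      rintro f ⟨⟨-, h5⟩, h6⟩
      exact ⟨h6, h5⟩
    rcases first3 hFu' hbi hb3 with ⟨h5, h6⟩ | ⟨c, h5, h6⟩
    · exact ⟨b, a, hb1, hb2, s3_of_sub hq0 hq1 hq hs h6, MM_mono hsub h5⟩
    · exact ⟨b, c, hb1, hb2, h6, MM_mono hsub h5⟩

/-! ### Comparison with the half annuli of `A2Defs` -/

/-- The half annulus `r : R` above the height of `v`. -/
def HA (v : ℤ × ℤ) (r R : ℤ) : Set (ℤ × ℤ) := {f | f ∈ BR v R ∧ f ∉ BR v r ∧ v.2 ≤ f.2}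

/-- One strand crosses the half annulus. -/
def X1 (v : ℤ × ℤ) (r R : ℤ) : Set Cfg :=
  {ω | ∃ b a : UE, BdR v r b ∧ BdR v R a ∧ a ∈ MM ω (HA v r R) b}

/-- The one leg bound (A1). -/
def OneLeg : Prop := ∃ C : ℝ, 0 < C ∧ ∀ (v : ℤ × ℤ) (r R : ℤ) (W : Finset (ℤ × ℤ)), 1 ≤ r →
  r ≤ R → BR v R ⊆ W → pr W (X1 v r R) ≤ C * ((r : ℝ) / R)

theorem S3.bdR (v : ℤ × ℤ) (hv : v.2 = 0) {r : ℤ} (hr : 0 ≤ r) (ha : S3 (v.1 - r) (v.1 + r) r a) :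
    BdR v r a := by
  obtain ⟨x, y, c⟩ := a
  unfold S3 at ha
  unfold BdR BdE
  cases c
  · simp at ha ⊢
    omega
  · simp at ha ⊢
    omega

theorem ha_eq (v : ℤ × ℤ) (hv : v.2 = 0) {r R : ℤ} :
    (RF (v.1 - R) (v.1 + R) 0 R \ RF (v.1 - r) (v.1 + r) 0 r : Set (ℤ × ℤ)) ⊆ HA v r R := by
  rintro f ⟨h1, h2⟩
  rw [mem_RF'] at h1 h2
  unfold HA
  simp only [Set.mem_ofPred_eq, mem_BR]
  omega

/-- A strand across a ring of boxes crosses the half annuli inside. -/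
theorem x1_of_ring (v : ℤ × ℤ) (hv : v.2 = 0) {X₀ X₁ H r R : ℤ} (hx : x₀ ≤ x₁) (hh : 0 ≤ h)
    (hp0 : v.1 - r ≤ x₀) (hp1 : x₁ ≤ v.1 + r) (hp : h ≤ r) (hq0 : X₀ ≤ v.1 - R)
    (hq1 : v.1 + R ≤ X₁) (hq : R ≤ H) (hrR : r < R)
    (he : S3 x₀ x₁ h e) (ha : a ∈ MM ω (RF X₀ X₁ 0 H \ RF x₀ x₁ 0 h : Set (ℤ × ℤ)) e)
    (hs : S3 X₀ X₁ H a) : ω ∈ X1 v r R := by
  obtain ⟨b, c, -, h2, h3, h4⟩ := ring hx hh hp0 hp1 hp hq0 hq1 hq (by omega) (by omega) hrR he ha hs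
  exact ⟨b, c, h2.bdR v hv (by omega), h3.bdR v hv (by omega), MM_mono (ha_eq v hv) h4⟩

/-- A side of one of the boxes of a ring is a boundary unit edge. -/
theorem bdF_inner {X₀ X₁ H : ℤ} (hx : x₀ < x₁) (hh : 0 < h) (ha : S3 x₀ x₁ h a) :
    PercN.BdF (RF X₀ X₁ 0 H \ RF x₀ x₁ 0 h : Set (ℤ × ℤ)) a := by
  rintro d ⟨h1, h2⟩ ⟨h3, h4⟩
  obtain ⟨x, y, c⟩ := a
  rw [mem_RF'] at h1 h2 h3 h4
  unfold S3 at ha
  cases c <;> cases d <;> simp [Tips.ahead] at * <;> omega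

theorem bdF_outer {X₀ X₁ H : ℤ} (ha : S3 X₀ X₁ H a) :
    PercN.BdF (RF X₀ X₁ 0 H \ RF x₀ x₁ 0 h : Set (ℤ × ℤ)) a := by
  rintro d ⟨h1, h2⟩ ⟨h3, h4⟩
  obtain ⟨x, y, c⟩ := a
  rw [mem_RF'] at h1 h2 h3 h4
  unfold S3 at ha
  cases c <;> cases d <;> simp [Tips.ahead] at * <;> omega

/-- Two different strands across a ring of boxes cross the half annuli inside. -/
theorem x2_of_ring (v : ℤ × ℤ) (hv : v.2 = 0) {X₀ X₁ H r R : ℤ} {e' a' : UE} (hx : x₀ < x₁)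
    (hh : 0 < h)
    (hp0 : v.1 - r ≤ x₀) (hp1 : x₁ ≤ v.1 + r) (hp : h ≤ r) (hq0 : X₀ ≤ v.1 - R)
    (hq1 : v.1 + R ≤ X₁) (hq : R ≤ H) (hrR : r < R) (hne : e ≠ e')
    (he : S3 x₀ x₁ h e) (ha : a ∈ MM ω (RF X₀ X₁ 0 H \ RF x₀ x₁ 0 h : Set (ℤ × ℤ)) e)
    (hs : S3 X₀ X₁ H a)
    (he' : S3 x₀ x₁ h e') (ha' : a' ∈ MM ω (RF X₀ X₁ 0 H \ RF x₀ x₁ 0 h : Set (ℤ × ℤ)) e')
    (hs' : S3 X₀ X₁ H a') : ω ∈ A2.X2 v r R := by
  obtain ⟨b, c, h1, h2, h3, h4⟩ :=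
    ring hx.le hh.le hp0 hp1 hp hq0 hq1 hq (by omega) (by omega) hrR he ha hs
  obtain ⟨b', c', h1', h2', h3', h4'⟩ :=
    ring hx.le hh.le hp0 hp1 hp hq0 hq1 hq (by omega) (by omega) hrR he' ha' hs'
  refine ⟨b, b', c, c', ?_, h2.bdR v hv (by omega), h2'.bdR v hv (by omega),
    h3.bdR v hv (by omega), h3'.bdR v hv (by omega), MM_mono (ha_eq v hv) h4,
    MM_mono (ha_eq v hv) h4'⟩
  rintro rfl
  have k1 : e' ∈ MM ω (RF X₀ X₁ 0 H \ RF x₀ x₁ 0 h : Set (ℤ × ℤ)) e :=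
    MM_trans h1 (MM_symm h1')
  have hne2 : a ≠ e := by
    rintro rfl
    obtain ⟨x, y, c⟩ := a
    unfold S3 at he hs
    cases c <;> simp at he hs <;> omega
  have hne3 : a = e' := PercN.other_unique (bdF_inner hx hh he) ha k1 (bdF_outer hs)
    (bdF_inner hx hh he') hne2 hne.symm
  rw [← hne3] at he'
  obtain ⟨x, y, c⟩ := a
  unfold S3 at he' hs
  cases c <;> simp at he' hs <;> omega

end Half

end Pool.Agent.SixB
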