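import Pool.Agent.Lib.SixB.S4LegGlue
import Pool.Agent.Lib.SixB.S4Half

/-!
# Row T6 (BadDet): a level with a strand which is not good is bad in one of four ways
-/

set_option autoImplicit false

namespace Pool.Agent.SixB.Leg

open Finset Pool.Agent.Perc Pool.Agent.Perc6 Pool.Agent.PercT

namespace BadAux

open GlueAux

variable {ω : Cfg} {F : Set (ℤ × ℤ)} {e a b t : UE}

/-! ### Exits -/

theorem last_exit (L : Set (ℤ × ℤ)) (h : a ∈ MM ω F e) : a ∈ MM ω (F \ L) e ∨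
    ∃ b ∈ MM ω F e, (∃ f ∈ F, f ∈ L ∧ IsSide f b) ∧ a ∈ MM ω (F \ L) b := by
  change Relation.ReflTransGen _ e a at h
  induction h with
  | refl => exact Or.inl mem_MM_self
  | @tail b c hab hs ih =>
    obtain ⟨f, hf, hm⟩ := hs
    by_cases hL : f ∈ L
    · exact Or.inr ⟨c, MM_step hf hm hab, ⟨f, hf, hL, hm.right⟩, mem_MM_self⟩
    · rcases ih with ih | ⟨b', h1, h2, h3⟩
      · exact Or.inl (MM_step ⟨hf, hL⟩ hm ih)
      · exact Or.inr ⟨b', h1, h2, MM_step ⟨hf, hL⟩ hm h3⟩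

theorem first_exit (L : Set (ℤ × ℤ)) (h : a ∈ MM ω F e) : a ∈ MM ω (F ∩ L) e ∨
    ∃ b ∈ MM ω (F ∩ L) e, ∃ f ∈ F, f ∉ L ∧ IsSide f b := by
  change Relation.ReflTransGen _ e a at h
  induction h with
  | refl => exact Or.inl mem_MM_self
  | @tail b c hab hs ih =>
    obtain ⟨f, hf, hm⟩ := hs
    rcases ih with ih | ih
    · by_cases hL : f ∈ L
      · exact Or.inl (MM_step ⟨hf, hL⟩ hm ih)
      · exact Or.inr ⟨b, ih, f, hf, hL, hm.left⟩
    · exact Or.inr ih

/-- A strand is trivial or it starts with a side of a face and ends with a side of a face. -/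
theorem ends_or (h : a ∈ MM ω F e) :
    a = e ∨ (∃ f ∈ F, IsSide f e) ∧ ∃ f ∈ F, IsSide f a := by
  by_cases hae : a = e
  · exact Or.inl hae
  · right
    have h' : Relation.ReflTransGen (fun a a' => ∃ f ∈ F, Mt ω f a a') e a := h
    constructor
    · rcases Relation.ReflTransGen.cases_head h' with h1 | ⟨b, ⟨f, hf, hm⟩, -⟩
      · exact absurd h1.symm hae
      · exact ⟨f, hf, hm.left⟩
    · rcases Relation.ReflTransGen.cases_tail h' with h1 | ⟨b, -, f, hf, hm⟩
      · exact absurd h1 hae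
      · exact ⟨f, hf, hm.right⟩

/-- Leaving `L` for the last time and then `L'` for the first time. -/
theorem cross (L L' : Set (ℤ × ℤ)) (h : t ∈ MM ω F e) (he : ∀ f ∈ F, IsSide f e → f ∈ L)
    (ht : ∀ f ∈ F, IsSide f t → f ∉ L')
    (hsep : ∀ f ∈ L, ∀ g ∉ L', ∀ a, IsSide f a → IsSide g a → False) (hLL : L ⊆ L')
    (hne : t ≠ e) :
    ∃ b c, (∃ f ∈ F, f ∈ L ∧ IsSide f b) ∧ (∃ f ∈ F, f ∉ L ∧ IsSide f b) ∧
      (∃ f ∈ F, f ∈ L' ∧ f ∉ L ∧ IsSide f c) ∧ (∃ f ∈ F, f ∉ L' ∧ IsSide f c) ∧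
      c ∈ MM ω ((F \ L) ∩ L') b := by
  rcases last_exit L h with h1 | ⟨b, hb, ⟨f, hf, hfL, hfs⟩, h2⟩
  · exfalso
    rcases ends_or h1 with h3 | ⟨⟨f, hf, hfs⟩, -⟩
    · exact hne h3
    · exact hf.2 (he f hf.1 hfs)
  · rcases ends_or h2 with h3 | ⟨⟨g, hg, hgs⟩, -⟩
    · exfalso
      subst h3
      exact ht f hf hfs (hLL hfL)
    · rcases first_exit L' h2 with h3 | ⟨c, hc, k, hk, hkL, hks⟩
      · exfalso
        rcases ends_or h3 with h4 | ⟨-, l, hl, hls⟩
        · subst h4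
          exact ht f hf hfs (hLL hfL)
        · exact ht l hl.1.1 hls hl.2
      · rcases ends_or hc with h4 | ⟨-, l, hl, hls⟩
        · subst h4
          exact absurd (hsep f hfL k hkL _ hfs hks) (fun h => h)
        · exact ⟨b, c, ⟨f, hf, hfL, hfs⟩, ⟨g, hg.1, hg.2, hgs⟩,
            ⟨l, hl.1.1, hl.2, hl.1.2, hls⟩, ⟨k, hk.1, hkL, hks⟩, hc⟩

/-- Two faces with a common side. -/
theorem share {f g : ℤ × ℤ} (hf : IsSide f a) (hg : IsSide g a) : f = g ∨
    (g.1 = f.1 + 1 ∧ g.2 = f.2 ∧ a = (g.1, g.2, true)) ∨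
    (f.1 = g.1 + 1 ∧ f.2 = g.2 ∧ a = (f.1, f.2, true)) ∨
    (g.1 = f.1 ∧ g.2 = f.2 + 1 ∧ a = (g.1, g.2, false)) ∨
    (f.1 = g.1 ∧ f.2 = g.2 + 1 ∧ a = (f.1, f.2, false)) := by
  obtain ⟨x, y⟩ := f
  obtain ⟨z, w⟩ := g
  obtain ⟨p, q, b⟩ := a
  unfold IsSide bo le' to' ri at hf hg
  simp only [Prod.mk.injEq] at hf hg ⊢
  cases b
  · simp only [and_true, and_false, or_false, false_or, reduceCtorEq] at hf hg ⊢
    omega
  · simp only [and_true, and_false, or_false, false_or, reduceCtorEq] at hf hg ⊢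
    omega

/-! ### Crossing of columns -/

/-- From the left to the right. -/
theorem cross_right {m X u : ℤ} (hF : ∀ f ∈ F, 0 ≤ f.2 ∧ f.2 < u) (hm : m < X)
    (he : ∀ f ∈ F, IsSide f e → f.1 < m) (he' : ∃ f ∈ F, IsSide f e)
    (ht : ∀ f ∈ F, IsSide f t → X ≤ f.1) (h : t ∈ MM ω F e) : ω ∈ SX m X 0 u := by
  have hne : t ≠ e := by
    rintro rfl
    obtain ⟨f, hf, hfs⟩ := he'
    have := he f hf hfs
    have := ht f hf hfs
    omega
  obtain ⟨b, c, ⟨f, hf, hfL, hfs⟩, ⟨g, hg, hgL, hgs⟩, ⟨k, hk, hkL, -, hks⟩, ⟨l, hl, hlL, hls⟩,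
    hc⟩ := cross {f : ℤ × ℤ | f.1 < m} {f : ℤ × ℤ | f.1 < X} h he
      (fun f hf hfs hn => by
        have := ht f hf hfs
        rw [Set.mem_ofPred_eq] at hn
        omega)
      (fun f hf g hg a h1 h2 => by
        rw [Set.mem_ofPred_eq] at hf hg
        rcases share h1 h2 with h3 | h3 | h3 | h3 | h3
        · rw [h3] at hf
          omega
        all_goals omega)
      (fun f hf => by
        rw [Set.mem_ofPred_eq] at hf ⊢
        omega) hne
  rw [Set.mem_ofPred_eq] at hfL hgL hkL hlL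
  have hb : b = (m, g.2, true) := by
    rcases share hfs hgs with h3 | ⟨h3, h4, h5⟩ | ⟨h3, h4, h5⟩ | ⟨h3, h4, h5⟩ | ⟨h3, h4, h5⟩
    · rw [h3] at hfL
      omega
    · rw [h5, show g.1 = m by omega]
    all_goals omega
  have hcc : c = (X, l.2, true) := by
    rcases share hks hls with h3 | ⟨h3, h4, h5⟩ | ⟨h3, h4, h5⟩ | ⟨h3, h4, h5⟩ | ⟨h3, h4, h5⟩
    · rw [h3] at hkL
      omega
    · rw [h5, show l.1 = X by omega]
    all_goals omega
  have hg2 := hF g hg
  have hl2 := hF l hl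
  refine ⟨g.2, l.2, hg2.1, hg2.2, hl2.1, hl2.2, ?_⟩
  rw [hb, hcc] at hc
  refine MM_mono ?_ hc
  rintro f ⟨⟨hf, h1⟩, h2⟩
  rw [Set.mem_ofPred_eq] at h1 h2
  have := hF f hf
  rw [Finset.mem_coe, PlanarB.mem_RF]
  omega

/-- From the right to the left. -/
theorem cross_left {m X u : ℤ} (hF : ∀ f ∈ F, 0 ≤ f.2 ∧ f.2 < u) (hm : X < m)
    (he : ∀ f ∈ F, IsSide f e → m ≤ f.1) (he' : ∃ f ∈ F, IsSide f e)
    (ht : ∀ f ∈ F, IsSide f t → f.1 < X) (h : t ∈ MM ω F e) : ω ∈ SX X m 0 u := by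
  have hne : t ≠ e := by
    rintro rfl
    obtain ⟨f, hf, hfs⟩ := he'
    have := he f hf hfs
    have := ht f hf hfs
    omega
  obtain ⟨b, c, ⟨f, hf, hfL, hfs⟩, ⟨g, hg, hgL, hgs⟩, ⟨k, hk, hkL, -, hks⟩, ⟨l, hl, hlL, hls⟩,
    hc⟩ := cross {f : ℤ × ℤ | m ≤ f.1} {f : ℤ × ℤ | X ≤ f.1} h he
      (fun f hf hfs hn => by
        have := ht f hf hfs
        rw [Set.mem_ofPred_eq] at hn
        omega)
      (fun f hf g hg a h1 h2 => by
        rw [Set.mem_ofPred_eq] at hf hg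
        rcases share h1 h2 with h3 | h3 | h3 | h3 | h3
        · rw [h3] at hf
          omega
        all_goals omega)
      (fun f hf => by
        rw [Set.mem_ofPred_eq] at hf ⊢
        omega) hne
  rw [Set.mem_ofPred_eq] at hfL hgL hkL hlL
  have hb : b = (m, f.2, true) := by
    rcases share hfs hgs with h3 | ⟨h3, h4, h5⟩ | ⟨h3, h4, h5⟩ | ⟨h3, h4, h5⟩ | ⟨h3, h4, h5⟩
    · rw [h3] at hfL
      omega
    · omega
    · rw [h5, show f.1 = m by omega]
    all_goals omega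
  have hcc : c = (X, k.2, true) := by
    rcases share hks hls with h3 | ⟨h3, h4, h5⟩ | ⟨h3, h4, h5⟩ | ⟨h3, h4, h5⟩ | ⟨h3, h4, h5⟩
    · rw [h3] at hkL
      omega
    · omega
    · rw [h5, show k.1 = X by omega]
    all_goals omega
  have hf2 := hF f hf
  have hk2 := hF k hk
  refine ⟨k.2, f.2, hk2.1, hk2.2, hf2.1, hf2.2, MM_symm ?_⟩
  rw [hb, hcc] at hc
  refine MM_mono ?_ hc
  rintro f ⟨⟨hf, h1⟩, h2⟩
  rw [Set.mem_ofPred_eq] at h1 h2
  have := hF f hf
  rw [Finset.mem_coe, PlanarB.mem_RF]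
  omega

/-- Crossing of the half ring around a corner. -/
theorem cross_corner {x r R : ℤ} (hF : ∀ f ∈ F, 0 ≤ f.2) (hR : r < R)
    (he : ∀ f ∈ F, IsSide f e → x - r ≤ f.1 ∧ f.1 < x + r ∧ f.2 < r)
    (he' : ∃ f ∈ F, IsSide f e)
    (ht : ∀ f ∈ F, IsSide f t → ¬ (x - R ≤ f.1 ∧ f.1 < x + R ∧ f.2 < R))
    (h : t ∈ MM ω F e) : ω ∈ CX x r R := by
  have hne : t ≠ e := by
    rintro rfl
    obtain ⟨f, hf, hfs⟩ := he'
    have := he f hf hfs
    have := ht f hf hfs
    omega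
  obtain ⟨b, c, ⟨f, hf, hfL, hfs⟩, ⟨g, hg, hgL, hgs⟩, ⟨k, hk, hkL, -, hks⟩, ⟨l, hl, hlL, hls⟩,
    hc⟩ := cross {f : ℤ × ℤ | x - r ≤ f.1 ∧ f.1 < x + r ∧ f.2 < r}
      {f : ℤ × ℤ | x - R ≤ f.1 ∧ f.1 < x + R ∧ f.2 < R} h he
      (fun f hf hfs hn => ht f hf hfs hn)
      (fun f hf g hg a h1 h2 => by
        rw [Set.mem_ofPred_eq] at hf hg
        rcases share h1 h2 with h3 | h3 | h3 | h3 | h3
        · rw [h3] at hf
          omega
        all_goals omega)
      (fun f hf => by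
        rw [Set.mem_ofPred_eq] at hf ⊢
        omega) hne
  rw [Set.mem_ofPred_eq] at hfL hgL hkL hlL
  have hf2 := hF f hf
  have hg2 := hF g hg
  have hk2 := hF k hk
  have hl2 := hF l hl
  refine ⟨b, c, ?_, ?_, MM_mono ?_ hc⟩
  · unfold BdE
    rcases share hfs hgs with h3 | ⟨h3, h4, h5⟩ | ⟨h3, h4, h5⟩ | ⟨h3, h4, h5⟩ | ⟨h3, h4, h5⟩
    · rw [h3] at hfL
      omega
    all_goals
      rw [h5]
      simp only [true_and, false_and, or_false, false_or, reduceCtorEq]
      omega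
  · unfold BdE
    rcases share hks hls with h3 | ⟨h3, h4, h5⟩ | ⟨h3, h4, h5⟩ | ⟨h3, h4, h5⟩ | ⟨h3, h4, h5⟩
    · rw [h3] at hkL
      omega
    all_goals
      rw [h5]
      simp only [true_and, false_and, or_false, false_or, reduceCtorEq]
      omega
  · rintro f ⟨⟨hf, h1⟩, h2⟩
    exact ⟨hF f hf, h2, h1⟩

/-! ### The class of a strand -/

/-- The western end of a side of a flat box. -/
def wE (w : ℤ) (a : UE) : ℤ × ℤ := if a.2.2 = true ∧ a.1 = w + 1 then ub a else ua a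

/-- The eastern end. -/
def oE (w : ℤ) (a : UE) : ℤ × ℤ := if a.2.2 = true ∧ a.1 = w + 1 then ua a else ub a

theorem joins_wE (w : ℤ) (a : UE) : Joins a (wE w a) (oE w a) := by
  unfold wE oE
  by_cases h : a.2.2 = true ∧ a.1 = w + 1
  · rw [if_pos h, if_pos h]
    exact Or.inr ⟨rfl, rfl⟩
  · rw [if_neg h, if_neg h]
    exact Or.inl ⟨rfl, rfl⟩

theorem walkV {Φ : ℤ × ℤ → ZMod 2} {x y₀ y₁ : ℤ} (h : y₀ ≤ y₁)
    (hs : ∀ y, y₀ ≤ y → y < y₁ → Φ (x, y) = Φ (x, y + 1)) : Φ (x, y₁) = Φ (x, y₀) := by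
  obtain ⟨n, rfl⟩ := Int.le.dest h
  clear h
  induction n with
  | zero => simp
  | succ n ih =>
    have h1 := ih fun y h1 h2 => hs y h1 (by push_cast; omega)
    have h2 := hs (y₀ + n) (by omega) (by push_cast; omega)
    rw [← h1, h2]
    push_cast
    rw [add_assoc]

theorem walkH {Φ : ℤ × ℤ → ZMod 2} {y x₀ x₁ : ℤ} (h : x₀ ≤ x₁)
    (hs : ∀ x, x₀ ≤ x → x < x₁ → Φ (x, y) = Φ (x + 1, y)) : Φ (x₁, y) = Φ (x₀, y) := by
  obtain ⟨n, rfl⟩ := Int.le.dest h
  clear h
  induction n with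
  | zero => simp
  | succ n ih =>
    have h1 := ih fun x h1 h2 => hs x h1 (by push_cast; omega)
    have h2 := hs (x₀ + n) (by omega) (by push_cast; omega)
    rw [← h1, h2]
    push_cast
    rw [add_assoc]

/-- Along the sides of a box from the western corner to the western end of `e₀`. -/
theorem side_walk {Φ : ℤ × ℤ → ZMod 2} {w h : ℤ} (hw : 0 ≤ w) (hh : 0 ≤ h) {e₀ : UE}
    (he₀ : BdF w h e₀) (hΦ : ∀ a, BdF w h a → a ≠ e₀ → Φ (ua a) = Φ (ub a)) :
    Φ (wE w e₀) = Φ (-w, 0) := by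
  have left : ∀ y₁, 0 ≤ y₁ → y₁ ≤ h → (∀ y, 0 ≤ y → y < y₁ → ((-w, y, true) : UE) ≠ e₀) →
      Φ (-w, y₁) = Φ (-w, 0) := by
    intro y₁ h0 h1 h2
    refine walkV h0 fun y h3 h4 => ?_
    have h5 := hΦ (-w, y, true) (Or.inl ⟨rfl, Or.inl rfl, h3, by simp only; omega⟩) (h2 y h3 h4)
    rwa [ua_mk, ub_true] at h5
  have top : ∀ x₁, -w ≤ x₁ → x₁ ≤ w + 1 → (∀ x, -w ≤ x → x < x₁ → ((x, h, false) : UE) ≠ e₀) →
      Φ (x₁, h) = Φ (-w, h) := by
    intro x₁ h0 h1 h2
    refine walkH h0 fun x h3 h4 => ?_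
    have h5 := hΦ (x, h, false) (Or.inr ⟨rfl, rfl, h3, by simp only; omega⟩) (h2 x h3 h4)
    rwa [ua_mk, ub_false] at h5
  obtain ⟨x, y, b⟩ := e₀
  rcases he₀ with ⟨hb, h1, h2, h3⟩ | ⟨hb, h1, h2, h3⟩
  · simp only at hb h1 h2 h3
    subst hb
    rcases h1 with rfl | rfl
    · have e1 : wE w (-w, y, true) = (-w, y) := by
        unfold wE
        rw [if_neg (by simp only; omega)]
        rfl
      rw [e1]
      refine left y h2 h3.le fun z h4 h5 => ?_
      simp only [ne_eq, Prod.mk.injEq]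
      omega
    · have e1 : wE w (w + 1, y, true) = (w + 1, y + 1) := by
        unfold wE
        rw [if_pos ⟨rfl, rfl⟩, ub_true]
      rw [e1, ← left h hh le_rfl fun z h4 h5 => by simp only [ne_eq, Prod.mk.injEq]; omega,
        ← top (w + 1) (by omega) le_rfl fun z h4 h5 => by simp]
      refine (walkV (Φ := Φ) (x := w + 1) (y₀ := y + 1) (y₁ := h) (by omega) fun z h4 h5 => ?_).symm
      have h6 := hΦ (w + 1, z, true) (Or.inl ⟨rfl, Or.inr rfl, by simp only; omega,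
        by simp only; omega⟩) (by simp only [ne_eq, Prod.mk.injEq]; omega)
      rwa [ua_mk, ub_true] at h6
  · simp only at hb h1 h2 h3
    subst hb
    subst h1
    have e1 : wE w (x, y, false) = (x, y) := by
      unfold wE
      rw [if_neg (by simp)]
      rfl
    rw [e1, ← left y hh le_rfl fun z h4 h5 => by simp]
    refine top x h2 h3.le fun z h4 h5 => ?_
    simp only [ne_eq, Prod.mk.injEq]
    omega

/-- The ring between two flat boxes. -/
def Rg (w h w' h' : ℤ) : Set (ℤ × ℤ) := {f | f ∈ FB w' h' ∧ f ∉ FB w h}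

theorem mem_Rg {w h w' h' : ℤ} {f : ℤ × ℤ} : f ∈ Rg w h w' h' ↔
    (-w' ≤ f.1 ∧ f.1 ≤ w' ∧ 0 ≤ f.2 ∧ f.2 < h') ∧
      ¬ (-w ≤ f.1 ∧ f.1 ≤ w ∧ 0 ≤ f.2 ∧ f.2 < h) := by
  unfold Rg
  rw [Set.mem_ofPred_eq, mem_FB, mem_FB]

theorem Rg_eq (w h w' h' : ℤ) : Rg w h w' h' = BoxD (-w') (w' + 1) h' (-w) (w + 1) h := by
  ext f
  rw [mem_Rg]
  unfold BoxD
  rw [Set.mem_ofPred_eq]
  omega

/-- The western ends of the two ends of a crossing strand have the same colour. -/
theorem class_eq {w h w' h' : ℤ} (hw : 0 ≤ w) (hh : 1 ≤ h) (hww : w < w') (hhh : h < h')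
    (he : BdF w h e) (ht : BdF w' h' t) (hm : t ∈ MM ω (Rg w h w' h') e) :
    par (wE w e) = par (wE w' t) := by
  have hne : t ≠ e := by
    rintro rfl
    unfold BdF at he ht
    rcases he with he | he <;> rcases ht with ht | ht
    · omega
    · rw [he.1] at ht
      exact absurd ht.1 (by decide)
    · rw [he.1] at ht
      exact absurd ht.1 (by decide)
    · omega
  have inn : ∀ a, BdF w h a → BdU (Rg w h w' h') a := by
    intro a ha
    obtain ⟨f, g, hf, hg, f1, f2, g1, g2⟩ := sides hw hh ha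
    exact ⟨⟨g, by rw [mem_Rg]; omega, hg⟩, f, by rw [mem_Rg]; omega, hf⟩
  have out : ∀ a, BdF w' h' a → BdU (Rg w h w' h') a := by
    intro a ha
    obtain ⟨f, g, hf, hg, f1, f2, g1, g2⟩ := sides (by omega) (by omega) ha
    exact ⟨⟨f, by rw [mem_Rg]; omega, hf⟩, g, by rw [mem_Rg]; omega, hg⟩
  obtain ⟨Φ, hP⟩ : ∃ Φ, IsPot (Rg w h w' h') (MM ω (Rg w h w' h') e) Φ := by
    refine (?_ : HasPot (Rg w h w' h')) _ fun f hf => evenAt_MM hf
    rw [Rg_eq]
    exact hasPot_boxD _ _ _ _ _ _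
  have const : ∀ a, BdU (Rg w h w' h') a → a ≠ e → a ≠ t → Φ (ua a) = Φ (ub a) := by
    intro a ha h1 h2
    by_contra h3
    obtain ⟨f, hf, hfs⟩ := ha.1
    have h4 := (hP.joins hf hfs (Or.inl ⟨rfl, rfl⟩)).2 h3
    exact h2 (bdU_unique (inn e he) h4 hm ha (out t ht) h1 hne)
  have p1 := side_walk (Φ := Φ) hw (by omega) he fun a ha h1 => const a (inn a ha) h1 (by
    rintro rfl
    unfold BdF at ha ht
    rcases ha with ha | ha <;> rcases ht with ht | ht
    · omega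
    · rw [ha.1] at ht
      exact absurd ht.1 (by decide)
    · rw [ha.1] at ht
      exact absurd ht.1 (by decide)
    · omega)
  have p2 := side_walk (Φ := Φ) (by omega) (by omega) ht fun a ha h1 => const a (out a ha) (by
    rintro rfl
    unfold BdF at he ha
    rcases he with he | he <;> rcases ha with ha | ha
    · omega
    · rw [he.1] at ha
      exact absurd ha.1 (by decide)
    · rw [he.1] at ha
      exact absurd ha.1 (by decide)
    · omega) h1
  have p3 : Φ (-w, 0) = Φ (-w', 0) := by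
    refine walkH (by omega) fun x h1 h2 => ?_
    have h3 := const (x, 0, false) ⟨⟨(x, 0), by rw [mem_Rg]; simp only; omega, Or.inl rfl⟩,
      (x, -1), by rw [mem_Rg]; simp only; omega, by
        right; right; left
        simp [to']⟩ (by
        rintro rfl
        rcases he with ⟨hb, -⟩ | ⟨-, h4, -⟩
        · simp at hb
        · simp only at h4
          omega) (by
        rintro rfl
        rcases ht with ⟨hb, -⟩ | ⟨-, h4, -⟩
        · simp at hb
        · simp only at h4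
          omega)
    rwa [ua_mk, ub_false] at h3
  by_contra hpar
  have hj := joins_wE w' t
  have hj0 := joins_wE w e
  have h1 : par (oE w' t) = par (wE w e) := by
    have e1 := hj.par_ne
    have e2 := par_cases (oE w' t)
    have e3 := par_cases (wE w' t)
    have e4 := par_cases (wE w e)
    omega
  have h2 := hP.mm hj0 hm hj.symm h1
  have h3 := hP.ne hj0 (inn e he).1
  rw [p2, ← p3, ← p1] at h2
  exact h3 h2.2

/-! ### Levels -/

theorem HR_ring (a b : ℤ) : HR a b = Rg a a b b := rfl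

theorem RI_ring (v : Lev) : RI v = Rg v.a v.a v.s v.u := rfl

theorem RO_ring (v : Lev) : RO v = Rg v.q (4 * v.u) v.b' v.b' := rfl

theorem s3_iff {w h : ℤ} {a : UE} : BdF w h a ↔ Half.S3 (-w) (w + 1) h a := by
  unfold BdF Half.S3
  constructor
  · rintro (⟨h1, h2, h3, h4⟩ | ⟨h1, h2, h3, h4⟩)
    · exact Or.inl ⟨h1, h3, h4, h2⟩
    · exact Or.inr ⟨h1, h3, h4, h2⟩
  · rintro (⟨h1, h2, h3, h4⟩ | ⟨h1, h2, h3, h4⟩)
    · exact Or.inl ⟨h1, h4, h2, h3⟩
    · exact Or.inr ⟨h1, h4, h2, h3⟩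

theorem HR_set (a b : ℤ) :
    HR a b = (RF (-b) (b + 1) 0 b \ RF (-a) (a + 1) 0 a : Set (ℤ × ℤ)) := by
  ext f
  rw [mem_HR, Set.mem_sdiff, Finset.mem_coe, Finset.mem_coe, PlanarB.mem_RF, PlanarB.mem_RF]
  omega

/-- A crossing strand crosses the smaller rings. -/
theorem lg_sub {a b p q : ℤ} (ha : 1 ≤ a) (hap : a ≤ p) (hpq : p < q) (hqb : q ≤ b)
    (he : BdH a e) (ht : BdH b t) (hm : t ∈ MM ω (HR a b) e) : ω ∈ Lg p q := by
  rw [HR_set] at hm
  obtain ⟨x, y, -, h2, h3, h4⟩ := Half.ring (p₀ := -p) (p₁ := p + 1) (s := p) (q₀ := -q)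
    (q₁ := q + 1) (t := q) (by omega) (by omega) (by omega) (by omega) hap (by omega) (by omega)
    hqb (by omega) (by omega) hpq (s3_iff.1 he) hm (s3_iff.1 ht)
  rw [← HR_set] at h4
  exact lg_of_mem ⟨s3_iff.2 h2, y, s3_iff.2 h3, h4⟩

/-- The first exit of a strand from a flat box. -/
theorem exit_box {a b w h : ℤ} (hab : a < b) (hwb : w < b) (hhb : h < b) (haw : a < w)
    (hah : a < h) (ha : 1 ≤ a) (he : BdH a e) (ht : BdH b t) (hm : t ∈ MM ω (HR a b) e) :
    ∃ c, BdF w h c ∧ c ∈ MM ω (Rg a a w h) e := by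
  obtain ⟨f, g, hf, hg, f1, f2, g1, g2⟩ := sides (by omega) ha he
  obtain ⟨k, l, hk, hl, k1, k2, l1, l2⟩ := sides (w := b) (h := b) (by omega) (by omega) ht
  have hsub : HR a b ∩ (FB w h : Set (ℤ × ℤ)) ⊆ Rg a a w h := by
    rintro x ⟨h1, h2⟩
    exact ⟨Finset.mem_coe.1 h2, h1.2⟩
  have hne := bd_ne (by omega) hab he ht
  rcases first_exit (FB w h : Set (ℤ × ℤ)) hm with h1 | ⟨c, hc, x, hx, hxL, hxs⟩
  · exfalso
    rcases ends_or h1 with h2 | ⟨-, x, hx, hxs⟩
    · exact hne h2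
    · have hx1 := hx.1
      have hx2 := Finset.mem_coe.1 hx.2
      rw [mem_HR] at hx1
      rw [mem_FB] at hx2
      rcases three_sides hxs hk hl with h3 | h3 | h3
      · rw [h3] at hx2
        omega
      · rw [h3] at hx1
        omega
      · rw [h3] at k1
        omega
  · refine ⟨c, ?_, MM_mono hsub hc⟩
    rcases ends_or hc with h2 | ⟨-, y, hy, hys⟩
    · exfalso
      subst h2
      rw [Finset.mem_coe, mem_FB] at hxL
      rw [mem_HR] at hx
      rcases three_sides hxs hf hg with h3 | h3 | h3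
      · rw [h3] at hx
        omega
      · rw [h3] at hxL
        omega
      · rw [h3] at f1
        omega
    · have hy2 := Finset.mem_coe.1 hy.2
      rw [mem_FB] at hy2
      rw [Finset.mem_coe, mem_FB] at hxL
      rw [mem_HR] at hx
      unfold BdF
      rcases share hys hxs with h3 | ⟨h3, h4, h5⟩ | ⟨h3, h4, h5⟩ | ⟨h3, h4, h5⟩ | ⟨h3, h4, h5⟩
      · rw [h3] at hy2
        omega
      all_goals
        rw [h5]
        simp only [true_and, false_and, or_false, false_or, reduceCtorEq]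
        omega

/-- The first entrance of a strand, read from outside, in a flat box. -/
theorem enter_box {a b w h : ℤ} (hab : a < b) (hwb : w < b) (hhb : h < b) (haw : a < w)
    (hah : a < h) (ha : 1 ≤ a) (he : BdH a e) (ht : BdH b t) (hm : t ∈ MM ω (HR a b) e) :
    ∃ c, BdF w h c ∧ c ∈ MM ω (Rg w h b b) t := by
  obtain ⟨f, g, hf, hg, f1, f2, g1, g2⟩ := sides (by omega) ha he
  obtain ⟨k, l, hk, hl, k1, k2, l1, l2⟩ := sides (w := b) (h := b) (by omega) (by omega) ht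
  have hsub : HR a b ∩ (FB w h : Set (ℤ × ℤ))ᶜ ⊆ Rg w h b b := by
    rintro x ⟨h1, h2⟩
    exact ⟨h1.1, fun h3 => h2 (Finset.mem_coe.2 h3)⟩
  have hne := bd_ne (by omega) hab he ht
  rcases first_exit (FB w h : Set (ℤ × ℤ))ᶜ (MM_symm hm) with h1 | ⟨c, hc, x, hx, hxL, hxs⟩
  · exfalso
    rcases ends_or h1 with h2 | ⟨-, x, hx, hxs⟩
    · exact hne h2.symm
    · have hx1 := hx.1
      have hx2 : x ∉ FB w h := fun h3 => hx.2 (Finset.mem_coe.2 h3)
      rw [mem_HR] at hx1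
      rw [mem_FB] at hx2
      rcases three_sides hxs hf hg with h3 | h3 | h3
      · rw [h3] at hx1
        omega
      · rw [h3] at hx2
        omega
      · rw [h3] at f1
        omega
  · refine ⟨c, ?_, MM_mono hsub hc⟩
    have hxL' : x ∈ FB w h := by
      by_contra h3
      exact hxL fun h4 => h3 (Finset.mem_coe.1 h4)
    rcases ends_or hc with h2 | ⟨-, y, hy, hys⟩
    · exfalso
      subst h2
      rw [mem_FB] at hxL'
      rcases three_sides hxs hk hl with h3 | h3 | h3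
      · rw [h3] at hxL'
        omega
      · rw [h3] at hxL'
        omega
      · rw [h3] at k1
        omega
    · have hy2 : y ∉ FB w h := fun h3 => hy.2 (Finset.mem_coe.2 h3)
      have hy1 := hy.1
      rw [mem_FB] at hy2
      rw [mem_FB] at hxL'
      rw [mem_HR] at hy1
      unfold BdF
      rcases share hys hxs with h3 | ⟨h3, h4, h5⟩ | ⟨h3, h4, h5⟩ | ⟨h3, h4, h5⟩ | ⟨h3, h4, h5⟩
      · rw [h3] at hy2
        omega
      all_goals
        rw [h5]
        simp only [true_and, false_and, or_false, false_or, reduceCtorEq]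
        omega

end BadAux

open BadAux GlueAux in
/-- **Row T6.** -/
theorem badDet : BadDet := by
  intro v hv ω hω
  obtain ⟨hG, hnG⟩ := hω
  obtain ⟨ha, hb, hu, hs, hq, ha', hb'⟩ := hv
  -- the strand
  have h0 : (Crs ω v.a v.b').Nonempty := by
    by_contra h1
    rw [Set.not_nonempty_iff_eq_empty] at h1
    have h2 : 1 ≤ (Crs ω v.a v.b').ncard := hG
    rw [h1, Set.ncard_empty] at h2
    omega
  obtain ⟨e, he, t, ht, hm⟩ := h0
  have lg : ∀ p q : ℤ, v.a ≤ p → p < q → q ≤ v.b' → ω ∈ Lg p q := fun p q h1 h2 h3 =>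
    lg_sub ha h1 h2 h3 he ht hm
  by_contra hbad
  simp only [Set.mem_union, not_or] at hbad
  obtain ⟨⟨⟨hb1, hb2⟩, hb3⟩, hb4⟩ := hbad
  have n1 : nH ω v.a v.b = 1 := by
    have h1 : 1 ≤ nH ω v.a v.b := lg v.a v.b le_rfl (by omega) (by omega)
    by_contra h2
    exact hb1 ⟨(by omega : 2 ≤ nH ω v.a v.b), lg _ _ (by omega) (by omega) le_rfl⟩
  have n2 : nH ω v.a' v.b' = 1 := by
    have h1 : 1 ≤ nH ω v.a' v.b' := lg v.a' v.b' (by omega) (by omega) le_rfl
    by_contra h2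
    exact hb2 ⟨(by omega : 2 ≤ nH ω v.a' v.b'), lg _ _ le_rfl (by omega) (by omega)⟩
  -- the ends in the small rings
  obtain ⟨e₁, he₁, hm₁⟩ := exit_box (w := v.b) (h := v.b) (by omega) (by omega) (by omega)
    (by omega) (by omega) ha he ht hm
  obtain ⟨t₁, ht₁, hm₂⟩ := enter_box (w := v.a') (h := v.a') (by omega) (by omega) (by omega)
    (by omega) (by omega) ha he ht hm
  have hcr : e ∈ Crs ω v.a v.b := ⟨he, e₁, he₁, hm₁⟩
  have hcrO : t ∈ CrsO ω v.a' v.b' := ⟨ht, t₁, ht₁, MM_symm hm₂⟩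
  -- the tips
  obtain ⟨c, hc, hmc⟩ := exit_box (w := v.s) (h := v.u) (by omega) (by omega) (by omega)
    (by omega) (by omega) ha he ht hm
  obtain ⟨d, hd, hmd⟩ := enter_box (w := v.q) (h := 4 * v.u) (by omega) (by omega) (by omega)
    (by omega) (by omega) ha he ht hm
  obtain ⟨f, g, hf, hg, f1, f2, g1, g2⟩ := sides (by omega) ha he
  obtain ⟨k, l, hk, hl, k1, k2, l1, l2⟩ := sides (w := v.b') (h := v.b') (by omega) (by omega) ht
  -- the inner tip is good
  have hRI : ∀ x ∈ Rg v.a v.a v.s v.u, 0 ≤ x.2 ∧ x.2 < v.u := fun x hx => by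
    rw [mem_Rg] at hx
    omega
  have hes : ∀ x ∈ Rg v.a v.a v.s v.u, IsSide x e → x = g := fun x hx hxs => by
    rcases three_sides hf hg hxs with h3 | h3 | h3
    · rw [h3] at f1
      omega
    · rw [mem_Rg, ← h3] at hx
      omega
    · exact h3.symm
  have hgR : g ∈ Rg v.a v.a v.s v.u := by
    rw [mem_Rg]
    omega
  have hci : c.2.2 = false ∧ |2 * c.1| ≤ v.s := by
    by_contra hcon
    apply hb3
    refine ⟨⟨lg _ _ le_rfl (by omega) (by omega), lg _ _ (by omega) (by omega) le_rfl⟩, ?_⟩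
    obtain ⟨x, y, z⟩ := c
    have hcase : (2 * x > v.s ∨ 2 * x < -v.s) := by
      rcases hc with ⟨h1, h2, h3, h4⟩ | ⟨h1, h2, h3, h4⟩
      · simp only at h2
        omega
      · simp only at h1 h2 h3 h4 hcon
        by_contra h5
        exact hcon ⟨h1, by rw [abs_le]; omega⟩
    have hside : ∀ f' : ℤ × ℤ, IsSide f' ((x, y, z) : UE) → f' ∈ Rg v.a v.a v.s v.u →
        (z = true → (f'.1 = x ∨ f'.1 = x - 1)) ∧ (z = false → f'.1 = x) := by
      intro f' h1 _
      obtain ⟨p, q⟩ := f'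
      unfold IsSide bo le' to' ri at h1
      simp only [Prod.mk.injEq] at h1
      rcases h1 with ⟨h1, h2, h3⟩ | ⟨h1, h2, h3⟩ | ⟨h1, h2, h3⟩ | ⟨h1, h2, h3⟩ <;> subst h3 <;>
        simp only [true_implies, false_implies, reduceCtorEq, and_true, true_and] <;> omega
    rcases hcase with hcase | hcase
    · left
      refine cross_right (F := Rg v.a v.a v.s v.u) hRI (by omega) ?_ ⟨g, hgR, hg⟩ ?_ hmc
      · intro f' h1 h2
        rw [hes f' h1 h2]
        omega
      · intro f' h1 h2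
        have h3 := hside f' h2 h1
        rcases hc with ⟨h4, h5, h6, h7⟩ | ⟨h4, h5, h6, h7⟩
        · simp only at h4 h5
          have := h3.1 h4
          omega
        · simp only at h4
          have := h3.2 h4
          omega
    · right
      refine cross_left (F := Rg v.a v.a v.s v.u) hRI (by omega) ?_ ⟨g, hgR, hg⟩ ?_ hmc
      · intro f' h1 h2
        rw [hes f' h1 h2]
        omega
      · intro f' h1 h2
        have h3 := hside f' h2 h1
        rcases hc with ⟨h4, h5, h6, h7⟩ | ⟨h4, h5, h6, h7⟩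
        · simp only at h4 h5
          have := h3.1 h4
          omega
        · simp only at h4
          have := h3.2 h4
          omega
  -- the outer tip is good
  have hts : ∀ x ∈ Rg v.q (4 * v.u) v.b' v.b', IsSide x t → x = k := fun x hx hxs => by
    rcases three_sides hk hl hxs with h3 | h3 | h3
    · rw [h3] at k1
      omega
    · exact h3.symm
    · rw [mem_Rg, ← h3] at hx
      omega
  have hdo : d.2.2 = false ∧ |d.1| ≤ v.q - 8 * v.u := by
    by_contra hcon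
    apply hb4
    refine ⟨⟨lg _ _ le_rfl (by omega) (by omega), lg _ _ (by omega) (by omega) le_rfl⟩, ?_⟩
    obtain ⟨x, y, z⟩ := d
    have hcase : (x > v.q - 8 * v.u ∧ x ≤ v.q + 1) ∨ (x < -(v.q - 8 * v.u) ∧ -v.q ≤ x) := by
      rcases hd with ⟨h1, h2, h3, h4⟩ | ⟨h1, h2, h3, h4⟩
      · simp only at h2
        omega
      · simp only at h1 h2 h3 h4 hcon
        by_contra h5
        exact hcon ⟨h1, by rw [abs_le]; omega⟩
    have hy : 0 ≤ y ∧ y ≤ 4 * v.u := by
      rcases hd with ⟨h1, h2, h3, h4⟩ | ⟨h1, h2, h3, h4⟩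
      · simp only at h3 h4
        omega
      · simp only at h2
        omega
    have hside : ∀ f' : ℤ × ℤ, IsSide f' ((x, y, z) : UE) →
        (f'.1 = x ∨ f'.1 = x - 1) ∧ (f'.2 = y ∨ f'.2 = y - 1) := by
      intro f' h1
      obtain ⟨p, q⟩ := f'
      unfold IsSide bo le' to' ri at h1
      simp only [Prod.mk.injEq] at h1
      omega
    have hq12 : 12 * v.u < v.q / 2 := by omega
    have hdR : ∃ f' ∈ Rg v.q (4 * v.u) v.b' v.b', IsSide f' ((x, y, z) : UE) := by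
      obtain ⟨f', g', hf', hg', f1', f2', g1', g2'⟩ := sides (by omega) (by omega) hd
      exact ⟨g', by rw [mem_Rg]; omega, hg'⟩
    rcases hcase with hcase | hcase
    · left
      refine cross_corner (F := Rg v.q (4 * v.u) v.b' v.b') (fun f' h1 => by
        rw [mem_Rg] at h1; omega) hq12 ?_ hdR ?_ (MM_symm hmd)
      · intro f' _ h2
        have := hside f' h2
        omega
      · intro f' h1 h2
        rw [hts f' h1 h2]
        omega
    · right
      refine cross_corner (F := Rg v.q (4 * v.u) v.b' v.b') (fun f' h1 => by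
        rw [mem_Rg] at h1; omega) hq12 ?_ hdR ?_ (MM_symm hmd)
      · intro f' _ h2
        have := hside f' h2
        omega
      · intro f' h1 h2
        rw [hts f' h1 h2]
        omega
  -- the classes
  have c1 := class_eq (by omega) ha (by omega) (by omega) he hc hmc
  have c2 := class_eq (w := v.q) (h := 4 * v.u) (by omega) (by omega) (by omega) (by omega) hd ht
    (MM_symm hmd)
  have c3 := class_eq (by omega) ha (by omega) (by omega) he ht hm
  obtain ⟨p, y, z⟩ := c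
  obtain ⟨p', y', z'⟩ := d
  simp only at hci hdo
  obtain ⟨rfl, hp⟩ := hci
  obtain ⟨rfl, hp'⟩ := hdo
  have hy : y = v.u := by
    rcases hc with ⟨h1, -⟩ | ⟨-, h1, -⟩
    · simp at h1
    · exact h1
  have hy' : y' = 4 * v.u := by
    rcases hd with ⟨h1, -⟩ | ⟨-, h1, -⟩
    · simp at h1
    · exact h1
  subst hy
  subst hy'
  have w1 : wE v.s ((p, v.u, false) : UE) = (p, v.u) := by
    unfold wE
    rw [if_neg (by simp)]
    rfl
  have w2 : wE v.q ((p', 4 * v.u, false) : UE) = (p', 4 * v.u) := by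
    unfold wE
    rw [if_neg (by simp)]
    rfl
  rw [w1] at c1
  rw [w2, ← c3, c1] at c2
  refine hnG ⟨n1, n2, p, p', ⟨?_, e, hcr, hmc⟩, ⟨?_, t, hcrO, hmd⟩, hp, hp', ?_⟩
  · rw [abs_le] at hp
    omega
  · rw [abs_le] at hp'
    omega
  · unfold par at c2
    simp only at c2
    omega

end Pool.Agent.SixB.Leg
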