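import Pool.Agent.Lib.SixB.S4LegBasic

/-!
# 6BD step 4, one leg: rows Mono, Det and Mes
-/

set_option autoImplicit false

namespace Pool.Agent.SixB.Leg

open Finset Pool.Agent.Perc Pool.Agent.PercT Pool.Agent.PercD Pool.Agent.Perc6

variable {ω ω' : Cfg} {e a t : UE} {f : ℤ × ℤ}

/-! ## Mono -/

theorem Crs_sub {r b R : ℤ} (hr : 1 ≤ r) (hb : r < b) (hR : b ≤ R) : Crs ω r R ⊆ Crs ω r b := by
  rintro e ⟨he, t, ht, h⟩
  obtain ⟨e₁, t₁, h1, h2, h3, h4, h5, h6⟩ := cross_sub hr le_rfl hb hR he ht h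
  exact ⟨he, t₁, h2, h5⟩

theorem exists_crs {r a b R : ℤ} (hr : 1 ≤ r) (hra : r ≤ a) (hab : a < b) (hbR : b ≤ R)
    (he : e ∈ Crs ω r R) : ∃ e₁ ∈ Crs ω a b, e₁ ∈ MM ω (HR r b) e := by
  obtain ⟨he, t, ht, h⟩ := he
  obtain ⟨e₁, t₁, h1, h2, h3, h4, h5, h6⟩ := cross_sub hr hra hab hbR he ht h
  exact ⟨e₁, ⟨h1, t₁, h2, h3⟩, h4⟩

theorem mono : Mono := by
  intro ω r a b R hr hra hab hbR
  refine ⟨Set.ncard_le_ncard (Crs_sub hr (by omega) hbR) (Crs_finite ω r b), ?_⟩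
  rw [one_le_nH, one_le_nH]
  rintro ⟨e, he⟩
  obtain ⟨e₁, h1, -⟩ := exists_crs hr hra hab hbR he
  exact ⟨e₁, h1⟩

/-! ## Det -/

theorem det : Det := by
  intro ω r a b a' b' R hr hra hab hba hab' hbR h1 h2
  obtain ⟨e₁, hc1⟩ := nH_eq_one.1 h1
  obtain ⟨e₂, hc2⟩ := nH_eq_one.1 h2
  refine ⟨nH_le_one fun e he e' he' => ?_, ?_⟩
  · obtain ⟨x, hx, hx'⟩ := exists_crs hr hra hab (by omega) he
    obtain ⟨y, hy, hy'⟩ := exists_crs hr hra hab (by omega) he'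
    rw [hc1, Set.mem_singleton_iff] at hx hy
    rw [hx] at hx'
    rw [hy] at hy'
    obtain ⟨k1, t, k2, k3⟩ := he
    obtain ⟨k1', t', k2', k3'⟩ := he'
    have hbig : HR r b ⊆ HR r R := HR_mono le_rfl (by omega)
    have m1 : e₁ ∈ MM ω (HR r R) e := MM_mono hbig hx'
    have m2 : e₁ ∈ MM ω (HR r R) e' := MM_mono hbig hy'
    have m3 : t ∈ MM ω (HR r R) e' := MM_trans (MM_trans m2 (MM_symm m1)) k3
    exact in_unique hr (by omega) k1 k1' k2 k3 m3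
  · constructor
    · intro h
      exact ⟨(mono ω r a b' R hr hra (by omega) hbR).2 h,
        (mono ω r r b R hr le_rfl (by omega) (by omega)).2 h,
        (mono ω r a' R R hr (by omega) (by omega) le_rfl).2 h⟩
    · rw [one_le_nH, one_le_nH, one_le_nH, one_le_nH]
      rintro ⟨⟨e₃, h3⟩, ⟨e₄, h4⟩, ⟨e₅, h5⟩⟩
      have k3 : e₃ = e₁ := by
        have := Crs_sub (ω := ω) (by omega : 1 ≤ a) hab (by omega : b ≤ b') h3
        rwa [hc1, Set.mem_singleton_iff] at this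
      subst k3
      obtain ⟨x, hx, hx'⟩ := exists_crs (by omega) (by omega : a ≤ a') hab' le_rfl h3
      rw [hc2, Set.mem_singleton_iff] at hx
      subst hx
      obtain ⟨y, hy, hy'⟩ := exists_crs hr hra hab le_rfl h4
      rw [hc1, Set.mem_singleton_iff] at hy
      subst hy
      have k5 : e₅ = x := by
        have := Crs_sub (ω := ω) (by omega : 1 ≤ a') hab' hbR h5
        rwa [hc2, Set.mem_singleton_iff] at this
      subst k5
      obtain ⟨-, t, ht, hm⟩ := h5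
      refine ⟨e₄, h4.1, t, ht, ?_⟩
      have m1 : y ∈ MM ω (HR r R) e₄ := MM_mono (HR_mono le_rfl (by omega)) hy'
      have m2 : e₅ ∈ MM ω (HR r R) y := MM_mono (HR_mono hra (by omega)) hx'
      have m3 : t ∈ MM ω (HR r R) e₅ := MM_mono (HR_mono (by omega) le_rfl) hm
      exact MM_trans (MM_trans m1 m2) m3

/-! ## Mes -/

section

variable {v : Lev}

theorem Lev.Ok.pos (h : v.Ok) : 1 ≤ v.a ∧ 8 ≤ v.b ∧ 16 ≤ v.u ∧ 128 ≤ v.s ∧ 8192 ≤ v.q := by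
  obtain ⟨h1, h2, h3, h4, h5, h6, h7⟩ := h
  omega

theorem RI_sub (h : v.Ok) : RI v ⊆ HR v.a v.b' := by
  obtain ⟨h1, h2, h3, h4, h5, h6, h7⟩ := h
  intro f hf
  rw [mem_RI] at hf
  rw [mem_HR]
  omega

theorem RO_sub (h : v.Ok) : RO v ⊆ HR v.a v.b' := by
  obtain ⟨h1, h2, h3, h4, h5, h6, h7⟩ := h
  intro f hf
  rw [mem_RO] at hf
  rw [mem_HR]
  omega

theorem HR_in_sub (h : v.Ok) : HR v.a v.b ⊆ HR v.a v.b' := by
  obtain ⟨h1, h2, h3, h4, h5, h6, h7⟩ := h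
  exact HR_mono le_rfl (by omega)

theorem HR_out_sub (h : v.Ok) : HR v.a' v.b' ⊆ HR v.a v.b' := by
  obtain ⟨h1, h2, h3, h4, h5, h6, h7⟩ := h
  exact HR_mono (by omega) le_rfl

theorem Crs_EE (h : ∀ x ∈ EE v ω, ω x = ω' x) : Crs ω' v.a v.b = Crs ω v.a v.b :=
  Crs_congr fun f hf => h f (Or.inl hf.1)

theorem CrsO_EE (h : ∀ x ∈ EE v ω, ω x = ω' x) : CrsO ω' v.a' v.b' = CrsO ω v.a' v.b' :=
  CrsO_congr fun f hf => h f (Or.inr (Or.inl hf.2))

theorem nH_EE (h : ∀ x ∈ EE v ω, ω x = ω' x) : nH ω' v.a v.b = nH ω v.a v.b := by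
  unfold nH
  rw [Crs_EE h]

theorem nH_EE' (h : ∀ x ∈ EE v ω, ω x = ω' x) : nH ω' v.a' v.b' = nH ω v.a' v.b' :=
  nH_congr fun f hf => h f (Or.inr (Or.inl hf.2))

theorem SSI_EE (h : ∀ x ∈ EE v ω, ω x = ω' x) (he : e ∈ Crs ω v.a v.b) :
    SS ω' (RI v) e = SS ω (RI v) e ∧ MM ω' (RI v) e = MM ω (RI v) e := by
  have k : ∀ f ∈ SS ω (RI v) e, ω f = ω' f := fun f hf =>
    h f (Or.inr (Or.inr (Or.inl ⟨e, he, hf⟩)))
  exact ⟨SS_congr k, MM_congr k⟩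

theorem SSO_EE (h : ∀ x ∈ EE v ω, ω x = ω' x) (he : e ∈ CrsO ω v.a' v.b') :
    SS ω' (RO v) e = SS ω (RO v) e ∧ MM ω' (RO v) e = MM ω (RO v) e := by
  have k : ∀ f ∈ SS ω (RO v) e, ω f = ω' f := fun f hf =>
    h f (Or.inr (Or.inr (Or.inr ⟨e, he, hf⟩)))
  exact ⟨SS_congr k, MM_congr k⟩

theorem stp_EE (v : Lev) : Stp (EE v) := by
  intro ω ω' h
  ext x
  unfold EE
  simp only [Set.mem_ofPred_eq, Crs_EE h, CrsO_EE h]
  refine or_congr_right (or_congr_right (or_congr ?_ ?_))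
  · exact exists_congr fun e => and_congr_right fun he => by rw [(SSI_EE h he).1]
  · exact exists_congr fun e => and_congr_right fun he => by rw [(SSO_EE h he).1]

theorem TipI_EE (h : ∀ x ∈ EE v ω, ω x = ω' x) (p : ℤ) : TipI v ω' p ↔ TipI v ω p := by
  unfold TipI
  rw [Crs_EE h]
  refine and_congr_right fun _ => exists_congr fun e => and_congr_right fun he => ?_
  rw [(SSI_EE h he).2]

theorem TipO_EE (h : ∀ x ∈ EE v ω, ω x = ω' x) (p : ℤ) : TipO v ω' p ↔ TipO v ω p := by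
  unfold TipO
  rw [CrsO_EE h]
  refine and_congr_right fun _ => exists_congr fun e => and_congr_right fun he => ?_
  rw [(SSO_EE h he).2]

theorem msb_Gd (v : Lev) : Msb (EE v) fun ω => ω ∈ Gd v := by
  intro ω ω' h
  unfold Gd
  simp only [Set.mem_ofPred_eq, nH_EE h, nH_EE' h, TipI_EE h, TipO_EE h]

/-- Everything depends on the ring `HR a b'`. -/
theorem EE_congr (hv : v.Ok) (h : ∀ x ∈ HR v.a v.b', ω x = ω' x) : EE v ω' = EE v ω := by
  have h1 := Crs_congr (ω := ω) (ω' := ω') fun f hf => h f (HR_in_sub hv hf)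
  have h2 := CrsO_congr (ω := ω) (ω' := ω') fun f hf => h f (HR_out_sub hv hf)
  have h3 : ∀ e, SS ω' (RI v) e = SS ω (RI v) e := fun e =>
    SS_congr fun f hf => h f (RI_sub hv hf.1)
  have h4 : ∀ e, SS ω' (RO v) e = SS ω (RO v) e := fun e =>
    SS_congr fun f hf => h f (RO_sub hv hf.1)
  unfold EE
  simp only [h1, h2, h3, h4]

theorem depOn_Gd (hv : v.Ok) : DepOn (HR v.a v.b') (Gd v) := by
  intro ω ω' h
  have h1 := Crs_congr (ω := ω) (ω' := ω') fun f hf => h f (HR_in_sub hv hf)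
  have h2 := CrsO_congr (ω := ω) (ω' := ω') fun f hf => h f (HR_out_sub hv hf)
  have h3 : ∀ e, MM ω' (RI v) e = MM ω (RI v) e := fun e =>
    MM_congr fun f hf => h f (RI_sub hv hf.1)
  have h4 : ∀ e, MM ω' (RO v) e = MM ω (RO v) e := fun e =>
    MM_congr fun f hf => h f (RO_sub hv hf.1)
  have h5 : nH ω' v.a v.b = nH ω v.a v.b := nH_congr fun f hf => h f (HR_in_sub hv hf)
  have h6 : nH ω' v.a' v.b' = nH ω v.a' v.b' := nH_congr fun f hf => h f (HR_out_sub hv hf)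
  unfold Gd TipI TipO
  simp only [Set.mem_ofPred_eq, h1, h2, h3, h4, h5, h6]

theorem depF_pi (hv : v.Ok) (W : Finset (ℤ × ℤ)) :
    DepF (HR v.a v.b') (ce W (EE v) ((Gl v).indicator fun _ => (1 : ℝ))) := by
  intro ω ω' h
  unfold ce
  rw [EE_congr hv h]
  congr 1
  funext ξ
  have k : ∀ x ∈ HR v.a v.b', mix (EE v ω) ω ξ x = mix (EE v ω) ω' ξ x := by
    intro x hx
    by_cases hx' : x ∈ EE v ω
    · rw [mix_of_mem hx', mix_of_mem hx', h x hx]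
    · rw [mix_of_notMem hx', mix_of_notMem hx']
  have k2 := depOn_Lg v.a v.b' _ _ k
  unfold Gl
  by_cases h1 : mix (EE v ω) ω ξ ∈ Lg v.a v.b'
  · rw [Set.indicator_of_mem h1, Set.indicator_of_mem (k2.1 h1)]
  · rw [Set.indicator_of_notMem h1, Set.indicator_of_notMem fun hh => h1 (k2.2 hh)]

end

theorem mes : Mes := fun v hv =>
  ⟨stp_EE v, msb_Gd v, depOn_Gd hv, depOn_Lg v.a v.b', depF_pi hv⟩

end Pool.Agent.SixB.Leg
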