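import Pool.Agent.Lib.MP_6bd702_z.Z041

/-!
# Tubes between two tips of one strand

Families of rectangles which are crossed in the long or in the short direction. Two families of
different colours with disjoint supports are crossed at the same time with positive probability.
`TubV` is the pair of tubes between a tip on a horizontal side `(x, H, false)` (the strand comes from
below) and a tip on a horizontal side `(x', H', false)` (the strand comes from above). The tube of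
the east colour `a` runs on the east side of both tips and turns around both tips to their west
sides; the tube of the west colour `a + 1` runs on the west side and turns to the east sides.
-/

set_option autoImplicit false

namespace Pool.Agent.SixB.Tub

open Finset Pool.Agent.Perc Pool.Agent.PercL

/-- A rectangle with a direction: `true` is left-right, `false` is bottom-top. -/
structure Rc where
  /-- the direction -/
  d : Bool
  /-- the left side -/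
  x₀ : ℤ
  /-- the right side -/
  x₁ : ℤ
  /-- the bottom side -/
  y₀ : ℤ
  /-- the top side -/
  y₁ : ℤ

/-- The rectangle is crossed in its direction. -/
def Rc.Ev (R : Rc) (col : ℤ) : Set Cfg :=
  if R.d = true then LR col R.x₀ R.x₁ R.y₀ R.y₁ else BT col R.x₀ R.x₁ R.y₀ R.y₁

/-- The faces. -/
noncomputable def Rc.F (R : Rc) : Finset (ℤ × ℤ) := RF R.x₀ R.x₁ R.y₀ R.y₁

/-- The shape is not degenerate and not too long. -/
def Rc.Ok (R : Rc) (k : ℤ) : Prop :=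
  R.x₀ < R.x₁ ∧ R.y₀ < R.y₁ ∧ (R.d = true → R.x₁ - R.x₀ ≤ k * (R.y₁ - R.y₀)) ∧
    (R.d = false → R.y₁ - R.y₀ ≤ k * (R.x₁ - R.x₀))

/-- All rectangles of the list are crossed by the colour `col`. -/
def LEv (col : ℤ) : List Rc → Set Cfg
  | [] => Set.univ
  | R :: L => R.Ev col ∩ LEv col L

/-- The faces of the rectangles of the list. -/
noncomputable def LF : List Rc → Finset (ℤ × ℤ)
  | [] => ∅
  | R :: L => R.F ∪ LF L

theorem mem_LF {L : List Rc} {f : ℤ × ℤ} : f ∈ LF L ↔ ∃ R ∈ L, f ∈ R.F := by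
  induction L with
  | nil => simp [LF]
  | cons R L ih => simp [LF, ih]

theorem mem_F {R : Rc} {f : ℤ × ℤ} :
    f ∈ R.F ↔ R.x₀ ≤ f.1 ∧ f.1 < R.x₁ ∧ R.y₀ ≤ f.2 ∧ f.2 < R.y₁ := by
  unfold Rc.F
  rw [mem_RFi]

theorem pr_univ_one (W : Finset (ℤ × ℤ)) : pr W (Set.univ : Set Cfg) = 1 := by
  have h1 := pr_compl W (∅ : Set Cfg)
  have h2 : pr W (∅ : Set Cfg) = 0 := by rw [ProbA.pr_eq_sum]; simp
  rw [Set.compl_empty, h2, sub_zero] at h1
  exact h1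

/-- A list of rectangles of bounded length is crossed with positive probability. -/
theorem ok_LEv (k : ℕ) : ∃ c : ℝ, 0 < c ∧ c ≤ 1 ∧ ∀ (col : ℤ) (W : Finset (ℤ × ℤ)) (L : List Rc),
    (∀ R ∈ L, R.Ok k) → (∀ R ∈ L, R.F ⊆ W) →
      TubesAux.Ok W (LF L) (parD col) (c ^ L.length) (LEv col L) := by
  obtain ⟨c₁, hc1, hL⟩ := rswF k
  obtain ⟨c₂, hc2, hB⟩ := rswF' k
  refine ⟨min (min c₁ c₂) 1, lt_min (lt_min hc1 hc2) one_pos, min_le_right _ _, ?_⟩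
  intro col W L
  induction L with
  | nil =>
    intro _ _
    refine ⟨by simp [LF], fun _ _ _ => Iff.rfl, fun _ _ _ _ => trivial, ?_⟩
    simp only [LEv, List.length_nil, pow_zero, pr_univ_one, le_refl]
  | cons R L ih =>
    intro hok hW
    have h2 := ih (fun R' hR' => hok R' (List.mem_cons_of_mem _ hR'))
      (fun R' hR' => hW R' (List.mem_cons_of_mem _ hR'))
    obtain ⟨o1, o2, o3, o4⟩ := hok R List.mem_cons_self
    have hRW : RF R.x₀ R.x₁ R.y₀ R.y₁ ⊆ W := hW R List.mem_cons_self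
    have h1 : TubesAux.Ok W R.F (parD col) (min (min c₁ c₂) 1) (R.Ev col) := by
      by_cases hd : R.d = true
      · have e : R.Ev col = LR col R.x₀ R.x₁ R.y₀ R.y₁ := by unfold Rc.Ev; rw [if_pos hd]
        rw [e]
        refine ⟨hRW, depOn_LR _ _ _ _ _, Perc.incD_LR _ _ _ _ _, ?_⟩
        rw [pr_LR_window hRW]
        exact ((min_le_left _ _).trans (min_le_left _ _)).trans (hL _ _ _ _ _ o1 o2 (o3 hd))
      · have e : R.Ev col = BT col R.x₀ R.x₁ R.y₀ R.y₁ := by unfold Rc.Ev; rw [if_neg hd]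
        rw [e]
        refine ⟨hRW, depOn_BT _ _ _ _ _, incD_BT' _ _ _ _ _, ?_⟩
        rw [pr_BT_window hRW]
        exact ((min_le_left _ _).trans (min_le_right _ _)).trans
          (hB _ _ _ _ _ o1 o2 (o4 (by simpa using hd)))
    have h3 := TubesAux.Ok.inter (by positivity) h1 h2
    rw [List.length_cons, pow_succ']
    exact h3

/-- Two families of different colours with disjoint supports. -/
theorem pr_LEv2 (n k : ℕ) : ∃ c : ℝ, 0 < c ∧ ∀ (col col' : ℤ) (W : Finset (ℤ × ℤ))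
    (L L' : List Rc), L.length ≤ n → L'.length ≤ n →
    (∀ R ∈ L, R.Ok k) → (∀ R ∈ L', R.Ok k) → (∀ R ∈ L, R.F ⊆ W) → (∀ R ∈ L', R.F ⊆ W) →
    (∀ R ∈ L, ∀ R' ∈ L', Disjoint R.F R'.F) → c ≤ pr W (LEv col L ∩ LEv col' L') := by
  obtain ⟨c, hc, hc1, h⟩ := ok_LEv k
  refine ⟨c ^ n * c ^ n, by positivity, ?_⟩
  intro col col' W L L' hn hn' hok hok' hW hW' hdis
  obtain ⟨sA, dA, -, pA⟩ := h col W L hok hW
  obtain ⟨sB, dB, -, pB⟩ := h col' W L' hok' hW'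
  have hd : Disjoint (LF L) (LF L') := by
    rw [Finset.disjoint_left]
    intro f hf hf'
    obtain ⟨R, hR, hfR⟩ := mem_LF.1 hf
    obtain ⟨R', hR', hfR'⟩ := mem_LF.1 hf'
    exact Finset.disjoint_left.1 (hdis R hR R' hR') hfR hfR'
  have hint := pr_inter_of_disjoint dA dB hd
  have e1 := pr_eq_of_depOn dA sA
  have e2 := pr_eq_of_depOn dB sB
  have e3 : pr W (LEv col L ∩ LEv col' L') = pr (LF L ∪ LF L') (LEv col L ∩ LEv col' L') := by
    refine pr_eq_of_depOn (depOn_inter' (depOn_mono' dA ?_) (depOn_mono' dB ?_))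
      (union_subset sA sB)
    · exact coe_subset.2 subset_union_left
    · exact coe_subset.2 subset_union_right
  rw [e3, hint, ← e1, ← e2]
  have p1 : c ^ n ≤ pr W (LEv col L) := (pow_le_pow_of_le_one hc.le hc1 hn).trans pA
  have p2 : c ^ n ≤ pr W (LEv col' L') := (pow_le_pow_of_le_one hc.le hc1 hn').trans pB
  exact mul_le_mul p1 p2 (by positivity) (pr_nonneg _ _)

/-! ## Chains of crossing rectangles -/

/-- The left-right rectangle `R` and the bottom-top rectangle `R'` are in cross position. -/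
def Crs (R R' : Rc) : Prop :=
  (R.d = true ∧ R'.d = false) ∧ R.x₀ ≤ R'.x₀ ∧ R'.x₀ < R'.x₁ ∧ R'.x₁ ≤ R.x₁ ∧ R'.y₀ ≤ R.y₀ ∧
    R.y₀ < R.y₁ ∧ R.y₁ ≤ R'.y₁

/-- The data of a crossing: the starting point, the end point. -/
def Rc.Cp (R : Rc) (ξ : Cfg) (col : ℤ) (u v : ℤ × ℤ) : Prop :=
  (u.1 + u.2 - col) % 2 = 0 ∧ Conn ξ (R.F : Set (ℤ × ℤ)) u v ∧
    (R.d = true → u.1 = R.x₀ ∧ (R.y₀ ≤ u.2 ∧ u.2 ≤ R.y₁) ∧ v.1 = R.x₁) ∧
    (R.d = false → u.2 = R.y₀ ∧ (R.x₀ ≤ u.1 ∧ u.1 ≤ R.x₁) ∧ v.2 = R.y₁)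

theorem Rc.exists_cp {R : Rc} {ξ : Cfg} {col : ℤ} (h : ξ ∈ R.Ev col) : ∃ u v, R.Cp ξ col u v := by
  unfold Rc.Ev at h
  by_cases hd : R.d = true
  · rw [if_pos hd] at h
    obtain ⟨u, v, h1, h2, h3, h4, h5, h6⟩ := h
    exact ⟨u, v, h5, h6, fun _ => ⟨h1, ⟨h2, h3⟩, h4⟩, fun h => by rw [hd] at h; cases h⟩
  · rw [if_neg hd] at h
    obtain ⟨u, v, h1, h2, h3, h4, h5, h6⟩ := h
    exact ⟨u, v, h5, h6, fun h => absurd h hd, fun _ => ⟨h1, ⟨h2, h3⟩, h4⟩⟩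

/-- Two crossings in cross position meet. -/
theorem meet_rc {ξ : Cfg} {col : ℤ} {R R' : Rc} (hc : Crs R R') {u v u' v' : ℤ × ℤ}
    (h : R.Cp ξ col u v) (h' : R'.Cp ξ col u' v') :
    ∃ z, Conn ξ (R.F : Set (ℤ × ℤ)) u z ∧ Conn ξ (R'.F : Set (ℤ × ℤ)) u' z ∧
      R'.x₀ ≤ z.1 ∧ z.1 ≤ R'.x₁ ∧ R.y₀ ≤ z.2 ∧ z.2 ≤ R.y₁ := by
  obtain ⟨⟨d1, d2⟩, c1, c2, c3, c4, c5, c6⟩ := hc
  obtain ⟨p1, p2, p3, -⟩ := h
  obtain ⟨q1, q2, -, q3⟩ := h'
  obtain ⟨a1, ⟨a2, a3⟩, a4⟩ := p3 d1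
  obtain ⟨b1, ⟨b2, b3⟩, b4⟩ := q3 d2
  exact meet_cross c1 c2 c3 c4 c5 c6 ⟨a1, a2, a3⟩ a4 ⟨b1, b2, b3⟩ b4 (by omega) p2 q2

/-- Faces of a list. -/
theorem LF_mono {L L' : List Rc} (h : ∀ R ∈ L, R ∈ L') : (LF L : Set (ℤ × ℤ)) ⊆ LF L' := by
  intro f hf
  rw [mem_coe, mem_LF] at hf ⊢
  obtain ⟨R, hR, hfR⟩ := hf
  exact ⟨R, h R hR, hfR⟩

theorem F_sub {L : List Rc} {R : Rc} (h : R ∈ L) : (R.F : Set (ℤ × ℤ)) ⊆ LF L := by
  intro f hf
  exact mem_coe.2 (mem_LF.2 ⟨R, h, mem_coe.1 hf⟩)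

/-- The chain of seven rectangles, cut at the meeting point of the third and the fourth one or at
the meeting point of the fourth and the fifth one. -/
theorem chain7 {ξ : Cfg} {col : ℤ} {R1 R2 R3 R4 R5 R6 R7 : Rc}
    (h : ξ ∈ LEv col [R1, R2, R3, R4, R5, R6, R7]) (c21 : Crs R2 R1) (c23 : Crs R2 R3)
    (c43 : Crs R4 R3) (c45 : Crs R4 R5) (c65 : Crs R6 R5) (c67 : Crs R6 R7) :
    ∃ z z' : ℤ × ℤ, (z.1 + z.2 - col) % 2 = 0 ∧ (z'.1 + z'.2 - col) % 2 = 0 ∧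
      (z.2 = R7.y₀ ∧ R7.x₀ ≤ z.1 ∧ z.1 ≤ R7.x₁) ∧ (z'.2 = R1.y₁ ∧ R1.x₀ ≤ z'.1 ∧ z'.1 ≤ R1.x₁) ∧
      (∃ c : ℤ × ℤ, (c.1 + c.2 - col) % 2 = 0 ∧
        (R3.x₀ ≤ c.1 ∧ c.1 ≤ R3.x₁ ∧ R4.y₀ ≤ c.2 ∧ c.2 ≤ R4.y₁) ∧
        Conn ξ (LF [R1, R2, R3] : Set (ℤ × ℤ)) c z' ∧
        Conn ξ (LF [R4, R5, R6, R7] : Set (ℤ × ℤ)) c z) ∧
      (∃ c : ℤ × ℤ, (c.1 + c.2 - col) % 2 = 0 ∧
        (R5.x₀ ≤ c.1 ∧ c.1 ≤ R5.x₁ ∧ R4.y₀ ≤ c.2 ∧ c.2 ≤ R4.y₁) ∧
        Conn ξ (LF [R1, R2, R3, R4] : Set (ℤ × ℤ)) c z' ∧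
        Conn ξ (LF [R5, R6, R7] : Set (ℤ × ℤ)) c z) := by
  obtain ⟨e1, e2, e3, e4, e5, e6, e7, -⟩ := h
  obtain ⟨u1, v1, k1⟩ := Rc.exists_cp e1
  obtain ⟨u2, v2, k2⟩ := Rc.exists_cp e2
  obtain ⟨u3, v3, k3⟩ := Rc.exists_cp e3
  obtain ⟨u4, v4, k4⟩ := Rc.exists_cp e4
  obtain ⟨u5, v5, k5⟩ := Rc.exists_cp e5
  obtain ⟨u6, v6, k6⟩ := Rc.exists_cp e6
  obtain ⟨u7, v7, k7⟩ := Rc.exists_cp e7
  obtain ⟨m1, a1, b1, -⟩ := meet_rc c21 k2 k1
  obtain ⟨m2, a2, b2, -⟩ := meet_rc c23 k2 k3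
  obtain ⟨m3, a3, b3, g3⟩ := meet_rc c43 k4 k3
  obtain ⟨m4, a4, b4, g4⟩ := meet_rc c45 k4 k5
  obtain ⟨m5, a5, b5, -⟩ := meet_rc c65 k6 k5
  obtain ⟨m6, a6, b6, -⟩ := meet_rc c67 k6 k7
  have d1 : R1.d = false := c21.1.2
  have d7 : R7.d = false := c67.1.2
  obtain ⟨f1, ⟨f2, f3⟩, f4⟩ := k1.2.2.2 d1
  obtain ⟨f5, ⟨f6, f7⟩, f8⟩ := k7.2.2.2 d7
  have hv1 := Conn.mem_rect (x₀ := R1.x₀) (x₁ := R1.x₁) (y₀ := R1.y₀) (y₁ := R1.y₁) k1.2.1
    ⟨f2, f3, by omega, by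
      have := c21.2
      omega⟩
  have hpar : ∀ {S : Set (ℤ × ℤ)} {p q : ℤ × ℤ}, Conn ξ S p q → (p.1 + p.2 - col) % 2 = 0 →
      (q.1 + q.2 - col) % 2 = 0 := by
    intro S p q hpq hp
    have := Conn.parity hpq
    omega
  -- the inner part
  have i1 : Conn ξ (LF [R1, R2, R3] : Set (ℤ × ℤ)) u3 v1 := by
    have s1 : (R1.F : Set (ℤ × ℤ)) ⊆ LF [R1, R2, R3] := F_sub (by simp)
    have s2 : (R2.F : Set (ℤ × ℤ)) ⊆ LF [R1, R2, R3] := F_sub (by simp)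
    have s3 : (R3.F : Set (ℤ × ℤ)) ⊆ LF [R1, R2, R3] := F_sub (by simp)
    exact ((b2.mono s3).trans (a2.symm.mono s2)).trans (((a1.mono s2).trans (b1.symm.mono s1)).trans
      (k1.2.1.mono s1))
  have i2 : Conn ξ (LF [R5, R6, R7] : Set (ℤ × ℤ)) u5 u7 := by
    have s5 : (R5.F : Set (ℤ × ℤ)) ⊆ LF [R5, R6, R7] := F_sub (by simp)
    have s6 : (R6.F : Set (ℤ × ℤ)) ⊆ LF [R5, R6, R7] := F_sub (by simp)
    have s7 : (R7.F : Set (ℤ × ℤ)) ⊆ LF [R5, R6, R7] := F_sub (by simp)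
    exact ((b5.mono s5).trans (a5.symm.mono s6)).trans ((a6.mono s6).trans (b6.symm.mono s7))
  refine ⟨u7, v1, k7.1, hpar k1.2.1 k1.1, ⟨f5, f6, f7⟩, ⟨f4, hv1.1, hv1.2.1⟩,
    ⟨m3, hpar a3 k4.1, g3, ?_, ?_⟩, ⟨m4, hpar a4 k4.1, g4, ?_, ?_⟩⟩
  · exact (b3.symm.mono (F_sub (by simp))).trans i1
  · have s4 : (R4.F : Set (ℤ × ℤ)) ⊆ LF [R4, R5, R6, R7] := F_sub (by simp)
    have s5 : (R5.F : Set (ℤ × ℤ)) ⊆ LF [R4, R5, R6, R7] := F_sub (by simp)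
    have s : (LF [R5, R6, R7] : Set (ℤ × ℤ)) ⊆ LF [R4, R5, R6, R7] :=
      LF_mono fun R hR => List.mem_cons_of_mem _ hR
    exact ((a3.symm.mono s4).trans (a4.mono s4)).trans ((b4.symm.mono s5).trans (i2.mono s))
  · have s4 : (R4.F : Set (ℤ × ℤ)) ⊆ LF [R1, R2, R3, R4] := F_sub (by simp)
    have s3 : (R3.F : Set (ℤ × ℤ)) ⊆ LF [R1, R2, R3, R4] := F_sub (by simp)
    have s : (LF [R1, R2, R3] : Set (ℤ × ℤ)) ⊆ LF [R1, R2, R3, R4] :=
      LF_mono fun R hR => by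
        simp only [List.mem_cons, List.not_mem_nil, or_false] at hR ⊢
        tauto
    exact ((a4.symm.mono s4).trans (a3.mono s4)).trans ((b3.symm.mono s3).trans (i1.mono s))
  · exact (b4.symm.mono (F_sub (by simp))).trans i2

/-! ## The two tubes -/

/-- Mirror `X ↦ -X`. -/
def Rc.mir (R : Rc) : Rc := ⟨R.d, -R.x₁, -R.x₀, R.y₀, R.y₁⟩

/-- The tube which runs on the right side of both tips, `x ≤ x'`. -/
def lE (x H x' H' r : ℤ) : List Rc :=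
  [⟨false, x - 4 * r, x - 3 * r, H - 4 * r, H⟩,
   ⟨true, x - 4 * r, x + 4 * r, H - 4 * r, H - 3 * r⟩,
   ⟨false, x + 3 * r, x + 4 * r, H - 4 * r, H + 5 * r⟩,
   ⟨true, x + 3 * r, x' + 4 * r, H + 4 * r, H + 5 * r⟩,
   ⟨false, x' + 3 * r, x' + 4 * r, H + 4 * r, H' + 4 * r⟩,
   ⟨true, x' - 4 * r, x' + 4 * r, H' + 3 * r, H' + 4 * r⟩,
   ⟨false, x' - 4 * r, x' - 3 * r, H', H' + 4 * r⟩]

/-- The tube which runs on the left side of both tips, `x ≤ x'`. -/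
def lW (x H x' H' r : ℤ) : List Rc :=
  [⟨false, x + r, x + 2 * r, H - 2 * r, H⟩,
   ⟨true, x - 2 * r, x + 2 * r, H - 2 * r, H - r⟩,
   ⟨false, x - 2 * r, x - r, H - 2 * r, H + 8 * r⟩,
   ⟨true, x - 2 * r, x' - r, H + 7 * r, H + 8 * r⟩,
   ⟨false, x' - 2 * r, x' - r, H + 7 * r, H' + 2 * r⟩,
   ⟨true, x' - 2 * r, x' + 2 * r, H' + r, H' + 2 * r⟩,
   ⟨false, x' + r, x' + 2 * r, H', H' + 2 * r⟩]

/-- The rectangles of the east colour. -/
def famE (x H x' H' r : ℤ) : List Rc :=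
  if x ≤ x' then lE x H x' H' r else (lW (-x - 1) H (-x' - 1) H' r).map Rc.mir

/-- The rectangles of the west colour. -/
def famW (x H x' H' r : ℤ) : List Rc :=
  if x ≤ x' then lW x H x' H' r else (lE (-x - 1) H (-x' - 1) H' r).map Rc.mir

/-- The pair of tubes: `a` is the colour of the east vertices of the two tips. -/
def TubV (a x H x' H' r : ℤ) : Set Cfg :=
  LEv a (famE x H x' H' r) ∩ LEv (a + 1) (famW x H x' H' r)

theorem ok_of {R : Rc} {K r : ℤ} (h1 : R.x₀ < R.x₁) (h2 : R.y₀ < R.y₁)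
    (h3 : R.d = true → R.y₁ = R.y₀ + r ∧ R.x₁ - R.x₀ ≤ K * r + 10 * r)
    (h4 : R.d = false → R.x₁ = R.x₀ + r ∧ R.y₁ - R.y₀ ≤ K * r + 10 * r) : R.Ok (K + 10) := by
  refine ⟨h1, h2, fun hd => ?_, fun hd => ?_⟩
  · obtain ⟨e1, e2⟩ := h3 hd
    rw [show R.y₁ - R.y₀ = r by omega, add_mul]
    exact e2
  · obtain ⟨e1, e2⟩ := h4 hd
    rw [show R.x₁ - R.x₀ = r by omega, add_mul]
    exact e2

/-- The position of a rectangle of the tubes. -/
def Rc.In (R : Rc) (a b c d : ℤ) : Prop := a ≤ R.x₀ ∧ R.x₁ ≤ b ∧ c ≤ R.y₀ ∧ R.y₁ ≤ d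

theorem lE_spec {x H x' H' r K : ℤ} (hr : 1 ≤ r) (hx : x ≤ x') (hK : 0 ≤ K) (hx' : x' ≤ x + K * r)
    (hH : H + 9 * r ≤ H') (hH' : H' ≤ H + K * r) {R : Rc} (hR : R ∈ lE x H x' H' r) :
    R.Ok (K + 10) ∧ R.In (x - 4 * r) (x' + 4 * r) (H - 4 * r) (H' + 4 * r) := by
  have hK0 : 0 ≤ K * r := mul_nonneg hK (by omega)
  simp only [lE, List.mem_cons, List.not_mem_nil, or_false] at hR
  rcases hR with rfl | rfl | rfl | rfl | rfl | rfl | rfl
  all_goals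
    refine ⟨ok_of (r := r) ?_ ?_ ?_ ?_, ?_⟩
    · simp only; omega
    · simp only; omega
    · simp only [Bool.false_eq_true, false_imp_iff, true_imp_iff]; try omega
    · simp only [Bool.true_eq_false, false_imp_iff, true_imp_iff]; try omega
    · unfold Rc.In; simp only; omega

theorem lW_spec {x H x' H' r K : ℤ} (hr : 1 ≤ r) (hx : x ≤ x') (hK : 0 ≤ K) (hx' : x' ≤ x + K * r)
    (hH : H + 9 * r ≤ H') (hH' : H' ≤ H + K * r) {R : Rc} (hR : R ∈ lW x H x' H' r) :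
    R.Ok (K + 10) ∧ R.In (x - 4 * r) (x' + 4 * r) (H - 4 * r) (H' + 4 * r) := by
  have hK0 : 0 ≤ K * r := mul_nonneg hK (by omega)
  simp only [lW, List.mem_cons, List.not_mem_nil, or_false] at hR
  rcases hR with rfl | rfl | rfl | rfl | rfl | rfl | rfl
  all_goals
    refine ⟨ok_of (r := r) ?_ ?_ ?_ ?_, ?_⟩
    · simp only; omega
    · simp only; omega
    · simp only [Bool.false_eq_true, false_imp_iff, true_imp_iff]; try omega
    · simp only [Bool.true_eq_false, false_imp_iff, true_imp_iff]; try omega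
    · unfold Rc.In; simp only; omega

theorem l_disj {x H x' H' r : ℤ} (hx : x ≤ x') (hH : H + 9 * r ≤ H') {R R' : Rc}
    (hR : R ∈ lE x H x' H' r) (hR' : R' ∈ lW x H x' H' r) : Disjoint R.F R'.F := by
  rw [Finset.disjoint_left]
  intro f hf hf'
  rw [mem_F] at hf hf'
  simp only [lE, List.mem_cons, List.not_mem_nil, or_false] at hR
  simp only [lW, List.mem_cons, List.not_mem_nil, or_false] at hR'
  rcases hR with rfl | rfl | rfl | rfl | rfl | rfl | rfl <;>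
  rcases hR' with rfl | rfl | rfl | rfl | rfl | rfl | rfl <;>
  (simp only at hf hf'; omega)

theorem mir_ok {R : Rc} {k : ℤ} (h : R.Ok k) : R.mir.Ok k := by
  obtain ⟨h1, h2, h3, h4⟩ := h
  refine ⟨?_, h2, fun hd => ?_, fun hd => ?_⟩
  · simp only [Rc.mir]; omega
  · have := h3 hd
    simp only [Rc.mir]
    rw [show -R.x₀ - -R.x₁ = R.x₁ - R.x₀ by ring]
    exact this
  · have := h4 hd
    simp only [Rc.mir]
    rw [show -R.x₀ - -R.x₁ = R.x₁ - R.x₀ by ring]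
    exact this

theorem mir_in {R : Rc} {a b c d : ℤ} (h : R.In a b c d) : R.mir.In (-b) (-a) c d := by
  obtain ⟨h1, h2, h3, h4⟩ := h
  unfold Rc.In
  simp only [Rc.mir]
  omega

theorem mir_disj {R R' : Rc} (h : Disjoint R.F R'.F) : Disjoint R.mir.F R'.mir.F := by
  rw [Finset.disjoint_left] at h ⊢
  intro f hf hf'
  rw [mem_F] at hf hf'
  simp only [Rc.mir] at hf hf'
  refine h (a := (-f.1 - 1, f.2)) (mem_F.2 ?_) (mem_F.2 ?_)
  · simp only; omega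
  · simp only; omega

theorem fam_spec {x H x' H' r K : ℤ} (hr : 1 ≤ r) (hK : 0 ≤ K) (hx : |x - x'| ≤ K * r)
    (hH : H + 9 * r ≤ H') (hH' : H' ≤ H + K * r) {R : Rc}
    (hR : R ∈ famE x H x' H' r ∨ R ∈ famW x H x' H' r) :
    R.Ok (K + 10) ∧ R.In (min x x' - 4 * r) (max x x' + 4 * r + 1) (H - 4 * r) (H' + 4 * r) := by
  rw [abs_le] at hx
  unfold famE famW at hR
  by_cases hxx : x ≤ x'
  · simp only [if_pos hxx] at hR
    rw [min_eq_left hxx, max_eq_right hxx]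
    have key : R.Ok (K + 10) ∧ R.In (x - 4 * r) (x' + 4 * r) (H - 4 * r) (H' + 4 * r) :=
      hR.elim (lE_spec hr hxx hK (by omega) hH hH') (lW_spec hr hxx hK (by omega) hH hH')
    refine ⟨key.1, ?_⟩
    have := key.2
    unfold Rc.In at *
    omega
  · simp only [if_neg hxx] at hR
    rw [min_eq_right (by omega), max_eq_left (by omega)]
    have key : ∀ R' : Rc, (R' ∈ lW (-x - 1) H (-x' - 1) H' r ∨ R' ∈ lE (-x - 1) H (-x' - 1) H' r) →
        R'.Ok (K + 10) ∧ R'.In (-x - 1 - 4 * r) (-x' - 1 + 4 * r) (H - 4 * r) (H' + 4 * r) :=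
      fun R' h => h.elim (lW_spec hr (by omega) hK (by omega) hH hH')
        (lE_spec hr (by omega) hK (by omega) hH hH')
    have key2 : ∃ R', (R' ∈ lW (-x - 1) H (-x' - 1) H' r ∨ R' ∈ lE (-x - 1) H (-x' - 1) H' r) ∧
        R = R'.mir := by
      rcases hR with h | h
      · obtain ⟨R', h1, h2⟩ := List.mem_map.1 h
        exact ⟨R', Or.inl h1, h2.symm⟩
      · obtain ⟨R', h1, h2⟩ := List.mem_map.1 h
        exact ⟨R', Or.inr h1, h2.symm⟩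
    obtain ⟨R', h1, rfl⟩ := key2
    obtain ⟨k1, k2⟩ := key R' h1
    refine ⟨mir_ok k1, ?_⟩
    have := mir_in k2
    unfold Rc.In at *
    omega

theorem fam_disj {x H x' H' r : ℤ} (hH : H + 9 * r ≤ H') {R R' : Rc}
    (hR : R ∈ famE x H x' H' r) (hR' : R' ∈ famW x H x' H' r) : Disjoint R.F R'.F := by
  unfold famE at hR
  unfold famW at hR'
  by_cases hxx : x ≤ x'
  · rw [if_pos hxx] at hR hR'
    exact l_disj hxx hH hR hR'
  · rw [if_neg hxx] at hR hR'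
    obtain ⟨Q, h1, rfl⟩ := List.mem_map.1 hR
    obtain ⟨Q', h1', rfl⟩ := List.mem_map.1 hR'
    exact mir_disj (l_disj (by omega) hH h1' h1).symm

theorem length_famE (x H x' H' r : ℤ) : (famE x H x' H' r).length = 7 := by
  unfold famE
  split_ifs <;> simp [lE, lW]

theorem length_famW (x H x' H' r : ℤ) : (famW x H x' H' r).length = 7 := by
  unfold famW
  split_ifs <;> simp [lE, lW]

/-- The window of the tubes. -/
noncomputable def TubWin (x H x' H' r : ℤ) : Finset (ℤ × ℤ) :=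
  RF (min x x' - 4 * r) (max x x' + 4 * r + 1) (H - 4 * r) (H' + 4 * r)

/-- The tubes have positive probability. -/
theorem pr_TubV (K : ℕ) : ∃ c : ℝ, 0 < c ∧ ∀ (a x H x' H' r : ℤ) (W : Finset (ℤ × ℤ)), 1 ≤ r →
    |x - x'| ≤ K * r → H + 9 * r ≤ H' → H' ≤ H + K * r → TubWin x H x' H' r ⊆ W →
      c ≤ pr W (TubV a x H x' H' r) := by
  obtain ⟨c, hc, h⟩ := pr_LEv2 7 (K + 10)
  refine ⟨c, hc, fun a x H x' H' r W hr hx hH hH' hW => ?_⟩
  have hs : ∀ R : Rc, (R ∈ famE x H x' H' r ∨ R ∈ famW x H x' H' r) →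
      R.Ok ((K + 10 : ℕ) : ℤ) ∧ R.F ⊆ W := by
    intro R hR
    obtain ⟨h1, h2⟩ := fam_spec hr (by positivity) hx hH hH' hR
    refine ⟨by exact_mod_cast h1, Subset.trans (fun f hf => ?_) hW⟩
    unfold Rc.In at h2
    rw [mem_F] at hf
    unfold TubWin
    rw [mem_RFi]
    omega
  exact h a (a + 1) W _ _ (length_famE _ _ _ _ _).le (length_famW _ _ _ _ _).le
    (fun R hR => (hs R (Or.inl hR)).1) (fun R hR => (hs R (Or.inr hR)).1)
    (fun R hR => (hs R (Or.inl hR)).2) (fun R hR => (hs R (Or.inr hR)).2)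
    (fun R hR R' hR' => fam_disj hH hR hR')

/-! ## The connections given by the tubes -/

/-- Outer zone, east colour: below the outer tip it stays on the east side of the column of the
outer tip; behind the outer tip it stays near it. -/
def ZoE (x H x' H' r : ℤ) : Set (ℤ × ℤ) :=
  {f | (H + 4 * r ≤ f.2 ∧ f.2 < H' + 4 * r) ∧ (min x x' - 4 * r ≤ f.1 ∧ f.1 ≤ max x x' + 4 * r) ∧
    (f.2 < H' → x' < f.1) ∧ (H' ≤ f.2 → x' - 4 * r ≤ f.1 ∧ f.1 ≤ x' + 4 * r)}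

/-- Outer zone, west colour. -/
def ZoW (x H x' H' r : ℤ) : Set (ℤ × ℤ) :=
  {f | (H + 4 * r ≤ f.2 ∧ f.2 < H' + 4 * r) ∧ (min x x' - 4 * r ≤ f.1 ∧ f.1 ≤ max x x' + 4 * r) ∧
    (f.2 < H' → f.1 < x') ∧ (H' ≤ f.2 → x' - 4 * r ≤ f.1 ∧ f.1 ≤ x' + 4 * r)}

/-- Inner zone, east colour: above the inner tip it stays on the east side of the column of the
inner tip; behind (below) the inner tip it stays near it. -/
def ZiE (x H x' H' r : ℤ) : Set (ℤ × ℤ) :=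
  {f | (H - 4 * r ≤ f.2 ∧ f.2 < H' - r) ∧ (min x x' - 4 * r ≤ f.1 ∧ f.1 ≤ max x x' + 4 * r) ∧
    (H ≤ f.2 → x < f.1) ∧ (f.2 < H → x - 4 * r ≤ f.1 ∧ f.1 ≤ x + 4 * r)}

/-- Inner zone, west colour. -/
def ZiW (x H x' H' r : ℤ) : Set (ℤ × ℤ) :=
  {f | (H - 4 * r ≤ f.2 ∧ f.2 < H' - r) ∧ (min x x' - 4 * r ≤ f.1 ∧ f.1 ≤ max x x' + 4 * r) ∧
    (H ≤ f.2 → f.1 < x) ∧ (f.2 < H → x - 4 * r ≤ f.1 ∧ f.1 ≤ x + 4 * r)}

/-- The east colour: one connected tube. From the vertex `c` between the tips it turns around the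
outer tip to the vertex `z` on the line of the outer tip, west of it, and around the inner tip to
the vertex `z'` on the line of the inner tip, west of it. -/
theorem tubE {a x H x' H' r : ℤ} {ξ : Cfg} (hr : 1 ≤ r) (hH : H + 9 * r ≤ H')
    (h : ξ ∈ LEv a (famE x H x' H' r)) :
    ∃ c z z' : ℤ × ℤ, (c.1 + c.2 - a) % 2 = 0 ∧ (z.1 + z.2 - a) % 2 = 0 ∧
      (z'.1 + z'.2 - a) % 2 = 0 ∧ (z.2 = H' ∧ x' - 4 * r ≤ z.1 ∧ z.1 ≤ x') ∧
      (z'.2 = H ∧ x - 4 * r ≤ z'.1 ∧ z'.1 ≤ x) ∧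
      (x < c.1 ∧ x' < c.1 ∧ c.1 ≤ max x x' + 4 * r + 1 ∧ H + 4 * r ≤ c.2 ∧ c.2 ≤ H' - r) ∧
      Conn ξ (ZoE x H x' H' r) c z ∧ Conn ξ (ZiE x H x' H' r) c z' := by
  unfold famE at h
  by_cases hxx : x ≤ x'
  · rw [if_pos hxx] at h
    simp only [lE] at h
    obtain ⟨z, z', p1, p2, z1, z2, -, c, p3, c1, k1, k2⟩ := chain7 h
      ⟨⟨rfl, rfl⟩, by simp only; omega⟩ ⟨⟨rfl, rfl⟩, by simp only; omega⟩
      ⟨⟨rfl, rfl⟩, by simp only; omega⟩ ⟨⟨rfl, rfl⟩, by simp only; omega⟩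
      ⟨⟨rfl, rfl⟩, by simp only; omega⟩ ⟨⟨rfl, rfl⟩, by simp only; omega⟩
    simp only at z1 z2 c1
    refine ⟨c, z, z', p3, p1, p2, by omega, by omega, by omega, k2.mono ?_, k1.mono ?_⟩
    · intro f hf
      obtain ⟨R, hR, hfR⟩ := mem_LF.1 (mem_coe.1 hf)
      rw [mem_F] at hfR
      simp only [List.mem_cons, List.not_mem_nil, or_false] at hR
      unfold ZoE
      rw [Set.mem_ofPred_eq]
      rcases hR with rfl | rfl | rfl <;> (simp only at hfR; omega)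
    · intro f hf
      obtain ⟨R, hR, hfR⟩ := mem_LF.1 (mem_coe.1 hf)
      rw [mem_F] at hfR
      simp only [List.mem_cons, List.not_mem_nil, or_false] at hR
      unfold ZiE
      rw [Set.mem_ofPred_eq]
      rcases hR with rfl | rfl | rfl | rfl <;> (simp only at hfR; omega)
  · rw [if_neg hxx] at h
    simp only [lW, List.map_cons, List.map_nil, Rc.mir] at h
    obtain ⟨z, z', p1, p2, z1, z2, ⟨c, p3, c1, k1, k2⟩, -⟩ := chain7 h
      ⟨⟨rfl, rfl⟩, by simp only; omega⟩ ⟨⟨rfl, rfl⟩, by simp only; omega⟩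
      ⟨⟨rfl, rfl⟩, by simp only; omega⟩ ⟨⟨rfl, rfl⟩, by simp only; omega⟩
      ⟨⟨rfl, rfl⟩, by simp only; omega⟩ ⟨⟨rfl, rfl⟩, by simp only; omega⟩
    simp only at z1 z2 c1
    refine ⟨c, z, z', p3, p1, p2, by omega, by omega, by omega, k2.mono ?_, k1.mono ?_⟩
    · intro f hf
      obtain ⟨R, hR, hfR⟩ := mem_LF.1 (mem_coe.1 hf)
      rw [mem_F] at hfR
      simp only [List.mem_cons, List.not_mem_nil, or_false] at hR
      unfold ZoE
      rw [Set.mem_ofPred_eq]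
      rcases hR with rfl | rfl | rfl | rfl <;> (simp only at hfR; omega)
    · intro f hf
      obtain ⟨R, hR, hfR⟩ := mem_LF.1 (mem_coe.1 hf)
      rw [mem_F] at hfR
      simp only [List.mem_cons, List.not_mem_nil, or_false] at hR
      unfold ZiE
      rw [Set.mem_ofPred_eq]
      rcases hR with rfl | rfl | rfl <;> (simp only at hfR; omega)

/-- The west colour. -/
theorem tubW {a x H x' H' r : ℤ} {ξ : Cfg} (hr : 1 ≤ r) (hH : H + 9 * r ≤ H')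
    (h : ξ ∈ LEv a (famW x H x' H' r)) :
    ∃ c z z' : ℤ × ℤ, (c.1 + c.2 - a) % 2 = 0 ∧ (z.1 + z.2 - a) % 2 = 0 ∧
      (z'.1 + z'.2 - a) % 2 = 0 ∧ (z.2 = H' ∧ x' + 1 ≤ z.1 ∧ z.1 ≤ x' + 4 * r + 1) ∧
      (z'.2 = H ∧ x + 1 ≤ z'.1 ∧ z'.1 ≤ x + 4 * r + 1) ∧
      (c.1 ≤ x ∧ c.1 ≤ x' ∧ min x x' - 4 * r ≤ c.1 ∧ H + 4 * r ≤ c.2 ∧ c.2 ≤ H' - r) ∧
      Conn ξ (ZoW x H x' H' r) c z ∧ Conn ξ (ZiW x H x' H' r) c z' := by
  unfold famW at h
  by_cases hxx : x ≤ x'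
  · rw [if_pos hxx] at h
    simp only [lW] at h
    obtain ⟨z, z', p1, p2, z1, z2, ⟨c, p3, c1, k1, k2⟩, -⟩ := chain7 h
      ⟨⟨rfl, rfl⟩, by simp only; omega⟩ ⟨⟨rfl, rfl⟩, by simp only; omega⟩
      ⟨⟨rfl, rfl⟩, by simp only; omega⟩ ⟨⟨rfl, rfl⟩, by simp only; omega⟩
      ⟨⟨rfl, rfl⟩, by simp only; omega⟩ ⟨⟨rfl, rfl⟩, by simp only; omega⟩
    simp only at z1 z2 c1
    refine ⟨c, z, z', p3, p1, p2, by omega, by omega, by omega, k2.mono ?_, k1.mono ?_⟩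
    · intro f hf
      obtain ⟨R, hR, hfR⟩ := mem_LF.1 (mem_coe.1 hf)
      rw [mem_F] at hfR
      simp only [List.mem_cons, List.not_mem_nil, or_false] at hR
      unfold ZoW
      rw [Set.mem_ofPred_eq]
      rcases hR with rfl | rfl | rfl | rfl <;> (simp only at hfR; omega)
    · intro f hf
      obtain ⟨R, hR, hfR⟩ := mem_LF.1 (mem_coe.1 hf)
      rw [mem_F] at hfR
      simp only [List.mem_cons, List.not_mem_nil, or_false] at hR
      unfold ZiW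
      rw [Set.mem_ofPred_eq]
      rcases hR with rfl | rfl | rfl <;> (simp only at hfR; omega)
  · rw [if_neg hxx] at h
    simp only [lE, List.map_cons, List.map_nil, Rc.mir] at h
    obtain ⟨z, z', p1, p2, z1, z2, -, c, p3, c1, k1, k2⟩ := chain7 h
      ⟨⟨rfl, rfl⟩, by simp only; omega⟩ ⟨⟨rfl, rfl⟩, by simp only; omega⟩
      ⟨⟨rfl, rfl⟩, by simp only; omega⟩ ⟨⟨rfl, rfl⟩, by simp only; omega⟩
      ⟨⟨rfl, rfl⟩, by simp only; omega⟩ ⟨⟨rfl, rfl⟩, by simp only; omega⟩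
    simp only at z1 z2 c1
    refine ⟨c, z, z', p3, p1, p2, by omega, by omega, by omega, k2.mono ?_, k1.mono ?_⟩
    · intro f hf
      obtain ⟨R, hR, hfR⟩ := mem_LF.1 (mem_coe.1 hf)
      rw [mem_F] at hfR
      simp only [List.mem_cons, List.not_mem_nil, or_false] at hR
      unfold ZoW
      rw [Set.mem_ofPred_eq]
      rcases hR with rfl | rfl | rfl <;> (simp only at hfR; omega)
    · intro f hf
      obtain ⟨R, hR, hfR⟩ := mem_LF.1 (mem_coe.1 hf)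
      rw [mem_F] at hfR
      simp only [List.mem_cons, List.not_mem_nil, or_false] at hR
      unfold ZiW
      rw [Set.mem_ofPred_eq]
      rcases hR with rfl | rfl | rfl | rfl <;> (simp only at hfR; omega)

end Pool.Agent.SixB.Tub
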