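import Pool.Agent.Lib.SixB.S4Glue
import Pool.Agent.Lib.SixB.S4Tubes

/-!
# Gluing of two strands by the tubes of `S4Tubes`
-/

set_option autoImplicit false

namespace Pool.Agent.SixB

open Finset Pool.Agent.Perc Pool.Agent.Perc6 Pool.Agent.PercT Tub

theorem tubE_TubE {a x h x' h' s : ℤ} {ξ : Cfg} (hs : 1 ≤ s) (hh : h + 9 * s ≤ h')
    (hx : (x + 1 + h - a) % 2 = 0) (hx' : (x' + 1 + h' - a) % 2 = 0)
    (hξ : ξ ∈ LEv a (famE x h x' h' s)) :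
    TubE ξ x h x' h' (min x x' - 4 * s - 1) (max x x' + 4 * s + 2) (h - 4 * s) (h' + 4 * s) := by
  obtain ⟨c, z, z', hc, hz, hz', ⟨z1, z2, z3⟩, ⟨z4, z5, z6⟩, ⟨c1, c2, c3, c4, c5⟩, k1, k2⟩ :=
    tubE hs hh hξ
  refine ⟨ZoE x h x' h' s, ZiE x h x' h' s, c, z, z', ?_, ?_, k1, k2, c1, c2, by omega, by omega,
    by omega, z1, by omega, by omega, z4, by omega, by omega, ?_⟩
  · intro f hf
    unfold ZoE at hf
    rw [Set.mem_ofPred_eq] at hf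
    refine ⟨by omega, by omega, by omega, by omega, by omega⟩
  · intro f hf
    unfold ZiE at hf
    rw [Set.mem_ofPred_eq] at hf
    refine ⟨by omega, by omega, by omega, by omega, by omega⟩
  · unfold par
    simp only
    omega

theorem tubW_TubW {a x h x' h' s : ℤ} {ξ : Cfg} (hs : 1 ≤ s) (hh : h + 9 * s ≤ h')
    (hx : (x + h - a) % 2 = 0) (hx' : (x' + h' - a) % 2 = 0)
    (hξ : ξ ∈ LEv a (famW x h x' h' s)) :
    TubW ξ x h x' h' (min x x' - 4 * s - 1) (max x x' + 4 * s + 2) (h - 4 * s) (h' + 4 * s) := by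
  obtain ⟨c, z, z', hc, hz, hz', ⟨z1, z2, z3⟩, ⟨z4, z5, z6⟩, ⟨c1, c2, c3, c4, c5⟩, k1, k2⟩ :=
    tubW hs hh hξ
  refine ⟨ZoW x h x' h' s, ZiW x h x' h' s, c, z, z', ?_, ?_, k1, k2, c1, c2, by omega, by omega,
    by omega, z1, by omega, by omega, z4, by omega, by omega, ?_⟩
  · intro f hf
    unfold ZoW at hf
    rw [Set.mem_ofPred_eq] at hf
    refine ⟨by omega, by omega, by omega, by omega, by omega⟩
  · intro f hf
    unfold ZiW at hf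
    rw [Set.mem_ofPred_eq] at hf
    refine ⟨by omega, by omega, by omega, by omega, by omega⟩
  · unfold par
    simp only
    omega

variable {ω ξ : Cfg} {X₀ X₁ Y₁ B₀ B₁ I₀ I₁ A₀ A₁ A₂ x h x' h' s : ℤ} {eo ei : UE}
  {E : Set (ℤ × ℤ)}

/-- **Gluing by tubes.** `E` contains the visited faces of the outer and of the inner strand, and no
other faces near the tips. -/
theorem glue_tub
    (hg : Geo X₀ X₁ Y₁ B₀ B₁ I₀ I₁ A₀ A₁ A₂ x h x' h' (min x x' - 4 * s - 1) (max x x' + 4 * s + 2)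
      (h - 4 * s) (h' + 4 * s)) (hs : 1 ≤ s) (hh : h + 9 * s ≤ h')
    (heo : ∃ f ∈ BoxD X₀ X₁ Y₁ B₀ B₁ h', IsSide f eo) (heo' : ∃ f ∉ RF X₀ X₁ 0 Y₁, IsSide f eo)
    (hto : ((x', h', false) : UE) ∈ MM ω (BoxD X₀ X₁ Y₁ B₀ B₁ h') eo)
    (hei : ∃ f ∈ BoxD I₀ I₁ h A₀ A₁ A₂, IsSide f ei) (hei' : ∃ f ∈ RF A₀ A₁ 0 A₂, IsSide f ei)
    (hti : ((x, h, false) : UE) ∈ MM ω (BoxD I₀ I₁ h A₀ A₁ A₂) ei)
    (hpar : (x + h) % 2 = (x' + h') % 2)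
    (hEo : SS ω (BoxD X₀ X₁ Y₁ B₀ B₁ h') eo ⊆ E) (hEi : SS ω (BoxD I₀ I₁ h A₀ A₁ A₂) ei ⊆ E)
    (hEx : ∀ f ∈ E, min x x' - 4 * s - 1 ≤ f.1 → f.1 < max x x' + 4 * s + 2 → h - 4 * s ≤ f.2 →
      f.2 < h' + 4 * s →
      f ∈ SS ω (BoxD X₀ X₁ Y₁ B₀ B₁ h') eo ∨ f ∈ SS ω (BoxD I₀ I₁ h A₀ A₁ A₂) ei)
    (hξ : ξ ∈ TubV (x + 1 + h) x h x' h' s) :
    ei ∈ MM (mix E ω ξ) (BoxD X₀ X₁ Y₁ A₀ A₁ A₂) eo :=
  glue_flat hg heo heo' hto hei hei' hti (by unfold par; simp only; omega) hEo hEi hEx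
    (tubE_TubE hs hh (by omega) (by omega) hξ.1)
    (tubW_TubW hs hh (by omega) (by omega) hξ.2) (by omega) (by omega)

end Pool.Agent.SixB
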