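import Pool.Agent.Lib.SixB.S4LegDefs
import Pool.Agent.Lib.SixB.S4Join

/-!
# Row T5 (Glue): the conditional probability of gluing
-/

set_option autoImplicit false

namespace Pool.Agent.SixB.Leg

open Finset Pool.Agent.Perc Pool.Agent.Perc6 Pool.Agent.PercT Tub

namespace GlueAux

/-- The two faces of a side of a flat box. -/
theorem sides {w h : ℤ} (hw : 0 ≤ w) (hh : 1 ≤ h) {a : UE} (ha : BdF w h a) :
    ∃ f g : ℤ × ℤ, IsSide f a ∧ IsSide g a ∧ (-w ≤ f.1 ∧ f.1 ≤ w ∧ 0 ≤ f.2 ∧ f.2 < h) ∧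
      (f.1 = -w ∨ f.1 = w ∨ f.2 = h - 1) ∧
      (-w - 1 ≤ g.1 ∧ g.1 ≤ w + 1 ∧ 0 ≤ g.2 ∧ g.2 ≤ h) ∧
      (g.1 = -w - 1 ∨ g.1 = w + 1 ∨ g.2 = h) := by
  obtain ⟨x, y, b⟩ := a
  rcases ha with ⟨hb, h1, h2, h3⟩ | ⟨hb, h1, h2, h3⟩
  · simp only at hb h1 h2 h3
    subst hb
    rcases h1 with rfl | rfl
    · refine ⟨(-w, y), (-w - 1, y), Or.inr (Or.inl rfl), Or.inr (Or.inr (Or.inr ?_)), ?_, ?_, ?_,
        ?_⟩
      · simp [ri]
      all_goals (dsimp only; omega)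
    · refine ⟨(w, y), (w + 1, y), Or.inr (Or.inr (Or.inr rfl)), Or.inr (Or.inl rfl), ?_, ?_, ?_, ?_⟩
      all_goals (dsimp only; omega)
  · simp only at hb h1 h2 h3
    subst hb
    subst h1
    refine ⟨(x, y - 1), (x, y), side_to _ _, side_bo _ _, ?_, ?_, ?_, ?_⟩
    all_goals (dsimp only; omega)

theorem bd_ne {a b : ℤ} (ha : 0 ≤ a) (hab : a < b) {e t : UE} (he : BdH a e) (ht : BdH b t) :
    t ≠ e := by
  rintro rfl
  unfold BdH BdF at he ht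
  rcases he with he | he <;> rcases ht with ht | ht
  · omega
  · rw [he.1] at ht
    exact absurd ht.1 (by decide)
  · rw [he.1] at ht
    exact absurd ht.1 (by decide)
  · omega

theorem bdU_in {a b : ℤ} (ha : 1 ≤ a) (hab : a < b) {e : UE} (he : BdH a e) :
    BdU (HR a b) e := by
  obtain ⟨f, g, hf, hg, f1, f2, g1, g2⟩ := sides (by omega) ha he
  refine ⟨⟨g, ?_, hg⟩, f, ?_, hf⟩
  · rw [mem_HR]
    omega
  · rw [mem_HR]
    omega

theorem bdU_out {a b : ℤ} (ha : 1 ≤ a) (hab : a < b) {t : UE} (ht : BdH b t) :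
    BdU (HR a b) t := by
  obtain ⟨f, g, hf, hg, f1, f2, g1, g2⟩ := sides (by omega) (by omega) ht
  refine ⟨⟨f, ?_, hf⟩, g, ?_, hg⟩
  · rw [mem_HR]
    omega
  · rw [mem_HR]
    omega

/-- The inner end is unique. -/
theorem crs_unique {ω : Cfg} {a b : ℤ} (h : nH ω a b = 1) {e e' : UE} (he : e ∈ Crs ω a b)
    (he' : e' ∈ Crs ω a b) : e = e' := by
  obtain ⟨e₀, h₀⟩ := Set.ncard_eq_one.1 h
  rw [h₀, Set.mem_singleton_iff] at he he'
  rw [he, he']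

/-- The outer end is unique. -/
theorem crsO_unique {ω : Cfg} {a b : ℤ} (ha : 1 ≤ a) (hab : a < b) (h : nH ω a b = 1) {t t' : UE}
    (ht : t ∈ CrsO ω a b) (ht' : t' ∈ CrsO ω a b) : t = t' := by
  obtain ⟨hb, e, he, hm⟩ := ht
  obtain ⟨hb', e', he', hm'⟩ := ht'
  have h1 : e = e' := crs_unique h ⟨he, t, hb, hm⟩ ⟨he', t', hb', hm'⟩
  subst h1
  exact bdU_unique (bdU_in ha hab he) hm hm' (bdU_out ha hab hb) (bdU_out ha hab hb')
    (bd_ne (by omega) hab he hb) (bd_ne (by omega) hab he hb')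

theorem finite_bdH (w : ℤ) : {e : UE | BdH w e}.Finite := by
  refine Set.Finite.subset ((((Finset.Icc (-w) (w + 1)) ×ˢ ((Finset.Icc 0 w) ×ˢ
    (Finset.univ : Finset Bool))) : Finset (ℤ × ℤ × Bool)).finite_toSet) ?_
  rintro ⟨x, y, b⟩ he
  rw [Finset.mem_coe, Finset.mem_product, Finset.mem_product, Finset.mem_Icc, Finset.mem_Icc]
  unfold BdH BdF at he
  simp only [Set.mem_ofPred_eq] at he
  simp only [Finset.mem_univ, and_true]
  rcases he with he | he <;> omega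

theorem lg_of_mem {ω : Cfg} {a b : ℤ} {e : UE} (he : e ∈ Crs ω a b) : ω ∈ Lg a b := by
  have hfin : (Crs ω a b).Finite := (finite_bdH a).subset fun e he => he.1
  change 1 ≤ (Crs ω a b).ncard
  rw [Nat.one_le_iff_ne_zero, Ne, Set.ncard_eq_zero hfin]
  exact Set.nonempty_iff_ne_empty.1 ⟨e, he⟩

theorem RO_eq (v : Lev) :
    RO v = BoxD (-v.b') (v.b' + 1) v.b' (-v.q) (v.q + 1) (4 * v.u) := by
  ext f
  rw [mem_RO]
  unfold BoxD
  rw [Set.mem_ofPred_eq]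
  omega

theorem RI_eq (v : Lev) :
    RI v = BoxD (-v.s) (v.s + 1) v.u (-v.a) (v.a + 1) v.a := by
  ext f
  rw [mem_RI]
  unfold BoxD
  rw [Set.mem_ofPred_eq]
  omega

theorem HR_eq (a b : ℤ) : HR a b = BoxD (-b) (b + 1) b (-a) (a + 1) a := by
  ext f
  rw [mem_HR]
  unfold BoxD
  rw [Set.mem_ofPred_eq]
  omega

/-- On the good event there are tips such that the tubes glue. -/
theorem glued {v : Lev} (hv : v.Ok) {ω : Cfg} (hω : ω ∈ Gd v) : ∃ p p' : ℤ, |2 * p| ≤ v.s ∧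
    |p'| ≤ v.q - 8 * v.u ∧ ∀ ξ ∈ TubV (p + 1 + v.u) p v.u p' (4 * v.u) (v.u / 8),
      mix (EE v ω) ω ξ ∈ Gl v := by
  obtain ⟨hn, hn', p, p', ⟨hp, e, he, hme⟩, ⟨hp', t, ht, hmt⟩, h1, h2, h3⟩ := hω
  obtain ⟨ha, hb, hu, hs, hq, ha', hb'⟩ := hv
  refine ⟨p, p', h1, h2, fun ξ hξ => ?_⟩
  rw [abs_le] at h1 h2
  obtain ⟨f, g, hf, hg, f1, f2, g1, g2⟩ := sides (by omega) ha he.1
  obtain ⟨k, l, hk, hl, k1, k2, l1, l2⟩ := sides (w := v.b') (h := v.b') (by omega) (by omega) ht.1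
  have hσ : v.u / 8 * 8 ≤ v.u := by omega
  have hσ' : v.u < (v.u / 8) * 8 + 8 := by omega
  have key : e ∈ MM (mix (EE v ω) ω ξ)
      (BoxD (-v.b') (v.b' + 1) v.b' (-v.a) (v.a + 1) v.a) t := by
    refine glue_tub (X₀ := -v.b') (X₁ := v.b' + 1) (Y₁ := v.b') (B₀ := -v.q) (B₁ := v.q + 1)
      (I₀ := -v.s) (I₁ := v.s + 1) (A₀ := -v.a) (A₁ := v.a + 1) (A₂ := v.a) (x := p) (h := v.u)
      (x' := p') (h' := 4 * v.u) (s := v.u / 8) ?_ (by omega) (by omega) ?_ ?_ ?_ ?_ ?_ ?_ ?_ ?_ ?_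
      ?_ hξ
    · constructor <;> omega
    · refine ⟨k, ?_, hk⟩
      rw [← RO_eq v, mem_RO]
      omega
    · refine ⟨l, ?_, hl⟩
      rw [PlanarB.mem_RF]
      omega
    · rw [← RO_eq v]
      exact hmt
    · refine ⟨g, ?_, hg⟩
      rw [← RI_eq v, mem_RI]
      omega
    · refine ⟨f, ?_, hf⟩
      rw [PlanarB.mem_RF]
      omega
    · rw [← RI_eq v]
      exact hme
    · omega
    · rw [← RO_eq v]
      intro x hx
      exact Or.inr (Or.inr (Or.inr ⟨t, ht, hx⟩))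
    · rw [← RI_eq v]
      intro x hx
      exact Or.inr (Or.inr (Or.inl ⟨e, he, hx⟩))
    · rw [← RO_eq v, ← RI_eq v]
      intro x hx x1 x2 x3 x4
      rcases hx with hx | hx | ⟨e', he', hx⟩ | ⟨t', ht', hx⟩
      · rw [mem_HB] at hx
        omega
      · rw [mem_HB] at hx
        omega
      · rw [crs_unique hn he' he] at hx
        exact Or.inr hx
      · rw [crsO_unique (by omega) (by omega) hn' ht' ht] at hx
        exact Or.inl hx
  rw [← HR_eq] at key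
  exact lg_of_mem ⟨he.1, t, ht.1, MM_symm key⟩

end GlueAux

open GlueAux in
/-- **Row T5.** -/
theorem glue : Glue := by
  intro M Lam Q hpar
  obtain ⟨c, hc, hpr⟩ := pr_TubV (32 * Q + 48).toNat
  refine ⟨c, hc, fun a W ha hW ω hω => ?_⟩
  have hv := hpar.ok ha
  set v := lev M Lam Q a with hvdef
  obtain ⟨p, p', h1, h2, h3⟩ := glued hv hω
  rw [ce_ind]
  have hq : v.q = Q * v.u := rfl
  obtain ⟨ha, hb, hu, hs, hq64, ha', hb'⟩ := hv
  have hQ : 0 < Q := by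
    have := hpar.hL
    have := hpar.hQ
    omega
  have hσ' : v.u < (v.u / 8) * 8 + 8 := by omega
  have hK : (((32 * Q + 48).toNat : ℕ) : ℤ) = 32 * Q + 48 := Int.toNat_of_nonneg (by omega)
  rw [abs_le] at h1 h2
  refine (hpr (p + 1 + v.u) p v.u p' (4 * v.u) (v.u / 8) W (by omega) ?_ (by omega) ?_ ?_).trans
    (pr_mono _ fun T hT => h3 _ hT)
  · rw [hK, abs_le]
    have e1 : v.u ≤ 16 * (v.u / 8) := by omega
    have e2 : Q * v.u ≤ Q * (16 * (v.u / 8)) := mul_le_mul_of_nonneg_left e1 hQ.le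
    have e3 : (32 * Q + 48) * (v.u / 8) = 2 * (Q * (16 * (v.u / 8))) + 48 * (v.u / 8) := by ring
    rw [e3]
    constructor <;> omega
  · rw [hK]
    have e0 : 0 ≤ Q * (v.u / 8) := mul_nonneg hQ.le (by omega)
    have e3 : (32 * Q + 48) * (v.u / 8) = 32 * (Q * (v.u / 8)) + 48 * (v.u / 8) := by ring
    rw [e3]
    omega
  · refine subset_trans ?_ hW
    intro f hf
    unfold TubWin at hf
    rw [PlanarB.mem_RF] at hf
    rw [mem_HB]
    omega

end Pool.Agent.SixB.Leg
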