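import Pool.Agent.Lib.SixB.S4Half

/-!
# Probability of legs across rings of half boxes (6BD, block S4, row (d))
-/

set_option autoImplicit false

namespace Pool.Agent.SixB

open Finset Pool.Agent.Perc Pool.Agent.PercD

namespace Half

/-- A strand crosses the ring of the half boxes of radius `a` and `b` (axis `1/2`). -/
def Lg (a b : ℤ) : Set Cfg :=
  {ω | ∃ e e' : UE, S3 (-a) (a + 1) a e ∧ S3 (-b) (b + 1) b e' ∧
    e' ∈ MM ω (RF (-b) (b + 1) 0 b \ RF (-a) (a + 1) 0 a : Set (ℤ × ℤ)) e}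

/-- Two different strands cross the ring. -/
def Lg2 (a b : ℤ) : Set Cfg :=
  {ω | ∃ e e' e₂ e₂' : UE, e ≠ e₂ ∧ (S3 (-a) (a + 1) a e ∧ S3 (-b) (b + 1) b e' ∧
    e' ∈ MM ω (RF (-b) (b + 1) 0 b \ RF (-a) (a + 1) 0 a : Set (ℤ × ℤ)) e) ∧
    (S3 (-a) (a + 1) a e₂ ∧ S3 (-b) (b + 1) b e₂' ∧
    e₂' ∈ MM ω (RF (-b) (b + 1) 0 b \ RF (-a) (a + 1) 0 a : Set (ℤ × ℤ)) e₂)}

theorem depOn_X1 (v : ℤ × ℤ) (r R : ℤ) : DepOn (HA v r R) (X1 v r R) := by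
  intro ω ω' h
  unfold X1
  simp only [Set.mem_ofPred_eq]
  have : ∀ b, MM ω' (HA v r R) b = MM ω (HA v r R) b := fun b => MM_congr' h
  simp only [this]

theorem depOn_X2 (v : ℤ × ℤ) (r R : ℤ) : DepOn (HA v r R) (A2.X2 v r R) := by
  intro ω ω' h
  unfold A2.X2
  simp only [Set.mem_ofPred_eq]
  have : ∀ b, MM ω' {f | f ∈ BR v R ∧ f ∉ BR v r ∧ v.2 ≤ f.2} b =
      MM ω {f | f ∈ BR v R ∧ f ∉ BR v r ∧ v.2 ≤ f.2} b := fun b => MM_congr' h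
  simp only [this]

theorem depOn_Lg (a b : ℤ) :
    DepOn ((RF (-b) (b + 1) 0 b \ RF (-a) (a + 1) 0 a : Finset (ℤ × ℤ)) : Set (ℤ × ℤ)) (Lg a b) := by
  intro ω ω' h
  rw [coe_sdiff] at h
  unfold Lg
  simp only [Set.mem_ofPred_eq]
  have : ∀ e, MM ω' (RF (-b) (b + 1) 0 b \ RF (-a) (a + 1) 0 a : Set (ℤ × ℤ)) e =
      MM ω (RF (-b) (b + 1) 0 b \ RF (-a) (a + 1) 0 a : Set (ℤ × ℤ)) e := fun b => MM_congr' h
  simp only [this]

theorem depOn_Lg2 (a b : ℤ) :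
    DepOn ((RF (-b) (b + 1) 0 b \ RF (-a) (a + 1) 0 a : Finset (ℤ × ℤ)) : Set (ℤ × ℤ))
      (Lg2 a b) := by
  intro ω ω' h
  rw [coe_sdiff] at h
  unfold Lg2
  simp only [Set.mem_ofPred_eq]
  have : ∀ e, MM ω' (RF (-b) (b + 1) 0 b \ RF (-a) (a + 1) 0 a : Set (ℤ × ℤ)) e =
      MM ω (RF (-b) (b + 1) 0 b \ RF (-a) (a + 1) 0 a : Set (ℤ × ℤ)) e := fun b => MM_congr' h
  simp only [this]

/-- The window of an event: two windows which contain the support give the same probability. -/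
theorem pr_two {S : Set (ℤ × ℤ)} {A : Set Cfg} (hA : DepOn S A) {W W' : Finset (ℤ × ℤ)}
    (h : S ⊆ W) (h' : S ⊆ W') : pr W A = pr W' A := by
  have h1 : DepOn ((W ∩ W' : Finset (ℤ × ℤ)) : Set (ℤ × ℤ)) A := by
    intro ω ω' hω
    exact hA ω ω' fun f hf => hω f (mem_coe.2 (Finset.mem_inter.2
      ⟨mem_coe.1 (h hf), mem_coe.1 (h' hf)⟩))
  rw [pr_eq_of_depOn h1 Finset.inter_subset_left, pr_eq_of_depOn h1 Finset.inter_subset_right]

/-- One leg in a window which contains only the faces of the half annulus. -/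
theorem x1_le (H : OneLeg) : ∃ C : ℝ, 0 < C ∧ ∀ (v : ℤ × ℤ) (r R : ℤ) (W : Finset (ℤ × ℤ)),
    1 ≤ r → r ≤ R → HA v r R ⊆ W → pr W (X1 v r R) ≤ C * ((r : ℝ) / R) := by
  obtain ⟨C, hC, h⟩ := H
  refine ⟨C, hC, fun v r R W hr hR hW => ?_⟩
  rw [pr_two (depOn_X1 v r R) hW (W' := BR v R) fun f hf => hf.1]
  exact h v r R (BR v R) hr hR (Finset.Subset.refl _)

theorem x2_le (H : A2.TwoLegs) : ∃ C : ℝ, 0 < C ∧ ∀ (v : ℤ × ℤ) (r R : ℤ) (W : Finset (ℤ × ℤ)),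
    1 ≤ r → r ≤ R → HA v r R ⊆ W → pr W (A2.X2 v r R) ≤ C * ((r : ℝ) / R) ^ 2 := by
  obtain ⟨C, hC, h⟩ := H
  refine ⟨C, hC, fun v r R W hr hR hW => ?_⟩
  rw [pr_two (depOn_X2 v r R) hW (W' := BR v R) fun f hf => hf.1]
  exact h v r R (BR v R) hr hR (Finset.Subset.refl _)

theorem lg_sub_x1 {a b : ℤ} (ha : 1 ≤ a) (hab : a + 1 < b) : Lg a b ⊆ X1 (0, 0) (a + 1) b := by
  rintro ω ⟨e, e', h1, h2, h3⟩
  exact x1_of_ring (0, 0) rfl (by omega) (by omega) (by simp) (by simp) (by omega)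
    (by simp) (by simp) le_rfl hab h1 h3 h2

theorem lg2_sub_x2 {a b : ℤ} (ha : 1 ≤ a) (hab : a + 1 < b) : Lg2 a b ⊆ A2.X2 (0, 0) (a + 1) b := by
  rintro ω ⟨e, e', e₂, e₂', hne, ⟨h1, h2, h3⟩, h4, h5, h6⟩
  exact x2_of_ring (0, 0) rfl (by omega) (by omega) (by simp) (by simp) (by omega)
    (by simp) (by simp) le_rfl hab hne h1 h3 h2 h4 h6 h5

theorem ha_sub_RF {a b : ℤ} : HA (0, 0) (a + 1) b ⊆ (RF (-b) (b + 1) 0 b : Set (ℤ × ℤ)) := by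
  rintro f ⟨h1, -, h3⟩
  rw [mem_BR] at h1
  rw [mem_RF']
  simp only at h1 h3
  omega

/-- **One leg across a ring of half boxes.** -/
theorem lg_le (H : OneLeg) : ∃ C : ℝ, 1 ≤ C ∧ ∀ (a b : ℤ) (W : Finset (ℤ × ℤ)), 1 ≤ a → a ≤ b →
    RF (-b) (b + 1) 0 b ⊆ W → pr W (Lg a b) ≤ C * ((a : ℝ) / b) := by
  obtain ⟨C, hC, h⟩ := x1_le H
  refine ⟨2 * C + 2, by linarith, fun a b W ha hab hW => ?_⟩
  have ha0 : (0 : ℝ) < a := by exact_mod_cast (by omega : 0 < a)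
  have hb0 : (0 : ℝ) < b := by exact_mod_cast (by omega : 0 < b)
  have ha1 : (1 : ℝ) ≤ a := by exact_mod_cast ha
  by_cases hlt : a + 1 < b
  · refine ((pr_mono W (lg_sub_x1 ha hlt)).trans (h (0, 0) (a + 1) b W (by omega) (by omega)
      (ha_sub_RF.trans (Finset.coe_subset.2 hW)))).trans ?_
    push_cast
    rw [← mul_div_assoc, ← mul_div_assoc]
    refine div_le_div_of_nonneg_right ?_ hb0.le
    nlinarith
  · refine (pr_le_one _ _).trans ?_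
    have hb2 : (b : ℝ) ≤ a + 1 := by
      have : b ≤ a + 1 := by omega
      exact_mod_cast this
    rw [← mul_div_assoc, le_div_iff₀ hb0]
    nlinarith

/-- **Two legs across a ring of half boxes.** -/
theorem lg2_le (H : A2.TwoLegs) : ∃ C : ℝ, 1 ≤ C ∧ ∀ (a b : ℤ) (W : Finset (ℤ × ℤ)), 1 ≤ a →
    a ≤ b → RF (-b) (b + 1) 0 b ⊆ W → pr W (Lg2 a b) ≤ C * ((a : ℝ) / b) ^ 2 := by
  obtain ⟨C, hC, h⟩ := x2_le H
  refine ⟨4 * C + 4, by linarith, fun a b W ha hab hW => ?_⟩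
  have ha0 : (0 : ℝ) < a := by exact_mod_cast (by omega : 0 < a)
  have hb0 : (0 : ℝ) < b := by exact_mod_cast (by omega : 0 < b)
  have ha1 : (1 : ℝ) ≤ a := by exact_mod_cast ha
  by_cases hlt : a + 1 < b
  · refine ((pr_mono W (lg2_sub_x2 ha hlt)).trans (h (0, 0) (a + 1) b W (by omega) (by omega)
      (ha_sub_RF.trans (Finset.coe_subset.2 hW)))).trans ?_
    push_cast
    rw [div_pow, div_pow, ← mul_div_assoc, ← mul_div_assoc]
    refine div_le_div_of_nonneg_right ?_ (by positivity)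
    have h1 : ((a : ℝ) + 1) ^ 2 ≤ 4 * (a : ℝ) ^ 2 := by nlinarith
    have h2 := mul_le_mul_of_nonneg_left h1 hC.le
    nlinarith [sq_nonneg (a : ℝ)]
  · refine (pr_le_one _ _).trans ?_
    have hb2 : (b : ℝ) ≤ a + 1 := by
      have : b ≤ a + 1 := by omega
      exact_mod_cast this
    rw [div_pow, ← mul_div_assoc, le_div_iff₀ (by positivity)]
    nlinarith [mul_pos hb0 hb0]

/-- A leg across a ring of half boxes crosses the rings inside. -/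
theorem lg_mono {a b a' b' : ℤ} (ha : 0 ≤ a) (h1 : a ≤ a') (h2 : a' < b') (h3 : b' ≤ b) :
    Lg a b ⊆ Lg a' b' := by
  rintro ω ⟨e, e', k1, k2, k3⟩
  obtain ⟨x, y, -, m2, m3, m4⟩ := ring (p₀ := -a') (p₁ := a' + 1) (s := a') (q₀ := -b')
    (q₁ := b' + 1) (t := b') (by omega) ha (by omega) (by omega) h1 (by omega) (by omega) h3
    (by omega) (by omega) h2 k1 k3 k2
  exact ⟨x, y, m2, m3, m4⟩

end Half

end Pool.Agent.SixB
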