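import Pool.Agent.Lib.MP_6bd702_zc.Y017

/-!
# Lengthwise crossings of long rectangles (6BD, block S4, row (d))
-/

set_option autoImplicit false

namespace Pool.Agent.SixB

open Finset Pool.Agent.Perc

/-- A crossing of a long rectangle crosses a shorter one. -/
theorem lr_sub {ω : Cfg} {c x₀ x₁ a b y₀ y₁ : ℤ} (h1 : x₀ ≤ a) (h2 : a < b) (h3 : b ≤ x₁)
    (h : ω ∈ LR c x₀ x₁ y₀ y₁) : ω ∈ LR c a b y₀ y₁ := by
  obtain ⟨u, v, hu, hu1, hu2, hv, hp, hc⟩ := h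
  refine lr_of_conn (F := (RF x₀ x₁ y₀ y₁ : Set (ℤ × ℤ))) ?_ h2 hp (by omega) (by omega) hc
  intro f hf
  have := mem_RFi.1 (mem_coe.1 hf)
  omega

theorem bt_sub {ω : Cfg} {c x₀ x₁ a b y₀ y₁ : ℤ} (h1 : y₀ ≤ a) (h2 : a < b) (h3 : b ≤ y₁)
    (h : ω ∈ BT c x₀ x₁ y₀ y₁) : ω ∈ BT c x₀ x₁ a b := by
  obtain ⟨u, v, hu, hu1, hu2, hv, hp, hc⟩ := h
  refine bt_of_conn (F := (RF x₀ x₁ y₀ y₁ : Set (ℤ × ℤ))) ?_ h2 hp (by omega) (by omega) hc
  intro f hf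
  have := mem_RFi.1 (mem_coe.1 hf)
  omega

/-- Lengthwise crossings are exponentially unlikely. -/
theorem long_LR : ∃ q : ℝ, 0 < q ∧ q < 1 ∧ ∀ (n : ℕ) (c x₀ x₁ y₀ u : ℤ) (W : Finset (ℤ × ℤ)),
    0 < u → n * u ≤ x₁ - x₀ → RF x₀ x₁ y₀ (y₀ + u) ⊆ W → x₀ < x₁ →
      pr W (LR c x₀ x₁ y₀ (y₀ + u)) ≤ q ^ n := by
  obtain ⟨q, h0, h1, h⟩ := PercN.pr_LR_lt 1
  refine ⟨q, h0, h1, ?_⟩
  intro n
  induction n with
  | zero =>
    intro c x₀ x₁ y₀ u W _ _ _ _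
    rw [pow_zero]
    exact pr_le_one _ _
  | succ n ih =>
    intro c x₀ x₁ y₀ u W hu hn hW hx
    push_cast at hn
    have hn' : (n : ℤ) * u + u ≤ x₁ - x₀ := by
      have : ((n : ℤ) + 1) * u = n * u + u := by ring
      omega
    have hnu : 0 ≤ (n : ℤ) * u := by positivity
    rcases Nat.eq_zero_or_pos n with rfl | hpos
    · rw [pow_succ, pow_zero, one_mul]
      rw [pr_LR_window hW]
      exact h c x₀ x₁ y₀ (y₀ + u) hx (by omega) (by push_cast; omega)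
    · have hnu' : u ≤ (n : ℤ) * u := by
        have : (1 : ℤ) ≤ n := by exact_mod_cast hpos
        nlinarith
      have hW1 : RF x₀ (x₀ + u) y₀ (y₀ + u) ⊆ W := by
        refine Finset.Subset.trans (fun f hf => ?_) hW
        rw [mem_RFi] at hf ⊢
        omega
      have hW2 : RF (x₀ + u) x₁ y₀ (y₀ + u) ⊆ W := by
        refine Finset.Subset.trans (fun f hf => ?_) hW
        rw [mem_RFi] at hf ⊢
        omega
      have hsub : ∀ ω ∈ LR c x₀ x₁ y₀ (y₀ + u),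
          ω ∈ LR c x₀ (x₀ + u) y₀ (y₀ + u) ∩ LR c (x₀ + u) x₁ y₀ (y₀ + u) := fun ω hω =>
        ⟨lr_sub le_rfl (by omega) (by omega) hω, lr_sub (by omega) (by omega) le_rfl hω⟩
      refine (pr_mono W hsub).trans ?_
      rw [PercD.pr_indep (depOn_LR _ _ _ _ _) (depOn_LR _ _ _ _ _) (by
        rw [Finset.disjoint_left]
        intro f hf hf'
        rw [mem_RFi] at hf hf'
        omega) hW1 hW2, ← pr_LR_window hW2 (x₀ := x₀ + u), pow_succ, mul_comm]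
      refine mul_le_mul (ih c (x₀ + u) x₁ y₀ u W hu (by omega) hW2 (by omega)) ?_ (pr_nonneg _ _)
        (by positivity)
      exact h c x₀ (x₀ + u) y₀ (y₀ + u) (by omega) (by omega) (by push_cast; omega)

end Pool.Agent.SixB
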