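import Pool.Agent.Lib.SixB.S4LegDefs
import Pool.Agent.Lib.SixB.S4HalfP
import Pool.Agent.Lib.SixB.S4Long
import Pool.Agent.Lib.SixB.A1Final
import Pool.Agent.Lib.SixB.A2Final

/-!
# 6BD step 4, one leg oddness: probabilities (rows LegPr, BadPr)

`legPr : LegPr`, `badPr : BadPr`. One leg (A1), two legs (A2), crossings of long rectangles,
independence of disjoint sets of faces.
-/

set_option autoImplicit false

namespace Pool.Agent.SixB.Leg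

open Finset Pool.Agent.Perc Pool.Agent.PercD Pool.Agent.PercN

namespace PrA

variable {ω ω' : Cfg} {a b : ℤ} {e : UE}

theorem oneLeg' : Half.OneLeg := by
  obtain ⟨C, hC, h⟩ := A1.oneLeg
  exact ⟨C, hC, h⟩

theorem twoLegs' : A2.TwoLegs := A2.twoLegs

/-! ### Bridge to `Half` -/

theorem hr_eq (a b : ℤ) :
    HR a b = (RF (-b) (b + 1) 0 b \ RF (-a) (a + 1) 0 a : Set (ℤ × ℤ)) := rfl

theorem bdH_iff (a : ℤ) (e : UE) : BdH a e ↔ Half.S3 (-a) (a + 1) a e := by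
  unfold BdH BdF Half.S3
  constructor
  · rintro (⟨h1, h2, h3, h4⟩ | ⟨h1, h2, h3, h4⟩)
    · exact Or.inl ⟨h1, h3, h4, h2⟩
    · exact Or.inr ⟨h1, h3, h4, h2⟩
  · rintro (⟨h1, h2, h3, h4⟩ | ⟨h1, h2, h3, h4⟩)
    · exact Or.inl ⟨h1, h4, h2, h3⟩
    · exact Or.inr ⟨h1, h4, h2, h3⟩

theorem lg_sub (a b : ℤ) : Lg a b ⊆ Half.Lg a b := by
  intro ω h
  have h1 : 1 ≤ (Crs ω a b).ncard := h
  obtain ⟨e, he, t, ht, hm⟩ := Set.nonempty_of_ncard_ne_zero (by omega : (Crs ω a b).ncard ≠ 0)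
  exact ⟨e, t, (bdH_iff a e).1 he, (bdH_iff b t).1 ht, hm⟩

/-- Two strands cross. -/
def L2 (a b : ℤ) : Set Cfg := {ω | 2 ≤ nH ω a b}

theorem lg2_sub (a b : ℤ) : L2 a b ⊆ Half.Lg2 a b := by
  intro ω h
  have h1 : 2 ≤ (Crs ω a b).ncard := h
  obtain ⟨e, ⟨he, t, ht, hm⟩⟩ :=
    Set.nonempty_of_ncard_ne_zero (by omega : (Crs ω a b).ncard ≠ 0)
  obtain ⟨e', ⟨he', t', ht', hm'⟩, hne⟩ :=
    Set.exists_ne_of_one_lt_ncard (s := Crs ω a b) (by omega) e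
  exact ⟨e, t, e', t', hne.symm, ⟨(bdH_iff a e).1 he, (bdH_iff b t).1 ht, hm⟩,
    (bdH_iff a e').1 he', (bdH_iff b t').1 ht', hm'⟩

theorem crs_congr (h : ∀ f ∈ HR a b, ω f = ω' f) : Crs ω' a b = Crs ω a b := by
  unfold Crs
  have : ∀ e, MM ω' (HR a b) e = MM ω (HR a b) e := fun e => MM_congr' h
  simp only [this]

theorem depOn_nH (a b : ℤ) (P : ℕ → Prop) :
    DepOn ((HB b \ HB a : Finset (ℤ × ℤ)) : Set (ℤ × ℤ)) {ω | P (nH ω a b)} := by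
  intro ω ω' h
  have : nH ω' a b = nH ω a b := by
    unfold nH
    rw [crs_congr fun f hf => h f ?_]
    rw [coe_sdiff]
    exact hf
  rw [Set.mem_ofPred_eq, Set.mem_ofPred_eq, this]

theorem depOn_Lg (a b : ℤ) :
    DepOn ((HB b \ HB a : Finset (ℤ × ℤ)) : Set (ℤ × ℤ)) (Lg a b) :=
  depOn_nH a b fun n => 1 ≤ n

theorem depOn_L2 (a b : ℤ) :
    DepOn ((HB b \ HB a : Finset (ℤ × ℤ)) : Set (ℤ × ℤ)) (L2 a b) :=
  depOn_nH a b fun n => 2 ≤ n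

theorem pr_Lg : ∃ C : ℝ, 1 ≤ C ∧ ∀ (a b : ℤ) (W : Finset (ℤ × ℤ)), 1 ≤ a → a ≤ b →
    HB b ⊆ W → pr W (Lg a b) ≤ C * ((a : ℝ) / b) := by
  obtain ⟨C, hC, h⟩ := Half.lg_le oneLeg'
  exact ⟨C, hC, fun a b W ha hab hW => (pr_mono _ fun ω hω => lg_sub a b hω).trans
    (h a b W ha hab hW)⟩

theorem pr_L2 : ∃ C : ℝ, 1 ≤ C ∧ ∀ (a b : ℤ) (W : Finset (ℤ × ℤ)), 1 ≤ a → a ≤ b →
    HB b ⊆ W → pr W (L2 a b) ≤ C * ((a : ℝ) / b) ^ 2 := by
  obtain ⟨C, hC, h⟩ := Half.lg2_le twoLegs'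
  exact ⟨C, hC, fun a b W ha hab hW => (pr_mono _ fun ω hω => lg2_sub a b hω).trans
    (h a b W ha hab hW)⟩

/-! ### The mean number of strands -/

theorem nH_le (ha : 1 ≤ a) (hab : 4 * a ≤ b) (ω : Cfg) :
    nH ω a b ≤ NC (0, 0) (a + 1) (2 * (a + 1)) ω := by
  classical
  have H : ∀ e ∈ Crs ω a b, ∃ b', b' ∈ MM ω (HR a b) e ∧ BdR (0, 0) (a + 1) b' ∧
      ∃ c ∈ MM ω (An (0, 0) (a + 1) (2 * (a + 1))) b', BdR (0, 0) (2 * (a + 1)) c := by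
    rintro e ⟨he, t, ht, hm⟩
    obtain ⟨b', c, h1, h2, h3, h4⟩ := Half.ring (x₀ := -a) (x₁ := a + 1) (h := a) (X₀ := -b)
      (X₁ := b + 1) (H := b) (p₀ := (0 : ℤ × ℤ).1 - (a + 1)) (p₁ := (0 : ℤ × ℤ).1 + (a + 1))
      (s := a + 1) (q₀ := (0 : ℤ × ℤ).1 - 2 * (a + 1)) (q₁ := (0 : ℤ × ℤ).1 + 2 * (a + 1))
      (t := 2 * (a + 1)) (by omega) (by omega) (by simp) (by simp) (by omega)
      (by simp only [Prod.fst_zero]; omega) (by simp only [Prod.fst_zero]; omega) (by omega)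
      (by simp only [Prod.fst_zero]; omega) (by simp only [Prod.fst_zero]; omega) (by omega)
      ((bdH_iff a e).1 he) hm ((bdH_iff b t).1 ht)
    refine ⟨b', h1, h2.bdR (0, 0) rfl (by omega), c, MM_mono ?_ h4, h3.bdR (0, 0) rfl (by omega)⟩
    intro f hf
    have := Half.ha_eq (0, 0) rfl hf
    unfold Half.HA at this
    rw [Set.mem_ofPred_eq] at this
    rw [mem_coe, mem_An]
    exact ⟨this.1, this.2.1⟩
  choose! t ht1 ht2 ht3 using H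
  unfold nH PercN.NC
  rw [← Set.ncard_coe_finset]
  refine Set.ncard_le_ncard_of_injOn t (fun e he => ?_) ?_ (Finset.finite_toSet _)
  · obtain ⟨c, h1, h2⟩ := ht3 e he
    exact mem_coe.2 ((mem_NP (by omega)).2 ⟨ht2 e he, c, h1, h2, trivial⟩)
  · intro e he e' he' hee
    have he0 := he
    have he0' := he'
    obtain ⟨k1, w, k2, k3⟩ := he
    obtain ⟨l1, -⟩ := he'
    have hin : ∀ {x : UE}, BdH a x → PercN.BdF (HR a b) x := fun hx =>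
      Half.bdF_inner (by omega) (by omega) ((bdH_iff a _).1 hx)
    have hout : PercN.BdF (HR a b) w := Half.bdF_outer ((bdH_iff b w).1 k2)
    have hne : ∀ {x : UE}, BdH a x → x ≠ w := by
      intro x hx hxw
      subst hxw
      unfold BdH BdF at hx k2
      omega
    have e1 : e ∈ MM ω (HR a b) w := MM_symm k3
    have e2 : e' ∈ MM ω (HR a b) w := by
      refine MM_trans (MM_trans e1 (ht1 e he0)) ?_
      rw [hee]
      exact MM_symm (ht1 e' he0')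
    exact other_unique hout e1 e2 (hin k1) (hin l1) (hne k1) (hne l1)

theorem mean_nH : ∃ C : ℝ, 0 < C ∧ ∀ (a b : ℤ) (W : Finset (ℤ × ℤ)), 1 ≤ a → 4 * a ≤ b →
    HB b ⊆ W → exr W (fun ω => (nH ω a b : ℝ)) ≤ C := by
  obtain ⟨C, hC, h⟩ := moment_NC 1
  refine ⟨C, hC, fun a b W ha hab hW => ?_⟩
  have hdep : DepF (HB b : Set (ℤ × ℤ)) (fun ω => (nH ω a b : ℝ)) := by
    intro ω ω' hω
    change (((Crs ω a b).ncard : ℕ) : ℝ) = (((Crs ω' a b).ncard : ℕ) : ℝ)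
    rw [crs_congr fun f hf => hω f (mem_coe.2 hf.1)]
  rw [exr_window hW hdep]
  have hV : HB b ⊆ HB b ∪ BR (0, 0) (2 * (a + 1)) := subset_union_left
  rw [← exr_window hV hdep]
  have h1 : exr (HB b ∪ BR (0, 0) (2 * (a + 1)))
      (fun ω => (NC (0, 0) (a + 1) (2 * (a + 1)) ω : ℝ)) ≤ C := by
    have h2 := h (0, 0) (a + 1) (HB b ∪ BR (0, 0) (2 * (a + 1))) (by omega) subset_union_right
    simp only [pow_one] at h2
    exact h2
  refine le_trans (exr_mono fun T _ => ?_) h1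
  exact_mod_cast nH_le ha hab (cfg T)

end PrA

/-- **LegPr.** -/
theorem legPr : LegPr := by
  obtain ⟨C, hC, h⟩ := PrA.pr_Lg
  obtain ⟨C', hC', h'⟩ := PrA.mean_nH
  refine ⟨C + C', by linarith, fun a b W ha hab hW => ⟨(h a b W ha hab hW).trans ?_, fun hab' =>
    (h' a b W ha hab' hW).trans (by linarith)⟩⟩
  have h1 : (0 : ℝ) ≤ (a : ℝ) / b := by
    have h2 : (0 : ℝ) < a := by exact_mod_cast (by omega : 0 < a)
    have h3 : (0 : ℝ) < b := by exact_mod_cast (by omega : 0 < b)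
    positivity
  exact mul_le_mul_of_nonneg_right (by linarith) h1

namespace PrA

/-! ### Independence -/

theorem pr_and {W S S' : Finset (ℤ × ℤ)} {A B : Set Cfg} (hA : DepOn (S : Set (ℤ × ℤ)) A)
    (hB : DepOn (S' : Set (ℤ × ℤ)) B) (hd : Disjoint S S') (h : S ⊆ W) (h' : S' ⊆ W) :
    pr W (A ∩ B) = pr W A * pr W B := by
  rw [pr_indep hA hB hd h h', pr_eq_of_depOn hA h, pr_eq_of_depOn hB h']

theorem depOn_and {S S' : Finset (ℤ × ℤ)} {A B : Set Cfg} (hA : DepOn (S : Set (ℤ × ℤ)) A)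
    (hB : DepOn (S' : Set (ℤ × ℤ)) B) : DepOn ((S ∪ S' : Finset (ℤ × ℤ)) : Set (ℤ × ℤ)) (A ∩ B) := by
  intro ω ω' h
  have h1 := hA ω ω' fun f hf => h f (mem_coe.2 (mem_union_left _ (mem_coe.1 hf)))
  have h2 := hB ω ω' fun f hf => h f (mem_coe.2 (mem_union_right _ (mem_coe.1 hf)))
  rw [Set.mem_inter_iff, Set.mem_inter_iff, h1, h2]

/-- Three independent events, the third one is a union. -/
theorem pr_three {W S S' S'' S₂ : Finset (ℤ × ℤ)} {A B D D' : Set Cfg} {x y z z' : ℝ}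
    (hA : DepOn (S : Set (ℤ × ℤ)) A) (hB : DepOn (S' : Set (ℤ × ℤ)) B)
    (hD : DepOn (S'' : Set (ℤ × ℤ)) D) (hD' : DepOn (S₂ : Set (ℤ × ℤ)) D')
    (d1 : Disjoint S S') (d2 : Disjoint (S ∪ S') S'') (d3 : Disjoint (S ∪ S') S₂)
    (w1 : S ⊆ W) (w2 : S' ⊆ W) (w3 : S'' ⊆ W) (w4 : S₂ ⊆ W) (hx : pr W A ≤ x) (hy : pr W B ≤ y)
    (hz : pr W D ≤ z) (hz' : pr W D' ≤ z') :
    pr W ((A ∩ B) ∩ (D ∪ D')) ≤ x * y * (z + z') := by
  have hx0 : 0 ≤ x := (pr_nonneg _ _).trans hx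
  have hy0 : 0 ≤ y := (pr_nonneg _ _).trans hy
  have h0 : pr W (A ∩ B) ≤ x * y := by
    rw [pr_and hA hB d1 w1 w2]
    exact mul_le_mul hx hy (pr_nonneg _ _) hx0
  have h1 : pr W ((A ∩ B) ∩ D) ≤ x * y * z := by
    rw [pr_and (depOn_and hA hB) hD d2 (union_subset w1 w2) w3]
    exact mul_le_mul h0 hz (pr_nonneg _ _) (by positivity)
  have h2 : pr W ((A ∩ B) ∩ D') ≤ x * y * z' := by
    rw [pr_and (depOn_and hA hB) hD' d3 (union_subset w1 w2) w4]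
    exact mul_le_mul h0 hz' (pr_nonneg _ _) (by positivity)
  rw [Set.inter_union_distrib_left]
  refine (pr_union_le W _ _).trans ?_
  rw [mul_add]
  exact add_le_add h1 h2

/-! ### Long rectangles -/

theorem sx_sub {x₀ x₁ y₀ y₁ : ℤ} : SX x₀ x₁ y₀ y₁ ⊆ LR 0 x₀ x₁ y₀ y₁ := by
  rintro ω ⟨i, j, h1, h2, h3, h4, hm⟩
  have key : ∀ u w : ℤ × ℤ, Joins ((x₀, i, true) : UE) u w → u.1 = x₀ → y₀ ≤ u.2 → u.2 ≤ y₁ →
      (u.1 + u.2 - 0) % 2 = 0 → ω ∈ LR 0 x₀ x₁ y₀ y₁ := by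
    intro u w hj k1 k2 k3 k4
    obtain ⟨p, p', hj', -, hc⟩ := MM_conn hj hm
    refine ⟨u, p, k1, k2, k3, ?_, k4, hc.mono SS_sub⟩
    rcases hj' with ⟨rfl, -⟩ | ⟨rfl, -⟩
    · rw [ua_mk]
    · rw [ub_true]
  by_cases hpar : (x₀ + i) % 2 = 0
  · exact key (x₀, i) (x₀, i + 1) (by simp [Joins, ua, ub]) rfl h1 h2.le (by simpa using hpar)
  · refine key (x₀, i + 1) (x₀, i) (by simp [Joins, ua, ub]) rfl ?_ ?_ ?_ <;> simp only <;> omega

theorem depOn_SX (x₀ x₁ y₀ y₁ : ℤ) :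
    DepOn (RF x₀ x₁ y₀ y₁ : Set (ℤ × ℤ)) (SX x₀ x₁ y₀ y₁) := by
  intro ω ω' h
  unfold SX
  rw [Set.mem_ofPred_eq, Set.mem_ofPred_eq]
  have : ∀ e, MM ω' (RF x₀ x₁ y₀ y₁ : Set (ℤ × ℤ)) e = MM ω (RF x₀ x₁ y₀ y₁ : Set (ℤ × ℤ)) e :=
    fun e => MM_congr' h
  simp only [this]

theorem pr_SX : ∃ C c : ℝ, 0 < C ∧ 0 < c ∧ ∀ (Lam u x₀ x₁ : ℤ) (W : Finset (ℤ × ℤ)), 2 ≤ Lam →
    0 < u → x₀ < x₁ → (Lam - 2) * u ≤ 2 * (x₁ - x₀) → RF x₀ x₁ 0 u ⊆ W →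
      pr W (SX x₀ x₁ 0 u) ≤ C * Real.exp (-c * Lam) := by
  obtain ⟨q, hq0, hq1, h⟩ := long_LR
  obtain ⟨c, hc⟩ : ∃ c : ℝ, c = -Real.log q / 2 := ⟨_, rfl⟩
  have hlog : Real.log q < 0 := Real.log_neg hq0 hq1
  have hc0 : 0 < c := by rw [hc]; linarith
  refine ⟨Real.exp (3 * c), c, Real.exp_pos _, hc0, fun Lam u x₀ x₁ W hL hu hx hlen hW => ?_⟩
  obtain ⟨n, hn⟩ := Int.eq_ofNat_of_zero_le (show (0 : ℤ) ≤ (Lam - 2) / 2 by omega)
  have hn2 : 2 * (n : ℤ) ≤ Lam - 2 := by omega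
  have hn3 : Lam - 3 ≤ 2 * (n : ℤ) := by omega
  have hlen' : (n : ℤ) * u ≤ x₁ - x₀ := by nlinarith
  refine (pr_mono _ fun ω hω => sx_sub hω).trans ?_
  have h1 := h n 0 x₀ x₁ 0 u W hu hlen' (by rw [zero_add]; exact hW) hx
  rw [zero_add] at h1
  refine h1.trans ?_
  have h2 : q ^ n = Real.exp (n * Real.log q) := by
    rw [Real.exp_nat_mul, Real.exp_log hq0]
  rw [h2, ← Real.exp_add]
  refine Real.exp_le_exp.2 ?_
  have h3 : Real.log q = -(2 * c) := by rw [hc]; ring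
  rw [h3]
  have h4 : (Lam : ℝ) - 3 ≤ 2 * (n : ℝ) := by exact_mod_cast hn3
  nlinarith

/-! ### Corners -/

theorem cr_eq {x r R : ℤ} (hr : 0 ≤ r) (hR : 0 ≤ R) : CR x r R = Half.HA (x, 0) r R := by
  ext f
  unfold CR Half.HA
  rw [Set.mem_ofPred_eq, Set.mem_ofPred_eq, mem_BR, mem_BR]
  simp only
  omega

theorem cx_sub {x r R : ℤ} (hr : 0 ≤ r) (hR : 0 ≤ R) : CX x r R ⊆ Half.X1 (x, 0) r R := by
  rintro ω ⟨e, t, h1, h2, h3⟩
  rw [cr_eq hr hR] at h3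
  refine ⟨e, t, ?_, ?_, h3⟩
  · unfold BdR
    simp only [zero_sub, zero_add]
    exact h1
  · unfold BdR
    simp only [zero_sub, zero_add]
    exact h2

/-- The faces of the half ring around a corner. -/
noncomputable def CRf (x R : ℤ) : Finset (ℤ × ℤ) := RF (x - R) (x + R) 0 R

theorem depOn_CX (x r R : ℤ) : DepOn (CRf x R : Set (ℤ × ℤ)) (CX x r R) := by
  intro ω ω' h
  unfold CX
  rw [Set.mem_ofPred_eq, Set.mem_ofPred_eq]
  have : ∀ e, MM ω' (CR x r R) e = MM ω (CR x r R) e := fun e => MM_congr' fun f hf => by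
    refine h f ?_
    unfold CR at hf
    rw [Set.mem_ofPred_eq] at hf
    unfold CRf
    rw [mem_RF']
    omega
  simp only [this]

theorem pr_CX : ∃ C : ℝ, 0 < C ∧ ∀ (x r R : ℤ) (W : Finset (ℤ × ℤ)), 1 ≤ r → r ≤ R →
    CRf x R ⊆ W → pr W (CX x r R) ≤ C * ((r : ℝ) / R) := by
  obtain ⟨C, hC, h⟩ := Half.x1_le oneLeg'
  refine ⟨C, hC, fun x r R W hr hR hW => ?_⟩
  refine (pr_mono _ fun ω hω => cx_sub (by omega) (by omega) hω).trans
    (h (x, 0) r R W hr hR fun f hf => hW ?_)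
  unfold Half.HA at hf
  rw [Set.mem_ofPred_eq, mem_BR] at hf
  unfold CRf
  rw [Perc.mem_RF]
  simp only at hf
  omega

/-! ### The four kinds of bad levels -/

theorem ring_disj {a b c d : ℤ} (h : b ≤ c) : Disjoint (HB b \ HB a) (HB d \ HB c) := by
  rw [Finset.disjoint_left]
  intro f hf hf'
  rw [mem_sdiff] at hf hf'
  exact hf'.2 (HB_mono h hf.1)

theorem ring_sub {a b : ℤ} {W : Finset (ℤ × ℤ)} (h : HB b ⊆ W) : HB b \ HB a ⊆ W :=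
  sdiff_subset.trans h

theorem bad1_le : ∃ C : ℝ, 1 ≤ C ∧ ∀ (v : Lev) (W : Finset (ℤ × ℤ)), v.Ok → HB v.b' ⊆ W →
    pr W (Bad1 v) ≤ C * (((v.a : ℝ) / v.b) ^ 2 * ((v.b : ℝ) / v.b')) := by
  obtain ⟨C, hC, h⟩ := pr_Lg
  obtain ⟨C', hC', h'⟩ := pr_L2
  refine ⟨C' * C, by nlinarith, fun v W hv hW => ?_⟩
  obtain ⟨h1, h2, h3, h4, h5, h6, h7⟩ := hv
  have e : Bad1 v = L2 v.a v.b ∩ Lg v.b v.b' := rfl
  have s1 : HB v.b ⊆ W := (HB_mono (by omega)).trans hW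
  rw [e, pr_and (depOn_L2 _ _) (depOn_Lg _ _) (ring_disj le_rfl) (ring_sub s1) (ring_sub hW)]
  have k1 := h' v.a v.b W h1 (by omega) s1
  have k2 := h v.b v.b' W (by omega) (by omega) hW
  refine (mul_le_mul k1 k2 (pr_nonneg _ _) ((pr_nonneg _ _).trans k1)).trans (le_of_eq ?_)
  ring

theorem bad2_le : ∃ C : ℝ, 1 ≤ C ∧ ∀ (v : Lev) (W : Finset (ℤ × ℤ)), v.Ok → HB v.b' ⊆ W →
    pr W (Bad2 v) ≤ C * (((v.a' : ℝ) / v.b') ^ 2 * ((v.a : ℝ) / v.a')) := by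
  obtain ⟨C, hC, h⟩ := pr_Lg
  obtain ⟨C', hC', h'⟩ := pr_L2
  refine ⟨C' * C, by nlinarith, fun v W hv hW => ?_⟩
  obtain ⟨h1, h2, h3, h4, h5, h6, h7⟩ := hv
  have e : Bad2 v = L2 v.a' v.b' ∩ Lg v.a v.a' := rfl
  have s1 : HB v.a' ⊆ W := (HB_mono (by omega)).trans hW
  rw [e, pr_and (depOn_L2 _ _) (depOn_Lg _ _) (ring_disj le_rfl).symm (ring_sub hW) (ring_sub s1)]
  have k1 := h' v.a' v.b' W (by omega) (by omega) hW
  have k2 := h v.a v.a' W h1 (by omega) s1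
  refine (mul_le_mul k1 k2 (pr_nonneg _ _) ((pr_nonneg _ _).trans k1)).trans (le_of_eq ?_)
  ring

theorem bad3_le : ∃ C : ℝ, 1 ≤ C ∧ ∀ (v : Lev) (W : Finset (ℤ × ℤ)) (z : ℝ), v.Ok → HB v.b' ⊆ W →
    pr W (SX (v.b + 1) (v.s / 2) 0 v.u) ≤ z → pr W (SX (1 - v.s / 2) (-v.b) 0 v.u) ≤ z →
    pr W (Bad3 v) ≤ C * (((v.a : ℝ) / v.b) * ((v.s : ℝ) / v.b') * z) := by
  obtain ⟨C, hC, h⟩ := pr_Lg
  refine ⟨2 * (C * C), by nlinarith, fun v W z hv hW hz hz' => ?_⟩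
  obtain ⟨h1, h2, h3, h4, h5, h6, h7⟩ := hv
  have s1 : HB v.b ⊆ W := (HB_mono (by omega)).trans hW
  have k1 := h v.a v.b W h1 (by omega) s1
  have k2 := h v.s v.b' W (by omega) (by omega) hW
  have key := pr_three (W := W) (depOn_Lg v.a v.b) (depOn_Lg v.s v.b')
    (depOn_SX (v.b + 1) (v.s / 2) 0 v.u) (depOn_SX (1 - v.s / 2) (-v.b) 0 v.u)
    (ring_disj (by omega)) ?_ ?_ (ring_sub s1) (ring_sub hW) ?_ ?_ k1 k2 hz hz'
  · have e : Bad3 v = (Lg v.a v.b ∩ Lg v.s v.b') ∩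
      (SX (v.b + 1) (v.s / 2) 0 v.u ∪ SX (1 - v.s / 2) (-v.b) 0 v.u) := rfl
    rw [e]
    refine key.trans (le_of_eq ?_)
    ring
  · rw [Finset.disjoint_left]
    intro f hf hf'
    rw [mem_union, mem_sdiff, mem_sdiff, mem_HB, mem_HB, mem_HB, mem_HB] at hf
    rw [Perc.mem_RF] at hf'
    omega
  · rw [Finset.disjoint_left]
    intro f hf hf'
    rw [mem_union, mem_sdiff, mem_sdiff, mem_HB, mem_HB, mem_HB, mem_HB] at hf
    rw [Perc.mem_RF] at hf'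
    omega
  · intro f hf
    refine hW ?_
    rw [Perc.mem_RF] at hf
    rw [mem_HB]
    omega
  · intro f hf
    refine hW ?_
    rw [Perc.mem_RF] at hf
    rw [mem_HB]
    omega

theorem bad4_le : ∃ C : ℝ, 1 ≤ C ∧ ∀ (v : Lev) (W : Finset (ℤ × ℤ)), v.Ok → HB v.b' ⊆ W →
    pr W (Bad4 v) ≤ C * (((v.a : ℝ) / (v.q / 4 : ℤ)) * ((2 * v.q : ℤ) / (v.b' : ℝ)) *
      ((12 * v.u : ℤ) / ((v.q / 2 : ℤ) : ℝ))) := by
  obtain ⟨C, hC, h⟩ := pr_Lg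
  obtain ⟨C', hC', h'⟩ := pr_CX
  refine ⟨2 * (C * C * (C' + 1)), by nlinarith, fun v W hv hW => ?_⟩
  obtain ⟨h1, h2, h3, h4, h5, h6, h7⟩ := hv
  have s1 : HB (v.q / 4) ⊆ W := (HB_mono (by omega)).trans hW
  have k1 := h v.a (v.q / 4) W h1 (by omega) s1
  have k2 := h (2 * v.q) v.b' W (by omega) (by omega) hW
  have c1 : CRf v.q (v.q / 2) ⊆ W := by
    intro f hf
    refine hW ?_
    unfold CRf at hf
    rw [Perc.mem_RF] at hf
    rw [mem_HB]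
    omega
  have c2 : CRf (-v.q) (v.q / 2) ⊆ W := by
    intro f hf
    refine hW ?_
    unfold CRf at hf
    rw [Perc.mem_RF] at hf
    rw [mem_HB]
    omega
  have k3 := h' v.q (12 * v.u) (v.q / 2) W (by omega) (by omega) c1
  have k4 := h' (-v.q) (12 * v.u) (v.q / 2) W (by omega) (by omega) c2
  have key := pr_three (W := W) (depOn_Lg v.a (v.q / 4)) (depOn_Lg (2 * v.q) v.b')
    (depOn_CX v.q (12 * v.u) (v.q / 2)) (depOn_CX (-v.q) (12 * v.u) (v.q / 2))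
    (ring_disj (by omega)) ?_ ?_ (ring_sub s1) (ring_sub hW) c1 c2 k1 k2 k3 k4
  · have e : Bad4 v = (Lg v.a (v.q / 4) ∩ Lg (2 * v.q) v.b') ∩
      (CX v.q (12 * v.u) (v.q / 2) ∪ CX (-v.q) (12 * v.u) (v.q / 2)) := rfl
    rw [e]
    refine key.trans ?_
    have p1 : (0 : ℝ) ≤ (v.a : ℝ) / (v.q / 4 : ℤ) := by
      have : (0 : ℝ) < v.a := by exact_mod_cast (by omega : 0 < v.a)
      have : (0 : ℝ) < (v.q / 4 : ℤ) := by exact_mod_cast (by omega : 0 < v.q / 4)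
      positivity
    have p2 : (0 : ℝ) ≤ (2 * v.q : ℤ) / (v.b' : ℝ) := by
      have : (0 : ℝ) < (2 * v.q : ℤ) := by exact_mod_cast (by omega : 0 < 2 * v.q)
      have : (0 : ℝ) < v.b' := by exact_mod_cast (by omega : 0 < v.b')
      positivity
    have p3 : (0 : ℝ) ≤ (12 * v.u : ℤ) / ((v.q / 2 : ℤ) : ℝ) := by
      have : (0 : ℝ) < (12 * v.u : ℤ) := by exact_mod_cast (by omega : 0 < 12 * v.u)
      have : (0 : ℝ) < (v.q / 2 : ℤ) := by exact_mod_cast (by omega : 0 < v.q / 2)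
      positivity
    have p4 : (0 : ℝ) ≤ ((v.a : ℝ) / (v.q / 4 : ℤ)) * ((2 * v.q : ℤ) / (v.b' : ℝ)) *
      ((12 * v.u : ℤ) / ((v.q / 2 : ℤ) : ℝ)) := by positivity
    have p5 : 0 ≤ C * C * (((v.a : ℝ) / (v.q / 4 : ℤ)) * ((2 * v.q : ℤ) / (v.b' : ℝ)) *
      ((12 * v.u : ℤ) / ((v.q / 2 : ℤ) : ℝ))) := by positivity
    nlinarith
  · rw [Finset.disjoint_left]
    intro f hf hf'
    rw [mem_union, mem_sdiff, mem_sdiff, mem_HB, mem_HB, mem_HB, mem_HB] at hf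
    unfold CRf at hf'
    rw [Perc.mem_RF] at hf'
    omega
  · rw [Finset.disjoint_left]
    intro f hf hf'
    rw [mem_union, mem_sdiff, mem_sdiff, mem_HB, mem_HB, mem_HB, mem_HB] at hf
    unfold CRf at hf'
    rw [Perc.mem_RF] at hf'
    omega

end PrA

/-- **BadPr.** -/
theorem badPr : BadPr := by
  obtain ⟨C₁, hC₁, b1⟩ := PrA.bad1_le
  obtain ⟨C₂, hC₂, b2⟩ := PrA.bad2_le
  obtain ⟨C₃, hC₃, b3⟩ := PrA.bad3_le
  obtain ⟨C₄, hC₄, b4⟩ := PrA.bad4_le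
  obtain ⟨C₅, c, hC₅, hc, b5⟩ := PrA.pr_SX
  refine ⟨C₁ + C₂ + 2 * C₃ * C₅ + 384 * C₄, c, by positivity, hc, fun M Lam Q hP a W ha hW => ?_⟩
  have hM := hP.hM
  have hL := hP.hL
  have hQ := hP.hQ
  have hv := hP.ok ha
  obtain ⟨v, hvd⟩ : ∃ v : Lev, v = lev M Lam Q a := ⟨_, rfl⟩
  rw [← hvd] at hv hW ⊢
  have ea : v.a = a := by rw [hvd]; rfl
  have eb : v.b = M * a := by rw [hvd]; rfl
  have eu : v.u = 2 * (M * a) := by rw [hvd]; rfl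
  have es : v.s = Lam * (2 * (M * a)) := by rw [hvd]; rfl
  have eq : v.q = Q * (2 * (M * a)) := by rw [hvd]; rfl
  have ea' : v.a' = 4 * (Q * (2 * (M * a))) := by rw [hvd]; rfl
  have eb' : v.b' = M * (4 * (Q * (2 * (M * a)))) := by rw [hvd]; rfl
  have hok := hv
  obtain ⟨o1, o2, o3, o4, o5, o6, o7⟩ := hv
  -- real numbers
  have rM : (0 : ℝ) < M := by exact_mod_cast (by omega : 0 < M)
  have rL : (0 : ℝ) < Lam := by exact_mod_cast (by omega : 0 < Lam)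
  have rQ : (0 : ℝ) < Q := by exact_mod_cast (by omega : 0 < Q)
  have ra : (0 : ℝ) < a := by exact_mod_cast (by omega : 0 < a)
  have fb : (v.b : ℝ) = M * a := by rw [eb]; push_cast; ring
  have fu : (v.u : ℝ) = 2 * M * a := by rw [eu]; push_cast; ring
  have fs : (v.s : ℝ) = 2 * Lam * M * a := by rw [es]; push_cast; ring
  have fq : (v.q : ℝ) = 2 * Q * M * a := by rw [eq]; push_cast; ring
  have fa' : (v.a' : ℝ) = 8 * Q * M * a := by rw [ea']; push_cast; ring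
  have fb' : (v.b' : ℝ) = 8 * Q * M * M * a := by rw [eb']; push_cast; ring
  have fa : (v.a : ℝ) = a := by rw [ea]
  obtain ⟨x, hx⟩ : ∃ x : ℝ, x = (a : ℝ) / v.b' := ⟨_, rfl⟩
  have hx0 : 0 < x := by rw [hx, fb']; positivity
  have hx' : x = 1 / (8 * Q * M * M) := by
    rw [hx, fb']
    field_simp
  -- the first kind
  have t1 : pr W (Bad1 v) ≤ C₁ * (1 / M) * x := by
    refine (b1 v W hok hW).trans (le_of_eq ?_)
    rw [fa, fb, fb', hx']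
    field_simp
  have t2 : pr W (Bad2 v) ≤ C₂ * (1 / M) * x := by
    refine (b2 v W hok hW).trans (le_of_eq ?_)
    rw [fa, fa', fb', hx']
    field_simp
  -- the third kind
  have es2 : v.s / 2 = Lam * (M * a) := by
    rw [es, show Lam * (2 * (M * a)) = 2 * (Lam * (M * a)) by ring]
    omega
  have hb1 : 1 ≤ M * a := by nlinarith
  have hlen : (Lam - 2) * v.u ≤ 2 * (v.s / 2 - (v.b + 1)) := by
    rw [es2, eu, eb]
    nlinarith
  have t3 : pr W (Bad3 v) ≤ 2 * C₃ * C₅ * (Lam * Real.exp (-c * Lam)) * x := by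
    have w1 : RF (v.b + 1) (v.s / 2) 0 v.u ⊆ W := by
      intro f hf
      refine hW ?_
      rw [Perc.mem_RF] at hf
      rw [mem_HB]
      omega
    have w2 : RF (1 - v.s / 2) (-v.b) 0 v.u ⊆ W := by
      intro f hf
      refine hW ?_
      rw [Perc.mem_RF] at hf
      rw [mem_HB]
      omega
    have k1 := b5 Lam v.u (v.b + 1) (v.s / 2) W (by omega) (by omega) (by omega) hlen w1
    have k2 := b5 Lam v.u (1 - v.s / 2) (-v.b) W (by omega) (by omega) (by omega)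
      (by linarith) w2
    refine (b3 v W _ hok hW k1 k2).trans (le_of_eq ?_)
    rw [fa, fb, fs, fb', hx']
    field_simp
  -- the fourth kind
  have t4 : pr W (Bad4 v) ≤ 384 * C₄ * (1 / Q) * x := by
    refine (b4 v W hok hW).trans ?_
    have hq8 : (v.q : ℝ) / 8 ≤ ((v.q / 4 : ℤ) : ℝ) := by
      rw [div_le_iff₀ (by norm_num)]
      exact_mod_cast (by omega : v.q ≤ v.q / 4 * 8)
    have hq2 : ((v.q / 2 : ℤ) : ℝ) = v.q / 2 := by
      rw [eq_div_iff (by norm_num)]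
      have : v.q / 2 * 2 = v.q := by
        rw [eq, show Q * (2 * (M * a)) = 2 * (Q * (M * a)) by ring]
        omega
      exact_mod_cast this
    have hq0 : (0 : ℝ) < v.q := by rw [fq]; positivity
    have k1 : (v.a : ℝ) / ((v.q / 4 : ℤ) : ℝ) ≤ v.a / (v.q / 8) := by
      refine div_le_div_of_nonneg_left ?_ (by positivity) hq8
      rw [fa]
      exact ra.le
    have p2 : (0 : ℝ) ≤ (2 * v.q : ℤ) / (v.b' : ℝ) := by
      rw [fb']
      push_cast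
      rw [fq]
      positivity
    have p3 : (0 : ℝ) ≤ (12 * v.u : ℤ) / ((v.q / 2 : ℤ) : ℝ) := by
      rw [hq2]
      push_cast
      rw [fu, fq]
      positivity
    have k2 : C₄ * (((v.a : ℝ) / (v.q / 4 : ℤ)) * ((2 * v.q : ℤ) / (v.b' : ℝ)) *
        ((12 * v.u : ℤ) / ((v.q / 2 : ℤ) : ℝ))) ≤
        C₄ * ((v.a / (v.q / 8)) * ((2 * v.q : ℤ) / (v.b' : ℝ)) *
        ((12 * v.u : ℤ) / ((v.q / 2 : ℤ) : ℝ))) := by
      refine mul_le_mul_of_nonneg_left ?_ (by linarith)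
      refine mul_le_mul_of_nonneg_right ?_ p3
      exact mul_le_mul_of_nonneg_right k1 p2
    refine k2.trans (le_of_eq ?_)
    rw [hq2]
    push_cast
    rw [fa, fq, fb', fu, hx']
    field_simp
    ring
  -- the sum
  have hsum : pr W (Bad1 v ∪ Bad2 v ∪ Bad3 v ∪ Bad4 v) ≤
      pr W (Bad1 v) + pr W (Bad2 v) + pr W (Bad3 v) + pr W (Bad4 v) := by
    have u1 := pr_union_le W (Bad1 v ∪ Bad2 v ∪ Bad3 v) (Bad4 v)
    have u2 := pr_union_le W (Bad1 v ∪ Bad2 v) (Bad3 v)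
    have u3 := pr_union_le W (Bad1 v) (Bad2 v)
    linarith
  refine hsum.trans ?_
  rw [← hx]
  have e1 : 0 ≤ (1 / (M : ℝ)) * x := by positivity
  have e2 : 0 ≤ ((Lam : ℝ) * Real.exp (-c * Lam)) * x := by positivity
  have e3 : 0 ≤ (1 / (Q : ℝ)) * x := by positivity
  have g1 : 0 ≤ (2 * C₃ * C₅ + 384 * C₄) * ((1 / (M : ℝ)) * x) := by positivity
  have g2 : 0 ≤ (C₁ + C₂ + 384 * C₄) * (((Lam : ℝ) * Real.exp (-c * Lam)) * x) := by positivity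
  have g3 : 0 ≤ (C₁ + C₂ + 2 * C₃ * C₅) * ((1 / (Q : ℝ)) * x) := by positivity
  nlinarith

end Pool.Agent.SixB.Leg
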