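import Pool.Agent.Lib.MP_6bd702_z.Z018

/-!
# Many bad separators are unlikely (6BD, block S4, row (d))

Abstract part. Disjoint pieces `F 0, F 1, …` (blocks and separators, from inside to outside), `X i j`:
the pieces `i, …, j - 1` are crossed, `Bd i`: the piece `i` is bad.  If a crossing of `i, …, j - 1` has
probability at most `C ρ i / ρ j` and `Bd i` has probability at most `ε ρ i / ρ (i + 1)`, then the
probability that everything is crossed and all the pieces of `S` are bad is at most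
`(C ε) ^ #S * (C ρ 0 / ρ m)` (`chain_set`), and the probability that at least `k` pieces of a given set
are bad is at most `2 ^ m (C ε) ^ k (C ρ 0 / ρ m)` (`chain_many`).
-/

set_option autoImplicit false

namespace Pool.Agent.SixB

open Finset Pool.Agent.Perc

namespace Bad

/-- The faces of the pieces `i, …, j - 1`. -/
noncomputable def run (F : ℕ → Finset (ℤ × ℤ)) (i j : ℕ) : Finset (ℤ × ℤ) := (Ico i j).biUnion F

theorem mem_run {F : ℕ → Finset (ℤ × ℤ)} {i j : ℕ} {f : ℤ × ℤ} :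
    f ∈ run F i j ↔ ∃ k, (i ≤ k ∧ k < j) ∧ f ∈ F k := by
  unfold run
  simp only [Finset.mem_biUnion, Finset.mem_Ico]

theorem run_mono {F : ℕ → Finset (ℤ × ℤ)} {i j i' j' : ℕ} (h : i' ≤ i) (h' : j ≤ j') :
    run F i j ⊆ run F i' j' := by
  intro f hf
  rw [mem_run] at hf ⊢
  obtain ⟨k, hk, hf⟩ := hf
  exact ⟨k, by omega, hf⟩

theorem disjoint_run {F : ℕ → Finset (ℤ × ℤ)} (hF : ∀ i j, i < j → Disjoint (F i) (F j))
    {i j i' j' : ℕ} (h : j ≤ i') : Disjoint (run F i j) (run F i' j') := by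
  rw [Finset.disjoint_left]
  intro f hf hf'
  rw [mem_run] at hf hf'
  obtain ⟨k, hk, hf⟩ := hf
  obtain ⟨k', hk', hf'⟩ := hf'
  exact Finset.disjoint_left.1 (hF k k' (by omega)) hf hf'

/-- The pieces `0, …, m - 1` are crossed and the pieces of `S` are bad. -/
def Ev (X : ℕ → ℕ → Set Cfg) (Bd : ℕ → Set Cfg) (m : ℕ) (S : Finset ℕ) : Set Cfg :=
  {ω | (∀ i j, i < j → j ≤ m → ω ∈ X i j) ∧ ∀ i ∈ S, ω ∈ Bd i}

theorem depOn_Ev {F : ℕ → Finset (ℤ × ℤ)} {X : ℕ → ℕ → Set Cfg} {Bd : ℕ → Set Cfg}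
    (hX : ∀ i j, DepOn (run F i j) (X i j)) (hB : ∀ i, DepOn (F i) (Bd i)) {m : ℕ} {S : Finset ℕ}
    (hS : ∀ i ∈ S, i < m) : DepOn (run F 0 m) (Ev X Bd m S) := by
  intro ω ω' h
  unfold Ev
  simp only [Set.mem_ofPred_eq]
  have h1 : ∀ i j, i < j → j ≤ m → (ω ∈ X i j ↔ ω' ∈ X i j) := fun i j _ hj =>
    hX i j ω ω' fun f hf => h f (by
      have := run_mono (F := F) (Nat.zero_le i) hj (mem_coe.1 hf)
      exact mem_coe.2 this)
  have h2 : ∀ i ∈ S, (ω ∈ Bd i ↔ ω' ∈ Bd i) := fun i hi =>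
    hB i ω ω' fun f hf => h f (by
      refine mem_coe.2 (mem_run.2 ⟨i, ⟨Nat.zero_le _, hS i hi⟩, mem_coe.1 hf⟩))
  constructor
  · rintro ⟨a, b⟩
    exact ⟨fun i j hi hj => (h1 i j hi hj).1 (a i j hi hj), fun i hi => (h2 i hi).1 (b i hi)⟩
  · rintro ⟨a, b⟩
    exact ⟨fun i j hi hj => (h1 i j hi hj).2 (a i j hi hj), fun i hi => (h2 i hi).2 (b i hi)⟩

/-- The data of a chain of pieces. -/
structure Chain (W : Finset (ℤ × ℤ)) (F : ℕ → Finset (ℤ × ℤ)) (X : ℕ → ℕ → Set Cfg)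
    (Bd : ℕ → Set Cfg) (ρ : ℕ → ℝ) (C ε : ℝ) (m : ℕ) : Prop where
  hF : ∀ i j, i < j → Disjoint (F i) (F j)
  hW : ∀ i, i < m → F i ⊆ W
  hX : ∀ i j, DepOn (run F i j) (X i j)
  hB : ∀ i, DepOn (F i) (Bd i)
  hρ : ∀ i, 0 < ρ i
  hC : 1 ≤ C
  hε : 0 ≤ ε
  pX : ∀ i j, i < j → j ≤ m → pr W (X i j) ≤ C * (ρ i / ρ j)

theorem pr_eq_dep {W S : Finset (ℤ × ℤ)} {A : Set Cfg} (hA : DepOn S A) (h : S ⊆ W) :
    pr S A = pr W A := (pr_eq_of_depOn hA h).symm

/-- A given set of bad pieces. -/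
theorem chain_set {W : Finset (ℤ × ℤ)} {F : ℕ → Finset (ℤ × ℤ)} {X : ℕ → ℕ → Set Cfg}
    {Bd : ℕ → Set Cfg} {ρ : ℕ → ℝ} {C ε : ℝ} {M : ℕ} (H : Chain W F X Bd ρ C ε M) :
    ∀ (m : ℕ), m ≤ M → ∀ (S : Finset ℕ), (∀ i ∈ S, i < m ∧ pr W (Bd i) ≤ ε * (ρ i / ρ (i + 1))) →
      pr W (Ev X Bd m S) ≤ (C * ε) ^ S.card * (C * (ρ 0 / ρ m)) := by
  intro m
  induction m using Nat.strong_induction_on with
  | _ m ih =>
    intro hm S hS
    have hC := H.hC
    have hε := H.hε
    have hρ := H.hρ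
    have hC0 : 0 < C := by linarith
    have hW' : ∀ i j, j ≤ M → run F i j ⊆ W := by
      intro i j hj f hf
      obtain ⟨k, hk, hf⟩ := mem_run.1 hf
      exact H.hW k (by omega) hf
    rcases S.eq_empty_or_nonempty with rfl | hne
    · rw [Finset.card_empty, pow_zero, one_mul]
      rcases Nat.eq_zero_or_pos m with rfl | hpos
      · rw [div_self (hρ 0).ne', mul_one]
        exact (pr_le_one _ _).trans hC
      · exact (pr_mono W fun ω hω => hω.1 0 m hpos le_rfl).trans (H.pX 0 m hpos hm)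
    · set i := S.max' hne with hi
      have hiS : i ∈ S := S.max'_mem hne
      have him : i < m := (hS i hiS).1
      have hpi := (hS i hiS).2
      set S' := S.erase i with hS'
      have hS'lt : ∀ j ∈ S', j < i ∧ pr W (Bd j) ≤ ε * (ρ j / ρ (j + 1)) := by
        intro j hj
        have hjS := Finset.mem_of_mem_erase hj
        have h1 := S.le_max' j hjS
        have h2 := Finset.ne_of_mem_erase hj
        refine ⟨lt_of_le_of_ne (by rw [hi]; exact h1) h2, (hS j hjS).2⟩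
      have hcard : S.card = S'.card + 1 := by
        rw [hS', Finset.card_erase_of_mem hiS]
        have := Finset.card_pos.2 hne
        omega
      have e1 := ih i him (by omega) S' hS'lt
      have d1 : DepOn (run F 0 i) (Ev X Bd i S') := depOn_Ev H.hX H.hB fun j hj => (hS'lt j hj).1
      have d2 : DepOn (F i) (Bd i) := H.hB i
      have hdisj : Disjoint (run F 0 i) (F i) := by
        rw [Finset.disjoint_left]
        intro f hf hf'
        obtain ⟨k, hk, hf⟩ := mem_run.1 hf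
        exact Finset.disjoint_left.1 (H.hF k i hk.2) hf hf'
      have hFW : F i ⊆ W := H.hW i (by omega)
      have e2 : pr W (Ev X Bd i S' ∩ Bd i) ≤
          (C * ε) ^ S'.card * (C * (ρ 0 / ρ i)) * (ε * (ρ i / ρ (i + 1))) := by
        rw [PercD.pr_indep d1 d2 hdisj (hW' 0 i (by omega)) hFW, pr_eq_dep d1 (hW' 0 i (by omega)),
          pr_eq_dep d2 hFW]
        refine mul_le_mul e1 hpi (pr_nonneg _ _) ?_
        have := hρ 0
        have := hρ i
        positivity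
      have h0 := hρ 0
      have h1 := hρ i
      have h2 := hρ (i + 1)
      have h3 := hρ m
      have e3 : (C * ε) ^ S'.card * (C * (ρ 0 / ρ i)) * (ε * (ρ i / ρ (i + 1))) =
          (C * ε) ^ S.card * (ρ 0 / ρ (i + 1)) := by
        rw [hcard, pow_succ]
        field_simp
      rw [e3] at e2
      rcases Nat.lt_or_ge (i + 1) m with hlt | hge
      · have d3 : DepOn (run F (i + 1) m) (X (i + 1) m) := H.hX _ _
        have d12 : DepOn ((run F 0 (i + 1) : Finset (ℤ × ℤ)) : Set (ℤ × ℤ))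
            (Ev X Bd i S' ∩ Bd i) := by
          intro ω ω' h
          have a1 := d1 ω ω' fun f hf => h f (mem_coe.2 (run_mono le_rfl (Nat.le_succ i)
            (mem_coe.1 hf)))
          have a2 := d2 ω ω' fun f hf => h f (mem_coe.2 (mem_run.2 ⟨i, by omega, mem_coe.1 hf⟩))
          rw [Set.mem_inter_iff, Set.mem_inter_iff, a1, a2]
        have hsub : ∀ ω ∈ Ev X Bd m S, ω ∈ (Ev X Bd i S' ∩ Bd i) ∩ X (i + 1) m := by
          rintro ω ⟨a, b⟩
          exact ⟨⟨⟨fun p q hp hq => a p q hp (by omega), fun p hp =>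
            b p (Finset.mem_of_mem_erase hp)⟩, b i hiS⟩, a _ _ hlt le_rfl⟩
        refine (pr_mono W hsub).trans ?_
        rw [PercD.pr_indep d12 d3 (disjoint_run H.hF le_rfl) (hW' _ _ (by omega)) (hW' _ _ hm),
          pr_eq_dep d12 (hW' _ _ (by omega)), pr_eq_dep d3 (hW' _ _ hm)]
        refine (mul_le_mul e2 (H.pX _ _ hlt hm) (pr_nonneg _ _) (by positivity)).trans_eq ?_
        field_simp
      · have him' : m = i + 1 := by omega
        have hsub : ∀ ω ∈ Ev X Bd m S, ω ∈ Ev X Bd i S' ∩ Bd i := by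
          rintro ω ⟨a, b⟩
          exact ⟨⟨fun p q hp hq => a p q hp (by omega), fun p hp =>
            b p (Finset.mem_of_mem_erase hp)⟩, b i hiS⟩
        refine (pr_mono W hsub).trans (e2.trans ?_)
        rw [him']
        have : ρ 0 / ρ (i + 1) ≤ C * (ρ 0 / ρ (i + 1)) := by
          have h4 : 0 < ρ 0 / ρ (i + 1) := by positivity
          nlinarith
        exact mul_le_mul_of_nonneg_left this (by positivity)

open Classical in
/-- At least `k` bad pieces in the set `I`. -/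
theorem chain_many {W : Finset (ℤ × ℤ)} {F : ℕ → Finset (ℤ × ℤ)} {X : ℕ → ℕ → Set Cfg}
    {Bd : ℕ → Set Cfg} {ρ : ℕ → ℝ} {C ε : ℝ} {m : ℕ} (H : Chain W F X Bd ρ C ε m)
    (I : Finset ℕ)
    (hI : ∀ i ∈ I, i < m ∧ pr W (Bd i) ≤ ε * (ρ i / ρ (i + 1))) (k : ℕ) :
    pr W {ω | (∀ i j, i < j → j ≤ m → ω ∈ X i j) ∧ k ≤ (I.filter fun i => ω ∈ Bd i).card} ≤
      2 ^ I.card * (C * ε) ^ k * (C * (ρ 0 / ρ m)) := by
  have hC0 : 0 < C := by linarith [H.hC]
  have hε := H.hε
  have hsub : ∀ ω ∈ {ω | (∀ i j, i < j → j ≤ m → ω ∈ X i j) ∧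
      k ≤ (I.filter fun i => ω ∈ Bd i).card}, ω ∈ {ω | ∃ S ∈ I.powersetCard k, ω ∈ Ev X Bd m S} := by
    rintro ω ⟨a, b⟩
    obtain ⟨S, hS, hk⟩ := Finset.exists_subset_card_eq b
    refine ⟨S, Finset.mem_powersetCard.2 ⟨hS.trans (Finset.filter_subset _ _), hk⟩, a, ?_⟩
    intro i hi
    exact (Finset.mem_filter.1 (hS hi)).2
  have hun : pr W {ω | ∃ S ∈ I.powersetCard k, ω ∈ Ev X Bd m S} ≤
      ∑ S ∈ I.powersetCard k, pr W (Ev X Bd m S) := by
    generalize I.powersetCard k = P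
    induction P using Finset.induction_on with
    | empty =>
      rw [Finset.sum_empty, ProbA.pr_eq_sum, Finset.sum_eq_zero, zero_div]
      intro T _
      rw [if_neg]
      rintro ⟨i, hi, _⟩
      exact absurd hi (Finset.notMem_empty i)
    | insert a I ha ih =>
      rw [Finset.sum_insert ha]
      refine le_trans (pr_mono W (B := Ev X Bd m a ∪ {ω | ∃ S ∈ I, ω ∈ Ev X Bd m S}) ?_)
        ((pr_union_le W _ _).trans ?_)
      · rintro ω ⟨i, hi, hω⟩
        rcases Finset.mem_insert.1 hi with rfl | h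
        · exact Or.inl hω
        · exact Or.inr ⟨i, h, hω⟩
      · linarith
  refine (pr_mono W hsub).trans (hun.trans ?_)
  have hq : 0 ≤ C * (ρ 0 / ρ m) := by
    have := H.hρ 0
    have := H.hρ m
    positivity
  have hterm : ∀ S ∈ I.powersetCard k, pr W (Ev X Bd m S) ≤ (C * ε) ^ k * (C * (ρ 0 / ρ m)) := by
    intro S hS
    obtain ⟨h1, h2⟩ := Finset.mem_powersetCard.1 hS
    rw [← h2]
    exact chain_set H m le_rfl S fun i hi => hI i (h1 hi)
  refine (Finset.sum_le_sum hterm).trans ?_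
  rw [Finset.sum_const, nsmul_eq_mul, Finset.card_powersetCard, mul_assoc]
  refine mul_le_mul_of_nonneg_right ?_ (by positivity)
  calc ((I.card.choose k : ℕ) : ℝ) ≤ ((2 ^ I.card : ℕ) : ℝ) := by
        exact_mod_cast Nat.choose_le_two_pow _ _
    _ = 2 ^ I.card := by push_cast; rfl

end Bad

end Pool.Agent.SixB
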