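import Pool.Agent.Lib.SixB.S4LegDefs
import Pool.Agent.Lib.SixB.S4HalfP
import Pool.Agent.Lib.SixB.S4Bad
import Pool.Agent.Lib.SixB.A1Final

/-!
# Product bound over sets of bad levels (6BD, block S4, row T8)

`lg_eq`: `Leg.Lg` is `Half.Lg`. `depOn_Gd`, `depOn_Gl`: the good and the glued event depend on the
faces of `HR a b'`. `prodPr`: `ProdPr`.
-/

set_option autoImplicit false

namespace Pool.Agent.SixB.Leg

open Finset Pool.Agent.Perc Pool.Agent.PercD

variable {ω : Cfg} {a b : ℤ} {e : UE}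

theorem bdF_iff {w h : ℤ} : BdF w h e ↔ Half.S3 (-w) (w + 1) h e := by
  unfold BdF Half.S3
  constructor
  · rintro (⟨h1, h2, h3, h4⟩ | ⟨h1, h2, h3, h4⟩)
    · exact Or.inl ⟨h1, h3, h4, h2⟩
    · exact Or.inr ⟨h1, h3, h4, h2⟩
  · rintro (⟨h1, h3, h4, h2⟩ | ⟨h1, h3, h4, h2⟩)
    · exact Or.inl ⟨h1, h2, h3, h4⟩
    · exact Or.inr ⟨h1, h2, h3, h4⟩

theorem bdH_iff {w : ℤ} : BdH w e ↔ Half.S3 (-w) (w + 1) w e := bdF_iff

theorem HR_eq (a b : ℤ) :
    HR a b = (RF (-b) (b + 1) 0 b \ RF (-a) (a + 1) 0 a : Set (ℤ × ℤ)) := by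
  ext f
  rw [mem_HR, Set.mem_sdiff, mem_RF', mem_RF']
  omega

theorem finite_BdH (w : ℤ) : {e | BdH w e}.Finite := by
  refine Set.Finite.subset
    (((Icc (-w) (w + 1)) ×ˢ ((Icc 0 w) ×ˢ (univ : Finset Bool)) : Finset UE).finite_toSet) ?_
  rintro ⟨x, y, c⟩ h
  unfold BdH BdF at h
  simp only [Set.mem_ofPred_eq] at h
  rw [mem_coe, mem_product, mem_product, mem_Icc, mem_Icc]
  refine ⟨?_, ?_, mem_univ _⟩ <;> simp only <;> omega

theorem finite_Crs' (ω : Cfg) (a b : ℤ) : (Crs ω a b).Finite :=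
  (finite_BdH a).subset fun _ h => h.1

theorem lg_iff : ω ∈ Lg a b ↔ (Crs ω a b).Nonempty := by
  unfold Lg nH
  rw [Set.mem_ofPred_eq, Nat.one_le_iff_ne_zero, ← Nat.pos_iff_ne_zero,
    Set.ncard_pos (finite_Crs' ω a b)]

theorem lg_eq (a b : ℤ) : Lg a b = Half.Lg a b := by
  ext ω
  rw [lg_iff]
  unfold Crs Half.Lg
  rw [HR_eq]
  constructor
  · rintro ⟨e, h1, t, h2, h3⟩
    exact ⟨e, t, bdH_iff.1 h1, bdH_iff.1 h2, h3⟩
  · rintro ⟨e, t, h1, h2, h3⟩
    exact ⟨e, bdH_iff.2 h1, t, bdH_iff.2 h2, h3⟩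

/-! ### Supports -/

variable {ω' : Cfg}

theorem crs_congr' {A : Set (ℤ × ℤ)} (h : ∀ f ∈ A, ω f = ω' f) (hA : HR a b ⊆ A) :
    Crs ω a b = Crs ω' a b := by
  unfold Crs
  have : ∀ e, MM ω' (HR a b) e = MM ω (HR a b) e := fun e => MM_congr' fun f hf => h f (hA hf)
  simp only [this]

theorem crsO_congr' {A : Set (ℤ × ℤ)} (h : ∀ f ∈ A, ω f = ω' f) (hA : HR a b ⊆ A) :
    CrsO ω a b = CrsO ω' a b := by
  unfold CrsO
  have : ∀ e, MM ω' (HR a b) e = MM ω (HR a b) e := fun e => MM_congr' fun f hf => h f (hA hf)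
  simp only [this]

theorem depOn_Gl' (v : Lev) : DepOn (HR v.a v.b') (Gl v) := by
  intro ω ω' h
  unfold Gl
  rw [lg_iff, lg_iff, crs_congr' h subset_rfl]

theorem depOn_Gd' {v : Lev} (hv : v.Ok) : DepOn (HR v.a v.b') (Gd v) := by
  intro ω ω' h
  obtain ⟨h1, h2, h3, h4, h5, h6, h7⟩ := hv
  have e1 : Crs ω v.a v.b = Crs ω' v.a v.b := crs_congr' h fun f hf => by
    rw [mem_HR] at hf ⊢
    omega
  have e2 : Crs ω v.a' v.b' = Crs ω' v.a' v.b' := crs_congr' h fun f hf => by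
    rw [mem_HR] at hf ⊢
    omega
  have e3 : CrsO ω v.a' v.b' = CrsO ω' v.a' v.b' := crsO_congr' h fun f hf => by
    rw [mem_HR] at hf ⊢
    omega
  have e4 : ∀ e, MM ω' (RI v) e = MM ω (RI v) e := fun e => MM_congr' fun f hf => h f (by
    rw [mem_RI] at hf
    rw [mem_HR]
    omega)
  have e5 : ∀ e, MM ω' (RO v) e = MM ω (RO v) e := fun e => MM_congr' fun f hf => h f (by
    rw [mem_RO] at hf
    rw [mem_HR]
    omega)
  unfold Gd TipI TipO nH
  simp only [Set.mem_ofPred_eq, e1, e2, e3, e4, e5]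

/-! ### The radii -/

/-- The radii for the levels of the parity `p`, up to `K`. -/
def tau (M Q a R : ℤ) (p K i : ℕ) : ℤ :=
  if K < i then R else if i = 0 then a else if i % 2 = p % 2 then bas M Q a i else M * bas M Q a i

variable {M Lam Q R : ℤ} {p K : ℕ}

theorem bas_pos (h : Par M Lam Q) (ha : 1 ≤ a) (i : ℕ) : 1 ≤ bas M Q a i := by
  have hM := h.hM
  have hL := h.hL
  have hQ := h.hQ
  have : 0 < (8 * Q * M) ^ i := by
    have : 0 < Q := by omega
    have : 0 < M := by omega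
    positivity
  unfold bas
  nlinarith

theorem bas_step (h : Par M Lam Q) (ha : 1 ≤ a) (i : ℕ) :
    M * bas M Q a i < bas M Q a (i + 1) := by
  have hM := h.hM
  have hL := h.hL
  have hQ := h.hQ
  have hb := bas_pos h ha i
  have e : bas M Q a (i + 1) = 8 * Q * (M * bas M Q a i) := by
    unfold bas
    ring
  rw [e]
  have : 0 < M * bas M Q a i := by
    have : 0 < M := by omega
    positivity
  nlinarith

theorem tau_bounds (h : Par M Lam Q) (ha : 1 ≤ a) {i : ℕ} (hi : i ≤ K) :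
    bas M Q a i ≤ tau M Q a R p K i ∧ tau M Q a R p K i ≤ M * bas M Q a i := by
  have hb := bas_pos h ha i
  have hM := h.hM
  have h1 : bas M Q a i ≤ M * bas M Q a i := by nlinarith
  unfold tau
  rw [if_neg (by omega)]
  split_ifs with h2 h3
  · subst h2
    have : bas M Q a 0 = a := by unfold bas; ring
    rw [this] at h1 ⊢
    exact ⟨le_rfl, h1⟩
  · exact ⟨le_rfl, h1⟩
  · exact ⟨h1, le_rfl⟩

theorem tau_mono1 (h : Par M Lam Q) (ha : 1 ≤ a) (hR : M * bas M Q a K ≤ R) (i : ℕ) :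
    tau M Q a R p K i ≤ tau M Q a R p K (i + 1) := by
  rcases Nat.lt_trichotomy i K with hi | rfl | hi
  · have h1 := tau_bounds (R := R) (p := p) (K := K) h ha (i := i) (by omega)
    have h2 := tau_bounds (R := R) (p := p) (K := K) h ha (i := i + 1) (by omega)
    have h3 := bas_step h ha i
    omega
  · have h1 := tau_bounds (R := R) (p := p) (K := i) h ha (i := i) le_rfl
    have h2 : tau M Q a R p i (i + 1) = R := by
      unfold tau
      rw [if_pos (by omega)]
    omega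
  · unfold tau
    rw [if_pos hi, if_pos (by omega)]

theorem tau_mono (h : Par M Lam Q) (ha : 1 ≤ a) (hR : M * bas M Q a K ≤ R) {i j : ℕ} (hij : i ≤ j) :
    tau M Q a R p K i ≤ tau M Q a R p K j :=
  monotone_nat_of_le_succ (fun i => tau_mono1 h ha hR i) hij

theorem tau_zero : tau M Q a R p K 0 = a := by
  unfold tau
  rw [if_neg (by omega), if_pos rfl]

theorem tau_last {i : ℕ} (hi : K < i) : tau M Q a R p K i = R := by
  unfold tau
  rw [if_pos hi]

theorem tau_pos (h : Par M Lam Q) (ha : 1 ≤ a) (hR : M * bas M Q a K ≤ R) (i : ℕ) :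
    1 ≤ tau M Q a R p K i := by
  have := tau_mono (p := p) h ha hR (Nat.zero_le i)
  rw [tau_zero] at this
  omega

open Classical in
/-- The faces of the piece `i`. -/
noncomputable def pc (M Q a R : ℤ) (p K i : ℕ) : Finset (ℤ × ℤ) :=
  HB (tau M Q a R p K (i + 1)) \ HB (tau M Q a R p K i)

theorem mem_pc {i : ℕ} {f : ℤ × ℤ} : f ∈ pc M Q a R p K i ↔
    f ∈ HB (tau M Q a R p K (i + 1)) ∧ f ∉ HB (tau M Q a R p K i) := by
  classical
  unfold pc
  rw [mem_sdiff]

/-- A ring is covered by the pieces. -/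
theorem HR_sub_run {i j : ℕ} :
    HR (tau M Q a R p K i) (tau M Q a R p K j) ⊆ (Bad.run (pc M Q a R p K) i j : Set (ℤ × ℤ)) ∨
      j ≤ i := by
  rcases Nat.lt_or_ge i j with hij | hij
  · left
    intro f hf
    obtain ⟨h1, h2⟩ := hf
    rw [mem_coe, Bad.mem_run]
    have key : ∀ n : ℕ, f ∈ HB (tau M Q a R p K (i + n)) →
        ∃ k, (i ≤ k ∧ k < i + n) ∧ f ∈ pc M Q a R p K k := by
      intro n
      induction n with
      | zero => intro h3; exact absurd h3 h2
      | succ n ih =>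
        intro h3
        by_cases h4 : f ∈ HB (tau M Q a R p K (i + n))
        · obtain ⟨k, hk, hf⟩ := ih h4
          exact ⟨k, by omega, hf⟩
        · exact ⟨i + n, by omega, mem_pc.2 ⟨h3, h4⟩⟩
    obtain ⟨n, rfl⟩ := Nat.exists_eq_add_of_lt hij
    have := key (n + 1) h1
    exact this
  · exact Or.inr hij

/-- The crossing events. -/
def Xe (M Q a R : ℤ) (p K : ℕ) (i j : ℕ) : Set Cfg :=
  {ω | tau M Q a R p K i < tau M Q a R p K j → ω ∈ Lg (tau M Q a R p K i) (tau M Q a R p K j)}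

/-- The bad events. -/
def Be (M Lam Q a : ℤ) (p K : ℕ) (i : ℕ) : Set Cfg :=
  {ω | i % 2 = p % 2 → i < K →
    ω ∈ Gl (lev M Lam Q (bas M Q a i)) \ Gd (lev M Lam Q (bas M Q a i))}

theorem depOn_lg (a b : ℤ) : DepOn (HR a b) (Lg a b) := by
  intro ω ω' h
  rw [lg_iff, lg_iff, crs_congr' h subset_rfl]

theorem tau_level {i : ℕ} (hi : i % 2 = p % 2) (hK : i < K) :
    tau M Q a R p K i = bas M Q a i ∧ tau M Q a R p K (i + 1) = (lev M Lam Q (bas M Q a i)).b' := by
  constructor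
  · unfold tau
    rw [if_neg (by omega)]
    split_ifs with h1
    · subst h1
      unfold bas
      ring
    · rfl
  · unfold tau
    rw [if_neg (by omega), if_neg (by omega), if_neg (by omega)]
    rw [bas_succ M Lam Q]
    rfl

theorem chain (H : Half.OneLeg) : ∃ C : ℝ, 1 ≤ C ∧ ∀ (M Lam Q : ℤ) (δ : ℝ), Par M Lam Q → 0 ≤ δ →
    ∀ (p K : ℕ) (a R : ℤ) (W : Finset (ℤ × ℤ)), 1 ≤ a → M * bas M Q a K ≤ R → HB R ⊆ W →
      Bad.Chain W (pc M Q a R p K) (Xe M Q a R p K) (Be M Lam Q a p K)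
        (fun i => (tau M Q a R p K i : ℝ)) C δ (K + 1) := by
  obtain ⟨C, hC, hlg⟩ := Half.lg_le H
  refine ⟨C, hC, fun M Lam Q δ hP hδ p K a R W ha hR hW => ⟨?_, ?_, ?_, ?_, ?_, hC, hδ, ?_⟩⟩
  · intro i j hij
    rw [Finset.disjoint_left]
    intro f hf hf'
    rw [mem_pc] at hf hf'
    exact hf'.2 (HB_mono (tau_mono hP ha hR (by omega)) hf.1)
  · intro i hi f hf
    rw [mem_pc] at hf
    refine hW (HB_mono ?_ hf.1)
    have := tau_mono (p := p) hP ha hR (show i + 1 ≤ K + 1 by omega)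
    rwa [tau_last (i := K + 1) (by omega)] at this
  · intro i j
    rcases HR_sub_run (M := M) (Q := Q) (a := a) (R := R) (p := p) (K := K) (i := i) (j := j) with
      hs | hji
    · intro ω ω' h
      unfold Xe
      simp only [Set.mem_ofPred_eq]
      rw [depOn_lg _ _ ω ω' fun f hf => h f (hs hf)]
    · have := tau_mono (p := p) hP ha hR hji
      intro ω ω' h
      unfold Xe
      simp only [Set.mem_ofPred_eq]
      constructor <;> intro _ h1 <;> omega
  · intro i ω ω' h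
    unfold Be
    simp only [Set.mem_ofPred_eq]
    refine imp_congr_right fun h1 => imp_congr_right fun h2 => ?_
    obtain ⟨e1, e2⟩ := tau_level (M := M) (Lam := Lam) (Q := Q) (a := a) (R := R) h1 h2
    have hv := hP.ok (bas_pos hP ha i)
    have hsub : HR (lev M Lam Q (bas M Q a i)).a (lev M Lam Q (bas M Q a i)).b' ⊆
        (pc M Q a R p K i : Set (ℤ × ℤ)) := by
      rintro f ⟨h3, h4⟩
      rw [mem_coe, mem_pc, e1, e2]
      exact ⟨h3, h4⟩
    rw [Set.mem_sdiff, Set.mem_sdiff, depOn_Gl' _ ω ω' fun f hf => h f (hsub hf),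
      depOn_Gd' hv ω ω' fun f hf => h f (hsub hf)]
  · intro i
    have := tau_pos (p := p) hP ha hR i
    have : (1 : ℝ) ≤ tau M Q a R p K i := by exact_mod_cast this
    linarith
  · intro i j hij hj
    have h1 := tau_pos (p := p) hP ha hR i
    have h2 := tau_mono (p := p) hP ha hR hij.le
    have h3 := tau_mono (p := p) hP ha hR hj
    rw [tau_last (i := K + 1) (by omega)] at h3
    have hWj : RF (-(tau M Q a R p K j)) (tau M Q a R p K j + 1) 0 (tau M Q a R p K j) ⊆ W :=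
      (HB_mono h3).trans hW
    rcases lt_or_eq_of_le h2 with hlt | heq
    · refine (pr_mono W fun ω hω => ?_).trans (hlg _ _ W h1 h2 hWj)
      rw [← lg_eq]
      exact hω hlt
    · refine (pr_le_one _ _).trans ?_
      rw [heq, div_self, mul_one]
      · exact hC
      · have : (1 : ℝ) ≤ tau M Q a R p K j := by
          rw [heq] at h1
          exact_mod_cast h1
        linarith

/-- **Row T8.** -/
theorem prodPr_of (H : Half.OneLeg) : ProdPr := by
  classical
  obtain ⟨C, hC, hch⟩ := chain H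
  refine ⟨C, by linarith, fun M Lam Q δ hP hδ hCδ hbad K m B a R W hB hm ha hR hW => ?_⟩
  -- one of the two parities has at least `m` elements
  obtain ⟨p, hp, hcard⟩ : ∃ p : ℕ, p < 2 ∧ m ≤ (B.filter fun k => k % 2 = p % 2).card := by
    by_contra hcon
    push Not at hcon
    have h0 := hcon 0 (by omega)
    have h1 := hcon 1 (by omega)
    have h2 : B.card ≤ (B.filter fun k => k % 2 = 0 % 2).card +
        (B.filter fun k => k % 2 = 1 % 2).card := by
      refine le_trans (Finset.card_le_card ?_) (Finset.card_union_le _ _)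
      intro k hk
      rw [Finset.mem_union, Finset.mem_filter, Finset.mem_filter]
      rcases Nat.mod_two_eq_zero_or_one k with h | h
      · exact Or.inl ⟨hk, by omega⟩
      · exact Or.inr ⟨hk, by omega⟩
    omega
  set S := B.filter fun k => k % 2 = p % 2 with hS
  have H1 := hch M Lam Q δ hP hδ p K a R W ha hR hW
  have hSK : ∀ i ∈ S, i % 2 = p % 2 ∧ i < K := by
    intro i hi
    rw [hS, Finset.mem_filter] at hi
    exact ⟨hi.2, Finset.mem_range.1 (hB hi.1)⟩
  have key := Bad.chain_set H1 (K + 1) le_rfl S (by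
    intro i hi
    obtain ⟨h1, h2⟩ := hSK i hi
    refine ⟨by omega, ?_⟩
    obtain ⟨e1, e2⟩ := tau_level (M := M) (Lam := Lam) (Q := Q) (a := a) (R := R) h1 h2
    have h3 := tau_mono (p := p) hP ha hR (show i + 1 ≤ K + 1 by omega)
    rw [tau_last (i := K + 1) (by omega), e2] at h3
    have h4 := hbad (bas M Q a i) W (bas_pos hP ha i) ((HB_mono h3).trans hW)
    rw [e1, e2]
    refine le_trans (pr_mono W fun ω hω => ?_) h4
    exact hω h1 h2)
  rw [tau_zero, tau_last (i := K + 1) (by omega)] at key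
  have hsub : ∀ ω ∈ {ω | ω ∈ Lg a R ∧ ∀ k ∈ B, ω ∉ Gd (lev M Lam Q (bas M Q a k))},
      ω ∈ Bad.Ev (Xe M Q a R p K) (Be M Lam Q a p K) (K + 1) S := by
    rintro ω ⟨h1, h2⟩
    have hlgs : ∀ x y : ℤ, a ≤ x → x < y → y ≤ R → ω ∈ Lg x y := by
      intro x y hx hxy hy
      rw [lg_eq] at h1 ⊢
      exact Half.lg_mono (by omega) hx hxy hy h1
    refine ⟨fun i j hij hj hlt => ?_, fun i hi h3 h4 => ?_⟩
    · refine hlgs _ _ ?_ hlt ?_
      · have := tau_mono (p := p) hP ha hR (Nat.zero_le i)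
        rwa [tau_zero] at this
      · have := tau_mono (p := p) hP ha hR hj
        rwa [tau_last (i := K + 1) (by omega)] at this
    · obtain ⟨e1, e2⟩ := tau_level (M := M) (Lam := Lam) (Q := Q) (a := a) (R := R) h3 h4
      refine ⟨?_, h2 i (Finset.mem_filter.1 hi).1⟩
      have hv := hP.ok (bas_pos hP ha i)
      have k0 := tau_mono (p := p) hP ha hR (Nat.zero_le i)
      have k1 := tau_mono (p := p) hP ha hR (show i + 1 ≤ K + 1 by omega)
      rw [tau_zero, e1] at k0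
      rw [tau_last (i := K + 1) (by omega), e2] at k1
      obtain ⟨g1, g2, g3, g4, g5, g6, g7⟩ := hv
      exact hlgs _ _ k0 (by omega) k1
  refine (pr_mono W hsub).trans (key.trans ?_)
  have hR1 : (1 : ℝ) ≤ R := by
    have h1 := tau_pos (p := p) hP ha hR (K + 1)
    rw [tau_last (i := K + 1) (by omega)] at h1
    exact_mod_cast h1
  have ha1 : (1 : ℝ) ≤ a := by exact_mod_cast ha
  have h5 : (C * δ) ^ S.card ≤ (C * δ) ^ m :=
    pow_le_pow_of_le_one (by positivity) hCδ hcard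
  calc (C * δ) ^ S.card * (C * ((a : ℝ) / R)) ≤ (C * δ) ^ m * (C * ((a : ℝ) / R)) :=
        mul_le_mul_of_nonneg_right h5 (by positivity)
    _ = C * (C * δ) ^ m * ((a : ℝ) / R) := by ring

theorem oneLeg' : Half.OneLeg := A1.oneLeg

theorem prodPr : ProdPr := prodPr_of oneLeg'

end Pool.Agent.SixB.Leg
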