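import Pool.Agent.Lib.SixB.S4One
import Pool.Agent.Lib.SixB.S4LegPr
import Pool.Agent.Lib.SixB.S4LegGlue
import Pool.Agent.Lib.SixB.S4LegDet
import Pool.Agent.Lib.SixB.S4LegBad
import Pool.Agent.Lib.SixB.S4Prod

/-! The one-leg oddness theorem (text 6bd_helper83_step4.md), without hypotheses: for every
antisymmetric functional of the inner strands, the part of its expectation carried by one leg
decays. Assembly of the rows of the table s4_tasks. -/

namespace Pool.Agent.SixB.Leg

theorem oneLeg : OneLegThm :=
  one_leg_of mono det mes glue badDet badPr legPr prodPr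

end Pool.Agent.SixB.Leg
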