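import Pool.Agent.Lib.SixB.S0Arcs
import Pool.Agent.Lib.SixB.S0Av

/-!
# 6BD, Lemma 4.A: a tilt does not see at most one leg (deterministic part)

`Q : QC V Φ` any complex of quadrangles, `F` a finite set of faces (the domain).
* `Ah Q A a`: a face of `A` is ahead of the directed unit edge `a`.
* `bS Q F`: starting sides (a face of `F` ahead, none behind).
* `mate Q F ω a`: the other end of the arc which starts at `a`, again directed into `F`.
* `arcs Q F ω`: the unordered pairs `s(a, mate a)`; `Wt Q F τ ω`: the product of `τ` over the arcs.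
* `Leg Q ω F I M a`: the strand piece which starts at `a` with a face of `I` behind, runs in
  `M \ I` and reaches `F \ M`. `OneLeg`: at most one leg.
* `wall Q F M`: the starting sides whose face is in `M`.

Theorems: `mate_stable`, `Wt_stable` (the product does not depend on the configuration in `I` if there
is at most one leg and `τ` does not distinguish the sides of `wall Q F M` and is `1` on pairs of them);
`Wt_split`, `WtAvo_congr`, `WtVis_congr` (without legs the product splits into an outer factor and a factor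
of `M`); `av_Wt`, `abs_av_Wt_le` (averages).
-/

set_option autoImplicit false
set_option linter.unusedSectionVars false

namespace Pool.Agent.SixB.Tilt

open Pool.Agent.Perc.Q Relation

noncomputable section

variable {V Φ : Type} [DecidableEq V] [DecidableEq Φ]
variable {Q : QC V Φ} {F I M A B : Finset Φ} {ω ω' : Φ → Bool} {a b k x y z : V × V}

/-- a face of `A` is ahead of `a` -/
def Ah (Q : QC V Φ) (A : Finset Φ) (a : V × V) : Prop := ∃ f ∈ A, ∃ k, a = sd Q f k

theorem Ah.mono (h : A ⊆ B) (ha : Ah Q A a) : Ah Q B a := by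
  obtain ⟨f, hf, k, e⟩ := ha
  exact ⟨f, h hf, k, e⟩

theorem ter_iff : Ter Q (A : Set Φ) a ↔ ¬ Ah Q A a := by
  constructor
  · rintro h ⟨f, hf, k, e⟩
    exact h f (by exact_mod_cast hf) k e
  · intro h f hf k e
    exact h ⟨f, by exact_mod_cast hf, k, e⟩

theorem ini_iff : Ini Q (A : Set Φ) a ↔ ¬ Ah Q A a.swap := by
  constructor
  · rintro h ⟨f, hf, k, e⟩
    refine h f (by exact_mod_cast hf) k ?_
    rw [← Prod.swap_swap a, e]
    rfl
  · intro h f hf k e
    refine h ⟨f, by exact_mod_cast hf, k, ?_⟩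
    rw [e]
    rfl

theorem mem_dE_ah : a ∈ dE Q A ↔ Ah Q A a ∨ Ah Q A a.swap := by
  rw [mem_dE]
  constructor
  · rintro ⟨f, hf, k, e | e⟩
    · exact Or.inl ⟨f, hf, k, e⟩
    · right
      refine ⟨f, hf, k, ?_⟩
      rw [e]
      rfl
  · rintro (⟨f, hf, k, e⟩ | ⟨f, hf, k, e⟩)
    · exact ⟨f, hf, k, Or.inl e⟩
    · refine ⟨f, hf, k, Or.inr ?_⟩
      rw [← e]
      rfl

/-- the face ahead is unique -/
theorem ah_disj (h : Disjoint A B) (ha : Ah Q A a) (hb : Ah Q B a) : False := by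
  obtain ⟨f, hf, k, e⟩ := ha
  obtain ⟨g, hg, l, e'⟩ := hb
  rw [e] at e'
  have := (Q.inj (Prod.mk.inj e').1 (Prod.mk.inj e').2).1
  subst this
  exact Finset.disjoint_left.mp h hf hg

/-- a step: the face ahead of the first is the face behind the second -/
theorem nx_ah (h : Nx Q ω (A : Set Φ) a b) : ∃ f ∈ A, Ah Q {f} a ∧ Ah Q {f} b.swap := by
  obtain ⟨f, hf, k, rfl, h⟩ := h
  refine ⟨f, by exact_mod_cast hf, ⟨f, Finset.mem_singleton_self _, k, rfl⟩, ?_⟩
  rcases h with ⟨-, rfl⟩ | ⟨-, rfl⟩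
  · exact ⟨f, Finset.mem_singleton_self _, k + 1, by unfold sd; rw [z1]; rfl⟩
  · exact ⟨f, Finset.mem_singleton_self _, k + 3, by unfold sd; rw [z5]; rfl⟩

theorem ah_left (h : Nx Q ω (A : Set Φ) a b) : Ah Q A a := by
  obtain ⟨f, hf, h1, -⟩ := nx_ah h
  exact h1.mono (Finset.singleton_subset_iff.mpr hf)

theorem ah_right (h : Nx Q ω (A : Set Φ) a b) : Ah Q A b.swap := by
  obtain ⟨f, hf, -, h1⟩ := nx_ah h
  exact h1.mono (Finset.singleton_subset_iff.mpr hf)

theorem nx_mono (h : A ⊆ B) (hn : Nx Q ω (A : Set Φ) a b) : Nx Q ω (B : Set Φ) a b := by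
  obtain ⟨f, hf, h1⟩ := hn
  exact ⟨f, by exact_mod_cast h (by exact_mod_cast hf), h1⟩

/-- a step in `B` with the face ahead in `A` is a step in `A` -/
theorem nx_of_ah (hn : Nx Q ω (B : Set Φ) a b) (ha : Ah Q A a) : Nx Q ω (A : Set Φ) a b := by
  obtain ⟨f, hf, k, e, h1⟩ := hn
  obtain ⟨g, hg, l, e'⟩ := ha
  rw [e] at e'
  have := (Q.inj (Prod.mk.inj e').1 (Prod.mk.inj e').2).1
  subst this
  exact ⟨f, by exact_mod_cast hg, k, e, h1⟩

/-- a step in `F` is a step in `A` or the face ahead is in `F \ A` -/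
theorem nx_or (hn : Nx Q ω (F : Set Φ) a b) (A : Finset Φ) :
    Nx Q ω (A : Set Φ) a b ∨ Ah Q (F \ A) a := by
  obtain ⟨f, hf, k, e, h1⟩ := hn
  by_cases hA : f ∈ A
  · exact Or.inl ⟨f, by exact_mod_cast hA, k, e, h1⟩
  · exact Or.inr ⟨f, Finset.mem_sdiff.mpr ⟨by exact_mod_cast hf, hA⟩, k, e⟩

theorem rtg_sub (h : A ⊆ B) (hn : ReflTransGen (Nx Q ω (A : Set Φ)) a b) :
    ReflTransGen (Nx Q ω (B : Set Φ)) a b :=
  rtg_mono (fun _ _ => nx_mono h) hn

theorem nx_congr (h : ∀ f ∈ A, ω f = ω' f) (hn : Nx Q ω (A : Set Φ) a b) :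
    Nx Q ω' (A : Set Φ) a b := by
  obtain ⟨f, hf, k, e, h1⟩ := hn
  rw [h f (by exact_mod_cast hf)] at h1
  exact ⟨f, hf, k, e, h1⟩

theorem rtg_congr (h : ∀ f ∈ A, ω f = ω' f) (hn : ReflTransGen (Nx Q ω (A : Set Φ)) a b) :
    ReflTransGen (Nx Q ω' (A : Set Φ)) a b :=
  rtg_mono (fun _ _ => nx_congr h) hn

theorem rtg_rev (hn : ReflTransGen (Nx Q ω (A : Set Φ)) a b) :
    ReflTransGen (Nx Q ω (A : Set Φ)) b.swap a.swap := by
  induction hn with
  | refl => exact ReflTransGen.refl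
  | tail _ hs ih => exact ReflTransGen.head hs.rev ih

/-- from an edge with no face of `A` ahead no step starts -/
theorem rtg_stop (ha : ¬ Ah Q A a) (h : ReflTransGen (Nx Q ω (A : Set Φ)) a b) : a = b := by
  rcases ReflTransGen.cases_head h with h | ⟨c, h, -⟩
  · exact h
  · exact absurd (ah_left h) ha

/-! ## Boundary sides, mates -/

theorem mem_bS_ah : a ∈ bS Q F ↔ Ah Q F a ∧ ¬ Ah Q F a.swap := by
  rw [mem_bS, mem_dE_ah, ini_iff]
  tauto

theorem mate_spec (ω : Φ → Bool) (ha : a ∈ bS Q F) :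
    mate Q F ω a ∈ bS Q F ∧ ReflTransGen (Nx Q ω (F : Set Φ)) a (mate Q F ω a).swap := by
  refine ⟨mate_mem ha, ?_⟩
  have := (lst_spec (ω := ω) (mem_bS.mp ha).2).1
  unfold mate
  rw [Prod.swap_swap]
  exact this

theorem mate_eq (ha : a ∈ bS Q F) (hb : b ∈ bS Q F)
    (h : ReflTransGen (Nx Q ω (F : Set Φ)) a b.swap) : mate Q F ω a = b := by
  have := mate_unique (ω := ω) (mem_bS.mp ha).2 (ter_swap.mpr (mem_bS.mp hb).2)
    (srel_iff.mpr (Or.inl h))
  rwa [Prod.swap_swap] at this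

/-- the product over the arcs -/
def Wt {R : Type} [CommMonoid R] (Q : QC V Φ) (F : Finset Φ) (τ : Sym2 (V × V) → R)
    (ω : Φ → Bool) : R := ∏ p ∈ arcs Q F ω, τ p

theorem arc_mem_iff (ha : a ∈ bS Q F) : s(a, b) ∈ arcs Q F ω ↔ mate Q F ω a = b := by
  rw [mem_arcs]
  constructor
  · rintro ⟨c, hc, h⟩
    rw [Sym2.eq_iff] at h
    rcases h with ⟨rfl, h⟩ | ⟨rfl, h⟩
    · exact h
    · rw [← h, mate_mate hc]
  · rintro rfl
    exact ⟨a, ha, rfl⟩

/-! ## Legs -/

/-- a leg: a face of `I` behind `a`, the strand runs in `M \ I` until it reaches `F \ M` -/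
def Leg (Q : QC V Φ) (ω : Φ → Bool) (F I M : Finset Φ) (a : V × V) : Prop :=
  Ah Q I a.swap ∧ ∃ b, ReflTransGen (Nx Q ω ((M \ I : Finset Φ) : Set Φ)) a b ∧ Ah Q (F \ M) b

/-- at most one leg -/
def OneLeg (Q : QC V Φ) (ω : Φ → Bool) (F I M : Finset Φ) : Prop :=
  ∀ a a', Leg Q ω F I M a → Leg Q ω F I M a' → a = a'

/-- no leg -/
def NoLeg (Q : QC V Φ) (ω : Φ → Bool) (F I M : Finset Φ) : Prop := ∀ a, ¬ Leg Q ω F I M a

theorem NoLeg.one (h : NoLeg Q ω F I M) : OneLeg Q ω F I M := fun a _ ha _ => absurd ha (h a)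

theorem Leg.congr (h : ∀ f ∈ M \ I, ω f = ω' f) (hl : Leg Q ω F I M a) : Leg Q ω' F I M a := by
  obtain ⟨h1, b, h2, h3⟩ := hl
  exact ⟨h1, b, rtg_congr h h2, h3⟩

theorem OneLeg.congr (h : ∀ f ∈ M \ I, ω f = ω' f) (hl : OneLeg Q ω F I M) :
    OneLeg Q ω' F I M := fun a a' ha ha' =>
  hl a a' (ha.congr fun f hf => (h f hf).symm) (ha'.congr fun f hf => (h f hf).symm)

theorem oneLeg_congr (h : ∀ f ∈ M \ I, ω f = ω' f) :
    OneLeg Q ω F I M ↔ OneLeg Q ω' F I M :=
  ⟨OneLeg.congr h, OneLeg.congr fun f hf => (h f hf).symm⟩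

theorem NoLeg.congr (h : ∀ f ∈ M \ I, ω f = ω' f) (hl : NoLeg Q ω F I M) :
    NoLeg Q ω' F I M := fun a ha => hl a (ha.congr fun f hf => (h f hf).symm)

/-- the last visit of `I` before leaving `M` -/
theorem last_visit (hx : Ah Q I x)
    (h : ReflTransGen (Nx Q ω (M : Set Φ)) x y) :
    y = x ∨ ∃ c, Ah Q I c.swap ∧ (∃ d, Nx Q ω (M : Set Φ) x d ∧
      ReflTransGen (Nx Q ω (M : Set Φ)) d c) ∧
      ReflTransGen (Nx Q ω ((M \ I : Finset Φ) : Set Φ)) c y := by
  induction h with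
  | refl => exact Or.inl rfl
  | @tail y z hxy hs ih =>
    right
    by_cases hI : Ah Q I y
    · refine ⟨z, ah_right (nx_of_ah hs hI), ?_, ReflTransGen.refl⟩
      rcases ReflTransGen.cases_head hxy with e | ⟨d, h1, h2⟩
      · exact ⟨z, e ▸ hs, ReflTransGen.refl⟩
      · exact ⟨d, h1, h2.tail hs⟩
    · rcases ih with rfl | ⟨c, h1, h2, h3⟩
      · exact absurd hx hI
      · refine ⟨c, h1, h2, h3.tail ?_⟩
        refine nx_of_ah hs ?_
        obtain ⟨f, hf, l, e⟩ := ah_left hs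
        refine ⟨f, Finset.mem_sdiff.mpr ⟨hf, fun hfI => hI ⟨f, hfI, l, e⟩⟩, l, e⟩

/-- leaving `M` after a visit of `I`: a leg which comes strictly later on the strand -/
theorem leg_of_exit (hIM : I ⊆ M) (hx : Ah Q I x)
    (h : ReflTransGen (Nx Q ω (M : Set Φ)) x y) (hy : Ah Q (F \ M) y) :
    ∃ c, Leg Q ω F I M c ∧ ∃ d, Nx Q ω (M : Set Φ) x d ∧
      ReflTransGen (Nx Q ω (M : Set Φ)) d c := by
  rcases last_visit hx h with rfl | ⟨c, h1, h2, h3⟩
  · exact (ah_disj (Finset.disjoint_sdiff (s := M) (t := F)) (hx.mono hIM) hy).elim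
  · exact ⟨c, ⟨h1, y, h3, hy⟩, h2⟩

/-- entering `I` from outside of `M`: the reverse is a leg -/
theorem leg_of_entry (hIM : I ⊆ M) (hk : Ah Q (F \ M) k)
    (h : ReflTransGen (Nx Q ω ((F \ I : Finset Φ) : Set Φ)) k x) (hx : Ah Q I x) :
    Leg Q ω F I M x.swap := by
  have key : ∀ y, ReflTransGen (Nx Q ω ((F \ I : Finset Φ) : Set Φ)) k y →
      y = k ∨ ∃ c, Ah Q (F \ M) c.swap ∧
        ReflTransGen (Nx Q ω ((M \ I : Finset Φ) : Set Φ)) c y := by
    intro y hy
    induction hy with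
    | refl => exact Or.inl rfl
    | @tail y z _ hs ih =>
      right
      by_cases hM : Ah Q M y
      · rcases ih with rfl | ⟨c, h1, h2⟩
        · exact (ah_disj (Finset.disjoint_sdiff (s := M) (t := F)) hM hk).elim
        · refine ⟨c, h1, h2.tail (nx_of_ah hs ?_)⟩
          obtain ⟨f, hf, l, e⟩ := hM
          refine ⟨f, Finset.mem_sdiff.mpr ⟨hf, fun hfI => ?_⟩, l, e⟩
          exact ah_disj (Finset.disjoint_sdiff (s := I) (t := F)) ⟨f, hfI, l, e⟩ (ah_left hs)
      · refine ⟨z, ?_, ReflTransGen.refl⟩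
        have h1 : Ah Q (F \ M) y := by
          obtain ⟨f, hf, l, e⟩ := ah_left hs
          exact ⟨f, Finset.mem_sdiff.mpr ⟨(Finset.mem_sdiff.mp hf).1,
            fun hfM => hM ⟨f, hfM, l, e⟩⟩, l, e⟩
        exact ah_right (nx_of_ah hs h1)
  rcases key x h with rfl | ⟨c, h1, h2⟩
  · exact (ah_disj (Finset.disjoint_sdiff (s := M) (t := F)) (hx.mono hIM) hk).elim
  · exact ⟨by rw [Prod.swap_swap]; exact hx, c.swap, rtg_rev h2, h1⟩

/-- **a strand from outside `M`**: until its end it has not visited `I`, or from its first visit of `I`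
on it stays in `M` -/
theorem two_states (hQ : NoLoop Q) (hIM : I ⊆ M) (hMF : M ⊆ F) (h1 : OneLeg Q ω F I M)
    (hk : Ah Q (F \ M) k) (h : ReflTransGen (Nx Q ω (F : Set Φ)) k y) :
    ReflTransGen (Nx Q ω ((F \ I : Finset Φ) : Set Φ)) k y ∨
    ∃ x, ReflTransGen (Nx Q ω ((F \ I : Finset Φ) : Set Φ)) k x ∧ Ah Q I x ∧
      ReflTransGen (Nx Q ω (M : Set Φ)) x y := by
  induction h with
  | refl => exact Or.inl ReflTransGen.refl
  | @tail y z _ hs ih =>
    rcases ih with ih | ⟨x, hx1, hx2, hx3⟩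
    · by_cases hI : Ah Q I y
      · right
        exact ⟨y, ih, hI, ReflTransGen.single (nx_mono hIM (nx_of_ah hs hI))⟩
      · left
        refine ih.tail (nx_of_ah hs ?_)
        obtain ⟨f, hf, l, e⟩ := ah_left hs
        exact ⟨f, Finset.mem_sdiff.mpr ⟨hf, fun hfI => hI ⟨f, hfI, l, e⟩⟩, l, e⟩
    · rcases nx_or hs M with h2 | h2
      · exact Or.inr ⟨x, hx1, hx2, hx3.tail h2⟩
      · exfalso
        obtain ⟨c, hc, d, hd1, hd2⟩ := leg_of_exit hIM hx2 hx3 h2
        have e := h1 _ _ hc (leg_of_entry hIM hk hx1 hx2)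
        have h3 : ReflTransGen (Nx Q ω (F : Set Φ)) x x.swap := by
          rw [← e]
          exact rtg_sub hMF (ReflTransGen.head hd1 hd2)
        exact not_srel_swap hQ (mem_dE_ah.mpr (Or.inl (hx2.mono (hIM.trans hMF))))
          (srel_iff.mpr (Or.inl h3))

open Classical in
/-- the starting sides whose face is in `M` -/
def wall (Q : QC V Φ) (F M : Finset Φ) : Finset (V × V) := (bS Q F).filter fun a => Ah Q M a

theorem mem_wall : a ∈ wall Q F M ↔ a ∈ bS Q F ∧ Ah Q M a := by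
  classical
  unfold wall
  rw [Finset.mem_filter]

theorem ah_of_not_wall (ha : a ∈ bS Q F) (hw : a ∉ wall Q F M) : Ah Q (F \ M) a := by
  obtain ⟨f, hf, l, e⟩ := (mem_bS_ah.mp ha).1
  refine ⟨f, Finset.mem_sdiff.mpr ⟨hf, fun h => hw (mem_wall.mpr ⟨ha, f, h, l, e⟩)⟩, l, e⟩

theorem mate_two (hQ : NoLoop Q) (hIM : I ⊆ M) (hMF : M ⊆ F) (h1 : OneLeg Q ω F I M)
    (ha : a ∈ bS Q F) (hw : a ∉ wall Q F M) :
    ReflTransGen (Nx Q ω ((F \ I : Finset Φ) : Set Φ)) a (mate Q F ω a).swap ∨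
    mate Q F ω a ∈ wall Q F M := by
  obtain ⟨h2, h3⟩ := mate_spec ω ha
  rcases two_states hQ hIM hMF h1 (ah_of_not_wall ha hw) h3 with h4 | ⟨x, h4, h5, h6⟩
  · exact Or.inl h4
  · right
    refine mem_wall.mpr ⟨h2, ?_⟩
    rcases ReflTransGen.cases_tail h6 with e | ⟨c, -, h7⟩
    · have h8 : Ah Q I (mate Q F ω a).swap := e ▸ h5
      exact absurd (h8.mono (hIM.trans hMF)) (mem_bS_ah.mp h2).2
    · have := ah_right h7
      rwa [Prod.swap_swap] at this

/-- **Lemma 4.A, form 1**: with at most one leg the end of a strand which starts outside of `M` does not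
depend on the configuration in `I`, or it is in the wall of `M` for both configurations. -/
theorem mate_stable (hQ : NoLoop Q) (hIM : I ⊆ M) (hMF : M ⊆ F) (h1 : OneLeg Q ω F I M)
    (hω : ∀ f, f ∉ I → ω f = ω' f) (ha : a ∈ bS Q F) (hw : a ∉ wall Q F M) :
    mate Q F ω' a = mate Q F ω a ∨ (mate Q F ω a ∈ wall Q F M ∧ mate Q F ω' a ∈ wall Q F M) := by
  have h1' : OneLeg Q ω' F I M := h1.congr fun f hf => hω f (Finset.mem_sdiff.mp hf).2
  rcases mate_two hQ hIM hMF h1 ha hw with h2 | h2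
  · left
    refine mate_eq ha (mate_mem (ω := ω) ha) ?_
    exact rtg_sub Finset.sdiff_subset
      (rtg_congr (fun f hf => hω f (Finset.mem_sdiff.mp hf).2) h2)
  · rcases mate_two hQ hIM hMF h1' ha hw with h3 | h3
    · left
      symm
      refine mate_eq ha (mate_mem (ω := ω') ha) ?_
      exact rtg_sub Finset.sdiff_subset
        (rtg_congr (fun f hf => (hω f (Finset.mem_sdiff.mp hf).2).symm) h3)
    · exact Or.inr ⟨h2, h3⟩

/-! ## The product over the arcs -/

/-- `τ` does not distinguish the sides of the wall of `M` and is `1` on pairs of them -/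
structure Neutral {R : Type} [CommMonoid R] (Q : QC V Φ) (F M : Finset Φ) (τ : Sym2 (V × V) → R) :
    Prop where
  one : ∀ a ∈ wall Q F M, ∀ b ∈ wall Q F M, τ s(a, b) = 1
  eq : ∀ k ∈ bS Q F, k ∉ wall Q F M → ∀ a ∈ wall Q F M, ∀ b ∈ wall Q F M, τ s(k, a) = τ s(k, b)

open Classical in
/-- the arcs with both ends outside of the wall of `M` -/
def arcsO (Q : QC V Φ) (F M : Finset Φ) (ω : Φ → Bool) : Finset (Sym2 (V × V)) :=
  (arcs Q F ω).filter fun p => ∀ a ∈ p, a ∉ wall Q F M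

open Classical in
/-- the starting sides outside of the wall of `M` whose arc ends in the wall of `M` -/
def mixS (Q : QC V Φ) (F M : Finset Φ) (ω : Φ → Bool) : Finset (V × V) :=
  (bS Q F).filter fun k => k ∉ wall Q F M ∧ mate Q F ω k ∈ wall Q F M

theorem mem_arcsO {p : Sym2 (V × V)} : p ∈ arcsO Q F M ω ↔
    p ∈ arcs Q F ω ∧ ∀ a ∈ p, a ∉ wall Q F M := by
  classical
  unfold arcsO
  rw [Finset.mem_filter]

theorem mem_mixS : k ∈ mixS Q F M ω ↔
    k ∈ bS Q F ∧ k ∉ wall Q F M ∧ mate Q F ω k ∈ wall Q F M := by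
  classical
  unfold mixS
  rw [Finset.mem_filter]

theorem Wt_formula {R : Type} [CommMonoid R] {τ : Sym2 (V × V) → R} (hτ : Neutral Q F M τ)
    (ω : Φ → Bool) : Wt Q F τ ω =
      (∏ p ∈ arcsO Q F M ω, τ p) * ∏ k ∈ mixS Q F M ω, τ s(k, mate Q F ω k) := by
  classical
  have hinj : ∀ k ∈ mixS Q F M ω, ∀ l ∈ mixS Q F M ω,
      s(k, mate Q F ω k) = s(l, mate Q F ω l) → k = l := by
    intro k hk l hl h
    rw [Sym2.eq_iff] at h
    rcases h with ⟨h, -⟩ | ⟨h, -⟩
    · exact h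
    · exact absurd (h ▸ (mem_mixS.mp hl).2.2) (mem_mixS.mp hk).2.1
  rw [← Finset.prod_image (s := mixS Q F M ω) (g := fun k => s(k, mate Q F ω k)) (f := τ)
    (fun k hk l hl h => hinj k hk l hl h), ← Finset.prod_union]
  · unfold Wt
    symm
    apply Finset.prod_subset
    · intro p hp
      rcases Finset.mem_union.mp hp with hp | hp
      · exact (mem_arcsO.mp hp).1
      · obtain ⟨k, hk, rfl⟩ := Finset.mem_image.mp hp
        exact mem_arcs.mpr ⟨k, (mem_mixS.mp hk).1, rfl⟩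
    · intro p hp hp'
      obtain ⟨a, ha, rfl⟩ := mem_arcs.mp hp
      rw [Finset.mem_union, not_or] at hp'
      by_cases h1 : a ∈ wall Q F M
      · by_cases h2 : mate Q F ω a ∈ wall Q F M
        · exact hτ.one a h1 _ h2
        · exfalso
          apply hp'.2
          refine Finset.mem_image.mpr ⟨mate Q F ω a, mem_mixS.mpr ⟨mate_mem (ω := ω) ha, h2, ?_⟩, ?_⟩
          · rw [mate_mate (ω := ω) ha]
            exact h1
          · rw [mate_mate (ω := ω) ha]
            exact Sym2.eq_swap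
      · exfalso
        by_cases h2 : mate Q F ω a ∈ wall Q F M
        · exact hp'.2 (Finset.mem_image.mpr ⟨a, mem_mixS.mpr ⟨ha, h1, h2⟩, rfl⟩)
        · apply hp'.1
          refine mem_arcsO.mpr ⟨hp, ?_⟩
          intro b hb
          rcases Sym2.mem_iff.mp hb with rfl | rfl
          · exact h1
          · exact h2
  · rw [Finset.disjoint_left]
    intro p hp hp'
    obtain ⟨k, hk, rfl⟩ := Finset.mem_image.mp hp'
    exact (mem_arcsO.mp hp).2 _ (Sym2.mem_mk_right _ _) (mem_mixS.mp hk).2.2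

/-- **Lemma 4.A**: with at most one leg the product over the arcs does not depend on the configuration
in `I`. -/
theorem Wt_stable {R : Type} [CommMonoid R] {τ : Sym2 (V × V) → R} (hQ : NoLoop Q) (hIM : I ⊆ M)
    (hMF : M ⊆ F) (hτ : Neutral Q F M τ) (h1 : OneLeg Q ω F I M)
    (hω : ∀ f, f ∉ I → ω f = ω' f) : Wt Q F τ ω' = Wt Q F τ ω := by
  classical
  have h1' : OneLeg Q ω' F I M := h1.congr fun f hf => hω f (Finset.mem_sdiff.mp hf).2
  have hst : ∀ a ∈ bS Q F, a ∉ wall Q F M → mate Q F ω' a = mate Q F ω a ∨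
      (mate Q F ω a ∈ wall Q F M ∧ mate Q F ω' a ∈ wall Q F M) := fun a ha hw =>
    mate_stable hQ hIM hMF h1 hω ha hw
  have hsub : ∀ (α β : Φ → Bool), (∀ a ∈ bS Q F, a ∉ wall Q F M → mate Q F β a = mate Q F α a ∨
      (mate Q F α a ∈ wall Q F M ∧ mate Q F β a ∈ wall Q F M)) →
      arcsO Q F M α ⊆ arcsO Q F M β := by
    intro α β h p hp
    obtain ⟨hp1, hp2⟩ := mem_arcsO.mp hp
    obtain ⟨a, ha, rfl⟩ := mem_arcs.mp hp1
    refine mem_arcsO.mpr ⟨?_, hp2⟩
    rcases h a ha (hp2 a (Sym2.mem_mk_left _ _)) with h3 | h3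
    · exact mem_arcs.mpr ⟨a, ha, by rw [h3]⟩
    · exact absurd h3.1 (hp2 _ (Sym2.mem_mk_right _ _))
  have hA : arcsO Q F M ω' = arcsO Q F M ω := by
    apply Finset.Subset.antisymm
    · refine hsub ω' ω fun a ha hw => ?_
      rcases hst a ha hw with h | h
      · exact Or.inl h.symm
      · exact Or.inr ⟨h.2, h.1⟩
    · exact hsub ω ω' hst
  have hK : mixS Q F M ω' = mixS Q F M ω := by
    ext k
    rw [mem_mixS, mem_mixS]
    constructor
    · rintro ⟨h2, h3, h4⟩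
      refine ⟨h2, h3, ?_⟩
      rcases hst k h2 h3 with h | h
      · rwa [h] at h4
      · exact h.1
    · rintro ⟨h2, h3, h4⟩
      refine ⟨h2, h3, ?_⟩
      rcases hst k h2 h3 with h | h
      · rwa [h]
      · exact h.2
  rw [Wt_formula hτ, Wt_formula hτ, hA, hK]
  congr 1
  refine Finset.prod_congr rfl fun k hk => ?_
  obtain ⟨h2, h3, h4⟩ := mem_mixS.mp hk
  rcases hst k h2 h3 with h | h
  · rw [h]
  · exact hτ.eq k h2 h3 _ h.2 _ h.1

/-! ## A shell without legs: the product splits -/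

/-- the arc of `a` does not visit `I` -/
def Avo (Q : QC V Φ) (F I : Finset Φ) (ω : Φ → Bool) (a : V × V) : Prop :=
  ReflTransGen (Nx Q ω ((F \ I : Finset Φ) : Set Φ)) a (mate Q F ω a).swap

theorem avo_mate1 (ha : a ∈ bS Q F) (h : Avo Q F I ω a) : Avo Q F I ω (mate Q F ω a) := by
  unfold Avo
  rw [mate_mate (ω := ω) ha]
  have := rtg_rev h
  rwa [Prod.swap_swap] at this

theorem avo_mate (ha : a ∈ bS Q F) : Avo Q F I ω (mate Q F ω a) ↔ Avo Q F I ω a := by
  constructor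
  · intro h
    have := avo_mate1 (mate_mem (ω := ω) ha) h
    rwa [mate_mate (ω := ω) ha] at this
  · exact avo_mate1 ha

open Classical in
/-- the arcs which do not visit `I` -/
def arcsAvo (Q : QC V Φ) (F I : Finset Φ) (ω : Φ → Bool) : Finset (Sym2 (V × V)) :=
  ((bS Q F).filter fun a => Avo Q F I ω a).image fun a => s(a, mate Q F ω a)

open Classical in
/-- the arcs which visit `I` -/
def arcsVis (Q : QC V Φ) (F I : Finset Φ) (ω : Φ → Bool) : Finset (Sym2 (V × V)) :=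
  ((bS Q F).filter fun a => ¬ Avo Q F I ω a).image fun a => s(a, mate Q F ω a)

/-- the product over the arcs which do not visit `I` -/
def WtAvo {R : Type} [CommMonoid R] (Q : QC V Φ) (F I : Finset Φ) (τ : Sym2 (V × V) → R)
    (ω : Φ → Bool) : R := ∏ p ∈ arcsAvo Q F I ω, τ p

/-- the product over the arcs which visit `I` -/
def WtVis {R : Type} [CommMonoid R] (Q : QC V Φ) (F I : Finset Φ) (τ : Sym2 (V × V) → R)
    (ω : Φ → Bool) : R := ∏ p ∈ arcsVis Q F I ω, τ p

theorem mem_arcsAvo {p : Sym2 (V × V)} : p ∈ arcsAvo Q F I ω ↔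
    ∃ a ∈ bS Q F, Avo Q F I ω a ∧ s(a, mate Q F ω a) = p := by
  classical
  unfold arcsAvo
  simp only [Finset.mem_image, Finset.mem_filter, and_assoc]

theorem mem_arcsVis {p : Sym2 (V × V)} : p ∈ arcsVis Q F I ω ↔
    ∃ a ∈ bS Q F, ¬ Avo Q F I ω a ∧ s(a, mate Q F ω a) = p := by
  classical
  unfold arcsVis
  simp only [Finset.mem_image, Finset.mem_filter, and_assoc]

/-- the product splits (no hypothesis) -/
theorem Wt_split {R : Type} [CommMonoid R] (τ : Sym2 (V × V) → R) (ω : Φ → Bool) :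
    Wt Q F τ ω = WtVis Q F I τ ω * WtAvo Q F I τ ω := by
  classical
  unfold Wt WtVis WtAvo
  rw [← Finset.prod_union]
  · congr 1
    ext p
    rw [Finset.mem_union, mem_arcs, mem_arcsAvo, mem_arcsVis]
    constructor
    · rintro ⟨a, ha, h⟩
      by_cases hA : Avo Q F I ω a
      · exact Or.inr ⟨a, ha, hA, h⟩
      · exact Or.inl ⟨a, ha, hA, h⟩
    · rintro (⟨a, ha, -, h⟩ | ⟨a, ha, -, h⟩)
      · exact ⟨a, ha, h⟩
      · exact ⟨a, ha, h⟩
  · rw [Finset.disjoint_left]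
    intro p hp hp'
    obtain ⟨a, ha, hA, rfl⟩ := mem_arcsVis.mp hp
    obtain ⟨b, hb, hB, h⟩ := mem_arcsAvo.mp hp'
    rw [Sym2.eq_iff] at h
    rcases h with ⟨rfl, -⟩ | ⟨rfl, -⟩
    · exact hA hB
    · exact hA ((avo_mate ha).mp hB)

theorem avo_congr (ha : a ∈ bS Q F) (hω : ∀ f ∈ F \ I, ω f = ω' f) (h : Avo Q F I ω a) :
    mate Q F ω' a = mate Q F ω a ∧ Avo Q F I ω' a := by
  have h1 := rtg_congr hω h
  have h2 : mate Q F ω' a = mate Q F ω a :=
    mate_eq ha (mate_mem (ω := ω) ha) (rtg_sub Finset.sdiff_subset h1)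
  refine ⟨h2, ?_⟩
  unfold Avo
  rw [h2]
  exact h1

theorem arcsAvo_congr (hω : ∀ f ∈ F \ I, ω f = ω' f) : arcsAvo Q F I ω' = arcsAvo Q F I ω := by
  ext p
  rw [mem_arcsAvo, mem_arcsAvo]
  constructor
  · rintro ⟨a, ha, hA, rfl⟩
    obtain ⟨h1, h2⟩ := avo_congr ha (fun f hf => (hω f hf).symm) hA
    exact ⟨a, ha, h2, by rw [h1]⟩
  · rintro ⟨a, ha, hA, rfl⟩
    obtain ⟨h1, h2⟩ := avo_congr ha hω hA
    exact ⟨a, ha, h2, by rw [h1]⟩

/-- the outer factor does not depend on the configuration in `I` (no hypothesis on legs) -/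
theorem WtAvo_congr {R : Type} [CommMonoid R] (τ : Sym2 (V × V) → R)
    (hω : ∀ f ∈ F \ I, ω f = ω' f) : WtAvo Q F I τ ω' = WtAvo Q F I τ ω := by
  unfold WtAvo
  rw [arcsAvo_congr hω]

/-- two descriptions of one path -/
theorem rtg_inter (hb : ¬ Ah Q (A ∪ B) b) (h : ReflTransGen (Nx Q ω (A : Set Φ)) a b)
    (h' : ReflTransGen (Nx Q ω (B : Set Φ)) a b) :
    ReflTransGen (Nx Q ω ((A ∩ B : Finset Φ) : Set Φ)) a b := by
  induction h using ReflTransGen.head_induction_on with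
  | refl => exact ReflTransGen.refl
  | @head x c hs hc ih =>
    rcases ReflTransGen.cases_head h' with e | ⟨d, h1, h2⟩
    · exact absurd ((ah_left hs).mono Finset.subset_union_left) (e ▸ hb)
    · obtain ⟨f, hf, l, e, h3⟩ := hs
      obtain ⟨g, hg, m, e', h4⟩ := h1
      have e1 := e
      rw [e'] at e1
      obtain ⟨rfl, rfl⟩ := Q.inj (Prod.mk.inj e1).1 (Prod.mk.inj e1).2
      have hs1 : Nx Q ω ((A ∩ B : Finset Φ) : Set Φ) x c :=
        ⟨g, by rw [Finset.coe_inter]; exact ⟨hf, hg⟩, m, e, h3⟩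
      have hs2 : Nx Q ω ((A ∩ B : Finset Φ) : Set Φ) x d :=
        ⟨g, by rw [Finset.coe_inter]; exact ⟨hf, hg⟩, m, e', h4⟩
      have e2 := hs1.unique hs2
      subst e2
      exact ReflTransGen.head hs1 (ih h2)

theorem rtg_avoid (hAF : A ⊆ F) (h : ReflTransGen (Nx Q ω (A : Set Φ)) a y)
    (hno : ∀ x, ReflTransGen (Nx Q ω (A : Set Φ)) a x →
      ReflTransGen (Nx Q ω (A : Set Φ)) x y → ¬ Ah Q I x) :
    ReflTransGen (Nx Q ω ((F \ I : Finset Φ) : Set Φ)) a y := by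
  induction h using ReflTransGen.head_induction_on with
  | refl => exact ReflTransGen.refl
  | @head x c hs hc ih =>
    have h1 : ¬ Ah Q I x := hno x ReflTransGen.refl (ReflTransGen.head hs hc)
    refine ReflTransGen.head (nx_of_ah hs ?_) (ih fun z hz hzy => hno z (ReflTransGen.head hs hz) hzy)
    obtain ⟨f, hf, l, e⟩ := ah_left hs
    exact ⟨f, Finset.mem_sdiff.mpr ⟨hAF hf, fun hfI => h1 ⟨f, hfI, l, e⟩⟩, l, e⟩

/-- without legs an arc which visits `I` stays in `M` -/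
theorem stay_in (hIM : I ⊆ M) (hMF : M ⊆ F) (h1 : NoLeg Q ω F I M) (ha : a ∈ bS Q F)
    (hA : ¬ Avo Q F I ω a) : ReflTransGen (Nx Q ω (M : Set Φ)) a (mate Q F ω a).swap := by
  -- every point of the arc: in `M` so far, or outside of `I` so far
  have key : ∀ y, ReflTransGen (Nx Q ω (F : Set Φ)) a y →
      ReflTransGen (Nx Q ω (M : Set Φ)) a y ∨
        ReflTransGen (Nx Q ω ((F \ I : Finset Φ) : Set Φ)) a y := by
    intro y hy
    -- stronger: the second alternative comes with a visit of `F \ M`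
    suffices H : ReflTransGen (Nx Q ω (M : Set Φ)) a y ∨
        (ReflTransGen (Nx Q ω ((F \ I : Finset Φ) : Set Φ)) a y ∧
          ∃ c, Ah Q (F \ M) c ∧ ReflTransGen (Nx Q ω ((F \ I : Finset Φ) : Set Φ)) c y) by
      rcases H with H | ⟨H, -⟩
      · exact Or.inl H
      · exact Or.inr H
    induction hy with
    | refl => exact Or.inl ReflTransGen.refl
    | @tail y z _ hs ih =>
      have hout : ¬ Ah Q I y → Nx Q ω ((F \ I : Finset Φ) : Set Φ) y z := by
        intro hI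
        refine nx_of_ah hs ?_
        obtain ⟨f, hf, l, e⟩ := ah_left hs
        exact ⟨f, Finset.mem_sdiff.mpr ⟨hf, fun hfI => hI ⟨f, hfI, l, e⟩⟩, l, e⟩
      rcases ih with ih | ⟨ih, c, hc, hcy⟩
      · rcases nx_or hs M with h2 | h2
        · exact Or.inl (ih.tail h2)
        · right
          have hI : ¬ Ah Q I y := fun h3 =>
            ah_disj (Finset.disjoint_sdiff (s := M) (t := F)) (h3.mono hIM) h2
          have hav : ReflTransGen (Nx Q ω ((F \ I : Finset Φ) : Set Φ)) a y := by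
            -- no visit of `I` before
            have : ∀ x, ReflTransGen (Nx Q ω (M : Set Φ)) a x →
                ReflTransGen (Nx Q ω (M : Set Φ)) x y → ¬ Ah Q I x := by
              intro x _ hxy hxI
              obtain ⟨c, hc, -⟩ := leg_of_exit (F := F) hIM hxI hxy h2
              exact h1 c hc
            exact rtg_avoid hMF ih this
          exact ⟨hav.tail (hout hI), y, h2, ReflTransGen.single (hout hI)⟩
      · have hI : ¬ Ah Q I y := fun h3 => h1 _ (leg_of_entry hIM hc hcy h3)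
        exact Or.inr ⟨ih.tail (hout hI), c, hc, hcy.tail (hout hI)⟩
  rcases key _ (mate_spec ω ha).2 with h | h
  · exact h
  · exact absurd h hA

theorem vis_congr (hIM : I ⊆ M) (hMF : M ⊆ F) (h1 : NoLeg Q ω F I M) (ha : a ∈ bS Q F)
    (hω : ∀ f ∈ M, ω f = ω' f) (hA : ¬ Avo Q F I ω a) :
    mate Q F ω' a = mate Q F ω a ∧ ¬ Avo Q F I ω' a := by
  have h2 := stay_in hIM hMF h1 ha hA
  have h3 := rtg_congr hω h2
  have h4 : mate Q F ω' a = mate Q F ω a := mate_eq ha (mate_mem (ω := ω) ha) (rtg_sub hMF h3)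
  refine ⟨h4, fun hA' => hA ?_⟩
  unfold Avo at hA' ⊢
  rw [h4] at hA'
  have h5 := rtg_inter (A := M) (B := F \ I) ?_ h3 hA'
  · refine rtg_sub Finset.inter_subset_right (rtg_congr (fun f hf => ?_) h5)
    exact (hω f (Finset.mem_inter.mp hf).1).symm
  · intro h6
    exact (mem_bS_ah.mp (mate_mem (ω := ω) ha)).2
      (h6.mono (Finset.union_subset hMF Finset.sdiff_subset))

theorem arcsVis_congr (hIM : I ⊆ M) (hMF : M ⊆ F) (h1 : NoLeg Q ω F I M)
    (hω : ∀ f ∈ M, ω f = ω' f) : arcsVis Q F I ω' = arcsVis Q F I ω := by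
  have h1' : NoLeg Q ω' F I M := h1.congr fun f hf => hω f (Finset.mem_sdiff.mp hf).1
  ext p
  rw [mem_arcsVis, mem_arcsVis]
  constructor
  · rintro ⟨a, ha, hA, rfl⟩
    obtain ⟨h3, h4⟩ := vis_congr hIM hMF h1' ha (fun f hf => (hω f hf).symm) hA
    exact ⟨a, ha, h4, by rw [h3]⟩
  · rintro ⟨a, ha, hA, rfl⟩
    obtain ⟨h3, h4⟩ := vis_congr hIM hMF h1 ha hω hA
    exact ⟨a, ha, h4, by rw [h3]⟩

/-- **the inner factor**: without legs it depends only on the configuration in `M` -/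
theorem WtVis_congr {R : Type} [CommMonoid R] (τ : Sym2 (V × V) → R) (hIM : I ⊆ M) (hMF : M ⊆ F)
    (h1 : NoLeg Q ω F I M) (hω : ∀ f ∈ M, ω f = ω' f) :
    WtVis Q F I τ ω' = WtVis Q F I τ ω := by
  unfold WtVis
  rw [arcsVis_congr hIM hMF h1 hω]

/-- the ends of the arcs which visit `I` are in the wall of `M` -/
theorem vis_wall (hQ : NoLoop Q) (hIM : I ⊆ M) (hMF : M ⊆ F) (h1 : NoLeg Q ω F I M)
    (ha : a ∈ bS Q F) (hA : ¬ Avo Q F I ω a) : a ∈ wall Q F M := by
  by_contra hw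
  have h2 := stay_in hIM hMF h1 ha hA
  rcases ReflTransGen.cases_head h2 with e | ⟨c, h3, -⟩
  · exact mate_ne (ω := ω) hQ ha (by
      have := ah_of_not_wall ha hw
      exfalso
      have h4 := (mem_bS_ah.mp ha).1
      rw [e] at h4
      exact (mem_bS_ah.mp (mate_mem (ω := ω) ha)).2 h4)
  · exact ah_disj (Finset.disjoint_sdiff (s := M) (t := F)) (ah_left h3) (ah_of_not_wall ha hw)

/-! ## Averages -/

theorem arcs_dep : Dep (F : Set Φ) (fun ω => arcs Q F ω) := by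
  have key : ∀ ω ω' : Φ → Bool, (∀ f ∈ (F : Set Φ), ω f = ω' f) → arcs Q F ω ⊆ arcs Q F ω' := by
    intro ω ω' h p hp
    obtain ⟨a, ha, rfl⟩ := mem_arcs.mp hp
    refine mem_arcs.mpr ⟨a, ha, ?_⟩
    rw [mate_eq ha (mate_mem (ω := ω) ha) (rtg_congr (fun f hf => h f (by exact_mod_cast hf))
      (mate_spec ω ha).2)]
  intro ω ω' h
  exact Finset.Subset.antisymm (key ω ω' h) (key ω' ω fun f hf => (h f hf).symm)

theorem Wt_dep {R : Type} [CommMonoid R] (τ : Sym2 (V × V) → R) :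
    Dep (F : Set Φ) (fun ω => Wt Q F τ ω) := by
  intro ω ω' h
  show Wt Q F τ ω = Wt Q F τ ω'
  unfold Wt
  have : arcs Q F ω = arcs Q F ω' := arcs_dep ω ω' h
  rw [this]

open Classical in
/-- the product on the event of at most one leg -/
def Wt1 (Q : QC V Φ) (F I M : Finset Φ) (τ : Sym2 (V × V) → ℝ) (ω : Φ → Bool) : ℝ :=
  if OneLeg Q ω F I M then Wt Q F τ ω else 0

theorem Wt1_pos {τ : Sym2 (V × V) → ℝ} (h : OneLeg Q ω F I M) : Wt1 Q F I M τ ω = Wt Q F τ ω := by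
  unfold Wt1
  rw [if_pos h]

theorem Wt1_neg {τ : Sym2 (V × V) → ℝ} (h : ¬ OneLeg Q ω F I M) : Wt1 Q F I M τ ω = 0 := by
  unfold Wt1
  rw [if_neg h]

/-- the product on the event of at most one leg depends only on the faces outside of `I` -/
theorem Wt1_dep {τ : Sym2 (V × V) → ℝ} (hQ : NoLoop Q) (hIM : I ⊆ M) (hMF : M ⊆ F)
    (hτ : Neutral Q F M τ) : Dep ((F \ I : Finset Φ) : Set Φ) (Wt1 Q F I M τ) := by
  classical
  intro ω ω' h
  have h' : ∀ f ∈ F \ I, ω f = ω' f := fun f hf => h f (by exact_mod_cast hf)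
  have hleg : OneLeg Q ω F I M ↔ OneLeg Q ω' F I M := oneLeg_congr fun f hf =>
    h' f (Finset.mem_sdiff.mpr ⟨hMF (Finset.mem_sdiff.mp hf).1, (Finset.mem_sdiff.mp hf).2⟩)
  by_cases h1 : OneLeg Q ω F I M
  · rw [Wt1_pos h1, Wt1_pos (hleg.mp h1)]
    let ξ : Φ → Bool := fun f => if f ∈ I then ω' f else ω f
    have e1 : Wt Q F τ ξ = Wt Q F τ ω :=
      Wt_stable hQ hIM hMF hτ h1 fun f hf => by simp only [ξ]; rw [if_neg hf]
    have e2 : Wt Q F τ ξ = Wt Q F τ ω' := by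
      refine Wt_dep τ ξ ω' fun f hf => ?_
      simp only [ξ]
      by_cases hI : f ∈ I
      · rw [if_pos hI]
      · rw [if_neg hI]
        exact h' f (Finset.mem_sdiff.mpr ⟨by exact_mod_cast hf, hI⟩)
    rw [← e1, e2]
  · rw [Wt1_neg h1, Wt1_neg fun h2 => h1 (hleg.mpr h2)]

/-- **W2.** For a function `X` of the configuration in `I`: the tilt changes its mean only on the event of
at least two legs. -/
theorem av_Wt {τ : Sym2 (V × V) → ℝ} (hQ : NoLoop Q) (hIM : I ⊆ M) (hMF : M ⊆ F)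
    (hτ : Neutral Q F M τ) {X : (Φ → Bool) → ℝ} (hX : Dep (I : Set Φ) X) :
    av F (fun ω => X ω * Wt Q F τ ω) - av F X * av F (Wt Q F τ) =
      av F (fun ω => (X ω - av F X) * (Wt Q F τ ω - Wt1 Q F I M τ ω)) := by
  have h1 : av F (fun ω => (X ω - av F X) * Wt1 Q F I M τ ω) = 0 := by
    have hd : Disjoint I (F \ I) := Finset.disjoint_sdiff
    have hX' : Dep (I : Set Φ) (fun ω => X ω - av F X) := by
      intro ω ω' h
      simp only [hX ω ω' h]
    rw [av_indep' hd hX' (Wt1_dep hQ hIM hMF hτ) (hIM.trans hMF) Finset.sdiff_subset, av_sub,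
      av_const, sub_self, zero_mul]
  have h2 : av F (fun ω => (X ω - av F X) * (Wt Q F τ ω - Wt1 Q F I M τ ω)) =
      av F (fun ω => X ω * Wt Q F τ ω - av F X * Wt Q F τ ω) -
        av F (fun ω => (X ω - av F X) * Wt1 Q F I M τ ω) := by
    rw [← av_sub]
    congr 1
    funext ω
    ring
  rw [h2, h1, sub_zero, av_sub, av_mul]

open Classical in
/-- **W2, bound.** -/
theorem abs_av_Wt_le {τ : Sym2 (V × V) → ℝ} (hQ : NoLoop Q) (hIM : I ⊆ M) (hMF : M ⊆ F)
    (hτ : Neutral Q F M τ) {X : (Φ → Bool) → ℝ} (hX : Dep (I : Set Φ) X) :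
    |av F (fun ω => X ω * Wt Q F τ ω) - av F X * av F (Wt Q F τ)| ≤
      av F (fun ω => if OneLeg Q ω F I M then 0 else
        (|X ω| + av F (fun ω => |X ω|)) * |Wt Q F τ ω|) := by
  rw [av_Wt hQ hIM hMF hτ hX]
  refine abs_av_le fun T _ => ?_
  split_ifs with h
  · rw [Wt1_pos h, sub_self, mul_zero, abs_zero]
  · rw [Wt1_neg h, sub_zero, abs_mul]
    refine mul_le_mul_of_nonneg_right ?_ (abs_nonneg _)
    refine (abs_sub _ _).trans (add_le_add le_rfl ?_)
    exact abs_av_le fun T _ => le_rfl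

end

end Pool.Agent.SixB.Tilt
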