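import Pool.Agent.Lib.SixB.S4WallDefs
import Pool.Agent.Lib.SixB.S4A
import Pool.Agent.Lib.SixB.S4Plane

/-!
# 6BD step 4: (W1) splitting of the column sum

* `exists_ter'`: a strand which is not closed ends.
* `stt_spec`, `stt_eq`, `stt_mem`: the first side of the strand of a directed unit edge.
* `full_arc`: an arc of `F` which is complete in `HB0 R` with both ends in the wall is an arc of `F`.
* `num_of_full`, `sw1 : SW1`.
-/

set_option autoImplicit false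
set_option linter.unusedSectionVars false

namespace Pool.Agent.SixB

open Pool.Agent.Perc Pool.Agent.Perc.Q Relation

noncomputable section

section General

variable {V Φ : Type} [DecidableEq V] [DecidableEq Φ]
variable {Q : QC V Φ} {F : Finset Φ} {ω : Φ → Bool} {a b e : V × V}

/-- a strand which is not closed ends -/
theorem exists_ter' (h : ¬ Clo Q F ω e) : ∃ b, b ∈ Orb Q ω (F : Set Φ) e ∧ Ter Q (F : Set Φ) b := by
  by_contra hcon
  push Not at hcon
  have hs : ∀ a : Orb Q ω (F : Set Φ) e, ∃ b : Orb Q ω (F : Set Φ) e, Nx Q ω (F : Set Φ) a b := by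
    rintro ⟨a, ha⟩
    have h1 := hcon a ha
    unfold Ter at h1
    push Not at h1
    obtain ⟨f, hf, k, rfl⟩ := h1
    rcases Bool.eq_or_eq_not (ω f) (ev k) with h | h
    · exact ⟨⟨_, Orb_step ha (Nx.mk_left hf h)⟩, Nx.mk_left hf h⟩
    · exact ⟨⟨_, Orb_step ha (Nx.mk_right hf h)⟩, Nx.mk_right hf h⟩
  choose n hn using hs
  have hfin : Finite (Orb Q ω (F : Set Φ) e) := by
    have h1 : Orb Q ω (F : Set Φ) e ⊆ (fun x : Φ × ZMod 4 => (Q.c x.1 x.2, Q.c x.1 (x.2 + 1))) ''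
        ((F : Set Φ) ×ˢ (Set.univ : Set (ZMod 4))) := by
      intro a ha
      have h1 := hcon a ha
      unfold Ter at h1
      push Not at h1
      obtain ⟨f, hf, k, h⟩ := h1
      exact ⟨(f, k), ⟨hf, Set.mem_univ _⟩, h.symm⟩
    exact ((F.finite_toSet.prod Set.finite_univ).image _).subset h1
  have hinj : Function.Injective n := by
    intro a a' h
    have h1 := hn a
    rw [h] at h1
    exact Subtype.ext (h1.inj (hn a'))
  obtain ⟨a, ha⟩ := Finite.surjective_of_injective hinj ⟨e, mem_Orb_self⟩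
  have h1 := hn a
  rw [ha] at h1
  exact h (TransGen.tail'_iff.mpr ⟨_, a.2, h1⟩)

theorem not_clo_of_ter (hb : b ∈ Orb Q ω (F : Set Φ) e) (ht : Ter Q (F : Set Φ) b) :
    ¬ Clo Q F ω e := by
  intro h
  have h1 : Clo Q F ω b := h.of_srel (srel_iff.mpr (Or.inl hb))
  obtain ⟨c, hc, -⟩ := h1.exists_nx
  exact ter_nx ht hc

theorem lst_spec' (h : ¬ Clo Q F ω e) :
    lst Q F ω e ∈ Orb Q ω (F : Set Φ) e ∧ Ter Q (F : Set Φ) (lst Q F ω e) := by
  unfold lst
  rw [dif_pos (exists_ter' h)]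
  exact (exists_ter' h).choose_spec

theorem lst_eq (hb : b ∈ Orb Q ω (F : Set Φ) e) (ht : Ter Q (F : Set Φ) b) : lst Q F ω e = b := by
  obtain ⟨h1, h2⟩ := lst_spec' (not_clo_of_ter hb ht)
  exact ter_unique h1 hb h2 ht

end General

section Plane

variable {F G : Finset (ℤ × ℤ)} {ω : Cfg} {a b e : DZ}

/-- the first side of the strand of `e` -/
theorem stt_spec (h : ¬ Clo ZQ F ω e) :
    ReflTransGen (Nx ZQ ω (F : Set (ℤ × ℤ))) (stt F ω e) e ∧ Ini ZQ (F : Set (ℤ × ℤ)) (stt F ω e) := by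
  have h' : ¬ Clo ZQ F ω e.swap := fun hh => h (clo_swap.mp hh)
  obtain ⟨h1, h2⟩ := lst_spec' h'
  constructor
  · have := rtg_rev h1
    rwa [Prod.swap_swap] at this
  · exact ini_swap.mpr h2

theorem stt_eq (ha : Ini ZQ (F : Set (ℤ × ℤ)) a) (h : ReflTransGen (Nx ZQ ω (F : Set (ℤ × ℤ))) a e) :
    stt F ω e = a := by
  unfold stt
  have := rtg_rev h
  rw [lst_eq this (ter_swap.mpr ha), Prod.swap_swap]

theorem stt_mem (h : ¬ Clo ZQ F ω e) (he : e ∈ dE ZQ F) : stt F ω e ∈ bS ZQ F := by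
  obtain ⟨h1, h2⟩ := stt_spec h
  refine mem_bS.mpr ⟨?_, h2⟩
  rcases ReflTransGen.cases_head h1 with h3 | ⟨c, h3, -⟩
  · rw [h3]
    exact he
  · exact Nx.left_mem h3

/-- the strand of `e` runs from its first side through `e` to the last one -/
theorem stt_last (h : ¬ Clo ZQ F ω e) :
    ReflTransGen (Nx ZQ ω (F : Set (ℤ × ℤ))) e (mate ZQ F ω (stt F ω e)).swap := by
  obtain ⟨h1, h2⟩ := stt_spec h
  obtain ⟨h3, h4⟩ := lst_spec (Q := ZQ) (ω := ω) h2
  have h5 : lst ZQ F ω (stt F ω e) ∈ Orb ZQ ω (F : Set (ℤ × ℤ)) e := by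
    obtain ⟨b, hb, hb'⟩ := exists_ter' h
    have h6 : b = lst ZQ F ω (stt F ω e) :=
      ter_unique (ReflTransGen.trans h1 hb) h3 hb' h4
    rwa [← h6]
  unfold mate
  rw [Prod.swap_swap]
  exact h5

theorem mem_wS {w : ℤ} : a ∈ wS w ↔ ∃ i, -w ≤ i ∧ i ≤ w ∧ wsd i = a := by
  unfold wS
  simp only [Finset.mem_image, Finset.mem_Icc, and_assoc]

theorem wS_mono {w w' : ℤ} (h : w ≤ w') (ha : a ∈ wS w) : a ∈ wS w' := by
  obtain ⟨i, h1, h2, h3⟩ := mem_wS.mp ha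
  exact mem_wS.mpr ⟨i, by omega, by omega, h3⟩

/-- the face above a wall side, the face below it -/
theorem wsd_sd (i : ℤ) : wsd i = sd ZQ (i, 0) 0 := rfl

theorem wsd_swap (i : ℤ) : (wsd i).swap = sd ZQ (i, -1) 2 := by
  change ((i + 1, (0 : ℤ)), (i, (0 : ℤ))) = ((i + 1, -1 + 1), (i, -1 + 1))
  norm_num

theorem wsd_ini {i : ℤ} (h : (i, -1) ∉ F) : Ini ZQ (F : Set (ℤ × ℤ)) (wsd i) := by
  intro f hf k hh
  have h1 : (wsd i).swap = sd ZQ f k := by rw [hh]; rfl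
  rw [wsd_swap] at h1
  have := (ZQ.inj (Prod.mk.inj h1).1 (Prod.mk.inj h1).2).1
  rw [← this] at hf
  exact h (by exact_mod_cast hf)

theorem mem_HB0 {w : ℤ} {f : ℤ × ℤ} : f ∈ HB0 w ↔ (-w ≤ f.1 ∧ f.1 ≤ w) ∧ 0 ≤ f.2 ∧ f.2 < w := by
  unfold HB0
  rw [mem_RF]
  omega

theorem HB0_mono_sub {w w' : ℤ} (h : w ≤ w') : HB0 w ⊆ HB0 w' := by
  intro f hf
  rw [mem_HB0] at hf ⊢
  omega

theorem pe_mem {R x j : ℤ} (hR : 1 ≤ R) (hx : 0 ≤ x) (hx1 : x ≤ 1) (hj : 0 ≤ j) (hj1 : j < R) :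
    WEnv.pe x j ∈ dE ZQ (HB0 R) := by
  refine mem_dE.mpr ⟨(x, j), mem_HB0.mpr (by simp only; omega), 3, Or.inl ?_⟩
  rfl

/-- an arc which is complete in `G` with ends which are boundary sides of `F` is an arc of `F` -/
theorem full_arc (hG : G ⊆ F) (h : ¬ Clo ZQ G ω e) (ha : Ini ZQ (F : Set (ℤ × ℤ)) (stt G ω e))
    (hb : Ini ZQ (F : Set (ℤ × ℤ)) (mate ZQ G ω (stt G ω e))) :
    ¬ Clo ZQ F ω e ∧ stt F ω e = stt G ω e ∧
      mate ZQ F ω (stt G ω e) = mate ZQ G ω (stt G ω e) := by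
  obtain ⟨h1, h2⟩ := stt_spec h
  have h3 := stt_last h
  have hG' : (G : Set (ℤ × ℤ)) ⊆ (F : Set (ℤ × ℤ)) := by exact_mod_cast hG
  have h1' := rtg_mono (fun _ _ => Nx.mono hG') h1
  have h3' := rtg_mono (fun _ _ => Nx.mono hG') h3
  have ht : Ter ZQ (F : Set (ℤ × ℤ)) (mate ZQ G ω (stt G ω e)).swap := ter_swap.mpr hb
  refine ⟨not_clo_of_ter h3' ht, stt_eq ha h1', ?_⟩
  have := mate_unique (ω := ω) ha ht (srel_iff.mpr (Or.inl (ReflTransGen.trans h1' h3')))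
  rw [this, Prod.swap_swap]

end Plane

/-- a strand which is complete in `HB0 R` has its natural mean arrow -/
theorem num_of_full {E : WEnv} {d : ℤ} {M : ℝ} (hE : WallAt E d M) {R : ℤ} (hR : R ≤ 2 * d)
    {ω : Cfg} {e : DZ} (he : e ∈ dE ZQ (HB0 R)) (hf : Full R ω e) :
    E.num ω e = natA R ω e * E.W ω := by
  classical
  have hsub : HB0 R ⊆ E.F := (HB0_mono_sub hR).trans hE.sub
  unfold WEnv.num natA
  by_cases hc : Clo ZQ (HB0 R) ω e
  · rw [if_pos hc, if_pos (hc.mono hsub), hc.trn_eq hsub]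
  · have hs : stt (HB0 R) ω e ∈ wS R ∧ mate ZQ (HB0 R) ω (stt (HB0 R) ω e) ∈ wS R := by
      rcases hf with h | h
      · exact absurd h hc
      · exact h
    have hini : ∀ a ∈ wS R, Ini ZQ (E.F : Set (ℤ × ℤ)) a := by
      intro a ha
      obtain ⟨i, h1, h2, rfl⟩ := mem_wS.mp ha
      exact wsd_ini (hE.below i (by omega) (by omega))
    obtain ⟨h1, h2, h3⟩ := full_arc hsub hc (hini _ hs.1) (hini _ hs.2)
    have hmem : stt (HB0 R) ω e ∈ bS ZQ E.F := by
      have := stt_mem h1 (dE_mono hsub he)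
      rwa [h2] at this
    rw [if_neg hc, if_neg h1]
    unfold arcE
    rw [h2, h3]
    have hmate := mate_ne (ω := ω) Tilt.zq_noLoop hmem
    rw [h3] at hmate
    set a := stt (HB0 R) ω e with ha
    set b := mate ZQ (HB0 R) ω a with hb
    have hT : E.T s(a, b) = 1 := hE.t_wall a (wS_mono hR hs.1) b (wS_mono hR hs.2)
    have hW : E.W ω = ∏ p ∈ (arcs ZQ E.F ω).erase s(a, b), E.T p := by
      unfold WEnv.W
      rw [← Finset.mul_prod_erase (arcs ZQ E.F ω) E.T (a := s(a, b)), hT, one_mul]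
      exact mem_arcs.mpr ⟨a, hmem, by rw [h3]⟩
    rw [hW]
    congr 1
    obtain ⟨i, hi1, hi2, hia⟩ := mem_wS.mp hs.1
    obtain ⟨j, hj1, hj2, hjb⟩ := mem_wS.mp hs.2
    rw [← hia, ← hjb]
    have hij : i ≠ j := by
      intro hh
      apply hmate
      rw [← hia, ← hjb, hh]
    change E.s (wsd i) (wsd j) = if i < j then -(1 / Real.sqrt 3) else 1 / Real.sqrt 3
    have hwi : wsd i ∈ wS (2 * d) := mem_wS.mpr ⟨i, by omega, by omega, rfl⟩
    have hwj : wsd j ∈ wS (2 * d) := mem_wS.mpr ⟨j, by omega, by omega, rfl⟩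
    by_cases hlt : i < j
    · rw [if_pos hlt, hE.s_wall i j hwi hwj hlt]
    · rw [if_neg hlt, E.s_anti, hE.s_wall j i hwj hwi (by omega), neg_neg]

/-- **(W1)** -/
theorem sw1 : SW1 := by
  classical
  intro E d M hE R x y y' ω hR hRd hx hx1 hy' hyy hyR
  unfold WEnv.numC fIn gOut
  rw [Finset.sum_mul, ← Finset.sum_add_distrib]
  refine Finset.sum_congr rfl fun j hj => ?_
  rw [Finset.mem_Ico] at hj
  by_cases h : Full R ω (WEnv.pe x j)
  · rw [if_pos h, if_pos h, add_zero,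
      num_of_full hE hRd (pe_mem hR hx hx1 (by omega) (by omega)) h]
  · rw [if_neg h, if_neg h, zero_mul, zero_add]

end

end Pool.Agent.SixB
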