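import Pool.Agent.Lib.SixB.S4Ring

/-!
# 6BD: two nested rings which are crossed once (every complex of quadrangles)

`I₁ ⊆ M₁ ⊆ I₂ ⊆ M₂ ⊆ F`; the configurations `ω`, `ω'` agree off `I₂`.
* `back_no`, `forth_no`: core forms of `back_in`, `forth_out`.
* `not_clo_leg`: the strand of the unique leg is not closed.
* `two_rings`: there is an exit edge `b₂` of `M₂` which is on the strand of the leg of the inner ring for
  both configurations.
* `mate_two_rings`: in every domain between `M₂` and `F` the two strands have the same last side.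
-/

set_option autoImplicit false
set_option linter.unusedSectionVars false

namespace Pool.Agent.SixB.Tilt

open Pool.Agent.Perc.Q Relation

noncomputable section

variable {V Φ : Type} [DecidableEq V] [DecidableEq Φ]
variable {Q : QC V Φ} {F G I M I₁ M₁ I₂ M₂ : Finset Φ} {ω ω' : Φ → Bool}
  {a a' b b₂ c c' e k l x y z : V × V}

/-- backwards from the leg no face of `F \ M` is entered -/
theorem back_no (hQ : NoLoop Q) (hIM : I ⊆ M) (hMF : M ⊆ F) (h1 : OneLeg Q ω F I M)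
    (hl : Leg Q ω F I M l) (h : ReflTransGen (Nx Q ω (F : Set Φ)) l.swap y) :
    ¬ Ah Q (F \ M) y := by
  intro h2
  have h3 := back_in hQ hIM hMF h1 hl h
  obtain ⟨c, hc, d, hd1, hd2⟩ := leg_of_exit hIM hl.1 h3 h2
  have e := h1 _ _ hc hl
  subst e
  have h4 : ReflTransGen (Nx Q ω (F : Set Φ)) c.swap c :=
    rtg_sub hMF (ReflTransGen.head hd1 hd2)
  exact no_rev hQ (x := c.swap) (F := F) (Or.inl (hl.1.mono (hIM.trans hMF)))
    (ω := ω) (by rw [Prod.swap_swap]; exact h4)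

/-- behind the end of the leg no face of `I` is entered -/
theorem forth_no (hQ : NoLoop Q) (hIM : I ⊆ M) (hMF : M ⊆ F) (h1 : OneLeg Q ω F I M)
    (hl : Leg Q ω F I M l) (hlb : ReflTransGen (Nx Q ω (F : Set Φ)) l b) (hb : Ah Q (F \ M) b)
    (h : ReflTransGen (Nx Q ω (F : Set Φ)) b y) : ¬ Ah Q I y := by
  intro hI
  have h4 := forth_out hQ hIM hMF h1 hl hlb hb h
  have e1 := h1 _ _ (leg_of_entry hIM hb h4 hI) hl
  have h5 : ReflTransGen (Nx Q ω (F : Set Φ)) l l.swap := by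
    have h6 : y = l.swap := by rw [← e1, Prod.swap_swap]
    rw [← h6]
    exact hlb.trans h
  exact no_rev hQ (x := l) (F := F) (ω := ω) (Or.inr (hl.1.mono (hIM.trans hMF))) h5

theorem not_clo_leg (hQ : NoLoop Q) (hIM : I ⊆ M) (hMF : M ⊆ F) (h1 : OneLeg Q ω F I M)
    (hl : Leg Q ω F I M l) : ¬ Clo Q F ω l := by
  intro hc
  obtain ⟨hl1, b, hb1, hb2⟩ := hl
  have hl : Leg Q ω F I M l := ⟨hl1, b, hb1, hb2⟩
  have hlb : ReflTransGen (Nx Q ω (F : Set Φ)) l b :=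
    rtg_sub (Finset.sdiff_subset.trans hMF) hb1
  have hcb : Clo Q F ω b := hc.of_srel (srel_iff.mpr (Or.inl hlb))
  obtain ⟨c', hc1, -⟩ := hcb.exists_nx
  have h2 : ReflTransGen (Nx Q ω (F : Set Φ)) l c' := hlb.tail hc1
  have h3 : ReflTransGen (Nx Q ω (F : Set Φ)) l.swap c'.swap := by
    have h4 := rtg_rev h2
    have h5 : Clo Q F ω c'.swap := (hc.of_srel (srel_iff.mpr (Or.inl h2))).swap
    exact h5.back h4
  refine back_no hQ hIM hMF h1 hl h3 ?_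
  obtain ⟨f, hf, h6, h7⟩ := nx_ah hc1
  obtain ⟨g, hg, m, e1⟩ := hb2
  obtain ⟨f', hf', m', e2⟩ := h6
  have hff := Finset.mem_singleton.mp hf'
  subst hff
  rw [e1] at e2
  have hgf := (Q.inj (Prod.mk.inj e2).1 (Prod.mk.inj e2).2).1
  subst hgf
  obtain ⟨g', hg', m'', e3⟩ := h7
  have := Finset.mem_singleton.mp hg'
  subst this
  exact ⟨g', hg, m'', e3⟩

/-- a leg of the outer ring, its end, on the strand of the leg of the inner ring -/
theorem through (hQ : NoLoop Q) (h11 : I₁ ⊆ M₁) (h12 : M₁ ⊆ I₂) (h22 : I₂ ⊆ M₂) (h2F : M₂ ⊆ F)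
    (ho1 : OneLeg Q ω F I₁ M₁) (ho2 : OneLeg Q ω F I₂ M₂)
    (hex : ∃ k, Leg Q ω F I₁ M₂ k) (hc : Leg Q ω F I₁ M₁ c) :
    ∃ l b, Leg Q ω F I₂ M₂ l ∧ ReflTransGen (Nx Q ω ((M₂ \ I₂ : Finset Φ) : Set Φ)) l b ∧
      Ah Q (F \ M₂) b ∧ ReflTransGen (Nx Q ω (M₂ : Set Φ)) c b := by
  obtain ⟨k, hk1, y, hk2, hk3⟩ := hex
  have hI12 : I₁ ⊆ I₂ := h11.trans h12
  have hM12 : M₁ ⊆ M₂ := h12.trans h22
  have hky : ReflTransGen (Nx Q ω (F : Set Φ)) k y :=
    rtg_sub (Finset.sdiff_subset.trans h2F) hk2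
  obtain ⟨c', hc', hkc⟩ := leg_of_out (F := F) h11 (Or.inr hk1) hky
    (hk3.mono (Finset.sdiff_subset_sdiff (Finset.Subset.refl _) hM12))
  have e1 := ho1 _ _ hc' hc
  subst e1
  obtain ⟨l, hl, hkl⟩ := leg_of_out (F := F) h22 (Or.inr (hk1.mono hI12)) hky hk3
  obtain ⟨hl1, b, hb1, hb2⟩ := hl
  have hl : Leg Q ω F I₂ M₂ l := ⟨hl1, b, hb1, hb2⟩
  have hlb : ReflTransGen (Nx Q ω (F : Set Φ)) l b :=
    rtg_sub (Finset.sdiff_subset.trans h2F) hb1
  have hu : Relator.RightUnique (Nx Q ω (F : Set Φ)) := fun _ _ _ h h' => Nx.unique h h'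
  have hcl : ReflTransGen (Nx Q ω (F : Set Φ)) c' l := by
    rcases ReflTransGen.total_of_right_unique hu hkc hkl with h | h
    · exact h
    · have hring : ReflTransGen (Nx Q ω ((M₂ \ I₂ : Finset Φ) : Set Φ)) l c' := by
        rcases ring_or h2F hb2 hb1 h with h3 | h3
        · exact h3
        · rw [no_edge_out hQ h22 h2F ho2 hl hlb hb2 h3 (Or.inr (hc.1.mono hI12))]
          exact hb1
      rcases ReflTransGen.cases_tail hring with h4 | ⟨d, -, h4⟩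
      · rw [h4]
      · exact (ah_disj (Finset.disjoint_sdiff (s := I₂) (t := M₂)) (hc.1.mono hI12)
          (ah_right h4)).elim
  have h5 := back_in hQ h22 h2F ho2 hl (rtg_rev hcl)
  have h6 := rtg_rev h5
  rw [Prod.swap_swap, Prod.swap_swap] at h6
  exact ⟨l, b, hl, hb1, hb2, h6.trans (rtg_sub Finset.sdiff_subset hb1)⟩

/-- **two rings**: a common exit edge -/
theorem two_rings (hQ : NoLoop Q) (h11 : I₁ ⊆ M₁) (h12 : M₁ ⊆ I₂) (h22 : I₂ ⊆ M₂) (h2F : M₂ ⊆ F)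
    (hω : ∀ f, f ∉ I₂ → ω f = ω' f)
    (ho1 : OneLeg Q ω F I₁ M₁) (ho1' : OneLeg Q ω' F I₁ M₁) (ho2 : OneLeg Q ω F I₂ M₂)
    (hex : ∃ k, Leg Q ω F I₁ M₂ k) (hex' : ∃ k, Leg Q ω' F I₁ M₂ k)
    (hc : Leg Q ω F I₁ M₁ c) (hc' : Leg Q ω' F I₁ M₁ c') :
    ∃ b, Ah Q (F \ M₂) b ∧ ReflTransGen (Nx Q ω (M₂ : Set Φ)) c b ∧
      ReflTransGen (Nx Q ω' (M₂ : Set Φ)) c' b ∧
      (∀ y, ReflTransGen (Nx Q ω (F : Set Φ)) b y → ¬ Ah Q I₂ y) := by
  have hring : ∀ f ∈ M₂ \ I₂, ω f = ω' f := fun f hf => hω f (Finset.mem_sdiff.mp hf).2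
  have ho2' : OneLeg Q ω' F I₂ M₂ := ho2.congr hring
  obtain ⟨l, b, hl, hb1, hb2, hcb⟩ := through hQ h11 h12 h22 h2F ho1 ho2 hex hc
  obtain ⟨l', b', hl', hb1', hb2', hcb'⟩ := through hQ h11 h12 h22 h2F ho1' ho2' hex' hc'
  have hl'' : Leg Q ω F I₂ M₂ l' := hl'.congr fun f hf => (hring f hf).symm
  have e1 := ho2 _ _ hl'' hl
  subst e1
  have hb1'' : ReflTransGen (Nx Q ω ((M₂ \ I₂ : Finset Φ) : Set Φ)) l' b' :=
    rtg_congr (fun f hf => (hring f hf).symm) hb1'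
  have hstop : ∀ {u : V × V}, Ah Q (F \ M₂) u → ¬ Ah Q (M₂ \ I₂) u := fun h h' =>
    ah_disj (Finset.disjoint_sdiff (s := M₂) (t := F)) (h'.mono Finset.sdiff_subset) h
  have e2 : b' = b := by
    have hu : Relator.RightUnique (Nx Q ω ((M₂ \ I₂ : Finset Φ) : Set Φ)) :=
      fun _ _ _ h h' => Nx.unique h h'
    rcases ReflTransGen.total_of_right_unique hu hb1'' hb1 with h | h
    · exact rtg_stop (hstop hb2') h
    · exact (rtg_stop (hstop hb2) h).symm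
  subst e2
  refine ⟨b', hb2, hcb, hcb', fun y hy => ?_⟩
  exact forth_no hQ h22 h2F ho2 hl'' (rtg_sub (Finset.sdiff_subset.trans h2F) hb1) hb2 hy

/-- in every domain `G` between `M₂` and `F` the strands of the two legs have the same last side -/
theorem mate_two_rings (h2G : M₂ ⊆ G) (hGF : G ⊆ F) (hω : ∀ f, f ∉ I₂ → ω f = ω' f)
    (hcb : ReflTransGen (Nx Q ω (M₂ : Set Φ)) c b) (hcb' : ReflTransGen (Nx Q ω' (M₂ : Set Φ)) c' b)
    (hno : ∀ y, ReflTransGen (Nx Q ω (F : Set Φ)) b y → ¬ Ah Q I₂ y)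
    (ha : Ini Q (G : Set Φ) a) (ha' : Ini Q (G : Set Φ) a')
    (hac : ReflTransGen (Nx Q ω (G : Set Φ)) a c) (hac' : ReflTransGen (Nx Q ω' (G : Set Φ)) a' c') :
    mate Q G ω' a' = mate Q G ω a ∧
      ReflTransGen (Nx Q ω ((G \ I₂ : Finset Φ) : Set Φ)) b (mate Q G ω a).swap := by
  obtain ⟨h1, h2⟩ := lst_spec (ω := ω) ha
  have hab : ReflTransGen (Nx Q ω (G : Set Φ)) a b := hac.trans (rtg_sub h2G hcb)
  have hab' : ReflTransGen (Nx Q ω' (G : Set Φ)) a' b := hac'.trans (rtg_sub h2G hcb')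
  have hu : Relator.RightUnique (Nx Q ω (G : Set Φ)) := fun _ _ _ h h' => Nx.unique h h'
  have h3 : ReflTransGen (Nx Q ω (G : Set Φ)) b (lst Q G ω a) := by
    rcases ReflTransGen.total_of_right_unique hu hab h1 with h | h
    · exact h
    · rw [rtg_stop (ter_iff.mp h2) h]
  have hall : ∀ y, ReflTransGen (Nx Q ω (G : Set Φ)) b y →
      ReflTransGen (Nx Q ω ((G \ I₂ : Finset Φ) : Set Φ)) b y := by
    intro y hy
    induction hy with
    | refl => exact ReflTransGen.refl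
    | @tail y z hy hs ih =>
      refine ih.tail (nx_of_ah hs ?_)
      obtain ⟨f, hf, m, e⟩ := ah_left hs
      exact ⟨f, Finset.mem_sdiff.mpr ⟨hf, fun hfI => hno y (rtg_sub hGF hy) ⟨f, hfI, m, e⟩⟩, m, e⟩
  have h4 := hall _ h3
  have h5 : ReflTransGen (Nx Q ω' (G : Set Φ)) b (lst Q G ω a) :=
    rtg_sub Finset.sdiff_subset (rtg_congr (fun f hf => hω f (Finset.mem_sdiff.mp hf).2) h4)
  have h6 := mate_unique (ω := ω') ha' h2 (srel_iff.mpr (Or.inl (hab'.trans h5)))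
  refine ⟨h6, ?_⟩
  unfold mate
  rw [Prod.swap_swap]
  exact h4

/-- the first side of the strand of the inner leg -/
theorem first_in (hQ : NoLoop Q) (hIM : I ⊆ M) (hMF : M ⊆ F) (h1 : OneLeg Q ω F I M)
    (hc : Leg Q ω F I M c) (ha : Ini Q (F : Set Φ) a)
    (hac : ReflTransGen (Nx Q ω (F : Set Φ)) a c) :
    ReflTransGen (Nx Q ω (M : Set Φ)) a c ∧ Ah Q M a := by
  have h2 := back_in hQ hIM hMF h1 hc (rtg_rev hac)
  have h3 := rtg_rev h2
  rw [Prod.swap_swap, Prod.swap_swap] at h3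
  refine ⟨h3, ?_⟩
  rcases ReflTransGen.cases_head h3 with h4 | ⟨d, h4, -⟩
  · exfalso
    rw [h4] at ha
    exact ini_iff.mp ha (hc.1.mono (hIM.trans hMF))
  · exact ah_left h4

end

end Pool.Agent.SixB.Tilt
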