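import Pool.Agent.Lib.SixB.S4W1
import Pool.Agent.Lib.SixB.S4Ring2

/-!
# 6BD step 4, (B3): the outer factor of the strand of the leg

* `num_swap`, `num_srel`: the numerator of the mean arrow is odd and constant along directed strands.
* `wall_HB0`: the wall of `HB0 w`; `neutral_HB0`.
* `outer_stable`: two rings which are crossed once: the numerator of the leg and the property `Full R` do not
  depend on the configuration in `HB0 a'`.
-/

set_option autoImplicit false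
set_option linter.unusedSectionVars false

namespace Pool.Agent.SixB

open Pool.Agent.Perc Pool.Agent.Perc.Q Relation Tilt

noncomputable section

variable {F G : Finset (ℤ × ℤ)} {ω ω' : Cfg} {e x y k c c' : DZ}

theorem stt_swap (h : ¬ Clo ZQ F ω e) : stt F ω e.swap = mate ZQ F ω (stt F ω e) := by
  have h1 := stt_last h
  have h2 := SixB.rtg_rev h1
  rw [Prod.swap_swap] at h2
  refine stt_eq ?_ h2
  have h3 := (lst_spec (Q := ZQ) (ω := ω) (stt_spec h).2).2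
  exact ini_swap.mpr h3

theorem mate_stt (h : ¬ Clo ZQ F ω e) :
    mate ZQ F ω (mate ZQ F ω (stt F ω e)) = stt F ω e := by
  have h' : ¬ Clo ZQ F ω e.swap := fun hh => h (clo_swap.mp hh)
  have h1 := stt_swap h'
  rw [Prod.swap_swap, stt_swap h] at h1
  exact h1.symm

/-- the numerator of the mean arrow is odd -/
theorem num_swap (E : WEnv) (ω : Cfg) (e : DZ) : E.num ω e.swap = -E.num ω e := by
  classical
  unfold WEnv.num
  by_cases hc : Clo ZQ E.F ω e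
  · rw [if_pos hc, if_pos hc.swap, trn_swap]
    push_cast
    ring
  · have hc' : ¬ Clo ZQ E.F ω e.swap := fun hh => hc (clo_swap.mp hh)
    rw [if_neg hc, if_neg hc']
    unfold arcE
    rw [stt_swap hc, mate_stt hc, E.s_anti, Sym2.eq_swap]
    ring

theorem stt_srel (h : SRel ZQ F ω x y) (hx : ¬ Clo ZQ F ω x) : stt F ω x = stt F ω y := by
  obtain ⟨h1, h2⟩ := stt_spec hx
  symm
  refine stt_eq h2 ?_
  have h3 : SRel ZQ F ω (stt F ω x) y := EqvGen.trans _ _ _ (srel_iff.mpr (Or.inl h1)) h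
  rcases srel_iff.mp h3 with h4 | h4
  · exact h4
  · rcases ReflTransGen.cases_tail h4 with h5 | ⟨d, -, h5⟩
    · rw [h5]
    · exact absurd h5 (ini_nx h2)

/-- the numerator is constant along directed strands -/
theorem num_srel (E : WEnv) {ω : Cfg} {x y : DZ} (h : SRel ZQ E.F ω x y) :
    E.num ω x = E.num ω y := by
  classical
  unfold WEnv.num
  by_cases hc : Clo ZQ E.F ω x
  · rw [if_pos hc, if_pos ((clo_srel h).mp hc), trn_eq h]
  · have hc' : ¬ Clo ZQ E.F ω y := fun hh => hc ((clo_srel h).mpr hh)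
    rw [if_neg hc, if_neg hc']
    unfold arcE
    rw [stt_srel h hc]

/-! ## The wall of a half box -/

theorem sd_behind (f : ℤ × ℤ) (k : ZMod 4) : ∃ g : ℤ × ℤ, ∃ m : ZMod 4, (sd ZQ f k).swap = sd ZQ g m ∧
    ((k = 0 ∧ g = (f.1, f.2 - 1)) ∨ (k = 1 ∧ g = (f.1 + 1, f.2)) ∨ (k = 2 ∧ g = (f.1, f.2 + 1)) ∨
      (k = 3 ∧ g = (f.1 - 1, f.2))) := by
  obtain ⟨u, v⟩ := f
  rcases k4 k with rfl | rfl | rfl | rfl
  · refine ⟨(u, v - 1), 2, ?_, Or.inl ⟨rfl, rfl⟩⟩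
    change ((u + 1, v), (u, v)) = ((u + 1, v - 1 + 1), (u, v - 1 + 1))
    simp
  · exact ⟨(u + 1, v), 3, rfl, Or.inr (Or.inl ⟨rfl, rfl⟩)⟩
  · exact ⟨(u, v + 1), 0, rfl, Or.inr (Or.inr (Or.inl ⟨rfl, rfl⟩))⟩
  · refine ⟨(u - 1, v), 1, ?_, Or.inr (Or.inr (Or.inr ⟨rfl, rfl⟩))⟩
    change ((u, v), (u, v + 1)) = ((u - 1 + 1, v), (u - 1 + 1, v + 1))
    simp

/-- the boundary sides of `F` with face in `HB0 w` are wall sides -/
theorem wall_HB0 {d w : ℤ} (hsub : HB0 (2 * d) ⊆ F) (hw : w < 2 * d) (hx : x ∈ wall ZQ F (HB0 w)) :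
    x ∈ wS w := by
  obtain ⟨h1, f, hf, k, rfl⟩ := mem_wall.mp hx
  have h2 := (mem_bS_ah.mp h1).2
  rw [mem_HB0] at hf
  obtain ⟨g, m, hg, hk⟩ := sd_behind f k
  have hin : g ∉ HB0 (2 * d) := fun hh => h2 ⟨g, hsub hh, m, hg⟩
  rw [mem_HB0] at hin
  rcases hk with ⟨rfl, rfl⟩ | ⟨rfl, rfl⟩ | ⟨rfl, rfl⟩ | ⟨rfl, rfl⟩
  · simp only at hin
    have h3 : f.2 = 0 := by omega
    refine mem_wS.mpr ⟨f.1, by omega, by omega, ?_⟩
    rw [wsd_sd]
    congr 1
    exact Prod.ext rfl h3.symm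
  · simp only at hin; omega
  · simp only at hin; omega
  · simp only at hin; omega

theorem ini_of_wS {E : WEnv} {d : ℤ} {M : ℝ} (hE : WallAt E d M) {w : ℤ} (hw : w ≤ 2 * d)
    (hx : x ∈ wS w) : Ini ZQ (E.F : Set (ℤ × ℤ)) x := by
  obtain ⟨i, h1, h2, rfl⟩ := mem_wS.mp hx
  exact wsd_ini (hE.below i (by omega) (by omega))

theorem ini_sub (hG : G ⊆ F) (h : Ini ZQ (F : Set (ℤ × ℤ)) x) : Ini ZQ (G : Set (ℤ × ℤ)) x := by
  intro f hf
  exact h f (by exact_mod_cast hG (by exact_mod_cast hf))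

theorem neutral_HB0 {E : WEnv} {d : ℤ} {M : ℝ} (hE : WallAt E d M) {w : ℤ} (hw : w < 2 * d) :
    Neutral ZQ E.F (HB0 w) E.T := by
  constructor
  · intro a ha b hb
    exact hE.t_wall a (wS_mono (by omega) (wall_HB0 hE.sub hw ha)) b
      (wS_mono (by omega) (wall_HB0 hE.sub hw hb))
  · intro k hk hkw a ha b hb
    have ha' := wS_mono (w' := 2 * d) (by omega) (wall_HB0 hE.sub hw ha)
    have hb' := wS_mono (w' := 2 * d) (by omega) (wall_HB0 hE.sub hw hb)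
    change E.t k a = E.t k b
    by_cases h : k ∈ wS (2 * d)
    · rw [hE.t_wall k h a ha', hE.t_wall k h b hb']
    · rw [E.t_symm k a, E.t_symm k b]
      exact hE.t_far k hk h a ha' b hb'

theorem leg_dE {I M : Finset (ℤ × ℤ)} (hI : I ⊆ F) (h : Tilt.Leg ZQ ω F I M c) : c ∈ dE ZQ F :=
  mem_dE_ah.mpr (Or.inr (h.1.mono hI))

/-- **(B3)** -/
theorem outer_stable {E : WEnv} {d : ℤ} {M : ℝ} (hE : WallAt E d M) {a b a' b' R : ℤ} (ha : 1 ≤ a)
    (hab : a < b) (hba : b < a') (hab' : a' < b') (hbR : b' ≤ R) (hRd : R ≤ d) {ω ω' : Cfg}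
    (hω : ∀ f, f ∉ HB0 a' → ω' f = ω f)
    (ho : OneLeg ZQ ω E.F (HB0 a) (HB0 b)) (ho' : OneLeg ZQ ω' E.F (HB0 a) (HB0 b))
    (ho2 : OneLeg ZQ ω E.F (HB0 a') (HB0 b'))
    (hex : ∃ k, Tilt.Leg ZQ ω E.F (HB0 a) (HB0 b') k)
    (hex' : ∃ k, Tilt.Leg ZQ ω' E.F (HB0 a) (HB0 b') k) {c c' : DZ}
    (hc : Tilt.Leg ZQ ω E.F (HB0 a) (HB0 b) c) (hc' : Tilt.Leg ZQ ω' E.F (HB0 a) (HB0 b) c') :
    E.num ω' c' = E.num ω c ∧ (Full R ω' c' ↔ Full R ω c) := by
  classical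
  have hd := hE.hd
  have hQ := zq_noLoop
  have s11 : HB0 a ⊆ HB0 b := HB0_mono_sub (by omega)
  have s12 : HB0 b ⊆ HB0 a' := HB0_mono_sub (by omega)
  have s22 : HB0 a' ⊆ HB0 b' := HB0_mono_sub (by omega)
  have s2R : HB0 b' ⊆ HB0 R := HB0_mono_sub (by omega)
  have sRF : HB0 R ⊆ E.F := (HB0_mono_sub (by omega)).trans hE.sub
  have s2F : HB0 b' ⊆ E.F := s2R.trans sRF
  have s1F : HB0 b ⊆ E.F := (s12.trans s22).trans s2F
  have sIF : HB0 a ⊆ E.F := s11.trans s1F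
  obtain ⟨b₂, hb2, hcb, hcb', hno⟩ := two_rings hQ s11 s12 s22 s2F (fun f hf => (hω f hf).symm)
    ho ho' ho2 hex hex' hc hc'
  have hcF : ¬ Clo ZQ E.F ω c := not_clo_leg hQ s11 s1F ho hc
  have hcF' : ¬ Clo ZQ E.F ω' c' := not_clo_leg hQ s11 s1F ho' hc'
  have hcR : ¬ Clo ZQ (HB0 R) ω c := fun h => hcF (h.mono sRF)
  have hcR' : ¬ Clo ZQ (HB0 R) ω' c' := fun h => hcF' (h.mono sRF)
  -- the first sides
  obtain ⟨p1, p2⟩ := stt_spec hcF
  obtain ⟨p1', p2'⟩ := stt_spec hcF'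
  obtain ⟨q1, q2⟩ := first_in hQ s11 s1F ho hc p2 p1
  obtain ⟨q1', q2'⟩ := first_in hQ s11 s1F ho' hc' p2' p1'
  have m1 : stt E.F ω c ∈ bS ZQ E.F := stt_mem hcF (leg_dE sIF hc)
  have m1' : stt E.F ω' c' ∈ bS ZQ E.F := stt_mem hcF' (leg_dE sIF hc')
  have w1 : stt E.F ω c ∈ wS b := wall_HB0 hE.sub (by omega) (mem_wall.mpr ⟨m1, q2⟩)
  have w1' : stt E.F ω' c' ∈ wS b := wall_HB0 hE.sub (by omega) (mem_wall.mpr ⟨m1', q2'⟩)
  -- last sides
  have sbR : HB0 b ⊆ HB0 R := (s12.trans s22).trans s2R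
  obtain ⟨r1, r2⟩ := mate_two_rings (G := E.F) s2F (Finset.Subset.refl _)
    (fun f hf => (hω f hf).symm) hcb hcb' hno p2 p2' p1 p1'
  have p2R := ini_sub sRF p2
  have p2R' := ini_sub sRF p2'
  obtain ⟨t1, t2⟩ := mate_two_rings (G := HB0 R) s2R sRF (fun f hf => (hω f hf).symm) hcb hcb' hno
    p2R p2R' (rtg_sub sbR q1) (rtg_sub sbR q1')
  have eR : stt (HB0 R) ω c = stt E.F ω c := stt_eq p2R (rtg_sub sbR q1)
  have eR' : stt (HB0 R) ω' c' = stt E.F ω' c' := stt_eq p2R' (rtg_sub sbR q1')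
  refine ⟨?_, ?_⟩
  · unfold WEnv.num
    rw [if_neg hcF, if_neg hcF']
    unfold arcE
    rw [r1]
    set a0 := stt E.F ω c with ha0
    set a1 := stt E.F ω' c' with ha1
    set k := mate ZQ E.F ω a0 with hk
    have hkb : k ∈ bS ZQ E.F := mate_mem m1
    have hkI : ¬ Ah ZQ (HB0 a') k := by
      rcases ReflTransGen.cases_tail r2 with h | ⟨d', -, h⟩
      · exfalso
        have h3 : Ah ZQ E.F k.swap := by
          rw [h]
          exact hb2.mono Finset.sdiff_subset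
        exact (mem_bS_ah.mp hkb).2 h3
      · intro h3
        have h4 := ah_right h
        rw [Prod.swap_swap] at h4
        exact ah_disj (Finset.disjoint_sdiff (s := HB0 a') (t := E.F)) h3 h4
    have hs : E.s a1 k = E.s a0 k := by
      have w2 := wS_mono (w' := 2 * d) (by omega) w1
      have w2' := wS_mono (w' := 2 * d) (by omega) w1'
      by_cases hkw : k ∈ wS (2 * d)
      · obtain ⟨i, hi1, hi2, hik⟩ := mem_wS.mp hkw
        obtain ⟨j, hj1, hj2, hj⟩ := mem_wS.mp w1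
        obtain ⟨j', hj1', hj2', hj'⟩ := mem_wS.mp w1'
        have hki : ¬ (-a' ≤ i ∧ i ≤ a') := by
          rintro ⟨h3, h4⟩
          apply hkI
          refine ⟨(i, 0), mem_HB0.mpr ⟨⟨h3, h4⟩, le_refl _, by simp only; omega⟩, 0, ?_⟩
          rw [← hik]
          rfl
        rw [← hik] at hkw ⊢
        rw [← hj] at w2 ⊢
        rw [← hj'] at w2' ⊢
        rcases lt_or_ge a' i with h3 | h3
        · rw [hE.s_wall j' i w2' hkw (by omega), hE.s_wall j i w2 hkw (by omega)]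
        · rw [E.s_anti (wsd i) (wsd j'), E.s_anti (wsd i) (wsd j),
            hE.s_wall i j' hkw w2' (by omega), hE.s_wall i j hkw w2 (by omega)]
      · exact hE.s_far k hkb hkw a1 w2' a0 w2
    rw [hs]
    congr 1
    have hmk : mate ZQ E.F ω k = a0 := mate_mate m1
    have hmk' : mate ZQ E.F ω' k = a1 := by
      rw [← r1]
      exact mate_mate m1'
    have hN := neutral_HB0 hE (w := b') (by omega)
    by_cases hkw : k ∈ wall ZQ E.F (HB0 b')
    · -- weight one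
      have hkw' := wS_mono (w' := 2 * d) (by omega) (wall_HB0 hE.sub (by omega) hkw)
      have key : ∀ (ξ : Cfg) (u : DZ), u ∈ wS b → u ∈ bS ZQ E.F → mate ZQ E.F ξ u = k →
          ∏ p ∈ (arcs ZQ E.F ξ).erase s(u, k), E.T p = Wt ZQ E.F E.T ξ := by
        intro ξ u hu hub hm
        unfold Wt
        rw [← Finset.mul_prod_erase (arcs ZQ E.F ξ) E.T (a := s(u, k))]
        · have h3 : E.T s(u, k) = 1 := hE.t_wall u (wS_mono (by omega) hu) k hkw'
          rw [h3, one_mul]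
        · exact mem_arcs.mpr ⟨u, hub, by rw [hm]⟩
      rw [key ω' a1 w1' m1' r1, key ω a0 w1 m1 rfl]
      exact Wt_stable hQ s22 s2F hN ho2 (fun f hf => (hω f hf).symm)
    · have h3 := Wt_erase_stable hQ s22 s2F hN ho2 (fun f hf => (hω f hf).symm) hkb hkw
      rw [hmk, hmk'] at h3
      rw [Sym2.eq_swap (a := a1) (b := k), Sym2.eq_swap (a := a0) (b := k)]
      exact h3
  · unfold Full
    rw [eR, eR', t1]
    have w2 := wS_mono (w' := R) (by omega) w1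
    have w2' := wS_mono (w' := R) (by omega) w1'
    simp only [hcR, hcR', w2, w2', false_or, true_and]

end

end Pool.Agent.SixB
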