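import Pool.Agent.Lib.SixB.S4LegDefs
import Pool.Agent.Lib.SixB.S4Plane
import Pool.Agent.Lib.SixB.S4A
import Pool.Agent.Lib.SixB.S4WallDefs

/-!
# 6BD step 4: crossing strands of half rings and legs

Bridge between `Leg.Crs`, `Leg.nH` (undirected strands of the half ring) and `Tilt.Leg`,
`Tilt.OneLeg` (directed strand pieces), if the domain `F` contains the faces around `HB0 b` above
the wall and no face below the wall (`Nbd F b`), and `1 ≤ a < b`.
* `crs_iff`: the inner ends of the crossing strands are the unit edges of the legs.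
* `nH_eq`: `nH` is the number of the legs.
* `leg_of_nH`, `oneLeg_of_nH`, `nH_of_leg`, `nH_pos_iff`, `oneLeg_iff`, `nbd_of_wallAt`.
-/

set_option autoImplicit false
set_option linter.unusedSectionVars false

namespace Pool.Agent.SixB.LegQ

open Pool.Agent.Perc Pool.Agent.Perc.Q Pool.Agent.Perc6 Relation
open Pool.Agent.SixB Pool.Agent.SixB.Tilt Pool.Agent.SixB.Leg

noncomputable section

variable {ω : Cfg} {F A : Finset (ℤ × ℤ)} {a b : ℤ} {c c' : DZ} {f g : ℤ × ℤ} {k l : ZMod 4}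

/-- the domain near the half box: the faces around it above the wall, no face below the wall -/
def Nbd (F : Finset (ℤ × ℤ)) (b : ℤ) : Prop :=
  HB0 (b + 1) ⊆ F ∧ ∀ i : ℤ, -b ≤ i → i ≤ b → (i, -1) ∉ F

theorem mem_HB0 {w : ℤ} : f ∈ HB0 w ↔ -w ≤ f.1 ∧ f.1 ≤ w ∧ 0 ≤ f.2 ∧ f.2 < w := mem_HB

theorem HR_eq (a b : ℤ) : HR a b = ((HB0 b \ HB0 a : Finset (ℤ × ℤ)) : Set (ℤ × ℤ)) := by
  ext f
  rw [Finset.mem_coe, Finset.mem_sdiff, mem_HR, mem_HB0, mem_HB0]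

/-- the face on the other side of the side `k` -/
def nb (f : ℤ × ℤ) (k : ZMod 4) : ℤ × ℤ :=
  if k = 0 then (f.1, f.2 - 1) else if k = 1 then (f.1 + 1, f.2) else if k = 2 then (f.1, f.2 + 1)
    else (f.1 - 1, f.2)

theorem sd_nb (f : ℤ × ℤ) (k : ZMod 4) : (sd ZQ f k).swap = sd ZQ (nb f k) (k + 2) := by
  obtain ⟨u, v⟩ := f
  rcases k4 k with rfl | rfl | rfl | rfl
  · change ((u + 1, v), (u, v)) = ((u + 1, v - 1 + 1), (u, v - 1 + 1))
    rw [sub_add_cancel]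
  · change ((u + 1, v + 1), (u + 1, v)) = ((u + 1, v + 1), (u + 1, v))
    rfl
  · change ((u, v + 1), (u + 1, v + 1)) = ((u, v + 1), (u + 1, v + 1))
    rfl
  · change ((u, v), (u, v + 1)) = ((u - 1 + 1, v), (u - 1 + 1, v + 1))
    rw [sub_add_cancel]

theorem ah_sd : Ah ZQ A (sd ZQ f k) ↔ f ∈ A := by
  constructor
  · rintro ⟨g, hg, l, e⟩
    have := (ZQ.inj (Prod.mk.inj e).1 (Prod.mk.inj e).2).1
    rwa [this]
  · exact fun h => ⟨f, h, k, rfl⟩

theorem ah_sd_swap : Ah ZQ A (sd ZQ f k).swap ↔ nb f k ∈ A := by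
  rw [sd_nb, ah_sd]

/-- the side `k` of a face in the half box, with a face above the wall outside of the box -/
theorem bd_of_nb (hf : f ∈ HB0 a) (hn : nb f k ∉ HB0 a) (h0 : 0 ≤ (nb f k).2) : BdH a (su f k) := by
  obtain ⟨u, v⟩ := f
  rw [mem_HB0] at hf hn
  unfold BdH BdF
  rcases k4 k with rfl | rfl | rfl | rfl
  · change ¬ (-a ≤ u ∧ u ≤ a ∧ 0 ≤ v - 1 ∧ v - 1 < a) at hn
    change 0 ≤ v - 1 at h0
    dsimp only at hf
    omega
  · change ¬ (-a ≤ u + 1 ∧ u + 1 ≤ a ∧ 0 ≤ v ∧ v < a) at hn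
    dsimp only at hf
    left
    refine ⟨rfl, Or.inr ?_, hf.2.2.1, hf.2.2.2⟩
    change u + 1 = a + 1
    omega
  · change ¬ (-a ≤ u ∧ u ≤ a ∧ 0 ≤ v + 1 ∧ v + 1 < a) at hn
    dsimp only at hf
    right
    refine ⟨rfl, ?_, hf.1, ?_⟩
    · change v + 1 = a
      omega
    · change u < a + 1
      omega
  · change ¬ (-a ≤ u - 1 ∧ u - 1 ≤ a ∧ 0 ≤ v ∧ v < a) at hn
    dsimp only at hf
    left
    refine ⟨rfl, Or.inl ?_, hf.2.2.1, hf.2.2.2⟩
    change u = -a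
    omega

/-- a boundary side of the half box: the face inside, the face outside -/
theorem nb_of_bd {e : UE} (h0 : 1 ≤ a) (h : BdH a e) : ∃ f k, e = su f k ∧ f ∈ HB0 a ∧ nb f k ∉ HB0 a ∧
    nb f k ∈ HB0 (a + 1) := by
  obtain ⟨x, y, d⟩ := e
  unfold BdH BdF at h
  dsimp only at h
  rcases h with ⟨rfl, rfl | rfl, h1, h2⟩ | ⟨rfl, rfl, h1, h2⟩
  · refine ⟨(-a, y), 3, rfl, ?_, ?_, ?_⟩
    · rw [mem_HB0]; dsimp only; omega
    · change (-a - 1, y) ∉ _
      rw [mem_HB0]; dsimp only; omega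
    · change (-a - 1, y) ∈ _
      rw [mem_HB0]; dsimp only; omega
  · refine ⟨(a, y), 1, rfl, ?_, ?_, ?_⟩
    · rw [mem_HB0]; dsimp only; omega
    · change (a + 1, y) ∉ _
      rw [mem_HB0]; dsimp only; omega
    · change (a + 1, y) ∈ _
      rw [mem_HB0]; dsimp only; omega
  · refine ⟨(x, y - 1), 2, ?_, ?_, ?_, ?_⟩
    · change (x, y, false) = (x, y - 1 + 1, false)
      rw [sub_add_cancel]
    · rw [mem_HB0]; dsimp only; omega
    · change (x, y - 1 + 1) ∉ _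
      rw [mem_HB0]; dsimp only; omega
    · change (x, y - 1 + 1) ∈ _
      rw [mem_HB0]; dsimp only; omega

theorem bd_disj {e : UE} (h0 : 1 ≤ a) (hab : a < b) (h1 : BdH a e) (h2 : BdH b e) : False := by
  unfold BdH BdF at h1 h2
  omega

/-- the neighbour of a face of the half box -/
theorem nb_cases (hf : f ∈ HB0 a) : nb f k ∈ HB0 (a + 1) ∨ ∃ i, -a ≤ i ∧ i ≤ a ∧ nb f k = (i, -1) := by
  obtain ⟨u, v⟩ := f
  rw [mem_HB0] at hf
  dsimp only at hf
  rw [mem_HB0]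
  rcases k4 k with rfl | rfl | rfl | rfl
  · change (-(a + 1) ≤ u ∧ u ≤ a + 1 ∧ 0 ≤ v - 1 ∧ v - 1 < a + 1) ∨ ∃ i, -a ≤ i ∧ i ≤ a ∧
      (u, v - 1) = (i, -1)
    by_cases hv : v = 0
    · right
      exact ⟨u, hf.1, hf.2.1, by rw [hv]; rfl⟩
    · left
      omega
  · left
    change -(a + 1) ≤ u + 1 ∧ u + 1 ≤ a + 1 ∧ 0 ≤ v ∧ v < a + 1
    omega
  · left
    change -(a + 1) ≤ u ∧ u ≤ a + 1 ∧ 0 ≤ v + 1 ∧ v + 1 < a + 1
    omega
  · left
    change -(a + 1) ≤ u - 1 ∧ u - 1 ≤ a + 1 ∧ 0 ≤ v ∧ v < a + 1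
    omega

/-- a leg starts with a face of the half ring ahead -/
theorem leg_ahead (hab : a < b) (hF : Nbd F b) (h : Tilt.Leg ZQ ω F (HB0 a) (HB0 b) c) :
    Ah ZQ (HB0 b \ HB0 a) c := by
  obtain ⟨⟨f, hf, k, e⟩, d, h1, h2⟩ := h
  rcases ReflTransGen.cases_head h1 with rfl | ⟨c', h3, -⟩
  · exfalso
    have e' : c = (sd ZQ f k).swap := by rw [← e, Prod.swap_swap]
    rw [e', ah_sd_swap] at h2
    obtain ⟨h3, h4⟩ := Finset.mem_sdiff.mp h2
    rcases nb_cases (k := k) hf with h5 | ⟨i, h5, h6, h7⟩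
    · apply h4
      rw [mem_HB0] at h5 ⊢
      omega
    · rw [h7] at h3
      exact hF.2 i (by omega) (by omega) h3
  · exact ah_left h3

/-- the unit edge of a leg is the inner end of a crossing strand -/
theorem crs_of_leg (hab : a < b) (hF : Nbd F b) (h : Tilt.Leg ZQ ω F (HB0 a) (HB0 b) c) :
    und c ∈ Crs ω a b := by
  have hah := leg_ahead hab hF h
  obtain ⟨⟨f, hf, k, e⟩, d, h1, h2⟩ := h
  have e' : c = (sd ZQ f k).swap := by rw [← e, Prod.swap_swap]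
  have hn : nb f k ∈ HB0 b \ HB0 a := by rwa [e', ah_sd_swap] at hah
  have h3 : BdH a (und c) := by
    rw [e', und_sd_swap]
    refine bd_of_nb hf (Finset.mem_sdiff.mp hn).2 ?_
    exact (mem_HB0.mp (Finset.mem_sdiff.mp hn).1).2.2.1
  have h4 : BdH b (und d) := by
    rcases ReflTransGen.cases_tail h1 with h5 | ⟨d', -, h5⟩
    · subst h5
      exact (ah_disj (Finset.disjoint_sdiff (s := HB0 b) (t := F))
        (hah.mono Finset.sdiff_subset) h2).elim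
    · obtain ⟨g, hg, l, e2⟩ := ah_right h5
      have e3 : d = (sd ZQ g l).swap := by rw [← e2, Prod.swap_swap]
      rw [e3, ah_sd_swap] at h2
      obtain ⟨h6, h7⟩ := Finset.mem_sdiff.mp h2
      have hg' := (Finset.mem_sdiff.mp hg).1
      rw [e3, und_sd_swap]
      refine bd_of_nb hg' h7 ?_
      rcases nb_cases (k := l) hg' with h8 | ⟨i, h8, h9, h10⟩
      · exact (mem_HB0.mp h8).2.2.1
      · rw [h10] at h6
        exact absurd h6 (hF.2 i h8 h9)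
  refine ⟨h3, und d, h4, ?_⟩
  rw [HR_eq]
  exact MM_of_srel (srel_iff.mpr (Or.inl h1))

theorem und_injOn_leg (hab : a < b) (hF : Nbd F b) (h : Tilt.Leg ZQ ω F (HB0 a) (HB0 b) c)
    (h' : Tilt.Leg ZQ ω F (HB0 a) (HB0 b) c') (e : und c = und c') : c = c' := by
  have h1 := leg_ahead hab hF h
  rcases und_inj (mem_dE_ah.mpr (Or.inr h.1)) (mem_dE_ah.mpr (Or.inr h'.1)) e with h2 | h2
  · exact h2
  · exfalso
    rw [h2] at h1
    exact ah_disj Finset.disjoint_sdiff h'.1 h1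

/-- the inner end of a crossing strand, directed outwards, is a leg -/
theorem leg_of_crs (h0 : 1 ≤ a) (hab : a < b) (hF : Nbd F b) {e : UE} (h : e ∈ Crs ω a b) :
    ∃ c, Tilt.Leg ZQ ω F (HB0 a) (HB0 b) c ∧ und c = e := by
  obtain ⟨h1, t, h2, h3⟩ := h
  obtain ⟨f, k, rfl, hf, hn, hn'⟩ := nb_of_bd h0 h1
  have hR : nb f k ∈ HB0 b \ HB0 a := by
    refine Finset.mem_sdiff.mpr ⟨?_, hn⟩
    rw [mem_HB0] at hn' ⊢
    omega
  have hc : (sd ZQ f k).swap ∈ dE ZQ (HB0 b \ HB0 a) :=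
    mem_dE_ah.mpr (Or.inl (ah_sd_swap.mpr hR))
  rw [HR_eq, ← und_sd_swap f k] at h3
  obtain ⟨y, hy, e1, h4⟩ := srel_of_MM hc h3
  refine ⟨(sd ZQ f k).swap, ⟨?_, y, ?_⟩, und_sd_swap f k⟩
  · rw [Prod.swap_swap]
    exact ah_sd.mpr hf
  · have hne : y ≠ (sd ZQ f k).swap := by
      intro h5
      rw [h5, und_sd_swap] at e1
      rw [e1] at h1
      exact bd_disj h0 hab h1 h2
    have hpath : ReflTransGen (Nx ZQ ω ((HB0 b \ HB0 a : Finset (ℤ × ℤ)) : Set (ℤ × ℤ)))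
        (sd ZQ f k).swap y := by
      rcases srel_iff.mp h4 with h5 | h5
      · exact h5
      · exfalso
        rcases ReflTransGen.cases_tail h5 with h6 | ⟨d, -, h6⟩
        · exact hne h6.symm
        · have h7 := ah_right h6
          rw [Prod.swap_swap, ah_sd] at h7
          exact (Finset.mem_sdiff.mp h7).2 hf
    refine ⟨hpath, ?_⟩
    rcases ReflTransGen.cases_tail hpath with h6 | ⟨d, -, h6⟩
    · exact absurd h6 hne
    · have h7 := ah_right h6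
      obtain ⟨g, l, e2, hg, hgn, hgn'⟩ := nb_of_bd (h0.trans hab.le) h2
      have h8 : y = sd ZQ g l ∨ y = (sd ZQ g l).swap := by
        refine und_inj hy (G := HB0 b) (sd_mem hg l) ?_
        rw [e1, und_sd, e2]
      rcases h8 with h8 | h8
      · rw [h8, ah_sd_swap] at h7
        exact absurd (Finset.mem_sdiff.mp h7).1 hgn
      · rw [h8, ah_sd_swap]
        exact Finset.mem_sdiff.mpr ⟨hF.1 hgn', hgn⟩

/-- **The inner ends of the crossing strands are the unit edges of the legs.** -/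
theorem crs_eq (h0 : 1 ≤ a) (hab : a < b) (hF : Nbd F b) :
    Crs ω a b = und '' {c | Tilt.Leg ZQ ω F (HB0 a) (HB0 b) c} := by
  ext e
  constructor
  · intro h
    obtain ⟨c, h1, h2⟩ := leg_of_crs h0 hab hF h
    exact ⟨c, h1, h2⟩
  · rintro ⟨c, h1, rfl⟩
    exact crs_of_leg hab hF h1

/-- **The number of the crossing strands is the number of the legs.** -/
theorem nH_eq (h0 : 1 ≤ a) (hab : a < b) (hF : Nbd F b) :
    nH ω a b = {c | Tilt.Leg ZQ ω F (HB0 a) (HB0 b) c}.ncard := by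
  unfold nH
  rw [crs_eq h0 hab hF]
  exact Set.InjOn.ncard_image fun c h c' h' e => und_injOn_leg hab hF h h' e

theorem leg_finite : {c | Tilt.Leg ZQ ω F (HB0 a) (HB0 b) c}.Finite := by
  refine (dE ZQ (HB0 a)).finite_toSet.subset fun c hc => ?_
  have : Tilt.Leg ZQ ω F (HB0 a) (HB0 b) c := hc
  exact_mod_cast mem_dE_ah.mpr (Or.inr this.1)

/-- one crossing strand: a leg -/
theorem leg_of_nH (h0 : 1 ≤ a) (hab : a < b) (hF : Nbd F b) (h : 1 ≤ nH ω a b) :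
    ∃ c, Tilt.Leg ZQ ω F (HB0 a) (HB0 b) c := by
  rw [nH_eq h0 hab hF, Nat.one_le_iff_ne_zero, Ne, Set.ncard_eq_zero leg_finite] at h
  exact Set.nonempty_iff_ne_empty.mpr h

theorem nH_of_leg (h0 : 1 ≤ a) (hab : a < b) (hF : Nbd F b)
    (h : Tilt.Leg ZQ ω F (HB0 a) (HB0 b) c) : 1 ≤ nH ω a b := by
  rw [nH_eq h0 hab hF, Nat.one_le_iff_ne_zero, Ne, Set.ncard_eq_zero leg_finite]
  exact Set.nonempty_iff_ne_empty.mp ⟨c, h⟩

theorem nH_pos_iff (h0 : 1 ≤ a) (hab : a < b) (hF : Nbd F b) :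
    1 ≤ nH ω a b ↔ ∃ c, Tilt.Leg ZQ ω F (HB0 a) (HB0 b) c :=
  ⟨leg_of_nH h0 hab hF, fun ⟨_, h⟩ => nH_of_leg h0 hab hF h⟩

/-- at most one crossing strand: at most one leg -/
theorem oneLeg_iff (h0 : 1 ≤ a) (hab : a < b) (hF : Nbd F b) :
    nH ω a b ≤ 1 ↔ OneLeg ZQ ω F (HB0 a) (HB0 b) := by
  rw [nH_eq h0 hab hF, Set.ncard_le_one leg_finite]
  constructor
  · exact fun h c c' hc hc' => h c hc c' hc'
  · exact fun h c hc c' hc' => h c c' hc hc'

/-- **(B1)** one crossing strand: exactly one leg -/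
theorem oneLeg_of_nH (h0 : 1 ≤ a) (hab : a < b) (hF : Nbd F b) (h : nH ω a b = 1) :
    (∃ c, Tilt.Leg ZQ ω F (HB0 a) (HB0 b) c) ∧ OneLeg ZQ ω F (HB0 a) (HB0 b) :=
  ⟨leg_of_nH h0 hab hF h.ge, (oneLeg_iff h0 hab hF).mp h.le⟩

theorem nbd_of_wallAt {E : WEnv} {d : ℤ} {M : ℝ} (h : WallAt E d M) (hb : b + 1 ≤ 2 * d) :
    Nbd E.F b := by
  refine ⟨fun f hf => h.sub ?_, fun i h1 h2 => h.below i (by omega) (by omega)⟩
  rw [mem_HB0] at hf ⊢
  omega

end

end Pool.Agent.SixB.LegQ
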