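import Pool.Agent.Lib.SixB.A3Strands

/-!
# 6BD, step 3: all exponential moments of strand crossings of rectangles

For every `lam` and every aspect ratio the number of the strands of an arbitrary set of faces `F`
which cross a rectangle from left to right has a bounded moment `lam ^ N`, uniformly in `F`:
the number is at most the number `card LT` of the crossing strands of the full rectangle
(`card_le_LT`), whose tail is super-exponential (`LT_tail`, `LT_moment`).
-/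

set_option autoImplicit false

namespace Pool.Agent.SixB

open Finset Pool.Agent.Perc Pool.Agent.PercD Pool.Agent.PercN

variable {ω : Cfg} {v v' : ℤ × ℤ} {r r' R R' : ℤ}

/-! ### Deterministic part -/

/-- The members of `S` are in different strands of `F`. -/
def Diff (ω : Cfg) (F : Set (ℤ × ℤ)) (S : Finset UE) : Prop :=
  ∀ b ∈ S, ∀ b' ∈ S, b' ∈ MM ω F b → b = b'

/-- Every strand which meets one of the inner boxes and is not inside the outer box contains a
crossing of an annulus. -/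
theorem card_le_sum_NF {ι : Type} [Inhabited ι] {F G : Set (ℤ × ℤ)} {S : Finset UE}
    (hS : Diff ω F S) (I : Finset ι) (c : ι → ℤ × ℤ) (hr : 0 ≤ r) (hrR : r < R)
    (hG : ∀ i ∈ I, F ∩ (BR (c i) R : Set (ℤ × ℤ)) ⊆ G)
    (h : ∀ b ∈ S, ∃ i ∈ I, (∃ e ∈ MM ω F b, InE (c i) r e) ∧
      ∃ a ∈ MM ω F b, InE (c i) R a → BdR (c i) R a) :
    S.card ≤ ∑ i ∈ I, NF G (c i) r R ω := by
  classical
  have H : ∀ b ∈ S, ∃ i b', i ∈ I ∧ b' ∈ MM ω F b ∧ BdR (c i) r b' ∧
      ∃ a ∈ MM ω (G ∩ (An (c i) r R : Set (ℤ × ℤ))) b', BdR (c i) R a := by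
    intro b hb
    obtain ⟨i, hi, ⟨e, he, hei⟩, a, ha, haR⟩ := h b hb
    have hae : a ∈ MM ω F e := MM_trans (MM_symm he) ha
    rcases PercS5.last_exit' hei hae with h1 | ⟨b', h1, h2, h3⟩
    · exfalso
      have h4 := (Sub.refl' (v := c i) hrR.le).inE h1
      have h5 := haR h4
      obtain ⟨x, y, d⟩ := a
      unfold InE InR at h1
      unfold BdR BdE at h5
      cases d <;> simp only [ua_mk, ub_false, ub_true] at h1 h5 <;> omega
    · refine ⟨i, b', hi, MM_trans he h1, h2, ?_⟩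
      have hin : InE (c i) R b' := (Sub.refl' hrR.le).inE (h2.inE hr)
      have hsub : ((F \ (BR (c i) r : Set (ℤ × ℤ))) ∩ (BR (c i) R : Set (ℤ × ℤ))) ⊆
          G ∩ (An (c i) r R : Set (ℤ × ℤ)) := by
        rintro f ⟨⟨hf, hf'⟩, hf2⟩
        refine ⟨hG i hi ⟨hf, hf2⟩, ?_⟩
        rw [mem_coe, mem_An]
        exact ⟨mem_coe.1 hf2, fun h => hf' (mem_coe.2 h)⟩
      rcases Perc6.N1Aux.first_exitF hin h3 with h4 | ⟨c', h4, h5⟩
      · have h5 := MM_mono (F' := (BR (c i) R : Set (ℤ × ℤ))) Set.inter_subset_right h4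
        exact ⟨a, MM_mono hsub h4, haR (MM_inE hin h5)⟩
      · exact ⟨c', MM_mono hsub h4, h5⟩
  choose! i t hi ht1 ht2 ht3 using H
  have h1 : S.card ≤ (I.sigma fun j => (UB (c j) r).filter fun b => BdR (c j) r b ∧
      ∃ a ∈ MM ω (G ∩ (An (c j) r R : Set (ℤ × ℤ))) b, BdR (c j) R a).card := by
    refine card_le_card_of_injOn (fun b => (⟨i b, t b⟩ : Σ _ : ι, UE)) (fun b hb => ?_) ?_
    · have hb' := mem_coe.1 hb
      rw [mem_coe, mem_sigma]
      refine ⟨hi b hb', ?_⟩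
      rw [mem_filter]
      exact ⟨((ht2 b hb').inE hr).mem_UB, ht2 b hb', ht3 b hb'⟩
    · intro b hb b' hb' hbb
      have e2 : t b = t b' := by
        simp only [Sigma.mk.injEq, heq_eq_eq] at hbb
        exact hbb.2
      have k := ht1 b (mem_coe.1 hb)
      rw [e2] at k
      exact hS b (mem_coe.1 hb) b' (mem_coe.1 hb') (MM_trans k (MM_symm (ht1 b' (mem_coe.1 hb'))))
  refine h1.trans (le_of_eq ?_)
  rw [card_sigma]
  rfl

/-- A strand with unit edges on both sides of a vertical line crosses this line. -/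
theorem line_step {F : Set (ℤ × ℤ)} {b a₁ a₂ : UE} {c : ℤ} (h1 : a₁ ∈ MM ω F b)
    (h2 : a₂ ∈ MM ω F b) (hc1 : (ua a₁).1 < c) (hc2 : c ≤ (ua a₂).1) :
    ∃ f ∈ F, f.1 + 1 = c ∧ ri f ∈ MM ω F b := by
  have key : ∀ a ∈ MM ω F a₁, (ua a).1 < c ∨ ∃ f ∈ F, f.1 + 1 = c ∧ ri f ∈ MM ω F a₁ := by
    intro a ha
    induction ha with
    | refl => exact Or.inl hc1
    | tail hab hs ih =>
      rename_i b₁ b₂
      obtain ⟨f, hf, hm⟩ := hs
      rcases ih with ih | ih
      · by_cases h : (ua b₂).1 < c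
        · exact Or.inl h
        · right
          have hb₂ : b₂ ∈ MM ω F a₁ := MM_step hf hm hab
          obtain ⟨x, y⟩ := f
          have hl := hm.left
          have hr := hm.right
          unfold IsSide at hl hr
          rcases hr with rfl | rfl | rfl | rfl
          · exfalso
            rcases hl with rfl | rfl | rfl | rfl <;>
              simp only [bo, le', to', ri, ua_mk] at ih h <;> omega
          · exfalso
            rcases hl with rfl | rfl | rfl | rfl <;>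
              simp only [bo, le', to', ri, ua_mk] at ih h <;> omega
          · exfalso
            rcases hl with rfl | rfl | rfl | rfl <;>
              simp only [bo, le', to', ri, ua_mk] at ih h <;> omega
          · refine ⟨(x, y), hf, ?_, hb₂⟩
            rcases hl with rfl | rfl | rfl | rfl <;>
              simp only [bo, le', to', ri, ua_mk] at ih h ⊢ <;> omega
      · exact Or.inr ih
  rcases key a₂ (MM_trans (MM_symm h1) h2) with h | ⟨f, hf, h3, h4⟩
  · omega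
  · exact ⟨f, hf, h3, MM_trans h1 h4⟩

/-- The strands which reach both sides of the rectangle. -/
def CrossH (ω : Cfg) (F : Set (ℤ × ℤ)) (x₀ x₁ : ℤ) (b : UE) : Prop :=
  (∃ a ∈ MM ω F b, (ub a).1 ≤ x₀) ∧ ∃ a ∈ MM ω F b, x₁ ≤ (ua a).1

/-- The same in the vertical direction. -/
def CrossV (ω : Cfg) (F : Set (ℤ × ℤ)) (y₀ y₁ : ℤ) (b : UE) : Prop :=
  (∃ a ∈ MM ω F b, (ub a).2 ≤ y₀) ∧ ∃ a ∈ MM ω F b, y₁ ≤ (ua a).2

/-- The centre of number `i` of the net on a vertical line. -/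
def ctr (c y₀ r : ℤ) (i : ℕ) : ℤ × ℤ := (c, y₀ + (2 * i + 1) * r)

/-- The count of the line `x = c`. -/
noncomputable def XL (G : Set (ℤ × ℤ)) (c y₀ r : ℤ) (M : ℕ) (ω : Cfg) : ℕ :=
  ∑ i ∈ range M, NF G (ctr c y₀ r i) r (2 * r) ω

theorem card_le_XL {F G : Set (ℤ × ℤ)} {S : Finset UE} {x₀ x₁ y₀ y₁ c : ℤ} {M : ℕ}
    (hS : Diff ω F S) (hr : 0 < r) (h0 : x₀ + 2 * r ≤ c) (h1 : c + 2 * r ≤ x₁)
    (hM : y₁ - y₀ ≤ 2 * r * M) (hF : ∀ f ∈ F, x₀ ≤ f.1 → f.1 < x₁ → f ∈ G)
    (hF' : ∀ f ∈ F, x₀ ≤ f.1 → f.1 < x₁ → y₀ ≤ f.2 ∧ f.2 < y₁)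
    (h : ∀ b ∈ S, CrossH ω F x₀ x₁ b) : S.card ≤ XL G c y₀ r M ω := by
  unfold XL
  refine card_le_sum_NF hS (range M) (ctr c y₀ r) hr.le (by omega) (fun i _ => ?_)
    fun b hb => ?_
  · rintro f ⟨hf, hf2⟩
    rw [mem_BR'] at hf2
    simp only [ctr] at hf2
    exact hF f hf (by omega) (by omega)
  · obtain ⟨⟨a₁, ha₁, hx₁⟩, a₂, ha₂, hx₂⟩ := h b hb
    have hua : (ua a₁).1 ≤ (ub a₁).1 := by
      obtain ⟨x, y, d⟩ := a₁
      cases d
      · rw [ua_mk, ub_false]; simp only; omega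
      · rw [ua_mk, ub_true]
    obtain ⟨f, hf, hfc, hri⟩ := line_step ha₁ ha₂ (c := c) (by omega) (by omega)
    obtain ⟨x, y⟩ := f
    simp only at hfc
    obtain ⟨k1, k2⟩ := hF' _ hf (by simp only; omega) (by simp only; omega)
    simp only at k1 k2
    set i := ((y - y₀) / (2 * r)).toNat with hi
    have hdiv : 0 ≤ (y - y₀) / (2 * r) := Int.ediv_nonneg (by omega) (by omega)
    have hi' : (i : ℤ) = (y - y₀) / (2 * r) := by rw [hi]; exact Int.toNat_of_nonneg hdiv
    have e1 := Int.mul_ediv_add_emod (y - y₀) (2 * r)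
    have e2 := Int.emod_nonneg (y - y₀) (show 2 * r ≠ 0 by omega)
    have e3 := Int.emod_lt_of_pos (y - y₀) (show 0 < 2 * r by omega)
    rw [← hi'] at e1
    have hiM : i < M := by
      by_contra hc
      have : (M : ℤ) ≤ i := by omega
      have := mul_le_mul_of_nonneg_left this (show 0 ≤ 2 * r by omega)
      omega
    refine ⟨i, mem_range.2 hiM, ⟨_, hri, ?_⟩, a₁, ha₁, fun hin => ?_⟩
    · unfold InE InR
      simp only [ctr, ri, ua_mk, ub_true]
      have e4 : (2 * (i : ℤ) + 1) * r = 2 * r * i + r := by ring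
      omega
    · obtain ⟨x', y', d⟩ := a₁
      unfold InE InR at hin
      unfold BdR BdE
      cases d
      · rw [ua_mk, ub_false] at hin
        rw [ub_false] at hx₁
        simp only [ctr] at hin hx₁ ⊢
        omega
      · rw [ua_mk, ub_true] at hin
        rw [ub_true] at hx₁
        simp only [ctr] at hin hx₁ ⊢
        right
        refine ⟨trivial, ?_, ?_, ?_⟩ <;> omega

/-- The trivial bound. -/
theorem card_le_height {F : Set (ℤ × ℤ)} {S : Finset UE} {x₀ x₁ y₀ y₁ : ℤ}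
    (hS : Diff ω F S) (h01 : x₀ < x₁)
    (hF' : ∀ f ∈ F, x₀ ≤ f.1 → f.1 < x₁ → y₀ ≤ f.2 ∧ f.2 < y₁)
    (h : ∀ b ∈ S, CrossH ω F x₀ x₁ b) : S.card ≤ (y₁ - y₀).toNat := by
  classical
  have H : ∀ b ∈ S, ∃ y, y₀ ≤ y ∧ y < y₁ ∧ ((x₁, y, true) : UE) ∈ MM ω F b := by
    intro b hb
    obtain ⟨⟨a₁, ha₁, hx₁⟩, a₂, ha₂, hx₂⟩ := h b hb
    have hua : (ua a₁).1 ≤ (ub a₁).1 := by
      obtain ⟨x, y, d⟩ := a₁
      cases d
      · rw [ua_mk, ub_false]; simp only; omega
      · rw [ua_mk, ub_true]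
    obtain ⟨f, hf, hfc, hri⟩ := line_step ha₁ ha₂ (c := x₁) (by omega) (by omega)
    obtain ⟨k1, k2⟩ := hF' _ hf (by omega) (by omega)
    refine ⟨f.2, k1, k2, ?_⟩
    unfold ri at hri
    rw [hfc] at hri
    exact hri
  choose! t h1 h2 h3 using H
  have := card_le_card_of_injOn (s := S) (t := Ico y₀ y₁) t
    (fun b hb => mem_coe.2 (mem_Ico.2 ⟨h1 b (mem_coe.1 hb), h2 b (mem_coe.1 hb)⟩))
    (fun b hb b' hb' e => by
      have k := h3 b (mem_coe.1 hb)
      rw [e] at k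
      exact hS b (mem_coe.1 hb) b' (mem_coe.1 hb') (MM_trans k (MM_symm (h3 b' (mem_coe.1 hb')))))
  rwa [Int.card_Ico] at this

/-! ### Probability -/

/-- The count depends only on the faces of `S`. -/
def DepN (S : Set (ℤ × ℤ)) (N : Cfg → ℕ) : Prop :=
  ∀ ω ω' : Cfg, (∀ f ∈ S, ω f = ω' f) → N ω = N ω'

theorem DepN.depOn {S : Set (ℤ × ℤ)} {N : Cfg → ℕ} (h : DepN S N) (P : ℕ → Prop) :
    DepOn S {ω | P (N ω)} := by
  intro ω ω' hω
  rw [Set.mem_ofPred_eq, Set.mem_ofPred_eq, h ω ω' hω]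

theorem DepN.mono {S S' : Set (ℤ × ℤ)} {N : Cfg → ℕ} (h : DepN S N) (hS : S ⊆ S') :
    DepN S' N := fun ω ω' hω => h ω ω' fun f hf => hω f (hS hf)

theorem depN_NF (F : Set (ℤ × ℤ)) (v : ℤ × ℤ) (r R : ℤ) :
    DepN (F ∩ (An v r R : Set (ℤ × ℤ))) (NF F v r R) := by
  classical
  intro ω ω' h
  unfold NF
  congr 1
  ext b
  rw [mem_filter, mem_filter, MM_congr' (ω := ω) (ω' := ω') h]

theorem depN_sum {ι : Type} {I : Finset ι} {S : Set (ℤ × ℤ)} {n : ι → Cfg → ℕ}
    (h : ∀ i ∈ I, DepN S (n i)) : DepN S fun ω => ∑ i ∈ I, n i ω :=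
  fun ω ω' hω => Finset.sum_congr rfl fun i hi => h i hi ω ω' hω

/-- Tail of a sum of independent counts. -/
theorem sum_tail {ρ A : ℝ} (hρ0 : 0 < ρ) (hρ1 : ρ < 1) (hA : 1 ≤ A)
    (B : ℕ → Finset (ℤ × ℤ)) (n : ℕ → Cfg → ℕ) (hd : ∀ i, DepN (B i) (n i))
    (hn : ∀ i k, ∀ W : Finset (ℤ × ℤ), B i ⊆ W → pr W {ω | k ≤ n i ω} ≤ A * (ρ ^ 2) ^ k)
    (I : Finset ℕ) (hdis : ∀ i ∈ I, ∀ j ∈ I, i ≠ j → Disjoint (B i) (B j))
    (W : Finset (ℤ × ℤ)) (hW : ∀ i ∈ I, B i ⊆ W) (k : ℕ) :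
    pr W {ω | k ≤ ∑ i ∈ I, n i ω} ≤ (A / (1 - ρ)) ^ I.card * ρ ^ k := by
  classical
  have h1ρ : 0 < 1 - ρ := by linarith
  induction I using Finset.induction_on generalizing k with
  | empty =>
    rw [card_empty, pow_zero, one_mul]
    simp only [sum_empty, nonpos_iff_eq_zero]
    by_cases hk : k = 0
    · subst hk
      rw [pow_zero]
      exact pr_le_one _ _
    · have h0 : pr W {_ω : Cfg | k = 0} = 0 := by
        rw [ProbA.pr_eq_sum]
        simp [hk]
      rw [h0]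
      positivity
  | insert i I hi ih =>
    have ih' : ∀ k : ℕ, pr W {ω | k ≤ ∑ i ∈ I, n i ω} ≤ (A / (1 - ρ)) ^ I.card * ρ ^ k :=
      fun k => ih (fun a ha b hb hab => hdis a (mem_insert_of_mem ha) b (mem_insert_of_mem hb) hab)
        (fun a ha => hW a (mem_insert_of_mem ha)) k
    have hBi : B i ⊆ W := hW i (mem_insert_self _ _)
    have hBI : I.biUnion B ⊆ W := by
      rw [Finset.biUnion_subset]
      exact fun a ha => hW a (mem_insert_of_mem ha)
    have hdj : Disjoint (B i) (I.biUnion B) := by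
      rw [Finset.disjoint_biUnion_right]
      intro a ha
      exact hdis i (mem_insert_self _ _) a (mem_insert_of_mem ha) (by
        rintro rfl
        exact hi ha)
    have hdS : DepN (I.biUnion B : Finset (ℤ × ℤ)) (fun ω => ∑ i ∈ I, n i ω) :=
      depN_sum fun a ha => (hd a).mono (by
        intro f hf
        rw [mem_coe, mem_biUnion]
        exact ⟨a, ha, mem_coe.1 hf⟩)
    have hsub : pr W {ω | k ≤ ∑ i ∈ insert i I, n i ω} ≤
        pr W (⋃ l ∈ range (k + 1), {ω | l ≤ n i ω} ∩ {ω | k - l ≤ ∑ i ∈ I, n i ω}) := by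
      refine pr_mono _ fun ω hω => ?_
      rw [Set.mem_ofPred_eq, sum_insert hi] at hω
      rw [Set.mem_iUnion₂]
      refine ⟨min k (n i ω), mem_range.2 (by omega), ?_, ?_⟩
      · rw [Set.mem_ofPred_eq]; omega
      · rw [Set.mem_ofPred_eq]; omega
    refine hsub.trans ((pr_biUnion_le W _ _).trans ?_)
    have hterm : ∀ l ∈ range (k + 1), pr W ({ω | l ≤ n i ω} ∩ {ω | k - l ≤ ∑ i ∈ I, n i ω}) ≤
        (A / (1 - ρ)) ^ I.card * ρ ^ k * A * ρ ^ l := by
      intro l hl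
      have hlk : l ≤ k := by rw [mem_range] at hl; omega
      have d1 : DepOn (B i) {ω | l ≤ n i ω} := (hd i).depOn fun m => l ≤ m
      have d2 : DepOn (I.biUnion B : Finset (ℤ × ℤ)) {ω | k - l ≤ ∑ i ∈ I, n i ω} :=
        hdS.depOn fun m => k - l ≤ m
      rw [pr_indep d1 d2 hdj hBi hBI]
      have e1 : pr (B i) {ω | l ≤ n i ω} ≤ A * (ρ ^ 2) ^ l := hn i l _ (Finset.Subset.refl _)
      have e2 : pr (I.biUnion B) {ω | k - l ≤ ∑ i ∈ I, n i ω} ≤
          (A / (1 - ρ)) ^ I.card * ρ ^ (k - l) := by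
        rw [← pr_eq_of_depOn d2 hBI]
        exact ih' (k - l)
      refine (mul_le_mul e1 e2 (pr_nonneg _ _) (by positivity)).trans (le_of_eq ?_)
      obtain ⟨j, rfl⟩ : ∃ j, k = l + j := ⟨k - l, by omega⟩
      rw [show l + j - l = j by omega, pow_add]
      ring
    refine (Finset.sum_le_sum hterm).trans ?_
    rw [← Finset.mul_sum]
    have hgeo : ∑ l ∈ range (k + 1), ρ ^ l ≤ 1 / (1 - ρ) := by
      rw [le_div_iff₀ h1ρ]
      have : (∑ l ∈ range (k + 1), ρ ^ l) * (1 - ρ) = 1 - ρ ^ (k + 1) := by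
        have := geom_sum_mul_neg ρ (k + 1)
        linarith
      rw [this]
      have : 0 < ρ ^ (k + 1) := by positivity
      linarith
    rw [card_insert_of_notMem hi, pow_succ]
    have h0 : 0 ≤ (A / (1 - ρ)) ^ I.card * ρ ^ k * A := by positivity
    refine (mul_le_mul_of_nonneg_left hgeo h0).trans (le_of_eq ?_)
    field_simp

/-- Independent events. -/
theorem prod_tail {B : ℕ → Finset (ℤ × ℤ)} {E : ℕ → Set Cfg} (hE : ∀ j, DepOn (B j) (E j))
    (hdis : ∀ i j, i ≠ j → Disjoint (B i) (B j)) {W : Finset (ℤ × ℤ)} {t : ℝ} (ht0 : 0 ≤ t) :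
    ∀ m : ℕ, (∀ j < m, B j ⊆ W) → (∀ j < m, pr W (E j) ≤ t) →
      pr W {ω | ∀ j < m, ω ∈ E j} ≤ t ^ m := by
  classical
  intro m
  induction m with
  | zero =>
    intro _ _
    rw [pow_zero]
    exact pr_le_one _ _
  | succ m ih =>
    intro hW ht
    have hset : {ω | ∀ j < m + 1, ω ∈ E j} = {ω | ∀ j < m, ω ∈ E j} ∩ E m := by
      ext ω
      simp only [Set.mem_ofPred_eq, Set.mem_inter_iff, Nat.forall_lt_succ_right]
    have hBI : (range m).biUnion B ⊆ W := by
      rw [Finset.biUnion_subset]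
      exact fun a ha => hW a (by rw [mem_range] at ha; omega)
    have hdj : Disjoint ((range m).biUnion B) (B m) := by
      rw [Finset.disjoint_biUnion_left]
      intro a ha
      exact hdis a m (by rw [mem_range] at ha; omega)
    have hdS : DepOn ((range m).biUnion B : Finset (ℤ × ℤ)) {ω | ∀ j < m, ω ∈ E j} := by
      intro ω ω' h
      rw [Set.mem_ofPred_eq, Set.mem_ofPred_eq]
      refine forall_congr' fun j => forall_congr' fun hj => hE j ω ω' fun f hf => h f ?_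
      rw [mem_coe, mem_biUnion]
      exact ⟨j, mem_range.2 hj, mem_coe.1 hf⟩
    rw [hset, pr_indep hdS (hE m) hdj hBI (hW m (by omega)), pow_succ]
    have e1 : pr ((range m).biUnion B) {ω | ∀ j < m, ω ∈ E j} ≤ t ^ m := by
      rw [← pr_eq_of_depOn hdS hBI]
      exact ih (fun j hj => hW j (by omega)) fun j hj => ht j (by omega)
    have e2 : pr (B m) (E m) ≤ t := by
      rw [← pr_eq_of_depOn (hE m) (hW m (by omega))]
      exact ht m (by omega)
    exact mul_le_mul e1 e2 (pr_nonneg _ _) (by positivity)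

/-- Tail of the count of a line. -/
theorem XL_tail : ∃ ρ A : ℝ, 0 < ρ ∧ ρ < 1 ∧ 1 ≤ A ∧ ∀ (G : Set (ℤ × ℤ)) (c y₀ r : ℤ) (M : ℕ)
    (W : Finset (ℤ × ℤ)), 0 < r → (∀ i < M, BR (ctr c y₀ r i) (2 * r) ⊆ W) → ∀ k : ℕ,
      pr W {ω | 16 * k ≤ XL G c y₀ r M ω + 15} ≤ 2 * A ^ M * ρ ^ k := by
  classical
  obtain ⟨q, hq0, hq1, hq⟩ := pr_NC_le
  set ρ := Real.sqrt q with hρ
  have hρ0 : 0 < ρ := Real.sqrt_pos.2 hq0
  have hρ2 : ρ ^ 2 = q := Real.sq_sqrt hq0.le
  have hρ1 : ρ < 1 := by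
    by_contra h
    have h1 : 1 ≤ ρ := not_lt.1 h
    nlinarith
  have h1ρ : 0 < 1 - ρ := by linarith
  have hA1 : (1 : ℝ) ≤ 4 / (1 - ρ) := by
    rw [le_div_iff₀ h1ρ]
    linarith
  refine ⟨ρ, 4 / (1 - ρ), hρ0, hρ1, hA1, fun G c y₀ r M W hr hW k => ?_⟩
  have hsum : ∀ I : Finset ℕ, I ⊆ range M → (∀ i ∈ I, ∀ j ∈ I, i ≠ j → i + 2 ≤ j ∨ j + 2 ≤ i) →
      pr W {ω | k ≤ ∑ i ∈ I, (NF G (ctr c y₀ r i) r (2 * r) ω + 7) / 8} ≤
        (4 / (1 - ρ)) ^ M * ρ ^ k := by
    intro I hI hsep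
    refine (sum_tail hρ0 hρ1 (by norm_num : (1 : ℝ) ≤ 4) (fun i => BR (ctr c y₀ r i) (2 * r))
      (fun i ω => (NF G (ctr c y₀ r i) r (2 * r) ω + 7) / 8) (fun i ω ω' hω => ?_) ?_ I ?_ W
      (fun i hi => hW i (mem_range.1 (hI hi))) k).trans ?_
    · have := depN_NF G (ctr c y₀ r i) r (2 * r) ω ω' fun f hf => hω f (by
        have := hf.2
        rw [mem_coe, mem_An] at this
        exact mem_coe.2 this.1)
      simp only [this]
    · intro i l W' hW'
      rw [hρ2]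
      refine (pr_mono _ fun ω hω => ?_).trans (hq (ctr c y₀ r i) r W' hr hW' l)
      rw [Set.mem_ofPred_eq] at hω ⊢
      have := NF_le_NC G (ctr c y₀ r i) r (2 * r) ω
      omega
    · intro i hi j hj hij
      rw [Finset.disjoint_left]
      intro f hf hf'
      rw [mem_BR] at hf hf'
      simp only [ctr] at hf hf'
      rcases hsep i hi j hj hij with h | h
      · have h2 : ((i : ℤ) + 2) ≤ j := by exact_mod_cast h
        nlinarith [hf.2.2.2, hf'.2.2.1]
      · have h2 : ((j : ℤ) + 2) ≤ i := by exact_mod_cast h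
        nlinarith [hf'.2.2.2, hf.2.2.1]
    · refine mul_le_mul_of_nonneg_right ?_ (by positivity)
      refine pow_le_pow_right₀ hA1 ?_
      have := card_le_card hI
      rwa [card_range] at this
  have hE := hsum ((range M).filter fun i => i % 2 = 0) (filter_subset _ _) (by
    intro i hi j hj hij
    rw [mem_filter] at hi hj
    omega)
  have hO := hsum ((range M).filter fun i => ¬ i % 2 = 0) (filter_subset _ _) (by
    intro i hi j hj hij
    rw [mem_filter] at hi hj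
    omega)
  refine le_trans (pr_mono _ fun ω hω => ?_) ((pr_union_le W _ _).trans ((add_le_add hE hO).trans
    (le_of_eq (by ring))))
  rw [Set.mem_ofPred_eq] at hω
  rw [Set.mem_union, Set.mem_ofPred_eq, Set.mem_ofPred_eq]
  have h1 : XL G c y₀ r M ω ≤
      8 * ∑ i ∈ (range M).filter (fun i => i % 2 = 0), (NF G (ctr c y₀ r i) r (2 * r) ω + 7) / 8 +
      8 * ∑ i ∈ (range M).filter (fun i => ¬ i % 2 = 0),
        (NF G (ctr c y₀ r i) r (2 * r) ω + 7) / 8 := by
    unfold XL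
    rw [← Finset.sum_filter_add_sum_filter_not (range M) (fun i => i % 2 = 0), Finset.mul_sum,
      Finset.mul_sum]
    exact Nat.add_le_add (Finset.sum_le_sum fun i _ => by omega)
      (Finset.sum_le_sum fun i _ => by omega)
  omega

/-- Exponential moments from the tail. -/
theorem exp_of_tail' {s lam B : ℝ} (hs : 0 ≤ s) (hB : 0 ≤ B) (hlam : 1 ≤ lam)
    (hJ : lam ^ 16 * s ≤ 1 / 2) (W : Finset (ℤ × ℤ)) (N : Cfg → ℕ)
    (hN : ∀ k : ℕ, pr W {ω | 16 * k ≤ N ω + 15} ≤ B * s ^ k) :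
    (∑ T ∈ W.powerset, lam ^ N (cfg T)) / 2 ^ W.card ≤ 1 + B := by
  classical
  have hpow : (0 : ℝ) < 2 ^ W.card := by positivity
  obtain ⟨K, hK⟩ : ∃ K : ℕ, ∀ T ∈ W.powerset, N (cfg T) ≤ K :=
    ⟨W.powerset.sup fun T => N (cfg T), fun T hT => Finset.le_sup (f := fun T => N (cfg T)) hT⟩
  have h1 : ∀ T ∈ W.powerset, lam ^ N (cfg T) ≤
      1 + ∑ k ∈ range (K + 1), lam ^ (16 * (k + 1)) *
        (if cfg T ∈ {ω | 16 * (k + 1) ≤ N ω + 15} then (1 : ℝ) else 0) := by
    intro T hT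
    have hnn : ∀ k ∈ range (K + 1), (0 : ℝ) ≤ lam ^ (16 * (k + 1)) *
        (if cfg T ∈ {ω | 16 * (k + 1) ≤ N ω + 15} then (1 : ℝ) else 0) := by
      intro k _
      split_ifs
      · positivity
      · rw [mul_zero]
    by_cases h0 : N (cfg T) = 0
    · have h2 : lam ^ N (cfg T) = 1 := by rw [h0, pow_zero]
      have := Finset.sum_nonneg hnn
      linarith
    · set k := (N (cfg T) - 1) / 16 with hk
      have hkK : k ∈ range (K + 1) := by
        rw [mem_range]
        have := hK T hT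
        omega
      have h4 : cfg T ∈ {ω | 16 * (k + 1) ≤ N ω + 15} := by
        rw [Set.mem_ofPred_eq]
        omega
      have h5 := Finset.single_le_sum hnn hkK
      simp only [if_pos h4, mul_one] at h5
      have h6 : lam ^ N (cfg T) ≤ lam ^ (16 * (k + 1)) := pow_le_pow_right₀ hlam (by omega)
      linarith
  have h2 : ∀ k : ℕ, lam ^ (16 * (k + 1)) * (B * s ^ (k + 1)) ≤ B * (1 / 2) ^ (k + 1) := by
    intro k
    have e : lam ^ (16 * (k + 1)) * (B * s ^ (k + 1)) = B * (lam ^ 16 * s) ^ (k + 1) := by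
      rw [mul_pow, ← pow_mul]
      ring
    rw [e]
    exact mul_le_mul_of_nonneg_left (pow_le_pow_left₀ (by positivity) hJ _) hB
  calc (∑ T ∈ W.powerset, lam ^ N (cfg T)) / 2 ^ W.card
      ≤ (∑ T ∈ W.powerset, (1 + ∑ k ∈ range (K + 1), lam ^ (16 * (k + 1)) *
        (if cfg T ∈ {ω | 16 * (k + 1) ≤ N ω + 15} then (1 : ℝ) else 0))) / 2 ^ W.card :=
        div_le_div_of_nonneg_right (Finset.sum_le_sum h1) hpow.le
    _ = 1 + ∑ k ∈ range (K + 1), lam ^ (16 * (k + 1)) *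
        pr W {ω | 16 * (k + 1) ≤ N ω + 15} := by
        rw [Finset.sum_add_distrib, Finset.sum_const, card_powerset, nsmul_eq_mul, mul_one,
          Finset.sum_comm, add_div]
        push_cast
        rw [div_self hpow.ne', Finset.sum_div]
        congr 1
        refine Finset.sum_congr rfl fun k _ => ?_
        rw [← Finset.mul_sum, mul_div_assoc, ProbA.pr_eq_sum]
        congr!
    _ ≤ 1 + ∑ k ∈ range (K + 1), B * (1 / 2 : ℝ) ^ (k + 1) := by
        refine add_le_add le_rfl (Finset.sum_le_sum fun k _ => ?_)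
        refine le_trans (mul_le_mul_of_nonneg_left (hN (k + 1)) (by positivity)) (h2 k)
    _ ≤ 1 + B := by
        rw [← Finset.mul_sum]
        have h3 : ∑ k ∈ range (K + 1), (1 / 2 : ℝ) ^ (k + 1) ≤ 1 := by
          have h4 : ∀ n : ℕ, ∑ k ∈ range n, (1 / 2 : ℝ) ^ (k + 1) = 1 - (1 / 2) ^ n := by
            intro n
            induction n with
            | zero => simp
            | succ n ih => rw [Finset.sum_range_succ, ih]; ring
          rw [h4]
          have : (0 : ℝ) ≤ (1 / 2) ^ (K + 1) := by positivity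
          linarith
        nlinarith

/-! ### The strands of a rectangle -/

theorem ua_le_ub (a : UE) : (ua a).1 ≤ (ub a).1 := by
  obtain ⟨x, y, d⟩ := a
  cases d
  · rw [ua_mk, ub_false]; simp only; omega
  · rw [ua_mk, ub_true]

/-- The crossing strands of an arbitrary set of faces are at most as many as those of the full
rectangle. -/
theorem card_le_LT {F : Set (ℤ × ℤ)} {S : Finset UE} {x₀ x₁ y₀ y₁ : ℤ} (h01 : x₀ < x₁)
    (hS : Diff ω F S) (hF : ∀ f ∈ F, x₀ ≤ f.1 → f.1 < x₁ → y₀ ≤ f.2 ∧ f.2 < y₁)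
    (h : ∀ b ∈ S, CrossH ω F x₀ x₁ b) : S.card ≤ (LT ω x₀ x₁ y₀ y₁).card := by
  classical
  have H : ∀ b ∈ S, ∃ y, (y₀ ≤ y ∧ y < y₁) ∧ ((x₀, y, true) : UE) ∈ MM ω F b ∧
      ∃ g, y₀ ≤ g ∧ g < y₁ ∧ ((x₁, g, true) : UE) ∈ MM ω (RF x₀ x₁ y₀ y₁) (x₀, y, true) := by
    intro b hb
    obtain ⟨⟨a₁, ha₁, hx₁⟩, a₂, ha₂, hx₂⟩ := h b hb
    have key : ∀ a ∈ MM ω F a₁, (ub a).1 ≤ x₀ ∨
        (∃ y, (y₀ ≤ y ∧ y < y₁) ∧ ((x₀, y, true) : UE) ∈ MM ω F a₁ ∧
          a ∈ MM ω (RF x₀ x₁ y₀ y₁) (x₀, y, true) ∧ InR x₀ x₁ y₀ y₁ (ua a) ∧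
          InR x₀ x₁ y₀ y₁ (ub a)) ∨
        ∃ y, (y₀ ≤ y ∧ y < y₁) ∧ ((x₀, y, true) : UE) ∈ MM ω F a₁ ∧
          ∃ g, y₀ ≤ g ∧ g < y₁ ∧
            ((x₁, g, true) : UE) ∈ MM ω (RF x₀ x₁ y₀ y₁) (x₀, y, true) := by
      intro a ha
      induction ha with
      | refl => exact Or.inl hx₁
      | tail hab hs ih =>
        rename_i b₁ b₂
        obtain ⟨f, hf, hm⟩ := hs
        have hub : (ub b₂).1 ≤ f.1 + 1 := by
          have := hm.right.cor.2
          unfold IsCor at this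
          omega
        have hb₁ : b₁ = le' f ∨ (f.1 + 1 ≤ (ub b₁).1) := by
          rcases hm.left with rfl | rfl | rfl | rfl
          · right; unfold bo; rw [ub_false]
          · left; rfl
          · right; unfold to'; rw [ub_false]
          · right; unfold ri; rw [ub_true]
        rcases ih with ih | ⟨y, hy, hy1, hy2, hi1, hi2⟩ | ih
        · by_cases hfx : f.1 < x₀
          · left; omega
          · right; left
            have hfe : b₁ = le' f ∧ f.1 = x₀ := by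
              rcases hb₁ with hb₁ | hb₁
              · refine ⟨hb₁, ?_⟩
                rw [hb₁] at ih
                unfold le' at ih
                rw [ub_true] at ih
                simp only at ih
                omega
              · omega
            obtain ⟨e1, e2⟩ := hfe
            have hy := hF f hf (by omega) (by omega)
            have hfR : f ∈ (RF x₀ x₁ y₀ y₁ : Set (ℤ × ℤ)) := by
              rw [mem_RF']
              omega
            have e3 : b₁ = (x₀, f.2, true) := by rw [e1, le', e2]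
            subst e3
            exact ⟨f.2, hy, hab, MM_step hfR hm mem_MM_self, IsCor.inR hfR hm.right.cor.1,
              IsCor.inR hfR hm.right.cor.2⟩
        · by_cases hfx : f.1 < x₀
          · left; omega
          · right
            by_cases hfx' : f.1 < x₁
            · left
              have hy' := hF f hf (by omega) (by omega)
              have hfR : f ∈ (RF x₀ x₁ y₀ y₁ : Set (ℤ × ℤ)) := by
                rw [mem_RF']
                omega
              exact ⟨y, hy, hy1, MM_step hfR hm hy2, IsCor.inR hfR hm.right.cor.1,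
                IsCor.inR hfR hm.right.cor.2⟩
            · right
              refine ⟨y, hy, hy1, f.2, ?_⟩
              have hfe : b₁ = le' f ∧ f.1 = x₁ := by
                unfold InR at hi1 hi2
                rcases hb₁ with hb₁ | hb₁
                · refine ⟨hb₁, ?_⟩
                  rw [hb₁] at hi1
                  unfold le' at hi1
                  rw [ua_mk] at hi1
                  simp only at hi1
                  omega
                · omega
              obtain ⟨e1, e2⟩ := hfe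
              have e3 : b₁ = (x₁, f.2, true) := by rw [e1, le', e2]
              subst e3
              rw [ua_mk] at hi1
              rw [ub_true] at hi2
              unfold InR at hi1 hi2
              simp only at hi1 hi2
              exact ⟨by omega, by omega, hy2⟩
        · exact Or.inr (Or.inr ih)
    rcases key a₂ (MM_trans (MM_symm ha₁) ha₂) with h1 | ⟨y, hy, hy1, hy2, hi1, hi2⟩ | ⟨y, hy, h1, h2⟩
    · have := ua_le_ub a₂
      omega
    · obtain ⟨x, y', d⟩ := a₂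
      unfold InR at hi1 hi2
      cases d
      · rw [ua_mk] at hi1 hx₂
        rw [ub_false] at hi2
        simp only at hi1 hi2 hx₂
        omega
      · rw [ua_mk] at hi1 hx₂
        rw [ub_true] at hi2
        simp only at hi1 hi2 hx₂
        have hx : x = x₁ := by omega
        subst hx
        exact ⟨y, hy, MM_trans ha₁ hy1, y', by omega, by omega, hy2⟩
    · exact ⟨y, hy, MM_trans ha₁ h1, h2⟩
  choose! t h1 h2 h3 using H
  refine card_le_card_of_injOn t (fun b hb => mem_coe.2 (mem_LT.2 ⟨h1 b (mem_coe.1 hb),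
    h3 b (mem_coe.1 hb)⟩)) fun b hb b' hb' e => ?_
  have k := h2 b (mem_coe.1 hb)
  rw [e] at k
  exact hS b (mem_coe.1 hb) b' (mem_coe.1 hb') (MM_trans k (MM_symm (h2 b' (mem_coe.1 hb'))))

theorem depN_LT (x₀ x₁ y₀ y₁ : ℤ) :
    DepN (RF x₀ x₁ y₀ y₁ : Set (ℤ × ℤ)) fun ω => (LT ω x₀ x₁ y₀ y₁).card := by
  intro ω ω' h
  have : LT ω' x₀ x₁ y₀ y₁ = LT ω x₀ x₁ y₀ y₁ := by
    ext j
    rw [mem_LT, mem_LT, MM_congr' h]
  simp only [this]

open Classical in
/-- The left ends of the crossing strands. -/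
noncomputable def SL (ω : Cfg) (x₀ x₁ y₀ y₁ : ℤ) : Finset UE :=
  (LT ω x₀ x₁ y₀ y₁).image fun h => ((x₀, h, true) : UE)

theorem card_SL (ω : Cfg) (x₀ x₁ y₀ y₁ : ℤ) :
    (SL ω x₀ x₁ y₀ y₁).card = (LT ω x₀ x₁ y₀ y₁).card := by
  classical
  unfold SL
  refine card_image_of_injective _ fun a b h => ?_
  simp only [Prod.mk.injEq, and_true, true_and] at h
  exact h

theorem diff_SL {x₀ x₁ y₀ y₁ : ℤ} (h01 : x₀ < x₁) :
    Diff ω (RF x₀ x₁ y₀ y₁ : Set (ℤ × ℤ)) (SL ω x₀ x₁ y₀ y₁) := by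
  classical
  intro b hb b' hb' h
  unfold SL at hb hb'
  obtain ⟨y, hy, rfl⟩ := mem_image.1 hb
  obtain ⟨y', hy', rfl⟩ := mem_image.1 hb'
  obtain ⟨⟨l1, l2⟩, g, g1, g2, hg⟩ := mem_LT.1 hy
  obtain ⟨⟨m1, m2⟩, -⟩ := mem_LT.1 hy'
  by_contra hne
  have := other_unique (bdF_of_bdE (bdE_left l1 l2)) hg h (bdF_of_bdE (bdE_right g1 g2))
    (bdF_of_bdE (bdE_left m1 m2)) (by simp only [ne_eq, Prod.mk.injEq, not_and]; omega)
    (fun h => hne h.symm)
  simp only [Prod.mk.injEq] at this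
  omega

theorem cross_SL {x₀ x₁ y₀ y₁ : ℤ} :
    ∀ b ∈ SL ω x₀ x₁ y₀ y₁, CrossH ω (RF x₀ x₁ y₀ y₁ : Set (ℤ × ℤ)) x₀ x₁ b := by
  classical
  intro b hb
  unfold SL at hb
  obtain ⟨y, hy, rfl⟩ := mem_image.1 hb
  obtain ⟨⟨l1, l2⟩, g, g1, g2, hg⟩ := mem_LT.1 hy
  exact ⟨⟨_, mem_MM_self, by rw [ub_true]⟩, _, hg, by rw [ua_mk]⟩

theorem rf_slab {x₀ x₁ y₀ y₁ : ℤ} : ∀ f ∈ (RF x₀ x₁ y₀ y₁ : Set (ℤ × ℤ)), x₀ ≤ f.1 → f.1 < x₁ →
    y₀ ≤ f.2 ∧ f.2 < y₁ := by
  intro f hf _ _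
  rw [mem_RF'] at hf
  omega

theorem pow_one_le {s : ℝ} (hs : 0 < s) {k n : ℕ} (h : k ≤ n) :
    1 ≤ (max 1 (1 / s)) ^ n * s ^ k := by
  have h1 : (1 / s) ^ k ≤ (max 1 (1 / s)) ^ k := pow_le_pow_left₀ (by positivity) (le_max_right _ _) k
  have h2 : (max 1 (1 / s)) ^ k ≤ (max 1 (1 / s)) ^ n := pow_le_pow_right₀ (le_max_left _ _) h
  have h3 : (1 / s) ^ k * s ^ k = 1 := by
    rw [← mul_pow, one_div, inv_mul_cancel₀ hs.ne', one_pow]
  calc (1 : ℝ) = (1 / s) ^ k * s ^ k := h3.symm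
    _ ≤ _ := mul_le_mul_of_nonneg_right (h1.trans h2) (by positivity)

/-- Super-exponential tail of the number of strands which cross a rectangle. -/
theorem LT_tail (a : ℕ) {s : ℝ} (hs : 0 < s) : ∃ B : ℝ, 0 ≤ B ∧ ∀ (x₀ x₁ y₀ y₁ : ℤ)
    (W : Finset (ℤ × ℤ)), x₀ < x₁ → y₁ - y₀ ≤ a * (x₁ - x₀) → RF x₀ x₁ y₀ y₁ ⊆ W → ∀ k : ℕ,
      pr W {ω | 16 * k ≤ (LT ω x₀ x₁ y₀ y₁).card + 15} ≤ B * s ^ k := by
  classical
  obtain ⟨ρ, A, hρ0, hρ1, hA, hX⟩ := XL_tail
  obtain ⟨m₀, hm₀⟩ := exists_pow_lt_of_lt_one hs hρ1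
  set m := m₀ + 1 with hm
  have hρm : ρ ^ m ≤ s := by
    have : ρ ^ m ≤ ρ ^ m₀ := pow_le_pow_of_le_one hρ0.le hρ1.le (by omega)
    linarith
  set M := 4 * a * m with hM
  refine ⟨max ((2 * A ^ M) ^ m) ((max 1 (1 / s)) ^ (M + 1)), by positivity, ?_⟩
  intro x₀ x₁ y₀ y₁ W h01 hasp hW k
  have hm0 : (0 : ℤ) < m := by omega
  by_cases hw : 4 * (m : ℤ) ≤ x₁ - x₀
  · -- wide rectangles
    refine le_trans ?_ (mul_le_mul_of_nonneg_right (le_max_left _ _) (by positivity))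
    set r := (x₁ - x₀) / (4 * m) with hr
    have e1 := Int.mul_ediv_add_emod (x₁ - x₀) (4 * m)
    have e2 := Int.emod_nonneg (x₁ - x₀) (show (4 * m : ℤ) ≠ 0 by omega)
    have e3 := Int.emod_lt_of_pos (x₁ - x₀) (show (0 : ℤ) < 4 * m by omega)
    rw [← hr] at e1
    have hr1 : 1 ≤ r := by
      by_contra hc
      have : r ≤ 0 := by omega
      nlinarith
    have hwr : 4 * (m : ℤ) * r ≤ x₁ - x₀ := by omega
    have hwr' : x₁ - x₀ ≤ 8 * m * r := by nlinarith
    have hMh : y₁ - y₀ ≤ 2 * r * (M : ℕ) := by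
      have : (a : ℤ) * (x₁ - x₀) ≤ a * (8 * m * r) :=
        mul_le_mul_of_nonneg_left hwr' (by positivity)
      rw [hM]
      push_cast
      nlinarith
    set c : ℕ → ℤ := fun j => x₀ + 4 * r * j + 2 * r with hc
    set B : ℕ → Finset (ℤ × ℤ) := fun j => (range M).biUnion fun i => BR (ctr (c j) y₀ r i) (2 * r)
      with hB
    set E : ℕ → Set Cfg := fun j => {ω | 16 * k ≤ XL Set.univ (c j) y₀ r M ω + 15} with hE
    set W' := RF x₀ x₁ y₀ y₁ ∪ (range m).biUnion B with hW'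
    have hBW : ∀ j < m, B j ⊆ W' := fun j hj f hf =>
      mem_union_right _ (mem_biUnion.2 ⟨j, mem_range.2 hj, hf⟩)
    have hdE : ∀ j, DepOn (B j) (E j) := by
      intro j
      have : DepN (B j) (XL Set.univ (c j) y₀ r M) := by
        unfold XL
        refine depN_sum fun i hi => (depN_NF _ _ _ _).mono ?_
        rintro f ⟨-, hf⟩
        rw [mem_coe, mem_An] at hf
        rw [mem_coe, hB, mem_biUnion]
        exact ⟨i, hi, hf.1⟩
      exact this.depOn fun n => 16 * k ≤ n + 15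
    have hdis : ∀ i j, i ≠ j → Disjoint (B i) (B j) := by
      intro i j hij
      rw [Finset.disjoint_left]
      intro f hf hf'
      rw [hB, mem_biUnion] at hf hf'
      obtain ⟨i', -, hf⟩ := hf
      obtain ⟨j', -, hf'⟩ := hf'
      rw [mem_BR] at hf hf'
      simp only [ctr, hc] at hf hf'
      rcases lt_or_gt_of_ne hij with h | h
      · have h2 : ((i : ℤ) + 1) ≤ j := by exact_mod_cast h
        nlinarith [hf.2.1, hf'.1]
      · have h2 : ((j : ℤ) + 1) ≤ i := by exact_mod_cast h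
        nlinarith [hf.1, hf'.2.1]
    have ht : ∀ j < m, pr W' (E j) ≤ 2 * A ^ M * ρ ^ k := by
      intro j hj
      refine hX Set.univ (c j) y₀ r M W' (by omega) (fun i hi => ?_) k
      exact fun f hf => hBW j hj (mem_biUnion.2 ⟨i, mem_range.2 hi, hf⟩)
    have hd : DepOn (RF x₀ x₁ y₀ y₁ : Set (ℤ × ℤ)) {ω | 16 * k ≤ (LT ω x₀ x₁ y₀ y₁).card + 15} :=
      (depN_LT x₀ x₁ y₀ y₁).depOn fun n => 16 * k ≤ n + 15
    rw [pr_eq_of_depOn hd hW, ← pr_eq_of_depOn hd (show RF x₀ x₁ y₀ y₁ ⊆ W' from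
      subset_union_left)]
    refine le_trans (pr_mono _ fun ω hω => ?_) ((prod_tail hdE hdis (by positivity) m hBW ht).trans
      ?_)
    · rw [Set.mem_ofPred_eq] at hω ⊢
      intro j hj
      rw [hE, Set.mem_ofPred_eq]
      have hj' : ((j : ℤ) + 1) ≤ m := by exact_mod_cast hj
      have := card_le_XL (G := Set.univ) (diff_SL (ω := ω) (y₀ := y₀) (y₁ := y₁) h01) (c := c j)
        (r := r) (M := M) (by omega) (by
          simp only [hc]
          have : 0 ≤ 4 * r * j := by positivity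
          omega) (by
          simp only [hc]
          nlinarith) hMh (fun f _ _ _ => trivial) rf_slab cross_SL
      rw [card_SL] at this
      omega
    · have e : (2 * A ^ M * ρ ^ k) ^ m = (2 * A ^ M) ^ m * (ρ ^ m) ^ k := by
        rw [mul_pow, ← pow_mul ρ k m, ← pow_mul ρ m k, mul_comm k m]
      rw [e]
      exact mul_le_mul_of_nonneg_left (pow_le_pow_left₀ (by positivity) hρm k) (by positivity)
  · -- narrow rectangles
    refine le_trans ?_ (mul_le_mul_of_nonneg_right (le_max_right _ _) (by positivity))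
    by_cases hk : k ≤ M + 1
    · exact (pr_le_one _ _).trans (pow_one_le hs hk)
    · have h0 : pr W {ω | 16 * k ≤ (LT ω x₀ x₁ y₀ y₁).card + 15} = 0 := by
        rw [ProbA.pr_eq_sum, Finset.sum_eq_zero, zero_div]
        intro T _
        rw [if_neg]
        rw [Set.mem_ofPred_eq]
        have h1 : (LT (cfg T) x₀ x₁ y₀ y₁).card ≤ (y₁ - y₀).toNat := by
          have := card_filter_le (Ico y₀ y₁) fun h => ∃ g, y₀ ≤ g ∧ g < y₁ ∧
            ((x₁, g, true) : UE) ∈ MM (cfg T) (RF x₀ x₁ y₀ y₁) (x₀, h, true)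
          rw [Int.card_Ico] at this
          unfold PercN.LT
          convert this
        have h2 : y₁ - y₀ ≤ M := by
          have : (a : ℤ) * (x₁ - x₀) ≤ a * (4 * m) :=
            mul_le_mul_of_nonneg_left (by omega) (by positivity)
          rw [hM]
          push_cast
          nlinarith
        omega
      rw [h0]
      positivity

/-- All exponential moments of the number of strands which cross a rectangle. -/
theorem LT_moment (a : ℕ) {lam : ℝ} (hlam : 1 ≤ lam) : ∃ C : ℝ, 0 < C ∧ ∀ (x₀ x₁ y₀ y₁ : ℤ)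
    (W : Finset (ℤ × ℤ)), x₀ < x₁ → y₁ - y₀ ≤ a * (x₁ - x₀) → RF x₀ x₁ y₀ y₁ ⊆ W →
      (∑ T ∈ W.powerset, lam ^ (LT (cfg T) x₀ x₁ y₀ y₁).card) / 2 ^ W.card ≤ C := by
  have hl : (0 : ℝ) < lam ^ 16 := by positivity
  obtain ⟨B, hB, h⟩ := LT_tail a (s := 1 / (2 * lam ^ 16)) (by positivity)
  refine ⟨1 + B, by positivity, fun x₀ x₁ y₀ y₁ W h01 hasp hW => ?_⟩
  refine exp_of_tail' (s := 1 / (2 * lam ^ 16)) (by positivity) hB hlam (le_of_eq ?_) W
    (fun ω => (LT ω x₀ x₁ y₀ y₁).card) (h x₀ x₁ y₀ y₁ W h01 hasp hW)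
  field_simp

end Pool.Agent.SixB
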