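import Pool.Agent.Lib.SixB.S4Tower

/-!
# 6BD step 4, one leg oddness: definitions and statements

All objects live in the upper half plane `y ≥ 0`; the wall is `y = 0`; the mirror exchanges the
vertices `(x, y)` and `(1 - x, y)`, the faces `(x, y)` and `(-x, y)`.

* `FB w h`: flat box, faces `-w ≤ x ≤ w`, `0 ≤ y < h`; `HB w = FB w w`; `HR a b = HB b \ HB a`.
* `BdF w h a`: `a` is a side of the box `FB w h` on the left, on the top or on the right.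
* `Crs ω a b`: the sides of `HB a` from which a strand crosses `HR a b`; `CrsO ω a b`: the sides of
  `HB b` in which these strands end; `nH ω a b = |Crs ω a b|`; `Lg a b`: some strand crosses.
* `Lev`: a level: `a < b = M a`, `u = 2 b`, `s = Λ u`, `q = Q u`, `a' = 4 q`, `b' = M a'`; inner box
  `FB s u`, outer box `FB q (4 u)`; the next level has base `a'`.
* `TipI v ω p`: the inner strand (from a side of `Crs ω a b` in `FB s u \ HB a`) meets the top side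
  `(p, u, false)`; `TipO v ω p'`: the outer strand (from a side of `CrsO ω a' b'` in
  `HB b' \ FB q (4 u)`) meets the top side `(p', 4 u, false)` of the outer box.
* `Gd v`: the level is good; `Gl v`: glued; `EE v ω`: the explored faces.
* `muC A ω`: mirror (with exchange of `true` and `false`) on `A`, nothing off `A`.
* `Anti G r R`: `G` changes sign under the mirror inside if there is one strand.
* `OneLegThm`: the theorem.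
-/

set_option autoImplicit false

namespace Pool.Agent.SixB.Leg

open Finset Pool.Agent.Perc Pool.Agent.PercT

/-! ## Boxes -/

/-- Flat box. -/
noncomputable def FB (w h : ℤ) : Finset (ℤ × ℤ) := RF (-w) (w + 1) 0 h

/-- Half box. -/
noncomputable def HB (w : ℤ) : Finset (ℤ × ℤ) := FB w w

/-- Half ring. -/
def HR (a b : ℤ) : Set (ℤ × ℤ) := {f | f ∈ HB b ∧ f ∉ HB a}

/-- The sides of `FB w h` on the left, on the top and on the right. -/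
def BdF (w h : ℤ) (a : UE) : Prop :=
  (a.2.2 = true ∧ (a.1 = -w ∨ a.1 = w + 1) ∧ 0 ≤ a.2.1 ∧ a.2.1 < h) ∨
    (a.2.2 = false ∧ a.2.1 = h ∧ -w ≤ a.1 ∧ a.1 < w + 1)

/-- The sides of `HB w` on the left, on the top and on the right. -/
def BdH (w : ℤ) (a : UE) : Prop := BdF w w a

/-! ## Crossing strands -/

/-- The inner ends of the strands which cross `HR a b`. -/
def Crs (ω : Cfg) (a b : ℤ) : Set UE := {e | BdH a e ∧ ∃ t, BdH b t ∧ t ∈ MM ω (HR a b) e}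

/-- The outer ends of the strands which cross `HR a b`. -/
def CrsO (ω : Cfg) (a b : ℤ) : Set UE := {t | BdH b t ∧ ∃ e, BdH a e ∧ t ∈ MM ω (HR a b) e}

/-- The number of the strands which cross `HR a b`. -/
noncomputable def nH (ω : Cfg) (a b : ℤ) : ℕ := (Crs ω a b).ncard

/-- Some strand crosses `HR a b`. -/
def Lg (a b : ℤ) : Set Cfg := {ω | 1 ≤ nH ω a b}

/-! ## Levels -/

/-- The numbers of a level. -/
structure Lev where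
  (a b u s q a' b' : ℤ)

namespace Lev

/-- The sizes (the constants are generous). -/
structure Ok (v : Lev) : Prop where
  ha : 1 ≤ v.a
  hb : 8 * v.a ≤ v.b
  hu : v.u = 2 * v.b
  hs : 8 * v.u ≤ v.s
  hq : 64 * v.s ≤ v.q
  ha' : v.a' = 4 * v.q
  hb' : 8 * v.a' ≤ v.b'

end Lev

/-- The level with base `a` and ratios `M`, `Lam`, `Q`. -/
def lev (M Lam Q a : ℤ) : Lev :=
  ⟨a, M * a, 2 * (M * a), Lam * (2 * (M * a)), Q * (2 * (M * a)), 4 * (Q * (2 * (M * a))),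
    M * (4 * (Q * (2 * (M * a))))⟩

/-- The ratios. -/
structure Par (M Lam Q : ℤ) : Prop where
  hM : 8 ≤ M
  hL : 8 ≤ Lam
  hQ : 64 * Lam ≤ Q

/-- Region of the inner strand. -/
def RI (v : Lev) : Set (ℤ × ℤ) := {f | f ∈ FB v.s v.u ∧ f ∉ HB v.a}

/-- Region of the outer strand. -/
def RO (v : Lev) : Set (ℤ × ℤ) := {f | f ∈ HB v.b' ∧ f ∉ FB v.q (4 * v.u)}

/-- `(p, u, false)` is a tip of an inner strand. -/
def TipI (v : Lev) (ω : Cfg) (p : ℤ) : Prop :=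
  (-v.s ≤ p ∧ p ≤ v.s) ∧ ∃ e ∈ Crs ω v.a v.b, ((p, v.u, false) : UE) ∈ MM ω (RI v) e

/-- `(p, 4 u, false)` is a tip of an outer strand. -/
def TipO (v : Lev) (ω : Cfg) (p : ℤ) : Prop :=
  (-v.q ≤ p ∧ p ≤ v.q) ∧ ∃ f ∈ CrsO ω v.a' v.b', ((p, 4 * v.u, false) : UE) ∈ MM ω (RO v) f

/-- The level is good: one strand in each ring, tips on the tops, not far away, of one class. -/
def Gd (v : Lev) : Set Cfg := {ω | nH ω v.a v.b = 1 ∧ nH ω v.a' v.b' = 1 ∧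
  ∃ p p', TipI v ω p ∧ TipO v ω p' ∧ |2 * p| ≤ v.s ∧ |p'| ≤ v.q - 8 * v.u ∧ (p - p') % 2 = 0}

/-- The level is glued: a strand goes from `HB a` to `HB b'`. -/
def Gl (v : Lev) : Set Cfg := Lg v.a v.b'

/-- The explored faces: `HB b`, everything off `HB a'`, the inner strands, the outer strands. -/
def EE (v : Lev) (ω : Cfg) : Set (ℤ × ℤ) := {x | x ∈ HB v.b ∨ x ∉ HB v.a' ∨
  (∃ e ∈ Crs ω v.a v.b, x ∈ SS ω (RI v) e) ∨ ∃ f ∈ CrsO ω v.a' v.b', x ∈ SS ω (RO v) f}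

/-! ## Mirror -/

/-- Mirror of a face. -/
def mF (f : ℤ × ℤ) : ℤ × ℤ := (-f.1, f.2)

/-- Mirror of a vertex. -/
def mV (w : ℤ × ℤ) : ℤ × ℤ := (1 - w.1, w.2)

/-- Mirror of a unit edge. -/
def mE (a : UE) : UE := if a.2.2 then (1 - a.1, a.2.1, true) else (-a.1, a.2.1, false)

open Classical in
/-- The mirror (with exchange of `true` and `false`) on the faces of `A`. -/
noncomputable def muC (A : Set (ℤ × ℤ)) (ω : Cfg) : Cfg :=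
  fun f => if f ∈ A then !ω (mF f) else ω f

/-- `G` is odd: two configurations which agree off `HB a'`, which are mirror images in `HB b`, with
one strand across `HR a b` and across `HR a' b'`, and both glued. -/
def Anti (G : Cfg → ℝ) (r R : ℤ) : Prop := ∀ a b a' b' : ℤ, r ≤ a → a < b → b < a' → a' < b' →
  b' ≤ R → ∀ ω ω' : Cfg, (∀ f, f ∉ HB a' → ω' f = ω f) → (∀ f ∈ HB b, ω' f = !ω (mF f)) →
  nH ω a b = 1 → nH ω a' b' = 1 → 1 ≤ nH ω a b' → 1 ≤ nH ω' a b' → G ω' = -G ω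

/-- **One leg oddness.** -/
def OneLegThm : Prop := ∃ C c : ℝ, 0 < C ∧ 0 < c ∧ ∀ (W : Finset (ℤ × ℤ)) (G g : Cfg → ℝ)
  (r R : ℤ), 1 ≤ r → 4 * r ≤ R → HB R ⊆ W → (∀ ω, 0 ≤ g ω) →
  (∀ ω, |G ω| ≤ g ω * (nH ω r R : ℝ)) → DepF {f | f ∉ HB R} g → Anti G r R →
  |exr W G| ≤ C * ((r : ℝ) / R) ^ (1 + c) * exr W g

/-! ## The statements of the rows -/

/-- Mono: fewer strands cross a larger ring. -/
def Mono : Prop := ∀ (ω : Cfg) (r a b R : ℤ), 1 ≤ r → r ≤ a → a < b → b ≤ R →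
  nH ω r R ≤ nH ω r b ∧ (1 ≤ nH ω r R → 1 ≤ nH ω a b)

/-- Det: with one strand in two rings the strands across the large ring are determined. -/
def Det : Prop := ∀ (ω : Cfg) (r a b a' b' R : ℤ), 1 ≤ r → r ≤ a → a < b → b ≤ a' → a' < b' →
  b' ≤ R → nH ω a b = 1 → nH ω a' b' = 1 →
  nH ω r R ≤ 1 ∧ (1 ≤ nH ω r R ↔ 1 ≤ nH ω a b' ∧ 1 ≤ nH ω r b ∧ 1 ≤ nH ω a' R)

/-- Mes: the explored set is a stopping set, the good event depends on `HR a b'`. -/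
def Mes : Prop := ∀ v : Lev, v.Ok → Stp (EE v) ∧ Msb (EE v) (fun ω => ω ∈ Gd v) ∧
  DepOn (HR v.a v.b') (Gd v) ∧ DepOn (HR v.a v.b') (Gl v) ∧
  ∀ W, DepF (HR v.a v.b') (ce W (EE v) ((Gl v).indicator fun _ => (1 : ℝ)))

/-- Mir: the mirror of the inner box preserves the good event and the mean. -/
def Mir : Prop := ∀ v : Lev, v.Ok → (∀ ω, muC (FB v.s v.u) ω ∈ Gd v ↔ ω ∈ Gd v) ∧
  ∀ (W : Finset (ℤ × ℤ)) (g : Cfg → ℝ), FB v.s v.u ⊆ W →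
    exr W (fun ω => g (muC (FB v.s v.u) ω)) = exr W g

/-- Glue: the conditional probability of gluing. -/
def Glue : Prop := ∀ M Lam Q : ℤ, Par M Lam Q → ∃ c : ℝ, 0 < c ∧ ∀ (a : ℤ) (W : Finset (ℤ × ℤ)),
  1 ≤ a → HB (lev M Lam Q a).b' ⊆ W → ∀ ω ∈ Gd (lev M Lam Q a),
    c ≤ ce W (EE (lev M Lam Q a)) ((Gl (lev M Lam Q a)).indicator fun _ => (1 : ℝ)) ω

/-- A strand crosses the rectangle from the left to the right. -/
def SX (x₀ x₁ y₀ y₁ : ℤ) : Set Cfg := {ω | ∃ i j, y₀ ≤ i ∧ i < y₁ ∧ y₀ ≤ j ∧ j < y₁ ∧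
  ((x₁, j, true) : UE) ∈ MM ω (RF x₀ x₁ y₀ y₁ : Set (ℤ × ℤ)) (x₀, i, true)}

/-- The half ring around the corner `(x, 0)`: faces. -/
def CR (x r R : ℤ) : Set (ℤ × ℤ) := {f | 0 ≤ f.2 ∧ (x - R ≤ f.1 ∧ f.1 < x + R ∧ f.2 < R) ∧
  ¬ (x - r ≤ f.1 ∧ f.1 < x + r ∧ f.2 < r)}

/-- A strand crosses the half ring around the corner `(x, 0)`. -/
def CX (x r R : ℤ) : Set Cfg := {ω | ∃ e t : UE, BdE (x - r) (x + r) (-r) r e ∧
  BdE (x - R) (x + R) (-R) R t ∧ t ∈ MM ω (CR x r R) e}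

/-- The four kinds of bad levels. -/
def Bad1 (v : Lev) : Set Cfg := {ω | 2 ≤ nH ω v.a v.b} ∩ Lg v.b v.b'
def Bad2 (v : Lev) : Set Cfg := {ω | 2 ≤ nH ω v.a' v.b'} ∩ Lg v.a v.a'
def Bad3 (v : Lev) : Set Cfg := (Lg v.a v.b ∩ Lg v.s v.b') ∩
  (SX (v.b + 1) (v.s / 2) 0 v.u ∪ SX (1 - v.s / 2) (-v.b) 0 v.u)
def Bad4 (v : Lev) : Set Cfg := (Lg v.a (v.q / 4) ∩ Lg (2 * v.q) v.b') ∩
  (CX v.q (12 * v.u) (v.q / 2) ∪ CX (-v.q) (12 * v.u) (v.q / 2))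

/-- BadDet: a level with a strand which is not good is bad in one of the four ways. -/
def BadDet : Prop := ∀ v : Lev, v.Ok → Gl v \ Gd v ⊆ Bad1 v ∪ Bad2 v ∪ Bad3 v ∪ Bad4 v

/-- BadPr: the probability of a bad level. -/
def BadPr : Prop := ∃ C c : ℝ, 0 < C ∧ 0 < c ∧ ∀ M Lam Q : ℤ, Par M Lam Q → ∀ (a : ℤ)
  (W : Finset (ℤ × ℤ)), 1 ≤ a → HB (lev M Lam Q a).b' ⊆ W →
  pr W (Bad1 (lev M Lam Q a) ∪ Bad2 (lev M Lam Q a) ∪ Bad3 (lev M Lam Q a) ∪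
    Bad4 (lev M Lam Q a)) ≤
    C * (1 / M + Lam * Real.exp (-c * Lam) + 1 / Q) * ((a : ℝ) / (lev M Lam Q a).b')

/-- LegPr: one leg upper bounds. -/
def LegPr : Prop := ∃ C : ℝ, 0 < C ∧ ∀ (a b : ℤ) (W : Finset (ℤ × ℤ)), 1 ≤ a → a ≤ b → HB b ⊆ W →
  pr W (Lg a b) ≤ C * ((a : ℝ) / b) ∧ (4 * a ≤ b → exr W (fun ω => (nH ω a b : ℝ)) ≤ C)

/-- The base of the level `k`. -/
def bas (M Q a : ℤ) (k : ℕ) : ℤ := (8 * Q * M) ^ k * a

/-- ProdPr: product bound over sets of bad levels. -/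
def ProdPr : Prop := ∃ C : ℝ, 0 < C ∧ ∀ (M Lam Q : ℤ) (δ : ℝ), Par M Lam Q → 0 ≤ δ → C * δ ≤ 1 →
  (∀ (a : ℤ) (W : Finset (ℤ × ℤ)), 1 ≤ a → HB (lev M Lam Q a).b' ⊆ W →
    pr W (Gl (lev M Lam Q a) \ Gd (lev M Lam Q a)) ≤ δ * ((a : ℝ) / (lev M Lam Q a).b')) →
  ∀ (K m : ℕ) (B : Finset ℕ) (a R : ℤ) (W : Finset (ℤ × ℤ)), B ⊆ range K → 2 * m ≤ B.card →
    1 ≤ a → M * bas M Q a K ≤ R → HB R ⊆ W →
    pr W {ω | ω ∈ Lg a R ∧ ∀ k ∈ B, ω ∉ Gd (lev M Lam Q (bas M Q a k))} ≤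
      C * (C * δ) ^ m * ((a : ℝ) / R)

/-! ## First facts -/

theorem mem_FB {w h : ℤ} {f : ℤ × ℤ} :
    f ∈ FB w h ↔ -w ≤ f.1 ∧ f.1 ≤ w ∧ 0 ≤ f.2 ∧ f.2 < h := by
  unfold FB RF
  rw [mem_product, mem_Ico, mem_Ico]
  omega

theorem mem_HB {w : ℤ} {f : ℤ × ℤ} :
    f ∈ HB w ↔ -w ≤ f.1 ∧ f.1 ≤ w ∧ 0 ≤ f.2 ∧ f.2 < w := mem_FB

theorem mem_HR {a b : ℤ} {f : ℤ × ℤ} :
    f ∈ HR a b ↔ (-b ≤ f.1 ∧ f.1 ≤ b ∧ 0 ≤ f.2 ∧ f.2 < b) ∧
      ¬ (-a ≤ f.1 ∧ f.1 ≤ a ∧ 0 ≤ f.2 ∧ f.2 < a) := by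
  unfold HR
  rw [Set.mem_ofPred_eq, mem_HB, mem_HB]

theorem mem_RI {v : Lev} {f : ℤ × ℤ} :
    f ∈ RI v ↔ (-v.s ≤ f.1 ∧ f.1 ≤ v.s ∧ 0 ≤ f.2 ∧ f.2 < v.u) ∧
      ¬ (-v.a ≤ f.1 ∧ f.1 ≤ v.a ∧ 0 ≤ f.2 ∧ f.2 < v.a) := by
  unfold RI
  rw [Set.mem_ofPred_eq, mem_FB, mem_HB]

theorem mem_RO {v : Lev} {f : ℤ × ℤ} :
    f ∈ RO v ↔ (-v.b' ≤ f.1 ∧ f.1 ≤ v.b' ∧ 0 ≤ f.2 ∧ f.2 < v.b') ∧
      ¬ (-v.q ≤ f.1 ∧ f.1 ≤ v.q ∧ 0 ≤ f.2 ∧ f.2 < 4 * v.u) := by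
  unfold RO
  rw [Set.mem_ofPred_eq, mem_HB, mem_FB]

theorem HB_mono {a b : ℤ} (h : a ≤ b) : HB a ⊆ HB b := by
  intro f hf
  rw [mem_HB] at hf ⊢
  omega

theorem Par.ok {M Lam Q a : ℤ} (h : Par M Lam Q) (ha : 1 ≤ a) : (lev M Lam Q a).Ok := by
  have hM := h.hM
  have hL := h.hL
  have hQ := h.hQ
  have h1 : 8 * a ≤ M * a := by nlinarith
  have h2 : 0 < M * a := by nlinarith
  refine ⟨ha, h1, rfl, ?_, ?_, rfl, ?_⟩
  · change 8 * (2 * (M * a)) ≤ Lam * (2 * (M * a))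
    nlinarith
  · change 64 * (Lam * (2 * (M * a))) ≤ Q * (2 * (M * a))
    nlinarith
  · change 8 * (4 * (Q * (2 * (M * a)))) ≤ M * (4 * (Q * (2 * (M * a))))
    have h3 : 0 < Q * (2 * (M * a)) := by
      have : 0 < Q := by omega
      positivity
    nlinarith

theorem bas_succ (M Lam Q a : ℤ) (k : ℕ) :
    bas M Q a (k + 1) = (lev M Lam Q (bas M Q a k)).a' := by
  change (8 * Q * M) ^ (k + 1) * a = 4 * (Q * (2 * (M * ((8 * Q * M) ^ k * a))))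
  ring

end Pool.Agent.SixB.Leg
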