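import Pool.Agent.Lib.SixB.S4WallDefs
import Pool.Agent.Lib.SixB.S4A
import Pool.Agent.Lib.SixB.NFSym
import Pool.Agent.Lib.SixB.NFMom

/-!
# 6BD step 4, row W3 (the tilt does not see the complete strands at first order): statements

`fIn R` is split into pieces `g`, each a function of the faces of a box `I`, and each piece is treated by
`V1` (replacement): the tilt changes the mean of `g` only on an event `T` of small probability.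
Pieces: `clS (BR v (2 s)) - clS (BR v s)` (loops around an end point `v` of the column at scale `s`),
`fIn (4 r)` minus the loops in the two small boxes, `fIn R' - fIn R` (strands which go from `HB0 r` to
distance `R`).
-/

set_option autoImplicit false

namespace Pool.Agent.SixB.W3

open Pool.Agent.SixB Pool.Agent.Perc Pool.Agent.PercD Pool.Agent.Perc.Q Pool.Agent.Perc6 Relation

noncomputable section

/-- (A1) one strand crosses a half annulus -/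
def A1S : Prop := ∃ C : ℝ, 0 < C ∧ ∀ (r R : ℤ) (W : Finset (ℤ × ℤ)), 1 ≤ r → r ≤ R → BR (0, 0) R ⊆ W →
  pr W {ω | 1 ≤ NF (HW 0 0) (0, 0) r R ω} ≤ C * ((r : ℝ) / R)

/-- (A2) two strands cross a half annulus -/
def A2S : Prop := ∃ C : ℝ, 0 < C ∧ ∀ (r R : ℤ) (W : Finset (ℤ × ℤ)), 1 ≤ r → r ≤ R → BR (0, 0) R ⊆ W →
  pr W {ω | 2 ≤ NF (HW 0 0) (0, 0) r R ω} ≤ C * ((r : ℝ) / R) ^ 2

open Classical in
/-- the strands of the column which are closed in `A` -/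
def clS (A : Finset (ℤ × ℤ)) (x y y' : ℤ) (ω : Cfg) : ℝ :=
  ∑ j ∈ Finset.Ico y' y, if Clo ZQ A ω (WEnv.pe x j) then
    Real.sqrt 3 / 4 * (trn ZQ A ω (WEnv.pe x j) : ℝ) else 0

open Classical in
/-- indicator of an event -/
def indP (T : Cfg → Prop) (ω : Cfg) : ℝ := if T ω then 1 else 0

/-- (V1) replacement -/
def V1 : Prop := ∀ (E : WEnv) (d : ℤ) (M : ℝ), WallAt E d M → ∀ (I : Finset (ℤ × ℤ)) (g : Cfg → ℝ)
  (T : Cfg → Prop), I ⊆ HB0 d → Dep (I : Set (ℤ × ℤ)) g →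
  Dep ((HB0 d \ I : Finset (ℤ × ℤ)) : Set (ℤ × ℤ)) T →
  (∀ ω ω' : Cfg, ¬ T ω → (∀ f, f ∉ I → ω f = ω' f) → E.W ω' = E.W ω) →
  |av E.F (fun ω => g ω * E.W ω) - av E.F g * E.Z| ≤
    2 * M * E.Z * av E.F (fun ω => |g ω|) * av E.F (indP T)

/-- (V2a) at most one leg: the weight does not see the box -/
def V2a : Prop := ∀ (E : WEnv) (d : ℤ) (M : ℝ), WallAt E d M → ∀ (l : ℤ) (I : Finset (ℤ × ℤ)),
  I ⊆ HB0 l → l ≤ d → ∀ ω ω' : Cfg, Tilt.OneLeg ZQ ω E.F (HB0 l) (HB0 d) →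
    (∀ f, f ∉ I → ω f = ω' f) → E.W ω' = E.W ω

/-- (V2b) no leg in the bulk: the weight does not see the box -/
def V2b : Prop := ∀ (E : WEnv) (d : ℤ) (M : ℝ), WallAt E d M → ∀ (v : ℤ × ℤ) (s t : ℤ),
  0 ≤ s → s ≤ t → BR v t ⊆ HB0 d → t < v.2 → ∀ ω ω' : Cfg, Tilt.NoLeg ZQ ω E.F (BR v s) (BR v t) →
    (∀ f, f ∉ BR v s → ω f = ω' f) → E.W ω' = E.W ω

/-- (V3a) two legs of the half plane are two crossing strands -/
def V3a : Prop := ∀ (F : Finset (ℤ × ℤ)) (l d : ℤ) (ω : Cfg), 0 ≤ l → l < d → HB0 (2 * d) ⊆ F →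
  (∀ i : ℤ, -(2 * d) ≤ i → i ≤ 2 * d → (i, -1) ∉ F) → ¬ Tilt.OneLeg ZQ ω F (HB0 l) (HB0 d) →
  2 ≤ NF (HW 0 0) (0, 0) (l + 1) d ω

/-- (V3b) a leg in the bulk is a crossing strand -/
def V3b : Prop := ∀ (F : Finset (ℤ × ℤ)) (v : ℤ × ℤ) (s t : ℤ) (ω : Cfg), 0 ≤ s → s < t →
  BR v t ⊆ F → ¬ Tilt.NoLeg ZQ ω F (BR v s) (BR v t) → 1 ≤ NF Set.univ v s t ω

/-- (V4) one strand crosses an annulus in the bulk -/
def V4 : Prop := ∃ C β : ℝ, 0 < C ∧ 0 < β ∧ ∀ (v : ℤ × ℤ) (s t : ℤ) (W : Finset (ℤ × ℤ)), 1 ≤ s → s ≤ t →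
  BR v t ⊆ W → pr W {ω | 1 ≤ NF Set.univ v s t ω} ≤ C * ((s : ℝ) / t) ^ β

/-- (NET) the strands of a rectangle which separate the ends of the column: `P` is a class of strands, `w` is
constant on directed strands and odd. -/
def NET : Prop := ∀ (x₀ x₁ y₀ y₁ x y y' : ℤ) (ω : Cfg), x₀ < x₁ → x₀ ≤ x → x ≤ x₁ → y₀ ≤ y' → y' ≤ y → y ≤ y₁ →
  ∀ (P : DZ → Prop) (w : DZ → ℝ) (c : ℝ), 0 ≤ c →
  (∀ e e', e ∈ dE ZQ (RF x₀ x₁ y₀ y₁) → SRel ZQ (RF x₀ x₁ y₀ y₁) ω e e' → P e → P e') →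
  (∀ e, P e → P e.swap) →
  (∀ e e', e ∈ dE ZQ (RF x₀ x₁ y₀ y₁) → SRel ZQ (RF x₀ x₁ y₀ y₁) ω e e' → P e → w e' = w e) →
  (∀ e, P e → w e.swap = - w e) → (∀ e, P e → |w e| ≤ c) →
  ∃ S : Finset UE, (∀ b ∈ S, ∃ j ∈ Finset.Ico y' y, b = (x, j, true) ∧ P (WEnv.pe x j)) ∧
    Diff ω (RF x₀ x₁ y₀ y₁ : Set (ℤ × ℤ)) S ∧
    (∀ b ∈ S, ∀ Φ, IsPot (RF x₀ x₁ y₀ y₁ : Set (ℤ × ℤ)) (MM ω (RF x₀ x₁ y₀ y₁) b) Φ →
      Φ (x, y) ≠ Φ (x, y')) ∧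
    (open Classical in |∑ j ∈ Finset.Ico y' y, if P (WEnv.pe x j) then w (WEnv.pe x j) else 0|) ≤
      c * S.card

/-- (V5) loops around an end point of the column, one scale -/
def V5 : Prop := ∃ C : ℝ, 0 < C ∧ ∀ (S : Finset (ℤ × ℤ)) (x y y' s : ℤ) (v : ℤ × ℤ),
  (v = (x, y) ∨ v = (x, y')) → 1 ≤ s → 2 * s < y - y' → BR v (2 * s) ⊆ S →
  av S (fun ω => |clS (BR v (2 * s)) x y y' ω - clS (BR v s) x y y' ω|) ≤ C

/-- (V5') the first scale -/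
def V5' : Prop := ∃ C : ℝ, 0 < C ∧ ∀ (S : Finset (ℤ × ℤ)) (x y y' : ℤ) (v : ℤ × ℤ),
  av S (fun ω => |clS (BR v 1) x y y' ω|) ≤ C

/-- (V6) the other strands of scale `r` -/
def V6 : Prop := ∃ C : ℝ, 0 < C ∧ ∀ (S : Finset (ℤ × ℤ)) (x y y' r s : ℤ), 0 ≤ x → x ≤ 1 → 64 ≤ r →
  r ≤ 4 * y' → y ≤ 2 * r → r ≤ 8 * (y - y') → r ≤ 64 * s → 16 * s ≤ r → HB0 (4 * r) ⊆ S →
  av S (fun ω => |fIn (4 * r) x y y' ω - clS (BR (x, y) s) x y y' ω - clS (BR (x, y') s) x y y' ω|) ≤ C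

/-- (V7) strands which go from `HB0 r` to distance `R` -/
def V7 : Prop := ∃ C : ℝ, 0 < C ∧ ∀ (S : Finset (ℤ × ℤ)) (x y y' r R R' : ℤ), 0 ≤ x → x ≤ 1 → 1 ≤ r →
  0 ≤ y' → y' ≤ y → y ≤ r → 2 * r ≤ R → R ≤ R' → R' ≤ 2 * R → HB0 R' ⊆ S →
  av S (fun ω => |fIn R' x y y' ω - fIn R x y y' ω|) ≤ C * ((r : ℝ) / R)

end

end Pool.Agent.SixB.W3
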