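import Pool.Agent.Lib.SixB.S4W1
import Pool.Agent.Lib.SixB.S4W3Defs
import Pool.Agent.Lib.SixB.S4LegDefs
import Pool.Agent.Lib.SixB.S3Cross

/-!
# 6BD step 4, row W2, part (B2): counting

The strands of `HB0 R` which meet the two columns next to the axis below the height `r` and which are not
complete in `HB0 R` cross the half ring `HR r R`: the number of different ones is at most `nH ω r R`.
* `bS_cases`: the boundary sides of `HB0 w`.
* `leg_of_ter`: a strand which leaves `HB0 R` through a side which is not in the wall contains a member of `Crs`.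
* `card_not_full`: the count.
* `full_srel`, `full_swap`: `Full` is a property of strands.
* `abs_gOut_le`: with `W3.NET`, `|gOut| ≤ c * nH ω r R` if the numerators are at most `c`.
-/

set_option autoImplicit false
set_option linter.unusedSectionVars false

namespace Pool.Agent.SixB.W2a

open Pool.Agent.Perc Pool.Agent.Perc.Q Relation
open Pool.Agent.SixB.Tilt Pool.Agent.SixB.Leg

noncomputable section

variable {ω : Cfg} {a b c e : DZ} {r R w : ℤ}

theorem sd0 (u v : ℤ) : sd ZQ (u, v) 0 = ((u, v), (u + 1, v)) := rfl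

theorem sd1 (u v : ℤ) : sd ZQ (u, v) 1 = ((u + 1, v), (u + 1, v + 1)) := rfl

theorem sd2 (u v : ℤ) : sd ZQ (u, v) 2 = ((u + 1, v + 1), (u, v + 1)) := rfl

theorem sd3 (u v : ℤ) : sd ZQ (u, v) 3 = ((u, v + 1), (u, v)) := rfl

theorem pe_sd (x j : ℤ) : WEnv.pe x j = sd ZQ (x, j) 3 := rfl

theorem und_pe (x j : ℤ) : und (WEnv.pe x j) = (x, j, true) := by
  unfold WEnv.pe und
  rw [if_pos rfl]
  simp

/-- The boundary sides of a half box: wall or left, top, right. -/
theorem bS_cases (ha : a ∈ bS ZQ (HB0 w)) : a ∈ wS w ∨ BdH w (und a) := by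
  obtain ⟨⟨⟨u, v⟩, hf, k, rfl⟩, h2⟩ := mem_bS_ah.mp ha
  rw [mem_HB0] at hf
  simp only at hf
  rcases k4 k with rfl | rfl | rfl | rfl
  · left
    have h3 : v = 0 := by
      by_contra hv
      refine h2 ⟨(u, v - 1), mem_HB0.mpr (by simp only; omega), 2, ?_⟩
      rw [sd0, sd2, sub_add_cancel]
      rfl
    subst h3
    exact mem_wS.mpr ⟨u, hf.1.1, hf.1.2, rfl⟩
  · right
    have h3 : u = w := by
      by_contra hv
      refine h2 ⟨(u + 1, v), mem_HB0.mpr (by simp only; omega), 3, ?_⟩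
      rw [sd1, sd3]
      rfl
    rw [und_sd]
    refine Or.inl ⟨rfl, Or.inr ?_, ?_, ?_⟩
    · change u + 1 = w + 1
      omega
    · change 0 ≤ v
      omega
    · change v < w
      omega
  · right
    have h3 : v + 1 = w := by
      by_contra hv
      refine h2 ⟨(u, v + 1), mem_HB0.mpr (by simp only; omega), 0, ?_⟩
      rw [sd2, sd0]
      rfl
    rw [und_sd]
    refine Or.inr ⟨rfl, ?_, ?_, ?_⟩
    · change v + 1 = w
      omega
    · change -w ≤ u
      omega
    · change u < w + 1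
      omega
  · right
    have h3 : u = -w := by
      by_contra hv
      refine h2 ⟨(u - 1, v), mem_HB0.mpr (by simp only; omega), 1, ?_⟩
      rw [sd3, sd1, sub_add_cancel]
      rfl
    rw [und_sd]
    refine Or.inl ⟨rfl, Or.inl ?_, ?_, ?_⟩
    · change u = -w
      omega
    · change 0 ≤ v
      omega
    · change v < w
      omega

theorem coe_HR : ((HB0 R \ HB0 r : Finset (ℤ × ℤ)) : Set (ℤ × ℤ)) = HR r R := by
  ext f
  rw [Finset.coe_sdiff]
  rfl

/-- The unit edges of the column have a face of `HB0 r` ahead in both directions. -/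
theorem ah_pe {x j : ℤ} (hr : 1 ≤ r) (hx : 0 ≤ x) (hx1 : x ≤ 1) (hj : 0 ≤ j) (hj1 : j < r) :
    Ah ZQ (HB0 r) (WEnv.pe x j) ∧ Ah ZQ (HB0 r) (WEnv.pe x j).swap := by
  constructor
  · exact ⟨(x, j), mem_HB0.mpr (by simp only; omega), 3, rfl⟩
  · refine ⟨(x - 1, j), mem_HB0.mpr (by simp only; omega), 1, ?_⟩
    rw [pe_sd, sd3, sd1, sub_add_cancel]
    rfl

/-- A strand which starts in `HB0 r` and leaves `HB0 R` through a side which is not in the wall. -/
theorem leg_of_ter (hrR : r ≤ R) (he : Ah ZQ (HB0 r) e)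
    (h : ReflTransGen (Nx ZQ ω (HB0 R : Set (ℤ × ℤ))) e b) (hb : b.swap ∈ bS ZQ (HB0 R))
    (hw : b.swap ∉ wS R) :
    ∃ c, und c ∈ Crs ω r R ∧ und c ∈ MM ω (HB0 R : Set (ℤ × ℤ)) (und e) := by
  have hsub : HB0 r ⊆ HB0 R := HB0_mono_sub hrR
  have hb1 : Ah ZQ (HB0 R) b.swap := (mem_bS_ah.mp hb).1
  have hb2 : ¬ Ah ZQ (HB0 R) b := by
    have := (mem_bS_ah.mp hb).2
    rwa [Prod.swap_swap] at this
  have hbB : BdH R (und b) := by
    rcases bS_cases hb with h1 | h1
    · exact absurd h1 hw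
    · rwa [und_swap (mem_dE_ah.mpr (Or.inr hb1))] at h1
  rcases last_visit he h with rfl | ⟨c, h1, ⟨d, h2, h3⟩, h4⟩
  · exact absurd (he.mono hsub) hb2
  · have hc : ¬ Ah ZQ (HB0 r) c := by
      intro hc
      rcases ReflTransGen.cases_head h4 with h5 | ⟨g, h5, -⟩
      · rw [h5] at hc
        exact hb2 (hc.mono hsub)
      · exact ah_disj Finset.disjoint_sdiff hc (ah_left h5)
    have hcS : c.swap ∈ bS ZQ (HB0 r) := mem_bS_ah.mpr ⟨h1, by rwa [Prod.swap_swap]⟩
    have hcE : c ∈ dE ZQ (HB0 r) := mem_dE_ah.mpr (Or.inr h1)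
    have hcB : BdH r (und c) := by
      rcases bS_cases hcS with h5 | h5
      · exfalso
        obtain ⟨i, hi1, hi2, hi3⟩ := mem_wS.mp h5
        have h6 : ¬ Ah ZQ (HB0 R) c := by
          rintro ⟨f, hf, k, h7⟩
          have h8 : (wsd i).swap = sd ZQ f k := by rw [hi3, Prod.swap_swap, h7]
          rw [wsd_swap] at h8
          have h9 := (ZQ.inj (Prod.mk.inj h8).1 (Prod.mk.inj h8).2).1
          rw [← h9, mem_HB0] at hf
          simp only at hf
          omega
        have h7 : c = b := by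
          rcases ReflTransGen.cases_head h4 with h8 | ⟨g, h8, -⟩
          · exact h8
          · exact absurd ((ah_left h8).mono Finset.sdiff_subset) h6
        rw [← h7] at hw
        exact hw (mem_wS.mpr ⟨i, by omega, by omega, hi3⟩)
      · rwa [und_swap hcE] at h5
    refine ⟨c, ⟨hcB, und b, hbB, ?_⟩, ?_⟩
    · rw [← coe_HR]
      exact MM_of_srel (srel_iff.mpr (Or.inl h4))
    · exact MM_of_srel (srel_iff.mpr (Or.inl (ReflTransGen.head h2 h3)))

/-- A strand of the column which is not complete contains a member of `Crs`. -/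
theorem exists_crs {x j : ℤ} (hr : 1 ≤ r) (hrR : r ≤ R) (hx : 0 ≤ x) (hx1 : x ≤ 1) (hj : 0 ≤ j)
    (hj1 : j < r) (h : ¬ Full R ω (WEnv.pe x j)) :
    ∃ t ∈ Crs ω r R, t ∈ MM ω (HB0 R : Set (ℤ × ℤ)) (x, j, true) := by
  obtain ⟨ha1, ha2⟩ := ah_pe hr hx hx1 hj hj1
  have hmem : WEnv.pe x j ∈ dE ZQ (HB0 R) := pe_mem (by omega) hx hx1 hj (by omega)
  unfold Full at h
  push Not at h
  obtain ⟨hc, h2⟩ := h
  have hs := stt_mem hc hmem
  by_cases h3 : stt (HB0 R) ω (WEnv.pe x j) ∈ wS R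
  · have h4 := h2 h3
    have h5 := stt_last hc
    obtain ⟨c, h6, h7⟩ := leg_of_ter (ω := ω) hrR ha1 h5 (by
      rw [Prod.swap_swap]
      exact mate_mem hs) (by rwa [Prod.swap_swap])
    rw [und_pe] at h7
    exact ⟨_, h6, h7⟩
  · obtain ⟨h4, -⟩ := stt_spec hc
    have h5 := rtg_rev h4
    obtain ⟨c, h6, h7⟩ := leg_of_ter (ω := ω) hrR ha2 h5 (by rwa [Prod.swap_swap])
      (by rwa [Prod.swap_swap])
    rw [und_swap hmem, und_pe] at h7
    exact ⟨_, h6, h7⟩

theorem BdH_finite (w : ℤ) : {a : UE | BdH w a}.Finite := by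
  refine Set.Finite.subset (((Finset.Icc (-w - 1) (w + 1) ×ˢ
    (Finset.Icc (-w - 1) (w + 1) ×ˢ (Finset.univ : Finset Bool)) : Finset UE)).finite_toSet) ?_
  rintro ⟨x, y, d⟩ ha
  have h1 : BdH w (x, y, d) := ha
  unfold BdH BdF at h1
  simp only at h1
  rw [Finset.mem_coe, Finset.mem_product, Finset.mem_product, Finset.mem_Icc, Finset.mem_Icc]
  simp only
  refine ⟨by omega, by omega, Finset.mem_univ _⟩

theorem Crs_finite (ω : Cfg) (r R : ℤ) : (Crs ω r R).Finite :=
  (BdH_finite r).subset fun _ h => h.1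

/-- **(B2)** The number of the different strands of the column which are not complete in `HB0 R` is at most the
number of the strands which cross `HR r R`. -/
theorem card_not_full (hr : 1 ≤ r) (hrR : r ≤ R) {S : Finset UE}
    (hS : Diff ω (HB0 R : Set (ℤ × ℤ)) S)
    (h : ∀ b ∈ S, ∃ x j : ℤ, b = (x, j, true) ∧ 0 ≤ x ∧ x ≤ 1 ∧ 0 ≤ j ∧ j < r ∧
      ¬ Full R ω (WEnv.pe x j)) : S.card ≤ nH ω r R := by
  have H : ∀ b ∈ S, ∃ t, t ∈ Crs ω r R ∧ t ∈ MM ω (HB0 R : Set (ℤ × ℤ)) b := by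
    intro b hb
    obtain ⟨x, j, rfl, h1, h2, h3, h4, h5⟩ := h b hb
    exact exists_crs hr hrR h1 h2 h3 h4 h5
  choose! t ht1 ht2 using H
  have hinj : Set.InjOn t (S : Set UE) := by
    intro b hb b' hb' hbb
    have k := ht2 b (Finset.mem_coe.1 hb)
    rw [hbb] at k
    exact hS b (Finset.mem_coe.1 hb) b' (Finset.mem_coe.1 hb')
      (Pool.Agent.PercD.MM_trans k (Pool.Agent.PercD.MM_symm (ht2 b' (Finset.mem_coe.1 hb'))))
  have h1 : (t '' (S : Set UE)).ncard = S.card := by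
    rw [hinj.ncard_image, Set.ncard_coe_finset]
  rw [← h1]
  refine Set.ncard_le_ncard ?_ (Crs_finite ω r R)
  rintro _ ⟨b, hb, rfl⟩
  exact ht1 b (Finset.mem_coe.1 hb)

/-! ## `Full` is a property of strands -/

section General

variable {F : Finset (ℤ × ℤ)} {e' : DZ}

theorem stt_srel (hc : ¬ Clo ZQ F ω e) (h : SRel ZQ F ω e e') : stt F ω e' = stt F ω e := by
  have hc' : ¬ Clo ZQ F ω e' := fun hh => hc (hh.of_srel (EqvGen.symm _ _ h))
  obtain ⟨h1, h2⟩ := stt_spec hc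
  obtain ⟨h3, h4⟩ := stt_spec hc'
  rcases srel_iff.mp h with h5 | h5
  · exact stt_eq h2 (ReflTransGen.trans h1 h5)
  · exact (stt_eq h4 (ReflTransGen.trans h3 h5)).symm

theorem stt_swap (hc : ¬ Clo ZQ F ω e) :
    stt F ω e.swap = mate ZQ F ω (stt F ω e) ∧
      mate ZQ F ω (mate ZQ F ω (stt F ω e)) = stt F ω e := by
  obtain ⟨h1, h2⟩ := stt_spec hc
  have h3 := stt_last hc
  have h4 : Ini ZQ (F : Set (ℤ × ℤ)) (mate ZQ F ω (stt F ω e)) := by
    have := (lst_spec (Q := ZQ) (ω := ω) h2).2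
    unfold mate
    exact ini_swap.mpr this
  have h5 := rtg_rev h3
  rw [Prod.swap_swap] at h5
  refine ⟨stt_eq h4 h5, ?_⟩
  have h6 := mate_unique (ω := ω) h4 (ter_swap.mpr h2)
    (srel_iff.mpr (Or.inl (ReflTransGen.trans h5 (rtg_rev h1))))
  rwa [Prod.swap_swap] at h6

end General

theorem full_srel {e' : DZ} (h : SRel ZQ (HB0 R) ω e e') (hf : Full R ω e) : Full R ω e' := by
  by_cases hc : Clo ZQ (HB0 R) ω e
  · exact Or.inl (hc.of_srel h)
  · rcases hf with h1 | h1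
    · exact absurd h1 hc
    · right
      rwa [stt_srel hc h]

theorem full_swap (hf : Full R ω e) : Full R ω e.swap := by
  by_cases hc : Clo ZQ (HB0 R) ω e
  · exact Or.inl (clo_swap.mpr hc)
  · rcases hf with h1 | h1
    · exact absurd h1 hc
    · obtain ⟨h2, h3⟩ := stt_swap hc
      right
      rw [h2, h3]
      exact ⟨h1.2, h1.1⟩

/-- The contribution of the strands which are not complete in `HB0 R`. -/
theorem abs_gOut_le (hN : W3.NET) {E : WEnv} (hsub : HB0 R ⊆ E.F)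
    (hsr : ∀ e e', e ∈ dE ZQ E.F → SRel ZQ E.F ω e e' → E.num ω e' = E.num ω e)
    (hsw : ∀ e ∈ dE ZQ E.F, E.num ω e.swap = -E.num ω e) {k : ℝ} (hk : 0 ≤ k)
    (hb : ∀ e ∈ dE ZQ (HB0 R), |E.num ω e| ≤ k) {x y y' : ℤ} (hx : 0 ≤ x) (hx1 : x ≤ 1)
    (hy' : 0 ≤ y') (hyy : y' ≤ y) (hyr : y ≤ r) (hr : 1 ≤ r) (hrR : r ≤ R) :
    |gOut E R x y y' ω| ≤ k * (nH ω r R : ℝ) := by
  classical
  obtain ⟨S, h1, h2, -, h3⟩ := hN (-R) (R + 1) 0 R x y y' ω (by omega) (by omega) (by omega) hy' hyy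
    (by omega) (fun e => e ∈ dE ZQ (HB0 R) ∧ ¬ Full R ω e) (fun e => E.num ω e) k hk
    (fun e e' he h hp => ⟨srel_dE h he, fun hf => hp.2 (full_srel (EqvGen.symm _ _ h) hf)⟩)
    (fun e hp => ⟨swap_mem_dE.mpr hp.1, fun hf => hp.2 (by
      have := full_swap hf
      rwa [Prod.swap_swap] at this)⟩)
    (fun e e' he h hp => hsr e e' (dE_mono hsub he) (SRel.mono hsub h))
    (fun e hp => hsw e (dE_mono hsub hp.1)) (fun e hp => hb e hp.1)
  have h4 : S.card ≤ nH ω r R := by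
    refine card_not_full hr hrR h2 fun b hb => ?_
    obtain ⟨j, hj, h5, h6⟩ := h1 b hb
    rw [Finset.mem_Ico] at hj
    exact ⟨x, j, h5, hx, hx1, by omega, by omega, h6.2⟩
  have h5 : gOut E R x y y' ω = ∑ j ∈ Finset.Ico y' y,
      @ite ℝ (WEnv.pe x j ∈ dE ZQ (HB0 R) ∧ ¬ Full R ω (WEnv.pe x j)) (Classical.propDecidable _)
        (E.num ω (WEnv.pe x j)) 0 := by
    unfold gOut
    refine Finset.sum_congr rfl fun j hj => ?_
    rw [Finset.mem_Ico] at hj
    have h6 := pe_mem (R := R) (x := x) (j := j) (by omega) hx hx1 (by omega) (by omega)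
    by_cases h7 : Full R ω (WEnv.pe x j)
    · rw [if_pos h7, if_neg (fun h => h.2 h7)]
    · rw [if_neg h7, if_pos ⟨h6, h7⟩]
  rw [h5]
  refine h3.trans ?_
  exact mul_le_mul_of_nonneg_left (by exact_mod_cast h4) hk

end

end Pool.Agent.SixB.W2a
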