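import Pool.Agent.Lib.SixB.S4W2b
import Pool.Agent.Lib.SixB.S4W2a
import Pool.Agent.Lib.SixB.S4LegQ
import Pool.Agent.Lib.SixB.S4FF

/-!
# 6BD step 4, row SW2 from the one leg theorem

`sw2_of`: (SW2) from `Leg.OneLegThm` and `W3.NET`.
-/

set_option autoImplicit false

namespace Pool.Agent.SixB.LegG

open Pool.Agent.SixB Pool.Agent.SixB.Tilt Pool.Agent.Perc Pool.Agent.Perc.Q Relation

noncomputable section

theorem exr_eq_av (S : Finset (ℤ × ℤ)) (g : Cfg → ℝ) : exr S g = av S g := by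
  unfold exr av
  congr 1

theorem outerStable : OuterStable := fun _ _ _ hE _ _ _ _ _ _ _ _ _ h1 h2 h3 h4 h5 h6 h7 h8 h9 h10 h11 h12
    h13 h14 => outer_stable hE h1 h2 h3 h4 h5 h6 h7 h8 h9 h10 h11 h12 h13 h14

theorem sw2_of (h1 : Leg.OneLegThm) (hN : W3.NET) : SW2 := by
  obtain ⟨C, c, hC, hc, h1⟩ := h1
  refine ⟨4 * C, c, by positivity, hc, ?_⟩
  intro E d M hE R r y y' hr hy' hyy hyr hrR hRd
  obtain ⟨H, hH1, hH2, hH3, hH4⟩ := hE.maj
  have hd := hE.hd
  have hH0 : ∀ ω, 0 ≤ H ω := fun ω => (abs_nonneg _).trans (hH2 ω)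
  have hF : HB0 (R + 1) ⊆ E.F := (HB0_mono_sub (by omega)).trans hE.sub
  have hRF : HB0 R ⊆ E.F := (HB0_mono_sub (by omega)).trans hE.sub
  have key := h1 E.F (fun ω => gOut E R 0 y y' ω + gOut E R 1 y y' ω) (fun ω => 4 * H ω) r R hr hrR
    hRF (fun ω => by have := hH0 ω; linarith) ?_ ?_ ?_
  · rw [exr_eq_av, exr_eq_av, av_mul] at key
    have hr0 : (0 : ℝ) ≤ ((r : ℝ) / R) ^ (1 + c) :=
      Real.rpow_nonneg (div_nonneg (by exact_mod_cast (by omega : 0 ≤ r))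
        (by exact_mod_cast (by omega : 0 ≤ R))) _
    refine key.trans ?_
    calc C * ((r : ℝ) / R) ^ (1 + c) * (4 * av E.F H) ≤ C * ((r : ℝ) / R) ^ (1 + c) * (4 * (M * E.Z)) := by
          gcongr
      _ = 4 * C * M * E.Z * ((r : ℝ) / R) ^ (1 + c) := by ring
  · intro ω
    have hb : ∀ x : ℤ, 0 ≤ x → x ≤ 1 → |gOut E R x y y' ω| ≤ 2 * H ω * (Leg.nH ω r R : ℝ) :=
      fun x hx hx1 => W2a.abs_gOut_le hN hRF (fun _ _ _ h => num_srel E h) (fun _ h => num_swap E h)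
        (by have := hH0 ω; linarith)
        (fun e he => hH3 ω e (dE_mono (HB0_mono_sub (by omega)) he)) hx hx1 hy' hyy hyr hr (by omega)
    have b0 := hb 0 le_rfl (by norm_num)
    have b1 := hb 1 (by norm_num) le_rfl
    have b2 := abs_add_le (gOut E R 0 y y' ω) (gOut E R 1 y y' ω)
    linarith
  · intro ω ω' h
    change 4 * H ω = 4 * H ω'
    rw [hH1 ω ω' fun f hf => h f ?_]
    intro hh
    have h2 : f ∈ E.F \ HB0 d := by exact_mod_cast hf
    exact (Finset.mem_sdiff.mp h2).2 (HB0_mono_sub (by omega) hh)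
  · intro a b a' b' hra hab hba hab' hbR ω ω' hoff hmir n1 n2 n3 n4
    have hN : ∀ b : ℤ, b ≤ R → LegQ.Nbd E.F b := fun b hb => LegQ.nbd_of_wallAt hE (by omega)
    obtain ⟨B1, B1'⟩ := LegQ.oneLeg_of_nH (by omega) hab (hN b (by omega)) n1
    obtain ⟨-, B2⟩ := LegQ.oneLeg_of_nH (by omega) hab' (hN b' (by omega)) n2
    have B3 := LegQ.leg_of_nH (by omega) (by omega) (hN b' (by omega)) n3
    have B4 := LegQ.leg_of_nH (by omega) (by omega) (hN b' (by omega)) n4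
    have hm : ∀ f ∈ HB0 b, ω' (mf f) = !ω f := by
      intro f hf
      have h1 : mf f ∈ HB0 b := by
        rw [← image_mf_HB0]
        exact Finset.mem_image_of_mem _ hf
      have h2 := hmir (mf f) h1
      change ω' (mf f) = !ω (mf (mf f)) at h2
      rwa [mf_mf] at h2
    exact anti_of outerStable hE hr hra hab hba hab' hbR (by omega) hy' hyr hoff hm B1' B2 B1 B3 B4

end

end Pool.Agent.SixB.LegG
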