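import Pool.Agent.Lib.SixB.S4W3Defs
import Pool.Agent.Lib.SixB.S4Strands
import Pool.Agent.Lib.SixB.S4Plane

/-!
# 6BD step 4, row W3: net crossings of a column (NET)

`net : NET`: the sum over the unit edges of a column of a function which is constant along directed strands and
odd is at most `c` times the number of strands (undirected) which separate the ends of the column.
-/

set_option autoImplicit false

namespace Pool.Agent.SixB.W3

open Pool.Agent.SixB Pool.Agent.Perc Pool.Agent.PercD Pool.Agent.Perc.Q Pool.Agent.Perc6 Relation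

noncomputable section

variable {x₀ x₁ y₀ y₁ x y y' j : ℤ} {ω : Cfg}

theorem und_pe (x j : ℤ) : Tilt.und (WEnv.pe x j) = (x, j, true) := by
  unfold WEnv.pe Tilt.und
  rw [if_pos rfl]
  simp

/-- the unit edge of the column is a side of a face of the rectangle -/
theorem pe_face (h01 : x₀ < x₁) (h0 : x₀ ≤ x) (h1 : x ≤ x₁) (hj : y₀ ≤ j) (hj' : j < y₁) :
    ∃ f ∈ RF x₀ x₁ y₀ y₁, ∃ k : ZMod 4, WEnv.pe x j = sd ZQ f k ∨ WEnv.pe x j = (sd ZQ f k).swap := by
  rcases lt_or_ge x x₁ with h | h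
  · refine ⟨(x, j), ?_, 3, Or.inl rfl⟩
    rw [← Finset.mem_coe, mem_RF']
    simp only
    omega
  · refine ⟨(x - 1, j), ?_, 1, Or.inr ?_⟩
    · rw [← Finset.mem_coe, mem_RF']
      simp only
      omega
    · change ((x, j + 1), (x, j)) = ((x - 1 + 1, j + 1), (x - 1 + 1, j))
      rw [sub_add_cancel]

theorem pe_dE (h01 : x₀ < x₁) (h0 : x₀ ≤ x) (h1 : x ≤ x₁) (hj : y₀ ≤ j) (hj' : j < y₁) :
    WEnv.pe x j ∈ dE ZQ (RF x₀ x₁ y₀ y₁) := by
  obtain ⟨f, hf, k, h⟩ := pe_face (y₀ := y₀) (y₁ := y₁) h01 h0 h1 hj hj'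
  exact mem_dE.mpr ⟨f, hf, k, h⟩

theorem sum_Ico_top {M : Type} [AddCommMonoid M] (f : ℤ → M) {a b : ℤ} (h : a ≤ b) :
    ∑ k ∈ Finset.Ico a (b + 1), f k = (∑ k ∈ Finset.Ico a b, f k) + f b := by
  have h1 : Finset.Ico a (b + 1) = insert b (Finset.Ico a b) := by
    ext k
    rw [Finset.mem_insert, Finset.mem_Ico, Finset.mem_Ico]
    omega
  rw [h1, Finset.sum_insert (by simp), add_comm]

/-- the left indicator along the column -/
theorem lft_col {A : Finset (ℤ × ℤ)} {X : Finset DZ} {L : ℤ × ℤ → ℤ} (hL : Tilt.IsLft ZQ A X L)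
    (h : y' ≤ y) (hA : ∀ j, y' ≤ j → j < y → WEnv.pe x j ∈ dE ZQ A) :
    L (x, y) - L (x, y') = ∑ j ∈ Finset.Ico y' y,
      ((if WEnv.pe x j ∈ X then (1 : ℤ) else 0) - (if (WEnv.pe x j).swap ∈ X then 1 else 0)) := by
  induction y, h using Int.leInduction with
  | base => simp
  | succ y hy ih =>
    rw [sum_Ico_top _ hy, ← ih fun j h1 h2 => hA j h1 (by omega), ← hL.inc _ (hA y hy (by omega))]
    unfold WEnv.pe
    ring

theorem net : NET := by
  classical
  intro x₀ x₁ y₀ y₁ x y y' ω h01 hx0 hx1 hy0 hyy hy1 P w c hc hP hPs hw hws hwc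
  set A := RF x₀ x₁ y₀ y₁ with hA
  have hcol : ∀ j, y' ≤ j → j < y → WEnv.pe x j ∈ dE ZQ A := fun j h1 h2 =>
    pe_dE h01 hx0 hx1 (by omega) (by omega)
  set J := (Finset.Ico y' y).filter (fun j => P (WEnv.pe x j)) with hJ
  have memJ : ∀ j, j ∈ J ↔ (y' ≤ j ∧ j < y) ∧ P (WEnv.pe x j) := fun j => by
    rw [hJ, Finset.mem_filter, Finset.mem_Ico]
  set b : ℤ → UE := fun j => (x, j, true) with hb
  set cl : ℤ → Finset ℤ := fun j => J.filter (fun k => b k ∈ MM ω (A : Set (ℤ × ℤ)) (b j)) with hcl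
  have memcl : ∀ j k, k ∈ cl j ↔ k ∈ J ∧ b k ∈ MM ω (A : Set (ℤ × ℤ)) (b j) := fun j k => by
    rw [hcl, Finset.mem_filter]
  have self_cl : ∀ j ∈ J, j ∈ cl j := fun j hj => (memcl j j).mpr ⟨hj, mem_MM_self⟩
  have symm_cl : ∀ j ∈ J, ∀ k, k ∈ cl j → j ∈ cl k := fun j hj k hk =>
    (memcl k j).mpr ⟨hj, MM_symm ((memcl j k).mp hk).2⟩
  have cl_eq : ∀ j ∈ J, ∀ k, k ∈ cl j → cl k = cl j := by
    intro j hj k hk
    have h1 := (memcl j k).mp hk
    ext i
    rw [memcl, memcl]
    constructor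
    · rintro ⟨h2, h3⟩
      exact ⟨h2, MM_trans h1.2 h3⟩
    · rintro ⟨h2, h3⟩
      exact ⟨h2, MM_trans (MM_symm h1.2) h3⟩
  set rp : ℤ → ℤ := fun j => if h : (cl j).Nonempty then (cl j).min' h else j with hrp
  have rp_mem : ∀ j ∈ J, rp j ∈ cl j := by
    intro j hj
    have h : (cl j).Nonempty := ⟨j, self_cl j hj⟩
    simp only [hrp]
    rw [dif_pos h]
    exact Finset.min'_mem _ _
  have rp_congr : ∀ j k, cl j = cl k → (cl j).Nonempty → rp j = rp k := by
    intro j k h h1
    have h2 : (cl k).Nonempty := h ▸ h1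
    simp only [hrp]
    rw [dif_pos h1, dif_pos h2]
    congr 1
  set R := J.image rp with hR
  have hRJ : ∀ r ∈ R, r ∈ J ∧ rp r = r := by
    intro r hr
    obtain ⟨j, hj, rfl⟩ := Finset.mem_image.mp hr
    have h1 := rp_mem j hj
    have h2 := ((memcl j _).mp h1).1
    exact ⟨h2, rp_congr _ _ (cl_eq j hj _ h1) ⟨_, self_cl _ h2⟩⟩
  have hfib : ∀ r ∈ R, J.filter (fun k => rp k = r) = cl r := by
    intro r hr
    obtain ⟨h1, h2⟩ := hRJ r hr
    ext k
    rw [Finset.mem_filter]
    constructor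
    · rintro ⟨h3, h4⟩
      have h5 := rp_mem k h3
      rw [h4] at h5
      exact symm_cl k h3 r h5
    · intro h3
      have h4 := ((memcl r k).mp h3).1
      refine ⟨h4, ?_⟩
      rw [rp_congr k r (cl_eq r h1 k h3) ⟨k, self_cl k h4⟩, h2]
  -- left indicators
  have hPot : Tilt.HasPotQ ZQ A := Tilt.hasPotQ_of_hasPot (hasPot_RF x₀ x₁ y₀ y₁)
  have hex : ∀ r : ℤ, ∃ L : ℤ × ℤ → ℤ, r ∈ J → Tilt.IsLft ZQ A (dst ZQ A ω (WEnv.pe x r)) L := by
    intro r
    by_cases hr : r ∈ J
    · have h1 := (memJ r).mp hr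
      obtain ⟨L, hL⟩ := Tilt.exists_lft hPot (mem_dstr.mpr ⟨_, hcol r h1.1.1 h1.1.2, rfl⟩)
      exact ⟨L, fun _ => hL⟩
    · exact ⟨fun _ => 0, fun h => absurd h hr⟩
  choose L hL using hex
  have hmem : ∀ r ∈ J, ∀ k, y' ≤ k → k < y → (b k ∈ MM ω (A : Set (ℤ × ℤ)) (b r) ↔
      WEnv.pe x k ∈ dst ZQ A ω (WEnv.pe x r) ∨ (WEnv.pe x k).swap ∈ dst ZQ A ω (WEnv.pe x r)) := by
    intro r hr k h1 h2
    have h3 := (memJ r).mp hr
    have := Tilt.MM_iff_dst (ω := ω) (hcol r h3.1.1 h3.1.2) (hcol k h1 h2)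
    rw [und_pe, und_pe] at this
    exact this
  have hnot : ∀ r ∈ J, ∀ k, WEnv.pe x k ∈ dst ZQ A ω (WEnv.pe x r) →
      (WEnv.pe x k).swap ∉ dst ZQ A ω (WEnv.pe x r) := by
    intro r hr k h1 h2
    rw [mem_dst] at h1 h2
    exact not_srel_swap Tilt.zq_noLoop h1.1
      (Relation.EqvGen.trans _ _ _ (Relation.EqvGen.symm _ _ h1.2) h2.2)
  have hclass : ∀ r ∈ J, ∑ k ∈ cl r, w (WEnv.pe x k) =
      ((L r (x, y) - L r (x, y') : ℤ) : ℝ) * w (WEnv.pe x r) := by
    intro r hr
    have hPr := ((memJ r).mp hr).2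
    have hrE := hcol r ((memJ r).mp hr).1.1 ((memJ r).mp hr).1.2
    rw [lft_col (hL r hr) hyy hcol]
    have e1 : cl r = (Finset.Ico y' y).filter (fun k => P (WEnv.pe x k) ∧
        b k ∈ MM ω (A : Set (ℤ × ℤ)) (b r)) := by
      ext k
      rw [memcl, memJ, Finset.mem_filter, Finset.mem_Ico]
      tauto
    rw [e1, Finset.sum_filter]
    push_cast
    rw [Finset.sum_mul]
    refine Finset.sum_congr rfl fun k hk => ?_
    rw [Finset.mem_Ico] at hk
    have hm := hmem r hr k hk.1 hk.2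
    by_cases h1 : WEnv.pe x k ∈ dst ZQ A ω (WEnv.pe x r)
    · have h2 := hnot r hr k h1
      have h3 := (mem_dst.mp h1).2
      rw [if_pos ⟨hP _ _ hrE h3 hPr, hm.mpr (Or.inl h1)⟩, if_pos h1, if_neg h2,
        hw _ _ hrE h3 hPr]
      ring
    · by_cases h2 : (WEnv.pe x k).swap ∈ dst ZQ A ω (WEnv.pe x r)
      · have h3 := (mem_dst.mp h2).2
        have h4 := hP _ _ hrE h3 hPr
        have h5 := hPs _ h4
        rw [Prod.swap_swap] at h5
        have h6 := hws _ h4
        rw [Prod.swap_swap, hw _ _ hrE h3 hPr] at h6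
        rw [if_pos ⟨h5, hm.mpr (Or.inr h2)⟩, if_neg h1, if_pos h2, h6]
        ring
      · rw [if_neg (fun h => by
          rcases hm.mp h.2 with h3 | h3
          · exact h1 h3
          · exact h2 h3), if_neg h1, if_neg h2]
        ring
  set R' := R.filter (fun r => L r (x, y) ≠ L r (x, y')) with hR'
  refine ⟨R'.image b, ?_, ?_, ?_, ?_⟩
  · intro e he
    obtain ⟨r, hr, rfl⟩ := Finset.mem_image.mp he
    have h1 := (hRJ r (Finset.mem_filter.mp hr).1).1
    have h2 := (memJ r).mp h1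
    exact ⟨r, Finset.mem_Ico.mpr h2.1, rfl, h2.2⟩
  · intro e he e' he' h
    obtain ⟨r, hr, rfl⟩ := Finset.mem_image.mp he
    obtain ⟨s, hs, rfl⟩ := Finset.mem_image.mp he'
    obtain ⟨h1, h2⟩ := hRJ r (Finset.mem_filter.mp hr).1
    obtain ⟨h3, h4⟩ := hRJ s (Finset.mem_filter.mp hs).1
    have h5 : s ∈ cl r := (memcl r s).mpr ⟨h3, h⟩
    have h6 := rp_congr s r (cl_eq r h1 s h5) ⟨s, self_cl s h3⟩
    rw [h2, h4] at h6
    rw [h6]
  · intro e he Φ hΦ
    obtain ⟨r, hr, rfl⟩ := Finset.mem_image.mp he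
    obtain ⟨h1, h2⟩ := Finset.mem_filter.mp hr
    obtain ⟨h3, -⟩ := hRJ r h1
    have key : ∀ t, y' ≤ t → t ≤ y →
        Φ (x, t) - Φ (x, y') = ((L r (x, t) - L r (x, y') : ℤ) : ZMod 2) := by
      intro t ht
      induction t, ht using Int.leInduction with
      | base => intro _; simp
      | succ t ht ih =>
        intro ht'
        have ih' := ih (by omega)
        have hinc := (hL r h3).inc _ (hcol t ht (by omega))
        have hm := hmem r h3 t ht (by omega)
        obtain ⟨f, hf, k, hk⟩ := pe_face (y₀ := y₀) (y₁ := y₁) h01 hx0 hx1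
          (by omega : y₀ ≤ t) (by omega)
        have hside : IsSide f (b t) := by
          have h5 : Tilt.su f k = b t := by
            rcases hk with hk | hk
            · rw [← Tilt.und_sd, ← hk, und_pe]
            · rw [← Tilt.und_sd_swap, ← hk, und_pe]
          rw [← h5]
          exact Tilt.su_isSide f k
        have hpot := hΦ f (by exact_mod_cast hf) (b t) hside
        have hua : ua (b t) = (x, t) := ua_mk x t true
        have hub : ub (b t) = (x, t + 1) := ub_true x t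
        rw [hua, hub] at hpot
        have hpe : (WEnv.pe x t).1 = (x, t + 1) ∧ (WEnv.pe x t).2 = (x, t) := ⟨rfl, rfl⟩
        rw [hpe.1, hpe.2] at hinc
        have e1 : L r (x, t + 1) - L r (x, y') =
            (L r (x, t + 1) - L r (x, t)) + (L r (x, t) - L r (x, y')) := by ring
        rw [e1, Int.cast_add, ← ih', hinc]
        by_cases h6 : WEnv.pe x t ∈ dst ZQ A ω (WEnv.pe x r)
        · have h7 := hnot r h3 t h6
          have h8 := hpot.mp (hm.mpr (Or.inl h6))
          rw [if_pos h6, if_neg h7]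
          push_cast
          have hz : ∀ p q s : ZMod 2, p ≠ q → q - s = 1 - 0 + (p - s) := by decide
          exact hz _ _ _ h8
        · by_cases h7 : (WEnv.pe x t).swap ∈ dst ZQ A ω (WEnv.pe x r)
          · have h8 := hpot.mp (hm.mpr (Or.inr h7))
            rw [if_neg h6, if_pos h7]
            push_cast
            have hz : ∀ p q s : ZMod 2, p ≠ q → q - s = 0 - 1 + (p - s) := by decide
            exact hz _ _ _ h8
          · have h8 : ¬ b t ∈ MM ω (A : Set (ℤ × ℤ)) (b r) := by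
              rw [hm]
              tauto
            have h9 : Φ (x, t) = Φ (x, t + 1) := by
              by_contra h9
              exact h8 (hpot.mpr h9)
            rw [if_neg h6, if_neg h7, ← h9]
            simp
    have h4 := key y hyy le_rfl
    intro h5
    rw [h5, sub_self] at h4
    have h6 := (hL r h3).val (x, y)
    have h7 := (hL r h3).val (x, y')
    rcases h6 with h6 | h6 <;> rcases h7 with h7 | h7
    · exact h2 (h6.trans h7.symm)
    · rw [h6, h7] at h4
      revert h4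
      decide
    · rw [h6, h7] at h4
      revert h4
      decide
    · exact h2 (h6.trans h7.symm)
  · have hcard : (R'.image b).card = R'.card := by
      refine Finset.card_image_of_injective _ fun s t h => ?_
      simp only [hb, Prod.mk.injEq] at h
      exact h.2.1
    rw [hcard]
    have e1 : (∑ j ∈ Finset.Ico y' y, if P (WEnv.pe x j) then w (WEnv.pe x j) else 0) =
        ∑ r ∈ R, ((L r (x, y) - L r (x, y') : ℤ) : ℝ) * w (WEnv.pe x r) := by
      rw [← Finset.sum_filter, ← hJ, ← Finset.sum_fiberwise_of_maps_to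
        (g := rp) (t := R) fun j hj => Finset.mem_image_of_mem rp hj]
      refine Finset.sum_congr rfl fun r hr => ?_
      rw [hfib r hr, hclass r (hRJ r hr).1]
    rw [e1]
    have e2 : ∑ r ∈ R, ((L r (x, y) - L r (x, y') : ℤ) : ℝ) * w (WEnv.pe x r) =
        ∑ r ∈ R', ((L r (x, y) - L r (x, y') : ℤ) : ℝ) * w (WEnv.pe x r) := by
      rw [hR', Finset.sum_filter]
      refine Finset.sum_congr rfl fun r _ => ?_
      by_cases h : L r (x, y) ≠ L r (x, y')
      · rw [if_pos h]
      · rw [if_neg h]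
        push Not at h
        rw [h]
        simp
    rw [e2]
    calc |∑ r ∈ R', ((L r (x, y) - L r (x, y') : ℤ) : ℝ) * w (WEnv.pe x r)|
        ≤ ∑ r ∈ R', |((L r (x, y) - L r (x, y') : ℤ) : ℝ) * w (WEnv.pe x r)| :=
          Finset.abs_sum_le_sum_abs _ _
      _ ≤ ∑ r ∈ R', c := by
          refine Finset.sum_le_sum fun r hr => ?_
          have h3 := (hRJ r (Finset.mem_filter.mp hr).1).1
          rw [abs_mul]
          have h4 : |((L r (x, y) - L r (x, y') : ℤ) : ℝ)| ≤ 1 := by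
            have := (hL r h3).abs_le (x, y) (x, y')
            rw [← Int.cast_abs]
            exact_mod_cast this
          have h5 := hwc _ ((memJ r).mp h3).2
          calc |((L r (x, y) - L r (x, y') : ℤ) : ℝ)| * |w (WEnv.pe x r)| ≤ 1 * c :=
                mul_le_mul h4 h5 (abs_nonneg _) zero_le_one
            _ = c := one_mul c
      _ = c * R'.card := by
          rw [Finset.sum_const, nsmul_eq_mul]
          ring

end

end Pool.Agent.SixB.W3
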