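import Pool.Agent.Lib.SixB.S3Cross

/-!
# 6BD, step 3: strands of large extent

`BT`: strands from bottom to top of a rectangle, `KB`: a count which bounds the number of the strands
of extent at least `2 n` of an arbitrary set of faces in a box of size `L n`; all exponential moments
are bounded.
-/

set_option autoImplicit false

namespace Pool.Agent.SixB

open Finset Pool.Agent.Perc Pool.Agent.PercD Pool.Agent.PercN

variable {ω : Cfg}

/-! ### Bottom to top -/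

theorem symT_s (a : UE) : symT.s a = (a.2.1, a.1, !a.2.2) := rfl

theorem ua_symT (a : UE) : ua (symT.s a) = ((ua a).2, (ua a).1) := rfl

theorem ub_symT (a : UE) : ub (symT.s a) = ((ub a).2, (ub a).1) := by
  obtain ⟨x, y, d⟩ := a
  rw [symT_s]
  cases d
  · simp [ub]
  · simp [ub]

/-- The number of strands which cross a rectangle from bottom to top. -/
noncomputable def BT (ω : Cfg) (x₀ x₁ y₀ y₁ : ℤ) : ℕ := (LT (symT.act ω) y₀ y₁ x₀ x₁).card

theorem image_symT (x₀ x₁ y₀ y₁ : ℤ) : (RF x₀ x₁ y₀ y₁).image symT.f = RF y₀ y₁ x₀ x₁ :=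
  (Perc.Sym.maps_T x₀ x₁ y₀ y₁).image_RF

theorem depN_BT (x₀ x₁ y₀ y₁ : ℤ) : DepN (RF x₀ x₁ y₀ y₁ : Set (ℤ × ℤ)) fun ω => BT ω x₀ x₁ y₀ y₁ := by
  intro ω ω' h
  refine depN_LT y₀ y₁ x₀ x₁ _ _ fun f hf => ?_
  have h1 : (f.2, f.1) ∈ (RF x₀ x₁ y₀ y₁ : Set (ℤ × ℤ)) := by
    rw [mem_RF'] at hf ⊢
    simp only
    omega
  have h2 : ∀ ω : Cfg, symT.act ω f = ω (f.2, f.1) := fun ω => by
    show xor false _ = _
    rw [Bool.false_xor]
    rfl
  rw [h2, h2]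
  exact h _ h1

theorem card_le_BT {F : Set (ℤ × ℤ)} {S : Finset UE} {x₀ x₁ y₀ y₁ : ℤ} (h01 : y₀ < y₁)
    (hS : Diff ω F S) (hF : ∀ f ∈ F, y₀ ≤ f.2 → f.2 < y₁ → x₀ ≤ f.1 ∧ f.1 < x₁)
    (h : ∀ b ∈ S, CrossV ω F y₀ y₁ b) : S.card ≤ BT ω x₀ x₁ y₀ y₁ := by
  classical
  have h1 : (S.image symT.s).card = S.card := card_image_of_injective _ symT.s.injective
  rw [← h1]
  refine card_le_LT (ω := symT.act ω) (F := symT.f '' F) h01 ?_ ?_ ?_
  · intro b hb b' hb' hbb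
    obtain ⟨c, hc, rfl⟩ := mem_image.1 hb
    obtain ⟨c', hc', rfl⟩ := mem_image.1 hb'
    rw [hS c hc c' hc' (symT.mem_MM_iff.1 hbb)]
  · rintro f ⟨g, hg, rfl⟩ k1 k2
    exact hF g hg k1 k2
  · intro b hb
    obtain ⟨c, hc, rfl⟩ := mem_image.1 hb
    obtain ⟨⟨a, ha, ha'⟩, a₂, ha₂, ha₂'⟩ := h c hc
    refine ⟨⟨symT.s a, symT.mem_MM_iff.2 ha, ?_⟩, symT.s a₂, symT.mem_MM_iff.2 ha₂, ?_⟩
    · rw [ub_symT]; exact ha'
    · rw [ua_symT]; exact ha₂'

theorem BT_tail (a : ℕ) {s : ℝ} (hs : 0 < s) : ∃ B : ℝ, 0 ≤ B ∧ ∀ (x₀ x₁ y₀ y₁ : ℤ)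
    (W : Finset (ℤ × ℤ)), y₀ < y₁ → x₁ - x₀ ≤ a * (y₁ - y₀) → RF x₀ x₁ y₀ y₁ ⊆ W → ∀ k : ℕ,
      pr W {ω | 16 * k ≤ BT ω x₀ x₁ y₀ y₁ + 15} ≤ B * s ^ k := by
  obtain ⟨B, hB, h⟩ := LT_tail a hs
  refine ⟨B, hB, fun x₀ x₁ y₀ y₁ W h01 hasp hW k => ?_⟩
  rw [pr_eq_of_depOn ((depN_BT x₀ x₁ y₀ y₁).depOn fun n => 16 * k ≤ n + 15) hW]
  have hd : DepOn ((RF x₀ x₁ y₀ y₁).image symT.f : Finset (ℤ × ℤ))
      {ω | 16 * k ≤ (LT ω y₀ y₁ x₀ x₁).card + 15} := by
    rw [image_symT]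
    exact (depN_LT y₀ y₁ x₀ x₁).depOn fun n => 16 * k ≤ n + 15
  have e : pr (RF x₀ x₁ y₀ y₁) {ω | 16 * k ≤ BT ω x₀ x₁ y₀ y₁ + 15} =
      pr (RF x₀ x₁ y₀ y₁) {ω | symT.act ω ∈ {ω | 16 * k ≤ (LT ω y₀ y₁ x₀ x₁).card + 15}} := rfl
  rw [e, Perc.Sym.pr_act symT hd, image_symT]
  exact h y₀ y₁ x₀ x₁ _ h01 hasp (Finset.Subset.refl _) k

theorem BT_moment (a : ℕ) {lam : ℝ} (hlam : 1 ≤ lam) : ∃ C : ℝ, 0 < C ∧ ∀ (x₀ x₁ y₀ y₁ : ℤ)
    (W : Finset (ℤ × ℤ)), y₀ < y₁ → x₁ - x₀ ≤ a * (y₁ - y₀) → RF x₀ x₁ y₀ y₁ ⊆ W →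
      (∑ T ∈ W.powerset, lam ^ BT (cfg T) x₀ x₁ y₀ y₁) / 2 ^ W.card ≤ C := by
  have hl : (0 : ℝ) < lam ^ 16 := by positivity
  obtain ⟨B, hB, h⟩ := BT_tail a (s := 1 / (2 * lam ^ 16)) (by positivity)
  refine ⟨1 + B, by positivity, fun x₀ x₁ y₀ y₁ W h01 hasp hW => ?_⟩
  refine exp_of_tail' (s := 1 / (2 * lam ^ 16)) (by positivity) hB hlam (le_of_eq ?_) W
    (fun ω => BT ω x₀ x₁ y₀ y₁) (h x₀ x₁ y₀ y₁ W h01 hasp hW)
  field_simp

/-! ### Strands of large extent in a box -/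

/-- The number of the crossings of the slabs of width `n` of a box of size `L n`. -/
noncomputable def KB (ω : Cfg) (x₀ y₀ n : ℤ) (L : ℕ) : ℕ :=
  ∑ j ∈ range L, (LT ω (x₀ + n * j) (x₀ + n * (j + 1)) y₀ (y₀ + n * L)).card +
    ∑ j ∈ range L, BT ω x₀ (x₀ + n * L) (y₀ + n * j) (y₀ + n * (j + 1))

/-- The strand of `b` in `F` has horizontal or vertical extent at least `2 n`. -/
def Large (ω : Cfg) (F : Set (ℤ × ℤ)) (n : ℤ) (b : UE) : Prop :=
  ∃ a₁ ∈ MM ω F b, ∃ a₂ ∈ MM ω F b,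
    (ub a₁).1 + 2 * n ≤ (ua a₂).1 ∨ (ub a₁).2 + 2 * n ≤ (ua a₂).2

/-- A strand in the box of horizontal extent at least `2 n` crosses one of the slabs. -/
theorem slab_idx {n x₀ X Y : ℤ} {L : ℕ} (hn : 0 < n) (h0 : x₀ ≤ X) (h1 : X + 2 * n ≤ Y)
    (h2 : Y ≤ x₀ + n * L) : ∃ j < L, X ≤ x₀ + n * j ∧ x₀ + n * ((j : ℤ) + 1) ≤ Y := by
  set j := ((X - x₀ + (n - 1)) / n).toNat with hj
  have hd : 0 ≤ (X - x₀ + (n - 1)) / n := Int.ediv_nonneg (by omega) hn.le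
  have hj' : (j : ℤ) = (X - x₀ + (n - 1)) / n := by rw [hj]; exact Int.toNat_of_nonneg hd
  have e1 := Int.mul_ediv_add_emod (X - x₀ + (n - 1)) n
  have e2 := Int.emod_nonneg (X - x₀ + (n - 1)) hn.ne'
  have e3 := Int.emod_lt_of_pos (X - x₀ + (n - 1)) hn
  rw [← hj'] at e1
  have e4 : n * ((j : ℤ) + 1) = n * j + n := by ring
  refine ⟨j, ?_, by omega, by omega⟩
  by_contra hc
  have : (L : ℤ) ≤ j := by omega
  have := mul_le_mul_of_nonneg_left this hn.le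
  omega

/-- Every unit edge of a nontrivial strand is a side of a face of `F`. -/
theorem side_of_ne {F : Set (ℤ × ℤ)} {a b : UE} (h : a ∈ MM ω F b) (hne : a ≠ b) :
    ∃ f ∈ F, IsSide f a := by
  rcases Relation.ReflTransGen.cases_tail h with h1 | ⟨c, -, f, hf, hm⟩
  · exact absurd h1.symm hne.symm
  · exact ⟨f, hf, hm.right⟩

theorem side_of_large {F : Set (ℤ × ℤ)} {a₁ a₂ b : UE} (h1 : a₁ ∈ MM ω F b)
    (h2 : a₂ ∈ MM ω F b) (hne : a₁ ≠ a₂) : (∃ f ∈ F, IsSide f a₁) ∧ ∃ f ∈ F, IsSide f a₂ :=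
  ⟨side_of_ne (MM_trans (MM_symm h2) h1) hne, side_of_ne (MM_trans (MM_symm h1) h2) hne.symm⟩

theorem card_le_KB {F : Set (ℤ × ℤ)} {S : Finset UE} {x₀ y₀ n : ℤ} {L : ℕ} (hn : 0 < n)
    (hS : Diff ω F S) (hF : F ⊆ (RF x₀ (x₀ + n * L) y₀ (y₀ + n * L) : Set (ℤ × ℤ)))
    (h : ∀ b ∈ S, Large ω F n b) : S.card ≤ KB ω x₀ y₀ n L := by
  classical
  have key : ∀ b ∈ S, (∃ j < L, CrossH ω F (x₀ + n * j) (x₀ + n * ((j : ℤ) + 1)) b) ∨
      ∃ j < L, CrossV ω F (y₀ + n * j) (y₀ + n * ((j : ℤ) + 1)) b := by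
    intro b hb
    obtain ⟨a₁, ha₁, a₂, ha₂, h12⟩ := h b hb
    have hne : a₁ ≠ a₂ := by
      rintro rfl
      have h3 := ua_le_ub a₁
      have h4 : (ua a₁).2 ≤ (ub a₁).2 := by
        obtain ⟨x, y, d⟩ := a₁
        cases d
        · rw [ua_mk, ub_false]
        · rw [ua_mk, ub_true]; simp only; omega
      omega
    obtain ⟨⟨f₁, hf₁, hs₁⟩, f₂, hf₂, hs₂⟩ := side_of_large ha₁ ha₂ hne
    have i1 := IsCor.inR (hF hf₁) hs₁.cor.2
    have i2 := IsCor.inR (hF hf₂) hs₂.cor.1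
    unfold InR at i1 i2
    rcases h12 with h12 | h12
    · left
      obtain ⟨j, hj, k1, k2⟩ := slab_idx hn i1.1 h12 i2.2.1
      exact ⟨j, hj, ⟨a₁, ha₁, k1⟩, a₂, ha₂, k2⟩
    · right
      obtain ⟨j, hj, k1, k2⟩ := slab_idx hn i1.2.2.1 h12 i2.2.2.2
      exact ⟨j, hj, ⟨a₁, ha₁, k1⟩, a₂, ha₂, k2⟩
  have hsub : S ⊆ ((range L).biUnion fun j => S.filter fun b =>
      CrossH ω F (x₀ + n * j) (x₀ + n * ((j : ℤ) + 1)) b) ∪
      (range L).biUnion fun j => S.filter fun b =>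
      CrossV ω F (y₀ + n * j) (y₀ + n * ((j : ℤ) + 1)) b := by
    intro b hb
    rw [mem_union, mem_biUnion, mem_biUnion]
    rcases key b hb with ⟨j, hj, k⟩ | ⟨j, hj, k⟩
    · exact Or.inl ⟨j, mem_range.2 hj, mem_filter.2 ⟨hb, k⟩⟩
    · exact Or.inr ⟨j, mem_range.2 hj, mem_filter.2 ⟨hb, k⟩⟩
  have hdiff : ∀ P : UE → Prop, Diff ω F (S.filter P) := fun P b hb b' hb' hbb =>
    hS b (mem_filter.1 hb).1 b' (mem_filter.1 hb').1 hbb
  unfold KB
  refine (card_le_card hsub).trans ((card_union_le _ _).trans (Nat.add_le_add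
    (card_biUnion_le.trans (Finset.sum_le_sum fun j _ => ?_))
    (card_biUnion_le.trans (Finset.sum_le_sum fun j _ => ?_))))
  · refine card_le_LT (by nlinarith) (hdiff _) (fun f hf _ _ => ?_) fun b hb => (mem_filter.1 hb).2
    have := hF hf
    rw [mem_RF'] at this
    omega
  · refine card_le_BT (by nlinarith) (hdiff _) (fun f hf _ _ => ?_) fun b hb => (mem_filter.1 hb).2
    have := hF hf
    rw [mem_RF'] at this
    omega

/-- The moment of a sum of counts. -/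
theorem exp_sum {lam : ℝ} (hlam : 1 ≤ lam) {ι : Type} (I : Finset ι) (N : ι → Cfg → ℕ)
    (W : Finset (ℤ × ℤ)) {C : ℝ}
    (h : ∀ i ∈ I, (∑ T ∈ W.powerset, (lam ^ I.card) ^ N i (cfg T)) / 2 ^ W.card ≤ C) :
    (∑ T ∈ W.powerset, lam ^ (∑ i ∈ I, N i (cfg T))) / 2 ^ W.card ≤ 1 + I.card * C := by
  classical
  rcases I.eq_empty_or_nonempty with rfl | hI
  · simp
  have h1 : ∀ T ∈ W.powerset, lam ^ (∑ i ∈ I, N i (cfg T)) ≤
      ∑ i ∈ I, (lam ^ I.card) ^ N i (cfg T) := by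
    intro T _
    obtain ⟨i, hi, hm⟩ := Finset.exists_max_image I (fun i => N i (cfg T)) hI
    have h2 : ∑ j ∈ I, N j (cfg T) ≤ I.card * N i (cfg T) := by
      have := Finset.sum_le_card_nsmul I (fun j => N j (cfg T)) (N i (cfg T)) hm
      simpa using this
    calc lam ^ (∑ j ∈ I, N j (cfg T)) ≤ lam ^ (I.card * N i (cfg T)) :=
          pow_le_pow_right₀ hlam h2
      _ = (lam ^ I.card) ^ N i (cfg T) := pow_mul _ _ _
      _ ≤ _ := Finset.single_le_sum (f := fun i => (lam ^ I.card) ^ N i (cfg T))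
          (fun j _ => by positivity) hi
  calc (∑ T ∈ W.powerset, lam ^ (∑ i ∈ I, N i (cfg T))) / 2 ^ W.card
      ≤ (∑ T ∈ W.powerset, ∑ i ∈ I, (lam ^ I.card) ^ N i (cfg T)) / 2 ^ W.card :=
        div_le_div_of_nonneg_right (Finset.sum_le_sum h1) (by positivity)
    _ = ∑ i ∈ I, (∑ T ∈ W.powerset, (lam ^ I.card) ^ N i (cfg T)) / 2 ^ W.card := by
        rw [Finset.sum_comm, Finset.sum_div]
    _ ≤ ∑ i ∈ I, C := Finset.sum_le_sum h
    _ = I.card * C := by rw [Finset.sum_const, nsmul_eq_mul]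
    _ ≤ 1 + I.card * C := by linarith

/-- (T4) All exponential moments of the number of strands of large extent in a box, uniformly in the
set of faces. -/
theorem KB_moment (L : ℕ) {lam : ℝ} (hlam : 1 ≤ lam) : ∃ C : ℝ, 0 < C ∧ ∀ (x₀ y₀ n : ℤ)
    (W : Finset (ℤ × ℤ)), 0 < n → RF x₀ (x₀ + n * L) y₀ (y₀ + n * L) ⊆ W →
      (∑ T ∈ W.powerset, lam ^ KB (cfg T) x₀ y₀ n L) / 2 ^ W.card ≤ C := by
  classical
  have hl2 : 1 ≤ lam ^ (2 * L) := one_le_pow₀ hlam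
  obtain ⟨C₁, hC₁, h1⟩ := LT_moment L hl2
  obtain ⟨C₂, hC₂, h2⟩ := BT_moment L hl2
  refine ⟨1 + (2 * L : ℕ) * max C₁ C₂, by positivity, fun x₀ y₀ n W hn hW => ?_⟩
  set N : ℕ → Cfg → ℕ := fun j ω => if j < L then
    (LT ω (x₀ + n * j) (x₀ + n * (j + 1)) y₀ (y₀ + n * L)).card else
    BT ω x₀ (x₀ + n * L) (y₀ + n * (j - L : ℕ)) (y₀ + n * ((j - L : ℕ) + 1)) with hN
  have hK : ∀ ω, KB ω x₀ y₀ n L = ∑ j ∈ range (2 * L), N j ω := by
    intro ω
    unfold KB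
    rw [two_mul, Finset.sum_range_add]
    congr 1
    · refine Finset.sum_congr rfl fun j hj => ?_
      rw [mem_range] at hj
      simp only [hN, if_pos hj]
    · refine Finset.sum_congr rfl fun j _ => ?_
      simp only [hN]
      rw [if_neg (by omega), Nat.add_sub_cancel_left]
  have hmem : ∀ f, f ∈ RF x₀ (x₀ + n * L) y₀ (y₀ + n * L) ↔
      x₀ ≤ f.1 ∧ f.1 < x₀ + n * L ∧ y₀ ≤ f.2 ∧ f.2 < y₀ + n * L := fun f => mem_RF
  have := exp_sum hlam (range (2 * L)) N W (C := max C₁ C₂) (by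
    intro j hj
    rw [card_range]
    rw [mem_range] at hj
    by_cases hjL : j < L
    · refine le_trans (le_of_eq ?_) ((h1 (x₀ + n * j) (x₀ + n * (j + 1)) y₀ (y₀ + n * L) W
        (by nlinarith) (by nlinarith) ?_).trans (le_max_left _ _))
      · simp only [hN, if_pos hjL]
      · refine (fun f hf => hW ?_)
        rw [hmem]
        rw [mem_RF] at hf
        have e1 : ((j : ℤ) + 1) ≤ L := by exact_mod_cast hjL
        have e2 := mul_le_mul_of_nonneg_left e1 hn.le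
        have e3 : 0 ≤ n * (j : ℤ) := by positivity
        omega
    · refine le_trans (le_of_eq ?_) ((h2 x₀ (x₀ + n * L) (y₀ + n * (j - L : ℕ))
        (y₀ + n * ((j - L : ℕ) + 1)) W (by nlinarith) (by nlinarith) ?_).trans (le_max_right _ _))
      · simp only [hN, if_neg hjL]
      · refine (fun f hf => hW ?_)
        rw [hmem]
        rw [mem_RF] at hf
        have e1 : (((j - L : ℕ) : ℤ) + 1) ≤ L := by omega
        have e2 := mul_le_mul_of_nonneg_left e1 hn.le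
        have e3 : 0 ≤ n * ((j - L : ℕ) : ℤ) := by positivity
        omega)
  rw [card_range] at this
  simp only [hK]
  exact this

/-! ### Windows -/

/-- Moments do not depend on the window. -/
theorem exp_window {S W : Finset (ℤ × ℤ)} {N : Cfg → ℕ} (hN : DepN S N) (hW : S ⊆ W) (g : ℕ → ℝ) :
    (∑ T ∈ W.powerset, g (N (cfg T))) / 2 ^ W.card =
      (∑ T ∈ S.powerset, g (N (cfg T))) / 2 ^ S.card := by
  classical
  obtain ⟨K, hK⟩ : ∃ K : ℕ, ∀ T ∈ W.powerset, N (cfg T) ≤ K :=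
    ⟨W.powerset.sup fun T => N (cfg T), fun T hT => Finset.le_sup (f := fun T => N (cfg T)) hT⟩
  have key : ∀ U : Finset (ℤ × ℤ), S ⊆ U → U ⊆ W →
      (∑ T ∈ U.powerset, g (N (cfg T))) / 2 ^ U.card =
        ∑ k ∈ range (K + 1), g k * pr S {ω | N ω = k} := by
    intro U hSU hUW
    have h1 : ∀ T ∈ U.powerset, g (N (cfg T)) = ∑ k ∈ range (K + 1),
        g k * (if cfg T ∈ {ω | N ω = k} then (1 : ℝ) else 0) := by
      intro T hT
      have hT' : N (cfg T) ∈ range (K + 1) := by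
        rw [mem_range]
        have := hK T (powerset_mono.2 hUW hT)
        omega
      rw [Finset.sum_eq_single_of_mem _ hT']
      · rw [if_pos (show cfg T ∈ {ω | N ω = N (cfg T)} from rfl), mul_one]
      · intro k _ hk
        rw [if_neg (fun h : cfg T ∈ {ω | N ω = k} => hk (show N (cfg T) = k from h).symm), mul_zero]
    rw [Finset.sum_congr rfl h1, Finset.sum_comm, Finset.sum_div]
    refine Finset.sum_congr rfl fun k _ => ?_
    rw [← pr_eq_of_depOn (hN.depOn fun n => n = k) hSU, ProbA.pr_eq_sum, ← Finset.mul_sum,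
      mul_div_assoc]
    congr!
  rw [key W hW (Finset.Subset.refl _), key S (Finset.Subset.refl _) hW]

/-! ### Annuli of bounded ratio -/

theorem depN_NC (v : ℤ × ℤ) (r R : ℤ) : DepN (BR v R : Set (ℤ × ℤ)) (PercN.NC v r R) := by
  intro ω ω' h
  have := depN_NF Set.univ v r R ω ω' fun f hf => h f (by
    have := hf.2
    rw [mem_coe, mem_An] at this
    exact mem_coe.2 this.1)
  rwa [NF_univ, NF_univ] at this

theorem diff_NP {v : ℤ × ℤ} {r R : ℤ} (hr : 0 < r) (hR : r < R) :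
    Diff ω (An v r R : Set (ℤ × ℤ)) (NP (fun _ => True) v r R ω) := by
  intro b hb b' hb' h
  obtain ⟨h1, a, h2, h3, -⟩ := (mem_NP hr.le).1 hb
  obtain ⟨h1', -⟩ := (mem_NP hr.le).1 hb'
  by_contra hne
  have hab : a ≠ b := by
    rintro rfl
    unfold BdR BdE at h1 h3
    omega
  have := other_unique (bdF_in h1) h2 h (bdF_out h3) (bdF_in h1') hab fun h => hne h.symm
  subst this
  unfold BdR BdE at h1' h3
  omega

theorem large_NP {v : ℤ × ℤ} {r R n : ℤ} (hr : 0 < r) (hn : 2 * n ≤ R - r) :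
    ∀ b ∈ NP (fun _ => True) v r R ω, Large ω (An v r R : Set (ℤ × ℤ)) n b := by
  intro b hb
  obtain ⟨h1, a, h2, h3, -⟩ := (mem_NP hr.le).1 hb
  have hin := h1.inE hr.le
  obtain ⟨x, y, d⟩ := a
  unfold InE InR at hin
  rcases P_cases h3 with h | h | h | h
  · refine ⟨b, mem_MM_self, _, h2, Or.inl ?_⟩
    unfold PercN.PR at h
    rw [ua_mk]
    simp only at h ⊢
    omega
  · refine ⟨_, h2, b, mem_MM_self, Or.inl ?_⟩
    unfold PercN.PL at h
    obtain ⟨rfl, h⟩ := h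
    rw [ub_true]
    simp only at h ⊢
    omega
  · refine ⟨b, mem_MM_self, _, h2, Or.inr ?_⟩
    unfold PercN.PT at h
    rw [ua_mk]
    simp only at h ⊢
    omega
  · refine ⟨_, h2, b, mem_MM_self, Or.inr ?_⟩
    unfold PercN.PB at h
    obtain ⟨rfl, h⟩ := h
    rw [ub_false]
    simp only at h ⊢
    omega

theorem NC_le_KB {v : ℤ × ℤ} {r R n : ℤ} {L : ℕ} (hr : 0 < r) (hn : 0 < n) (h : 2 * n ≤ R - r)
    (hL : 2 * R ≤ n * L) (ω : Cfg) : PercN.NC v r R ω ≤ KB ω (v.1 - R) (v.2 - R) n L := by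
  refine card_le_KB (F := (An v r R : Set (ℤ × ℤ))) hn (diff_NP hr (by omega)) (fun f hf => ?_)
    (large_NP hr h)
  rw [mem_coe, mem_An, mem_BR] at hf
  rw [mem_RF']
  omega

/-- All exponential moments of the number of the strands which cross an annulus of bounded ratio:
`r ≤ κ (R - r)`. -/
theorem NC_moment (κ : ℕ) {lam : ℝ} (hlam : 1 ≤ lam) : ∃ C : ℝ, 0 < C ∧
    ∀ (v : ℤ × ℤ) (r R : ℤ) (W : Finset (ℤ × ℤ)), 0 < r → r < R → r ≤ κ * (R - r) → BR v R ⊆ W →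
      (∑ T ∈ W.powerset, lam ^ PercN.NC v r R (cfg T)) / 2 ^ W.card ≤ C := by
  classical
  obtain ⟨C, hC, h⟩ := KB_moment (12 * (κ + 1)) hlam
  -- ratio at most 2
  have key : ∀ (v : ℤ × ℤ) (r R : ℤ) (W : Finset (ℤ × ℤ)), 0 < r → r < R → R ≤ 2 * r →
      r ≤ κ * (R - r) → BR v R ⊆ W →
      (∑ T ∈ W.powerset, lam ^ PercN.NC v r R (cfg T)) / 2 ^ W.card ≤
        max C (lam ^ (2 * (2 * κ + 1) ^ 2)) := by
    intro v r R W hr hrR hR2 hκ hW
    by_cases hd : R - r = 1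
    · refine le_trans ?_ (le_max_right _ _)
      rw [div_le_iff₀ (by positivity)]
      have hb : ∀ T ∈ W.powerset, lam ^ PercN.NC v r R (cfg T) ≤ lam ^ (2 * (2 * κ + 1) ^ 2) := by
        intro T _
        refine pow_le_pow_right₀ hlam ?_
        have h1 : PercN.NC v r R (cfg T) ≤ (UB v r).card := by
          unfold PercN.NC NP
          exact card_filter_le _ _
        obtain ⟨k, rfl⟩ : ∃ k : ℕ, r = k := ⟨r.toNat, by omega⟩
        rw [card_UB] at h1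
        have hk : k ≤ κ := by
          rw [hd, mul_one] at hκ
          exact_mod_cast hκ
        refine h1.trans (Nat.mul_le_mul_left _ (Nat.pow_le_pow_left (by omega) 2))
      refine (Finset.sum_le_sum hb).trans (le_of_eq ?_)
      rw [Finset.sum_const, card_powerset, nsmul_eq_mul]
      push_cast
      ring
    · refine le_trans ?_ (le_max_left _ _)
      set n := (R - r) / 2 with hn
      have hn0 : 0 < n := by omega
      have hn3 : R - r ≤ 3 * n := by omega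
      have hL : 2 * R ≤ n * (12 * (κ + 1) : ℕ) := by
        push_cast
        have h0 : (0 : ℤ) ≤ κ := by positivity
        nlinarith
      set W' := W ∪ RF (v.1 - R) (v.1 - R + n * (12 * (κ + 1) : ℕ)) (v.2 - R)
        (v.2 - R + n * (12 * (κ + 1) : ℕ)) with hW'
      have e1 := exp_window (depN_NC v r R) hW (fun m => lam ^ m)
      have e2 := exp_window (depN_NC v r R) (hW.trans (subset_union_left : W ⊆ W')) fun m => lam ^ m
      rw [e1, ← e2]
      refine le_trans ?_ (h (v.1 - R) (v.2 - R) n W' hn0 subset_union_right)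
      exact div_le_div_of_nonneg_right (Finset.sum_le_sum fun T _ =>
        pow_le_pow_right₀ hlam (NC_le_KB hr hn0 (by omega) hL _)) (by positivity)
  refine ⟨max (max C (lam ^ (2 * (2 * κ + 1) ^ 2)))
    (max C (lam ^ (2 * (2 * κ + 1) ^ 2))), by positivity, fun v r R W hr hrR hκ hW => ?_⟩
  by_cases hR2 : R ≤ 2 * r
  · exact (key v r R W hr hrR hR2 hκ hW).trans (le_max_left _ _)
  · by_cases hκ0 : κ = 0
    · subst hκ0
      push_cast at hκ
      omega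
    have hκ1 : (1 : ℤ) ≤ κ := by exact_mod_cast Nat.one_le_iff_ne_zero.2 hκ0
    have hs : BR v (2 * r) ⊆ W := ((Sub.refl' (by omega)).subset).trans hW
    refine le_trans ?_ (key v r (2 * r) W hr (by omega) le_rfl (by nlinarith) hs) |>.trans
      (le_max_left _ _)
    refine div_le_div_of_nonneg_right (Finset.sum_le_sum fun T _ =>
      pow_le_pow_right₀ hlam ?_) (by positivity)
    have := NF_annulus (v := v) (v' := v) (r := r) (r' := r) (R := R) (R' := 2 * r) Set.univ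
      hr.le hr.le (Sub.refl' le_rfl) (Sub.refl' (by omega)) (by omega) (cfg T)
    rwa [NF_univ, NF_univ] at this

/-- The same for an arbitrary set of faces (walls, corners, slits, islands). -/
theorem NF_moment (κ : ℕ) {lam : ℝ} (hlam : 1 ≤ lam) : ∃ C : ℝ, 0 < C ∧
    ∀ (F : Set (ℤ × ℤ)) (v : ℤ × ℤ) (r R : ℤ) (W : Finset (ℤ × ℤ)), 0 < r → r < R →
      r ≤ κ * (R - r) → BR v R ⊆ W →
      (∑ T ∈ W.powerset, lam ^ NF F v r R (cfg T)) / 2 ^ W.card ≤ C := by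
  obtain ⟨C, hC, h⟩ := NC_moment κ hlam
  refine ⟨C, hC, fun F v r R W hr hrR hκ hW => le_trans ?_ (h v r R W hr hrR hκ hW)⟩
  refine div_le_div_of_nonneg_right (Finset.sum_le_sum fun T _ => ?_) (by positivity)
  exact pow_le_pow_right₀ hlam (NF_le_NC F v r R _)

end Pool.Agent.SixB
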