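import Pool.Agent.Lib.SixB.S4W3Defs
import Pool.Agent.Lib.SixB.S4W1
import Pool.Agent.Lib.SixB.PlaneU
import Pool.Agent.Lib.SixB.S3Large

/-!
# 6BD step 4, row SW3: loops around the ends of the column and strands of scale `r` (V5, V5', V6)

* `clo_bd`: a closed strand of a rectangle has potential constant along the boundary.
* `large_clo`: a closed strand of a rectangle which surrounds `z` and is not closed in `BR z s` is large.
* `av_large`: mean of a function bounded by the number of large strands of a family.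
* `v5`, `v5'`, `v6`.
-/

set_option autoImplicit false

namespace Pool.Agent.SixB.W3.B

open Pool.Agent.SixB Pool.Agent.SixB.Tilt Pool.Agent.Perc Pool.Agent.PercD Pool.Agent.Perc.Q
  Pool.Agent.Perc6 Relation

noncomputable section

variable {ω : Cfg} {F G : Finset (ℤ × ℤ)} {e : DZ} {a b : UE} {x₀ x₁ y₀ y₁ : ℤ}

/-! ### Discrete intermediate values -/

theorem step_exists {g : ℤ → ZMod 2} {p q : ℤ} (hpq : p ≤ q) (h : g p ≠ g q) :
    ∃ i, p ≤ i ∧ i < q ∧ g i ≠ g (i + 1) := by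
  by_contra hcon
  push Not at hcon
  apply h
  have key : ∀ n, p ≤ n → n ≤ q → g p = g n := by
    intro n hn
    induction n, hn using Int.leInduction with
    | base => exact fun _ => rfl
    | succ n hn ih => exact fun h1 => (ih (by omega)).trans (hcon n hn (by omega))
  exact key q hpq le_rfl

/-! ### Closed strands -/

theorem su0 (f : ℤ × ℤ) : su f 0 = bo f := rfl
theorem su1 (f : ℤ × ℤ) : su f 1 = ri f := rfl
theorem su2 (f : ℤ × ℤ) : su f 2 = to' f := rfl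
theorem su3 (f : ℤ × ℤ) : su f 3 = le' f := rfl

theorem su_inj {f : ℤ × ℤ} {k l : ZMod 4} (h : su f k = su f l) : k = l := by
  rcases k4 k with rfl | rfl | rfl | rfl <;> rcases k4 l with rfl | rfl | rfl | rfl <;>
    simp only [su0, su1, su2, su3, bo, ri, to', le', Prod.mk.injEq] at h <;>
    first
    | rfl
    | (exfalso; omega)
    | (exfalso; simp at h)

/-- every unit edge of a closed strand is a side of two faces -/
theorem two_faces (h : Clo ZQ F ω e) (ha : a ∈ MM ω (F : Set (ℤ × ℤ)) (und e)) :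
    ∃ f ∈ F, ∃ g ∈ F, f ≠ g ∧ IsSide f a ∧ IsSide g a := by
  obtain ⟨y, hy, rfl, hxy⟩ := srel_of_MM h.mem ha
  have hc := h.of_srel hxy
  obtain ⟨b, ⟨f, hf, k, h1, -⟩, -⟩ := hc.exists_nx
  obtain ⟨b', ⟨g, hg, l, h2, -⟩, -⟩ := hc.swap.exists_nx
  have h1' : y = sd ZQ f k := h1
  have h2' : y.swap = sd ZQ g l := h2
  refine ⟨f, by exact_mod_cast hf, g, by exact_mod_cast hg, ?_, ?_, ?_⟩
  · rintro rfl
    rw [h1'] at h2'
    have h3 : und (sd ZQ f k) = und (sd ZQ f l) := by rw [← h2', und_sd_swap, und_sd]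
    rw [und_sd, und_sd] at h3
    have h4 : k = l := su_inj h3
    subst h4
    exact zq_noLoop f k (congrArg Prod.snd h2')
  · rw [h1', und_sd]; exact su_isSide f k
  · have : und y = und y.swap := (und_swap hc.mem).symm
    rw [this, h2', und_sd]; exact su_isSide g l

/-- a unit edge of the boundary of a rectangle is not in a closed strand -/
theorem not_bd (h : Clo ZQ (RF x₀ x₁ y₀ y₁) ω e)
    (ha : a ∈ MM ω (RF x₀ x₁ y₀ y₁ : Set (ℤ × ℤ)) (und e)) :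
    (a.2.2 = false → y₀ < a.2.1 ∧ a.2.1 < y₁) ∧ (a.2.2 = true → x₀ < a.1 ∧ a.1 < x₁) := by
  obtain ⟨f, hf, g, hg, hfg, hs, hs'⟩ := two_faces h ha
  rw [mem_RF] at hf hg
  obtain ⟨x, y, d⟩ := a
  obtain ⟨f1, f2⟩ := f
  obtain ⟨g1, g2⟩ := g
  have hfg' : ¬ (f1 = g1 ∧ f2 = g2) := fun h => hfg (by rw [h.1, h.2])
  simp only [IsSide, bo, le', to', ri, Prod.mk.injEq] at hs hs'
  simp only at hf hg ⊢
  cases d
  · refine ⟨fun _ => ?_, fun h => absurd h (by simp)⟩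
    simp only [Bool.false_eq_true, and_false, or_false, false_or, and_true] at hs hs'
    omega
  · refine ⟨fun h => absurd h (by simp), fun _ => ?_⟩
    simp only [Bool.true_eq_false, and_false, false_or, and_true] at hs hs'
    omega

/-! ### The potential of a closed strand of a rectangle -/

theorem pot_hor' {M : Set UE} {Φ : ℤ × ℤ → ZMod 2}
    (hΦ : IsPot (RF x₀ x₁ y₀ y₁ : Set (ℤ × ℤ)) M Φ) {i y : ℤ} (h01 : y₀ < y₁) (h0 : x₀ ≤ i) (h1 : i < x₁)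
    (h2 : y₀ ≤ y) (h3 : y ≤ y₁) : (i, y, false) ∈ M ↔ Φ (i, y) ≠ Φ (i + 1, y) := by
  rcases lt_or_eq_of_le h3 with h4 | h4
  · exact hΦ (i, y) (by rw [Finset.mem_coe, mem_RF]; exact ⟨h0, h1, h2, h4⟩) (i, y, false) (Or.inl rfl)
  · have h5 := hΦ (i, y - 1) (by rw [Finset.mem_coe, mem_RF]; exact ⟨h0, h1, by simp only; omega, by simp only; omega⟩)
      (i, y, false) (Or.inr (Or.inr (Or.inl (by simp [to']))))
    exact h5

theorem pot_ver' {M : Set UE} {Φ : ℤ × ℤ → ZMod 2}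
    (hΦ : IsPot (RF x₀ x₁ y₀ y₁ : Set (ℤ × ℤ)) M Φ) {x j : ℤ} (h01 : x₀ < x₁) (h0 : y₀ ≤ j) (h1 : j < y₁)
    (h2 : x₀ ≤ x) (h3 : x ≤ x₁) : (x, j, true) ∈ M ↔ Φ (x, j) ≠ Φ (x, j + 1) := by
  rcases lt_or_eq_of_le h3 with h4 | h4
  · exact hΦ (x, j) (by rw [Finset.mem_coe, mem_RF]; exact ⟨h2, h4, h0, h1⟩) (x, j, true)
      (Or.inr (Or.inl rfl))
  · have h5 := hΦ (x - 1, j) (by rw [Finset.mem_coe, mem_RF]; exact ⟨by simp only; omega, by simp only; omega, h0, h1⟩)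
      (x, j, true) (Or.inr (Or.inr (Or.inr (by simp [ri]))))
    exact h5

/-- a closed strand has constant potential along the boundary -/
theorem clo_bd {Φ : ℤ × ℤ → ZMod 2} (hx : x₀ < x₁) (hy : y₀ < y₁) (h : Clo ZQ (RF x₀ x₁ y₀ y₁) ω e)
    (hΦ : IsPot (RF x₀ x₁ y₀ y₁ : Set (ℤ × ℤ)) (MM ω (RF x₀ x₁ y₀ y₁ : Set (ℤ × ℤ)) (und e)) Φ)
    {w : ℤ × ℤ} (hw : InR x₀ x₁ y₀ y₁ w) (hb : w.1 = x₀ ∨ w.1 = x₁ ∨ w.2 = y₀ ∨ w.2 = y₁) :
    Φ w = Φ (x₀, y₀) := by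
  obtain ⟨w1, w2⟩ := w
  obtain ⟨k1, k2, k3, k4⟩ := hw
  simp only at k1 k2 k3 k4 hb
  -- horizontal sides
  have hor : ∀ y, (y = y₀ ∨ y = y₁) → ∀ i, x₀ ≤ i → i ≤ x₁ → Φ (i, y) = Φ (x₀, y) := by
    intro y hy' i h0 h1
    by_contra hne
    obtain ⟨j, j1, j2, j3⟩ := step_exists (g := fun i => Φ (i, y)) h0 (Ne.symm hne)
    have h5 := (pot_hor' hΦ hy j1 (by omega) (by omega) (by omega)).mpr j3
    have h6 := (not_bd h h5).1 rfl
    simp only at h6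
    omega
  have ver : ∀ x, (x = x₀ ∨ x = x₁) → ∀ j, y₀ ≤ j → j ≤ y₁ → Φ (x, j) = Φ (x, y₀) := by
    intro x hx' i h0 h1
    by_contra hne
    obtain ⟨j, j1, j2, j3⟩ := step_exists (g := fun j => Φ (x, j)) h0 (Ne.symm hne)
    have h5 := (pot_ver' hΦ hx j1 (by omega) (by omega) (by omega)).mpr j3
    have h6 := (not_bd h h5).2 rfl
    simp only at h6
    omega
  rcases hb with rfl | rfl | rfl | rfl
  · exact ver _ (Or.inl rfl) _ k3 k4
  · rw [ver _ (Or.inr rfl) _ k3 k4]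
    exact hor _ (Or.inl rfl) _ k1 k2
  · exact hor _ (Or.inl rfl) _ k1 k2
  · rw [hor _ (Or.inr rfl) _ k1 k2]
    exact ver _ (Or.inl rfl) _ k3 k4

/-! ### A closed strand which leaves a box -/

theorem exists_outside (h : Clo ZQ F ω e) (hn : ¬ Clo ZQ G ω e) :
    ∃ f ∈ F, f ∉ G ∧ ∃ a ∈ MM ω (F : Set (ℤ × ℤ)) (und e), IsSide f a := by
  by_contra hcon
  push Not at hcon
  apply hn
  have key : ∀ x y, ReflTransGen (Nx ZQ ω (F : Set (ℤ × ℤ))) e x → Nx ZQ ω (F : Set (ℤ × ℤ)) x y →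
      Nx ZQ ω (G : Set (ℤ × ℤ)) x y := by
    rintro x y hx ⟨f, hf, k, h1, h2⟩
    by_cases hG : f ∈ G
    · exact ⟨f, by exact_mod_cast hG, k, h1, h2⟩
    · exfalso
      have h3 : x = sd ZQ f k := h1
      refine hcon f (by exact_mod_cast hf) hG (und x) (MM_of_srel (srel_iff.mpr (Or.inl hx))) ?_
      rw [h3, und_sd]
      exact su_isSide f k
  have h' : TransGen (Nx ZQ ω (F : Set (ℤ × ℤ))) e e := h
  have all : ∀ x, TransGen (Nx ZQ ω (F : Set (ℤ × ℤ))) e x → TransGen (Nx ZQ ω (G : Set (ℤ × ℤ))) e x := by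
    intro x hx
    induction hx with
    | single h1 => exact TransGen.single (key _ _ ReflTransGen.refl h1)
    | tail h1 h2 ih => exact TransGen.tail ih (key _ _ h1.to_reflTransGen h2)
  exact all e h'

/-- a strand which visits a face has a horizontal and a vertical side of it -/
theorem hv_sides {F : Set (ℤ × ℤ)} {f : ℤ × ℤ} (hf : f ∈ F) (ha : a ∈ MM ω F b) (hs : IsSide f a) :
    (bo f ∈ MM ω F b ∨ to' f ∈ MM ω F b) ∧ (le' f ∈ MM ω F b ∨ ri f ∈ MM ω F b) := by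
  have step : ∀ a', Mt ω f a a' → a' ∈ MM ω F b := fun a' h => ReflTransGen.tail ha ⟨f, hf, h⟩
  cases hω : ω f
  · rcases hs with rfl | rfl | rfl | rfl
    · exact ⟨Or.inl ha, Or.inl (step _ (Or.inr ⟨hω, Or.inl ⟨rfl, rfl⟩⟩))⟩
    · exact ⟨Or.inl (step _ (Or.inr ⟨hω, Or.inr (Or.inl ⟨rfl, rfl⟩)⟩)), Or.inl ha⟩
    · exact ⟨Or.inr ha, Or.inr (step _ (Or.inr ⟨hω, Or.inr (Or.inr (Or.inl ⟨rfl, rfl⟩))⟩))⟩
    · exact ⟨Or.inr (step _ (Or.inr ⟨hω, Or.inr (Or.inr (Or.inr ⟨rfl, rfl⟩))⟩)), Or.inr ha⟩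
  · rcases hs with rfl | rfl | rfl | rfl
    · exact ⟨Or.inl ha, Or.inr (step _ (Or.inl ⟨hω, Or.inl ⟨rfl, rfl⟩⟩))⟩
    · exact ⟨Or.inr (step _ (Or.inl ⟨hω, Or.inr (Or.inr (Or.inl ⟨rfl, rfl⟩))⟩)), Or.inl ha⟩
    · exact ⟨Or.inr ha, Or.inl (step _ (Or.inl ⟨hω, Or.inr (Or.inr (Or.inr ⟨rfl, rfl⟩))⟩))⟩
    · exact ⟨Or.inl (step _ (Or.inl ⟨hω, Or.inr (Or.inl ⟨rfl, rfl⟩)⟩)), Or.inr ha⟩

/-- **a closed strand of a rectangle which surrounds `z` and is not closed in `BR z s` is large** -/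
theorem large_clo {Φ : ℤ × ℤ → ZMod 2} (hx : x₀ < x₁) (hy : y₀ < y₁) {z : ℤ × ℤ}
    (hz : InR x₀ x₁ y₀ y₁ z) {s n : ℤ} (hn : 2 * n ≤ s) (h : Clo ZQ (RF x₀ x₁ y₀ y₁) ω e)
    (hs : ¬ Clo ZQ (BR z s) ω e)
    (hΦ : IsPot (RF x₀ x₁ y₀ y₁ : Set (ℤ × ℤ)) (MM ω (RF x₀ x₁ y₀ y₁ : Set (ℤ × ℤ)) (und e)) Φ)
    (hne : Φ z ≠ Φ (x₀, y₀)) : Large ω (RF x₀ x₁ y₀ y₁ : Set (ℤ × ℤ)) n (und e) := by
  obtain ⟨f, hf, hfG, a, ha, hfa⟩ := exists_outside h hs
  obtain ⟨hh, hv⟩ := hv_sides (by exact_mod_cast hf) ha hfa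
  obtain ⟨z1, z2⟩ := z
  obtain ⟨k1, k2, k3, k4⟩ := hz
  simp only at k1 k2 k3 k4
  rw [mem_BR] at hfG
  rw [mem_RF] at hf
  have bd : ∀ w1 w2 : ℤ, x₀ ≤ w1 → w1 ≤ x₁ → y₀ ≤ w2 → w2 ≤ y₁ →
      (w1 = x₀ ∨ w1 = x₁ ∨ w2 = y₀ ∨ w2 = y₁) → Φ (w1, w2) = Φ (x₀, y₀) :=
    fun w1 w2 h1 h2 h3 h4 h5 => clo_bd hx hy h hΦ (w := (w1, w2)) ⟨h1, h2, h3, h4⟩ h5
  -- the four rays
  have left : ∃ i, x₀ ≤ i ∧ i < z1 ∧ (i, z2, false) ∈ MM ω (RF x₀ x₁ y₀ y₁ : Set (ℤ × ℤ)) (und e) := by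
    obtain ⟨j, j1, j2, j3⟩ := step_exists (g := fun i => Φ (i, z2)) k1
      (by show Φ (x₀, z2) ≠ Φ (z1, z2); rw [bd x₀ z2 le_rfl hx.le k3 k4 (Or.inl rfl)]; exact hne.symm)
    exact ⟨j, j1, j2, (pot_hor' hΦ hy j1 (by omega) k3 k4).mpr j3⟩
  have right : ∃ i, z1 ≤ i ∧ i < x₁ ∧ (i, z2, false) ∈ MM ω (RF x₀ x₁ y₀ y₁ : Set (ℤ × ℤ)) (und e) := by
    obtain ⟨j, j1, j2, j3⟩ := step_exists (g := fun i => Φ (i, z2)) k2
      (by show Φ (z1, z2) ≠ Φ (x₁, z2); rw [bd x₁ z2 hx.le le_rfl k3 k4 (Or.inr (Or.inl rfl))]; exact hne)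
    exact ⟨j, j1, j2, (pot_hor' hΦ hy (by omega) j2 k3 k4).mpr j3⟩
  have down : ∃ j, y₀ ≤ j ∧ j < z2 ∧ (z1, j, true) ∈ MM ω (RF x₀ x₁ y₀ y₁ : Set (ℤ × ℤ)) (und e) := by
    obtain ⟨j, j1, j2, j3⟩ := step_exists (g := fun j => Φ (z1, j)) k3
      (by
        show Φ (z1, y₀) ≠ Φ (z1, z2)
        rw [bd z1 y₀ k1 k2 le_rfl hy.le (Or.inr (Or.inr (Or.inl rfl)))]; exact hne.symm)
    exact ⟨j, j1, j2, (pot_ver' hΦ hx j1 (by omega) k1 k2).mpr j3⟩
  have up : ∃ j, z2 ≤ j ∧ j < y₁ ∧ (z1, j, true) ∈ MM ω (RF x₀ x₁ y₀ y₁ : Set (ℤ × ℤ)) (und e) := by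
    obtain ⟨j, j1, j2, j3⟩ := step_exists (g := fun j => Φ (z1, j)) k4
      (by
        show Φ (z1, z2) ≠ Φ (z1, y₁)
        rw [bd z1 y₁ k1 k2 hy.le le_rfl (Or.inr (Or.inr (Or.inr rfl)))]; exact hne)
    exact ⟨j, j1, j2, (pot_ver' hΦ hx (by omega) j2 k1 k2).mpr j3⟩
  have hcase : z1 + s ≤ f.1 ∨ f.1 + 1 ≤ z1 - s ∨ z2 + s ≤ f.2 ∨ f.2 + 1 ≤ z2 - s := by
    simp only at hfG
    omega
  rcases hcase with hc | hc | hc | hc
  · obtain ⟨i, i1, i2, i3⟩ := left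
    rcases hh with hh | hh
    · exact ⟨_, i3, _, hh, Or.inl (by rw [ub_false]; simp only [ua, bo]; omega)⟩
    · exact ⟨_, i3, _, hh, Or.inl (by rw [ub_false]; simp only [ua, to']; omega)⟩
  · obtain ⟨i, i1, i2, i3⟩ := right
    rcases hh with hh | hh
    · exact ⟨_, hh, _, i3, Or.inl (by unfold bo; rw [ub_false, ua_mk]; simp only; omega)⟩
    · exact ⟨_, hh, _, i3, Or.inl (by unfold to'; rw [ub_false, ua_mk]; simp only; omega)⟩
  · obtain ⟨i, i1, i2, i3⟩ := down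
    rcases hv with hv | hv
    · exact ⟨_, i3, _, hv, Or.inr (by rw [ub_true]; simp only [ua, le']; omega)⟩
    · exact ⟨_, i3, _, hv, Or.inr (by rw [ub_true]; simp only [ua, ri]; omega)⟩
  · obtain ⟨i, i1, i2, i3⟩ := up
    rcases hv with hv | hv
    · exact ⟨_, hv, _, i3, Or.inr (by unfold le'; rw [ub_true, ua_mk]; simp only; omega)⟩
    · exact ⟨_, hv, _, i3, Or.inr (by unfold ri; rw [ub_true, ua_mk]; simp only; omega)⟩

/-! ### Averages -/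

theorem cfg_eq_ind (T : Finset (ℤ × ℤ)) : cfg T = ind T := by
  funext f
  unfold cfg ind
  congr

theorem av_large (L : ℕ) : ∃ C : ℝ, 0 < C ∧ ∀ (x₀ x₁ y₀ y₁ n : ℤ) (S : Finset (ℤ × ℤ)) (g : Cfg → ℝ)
    (c : ℝ), 0 < n → x₁ - x₀ ≤ n * L → y₁ - y₀ ≤ n * L → RF x₀ x₁ y₀ y₁ ⊆ S → 0 ≤ c →
    Dep (RF x₀ x₁ y₀ y₁ : Set (ℤ × ℤ)) g →
    (∀ ω, ∃ T : Finset UE, Diff ω (RF x₀ x₁ y₀ y₁ : Set (ℤ × ℤ)) T ∧
      (∀ b ∈ T, Large ω (RF x₀ x₁ y₀ y₁ : Set (ℤ × ℤ)) n b) ∧ |g ω| ≤ c * T.card) →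
    av S (fun ω => |g ω|) ≤ c * C := by
  obtain ⟨C, hC, hK⟩ := KB_moment L (lam := 2) (by norm_num)
  refine ⟨C, hC, fun x₀ x₁ y₀ y₁ n S g c hn hx hy hS hc hg hT => ?_⟩
  have hFW : RF x₀ x₁ y₀ y₁ ⊆ RF x₀ (x₀ + n * L) y₀ (y₀ + n * L) := by
    intro f hf
    rw [mem_RF] at hf ⊢
    omega
  have hg' : Dep (RF x₀ x₁ y₀ y₁ : Set (ℤ × ℤ)) (fun ω => |g ω|) := fun ω ω' h => by
    simp only; rw [hg ω ω' h]
  rw [av_dep hg' hS, ← av_dep hg' hFW]
  refine le_trans (av_mono (g' := fun ω => c * (2 : ℝ) ^ KB ω x₀ y₀ n L) fun T _ => ?_) ?_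
  · obtain ⟨U, hU, hL, hb⟩ := hT (ind T)
    refine hb.trans (mul_le_mul_of_nonneg_left ?_ hc)
    have h1 : U.card ≤ KB (ind T) x₀ y₀ n L :=
      card_le_KB hn hU (by exact_mod_cast hFW) hL
    have h2 : (KB (ind T) x₀ y₀ n L : ℝ) ≤ 2 ^ KB (ind T) x₀ y₀ n L := by
      exact_mod_cast (Nat.lt_two_pow_self).le
    exact le_trans (by exact_mod_cast h1) h2
  · rw [av_mul]
    refine mul_le_mul_of_nonneg_left ?_ hc
    refine le_trans (le_of_eq ?_) (hK x₀ y₀ n _ hn (Finset.Subset.refl _))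
    unfold av
    simp only [cfg_eq_ind]

/-! ### Loops around an end point of the column -/

theorem abs_loop (F : Finset (ℤ × ℤ)) (ω : Cfg) (e : DZ) (h : Clo ZQ F ω e) :
    |Real.sqrt 3 / 4 * (trn ZQ F ω e : ℝ)| ≤ Real.sqrt 3 := by
  have h3 : 0 ≤ Real.sqrt 3 := Real.sqrt_nonneg 3
  rcases uml_ZQ F ω e h with h1 | h1
  · rw [h1]; push_cast
    rw [abs_of_nonneg (by positivity)]; linarith
  · rw [h1]; push_cast
    rw [show Real.sqrt 3 / 4 * -4 = -Real.sqrt 3 by ring, abs_neg, abs_of_nonneg h3]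

theorem und_pe (x j : ℤ) : und (WEnv.pe x j) = (x, j, true) := by
  unfold und WEnv.pe
  rw [if_pos rfl]
  simp

theorem pe_range {x j : ℤ} (h : WEnv.pe x j ∈ dE ZQ (RF x₀ x₁ y₀ y₁)) : y₀ ≤ j ∧ j < y₁ := by
  obtain ⟨f, hf, hs⟩ := und_side h
  rw [und_pe] at hs
  rw [mem_RF] at hf
  obtain ⟨f1, f2⟩ := f
  simp only [IsSide, bo, le', to', ri, Prod.mk.injEq, Bool.true_eq_false, and_false, false_or,
    and_true] at hs
  simp only at hf
  omega

theorem dep_clS (A : Finset (ℤ × ℤ)) (x y y' : ℤ) : Dep (A : Set (ℤ × ℤ)) (clS A x y y') := by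
  classical
  intro ω ω' h
  have h' : ∀ f ∈ A, ω f = ω' f := fun f hf => h f (by exact_mod_cast hf)
  have hclo : ∀ a, Clo ZQ A ω a ↔ Clo ZQ A ω' a := fun a => clo_congr h'
  have htrn : ∀ a, trn ZQ A ω a = trn ZQ A ω' a := fun a => trn_congr h'
  unfold clS
  simp only [hclo, htrn]

open Classical in
theorem clS_sub {A B : Finset (ℤ × ℤ)} (hBA : B ⊆ A) (x y y' : ℤ) (ω : Cfg) :
    clS A x y y' ω - clS B x y y' ω = ∑ j ∈ Finset.Ico y' y,
      if Clo ZQ A ω (WEnv.pe x j) ∧ ¬ Clo ZQ B ω (WEnv.pe x j) then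
        Real.sqrt 3 / 4 * (trn ZQ A ω (WEnv.pe x j) : ℝ) else 0 := by
  unfold clS
  rw [← Finset.sum_sub_distrib]
  refine Finset.sum_congr rfl fun j _ => ?_
  by_cases hB : Clo ZQ B ω (WEnv.pe x j)
  · rw [if_pos (hB.mono hBA), if_pos hB, if_neg fun h => h.2 hB, hB.trn_eq hBA, sub_self]
  · rw [if_neg hB, sub_zero]
    by_cases hA : Clo ZQ A ω (WEnv.pe x j)
    · rw [if_pos hA, if_pos ⟨hA, hB⟩]
    · rw [if_neg hA, if_neg fun h => hA h.1]

theorem br_sub {v : ℤ × ℤ} {s t : ℤ} (h : s ≤ t) : BR v s ⊆ BR v t := by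
  intro f hf
  rw [mem_BR] at hf ⊢
  omega

/-- not closed in a smaller set: constant along the strand -/
theorem not_clo_srel {e' : DZ} (hGF : G ⊆ F) (h : SRel ZQ F ω e e') (hn : ¬ Clo ZQ G ω e) :
    ¬ Clo ZQ G ω e' := fun h' =>
  hn (h'.of_srel (h'.srel_of hGF (EqvGen.symm _ _ h)))

/-- the strands of one scale around an end point of the column -/
theorem loop_net (h : NET) {x y y' s : ℤ} {v : ℤ × ℤ} (hv : v = (x, y) ∨ v = (x, y')) (hs : 1 ≤ s)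
    (hy : 2 * s < y - y') (ω : Cfg) :
    ∃ T : Finset UE, Diff ω (BR v (2 * s) : Set (ℤ × ℤ)) T ∧ T.card ≤ (2 * s).toNat ∧
      (∀ b ∈ T, ∀ n, 2 * n ≤ s → Large ω (BR v (2 * s) : Set (ℤ × ℤ)) n b) ∧
      |clS (BR v (2 * s)) x y y' ω - clS (BR v s) x y y' ω| ≤ Real.sqrt 3 * T.card := by
  classical
  obtain ⟨p, q, hpq, hp, hq, hv1, hc⟩ : ∃ p q : ℤ, q = p + 2 * s ∧ y' ≤ p ∧ q ≤ y ∧ v.1 = x ∧
      ((v.2 = q ∧ q = y) ∨ (v.2 = p ∧ p = y')) := by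
    rcases hv with rfl | rfl
    · exact ⟨y - 2 * s, y, by omega, by omega, le_rfl, rfl, Or.inl ⟨rfl, rfl⟩⟩
    · exact ⟨y', y' + 2 * s, rfl, le_rfl, by omega, rfl, Or.inr ⟨rfl, rfl⟩⟩
  have hsub : BR v s ⊆ BR v (2 * s) := br_sub (by omega)
  rw [clS_sub hsub]
  obtain ⟨T, h1, h2, h3, h4⟩ := h (v.1 - 2 * s) (v.1 + 2 * s) (v.2 - 2 * s) (v.2 + 2 * s) x q p ω
    (by omega) (by omega) (by omega) (by omega) (by omega) (by omega)
    (fun e => Clo ZQ (BR v (2 * s)) ω e ∧ ¬ Clo ZQ (BR v s) ω e)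
    (fun e => Real.sqrt 3 / 4 * (trn ZQ (BR v (2 * s)) ω e : ℝ)) (Real.sqrt 3) (Real.sqrt_nonneg 3)
    (fun e e' _ hr hP => ⟨hP.1.of_srel hr, not_clo_srel hsub hr hP.2⟩)
    (fun e hP => ⟨hP.1.swap, fun h' => hP.2 (clo_swap.mp h')⟩)
    (fun e e' _ hr _ => by
      have : trn ZQ (BR v (2 * s)) ω e' = trn ZQ (BR v (2 * s)) ω e := (SixB.trn_eq hr).symm
      simp only [this])
    (fun e _ => by simp only [trn_swap]; push_cast; ring)
    (fun e hP => abs_loop _ _ _ hP.1)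
  refine ⟨T, h2, ?_, ?_, ?_⟩
  · have h5 : T ⊆ (Finset.Ico p q).image fun j => ((x, j, true) : UE) := by
      intro b hb
      obtain ⟨j, hj, rfl, -⟩ := h1 b hb
      exact Finset.mem_image_of_mem _ hj
    refine (Finset.card_le_card h5).trans (Finset.card_image_le.trans ?_)
    rw [Int.card_Ico]
    omega
  · intro b hb n hn
    obtain ⟨j, hj, rfl, hP⟩ := h1 b hb
    rw [← und_pe]
    obtain ⟨Φ, hΦ⟩ := hasPot_RF (v.1 - 2 * s) (v.1 + 2 * s) (v.2 - 2 * s) (v.2 + 2 * s)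
      (MM ω (RF (v.1 - 2 * s) (v.1 + 2 * s) (v.2 - 2 * s) (v.2 + 2 * s) : Set (ℤ × ℤ))
        (und (WEnv.pe x j))) (fun f hf => evenAt_MM hf)
    have h5 := h3 _ hb Φ (by rw [und_pe] at hΦ; exact hΦ)
    refine large_clo (z := v) (s := s) (by omega) (by omega) (by unfold InR; omega) hn hP.1 hP.2 hΦ ?_
    have hbd : ∀ w2, (w2 = v.2 - 2 * s ∨ w2 = v.2 + 2 * s) →
        Φ (x, w2) = Φ (v.1 - 2 * s, v.2 - 2 * s) := by
      intro w2 hw
      refine clo_bd (by omega) (by omega) hP.1 hΦ (w := (x, w2)) ?_ ?_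
      · unfold InR; simp only; omega
      · simp only; omega
    have hv' : v = (x, v.2) := by rw [← hv1]
    rcases hc with ⟨hc, -⟩ | ⟨hc, -⟩
    · rw [← hbd p (by omega), hv', hc]
      exact h5
    · rw [← hbd q (by omega), hv', hc]
      exact h5.symm
  · have hsum : (∑ j ∈ Finset.Ico p q, if Clo ZQ (BR v (2 * s)) ω (WEnv.pe x j) ∧
        ¬ Clo ZQ (BR v s) ω (WEnv.pe x j) then
        Real.sqrt 3 / 4 * (trn ZQ (BR v (2 * s)) ω (WEnv.pe x j) : ℝ) else 0) =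
        ∑ j ∈ Finset.Ico y' y, if Clo ZQ (BR v (2 * s)) ω (WEnv.pe x j) ∧
        ¬ Clo ZQ (BR v s) ω (WEnv.pe x j) then
        Real.sqrt 3 / 4 * (trn ZQ (BR v (2 * s)) ω (WEnv.pe x j) : ℝ) else 0 := by
      refine Finset.sum_subset (Finset.Ico_subset_Ico hp hq) fun j hj hn => if_neg fun hP => hn ?_
      have h5 := pe_range (x₀ := v.1 - 2 * s) (x₁ := v.1 + 2 * s) (y₀ := v.2 - 2 * s)
        (y₁ := v.2 + 2 * s) hP.1.mem
      rw [Finset.mem_Ico] at hj ⊢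
      omega
    rw [← hsum]
    convert h4

/-- (V5) -/
theorem v5 (h : NET) : V5 := by
  obtain ⟨C, hC, hL⟩ := av_large 12
  refine ⟨Real.sqrt 3 * (C + 2), by positivity, fun S x y y' s v hv hs hy hS => ?_⟩
  have h3 : 0 ≤ Real.sqrt 3 := Real.sqrt_nonneg 3
  by_cases hs1 : s = 1
  · subst hs1
    refine le_trans (av_mono (g' := fun _ => Real.sqrt 3 * 2) fun T _ => ?_) ?_
    · obtain ⟨U, -, h2, -, h4⟩ := loop_net h hv hs hy (ind T)
      refine h4.trans (mul_le_mul_of_nonneg_left ?_ h3)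
      have h5 : U.card ≤ 2 := by simpa using h2
      exact_mod_cast h5
    · rw [av_const]
      nlinarith
  · refine le_trans (hL (v.1 - 2 * s) (v.1 + 2 * s) (v.2 - 2 * s) (v.2 + 2 * s) (s / 2) S
      (fun ω => clS (BR v (2 * s)) x y y' ω - clS (BR v s) x y y' ω) (Real.sqrt 3) (by omega)
      (by push_cast; omega) (by push_cast; omega) hS h3 ?_ fun ω => ?_) ?_
    · intro ω ω' hω
      have e1 := dep_clS (BR v (2 * s)) x y y' ω ω' hω
      have e2 := dep_clS (BR v s) x y y' ω ω' fun f hf => hω f (by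
        have := br_sub (v := v) (s := s) (t := 2 * s) (by omega) (by exact_mod_cast hf)
        exact_mod_cast this)
      simp only [e1, e2]
    · obtain ⟨T, t1, -, t3, t4⟩ := loop_net h hv hs hy ω
      exact ⟨T, t1, fun b hb => t3 b hb _ (by omega), t4⟩
    · nlinarith

/-- (V5') -/
theorem v5' : V5' := by
  classical
  refine ⟨Real.sqrt 3 * 2, by positivity, fun S x y y' v => ?_⟩
  have h3 : 0 ≤ Real.sqrt 3 := Real.sqrt_nonneg 3
  refine le_trans (av_mono (g' := fun _ => Real.sqrt 3 * 2) fun T _ => ?_) (le_of_eq (av_const _))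
  unfold clS
  refine (Finset.abs_sum_le_sum_abs _ _).trans ?_
  have h1 : ∀ j ∈ Finset.Ico y' y, |if Clo ZQ (BR v 1) (ind T) (WEnv.pe x j) then
      Real.sqrt 3 / 4 * (trn ZQ (BR v 1) (ind T) (WEnv.pe x j) : ℝ) else 0| ≤
      if j ∈ Finset.Ico (v.2 - 1) (v.2 + 1) then Real.sqrt 3 else 0 := by
    intro j _
    by_cases hc : Clo ZQ (BR v 1) (ind T) (WEnv.pe x j)
    · have h2 := pe_range (x₀ := v.1 - 1) (x₁ := v.1 + 1) (y₀ := v.2 - 1) (y₁ := v.2 + 1) hc.mem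
      rw [if_pos hc, if_pos (Finset.mem_Ico.mpr h2)]
      exact abs_loop _ _ _ hc
    · rw [if_neg hc, abs_zero]
      split_ifs
      · exact h3
      · exact le_rfl
  refine (Finset.sum_le_sum h1).trans ?_
  rw [← Finset.sum_filter, Finset.sum_const, nsmul_eq_mul, mul_comm]
  refine mul_le_mul_of_nonneg_left ?_ h3
  have h2 : ((Finset.Ico y' y).filter fun j => j ∈ Finset.Ico (v.2 - 1) (v.2 + 1)).card ≤ 2 := by
    refine (Finset.card_le_card (t := Finset.Ico (v.2 - 1) (v.2 + 1)) fun j hj =>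
      (Finset.mem_filter.mp hj).2).trans ?_
    rw [Int.card_Ico]
    omega
  exact_mod_cast h2

/-! ### Complete strands -/

theorem wsd_mem {R i : ℤ} (h : wsd i ∈ wS R) : -R ≤ i ∧ i ≤ R := by
  obtain ⟨j, h1, h2, h3⟩ := mem_wS.mp h
  have : j = i := congrArg (fun e : DZ => e.1.1) h3
  omega

theorem wS_bS {R : ℤ} (hR : 1 ≤ R) {c : DZ} (h : c ∈ wS R) : c ∈ bS ZQ (HB0 R) := by
  obtain ⟨i, h1, h2, rfl⟩ := mem_wS.mp h
  refine mem_bS.mpr ⟨mem_dE.mpr ⟨(i, 0), mem_HB0.mpr ⟨⟨h1, h2⟩, le_rfl, hR⟩, 0, Or.inl rfl⟩, ?_⟩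
  exact wsd_ini fun h => by
    rw [mem_HB0] at h
    simp only at h
    omega

theorem stt_srel {e' : DZ} (h : ¬ Clo ZQ F ω e) (hr : SRel ZQ F ω e e') : stt F ω e' = stt F ω e := by
  have h' : ¬ Clo ZQ F ω e' := fun hh => h (hh.of_srel (EqvGen.symm _ _ hr))
  obtain ⟨h1, h2⟩ := stt_spec h
  obtain ⟨h3, h4⟩ := stt_spec h'
  exact ini_unique (ω := ω) h4 h2 (EqvGen.trans _ _ _ (srel_iff.mpr (Or.inl h3))
    (EqvGen.trans _ _ _ (EqvGen.symm _ _ hr) (EqvGen.symm _ _ (srel_iff.mpr (Or.inl h1)))))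

theorem stt_swap (h : ¬ Clo ZQ F ω e) (hb : stt F ω e ∈ bS ZQ F) :
    stt F ω e.swap = mate ZQ F ω (stt F ω e) := by
  refine stt_eq (mem_bS.mp (mate_mem hb)).2 ?_
  have := rtg_rev (stt_last h)
  rwa [Prod.swap_swap] at this

theorem full_srel {R : ℤ} {e' : DZ} (hr : SRel ZQ (HB0 R) ω e e') (h : Full R ω e) : Full R ω e' := by
  by_cases hc : Clo ZQ (HB0 R) ω e
  · exact Or.inl (hc.of_srel hr)
  · have h1 := h.resolve_left hc
    right
    rw [stt_srel hc hr]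
    exact h1

theorem full_swap {R : ℤ} (hR : 1 ≤ R) (h : Full R ω e) : Full R ω e.swap := by
  by_cases hc : Clo ZQ (HB0 R) ω e
  · exact Or.inl hc.swap
  · have h1 := h.resolve_left hc
    right
    have hb := wS_bS hR h1.1
    rw [stt_swap hc hb, mate_mate hb]
    exact ⟨h1.2, h1.1⟩

theorem natA_srel {R : ℤ} {e' : DZ} (hr : SRel ZQ (HB0 R) ω e e') : natA R ω e' = natA R ω e := by
  unfold natA
  by_cases hc : Clo ZQ (HB0 R) ω e
  · rw [if_pos hc, if_pos (hc.of_srel hr), SixB.trn_eq hr]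
  · have hc' : ¬ Clo ZQ (HB0 R) ω e' := fun hh => hc (hh.of_srel (EqvGen.symm _ _ hr))
    rw [if_neg hc, if_neg hc', stt_srel hc hr]

theorem natA_swap {R : ℤ} (hR : 1 ≤ R) (h : Full R ω e) : natA R ω e.swap = -natA R ω e := by
  unfold natA
  by_cases hc : Clo ZQ (HB0 R) ω e
  · rw [if_pos hc, if_pos hc.swap, trn_swap]
    push_cast
    ring
  · have h1 := h.resolve_left hc
    have hb := wS_bS hR h1.1
    rw [if_neg hc, if_neg fun h' => hc (clo_swap.mp h'), stt_swap hc hb, mate_mate hb]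
    obtain ⟨i, -, -, hi⟩ := mem_wS.mp h1.1
    obtain ⟨j, -, -, hj⟩ := mem_wS.mp h1.2
    have hne : i ≠ j := by
      rintro rfl
      exact mate_ne (ω := ω) zq_noLoop hb (hj.symm.trans hi)
    rw [← hj, ← hi]
    have e1 : (wsd i).1.1 = i := rfl
    have e2 : (wsd j).1.1 = j := rfl
    rw [e1, e2]
    rcases lt_trichotomy i j with h2 | h2 | h2
    · rw [if_neg (by omega), if_pos h2, neg_neg]
    · exact absurd h2 hne
    · rw [if_pos h2, if_neg (by omega)]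

theorem abs_natA (R : ℤ) (ω : Cfg) (e : DZ) : |natA R ω e| ≤ Real.sqrt 3 := by
  have h3 : 0 ≤ Real.sqrt 3 := Real.sqrt_nonneg 3
  have h1 : (1 : ℝ) / Real.sqrt 3 ≤ Real.sqrt 3 := by
    rw [div_le_iff₀ (by positivity), Real.mul_self_sqrt (by norm_num)]
    norm_num
  have h0 : 0 ≤ (1 : ℝ) / Real.sqrt 3 := by positivity
  unfold natA
  split_ifs with hc
  · exact abs_loop _ _ _ hc
  · rw [abs_neg, abs_of_nonneg h0]; exact h1
  · rw [abs_of_nonneg h0]; exact h1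

theorem dep_fIn' (R x y y' : ℤ) : Dep ((HB0 R : Finset (ℤ × ℤ)) : Set (ℤ × ℤ)) (fIn R x y y') := by
  classical
  intro ω ω' h
  have h' : ∀ f ∈ HB0 R, ω f = ω' f := fun f hf => h f (by exact_mod_cast hf)
  have hclo : ∀ a, Clo ZQ (HB0 R) ω a ↔ Clo ZQ (HB0 R) ω' a := fun a => clo_congr h'
  have htrn : ∀ a, trn ZQ (HB0 R) ω a = trn ZQ (HB0 R) ω' a := fun a => trn_congr h'
  have hnx : Nx ZQ ω ((HB0 R : Finset (ℤ × ℤ)) : Set (ℤ × ℤ)) =
      Nx ZQ ω' ((HB0 R : Finset (ℤ × ℤ)) : Set (ℤ × ℤ)) :=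
    Pool.Agent.SixB.nx_congr fun f hf => h' f (by exact_mod_cast hf)
  have hlst : ∀ a, lst ZQ (HB0 R) ω a = lst ZQ (HB0 R) ω' a := by
    intro a
    unfold lst Orb
    simp only [hnx]
  have hstt : ∀ a, stt (HB0 R) ω a = stt (HB0 R) ω' a := fun a => by unfold stt; rw [hlst]
  have hmate : ∀ a, mate ZQ (HB0 R) ω a = mate ZQ (HB0 R) ω' a := fun a => by unfold mate; rw [hlst]
  unfold fIn
  refine Finset.sum_congr rfl fun j _ => ?_
  have hF : Full R ω (WEnv.pe x j) ↔ Full R ω' (WEnv.pe x j) := by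
    unfold Full
    rw [hclo, hstt, hmate]
  have hN : natA R ω (WEnv.pe x j) = natA R ω' (WEnv.pe x j) := by
    unfold natA
    simp only [hclo, hstt, hmate, htrn]
  simp only [hF, hN]

/-! ### The strands of scale `r` -/

/-- the class of the strands of scale `r` -/
def PS (R s x y y' : ℤ) (ω : Cfg) (e : DZ) : Prop :=
  Full R ω e ∧ ¬ Clo ZQ (BR (x, y) s) ω e ∧ ¬ Clo ZQ (BR (x, y') s) ω e

theorem not_both {A B : Finset (ℤ × ℤ)} (hd : Disjoint A B) (hA : Clo ZQ A ω e) (hB : Clo ZQ B ω e) :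
    False := by
  obtain ⟨b, ⟨f, hf, k, h1, -⟩, -⟩ := hA.exists_nx
  obtain ⟨b', ⟨g, hg, l, h2, -⟩, -⟩ := hB.exists_nx
  have h3 : sd ZQ f k = sd ZQ g l := h1.symm.trans h2
  obtain rfl := (sd_inj h3).1
  exact (Finset.disjoint_left.mp hd) (by exact_mod_cast hf) (by exact_mod_cast hg)

open Classical in
theorem fIn_sub {R s x y y' : ℤ} (hA : BR (x, y) s ⊆ HB0 R) (hB : BR (x, y') s ⊆ HB0 R)
    (hd : Disjoint (BR (x, y) s) (BR (x, y') s)) (ω : Cfg) :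
    fIn R x y y' ω - clS (BR (x, y) s) x y y' ω - clS (BR (x, y') s) x y y' ω =
      ∑ j ∈ Finset.Ico y' y, if PS R s x y y' ω (WEnv.pe x j) then natA R ω (WEnv.pe x j) else 0 := by
  unfold fIn clS
  rw [← Finset.sum_sub_distrib, ← Finset.sum_sub_distrib]
  refine Finset.sum_congr rfl fun j _ => ?_
  have key : ∀ A : Finset (ℤ × ℤ), A ⊆ HB0 R → Clo ZQ A ω (WEnv.pe x j) →
      Full R ω (WEnv.pe x j) ∧
        natA R ω (WEnv.pe x j) = Real.sqrt 3 / 4 * (trn ZQ A ω (WEnv.pe x j) : ℝ) := by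
    intro A hA hc
    have h1 := hc.mono hA
    refine ⟨Or.inl h1, ?_⟩
    unfold natA
    rw [if_pos h1, hc.trn_eq hA]
  unfold PS
  by_cases h1 : Clo ZQ (BR (x, y) s) ω (WEnv.pe x j)
  · have h2 : ¬ Clo ZQ (BR (x, y') s) ω (WEnv.pe x j) := fun h2 => not_both hd h1 h2
    obtain ⟨k1, k2⟩ := key _ hA h1
    rw [if_pos k1, if_pos h1, if_neg h2, if_neg fun h => h.2.1 h1, k2]
    ring
  · by_cases h2 : Clo ZQ (BR (x, y') s) ω (WEnv.pe x j)
    · obtain ⟨k1, k2⟩ := key _ hB h2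
      rw [if_pos k1, if_neg h1, if_pos h2, if_neg fun h => h.2.2 h2, k2]
      ring
    · rw [if_neg h1, if_neg h2, sub_zero, sub_zero]
      by_cases h3 : Full R ω (WEnv.pe x j)
      · rw [if_pos h3, if_pos ⟨h3, h1, h2⟩]
      · rw [if_neg h3, if_neg fun h => h3 h.1]

/-- the strands of scale `r` which separate the ends of the column -/
theorem mid_net (h : NET) {x y y' r s : ℤ} (hx0 : 0 ≤ x) (hx1 : x ≤ 1) (hr : 64 ≤ r)
    (hy' : r ≤ 4 * y') (hy : y ≤ 2 * r) (hyy : r ≤ 8 * (y - y')) (hs : r ≤ 64 * s)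
    (hs' : 16 * s ≤ r) (ω : Cfg) :
    ∃ T : Finset UE, Diff ω (HB0 (4 * r) : Set (ℤ × ℤ)) T ∧ T.card ≤ (y - y').toNat ∧
      (∀ b ∈ T, ∀ n, 2 * n ≤ s → Large ω (HB0 (4 * r) : Set (ℤ × ℤ)) n b) ∧
      |fIn (4 * r) x y y' ω - clS (BR (x, y) s) x y y' ω - clS (BR (x, y') s) x y y' ω| ≤
        Real.sqrt 3 * T.card := by
  classical
  have hA : BR (x, y) s ⊆ HB0 (4 * r) := by
    intro f hf
    rw [mem_BR] at hf
    rw [mem_HB0]
    simp only at hf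
    omega
  have hB : BR (x, y') s ⊆ HB0 (4 * r) := by
    intro f hf
    rw [mem_BR] at hf
    rw [mem_HB0]
    simp only at hf
    omega
  have hd : Disjoint (BR (x, y) s) (BR (x, y') s) := by
    rw [Finset.disjoint_left]
    intro f hf hf'
    rw [mem_BR] at hf hf'
    simp only at hf hf'
    omega
  rw [fIn_sub hA hB hd]
  obtain ⟨T, h1, h2, h3, h4⟩ := h (-(4 * r)) (4 * r + 1) 0 (4 * r) x y y' ω
    (by omega) (by omega) (by omega) (by omega) (by omega) (by omega)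
    (PS (4 * r) s x y y' ω) (natA (4 * r) ω) (Real.sqrt 3) (Real.sqrt_nonneg 3)
    (fun e e' _ hr' hP => ⟨full_srel hr' hP.1, not_clo_srel hA hr' hP.2.1,
      not_clo_srel hB hr' hP.2.2⟩)
    (fun e hP => ⟨full_swap (by omega) hP.1, fun h' => hP.2.1 (clo_swap.mp h'),
      fun h' => hP.2.2 (clo_swap.mp h')⟩)
    (fun e e' _ hr' _ => natA_srel hr')
    (fun e hP => natA_swap (by omega) hP.1)
    (fun e _ => abs_natA _ _ _)
  refine ⟨T, h2, ?_, ?_, ?_⟩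
  · have h5 : T ⊆ (Finset.Ico y' y).image fun j => ((x, j, true) : UE) := by
      intro b hb
      obtain ⟨j, hj, rfl, -⟩ := h1 b hb
      exact Finset.mem_image_of_mem _ hj
    refine (Finset.card_le_card h5).trans (Finset.card_image_le.trans ?_)
    rw [Int.card_Ico]
  · intro b hb n hn
    obtain ⟨j, hj, rfl, hP⟩ := h1 b hb
    rw [Finset.mem_Ico] at hj
    rw [← und_pe]
    by_cases hc : Clo ZQ (HB0 (4 * r)) ω (WEnv.pe x j)
    · obtain ⟨Φ, hΦ⟩ := hasPot_RF (-(4 * r)) (4 * r + 1) 0 (4 * r)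
        (MM ω (RF (-(4 * r)) (4 * r + 1) 0 (4 * r) : Set (ℤ × ℤ)) (und (WEnv.pe x j)))
        (fun f hf => evenAt_MM hf)
      have h5 := h3 _ hb Φ (by rw [und_pe] at hΦ; exact hΦ)
      by_cases hz : Φ (x, y) = Φ (-(4 * r), 0)
      · refine large_clo (z := (x, y')) (s := s) (by omega) (by omega)
          (by unfold InR; simp only; omega) hn hc hP.2.2 hΦ ?_
        rw [← hz]
        exact h5.symm
      · exact large_clo (z := (x, y)) (s := s) (by omega) (by omega)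
          (by unfold InR; simp only; omega) hn hc hP.2.1 hΦ hz
    · have h5 := hP.1.resolve_left hc
      obtain ⟨i, -, -, hi⟩ := mem_wS.mp h5.1
      have h6 := MM_of_srel (EqvGen.symm _ _ (srel_iff.mpr (Or.inl (stt_spec hc).1)))
      rw [← hi] at h6
      have h7 : und (wsd i) = (i, 0, false) := by
        unfold und wsd
        rw [if_neg (by simp)]
        simp
      rw [h7] at h6
      refine ⟨_, h6, _, mem_MM_self, Or.inr ?_⟩
      rw [und_pe, ub_false, ua_mk]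
      simp only
      omega
  · convert h4

/-- (V6) -/
theorem v6 (h : NET) : V6 := by
  obtain ⟨C, hC, hL⟩ := av_large 1728
  refine ⟨Real.sqrt 3 * (C + 128), by positivity,
    fun S x y y' r s hx0 hx1 hr hy' hy hyy hs hs' hS => ?_⟩
  have h3 : 0 ≤ Real.sqrt 3 := Real.sqrt_nonneg 3
  by_cases hs1 : s ≤ 1
  · refine le_trans (av_mono (g' := fun _ => Real.sqrt 3 * 128) fun T _ => ?_) ?_
    · obtain ⟨U, -, h2, -, h4⟩ := mid_net h hx0 hx1 hr hy' hy hyy hs hs' (ind T)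
      refine h4.trans (mul_le_mul_of_nonneg_left ?_ h3)
      have h5 : U.card ≤ 128 := by omega
      exact_mod_cast h5
    · rw [av_const]
      nlinarith
  · refine le_trans (hL (-(4 * r)) (4 * r + 1) 0 (4 * r) (s / 2) S
      (fun ω => fIn (4 * r) x y y' ω - clS (BR (x, y) s) x y y' ω - clS (BR (x, y') s) x y y' ω)
      (Real.sqrt 3) (by omega) (by push_cast; omega) (by push_cast; omega) hS h3 ?_ fun ω => ?_) ?_
    · intro ω ω' hω
      have hsub : ∀ z : ℤ, 2 * s ≤ 2 * z → z ≤ 2 * r → BR (x, z) s ⊆ HB0 (4 * r) := by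
        intro z h1 h2 f hf
        rw [mem_BR] at hf
        rw [mem_HB0]
        simp only at hf
        omega
      have e0 := dep_fIn' (4 * r) x y y' ω ω' hω
      have e1 := dep_clS (BR (x, y) s) x y y' ω ω' fun f hf => hω f (by
        have := hsub y (by omega) hy (by exact_mod_cast hf)
        exact_mod_cast this)
      have e2 := dep_clS (BR (x, y') s) x y y' ω ω' fun f hf => hω f (by
        have := hsub y' (by omega) (by omega) (by exact_mod_cast hf)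
        exact_mod_cast this)
      simp only [e0, e1, e2]
    · obtain ⟨T, t1, -, t3, t4⟩ := mid_net h hx0 hx1 hr hy' hy hyy hs hs' ω
      exact ⟨T, t1, fun b hb => t3 b hb _ (by omega), t4⟩
    · nlinarith

end

end Pool.Agent.SixB.W3.B
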