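import Pool.Agent.Lib.SixB.S4WallDefs

/-!
# 6BD step 4: the wall theorem from the splitting SW1, the one leg estimate SW2 and the bias estimate SW3
-/

set_option autoImplicit false

namespace Pool.Agent.SixB

open Pool.Agent.Perc Pool.Agent.Perc.Q Relation

noncomputable section

variable {E : WEnv} {d R x y y' : ℤ} {M : ℝ}

theorem WallAt.one_le (h : WallAt E d M) : 1 ≤ M := by
  obtain ⟨H, -, h1, -, h2⟩ := h.maj
  have h3 : E.Z ≤ av E.F H := av_mono fun T _ => (le_abs_self _).trans (h1 _)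
  have h4 := h.Zpos
  by_contra h5
  push Not at h5
  nlinarith

/-- the contribution of the complete strands is a function of the faces of `HB0 R` -/
theorem dep_fIn (R x y y' : ℤ) : Dep ((HB0 R : Finset (ℤ × ℤ)) : Set (ℤ × ℤ)) (fIn R x y y') := by
  classical
  intro ω ω' h
  have h' : ∀ f ∈ HB0 R, ω f = ω' f := fun f hf => h f (by exact_mod_cast hf)
  have hclo : ∀ a, Clo ZQ (HB0 R) ω a ↔ Clo ZQ (HB0 R) ω' a := fun a => clo_congr h'
  have htrn : ∀ a, trn ZQ (HB0 R) ω a = trn ZQ (HB0 R) ω' a := fun a => trn_congr h'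
  have hnx : Nx ZQ ω ((HB0 R : Finset (ℤ × ℤ)) : Set (ℤ × ℤ)) =
      Nx ZQ ω' ((HB0 R : Finset (ℤ × ℤ)) : Set (ℤ × ℤ)) :=
    Pool.Agent.SixB.nx_congr fun f hf => h' f (by exact_mod_cast hf)
  have hlst : ∀ a, lst ZQ (HB0 R) ω a = lst ZQ (HB0 R) ω' a := by
    intro a
    unfold lst Orb
    simp only [hnx]
  have hstt : ∀ a, stt (HB0 R) ω a = stt (HB0 R) ω' a := fun a => by unfold stt; rw [hlst]
  have hmate : ∀ a, mate ZQ (HB0 R) ω a = mate ZQ (HB0 R) ω' a := fun a => by unfold mate; rw [hlst]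
  unfold fIn
  refine Finset.sum_congr rfl fun j _ => ?_
  have hF : Full R ω (WEnv.pe x j) ↔ Full R ω' (WEnv.pe x j) := by
    unfold Full
    rw [hclo, hstt, hmate]
  have hN : natA R ω (WEnv.pe x j) = natA R ω' (WEnv.pe x j) := by
    unfold natA
    simp only [hclo, hstt, hmate, htrn]
  simp only [hF, hN]

theorem HB0_mono {w w' : ℤ} (h : w ≤ w') : HB0 w ⊆ HB0 w' := by
  intro f hf
  unfold HB0 RF at hf ⊢
  rw [Finset.mem_product, Finset.mem_Ico, Finset.mem_Ico] at hf ⊢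
  omega

/-- the choice of the intermediate scale -/
theorem exists_scale {c : ℝ} (hc : 0 < c) {r d : ℤ} (hr : 1 ≤ r) (hrd : 16 * r ≤ d) :
    ∃ R : ℤ, 4 * r ≤ R ∧ 2 * R ≤ d ∧
      ((r : ℝ) / R) ^ (1 + c) ≤ 4 ^ (1 + c) * ((r : ℝ) / d) ^ (1 + c / 2 / (1 + c)) ∧
      (r : ℝ) * R / d ^ 2 ≤ ((r : ℝ) / d) ^ (1 + c / 2 / (1 + c)) := by
  have hr1 : (1 : ℝ) ≤ r := by exact_mod_cast hr
  have hd1 : (16 : ℝ) * r ≤ d := by exact_mod_cast hrd
  have hd0 : (0 : ℝ) < d := by linarith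
  set ρ : ℝ := (r : ℝ) / d with hρ
  have hρ0 : 0 < ρ := by positivity
  have hρ1 : ρ ≤ 1 / 16 := by
    rw [hρ, div_le_iff₀ hd0]
    linarith
  set θ : ℝ := (1 + c / 2) / (1 + c) with hθ
  have h1c : (0 : ℝ) < 1 + c := by linarith
  have hθc : θ * (1 + c) = 1 + c / 2 := by rw [hθ]; field_simp
  have hθ1 : 1 - θ = c / 2 / (1 + c) := by rw [hθ]; field_simp; ring
  have hθh : 1 / 2 ≤ θ := by
    rw [hθ, le_div_iff₀ h1c]
    linarith
  have hθ1' : 0 < 1 - θ := by rw [hθ1]; positivity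
  set Rr : ℝ := d * ρ ^ (1 - θ) with hRr
  have hq1 : ρ ^ (1 - θ) ≤ 1 := Real.rpow_le_one hρ0.le (by linarith) hθ1'.le
  have hRd : Rr ≤ d := by rw [hRr]; nlinarith
  -- `ρ ^ θ ≤ 1 / 4`
  have hq2 : ρ ^ θ ≤ 1 / 4 := by
    calc ρ ^ θ ≤ ρ ^ (1 / 2 : ℝ) := Real.rpow_le_rpow_of_exponent_ge hρ0 (by linarith) hθh
      _ ≤ (1 / 16 : ℝ) ^ (1 / 2 : ℝ) := Real.rpow_le_rpow hρ0.le hρ1 (by norm_num)
      _ = 1 / 4 := by
        rw [show (1 / 16 : ℝ) = (1 / 4) ^ (2 : ℝ) by norm_num, ← Real.rpow_mul (by norm_num)]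
        norm_num
  have hprod : ρ ^ θ * ρ ^ (1 - θ) = ρ := by
    rw [← Real.rpow_add hρ0]
    simp
  have hrR : (r : ℝ) = Rr * ρ ^ θ := by
    rw [hRr, mul_assoc, mul_comm (ρ ^ (1 - θ)), hprod, hρ]
    field_simp
  have hRr0 : 0 < Rr := by rw [hRr]; positivity
  have h4r : 4 * (r : ℝ) ≤ Rr := by
    have := mul_le_mul_of_nonneg_left hq2 hRr0.le
    rw [← hrR] at this
    linarith
  refine ⟨max (4 * r) ⌊Rr / 2⌋, le_max_left _ _, ?_, ?_, ?_⟩
  · rcases max_cases (4 * r) ⌊Rr / 2⌋ with ⟨h, -⟩ | ⟨h, -⟩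
    · rw [h]
      omega
    · rw [h]
      have h1 : ((⌊Rr / 2⌋ : ℤ) : ℝ) ≤ Rr / 2 := Int.floor_le _
      have h2 : (2 : ℝ) * ((⌊Rr / 2⌋ : ℤ) : ℝ) ≤ d := by linarith
      exact_mod_cast h2
  · have h1 : Rr / 2 < ((⌊Rr / 2⌋ : ℤ) : ℝ) + 1 := Int.lt_floor_add_one _
    have h2 : Rr / 4 ≤ ((⌊Rr / 2⌋ : ℤ) : ℝ) := by linarith
    have h3 : (0 : ℝ) < ((⌊Rr / 2⌋ : ℤ) : ℝ) := by linarith
    have h0 : ((⌊Rr / 2⌋ : ℤ) : ℝ) ≤ ((max (4 * r) ⌊Rr / 2⌋ : ℤ) : ℝ) := by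
      exact_mod_cast le_max_right _ _
    have h4 : (r : ℝ) / ((max (4 * r) ⌊Rr / 2⌋ : ℤ) : ℝ) ≤ 4 * ρ ^ θ := by
      rw [div_le_iff₀ (by linarith)]
      nlinarith [Real.rpow_pos_of_pos hρ0 θ]
    calc ((r : ℝ) / ((max (4 * r) ⌊Rr / 2⌋ : ℤ) : ℝ)) ^ (1 + c) ≤ (4 * ρ ^ θ) ^ (1 + c) :=
          Real.rpow_le_rpow (div_nonneg (by linarith) (by linarith)) h4 h1c.le
      _ = 4 ^ (1 + c) * ρ ^ (1 + c / 2) := by
          rw [Real.mul_rpow (by norm_num) (by positivity), ← Real.rpow_mul hρ0.le, hθc]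
      _ ≤ 4 ^ (1 + c) * ρ ^ (1 + c / 2 / (1 + c)) := by
          refine mul_le_mul_of_nonneg_left ?_ (by positivity)
          refine Real.rpow_le_rpow_of_exponent_ge hρ0 (by linarith) ?_
          have : c / 2 / (1 + c) ≤ c / 2 := div_le_self (by linarith) (by linarith)
          linarith
  · have h2 : ((max (4 * r) ⌊Rr / 2⌋ : ℤ) : ℝ) ≤ Rr := by
      have h1 : ((⌊Rr / 2⌋ : ℤ) : ℝ) ≤ Rr / 2 := Int.floor_le _
      rcases max_cases (4 * r) ⌊Rr / 2⌋ with ⟨h, -⟩ | ⟨h, -⟩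
      · rw [h]
        push_cast
        linarith
      · rw [h]
        linarith
    calc (r : ℝ) * ((max (4 * r) ⌊Rr / 2⌋ : ℤ) : ℝ) / (d : ℝ) ^ 2 ≤ (r : ℝ) * Rr / (d : ℝ) ^ 2 := by
          gcongr
      _ = ρ * ρ ^ (1 - θ) := by rw [hRr, hρ]; field_simp
      _ = ρ ^ (1 + c / 2 / (1 + c)) := by
          rw [← hθ1, Real.rpow_add hρ0, Real.rpow_one]

theorem wallThm_of (h1 : SW1) (h2 : SW2) (h3 : SW3)
    (hf : ∀ (d : ℤ) (E : WEnv) (M : ℝ), WallAt E d M → WallAt (flatEnv d) d 1) : WallThm := by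
  obtain ⟨C₂, c, hC₂, hc, h2⟩ := h2
  obtain ⟨C₃, hC₃, h3⟩ := h3
  refine ⟨2 * C₃ + 2 * (C₂ * 4 ^ (1 + c)), c / 2 / (1 + c), by positivity, by positivity, ?_⟩
  intro E d M hE r y y' hr hy hy1 hy2 hrd
  obtain ⟨R, hR1, hR2, hR3, hR4⟩ := exists_scale hc hr hrd
  have hM := hE.one_le
  have hZ := hE.Zpos
  have hd := hE.hd
  have hflat := hf d E M hE
  have hZf : (flatEnv d).Z = 1 := by
    unfold WEnv.Z
    have : (flatEnv d).W = fun _ => (1 : ℝ) := by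
      funext ω
      unfold WEnv.W
      refine Finset.prod_eq_one fun p _ => ?_
      induction p using Sym2.ind with
      | _ a b => rfl
    rw [this, av_const]
  have hWf : ∀ ω, (flatEnv d).W ω = 1 := by
    intro ω
    unfold WEnv.W
    refine Finset.prod_eq_one fun p _ => ?_
    induction p using Sym2.ind with
    | _ a b => rfl
  have hRR : R ≤ 2 * d := by omega
  have hsub : HB0 R ⊆ E.F := (HB0_mono hRR).trans hE.sub
  -- one column
  have key : ∀ x : ℤ, 0 ≤ x → x ≤ 1 →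
      E.dU x y y' - (flatEnv d).dU x y y' =
        (av E.F (fun ω => fIn R x y y' ω * E.W ω) - av E.F (fIn R x y y') * E.Z) / E.Z +
          av E.F (gOut E R x y y') / E.Z - av (HB0 (2 * d)) (gOut (flatEnv d) R x y y') := by
    intro x hx0 hx1
    have e1 : av E.F (E.numC x y y') =
        av E.F (fun ω => fIn R x y y' ω * E.W ω) + av E.F (gOut E R x y y') := by
      rw [← av_add]
      exact av_congr fun T _ => h1 E d M hE R x y y' _ (by omega) hRR hx0 hx1 (by omega) hy (by omega)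
    have e2 : av (HB0 (2 * d)) ((flatEnv d).numC x y y') =
        av (HB0 (2 * d)) (fIn R x y y') + av (HB0 (2 * d)) (gOut (flatEnv d) R x y y') := by
      rw [← av_add]
      refine av_congr fun T _ => ?_
      have := h1 (flatEnv d) d 1 hflat R x y y' (ind T) (by omega) hRR hx0 hx1 (by omega) hy
        (by omega)
      rw [hWf, mul_one] at this
      exact this
    have e3 : av (HB0 (2 * d)) (fIn R x y y') = av E.F (fIn R x y y') := by
      rw [av_dep (dep_fIn R x y y') hsub, av_dep (dep_fIn R x y y') (HB0_mono hRR)]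
    unfold WEnv.dU
    rw [hZf, div_one, e1]
    have e4 : av (flatEnv d).F ((flatEnv d).numC x y y') = av (HB0 (2 * d)) ((flatEnv d).numC x y y') :=
      rfl
    rw [e4, e2, e3]
    field_simp
    ring
  have k0 := key 0 le_rfl (by norm_num)
  have k1 := key 1 (by norm_num) le_rfl
  have b0 := h3 E d M hE R r 0 y y' hr le_rfl (by norm_num) hy hy1 hy2 (by omega) hR2
  have b1 := h3 E d M hE R r 1 y y' hr (by norm_num) le_rfl hy hy1 hy2 (by omega) hR2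
  have g0 := h2 E d M hE R r y y' hr (by omega) hy hy2 hR1 hR2
  have g1 := h2 (flatEnv d) d 1 hflat R r y y' hr (by omega) hy hy2 hR1 hR2
  rw [hZf, mul_one, mul_one] at g1
  rw [av_add] at g0 g1
  have e5 : av (flatEnv d).F (gOut (flatEnv d) R 0 y y') = av (HB0 (2 * d)) (gOut (flatEnv d) R 0 y y') :=
    rfl
  have e6 : av (flatEnv d).F (gOut (flatEnv d) R 1 y y') = av (HB0 (2 * d)) (gOut (flatEnv d) R 1 y y') :=
    rfl
  rw [e5, e6] at g1
  set ρ : ℝ := ((r : ℝ) / d) ^ (1 + c / 2 / (1 + c)) with hρ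
  have hρ0 : 0 ≤ ρ := Real.rpow_nonneg (div_nonneg (by exact_mod_cast (by omega : 0 ≤ r))
    (by exact_mod_cast (by omega : 0 ≤ d))) _
  have hE1 : E.dU2 y y' - (flatEnv d).dU2 y y' =
      (av E.F (fun ω => fIn R 0 y y' ω * E.W ω) - av E.F (fIn R 0 y y') * E.Z) / E.Z +
      (av E.F (fun ω => fIn R 1 y y' ω * E.W ω) - av E.F (fIn R 1 y y') * E.Z) / E.Z +
      (av E.F (gOut E R 0 y y') + av E.F (gOut E R 1 y y')) / E.Z -
      (av (HB0 (2 * d)) (gOut (flatEnv d) R 0 y y') + av (HB0 (2 * d)) (gOut (flatEnv d) R 1 y y')) := by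
    unfold WEnv.dU2
    have : E.dU 0 y y' + E.dU 1 y y' - ((flatEnv d).dU 0 y y' + (flatEnv d).dU 1 y y') =
        (E.dU 0 y y' - (flatEnv d).dU 0 y y') + (E.dU 1 y y' - (flatEnv d).dU 1 y y') := by ring
    rw [this, k0, k1]
    ring
  have hdiv : ∀ a b : ℝ, |a| ≤ b * E.Z → |a / E.Z| ≤ b := by
    intro a b h
    rw [abs_div, abs_of_pos hZ, div_le_iff₀ hZ]
    exact h
  have B0 : |(av E.F (fun ω => fIn R 0 y y' ω * E.W ω) - av E.F (fIn R 0 y y') * E.Z) / E.Z| ≤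
      C₃ * M * ρ := by
    refine hdiv _ _ (b0.trans ?_)
    have : C₃ * M * E.Z * ((r : ℝ) * R / d ^ 2) ≤ C₃ * M * E.Z * ρ := by gcongr
    linarith
  have B1 : |(av E.F (fun ω => fIn R 1 y y' ω * E.W ω) - av E.F (fIn R 1 y y') * E.Z) / E.Z| ≤
      C₃ * M * ρ := by
    refine hdiv _ _ (b1.trans ?_)
    have : C₃ * M * E.Z * ((r : ℝ) * R / d ^ 2) ≤ C₃ * M * E.Z * ρ := by gcongr
    linarith
  have G0 : |(av E.F (gOut E R 0 y y') + av E.F (gOut E R 1 y y')) / E.Z| ≤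
      C₂ * M * (4 ^ (1 + c) * ρ) := by
    refine hdiv _ _ (g0.trans ?_)
    have : C₂ * M * E.Z * ((r : ℝ) / R) ^ (1 + c) ≤ C₂ * M * E.Z * (4 ^ (1 + c) * ρ) := by gcongr
    linarith
  have G1 : |av (HB0 (2 * d)) (gOut (flatEnv d) R 0 y y') + av (HB0 (2 * d)) (gOut (flatEnv d) R 1 y y')| ≤
      C₂ * M * (4 ^ (1 + c) * ρ) := by
    refine g1.trans ?_
    have h5 : C₂ * ((r : ℝ) / R) ^ (1 + c) ≤ C₂ * (4 ^ (1 + c) * ρ) := by gcongr
    have h6 : C₂ * (4 ^ (1 + c) * ρ) ≤ C₂ * M * (4 ^ (1 + c) * ρ) := by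
      have : 0 ≤ C₂ * (4 ^ (1 + c) * ρ) := by positivity
      nlinarith
    linarith
  rw [hE1]
  set a0 := (av E.F (fun ω => fIn R 0 y y' ω * E.W ω) - av E.F (fIn R 0 y y') * E.Z) / E.Z
  set a1 := (av E.F (fun ω => fIn R 1 y y' ω * E.W ω) - av E.F (fIn R 1 y y') * E.Z) / E.Z
  set a2 := (av E.F (gOut E R 0 y y') + av E.F (gOut E R 1 y y')) / E.Z
  set a3 := av (HB0 (2 * d)) (gOut (flatEnv d) R 0 y y') + av (HB0 (2 * d)) (gOut (flatEnv d) R 1 y y')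
  have hfin : |a0 + a1 + a2 - a3| ≤ |a0| + |a1| + |a2| + |a3| := by
    have t1 := abs_sub (a0 + a1 + a2) a3
    have t2 := abs_add_le (a0 + a1) a2
    have t3 := abs_add_le a0 a1
    linarith
  calc |a0 + a1 + a2 - a3| ≤ |a0| + |a1| + |a2| + |a3| := hfin
    _ ≤ C₃ * M * ρ + C₃ * M * ρ + C₂ * M * (4 ^ (1 + c) * ρ) + C₂ * M * (4 ^ (1 + c) * ρ) := by
        linarith
    _ = (2 * C₃ + 2 * (C₂ * 4 ^ (1 + c))) * M * ρ := by ring

end

end Pool.Agent.SixB
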