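import Pool.Agent.Lib.SixB.S4W3Defs
import Pool.Agent.Lib.SixB.S4Plane
import Pool.Agent.Lib.SixB.S0Link
import Pool.Agent.Lib.SixB.S4WallAsm
import Pool.Agent.Lib.SixB.PlaneU

/-!
# 6BD step 4, row V7: the strands which go from `HB0 r` to distance `R`

`v7 : NET → A1S → V7`. The difference `fIn R' - fIn R` is the sum over the strands of the column which
are complete in `HB0 R'` but not in `HB0 R`; their number is at most the number of the strands which
cross the half annulus `r + 1 : R`.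
-/

set_option autoImplicit false

namespace Pool.Agent.SixB.S4W3c

open Pool.Agent.Perc Pool.Agent.PercD Pool.Agent.Perc.Q Pool.Agent.Perc6 Relation
open Pool.Agent.SixB Pool.Agent.SixB.Tilt Pool.Agent.SixB.W3

noncomputable section

variable {F F' : Finset (ℤ × ℤ)} {ω : Cfg} {a b c e e' : DZ} {R R' : ℤ}

/-! ## The first side of a strand -/

theorem stt_eq (ha : Ini ZQ (F : Set (ℤ × ℤ)) a)
    (h : ReflTransGen (Nx ZQ ω (F : Set (ℤ × ℤ))) a e) : stt F ω e = a := by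
  have hex : ∃ b, b ∈ Orb ZQ ω (F : Set (ℤ × ℤ)) e.swap ∧ Ter ZQ (F : Set (ℤ × ℤ)) b :=
    ⟨a.swap, SixB.rtg_rev h, ter_swap.mpr ha⟩
  unfold stt lst
  rw [dif_pos hex]
  obtain ⟨h1, h2⟩ := hex.choose_spec
  have h3 : SRel ZQ F ω hex.choose a.swap :=
    EqvGen.trans _ _ _ (EqvGen.symm _ _ (srel_iff.mpr (Or.inl h1)))
      (srel_iff.mpr (Or.inl (SixB.rtg_rev h)))
  rw [ter_uniq h2 (ter_swap.mpr ha) h3, Prod.swap_swap]

theorem not_clo (ha : Ini ZQ (F : Set (ℤ × ℤ)) a)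
    (h : ReflTransGen (Nx ZQ ω (F : Set (ℤ × ℤ))) a e) : ¬ Clo ZQ F ω e := by
  intro hc
  have h1 : Clo ZQ F ω a := hc.of_srel (EqvGen.symm _ _ (srel_iff.mpr (Or.inl h)))
  obtain ⟨b, -, h2⟩ := TransGen.tail'_iff.mp h1
  exact ini_nx ha h2

theorem walk_tg {G : Set (ℤ × ℤ)} {H : Set DZ} {n : ℕ} {t : ℤ} (h : Walk ZQ ω G H n a b t) :
    TransGen (Nx ZQ ω G) a b := by
  induction h with
  | one h => exact TransGen.single (nx_iff.mpr ⟨_, h⟩)
  | tail _ _ h' ih => exact TransGen.tail ih (nx_iff.mpr ⟨_, h'⟩)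

theorem stt_spec (he : e ∈ dE ZQ F) (h : ¬ Clo ZQ F ω e) :
    Ini ZQ (F : Set (ℤ × ℤ)) (stt F ω e) ∧
      ReflTransGen (Nx ZQ ω (F : Set (ℤ × ℤ))) (stt F ω e) e := by
  have hX : dst ZQ F ω e ∈ dstr ZQ F ω := dst_mem_dstr he
  have hex : ∃ a ∈ dst ZQ F ω e, Ini ZQ (F : Set (ℤ × ℤ)) a := by
    by_contra hcon
    push Not at hcon
    obtain ⟨n, hn, -⟩ := closed_walk (G := Set.univ) hX hcon (self_mem_dst he)
      (fun _ _ => Set.mem_univ _)
    exact h (walk_tg hn)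
  obtain ⟨a, ha, ha'⟩ := hex
  have h1 : ReflTransGen (Nx ZQ ω (F : Set (ℤ × ℤ))) a e := by
    rcases srel_iff.mp (mem_dst.mp ha).2 with h2 | h2
    · rcases ReflTransGen.cases_tail h2 with h3 | ⟨c, -, h3⟩
      · rw [h3]
      · exact absurd h3 (ini_nx ha')
    · exact h2
  rw [stt_eq ha' h1]
  exact ⟨ha', h1⟩

/-- from the first side the strand runs to the last one -/
theorem rtg_lst (ha : a ∈ bS ZQ F) (h : ReflTransGen (Nx ZQ ω (F : Set (ℤ × ℤ))) a e) :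
    ReflTransGen (Nx ZQ ω (F : Set (ℤ × ℤ))) e (mate ZQ F ω a).swap := by
  have h1 := (mate_spec ω ha).2
  have h2 : Ter ZQ (F : Set (ℤ × ℤ)) (mate ZQ F ω a).swap :=
    ter_swap.mpr (SixB.mem_bS.mp (mate_mem ha)).2
  clear ha
  induction h with
  | refl => exact h1
  | @tail x y _ hxy ih =>
    rcases ReflTransGen.cases_head ih with h3 | ⟨z, h3, h4⟩
    · rw [h3] at hxy
      exact absurd hxy (ter_nx h2)
    · rw [hxy.unique h3]
      exact h4

/-- from a smaller set of faces to a bigger one, up to the end of the strand -/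
theorem rtg_between (hF : F ⊆ F') {t : DZ} (ht : Ter ZQ (F' : Set (ℤ × ℤ)) t)
    (h : ReflTransGen (Nx ZQ ω (F : Set (ℤ × ℤ))) a t)
    (h' : ReflTransGen (Nx ZQ ω (F' : Set (ℤ × ℤ))) a e) :
    ReflTransGen (Nx ZQ ω (F : Set (ℤ × ℤ))) a e ∧ ReflTransGen (Nx ZQ ω (F : Set (ℤ × ℤ))) e t := by
  induction h' with
  | refl => exact ⟨ReflTransGen.refl, h⟩
  | @tail x y _ hxy ih =>
    obtain ⟨h1, h2⟩ := ih
    rcases ReflTransGen.cases_head h2 with h3 | ⟨z, h3, h4⟩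
    · rw [h3] at hxy
      exact absurd hxy (ter_nx ht)
    · have h5 : Nx ZQ ω (F' : Set (ℤ × ℤ)) x z := Nx.mono (by exact_mod_cast hF) h3
      rw [hxy.unique h5]
      exact ⟨h1.tail h3, h4⟩

/-! ## Wall sides -/

theorem mem_wS {w : ℤ} : a ∈ wS w ↔ ∃ i, -w ≤ i ∧ i ≤ w ∧ a = wsd i := by
  unfold wS
  simp only [Finset.mem_image, Finset.mem_Icc]
  constructor
  · rintro ⟨i, ⟨h1, h2⟩, rfl⟩
    exact ⟨i, h1, h2, rfl⟩
  · rintro ⟨i, h1, h2, rfl⟩
    exact ⟨i, ⟨h1, h2⟩, rfl⟩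

theorem wS_mono (h : R ≤ R') (ha : a ∈ wS R) : a ∈ wS R' := by
  obtain ⟨i, h1, h2, rfl⟩ := mem_wS.mp ha
  exact mem_wS.mpr ⟨i, by omega, by omega, rfl⟩

theorem wsd_sd (i : ℤ) : wsd i = sd ZQ (i, 0) 0 := rfl

theorem wsd_ini (i : ℤ) (R : ℤ) : Ini ZQ (HB0 R : Set (ℤ × ℤ)) (wsd i) := by
  rintro ⟨u, v⟩ hf k h
  rw [Finset.mem_coe, HB0, mem_RF] at hf
  simp only at hf
  unfold wsd at h
  rcases Tilt.k4 k with rfl | rfl | rfl | rfl
  · change ((i, (0 : ℤ)), (i + 1, (0 : ℤ))) = ((u + 1, v), (u, v)) at h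
    simp only [Prod.mk.injEq] at h
    omega
  · change ((i, (0 : ℤ)), (i + 1, (0 : ℤ))) = ((u + 1, v + 1), (u + 1, v)) at h
    simp only [Prod.mk.injEq] at h
    omega
  · change ((i, (0 : ℤ)), (i + 1, (0 : ℤ))) = ((u, v + 1), (u + 1, v + 1)) at h
    simp only [Prod.mk.injEq] at h
    omega
  · change ((i, (0 : ℤ)), (i + 1, (0 : ℤ))) = ((u, v), (u, v + 1)) at h
    simp only [Prod.mk.injEq] at h
    omega

theorem wS_bS (hR : 1 ≤ R) (ha : a ∈ wS R) : a ∈ bS ZQ (HB0 R) := by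
  obtain ⟨i, h1, h2, rfl⟩ := mem_wS.mp ha
  refine SixB.mem_bS.mpr ⟨?_, wsd_ini i R⟩
  rw [wsd_sd]
  refine sd_mem ?_ 0
  rw [HB0, mem_RF]
  simp only
  omega

/-! ## Complete strands -/

/-- a strand which starts and ends at the wall -/
def Arc (R : ℤ) (ω : Cfg) (a b e : DZ) : Prop :=
  a ∈ wS R ∧ b ∈ wS R ∧ ReflTransGen (Nx ZQ ω (HB0 R : Set (ℤ × ℤ))) a e ∧
    ReflTransGen (Nx ZQ ω (HB0 R : Set (ℤ × ℤ))) e b.swap

theorem Arc.stt (hR : 1 ≤ R) (h : Arc R ω a b e) : stt (HB0 R) ω e = a ∧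
    mate ZQ (HB0 R) ω a = b ∧ ¬ Clo ZQ (HB0 R) ω e := by
  obtain ⟨h1, h2, h3, h4⟩ := h
  have ha := wS_bS hR h1
  have hb := wS_bS hR h2
  have hai := (SixB.mem_bS.mp ha).2
  refine ⟨stt_eq hai h3, mate_eq ha hb (h3.trans h4), not_clo hai h3⟩

theorem full_iff (hR : 1 ≤ R) : Full R ω e ↔ Clo ZQ (HB0 R) ω e ∨ ∃ a b, Arc R ω a b e := by
  unfold Full
  constructor
  · rintro (h | ⟨h1, h2⟩)
    · exact Or.inl h
    · by_cases hc : Clo ZQ (HB0 R) ω e
      · exact Or.inl hc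
      right
      have he : e ∈ dE ZQ (HB0 R) := by
        by_contra he
        have ht : Ter ZQ (HB0 R : Set (ℤ × ℤ)) e.swap := by
          intro f hf k hk
          apply he
          refine mem_dE.mpr ⟨f, by exact_mod_cast hf, k, Or.inr ?_⟩
          rw [← Prod.swap_swap e, hk]
          rfl
        have hex : ∃ b, b ∈ Orb ZQ ω (HB0 R : Set (ℤ × ℤ)) e.swap ∧
            Ter ZQ (HB0 R : Set (ℤ × ℤ)) b := ⟨e.swap, ReflTransGen.refl, ht⟩
        have h3 : SixB.stt (HB0 R) ω e = e := by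
          unfold SixB.stt lst
          rw [dif_pos hex]
          obtain ⟨h4, h5⟩ := hex.choose_spec
          rw [ter_uniq h5 ht (EqvGen.symm _ _ (srel_iff.mpr (Or.inl h4))), Prod.swap_swap]
        rw [h3] at h1
        exact he (SixB.mem_bS.mp (wS_bS hR h1)).1
      obtain ⟨h3, h4⟩ := stt_spec he hc
      exact ⟨_, _, h1, h2, h4, rtg_lst (wS_bS hR h1) h4⟩
  · rintro (h | ⟨a, b, h⟩)
    · exact Or.inl h
    · right
      obtain ⟨h1, h2, -⟩ := h.stt hR
      rw [h1, h2]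
      exact ⟨h.1, h.2.1⟩

theorem Arc.mem (hR : 1 ≤ R) (h : Arc R ω a b e) : e ∈ dE ZQ (HB0 R) :=
  srel_dE (srel_iff.mpr (Or.inl h.2.2.1)) (SixB.mem_bS.mp (wS_bS hR h.1)).1

theorem full_mem (hR : 1 ≤ R) (h : Full R ω e) : e ∈ dE ZQ (HB0 R) := by
  rcases (full_iff hR).mp h with h | ⟨a, b, h⟩
  · exact h.mem
  · exact h.mem hR

theorem Arc.mono (hRR : R ≤ R') (h : Arc R ω a b e) : Arc R' ω a b e := by
  obtain ⟨h1, h2, h3, h4⟩ := h
  have hs := HB0_mono hRR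
  exact ⟨wS_mono hRR h1, wS_mono hRR h2, rtg_sub hs h3, rtg_sub hs h4⟩

theorem Arc.swap (h : Arc R ω a b e) : Arc R ω b a e.swap := by
  obtain ⟨h1, h2, h3, h4⟩ := h
  have h5 := SixB.rtg_rev h4
  rw [Prod.swap_swap] at h5
  exact ⟨h2, h1, h5, SixB.rtg_rev h3⟩

/-- the strand does not see the bigger half box -/
theorem Arc.inv (hR : 1 ≤ R) (hRR : R ≤ R') (h : Arc R ω a b e) (hs : SRel ZQ (HB0 R') ω e e') :
    Arc R ω a b e' := by
  obtain ⟨h1, h2, h3, h4⟩ := h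
  have hsub := HB0_mono hRR
  have ha := (SixB.mem_bS.mp (wS_bS (hR.trans hRR) (wS_mono hRR h1))).2
  have hb := (SixB.mem_bS.mp (wS_bS (hR.trans hRR) (wS_mono hRR h2))).2
  have h5 : SRel ZQ (HB0 R') ω a e' :=
    EqvGen.trans _ _ _ (srel_iff.mpr (Or.inl (rtg_sub hsub h3))) hs
  have h6 : ReflTransGen (Nx ZQ ω (HB0 R' : Set (ℤ × ℤ))) a e' := by
    rcases srel_iff.mp h5 with h6 | h6
    · exact h6
    · rcases ReflTransGen.cases_tail h6 with h7 | ⟨c, -, h7⟩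
      · rw [h7]
      · exact absurd h7 (ini_nx ha)
  obtain ⟨h7, h8⟩ := rtg_between hsub (ter_swap.mpr hb) (h3.trans h4) h6
  exact ⟨h1, h2, h7, h8⟩

theorem full_inv (hR : 1 ≤ R) (hRR : R ≤ R') (h : Full R ω e) (hs : SRel ZQ (HB0 R') ω e e') :
    Full R ω e' := by
  rw [full_iff hR] at h ⊢
  rcases h with h | ⟨a, b, h⟩
  · exact Or.inl (h.of_srel (h.srel_of (HB0_mono hRR) hs))
  · exact Or.inr ⟨a, b, h.inv hR hRR hs⟩

theorem full_swap (hR : 1 ≤ R) (h : Full R ω e) : Full R ω e.swap := by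
  rw [full_iff hR] at h ⊢
  rcases h with h | ⟨a, b, h⟩
  · exact Or.inl h.swap
  · exact Or.inr ⟨b, a, h.swap⟩

open Classical in
theorem Arc.natA (hR : 1 ≤ R) (h : Arc R ω a b e) :
    natA R ω e = if a.1.1 < b.1.1 then -(1 / Real.sqrt 3) else 1 / Real.sqrt 3 := by
  obtain ⟨h1, h2, h3⟩ := h.stt hR
  unfold SixB.natA
  rw [if_neg h3, h1, h2]

theorem clo_natA (h : Clo ZQ (HB0 R) ω e) :
    natA R ω e = Real.sqrt 3 / 4 * (trn ZQ (HB0 R) ω e : ℝ) := by
  unfold SixB.natA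
  rw [if_pos h]

theorem Arc.ne (hR : 1 ≤ R) (h : Arc R ω a b e) : a.1.1 ≠ b.1.1 := by
  intro hab
  obtain ⟨h1, h2, h3⟩ := h.stt hR
  have h4 := mate_ne (ω := ω) zq_noLoop (wS_bS hR h.1)
  rw [h2] at h4
  obtain ⟨i, -, -, hi⟩ := mem_wS.mp h.1
  obtain ⟨j, -, -, hj⟩ := mem_wS.mp h.2.1
  rw [hi, hj] at hab h4
  apply h4
  change i = j at hab
  rw [hab]

theorem full_natA (hR : 1 ≤ R) (hRR : R ≤ R') (h : Full R ω e) :
    Full R' ω e ∧ natA R' ω e = natA R ω e := by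
  rw [full_iff hR] at h
  rw [full_iff (hR.trans hRR)]
  rcases h with h | ⟨a, b, h⟩
  · have h' := h.mono (HB0_mono hRR)
    refine ⟨Or.inl h', ?_⟩
    rw [clo_natA h, clo_natA h', h.trn_eq (HB0_mono hRR)]
  · have h' := h.mono hRR
    exact ⟨Or.inr ⟨a, b, h'⟩, by rw [h.natA hR, h'.natA (hR.trans hRR)]⟩

theorem natA_srel (hR : 1 ≤ R) (h : Full R ω e) (hs : SRel ZQ (HB0 R) ω e e') :
    natA R ω e' = natA R ω e := by
  rcases (full_iff hR).mp h with h | ⟨a, b, h⟩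
  · rw [clo_natA h, clo_natA (h.of_srel hs), SixB.trn_eq hs]
  · rw [h.natA hR, (h.inv hR le_rfl hs).natA hR]

theorem natA_swap (hR : 1 ≤ R) (h : Full R ω e) : natA R ω e.swap = -natA R ω e := by
  rcases (full_iff hR).mp h with h | ⟨a, b, h⟩
  · rw [clo_natA h, clo_natA h.swap, trn_swap]
    push_cast
    ring
  · rw [h.natA hR, h.swap.natA hR]
    have := h.ne hR
    by_cases h1 : a.1.1 < b.1.1
    · rw [if_pos h1, if_neg (by omega), neg_neg]
    · rw [if_neg h1, if_pos (by omega)]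

theorem sqrt3_pos : (0 : ℝ) < Real.sqrt 3 := Real.sqrt_pos.mpr (by norm_num)

theorem inv_sqrt3_le : 1 / Real.sqrt 3 ≤ Real.sqrt 3 := by
  rw [div_le_iff₀ sqrt3_pos, Real.mul_self_sqrt (by norm_num)]
  norm_num

theorem abs_natA (hR : 1 ≤ R) (h : Full R ω e) : |natA R ω e| ≤ Real.sqrt 3 := by
  have h0 := sqrt3_pos
  have h1 := inv_sqrt3_le
  have h2 : (0 : ℝ) < 1 / Real.sqrt 3 := by positivity
  rcases (full_iff hR).mp h with h | ⟨a, b, h⟩
  · rw [clo_natA h]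
    rcases uml_ZQ (HB0 R) ω e h with h3 | h3
    · rw [h3, abs_le]
      push_cast
      constructor <;> linarith
    · rw [h3, abs_le]
      push_cast
      constructor <;> linarith
  · rw [h.natA hR]
    split_ifs
    · rw [abs_neg, abs_of_pos h2]
      exact h1
    · rw [abs_of_pos h2]
      exact h1

/-! ## A strand which is complete in `HB0 R'` but not in `HB0 R` crosses the half annulus -/

/-- strictly inside the box of radius `R` -/
def Str (R : ℤ) (x : UE) : Prop := InE (0, 0) R x ∧ ¬ BdR (0, 0) R x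

theorem str_face {f : ℤ × ℤ} {x : UE} (hf : f ∈ HB0 R') (hs : IsSide f x) (hx : Str R x) :
    f ∈ HB0 R := by
  obtain ⟨u, v⟩ := f
  rw [HB0, mem_RF] at hf ⊢
  simp only at hf ⊢
  obtain ⟨h1, h2⟩ := hx
  unfold InE InR at h1
  unfold BdR BdE at h2
  unfold IsSide at hs
  rcases hs with rfl | rfl | rfl | rfl <;>
    simp [bo, le', to', ri, ua_mk, ub_false, ub_true] at h1 h2 <;> omega

theorem str_nx (h : Nx ZQ ω (HB0 R' : Set (ℤ × ℤ)) e e') (hx : Str R (und e)) :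
    Nx ZQ ω (HB0 R : Set (ℤ × ℤ)) e e' := by
  obtain ⟨f, hf, k, rfl, h1⟩ := h
  have h2 : und (sd ZQ f k) = su f k := und_sd f k
  refine ⟨f, ?_, k, rfl, h1⟩
  have h3 : und (ZQ.c f k, ZQ.c f (k + 1)) = su f k := h2
  rw [h3] at hx
  exact_mod_cast str_face (by exact_mod_cast hf) (su_isSide f k) hx

theorem str_rtg (h : ReflTransGen (Nx ZQ ω (HB0 R' : Set (ℤ × ℤ))) e e')
    (hx : ∀ y, ReflTransGen (Nx ZQ ω (HB0 R' : Set (ℤ × ℤ))) e y → Str R (und y)) :
    ReflTransGen (Nx ZQ ω (HB0 R : Set (ℤ × ℤ))) e e' := by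
  induction h with
  | refl => exact ReflTransGen.refl
  | @tail y z h1 h2 ih => exact ih.tail (str_nx h2 (hx y h1))

theorem str_wS (ha : a ∈ wS R') (hx : Str R (und a)) : a ∈ wS R := by
  obtain ⟨i, h1, h2, rfl⟩ := mem_wS.mp ha
  have h3 : und (wsd i) = (i, 0, false) := by
    rw [wsd_sd, und_sd]
    rfl
  rw [h3] at hx
  obtain ⟨h4, -⟩ := hx
  unfold InE InR at h4
  simp only [ua_mk, ub_false] at h4
  exact mem_wS.mpr ⟨i, by omega, by omega, rfl⟩

theorem full_of_str (hR : 1 ≤ R) (hRR : R ≤ R') (h : Full R' ω e)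
    (hx : ∀ x ∈ MM ω (HB0 R' : Set (ℤ × ℤ)) (und e), Str R x) : Full R ω e := by
  have hx' : ∀ y, SRel ZQ (HB0 R') ω e y → Str R (und y) := fun y hy => hx _ (MM_of_srel hy)
  rw [full_iff (hR.trans hRR)] at h
  rw [full_iff hR]
  rcases h with h | ⟨a, b, h⟩
  · left
    obtain ⟨y, h1, h2⟩ := TransGen.head'_iff.mp h
    refine TransGen.head'_iff.mpr ⟨y, str_nx h1 (hx' e (EqvGen.refl _)), str_rtg h2 fun z hz => ?_⟩
    exact hx' z (EqvGen.trans _ _ _ (EqvGen.rel _ _ h1) (srel_iff.mpr (Or.inl hz)))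
  · right
    obtain ⟨h1, h2, h3, h4⟩ := h
    have ha : SRel ZQ (HB0 R') ω e a := EqvGen.symm _ _ (srel_iff.mpr (Or.inl h3))
    have hb : SRel ZQ (HB0 R') ω e b.swap := srel_iff.mpr (Or.inl h4)
    have hbd : b ∈ dE ZQ (HB0 R') := (SixB.mem_bS.mp (wS_bS (hR.trans hRR) h2)).1
    refine ⟨a, b, str_wS h1 (hx' a ha), str_wS h2 ?_, str_rtg h3 fun z hz => ?_,
      str_rtg h4 fun z hz => ?_⟩
    · have := hx' _ hb
      rwa [und_swap hbd] at this
    · exact hx' z (EqvGen.trans _ _ _ ha (srel_iff.mpr (Or.inl hz)))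
    · exact hx' z (srel_iff.mpr (Or.inl hz))

/-! ## The pointwise bound -/

theorem und_pe (x j : ℤ) : und (WEnv.pe x j) = (x, j, true) := by
  unfold WEnv.pe und
  rw [if_pos rfl]
  simp

open Classical in
theorem fIn_sub {x y y' : ℤ} (hR : 1 ≤ R) (hRR : R ≤ R') (ω : Cfg) :
    fIn R' x y y' ω - fIn R x y y' ω = ∑ j ∈ Finset.Ico y' y,
      if Full R' ω (WEnv.pe x j) ∧ ¬ Full R ω (WEnv.pe x j) then natA R' ω (WEnv.pe x j) else 0 := by
  unfold fIn
  rw [← Finset.sum_sub_distrib]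
  refine Finset.sum_congr rfl fun j _ => ?_
  by_cases h1 : Full R ω (WEnv.pe x j)
  · obtain ⟨h2, h3⟩ := full_natA hR hRR h1
    rw [if_pos h2, if_pos h1, if_neg (fun h => h.2 h1), h3, sub_self]
  · by_cases h2 : Full R' ω (WEnv.pe x j)
    · rw [if_pos h2, if_neg h1, if_pos ⟨h2, h1⟩, sub_zero]
    · rw [if_neg h2, if_neg h1, if_neg (fun h => h2 h.1), sub_zero]

theorem abs_fIn_sub_triv {x y y' : ℤ} (hR : 1 ≤ R) (hRR : R ≤ R') (hyy : y' ≤ y) (ω : Cfg) :
    |fIn R' x y y' ω - fIn R x y y' ω| ≤ Real.sqrt 3 * ((y : ℝ) - y') := by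
  classical
  rw [fIn_sub hR hRR]
  refine (Finset.abs_sum_le_sum_abs _ _).trans ((Finset.sum_le_card_nsmul _ _ (Real.sqrt 3)
    fun j _ => ?_).trans (le_of_eq ?_))
  · split_ifs with h
    · exact abs_natA (hR.trans hRR) h.1
    · rw [abs_zero]
      exact Real.sqrt_nonneg _
  · rw [Int.card_Ico, nsmul_eq_mul, mul_comm]
    congr 1
    have : (((y - y').toNat : ℤ) : ℝ) = ((y - y' : ℤ) : ℝ) := by rw [Int.toNat_of_nonneg (by omega)]
    rw [← Int.cast_natCast, this]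
    push_cast
    ring

theorem abs_fIn_sub_le (hN : NET) {x y y' r : ℤ} (hx : 0 ≤ x) (hx' : x ≤ 1) (hr : 1 ≤ r)
    (hy' : 0 ≤ y') (hyy : y' ≤ y) (hyr : y ≤ r) (hrR : 2 * r ≤ R) (hr1 : r + 1 < R) (hRR : R ≤ R')
    (ω : Cfg) : |fIn R' x y y' ω - fIn R x y y' ω| ≤
      Real.sqrt 3 * (NF (HW 0 0) (0, 0) (r + 1) R ω : ℝ) := by
  classical
  have hR : 1 ≤ R := by omega
  have hR' : 1 ≤ R' := by omega
  set P : DZ → Prop := fun e => Full R' ω e ∧ ¬ Full R ω e with hP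
  have hRF : HB0 R' = RF (-R') (R' + 1) 0 R' := rfl
  obtain ⟨S, hS1, hS2, -, hS4⟩ := hN (-R') (R' + 1) 0 R' x y y' ω (by omega) (by omega) (by omega) hy' hyy
    (by omega) P (natA R' ω) (Real.sqrt 3) (Real.sqrt_nonneg _) (by
      rintro e e' - hs ⟨h1, h2⟩
      rw [← hRF] at hs
      refine ⟨full_inv hR' le_rfl h1 hs, fun h3 => h2 ?_⟩
      exact full_inv hR hRR h3 (EqvGen.symm _ _ hs)) (by
      rintro e ⟨h1, h2⟩
      refine ⟨full_swap hR' h1, fun h3 => h2 ?_⟩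
      have := full_swap hR h3
      rwa [Prod.swap_swap] at this) (by
      rintro e e' - hs ⟨h1, -⟩
      rw [← hRF] at hs
      exact natA_srel hR' h1 hs) (by
      rintro e ⟨h1, -⟩
      exact natA_swap hR' h1) (by
      rintro e ⟨h1, -⟩
      exact abs_natA hR' h1)
  rw [fIn_sub hR hRR]
  refine (by convert hS4 : |∑ j ∈ Finset.Ico y' y, if Full R' ω (WEnv.pe x j) ∧
    ¬ Full R ω (WEnv.pe x j) then natA R' ω (WEnv.pe x j) else 0| ≤ Real.sqrt 3 * S.card).trans ?_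
  refine mul_le_mul_of_nonneg_left ?_ (Real.sqrt_nonneg _)
  have hcard := card_le_sum_NF (G := HW 0 0) (ι := Unit) hS2 Finset.univ (fun _ => ((0, 0) : ℤ × ℤ))
    (r := r + 1) (R := R) (by omega) hr1 (by
      rintro i - f ⟨hf, -⟩
      rw [Finset.mem_coe, mem_RF] at hf
      exact hf.2.2.1) (by
      intro b hb
      obtain ⟨j, hj, rfl, hPj⟩ := hS1 b hb
      rw [Finset.mem_Ico] at hj
      refine ⟨(), Finset.mem_univ _, ⟨_, mem_MM_self, ?_⟩, ?_⟩
      · unfold InE InR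
        simp only [ua_mk, ub_true]
        omega
      · by_contra hcon
        push Not at hcon
        apply hPj.2
        refine full_of_str hR hRR hPj.1 fun z hz => ?_
        rw [und_pe] at hz
        rw [hRF] at hz
        exact hcon z hz)
  rw [Finset.sum_const, Finset.card_univ, Fintype.card_unit, one_smul] at hcard
  exact_mod_cast hcard

/-! ## Averages -/

theorem cfg_ind (T : Finset (ℤ × ℤ)) : cfg T = ind T := by
  funext f
  unfold cfg ind
  congr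

theorem dep_NF (r R : ℤ) : Dep (HB0 R : Set (ℤ × ℤ))
    (fun ω => (NF (HW 0 0) (0, 0) r R ω : ℝ)) := by
  classical
  intro ω ω' h
  have : NF (HW 0 0) (0, 0) r R ω = NF (HW 0 0) (0, 0) r R ω' := by
    unfold NF
    congr 1
    ext b
    rw [Finset.mem_filter, Finset.mem_filter, MM_congr' (ω := ω) (ω' := ω')
      (F := HW 0 0 ∩ (PercN.An (0, 0) r R : Set (ℤ × ℤ))) fun f hf => h f ?_]
    obtain ⟨h1, h2⟩ := hf
    have h3 := (PercN.mem_An.1 (Finset.mem_coe.1 h2)).1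
    unfold PercD.BR at h3
    rw [mem_RF] at h3
    have h4 : 0 ≤ f.2 := h1
    rw [Finset.mem_coe, HB0, mem_RF]
    simp only at h3
    omega
  simp only [this]

theorem av_NF {S W : Finset (ℤ × ℤ)} {r R : ℤ} (hS : HB0 R ⊆ S) (hW : S ⊆ W) :
    av S (fun ω => (NF (HW 0 0) (0, 0) r R ω : ℝ)) =
      (∑ T ∈ W.powerset, (NF (HW 0 0) (0, 0) r R (cfg T) : ℝ)) / 2 ^ W.card := by
  rw [← av_dep ((dep_NF r R).mono (by exact_mod_cast hS)) hW]
  unfold av
  simp only [cfg_ind]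

theorem v7 (hN : NET) (hA : A1S) : V7 := by
  classical
  obtain ⟨C₁, hC₁, h1⟩ := hA
  obtain ⟨C₂, hC₂, h2⟩ := exp_NF_ge (lam := 2) (by norm_num)
  obtain ⟨C₃, hC₃, h3⟩ := NF_moment 3 (lam := 2) (by norm_num)
  have h0 := sqrt3_pos
  refine ⟨Real.sqrt 3 * (4 * (C₂ * C₁) + 4 * C₃ + 2), by positivity, ?_⟩
  intro S x y y' r R R' hx hx' hr hy' hyy hyr hrR hRR hRR' hS
  have hR : 1 ≤ R := by omega
  have hRr : (0 : ℝ) < R := by exact_mod_cast hR
  have hr0 : (1 : ℝ) ≤ r := by exact_mod_cast hr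
  have hq : (0 : ℝ) ≤ (r : ℝ) / R := by positivity
  rcases lt_or_ge (r + 1) R with hr1 | hr1
  · -- counting
    have e1 : av S (fun ω => |fIn R' x y y' ω - fIn R x y y' ω|) ≤
        Real.sqrt 3 * av S (fun ω => (NF (HW 0 0) (0, 0) (r + 1) R ω : ℝ)) := by
      rw [← av_mul]
      exact av_mono fun T _ => abs_fIn_sub_le hN hx hx' hr hy' hyy hyr hrR hr1 hRR _
    have e2 : av S (fun ω => (NF (HW 0 0) (0, 0) (r + 1) R ω : ℝ)) ≤
        (4 * (C₂ * C₁) + 4 * C₃ + 2) * ((r : ℝ) / R) := by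
      rw [av_NF (W := S ∪ PercD.BR (0, 0) R) ((HB0_mono hRR).trans hS) Finset.subset_union_left]
      have hBW : PercD.BR (0, 0) R ⊆ S ∪ PercD.BR (0, 0) R := Finset.subset_union_right
      have hpow : ∀ n : ℕ, (n : ℝ) ≤ 2 ^ n := by
        intro n
        exact_mod_cast (Nat.lt_two_pow_self (n := n)).le
      rcases lt_or_ge (2 * (r + 1)) R with hr2 | hr2
      · have f1 := h2 (HW 0 0) (0, 0) (r + 1) R (S ∪ PercD.BR (0, 0) R) 1 (by omega) hr2 hBW
        have f2 := h1 (2 * (r + 1)) R (S ∪ PercD.BR (0, 0) R) (by omega) hr2.le hBW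
        have f3 : (∑ T ∈ (S ∪ PercD.BR (0, 0) R).powerset,
            (NF (HW 0 0) (0, 0) (r + 1) R (cfg T) : ℝ)) / 2 ^ (S ∪ PercD.BR (0, 0) R).card ≤
            C₂ * pr (S ∪ PercD.BR (0, 0) R)
              {ω | 1 ≤ NF (HW 0 0) (0, 0) (2 * (r + 1)) R ω} := by
          refine (div_le_div_of_nonneg_right (Finset.sum_le_sum fun T _ => ?_)
            (by positivity)).trans f1
          split_ifs with h
          · exact hpow _
          · rw [show NF (HW 0 0) (0, 0) (r + 1) R (cfg T) = 0 by omega]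
            simp
        refine (f3.trans (mul_le_mul_of_nonneg_left f2 hC₂.le)).trans ?_
        have f4 : (((2 * (r + 1) : ℤ) : ℝ) / R) ≤ 4 * ((r : ℝ) / R) := by
          rw [← mul_div_assoc]
          refine div_le_div_of_nonneg_right ?_ hRr.le
          push_cast
          linarith
        calc C₂ * (C₁ * (((2 * (r + 1) : ℤ) : ℝ) / R)) ≤ C₂ * (C₁ * (4 * ((r : ℝ) / R))) := by
              gcongr
          _ = (4 * (C₂ * C₁)) * ((r : ℝ) / R) := by ring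
          _ ≤ (4 * (C₂ * C₁) + 4 * C₃ + 2) * ((r : ℝ) / R) := by
              refine mul_le_mul_of_nonneg_right ?_ hq
              linarith
      · have f1 := h3 (HW 0 0) (0, 0) (r + 1) R (S ∪ PercD.BR (0, 0) R) (by omega) hr1
          (by push_cast; omega) hBW
        have f2 : (∑ T ∈ (S ∪ PercD.BR (0, 0) R).powerset,
            (NF (HW 0 0) (0, 0) (r + 1) R (cfg T) : ℝ)) / 2 ^ (S ∪ PercD.BR (0, 0) R).card ≤ C₃ :=
          (div_le_div_of_nonneg_right (Finset.sum_le_sum fun T _ => hpow _) (by positivity)).trans f1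
        refine f2.trans ?_
        have f3 : (1 : ℝ) ≤ 4 * ((r : ℝ) / R) := by
          rw [← mul_div_assoc, le_div_iff₀ hRr, one_mul]
          have : (R : ℝ) ≤ 2 * (r + 1) := by exact_mod_cast hr2
          linarith
        calc C₃ = C₃ * 1 := by ring
          _ ≤ C₃ * (4 * ((r : ℝ) / R)) := by gcongr
          _ = (4 * C₃) * ((r : ℝ) / R) := by ring
          _ ≤ (4 * (C₂ * C₁) + 4 * C₃ + 2) * ((r : ℝ) / R) := by
              refine mul_le_mul_of_nonneg_right ?_ hq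
              have : 0 < C₂ * C₁ := by positivity
              linarith
    refine e1.trans ?_
    rw [mul_assoc]
    exact mul_le_mul_of_nonneg_left e2 h0.le
  · -- `r = 1`, `R = 2`
    obtain rfl : r = 1 := by omega
    obtain rfl : R = 2 := by omega
    have e1 : av S (fun ω => |fIn R' x y y' ω - fIn 2 x y y' ω|) ≤ av S (fun _ => Real.sqrt 3) := by
      refine av_mono fun T _ => (abs_fIn_sub_triv hR hRR hyy _).trans ?_
      have : (y : ℝ) - y' ≤ 1 := by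
        have h5 : y - y' ≤ 1 := by omega
        exact_mod_cast h5
      calc Real.sqrt 3 * ((y : ℝ) - y') ≤ Real.sqrt 3 * 1 := by gcongr
        _ = Real.sqrt 3 := mul_one _
    rw [av_const] at e1
    refine e1.trans ?_
    have : 0 < C₂ * C₁ := by positivity
    push_cast
    nlinarith

end

end Pool.Agent.SixB.S4W3c
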