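import Pool.Agent.Lib.SixB.S4W3Defs
import Pool.Agent.Lib.SixB.S4Plane
import Pool.Agent.Lib.SixB.S4Half
import Pool.Agent.Lib.SixB.S6LPerc

/-!
# 6BD step 4, rows V3a, V3b, V4 of S4W3Defs

Legs in the sense of Lemma 4.A (directed strand pieces of `ZQ`) are strands which cross an annulus
(`NF`). One strand crosses an annulus in the bulk with probability at most `C (s / t) ^ (1 / 4)`.
-/

set_option autoImplicit false

namespace Pool.Agent.SixB.W3d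

open Finset Pool.Agent.SixB Pool.Agent.Perc Pool.Agent.PercD Pool.Agent.Perc.Q Pool.Agent.Perc6
  Relation Pool.Agent.SixB.Tilt

variable {F A : Finset (ℤ × ℤ)} {ω : Cfg} {x y a b : DZ} {l d : ℤ}

theorem side_of_ah (h : Ah ZQ A x) : ∃ f ∈ A, IsSide f (und x) := by
  obtain ⟨f, hf, k, rfl⟩ := h
  refine ⟨f, hf, ?_⟩
  rw [und_sd]
  exact su_isSide f k

theorem side_of_ah_swap (h : Ah ZQ A x.swap) : ∃ f ∈ A, IsSide f (und x) := by
  obtain ⟨f, hf, k, e⟩ := h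
  refine ⟨f, hf, ?_⟩
  have : x = (sd ZQ f k).swap := by
    rw [← e, Prod.swap_swap]
  rw [this, und_sd_swap]
  exact su_isSide f k

theorem mm_of_rtg (h : ReflTransGen (Nx ZQ ω (A : Set (ℤ × ℤ))) x y) :
    und y ∈ MM ω (A : Set (ℤ × ℤ)) (und x) := by
  induction h with
  | refl => exact mem_MM_self
  | tail _ hs ih =>
    obtain ⟨f, hf, hm⟩ := und_nx hs
    exact MM_step (by exact_mod_cast hf) hm ih

/-- A leg has a first step, if `I` and `F \ M` have no common side. -/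
theorem leg_step {I M : Finset (ℤ × ℤ)}
    (hadj : ∀ f ∈ I, ∀ g ∈ F \ M, ∀ e : UE, IsSide f e → IsSide g e → False)
    (h : Leg ZQ ω F I M a) : Ah ZQ I a.swap ∧ Ah ZQ (M \ I) a ∧ ∃ b,
      ReflTransGen (Nx ZQ ω ((M \ I : Finset (ℤ × ℤ)) : Set (ℤ × ℤ))) a b ∧
      Ah ZQ (M \ I) b.swap ∧ Ah ZQ (F \ M) b := by
  obtain ⟨h1, b, h2, h3⟩ := h
  have hne : a ≠ b := by
    rintro rfl
    obtain ⟨f, hf, hf1⟩ := side_of_ah_swap h1
    obtain ⟨g, hg, hg1⟩ := side_of_ah h3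
    exact hadj f hf g hg _ hf1 hg1
  rcases ReflTransGen.cases_head h2 with e | ⟨c, hc, -⟩
  · exact absurd e hne
  · rcases ReflTransGen.cases_tail h2 with e | ⟨c', -, hc'⟩
    · exact absurd e.symm hne
    · exact ⟨h1, ah_left hc, b, h2, ah_right hc', h3⟩

/-- Adjacent faces. -/
theorem adj_of_side {f g : ℤ × ℤ} {e : UE} (hf : IsSide f e) (hg : IsSide g e) :
    (f.1 = g.1 ∧ g.2 - f.2 ≤ 1 ∧ f.2 - g.2 ≤ 1) ∨ (f.2 = g.2 ∧ g.1 - f.1 ≤ 1 ∧ f.1 - g.1 ≤ 1) := by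
  obtain ⟨x, y⟩ := f
  obtain ⟨u, v⟩ := g
  obtain ⟨p, q, c⟩ := e
  unfold IsSide bo le' to' ri at hf hg
  simp only [Prod.mk.injEq] at hf hg
  rcases hf with h | h | h | h <;> rcases hg with h' | h' | h' | h' <;>
    obtain ⟨h1, h2, h3⟩ := h <;> obtain ⟨h4, h5, h6⟩ := h' <;>
    first
    | (subst h3; exact absurd h6 (by decide))
    | (simp only; omega)

theorem mem_HB0 {w : ℤ} {f : ℤ × ℤ} : f ∈ HB0 w ↔ -w ≤ f.1 ∧ f.1 < w + 1 ∧ 0 ≤ f.2 ∧ f.2 < w := by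
  unfold HB0
  rw [← Finset.mem_coe, mem_RF']

/-- The two ends of a leg of the half plane. -/
theorem leg_ends (hld : l < d) (hb : ∀ i : ℤ, -(2 * d) ≤ i → i ≤ 2 * d → (i, -1) ∉ F)
    (h : Leg ZQ ω F (HB0 l) (HB0 d) a) : Half.S3 (-l) (l + 1) l (und a) ∧
      Ah ZQ (HB0 l) a.swap ∧ Ah ZQ (HB0 d \ HB0 l) a ∧ ∃ e : UE,
      e ∈ MM ω (RF (-d) (d + 1) 0 d \ RF (-l) (l + 1) 0 l : Set (ℤ × ℤ)) (und a) ∧
      Half.S3 (-d) (d + 1) d e := by
  have hadj : ∀ f ∈ HB0 l, ∀ g ∈ F \ HB0 d, ∀ e : UE, IsSide f e → IsSide g e → False := by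
    intro f hf g hg e h1 h2
    have h3 := adj_of_side h1 h2
    rw [mem_HB0] at hf
    rw [Finset.mem_sdiff, mem_HB0] at hg
    obtain ⟨g1, g2⟩ := g
    have h4 : g2 = -1 ∧ -(2 * d) ≤ g1 ∧ g1 ≤ 2 * d := by
      simp only at hg h3
      omega
    obtain ⟨rfl, h5, h6⟩ := h4
    exact hb g1 h5 h6 hg.1
  obtain ⟨h1, h2, b, h3, h4, h5⟩ := leg_step hadj h
  have hl : 0 ≤ l := by
    obtain ⟨f, hf, -⟩ := side_of_ah_swap h1
    rw [mem_HB0] at hf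
    omega
  refine ⟨?_, h1, h2, und b, ?_, ?_⟩
  · obtain ⟨f, hf, hf1⟩ := side_of_ah_swap h1
    obtain ⟨g, hg, hg1⟩ := side_of_ah h2
    rw [Finset.mem_sdiff] at hg
    have hf' : f ∈ (RF (-l) (l + 1) 0 l : Set (ℤ × ℤ)) := by exact_mod_cast hf
    refine Half.s3_of_side (Half.i3_of_side hf' hf1) hg1 (by exact_mod_cast hg.2) ?_
    have := mem_HB0.1 hg.1
    exact this.2.2.1
  · have h6 := mm_of_rtg h3
    rw [Finset.coe_sdiff] at h6
    exact h6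
  · obtain ⟨f, hf, hf1⟩ := side_of_ah_swap h4
    obtain ⟨g, hg, hg1⟩ := side_of_ah h5
    rw [Finset.mem_sdiff] at hf hg
    have hf' : f ∈ (RF (-d) (d + 1) 0 d : Set (ℤ × ℤ)) := by exact_mod_cast hf.1
    refine Half.s3_of_side (Half.i3_of_side hf' hf1) hg1 (by exact_mod_cast hg.2) ?_
    have h7 := adj_of_side hf1 hg1
    have h8 := mem_HB0.1 hf.1
    by_contra h9
    obtain ⟨g1, g2⟩ := g
    have h10 : g2 = -1 ∧ -(2 * d) ≤ g1 ∧ g1 ≤ 2 * d := by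
      simp only at h7 h8 h9
      omega
    obtain ⟨rfl, h11, h12⟩ := h10
    exact hb g1 h11 h12 hg.1

theorem hw_zero : HW 0 0 = {f : ℤ × ℤ | ((0, 0) : ℤ × ℤ).2 ≤ f.2} := rfl

theorem mem_UB_of_BdR {v : ℤ × ℤ} {r : ℤ} {a : UE} (hr : 0 ≤ r) (h : BdR v r a) :
    a ∈ UB v r := (h.inE hr).mem_UB

open Classical in
/-- Two different crossing strands are counted. -/
theorem two_le_NF_of {F' : Set (ℤ × ℤ)} {v : ℤ × ℤ} {r R : ℤ} {b b' a a' : UE} (hr : 0 ≤ r)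
    (hne : b ≠ b')
    (hb : BdR v r b) (hb' : BdR v r b') (ha : BdR v R a) (ha' : BdR v R a')
    (hm : a ∈ MM ω (F' ∩ (PercN.An v r R : Set (ℤ × ℤ))) b)
    (hm' : a' ∈ MM ω (F' ∩ (PercN.An v r R : Set (ℤ × ℤ))) b') : 2 ≤ NF F' v r R ω := by
  unfold NF
  refine Finset.one_lt_card.2 ⟨b, ?_, b', ?_, hne⟩
  · rw [Finset.mem_filter]
    exact ⟨mem_UB_of_BdR hr hb, hb, a, hm, ha⟩
  · rw [Finset.mem_filter]
    exact ⟨mem_UB_of_BdR hr hb', hb', a', hm', ha'⟩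

theorem an_eq {v : ℤ × ℤ} {r R : ℤ} : ({f | f ∈ BR v R ∧ f ∉ BR v r ∧ v.2 ≤ f.2} : Set (ℤ × ℤ)) =
    {f | v.2 ≤ f.2} ∩ (PercN.An v r R : Set (ℤ × ℤ)) := by
  ext f
  simp only [Set.mem_inter_iff, Set.mem_ofPred_eq, Finset.mem_coe, PercN.mem_An]
  tauto

theorem two_le_NF_of_X2 {v : ℤ × ℤ} {r R : ℤ} (hr : 0 ≤ r) (h : ω ∈ A2.X2 v r R) :
    2 ≤ NF {f | v.2 ≤ f.2} v r R ω := by
  obtain ⟨b, b', a, a', h1, h2, h3, h4, h5, h6, h7⟩ := h
  rw [an_eq] at h6 h7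
  exact two_le_NF_of hr h1 h2 h3 h4 h5 h6 h7

theorem two_le_NF_self {F' : Set (ℤ × ℤ)} (hd : 1 ≤ d) : 2 ≤ NF F' (0, 0) d d ω := by
  have h1 : BdR (0, 0) d ((d, 0, true) : UE) := by
    unfold BdR BdE
    simp
    omega
  have h2 : BdR (0, 0) d ((-d, 0, true) : UE) := by
    unfold BdR BdE
    simp
    omega
  refine two_le_NF_of (by omega) ?_ h1 h2 h1 h2 mem_MM_self mem_MM_self
  intro h
  have := (Prod.mk.inj h).1
  omega

theorem v3a : W3.V3a := by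
  intro F l d ω hl hld _ hb h1
  have h1' : ∃ a a', Leg ZQ ω F (HB0 l) (HB0 d) a ∧ Leg ZQ ω F (HB0 l) (HB0 d) a' ∧ a ≠ a' := by
    unfold Tilt.OneLeg at h1
    push Not at h1
    exact h1
  obtain ⟨a, a', ha, ha', hne⟩ := h1'
  obtain ⟨h2, h3, h4, e, h5, h6⟩ := leg_ends hld hb ha
  obtain ⟨h2', h3', h4', e', h5', h6'⟩ := leg_ends hld hb ha'
  have hl1 : 1 ≤ l := by
    obtain ⟨f, hf, -⟩ := side_of_ah_swap h3
    rw [mem_HB0] at hf
    omega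
  by_cases hd : l + 1 = d
  · rw [hd]
    exact two_le_NF_self (by omega)
  have hu : und a ≠ und a' := by
    intro h
    have hd1 : a ∈ dE ZQ (HB0 d \ HB0 l) := mem_dE_ah.2 (Or.inl h4)
    have hd2 : a' ∈ dE ZQ (HB0 d \ HB0 l) := mem_dE_ah.2 (Or.inl h4')
    rcases und_inj hd1 hd2 h with h7 | h7
    · exact hne h7
    · rw [h7] at h4
      exact ah_disj Finset.disjoint_sdiff h3' h4
  have h8 := Half.x2_of_ring (0, 0) rfl (r := l + 1) (R := d) (by omega : -l < l + 1) (by omega)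
    (by show (0 : ℤ) - (l + 1) ≤ -l; omega) (by show l + 1 ≤ (0 : ℤ) + (l + 1); omega) (by omega)
    (by show -d ≤ (0 : ℤ) - d; omega) (by show (0 : ℤ) + d ≤ d + 1; omega) (le_refl d) (by omega)
    hu h2 h5 h6 h2' h5' h6'
  exact two_le_NF_of_X2 (by omega) h8

/-! ## The bulk -/

/-- The two ends of a leg in the bulk. -/
theorem leg_ends_bulk {v : ℤ × ℤ} {s t : ℤ} (hst : s < t)
    (h : Leg ZQ ω F (BR v s) (BR v t) a) : BdR v s (und a) ∧ ∃ e : UE,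
      e ∈ MM ω (PercN.An v s t : Set (ℤ × ℤ)) (und a) ∧ BdR v t e ∧ 0 ≤ s := by
  have hadj : ∀ f ∈ BR v s, ∀ g ∈ F \ BR v t, ∀ e : UE, IsSide f e → IsSide g e → False := by
    intro f hf g hg e h1 h2
    have h3 := adj_of_side h1 h2
    rw [mem_BR] at hf
    rw [Finset.mem_sdiff, mem_BR] at hg
    omega
  obtain ⟨h1, h2, b, h3, h4, h5⟩ := leg_step hadj h
  refine ⟨?_, und b, ?_, ?_, ?_⟩
  · obtain ⟨f, hf, hf1⟩ := side_of_ah_swap h1
    obtain ⟨g, hg, hg1⟩ := side_of_ah h2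
    rw [Finset.mem_sdiff] at hg
    exact bd_of_side (inE_of_side (by exact_mod_cast hf) hf1) hg1 (by exact_mod_cast hg.2)
  · exact mm_of_rtg h3
  · obtain ⟨f, hf, hf1⟩ := side_of_ah_swap h4
    obtain ⟨g, hg, hg1⟩ := side_of_ah h5
    rw [Finset.mem_sdiff] at hf hg
    exact bd_of_side (inE_of_side (by exact_mod_cast hf.1) hf1) hg1 (by exact_mod_cast hg.2)
  · obtain ⟨f, hf, -⟩ := side_of_ah_swap h1
    rw [mem_BR] at hf
    omega

theorem v3b : W3.V3b := by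
  classical
  intro F v s t ω hs hst _ h1
  have h1' : ∃ a, Leg ZQ ω F (BR v s) (BR v t) a := by
    unfold Tilt.NoLeg at h1
    push Not at h1
    exact h1
  obtain ⟨a, ha⟩ := h1'
  obtain ⟨h2, e, h3, h4, -⟩ := leg_ends_bulk hst ha
  unfold NF
  refine Finset.card_pos.2 ⟨und a, ?_⟩
  rw [Finset.mem_filter, Set.univ_inter]
  exact ⟨mem_UB_of_BdR hs h2, h2, e, h3, h4⟩

theorem v4 : W3.V4 := by
  obtain ⟨C, hC, h⟩ := pr_NF_pos
  refine ⟨C, 1 / 4, hC, by norm_num, fun v s t W hs hst hW => ?_⟩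
  obtain ⟨s', rfl⟩ := Int.eq_ofNat_of_zero_le (by omega : 0 ≤ s)
  obtain ⟨t', rfl⟩ := Int.eq_ofNat_of_zero_le (by omega : 0 ≤ t)
  have h2 := h Set.univ v s' t' W (by exact_mod_cast hs) (by exact_mod_cast hst) hW
  rw [Int.cast_natCast, Int.cast_natCast]
  exact h2

end Pool.Agent.SixB.W3d
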