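import Pool.Agent.Lib.SixB.S4W3Defs
import Pool.Agent.Lib.SixB.A1Main
import Pool.Agent.Lib.SixB.A2Final

/-!
# 6BD step 4, row W3: the inputs A1S and A2S
-/

set_option autoImplicit false

namespace Pool.Agent.SixB.W3

open Finset Pool.Agent.SixB Pool.Agent.Perc Pool.Agent.PercD Pool.Agent.Perc6 Pool.Agent.PercN

theorem a1s : A1S := by
  classical
  obtain ⟨C, hC, h⟩ := A1.a1
  refine ⟨C, hC, fun r R W hr hrR hW => ?_⟩
  have h1 := h (0, 0) r R W (by omega) (by omega)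
    (fun f hf => hW (mem_coe.1 (A1.HB_sub_BR (mem_coe.2 hf))))
  rw [← mul_div_assoc]
  exact h1

theorem a2s : A2S := by
  classical
  obtain ⟨C, hC, h⟩ := A2.twoLegs
  refine ⟨C, hC, fun r R W hr hrR hW => ?_⟩
  refine (pr_mono _ fun ω hω => ?_).trans (h (0, 0) r R W hr hrR hW)
  rw [Set.mem_ofPred_eq] at hω
  unfold NF at hω
  obtain ⟨b, hb, b', hb', hne⟩ := Finset.one_lt_card.1 hω
  rw [mem_filter] at hb hb'
  obtain ⟨-, h1, a, h2, h3⟩ := hb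
  obtain ⟨-, h1', a', h2', h3'⟩ := hb'
  have hsub : HW 0 0 ∩ (An (0, 0) r R : Set (ℤ × ℤ)) ⊆
      {f : ℤ × ℤ | f ∈ BR (0, 0) R ∧ f ∉ BR (0, 0) r ∧ ((0, 0) : ℤ × ℤ).2 ≤ f.2} := by
    rintro f ⟨h6, h7⟩
    obtain ⟨h4, h5⟩ := mem_An.1 (mem_coe.1 h7)
    exact ⟨h4, h5, h6⟩
  exact ⟨b, b', a, a', hne, h1, h1', h3, h3', MM_mono hsub h2, MM_mono hsub h2'⟩

end Pool.Agent.SixB.W3
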