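import Pool.Agent.Lib.SixB.S4W3
import Pool.Agent.Lib.SixB.S4W3b
import Pool.Agent.Lib.SixB.S4W3c
import Pool.Agent.Lib.SixB.S4W3d
import Pool.Agent.Lib.SixB.S4W3n
import Pool.Agent.Lib.SixB.S4W3e

/-!
# 6BD step 4, row W3: the theorem `SW3`

`W3.sw3 : SW3`, with no hypothesis (A1 and A2: `a1s`, `a2s` of `S4W3e`).
-/

set_option autoImplicit false

namespace Pool.Agent.SixB.W3

open Pool.Agent.SixB Pool.Agent.Perc Pool.Agent.PercD Pool.Agent.Perc6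

/-- **Row W3**, no hypothesis. -/
theorem sw3 : SW3 :=
  sw3_of W3d.v3a W3d.v3b W3d.v4 (B.v5 net) B.v5' (B.v6 net) (S4W3c.v7 net a1s) a2s

end Pool.Agent.SixB.W3
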