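import Pool.Agent.Lib.SixB.S4WallAsm
import Pool.Agent.Lib.SixB.S4W1
import Pool.Agent.Lib.SixB.S4W2
import Pool.Agent.Lib.SixB.S4W3z
import Pool.Agent.Lib.SixB.S4W3n
import Pool.Agent.Lib.SixB.S4OneFinal
import Pool.Agent.Lib.SixB.PlaneU

/-!
# 6BD step 4: the wall theorem

`wallAt_flat`: the natural reference environment satisfies the hypotheses with `M = 1`. `wallThm : WallThm`.
-/

set_option autoImplicit false

namespace Pool.Agent.SixB

open Pool.Agent.Perc Pool.Agent.Perc.Q Relation

namespace S4Final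

theorem W_flat (d : ℤ) (ω : Cfg) : (flatEnv d).W ω = 1 := by
  unfold WEnv.W
  refine Finset.prod_eq_one fun p _ => ?_
  induction p using Sym2.ind with
  | _ a b => rfl

theorem Z_flat (d : ℤ) : (flatEnv d).Z = 1 := by
  unfold WEnv.Z
  have : (flatEnv d).W = fun _ => (1 : ℝ) := funext fun ω => W_flat d ω
  rw [this, av_const]

theorem inv_sqrt3_le : 1 / Real.sqrt 3 ≤ 1 := by
  have h : (1 : ℝ) ≤ Real.sqrt 3 := by
    rw [Real.one_le_sqrt]
    norm_num
  rw [div_le_one (by linarith)]
  exact h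

theorem sqrt3_le : Real.sqrt 3 ≤ 2 := by
  rw [Real.sqrt_le_left (by norm_num)]
  norm_num

theorem abs_sFlat_le (d : ℤ) (a b : DZ) : |sFlat d a b| ≤ 1 := by
  have h := inv_sqrt3_le
  have h0 : 0 ≤ 1 / Real.sqrt 3 := by positivity
  unfold sFlat
  split_ifs
  · rw [abs_neg, abs_of_nonneg h0]
    exact h
  · rw [abs_of_nonneg h0]
    exact h
  · rw [abs_zero]
    norm_num
  · rw [abs_zero]
    norm_num

theorem num_flat_le (d : ℤ) (ω : Cfg) (e : DZ) : |(flatEnv d).num ω e| ≤ 2 := by
  classical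
  unfold WEnv.num
  split_ifs with hc
  · rw [W_flat, mul_one]
    have h := sqrt3_le
    have h0 := Real.sqrt_nonneg 3
    rcases uml_ZQ (flatEnv d).F ω e hc with h1 | h1
    · rw [h1]
      rw [abs_of_nonneg (by push_cast; linarith)]
      push_cast
      linarith
    · rw [h1]
      rw [abs_of_nonpos (by push_cast; linarith)]
      push_cast
      linarith
  · have h1 : ∏ p ∈ (arcs ZQ (flatEnv d).F ω).erase (arcE (flatEnv d).F ω e), (flatEnv d).T p = 1 := by
      refine Finset.prod_eq_one fun p _ => ?_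
      induction p using Sym2.ind with
      | _ a b => rfl
    rw [h1, mul_one]
    exact (abs_sFlat_le d _ _).trans (by norm_num)

theorem wallAt_flat {d : ℤ} (hd : 1 ≤ d) : WallAt (flatEnv d) d 1 where
  hd := hd
  sub := Finset.Subset.refl _
  below := fun i _ _ h => by
    have h1 := mem_HB0.mp h
    simp only at h1
    omega
  t_wall := fun _ _ _ _ => rfl
  s_wall := fun i j hi hj hij => by
    change sFlat d (wsd i) (wsd j) = _
    unfold sFlat
    rw [if_pos ⟨hi, hj⟩, if_pos]
    exact hij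
  t_far := fun _ _ _ _ _ _ _ => rfl
  s_far := fun b _ hb a _ a' _ => by
    change sFlat d a b = sFlat d a' b
    unfold sFlat
    rw [if_neg fun h => hb h.2, if_neg fun h => hb h.2]
  Zpos := by
    rw [Z_flat]
    exact one_pos
  maj := by
    refine ⟨fun _ => 1, fun _ _ _ => rfl, fun ω => ?_, fun ω e _ => ?_, ?_⟩
    · rw [W_flat, abs_one]
    · rw [mul_one]
      exact num_flat_le d ω e
    · rw [Z_flat, av_const, mul_one]

end S4Final

/-- **The wall theorem (step 4).** -/
theorem wallThm : WallThm :=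
  wallThm_of sw1 (LegG.sw2_of Leg.oneLeg W3.net) W3.sw3 fun _ _ _ h => S4Final.wallAt_flat h.hd

end Pool.Agent.SixB
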