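import Pool.Agent.Lib.SixB.CAWallB
import Pool.Agent.Lib.SixB.CADomDefs
import Pool.Agent.Lib.SixB.CAPos
import Pool.Agent.Lib.SixB.PlaneU
import Pool.Agent.Lib.SixB.S4Final

/-!
# 6BD block CA: the column bound for `uN`, `uP`, `uX` (namespace `CAW`)

* `maj_field`: `GG.Maj` (box) gives the field `maj` of `WallAtG` (half box). `MajB`: majorants at all wall points
  off `X`, for small half discs; `MajX.majB`, `MajP.majB`: from the statements of `CADomDefs`.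
* `ColC c`: the conclusion of `colB_of_env` with the exponent `c`; `exists_colC`.
* `ColC.envJ`: column bound for the environment with jumps `j`; `majN : DomX.MajN`: the natural environment has the
  majorant `1`.
* `colB_uN`, `colB_uP`, `colB_uX`, `colB_all`: the fields `nC`, `pC`, `xC` of the structure `EnvLat`.
-/

set_option autoImplicit false

namespace Pool.Agent.SixB.CAW

open Filter Topology Pool.Agent.Perc Pool.Agent.Perc.Q Pool.Agent.PercD Relation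
open Ht (tJ dJ)

noncomputable section

variable {P : Finset (ℤ × ℤ)} {p q ν : ℂ} {ρ c : ℝ} {n k : ℕ} {L : ℕ} {g : ℤ → ℤ × ℤ}

/-! ## Majorants -/

theorem nu_cases (k : ℕ) : Mot.nu k = (0, 1) ∨ Mot.nu k = (-1, 0) ∨ Mot.nu k = (0, -1) ∨
    Mot.nu k = (1, 0) := by
  induction k with
  | zero => exact Or.inl rfl
  | succ k ih =>
    show (-(Mot.nu k).2, (Mot.nu k).1) = _ ∨ (-(Mot.nu k).2, (Mot.nu k).1) = _ ∨
      (-(Mot.nu k).2, (Mot.nu k).1) = _ ∨ (-(Mot.nu k).2, (Mot.nu k).1) = _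
    rcases ih with h | h | h | h <;> rw [h] <;> simp

theorem im_HB0_sub (k : ℕ) (v : VZ) {d s : ℤ} (hds : d + 1 ≤ s) :
    (Mot.std k v).im (HB0 d) ⊆ BR v s := by
  intro f hf
  obtain ⟨⟨x, y⟩, hxy, rfl⟩ := Finset.mem_image.mp hf
  rw [mem_HB0] at hxy
  obtain ⟨⟨h1, h2⟩, h3, h4⟩ := hxy
  simp only at h1 h2 h3 h4
  obtain ⟨e1, e2⟩ := std_psi k v (x, y)
  rw [mem_BR]
  have hτ := tau_eq k
  rcases nu_cases k with h | h | h | h <;> rw [hτ, h] at e1 e2 <;> simp only at e1 e2 <;>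
    refine ⟨?_, ?_, ?_, ?_⟩ <;> omega

/-- the field `maj` of the wall condition -/
theorem maj_field {E : WEnv} {v : VZ} {s : ℤ} {M : ℝ} (h : GG.Maj E v s M) {k : ℕ} {d : ℤ}
    (hsub : (Mot.std k v).im (HB0 d) ⊆ E.F) (hds : d + 1 ≤ s) :
    ∃ H : Cfg → ℝ, Dep ((E.F \ (Mot.std k v).im (HB0 d) : Finset (ℤ × ℤ)) : Set (ℤ × ℤ)) H ∧
      (∀ ω, |E.W ω| ≤ H ω) ∧ (∀ ω, ∀ e ∈ dE ZQ ((Mot.std k v).im (HB0 d)), |E.num ω e| ≤ 2 * H ω) ∧
      av E.F H ≤ M * E.Z := by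
  obtain ⟨-, H, h1, h2, h3, h4⟩ := h
  refine ⟨H, h1.mono ?_, h2, fun ω e he => h3 ω e (dE_mono ?_ he), h4⟩
  · intro f hf
    have hf' : f ∈ E.F \ BR v s := by exact_mod_cast hf
    obtain ⟨a, b⟩ := Finset.mem_sdiff.mp hf'
    have : f ∈ E.F \ (Mot.std k v).im (HB0 d) :=
      Finset.mem_sdiff.mpr ⟨a, fun hh => b (im_HB0_sub k v hds hh)⟩
    exact_mod_cast this
  · exact Finset.subset_inter hsub (im_HB0_sub k v hds)

/-- majorants at all wall points off `X`, for small half discs -/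
def MajB {ι : Type*} (l : Filter ι) (n : ι → ℕ) (P : Finset (ℤ × ℤ)) (X : Set ℂ) (E : ι → WEnv) : Prop :=
  ∀ (p ν : ℂ) (ρ₀ : ℝ), 0 < ρ₀ → Flat P p ν ρ₀ → (∀ x ∈ X, ρ₀ ≤ ‖x - p‖) → ∃ d₀ : ℝ, 0 < d₀ ∧
    ∀ ρ : ℝ, 0 < ρ → ρ ≤ d₀ → ∃ M : ℝ, ∀ᶠ i in l,
    ∀ q : ℂ, Wall P q ν → ‖q - p‖ < ρ / 2 → GG.Maj (E i) (fl (n i) q) (dlat ρ (n i) + 1) M

/-- the exponent `c` of the wall theorem -/
def ColC (c : ℝ) : Prop := ∀ (ι : Type) (l : Filter ι) (n : ι → ℕ)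
    (P : Finset (ℤ × ℤ)) (X : Set ℂ) (E : ι → WEnv) (u : ι → ℤ × ℤ → ℝ),
    (∀ᶠ i in l, ∀ a ∈ dE ZQ (E i).F, u i a.1 - u i a.2 = (E i).mA a) →
    (∀ (p ν : ℂ) (ρ₀ : ℝ), 0 < ρ₀ → Flat P p ν ρ₀ → (∀ x ∈ X, ρ₀ ≤ ‖x - p‖) → ∃ d₀ : ℝ, 0 < d₀ ∧
      ∀ ρ : ℝ, 0 < ρ → ρ ≤ d₀ → ∃ M : ℝ, ∀ᶠ i in l,
      ∀ q : ℂ, Wall P q ν → ‖q - p‖ < ρ / 2 → ∃ k : ℕ, dZ ν = Mot.nu k ∧
        WallAtG (E i) (Mot.std k (fl (n i) q)) (dlat ρ (n i)) M) →
    ColB l n P X c u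

theorem exists_colC (HW : WallThm) : ∃ c : ℝ, 0 < c ∧ ColC c := by
  obtain ⟨c, hc, h⟩ := colB_of_env HW
  exact ⟨c, hc, fun ι l n P X E u h1 h2 => h l n P X E u h1 h2⟩

/-- **the wall condition for the environment with jumps `j`** -/
theorem wallF_envJ {ι : Type*} {l : Filter ι} {n : ι → ℕ} (hn : Tendsto n l atTop)
    (hg : Cont P L g) {X : Set ℂ} {j : ι → ℤ → ℝ}
    (hjp : ∀ᶠ i in l, ∀ v, j i (v + ((n i * L : ℕ) : ℤ)) = j i v)
    (h0 : ∀ᶠ i in l, csum (j i) 0 ((n i * L : ℕ) : ℤ) = Real.pi / 3)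
    (hm : ∀ η : ℝ, 0 < η → ∀ᶠ i in l, ∀ v : ℤ, j i v ≠ 0 → ∃ x ∈ X, ‖gam g ((v : ℝ) / n i) - x‖ < η)
    (hM : MajB l n P X fun i => SixB.envJ P L g (n i) (j i)) :
    ∀ (p ν : ℂ) (ρ₀ : ℝ), 0 < ρ₀ → Flat P p ν ρ₀ → (∀ x ∈ X, ρ₀ ≤ ‖x - p‖) → ∃ d₀ : ℝ, 0 < d₀ ∧
      ∀ ρ : ℝ, 0 < ρ → ρ ≤ d₀ → ∃ M : ℝ, ∀ᶠ i in l,
      ∀ q : ℂ, Wall P q ν → ‖q - p‖ < ρ / 2 → ∃ k : ℕ, dZ ν = Mot.nu k ∧
        WallAtG (SixB.envJ P L g (n i) (j i)) (Mot.std k (fl (n i) q)) (dlat ρ (n i)) M := by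
  intro p ν ρ₀ hρ₀ hf₀ hX₀
  obtain ⟨d₀, hd₀, hM₀⟩ := hM p ν ρ₀ hρ₀ hf₀ hX₀
  refine ⟨min ρ₀ d₀, lt_min hρ₀ hd₀, fun ρ hρ hρd => ?_⟩
  have hf : Flat P p ν ρ := hf₀.mono (hρd.trans (min_le_left _ _))
  have hX : ∀ x ∈ X, ρ ≤ ‖x - p‖ := fun x hx => (hρd.trans (min_le_left _ _)).trans (hX₀ x hx)
  obtain ⟨M, hM'⟩ := hM₀ ρ hρ (hρd.trans (min_le_right _ _))
  refine ⟨M, ?_⟩
  have hnR : Tendsto (fun i => ρ * (n i : ℝ)) l atTop :=
    (tendsto_natCast_atTop_atTop.comp hn).const_mul_atTop hρ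
  filter_upwards [hM', hnR.eventually_gt_atTop 32, hjp, h0, hm (ρ / 8) (by positivity)] with
    i h1 h2 h3 h4 h5 q hq hqp
  obtain ⟨k, hk⟩ := exists_k hf.1
  refine ⟨k, hk, wallAtG_envJ hg hρ hf hq hqp hk h2 h3 h4 ?_ (h1 q hq hqp).1 ?_⟩
  · intro v hv
    obtain ⟨x, hx, hxv⟩ := h5 v hv
    have h7 := hX x hx
    have h8 : ‖x - p‖ ≤ ‖gam g ((v : ℝ) / n i) - x‖ + ‖gam g ((v : ℝ) / n i) - p‖ := by
      have := norm_sub_le (gam g ((v : ℝ) / n i) - p) (gam g ((v : ℝ) / n i) - x)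
      rw [sub_sub_sub_cancel_left] at this
      linarith
    linarith
  · refine maj_field (h1 q hq hqp) ?_ le_rfl
    have hd := le_dlat h2
    refine subset_trans ?_ (wallAtG_of hρ hf hq hqp hk h2).1
    intro f hf'
    obtain ⟨x, hx, rfl⟩ := Finset.mem_image.mp hf'
    refine Finset.mem_image_of_mem _ ?_
    rw [mem_HB0] at hx ⊢
    omega

/-- **the column bound for the environment with jumps `j`** -/
theorem ColC.envJ (hC : ColC c) {ι : Type} {l : Filter ι} {n : ι → ℕ} (hn : Tendsto n l atTop)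
    (hP : MPoly P) (hg : Cont P L g) {X : Set ℂ} {j : ι → ℤ → ℝ}
    (hjp : ∀ᶠ i in l, ∀ v, j i (v + ((n i * L : ℕ) : ℤ)) = j i v)
    (h0 : ∀ᶠ i in l, csum (j i) 0 ((n i * L : ℕ) : ℤ) = Real.pi / 3)
    (hm : ∀ η : ℝ, 0 < η → ∀ᶠ i in l, ∀ v : ℤ, j i v ≠ 0 → ∃ x ∈ X, ‖gam g ((v : ℝ) / n i) - x‖ < η)
    (hM : MajB l n P X fun i => SixB.envJ P L g (n i) (j i)) (w : ι → VZ) :
    ColB l n P X c fun i v => (SixB.envJ P L g (n i) (j i)).hU v (w i) := by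
  refine hC ι l n P X (fun i => SixB.envJ P L g (n i) (j i)) _ ?_ (wallF_envJ hn hg hjp h0 hm hM)
  filter_upwards [hn.eventually_gt_atTop 0] with i hi a ha
  rw [WEnv.hU_sub]
  exact WEnv.hU_edge _ ((CARf.mpoly_rf hP hi).potQ) ha

/-! ## Marks -/

theorem gam_mark (hg : Cont P L g) (hn : 0 < n) {v b : ℤ} (h : ((n * L : ℕ) : ℤ) ∣ v - b) :
    gam g ((v : ℝ) / n) = gam g ((b : ℝ) / n) := by
  obtain ⟨z, hz⟩ := h
  have hn0 : (n : ℝ) ≠ 0 := by exact_mod_cast hn.ne'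
  have e : (v : ℝ) / n = (b : ℝ) / n + z * L := by
    have : (v : ℝ) = b + n * L * z := by
      have h1 : v = b + n * L * z := by push_cast at hz; linarith
      exact_mod_cast h1
    rw [this]
    field_simp
  have hper : Function.Periodic (gam g) (L : ℝ) := CARf.gam_per hg
  rw [e]
  exact hper.int_mul z _

theorem near_jN (hg : Cont P L g) {ι : Type} {l : Filter ι} {n : ι → ℕ} (hn : Tendsto n l atTop)
    {b : ι → ℤ} {s : ℝ} (hb : Tendsto (fun i => (b i : ℝ) / n i) l (𝓝 s)) {η : ℝ} (hη : 0 < η) :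
    ∀ᶠ i in l, ∀ v : ℤ, jN (n i * L) (b i) v ≠ 0 → ‖gam g ((v : ℝ) / n i) - gam g s‖ < η := by
  filter_upwards [hn.eventually_gt_atTop 0, Metric.tendsto_nhds.mp hb η hη] with i h1 h2 v hv
  have h3 : ((n i * L : ℕ) : ℤ) ∣ v - b i := by
    by_contra hh
    apply hv
    unfold jN
    rw [if_neg hh]
  rw [gam_mark hg h1 h3]
  refine lt_of_le_of_lt (CARf.gam_lip hg _ _) ?_
  rwa [Real.dist_eq] at h2

theorem lk_k (ξ : ℝ) : Tendsto (fun p : ℕ × ℤ => (p.2 : ℝ) / p.1) (lk ξ) (𝓝 ξ) :=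
  tendsto_comap.mono_left inf_le_right

theorem tendsto_lk' {ι : Type*} {l : Filter ι} {n : ι → ℕ} {k : ι → ℤ} {ξ : ℝ}
    (hn : Tendsto n l atTop) (hk : Tendsto (fun i => (k i : ℝ) / n i) l (𝓝 ξ)) :
    Tendsto (fun i => (n i, k i)) l (lk ξ) := by
  unfold lk
  rw [tendsto_inf, tendsto_comap_iff, tendsto_comap_iff]
  exact ⟨hn, hk⟩

theorem tendsto_shift {ι : Type*} {l : Filter ι} {n : ι → ℕ} {k : ι → ℤ} {ξ : ℝ}
    (hn : Tendsto n l atTop) (hk : Tendsto (fun i => (k i : ℝ) / n i) l (𝓝 ξ)) (a : ℤ) :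
    Tendsto (fun i => ((k i + a : ℤ) : ℝ) / n i) l (𝓝 ξ) := by
  have h1 : Tendsto (fun i => (a : ℝ) / n i) l (𝓝 0) :=
    tendsto_const_nhds.div_atTop (tendsto_natCast_atTop_atTop.comp hn)
  have h2 := hk.add h1
  rw [add_zero] at h2
  refine h2.congr fun i => ?_
  push_cast
  rw [add_div]

theorem ix_lim {ι : Type*} {l : Filter ι} {n : ι → ℕ} (hn : Tendsto n l atTop) (t : ℝ) :
    Tendsto (fun i => (ix (n i) t : ℝ) / n i) l (𝓝 t) := by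
  have h0 : Tendsto (fun i => (1 : ℝ) / n i) l (𝓝 0) :=
    tendsto_const_nhds.div_atTop (tendsto_natCast_atTop_atTop.comp hn)
  have h1 : Tendsto (fun i => t - (1 : ℝ) / n i) l (𝓝 (t - 0)) := tendsto_const_nhds.sub h0
  rw [sub_zero] at h1
  refine tendsto_of_tendsto_of_tendsto_of_le_of_le' h1 tendsto_const_nhds ?_ ?_
  · filter_upwards [hn.eventually_gt_atTop 0] with i hi
    have hi' : (0 : ℝ) < n i := by exact_mod_cast hi
    rw [le_div_iff₀ hi', sub_mul, one_div_mul_cancel hi'.ne']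
    have := Int.sub_one_lt_floor ((n i : ℝ) * t)
    show t * n i - 1 ≤ ((⌊(n i : ℝ) * t⌋ : ℤ) : ℝ)
    linarith
  · filter_upwards [hn.eventually_gt_atTop 0] with i hi
    have hi' : (0 : ℝ) < n i := by exact_mod_cast hi
    rw [div_le_iff₀ hi']
    have := Int.floor_le ((n i : ℝ) * t)
    show ((⌊(n i : ℝ) * t⌋ : ℤ) : ℝ) ≤ t * n i
    linarith

/-! ## The natural environment -/

theorem abs_num_nat (hP : MPoly P) {m : ℕ} (hc : Cont P m g) (b : ℤ) (ω : Cfg) {e : DZ}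
    (he : e ∈ dE ZQ P) : |(cenv P g m (jN m b)).num ω e| ≤ 2 := by
  classical
  unfold WEnv.num
  have h3 : Real.sqrt 3 ≤ 2 := by
    rw [Real.sqrt_le_left (by norm_num)]
    norm_num
  split_ifs with h
  · rw [nat_W hc hP, mul_one]
    have h4 : Clo ZQ P ω e := h
    rcases uml_ZQ P ω e h4 with h5 | h5
    · have h6 : trn ZQ (cenv P g m (jN m b)).F ω e = 4 := h5
      rw [h6]
      push_cast
      rw [div_mul_cancel₀ _ (by norm_num : (4 : ℝ) ≠ 0), abs_of_nonneg (Real.sqrt_nonneg _)]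
      exact h3
    · have h6 : trn ZQ (cenv P g m (jN m b)).F ω e = -4 := h5
      rw [h6]
      push_cast
      rw [mul_neg, div_mul_cancel₀ _ (by norm_num : (4 : ℝ) ≠ 0), abs_neg, abs_of_nonneg (Real.sqrt_nonneg _)]
      exact h3
  · have h4 : ∏ p ∈ (arcs ZQ (cenv P g m (jN m b)).F ω).erase (arcE (cenv P g m (jN m b)).F ω e),
        (cenv P g m (jN m b)).T p = 1 := by
      refine Finset.prod_eq_one fun p hp => ?_
      obtain ⟨a, ha, rfl⟩ := mem_arcs.mp (Finset.mem_of_mem_erase hp)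
      exact nat_t hc hP ha (mate_mem ha) (mate_ne Tilt.zq_noLoop ha).symm
    rw [h4, mul_one]
    have h5 : ¬ Clo ZQ P ω e := h
    obtain ⟨h6, -⟩ := start_spec he h5
    have h7 := mate_mem (ω := ω) h6
    have h8 : stt P ω e ≠ mate ZQ P ω (stt P ω e) := (mate_ne Tilt.zq_noLoop h6).symm
    have hs : (1 : ℝ) / Real.sqrt 3 ≤ 2 := by
      rw [div_le_iff₀ (by positivity)]
      have : (1 : ℝ) ≤ Real.sqrt 3 := by
        rw [Real.one_le_sqrt]; norm_num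
      linarith
    have hs0 : 0 ≤ (1 : ℝ) / Real.sqrt 3 := by positivity
    have key : ∀ {i l : ℕ}, i < l → l < m → |(cenv P g m (jN m b)).s (csd g (0 + i)) (csd g (0 + l))| ≤ 2 := by
      intro i l hil hl
      rw [(nat_ts hc (b := b) (i := 0 + i) (k := 0 + l) (by omega) (by omega)).2]
      split_ifs
      · rw [abs_of_nonneg hs0]; exact hs
      · rw [abs_neg, abs_of_nonneg hs0]; exact hs
    obtain ⟨i, hi, hi2⟩ := bS_csd hc hP h6 0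
    obtain ⟨l, hl, hl2⟩ := bS_csd hc hP h7 0
    show |(cenv P g m (jN m b)).s (stt P ω e) (mate ZQ P ω (stt P ω e))| ≤ 2
    have h10' : stt P ω e = (lst ZQ P ω (Prod.swap e)).swap := rfl
    rw [h10']
    rcases Nat.lt_trichotomy i l with h9 | h9 | h9
    · have h10 := key h9 hl
      rwa [← hi2, ← hl2] at h10
    · exact absurd (by rw [h10', hl2, hi2, h9]) h8
    · have h10 := key h9 hi
      rw [← hi2, ← hl2] at h10
      rw [(cenv P g m (jN m b)).s_anti, abs_neg]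
      exact h10

/-- **the natural environment has the majorant `1`** -/
theorem majN : DomX.MajN := by
  intro P L g hP hg n hn b v s
  have hP' := CARf.mpoly_rf hP hn
  have hc := CARf.cont_rf hg hn
  have hZ : (envN P L g n b).Z = 1 := nat_Z hc hP' b
  refine ⟨by rw [hZ]; exact one_pos, fun _ => 1, fun _ _ _ => rfl, fun ω => ?_, fun ω e he => ?_, ?_⟩
  · have : (envN P L g n b).W ω = 1 := nat_W hc hP' b ω
    rw [this, abs_one]
  · rw [mul_one]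
    exact abs_num_nat hP' hc b ω (dE_mono Finset.inter_subset_left he)
  · rw [av_const, hZ, mul_one]

/-! ## From the domination statements -/

/-- distance of the rounded point from a vertex of the contour -/
theorem dd_ge (hn : 0 < n) {q : ℂ} {k : ℤ} {r : ℝ} (h : r ≤ ‖q - gam g ((k : ℝ) / n)‖) :
    2 / 3 * (r * n) - 1 ≤ (GG.dd (fl n q) (gr n g k) : ℝ) := by
  have hn0 : (0 : ℝ) < n := by exact_mod_cast hn
  have h1 : |((fl n q).1 : ℝ) - (gr n g k).1| ≤ (GG.dd (fl n q) (gr n g k) : ℝ) := by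
    have : |(fl n q).1 - (gr n g k).1| ≤ GG.dd (fl n q) (gr n g k) := le_max_left _ _
    exact_mod_cast this
  have h2 : |((fl n q).2 : ℝ) - (gr n g k).2| ≤ (GG.dd (fl n q) (gr n g k) : ℝ) := by
    have : |(fl n q).2 - (gr n g k).2| ≤ GG.dd (fl n q) (gr n g k) := le_max_right _ _
    exact_mod_cast this
  have h3 := fl_re n q
  have h4 := fl_im n q
  have h5 : ‖q - gam g ((k : ℝ) / n)‖ ≤ 3 / 2 * (((GG.dd (fl n q) (gr n g k) : ℝ) + 1) / n) := by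
    rw [CARf.gam_div g hn k]
    apply norm_le_of
    · show |q.re - ((gr n g k).1 : ℝ) / n| ≤ _
      have e : q.re - ((gr n g k).1 : ℝ) / n =
          (((n : ℝ) * q.re - (fl n q).1) + (((fl n q).1 : ℝ) - (gr n g k).1)) / n := by
        field_simp
        ring
      rw [e, abs_div, abs_of_pos hn0]
      apply div_le_div_of_nonneg_right _ hn0.le
      have := abs_add_le ((n : ℝ) * q.re - (fl n q).1) (((fl n q).1 : ℝ) - (gr n g k).1)
      linarith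
    · show |q.im - ((gr n g k).2 : ℝ) / n| ≤ _
      have e : q.im - ((gr n g k).2 : ℝ) / n =
          (((n : ℝ) * q.im - (fl n q).2) + (((fl n q).2 : ℝ) - (gr n g k).2)) / n := by
        field_simp
        ring
      rw [e, abs_div, abs_of_pos hn0]
      apply div_le_div_of_nonneg_right _ hn0.le
      have := abs_add_le ((n : ℝ) * q.im - (fl n q).2) (((fl n q).2 : ℝ) - (gr n g k).2)
      linarith
  have h6 := h.trans h5
  rw [mul_div_assoc', le_div_iff₀ hn0] at h6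
  linarith

/-- the vertices near a wall point at distance `ρ₀` from a mark are far from the mark -/
theorem far_mark (hg : Cont P L g) {ι : Type} {l : Filter ι} {n : ι → ℕ} (hn : Tendsto n l atTop)
    {k : ι → ℤ} {t : ℝ} (hk : Tendsto (fun i => (k i : ℝ) / n i) l (𝓝 t)) {ρ₀ : ℝ} (hρ₀ : 0 < ρ₀)
    (hX : ρ₀ ≤ ‖gam g t - p‖) : ∀ᶠ i in l, ∀ q : ℂ, ‖q - p‖ < ρ₀ / 2 →
      ρ₀ / 8 * n i ≤ (GG.dd (fl (n i) q) (gr (n i) g (k i)) : ℝ) := by
  have hnR : Tendsto (fun i => ρ₀ * (n i : ℝ)) l atTop :=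
    (tendsto_natCast_atTop_atTop.comp hn).const_mul_atTop hρ₀
  filter_upwards [hn.eventually_gt_atTop 0, hnR.eventually_ge_atTop 8,
    Metric.tendsto_nhds.mp hk (ρ₀ / 16) (by positivity)] with i h1 h2 h3 q hq
  rw [Real.dist_eq] at h3
  have h4 := CARf.gam_lip hg t ((k i : ℝ) / n i)
  have h5 : ‖gam g t - p‖ ≤ ‖q - gam g ((k i : ℝ) / n i)‖ + ‖q - p‖ +
      ‖gam g ((k i : ℝ) / n i) - gam g t‖ := by
    have e : gam g t - p = (q - p) - (q - gam g ((k i : ℝ) / n i)) -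
      (gam g ((k i : ℝ) / n i) - gam g t) := by ring
    rw [e]
    have a1 := norm_sub_le ((q - p) - (q - gam g ((k i : ℝ) / n i))) (gam g ((k i : ℝ) / n i) - gam g t)
    have a2 := norm_sub_le (q - p) (q - gam g ((k i : ℝ) / n i))
    linarith
  have h6 := dd_ge (g := g) h1 (q := q) (k := k i) (r := 7 / 16 * ρ₀) (by linarith)
  have h7 : (0 : ℝ) ≤ n i := Nat.cast_nonneg _
  nlinarith

theorem dlat_small {ρ δ : ℝ} (h : ρ ≤ 4 * δ) (hn : 2 ≤ δ * n) : ((dlat ρ n + 1 : ℤ) : ℝ) ≤ δ * n := by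
  have h1 := dlat_le ρ n
  have h2 : (0 : ℝ) ≤ n := Nat.cast_nonneg _
  push_cast
  nlinarith

/-- **field `nC` of `EnvLat`** -/
theorem colB_uN (hC : ColC c) (hP : MPoly P) (hg : Cont P L g) (s : ℝ) :
    ColB (lk s) (fun p => p.1) P (corners P ∪ {gam g s}) c (fun p => uN P L g p.1 p.2) := by
  have key := hC.envJ (l := lk s) (n := fun p : ℕ × ℤ => p.1) (lk_n s) hP hg
    (X := corners P ∪ {gam g s}) (j := fun p => jN (p.1 * L) p.2)
  refine key ?_ ?_ ?_ ?_ (fun p => gr p.1 g p.2)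
  · exact Eventually.of_forall fun p v => jN_per _ _ v
  · filter_upwards [(lk_n s).eventually_gt_atTop 0] with p hp
    exact csum_jN (Nat.mul_pos hp hg.pos) _
  · intro η hη
    filter_upwards [near_jN hg (lk_n s) (lk_k s) hη] with p hp v hv
    exact ⟨gam g s, Or.inr rfl, hp v hv⟩
  · intro p ν ρ₀ hρ₀ hf hX
    refine ⟨1, one_pos, fun ρ hρ hρd => ⟨1, ?_⟩⟩
    filter_upwards [(lk_n s).eventually_gt_atTop 0] with i hi q hq hqp
    exact majN P L g hP hg i.1 hi i.2 _ _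

/-! ## Two marks -/

theorem near_jP (hg : Cont P L g) {ι : Type} {l : Filter ι} {n : ι → ℕ} (hn : Tendsto n l atTop)
    {a b : ι → ℤ} {s t : ℝ} (ha : Tendsto (fun i => (a i : ℝ) / n i) l (𝓝 s))
    (hb : Tendsto (fun i => (b i : ℝ) / n i) l (𝓝 t)) (α : ℝ) {η : ℝ} (hη : 0 < η) :
    ∀ᶠ i in l, ∀ v : ℤ, jP (n i * L) α (a i) (b i) v ≠ 0 →
      ∃ x ∈ ({gam g s, gam g t} : Set ℂ), ‖gam g ((v : ℝ) / n i) - x‖ < η := by
  filter_upwards [near_jN hg hn ha hη, near_jN hg hn hb hη] with i h1 h2 v hv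
  by_cases h3 : jN (n i * L) (a i) v = 0
  · have h4 : jN (n i * L) (b i) v ≠ 0 := by
      intro h4
      apply hv
      unfold jP
      rw [h3, h4]
      ring
    exact ⟨gam g t, Or.inr rfl, h2 v h4⟩
  · exact ⟨gam g s, Or.inl rfl, h1 v h3⟩

/-- **field `pC` of `EnvLat`** -/
theorem colB_uP (hC : ColC c) (hM : DomX.MajP) (hP : MPoly P) (hg : Cont P L g) {t₂ t₂' α : ℝ}
    (h12 : t₂ < t₂') (h21 : t₂' < t₂ + L) (f₂ : Fl g t₂) (f₂' : Fl g t₂') (hα : α ∈ Set.Icc (0 : ℝ) 1) :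
    ColB atTop (fun n : ℕ => n) P (corners P ∪ {gam g t₂, gam g t₂'}) c
      (fun n => uP P L g n α (ix n t₂) (ix n t₂')) := by
  have hid : Tendsto (fun n : ℕ => n) atTop atTop := tendsto_id
  have key := hC.envJ (l := atTop) (n := fun n : ℕ => n) hid hP hg
    (X := corners P ∪ {gam g t₂, gam g t₂'}) (j := fun n => jP (n * L) α (ix n t₂) (ix n t₂'))
  refine key ?_ ?_ ?_ ?_ (fun n => gr n g 0)
  · exact Eventually.of_forall fun n v => jP_per _ _ _ _ v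
  · filter_upwards [eventually_gt_atTop 0] with n hn
    exact csum_jP (Nat.mul_pos hn hg.pos) _ _ _
  · intro η hη
    filter_upwards [near_jP hg hid (ix_lim hid t₂) (ix_lim hid t₂') α hη] with n hn v hv
    obtain ⟨x, hx, h⟩ := hn v hv
    exact ⟨x, Or.inr hx, h⟩
  · intro p ν ρ₀ hρ₀ hf hX
    obtain ⟨δ, M, hδ, -, hM'⟩ := hM P L g hP hg t₂ t₂' h12 h21 f₂ f₂' (ρ₀ / 8) (by positivity)
    refine ⟨min ρ₀ (4 * δ), lt_min hρ₀ (by positivity), fun ρ hρ hρd => ⟨M, ?_⟩⟩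
    have hnR : Tendsto (fun i : ℕ => δ * (i : ℝ)) atTop atTop :=
      (tendsto_natCast_atTop_atTop.comp hid).const_mul_atTop hδ
    filter_upwards [hM', hnR.eventually_ge_atTop 2,
      far_mark hg hid (ix_lim hid t₂) hρ₀ (hX (gam g t₂) (Or.inr (Or.inl rfl))),
      far_mark hg hid (ix_lim hid t₂') hρ₀ (hX (gam g t₂') (Or.inr (Or.inr rfl)))] with
      i h1 h2 h3 h4 q hq hqp
    have hqp' : ‖q - p‖ < ρ₀ / 2 := by
      have := hρd.trans (min_le_left _ _)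
      linarith
    exact h1 α hα _ _ (dlat_small (hρd.trans (min_le_right _ _)) h2) (h3 q hqp') (h4 q hqp')

/-! ## The full environment -/

theorem near_jX (hg : Cont P L g) {ι : Type} {l : Filter ι} {n : ι → ℕ} (hn : Tendsto n l atTop)
    {i₁ i₂ i₂' i₃ k : ι → ℤ} {t₁ t₂ t₂' t₃ t₄ : ℝ} (h₁ : Tendsto (fun i => (i₁ i : ℝ) / n i) l (𝓝 t₁))
    (h₂ : Tendsto (fun i => (i₂ i : ℝ) / n i) l (𝓝 t₂)) (h₂' : Tendsto (fun i => (i₂' i : ℝ) / n i) l (𝓝 t₂'))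
    (h₃ : Tendsto (fun i => (i₃ i : ℝ) / n i) l (𝓝 t₃)) (h₄ : Tendsto (fun i => (k i : ℝ) / n i) l (𝓝 t₄))
    (α : ℝ) {η : ℝ} (hη : 0 < η) :
    ∀ᶠ i in l, ∀ v : ℤ, jX (n i * L) α (i₁ i) (i₂ i) (i₂' i) (i₃ i) (k i) v ≠ 0 →
      ∃ x ∈ ({gam g t₁, gam g t₂, gam g t₂', gam g t₃, gam g t₄} : Set ℂ),
        ‖gam g ((v : ℝ) / n i) - x‖ < η := by
  filter_upwards [near_jN hg hn h₁ hη, near_jN hg hn h₂ hη, near_jN hg hn h₂' hη, near_jN hg hn h₃ hη,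
    near_jN hg hn h₄ hη, near_jN hg hn (tendsto_shift hn h₄ 1) hη] with i a1 a2 a3 a4 a5 a6 v hv
  by_contra hcon
  push Not at hcon
  apply hv
  have b1 : jN (n i * L) (i₁ i) v = 0 := by
    by_contra hh
    exact absurd (a1 v hh) (not_lt.mpr (hcon _ (by simp)))
  have b2 : jN (n i * L) (i₂ i) v = 0 := by
    by_contra hh
    exact absurd (a2 v hh) (not_lt.mpr (hcon _ (by simp)))
  have b3 : jN (n i * L) (i₂' i) v = 0 := by
    by_contra hh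
    exact absurd (a3 v hh) (not_lt.mpr (hcon _ (by simp)))
  have b4 : jN (n i * L) (i₃ i) v = 0 := by
    by_contra hh
    exact absurd (a4 v hh) (not_lt.mpr (hcon _ (by simp)))
  have b5 : jN (n i * L) (k i) v = 0 := by
    by_contra hh
    exact absurd (a5 v hh) (not_lt.mpr (hcon _ (by simp)))
  have b6 : jN (n i * L) (k i + 1) v = 0 := by
    by_contra hh
    exact absurd (a6 v hh) (not_lt.mpr (hcon _ (by simp)))
  unfold jX
  rw [b1, b2, b3, b4, b5, b6]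
  ring

theorem ColB.congr' {ι : Type*} {l : Filter ι} {n : ι → ℕ} {X : Set ℂ} {u u' : ι → ℤ × ℤ → ℝ}
    (h : ColB l n P X c u) (he : ∀ᶠ i in l, u i = u' i) : ColB l n P X c u' := by
  intro p ν ρ₀ hρ₀ hf hX
  obtain ⟨d₀, hd₀, h'⟩ := h p ν ρ₀ hρ₀ hf hX
  refine ⟨d₀, hd₀, fun ρ hρ hρd => ?_⟩
  obtain ⟨M, hM⟩ := h' ρ hρ hρd
  refine ⟨M, ?_⟩
  filter_upwards [hM, he] with i h1 h2
  rw [← h2]
  exact h1

/-- the environments of both sides at the moving mark -/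
theorem colB_envX (hC : ColC c) (hM : DomX.MajX) (hP : MPoly P) (hg : Cont P L g)
    {t₁ t₂ t₂' t₃ t₄ α : ℝ} (hm : Marks5 L g t₁ t₂ t₂' t₃ t₄) (hα : α ∈ Set.Icc (0 : ℝ) 1) {a : ℤ}
    (ha : a = 0 ∨ a = -1) :
    ColB (lk t₄) (fun p : ℕ × ℤ => p.1) P (specX P g t₁ t₂ t₂' t₃ t₄) c fun p v =>
      (envX P L g p.1 α (ix p.1 t₁) (ix p.1 t₂) (ix p.1 t₂') (ix p.1 t₃) (p.2 + a)).hU v (gr p.1 g 0) := by
  have hn := lk_n t₄
  have key := hC.envJ (l := lk t₄) (n := fun p : ℕ × ℤ => p.1) hn hP hg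
    (X := specX P g t₁ t₂ t₂' t₃ t₄)
    (j := fun p => jX (p.1 * L) α (ix p.1 t₁) (ix p.1 t₂) (ix p.1 t₂') (ix p.1 t₃) (p.2 + a))
  refine key ?_ ?_ ?_ ?_ (fun p => gr p.1 g 0)
  · exact Eventually.of_forall fun p v => jX_per _ _ _ _ _ _ _ v
  · filter_upwards [hn.eventually_gt_atTop 0] with p hp
    exact csum_jX (Nat.mul_pos hp hg.pos) _ _ _ _ _ _
  · intro η hη
    filter_upwards [near_jX hg hn (ix_lim hn t₁) (ix_lim hn t₂) (ix_lim hn t₂') (ix_lim hn t₃)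
      (tendsto_shift hn (lk_k t₄) a) α hη] with p hp v hv
    obtain ⟨x, hx, h⟩ := hp v hv
    exact ⟨x, Or.inr hx, h⟩
  · intro p ν ρ₀ hρ₀ hf hX
    obtain ⟨δ, M, hδ, -, hM'⟩ := hM P L g hP hg t₁ t₂ t₂' t₃ t₄ hm (ρ₀ / 8) (by positivity)
    refine ⟨min ρ₀ (4 * δ), lt_min hρ₀ (by positivity), fun ρ hρ hρd => ⟨M, ?_⟩⟩
    have hnR : Tendsto (fun i : ℕ × ℤ => δ * (i.1 : ℝ)) (lk t₄) atTop :=
      (tendsto_natCast_atTop_atTop.comp hn).const_mul_atTop hδ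
    filter_upwards [hM', hnR.eventually_ge_atTop 2,
      far_mark hg hn (ix_lim hn t₂) hρ₀ (hX (gam g t₂) (Or.inr (by simp))),
      far_mark hg hn (ix_lim hn t₂') hρ₀ (hX (gam g t₂') (Or.inr (by simp))),
      far_mark hg hn (lk_k t₄) hρ₀ (hX (gam g t₄) (Or.inr (by simp)))] with
      i h1 h2 h3 h4 h5 q hq hqp
    have hqp' : ‖q - p‖ < ρ₀ / 2 := by
      have := hρd.trans (min_le_left _ _)
      linarith
    have h6 := h1 α hα _ _ (dlat_small (hρd.trans (min_le_right _ _)) h2) (h3 q hqp') (h4 q hqp')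
      (h5 q hqp')
    rcases ha with rfl | rfl
    · have := h6.1
      rw [← add_zero i.2] at this
      exact this
    · exact h6.2

/-- **field `xC` of `EnvLat`** -/
theorem colB_uX (hC : ColC c) (hM : DomX.MajX) (hP : MPoly P) (hg : Cont P L g)
    {t₁ t₂ t₂' t₃ t₄ α : ℝ} (hm : Marks5 L g t₁ t₂ t₂' t₃ t₄) (hα : α ∈ Set.Icc (0 : ℝ) 1) :
    ColB (lk t₄) (fun p => p.1) P (specX P g t₁ t₂ t₂' t₃ t₄) c
      (fun p => uX P L g p.1 α (ix p.1 t₁) (ix p.1 t₂) (ix p.1 t₂') (ix p.1 t₃) p.2) := by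
  have h0 := colB_envX hC hM hP hg hm hα (a := 0) (Or.inl rfl)
  have h1 := colB_envX hC hM hP hg hm hα (a := -1) (Or.inr rfl)
  have hZ := envX_Z_lk hP hg hm
  refine ColB.congr' (ColB.mix h1 h0
    (a := fun p => (envX P L g p.1 α (ix p.1 t₁) (ix p.1 t₂) (ix p.1 t₂') (ix p.1 t₃) (p.2 - 1)).Z /
      ((envX P L g p.1 α (ix p.1 t₁) (ix p.1 t₂) (ix p.1 t₂') (ix p.1 t₃) (p.2 - 1)).Z +
        (envX P L g p.1 α (ix p.1 t₁) (ix p.1 t₂) (ix p.1 t₂') (ix p.1 t₃) p.2).Z))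
    (b := fun p => (envX P L g p.1 α (ix p.1 t₁) (ix p.1 t₂) (ix p.1 t₂') (ix p.1 t₃) p.2).Z /
      ((envX P L g p.1 α (ix p.1 t₁) (ix p.1 t₂) (ix p.1 t₂') (ix p.1 t₃) (p.2 - 1)).Z +
        (envX P L g p.1 α (ix p.1 t₁) (ix p.1 t₂) (ix p.1 t₂') (ix p.1 t₃) p.2).Z)) ?_ ?_ ?_) ?_
  · filter_upwards [hZ] with p h
    obtain ⟨a, b⟩ := h α hα
    exact div_nonneg a.le (add_pos a b).le
  · filter_upwards [hZ] with p h
    obtain ⟨a, b⟩ := h α hα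
    exact div_nonneg b.le (add_pos a b).le
  · filter_upwards [hZ] with p h
    obtain ⟨a, b⟩ := h α hα
    rw [← add_div, div_self (add_pos a b).ne']
  · filter_upwards [hZ] with p h
    obtain ⟨a, b⟩ := h α hα
    funext v
    have e1 := WEnv.hM_eq _ a.ne' v (gr p.1 g 0)
    have e2 := WEnv.hM_eq _ b.ne' v (gr p.1 g 0)
    unfold SixB.uX
    rw [e1, e2, add_zero]
    have e3 : p.2 + -1 = p.2 - 1 := rfl
    rw [e3]
    generalize (envX P L g p.1 α (ix p.1 t₁) (ix p.1 t₂) (ix p.1 t₂') (ix p.1 t₃) (p.2 - 1)).Z = z1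
    generalize (envX P L g p.1 α (ix p.1 t₁) (ix p.1 t₂) (ix p.1 t₂') (ix p.1 t₃) p.2).Z = z2
    ring

/-- **The fields `nC`, `pC`, `xC` of `EnvLat`**, with one exponent `c`. -/
theorem colB_all (hMP : DomX.MajP) (hMX : DomX.MajX) : ∃ c : ℝ, 0 < c ∧
    ∀ (P : Finset (ℤ × ℤ)) (L : ℕ) (g : ℤ → ℤ × ℤ), MPoly P → Cont P L g →
      (∀ s : ℝ, Fl g s →
        ColB (lk s) (fun p => p.1) P (corners P ∪ {gam g s}) c (fun p => uN P L g p.1 p.2)) ∧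
      (∀ t₂ t₂' : ℝ, t₂ < t₂' → t₂' < t₂ + L → Fl g t₂ → Fl g t₂' → ∀ α ∈ Set.Ioo (0 : ℝ) 1,
        ColB atTop (fun n : ℕ => n) P (corners P ∪ {gam g t₂, gam g t₂'}) c
          (fun n => uP P L g n α (ix n t₂) (ix n t₂'))) ∧
      (∀ t₁ t₂ t₂' t₃ t₄ : ℝ, Marks5 L g t₁ t₂ t₂' t₃ t₄ → ∀ α ∈ Set.Ioo (0 : ℝ) 1,
        ColB (lk t₄) (fun p => p.1) P (specX P g t₁ t₂ t₂' t₃ t₄) c
          (fun p => uX P L g p.1 α (ix p.1 t₁) (ix p.1 t₂) (ix p.1 t₂') (ix p.1 t₃) p.2)) := by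
  obtain ⟨c, hc, hC⟩ := exists_colC wallThm
  refine ⟨c, hc, fun P L g hP hg => ⟨fun s _ => colB_uN hC hP hg s, ?_, ?_⟩⟩
  · intro t₂ t₂' h1 h2 h3 h4 α hα
    exact colB_uP hC hMP hP hg h1 h2 h3 h4 (Set.Ioo_subset_Icc_self hα)
  · intro t₁ t₂ t₂' t₃ t₄ hm α hα
    exact colB_uX hC hMX hP hg hm (Set.Ioo_subset_Icc_self hα)

end

end Pool.Agent.SixB.CAW
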