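import Pool.Agent.Lib.SixB.S3RotB
import Pool.Agent.Lib.SixB.CAEnvIn
import Pool.Agent.Lib.SixB.CAPos

/-!
# 6BD: from the main theorem of step 3 to the fields `nH`, `pH`, `xH` of block CA

* `CoreFam`: the statement of step 3 (S3Asm) for the three families of marks.
* `WH.base`, `WH.smul`, `WH.mix`: constants, bounded factors, mixtures.
* `wh_fam`: `WH` for every family of marks. `nH_of`, `pH_of`, `xH_of`: the fields, for `uN`, `uP`, `uX` (CAEnvE) and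
  the profile `Asm3.prof`.
-/

set_option autoImplicit false

namespace Pool.Agent.SixB

open Filter Topology
open DC (lapZ)
open scoped ContDiff

noncomputable section

/-- **Step 3, the main theorem** for the three families of marks -/
def CoreFam : Prop := ∀ (P : Finset (ℤ × ℤ)) (L : ℕ) (g : ℤ → ℤ × ℤ), MPoly P → Cont P L g →
  ∀ {ι : Type} (l : Filter ι) (n : ι → ℕ), Tendsto n l atTop → ∀ j : ι → ℤ → ℝ, MFam L g l n j →
  ∃ X : Set ℝ, X.Finite ∧ Asm3.Core Asm3.prof P l n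
    (fun i v => (envJ P L g (n i) (j i)).hU v (gr (n i) g 0)) X

theorem prof_prof : Prof Asm3.prof := ⟨Asm3.prof_smooth, Asm3.prof_supp, Asm3.prof_int⟩

section

variable {ι : Type*} {l : Filter ι} {n : ι → ℕ} {O : Set ℂ} {χ : ℂ → ℝ} {D D₁ D₂ : ι → ℤ × ℤ → ℝ}

theorem WH.base (h : WH l n O χ D) {D' : ι → ℤ × ℤ → ℝ}
    (hD : ∀ᶠ i in l, ∃ b : ℝ, ∀ v, D' i v = D i v + b) : WH l n O χ D' := by
  obtain ⟨S, hS, h1⟩ := h
  refine ⟨S, hS, fun z0 hz0 => ?_⟩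
  obtain ⟨ρ, hρ, h2⟩ := h1 z0 hz0
  refine ⟨ρ, hρ, fun ε hε => ?_⟩
  obtain ⟨r0, hr0, h3⟩ := h2 ε hε
  refine ⟨r0, hr0, fun z hz r hr hr' => ?_⟩
  filter_upwards [h3 z hz r hr hr', hD] with i hi hb
  obtain ⟨b, hb⟩ := hb
  have e : ∀ v, lapZ (D' i) v = lapZ (D i) v := by
    intro v
    unfold lapZ
    simp only [hb]
    ring
  simpa only [e] using hi

theorem WH.smul (h : WH l n O χ D) {w : ι → ℝ} (hw : ∀ᶠ i in l, |w i| ≤ 1) :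
    WH l n O χ (fun i v => w i * D i v) := by
  obtain ⟨S, hS, h1⟩ := h
  refine ⟨S, hS, fun z0 hz0 => ?_⟩
  obtain ⟨ρ, hρ, h2⟩ := h1 z0 hz0
  refine ⟨ρ, hρ, fun ε hε => ?_⟩
  obtain ⟨r0, hr0, h3⟩ := h2 ε hε
  refine ⟨r0, hr0, fun z hz r hr hr' => ?_⟩
  filter_upwards [h3 z hz r hr hr', hw] with i hi hw
  have e : ∑' v : ℤ × ℤ, χ ((DC.mesh (n i) v - z) / r) * lapZ (fun v => w i * D i v) v =
      w i * ∑' v : ℤ × ℤ, χ ((DC.mesh (n i) v - z) / r) * lapZ (D i) v := by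
    rw [← tsum_mul_left]
    refine tsum_congr fun v => ?_
    unfold lapZ
    ring
  rw [e, abs_mul]
  have h5 : 0 ≤ ε * r ^ 2 := by positivity
  calc |w i| * _ ≤ 1 * (ε * r ^ 2) := mul_le_mul hw hi (abs_nonneg _) zero_le_one
    _ = ε * r ^ 2 := one_mul _

/-- mixtures -/
theorem WH.mix (hn : Tendsto n l atTop) (hχ : Prof χ) (h₁ : WH l n O χ D₁) (h₂ : WH l n O χ D₂)
    {w w' : ι → ℝ} (hw : ∀ᶠ i in l, |w i| ≤ 1) (hw' : ∀ᶠ i in l, |w' i| ≤ 1) :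
    WH l n O χ (fun i v => w i * D₁ i v + w' i * D₂ i v) :=
  (h₁.smul hw).add hn hχ (h₂.smul hw')

end

theorem wh_fam (hcf : CoreFam) {P : Finset (ℤ × ℤ)} {L : ℕ} {g : ℤ → ℤ × ℤ} (hP : MPoly P)
    (hg : Cont P L g) {ι : Type} {l : Filter ι} {n : ι → ℕ} (hn : Tendsto n l atTop)
    {j : ι → ℤ → ℝ} (hj : MFam L g l n j) :
    WH l n (Om P) Asm3.prof (fun i v => (envJ P L g (n i) (j i)).hU v (gr (n i) g 0)) :=
  Rt.wh_of_fam Asm3.prof_smooth Asm3.prof_supp Asm3.prof_I Asm3.prof_tsupport hP hg hn hj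
    fun P L g hP hg hj => hcf P L g hP hg l n hn j hj

section fields

variable {P : Finset (ℤ × ℤ)} {L : ℕ} {g : ℤ → ℤ × ℤ}

theorem nH_of (hcf : CoreFam) (hP : MPoly P) (hg : Cont P L g) (s : ℝ)
    (hs : Fl g s) : WH (lk s) (fun p => p.1) (Om P) Asm3.prof (fun p => uN P L g p.1 p.2) := by
  have h := wh_fam hcf hP hg (lk_n s)
    (MFam.nat (L := L) (g := g) (l := lk s) (n := fun p : ℕ × ℤ => p.1) s (fun p => p.2) hs (lk_k s))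
  refine h.base (Eventually.of_forall fun p => ?_)
  refine ⟨(envN P L g p.1 p.2).hU (gr p.1 g 0) (gr p.1 g p.2), fun v => ?_⟩
  exact ((envN P L g p.1 p.2).hU_add v (gr p.1 g 0) (gr p.1 g p.2)).symm

theorem pH_of (hcf : CoreFam) (hP : MPoly P) (hg : Cont P L g)
    {t₂ t₂' : ℝ} (h1 : t₂ < t₂') (h2 : t₂' < t₂ + L) (hf : Fl g t₂) (hf' : Fl g t₂') {α : ℝ}
    (hα : α ∈ Set.Ioo (0 : ℝ) 1) : WH atTop (fun n : ℕ => n) (Om P) Asm3.prof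
      (fun n => uP P L g n α (ix n t₂) (ix n t₂')) := by
  have h := wh_fam hcf hP hg (l := atTop) (n := fun n : ℕ => n) tendsto_id
    (MFam.pair (L := L) (g := g) (l := atTop) (n := fun n : ℕ => n) α t₂ t₂' (fun n => ix n t₂)
      (fun n => ix n t₂') hα hf hf' h1 h2 (ix_div t₂) (ix_div t₂'))
  exact h

/-- the position `k - 1` moves to the same point -/
theorem lk_pred (ξ : ℝ) : Tendsto (fun p : ℕ × ℤ => ((p.2 - 1 : ℤ) : ℝ) / p.1) (lk ξ) (𝓝 ξ) := by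
  have h1 : Tendsto (fun p : ℕ × ℤ => 1 / (p.1 : ℝ)) (lk ξ) (𝓝 0) :=
    tendsto_one_div_atTop_nhds_zero_nat.comp (lk_n ξ)
  have h2 := (lk_k ξ).sub h1
  rw [sub_zero] at h2
  refine h2.congr fun p => ?_
  push_cast
  rw [sub_div]

theorem xW (hcf : CoreFam) (hP : MPoly P) (hg : Cont P L g)
    {t₁ t₂ t₂' t₃ t₄ : ℝ} (hm : Marks5 L g t₁ t₂ t₂' t₃ t₄) {α : ℝ} (hα : α ∈ Set.Ioo (0 : ℝ) 1)
    {k : ℕ × ℤ → ℤ} (hk : Tendsto (fun p : ℕ × ℤ => (k p : ℝ) / p.1) (lk t₄) (𝓝 t₄)) :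
    WH (lk t₄) (fun p => p.1) (Om P) Asm3.prof (fun p v => (envX P L g p.1 α (ix p.1 t₁) (ix p.1 t₂)
      (ix p.1 t₂') (ix p.1 t₃) (k p)).hU v (gr p.1 g 0)) :=
  wh_fam hcf hP hg (lk_n t₄)
    (MFam.full (L := L) (g := g) (l := lk t₄) (n := fun p : ℕ × ℤ => p.1) α t₁ t₂ t₂' t₃ t₄
      (fun p => ix p.1 t₁) (fun p => ix p.1 t₂) (fun p => ix p.1 t₂') (fun p => ix p.1 t₃) k hα hm
      (ixn_div (lk_n t₄) t₁) (ixn_div (lk_n t₄) t₂) (ixn_div (lk_n t₄) t₂') (ixn_div (lk_n t₄) t₃) hk)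

theorem xH_of (hcf : CoreFam) (hP : MPoly P) (hg : Cont P L g)
    {t₁ t₂ t₂' t₃ t₄ : ℝ} (hm : Marks5 L g t₁ t₂ t₂' t₃ t₄) {α : ℝ} (hα : α ∈ Set.Ioo (0 : ℝ) 1) :
    WH (lk t₄) (fun p => p.1) (Om P) Asm3.prof
      (fun p => uX P L g p.1 α (ix p.1 t₁) (ix p.1 t₂) (ix p.1 t₂') (ix p.1 t₃) p.2) := by
  have h1 := xW hcf hP hg hm hα (lk_pred t₄)
  have h2 := xW hcf hP hg hm hα (lk_k t₄)
  set E₁ : ℕ × ℤ → WEnv := fun p => envX P L g p.1 α (ix p.1 t₁) (ix p.1 t₂) (ix p.1 t₂')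
    (ix p.1 t₃) (p.2 - 1) with hE₁
  set E₂ : ℕ × ℤ → WEnv := fun p => envX P L g p.1 α (ix p.1 t₁) (ix p.1 t₂) (ix p.1 t₂')
    (ix p.1 t₃) p.2 with hE₂
  have hZ' : ∀ᶠ p in lk t₄, 0 < (E₁ p).Z ∧ 0 < (E₂ p).Z := by
    filter_upwards [envX_Z_lk hP hg hm] with p hp
    exact hp α ⟨hα.1.le, hα.2.le⟩
  have h3 := h1.mix (lk_n t₄) prof_prof h2 (w := fun p => (E₁ p).Z / ((E₁ p).Z + (E₂ p).Z))
    (w' := fun p => (E₂ p).Z / ((E₁ p).Z + (E₂ p).Z)) ?_ ?_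
  · refine h3.base ?_
    filter_upwards [hZ'] with p hp
    refine ⟨0, fun v => ?_⟩
    have e1 : (E₁ p).hM v (gr p.1 g 0) = (E₁ p).Z * (E₁ p).hU v (gr p.1 g 0) :=
      (E₁ p).hM_eq hp.1.ne' _ _
    have e2 : (E₂ p).hM v (gr p.1 g 0) = (E₂ p).Z * (E₂ p).hU v (gr p.1 g 0) :=
      (E₂ p).hM_eq hp.2.ne' _ _
    have h0 : (E₁ p).Z + (E₂ p).Z ≠ 0 := (add_pos hp.1 hp.2).ne'
    show ((E₁ p).hM v (gr p.1 g 0) + (E₂ p).hM v (gr p.1 g 0)) / ((E₁ p).Z + (E₂ p).Z) =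
      (E₁ p).Z / ((E₁ p).Z + (E₂ p).Z) * (E₁ p).hU v (gr p.1 g 0) +
        (E₂ p).Z / ((E₁ p).Z + (E₂ p).Z) * (E₂ p).hU v (gr p.1 g 0) + 0
    rw [e1, e2]
    field_simp
    ring
  · filter_upwards [hZ'] with p hp
    have h0 := add_pos hp.1 hp.2
    rw [abs_of_nonneg (div_nonneg hp.1.le h0.le), div_le_one h0]
    linarith [hp.2]
  · filter_upwards [hZ'] with p hp
    have h0 := add_pos hp.1 hp.2
    rw [abs_of_nonneg (div_nonneg hp.2.le h0.le), div_le_one h0]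
    linarith [hp.1]

end fields

end

end Pool.Agent.SixB
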