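import Pool.Agent.Lib.SixB.CAEnvF
import Pool.Agent.Lib.SixB.CAArm
import Pool.Agent.Lib.SixB.S6GDefs

/-!
# 6BD block CA: environments of a contour with the same jumps near a point

* `gam_near`, `gam_far`: the parameter of the boundary curve near a point (compactness and injectivity).
* `short`: two sides of the contour of `rf n P` near `p` bound a short piece of the contour, which does not
  meet the marks of `T` (for all small `ρ`).
* `SameL E E' B`: the same weights for the arcs with both ends in `B`.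
* `same_cenv`: two jump functions which differ only near the marks of `T` have the same local weights near `p`.
-/

set_option autoImplicit false

namespace Pool.Agent.SixB.GG

open Filter Topology Pool.Agent.Perc Pool.Agent.Perc.Q Pool.Agent.PercD CARf

noncomputable section

variable {P : Finset (ℤ × ℤ)} {L n : ℕ} {g : ℤ → ℤ × ℤ}

theorem gam_perz (h : Cont P L g) (t : ℝ) (q : ℤ) : gam g (t + q * L) = gam g t := by
  have h1 : Function.Periodic (gam g) (L : ℝ) := gam_per h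
  exact h1.int_mul q t

/-- the parameter is a continuous function of the point, up to the period -/
theorem gam_near (h : Cont P L g) (t₀ : ℝ) {ε : ℝ} (hε : 0 < ε) :
    ∃ η : ℝ, 0 < η ∧ ∀ t : ℝ, ‖gam g t - gam g t₀‖ < η → ∃ q : ℤ, |t - t₀ - q * L| < ε := by
  have hL : (0 : ℝ) < L := by exact_mod_cast h.pos
  have key : ∃ η : ℝ, 0 < η ∧ ∀ t ∈ Set.Icc (t₀ + ε) (t₀ + L - ε), η ≤ ‖gam g t - gam g t₀‖ := by
    rcases (Set.Icc (t₀ + ε) (t₀ + L - ε)).eq_empty_or_nonempty with h0 | h0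
    · exact ⟨1, one_pos, fun t ht => by rw [h0] at ht; exact absurd ht (Set.notMem_empty _)⟩
    · have hc : Continuous fun t => ‖gam g t - gam g t₀‖ :=
        ((gam_cont h).sub continuous_const).norm
      obtain ⟨s, hs, hmin⟩ := isCompact_Icc.exists_isMinOn h0 hc.continuousOn
      refine ⟨‖gam g s - gam g t₀‖, ?_, fun t ht => hmin ht⟩
      rw [norm_pos_iff, sub_ne_zero]
      exact (Third.gam_ne h (by linarith [hs.1]) (by linarith [hs.2])).symm
  obtain ⟨η, hη, hmin⟩ := key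
  refine ⟨η, hη, fun t ht => ?_⟩
  obtain ⟨q, hq⟩ : ∃ q : ℤ, q = ⌊(t - t₀) / L⌋ := ⟨_, rfl⟩
  have h1 : (q : ℝ) ≤ (t - t₀) / L := hq ▸ Int.floor_le _
  have h2 : (t - t₀) / L < q + 1 := hq ▸ Int.lt_floor_add_one _
  rw [le_div_iff₀ hL] at h1
  rw [div_lt_iff₀ hL] at h2
  by_cases h3 : t - q * L < t₀ + ε
  · exact ⟨q, by rw [abs_lt]; constructor <;> linarith⟩
  · by_cases h4 : t₀ + L - ε < t - q * L
    · refine ⟨q + 1, ?_⟩
      push_cast
      rw [abs_lt]
      constructor <;> linarith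
    · exfalso
      push Not at h3 h4
      have h5 := hmin (t - q * L) ⟨h3, h4⟩
      have h6 : gam g (t - q * L) = gam g t := by
        have := gam_perz h t (-q)
        push_cast at this
        rw [← this]
        congr 1
        ring
      rw [h6] at h5
      linarith

/-- a point which is not on the curve is far from the curve -/
theorem gam_far (h : Cont P L g) {p : ℂ} (hp : ∀ t, gam g t ≠ p) :
    ∃ η : ℝ, 0 < η ∧ ∀ t : ℝ, η ≤ ‖gam g t - p‖ := by
  have hL : (0 : ℝ) < L := by exact_mod_cast h.pos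
  have hc : Continuous fun t => ‖gam g t - p‖ := ((gam_cont h).sub continuous_const).norm
  obtain ⟨s, -, hmin⟩ := isCompact_Icc.exists_isMinOn
    (Set.nonempty_Icc.mpr hL.le : (Set.Icc (0 : ℝ) L).Nonempty) hc.continuousOn
  refine ⟨‖gam g s - p‖, norm_pos_iff.mpr (sub_ne_zero.mpr (hp s)), fun t => ?_⟩
  obtain ⟨q, hq⟩ : ∃ q : ℤ, q = ⌊t / L⌋ := ⟨_, rfl⟩
  have h1 : (q : ℝ) ≤ t / L := hq ▸ Int.floor_le _
  have h2 : t / L < q + 1 := hq ▸ Int.lt_floor_add_one _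
  rw [le_div_iff₀ hL] at h1
  rw [div_lt_iff₀ hL] at h2
  have h6 : gam g (t - q * L) = gam g t := by
    have := gam_perz h t (-q)
    push_cast at this
    rw [← this]
    congr 1
    ring
  have h5 : ‖gam g s - p‖ ≤ ‖gam g (t - q * L) - p‖ :=
    hmin (show t - q * L ∈ Set.Icc (0 : ℝ) L from ⟨by linarith, by linarith⟩)
  rwa [h6] at h5

theorem marks_far (T : Finset ℝ) {p : ℂ} (hT : ∀ t ∈ T, gam g t ≠ p) :
    ∃ δ : ℝ, 0 < δ ∧ ∀ t ∈ T, δ ≤ ‖gam g t - p‖ := by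
  induction T using Finset.induction_on with
  | empty => exact ⟨1, one_pos, fun t ht => absurd ht (Finset.notMem_empty _)⟩
  | insert a s _ ih =>
    obtain ⟨δ, hδ, h⟩ := ih fun t ht => hT t (Finset.mem_insert_of_mem ht)
    refine ⟨min δ ‖gam g a - p‖, lt_min hδ
      (norm_pos_iff.mpr (sub_ne_zero.mpr (hT a (Finset.mem_insert_self _ _)))), fun t ht => ?_⟩
    rcases Finset.mem_insert.mp ht with rfl | ht
    · exact min_le_right _ _
    · exact (min_le_left _ _).trans (h t ht)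

theorem gr_box {p : ℂ} {R i : ℤ} (h : Tilt.Ah ZQ (BR (fl n p) R) (csd (gr n g) i)) :
    (fl n p).1 - R ≤ (gr n g i).1 ∧ (gr n g i).1 ≤ (fl n p).1 + R ∧
      (fl n p).2 - R ≤ (gr n g i).2 ∧ (gr n g i).2 ≤ (fl n p).2 + R := by
  obtain ⟨f, hf, k, he⟩ := h
  have h1 : gr n g i = cor0 f k := congrArg Prod.fst he
  rw [mem_BR] at hf
  rw [h1]
  rcases isCor_cor0 f k with ⟨h2 | h2, h3 | h3⟩ <;> omega

/-- a side of the contour with a face in the box of radius `R` about `p` -/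
theorem csd_near (hn : 0 < n) {p : ℂ} {R i : ℤ}
    (h : Tilt.Ah ZQ (BR (fl n p) R) (csd (gr n g) i)) :
    ‖gam g ((i : ℝ) / n) - p‖ ≤ 2 * ((R : ℝ) + 1) / n := by
  obtain ⟨h1, h2, h3, h4⟩ := gr_box h
  have hn' : (0 : ℝ) < n := by exact_mod_cast hn
  have key : ∀ (a R : ℤ) (x : ℝ), ⌊(n : ℝ) * x⌋ - R ≤ a → a ≤ ⌊(n : ℝ) * x⌋ + R →
      |(a : ℝ) / n - x| ≤ ((R : ℝ) + 1) / n := by
    intro a R x ha hb
    have ha' : (⌊(n : ℝ) * x⌋ : ℝ) - R ≤ a := by exact_mod_cast ha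
    have hb' : (a : ℝ) ≤ ⌊(n : ℝ) * x⌋ + R := by exact_mod_cast hb
    have hf1 := Int.floor_le ((n : ℝ) * x)
    have hf2 := Int.lt_floor_add_one ((n : ℝ) * x)
    have e : (a : ℝ) / n - x = ((a : ℝ) - n * x) / n := by field_simp
    rw [e, abs_div, abs_of_pos hn']
    refine div_le_div_of_nonneg_right ?_ hn'.le
    rw [abs_le]
    constructor <;> linarith
  have k1 := key _ R p.re h1 h2
  have k2 := key _ R p.im h3 h4
  rw [gam_div g hn]
  refine (Complex.norm_le_abs_re_add_abs_im _).trans ?_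
  rw [Complex.sub_re, Complex.sub_im]
  have e : 2 * ((R : ℝ) + 1) / n = ((R : ℝ) + 1) / n + ((R : ℝ) + 1) / n := by ring
  rw [e]
  exact add_le_add k1 k2

/-- `short` for one scale, from a bound for the curve -/
theorem short_of (hc : Cont P L g) (T : Finset ℝ) {p : ℂ} (hT : ∀ t ∈ T, gam g t ≠ p) :
    ∃ ρ₀ η : ℝ, 0 < ρ₀ ∧ 0 < η ∧ ∀ x y : ℝ, x < y → y < x + L → ‖gam g x - p‖ < η → ‖gam g y - p‖ < η →
      (∀ v, x < v → v ≤ y → ∀ t ∈ T, ∀ q : ℤ, ρ₀ ≤ |v - t - q * L|) ∨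
      (∀ v, y < v → v ≤ x + L → ∀ t ∈ T, ∀ q : ℤ, ρ₀ ≤ |v - t - q * L|) := by
  have hL : (0 : ℝ) < L := by exact_mod_cast hc.pos
  by_cases hp : ∃ t₀, gam g t₀ = p
  · obtain ⟨t₀, rfl⟩ := hp
    obtain ⟨δ, hδ, hδT⟩ := marks_far T hT
    have hε : 0 < min (δ / 2) (L / 4) := lt_min (by linarith) (by linarith)
    obtain ⟨η, hη, hη'⟩ := gam_near hc t₀ hε
    refine ⟨δ / 2, η, by linarith, hη, fun x y hxy hyx hx hy => ?_⟩
    obtain ⟨q, hq⟩ := hη' x hx
    obtain ⟨q', hq'⟩ := hη' y hy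
    have hε1 : min (δ / 2) (L / 4 : ℝ) ≤ δ / 2 := min_le_left _ _
    have hε2 : min (δ / 2) (L / 4 : ℝ) ≤ L / 4 := min_le_right _ _
    rw [abs_lt] at hq hq'
    have far : ∀ t ∈ T, ∀ q q'' : ℤ, δ ≤ |t + q'' * L - (t₀ + q * L)| := by
      intro t ht q q''
      have h1 := hδT t ht
      have h2 := gam_lip hc (t₀ + q * L) (t + q'' * L)
      rw [gam_perz hc, gam_perz hc] at h2
      exact h1.trans h2
    have fin : ∀ (q : ℤ) (v : ℝ), |v - (t₀ + q * L)| ≤ δ / 2 → ∀ t ∈ T, ∀ q'' : ℤ,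
        δ / 2 ≤ |v - t - q'' * L| := by
      intro q v hv t ht q''
      have h1 := far t ht q q''
      have h2 : |t + q'' * L - (t₀ + q * L)| ≤ |v - t - q'' * L| + |v - (t₀ + q * L)| := by
        have e : t + q'' * L - (t₀ + q * L) = -(v - t - q'' * L) + (v - (t₀ + q * L)) := by ring
        rw [e]
        refine (abs_add_le _ _).trans ?_
        rw [abs_neg]
      linarith
    have h1 : ((q' : ℝ) - q) * L < 2 * L := by linarith [hq.2, hq'.1]
    have h2 : (-1 : ℝ) * L < ((q' : ℝ) - q) * L := by linarith [hq.1, hq'.2]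
    have h3 := lt_of_mul_lt_mul_right h1 hL.le
    have h4 := lt_of_mul_lt_mul_right h2 hL.le
    have h5 : q' - q < 2 := by exact_mod_cast h3
    have h6 : -1 < q' - q := by exact_mod_cast h4
    rcases (show q' = q ∨ q' = q + 1 by omega) with rfl | rfl
    · left
      intro v hv hv' t ht q''
      refine fin q' v ?_ t ht q''
      rw [abs_le]
      constructor <;> linarith [hq.1, hq'.2]
    · right
      intro v hv hv' t ht q''
      refine fin (q + 1) v ?_ t ht q''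
      push_cast at hq' ⊢
      rw [abs_le]
      constructor <;> linarith [hq.2, hq'.1]
  · push Not at hp
    obtain ⟨η, hη, h⟩ := gam_far hc hp
    refine ⟨1, η, one_pos, hη, fun x y _ _ hx _ => ?_⟩
    exact absurd hx (not_lt.mpr (h x))

/-- **two sides near `p` bound a short piece of the contour without marks** -/
theorem short (hc : Cont P L g) (T : Finset ℝ) {p : ℂ} (hT : ∀ t ∈ T, gam g t ≠ p) :
    ∃ ρ₀ : ℝ, 0 < ρ₀ ∧ ∀ ρ : ℝ, 0 < ρ → ρ ≤ ρ₀ → ∀ᶠ n : ℕ in atTop, ∀ i k : ℤ, i < k → k < i + n * L →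
      Tilt.Ah ZQ (BR (fl n p) ⌊ρ * n⌋) (csd (gr n g) i) →
      Tilt.Ah ZQ (BR (fl n p) ⌊ρ * n⌋) (csd (gr n g) k) →
      (∀ v : ℤ, i < v → v ≤ k → ∀ t ∈ T, ∀ q : ℤ, ρ ≤ |(v : ℝ) / n - t - q * L|) ∨
      (∀ v : ℤ, k < v → v ≤ i + n * L → ∀ t ∈ T, ∀ q : ℤ, ρ ≤ |(v : ℝ) / n - t - q * L|) := by
  obtain ⟨ρ₁, η, hρ₁, hη, h⟩ := short_of hc T hT
  refine ⟨min ρ₁ (η / 8), lt_min hρ₁ (by linarith), fun ρ hρ hρ' => ?_⟩
  have hρ1 : ρ ≤ ρ₁ := hρ'.trans (min_le_left _ _)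
  have hρ2 : ρ ≤ η / 8 := hρ'.trans (min_le_right _ _)
  filter_upwards [eventually_gt_atTop (⌈8 / η⌉₊)] with n hn i k hik hki hi hk
  have hn0 : 0 < n := by omega
  have hn' : (0 : ℝ) < n := by exact_mod_cast hn0
  have hn1 : 8 / η < n := (Nat.le_ceil _).trans_lt (by exact_mod_cast hn)
  rw [div_lt_iff₀ hη] at hn1
  have hR : ((⌊ρ * n⌋ : ℤ) : ℝ) ≤ ρ * n := Int.floor_le _
  have hb : 2 * (((⌊ρ * n⌋ : ℤ) : ℝ) + 1) / n < η := by
    rw [div_lt_iff₀ hn']
    nlinarith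
  have h1 := (csd_near hn0 hi).trans_lt hb
  have h2 := (csd_near hn0 hk).trans_lt hb
  have h3 : (i : ℝ) / n < (k : ℝ) / n := div_lt_div_of_pos_right (by exact_mod_cast hik) hn'
  have h4 : (k : ℝ) / n < (i : ℝ) / n + L := by
    rw [div_add' _ _ _ hn'.ne', div_lt_div_iff_of_pos_right hn']
    have : (k : ℝ) < i + n * L := by exact_mod_cast hki
    linarith
  rcases h _ _ h3 h4 h1 h2 with h5 | h5
  · left
    intro v hv hv' t ht q
    refine hρ1.trans (h5 _ (div_lt_div_of_pos_right (by exact_mod_cast hv) hn')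
      (div_le_div_of_nonneg_right (by exact_mod_cast hv') hn'.le) t ht q)
  · right
    intro v hv hv' t ht q
    refine hρ1.trans (h5 _ (div_lt_div_of_pos_right (by exact_mod_cast hv) hn') ?_ t ht q)
    rw [div_add' _ _ _ hn'.ne', div_le_div_iff_of_pos_right hn']
    have : (v : ℝ) ≤ i + n * L := by exact_mod_cast hv'
    linarith

/-- the same weights for the arcs with both ends in `B` (hypothesis of `RowSame`) -/
def SameL (E E' : WEnv) (B : Finset (ℤ × ℤ)) : Prop :=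
  ∀ a ∈ bS ZQ E.F, ∀ b ∈ bS ZQ E.F, Tilt.Ah ZQ B a → Tilt.Ah ZQ B b →
    E'.t a b = E.t a b ∧ E'.s a b = E.s a b

theorem csum_eq_of {j j' : ℤ → ℝ} {i k : ℤ} (h : ∀ v, i < v → v ≤ k → j v = j' v) :
    csum j i k = csum j' i k := by
  unfold csum
  refine Finset.sum_congr rfl fun v hv => ?_
  rw [Finset.mem_Ioc] at hv
  exact h v hv.1 hv.2

/-- **the local weights of two environments of the contour**, for all small `ρ` -/
theorem same_cenv (hP : MPoly P) (hc : Cont P L g) (T : Finset ℝ) {p : ℂ}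
    (hT : ∀ t ∈ T, gam g t ≠ p) :
    ∃ ρ₀ : ℝ, 0 < ρ₀ ∧ ∀ ρ : ℝ, 0 < ρ → ρ ≤ ρ₀ → ∀ᶠ n : ℕ in atTop, ∀ j j' : ℤ → ℝ,
      (∀ v, j (v + (n * L : ℕ)) = j v) → (∀ v, j' (v + (n * L : ℕ)) = j' v) →
      csum j 0 (n * L : ℕ) = Real.pi / 3 → csum j' 0 (n * L : ℕ) = Real.pi / 3 →
      (∀ v : ℤ, j v ≠ j' v → ∃ t ∈ T, ∃ q : ℤ, |(v : ℝ) / n - t - q * L| < ρ) →
      SameL (cenv (rf n P) (gr n g) (n * L) j) (cenv (rf n P) (gr n g) (n * L) j')
        (BR (fl n p) ⌊ρ * n⌋) := by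
  obtain ⟨ρ₀, hρ₀, h⟩ := short hc T hT
  refine ⟨ρ₀, hρ₀, fun ρ hρ hρ' => ?_⟩
  filter_upwards [h ρ hρ hρ', eventually_gt_atTop 0] with n hs hn j j' hj hj' h0 h0' hd
  have hcn := cont_rf hc hn
  have hPn := mpoly_rf hP hn
  have heq : ∀ i k : ℤ, i < k → k < i + n * L →
      Tilt.Ah ZQ (BR (fl n p) ⌊ρ * n⌋) (csd (gr n g) i) →
      Tilt.Ah ZQ (BR (fl n p) ⌊ρ * n⌋) (csd (gr n g) k) → csum j i k = csum j' i k := by
    intro i k hik hki hi hk
    have hjj : ∀ v : ℤ, (∀ t ∈ T, ∀ q : ℤ, ρ ≤ |(v : ℝ) / n - t - q * L|) → j v = j' v := by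
      intro v hv
      by_contra hne
      obtain ⟨t, ht, q, hq⟩ := hd v hne
      exact absurd hq (not_lt.mpr (hv t ht q))
    rcases hs i k hik hki hi hk with h1 | h1
    · exact csum_eq_of fun v hv hv' => hjj v (h1 v hv hv')
    · have e1 := csum_add j hik.le hki.le
      have e2 := csum_add j' hik.le hki.le
      have e3 := csum_period hj h0 i
      have e4 := csum_period hj' h0' i
      push_cast at e3 e4
      have e5 : csum j k (i + n * L) = csum j' k (i + n * L) :=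
        csum_eq_of fun v hv hv' => hjj v (h1 v hv hv')
      linarith
  have hlt : ∀ i k : ℤ, i < k → k < i + n * L →
      Tilt.Ah ZQ (BR (fl n p) ⌊ρ * n⌋) (csd (gr n g) i) →
      Tilt.Ah ZQ (BR (fl n p) ⌊ρ * n⌋) (csd (gr n g) k) →
      (cenv (rf n P) (gr n g) (n * L) j').t (csd (gr n g) i) (csd (gr n g) k) =
        (cenv (rf n P) (gr n g) (n * L) j).t (csd (gr n g) i) (csd (gr n g) k) ∧
      (cenv (rf n P) (gr n g) (n * L) j').s (csd (gr n g) i) (csd (gr n g) k) =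
        (cenv (rf n P) (gr n g) (n * L) j).s (csd (gr n g) i) (csd (gr n g) k) := by
    intro i k hik hki hi hk
    have hki' : k < i + (n * L : ℕ) := by push_cast; exact hki
    obtain ⟨a1, a2⟩ := cenv_ts (F := rf n P) hcn hj h0 hik hki'
    obtain ⟨b1, b2⟩ := cenv_ts (F := rf n P) hcn hj' h0' hik hki'
    rw [a1, a2, b1, b2, heq i k hik hki hi hk]
    exact ⟨rfl, rfl⟩
  intro a ha b hb hBa hBb
  obtain ⟨i, hi, rfl⟩ := bS_csd hcn hPn ha 0
  obtain ⟨k, hk, rfl⟩ := bS_csd hcn hPn hb 0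
  have hi' : (i : ℤ) < n * L := by exact_mod_cast hi
  have hk' : (k : ℤ) < n * L := by exact_mod_cast hk
  rcases lt_trichotomy i k with hik | rfl | hki
  · exact hlt _ _ (by omega) (by omega) hBa hBb
  · constructor
    · show Ht.tJ _ = Ht.tJ _
      rw [min_self, max_self, csum_self, csum_self]
    · have h1 : ∀ j : ℤ → ℝ, (cenv (rf n P) (gr n g) (n * L) j).s (csd (gr n g) (0 + (i : ℤ)))
          (csd (gr n g) (0 + (i : ℤ))) = 0 := by
        intro j
        have := (cenv (rf n P) (gr n g) (n * L) j).s_anti (csd (gr n g) (0 + (i : ℤ)))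
          (csd (gr n g) (0 + (i : ℤ)))
        linarith
      rw [h1, h1]
  · obtain ⟨h1, h2⟩ := hlt (0 + (k : ℤ)) (0 + (i : ℤ)) (by omega) (by omega) hBb hBa
    rw [WEnv.t_symm _ (csd (gr n g) (0 + (i : ℤ))), WEnv.t_symm _ (csd (gr n g) (0 + (i : ℤ))),
      WEnv.s_anti _ (csd (gr n g) (0 + (k : ℤ))), WEnv.s_anti _ (csd (gr n g) (0 + (k : ℤ))),
      h1, h2]
    exact ⟨rfl, rfl⟩

end

end Pool.Agent.SixB.GG
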