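import Pool.Agent.Lib.SixB.S6GOsc
import Pool.Agent.Lib.SixB.S6GCtr
import Pool.Agent.Lib.SixB.CAEnvIn
import Pool.Agent.Lib.SixB.CADomDefs
import Pool.Agent.Lib.SixB.PlaneU

/-!
# 6BD block CA, rows S6G: the oscillation fields of `EnvIn`

* `NatLoc E v d`: natural weights near `v`; gives `NatW` and `Kap2`; `NatE.maj`: majorant of a natural environment.
* `JF L T l n b K J`: families of jumps which differ from the natural jumps of the base `b` near the marks of `T` only;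
  `MF P L g l n p K J`: majorants at `p` (from `DomX.MajP`, `DomX.MajX`, `natE_cenv`).
* `losc_env`: `LOsc` of the difference of two such families (from `LD1`, `RowSame`, `RowGeo`).
* `nnL`, `pnL`, `xnL`, `xmL`: the fields of `EnvLat` (CAEnvIn.lean) for `uN`, `uP`, `uX` of CAEnvE.
-/

set_option autoImplicit false
set_option linter.unusedSectionVars false

namespace Pool.Agent.SixB.GG

open Pool.Agent.Perc Pool.Agent.Perc.Q Pool.Agent.PercD Tilt HG Relation Filter Topology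
open Ht (tJ dJ)

noncomputable section

/-! ## Natural weights -/

/-- the weights are natural near `v` -/
structure NatLoc (E : WEnv) (v : VZ) (d : ℤ) : Prop where
  t1 : ∀ a ∈ bS ZQ E.F, ∀ b ∈ bS ZQ E.F, Ah ZQ (BR v d) a → Ah ZQ (BR v d) b → E.t a b = 1
  s1 : ∀ a ∈ bS ZQ E.F, ∀ b ∈ bS ZQ E.F, Ah ZQ (BR v d) a → Ah ZQ (BR v d) b → |E.s a b| ≤ 1

theorem abs_clo (F : Finset (ℤ × ℤ)) {ω : Cfg} {e : DZ} (h : Clo ZQ F ω e) :
    |Real.sqrt 3 / 4 * (trn ZQ F ω e : ℝ)| ≤ 2 := by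
  have h3 : Real.sqrt 3 ≤ 2 := by
    rw [Real.sqrt_le_left (by norm_num)]
    norm_num
  have h0 := Real.sqrt_nonneg 3
  rcases uml_ZQ F ω e h with h1 | h1
  · rw [h1, abs_le]
    constructor <;> push_cast <;> linarith
  · rw [h1, abs_le]
    constructor <;> push_cast <;> linarith

theorem NatLoc.natW {E : WEnv} {v : VZ} {d : ℤ} (h : NatLoc E v d) : NatW E v d := h.t1

theorem NatLoc.kap2 {E : WEnv} {v : VZ} {d : ℤ} (h : NatLoc E v d) : Kap2 E v d := by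
  intro ω X e hd hX heX
  unfold kap
  by_cases hcl : Clo ZQ E.F ω e
  · rw [if_pos hcl]
    exact abs_clo E.F hcl
  · rw [if_neg hcl]
    have hc : e ∈ dE ZQ E.F := dstr_sub hd heX
    have hs := stt_mem hcl hc
    have hsX : stt E.F ω e ∈ X := (rtg_b' (ω' := ω) hd hX (fun _ _ => rfl) heX (stt_spec hcl).1).1
    have hm : mate ZQ E.F ω (stt E.F ω e) ∈ bS ZQ E.F := mate_mem hs
    have hmX : (mate ZQ E.F ω (stt E.F ω e)).swap ∈ X :=
      (rtg_f' (ω' := ω) hd hX (fun _ _ => rfl) heX (stt_last hcl)).1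
    have h1 : Ah ZQ (BR v d) (stt E.F ω e) := by
      obtain ⟨f, hf, k, h4⟩ := bS_sd hs
      exact ⟨f, hX f hf k (Or.inl (h4 ▸ hsX)), k, h4⟩
    have h2 : Ah ZQ (BR v d) (mate ZQ E.F ω (stt E.F ω e)) := by
      obtain ⟨f, hf, k, h4⟩ := bS_sd hm
      exact ⟨f, hX f hf k (Or.inr (h4 ▸ hmX)), k, h4⟩
    rw [h.t1 _ hs _ hm h1 h2, div_one]
    exact (h.s1 _ hs _ hm h1 h2).trans (by norm_num)

/-- a natural environment -/
structure NatE (E : WEnv) : Prop where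
  t1 : ∀ a ∈ bS ZQ E.F, ∀ b ∈ bS ZQ E.F, E.t a b = 1
  s1 : ∀ a ∈ bS ZQ E.F, ∀ b ∈ bS ZQ E.F, |E.s a b| ≤ 1

theorem NatE.loc {E : WEnv} (h : NatE E) (v : VZ) (d : ℤ) : NatLoc E v d :=
  ⟨fun a ha b hb _ _ => h.t1 a ha b hb, fun a ha b hb _ _ => h.s1 a ha b hb⟩

theorem NatE.W {E : WEnv} (h : NatE E) (ω : Cfg) : E.W ω = 1 := by
  unfold WEnv.W
  refine Finset.prod_eq_one fun p hp => ?_
  obtain ⟨a, ha, rfl⟩ := mem_arcs.mp hp
  exact h.t1 a ha _ (mate_mem ha)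

theorem NatE.Z {E : WEnv} (h : NatE E) : E.Z = 1 := by
  unfold WEnv.Z
  rw [av_congr (g' := fun _ => 1) (fun T _ => h.W (ind T)), av_const]

theorem NatE.num {E : WEnv} (h : NatE E) (ω : Cfg) {e : DZ} (he : e ∈ dE ZQ E.F) : |E.num ω e| ≤ 2 := by
  unfold WEnv.num
  split_ifs with hcl
  · rw [h.W, mul_one]
    exact abs_clo E.F hcl
  · have h1 : ∏ p ∈ (arcs ZQ E.F ω).erase (arcE E.F ω e), E.T p = 1 := by
      refine Finset.prod_eq_one fun p hp => ?_
      obtain ⟨a, ha, rfl⟩ := mem_arcs.mp (Finset.mem_of_mem_erase hp)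
      exact h.t1 a ha _ (mate_mem ha)
    rw [h1, mul_one]
    exact (h.s1 _ (stt_mem hcl he) _ (mate_mem (stt_mem hcl he))).trans (by norm_num)

/-- the majorant of a natural environment -/
theorem NatE.maj {E : WEnv} (h : NatE E) (v : VZ) (d : ℤ) : Maj E v d 1 := by
  refine ⟨by rw [h.Z]; exact one_pos, fun _ => 1, fun _ _ _ => rfl, fun ω => by rw [h.W, abs_one],
    fun ω e he => ?_, ?_⟩
  · rw [mul_one]
    exact h.num ω (SixB.dE_mono Finset.inter_subset_left he)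
  · rw [av_const, h.Z, mul_one]

/-- the natural environment of a contour -/
theorem natE_cenv {P : Finset (ℤ × ℤ)} {m : ℕ} {g : ℤ → VZ} (hc : Cont P m g) (hP : MPoly P) (b : ℤ) :
    NatE (cenv P g m (jN m b)) := by
  have h3 : 1 / Real.sqrt 3 ≤ 1 :=
    (div_le_one (Real.sqrt_pos.2 (by norm_num))).2 (Real.one_le_sqrt.2 (by norm_num))
  have h4 : |1 / Real.sqrt 3| ≤ 1 := by rw [abs_of_nonneg (by positivity)]; exact h3
  constructor
  · intro a ha c hc'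
    by_cases hac : a = c
    · rw [hac]
      show tJ (csum (jN m b) (min (cidx g m c : ℤ) (cidx g m c)) (max (cidx g m c : ℤ) (cidx g m c))) = 1
      rw [min_self, max_self, csum_self]
      unfold Ht.tJ
      rw [zero_sub, Real.cos_neg]
      exact div_self cos_pi_div_six_ne
    · exact nat_t hc hP ha hc' hac
  · intro a ha c hc'
    obtain ⟨i, hi, rfl⟩ := bS_csd hc hP ha 0
    obtain ⟨l, hl, rfl⟩ := bS_csd hc hP hc' 0
    rcases Nat.lt_trichotomy i l with h | h | h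
    · rw [(nat_ts hc (b := b) (i := 0 + (i : ℤ)) (k := 0 + (l : ℤ)) (by omega) (by omega)).2]
      split_ifs
      · exact h4
      · rw [abs_neg]; exact h4
    · rw [h]
      have h5 := (cenv P g m (jN m b)).s_anti (csd g (0 + (l : ℤ))) (csd g (0 + (l : ℤ)))
      have h6 : (cenv P g m (jN m b)).s (csd g (0 + (l : ℤ))) (csd g (0 + (l : ℤ))) = 0 := by linarith
      rw [h6, abs_zero]
      exact zero_le_one
    · rw [(cenv P g m (jN m b)).s_anti (csd g (0 + (l : ℤ))) (csd g (0 + (i : ℤ))), abs_neg,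
        (nat_ts hc (b := b) (i := 0 + (l : ℤ)) (k := 0 + (i : ℤ)) (by omega) (by omega)).2]
      split_ifs
      · exact h4
      · rw [abs_neg]; exact h4

/-! ## The functions as families -/

section functions

variable (P : Finset (ℤ × ℤ)) (L : ℕ) (g : ℤ → VZ)

theorem uN_hF (n : ℕ) (b : ℤ) (w : VZ) :
    uN P L g n b w = hF ({()} : Finset Unit) (fun _ => envN P L g n b) w (gr n g b) := by
  rw [hF_single]
  rfl

theorem uP_hF (n : ℕ) (α : ℝ) (i i' : ℤ) (w : VZ) :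
    uP P L g n α i i' w = hF ({()} : Finset Unit) (fun _ => envP P L g n α i i') w (gr n g 0) := by
  rw [hF_single]
  rfl

theorem uX_hF (n : ℕ) (α : ℝ) (i j j' l k : ℤ) (w : VZ) :
    uX P L g n α i j j' l k w = hF (Finset.univ : Finset Bool)
      (fun c => envX P L g n α i j j' l (if c then k else k - 1)) w (gr n g 0) := by
  unfold hF uX
  rw [Fintype.sum_bool, Fintype.sum_bool]
  simp only [if_true, Bool.false_eq_true, if_false]
  rw [add_comm (WEnv.hM _ _ _), add_comm (WEnv.Z _)]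

end functions

/-! ## Jumps -/

theorem jN_near {n L : ℕ} (hn : 0 < n) {b v : ℤ} (h : jN (n * L) b v ≠ 0) {t ρ : ℝ}
    (hb : |(b : ℝ) / n - t| < ρ) : ∃ q : ℤ, |(v : ℝ) / n - t - q * L| < ρ := by
  unfold jN at h
  split_ifs at h with h1
  · obtain ⟨q, hq⟩ := h1
    refine ⟨q, ?_⟩
    have hn' : (n : ℝ) ≠ 0 := by exact_mod_cast hn.ne'
    have e : (v : ℝ) = b + n * L * q := by
      have : (v : ℤ) = b + n * L * q := by
        rw [← sub_eq_iff_eq_add', hq]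
        push_cast
        ring
      exact_mod_cast this
    have e2 : (v : ℝ) / n - t - q * L = (b : ℝ) / n - t := by
      rw [e]
      field_simp
      ring
    rw [e2]
    exact hb
  · exact absurd rfl h

theorem jX_sub {M : ℕ} {α : ℝ} {i j j' l k v : ℤ} (h : jX M α i j j' l k v ≠ jN M i v) :
    jN M j v ≠ 0 ∨ jN M j' v ≠ 0 ∨ jN M l v ≠ 0 ∨ jN M k v ≠ 0 ∨ jN M (k + 1) v ≠ 0 := by
  by_contra hc
  push Not at hc
  obtain ⟨h1, h2, h3, h4, h5⟩ := hc
  apply h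
  unfold jX
  rw [h1, h2, h3, h4, h5]
  ring

theorem jX_sub' {M : ℕ} {α : ℝ} {i j j' l k v : ℤ} (h : jX M α i j j' l k v ≠ jN M l v) :
    jN M i v ≠ 0 ∨ jN M j v ≠ 0 ∨ jN M j' v ≠ 0 ∨ jN M k v ≠ 0 ∨ jN M (k + 1) v ≠ 0 := by
  by_contra hc
  push Not at hc
  obtain ⟨h1, h2, h3, h4, h5⟩ := hc
  apply h
  unfold jX
  rw [h1, h2, h3, h4, h5]
  ring

theorem jP_sub {M : ℕ} {α : ℝ} {i i' k v : ℤ} (h : jP M α i i' v ≠ jN M k v) :
    jN M i v ≠ 0 ∨ jN M i' v ≠ 0 ∨ jN M k v ≠ 0 := by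
  by_contra hc
  push Not at hc
  obtain ⟨h1, h2, h3⟩ := hc
  apply h
  unfold jP
  rw [h1, h2, h3]
  ring

theorem jN_sub {M : ℕ} {i k v : ℤ} (h : jN M i v ≠ jN M k v) : jN M i v ≠ 0 ∨ jN M k v ≠ 0 := by
  by_contra hc
  push Not at hc
  exact h (hc.1.trans hc.2.symm)

/-! ## Marks at a distance -/

theorem dd_ge {n : ℕ} (hn : 0 < n) (g : ℤ → ℤ × ℤ) (p : ℂ) (k : ℤ) :
    n * ‖gam g ((k : ℝ) / n) - p‖ ≤ 2 * (dd (fl n p) (gr n g k) : ℝ) + 2 := by
  have hn' : (0 : ℝ) < n := by exact_mod_cast hn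
  have key : ∀ (a : ℤ) (x : ℝ), n * |(a : ℝ) / n - x| ≤ (|⌊(n : ℝ) * x⌋ - a| : ℤ) + 1 := by
    intro a x
    have h1 := Int.floor_le ((n : ℝ) * x)
    have h2 := Int.lt_floor_add_one ((n : ℝ) * x)
    have e : n * |(a : ℝ) / n - x| = |(a : ℝ) - n * x| := by
      rw [← abs_of_pos hn', ← abs_mul, abs_of_pos hn']
      congr 1
      field_simp
    rw [e]
    push_cast
    have h3 := abs_le.1 (le_refl |(⌊(n : ℝ) * x⌋ : ℝ) - a|)
    rw [abs_le]
    constructor <;> linarith [h3.1, h3.2]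
  rw [CARf.gam_div g hn]
  have h1 := key (gr n g k).1 p.re
  have h2 := key (gr n g k).2 p.im
  have h3 : ((|⌊(n : ℝ) * p.re⌋ - (gr n g k).1| : ℤ) : ℝ) ≤ (dd (fl n p) (gr n g k) : ℝ) := by
    exact_mod_cast le_max_left _ _
  have h4 : ((|⌊(n : ℝ) * p.im⌋ - (gr n g k).2| : ℤ) : ℝ) ≤ (dd (fl n p) (gr n g k) : ℝ) := by
    exact_mod_cast le_max_right _ _
  have h5 := Complex.norm_le_abs_re_add_abs_im
    ((⟨((gr n g k).1 : ℝ) / n, ((gr n g k).2 : ℝ) / n⟩ : ℂ) - p)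
  rw [Complex.sub_re, Complex.sub_im] at h5
  have h6 := mul_le_mul_of_nonneg_left h5 hn'.le
  rw [mul_add] at h6
  simp only at h6
  linarith

section filters

variable {P : Finset (ℤ × ℤ)} {L : ℕ} {g : ℤ → VZ} {ι : Type*} {l : Filter ι} {n : ι → ℕ}

/-- the marks stay at a distance from `p` -/
theorem mark_far (hc : Cont P L g) (hn : Tendsto n l atTop) {p : ℂ} {t : ℝ} (hp : p ≠ gam g t) :
    ∃ ε : ℝ, 0 < ε ∧ ∀ k : ι → ℤ, Tendsto (fun i => (k i : ℝ) / n i) l (𝓝 t) →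
      ∀ᶠ i in l, ε * n i ≤ (dd (fl (n i) p) (gr (n i) g (k i)) : ℝ) := by
  have hη : 0 < ‖gam g t - p‖ := norm_pos_iff.2 (sub_ne_zero.2 hp.symm)
  refine ⟨‖gam g t - p‖ / 8, by positivity, fun k hk => ?_⟩
  have h1 : Tendsto (fun i => ‖gam g ((k i : ℝ) / n i) - p‖) l (𝓝 ‖gam g t - p‖) :=
    (((CARf.gam_cont hc).sub continuous_const).norm.tendsto t).comp hk
  have h2 := h1.eventually (lt_mem_nhds (show ‖gam g t - p‖ / 2 < ‖gam g t - p‖ by linarith))
  have hnr : Tendsto (fun i => (n i : ℝ)) l atTop := tendsto_natCast_atTop_atTop.comp hn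
  filter_upwards [h2, hn.eventually_gt_atTop 0, hnr.eventually_ge_atTop (8 / ‖gam g t - p‖)] with i a b c
  have h3 := dd_ge b g p (k i)
  have hn' : (0 : ℝ) < n i := by exact_mod_cast b
  rw [div_le_iff₀ hη] at c
  have h4 : (n i : ℝ) * (‖gam g t - p‖ / 2) ≤ n i * ‖gam g ((k i : ℝ) / n i) - p‖ :=
    mul_le_mul_of_nonneg_left a.le hn'.le
  linarith

theorem div_add_tendsto (hn : Tendsto n l atTop) {k : ι → ℤ} {t : ℝ}
    (hk : Tendsto (fun i => (k i : ℝ) / n i) l (𝓝 t)) (a : ℤ) :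
    Tendsto (fun i => ((k i + a : ℤ) : ℝ) / n i) l (𝓝 t) := by
  have hnr : Tendsto (fun i => (n i : ℝ)) l atTop := tendsto_natCast_atTop_atTop.comp hn
  have h1 : Tendsto (fun i => (a : ℝ) / n i) l (𝓝 0) := hnr.const_div_atTop (a : ℝ)
  have h2 := hk.add h1
  rw [add_zero] at h2
  refine h2.congr fun i => ?_
  push_cast
  ring

theorem near_jN (hn : Tendsto n l atTop) {k : ι → ℤ} {t : ℝ}
    (hk : Tendsto (fun i => (k i : ℝ) / n i) l (𝓝 t)) {T : Finset ℝ} (ht : t ∈ T) {ρ : ℝ} (hρ : 0 < ρ) :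
    ∀ᶠ i in l, ∀ v, jN (n i * L) (k i) v ≠ 0 → ∃ t ∈ T, ∃ q : ℤ, |(v : ℝ) / n i - t - q * L| < ρ := by
  have h1 := hk.eventually (Metric.ball_mem_nhds t hρ)
  filter_upwards [h1, hn.eventually_gt_atTop 0] with i a b v hv
  rw [Real.dist_eq] at a
  obtain ⟨q, hq⟩ := jN_near b hv a
  exact ⟨t, ht, q, hq⟩

end filters

/-! ## The general statement -/

theorem Maj.le {E : WEnv} {v : VZ} {d : ℤ} {M M' : ℝ} (h : Maj E v d M) (hM : M ≤ M') : Maj E v d M' := by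
  obtain ⟨h0, H, h1, h2, h3, h4⟩ := h
  exact ⟨h0, H, h1, h2, h3, h4.trans (mul_le_mul_of_nonneg_right hM h0.le)⟩

/-- jumps which differ from the natural jumps of the base `b` near the marks of `T` only -/
structure JF (L : ℕ) (T : Finset ℝ) {ι : Type*} (l : Filter ι) (n : ι → ℕ) (b : ι → ℤ) {κ : Type}
    (K : Finset κ) (J : ι → κ → ℤ → ℝ) : Prop where
  per : ∀ i k v, J i k (v + (n i * L : ℕ)) = J i k v
  sum : ∀ᶠ i in l, ∀ k ∈ K, csum (J i k) 0 (n i * L : ℕ) = Real.pi / 3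
  near : ∀ ρ : ℝ, 0 < ρ → ∀ᶠ i in l, ∀ k ∈ K, ∀ v, J i k v ≠ jN (n i * L) (b i) v →
    ∃ t ∈ T, ∃ q : ℤ, |(v : ℝ) / n i - t - q * L| < ρ

/-- majorants at `p` -/
def MF (P : Finset (ℤ × ℤ)) (L : ℕ) (g : ℤ → VZ) {ι : Type*} (l : Filter ι) (n : ι → ℕ) (p : ℂ)
    {κ : Type} (K : Finset κ) (J : ι → κ → ℤ → ℝ) : Prop :=
  ∃ δ M : ℝ, 0 < δ ∧ ∀ᶠ i in l, ∀ k ∈ K, ∀ d : ℤ, (d : ℝ) ≤ δ * n i →
    Maj (envJ P L g (n i) (J i k)) (fl (n i) p) d M

section general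

variable {P : Finset (ℤ × ℤ)} {L : ℕ} {g : ℤ → VZ} {ι : Type*} {l : Filter ι} {n : ι → ℕ}

theorem natLoc_same {E E' : WEnv} {v : VZ} {d : ℤ} (h : NatE E) (hF : E'.F = E.F)
    (hs : SameL E E' (BR v d)) : NatLoc E' v d := by
  constructor
  · intro a ha b hb h1 h2
    rw [hF] at ha hb
    rw [(hs a ha b hb h1 h2).1]
    exact h.t1 a ha b hb
  · intro a ha b hb h1 h2
    rw [hF] at ha hb
    rw [(hs a ha b hb h1 h2).2]
    exact h.s1 a ha b hb

/-- **Small oscillation of the difference of two families of contour environments.** -/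
theorem losc_env (hLD : LD1) (hS : RowSame) (hG : RowGeo) (hP : MPoly P) (hc : Cont P L g)
    (hn : Tendsto n l atTop) {κ κ' : Type} {K : Finset κ} {K' : Finset κ'} (hK : K.Nonempty)
    (hK' : K'.Nonempty) {T : Finset ℝ} {b₀ : ι → ℤ} {J : ι → κ → ℤ → ℝ} {J' : ι → κ' → ℤ → ℝ}
    (hJ : JF L T l n b₀ K J) (hJ' : JF L T l n b₀ K' J') {p : ℂ} (hp : p ∈ Cl P)
    (hT : ∀ t ∈ T, gam g t ≠ p) (hM : MF P L g l n p K J) (hM' : MF P L g l n p K' J') (b b' : ι → VZ) :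
    LOsc l n P (fun i w => hF K (fun k => envJ P L g (n i) (J i k)) w (b i) -
      hF K' (fun k => envJ P L g (n i) (J' i k)) w (b' i)) p := by
  obtain ⟨ρ₀, hρ₀, hsame⟩ := same_cenv hP hc T hT
  obtain ⟨δ, M, hδ, hM⟩ := hM
  obtain ⟨δ', M', hδ', hM'⟩ := hM'
  obtain ⟨ρ, hρ, hρ1, hρ2, hρ3⟩ : ∃ ρ : ℝ, 0 < ρ ∧ ρ ≤ ρ₀ ∧ ρ ≤ δ ∧ ρ ≤ δ' :=
    ⟨min ρ₀ (min δ δ'), lt_min hρ₀ (lt_min hδ hδ'), min_le_left _ _,
      (min_le_right _ _).trans (min_le_left _ _), (min_le_right _ _).trans (min_le_right _ _)⟩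
  have hs := hn.eventually (hsame ρ hρ hρ1)
  have hpos := hn.eventually_gt_atTop 0
  -- the same weights as the natural environment
  have key : ∀ {κ : Type} {K : Finset κ} {J : ι → κ → ℤ → ℝ}, JF L T l n b₀ K J →
      ∀ᶠ i in l, ∀ k ∈ K, SameL (envN P L g (n i) (b₀ i)) (envJ P L g (n i) (J i k))
        (BR (fl (n i) p) ⌊ρ * n i⌋) := by
    intro κ K J hJ
    filter_upwards [hs, hpos, hJ.sum, hJ.near ρ hρ] with i h1 h2 h3 h4 k hk
    have hpos' : 0 < n i * L := Nat.mul_pos h2 hc.pos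
    refine h1 (jN (n i * L) (b₀ i)) (J i k) (jN_per _ _) (hJ.per i k) (csum_jN hpos' _) (h3 k hk)
      fun v hv => h4 k hk v hv.symm
  have loc : ∀ {κ : Type} {K : Finset κ} {J : ι → κ → ℤ → ℝ} {δ M : ℝ}, JF L T l n b₀ K J → ρ ≤ δ →
      (∀ᶠ i in l, ∀ k ∈ K, ∀ d : ℤ, (d : ℝ) ≤ δ * n i →
        Maj (envJ P L g (n i) (J i k)) (fl (n i) p) d M) →
      ∀ M₀ : ℝ, M ≤ M₀ → ∀ᶠ i in l, ∀ k ∈ K,
        Loc (envJ P L g (n i) (J i k)) (rf (n i) P) (fl (n i) p) ⌊ρ * n i⌋ M₀ := by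
    intro κ K J δ M hJ hρδ hM M₀ hM₀
    filter_upwards [key hJ, hM, hpos] with i h1 h2 h3 k hk
    have hnat : NatE (envN P L g (n i) (b₀ i)) := natE_cenv (CARf.cont_rf hc h3) (CARf.mpoly_rf hP h3) _
    have hl : NatLoc (envJ P L g (n i) (J i k)) (fl (n i) p) ⌊ρ * n i⌋ :=
      natLoc_same hnat rfl (h1 k hk)
    exact ⟨rfl, hl.kap2, hl.natW, (h2 k hk _ ((Int.floor_le _).trans
      (mul_le_mul_of_nonneg_right hρδ (by positivity)))).le hM₀⟩
  refine losc_of_LD hLD hS hG hP hn hK hK' hp hρ (M := max 0 (max M M')) (le_max_left _ _)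
    (loc hJ hρ2 hM _ ((le_max_left _ _).trans (le_max_right _ _)))
    (loc hJ' hρ3 hM' _ ((le_max_right _ _).trans (le_max_right _ _))) ?_ b b'
  filter_upwards [key hJ, key hJ'] with i h1 h2 k hk k' hk' a ha c hc' ha1 hc1
  obtain ⟨e1, e2⟩ := h1 k hk a ha c hc' ha1 hc1
  obtain ⟨e3, e4⟩ := h2 k' hk' a ha c hc' ha1 hc1
  exact ⟨e3.trans e1.symm, e4.trans e2.symm⟩

end general

/-! ## The families -/

section families

variable {P : Finset (ℤ × ℤ)} {L : ℕ} {g : ℤ → VZ} {ι : Type*} {l : Filter ι} {n : ι → ℕ}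

/-- natural jumps with the base `c` near the mark `t`, compared with the base `b` near the mark `s` -/
theorem JF.nat (hL : 0 < L) (hn : Tendsto n l atTop) {T : Finset ℝ} {b c : ι → ℤ} {s t : ℝ}
    (hb : Tendsto (fun i => (b i : ℝ) / n i) l (𝓝 s)) (hc : Tendsto (fun i => (c i : ℝ) / n i) l (𝓝 t))
    (hs : s ∈ T) (ht : t ∈ T) {κ : Type} (K : Finset κ) :
    JF L T l n b K (fun i _ => jN (n i * L) (c i)) where
  per i _ v := jN_per _ _ _
  sum := by
    filter_upwards [hn.eventually_gt_atTop 0] with i hi k _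
    exact csum_jN (Nat.mul_pos hi hL) _
  near ρ hρ := by
    filter_upwards [near_jN (L := L) hn hb hs hρ, near_jN (L := L) hn hc ht hρ] with i h1 h2 k _ v hv
    rcases jN_sub hv with h | h
    · exact h2 v h
    · exact h1 v h

/-- the natural jumps themselves -/
theorem JF.self (hL : 0 < L) (hn : Tendsto n l atTop) (T : Finset ℝ) (b : ι → ℤ) {κ : Type} (K : Finset κ) :
    JF L T l n b K (fun i _ => jN (n i * L) (b i)) where
  per i _ v := jN_per _ _ _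
  sum := by
    filter_upwards [hn.eventually_gt_atTop 0] with i hi k _
    exact csum_jN (Nat.mul_pos hi hL) _
  near ρ hρ := Eventually.of_forall fun i k _ v hv => absurd rfl hv

/-- majorants of the natural environments -/
theorem MF.nat (hP : MPoly P) (hc : Cont P L g) (hn : Tendsto n l atTop) (p : ℂ) (b : ι → ℤ) {κ : Type}
    (K : Finset κ) : MF P L g l n p K (fun i _ => jN (n i * L) (b i)) := by
  refine ⟨1, 1, one_pos, ?_⟩
  filter_upwards [hn.eventually_gt_atTop 0] with i hi k _ d _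
  exact (natE_cenv (CARf.cont_rf hc hi) (CARf.mpoly_rf hP hi) _).maj _ _

/-- the pair against the natural jumps -/
theorem JF.pair (hL : 0 < L) (hn : Tendsto n l atTop) {T : Finset ℝ} {b i₂ i₂' : ι → ℤ} {α : ι → ℝ}
    {s t₂ t₂' : ℝ} (hb : Tendsto (fun i => (b i : ℝ) / n i) l (𝓝 s))
    (h2 : Tendsto (fun i => (i₂ i : ℝ) / n i) l (𝓝 t₂)) (h2' : Tendsto (fun i => (i₂' i : ℝ) / n i) l (𝓝 t₂'))
    (hs : s ∈ T) (ht : t₂ ∈ T) (ht' : t₂' ∈ T) {κ : Type} (K : Finset κ) :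
    JF L T l n b K (fun i _ => jP (n i * L) (α i) (i₂ i) (i₂' i)) where
  per i _ v := jP_per _ _ _ _ _
  sum := by
    filter_upwards [hn.eventually_gt_atTop 0] with i hi k _
    exact csum_jP (Nat.mul_pos hi hL) _ _ _
  near ρ hρ := by
    filter_upwards [near_jN (L := L) hn hb hs hρ, near_jN (L := L) hn h2 ht hρ,
      near_jN (L := L) hn h2' ht' hρ] with i h1 h2 h3 k _ v hv
    rcases jP_sub hv with h | h | h
    · exact h2 v h
    · exact h3 v h
    · exact h1 v h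

/-- the full environments against the natural jumps at the first mark -/
theorem JF.full (hL : 0 < L) (hn : Tendsto n l atTop) {T : Finset ℝ} {i₁ i₂ i₂' i₃ k : ι → ℤ} {α : ι → ℝ}
    {t₂ t₂' t₃ t₄ : ℝ} (h2 : Tendsto (fun i => (i₂ i : ℝ) / n i) l (𝓝 t₂))
    (h2' : Tendsto (fun i => (i₂' i : ℝ) / n i) l (𝓝 t₂')) (h3 : Tendsto (fun i => (i₃ i : ℝ) / n i) l (𝓝 t₃))
    (h4 : Tendsto (fun i => (k i : ℝ) / n i) l (𝓝 t₄)) (m2 : t₂ ∈ T) (m2' : t₂' ∈ T) (m3 : t₃ ∈ T)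
    (m4 : t₄ ∈ T) : JF L T l n i₁ (Finset.univ : Finset Bool)
      (fun i c => jX (n i * L) (α i) (i₁ i) (i₂ i) (i₂' i) (i₃ i) (if c then k i else k i - 1)) where
  per i _ v := jX_per _ _ _ _ _ _ _ _
  sum := by
    filter_upwards [hn.eventually_gt_atTop 0] with i hi c _
    exact csum_jX (Nat.mul_pos hi hL) _ _ _ _ _ _
  near ρ hρ := by
    filter_upwards [near_jN (L := L) hn h2 m2 hρ, near_jN (L := L) hn h2' m2' hρ,
      near_jN (L := L) hn h3 m3 hρ, near_jN (L := L) hn h4 m4 hρ,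
      near_jN (L := L) hn (div_add_tendsto hn h4 1) m4 hρ,
      near_jN (L := L) hn (div_add_tendsto hn h4 (-1)) m4 hρ] with i a2 a2' a3 a4 a4' a4'' c _ v hv
    rcases jX_sub hv with h | h | h | h | h
    · exact a2 v h
    · exact a2' v h
    · exact a3 v h
    · cases c with
      | true => exact a4 v h
      | false => exact a4'' v h
    · cases c with
      | true => exact a4' v h
      | false =>
        simp only [Bool.false_eq_true, if_false, sub_add_cancel] at h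
        exact a4 v h

/-- the full environments against the natural jumps at the third mark -/
theorem JF.full' (hL : 0 < L) (hn : Tendsto n l atTop) {T : Finset ℝ} {i₁ i₂ i₂' i₃ k : ι → ℤ} {α : ι → ℝ}
    {t₁ t₂ t₂' t₄ : ℝ} (h1 : Tendsto (fun i => (i₁ i : ℝ) / n i) l (𝓝 t₁))
    (h2 : Tendsto (fun i => (i₂ i : ℝ) / n i) l (𝓝 t₂))
    (h2' : Tendsto (fun i => (i₂' i : ℝ) / n i) l (𝓝 t₂'))
    (h4 : Tendsto (fun i => (k i : ℝ) / n i) l (𝓝 t₄)) (m1 : t₁ ∈ T) (m2 : t₂ ∈ T) (m2' : t₂' ∈ T)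
    (m4 : t₄ ∈ T) : JF L T l n i₃ (Finset.univ : Finset Bool)
      (fun i c => jX (n i * L) (α i) (i₁ i) (i₂ i) (i₂' i) (i₃ i) (if c then k i else k i - 1)) where
  per i _ v := jX_per _ _ _ _ _ _ _ _
  sum := by
    filter_upwards [hn.eventually_gt_atTop 0] with i hi c _
    exact csum_jX (Nat.mul_pos hi hL) _ _ _ _ _ _
  near ρ hρ := by
    filter_upwards [near_jN (L := L) hn h1 m1 hρ, near_jN (L := L) hn h2 m2 hρ,
      near_jN (L := L) hn h2' m2' hρ, near_jN (L := L) hn h4 m4 hρ,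
      near_jN (L := L) hn (div_add_tendsto hn h4 1) m4 hρ,
      near_jN (L := L) hn (div_add_tendsto hn h4 (-1)) m4 hρ] with i a1 a2 a2' a4 a4' a4'' c _ v hv
    rcases jX_sub' hv with h | h | h | h | h
    · exact a1 v h
    · exact a2 v h
    · exact a2' v h
    · cases c with
      | true => exact a4 v h
      | false => exact a4'' v h
    · cases c with
      | true => exact a4' v h
      | false =>
        simp only [Bool.false_eq_true, if_false, sub_add_cancel] at h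
        exact a4 v h

end families

/-! ## Majorants of the pair and of the full environments -/

section majorants

variable {P : Finset (ℤ × ℤ)} {L : ℕ} {g : ℤ → VZ}

theorem MF.pair (hM : DomX.MajP) (hP : MPoly P) (hc : Cont P L g) {t₂ t₂' : ℝ} (h : t₂ < t₂')
    (h' : t₂' < t₂ + L) (f : Fl g t₂) (f' : Fl g t₂') {p : ℂ} (hp : p ≠ gam g t₂) (hp' : p ≠ gam g t₂')
    (ξ : ℝ) : MF P L g (lka ξ) (fun q => q.1.1) p ({()} : Finset Unit)
      (fun q _ => jP (q.1.1 * L) q.2 (ix q.1.1 t₂) (ix q.1.1 t₂')) := by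
  have hn := lka_n ξ
  obtain ⟨ε, hε, h1⟩ := mark_far hc hn hp
  obtain ⟨ε', hε', h2⟩ := mark_far hc hn hp'
  obtain ⟨δ, M, hδ, -, h3⟩ := hM P L g hP hc t₂ t₂' h h' f f' (min ε ε') (lt_min hε hε')
  refine ⟨δ, M, hδ, ?_⟩
  have h4 : ∀ᶠ q in lka ξ, q.2 ∈ Set.Icc (0 : ℝ) 1 :=
    eventually_prod_principal_iff.2 (Eventually.of_forall fun _ _ h => h)
  filter_upwards [h1 _ (ixn_div hn t₂), h2 _ (ixn_div hn t₂'), hn.eventually h3, h4]
    with q a b c d _ _ e he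
  have hn0 : (0 : ℝ) ≤ q.1.1 := by positivity
  exact c q.2 d _ e he ((mul_le_mul_of_nonneg_right (min_le_left _ _) hn0).trans a)
    ((mul_le_mul_of_nonneg_right (min_le_right _ _) hn0).trans b)

theorem MF.full (hM : DomX.MajX) (hP : MPoly P) (hc : Cont P L g) {t₁ t₂ t₂' t₃ t₄ : ℝ}
    (hm : Marks5 L g t₁ t₂ t₂' t₃ t₄) {p : ℂ} (hp2 : p ≠ gam g t₂) (hp2' : p ≠ gam g t₂')
    (hp4 : p ≠ gam g t₄) : MF P L g (lka t₄) (fun q => q.1.1) p (Finset.univ : Finset Bool)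
      (fun q c => jX (q.1.1 * L) q.2 (ix q.1.1 t₁) (ix q.1.1 t₂) (ix q.1.1 t₂') (ix q.1.1 t₃)
        (if c then q.1.2 else q.1.2 - 1)) := by
  have hn := lka_n t₄
  obtain ⟨ε, hε, h1⟩ := mark_far hc hn hp2
  obtain ⟨ε', hε', h2⟩ := mark_far hc hn hp2'
  obtain ⟨ε₄, hε₄, h3⟩ := mark_far hc hn hp4
  obtain ⟨δ, M, hδ, -, h4⟩ := hM P L g hP hc t₁ t₂ t₂' t₃ t₄ hm (min ε (min ε' ε₄))
    (lt_min hε (lt_min hε' hε₄))
  refine ⟨δ, M, hδ, ?_⟩
  have h5 : ∀ᶠ q in lka t₄, q.2 ∈ Set.Icc (0 : ℝ) 1 :=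
    eventually_prod_principal_iff.2 (Eventually.of_forall fun _ _ h => h)
  filter_upwards [h1 _ (ixn_div hn t₂), h2 _ (ixn_div hn t₂'), h3 _ ((lk_k t₄).comp (lka_lk t₄)),
    (lka_lk t₄).eventually h4, h5] with q a b c d e x _ y hy
  have hn0 : (0 : ℝ) ≤ q.1.1 := by positivity
  obtain ⟨u, v⟩ := d q.2 e (fl q.1.1 p) y hy
    ((mul_le_mul_of_nonneg_right (min_le_left _ _) hn0).trans a)
    ((mul_le_mul_of_nonneg_right ((min_le_right _ _).trans (min_le_left _ _)) hn0).trans b)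
    ((mul_le_mul_of_nonneg_right ((min_le_right _ _).trans (min_le_right _ _)) hn0).trans c)
  cases x with
  | true => exact u
  | false => exact v

end majorants

/-! ## The fields -/

section fields

variable {P : Finset (ℤ × ℤ)} {L : ℕ} {g : ℤ → VZ}

/-- **field `nnL`**: natural environments, two bases -/
theorem nnL (hLD : LD1) (hS : RowSame) (hG : RowGeo) (hP : MPoly P) (hc : Cont P L g) :
    ∀ s s' : ℝ, ∀ v ∈ Cl P, v ≠ gam g s → v ≠ gam g s' →
      LOsc (lk2 s s') (fun q => q.1) P (fun q w => uN P L g q.1 q.2.1 w - uN P L g q.1 q.2.2 w) v := by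
  intro s s' v hv h1 h2
  have hn : Tendsto (fun q : ℕ × ℤ × ℤ => q.1) (lk2 s s') atTop := tendsto_comap.mono_left inf_le_left
  have hb : Tendsto (fun q : ℕ × ℤ × ℤ => (q.2.1 : ℝ) / q.1) (lk2 s s') (𝓝 s) :=
    tendsto_comap.mono_left (inf_le_right.trans inf_le_left)
  have hb' : Tendsto (fun q : ℕ × ℤ × ℤ => (q.2.2 : ℝ) / q.1) (lk2 s s') (𝓝 s') :=
    tendsto_comap.mono_left (inf_le_right.trans inf_le_right)
  have hT : ∀ t ∈ ({s, s'} : Finset ℝ), gam g t ≠ v := by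
    intro t ht
    rw [Finset.mem_insert, Finset.mem_singleton] at ht
    rcases ht with rfl | rfl
    · exact h1.symm
    · exact h2.symm
  have h := losc_env hLD hS hG hP hc hn (K := ({()} : Finset Unit)) (K' := ({()} : Finset Unit))
    (Finset.singleton_nonempty _) (Finset.singleton_nonempty _) (JF.self hc.pos hn {s, s'} _ _)
    (JF.nat hc.pos hn hb hb' (by simp) (by simp) _) hv hT (MF.nat hP hc hn v _ _)
    (MF.nat hP hc hn v _ _) (fun q => gr q.1 g q.2.1) (fun q => gr q.1 g q.2.2)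
  simp only [uN_hF]
  exact h

/-- **field `pnL`**: the pair against the natural environment with the base `k` -/
theorem pnL (hLD : LD1) (hS : RowSame) (hG : RowGeo) (hM : DomX.MajP) (hP : MPoly P) (hc : Cont P L g) :
    ∀ t₂ t₂' t₄ : ℝ, t₂ < t₂' → t₂' < t₄ → t₄ < t₂ + L → Fl g t₂ → Fl g t₂' → Fl g t₄ →
    ∀ v ∈ Cl P, v ≠ gam g t₂ → v ≠ gam g t₂' → v ≠ gam g t₄ →
      LOsc (lka t₄) (fun q => q.1.1) P
        (fun q w => uP P L g q.1.1 q.2 (ix q.1.1 t₂) (ix q.1.1 t₂') w - uN P L g q.1.1 q.1.2 w) v := by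
  intro t₂ t₂' t₄ h h' h'' f f' _ v hv h2 h2' h4
  have hn := lka_n t₄
  have hk : Tendsto (fun q : (ℕ × ℤ) × ℝ => (q.1.2 : ℝ) / q.1.1) (lka t₄) (𝓝 t₄) :=
    (lk_k t₄).comp (lka_lk t₄)
  have hT : ∀ t ∈ ({t₂, t₂', t₄} : Finset ℝ), gam g t ≠ v := by
    intro t ht
    simp only [Finset.mem_insert, Finset.mem_singleton] at ht
    rcases ht with rfl | rfl | rfl
    · exact h2.symm
    · exact h2'.symm
    · exact h4.symm
  have key := losc_env hLD hS hG hP hc hn (K := ({()} : Finset Unit)) (K' := ({()} : Finset Unit))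
    (Finset.singleton_nonempty _) (Finset.singleton_nonempty _)
    (JF.pair (α := fun q => q.2) hc.pos hn hk (ixn_div hn t₂) (ixn_div hn t₂') (T := {t₂, t₂', t₄})
      (by simp) (by simp) (by simp) _)
    (JF.self hc.pos hn {t₂, t₂', t₄} _ _) hv hT
    (MF.pair hM hP hc h (by linarith) f f' h2 h2' t₄)
    (MF.nat hP hc hn v _ _) (fun q => gr q.1.1 g 0) (fun q => gr q.1.1 g q.1.2)
  simp only [uN_hF, uP_hF]
  exact key

/-- **field `xnL`**: the full environment against the natural one with the base `a1` -/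
theorem xnL (hLD : LD1) (hS : RowSame) (hG : RowGeo) (hM : DomX.MajX) (hP : MPoly P) (hc : Cont P L g) :
    ∀ t₁ t₂ t₂' t₃ t₄ : ℝ, Marks5 L g t₁ t₂ t₂' t₃ t₄ → ∀ v ∈ Cl P, v ≠ gam g t₂ → v ≠ gam g t₂' →
    v ≠ gam g t₃ → v ≠ gam g t₄ → LOsc (lka t₄) (fun q => q.1.1) P
      (fun q w => uX P L g q.1.1 q.2 (ix q.1.1 t₁) (ix q.1.1 t₂) (ix q.1.1 t₂') (ix q.1.1 t₃) q.1.2 w -
        uN P L g q.1.1 (ix q.1.1 t₁) w) v := by
  intro t₁ t₂ t₂' t₃ t₄ hm v hv h2 h2' h3 h4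
  have hn := lka_n t₄
  have hk : Tendsto (fun q : (ℕ × ℤ) × ℝ => (q.1.2 : ℝ) / q.1.1) (lka t₄) (𝓝 t₄) :=
    (lk_k t₄).comp (lka_lk t₄)
  have hT : ∀ t ∈ ({t₂, t₂', t₃, t₄} : Finset ℝ), gam g t ≠ v := by
    intro t ht
    simp only [Finset.mem_insert, Finset.mem_singleton] at ht
    rcases ht with rfl | rfl | rfl | rfl
    · exact h2.symm
    · exact h2'.symm
    · exact h3.symm
    · exact h4.symm
  have key := losc_env hLD hS hG hP hc hn (K := (Finset.univ : Finset Bool)) (K' := ({()} : Finset Unit))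
    Finset.univ_nonempty (Finset.singleton_nonempty _)
    (JF.full (i₁ := fun q : (ℕ × ℤ) × ℝ => ix q.1.1 t₁) (α := fun q => q.2) hc.pos hn (ixn_div hn t₂)
      (ixn_div hn t₂') (ixn_div hn t₃) hk (T := {t₂, t₂', t₃, t₄}) (by simp) (by simp) (by simp) (by simp))
    (JF.self hc.pos hn {t₂, t₂', t₃, t₄} _ _) hv hT (MF.full hM hP hc hm h2 h2' h4)
    (MF.nat hP hc hn v _ _) (fun q => gr q.1.1 g 0) (fun q => gr q.1.1 g (ix q.1.1 t₁))
  simp only [uN_hF, uX_hF]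
  exact key

/-- **field `xmL`**: at `a3`, against the natural environment with the base `a3` -/
theorem xmL (hLD : LD1) (hS : RowSame) (hG : RowGeo) (hM : DomX.MajX) (hP : MPoly P) (hc : Cont P L g) :
    ∀ t₁ t₂ t₂' t₃ t₄ : ℝ, Marks5 L g t₁ t₂ t₂' t₃ t₄ → LOsc (lka t₄) (fun q => q.1.1) P
      (fun q w => uX P L g q.1.1 q.2 (ix q.1.1 t₁) (ix q.1.1 t₂) (ix q.1.1 t₂') (ix q.1.1 t₃) q.1.2 w -
        uN P L g q.1.1 (ix q.1.1 t₃) w) (gam g t₃) := by
  intro t₁ t₂ t₂' t₃ t₄ hm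
  have hn := lka_n t₄
  have hk : Tendsto (fun q : (ℕ × ℤ) × ℝ => (q.1.2 : ℝ) / q.1.1) (lka t₄) (𝓝 t₄) :=
    (lk_k t₄).comp (lka_lk t₄)
  have h1 := hm.h1
  have h2 := hm.h2
  have h3 := hm.h3
  have h4 := hm.h4
  have h5 := hm.h5
  have n1 : gam g t₁ ≠ gam g t₃ := Third.gam_ne hc (by linarith) (by linarith)
  have n2 : gam g t₂ ≠ gam g t₃ := Third.gam_ne hc (by linarith) (by linarith)
  have n2' : gam g t₂' ≠ gam g t₃ := Third.gam_ne hc (by linarith) (by linarith)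
  have n4 : gam g t₃ ≠ gam g t₄ := Third.gam_ne hc (by linarith) (by linarith)
  have hT : ∀ t ∈ ({t₁, t₂, t₂', t₄} : Finset ℝ), gam g t ≠ gam g t₃ := by
    intro t ht
    simp only [Finset.mem_insert, Finset.mem_singleton] at ht
    rcases ht with rfl | rfl | rfl | rfl
    · exact n1
    · exact n2
    · exact n2'
    · exact n4.symm
  have key := losc_env hLD hS hG hP hc hn (K := (Finset.univ : Finset Bool)) (K' := ({()} : Finset Unit))
    Finset.univ_nonempty (Finset.singleton_nonempty _)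
    (JF.full' (i₃ := fun q : (ℕ × ℤ) × ℝ => ix q.1.1 t₃) (α := fun q => q.2) hc.pos hn (ixn_div hn t₁)
      (ixn_div hn t₂) (ixn_div hn t₂') hk (T := {t₁, t₂, t₂', t₄}) (by simp) (by simp) (by simp) (by simp))
    (JF.self hc.pos hn {t₁, t₂, t₂', t₄} _ _) (CARf.gam_mem_Cl hc t₃) hT
    (MF.full hM hP hc hm n2.symm n2'.symm n4)
    (MF.nat hP hc hn _ _ _) (fun q => gr q.1.1 g 0) (fun q => gr q.1.1 g (ix q.1.1 t₃))
  simp only [uN_hF, uX_hF]
  exact key

end fields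

end

end Pool.Agent.SixB.GG
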