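import Pool.Agent.Lib.SixB.S6LPlan
import Pool.Agent.Lib.SixB.S4Plane
import Pool.Agent.Lib.MP_6bd702_z.Z018

/-!
# 6BD, input L of block CA: the boxes at a flat wall point of the plane, four orientations

* `fr κ v x y`: the vertex with coordinates `(x, y)` in the frame with origin `v` rotated by `κ` quarter turns;
  `cl κ v x y`: the face with lower left corner `(x, y)` in this frame.
* `FlatZ F κ v R`: near `v` (radius `R`) the set `F` is the upper half plane of the frame.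
* `FlatZ.wbox`: `WBox ZQ F (fun i => fr κ v i 0) R (F ∩ BR v s) s (F ∩ BR v r) r` for `0 ≤ s ≤ r < R`.
-/

set_option autoImplicit false
set_option linter.unusedSectionVars false

namespace Pool.Agent.SixB.Tilt

open Pool.Agent.Perc Pool.Agent.Perc.Q Pool.Agent.Perc6 Pool.Agent.PercD Relation

noncomputable section

variable {F G : Finset (ℤ × ℤ)} {κ : ZMod 4} {v : ℤ × ℤ} {x y x' y' r s R : ℤ} {f : ℤ × ℤ}

/-- vertex with frame coordinates `(x, y)` -/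
def fr (κ : ZMod 4) (v : ℤ × ℤ) (x y : ℤ) : ℤ × ℤ :=
  if κ = 0 then (v.1 + x, v.2 + y) else if κ = 1 then (v.1 - y, v.2 + x)
  else if κ = 2 then (v.1 - x, v.2 - y) else (v.1 + y, v.2 - x)

/-- face with lower left corner `(x, y)` in the frame -/
def cl (κ : ZMod 4) (v : ℤ × ℤ) (x y : ℤ) : ℤ × ℤ :=
  if κ = 0 then (v.1 + x, v.2 + y) else if κ = 1 then (v.1 - y - 1, v.2 + x)
  else if κ = 2 then (v.1 - x - 1, v.2 - y - 1) else (v.1 + y, v.2 - x - 1)

theorem fr_0 : fr 0 v x y = (v.1 + x, v.2 + y) := rfl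
theorem fr_1 : fr 1 v x y = (v.1 - y, v.2 + x) := rfl
theorem fr_2 : fr 2 v x y = (v.1 - x, v.2 - y) := rfl
theorem fr_3 : fr 3 v x y = (v.1 + y, v.2 - x) := rfl
theorem cl_0 : cl 0 v x y = (v.1 + x, v.2 + y) := rfl
theorem cl_1 : cl 1 v x y = (v.1 - y - 1, v.2 + x) := rfl
theorem cl_2 : cl 2 v x y = (v.1 - x - 1, v.2 - y - 1) := rfl
theorem cl_3 : cl 3 v x y = (v.1 + y, v.2 - x - 1) := rfl

theorem zc0 (f : ℤ × ℤ) : ZQ.c f 0 = (f.1, f.2) := rfl
theorem zc1 (f : ℤ × ℤ) : ZQ.c f 1 = (f.1 + 1, f.2) := rfl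
theorem zc2 (f : ℤ × ℤ) : ZQ.c f 2 = (f.1 + 1, f.2 + 1) := rfl
theorem zc3 (f : ℤ × ℤ) : ZQ.c f 3 = (f.1, f.2 + 1) := rfl

theorem cor_0 (κ : ZMod 4) (v : ℤ × ℤ) (x y : ℤ) : ZQ.c (cl κ v x y) κ = fr κ v x y := by
  rcases k4 κ with rfl | rfl | rfl | rfl
  · rw [zc0, cl_0, fr_0]
  · rw [zc1, cl_1, fr_1]; apply Prod.ext <;> dsimp only <;> omega
  · rw [zc2, cl_2, fr_2]; apply Prod.ext <;> dsimp only <;> omega
  · rw [zc3, cl_3, fr_3]; apply Prod.ext <;> dsimp only <;> omega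

theorem cor_1 (κ : ZMod 4) (v : ℤ × ℤ) (x y : ℤ) :
    ZQ.c (cl κ v x y) (κ + 1) = fr κ v (x + 1) y := by
  rcases k4 κ with rfl | rfl | rfl | rfl
  · rw [show (0 + 1 : ZMod 4) = 1 by decide, zc1, cl_0, fr_0]; apply Prod.ext <;> dsimp only <;> omega
  · rw [show (1 + 1 : ZMod 4) = 2 by decide, zc2, cl_1, fr_1]; apply Prod.ext <;> dsimp only <;> omega
  · rw [show (2 + 1 : ZMod 4) = 3 by decide, zc3, cl_2, fr_2]; apply Prod.ext <;> dsimp only <;> omega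
  · rw [show (3 + 1 : ZMod 4) = 0 by decide, zc0, cl_3, fr_3]; apply Prod.ext <;> dsimp only <;> omega

theorem cor_2 (κ : ZMod 4) (v : ℤ × ℤ) (x y : ℤ) :
    ZQ.c (cl κ v x y) (κ + 2) = fr κ v (x + 1) (y + 1) := by
  rcases k4 κ with rfl | rfl | rfl | rfl
  · rw [show (0 + 2 : ZMod 4) = 2 by decide, zc2, cl_0, fr_0]; apply Prod.ext <;> dsimp only <;> omega
  · rw [show (1 + 2 : ZMod 4) = 3 by decide, zc3, cl_1, fr_1]; apply Prod.ext <;> dsimp only <;> omega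
  · rw [show (2 + 2 : ZMod 4) = 0 by decide, zc0, cl_2, fr_2]; apply Prod.ext <;> dsimp only <;> omega
  · rw [show (3 + 2 : ZMod 4) = 1 by decide, zc1, cl_3, fr_3]; apply Prod.ext <;> dsimp only <;> omega

theorem cor_3 (κ : ZMod 4) (v : ℤ × ℤ) (x y : ℤ) :
    ZQ.c (cl κ v x y) (κ + 3) = fr κ v x (y + 1) := by
  rcases k4 κ with rfl | rfl | rfl | rfl
  · rw [show (0 + 3 : ZMod 4) = 3 by decide, zc3, cl_0, fr_0]; apply Prod.ext <;> dsimp only <;> omega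
  · rw [show (1 + 3 : ZMod 4) = 0 by decide, zc0, cl_1, fr_1]; apply Prod.ext <;> dsimp only <;> omega
  · rw [show (2 + 3 : ZMod 4) = 1 by decide, zc1, cl_2, fr_2]; apply Prod.ext <;> dsimp only <;> omega
  · rw [show (3 + 3 : ZMod 4) = 2 by decide, zc2, cl_3, fr_3]; apply Prod.ext <;> dsimp only <;> omega

theorem ksum (κ : ZMod 4) : κ + 1 + 1 = κ + 2 ∧ κ + 2 + 1 = κ + 3 ∧ κ + 3 + 1 = κ := by
  revert κ; decide

theorem sd_0 (κ : ZMod 4) (v : ℤ × ℤ) (x y : ℤ) :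
    sd ZQ (cl κ v x y) κ = (fr κ v x y, fr κ v (x + 1) y) := by
  unfold sd; rw [cor_0, cor_1]

theorem sd_1 (κ : ZMod 4) (v : ℤ × ℤ) (x y : ℤ) :
    sd ZQ (cl κ v x y) (κ + 1) = (fr κ v (x + 1) y, fr κ v (x + 1) (y + 1)) := by
  unfold sd; rw [(ksum κ).1, cor_1, cor_2]

theorem sd_2 (κ : ZMod 4) (v : ℤ × ℤ) (x y : ℤ) :
    sd ZQ (cl κ v x y) (κ + 2) = (fr κ v (x + 1) (y + 1), fr κ v x (y + 1)) := by
  unfold sd; rw [(ksum κ).2.1, cor_2, cor_3]

theorem sd_3 (κ : ZMod 4) (v : ℤ × ℤ) (x y : ℤ) :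
    sd ZQ (cl κ v x y) (κ + 3) = (fr κ v x (y + 1), fr κ v x y) := by
  unfold sd; rw [(ksum κ).2.2, cor_3, cor_0]

theorem fr_inj (h : fr κ v x y = fr κ v x' y') : x = x' ∧ y = y' := by
  rcases k4 κ with rfl | rfl | rfl | rfl
  · rw [fr_0, fr_0, Prod.mk.injEq] at h; omega
  · rw [fr_1, fr_1, Prod.mk.injEq] at h; omega
  · rw [fr_2, fr_2, Prod.mk.injEq] at h; omega
  · rw [fr_3, fr_3, Prod.mk.injEq] at h; omega

theorem cl_inj (h : cl κ v x y = cl κ v x' y') : x = x' ∧ y = y' := by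
  rcases k4 κ with rfl | rfl | rfl | rfl
  · rw [cl_0, cl_0, Prod.mk.injEq] at h; omega
  · rw [cl_1, cl_1, Prod.mk.injEq] at h; omega
  · rw [cl_2, cl_2, Prod.mk.injEq] at h; omega
  · rw [cl_3, cl_3, Prod.mk.injEq] at h; omega

theorem exists_cl (κ : ZMod 4) (v f : ℤ × ℤ) : ∃ x y, f = cl κ v x y := by
  obtain ⟨f1, f2⟩ := f
  rcases k4 κ with rfl | rfl | rfl | rfl
  · exact ⟨f1 - v.1, f2 - v.2, by rw [cl_0, Prod.mk.injEq]; omega⟩
  · exact ⟨f2 - v.2, v.1 - f1 - 1, by rw [cl_1, Prod.mk.injEq]; omega⟩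
  · exact ⟨v.1 - f1 - 1, v.2 - f2 - 1, by rw [cl_2, Prod.mk.injEq]; omega⟩
  · exact ⟨v.2 - f2 - 1, f1 - v.1, by rw [cl_3, Prod.mk.injEq]; omega⟩

theorem exists_fr (κ : ZMod 4) (v p : ℤ × ℤ) : ∃ x y, p = fr κ v x y := by
  obtain ⟨f1, f2⟩ := p
  rcases k4 κ with rfl | rfl | rfl | rfl
  · exact ⟨f1 - v.1, f2 - v.2, by rw [fr_0, Prod.mk.injEq]; omega⟩
  · exact ⟨f2 - v.2, v.1 - f1, by rw [fr_1, Prod.mk.injEq]; omega⟩
  · exact ⟨v.1 - f1, v.2 - f2, by rw [fr_2, Prod.mk.injEq]; omega⟩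
  · exact ⟨v.2 - f2, f1 - v.1, by rw [fr_3, Prod.mk.injEq]; omega⟩

theorem cl_mem_BR : cl κ v x y ∈ BR v r ↔ -r ≤ x ∧ x < r ∧ -r ≤ y ∧ y < r := by
  rcases k4 κ with rfl | rfl | rfl | rfl
  · rw [cl_0, mem_BR]; simp only; omega
  · rw [cl_1, mem_BR]; simp only; omega
  · rw [cl_2, mem_BR]; simp only; omega
  · rw [cl_3, mem_BR]; simp only; omega

/-! ## Unit edges and paths in the frame -/

theorem edge_h (h : cl κ v x y ∈ G ∨ cl κ v x (y - 1) ∈ G) :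
    (fr κ v x y, fr κ v (x + 1) y) ∈ dE ZQ G := by
  rcases h with h | h
  · exact mem_dE.mpr ⟨_, h, κ, Or.inl (sd_0 κ v x y).symm⟩
  · refine mem_dE.mpr ⟨_, h, κ + 2, Or.inr ?_⟩
    rw [sd_2, sub_add_cancel]
    rfl

theorem edge_v (h : cl κ v x y ∈ G ∨ cl κ v (x - 1) y ∈ G) :
    (fr κ v x y, fr κ v x (y + 1)) ∈ dE ZQ G := by
  rcases h with h | h
  · refine mem_dE.mpr ⟨_, h, κ + 3, Or.inr ?_⟩
    rw [sd_3]
    rfl
  · refine mem_dE.mpr ⟨_, h, κ + 1, Or.inl ?_⟩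
    rw [sd_1, sub_add_cancel]

theorem conn_h {x x' y : ℤ} (hx : x ≤ x')
    (h : ∀ i, x ≤ i → i < x' → cl κ v i y ∈ G ∨ cl κ v i (y - 1) ∈ G) :
    ConnE ZQ G (fr κ v x y) (fr κ v x' y) := by
  obtain ⟨n, rfl⟩ : ∃ n : ℕ, x' = x + n := ⟨(x' - x).toNat, by omega⟩
  clear hx
  induction n with
  | zero => rw [Nat.cast_zero, add_zero]; exact ReflTransGen.refl
  | succ n ih =>
    refine (ih fun i h1 h2 => h i h1 (by push_cast; omega)).tail ?_
    have := edge_h (G := G) (κ := κ) (v := v) (x := x + n) (y := y)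
      (h _ (by omega) (by push_cast; omega))
    push_cast
    rw [← add_assoc]
    exact this

theorem conn_v {x y y' : ℤ} (hy : y ≤ y')
    (h : ∀ i, y ≤ i → i < y' → cl κ v x i ∈ G ∨ cl κ v (x - 1) i ∈ G) :
    ConnE ZQ G (fr κ v x y) (fr κ v x y') := by
  obtain ⟨n, rfl⟩ : ∃ n : ℕ, y' = y + n := ⟨(y' - y).toNat, by omega⟩
  clear hy
  induction n with
  | zero => rw [Nat.cast_zero, add_zero]; exact ReflTransGen.refl
  | succ n ih =>
    refine (ih fun i h1 h2 => h i h1 (by push_cast; omega)).tail ?_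
    have := edge_v (G := G) (κ := κ) (v := v) (x := x) (y := y + n)
      (h _ (by omega) (by push_cast; omega))
    push_cast
    rw [← add_assoc]
    exact this

theorem k4' (κ k : ZMod 4) : k = κ ∨ k = κ + 1 ∨ k = κ + 2 ∨ k = κ + 3 := by
  revert κ k; decide

/-- the first vertex of a unit edge of `G` -/
theorem dE_fst {e : (ℤ × ℤ) × (ℤ × ℤ)} (he : e ∈ dE ZQ G) (κ : ZMod 4) (v : ℤ × ℤ) :
    ∃ x y, cl κ v x y ∈ G ∧ ∃ x' y', e.1 = fr κ v x' y' ∧ (x' = x ∨ x' = x + 1) ∧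
      (y' = y ∨ y' = y + 1) := by
  obtain ⟨f, hf, k, h⟩ := mem_dE.mp he
  obtain ⟨x, y, rfl⟩ := exists_cl κ v f
  refine ⟨x, y, hf, ?_⟩
  rcases k4' κ k with rfl | rfl | rfl | rfl
  · rcases h with h | h <;> rw [sd_0] at h <;> rw [h]
    · exact ⟨x, y, rfl, Or.inl rfl, Or.inl rfl⟩
    · exact ⟨x + 1, y, rfl, Or.inr rfl, Or.inl rfl⟩
  · rcases h with h | h <;> rw [sd_1] at h <;> rw [h]
    · exact ⟨x + 1, y, rfl, Or.inr rfl, Or.inl rfl⟩
    · exact ⟨x + 1, y + 1, rfl, Or.inr rfl, Or.inr rfl⟩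
  · rcases h with h | h <;> rw [sd_2] at h <;> rw [h]
    · exact ⟨x + 1, y + 1, rfl, Or.inr rfl, Or.inr rfl⟩
    · exact ⟨x, y + 1, rfl, Or.inl rfl, Or.inr rfl⟩
  · rcases h with h | h <;> rw [sd_3] at h <;> rw [h]
    · exact ⟨x, y + 1, rfl, Or.inl rfl, Or.inr rfl⟩
    · exact ⟨x, y, rfl, Or.inl rfl, Or.inl rfl⟩

/-- near `v` the set of faces `F` is the upper half plane of the frame -/
def FlatZ (F : Finset (ℤ × ℤ)) (κ : ZMod 4) (v : ℤ × ℤ) (R : ℤ) : Prop :=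
  ∀ x y, -R ≤ x → x < R → -R ≤ y → y < R → (cl κ v x y ∈ F ↔ 0 ≤ y)

theorem FlatZ.mem_box (h : FlatZ F κ v R) (hr : r ≤ R) :
    cl κ v x y ∈ F ∩ BR v r ↔ -r ≤ x ∧ x < r ∧ 0 ≤ y ∧ y < r := by
  rw [Finset.mem_inter, cl_mem_BR]
  constructor
  · rintro ⟨h1, h2, h3, h4, h5⟩
    have := (h x y (by omega) (by omega) (by omega) (by omega)).mp h1
    omega
  · rintro ⟨h1, h2, h3, h4⟩
    exact ⟨(h x y (by omega) (by omega) (by omega) (by omega)).mpr h3, h1, h2, by omega, h4⟩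

theorem ah_face {A : Finset (ℤ × ℤ)} (h : Ah ZQ A (fr κ v x y, fr κ v (x + 1) y)) :
    cl κ v x y ∈ A := by
  obtain ⟨f, hf, k, e⟩ := h
  rw [← sd_0] at e
  have := (ZQ.inj (Prod.mk.inj e).1 (Prod.mk.inj e).2).1
  rw [this]
  exact hf

theorem FlatZ.side (h : FlatZ F κ v R) (h1 : -R ≤ x) (h2 : x < R) :
    (fr κ v x 0, fr κ v (x + 1) 0) ∈ bS ZQ F := by
  rw [mem_bS_ah]
  refine ⟨⟨_, (h x 0 h1 h2 (by omega) (by omega)).mpr le_rfl, κ, (sd_0 κ v x 0).symm⟩, ?_⟩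
  rintro ⟨f, hf, k, e⟩
  have e1 : (fr κ v x 0, fr κ v (x + 1) 0).swap = sd ZQ (cl κ v x (-1)) (κ + 2) := by
    rw [sd_2]
    rfl
  rw [e1] at e
  have := (ZQ.inj (Prod.mk.inj e).1 (Prod.mk.inj e).2).1
  rw [← this] at hf
  have := (h x (-1) h1 h2 (by omega) (by omega)).mp hf
  omega

/-- **two nested boxes at a flat wall point** -/
theorem FlatZ.wbox (h : FlatZ F κ v R) (hs : 0 ≤ s) (hsr : s ≤ r) (hrR : r < R) :
    WBox ZQ F (fun i => fr κ v i 0) R (F ∩ BR v s) s (F ∩ BR v r) r where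
  sub := by
    intro f hf
    obtain ⟨x, y, rfl⟩ := exists_cl κ v f
    rw [h.mem_box (by omega)] at hf ⊢
    omega
  subF := Finset.inter_subset_left
  s0 := hs
  sr := hsr
  rR := hrR.le
  side i h1 h2 := h.side h1 h2
  inj i i' _ _ _ _ e := (fr_inj (Prod.mk.inj e).1).1
  memI i h1 h2 := ⟨cl κ v i 0, (h.mem_box (by omega)).mpr ⟨by omega, by omega, le_rfl, by omega⟩,
    κ, (sd_0 κ v i 0).symm⟩
  memM i _ _ e := by
    have := (h.mem_box (by omega)).mp (ah_face e)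
    omega
  connI e he := by
    obtain ⟨x, y, hf, x', y', e1, hx, hy⟩ := dE_fst he κ v
    rw [h.mem_box (by omega)] at hf
    rw [e1]
    refine (conn_h (y := 0) (x := -s) (x' := x') (by omega) fun i h1 h2 => Or.inl ?_).trans
      (conn_v (by omega) fun i h1 h2 => ?_)
    · rw [h.mem_box (by omega)]
      omega
    · rcases hx with rfl | rfl
      · left
        rw [h.mem_box (by omega)]
        omega
      · right
        rw [h.mem_box (by omega)]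
        omega
  connO b hb1 hb2 := by
    have hout : ∀ x y, -R ≤ x → x < R → 0 ≤ y → y < R → (x < -r ∨ r ≤ x ∨ r ≤ y) →
        cl κ v x y ∈ F \ (F ∩ BR v r) := by
      intro x y k1 k2 k3 k4 k5
      rw [Finset.mem_sdiff]
      refine ⟨(h x y k1 k2 (by omega) k4).mpr k3, fun h6 => ?_⟩
      rw [h.mem_box (by omega)] at h6
      omega
    obtain ⟨f, hf, k, e⟩ := hb1
    obtain ⟨f', hf', k', e'⟩ := hb2
    obtain ⟨x, y, rfl⟩ := exists_cl κ v f'
    rw [h.mem_box (by omega)] at hf'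
    rw [Finset.mem_sdiff] at hf
    have hleft : ∀ Y, 0 ≤ Y → Y ≤ r →
        ConnE ZQ (F \ (F ∩ BR v r)) (fr κ v (-r) 0) (fr κ v (-r) Y) := by
      intro Y h1 h2
      refine conn_v h1 fun i h3 h4 => Or.inr (hout _ _ ?_ ?_ ?_ ?_ ?_) <;> omega
    have htop : ∀ X, -r ≤ X → X ≤ r →
        ConnE ZQ (F \ (F ∩ BR v r)) (fr κ v (-r) r) (fr κ v X r) := by
      intro X h1 h2
      refine conn_h h1 fun i h3 h4 => Or.inl (hout _ _ ?_ ?_ ?_ ?_ ?_) <;> omega
    have hright : ∀ Y, 0 ≤ Y → Y ≤ r →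
        ConnE ZQ (F \ (F ∩ BR v r)) (fr κ v r Y) (fr κ v r r) := by
      intro Y h1 h2
      refine conn_v h2 fun i h3 h4 => Or.inl (hout _ _ ?_ ?_ ?_ ?_ ?_) <;> omega
    have hb : b = (sd ZQ (cl κ v x y) k').swap := by rw [← e', Prod.swap_swap]
    have hface : ∀ {g : ℤ × ℤ} {j : ZMod 4}, b = sd ZQ g j → g = f := by
      intro g j hg
      rw [hg] at e
      exact (ZQ.inj (Prod.mk.inj e).1 (Prod.mk.inj e).2).1
    rcases k4' κ k' with rfl | rfl | rfl | rfl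
    · -- below: not in `F`
      exfalso
      have e1 : b = sd ZQ (cl k' v x (y - 1)) (k' + 2) := by
        rw [hb, sd_0, sd_2, sub_add_cancel]
        rfl
      have e2 := hface e1
      rw [← e2] at hf
      have h3 := (h x (y - 1) (by omega) (by omega) (by omega) (by omega)).mp hf.1
      exact hf.2 ((h.mem_box (by omega)).mpr (by omega))
    · -- right
      have e1 : b = sd ZQ (cl κ v (x + 1) y) (κ + 3) := by
        rw [hb, sd_1, sd_3]
        rfl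
      have e2 := hface e1
      rw [← e2] at hf
      have h3 : ¬ (x + 1 < r) := fun h3 => hf.2 ((h.mem_box (by omega)).mpr (by omega))
      have e3 : b.1 = fr κ v r (y + 1) := by
        rw [e1, sd_3]
        simp only
        congr 1
        omega
      rw [e3]
      exact ((hleft r (by omega) le_rfl).trans (htop r (by omega) le_rfl)).trans
        (hright (y + 1) (by omega) (by omega)).symm
    · -- top
      have e1 : b = sd ZQ (cl κ v x (y + 1)) κ := by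
        rw [hb, sd_2, sd_0]
        rfl
      have e2 := hface e1
      rw [← e2] at hf
      have h3 : ¬ (y + 1 < r) := fun h3 => hf.2 ((h.mem_box (by omega)).mpr (by omega))
      have e3 : b.1 = fr κ v x r := by
        rw [e1, sd_0]
        simp only
        congr 1
        omega
      rw [e3]
      exact (hleft r (by omega) le_rfl).trans (htop x (by omega) (by omega))
    · -- left
      have e1 : b = sd ZQ (cl κ v (x - 1) y) (κ + 1) := by
        rw [hb, sd_3, sd_1, sub_add_cancel]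
        rfl
      have e2 := hface e1
      rw [← e2] at hf
      have h3 : ¬ (-r ≤ x - 1) := fun h3 => hf.2 ((h.mem_box (by omega)).mpr (by omega))
      have e3 : b.1 = fr κ v (-r) y := by
        rw [e1, sd_1, sub_add_cancel]
        simp only
        congr 1
        omega
      rw [e3]
      exact hleft y (by omega) (by omega)

end

end Pool.Agent.SixB.Tilt
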