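import Pool.Agent.Lib.SixB.S6GDefs
import Pool.Agent.Lib.SixB.S6LBox
import Pool.Agent.Lib.SixB.CARf

/-!
# 6BD block CA, rows S6G: the local geometry of a refined polygon (`RowGeo`)

* `Geo.Pat F v c N p`: in the box of radius `N` around `v` the set `F` is the union of the quadrants `(b, b')` at
  `c` with `p b b'`, and two opposite quadrants of `F` have a common neighbour quadrant in `F`.
* `Geo.Pat.locF`: a pattern of radius `2 d + 1` has the properties `LocF F v d`.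
* `Geo.pat_rf`: `rf n P` has a pattern of radius `N` near every point if `2 N ≤ n`.
THEOREM `rowGeo : RowGeo`.
-/

set_option autoImplicit false
set_option linter.unusedSectionVars false
set_option linter.ambiguousOpen false

namespace Pool.Agent.SixB.GG

open Pool.Agent.Perc Pool.Agent.Perc.Q Pool.Agent.PercD Tilt HG Relation

noncomputable section

namespace Geo

variable {F G : Finset (ℤ × ℤ)} {v c w z q : ℤ × ℤ} {x y x' y' N d D ρ s : ℤ} {p : Bool → Bool → Prop}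
  {b b' e e' : Bool}

/-- the face column (row) on the outer side of a vertex column (row) -/
def og (b : Bool) (x : ℤ) : ℤ := if b then x else x - 1

/-- side of a face column -/
def SF (b : Bool) (c x : ℤ) : Prop := (b = true ∧ c ≤ x) ∨ (b = false ∧ x < c)

/-- side of a vertex column -/
def SV (b : Bool) (c x : ℤ) : Prop := (b = true ∧ c ≤ x) ∨ (b = false ∧ x ≤ c)

/-- the point at distance `D` on the side `b` -/
def sg (b : Bool) (a D : ℤ) : ℤ := if b then a + D else a - D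

theorem og_cases (b : Bool) (x : ℤ) : (b = true ∧ og b x = x) ∨ (b = false ∧ og b x = x - 1) := by
  cases b
  · exact Or.inr ⟨rfl, by simp [og]⟩
  · exact Or.inl ⟨rfl, by simp [og]⟩

theorem sg_cases (b : Bool) (a D : ℤ) : (b = true ∧ sg b a D = a + D) ∨ (b = false ∧ sg b a D = a - D) := by
  cases b
  · exact Or.inr ⟨rfl, by simp [sg]⟩
  · exact Or.inl ⟨rfl, by simp [sg]⟩

theorem sf_of_sv {a : ℤ} (h : SV b a x) : SF b a (og b x) := by
  rcases og_cases b x with ⟨h1, h2⟩ | ⟨h1, h2⟩ <;> rw [h2] <;> rcases h with ⟨h3, h4⟩ | ⟨h3, h4⟩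
  · exact Or.inl ⟨h1, h4⟩
  · rw [h1] at h3; cases h3
  · rw [h1] at h3; cases h3
  · exact Or.inr ⟨h1, by omega⟩

/-- a side exists -/
theorem sf_ex (a x : ℤ) : ∃ b, SF b a x := by
  rcases le_or_gt a x with h | h
  · exact ⟨true, Or.inl ⟨rfl, h⟩⟩
  · exact ⟨false, Or.inr ⟨rfl, h⟩⟩

/-- columns between two columns -/
theorem sf_btw {a i : ℤ} (h : SV b a x) (h' : SV b' a x') (h1 : min x x' ≤ i) (h2 : i < max x x') :
    SF b a i ∨ SF b' a i := by
  rcases le_or_gt a i with h5 | h5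
  · -- one of the two ends is to the right of `i`
    rcases h with ⟨h3, h4⟩ | ⟨h3, h4⟩
    · exact Or.inl (Or.inl ⟨h3, h5⟩)
    · rcases h' with ⟨h6, h7⟩ | ⟨h6, h7⟩
      · exact Or.inr (Or.inl ⟨h6, h5⟩)
      · omega
  · rcases h with ⟨h3, h4⟩ | ⟨h3, h4⟩
    · rcases h' with ⟨h6, h7⟩ | ⟨h6, h7⟩
      · omega
      · exact Or.inr (Or.inr ⟨h6, h5⟩)
    · exact Or.inl (Or.inr ⟨h3, h5⟩)

theorem sv_sg {a : ℤ} (h : SV b a x) (h1 : v.1 - D ≤ x) (h2 : x ≤ v.1 + D) : SV b a (sg b v.1 D) := by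
  rcases sg_cases b v.1 D with ⟨h3, h4⟩ | ⟨h3, h4⟩ <;> rw [h4] <;> rcases h with ⟨h5, h6⟩ | ⟨h5, h6⟩
  · exact Or.inl ⟨h3, by omega⟩
  · rw [h3] at h5; cases h5
  · rw [h3] at h5; cases h5
  · exact Or.inr ⟨h3, by omega⟩

theorem sv_sg' {a : ℤ} (h : SV b a x) (h1 : v.2 - D ≤ x) (h2 : x ≤ v.2 + D) : SV b a (sg b v.2 D) := by
  rcases sg_cases b v.2 D with ⟨h3, h4⟩ | ⟨h3, h4⟩ <;> rw [h4] <;> rcases h with ⟨h5, h6⟩ | ⟨h5, h6⟩
  · exact Or.inl ⟨h3, by omega⟩
  · rw [h3] at h5; cases h5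
  · rw [h3] at h5; cases h5
  · exact Or.inr ⟨h3, by omega⟩

/-! ### Segments -/

theorem seg_h (b : Bool) (h : ∀ i, min x x' ≤ i → i < max x x' → (i, og b y) ∈ G) :
    ConnE ZQ G (x, y) (x', y) := by
  have key : ∀ u u' : ℤ, u ≤ u' → (∀ i, u ≤ i → i < u' → (i, og b y) ∈ G) → ConnE ZQ G (u, y) (u', y) := by
    intro u u' huu hu
    have h1 := conn_h (G := G) (κ := 0) (v := (0, 0)) (y := y) huu (fun i h3 h4 => by
      rw [cl_0, cl_0]
      simp only [zero_add]
      rcases og_cases b y with ⟨h5, h6⟩ | ⟨h5, h6⟩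
      · left
        have := hu i h3 h4
        rwa [h6] at this
      · right
        have := hu i h3 h4
        rwa [h6] at this)
    rw [fr_0, fr_0] at h1
    simpa only [zero_add] using h1
  rcases le_total x x' with h1 | h1
  · rw [min_eq_left h1, max_eq_right h1] at h
    exact key x x' h1 h
  · rw [min_eq_right h1, max_eq_left h1] at h
    exact (key x' x h1 h).symm

theorem seg_v (b : Bool) (h : ∀ i, min y y' ≤ i → i < max y y' → (og b x, i) ∈ G) :
    ConnE ZQ G (x, y) (x, y') := by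
  have key : ∀ u u' : ℤ, u ≤ u' → (∀ i, u ≤ i → i < u' → (og b x, i) ∈ G) → ConnE ZQ G (x, u) (x, u') := by
    intro u u' huu hu
    have h1 := conn_v (G := G) (κ := 0) (v := (0, 0)) (x := x) huu (fun i h3 h4 => by
      rw [cl_0, cl_0]
      simp only [zero_add]
      rcases og_cases b x with ⟨h5, h6⟩ | ⟨h5, h6⟩
      · left
        have := hu i h3 h4
        rwa [h6] at this
      · right
        have := hu i h3 h4
        rwa [h6] at this)
    rw [fr_0, fr_0] at h1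
    simpa only [zero_add] using h1
  rcases le_total y y' with h1 | h1
  · rw [min_eq_left h1, max_eq_right h1] at h
    exact key y y' h1 h
  · rw [min_eq_right h1, max_eq_left h1] at h
    exact (key y' y h1 h).symm

/-! ### Patterns -/

/-- in the box of radius `N` around `v` the set `F` is a union of quadrants at `c` -/
structure Pat (F : Finset (ℤ × ℤ)) (v c : ℤ × ℤ) (N : ℤ) (p : Bool → Bool → Prop) : Prop where
  mem : ∀ (x y : ℤ) (b b' : Bool), v.1 - N ≤ x → x < v.1 + N → v.2 - N ≤ y → y < v.2 + N → SF b c.1 x →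
    SF b' c.2 y → ((x, y) ∈ F ↔ p b b')
  np : ∀ b b' e e' : Bool, p b b' → p e e' → p e b' ∨ p b e'

/-- `z` lies in the closed quadrant `(b, b')` of `F` -/
def InQ (c : ℤ × ℤ) (p : Bool → Bool → Prop) (b b' : Bool) (z : ℤ × ℤ) : Prop :=
  p b b' ∧ SV b c.1 z.1 ∧ SV b' c.2 z.2

theorem Pat.inQ (hP : Pat F v c N p) (hz : IsV F z) (h1 : v.1 - N < z.1) (h2 : z.1 < v.1 + N) (h3 : v.2 - N < z.2)
    (h4 : z.2 < v.2 + N) : ∃ b b', InQ c p b b' z := by
  obtain ⟨⟨f1, f2⟩, hf, k, hk⟩ := hz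
  obtain ⟨z1, z2⟩ := z
  dsimp only at h1 h2 h3 h4
  have hr : (z1 = f1 ∨ z1 = f1 + 1) ∧ (z2 = f2 ∨ z2 = f2 + 1) := by
    rcases k4 k with rfl | rfl | rfl | rfl
    · rw [zc0] at hk; rw [Prod.mk.injEq] at hk; omega
    · rw [zc1] at hk; rw [Prod.mk.injEq] at hk; omega
    · rw [zc2] at hk; rw [Prod.mk.injEq] at hk; omega
    · rw [zc3] at hk; rw [Prod.mk.injEq] at hk; omega
  obtain ⟨b, hb⟩ := sf_ex c.1 f1
  obtain ⟨b', hb'⟩ := sf_ex c.2 f2
  refine ⟨b, b', (hP.mem f1 f2 b b' (by omega) (by omega) (by omega) (by omega) hb hb').mp hf, ?_, ?_⟩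
  · rcases hb with ⟨h5, h6⟩ | ⟨h5, h6⟩
    · exact Or.inl ⟨h5, by dsimp only; omega⟩
    · exact Or.inr ⟨h5, by dsimp only; omega⟩
  · rcases hb' with ⟨h5, h6⟩ | ⟨h5, h6⟩
    · exact Or.inl ⟨h5, by dsimp only; omega⟩
    · exact Or.inr ⟨h5, by dsimp only; omega⟩

/-- **corner path** -/
theorem Pat.bend (hP : Pat F v c N p) (hz : InQ c p b b' (x, y)) (hq : InQ c p e e' (x', y')) (hc : p e b')
    (h1 : v.1 - N < x) (h2 : x < v.1 + N) (h3 : v.2 - N < y) (h4 : y < v.2 + N) (h5 : v.1 - N < x')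
    (h6 : x' < v.1 + N) (h7 : v.2 - N < y') (h8 : y' < v.2 + N)
    (hG1 : ∀ i, min x x' ≤ i → i < max x x' → (i, og b' y) ∈ F → (i, og b' y) ∈ G)
    (hG2 : ∀ i, min y y' ≤ i → i < max y y' → (og e x', i) ∈ F → (og e x', i) ∈ G) :
    ConnE ZQ G (x, y) (x', y') := by
  obtain ⟨hz0, hz1, hz2⟩ := hz
  obtain ⟨hq0, hq1, hq2⟩ := hq
  have ho1 := og_cases b' y
  have ho2 := og_cases e x'
  refine (seg_h b' (y := y) fun i hi1 hi2 => hG1 i hi1 hi2 ?_).trans (seg_v e fun i hi1 hi2 => hG2 i hi1 hi2 ?_)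
  · rcases sf_btw hz1 hq1 hi1 hi2 with h | h
    · exact (hP.mem i (og b' y) b b' (by omega) (by omega) (by omega) (by omega) h (sf_of_sv hz2)).mpr hz0
    · exact (hP.mem i (og b' y) e b' (by omega) (by omega) (by omega) (by omega) h (sf_of_sv hz2)).mpr hc
  · rcases sf_btw hz2 hq2 hi1 hi2 with h | h
    · exact (hP.mem (og e x') i e b' (by omega) (by omega) (by omega) (by omega) (sf_of_sv hq1) h).mpr hc
    · exact (hP.mem (og e x') i e e' (by omega) (by omega) (by omega) (by omega) (sf_of_sv hq1) h).mpr hq0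

/-- the first property -/
theorem Pat.join (hP : Pat F v c N p) (hs : 1 ≤ s) (hN : 2 * s ≤ N) (hz : IsV F z) (hq : IsV F q)
    (hzv : dd z v ≤ s) (hqv : dd q v ≤ s) : ConnE ZQ (F ∩ BR v (2 * s)) z q := by
  have a1 := abs_le.mp ((le_max_left _ _).trans hzv)
  have a2 := abs_le.mp ((le_max_right _ _).trans hzv)
  have a3 := abs_le.mp ((le_max_left _ _).trans hqv)
  have a4 := abs_le.mp ((le_max_right _ _).trans hqv)
  obtain ⟨b, b', h1⟩ := hP.inQ hz (by omega) (by omega) (by omega) (by omega)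
  obtain ⟨e, e', h2⟩ := hP.inQ hq (by omega) (by omega) (by omega) (by omega)
  obtain ⟨x, y⟩ := z
  obtain ⟨x', y'⟩ := q
  dsimp only at a1 a2 a3 a4
  have o1 := og_cases b' y
  have o2 := og_cases e x'
  have o3 := og_cases e' y'
  have o4 := og_cases b x
  rcases hP.np b b' e e' h1.1 h2.1 with h3 | h3
  · refine hP.bend h1 h2 h3 (by omega) (by omega) (by omega) (by omega) (by omega) (by omega) (by omega)
      (by omega) (fun i h4 h5 h6 => ?_) (fun i h4 h5 h6 => ?_)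
    · rw [Finset.mem_inter, mem_BR]
      refine ⟨h6, ?_, ?_, ?_, ?_⟩ <;> dsimp only <;> omega
    · rw [Finset.mem_inter, mem_BR]
      refine ⟨h6, ?_, ?_, ?_, ?_⟩ <;> dsimp only <;> omega
  · refine (hP.bend h2 h1 h3 (by omega) (by omega) (by omega) (by omega) (by omega) (by omega) (by omega)
      (by omega) (fun i h4 h5 h6 => ?_) (fun i h4 h5 h6 => ?_)).symm
    · rw [Finset.mem_inter, mem_BR]
      refine ⟨h6, ?_, ?_, ?_, ?_⟩ <;> dsimp only <;> omega
    · rw [Finset.mem_inter, mem_BR]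
      refine ⟨h6, ?_, ?_, ?_, ?_⟩ <;> dsimp only <;> omega

/-- the square of radius `D` around `v` is away from the box of radius `ρ` around `w` -/
def Aw (v w : ℤ × ℤ) (D ρ : ℤ) : Prop := ρ < |dd w v - D|

/-- a vertex of a face of the box is near its centre; on the square it is not -/
theorem aw_not (h : Aw v w D ρ) (hx : |x - v.1| ≤ D) (hy : |y - v.2| ≤ D) (hD : |x - v.1| = D ∨ |y - v.2| = D)
    (h1 : |x - w.1| ≤ ρ) (h2 : |y - w.2| ≤ ρ) : False := by
  unfold Aw dd at h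
  rw [abs_le] at hx hy h1 h2
  rcases lt_abs.mp h with h3 | h3
  · rcases lt_max_iff.mp (show ρ + D < max |w.1 - v.1| |w.2 - v.2| by omega) with h4 | h4
    · rcases lt_abs.mp h4 with h5 | h5 <;> omega
    · rcases lt_abs.mp h4 with h5 | h5 <;> omega
  · have h4 : max |w.1 - v.1| |w.2 - v.2| < D - ρ := by omega
    have h5 := abs_lt.mp ((le_max_left _ _).trans_lt h4)
    have h6 := abs_lt.mp ((le_max_right _ _).trans_lt h4)
    rcases hD with h7 | h7
    · rcases abs_eq (show 0 ≤ D by omega) |>.mp h7 with h8 | h8 <;> omega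
    · rcases abs_eq (show 0 ≤ D by omega) |>.mp h7 with h8 | h8 <;> omega

/-- faces next to a vertical side of the square are not in the box -/
theorem aw_col (h : Aw v w D ρ) {i : ℤ} (hD : 0 ≤ D) (h1 : v.2 - D ≤ i) (h2 : i < v.2 + D) :
    (og b (sg b v.1 D), i) ∉ BR w ρ := by
  intro h3
  rw [mem_BR] at h3
  dsimp only at h3
  have h4 := og_cases b (sg b v.1 D)
  have h5 := sg_cases b v.1 D
  have h6 : |sg b v.1 D - v.1| = D := by
    rcases h5 with ⟨_, h7⟩ | ⟨_, h7⟩ <;> rw [h7]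
    · rw [abs_of_nonneg (by omega)]; omega
    · rw [abs_of_nonpos (by omega)]; omega
  refine aw_not h (x := sg b v.1 D) (y := i) h6.le (abs_le.mpr ⟨by omega, by omega⟩) (Or.inl h6)
    (abs_le.mpr ⟨?_, ?_⟩) (abs_le.mpr ⟨by omega, by omega⟩)
  · rcases h4 with ⟨_, h7⟩ | ⟨_, h7⟩ <;> omega
  · rcases h4 with ⟨_, h7⟩ | ⟨_, h7⟩ <;> omega

/-- faces next to a horizontal side of the square are not in the box -/
theorem aw_row (h : Aw v w D ρ) {i : ℤ} (hD : 0 ≤ D) (h1 : v.1 - D ≤ i) (h2 : i < v.1 + D) :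
    (i, og b (sg b v.2 D)) ∉ BR w ρ := by
  intro h3
  rw [mem_BR] at h3
  dsimp only at h3
  have h4 := og_cases b (sg b v.2 D)
  have h5 := sg_cases b v.2 D
  have h6 : |sg b v.2 D - v.2| = D := by
    rcases h5 with ⟨_, h7⟩ | ⟨_, h7⟩ <;> rw [h7]
    · rw [abs_of_nonneg (by omega)]; omega
    · rw [abs_of_nonpos (by omega)]; omega
  refine aw_not h (x := i) (y := sg b v.2 D) (abs_le.mpr ⟨by omega, by omega⟩) h6.le (Or.inr h6)
    (abs_le.mpr ⟨by omega, by omega⟩) (abs_le.mpr ⟨?_, ?_⟩)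
  · rcases h4 with ⟨_, h7⟩ | ⟨_, h7⟩ <;> omega
  · rcases h4 with ⟨_, h7⟩ | ⟨_, h7⟩ <;> omega

/-- **escape to the corner of the square in the own quadrant** -/
theorem Pat.esc (hP : Pat F v c N p) (hD : D < N) (hD0 : 0 ≤ D) (hA : Aw v w D ρ) (hz : InQ c p b b' (x, y))
    (h1 : v.1 - D ≤ x) (h2 : x ≤ v.1 + D) (h3 : v.2 - D ≤ y) (h4 : y ≤ v.2 + D) (hw : ρ < dd (x, y) w) :
    ConnE ZQ (F \ BR w ρ) (x, y) (sg b v.1 D, sg b' v.2 D) := by
  have hK : InQ c p b b' (sg b v.1 D, sg b' v.2 D) :=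
    ⟨hz.1, sv_sg hz.2.1 h1 h2, sv_sg' hz.2.2 h3 h4⟩
  have s1 := sg_cases b v.1 D
  have s2 := sg_cases b' v.2 D
  have o1 := og_cases b x
  have o2 := og_cases b' y
  by_cases H : ∀ i, min x (sg b v.1 D) ≤ i → i < max x (sg b v.1 D) → (i, og b' y) ∉ BR w ρ
  · refine hP.bend hz hK hz.1 (by omega) (by omega) (by omega) (by omega) (by omega) (by omega) (by omega)
      (by omega) (fun i h5 h6 h7 => Finset.mem_sdiff.mpr ⟨h7, H i h5 h6⟩)
      (fun i h5 h6 h7 => Finset.mem_sdiff.mpr ⟨h7, aw_col hA hD0 (by omega) (by omega)⟩)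
  · push Not at H
    obtain ⟨i, h5, h6, h7⟩ := H
    rw [mem_BR] at h7
    dsimp only at h7
    refine (hP.bend hK hz hz.1 (by omega) (by omega) (by omega) (by omega) (by omega) (by omega) (by omega)
      (by omega) (fun j h8 h9 h10 => Finset.mem_sdiff.mpr ⟨h10, aw_row hA hD0 (by omega) (by omega)⟩)
      (fun j h8 h9 h10 => Finset.mem_sdiff.mpr ⟨h10, fun h11 => ?_⟩)).symm
    rw [mem_BR] at h11
    dsimp only at h11
    unfold dd at hw
    dsimp only at hw
    rcases lt_max_iff.mp hw with h12 | h12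
    · rcases lt_abs.mp h12 with h13 | h13 <;> omega
    · rcases lt_abs.mp h12 with h13 | h13 <;> omega

/-- two corners of the square are connected -/
theorem Pat.corners (hP : Pat F v c N p) (hD : D < N) (hD0 : 0 ≤ D) (hA : Aw v w D ρ)
    (hz : InQ c p b b' (sg b v.1 D, sg b' v.2 D)) (hq : InQ c p e e' (sg e v.1 D, sg e' v.2 D)) :
    ConnE ZQ (F \ BR w ρ) (sg b v.1 D, sg b' v.2 D) (sg e v.1 D, sg e' v.2 D) := by
  have s1 := sg_cases b v.1 D
  have s2 := sg_cases b' v.2 D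
  have s3 := sg_cases e v.1 D
  have s4 := sg_cases e' v.2 D
  rcases hP.np b b' e e' hz.1 hq.1 with h3 | h3
  · exact hP.bend hz hq h3 (by omega) (by omega) (by omega) (by omega) (by omega) (by omega) (by omega)
      (by omega) (fun i h4 h5 h6 => Finset.mem_sdiff.mpr ⟨h6, aw_row hA hD0 (by omega) (by omega)⟩)
      (fun i h4 h5 h6 => Finset.mem_sdiff.mpr ⟨h6, aw_col hA hD0 (by omega) (by omega)⟩)
  · exact (hP.bend hq hz h3 (by omega) (by omega) (by omega) (by omega) (by omega) (by omega) (by omega)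
      (by omega) (fun i h4 h5 h6 => Finset.mem_sdiff.mpr ⟨h6, aw_row hA hD0 (by omega) (by omega)⟩)
      (fun i h4 h5 h6 => Finset.mem_sdiff.mpr ⟨h6, aw_col hA hD0 (by omega) (by omega)⟩)).symm

/-- the second property -/
theorem Pat.avoid (hP : Pat F v c N p) (hρ : 1 ≤ ρ) (hd : 8 * ρ ≤ d) (hN : 2 * d < N) (hz : IsV F z)
    (hq : IsV F q) (hzv : dd z v ≤ d) (hqv : dd q v ≤ d) (hzw : ρ < dd z w) (hqw : ρ < dd q w) :
    ConnE ZQ (F \ BR w ρ) z q := by
  have a1 := abs_le.mp ((le_max_left _ _).trans hzv)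
  have a2 := abs_le.mp ((le_max_right _ _).trans hzv)
  have a3 := abs_le.mp ((le_max_left _ _).trans hqv)
  have a4 := abs_le.mp ((le_max_right _ _).trans hqv)
  obtain ⟨b, b', h1⟩ := hP.inQ hz (by omega) (by omega) (by omega) (by omega)
  obtain ⟨e, e', h2⟩ := hP.inQ hq (by omega) (by omega) (by omega) (by omega)
  obtain ⟨x, y⟩ := z
  obtain ⟨x', y'⟩ := q
  dsimp only at a1 a2 a3 a4
  obtain ⟨D, hD1, hD2, hA⟩ : ∃ D, d ≤ D ∧ D ≤ 2 * d ∧ Aw v w D ρ := by
    unfold Aw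
    by_cases h : ρ < |dd w v - d|
    · exact ⟨d, le_rfl, by omega, h⟩
    · refine ⟨2 * d, by omega, le_rfl, ?_⟩
      have h3 := abs_le.mp (not_lt.mp h)
      refine lt_abs.mpr (Or.inr ?_)
      omega
  have h3 := hP.esc (D := D) (by omega) (by omega) hA h1 (by omega) (by omega) (by omega) (by omega) hzw
  have h4 := hP.esc (D := D) (by omega) (by omega) hA h2 (by omega) (by omega) (by omega) (by omega) hqw
  refine (h3.trans (hP.corners (D := D) (by omega) (by omega) hA ?_ ?_)).trans h4.symm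
  · exact ⟨h1.1, sv_sg h1.2.1 (by dsimp only; omega) (by dsimp only; omega),
      sv_sg' h1.2.2 (by dsimp only; omega) (by dsimp only; omega)⟩
  · exact ⟨h2.1, sv_sg h2.2.1 (by dsimp only; omega) (by dsimp only; omega),
      sv_sg' h2.2.2 (by dsimp only; omega) (by dsimp only; omega)⟩

theorem Pat.locF (hP : Pat F v c N p) (hN : 2 * d < N) : LocF F v d where
  join s z z' h1 h2 h3 h4 h5 h6 := hP.join h1 (by omega) h3 h4 h5 h6
  avoid w ρ z q h1 h2 h3 h4 h5 h6 h7 h8 := hP.avoid h1 h2 hN h3 h4 h5 h6 h7 h8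

/-- a vertex at distance `d` -/
theorem Pat.far (hP : Pat F v c N p) (hv : IsV F v) (hd : 1 ≤ d) (hN : 2 * d < N) :
    ∃ q, IsV F q ∧ dd q v ≤ d ∧ d ≤ 2 * dd q v := by
  obtain ⟨b, b', h1⟩ := hP.inQ hv (by omega) (by omega) (by omega) (by omega)
  have s1 := sg_cases b v.1 d
  have o1 := og_cases b (sg b v.1 d)
  have o2 := og_cases b' v.2
  have h2 := (hP.mem (og b (sg b v.1 d)) (og b' v.2) b b' (by omega) (by omega) (by omega) (by omega)
    (sf_of_sv (sv_sg h1.2.1 (by omega) (by omega))) (sf_of_sv h1.2.2)).mpr h1.1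
  have h3 : dd (sg b v.1 d, v.2) v = d := by
    unfold dd
    dsimp only
    rw [sub_self, abs_zero]
    rcases s1 with ⟨_, h7⟩ | ⟨_, h7⟩ <;> rw [h7]
    · rw [abs_of_nonneg (by omega), max_eq_left (by omega)]; omega
    · rw [abs_of_nonpos (by omega), max_eq_left (by omega)]; omega
  refine ⟨(sg b v.1 d, v.2), ?_, h3.le, by omega⟩
  rcases o1 with ⟨_, h4⟩ | ⟨_, h4⟩ <;> rcases o2 with ⟨_, h5⟩ | ⟨_, h5⟩ <;> rw [h4, h5] at h2
  · exact ⟨_, h2, 0, rfl⟩
  · exact ⟨_, h2, 3, by rw [zc3, Prod.mk.injEq]; dsimp only; omega⟩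
  · exact ⟨_, h2, 1, by rw [zc1, Prod.mk.injEq]; dsimp only; omega⟩
  · exact ⟨_, h2, 2, by rw [zc2, Prod.mk.injEq]; dsimp only; omega⟩

/-! ### Refined polygons -/

/-- the cell index on the side `b` of the line `a` -/
def ix (b : Bool) (a : ℤ) : ℤ := if b then a else a - 1

theorem ix_cases (b : Bool) (x : ℤ) : (b = true ∧ ix b x = x) ∨ (b = false ∧ ix b x = x - 1) := by
  cases b
  · exact Or.inr ⟨rfl, by simp [ix]⟩
  · exact Or.inl ⟨rfl, by simp [ix]⟩

theorem div_side {n : ℕ} (hn : 0 < n) {a x v1 N : ℤ} (h1 : v1 + N < n * a + n) (h2 : (n : ℤ) * a ≤ v1 + N)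
    (hN : 2 * N ≤ n) (hx1 : v1 - N ≤ x) (hx2 : x < v1 + N) (h : SF b (n * a) x) : x / (n : ℤ) = ix b a := by
  rw [CARf.div_eq_iff' hn]
  rcases ix_cases b a with ⟨h3, h4⟩ | ⟨h3, h4⟩ <;> rw [h4] <;> rcases h with ⟨h5, h6⟩ | ⟨h5, h6⟩
  · exact ⟨h6, by linarith⟩
  · rw [h3] at h5; cases h5
  · rw [h3] at h5; cases h5
  · rw [mul_sub, mul_one]
    exact ⟨by linarith, by linarith⟩

theorem pat_rf {P : Finset (ℤ × ℤ)} {n : ℕ} (hP : NoPinch P) (hn : 0 < n) (v : ℤ × ℤ) (hN : 2 * N ≤ n) :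
    ∃ c p, Pat (rf n P) v c N p := by
  have h0 : (0 : ℤ) < n := by exact_mod_cast hn
  have hdiv : ∀ t : ℤ, t < n * (t / n) + n ∧ n * (t / n) ≤ t := by
    intro t
    have h1 := Int.mul_ediv_add_emod t n
    have h2 := Int.emod_nonneg t h0.ne'
    have h3 := Int.emod_lt_of_pos t h0
    constructor <;> linarith
  obtain ⟨k1, k2⟩ := hdiv (v.1 + N)
  obtain ⟨k3, k4⟩ := hdiv (v.2 + N)
  refine ⟨(n * ((v.1 + N) / n), n * ((v.2 + N) / n)),
    fun b b' => (ix b ((v.1 + N) / n), ix b' ((v.2 + N) / n)) ∈ P, ?_, ?_⟩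
  · intro x y b b' h1 h2 h3 h4 h5 h6
    rw [CARf.mem_rf hn]
    dsimp only at h5 h6 ⊢
    rw [div_side hn k1 k2 hN h1 h2 h5, div_side hn k3 k4 hN h3 h4 h6]
  · intro b b' e e' h1 h2
    obtain ⟨n1, n2⟩ := hP ((v.1 + N) / n) ((v.2 + N) / n)
    generalize (v.1 + N) / (n : ℤ) = a at *
    generalize (v.2 + N) / (n : ℤ) = a' at *
    cases b <;> cases b' <;> cases e <;> cases e' <;> simp only [ix, if_true, Bool.false_eq_true, if_false] at * <;>
      tauto

end Geo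

/-- **the local geometry of refined polygons** -/
theorem rowGeo : RowGeo := by
  intro P hP
  refine ⟨1 / 16, by norm_num, ?_⟩
  filter_upwards [Filter.eventually_ge_atTop 4] with n hn v d hv hd
  have h0 : 0 < n := by omega
  have hd' : 16 * d ≤ n := by
    have : (16 : ℝ) * d ≤ n := by linarith
    exact_mod_cast this
  obtain ⟨c, p, h1⟩ := Geo.pat_rf (N := max (2 * d + 1) 1) hP.noPinch h0 v (by omega)
  exact ⟨h1.locF (by omega), fun h2 => h1.far hv h2 (by omega)⟩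

end

end Pool.Agent.SixB.GG
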