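import Pool.Agent.Lib.SixB.S4W3Defs
import Pool.Agent.Lib.SixB.S4W1

/-!
# 6BD step 4, row W3: replacement lemma (V1), stability of the weight (V2a, V2b)
-/

set_option autoImplicit false

namespace Pool.Agent.SixB.W3

open Pool.Agent.Perc Pool.Agent.PercD Pool.Agent.Perc.Q Pool.Agent.Perc6 Relation

noncomputable section

theorem W_eq (E : WEnv) (ω : Cfg) : E.W ω = Tilt.Wt ZQ E.F E.T ω := rfl

theorem W_dep (E : WEnv) : Dep (E.F : Set (ℤ × ℤ)) E.W := fun ω ω' h =>
  Tilt.Wt_dep (Q := ZQ) (F := E.F) E.T ω ω' h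

theorem HB0_mono {w w' : ℤ} (h : w ≤ w') : HB0 w ⊆ HB0 w' := by
  intro f hf
  unfold HB0 at *
  rw [← Finset.mem_coe, mem_RF'] at *
  omega

theorem subd {E : WEnv} {d : ℤ} {M : ℝ} (h : WallAt E d M) : HB0 d ⊆ E.F :=
  (HB0_mono (by have := h.hd; omega)).trans h.sub

theorem indP_nonneg (T : Cfg → Prop) (ω : Cfg) : 0 ≤ indP T ω := by
  unfold indP
  split_ifs <;> norm_num

theorem indP_dep {S : Set (ℤ × ℤ)} {T : Cfg → Prop} (hT : Dep S T) : Dep S (indP T) := by
  intro ω ω' h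
  unfold indP
  have := hT ω ω' h
  by_cases h1 : T ω
  · rw [if_pos h1, if_pos (this ▸ h1)]
  · rw [if_neg h1, if_neg (this ▸ h1)]

theorem v1 : V1 := by
  classical
  intro E d M hE I g T hI hg hT hW
  obtain ⟨H, hH, hWH, -, hHM⟩ := hE.maj
  have hdF := subd hE
  have hIF : I ⊆ E.F := hI.trans hdF
  set W1 : Cfg → ℝ := fun ω => if T ω then 0 else E.W ω with hW1
  have hW1d : Dep ((E.F \ I : Finset (ℤ × ℤ)) : Set (ℤ × ℤ)) W1 := by
    intro ω ω' h
    have h' : ∀ f ∈ E.F \ I, ω f = ω' f := fun f hf => h f (by exact_mod_cast hf)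
    have hTT : T ω = T ω' := hT ω ω' fun f hf => h' f (by
      have hf' : f ∈ HB0 d \ I := by exact_mod_cast hf
      rw [Finset.mem_sdiff] at hf' ⊢
      exact ⟨hdF hf'.1, hf'.2⟩)
    simp only [hW1]
    by_cases h1 : T ω
    · rw [if_pos h1, if_pos (hTT ▸ h1)]
    · rw [if_neg h1, if_neg (hTT ▸ h1)]
      let ξ : Cfg := fun f => if f ∈ I then ω' f else ω f
      have e1 : E.W ξ = E.W ω := hW ω ξ h1 fun f hf => by simp only [ξ]; rw [if_neg hf]
      have e2 : E.W ξ = E.W ω' := by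
        refine (W_dep E) ξ ω' fun f hf => ?_
        simp only [ξ]
        by_cases hfI : f ∈ I
        · rw [if_pos hfI]
        · rw [if_neg hfI]
          exact h' f (Finset.mem_sdiff.mpr ⟨by exact_mod_cast hf, hfI⟩)
      rw [← e1, e2]
  have hd1 : Disjoint I (E.F \ I) := Finset.disjoint_sdiff
  have h1 : av E.F (fun ω => (g ω - av E.F g) * W1 ω) = 0 := by
    have hX' : Dep (I : Set (ℤ × ℤ)) (fun ω => g ω - av E.F g) := by
      intro ω ω' h
      simp only [hg ω ω' h]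
    rw [av_indep' hd1 hX' hW1d hIF Finset.sdiff_subset, av_sub, av_const, sub_self, zero_mul]
  have h2 : av E.F (fun ω => g ω * E.W ω) - av E.F g * E.Z =
      av E.F (fun ω => (g ω - av E.F g) * (E.W ω - W1 ω)) := by
    have e1 : av E.F (fun ω => (g ω - av E.F g) * (E.W ω - W1 ω)) =
        av E.F (fun ω => g ω * E.W ω - av E.F g * E.W ω) -
          av E.F (fun ω => (g ω - av E.F g) * W1 ω) := by
      rw [← av_sub]
      congr 1
      funext ω
      ring
    rw [e1, h1, sub_zero, av_sub, av_mul]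
    rfl
  set a := av E.F (fun ω => |g ω|) with ha
  have ha0 : 0 ≤ a := av_nonneg fun _ _ => abs_nonneg _
  have hga : |av E.F g| ≤ a := abs_av_le fun _ _ => le_rfl
  have h3 : |av E.F (fun ω => g ω * E.W ω) - av E.F g * E.Z| ≤
      av E.F (fun ω => (|g ω| + a) * (indP T ω * H ω)) := by
    rw [h2]
    refine abs_av_le fun U _ => ?_
    rw [abs_mul]
    refine mul_le_mul ?_ ?_ (abs_nonneg _) (by positivity)
    · exact (abs_sub _ _).trans (add_le_add le_rfl hga)
    · simp only [hW1]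
      unfold indP
      by_cases h4 : T (ind U)
      · rw [if_pos h4, if_pos h4, sub_zero, one_mul]
        exact hWH _
      · rw [if_neg h4, if_neg h4, sub_self, abs_zero, zero_mul]
  have hTd : Dep ((HB0 d \ I : Finset (ℤ × ℤ)) : Set (ℤ × ℤ)) (indP T) := indP_dep hT
  have hd2 : Disjoint (HB0 d \ I) (E.F \ HB0 d) := by
    rw [Finset.disjoint_left]
    intro f hf hf'
    exact (Finset.mem_sdiff.mp hf').2 (Finset.mem_sdiff.mp hf).1
  have hTH : Dep ((E.F \ I : Finset (ℤ × ℤ)) : Set (ℤ × ℤ)) (fun ω => indP T ω * H ω) := by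
    intro ω ω' h
    have h' : ∀ f ∈ E.F \ I, ω f = ω' f := fun f hf => h f (by exact_mod_cast hf)
    have e1 := hTd ω ω' fun f hf => h' f (by
      have hf' : f ∈ HB0 d \ I := by exact_mod_cast hf
      rw [Finset.mem_sdiff] at hf' ⊢
      exact ⟨hdF hf'.1, hf'.2⟩)
    have e2 := hH ω ω' fun f hf => h' f (by
      have hf' : f ∈ E.F \ HB0 d := by exact_mod_cast hf
      rw [Finset.mem_sdiff] at hf' ⊢
      exact ⟨hf'.1, fun hfI => hf'.2 (hI hfI)⟩)
    simp only [e1, e2]
  have hga' : Dep (I : Set (ℤ × ℤ)) (fun ω => |g ω| + a) := by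
    intro ω ω' h
    simp only [hg ω ω' h]
  have h5 : av E.F (fun ω => (|g ω| + a) * (indP T ω * H ω)) =
      (2 * a) * (av E.F (indP T) * av E.F H) := by
    rw [av_indep' hd1 hga' hTH hIF Finset.sdiff_subset,
      av_indep' hd2 hTd hH ((Finset.sdiff_subset).trans hdF) Finset.sdiff_subset]
    have : av E.F (fun ω => |g ω| + a) = 2 * a := by
      rw [av_add (g := fun ω => |g ω|) (g' := fun _ => a), av_const, ← ha]
      ring
    rw [this]
  have hT0 : 0 ≤ av E.F (indP T) := av_nonneg fun _ _ => indP_nonneg _ _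
  calc |av E.F (fun ω => g ω * E.W ω) - av E.F g * E.Z|
      ≤ (2 * a) * (av E.F (indP T) * av E.F H) := h3.trans (le_of_eq h5)
    _ ≤ (2 * a) * (av E.F (indP T) * (M * E.Z)) := by
        refine mul_le_mul_of_nonneg_left (mul_le_mul_of_nonneg_left hHM hT0) (by positivity)
    _ = 2 * M * E.Z * a * av E.F (indP T) := by ring

/-! ## Stability of the weight -/

/-- the face across a side -/
def nb (f : ℤ × ℤ) (k : ZMod 4) : ℤ × ℤ :=
  if k = 0 then (f.1, f.2 - 1) else if k = 1 then (f.1 + 1, f.2) else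
    if k = 2 then (f.1, f.2 + 1) else (f.1 - 1, f.2)

theorem sd_swap_nb (f : ℤ × ℤ) (k : ZMod 4) : (sd ZQ f k).swap = sd ZQ (nb f k) (k + 2) := by
  obtain ⟨u, v⟩ := f
  rcases Tilt.k4 k with rfl | rfl | rfl | rfl
  · change ((u + 1, v), (u, v)) = ((u + 1, v - 1 + 1), (u, v - 1 + 1))
    rw [sub_add_cancel]
  · change ((u + 1, v + 1), (u + 1, v)) = ((u + 1, v + 1), (u + 1, v))
    rfl
  · change ((u, v + 1), (u + 1, v + 1)) = ((u, v + 1), (u + 1, v + 1))
    rfl
  · change ((u, v), (u, v + 1)) = ((u - 1 + 1, v), (u - 1 + 1, v + 1))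
    rw [sub_add_cancel]

/-- the face across a starting side is not in the domain -/
theorem nb_notMem {F : Finset (ℤ × ℤ)} {f : ℤ × ℤ} {k : ZMod 4} (h : sd ZQ f k ∈ bS ZQ F) :
    nb f k ∉ F := fun hf => (Tilt.mem_bS_ah.mp h).2 ⟨nb f k, hf, k + 2, sd_swap_nb f k⟩

theorem wall_sub {E : WEnv} {d : ℤ} {M : ℝ} (hE : WallAt E d M) {a : DZ}
    (ha : a ∈ Tilt.wall ZQ E.F (HB0 d)) : a ∈ wS (2 * d) := by
  obtain ⟨hb, f, hf, k, rfl⟩ := Tilt.mem_wall.mp ha
  have h1 := nb_notMem hb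
  have hd := hE.hd
  obtain ⟨u, v⟩ := f
  unfold HB0 at hf
  rw [← Finset.mem_coe, mem_RF'] at hf
  simp only at hf
  have hin : ∀ u' v' : ℤ, -(2 * d) ≤ u' → u' ≤ 2 * d → 0 ≤ v' → v' < 2 * d → (u', v') ∈ E.F := by
    intro u' v' h2 h3 h4 h5
    apply hE.sub
    unfold HB0
    rw [← Finset.mem_coe, mem_RF']
    simp only
    omega
  rcases Tilt.k4 k with rfl | rfl | rfl | rfl
  · by_cases hv : v = 0
    · subst hv
      exact mem_wS.mpr ⟨u, by omega, by omega, rfl⟩
    · exact absurd (hin u (v - 1) (by omega) (by omega) (by omega) (by omega)) h1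
  · exact absurd (hin (u + 1) v (by omega) (by omega) (by omega) (by omega)) h1
  · exact absurd (hin u (v + 1) (by omega) (by omega) (by omega) (by omega)) h1
  · exact absurd (hin (u - 1) v (by omega) (by omega) (by omega) (by omega)) h1

theorem T_mk (E : WEnv) (a b : DZ) : E.T s(a, b) = E.t a b := rfl

theorem neutral_HB {E : WEnv} {d : ℤ} {M : ℝ} (hE : WallAt E d M) :
    Tilt.Neutral ZQ E.F (HB0 d) E.T where
  one a ha b hb := by
    rw [T_mk]
    exact hE.t_wall a (wall_sub hE ha) b (wall_sub hE hb)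
  eq k hk _ a ha b hb := by
    rw [T_mk, T_mk, E.t_symm k a, E.t_symm k b]
    by_cases h : k ∈ wS (2 * d)
    · rw [hE.t_wall a (wall_sub hE ha) k h, hE.t_wall b (wall_sub hE hb) k h]
    · exact hE.t_far k hk h a (wall_sub hE ha) b (wall_sub hE hb)

theorem v2a : V2a := by
  intro E d M hE l I hI hl ω ω' h1 hω
  rw [W_eq, W_eq]
  exact Tilt.Wt_stable Tilt.zq_noLoop (HB0_mono hl) (subd hE) (neutral_HB hE) h1
    fun f hf => hω f fun hfI => hf (hI hfI)

theorem BR_mono {v : ℤ × ℤ} {s t : ℤ} (h : s ≤ t) : BR v s ⊆ BR v t := by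
  intro f hf
  rw [mem_BR] at *
  omega

theorem v2b : V2b := by
  intro E d M hE v s t hs hst ht hv ω ω' h1 hω
  rw [W_eq, W_eq]
  have hw : ∀ a, a ∉ Tilt.wall ZQ E.F (BR v t) := by
    intro a ha
    obtain ⟨hb, f, hf, k, rfl⟩ := Tilt.mem_wall.mp ha
    have h2 := nb_notMem hb
    have hd := hE.hd
    have h3 := ht hf
    rw [mem_BR] at hf
    obtain ⟨x, y⟩ := f
    unfold HB0 at h3
    rw [← Finset.mem_coe, mem_RF'] at h3
    simp only at h3 hf
    have hin : ∀ u' v' : ℤ, -(2 * d) ≤ u' → u' ≤ 2 * d → 0 ≤ v' → v' < 2 * d → (u', v') ∈ E.F := by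
      intro u' v' h2 h3 h4 h5
      apply hE.sub
      unfold HB0
      rw [← Finset.mem_coe, mem_RF']
      simp only
      omega
    rcases Tilt.k4 k with rfl | rfl | rfl | rfl
    · exact absurd (hin x (y - 1) (by omega) (by omega) (by omega) (by omega)) h2
    · exact absurd (hin (x + 1) y (by omega) (by omega) (by omega) (by omega)) h2
    · exact absurd (hin x (y + 1) (by omega) (by omega) (by omega) (by omega)) h2
    · exact absurd (hin (x - 1) y (by omega) (by omega) (by omega) (by omega)) h2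
  exact Tilt.Wt_stable Tilt.zq_noLoop (BR_mono hst) (ht.trans (subd hE))
    ⟨fun a ha => absurd ha (hw a), fun k _ _ a ha => absurd ha (hw a)⟩ h1.one hω

end

end Pool.Agent.SixB.W3
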