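import Pool.Agent.Lib.SixB.S6GDefs
import Pool.Agent.Lib.SixB.S4W3a

/-!
# 6BD block CA, rows S6G: RowDec, RowInc, RowBase

* `W_stab`: without legs the weight of a locally natural environment does not see the inner box.
* `rowDec : RowNoLeg → RowDec`, `rowInc : RowCount → RowInc`, `rowBase : RowBase`.
-/

set_option autoImplicit false

namespace Pool.Agent.SixB.GG

open Pool.Agent.Perc Pool.Agent.Perc.Q Pool.Agent.PercD Pool.Agent.PercN Pool.Agent.Perc6
open Pool.Agent.SixB.Tilt Pool.Agent.SixB.HG Relation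

noncomputable section

/-! ## Decoupling -/

theorem W_stab {E : WEnv} {I M B : Finset (ℤ × ℤ)}
    (hn : ∀ a ∈ bS ZQ E.F, ∀ b ∈ bS ZQ E.F, Ah ZQ B a → Ah ZQ B b → E.t a b = 1)
    (hIM : I ⊆ M) (hMB : M ⊆ B) (hMF : M ⊆ E.F) {ω ω' : Cfg} (h1 : NoLeg ZQ ω E.F I M)
    (hω : ∀ f, f ∉ I → ω f = ω' f) : E.W ω' = E.W ω := by
  have h1' : NoLeg ZQ ω' E.F I M := h1.congr fun f hf => hω f (Finset.mem_sdiff.mp hf).2
  have key : ∀ ζ : Cfg, NoLeg ZQ ζ E.F I M → WtVis ZQ E.F I E.T ζ = 1 := by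
    intro ζ h
    unfold WtVis
    refine Finset.prod_eq_one fun p hp => ?_
    obtain ⟨a, ha, hA, rfl⟩ := mem_arcsVis.mp hp
    have w1 := vis_wall zq_noLoop hIM hMF h ha hA
    have w2 := vis_wall zq_noLoop hIM hMF h (mate_mem (ω := ζ) ha)
      (fun hh => hA ((avo_mate ha).mp hh))
    exact hn a ha _ (mate_mem ha) ((mem_wall.mp w1).2.mono hMB) ((mem_wall.mp w2).2.mono hMB)
  rw [W3.W_eq, W3.W_eq, Wt_split (I := I), Wt_split (I := I), key _ h1, key _ h1', one_mul,
    one_mul]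
  exact WtAvo_congr _ fun f hf => hω f (Finset.mem_sdiff.mp hf).2

/-- replacement: the tilt changes the mean of `g` only on the event `T` -/
theorem repl {E : WEnv} {B I : Finset (ℤ × ℤ)} {g H : Cfg → ℝ} {T : Cfg → Prop} (hB : B ⊆ E.F)
    (hI : I ⊆ B) (hg : Dep (I : Set (ℤ × ℤ)) g)
    (hT : Dep ((B \ I : Finset (ℤ × ℤ)) : Set (ℤ × ℤ)) T)
    (hH : Dep ((E.F \ B : Finset (ℤ × ℤ)) : Set (ℤ × ℤ)) H) (hWH : ∀ ω, |E.W ω| ≤ H ω)
    (hW : ∀ ω ω' : Cfg, ¬ T ω → (∀ f, f ∉ I → ω f = ω' f) → E.W ω' = E.W ω) :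
    |av E.F (fun ω => g ω * E.W ω) - av E.F g * E.Z| ≤
      2 * av E.F (fun ω => |g ω|) * av E.F H * av E.F (W3.indP T) := by
  classical
  have hIF : I ⊆ E.F := hI.trans hB
  set W1 : Cfg → ℝ := fun ω => if T ω then 0 else E.W ω with hW1
  have hW1d : Dep ((E.F \ I : Finset (ℤ × ℤ)) : Set (ℤ × ℤ)) W1 := by
    intro ω ω' h
    have h' : ∀ f ∈ E.F \ I, ω f = ω' f := fun f hf => h f (by exact_mod_cast hf)
    have hTT : T ω = T ω' := hT ω ω' fun f hf => h' f (by
      have hf' : f ∈ B \ I := by exact_mod_cast hf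
      rw [Finset.mem_sdiff] at hf' ⊢
      exact ⟨hB hf'.1, hf'.2⟩)
    simp only [hW1]
    by_cases h1 : T ω
    · rw [if_pos h1, if_pos (hTT ▸ h1)]
    · rw [if_neg h1, if_neg (hTT ▸ h1)]
      let ξ : Cfg := fun f => if f ∈ I then ω' f else ω f
      have e1 : E.W ξ = E.W ω := hW ω ξ h1 fun f hf => by simp only [ξ]; rw [if_neg hf]
      have e2 : E.W ξ = E.W ω' := by
        refine (W3.W_dep E) ξ ω' fun f hf => ?_
        simp only [ξ]
        by_cases hfI : f ∈ I
        · rw [if_pos hfI]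
        · rw [if_neg hfI]
          exact h' f (Finset.mem_sdiff.mpr ⟨by exact_mod_cast hf, hfI⟩)
      rw [← e1, e2]
  have hd1 : Disjoint I (E.F \ I) := Finset.disjoint_sdiff
  have h1 : av E.F (fun ω => (g ω - av E.F g) * W1 ω) = 0 := by
    have hX' : Dep (I : Set (ℤ × ℤ)) (fun ω => g ω - av E.F g) := by
      intro ω ω' h
      simp only [hg ω ω' h]
    rw [av_indep' hd1 hX' hW1d hIF Finset.sdiff_subset, av_sub, av_const, sub_self, zero_mul]
  have h2 : av E.F (fun ω => g ω * E.W ω) - av E.F g * E.Z =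
      av E.F (fun ω => (g ω - av E.F g) * (E.W ω - W1 ω)) := by
    have e1 : av E.F (fun ω => (g ω - av E.F g) * (E.W ω - W1 ω)) =
        av E.F (fun ω => g ω * E.W ω - av E.F g * E.W ω) -
          av E.F (fun ω => (g ω - av E.F g) * W1 ω) := by
      rw [← av_sub]
      congr 1
      funext ω
      ring
    rw [e1, h1, sub_zero, av_sub, av_mul]
    rfl
  set a := av E.F (fun ω => |g ω|) with ha
  have ha0 : 0 ≤ a := av_nonneg fun _ _ => abs_nonneg _
  have hga : |av E.F g| ≤ a := abs_av_le fun _ _ => le_rfl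
  have h3 : |av E.F (fun ω => g ω * E.W ω) - av E.F g * E.Z| ≤
      av E.F (fun ω => (|g ω| + a) * (W3.indP T ω * H ω)) := by
    rw [h2]
    refine abs_av_le fun U _ => ?_
    rw [abs_mul]
    refine mul_le_mul ?_ ?_ (abs_nonneg _) (by positivity)
    · exact (abs_sub _ _).trans (add_le_add le_rfl hga)
    · simp only [hW1]
      unfold W3.indP
      by_cases h4 : T (ind U)
      · rw [if_pos h4, if_pos h4, sub_zero, one_mul]
        exact hWH _
      · rw [if_neg h4, if_neg h4, sub_self, abs_zero, zero_mul]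
  have hTd : Dep ((B \ I : Finset (ℤ × ℤ)) : Set (ℤ × ℤ)) (W3.indP T) := W3.indP_dep hT
  have hd2 : Disjoint (B \ I) (E.F \ B) := by
    rw [Finset.disjoint_left]
    intro f hf hf'
    exact (Finset.mem_sdiff.mp hf').2 (Finset.mem_sdiff.mp hf).1
  have hTH : Dep ((E.F \ I : Finset (ℤ × ℤ)) : Set (ℤ × ℤ)) (fun ω => W3.indP T ω * H ω) := by
    intro ω ω' h
    have h' : ∀ f ∈ E.F \ I, ω f = ω' f := fun f hf => h f (by exact_mod_cast hf)
    have e1 := hTd ω ω' fun f hf => h' f (by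
      have hf' : f ∈ B \ I := by exact_mod_cast hf
      rw [Finset.mem_sdiff] at hf' ⊢
      exact ⟨hB hf'.1, hf'.2⟩)
    have e2 := hH ω ω' fun f hf => h' f (by
      have hf' : f ∈ E.F \ B := by exact_mod_cast hf
      rw [Finset.mem_sdiff] at hf' ⊢
      exact ⟨hf'.1, fun hfI => hf'.2 (hI hfI)⟩)
    simp only [e1, e2]
  have hga' : Dep (I : Set (ℤ × ℤ)) (fun ω => |g ω| + a) := by
    intro ω ω' h
    simp only [hg ω ω' h]
  have h5 : av E.F (fun ω => (|g ω| + a) * (W3.indP T ω * H ω)) =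
      (2 * a) * (av E.F (W3.indP T) * av E.F H) := by
    rw [av_indep' hd1 hga' hTH hIF Finset.sdiff_subset,
      av_indep' hd2 hTd hH ((Finset.sdiff_subset).trans hB) Finset.sdiff_subset]
    have : av E.F (fun ω => |g ω| + a) = 2 * a := by
      rw [av_add (g := fun ω => |g ω|) (g' := fun _ => a), av_const, ← ha]
      ring
    rw [this]
  calc |av E.F (fun ω => g ω * E.W ω) - av E.F g * E.Z|
      ≤ (2 * a) * (av E.F (W3.indP T) * av E.F H) := h3.trans (le_of_eq h5)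
    _ = 2 * a * av E.F H * av E.F (W3.indP T) := by ring

theorem indP_nf (F : Finset (ℤ × ℤ)) (z : VZ) (ρ R : ℤ) :
    W3.indP (fun ω => 1 ≤ NF (F : Set (ℤ × ℤ)) z ρ R ω) =
      fun ω => if 1 ≤ NF (F : Set (ℤ × ℤ)) z ρ R ω then (1 : ℝ) else 0 := by
  funext ω
  unfold W3.indP
  split_ifs <;> rfl

theorem rowDec (hL : RowNoLeg) : RowDec := by
  classical
  intro E v z d ρ R M f hρ hρR hBR hN hM hf
  obtain ⟨hZ, H, hH, hWH, -, hHM⟩ := hM
  -- restriction to the faces of the domain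
  set g : Cfg → ℝ := fun ω => f (fun x => if x ∈ E.F then ω x else false) with hg
  have hgf : ∀ T ⊆ E.F, g (ind T) = f (ind T) := by
    intro T hT
    simp only [hg]
    congr 1
    funext x
    by_cases hx : x ∈ E.F
    · rw [if_pos hx]
    · rw [if_neg hx]
      unfold ind
      exact (decide_eq_false fun h => hx (hT h)).symm
  have hgd : Dep ((E.F ∩ BR z ρ : Finset (ℤ × ℤ)) : Set (ℤ × ℤ)) g := by
    intro ω ω' h
    simp only [hg]
    refine hf _ _ fun x hx => ?_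
    by_cases hxF : x ∈ E.F
    · rw [if_pos hxF, if_pos hxF]
      exact h x (by exact_mod_cast Finset.mem_inter.mpr ⟨hxF, by exact_mod_cast hx⟩)
    · rw [if_neg hxF, if_neg hxF]
  have hzz : BR z ρ ⊆ BR z R := W3.BR_mono hρR.le
  have hT : Dep (((E.F ∩ BR v d) \ (E.F ∩ BR z ρ) : Finset (ℤ × ℤ)) : Set (ℤ × ℤ))
      (fun ω => 1 ≤ NF (E.F : Set (ℤ × ℤ)) z ρ R ω) := by
    intro ω ω' h
    have h1 : NF (E.F : Set (ℤ × ℤ)) z ρ R ω = NF (E.F : Set (ℤ × ℤ)) z ρ R ω' := by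
      refine depN_NF (E.F : Set (ℤ × ℤ)) z ρ R ω ω' ?_
      rintro x ⟨hx1, hx2⟩
      have hx3 := mem_An.1 (Finset.mem_coe.1 hx2)
      refine h x ?_
      rw [Finset.mem_coe, Finset.mem_sdiff, Finset.mem_inter, Finset.mem_inter]
      exact ⟨⟨by exact_mod_cast hx1, hBR hx3.1⟩, fun h' => hx3.2 h'.2⟩
    simp only [h1]
  have hH' : Dep ((E.F \ (E.F ∩ BR v d) : Finset (ℤ × ℤ)) : Set (ℤ × ℤ)) H := by
    rw [Finset.sdiff_inter_self_left]
    exact hH
  have key := repl (E := E) (B := E.F ∩ BR v d) (I := E.F ∩ BR z ρ) (g := g) (H := H)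
    (T := fun ω => 1 ≤ NF (E.F : Set (ℤ × ℤ)) z ρ R ω) Finset.inter_subset_left
    (Finset.inter_subset_inter_left (hzz.trans hBR)) hgd hT hH' hWH (by
      intro ω ω' h1 h2
      have h3 : NF (E.F : Set (ℤ × ℤ)) z ρ R ω = 0 := by omega
      exact W_stab (B := BR v d) hN (Finset.inter_subset_inter_left hzz)
        ((Finset.inter_subset_right).trans hBR) Finset.inter_subset_left
        (hL E.F z ρ R ω (by omega) hρR h3) h2)
  have e1 : av E.F (fun ω => g ω * E.W ω) = av E.F (fun ω => f ω * E.W ω) :=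
    av_congr fun T hT => by rw [hgf T hT]
  have e2 : av E.F g = av E.F f := av_congr hgf
  have e3 : av E.F (fun ω => |g ω|) = av E.F (fun ω => |f ω|) :=
    av_congr fun T hT => by rw [hgf T hT]
  rw [e1, e2, e3, indP_nf] at key
  refine key.trans ?_
  have ha0 : 0 ≤ av E.F (fun ω => |f ω|) := av_nonneg fun _ _ => abs_nonneg _
  refine mul_le_mul_of_nonneg_right (mul_le_mul_of_nonneg_left hHM (by positivity)) ?_
  exact av_nonneg fun _ _ => by split_ifs <;> norm_num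

/-! ## The local heights, scale by scale -/

/-- the local mean arrow of a strand of the ball -/
theorem abs_onX_kap {E : WEnv} {v : VZ} {d : ℤ} (hK : Kap2 E v d) {B : Finset (ℤ × ℤ)}
    (hB : B ⊆ BR v d) {ω : Cfg} {U : Finset (Finset DZ)} (hU : U ∈ uIn ZQ E.F B ω) :
    |onX (kap E ω) (rep U)| ≤ 2 := by
  obtain ⟨h1, h2⟩ := mem_uIn.mp hU
  have hd := rep_dstr h1
  obtain ⟨c, hc, h3⟩ := mem_dstr.mp hd
  have hcX : c ∈ rep U := h3 ▸ self_mem_dst hc
  rw [onX_eq (fun a b h => kap_srel E h) hd hcX]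
  exact hK ω (rep U) c hd (h2.mono hB) hcX

theorem abs_term {E : WEnv} (hP : HasPotQ ZQ E.F) {v : VZ} {d : ℤ} (hK : Kap2 E v d)
    {B : Finset (ℤ × ℤ)} (hB : B ⊆ BR v d) {ω : Cfg} {U : Finset (Finset DZ)}
    (hU : U ∈ uIn ZQ E.F B ω) (z q : VZ) :
    |((lft ZQ E.F (rep U) z - lft ZQ E.F (rep U) q : ℤ) : ℝ) * onX (kap E ω) (rep U)| ≤
      2 * (if lft ZQ E.F (rep U) z ≠ lft ZQ E.F (rep U) q then (1 : ℝ) else 0) := by
  have h1 := abs_onX_kap hK hB hU
  obtain ⟨h2, -⟩ := mem_uIn.mp hU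
  have h3 := (lft_spec hP (rep_dstr h2)).abs_le z q
  rw [abs_mul]
  by_cases h : lft ZQ E.F (rep U) z = lft ZQ E.F (rep U) q
  · rw [h, sub_self, if_neg (by simp)]
    simp
  · rw [if_pos h, mul_one, ← Int.cast_abs]
    have h4 : ((|lft ZQ E.F (rep U) z - lft ZQ E.F (rep U) q| : ℤ) : ℝ) ≤ 1 := by
      exact_mod_cast h3
    nlinarith [abs_nonneg (onX (kap E ω) (rep U)),
      (by positivity : (0 : ℝ) ≤ ((|lft ZQ E.F (rep U) z - lft ZQ E.F (rep U) q| : ℤ) : ℝ))]

/-- a strand of one scale which separates `z` from the far vertex `q` is not short -/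
theorem inc_strand {F : Finset (ℤ × ℤ)} (hP : HasPotQ ZQ F) {v : VZ} {d m : ℤ} {z q : VZ}
    {B B' : Finset (ℤ × ℤ)} {ω : Cfg} (hl : LocF F v d) (hm : 1 ≤ m) (hmd : 64 * m ≤ d)
    (hz : IsV F z) (hq : IsV F q) (hzv : 2 * dd z v ≤ d) (hqv : dd q v ≤ d)
    (hqz : 40 * m < dd q z) (hB : BR z (8 * m) ⊆ B) (hB' : B' ⊆ BR z (32 * m))
    {X : Finset DZ} (hX : X ∈ dstr ZQ F ω) (h1 : InF ZQ F B' X) (h2 : ¬ InF ZQ F B X)
    (hs : lft ZQ F X z ≠ lft ZQ F X q) :
    ∃ w ∈ net z m, Vis F (BR w m) X ∧ ¬ InF ZQ F (BR w (2 * m)) X := by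
  unfold InF at h2
  push Not at h2
  obtain ⟨f, hf, k, hk, hfB⟩ := h2
  have hf1 := hB' (h1 f hf k hk)
  have hf2 : f ∉ BR z (8 * m) := fun h => hfB (hB h)
  rw [mem_BR] at hf1 hf2
  set i := (f.1 - z.1) / m with hi
  set j := (f.2 - z.2) / m with hj
  have ei := Int.mul_ediv_add_emod (f.1 - z.1) m
  have ej := Int.mul_ediv_add_emod (f.2 - z.2) m
  have ei0 := Int.emod_nonneg (f.1 - z.1) (show m ≠ 0 by omega)
  have ej0 := Int.emod_nonneg (f.2 - z.2) (show m ≠ 0 by omega)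
  have ei1 := Int.emod_lt_of_pos (f.1 - z.1) (show 0 < m by omega)
  have ej1 := Int.emod_lt_of_pos (f.2 - z.2) (show 0 < m by omega)
  rw [← hi] at ei
  rw [← hj] at ej
  have hrange : ∀ (t a r : ℤ), m * t + r = a → 0 ≤ r → r < m → -(32 * m) ≤ a → a < 32 * m →
      -34 ≤ t ∧ t ≤ 34 := by
    intro t a r h3 h4 h5 h6 h7
    constructor
    · by_contra hc
      have : m * t ≤ m * (-35) := mul_le_mul_of_nonneg_left (by omega) (by omega)
      omega
    · by_contra hc
      have : m * 35 ≤ m * t := mul_le_mul_of_nonneg_left (by omega) (by omega)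
      omega
  have ri := hrange i _ _ ei ei0 ei1 (by omega) (by omega)
  have rj := hrange j _ _ ej ej0 ej1 (by omega) (by omega)
  refine ⟨(z.1 + m * i, z.2 + m * j), ?_, ⟨f, hf, ?_, k, hk⟩, fun hin => ?_⟩
  · unfold net
    rw [Finset.mem_image]
    refine ⟨(i, j), ?_, rfl⟩
    rw [Finset.mem_product, Finset.mem_Icc, Finset.mem_Icc]
    exact ⟨ri, rj⟩
  · rw [mem_BR]
    simp only
    omega
  · have hd0 : 0 ≤ dd z v := (abs_nonneg _).trans (le_max_left _ _)
    have hdz : 2 * m < dd z (z.1 + m * i, z.2 + m * j) := by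
      unfold dd
      simp only
      by_contra hc
      push Not at hc
      have h3 := abs_le.mp ((le_max_left _ _).trans hc)
      have h4 := abs_le.mp ((le_max_right _ _).trans hc)
      omega
    have hdq : 2 * m < dd q (z.1 + m * i, z.2 + m * j) := by
      unfold dd at hqz ⊢
      simp only
      by_contra hc
      push Not at hc
      have h3 := abs_le.mp ((le_max_left _ _).trans hc)
      have h4 := abs_le.mp ((le_max_right _ _).trans hc)
      have h5 : |q.1 - z.1| ≤ 40 * m := by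
        rw [abs_le]
        omega
      have h6 : |q.2 - z.2| ≤ 40 * m := by
        rw [abs_le]
        omega
      exact absurd (max_le h5 h6) (not_le.mpr hqz)
    have hc := hl.avoid (z.1 + m * i, z.2 + m * j) (2 * m) z q (by omega) (by omega) hz hq
      (by omega) hqv hdz hdq
    obtain ⟨a, ha, ha'⟩ := (lft_spec hP hX).visits Finset.sdiff_subset hc hs
    obtain ⟨g, hg, l, hgl⟩ := mem_dE.mp ha
    rw [Finset.mem_sdiff] at hg
    refine hg.2 (hin g hg.1 l ?_)
    rcases hgl with rfl | rfl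
    · exact ha'
    · rw [Prod.swap_swap] at ha'
      exact ha'.symm

theorem BR_sub {z v : VZ} {a d : ℤ} (h : dd z v + a ≤ d) : BR z a ⊆ BR v d := by
  intro f hf
  rw [mem_BR] at hf ⊢
  unfold dd at h
  have h1 := le_max_left |z.1 - v.1| |z.2 - v.2|
  have h2 := le_max_right |z.1 - v.1| |z.2 - v.2|
  have h3 := abs_le.mp (le_refl |z.1 - v.1|)
  have h4 := abs_le.mp (le_refl |z.2 - v.2|)
  omega

seal net in
theorem rowInc (hC : RowCount) : RowInc := by
  classical
  intro E v d m z q B B' ω hP hl hK hm hmd hz hq hzv hqv hqz hB hBB hB'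
  have hd0 : 0 ≤ dd z v := (abs_nonneg _).trans (le_max_left _ _)
  have hBd : B' ⊆ BR v d := hB'.trans (BR_sub (by omega))
  have hsub : uIn ZQ E.F B ω ⊆ uIn ZQ E.F B' ω := uIn_mono hBB
  have h1 : cls E B' z q ω - cls E B z q ω = ∑ U ∈ uIn ZQ E.F B' ω \ uIn ZQ E.F B ω,
      ((lft ZQ E.F (rep U) z - lft ZQ E.F (rep U) q : ℤ) : ℝ) * onX (kap E ω) (rep U) := by
    unfold cls
    rw [← Finset.sum_sdiff hsub]
    ring
  set S := (uIn ZQ E.F B' ω \ uIn ZQ E.F B ω).filter fun U =>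
    lft ZQ E.F (rep U) z ≠ lft ZQ E.F (rep U) q with hS
  have h2 : |cls E B' z q ω - cls E B z q ω| ≤ 2 * S.card := by
    rw [h1]
    refine (Finset.abs_sum_le_sum_abs _ _).trans ?_
    refine (Finset.sum_le_sum fun U hU =>
      abs_term hP hK hBd (Finset.mem_sdiff.mp hU).1 z q).trans (le_of_eq ?_)
    rw [← Finset.mul_sum, hS, Finset.card_filter]
    push_cast
    rfl
  have h3 : S ⊆ (net z m).biUnion fun w => S.filter fun U =>
      Vis E.F (BR w m) (rep U) ∧ ¬ InF ZQ E.F (BR w (2 * m)) (rep U) := by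
    intro U hU
    have hU' := hU
    have hU0 := Finset.mem_filter.mp (hS ▸ hU)
    have hU1 := (Finset.mem_sdiff.mp hU0.1).1
    have hU2 := (Finset.mem_sdiff.mp hU0.1).2
    have hU3 := hU0.2
    have h4 := (mem_uIn.mp hU1).1
    have h5 := (mem_uIn.mp hU1).2
    have h6 : ¬ InF ZQ E.F B (rep U) := fun h => hU2 (mem_uIn.mpr ⟨h4, h⟩)
    obtain ⟨w, hw, h7⟩ := inc_strand hP hl hm hmd hz hq hzv hqv hqz hB hB' (rep_dstr h4) h5 h6 hU3
    rw [Finset.mem_biUnion]
    refine ⟨w, hw, ?_⟩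
    rw [Finset.mem_filter]
    exact ⟨hU', h7⟩
  have h4 : S.card ≤ ∑ w ∈ net z m, NF (E.F : Set (ℤ × ℤ)) w m (2 * m) ω := by
    refine (Finset.card_le_card h3).trans (Finset.card_biUnion_le.trans ?_)
    refine Finset.sum_le_sum fun w _ => hC E.F w m (2 * m) ω _ (by omega) (by omega) ?_ ?_
    · intro U hU
      have := (Finset.mem_filter.mp hU).1
      rw [hS, Finset.mem_filter, Finset.mem_sdiff] at this
      exact (mem_uIn.mp this.1.1).1
    · intro U hU
      exact (Finset.mem_filter.mp hU).2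
  refine h2.trans (mul_le_mul_of_nonneg_left ?_ (by norm_num))
  exact_mod_cast h4

theorem rowBase : RowBase := by
  classical
  refine ⟨2 * 16384, by norm_num, fun E v d z q B ω hP hK hBz hB => ?_⟩
  have h1 : |cls E B z q ω| ≤ 2 * (uIn ZQ E.F B ω).card := by
    unfold cls
    refine (Finset.abs_sum_le_sum_abs _ _).trans ?_
    have h0 : ∀ U ∈ uIn ZQ E.F B ω,
        |((lft ZQ E.F (rep U) z - lft ZQ E.F (rep U) q : ℤ) : ℝ) * onX (kap E ω) (rep U)| ≤ 2 := by
      intro U hU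
      refine (abs_term hP hK hB hU z q).trans ?_
      split_ifs <;> norm_num
    refine (Finset.sum_le_sum h0).trans (le_of_eq ?_)
    rw [Finset.sum_const, nsmul_eq_mul]
    ring
  have h2 : uIn ZQ E.F B ω ⊆ (BR z 32 ×ˢ (Finset.univ : Finset (ZMod 4))).image fun p =>
      usE ZQ E.F ω (sd ZQ p.1 p.2) := by
    intro U hU
    obtain ⟨h3, h4⟩ := mem_uIn.mp hU
    have hd := rep_dstr h3
    obtain ⟨c, hc, h5⟩ := mem_dstr.mp hd
    have hcX : c ∈ rep U := h5 ▸ self_mem_dst hc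
    obtain ⟨f, hf, k, hk⟩ := mem_dE.mp hc
    have h6 : f ∈ BR z 32 := hBz (h4 f hf k (by
      rcases hk with h | h
      · exact Or.inl (h ▸ hcX)
      · right
        rw [← h]
        exact hcX))
    refine Finset.mem_image.mpr ⟨(f, k), Finset.mem_product.mpr ⟨h6, Finset.mem_univ _⟩, ?_⟩
    have h7 := (ust_eq h3 (rep_mem h3)).2
    have h8 : rep U = dst ZQ E.F ω c := (dstr_of_mem hd hcX).2
    rw [h7, h8, rv_dst]
    simp only
    rcases hk with h | h
    · rw [← h]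
      rfl
    · rw [h, Prod.swap_swap]
      exact Finset.pair_comm _ _
  have h3 : (uIn ZQ E.F B ω).card ≤ 16384 := by
    refine (Finset.card_le_card h2).trans (Finset.card_image_le.trans (le_of_eq ?_))
    rw [Finset.card_product]
    have e1 : (BR z 32).card = 4096 := by
      unfold BR RF
      rw [Finset.card_product, Int.card_Ico, Int.card_Ico]
      rw [show z.1 + 32 - (z.1 - 32) = 64 by ring, show z.2 + 32 - (z.2 - 32) = 64 by ring]
      rfl
    have e2 : (Finset.univ : Finset (ZMod 4)).card = 4 := by decide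
    rw [e1, e2]
  have h4 : ((uIn ZQ E.F B ω).card : ℝ) ≤ 16384 := by exact_mod_cast h3
  linarith

end

end Pool.Agent.SixB.GG
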