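import Pool.Agent.Lib.SixB.S6GMean

/-!
# 6BD block CA, rows S6G: theorem LD1 from the rows
-/

set_option autoImplicit false
set_option linter.ambiguousOpen false

namespace Pool.Agent.SixB.GG

open Finset Pool.Agent.Perc Pool.Agent.Perc.Q Pool.Agent.PercD Pool.Agent.PercN Tilt HG Relation

noncomputable section

variable {E : WEnv} {f g : Cfg → ℝ}

theorem bR_sub {z v : VZ} {r R : ℤ} (h : dd z v + r ≤ R) : BR z r ⊆ BR v R := by
  refine Sub.subset ?_
  unfold PercD.Sub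
  unfold dd at h
  have h1 := le_max_left |z.1 - v.1| |z.2 - v.2|
  have h2 := le_max_right |z.1 - v.1| |z.2 - v.2|
  have h3 := abs_le.mp (h1.trans (by linarith : max |z.1 - v.1| |z.2 - v.2| ≤ R - r))
  have h4 := abs_le.mp (h2.trans (by linarith : max |z.1 - v.1| |z.2 - v.2| ≤ R - r))
  omega

theorem dd_symm (z v : VZ) : dd z v = dd v z := by
  unfold dd
  rw [abs_sub_comm, abs_sub_comm z.2]

theorem dd_tri (z v w : VZ) : dd z w ≤ dd z v + dd v w := by
  unfold dd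
  have h1 := le_max_left |z.1 - v.1| |z.2 - v.2|
  have h2 := le_max_right |z.1 - v.1| |z.2 - v.2|
  have h3 := le_max_left |v.1 - w.1| |v.2 - w.2|
  have h4 := le_max_right |v.1 - w.1| |v.2 - w.2|
  refine max_le ?_ ?_
  · have := abs_sub_le z.1 v.1 w.1
    linarith
  · have := abs_sub_le z.2 v.2 w.2
    linarith

theorem dd_nonneg (z v : VZ) : 0 ≤ dd z v := (abs_nonneg _).trans (le_max_left _ _)

/-- deviation from independence -/
def Dv (E : WEnv) (f : Cfg → ℝ) : ℝ := |av E.F (fun ω => f ω * E.W ω) - av E.F f * E.Z|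

theorem Dv_add : Dv E (fun ω => f ω + g ω) ≤ Dv E f + Dv E g := by
  unfold Dv
  have h1 : av E.F (fun ω => (f ω + g ω) * E.W ω) =
      av E.F (fun ω => f ω * E.W ω) + av E.F (fun ω => g ω * E.W ω) := by
    rw [← av_add]
    exact av_congr fun T _ => by ring
  rw [h1, av_add]
  refine le_trans (le_of_eq ?_) (abs_add_le _ _)
  congr 1
  ring

theorem Dv_neg : Dv E (fun ω => -f ω) = Dv E f := by
  unfold Dv
  have h1 : av E.F (fun ω => -f ω * E.W ω) = -av E.F (fun ω => f ω * E.W ω) := by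
    rw [← av_neg]
    exact av_congr fun T _ => by ring
  rw [h1, av_neg, ← abs_neg]
  congr 1
  ring

theorem Dv_sub : Dv E (fun ω => f ω - g ω) ≤ Dv E f + Dv E g := by
  have h := Dv_add (E := E) (f := f) (g := fun ω => -g ω)
  rw [Dv_neg] at h
  refine le_trans (le_of_eq ?_) h
  congr 1

theorem cls_add (E : WEnv) (B : Finset (ℤ × ℤ)) (z z' q : VZ) (ω : Cfg) :
    cls E B z z' ω = cls E B z q ω - cls E B z' q ω := by
  unfold cls
  rw [← Finset.sum_sub_distrib]
  refine Finset.sum_congr rfl fun U _ => ?_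
  push_cast
  ring

/-- one local term is nearly independent of the weight -/
theorem dv_term (hDec : RowDec) {C c : ℝ}
    (hP : ∀ (F : Finset (ℤ × ℤ)) (v : VZ) (r R : ℤ), 1 ≤ r → r < R →
      av F (fun ω => if 1 ≤ NF (F : Set (ℤ × ℤ)) v r R ω then (1 : ℝ) else 0) ≤ C * ((r : ℝ) / R) ^ c)
    {v z : VZ} {d ρ R : ℤ} {M A : ℝ} (hρ : 1 ≤ ρ) (hρR : ρ < R) (hsub : BR z R ⊆ BR v d)
    (hN : NatW E v d) (hM : Maj E v d M) (hM0 : 0 ≤ M)
    (hf : Dep ((BR z ρ : Finset (ℤ × ℤ)) : Set (ℤ × ℤ)) f) (hA : av E.F (fun ω => |f ω|) ≤ A) :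
    Dv E f ≤ 2 * A * (M * E.Z) * (C * ((ρ : ℝ) / R) ^ c) := by
  have h := hDec E v z d ρ R M f hρ hρR hsub hN hM hf
  have h1 := hP E.F z ρ R hρ hρR
  have hZ : 0 < E.Z := hM.1
  have h0 : 0 ≤ av E.F (fun ω => |f ω|) := av_nonneg fun T _ => abs_nonneg _
  have h2 : 0 ≤ av E.F (fun ω => if 1 ≤ NF (E.F : Set (ℤ × ℤ)) z ρ R ω then (1 : ℝ) else 0) :=
    av_nonneg fun T _ => by split_ifs <;> norm_num
  refine h.trans ?_
  refine mul_le_mul ?_ h1 h2 ?_
  · refine mul_le_mul_of_nonneg_right (mul_le_mul_of_nonneg_left hA (by norm_num)) (by positivity)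
  · have : 0 ≤ A := h0.trans hA
    positivity

theorem card_net (z : VZ) (m : ℤ) : ((net z m).card : ℝ) ≤ 4761 := by
  have h : (net z m).card ≤ 4761 := by
    unfold net
    refine Finset.card_image_le.trans ?_
    rw [Finset.card_product, Int.card_Icc]
    decide
  exact_mod_cast h

/-- mean of the net sum -/
theorem net_mean {C c : ℝ} (hC : 0 ≤ C) (hc : 0 ≤ c)
    (hE : ∀ (F : Finset (ℤ × ℤ)) (v : VZ) (r R : ℤ), 1 ≤ r → r < R → 2 * r ≤ R →
      av F (fun ω => (NF (F : Set (ℤ × ℤ)) v r R ω : ℝ)) ≤ C * ((r : ℝ) / R) ^ c)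
    (z : VZ) (m : ℤ) (hm : 1 ≤ m) {g : Cfg → ℝ}
    (hg : ∀ ω, |g ω| ≤ 2 * ∑ w ∈ net z m, (NF (E.F : Set (ℤ × ℤ)) w m (2 * m) ω : ℝ)) :
    av E.F (fun ω => |g ω|) ≤ 2 * 4761 * C := by
  have h1 : av E.F (fun ω => |g ω|) ≤
      av E.F (fun ω => 2 * ∑ w ∈ net z m, (NF (E.F : Set (ℤ × ℤ)) w m (2 * m) ω : ℝ)) :=
    av_mono fun T _ => hg _
  rw [av_mul, av_sum] at h1
  refine h1.trans ?_
  have h2 : ∑ w ∈ net z m, av E.F (fun ω => (NF (E.F : Set (ℤ × ℤ)) w m (2 * m) ω : ℝ)) ≤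
      ∑ _w ∈ net z m, C := by
    refine Finset.sum_le_sum fun w _ => ?_
    refine (hE E.F w m (2 * m) hm (by omega) le_rfl).trans ?_
    have h3 : ((m : ℝ) / ((2 * m : ℤ) : ℝ)) ^ c ≤ 1 := by
      refine Real.rpow_le_one (by positivity) ?_ hc
      have : (0 : ℝ) < m := by exact_mod_cast (by omega : 0 < m)
      push_cast
      rw [div_le_one (by positivity)]
      linarith
    nlinarith
  rw [Finset.sum_const, nsmul_eq_mul] at h2
  have h3 := card_net z m
  nlinarith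

/-- powers of ratios with the half radius -/
theorem half_pow {d : ℤ} {c x : ℝ} (hd : 2 ≤ d) (hc : 0 ≤ c) (hx : 0 ≤ x) :
    (x / ((d / 2 : ℤ) : ℝ)) ^ c ≤ (4 * x / d) ^ c := by
  have h1 : d ≤ 4 * (d / 2) := by omega
  have h2 : (0 : ℝ) < d := by exact_mod_cast (by omega : 0 < d)
  have h3 : (0 : ℝ) < ((d / 2 : ℤ) : ℝ) := by exact_mod_cast (by omega : 0 < d / 2)
  have h4 : (d : ℝ) ≤ 4 * ((d / 2 : ℤ) : ℝ) := by exact_mod_cast h1
  refine Real.rpow_le_rpow (by positivity) ?_ hc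
  rw [div_le_div_iff₀ h3 h2]
  nlinarith

theorem exists_scale (X : ℤ) (h : 8 ≤ X) : ∃ k : ℕ, 8 * (2 : ℤ) ^ k ≤ X ∧ X < 16 * 2 ^ k := by
  obtain ⟨n, hn⟩ := Int.eq_ofNat_of_zero_le (show 0 ≤ X / 8 by omega)
  have hn0 : n ≠ 0 := by
    rintro rfl
    simp at hn
    omega
  have h1 : 2 ^ Nat.log 2 n ≤ n := Nat.pow_log_le_self 2 hn0
  have h2 : n < 2 ^ (Nat.log 2 n + 1) := Nat.lt_pow_succ_log_self (by norm_num) n
  have h3 : (2 : ℤ) ^ Nat.log 2 n ≤ n := by exact_mod_cast h1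
  have h4 : (n : ℤ) < 2 ^ (Nat.log 2 n + 1) := by exact_mod_cast h2
  rw [pow_succ] at h4
  refine ⟨Nat.log 2 n, ?_, ?_⟩
  · have : 8 * (n : ℤ) ≤ X := by rw [← hn]; omega
    linarith
  · have : X < 8 * ((n : ℤ) + 1) := by rw [← hn]; omega
    have h5 : (n : ℤ) + 1 ≤ 2 ^ Nat.log 2 n * 2 := by omega
    linarith

/-- the deviation of the local height at one point -/
theorem dv_point (hInc : RowInc) (hDec : RowDec) (hMean : RowMean) (hBase : RowBase) :
    ∃ C c : ℝ, 0 < C ∧ 0 < c ∧ ∀ (E : WEnv) (v : VZ) (d s R : ℤ) (M : ℝ) (y q : VZ), HasPotQ ZQ E.F →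
      LocF E.F v d → Kap2 E v d → NatW E v d → Maj E v d M → 0 ≤ M → IsV E.F q → dd q v ≤ d →
      d ≤ 2 * dd q v → 1 ≤ s → 4 * s ≤ R → 64 * R ≤ d → IsV E.F y → dd y v ≤ s →
        Dv E (cls E (BR v R) y q) ≤ C * (M * E.Z) * ((R : ℝ) / d) ^ c := by
  obtain ⟨C, c, hC, hc, -, hm⟩ := hMean
  obtain ⟨Cb, hCb, hb⟩ := hBase
  have hE : ∀ (F : Finset (ℤ × ℤ)) (v : VZ) (r R : ℤ), 1 ≤ r → r < R → 2 * r ≤ R →
      av F (fun ω => (NF (F : Set (ℤ × ℤ)) v r R ω : ℝ)) ≤ C * ((r : ℝ) / R) ^ c :=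
    fun F v r R h1 h2 => (hm F v r R h1 h2).1
  have hP : ∀ (F : Finset (ℤ × ℤ)) (v : VZ) (r R : ℤ), 1 ≤ r → r < R →
      av F (fun ω => if 1 ≤ NF (F : Set (ℤ × ℤ)) v r R ω then (1 : ℝ) else 0) ≤ C * ((r : ℝ) / R) ^ c :=
    fun F v r R h1 h2 => (hm F v r R h1 h2).2
  have h2c : 1 < (2 : ℝ) ^ c := Real.one_lt_rpow (by norm_num) hc
  set A₁ : ℝ := 2 * (2 * 4761 * C) * (C * 128 ^ c) with hA₁
  have hA₁0 : 0 < A₁ := by positivity
  set A₀ : ℝ := 2 * Cb * (C * 128 ^ c) with hA₀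
  have hA₀0 : 0 < A₀ := by positivity
  set A : ℝ := A₀ + A₁ / (2 ^ c - 1) with hAdef
  have hA0 : 0 < A := by
    have : 0 < A₁ / ((2 : ℝ) ^ c - 1) := div_pos hA₁0 (by linarith)
    positivity
  have hAstep : A + A₁ ≤ A * 2 ^ c := by
    have h1 : A₁ / ((2 : ℝ) ^ c - 1) * (2 ^ c - 1) = A₁ := div_mul_cancel₀ _ (by linarith)
    have h2 : A₀ ≤ A₀ * 2 ^ c := by nlinarith
    calc A + A₁ = A₀ + A₁ / (2 ^ c - 1) + A₁ / ((2 : ℝ) ^ c - 1) * (2 ^ c - 1) := by rw [h1]
      _ = A₀ + A₁ / ((2 : ℝ) ^ c - 1) * 2 ^ c := by ring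
      _ ≤ A₀ * 2 ^ c + A₁ / ((2 : ℝ) ^ c - 1) * 2 ^ c := by linarith
      _ = A * 2 ^ c := by rw [hAdef]; ring
  refine ⟨A + A₁ + A₀, c, by positivity, hc, ?_⟩
  intro E v d s R M y q hQ hLoc hK hN hMj hM0 hq hqd hdq hs hsR hRd hy hyv
  have hZ : 0 < E.Z := hMj.1
  have hMZ : 0 ≤ M * E.Z := by positivity
  have hd : (0 : ℝ) < d := by exact_mod_cast (by omega : 0 < d)
  have hR : (0 : ℝ) < R := by exact_mod_cast (by omega : 0 < R)
  -- one term
  have hterm : ∀ (g : Cfg → ℝ) (ρ : ℤ) (B : ℝ), 1 ≤ ρ → ρ < d / 2 →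
      Dep ((BR y ρ : Finset (ℤ × ℤ)) : Set (ℤ × ℤ)) g → av E.F (fun ω => |g ω|) ≤ B →
        Dv E g ≤ 2 * B * (M * E.Z) * (C * (4 * (ρ : ℝ) / d) ^ c) := by
    intro g ρ B h1 h2 h3 h4
    have h5 := dv_term (f := g) hDec hP h1 h2 (bR_sub (by omega)) hN hMj hM0 h3 h4
    refine h5.trans ?_
    have h6 : (0 : ℝ) ≤ B := (av_nonneg fun T _ => abs_nonneg _).trans h4
    have h7 := half_pow (d := d) (c := c) (x := (ρ : ℝ)) (by omega) hc.le (by
      exact_mod_cast (by omega : 0 ≤ ρ))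
    gcongr
  have hyy : dd y y = 0 := by unfold dd; simp
  -- chain
  have hchain : ∀ (k : ℕ) (m : ℤ), m = 2 ^ k → 8 * m ≤ R - s →
      Dv E (cls E (BR y (8 * m)) y q) ≤ A * (M * E.Z) * ((m : ℝ) / d) ^ c := by
    intro k
    induction k with
    | zero =>
      intro m hm1 h8
      have hm1' : m = 1 := by rw [hm1]; norm_num
      subst hm1'
      have hbb : ∀ ω, |cls E (BR y (8 * 1)) y q ω| ≤ Cb := fun ω =>
        hb E v d y q _ ω hQ hK (bR_sub (by omega)) (bR_sub (by omega))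
      have hb1 : av E.F (fun ω => |cls E (BR y (8 * 1)) y q ω|) ≤ Cb := by
        have h0 : av E.F (fun ω => |cls E (BR y (8 * 1)) y q ω|) ≤ av E.F (fun _ => Cb) :=
          av_mono fun T _ => hbb _
        rwa [av_const] at h0
      have h1 := hterm (cls E (BR y (8 * 1)) y q) (8 * 1) Cb (by norm_num) (by omega)
        (cls_dep E (BR y (8 * 1)) y q) hb1
      refine h1.trans ?_
      have h2 : (4 * ((8 * 1 : ℤ) : ℝ) / d) ^ c ≤ 128 ^ c * (((1 : ℤ) : ℝ) / d) ^ c := by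
        rw [← Real.mul_rpow (by norm_num) (by positivity)]
        refine Real.rpow_le_rpow (by positivity) ?_ hc.le
        rw [← mul_div_assoc]
        refine div_le_div_of_nonneg_right ?_ hd.le
        norm_num
      have h3 : A₀ ≤ A := by
        rw [hAdef]
        have : 0 < A₁ / ((2 : ℝ) ^ c - 1) := div_pos hA₁0 (by linarith)
        linarith
      calc 2 * Cb * (M * E.Z) * (C * (4 * ((8 * 1 : ℤ) : ℝ) / d) ^ c)
          ≤ 2 * Cb * (M * E.Z) * (C * (128 ^ c * (((1 : ℤ) : ℝ) / d) ^ c)) := by gcongr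
        _ = A₀ * (M * E.Z) * (((1 : ℤ) : ℝ) / d) ^ c := by rw [hA₀]; ring
        _ ≤ A * (M * E.Z) * (((1 : ℤ) : ℝ) / d) ^ c := by gcongr
    | succ k ih =>
      intro m' hm' h8
      obtain ⟨m, hmdef⟩ : ∃ m : ℤ, m = 2 ^ k := ⟨_, rfl⟩
      have hpk : 1 ≤ m := by rw [hmdef]; exact one_le_pow₀ (by norm_num)
      have e2 : m' = 2 * m := by rw [hm', hmdef]; ring
      subst e2
      have ih' := ih m hmdef (by omega)
      have hinc : ∀ ω, |cls E (BR y (8 * (2 * m))) y q ω - cls E (BR y (8 * m)) y q ω| ≤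
          2 * ∑ w ∈ net y m, (NF (E.F : Set (ℤ × ℤ)) w m (2 * m) ω : ℝ) := by
        intro ω
        refine hInc E v d m y q (BR y (8 * m)) (BR y (8 * (2 * m))) ω hQ hLoc hK hpk (by omega) hy hq
          (by omega) hqd ?_ (Finset.Subset.refl _) ?_ ?_
        · have := dd_tri q y v
          have h9 := dd_symm y q
          omega
        · exact bR_sub (by omega)
        · exact bR_sub (by omega)
      have hdep : Dep ((BR y (16 * m) : Finset (ℤ × ℤ)) : Set (ℤ × ℤ))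
          (fun ω => cls E (BR y (8 * (2 * m))) y q ω - cls E (BR y (8 * m)) y q ω) := by
        intro ω ω' hω
        have g1 := (cls_dep E (BR y (8 * (2 * m))) y q).mono
          (S' := ((BR y (16 * m) : Finset (ℤ × ℤ)) : Set (ℤ × ℤ))) (by
            exact_mod_cast bR_sub (by omega)) ω ω' hω
        have g2 := (cls_dep E (BR y (8 * m)) y q).mono
          (S' := ((BR y (16 * m) : Finset (ℤ × ℤ)) : Set (ℤ × ℤ))) (by
            exact_mod_cast bR_sub (by omega)) ω ω' hω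
        show cls E (BR y (8 * (2 * m))) y q ω - cls E (BR y (8 * m)) y q ω =
          cls E (BR y (8 * (2 * m))) y q ω' - cls E (BR y (8 * m)) y q ω'
        rw [g1, g2]
      have h1 := hterm (fun ω => cls E (BR y (8 * (2 * m))) y q ω - cls E (BR y (8 * m)) y q ω)
        (16 * m) (2 * 4761 * C) (by omega) (by omega) hdep (net_mean hC.le hc.le hE y m hpk hinc)
      have h2 : Dv E (cls E (BR y (8 * (2 * m))) y q) ≤
          Dv E (cls E (BR y (8 * m)) y q) +
          Dv E (fun ω => cls E (BR y (8 * (2 * m))) y q ω - cls E (BR y (8 * m)) y q ω) := by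
        refine le_trans (le_of_eq ?_) Dv_add
        congr 1
        funext ω
        ring
      refine h2.trans ?_
      have hm0 : (0 : ℝ) < m := by exact_mod_cast (by omega : 0 < m)
      have h3 : (4 * ((16 * m : ℤ) : ℝ) / d) ^ c ≤ 128 ^ c * ((m : ℝ) / d) ^ c := by
        rw [← Real.mul_rpow (by norm_num) (by positivity)]
        refine Real.rpow_le_rpow (by push_cast; positivity) ?_ hc.le
        rw [← mul_div_assoc]
        refine div_le_div_of_nonneg_right ?_ hd.le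
        push_cast
        linarith
      have h4 : Dv E (fun ω => cls E (BR y (8 * (2 * m))) y q ω - cls E (BR y (8 * m)) y q ω) ≤
          A₁ * (M * E.Z) * ((m : ℝ) / d) ^ c := by
        refine h1.trans ?_
        calc 2 * (2 * 4761 * C) * (M * E.Z) * (C * (4 * ((16 * m : ℤ) : ℝ) / d) ^ c)
            ≤ 2 * (2 * 4761 * C) * (M * E.Z) * (C * (128 ^ c * ((m : ℝ) / d) ^ c)) := by gcongr
          _ = A₁ * (M * E.Z) * ((m : ℝ) / d) ^ c := by rw [hA₁]; ring
      have h5 : (((2 * m : ℤ) : ℝ) / d) ^ c = 2 ^ c * ((m : ℝ) / d) ^ c := by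
        rw [← Real.mul_rpow (by norm_num) (by positivity)]
        congr 1
        push_cast
        ring
      rw [h5]
      calc Dv E (cls E (BR y (8 * m)) y q) +
            Dv E (fun ω => cls E (BR y (8 * (2 * m))) y q ω - cls E (BR y (8 * m)) y q ω)
          ≤ A * (M * E.Z) * ((m : ℝ) / d) ^ c + A₁ * (M * E.Z) * ((m : ℝ) / d) ^ c :=
            add_le_add ih' h4
        _ = (A + A₁) * (M * E.Z) * ((m : ℝ) / d) ^ c := by ring
        _ ≤ (A * 2 ^ c) * (M * E.Z) * ((m : ℝ) / d) ^ c := by gcongr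
        _ = A * (M * E.Z) * (2 ^ c * ((m : ℝ) / d) ^ c) := by ring
  have hdR : (0 : ℝ) ≤ (R : ℝ) / d := by positivity
  by_cases hR16 : R < 16
  · have hbb : ∀ ω, |cls E (BR v R) y q ω| ≤ Cb := fun ω =>
      hb E v d y q _ ω hQ hK (bR_sub (by rw [dd_symm]; omega)) (bR_sub (by
        have : dd v v = 0 := by unfold dd; simp
        omega))
    have hb1 : av E.F (fun ω => |cls E (BR v R) y q ω|) ≤ Cb := by
      have h0 : av E.F (fun ω => |cls E (BR v R) y q ω|) ≤ av E.F (fun _ => Cb) :=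
        av_mono fun T _ => hbb _
      rwa [av_const] at h0
    have hdep : Dep ((BR y (2 * R) : Finset (ℤ × ℤ)) : Set (ℤ × ℤ)) (cls E (BR v R) y q) :=
      (cls_dep E (BR v R) y q).mono (by exact_mod_cast bR_sub (by rw [dd_symm]; omega))
    have h1 := hterm (cls E (BR v R) y q) (2 * R) Cb (by omega) (by omega) hdep hb1
    refine h1.trans ?_
    have h2 : (4 * ((2 * R : ℤ) : ℝ) / d) ^ c ≤ 128 ^ c * ((R : ℝ) / d) ^ c := by
      rw [← Real.mul_rpow (by norm_num) (by positivity)]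
      refine Real.rpow_le_rpow (by push_cast; positivity) ?_ hc.le
      rw [← mul_div_assoc]
      refine div_le_div_of_nonneg_right ?_ hd.le
      push_cast
      linarith
    calc 2 * Cb * (M * E.Z) * (C * (4 * ((2 * R : ℤ) : ℝ) / d) ^ c)
        ≤ 2 * Cb * (M * E.Z) * (C * (128 ^ c * ((R : ℝ) / d) ^ c)) := by gcongr
      _ = A₀ * (M * E.Z) * ((R : ℝ) / d) ^ c := by rw [hA₀]; ring
      _ ≤ (A + A₁ + A₀) * (M * E.Z) * ((R : ℝ) / d) ^ c := by
          have : A₀ ≤ A + A₁ + A₀ := by linarith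
          gcongr
  · push Not at hR16
    obtain ⟨k, hk1, hk2⟩ := exists_scale (R - s) (by omega)
    obtain ⟨m, hmdef⟩ : ∃ m : ℤ, m = 2 ^ k := ⟨_, rfl⟩
    rw [← hmdef] at hk1 hk2
    have hpk : 1 ≤ m := by rw [hmdef]; exact one_le_pow₀ (by norm_num)
    have hm0 : (0 : ℝ) < m := by exact_mod_cast (by omega : 0 < m)
    have h0 := hchain k m hmdef hk1
    have hinc : ∀ ω, |cls E (BR v R) y q ω - cls E (BR y (8 * m)) y q ω| ≤
        2 * ∑ w ∈ net y m, (NF (E.F : Set (ℤ × ℤ)) w m (2 * m) ω : ℝ) := by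
      intro ω
      refine hInc E v d m y q (BR y (8 * m)) (BR v R) ω hQ hLoc hK hpk (by omega) hy hq
        (by omega) hqd ?_ (Finset.Subset.refl _) ?_ ?_
      · have := dd_tri q y v
        have h9 := dd_symm y q
        omega
      · exact bR_sub (by omega)
      · exact bR_sub (by rw [dd_symm]; omega)
    have hdep : Dep ((BR y (32 * m) : Finset (ℤ × ℤ)) : Set (ℤ × ℤ))
        (fun ω => cls E (BR v R) y q ω - cls E (BR y (8 * m)) y q ω) := by
      intro ω ω' hω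
      have g1 := (cls_dep E (BR v R) y q).mono
        (S' := ((BR y (32 * m) : Finset (ℤ × ℤ)) : Set (ℤ × ℤ))) (by
          exact_mod_cast bR_sub (by rw [dd_symm]; omega)) ω ω' hω
      have g2 := (cls_dep E (BR y (8 * m)) y q).mono
        (S' := ((BR y (32 * m) : Finset (ℤ × ℤ)) : Set (ℤ × ℤ))) (by
          exact_mod_cast bR_sub (by omega)) ω ω' hω
      show cls E (BR v R) y q ω - cls E (BR y (8 * m)) y q ω =
        cls E (BR v R) y q ω' - cls E (BR y (8 * m)) y q ω'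
      rw [g1, g2]
    have h1 := hterm (fun ω => cls E (BR v R) y q ω - cls E (BR y (8 * m)) y q ω)
      (32 * m) (2 * 4761 * C) (by omega) (by omega) hdep (net_mean hC.le hc.le hE y m hpk hinc)
    have h2 : Dv E (cls E (BR v R) y q) ≤
        Dv E (cls E (BR y (8 * m)) y q) +
        Dv E (fun ω => cls E (BR v R) y q ω - cls E (BR y (8 * m)) y q ω) := by
      refine le_trans (le_of_eq ?_) Dv_add
      congr 1
      funext ω
      ring
    refine h2.trans ?_
    have h3 : (4 * ((32 * m : ℤ) : ℝ) / d) ^ c ≤ 128 ^ c * ((m : ℝ) / d) ^ c := by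
      rw [← Real.mul_rpow (by norm_num) (by positivity)]
      refine Real.rpow_le_rpow (by push_cast; positivity) ?_ hc.le
      rw [← mul_div_assoc]
      refine div_le_div_of_nonneg_right ?_ hd.le
      push_cast
      linarith
    have h4 : Dv E (fun ω => cls E (BR v R) y q ω - cls E (BR y (8 * m)) y q ω) ≤
        A₁ * (M * E.Z) * ((m : ℝ) / d) ^ c := by
      refine h1.trans ?_
      calc 2 * (2 * 4761 * C) * (M * E.Z) * (C * (4 * ((32 * m : ℤ) : ℝ) / d) ^ c)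
          ≤ 2 * (2 * 4761 * C) * (M * E.Z) * (C * (128 ^ c * ((m : ℝ) / d) ^ c)) := by gcongr
        _ = A₁ * (M * E.Z) * ((m : ℝ) / d) ^ c := by rw [hA₁]; ring
    have h5 : ((m : ℝ) / d) ^ c ≤ ((R : ℝ) / d) ^ c := by
      refine Real.rpow_le_rpow (by positivity) ?_ hc.le
      refine div_le_div_of_nonneg_right ?_ hd.le
      exact_mod_cast (by omega : m ≤ R)
    calc Dv E (cls E (BR y (8 * m)) y q) +
          Dv E (fun ω => cls E (BR v R) y q ω - cls E (BR y (8 * m)) y q ω)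
        ≤ A * (M * E.Z) * ((m : ℝ) / d) ^ c + A₁ * (M * E.Z) * ((m : ℝ) / d) ^ c :=
          add_le_add h0 h4
      _ = (A + A₁) * (M * E.Z) * ((m : ℝ) / d) ^ c := by ring
      _ ≤ (A + A₁ + A₀) * (M * E.Z) * ((R : ℝ) / d) ^ c := by
          have : A + A₁ ≤ A + A₁ + A₀ := by linarith
          gcongr

/-- **Theorem LD1** from the rows -/
theorem ld1 (hFar : RowFar) (hInc : RowInc) (hDec : RowDec) (hMean : RowMean) (hBase : RowBase) : LD1 := by
  obtain ⟨C₁, c₁, hC₁, hc₁, h1⟩ := dv_point hInc hDec hMean hBase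
  obtain ⟨C₂, c₂, hC₂, hc₂, -, h2⟩ := hMean
  set c := min c₁ c₂ with hcdef
  have hc : 0 < c := lt_min hc₁ hc₂
  refine ⟨2 * C₁ + 2 * C₂ * 2 ^ c₂, c, by positivity, hc, ?_⟩
  intro E v d s R M z z' hQ hLoc hK hN hMj hM0 hfar hs hsR hRd hz hz' hzv hzv'
  obtain ⟨q, hq, hqd, hdq⟩ := hfar
  have hZ : 0 < E.Z := hMj.1
  have hMZ : 0 ≤ M * E.Z := by positivity
  have hd : (0 : ℝ) < d := by exact_mod_cast (by omega : 0 < d)
  have hR : (0 : ℝ) < R := by exact_mod_cast (by omega : 0 < R)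
  have hs' : (0 : ℝ) < s := by exact_mod_cast (by omega : 0 < s)
  have hPos : Pos E (BR v R) := by
    intro a ha b hb h3 h4
    have hsub : BR v R ⊆ BR v d := bR_sub (by
      have : dd v v = 0 := by unfold dd; simp
      omega)
    rw [hN a ha b hb (h3.mono hsub) (h4.mono hsub)]
    exact one_ne_zero
  -- splitting
  have hsplit : av E.F (fun ω => HS E ω z - HS E ω z') =
      av E.F (fun ω => cls E (BR v R) z z' ω * E.W ω) + av E.F (far E (BR v R) z z') := by
    rw [← av_add]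
    exact av_congr fun T _ => HS_split hPos z z'
  -- far part
  have hfarb : |av E.F (far E (BR v R) z z')| ≤ 2 * C₂ * 2 ^ c₂ * (M * E.Z) * ((s : ℝ) / R) ^ c := by
    obtain ⟨-, H, hH1, hH2, hH3, hH4⟩ := hMj
    have h3 : ∀ ω, |far E (BR v R) z z' ω| ≤
        2 * (H ω * (NF (E.F : Set (ℤ × ℤ)) v (2 * s) R ω : ℝ)) := by
      intro ω
      have h4 := hFar E v (2 * s) R z z' (2 * H ω) ω hQ
        (by have := abs_nonneg (E.W ω); have := hH2 ω; linarith) (by omega) (by omega)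
        (hLoc.join s z z' hs (by omega) hz hz' hzv hzv') (fun e he => hH3 ω e ?_)
      · linarith
      · refine dE_mono ?_ he
        refine Finset.inter_subset_inter_left (bR_sub ?_)
        have : dd v v = 0 := by unfold dd; simp
        omega
    have h4 : |av E.F (far E (BR v R) z z')| ≤
        av E.F (fun ω => 2 * (H ω * (NF (E.F : Set (ℤ × ℤ)) v (2 * s) R ω : ℝ))) :=
      abs_av_le fun T _ => h3 _
    rw [av_mul, av_indep' (S₁ := E.F \ BR v d) (S₂ := E.F ∩ An v (2 * s) R) ?_ hH1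
      (dep_NF E.F v (2 * s) R (fun n => (n : ℝ))) Finset.sdiff_subset inter_subset_left] at h4
    · have h5 := (h2 E.F v (2 * s) R (by omega) (by omega)).1 (by omega)
      have h6 : 0 ≤ av E.F (fun ω => (NF (E.F : Set (ℤ × ℤ)) v (2 * s) R ω : ℝ)) :=
        av_nonneg fun T _ => by positivity
      have h7 : ((((2 * s : ℤ)) : ℝ) / R) ^ c₂ = 2 ^ c₂ * ((s : ℝ) / R) ^ c₂ := by
        rw [← Real.mul_rpow (by norm_num) (by positivity)]
        congr 1
        push_cast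
        ring
      have h8 : ((s : ℝ) / R) ^ c₂ ≤ ((s : ℝ) / R) ^ c := by
        refine Real.rpow_le_rpow_of_exponent_ge (by positivity) ?_ (min_le_right _ _)
        rw [div_le_one hR]
        exact_mod_cast (by omega : s ≤ R)
      rw [h7] at h5
      refine h4.trans ?_
      calc 2 * (av E.F H * av E.F (fun ω => (NF (E.F : Set (ℤ × ℤ)) v (2 * s) R ω : ℝ)))
          ≤ 2 * ((M * E.Z) * (C₂ * (2 ^ c₂ * ((s : ℝ) / R) ^ c))) := by
            gcongr
            exact h5.trans (by gcongr)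
        _ = _ := by ring
    · rw [Finset.disjoint_left]
      intro f hf hf'
      refine (Finset.mem_sdiff.1 hf).2 ?_
      refine bR_sub ?_ (an_sub_BR (Finset.mem_inter.1 hf').2)
      have : dd v v = 0 := by unfold dd; simp
      omega
  -- local part
  have hloc : Dv E (cls E (BR v R) z z') ≤ 2 * C₁ * (M * E.Z) * ((R : ℝ) / d) ^ c := by
    have h3 := h1 E v d s R M z q hQ hLoc hK hN hMj hM0 hq hqd hdq hs hsR hRd hz hzv
    have h4 := h1 E v d s R M z' q hQ hLoc hK hN hMj hM0 hq hqd hdq hs hsR hRd hz' hzv'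
    have h5 : Dv E (cls E (BR v R) z z') ≤ Dv E (cls E (BR v R) z q) + Dv E (cls E (BR v R) z' q) := by
      refine le_trans (le_of_eq ?_) Dv_sub
      congr 1
      funext ω
      exact cls_add E _ z z' q ω
    have h8 : ((R : ℝ) / d) ^ c₁ ≤ ((R : ℝ) / d) ^ c := by
      refine Real.rpow_le_rpow_of_exponent_ge (by positivity) ?_ (min_le_left _ _)
      rw [div_le_one hd]
      exact_mod_cast (by omega : R ≤ d)
    calc Dv E (cls E (BR v R) z z') ≤ _ := h5.trans (add_le_add h3 h4)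
      _ = 2 * C₁ * (M * E.Z) * ((R : ℝ) / d) ^ c₁ := by ring
      _ ≤ _ := by gcongr
  rw [hsplit]
  have e : av E.F (fun ω => cls E (BR v R) z z' ω * E.W ω) + av E.F (far E (BR v R) z z') -
      av E.F (cls E (BR v R) z z') * E.Z =
      (av E.F (fun ω => cls E (BR v R) z z' ω * E.W ω) - av E.F (cls E (BR v R) z z') * E.Z) +
        av E.F (far E (BR v R) z z') := by ring
  rw [e]
  refine (abs_add_le _ _).trans ?_
  unfold Dv at hloc
  refine (add_le_add hloc hfarb).trans ?_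
  have hx : 0 ≤ ((s : ℝ) / R) ^ c := by positivity
  have hy : 0 ≤ ((R : ℝ) / d) ^ c := by positivity
  have hp : (0 : ℝ) < 2 ^ c₂ := by positivity
  have h9 : 0 ≤ 2 * C₂ * 2 ^ c₂ * (M * E.Z) * ((R : ℝ) / d) ^ c := by positivity
  have h10 : 0 ≤ 2 * C₁ * (M * E.Z) * ((s : ℝ) / R) ^ c := by positivity
  nlinarith

end

end Pool.Agent.SixB.GG
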