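import Pool.Agent.Lib.SixB.S6GDefs
import Pool.Agent.Lib.SixB.S6LPerc

/-!
# 6BD block CA, rows S6G: means of crossing numbers (`RowMean`)
-/

set_option autoImplicit false

namespace Pool.Agent.SixB.GG

open Finset Pool.Agent.Perc Pool.Agent.PercD Pool.Agent.PercN Tilt HG Relation

noncomputable section

variable {F : Finset (ℤ × ℤ)} {v : VZ} {r R : ℤ}

/-- `NF` depends on the faces of `F` in the annulus -/
theorem dep_NF (F : Finset (ℤ × ℤ)) (v : VZ) (r R : ℤ) {α : Type} (g : ℕ → α) :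
    Dep ((F ∩ An v r R : Finset (ℤ × ℤ)) : Set (ℤ × ℤ)) (fun ω : Cfg => g (NF (F : Set (ℤ × ℤ)) v r R ω)) := by
  classical
  intro ω ω' h
  have : NF (F : Set (ℤ × ℤ)) v r R ω = NF (F : Set (ℤ × ℤ)) v r R ω' := by
    unfold NF
    congr 1
    ext b
    rw [mem_filter, mem_filter,
      MM_congr' (ω := ω) (ω' := ω') (F := (F : Set (ℤ × ℤ)) ∩ (An v r R : Set (ℤ × ℤ))) fun f hf =>
        h f (by push_cast; exact hf)]
  exact congrArg g this

/-- averages of functions of `NF` can be taken in any window -/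
theorem av_NF {W : Finset (ℤ × ℤ)} (hW : F ∩ An v r R ⊆ W) (g : ℕ → ℝ) :
    av F (fun ω : Cfg => g (NF (F : Set (ℤ × ℤ)) v r R ω)) =
      av W (fun ω : Cfg => g (NF (F : Set (ℤ × ℤ)) v r R ω)) := by
  rw [av_dep (dep_NF F v r R g) inter_subset_left, av_dep (dep_NF F v r R g) hW]

theorem an_sub_BR : An v r R ⊆ BR v R := by
  intro f hf
  exact (mem_An.1 hf).1

theorem disj_an {s : ℤ} : Disjoint (An v r s) (An v s R) := by
  rw [Finset.disjoint_left]
  intro f h1 h2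
  exact (mem_An.1 h2).2 (mem_An.1 h1).1

/-- mean of the number of crossings of an annulus of ratio 2 -/
theorem mean_two : ∃ C : ℝ, 1 ≤ C ∧ ∀ (F : Finset (ℤ × ℤ)) (v : VZ) (r : ℤ), 1 ≤ r →
    av F (fun ω : Cfg => (NF (F : Set (ℤ × ℤ)) v r (2 * r) ω : ℝ)) ≤ C := by
  obtain ⟨C, hC, h⟩ := NF_moment 1 (lam := 2) (by norm_num)
  refine ⟨max C 1, le_max_right _ _, fun F v r hr => le_trans ?_ (le_max_left _ _)⟩
  have h1 := h (F : Set (ℤ × ℤ)) v r (2 * r) (BR v (2 * r)) (by omega) (by omega) (by push_cast; omega)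
    (Finset.Subset.refl _)
  rw [av_NF (W := BR v (2 * r)) (inter_subset_right.trans an_sub_BR) (fun n => (n : ℝ))]
  refine le_trans ?_ h1
  unfold av
  refine div_le_div_of_nonneg_right (Finset.sum_le_sum fun T _ => ?_) (by positivity)
  have h2 : (ind T : Cfg) = cfg T := by
    funext f
    unfold ind cfg
    rfl
  rw [h2]
  have h3 : NF (F : Set (ℤ × ℤ)) v r (2 * r) (cfg T) ≤ 2 ^ NF (F : Set (ℤ × ℤ)) v r (2 * r) (cfg T) :=
    (Nat.lt_two_pow_self).le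
  show (NF (F : Set (ℤ × ℤ)) v r (2 * r) (cfg T) : ℝ) ≤ 2 ^ NF (F : Set (ℤ × ℤ)) v r (2 * r) (cfg T)
  exact_mod_cast h3

/-- probability of one crossing -/
theorem mean_pos : ∃ C : ℝ, 1 ≤ C ∧ ∀ (F : Finset (ℤ × ℤ)) (v : VZ) (r R : ℤ), 1 ≤ r → r ≤ R →
    av F (fun ω : Cfg => if 1 ≤ NF (F : Set (ℤ × ℤ)) v r R ω then (1 : ℝ) else 0) ≤
      C * ((r : ℝ) / R) ^ (1 / 4 : ℝ) := by
  classical
  obtain ⟨C, hC, h⟩ := pr_NF_pos
  refine ⟨max C 1, le_max_right _ _, fun F v r R hr hrR => ?_⟩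
  obtain ⟨r', rfl⟩ := Int.eq_ofNat_of_zero_le (show 0 ≤ r by omega)
  obtain ⟨R', rfl⟩ := Int.eq_ofNat_of_zero_le (show 0 ≤ R by omega)
  rw [av_NF (W := BR v (R' : ℤ)) (inter_subset_right.trans an_sub_BR) (fun n => if 1 ≤ n then (1 : ℝ) else 0)]
  have h1 := h (F : Set (ℤ × ℤ)) v r' R' (BR v (R' : ℤ)) (by exact_mod_cast hr) (by exact_mod_cast hrR)
    (Finset.Subset.refl _)
  rw [pr_eq_av] at h1
  refine le_trans (le_of_eq ?_) (h1.trans ?_)
  · exact av_congr fun T _ => by simp only [Set.mem_ofPred_eq]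
  · push_cast
    refine mul_le_mul_of_nonneg_right (le_max_left _ _) (by positivity)

/-- **RowMean** -/
theorem rowMean : RowMean := by
  classical
  obtain ⟨C₀, hC₀, h0⟩ := mean_two
  obtain ⟨C₁, hC₁, h1⟩ := mean_pos
  have h4 : (1 : ℝ) ≤ 4 ^ (1 / 4 : ℝ) := Real.one_le_rpow (by norm_num) (by norm_num)
  have h2 : (1 : ℝ) ≤ 2 ^ (1 / 4 : ℝ) := Real.one_le_rpow (by norm_num) (by norm_num)
  refine ⟨C₀ * C₁ * 4 ^ (1 / 4 : ℝ) * 2 ^ (1 / 4 : ℝ), 1 / 4, by positivity, by norm_num, by norm_num,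
    fun F v r R hr hrR => ⟨fun h2r => ?_, ?_⟩⟩
  · have hR : (0 : ℝ) < R := by exact_mod_cast (by omega : 0 < R)
    have hr' : (0 : ℝ) < r := by exact_mod_cast (by omega : 0 < r)
    by_cases h3 : R < 4 * r
    · have h5 : av F (fun ω : Cfg => (NF (F : Set (ℤ × ℤ)) v r R ω : ℝ)) ≤
          av F (fun ω : Cfg => (NF (F : Set (ℤ × ℤ)) v r (2 * r) ω : ℝ)) := by
        refine av_mono fun T _ => ?_
        exact_mod_cast NF_annulus (F : Set (ℤ × ℤ)) (by omega) (by omega) (Sub.refl' (le_refl r))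
          (Sub.refl' h2r) (by omega) _
      refine h5.trans ((h0 F v r hr).trans ?_)
      have h6 : (1 : ℝ) ≤ 4 ^ (1 / 4 : ℝ) * ((r : ℝ) / R) ^ (1 / 4 : ℝ) := by
        rw [← Real.mul_rpow (by norm_num) (by positivity)]
        refine Real.one_le_rpow ?_ (by norm_num)
        rw [← mul_div_assoc, le_div_iff₀ hR]
        have : (R : ℝ) < 4 * r := by exact_mod_cast h3
        linarith
      have h7 : (1 : ℝ) ≤ C₁ * 2 ^ (1 / 4 : ℝ) := by nlinarith
      calc C₀ = C₀ * 1 * 1 := by ring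
        _ ≤ C₀ * (C₁ * 2 ^ (1 / 4 : ℝ)) * (4 ^ (1 / 4 : ℝ) * ((r : ℝ) / R) ^ (1 / 4 : ℝ)) := by
            gcongr
        _ = _ := by ring
    · push Not at h3
      have h5 : av F (fun ω : Cfg => (NF (F : Set (ℤ × ℤ)) v r R ω : ℝ)) ≤
          av F (fun ω : Cfg => (NF (F : Set (ℤ × ℤ)) v r (2 * r) ω : ℝ) *
            (if 1 ≤ NF (F : Set (ℤ × ℤ)) v (2 * r) R ω then (1 : ℝ) else 0)) := by
        refine av_mono fun T _ => ?_
        have h6 := NF_annulus (F : Set (ℤ × ℤ)) (r := r) (R := R) (r' := r) (R' := 2 * r) (v := v) (v' := v)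
          (by omega) (by omega) (Sub.refl' (le_refl r)) (Sub.refl' (by omega)) (by omega) (ind T)
        have h7 := NF_annulus (F : Set (ℤ × ℤ)) (r := r) (R := R) (r' := 2 * r) (R' := R) (v := v) (v' := v)
          (by omega) (by omega) (Sub.refl' (by omega)) (Sub.refl' (le_refl R)) (by omega) (ind T)
        by_cases h8 : 1 ≤ NF (F : Set (ℤ × ℤ)) v (2 * r) R (ind T)
        · rw [if_pos h8, mul_one]
          exact_mod_cast h6
        · have h9 : NF (F : Set (ℤ × ℤ)) v r R (ind T) = 0 := by omega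
          rw [if_neg h8, h9]
          simp
      have h6 : av F (fun ω : Cfg => (NF (F : Set (ℤ × ℤ)) v r (2 * r) ω : ℝ) *
            (if 1 ≤ NF (F : Set (ℤ × ℤ)) v (2 * r) R ω then (1 : ℝ) else 0)) =
          av F (fun ω : Cfg => (NF (F : Set (ℤ × ℤ)) v r (2 * r) ω : ℝ)) *
            av F (fun ω : Cfg => if 1 ≤ NF (F : Set (ℤ × ℤ)) v (2 * r) R ω then (1 : ℝ) else 0) := by
        refine av_indep' (S₁ := F ∩ An v r (2 * r)) (S₂ := F ∩ An v (2 * r) R) ?_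
          (dep_NF F v r (2 * r) (fun n => (n : ℝ)))
          (dep_NF F v (2 * r) R (fun n => if 1 ≤ n then (1 : ℝ) else 0)) inter_subset_left inter_subset_left
        exact disj_an.mono inter_subset_right inter_subset_right
      rw [h6] at h5
      refine h5.trans ?_
      have h7 := h1 F v (2 * r) R (by omega) (by omega)
      have h8 := h0 F v r hr
      have h9 : 0 ≤ av F (fun ω : Cfg => (if 1 ≤ NF (F : Set (ℤ × ℤ)) v (2 * r) R ω then (1 : ℝ) else 0)) :=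
        av_nonneg fun T _ => by split_ifs <;> norm_num
      have e1 : (((2 * r : ℤ) : ℝ) / R) ^ (1 / 4 : ℝ) = 2 ^ (1 / 4 : ℝ) * ((r : ℝ) / R) ^ (1 / 4 : ℝ) := by
        rw [← Real.mul_rpow (by norm_num) (by positivity)]
        congr 1
        push_cast
        ring
      rw [e1] at h7
      calc av F (fun ω : Cfg => (NF (F : Set (ℤ × ℤ)) v r (2 * r) ω : ℝ)) *
            av F (fun ω : Cfg => if 1 ≤ NF (F : Set (ℤ × ℤ)) v (2 * r) R ω then (1 : ℝ) else 0)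
          ≤ C₀ * (C₁ * (2 ^ (1 / 4 : ℝ) * ((r : ℝ) / R) ^ (1 / 4 : ℝ))) :=
            mul_le_mul h8 h7 h9 (by positivity)
        _ = C₀ * C₁ * 1 * 2 ^ (1 / 4 : ℝ) * ((r : ℝ) / R) ^ (1 / 4 : ℝ) := by ring
        _ ≤ C₀ * C₁ * 4 ^ (1 / 4 : ℝ) * 2 ^ (1 / 4 : ℝ) * ((r : ℝ) / R) ^ (1 / 4 : ℝ) := by
            gcongr
  · have h3 := h1 F v r R hr hrR.le
    have hR : (0 : ℝ) < R := by exact_mod_cast (by omega : 0 < R)
    have hr' : (0 : ℝ) < r := by exact_mod_cast (by omega : 0 < r)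
    refine h3.trans ?_
    have : C₁ ≤ C₀ * C₁ * 4 ^ (1 / 4 : ℝ) * 2 ^ (1 / 4 : ℝ) := by
      calc C₁ = 1 * C₁ * 1 * 1 := by ring
        _ ≤ _ := by gcongr
    exact mul_le_mul_of_nonneg_right this (by positivity)

end

end Pool.Agent.SixB.GG
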