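import Pool.Agent.Lib.SixB.S6GFar
import Pool.Agent.Lib.SixB.S6GDec
import Pool.Agent.Lib.SixB.S6GMean
import Pool.Agent.Lib.SixB.S6GLoc

/-!
# 6BD block CA: theorem LD1

The assembly `ld1` with all rows.
-/

set_option autoImplicit false

namespace Pool.Agent.SixB.GG

/-- **Theorem LD1** -/
theorem ld1_holds : LD1 :=
  ld1 (rowFar rowCount) (rowInc rowCount) (rowDec rowNoLeg) rowMean rowBase

end Pool.Agent.SixB.GG
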