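import Pool.Agent.Lib.SixB.S6GFld
import Pool.Agent.Lib.SixB.S6GGeo
import Pool.Agent.Lib.SixB.S6GLD
import Pool.Agent.Lib.SixB.CAGeo

/-!
# 6BD block CA: the field `nnG` (logarithmic growth at the base)

* `short_flat`: near a flat mark `p`, two points of the contour in the ball of radius `|v - p| / 4` about `v` bound a
  short piece which stays at distance `|v - p| / 4` from the marks.
* `same_of_short`: the same weights of two contour environments in a box.
* `step_bd`: the difference of two natural functions varies by a constant on the ball of radius `κ |v - p|` about `v`.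
* `nnG`: chain of the points `p + λ ^ k (z - p)`.
-/

set_option autoImplicit false
set_option linter.unusedSectionVars false

namespace Pool.Agent.SixB.GG

open Pool.Agent.Perc Pool.Agent.Perc.Q Pool.Agent.PercD Relation Filter Topology CARf

noncomputable section

variable {P : Finset (ℤ × ℤ)} {L : ℕ} {g : ℤ → ℤ × ℤ}

theorem norm_dir {ν : ℂ} (h : IsDir ν) : ‖-Complex.I * ν‖ = 1 := by
  rcases h with rfl | rfl | rfl | rfl <;> simp

/-- **short pieces near a flat mark, scaled** -/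
theorem short_flat (hc : Cont P L g) {s : ℝ} (s' : ℝ) (hs : Fl g s) :
    ∃ δ : ℝ, 0 < δ ∧ ∀ v : ℂ, 0 < ‖v - gam g s‖ → ‖v - gam g s‖ < δ → ∀ x y : ℝ, x < y → y < x + L →
      ‖gam g x - v‖ < ‖v - gam g s‖ / 4 → ‖gam g y - v‖ < ‖v - gam g s‖ / 4 →
      (∀ u, x < u → u ≤ y → ∀ t ∈ ({s, s'} : Finset ℝ), ∀ q : ℤ, ‖v - gam g s‖ / 4 ≤ |u - t - q * L|) ∨
      (∀ u, y < u → u ≤ x + L → ∀ t ∈ ({s, s'} : Finset ℝ), ∀ q : ℤ,
        ‖v - gam g s‖ / 4 ≤ |u - t - q * L|) := by
  have hL : (0 : ℝ) < L := by exact_mod_cast hc.pos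
  obtain ⟨ν, hν, δ₀, hδ₀, hlin⟩ := wall_tau hc hs
  set p := gam g s with hp
  have hτ := norm_dir hν.1
  set τ := -Complex.I * ν with hτdef
  obtain ⟨ε, hε, hε1, hε2⟩ : ∃ ε : ℝ, 0 < ε ∧ ε ≤ δ₀ ∧ ε ≤ L / 4 :=
    ⟨min δ₀ (L / 4), lt_min hδ₀ (by linarith), min_le_left _ _, min_le_right _ _⟩
  obtain ⟨η, hη, hnear⟩ := gam_near hc s hε
  -- the distance of the other mark
  obtain ⟨D', hD', hs'⟩ : ∃ D' : ℝ, 0 < D' ∧ ((∃ m : ℤ, s' = s + m * L) ∨ D' ≤ ‖gam g s' - p‖) := by
    by_cases h : gam g s' = p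
    · obtain ⟨m, hm⟩ := gam_inj hc (h.trans hp)
      exact ⟨1, one_pos, Or.inl ⟨m, by linarith⟩⟩
    · exact ⟨‖gam g s' - p‖, norm_pos_iff.2 (sub_ne_zero.2 h), Or.inr le_rfl⟩
  refine ⟨min (η / 2) (D' / 2), lt_min (by linarith) (by linarith), fun v hv0 hv x y hxy hyx hx hy => ?_⟩
  set d := ‖v - p‖ with hd
  have hd1 : d < η / 2 := hv.trans_le (min_le_left _ _)
  have hd2 : d < D' / 2 := hv.trans_le (min_le_right _ _)
  -- the parameter of a point of the contour near `v`
  have par : ∀ x : ℝ, ‖gam g x - v‖ < d / 4 → ∃ q : ℤ, |x - s - q * L| < ε ∧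
      gam g x = p + ((x - s - q * L : ℝ) : ℂ) * τ ∧ 3 * d / 4 < |x - s - q * L| ∧
      |x - s - q * L| < 5 * d / 4 := by
    intro x hx
    have h1 : ‖gam g x - p‖ < 5 * d / 4 := by
      have : gam g x - p = (gam g x - v) + (v - p) := by ring
      rw [this]
      refine (norm_add_le _ _).trans_lt ?_
      rw [← hd]
      linarith
    have h2 : 3 * d / 4 < ‖gam g x - p‖ := by
      have : v - p = (gam g x - p) - (gam g x - v) := by ring
      have h3 := norm_sub_le (gam g x - p) (gam g x - v)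
      rw [← this, ← hd] at h3
      linarith
    obtain ⟨q, hq⟩ := hnear x (by linarith)
    have h3 : gam g x = gam g (x - q * L) := by
      have := gam_perz hc (x - q * L) q
      rw [← this]
      congr 1
      ring
    have h4 := hlin (x - q * L) (by rw [show x - q * L - s = x - s - q * L by ring]; linarith)
    rw [← h3, show x - q * L - s = x - s - q * L by ring] at h4
    refine ⟨q, hq, h4, ?_, ?_⟩
    · rw [h4, add_sub_cancel_left, norm_mul, hτ, mul_one, Complex.norm_real, Real.norm_eq_abs] at h2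
      exact h2
    · rw [h4, add_sub_cancel_left, norm_mul, hτ, mul_one, Complex.norm_real, Real.norm_eq_abs] at h1
      exact h1
  obtain ⟨q, hq, hgx, hx1, hx2⟩ := par x hx
  obtain ⟨q', hq', hgy, hy1, hy2⟩ := par y hy
  -- the two parameters are on the same side
  have hxy' : |(x - s - q * L) - (y - s - q' * L)| < d / 2 := by
    have h1 : gam g x - gam g y = (((x - s - q * L) - (y - s - q' * L) : ℝ) : ℂ) * τ := by
      rw [hgx, hgy]
      push_cast
      ring
    have h2 : ‖gam g x - gam g y‖ < d / 2 := by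
      have : gam g x - gam g y = (gam g x - v) - (gam g y - v) := by ring
      rw [this]
      refine (norm_sub_le _ _).trans_lt (by linarith)
    rw [h1, norm_mul, hτ, mul_one, Complex.norm_real, Real.norm_eq_abs] at h2
    exact h2
  have hdL : 3 * d / 4 < L / 4 := hx1.trans (hq.trans_le hε2)
  -- the final estimate
  have fin : ∀ (u : ℝ) (q₀ : ℤ), 3 * d / 4 < |u - s - q₀ * L| → |u - s - q₀ * L| < 5 * d / 4 →
      |u - s - q₀ * L| < ε → ∀ t ∈ ({s, s'} : Finset ℝ), ∀ r : ℤ, d / 4 ≤ |u - t - r * L| := by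
    intro u q₀ h1 h2 h3 t ht r
    have key : ∀ r : ℤ, d / 4 ≤ |u - s - r * L| := by
      intro r
      by_cases hr : r = q₀
      · rw [hr]; linarith
      · have h4 : (L : ℝ) ≤ |((q₀ : ℝ) - r) * L| := by
          rw [abs_mul, abs_of_pos hL]
          have h5 : 1 ≤ |q₀ - r| := Int.one_le_abs (sub_ne_zero.2 (Ne.symm hr))
          have h6 : (1 : ℝ) ≤ |(q₀ : ℝ) - r| := by exact_mod_cast h5
          nlinarith
        have h5 : ((q₀ : ℝ) - r) * L = (u - s - r * L) - (u - s - q₀ * L) := by ring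
        rw [h5] at h4
        have h6 := abs_sub (u - s - r * L) (u - s - q₀ * L)
        linarith
    rw [Finset.mem_insert, Finset.mem_singleton] at ht
    rcases ht with rfl | rfl
    · exact key r
    · rcases hs' with ⟨m, hm⟩ | hs'
      · have := key (m + r)
        rw [hm]
        have e : u - (s + m * L) - r * L = u - s - ((m + r : ℤ) : ℝ) * L := by push_cast; ring
        rw [e]
        exact this
      · have h4 := gam_lip hc (t + r * L) u
        rw [gam_perz hc] at h4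
        have h5 : ‖gam g u - p‖ = |u - s - q₀ * L| := by
          have h6 : gam g u = gam g (u - q₀ * L) := by
            have := gam_perz hc (u - q₀ * L) q₀
            rw [← this]
            congr 1
            ring
          have h7 := hlin (u - q₀ * L) (by rw [show u - q₀ * L - s = u - s - q₀ * L by ring]; linarith)
          rw [h6, h7, add_sub_cancel_left, norm_mul, hτ, mul_one, Complex.norm_real, Real.norm_eq_abs]
          congr 1
          ring
        have h6 : ‖gam g t - p‖ ≤ ‖gam g u - gam g t‖ + ‖gam g u - p‖ := by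
          have : gam g t - p = -(gam g u - gam g t) + (gam g u - p) := by ring
          rw [this]
          refine (norm_add_le _ _).trans ?_
          rw [norm_neg]
        have h7 : u - (t + r * L) = u - t - r * L := by ring
        rw [h7] at h4
        linarith
  -- the number of periods
  rw [abs_lt] at hq hq' hxy'
  have k1 : ((q' : ℝ) - q) * L < 2 * L := by linarith [hq.2, hq'.1]
  have k2 : (-1 : ℝ) * L < ((q' : ℝ) - q) * L := by linarith [hq.1, hq'.2]
  have k3 := lt_of_mul_lt_mul_right k1 hL.le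
  have k4 := lt_of_mul_lt_mul_right k2 hL.le
  have k5 : q' - q < 2 := by exact_mod_cast k3
  have k6 : -1 < q' - q := by exact_mod_cast k4
  -- both positive or both negative
  have sgn : (3 * d / 4 < x - s - q * L ∧ x - s - q * L < 5 * d / 4 ∧ 3 * d / 4 < y - s - q' * L ∧
      y - s - q' * L < 5 * d / 4) ∨ (x - s - q * L < -(3 * d / 4) ∧ -(5 * d / 4) < x - s - q * L ∧
      y - s - q' * L < -(3 * d / 4) ∧ -(5 * d / 4) < y - s - q' * L) := by
    rw [abs_lt] at hx2 hy2
    rcases lt_abs.1 hx1 with a | a <;> rcases lt_abs.1 hy1 with b | b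
    · exact Or.inl ⟨a, hx2.2, b, hy2.2⟩
    · exfalso; linarith [hxy'.2]
    · exfalso; linarith [hxy'.1]
    · exact Or.inr ⟨by linarith, hx2.1, by linarith, hy2.1⟩
  rcases (show q' = q ∨ q' = q + 1 by omega) with rfl | rfl
  · left
    intro u hu hu'
    refine fin u q' ?_ ?_ ?_
    · rcases sgn with ⟨a, b, c, e⟩ | ⟨a, b, c, e⟩
      · exact lt_abs.2 (Or.inl (by linarith))
      · exact lt_abs.2 (Or.inr (by linarith))
    · rw [abs_lt]
      rcases sgn with ⟨a, b, c, e⟩ | ⟨a, b, c, e⟩ <;> constructor <;> linarith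
    · rw [abs_lt]
      constructor <;> linarith [hq.1, hq'.2]
  · right
    intro u hu hu'
    push_cast at hq' sgn
    refine fin u (q + 1) ?_ ?_ ?_
    · push_cast
      rcases sgn with ⟨a, b, c, e⟩ | ⟨a, b, c, e⟩
      · exact lt_abs.2 (Or.inl (by linarith))
      · exact lt_abs.2 (Or.inr (by linarith))
    · push_cast
      rw [abs_lt]
      rcases sgn with ⟨a, b, c, e⟩ | ⟨a, b, c, e⟩ <;> constructor <;> linarith
    · push_cast
      rw [abs_lt]
      constructor <;> linarith [hq.2, hq'.1]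

/-- the same local weights, from short pieces -/
theorem same_of_short (hP : MPoly P) (hc : Cont P L g) {n : ℕ} (hn : 0 < n) {B : Finset (ℤ × ℤ)}
    {T : Finset ℝ} {ρ : ℝ}
    (hs : ∀ i k : ℤ, i < k → k < i + n * L → Tilt.Ah ZQ B (csd (gr n g) i) →
      Tilt.Ah ZQ B (csd (gr n g) k) →
      (∀ v : ℤ, i < v → v ≤ k → ∀ t ∈ T, ∀ q : ℤ, ρ ≤ |(v : ℝ) / n - t - q * L|) ∨
      (∀ v : ℤ, k < v → v ≤ i + n * L → ∀ t ∈ T, ∀ q : ℤ, ρ ≤ |(v : ℝ) / n - t - q * L|))
    {j j' : ℤ → ℝ} (hj : ∀ v, j (v + (n * L : ℕ)) = j v) (hj' : ∀ v, j' (v + (n * L : ℕ)) = j' v)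
    (h0 : csum j 0 (n * L : ℕ) = Real.pi / 3) (h0' : csum j' 0 (n * L : ℕ) = Real.pi / 3)
    (hd : ∀ v : ℤ, j v ≠ j' v → ∃ t ∈ T, ∃ q : ℤ, |(v : ℝ) / n - t - q * L| < ρ) :
    SameL (cenv (rf n P) (gr n g) (n * L) j) (cenv (rf n P) (gr n g) (n * L) j') B := by
  have hcn := cont_rf hc hn
  have hPn := mpoly_rf hP hn
  have heq : ∀ i k : ℤ, i < k → k < i + n * L → Tilt.Ah ZQ B (csd (gr n g) i) →
      Tilt.Ah ZQ B (csd (gr n g) k) → csum j i k = csum j' i k := by
    intro i k hik hki hi hk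
    have hjj : ∀ v : ℤ, (∀ t ∈ T, ∀ q : ℤ, ρ ≤ |(v : ℝ) / n - t - q * L|) → j v = j' v := by
      intro v hv
      by_contra hne
      obtain ⟨t, ht, q, hq⟩ := hd v hne
      exact absurd hq (not_lt.mpr (hv t ht q))
    rcases hs i k hik hki hi hk with h1 | h1
    · exact csum_eq_of fun v hv hv' => hjj v (h1 v hv hv')
    · have e1 := csum_add j hik.le hki.le
      have e2 := csum_add j' hik.le hki.le
      have e3 := csum_period hj h0 i
      have e4 := csum_period hj' h0' i
      push_cast at e3 e4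
      have e5 : csum j k (i + n * L) = csum j' k (i + n * L) :=
        csum_eq_of fun v hv hv' => hjj v (h1 v hv hv')
      linarith
  have hlt : ∀ i k : ℤ, i < k → k < i + n * L → Tilt.Ah ZQ B (csd (gr n g) i) →
      Tilt.Ah ZQ B (csd (gr n g) k) →
      (cenv (rf n P) (gr n g) (n * L) j').t (csd (gr n g) i) (csd (gr n g) k) =
        (cenv (rf n P) (gr n g) (n * L) j).t (csd (gr n g) i) (csd (gr n g) k) ∧
      (cenv (rf n P) (gr n g) (n * L) j').s (csd (gr n g) i) (csd (gr n g) k) =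
        (cenv (rf n P) (gr n g) (n * L) j).s (csd (gr n g) i) (csd (gr n g) k) := by
    intro i k hik hki hi hk
    have hki' : k < i + (n * L : ℕ) := by push_cast; exact hki
    obtain ⟨a1, a2⟩ := cenv_ts (F := rf n P) hcn hj h0 hik hki'
    obtain ⟨b1, b2⟩ := cenv_ts (F := rf n P) hcn hj' h0' hik hki'
    rw [a1, a2, b1, b2, heq i k hik hki hi hk]
    exact ⟨rfl, rfl⟩
  intro a ha b hb hBa hBb
  obtain ⟨i, hi, rfl⟩ := bS_csd hcn hPn ha 0
  obtain ⟨k, hk, rfl⟩ := bS_csd hcn hPn hb 0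
  have hi' : (i : ℤ) < n * L := by exact_mod_cast hi
  have hk' : (k : ℤ) < n * L := by exact_mod_cast hk
  rcases lt_trichotomy i k with hik | rfl | hki
  · exact hlt _ _ (by omega) (by omega) hBa hBb
  · constructor
    · show Ht.tJ _ = Ht.tJ _
      rw [min_self, max_self, csum_self, csum_self]
    · have h1 : ∀ j : ℤ → ℝ, (cenv (rf n P) (gr n g) (n * L) j).s (csd (gr n g) (0 + (i : ℤ)))
          (csd (gr n g) (0 + (i : ℤ))) = 0 := by
        intro j
        have := (cenv (rf n P) (gr n g) (n * L) j).s_anti (csd (gr n g) (0 + (i : ℤ)))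
          (csd (gr n g) (0 + (i : ℤ)))
        linarith
      rw [h1, h1]
  · obtain ⟨h1, h2⟩ := hlt (0 + (k : ℤ)) (0 + (i : ℤ)) (by omega) (by omega) hBb hBa
    rw [WEnv.t_symm _ (csd (gr n g) (0 + (i : ℤ))), WEnv.t_symm _ (csd (gr n g) (0 + (i : ℤ))),
      WEnv.s_anti _ (csd (gr n g) (0 + (k : ℤ))), WEnv.s_anti _ (csd (gr n g) (0 + (k : ℤ))),
      h1, h2]
    exact ⟨rfl, rfl⟩

/-! ## One step -/

theorem step_bd (hP : MPoly P) (hc : Cont P L g) {s : ℝ} (s' : ℝ) (hs : Fl g s) :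
    ∃ C κ δ : ℝ, 0 < C ∧ 0 < κ ∧ κ ≤ 1 ∧ 0 < δ ∧ ∀ v ∈ Cl P, 0 < ‖v - gam g s‖ → ‖v - gam g s‖ < δ →
      ∀ᶠ q in lk2 s s', ∀ w ∈ Cl P, ‖w - v‖ < κ * ‖v - gam g s‖ →
        |(uN P L g q.1 q.2.1 (fl q.1 v) - uN P L g q.1 q.2.2 (fl q.1 v)) -
          (uN P L g q.1 q.2.1 (fl q.1 w) - uN P L g q.1 q.2.2 (fl q.1 w))| ≤ C := by
  obtain ⟨C, c, hC, hc0, hF⟩ := hF_same ld1_holds rowSame
  obtain ⟨δ₁, hδ₁, hshort⟩ := short_flat hc s' hs
  obtain ⟨δ₀, hδ₀, hgeo⟩ := rowGeo P hP
  refine ⟨2 * C, 1 / 16384, min δ₁ δ₀, by positivity, by norm_num, by norm_num, lt_min hδ₁ hδ₀,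
    fun v hv hv0 hvδ => ?_⟩
  set a := ‖v - gam g s‖ with ha
  have hn : Tendsto (fun q : ℕ × ℤ × ℤ => q.1) (lk2 s s') atTop := tendsto_comap.mono_left inf_le_left
  have hb : Tendsto (fun q : ℕ × ℤ × ℤ => (q.2.1 : ℝ) / q.1) (lk2 s s') (𝓝 s) :=
    tendsto_comap.mono_left (inf_le_right.trans inf_le_left)
  have hb' : Tendsto (fun q : ℕ × ℤ × ℤ => (q.2.2 : ℝ) / q.1) (lk2 s s') (𝓝 s') :=
    tendsto_comap.mono_left (inf_le_right.trans inf_le_right)
  have hnr : Tendsto (fun q : ℕ × ℤ × ℤ => (q.1 : ℝ)) (lk2 s s') atTop :=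
    tendsto_natCast_atTop_atTop.comp hn
  have ha4 : 0 < a / 4 := by positivity
  filter_upwards [near_jN (L := L) (T := {s, s'}) hn hb (by simp) ha4,
    near_jN (L := L) (T := {s, s'}) hn hb' (by simp) ha4, hnr.eventually_ge_atTop (65536 / a + 1),
    hn.eventually hgeo] with q e1 e2 hbig hgeo w hw hwv
  have hq0 : (0 : ℝ) < q.1 := by
    have : 0 < 65536 / a := by positivity
    linarith
  have hq1 : 0 < q.1 := by exact_mod_cast hq0
  set N : ℝ := (q.1 : ℝ) with hN
  have hbig' : 65536 ≤ a * N := by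
    have h1 : 65536 / a ≤ N := by linarith
    rw [div_le_iff₀ hv0] at h1
    linarith
  set d : ℤ := ⌊a * N / 16⌋ with hd
  set R : ℤ := ⌊a * N / 2048⌋ with hR
  set t : ℤ := ⌈N * (1 / 16384 * a)⌉ + 1 with ht
  have hd1 := Int.floor_le (a * N / 16)
  have hd2 := Int.lt_floor_add_one (a * N / 16)
  have hR1 := Int.floor_le (a * N / 2048)
  have hR2 := Int.lt_floor_add_one (a * N / 2048)
  have ht1 := Int.le_ceil (N * (1 / 16384 * a))
  have ht2 := Int.ceil_lt_add_one (N * (1 / 16384 * a))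
  rw [← hd] at hd1 hd2
  rw [← hR] at hR1 hR2
  have ht' : (t : ℝ) = ⌈N * (1 / 16384 * a)⌉ + 1 := by rw [ht]; push_cast; ring
  have htr : (t : ℝ) ≤ a * N / 16384 + 2 := by rw [ht']; linarith
  have htp : 1 ≤ t := by
    have : (0 : ℝ) ≤ ⌈N * (1 / 16384 * a)⌉ := le_trans (by positivity) ht1
    have : (0 : ℤ) ≤ ⌈N * (1 / 16384 * a)⌉ := by exact_mod_cast this
    omega
  have h4 : 4 * t ≤ R := by
    have : (4 : ℝ) * t ≤ R := by linarith
    exact_mod_cast this
  have h64 : 64 * R ≤ d := by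
    have : (64 : ℝ) * R ≤ d := by linarith
    exact_mod_cast this
  have hdδ : (d : ℝ) ≤ δ₀ * N := by
    have h1 : a < δ₀ := hvδ.trans_le (min_le_right _ _)
    have h2 : a * N ≤ δ₀ * N := mul_le_mul_of_nonneg_right h1.le hq0.le
    linarith
  obtain ⟨hL, hq⟩ := hgeo (fl q.1 v) d (isV_fl hq1 hv) hdδ
  have hpot : Tilt.HasPotQ ZQ (rf q.1 P) := (mpoly_rf hP hq1).potQ
  have hpos' : 0 < q.1 * L := Nat.mul_pos hq1 hc.pos
  -- natural environments
  have hE : ∀ b : ℤ, Loc (envN P L g q.1 b) (rf q.1 P) (fl q.1 v) d 1 := by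
    intro b
    have h1 : NatE (envN P L g q.1 b) := natE_cenv (cont_rf hc hq1) (mpoly_rf hP hq1) _
    exact ⟨rfl, (h1.loc _ _).kap2, (h1.loc _ _).natW, h1.maj _ _⟩
  -- the same weights
  have hclose : ∀ i : ℤ, Tilt.Ah ZQ (BR (fl q.1 v) d) (csd (gr q.1 g) i) →
      ‖gam g ((i : ℝ) / q.1) - v‖ < a / 4 := by
    intro i hi
    refine (csd_near hq1 hi).trans_lt ?_
    rw [div_lt_iff₀ hq0]
    linarith
  have hsame : SameL (envN P L g q.1 q.2.1) (envN P L g q.1 q.2.2) (BR (fl q.1 v) d) := by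
    refine same_of_short hP hc hq1 (T := {s, s'}) (ρ := a / 4) ?_ (jN_per _ _) (jN_per _ _)
      (csum_jN hpos' _) (csum_jN hpos' _) ?_
    · intro i k hik hki hi hk
      have k3 : (i : ℝ) / q.1 < (k : ℝ) / q.1 := div_lt_div_of_pos_right (by exact_mod_cast hik) hq0
      have k4 : (k : ℝ) / q.1 < (i : ℝ) / q.1 + L := by
        rw [div_add' _ _ _ hq0.ne', div_lt_div_iff_of_pos_right hq0]
        have : (k : ℝ) < i + q.1 * L := by exact_mod_cast hki
        linarith
      rcases hshort v hv0 (hvδ.trans_le (min_le_left _ _)) _ _ k3 k4 (hclose i hi) (hclose k hk)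
        with h5 | h5
      · left
        intro u hu hu' t ht r
        exact h5 _ (div_lt_div_of_pos_right (by exact_mod_cast hu) hq0)
          (div_le_div_of_nonneg_right (by exact_mod_cast hu') hq0.le) t ht r
      · right
        intro u hu hu' t ht r
        refine h5 _ (div_lt_div_of_pos_right (by exact_mod_cast hu) hq0) ?_ t ht r
        rw [div_add' _ _ _ hq0.ne', div_le_div_iff_of_pos_right hq0]
        have : (u : ℝ) ≤ i + q.1 * L := by exact_mod_cast hu'
        linarith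
    · intro u hu
      rcases jN_sub hu with h | h
      · exact e1 u h
      · exact e2 u h
  have hvv : dd (fl q.1 v) (fl q.1 v) ≤ t := by
    unfold dd
    rw [sub_self, sub_self, abs_zero, max_self]
    omega
  have hwt : dd (fl q.1 w) (fl q.1 v) ≤ t := dd_fl hwv
  have key := hF Unit Unit {()} {()} (fun _ => envN P L g q.1 q.2.1) (fun _ => envN P L g q.1 q.2.2)
    (rf q.1 P) (fl q.1 v) d t R 1 (fl q.1 v) (fl q.1 w) (Finset.singleton_nonempty _)
    (Finset.singleton_nonempty _) hpot hL (hq (by omega)) (fun _ _ => hE _) (fun _ _ => hE _)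
    (fun _ _ _ _ x hx y hy hx1 hy1 => hsame x hx y hy hx1 hy1) zero_le_one htp h4 h64
    (isV_fl hq1 hv) (isV_fl hq1 hw) hvv hwt
  rw [hF_single, hF_single] at key
  have e : (uN P L g q.1 q.2.1 (fl q.1 v) - uN P L g q.1 q.2.2 (fl q.1 v)) -
      (uN P L g q.1 q.2.1 (fl q.1 w) - uN P L g q.1 q.2.2 (fl q.1 w)) =
      (envN P L g q.1 q.2.1).hU (fl q.1 v) (fl q.1 w) - (envN P L g q.1 q.2.2).hU (fl q.1 v) (fl q.1 w) := by
    have a1 := uN_sub (P := P) (L := L) (g := g) q.1 q.2.1 (fl q.1 v) (fl q.1 w)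
    have a2 := uN_sub (P := P) (L := L) (g := g) q.1 q.2.2 (fl q.1 v) (fl q.1 w)
    linarith
  rw [e]
  refine key.trans ?_
  have hRpos : (0 : ℝ) < R := by linarith
  have hdpos : (0 : ℝ) < d := by linarith
  have ht0 : (0 : ℝ) ≤ t := by
    have : (0 : ℤ) ≤ t := by omega
    exact_mod_cast this
  have r1 : ((t : ℝ) / R) ^ c ≤ 1 := by
    refine Real.rpow_le_one (by positivity) ?_ hc0.le
    rw [div_le_one hRpos]
    linarith
  have r2 : ((R : ℝ) / d) ^ c ≤ 1 := by
    refine Real.rpow_le_one (by positivity) ?_ hc0.le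
    rw [div_le_one hdpos]
    have : (64 : ℝ) * R ≤ d := by exact_mod_cast h64
    linarith
  have : C * 1 * (((t : ℝ) / R) ^ c + ((R : ℝ) / d) ^ c) ≤ C * 1 * (1 + 1) :=
    mul_le_mul_of_nonneg_left (add_le_add r1 r2) (by positivity)
  linarith

/-! ## The chain -/

theorem sp_smul (z ν : ℂ) (r : ℝ) : sp ((r : ℂ) * z) ν = r * sp z ν := by
  unfold sp
  simp
  ring

/-- **the field `nnG`** -/
theorem nnG (hP : MPoly P) (hc : Cont P L g) {z0 : ℂ} (hz0 : z0 ∈ Om P) (s s' : ℝ) (hs : Fl g s) :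
    ∃ C δ : ℝ, 0 < δ ∧ ∀ z ∈ Cl P, z ≠ gam g s → ‖z - gam g s‖ < δ → ∀ᶠ q in lk2 s s',
      |nz q.1 z0 (fun w => uN P L g q.1 q.2.1 w - uN P L g q.1 q.2.2 w) z| ≤
        C + C * |Real.log ‖z - gam g s‖| := by
  obtain ⟨C, κ, δ₁, hC, hκ, hκ1, hδ₁, hstep⟩ := step_bd hP hc s' hs
  obtain ⟨ν, hν⟩ := wall_gam hc hs
  obtain ⟨-, r, hr, hwall⟩ := hν
  set p := gam g s with hp
  have hz0p : ∀ t, z0 ≠ gam g t := fun t h => gam_notMem_Om hc t (h ▸ hz0)
  -- the scale
  obtain ⟨δ₂, hδ₂, h21, h22, h23⟩ : ∃ δ₂ : ℝ, 0 < δ₂ ∧ δ₂ ≤ δ₁ ∧ δ₂ < r ∧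
      ((gam g s' = p) ∨ δ₂ < ‖gam g s' - p‖) := by
    by_cases h : gam g s' = p
    · exact ⟨min δ₁ (r / 2), lt_min hδ₁ (by linarith), min_le_left _ _,
        (min_le_right _ _).trans_lt (by linarith), Or.inl h⟩
    · have h1 : 0 < ‖gam g s' - p‖ := norm_pos_iff.2 (sub_ne_zero.2 h)
      refine ⟨min δ₁ (min (r / 2) (‖gam g s' - p‖ / 2)), lt_min hδ₁ (lt_min (by linarith) (by linarith)),
        min_le_left _ _, ?_, Or.inr ?_⟩
      · exact ((min_le_right _ _).trans (min_le_left _ _)).trans_lt (by linarith)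
      · exact ((min_le_right _ _).trans (min_le_right _ _)).trans_lt (by linarith)
  set lam : ℝ := 1 + κ / 2 with hlam
  have hlam1 : 1 < lam := by rw [hlam]; linarith
  have hlam0 : 0 < lam := by linarith
  -- the annulus
  set K : Set ℂ := Cl P ∩ {z | δ₂ / lam ≤ ‖z - p‖ ∧ ‖z - p‖ ≤ δ₂} with hK
  have hKS : K ⊆ Cl P \ {p, gam g s'} := by
    rintro z ⟨hz1, hz2, hz3⟩
    refine ⟨hz1, ?_⟩
    have h1 : 0 < ‖z - p‖ := lt_of_lt_of_le (by positivity) hz2
    simp only [Set.mem_insert_iff, Set.mem_singleton_iff, not_or]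
    constructor
    · rintro rfl
      rw [sub_self, norm_zero] at h1
      exact lt_irrefl _ h1
    · rintro rfl
      rcases h23 with h | h
      · rw [h, sub_self, norm_zero] at h1
        exact lt_irrefl _ h1
      · linarith
  have hKc : IsCompact K := by
    refine (isCompact_Cl P).inter_right ?_
    have h1 : Continuous fun z : ℂ => ‖z - p‖ := by fun_prop
    exact (isClosed_le continuous_const h1).inter (isClosed_le h1 continuous_const)
  obtain ⟨B, hB⟩ := bddK_of_losc (l := lk2 s s') (n := fun q => q.1) (P := P)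
    (D := fun q w => uN P L g q.1 q.2.1 w - uN P L g q.1 q.2.2 w) (S := Cl P \ {p, gam g s'}) (z0 := z0)
    Set.sdiff_subset (DC.isPreconnected_Cl_diff hP.conn
      (Set.Countable.insert _ (Set.countable_singleton _)))
    (fun v hv => by
      have h1 := hv.2
      simp only [Set.mem_insert_iff, Set.mem_singleton_iff, not_or] at h1
      exact nnL ld1_holds rowSame rowGeo hP hc s s' v hv.1 h1.1 h1.2)
    ⟨interior_subset hz0, by
      simp only [Set.mem_insert_iff, Set.mem_singleton_iff, not_or]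
      exact ⟨hz0p s, hz0p s'⟩⟩ hKS hKc
  -- induction on the number of steps
  have ind : ∀ k : ℕ, ∀ z ∈ Cl P, z ≠ p → ‖z - p‖ < δ₂ → δ₂ / lam ≤ lam ^ k * ‖z - p‖ →
      ∀ᶠ q in lk2 s s', |nz q.1 z0 (fun w => uN P L g q.1 q.2.1 w - uN P L g q.1 q.2.2 w) z| ≤
        B + C * k := by
    intro k
    induction k with
    | zero =>
      intro z hz hzp hzδ h
      rw [pow_zero, one_mul] at h
      filter_upwards [hB] with q hq
      have := hq z ⟨hz, h, hzδ.le⟩
      simpa using this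
    | succ k ih =>
      intro z hz hzp hzδ h
      have hz1 : 0 < ‖z - p‖ := norm_pos_iff.2 (sub_ne_zero.2 hzp)
      by_cases h1 : δ₂ / lam ≤ ‖z - p‖
      · filter_upwards [hB] with q hq
        have h2 := hq z ⟨hz, h1, hzδ.le⟩
        have h3 : 0 ≤ C * ((k + 1 : ℕ) : ℝ) := by positivity
        linarith
      · push Not at h1
        rw [lt_div_iff₀ hlam0] at h1
        set z' : ℂ := p + (lam : ℂ) * (z - p) with hz'
        have e1 : z' - p = (lam : ℂ) * (z - p) := by rw [hz']; ring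
        have e2 : ‖z' - p‖ = lam * ‖z - p‖ := by
          rw [e1, norm_mul, Complex.norm_real, Real.norm_eq_abs, abs_of_pos hlam0]
        have e3 : ‖z' - z‖ = κ / 2 * ‖z - p‖ := by
          have : z' - z = ((κ / 2 : ℝ) : ℂ) * (z - p) := by
            rw [hz', hlam]
            push_cast
            ring
          rw [this, norm_mul, Complex.norm_real, Real.norm_eq_abs, abs_of_pos (by linarith)]
        have hz'C : z' ∈ Cl P := by
          rw [hwall z' (by rw [e2]; linarith), e1, sp_smul]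
          exact mul_nonneg hlam0.le ((hwall z (by linarith)).1 hz)
        have h2 := ih z' hz'C (by
          rw [← sub_ne_zero, ← norm_pos_iff, e2]
          positivity) (by rw [e2]; linarith) (by
          rw [e2]
          have : lam ^ k * (lam * ‖z - p‖) = lam ^ (k + 1) * ‖z - p‖ := by ring
          rw [this]
          exact h)
        have h3 := hstep z hz hz1 (by linarith)
        filter_upwards [h2, h3] with q a1 a2
        have a3 := a2 z' hz'C (by rw [e3]; nlinarith)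
        have e : nz q.1 z0 (fun w => uN P L g q.1 q.2.1 w - uN P L g q.1 q.2.2 w) z =
            nz q.1 z0 (fun w => uN P L g q.1 q.2.1 w - uN P L g q.1 q.2.2 w) z' +
            ((uN P L g q.1 q.2.1 (fl q.1 z) - uN P L g q.1 q.2.2 (fl q.1 z)) -
              (uN P L g q.1 q.2.1 (fl q.1 z') - uN P L g q.1 q.2.2 (fl q.1 z'))) := by
          unfold nz
          ring
        rw [e]
        refine (abs_add_le _ _).trans ?_
        push_cast
        linarith
  -- the number of steps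
  have hB0 : 0 ≤ |B| := abs_nonneg B
  have hll : 0 < Real.log lam := Real.log_pos hlam1
  refine ⟨|B| + C * (|Real.log δ₂| / Real.log lam + 1) + C / Real.log lam, δ₂, hδ₂, fun z hz hzp hzδ => ?_⟩
  have hz1 : 0 < ‖z - p‖ := norm_pos_iff.2 (sub_ne_zero.2 hzp)
  set k : ℕ := ⌈(|Real.log δ₂| + |Real.log ‖z - p‖|) / Real.log lam⌉₊ with hk
  have hk1 : (|Real.log δ₂| + |Real.log ‖z - p‖|) / Real.log lam ≤ k := Nat.le_ceil _
  have hk2 : (k : ℝ) < (|Real.log δ₂| + |Real.log ‖z - p‖|) / Real.log lam + 1 :=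
    Nat.ceil_lt_add_one (by positivity)
  have h1 : δ₂ / lam ≤ lam ^ k * ‖z - p‖ := by
    have h2 : δ₂ ≤ lam ^ k * ‖z - p‖ := by
      rw [← Real.log_le_log_iff hδ₂ (by positivity), Real.log_mul (by positivity) hz1.ne', Real.log_pow]
      rw [div_le_iff₀ hll] at hk1
      have a1 := le_abs_self (Real.log δ₂)
      have a2 := neg_abs_le (Real.log ‖z - p‖)
      linarith
    have h3 : δ₂ / lam ≤ δ₂ := by
      rw [div_le_iff₀ hlam0]
      nlinarith
    linarith
  filter_upwards [ind k z hz hzp hzδ h1] with q hq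
  refine hq.trans ?_
  have h2 : C * k ≤ C * ((|Real.log δ₂| + |Real.log ‖z - p‖|) / Real.log lam + 1) :=
    mul_le_mul_of_nonneg_left hk2.le hC.le
  have h3 : C * ((|Real.log δ₂| + |Real.log ‖z - p‖|) / Real.log lam + 1) =
      C * (|Real.log δ₂| / Real.log lam + 1) + C / Real.log lam * |Real.log ‖z - p‖| := by
    field_simp
    ring
  have h4 := le_abs_self B
  have h5 : 0 ≤ |Real.log ‖z - p‖| := abs_nonneg _
  have h6 : 0 ≤ C * (|Real.log δ₂| / Real.log lam + 1) := by positivity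
  have h7 : 0 ≤ C / Real.log lam := by positivity
  have h8 : 0 ≤ (|B| + C * (|Real.log δ₂| / Real.log lam + 1)) * |Real.log ‖z - p‖| := by positivity
  nlinarith

end

end Pool.Agent.SixB.GG
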