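import Pool.Agent.Lib.SixB.S6GFld
import Pool.Agent.Lib.SixB.S6GGeo
import Pool.Agent.Lib.SixB.S6GLD
import Pool.Agent.Lib.SixB.CAGeo
import Pool.Agent.Lib.SixB.CADomFin

/-!
# 6BD block CA, growth at `e`: bound of `uX - uP` at a fixed distance from `e`

* `osc_xp`: small oscillation of `uX - uP` off the five marks.
* `midG`: `uX - uP`, normalised at `z0`, is bounded on `d₀ ≤ |z - gam g t₄| ≤ 2 d₀`, uniformly in `α ∈ [0, 1]`;
  `midG_lk`: the form for one `α`.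
-/

set_option autoImplicit false

namespace Pool.Agent.SixB.GG

open Filter Topology CARf

noncomputable section

variable {P : Finset (ℤ × ℤ)} {L : ℕ} {g : ℤ → ℤ × ℤ} {t₁ t₂ t₂' t₃ t₄ : ℝ} {z0 : ℂ}

/-- the difference `uX - uP` at the parameters `q` -/
def dXP (P : Finset (ℤ × ℤ)) (L : ℕ) (g : ℤ → ℤ × ℤ) (t₁ t₂ t₂' t₃ : ℝ) (q : (ℕ × ℤ) × ℝ) (w : ℤ × ℤ) : ℝ :=
  uX P L g q.1.1 q.2 (ix q.1.1 t₁) (ix q.1.1 t₂) (ix q.1.1 t₂') (ix q.1.1 t₃) q.1.2 w -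
    uP P L g q.1.1 q.2 (ix q.1.1 t₂) (ix q.1.1 t₂') w

/-- **oscillation off the five marks** -/
theorem osc_xp (hP : MPoly P) (hc : Cont P L g) (hm : Marks5 L g t₁ t₂ t₂' t₃ t₄) {v : ℂ} (hv : v ∈ Cl P)
    (h1 : v ≠ gam g t₁) (h2 : v ≠ gam g t₂) (h2' : v ≠ gam g t₂') (h3 : v ≠ gam g t₃) (h4 : v ≠ gam g t₄) :
    LOsc (lka t₄) (fun q => q.1.1) P (dXP P L g t₁ t₂ t₂' t₃) v := by
  have a := xnL ld1_holds rowSame rowGeo DomX.majX hP hc t₁ t₂ t₂' t₃ t₄ hm v hv h2 h2' h3 h4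
  have b := pnL ld1_holds rowSame rowGeo DomX.majP hP hc t₂ t₂' t₄ hm.h2 (hm.h3.trans hm.h4)
    (by linarith [hm.h1, hm.h5]) hm.f2 hm.f2' hm.f4 v hv h2 h2' h4
  have hn := lka_n t₄
  have hk4 : Tendsto (fun q : (ℕ × ℤ) × ℝ => (q.1.2 : ℝ) / q.1.1) (lka t₄) (𝓝 t₄) :=
    (lk_k t₄).comp (lka_lk t₄)
  have c : LOsc (lka t₄) (fun q => q.1.1) P
      (fun q w => uN P L g q.1.1 (ix q.1.1 t₁) w - uN P L g q.1.1 q.1.2 w) v :=
    (nnL ld1_holds rowSame rowGeo hP hc t₁ t₄ v hv h1 h4).comp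
      (φ := fun q : (ℕ × ℤ) × ℝ => (q.1.1, ix q.1.1 t₁, q.1.2)) (tendsto_lk2 hn (ixn_div hn t₁) hk4)
  have d := (a.sub b).add c
  convert d using 3 with q w
  unfold dXP
  ring

/-- **the bound at a fixed distance from `e`** -/
theorem midG (hP : MPoly P) (hc : Cont P L g) (hz0 : z0 ∈ Om P) (hm : Marks5 L g t₁ t₂ t₂' t₃ t₄) :
    ∃ d₁ : ℝ, 0 < d₁ ∧ ∀ d₀ : ℝ, 0 < d₀ → d₀ ≤ d₁ → ∃ C : ℝ, ∀ᶠ q in lka t₄, ∀ z ∈ Cl P,
      d₀ ≤ ‖z - gam g t₄‖ → ‖z - gam g t₄‖ ≤ 2 * d₀ →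
        |nz q.1.1 z0 (dXP P L g t₁ t₂ t₂' t₃ q) z| ≤ C := by
  have h1 := hm.h1
  have h2 := hm.h2
  have h3 := hm.h3
  have h4 := hm.h4
  have h5 := hm.h5
  have n1 : gam g t₁ ≠ gam g t₄ := Third.gam_ne hc (by linarith) (by linarith)
  have n2 : gam g t₂ ≠ gam g t₄ := Third.gam_ne hc (by linarith) (by linarith)
  have n2' : gam g t₂' ≠ gam g t₄ := Third.gam_ne hc (by linarith) (by linarith)
  have n3 : gam g t₃ ≠ gam g t₄ := Third.gam_ne hc (by linarith) (by linarith)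
  obtain ⟨δ, hδ, hfar⟩ := marks_far (g := g) (p := gam g t₄) ({t₁, t₂, t₂', t₃} : Finset ℝ) (by
    intro t ht
    simp only [Finset.mem_insert, Finset.mem_singleton] at ht
    rcases ht with rfl | rfl | rfl | rfl
    · exact n1
    · exact n2
    · exact n2'
    · exact n3)
  refine ⟨δ / 4, by linarith, fun d₀ hd₀ hd₀' => ?_⟩
  set X : Set ℂ := {gam g t₁, gam g t₂, gam g t₂', gam g t₃, gam g t₄} with hX
  set K : Set ℂ := Cl P ∩ {z | d₀ ≤ ‖z - gam g t₄‖ ∧ ‖z - gam g t₄‖ ≤ 2 * d₀} with hK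
  have hKS : K ⊆ Cl P \ X := by
    rintro z ⟨hz1, hz2, hz3⟩
    refine ⟨hz1, ?_⟩
    have far : ∀ t ∈ ({t₁, t₂, t₂', t₃} : Finset ℝ), z ≠ gam g t := by
      rintro t ht rfl
      have := hfar t ht
      linarith
    simp only [hX, Set.mem_insert_iff, Set.mem_singleton_iff, not_or]
    refine ⟨far _ (by simp), far _ (by simp), far _ (by simp), far _ (by simp), ?_⟩
    rintro rfl
    rw [sub_self, norm_zero] at hz2
    linarith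
  have hKc : IsCompact K := by
    refine (isCompact_Cl P).inter_right ?_
    have h1 : Continuous fun z : ℂ => ‖z - gam g t₄‖ := by fun_prop
    exact (isClosed_le continuous_const h1).inter (isClosed_le h1 continuous_const)
  have hz0t : ∀ t, z0 ≠ gam g t := fun t h => gam_notMem_Om hc t (h ▸ hz0)
  obtain ⟨C, hC⟩ := bddK_of_losc (l := lka t₄) (n := fun q => q.1.1) (P := P)
    (D := dXP P L g t₁ t₂ t₂' t₃) (S := Cl P \ X) (z0 := z0) Set.sdiff_subset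
    (DC.isPreconnected_Cl_diff hP.conn (Set.Finite.countable (by rw [hX]; exact Set.toFinite _)))
    (fun v hv => by
      have h6 := hv.2
      simp only [hX, Set.mem_insert_iff, Set.mem_singleton_iff, not_or] at h6
      exact osc_xp hP hc hm hv.1 h6.1 h6.2.1 h6.2.2.1 h6.2.2.2.1 h6.2.2.2.2)
    ⟨interior_subset hz0, by
      simp only [hX, Set.mem_insert_iff, Set.mem_singleton_iff, not_or]
      exact ⟨hz0t _, hz0t _, hz0t _, hz0t _, hz0t _⟩⟩ hKS hKc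
  refine ⟨C, ?_⟩
  filter_upwards [hC] with q hq z hz hz1 hz2
  exact hq z ⟨hz, hz1, hz2⟩

/-- the form for one `α` -/
theorem midG_lk (hP : MPoly P) (hc : Cont P L g) (hz0 : z0 ∈ Om P) (hm : Marks5 L g t₁ t₂ t₂' t₃ t₄)
    {α : ℝ} (hα : α ∈ Set.Icc (0 : ℝ) 1) :
    ∃ d₁ : ℝ, 0 < d₁ ∧ ∀ d₀ : ℝ, 0 < d₀ → d₀ ≤ d₁ → ∃ C : ℝ, ∀ᶠ p in lk t₄, ∀ z ∈ Cl P,
      d₀ ≤ ‖z - gam g t₄‖ → ‖z - gam g t₄‖ ≤ 2 * d₀ →
        |nz p.1 z0 (fun w => uX P L g p.1 α (ix p.1 t₁) (ix p.1 t₂) (ix p.1 t₂') (ix p.1 t₃) p.2 w -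
          uP P L g p.1 α (ix p.1 t₂) (ix p.1 t₂') w) z| ≤ C := by
  obtain ⟨d₁, hd₁, h⟩ := midG hP hc hz0 hm
  refine ⟨d₁, hd₁, fun d₀ h0 h1 => ?_⟩
  obtain ⟨C, hC⟩ := h d₀ h0 h1
  exact ⟨C, (tendsto_lka t₄ hα).eventually hC⟩

end

end Pool.Agent.SixB.GG
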