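import Pool.Agent.Lib.SixB.S6GPoleD
import Pool.Agent.Lib.SixB.S6GPoleE
import Pool.Agent.Lib.SixB.S6GNnG
import Pool.Agent.Lib.SixB.CALatD
import Pool.Agent.Lib.SixB.CAPos
import Pool.Agent.Lib.SixB.CAEnvG

/-!
# 6BD block CA, growth at `e`: the field `xpG`

* `chain_pow`: a function which varies by `C |v - p| ^ (-b)` on the balls of radius `κ |v - p|` grows at most as
  `|v - p| ^ (-b)` at the wall point `p`.
* `xpG_of : PoleC → XpG` (with the step `GA.step` for the environments `GA.DXf` without the zero arc of `e`).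
-/

set_option autoImplicit false

namespace Pool.Agent.SixB.GG

open Filter Topology CARf Pool.Agent.Perc Pool.Agent.Perc.Q Pool.Agent.PercD

noncomputable section

/-- **chain of points** from `z` to a point at distance between `d₀` and `2 d₀` from `p` -/
theorem chain_pow {P : Finset (ℤ × ℤ)} {ι : Type*} {l : Filter ι} {n : ι → ℕ} {D : ι → ℤ × ℤ → ℝ}
    {p ν : ℂ} (hw : Wall P p ν) {C κ δ b : ℝ} (hC : 0 ≤ C) (hκ : 0 < κ) (hκ1 : κ ≤ 1) (hδ : 0 < δ)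
    (hb : 0 < b) (hstep : ∀ v ∈ Cl P, ∀ w ∈ Cl P, v ≠ p → ‖v - p‖ < δ → ‖w - v‖ ≤ κ * ‖v - p‖ →
      ∀ᶠ i in l, |D i (fl (n i) v) - D i (fl (n i) w)| ≤ C * ‖v - p‖ ^ (-b)) :
    ∃ d₁ : ℝ, 0 < d₁ ∧ ∃ C' : ℝ, 0 ≤ C' ∧ ∀ d₀ : ℝ, 0 < d₀ → d₀ ≤ d₁ → ∀ z ∈ Cl P, z ≠ p →
      ‖z - p‖ < d₀ → ∃ z' ∈ Cl P, d₀ ≤ ‖z' - p‖ ∧ ‖z' - p‖ ≤ 2 * d₀ ∧
        ∀ᶠ i in l, |D i (fl (n i) z) - D i (fl (n i) z')| ≤ C' * ‖z - p‖ ^ (-b) := by
  obtain ⟨-, r, hr, hwall⟩ := hw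
  set lam : ℝ := 1 + κ with hlam
  have hlam1 : 1 < lam := by rw [hlam]; linarith
  have hlam2 : lam ≤ 2 := by rw [hlam]; linarith
  have hlam0 : 0 < lam := by linarith
  have hq1 : lam ^ (-b) < 1 := Real.rpow_lt_one_of_one_lt_of_neg hlam1 (by linarith)
  set A : ℝ := C / (1 - lam ^ (-b)) with hA
  have hA0 : 0 ≤ A := div_nonneg hC (by linarith)
  have hAeq : C + A * lam ^ (-b) = A := by
    have h : 1 - lam ^ (-b) ≠ 0 := by linarith
    rw [hA]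
    field_simp
    ring
  refine ⟨min δ (r / 4), lt_min hδ (by linarith), A, hA0, fun d₀ hd₀ hd₁ z hz hzp hzd => ?_⟩
  have h1 : d₀ ≤ δ := hd₁.trans (min_le_left _ _)
  have h2 : d₀ ≤ r / 4 := hd₁.trans (min_le_right _ _)
  have ind : ∀ k : ℕ, ∀ z ∈ Cl P, z ≠ p → ‖z - p‖ < 2 * d₀ → d₀ ≤ lam ^ k * ‖z - p‖ →
      ∃ z' ∈ Cl P, d₀ ≤ ‖z' - p‖ ∧ ‖z' - p‖ ≤ 2 * d₀ ∧
        ∀ᶠ i in l, |D i (fl (n i) z) - D i (fl (n i) z')| ≤ A * ‖z - p‖ ^ (-b) := by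
    intro k
    induction k with
    | zero =>
      intro z hz hzp hzδ h
      rw [pow_zero, one_mul] at h
      refine ⟨z, hz, h, hzδ.le, Eventually.of_forall fun i => ?_⟩
      rw [sub_self, abs_zero]
      positivity
    | succ k ih =>
      intro z hz hzp hzδ h
      have hz1 : 0 < ‖z - p‖ := norm_pos_iff.2 (sub_ne_zero.2 hzp)
      by_cases h3 : d₀ ≤ ‖z - p‖
      · refine ⟨z, hz, h3, hzδ.le, Eventually.of_forall fun i => ?_⟩
        rw [sub_self, abs_zero]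
        positivity
      · push Not at h3
        set z₁ : ℂ := p + (lam : ℂ) * (z - p) with hz₁
        have e1 : z₁ - p = (lam : ℂ) * (z - p) := by rw [hz₁]; ring
        have e2 : ‖z₁ - p‖ = lam * ‖z - p‖ := by
          rw [e1, norm_mul, Complex.norm_real, Real.norm_eq_abs, abs_of_pos hlam0]
        have e3 : ‖z₁ - z‖ = κ * ‖z - p‖ := by
          have : z₁ - z = (κ : ℂ) * (z - p) := by
            rw [hz₁, hlam]
            push_cast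
            ring
          rw [this, norm_mul, Complex.norm_real, Real.norm_eq_abs, abs_of_pos hκ]
        have e4 : ‖z₁ - p‖ < 2 * d₀ := by
          rw [e2]
          have : lam * ‖z - p‖ ≤ 2 * ‖z - p‖ := mul_le_mul_of_nonneg_right hlam2 hz1.le
          linarith
        have hzC : z₁ ∈ Cl P := by
          rw [hwall z₁ (by linarith), e1, sp_smul]
          exact mul_nonneg hlam0.le ((hwall z (by linarith)).1 hz)
        obtain ⟨z', hz', a1, a2, a3⟩ := ih z₁ hzC (by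
          rw [← sub_ne_zero, ← norm_pos_iff, e2]
          positivity) e4 (by
          rw [e2]
          have : lam ^ k * (lam * ‖z - p‖) = lam ^ (k + 1) * ‖z - p‖ := by ring
          rw [this]
          exact h)
        refine ⟨z', hz', a1, a2, ?_⟩
        filter_upwards [a3, hstep z hz z₁ hzC hzp (by linarith) e3.le] with i b1 b2
        have e : D i (fl (n i) z) - D i (fl (n i) z') =
            (D i (fl (n i) z) - D i (fl (n i) z₁)) + (D i (fl (n i) z₁) - D i (fl (n i) z')) := by ring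
        rw [e]
        refine (abs_add_le _ _).trans ?_
        rw [e2, Real.mul_rpow hlam0.le hz1.le] at b1
        have e5 : C * ‖z - p‖ ^ (-b) + A * (lam ^ (-b) * ‖z - p‖ ^ (-b)) =
            (C + A * lam ^ (-b)) * ‖z - p‖ ^ (-b) := by ring
        rw [hAeq] at e5
        linarith
  have hz1 : 0 < ‖z - p‖ := norm_pos_iff.2 (sub_ne_zero.2 hzp)
  obtain ⟨k, hk⟩ := pow_unbounded_of_one_lt (d₀ / ‖z - p‖) hlam1
  rw [div_lt_iff₀ hz1] at hk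
  exact ind k z hz hzp (by linarith) hk.le

theorem hM_drop {E : WEnv} {e : DZ} {z z' : VZ} (hP : Tilt.HasPotQ ZQ E.F) (he : e ∈ bS ZQ E.F)
    (hz : Tilt.ConnE ZQ E.F z z') :
    E.hM z z' = (GA.drop E e).hM z z' + av E.F (GA.zp E e z z') := by
  rw [hM_HS, hM_HS]
  show _ = av E.F (fun ω => HG.HS (GA.drop E e) ω z - HG.HS (GA.drop E e) ω z') + _
  rw [← av_add]
  exact av_congr fun T _ => GA.HS_drop hP he hz

/-- **The field `xpG`.** -/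
theorem xpG_of (hC : GA.PoleC) : XpG := by
  intro P L g hP hc z0 hz0 t₁ t₂ t₂' t₃ t₄ hm α hα
  obtain ⟨C₁, δ, hC₁, hδ, hstep⟩ := GA.step DomX.resX DomX.majP hP hc hm ⟨hα.1.le, hα.2.le⟩
  obtain ⟨e₁, he₁, hpole⟩ := hC P L g hP hc t₁ t₂ t₂' t₃ t₄ hm α hα
  obtain ⟨e₂, he₂, hmid⟩ := midG_lk hP hc hz0 hm ⟨hα.1.le, hα.2.le⟩
  obtain ⟨ν, hν⟩ := wall_gam hc hm.f4
  set p₄ := gam g t₄ with hp₄
  set V : ℕ × ℤ → Bool → WEnv := GA.DXf P L g t₁ t₂ t₂' t₃ α with hV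
  set D : ℕ × ℤ → ℤ × ℤ → ℝ := fun p w => hF (Finset.univ : Finset Bool) (V p) w (gr p.1 g 0) -
    uP P L g p.1 α (ix p.1 t₂) (ix p.1 t₂') w with hD
  have hDsub : ∀ p v w, D p v - D p w = hF (Finset.univ : Finset Bool) (V p) v w -
      (envP P L g p.1 α (ix p.1 t₂) (ix p.1 t₂')).hU v w := by
    intro p v w
    have a1 := hF_sub (Finset.univ : Finset Bool) (V p) v w (gr p.1 g 0)
    have a2 := uP_sub (P := P) (L := L) (g := g) p.1 α (ix p.1 t₂) (ix p.1 t₂') v w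
    rw [hD]
    linarith
  obtain ⟨e₃, he₃, C₄, hC₄, hchain⟩ := chain_pow (D := D) (l := lk t₄) (n := fun p => p.1)
    (κ := 1 / 8000) (b := 3 / 4) hν hC₁ (by norm_num) (by norm_num) hδ (by norm_num)
    (fun v hv w hw hvp h0 h1 => by
      filter_upwards [hstep v hv w hw hvp h0 (by linarith)] with p hp
      rw [hF_single] at hp
      rw [hDsub]
      exact hp)
  -- the scale
  obtain ⟨d₀, hd₀, hd1, hd2, hd3, hd4⟩ : ∃ d₀ : ℝ, 0 < d₀ ∧ d₀ ≤ e₁ ∧ d₀ ≤ e₂ ∧ d₀ ≤ e₃ ∧ d₀ ≤ 1 := by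
    refine ⟨min (min e₁ e₂) (min e₃ 1), by positivity, ?_, ?_, ?_, ?_⟩
    · exact (min_le_left _ _).trans (min_le_left _ _)
    · exact (min_le_left _ _).trans (min_le_right _ _)
    · exact (min_le_right _ _).trans (min_le_left _ _)
    · exact (min_le_right _ _).trans (min_le_right _ _)
  obtain ⟨C₂, a, ha, hpole⟩ := hpole d₀ hd₀ hd1
  obtain ⟨C₃, hmid⟩ := hmid d₀ hd₀ hd2
  refine ⟨C₄ + |C₂| + |C₃|, min a (1 / 4), d₀, lt_min ha (by norm_num), hd₀, fun z hz hz4 hzd => ?_⟩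
  have hr : 0 < ‖z - p₄‖ := norm_pos_iff.2 (sub_ne_zero.2 hz4)
  obtain ⟨z', hz', hz1, hz2, hch⟩ := hchain d₀ hd₀ hd3 z hz hz4 hzd
  filter_upwards [hch, hpole z hz z' hz' hz4 hzd hz1, hmid, envX_Z_lk hP hc hm,
    (lk_n t₄).eventually_gt_atTop 0] with p b1 b2 b3 b4 hn
  have b3 := b3 z' hz' hz1 hz2
  obtain ⟨b5, b6⟩ := b4 α ⟨hα.1.le, hα.2.le⟩
  set E₁ := envX P L g p.1 α (ix p.1 t₁) (ix p.1 t₂) (ix p.1 t₂') (ix p.1 t₃) (p.2 - 1) with hE₁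
  set E₂ := envX P L g p.1 α (ix p.1 t₁) (ix p.1 t₂) (ix p.1 t₂') (ix p.1 t₃) p.2 with hE₂
  have hZ : 0 < E₁.Z + E₂.Z := add_pos b5 b6
  set Q := rf p.1 P with hQ
  have hcn := cont_rf hc hn
  have hPn := mpoly_rf hP hn
  have hzV : fl p.1 z ∈ VX Q := isV_iff.mp (isV_fl hn hz)
  have hzV' : fl p.1 z' ∈ VX Q := isV_iff.mp (isV_fl hn hz')
  have hcon : Tilt.ConnE ZQ Q (fl p.1 z) (fl p.1 z') := hPn.connV hcn hzV hzV'
  have m1 : E₁.hM (fl p.1 z) (fl p.1 z') = (V p false).hM (fl p.1 z) (fl p.1 z') +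
      av Q (GA.zp E₁ (csd (gr p.1 g) (p.2 - 1)) (fl p.1 z) (fl p.1 z')) :=
    hM_drop (E := E₁) hPn.potQ (hcn.csd_mem_bS _) hcon
  have m2 : E₂.hM (fl p.1 z) (fl p.1 z') = (V p true).hM (fl p.1 z) (fl p.1 z') +
      av Q (GA.zp E₂ (csd (gr p.1 g) p.2) (fl p.1 z) (fl p.1 z')) :=
    hM_drop (E := E₂) hPn.potQ (hcn.csd_mem_bS _) hcon
  have z1 : (V p false).Z = E₁.Z := rfl
  have z2 : (V p true).Z = E₂.Z := rfl
  have u1 : uX P L g p.1 α (ix p.1 t₁) (ix p.1 t₂) (ix p.1 t₂') (ix p.1 t₃) p.2 (fl p.1 z) -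
      uX P L g p.1 α (ix p.1 t₁) (ix p.1 t₂) (ix p.1 t₂') (ix p.1 t₃) p.2 (fl p.1 z') =
      hF (Finset.univ : Finset Bool) (V p) (fl p.1 z) (fl p.1 z') +
        (av Q (GA.zp E₁ (csd (gr p.1 g) (p.2 - 1)) (fl p.1 z) (fl p.1 z')) +
          av Q (GA.zp E₂ (csd (gr p.1 g) p.2) (fl p.1 z) (fl p.1 z'))) / (E₁.Z + E₂.Z) := by
    rw [uX_sub]
    unfold hF
    rw [Fintype.sum_bool, Fintype.sum_bool, z1, z2, ← hE₁, ← hE₂, m1, m2, add_comm E₂.Z E₁.Z, ← add_div]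
    refine congrArg (fun x : ℝ => x / (E₁.Z + E₂.Z)) ?_
    ring
  have u2 := uP_sub (P := P) (L := L) (g := g) p.1 α (ix p.1 t₂) (ix p.1 t₂') (fl p.1 z) (fl p.1 z')
  have key : nz p.1 z0 (fun w => uX P L g p.1 α (ix p.1 t₁) (ix p.1 t₂) (ix p.1 t₂') (ix p.1 t₃) p.2 w -
        uP P L g p.1 α (ix p.1 t₂) (ix p.1 t₂') w) z =
      (D p (fl p.1 z) - D p (fl p.1 z')) +
      (av Q (GA.zp E₁ (csd (gr p.1 g) (p.2 - 1)) (fl p.1 z) (fl p.1 z')) +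
          av Q (GA.zp E₂ (csd (gr p.1 g) p.2) (fl p.1 z) (fl p.1 z'))) / (E₁.Z + E₂.Z) +
      nz p.1 z0 (fun w => uX P L g p.1 α (ix p.1 t₁) (ix p.1 t₂) (ix p.1 t₂') (ix p.1 t₃) p.2 w -
        uP P L g p.1 α (ix p.1 t₂) (ix p.1 t₂') w) z' := by
    rw [hDsub]
    unfold nz
    linarith
  rw [key]
  refine (abs_add_le _ _).trans ((add_le_add_left (abs_add_le _ _) _).trans ?_)
  set r := ‖z - p₄‖ with hrdef
  set y := r ^ (min a (1 / 4) - 1) with hy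
  have y0 : 0 ≤ y := by positivity
  have hr1 : r ≤ 1 := hzd.le.trans hd4
  have ya : r ^ (a - 1) ≤ y :=
    Real.rpow_le_rpow_of_exponent_ge hr hr1 (by linarith [min_le_left a (1 / 4 : ℝ)])
  have yh : r ^ (-(3 / 4) : ℝ) ≤ y :=
    Real.rpow_le_rpow_of_exponent_ge hr hr1 (by linarith [min_le_right a (1 / 4 : ℝ)])
  have q1' : C₄ * r ^ (-(3 / 4) : ℝ) ≤ C₄ * y := mul_le_mul_of_nonneg_left yh hC₄
  have q2 : |(av Q (GA.zp E₁ (csd (gr p.1 g) (p.2 - 1)) (fl p.1 z) (fl p.1 z')) +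
      av Q (GA.zp E₂ (csd (gr p.1 g) p.2) (fl p.1 z) (fl p.1 z'))) / (E₁.Z + E₂.Z)| ≤ |C₂| * y := by
    rw [abs_div, abs_of_pos hZ, div_le_iff₀ hZ]
    refine b2.trans ?_
    refine mul_le_mul_of_nonneg_right ?_ hZ.le
    have h1 : C₂ * r ^ (a - 1) ≤ |C₂| * r ^ (a - 1) :=
      mul_le_mul_of_nonneg_right (le_abs_self _) (by positivity)
    exact h1.trans (mul_le_mul_of_nonneg_left ya (abs_nonneg _))
  have q3 := le_abs_self C₃
  have s1 : 0 ≤ |C₂| := abs_nonneg _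
  have s2 : 0 ≤ |C₃| := abs_nonneg _
  have s3 : 0 ≤ |C₃| * y := by positivity
  have s4 : (C₄ + |C₂| + |C₃|) * y = C₄ * y + |C₂| * y + |C₃| * y := by ring
  rw [s4]
  linarith

end

end Pool.Agent.SixB.GG
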