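import Pool.Agent.Lib.SixB.S6GDefs
import Pool.Agent.Lib.SixB.CAEnvF
import Pool.Agent.Lib.SixB.CAEnvA

/-!
# 6BD block CA, rows S6G: from theorem `LD1` to small oscillation of differences

* `HS_hN`: the height numerator of S6LHgt is `WEnv.hN` of CAEnvD.
* `hF K E z w`: mean height difference of a finite family of environments (sum of the numerators / sum of the
  partition functions; the TOT version of `uX`).
* `hF_same`: two families with the same local weights near `v` have the same height differences up to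
  `C M ((s / R) ^ c + (R / d) ^ c)`.
* `losc_of_LD`: small oscillation `LOsc` of the difference at `p ∈ Cl P`.
-/

set_option autoImplicit false
set_option linter.unusedSectionVars false

namespace Pool.Agent.SixB.GG

open Pool.Agent.Perc Pool.Agent.Perc.Q Pool.Agent.PercD Tilt HG Relation Filter Topology

noncomputable section

/-! ## The link of the two height functions -/

theorem HS_hN (E : WEnv) (ω : Cfg) (z : VZ) : HS E ω z = E.hN ω z := by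
  unfold HS WEnv.hN
  refine Finset.sum_congr rfl fun U hU => ?_
  congr 1
  obtain ⟨h1, -⟩ := ust_eq hU (rep_mem hU)
  obtain ⟨c, hc, hX⟩ := mem_dstr.mp h1
  have hcX : c ∈ rep U := by rw [← hX]; exact self_mem_dst hc
  rw [onX_eq (fun a b h => num_srel E h) h1 hcX, E.nX_eq h1 hcX]

theorem hM_HS (E : WEnv) (z w : VZ) : E.hM z w = av E.F (fun ω => HS E ω z - HS E ω w) := by
  unfold WEnv.hM
  exact av_congr fun T _ => by rw [HS_hN, HS_hN]

theorem hM_swap (E : WEnv) (z w : VZ) : E.hM w z = -E.hM z w := by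
  have h := E.hM_add z w z
  rw [E.hM_self] at h
  linarith

/-! ## Families -/

/-- mean height difference of a finite family of environments -/
def hF {κ : Type} (K : Finset κ) (E : κ → WEnv) (z w : VZ) : ℝ :=
  (∑ k ∈ K, (E k).hM z w) / ∑ k ∈ K, (E k).Z

theorem hF_sub {κ : Type} (K : Finset κ) (E : κ → WEnv) (z w b : VZ) :
    hF K E z b - hF K E w b = hF K E z w := by
  unfold hF
  rw [← sub_div, ← Finset.sum_sub_distrib]
  congr 1
  refine Finset.sum_congr rfl fun k _ => ?_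
  rw [← (E k).hM_add z w b]
  ring

theorem hF_single (E : WEnv) (z w : VZ) : hF ({()} : Finset Unit) (fun _ => E) z w = E.hU z w := by
  unfold hF
  rw [Finset.sum_singleton, Finset.sum_singleton, E.hM_div]

/-- the local hypotheses on one environment -/
structure Loc (E : WEnv) (F : Finset (ℤ × ℤ)) (v : VZ) (d : ℤ) (M : ℝ) : Prop where
  F_eq : E.F = F
  kap2 : Kap2 E v d
  nat : NatW E v d
  maj : Maj E v d M

theorem br_le {v : VZ} {r R : ℤ} (h : r ≤ R) : BR v r ⊆ BR v R := (Sub.refl' h).subset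

theorem Kap2.mono {E : WEnv} {v : VZ} {d d' : ℤ} (h : Kap2 E v d) (hd : d' ≤ d) : Kap2 E v d' :=
  fun ω X e hX hXB he => h ω X e hX (hXB.mono (br_le hd)) he

theorem NatW.mono {E : WEnv} {v : VZ} {d d' : ℤ} (h : NatW E v d) (hd : d' ≤ d) : NatW E v d' :=
  fun a ha b hb h1 h2 => h a ha b hb (h1.mono (br_le hd)) (h2.mono (br_le hd))

theorem Maj.mono {E : WEnv} {v : VZ} {d d' : ℤ} {M : ℝ} (h : Maj E v d M) (hd : d' ≤ d) : Maj E v d' M := by
  obtain ⟨h0, H, h1, h2, h3, h4⟩ := h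
  refine ⟨h0, H, h1.mono ?_, h2, fun ω e he => h3 ω e ?_, h4⟩
  · intro f hf
    rw [Finset.mem_coe, Finset.mem_sdiff] at hf ⊢
    exact ⟨hf.1, fun hc => hf.2 (br_le hd hc)⟩
  · exact SixB.dE_mono (Finset.inter_subset_inter_left (br_le hd)) he

theorem Loc.mono {E : WEnv} {F : Finset (ℤ × ℤ)} {v : VZ} {d d' : ℤ} {M : ℝ} (h : Loc E F v d M)
    (hd : d' ≤ d) : Loc E F v d' M := ⟨h.F_eq, h.kap2.mono hd, h.nat.mono hd, h.maj.mono hd⟩

/-! ## The main estimate -/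

/-- the common value of the local functional -/
theorem cls_const (hS : RowSame) {κ κ' : Type} {K : Finset κ} {K' : Finset κ'} {E : κ → WEnv} {E' : κ' → WEnv}
    {F : Finset (ℤ × ℤ)} {v : VZ} {d R : ℤ} {M : ℝ} {z z' : VZ} (hK : K.Nonempty) (hK' : K'.Nonempty)
    (hE : ∀ k ∈ K, Loc (E k) F v d M) (hE' : ∀ k ∈ K', Loc (E' k) F v d M)
    (hst : ∀ k ∈ K, ∀ k' ∈ K', ∀ a ∈ bS ZQ F, ∀ b ∈ bS ZQ F, Ah ZQ (BR v d) a → Ah ZQ (BR v d) b →
      (E' k').t a b = (E k).t a b ∧ (E' k').s a b = (E k).s a b) (hR : R ≤ d) :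
    ∃ A : ℝ, (∀ k ∈ K, av (E k).F (cls (E k) (BR v R) z z') = A) ∧
      ∀ k ∈ K', av (E' k).F (cls (E' k) (BR v R) z z') = A := by
  obtain ⟨k0, hk0⟩ := hK
  obtain ⟨k1, hk1⟩ := hK'
  have h1 : ∀ k ∈ K, ∀ k' ∈ K', ∀ ω, cls (E' k') (BR v R) z z' ω = cls (E k) (BR v R) z z' ω := by
    intro k hk k' hk' ω
    refine hS (E k) (E' k') (BR v R) z z' ω (by rw [(hE' k' hk').F_eq, (hE k hk).F_eq]) ?_
    intro a ha b hb h2 h3
    rw [(hE k hk).F_eq] at ha hb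
    exact hst k hk k' hk' a ha b hb (h2.mono (br_le hR)) (h3.mono (br_le hR))
  refine ⟨av F (cls (E k0) (BR v R) z z'), fun k hk => ?_, fun k hk => ?_⟩
  · rw [(hE k hk).F_eq]
    exact av_congr fun T _ => by rw [← h1 k hk k1 hk1, ← h1 k0 hk0 k1 hk1]
  · rw [(hE' k hk).F_eq]
    exact av_congr fun T _ => by rw [← h1 k0 hk0 k hk]

/-- a family against the local functional -/
theorem hF_loc {κ : Type} {K : Finset κ} {E : κ → WEnv} {A B : ℝ} {z z' : VZ} (hK : K.Nonempty)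
    (hZ : ∀ k ∈ K, 0 < (E k).Z)
    (h : ∀ k ∈ K, |av (E k).F (fun ω => HS (E k) ω z - HS (E k) ω z') - A * (E k).Z| ≤ B * (E k).Z) :
    |hF K E z z' - A| ≤ B := by
  have hZ0 : 0 < ∑ k ∈ K, (E k).Z := Finset.sum_pos hZ hK
  have e : hF K E z z' - A = (∑ k ∈ K, ((E k).hM z z' - A * (E k).Z)) / ∑ k ∈ K, (E k).Z := by
    unfold hF
    rw [Finset.sum_sub_distrib, ← Finset.mul_sum, sub_div, mul_div_cancel_right₀ _ hZ0.ne']
  rw [e, abs_div, abs_of_pos hZ0, div_le_iff₀ hZ0, Finset.mul_sum]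
  refine (Finset.abs_sum_le_sum_abs _ _).trans (Finset.sum_le_sum fun k hk => ?_)
  rw [hM_HS]
  exact h k hk

/-- **Two families with the same local weights.** -/
theorem hF_same (hLD : LD1) (hS : RowSame) : ∃ C c : ℝ, 0 < C ∧ 0 < c ∧ ∀ (κ κ' : Type) (K : Finset κ)
    (K' : Finset κ') (E : κ → WEnv) (E' : κ' → WEnv) (F : Finset (ℤ × ℤ)) (v : VZ) (d s R : ℤ) (M : ℝ)
    (z z' : VZ), K.Nonempty → K'.Nonempty → HasPotQ ZQ F → LocF F v d →
    (∃ q, IsV F q ∧ dd q v ≤ d ∧ d ≤ 2 * dd q v) → (∀ k ∈ K, Loc (E k) F v d M) →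
    (∀ k ∈ K', Loc (E' k) F v d M) →
    (∀ k ∈ K, ∀ k' ∈ K', ∀ a ∈ bS ZQ F, ∀ b ∈ bS ZQ F, Ah ZQ (BR v d) a → Ah ZQ (BR v d) b →
      (E' k').t a b = (E k).t a b ∧ (E' k').s a b = (E k).s a b) → 0 ≤ M → 1 ≤ s → 4 * s ≤ R →
    64 * R ≤ d → IsV F z → IsV F z' → dd z v ≤ s → dd z' v ≤ s →
      |hF K E z z' - hF K' E' z z'| ≤ C * M * (((s : ℝ) / R) ^ c + ((R : ℝ) / d) ^ c) := by
  obtain ⟨C, c, hC, hc, h⟩ := hLD
  refine ⟨2 * C, c, by positivity, hc, ?_⟩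
  intro κ κ' K K' E E' F v d s R M z z' hK hK' hP hL hq hE hE' hst hM hs hsR hRd hz hz' hzv hzv'
  obtain ⟨A, hA, hA'⟩ := cls_const (R := R) (z := z) (z' := z') hS hK hK' hE hE' hst (by omega)
  set B : ℝ := C * M * (((s : ℝ) / R) ^ c + ((R : ℝ) / d) ^ c) with hB
  have k1 : |hF K E z z' - A| ≤ B := by
    refine hF_loc hK (fun k hk => (hE k hk).maj.1) fun k hk => ?_
    have hF := (hE k hk).F_eq
    have h1 := h (E k) v d s R M z z' (by rw [hF]; exact hP) (by rw [hF]; exact hL) (hE k hk).kap2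
      (hE k hk).nat (hE k hk).maj hM (by rw [hF]; exact hq) hs hsR hRd (by rw [hF]; exact hz)
      (by rw [hF]; exact hz') hzv hzv'
    rw [hA k hk] at h1
    refine h1.trans (le_of_eq ?_)
    rw [hB]
    ring
  have k2 : |hF K' E' z z' - A| ≤ B := by
    refine hF_loc hK' (fun k hk => (hE' k hk).maj.1) fun k hk => ?_
    have hF := (hE' k hk).F_eq
    have h1 := h (E' k) v d s R M z z' (by rw [hF]; exact hP) (by rw [hF]; exact hL) (hE' k hk).kap2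
      (hE' k hk).nat (hE' k hk).maj hM (by rw [hF]; exact hq) hs hsR hRd (by rw [hF]; exact hz)
      (by rw [hF]; exact hz') hzv hzv'
    rw [hA' k hk] at h1
    refine h1.trans (le_of_eq ?_)
    rw [hB]
    ring
  have e : hF K E z z' - hF K' E' z z' = (hF K E z z' - A) - (hF K' E' z z' - A) := by ring
  rw [e]
  refine (abs_sub _ _).trans ?_
  have e2 : 2 * C * M * (((s : ℝ) / R) ^ c + ((R : ℝ) / d) ^ c) = B + B := by rw [hB]; ring
  rw [e2]
  exact add_le_add k1 k2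

/-! ## Rounding -/

/-- `fl n z` is a vertex of the refinement -/
theorem isV_fl {P : Finset (ℤ × ℤ)} {n : ℕ} (hn : 0 < n) {z : ℂ} (hz : z ∈ Cl P) : IsV (rf n P) (fl n z) := by
  have hn' : (0 : ℝ) < n := by exact_mod_cast hn
  unfold Cl at hz
  rw [Set.mem_iUnion₂] at hz
  obtain ⟨f, hf, h1, h2, h3, h4⟩ := hz
  have key : ∀ (x : ℝ) (u : ℤ), (u : ℝ) ≤ x → x ≤ u + 1 → (n : ℤ) * u ≤ ⌊(n : ℝ) * x⌋ ∧
      ⌊(n : ℝ) * x⌋ ≤ n * u + n := by
    intro x u hu hu'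
    constructor
    · rw [Int.le_floor]
      push_cast
      exact mul_le_mul_of_nonneg_left hu hn'.le
    · have e : (⌊(n : ℝ) * x⌋ : ℝ) ≤ ((n * u + n : ℤ) : ℝ) := by
        refine (Int.floor_le _).trans ?_
        push_cast
        nlinarith
      exact_mod_cast e
  obtain ⟨a1, a2⟩ := key z.re f.1 h1 h2
  obtain ⟨b1, b2⟩ := key z.im f.2 h3 h4
  have hmem : ∀ u w : ℤ, (n : ℤ) * f.1 ≤ u → u < n * f.1 + n → (n : ℤ) * f.2 ≤ w → w < n * f.2 + n →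
      (u, w) ∈ rf n P := by
    intro u w c1 c2 c3 c4
    unfold rf
    rw [Finset.mem_biUnion]
    refine ⟨f, hf, ?_⟩
    rw [Finset.mem_product, Finset.mem_Ico, Finset.mem_Ico]
    exact ⟨⟨c1, c2⟩, c3, c4⟩
  have hv : fl n z ∈ VX (rf n P) := by
    rw [mem_VX_iff]
    unfold fl
    have hn1 : (0 : ℤ) < n := by exact_mod_cast hn
    rcases lt_or_ge ⌊(n : ℝ) * z.re⌋ (n * f.1 + n) with c1 | c1 <;>
      rcases lt_or_ge ⌊(n : ℝ) * z.im⌋ (n * f.2 + n) with c2 | c2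
    · exact Or.inl (hmem _ _ a1 c1 b1 c2)
    · exact Or.inr (Or.inr (Or.inr (hmem _ _ a1 c1 (by omega) (by omega))))
    · exact Or.inr (Or.inl (hmem _ _ (by omega) (by omega) b1 c2))
    · exact Or.inr (Or.inr (Or.inl (hmem _ _ (by omega) (by omega) (by omega) (by omega))))
  obtain ⟨g, hg, k, hk⟩ := hv
  exact ⟨g, hg, k, hk.symm⟩

theorem floor_sub_le {x y b : ℝ} (h : |x - y| ≤ b) : |⌊x⌋ - ⌊y⌋| ≤ ⌈b⌉ + 1 := by
  have h1 := Int.floor_le x
  have h2 := Int.lt_floor_add_one x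
  have h3 := Int.floor_le y
  have h4 := Int.lt_floor_add_one y
  have h5 := Int.le_ceil b
  obtain ⟨h6, h7⟩ := abs_le.1 h
  rw [abs_le]
  constructor
  · have : ((-(⌈b⌉ + 1) : ℤ) : ℝ) < ((⌊x⌋ - ⌊y⌋ : ℤ) : ℝ) + 1 := by push_cast; linarith
    have h8 : -(⌈b⌉ + 1) < ⌊x⌋ - ⌊y⌋ + 1 := by exact_mod_cast this
    omega
  · have : ((⌊x⌋ - ⌊y⌋ : ℤ) : ℝ) < ((⌈b⌉ + 1 : ℤ) : ℝ) := by push_cast; linarith
    exact (by exact_mod_cast this : ⌊x⌋ - ⌊y⌋ < ⌈b⌉ + 1).le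

theorem dd_fl {n : ℕ} {z p : ℂ} {δ : ℝ} (h : ‖z - p‖ < δ) : dd (fl n z) (fl n p) ≤ ⌈(n : ℝ) * δ⌉ + 1 := by
  have hn' : (0 : ℝ) ≤ n := by positivity
  have h1 : |z.re - p.re| ≤ δ := by
    have := Complex.abs_re_le_norm (z - p)
    rw [Complex.sub_re] at this
    linarith
  have h2 : |z.im - p.im| ≤ δ := by
    have := Complex.abs_im_le_norm (z - p)
    rw [Complex.sub_im] at this
    linarith
  unfold dd fl
  refine max_le (floor_sub_le ?_) (floor_sub_le ?_)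
  · rw [← mul_sub, abs_mul, abs_of_nonneg hn']
    exact mul_le_mul_of_nonneg_left h1 hn'
  · rw [← mul_sub, abs_mul, abs_of_nonneg hn']
    exact mul_le_mul_of_nonneg_left h2 hn'

/-! ## Small oscillation -/

/-- **From `LD1` to `LOsc`.** -/
theorem losc_of_LD (hLD : LD1) (hS : RowSame) (hG : RowGeo) {P : Finset (ℤ × ℤ)} (hP : MPoly P) {ι : Type*}
    {l : Filter ι} {n : ι → ℕ} (hn : Tendsto n l atTop) {κ κ' : Type} {K : Finset κ} {K' : Finset κ'}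
    (hK : K.Nonempty) (hK' : K'.Nonempty) {E : ι → κ → WEnv} {E' : ι → κ' → WEnv} {p : ℂ} (hp : p ∈ Cl P)
    {ρ M : ℝ} (hρ : 0 < ρ) (hM : 0 ≤ M)
    (hE : ∀ᶠ i in l, ∀ k ∈ K, Loc (E i k) (rf (n i) P) (fl (n i) p) ⌊ρ * n i⌋ M)
    (hE' : ∀ᶠ i in l, ∀ k ∈ K', Loc (E' i k) (rf (n i) P) (fl (n i) p) ⌊ρ * n i⌋ M)
    (hst : ∀ᶠ i in l, ∀ k ∈ K, ∀ k' ∈ K', ∀ a ∈ bS ZQ (rf (n i) P), ∀ b ∈ bS ZQ (rf (n i) P),
      Ah ZQ (BR (fl (n i) p) ⌊ρ * n i⌋) a → Ah ZQ (BR (fl (n i) p) ⌊ρ * n i⌋) b →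
      (E' i k').t a b = (E i k).t a b ∧ (E' i k').s a b = (E i k).s a b)
    (b b' : ι → VZ) :
    LOsc l n P (fun i w => hF K (E i) w (b i) - hF K' (E' i) w (b' i)) p := by
  obtain ⟨C, c, hC, hc, h⟩ := hF_same hLD hS
  obtain ⟨δ₀, hδ₀, hgeo⟩ := hG P hP
  intro ε hε
  -- the scale
  obtain ⟨ρ', hρ', hρρ, hρδ⟩ : ∃ ρ' : ℝ, 0 < ρ' ∧ ρ' ≤ ρ ∧ ρ' ≤ δ₀ :=
    ⟨min ρ δ₀, lt_min hρ hδ₀, min_le_left _ _, min_le_right _ _⟩
  -- the ratio
  obtain ⟨η, hη, hη1, hη2⟩ : ∃ η : ℝ, 0 < η ∧ η ≤ 1 / 64 ∧ C * M * (η ^ c + η ^ c) ≤ ε := by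
    have ht : Tendsto (fun η : ℝ => C * M * (η ^ c + η ^ c)) (𝓝[>] 0) (𝓝 (C * M * (0 + 0))) := by
      have h1 : Tendsto (fun η : ℝ => η ^ c) (𝓝[>] 0) (𝓝 0) := by
        have h2 := (Real.continuousAt_rpow_const 0 c (Or.inr hc.le)).tendsto
        rw [Real.zero_rpow hc.ne'] at h2
        exact h2.mono_left nhdsWithin_le_nhds
      exact (h1.add h1).const_mul _
    rw [add_zero, mul_zero] at ht
    have h1 := ht.eventually (gt_mem_nhds hε)
    have h2 : ∀ᶠ η : ℝ in 𝓝[>] 0, η < 1 / 64 :=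
      mem_nhdsWithin_of_mem_nhds (gt_mem_nhds (by norm_num))
    obtain ⟨η, h3, h4, h5⟩ := (h1.and (h2.and self_mem_nhdsWithin)).exists
    exact ⟨η, h5, h4.le, h3.le⟩
  refine ⟨ρ' * η ^ 2 / 16, by positivity, ?_⟩
  -- large `n`
  have hnr : Tendsto (fun i => (n i : ℝ)) l atTop := tendsto_natCast_atTop_atTop.comp hn
  have hbig := hnr.eventually_ge_atTop (64 / (ρ' * η ^ 2) + 1)
  have hgeo' := hn.eventually hgeo
  filter_upwards [hE, hE', hst, hbig, hgeo'] with i hE hE' hst hbig hgeo z hz w hw hzp hwp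
  have hn0 : (0 : ℝ) < n i := by
    have : 0 < 64 / (ρ' * η ^ 2) := by positivity
    linarith
  have hn1 : 0 < n i := by exact_mod_cast hn0
  -- `ρ' η² n ≥ 64`
  have hb : 64 ≤ ρ' * η ^ 2 * n i := by
    have h1 : 64 / (ρ' * η ^ 2) ≤ n i := by linarith
    rw [div_le_iff₀ (by positivity)] at h1
    linarith
  set N : ℝ := (n i : ℝ) with hN
  set d : ℤ := ⌊ρ' * N⌋ with hd
  set R : ℤ := ⌊ρ' * η * N / 2⌋ with hR
  set s : ℤ := ⌈N * (ρ' * η ^ 2 / 16)⌉ + 1 with hs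
  have hη3 : η ^ 2 ≤ η / 64 := by nlinarith
  have hb1 : 64 * 64 ≤ ρ' * η * N := by
    have : ρ' * η ^ 2 * N ≤ ρ' * (η / 64) * N :=
      mul_le_mul_of_nonneg_right (mul_le_mul_of_nonneg_left hη3 hρ'.le) hn0.le
    nlinarith
  have hb2 : 64 * (ρ' * η * N) ≤ ρ' * N := by
    have : ρ' * η * N ≤ ρ' * (1 / 64) * N :=
      mul_le_mul_of_nonneg_right (mul_le_mul_of_nonneg_left hη1 hρ'.le) hn0.le
    nlinarith
  have hd1 := Int.floor_le (ρ' * N)
  have hd2 := Int.lt_floor_add_one (ρ' * N)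
  have hR1 := Int.floor_le (ρ' * η * N / 2)
  have hR2 := Int.lt_floor_add_one (ρ' * η * N / 2)
  have hs1 := Int.le_ceil (N * (ρ' * η ^ 2 / 16))
  have hs2 := Int.ceil_lt_add_one (N * (ρ' * η ^ 2 / 16))
  rw [← hd] at hd1 hd2
  rw [← hR] at hR1 hR2
  have hs' : (s : ℝ) = ⌈N * (ρ' * η ^ 2 / 16)⌉ + 1 := by rw [hs]; push_cast; ring
  have hsr : (s : ℝ) ≤ ρ' * η ^ 2 * N / 16 + 2 := by rw [hs']; linarith
  have hs0 : 1 ≤ s := by
    have : (0 : ℝ) ≤ ⌈N * (ρ' * η ^ 2 / 16)⌉ := le_trans (by positivity) hs1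
    have : (0 : ℤ) ≤ ⌈N * (ρ' * η ^ 2 / 16)⌉ := by exact_mod_cast this
    omega
  -- ratios
  have hRpos : (0 : ℝ) < R := by linarith
  have hdpos : (0 : ℝ) < d := by linarith
  have hsη : (s : ℝ) ≤ η * R := by
    have h1 : ρ' * η * N / 2 - 1 ≤ R := by linarith
    have h2 : η * (ρ' * η * N / 2 - 1) ≤ η * R := mul_le_mul_of_nonneg_left h1 hη.le
    nlinarith
  have hRη : (R : ℝ) ≤ η * d := by
    have h1 : ρ' * N - 1 ≤ d := by linarith
    have h2 : η * (ρ' * N - 1) ≤ η * d := mul_le_mul_of_nonneg_left h1 hη.le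
    nlinarith
  have h4s : 4 * s ≤ R := by
    have : (4 : ℝ) * s ≤ R := by nlinarith
    exact_mod_cast this
  have h64 : 64 * R ≤ d := by
    have : (64 : ℝ) * R ≤ d := by nlinarith
    exact_mod_cast this
  have hdd : d ≤ ⌊ρ * N⌋ := Int.floor_le_floor (mul_le_mul_of_nonneg_right hρρ hn0.le)
  have hdδ : (d : ℝ) ≤ δ₀ * N := hd1.trans (mul_le_mul_of_nonneg_right hρδ hn0.le)
  obtain ⟨hL, hq⟩ := hgeo (fl (n i) p) d (isV_fl hn1 hp) hdδ
  have hpot : HasPotQ ZQ (rf (n i) P) := (CARf.mpoly_rf hP hn1).potQ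
  have key := h κ κ' K K' (E i) (E' i) (rf (n i) P) (fl (n i) p) d s R M (fl (n i) z) (fl (n i) w) hK hK' hpot
    hL (hq (by omega)) (fun k hk => (hE k hk).mono hdd) (fun k hk => (hE' k hk).mono hdd)
    (fun k hk k' hk' a ha b hb h1 h2 => hst k hk k' hk' a ha b hb (h1.mono (br_le hdd))
      (h2.mono (br_le hdd))) hM hs0 h4s h64 (isV_fl hn1 hz) (isV_fl hn1 hw) (dd_fl hzp) (dd_fl hwp)
  have e : hF K (E i) (fl (n i) z) (b i) - hF K' (E' i) (fl (n i) z) (b' i) -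
      (hF K (E i) (fl (n i) w) (b i) - hF K' (E' i) (fl (n i) w) (b' i)) =
      hF K (E i) (fl (n i) z) (fl (n i) w) - hF K' (E' i) (fl (n i) z) (fl (n i) w) := by
    have e1 := hF_sub K (E i) (fl (n i) z) (fl (n i) w) (b i)
    have e2 := hF_sub K' (E' i) (fl (n i) z) (fl (n i) w) (b' i)
    linarith
  rw [e]
  refine key.trans (le_trans ?_ hη2)
  refine mul_le_mul_of_nonneg_left ?_ (by positivity)
  have hs00 : (0 : ℝ) ≤ s := by
    have : (0 : ℤ) ≤ s := by omega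
    exact_mod_cast this
  have h1 : (s : ℝ) / R ≤ η := by rw [div_le_iff₀ hRpos]; exact hsη
  have h2 : (R : ℝ) / d ≤ η := by rw [div_le_iff₀ hdpos]; exact hRη
  exact add_le_add (Real.rpow_le_rpow (by positivity) h1 hc.le)
    (Real.rpow_le_rpow (by positivity) h2 hc.le)

end

end Pool.Agent.SixB.GG
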