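import Pool.Agent.Lib.SixB.S6GPoleA
import Pool.Agent.Lib.SixB.S6GOsc
import Pool.Agent.Lib.SixB.CADomDefs
import Pool.Agent.Lib.SixB.CAEnvIn

/-!
# 6BD block CA, growth at `e`, part C: the two zero arcs of `e`, official form

* `jX_near`, `csum_near`: the jumps of `envX` near the side `e = (c, c + 1)`; `wt_near`, `wt_e`: the weights near `e`;
  `wt_off`: the weights of the two neighbouring environments agree off their sides.
* `wall_flat`: the sides of a half plane box. `poleE_X`: `Pole.PoleE` for `envX`.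
* `far_conn`: paths outside of a box. THEOREM `pole_lat` (`PoleLat`): lattice form, uniform in the vertices.
-/

set_option autoImplicit false
set_option linter.unusedSectionVars false

namespace Pool.Agent.SixB.Pole

open Pool.Agent.Perc Pool.Agent.Perc.Q Pool.Agent.Perc6 Pool.Agent.PercD Relation
open Pool.Agent.SixB.Tilt Filter Topology
open Ht (tJ dJ)

noncomputable section

variable {F F' B : Finset (ℤ × ℤ)} {ω ω' : Cfg} {κ : ZMod 4} {v : ℤ × ℤ} {r s R D x y : ℤ}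
  {e : DZ} {z q : VZ}

/-! ## Weights -/

theorem cos6 : Real.cos (Real.pi / 6) = Real.sqrt 3 / 2 := Real.cos_pi_div_six

theorem tJ_z : tJ 0 = 1 := by
  unfold Ht.tJ
  rw [zero_sub, Real.cos_neg, cos6, div_self]
  positivity

theorem tJ_neg1 : tJ (-(Real.pi / 3)) = 0 := by
  unfold Ht.tJ
  rw [show -(Real.pi / 3) - Real.pi / 6 = -(Real.pi / 2) by ring, Real.cos_neg, Real.cos_pi_div_two,
    zero_div]

theorem tJ_neg2 : tJ (-(2 * (Real.pi / 3))) = -1 := by
  unfold Ht.tJ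
  rw [show -(2 * (Real.pi / 3)) - Real.pi / 6 = -(Real.pi - Real.pi / 6) by ring, Real.cos_neg,
    Real.cos_pi_sub, neg_div, cos6, div_self]
  positivity

theorem dJ_neg1 : dJ (-(Real.pi / 3)) = 2 / Real.sqrt 3 := by
  unfold Ht.dJ
  rw [show Real.pi / 6 - -(Real.pi / 3) = Real.pi / 2 by ring, Real.sin_pi_div_two, cos6]
  field_simp

theorem abs_dJ (x : ℝ) : |dJ x| ≤ 2 / Real.sqrt 3 := by
  unfold Ht.dJ
  have h3 : 0 < Real.sqrt 3 := by positivity
  rw [cos6, abs_div, abs_of_pos (by positivity : 0 < Real.sqrt 3 / 2), div_le_div_iff₀ (by positivity) h3]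
  have := Real.abs_sin_le_one (Real.pi / 6 - x)
  nlinarith

/-- `a`, `b` in a window of radius `w` around `c`; the marks are outside of the window -/
structure Away (M : ℕ) (w c i j j' l : ℤ) : Prop where
  w0 : 0 ≤ w
  big : 2 * w + 2 < M
  hi : ∀ v, c - w ≤ v → v ≤ c + w → ¬ (M : ℤ) ∣ v - i
  hj : ∀ v, c - w ≤ v → v ≤ c + w → ¬ (M : ℤ) ∣ v - j
  hj' : ∀ v, c - w ≤ v → v ≤ c + w → ¬ (M : ℤ) ∣ v - j'
  hl : ∀ v, c - w ≤ v → v ≤ c + w → ¬ (M : ℤ) ∣ v - l

variable {M : ℕ} {w c i j j' l : ℤ} {α : ℝ}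

theorem dvd_small {M : ℕ} {a : ℤ} (h : (M : ℤ) ∣ a) (h1 : -(M : ℤ) < a) (h2 : a < M) : a = 0 := by
  obtain ⟨k, rfl⟩ := h
  have hk : k = 0 := by
    by_contra hk
    rcases lt_or_gt_of_ne hk with h3 | h3
    · nlinarith
    · nlinarith
  rw [hk, mul_zero]

/-- the jumps near `e` -/
theorem jX_near (h : Away M w c i j j' l) (h1 : c - w ≤ x) (h2 : x ≤ c + w) :
    jX M α i j j' l c x = (if x = c then -(Real.pi / 3) else 0) + (if x = c + 1 then -(Real.pi / 3) else 0) := by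
  have h0 := h.w0
  have hb := h.big
  have k1 : (M : ℤ) ∣ x - c ↔ x = c := by
    constructor
    · intro hd
      have := dvd_small hd (by omega) (by omega)
      omega
    · rintro rfl
      simp
  have k2 : (M : ℤ) ∣ x - (c + 1) ↔ x = c + 1 := by
    constructor
    · intro hd
      have := dvd_small hd (by omega) (by omega)
      omega
    · rintro rfl
      simp
  unfold jX jN
  rw [if_neg (h.hi x h1 h2), if_neg (h.hj x h1 h2), if_neg (h.hj' x h1 h2), if_neg (h.hl x h1 h2)]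
  simp only [k1, k2]
  split_ifs <;> ring

/-- the sum of the jumps near `e` -/
theorem csum_near (h : Away M w c i j j' l) {a b : ℤ} (h1 : c - w - 1 ≤ a) (h2 : b ≤ c + w) :
    csum (jX M α i j j' l c) a b = (if a < c ∧ c ≤ b then -(Real.pi / 3) else 0) +
      (if a < c + 1 ∧ c + 1 ≤ b then -(Real.pi / 3) else 0) := by
  unfold csum
  rw [Finset.sum_congr rfl fun x hx => jX_near (α := α) h (x := x)
    (by rw [Finset.mem_Ioc] at hx; omega) (by rw [Finset.mem_Ioc] at hx; omega)]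
  rw [Finset.sum_add_distrib, Finset.sum_ite_eq', Finset.sum_ite_eq']
  simp only [Finset.mem_Ioc]

section weights

variable {P : Finset (ℤ × ℤ)} {b : ℤ → VZ}

theorem cenv_diag (j : ℤ → ℝ) (a : DZ) : (cenv P b M j).t a a = 1 := by
  show tJ (csum j (min (cidx b M a : ℤ) (cidx b M a)) (max (cidx b M a : ℤ) (cidx b M a))) = 1
  rw [min_self, max_self, csum_self, tJ_z]

/-- the weights near `e`, not at `e` -/
theorem wt_near (hc : Cont P M b) (h : Away M w c i j j' l) {a a' : ℤ} (h1 : c - w - 1 ≤ a)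
    (h2 : a ≤ c + w) (h1' : c - w - 1 ≤ a') (h2' : a' ≤ c + w) (hac : a ≠ c) (hac' : a' ≠ c) :
    (cenv P b M (jX M α i j j' l c)).t (csd b a) (csd b a') =
      (if c < a then -1 else 1) * (if c < a' then -1 else 1) := by
  have hb := h.big
  have key : ∀ {a a' : ℤ}, c - w - 1 ≤ a → a' ≤ c + w → a ≠ c → a' ≠ c → a < a' →
      (cenv P b M (jX M α i j j' l c)).t (csd b a) (csd b a') =
        (if c < a then -1 else 1) * (if c < a' then -1 else 1) := by
    intro a a' h1 h2 h3 h4 h5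
    rw [(cenv_ts hc (jX_per M α i j j' l c) (csum_jX hc.pos α i j j' l c) h5 (by omega)).1,
      csum_near h h1 h2]
    rcases lt_or_gt_of_ne h3 with h6 | h6
    · rcases lt_or_gt_of_ne h4 with h7 | h7
      · rw [if_neg (by omega), if_neg (by omega), if_neg (by omega), if_neg (by omega), add_zero, tJ_z]
        ring
      · rw [if_pos (by omega), if_pos (by omega), if_neg (by omega), if_pos (by omega),
          show -(Real.pi / 3) + -(Real.pi / 3) = -(2 * (Real.pi / 3)) by ring, tJ_neg2]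
        ring
    · rw [if_neg (by omega), if_neg (by omega), if_pos (by omega), if_pos (by omega), add_zero, tJ_z]
      ring
  rcases lt_trichotomy a a' with h3 | h3 | h3
  · exact key h1 h2' hac hac' h3
  · subst h3
    rw [cenv_diag]
    split_ifs <;> norm_num
  · rw [(cenv P b M (jX M α i j j' l c)).t_symm, key h1' h2 hac' hac h3, mul_comm]

/-- the weights at `e` -/
theorem wt_e (hc : Cont P M b) (h : Away M w c i j j' l) {a : ℤ} (h1 : c - w - 1 ≤ a)
    (h2 : a ≤ c + w) (hac : a ≠ c) :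
    (cenv P b M (jX M α i j j' l c)).t (csd b c) (csd b a) = 0 ∧
    (cenv P b M (jX M α i j j' l c)).s (csd b c) (csd b a) =
      (if c < a then -1 else 1) * (2 / Real.sqrt 3) := by
  have hb := h.big
  have h0 := h.w0
  rcases lt_or_gt_of_ne hac with h3 | h3
  · obtain ⟨k1, k2⟩ := cenv_ts (F := P) hc (jX_per M α i j j' l c) (csum_jX hc.pos α i j j' l c) h3
      (by omega)
    rw [csum_near h h1 (by omega), if_pos (by omega), if_neg (by omega), add_zero] at k1 k2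
    rw [(cenv P b M (jX M α i j j' l c)).t_symm, (cenv P b M (jX M α i j j' l c)).s_anti, k1, k2,
      tJ_neg1, dJ_neg1, if_neg (by omega)]
    exact ⟨rfl, by ring⟩
  · obtain ⟨k1, k2⟩ := cenv_ts (F := P) hc (jX_per M α i j j' l c) (csum_jX hc.pos α i j j' l c) h3
      (by omega)
    rw [csum_near h (by omega) h2, if_neg (by omega), if_pos (by omega), zero_add] at k1 k2
    rw [k1, k2, tJ_neg1, dJ_neg1, if_pos (by omega)]
    exact ⟨rfl, by ring⟩

theorem abs_s_le (j : ℤ → ℝ) (a a' : DZ) : |(cenv P b M j).s a a'| ≤ 2 / Real.sqrt 3 := by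
  show |if cidx b M a < cidx b M a' then -dJ (csum j (cidx b M a) (cidx b M a'))
    else if cidx b M a' < cidx b M a then dJ (csum j (cidx b M a') (cidx b M a)) else 0| ≤ _
  split_ifs
  · rw [abs_neg]
    exact abs_dJ _
  · exact abs_dJ _
  · rw [abs_zero]
    positivity

/-- off the two sides at the mark the weights of the two environments agree -/
theorem wt_off (hP : MPoly P) (hc : Cont P M b) {a a' : DZ} (ha : a ∈ bS ZQ P) (ha' : a' ∈ bS ZQ P)
    (h1 : a ≠ csd b (c - 1)) (h2 : a ≠ csd b c) (h1' : a' ≠ csd b (c - 1)) (h2' : a' ≠ csd b c) :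
    (cenv P b M (jX M α i j j' l (c - 1))).t a a' = (cenv P b M (jX M α i j j' l c)).t a a' := by
  obtain ⟨m, hm, rfl⟩ := bS_csd hc hP ha c
  obtain ⟨m', hm', rfl⟩ := bS_csd hc hP ha' c
  have hne : ∀ m : ℕ, m < M → csd b (c + m) ≠ csd b (c - 1) → csd b (c + m) ≠ csd b c →
      1 ≤ m ∧ m + 2 ≤ M := by
    intro m hm h1 h2
    constructor
    · by_contra h3
      apply h2
      congr 1
      omega
    · by_contra h3
      apply h1
      have := hc.csd_per (c - 1) 1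
      rw [← this]
      congr 1
      omega
  have k := hne m hm h1 h2
  have k' := hne m' hm' h1' h2'
  have key : ∀ {m m' : ℕ}, 1 ≤ m → m' + 2 ≤ M → m < m' →
      (cenv P b M (jX M α i j j' l (c - 1))).t (csd b (c + m)) (csd b (c + m')) =
        (cenv P b M (jX M α i j j' l c)).t (csd b (c + m)) (csd b (c + m')) := by
    intro m m' h1 h2 h3
    rw [(cenv_ts hc (jX_per M α i j j' l (c - 1)) (csum_jX hc.pos α i j j' l (c - 1))
        (show c + (m : ℤ) < c + m' by omega) (by omega)).1,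
      (cenv_ts hc (jX_per M α i j j' l c) (csum_jX hc.pos α i j j' l c)
        (show c + (m : ℤ) < c + m' by omega) (by omega)).1]
    congr 1
    unfold csum
    refine Finset.sum_congr rfl fun x hx => ?_
    rw [Finset.mem_Ioc] at hx
    have e1 : ¬ (M : ℤ) ∣ x - (c - 1) := fun hd => by
      have hd' : (M : ℤ) ∣ x - (c - 1) - M := dvd_sub_self_right.mpr hd
      have := dvd_small hd' (by omega) (by omega)
      omega
    have e2 : ¬ (M : ℤ) ∣ x - (c + 1) := fun hd => by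
      have := dvd_small hd (by omega) (by omega)
      omega
    unfold jX
    have e3 : jN M (c - 1) x = 0 := if_neg e1
    have e4 : jN M (c + 1) x = 0 := if_neg e2
    rw [e3, e4, sub_add_cancel]
    ring
  rcases lt_trichotomy m m' with h3 | h3 | h3
  · exact key k.1 k'.2 h3
  · subst h3
    rw [cenv_diag, cenv_diag]
  · rw [(cenv P b M (jX M α i j j' l (c - 1))).t_symm, (cenv P b M (jX M α i j j' l c)).t_symm]
    exact key k'.1 k.2 h3

end weights

/-! ## The sides of a half plane box -/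

/-- side of the wall -/
def ws (κ : ZMod 4) (v : ℤ × ℤ) (i : ℤ) : DZ := (fr κ v i 0, fr κ v (i + 1) 0)

theorem em_ws (κ : ZMod 4) (v : ℤ × ℤ) : em κ v = ws κ v (-1) := by
  unfold em ws
  rw [show (-1 : ℤ) + 1 = 0 by norm_num]

theorem ep_ws (κ : ZMod 4) (v : ℤ × ℤ) : ep κ v = ws κ v 0 := by
  unfold ep ws
  rw [zero_add]

theorem ws_inj {i i' : ℤ} (h : ws κ v i = ws κ v i') : i = i' := (fr_inj (Prod.mk.inj h).1).1

/-- the starting sides in a half plane box are sides of the wall -/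
theorem wall_flat (h : FlatZ F κ v R) (hr : r < R) {a : DZ} (ha : a ∈ wall ZQ F (F ∩ BR v r)) :
    ∃ i, -r ≤ i ∧ i < r ∧ a = ws κ v i := by
  obtain ⟨h1, f, hf, k, rfl⟩ := mem_wall.mp ha
  have hini := (mem_bS.mp h1).2
  obtain ⟨x, y, rfl⟩ := exists_cl κ v f
  rw [h.mem_box hr.le] at hf
  have no : ∀ x' y' : ℤ, ∀ k' : ZMod 4, -R ≤ x' → x' < R → 0 ≤ y' → y' < R →
      (sd ZQ (cl κ v x y) k).swap = sd ZQ (cl κ v x' y') k' → False := by
    intro x' y' k' h2 h3 h4 h5 h6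
    exact hini (cl κ v x' y') (by
      have := (h x' y' h2 h3 (by omega) h5).mpr h4
      exact_mod_cast this) k' (by
        rw [← Prod.swap_swap (sd ZQ (cl κ v x y) k), h6]
        rfl)
  rcases k4' κ k with rfl | rfl | rfl | rfl
  · rcases eq_or_lt_of_le hf.2.2.1 with h2 | h2
    · refine ⟨x, hf.1, hf.2.1, ?_⟩
      rw [sd_0, ← h2]
      rfl
    · exact absurd (no x (y - 1) (k + 2) (by omega) (by omega) (by omega) (by omega) (by
        rw [sd_0, sd_2, sub_add_cancel]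
        rfl)) id
  · exact absurd (no (x + 1) y (κ + 3) (by omega) (by omega) (by omega) (by omega) (by
      rw [sd_1, sd_3]
      rfl)) id
  · exact absurd (no x (y + 1) κ (by omega) (by omega) (by omega) (by omega) (by
      rw [sd_2, sd_0]
      rfl)) id
  · exact absurd (no (x - 1) y (κ + 1) (by omega) (by omega) (by omega) (by omega) (by
      rw [sd_3, sd_1, sub_add_cancel]
      rfl)) id

/-- the sides on the right of `e` -/
def Uw (κ : ZMod 4) (v : ℤ × ℤ) (c D : ℤ) : Finset DZ := (Finset.Ioo c D).image (ws κ v)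

theorem mem_Uw {c D i : ℤ} (hi : i < D) : ws κ v i ∈ Uw κ v c D ↔ c < i := by
  unfold Uw
  rw [Finset.mem_image]
  constructor
  · rintro ⟨i', h1, h2⟩
    have := ws_inj h2
    rw [Finset.mem_Ioo] at h1
    omega
  · intro h
    exact ⟨i, Finset.mem_Ioo.mpr ⟨h, hi⟩, rfl⟩

theorem sgU_Uw {c D i : ℤ} (hi : i < D) : sgU (Uw κ v c D) (ws κ v i) = if c < i then -1 else 1 := by
  unfold sgU
  simp only [mem_Uw hi]

theorem card_Uw {c D : ℤ} : (Uw κ v c D).card = (D - c - 1).toNat := by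
  unfold Uw
  rw [Finset.card_image_of_injective _ fun i i' h => ws_inj h, Int.card_Ioo]

/-- **the weights of `envX` at the side with the number `c0` of the wall** -/
theorem poleE_X {P : Finset (ℤ × ℤ)} {b : ℤ → VZ} {k c0 c : ℤ} {H : Cfg → ℝ} (hc : Cont P M b)
    (hF : FlatZ P κ v (D + 1)) (hD : 1 ≤ D) (hb : ∀ i, -(D + 1) ≤ i → i ≤ D + 1 → b (k + i) = fr κ v i 0)
    (h0 : c0 = -1 ∨ c0 = 0) (hcc : k + c0 = c) (h : Away M (D + 1) c i j j' l)
    (hH : ∀ ω, |prO ZQ P (cenv P b M (jX M α i j j' l c)).T (ws κ v c0) ω| ≤ H ω) :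
    PoleE P v D H (2 / Real.sqrt 3) (ws κ v c0) (cenv P b M (jX M α i j j' l c)).T
      ((cenv P b M (jX M α i j j' l c)).s (ws κ v c0))
      (GA.Nz (cenv P b M (jX M α i j j' l c)) (ws κ v c0)) (Uw κ v c0 D) := by
  subst hcc
  set E := cenv P b M (jX M α i j j' l (k + c0)) with hE
  have hws : ∀ i, -(D + 1) ≤ i → i < D + 1 → ws κ v i = csd b (k + i) := by
    intro i h1 h2
    unfold csd ws
    rw [add_assoc, hb i h1 h2.le, hb (i + 1) (by omega) (by omega)]
  have hEF : E.F = P := rfl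
  refine ⟨?_, ?_, ?_, ?_, ?_, ?_, ?_⟩
  · intro a ha
    unfold Uw at ha
    obtain ⟨i, hi, rfl⟩ := Finset.mem_image.mp ha
    rw [Finset.mem_Ioo] at hi
    exact hF.side (by omega) (by omega)
  · rw [mem_Uw (by omega)]
    exact lt_irrefl _
  · intro a ha hne
    obtain ⟨i, h1, h2, rfl⟩ := wall_flat hF (by omega) ha
    have hi : i ≠ c0 := fun h => hne (by rw [h])
    rw [GA.mem_Nz]
    refine ⟨(mem_wall.mp ha).1, ?_⟩
    rw [hws i (by omega) (by omega), hws c0 (by omega) (by omega)]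
    exact (wt_e hc h (by omega) (by omega) (by omega)).1
  · intro a ha a' ha' hne hne'
    obtain ⟨i, h1, h2, rfl⟩ := wall_flat hF (by omega) ha
    obtain ⟨i', h1', h2', rfl⟩ := wall_flat hF (by omega) ha'
    have hi : i ≠ c0 := fun h => hne (by rw [h])
    have hi' : i' ≠ c0 := fun h => hne' (by rw [h])
    rw [sgW_mk, sgU_Uw h2, sgU_Uw h2']
    have e1 : E.T s(ws κ v i, ws κ v i') = E.t (ws κ v i) (ws κ v i') := rfl
    rw [e1, hws i (by omega) (by omega), hws i' (by omega) (by omega),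
      wt_near hc h (by omega) (by omega) (by omega) (by omega) (by omega) (by omega)]
    simp only [add_lt_add_iff_left]
    split_ifs <;> norm_num
  · intro a ha hne
    obtain ⟨i, h1, h2, rfl⟩ := wall_flat hF (by omega) ha
    have hi : i ≠ c0 := fun h => hne (by rw [h])
    rw [sgU_Uw h2, hws i (by omega) (by omega), hws c0 (by omega) (by omega),
      (wt_e hc h (by omega) (by omega) (by omega)).2]
    simp only [add_lt_add_iff_left]
    split_ifs <;> ring
  · intro a _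
    exact abs_s_le _ _ _
  · intro ω _
    exact hH ω

/-! ## Paths outside of a box -/

theorem dd_fr (κ : ZMod 4) (v : ℤ × ℤ) (x y : ℤ) : GG.dd (fr κ v x y) v = max |x| |y| := by
  unfold GG.dd
  rcases k4 κ with rfl | rfl | rfl | rfl
  · rw [fr_0]
    simp
  · rw [fr_1, max_comm]
    simp
  · rw [fr_2]
    simp
  · rw [fr_3, max_comm]
    simp

theorem isV_fst {e : DZ} (he : e ∈ dE ZQ F) : GG.IsV F e.1 := by
  obtain ⟨f, hf, k, rfl | rfl⟩ := mem_dE.mp he
  · exact ⟨f, hf, k, rfl⟩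
  · exact ⟨f, hf, k + 1, rfl⟩

theorem isV_flat (h : FlatZ F κ v R) (hx : |x| < R) (hy : |y| < R) (hv : GG.IsV F (fr κ v x y)) :
    0 ≤ y := by
  obtain ⟨f, hf, k, e⟩ := hv
  obtain ⟨x', y', rfl⟩ := exists_cl κ v f
  rw [abs_lt] at hx hy
  by_contra hneg
  rw [not_le] at hneg
  have key : (x' = x ∨ x' + 1 = x) ∧ (y' = y ∨ y' + 1 = y) := by
    rcases k4' κ k with rfl | rfl | rfl | rfl
    · rw [cor_0] at e
      have := fr_inj e
      omega
    · rw [cor_1] at e
      have := fr_inj e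
      omega
    · rw [cor_2] at e
      have := fr_inj e
      omega
    · rw [cor_3] at e
      have := fr_inj e
      omega
  have := (h x' y' (by omega) (by omega) (by omega) (by omega)).mp hf
  omega

/-- a face of a box has its corners in the box -/
theorem dd_corner {f : ℤ × ℤ} (hf : f ∈ BR v r) (k : ZMod 4) : GG.dd (ZQ.c f k) v ≤ r := by
  rw [mem_BR] at hf
  unfold GG.dd
  rcases k4 k with rfl | rfl | rfl | rfl
  · rw [zc0]
    exact max_le (abs_le.mpr (by simp only; omega)) (abs_le.mpr (by simp only; omega))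
  · rw [zc1]
    exact max_le (abs_le.mpr (by simp only; omega)) (abs_le.mpr (by simp only; omega))
  · rw [zc2]
    exact max_le (abs_le.mpr (by simp only; omega)) (abs_le.mpr (by simp only; omega))
  · rw [zc3]
    exact max_le (abs_le.mpr (by simp only; omega)) (abs_le.mpr (by simp only; omega))

theorem dd_edge {u u' : VZ} (h : (u, u') ∈ dE ZQ F) : GG.dd u v ≤ GG.dd u' v + 1 := by
  have key : ∀ (f : ℤ × ℤ) (k : ZMod 4), |(ZQ.c f k).1 - (ZQ.c f (k + 1)).1| ≤ 1 ∧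
      |(ZQ.c f k).2 - (ZQ.c f (k + 1)).2| ≤ 1 := by
    intro f k
    rcases k4 k with rfl | rfl | rfl | rfl
    · rw [show (0 : ZMod 4) + 1 = 1 by decide, zc0, zc1]
      simp
    · rw [show (1 : ZMod 4) + 1 = 2 by decide, zc1, zc2]
      simp
    · rw [show (2 : ZMod 4) + 1 = 3 by decide, zc2, zc3]
      simp
    · rw [show (3 : ZMod 4) + 1 = 0 by decide, zc3, zc0]
      simp
  have h2 : |u.1 - u'.1| ≤ 1 ∧ |u.2 - u'.2| ≤ 1 := by
    obtain ⟨f, hf, k, h | h⟩ := mem_dE.mp h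
    · obtain ⟨e1, e2⟩ := Prod.mk.inj h
      rw [e1, e2]
      exact key f k
    · obtain ⟨e1, e2⟩ := Prod.mk.inj h
      rw [e1, e2, abs_sub_comm, abs_sub_comm (sd ZQ f k).2.2]
      exact key f k
  have h3 : |u'.1 - v.1| ≤ GG.dd u' v := le_max_left _ _
  have h4 : |u'.2 - v.2| ≤ GG.dd u' v := le_max_right _ _
  rw [abs_le] at h3 h4
  rw [abs_le, abs_le] at h2
  unfold GG.dd at h3 h4 ⊢
  exact max_le (abs_le.mpr (by omega)) (abs_le.mpr (by omega))

/-- **a vertex outside of the box is joined to the box outside of the box** -/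
theorem far_conn (h : FlatZ F κ v D) (hr : 1 ≤ r) (hrD : r + 3 ≤ D) {z0 : VZ}
    (hc : ConnE ZQ F z0 (fr κ v 0 r)) (hz0 : r ≤ GG.dd z0 v) :
    ConnE ZQ (F \ (F ∩ BR v r)) (fr κ v 0 r) z0 := by
  have hq : ConnE ZQ (F \ (F ∩ BR v r)) (fr κ v 0 r) (fr κ v 0 (r + 1)) :=
    conn_out h (by omega) (by omega) (by omega) (by omega) (by omega) (by omega) (by omega) (by omega)
      (Or.inr (Or.inr le_rfl))
  revert hz0
  refine ReflTransGen.head_induction_on (motive := fun u _ => r ≤ GG.dd u v →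
    ConnE ZQ (F \ (F ∩ BR v r)) (fr κ v 0 r) u) hc (fun _ => ReflTransGen.refl) ?_
  intro u u' huu' _ ih hu
  have hV : GG.IsV F u := isV_fst huu'
  rcases le_or_gt (GG.dd u v) (r + 1) with h1 | h1
  · obtain ⟨x, y, rfl⟩ := exists_fr κ v u
    rw [dd_fr] at h1 hu
    have hx := (le_max_left _ _).trans h1
    have hy := (le_max_right _ _).trans h1
    have hy0 := isV_flat h (by omega) (by omega) hV
    rw [abs_le] at hx hy
    refine hq.trans (ConnE.symm (conn_out h (by omega) (by omega) (by omega) (by omega) hy0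
      (by omega) (by omega) (by omega) ?_))
    rcases le_max_iff.mp hu with h2 | h2
    · rcases le_abs.mp h2 with h3 | h3
      · exact Or.inl h3
      · exact Or.inr (Or.inl (by omega))
    · rw [abs_of_nonneg hy0] at h2
      exact Or.inr (Or.inr h2)
  · have h2 := dd_edge (v := v) huu'
    refine (ih (by omega)).tail ?_
    show (u', u) ∈ dE ZQ (F \ (F ∩ BR v r))
    obtain ⟨f, hf, k, h3⟩ := mem_dE.mp huu'
    have hfv : f ∉ F ∩ BR v r := by
      intro h4
      have h4' := (Finset.mem_inter.mp h4).2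
      have : GG.dd u v ≤ r := by
        rcases h3 with h3 | h3
        · rw [(Prod.mk.inj h3).1]
          exact dd_corner h4' k
        · rw [(Prod.mk.inj h3).1]
          exact dd_corner h4' (k + 1)
      omega
    refine mem_dE.mpr ⟨f, Finset.mem_sdiff.mpr ⟨hf, hfv⟩, k, ?_⟩
    rcases h3 with h3 | h3
    · right
      have := congrArg Prod.swap h3
      exact this
    · left
      have := congrArg Prod.swap h3
      rw [Prod.swap_swap] at this
      exact this

/-! ## Marks -/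

section official

variable {P : Finset (ℤ × ℤ)} {L n : ℕ} {g : ℤ → ℤ × ℤ} {t t' t₁ t₂ t₂' t₃ t₄ : ℝ}

theorem ev_lk {ξ δ : ℝ} (hδ : 0 < δ) {Q : ℕ × ℤ → Prop}
    (h : ∀ᶠ n : ℕ in atTop, ∀ k : ℤ, |(k : ℝ) / n - ξ| < δ → Q (n, k)) : ∀ᶠ p in lk ξ, Q p := by
  filter_upwards [(lk_n ξ).eventually h, (lk_k ξ).eventually (Metric.ball_mem_nhds ξ hδ)] with p h1 h2
  exact h1 p.2 h2

theorem not_dvd_near (h1 : t' < t) (h2 : t < t' + L) : ∃ δ : ℝ, 0 < δ ∧
    ∀ᶠ n : ℕ in atTop, ∀ x : ℤ, |(x : ℝ) / n - t| < δ → ¬ ((n * L : ℕ) : ℤ) ∣ x - ix n t' := by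
  set δ := min ((t - t') / 2) ((t' + L - t) / 2) with hδd
  have hδ : 0 < δ := lt_min (by linarith) (by linarith)
  have hδ1 : δ ≤ (t - t') / 2 := min_le_left _ _
  have hδ2 : δ ≤ (t' + L - t) / 2 := min_le_right _ _
  refine ⟨δ, hδ, ?_⟩
  have hN : ∀ᶠ n : ℕ in atTop, 1 < δ * n := by
    have := (tendsto_natCast_atTop_atTop (R := ℝ)).const_mul_atTop hδ
    exact this.eventually_gt_atTop 1
  filter_upwards [hN, eventually_gt_atTop 0] with n hn hn0 x hx hd
  have hn0' : (0 : ℝ) < n := by exact_mod_cast hn0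
  have k1 := Int.floor_le ((n : ℝ) * t')
  have k2 := Int.lt_floor_add_one ((n : ℝ) * t')
  rw [abs_lt, sub_lt_iff_lt_add, div_lt_iff₀ hn0', lt_sub_iff_add_lt, lt_div_iff₀ hn0'] at hx
  have e1 : (0 : ℝ) < ((x - ix n t' : ℤ) : ℝ) := by
    unfold ix
    push_cast
    nlinarith
  have e2 : ((x - ix n t' : ℤ) : ℝ) < ((n * L : ℕ) : ℤ) := by
    unfold ix
    push_cast
    nlinarith
  have e1' : 0 < x - ix n t' := by exact_mod_cast e1
  have e2' : x - ix n t' < ((n * L : ℕ) : ℤ) := by exact_mod_cast e2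
  have := dvd_small hd (by omega) e2'
  omega

theorem away_near (hm : Marks5 L g t₁ t₂ t₂' t₃ t₄) (hL : 0 < L) : ∃ δ : ℝ, 0 < δ ∧
    ∀ᶠ n : ℕ in atTop, ∀ k : ℤ, |(k : ℝ) / n - t₄| < δ → ∀ w : ℤ, 0 ≤ w → (w : ℝ) ≤ δ * n →
      Away (n * L) w k (ix n t₁) (ix n t₂) (ix n t₂') (ix n t₃) := by
  have h1 := hm.h1
  have h2 := hm.h2
  have h3 := hm.h3
  have h4 := hm.h4
  have h5 := hm.h5
  obtain ⟨δ₁, hδ₁, k1⟩ := not_dvd_near (t := t₄) (t' := t₁) (L := L) (by linarith) (by linarith)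
  obtain ⟨δ₂, hδ₂, k2⟩ := not_dvd_near (t := t₄) (t' := t₂) (L := L) (by linarith) (by linarith)
  obtain ⟨δ₃, hδ₃, k3⟩ := not_dvd_near (t := t₄) (t' := t₂') (L := L) (by linarith) (by linarith)
  obtain ⟨δ₄, hδ₄, k4⟩ := not_dvd_near (t := t₄) (t' := t₃) (L := L) (by linarith) (by linarith)
  set δ := min (min (min δ₁ δ₂) (min δ₃ δ₄)) (1 / 2) / 2 with hδd
  have hδ : 0 < δ := by positivity
  have hd1 : 2 * δ ≤ δ₁ := by
    have : 2 * δ ≤ δ₁ := by
      rw [hδd]
      linarith [min_le_left (min (min δ₁ δ₂) (min δ₃ δ₄)) (1 / 2 : ℝ), min_le_left (min δ₁ δ₂) (min δ₃ δ₄),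
        min_le_left δ₁ δ₂]
    exact this
  have hd2 : 2 * δ ≤ δ₂ := by
    rw [hδd]
    linarith [min_le_left (min (min δ₁ δ₂) (min δ₃ δ₄)) (1 / 2 : ℝ), min_le_left (min δ₁ δ₂) (min δ₃ δ₄),
      min_le_right δ₁ δ₂]
  have hd3 : 2 * δ ≤ δ₃ := by
    rw [hδd]
    linarith [min_le_left (min (min δ₁ δ₂) (min δ₃ δ₄)) (1 / 2 : ℝ), min_le_right (min δ₁ δ₂) (min δ₃ δ₄),
      min_le_left δ₃ δ₄]
  have hd4 : 2 * δ ≤ δ₄ := by
    rw [hδd]
    linarith [min_le_left (min (min δ₁ δ₂) (min δ₃ δ₄)) (1 / 2 : ℝ), min_le_right (min δ₁ δ₂) (min δ₃ δ₄),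
      min_le_right δ₃ δ₄]
  have hd5 : δ ≤ 1 / 4 := by
    rw [hδd]
    linarith [min_le_right (min (min δ₁ δ₂) (min δ₃ δ₄)) (1 / 2 : ℝ)]
  refine ⟨δ, hδ, ?_⟩
  filter_upwards [k1, k2, k3, k4, eventually_gt_atTop 4] with n k1 k2 k3 k4 hn k hk w hw0 hw
  have hn' : (0 : ℝ) < n := by
    have : 0 < n := by omega
    exact_mod_cast this
  have key : ∀ x : ℤ, k - w ≤ x → x ≤ k + w → |(x : ℝ) / n - t₄| < 2 * δ := by
    intro x hx1 hx2
    have e1 : (x : ℝ) / n - t₄ = ((k : ℝ) / n - t₄) + ((x : ℝ) - k) / n := by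
      field_simp
      ring
    have e2 : |((x : ℝ) - k) / n| ≤ δ := by
      rw [abs_div, abs_of_pos hn', div_le_iff₀ hn']
      refine le_trans ?_ hw
      rw [abs_le]
      constructor
      · have : (k : ℝ) - w ≤ x := by exact_mod_cast hx1
        linarith
      · have : (x : ℝ) ≤ k + w := by exact_mod_cast hx2
        linarith
    rw [e1]
    refine (abs_add_le _ _).trans_lt ?_
    linarith
  refine ⟨hw0, ?_, fun x hx1 hx2 => k1 x ((key x hx1 hx2).trans_le hd1),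
    fun x hx1 hx2 => k2 x ((key x hx1 hx2).trans_le hd2),
    fun x hx1 hx2 => k3 x ((key x hx1 hx2).trans_le hd3),
    fun x hx1 hx2 => k4 x ((key x hx1 hx2).trans_le hd4)⟩
  have e1 : (w : ℝ) ≤ 1 / 4 * n := hw.trans (mul_le_mul_of_nonneg_right hd5 hn'.le)
  have e2 : 4 * w ≤ n := by
    have : (4 * w : ℝ) ≤ n := by linarith
    exact_mod_cast this
  have e3 : (n : ℤ) ≤ ((n * L : ℕ) : ℤ) := by
    exact_mod_cast Nat.le_mul_of_pos_right n hL
  omega

theorem exists_far (a b c : VZ) (m : ℤ) : ∃ z : VZ, m ≤ GG.dd z a ∧ m ≤ GG.dd z b ∧ m ≤ GG.dd z c := by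
  have key : ∀ a : VZ, |a.1| ≤ |a.1| + |b.1| + |c.1| → m ≤ GG.dd (|a.1| + |b.1| + |c.1| + |m|, 0) a := by
    intro a _
    refine le_trans ?_ (le_max_left _ _)
    have h1 := le_abs_self a.1
    have h2 := abs_nonneg b.1
    have h3 := abs_nonneg c.1
    have h4 := le_abs_self m
    refine le_trans ?_ (le_abs_self _)
    show m ≤ |a.1| + |b.1| + |c.1| + |m| - a.1
    omega
  refine ⟨(|a.1| + |b.1| + |c.1| + |m|, 0), ?_, ?_, ?_⟩
  · refine le_trans ?_ (le_max_left _ _)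
    refine le_trans ?_ (le_abs_self _)
    show m ≤ |a.1| + |b.1| + |c.1| + |m| - a.1
    have h1 := le_abs_self a.1
    have h2 := abs_nonneg b.1
    have h3 := abs_nonneg c.1
    have h4 := le_abs_self m
    omega
  · refine le_trans ?_ (le_max_left _ _)
    refine le_trans ?_ (le_abs_self _)
    show m ≤ |a.1| + |b.1| + |c.1| + |m| - b.1
    have h1 := abs_nonneg a.1
    have h2 := le_abs_self b.1
    have h3 := abs_nonneg c.1
    have h4 := le_abs_self m
    omega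
  · refine le_trans ?_ (le_max_left _ _)
    refine le_trans ?_ (le_abs_self _)
    show m ≤ |a.1| + |b.1| + |c.1| + |m| - c.1
    have h1 := abs_nonneg a.1
    have h2 := abs_nonneg b.1
    have h3 := le_abs_self c.1
    have h4 := le_abs_self m
    omega

/-- **Lattice form**, uniform in the vertices `z` (inside) and `z'` (outside of the box of radius `s + 1`). -/
theorem pole_lat (hR : DomX.ResX) (hP : MPoly P) (hc : Cont P L g) (hm : Marks5 L g t₁ t₂ t₂' t₃ t₄) :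
    ∃ C δ : ℝ, 0 < C ∧ 0 < δ ∧ ∀ᶠ p : ℕ × ℤ in lk t₄, ∀ α ∈ Set.Icc (0 : ℝ) 1, ∀ (z z' : VZ) (r s : ℤ),
      GG.IsV (rf p.1 P) z → GG.IsV (rf p.1 P) z' → 1 ≤ r → 2 * r + 1 ≤ GG.dd z (gr p.1 g p.2) →
      GG.dd z (gr p.1 g p.2) + 1 ≤ s → s + 1 ≤ GG.dd z' (gr p.1 g p.2) → (s : ℝ) ≤ δ * p.1 →
      |av (rf p.1 P) (GA.zp (envX P L g p.1 α (ix p.1 t₁) (ix p.1 t₂) (ix p.1 t₂') (ix p.1 t₃) (p.2 - 1))
            (csd (gr p.1 g) (p.2 - 1)) z z') +
          av (rf p.1 P) (GA.zp (envX P L g p.1 α (ix p.1 t₁) (ix p.1 t₂) (ix p.1 t₂') (ix p.1 t₃) p.2)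
            (csd (gr p.1 g) p.2) z z')| ≤
        C * p.1 * (1 / s + s / (r * p.1) + 1 / r * (1 / r : ℝ) ^ (1 / 4 : ℝ)) *
          ((envX P L g p.1 α (ix p.1 t₁) (ix p.1 t₂) (ix p.1 t₂') (ix p.1 t₃) (p.2 - 1)).Z +
            (envX P L g p.1 α (ix p.1 t₁) (ix p.1 t₂) (ix p.1 t₂') (ix p.1 t₃) p.2).Z) := by
  obtain ⟨C₁, hC₁, PP⟩ := pole_pair
  obtain ⟨κ, δ₁, hδ₁, hflat⟩ := flat_near hc hm.f4
  obtain ⟨δ₂, hδ₂, haway⟩ := away_near hm hc.pos
  obtain ⟨ρ₀, hρ₀, hRes⟩ := hR P L g hP hc _ _ _ _ _ hm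
  set ρ := min ρ₀ (min δ₁ δ₂) with hρd
  have hρ : 0 < ρ := lt_min hρ₀ (lt_min hδ₁ hδ₂)
  have hρ1 : ρ ≤ δ₁ := (min_le_right _ _).trans (min_le_left _ _)
  have hρ2 : ρ ≤ δ₂ := (min_le_right _ _).trans (min_le_right _ _)
  obtain ⟨A, hA, hev⟩ := hRes ρ hρ (min_le_left _ _)
  have hshift : Tendsto (fun p : ℕ × ℤ => (p.1, p.2 - 1)) (lk t₄) (lk t₄) := by
    refine tendsto_lk (lk_n t₄) ?_
    have h1 : Tendsto (fun p : ℕ × ℤ => 1 / (p.1 : ℝ)) (lk t₄) (𝓝 0) :=
      tendsto_one_div_atTop_nhds_zero_nat.comp (lk_n t₄)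
    have h2 := (lk_k t₄).sub h1
    rw [sub_zero] at h2
    refine h2.congr fun p => ?_
    push_cast
    rw [sub_div]
  have hev' := hshift.eventually hev
  have hN : ∀ᶠ n : ℕ in atTop, 10 < ρ * n ∧ 2 < δ₂ * n := by
    have h1 := ((tendsto_natCast_atTop_atTop (R := ℝ)).const_mul_atTop hρ).eventually_gt_atTop 10
    have h2 := ((tendsto_natCast_atTop_atTop (R := ℝ)).const_mul_atTop hδ₂).eventually_gt_atTop 2
    exact h1.and h2
  have hball : ∀ᶠ p : ℕ × ℤ in lk t₄, |(p.2 : ℝ) / p.1 - t₄| < min δ₁ (δ₂ / 2) :=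
    (lk_k t₄).eventually (Metric.ball_mem_nhds t₄ (lt_min hδ₁ (by linarith)))
  refine ⟨C₁ * (2 / Real.sqrt 3) * A * (1 + 2 / ρ), ρ / 2, by positivity, by positivity, ?_⟩
  filter_upwards [hev, hev', (lk_n t₄).eventually haway, (lk_n t₄).eventually hN, hball]
    with p hev hev' haway hN hball α hα z z' r s hz hz' hr hrz hzs hsz' hs
  obtain ⟨n, k⟩ := p
  simp only at hev hev' haway hN hball hz hz' hrz hzs hsz' hs ⊢
  obtain ⟨hN1, hN2⟩ := hN
  have hn' : (0 : ℝ) < n := by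
    by_contra hneg
    rw [not_lt] at hneg
    nlinarith
  have hn : 0 < n := by exact_mod_cast hn'
  set v := gr n g k with hv
  set R := ⌊ρ * (n : ℝ)⌋ with hRd
  have hR8 : 8 ≤ R := by
    rw [hRd, Int.le_floor]
    push_cast
    linarith
  have hRle : (R : ℝ) ≤ ρ * n := Int.floor_le _
  have hRlt : ρ * n < R + 1 := Int.lt_floor_add_one _
  obtain ⟨hF, hg⟩ := hflat n hn k (hball.trans_le (min_le_left _ _)) R (by omega)
    (hRle.trans (mul_le_mul_of_nonneg_right hρ1 hn'.le))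
  obtain ⟨D, hD⟩ : ∃ D : ℤ, D + 1 = R := ⟨R - 1, by ring⟩
  rw [← hD] at hF hg
  have hF' : FlatZ (rf n P) κ v D := fun x y a1 a2 a3 a4 =>
    hF x y (by omega) (by omega) (by omega) (by omega)
  have hPn : MPoly (rf n P) := CARf.mpoly_rf hP hn
  have hcn : Cont (rf n P) (n * L) (gr n g) := CARf.cont_rf hc hn
  have hball2 : |(k : ℝ) / n - t₄| < δ₂ / 2 := hball.trans_le (min_le_right _ _)
  have hball3 : |((k - 1 : ℤ) : ℝ) / n - t₄| < δ₂ := by
    have e1 : ((k - 1 : ℤ) : ℝ) / n - t₄ = ((k : ℝ) / n - t₄) - 1 / n := by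
      push_cast
      rw [sub_div]
      ring
    have e2 : 1 / (n : ℝ) < δ₂ / 2 := by
      rw [div_lt_iff₀ hn']
      linarith
    have e3 : (0 : ℝ) < 1 / n := by positivity
    rw [e1]
    rw [abs_lt] at hball2 ⊢
    constructor <;> linarith
  have hA0 : Away (n * L) (D + 1) k (ix n t₁) (ix n t₂) (ix n t₂') (ix n t₃) := by
    rw [hD]
    exact haway k (hball2.trans (by linarith)) R (by omega)
      (hRle.trans (mul_le_mul_of_nonneg_right hρ2 hn'.le))
  have hA1 : Away (n * L) (D + 1) (k - 1) (ix n t₁) (ix n t₂) (ix n t₂') (ix n t₃) := by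
    rw [hD]
    exact haway (k - 1) hball3 R (by omega)
      (hRle.trans (mul_le_mul_of_nonneg_right hρ2 hn'.le))
  -- the two sides
  have hc0 : csd (gr n g) k = ep κ v := by
    unfold csd ep
    rw [hg 1 (by omega) (by omega), ← hg 0 (by omega) (by omega), add_zero]
  have hc1 : csd (gr n g) (k - 1) = em κ v := by
    unfold csd em
    rw [sub_add_cancel, show k - 1 = k + -1 by ring, hg (-1) (by omega) (by omega),
      ← hg 0 (by omega) (by omega), add_zero]
  -- the majorants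
  obtain ⟨zf, f1, f2, f3⟩ := exists_far (gr n g (ix n t₂)) (gr n g (ix n t₂')) (gr n g k) (8 * R)
  obtain ⟨zg, g1, g2, g3⟩ := exists_far (gr n g (ix n t₂)) (gr n g (ix n t₂')) (gr n g (k - 1)) (8 * R)
  obtain ⟨H₀, h0⟩ := hev α hα zf 0 (by omega) f1 f2 f3
  obtain ⟨H₁, h1⟩ := hev' α hα zg 0 (by omega) g1 g2 g3
  set E₀ := envX P L g n α (ix n t₁) (ix n t₂) (ix n t₂') (ix n t₃) k with hE₀
  set E₁ := envX P L g n α (ix n t₁) (ix n t₂) (ix n t₂') (ix n t₃) (k - 1) with hE₁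
  have hH0 : ∀ ω, 0 ≤ H₀ ω + H₁ ω := fun ω => add_nonneg (h0.nonneg ω) (h1.nonneg ω)
  have hv1 : gr n g (k - 1) = fr κ v (-1) 0 := by
    rw [show k - 1 = k + -1 by ring, hg (-1) (by omega) (by omega)]
  have hdep : Dep ((rf n P \ (rf n P ∩ BR v D) : Finset (ℤ × ℤ)) : Set (ℤ × ℤ))
      (fun ω => H₀ ω + H₁ ω) := by
    intro ω ω' hω
    have e0 : H₀ ω = H₀ ω' := h0.dep ω ω' fun f hf => hω f (by
      rw [Finset.mem_coe, Finset.mem_sdiff, Finset.mem_union] at hf
      rw [Finset.mem_coe, Finset.mem_sdiff, Finset.mem_inter]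
      refine ⟨hf.1, fun h => hf.2 (Or.inl ?_)⟩
      have h2 := h.2
      rw [mem_BR] at h2 ⊢
      omega)
    have e1 : H₁ ω = H₁ ω' := h1.dep ω ω' fun f hf => hω f (by
      rw [Finset.mem_coe, Finset.mem_sdiff, Finset.mem_union] at hf
      rw [Finset.mem_coe, Finset.mem_sdiff, Finset.mem_inter]
      refine ⟨hf.1, fun h => hf.2 (Or.inl ?_)⟩
      have h2 := h.2
      rw [hv1]
      have h3 : GG.dd (fr κ v (-1) 0) v = 1 := by rw [dd_fr]; simp
      have h4 : |(fr κ v (-1) 0).1 - v.1| ≤ 1 := le_trans (le_max_left _ _) h3.le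
      have h5 : |(fr κ v (-1) 0).2 - v.2| ≤ 1 := le_trans (le_max_right _ _) h3.le
      rw [abs_le] at h4 h5
      rw [mem_BR] at h2 ⊢
      omega)
    simp only [e0, e1]
  have hem := em_mem hF' (by omega)
  have hep := ep_mem hF' (by omega)
  have hP1 : PoleE (rf n P) v D (fun ω => H₀ ω + H₁ ω) (2 / Real.sqrt 3) (em κ v) E₁.T (E₁.s (em κ v))
      (GA.Nz E₁ (em κ v)) (Uw κ v (-1) D) := by
    have h2 := poleE_X (α := α) (k := k) (c0 := -1) (c := k - 1) (H := fun ω => H₀ ω + H₁ ω) hcn hF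
      (by omega) hg (Or.inl rfl) (by ring) hA1 (fun ω => by
        have h3 := h1.pole ω
        have h4 : arcE (rf n P) ω (csd (gr n g) (k - 1)) = s(em κ v, mate ZQ (rf n P) ω (em κ v)) := by
          rw [hc1]
          exact GA.arcE_ini hem
        have h5 : |prO ZQ (rf n P) E₁.T (em κ v) ω| ≤ H₁ ω := by
          unfold prO
          rw [← h4]
          exact h3
        have h6 := h0.nonneg ω
        rw [← em_ws]
        refine h5.trans ?_
        show H₁ ω ≤ H₀ ω + H₁ ω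
        linarith)
    rw [← em_ws] at h2
    exact h2
  have hP0 : PoleE (rf n P) v D (fun ω => H₀ ω + H₁ ω) (2 / Real.sqrt 3) (ep κ v) E₀.T (E₀.s (ep κ v))
      (GA.Nz E₀ (ep κ v)) (Uw κ v 0 D) := by
    have h2 := poleE_X (α := α) (k := k) (c0 := 0) (c := k) (H := fun ω => H₀ ω + H₁ ω) hcn hF
      (by omega) hg (Or.inr rfl) (by ring) hA0 (fun ω => by
        have h3 := h0.pole ω
        have h4 : arcE (rf n P) ω (csd (gr n g) k) = s(ep κ v, mate ZQ (rf n P) ω (ep κ v)) := by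
          rw [hc0]
          exact GA.arcE_ini hep
        have h5 : |prO ZQ (rf n P) E₀.T (ep κ v) ω| ≤ H₀ ω := by
          unfold prO
          rw [← h4]
          exact h3
        have h6 := h1.nonneg ω
        rw [← ep_ws]
        refine h5.trans ?_
        show H₀ ω ≤ H₀ ω + H₁ ω
        linarith)
    rw [← ep_ws] at h2
    exact h2
  have hcard : (Uw κ v (-1) D).card = (Uw κ v 0 D).card + 1 := by
    rw [card_Uw, card_Uw]
    omega
  have hsg : ∀ a ∈ bS ZQ (rf n P), ∀ b ∈ bS ZQ (rf n P), a ≠ em κ v → a ≠ ep κ v → b ≠ em κ v →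
      b ≠ ep κ v → sgW (Uw κ v (-1) D) E₁.T s(a, b) = sgW (Uw κ v 0 D) E₀.T s(a, b) := by
    intro a ha b hb a1 a2 b1 b2
    have hU : ∀ a, a ≠ ep κ v → sgU (Uw κ v (-1) D) a = sgU (Uw κ v 0 D) a := by
      intro a ha
      unfold sgU
      have : a ∈ Uw κ v (-1) D ↔ a ∈ Uw κ v 0 D := by
        unfold Uw
        rw [Finset.mem_image, Finset.mem_image]
        constructor
        · rintro ⟨i, hi, rfl⟩
          rw [Finset.mem_Ioo] at hi
          refine ⟨i, ?_, rfl⟩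
          rw [Finset.mem_Ioo]
          have : i ≠ 0 := by
            rintro rfl
            exact ha (ep_ws κ v).symm
          omega
        · rintro ⟨i, hi, rfl⟩
          rw [Finset.mem_Ioo] at hi
          refine ⟨i, ?_, rfl⟩
          rw [Finset.mem_Ioo]
          omega
      simp only [this]
    rw [sgW_mk, sgW_mk, hU a a2, hU b b2]
    have e1 : E₁.T s(a, b) = E₁.t a b := rfl
    have e2 : E₀.T s(a, b) = E₀.t a b := rfl
    rw [e1, e2]
    congr 1
    exact wt_off hPn hcn ha hb (by rw [hc1]; exact a1) (by rw [hc0]; exact a2) (by rw [hc1]; exact b1)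
      (by rw [hc0]; exact b2)
  -- the vertices
  obtain ⟨x, y, rfl⟩ := exists_fr κ v z
  rw [dd_fr] at hrz hzs
  have hsR : s + 5 ≤ R := by
    rw [hRd, Int.le_floor]
    push_cast
    linarith
  have hx := (le_max_left |x| |y|).trans (by omega : max |x| |y| ≤ s - 1)
  have hy := (le_max_right |x| |y|).trans (by omega : max |x| |y| ≤ s - 1)
  have hrs : 2 * r + 1 ≤ s - 1 := hrz.trans (by omega)
  have hys : y ≤ s := (le_abs_self y).trans (by omega)
  have hy0 : 0 ≤ y := isV_flat hF' (by omega) (by omega) hz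
  have hconn : ConnE ZQ (rf n P \ (rf n P ∩ BR v (s + 1))) (fr κ v 0 (s + 1)) z' := by
    have hs1 : 0 ≤ s := by
      have := abs_nonneg x
      omega
    refine far_conn hF' (by omega) (by omega) ?_ hsz'
    obtain ⟨f, hf, k', hk'⟩ := hz'
    refine hPn.connV hcn ⟨f, hf, k', hk'.symm⟩ ⟨cl κ v 0 (s + 1), ?_, κ, (cor_0 κ v 0 (s + 1)).symm⟩
    exact (hF 0 (s + 1) (by omega) (by omega) (by omega) (by omega)).mpr (by omega)
  have key := PP (rf n P) κ v D (fun ω => H₀ ω + H₁ ω) (2 / Real.sqrt 3) E₁.T E₀.T (E₁.s (em κ v))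
    (E₀.s (ep κ v)) (GA.Nz E₁ (em κ v)) (GA.Nz E₀ (ep κ v)) (Uw κ v (-1) D) (Uw κ v 0 D) x y r s z'
    hPn.potQ hF' (by positivity) hH0 hdep hP1 hP0 hcard hsg hr ?_ (by omega) hy0 hys (by omega)
    (by omega) hconn
  · rw [hc0, hc1]
    refine key.trans ?_
    have hav : av (rf n P) (fun ω => H₀ ω + H₁ ω) ≤ A * n * (E₁.Z + E₀.Z) := by
      rw [av_add]
      have m0 : av (rf n P) H₀ ≤ A * n * E₀.Z := h0.mean
      have m1 : av (rf n P) H₁ ≤ A * n * E₁.Z := h1.mean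
      linarith
    have hr' : (1 : ℝ) ≤ r := by exact_mod_cast hr
    have hs' : (0 : ℝ) < s := by
      have : 0 < s := by omega
      exact_mod_cast this
    have hD' : ρ * n / 2 ≤ D := by
      have e1 : (D : ℝ) + 1 = R := by exact_mod_cast hD
      linarith
    have hDpos : (0 : ℝ) < D := lt_of_lt_of_le (by positivity) hD'
    have hZ : 0 < E₁.Z + E₀.Z := add_pos h1.Zpos h0.Zpos
    have b1 : (s : ℝ) / (r * D) ≤ 2 / ρ * (s / (r * n)) := by
      rw [div_mul_div_comm, div_le_div_iff₀ (by positivity) (by positivity)]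
      have : s * (ρ * (r * n)) ≤ s * (2 * r * D) := by
        refine mul_le_mul_of_nonneg_left ?_ hs'.le
        nlinarith
      nlinarith
    have b0 : 0 ≤ av (rf n P) (fun ω => H₀ ω + H₁ ω) := av_nonneg fun T _ => hH0 _
    have q1 : (0 : ℝ) ≤ 1 / s := by positivity
    have q2 : (0 : ℝ) ≤ s / (r * n) := by positivity
    have q3 : (0 : ℝ) ≤ 1 / r * (1 / r : ℝ) ^ (1 / 4 : ℝ) := by positivity
    have q4 : (0 : ℝ) < 2 / ρ := by positivity
    have b2 : (1 : ℝ) / s + s / (r * D) + 1 / r * (1 / r : ℝ) ^ (1 / 4 : ℝ) ≤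
        (1 + 2 / ρ) * (1 / s + s / (r * n) + 1 / r * (1 / r : ℝ) ^ (1 / 4 : ℝ)) := by
      nlinarith
    have b3 : (0 : ℝ) ≤ 1 / s + s / (r * D) + 1 / r * (1 / r : ℝ) ^ (1 / 4 : ℝ) := by positivity
    calc C₁ * (2 / Real.sqrt 3 * av (rf n P) fun ω => H₀ ω + H₁ ω) *
          (1 / s + s / (r * D) + 1 / r * (1 / r : ℝ) ^ (1 / 4 : ℝ))
        ≤ C₁ * (2 / Real.sqrt 3 * (A * n * (E₁.Z + E₀.Z))) *
          ((1 + 2 / ρ) * (1 / s + s / (r * n) + 1 / r * (1 / r : ℝ) ^ (1 / 4 : ℝ))) := by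
          refine mul_le_mul ?_ b2 b3 (by positivity)
          refine mul_le_mul_of_nonneg_left ?_ hC₁.le
          exact mul_le_mul_of_nonneg_left hav (by positivity)
      _ = _ := by ring
  · rcases le_max_iff.mp hrz with h2 | h2
    · exact Or.inl h2
    · rw [abs_of_nonneg hy0] at h2
      right
      omega

end official

/-- the pair of the zero arcs at `e`, lattice form -/
def PoleLat : Prop := ∀ (P : Finset (ℤ × ℤ)) (L : ℕ) (g : ℤ → ℤ × ℤ), MPoly P → Cont P L g →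
  ∀ t₁ t₂ t₂' t₃ t₄ : ℝ, Marks5 L g t₁ t₂ t₂' t₃ t₄ → ∃ C δ : ℝ, 0 < C ∧ 0 < δ ∧
    ∀ᶠ p : ℕ × ℤ in lk t₄, ∀ α ∈ Set.Icc (0 : ℝ) 1, ∀ (z z' : VZ) (r s : ℤ),
      GG.IsV (rf p.1 P) z → GG.IsV (rf p.1 P) z' → 1 ≤ r → 2 * r + 1 ≤ GG.dd z (gr p.1 g p.2) →
      GG.dd z (gr p.1 g p.2) + 1 ≤ s → s + 1 ≤ GG.dd z' (gr p.1 g p.2) → (s : ℝ) ≤ δ * p.1 →
      |av (rf p.1 P) (GA.zp (envX P L g p.1 α (ix p.1 t₁) (ix p.1 t₂) (ix p.1 t₂') (ix p.1 t₃) (p.2 - 1))
            (csd (gr p.1 g) (p.2 - 1)) z z') +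
          av (rf p.1 P) (GA.zp (envX P L g p.1 α (ix p.1 t₁) (ix p.1 t₂) (ix p.1 t₂') (ix p.1 t₃) p.2)
            (csd (gr p.1 g) p.2) z z')| ≤
        C * p.1 * (1 / s + s / (r * p.1) + 1 / r * (1 / r : ℝ) ^ (1 / 4 : ℝ)) *
          ((envX P L g p.1 α (ix p.1 t₁) (ix p.1 t₂) (ix p.1 t₂') (ix p.1 t₃) (p.2 - 1)).Z +
            (envX P L g p.1 α (ix p.1 t₁) (ix p.1 t₂) (ix p.1 t₂') (ix p.1 t₃) p.2).Z)

theorem poleLat_of (hR : DomX.ResX) : PoleLat := fun _ _ _ hP hc _ _ _ _ _ hm => pole_lat hR hP hc hm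

end

end Pool.Agent.SixB.Pole
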