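import Pool.Agent.Lib.SixB.S6GPoleD
import Pool.Agent.Lib.SixB.S6GPoleC
import Pool.Agent.Lib.SixB.CADomFin

/-!
# 6BD block CA, growth at `e`, part C2: the analytic end of the pole

`poleC_of : PoleLat → PoleC`, `poleC : PoleC`: choice of the scales `r = D / 2`, `s = (y d₀) ^ (1 / 2) n / 4`, `D` = distance of `z` from the
moving mark, `y = ‖z - gam t₄‖`; exponent `a = 1 / 2`.
-/

set_option autoImplicit false
set_option linter.ambiguousOpen false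

namespace Pool.Agent.SixB.GA

open Finset Pool.Agent.Perc Pool.Agent.Perc.Q Pool.Agent.PercD Pool.Agent.PercN Tilt HG Relation GG
open Filter Topology

noncomputable section

theorem zp_add (E : WEnv) (e : DZ) (z z' z'' : VZ) (ω : Cfg) :
    zp E e z z'' ω = zp E e z z' ω + zp E e z' z'' ω := by
  unfold zp Pole.tE
  split_ifs with h
  · push_cast
    ring
  · rw [add_zero]

section marks

variable {P : Finset (ℤ × ℤ)} {L : ℕ} {g : ℤ → ℤ × ℤ} {t₁ t₂ t₂' t₃ t₄ : ℝ}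

/-- the sum of the two means -/
def Az (P : Finset (ℤ × ℤ)) (L : ℕ) (g : ℤ → ℤ × ℤ) (t₁ t₂ t₂' t₃ α : ℝ) (p : ℕ × ℤ) (z z' : VZ) : ℝ :=
  av (rf p.1 P) (zp (envX P L g p.1 α (ix p.1 t₁) (ix p.1 t₂) (ix p.1 t₂') (ix p.1 t₃) (p.2 - 1))
      (csd (gr p.1 g) (p.2 - 1)) z z') +
    av (rf p.1 P) (zp (envX P L g p.1 α (ix p.1 t₁) (ix p.1 t₂) (ix p.1 t₂') (ix p.1 t₃) p.2)
      (csd (gr p.1 g) p.2) z z')

/-- the sum of the two partition functions -/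
def Zz (P : Finset (ℤ × ℤ)) (L : ℕ) (g : ℤ → ℤ × ℤ) (t₁ t₂ t₂' t₃ α : ℝ) (p : ℕ × ℤ) : ℝ :=
  (envX P L g p.1 α (ix p.1 t₁) (ix p.1 t₂) (ix p.1 t₂') (ix p.1 t₃) (p.2 - 1)).Z +
    (envX P L g p.1 α (ix p.1 t₁) (ix p.1 t₂) (ix p.1 t₂') (ix p.1 t₃) p.2).Z

theorem Az_add (α : ℝ) (p : ℕ × ℤ) (z z' z'' : VZ) : Az P L g t₁ t₂ t₂' t₃ α p z z'' =
    Az P L g t₁ t₂ t₂' t₃ α p z z' + Az P L g t₁ t₂ t₂' t₃ α p z' z'' := by
  have key : ∀ (E : WEnv) (e : DZ) (F : Finset (ℤ × ℤ)), av F (zp E e z z'') =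
      av F (zp E e z z') + av F (zp E e z' z'') := by
    intro E e F
    rw [← av_add]
    exact av_congr fun T _ => zp_add E e z z' z'' _
  unfold Az
  rw [key, key]
  ring

/-- positivity of the partition functions -/
theorem Zz_pos (hP : MPoly P) (hc : Cont P L g) (hM : Marks5 L g t₁ t₂ t₂' t₃ t₄) {α : ℝ}
    (hα : α ∈ Set.Icc (0 : ℝ) 1) : ∀ᶠ p : ℕ × ℤ in lk t₄, 0 < Zz P L g t₁ t₂ t₂' t₃ α p := by
  obtain ⟨ρ, C, hρ, -, h⟩ := maj_pair DomX.resX hP hc hM hα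
  obtain ⟨w, hw1, hw2⟩ : ∃ w : ℂ, w ≠ gam g t₄ ∧ ‖w - gam g t₄‖ < ρ := by
    refine ⟨gam g t₄ + ((ρ / 2 : ℝ) : ℂ), ?_, ?_⟩
    · intro h
      have h2 : ((ρ / 2 : ℝ) : ℂ) = 0 := by
        have := congrArg (fun z => z - gam g t₄) h
        simpa using this
      have h3 : ρ / 2 = 0 := by exact_mod_cast h2
      linarith
    · rw [add_sub_cancel_left, Complex.norm_real, Real.norm_eq_abs, abs_of_pos (by positivity)]
      linarith
  have hy0 : 0 < ‖w - gam g t₄‖ := norm_pos_iff.2 (sub_ne_zero.2 hw1)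
  filter_upwards [h w hw1 hw2, dist_near hc hw1, DomX.lk_pos t₄ ⌈20 / ‖w - gam g t₄‖⌉₊] with p k1 k2 hn
  have hn1 : 20 / ‖w - gam g t₄‖ < p.1 := (Nat.le_ceil _).trans_lt (by exact_mod_cast hn)
  have hyn : 20 < ‖w - gam g t₄‖ * p.1 := by rwa [div_lt_iff₀' hy0] at hn1
  have hD : (7 : ℝ) < dd (fl p.1 w) (gr p.1 g p.2) := by linarith [k2.1]
  have hD' : 7 < dd (fl p.1 w) (gr p.1 g p.2) := by exact_mod_cast hD
  exact add_pos (k1 false 1 le_rfl (by omega)).1 (k1 true 1 le_rfl (by omega)).1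

/-- the two distances are far apart -/
theorem pole_far (hF : Pole.PoleLat) (hP : MPoly P) (hc : Cont P L g) (hM : Marks5 L g t₁ t₂ t₂' t₃ t₄) {α : ℝ}
    (hα : α ∈ Set.Icc (0 : ℝ) 1) : ∃ d₁ : ℝ, 0 < d₁ ∧ ∀ d₀ : ℝ, 0 < d₀ → d₀ ≤ d₁ → ∃ C : ℝ, 0 < C ∧
      ∀ z ∈ Cl P, ∀ z' ∈ Cl P, z ≠ gam g t₄ → ‖z - gam g t₄‖ ≤ d₀ / 100 → d₀ ≤ ‖z' - gam g t₄‖ →
        ∀ᶠ p : ℕ × ℤ in lk t₄, |Az P L g t₁ t₂ t₂' t₃ α p (fl p.1 z) (fl p.1 z')| ≤
          C * ‖z - gam g t₄‖ ^ (-(1 / 2) : ℝ) * Zz P L g t₁ t₂ t₂' t₃ α p := by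
  obtain ⟨C, δ, hC, hδ, h⟩ := hF P L g hP hc _ _ _ _ _ hM
  refine ⟨min δ 1, by positivity, fun d₀ hd₀ hd₁ => ?_⟩
  have hdδ : d₀ ≤ δ := hd₁.trans (min_le_left _ _)
  have hd1 : d₀ ≤ 1 := hd₁.trans (min_le_right _ _)
  refine ⟨C * (8 / Real.sqrt d₀ + 5 * Real.sqrt d₀ + 1), by positivity, ?_⟩
  intro z hz z' hz' hzx hzy hzd
  obtain ⟨y, hy⟩ : ∃ y : ℝ, y = ‖z - gam g t₄‖ := ⟨_, rfl⟩
  have hy0 : 0 < y := by rw [hy]; exact norm_pos_iff.2 (sub_ne_zero.2 hzx)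
  have hz'x : z' ≠ gam g t₄ := by
    intro hh
    rw [hh, sub_self, norm_zero] at hzd
    linarith
  have k2 := dist_near hc hzx
  have k3 := dist_near hc hz'x
  rw [← hy] at hzy k2 ⊢
  have hy1 : y ≤ 1 := by linarith
  -- square roots
  obtain ⟨a, ha⟩ : ∃ a : ℝ, a = Real.sqrt y := ⟨_, rfl⟩
  obtain ⟨b, hb⟩ : ∃ b : ℝ, b = Real.sqrt d₀ := ⟨_, rfl⟩
  have ha0 : 0 < a := by rw [ha]; exact Real.sqrt_pos.2 hy0
  have hb0 : 0 < b := by rw [hb]; exact Real.sqrt_pos.2 hd₀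
  have haa : a * a = y := by rw [ha]; exact Real.mul_self_sqrt hy0.le
  have hbb : b * b = d₀ := by rw [hb]; exact Real.mul_self_sqrt hd₀.le
  have hab : 10 * a ≤ b := by
    by_contra hcon
    rw [not_le] at hcon
    nlinarith
  have hypow : y ^ (-(1 / 2) : ℝ) = 1 / a := by
    rw [Real.rpow_neg hy0.le, ← Real.sqrt_eq_rpow, ← ha, one_div]
  have ha1 : a ≤ 1 := by
    by_contra hcon
    rw [not_le] at hcon
    nlinarith
  filter_upwards [h, k2, k3, Zz_pos hP hc hM hα, DomX.lk_pos t₄ ⌈2000000 / y ^ 5⌉₊] with p h1 k2 k3 hZ hn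
  have hn1 : 2000000 / y ^ 5 < p.1 := (Nat.le_ceil _).trans_lt (by exact_mod_cast hn)
  have hn' : (0 : ℝ) < p.1 := lt_trans (by positivity) hn1
  have hn0 : 0 < p.1 := by exact_mod_cast hn'
  have hyn5 : 2000000 < y ^ 5 * p.1 := by rwa [div_lt_iff₀' (by positivity)] at hn1
  have hyn : 1000000 < y * p.1 := by
    have : y ^ 5 * p.1 ≤ y * p.1 := by
      refine mul_le_mul_of_nonneg_right ?_ hn'.le
      calc y ^ 5 ≤ y ^ 1 := pow_le_pow_of_le_one hy0.le hy1 (by norm_num)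
        _ = y := pow_one y
    linarith
  obtain ⟨D, hD⟩ : ∃ D : ℤ, D = dd (fl p.1 z) (gr p.1 g p.2) := ⟨_, rfl⟩
  obtain ⟨D', hD'⟩ : ∃ D' : ℤ, D' = dd (fl p.1 z') (gr p.1 g p.2) := ⟨_, rfl⟩
  rw [← hD] at k2
  rw [← hD'] at k3
  obtain ⟨r, hr⟩ : ∃ r : ℤ, r = (D - 1) / 2 := ⟨_, rfl⟩
  obtain ⟨s, hs⟩ : ∃ s : ℤ, s = ⌊a * b * p.1 / 4⌋ := ⟨_, rfl⟩
  have s1 : (s : ℝ) ≤ a * b * p.1 / 4 := by rw [hs]; exact Int.floor_le _
  have s2 : a * b * p.1 / 4 - 1 < s := by rw [hs]; exact Int.sub_one_lt_floor _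
  -- `a b ≥ 10 y`, `a b ≤ d₀ / 10`
  have e1 : 10 * y ≤ a * b := by nlinarith
  have e2 : a * b ≤ d₀ / 10 := by nlinarith
  have e1n : 10 * (y * p.1) ≤ a * b * p.1 := by
    have := mul_le_mul_of_nonneg_right e1 hn'.le
    linarith
  have e2n : a * b * p.1 ≤ d₀ * p.1 / 10 := by
    have := mul_le_mul_of_nonneg_right e2 hn'.le
    linarith
  have hDbig : (400000 : ℝ) < D := by linarith [k2.1]
  have hDz : 400000 < D := by exact_mod_cast hDbig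
  have hrr : 2 * r + 1 ≤ D ∧ D - 2 ≤ 2 * r := by omega
  have hDs : D + 1 ≤ s := by
    have : ((D + 1 : ℤ) : ℝ) < s := by push_cast; linarith [k2.2]
    exact_mod_cast this.le
  have hz'd : 2 / 5 * d₀ * p.1 ≤ D' := by
    refine le_trans ?_ k3.1
    refine mul_le_mul_of_nonneg_right ?_ hn'.le
    linarith
  have hsD' : s + 1 ≤ D' := by
    have h0 : y * p.1 ≤ d₀ * p.1 := mul_le_mul_of_nonneg_right (by linarith) hn'.le
    have : ((s + 1 : ℤ) : ℝ) ≤ D' := by push_cast; linarith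
    exact_mod_cast this
  have hsδ : (s : ℝ) ≤ δ * p.1 := by
    have h0 : d₀ * p.1 ≤ δ * p.1 := mul_le_mul_of_nonneg_right hdδ hn'.le
    have h00 : 0 ≤ δ * p.1 := by positivity
    linarith
  have key := h1 α hα (fl p.1 z) (fl p.1 z') r s (isV_fl hn0 hz) (isV_fl hn0 hz') (by omega)
    (by rw [← hD]; exact hrr.1) (by rw [← hD]; exact hDs) (by rw [← hD']; exact hsD') hsδ
  refine key.trans (mul_le_mul_of_nonneg_right ?_ hZ.le)
  -- the three terms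
  have hr0 : (0 : ℝ) < r := by exact_mod_cast (by omega : 0 < r)
  have hs0 : (0 : ℝ) < s := by exact_mod_cast (by omega : 0 < s)
  have hry : y * p.1 / 10 ≤ r := by
    have : (D - 2 : ℝ) ≤ 2 * r := by exact_mod_cast hrr.2
    linarith [k2.1]
  have f1 : (p.1 : ℝ) * (1 / s) ≤ 8 / b * (1 / a) := by
    have g1 : a * b * p.1 / 8 ≤ s := by linarith
    rw [mul_one_div, div_mul_div_comm, mul_one, div_le_div_iff₀ hs0 (by positivity)]
    nlinarith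
  have f2 : (p.1 : ℝ) * (s / (r * p.1)) ≤ 5 * b * (1 / a) := by
    have g1 : (p.1 : ℝ) * (s / (r * p.1)) = s / r := by field_simp
    rw [g1, mul_one_div, div_le_div_iff₀ hr0 ha0]
    calc (s : ℝ) * a ≤ a * b * p.1 / 4 * a := mul_le_mul_of_nonneg_right s1 ha0.le
      _ = 5 / 2 * b * (y * p.1 / 10) := by rw [← haa]; ring
      _ ≤ 5 / 2 * b * r := mul_le_mul_of_nonneg_left hry (by positivity)
      _ ≤ 5 * b * r := by nlinarith [mul_pos hb0 hr0]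
  have f3 : (p.1 : ℝ) * (1 / r * (1 / r : ℝ) ^ (1 / 4 : ℝ)) ≤ 1 / a := by
    have g1 : (p.1 : ℝ) * (1 / r) ≤ 10 / y := by
      rw [mul_one_div, div_le_div_iff₀ hr0 hy0]
      linarith
    have g2 : (1 / r : ℝ) ^ (1 / 4 : ℝ) ≤ y / 20 := by
      have g3 : (1 / r : ℝ) ≤ (y / 20) ^ (4 : ℕ) := by
        rw [div_le_iff₀ hr0]
        have g4 : (y / 20) ^ 4 * (y * p.1 / 10) ≤ (y / 20) ^ 4 * r :=
          mul_le_mul_of_nonneg_left hry (by positivity)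
        have g5 : (y / 20) ^ 4 * (y * p.1 / 10) = y ^ 5 * p.1 / 1600000 := by ring
        rw [g5] at g4
        linarith
      calc (1 / r : ℝ) ^ (1 / 4 : ℝ) ≤ ((y / 20) ^ (4 : ℕ)) ^ (1 / 4 : ℝ) :=
            Real.rpow_le_rpow (by positivity) g3 (by norm_num)
        _ = y / 20 := by
            rw [show (1 / 4 : ℝ) = ((4 : ℕ) : ℝ)⁻¹ by norm_num]
            exact Real.pow_rpow_inv_natCast (by positivity) (by norm_num)
    calc (p.1 : ℝ) * (1 / r * (1 / r : ℝ) ^ (1 / 4 : ℝ))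
        = ((p.1 : ℝ) * (1 / r)) * (1 / r : ℝ) ^ (1 / 4 : ℝ) := by ring
      _ ≤ 10 / y * (y / 20) := mul_le_mul g1 g2 (by positivity) (by positivity)
      _ = 1 / 2 := by field_simp; norm_num
      _ ≤ 1 / a := by
          rw [div_le_div_iff₀ (by norm_num) ha0]
          linarith
  have hfin : C * p.1 * (1 / s + s / (r * p.1) + 1 / r * (1 / r : ℝ) ^ (1 / 4 : ℝ)) =
      C * ((p.1 : ℝ) * (1 / s) + (p.1 : ℝ) * (s / (r * p.1)) +
        (p.1 : ℝ) * (1 / r * (1 / r : ℝ) ^ (1 / 4 : ℝ))) := by ring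
  rw [hfin, hypow, ← hb]
  calc C * ((p.1 : ℝ) * (1 / s) + (p.1 : ℝ) * (s / (r * p.1)) +
        (p.1 : ℝ) * (1 / r * (1 / r : ℝ) ^ (1 / 4 : ℝ)))
      ≤ C * (8 / b * (1 / a) + 5 * b * (1 / a) + 1 / a) :=
        mul_le_mul_of_nonneg_left (add_le_add (add_le_add f1 f2) f3) hC.le
    _ = C * (8 / b + 5 * b + 1) * (1 / a) := by ring

end marks

/-- **(C)** from the bound at one scale -/
theorem poleC_of (hF : Pole.PoleLat) : PoleC := by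
  intro P L g hP hc t₁ t₂ t₂' t₃ t₄ hM α hα
  have hα' : α ∈ Set.Icc (0 : ℝ) 1 := ⟨hα.1.le, hα.2.le⟩
  obtain ⟨d₁, hd₁, h⟩ := pole_far hF hP hc hM hα'
  obtain ⟨ν, hν, rw, hrw, hwall⟩ := CARf.wall_gam hc hM.f4
  refine ⟨min d₁ rw, lt_min hd₁ hrw, fun d₀ hd₀ hd₀' => ?_⟩
  have hdd1 : d₀ ≤ d₁ := hd₀'.trans (min_le_left _ _)
  have hddw : d₀ ≤ rw := hd₀'.trans (min_le_right _ _)
  obtain ⟨C₁, hC₁, H₁⟩ := h d₀ hd₀ hdd1
  obtain ⟨C₂, hC₂, H₂⟩ := h (d₀ / 100) (by positivity) (by linarith)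
  refine ⟨C₁ + 200 * C₂, 1 / 2, by norm_num, ?_⟩
  intro z hz z' hz' hzx hzy hzd
  have hy0 : 0 < ‖z - gam g t₄‖ := norm_pos_iff.2 (sub_ne_zero.2 hzx)
  have hexp : (1 / 2 - 1 : ℝ) = -(1 / 2) := by norm_num
  rw [hexp]
  have hgoal : ∀ᶠ p : ℕ × ℤ in lk t₄, |Az P L g t₁ t₂ t₂' t₃ α p (fl p.1 z) (fl p.1 z')| ≤
      (C₁ + 200 * C₂) * ‖z - gam g t₄‖ ^ (-(1 / 2) : ℝ) * Zz P L g t₁ t₂ t₂' t₃ α p := by
    rcases le_or_gt ‖z - gam g t₄‖ (d₀ / 100) with hle | hgt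
    · filter_upwards [H₁ z hz z' hz' hzx hle hzd, Zz_pos hP hc hM hα'] with p h1 h2
      refine h1.trans (mul_le_mul_of_nonneg_right (mul_le_mul_of_nonneg_right ?_ (by positivity)) h2.le)
      linarith
    · -- the intermediate point
      obtain ⟨q, hq⟩ : ∃ q : ℂ, q = gam g t₄ + ((d₀ / 10000 : ℝ) : ℂ) * ν := ⟨_, rfl⟩
      have hν1 : ‖ν‖ = 1 := by
        rcases hν with rfl | rfl | rfl | rfl <;> simp
      have hqx : q - gam g t₄ = ((d₀ / 10000 : ℝ) : ℂ) * ν := by rw [hq]; ring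
      have hqn : ‖q - gam g t₄‖ = d₀ / 10000 := by
        rw [hqx, norm_mul, hν1, mul_one, Complex.norm_real, Real.norm_eq_abs, abs_of_pos (by positivity)]
      have hqne : q ≠ gam g t₄ := by
        intro hh
        rw [hh, sub_self, norm_zero] at hqn
        linarith
      have hqP : q ∈ Cl P := by
        rw [hwall q (by rw [hqn]; linarith), hqx]
        have : sp (((d₀ / 10000 : ℝ) : ℂ) * ν) ν = d₀ / 10000 := by
          rcases hν with rfl | rfl | rfl | rfl <;> simp [sp]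
        rw [this]
        positivity
      filter_upwards [H₂ q hqP z hz hqne (by rw [hqn]; linarith) hgt.le,
        H₂ q hqP z' hz' hqne (by rw [hqn]; linarith) (by linarith), Zz_pos hP hc hM hα'] with p h1 h2 h3
      have e1 := Az_add (P := P) (L := L) (g := g) (t₁ := t₁) (t₂ := t₂) (t₂' := t₂') (t₃ := t₃) α p
        (fl p.1 q) (fl p.1 z) (fl p.1 z')
      have e2 : Az P L g t₁ t₂ t₂' t₃ α p (fl p.1 z) (fl p.1 z') =
          Az P L g t₁ t₂ t₂' t₃ α p (fl p.1 q) (fl p.1 z') -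
            Az P L g t₁ t₂ t₂' t₃ α p (fl p.1 q) (fl p.1 z) := by rw [e1]; ring
      rw [e2]
      refine (abs_sub _ _).trans ((add_le_add h2 h1).trans ?_)
      rw [hqn]
      have e3 : (d₀ / 10000 : ℝ) ^ (-(1 / 2) : ℝ) ≤ 100 * ‖z - gam g t₄‖ ^ (-(1 / 2) : ℝ) := by
        have g1 : (‖z - gam g t₄‖ / 10000 : ℝ) ^ (-(1 / 2) : ℝ) = 100 * ‖z - gam g t₄‖ ^ (-(1 / 2) : ℝ) := by
          rw [Real.div_rpow hy0.le (by norm_num)]
          have : (10000 : ℝ) ^ (-(1 / 2) : ℝ) = 1 / 100 := by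
            rw [Real.rpow_neg (by norm_num), ← Real.sqrt_eq_rpow,
              show (10000 : ℝ) = 100 ^ 2 by norm_num, Real.sqrt_sq (by norm_num)]
            norm_num
          rw [this]
          ring
        rw [← g1]
        exact Real.rpow_le_rpow_of_nonpos (by positivity) (by linarith) (by norm_num)
      have e4 : 0 ≤ ‖z - gam g t₄‖ ^ (-(1 / 2) : ℝ) := by positivity
      have e5 : C₂ * (d₀ / 10000 : ℝ) ^ (-(1 / 2) : ℝ) ≤ 100 * C₂ * ‖z - gam g t₄‖ ^ (-(1 / 2) : ℝ) := by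
        have := mul_le_mul_of_nonneg_left e3 hC₂.le
        linarith
      have e6 := mul_le_mul_of_nonneg_right e5 h3.le
      have e7 : 0 ≤ C₁ * ‖z - gam g t₄‖ ^ (-(1 / 2) : ℝ) * Zz P L g t₁ t₂ t₂' t₃ α p := by positivity
      calc C₂ * (d₀ / 10000) ^ (-(1 / 2) : ℝ) * Zz P L g t₁ t₂ t₂' t₃ α p +
            C₂ * (d₀ / 10000) ^ (-(1 / 2) : ℝ) * Zz P L g t₁ t₂ t₂' t₃ α p
          ≤ 100 * C₂ * ‖z - gam g t₄‖ ^ (-(1 / 2) : ℝ) * Zz P L g t₁ t₂ t₂' t₃ α p +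
            100 * C₂ * ‖z - gam g t₄‖ ^ (-(1 / 2) : ℝ) * Zz P L g t₁ t₂ t₂' t₃ α p := add_le_add e6 e6
        _ ≤ (C₁ + 200 * C₂) * ‖z - gam g t₄‖ ^ (-(1 / 2) : ℝ) * Zz P L g t₁ t₂ t₂' t₃ α p := by
            linarith
  exact hgoal

/-- **(C)** -/
theorem poleC : PoleC := poleC_of (Pole.poleLat_of DomX.resX)

end

end Pool.Agent.SixB.GA
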