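import Pool.Agent.Lib.SixB.CAFinal
import Pool.Agent.Lib.SixB.CALatD
import Pool.Agent.Lib.SixB.CAPoint
import Pool.Agent.Lib.SixB.S3InH
import Pool.Agent.Lib.SixB.S6GFld
import Pool.Agent.Lib.SixB.S6GGeo
import Pool.Agent.Lib.SixB.S6GLD
import Pool.Agent.Lib.SixB.CADomFin
import Pool.Agent.Lib.SixB.CAWallC
import Pool.Agent.Lib.SixB.S6GNnG
import Pool.Agent.Lib.SixB.S6GPoleF
import Pool.Agent.Lib.SixB.S6GPoleG

/-!
# 6BD block CA: the assembly of `EnvLat` for the official functions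

* `LatRest`: the inputs which are not yet theorems (step 3, decoupling at the marks).
* `col_thm`, `nnG_thm`, `xpG_thm`: the statements of CALatD.
* `latOff`: `LatOff P L g` for every Manhattan polygon; `caOut_of_rest`: `CAOut`.
-/

set_option autoImplicit false

namespace Pool.Agent.SixB

open Filter Topology

noncomputable section

theorem col_thm : ∃ c : ℝ, 0 < c ∧ ColF c := CAW.colB_all DomX.majP DomX.majX

theorem xpG_thm : XpG := GG.xpG_of GA.poleC

theorem nnG_thm : NnG := fun _ _ _ hP hg _ hz0 s s' hs _ => GG.nnG hP hg hz0 s s' hs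

/-- the inputs which are not yet theorems -/
structure LatRest : Prop where
  core : CoreFam
  xpL : XpL

/-- **The input of block CA.** -/
theorem latOff (h : LatRest) {P : Finset (ℤ × ℤ)} {L : ℕ} {g : ℤ → ℤ × ℤ} (hP : MPoly P)
    (hg : Cont P L g) : LatOff P L g := by
  obtain ⟨z0, hz0⟩ := hP.exists_mem_Om
  obtain ⟨c, hc, hcol⟩ := col_thm
  obtain ⟨c1, c2, c3⟩ := hcol P L g hP hg
  refine ⟨z0, hz0, Asm3.prof, prof_prof, c, hc, ?_⟩
  exact
    { nnL := fun s s' _ _ => GG.nnL GG.ld1_holds GG.rowSame GG.rowGeo hP hg s s'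
      nnG := nnG_thm P L g hP hg z0 hz0
      nH := fun s hs => nH_of h.core hP hg s hs
      nC := c1
      pnL := GG.pnL GG.ld1_holds GG.rowSame GG.rowGeo DomX.majP hP hg
      pH := fun t₂ t₂' h1 h2 h3 h4 α hα => pH_of h.core hP hg h1 h2 h3 h4 hα
      pC := c2
      xnL := GG.xnL GG.ld1_holds GG.rowSame GG.rowGeo DomX.majX hP hg
      xmL := GG.xmL GG.ld1_holds GG.rowSame GG.rowGeo DomX.majX hP hg
      xpL := h.xpL P L g hP hg
      xpG := xpG_thm P L g hP hg z0 hz0
      xH := fun t₁ t₂ t₂' t₃ t₄ hm α hα => xH_of h.core hP hg hm hα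
      xC := c3 }

theorem caOut_of_rest (h : LatRest) : CAOut := caOut_of_envLat fun _ _ _ hP hg => latOff h hP hg

end

end Pool.Agent.SixB
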