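import Pool.Agent.Lib.SixB.CARatio
import Pool.Agent.Lib.SixB.AN9c
import Pool.Agent.Lib.SixB.S4Move

/-!
# 6BD block CA: from the wall theorem to the Neumann condition of the limits

* `dZ ν`: the lattice vector of a unit direction `ν ∈ {1, -1, I, -I}`; `yL`: lattice height difference between
  `q + t ν` and `q`.
* `ColB l n P X c u`: COLUMN BOUND at all flat wall points off `X`: the mean height differences along two
  neighbouring columns, compared with the flat reference `flatEnv`, are of order `(r / d) ^ (1 + c)`. This is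
  the conclusion of the wall theorem for the functions `u i` at the scale `n i`.
* `ColK`: the same for linear combinations (`κ` = sum of the coefficients); `ColK.add`, `smul`, `sub`, `comp`, `mono`.
* `neuK_of_col`, `neu_of_colK`: a combination with coefficient sum `0` which is asymptotically equicontinuous
  satisfies the Neumann condition of `AH`.
-/

set_option autoImplicit false

namespace Pool.Agent.SixB

open Filter Topology
open DC (AE)

noncomputable section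

/-- lattice vector of a unit direction -/
def dZ (ν : ℂ) : ℤ × ℤ := (⌊ν.re⌋, ⌊ν.im⌋)

/-- lattice height difference between `q + t ν` and `q` in the direction `ν` -/
def yL (n : ℕ) (ν q : ℂ) (t : ℝ) : ℤ :=
  ((fl n (q + t * ν)).1 - (fl n q).1) * (dZ ν).1 + ((fl n (q + t * ν)).2 - (fl n q).2) * (dZ ν).2

/-- lattice scale of the half plane around a wall point with a free half disc of radius `ρ` -/
def dlat (ρ : ℝ) (n : ℕ) : ℤ := ⌊ρ * n / 8⌋

/-- **Column bound** at the flat wall points off `X`, for all sufficiently small half discs. -/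
def ColB {ι : Type*} (l : Filter ι) (n : ι → ℕ) (P : Finset (ℤ × ℤ)) (X : Set ℂ) (c : ℝ)
    (u : ι → ℤ × ℤ → ℝ) : Prop :=
  ∀ (p ν : ℂ) (ρ₀ : ℝ), 0 < ρ₀ → Flat P p ν ρ₀ → (∀ x ∈ X, ρ₀ ≤ ‖x - p‖) → ∃ d₀ : ℝ, 0 < d₀ ∧
    ∀ ρ : ℝ, 0 < ρ → ρ ≤ d₀ → ∃ M : ℝ, ∀ᶠ i in l,
    ∀ q : ℂ, Wall P q ν → ‖q - p‖ < ρ / 2 → ∀ (r y' : ℤ) (m : ℕ), 1 ≤ r → r ≤ 4 * y' → y' + m ≤ r →
      16 * r ≤ dlat ρ (n i) →
      |(u i (fl (n i) q + (y' + m) • dZ ν) - u i (fl (n i) q + y' • dZ ν)) +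
          (u i (fl (n i) q + dZ (-Complex.I * ν) + (y' + m) • dZ ν) -
            u i (fl (n i) q + dZ (-Complex.I * ν) + y' • dZ ν)) -
          (flatEnv (dlat ρ (n i))).dU2 (y' + m) y'| ≤ M * ((r : ℝ) / dlat ρ (n i)) ^ (1 + c)

/-- **Column bound** relative to `κ` times the reference, for linear combinations (sum of the coefficients `κ`). -/
def ColK {ι : Type*} (l : Filter ι) (n : ι → ℕ) (P : Finset (ℤ × ℤ)) (X : Set ℂ) (c κ : ℝ)
    (D : ι → ℤ × ℤ → ℝ) : Prop :=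
  ∀ (p ν : ℂ) (ρ₀ : ℝ), 0 < ρ₀ → Flat P p ν ρ₀ → (∀ x ∈ X, ρ₀ ≤ ‖x - p‖) → ∃ d₀ : ℝ, 0 < d₀ ∧
    ∀ ρ : ℝ, 0 < ρ → ρ ≤ d₀ → ∃ M : ℝ, 0 ≤ M ∧ ∀ᶠ i in l,
    ∀ q : ℂ, Wall P q ν → ‖q - p‖ < ρ / 2 → ∀ (r y' : ℤ) (m : ℕ), 1 ≤ r → r ≤ 4 * y' → y' + m ≤ r →
      16 * r ≤ dlat ρ (n i) →
      |(D i (fl (n i) q + (y' + m) • dZ ν) - D i (fl (n i) q + y' • dZ ν)) +
          (D i (fl (n i) q + dZ (-Complex.I * ν) + (y' + m) • dZ ν) -
            D i (fl (n i) q + dZ (-Complex.I * ν) + y' • dZ ν)) -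
          κ * (flatEnv (dlat ρ (n i))).dU2 (y' + m) y'| ≤ M * ((r : ℝ) / dlat ρ (n i)) ^ (1 + c)

section ColK

variable {ι κ' : Type*} {l : Filter ι} {n : ι → ℕ} {P : Finset (ℤ × ℤ)} {X : Set ℂ} {c κ κ₁ κ₂ : ℝ}
  {D D₁ D₂ : ι → ℤ × ℤ → ℝ}

private theorem base_nonneg {ρ : ℝ} {m : ℕ} {r : ℤ} (h1 : 1 ≤ r) (h2 : 16 * r ≤ dlat ρ m) :
    (0 : ℝ) ≤ ((r : ℝ) / dlat ρ m) ^ (1 + c) := by
  have h3 : (0 : ℝ) ≤ (r : ℝ) := by
    have : (0 : ℤ) ≤ r := by omega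
    exact_mod_cast this
  have h4 : (0 : ℝ) ≤ (dlat ρ m : ℝ) := by
    have : (0 : ℤ) ≤ dlat ρ m := by omega
    exact_mod_cast this
  positivity

theorem ColB.colK (h : ColB l n P X c D) : ColK l n P X c 1 D := by
  intro p ν ρ₀ hρ₀ hf hX
  obtain ⟨d₀, hd₀, h'⟩ := h p ν ρ₀ hρ₀ hf hX
  refine ⟨d₀, hd₀, fun ρ hρ hρd => ?_⟩
  obtain ⟨M, hM⟩ := h' ρ hρ hρd
  refine ⟨|M|, abs_nonneg M, ?_⟩
  filter_upwards [hM] with i hi q hq hqp r y' m h1 h2 h3 h4
  rw [one_mul]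
  exact (hi q hq hqp r y' m h1 h2 h3 h4).trans
    (mul_le_mul_of_nonneg_right (le_abs_self M) (base_nonneg h1 h4))

theorem ColK.mono {X' : Set ℂ} (h : ColK l n P X c κ D) (hX : X ⊆ X') : ColK l n P X' c κ D :=
  fun p ν ρ hρ hf hX' => h p ν ρ hρ hf fun x hx => hX' x (hX hx)

theorem ColK.add (h₁ : ColK l n P X c κ₁ D₁) (h₂ : ColK l n P X c κ₂ D₂) :
    ColK l n P X c (κ₁ + κ₂) (fun i v => D₁ i v + D₂ i v) := by
  intro p ν ρ₀ hρ₀ hf hX
  obtain ⟨d₁, hd₁, h₁'⟩ := h₁ p ν ρ₀ hρ₀ hf hX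
  obtain ⟨d₂, hd₂, h₂'⟩ := h₂ p ν ρ₀ hρ₀ hf hX
  refine ⟨min d₁ d₂, lt_min hd₁ hd₂, fun ρ hρ hρd => ?_⟩
  obtain ⟨M₁, hM₁0, hM₁⟩ := h₁' ρ hρ (hρd.trans (min_le_left _ _))
  obtain ⟨M₂, hM₂0, hM₂⟩ := h₂' ρ hρ (hρd.trans (min_le_right _ _))
  refine ⟨M₁ + M₂, by positivity, ?_⟩
  filter_upwards [hM₁, hM₂] with i hi₁ hi₂ q hq hqp r y' m h1 h2 h3 h4
  have a := hi₁ q hq hqp r y' m h1 h2 h3 h4
  have b := hi₂ q hq hqp r y' m h1 h2 h3 h4
  rw [add_mul M₁ M₂]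
  refine le_trans (le_of_eq ?_) ((abs_add_le _ _).trans (add_le_add a b))
  congr 1
  ring

theorem ColK.smul (a : ℝ) (h : ColK l n P X c κ D) : ColK l n P X c (a * κ) (fun i v => a * D i v) := by
  intro p ν ρ₀ hρ₀ hf hX
  obtain ⟨d₀, hd₀, h'⟩ := h p ν ρ₀ hρ₀ hf hX
  refine ⟨d₀, hd₀, fun ρ hρ hρd => ?_⟩
  obtain ⟨M, hM0, hM⟩ := h' ρ hρ hρd
  refine ⟨|a| * M, by positivity, ?_⟩
  filter_upwards [hM] with i hi q hq hqp r y' m h1 h2 h3 h4
  have b := mul_le_mul_of_nonneg_left (hi q hq hqp r y' m h1 h2 h3 h4) (abs_nonneg a)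
  rw [← abs_mul, ← mul_assoc] at b
  refine le_trans (le_of_eq ?_) b
  congr 1
  ring

theorem ColK.sub (h₁ : ColK l n P X c κ₁ D₁) (h₂ : ColK l n P X c κ₂ D₂) :
    ColK l n P X c (κ₁ - κ₂) (fun i v => D₁ i v - D₂ i v) := by
  have h := h₁.add (h₂.smul (-1))
  have e : κ₁ + -1 * κ₂ = κ₁ - κ₂ := by ring
  rw [e] at h
  have e' : (fun (i : ι) (v : ℤ × ℤ) => D₁ i v + -1 * D₂ i v) = fun i v => D₁ i v - D₂ i v := by
    funext i v; ring
  rwa [e'] at h

theorem ColK.comp {m : Filter κ'} {φ : κ' → ι} (h : ColK l n P X c κ D) (hφ : Tendsto φ m l) :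
    ColK m (fun k => n (φ k)) P X c κ (fun k => D (φ k)) := by
  intro p ν ρ₀ hρ₀ hf hX
  obtain ⟨d₀, hd₀, h'⟩ := h p ν ρ₀ hρ₀ hf hX
  refine ⟨d₀, hd₀, fun ρ hρ hρd => ?_⟩
  obtain ⟨M, hM0, hM⟩ := h' ρ hρ hρd
  exact ⟨M, hM0, hφ.eventually hM⟩

end ColK

/-! ## Rounding -/

private theorem floor_m1 : ⌊(-1 : ℝ)⌋ = -1 := by norm_num

theorem fl_add_dir {ν : ℂ} (hν : IsDir ν) (n : ℕ) (q : ℂ) (t : ℝ) :
    fl n (q + t * ν) = fl n q + yL n ν q t • dZ ν := by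
  rcases hν with rfl | rfl | rfl | rfl <;>
    · ext <;> simp [fl, yL, dZ, floor_m1]

theorem yL_lt {ν : ℂ} (hν : IsDir ν) (n : ℕ) (q : ℂ) (t : ℝ) : (yL n ν q t : ℝ) < n * t + 1 := by
  rcases hν with rfl | rfl | rfl | rfl
  · simp only [yL, fl, dZ]
    simp only [Complex.add_re, Complex.mul_re, Complex.ofReal_re, Complex.one_re, Complex.ofReal_im,
      Complex.one_im, mul_one, mul_zero, sub_zero, Int.floor_one, Complex.add_im, Complex.mul_im,
      zero_mul, add_zero, Int.floor_zero]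
    push_cast
    have h1 := Int.floor_le ((n : ℝ) * (q.re + t))
    have h2 := Int.sub_one_lt_floor ((n : ℝ) * q.re)
    nlinarith
  · simp only [yL, fl, dZ]
    have e1 : ⌊((-1 : ℂ)).re⌋ = -1 := by rw [Complex.neg_re, Complex.one_re, floor_m1]
    have e2 : ⌊((-1 : ℂ)).im⌋ = 0 := by simp
    rw [e1, e2]
    have e3 : (q + (t : ℂ) * (-1)).re = q.re - t := by simp; ring
    rw [e3]
    push_cast
    have h1 := Int.floor_le ((n : ℝ) * q.re)
    have h2 := Int.sub_one_lt_floor ((n : ℝ) * (q.re - t))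
    nlinarith
  · simp only [yL, fl, dZ]
    have e1 : ⌊(Complex.I).re⌋ = 0 := by simp
    have e2 : ⌊(Complex.I).im⌋ = 1 := by simp
    rw [e1, e2]
    have e3 : (q + (t : ℂ) * Complex.I).im = q.im + t := by simp
    rw [e3]
    push_cast
    have h1 := Int.floor_le ((n : ℝ) * (q.im + t))
    have h2 := Int.sub_one_lt_floor ((n : ℝ) * q.im)
    nlinarith
  · simp only [yL, fl, dZ]
    have e1 : ⌊(-Complex.I).re⌋ = 0 := by simp
    have e2 : ⌊(-Complex.I).im⌋ = -1 := by rw [Complex.neg_im, Complex.I_im, floor_m1]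
    rw [e1, e2]
    have e3 : (q + (t : ℂ) * (-Complex.I)).im = q.im - t := by simp; ring
    rw [e3]
    push_cast
    have h1 := Int.floor_le ((n : ℝ) * q.im)
    have h2 := Int.sub_one_lt_floor ((n : ℝ) * (q.im - t))
    nlinarith

theorem lt_yL {ν : ℂ} (hν : IsDir ν) (n : ℕ) (q : ℂ) (t : ℝ) : n * t - 1 < (yL n ν q t : ℝ) := by
  rcases hν with rfl | rfl | rfl | rfl
  · simp only [yL, fl, dZ]
    simp only [Complex.add_re, Complex.mul_re, Complex.ofReal_re, Complex.one_re, Complex.ofReal_im,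
      Complex.one_im, mul_one, mul_zero, sub_zero, Int.floor_one, Complex.add_im, Complex.mul_im,
      zero_mul, add_zero, Int.floor_zero]
    push_cast
    have h1 := Int.sub_one_lt_floor ((n : ℝ) * (q.re + t))
    have h2 := Int.floor_le ((n : ℝ) * q.re)
    nlinarith
  · simp only [yL, fl, dZ]
    have e1 : ⌊((-1 : ℂ)).re⌋ = -1 := by rw [Complex.neg_re, Complex.one_re, floor_m1]
    have e2 : ⌊((-1 : ℂ)).im⌋ = 0 := by simp
    rw [e1, e2]
    have e3 : (q + (t : ℂ) * (-1)).re = q.re - t := by simp; ring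
    rw [e3]
    push_cast
    have h1 := Int.sub_one_lt_floor ((n : ℝ) * q.re)
    have h2 := Int.floor_le ((n : ℝ) * (q.re - t))
    nlinarith
  · simp only [yL, fl, dZ]
    have e1 : ⌊(Complex.I).re⌋ = 0 := by simp
    have e2 : ⌊(Complex.I).im⌋ = 1 := by simp
    rw [e1, e2]
    have e3 : (q + (t : ℂ) * Complex.I).im = q.im + t := by simp
    rw [e3]
    push_cast
    have h1 := Int.sub_one_lt_floor ((n : ℝ) * (q.im + t))
    have h2 := Int.floor_le ((n : ℝ) * q.im)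
    nlinarith
  · simp only [yL, fl, dZ]
    have e1 : ⌊(-Complex.I).re⌋ = 0 := by simp
    have e2 : ⌊(-Complex.I).im⌋ = -1 := by rw [Complex.neg_im, Complex.I_im, floor_m1]
    rw [e1, e2]
    have e3 : (q + (t : ℂ) * (-Complex.I)).im = q.im - t := by simp; ring
    rw [e3]
    push_cast
    have h1 := Int.sub_one_lt_floor ((n : ℝ) * q.im)
    have h2 := Int.floor_le ((n : ℝ) * (q.im - t))
    nlinarith

/-- one lattice step -/
theorem fl_step {ν : ℂ} (hν : IsDir ν) {n : ℕ} (hn : 0 < n) (q : ℂ) :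
    fl n (q + ((1 / (n : ℝ) : ℝ) : ℂ) * ν) = fl n q + dZ ν := by
  have hn' : (n : ℝ) ≠ 0 := by exact_mod_cast hn.ne'
  have e : ∀ x : ℝ, ⌊(n : ℝ) * (x + 1 / n)⌋ = ⌊(n : ℝ) * x⌋ + 1 := by
    intro x
    rw [mul_add, mul_one_div_cancel hn', Int.floor_add_one]
  have e' : ∀ x : ℝ, ⌊(n : ℝ) * (x - 1 / n)⌋ = ⌊(n : ℝ) * x⌋ - 1 := by
    intro x
    rw [mul_sub, mul_one_div_cancel hn', Int.floor_sub_one]
  rcases hν with rfl | rfl | rfl | rfl
  · have h1 : (q + ((1 / (n : ℝ) : ℝ) : ℂ) * 1).re = q.re + 1 / n := by simp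
    have h2 : (q + ((1 / (n : ℝ) : ℝ) : ℂ) * 1).im = q.im := by simp
    unfold fl dZ
    rw [h1, h2, e]
    simp
  · have h1 : (q + ((1 / (n : ℝ) : ℝ) : ℂ) * (-1)).re = q.re - 1 / n := by simp; ring
    have h2 : (q + ((1 / (n : ℝ) : ℝ) : ℂ) * (-1)).im = q.im := by simp
    have e1 : ⌊((-1 : ℂ)).re⌋ = -1 := by rw [Complex.neg_re, Complex.one_re, floor_m1]
    have e2 : ⌊((-1 : ℂ)).im⌋ = 0 := by simp
    unfold fl dZ
    rw [h1, h2, e', e1, e2, Prod.mk_add_mk, add_zero, sub_eq_add_neg]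
  · have h1 : (q + ((1 / (n : ℝ) : ℝ) : ℂ) * Complex.I).re = q.re := by simp
    have h2 : (q + ((1 / (n : ℝ) : ℝ) : ℂ) * Complex.I).im = q.im + 1 / n := by simp
    unfold fl dZ
    rw [h1, h2, e]
    simp
  · have h1 : (q + ((1 / (n : ℝ) : ℝ) : ℂ) * (-Complex.I)).re = q.re := by simp
    have h2 : (q + ((1 / (n : ℝ) : ℝ) : ℂ) * (-Complex.I)).im = q.im - 1 / n := by simp; ring
    have e1 : ⌊(-Complex.I).re⌋ = 0 := by simp
    have e2 : ⌊(-Complex.I).im⌋ = -1 := by rw [Complex.neg_im, Complex.I_im, floor_m1]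
    unfold fl dZ
    rw [h1, h2, e', e1, e2, Prod.mk_add_mk, add_zero, sub_eq_add_neg]

theorem isDir_tau {ν : ℂ} (hν : IsDir ν) : IsDir (-Complex.I * ν) := by
  rcases hν with rfl | rfl | rfl | rfl
  · right; right; right; simp
  · right; right; left; simp
  · left; simp
  · right; left
    have : -Complex.I * -Complex.I = Complex.I * Complex.I := by ring
    rw [this, Complex.I_mul_I]

/-! ## Dyadic summation -/

theorem dyadic_sum {c M d : ℝ} (hc : 0 < c) (hM : 0 ≤ M) (hd : 0 < d) {f : ℤ → ℝ}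
    (h : ∀ (r y' : ℤ) (m : ℕ), 1 ≤ r → r ≤ 4 * y' → y' + m ≤ r → 16 * (r : ℝ) ≤ d →
      |f (y' + m) - f y'| ≤ M * ((r : ℝ) / d) ^ (1 + c)) :
    ∀ k : ℕ, 16 * ((k : ℝ) + 1) ≤ d → |f (k + 1) - f 1| ≤ 4 * M * (((k : ℝ) + 1) / d) ^ (1 + c) := by
  intro k
  induction k using Nat.strong_induction_on with
  | _ k ih =>
    intro hk
    rcases Nat.eq_zero_or_pos k with rfl | hk0
    · simp only [Nat.cast_zero, zero_add, sub_self, abs_zero]
      positivity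
    · set j : ℕ := k / 2 with hj
      have hjk : j < k := by omega
      have hk1 : (1 : ℝ) ≤ k := by exact_mod_cast hk0
      have hjR : ((j : ℝ) + 1) ≤ 3 / 4 * ((k : ℝ) + 1) := by
        have h1 : 2 * j ≤ k := by omega
        have h2 : (2 : ℝ) * j ≤ k := by exact_mod_cast h1
        linarith
      have h16 : 16 * ((j : ℝ) + 1) ≤ d := by
        have : (j : ℝ) ≤ k := by exact_mod_cast hjk.le
        linarith
      have h1 := ih j hjk h16
      have h2 := h ((k : ℤ) + 1) ((j : ℤ) + 1) (k - j) (by omega) (by omega)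
        (by push_cast [Nat.cast_sub hjk.le]; omega) (by push_cast; exact hk)
      have e1 : ((j : ℤ) + 1) + ((k - j : ℕ) : ℤ) = (k : ℤ) + 1 := by
        push_cast [Nat.cast_sub hjk.le]; ring
      rw [e1] at h2
      have h3 : (((j : ℝ) + 1) / d) ^ (1 + c) ≤ 3 / 4 * (((k : ℝ) + 1) / d) ^ (1 + c) := by
        have hj0 : (0 : ℝ) ≤ ((j : ℝ) + 1) / d := by positivity
        calc (((j : ℝ) + 1) / d) ^ (1 + c) ≤ (3 / 4 * (((k : ℝ) + 1) / d)) ^ (1 + c) := by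
              apply Real.rpow_le_rpow hj0
              · rw [mul_div_assoc']
                exact div_le_div_of_nonneg_right hjR hd.le
              · linarith
          _ = (3 / 4) ^ (1 + c) * (((k : ℝ) + 1) / d) ^ (1 + c) := by
              rw [Real.mul_rpow (by norm_num) (by positivity)]
          _ ≤ 3 / 4 * (((k : ℝ) + 1) / d) ^ (1 + c) := by
              apply mul_le_mul_of_nonneg_right _ (by positivity)
              calc (3 / 4 : ℝ) ^ (1 + c) ≤ (3 / 4) ^ (1 : ℝ) :=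
                    Real.rpow_le_rpow_of_exponent_ge (by norm_num) (by norm_num) (by linarith)
                _ = 3 / 4 := Real.rpow_one _
      have h4 : |f ((k : ℤ) + 1) - f 1| ≤ |f ((k : ℤ) + 1) - f ((j : ℤ) + 1)| +
          |f ((j : ℤ) + 1) - f 1| := by
        have e : f ((k : ℤ) + 1) - f 1 = (f ((k : ℤ) + 1) - f ((j : ℤ) + 1)) +
          (f ((j : ℤ) + 1) - f 1) := by ring
        rw [e]
        exact abs_add_le _ _
      have h5 : 4 * M * (((j : ℝ) + 1) / d) ^ (1 + c) ≤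
          3 * (M * (((k : ℝ) + 1) / d) ^ (1 + c)) := by
        calc 4 * M * (((j : ℝ) + 1) / d) ^ (1 + c) ≤
            4 * M * (3 / 4 * (((k : ℝ) + 1) / d) ^ (1 + c)) := by
              apply mul_le_mul_of_nonneg_left h3 (by positivity)
          _ = 3 * (M * (((k : ℝ) + 1) / d) ^ (1 + c)) := by ring
      push_cast at h2
      linarith

theorem dU2_add (E : WEnv) {a b c : ℤ} (h1 : a ≤ b) (h2 : b ≤ c) :
    E.dU2 c a = E.dU2 c b + E.dU2 b a := by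
  have key : ∀ x : ℤ, E.dU x c a = E.dU x c b + E.dU x b a := by
    intro x
    rw [WEnv.dU_eq_sum, WEnv.dU_eq_sum, WEnv.dU_eq_sum, add_comm,
      ← Finset.sum_union (Finset.Ico_disjoint_Ico_consecutive a b c),
      Finset.Ico_union_Ico_eq_Ico h1 h2]
  unfold WEnv.dU2
  rw [key, key]
  ring

theorem dU2_self (E : WEnv) (a : ℤ) : E.dU2 a a = 0 := by
  unfold WEnv.dU2
  rw [WEnv.dU_eq_sum, WEnv.dU_eq_sum]
  simp

/-! ## The column bound gives the Neumann condition -/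

private theorem exists_delta {A c ε ρ : ℝ} (hc : 0 < c) (hε : 0 < ε) (hρ : 0 < ρ) :
    ∃ δ : ℝ, 0 < δ ∧ δ ≤ ρ / 1024 ∧ A * δ ^ c ≤ ε := by
  have h1 : Tendsto (fun δ : ℝ => A * δ ^ c) (𝓝 0) (𝓝 (A * 0 ^ c)) :=
    ((Real.continuous_rpow_const hc.le).tendsto 0).const_mul A
  rw [Real.zero_rpow hc.ne', mul_zero] at h1
  have h2 : ∀ᶠ δ in 𝓝 (0 : ℝ), A * δ ^ c < ε := h1.eventually (gt_mem_nhds hε)
  obtain ⟨r, hr, h3⟩ := Metric.eventually_nhds_iff.1 h2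
  refine ⟨min (r / 2) (ρ / 1024), by positivity, min_le_right _ _, (h3 ?_).le⟩
  rw [dist_zero_right, Real.norm_eq_abs, abs_of_pos (by positivity)]
  exact lt_of_le_of_lt (min_le_left _ _) (by linarith)

private theorem norm_dir' {ν : ℂ} (hν : IsDir ν) : ‖ν‖ = 1 := by
  rcases hν with rfl | rfl | rfl | rfl <;> simp

private theorem sp_step {ν : ℂ} (hν : IsDir ν) (w : ℂ) (a b : ℝ) :
    sp (w + (a : ℂ) * ν + (b : ℂ) * (-Complex.I * ν)) ν = sp w ν + a := by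
  rcases hν with rfl | rfl | rfl | rfl <;> simp [sp] <;> ring

private theorem nz_sub (n : ℕ) (z0 : ℂ) (u : ℤ × ℤ → ℝ) (z w : ℂ) :
    nz n z0 u z - nz n z0 u w = u (fl n z) - u (fl n w) := by
  unfold nz; ring

theorem Flat.sp_eq_zero {P : Finset (ℤ × ℤ)} {p ν q : ℂ} {ρ : ℝ} (hf : Flat P p ν ρ)
    (hq : Wall P q ν) (hqp : ‖q - p‖ < ρ) : sp (q - p) ν = 0 := by
  have h1 : 0 ≤ sp (q - p) ν := (hf.2 q hqp).1 hq.mem
  rcases h1.lt_or_eq with h2 | h2
  · exact absurd (hf.mem_Om hqp h2) hq.notMem_Om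
  · exact h2.symm

/-- **The column bound and asymptotic equicontinuity give the Neumann condition** (up to `κ` times the
reference). -/
theorem neuK_of_col {ι : Type*} {l : Filter ι} {n : ι → ℕ} {P : Finset (ℤ × ℤ)} {X : Set ℂ} {c κ : ℝ}
    {z0 : ℂ} {u : ι → ℤ × ℤ → ℝ} (hn : Tendsto n l atTop) (hc : 0 < c) (hcol : ColK l n P X c κ u)
    (hae : AE l (fun i => nz (n i) z0 (u i)) (Cl P ∩ Xᶜ)) {p ν : ℂ} {ρ₀ : ℝ} (hρ₀ : 0 < ρ₀)
    (hf₀ : Flat P p ν ρ₀) (hX₀ : ∀ x ∈ X, ρ₀ ≤ ‖x - p‖) :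
    ∃ ρ : ℝ, 0 < ρ ∧ ρ ≤ ρ₀ ∧ ∀ ε : ℝ, 0 < ε →
    ∃ δ : ℝ, 0 < δ ∧ ∀ q : ℂ, Wall P q ν → ‖q - p‖ < δ → ∀ t : ℝ, 0 < t → t < δ → ∀ᶠ i in l,
      |nz (n i) z0 (u i) (q + t * ν) - nz (n i) z0 (u i) q -
        κ * ((flatEnv (dlat ρ (n i))).dU2 (yL (n i) ν q t) 1 / 2)| ≤ ε * t := by
  obtain ⟨d₀, hd₀, hcol'⟩ := hcol p ν ρ₀ hρ₀ hf₀ hX₀
  refine ⟨min ρ₀ d₀, lt_min hρ₀ hd₀, min_le_left _ _, fun ε hε => ?_⟩
  set ρ : ℝ := min ρ₀ d₀ with hρdef
  have hρ : 0 < ρ := lt_min hρ₀ hd₀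
  have hf : Flat P p ν ρ := hf₀.mono (min_le_left _ _)
  have hX : ∀ x ∈ X, ρ ≤ ‖x - p‖ := fun x hx => (min_le_left _ _).trans (hX₀ x hx)
  obtain ⟨M, hM0, hM⟩ := hcol' ρ hρ (min_le_right _ _)
  have hν := hf.1
  have hτ := isDir_tau hν
  obtain ⟨δ, hδ0, hδρ, hδε⟩ := exists_delta (A := 4 * M * (32 / ρ) ^ (1 + c)) hc hε hρ
  refine ⟨δ, hδ0, fun q hq hqp t ht htδ => ?_⟩
  set K : Set ℂ := Cl P ∩ Metric.closedBall p (ρ / 2) with hK
  have hKc : IsCompact K := (isCompact_Cl P).inter_right Metric.isClosed_closedBall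
  have hKX : K ⊆ Cl P ∩ Xᶜ := by
    rintro z ⟨hz1, hz2⟩
    refine ⟨hz1, fun hzX => ?_⟩
    have h1 := hX z hzX
    rw [Metric.mem_closedBall, dist_eq_norm] at hz2
    linarith
  have hqρ : ‖q - p‖ < ρ / 1024 := lt_of_lt_of_le hqp hδρ
  have hsp := hf.sp_eq_zero hq (by linarith)
  have inK : ∀ a b : ℝ, 0 ≤ a → 0 ≤ b → a + b ≤ ρ / 4 →
      q + (a : ℂ) * ν + (b : ℂ) * (-Complex.I * ν) ∈ K := by
    intro a b ha hb hab
    have e : q + (a : ℂ) * ν + (b : ℂ) * (-Complex.I * ν) - p =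
        (q - p) + (a : ℂ) * ν + (b : ℂ) * (-Complex.I * ν) := by ring
    have h1 : ‖q + (a : ℂ) * ν + (b : ℂ) * (-Complex.I * ν) - p‖ ≤ ρ / 2 := by
      rw [e]
      have h2 : ‖(a : ℂ) * ν‖ = a := by
        rw [norm_mul, norm_dir' hν, mul_one, Complex.norm_real, Real.norm_eq_abs, abs_of_nonneg ha]
      have h3 : ‖(b : ℂ) * (-Complex.I * ν)‖ = b := by
        rw [norm_mul, norm_dir' hτ, mul_one, Complex.norm_real, Real.norm_eq_abs, abs_of_nonneg hb]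
      have h4 := norm_add_le ((q - p) + (a : ℂ) * ν) ((b : ℂ) * (-Complex.I * ν))
      have h5 := norm_add_le (q - p) ((a : ℂ) * ν)
      linarith
    refine ⟨?_, ?_⟩
    · rw [hf.2 _ (by linarith), e, sp_step hν, hsp, zero_add]
      exact ha
    · rw [Metric.mem_closedBall, dist_eq_norm]
      exact h1
  obtain ⟨δ', hδ', hAE⟩ := hae K hKX hKc (ε * t / 4) (by positivity)
  have hnR : Tendsto (fun i => (n i : ℝ)) l atTop := tendsto_natCast_atTop_atTop.comp hn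
  filter_upwards [hM, hAE, hnR.eventually_ge_atTop (2 / t), hnR.eventually_ge_atTop (2048 / ρ),
    hnR.eventually_gt_atTop (2 / δ')] with i hMi hAEi hi1 hi2 hi3
  have hN0 : 0 < (n i : ℝ) := lt_of_lt_of_le (by positivity) hi1
  have hN0' : 0 < n i := by exact_mod_cast hN0
  have hNt : 2 ≤ (n i : ℝ) * t := by
    rw [div_le_iff₀ ht] at hi1; exact hi1
  have hNρ : 2048 ≤ (n i : ℝ) * ρ := by
    rw [div_le_iff₀ hρ] at hi2; exact hi2
  have hNδ : 2 < (n i : ℝ) * δ' := by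
    rw [div_lt_iff₀ hδ'] at hi3; exact hi3
  set N : ℝ := (n i : ℝ) with hN
  have hinv : 1 / N ≤ ρ / 2048 := by
    rw [div_le_div_iff₀ hN0 (by norm_num)]
    linarith
  have hinv0 : 0 < 1 / N := by positivity
  have hinvδ : 2 * (1 / N) < δ' := by
    rw [mul_one_div, div_lt_iff₀ hN0]
    linarith
  set v := fl (n i) q with hv
  set y := yL (n i) ν q t with hy
  have hy1 : (y : ℝ) < N * t + 1 := yL_lt hν (n i) q t
  have hy2 : N * t - 1 < (y : ℝ) := lt_yL hν (n i) q t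
  have hyge : 1 ≤ y := by
    have h1 : (0 : ℝ) < (y : ℝ) := by linarith
    have h2 : (0 : ℤ) < y := by exact_mod_cast h1
    omega
  set d := dlat ρ (n i) with hd
  have hdlow : ρ * N / 16 ≤ (d : ℝ) := by
    have h1 : ρ * N / 8 - 1 < (d : ℝ) := Int.sub_one_lt_floor _
    nlinarith
  have hd0 : (0 : ℝ) < d := lt_of_lt_of_le (by positivity) hdlow
  -- points
  have eA : fl (n i) (q + (t : ℂ) * ν) = v + y • dZ ν := fl_add_dir hν (n i) q t
  have eB : fl (n i) (q + ((1 / N : ℝ) : ℂ) * ν) = v + dZ ν := fl_step hν hN0' q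
  have eC : fl (n i) (q + (t : ℂ) * ν + ((1 / N : ℝ) : ℂ) * (-Complex.I * ν)) =
      v + dZ (-Complex.I * ν) + y • dZ ν := by
    rw [fl_step hτ hN0', eA]
    abel
  have eD : fl (n i) (q + ((1 / N : ℝ) : ℂ) * ν + ((1 / N : ℝ) : ℂ) * (-Complex.I * ν)) =
      v + dZ (-Complex.I * ν) + dZ ν := by
    rw [fl_step hτ hN0', eB]
    abel
  have kA : q + (t : ℂ) * ν ∈ K := by
    have := inK t 0 ht.le le_rfl (by linarith)
    simpa using this
  have kq : q ∈ K := by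
    have := inK 0 0 le_rfl le_rfl (by linarith)
    simpa using this
  have kB : q + ((1 / N : ℝ) : ℂ) * ν ∈ K := by
    have := inK (1 / N) 0 hinv0.le le_rfl (by linarith)
    rwa [Complex.ofReal_zero, zero_mul, add_zero] at this
  have kC := inK t (1 / N) ht.le hinv0.le (by linarith)
  have kD := inK (1 / N) (1 / N) hinv0.le hinv0.le (by linarith)
  have nν : ‖((1 / N : ℝ) : ℂ) * ν‖ = 1 / N := by
    rw [norm_mul, norm_dir' hν, mul_one, Complex.norm_real, Real.norm_eq_abs, abs_of_pos hinv0]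
  have nτ : ‖((1 / N : ℝ) : ℂ) * (-Complex.I * ν)‖ = 1 / N := by
    rw [norm_mul, norm_dir' hτ, mul_one, Complex.norm_real, Real.norm_eq_abs, abs_of_pos hinv0]
  have d1 : |u i (v + y • dZ ν) - u i (v + dZ (-Complex.I * ν) + y • dZ ν)| < ε * t / 4 := by
    have h1 := hAEi _ kA _ kC (by
      rw [dist_eq_norm, sub_add_eq_sub_sub, sub_self, zero_sub, norm_neg, nτ]
      linarith)
    rwa [Real.dist_eq, nz_sub, eA, eC] at h1
  have d2 : |u i (v + dZ ν) - u i v| < ε * t / 4 := by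
    have h1 := hAEi _ kB _ kq (by
      rw [dist_eq_norm, add_sub_cancel_left, nν]
      linarith)
    rwa [Real.dist_eq, nz_sub, eB] at h1
  have d3 : |u i (v + dZ (-Complex.I * ν) + dZ ν) - u i v| < ε * t / 4 := by
    have h1 := hAEi _ kD _ kq (by
      rw [dist_eq_norm]
      have e : q + ((1 / N : ℝ) : ℂ) * ν + ((1 / N : ℝ) : ℂ) * (-Complex.I * ν) - q =
        ((1 / N : ℝ) : ℂ) * ν + ((1 / N : ℝ) : ℂ) * (-Complex.I * ν) := by ring
      rw [e]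
      have := norm_add_le (((1 / N : ℝ) : ℂ) * ν) (((1 / N : ℝ) : ℂ) * (-Complex.I * ν))
      linarith)
    rwa [Real.dist_eq, nz_sub, eD] at h1
  -- the column bound, summed
  set f : ℤ → ℝ := fun j => u i (v + j • dZ ν) + u i (v + dZ (-Complex.I * ν) + j • dZ ν) -
    κ * (flatEnv d).dU2 j 1 with hfdef
  have hk1 : (((y - 1).toNat : ℕ) : ℤ) + 1 = y := by
    rw [Int.toNat_of_nonneg (by omega)]
    ring
  have hk2 : (((y - 1).toNat : ℕ) : ℝ) + 1 = (y : ℝ) := by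
    have : (((((y - 1).toNat : ℕ) : ℤ) + 1 : ℤ) : ℝ) = (y : ℝ) := by rw [hk1]
    push_cast at this
    exact this
  have h16 : 16 * (y : ℝ) ≤ d := by
    have h1 : (y : ℝ) ≤ 2 * (N * t) := by linarith
    have h2 : N * t ≤ N * (ρ / 1024) := by
      apply mul_le_mul_of_nonneg_left _ hN0.le
      linarith
    nlinarith
  have hdy := dyadic_sum (c := c) (M := M) (d := (d : ℝ)) (f := f) hc hM0 hd0 (by
    intro r y' m h1 h2 h3 h4
    have h5 := hMi q hq (by linarith) r y' m h1 h2 h3 (by exact_mod_cast h4)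
    have h6 : (flatEnv d).dU2 (y' + m) 1 = (flatEnv d).dU2 (y' + m) y' + (flatEnv d).dU2 y' 1 :=
      dU2_add _ (by omega) (by omega)
    have e : f (y' + m) - f y' =
        (u i (v + (y' + m) • dZ ν) - u i (v + y' • dZ ν)) +
          (u i (v + dZ (-Complex.I * ν) + (y' + m) • dZ ν) -
            u i (v + dZ (-Complex.I * ν) + y' • dZ ν)) - κ * (flatEnv d).dU2 (y' + m) y' := by
      simp only [hfdef]
      rw [h6]
      ring
    rw [e]
    exact h5) (y - 1).toNat (by rw [hk2]; exact h16)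
  rw [hk1, hk2] at hdy
  have hbound : 4 * M * ((y : ℝ) / d) ^ (1 + c) ≤ ε * t := by
    have hy0 : (0 : ℝ) ≤ (y : ℝ) := by linarith
    have h1 : (y : ℝ) / d ≤ 32 / ρ * t := by
      rw [div_le_iff₀ hd0]
      have h2 : (y : ℝ) ≤ 2 * (N * t) := by linarith
      have h3 : 32 / ρ * t * (ρ * N / 16) ≤ 32 / ρ * t * (d : ℝ) :=
        mul_le_mul_of_nonneg_left hdlow (by positivity)
      have h4 : 32 / ρ * t * (ρ * N / 16) = 2 * (N * t) := by
        field_simp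
        ring
      linarith
    have h2 : ((y : ℝ) / d) ^ (1 + c) ≤ (32 / ρ) ^ (1 + c) * (δ ^ c * t) := by
      calc ((y : ℝ) / d) ^ (1 + c) ≤ (32 / ρ * t) ^ (1 + c) :=
            Real.rpow_le_rpow (by positivity) h1 (by linarith)
        _ = (32 / ρ) ^ (1 + c) * t ^ (1 + c) := Real.mul_rpow (by positivity) ht.le
        _ ≤ (32 / ρ) ^ (1 + c) * (δ ^ c * t) := by
            apply mul_le_mul_of_nonneg_left _ (by positivity)
            rw [Real.rpow_add ht, Real.rpow_one, mul_comm]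
            exact mul_le_mul_of_nonneg_right (Real.rpow_le_rpow ht.le htδ.le hc.le) ht.le
    calc 4 * M * ((y : ℝ) / d) ^ (1 + c) ≤ 4 * M * ((32 / ρ) ^ (1 + c) * (δ ^ c * t)) :=
          mul_le_mul_of_nonneg_left h2 (by positivity)
      _ = 4 * M * (32 / ρ) ^ (1 + c) * δ ^ c * t := by ring
      _ ≤ ε * t := mul_le_mul_of_nonneg_right hδε ht.le
  have hcolF := hdy.trans hbound
  have ef : f y - f 1 = (u i (v + y • dZ ν) + u i (v + dZ (-Complex.I * ν) + y • dZ ν)) -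
      (u i (v + dZ ν) + u i (v + dZ (-Complex.I * ν) + dZ ν)) - κ * (flatEnv d).dU2 y 1 := by
    simp only [hfdef]
    rw [dU2_self, one_smul]
    ring
  rw [ef] at hcolF
  rw [nz_sub, eA]
  rw [abs_lt] at d1 d2 d3
  rw [abs_le] at hcolF ⊢
  have hεt : 0 < ε * t := by positivity
  constructor
  · linarith [d1.1, d2.1, d3.1, hcolF.1]
  · linarith [d1.2, d2.2, d3.2, hcolF.2]

/-- **Neumann condition** of a combination with coefficient sum `0`. -/
theorem neu_of_colK {ι : Type*} {l : Filter ι} {n : ι → ℕ} {P : Finset (ℤ × ℤ)} {X : Set ℂ} {c : ℝ}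
    {z0 : ℂ} {D : ι → ℤ × ℤ → ℝ} (hn : Tendsto n l atTop) (hc : 0 < c) (hXc : IsClosed X)
    (hcol : ColK l n P X c 0 D) (hae : AE l (fun i => nz (n i) z0 (D i)) (Cl P ∩ Xᶜ)) :
    ∀ p ν : ℂ, p ∉ X → Wall P p ν → ∀ ε : ℝ, 0 < ε → ∃ δ : ℝ, 0 < δ ∧ ∀ q : ℂ, Wall P q ν →
      ‖q - p‖ < δ → ∀ t : ℝ, 0 < t → t < δ → ∀ᶠ i in l,
        |nz (n i) z0 (D i) (q + t * ν) - nz (n i) z0 (D i) q| ≤ ε * t := by
  intro p ν hp hw ε hε
  obtain ⟨r, hr, hr2⟩ := hw.exists_flat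
  obtain ⟨s, hs, hs2⟩ := Metric.isOpen_iff.1 hXc.isOpen_compl p hp
  obtain ⟨ρ, -, -, h0⟩ := neuK_of_col (ρ₀ := min r s) hn hc hcol hae (by positivity)
    (hr2.mono (min_le_left _ _)) (fun x hx => by
      by_contra hlt
      rw [not_le] at hlt
      exact hs2 (by rw [Metric.mem_ball, dist_eq_norm]; exact hlt.trans_le (min_le_right _ _)) hx)
  obtain ⟨δ, hδ, h1⟩ := h0 ε hε
  refine ⟨δ, hδ, fun q hq hqp t ht htδ => ?_⟩
  filter_upwards [h1 q hq hqp t ht htδ] with i hi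
  rwa [zero_mul, sub_zero] at hi

end

end Pool.Agent.SixB
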