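import Pool.Agent.Lib.SixB.S6LEnvC
import Pool.Agent.Lib.SixB.CADomFin

/-!
# 6BD, block CA-L: environments of a contour near a flat mark, part 4

The input of the comparison of the heights at the marks `a2`, `a2'`, for every frame of the flat wall:
* `flat_unique`: two frames of a flat wall at the same vertex are equal;
* `MkAt.dbl`: `|E.num ω a| ≤ H ω` in place of `2 * H ω`; `MkAt.any`: the walls of the contour in any frame;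
* `InM E v r₀ t B`: for every frame, a majorant `H` of the weight and the numerators with `Mj t H kh A`, `kh * A ≤ B`;
* `inX`, `inP`: `InM` for `envX` (sides `k`, `k - 1`) and `envP`, eventually along `lka t₄`.
-/

set_option autoImplicit false
set_option linter.unusedVariables false

namespace Pool.Agent.SixB.LI

open Filter Topology Pool.Agent.Perc Pool.Agent.Perc.Q Pool.Agent.PercD Pool.Agent.PercN Pool.Agent.Perc6 Relation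
  Pool.Agent.SixB.Tilt
open DomMk DomX

noncomputable section

/-- the frame of a flat wall is unique -/
theorem flat_unique {F : Finset (ℤ × ℤ)} {κ κ' : ZMod 4} {v : ℤ × ℤ} {R R' : ℤ} (h : FlatZ F κ v R)
    (h' : FlatZ F κ' v R') (hR : 1 ≤ R) (hR' : 1 ≤ R') : κ = κ' := by
  have a1 := h 0 0 (by omega) (by omega) (by omega) (by omega)
  have a2 := h (-1) 0 (by omega) (by omega) (by omega) (by omega)
  have a3 := h 0 (-1) (by omega) (by omega) (by omega) (by omega)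
  have a4 := h (-1) (-1) (by omega) (by omega) (by omega) (by omega)
  have b1 := h' 0 0 (by omega) (by omega) (by omega) (by omega)
  have b2 := h' (-1) 0 (by omega) (by omega) (by omega) (by omega)
  have b3 := h' 0 (-1) (by omega) (by omega) (by omega) (by omega)
  have b4 := h' (-1) (-1) (by omega) (by omega) (by omega) (by omega)
  have c1 : (0 : ℤ) ≤ 0 := le_rfl
  have c2 : ¬ (0 : ℤ) ≤ -1 := by norm_num
  simp only [c1, c2, iff_true, iff_false] at a1 a2 a3 a4 b1 b2 b3 b4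
  rcases k4 κ with rfl | rfl | rfl | rfl <;> rcases k4 κ' with rfl | rfl | rfl | rfl <;>
    simp only [cl_0, cl_1, cl_2, cl_3, add_zero, sub_zero, sub_neg_eq_add, add_sub_cancel_right,
      ← sub_eq_add_neg] at a1 a2 a3 a4 b1 b2 b3 b4 <;> first
      | rfl
      | exact absurd a1 b1
      | exact absurd a1 b2
      | exact absurd a1 b3
      | exact absurd a1 b4
      | exact absurd a2 b1
      | exact absurd a2 b2
      | exact absurd a2 b3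
      | exact absurd a2 b4

theorem MkAt.dbl {E : WEnv} {PA PB : UE → Prop} {v : VZ} {r₀ : ℕ} {t kh A : ℝ} {H : Cfg → ℝ}
    (hM : MkAt E PA PB v r₀ t kh A H) : MkAt E PA PB v r₀ t kh (2 * A) (fun ω => 2 * H ω) where
  kh0 := hM.kh0
  nn ω := mul_nonneg zero_le_two (hM.nn ω)
  W ω := (hM.W ω).trans (by linarith [hM.nn ω])
  num ω a ha := (hM.num ω a ha).trans (by linarith [hM.nn ω])
  ex := by
    obtain ⟨h', Y, h1, h2, h3, h4, h5, h6, h7⟩ := hM.ex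
    refine ⟨fun ω => 2 * h' ω, Y, fun ω => mul_nonneg zero_le_two (h1 ω), fun ω ω' hω => ?_, h3, h4,
      fun ω => ?_, ?_, ?_⟩
    · simp only [h2 ω ω' hω]
    · have := h5 ω
      nlinarith
    · have e1 : (fun ω => 2 * h' ω * Y ω ^ 2) = fun ω => 2 * (h' ω * Y ω ^ 2) := by
        funext ω
        ring
      rw [e1, av_mul, av_mul]
      nlinarith
    · rw [av_mul]
      nlinarith

/-- the walls of the contour in any frame -/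
theorem MkAt.any {E : WEnv} {n : ℕ} {g : ℤ → ℤ × ℤ} {c : ℤ} {κ κ' : ZMod 4} {R R' : ℤ} {r : ℕ} {t kh A : ℝ}
    {H : Cfg → ℝ} (hF : FlatZ E.F κ (gr n g c) R) (hr : (r : ℤ) < R)
    (hfr : ∀ x, -R ≤ x → x ≤ R → gr n g (c + x) = Tilt.fr κ (gr n g c) x 0)
    (hF' : FlatZ E.F κ' (gr n g c) R') (hr' : (r : ℤ) < R')
    (hM : MkAt E (MA n g c r) (MB n g c r) (gr n g c) r t kh A H) :
    MkAt E (PAz κ' (gr n g c) R') (PBz κ' (gr n g c) R') (gr n g c) r t kh A H := by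
  obtain rfl := flat_unique hF hF' (by omega) (by omega)
  refine MkAt.congr (fun ω => ?_) hM
  rw [NA_cut hF' hr'.le, MA_eq (fun i h1 h2 => hfr i (by omega) (by omega)) (by positivity),
    MB_eq (fun i h1 h2 => hfr i (by omega) (by omega)) (by positivity)]

/-- **the input of the comparison of the heights**, for every frame: majorants with the bound `B` -/
def InM (E : WEnv) (v : VZ) (r₀ : ℕ) (t B : ℝ) : Prop :=
  ∀ (κ : ZMod 4) (R : ℤ) (b : ℕ) (hP : HasPotQ ZQ E.F) (hF : FlatZ E.F κ v R) (hb : 2 ≤ b) (hr : (r₀ : ℤ) < R),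
    ∃ (H : Cfg → ℝ) (kh A : ℝ), ((ldat hP hF hb hr).sys 1 1 le_rfl).Mj t H kh A ∧ kh * A ≤ B ∧
      (∀ ω, |E.W ω| ≤ H ω) ∧ ∀ ω, ∀ e ∈ dE ZQ (E.F ∩ BR v r₀), |E.num ω e| ≤ H ω

theorem InM.mono {E : WEnv} {v : VZ} {r₀ : ℕ} {t B B' : ℝ} (h : InM E v r₀ t B) (hB : B ≤ B') :
    InM E v r₀ t B' := by
  intro κ R b hP hF hb hr
  obtain ⟨H, kh, A, h1, h2, h3⟩ := h κ R b hP hF hb hr
  exact ⟨H, kh, A, h1, h2.trans hB, h3⟩

theorem MkAt.inM {E : WEnv} {n : ℕ} {g : ℤ → ℤ × ℤ} {c : ℤ} {κ : ZMod 4} {R : ℤ} {r : ℕ} {t kh A : ℝ}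
    {H : Cfg → ℝ} (hF : FlatZ E.F κ (gr n g c) R) (hr : (r : ℤ) < R)
    (hfr : ∀ x, -R ≤ x → x ≤ R → gr n g (c + x) = Tilt.fr κ (gr n g c) x 0)
    (hM : MkAt E (MA n g c r) (MB n g c r) (gr n g c) r t kh A H) :
    InM E (gr n g c) r t (kh * (2 * A)) := by
  intro κ' R' b hP hF' hb hr'
  have h1 := (MkAt.any hF hr hfr hF' hr' hM).dbl
  exact ⟨_, kh, _, MkAt.mj (T := 1) (ka := 1) le_rfl hP hF' hb hr' h1, le_rfl, h1.W, fun ω e he => by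
    have := hM.num ω e he
    exact this⟩

section final

variable {P : Finset (ℤ × ℤ)} {L : ℕ} {g : ℤ → ℤ × ℤ} {t₁ t₂ t₂' t₃ t₄ : ℝ}

/-- the frame of the contour at a flat point, along `lk` -/
theorem frame_at (hc : Cont P L g) {t : ℝ} (ht : Fl g t) (t₄ : ℝ) : ∃ κ : ZMod 4, ∃ δ : ℝ, 0 < δ ∧ ∀ ρ : ℝ,
    0 < ρ → ρ ≤ δ / 2 → ∀ᶠ p : ℕ × ℤ in lk t₄, FlatZ (rf p.1 P) κ (gr p.1 g (ix p.1 t)) ⌊δ * p.1⌋ ∧
      (⌊ρ * p.1⌋₊ : ℤ) < ⌊δ * p.1⌋ ∧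
      ∀ x, -⌊δ * p.1⌋ ≤ x → x ≤ ⌊δ * p.1⌋ → gr p.1 g (ix p.1 t + x) = Tilt.fr κ (gr p.1 g (ix p.1 t)) x 0 := by
  obtain ⟨κ, δ, hδ, hflat⟩ := flat_near hc ht
  refine ⟨κ, δ, hδ, fun ρ hρ hρδ => ?_⟩
  filter_upwards [ix_near (lk_n t₄) t hδ, lk_pos t₄ ⌈2 / δ⌉₊] with p e hn1
  have hn2 : 2 / δ < p.1 := (Nat.le_ceil _).trans_lt (by exact_mod_cast hn1)
  have hn' : (0 : ℝ) < p.1 := lt_trans (by positivity) hn2
  have hn : 0 < p.1 := by exact_mod_cast hn'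
  have hδn : 2 < δ * p.1 := by rwa [div_lt_iff₀' hδ] at hn2
  obtain ⟨h1, h2⟩ := hflat p.1 hn _ e ⌊δ * p.1⌋ (Int.floor_nonneg.2 (by positivity)) (Int.floor_le _)
  refine ⟨h1, ?_, h2⟩
  have h3 : (⌊ρ * (p.1 : ℝ)⌋₊ : ℝ) ≤ ρ * p.1 := Nat.floor_le (by positivity)
  have h4 : δ * p.1 - 1 < ⌊δ * (p.1 : ℝ)⌋ := Int.sub_one_lt_floor _
  have h5 : ρ * p.1 ≤ δ / 2 * p.1 := mul_le_mul_of_nonneg_right hρδ hn'.le
  have : ((⌊ρ * (p.1 : ℝ)⌋₊ : ℤ) : ℝ) < ⌊δ * (p.1 : ℝ)⌋ := by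
    push_cast
    linarith
  exact_mod_cast this

/-- **The full environment, sides `k` and `k - 1`, both marks.** -/
theorem inX (hP : MPoly P) (hc : Cont P L g) (hM : Marks5 L g t₁ t₂ t₂' t₃ t₄) : ∃ ρ₀ : ℝ, 0 < ρ₀ ∧
    ∀ ρ : ℝ, 0 < ρ → ρ ≤ ρ₀ → ∃ Mc : ℝ, 0 ≤ Mc ∧ ∀ᶠ q : (ℕ × ℤ) × ℝ in lka t₄,
      ∀ k : ℤ, k = q.1.2 ∨ k = q.1.2 - 1 → ∀ t : ℝ, t = t₂ ∨ t = t₂' →
        0 < (envX P L g q.1.1 q.2 (ix q.1.1 t₁) (ix q.1.1 t₂) (ix q.1.1 t₂') (ix q.1.1 t₃) k).Z ∧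
        InM (envX P L g q.1.1 q.2 (ix q.1.1 t₁) (ix q.1.1 t₂) (ix q.1.1 t₂') (ix q.1.1 t₃) k)
          (gr q.1.1 g (ix q.1.1 t)) ⌊ρ * q.1.1⌋₊ (tau q.2)
          (Mc * (envX P L g q.1.1 q.2 (ix q.1.1 t₁) (ix q.1.1 t₂) (ix q.1.1 t₂') (ix q.1.1 t₃) k).Z) := by
  obtain ⟨κ, δ, hδ, hf⟩ := frame_at hc hM.f2 t₄
  obtain ⟨κ', δ', hδ', hf'⟩ := frame_at hc hM.f2' t₄
  obtain ⟨ρ₁, hρ₁, hX⟩ := mkX Dom.detX P L g hP hc hM
  refine ⟨min ρ₁ (min (δ / 2) (δ' / 2)), by positivity, fun ρ hρ hρ' => ?_⟩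
  simp only [le_min_iff] at hρ'
  obtain ⟨hρ1, hρδ, hρδ'⟩ := hρ'
  obtain ⟨kh, M, hkh, hM0, k1⟩ := hX ρ hρ hρ1
  refine ⟨2 * kh * M, by positivity, ?_⟩
  rw [lka, eventually_prod_principal_iff]
  filter_upwards [k1, (lk_pred t₄).eventually k1, hf ρ hρ hρδ, hf' ρ hρ hρδ'] with p x1 x2 y y'
  intro α hα k hk t ht
  simp only [Int.floor_toNat] at x1 x2
  obtain ⟨zX, ⟨H, m⟩, ⟨H', m'⟩⟩ : 0 < (envX P L g p.1 α (ix p.1 t₁) (ix p.1 t₂) (ix p.1 t₂') (ix p.1 t₃) k).Z ∧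
        (∃ H, MkAt (envX P L g p.1 α (ix p.1 t₁) (ix p.1 t₂) (ix p.1 t₂') (ix p.1 t₃) k)
          (MA p.1 g (ix p.1 t₂) ⌊ρ * p.1⌋₊) (MB p.1 g (ix p.1 t₂) ⌊ρ * p.1⌋₊)
          (gr p.1 g (ix p.1 t₂)) ⌊ρ * p.1⌋₊ (tau α) kh
          (M * (envX P L g p.1 α (ix p.1 t₁) (ix p.1 t₂) (ix p.1 t₂') (ix p.1 t₃) k).Z) H) ∧
        (∃ H, MkAt (envX P L g p.1 α (ix p.1 t₁) (ix p.1 t₂) (ix p.1 t₂') (ix p.1 t₃) k)
          (MA p.1 g (ix p.1 t₂') ⌊ρ * p.1⌋₊) (MB p.1 g (ix p.1 t₂') ⌊ρ * p.1⌋₊)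
          (gr p.1 g (ix p.1 t₂')) ⌊ρ * p.1⌋₊ (tau α) kh
          (M * (envX P L g p.1 α (ix p.1 t₁) (ix p.1 t₂) (ix p.1 t₂') (ix p.1 t₃) k).Z) H) := by
    rcases hk with rfl | rfl
    · exact x1 α hα
    · exact x2 α hα
  refine ⟨zX, ?_⟩
  rcases ht with rfl | rfl
  · refine InM.mono (MkAt.inM y.1 y.2.1 y.2.2 m) (le_of_eq ?_)
    ring
  · refine InM.mono (MkAt.inM y'.1 y'.2.1 y'.2.2 m') (le_of_eq ?_)
    ring

/-- **The environment with two marks, both marks.** -/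
theorem inP (hP : MPoly P) (hc : Cont P L g) (hM : Marks5 L g t₁ t₂ t₂' t₃ t₄) : ∃ ρ₀ : ℝ, 0 < ρ₀ ∧
    ∀ ρ : ℝ, 0 < ρ → ρ ≤ ρ₀ → ∃ Mc : ℝ, 0 ≤ Mc ∧ ∀ᶠ q : (ℕ × ℤ) × ℝ in lka t₄,
      ∀ t : ℝ, t = t₂ ∨ t = t₂' →
        0 < (envP P L g q.1.1 q.2 (ix q.1.1 t₂) (ix q.1.1 t₂')).Z ∧
        InM (envP P L g q.1.1 q.2 (ix q.1.1 t₂) (ix q.1.1 t₂')) (gr q.1.1 g (ix q.1.1 t)) ⌊ρ * q.1.1⌋₊
          (tau q.2) (Mc * (envP P L g q.1.1 q.2 (ix q.1.1 t₂) (ix q.1.1 t₂')).Z) := by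
  obtain ⟨κ, δ, hδ, hf⟩ := frame_at hc hM.f2 t₄
  obtain ⟨κ', δ', hδ', hf'⟩ := frame_at hc hM.f2' t₄
  obtain ⟨ρ₁, hρ₁, hX⟩ := mkP Dom.detP P L g hP hc hM.h2 (by linarith [hM.h1, hM.h3, hM.h4, hM.h5])
    hM.f2 hM.f2'
  refine ⟨min ρ₁ (min (δ / 2) (δ' / 2)), by positivity, fun ρ hρ hρ' => ?_⟩
  simp only [le_min_iff] at hρ'
  obtain ⟨hρ1, hρδ, hρδ'⟩ := hρ'
  obtain ⟨kh, M, hkh, hM0, k1⟩ := hX ρ hρ hρ1
  refine ⟨2 * kh * M, by positivity, ?_⟩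
  rw [lka, eventually_prod_principal_iff]
  filter_upwards [(lk_n t₄).eventually k1, hf ρ hρ hρδ, hf' ρ hρ hρδ'] with p x1 y y'
  intro α hα t ht
  simp only [Int.floor_toNat] at x1
  obtain ⟨zP, ⟨H, m⟩, ⟨H', m'⟩⟩ := x1 α hα
  refine ⟨zP, ?_⟩
  rcases ht with rfl | rfl
  · refine InM.mono (MkAt.inM y.1 y.2.1 y.2.2 m) (le_of_eq ?_)
    ring
  · refine InM.mono (MkAt.inM y'.1 y'.2.1 y'.2.2 m') (le_of_eq ?_)
    ring

end final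

end

end Pool.Agent.SixB.LI
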