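import Pool.Agent.Lib.SixB.S6LHgtL
import Pool.Agent.Lib.SixB.S6LEnvD

/-!
# 6BD, block CA-L, row L6: heights by scale, part 14: the field `xpL` of `EnvLat`

`markMaj : MarkMaj` from `LI.inX`, `LI.inP`; `xpL : XpL`.
-/

set_option autoImplicit false
set_option linter.unusedSectionVars false

namespace Pool.Agent.SixB

open Pool.Agent.Perc Pool.Agent.Perc.Q Relation Pool.Agent.SixB.Tilt PercD PercN Filter Topology

noncomputable section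

namespace HG

theorem mjAt_of {E : WEnv} {F : Finset (ℤ × ℤ)} {w : ℤ → VZ} {j : ℤ} {b r₀ : ℕ} {R : ℤ} {t M Mc : ℝ}
    (hF : E.F = F) (hM : M ≤ Mc) (hI : 0 < E.Z ∧ LI.InM E (w j) r₀ t (M * E.Z)) :
    MjAt F w j b r₀ R t E Mc := by
  subst hF
  intro κ hP hF hb hr _
  refine ⟨hI.1, ?_⟩
  obtain ⟨H, kh, A, h1, h2, h3, h4⟩ :=
    (hI.2.mono (mul_le_mul_of_nonneg_right hM hI.1.le)) κ R b hP hF hb hr
  refine ⟨H, kh, A, h1, h2, h3, fun ω e he => h4 ω e ?_⟩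
  have h := LI.ldat_Bx hP hF hb hr 0
  rw [LI.rl_zero] at h
  rwa [h] at he

theorem markMaj : MarkMaj := by
  intro P L g hP hc t₁ t₂ t₂' t₃ t₄ t hm ht b hb
  obtain ⟨ρ₁, hρ₁, hX⟩ := LI.inX hP hc hm
  obtain ⟨ρ₂, hρ₂, hPP⟩ := LI.inP hP hc hm
  refine ⟨min ρ₁ ρ₂, lt_min hρ₁ hρ₂, fun ρ hρ hρ0 => ?_⟩
  obtain ⟨M₁, hM₁, hX⟩ := hX ρ hρ (hρ0.trans (min_le_left _ _))
  obtain ⟨M₂, hM₂, hPP⟩ := hPP ρ hρ (hρ0.trans (min_le_right _ _))
  refine ⟨max M₁ M₂, hM₁.trans (le_max_left _ _), ?_⟩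
  filter_upwards [hX, hPP] with q hX hPP R hR
  refine ⟨mjAt_of rfl (le_max_right _ _) (hPP t ht), fun c => ?_⟩
  refine mjAt_of rfl (le_max_left _ _) (hX _ ?_ t ht)
  cases c
  · exact Or.inr rfl
  · exact Or.inl rfl

/-- **Field `xpL` of `EnvLat`** -/
theorem xpL : XpL := xpL_of markMaj

end HG

end

end Pool.Agent.SixB
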