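import Pool.Agent.Lib.SixB.CALat
import Pool.Agent.Lib.SixB.S6LHgtN

/-!
# Block CA: the end

`caOut_of_core : CoreFam → CAOut`. All the fields of the input `EnvLat` of block CA are theorems, except the
convergence of the core families `CoreFam` (block S3).
-/

set_option autoImplicit false

namespace Pool.Agent.SixB

open Pool.Agent.Perc Pool.Agent.Perc.Q

/-- **Block CA.** -/
theorem caOut_of_core (h : CoreFam) : CAOut := caOut_of_rest ⟨h, HG.xpL⟩

end Pool.Agent.SixB
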