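import Pool.Agent.Lib.SixB.CAFrame

/-!
# 6BD, block CA: lower bound of the arm in a polygon (helper14)

`Port P n σ R k`: near a flat wall point (frame `σ`) the strips `[0, R] × [0, n]` of the frame are
inside the block `n k` of `rf n P`.
`pr_CrS_lo`: the first `s` vertices of the wall are joined to a macroscopic piece of the wall at
another port with probability at least `c (s / n) ^ (1 / 3)`.
-/

set_option autoImplicit false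

namespace Pool.Agent.SixB.Third

open Finset Pool.Agent.Perc Pool.Agent.Perc6 Pool.Agent.AnnH

variable {ω : Cfg}

theorem mem_rf' {n : ℕ} {P : Finset (ℤ × ℤ)} {g : ℤ × ℤ} :
    g ∈ rf n P ↔ ∃ k ∈ P, g ∈ cellF 0 0 n k := by
  unfold rf cellF
  rw [mem_biUnion]
  refine exists_congr fun k => and_congr_right fun _ => ?_
  rw [mem_RFi, mem_product, mem_Ico, mem_Ico]
  have e1 : (n : ℤ) * (k.1 + 1) = n * k.1 + n := by ring
  have e2 : (n : ℤ) * (k.2 + 1) = n * k.2 + n := by ring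
  rw [e1, e2]
  constructor <;> intro h <;> omega

theorem cells_eq {n : ℕ} {P : Finset (ℤ × ℤ)} : cellsF 0 0 n P = rf n P := by
  ext g
  rw [mem_rf']
  unfold cellsF
  rw [mem_biUnion]

theorem cell_sub {n : ℕ} {P : Finset (ℤ × ℤ)} {k : ℤ × ℤ} (hk : k ∈ P) :
    cellF 0 0 n k ⊆ rf n P := by
  intro g hg
  exact mem_rf'.2 ⟨k, hk, hg⟩

theorem cConn_of_eConn {P : Finset (ℤ × ℤ)} (hP : EConn (P : Set (ℤ × ℤ))) {k k' : ℤ × ℤ}
    (hk : k ∈ P) (hk' : k' ∈ P) : CConn P k k' := by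
  have key : ∀ x, Relation.ReflTransGen (fun a b => b ∈ (P : Set (ℤ × ℤ)) ∧ EAdj a b) k x →
      CConn P k x ∧ x ∈ P := by
    intro x h
    induction h with
    | refl => exact ⟨Relation.ReflTransGen.refl, hk⟩
    | @tail a b _ hab ih =>
      obtain ⟨hb, he⟩ := hab
      have hb' : b ∈ P := Finset.mem_coe.1 hb
      refine ⟨ih.1.tail ⟨ih.2, hb', ?_⟩, hb'⟩
      rcases he with rfl | rfl | rfl | rfl
      · exact Or.inr ⟨rfl, by rw [abs_eq (by norm_num)]; simp only; omega⟩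
      · exact Or.inr ⟨rfl, by rw [abs_eq (by norm_num)]; simp only; omega⟩
      · exact Or.inl ⟨rfl, by rw [abs_eq (by norm_num)]; simp only; omega⟩
      · exact Or.inl ⟨rfl, by rw [abs_eq (by norm_num)]; simp only; omega⟩
  exact (key k' (hP k (Finset.mem_coe.2 hk) k' (Finset.mem_coe.2 hk'))).1

/-! ## Strips -/

/-- A path of colour `c` from the wall through the strip `[a, b] × [0, h]` of the frame. -/
def BTF (σ : Sym) (c a b h : ℤ) : Set Cfg :=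
  {ω | ∃ u v : ℤ × ℤ, u.2 = 0 ∧ a ≤ u.1 ∧ u.1 ≤ b ∧ v.2 = h ∧ ((σ.v u).1 + (σ.v u).2 - c) % 2 = 0 ∧
    Conn ω (bx σ a b 0 h) (σ.v u) (σ.v v)}

theorem depOn_BTF (σ : Sym) (c a b h : ℤ) : DepOn (bx σ a b 0 h : Set (ℤ × ℤ)) (BTF σ c a b h) := by
  intro ω ω' hω
  simp only [BTF, Set.mem_ofPred_eq, GridA.conn_iff _ hω]

theorem incD_BTF (σ : Sym) (c a b h : ℤ) : IncD (parD c) (BTF σ c a b h) := by
  rintro ω ω' hω ⟨u, v, h1, h2, h3, h4, h5, h6⟩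
  exact ⟨u, v, h1, h2, h3, h4, h5, incD_conn c _ h5 ω ω' hω h6⟩

theorem pr_BTF_lo (K : ℕ) : ∃ c₀ : ℝ, 0 < c₀ ∧ ∀ (σ : Sym) (p T N : ℤ × ℤ) (c a b h : ℤ)
    (D : Finset (ℤ × ℤ)), IsFr σ p T N → a < b → 0 < h → h ≤ K * (b - a) → bx σ a b 0 h ⊆ D →
    c₀ ≤ pr D (BTF σ c a b h) := by
  obtain ⟨c₀, hc₀, hB⟩ := rswF' K
  refine ⟨c₀, hc₀, fun σ p T N c a b h D hσ hab hh hK hD => ?_⟩
  have h1 : pr D (BTF σ c a b h) = pr (RF a b 0 h) (BT (c - p.1 - p.2) a b 0 h) := by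
    refine pr_fr (σ := σ) (depOn_BTF σ c a b h) hD fun ω => ?_
    unfold BTF BT
    simp only [Set.mem_ofPred_eq, coe_bx, σ.conn_iff]
    refine exists_congr fun u => exists_congr fun v => and_congr_right fun _ =>
      and_congr_right fun _ => and_congr_right fun _ => and_congr_right fun _ =>
      and_congr_left fun _ => ?_
    have := hσ.par u
    omega
  rw [h1]
  exact hB _ _ _ _ _ hab hh (by linarith)

/-- The strips at the wall are inside a block. -/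
structure Port (P : Finset (ℤ × ℤ)) (n : ℕ) (σ : Sym) (R : ℤ) (k : ℤ × ℤ) : Prop where
  mem : k ∈ P
  cell : bx σ 0 R 0 n ⊆ cellF 0 0 n k
  vin : ∀ x : ℤ, 0 ≤ x → x ≤ R → 0 + (n : ℤ) * k.1 ≤ (σ.v (x, 0)).1 ∧
    (σ.v (x, 0)).1 ≤ 0 + (n : ℤ) * (k.1 + 1) ∧ 0 + (n : ℤ) * k.2 ≤ (σ.v (x, 0)).2 ∧
      (σ.v (x, 0)).2 ≤ 0 + (n : ℤ) * (k.2 + 1)
  ends : (∀ x y : ℤ, (σ.v (x, 0)).1 = 0 + n * k.1 ∧ (σ.v (y, n)).1 = 0 + n * (k.1 + 1)) ∨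
    (∀ x y : ℤ, (σ.v (x, 0)).1 = 0 + n * (k.1 + 1) ∧ (σ.v (y, n)).1 = 0 + n * k.1) ∨
    (∀ x y : ℤ, (σ.v (x, 0)).2 = 0 + n * k.2 ∧ (σ.v (y, n)).2 = 0 + n * (k.2 + 1)) ∨
    (∀ x y : ℤ, (σ.v (x, 0)).2 = 0 + n * (k.2 + 1) ∧ (σ.v (y, n)).2 = 0 + n * k.2)

theorem Port.spine {P : Finset (ℤ × ℤ)} {n : ℕ} {σ : Sym} {R : ℤ} {k : ℤ × ℤ} (h : Port P n σ R k)
    {c a b : ℤ} (ha : 0 ≤ a) (hb : b ≤ R) {u v : ℤ × ℤ} (h1 : u.2 = 0) (h2 : a ≤ u.1) (h3 : u.1 ≤ b)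
    (h4 : v.2 = n) (h5 : ((σ.v u).1 + (σ.v u).2 - c) % 2 = 0)
    (h6 : Conn ω (bx σ a b 0 n) (σ.v u) (σ.v v)) : Spine ω c 0 0 n k (σ.v u) := by
  obtain ⟨x, u2⟩ := u
  obtain ⟨y, v2⟩ := v
  simp only at h1 h2 h3 h4
  subst h1 h4
  have h7 : Conn ω (cellF 0 0 n k) (σ.v (x, 0)) (σ.v (y, n)) :=
    Conn.mono (Finset.coe_subset.2 ((bx_mono ha hb le_rfl le_rfl).trans h.cell)) h6
  refine ⟨h5, h.vin x (by omega) (by omega), ?_⟩
  rcases h.ends with e | e | e | e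
  · exact Or.inl ⟨_, _, Relation.ReflTransGen.refl, h7, (e x y).1, (e x y).2⟩
  · exact Or.inl ⟨_, _, h7, Relation.ReflTransGen.refl, (e x y).2, (e x y).1⟩
  · exact Or.inr ⟨_, _, Relation.ReflTransGen.refl, h7, (e x y).1, (e x y).2⟩
  · exact Or.inr ⟨_, _, h7, Relation.ReflTransGen.refl, (e x y).2, (e x y).1⟩

/-! ## The arm which is joined to a macroscopic crossing -/

/-- `OArm` in a frame. -/
def OArmF (σ : Sym) (c t m : ℤ) : Set Cfg :=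
  {ω | ∃ a b b' : ℤ × ℤ, a.2 = 0 ∧ -(2 * t) ≤ a.1 ∧ a.1 ≤ 2 * t ∧
    ((σ.v a).1 + (σ.v a).2 - c) % 2 = 0 ∧
    Conn ω (bx σ (-(4 * m)) (4 * m) 0 (4 * m)) (σ.v a) (σ.v b) ∧ b.1 = -(4 * m) ∧ b'.1 = 4 * m ∧
    Conn ω (bx σ (-(4 * m)) (4 * m) (2 * m) (4 * m)) (σ.v b) (σ.v b')}

theorem depOn_OArmF (σ : Sym) (c t : ℤ) {m : ℤ} (hm : 0 ≤ m) :
    DepOn (bx σ (-(4 * m)) (4 * m) 0 (4 * m) : Set (ℤ × ℤ)) (OArmF σ c t m) := by
  intro ω ω' h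
  have h' : ∀ f ∈ (bx σ (-(4 * m)) (4 * m) (2 * m) (4 * m) : Set (ℤ × ℤ)), ω f = ω' f :=
    fun f hf => h f (Finset.coe_subset.2 (bx_mono le_rfl le_rfl (by omega) le_rfl) hf)
  simp only [OArmF, Set.mem_ofPred_eq, GridA.conn_iff _ h, GridA.conn_iff _ h']

theorem incD_OArmF (σ : Sym) (c t m : ℤ) : IncD (parD c) (OArmF σ c t m) := by
  rintro ω ω' h ⟨a, b, b', h1, h2, h3, h4, h5, h6, h7, h8⟩
  have hp := Conn.parity h5
  exact ⟨a, b, b', h1, h2, h3, h4, incD_conn c _ h4 ω ω' h h5, h6, h7,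
    incD_conn c _ (by omega) ω ω' h h8⟩

theorem pr_OArmF {σ : Sym} {p T N : ℤ × ℤ} (h : IsFr σ p T N) {c : ℤ} (hc : (p.1 + p.2 - c) % 2 = 0)
    {t m : ℤ} (hm : 0 ≤ m) {D : Finset (ℤ × ℤ)} (hD : bx σ (-(4 * m)) (4 * m) 0 (4 * m) ⊆ D) :
    pr D (OArmF σ c t m) = pr (RF (-(4 * m)) (4 * m) 0 (4 * m)) (OArm t m) := by
  refine pr_fr (σ := σ) (depOn_OArmF σ c t hm) hD fun ω => ?_
  unfold OArmF OArm
  simp only [Set.mem_ofPred_eq, coe_bx, σ.conn_iff]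
  refine exists_congr fun u => exists_congr fun v => exists_congr fun v' => and_congr_right fun _ =>
    and_congr_right fun _ => and_congr_right fun _ => and_congr_left fun _ => ?_
  have := h.par u
  omega

/-- The arm and the strip are joined. -/
theorem arm_strip {σ τ : Sym} {p T N : ℤ × ℤ} (hσ : IsFr σ p T N) {c t m k₀ n : ℤ}
    (hv : ∀ w : ℤ × ℤ, τ.v w = σ.v (w.1 + k₀, w.2)) (hf : ∀ f : ℤ × ℤ, τ.f f = σ.f (f.1 + k₀, f.2))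
    (hm : 0 < m) (h0 : 0 ≤ k₀) (hk : k₀ ≤ m) (hn : 4 * m ≤ n) {D : Finset (ℤ × ℤ)}
    (hD : bx σ (-(5 * m)) (5 * m) 0 (5 * m) ⊆ D) (hD' : bx σ 0 (4 * m) 0 n ⊆ D)
    (hO : ω ∈ OArmF τ c t m) {u v : ℤ × ℤ} (h1 : u.2 = 0) (h4 : v.2 = n)
    (h5 : ((σ.v u).1 + (σ.v u).2 - c) % 2 = 0) (h6 : Conn ω (bx σ 0 (4 * m) 0 n) (σ.v u) (σ.v v)) :
    ∃ x : ℤ, k₀ - 2 * t ≤ x ∧ x ≤ k₀ + 2 * t ∧ ((σ.v (x, 0)).1 + (σ.v (x, 0)).2 - c) % 2 = 0 ∧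
      Conn ω D (σ.v (x, 0)) (σ.v u) := by
  obtain ⟨a, b, b', a1, a2, a3, a4, a5, a6, a7, a8⟩ := hO
  have e : ∀ x₀ x₁ y₀ y₁ : ℤ, bx τ x₀ x₁ y₀ y₁ = bx σ (x₀ + k₀) (x₁ + k₀) y₀ y₁ := by
    intro x₀ x₁ y₀ y₁
    ext g
    unfold bx
    rw [mem_image, mem_image]
    constructor
    · rintro ⟨f, hf1, rfl⟩
      rw [mem_RFi] at hf1
      refine ⟨(f.1 + k₀, f.2), ?_, (hf f).symm⟩
      rw [mem_RFi]
      simp only
      omega
    · rintro ⟨f, hf1, rfl⟩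
      rw [mem_RFi] at hf1
      refine ⟨(f.1 - k₀, f.2), ?_, ?_⟩
      · rw [mem_RFi]
        simp only
        omega
      · rw [hf]
        congr 1
        ext <;> simp
  rw [e, hv, hv] at a5 a8
  rw [hv] at a4
  have hpar := Conn.parity a5
  have q1 := hσ.par (b.1 + k₀, b.2)
  have q2 := hσ.par u
  simp only at q1
  -- pull back by the frame
  obtain ⟨ω', rfl⟩ : ∃ ω', σ.act ω' = ω := ⟨σ.inv.act ω, σ.act_inv ω⟩
  rw [coe_bx, σ.conn_iff] at a8 h6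
  have hc := HPB.cross (ω := ω') (x₀ := 0) (x₁ := 4 * m) (y₀ := 2 * m) (y₁ := 4 * m)
    (F := RF (-(4 * m) + k₀) (4 * m + k₀) (2 * m) (4 * m)) (F' := RF 0 (4 * m) 0 n)
    (G := (RF (-(5 * m)) (5 * m) 0 (5 * m) : Set (ℤ × ℤ)) ∪ RF 0 (4 * m) 0 n)
    (by omega) (by omega) (HPB.inY le_rfl le_rfl) (HPB.inX le_rfl le_rfl)
    (by
      refine Set.Subset.trans ?_ Set.subset_union_left
      intro f hf1
      rw [Finset.mem_coe, mem_RFi] at hf1 ⊢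
      omega)
    Set.subset_union_right
    (by
      refine Set.Subset.trans ?_ Set.subset_union_left
      intro f hf1
      rw [Finset.mem_coe, mem_RFi] at hf1 ⊢
      omega)
    (by simp only; omega) (by simp only; omega) (by omega) (by omega) (by simp only; omega) a8 h6
  have hG : σ.f '' ((RF (-(5 * m)) (5 * m) 0 (5 * m) : Set (ℤ × ℤ)) ∪ RF 0 (4 * m) 0 n) ⊆
      (D : Set (ℤ × ℤ)) := by
    rw [Set.image_union, ← coe_bx, ← coe_bx]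
    exact Set.union_subset (Finset.coe_subset.2 hD) (Finset.coe_subset.2 hD')
  have hc' := Conn.mono hG (σ.toHSym.conn_act hc)
  have ha : a = (a.1, 0) := Prod.ext rfl a1
  refine ⟨a.1 + k₀, by omega, by omega, ?_, ?_⟩
  · rw [a1] at a4
    exact a4
  · rw [a1] at a5
    exact (Conn.mono (Finset.coe_subset.2 ((bx_mono (by omega) (by omega) le_rfl (by omega)).trans
      hD)) a5).trans hc'

/-- Four increasing events. -/
theorem harris4 {D : Finset (ℤ × ℤ)} {d : ℤ × ℤ → Bool} {A₁ A₂ A₃ A₄ : Set Cfg} {p₁ p₂ p₃ p₄ : ℝ}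
    (h1 : DepOn D A₁) (h2 : DepOn D A₂) (h3 : DepOn D A₃) (h4 : DepOn D A₄)
    (i1 : IncD d A₁) (i2 : IncD d A₂) (i3 : IncD d A₃) (i4 : IncD d A₄)
    (q2 : 0 ≤ p₂) (q3 : 0 ≤ p₃) (q4 : 0 ≤ p₄)
    (r1 : p₁ ≤ pr D A₁) (r2 : p₂ ≤ pr D A₂) (r3 : p₃ ≤ pr D A₃) (r4 : p₄ ≤ pr D A₄) :
    p₁ * (p₂ * (p₃ * p₄)) ≤ pr D (A₁ ∩ (A₂ ∩ (A₃ ∩ A₄))) := by
  have s3 := (mul_le_mul r3 r4 q4 (pr_nonneg _ _)).trans (harris d h3 h4 i3 i4)
  have s2 := (mul_le_mul r2 s3 (by positivity) (pr_nonneg _ _)).trans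
    (harris d h2 (depOn_inter' h3 h4) i2 (incD_inter' i3 i4))
  exact (mul_le_mul r1 s2 (by positivity) (pr_nonneg _ _)).trans
    (harris d h1 (depOn_inter' h2 (depOn_inter' h3 h4)) i1 (incD_inter' i2 (incD_inter' i3 i4)))

/-- **Lower bound.** -/
theorem pr_CrS_lo (P : Finset (ℤ × ℤ)) (hP : EConn (P : Set (ℤ × ℤ))) (K : ℕ) :
    ∃ c₁ : ℝ, 0 < c₁ ∧ ∀ (n m s l : ℕ) (σ τ : Sym) (p T N p' T' N' k k' : ℤ × ℤ) (c : ℤ), 0 < m →
      4 * m ≤ n → n ≤ K * m → 0 < l → n ≤ K * l → 8 ≤ s → s ≤ m → IsFr σ p T N → IsFr τ p' T' N' →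
      Port P n σ (5 * m) k → Flat (rf n P) σ (5 * m) → Port P n τ l k' →
      c₁ * ((s : ℝ) / n) ^ (1 / 3 : ℝ) ≤
        pr (rf n P) (CrS (rf n P) c (wl σ s) (wl τ l)) := by
  obtain ⟨c₀, hc₀, h0⟩ := pr_OArm_lo
  obtain ⟨c₂, hc₂, h2⟩ := pr_BTF_lo K
  obtain ⟨δ, hδ, hT⟩ := pr_tube P.card
  refine ⟨c₂ * (c₂ * (δ * (c₀ * (1 / 16 : ℝ) ^ (1 / 3 : ℝ)))), by positivity, ?_⟩
  intro n m s l σ τ p T N p' T' N' k k' c hm hmn hnm hl hnl hs hsm hσ hτ hpσ hfσ hpτ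
  -- the centre of the arm
  obtain ⟨k₀, hk0, hk1, hk2⟩ : ∃ k₀ : ℤ, ((s : ℤ) / 2 - 1 ≤ k₀) ∧ k₀ ≤ (s : ℤ) / 2 ∧
      (p.1 + p.2 + k₀ - c) % 2 = 0 := by
    by_cases h : (p.1 + p.2 + (s : ℤ) / 2 - c) % 2 = 0
    · exact ⟨(s : ℤ) / 2, by omega, le_rfl, h⟩
    · exact ⟨(s : ℤ) / 2 - 1, le_rfl, by omega, by omega⟩
  obtain ⟨σ', hσ', hv, hf⟩ := hσ.shift k₀
  have hcell := cell_sub (n := n) hpσ.mem
  have hbox : bx σ (-(5 * (m : ℤ))) (5 * m) 0 (5 * m) ⊆ rf n P := hfσ.bx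
  have hstrip : bx σ 0 (4 * (m : ℤ)) 0 n ⊆ rf n P :=
    ((bx_mono le_rfl (by omega) le_rfl le_rfl).trans hpσ.cell).trans hcell
  have hstrip' : bx τ 0 (l : ℤ) 0 n ⊆ rf n P := hpτ.cell.trans (cell_sub hpτ.mem)
  have hbx' : bx σ' (-(4 * (m : ℤ))) (4 * m) 0 (4 * m) ⊆ rf n P := by
    refine Finset.Subset.trans ?_ hbox
    intro g hg
    unfold bx at hg ⊢
    rw [mem_image] at hg ⊢
    obtain ⟨f, hf1, rfl⟩ := hg
    rw [mem_RFi] at hf1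
    refine ⟨(f.1 + k₀, f.2), ?_, (hf f).symm⟩
    rw [mem_RFi]
    simp only
    omega
  have hpar : (((p.1 + k₀ * T.1, p.2 + k₀ * T.2) : ℤ × ℤ).1 +
      ((p.1 + k₀ * T.1, p.2 + k₀ * T.2) : ℤ × ℤ).2 - c) % 2 = 0 := by
    have := hσ.perp
    simp only
    rcases this with ⟨h3 | h3, h4, -, -⟩ | ⟨h3, h4 | h4, -, -⟩ <;> rw [h3, h4] <;> omega
  -- the four events
  have hst : (1 : ℝ) ≤ m := by exact_mod_cast hm
  have r1 : c₂ ≤ pr (rf n P) (BTF σ c 0 (4 * m) n) :=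
    h2 σ p T N c 0 (4 * m) n _ hσ (by omega) (by omega) (by
      have : (n : ℤ) ≤ K * m := by exact_mod_cast hnm
      nlinarith) hstrip
  have r2 : c₂ ≤ pr (rf n P) (BTF τ c 0 l n) :=
    h2 τ p' T' N' c 0 l n _ hτ (by omega) (by omega) (by
      have : (n : ℤ) ≤ K * l := by exact_mod_cast hnl
      linarith) hstrip'
  have r3 : δ ≤ pr (rf n P) (TubeEv c 0 0 n P) :=
    hT c 0 0 n P (rf n P) (by omega) le_rfl (by rw [cells_eq])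
  have r4 : c₀ * (1 / 16 : ℝ) ^ (1 / 3 : ℝ) * ((s : ℝ) / n) ^ (1 / 3 : ℝ) ≤
      pr (rf n P) (OArmF σ' c ((s / 8 : ℕ) : ℤ) m) := by
    rw [pr_OArmF hσ' hpar (by omega) hbx']
    refine le_trans ?_ (h0 (s / 8) m (by omega) (by omega))
    rw [mul_assoc, ← Real.mul_rpow (by norm_num) (by positivity)]
    refine mul_le_mul_of_nonneg_left (Real.rpow_le_rpow (by positivity) ?_ (by norm_num)) hc₀.le
    have e1 : (s : ℝ) ≤ 16 * ((s / 8 : ℕ) : ℝ) := by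
      have : s ≤ 16 * (s / 8) := by omega
      exact_mod_cast this
    have e2 : (m : ℝ) ≤ n := by
      have : m ≤ n := by omega
      exact_mod_cast this
    have e4 : (0 : ℝ) < n := lt_of_lt_of_le (by linarith) e2
    rw [one_div_mul_eq_div, div_div, div_le_div_iff₀ (by positivity) (by positivity)]
    have e3 : (0 : ℝ) ≤ ((s / 8 : ℕ) : ℝ) := by positivity
    nlinarith
  have key := harris4 (depOn_mono' (depOn_BTF σ c 0 (4 * m) n) (Finset.coe_subset.2 hstrip))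
    (depOn_mono' (depOn_BTF τ c 0 l n) (Finset.coe_subset.2 hstrip'))
    (depOn_mono' (depOn_tube c 0 0 n P (by omega)) (Finset.coe_subset.2 (by rw [cells_eq])))
    (depOn_mono' (depOn_OArmF σ' c ((s / 8 : ℕ) : ℤ) (m := m) (by omega)) (Finset.coe_subset.2 hbx'))
    (incD_BTF σ c 0 (4 * m) n) (incD_BTF τ c 0 l n) (incD_tube c 0 0 n P)
    (incD_OArmF σ' c ((s / 8 : ℕ) : ℤ) m) hc₂.le hδ.le (by positivity) r1 r2 r3 r4
  refine le_trans (le_of_eq ?_) (key.trans (pr_mono _ ?_))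
  · ring
  · rintro ω ⟨⟨u, v, u1, u2, u3, u4, u5, u6⟩, ⟨u', v', u1', u2', u3', u4', u5', u6'⟩, hTu, hO⟩
    have s1 := hpσ.spine (ω := ω) (c := c) (a := 0) (b := 4 * m) le_rfl (by omega) u1 u2 u3 u4 u5 u6
    have s2 := hpτ.spine (ω := ω) (c := c) (a := 0) (b := l) le_rfl le_rfl u1' u2' u3' u4' u5' u6'
    have hcc := tube_conn (by omega) hTu (cConn_of_eConn hP hpσ.mem hpτ.mem) hpσ.mem s1 s2
    rw [cells_eq] at hcc
    obtain ⟨x, x1, x2, x3, x4⟩ := arm_strip (D := rf n P) hσ hv hf (by omega) (by omega) (by omega)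
      (by omega) hbox hstrip hO u1 u4 u5 u6
    have e5 : u' = (u'.1, 0) := Prod.ext rfl u1'
    refine ⟨σ.v (x, 0), ⟨x, by omega, by omega, rfl⟩, τ.v u', ⟨u'.1, u2', u3', ?_⟩, x3,
      x4.trans hcc⟩
    rw [← e5]

end Pool.Agent.SixB.Third
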