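import Pool.Agent.Lib.SixB.CAComp

/-!
# Limits of crossing probabilities along ultrafilters (helper96)

* `CrossSeq.exists_ultra`: along an ultrafilter `u ≤ atTop` the functions `Cn n x y` converge to a
  function `C` which is monotone, continuous in `y`, `0` at `y = 0`, `1` at `y = L`;
* `Rel.of_lattice`: the relation `Rel` from ratios of discrete derivatives along sequences of indices;
* `Rel.congr`, `Rel.exponent`: the function in the relation, its logarithmic coefficient;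
* `CrossSeq.tendsto_ultra`: the final assembly.
-/

set_option autoImplicit false

namespace Pool.Agent.SixB

open Set Filter Topology

/-- Bounded sequences converge along an ultrafilter. -/
theorem exists_ultra_lim {f : ℕ → ℝ} {a b : ℝ} (u : Ultrafilter ℕ)
    (hf : ∀ᶠ n in (u : Filter ℕ), f n ∈ Icc a b) :
    ∃ l ∈ Icc a b, Tendsto f (u : Filter ℕ) (𝓝 l) := by
  have h : ((u.map f : Ultrafilter ℝ) : Filter ℝ) ≤ 𝓟 (Icc a b) := by
    rw [le_principal_iff]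
    exact hf
  obtain ⟨l, hl, hle⟩ := isCompact_Icc.ultrafilter_le_nhds (u.map f) h
  exact ⟨l, hl, hle⟩

/-- **Compactness**, along an ultrafilter. -/
theorem CrossSeq.exists_ultra {M L : ℝ} (hL : 0 ≤ L) {Cn : ℕ → ℝ → ℝ → ℝ}
    (h : CrossSeq M L Cn) (u : Ultrafilter ℕ) (hu : (u : Filter ℕ) ≤ atTop) :
    ∃ C : ℝ → ℝ → ℝ,
      (∀ x ∈ Ioo 0 M, ∀ y ∈ Icc 0 L, Tendsto (fun n => Cn n x y) (u : Filter ℕ) (𝓝 (C x y))) ∧
      (∀ y ∈ Icc 0 L, MonotoneOn (fun x => C x y) (Ioo 0 M)) ∧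
      (∀ x ∈ Ioo 0 M, MonotoneOn (C x) (Icc 0 L)) ∧
      (∀ x ∈ Ioo 0 M, ContinuousOn (C x) (Icc 0 L)) ∧
      (∀ x ∈ Ioo 0 M, C x 0 = 0) ∧ (∀ x ∈ Ioo 0 M, C x L = 1) := by
  have hconv : ∀ x ∈ Ioo 0 M, ∀ y ∈ Icc 0 L,
      ∃ l, Tendsto (fun n => Cn n x y) (u : Filter ℕ) (𝓝 l) := by
    intro x hx y hy
    obtain ⟨l, -, hl⟩ := exists_ultra_lim (f := fun n => Cn n x y) (a := 0) (b := 1) u
      (Eventually.of_forall fun n => ⟨h.nonneg n x hx y hy, h.le_one n x hx y hy⟩)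
    exact ⟨l, hl⟩
  choose! C hC using hconv
  have h0M : (0 : ℝ) ∈ Icc 0 L ∧ L ∈ Icc 0 L := ⟨⟨le_refl _, hL⟩, ⟨hL, le_refl _⟩⟩
  refine ⟨C, hC, ?_, ?_, ?_, ?_, ?_⟩
  · intro y hy x hx x' hx' hxx
    exact le_of_tendsto_of_tendsto' (hC x hx y hy) (hC x' hx' y hy)
      (fun k => h.mono1 k y hy hx hx' hxx)
  · intro x hx y hy y' hy' hyy
    exact le_of_tendsto_of_tendsto' (hC x hx y hy) (hC x hx y' hy')
      (fun k => h.mono2 k x hx hy hy' hyy)
  · intro x hx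
    rw [Metric.continuousOn_iff]
    intro y hy ε hε
    obtain ⟨δ, hδ, N, hN⟩ := h.equi2 x hx y hy (ε / 2) (by positivity)
    refine ⟨δ, hδ, fun y' hy' hd => ?_⟩
    rw [Real.dist_eq] at hd ⊢
    have h1 : |C x y' - C x y| ≤ ε / 2 := by
      refine le_of_tendsto ((hC x hx y' hy').sub (hC x hx y hy)).abs ?_
      filter_upwards [hu (eventually_ge_atTop N)] with k hk
      exact hN k hk y' hy' hd
    linarith
  · intro x hx
    exact tendsto_nhds_unique (hC x hx 0 h0M.1) ((h.zero x hx).mono_left hu)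
  · intro x hx
    exact tendsto_nhds_unique (hC x hx L h0M.2) ((h.one x hx).mono_left hu)

/-- Telescoping of an inequality between increments. -/
theorem telescope_le {f g : ℤ → ℝ} {a b : ℤ} (hab : a ≤ b) {m : ℝ}
    (h : ∀ k, a ≤ k → k < b → m * (f (k + 1) - f k) ≤ g (k + 1) - g k) :
    m * (f b - f a) ≤ g b - g a := by
  induction b, hab using Int.le_induction with
  | base => simp
  | succ n hn ih =>
    have h1 := ih (fun k hk hk' => h k hk (by omega))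
    have h2 := h n hn (by omega)
    have e : m * (f (n + 1) - f a) = m * (f (n + 1) - f n) + m * (f n - f a) := by ring
    linarith

/-- **From ratios of discrete derivatives to the relation.** `c n x k`: crossing probability with the
first mark `x` and the second mark at the boundary index `k`; `A n k`: the indices where a difference can be
nonzero. No uniformity is assumed: convergence of the ratio along every sequence `k n` of admissible indices
with `k n / n → ξ ∈ V` is enough. -/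
theorem Rel.of_lattice {U V : Set ℝ} (hV : IsOpen V) {Ψ C : ℝ → ℝ → ℝ} (u : Ultrafilter ℕ)
    (hu : (u : Filter ℕ) ≤ atTop) {c : ℕ → ℝ → ℤ → ℝ} {A : ℕ → ℤ → Prop}
    (hmono : ∀ n : ℕ, ∀ x ∈ U, ∀ k : ℤ, (k : ℝ) / n ∈ V → c n x k ≤ c n x (k + 1))
    (hA : ∀ n : ℕ, ∀ x ∈ U, ∀ k : ℤ, (k : ℝ) / n ∈ V → ¬ A n k → c n x (k + 1) = c n x k)
    (hC : ∀ x ∈ U, ∀ y ∈ V, Tendsto (fun n : ℕ => c n x ⌊(n : ℝ) * y⌋) (u : Filter ℕ) (𝓝 (C x y)))
    (hK : ∀ x ∈ U, ∀ x' ∈ U, ∀ ξ ∈ V, ∀ k : ℕ → ℤ,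
      Tendsto (fun n : ℕ => (k n : ℝ) / n) (u : Filter ℕ) (𝓝 ξ) →
      (∀ᶠ n in (u : Filter ℕ), A n (k n)) →
      Tendsto (fun n => (c n x' (k n + 1) - c n x' (k n)) / (c n x (k n + 1) - c n x (k n)))
        (u : Filter ℕ) (𝓝 (Real.exp (Ψ x' ξ - Ψ x ξ)))) : Rel U V Ψ C := by
  classical
  intro x hx x' hx' y y' hyy hsub m M hmM
  have hyV : y ∈ V := hsub ⟨le_refl _, hyy⟩
  have hy'V : y' ∈ V := hsub ⟨hyy, le_refl _⟩
  -- indices between the two marks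
  let I : ℕ → ℤ → Prop := fun n k => ⌊(n : ℝ) * y⌋ ≤ k ∧ k < ⌊(n : ℝ) * y'⌋
  have hpos : ∀ᶠ n : ℕ in (u : Filter ℕ), 0 < n := hu (eventually_gt_atTop 0)
  have hI : ∀ᶠ n : ℕ in (u : Filter ℕ), ∀ k, I n k → (k : ℝ) / n ∈ Icc (y - 1 / n) y' := by
    filter_upwards [hpos] with n hn k hk
    have hn' : (0 : ℝ) < n := by exact_mod_cast hn
    have h1 : (n : ℝ) * y - 1 ≤ k := by
      have := Int.sub_one_lt_floor ((n : ℝ) * y)
      have h2 : ((⌊(n : ℝ) * y⌋ : ℤ) : ℝ) ≤ k := by exact_mod_cast hk.1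
      linarith
    have h2 : (k : ℝ) ≤ n * y' := by
      have h3 : ((k : ℤ) : ℝ) ≤ (⌊(n : ℝ) * y'⌋ : ℤ) := by exact_mod_cast hk.2.le
      exact h3.trans (Int.floor_le _)
    constructor
    · rw [le_div_iff₀ hn']
      have : (y - 1 / n) * n = n * y - 1 := by field_simp
      linarith
    · rw [div_le_iff₀ hn']
      linarith
  -- sequences of such indices converge to points of `[y, y']`
  have hlim : ∀ k : ℕ → ℤ, (∀ᶠ n in (u : Filter ℕ), I n (k n)) → ∃ ξ ∈ Icc y y',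
      Tendsto (fun n : ℕ => (k n : ℝ) / n) (u : Filter ℕ) (𝓝 ξ) := by
    intro k hk
    have hb : ∀ᶠ n : ℕ in (u : Filter ℕ), (k n : ℝ) / n ∈ Icc (y - 1) y' := by
      filter_upwards [hk, hI, hpos] with n h1 h2 h3
      obtain ⟨h4, h5⟩ := h2 _ h1
      refine ⟨?_, h5⟩
      have : (1 : ℝ) / n ≤ 1 := by
        rw [div_le_one (by exact_mod_cast h3)]
        exact_mod_cast h3
      linarith
    obtain ⟨ξ, hξ, hT⟩ := exists_ultra_lim u hb
    refine ⟨ξ, ⟨?_, hξ.2⟩, hT⟩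
    have h0 : Tendsto (fun n : ℕ => y - 1 / (n : ℝ)) (u : Filter ℕ) (𝓝 (y - 0)) :=
      (tendsto_const_nhds.sub tendsto_one_div_atTop_nhds_zero_nat).mono_left hu
    rw [sub_zero] at h0
    refine le_of_tendsto_of_tendsto h0 hT ?_
    filter_upwards [hk, hI] with n h1 h2
    exact (h2 _ h1).1
  -- points of `[y - 1/n, y']` lie in `V`
  have hIV : ∀ᶠ n : ℕ in (u : Filter ℕ), ∀ k, I n k → (k : ℝ) / n ∈ V := by
    by_contra hneg
    rw [← Ultrafilter.eventually_not] at hneg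
    have h1 : ∀ n : ℕ, ∃ k : ℤ, (¬ ∀ k, I n k → (k : ℝ) / n ∈ V) → (I n k ∧ (k : ℝ) / n ∉ V) := by
      intro n
      by_cases h : ∀ k, I n k → (k : ℝ) / n ∈ V
      · exact ⟨0, fun h' => absurd h h'⟩
      · push Not at h
        obtain ⟨k, hk⟩ := h
        exact ⟨k, fun _ => hk⟩
    choose k hk using h1
    have h2 : ∀ᶠ n in (u : Filter ℕ), I n (k n) := by
      filter_upwards [hneg] with n hn
      exact (hk n hn).1
    obtain ⟨ξ, hξ, hT⟩ := hlim k h2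
    have h3 := hT.eventually (hV.mem_nhds (hsub hξ))
    have h4 : ∀ᶠ n in (u : Filter ℕ), False := by
      filter_upwards [hneg, h3] with n hn hn'
      exact (hk n hn).2 hn'
    obtain ⟨n, hn⟩ := h4.exists
    exact hn
  -- the pointwise inequality between increments
  have hkey : ∀ ε > 0, ∀ᶠ n in (u : Filter ℕ), ∀ k, I n k →
      (m - ε) * (c n x (k + 1) - c n x k) ≤ c n x' (k + 1) - c n x' k ∧
      c n x' (k + 1) - c n x' k ≤ (M + ε) * (c n x (k + 1) - c n x k) := by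
    intro ε hε
    by_contra hneg
    rw [← Ultrafilter.eventually_not] at hneg
    let B : ℕ → ℤ → Prop := fun n k => (m - ε) * (c n x (k + 1) - c n x k) ≤
      c n x' (k + 1) - c n x' k ∧ c n x' (k + 1) - c n x' k ≤ (M + ε) * (c n x (k + 1) - c n x k)
    have h1 : ∀ n : ℕ, ∃ k : ℤ, (¬ ∀ k, I n k → B n k) → (I n k ∧ ¬ B n k) := by
      intro n
      by_cases h : ∀ k, I n k → B n k
      · exact ⟨0, fun h' => absurd h h'⟩
      · rw [not_forall] at h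
        obtain ⟨k, hk⟩ := h
        rw [Classical.not_imp] at hk
        exact ⟨k, fun _ => hk⟩
    choose k hk using h1
    have h2 : ∀ᶠ n in (u : Filter ℕ), I n (k n) := by
      filter_upwards [hneg] with n hn
      exact (hk n hn).1
    have h2' : ∀ᶠ n in (u : Filter ℕ), ¬ B n (k n) := by
      filter_upwards [hneg] with n hn
      exact (hk n hn).2
    obtain ⟨ξ, hξ, hT⟩ := hlim k h2
    by_cases hAk : ∀ᶠ n in (u : Filter ℕ), A n (k n)
    · have h3 := hK x hx x' hx' ξ (hsub hξ) k hT hAk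
      obtain ⟨hm, hM⟩ := hmM ξ hξ
      have h4 := h3.eventually (Ioo_mem_nhds (a := Real.exp (Ψ x' ξ - Ψ x ξ) - ε)
        (b := Real.exp (Ψ x' ξ - Ψ x ξ) + ε) (by linarith) (by linarith))
      have h4' := h3.eventually (lt_mem_nhds (Real.exp_pos _))
      obtain ⟨n, h5, h6, h7, h8, h9⟩ :=
        (h4.and (h4'.and (h2'.and (h2.and hIV)))).exists
      apply h7
      have hKx : 0 ≤ c n x (k n + 1) - c n x (k n) := by
        linarith [hmono n x hx (k n) (h9 _ h8)]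
      have hKx' : 0 < c n x (k n + 1) - c n x (k n) := by
        rcases hKx.lt_or_eq with h | h
        · exact h
        · rw [← h, div_zero] at h6
          exact absurd h6 (lt_irrefl _)
      constructor
      · have h10 : m - ε ≤ (c n x' (k n + 1) - c n x' (k n)) / (c n x (k n + 1) - c n x (k n)) := by
          linarith [h5.1]
        rwa [le_div_iff₀ hKx'] at h10
      · have h10 : (c n x' (k n + 1) - c n x' (k n)) / (c n x (k n + 1) - c n x (k n)) ≤ M + ε := by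
          linarith [h5.2]
        rwa [div_le_iff₀ hKx'] at h10
    · rw [← Ultrafilter.eventually_not] at hAk
      obtain ⟨n, h5, h6, h7, h8⟩ := (hAk.and (h2'.and (h2.and hIV))).exists
      apply h6
      have e1 := hA n x hx (k n) (h8 _ h7) h5
      have e2 := hA n x' hx' (k n) (h8 _ h7) h5
      show (m - ε) * (c n x (k n + 1) - c n x (k n)) ≤ c n x' (k n + 1) - c n x' (k n) ∧
        c n x' (k n + 1) - c n x' (k n) ≤ (M + ε) * (c n x (k n + 1) - c n x (k n))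
      rw [e1, e2, sub_self, sub_self, mul_zero, mul_zero]
      exact ⟨le_refl _, le_refl _⟩
  -- telescoping and the limit
  have hfl : ∀ n : ℕ, ⌊(n : ℝ) * y⌋ ≤ ⌊(n : ℝ) * y'⌋ := fun n =>
    Int.floor_le_floor (by gcongr)
  have hT1 := (hC x hx y' hy'V).sub (hC x hx y hyV)
  have hT2 := (hC x' hx' y' hy'V).sub (hC x' hx' y hyV)
  have hfin : ∀ ε > 0, (m - ε) * (C x y' - C x y) ≤ C x' y' - C x' y ∧
      C x' y' - C x' y ≤ (M + ε) * (C x y' - C x y) := by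
    intro ε hε
    constructor
    · refine le_of_tendsto_of_tendsto (hT1.const_mul (m - ε)) hT2 ?_
      filter_upwards [hkey ε hε] with n hn
      exact telescope_le (f := c n x) (g := c n x') (hfl n) (fun k h1 h2 => (hn k ⟨h1, h2⟩).1)
    · refine le_of_tendsto_of_tendsto hT2 (hT1.const_mul (M + ε)) ?_
      filter_upwards [hkey ε hε] with n hn
      have h1 := telescope_le (f := fun k => - c n x k) (g := fun k => - c n x' k) (m := M + ε)
        (hfl n) (fun k h1 h2 => by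
          have := (hn k ⟨h1, h2⟩).2
          linarith)
      linarith
  have hle : ∀ {a b D : ℝ}, (∀ ε > 0, a ≤ b + ε * D) → a ≤ b := by
    intro a b D h
    have hT : Tendsto (fun ε : ℝ => b + ε * D) (𝓝[>] 0) (𝓝 (b + 0 * D)) :=
      (tendsto_const_nhds.add (tendsto_id.mul_const D)).mono_left nhdsWithin_le_nhds
    rw [zero_mul, add_zero] at hT
    exact ge_of_tendsto hT (by filter_upwards [self_mem_nhdsWithin] with ε hε using h ε hε)
  constructor
  · refine hle (D := C x y' - C x y) fun ε hε => ?_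
    linarith [(hfin ε hε).1]
  · refine hle (D := C x y' - C x y) fun ε hε => ?_
    linarith [(hfin ε hε).2]

/-- Only the differences `Ψ x' y - Ψ x y` matter. -/
theorem Rel.congr {U V : Set ℝ} {Ψ Φ C : ℝ → ℝ → ℝ} (hR : Rel U V Φ C)
    (h : ∀ x ∈ U, ∀ x' ∈ U, ∀ y ∈ V, Ψ x' y - Ψ x y = Φ x' y - Φ x y) : Rel U V Ψ C := by
  intro x hx x' hx' y y' hyy hV m M hmM
  exact hR x hx x' hx' y y' hyy hV m M fun t ht => by
    have e := h x hx x' hx' t (hV ht)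
    rw [← e]
    exact hmM t ht

/-- The relation for smaller sets. -/
theorem Rel.mono {U U' V V' : Set ℝ} {Ψ C : ℝ → ℝ → ℝ} (hR : Rel U V Ψ C) (hU : U' ⊆ U)
    (hV : V' ⊆ V) : Rel U' V' Ψ C :=
  fun x hx x' hx' y y' hyy h => hR x (hU hx) x' (hU hx') y y' hyy (h.trans hV)

/-- **The logarithmic coefficient from the arm exponent**, general form: if
`Ψ x t = s log x + O(1)` as `x → 0`, `t ∈ [y, y']`, and `C x y' - C x y` is of order `x ^ e`, then
`s = e`. -/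
theorem Rel.exponent {U V : Set ℝ} {Ψ C : ℝ → ℝ → ℝ} {s B a₁ a₂ e y y' x0 : ℝ}
    (hR : Rel U V Ψ C) (hyy : y ≤ y') (hsub : Icc y y' ⊆ V) (hx0 : 0 < x0) (hU : Ioc 0 x0 ⊆ U)
    (hΨ : ∀ x ∈ Ioc 0 x0, ∀ t ∈ Icc y y', |Ψ x t - s * Real.log x| ≤ B) (ha : 0 < a₁)
    (hlo : ∀ x ∈ Ioc 0 x0, a₁ * x ^ e ≤ C x y' - C x y)
    (hup : ∀ x ∈ Ioc 0 x0, C x y' - C x y ≤ a₂ * x ^ e) : s = e := by
  have hy0m : x0 ∈ Ioc 0 x0 := ⟨hx0, le_refl _⟩
  have hD0 : 0 < C x0 y' - C x0 y := lt_of_lt_of_le (by positivity) (hlo x0 hy0m)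
  set D0 : ℝ := C x0 y' - C x0 y with hD0'
  have ha2 : 0 < a₂ := by
    have := hup x0 hy0m
    by_contra hneg
    push Not at hneg
    have h1 : a₂ * x0 ^ e ≤ 0 := mul_nonpos_of_nonpos_of_nonneg hneg (by positivity)
    linarith
  have hkey : ∀ x ∈ Ioc 0 x0,
      Real.exp (s * (Real.log x - Real.log x0) - 2 * B) * D0 ≤ C x y' - C x y ∧
        C x y' - C x y ≤ Real.exp (s * (Real.log x - Real.log x0) + 2 * B) * D0 := by
    intro x hx
    apply hR x0 (hU hy0m) x (hU hx) y y' hyy hsub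
    intro t ht
    have h1 := abs_le.1 (hΨ x hx t ht)
    have h2 := abs_le.1 (hΨ x0 hy0m t ht)
    constructor
    · apply Real.exp_le_exp.2
      linarith [h1.1, h2.2]
    · apply Real.exp_le_exp.2
      linarith [h1.2, h2.1]
  have hlog : ∀ x ∈ Ioc 0 x0, (s - e) * Real.log x ≤
      Real.log a₂ - Real.log D0 + s * Real.log x0 + 2 * B ∧
      Real.log a₁ - Real.log D0 + s * Real.log x0 - 2 * B ≤ (s - e) * Real.log x := by
    intro x hx
    have hype : 0 < x ^ e := Real.rpow_pos_of_pos hx.1 e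
    have hDpos : 0 < C x y' - C x y := lt_of_lt_of_le (by positivity) (hlo x hx)
    have hle : Real.log (x ^ e) = e * Real.log x := Real.log_rpow hx.1 e
    obtain ⟨k1, k2⟩ := hkey x hx
    constructor
    · have h1 := (k1.trans (hup x hx))
      have h2 := Real.log_le_log (by positivity) h1
      rw [Real.log_mul (Real.exp_ne_zero _) hD0.ne', Real.log_exp, Real.log_mul ha2.ne' hype.ne',
        hle] at h2
      linarith
    · have h1 := ((hlo x hx).trans k2)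
      have h2 := Real.log_le_log (by positivity) h1
      rw [Real.log_mul ha.ne' hype.ne', hle, Real.log_mul (Real.exp_ne_zero _) hD0.ne',
        Real.log_exp] at h2
      linarith
  by_contra hne
  have hne' : s - e ≠ 0 := sub_ne_zero.2 hne
  rcases lt_or_gt_of_ne hne' with hneg | hpos
  · set K : ℝ := Real.log a₂ - Real.log D0 + s * Real.log x0 + 2 * B with hK
    set l : ℝ := min (Real.log x0) ((K + 1) / (s - e)) with hl
    have hm : Real.exp l ∈ Ioc 0 x0 := by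
      refine ⟨Real.exp_pos _, ?_⟩
      rw [← Real.le_log_iff_exp_le hx0]
      exact min_le_left _ _
    have h1 := (hlog _ hm).1
    rw [Real.log_exp] at h1
    have h2 : l ≤ (K + 1) / (s - e) := min_le_right _ _
    have h3 : (s - e) * ((K + 1) / (s - e)) ≤ (s - e) * l :=
      mul_le_mul_of_nonpos_left h2 hneg.le
    rw [mul_div_cancel₀ _ hne'] at h3
    linarith
  · set K : ℝ := Real.log a₁ - Real.log D0 + s * Real.log x0 - 2 * B with hK
    set l : ℝ := min (Real.log x0) ((K - 1) / (s - e)) with hl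
    have hm : Real.exp l ∈ Ioc 0 x0 := by
      refine ⟨Real.exp_pos _, ?_⟩
      rw [← Real.le_log_iff_exp_le hx0]
      exact min_le_left _ _
    have h1 := (hlog _ hm).2
    rw [Real.log_exp] at h1
    have h2 : l ≤ (K - 1) / (s - e) := min_le_right _ _
    have h3 : (s - e) * l ≤ (s - e) * ((K - 1) / (s - e)) :=
      mul_le_mul_of_nonneg_left h2 hpos.le
    rw [mul_div_cancel₀ _ hne'] at h3
    linarith

/-- **Uniqueness of the limits along ultrafilters.** -/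
theorem CrossSeq.ultra_unique {E F : Set ℝ} {M δ L : ℝ} (hδ : 0 < δ) (hL : 0 < L) (hδM : δ ≤ M)
    (hδE : Disjoint (Ioo 0 δ) E) (hE : E.Finite) (hF : F.Finite) {Ψ Ψ' ψ ψ' : ℝ → ℝ → ℝ}
    (hψ : ∀ x ∈ Ioo 0 δ, ∀ y ∈ Ioo 0 L \ F, HasDerivAt (fun x => Ψ x y) (ψ x y) x)
    (hψc : ContinuousOn (fun p : ℝ × ℝ => ψ p.1 p.2) (Ioo 0 δ ×ˢ (Ioo 0 L \ F)))
    (hΨc : ∀ x ∈ Ioo 0 M \ E, ContinuousOn (Ψ x) (Ioo 0 L \ F))
    (hΨ' : ∀ y ∈ Ioo 0 L \ F, ContinuousOn (fun x => Ψ' x y) (Ioo 0 δ))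
    (hψ' : ∀ x ∈ Ioo 0 δ, ∀ y ∈ Ioo 0 L \ F, HasDerivAt (Ψ' x) (ψ' x y) y)
    (hne : ∀ y ∈ Ioo 0 L \ F, ∃ η > 0, ∀ x ∈ Ioo 0 η, ψ x y ≠ 0)
    {Cn : ℕ → ℝ → ℝ → ℝ} (hseq : CrossSeq M L Cn) {u v : Ultrafilter ℕ} {C D : ℝ → ℝ → ℝ}
    (hu : (u : Filter ℕ) ≤ atTop) (hv : (v : Filter ℕ) ≤ atTop)
    (hC : ∀ x ∈ Ioo 0 M, ∀ y ∈ Icc 0 L,
      Tendsto (fun n => Cn n x y) (u : Filter ℕ) (𝓝 (C x y)))
    (hD : ∀ x ∈ Ioo 0 M, ∀ y ∈ Icc 0 L,
      Tendsto (fun n => Cn n x y) (v : Filter ℕ) (𝓝 (D x y)))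
    (hCl : CrossLim (Ioo 0 M \ E) (Ioo 0 L \ F) δ L Ψ Ψ' C)
    (hDl : CrossLim (Ioo 0 M \ E) (Ioo 0 L \ F) δ L Ψ Ψ' D) :
    ∀ x ∈ Ioo 0 M, ∀ y ∈ Icc 0 L, C x y = D x y := by
  have hsub : Ioo 0 δ ⊆ Ioo 0 M \ E := fun x hx =>
    ⟨Ioo_subset_Ioo_right hδM hx, fun hxE => Set.disjoint_left.1 hδE hx hxE⟩
  have huniq := CrossLim.unique hδ hL hsub hF rfl hψ hψc hΨc hΨ' hψ' hne hCl hDl
  intro x hx y hy
  by_cases hxE : x ∈ E
  · rcases hy.1.eq_or_lt with h0 | h0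
    · subst h0
      rw [tendsto_nhds_unique (hC x hx 0 hy) ((hseq.zero x hx).mono_left hu),
        tendsto_nhds_unique (hD x hx 0 hy) ((hseq.zero x hx).mono_left hv)]
    rcases hy.2.eq_or_lt with h1 | h1
    · subst h1
      rw [tendsto_nhds_unique (hC x hx y hy) ((hseq.one x hx).mono_left hu),
        tendsto_nhds_unique (hD x hx y hy) ((hseq.one x hx).mono_left hv)]
    have hy' : y ∈ Ioo 0 L := ⟨h0, h1⟩
    rw [← sub_eq_zero]
    by_contra hne'
    have hpos : 0 < |C x y - D x y| := abs_pos.2 hne'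
    obtain ⟨η, hη, N, hN⟩ := hseq.equi1 x hx y hy' (|C x y - D x y| / 4) (by positivity)
    obtain ⟨x', hx'1, hx'2⟩ : ∃ x' ∈ Ioo (x - η) (x + η) ∩ Ioo 0 M, x' ∉ E := by
      have h1 : (Ioo (x - η) (x + η) ∩ Ioo 0 M).Infinite := by
        rw [Ioo_inter_Ioo]
        apply Ioo_infinite
        rw [max_lt_iff, lt_min_iff, lt_min_iff]
        exact ⟨⟨by linarith, by linarith [hx.2]⟩, by linarith [hx.1], hx.1.trans hx.2⟩
      obtain ⟨x', hx'⟩ := (h1.sdiff hE).nonempty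
      exact ⟨x', hx'.1, hx'.2⟩
    have hd : |x' - x| < η := by
      rw [abs_lt]
      constructor <;> linarith [hx'1.1.1, hx'1.1.2]
    have b1 : |C x' y - C x y| ≤ |C x y - D x y| / 4 := by
      refine le_of_tendsto ((hC x' hx'1.2 y hy).sub (hC x hx y hy)).abs ?_
      filter_upwards [hu (eventually_ge_atTop N)] with k hk
      exact hN k hk x' hx'1.2 hd
    have b2 : |D x' y - D x y| ≤ |C x y - D x y| / 4 := by
      refine le_of_tendsto ((hD x' hx'1.2 y hy).sub (hD x hx y hy)).abs ?_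
      filter_upwards [hv (eventually_ge_atTop N)] with k hk
      exact hN k hk x' hx'1.2 hd
    have b3 := huniq x' ⟨hx'1.2, hx'2⟩ y hy
    have b4 : C x y - D x y = (D x' y - D x y) - (C x' y - C x y) := by rw [b3]; ring
    have b5 : |C x y - D x y| ≤ |D x' y - D x y| + |C x' y - C x y| := by
      conv_lhs => rw [b4]
      exact abs_sub _ _
    linarith
  · exact huniq x ⟨hx, hxE⟩ y hy

/-- **Assembly.** If for every ultrafilter `u ≤ atTop` the limit `C` satisfies the two relations with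
one and the same pair of functions `Ψ`, `Ψ'`, then the crossing probabilities converge. -/
theorem CrossSeq.tendsto_ultra {E F : Set ℝ} {M δ L : ℝ} (hδ : 0 < δ) (hL : 0 < L) (hδM : δ ≤ M)
    (hδE : Disjoint (Ioo 0 δ) E) (hE : E.Finite) (hF : F.Finite) {Ψ Ψ' ψ ψ' : ℝ → ℝ → ℝ}
    (hψ : ∀ x ∈ Ioo 0 δ, ∀ y ∈ Ioo 0 L \ F, HasDerivAt (fun x => Ψ x y) (ψ x y) x)
    (hψc : ContinuousOn (fun p : ℝ × ℝ => ψ p.1 p.2) (Ioo 0 δ ×ˢ (Ioo 0 L \ F)))
    (hΨc : ∀ x ∈ Ioo 0 M \ E, ContinuousOn (Ψ x) (Ioo 0 L \ F))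
    (hΨ' : ∀ y ∈ Ioo 0 L \ F, ContinuousOn (fun x => Ψ' x y) (Ioo 0 δ))
    (hψ' : ∀ x ∈ Ioo 0 δ, ∀ y ∈ Ioo 0 L \ F, HasDerivAt (Ψ' x) (ψ' x y) y)
    (hne : ∀ y ∈ Ioo 0 L \ F, ∃ η > 0, ∀ x ∈ Ioo 0 η, ψ x y ≠ 0)
    {Cn : ℕ → ℝ → ℝ → ℝ} (hseq : CrossSeq M L Cn)
    (hrel : ∀ (u : Ultrafilter ℕ) (C : ℝ → ℝ → ℝ), (u : Filter ℕ) ≤ atTop →
      (∀ x ∈ Ioo 0 M, ∀ y ∈ Icc 0 L,
        Tendsto (fun n => Cn n x y) (u : Filter ℕ) (𝓝 (C x y))) →
      Rel (Ioo 0 M \ E) (Ioo 0 L \ F) Ψ C ∧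
      Rel (Ioo 0 L \ F) (Ioo 0 δ) (fun y x => Ψ' x y) (fun y x => C x y)) :
    ∃ C : ℝ → ℝ → ℝ, CrossLim (Ioo 0 M \ E) (Ioo 0 L \ F) δ L Ψ Ψ' C ∧
      ∀ x ∈ Ioo 0 M, ∀ y ∈ Icc 0 L, Tendsto (fun n => Cn n x y) atTop (𝓝 (C x y)) := by
  have hsub : Ioo 0 δ ⊆ Ioo 0 M \ E := fun x hx =>
    ⟨Ioo_subset_Ioo_right hδM hx, fun hxE => Set.disjoint_left.1 hδE hx hxE⟩
  -- every ultrafilter has a limit of the class
  have hall : ∀ u : Ultrafilter ℕ, (u : Filter ℕ) ≤ atTop → ∃ C : ℝ → ℝ → ℝ,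
      (∀ x ∈ Ioo 0 M, ∀ y ∈ Icc 0 L,
        Tendsto (fun n => Cn n x y) (u : Filter ℕ) (𝓝 (C x y))) ∧
      CrossLim (Ioo 0 M \ E) (Ioo 0 L \ F) δ L Ψ Ψ' C := by
    intro u hu
    obtain ⟨C, hC, hm1, hm2, hc, h0, h1⟩ := hseq.exists_ultra hL.le u hu
    obtain ⟨hr1, hr2⟩ := hrel u C hu hC
    refine ⟨C, hC, hr1, hr2, ?_, fun x hx => hm2 x hx.1, fun x hx => hc x hx.1,
      fun x hx => h0 x hx.1, fun x hx => h1 x hx.1⟩
    intro y hy
    exact (hm1 y (Ioo_subset_Icc_self hy.1)).mono (Ioo_subset_Ioo_right hδM)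
  obtain ⟨C, hC, hCl⟩ := hall (Ultrafilter.of atTop) (Ultrafilter.of_le atTop)
  refine ⟨C, hCl, ?_⟩
  intro x hx y hy
  rw [tendsto_iff_ultrafilter]
  intro v hv
  obtain ⟨D, hD, hDl⟩ := hall v hv
  rw [CrossSeq.ultra_unique hδ hL hδM hδE hE hF hψ hψc hΨc hΨ' hψ' hne hseq
    (Ultrafilter.of_le atTop) hv hC hD hCl hDl x hx y hy]
  exact hD x hx y hy

end Pool.Agent.SixB
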