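import Pool.Agent.Lib.SixB.S7TopB
import Pool.Agent.Lib.SixB.CADefs

/-!
# 6BD, block CA: `K` is the discrete derivative of the crossing probability (A2)

`NCMat m τ`: `τ` is a non crossing matching of the sides `0, …, m - 1` of a contour. `Mated F m w ω τ`:
`τ` is the matching of the sides of the contour `w` by the strands of `ω` in `F`. `Mated.conn_iff`: two
vertices `w x`, `w y` of the contour are joined iff `τ` leaves `[x, y)` invariant. `kevZ_iff`: the event
`K` in terms of the strands and in terms of connections. `Ct_sub`, `Kt_eq`: `K` is the discrete derivative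
of the crossing probability.
-/

set_option autoImplicit false

namespace Pool.Agent.SixB

open Finset Pool.Agent.Perc Pool.Agent.Perc6

/-! ### Non crossing matchings -/

/-- Non crossing matching of `0, …, m - 1`. -/
structure NCMat (m : ℕ) (τ : ℕ → ℕ) : Prop where
  lt : ∀ i < m, τ i < m
  ne : ∀ i < m, τ i ≠ i
  inv : ∀ i < m, τ (τ i) = i
  nc : ∀ i < m, i < τ i → ∀ j, i < j → j < τ i → i < τ j ∧ τ j < τ i

/-- The interval `[x, y)` is invariant. -/
def Inv (τ : ℕ → ℕ) (x y : ℕ) : Prop := ∀ i, x ≤ i → i < y → x ≤ τ i ∧ τ i < y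

variable {m : ℕ} {τ : ℕ → ℕ}

theorem NCMat.inv_inner (h : NCMat m τ) {i : ℕ} (hi : i < m) (hlt : i < τ i) :
    Inv τ (i + 1) (τ i) := by
  intro j h1 h2
  have := h.nc i hi hlt j (by omega) h2
  omega

theorem NCMat.inv_outer (h : NCMat m τ) {i : ℕ} (hi : i < m) (hlt : i < τ i) :
    Inv τ i (τ i + 1) := by
  intro j h1 h2
  rcases Nat.lt_or_ge i j with h3 | h3
  · rcases Nat.lt_or_ge j (τ i) with h4 | h4
    · have := h.nc i hi hlt j h3 h4
      omega
    · have : j = τ i := by omega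
      rw [this, h.inv i hi]
      omega
  · have : j = i := by omega
    rw [this]
    omega

theorem NCMat.inv_compl (h : NCMat m τ) {x y : ℕ} (hy : y ≤ m) (hxy : x ≤ y) (hI : Inv τ x y)
    {z : ℕ} (hz : z ≤ x) (hI' : Inv τ z y) : Inv τ z x := by
  intro i h1 h2
  have h3 := hI' i h1 (by omega)
  refine ⟨h3.1, ?_⟩
  by_contra hcon
  have h4 := hI (τ i) (by omega) h3.2
  rw [h.inv i (by omega)] at h4
  omega

theorem NCMat.inv_compl' (h : NCMat m τ) {x y z : ℕ} (hz : z ≤ m) (hxy : x ≤ y) (hI : Inv τ x y)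
    (hI' : Inv τ x z) : Inv τ y z := by
  intro i h1 h2
  have h3 := hI' i (by omega) h2
  refine ⟨?_, h3.2⟩
  by_contra hcon
  have h4 := hI (τ i) h3.1 (by omega)
  rw [h.inv i (by omega)] at h4
  omega

theorem Inv.trans {x y z : ℕ} (hxy : x ≤ y) (hyz : y ≤ z) (h1 : Inv τ x y) (h2 : Inv τ y z) :
    Inv τ x z := by
  intro i h3 h4
  rcases Nat.lt_or_ge i y with h5 | h5
  · have := h1 i h3 h5
    omega
  · have := h2 i h5 h4
    refine ⟨?_, this.2⟩
    by_contra hcon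
    omega

theorem NCMat.inv_all (h : NCMat m τ) : Inv τ 0 m := fun i _ hi => ⟨Nat.zero_le _, h.lt i hi⟩

/-- An invariant interval has even length. -/
theorem NCMat.even (h : NCMat m τ) {x y : ℕ} (hy : y ≤ m) (hxy : x ≤ y) (hI : Inv τ x y) :
    (y - x) % 2 = 0 := by
  have hz := sum_invol (Ico x y) τ (fun i hi => by
    rw [Finset.mem_Ico] at hi
    refine ⟨Finset.mem_Ico.2 (hI i hi.1 hi.2), h.ne i (by omega), h.inv i (by omega)⟩)
  rw [Finset.sum_const, Nat.card_Ico, nsmul_eq_mul, mul_one] at hz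
  have h7 : ((y - x : ℕ) : ZMod 2) = 0 := hz
  rw [ZMod.natCast_eq_zero_iff] at h7
  omega

/-- **The event `K` for matchings.** `0 ≤ a₁ ≤ a₂ ≤ a₃ < m`; the last side `m - 1` is `e`. -/
theorem NCMat.kev_iff (h : NCMat m τ) {a₁ a₂ a₃ : ℕ} (h12 : a₁ ≤ a₂) (h23 : a₂ ≤ a₃) (h3 : a₃ < m) :
    ((∃ k, a₁ ≤ k ∧ k ≤ a₂ ∧ Inv τ 0 k) ∧
      ¬ ∃ k j, a₁ ≤ k ∧ k ≤ a₂ ∧ a₃ ≤ j ∧ j < m ∧ k % 2 = 0 ∧ Inv τ k j) ↔
    ((a₁ ≤ τ (m - 1) ∧ τ (m - 1) < a₃) ∧ (∀ i < a₁, ¬ (a₂ ≤ τ i ∧ τ i < a₃)) ∧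
      ∀ i, a₁ ≤ i → i < a₂ → ¬ (a₃ ≤ τ i ∧ τ i < m - 1)) := by
  have hm : m - 1 < m := by omega
  obtain ⟨t, ht⟩ : ∃ t, τ (m - 1) = t := ⟨_, rfl⟩
  have htm : t < m := ht ▸ h.lt _ hm
  have htne : t ≠ m - 1 := ht ▸ h.ne _ hm
  have htt : τ t = m - 1 := by rw [← ht, h.inv _ hm]
  have hIt : Inv τ t m := by
    have := h.inv_outer htm (by omega)
    rw [htt, show m - 1 + 1 = m by omega] at this
    exact this
  have hI0 : Inv τ 0 t := h.inv_compl le_rfl htm.le hIt (Nat.zero_le _) h.inv_all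
  have hte : t % 2 = 0 := by
    have := h.even htm.le (Nat.zero_le _) hI0
    omega
  rw [ht]
  constructor
  · rintro ⟨⟨k, hk1, hk2, hk3⟩, hno⟩
    have hke : k % 2 = 0 := by
      have := h.even (by omega) (Nat.zero_le _) hk3
      omega
    have htk : k ≤ t := by
      by_contra hcon
      have := hk3 t (Nat.zero_le _) (by omega)
      omega
    have ht3 : t < a₃ := by
      by_contra hcon
      exact hno ⟨k, t, hk1, hk2, by omega, by omega, hke,
        h.inv_compl' htm.le (Nat.zero_le _) hk3 hI0⟩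
    refine ⟨⟨by omega, ht3⟩, ?_, ?_⟩
    · intro i hi hc
      have := hk3 i (Nat.zero_le _) (by omega)
      omega
    · intro i hi1 hi2 hc
      have hki : k ≤ i := by
        by_contra hcon
        have := hk3 i (Nat.zero_le _) (by omega)
        omega
      have him : i < m := by omega
      have hlt : i < τ i := by omega
      have hin := h.inv_inner him hlt
      have hou := h.inv_outer him hlt
      rcases Nat.even_or_odd' i with ⟨i', hi' | hi'⟩
      · exact hno ⟨i, τ i + 1, hi1, hi2.le, by omega, by omega, by omega, hou⟩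
      · exact hno ⟨i + 1, τ i, by omega, by omega, by omega, by omega, by omega, hin⟩
  · rintro ⟨⟨h1, h2⟩, hA, hB⟩
    constructor
    · -- the chain from `0` to `t`
      by_contra hno
      push Not at hno
      have key : ∀ n k, k + n = a₁ → k ≤ a₁ → Inv τ 0 k → False := by
        intro n
        induction n using Nat.strong_induction_on with
        | _ n ih =>
          intro k hkn hk hI
          have hka : k < a₁ := by
            by_contra hcon
            exact hno k (by omega) (by omega) hI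
          have hIk : Inv τ k t := h.inv_compl' htm.le (Nat.zero_le _) hI hI0
          have hkt := hIk k le_rfl (by omega)
          have hkm : k < m := by omega
          have hne := h.ne k hkm
          have hlt : k < τ k := by omega
          have hou := h.inv_outer hkm hlt
          have hI' : Inv τ 0 (τ k + 1) := Inv.trans (Nat.zero_le _) (by omega) hI hou
          rcases Nat.lt_or_ge (τ k) a₁ with h5 | h5
          · exact ih (a₁ - (τ k + 1)) (by omega) (τ k + 1) (by omega) (by omega) hI'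
          · rcases Nat.lt_or_ge (τ k) a₂ with h6 | h6
            · exact hno (τ k + 1) (by omega) (by omega) hI'
            · exact hA k hka ⟨h6, by omega⟩
      exact key a₁ 0 (by omega) (Nat.zero_le _) (fun i h1 h2 => by omega)
    · rintro ⟨k, j, hk1, hk2, hj1, hj2, hke, hI⟩
      have htk : t < k := by
        by_contra hcon
        have := hI t (by omega) (by omega)
        omega
      -- some `i ∈ [t + 1, k)` has `τ i ∉ [t + 1, k)`
      have hex : ∃ i, t + 1 ≤ i ∧ i < k ∧ ¬ (t + 1 ≤ τ i ∧ τ i < k) := by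
        by_contra hno
        push Not at hno
        have hI2 : Inv τ (t + 1) k := fun i h1 h2 => hno i h1 h2
        have := h.even (by omega) (by omega) hI2
        omega
      obtain ⟨i, hi1, hi2, hi3⟩ := hex
      have him : i < m := by omega
      have hIn := h.inv_inner htm (by omega)
      rw [htt] at hIn
      have h5 := hIn i hi1 (by omega)
      have h6 : ¬ (k ≤ τ i ∧ τ i < j) := by
        intro hc
        have := hI (τ i) hc.1 hc.2
        rw [h.inv i him] at this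
        omega
      exact hB i (by omega) (by omega) ⟨by omega, by omega⟩

/-! ### The matching of the contour by the strands -/

/-- `τ` is the matching of the sides of the contour `w` by the strands of `ω` in `F`. -/
def Mated (F : Finset (ℤ × ℤ)) (m : ℕ) (w : ℕ → ℤ × ℤ) (ω : Cfg) (τ : ℕ → ℕ) : Prop :=
  ∀ i < m, τ i < m ∧ τ i ≠ i ∧ τ (τ i) = i ∧
    ∀ e, Joins e (w i) (w (i + 1)) →
      (∀ e', Joins e' (w (τ i)) (w (τ i + 1)) → e' ∈ MM ω F e) ∧
      ∀ k < m, ∀ e', Joins e' (w k) (w (k + 1)) → e' ∈ MM ω F e → k = i ∨ k = τ i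

variable {F : Finset (ℤ × ℤ)} {w : ℕ → ℤ × ℤ} {ω : Cfg}

theorem exists_mated (h : Ctr (F : Set (ℤ × ℤ)) m w) (ω : Cfg) : ∃ τ, Mated F m w ω τ :=
  exists_match h ω

theorem Mated.unique (h : Ctr (F : Set (ℤ × ℤ)) m w) {τ' : ℕ → ℕ} (h1 : Mated F m w ω τ)
    (h2 : Mated F m w ω τ') : ∀ i < m, τ i = τ' i := by
  intro i hi
  obtain ⟨a1, a2, a3, a4⟩ := h1 i hi
  obtain ⟨b1, b2, b3, b4⟩ := h2 i hi
  obtain ⟨e, he, hj⟩ := h.step i hi
  obtain ⟨e', he', hj'⟩ := h.step _ a1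
  have h3 := (a4 e hj).1 e' hj'
  rcases (b4 e hj).2 _ a1 e' hj' h3 with h4 | h4
  · exact absurd h4 a2
  · exact h4

/-- Joined vertices of the contour: the interval between them is invariant. -/
theorem Mated.inv_of_conn (h : Ctr (F : Set (ℤ × ℤ)) m w) (hτ : Mated F m w ω τ) {x y : ℕ}
    (hxy : x ≤ y) (hym : y ≤ m) (hc : Conn ω F (w x) (w y)) : Inv τ x y := by
  classical
  intro i hix1 hix2
  have hix : i ∈ Ico x y := Finset.mem_Ico.2 ⟨hix1, hix2⟩
  have hi : i < m := by omega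
  rw [← Finset.mem_Ico]
  obtain ⟨k1, k2, k3, k4⟩ := hτ i hi
  obtain ⟨e, he, hj⟩ := h.step i hi
  obtain ⟨Φ, hΦ⟩ := h.pot (MM ω F e) (fun f hf => evenAt_MM hf)
  have hstep : ∀ l < m, Φ (w l) + Φ (w (l + 1)) = if l = i ∨ l = τ i then 1 else 0 := by
    intro l hl
    obtain ⟨e', ⟨⟨f, hf, hs⟩, -⟩, hj'⟩ := h.step l hl
    have hiff := hΦ.joins hf hs hj'
    by_cases hl' : l = i ∨ l = τ i
    · rw [if_pos hl']
      have hm : e' ∈ MM ω F e := by
        rcases hl' with rfl | rfl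
        · rw [Joins.uniq hj' hj]; exact mem_MM_self
        · exact (k4 e hj).1 e' hj'
      have hne := hiff.1 hm
      rcases z2_cases (Φ (w l)) with h3 | h3 <;> rcases z2_cases (Φ (w (l + 1))) with h4 | h4
      · exact absurd (h3.trans h4.symm) hne
      · rw [h3, h4]; decide
      · rw [h3, h4]; decide
      · exact absurd (h3.trans h4.symm) hne
    · rw [if_neg hl']
      have hm : e' ∉ MM ω F e := fun hm => hl' ((k4 e hj).2 l hl e' hj' hm)
      have heq : Φ (w l) = Φ (w (l + 1)) := by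
        by_contra hne
        exact hm (hiff.2 hne)
      rw [heq]; exact z2_add_self _
  have hs := tele2 (fun l => Φ (w l)) hxy
  have hceq : Φ (w x) = Φ (w y) := hΦ.conn hc
  rw [hceq, z2_add_self] at hs
  have hs2 : ∑ l ∈ Ico x y, (if l = i ∨ l = τ i then (1 : ZMod 2) else 0) = 0 := by
    refine Eq.trans (Finset.sum_congr rfl fun l hl => ?_) hs
    rw [Finset.mem_Ico] at hl
    exact (hstep l (by omega)).symm
  by_contra hout
  have hs3 : ∑ l ∈ Ico x y, (if l = i ∨ l = τ i then (1 : ZMod 2) else 0) = 1 := by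
    have : ∀ l ∈ Ico x y, (if l = i ∨ l = τ i then (1 : ZMod 2) else 0) =
        if l = i then 1 else 0 := by
      intro l hl
      have : l ≠ τ i := fun hh => hout (hh ▸ hl)
      simp [this]
    rw [Finset.sum_congr rfl this, Finset.sum_ite_eq', if_pos hix]
  rw [hs3] at hs2
  exact absurd hs2 (by decide)

/-- The ends of a strand: left ends and right ends are joined. -/
theorem Mated.ends (h : Ctr (F : Set (ℤ × ℤ)) m w) (hτ : Mated F m w ω τ) {i : ℕ} (hi : i < m)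
    (hlt : i < τ i) : Conn ω F (w i) (w (τ i + 1)) ∧ Conn ω F (w (i + 1)) (w (τ i)) := by
  obtain ⟨k1, k2, k3, k4⟩ := hτ i hi
  obtain ⟨e, he, hj⟩ := h.step i hi
  obtain ⟨e', he', hj'⟩ := h.step _ k1
  have hmm := (k4 e hj).1 e' hj'
  have p1 := par_ne_succ h hi
  have p2 := par_ne_succ h k1
  have c1 := par_cases (w i)
  have c2 := par_cases (w (i + 1))
  have c3 := par_cases (w (τ i))
  have c4 := par_cases (w (τ i + 1))
  have hp : par (w (τ i)) ≠ par (w i) := by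
    intro hp
    have hc := mm_ends hj hj' hmm hp
    have := hτ.inv_of_conn h hlt.le (by omega) hc i le_rfl hlt
    omega
  exact ⟨mm_ends hj hj'.symm hmm (by omega), mm_ends hj.symm hj' hmm (by omega)⟩

theorem Mated.ncMat (h : Ctr (F : Set (ℤ × ℤ)) m w) (hτ : Mated F m w ω τ) : NCMat m τ := by
  refine ⟨fun i hi => (hτ i hi).1, fun i hi => (hτ i hi).2.1, fun i hi => (hτ i hi).2.2.1, ?_⟩
  intro i hi hlt j h1 h2
  have h3 := (hτ i hi).1
  have h4 := hτ.inv_of_conn h (by omega) (by omega) (hτ.ends h hi hlt).2 j (by omega) h2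
  omega

/-- Two vertices of the contour are joined iff the interval between them is invariant. -/
theorem Mated.conn_iff (h : Ctr (F : Set (ℤ × ℤ)) m w) (hτ : Mated F m w ω τ) {x y : ℕ}
    (hxy : x ≤ y) (hym : y ≤ m) : Conn ω F (w x) (w y) ↔ Inv τ x y := by
  refine ⟨hτ.inv_of_conn h hxy hym, ?_⟩
  have hN := hτ.ncMat h
  obtain ⟨n, hn⟩ : ∃ n, y - x = n := ⟨_, rfl⟩
  induction n using Nat.strong_induction_on generalizing x with
  | _ n ih =>
    intro hI
    rcases Nat.eq_or_lt_of_le hxy with h1 | h1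
    · rw [h1]; exact Relation.ReflTransGen.refl
    · have hx : x < m := by omega
      have h2 := hI x le_rfl h1
      have h3 := hN.ne x hx
      have hlt : x < τ x := by omega
      have hc := (hτ.ends h hx hlt).1
      have hI' : Inv τ (τ x + 1) y := hN.inv_compl' hym (by omega) (hN.inv_outer hx hlt) hI
      exact conn_trans hc (ih (y - (τ x + 1)) (by omega) (by omega) rfl hI')

/-! ### Contours with integer positions -/

/-- Periodic contour with integer positions. -/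
structure CtrZ (F : Set (ℤ × ℤ)) (m : ℕ) (b : ℤ → ℤ × ℤ) : Prop where
  pos : 0 < m
  per : ∀ k, b (k + m) = b k
  ctr : ∀ r : ℤ, Ctr F m (fun k : ℕ => b (r + k))

/-- The periodic extension of a contour. -/
def perW (m : ℕ) (w : ℕ → ℤ × ℤ) (k : ℤ) : ℤ × ℤ := w (k % m).toNat

theorem perW_per {m : ℕ} (w : ℕ → ℤ × ℤ) (k : ℤ) : perW m w (k + m) = perW m w k := by
  unfold perW
  rw [Int.add_emod_right]

theorem perW_succ {F : Set (ℤ × ℤ)} {m : ℕ} {w : ℕ → ℤ × ℤ} (h : Ctr F m w) (hm : 0 < m) (k : ℤ) :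
    (k % m).toNat < m ∧ perW m w (k + 1) = w ((k % m).toNat + 1) := by
  have h0 : (0 : ℤ) < m := by exact_mod_cast hm
  have h1 := Int.emod_nonneg k h0.ne'
  have h2 := Int.emod_lt_of_pos k h0
  refine ⟨by omega, ?_⟩
  unfold perW
  rcases Int.lt_or_le (k % m + 1) m with h3 | h3
  · have e1 : (k + 1) % m = k % m + 1 := by
      rw [Int.add_emod, Int.emod_eq_of_lt (a := k % m + 1 % m)] <;>
      rcases Nat.lt_or_ge 1 m with h4 | h4
      · rw [Int.emod_eq_of_lt (a := 1) (by omega) (by omega)]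
      · omega
      · rw [Int.emod_eq_of_lt (a := 1) (by omega) (by omega)]; omega
      · omega
      · rw [Int.emod_eq_of_lt (a := 1) (by omega) (by omega)]; omega
      · omega
    rw [e1]
    congr 1
    omega
  · have e1 : (k + 1) % m = 0 := by
      have e2 : k + 1 = m * (k / m) + m := by
        have := Int.mul_ediv_add_emod k m
        omega
      rw [e2, Int.add_emod_right, Int.mul_emod_right]
    rw [e1, show (k % m).toNat + 1 = m by omega, h.close]
    rfl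

theorem ctrZ_perW {F : Set (ℤ × ℤ)} {m : ℕ} {w : ℕ → ℤ × ℤ} (h : Ctr F m w) (hm : 0 < m) :
    CtrZ F m (perW m w) := by
  have h0 : (0 : ℤ) < m := by exact_mod_cast hm
  refine ⟨hm, perW_per w, fun r => ?_⟩
  have hs : ∀ k : ℕ, perW m w (r + ((k + 1 : ℕ) : ℤ)) = w (((r + k) % m).toNat + 1) := by
    intro k
    rw [← (perW_succ h hm (r + k)).2]
    congr 1
    push_cast
    ring
  refine ⟨?_, ?_, ?_, ?_, h.pot⟩
  · show perW m w (r + m) = perW m w (r + ((0 : ℕ) : ℤ))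
    rw [perW_per, Int.natCast_zero, add_zero]
  · intro k hk
    obtain ⟨e, he, hj⟩ := h.step _ (perW_succ h hm (r + k)).1
    refine ⟨e, he, ?_⟩
    show Joins e (perW m w (r + k)) (perW m w (r + ((k + 1 : ℕ) : ℤ)))
    rw [hs k]
    exact hj
  · intro e he
    obtain ⟨i, hi, hj⟩ := h.all e he
    have h1 := Int.emod_nonneg ((i : ℤ) - r) h0.ne'
    have h2 := Int.emod_lt_of_pos ((i : ℤ) - r) h0
    refine ⟨(((i : ℤ) - r) % m).toNat, by omega, ?_⟩
    have e1 : (r + ((((i : ℤ) - r) % m).toNat : ℤ)) % m = i := by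
      rw [Int.toNat_of_nonneg h1, Int.add_emod, Int.emod_emod, ← Int.add_emod]
      rw [show r + ((i : ℤ) - r) = i by ring]
      exact Int.emod_eq_of_lt (by omega) (by omega)
    show Joins e (perW m w (r + _)) (perW m w (r + ((_ + 1 : ℕ) : ℤ)))
    rw [hs]
    unfold perW
    rw [e1]
    simpa using hj
  · intro k hk l hl e h1 h2
    have g1 : Joins e (perW m w (r + k)) (perW m w (r + ((k + 1 : ℕ) : ℤ))) := h1
    have g2 : Joins e (perW m w (r + l)) (perW m w (r + ((l + 1 : ℕ) : ℤ))) := h2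
    rw [hs] at g1 g2
    have g3 := h.inj _ (perW_succ h hm (r + k)).1 _ (perW_succ h hm (r + l)).1 e g1 g2
    have a1 := Int.emod_nonneg (r + k) h0.ne'
    have a2 := Int.emod_nonneg (r + l) h0.ne'
    have g4 : (r + k) % m = (r + l) % m := by omega
    have g5 : (m : ℤ) ∣ (r + k) - (r + l) :=
      Int.ModEq.dvd (show r + (l : ℤ) ≡ r + k [ZMOD m] from g4.symm)
    obtain ⟨c, hc⟩ := g5
    have hc0 : c = 0 := by
      by_contra hcne
      rcases lt_or_gt_of_ne hcne with h5 | h5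
      · nlinarith
      · nlinarith
    rw [hc0] at hc
    omega

/-- The event `K` of a matching. -/
def KEv (m a₁ a₂ a₃ : ℕ) (τ : ℕ → ℕ) : Prop :=
  (a₁ ≤ τ (m - 1) ∧ τ (m - 1) < a₃) ∧ (∀ i < a₁, ¬ (a₂ ≤ τ i ∧ τ i < a₃)) ∧
    ∀ i, a₁ ≤ i → i < a₂ → ¬ (a₃ ≤ τ i ∧ τ i < m - 1)

/-- The event `K` of the side `(X - 1, X)` of the contour. -/
def kevZ (F : Finset (ℤ × ℤ)) (m : ℕ) (b : ℤ → ℤ × ℤ) (a₁ a₂ a₃ X : ℤ) : Set Cfg :=
  {ω | ∃ τ, Mated F m (fun k : ℕ => b (X - m + k)) ω τ ∧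
    KEv m (a₁ - (X - m)).toNat (a₂ - (X - m)).toNat (a₃ - (X - m)).toNat τ}

theorem CtrZ.par_step {F : Set (ℤ × ℤ)} {b : ℤ → ℤ × ℤ} (h : CtrZ F m b) (k : ℤ) :
    par (b k) ≠ par (b (k + 1)) := by
  obtain ⟨e, -, hj⟩ := (h.ctr k).step 0 h.pos
  have := hj.par_ne
  simpa using this

theorem CtrZ.par_add {F : Set (ℤ × ℤ)} {b : ℤ → ℤ × ℤ} (h : CtrZ F m b) (k : ℤ) (n : ℕ) :
    (par (b (k + n)) + par (b k) + n) % 2 = 0 := by
  induction n with
  | zero => simp; omega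
  | succ n ih =>
    have h1 := h.par_step (k + n)
    have h2 := par_cases (b (k + n))
    have h3 := par_cases (b (k + n + 1))
    rw [show k + ((n + 1 : ℕ) : ℤ) = k + n + 1 by push_cast; ring]
    push_cast
    omega

theorem CtrZ.par_iff {F : Set (ℤ × ℤ)} {b : ℤ → ℤ × ℤ} (h : CtrZ F m b) {x y : ℤ} (hxy : x ≤ y) :
    par (b x) = par (b y) ↔ (y - x) % 2 = 0 := by
  obtain ⟨n, hn⟩ := Int.eq_ofNat_of_zero_le (show 0 ≤ y - x by omega)
  have h1 := h.par_add x n
  rw [show x + (n : ℤ) = y by omega] at h1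
  have h2 := par_cases (b x)
  have h3 := par_cases (b y)
  omega

/-- A contour has an even number of sides. -/
theorem CtrZ.even {F : Set (ℤ × ℤ)} {b : ℤ → ℤ × ℤ} (h : CtrZ F m b) : m % 2 = 0 := by
  have h1 := (h.par_iff (x := 0) (y := m) (by positivity)).1 (by rw [← h.per 0, zero_add])
  omega

/-- **`K` in one configuration.** -/
theorem kevZ_iff {F : Finset (ℤ × ℤ)} {b : ℤ → ℤ × ℤ} (h : CtrZ (F : Set (ℤ × ℤ)) m b)
    {a₁ a₂ a₃ X : ℤ} (h12 : a₁ ≤ a₂) (h23 : a₂ ≤ a₃) (h3 : a₃ < X) (hX : X ≤ a₁ + m) (ω : Cfg) :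
    ω ∈ kevZ F m b a₁ a₂ a₃ X ↔
      ω ∈ CrE F b (par (b X)) a₁ a₂ a₃ X \ CrE F b (par (b X)) a₁ a₂ a₃ (X - 1) := by
  have hc := h.ctr (X - m)
  have hm := h.pos
  have hme := h.even
  obtain ⟨τ, hτ⟩ := exists_mated hc ω
  have hN := hτ.ncMat hc
  have hci : ∀ x y : ℕ, x ≤ y → y ≤ m →
      (Conn ω F (b (X - m + x)) (b (X - m + y)) ↔ Inv τ x y) := fun x y h1 h2 =>
    hτ.conn_iff hc h1 h2
  obtain ⟨n₁, hn₁⟩ := Int.eq_ofNat_of_zero_le (show 0 ≤ a₁ - (X - m) by omega)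
  obtain ⟨n₂, hn₂⟩ := Int.eq_ofNat_of_zero_le (show 0 ≤ a₂ - (X - m) by omega)
  obtain ⟨n₃, hn₃⟩ := Int.eq_ofNat_of_zero_le (show 0 ≤ a₃ - (X - m) by omega)
  have hk := hN.kev_iff (a₁ := n₁) (a₂ := n₂) (a₃ := n₃) (by omega) (by omega) (by omega)
  have e0 : ω ∈ kevZ F m b a₁ a₂ a₃ X ↔ KEv m n₁ n₂ n₃ τ := by
    unfold kevZ
    rw [hn₁, hn₂, hn₃]
    simp only [Int.toNat_natCast]
    constructor
    · rintro ⟨τ', hτ', hK⟩
      have hu := Mated.unique hc hτ' hτ
      obtain ⟨⟨k1, k2⟩, k3, k4⟩ := hK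
      rw [hu _ (by omega)] at k1 k2
      refine ⟨⟨k1, k2⟩, fun i hi => ?_, fun i h1 h2 => ?_⟩
      · have := k3 i hi
        rw [hu i (by omega)] at this
        exact this
      · have := k4 i h1 h2
        rw [hu i (by omega)] at this
        exact this
    · intro hK
      exact ⟨τ, hτ, hK⟩
  rw [e0]
  unfold KEv
  rw [← hk, Set.mem_sdiff]
  have hb0 : b (X - m) = b X := by
    rw [← h.per (X - m)]
    congr 1
    ring
  -- the last vertex
  have eL : (∃ k, n₁ ≤ k ∧ k ≤ n₂ ∧ Inv τ 0 k) ↔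
      ∃ p : ℤ, a₁ ≤ p ∧ p ≤ a₂ ∧ par (b p) = par (b X) ∧ Conn ω F (b p) (b X) := by
    constructor
    · rintro ⟨k, h1, h2, h3'⟩
      have h4 := (hci 0 k (Nat.zero_le _) (by omega)).2 h3'
      rw [Int.natCast_zero, add_zero, hb0] at h4
      exact ⟨X - m + k, by omega, by omega, h4.par_eq.symm, conn_symm h4⟩
    · rintro ⟨p, h1, h2, -, h4⟩
      obtain ⟨k, hk'⟩ := Int.eq_ofNat_of_zero_le (show 0 ≤ p - (X - m) by omega)
      refine ⟨k, by omega, by omega, ?_⟩
      rw [← hci 0 k (Nat.zero_le _) (by omega), Int.natCast_zero, add_zero, hb0]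
      rw [show X - (m : ℤ) + k = p by omega]
      exact conn_symm h4
  have eR : (∃ k j, n₁ ≤ k ∧ k ≤ n₂ ∧ n₃ ≤ j ∧ j < m ∧ k % 2 = 0 ∧ Inv τ k j) ↔
      ω ∈ CrE F b (par (b X)) a₁ a₂ a₃ (X - 1) := by
    constructor
    · rintro ⟨k, j, h1, h2, h3', h4, h5, h6⟩
      have h7 := (hci k j (by omega) (by omega)).2 h6
      refine ⟨X - m + k, X - m + j, by omega, by omega, by omega, by omega, ?_, h7⟩
      rw [← hb0]
      symm
      rw [h.par_iff (by omega)]
      omega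
    · rintro ⟨p, q, h1, h2, h3', h4, h5, h6⟩
      obtain ⟨k, hk'⟩ := Int.eq_ofNat_of_zero_le (show 0 ≤ p - (X - m) by omega)
      obtain ⟨j, hj'⟩ := Int.eq_ofNat_of_zero_le (show 0 ≤ q - (X - m) by omega)
      refine ⟨k, j, by omega, by omega, by omega, by omega, ?_, ?_⟩
      · rw [← hb0] at h5
        have h8 := (h.par_iff (x := X - m) (y := p) (by omega)).1 h5.symm
        omega
      · rw [← hci k j (by omega) (by omega), show X - (m : ℤ) + k = p by omega,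
          show X - (m : ℤ) + j = q by omega]
        exact h6
  rw [eL, eR]
  constructor
  · rintro ⟨⟨p, h1, h2, h3', h4⟩, h5⟩
    exact ⟨⟨p, X, h1, h2, h3.le, le_rfl, h3', h4⟩, h5⟩
  · rintro ⟨⟨p, q, h1, h2, h3', h4, h5, h6⟩, h7⟩
    refine ⟨?_, h7⟩
    rcases Int.lt_or_le q X with h8 | h8
    · exact absurd ⟨p, q, h1, h2, h3', by omega, h5, h6⟩ h7
    · rw [show q = X by omega] at h6
      exact ⟨p, h1, h2, h5, h6⟩

/-! ### Probabilities -/

theorem pr_sdiff_sub (S : Finset (ℤ × ℤ)) {A B : Set Cfg} (h : B ⊆ A) :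
    pr S (A \ B) = pr S A - pr S B := by
  classical
  have h1 : pr S A = pr S (A \ B) + pr S B := by
    unfold pr
    rw [← add_div]
    congr 1
    rw [← Nat.cast_add]
    congr 1
    rw [← Finset.card_union_of_disjoint]
    · congr 1
      ext T
      simp only [Finset.mem_filter, Finset.mem_union, Set.mem_sdiff]
      constructor
      · rintro ⟨h1, h2⟩
        by_cases h3 : cfg T ∈ B
        · exact Or.inr ⟨h1, h3⟩
        · exact Or.inl ⟨h1, h2, h3⟩
      · rintro (⟨h1, h2, h3⟩ | ⟨h1, h2⟩)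
        · exact ⟨h1, h2⟩
        · exact ⟨h1, h h2⟩
    · rw [Finset.disjoint_left]
      intro T h1 h2
      simp only [Finset.mem_filter, Set.mem_sdiff] at h1 h2
      exact h1.2.2 h2.2
  linarith

theorem CrE_mono {F : Finset (ℤ × ℤ)} {b : ℤ → ℤ × ℤ} {c i j k l i' j' k' l' : ℤ} (h1 : i' ≤ i)
    (h2 : j ≤ j') (h3 : k' ≤ k) (h4 : l ≤ l') : CrE F b c i j k l ⊆ CrE F b c i' j' k' l' := by
  rintro ω ⟨p, q, a1, a2, a3, a4, a5, a6⟩
  exact ⟨p, q, h1.trans a1, a2.trans h2, h3.trans a3, a4.trans h4, a5, a6⟩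

theorem CrE_swap {F : Finset (ℤ × ℤ)} {b : ℤ → ℤ × ℤ} {c i j k l : ℤ} :
    CrE F b c i j k l = CrE F b c k l i j := by
  ext ω
  constructor <;>
  · rintro ⟨p, q, a1, a2, a3, a4, a5, a6⟩
    exact ⟨q, p, a3, a4, a1, a2, a6.par_eq.symm.trans a5, conn_symm a6⟩

theorem CrE_shift {F : Finset (ℤ × ℤ)} {m : ℕ} {b : ℤ → ℤ × ℤ} (hb : ∀ k, b (k + m) = b k)
    {c i j k l : ℤ} : CrE F b c i j (k + m) (l + m) = CrE F b c i j k l := by
  ext ω
  constructor
  · rintro ⟨p, q, a1, a2, a3, a4, a5, a6⟩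
    refine ⟨p, q - m, a1, a2, by omega, by omega, a5, ?_⟩
    rw [← hb (q - m), sub_add_cancel]
    exact a6
  · rintro ⟨p, q, a1, a2, a3, a4, a5, a6⟩
    refine ⟨p, q + m, a1, a2, by omega, by omega, a5, ?_⟩
    rw [hb q]
    exact a6

/-- The other class does not see the last vertex. -/
theorem CrE_other {F : Finset (ℤ × ℤ)} {b : ℤ → ℤ × ℤ} {c i j k l : ℤ} (hc : par (b l) ≠ c) :
    CrE F b c i j k l = CrE F b c i j k (l - 1) := by
  refine Set.Subset.antisymm ?_ (CrE_mono le_rfl le_rfl le_rfl (by omega))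
  rintro ω ⟨p, q, a1, a2, a3, a4, a5, a6⟩
  refine ⟨p, q, a1, a2, a3, ?_, a5, a6⟩
  rcases Int.lt_or_le q l with h | h
  · omega
  · exfalso
    apply hc
    rw [show l = q by omega, ← a6.par_eq, a5]

/-- The class of the first mark crosses with probability one when the arcs meet. -/
theorem CrE_full {F : Finset (ℤ × ℤ)} {m : ℕ} {b : ℤ → ℤ × ℤ} (hb : ∀ k, b (k + m) = b k)
    {a₁ a₂ a₃ : ℤ} (h12 : a₁ ≤ a₂) (h3 : a₃ ≤ a₁ + m) (ω : Cfg) :
    ω ∈ CrE F b (par (b a₁)) a₁ a₂ a₃ (a₁ + m) :=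
  ⟨a₁, a₁ + m, le_rfl, h12, h3, le_rfl, rfl, by rw [hb]; exact Relation.ReflTransGen.refl⟩

/-- **A2: `K` is the discrete derivative of the crossing probability.** -/
theorem K_eq {F : Finset (ℤ × ℤ)} {b : ℤ → ℤ × ℤ} (h : CtrZ (F : Set (ℤ × ℤ)) m b)
    {a₁ a₂ a₃ X : ℤ} (h12 : a₁ ≤ a₂) (h23 : a₂ ≤ a₃) (h3 : a₃ < X) (hX : X ≤ a₁ + m) :
    pr F (kevZ F m b a₁ a₂ a₃ X) =
      pr F (CrE F b (par (b X)) a₁ a₂ a₃ X) - pr F (CrE F b (par (b X)) a₁ a₂ a₃ (X - 1)) := by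
  have e1 : kevZ F m b a₁ a₂ a₃ X =
      CrE F b (par (b X)) a₁ a₂ a₃ X \ CrE F b (par (b X)) a₁ a₂ a₃ (X - 1) := by
    ext ω
    exact kevZ_iff h h12 h23 h3 hX ω
  rw [e1, pr_sdiff_sub F (CrE_mono le_rfl le_rfl le_rfl (by omega))]

/-! ### The refinements of a polygon -/

variable {P : Finset (ℤ × ℤ)} {L n : ℕ} {g : ℤ → ℤ × ℤ}

theorem Cr_nonneg (P : Finset (ℤ × ℤ)) (g : ℤ → ℤ × ℤ) (n : ℕ) (c i j k l : ℤ) :
    0 ≤ Cr P g n c i j k l := pr_nonneg _ _

theorem Cr_le_one (P : Finset (ℤ × ℤ)) (g : ℤ → ℤ × ℤ) (n : ℕ) (c i j k l : ℤ) :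
    Cr P g n c i j k l ≤ 1 := pr_le_one _ _

theorem Cr_mono (P : Finset (ℤ × ℤ)) (g : ℤ → ℤ × ℤ) (n : ℕ) (c : ℤ) {i j k l i' j' k' l' : ℤ}
    (h1 : i' ≤ i) (h2 : j ≤ j') (h3 : k' ≤ k) (h4 : l ≤ l') :
    Cr P g n c i j k l ≤ Cr P g n c i' j' k' l' :=
  pr_mono _ fun _ h => CrE_mono h1 h2 h3 h4 h

theorem Cr_swap {m : ℕ} (hb : ∀ k, gr n g (k + m) = gr n g k) (c i j k l : ℤ) :
    Cr P g n c i j k l = Cr P g n c k l (i + m) (j + m) := by
  unfold Cr
  rw [CrE_shift hb, CrE_swap]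

theorem Ct_swap {m : ℕ} (hb : ∀ k, gr n g (k + m) = gr n g k) (i j k l : ℤ) :
    Ct P g n i j k l = Ct P g n k l (i + m) (j + m) := by
  unfold Ct
  rw [Cr_swap hb 0 i j k l, Cr_swap hb 1 i j k l]

theorem Ct_nonneg (P : Finset (ℤ × ℤ)) (g : ℤ → ℤ × ℤ) (n : ℕ) (i j k l : ℤ) :
    0 ≤ Ct P g n i j k l := add_nonneg (Cr_nonneg ..) (Cr_nonneg ..)

theorem Ct_le (P : Finset (ℤ × ℤ)) (g : ℤ → ℤ × ℤ) (n : ℕ) (i j k l : ℤ) :
    Ct P g n i j k l ≤ 2 := by
  have h1 := Cr_le_one P g n 0 i j k l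
  have h2 := Cr_le_one P g n 1 i j k l
  unfold Ct
  linarith

theorem Ct_mono (P : Finset (ℤ × ℤ)) (g : ℤ → ℤ × ℤ) (n : ℕ) {i j k l i' j' k' l' : ℤ}
    (h1 : i' ≤ i) (h2 : j ≤ j') (h3 : k' ≤ k) (h4 : l ≤ l') :
    Ct P g n i j k l ≤ Ct P g n i' j' k' l' :=
  add_le_add (Cr_mono _ _ _ _ h1 h2 h3 h4) (Cr_mono _ _ _ _ h1 h2 h3 h4)

/-- `Kd` is the probability of the event `K` of the side `(l - 1, l)`. -/
theorem Kd_eq {m : ℕ} (h : CtrZ (rf n P : Set (ℤ × ℤ)) m (gr n g)) {i j k l : ℤ} (h12 : i ≤ j)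
    (h23 : j ≤ k) (h3 : k < l) (hX : l ≤ i + m) :
    Kd P g n (par (gr n g l)) i j k l = pr (rf n P) (kevZ (rf n P) m (gr n g) i j k l) := by
  rw [K_eq h h12 h23 h3 hX]
  rfl

/-- The other colour does not contribute. -/
theorem Kd_other {c i j k l : ℤ} (hc : par (gr n g l) ≠ c) : Kd P g n c i j k l = 0 := by
  unfold Kd Cr
  rw [CrE_other hc, sub_self]

/-- The increment of `Ct` in the last mark is the probability of the event `K` of one side. -/
theorem Ct_sub {m : ℕ} (h : CtrZ (rf n P : Set (ℤ × ℤ)) m (gr n g)) {i j k l : ℤ} (h12 : i ≤ j)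
    (h23 : j ≤ k) (h3 : k < l) (hX : l ≤ i + m) :
    Ct P g n i j k l - Ct P g n i j k (l - 1) =
      pr (rf n P) (kevZ (rf n P) m (gr n g) i j k l) := by
  rw [← Kd_eq h h12 h23 h3 hX]
  have e : Ct P g n i j k l - Ct P g n i j k (l - 1) = Kd P g n 0 i j k l + Kd P g n 1 i j k l := by
    unfold Ct Kd
    ring
  rw [e]
  rcases par_cases (gr n g l) with h0 | h0
  · rw [h0, Kd_other (c := 1) (by omega), add_zero]
  · rw [h0, Kd_other (c := 0) (by omega), zero_add]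

/-- `Kt` is the sum of the probabilities of the events `K` of the two sides at `l`. -/
theorem Kt_eq {m : ℕ} (h : CtrZ (rf n P : Set (ℤ × ℤ)) m (gr n g)) {i j k l : ℤ} (h12 : i ≤ j)
    (h23 : j ≤ k) (h3 : k < l) (hX : l < i + m) :
    Kt P g n i j k l = pr (rf n P) (kevZ (rf n P) m (gr n g) i j k l) +
      pr (rf n P) (kevZ (rf n P) m (gr n g) i j k (l + 1)) := by
  rw [← Ct_sub h h12 h23 h3 (by omega), ← Ct_sub h h12 h23 (by omega) (by omega)]
  rw [show l + 1 - 1 = l by ring]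
  unfold Kt
  ring

/-- **Telescoping.** -/
theorem sum_K {m : ℕ} (h : CtrZ (rf n P : Set (ℤ × ℤ)) m (gr n g)) {i j k : ℤ} (h12 : i ≤ j)
    (h23 : j ≤ k) {x y : ℤ} (h3 : k ≤ x) (hxy : x ≤ y) (hX : y ≤ i + m) :
    ∑ X ∈ Finset.Ioc x y, pr (rf n P) (kevZ (rf n P) m (gr n g) i j k X) =
      Ct P g n i j k y - Ct P g n i j k x := by
  induction y, hxy using Int.leInduction with
  | base => simp
  | succ y hy ih =>
    have h5 : Finset.Ioc x (y + 1) = insert (y + 1) (Finset.Ioc x y) := by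
      ext z
      simp only [Finset.mem_Ioc, Finset.mem_insert]
      omega
    rw [h5, Finset.sum_insert (by simp), ih (by omega), ← Ct_sub h h12 h23 (by omega) hX]
    rw [show y + 1 - 1 = y by ring]
    ring

/-- The colour of the first mark: probability one when the arcs meet. -/
theorem Cr_full {m : ℕ} (hb : ∀ k, gr n g (k + m) = gr n g k) {a₁ a₂ a₃ : ℤ} (h12 : a₁ ≤ a₂)
    (h3 : a₃ ≤ a₁ + m) : Cr P g n (par (gr n g a₁)) a₁ a₂ a₃ (a₁ + m) = 1 := by
  have h1 : pr (rf n P) (CrE (rf n P : Set (ℤ × ℤ)) (gr n g) (par (gr n g a₁)) a₁ a₂ a₃ (a₁ + m))ᶜ ≤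
      0 := by
    have h2 : pr (rf n P) (∅ : Set Cfg) = 0 := by
      unfold pr
      simp
    rw [← h2]
    refine pr_mono _ fun ω hω => ?_
    exact absurd (CrE_full hb h12 h3 ω) hω
  rw [pr_compl] at h1
  exact le_antisymm (Cr_le_one ..) (by unfold Cr; linarith)

end Pool.Agent.SixB
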