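import Pool.Agent.Lib.SixB.CAKer
import Pool.Agent.Lib.SixB.CAUltra
import Pool.Agent.Lib.SixB.S6K

/-!
# 6BD block CA: the relations (R) for the limits along an ultrafilter

`rel_abs`: absolute parameters, `x ∈ (t₁, t₃)`, `y ∈ (t₃, t₁ + L)` flat, `C x y` a limit of
`Ct / 2`, `PsiA x y = π/3 (HU t₁ y (gam x) + HU t₃ y (gam x))`.
-/

set_option autoImplicit false

namespace Pool.Agent.SixB

open Filter Topology
open DC (AE)

noncomputable section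

variable {P : Finset (ℤ × ℤ)} {L : ℕ} {g : ℤ → ℤ × ℤ} {z0 : ℂ}
  {uN : ℕ → ℤ → ℤ × ℤ → ℝ} {uP : ℕ → ℝ → ℤ → ℤ → ℤ × ℤ → ℝ}
  {uX : ℕ → ℝ → ℤ → ℤ → ℤ → ℤ → ℤ → ℤ × ℤ → ℝ} {u : Ultrafilter ℕ}

/-- flat parameters in an open interval -/
def FlI (g : ℤ → ℤ × ℤ) (a b : ℝ) : Set ℝ := {t | a < t ∧ t < b ∧ Fl g t}

theorem fl_of_notInt (g : ℤ → ℤ × ℤ) {t : ℝ} (h : ∀ k : ℤ, t ≠ k) : Fl g t := fun k hk => absurd hk (h k)

theorem isOpen_FlI (g : ℤ → ℤ × ℤ) (a b : ℝ) : IsOpen (FlI g a b) := by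
  have h1 : IsOpen {t : ℝ | Fl g t} := by
    rw [Metric.isOpen_iff]
    intro t ht
    -- distance to the integers different from `t`
    by_cases hint : ∃ k : ℤ, t = k
    · obtain ⟨k, rfl⟩ := hint
      refine ⟨1, one_pos, fun s hs => ?_⟩
      intro j hj
      rw [Metric.mem_ball, Real.dist_eq, hj] at hs
      have h2 : |((j - k : ℤ) : ℝ)| < 1 := by push_cast; exact hs
      have h3 : |j - k| < 1 := by
        have : ((|j - k| : ℤ) : ℝ) < 1 := by rw [Int.cast_abs]; exact h2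
        exact_mod_cast this
      have h4 : j = k := by
        rw [Int.abs_lt_one_iff] at h3
        omega
      rw [h4]
      exact ht k rfl
    · push Not at hint
      have hf : 0 < Int.fract t := by
        rcases (Int.fract_nonneg t).lt_or_eq with h | h
        · exact h
        · exact absurd (by have := Int.floor_add_fract t; rw [← h, add_zero] at this; exact this.symm)
            (hint ⌊t⌋)
      have hf1 : 0 < 1 - Int.fract t := by linarith [Int.fract_lt_one t]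
      refine ⟨min (Int.fract t) (1 - Int.fract t), lt_min hf hf1, fun s hs => ?_⟩
      apply fl_of_notInt
      intro k hk
      rw [Metric.mem_ball, Real.dist_eq, hk] at hs
      have h2 : |(k : ℝ) - t| < Int.fract t := lt_of_lt_of_le hs (min_le_left _ _)
      have h3 : |(k : ℝ) - t| < 1 - Int.fract t := lt_of_lt_of_le hs (min_le_right _ _)
      have h4 := Int.floor_add_fract t
      rw [abs_lt] at h2 h3
      have h5 : (k : ℝ) < ⌊t⌋ + 1 := by linarith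
      have h6 : (⌊t⌋ : ℝ) < k := by linarith
      have h7 : k < ⌊t⌋ + 1 := by exact_mod_cast h5
      have h8 : ⌊t⌋ < k := by exact_mod_cast h6
      omega
  have h2 : FlI g a b = Set.Ioo a b ∩ {t : ℝ | Fl g t} := by
    ext t
    simp [FlI, and_assoc]
  rw [h2]
  exact isOpen_Ioo.inter h1

/-- flat points are dense -/
theorem exists_fl (g : ℤ → ℤ × ℤ) {a b : ℝ} (h : a < b) : ∃ t, a < t ∧ t < b ∧ Fl g t := by
  by_cases hk : ∃ k : ℤ, (a + b) / 2 = k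
  · obtain ⟨k, hk⟩ := hk
    set c : ℝ := min b ((a + b) / 2 + 1) with hc
    have h1 : (a + b) / 2 < c := lt_min (by linarith) (by linarith)
    refine ⟨((a + b) / 2 + c) / 2, by linarith, by have := min_le_left b ((a + b) / 2 + 1); linarith, ?_⟩
    apply fl_of_notInt
    intro j hj
    have h2 : c ≤ (a + b) / 2 + 1 := min_le_right _ _
    rw [hk] at h1 h2 hj
    have h3 : (k : ℝ) < j := by linarith
    have h4 : (j : ℝ) < k + 1 := by linarith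
    have h5 : k < j := by exact_mod_cast h3
    have h6 : j < k + 1 := by exact_mod_cast h4
    omega
  · push Not at hk
    exact ⟨(a + b) / 2, by linarith, by linarith, fl_of_notInt g hk⟩

/-- the kernel function of relation (R), absolute parameters -/
def PsiA (u : Ultrafilter ℕ) (g : ℤ → ℤ × ℤ) (z0 : ℂ) (uN : ℕ → ℤ → ℤ × ℤ → ℝ) (t₁ t₃ x y : ℝ) : ℝ :=
  Real.pi / 3 * (HU u z0 uN t₁ y (gam g x) + HU u z0 uN t₃ y (gam g x))

theorem lk_of_seq {k : ℕ → ℤ} {ξ : ℝ} (hu : (u : Filter ℕ) ≤ atTop)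
    (hk : Tendsto (fun n : ℕ => (k n : ℝ) / n) u (𝓝 ξ)) : Tendsto (fun n : ℕ => (n, k n)) u (lk ξ) := by
  unfold lk
  rw [tendsto_inf, tendsto_comap_iff, tendsto_comap_iff]
  exact ⟨hu, hk⟩

/-- the discrete derivative is eventually positive -/
theorem Kt_pos (ex : ExIn P L g uN uP uX) (hu : (u : Filter ℕ) ≤ atTop) {t₁ t₃ x ξ : ℝ}
    (f1 : Fl g t₁) (f3 : Fl g t₃) (hx : x ∈ FlI g t₁ t₃) (hξ : ξ ∈ FlI g t₃ (t₁ + L)) {k : ℕ → ℤ}
    (hk : Tendsto (fun n : ℕ => (k n : ℝ) / n) u (𝓝 ξ)) :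
    ∀ᶠ n in (u : Filter ℕ), 0 < Kt P g n (ix n t₁) (ix n x) (ix n t₃) (k n) := by
  obtain ⟨x', h1, h2, h3⟩ := exists_fl g hx.2.1
  have hm : Marks5 L g t₁ x x' t₃ ξ := ⟨hx.1, h1, h2, hξ.1, hξ.2.1, f1, hx.2.2, h3, f3, hξ.2.2⟩
  have := (lk_of_seq hu hk).eventually (ex.ratio _ _ _ _ _ hm)
  filter_upwards [this] with n hn
  exact hn.1

theorem ratio_lt (hG : GeoIn P L g) (hN2 : N2P P) (ex : ExIn P L g uN uP uX)
    (hN : NatIn P g z0 uN) (ti : TiltIn P L g z0 uN uP uX) (hu : (u : Filter ℕ) ≤ atTop)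
    {t₁ t₃ x x' ξ : ℝ} (f1 : Fl g t₁) (f3 : Fl g t₃) (hx : x ∈ FlI g t₁ t₃) (hx' : x' ∈ FlI g t₁ t₃)
    (hxx : x < x') (hξ : ξ ∈ FlI g t₃ (t₁ + L)) {k : ℕ → ℤ}
    (hk : Tendsto (fun n : ℕ => (k n : ℝ) / n) u (𝓝 ξ)) :
    Tendsto (fun n : ℕ => Kt P g n (ix n t₁) (ix n x') (ix n t₃) (k n) /
      Kt P g n (ix n t₁) (ix n x) (ix n t₃) (k n)) u
      (𝓝 (Real.exp (PsiA u g z0 uN t₁ t₃ x' ξ - PsiA u g z0 uN t₁ t₃ x ξ))) := by
  have hm : Marks5 L g t₁ x x' t₃ ξ :=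
    ⟨hx.1, hxx, hx'.2.1, hξ.1, hξ.2.1, f1, hx.2.2, hx'.2.2, f3, hξ.2.2⟩
  have h1 := log_ratio_tendsto hG hN2 ex hN ti hu hm hk
  have h2 := (Real.continuous_exp.tendsto _).comp h1
  have e : Real.pi / 3 *
        ((HU u z0 uN t₁ ξ (gam g x') + HU u z0 uN t₃ ξ (gam g x')) -
          (HU u z0 uN t₁ ξ (gam g x) + HU u z0 uN t₃ ξ (gam g x))) =
      PsiA u g z0 uN t₁ t₃ x' ξ - PsiA u g z0 uN t₁ t₃ x ξ := by
    unfold PsiA; ring
  rw [e] at h2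
  refine h2.congr' ?_
  filter_upwards [Kt_pos ex hu f1 f3 hx hξ hk, Kt_pos ex hu f1 f3 hx' hξ hk] with n hn hn'
  simp only [Function.comp]
  rw [Real.exp_sub, Real.exp_log hn', Real.exp_log hn]

theorem ratio_all (hG : GeoIn P L g) (hN2 : N2P P) (ex : ExIn P L g uN uP uX)
    (hN : NatIn P g z0 uN) (ti : TiltIn P L g z0 uN uP uX) (hu : (u : Filter ℕ) ≤ atTop)
    {t₁ t₃ x x' ξ : ℝ} (f1 : Fl g t₁) (f3 : Fl g t₃) (hx : x ∈ FlI g t₁ t₃) (hx' : x' ∈ FlI g t₁ t₃)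
    (hξ : ξ ∈ FlI g t₃ (t₁ + L)) {k : ℕ → ℤ}
    (hk : Tendsto (fun n : ℕ => (k n : ℝ) / n) u (𝓝 ξ)) :
    Tendsto (fun n : ℕ => Kt P g n (ix n t₁) (ix n x') (ix n t₃) (k n) /
      Kt P g n (ix n t₁) (ix n x) (ix n t₃) (k n)) u
      (𝓝 (Real.exp (PsiA u g z0 uN t₁ t₃ x' ξ - PsiA u g z0 uN t₁ t₃ x ξ))) := by
  rcases lt_trichotomy x x' with h | h | h
  · exact ratio_lt hG hN2 ex hN ti hu f1 f3 hx hx' h hξ hk
  · subst h
    rw [sub_self, Real.exp_zero]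
    refine tendsto_const_nhds.congr' ?_
    filter_upwards [Kt_pos ex hu f1 f3 hx hξ hk] with n hn
    rw [div_self hn.ne']
  · have h1 := (ratio_lt hG hN2 ex hN ti hu f1 f3 hx' hx h hξ hk).inv₀ (Real.exp_ne_zero _)
    have e : (Real.exp (PsiA u g z0 uN t₁ t₃ x ξ - PsiA u g z0 uN t₁ t₃ x' ξ))⁻¹ =
        Real.exp (PsiA u g z0 uN t₁ t₃ x' ξ - PsiA u g z0 uN t₁ t₃ x ξ) := by
      rw [← Real.exp_neg]
      congr 1
      ring
    rw [e] at h1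
    refine h1.congr fun n => ?_
    rw [inv_div]

theorem Ct_mono4 (P : Finset (ℤ × ℤ)) (g : ℤ → ℤ × ℤ) (n : ℕ) {i j k l l' : ℤ} (h : l ≤ l') :
    Ct P g n i j k l ≤ Ct P g n i j k l' := by
  unfold Ct
  exact add_le_add (Cr_mono P g n 0 le_rfl le_rfl le_rfl h) (Cr_mono P g n 1 le_rfl le_rfl le_rfl h)

/-- **Relation (R), absolute parameters.** -/
theorem rel_abs (hG : GeoIn P L g) (hN2 : N2P P) (ex : ExIn P L g uN uP uX)
    (hN : NatIn P g z0 uN) (ti : TiltIn P L g z0 uN uP uX) (hu : (u : Filter ℕ) ≤ atTop)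
    {t₁ t₃ : ℝ} (f1 : Fl g t₁) (f3 : Fl g t₃) {C : ℝ → ℝ → ℝ}
    (hC : ∀ x ∈ FlI g t₁ t₃, ∀ y ∈ FlI g t₃ (t₁ + L), ∀ k : ℕ → ℤ,
      Tendsto (fun n : ℕ => (k n : ℝ) / n) u (𝓝 y) →
      Tendsto (fun n : ℕ => Ct P g n (ix n t₁) (ix n x) (ix n t₃) (k n) / 2) u (𝓝 (C x y))) :
    Rel (FlI g t₁ t₃) (FlI g t₃ (t₁ + L)) (PsiA u g z0 uN t₁ t₃) C := by
  refine Rel.of_lattice (isOpen_FlI g _ _) u hu
    (c := fun n x k => Ct P g n (ix n t₁) (ix n x) (ix n t₃) (2 * (k / 2)) / 2)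
    (A := fun _ k => k % 2 = 1) ?_ ?_ ?_ ?_
  · intro n x hx k _
    have h1 : 2 * (k / 2) ≤ 2 * ((k + 1) / 2) := by omega
    have := Ct_mono4 P g n (i := ix n t₁) (j := ix n x) (k := ix n t₃) h1
    linarith
  · intro n x hx k _ hk
    have h1 : 2 * ((k + 1) / 2) = 2 * (k / 2) := by omega
    simp only [h1]
  · intro x hx y hy
    refine hC x hx y hy (fun n => 2 * (⌊(n : ℝ) * y⌋ / 2)) ?_
    have h1 : Tendsto (fun n : ℕ => (⌊(n : ℝ) * y⌋ : ℝ) / n) u (𝓝 y) := (ix_div y).mono_left hu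
    have h2 : Tendsto (fun n : ℕ => (((2 * (⌊(n : ℝ) * y⌋ / 2) : ℤ) : ℝ) - ⌊(n : ℝ) * y⌋) / n) u
        (𝓝 0) := by
      have h3 : Tendsto (fun n : ℕ => 1 / (n : ℝ)) u (𝓝 0) :=
        tendsto_one_div_atTop_nhds_zero_nat.mono_left hu
      refine squeeze_zero_norm (fun n => ?_) h3
      rw [Real.norm_eq_abs, abs_div, Nat.abs_cast]
      gcongr
      have h4 : |2 * (⌊(n : ℝ) * y⌋ / 2) - ⌊(n : ℝ) * y⌋| ≤ 1 := by
        rw [abs_le]; constructor <;> omega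
      have h5 : ((|2 * (⌊(n : ℝ) * y⌋ / 2) - ⌊(n : ℝ) * y⌋| : ℤ) : ℝ) ≤ 1 := by exact_mod_cast h4
      rw [Int.cast_abs, Int.cast_sub] at h5
      exact h5
    have h3 := h2.add h1
    rw [zero_add] at h3
    refine h3.congr fun n => ?_
    rw [← add_div]
    congr 1
    ring
  · intro x hx x' hx' ξ hξ k hk hA
    refine (ratio_all hG hN2 ex hN ti hu f1 f3 hx hx' hξ hk).congr' ?_
    filter_upwards [hA] with n hn
    have h1 : 2 * ((k n + 1) / 2) = k n + 1 := by omega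
    have h2 : 2 * (k n / 2) = k n - 1 := by omega
    rw [h1, h2, ← sub_div, ← sub_div]
    unfold Kt
    rw [div_div_div_cancel_right₀ (two_ne_zero)]

end

end Pool.Agent.SixB
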