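import Pool.Agent.Lib.SixB.CAEqui
import Pool.Agent.Lib.SixB.CAUltra
import Pool.Agent.Lib.SixB.CAIn

/-!
# 6BD block CA: crossing probabilities in `rf n P` as a sequence of functions of the marks (helper96)

* `Cr_small`, `Cr_seq`, `Ct_seq`: short arcs, dependence on the marks along filters;
* `Ct_rot`, `Kt_rot`: exchange of the two arcs;
* `DU`: arc duality (one inequality);
* `crossSeq`: the structure `CrossSeq` for `Cxy`;
* `Rel.of_lattice2`: `Rel` from ratios of discrete derivatives of step two.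
-/

set_option autoImplicit false

namespace Pool.Agent.SixB

open Set Filter Topology Pool.Agent.Perc Pool.Agent.Perc6

/-! ### The relation from discrete derivatives of step two -/

/-- **From ratios of discrete derivatives of step two to the relation**, indices `k` with
`k / n - τ ∈ V`. -/
theorem Rel.of_lattice2 {U V : Set ℝ} (hV : IsOpen V) {Ψ C : ℝ → ℝ → ℝ} (u : Ultrafilter ℕ)
    (hu : (u : Filter ℕ) ≤ atTop) (τ : ℝ) {c : ℕ → ℝ → ℤ → ℝ}
    (hmono : ∀ n, ∀ x ∈ U, Monotone (c n x))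
    (hC : ∀ x ∈ U, ∀ y ∈ V,
      Tendsto (fun n : ℕ => c n x ⌊(n : ℝ) * (τ + y)⌋) (u : Filter ℕ) (𝓝 (C x y)))
    (hC1 : ∀ x ∈ U, ∀ y ∈ V,
      Tendsto (fun n : ℕ => c n x (⌊(n : ℝ) * (τ + y)⌋ - 1)) (u : Filter ℕ) (𝓝 (C x y)))
    (hK : ∀ x ∈ U, ∀ x' ∈ U, ∀ ξ ∈ V, ∀ k : ℕ → ℤ,
      Tendsto (fun n : ℕ => (k n : ℝ) / n) (u : Filter ℕ) (𝓝 (τ + ξ)) →
      Tendsto (fun n => (c n x' (k n + 1) - c n x' (k n - 1)) /
        (c n x (k n + 1) - c n x (k n - 1))) (u : Filter ℕ) (𝓝 (Real.exp (Ψ x' ξ - Ψ x ξ)))) :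
    Rel U V Ψ C := by
  have hV' : IsOpen ((fun t : ℝ => t - τ) ⁻¹' V) := hV.preimage (continuous_id.sub continuous_const)
  have h : Rel U ((fun t : ℝ => t - τ) ⁻¹' V) (fun x t => Ψ x (t - τ))
      (fun x t => C x (t - τ) + C x (t - τ)) := by
    refine Rel.of_lattice hV' u hu (c := fun n x k => c n x k + c n x (k - 1))
      (A := fun _ _ => True) ?_ ?_ ?_ ?_
    · intro n x hx k _
      have h1 := hmono n x hx (show k ≤ k + 1 by omega)
      have h2 := hmono n x hx (show k - 1 ≤ k + 1 - 1 by omega)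
      show c n x k + c n x (k - 1) ≤ c n x (k + 1) + c n x (k + 1 - 1)
      linarith
    · intro n x _ k _ hA
      exact absurd trivial hA
    · intro x hx t ht
      have h1 := hC x hx (t - τ) ht
      have h2 := hC1 x hx (t - τ) ht
      rw [add_sub_cancel] at h1 h2
      exact h1.add h2
    · intro x hx x' hx' ξ hξ k hk _
      have h1 := hK x hx x' hx' (ξ - τ) hξ k (by rw [add_sub_cancel]; exact hk)
      refine h1.congr fun n => ?_
      show (c n x' (k n + 1) - c n x' (k n - 1)) / (c n x (k n + 1) - c n x (k n - 1)) =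
        (c n x' (k n + 1) + c n x' (k n + 1 - 1) - (c n x' (k n) + c n x' (k n - 1))) /
          (c n x (k n + 1) + c n x (k n + 1 - 1) - (c n x (k n) + c n x (k n - 1)))
      rw [add_sub_cancel_right]
      congr 1 <;> ring
  intro x hx x' hx' y y' hyy hsub m M hmM
  have h1 := h x hx x' hx' (τ + y) (τ + y') (by linarith) (fun t ht => by
    apply hsub
    constructor <;> linarith [ht.1, ht.2]) m M (fun t ht => hmM (t - τ) (by
      constructor <;> linarith [ht.1, ht.2]))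
  simp only [add_sub_cancel_left] at h1
  constructor <;> linarith [h1.1, h1.2]

/-- The same with logarithms of the discrete derivatives. -/
theorem Rel.of_lattice2_log {U V : Set ℝ} (hV : IsOpen V) {Ψ C : ℝ → ℝ → ℝ} (u : Ultrafilter ℕ)
    (hu : (u : Filter ℕ) ≤ atTop) (τ : ℝ) {c : ℕ → ℝ → ℤ → ℝ}
    (hmono : ∀ n, ∀ x ∈ U, Monotone (c n x))
    (hC : ∀ x ∈ U, ∀ y ∈ V,
      Tendsto (fun n : ℕ => c n x ⌊(n : ℝ) * (τ + y)⌋) (u : Filter ℕ) (𝓝 (C x y)))
    (hC1 : ∀ x ∈ U, ∀ y ∈ V,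
      Tendsto (fun n : ℕ => c n x (⌊(n : ℝ) * (τ + y)⌋ - 1)) (u : Filter ℕ) (𝓝 (C x y)))
    (hpos : ∀ x ∈ U, ∀ ξ ∈ V, ∀ k : ℕ → ℤ,
      Tendsto (fun n : ℕ => (k n : ℝ) / n) (u : Filter ℕ) (𝓝 (τ + ξ)) →
      ∀ᶠ n in (u : Filter ℕ), 0 < c n x (k n + 1) - c n x (k n - 1))
    (hK : ∀ x ∈ U, ∀ x' ∈ U, ∀ ξ ∈ V, ∀ k : ℕ → ℤ,
      Tendsto (fun n : ℕ => (k n : ℝ) / n) (u : Filter ℕ) (𝓝 (τ + ξ)) →
      Tendsto (fun n => Real.log (c n x' (k n + 1) - c n x' (k n - 1)) -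
        Real.log (c n x (k n + 1) - c n x (k n - 1))) (u : Filter ℕ) (𝓝 (Ψ x' ξ - Ψ x ξ))) :
    Rel U V Ψ C := by
  refine Rel.of_lattice2 hV u hu τ hmono hC hC1 ?_
  intro x hx x' hx' ξ hξ k hk
  refine ((Real.continuous_exp.tendsto _).comp (hK x hx x' hx' ξ hξ k hk)).congr' ?_
  filter_upwards [hpos x hx ξ hξ k hk, hpos x' hx' ξ hξ k hk] with n h1 h2
  show Real.exp _ = _
  rw [Real.exp_sub, Real.exp_log h1, Real.exp_log h2]

/-! ### Crossing probabilities -/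

section
variable {P : Finset (ℤ × ℤ)} {L : ℕ} {g : ℤ → ℤ × ℤ}

theorem ctP_mono {n : ℕ} {i j k l i' j' k' l' : ℤ} (hi : i' ≤ i)
    (hj : j ≤ j') (hk : k' ≤ k) (hl : l ≤ l') : Ct P g n i j k l ≤ Ct P g n i' j' k' l' :=
  add_le_add (crP_mono hi hj hk hl) (crP_mono hi hj hk hl)

theorem ctP_nonneg (n : ℕ) (i j k l : ℤ) : 0 ≤ Ct P g n i j k l :=
  add_nonneg (crP_nonneg _ _ _ _ _ _ _ _) (crP_nonneg _ _ _ _ _ _ _ _)

theorem Ct_le_two (n : ℕ) (i j k l : ℤ) : Ct P g n i j k l ≤ 2 := by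
  have h1 := crP_le_one P g n 0 i j k l
  have h2 := crP_le_one P g n 1 i j k l
  unfold Ct
  linarith

theorem Ct_rot (h : Cont P L g) {n : ℕ} (hn : 0 < n) (i j k l : ℤ) :
    Ct P g n i j k l = Ct P g n k l (i + n * L) (j + n * L) := by
  unfold Ct
  rw [Cr_rot h hn 0, Cr_rot h hn 1]

/-- The discrete derivative in the second mark. -/
theorem Kt_rot (h : Cont P L g) {n : ℕ} (hn : 0 < n) (i j k l : ℤ) :
    Kt P g n k l (i + n * L) (j + n * L) = Ct P g n i (j + 1) k l - Ct P g n i (j - 1) k l := by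
  unfold Kt
  rw [Ct_rot h hn i (j + 1), Ct_rot h hn i (j - 1)]
  congr 2 <;> ring

/-- A short arc. -/
theorem Cr_small {η ε : ℝ} (hη : 0 < η) (hε : 0 < ε) : ∃ δ > 0, ∃ N : ℕ, 0 < N ∧
    ∀ (P : Finset (ℤ × ℤ)) (L : ℕ) (g : ℤ → ℤ × ℤ), Cont P L g →
    ∀ n : ℕ, N ≤ n → ∀ c i j k l : ℤ, η * n ≤ (k : ℝ) - j →
      η * n ≤ (i : ℝ) + n * L - l → ((l : ℝ) - k ≤ δ * n ∨ (j : ℝ) - i ≤ δ * n) →
      Cr P g n c i j k l ≤ ε := by
  obtain ⟨C, β, hC, hβ, h⟩ := Cr_short'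
  obtain ⟨δ, hδ, hδη, N, hN0, hsc⟩ := scale_choice hC hβ hη hε
  refine ⟨δ, hδ, N, hN0, ?_⟩
  intro P L g hg n hn c i j k l h1 h2 h3
  obtain ⟨r, R, hr, hrR, hRn, hδr, hRη, hbd⟩ := hsc n hn
  have hn0 : 0 < n := lt_of_lt_of_le hN0 hn
  have hn0' : (0 : ℝ) < n := by exact_mod_cast hn0
  have hηn : 0 < η * n := by positivity
  refine (h P L g hg n c i j k l r R hn0 hr hrR hRn ?_ ?_ ?_).trans hbd
  · have : (2 * R : ℝ) ≤ k - j := by linarith
    exact_mod_cast this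
  · have : (2 * R : ℝ) ≤ i + n * L - l := by linarith
    exact_mod_cast this
  · rcases h3 with h3 | h3
    · left
      have : (l - k : ℝ) ≤ r := by linarith
      exact_mod_cast this
    · right
      have : (j - i : ℝ) ≤ r := by linarith
      exact_mod_cast this

/-- An index sequence converging to a real mark, quantitatively. -/
theorem ev_near {ι : Type*} {F : Filter ι} {nn : ι → ℕ} (hnn : Tendsto nn F atTop) {i : ι → ℤ}
    {t : ℝ} (hi : Tendsto (fun a => (i a : ℝ) / nn a) F (𝓝 t)) {δ : ℝ} (hδ : 0 < δ) :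
    ∀ᶠ a in F, |(i a : ℝ) - nn a * t| ≤ δ * nn a := by
  have h1 := hi.eventually (Metric.ball_mem_nhds t hδ)
  filter_upwards [h1, hnn.eventually_gt_atTop 0] with a ha hn
  have hn' : (0 : ℝ) < nn a := by exact_mod_cast hn
  rw [Real.dist_eq] at ha
  have e : (i a : ℝ) - nn a * t = nn a * ((i a : ℝ) / nn a - t) := by field_simp
  rw [e, abs_mul, abs_of_pos hn', mul_comm δ]
  gcongr

/-- **Dependence on the marks along a filter.** -/
theorem Cr_seq (h : Cont P L g) {t₁ t₂ t₃ t₄ : ℝ} (h12 : t₁ < t₂) (h23 : t₂ < t₃) (h34 : t₃ < t₄)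
    (h41 : t₄ < t₁ + L) (c : ℤ) {ι : Type*} {F : Filter ι} {nn : ι → ℕ} (hnn : Tendsto nn F atTop)
    {i j k l i' j' k' l' : ι → ℤ} (hi : Tendsto (fun a => (i a : ℝ) / nn a) F (𝓝 t₁))
    (hj : Tendsto (fun a => (j a : ℝ) / nn a) F (𝓝 t₂))
    (hk : Tendsto (fun a => (k a : ℝ) / nn a) F (𝓝 t₃))
    (hl : Tendsto (fun a => (l a : ℝ) / nn a) F (𝓝 t₄))
    (hi' : Tendsto (fun a => (i' a : ℝ) / nn a) F (𝓝 t₁))
    (hj' : Tendsto (fun a => (j' a : ℝ) / nn a) F (𝓝 t₂))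
    (hk' : Tendsto (fun a => (k' a : ℝ) / nn a) F (𝓝 t₃))
    (hl' : Tendsto (fun a => (l' a : ℝ) / nn a) F (𝓝 t₄)) :
    Tendsto (fun a => Cr P g (nn a) c (i' a) (j' a) (k' a) (l' a) -
      Cr P g (nn a) c (i a) (j a) (k a) (l a)) F (𝓝 0) := by
  obtain ⟨m, hm, hm1, hm2, hm3, hm4⟩ : ∃ m : ℝ, 0 < m ∧ m ≤ t₂ - t₁ ∧ m ≤ t₃ - t₂ ∧ m ≤ t₄ - t₃ ∧
      m ≤ t₁ + L - t₄ := by
    refine ⟨min (min (t₂ - t₁) (t₃ - t₂)) (min (t₄ - t₃) (t₁ + L - t₄)), ?_, ?_, ?_, ?_, ?_⟩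
    · have a1 : 0 < t₂ - t₁ := by linarith
      have a2 : 0 < t₃ - t₂ := by linarith
      have a3 : 0 < t₄ - t₃ := by linarith
      have a4 : 0 < t₁ + L - t₄ := by linarith
      positivity
    · exact (min_le_left _ _).trans (min_le_left _ _)
    · exact (min_le_left _ _).trans (min_le_right _ _)
    · exact (min_le_right _ _).trans (min_le_left _ _)
    · exact (min_le_right _ _).trans (min_le_right _ _)
  rw [Metric.tendsto_nhds]
  intro ε hε
  obtain ⟨δ, hδ, N, hN0, hcl⟩ := Cr_close (show 0 < m / 2 by positivity) (show 0 < ε / 2 by positivity)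
  have hκ : 0 < min (δ / 2) (m / 4) := by positivity
  filter_upwards [ev_near hnn hi hκ, ev_near hnn hj hκ, ev_near hnn hk hκ, ev_near hnn hl hκ,
    ev_near hnn hi' hκ, ev_near hnn hj' hκ, ev_near hnn hk' hκ, ev_near hnn hl' hκ,
    hnn.eventually_ge_atTop N] with a a1 a2 a3 a4 b1 b2 b3 b4 hn
  have hn0 : 0 < nn a := lt_of_lt_of_le hN0 hn
  have hn0' : (0 : ℝ) < nn a := by exact_mod_cast hn0
  have e1 : min (δ / 2) (m / 4) * nn a ≤ δ / 2 * nn a := by gcongr; exact min_le_left _ _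
  have e2 : min (δ / 2) (m / 4) * nn a ≤ m / 4 * nn a := by gcongr; exact min_le_right _ _
  have m1 : m * nn a ≤ (t₂ - t₁) * nn a := by gcongr
  have m2 : m * nn a ≤ (t₃ - t₂) * nn a := by gcongr
  have m3 : m * nn a ≤ (t₄ - t₃) * nn a := by gcongr
  have m4 : m * nn a ≤ (t₁ + L - t₄) * nn a := by gcongr
  have hmn : 0 < m * nn a := by positivity
  rw [abs_le] at a1 a2 a3 a4 b1 b2 b3 b4
  have q1 : i a ≤ j a := by
    have : (i a : ℝ) ≤ j a := by linarith
    exact_mod_cast this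
  have q2 : k a ≤ l a := by
    have : (k a : ℝ) ≤ l a := by linarith
    exact_mod_cast this
  have hmain := hcl P L g h (nn a) hn c (i a) (j a) (k a) (l a) (i' a) (j' a) (k' a) (l' a) q1 q2
    (by linarith) (by linarith) (by rw [abs_le]; constructor <;> linarith)
    (by rw [abs_le]; constructor <;> linarith) (by rw [abs_le]; constructor <;> linarith)
    (by rw [abs_le]; constructor <;> linarith)
  rw [Real.dist_eq, sub_zero]
  linarith

theorem Ct_seq (h : Cont P L g) {t₁ t₂ t₃ t₄ : ℝ} (h12 : t₁ < t₂) (h23 : t₂ < t₃) (h34 : t₃ < t₄)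
    (h41 : t₄ < t₁ + L) {ι : Type*} {F : Filter ι} {nn : ι → ℕ} (hnn : Tendsto nn F atTop)
    {i j k l i' j' k' l' : ι → ℤ} (hi : Tendsto (fun a => (i a : ℝ) / nn a) F (𝓝 t₁))
    (hj : Tendsto (fun a => (j a : ℝ) / nn a) F (𝓝 t₂))
    (hk : Tendsto (fun a => (k a : ℝ) / nn a) F (𝓝 t₃))
    (hl : Tendsto (fun a => (l a : ℝ) / nn a) F (𝓝 t₄))
    (hi' : Tendsto (fun a => (i' a : ℝ) / nn a) F (𝓝 t₁))
    (hj' : Tendsto (fun a => (j' a : ℝ) / nn a) F (𝓝 t₂))
    (hk' : Tendsto (fun a => (k' a : ℝ) / nn a) F (𝓝 t₃))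
    (hl' : Tendsto (fun a => (l' a : ℝ) / nn a) F (𝓝 t₄)) :
    Tendsto (fun a => Ct P g (nn a) (i' a) (j' a) (k' a) (l' a) -
      Ct P g (nn a) (i a) (j a) (k a) (l a)) F (𝓝 0) := by
  have h0 := (Cr_seq h h12 h23 h34 h41 0 hnn hi hj hk hl hi' hj' hk' hl').add
    (Cr_seq h h12 h23 h34 h41 1 hnn hi hj hk hl hi' hj' hk' hl')
  rw [add_zero] at h0
  refine h0.congr fun a => ?_
  unfold Ct
  ring

/-! ### The structure `CrossSeq` -/

/-- Arc duality, one inequality: the arcs `[i, j]`, `[k, l]` are joined by colour `c` or the arcs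
`[j, k]`, `[l, i + n L]` by the other colour. -/
def DU (P : Finset (ℤ × ℤ)) (L : ℕ) (g : ℤ → ℤ × ℤ) : Prop :=
  ∀ (n : ℕ) (c i j k l : ℤ), 0 < n → (c = 0 ∨ c = 1) → i < j → j < k → k < l → l ≤ i + n * L →
    1 ≤ Cr P g n c i j k l + Cr P g n (1 - c) j k l (i + n * L)

theorem ix_mono (n : ℕ) : Monotone (ix n) := fun s t hst => by
  unfold ix
  gcongr

theorem ix_per (n : ℕ) (t : ℝ) (L : ℕ) : ix n (t + L) = ix n t + n * L := by
  unfold ix
  have e : (n : ℝ) * (t + L) = n * t + ((n * L : ℕ) : ℤ) := by push_cast; ring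
  rw [e, Int.floor_add_intCast]
  push_cast
  ring

theorem ix_le (n : ℕ) (t : ℝ) : (ix n t : ℝ) ≤ n * t := Int.floor_le _

theorem lt_ix (n : ℕ) (t : ℝ) : (n : ℝ) * t - 1 < ix n t := Int.sub_one_lt_floor _

theorem DU.ct (hd : DU P L g) {n : ℕ} {i j k l : ℤ} (hn : 0 < n) (h1 : i < j) (h2 : j < k)
    (h3 : k < l) (h4 : l ≤ i + n * L) : 2 ≤ Ct P g n i j k l + Ct P g n j k l (i + n * L) := by
  have a0 := hd n 0 i j k l hn (Or.inl rfl) h1 h2 h3 h4
  have a1 := hd n 1 i j k l hn (Or.inr rfl) h1 h2 h3 h4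
  unfold Ct
  norm_num at a0 a1
  linarith

/-- a fixed constant is at most a small multiple of the mesh size -/
theorem exists_le_mul {κ : ℝ} (hκ : 0 < κ) (A : ℝ) : ∃ N : ℕ, ∀ n : ℕ, N ≤ n → A ≤ κ * n := by
  obtain ⟨N, hN⟩ := exists_nat_gt (A / κ)
  refine ⟨N, fun n hn => ?_⟩
  have h1 : (N : ℝ) ≤ n := by exact_mod_cast hn
  rw [div_lt_iff₀ hκ] at hN
  nlinarith

/-- Almost sure crossing when the two arcs are close to each other at `p1`. -/
theorem Cxy_near_one (h : Cont P L g) (hd : DU P L g) {t₁ t₃ : ℝ} (h31 : t₃ < t₁ + L)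
    {x : ℝ} (hx : x ∈ Ioo 0 (t₃ - t₁)) {ε : ℝ} (hε : 0 < ε) :
    ∃ δ > 0, ∃ N : ℕ, ∀ n ≥ N, ∀ y ∈ Icc 0 (t₁ + L - t₃), (t₁ + L - t₃) - y < δ →
      1 - ε ≤ Cxy P g t₁ t₃ n x y := by
  obtain ⟨hx0, hxM⟩ := hx
  set Λ : ℝ := t₁ + L - t₃ with hΛ
  have hΛ0 : 0 < Λ := by rw [hΛ]; linarith
  obtain ⟨m, hm, hm1, hm2⟩ : ∃ m : ℝ, 0 < m ∧ m ≤ x ∧ m ≤ Λ :=
    ⟨min x Λ, lt_min hx0 hΛ0, min_le_left _ _, min_le_right _ _⟩
  obtain ⟨δ, hδ, N, hN0, hcl⟩ := Cr_small (show 0 < m / 4 by positivity) hε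
  obtain ⟨N1, hN1⟩ := exists_le_mul (show 0 < m / 8 by positivity) 4
  obtain ⟨N2, hN2⟩ := exists_le_mul (show 0 < δ / 2 by positivity) 2
  obtain ⟨N3, hN3⟩ := exists_le_mul (show 0 < t₃ - t₁ - x by linarith) 2
  refine ⟨min (δ / 2) (m / 4), by positivity, max (max N N1) (max N2 N3), fun n hn y hy hyd => ?_⟩
  have n0 : N ≤ n := le_trans (le_trans (le_max_left _ _) (le_max_left _ _)) hn
  have n1 := hN1 n (le_trans (le_trans (le_max_right _ _) (le_max_left _ _)) hn)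
  have n2 := hN2 n (le_trans (le_trans (le_max_left _ _) (le_max_right _ _)) hn)
  have n3 := hN3 n (le_trans (le_trans (le_max_right _ _) (le_max_right _ _)) hn)
  have hn0 : 0 < n := lt_of_lt_of_le hN0 n0
  have hn0' : (0 : ℝ) < n := by exact_mod_cast hn0
  have d1 : Λ - y < δ / 2 := hyd.trans_le (min_le_left _ _)
  have d2 : Λ - y < m / 4 := hyd.trans_le (min_le_right _ _)
  have p1 := ix_le n t₁
  have p2 := lt_ix n t₁
  have p3 := ix_le n (t₁ + x)
  have p4 := lt_ix n (t₁ + x)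
  have p5 := ix_le n t₃
  have p6 := lt_ix n t₃
  have p7 := ix_le n (t₃ + y)
  have p8 := lt_ix n (t₃ + y)
  have mx : m * n ≤ x * n := by gcongr
  have mΛ : m * n ≤ Λ * n := by gcongr
  have dy1 : (Λ - y) * n ≤ δ / 2 * n := by gcongr
  have dy2 : (Λ - y) * n ≤ m / 4 * n := by gcongr
  have hmn : 0 < m * n := by positivity
  have hΛn : Λ * n = t₁ * n + L * n - t₃ * n := by rw [hΛ]; ring
  have q1 : ix n t₁ < ix n (t₁ + x) := by
    have : (ix n t₁ : ℝ) < ix n (t₁ + x) := by linarith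
    exact_mod_cast this
  have q2 : ix n (t₁ + x) < ix n t₃ := by
    have : (ix n (t₁ + x) : ℝ) < ix n t₃ := by linarith
    exact_mod_cast this
  have q3 : ix n t₃ < ix n (t₃ + y) := by
    have : (ix n t₃ : ℝ) < ix n (t₃ + y) := by linarith
    exact_mod_cast this
  have q4 : ix n (t₃ + y) ≤ ix n t₁ + n * L := by
    rw [← ix_per]
    apply ix_mono
    linarith [hy.2]
  have hdu := hd.ct hn0 q1 q2 q3 q4
  have hsm : ∀ c : ℤ, Cr P g n c (ix n (t₁ + x)) (ix n t₃) (ix n (t₃ + y)) (ix n t₁ + n * L) ≤ ε := by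
    intro c
    refine hcl P L g h n n0 c _ _ _ _ ?_ ?_ (Or.inl ?_)
    · linarith
    · push_cast
      linarith
    · push_cast
      linarith
  have h0 := hsm 0
  have h1 := hsm 1
  unfold Cxy
  have hct : Ct P g n (ix n (t₁ + x)) (ix n t₃) (ix n (t₃ + y)) (ix n t₁ + n * L) ≤ 2 * ε := by
    unfold Ct
    linarith
  linarith

/-- **The crossing probabilities of `rf n P` form a `CrossSeq`.** -/
theorem crossSeq (h : Cont P L g) (hd : DU P L g) {t₁ t₃ : ℝ} (h31 : t₃ < t₁ + L) :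
    CrossSeq (t₃ - t₁) (t₁ + L - t₃) (Cxy P g t₁ t₃) where
  nonneg n x _ y _ := by
    have := ctP_nonneg (P := P) (g := g) n (ix n t₁) (ix n (t₁ + x)) (ix n t₃) (ix n (t₃ + y))
    unfold Cxy
    linarith
  le_one n x _ y _ := by
    have := Ct_le_two (P := P) (g := g) n (ix n t₁) (ix n (t₁ + x)) (ix n t₃) (ix n (t₃ + y))
    unfold Cxy
    linarith
  mono1 n y _ x _ x' _ hxx := by
    have := ctP_mono (P := P) (g := g) (n := n) (le_refl (ix n t₁))
      (ix_mono n (show t₁ + x ≤ t₁ + x' by linarith)) (le_refl (ix n t₃)) (le_refl (ix n (t₃ + y)))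
    show Cxy P g t₁ t₃ n x y ≤ Cxy P g t₁ t₃ n x' y
    unfold Cxy
    linarith
  mono2 n x _ y _ y' _ hyy := by
    have := ctP_mono (P := P) (g := g) (n := n) (le_refl (ix n t₁)) (le_refl (ix n (t₁ + x)))
      (le_refl (ix n t₃)) (ix_mono n (show t₃ + y ≤ t₃ + y' by linarith))
    unfold Cxy
    linarith
  equi1 x hx y hy ε hε := by
    obtain ⟨hx0, hxM⟩ := hx
    obtain ⟨hy0, hyM⟩ := hy
    obtain ⟨m, hm, hm1, hm2⟩ : ∃ m : ℝ, 0 < m ∧ m ≤ t₃ - t₁ - x ∧ m ≤ t₁ + L - t₃ - y :=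
      ⟨min (t₃ - t₁ - x) (t₁ + L - t₃ - y), lt_min (by linarith) (by linarith), min_le_left _ _,
        min_le_right _ _⟩
    obtain ⟨δ, hδ, N, hN0, hcl⟩ := Cr_close (show 0 < m / 2 by positivity) hε
    obtain ⟨N1, hN1⟩ := exists_le_mul (show 0 < m / 2 by positivity) 2
    obtain ⟨N2, hN2⟩ := exists_le_mul (show 0 < δ / 2 by positivity) 2
    refine ⟨δ / 2, by positivity, max N (max N1 N2), fun n hn x' hx' hd' => ?_⟩
    have n0 : N ≤ n := le_trans (le_max_left _ _) hn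
    have n1 := hN1 n (le_trans (le_trans (le_max_left _ _) (le_max_right _ _)) hn)
    have n2 := hN2 n (le_trans (le_trans (le_max_right _ _) (le_max_right _ _)) hn)
    have hn0 : 0 < n := lt_of_lt_of_le hN0 n0
    have hn0' : (0 : ℝ) < n := by exact_mod_cast hn0
    have p1 := ix_le n t₁
    have p2 := lt_ix n t₁
    have p3 := ix_le n (t₁ + x)
    have p4 := lt_ix n (t₁ + x)
    have p3' := ix_le n (t₁ + x')
    have p4' := lt_ix n (t₁ + x')
    have p5 := ix_le n t₃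
    have p6 := lt_ix n t₃
    have p7 := ix_le n (t₃ + y)
    have m1 : m * n ≤ (t₃ - t₁ - x) * n := by gcongr
    have m2 : m * n ≤ (t₁ + L - t₃ - y) * n := by gcongr
    have hd1 := abs_lt.1 hd'
    have dn1 : (x' - x) * n ≤ δ / 2 * n := by gcongr; exact hd1.2.le
    have dn2 : -(δ / 2) * n ≤ (x' - x) * n := by gcongr; exact hd1.1.le
    have q1 : ix n t₁ ≤ ix n (t₁ + x) := ix_mono n (by linarith)
    have q2 : ix n t₃ ≤ ix n (t₃ + y) := ix_mono n (by linarith)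
    have hc : ∀ c : ℤ, |Cr P g n c (ix n t₁) (ix n (t₁ + x')) (ix n t₃) (ix n (t₃ + y)) -
        Cr P g n c (ix n t₁) (ix n (t₁ + x)) (ix n t₃) (ix n (t₃ + y))| ≤ ε := by
      intro c
      refine hcl P L g h n n0 c _ _ _ _ _ _ _ _ q1 q2 (by linarith) (by linarith) ?_ ?_ ?_ ?_
      · rw [sub_self, abs_zero]; positivity
      · rw [abs_le]; constructor <;> linarith
      · rw [sub_self, abs_zero]; positivity
      · rw [sub_self, abs_zero]; positivity
    have h0 := abs_le.1 (hc 0)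
    have h1 := abs_le.1 (hc 1)
    unfold Cxy Ct
    rw [abs_le]
    constructor <;> linarith [h0.1, h0.2, h1.1, h1.2]
  equi2 x hx y hy ε hε := by
    rcases hy.2.lt_or_eq with hyM | hyM
    · obtain ⟨hx0, hxM⟩ := hx
      have hy0 := hy.1
      obtain ⟨m, hm, hm1, hm2⟩ : ∃ m : ℝ, 0 < m ∧ m ≤ t₃ - t₁ - x ∧ m ≤ t₁ + L - t₃ - y :=
        ⟨min (t₃ - t₁ - x) (t₁ + L - t₃ - y), lt_min (by linarith) (by linarith), min_le_left _ _,
          min_le_right _ _⟩
      obtain ⟨δ, hδ, N, hN0, hcl⟩ := Cr_close (show 0 < m / 2 by positivity) hε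
      obtain ⟨N1, hN1⟩ := exists_le_mul (show 0 < m / 2 by positivity) 2
      obtain ⟨N2, hN2⟩ := exists_le_mul (show 0 < δ / 2 by positivity) 2
      refine ⟨δ / 2, by positivity, max N (max N1 N2), fun n hn y' hy' hd' => ?_⟩
      have n0 : N ≤ n := le_trans (le_max_left _ _) hn
      have n1 := hN1 n (le_trans (le_trans (le_max_left _ _) (le_max_right _ _)) hn)
      have n2 := hN2 n (le_trans (le_trans (le_max_right _ _) (le_max_right _ _)) hn)
      have hn0 : 0 < n := lt_of_lt_of_le hN0 n0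
      have hn0' : (0 : ℝ) < n := by exact_mod_cast hn0
      have p1 := ix_le n t₁
      have p2 := lt_ix n t₁
      have p3 := ix_le n (t₁ + x)
      have p5 := ix_le n t₃
      have p6 := lt_ix n t₃
      have p7 := ix_le n (t₃ + y)
      have p8 := lt_ix n (t₃ + y)
      have p7' := ix_le n (t₃ + y')
      have p8' := lt_ix n (t₃ + y')
      have m1 : m * n ≤ (t₃ - t₁ - x) * n := by gcongr
      have m2 : m * n ≤ (t₁ + L - t₃ - y) * n := by gcongr
      have hd1 := abs_lt.1 hd'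
      have dn1 : (y' - y) * n ≤ δ / 2 * n := by gcongr; exact hd1.2.le
      have dn2 : -(δ / 2) * n ≤ (y' - y) * n := by gcongr; exact hd1.1.le
      have q1 : ix n t₁ ≤ ix n (t₁ + x) := ix_mono n (by linarith)
      have q2 : ix n t₃ ≤ ix n (t₃ + y) := ix_mono n (by linarith)
      have hc : ∀ c : ℤ, |Cr P g n c (ix n t₁) (ix n (t₁ + x)) (ix n t₃) (ix n (t₃ + y')) -
          Cr P g n c (ix n t₁) (ix n (t₁ + x)) (ix n t₃) (ix n (t₃ + y))| ≤ ε := by
        intro c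
        refine hcl P L g h n n0 c _ _ _ _ _ _ _ _ q1 q2 (by linarith) (by linarith) ?_ ?_ ?_ ?_
        · rw [sub_self, abs_zero]; positivity
        · rw [sub_self, abs_zero]; positivity
        · rw [sub_self, abs_zero]; positivity
        · rw [abs_le]; constructor <;> linarith
      have h0 := abs_le.1 (hc 0)
      have h1 := abs_le.1 (hc 1)
      unfold Cxy Ct
      rw [abs_le]
      constructor <;> linarith [h0.1, h0.2, h1.1, h1.2]
    · obtain ⟨δ, hδ, N, hN⟩ := Cxy_near_one h hd h31 hx hε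
      refine ⟨δ, hδ, N, fun n hn y' hy' hd' => ?_⟩
      have hle : ∀ z : ℝ, Cxy P g t₁ t₃ n x z ≤ 1 := by
        intro z
        have := Ct_le_two (P := P) (g := g) n (ix n t₁) (ix n (t₁ + x)) (ix n t₃) (ix n (t₃ + z))
        unfold Cxy
        linarith
      have h1 := hN n hn y' hy' (by
        have := (abs_lt.1 hd').1
        linarith)
      have h2 := hN n hn y hy (by linarith)
      have h3 := hle y'
      have h4 := hle y
      rw [abs_le]
      constructor <;> linarith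
  zero x hx := by
    obtain ⟨hx0, hxM⟩ := hx
    obtain ⟨m, hm, hm1, hm2⟩ : ∃ m : ℝ, 0 < m ∧ m ≤ t₃ - t₁ - x ∧ m ≤ t₁ + L - t₃ :=
      ⟨min (t₃ - t₁ - x) (t₁ + L - t₃), lt_min (by linarith) (by linarith), min_le_left _ _,
        min_le_right _ _⟩
    rw [Metric.tendsto_atTop]
    intro ε hε
    obtain ⟨δ, hδ, N, hN0, hcl⟩ := Cr_small (show 0 < m / 2 by positivity) (show 0 < ε / 2 by positivity)
    obtain ⟨N1, hN1⟩ := exists_le_mul (show 0 < m / 2 by positivity) 2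
    refine ⟨max N N1, fun n hn => ?_⟩
    have n0 : N ≤ n := le_trans (le_max_left _ _) hn
    have n1 := hN1 n (le_trans (le_max_right _ _) hn)
    have hn0 : 0 < n := lt_of_lt_of_le hN0 n0
    have hn0' : (0 : ℝ) < n := by exact_mod_cast hn0
    have p2 := lt_ix n t₁
    have p3 := ix_le n (t₁ + x)
    have p5 := ix_le n t₃
    have p6 := lt_ix n t₃
    have m1 : m * n ≤ (t₃ - t₁ - x) * n := by gcongr
    have m2 : m * n ≤ (t₁ + L - t₃) * n := by gcongr
    have hsm : ∀ c : ℤ, Cr P g n c (ix n t₁) (ix n (t₁ + x)) (ix n t₃) (ix n (t₃ + 0)) ≤ ε / 2 := by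
      intro c
      rw [add_zero]
      refine hcl P L g h n n0 c _ _ _ _ (by linarith) (by linarith) (Or.inl ?_)
      rw [sub_self]
      positivity
    have h0 := hsm 0
    have h1 := hsm 1
    have h2 := ctP_nonneg (P := P) (g := g) n (ix n t₁) (ix n (t₁ + x)) (ix n t₃) (ix n (t₃ + 0))
    rw [Real.dist_eq, sub_zero, abs_lt]
    unfold Cxy
    unfold Ct at h2 ⊢
    constructor <;> linarith
  one x hx := by
    rw [Metric.tendsto_atTop]
    intro ε hε
    obtain ⟨δ, hδ, N, hN⟩ := Cxy_near_one h hd h31 hx (show 0 < ε / 2 by positivity)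
    refine ⟨N, fun n hn => ?_⟩
    have h1 := hN n hn (t₁ + L - t₃) ⟨by linarith, le_refl _⟩ (by linarith)
    have h2 : Cxy P g t₁ t₃ n x (t₁ + L - t₃) ≤ 1 := by
      have := Ct_le_two (P := P) (g := g) n (ix n t₁) (ix n (t₁ + x)) (ix n t₃)
        (ix n (t₃ + (t₁ + L - t₃)))
      unfold Cxy
      linarith
    rw [Real.dist_eq, abs_lt]
    constructor <;> linarith

end

end Pool.Agent.SixB
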