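import Pool.Agent.Lib.MP_6bd702_ann.HPAnn
import Pool.Agent.Lib.MP_6bd702_z.Z023

/-!
# 6BD, block CA: half plane arms (helper14)

* `pr_HArm_hi`, `pr_HArm_lo`: the even arm from the half box of radius `s` to the half circle `R` has a
  probability of the order `(s / R) ^ (1 / 3)`.
* `WArm t R`: the arm starts on the wall. `OArm t n`: moreover it is joined to a path which crosses
  the rectangle `[-4n, 4n] × [2n, 4n]`. Lower bounds `pr_WArm_lo`, `pr_OArm_lo`.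
-/

set_option autoImplicit false

namespace Pool.Agent.SixB.Third

open Finset Pool.Agent.Perc Pool.Agent.AnnH

/-! ## The half plane arm -/

theorem pArm_lo : ∃ c : ℝ, 0 < c ∧ ∀ r : ℕ, 0 < r → c * (r : ℝ) ^ (-(1 / 3 : ℝ)) ≤ pArm r := by
  refine ⟨(1 / 12 : ℝ) ^ (1 / 3 : ℝ), by positivity, fun r hr => ?_⟩
  refine le_trans ?_ ((prod_ge hr).trans (pArm_ge hr))
  have hr' : (1 : ℝ) ≤ r := by exact_mod_cast hr
  have hr0 : (0 : ℝ) ≤ r := by linarith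
  rw [Real.rpow_neg hr0, ← Real.inv_rpow hr0, ← Real.mul_rpow (by norm_num) (by positivity)]
  refine Real.rpow_le_rpow (by positivity) ?_ (by norm_num)
  rw [← one_div, div_mul_div_comm, one_mul]
  exact one_div_le_one_div_of_le (by linarith) (by linarith)

theorem pr_HArm_hi : ∃ C : ℝ, 0 < C ∧ ∀ s R : ℕ, 0 < s → 2 * s ≤ R →
    pr (RF (-(R : ℤ)) R 0 R) (HArm s R) ≤ C * ((s : ℝ) / R) ^ (1 / 3 : ℝ) := by
  obtain ⟨c, hc, h⟩ := pr_HArm_le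
  obtain ⟨c₁, hc₁, h₁⟩ := pArm_lo
  obtain ⟨C₂, h₂⟩ := pArm_le rswF rswF'
  refine ⟨(|C₂| + 1) * 2 / (c * c₁), by positivity, fun s R hs hR => ?_⟩
  have hs' : (0 : ℝ) < s := by exact_mod_cast hs
  have hR0 : 0 < R := by omega
  have hR' : (0 : ℝ) < R := by exact_mod_cast hR0
  have e1 := h s R (by exact_mod_cast hs) (by exact_mod_cast hR)
  have e2 := h₁ (2 * s) (by omega)
  have e3 := h₂ R hR0
  have hn : 0 ≤ pr (RF (-(R : ℤ)) R 0 R) (HArm s R) := pr_nonneg _ _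
  have e2' : c₁ * ((2 * s : ℝ)) ^ (-(1 / 3 : ℝ)) ≤ pArm (2 * (s : ℤ)) := by
    have : ((2 * s : ℕ) : ℤ) = 2 * (s : ℤ) := by push_cast; ring
    rw [this] at e2
    push_cast at e2
    exact e2
  have hpos : 0 < c₁ * ((2 * s : ℝ)) ^ (-(1 / 3 : ℝ)) := by positivity
  have e4 : c₁ * ((2 * s : ℝ)) ^ (-(1 / 3 : ℝ)) *
      (c * pr (RF (-(R : ℤ)) R 0 R) (HArm s R)) ≤ (|C₂| + 1) * (R : ℝ) ^ (-(1 / 3 : ℝ)) := by
    refine (mul_le_mul_of_nonneg_right e2' (by positivity)).trans (e1.trans (e3.trans ?_))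
    have : C₂ ≤ |C₂| + 1 := (le_abs_self _).trans (by linarith)
    exact mul_le_mul_of_nonneg_right this (by positivity)
  have e5 : ((s : ℝ) / R) ^ (1 / 3 : ℝ) = (s : ℝ) ^ (1 / 3 : ℝ) * (R : ℝ) ^ (-(1 / 3 : ℝ)) := by
    rw [Real.div_rpow hs'.le hR'.le, Real.rpow_neg hR'.le]
    rfl
  have e6 : ((2 * s : ℝ)) ^ (-(1 / 3 : ℝ)) * ((2 : ℝ) * (s : ℝ) ^ (1 / 3 : ℝ)) ≥ 1 := by
    rw [Real.mul_rpow (by norm_num) hs'.le, Real.rpow_neg hs'.le]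
    have h2 : (1 / 2 : ℝ) ≤ (2 : ℝ) ^ (-(1 / 3 : ℝ)) := by
      rw [Real.rpow_neg (by norm_num), ← one_div]
      refine one_div_le_one_div_of_le (by positivity) ?_
      calc (2 : ℝ) ^ (1 / 3 : ℝ) ≤ (2 : ℝ) ^ (1 : ℝ) :=
            Real.rpow_le_rpow_of_exponent_le (by norm_num) (by norm_num)
        _ = 2 := Real.rpow_one 2
    have h3 : (0 : ℝ) < (s : ℝ) ^ (1 / 3 : ℝ) := by positivity
    have h4 : (2 : ℝ) ^ (-(1 / 3 : ℝ)) * ((s : ℝ) ^ (1 / 3 : ℝ))⁻¹ * (2 * (s : ℝ) ^ (1 / 3 : ℝ)) =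
        2 * (2 : ℝ) ^ (-(1 / 3 : ℝ)) := by
      field_simp
    rw [h4]
    linarith
  rw [e5, div_mul_eq_mul_div, le_div_iff₀ (by positivity)]
  have h3 : (0 : ℝ) < (s : ℝ) ^ (1 / 3 : ℝ) := by positivity
  calc pr (RF (-(R : ℤ)) R 0 R) (HArm s R) * (c * c₁)
      = c₁ * (c * pr (RF (-(R : ℤ)) R 0 R) (HArm s R)) * 1 := by ring
    _ ≤ c₁ * (c * pr (RF (-(R : ℤ)) R 0 R) (HArm s R)) *
        (((2 * s : ℝ)) ^ (-(1 / 3 : ℝ)) * ((2 : ℝ) * (s : ℝ) ^ (1 / 3 : ℝ))) :=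
      mul_le_mul_of_nonneg_left e6 (by positivity)
    _ = (c₁ * ((2 * s : ℝ)) ^ (-(1 / 3 : ℝ)) *
      (c * pr (RF (-(R : ℤ)) R 0 R) (HArm s R))) * ((2 : ℝ) * (s : ℝ) ^ (1 / 3 : ℝ)) := by ring
    _ ≤ (|C₂| + 1) * (R : ℝ) ^ (-(1 / 3 : ℝ)) * ((2 : ℝ) * (s : ℝ) ^ (1 / 3 : ℝ)) :=
      mul_le_mul_of_nonneg_right e4 (by positivity)
    _ = _ := by ring

theorem pr_HArm_lo : ∃ c : ℝ, 0 < c ∧ ∀ s R : ℕ, 0 < s → s ≤ R →
    c * ((s : ℝ) / R) ^ (1 / 3 : ℝ) ≤ pr (RF (-(R : ℤ)) R 0 R) (HArm s R) := by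
  obtain ⟨c, hc, h⟩ := hpAnn_ge
  refine ⟨c * (1 / 4 : ℝ) ^ (1 / 3 : ℝ), by positivity, fun s R hs hR => ?_⟩
  have h1 := h (s / 2) R (by omega)
  have h2 := hpAnn_le_HArm (r := s / 2) (R := R) (s := (s : ℤ)) (by omega) (by omega)
  refine le_trans ?_ (h1.trans h2)
  have hs' : (1 : ℝ) ≤ s := by exact_mod_cast hs
  have hR' : (1 : ℝ) ≤ R := by exact_mod_cast (by omega : 1 ≤ R)
  rw [mul_assoc, ← Real.mul_rpow (by norm_num) (by positivity)]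
  refine mul_le_mul_of_nonneg_left (Real.rpow_le_rpow (by positivity) ?_ (by norm_num)) hc.le
  have h3 : (s : ℝ) ≤ 2 * (((s / 2 : ℕ) : ℝ) + 1) := by
    have : s ≤ 2 * (s / 2 + 1) := by omega
    exact_mod_cast this
  rw [div_mul_div_comm, one_mul, div_le_div_iff₀ (by positivity) (by positivity)]
  nlinarith

/-! ## Arms which start on the wall -/

variable {ω : Cfg}

private theorem sub_RF {x₀ x₁ y₀ y₁ a₀ a₁ b₀ b₁ : ℤ} (h1 : a₀ ≤ x₀) (h2 : x₁ ≤ a₁) (h3 : b₀ ≤ y₀)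
    (h4 : y₁ ≤ b₁) : RF x₀ x₁ y₀ y₁ ⊆ RF a₀ a₁ b₀ b₁ := by
  intro f hf
  rw [mem_RFi] at hf ⊢
  omega

private theorem sub_RFc {x₀ x₁ y₀ y₁ a₀ a₁ b₀ b₁ : ℤ} (h1 : a₀ ≤ x₀) (h2 : x₁ ≤ a₁) (h3 : b₀ ≤ y₀)
    (h4 : y₁ ≤ b₁) : (RF x₀ x₁ y₀ y₁ : Set (ℤ × ℤ)) ⊆ (RF a₀ a₁ b₀ b₁ : Set (ℤ × ℤ)) :=
  Finset.coe_subset.2 (sub_RF h1 h2 h3 h4)

/-- An even path from the wall inside the half box of radius `2 t` to the half circle `R`. -/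
def WArm (t R : ℤ) : Set Cfg :=
  {ω | ∃ a v : ℤ × ℤ, a.2 = 0 ∧ -(2 * t) ≤ a.1 ∧ a.1 ≤ 2 * t ∧ (a.1 + a.2 - 0) % 2 = 0 ∧
    Conn ω (RF (-R) R 0 R) a v ∧ (v.1 = -R ∨ v.1 = R ∨ v.2 = R)}

theorem depOn_WArm (t R : ℤ) : DepOn (RF (-R) R 0 R : Set (ℤ × ℤ)) (WArm t R) := by
  intro ω ω' h
  simp only [WArm, Set.mem_ofPred_eq, GridA.conn_iff _ h]

theorem incD_WArm (t R : ℤ) : IncD (parD 0) (WArm t R) := by
  rintro ω ω' h ⟨u, v, h1, h2, h3, h4, h5, h6⟩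
  exact ⟨u, v, h1, h2, h3, h4, incD_conn 0 _ h4 ω ω' h h5, h6⟩

theorem wArm_of {t R : ℤ} (ht : 0 < t) (hR : 2 * t ≤ R)
    (hL : ω ∈ BT 0 (-(2 * t)) (-t) 0 (2 * t)) (hB : ω ∈ BT 0 t (2 * t) 0 (2 * t))
    (hT : ω ∈ LR 0 (-(2 * t)) (2 * t) t (2 * t)) (h3 : ω ∈ HArm t R) : ω ∈ WArm t R := by
  obtain ⟨a, a', a1, a2, a3, a4, a5, a6⟩ := hL
  obtain ⟨b, b', b1, b2, b3, b4, b5, b6⟩ := hB
  obtain ⟨c, c', c1, c2, c3, c4, c5, c6⟩ := hT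
  obtain ⟨u, v, hu, hp, huv, hv⟩ := h3
  have ha : a.2 = 0 ∧ a'.2 = 2 * t ∧ (a.1 + a.2) % 2 = 0 ∧
      Conn ω (RF (-(2 * t)) (-t) 0 (2 * t)) a a' := ⟨a1, a4, by omega, a6⟩
  have hb : b.2 = 0 ∧ b'.2 = 2 * t ∧ (b.1 + b.2) % 2 = 0 ∧
      Conn ω (RF t (2 * t) 0 (2 * t)) b b' := ⟨b1, b4, by omega, b6⟩
  have hc : c.1 = -(2 * t) ∧ c'.1 = 2 * t ∧ (c.1 + c.2) % 2 = 0 ∧
      Conn ω (RF (-(2 * t)) (2 * t) t (2 * t)) c c' := ⟨c1, c4, by omega, c6⟩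
  have m2 := meet ht hR (u := u) hu (by omega) (by
    obtain ⟨w, hw, hwb⟩ := Conn.toSides (x₀ := -(2 * t)) (x₁ := 2 * t) (y₀ := 0) (y₁ := 2 * t) huv
      (fun f hf => by
        rw [Finset.mem_coe, HPB.mem_RF] at hf
        omega) (by omega) (by omega)
    exact ⟨w, Conn.mono Set.inter_subset_right hw, hwb⟩) ha hb hc
  have hca : Conn ω (RF (-R) R 0 R) c a :=
    HPB.cross (x₀ := -(2 * t)) (x₁ := -t) (y₀ := t) (y₁ := 2 * t)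
      (F := RF (-(2 * t)) (2 * t) t (2 * t)) (F' := RF (-(2 * t)) (-t) 0 (2 * t))
      (by omega) (by omega) (HPB.inY le_rfl le_rfl) (HPB.inX le_rfl le_rfl)
      (sub_RFc (by omega) (by omega) (by omega) (by omega))
      (sub_RFc (by omega) (by omega) (by omega) (by omega))
      (sub_RFc (by omega) (by omega) (by omega) (by omega))
      (by omega) (by omega) (by omega) (by omega) (by omega) c6 a6
  exact ⟨a, v, a1, a2, by omega, by omega, hca.symm.trans (m2.symm.trans huv), hv⟩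

theorem pr_WArm_lo : ∃ c : ℝ, 0 < c ∧ ∀ t R : ℕ, 0 < t → 2 * t ≤ R →
    c * ((t : ℝ) / R) ^ (1 / 3 : ℝ) ≤ pr (RF (-(R : ℤ)) R 0 R) (WArm t R) := by
  obtain ⟨c, hc, h⟩ := rswF 4
  obtain ⟨c', hc', h'⟩ := rswF' 2
  obtain ⟨c₀, hc₀, h₀⟩ := pr_HArm_lo
  refine ⟨c' * (c' * (c * c₀)), by positivity, fun t R ht hR => ?_⟩
  have ht' : (0 : ℤ) < t := by exact_mod_cast ht
  have hR' : 2 * (t : ℤ) ≤ R := by exact_mod_cast hR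
  set W := RF (-(R : ℤ)) R 0 R with hW
  have s1 : RF (-(2 * (t : ℤ))) (-t) 0 (2 * t) ⊆ W := sub_RF (by omega) (by omega) (by omega) (by omega)
  have s2 : RF (t : ℤ) (2 * t) 0 (2 * t) ⊆ W := sub_RF (by omega) (by omega) (by omega) (by omega)
  have s3 : RF (-(2 * (t : ℤ))) (2 * t) t (2 * t) ⊆ W := sub_RF (by omega) (by omega) (by omega) (by omega)
  have p1 : c' ≤ pr W (BT 0 (-(2 * (t : ℤ))) (-t) 0 (2 * t)) := by
    rw [pr_BT_window s1]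
    exact h' _ _ _ _ _ (by omega) (by omega) (by push_cast; omega)
  have p2 : c' ≤ pr W (BT 0 (t : ℤ) (2 * t) 0 (2 * t)) := by
    rw [pr_BT_window s2]
    exact h' _ _ _ _ _ (by omega) (by omega) (by push_cast; omega)
  have p3 : c ≤ pr W (LR 0 (-(2 * (t : ℤ))) (2 * t) t (2 * t)) := by
    rw [pr_LR_window s3]
    exact h _ _ _ _ _ (by omega) (by omega) (by push_cast; omega)
  have p4 := h₀ t R ht (by omega)
  have d1 := depOn_mono' (depOn_BT 0 (-(2 * (t : ℤ))) (-t) 0 (2 * t)) (coe_subset.2 s1)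
  have d2 := depOn_mono' (depOn_BT 0 (t : ℤ) (2 * t) 0 (2 * t)) (coe_subset.2 s2)
  have d3 := depOn_mono' (depOn_LR 0 (-(2 * (t : ℤ))) (2 * t) t (2 * t)) (coe_subset.2 s3)
  have d4 : DepOn (W : Set (ℤ × ℤ)) (HArm t R) := depOn_HArm t R
  have i3 : IncD (parD 0) (LR 0 (-(2 * (t : ℤ))) (2 * t) t (2 * t)) := incD_LR _ _ _ _ _
  have i4 := incD_HArm (t : ℤ) (R : ℤ)
  have q3 := harris _ d3 d4 i3 i4
  have q2 := harris _ d2 (depOn_inter' d3 d4) (incD_BT' _ _ _ _ _) (incD_inter' i3 i4)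
  have q1 := harris _ d1 (depOn_inter' d2 (depOn_inter' d3 d4)) (incD_BT' _ _ _ _ _)
    (incD_inter' (incD_BT' 0 (t : ℤ) (2 * t) 0 (2 * t)) (incD_inter' i3 i4))
  have hx : 0 ≤ ((t : ℝ) / R) ^ (1 / 3 : ℝ) := by positivity
  have r3 : c * (c₀ * ((t : ℝ) / R) ^ (1 / 3 : ℝ)) ≤ _ :=
    (mul_le_mul p3 p4 (by positivity) (pr_nonneg _ _)).trans q3
  have r2 : c' * (c * (c₀ * ((t : ℝ) / R) ^ (1 / 3 : ℝ))) ≤ _ :=
    (mul_le_mul p2 r3 (by positivity) (pr_nonneg _ _)).trans q2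
  have r1 : c' * (c' * (c * (c₀ * ((t : ℝ) / R) ^ (1 / 3 : ℝ)))) ≤ _ :=
    (mul_le_mul p1 r2 (by positivity) (pr_nonneg _ _)).trans q1
  calc _ = c' * (c' * (c * (c₀ * ((t : ℝ) / R) ^ (1 / 3 : ℝ)))) := by ring
    _ ≤ _ := r1
    _ ≤ _ := pr_mono _ fun ω hω => wArm_of ht' hR' hω.1 hω.2.1 hω.2.2.1 hω.2.2.2

/-- The wall near `0` is joined to a path which crosses `RF (-4n) (4n) (2n) (4n)`. -/
def OArm (t n : ℤ) : Set Cfg :=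
  {ω | ∃ a c c' : ℤ × ℤ, a.2 = 0 ∧ -(2 * t) ≤ a.1 ∧ a.1 ≤ 2 * t ∧ (a.1 + a.2 - 0) % 2 = 0 ∧
    Conn ω (RF (-(4 * n)) (4 * n) 0 (4 * n)) a c ∧ c.1 = -(4 * n) ∧ c'.1 = 4 * n ∧
    Conn ω (RF (-(4 * n)) (4 * n) (2 * n) (4 * n)) c c'}

theorem depOn_OArm {t n : ℤ} (hn : 0 ≤ n) :
    DepOn (RF (-(4 * n)) (4 * n) 0 (4 * n) : Set (ℤ × ℤ)) (OArm t n) := by
  intro ω ω' h
  have h' : ∀ f ∈ (RF (-(4 * n)) (4 * n) (2 * n) (4 * n) : Set (ℤ × ℤ)), ω f = ω' f :=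
    fun f hf => h f (sub_RFc le_rfl le_rfl (by omega) le_rfl hf)
  simp only [OArm, Set.mem_ofPred_eq, GridA.conn_iff _ h, GridA.conn_iff _ h']

theorem incD_OArm (t n : ℤ) : IncD (parD 0) (OArm t n) := by
  rintro ω ω' h ⟨a, c, c', h1, h2, h3, h4, h5, h6, h7, h8⟩
  have hp := Conn.parity h5
  exact ⟨a, c, c', h1, h2, h3, h4, incD_conn 0 _ h4 ω ω' h h5, h6, h7,
    incD_conn 0 _ (by omega) ω ω' h h8⟩

theorem oArm_of {t n : ℤ} (hn : 0 < n) (htn : t ≤ n)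
    (hL : ω ∈ BT 0 (-(4 * n)) (-(2 * n)) 0 (4 * n)) (hB : ω ∈ BT 0 (2 * n) (4 * n) 0 (4 * n))
    (hT : ω ∈ LR 0 (-(4 * n)) (4 * n) (2 * n) (4 * n)) (h3 : ω ∈ WArm t (4 * n)) :
    ω ∈ OArm t n := by
  obtain ⟨a, a', a1, a2, a3, a4, a5, a6⟩ := hL
  obtain ⟨b, b', b1, b2, b3, b4, b5, b6⟩ := hB
  obtain ⟨c, c', c1, c2, c3, c4, c5, c6⟩ := hT
  obtain ⟨u, v, hu0, hu1, hu2, hp, huv, hv⟩ := h3
  have e4 : 2 * (2 * n) = 4 * n := by ring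
  have ha : a.2 = 0 ∧ a'.2 = 2 * (2 * n) ∧ (a.1 + a.2) % 2 = 0 ∧
      Conn ω (RF (-(2 * (2 * n))) (-(2 * n)) 0 (2 * (2 * n))) a a' := by
    rw [e4]
    exact ⟨a1, a4, by omega, a6⟩
  have hb : b.2 = 0 ∧ b'.2 = 2 * (2 * n) ∧ (b.1 + b.2) % 2 = 0 ∧
      Conn ω (RF (2 * n) (2 * (2 * n)) 0 (2 * (2 * n))) b b' := by
    rw [e4]
    exact ⟨b1, b4, by omega, b6⟩
  have hc : c.1 = -(2 * (2 * n)) ∧ c'.1 = 2 * (2 * n) ∧ (c.1 + c.2) % 2 = 0 ∧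
      Conn ω (RF (-(2 * (2 * n))) (2 * (2 * n)) (2 * n) (2 * (2 * n))) c c' := by
    rw [e4]
    exact ⟨c1, c4, by omega, c6⟩
  have m2 := meet (s := 2 * n) (R := 4 * n) (by omega) (by omega) (u := u)
    ⟨by omega, by omega, by omega, by omega⟩ (by omega) (by
      rw [e4]
      exact ⟨v, huv, hv⟩) ha hb hc
  exact ⟨u, c, c', hu0, hu1, hu2, hp, m2, c1, c4, c6⟩

theorem pr_OArm_lo : ∃ c : ℝ, 0 < c ∧ ∀ t n : ℕ, 0 < t → t ≤ n →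
    c * ((t : ℝ) / n) ^ (1 / 3 : ℝ) ≤
      pr (RF (-(4 * (n : ℤ))) (4 * n) 0 (4 * n)) (OArm t n) := by
  obtain ⟨c, hc, h⟩ := rswF 4
  obtain ⟨c', hc', h'⟩ := rswF' 2
  obtain ⟨c₀, hc₀, h₀⟩ := pr_WArm_lo
  refine ⟨c' * (c' * (c * (c₀ * (1 / 4 : ℝ) ^ (1 / 3 : ℝ)))), by positivity, fun t n ht hn => ?_⟩
  have ht' : (0 : ℤ) < t := by exact_mod_cast ht
  have hn' : (t : ℤ) ≤ n := by exact_mod_cast hn
  have hnr : (0 : ℝ) < n := by exact_mod_cast (by omega : 0 < n)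
  set W := RF (-(4 * (n : ℤ))) (4 * n) 0 (4 * n) with hW
  have s1 : RF (-(4 * (n : ℤ))) (-(2 * n)) 0 (4 * n) ⊆ W := sub_RF (by omega) (by omega) (by omega) (by omega)
  have s2 : RF (2 * (n : ℤ)) (4 * n) 0 (4 * n) ⊆ W := sub_RF (by omega) (by omega) (by omega) (by omega)
  have s3 : RF (-(4 * (n : ℤ))) (4 * n) (2 * n) (4 * n) ⊆ W := sub_RF (by omega) (by omega) (by omega) (by omega)
  have p1 : c' ≤ pr W (BT 0 (-(4 * (n : ℤ))) (-(2 * n)) 0 (4 * n)) := by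
    rw [pr_BT_window s1]
    exact h' _ _ _ _ _ (by omega) (by omega) (by push_cast; omega)
  have p2 : c' ≤ pr W (BT 0 (2 * (n : ℤ)) (4 * n) 0 (4 * n)) := by
    rw [pr_BT_window s2]
    exact h' _ _ _ _ _ (by omega) (by omega) (by push_cast; omega)
  have p3 : c ≤ pr W (LR 0 (-(4 * (n : ℤ))) (4 * n) (2 * n) (4 * n)) := by
    rw [pr_LR_window s3]
    exact h _ _ _ _ _ (by omega) (by omega) (by push_cast; omega)
  have p4 : c₀ * (1 / 4 : ℝ) ^ (1 / 3 : ℝ) * ((t : ℝ) / n) ^ (1 / 3 : ℝ) ≤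
      pr W (WArm t (4 * n)) := by
    have := h₀ t (4 * n) ht (by omega)
    push_cast at this
    rw [mul_assoc, ← Real.mul_rpow (by norm_num) (by positivity)]
    have e : (1 / 4 : ℝ) * ((t : ℝ) / n) = (t : ℝ) / (4 * n) := by
      field_simp
    rw [e]
    exact this
  have d1 := depOn_mono' (depOn_BT 0 (-(4 * (n : ℤ))) (-(2 * n)) 0 (4 * n)) (coe_subset.2 s1)
  have d2 := depOn_mono' (depOn_BT 0 (2 * (n : ℤ)) (4 * n) 0 (4 * n)) (coe_subset.2 s2)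
  have d3 := depOn_mono' (depOn_LR 0 (-(4 * (n : ℤ))) (4 * n) (2 * n) (4 * n)) (coe_subset.2 s3)
  have d4 : DepOn (W : Set (ℤ × ℤ)) (WArm t (4 * n)) := depOn_WArm t (4 * n)
  have i3 : IncD (parD 0) (LR 0 (-(4 * (n : ℤ))) (4 * n) (2 * n) (4 * n)) := incD_LR _ _ _ _ _
  have i4 := incD_WArm (t : ℤ) (4 * (n : ℤ))
  have q3 := harris _ d3 d4 i3 i4
  have q2 := harris _ d2 (depOn_inter' d3 d4) (incD_BT' _ _ _ _ _) (incD_inter' i3 i4)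
  have q1 := harris _ d1 (depOn_inter' d2 (depOn_inter' d3 d4)) (incD_BT' _ _ _ _ _)
    (incD_inter' (incD_BT' 0 (2 * (n : ℤ)) (4 * n) 0 (4 * n)) (incD_inter' i3 i4))
  set X : ℝ := ((t : ℝ) / n) ^ (1 / 3 : ℝ) with hX
  have hx : 0 ≤ X := by positivity
  have r3 : c * (c₀ * (1 / 4 : ℝ) ^ (1 / 3 : ℝ) * X) ≤ _ :=
    (mul_le_mul p3 p4 (by positivity) (pr_nonneg _ _)).trans q3
  have r2 : c' * (c * (c₀ * (1 / 4 : ℝ) ^ (1 / 3 : ℝ) * X)) ≤ _ :=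
    (mul_le_mul p2 r3 (by positivity) (pr_nonneg _ _)).trans q2
  have r1 : c' * (c' * (c * (c₀ * (1 / 4 : ℝ) ^ (1 / 3 : ℝ) * X))) ≤ _ :=
    (mul_le_mul p1 r2 (by positivity) (pr_nonneg _ _)).trans q1
  calc _ = c' * (c' * (c * (c₀ * (1 / 4 : ℝ) ^ (1 / 3 : ℝ) * X))) := by ring
    _ ≤ _ := r1
    _ ≤ _ := pr_mono _ fun ω hω =>
      oArm_of (by omega) hn' hω.1 hω.2.1 hω.2.2.1 hω.2.2.2

end Pool.Agent.SixB.Third
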