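import Pool.Agent.Lib.SixB.CANeu
import Pool.Agent.Lib.SixB.CARf
import Pool.Agent.Lib.SixB.S4W1

/-!
# 6BD block CA: the column bound `ColB` from the wall theorem (namespace `CAW`)

* `face_iff`: near a flat wall point the lattice domain `rf n P` is the lattice half plane: fields `sub` and
  `below` of `WallAtG (Mot.std k (fl n q)) (dlat ρ n)`.
* `stretch`, `wall_stretch`: the contour runs straight along the wall.
* `colB_of_env`: `WallThm` and `WallAtG` at all wall vertices off `X` give `ColB`; `ColB.mix`: convex combinations.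
-/

set_option autoImplicit false

namespace Pool.Agent.SixB.CAW

open Filter Topology Pool.Agent.Perc Pool.Agent.Perc.Q Relation

noncomputable section

variable {P : Finset (ℤ × ℤ)} {p q ν : ℂ} {ρ : ℝ} {n k : ℕ}

/-! ## Faces of the refinement by their centres -/

/-- centre of the face `f` of the refinement -/
def ctr (n : ℕ) (f : ℤ × ℤ) : ℂ := ⟨((f.1 : ℝ) + 1 / 2) / n, ((f.2 : ℝ) + 1 / 2) / n⟩

theorem half_iff (hn : 0 < n) {a x : ℤ} :
    ((a : ℝ) ≤ ((x : ℝ) + 1 / 2) / n ∧ ((x : ℝ) + 1 / 2) / n ≤ (a : ℝ) + 1) ↔ x / (n : ℤ) = a := by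
  have hn' : (0 : ℝ) < n := by exact_mod_cast hn
  rw [CARf.div_eq_iff' hn, le_div_iff₀ hn', div_le_iff₀ hn']
  constructor
  · rintro ⟨h1, h2⟩
    constructor
    · have h3 : ((n * a : ℤ) : ℝ) < ((x + 1 : ℤ) : ℝ) := by push_cast; linarith
      have h4 : (n : ℤ) * a < x + 1 := by exact_mod_cast h3
      omega
    · have h3 : ((x : ℤ) : ℝ) < ((n * a + n : ℤ) : ℝ) := by push_cast; linarith
      exact_mod_cast h3
  · rintro ⟨h1, h2⟩
    constructor
    · have h3 : ((n * a : ℤ) : ℝ) ≤ ((x : ℤ) : ℝ) := by exact_mod_cast h1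
      push_cast at h3
      linarith
    · have h3 : ((x + 1 : ℤ) : ℝ) ≤ ((n * a + n : ℤ) : ℝ) := by
        have : x + 1 ≤ n * a + n := by omega
        exact_mod_cast this
      push_cast at h3
      linarith

theorem ctr_mem_csq (hn : 0 < n) {f g : ℤ × ℤ} : ctr n f ∈ csq g ↔ g = (f.1 / (n : ℤ), f.2 / (n : ℤ)) := by
  have h1 := half_iff hn (a := g.1) (x := f.1)
  have h2 := half_iff hn (a := g.2) (x := f.2)
  show ((g.1 : ℝ) ≤ ((f.1 : ℝ) + 1 / 2) / n ∧ ((f.1 : ℝ) + 1 / 2) / n ≤ g.1 + 1 ∧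
    (g.2 : ℝ) ≤ ((f.2 : ℝ) + 1 / 2) / n ∧ ((f.2 : ℝ) + 1 / 2) / n ≤ g.2 + 1) ↔ _
  constructor
  · rintro ⟨h3, h4, h5, h6⟩
    exact Prod.ext (h1.mp ⟨h3, h4⟩).symm (h2.mp ⟨h5, h6⟩).symm
  · intro h
    have h3 := h1.mpr (by rw [h])
    have h4 := h2.mpr (by rw [h])
    exact ⟨h3.1, h3.2, h4.1, h4.2⟩

theorem mem_rf_ctr (hn : 0 < n) {f : ℤ × ℤ} : f ∈ rf n P ↔ ctr n f ∈ Cl P := by
  rw [CARf.mem_rf hn, CARf.mem_Cl]
  constructor
  · intro h
    exact ⟨_, h, (ctr_mem_csq hn).mpr rfl⟩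
  · rintro ⟨g, hg, h⟩
    rwa [← (ctr_mem_csq hn).mp h]

/-! ## The wall coordinate is an integer -/

theorem wall_int (h : Wall P q ν) : ∃ a : ℤ, sp q ν = a := by
  obtain ⟨hν, r, hr, h1⟩ := h
  have hq : q ∈ Cl P := by
    rw [h1 q (by simpa using hr)]
    simp [sp]
  obtain ⟨f, hf, h2, h3, h4, h5⟩ := CARf.mem_Cl.mp hq
  have key : ∀ t : ℝ, 0 < t → t < r → q - (t : ℂ) * ν ∉ Cl P := by
    intro t ht htr hh
    have hnt : ‖(q - (t : ℂ) * ν) - q‖ = t := by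
      have hν1 : ‖ν‖ = 1 := by rcases hν with rfl | rfl | rfl | rfl <;> simp
      rw [sub_sub_cancel_left, norm_neg, norm_mul, hν1, mul_one, Complex.norm_real, Real.norm_eq_abs,
        abs_of_pos ht]
    have h6 := (h1 _ (by rw [hnt]; exact htr)).mp hh
    rcases hν with rfl | rfl | rfl | rfl <;> simp [sp] at h6 <;> linarith
  rcases hν with rfl | rfl | rfl | rfl
  · refine ⟨f.1, ?_⟩
    have e : sp q 1 = q.re := by simp [sp]
    rw [e]
    by_contra hne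
    have hlt : (f.1 : ℝ) < q.re := lt_of_le_of_ne h2 (Ne.symm hne)
    refine key (min (r / 2) (q.re - f.1)) (lt_min (by linarith) (by linarith))
      (lt_of_le_of_lt (min_le_left _ _) (by linarith)) (CARf.mem_Cl.mpr ⟨f, hf, ?_⟩)
    have h7 := min_le_right (r / 2) (q.re - f.1)
    have h8 : 0 < min (r / 2) (q.re - f.1) := lt_min (by linarith) (by linarith)
    set t := min (r / 2) (q.re - f.1)
    have e1 : (q - (t : ℂ) * 1).re = q.re - t := by simp
    have e2 : (q - (t : ℂ) * 1).im = q.im := by simp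
    show (f.1 : ℝ) ≤ (q - (t : ℂ) * 1).re ∧ _
    rw [e1, e2]
    exact ⟨by linarith, by linarith, h4, h5⟩
  · refine ⟨-(f.1 + 1), ?_⟩
    have e : sp q (-1) = -q.re := by simp [sp]
    rw [e]
    by_contra hne
    have hlt : q.re < f.1 + 1 := lt_of_le_of_ne h3 (fun hh => hne (by rw [hh]; push_cast; ring))
    refine key (min (r / 2) (f.1 + 1 - q.re)) (lt_min (by linarith) (by linarith))
      (lt_of_le_of_lt (min_le_left _ _) (by linarith)) (CARf.mem_Cl.mpr ⟨f, hf, ?_⟩)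
    have h7 := min_le_right (r / 2) (f.1 + 1 - q.re)
    have h8 : 0 < min (r / 2) (f.1 + 1 - q.re) := lt_min (by linarith) (by linarith)
    set t := min (r / 2) (f.1 + 1 - q.re)
    have e1 : (q - (t : ℂ) * (-1)).re = q.re + t := by simp
    have e2 : (q - (t : ℂ) * (-1)).im = q.im := by simp
    show (f.1 : ℝ) ≤ (q - (t : ℂ) * (-1)).re ∧ _
    rw [e1, e2]
    exact ⟨by linarith, by linarith, h4, h5⟩
  · refine ⟨f.2, ?_⟩
    have e : sp q Complex.I = q.im := by simp [sp]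
    rw [e]
    by_contra hne
    have hlt : (f.2 : ℝ) < q.im := lt_of_le_of_ne h4 (Ne.symm hne)
    refine key (min (r / 2) (q.im - f.2)) (lt_min (by linarith) (by linarith))
      (lt_of_le_of_lt (min_le_left _ _) (by linarith)) (CARf.mem_Cl.mpr ⟨f, hf, ?_⟩)
    have h7 := min_le_right (r / 2) (q.im - f.2)
    have h8 : 0 < min (r / 2) (q.im - f.2) := lt_min (by linarith) (by linarith)
    set t := min (r / 2) (q.im - f.2)
    have e1 : (q - (t : ℂ) * Complex.I).re = q.re := by simp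
    have e2 : (q - (t : ℂ) * Complex.I).im = q.im - t := by simp
    show (f.1 : ℝ) ≤ (q - (t : ℂ) * Complex.I).re ∧ _
    rw [e1, e2]
    exact ⟨h2, h3, by linarith, by linarith⟩
  · refine ⟨-(f.2 + 1), ?_⟩
    have e : sp q (-Complex.I) = -q.im := by simp [sp]
    rw [e]
    by_contra hne
    have hlt : q.im < f.2 + 1 := lt_of_le_of_ne h5 (fun hh => hne (by rw [hh]; push_cast; ring))
    refine key (min (r / 2) (f.2 + 1 - q.im)) (lt_min (by linarith) (by linarith))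
      (lt_of_le_of_lt (min_le_left _ _) (by linarith)) (CARf.mem_Cl.mpr ⟨f, hf, ?_⟩)
    have h7 := min_le_right (r / 2) (f.2 + 1 - q.im)
    have h8 : 0 < min (r / 2) (f.2 + 1 - q.im) := lt_min (by linarith) (by linarith)
    set t := min (r / 2) (f.2 + 1 - q.im)
    have e1 : (q - (t : ℂ) * (-Complex.I)).re = q.re := by simp
    have e2 : (q - (t : ℂ) * (-Complex.I)).im = q.im + t := by simp
    show (f.1 : ℝ) ≤ (q - (t : ℂ) * (-Complex.I)).re ∧ _
    rw [e1, e2]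
    exact ⟨h2, h3, by linarith, by linarith⟩

/-! ## The standard motions -/

theorem tau_eq (k : ℕ) : Mot.tau k = ((Mot.nu k).2, -(Mot.nu k).1) := by
  induction k with
  | zero => rfl
  | succ k ih =>
    show (-(Mot.tau k).2, (Mot.tau k).1) = ((Mot.nu k).1, - -(Mot.nu k).2)
    rw [ih]
    simp

/-- twice the centre of the image of a face -/
theorem rotn_psi (k : ℕ) (f : ℤ × ℤ) :
    2 * ((Mot.rotn k).ψ f).1 + 1 = (2 * f.1 + 1) * (Mot.tau k).1 + (2 * f.2 + 1) * (Mot.nu k).1 ∧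
    2 * ((Mot.rotn k).ψ f).2 + 1 = (2 * f.1 + 1) * (Mot.tau k).2 + (2 * f.2 + 1) * (Mot.nu k).2 := by
  induction k with
  | zero =>
    show 2 * f.1 + 1 = (2 * f.1 + 1) * 1 + (2 * f.2 + 1) * 0 ∧
      2 * f.2 + 1 = (2 * f.1 + 1) * 0 + (2 * f.2 + 1) * 1
    constructor <;> ring
  | succ k ih =>
    obtain ⟨h1, h2⟩ := ih
    show 2 * (-((Mot.rotn k).ψ f).2 - 1) + 1 =
      (2 * f.1 + 1) * (-(Mot.tau k).2) + (2 * f.2 + 1) * (-(Mot.nu k).2) ∧
      2 * ((Mot.rotn k).ψ f).1 + 1 = (2 * f.1 + 1) * (Mot.tau k).1 + (2 * f.2 + 1) * (Mot.nu k).1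
    exact ⟨by linarith, h1⟩

theorem std_psi (k : ℕ) (v f : ℤ × ℤ) :
    2 * ((Mot.std k v).ψ f).1 + 1 =
      2 * v.1 + (2 * f.1 + 1) * (Mot.tau k).1 + (2 * f.2 + 1) * (Mot.nu k).1 ∧
    2 * ((Mot.std k v).ψ f).2 + 1 =
      2 * v.2 + (2 * f.1 + 1) * (Mot.tau k).2 + (2 * f.2 + 1) * (Mot.nu k).2 := by
  obtain ⟨h1, h2⟩ := rotn_psi k f
  show 2 * (((Mot.rotn k).ψ f).1 + v.1) + 1 = _ ∧ 2 * (((Mot.rotn k).ψ f).2 + v.2) + 1 = _
  constructor <;> linarith

theorem dZ_re (hν : IsDir ν) : ((dZ ν).1 : ℝ) = ν.re := by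
  rcases hν with rfl | rfl | rfl | rfl <;> simp [dZ]
  norm_num

theorem dZ_im (hν : IsDir ν) : ((dZ ν).2 : ℝ) = ν.im := by
  rcases hν with rfl | rfl | rfl | rfl <;> simp [dZ]
  norm_num

theorem dZ_tau (hν : IsDir ν) : dZ (-Complex.I * ν) = ((dZ ν).2, -(dZ ν).1) := by
  have h1 := dZ_re (isDir_tau hν)
  have h2 := dZ_im (isDir_tau hν)
  have e1 : (-Complex.I * ν).re = ν.im := by simp
  have e2 : (-Complex.I * ν).im = -ν.re := by simp
  rw [e1, ← dZ_im hν] at h1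
  rw [e2, ← dZ_re hν] at h2
  ext
  · exact_mod_cast h1
  · exact_mod_cast h2

theorem dZ_tau' (hν : IsDir ν) (hk : dZ ν = Mot.nu k) : dZ (-Complex.I * ν) = Mot.tau k := by
  rw [dZ_tau hν, tau_eq, hk]

theorem exists_k (hν : IsDir ν) : ∃ k : ℕ, dZ ν = Mot.nu k := by
  rcases hν with rfl | rfl | rfl | rfl
  · exact ⟨3, by simp [dZ, Mot.nu]⟩
  · exact ⟨1, by simp [dZ, Mot.nu]; norm_num⟩
  · exact ⟨0, by simp [dZ, Mot.nu]⟩
  · exact ⟨2, by simp [dZ, Mot.nu]; norm_num⟩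

/-- the wall coordinate of the rounded wall point -/
theorem fl_sp (hq : Wall P q ν) (n : ℕ) :
    ((fl n q).1 : ℝ) * ν.re + ((fl n q).2 : ℝ) * ν.im = n * sp q ν := by
  obtain ⟨a, ha⟩ := wall_int hq
  rcases hq.1 with rfl | rfl | rfl | rfl
  · have e : sp q 1 = q.re := by simp [sp]
    rw [e] at ha ⊢
    have h1 : ⌊(n : ℝ) * q.re⌋ = n * a := by
      rw [ha]
      exact_mod_cast Int.floor_intCast (R := ℝ) ((n : ℤ) * a)
    simp only [fl, h1, Complex.one_re, Complex.one_im]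
    rw [ha]
    push_cast
    ring
  · have e : sp q (-1) = -q.re := by simp [sp]
    rw [e] at ha ⊢
    have ha' : q.re = ((-a : ℤ) : ℝ) := by push_cast; linarith
    have h1 : ⌊(n : ℝ) * q.re⌋ = n * (-a) := by
      rw [ha']
      exact_mod_cast Int.floor_intCast (R := ℝ) ((n : ℤ) * (-a))
    simp only [fl, h1, Complex.neg_re, Complex.one_re, Complex.neg_im, Complex.one_im]
    rw [ha']
    push_cast
    ring
  · have e : sp q Complex.I = q.im := by simp [sp]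
    rw [e] at ha ⊢
    have h1 : ⌊(n : ℝ) * q.im⌋ = n * a := by
      rw [ha]
      exact_mod_cast Int.floor_intCast (R := ℝ) ((n : ℤ) * a)
    simp only [fl, h1, Complex.I_re, Complex.I_im]
    rw [ha]
    push_cast
    ring
  · have e : sp q (-Complex.I) = -q.im := by simp [sp]
    rw [e] at ha ⊢
    have ha' : q.im = ((-a : ℤ) : ℝ) := by push_cast; linarith
    have h1 : ⌊(n : ℝ) * q.im⌋ = n * (-a) := by
      rw [ha']
      exact_mod_cast Int.floor_intCast (R := ℝ) ((n : ℤ) * (-a))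
    simp only [fl, h1, Complex.neg_re, Complex.I_re, Complex.neg_im, Complex.I_im]
    rw [ha']
    push_cast
    ring

theorem fl_re (n : ℕ) (q : ℂ) : |(n : ℝ) * q.re - (fl n q).1| ≤ 1 := by
  have h1 := Int.floor_le ((n : ℝ) * q.re)
  have h2 := Int.lt_floor_add_one ((n : ℝ) * q.re)
  show |(n : ℝ) * q.re - ((⌊(n : ℝ) * q.re⌋ : ℤ) : ℝ)| ≤ 1
  rw [abs_le]
  constructor <;> linarith

theorem fl_im (n : ℕ) (q : ℂ) : |(n : ℝ) * q.im - (fl n q).2| ≤ 1 := by
  have h1 := Int.floor_le ((n : ℝ) * q.im)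
  have h2 := Int.lt_floor_add_one ((n : ℝ) * q.im)
  show |(n : ℝ) * q.im - ((⌊(n : ℝ) * q.im⌋ : ℤ) : ℝ)| ≤ 1
  rw [abs_le]
  constructor <;> linarith

theorem norm_le_of {z : ℂ} {a : ℝ} (h1 : |z.re| ≤ a) (h2 : |z.im| ≤ a) : ‖z‖ ≤ 3 / 2 * a := by
  have ha : 0 ≤ a := (abs_nonneg _).trans h1
  have h3 : ‖z‖ ^ 2 ≤ (3 / 2 * a) ^ 2 := by
    rw [Complex.sq_norm, Complex.normSq_apply]
    have h4 : z.re * z.re ≤ a * a := by
      rw [← abs_mul_abs_self]
      exact mul_self_le_mul_self (abs_nonneg _) h1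
    have h5 : z.im * z.im ≤ a * a := by
      rw [← abs_mul_abs_self]
      exact mul_self_le_mul_self (abs_nonneg _) h2
    nlinarith [mul_self_nonneg a]
  exact (pow_le_pow_iff_left₀ (norm_nonneg _) (by positivity) (by norm_num)).mp h3

theorem dlat_le (ρ : ℝ) (n : ℕ) : ((dlat ρ n : ℤ) : ℝ) ≤ ρ * n / 8 := Int.floor_le _

theorem le_dlat (hn : 32 < ρ * n) : 4 ≤ dlat ρ n := by
  unfold dlat
  rw [Int.le_floor]
  push_cast
  linarith

/-- **Near a flat wall point the lattice domain is the lattice half plane.** -/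
theorem face_iff (hρ : 0 < ρ) (hf : Flat P p ν ρ) (hq : Wall P q ν) (hqp : ‖q - p‖ < ρ / 2)
    (hk : dZ ν = Mot.nu k) (hn : 32 < ρ * n) {x y : ℤ} (hx : |x| ≤ 2 * dlat ρ n + 1) (hy : -1 ≤ y)
    (hy' : y ≤ 2 * dlat ρ n) : (Mot.std k (fl n q)).ψ (x, y) ∈ rf n P ↔ 0 ≤ y := by
  have hn0 : (0 : ℝ) < n := by
    by_contra h
    have : (n : ℝ) = 0 := le_antisymm (not_lt.mp h) (Nat.cast_nonneg n)
    rw [this, mul_zero] at hn
    norm_num at hn
  have hn1 : 0 < n := by exact_mod_cast hn0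
  have hν := hf.1
  have hnu1 : ((Mot.nu k).1 : ℝ) = ν.re := by rw [← hk, dZ_re hν]
  have hnu2 : ((Mot.nu k).2 : ℝ) = ν.im := by rw [← hk, dZ_im hν]
  have htau1 : ((Mot.tau k).1 : ℝ) = ν.im := by rw [tau_eq]; exact hnu2
  have htau2 : ((Mot.tau k).2 : ℝ) = -ν.re := by rw [tau_eq]; push_cast; rw [hnu1]
  have hunit : ν.re * ν.re + ν.im * ν.im = 1 := by
    rcases hν with rfl | rfl | rfl | rfl <;> simp
  obtain ⟨e1, e2⟩ := std_psi k (fl n q) (x, y)
  set h := (Mot.std k (fl n q)).ψ (x, y) with hh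
  have r1 : (h.1 : ℝ) + 1 / 2 = (fl n q).1 + ((x : ℝ) + 1 / 2) * ν.im + ((y : ℝ) + 1 / 2) * ν.re := by
    have : ((2 * h.1 + 1 : ℤ) : ℝ) = ((2 * (fl n q).1 + (2 * x + 1) * (Mot.tau k).1 +
      (2 * y + 1) * (Mot.nu k).1 : ℤ) : ℝ) := by exact_mod_cast e1
    push_cast at this
    rw [htau1, hnu1] at this
    linarith
  have r2 : (h.2 : ℝ) + 1 / 2 = (fl n q).2 - ((x : ℝ) + 1 / 2) * ν.re + ((y : ℝ) + 1 / 2) * ν.im := by
    have : ((2 * h.2 + 1 : ℤ) : ℝ) = ((2 * (fl n q).2 + (2 * x + 1) * (Mot.tau k).2 +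
      (2 * y + 1) * (Mot.nu k).2 : ℤ) : ℝ) := by exact_mod_cast e2
    push_cast at this
    rw [htau2, hnu2] at this
    linarith
  have hfs := fl_sp hq n
  have c1 : (ctr n h).re = ((h.1 : ℝ) + 1 / 2) / n := rfl
  have c2 : (ctr n h).im = ((h.2 : ℝ) + 1 / 2) / n := rfl
  -- the wall coordinate of the centre
  have hspq : sp (ctr n h - q) ν = ((y : ℝ) + 1 / 2) / n := by
    show ((ctr n h).re - q.re) * ν.re + ((ctr n h).im - q.im) * ν.im = _
    rw [c1, c2, r1, r2, eq_div_iff hn0.ne']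
    have h3 : sp q ν = q.re * ν.re + q.im * ν.im := rfl
    rw [h3] at hfs
    have h4 : ((((fl n q).1 + ((x : ℝ) + 1 / 2) * ν.im + ((y : ℝ) + 1 / 2) * ν.re) / n - q.re) * ν.re +
      (((fl n q).2 - ((x : ℝ) + 1 / 2) * ν.re + ((y : ℝ) + 1 / 2) * ν.im) / n - q.im) * ν.im) * n =
      ((fl n q).1 * ν.re + (fl n q).2 * ν.im - n * (q.re * ν.re + q.im * ν.im)) +
        ((y : ℝ) + 1 / 2) * (ν.re * ν.re + ν.im * ν.im) := by
      field_simp
      ring
    rw [h4, hunit, hfs]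
    ring
  have hsp0 := hf.sp_eq_zero hq (by linarith)
  have hsp : sp (ctr n h - p) ν = ((y : ℝ) + 1 / 2) / n := by
    have : sp (ctr n h - p) ν = sp (ctr n h - q) ν + sp (q - p) ν := by
      simp [sp]; ring
    rw [this, hsp0, add_zero, hspq]
  -- the distance
  have hd := dlat_le ρ n
  have hxR : |(x : ℝ)| ≤ 2 * (dlat ρ n : ℝ) + 1 := by exact_mod_cast hx
  have hyR : |(y : ℝ)| ≤ 2 * (dlat ρ n : ℝ) + 1 := by
    have h1 : |y| ≤ 2 * dlat ρ n + 1 := by
      rw [abs_le]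
      have := le_dlat hn
      constructor <;> linarith
    exact_mod_cast h1
  have hfr := fl_re n q
  have hfi := fl_im n q
  have hνr : |ν.re| + |ν.im| = 1 := by
    rcases hν with rfl | rfl | rfl | rfl <;> simp
  have bound : ∀ s t w : ℝ, |w| ≤ 1 → |s| + |t| = 1 →
      |w + ((x : ℝ) + 1 / 2) * s + ((y : ℝ) + 1 / 2) * t| ≤ 2 * (dlat ρ n : ℝ) + 5 / 2 := by
    intro s t w hw hst
    have g1 : |((x : ℝ) + 1 / 2) * s| ≤ (2 * (dlat ρ n : ℝ) + 3 / 2) * |s| := by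
      rw [abs_mul]
      apply mul_le_mul_of_nonneg_right _ (abs_nonneg s)
      have := abs_add_le (x : ℝ) (1 / 2)
      rw [abs_of_pos (by norm_num : (0 : ℝ) < 1 / 2)] at this
      linarith
    have g2 : |((y : ℝ) + 1 / 2) * t| ≤ (2 * (dlat ρ n : ℝ) + 3 / 2) * |t| := by
      rw [abs_mul]
      apply mul_le_mul_of_nonneg_right _ (abs_nonneg t)
      have := abs_add_le (y : ℝ) (1 / 2)
      rw [abs_of_pos (by norm_num : (0 : ℝ) < 1 / 2)] at this
      linarith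
    have g3 := abs_add_le (w + ((x : ℝ) + 1 / 2) * s) (((y : ℝ) + 1 / 2) * t)
    have g4 := abs_add_le w (((x : ℝ) + 1 / 2) * s)
    have g5 : (2 * (dlat ρ n : ℝ) + 3 / 2) * |s| + (2 * (dlat ρ n : ℝ) + 3 / 2) * |t| =
      2 * (dlat ρ n : ℝ) + 3 / 2 := by rw [← mul_add, hst, mul_one]
    linarith
  have hdist : ‖ctr n h - q‖ ≤ 3 / 2 * ((2 * (dlat ρ n : ℝ) + 5 / 2) / n) := by
    apply norm_le_of
    · rw [Complex.sub_re, c1, r1]
      have h1 : ((fl n q).1 + ((x : ℝ) + 1 / 2) * ν.im + ((y : ℝ) + 1 / 2) * ν.re) / n - q.re =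
        ((((fl n q).1 : ℝ) - n * q.re) + ((x : ℝ) + 1 / 2) * ν.im + ((y : ℝ) + 1 / 2) * ν.re) / n := by
        field_simp
        ring
      rw [h1, abs_div, abs_of_pos hn0]
      apply div_le_div_of_nonneg_right _ hn0.le
      exact bound ν.im ν.re _ (by rw [abs_sub_comm]; exact hfr) (by rw [add_comm]; exact hνr)
    · rw [Complex.sub_im, c2, r2]
      have h1 : ((fl n q).2 - ((x : ℝ) + 1 / 2) * ν.re + ((y : ℝ) + 1 / 2) * ν.im) / n - q.im =
        ((((fl n q).2 : ℝ) - n * q.im) + ((x : ℝ) + 1 / 2) * (-ν.re) + ((y : ℝ) + 1 / 2) * ν.im) / n := by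
        field_simp
        ring
      rw [h1, abs_div, abs_of_pos hn0]
      apply div_le_div_of_nonneg_right _ hn0.le
      exact bound (-ν.re) ν.im _ (by rw [abs_sub_comm]; exact hfi) (by rw [abs_neg]; exact hνr)
  have hclose : ‖ctr n h - p‖ < ρ := by
    have h1 : ‖ctr n h - p‖ ≤ ‖ctr n h - q‖ + ‖q - p‖ := by
      have := norm_add_le (ctr n h - q) (q - p)
      rwa [sub_add_sub_cancel] at this
    have h2 : 3 / 2 * ((2 * (dlat ρ n : ℝ) + 5 / 2) / n) ≤ ρ / 2 := by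
      rw [mul_div_assoc', div_le_iff₀ hn0]
      nlinarith
    linarith
  rw [mem_rf_ctr hn1, hf.2 _ hclose, hsp]
  constructor
  · intro h1
    have h2 : 0 ≤ (y : ℝ) + 1 / 2 := by
      by_contra h3
      have := div_neg_of_neg_of_pos (not_le.mp h3) hn0
      linarith
    have h3 : (-1 : ℝ) < ((y : ℤ) : ℝ) := by linarith
    have h4 : (-1 : ℤ) < y := by exact_mod_cast h3
    omega
  · intro h1
    have h2 : (0 : ℝ) ≤ (y : ℝ) := by exact_mod_cast h1
    positivity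

/-! ## The contour along a wall -/

/-- the wall sides of the domain, in the direction of the contour -/
theorem lside_wall (hρ : 0 < ρ) (hf : Flat P p ν ρ) (hq : Wall P q ν) (hqp : ‖q - p‖ < ρ / 2)
    (hk : dZ ν = Mot.nu k) (hn : 32 < ρ * n) {i : ℤ} (hi : |i| ≤ 2 * dlat ρ n + 1) :
    LSide (rf n P) (fl n q + i • Mot.tau k) (fl n q + (i + 1) • Mot.tau k) := by
  have hd := le_dlat hn
  have h1 := (face_iff hρ hf hq hqp hk hn hi (y := 0) (by norm_num) (by omega)).mpr le_rfl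
  have h2 : (Mot.std k (fl n q)).ψ (i, -1) ∉ rf n P := fun h =>
    absurd ((face_iff hρ hf hq hqp hk hn hi (y := -1) le_rfl (by omega)).mp h) (by norm_num)
  obtain ⟨e1, e2⟩ := std_psi k (fl n q) (i, 0)
  obtain ⟨e3, e4⟩ := std_psi k (fl n q) (i, -1)
  have hτ := tau_eq k
  have hcase : Mot.nu k = (1, 0) ∨ Mot.nu k = (-1, 0) ∨ Mot.nu k = (0, 1) ∨ Mot.nu k = (0, -1) := by
    rw [← hk]
    rcases hf.1 with rfl | rfl | rfl | rfl
    · left; simp [dZ]
    · right; left; simp [dZ]; norm_num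
    · right; right; left; simp [dZ]
    · right; right; right; simp [dZ]; norm_num
  set v := fl n q
  have key : ∀ {f g f' g' : ℤ × ℤ}, f ∈ rf n P → g ∉ rf n P → f.1 = f'.1 → f.2 = f'.2 → g.1 = g'.1 → g.2 = g'.2 →
      f' ∈ rf n P ∧ g' ∉ rf n P := by
    intro f g f' g' h3 h4 a1 a2 a3 a4
    have b1 : f = f' := Prod.ext a1 a2
    have b2 : g = g' := Prod.ext a3 a4
    rw [← b1, ← b2]
    exact ⟨h3, h4⟩
  rcases hcase with hc | hc | hc | hc <;> rw [hτ, hc] at e1 e2 e3 e4 <;> rw [hτ, hc]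
  · right; right; right
    simp only at e1 e2 e3 e4
    refine ⟨?_, ?_⟩
    · ext
      · simp
      · simp; ring
    · refine key h1 h2 ?_ ?_ ?_ ?_ <;> simp <;> linarith
  · right; left
    simp only at e1 e2 e3 e4
    refine ⟨?_, ?_⟩
    · ext
      · simp
      · simp; ring
    · refine key h1 h2 ?_ ?_ ?_ ?_ <;> simp <;> linarith
  · left
    simp only at e1 e2 e3 e4
    refine ⟨?_, ?_⟩
    · ext
      · simp; ring
      · simp
    · refine key h1 h2 ?_ ?_ ?_ ?_ <;> simp <;> linarith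
  · right; right; left
    simp only at e1 e2 e3 e4
    refine ⟨?_, ?_⟩
    · ext
      · simp; ring
      · simp
    · refine key h1 h2 ?_ ?_ ?_ ?_ <;> simp <;> linarith

theorem per_mul {F : Finset (ℤ × ℤ)} {L : ℕ} {b : ℤ → ℤ × ℤ} (hb : Cont F L b) (k c : ℤ) :
    b (k + c * L) = b k := by
  have h1 : ∀ m : ℕ, ∀ k : ℤ, b (k + m * L) = b k := by
    intro m
    induction m with
    | zero => intro k; simp
    | succ m ih =>
      intro k
      have e : k + ((m + 1 : ℕ) : ℤ) * L = (k + m * L) + L := by push_cast; ring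
      rw [e, hb.per, ih]
  obtain ⟨m, rfl | rfl⟩ := c.eq_nat_or_neg
  · exact h1 m k
  · have := h1 m (k + -(m : ℤ) * L)
    rw [← this]
    congr 1
    ring

theorem eq_of_dvd {F : Finset (ℤ × ℤ)} {L : ℕ} {b : ℤ → ℤ × ℤ} (hb : Cont F L b) {j k : ℤ}
    (h : (L : ℤ) ∣ j - k) : b j = b k := by
  obtain ⟨c, hc⟩ := h
  have e : j = k + c * L := by rw [mul_comm]; linarith
  rw [e, per_mul hb]

/-- a straight row of sides is a stretch of the contour -/
theorem stretch {F : Finset (ℤ × ℤ)} {L : ℕ} {b : ℤ → ℤ × ℤ} (hb : Cont F L b) {v τ : ℤ × ℤ} {A : ℤ}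
    (hA : 0 ≤ A) (hs : ∀ i : ℤ, |i| ≤ A → LSide F (v + i • τ) (v + (i + 1) • τ)) :
    ∃ k0 : ℤ, ∀ i : ℤ, -A ≤ i → i ≤ A + 1 → b (k0 + i) = v + i • τ := by
  obtain ⟨k1, h1, h2⟩ := hb.all _ _ (hs (-A) (by rw [abs_neg, abs_of_nonneg hA]))
  have key : ∀ j : ℕ, (j : ℤ) ≤ 2 * A + 1 → b (k1 + j) = v + (-A + j) • τ := by
    intro j
    induction j with
    | zero => intro _; simpa using h1
    | succ j ih =>
      intro hj
      have h3 := ih (by push_cast at hj; omega)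
      obtain ⟨k', h4, h5⟩ := hb.all _ _ (hs (-A + j) (by rw [abs_le]; push_cast at hj; constructor <;> omega))
      have h6 := hb.inj _ _ (h4.trans h3.symm)
      have h7 : b (k1 + ((j + 1 : ℕ) : ℤ)) = b (k' + 1) := by
        refine eq_of_dvd hb ?_
        have e : k1 + ((j + 1 : ℕ) : ℤ) - (k' + 1) = -(k' - (k1 + j)) := by push_cast; ring
        rw [e]
        exact h6.neg_right
      rw [h7, h5]
      congr 2
      push_cast
      ring
  refine ⟨k1 + A, fun i hi1 hi2 => ?_⟩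
  have h3 := key (i + A).toNat (by rw [Int.toNat_of_nonneg (by omega)]; omega)
  rw [Int.toNat_of_nonneg (by omega)] at h3
  have e1 : k1 + A + i = k1 + (i + A) := by ring
  have e2 : -A + (i + A) = i := by ring
  rw [e1, h3, e2]

/-- **the contour of the refinement runs straight along a flat wall** -/
theorem wall_stretch {L : ℕ} {g : ℤ → ℤ × ℤ} (hg : Cont P L g) (hρ : 0 < ρ) (hf : Flat P p ν ρ)
    (hq : Wall P q ν) (hqp : ‖q - p‖ < ρ / 2) (hk : dZ ν = Mot.nu k) (hn : 32 < ρ * n) :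
    ∃ k0 : ℤ, ∀ i : ℤ, -(2 * dlat ρ n + 1) ≤ i → i ≤ 2 * dlat ρ n + 2 →
      gr n g (k0 + i) = fl n q + i • Mot.tau k := by
  have hd := le_dlat hn
  have hn0 : 0 < n := by
    rcases Nat.eq_zero_or_pos n with rfl | h
    · simp at hn; linarith
    · exact h
  obtain ⟨k0, h⟩ := stretch (CARf.cont_rf hg hn0) (v := fl n q) (τ := Mot.tau k) (A := 2 * dlat ρ n + 1)
    (by omega) fun i hi => lside_wall hρ hf hq hqp hk hn hi
  exact ⟨k0, fun i h1 h2 => h i h1 (by omega)⟩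

/-! ## The column bound -/

/-- the geometric fields of the wall condition -/
theorem wallAtG_of (hρ : 0 < ρ) (hf : Flat P p ν ρ) (hq : Wall P q ν) (hqp : ‖q - p‖ < ρ / 2)
    (hk : dZ ν = Mot.nu k) (hn : 32 < ρ * n) :
    (Mot.std k (fl n q)).im (HB0 (2 * dlat ρ n)) ⊆ rf n P ∧
    ∀ i : ℤ, -(2 * dlat ρ n) ≤ i → i ≤ 2 * dlat ρ n → (Mot.std k (fl n q)).ψ (i, -1) ∉ rf n P := by
  have hd := le_dlat hn
  constructor
  · intro f hfm
    obtain ⟨⟨x, y⟩, hxy, rfl⟩ := Finset.mem_image.mp hfm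
    rw [mem_HB0] at hxy
    refine (face_iff hρ hf hq hqp hk hn ?_ ?_ ?_).mpr hxy.2.1
    · rw [abs_le]
      constructor
      · have := hxy.1.1
        simp only at this
        omega
      · have := hxy.1.2
        simp only at this
        omega
    · have := hxy.2.1
      simp only at this
      omega
    · have := hxy.2.2
      simp only at this
      omega
  · intro i h1 h2 h3
    have h4 := (face_iff hρ hf hq hqp hk hn (x := i) (y := -1) (by rw [abs_le]; constructor <;> omega)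
      le_rfl (by omega)).mp h3
    norm_num at h4

/-- increments along a line -/
theorem hD_eq {E : WEnv} {u : ℤ × ℤ → ℝ} {p v : VZ} {m : ℕ}
    (hu : ∀ j : ℕ, j < m → u (p + ((j : ℤ) + 1) • v) - u (p + (j : ℤ) • v) =
      E.mA (p + ((j : ℤ) + 1) • v, p + (j : ℤ) • v)) :
    E.hD p v m = u (p + (m : ℤ) • v) - u p := by
  unfold WEnv.hD
  induction m with
  | zero => simp
  | succ m ih =>
    rw [Finset.sum_range_succ, ih fun j hj => hu j (by omega), ← hu m (Nat.lt_succ_self m)]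
    push_cast
    ring

theorem colB_of_env (HW : WallThm) : ∃ c : ℝ, 0 < c ∧ ∀ {ι : Type*} (l : Filter ι) (n : ι → ℕ)
    (P : Finset (ℤ × ℤ)) (X : Set ℂ) (E : ι → WEnv) (u : ι → ℤ × ℤ → ℝ),
    (∀ᶠ i in l, ∀ a ∈ dE ZQ (E i).F, u i a.1 - u i a.2 = (E i).mA a) →
    (∀ (p ν : ℂ) (ρ₀ : ℝ), 0 < ρ₀ → Flat P p ν ρ₀ → (∀ x ∈ X, ρ₀ ≤ ‖x - p‖) → ∃ d₀ : ℝ, 0 < d₀ ∧
      ∀ ρ : ℝ, 0 < ρ → ρ ≤ d₀ → ∃ M : ℝ, ∀ᶠ i in l,
      ∀ q : ℂ, Wall P q ν → ‖q - p‖ < ρ / 2 → ∃ k : ℕ, dZ ν = Mot.nu k ∧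
        WallAtG (E i) (Mot.std k (fl (n i) q)) (dlat ρ (n i)) M) →
    ColB l n P X c u := by
  obtain ⟨C, c, hC, hc, h⟩ := wallThm_std HW
  refine ⟨c, hc, fun {ι} l n P X E u hu hE p ν ρ₀ hρ₀ hf hX => ?_⟩
  obtain ⟨d₀, hd₀, hE'⟩ := hE p ν ρ₀ hρ₀ hf hX
  refine ⟨d₀, hd₀, fun ρ hρ hρd => ?_⟩
  obtain ⟨M, hM⟩ := hE' ρ hρ hρd
  refine ⟨C * M, ?_⟩
  filter_upwards [hM, hu] with i hMi hui q hq hqp r y' m h1 h2 h3 h4
  obtain ⟨k, hk, hW⟩ := hMi q hq hqp
  have h5 := h (E i) k (fl (n i) q) (dlat ρ (n i)) M hW r y' m h1 h2 h3 h4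
  have hd : r ≤ dlat ρ (n i) := by omega
  have hy : 0 < y' := by omega
  have edge : ∀ (x : ℤ), 0 ≤ x → x ≤ 1 → ∀ j : ℕ, j < m →
      u i (fl (n i) q + x • Mot.tau k + y' • Mot.nu k + ((j : ℤ) + 1) • Mot.nu k) -
        u i (fl (n i) q + x • Mot.tau k + y' • Mot.nu k + (j : ℤ) • Mot.nu k) =
      (E i).mA (fl (n i) q + x • Mot.tau k + y' • Mot.nu k + ((j : ℤ) + 1) • Mot.nu k,
        fl (n i) q + x • Mot.tau k + y' • Mot.nu k + (j : ℤ) • Mot.nu k) := by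
    intro x hx0 hx1 j hj
    refine hui (_, _) ?_
    have h6 : WEnv.pe x (y' + j) ∈ dE ZQ (HB0 (2 * dlat ρ (n i))) :=
      pe_mem (by omega) hx0 hx1 (by omega) (by omega)
    have h7 := (Mot.std k (fl (n i) q)).mem_dE_e.mpr h6
    have h8 := dE_mono hW.sub h7
    have e : (Mot.std k (fl (n i) q)).e (WEnv.pe x (y' + j)) =
        (fl (n i) q + x • Mot.tau k + y' • Mot.nu k + ((j : ℤ) + 1) • Mot.nu k,
          fl (n i) q + x • Mot.tau k + y' • Mot.nu k + (j : ℤ) • Mot.nu k) := by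
      unfold WEnv.pe
      rw [Mot.e_mk, Mot.std_phi, Mot.std_phi]
      refine Prod.ext ?_ ?_
      · simp only
        rw [add_assoc (fl (n i) q + x • Mot.tau k), ← add_smul]
        congr 2
        ring
      · simp only
        rw [add_assoc (fl (n i) q + x • Mot.tau k), ← add_smul]
    rwa [e] at h8
  have e1 : (E i).hD (fl (n i) q + y' • Mot.nu k) (Mot.nu k) m =
      u i (fl (n i) q + (y' + m) • Mot.nu k) - u i (fl (n i) q + y' • Mot.nu k) := by
    rw [hD_eq (u := u i) fun j hj => ?_]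
    · rw [add_assoc, ← add_smul]
    · have := edge 0 le_rfl zero_le_one j hj
      rwa [zero_smul, add_zero] at this
  have e2 : (E i).hD (fl (n i) q + Mot.tau k + y' • Mot.nu k) (Mot.nu k) m =
      u i (fl (n i) q + Mot.tau k + (y' + m) • Mot.nu k) - u i (fl (n i) q + Mot.tau k + y' • Mot.nu k) := by
    rw [hD_eq (u := u i) fun j hj => ?_]
    · rw [add_assoc (fl (n i) q + Mot.tau k), ← add_smul]
    · have := edge 1 zero_le_one le_rfl j hj
      rwa [one_smul] at this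
  rw [e1, e2] at h5
  rw [hk, dZ_tau' hf.1 hk]
  exact h5

/-- convex combinations -/
theorem _root_.Pool.Agent.SixB.ColB.mix {ι : Type*} {l : Filter ι} {n : ι → ℕ} {P : Finset (ℤ × ℤ)}
    {X : Set ℂ} {c : ℝ} {u u' : ι → ℤ × ℤ → ℝ} (h : ColB l n P X c u) (h' : ColB l n P X c u')
    {a b : ι → ℝ} (ha : ∀ᶠ i in l, 0 ≤ a i) (hb : ∀ᶠ i in l, 0 ≤ b i) (hab : ∀ᶠ i in l, a i + b i = 1) :
    ColB l n P X c fun i v => a i * u i v + b i * u' i v := by
  intro p ν ρ₀ hρ₀ hf hX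
  obtain ⟨d₁, hd₁, h₁⟩ := h p ν ρ₀ hρ₀ hf hX
  obtain ⟨d₂, hd₂, h₂⟩ := h' p ν ρ₀ hρ₀ hf hX
  refine ⟨min d₁ d₂, lt_min hd₁ hd₂, fun ρ hρ hρd => ?_⟩
  obtain ⟨M, hM⟩ := h₁ ρ hρ (hρd.trans (min_le_left _ _))
  obtain ⟨M', hM'⟩ := h₂ ρ hρ (hρd.trans (min_le_right _ _))
  refine ⟨|M| + |M'|, ?_⟩
  filter_upwards [hM, hM', ha, hb, hab] with i h1 h2 ha hb hab q hq hqp r y' m hr hr' hm hd
  have h3 := h1 q hq hqp r y' m hr hr' hm hd
  have h4 := h2 q hq hqp r y' m hr hr' hm hd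
  set D := (flatEnv (dlat ρ (n i))).dU2 (y' + m) y'
  set R := ((r : ℝ) / dlat ρ (n i)) ^ (1 + c)
  have hR : 0 ≤ R := by
    have h5 : (0 : ℝ) ≤ (r : ℝ) := by
      have : (0 : ℤ) ≤ r := by omega
      exact_mod_cast this
    have h6 : (0 : ℝ) ≤ (dlat ρ (n i) : ℝ) := by
      have : (0 : ℤ) ≤ dlat ρ (n i) := by omega
      exact_mod_cast this
    positivity
  set x1 := u i (fl (n i) q + (y' + m) • dZ ν)
  set x2 := u i (fl (n i) q + y' • dZ ν)
  set x3 := u i (fl (n i) q + dZ (-Complex.I * ν) + (y' + m) • dZ ν)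
  set x4 := u i (fl (n i) q + dZ (-Complex.I * ν) + y' • dZ ν)
  set x1' := u' i (fl (n i) q + (y' + m) • dZ ν)
  set x2' := u' i (fl (n i) q + y' • dZ ν)
  set x3' := u' i (fl (n i) q + dZ (-Complex.I * ν) + (y' + m) • dZ ν)
  set x4' := u' i (fl (n i) q + dZ (-Complex.I * ν) + y' • dZ ν)
  have e : (a i * x1 + b i * x1' - (a i * x2 + b i * x2')) + (a i * x3 + b i * x3' - (a i * x4 + b i * x4')) - D =
      a i * ((x1 - x2) + (x3 - x4) - D) + b i * ((x1' - x2') + (x3' - x4') - D) := by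
    have : D = (a i + b i) * D := by rw [hab, one_mul]
    nth_rw 1 [this]
    ring
  rw [e]
  have h5 : |a i * ((x1 - x2) + (x3 - x4) - D)| ≤ |M| * R := by
    rw [abs_mul, abs_of_nonneg ha]
    calc a i * |(x1 - x2) + (x3 - x4) - D| ≤ 1 * |(x1 - x2) + (x3 - x4) - D| :=
          mul_le_mul_of_nonneg_right (by linarith) (abs_nonneg _)
      _ ≤ M * R := by rw [one_mul]; exact h3
      _ ≤ |M| * R := mul_le_mul_of_nonneg_right (le_abs_self M) hR
  have h6 : |b i * ((x1' - x2') + (x3' - x4') - D)| ≤ |M'| * R := by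
    rw [abs_mul, abs_of_nonneg hb]
    calc b i * |(x1' - x2') + (x3' - x4') - D| ≤ 1 * |(x1' - x2') + (x3' - x4') - D| :=
          mul_le_mul_of_nonneg_right (by linarith) (abs_nonneg _)
      _ ≤ M' * R := by rw [one_mul]; exact h4
      _ ≤ |M'| * R := mul_le_mul_of_nonneg_right (le_abs_self M') hR
  refine (abs_add_le _ _).trans ?_
  rw [add_mul]
  exact add_le_add h5 h6

end

end Pool.Agent.SixB.CAW
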