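import Pool.Agent.Lib.SixB.CAWall
import Pool.Agent.Lib.SixB.CAEnvE

/-!
# 6BD block CA: the column bound for the environments of a marked polygon (namespace `CAW`)

* `wallAtG_envJ`: a flat wall point whose half disc of radius `ρ` contains no mark: all fields of `WallAtG` for
  `envJ P L g n j`; only `Zpos` and the majorant `maj` are hypotheses.
* `MajB`: the majorants at all wall points off `X`; `colB_envJ`: `WallThm` and `MajB` give `ColB`.
* `colB_uN`, `colB_uP`, `colB_uX`: the functions of `CAIn`.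
-/

set_option autoImplicit false

namespace Pool.Agent.SixB.CAW

open Filter Topology Pool.Agent.Perc Pool.Agent.Perc.Q Relation
open Ht (tJ dJ)

noncomputable section

variable {P : Finset (ℤ × ℤ)} {p q ν : ℂ} {ρ : ℝ} {n k : ℕ} {L : ℕ} {g : ℤ → ℤ × ℤ}

theorem tJ_zero : tJ 0 = 1 := by
  unfold Ht.tJ
  rw [zero_sub, Real.cos_neg, div_self]
  rw [Real.cos_pi_div_six]
  positivity

theorem dJ_zero : dJ 0 = 1 / Real.sqrt 3 := by
  unfold Ht.dJ
  rw [sub_zero, Real.sin_pi_div_six, Real.cos_pi_div_six]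
  have h : Real.sqrt 3 ≠ 0 := by positivity
  field_simp

theorem csum_zero {j : ℤ → ℝ} {i k : ℤ} (h : ∀ v : ℤ, i < v → v ≤ k → j v = 0) : csum j i k = 0 := by
  unfold csum
  exact Finset.sum_eq_zero fun v hv => by
    rw [Finset.mem_Ioc] at hv
    exact h v hv.1 hv.2

/-- every boundary side is a side of the contour -/
theorem exists_csd {F : Finset (ℤ × ℤ)} {m : ℕ} {b : ℤ → ℤ × ℤ} (hc : Cont F m b) {a : DZ}
    (ha : a ∈ bS ZQ F) : ∃ κ : ℤ, a = csd b κ := by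
  obtain ⟨h1, h2⟩ := mem_bS.mp ha
  have h3 : LSide F a.1 a.2 := by
    rw [lside_sides]
    have h4 : a.swap ∉ Sides ZQ (F : Set (ℤ × ℤ)) := by
      rintro ⟨f, hf, l, hl⟩
      refine h2 f hf l ?_
      have h5 : a = (sd ZQ f l).swap := by rw [← hl, Prod.swap_swap]
      exact h5
    refine ⟨?_, h4⟩
    obtain ⟨f, hf, l, h5 | h5⟩ := mem_dE.mp h1
    · exact ⟨f, by exact_mod_cast hf, l, h5⟩
    · exfalso
      apply h4
      refine ⟨f, by exact_mod_cast hf, l, ?_⟩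
      rw [h5, Prod.swap_swap]
  obtain ⟨κ, h4, h5⟩ := hc.all _ _ h3
  exact ⟨κ, Prod.ext h4.symm h5.symm⟩

/-- no mark on the wall stretch -/
theorem jump_zero (hqp : ‖q - p‖ < ρ / 2) (hn : 32 < ρ * n) (hν : IsDir ν) (hk : dZ ν = Mot.nu k)
    {j : ℤ → ℝ} (hj : ∀ v : ℤ, j v ≠ 0 → 7 / 8 * ρ ≤ ‖gam g ((v : ℝ) / n) - p‖) {v i : ℤ}
    (hv : gr n g v = fl n q + i • Mot.tau k) (hi : |i| ≤ 2 * dlat ρ n + 1) : j v = 0 := by
  by_contra hne
  have h1 := hj v hne
  have hn0 : (0 : ℝ) < n := by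
    by_contra h
    have : (n : ℝ) = 0 := le_antisymm (not_lt.mp h) (Nat.cast_nonneg n)
    rw [this, mul_zero] at hn
    norm_num at hn
  have hn1 : 0 < n := by exact_mod_cast hn0
  have hnu1 : ((Mot.nu k).1 : ℝ) = ν.re := by rw [← hk, dZ_re hν]
  have hnu2 : ((Mot.nu k).2 : ℝ) = ν.im := by rw [← hk, dZ_im hν]
  have htau1 : ((Mot.tau k).1 : ℝ) = ν.im := by rw [tau_eq]; exact hnu2
  have htau2 : ((Mot.tau k).2 : ℝ) = -ν.re := by rw [tau_eq]; push_cast; rw [hnu1]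
  have hνr : |ν.re| + |ν.im| = 1 := by
    rcases hν with rfl | rfl | rfl | rfl <;> simp
  have hd := dlat_le ρ n
  have hiR : |(i : ℝ)| ≤ 2 * (dlat ρ n : ℝ) + 1 := by exact_mod_cast hi
  have h2 : gam g ((v : ℝ) / n) = ⟨((fl n q).1 + i * ν.im) / n, ((fl n q).2 - i * ν.re) / n⟩ := by
    rw [CARf.gam_div g hn1 v, hv]
    have e1 : ((fl n q + i • Mot.tau k).1 : ℝ) = (fl n q).1 + i * ν.im := by
      rw [Prod.fst_add, Prod.smul_fst, smul_eq_mul, ← htau1]
      push_cast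
      ring
    have e2 : ((fl n q + i • Mot.tau k).2 : ℝ) = (fl n q).2 - i * ν.re := by
      rw [Prod.snd_add, Prod.smul_snd, smul_eq_mul]
      push_cast
      rw [htau2]
      ring
    rw [e1, e2]
  have hfr := fl_re n q
  have hfi := fl_im n q
  have h3 : ‖gam g ((v : ℝ) / n) - q‖ ≤ (2 * (dlat ρ n : ℝ) + 3) / n := by
    have h4 : gam g ((v : ℝ) / n) - q = ⟨((fl n q).1 - n * q.re) / n, ((fl n q).2 - n * q.im) / n⟩ +
        ⟨i * ν.im / n, -(i * ν.re / n)⟩ := by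
      rw [h2]
      apply Complex.ext
      · simp only [Complex.sub_re, Complex.add_re]
        field_simp
        ring
      · simp only [Complex.sub_im, Complex.add_im]
        field_simp
        ring
    rw [h4]
    refine (norm_add_le _ _).trans ?_
    have h5 : ‖(⟨((fl n q).1 - n * q.re) / n, ((fl n q).2 - n * q.im) / n⟩ : ℂ)‖ ≤ 2 / n := by
      have := norm_le_of (z := (⟨((fl n q).1 - n * q.re) / n, ((fl n q).2 - n * q.im) / n⟩ : ℂ))
        (a := 1 / n) (by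
          show |((fl n q).1 - n * q.re) / n| ≤ 1 / n
          rw [abs_div, abs_of_pos hn0, abs_sub_comm]
          exact div_le_div_of_nonneg_right hfr hn0.le) (by
          show |((fl n q).2 - n * q.im) / n| ≤ 1 / n
          rw [abs_div, abs_of_pos hn0, abs_sub_comm]
          exact div_le_div_of_nonneg_right hfi hn0.le)
      refine this.trans ?_
      rw [mul_one_div]
      exact div_le_div_of_nonneg_right (by norm_num) hn0.le
    have h6 : ‖(⟨i * ν.im / n, -(i * ν.re / n)⟩ : ℂ)‖ ≤ (2 * (dlat ρ n : ℝ) + 1) / n := by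
      refine (Complex.norm_le_abs_re_add_abs_im _).trans ?_
      show |i * ν.im / n| + |-(i * ν.re / n)| ≤ _
      rw [abs_neg, abs_div, abs_div, abs_mul, abs_mul, abs_of_pos hn0, ← add_div, ← mul_add, add_comm |ν.im|,
        hνr, mul_one]
      exact div_le_div_of_nonneg_right hiR hn0.le
    calc _ ≤ 2 / (n : ℝ) + (2 * (dlat ρ n : ℝ) + 1) / n := add_le_add h5 h6
      _ = (2 * (dlat ρ n : ℝ) + 3) / n := by rw [← add_div]; congr 1; ring
  have h4 : ‖gam g ((v : ℝ) / n) - p‖ ≤ ‖gam g ((v : ℝ) / n) - q‖ + ‖q - p‖ := by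
    have := norm_add_le (gam g ((v : ℝ) / n) - q) (q - p)
    rwa [sub_add_sub_cancel] at this
  have h5 : (2 * (dlat ρ n : ℝ) + 3) / n ≤ 3 / 8 * ρ := by
    rw [div_le_iff₀ hn0]
    nlinarith
  linarith

/-- **The wall condition for the environment of a marked polygon**: everything except the majorant and the positivity
of the partition function. -/
theorem wallAtG_envJ (hg : Cont P L g) (hρ : 0 < ρ) (hf : Flat P p ν ρ) (hq : Wall P q ν)
    (hqp : ‖q - p‖ < ρ / 2) (hk : dZ ν = Mot.nu k) (hn : 32 < ρ * n) {j : ℤ → ℝ}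
    (hjp : ∀ v, j (v + ((n * L : ℕ) : ℤ)) = j v) (h0 : csum j 0 ((n * L : ℕ) : ℤ) = Real.pi / 3)
    (hj : ∀ v : ℤ, j v ≠ 0 → 7 / 8 * ρ ≤ ‖gam g ((v : ℝ) / n) - p‖) {M : ℝ}
    (hZ : 0 < (envJ P L g n j).Z)
    (hM : ∃ H : Cfg → ℝ, Dep (((envJ P L g n j).F \ (Mot.std k (fl n q)).im (HB0 (dlat ρ n)) :
        Finset (ℤ × ℤ)) : Set (ℤ × ℤ)) H ∧ (∀ ω, |(envJ P L g n j).W ω| ≤ H ω) ∧
      (∀ ω, ∀ e ∈ dE ZQ ((Mot.std k (fl n q)).im (HB0 (dlat ρ n))), |(envJ P L g n j).num ω e| ≤ 2 * H ω) ∧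
      av (envJ P L g n j).F H ≤ M * (envJ P L g n j).Z) :
    WallAtG (envJ P L g n j) (Mot.std k (fl n q)) (dlat ρ n) M := by
  obtain ⟨k0, hk0⟩ := wall_stretch hg hρ hf hq hqp hk hn
  have hd4 := le_dlat hn
  set d := dlat ρ n with hd
  have hn1 : 0 < n := by
    rcases Nat.eq_zero_or_pos n with rfl | h
    · simp at hn; linarith
    · exact h
  have hc := CARf.cont_rf hg hn1
  have hm0 : (0 : ℤ) < ((n * L : ℕ) : ℤ) := by exact_mod_cast hc.pos
  have hτ : Mot.tau k ≠ 0 := by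
    rw [tau_eq]
    intro h
    have h1 : (Mot.nu k).2 = 0 := congrArg Prod.fst h
    have h2 : -(Mot.nu k).1 = 0 := congrArg Prod.snd h
    rw [← hk] at h1 h2
    have h3 := dZ_re hf.1
    have h4 := dZ_im hf.1
    rw [h1] at h4
    have h5 : (dZ ν).1 = 0 := by linarith
    rw [h5] at h3
    rcases hf.1 with rfl | rfl | rfl | rfl <;> simp at h3 h4
  -- the period is long
  have hlong : 4 * d + 3 < ((n * L : ℕ) : ℤ) := by
    by_contra hcon
    have h1 := hk0 (-(2 * d + 1)) le_rfl (by omega)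
    have h2 := hk0 (-(2 * d + 1) + ((n * L : ℕ) : ℤ)) (by omega) (by omega)
    have h3 := hc.per (k0 + -(2 * d + 1))
    rw [add_assoc, h2, h1] at h3
    have h4 : ((n * L : ℕ) : ℤ) • Mot.tau k = 0 := by
      rw [add_smul, ← add_assoc] at h3
      exact add_eq_left.mp h3
    rcases smul_eq_zero.mp h4 with h5 | h5
    · omega
    · exact hτ h5
  -- the jumps vanish on the stretch
  have hj0 : ∀ i : ℤ, |i| ≤ 2 * d + 1 → j (k0 + i) = 0 := by
    intro i hi
    have := abs_le.mp hi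
    exact jump_zero hqp hn hf.1 hk hj (hk0 i this.1 (by omega)) hi
  -- the wall sides
  have hside : ∀ i : ℤ, -(2 * d) ≤ i → i ≤ 2 * d →
      (Mot.std k (fl n q)).e (wsd i) = csd (gr n g) (k0 + i) := by
    intro i h1 h2
    unfold wsd csd
    rw [Mot.e_mk, Mot.std_phi, Mot.std_phi, zero_smul, add_zero, add_zero, hk0 i (by omega) (by omega),
      add_assoc k0 i 1, hk0 (i + 1) (by omega) (by omega)]
  have hwS : ∀ a ∈ wS (2 * d), ∃ i : ℤ, -(2 * d) ≤ i ∧ i ≤ 2 * d ∧ a = wsd i := by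
    intro a ha
    obtain ⟨i, hi, rfl⟩ := Finset.mem_image.mp ha
    rw [Finset.mem_Icc] at hi
    exact ⟨i, hi.1, hi.2, rfl⟩
  have hts : ∀ {i l : ℤ}, -(2 * d) ≤ i → l ≤ 2 * d → i < l →
      (envJ P L g n j).t (csd (gr n g) (k0 + i)) (csd (gr n g) (k0 + l)) = 1 ∧
      (envJ P L g n j).s (csd (gr n g) (k0 + i)) (csd (gr n g) (k0 + l)) = -(1 / Real.sqrt 3) := by
    intro i l h1 h2 h3
    obtain ⟨h4, h5⟩ := cenv_ts (F := rf n P) hc hjp h0 (i := k0 + i) (k := k0 + l) (by omega) (by omega)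
    have h6 : csum j (k0 + i) (k0 + l) = 0 := csum_zero fun v hv1 hv2 => by
      have := hj0 (v - k0) (by rw [abs_le]; constructor <;> omega)
      rwa [add_sub_cancel] at this
    rw [h6, tJ_zero] at h4
    rw [h6, dJ_zero] at h5
    exact ⟨h4, h5⟩
  have hinj : ∀ i l : ℤ, wsd i ∈ wS (2 * d) → -(2 * d) ≤ i ∧ i ≤ 2 * d := by
    intro i _ hi
    obtain ⟨i', h1, h2, h3⟩ := hwS _ hi
    have h4 : i = i' := by
      have := congrArg (fun a : DZ => a.1.1) h3
      exact this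
    rw [h4]
    exact ⟨h1, h2⟩
  -- the far sides
  have hfar : ∀ b ∈ bS ZQ (rf n P), b ∉ (wS (2 * d)).image (Mot.std k (fl n q)).e →
      ∃ κ : ℤ, 2 * d < κ ∧ κ < ((n * L : ℕ) : ℤ) - 2 * d ∧ b = csd (gr n g) (k0 + κ) := by
    intro b hb hb'
    obtain ⟨κ, hκ⟩ := exists_csd hc hb
    set m : ℤ := ((n * L : ℕ) : ℤ) with hm
    -- representative in [-2d, m - 2d)
    set κ' : ℤ := (κ - k0 + 2 * d) % m - 2 * d with hκ'
    have h1 := Int.emod_nonneg (κ - k0 + 2 * d) hm0.ne'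
    have h2 := Int.emod_lt_of_pos (κ - k0 + 2 * d) hm0
    have h3 := Int.emod_add_mul_ediv (κ - k0 + 2 * d) m
    have h4 : b = csd (gr n g) (k0 + κ') := by
      rw [hκ]
      have h5 : κ = (k0 + κ') + ((κ - k0 + 2 * d) / m) * m := by
        rw [hκ']
        linarith [mul_comm m ((κ - k0 + 2 * d) / m)]
      rw [h5]
      exact hc.csd_per _ _
    refine ⟨κ', ?_, by omega, h4⟩
    by_contra hcon
    apply hb'
    rw [h4, ← hside κ' (by omega) (by omega)]
    exact Finset.mem_image_of_mem _ (Finset.mem_image_of_mem _ (Finset.mem_Icc.mpr ⟨by omega, by omega⟩))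
  have htsf : ∀ {i κ : ℤ}, -(2 * d) ≤ i → i ≤ 2 * d → 2 * d < κ → κ < ((n * L : ℕ) : ℤ) - 2 * d →
      (envJ P L g n j).t (csd (gr n g) (k0 + i)) (csd (gr n g) (k0 + κ)) = tJ (csum j (k0 + 2 * d) (k0 + κ)) ∧
      (envJ P L g n j).s (csd (gr n g) (k0 + i)) (csd (gr n g) (k0 + κ)) =
        -dJ (csum j (k0 + 2 * d) (k0 + κ)) := by
    intro i κ h1 h2 h3 h4
    obtain ⟨h5, h6⟩ := cenv_ts (F := rf n P) hc hjp h0 (i := k0 + i) (k := k0 + κ) (by omega) (by omega)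
    have h7 : csum j (k0 + i) (k0 + κ) = csum j (k0 + 2 * d) (k0 + κ) := by
      rw [← csum_add j (by omega : k0 + i ≤ k0 + 2 * d) (by omega : k0 + 2 * d ≤ k0 + κ),
        csum_zero (i := k0 + i) (k := k0 + 2 * d), zero_add]
      intro v hv1 hv2
      have := hj0 (v - k0) (by rw [abs_le]; constructor <;> omega)
      rwa [add_sub_cancel] at this
    rw [h7] at h5 h6
    exact ⟨h5, h6⟩
  obtain ⟨hsub, hbel⟩ := wallAtG_of hρ hf hq hqp hk hn
  refine ⟨by omega, hsub, hbel, ?_, ?_, ?_, ?_, hZ, hM⟩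
  · -- t_wall
    intro a ha b hb
    obtain ⟨i, hi1, hi2, rfl⟩ := hwS a ha
    obtain ⟨l, hl1, hl2, rfl⟩ := hwS b hb
    rw [hside i hi1 hi2, hside l hl1 hl2]
    rcases lt_trichotomy i l with h | h | h
    · exact (hts hi1 hl2 h).1
    · subst h
      show tJ (csum j (min _ _) (max _ _)) = 1
      rw [min_self, max_self, csum_self, tJ_zero]
    · rw [(envJ P L g n j).t_symm]
      exact (hts hl1 hi2 h).1
  · -- s_wall
    intro i l hi hl hil
    obtain ⟨hi1, hi2⟩ := hinj i 0 hi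
    obtain ⟨hl1, hl2⟩ := hinj l 0 hl
    rw [hside i hi1 hi2, hside l hl1 hl2]
    exact (hts hi1 hl2 hil).2
  · intro b hb hb' a ha a' ha'
    obtain ⟨κ, h1, h2, rfl⟩ := hfar b hb hb'
    obtain ⟨i, hi1, hi2, rfl⟩ := hwS a ha
    obtain ⟨l, hl1, hl2, rfl⟩ := hwS a' ha'
    rw [hside i hi1 hi2, hside l hl1 hl2, (htsf hi1 hi2 h1 h2).1, (htsf hl1 hl2 h1 h2).1]
  · intro b hb hb' a ha a' ha'
    obtain ⟨κ, h1, h2, rfl⟩ := hfar b hb hb'
    obtain ⟨i, hi1, hi2, rfl⟩ := hwS a ha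
    obtain ⟨l, hl1, hl2, rfl⟩ := hwS a' ha'
    rw [hside i hi1 hi2, hside l hl1 hl2, (htsf hi1 hi2 h1 h2).2, (htsf hl1 hl2 h1 h2).2]

end

end Pool.Agent.SixB.CAW
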