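import Pool.Agent.Lib.SixB.S4A

/-!
# 6BD, input L of block CA: the arcs near a mark (rows L1 of helper31)

`Q : QC V Φ` any complex of quadrangles, `F` a finite set of faces, `ov` any set of unordered pairs.
* `Con Q F A ω a`: the arc which starts at `a` is contained in `A` (all its faces are in `A`).
* `cIn ov Q F A ω`: the set of the arcs of `ov` contained in `A`; it depends on the faces of `A` only.
* boxes `F ⊇ B 0 ⊇ B 1 ⊇ ..`: `LN j` = number of those contained in `B j`, `Ln j` = number of those which also visit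
  `B (j+1)`, `Lp j l` = number of those contained in `B j` which visit `B (j+1)` and avoid `B (l+1)`,
  `LM j` with `LN j ≤ LN (j+1) + LM j`, `LY j` = number of those contained in `B j` which visit `B (j+1)` and its
  complement.
Results: dependence, `LN (j+1) ≤ Ln j ≤ LN j`, `Ln j = Lp j l + Ln l` on `NoLeg l`, `Wt = WtAvo * t ^ Ln l` on `NoLeg l`.
-/

set_option autoImplicit false
set_option linter.unusedSectionVars false

namespace Pool.Agent.SixB.Tilt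

open Pool.Agent.Perc.Q Relation

noncomputable section

variable {V Φ : Type} [DecidableEq V] [DecidableEq Φ]
variable {Q : QC V Φ} {F I J M A B C : Finset Φ} {ω ω' : Φ → Bool} {a b c x y z : V × V}
variable {ov : Sym2 (V × V) → Prop} {p : Sym2 (V × V)}

/-! ## Arcs contained in a set of faces -/

/-- the arc of `a` is contained in `A` -/
def Con (Q : QC V Φ) (F A : Finset Φ) (ω : Φ → Bool) (a : V × V) : Prop :=
  ReflTransGen (Nx Q ω (A : Set Φ)) a (mate Q F ω a).swap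

theorem con_sdiff : Con Q F (F \ I) ω a ↔ Avo Q F I ω a := Iff.rfl

theorem con_mono (h : A ⊆ B) (hc : Con Q F A ω a) : Con Q F B ω a := rtg_sub h hc

theorem con_mate1 (ha : a ∈ bS Q F) (h : Con Q F A ω a) : Con Q F A ω (mate Q F ω a) := by
  unfold Con
  rw [mate_mate (ω := ω) ha]
  have := rtg_rev h
  rwa [Prod.swap_swap] at this

theorem con_mate (ha : a ∈ bS Q F) : Con Q F A ω (mate Q F ω a) ↔ Con Q F A ω a := by
  constructor
  · intro h
    have := con_mate1 (mate_mem (ω := ω) ha) h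
    rwa [mate_mate (ω := ω) ha] at this
  · exact con_mate1 ha

theorem mate_not_ah (ha : a ∈ bS Q F) : ¬ Ah Q F (mate Q F ω a).swap :=
  (mem_bS_ah.mp (mate_mem (ω := ω) ha)).2

theorem con_first (ha : a ∈ bS Q F) (h : Con Q F A ω a) : Ah Q A a := by
  rcases ReflTransGen.cases_head h with e | ⟨d, h1, -⟩
  · exact absurd ((mem_bS_ah.mp ha).1) (e ▸ mate_not_ah ha)
  · exact ah_left h1

theorem con_last (ha : a ∈ bS Q F) (h : Con Q F A ω a) : Ah Q A (mate Q F ω a) :=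
  con_first (mate_mem (ω := ω) ha) (con_mate1 ha h)

theorem con_inter (hA : A ⊆ F) (hB : B ⊆ F) (ha : a ∈ bS Q F) :
    Con Q F (A ∩ B) ω a ↔ Con Q F A ω a ∧ Con Q F B ω a := by
  constructor
  · intro h
    exact ⟨con_mono Finset.inter_subset_left h, con_mono Finset.inter_subset_right h⟩
  · rintro ⟨h1, h2⟩
    refine rtg_inter ?_ h1 h2
    intro h
    exact mate_not_ah ha (h.mono (Finset.union_subset hA hB))

theorem con_disj (hd : Disjoint A B) (ha : a ∈ bS Q F) (h1 : Con Q F A ω a)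
    (h2 : Con Q F B ω a) : False := ah_disj hd (con_first ha h1) (con_first ha h2)

theorem con_congr (hAF : A ⊆ F) (ha : a ∈ bS Q F) (hω : ∀ f ∈ A, ω f = ω' f)
    (h : Con Q F A ω a) : mate Q F ω' a = mate Q F ω a ∧ Con Q F A ω' a := by
  have h1 := rtg_congr hω h
  have h2 : mate Q F ω' a = mate Q F ω a := mate_eq ha (mate_mem (ω := ω) ha) (rtg_sub hAF h1)
  refine ⟨h2, ?_⟩
  unfold Con
  rw [h2]
  exact h1

open Classical in
/-- the arcs of `ov` contained in `A` -/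
def cIn (ov : Sym2 (V × V) → Prop) (Q : QC V Φ) (F A : Finset Φ) (ω : Φ → Bool) :
    Finset (Sym2 (V × V)) :=
  (((bS Q F).filter fun a => Con Q F A ω a).image fun a => s(a, mate Q F ω a)).filter fun p => ov p

theorem mem_cIn : p ∈ cIn ov Q F A ω ↔
    ov p ∧ ∃ a ∈ bS Q F, Con Q F A ω a ∧ s(a, mate Q F ω a) = p := by
  classical
  unfold cIn
  rw [Finset.mem_filter, Finset.mem_image]
  simp only [Finset.mem_filter, and_assoc]
  tauto

theorem mk_mem_cIn (ha : a ∈ bS Q F) : s(a, mate Q F ω a) ∈ cIn ov Q F A ω ↔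
    ov s(a, mate Q F ω a) ∧ Con Q F A ω a := by
  rw [mem_cIn]
  constructor
  · rintro ⟨h1, b, hb, h2, h3⟩
    refine ⟨h1, ?_⟩
    rw [Sym2.eq_iff] at h3
    rcases h3 with ⟨rfl, -⟩ | ⟨rfl, -⟩
    · exact h2
    · exact (con_mate ha).mp h2
  · rintro ⟨h1, h2⟩
    exact ⟨h1, a, ha, h2, rfl⟩

theorem cIn_sub_arcs : cIn ov Q F A ω ⊆ arcs Q F ω := by
  intro p hp
  obtain ⟨-, a, ha, -, rfl⟩ := mem_cIn.mp hp
  exact mem_arcs.mpr ⟨a, ha, rfl⟩

theorem cIn_mono (h : A ⊆ B) : cIn ov Q F A ω ⊆ cIn ov Q F B ω := by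
  intro p hp
  obtain ⟨h1, a, ha, h2, rfl⟩ := mem_cIn.mp hp
  exact (mk_mem_cIn ha).mpr ⟨h1, con_mono h h2⟩

theorem cIn_congr (hAF : A ⊆ F) (hω : ∀ f ∈ A, ω f = ω' f) :
    cIn ov Q F A ω = cIn ov Q F A ω' := by
  have key : ∀ ω ω' : Φ → Bool, (∀ f ∈ A, ω f = ω' f) →
      cIn ov Q F A ω ⊆ cIn ov Q F A ω' := by
    intro ω ω' h p hp
    obtain ⟨h1, a, ha, h2, rfl⟩ := mem_cIn.mp hp
    obtain ⟨h3, h4⟩ := con_congr hAF ha h h2
    rw [← h3] at h1 ⊢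
    exact (mk_mem_cIn ha).mpr ⟨h1, h4⟩
  exact Finset.Subset.antisymm (key ω ω' hω) (key ω' ω fun f hf => (hω f hf).symm)

theorem cIn_dep (hAF : A ⊆ F) : Dep (A : Set Φ) (cIn ov Q F A) := fun ω ω' h =>
  cIn_congr hAF fun f hf => h f (by exact_mod_cast hf)

theorem cIn_inter (hA : A ⊆ F) (hB : B ⊆ F) :
    cIn ov Q F (A ∩ B) ω = cIn ov Q F A ω ∩ cIn ov Q F B ω := by
  ext p
  rw [Finset.mem_inter]
  constructor
  · intro h
    exact ⟨cIn_mono Finset.inter_subset_left h, cIn_mono Finset.inter_subset_right h⟩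
  · rintro ⟨h1, h2⟩
    obtain ⟨h3, a, ha, h4, rfl⟩ := mem_cIn.mp h1
    exact (mk_mem_cIn ha).mpr ⟨h3, (con_inter hA hB ha).mpr ⟨h4, ((mk_mem_cIn ha).mp h2).2⟩⟩

theorem cIn_disj (hd : Disjoint A B) : Disjoint (cIn ov Q F A ω) (cIn ov Q F B ω) := by
  rw [Finset.disjoint_left]
  intro p h1 h2
  obtain ⟨h3, a, ha, h4, rfl⟩ := mem_cIn.mp h1
  exact con_disj hd ha h4 ((mk_mem_cIn ha).mp h2).2

theorem cIn_empty : cIn ov Q F (∅ : Finset Φ) ω = ∅ := by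
  rw [Finset.eq_empty_iff_forall_notMem]
  intro p hp
  obtain ⟨-, a, ha, h, -⟩ := mem_cIn.mp hp
  obtain ⟨f, hf, -⟩ := con_first ha h
  exact Finset.notMem_empty _ hf

/-- without legs an arc contained in `C` avoids `I` or is contained in `M` -/
theorem cIn_noleg (hIM : I ⊆ M) (hMC : M ⊆ C) (hCF : C ⊆ F) (h : NoLeg Q ω F I M) :
    cIn ov Q F C ω = cIn ov Q F (C \ I) ω ∪ cIn ov Q F M ω := by
  ext p
  rw [Finset.mem_union]
  constructor
  · intro hp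
    obtain ⟨h1, a, ha, h2, rfl⟩ := mem_cIn.mp hp
    by_cases hA : Avo Q F I ω a
    · left
      refine (mk_mem_cIn ha).mpr ⟨h1, ?_⟩
      have h3 := (con_inter hCF Finset.sdiff_subset ha).mpr ⟨h2, con_sdiff.mpr hA⟩
      refine con_mono ?_ h3
      intro f hf
      obtain ⟨h4, h5⟩ := Finset.mem_inter.mp hf
      exact Finset.mem_sdiff.mpr ⟨h4, (Finset.mem_sdiff.mp h5).2⟩
    · right
      exact (mk_mem_cIn ha).mpr ⟨h1, stay_in hIM (hMC.trans hCF) h ha hA⟩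
  · rintro (h1 | h1)
    · exact cIn_mono Finset.sdiff_subset h1
    · exact cIn_mono hMC h1

/-! ## The boxes -/

variable {Bx : ℕ → Finset Φ} {j l : ℕ}

/-- number of arcs of `ov` contained in `B j` -/
def LN (ov : Sym2 (V × V) → Prop) (Q : QC V Φ) (F : Finset Φ) (Bx : ℕ → Finset Φ) (j : ℕ)
    (ω : Φ → Bool) : ℕ := (cIn ov Q F (Bx j) ω).card

open Classical in
/-- number of arcs of `ov` contained in `B j` which visit `B (j+1)` -/
def Ln (ov : Sym2 (V × V) → Prop) (Q : QC V Φ) (F : Finset Φ) (Bx : ℕ → Finset Φ) (j : ℕ)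
    (ω : Φ → Bool) : ℕ := (cIn ov Q F (Bx j) ω \ cIn ov Q F (Bx j \ Bx (j + 1)) ω).card

open Classical in
/-- number of arcs of `ov` contained in `B j` which visit `B (j+1)` and avoid `B (l+1)` -/
def Lp (ov : Sym2 (V × V) → Prop) (Q : QC V Φ) (F : Finset Φ) (Bx : ℕ → Finset Φ) (j l : ℕ)
    (ω : Φ → Bool) : ℕ :=
  (cIn ov Q F (Bx j \ Bx (l + 1)) ω \ cIn ov Q F (Bx j \ Bx (j + 1)) ω).card

open Classical in
/-- number of arcs of `ov` contained in `B j` which visit `B (j+1)` and its complement -/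
def LY (ov : Sym2 (V × V) → Prop) (Q : QC V Φ) (F : Finset Φ) (Bx : ℕ → Finset Φ) (j : ℕ)
    (ω : Φ → Bool) : ℕ :=
  ((cIn ov Q F (Bx j) ω \ cIn ov Q F (Bx j \ Bx (j + 1)) ω) \
    cIn ov Q F (Bx (j + 1)) ω).card

theorem bx_anti (hB : ∀ j, Bx (j + 1) ⊆ Bx j) {j k : ℕ} (h : j ≤ k) : Bx k ⊆ Bx j := by
  induction h with
  | refl => exact subset_rfl
  | step _ ih => exact (hB _).trans ih

theorem bx_sub (hB : ∀ j, Bx (j + 1) ⊆ Bx j) (hF : Bx 0 ⊆ F) (j : ℕ) : Bx j ⊆ F :=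
  (bx_anti hB (Nat.zero_le j)).trans hF

theorem LN_dep (hB : ∀ j, Bx (j + 1) ⊆ Bx j) (hF : Bx 0 ⊆ F) (j : ℕ) :
    Dep (Bx j : Set Φ) (LN ov Q F Bx j) := by
  intro ω ω' h
  unfold LN
  rw [cIn_dep (bx_sub hB hF j) ω ω' h]

theorem Ln_dep (hB : ∀ j, Bx (j + 1) ⊆ Bx j) (hF : Bx 0 ⊆ F) (j : ℕ) :
    Dep (Bx j : Set Φ) (Ln ov Q F Bx j) := by
  intro ω ω' h
  unfold Ln
  rw [cIn_dep (bx_sub hB hF j) ω ω' h,
    cIn_congr (ω := ω) (ω' := ω') (A := Bx j \ Bx (j + 1))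
      (Finset.sdiff_subset.trans (bx_sub hB hF j))
      fun f hf => h f (by exact_mod_cast (Finset.mem_sdiff.mp hf).1)]

theorem Lp_dep (hB : ∀ j, Bx (j + 1) ⊆ Bx j) (hF : Bx 0 ⊆ F) (hjl : j ≤ l) :
    Dep ((Bx j \ Bx (l + 1) : Finset Φ) : Set Φ) (Lp ov Q F Bx j l) := by
  intro ω ω' h
  have h' : ∀ f ∈ Bx j \ Bx (l + 1), ω f = ω' f := fun f hf => h f (by exact_mod_cast hf)
  unfold Lp
  rw [cIn_congr (ω := ω) (ω' := ω') (A := Bx j \ Bx (l + 1))
      (Finset.sdiff_subset.trans (bx_sub hB hF j)) h',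
    cIn_congr (ω := ω) (ω' := ω') (A := Bx j \ Bx (j + 1))
      (Finset.sdiff_subset.trans (bx_sub hB hF j))
      fun f hf => h' f (Finset.mem_sdiff.mpr ⟨(Finset.mem_sdiff.mp hf).1,
        fun hl => (Finset.mem_sdiff.mp hf).2 (bx_anti hB (by omega) hl)⟩)]

theorem Ln_le (ω : Φ → Bool) : Ln ov Q F Bx j ω ≤ LN ov Q F Bx j ω := by
  classical
  unfold Ln LN
  exact Finset.card_le_card Finset.sdiff_subset

theorem LN_le_Ln (hB : ∀ j, Bx (j + 1) ⊆ Bx j) (ω : Φ → Bool) :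
    LN ov Q F Bx (j + 1) ω ≤ Ln ov Q F Bx j ω := by
  classical
  unfold Ln LN
  refine Finset.card_le_card fun p hp => Finset.mem_sdiff.mpr ⟨cIn_mono (hB j) hp, fun h => ?_⟩
  exact Finset.disjoint_left.mp (cIn_disj (Finset.disjoint_sdiff (s := Bx (j + 1)) (t := Bx j)))
    hp h

theorem LN_anti (hB : ∀ j, Bx (j + 1) ⊆ Bx j) (ω : Φ → Bool) :
    LN ov Q F Bx (j + 1) ω ≤ LN ov Q F Bx j ω := (LN_le_Ln hB ω).trans (Ln_le ω)

theorem LN_empty (h : Bx j = ∅) (ω : Φ → Bool) : LN ov Q F Bx j ω = 0 := by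
  unfold LN
  rw [h, cIn_empty, Finset.card_empty]

/-- `n j ≤ N (j+1) + Y j` -/
theorem Ln_le_LY (ω : Φ → Bool) :
    Ln ov Q F Bx j ω ≤ LN ov Q F Bx (j + 1) ω + LY ov Q F Bx j ω := by
  classical
  unfold Ln LN LY
  have h1 := Finset.card_le_card_sdiff_add_card (t := cIn ov Q F (Bx (j + 1)) ω)
    (s := cIn ov Q F (Bx j) ω \ cIn ov Q F (Bx j \ Bx (j + 1)) ω)
  omega

/-- if no arc of `ov` is contained in `B j \ B (j+1)`, `N j ≤ N (j+1) + Y j` -/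
theorem LN_le_LY (h : cIn ov Q F (Bx j \ Bx (j + 1)) ω = ∅) :
    LN ov Q F Bx j ω ≤ LN ov Q F Bx (j + 1) ω + LY ov Q F Bx j ω := by
  classical
  have h1 := Ln_le_LY (ov := ov) (Q := Q) (F := F) (Bx := Bx) (j := j) ω
  have h2 : Ln ov Q F Bx j ω = LN ov Q F Bx j ω := by
    unfold Ln LN
    rw [h, Finset.sdiff_empty]
  omega

/-- **splitting at a level without legs** -/
theorem Ln_split (hB : ∀ j, Bx (j + 1) ⊆ Bx j) (hF : Bx 0 ⊆ F) (hjl : j < l)
    (h : NoLeg Q ω F (Bx (l + 1)) (Bx l)) :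
    Ln ov Q F Bx j ω = Lp ov Q F Bx j l ω + Ln ov Q F Bx l ω := by
  classical
  have hlj : Bx l ⊆ Bx (j + 1) := bx_anti hB hjl
  have hlj' : Bx l ⊆ Bx j := bx_anti hB hjl.le
  have e1 : cIn ov Q F (Bx j) ω =
      cIn ov Q F (Bx j \ Bx (l + 1)) ω ∪ cIn ov Q F (Bx l) ω :=
    cIn_noleg (hB l) hlj' (bx_sub hB hF j) h
  have e2 : cIn ov Q F (Bx l) ω ∩ cIn ov Q F (Bx j \ Bx (l + 1)) ω =
      cIn ov Q F (Bx l \ Bx (l + 1)) ω := by
    rw [← cIn_inter (bx_sub hB hF l) (Finset.sdiff_subset.trans (bx_sub hB hF j))]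
    congr 1
    ext f
    simp only [Finset.mem_inter, Finset.mem_sdiff]
    constructor
    · rintro ⟨h1, h2, h3⟩
      exact ⟨h1, h3⟩
    · rintro ⟨h1, h3⟩
      exact ⟨h1, hlj' h1, h3⟩
  have e3 : Disjoint (cIn ov Q F (Bx l) ω) (cIn ov Q F (Bx j \ Bx (j + 1)) ω) :=
    cIn_disj (Finset.disjoint_left.mpr fun f h1 h2 => (Finset.mem_sdiff.mp h2).2 (hlj h1))
  have e4 : cIn ov Q F (Bx j) ω \ cIn ov Q F (Bx j \ Bx (j + 1)) ω =
      (cIn ov Q F (Bx j \ Bx (l + 1)) ω \ cIn ov Q F (Bx j \ Bx (j + 1)) ω) ∪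
        (cIn ov Q F (Bx l) ω \ cIn ov Q F (Bx l \ Bx (l + 1)) ω) := by
    ext p
    rw [e1, ← e2]
    simp only [Finset.mem_union, Finset.mem_sdiff, Finset.mem_inter]
    constructor
    · rintro ⟨h1 | h1, h2⟩
      · exact Or.inl ⟨h1, h2⟩
      · by_cases h3 : p ∈ cIn ov Q F (Bx j \ Bx (l + 1)) ω
        · exact Or.inl ⟨h3, h2⟩
        · exact Or.inr ⟨h1, fun h4 => h3 h4.2⟩
    · rintro (⟨h1, h2⟩ | ⟨h1, h2⟩)
      · exact ⟨Or.inl h1, h2⟩
      · exact ⟨Or.inr h1, Finset.disjoint_left.mp e3 h1⟩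
  unfold Ln Lp
  rw [e4, Finset.card_union_of_disjoint]
  rw [Finset.disjoint_left]
  intro p h1 h2
  rw [Finset.mem_sdiff] at h1 h2
  rw [← e2, Finset.mem_inter, not_and] at h2
  exact h2.2 h2.1 h1.1

/-- **the weight at a level without legs** -/
theorem WtVis_eq {τ : Sym2 (V × V) → ℝ} {t : ℝ} (hB : ∀ j, Bx (j + 1) ⊆ Bx j) (hF : Bx 0 ⊆ F)
    (hτ1 : ∀ a ∈ wall Q F (Bx 0), ∀ b ∈ wall Q F (Bx 0), ov s(a, b) → τ s(a, b) = t)
    (hτ2 : ∀ a ∈ wall Q F (Bx 0), ∀ b ∈ wall Q F (Bx 0), ¬ ov s(a, b) → τ s(a, b) = 1)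
    (h : NoLeg Q ω F (Bx (l + 1)) (Bx l)) :
    WtVis Q F (Bx (l + 1)) τ ω = t ^ Ln ov Q F Bx l ω := by
  classical
  have hs : cIn ov Q F (Bx l) ω \ cIn ov Q F (Bx l \ Bx (l + 1)) ω =
      (arcsVis Q F (Bx (l + 1)) ω).filter fun p => ov p := by
    ext p
    rw [Finset.mem_sdiff, Finset.mem_filter]
    constructor
    · rintro ⟨h1, h2⟩
      obtain ⟨h3, a, ha, h4, rfl⟩ := mem_cIn.mp h1
      refine ⟨mem_arcsVis.mpr ⟨a, ha, fun h5 => h2 ?_, rfl⟩, h3⟩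
      refine (mk_mem_cIn ha).mpr ⟨h3, ?_⟩
      have h6 := (con_inter (bx_sub hB hF l) Finset.sdiff_subset ha).mpr ⟨h4, con_sdiff.mpr h5⟩
      refine con_mono ?_ h6
      intro f hf
      obtain ⟨h7, h8⟩ := Finset.mem_inter.mp hf
      exact Finset.mem_sdiff.mpr ⟨h7, (Finset.mem_sdiff.mp h8).2⟩
    · rintro ⟨h1, h2⟩
      obtain ⟨a, ha, h3, rfl⟩ := mem_arcsVis.mp h1
      refine ⟨(mk_mem_cIn ha).mpr ⟨h2, stay_in (hB l) (bx_sub hB hF l) h ha h3⟩, fun h4 => h3 ?_⟩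
      refine con_sdiff.mp (con_mono ?_ ((mk_mem_cIn ha).mp h4).2)
      exact Finset.sdiff_subset_sdiff (bx_sub hB hF l) subset_rfl
  have hw : ∀ p ∈ arcsVis Q F (Bx (l + 1)) ω, τ p = if ov p then t else 1 := by
    intro p hp
    obtain ⟨a, ha, h3, rfl⟩ := mem_arcsVis.mp hp
    have h4 := stay_in (hB l) (bx_sub hB hF l) h ha h3
    have h5 : a ∈ wall Q F (Bx 0) := mem_wall.mpr ⟨ha,
      (con_first ha h4).mono (bx_anti hB (Nat.zero_le l))⟩
    have h6 : mate Q F ω a ∈ wall Q F (Bx 0) := mem_wall.mpr ⟨mate_mem (ω := ω) ha,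
      (con_last ha h4).mono (bx_anti hB (Nat.zero_le l))⟩
    split_ifs with h7
    · exact hτ1 _ h5 _ h6 h7
    · exact hτ2 _ h5 _ h6 h7
  unfold WtVis Ln
  rw [hs, Finset.prod_congr rfl hw, Finset.prod_ite, Finset.prod_const, Finset.prod_const_one,
    mul_one]

theorem Wt_level {τ : Sym2 (V × V) → ℝ} {t : ℝ} (hB : ∀ j, Bx (j + 1) ⊆ Bx j) (hF : Bx 0 ⊆ F)
    (hτ1 : ∀ a ∈ wall Q F (Bx 0), ∀ b ∈ wall Q F (Bx 0), ov s(a, b) → τ s(a, b) = t)
    (hτ2 : ∀ a ∈ wall Q F (Bx 0), ∀ b ∈ wall Q F (Bx 0), ¬ ov s(a, b) → τ s(a, b) = 1)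
    (h : NoLeg Q ω F (Bx (l + 1)) (Bx l)) :
    Wt Q F τ ω = WtAvo Q F (Bx (l + 1)) τ ω * t ^ Ln ov Q F Bx l ω := by
  rw [Wt_split (I := Bx (l + 1)) τ ω, WtVis_eq hB hF hτ1 hτ2 h, mul_comm]

theorem WtAvo_dep {R : Type} [CommMonoid R] (τ : Sym2 (V × V) → R) :
    Dep ((F \ I : Finset Φ) : Set Φ) (fun ω => WtAvo Q F I τ ω) := by
  intro ω ω' h
  show WtAvo Q F I τ ω = WtAvo Q F I τ ω'
  exact (WtAvo_congr τ fun f hf => h f (by exact_mod_cast hf)).symm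

theorem noLeg_dep : Dep ((M \ I : Finset Φ) : Set Φ) (fun ω => NoLeg Q ω F I M) := by
  intro ω ω' h
  show NoLeg Q ω F I M = NoLeg Q ω' F I M
  have h' : ∀ f ∈ M \ I, ω f = ω' f := fun f hf => h f (by exact_mod_cast hf)
  exact propext ⟨NoLeg.congr h', NoLeg.congr fun f hf => (h' f hf).symm⟩

/-! ## Legs of one arc -/

/-- the end of an arc is reached from every point of it -/
theorem to_end (ha : a ∈ bS Q F) (h : ReflTransGen (Nx Q ω (F : Set Φ)) a y) :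
    ReflTransGen (Nx Q ω (F : Set Φ)) y (mate Q F ω a).swap := by
  have h1 := (mate_spec ω ha).2
  rcases ReflTransGen.total_of_right_unique (fun _ _ _ h2 h3 => h2.unique h3) h h1 with h2 | h2
  · exact h2
  · have := rtg_stop (mate_not_ah ha) h2
    rw [← this]

/-- an arc which visits `I` and is not contained in `M` has a leg, in one of the two directions -/
theorem exists_leg (hIM : I ⊆ M) (hMF : M ⊆ F) (ha : a ∈ bS Q F) (hA : ¬ Avo Q F I ω a)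
    (hM : ¬ Con Q F M ω a) : ∃ c, Leg Q ω F I M c ∧
      (ReflTransGen (Nx Q ω (F : Set Φ)) a c ∨
        ReflTransGen (Nx Q ω (F : Set Φ)) (mate Q F ω a) c) := by
  by_contra hno
  have h1 : ∀ c, ReflTransGen (Nx Q ω (F : Set Φ)) a c → ¬ Leg Q ω F I M c := fun c hc hl =>
    hno ⟨c, hl, Or.inl hc⟩
  have h2 : ∀ c, ReflTransGen (Nx Q ω (F : Set Φ)) a c → ¬ Leg Q ω F I M c.swap := by
    intro c hc hl
    refine hno ⟨c.swap, hl, Or.inr ?_⟩
    have h3 := rtg_rev (to_end ha hc)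
    rwa [Prod.swap_swap] at h3
  have key : ∀ y, ReflTransGen (Nx Q ω (F : Set Φ)) a y →
      ReflTransGen (Nx Q ω (M : Set Φ)) a y ∨
        (ReflTransGen (Nx Q ω ((F \ I : Finset Φ) : Set Φ)) a y ∧
          ∃ c, Ah Q (F \ M) c ∧ ReflTransGen (Nx Q ω ((F \ I : Finset Φ) : Set Φ)) c y) := by
    intro y hy
    induction hy with
    | refl => exact Or.inl ReflTransGen.refl
    | @tail y z hay hs ih =>
      have hout : ¬ Ah Q I y → Nx Q ω ((F \ I : Finset Φ) : Set Φ) y z := by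
        intro hI
        refine nx_of_ah hs ?_
        obtain ⟨f, hf, l, e⟩ := ah_left hs
        exact ⟨f, Finset.mem_sdiff.mpr ⟨hf, fun hfI => hI ⟨f, hfI, l, e⟩⟩, l, e⟩
      rcases ih with ih | ⟨ih, c, hc, hcy⟩
      · rcases nx_or hs M with h3 | h3
        · exact Or.inl (ih.tail h3)
        · right
          have hI : ¬ Ah Q I y := fun h4 =>
            ah_disj (Finset.disjoint_sdiff (s := M) (t := F)) (h4.mono hIM) h3
          have hav : ReflTransGen (Nx Q ω ((F \ I : Finset Φ) : Set Φ)) a y := by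
            have : ∀ x, ReflTransGen (Nx Q ω (M : Set Φ)) a x →
                ReflTransGen (Nx Q ω (M : Set Φ)) x y → ¬ Ah Q I x := by
              intro x hax hxy hxI
              obtain ⟨c, hc, d, hd1, hd2⟩ := leg_of_exit (F := F) hIM hxI hxy h3
              exact h1 c ((rtg_sub hMF hax).trans (rtg_sub hMF (ReflTransGen.head hd1 hd2))) hc
            exact rtg_avoid hMF ih this
          exact ⟨hav.tail (hout hI), y, h3, ReflTransGen.single (hout hI)⟩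
      · have hI : ¬ Ah Q I y := fun h4 => h2 y hay (leg_of_entry hIM hc hcy h4)
        exact Or.inr ⟨ih.tail (hout hI), c, hc, hcy.tail (hout hI)⟩
  rcases key _ (mate_spec ω ha).2 with h | ⟨h, -⟩
  · exact hM h
  · exact hA h

open Classical in
/-- the legs -/
def legs (Q : QC V Φ) (F I M : Finset Φ) (ω : Φ → Bool) : Finset (V × V) :=
  (dE Q F).filter fun a => Leg Q ω F I M a

theorem mem_legs (hIF : I ⊆ F) : a ∈ legs Q F I M ω ↔ Leg Q ω F I M a := by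
  classical
  unfold legs
  rw [Finset.mem_filter]
  exact ⟨fun h => h.2, fun h => ⟨mem_dE_ah.mpr (Or.inr (h.1.mono hIF)), h⟩⟩

theorem legs_congr (hω : ∀ f ∈ M \ I, ω f = ω' f) : legs Q F I M ω = legs Q F I M ω' := by
  classical
  unfold legs
  refine Finset.filter_congr fun a _ => ?_
  exact ⟨Leg.congr hω, Leg.congr fun f hf => (hω f hf).symm⟩

/-- the arcs which visit `I` and are not contained in `M` are at most the legs -/
theorem card_vis_le {X : Finset (Sym2 (V × V))} (hIM : I ⊆ M) (hMF : M ⊆ F)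
    (hX : ∀ p ∈ X, ∃ a ∈ bS Q F, s(a, mate Q F ω a) = p ∧ ¬ Avo Q F I ω a ∧ ¬ Con Q F M ω a) :
    X.card ≤ (legs Q F I M ω).card := by
  classical
  have h1 : ∀ p ∈ X, ∃ a c, a ∈ bS Q F ∧ s(a, mate Q F ω a) = p ∧ c ∈ legs Q F I M ω ∧
      ReflTransGen (Nx Q ω (F : Set Φ)) a c := by
    intro p hp
    obtain ⟨a, ha, e, hA, hM⟩ := hX p hp
    obtain ⟨c, hc, h | h⟩ := exists_leg hIM hMF ha hA hM
    · exact ⟨a, c, ha, e, (mem_legs (hIM.trans hMF)).mpr hc, h⟩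
    · refine ⟨mate Q F ω a, c, mate_mem (ω := ω) ha, ?_, (mem_legs (hIM.trans hMF)).mpr hc, h⟩
      rw [mate_mate (ω := ω) ha, ← e]
      exact Sym2.eq_swap
  rcases X.eq_empty_or_nonempty with rfl | ⟨p0, hp0⟩
  · simp
  have : Nonempty (V × V) := ⟨(h1 p0 hp0).choose⟩
  choose! f g hf hfp hg hfg using h1
  refine Finset.card_le_card_of_injOn g (fun p hp => hg p hp) ?_
  intro p hp q hq e
  have h2 : SRel Q F ω (f p) (g p) := srel_iff.mpr (Or.inl (hfg p hp))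
  have h3 : SRel Q F ω (f q) (g q) := srel_iff.mpr (Or.inl (hfg q hq))
  have e' : g p = g q := e
  rw [← e'] at h3
  have h4 : f p = f q := ini_unique (mem_bS.mp (hf p hp)).2 (mem_bS.mp (hf q hq)).2
    (EqvGen.trans _ _ _ h2 (EqvGen.symm _ _ h3))
  rw [← hfp p hp, ← hfp q hq, h4]

/-! ## The number of arcs lost from one box to the next -/

open Classical in
/-- bound of the number of arcs of `ov` contained in `B j` and not in `B (j+1)`: those which avoid `B (j+2)`, plus the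
legs from `B (j+2)` to the complement of `B (j+1)` -/
def LM (ov : Sym2 (V × V) → Prop) (Q : QC V Φ) (F : Finset Φ) (Bx : ℕ → Finset Φ) (j : ℕ)
    (ω : Φ → Bool) : ℕ :=
  (cIn ov Q F (Bx j \ Bx (j + 2)) ω \ cIn ov Q F (Bx (j + 1) \ Bx (j + 2)) ω).card +
    (legs Q F (Bx (j + 2)) (Bx (j + 1)) ω).card

theorem LM_dep (hB : ∀ j, Bx (j + 1) ⊆ Bx j) (hF : Bx 0 ⊆ F) (j : ℕ) :
    Dep ((Bx j \ Bx (j + 2) : Finset Φ) : Set Φ) (LM ov Q F Bx j) := by
  intro ω ω' h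
  have h' : ∀ f ∈ Bx j \ Bx (j + 2), ω f = ω' f := fun f hf => h f (by exact_mod_cast hf)
  have h'' : ∀ f ∈ Bx (j + 1) \ Bx (j + 2), ω f = ω' f := fun f hf =>
    h' f (Finset.sdiff_subset_sdiff (hB j) subset_rfl hf)
  unfold LM
  rw [cIn_congr (ω := ω) (ω' := ω') (A := Bx j \ Bx (j + 2))
      (Finset.sdiff_subset.trans (bx_sub hB hF j)) h',
    cIn_congr (ω := ω) (ω' := ω') (A := Bx (j + 1) \ Bx (j + 2))
      (Finset.sdiff_subset.trans (bx_sub hB hF _)) h'',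
    legs_congr h'']

theorem LN_le_LM (hB : ∀ j, Bx (j + 1) ⊆ Bx j) (hF : Bx 0 ⊆ F) (ω : Φ → Bool) :
    LN ov Q F Bx j ω ≤ LN ov Q F Bx (j + 1) ω + LM ov Q F Bx j ω := by
  classical
  set X := (cIn ov Q F (Bx j) ω \ cIn ov Q F (Bx (j + 1)) ω) \
    cIn ov Q F (Bx j \ Bx (j + 2)) ω with hX
  have h1 : X.card ≤ (legs Q F (Bx (j + 2)) (Bx (j + 1)) ω).card := by
    refine card_vis_le (hB _) (bx_sub hB hF _) fun p hp => ?_
    rw [hX, Finset.mem_sdiff, Finset.mem_sdiff] at hp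
    obtain ⟨⟨h2, h3⟩, h4⟩ := hp
    obtain ⟨h5, a, ha, h6, rfl⟩ := mem_cIn.mp h2
    refine ⟨a, ha, rfl, fun h7 => h4 ?_, fun h7 => h3 ?_⟩
    · refine (mk_mem_cIn ha).mpr ⟨h5, ?_⟩
      have h8 := (con_inter (bx_sub hB hF j) Finset.sdiff_subset ha).mpr ⟨h6, con_sdiff.mpr h7⟩
      refine con_mono ?_ h8
      intro f hf
      obtain ⟨h9, h10⟩ := Finset.mem_inter.mp hf
      exact Finset.mem_sdiff.mpr ⟨h9, (Finset.mem_sdiff.mp h10).2⟩
    · exact (mk_mem_cIn ha).mpr ⟨h5, h7⟩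
  have h2 : cIn ov Q F (Bx j) ω ⊆ cIn ov Q F (Bx (j + 1)) ω ∪
      ((cIn ov Q F (Bx j \ Bx (j + 2)) ω \ cIn ov Q F (Bx (j + 1) \ Bx (j + 2)) ω) ∪ X) := by
    intro p hp
    rw [hX]
    simp only [Finset.mem_union, Finset.mem_sdiff]
    by_cases h3 : p ∈ cIn ov Q F (Bx (j + 1)) ω
    · exact Or.inl h3
    · by_cases h4 : p ∈ cIn ov Q F (Bx j \ Bx (j + 2)) ω
      · refine Or.inr (Or.inl ⟨h4, fun h5 => h3 (cIn_mono Finset.sdiff_subset h5)⟩)
      · exact Or.inr (Or.inr ⟨⟨hp, h3⟩, h4⟩)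
  have h3 := Finset.card_le_card h2
  have h4 := Finset.card_union_le (cIn ov Q F (Bx (j + 1)) ω)
    ((cIn ov Q F (Bx j \ Bx (j + 2)) ω \ cIn ov Q F (Bx (j + 1) \ Bx (j + 2)) ω) ∪ X)
  have h5 := Finset.card_union_le
    (cIn ov Q F (Bx j \ Bx (j + 2)) ω \ cIn ov Q F (Bx (j + 1) \ Bx (j + 2)) ω) X
  unfold LN LM
  omega

end

end Pool.Agent.SixB.Tilt
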