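import Pool.Agent.Lib.SixB.S4Strands
import Pool.Agent.Lib.SixB.S6LSplit

/-!
# 6BD block CA, the pole at `e`, part 1: products over the other arcs, local functions of one strand

Every complex of quadrangles `Q`, `F` a finite set of faces, `e` a starting side.
* `prO Q F T e ω`: product of `T` over the arcs other than the arc of `e`.
* `sgW U t`: the weights `t` with a sign for each end in `U`; `prO_sgW`: parity, the product changes by
  `(-1) ^ |U|` and the sign of the mate of `e` (each starting side is an end of exactly one arc).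
* `prO_noleg`: without legs and for weights `1` near `e`, `prO` is the product over the arcs which avoid `I`.
* `Yv Q F B e z q ω`: difference at `z`, `q` of the left indicator of the strand of `e` if it is contained in `B`; it
  depends only on the faces of `B`.
-/

set_option autoImplicit false
set_option linter.unusedSectionVars false

namespace Pool.Agent.SixB.Pole

open Pool.Agent.Perc.Q Relation Pool.Agent.SixB.Tilt

noncomputable section

variable {V Φ : Type} [DecidableEq V] [DecidableEq Φ]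
variable {Q : QC V Φ} {F I J M A B : Finset Φ} {ω ω' : Φ → Bool} {a b c e x y : V × V} {z z' q q' : V}

/-! ## Products over the other arcs -/

/-- product over the arcs other than the arc of `e` -/
def prO (Q : QC V Φ) (F : Finset Φ) (T : Sym2 (V × V) → ℝ) (e : V × V) (ω : Φ → Bool) : ℝ :=
  ∏ p ∈ (arcs Q F ω).erase s(e, mate Q F ω e), T p

/-- sign of an end -/
def sgU (U : Finset (V × V)) (a : V × V) : ℝ := if a ∈ U then -1 else 1

theorem sgU_sq (U : Finset (V × V)) (a : V × V) : sgU U a * sgU U a = 1 := by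
  unfold sgU
  split_ifs <;> norm_num

theorem abs_sgU (U : Finset (V × V)) (a : V × V) : |sgU U a| = 1 := by
  unfold sgU
  split_ifs <;> norm_num

/-- the weights with a sign for each end in `U` -/
def sgW (U : Finset (V × V)) (T : Sym2 (V × V) → ℝ) (p : Sym2 (V × V)) : ℝ :=
  T p * Sym2.lift ⟨fun a b => sgU U a * sgU U b, fun _ _ => mul_comm _ _⟩ p

theorem sgW_mk (U : Finset (V × V)) (T : Sym2 (V × V) → ℝ) (a b : V × V) :
    sgW U T s(a, b) = T s(a, b) * (sgU U a * sgU U b) := rfl

/-- a product over the starting sides as a product over the arcs -/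
theorem prod_bS_arcs (hQ : NoLoop Q) (g : V × V → ℝ) : ∏ a ∈ bS Q F, g a =
    ∏ p ∈ arcs Q F ω, Sym2.lift ⟨fun a b => g a * g b, fun _ _ => mul_comm _ _⟩ p := by
  classical
  rw [← Finset.prod_fiberwise_of_maps_to (s := bS Q F) (t := arcs Q F ω)
    (g := fun a => s(a, mate Q F ω a)) (fun a ha => mem_arcs.mpr ⟨a, ha, rfl⟩)]
  refine Finset.prod_congr rfl fun p hp => ?_
  obtain ⟨a, ha, rfl⟩ := mem_arcs.mp hp
  have h1 : (bS Q F).filter (fun b => s(b, mate Q F ω b) = s(a, mate Q F ω a)) =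
      {a, mate Q F ω a} := by
    ext b
    rw [Finset.mem_filter, Finset.mem_insert, Finset.mem_singleton, Sym2.eq_iff]
    constructor
    · rintro ⟨-, h | h⟩
      · exact Or.inl h.1
      · exact Or.inr h.1
    · rintro (rfl | rfl)
      · exact ⟨ha, Or.inl ⟨rfl, rfl⟩⟩
      · exact ⟨mate_mem ha, Or.inr ⟨rfl, mate_mate ha⟩⟩
  rw [h1, Finset.prod_pair (mate_ne hQ ha).symm]
  rfl

/-- **parity** -/
theorem prO_sgW (hQ : NoLoop Q) {U : Finset (V × V)} (hU : U ⊆ bS Q F) (he : e ∈ bS Q F)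
    (T : Sym2 (V × V) → ℝ) : prO Q F (sgW U T) e ω =
      (-1) ^ U.card * (sgU U e * sgU U (mate Q F ω e)) * prO Q F T e ω := by
  classical
  have hmem : s(e, mate Q F ω e) ∈ arcs Q F ω := mem_arcs.mpr ⟨e, he, rfl⟩
  have h1 : ∏ a ∈ bS Q F, sgU U a = (-1) ^ U.card := by
    unfold sgU
    rw [Finset.prod_ite, Finset.prod_const_one, mul_one, Finset.prod_const]
    congr 2
    ext a
    rw [Finset.mem_filter]
    exact ⟨fun h => h.2, fun h => ⟨hU h, h⟩⟩
  have h2 := prod_bS_arcs (F := F) (ω := ω) hQ (sgU U)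
  rw [h1, ← Finset.mul_prod_erase _ _ hmem] at h2
  unfold prO sgW
  rw [Finset.prod_mul_distrib, h2]
  rw [show Sym2.lift ⟨fun a b => sgU U a * sgU U b, fun _ _ => mul_comm _ _⟩ s(e, mate Q F ω e) =
    sgU U e * sgU U (mate Q F ω e) from rfl]
  have h3 : (sgU U e * sgU U (mate Q F ω e)) * (sgU U e * sgU U (mate Q F ω e)) = 1 := by
    have := sgU_sq U e
    have := sgU_sq U (mate Q F ω e)
    nlinarith
  linear_combination (-(∏ p ∈ (arcs Q F ω).erase s(e, mate Q F ω e), T p) *
    (∏ p ∈ (arcs Q F ω).erase s(e, mate Q F ω e),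
      Sym2.lift ⟨fun a b => sgU U a * sgU U b, fun _ _ => mul_comm _ _⟩ p)) * h3

theorem prO_mem (he : e ∈ bS Q F) : s(e, mate Q F ω e) ∈ arcs Q F ω := mem_arcs.mpr ⟨e, he, rfl⟩

/-- **without legs** the product over the other arcs is the product over the arcs which avoid `I`, if the weights
of the arcs near `e` are `1` -/
theorem prO_noleg (hIM : I ⊆ M) (hMF : M ⊆ F) (h1 : NoLeg Q ω F I M) (he : e ∈ bS Q F)
    (hI : Ah Q I e) {T : Sym2 (V × V) → ℝ}
    (hT : ∀ a ∈ wall Q F M, ∀ b ∈ wall Q F M, a ≠ e → b ≠ e → T s(a, b) = 1) :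
    prO Q F T e ω = WtAvo Q F I T ω := by
  classical
  have hno : ¬ Avo Q F I ω e := fun h => ah_disj (Finset.disjoint_sdiff (s := I) (t := F)) hI
    (con_first he (con_sdiff.mpr h))
  have hd : Disjoint (arcsVis Q F I ω) (arcsAvo Q F I ω) := by
    rw [Finset.disjoint_left]
    intro p hp hp'
    obtain ⟨a, ha, hA, rfl⟩ := mem_arcsVis.mp hp
    obtain ⟨b, hb, hB, h⟩ := mem_arcsAvo.mp hp'
    rw [Sym2.eq_iff] at h
    rcases h with ⟨rfl, -⟩ | ⟨rfl, -⟩
    · exact hA hB
    · exact hA ((avo_mate ha).mp hB)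
  have hu : arcs Q F ω = arcsVis Q F I ω ∪ arcsAvo Q F I ω := by
    ext p
    rw [Finset.mem_union, mem_arcs, mem_arcsAvo, mem_arcsVis]
    constructor
    · rintro ⟨a, ha, h⟩
      by_cases hA : Avo Q F I ω a
      · exact Or.inr ⟨a, ha, hA, h⟩
      · exact Or.inl ⟨a, ha, hA, h⟩
    · rintro (⟨a, ha, -, h⟩ | ⟨a, ha, -, h⟩)
      · exact ⟨a, ha, h⟩
      · exact ⟨a, ha, h⟩
  have hev : s(e, mate Q F ω e) ∈ arcsVis Q F I ω := mem_arcsVis.mpr ⟨e, he, hno, rfl⟩
  have hen : s(e, mate Q F ω e) ∉ arcsAvo Q F I ω := Finset.disjoint_left.mp hd hev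
  unfold prO WtAvo
  rw [hu, Finset.erase_union_distrib, Finset.erase_eq_of_notMem hen, Finset.prod_union
    (Finset.disjoint_of_subset_left (Finset.erase_subset _ _) hd), Finset.prod_eq_one, one_mul]
  intro p hp
  obtain ⟨h2, h3⟩ := Finset.mem_erase.mp hp
  obtain ⟨a, ha, hA, rfl⟩ := mem_arcsVis.mp h3
  have h4 := stay_in hIM hMF h1 ha hA
  refine hT _ (mem_wall.mpr ⟨ha, con_first ha h4⟩) _
    (mem_wall.mpr ⟨mate_mem ha, con_last ha h4⟩) ?_ ?_
  · rintro rfl
    exact h2 rfl
  · intro h5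
    apply h2
    rw [← h5, mate_mate ha, Sym2.eq_swap]

/-! ## A strand contained in a set of faces -/

/-- a starting side and the end of its strand -/
theorem rtg_end (he : e ∈ bS Q F) (h : ReflTransGen (Nx Q ω (F : Set Φ)) e a) :
    ReflTransGen (Nx Q ω (F : Set Φ)) a (mate Q F ω e).swap := to_end he h

theorem mem_dst_iff (he : e ∈ bS Q F) :
    a ∈ dst Q F ω e ↔ ReflTransGen (Nx Q ω (F : Set Φ)) e a := by
  rw [mem_dst]
  constructor
  · rintro ⟨-, h⟩
    rcases srel_iff.mp h with h | h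
    · exact h
    · rcases ReflTransGen.cases_tail h with h | ⟨c, -, h⟩
      · rw [h]
      · exact absurd h (ini_nx (mem_bS.mp he).2)
  · intro h
    have h1 : SRel Q F ω e a := srel_iff.mpr (Or.inl h)
    exact ⟨srel_dE h1 (mem_bS.mp he).1, h1⟩

/-- the strand of `e`, if it is contained in `B` -/
theorem mem_dst_con (hBF : B ⊆ F) (he : e ∈ bS Q F) (hc : Con Q F B ω e) :
    a ∈ dst Q F ω e ↔ ReflTransGen (Nx Q ω (B : Set Φ)) e a := by
  rw [mem_dst_iff he]
  constructor
  · intro h
    rcases ReflTransGen.total_of_right_unique (fun _ _ _ h2 h3 => h2.unique h3) h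
      (rtg_sub hBF hc) with h2 | h2
    · -- `a` before the end
      have key : ∀ x, ReflTransGen (Nx Q ω (F : Set Φ)) e x →
          ReflTransGen (Nx Q ω (F : Set Φ)) x (mate Q F ω e).swap →
          ReflTransGen (Nx Q ω (B : Set Φ)) e x := by
        intro x hx
        induction hx with
        | refl => exact fun _ => ReflTransGen.refl
        | @tail y z hy hs ih =>
          intro hz
          have h3 := ih (ReflTransGen.head hs hz)
          rcases ReflTransGen.total_of_right_unique (fun _ _ _ h2 h3 => h2.unique h3) h3 hc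
            with h4 | h4
          · rcases ReflTransGen.cases_head h4 with h5 | ⟨d, h5, -⟩
            · exact absurd (h5 ▸ ah_left hs) (mate_not_ah he)
            · have h6 := (nx_mono hBF h5).unique hs
              exact h3.tail (h6 ▸ h5)
          · have h5 := rtg_stop (A := F) (ω := ω) (mate_not_ah he) (rtg_sub hBF h4)
            exact absurd (h5.symm ▸ ah_left hs) (mate_not_ah he)
      exact key a h h2
    · have h3 := rtg_stop (A := F) (mate_not_ah he) h2
      rw [← h3]
      exact hc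
  · exact rtg_sub hBF

theorem dst_congr_con (hBF : B ⊆ F) (he : e ∈ bS Q F) (hω : ∀ f ∈ B, ω f = ω' f)
    (hc : Con Q F B ω e) : dst Q F ω' e = dst Q F ω e := by
  have h1 := (con_congr hBF he hω hc).2
  ext a
  rw [mem_dst_con hBF he hc, mem_dst_con hBF he h1]
  exact ⟨rtg_congr fun f hf => (hω f hf).symm, rtg_congr hω⟩

/-- a strand contained in `B` uses no side of a face outside of `B` -/
theorem con_no_side (hBF : B ⊆ F) (he : e ∈ bS Q F) (hc : Con Q F B ω e)
    (ha : a ∈ dE Q (F \ B)) : a ∉ dst Q F ω e := by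
  intro h
  rw [mem_dst_con hBF he hc] at h
  have hd : Disjoint B (F \ B) := Finset.disjoint_sdiff
  rcases mem_dE_ah.mp ha with h1 | h1
  · -- face ahead outside
    rcases ReflTransGen.total_of_right_unique (fun _ _ _ h2 h3 => h2.unique h3) h hc with h2 | h2
    · rcases ReflTransGen.cases_head h2 with h3 | ⟨d, h3, -⟩
      · exact mate_not_ah (ω := ω) he (h3 ▸ h1.mono Finset.sdiff_subset)
      · exact ah_disj hd (ah_left h3) h1
    · have h3 := rtg_stop (A := F) (mate_not_ah he) (rtg_sub hBF h2)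
      exact mate_not_ah (ω := ω) he (h3 ▸ h1.mono Finset.sdiff_subset)
  · rcases ReflTransGen.cases_tail h with h2 | ⟨d, -, h2⟩
    · rw [h2] at h1
      exact (mem_bS_ah.mp he).2 (h1.mono Finset.sdiff_subset)
    · exact ah_disj hd (ah_right h2) h1

theorem con_no_side' (hBF : B ⊆ F) (he : e ∈ bS Q F) (hc : Con Q F B ω e)
    (ha : a ∈ dE Q (F \ B)) : a ∉ dst Q F ω e ∧ a.swap ∉ dst Q F ω e :=
  ⟨con_no_side hBF he hc ha, con_no_side hBF he hc (swap_mem_dE.mpr ha)⟩

/-- the left indicator is constant outside of `B` -/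
theorem lft_con (hP : HasPotQ Q F) (hBF : B ⊆ F) (he : e ∈ bS Q F) (hc : Con Q F B ω e)
    (hz : ConnE Q (F \ B) z z') :
    lft Q F (dst Q F ω e) z = lft Q F (dst Q F ω e) z' := by
  have h := lft_spec hP (dst_mem_dstr (ω := ω) (mem_bS.mp he).1)
  have h1 : lft Q F (dst Q F ω e) z - lft Q F (dst Q F ω e) z' = (0 : ℤ) - 0 :=
    sub_eq_of_inc (v := fun _ => (0 : ℤ)) (fun a ha => by
      obtain ⟨h2, h3⟩ := con_no_side' hBF he hc ha
      rw [h.inc a (dE_mono Finset.sdiff_subset ha), if_neg h2, if_neg h3]) hz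
  omega

open Classical in
/-- difference of the left indicator of the strand of `e`, if it is contained in `B` -/
def Yv (Q : QC V Φ) (F B : Finset Φ) (e : V × V) (z q : V) (ω : Φ → Bool) : ℝ :=
  if Con Q F B ω e then ((lft Q F (dst Q F ω e) z - lft Q F (dst Q F ω e) q : ℤ) : ℝ) else 0

theorem con_iff (hBF : B ⊆ F) (he : e ∈ bS Q F) (hω : ∀ f ∈ B, ω f = ω' f) :
    Con Q F B ω e ↔ Con Q F B ω' e :=
  ⟨fun h => (con_congr hBF he hω h).2,
    fun h => (con_congr hBF he (fun f hf => (hω f hf).symm) h).2⟩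

theorem Yv_dep (hBF : B ⊆ F) (he : e ∈ bS Q F) (z q : V) :
    Dep (B : Set Φ) (Yv Q F B e z q) := by
  intro ω ω' h
  have h' : ∀ f ∈ B, ω f = ω' f := fun f hf => h f (by exact_mod_cast hf)
  unfold Yv
  by_cases hc : Con Q F B ω e
  · rw [if_pos hc, if_pos ((con_iff hBF he h').mp hc), dst_congr_con hBF he h' hc]
  · rw [if_neg hc, if_neg fun h2 => hc ((con_iff hBF he h').mpr h2)]

theorem abs_lft_sub (hP : HasPotQ Q F) (he : e ∈ bS Q F) (z q : V) :
    |((lft Q F (dst Q F ω e) z - lft Q F (dst Q F ω e) q : ℤ) : ℝ)| ≤ 1 := by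
  have h := (lft_spec hP (dst_mem_dstr (ω := ω) (mem_bS.mp he).1)).abs_le z q
  exact_mod_cast h

theorem abs_Yv_le (hP : HasPotQ Q F) (he : e ∈ bS Q F) (z q : V) : |Yv Q F B e z q ω| ≤ 1 := by
  unfold Yv
  split_ifs
  · exact abs_lft_sub hP he z q
  · simp

/-- if the strand stays in `A` and `z`, `q` are joined outside of `A` the value is zero -/
theorem Yv_zero (hP : HasPotQ Q F) (hAF : A ⊆ F) (he : e ∈ bS Q F)
    (hc : Con Q F A ω e) (hz : ConnE Q (F \ A) z q) : Yv Q F B e z q ω = 0 := by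
  unfold Yv
  split_ifs
  · rw [lft_con hP hAF he hc hz, sub_self, Int.cast_zero]
  · rfl

/-- a change of `z` by one unit edge -/
theorem Yv_step (hP : HasPotQ Q F) (he : e ∈ bS Q F) (hz : (z', z) ∈ dE Q F) :
    |Yv Q F B e z' q ω - Yv Q F B e z q ω| ≤
      if (z', z) ∈ dst Q F ω e ∨ (z, z') ∈ dst Q F ω e then 1 else 0 := by
  have h := (lft_spec hP (dst_mem_dstr (ω := ω) (mem_bS.mp he).1)).inc (z', z) hz
  have e1 : (z', z).swap = (z, z') := rfl
  rw [e1] at h
  simp only at h
  unfold Yv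
  split_ifs with hc h2 h2
  · have h3 : |((if (z', z) ∈ dst Q F ω e then 1 else 0 : ℤ) -
        (if (z, z') ∈ dst Q F ω e then 1 else 0 : ℤ))| ≤ 1 := by
      split_ifs <;> simp
    rw [← Int.cast_sub, show lft Q F (dst Q F ω e) z' - lft Q F (dst Q F ω e) q -
      (lft Q F (dst Q F ω e) z - lft Q F (dst Q F ω e) q) =
      lft Q F (dst Q F ω e) z' - lft Q F (dst Q F ω e) z by ring, h]
    exact_mod_cast h3
  · push Not at h2
    rw [if_neg h2.1, if_neg h2.2] at h
    rw [← Int.cast_sub, show lft Q F (dst Q F ω e) z' - lft Q F (dst Q F ω e) q -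
      (lft Q F (dst Q F ω e) z - lft Q F (dst Q F ω e) q) =
      lft Q F (dst Q F ω e) z' - lft Q F (dst Q F ω e) z by ring, h]
    simp
  · simp
  · simp

end

end Pool.Agent.SixB.Pole
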