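import Mathlib

/-!
# Crossing probabilities directly: uniqueness of the limit (helper96)

`C x y` is a subsequential limit of the crossing probabilities `P([p1, x] <-> [y, p3])` of a polygon
with four marks, `p1, p3` fixed, `x` on the arc from `p1` (`x = 0`) to `p3`, `y` on the arc from `p3`
(`y = 0`) to `p1` (`y = L`). `Rel U V Ψ C` is relation (R): moving the mark `x` in the derivative with
respect to `y` multiplies it by `exp (Ψ x' y - Ψ x y)`. The same relation with the labels rotated by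
two moves `y` in the derivative with respect to `x`. Two limits which satisfy both relations with the
same functions are equal.
-/

set_option autoImplicit false

namespace Pool.Agent.SixB

open Set Filter Topology MeasureTheory

/-- Relation (R). -/
def Rel (U V : Set ℝ) (Ψ C : ℝ → ℝ → ℝ) : Prop :=
  ∀ x ∈ U, ∀ x' ∈ U, ∀ y y' : ℝ, y ≤ y' → Icc y y' ⊆ V → ∀ m M : ℝ,
    (∀ t ∈ Icc y y', m ≤ Real.exp (Ψ x' t - Ψ x t) ∧ Real.exp (Ψ x' t - Ψ x t) ≤ M) →
      m * (C x y' - C x y) ≤ C x' y' - C x' y ∧ C x' y' - C x' y ≤ M * (C x y' - C x y)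

/-- Squeezing of increments gives the derivative. -/
theorem hasDerivAt_of_squeeze {f g w : ℝ → ℝ} {x g' : ℝ} {N : Set ℝ} (hN : N ∈ 𝓝 x)
    (hg : MonotoneOn g N) (hd : HasDerivAt g g' x) (hw : ContinuousAt w x)
    (h : ∀ a ∈ N, ∀ b ∈ N, a ≤ b → ∀ m M : ℝ, (∀ t ∈ Icc a b, m ≤ w t ∧ w t ≤ M) →
      m * (g b - g a) ≤ f b - f a ∧ f b - f a ≤ M * (g b - g a)) :
    HasDerivAt f (w x * g') x := by
  rw [hasDerivAt_iff_isLittleO, Asymptotics.isLittleO_iff]
  intro c hc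
  have hd' := hd
  rw [hasDerivAt_iff_isLittleO, Asymptotics.isLittleO_iff] at hd'
  set B : ℝ := |g'| + |w x| + 2 with hB
  have hBpos : 0 < B := by positivity
  have h1 := hd' (c := c / (2 * B)) (by positivity)
  have h1' := hd' (c := 1) one_pos
  have h2 : ∀ᶠ y in 𝓝 x, |w y - w x| < c / (2 * B) := by
    have := hw.tendsto.eventually (Metric.ball_mem_nhds (w x) (show 0 < c / (2 * B) by positivity))
    filter_upwards [this] with y hy
    rwa [Real.dist_eq] at hy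
  obtain ⟨ε, hε, h2b⟩ := Metric.eventually_nhds_iff_ball.1 h2
  filter_upwards [h1, h1', hN, Metric.ball_mem_nhds x hε] with y h1 h1' hyN hyb
  have hxN : x ∈ N := mem_of_mem_nhds hN
  have hball : ∀ t ∈ uIcc x y, |w t - w x| < c / (2 * B) := by
    intro t ht
    apply h2b t
    have hconv : Convex ℝ (Metric.ball x ε) := convex_ball x ε
    have := hconv.segment_subset (Metric.mem_ball_self hε) hyb
    apply this
    rwa [segment_eq_uIcc]
  have key : |f y - f x - w x * (g y - g x)| ≤ c / (2 * B) * |g y - g x| := by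
    rcases le_total x y with hxy | hxy
    · have hh := h x hxN y hyN hxy (w x - c / (2 * B)) (w x + c / (2 * B)) (by
        intro t ht
        have := hball t (by rwa [uIcc_of_le hxy])
        rw [abs_lt] at this
        constructor <;> linarith)
      have hmon := hg hxN hyN hxy
      rw [abs_of_nonneg (show (0 : ℝ) ≤ g y - g x by linarith), abs_le]
      constructor <;> nlinarith
    · have hh := h y hyN x hxN hxy (w x - c / (2 * B)) (w x + c / (2 * B)) (by
        intro t ht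
        have := hball t (by rwa [uIcc_of_ge hxy])
        rw [abs_lt] at this
        constructor <;> linarith)
      have hmon := hg hyN hxN hxy
      rw [abs_of_nonpos (show g y - g x ≤ 0 by linarith), abs_le]
      constructor <;> nlinarith
  simp only [smul_eq_mul, one_mul, Real.norm_eq_abs] at h1 h1' ⊢
  have h3 : |g y - g x| ≤ (|g'| + 1) * |y - x| := by
    have e : g y - g x = (g y - g x - (y - x) * g') + (y - x) * g' := by ring
    rw [e]
    calc |g y - g x - (y - x) * g' + (y - x) * g'|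
        ≤ |g y - g x - (y - x) * g'| + |(y - x) * g'| := abs_add_le _ _
      _ ≤ |y - x| + |y - x| * |g'| := by rw [abs_mul]; linarith
      _ = (|g'| + 1) * |y - x| := by ring
  have e : f y - f x - (y - x) * (w x * g') =
      (f y - f x - w x * (g y - g x)) + w x * (g y - g x - (y - x) * g') := by ring
  rw [e]
  calc |f y - f x - w x * (g y - g x) + w x * (g y - g x - (y - x) * g')|
      ≤ |f y - f x - w x * (g y - g x)| + |w x * (g y - g x - (y - x) * g')| := abs_add_le _ _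
    _ ≤ c / (2 * B) * |g y - g x| + |w x| * (c / (2 * B) * |y - x|) := by
        rw [abs_mul]
        gcongr
    _ ≤ c / (2 * B) * ((|g'| + 1) * |y - x|) + |w x| * (c / (2 * B) * |y - x|) := by gcongr
    _ = c / (2 * B) * (|g'| + |w x| + 1) * |y - x| := by ring
    _ ≤ c * |y - x| := by
        gcongr
        rw [div_mul_eq_mul_div, div_le_iff₀ (by positivity)]
        rw [hB]
        nlinarith [abs_nonneg g', abs_nonneg (w x)]

/-- If `g` is differentiable and its increments are `k` times those of `f` up to a factor `1 + o(1)`,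
then `f` is differentiable. -/
theorem hasDerivAt_of_ratio {f g : ℝ → ℝ} {y β k : ℝ} (hk : k ≠ 0) (hg : HasDerivAt g β y)
    (h : ∀ ε > 0, ∀ᶠ z in 𝓝 y, |g z - g y - k * (f z - f y)| ≤ ε * |f z - f y|) :
    HasDerivAt f (β / k) y := by
  rw [hasDerivAt_iff_isLittleO, Asymptotics.isLittleO_iff]
  intro c hc
  have hg' := hg
  rw [hasDerivAt_iff_isLittleO, Asymptotics.isLittleO_iff] at hg'
  have hkpos : 0 < |k| := abs_pos.2 hk
  set B : ℝ := |β| + 1 with hB
  have hBpos : 0 < B := by positivity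
  set ε : ℝ := min (|k| / 2) (c * |k| * |k| / (4 * B)) with hε
  have hεpos : 0 < ε := by
    apply lt_min <;> positivity
  have h1 := hg' (c := min 1 (c * |k| / 2)) (lt_min one_pos (by positivity))
  filter_upwards [h1, h ε hεpos] with z h1 h2
  simp only [smul_eq_mul, Real.norm_eq_abs] at h1 ⊢
  have hε1 : ε ≤ |k| / 2 := min_le_left _ _
  have hε2 : ε ≤ c * |k| * |k| / (4 * B) := min_le_right _ _
  have h1a : |g z - g y - (z - y) * β| ≤ |z - y| := by
    refine h1.trans ?_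
    calc min 1 (c * |k| / 2) * |z - y| ≤ 1 * |z - y| := by
          gcongr
          exact min_le_left _ _
      _ = |z - y| := one_mul _
  have h1b : |g z - g y - (z - y) * β| ≤ c * |k| / 2 * |z - y| := by
    refine h1.trans ?_
    gcongr
    exact min_le_right _ _
  have h3 : |g z - g y| ≤ B * |z - y| := by
    have e : g z - g y = (g z - g y - (z - y) * β) + (z - y) * β := by ring
    rw [e]
    calc |g z - g y - (z - y) * β + (z - y) * β|
        ≤ |g z - g y - (z - y) * β| + |(z - y) * β| := abs_add_le _ _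
      _ ≤ |z - y| + |z - y| * |β| := by rw [abs_mul]; linarith
      _ = B * |z - y| := by rw [hB]; ring
  -- bound of the increments of `f`
  have h4 : |k| * |f z - f y| ≤ |g z - g y| + ε * |f z - f y| := by
    have e : k * (f z - f y) = (g z - g y) - (g z - g y - k * (f z - f y)) := by ring
    rw [← abs_mul, e]
    calc |g z - g y - (g z - g y - k * (f z - f y))|
        ≤ |g z - g y| + |g z - g y - k * (f z - f y)| := abs_sub _ _
      _ ≤ _ := by linarith
  have h5 : |k| / 2 * |f z - f y| ≤ B * |z - y| := by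
    nlinarith [abs_nonneg (f z - f y)]
  have h6 : |f z - f y| ≤ 2 * B / |k| * |z - y| := by
    rw [div_mul_eq_mul_div, le_div_iff₀ hkpos]
    nlinarith
  have e : f z - f y - (z - y) * (β / k) =
      ((g z - g y - (z - y) * β) - (g z - g y - k * (f z - f y))) / k := by
    field_simp
    ring
  rw [e, abs_div, div_le_iff₀ hkpos]
  calc |(g z - g y - (z - y) * β) - (g z - g y - k * (f z - f y))|
      ≤ |g z - g y - (z - y) * β| + |g z - g y - k * (f z - f y)| := abs_sub _ _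
    _ ≤ c * |k| / 2 * |z - y| + ε * |f z - f y| := by linarith
    _ ≤ c * |k| / 2 * |z - y| + c * |k| * |k| / (4 * B) * (2 * B / |k| * |z - y|) := by
        gcongr
    _ = c * |z - y| * |k| := by
        field_simp
        ring


/-- The derivative in `x` for all `y` from the one for `y0`. -/
theorem hasDerivAt_x {U V : Set ℝ} (hU : IsOpen U) (hUc : U.OrdConnected) {Ψ' C : ℝ → ℝ → ℝ}
    (hR : Rel V U (fun y x => Ψ' x y) (fun y x => C x y))
    (hc : ∀ y ∈ V, ContinuousOn (fun x => Ψ' x y) U)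
    (hm : ∀ y ∈ V, MonotoneOn (fun x => C x y) U) {x y0 y b : ℝ} (hx : x ∈ U) (hy0 : y0 ∈ V)
    (hy : y ∈ V) (hd : HasDerivAt (fun x => C x y0) b x) :
    HasDerivAt (fun x => C x y) (Real.exp (Ψ' x y - Ψ' x y0) * b) x := by
  have hN : U ∈ 𝓝 x := hU.mem_nhds hx
  refine hasDerivAt_of_squeeze (w := fun t => Real.exp (Ψ' t y - Ψ' t y0)) hN (hm y0 hy0) hd
    ?_ ?_
  · exact (Real.continuous_exp.continuousAt).comp
      (((hc y hy).continuousAt hN).sub ((hc y0 hy0).continuousAt hN))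
  · intro a ha c hcU hac m M hmM
    exact hR y0 hy0 y hy a c hac (hUc.out ha hcU) m M hmM

/-- The derivative in `y` at a point where `C` has a derivative in `x`. -/
theorem hasDerivAt_y {U V : Set ℝ} (hU : IsOpen U) (hUc : U.OrdConnected) (hV : IsOpen V)
    {Ψ Ψ' ψ ψ' C : ℝ → ℝ → ℝ}
    (hR1 : Rel U V Ψ C) (hR2 : Rel V U (fun y x => Ψ' x y) (fun y x => C x y))
    (hc : ∀ y ∈ V, ContinuousOn (fun x => Ψ' x y) U)
    (hψ : ∀ x ∈ U, ∀ y ∈ V, HasDerivAt (fun x => Ψ x y) (ψ x y) x)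
    (hψc : ContinuousOn (fun p : ℝ × ℝ => ψ p.1 p.2) (U ×ˢ V))
    (hψ' : ∀ x ∈ U, ∀ y ∈ V, HasDerivAt (Ψ' x) (ψ' x y) y)
    (hm : ∀ y ∈ V, MonotoneOn (fun x => C x y) U)
    (hm' : ∀ x ∈ U, ∀ y ∈ V, ∀ y' ∈ V, y ≤ y' → C x y ≤ C x y')
    {x y0 y b : ℝ} (hx : x ∈ U) (hy0 : y0 ∈ V)
    (hy : y ∈ V) (hd : HasDerivAt (fun x => C x y0) b x) (hne : ψ x y ≠ 0) :
    HasDerivAt (C x) (b * (Real.exp (Ψ' x y - Ψ' x y0) * ψ' x y / ψ x y)) y := by
  have hg : HasDerivAt (fun z => Real.exp (Ψ' x z - Ψ' x y0) * b)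
      (Real.exp (Ψ' x y - Ψ' x y0) * ψ' x y * b) y := by
    have h1 : HasDerivAt (fun z => Ψ' x z - Ψ' x y0) (ψ' x y) y := by
      simpa using (hψ' x hx y hy).sub_const (Ψ' x y0)
    exact h1.exp.mul_const b
  have hmain := hasDerivAt_of_ratio (f := C x) (g := fun z => Real.exp (Ψ' x z - Ψ' x y0) * b)
    (y := y) (β := Real.exp (Ψ' x y - Ψ' x y0) * ψ' x y * b) (k := ψ x y) hne hg ?_
  · have e : b * (Real.exp (Ψ' x y - Ψ' x y0) * ψ' x y / ψ x y) =
        Real.exp (Ψ' x y - Ψ' x y0) * ψ' x y * b / ψ x y := by ring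
    rw [e]
    exact hmain
  intro ε hε
  -- a product neighbourhood on which `ψ` is close to `ψ x y`
  have hUV : U ×ˢ V ∈ 𝓝 (x, y) := (hU.prod hV).mem_nhds ⟨hx, hy⟩
  have h1 : ∀ᶠ p : ℝ × ℝ in 𝓝 (x, y), p ∈ U ×ˢ V ∧ |ψ p.1 p.2 - ψ x y| < ε := by
    have h2 := (hψc.continuousAt hUV).tendsto.eventually
      (Metric.ball_mem_nhds (ψ x y) hε)
    filter_upwards [h2, hUV] with p hp hp'
    refine ⟨hp', ?_⟩
    rwa [Real.dist_eq] at hp
  obtain ⟨ρ, hρ, h2⟩ := Metric.eventually_nhds_iff_ball.1 h1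
  have hball : ∀ s t : ℝ, |s - x| < ρ → |t - y| < ρ →
      s ∈ U ∧ t ∈ V ∧ |ψ s t - ψ x y| < ε := by
    intro s t hs ht
    have := h2 (s, t) (by
      rw [Metric.mem_ball, Prod.dist_eq]
      simp only [Real.dist_eq]
      exact max_lt hs ht)
    exact ⟨this.1.1, this.1.2, this.2⟩
  -- the key estimate
  have key : ∀ y1 y2 : ℝ, |y1 - y| < ρ → |y2 - y| < ρ → y1 ≤ y2 →
      |Real.exp (Ψ' x y2 - Ψ' x y0) * b - Real.exp (Ψ' x y1 - Ψ' x y0) * b
        - ψ x y * (C x y2 - C x y1)| ≤ ε * (C x y2 - C x y1) := by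
    intro y1 y2 hy1 hy2 h12
    have hIcc : ∀ t ∈ Icc y1 y2, |t - y| < ρ := by
      intro t ht
      rw [abs_lt] at hy1 hy2 ⊢
      constructor <;> linarith [ht.1, ht.2]
    have hsub : Icc y1 y2 ⊆ V := fun t ht =>
      (hball x t (by simpa using hρ) (hIcc t ht)).2.1
    set Δ : ℝ := C x y2 - C x y1 with hΔ
    have hy1V : y1 ∈ V := hsub ⟨le_refl _, h12⟩
    have hy2V : y2 ∈ V := hsub ⟨h12, le_refl _⟩
    have hΔ0 : 0 ≤ Δ := by
      have := hm' x hx y1 hy1V y2 hy2V h12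
      rw [hΔ]; linarith
    have hF : HasDerivAt (fun s => C s y2 - C s y1)
        (Real.exp (Ψ' x y2 - Ψ' x y0) * b - Real.exp (Ψ' x y1 - Ψ' x y0) * b) x :=
      (hasDerivAt_x hU hUc hR2 hc hm hx hy0 hy2V hd).sub
        (hasDerivAt_x hU hUc hR2 hc hm hx hy0 hy1V hd)
    -- bounds of the exponentials
    have hexp : ∀ s : ℝ, x < s → s < x + ρ → ∀ t ∈ Icc y1 y2,
        Real.exp ((ψ x y - ε) * (s - x)) ≤ Real.exp (Ψ s t - Ψ x t) ∧
          Real.exp (Ψ s t - Ψ x t) ≤ Real.exp ((ψ x y + ε) * (s - x)) := by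
      intro s hs1 hs2 t ht
      obtain ⟨ξ, hξ, hξe⟩ := exists_hasDerivAt_eq_slope (fun r => Ψ r t) (fun r => ψ r t) hs1
        (by
          intro r hr
          have := hball r t (by rw [abs_lt]; constructor <;> linarith [hr.1, hr.2]) (hIcc t ht)
          exact (hψ r this.1 t this.2.1).continuousAt.continuousWithinAt)
        (by
          intro r hr
          have := hball r t (by rw [abs_lt]; constructor <;> linarith [hr.1, hr.2]) (hIcc t ht)
          exact hψ r this.1 t this.2.1)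
      have h3 := (hball ξ t (by rw [abs_lt]; constructor <;> linarith [hξ.1, hξ.2])
        (hIcc t ht)).2.2
      rw [eq_div_iff (by linarith)] at hξe
      rw [abs_lt] at h3
      have hsx : 0 < s - x := by linarith
      constructor
      · apply Real.exp_le_exp.2
        rw [← hξe]
        nlinarith [h3.1]
      · apply Real.exp_le_exp.2
        rw [← hξe]
        nlinarith [h3.2]
    have hG : ∀ k : ℝ, HasDerivAt (fun s => Real.exp (k * (s - x)) * Δ) (k * Δ) x := by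
      intro k
      have h4 : HasDerivAt (fun s => k * (s - x)) k x := by
        simpa using ((hasDerivAt_id x).sub_const x).const_mul k
      have h5 := h4.exp.mul_const Δ
      simpa using h5
    have hR : ∀ s : ℝ, x < s → s < x + ρ →
        Real.exp ((ψ x y - ε) * (s - x)) * Δ - Δ ≤ (C s y2 - C s y1) - Δ ∧
          (C s y2 - C s y1) - Δ ≤ Real.exp ((ψ x y + ε) * (s - x)) * Δ - Δ := by
      intro s hs1 hs2
      have hsU : s ∈ U := (hball s y (by rw [abs_lt]; constructor <;> linarith)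
        (by simpa using hρ)).1
      have := hR1 x hx s hsU y1 y2 h12 hsub _ _ (hexp s hs1 hs2)
      constructor <;> linarith [this.1, this.2]
    -- comparison of the right slopes
    have hcomp : ∀ {F G : ℝ → ℝ} {F' G' : ℝ}, HasDerivAt F F' x → HasDerivAt G G' x →
        (∀ s, x < s → s < x + ρ → F s - F x ≤ G s - G x) → F' ≤ G' := by
      intro F G F' G' hF hG hle
      have t1 := (hasDerivAt_iff_tendsto_slope.1 hF).mono_left
        (nhdsWithin_mono x (fun s (hs : x < s) => ne_of_gt hs) : 𝓝[>] x ≤ 𝓝[≠] x)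
      have t2 := (hasDerivAt_iff_tendsto_slope.1 hG).mono_left
        (nhdsWithin_mono x (fun s (hs : x < s) => ne_of_gt hs) : 𝓝[>] x ≤ 𝓝[≠] x)
      refine le_of_tendsto_of_tendsto t1 t2 ?_
      have hmem : Ioo x (x + ρ) ∈ 𝓝[>] x := Ioo_mem_nhdsGT (by linarith)
      filter_upwards [hmem] with s hs
      rw [slope_def_field, slope_def_field]
      have : 0 < s - x := by linarith [hs.1]
      exact div_le_div_of_nonneg_right (hle s hs.1 hs.2) this.le
    have hx0 : C x y2 - C x y1 = Δ := rfl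
    have hup := hcomp hF (hG (ψ x y + ε)) (by
      intro s hs1 hs2
      have := (hR s hs1 hs2).2
      simp only [sub_self, mul_zero, Real.exp_zero, one_mul]
      rw [hx0]
      linarith)
    have hlo := hcomp (hG (ψ x y - ε)) hF (by
      intro s hs1 hs2
      have := (hR s hs1 hs2).1
      simp only [sub_self, mul_zero, Real.exp_zero, one_mul]
      rw [hx0]
      linarith)
    rw [abs_le]
    constructor <;> nlinarith
  have hmem : Metric.ball y ρ ∈ 𝓝 y := Metric.ball_mem_nhds y hρ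
  filter_upwards [hmem] with z hz
  rw [Metric.mem_ball, Real.dist_eq] at hz
  have hyy : |y - y| < ρ := by simpa using hρ
  rcases le_total y z with h | h
  · have := key y z hyy hz h
    refine this.trans ?_
    gcongr
    exact le_abs_self _
  · have := key z y hz hyy h
    have e : Real.exp (Ψ' x z - Ψ' x y0) * b - Real.exp (Ψ' x y - Ψ' x y0) * b
        - ψ x y * (C x z - C x y) = -(Real.exp (Ψ' x y - Ψ' x y0) * b
        - Real.exp (Ψ' x z - Ψ' x y0) * b - ψ x y * (C x y - C x z)) := by ring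
    rw [e, abs_neg]
    refine this.trans ?_
    gcongr
    rw [abs_sub_comm]
    exact le_abs_self _


/-- What the uniqueness argument uses about a limit `C` of crossing probabilities. `U` is the set of
all flat positions of the first mark, `Ioo 0 δ ⊆ U` a flat piece next to `p1`, `V` the set of
the flat positions of the second mark, `L` the length of its arc. -/
structure CrossLim (U V : Set ℝ) (δ L : ℝ) (Ψ Ψ' C : ℝ → ℝ → ℝ) : Prop where
  rel1 : Rel U V Ψ C
  rel2 : Rel V (Ioo 0 δ) (fun y x => Ψ' x y) (fun y x => C x y)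
  mono1 : ∀ y ∈ V, MonotoneOn (fun x => C x y) (Ioo 0 δ)
  mono2 : ∀ x ∈ U, MonotoneOn (C x) (Icc 0 L)
  cont : ∀ x ∈ U, ContinuousOn (C x) (Icc 0 L)
  zero : ∀ x ∈ U, C x 0 = 0
  one : ∀ x ∈ U, C x L = 1

/-- **Uniqueness.** Two limits with the same functions `Ψ`, `Ψ'` are equal. -/
theorem CrossLim.unique {U V F : Set ℝ} {δ L : ℝ} (hδ : 0 < δ) (hL : 0 < L) (hUδ : Ioo 0 δ ⊆ U)
    (hF : F.Finite) (hV : V = Ioo 0 L \ F) {Ψ Ψ' ψ ψ' C D : ℝ → ℝ → ℝ}
    (hψ : ∀ x ∈ Ioo 0 δ, ∀ y ∈ V, HasDerivAt (fun x => Ψ x y) (ψ x y) x)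
    (hψc : ContinuousOn (fun p : ℝ × ℝ => ψ p.1 p.2) (Ioo 0 δ ×ˢ V))
    (hΨc : ∀ x ∈ U, ContinuousOn (Ψ x) V)
    (hΨ' : ∀ y ∈ V, ContinuousOn (fun x => Ψ' x y) (Ioo 0 δ))
    (hψ' : ∀ x ∈ Ioo 0 δ, ∀ y ∈ V, HasDerivAt (Ψ' x) (ψ' x y) y)
    (hne : ∀ y ∈ V, ∃ η > 0, ∀ x ∈ Ioo 0 η, ψ x y ≠ 0)
    (hC : CrossLim U V δ L Ψ Ψ' C) (hD : CrossLim U V δ L Ψ Ψ' D) :
    ∀ x ∈ U, ∀ y ∈ Icc 0 L, C x y = D x y := by
  have hVo : IsOpen V := by
    rw [hV]
    exact isOpen_Ioo.sdiff hF.isClosed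
  have hVsub : V ⊆ Icc 0 L := by
    rw [hV]
    exact fun y hy => Ioo_subset_Icc_self hy.1
  -- a point of `V`
  have hVne : V.Nonempty := by
    rw [hV]
    exact ((Ioo_infinite hL).sdiff hF).nonempty
  obtain ⟨y0, hy0⟩ := hVne
  -- good points `x` close to `0`
  have hgood : ∀ η > 0, ∃ x ∈ Ioo 0 (min δ η), (∃ b, HasDerivAt (fun x => C x y0) b x) ∧
      ∃ d, HasDerivAt (fun x => D x y0) d x := by
    intro η hη
    have hpos : 0 < min δ η := lt_min hδ hη
    have h1 := (hC.mono1 y0 hy0).ae_differentiableWithinAt measurableSet_Ioo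
    have h2 := (hD.mono1 y0 hy0).ae_differentiableWithinAt measurableSet_Ioo
    have h3 : ∀ᵐ x ∂(volume.restrict (Ioo 0 (min δ η))), x ∈ Ioo 0 (min δ η) ∧
        DifferentiableWithinAt ℝ (fun x => C x y0) (Ioo 0 δ) x ∧
        DifferentiableWithinAt ℝ (fun x => D x y0) (Ioo 0 δ) x := by
      have hle : volume.restrict (Ioo 0 (min δ η)) ≤ volume.restrict (Ioo (0 : ℝ) δ) :=
        Measure.restrict_mono (Ioo_subset_Ioo_right (min_le_left _ _)) le_rfl
      filter_upwards [ae_restrict_mem measurableSet_Ioo, ae_mono hle h1,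
        ae_mono hle h2] with x hx hx1 hx2
      exact ⟨hx, hx1, hx2⟩
    have hneb : (ae (volume.restrict (Ioo (0 : ℝ) (min δ η)))).NeBot := by
      rw [ae_neBot, Ne, Measure.restrict_eq_zero, Real.volume_Ioo]
      simp [hδ, hη]
    obtain ⟨x, hx, hx1, hx2⟩ := h3.exists
    have hx' : Ioo 0 δ ∈ 𝓝 x :=
      isOpen_Ioo.mem_nhds (Ioo_subset_Ioo_right (min_le_left _ _) hx)
    exact ⟨x, hx, ⟨_, (hx1.differentiableAt hx').hasDerivAt⟩,
      ⟨_, (hx2.differentiableAt hx').hasDerivAt⟩⟩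
  -- the derivative of `E x0` at a point of `V`
  have hder : ∀ E : ℝ → ℝ → ℝ, CrossLim U V δ L Ψ Ψ' E → ∀ x ∈ Ioo 0 δ, ∀ b,
      HasDerivAt (fun x => E x y0) b x → ∀ x0 ∈ U, ∀ y ∈ V, ψ x y ≠ 0 →
      HasDerivAt (E x0) (b * (Real.exp (Ψ x0 y - Ψ x y) *
        (Real.exp (Ψ' x y - Ψ' x y0) * ψ' x y / ψ x y))) y := by
    intro E hE x hx b hb x0 hx0 y hy hψy
    have hsq : Rel (Ioo 0 δ) V Ψ E := fun a ha a' ha' => hE.rel1 a (hUδ ha) a' (hUδ ha')
    have h1 := hasDerivAt_y isOpen_Ioo ordConnected_Ioo hVo hsq hE.rel2 hΨ' hψ hψc hψ' hE.mono1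
      (fun x hx y hy y' hy' hyy => hE.mono2 x (hUδ hx) (hVsub hy) (hVsub hy') hyy)
      hx hy0 hy hb hψy
    -- a neighbourhood of `y` inside `V`
    obtain ⟨r, hr, hrV⟩ := Metric.isOpen_iff.1 hVo y hy
    rw [Real.ball_eq_Ioo] at hrV
    have hN : Ioo (y - r) (y + r) ∈ 𝓝 y := Ioo_mem_nhds (by linarith) (by linarith)
    have h2 := hasDerivAt_of_squeeze (f := E x0) (g := E x)
      (w := fun t => Real.exp (Ψ x0 t - Ψ x t)) hN
      ((hE.mono2 x (hUδ hx)).mono (hrV.trans hVsub)) h1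
      ((Real.continuous_exp.continuousAt).comp
        (((hΨc x0 hx0).continuousAt (hVo.mem_nhds hy)).sub
          ((hΨc x (hUδ hx)).continuousAt (hVo.mem_nhds hy))))
      (by
        intro a ha c hc hac m M hmM
        exact hE.rel1 x (hUδ hx) x0 hx0 a c hac
          ((ordConnected_Ioo.out ha hc).trans hrV) m M hmM)
    have e : b * (Real.exp (Ψ x0 y - Ψ x y) * (Real.exp (Ψ' x y - Ψ' x y0) * ψ' x y / ψ x y)) =
        Real.exp (Ψ x0 y - Ψ x y) * (b * (Real.exp (Ψ' x y - Ψ' x y0) * ψ' x y / ψ x y)) := by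
      ring
    rw [e]
    exact h2
  intro x0 hx0
  -- differentiability everywhere on `V`
  have hdiff : ∀ E : ℝ → ℝ → ℝ, CrossLim U V δ L Ψ Ψ' E → ((E = C) ∨ (E = D)) →
      ∀ y ∈ V, ∃ e, HasDerivAt (E x0) e y := by
    intro E hE hED y hy
    obtain ⟨η, hη, hη'⟩ := hne y hy
    obtain ⟨x, hx, ⟨b, hb⟩, ⟨d, hd⟩⟩ := hgood η hη
    have hx1 : x ∈ Ioo 0 δ := Ioo_subset_Ioo_right (min_le_left _ _) hx
    have hx2 : ψ x y ≠ 0 := hη' x (Ioo_subset_Ioo_right (min_le_right _ _) hx)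
    rcases hED with rfl | rfl
    · exact ⟨_, hder _ hE x hx1 b hb x0 hx0 y hy hx2⟩
    · exact ⟨_, hder _ hE x hx1 d hd x0 hx0 y hy hx2⟩
  choose! c hc using hdiff C hC (Or.inl rfl)
  choose! d hd using hdiff D hD (Or.inr rfl)
  have hcd : ∀ y ∈ V, ∀ y1 ∈ V, c y * d y1 = d y * c y1 := by
    intro y hy y1 hy1
    obtain ⟨η, hη, hη'⟩ := hne y hy
    obtain ⟨η1, hη1, hη1'⟩ := hne y1 hy1
    obtain ⟨x, hx, ⟨b, hb⟩, ⟨b', hb'⟩⟩ := hgood (min η η1) (lt_min hη hη1)
    have hx1 : x ∈ Ioo 0 δ := Ioo_subset_Ioo_right (min_le_left _ _) hx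
    have hx2 : ψ x y ≠ 0 :=
      hη' x ⟨hx.1, hx.2.trans_le ((min_le_right _ _).trans (min_le_left _ _))⟩
    have hx3 : ψ x y1 ≠ 0 :=
      hη1' x ⟨hx.1, hx.2.trans_le ((min_le_right _ _).trans (min_le_right _ _))⟩
    rw [(hc y hy).unique (hder C hC x hx1 b hb x0 hx0 y hy hx2),
      (hc y1 hy1).unique (hder C hC x hx1 b hb x0 hx0 y1 hy1 hx3),
      (hd y hy).unique (hder D hD x hx1 b' hb' x0 hx0 y hy hx2),
      (hd y1 hy1).unique (hder D hD x hx1 b' hb' x0 hx0 y1 hy1 hx3)]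
    ring
  -- a function with zero derivative on `V` is constant
  have hconst : ∀ f : ℝ → ℝ, ContinuousOn f (Icc 0 L) → (∀ y ∈ V, HasDerivAt f 0 y) →
      ∀ y ∈ Icc 0 L, f y = f 0 := by
    intro f hf hf' y hy
    have h1 := MeasureTheory.integral_eq_of_hasDerivAt_off_countable f (fun _ => (0 : ℝ))
      (a := 0) (b := y) (s := F) hF.countable
      (by
        rw [uIcc_of_le hy.1]
        exact hf.mono (Icc_subset_Icc_right hy.2))
      (by
        intro t ht
        rw [min_eq_left hy.1, max_eq_right hy.1] at ht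
        apply hf' t
        rw [hV]
        exact ⟨⟨ht.1.1, ht.1.2.trans_le hy.2⟩, ht.2⟩)
      (by simp)
    simp only [intervalIntegral.integral_zero] at h1
    linarith
  -- a point where `d` does not vanish
  have hex : ∃ y1 ∈ V, d y1 ≠ 0 := by
    by_contra hno
    push Not at hno
    have := hconst (D x0) (hD.cont x0 hx0) (fun y hy => by
      have := hd y hy
      rwa [hno y hy] at this) L ⟨hL.le, le_refl _⟩
    rw [hD.zero x0 hx0, hD.one x0 hx0] at this
    exact one_ne_zero this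
  obtain ⟨y1, hy1, hdy1⟩ := hex
  set r : ℝ := c y1 / d y1 with hr
  have hcr : ∀ y ∈ V, c y - r * d y = 0 := by
    intro y hy
    have := hcd y hy y1 hy1
    rw [hr]
    field_simp
    linarith
  have hall := hconst (fun y => C x0 y - r * D x0 y)
    ((hC.cont x0 hx0).sub (continuousOn_const.mul (hD.cont x0 hx0))) (fun y hy => by
      have := (hc y hy).sub ((hd y hy).const_mul r)
      rwa [hcr y hy] at this)
  have hr1 : r = 1 := by
    have := hall L ⟨hL.le, le_refl _⟩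
    simp only [hC.one x0 hx0, hD.one x0 hx0, hC.zero x0 hx0, hD.zero x0 hx0] at this
    linarith
  intro y hy
  have := hall y hy
  simp only [hC.zero x0 hx0, hD.zero x0 hx0, hr1] at this
  linarith


/-- The exponent of `C x' y - C x y` at `y = 0` is the one of `exp Ψ'`. -/
theorem exponent_eq {V : Set ℝ} {δ : ℝ} {Ψ' C : ℝ → ℝ → ℝ} {s B a₁ a₂ e x x' y0 : ℝ}
    (hR : Rel V (Ioo 0 δ) (fun y x => Ψ' x y) (fun y x => C x y)) (hx : x ∈ Ioo 0 δ)
    (hx' : x' ∈ Ioo 0 δ) (hxx : x ≤ x') (hy0 : 0 < y0) (hV : Ioc 0 y0 ⊆ V)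
    (hΨ : ∀ t ∈ Icc x x', ∀ y ∈ Ioc 0 y0, |Ψ' t y - s * Real.log y| ≤ B) (ha : 0 < a₁)
    (hlo : ∀ y ∈ Ioc 0 y0, a₁ * y ^ e ≤ C x' y - C x y)
    (hup : ∀ y ∈ Ioc 0 y0, C x' y - C x y ≤ a₂ * y ^ e) : s = e := by
  have hy0m : y0 ∈ Ioc 0 y0 := ⟨hy0, le_refl _⟩
  have hD0 : 0 < C x' y0 - C x y0 := lt_of_lt_of_le (by positivity) (hlo y0 hy0m)
  set D0 : ℝ := C x' y0 - C x y0 with hD0'
  have ha2 : 0 < a₂ := by
    have := hup y0 hy0m
    by_contra hneg
    push Not at hneg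
    have h1 : a₂ * y0 ^ e ≤ 0 := mul_nonpos_of_nonpos_of_nonneg hneg (by positivity)
    linarith
  have hsub : Icc x x' ⊆ Ioo 0 δ := ordConnected_Ioo.out hx hx'
  -- two sided bound of the increments
  have hkey : ∀ y ∈ Ioc 0 y0,
      Real.exp (s * (Real.log y - Real.log y0) - 2 * B) * D0 ≤ C x' y - C x y ∧
        C x' y - C x y ≤ Real.exp (s * (Real.log y - Real.log y0) + 2 * B) * D0 := by
    intro y hy
    apply hR y0 (hV hy0m) y (hV hy) x x' hxx hsub
    intro t ht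
    have h1 := abs_le.1 (hΨ t ht y hy)
    have h2 := abs_le.1 (hΨ t ht y0 hy0m)
    constructor
    · apply Real.exp_le_exp.2
      linarith [h1.1, h2.2]
    · apply Real.exp_le_exp.2
      linarith [h1.2, h2.1]
  -- logarithmic form
  have hlog : ∀ y ∈ Ioc 0 y0, (s - e) * Real.log y ≤
      Real.log a₂ - Real.log D0 + s * Real.log y0 + 2 * B ∧
      Real.log a₁ - Real.log D0 + s * Real.log y0 - 2 * B ≤ (s - e) * Real.log y := by
    intro y hy
    have hype : 0 < y ^ e := Real.rpow_pos_of_pos hy.1 e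
    have hDpos : 0 < C x' y - C x y := lt_of_lt_of_le (by positivity) (hlo y hy)
    have hle : Real.log (y ^ e) = e * Real.log y := Real.log_rpow hy.1 e
    obtain ⟨k1, k2⟩ := hkey y hy
    constructor
    · have h1 := (k1.trans (hup y hy))
      have h2 := Real.log_le_log (by positivity) h1
      rw [Real.log_mul (Real.exp_ne_zero _) hD0.ne', Real.log_exp, Real.log_mul ha2.ne' hype.ne',
        hle] at h2
      linarith
    · have h1 := ((hlo y hy).trans k2)
      have h2 := Real.log_le_log (by positivity) h1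
      rw [Real.log_mul ha.ne' hype.ne', hle, Real.log_mul (Real.exp_ne_zero _) hD0.ne',
        Real.log_exp] at h2
      linarith
  by_contra hne
  have hne' : s - e ≠ 0 := sub_ne_zero.2 hne
  -- `log y` is arbitrarily negative
  rcases lt_or_gt_of_ne hne' with hneg | hpos
  · set K : ℝ := Real.log a₂ - Real.log D0 + s * Real.log y0 + 2 * B with hK
    set l : ℝ := min (Real.log y0) ((K + 1) / (s - e)) with hl
    have hm : Real.exp l ∈ Ioc 0 y0 := by
      refine ⟨Real.exp_pos _, ?_⟩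
      rw [← Real.le_log_iff_exp_le hy0]
      exact min_le_left _ _
    have h1 := (hlog _ hm).1
    rw [Real.log_exp] at h1
    have h2 : l ≤ (K + 1) / (s - e) := min_le_right _ _
    have h3 : (s - e) * ((K + 1) / (s - e)) ≤ (s - e) * l :=
      mul_le_mul_of_nonpos_left h2 hneg.le
    rw [mul_div_cancel₀ _ hne'] at h3
    linarith
  · set K : ℝ := Real.log a₁ - Real.log D0 + s * Real.log y0 - 2 * B with hK
    set l : ℝ := min (Real.log y0) ((K - 1) / (s - e)) with hl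
    have hm : Real.exp l ∈ Ioc 0 y0 := by
      refine ⟨Real.exp_pos _, ?_⟩
      rw [← Real.le_log_iff_exp_le hy0]
      exact min_le_left _ _
    have h1 := (hlog _ hm).2
    rw [Real.log_exp] at h1
    have h2 : l ≤ (K - 1) / (s - e) := min_le_right _ _
    have h3 : (s - e) * l ≤ (s - e) * ((K - 1) / (s - e)) :=
      mul_le_mul_of_nonneg_left h2 hpos.le
    rw [mul_div_cancel₀ _ hne'] at h3
    linarith

/-- The half plane exponent `1/3` seen by `C`: two positions `x < x'` of the first mark such that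
`C x' y - C x y` is of order `y ^ (1/3)`. -/
def ArmThird (δ : ℝ) (C : ℝ → ℝ → ℝ) (x x' y0 : ℝ) : Prop :=
  x ∈ Ioo 0 δ ∧ x' ∈ Ioo 0 δ ∧ x ≤ x' ∧ ∃ a₁ > 0, ∃ a₂ : ℝ, ∀ y ∈ Ioc 0 y0,
    a₁ * y ^ (1 / 3 : ℝ) ≤ C x' y - C x y ∧ C x' y - C x y ≤ a₂ * y ^ (1 / 3 : ℝ)

/-- **Existence of the limit.** If every subsequence of `Cn` has a further subsequence which
converges to some `C` with the two relations for the functions `s Θ`, `s Θ'` (`s` unknown) and with
the exponent `1/3`, then `Cn` converges. -/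
theorem CrossLim.tendsto {U V F : Set ℝ} {δ L : ℝ} (hδ : 0 < δ) (hL : 0 < L)
    (hUδ : Ioo 0 δ ⊆ U) (hF : F.Finite) (hV : V = Ioo 0 L \ F) {Θ Θ' θ θ' : ℝ → ℝ → ℝ}
    (hθ : ∀ x ∈ Ioo 0 δ, ∀ y ∈ V, HasDerivAt (fun x => Θ x y) (θ x y) x)
    (hθc : ContinuousOn (fun p : ℝ × ℝ => θ p.1 p.2) (Ioo 0 δ ×ˢ V))
    (hΘc : ∀ x ∈ U, ContinuousOn (Θ x) V)
    (hΘ' : ∀ y ∈ V, ContinuousOn (fun x => Θ' x y) (Ioo 0 δ))
    (hθ' : ∀ x ∈ Ioo 0 δ, ∀ y ∈ V, HasDerivAt (Θ' x) (θ' x y) y)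
    (hne : ∀ y ∈ V, ∃ η > 0, ∀ x ∈ Ioo 0 η, θ x y ≠ 0)
    {x x' y0 B : ℝ} (hy0 : 0 < y0) (hyV : Ioc 0 y0 ⊆ V)
    (hB : ∀ t ∈ Icc x x', ∀ y ∈ Ioc 0 y0, |Θ' t y - Real.log y| ≤ B)
    {Cn : ℕ → ℝ → ℝ → ℝ}
    (h : ∀ φ : ℕ → ℕ, StrictMono φ → ∃ ξ : ℕ → ℕ, StrictMono ξ ∧ ∃ (s : ℝ) (C : ℝ → ℝ → ℝ),
      CrossLim U V δ L (fun x y => s * Θ x y) (fun x y => s * Θ' x y) C ∧
      ArmThird δ C x x' y0 ∧
      ∀ u ∈ U, ∀ y ∈ Icc 0 L, Tendsto (fun k => Cn (φ (ξ k)) u y) atTop (𝓝 (C u y))) :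
    ∃ C : ℝ → ℝ → ℝ, CrossLim U V δ L (fun x y => 1 / 3 * Θ x y) (fun x y => 1 / 3 * Θ' x y) C ∧
      ∀ u ∈ U, ∀ y ∈ Icc 0 L, Tendsto (fun n => Cn n u y) atTop (𝓝 (C u y)) := by
  have hthird : ∀ (s : ℝ) (C : ℝ → ℝ → ℝ),
      CrossLim U V δ L (fun x y => s * Θ x y) (fun x y => s * Θ' x y) C →
      ArmThird δ C x x' y0 → s = 1 / 3 := by
    intro s C hC hA
    obtain ⟨hx, hx', hxx, a₁, ha₁, a₂, hA⟩ := hA
    refine exponent_eq (B := |s| * B) hC.rel2 hx hx' hxx hy0 hyV ?_ ha₁ (fun y hy => (hA y hy).1)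
      (fun y hy => (hA y hy).2)
    intro t ht y hy
    have e : s * Θ' t y - s * Real.log y = s * (Θ' t y - Real.log y) := by ring
    rw [e, abs_mul]
    gcongr
    exact hB t ht y hy
  obtain ⟨ξ, -, s, C, hC, hA, -⟩ := h id strictMono_id
  have hs := hthird s C hC hA
  subst hs
  refine ⟨C, hC, ?_⟩
  intro u hu y hy
  apply tendsto_of_subseq_tendsto
  intro ns hns
  obtain ⟨φ, hφ, hφ'⟩ := strictMono_subseq_of_tendsto_atTop hns
  obtain ⟨ξ', -, s', C', hC', hA', hT⟩ := h (ns ∘ φ) hφ'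
  have hs' := hthird s' C' hC' hA'
  subst hs'
  refine ⟨φ ∘ ξ', ?_⟩
  have heq := CrossLim.unique hδ hL hUδ hF hV (ψ := fun x y => 1 / 3 * θ x y)
    (ψ' := fun x y => 1 / 3 * θ' x y)
    (fun x hx y hy => (hθ x hx y hy).const_mul _)
    (continuousOn_const.mul hθc) (fun x hx => continuousOn_const.mul (hΘc x hx))
    (fun y hy => continuousOn_const.mul (hΘ' y hy))
    (fun x hx y hy => (hθ' x hx y hy).const_mul _)
    (fun y hy => by
      obtain ⟨η, hη, h1⟩ := hne y hy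
      exact ⟨η, hη, fun x hx => mul_ne_zero (by norm_num) (h1 x hx)⟩) hC hC' u hu y hy
  rw [heq]
  exact hT u hu y hy

/-- Relation (R) from its mean value form. -/
theorem Rel.of_mean {U V : Set ℝ} {Ψ C : ℝ → ℝ → ℝ}
    (hm : ∀ x ∈ U, ∀ y y' : ℝ, y ≤ y' → Icc y y' ⊆ V → C x y ≤ C x y')
    (h : ∀ x ∈ U, ∀ x' ∈ U, ∀ y y' : ℝ, y < y' → Icc y y' ⊆ V → ∃ ξ ∈ Icc y y',
      C x' y' - C x' y = Real.exp (Ψ x' ξ - Ψ x ξ) * (C x y' - C x y)) : Rel U V Ψ C := by
  intro x hx x' hx' y y' hyy hV m M hmM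
  rcases hyy.eq_or_lt with rfl | hlt
  · simp
  obtain ⟨ξ, hξ, he⟩ := h x hx x' hx' y y' hlt hV
  have h0 : 0 ≤ C x y' - C x y := by linarith [hm x hx y y' hyy hV]
  rw [he]
  exact ⟨mul_le_mul_of_nonneg_right (hmM ξ hξ).1 h0, mul_le_mul_of_nonneg_right (hmM ξ hξ).2 h0⟩

/-- `CrossLim` from the two relations in mean value form (`x` on `(0, M)` off the finite set `E`, `y` on
`(0, L)` off the finite set `F`). -/
theorem CrossLim.of_mean {E F : Set ℝ} {δ L M : ℝ} {Ψ Ψ' C : ℝ → ℝ → ℝ}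
    (hδM : δ ≤ M) (hδE : Disjoint (Ioo 0 δ) E)
    (h1 : ∀ x ∈ Ioo 0 M \ E, ∀ x' ∈ Ioo 0 M \ E, ∀ y y' : ℝ, y < y' → Icc y y' ⊆ Ioo 0 L \ F →
      ∃ ξ ∈ Icc y y', C x' y' - C x' y = Real.exp (Ψ x' ξ - Ψ x ξ) * (C x y' - C x y))
    (h2 : ∀ y ∈ Ioo 0 L \ F, ∀ y' ∈ Ioo 0 L \ F, ∀ x x' : ℝ, x < x' → Icc x x' ⊆ Ioo 0 M \ E →
      ∃ ξ ∈ Icc x x', C x' y' - C x y' = Real.exp (Ψ' ξ y' - Ψ' ξ y) * (C x' y - C x y))
    (hm1 : ∀ y ∈ Ioo 0 L \ F, MonotoneOn (fun x => C x y) (Ioo 0 M))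
    (hm2 : ∀ x ∈ Ioo 0 M \ E, MonotoneOn (C x) (Icc 0 L))
    (hc : ∀ x ∈ Ioo 0 M \ E, ContinuousOn (C x) (Icc 0 L))
    (h0 : ∀ x ∈ Ioo 0 M \ E, C x 0 = 0) (hL : ∀ x ∈ Ioo 0 M \ E, C x L = 1) :
    CrossLim (Ioo 0 M \ E) (Ioo 0 L \ F) δ L Ψ Ψ' C := by
  have hsub : Ioo 0 δ ⊆ Ioo 0 M \ E := fun x hx =>
    ⟨Ioo_subset_Ioo_right hδM hx, fun hxE => Set.disjoint_left.1 hδE hx hxE⟩
  refine ⟨?_, ?_, ?_, hm2, hc, h0, hL⟩
  · refine Rel.of_mean ?_ h1
    intro x hx y y' hyy hV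
    have hy : y ∈ Icc 0 L := Ioo_subset_Icc_self (hV ⟨le_refl _, hyy⟩).1
    have hy' : y' ∈ Icc 0 L := Ioo_subset_Icc_self (hV ⟨hyy, le_refl _⟩).1
    exact hm2 x hx hy hy' hyy
  · refine Rel.of_mean ?_ ?_
    · intro y hy x x' hxx hU
      have hx : x ∈ Ioo 0 M := Ioo_subset_Ioo_right hδM (hU ⟨le_refl _, hxx⟩)
      have hx' : x' ∈ Ioo 0 M := Ioo_subset_Ioo_right hδM (hU ⟨hxx, le_refl _⟩)
      exact hm1 y hy hx hx' hxx
    · intro y hy y' hy' x x' hxx hU
      exact h2 y hy y' hy' x x' hxx (hU.trans hsub)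
  · intro y hy
    exact (hm1 y hy).mono (Ioo_subset_Ioo_right hδM)

end Pool.Agent.SixB
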