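import Pool.Agent.Lib.MP_6bd702_zc.Y024

/-!
# The cylinder of circumference `N` as a complex of quadrangles, and its covering by the plane
-/

set_option autoImplicit false

namespace Pool.Agent.SixB

open Pool.Agent.Perc Pool.Agent.Perc.Q Relation

/-- The covering map from the plane to the cylinder (on vertices and on faces). -/
def pN (N : ℕ) (v : ℤ × ℤ) : ZMod N × ℤ := ((v.1 : ZMod N), v.2)

/-- The corners of a face of the cylinder. -/
def corC (N : ℕ) (f : ZMod N × ℤ) (k : ZMod 4) : ZMod N × ℤ :=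
  if k = 0 then f else if k = 1 then (f.1 + 1, f.2) else if k = 2 then (f.1 + 1, f.2 + 1)
  else (f.1, f.2 + 1)

theorem corC_0 {N : ℕ} (f : ZMod N × ℤ) : corC N f 0 = f := rfl
theorem corC_1 {N : ℕ} (f : ZMod N × ℤ) : corC N f 1 = (f.1 + 1, f.2) := rfl
theorem corC_2 {N : ℕ} (f : ZMod N × ℤ) : corC N f 2 = (f.1 + 1, f.2 + 1) := rfl
theorem corC_3 {N : ℕ} (f : ZMod N × ℤ) : corC N f 3 = (f.1, f.2 + 1) := rfl

theorem corC_pN {N : ℕ} (f : ℤ × ℤ) (k : ZMod 4) : corC N (pN N f) k = pN N (cor0 f k) := by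
  rcases k4_cases k with rfl | rfl | rfl | rfl
  · rfl
  · exact Prod.ext (by simp [corC_1, cor0_1, pN]) rfl
  · exact Prod.ext (by simp [corC_2, cor0_2, pN]) rfl
  · exact Prod.ext (by simp [corC_3, pN]; rfl) rfl

theorem one_ne_neg_one_zmod {N : ℕ} (hN : 3 ≤ N) : (1 : ZMod N) ≠ -1 := by
  intro h
  have h1 : ((2 : ℕ) : ZMod N) = 0 := by
    have : (1 : ZMod N) + 1 = 0 := by
      nth_rewrite 2 [h]
      simp
    push_cast
    rw [← this]; norm_num
  rw [ZMod.natCast_eq_zero_iff] at h1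
  exact absurd (Nat.le_of_dvd (by norm_num) h1) (by omega)

theorem one_ne_zero_zmod {N : ℕ} (hN : 3 ≤ N) : (1 : ZMod N) ≠ 0 := by
  intro h
  have h1 : ((1 : ℕ) : ZMod N) = 0 := by exact_mod_cast h
  rw [ZMod.natCast_eq_zero_iff] at h1
  exact absurd (Nat.le_of_dvd (by norm_num) h1) (by omega)

theorem corC_inj {N : ℕ} (hN : 3 ≤ N) {f : ZMod N × ℤ} {k : ZMod 4} {f' : ZMod N × ℤ}
    {k' : ZMod 4} (h : corC N f k = corC N f' k') (h' : corC N f (k + 1) = corC N f' (k' + 1)) :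
    f = f' ∧ k = k' := by
  have h1 := one_ne_neg_one_zmod hN
  have h0 := one_ne_zero_zmod hN
  obtain ⟨x, y⟩ := f
  obtain ⟨x', y'⟩ := f'
  have e1 : (0 : ZMod 4) + 1 = 1 := rfl
  have e2 : (1 : ZMod 4) + 1 = 2 := rfl
  have e3 : (2 : ZMod 4) + 1 = 3 := rfl
  have e4 : (3 : ZMod 4) + 1 = 0 := rfl
  rcases k4_cases k with rfl | rfl | rfl | rfl <;> rcases k4_cases k' with rfl | rfl | rfl | rfl <;>
    simp only [e1, e2, e3, e4, corC_0, corC_1, corC_2, corC_3, Prod.mk.injEq] at h h' <;>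
    obtain ⟨ha, hb⟩ := h <;> obtain ⟨hc, hd⟩ := h'
  all_goals first
    | exact ⟨Prod.ext (by first | exact ha | exact hc | exact add_right_cancel ha) (by simp only; omega), rfl⟩
    | (exfalso; omega)
    | (exfalso; apply h1; linear_combination hc - ha)
    | (exfalso; apply h1; linear_combination ha - hc)

/-- The cylinder of circumference `N`. -/
def CQ (N : ℕ) [hN : Fact (3 ≤ N)] : QC (ZMod N × ℤ) (ZMod N × ℤ) where
  c := corC N
  inj := corC_inj hN.out

end Pool.Agent.SixB
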