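import Pool.Agent.Lib.SixB.CylRow
import Pool.Agent.Lib.SixB.S0Ins

/-!
# The cylinder: arrow sums of arbitrary sets of faces as vectors and matrix elements

* `Psi F h y s`: the arrow sum of `F` with the arrows of the level `y` prescribed (`s x = true`: up);
* `Psi_row`, `Psi_rows`: rows on top of `F` apply the matrix `2 ^ N • rowM N`;
* `Z6_cutL`: `Z6 (F₁ ∪ F₂) = ∑ s, Psi F₁ s * Psi F₂ s`;
* `Psi_sign`: the sign of an arrow of the level is a diagonal matrix.
-/

set_option autoImplicit false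
set_option linter.unusedSectionVars false

namespace Pool.Agent.SixB

open Pool.Agent.Perc Pool.Agent.Perc.Q Relation Pool.Agent.SixV

noncomputable section

variable {N : ℕ} [hN : Fact (3 ≤ N)]
  {F F₁ F₂ : Finset (ZMod N × ℤ)} {h h₁ h₂ : (ZMod N × ℤ) × (ZMod N × ℤ) → ℂ} {y : ℤ}

/-- the arrow sum with the arrows of the level `y` prescribed -/
def Psi (F : Finset (ZMod N × ℤ)) (h : (ZMod N × ℤ) × (ZMod N × ℤ) → ℂ) (y : ℤ)
    (s : ZMod N → Bool) : ℂ := Z6 (CQ N) F (fun a => h a * ldl y s a)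

/-- all faces are below the level `y` -/
def Below (F : Finset (ZMod N × ℤ)) (y : ℤ) : Prop := ∀ f ∈ F, f.2 < y

/-- all faces are above the level `y` -/
def Above (F : Finset (ZMod N × ℤ)) (y : ℤ) : Prop := ∀ f ∈ F, y ≤ f.2

/-- the weight is trivial outside the sides of `F` -/
def OffOne (F : Finset (ZMod N × ℤ)) (h : (ZMod N × ℤ) × (ZMod N × ℤ) → ℂ) : Prop :=
  ∀ a, a ∉ dE (CQ N) F → h a = 1

theorem corC_height (f : ZMod N × ℤ) (k : ZMod 4) :
    f.2 ≤ (corC N f k).2 ∧ (corC N f k).2 ≤ f.2 + 1 := by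
  rcases k4_cases k with rfl | rfl | rfl | rfl
  · rw [corC_0]; omega
  · rw [corC_1]; simp only; omega
  · rw [corC_2]; simp only; omega
  · rw [corC_3]; simp only; omega

theorem Below.height (hF : Below F y) {a : (ZMod N × ℤ) × (ZMod N × ℤ)} (ha : a ∈ dE (CQ N) F) :
    a.1.2 ≤ y ∧ a.2.2 ≤ y := by
  obtain ⟨f, hf, k, rfl | rfl⟩ := mem_dE.mp ha
  · have h1 := hF f hf
    have h2 := corC_height f k
    have h3 := corC_height f (k + 1)
    exact ⟨by change (corC N f k).2 ≤ y; omega, by change (corC N f (k + 1)).2 ≤ y; omega⟩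
  · have h1 := hF f hf
    have h2 := corC_height f k
    have h3 := corC_height f (k + 1)
    exact ⟨by change (corC N f (k + 1)).2 ≤ y; omega, by change (corC N f k).2 ≤ y; omega⟩

theorem Above.height (hF : Above F y) {a : (ZMod N × ℤ) × (ZMod N × ℤ)} (ha : a ∈ dE (CQ N) F) :
    y ≤ a.1.2 ∧ y ≤ a.2.2 := by
  obtain ⟨f, hf, k, rfl | rfl⟩ := mem_dE.mp ha
  · have h1 := hF f hf
    have h2 := corC_height f k
    have h3 := corC_height f (k + 1)
    exact ⟨by change y ≤ (corC N f k).2; omega, by change y ≤ (corC N f (k + 1)).2; omega⟩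
  · have h1 := hF f hf
    have h2 := corC_height f k
    have h3 := corC_height f (k + 1)
    exact ⟨by change y ≤ (corC N f (k + 1)).2; omega, by change y ≤ (corC N f k).2; omega⟩

theorem disj_of (h1 : Below F₁ y) (h2 : Above F₂ y) : Disjoint F₁ F₂ := by
  rw [Finset.disjoint_left]
  intro f hf hf'
  have := h1 f hf
  have := h2 f hf'
  omega

/-- a horizontal edge of height `y` of any face belongs to the level `y` -/
theorem mem_lvl_of_height {a : (ZMod N × ℤ) × (ZMod N × ℤ)} (ha : a ∈ dE (CQ N) F)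
    (h1 : a.1.2 = y) (h2 : a.2.2 = y) : a ∈ lvl N y := by
  have key : ∀ (f : ZMod N × ℤ) (k : ZMod 4), (sd (CQ N) f k).1.2 = y → (sd (CQ N) f k).2.2 = y →
      sd (CQ N) f k ∈ lvl N y := by
    rintro ⟨x, y'⟩ k h1 h2
    rcases k4_cases k with rfl | rfl | rfl | rfl
    · have : y' = y := h1
      subst this
      exact mem_lvl.mpr ⟨x, Or.inl rfl⟩
    · exfalso
      have e1 : y' = y := h1
      have e2 : y' + 1 = y := h2
      omega
    · have : y' + 1 = y := h1
      subst this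
      refine mem_lvl.mpr ⟨x, Or.inr ?_⟩
      rw [row_sd2]
      rfl
    · exfalso
      have e1 : y' + 1 = y := h1
      have e2 : y' = y := h2
      omega
  obtain ⟨f, hf, k, rfl | rfl⟩ := mem_dE.mp ha
  · exact key f k h1 h2
  · exact lvl_swap (key f k h2 h1)

theorem cE_sub_lvl (h1 : Below F₁ y) (h2 : Above F₂ y) : cE (CQ N) F₁ F₂ ⊆ lvl N y := by
  intro a ha
  obtain ⟨ha1, ha2⟩ := Finset.mem_inter.mp ha
  have h3 := h1.height ha1
  have h4 := h2.height ha2
  exact mem_lvl_of_height ha1 (by omega) (by omega)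

theorem above_cylF {y₁ : ℤ} : Above (cylF N y y₁) y := fun _ hf => (mem_cylF.mp hf).1

theorem below_cylF {y₀ : ℤ} : Below (cylF N y₀ y) y := fun _ hf => (mem_cylF.mp hf).2

theorem lvl_sub_top {y₀ : ℤ} (hy : y₀ < y) : lvl N y ⊆ dE (CQ N) (cylF N y₀ y) := by
  intro a ha
  have h1 : ∀ x : ZMod N, bE x y ∈ dE (CQ N) (cylF N y₀ y) := by
    intro x
    refine mem_dE.mpr ⟨(x, y - 1), mem_cylF_mk.mpr ⟨by omega, by omega⟩, 2, Or.inr ?_⟩
    rw [csd_swap_2, sub_add_cancel]
    rfl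
  obtain ⟨x, rfl | rfl⟩ := mem_lvl.mp ha
  · exact h1 x
  · exact swap_mem_dE.mpr (h1 x)

theorem lvl_sub_bot {y₁ : ℤ} (hy : y < y₁) : lvl N y ⊆ dE (CQ N) (cylF N y y₁) := by
  intro a ha
  have h1 : ∀ x : ZMod N, bE x y ∈ dE (CQ N) (cylF N y y₁) := fun x =>
    sd_mem (Q := CQ N) (f := (x, y)) (mem_cylF_mk.mpr ⟨le_refl y, hy⟩) 0
  obtain ⟨x, rfl | rfl⟩ := mem_lvl.mp ha
  · exact h1 x
  · exact swap_mem_dE.mpr (h1 x)

theorem lvl_sub_row (y : ℤ) : lvl N y ⊆ dE (CQ N) (cylF N y (y + 1)) := lvl_sub_bot (by omega)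

/-- **Cutting along a level.** -/
theorem Z6_cutL (hb : Below F₁ y) (ha : Above F₂ y) (hl : lvl N y ⊆ dE (CQ N) F₂)
    (ho1 : OffOne F₁ h₁) (ho2 : OffOne F₂ h₂) :
    Z6 (CQ N) (F₁ ∪ F₂) (fun a => h₁ a * h₂ a) = ∑ s, Psi F₁ h₁ y s * Psi F₂ h₂ y s := by
  rw [Z6_glue_lev (K := lvl N y) (disj_of hb ha) (cE_sub_lvl hb ha) hl (fun a => lvl_swap)
    (fun a => h₁ a * h₂ a) h₁ h₂ (fun a _ => rfl)]
  · unfold lvl
    rw [(isFam_lvl y).sum_karr]
    rfl
  · intro a ha1 ha2
    have h3 : a ∉ dE (CQ N) F₂ := fun h4 => ha2 (Finset.mem_inter.mpr ⟨ha1, h4⟩)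
    rw [ho2 a h3, mul_one]
  · intro a ha1 ha2
    have h3 : a ∉ dE (CQ N) F₁ := fun h4 => ha2 (Finset.mem_inter.mpr ⟨h4, ha1⟩)
    rw [ho1 a h3, one_mul]

/-- **One more row.** -/
theorem Psi_row (hb : Below F y) (ho : OffOne F h) (s' : ZMod N → Bool) :
    Psi (F ∪ cylF N y (y + 1)) h (y + 1) s' = ∑ s, (2 ^ N * rowM N s' s) * Psi F h y s := by
  have ha : Above (cylF N y (y + 1)) y := above_cylF
  unfold Psi
  rw [Z6_glue_lev (K := lvl N y) (disj_of hb ha) (cE_sub_lvl hb ha) (lvl_sub_row y)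
    (fun a => lvl_swap) (fun a => h a * ldl (y + 1) s' a) h (ldl (y + 1) s') (fun a _ => rfl)]
  · unfold lvl
    rw [(isFam_lvl y).sum_karr]
    refine Finset.sum_congr rfl fun s _ => ?_
    rw [mul_comm]
    congr 1
    exact Z6_row_ldl y s s'
  · intro a ha1 _
    have h3 := hb.height ha1
    rw [ldl_of_ne (by left; omega), mul_one]
  · intro a ha1 ha2
    have h3 : a ∉ dE (CQ N) F := fun h4 => ha2 (Finset.mem_inter.mpr ⟨h4, ha1⟩)
    rw [ho a h3, one_mul]

theorem cylF_succ {y₀ : ℤ} (hy : y₀ ≤ y) : cylF N y₀ (y + 1) = cylF N y₀ y ∪ cylF N y (y + 1) := by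
  ext f
  rw [Finset.mem_union, mem_cylF, mem_cylF, mem_cylF]
  omega

theorem OffOne.mono (ho : OffOne F₁ h) (hF : F₁ ⊆ F₂) : OffOne F₂ h :=
  fun a ha => ho a fun h1 => ha (dE_mono' hF h1)
where
  dE_mono' {F₁ F₂ : Finset (ZMod N × ℤ)} (hF : F₁ ⊆ F₂) : dE (CQ N) F₁ ⊆ dE (CQ N) F₂ := by
    intro a ha
    obtain ⟨f, hf, k, h⟩ := mem_dE.mp ha
    exact mem_dE.mpr ⟨f, hF hf, k, h⟩

/-- **Several rows.** -/
theorem Psi_rows (hb : Below F y) (ho : OffOne F h) (m : ℕ) :
    Psi (F ∪ cylF N y (y + m)) h (y + m) = (((2 : ℂ) ^ N • rowM N) ^ m).mulVec (Psi F h y) := by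
  induction m with
  | zero =>
    have : cylF N y (y + (0 : ℕ)) = ∅ := by
      ext f
      rw [mem_cylF]
      simp only [Nat.cast_zero, add_zero, Finset.notMem_empty, iff_false]
      omega
    rw [this, Finset.union_empty, pow_zero, Matrix.one_mulVec]
    simp
  | succ m ih =>
    have e1 : y + ((m + 1 : ℕ) : ℤ) = y + m + 1 := by push_cast; ring
    have hb' : Below (F ∪ cylF N y (y + m)) (y + m) := by
      intro f hf
      rcases Finset.mem_union.mp hf with hf | hf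
      · have := hb f hf
        omega
      · exact (mem_cylF.mp hf).2
    rw [e1, cylF_succ (by omega), ← Finset.union_assoc, pow_succ', ← Matrix.mulVec_mulVec, ← ih]
    funext s'
    rw [Psi_row hb' (ho.mono Finset.subset_union_left)]
    simp only [Matrix.mulVec, dotProduct, Matrix.smul_apply, smul_eq_mul]

/-- nothing below: the constant vector -/
theorem Psi_empty (s : ZMod N → Bool) : Psi (∅ : Finset (ZMod N × ℤ)) h y s = 1 := by
  unfold Psi Z6
  have h1 : dE (CQ N) (∅ : Finset (ZMod N × ℤ)) = ∅ := by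
    unfold dE
    rw [Finset.biUnion_empty]
  have h2 : Arrs (CQ N) (∅ : Finset (ZMod N × ℤ)) = {∅} := by
    unfold Arrs
    rw [h1]
    ext α
    simp
  rw [h2]
  simp

/-- **A sign at the level** is a diagonal matrix. -/
theorem Psi_sign (hl : lvl N y ⊆ dE (CQ N) F) (x : ZMod N) (s : ZMod N → Bool) :
    Psi F (fun a => h a * sgE (bE x y) a) y s = (if s x then 1 else -1) * Psi F h y s := by
  unfold Psi ldl
  have hE := isFam_lvl (N := N) y
  change Z6 (CQ N) F (fun a => h a * sgE (bE x y) a * dlt (lvl N y) (los y s) a) = _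
  rw [Z6_weight (K := lvl N y) (κ := los y s) hl (fun a => lvl_swap) (hE.oset_mem s) h
    (sgE (bE x y))]
  · congr 1
    unfold los
    rw [hE.prod_oset, Fintype.prod_eq_single x]
    · unfold sgE
      cases h1 : s x
      · simp
      · simp only [if_true]
        rw [if_neg (hE.ne x x)]
    · intro x' hx'
      unfold sgE
      rw [if_neg]
      split_ifs
      · exact hE.ne x' x
      · intro h2
        exact hx' (hE.inj (Prod.swap_injective h2))
  · intro a ha
    unfold sgE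
    rw [if_neg]
    rintro rfl
    exact ha (mem_lvl.mpr ⟨x, Or.inr rfl⟩)

end

end Pool.Agent.SixB
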