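import Pool.Agent.Lib.SixB.CylSign
import Pool.Agent.Lib.SixB.S0Av
import Pool.Agent.Lib.SixB.CylPsi

/-!
# The high cylinder of odd circumference: exactly one strand goes through

* `av_nz`: the probability that no row is a zigzag is `(1 - 2 ^ (-N)) ^ m`;
* `abs_thr_sub`: `|c4 ^ thr - c4| ≤ c4 ^ N * 1 (no row is a zigzag)`;
* `thr_moment`: `E c4 ^ thr ≤ 2` for all high cylinders;
* `Z6_flat`, `Z6_signs`: `Z6 = √3 ^ N * 2 ^ |F| * E (gg * c4 ^ thr)`.
-/

set_option autoImplicit false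
set_option linter.unusedSectionVars false

namespace Pool.Agent.SixB

open Pool.Agent.Perc Pool.Agent.Perc.Q Relation Filter Topology

noncomputable section

variable {N : ℕ} [hN : Fact (3 ≤ N)] {ω : ZMod N × ℤ → Bool} {y₀ y₁ y : ℤ}
  {e e' : (ZMod N × ℤ) × (ZMod N × ℤ)}

open Classical in
/-- `1` if the row `y` is not a zigzag -/
def nzig (N : ℕ) (y : ℤ) (ω : ZMod N × ℤ → Bool) : ℝ := if Zig N ω y then 0 else 1

theorem nzig_nonneg (y : ℤ) (ω : ZMod N × ℤ → Bool) : 0 ≤ nzig N y ω := by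
  unfold nzig
  split_ifs
  · exact le_refl _
  · exact zero_le_one

theorem dep_nzig (y : ℤ) : Dep (cylF N y (y + 1) : Set (ZMod N × ℤ)) (nzig N y) := by
  classical
  intro ω ω' h
  have h1 : Zig N ω y ↔ Zig N ω' y := by
    unfold Zig
    refine forall_congr' fun x => ?_
    have h2 := h (x, y) (by exact_mod_cast (mem_row (N := N) (f := (x, y))).mpr rfl)
    rw [h2]
  unfold nzig
  by_cases h2 : Zig N ω y
  · rw [if_pos h2, if_pos (h1.mp h2)]
  · rw [if_neg h2, if_neg (fun h3 => h2 (h1.mpr h3))]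

theorem card_row (y : ℤ) : (cylF N y (y + 1)).card = N := by
  unfold cylF
  rw [Finset.card_product, Finset.card_univ, ZMod.card, Int.card_Ico]
  have : (y + 1 - y).toNat = 1 := by
    rw [add_sub_cancel_left]; rfl
  rw [this, mul_one]

theorem av_row (y : ℤ) : av (cylF N y (y + 1)) (nzig N y) = 1 - (1 / 2) ^ N := by
  classical
  set T₀ : Finset (ZMod N × ℤ) := (cylF N y (y + 1)).filter (fun f => f.1.val % 2 = 1) with hT₀
  have hiff : ∀ T ∈ (cylF N y (y + 1)).powerset, (Zig N (ind T) y ↔ T = T₀) := by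
    intro T hT
    rw [Finset.mem_powerset] at hT
    constructor
    · intro h
      ext ⟨x, z⟩
      rw [hT₀, Finset.mem_filter]
      constructor
      · intro h1
        have h2 := hT h1
        have h3 : z = y := mem_row.mp h2
        subst h3
        refine ⟨h2, ?_⟩
        have h4 := h x
        have h5 : ind T (x, z) = true := decide_eq_true h1
        rw [h5] at h4
        exact of_decide_eq_true h4.symm
      · rintro ⟨h1, h2⟩
        have h3 : z = y := mem_row.mp h1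
        subst h3
        have h4 := h x
        have h5 : decide (x.val % 2 = 1) = true := decide_eq_true h2
        rw [h5] at h4
        exact of_decide_eq_true h4
    · rintro rfl x
      unfold ind
      rw [decide_eq_decide, hT₀, Finset.mem_filter]
      constructor
      · exact fun h => h.2
      · exact fun h => ⟨mem_row.mpr rfl, h⟩
  have h1 : ∀ T ∈ (cylF N y (y + 1)).powerset, nzig N y (ind T) = 1 - if T = T₀ then 1 else 0 := by
    intro T hT
    unfold nzig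
    by_cases h : T = T₀
    · rw [if_pos ((hiff T hT).mpr h), if_pos h]; norm_num
    · rw [if_neg (fun h2 => h ((hiff T hT).mp h2)), if_neg h]; norm_num
  unfold av
  rw [Finset.sum_congr rfl h1, Finset.sum_sub_distrib, Finset.sum_ite_eq',
    if_pos (Finset.mem_powerset.mpr (Finset.filter_subset _ _)), Finset.sum_const,
    Finset.card_powerset, card_row, nsmul_eq_mul, mul_one, sub_div]
  push_cast
  rw [div_self (by positivity), one_div, one_div, inv_pow]

/-- `1` if no row is a zigzag -/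
def nzigs (N : ℕ) (y : ℤ) (m : ℕ) (ω : ZMod N × ℤ → Bool) : ℝ := ∏ i ∈ Finset.range m, nzig N (y + i) ω

theorem nzigs_nonneg (y : ℤ) (m : ℕ) (ω : ZMod N × ℤ → Bool) : 0 ≤ nzigs N y m ω :=
  Finset.prod_nonneg fun _ _ => nzig_nonneg _ _

theorem dep_nzigs (y : ℤ) (m : ℕ) : Dep (cylF N y (y + m) : Set (ZMod N × ℤ)) (nzigs N y m) := by
  intro ω ω' h
  unfold nzigs
  refine Finset.prod_congr rfl fun i hi => dep_nzig (y + i) _ _ fun f hf => h f ?_
  have h1 := mem_row.mp (show f ∈ cylF N (y + i) (y + i + 1) by exact_mod_cast hf)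
  have h2 := Finset.mem_range.mp hi
  have h3 : f ∈ cylF N y (y + m) := mem_cylF.mpr ⟨by omega, by omega⟩
  exact_mod_cast h3

/-- **No row is a zigzag.** -/
theorem av_nzigs (y : ℤ) (m : ℕ) : av (cylF N y (y + m)) (nzigs N y m) = (1 - (1 / 2) ^ N) ^ m := by
  induction m with
  | zero =>
    unfold nzigs
    simp only [Finset.range_zero, Finset.prod_empty, pow_zero]
    exact av_const 1
  | succ m ih =>
    have e1 : y + ((m + 1 : ℕ) : ℤ) = y + m + 1 := by push_cast; ring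
    have e2 : nzigs N y (m + 1) = fun ω => nzigs N y m ω * nzig N (y + m) ω := by
      funext ω
      unfold nzigs
      rw [Finset.prod_range_succ]
    rw [e2, e1, cylF_succ (by omega), av_indep (disj_of below_cylF above_cylF) (dep_nzig (y + m)) _
      (dep_nzigs y m), ih, av_row, pow_succ]

theorem nzigs_of_zig {m : ℕ} {i : ℕ} (hi : i < m) (h : Zig N ω (y + i)) : nzigs N y m ω = 0 := by
  unfold nzigs
  refine Finset.prod_eq_zero (Finset.mem_range.mpr hi) ?_
  unfold nzig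
  rw [if_pos h]

theorem nzigs_of_not {m : ℕ} (h : ∀ i < m, ¬ Zig N ω (y + i)) : nzigs N y m ω = 1 := by
  unfold nzigs
  refine Finset.prod_eq_one fun i hi => ?_
  unfold nzig
  rw [if_neg (h i (Finset.mem_range.mp hi))]

/-- **The number of through strands is `1` up to the absence of a zigzag row.** -/
theorem abs_thr_sub (hodd : Odd N) {m : ℕ} (hm : 0 < m) (y : ℤ) (ω : ZMod N × ℤ → Bool) :
    |Rel.c4 ^ (thrC N y (y + m) ω).card - Rel.c4| ≤ Rel.c4 ^ N * nzigs N y m ω := by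
  have h1 := one_le_thr (N := N) hodd (y₀ := y) (y₁ := y + m) (by omega) ω
  have h2 := thr_le (N := N) (y₀ := y) (y₁ := y + m) ω
  have c1 := Rel.c4_ge
  have c0 := Rel.c4_pos
  by_cases h : ∃ i < m, Zig N ω (y + i)
  · obtain ⟨i, hi, hz⟩ := h
    have h3 := thr_le_one hodd (y₀ := y) (y₁ := y + m) (by omega) (by omega) hz
    have h4 : (thrC N y (y + m) ω).card = 1 := le_antisymm h3 h1
    rw [h4, pow_one, sub_self, abs_zero]
    exact mul_nonneg (pow_nonneg c0.le _) (nzigs_nonneg _ _ _)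
  · push Not at h
    rw [nzigs_of_not h, mul_one]
    have h3 : Rel.c4 ≤ Rel.c4 ^ (thrC N y (y + m) ω).card := by
      conv_lhs => rw [← pow_one Rel.c4]
      exact pow_le_pow_right₀ c1 h1
    have h4 : Rel.c4 ^ (thrC N y (y + m) ω).card ≤ Rel.c4 ^ N := pow_le_pow_right₀ c1 h2
    rw [abs_of_nonneg (by linarith)]
    linarith

/-- the error of the high cylinder -/
def erN (N m : ℕ) : ℝ := Rel.c4 ^ N * (1 - (1 / 2) ^ N) ^ m

theorem erN_nonneg (N m : ℕ) : 0 ≤ erN N m := by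
  unfold erN
  have h1 : ((1 : ℝ) / 2) ^ N ≤ 1 := pow_le_one₀ (by norm_num) (by norm_num)
  have c0 := Rel.c4_pos
  exact mul_nonneg (pow_nonneg c0.le _) (pow_nonneg (by linarith) _)

theorem erN_tendsto (N : ℕ) : Tendsto (fun m : ℕ => erN N m) atTop (𝓝 0) := by
  unfold erN
  have h1 : ((1 : ℝ) / 2) ^ N ≤ 1 := pow_le_one₀ (by norm_num) (by norm_num)
  have h2 : (0 : ℝ) < (1 / 2) ^ N := by positivity
  have h3 := tendsto_pow_atTop_nhds_zero_of_lt_one (r := 1 - ((1 : ℝ) / 2) ^ N) (by linarith)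
    (by linarith)
  simpa using h3.const_mul (Rel.c4 ^ N)

theorem erN_anti {N m m' : ℕ} (h : m ≤ m') : erN N m' ≤ erN N m := by
  unfold erN
  have h1 : ((1 : ℝ) / 2) ^ N ≤ 1 := pow_le_one₀ (by norm_num) (by norm_num)
  have h2 : (0 : ℝ) ≤ (1 / 2) ^ N := by positivity
  have c0 := Rel.c4_pos
  exact mul_le_mul_of_nonneg_left (pow_le_pow_of_le_one (by linarith) (by linarith) h)
    (pow_nonneg c0.le _)

/-- **Averages with the weight `c4 ^ thr`.** -/
theorem abs_av_thr (hodd : Odd N) {m : ℕ} (hm : 0 < m) (y : ℤ) {g : (ZMod N × ℤ → Bool) → ℝ}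
    {B : ℝ} (hg : ∀ ω, |g ω| ≤ B) :
    |av (cylF N y (y + m)) (fun ω => g ω * Rel.c4 ^ (thrC N y (y + m) ω).card) -
      Rel.c4 * av (cylF N y (y + m)) g| ≤ B * erN N m := by
  have hB : 0 ≤ B := (abs_nonneg _).trans (hg fun _ => true)
  rw [← av_mul, ← av_sub]
  have h1 : av (cylF N y (y + m)) (fun ω => B * (Rel.c4 ^ N * nzigs N y m ω)) = B * erN N m := by
    rw [av_mul, av_mul, av_nzigs]
    rfl
  rw [← h1]
  refine abs_av_le fun T _ => ?_
  have h2 : g (ind T) * Rel.c4 ^ (thrC N y (y + m) (ind T)).card - Rel.c4 * g (ind T) =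
      g (ind T) * (Rel.c4 ^ (thrC N y (y + m) (ind T)).card - Rel.c4) := by ring
  rw [h2, abs_mul]
  exact mul_le_mul (hg _) (abs_thr_sub hodd hm y _) (abs_nonneg _) hB

theorem abs_av_thr_one (hodd : Odd N) {m : ℕ} (hm : 0 < m) (y : ℤ) :
    |av (cylF N y (y + m)) (fun ω => Rel.c4 ^ (thrC N y (y + m) ω).card) - Rel.c4| ≤ erN N m := by
  have h := abs_av_thr hodd hm y (g := fun _ => 1) (B := 1) (fun _ => by simp)
  simp only [one_mul, av_const, mul_one] at h
  exact h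

theorem c4_le : Rel.c4 ≤ 5 / 4 := by
  unfold Rel.c4
  rw [Rel.r4_sq, div_le_div_iff₀ (Real.sqrt_pos.mpr (by norm_num)) (by norm_num)]
  have h1 : (8 / 5 : ℝ) ≤ Real.sqrt 3 := Real.le_sqrt_of_sq_le (by norm_num)
  linarith

/-- **Moment of the number of through strands.** -/
theorem thr_moment' (hodd : Odd N) : ∃ M₀ : ℕ, 0 < M₀ ∧ ∀ (y : ℤ) (m : ℕ), M₀ ≤ m →
    av (cylF N y (y + m)) (fun ω => Rel.c4 ^ (thrC N y (y + m) ω).card) ≤ 2 := by
  have h1 := (erN_tendsto N).eventually (gt_mem_nhds (show (0 : ℝ) < 3 / 4 by norm_num))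
  obtain ⟨M₀, hM₀⟩ := eventually_atTop.mp h1
  refine ⟨M₀ + 1, by omega, fun y m hm => ?_⟩
  have h2 := abs_av_thr_one (N := N) hodd (show 0 < m by omega) y
  have h3 := hM₀ m (by omega)
  have h4 := (abs_le.mp h2).2
  have h5 := c4_le
  linarith

/-- the moment in the form of the atlas -/
theorem thr_moment (hodd : Odd N) : ∃ M₀ : ℕ, 0 < M₀ ∧ ∀ y₀ y₁ : ℤ, (M₀ : ℤ) ≤ y₁ - y₀ →
    av (cylF N y₀ y₁) (fun ω => Rel.c4 ^ (Rel.thr (CQ N) (cylF N y₀ y₁) ω
      (Finset.univ.image fun x => bE x y₀) (Finset.univ.image fun x => (bE x y₁).swap)).card) ≤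
      2 := by
  obtain ⟨M₀, h0, h⟩ := thr_moment' (N := N) hodd
  refine ⟨M₀, h0, fun y₀ y₁ hy => ?_⟩
  obtain ⟨m, hm⟩ := Int.eq_ofNat_of_zero_le (show 0 ≤ y₁ - y₀ by omega)
  have h1 : y₁ = y₀ + m := by omega
  subst h1
  exact h y₀ m (by omega)

/-! ## The arrow sums -/

theorem card_ends (hy : y₀ < y₁) : (Ebot N y₀ ∪ Etop N y₁).card = 2 * N := by
  rw [Finset.card_union_of_disjoint (cyl_flat (N := N) hy).disj]
  unfold Ebot Etop
  rw [Finset.card_image_of_injective _ (fun x x' h => (bE_inj h).1),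
    Finset.card_image_of_injective _ (fun x x' h => (bE_inj (Prod.swap_injective h)).1),
    Finset.card_univ, ZMod.card]
  ring

theorem Zs_flat (hodd : Odd N) (hy : y₀ < y₁) (ω : ZMod N × ℤ → Bool) :
    Zs (CQ N) (cylF N y₀ y₁) ω (fun _ => 1) =
      ((Real.sqrt 3 ^ N * Rel.c4 ^ (thrC N y₀ y₁ ω).card : ℝ) : ℂ) := by
  have h1 := Rel.Zn_eval noLoop_CQ (cyl_flat (N := N) hy) (cyl_turns hodd hy ω)
    (fun a _ h => by
      obtain ⟨b, -, h2⟩ := Rel.touch_iff.mp h
      rcases h2 with h2 | h2 <;> exact Finset.notMem_empty _ h2)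
  have h2 : Zs (CQ N) (cylF N y₀ y₁) ω (fun _ => 1) =
      Rel.Zn (CQ N) (cylF N y₀ y₁) ω (fun _ => 1) ∅ := by
    unfold Zs Rel.Zn
    have h3 : (dstr (CQ N) (cylF N y₀ y₁) ω).filter (fun X => ¬ Rel.touch ∅ X) =
        dstr (CQ N) (cylF N y₀ y₁) ω := by
      refine Finset.filter_true_of_mem fun X _ h => ?_
      obtain ⟨b, -, h2⟩ := Rel.touch_iff.mp h
      rcases h2 with h2 | h2 <;> exact Finset.notMem_empty _ h2
    rw [h3]
    rfl
  rw [h2, h1, card_ends hy, pow_mul, Rel.r4_sq]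

theorem sum_eq_av {Φ : Type} [DecidableEq Φ] (F : Finset Φ) (g : (Φ → Bool) → ℝ) :
    ∑ T ∈ F.powerset, ((g (ind T) : ℝ) : ℂ) = ((2 ^ F.card * av F g : ℝ) : ℂ) := by
  unfold av
  rw [← Complex.ofReal_sum]
  congr 1
  field_simp

/-- **The arrow sum of the cylinder.** -/
theorem Z6_flat (hodd : Odd N) (hy : y₀ < y₁) :
    Z6 (CQ N) (cylF N y₀ y₁) (fun _ => 1) = ((2 ^ (cylF N y₀ y₁).card * (Real.sqrt 3 ^ N *
      av (cylF N y₀ y₁) (fun ω => Rel.c4 ^ (thrC N y₀ y₁ ω).card)) : ℝ) : ℂ) := by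
  rw [Z6_eq noLoop_CQ, ← av_mul, ← sum_eq_av]
  exact Finset.sum_congr rfl fun T _ => Zs_flat hodd hy _

/-- **The arrow sum with two signs.** -/
theorem Z6_signs (hodd : Odd N) (hy : y₀ < y₁) (he : e ∈ dE (CQ N) (cylF N y₀ y₁))
    (he' : e' ∈ dE (CQ N) (cylF N y₀ y₁)) :
    Z6 (CQ N) (cylF N y₀ y₁) (fun a => sgE e a * sgE e' a) =
      ((2 ^ (cylF N y₀ y₁).card * (Real.sqrt 3 ^ N * av (cylF N y₀ y₁)
        (fun ω => gg (CQ N) (cylF N y₀ y₁) ω e e' * Rel.c4 ^ (thrC N y₀ y₁ ω).card)) : ℝ) : ℂ) := by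
  rw [Z6_eq noLoop_CQ, ← av_mul, ← sum_eq_av]
  refine Finset.sum_congr rfl fun T _ => ?_
  rw [Zs_signs noLoop_CQ he he' (trn_cases hodd hy _ he) (trn_cases hodd hy _ he'),
    Zs_flat hodd hy]
  push_cast
  ring

end

end Pool.Agent.SixB
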