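import Pool.Agent.Lib.SixB.S0Glue

/-!
# 6BD step 0: splitting the arrow sum along a level, and levels parametrised by orientations

* `Z6_split`: `Z6` is the sum over the arrow configurations of any symmetric set `K` of sides.
* `Z6_glue_lev`: cutting along `K`, where `cE F₁ F₂ ⊆ K ⊆ dE F₂`.
* `Ed E`, `oset E σ`, `sum_karr`: `K = Ed E` for an injective family `E : ι → V × V`.
-/

set_option autoImplicit false
set_option linter.unusedSectionVars false

namespace Pool.Agent.SixB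

open Pool.Agent.Perc.Q Relation

noncomputable section

variable {V Φ : Type} [DecidableEq V] [DecidableEq Φ]
variable {Q : QC V Φ} {F F₁ F₂ : Finset Φ} {K κ : Finset (V × V)} {h h' g : V × V → ℂ}

theorem Z6_congrL (hh : ∀ a ∈ dE Q F, h a = h' a) : Z6 Q F h = Z6 Q F h' := by
  unfold Z6
  refine Finset.sum_congr rfl fun α hα => ?_
  congr 1
  refine Finset.prod_congr rfl fun a ha => hh a ?_
  exact (Finset.mem_powerset.mp (Finset.mem_filter.mp hα).1) ha

/-- the term with the arrows of `K` prescribed -/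
theorem Z6_dlt (hK : K ⊆ dE Q F) (hs : ∀ a ∈ K, a.swap ∈ K) (hκ : κ ∈ KArr K) (h : V × V → ℂ) :
    Z6 Q F (fun a => h a * dlt K κ a) = ∑ α ∈ Arrs Q F, if α ∩ K = κ then
      (∏ f ∈ F, fw (fun k => decide (sd Q f k ∈ α))) * ∏ a ∈ α, h a else 0 := by
  unfold Z6
  refine Finset.sum_congr rfl fun α hα => ?_
  rw [prod_dlt]
  have h3 : α ∩ K ⊆ κ ↔ α ∩ K = κ :=
    ⟨fun h4 => karr_sub_eq (karr_inter hα hK hs) hκ h4, fun h4 => h4 ▸ Finset.Subset.refl _⟩
  by_cases h5 : α ∩ K = κ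
  · rw [if_pos (h3.mpr h5), if_pos h5]
  · rw [if_neg (fun h6 => h5 (h3.mp h6)), if_neg h5, mul_zero]

theorem Z6_split (hK : K ⊆ dE Q F) (hs : ∀ a ∈ K, a.swap ∈ K) (h : V × V → ℂ) :
    Z6 Q F h = ∑ κ ∈ KArr K, Z6 Q F (fun a => h a * dlt K κ a) := by
  rw [Finset.sum_congr rfl fun κ hκ => Z6_dlt hK hs hκ h, Finset.sum_comm]
  unfold Z6
  refine Finset.sum_congr rfl fun α hα => ?_
  rw [Finset.sum_ite_eq, if_pos (karr_inter hα hK hs)]

/-- weights on `K` factor out -/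
theorem Z6_weight (hK : K ⊆ dE Q F) (hs : ∀ a ∈ K, a.swap ∈ K) (hκ : κ ∈ KArr K)
    (h g : V × V → ℂ) (hg : ∀ a, a ∉ K → g a = 1) :
    Z6 Q F (fun a => h a * g a * dlt K κ a) = (∏ a ∈ κ, g a) * Z6 Q F (fun a => h a * dlt K κ a) := by
  rw [Z6_dlt hK hs hκ (fun a => h a * g a), Z6_dlt hK hs hκ, Finset.mul_sum]
  refine Finset.sum_congr rfl fun α _ => ?_
  split_ifs with h1
  · rw [Finset.prod_mul_distrib]
    have h2 : ∏ a ∈ α, g a = ∏ a ∈ κ, g a := by
      rw [← h1]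
      symm
      refine Finset.prod_subset Finset.inter_subset_left fun a ha ha' => hg a ?_
      intro haK
      exact ha' (Finset.mem_inter.mpr ⟨ha, haK⟩)
    rw [h2]
    ring
  · rw [mul_zero]

/-- **Cutting along a level** `K` with `cE F₁ F₂ ⊆ K ⊆ dE F₂`. -/
theorem Z6_glue_lev (hd : Disjoint F₁ F₂) (hcK : cE Q F₁ F₂ ⊆ K) (hKF : K ⊆ dE Q F₂)
    (hs : ∀ a ∈ K, a.swap ∈ K) (h h₁ h₂ : V × V → ℂ)
    (e0 : ∀ a ∈ cE Q F₁ F₂, h a = h₁ a * h₂ a)
    (e1 : ∀ a ∈ dE Q F₁, a ∉ cE Q F₁ F₂ → h₁ a = h a)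
    (e2 : ∀ a ∈ dE Q F₂, a ∉ cE Q F₁ F₂ → h₂ a = h a) :
    Z6 Q (F₁ ∪ F₂) h = ∑ κ ∈ KArr K,
      Z6 Q F₁ (fun a => h₁ a * dlt K κ a) * Z6 Q F₂ (fun a => h₂ a * dlt K κ a) := by
  rw [Z6_glue Q F₁ F₂ hd h h₁ h₂ e0 e1 e2]
  set C := cE Q F₁ F₂ with hC
  have hC2 : C ⊆ dE Q F₂ := Finset.inter_subset_right
  have hCs : ∀ a ∈ C, a.swap ∈ C := fun a ha => swap_mem_cE.mpr ha
  have h1 : ∀ κ' ∈ KArr C, Z6 Q F₁ (fun a => h₁ a * dlt C κ' a) *
      Z6 Q F₂ (fun a => h₂ a * dlt C κ' a) = ∑ κ ∈ KArr K, if κ ∩ C = κ' then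
        Z6 Q F₁ (fun a => h₁ a * dlt K κ a) * Z6 Q F₂ (fun a => h₂ a * dlt K κ a) else 0 := by
    intro κ' hκ'
    rw [Z6_split (K := K) hKF hs (fun a => h₂ a * dlt C κ' a), Finset.mul_sum]
    refine Finset.sum_congr rfl fun κ hκ => ?_
    split_ifs with hh
    · congr 1
      · refine Z6_congrL fun a ha => ?_
        congr 1
        unfold dlt
        have : (a ∈ C ∧ a ∉ κ') ↔ (a ∈ K ∧ a ∉ κ) := by
          rw [← hh, Finset.mem_inter]
          constructor
          · rintro ⟨h2, h3⟩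
            exact ⟨hcK h2, fun h4 => h3 ⟨h4, h2⟩⟩
          · rintro ⟨h2, h3⟩
            have h4 : a ∈ C := Finset.mem_inter.mpr ⟨ha, hKF h2⟩
            exact ⟨h4, fun h5 => h3 h5.1⟩
        simp only [this]
      · refine Z6_congrL fun a _ => ?_
        rw [mul_assoc]
        congr 1
        unfold dlt
        by_cases h2 : a ∈ C ∧ a ∉ κ'
        · have h3 : a ∈ K ∧ a ∉ κ := by
            refine ⟨hcK h2.1, fun h4 => h2.2 ?_⟩
            rw [← hh]
            exact Finset.mem_inter.mpr ⟨h4, h2.1⟩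
          rw [if_pos h2, if_pos h3, zero_mul]
        · rw [if_neg h2, one_mul]
    · have h2 : Z6 Q F₂ (fun a => h₂ a * dlt C κ' a * dlt K κ a) = 0 := by
        rw [Z6_dlt hKF hs hκ (fun a => h₂ a * dlt C κ' a)]
        refine Finset.sum_eq_zero fun α hα => ?_
        split_ifs with h3
        · rw [prod_dlt, if_neg, mul_zero]
          intro h4
          apply hh
          have h5 : κ ∩ C ∈ KArr C := karr_inter hκ hcK hCs
          have h6 : κ ∩ C ⊆ κ' := by
            intro a ha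
            refine h4 ?_
            have h7 := (Finset.mem_inter.mp ha)
            rw [← h3] at h7
            exact Finset.mem_inter.mpr ⟨(Finset.mem_inter.mp h7.1).1, h7.2⟩
          exact karr_sub_eq h5 hκ' h6
        · rfl
      rw [h2, mul_zero]
  rw [Finset.sum_congr rfl h1, Finset.sum_comm]
  refine Finset.sum_congr rfl fun κ hκ => ?_
  rw [Finset.sum_ite_eq, if_pos (karr_inter hκ hcK hCs)]

/-! ## Orientations -/

variable {ι : Type} [Fintype ι] [DecidableEq ι] {E : ι → V × V}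

/-- the directed edges of a family, in both directions -/
def Ed (E : ι → V × V) : Finset (V × V) :=
  Finset.univ.image E ∪ Finset.univ.image fun i => (E i).swap

/-- the arrows of the orientation `σ` -/
def oset (E : ι → V × V) (σ : ι → Bool) : Finset (V × V) :=
  Finset.univ.image fun i => if σ i then E i else (E i).swap

/-- the edges of the family are distinct as undirected edges -/
structure IsFam (E : ι → V × V) : Prop where
  inj : Function.Injective E
  ne : ∀ i j, E i ≠ (E j).swap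

theorem mem_Ed {a : V × V} : a ∈ Ed E ↔ ∃ i, a = E i ∨ a = (E i).swap := by
  unfold Ed
  rw [Finset.mem_union, Finset.mem_image, Finset.mem_image]
  constructor
  · rintro (⟨i, -, h⟩ | ⟨i, -, h⟩)
    · exact ⟨i, Or.inl h.symm⟩
    · exact ⟨i, Or.inr h.symm⟩
  · rintro ⟨i, h | h⟩
    · exact Or.inl ⟨i, Finset.mem_univ _, h.symm⟩
    · exact Or.inr ⟨i, Finset.mem_univ _, h.symm⟩

theorem Ed_swap {a : V × V} (h : a ∈ Ed E) : a.swap ∈ Ed E := by
  obtain ⟨i, rfl | rfl⟩ := mem_Ed.mp h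
  · exact mem_Ed.mpr ⟨i, Or.inr rfl⟩
  · exact mem_Ed.mpr ⟨i, Or.inl (Prod.swap_swap _)⟩

theorem mem_oset {a : V × V} {σ : ι → Bool} :
    a ∈ oset E σ ↔ ∃ i, a = if σ i then E i else (E i).swap := by
  unfold oset
  rw [Finset.mem_image]
  constructor
  · rintro ⟨i, -, h⟩
    exact ⟨i, h.symm⟩
  · rintro ⟨i, h⟩
    exact ⟨i, Finset.mem_univ _, h.symm⟩

theorem IsFam.mem_iff (hE : IsFam E) {σ : ι → Bool} {i : ι} : E i ∈ oset E σ ↔ σ i = true := by
  rw [mem_oset]
  constructor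
  · rintro ⟨j, hj⟩
    by_cases h : σ j = true
    · rw [if_pos h] at hj
      rw [hE.inj hj]
      exact h
    · rw [if_neg h] at hj
      exact absurd hj (hE.ne i j)
  · intro h
    exact ⟨i, by rw [if_pos h]⟩

theorem IsFam.swap_mem_iff (hE : IsFam E) {σ : ι → Bool} {i : ι} :
    (E i).swap ∈ oset E σ ↔ σ i = false := by
  rw [mem_oset]
  constructor
  · rintro ⟨j, hj⟩
    by_cases h : σ j = true
    · rw [if_pos h] at hj
      exact absurd hj.symm (hE.ne j i)
    · rw [if_neg h] at hj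
      have := Prod.swap_injective hj
      rw [hE.inj this]
      simpa using h
  · intro h
    exact ⟨i, by rw [h]; simp⟩

theorem IsFam.dec (hE : IsFam E) {σ : ι → Bool} {i : ι} : decide (E i ∈ oset E σ) = σ i := by
  cases h : σ i
  · simp [hE.mem_iff, h]
  · simp [hE.mem_iff, h]

theorem IsFam.dec_swap (hE : IsFam E) {σ : ι → Bool} {i : ι} :
    decide ((E i).swap ∈ oset E σ) = !σ i := by
  cases h : σ i
  · simp [hE.swap_mem_iff, h]
  · simp [hE.swap_mem_iff, h]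

theorem IsFam.oset_mem (hE : IsFam E) (σ : ι → Bool) : oset E σ ∈ KArr (Ed E) := by
  refine Finset.mem_filter.mpr ⟨Finset.mem_powerset.mpr ?_, ?_⟩
  · intro a ha
    obtain ⟨i, hi⟩ := mem_oset.mp ha
    refine mem_Ed.mpr ⟨i, ?_⟩
    split_ifs at hi
    · exact Or.inl hi
    · exact Or.inr hi
  · intro a ha
    obtain ⟨i, rfl | rfl⟩ := mem_Ed.mp ha
    · rw [hE.mem_iff, hE.swap_mem_iff]
      cases σ i <;> simp
    · rw [Prod.swap_swap, hE.mem_iff, hE.swap_mem_iff]
      cases σ i <;> simp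

theorem IsFam.oset_inj (hE : IsFam E) {σ σ' : ι → Bool} (h : oset E σ = oset E σ') : σ = σ' := by
  funext i
  have h1 := hE.mem_iff (σ := σ) (i := i)
  have h2 := hE.mem_iff (σ := σ') (i := i)
  rw [h] at h1
  have h3 := h1.symm.trans h2
  cases h4 : σ i <;> cases h5 : σ' i <;> simp_all

theorem IsFam.sum_karr (hE : IsFam E) {M : Type} [AddCommMonoid M] (f : Finset (V × V) → M) :
    ∑ κ ∈ KArr (Ed E), f κ = ∑ σ : ι → Bool, f (oset E σ) := by
  symm
  refine Finset.sum_bij (fun σ _ => oset E σ) (fun σ _ => hE.oset_mem σ)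
    (fun σ _ σ' _ h => hE.oset_inj h) ?_ (fun _ _ => rfl)
  intro κ hκ
  refine ⟨fun i => decide (E i ∈ κ), Finset.mem_univ _, ?_⟩
  refine karr_sub_eq (hE.oset_mem _) hκ ?_
  intro a ha
  obtain ⟨i, rfl⟩ := mem_oset.mp ha
  by_cases h : E i ∈ κ
  · rw [if_pos (by simpa using h)]
    exact h
  · rw [if_neg (by simpa using h)]
    have h1 := (Finset.mem_filter.mp hκ).2 (E i) (mem_Ed.mpr ⟨i, Or.inl rfl⟩)
    by_contra h2
    exact h (h1.mpr h2)

theorem IsFam.prod_oset (hE : IsFam E) (σ : ι → Bool) (g : V × V → ℂ) :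
    ∏ a ∈ oset E σ, g a = ∏ i, g (if σ i then E i else (E i).swap) := by
  unfold oset
  rw [Finset.prod_image]
  intro i _ j _ h
  simp only at h
  split_ifs at h
  · exact hE.inj h
  · exact absurd h (hE.ne i j)
  · exact absurd h.symm (hE.ne j i)
  · exact hE.inj (Prod.swap_injective h)

/-- prescribed arrows, for a family -/
theorem IsFam.sum_split (hE : IsFam E) (hK : Ed E ⊆ dE Q F) (h : V × V → ℂ) :
    Z6 Q F h = ∑ σ : ι → Bool, Z6 Q F (fun a => h a * dlt (Ed E) (oset E σ) a) := by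
  rw [Z6_split hK (fun a ha => Ed_swap ha), hE.sum_karr]

end

end Pool.Agent.SixB
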