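import Pool.Agent.Lib.SixB.CylWind
import Pool.Agent.Lib.SixB.S0Lev
import Pool.Agent.Lib.MP_6bd702_sv.PiSix

/-!
# The cylinder: one row is the transfer matrix, stacked rows are its powers

* `rowM N`: the row matrix, `rowM_eq : rowM (n + 1) = T (n + 1) (π / 6)`;
* `Psi F h y s`: the arrow sum of `F` with the arrows of the level `y` prescribed (`s x = true`: up);
* `Psi_rows`: `m` rows on top of `F` apply `(2 ^ N • rowM) ^ m`;
* `Z6_cut`: `Z6 (F₁ ∪ F₂) = ∑ s, Psi F₁ s * Psi F₂ s`;
* `Psi_sign`: the sign of an arrow of the level is a diagonal matrix.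
-/

set_option autoImplicit false
set_option linter.unusedSectionVars false

namespace Pool.Agent.SixB

open Pool.Agent.Perc Pool.Agent.Perc.Q Relation Pool.Agent.SixV

noncomputable section

variable {N : ℕ} [hN : Fact (3 ≤ N)]

/-- the directed edges of the level `y` -/
def lvl (N : ℕ) [Fact (3 ≤ N)] (y : ℤ) : Finset ((ZMod N × ℤ) × (ZMod N × ℤ)) :=
  Ed fun x : ZMod N => bE x y

/-- the arrows of the level `y` in the state `s` -/
def los (y : ℤ) (s : ZMod N → Bool) : Finset ((ZMod N × ℤ) × (ZMod N × ℤ)) :=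
  oset (fun x : ZMod N => bE x y) s

/-- the arrows of the level `y` are those of `s` -/
def ldl (y : ℤ) (s : ZMod N → Bool) : (ZMod N × ℤ) × (ZMod N × ℤ) → ℂ := dlt (lvl N y) (los y s)

/-- the left arrow over the unit segment from `(x, y)` to `(x, y + 1)` -/
def vE (x : ZMod N) (y : ℤ) : (ZMod N × ℤ) × (ZMod N × ℤ) := ((x, y), (x, y + 1))

theorem two_ne_zero_zmod : (1 : ZMod N) + 1 ≠ 0 := by
  intro h
  apply one_ne_neg_one_zmod hN.out
  exact eq_neg_of_add_eq_zero_left h

theorem isFam_lvl (y : ℤ) : IsFam fun x : ZMod N => bE x y where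
  inj := fun x x' h => (bE_inj h).1
  ne := by
    intro x x' h
    rw [bE_eq, bE_eq] at h
    have h1 : x = x' + 1 := congrArg (fun z => z.1.1) h
    have h2 : x + 1 = x' := congrArg (fun z => z.2.1) h
    apply two_ne_zero_zmod (N := N)
    rw [h1] at h2
    linear_combination h2

/-- all edges of a row -/
def rowE (y : ℤ) : ZMod N ⊕ (ZMod N ⊕ ZMod N) → (ZMod N × ℤ) × (ZMod N × ℤ)
  | Sum.inl x => bE x y
  | Sum.inr (Sum.inl x) => bE x (y + 1)
  | Sum.inr (Sum.inr x) => vE x y

theorem isFam_rowE (y : ℤ) : IsFam (rowE (N := N) y) where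
  inj := by
    rintro (x | x | x) (x' | x' | x') h
    · rw [show x = x' from congrArg (fun z => z.1.1) h]
    · have : y = y + 1 := congrArg (fun z => z.1.2) h
      omega
    · have : y = y + 1 := congrArg (fun z => z.2.2) h
      omega
    · have : y + 1 = y := congrArg (fun z => z.1.2) h
      omega
    · rw [show x = x' from congrArg (fun z => z.1.1) h]
    · have : y + 1 = y := congrArg (fun z => z.1.2) h
      omega
    · have : y + 1 = y := congrArg (fun z => z.2.2) h
      omega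
    · have : y = y + 1 := congrArg (fun z => z.1.2) h
      omega
    · rw [show x = x' from congrArg (fun z => z.1.1) h]
  ne := by
    rintro (x | x | x) (x' | x' | x') h
    · exact (isFam_lvl y).ne x x' h
    · have : y = y + 1 := congrArg (fun z => z.1.2) h
      omega
    · have : y = y + 1 := congrArg (fun z => z.1.2) h
      omega
    · have : y + 1 = y := congrArg (fun z => z.1.2) h
      omega
    · exact (isFam_lvl (y + 1)).ne x x' h
    · have : y + 1 = y := congrArg (fun z => z.2.2) h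
      omega
    · have : y + 1 = y := congrArg (fun z => z.2.2) h
      omega
    · have : y = y + 1 := congrArg (fun z => z.1.2) h
      omega
    · have : y = y + 1 := congrArg (fun z => z.1.2) h
      omega

theorem row_sd0 (x : ZMod N) (y : ℤ) : sd (CQ N) (x, y) 0 = rowE y (Sum.inl x) := rfl

theorem row_sd1 (x : ZMod N) (y : ℤ) : sd (CQ N) (x, y) 1 = rowE y (Sum.inr (Sum.inr (x + 1))) := by
  refine Prod.ext ?_ ?_
  · change corC N (x, y) 1 = (x + 1, y)
    rw [corC_1]
  · change corC N (x, y) 2 = (x + 1, y + 1)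
    rw [corC_2]

theorem row_sd2 (x : ZMod N) (y : ℤ) :
    sd (CQ N) (x, y) 2 = (rowE y (Sum.inr (Sum.inl x))).swap := by
  rw [← Prod.swap_swap (sd (CQ N) (x, y) 2), csd_swap_2]
  rfl

theorem row_sd3 (x : ZMod N) (y : ℤ) :
    sd (CQ N) (x, y) 3 = (rowE y (Sum.inr (Sum.inr x))).swap := by
  refine Prod.ext ?_ ?_
  · change corC N (x, y) 3 = (x, y + 1)
    rw [corC_3]
  · change corC N (x, y) 0 = (x, y)
    rw [corC_0]

theorem mem_row {y : ℤ} {f : ZMod N × ℤ} : f ∈ cylF N y (y + 1) ↔ f.2 = y := by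
  rw [mem_cylF]
  omega

theorem dE_row (y : ℤ) : dE (CQ N) (cylF N y (y + 1)) = Ed (rowE (N := N) y) := by
  ext a
  rw [mem_dE, mem_Ed]
  constructor
  · rintro ⟨⟨x, y'⟩, hf, k, h⟩
    have hy : y' = y := mem_row.mp hf
    subst hy
    rcases k4_cases k with rfl | rfl | rfl | rfl
    · rw [row_sd0] at h
      exact ⟨_, h⟩
    · rw [row_sd1] at h
      exact ⟨_, h⟩
    · rw [row_sd2, Prod.swap_swap] at h
      exact ⟨_, h.symm⟩
    · rw [row_sd3, Prod.swap_swap] at h
      exact ⟨_, h.symm⟩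
  · rintro ⟨i, h⟩
    rcases i with x | x | x
    · exact ⟨(x, y), mem_row.mpr rfl, 0, h⟩
    · refine ⟨(x, y), mem_row.mpr rfl, 2, ?_⟩
      rw [row_sd2, Prod.swap_swap]
      exact h.symm
    · refine ⟨(x, y), mem_row.mpr rfl, 3, ?_⟩
      rw [row_sd3, Prod.swap_swap]
      exact h.symm

/-- the row matrix -/
def rowM (N : ℕ) [Fact (3 ≤ N)] : Matrix (ZMod N → Bool) (ZMod N → Bool) ℂ := fun s' s =>
  ((∑ u : ZMod N → Bool, ∏ x : ZMod N, rw6 (s' x) (s x) (u x) (u (x + 1)) : ℝ) : ℂ)

/-- the row matrix is the transfer matrix -/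
theorem rowM_eq {n : ℕ} [Fact (3 ≤ n + 1)] (s' s : ZMod (n + 1) → Bool) :
    rowM (n + 1) s' s = T (n + 1) (Real.pi / 6) s' s := (T_pi_six s' s).symm

/-- the weight of a face in a row -/
theorem fw_row (s s' u u' : Bool) :
    fw (fun k : ZMod 4 => if k = 0 then s else if k = 1 then u' else if k = 2 then !s' else !u) =
      ((2 * rw6 s' s u u' : ℝ) : ℂ) := by
  have e10 : (1 : ZMod 4) ≠ 0 := by decide
  have e20 : (2 : ZMod 4) ≠ 0 := by decide
  have e21 : (2 : ZMod 4) ≠ 1 := by decide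
  have e30 : (3 : ZMod 4) ≠ 0 := by decide
  have e31 : (3 : ZMod 4) ≠ 1 := by decide
  have e32 : (3 : ZMod 4) ≠ 2 := by decide
  unfold fw rw6
  simp only [if_true, e10, e20, e21, e30, e31, e32, if_false]
  cases s <;> cases s' <;> cases u <;> cases u' <;> simp <;> ring

theorem prod_row {M : Type} [CommMonoid M] (y : ℤ) (g : ZMod N × ℤ → M) :
    ∏ f ∈ cylF N y (y + 1), g f = ∏ x : ZMod N, g (x, y) := by
  unfold cylF
  rw [Finset.prod_product]
  refine Finset.prod_congr rfl fun x _ => ?_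
  have : Finset.Ico y (y + 1) = {y} := by
    ext z
    rw [Finset.mem_Ico, Finset.mem_singleton]
    omega
  rw [this, Finset.prod_singleton]

/-- the arrow sum of one row -/
theorem Z6_row (y : ℤ) (h : (ZMod N × ℤ) × (ZMod N × ℤ) → ℂ) :
    Z6 (CQ N) (cylF N y (y + 1)) h = ∑ s : ZMod N → Bool, ∑ s' : ZMod N → Bool,
      ∑ u : ZMod N → Bool, (∏ x, ((2 * rw6 (s' x) (s x) (u x) (u (x + 1)) : ℝ) : ℂ)) *
        ((∏ x, h (if s x then bE x y else (bE x y).swap)) *
        ((∏ x, h (if s' x then bE x (y + 1) else (bE x (y + 1)).swap)) *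
        ∏ x, h (if u x then vE x y else (vE x y).swap))) := by
  have hE := isFam_rowE (N := N) y
  have h1 : Z6 (CQ N) (cylF N y (y + 1)) h = ∑ κ ∈ KArr (Ed (rowE (N := N) y)),
      (∏ f ∈ cylF N y (y + 1), fw (fun k => decide (sd (CQ N) f k ∈ κ))) * ∏ a ∈ κ, h a := by
    unfold Z6
    rw [arrs_eq, dE_row]
  rw [h1, hE.sum_karr, ← (Equiv.sumArrowEquivProdArrow (ZMod N) (ZMod N ⊕ ZMod N) Bool).symm.sum_comp,
    Fintype.sum_prod_type]
  refine Finset.sum_congr rfl fun s _ => ?_
  rw [← (Equiv.sumArrowEquivProdArrow (ZMod N) (ZMod N) Bool).symm.sum_comp, Fintype.sum_prod_type]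
  refine Finset.sum_congr rfl fun s' _ => Finset.sum_congr rfl fun u _ => ?_
  set σ : ZMod N ⊕ (ZMod N ⊕ ZMod N) → Bool :=
    (Equiv.sumArrowEquivProdArrow (ZMod N) (ZMod N ⊕ ZMod N) Bool).symm
      (s, (Equiv.sumArrowEquivProdArrow (ZMod N) (ZMod N) Bool).symm (s', u)) with hσ
  have σ1 : ∀ x, σ (Sum.inl x) = s x := fun x => rfl
  have σ2 : ∀ x, σ (Sum.inr (Sum.inl x)) = s' x := fun x => rfl
  have σ3 : ∀ x, σ (Sum.inr (Sum.inr x)) = u x := fun x => rfl
  rw [prod_row, hE.prod_oset, Fintype.prod_sum_type, Fintype.prod_sum_type]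
  congr 1
  refine Finset.prod_congr rfl fun x _ => ?_
  rw [← fw_row]
  congr 1
  funext k
  have e10 : (1 : ZMod 4) ≠ 0 := by decide
  have e20 : (2 : ZMod 4) ≠ 0 := by decide
  have e21 : (2 : ZMod 4) ≠ 1 := by decide
  have e30 : (3 : ZMod 4) ≠ 0 := by decide
  have e31 : (3 : ZMod 4) ≠ 1 := by decide
  have e32 : (3 : ZMod 4) ≠ 2 := by decide
  rcases k4_cases k with rfl | rfl | rfl | rfl
  · rw [row_sd0, if_pos rfl, hE.dec, σ1]
  · rw [row_sd1, if_neg e10, if_pos rfl, hE.dec, σ3]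
  · rw [row_sd2, if_neg e20, if_neg e21, if_pos rfl, hE.dec_swap, σ2]
  · rw [row_sd3, if_neg e30, if_neg e31, if_neg e32, hE.dec_swap, σ3]

/-! ## Prescribed levels -/

theorem mem_lvl {y : ℤ} {a : (ZMod N × ℤ) × (ZMod N × ℤ)} :
    a ∈ lvl N y ↔ ∃ x, a = bE x y ∨ a = (bE x y).swap := mem_Ed

theorem lvl_swap {y : ℤ} {a : (ZMod N × ℤ) × (ZMod N × ℤ)} (h : a ∈ lvl N y) : a.swap ∈ lvl N y :=
  Ed_swap h

theorem lvl_height {y : ℤ} {a : (ZMod N × ℤ) × (ZMod N × ℤ)} (h : a ∈ lvl N y) :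
    a.1.2 = y ∧ a.2.2 = y := by
  obtain ⟨x, rfl | rfl⟩ := mem_lvl.mp h
  · exact ⟨rfl, rfl⟩
  · exact ⟨rfl, rfl⟩

theorem mem_los_of_lvl {y : ℤ} {s : ZMod N → Bool} {x : ZMod N} :
    ldl y s (if s x then bE x y else (bE x y).swap) = 1 := by
  unfold ldl dlt
  rw [if_neg]
  rintro ⟨-, h⟩
  apply h
  unfold los
  rw [mem_oset]
  exact ⟨x, rfl⟩

theorem ldl_of_ne {y : ℤ} {s : ZMod N → Bool} {a : (ZMod N × ℤ) × (ZMod N × ℤ)}
    (h : a.1.2 ≠ y ∨ a.2.2 ≠ y) : ldl y s a = 1 := by
  unfold ldl dlt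
  rw [if_neg]
  rintro ⟨h1, -⟩
  have := lvl_height h1
  tauto

/-- the product of a prescription over the arrows of a state -/
theorem prod_ldl (y : ℤ) (s t : ZMod N → Bool) :
    ∏ x, ldl y s (if t x then bE x y else (bE x y).swap) = if t = s then 1 else 0 := by
  split_ifs with h
  · subst h
    exact Finset.prod_eq_one fun x _ => mem_los_of_lvl
  · obtain ⟨x, hx⟩ := Function.ne_iff.mp h
    refine Finset.prod_eq_zero (Finset.mem_univ x) ?_
    unfold ldl dlt
    rw [if_pos]
    have hE := isFam_lvl (N := N) y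
    unfold lvl los
    cases h1 : t x
    · simp only [Bool.false_eq_true, if_false]
      refine ⟨mem_Ed.mpr ⟨x, Or.inr rfl⟩, ?_⟩
      intro h2
      have h3 := (hE.swap_mem_iff (σ := s) (i := x)).mp h2
      exact hx (h1.trans h3.symm)
    · simp only [if_true]
      refine ⟨mem_Ed.mpr ⟨x, Or.inl rfl⟩, ?_⟩
      intro h2
      have h3 := (hE.mem_iff (σ := s) (i := x)).mp h2
      exact hx (h1.trans h3.symm)

/-- one row with prescribed bottom and top -/
theorem Z6_row_ldl (y : ℤ) (s s' : ZMod N → Bool) :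
    Z6 (CQ N) (cylF N y (y + 1)) (fun a => ldl (y + 1) s' a * ldl y s a) =
      2 ^ N * rowM N s' s := by
  rw [Z6_row]
  have h1 : ∀ t : ZMod N → Bool, ∏ x, (ldl (y + 1) s' (if t x then bE x y else (bE x y).swap) *
      ldl y s (if t x then bE x y else (bE x y).swap)) = if t = s then 1 else 0 := by
    intro t
    rw [Finset.prod_mul_distrib, prod_ldl, Finset.prod_eq_one, one_mul]
    intro x _
    apply ldl_of_ne
    left
    split_ifs
    · change y ≠ y + 1; omega
    · change y ≠ y + 1; omega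
  have h2 : ∀ t : ZMod N → Bool, ∏ x, (ldl (y + 1) s' (if t x then bE x (y + 1)
      else (bE x (y + 1)).swap) * ldl y s (if t x then bE x (y + 1) else (bE x (y + 1)).swap)) =
      if t = s' then 1 else 0 := by
    intro t
    rw [Finset.prod_mul_distrib, prod_ldl, Finset.prod_eq_one, mul_one]
    intro x _
    apply ldl_of_ne
    left
    split_ifs
    · change y + 1 ≠ y; omega
    · change y + 1 ≠ y; omega
  have h3 : ∀ u : ZMod N → Bool, ∏ x, (ldl (y + 1) s' (if u x then vE x y else (vE x y).swap) *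
      ldl y s (if u x then vE x y else (vE x y).swap)) = 1 := by
    intro u
    refine Finset.prod_eq_one fun x _ => ?_
    rw [ldl_of_ne, ldl_of_ne, mul_one]
    · split_ifs
      · right; change y + 1 ≠ y; omega
      · left; change y + 1 ≠ y; omega
    · split_ifs
      · left; change y ≠ y + 1; omega
      · right; change y ≠ y + 1; omega
  simp only [h1, h2, h3, mul_one]
  rw [Finset.sum_eq_single s, Finset.sum_eq_single s']
  · simp only [if_true, mul_one]
    unfold rowM
    push_cast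
    rw [Finset.mul_sum]
    refine Finset.sum_congr rfl fun u _ => ?_
    rw [Finset.prod_mul_distrib, Finset.prod_const, Finset.card_univ, ZMod.card]
  · intro t _ ht
    refine Finset.sum_eq_zero fun u _ => ?_
    rw [if_neg ht, mul_zero, mul_zero]
  · intro h
    exact absurd (Finset.mem_univ _) h
  · intro t _ ht
    refine Finset.sum_eq_zero fun t' _ => Finset.sum_eq_zero fun u _ => ?_
    rw [if_neg ht, zero_mul, mul_zero]
  · intro h
    exact absurd (Finset.mem_univ _) h

end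

end Pool.Agent.SixB
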