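import Pool.Agent.Lib.SixB.CylThru

/-!
# The flat cylinder of odd circumference: turnings of strands, insertion of two arrows

* `trn_cases`: the turning of every strand is `± 4`, `± 2` or `0`; `abs_gg_le`.
* `Zs_signs`: the strand product with the signs of the arrows `e`, `e'` inserted is
  `gg * Zs` (any quad complex whose strands through `e`, `e'` have such turnings).
-/

set_option autoImplicit false
set_option linter.unusedSectionVars false

namespace Pool.Agent.SixB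

open Pool.Agent.Perc Pool.Agent.Perc.Q Relation

noncomputable section

variable {N : ℕ} [hN : Fact (3 ≤ N)] {ω : ZMod N × ℤ → Bool} {y₀ y₁ y : ℤ}
  {e e' : (ZMod N × ℤ) × (ZMod N × ℤ)}

/-- the possible turnings of a strand -/
def TV (t : ℤ) : Prop := t = 4 ∨ t = -4 ∨ t = 2 ∨ t = -2 ∨ t = 0

theorem TV.neg {t : ℤ} (h : TV t) : TV (-t) := by
  unfold TV at *
  omega

theorem turn_bS (hodd : Odd N) (hy : y₀ < y₁) (ω : ZMod N × ℤ → Bool)
    (ha : e ∈ bS (CQ N) (cylF N y₀ y₁)) : TV (turn (CQ N) (cylF N y₀ y₁) ω e) := by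
  have hF := cyl_flat (N := N) hy
  have hT := cyl_turns hodd hy ω
  have hall : ∀ a ∈ bS (CQ N) (cylF N y₀ y₁), a ∈ Ebot N y₀ ∨ a ∈ Etop N y₁ := by
    intro a ha
    rcases hF.all a ha with h | h | h | h
    · exact Or.inl h
    · exact Or.inr h
    · exact absurd h (Finset.notMem_empty _)
    · exact absurd h (Finset.notMem_empty _)
  have hm := hall _ (mate_mem (ω := ω) ha)
  unfold TV
  rcases hall e ha with h | h <;> rcases hm with h' | h'
  · rcases hT.bb e h h' with h1 | h1 <;> rw [h1] <;> simp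
  · rw [hT.bt e h h']; simp
  · have h2 := hT.bt _ h' (by rw [mate_mate ha]; exact h)
    rw [turn_mate ha] at h2
    right; right; right; right
    omega
  · rcases hT.tt e h h' with h1 | h1 <;> rw [h1] <;> simp

/-- the turning of every strand is `± 4`, `± 2` or `0` -/
theorem trn_cases (hodd : Odd N) (hy : y₀ < y₁) (ω : ZMod N × ℤ → Bool)
    (he : e ∈ dE (CQ N) (cylF N y₀ y₁)) : TV (trn (CQ N) (cylF N y₀ y₁) ω e) := by
  by_cases h : ∀ a ∈ dst (CQ N) (cylF N y₀ y₁) ω e, ¬ Ini (CQ N) (cylF N y₀ y₁ : Set _) a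
  · rcases (cyl_turns hodd hy ω).closed _ (dst_mem_dstr he) h with h1 | h1
    · exact Or.inl h1
    · exact Or.inr (Or.inl h1)
  · push Not at h
    obtain ⟨a, ha, ha'⟩ := h
    obtain ⟨h1, h2⟩ := mem_dst.mp ha
    rw [trn_eq h2]
    exact turn_bS hodd hy ω (mem_bS.mpr ⟨h1, ha'⟩)

theorem TV.abs_tnt {t : ℤ} (h : TV t) : |tnt t| ≤ Real.sqrt 3 := by
  have h0 : (0 : ℝ) ≤ Real.sqrt 3 := Real.sqrt_nonneg 3
  have h1 : |1 / Real.sqrt 3| ≤ Real.sqrt 3 := by
    have h2 : 1 ≤ Real.sqrt 3 := by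
      rw [Real.one_le_sqrt]; norm_num
    rw [abs_of_nonneg (by positivity), div_le_iff₀ (by positivity), Real.mul_self_sqrt (by norm_num)]
    norm_num
  rcases h with rfl | rfl | rfl | rfl | rfl
  · rw [tnt_four, abs_of_nonneg h0]
  · rw [show (-4 : ℤ) = -(4 : ℤ) by norm_num, tnt_neg, tnt_four, abs_neg, abs_of_nonneg h0]
  · rw [tnt_two]; exact h1
  · rw [show (-2 : ℤ) = -(2 : ℤ) by norm_num, tnt_neg, tnt_two, abs_neg]; exact h1
  · rw [tnt_zero, abs_zero]; exact h0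

theorem abs_gg_le_of {V Φ : Type} [DecidableEq V] [DecidableEq Φ] {Q : QC V Φ} {F : Finset Φ}
    {ω : Φ → Bool} {e e' : V × V} (h : TV (trn Q F ω e)) (h' : TV (trn Q F ω e')) :
    |gg Q F ω e e'| ≤ 3 := by
  unfold gg
  split_ifs
  · norm_num
  · norm_num
  · rw [abs_neg, abs_mul]
    calc |tnt (trn Q F ω e)| * |tnt (trn Q F ω e')| ≤ Real.sqrt 3 * Real.sqrt 3 :=
          mul_le_mul h.abs_tnt h'.abs_tnt (abs_nonneg _) (Real.sqrt_nonneg _)
      _ = 3 := Real.mul_self_sqrt (by norm_num)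

theorem abs_gg_le (hodd : Odd N) (hy : y₀ < y₁) (ω : ZMod N × ℤ → Bool)
    (he : e ∈ dE (CQ N) (cylF N y₀ y₁)) (he' : e' ∈ dE (CQ N) (cylF N y₀ y₁)) :
    |gg (CQ N) (cylF N y₀ y₁) ω e e'| ≤ 3 :=
  abs_gg_le_of (trn_cases hodd hy ω he) (trn_cases hodd hy ω he')

/-! ## The two orientations of a strand -/

theorem zeta_ofReal (t : ℤ) : zeta ^ t =
    ((Real.cos (Real.pi * t / 12) : ℝ) : ℂ) + ((Real.sin (Real.pi * t / 12) : ℝ) : ℂ) * Complex.I := by
  rw [zeta_zpow, show (t : ℝ) * (Real.pi / 12) = Real.pi * t / 12 by ring, Complex.exp_mul_I]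
  push_cast
  rfl

theorem zeta_sub {t : ℤ} (h : Real.cos (Real.pi * t / 12) ≠ 0) :
    zeta ^ t - zeta ^ (-t) = Complex.I * (tnt t : ℂ) * (zeta ^ t + zeta ^ (-t)) := by
  rw [zeta_ofReal, zeta_ofReal]
  have h1 : Real.pi * ((-t : ℤ) : ℝ) / 12 = -(Real.pi * t / 12) := by push_cast; ring
  rw [h1, Real.cos_neg, Real.sin_neg]
  unfold tnt
  rw [Real.tan_eq_sin_div_cos]
  set c := Real.cos (Real.pi * t / 12)
  set s := Real.sin (Real.pi * t / 12)
  have hc : (c : ℂ) ≠ 0 := by exact_mod_cast h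
  push_cast
  field_simp
  ring

theorem TV.cos_ne {t : ℤ} (h : TV t) : Real.cos (Real.pi * t / 12) ≠ 0 := by
  have h4 : Real.cos (Real.pi * (4 : ℤ) / 12) ≠ 0 := by
    rw [show Real.pi * ((4 : ℤ) : ℝ) / 12 = Real.pi / 3 by push_cast; ring, Real.cos_pi_div_three]
    norm_num
  have h2 : Real.cos (Real.pi * (2 : ℤ) / 12) ≠ 0 := by
    rw [show Real.pi * ((2 : ℤ) : ℝ) / 12 = Real.pi / 6 by push_cast; ring, Real.cos_pi_div_six]
    positivity
  rcases h with rfl | rfl | rfl | rfl | rfl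
  · exact h4
  · rw [show Real.pi * ((-4 : ℤ) : ℝ) / 12 = -(Real.pi * (4 : ℤ) / 12) by push_cast; ring,
      Real.cos_neg]
    exact h4
  · exact h2
  · rw [show Real.pi * ((-2 : ℤ) : ℝ) / 12 = -(Real.pi * (2 : ℤ) / 12) by push_cast; ring,
      Real.cos_neg]
    exact h2
  · simp

theorem swm_flat {V Φ : Type} [DecidableEq V] [DecidableEq Φ] {Q : QC V Φ} {F : Finset Φ}
    {ω : Φ → Bool} {e : V × V} (h : TV (trn Q F ω e)) :
    swm Q F ω (fun _ => 1) e = Complex.I * (tnt (trn Q F ω e) : ℂ) * swp Q F ω (fun _ => 1) e := by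
  unfold swm swp
  rw [Rel.sw_one, Rel.sw_one]
  have h1 : tX Q F ω (dst Q F ω e.swap) = -trn Q F ω e := by
    have := trn_swap (Q := Q) (F := F) (ω := ω) (a := e)
    unfold trn at this ⊢
    exact this
  rw [h1]
  exact zeta_sub h.cos_ne

open Classical in
/-- **Two arrows inserted in the flat strand product.** -/
theorem Zs_signs {V Φ : Type} [DecidableEq V] [DecidableEq Φ] {Q : QC V Φ} {F : Finset Φ}
    {ω : Φ → Bool} {e e' : V × V} (hQ : NoLoop Q) (he : e ∈ dE Q F) (he' : e' ∈ dE Q F)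
    (h : TV (trn Q F ω e)) (h' : TV (trn Q F ω e')) :
    Zs Q F ω (fun a => sgE e a * sgE e' a) = (gg Q F ω e e' : ℂ) * Zs Q F ω (fun _ => 1) := by
  have h0 := Zs_two (ω := ω) hQ (fun _ => 1) he he'
  simp only [one_mul] at h0
  rw [h0]
  unfold gg
  split_ifs with h1 h2
  · simp
  · simp
  · rw [swm_flat h, swm_flat h']
    have hU := usE_mem (ω := ω) he
    have hU' := usE_mem (ω := ω) he'
    have hne : usE Q F ω e' ≠ usE Q F ω e := by
      intro h3
      rcases mem_of_usE_eq he' he h3 with h4 | h4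
      · exact h1 h4
      · exact h2 h4
    have hU'' : usE Q F ω e' ∈ (ust Q F ω).erase (usE Q F ω e) := Finset.mem_erase.mpr ⟨hne, hU'⟩
    unfold Zs
    rw [← Finset.mul_prod_erase _ (fun U => ∑ X ∈ U, sw Q F ω (fun _ => 1) X) hU,
      ← Finset.mul_prod_erase _ (fun U => ∑ X ∈ U, sw Q F ω (fun _ => 1) X) hU'',
      sum_usE hQ he, sum_usE hQ he']
    unfold swp
    push_cast
    linear_combination ((tnt (trn Q F ω e) : ℂ) * (tnt (trn Q F ω e') : ℂ) *
      (sw Q F ω (fun _ => 1) (dst Q F ω e) + sw Q F ω (fun _ => 1) (dst Q F ω e.swap)) *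
      (sw Q F ω (fun _ => 1) (dst Q F ω e') + sw Q F ω (fun _ => 1) (dst Q F ω e'.swap)) *
      ∏ U ∈ ((ust Q F ω).erase (usE Q F ω e)).erase (usE Q F ω e'),
        ∑ X ∈ U, sw Q F ω (fun _ => 1) X) * Complex.I_sq

end

end Pool.Agent.SixB
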