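import Mathlib.Analysis.InnerProductSpace.JointEigenspace
import Mathlib.Analysis.InnerProductSpace.Basic
import Mathlib.LinearAlgebra.DFinsupp
import Mathlib.Analysis.SpecialFunctions.Complex.Arg

/-!
# Common eigenvectors of a commuting family of operators closed under adjoints
-/

set_option autoImplicit false

namespace Pool.Agent.SixB

open Module.End
open scoped InnerProductSpace ComplexConjugate

variable {E : Type*} [NormedAddCommGroup E] [InnerProductSpace ℂ E] {ι : Type*}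

/-- `adj i` indexes the adjoint of `t i` -/
def IsAdj (t : ι → E →ₗ[ℂ] E) (adj : ι → ι) : Prop :=
  ∀ i u v, ⟪t i u, v⟫_ℂ = ⟪u, t (adj i) v⟫_ℂ

/-- twice the self-adjoint real and imaginary parts -/
noncomputable def reIm (t : ι → E →ₗ[ℂ] E) (adj : ι → ι) (p : ι × Bool) : E →ₗ[ℂ] E :=
  if p.2 then t p.1 + t (adj p.1) else Complex.I • (t p.1 - t (adj p.1))

theorem IsAdj.symm {t : ι → E →ₗ[ℂ] E} {adj : ι → ι} (h : IsAdj t adj) (i : ι) (u v : E) :
    ⟪t (adj i) u, v⟫_ℂ = ⟪u, t i v⟫_ℂ := by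
  rw [← inner_conj_symm, ← h, inner_conj_symm]

theorem reIm_symmetric {t : ι → E →ₗ[ℂ] E} {adj : ι → ι} (h : IsAdj t adj) (p : ι × Bool) :
    (reIm t adj p).IsSymmetric := by
  intro u v
  obtain ⟨i, b⟩ := p
  cases b
  · simp only [reIm, Bool.false_eq_true, if_false, LinearMap.smul_apply, LinearMap.sub_apply,
      inner_smul_left, inner_smul_right, inner_sub_left, inner_sub_right, h i, h.symm i,
      Complex.conj_I]
    ring
  · simp only [reIm, if_true, LinearMap.add_apply, inner_add_left, inner_add_right, h i, h.symm i]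
    ring

theorem reIm_commute {t : ι → E →ₗ[ℂ] E} {adj : ι → ι}
    (hc : ∀ i j, Commute (t i) (t j)) (p q : ι × Bool) :
    Commute (reIm t adj p) (reIm t adj q) := by
  obtain ⟨i, b⟩ := p
  obtain ⟨j, c⟩ := q
  have h1 : ∀ k, Commute (t k) (reIm t adj (j, c)) := by
    intro k
    cases c
    · simp only [reIm, Bool.false_eq_true, if_false]
      exact ((hc _ _).sub_right (hc _ _)).smul_right _
    · simp only [reIm, if_true]
      exact (hc _ _).add_right (hc _ _)
  cases b
  · have : reIm t adj (i, false) = Complex.I • (t i - t (adj i)) := by simp [reIm]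
    rw [this]
    exact ((h1 _).sub_left (h1 _)).smul_left _
  · have : reIm t adj (i, true) = t i + t (adj i) := by simp [reIm]
    rw [this]
    exact (h1 _).add_left (h1 _)

/-- **Joint spectral theorem.** -/
theorem exists_joint [FiniteDimensional ℂ E] {t : ι → E →ₗ[ℂ] E} {adj : ι → ι}
    (h : IsAdj t adj) (hc : ∀ i j, Commute (t i) (t j)) (v : E) :
    ∃ (n : ℕ) (u : Fin n → E) (χ : Fin n → ι → ℂ), (∀ j, u j ≠ 0) ∧
      (∀ j i, t i (u j) = χ j i • u j) ∧ (∀ j k, j ≠ k → ⟪u j, u k⟫_ℂ = 0) ∧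
      v = ∑ j, u j := by
  classical
  have htop := LinearMap.IsSymmetric.iSup_iInf_eq_top_of_commute
    (T := fun p => (reIm t adj p : Module.End ℂ E)) (fun p => reIm_symmetric h p)
    (fun p q _ => reIm_commute hc p q)
  have horth := LinearMap.IsSymmetric.orthogonalFamily_iInf_eigenspaces
    (T := fun p => (reIm t adj p : Module.End ℂ E)) (fun p => reIm_symmetric h p)
  have hv : v ∈ ⨆ χ : ι × Bool → ℂ, ⨅ p, eigenspace (reIm t adj p : Module.End ℂ E) (χ p) := by
    rw [htop]; trivial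
  obtain ⟨f, hf, hsum⟩ := (Submodule.mem_iSup_iff_exists_finsupp _ _).1 hv
  have hmem : ∀ χ p, reIm t adj p (f χ) = χ p • f χ := fun χ p =>
    mem_eigenspace_iff.1 ((Submodule.mem_iInf _).1 (hf χ) p)
  set s := f.support with hs
  refine ⟨s.card, fun j => f (s.equivFin.symm j),
    fun j i => (((s.equivFin.symm j : ι × Bool → ℂ)) (i, true) -
      Complex.I * ((s.equivFin.symm j : ι × Bool → ℂ)) (i, false)) / 2, ?_, ?_, ?_, ?_⟩
  · intro j
    exact Finsupp.mem_support_iff.1 (s.equivFin.symm j).2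
  · intro j i
    set χ : ι × Bool → ℂ := (s.equivFin.symm j : ι × Bool → ℂ) with hχ
    have h1 := hmem χ (i, true)
    have h2 := hmem χ (i, false)
    simp only [reIm, if_true, LinearMap.add_apply] at h1
    simp only [reIm, Bool.false_eq_true, if_false, LinearMap.smul_apply,
      LinearMap.sub_apply] at h2
    have h3 : (2 : ℂ) • t i (f χ) = (χ (i, true) - Complex.I * χ (i, false)) • f χ := by
      rw [sub_smul, mul_smul, ← h1, ← h2, smul_smul, Complex.I_mul_I, two_smul]
      simp only [neg_smul, one_smul]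
      abel
    have h4 : t i (f χ) = (1 / 2 : ℂ) • ((2 : ℂ) • t i (f χ)) := by
      rw [smul_smul]; norm_num
    rw [h4, h3, smul_smul]
    congr 1
    ring
  · intro j k hjk
    have hne : (s.equivFin.symm j : ι × Bool → ℂ) ≠ (s.equivFin.symm k : ι × Bool → ℂ) := by
      intro he
      exact hjk (s.equivFin.symm.injective (Subtype.ext he))
    have := horth hne (⟨_, hf (s.equivFin.symm j)⟩) (⟨_, hf (s.equivFin.symm k)⟩)
    simpa using this
  · rw [← hsum, Finsupp.sum, ← Finset.sum_coe_sort s (fun χ => f χ)]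
    exact (s.equivFin.symm.sum_comp (fun χ : s => f χ)).symm

/-- a unit complex number and the angle of its powers, folded to `[0, π]` -/
theorem re_pow_eq_cos {z : ℂ} (hz : ‖z‖ = 1) (x : ℕ) :
    (z ^ x).re = Real.cos (|Complex.arg z| * x) := by
  have h1 : z = Complex.exp (Complex.arg z * Complex.I) := by
    conv_lhs => rw [← Complex.norm_mul_exp_arg_mul_I z, hz]
    simp
  have h2 : z ^ x = Complex.exp ((Complex.arg z * x : ℝ) * Complex.I) := by
    conv_lhs => rw [h1]
    rw [← Complex.exp_nat_mul]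
    congr 1
    push_cast
    ring
  rw [h2, Complex.exp_ofReal_mul_I_re]
  rcases abs_cases (Complex.arg z) with ⟨h, _⟩ | ⟨h, _⟩
  · rw [h]
  · rw [h, neg_mul, Real.cos_neg]

/-- **Spectral data of a vector** under a self-adjoint `T = t i₀` and a unitary `U = t i₁` of a
commuting family closed under adjoints. -/
theorem exists_specData [FiniteDimensional ℂ E] {t : ι → E →ₗ[ℂ] E} {adj : ι → ι}
    (h : IsAdj t adj) (hc : ∀ i j, Commute (t i) (t j)) (i₀ i₁ : ι) (h0 : (t i₀).IsSymmetric)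
    (h1 : ∀ u, ‖t i₁ u‖ = ‖u‖) (v : E) :
    ∃ (n : ℕ) (u : Fin n → E) (χ : Fin n → ι → ℂ) (lam : Fin n → ℝ), (∀ j, u j ≠ 0) ∧
      (∀ j i, t i (u j) = χ j i • u j) ∧ (∀ j, χ j i₀ = lam j) ∧ (∀ j, ‖χ j i₁‖ = 1) ∧
      ∑ j, ‖u j‖ ^ 2 = ‖v‖ ^ 2 ∧
      ∀ x y : ℕ, (⟪v, (t i₀ ^ y * t i₁ ^ x) v⟫_ℂ).re =
        ∑ j, ‖u j‖ ^ 2 * (Real.cos (|Complex.arg (χ j i₁)| * x) * lam j ^ y) := by
  obtain ⟨n, u, χ, hu, hχ, horth, hv⟩ := exists_joint h hc v
  have hreal : ∀ j, ((χ j i₀).re : ℂ) = χ j i₀ := by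
    intro j
    have h2 := h0 (u j) (u j)
    rw [hχ, inner_smul_left, inner_smul_right] at h2
    have h3 : (⟪u j, u j⟫_ℂ) ≠ 0 := inner_self_ne_zero.2 (hu j)
    exact Complex.conj_eq_iff_re.1 (mul_right_cancel₀ h3 h2)
  have hnorm : ∀ j, ‖χ j i₁‖ = 1 := by
    intro j
    have h2 := h1 (u j)
    rw [hχ, norm_smul] at h2
    exact mul_right_cancel₀ (norm_ne_zero_iff.2 (hu j)) (by rw [h2, one_mul])
  have hinner : ∀ f : Fin n → ℂ, ⟪∑ j, u j, ∑ j, f j • u j⟫_ℂ = ∑ j, f j * (‖u j‖ ^ 2 : ℝ) := by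
    intro f
    rw [sum_inner]
    refine Finset.sum_congr rfl fun j _ => ?_
    rw [inner_sum, Finset.sum_eq_single j]
    · rw [inner_smul_right, inner_self_eq_norm_sq_to_K]
      push_cast
      rfl
    · intro k _ hk
      rw [inner_smul_right, horth j k (Ne.symm hk), mul_zero]
    · intro hj
      exact absurd (Finset.mem_univ j) hj
  refine ⟨n, u, χ, fun j => (χ j i₀).re, hu, hχ, fun j => (hreal j).symm, hnorm, ?_, ?_⟩
  · have h2 := hinner fun _ => 1
    simp only [one_smul, one_mul, ← hv] at h2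
    rw [inner_self_eq_norm_sq_to_K] at h2
    have h3 : ((‖v‖ ^ 2 : ℝ) : ℂ) = ((∑ j, ‖u j‖ ^ 2 : ℝ) : ℂ) := by
      push_cast at h2 ⊢
      exact h2
    exact (Complex.ofReal_injective h3).symm
  · intro x y
    have h2 : ∀ j, (t i₀ ^ y * t i₁ ^ x) (u j) = (χ j i₀ ^ y * χ j i₁ ^ x) • u j := by
      intro j
      have ha : ∀ (i : ι) (m : ℕ), (t i ^ m) (u j) = χ j i ^ m • u j := by
        intro i m
        induction m with
        | zero => simp
        | succ m ih => rw [pow_succ', Module.End.mul_apply, ih, map_smul, hχ, smul_smul, pow_succ]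
      rw [Module.End.mul_apply, ha, map_smul, ha, smul_smul, mul_comm]
    have h3 : (t i₀ ^ y * t i₁ ^ x) v = ∑ j, (χ j i₀ ^ y * χ j i₁ ^ x) • u j := by
      rw [hv, map_sum]
      exact Finset.sum_congr rfl fun j _ => h2 j
    rw [h3]
    conv_lhs => rw [hv]
    rw [hinner, Complex.re_sum]
    refine Finset.sum_congr rfl fun j _ => ?_
    rw [← hreal j, ← Complex.ofReal_pow, mul_assoc, Complex.re_ofReal_mul,
      Complex.re_mul_ofReal, re_pow_eq_cos (hnorm j)]
    simp only [Complex.ofReal_re]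
    ring

end Pool.Agent.SixB
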