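import Pool.Agent.Lib.SixB.S3Momentum

/-!
From a bound on the joint eigenvalues of a symmetric operator `T` commuting with the translation
`W` to the norm bound (cone hypothesis) for `T ^ a` on the momentum spaces.
-/

namespace Pool.Agent.SixB.An

open Complex Finset

universe v

theorem norm_symm_le {E : Type v} [NormedAddCommGroup E] [InnerProductSpace ℂ E]
    [FiniteDimensional ℂ E] {T : E →ₗ[ℂ] E} (hT : T.IsSymmetric) {M : ℝ} (hM : 0 ≤ M)
    (h : ∀ (v : E) (l : ℝ), v ≠ 0 → T v = (l : ℂ) • v → |l| ≤ M) (v : E) :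
    ‖T v‖ ≤ M * ‖v‖ := by
  set n := Module.finrank ℂ E with hn
  set b := hT.eigenvectorBasis (n := n) rfl with hb
  rw [← abs_of_nonneg (norm_nonneg (T v)), ← abs_of_nonneg (mul_nonneg hM (norm_nonneg v)),
    ← sq_le_sq, ← b.repr.norm_map (T v), mul_pow, ← b.repr.norm_map v,
    EuclideanSpace.norm_sq_eq, EuclideanSpace.norm_sq_eq, mul_sum]
  apply sum_le_sum
  intro i _
  have h1 := hT.eigenvectorBasis_apply_self_apply (n := n) rfl v i
  have h2 : |hT.eigenvalues (n := n) rfl i| ≤ M := by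
    apply h (b i)
    · intro h0
      have := b.norm_eq_one i
      rw [h0, norm_zero] at this
      exact zero_ne_one this
    · exact hT.apply_eigenvectorBasis (n := n) rfl i
  rw [hb, h1, norm_mul, mul_pow]
  apply mul_le_mul_of_nonneg_right _ (by positivity)
  apply pow_le_pow_left₀ (norm_nonneg _)
  simpa using h2

theorem cone_of_eig {H : Type v} [NormedAddCommGroup H] [InnerProductSpace ℂ H]
    [FiniteDimensional ℂ H] {W T : H →ₗ[ℂ] H} (hT : T.IsSymmetric) (hc : Commute T W) {μ : ℂ}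
    {M : ℝ} (hM : 0 ≤ M)
    (h : ∀ (v : H) (l : ℝ), v ≠ 0 → W v = μ • v → T v = (l : ℂ) • v → |l| ≤ M) (a : ℕ) (v : H)
    (hv : W v = μ • v) : ‖(T ^ a) v‖ ≤ M ^ a * ‖v‖ := by
  have hinv : ∀ x ∈ Module.End.eigenspace W μ, T x ∈ Module.End.eigenspace W μ := by
    intro x hx
    rw [Module.End.mem_eigenspace_iff] at hx ⊢
    calc W (T x) = (W * T) x := rfl
      _ = (T * W) x := by rw [hc.eq]
      _ = T (W x) := rfl
      _ = μ • T x := by rw [hx, map_smul]
  have key : ∀ x : H, W x = μ • x → ‖T x‖ ≤ M * ‖x‖ := by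
    intro x hx
    have hs := hT.restrict_invariant (V := Module.End.eigenspace W μ) hinv
    have := norm_symm_le hs hM (by
      intro y l hy0 hy
      apply h (y : H) l
      · intro h0
        exact hy0 (Subtype.ext h0)
      · exact Module.End.mem_eigenspace_iff.mp y.2
      · have := congrArg Subtype.val hy
        simpa using this) ⟨x, Module.End.mem_eigenspace_iff.mpr hx⟩
    simpa using this
  have hpow : ∀ a : ℕ, W ((T ^ a) v) = μ • (T ^ a) v := by
    intro a
    calc W ((T ^ a) v) = (W * T ^ a) v := rfl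
      _ = (T ^ a * W) v := by rw [(hc.pow_left a).eq]
      _ = (T ^ a) (W v) := rfl
      _ = μ • (T ^ a) v := by rw [hv, map_smul]
  induction a with
  | zero => simp
  | succ a ih =>
    rw [pow_succ', Module.End.mul_apply]
    calc ‖T ((T ^ a) v)‖ ≤ M * ‖(T ^ a) v‖ := key _ (hpow a)
      _ ≤ M * (M ^ a * ‖v‖) := mul_le_mul_of_nonneg_left ih hM
      _ = M ^ (a + 1) * ‖v‖ := by ring

/-- The cone hypothesis of `op_small` for `A = T ^ a`. -/
theorem hcone_pow {H : Type v} [NormedAddCommGroup H] [InnerProductSpace ℂ H]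
    [FiniteDimensional ℂ H] {W T : H →ₗ[ℂ] H} (hT : T.IsSymmetric) (hc : Commute T W) {N : ℕ}
    {c K : ℝ} (hK : 0 ≤ K)
    (h : ∀ (j : Fin N) (v : H) (l : ℝ), v ≠ 0 → W v = exp (I * (ang N j : ℂ)) • v →
      T v = (l : ℂ) • v → |l| ≤ K * Real.exp (-(c * |ang N j|))) (a : ℕ) (j : Fin N) (v : H)
    (hv : W v = exp (I * (ang N j : ℂ)) • v) :
    ‖(T ^ a) v‖ ≤ K ^ a * Real.exp (-(c * a * |ang N j|)) * ‖v‖ := by
  have := cone_of_eig hT hc (μ := exp (I * (ang N j : ℂ)))
    (M := K * Real.exp (-(c * |ang N j|))) (by positivity) (fun v l h0 h1 h2 => h j v l h0 h1 h2)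
    a v hv
  refine this.trans (le_of_eq ?_)
  rw [mul_pow, ← Real.exp_nat_mul]
  congr 3
  ring

end Pool.Agent.SixB.An
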