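import Pool.Agent.Lib.MP_6bd702_sv.PiSix
import Pool.Agent.Lib.SixB.Joint
import Pool.Agent.Lib.SixB.S3ConeEig

/-!
# Joint eigenvectors of the transfer matrices as eigenvalue functions

`tL N w` is the transfer matrix as a linear map of the Euclidean space.  A vector which is an
eigenvector of `t(π/6)` and of `t(0) ^ k` yields an eigenvalue function `Λ` (`EigFun`) with the same
eigenvalues.
-/

set_option autoImplicit false

namespace Pool.Agent.SixB

open Pool.Agent.SixV Complex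
open scoped Real ComplexConjugate InnerProductSpace

/-- The Hilbert space of a ring. -/
abbrev HN (N : ℕ) := EuclideanSpace ℂ (Fin N → Bool)

/-- The transfer matrix as a linear map. -/
noncomputable def tL (N : ℕ) (w : ℂ) : HN N →ₗ[ℂ] HN N := Matrix.toEuclideanLin (T N w)

/-- The points of the open strip. -/
def StripPt := {w : ℂ // -(π / 3) < w.re ∧ w.re < 2 * π / 3}

/-- The adjoint parameter. -/
noncomputable def StripPt.adj (w : StripPt) : StripPt :=
  ⟨π / 3 - conj w.1, by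
    have h := w.2
    have e : ((π : ℂ) / 3 - conj w.1).re = π / 3 - w.1.re := by
      have : ((π : ℂ) / 3) = ((π / 3 : ℝ) : ℂ) := by push_cast; rfl
      rw [this, Complex.sub_re, Complex.ofReal_re, Complex.conj_re]
    rw [e]
    constructor <;> linarith [h.1, h.2]⟩

theorem tL_ofLp (N : ℕ) (w : ℂ) (v : HN N) : (tL N w v).ofLp = (T N w).mulVec v.ofLp := rfl

theorem tL_adj (N : ℕ) (w : ℂ) (u v : HN N) :
    ⟪tL N w u, v⟫_ℂ = ⟪u, tL N (π / 3 - conj w) v⟫_ℂ := by
  unfold tL
  rw [← T_conjTranspose, Matrix.toEuclideanLin_conjTranspose_eq_adjoint,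
    LinearMap.adjoint_inner_right]

theorem tL_mul (N : ℕ) (w w' : ℂ) : tL N w * tL N w' = Matrix.toEuclideanLin (T N w * T N w') := by
  ext v i
  simp only [Module.End.mul_apply, tL]
  simp [Matrix.toLpLin_apply, Matrix.mulVec_mulVec]

theorem tL_commute (N : ℕ) (w w' : ℂ) : Commute (tL N w) (tL N w') := by
  unfold Commute SemiconjBy
  rw [tL_mul, tL_mul, T_commute]

theorem isAdj_tL (N : ℕ) : IsAdj (fun w : StripPt => tL N w.1) StripPt.adj :=
  fun w u v => tL_adj N w.1 u v

/-- An eigenvector of `t(π/6)` and of a power of the shift `t(0)` has the eigenvalues of an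
eigenvalue function. -/
theorem exists_eigFun {N : ℕ} {v : HN N} (hv : v ≠ 0) {l μ : ℂ} {k : ℕ}
    (h1 : tL N (π / 6) v = l • v) (h2 : (tL N 0 ^ k) v = μ • v) :
    ∃ Λ : ℂ → ℂ, MP6bd.EigFun N Λ ∧ Λ (π / 6) = l ∧ Λ 0 ^ k = μ := by
  classical
  have hp := Real.pi_pos
  obtain ⟨n, u, χ, hu, hχ, horth, hsum⟩ :=
    exists_joint (isAdj_tL N) (fun i j => tL_commute N i.1 j.1) v
  have hn : 0 < n := by
    rcases Nat.eq_zero_or_pos n with h | h
    · subst h
      exact absurd (by simpa using hsum) hv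
    · exact h
  have e6 : ((π : ℂ) / 6).re = π / 6 := by
    have : ((π : ℂ) / 6) = ((π / 6 : ℝ) : ℂ) := by push_cast; rfl
    rw [this, Complex.ofReal_re]
  set j : Fin n := ⟨0, hn⟩
  have huv : ⟪u j, v⟫_ℂ = ⟪u j, u j⟫_ℂ := by
    rw [hsum, inner_sum, Finset.sum_eq_single j]
    · intro i _ hi
      exact horth j i (Ne.symm hi)
    · intro h
      exact absurd (Finset.mem_univ _) h
  have hne : ⟪u j, u j⟫_ℂ ≠ 0 := by
    rw [Ne, inner_self_eq_zero]
    exact hu j
  have hkey : ∀ (A : HN N →ₗ[ℂ] HN N) (c : Fin n → ℂ) (x : ℂ), (∀ i, A (u i) = c i • u i) →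
      A v = x • v → c j = x := by
    intro A c x hA hx
    have h3 : ⟪u j, A v⟫_ℂ = c j * ⟪u j, u j⟫_ℂ := by
      conv_lhs => rw [hsum, map_sum, inner_sum]
      rw [Finset.sum_eq_single j]
      · rw [hA, inner_smul_right]
      · intro i _ hi
        rw [hA, inner_smul_right, horth j i (Ne.symm hi), mul_zero]
      · intro h
        exact absurd (Finset.mem_univ _) h
    rw [hx, inner_smul_right, huv] at h3
    exact (mul_right_cancel₀ hne h3).symm
  set p6 : StripPt := ⟨π / 6, by rw [e6]; constructor <;> linarith⟩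
  set p0 : StripPt := ⟨0, by rw [Complex.zero_re]; constructor <;> linarith⟩
  have hpow : ∀ (m : ℕ) (i : Fin n), (tL N 0 ^ m) (u i) = (χ i p0 ^ m) • u i := by
    intro m i
    induction m with
    | zero => simp
    | succ m ih =>
      rw [pow_succ', Module.End.mul_apply, ih, map_smul, pow_succ, mul_smul]
      congr 1
      exact hχ i p0
  refine ⟨fun w => if hw : -(π / 3) < w.re ∧ w.re < 2 * π / 3 then χ j ⟨w, hw⟩ else 0, ?_, ?_, ?_⟩
  · refine eigFun_of_joint (v := (u j).ofLp) ?_ ?_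
    · intro h
      apply hu j
      ext i
      exact congrFun h i
    · intro w h3 h4
      rw [dif_pos ⟨h3, h4⟩]
      have h5 := congrArg WithLp.ofLp (hχ j ⟨w, h3, h4⟩)
      rw [tL_ofLp] at h5
      exact h5
  · have h3 := hkey (tL N (π / 6)) (fun i => χ i p6) l (fun i => hχ i p6) h1
    simp only
    rw [dif_pos p6.2]
    exact h3
  · have h3 := hkey (tL N 0 ^ k) (fun i => χ i p0 ^ k) μ (fun i => hpow k i) h2
    simp only
    rw [dif_pos p0.2]
    exact h3

/-- `t(π/6)` is symmetric. -/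
theorem tL_six_symm (N : ℕ) : (tL N (π / 6)).IsSymmetric := by
  intro u v
  have h := tL_adj N (π / 6) u v
  have e : (π : ℂ) / 3 - conj ((π : ℂ) / 6) = π / 6 := by
    have : ((π : ℂ) / 6) = ((π / 6 : ℝ) : ℂ) := by push_cast; rfl
    rw [this, Complex.conj_ofReal]
    push_cast
    ring
  rw [e] at h
  exact h

/-- The weak cone in the form of the analytic part. -/
def WeakCone (c C : ℝ) : Prop :=
  ∀ (N : ℕ) (Λ : ℂ → ℂ), 1 ≤ N → MP6bd.EigFun N Λ → ∀ θ : ℝ, |θ| ≤ π →
    Λ 0 ^ 2 = exp (I * θ) → ‖Λ (π / 6)‖ ≤ Real.exp (C / N) * Real.exp (-(c * |θ|))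

/-- **Weak cone for the powers of `T = t(π/6)`** on the momentum spaces of the even shift. -/
theorem cone_pow {c C : ℝ} (hw : WeakCone c C) {N : ℕ} (hN : 1 ≤ N) (a : ℕ) {θ : ℝ}
    (hθ : |θ| ≤ π) (v : HN N) (hv : (tL N 0 ^ 2) v = exp (I * θ) • v) :
    ‖(tL N (π / 6) ^ a) v‖ ≤ Real.exp (C * a / N) * Real.exp (-(c * a * |θ|)) * ‖v‖ := by
  have h := An.cone_of_eig (W := tL N 0 ^ 2) (T := tL N (π / 6)) (tL_six_symm N)
    ((tL_commute N (π / 6) 0).pow_right 2) (μ := exp (I * θ))
    (M := Real.exp (C / N) * Real.exp (-(c * |θ|))) (by positivity) ?_ a v hv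
  · refine h.trans (le_of_eq ?_)
    rw [mul_pow, ← Real.exp_nat_mul, ← Real.exp_nat_mul]
    congr 3
    · ring
    · ring
  · intro x l hx h1 h2
    obtain ⟨Λ, hΛ, e1, e2⟩ := exists_eigFun hx h2 h1
    have := hw N Λ hN hΛ θ hθ e2
    rw [e1] at this
    simpa using this

end Pool.Agent.SixB
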