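import Pool.Agent.Lib.SixB.CylMom
import Pool.Agent.Lib.SixB.S1Joint

/-!
# The cylinder of odd circumference: correlations of two arrows as spectral sums

* `psi_up`, `psi_sg`: rows and signs on the Hilbert space `HN`;
* `corr_eq`: `√3 ^ N * E (gg * c4 ^ thr) = ⟪D b v, T ^ y (D a v)⟫`, `v = T ^ M 1`;
* `eig_le_one`: all eigenvalues of `T` are in `[-1, 1]`;
* `corr_shift`, `corr_comm`: translations and exchange.
-/

set_option autoImplicit false
set_option linter.unusedSectionVars false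

namespace Pool.Agent.SixB

open Pool.Agent.Perc Pool.Agent.Perc.Q Relation Filter Topology Pool.Agent.SixV
open scoped InnerProductSpace

noncomputable section

/-! ## The Hilbert space -/

/-- the constant vector -/
def oneH (N : ℕ) : HN N := WithLp.toLp 2 fun _ => 1

/-- the sign of the arrow `a` -/
def Dg (N : ℕ) (a : Fin N) : HN N →ₗ[ℂ] HN N where
  toFun g := WithLp.toLp 2 fun s => (if s a then 1 else -1) * g.ofLp s
  map_add' g g' := by
    ext s
    simp only [WithLp.ofLp_add, Pi.add_apply, mul_add]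
  map_smul' c g := by
    ext s
    simp only [WithLp.ofLp_smul, Pi.smul_apply, smul_eq_mul, RingHom.id_apply]
    ring

theorem Dg_apply {N : ℕ} (a : Fin N) (g : HN N) (s : Fin N → Bool) :
    (Dg N a g).ofLp s = (if s a then 1 else -1) * g.ofLp s := rfl

theorem Dg_Dg {N : ℕ} (a : Fin N) (g : HN N) : Dg N a (Dg N a g) = g := by
  ext s
  rw [Dg_apply, Dg_apply]
  split_ifs <;> ring

theorem Dg_symm {N : ℕ} (a : Fin N) (g g' : HN N) : ⟪Dg N a g, g'⟫_ℂ = ⟪g, Dg N a g'⟫_ℂ := by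
  rw [PiLp.inner_apply, PiLp.inner_apply]
  refine Finset.sum_congr rfl fun s _ => ?_
  rw [Dg_apply, Dg_apply]
  split_ifs
  · rw [one_mul, one_mul]
  · rw [neg_one_mul, neg_one_mul, inner_neg_left, inner_neg_right]

theorem norm_Dg {N : ℕ} (a : Fin N) (g : HN N) : ‖Dg N a g‖ = ‖g‖ := by
  have h1 : ⟪Dg N a g, Dg N a g⟫_ℂ = ⟪g, g⟫_ℂ := by rw [Dg_symm, Dg_Dg]
  rw [inner_self_eq_norm_sq_to_K, inner_self_eq_norm_sq_to_K] at h1
  have h2 : ‖Dg N a g‖ ^ 2 = ‖g‖ ^ 2 := by exact_mod_cast h1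
  exact (pow_left_inj₀ (norm_nonneg _) (norm_nonneg _) two_ne_zero).mp h2

theorem inner_oneH {N : ℕ} (g : HN N) : ⟪oneH N, g⟫_ℂ = ∑ s, g.ofLp s := by
  rw [PiLp.inner_apply]
  refine Finset.sum_congr rfl fun s _ => ?_
  simp [oneH]

theorem tL_pow_ofLp (N : ℕ) (w : ℂ) (m : ℕ) (g : HN N) :
    ((tL N w ^ m) g).ofLp = (T N w ^ m).mulVec g.ofLp := by
  induction m with
  | zero => rw [pow_zero, pow_zero, Matrix.one_mulVec]; rfl
  | succ m ih => rw [pow_succ', pow_succ', Module.End.mul_apply, tL_ofLp, ih, Matrix.mulVec_mulVec]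

variable {n : ℕ}

/-- the shift -/
theorem shiftH_apply (g : HN (n + 1)) (s : Fin (n + 1) → Bool) :
    (tL (n + 1) 0 g).ofLp s = g.ofLp fun j => s (j - 1) := by
  rw [tL_ofLp]
  change ∑ t, T (n + 1) 0 s t * g.ofLp t = _
  rw [Finset.sum_eq_single fun j => s (j - 1)]
  · rw [T_zero, if_pos, one_mul]
    funext j
    rw [add_sub_cancel_right]
  · intro t _ ht
    rw [T_zero, if_neg, zero_mul]
    intro h1
    apply ht
    rw [h1]
    funext j
    change t j = t (j - 1 + 1)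
    rw [sub_add_cancel]
  · intro h
    exact absurd (Finset.mem_univ _) h

theorem shift_one : tL (n + 1) 0 (oneH (n + 1)) = oneH (n + 1) := by
  ext s
  rw [shiftH_apply]
  rfl

theorem shift_Dg (a : Fin (n + 1)) (g : HN (n + 1)) :
    tL (n + 1) 0 (Dg (n + 1) a g) = Dg (n + 1) (a - 1) (tL (n + 1) 0 g) := by
  ext s
  rw [shiftH_apply, Dg_apply, Dg_apply, shiftH_apply]

/-- the shift of configurations -/
def shE (n : ℕ) : (Fin (n + 1) → Bool) ≃ (Fin (n + 1) → Bool) where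
  toFun s := fun j => s (j - 1)
  invFun s := fun j => s (j + 1)
  left_inv s := by funext j; simp only [add_sub_cancel_right]
  right_inv s := by funext j; simp only [sub_add_cancel]

theorem shift_inner (g g' : HN (n + 1)) :
    ⟪tL (n + 1) 0 g, tL (n + 1) 0 g'⟫_ℂ = ⟪g, g'⟫_ℂ := by
  rw [PiLp.inner_apply, PiLp.inner_apply]
  rw [← (shE n).sum_comp (fun s => ⟪g.ofLp s, g'.ofLp s⟫_ℂ)]
  refine Finset.sum_congr rfl fun s _ => ?_
  rw [shiftH_apply, shiftH_apply]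
  rfl

theorem shift_norm (g : HN (n + 1)) : ‖tL (n + 1) 0 g‖ = ‖g‖ := by
  have h1 := shift_inner g g
  rw [inner_self_eq_norm_sq_to_K, inner_self_eq_norm_sq_to_K] at h1
  have h2 : ‖tL (n + 1) 0 g‖ ^ 2 = ‖g‖ ^ 2 := by exact_mod_cast h1
  exact (pow_left_inj₀ (norm_nonneg _) (norm_nonneg _) two_ne_zero).mp h2

theorem shift_pow_inner (x : ℕ) (g g' : HN (n + 1)) :
    ⟪(tL (n + 1) 0 ^ x) g, (tL (n + 1) 0 ^ x) g'⟫_ℂ = ⟪g, g'⟫_ℂ := by
  induction x with
  | zero => rfl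
  | succ x ih => rw [pow_succ', Module.End.mul_apply, Module.End.mul_apply, shift_inner, ih]

/-- the row operator -/
abbrev TL (N : ℕ) : HN N →ₗ[ℂ] HN N := tL N (Real.pi / 6)

theorem TL_pow_symm (N m : ℕ) (g g' : HN N) : ⟪(TL N ^ m) g, g'⟫_ℂ = ⟪g, (TL N ^ m) g'⟫_ℂ := by
  induction m generalizing g' with
  | zero => rfl
  | succ m ih =>
    rw [pow_succ', Module.End.mul_apply, tL_six_symm N, ih, ← Module.End.mul_apply, ← pow_succ,
      ← pow_succ']

/-- the vector of `M` free rows -/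
def vM (N M : ℕ) : HN N := (TL N ^ M) (oneH N)

theorem shift_pow_vM (x M : ℕ) : (tL (n + 1) 0 ^ x) (vM (n + 1) M) = vM (n + 1) M := by
  have h1 : (tL (n + 1) 0 ^ x) (oneH (n + 1)) = oneH (n + 1) := by
    induction x with
    | zero => rfl
    | succ x ih => rw [pow_succ', Module.End.mul_apply, ih, shift_one]
  have h2 : Commute (tL (n + 1) 0 ^ x) (TL (n + 1) ^ M) :=
    ((tL_commute (n + 1) 0 (Real.pi / 6)).pow_left x).pow_right M
  unfold vM
  rw [← Module.End.mul_apply, h2.eq, Module.End.mul_apply, h1]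

theorem shift_pow_Dg (x : ℕ) (a : Fin (n + 1)) (g : HN (n + 1)) :
    (tL (n + 1) 0 ^ x) (Dg (n + 1) a g) = Dg (n + 1) (a - x • 1) ((tL (n + 1) 0 ^ x) g) := by
  induction x with
  | zero =>
    rw [pow_zero, zero_smul, sub_zero]
    rfl
  | succ x ih =>
    rw [pow_succ', Module.End.mul_apply, Module.End.mul_apply, ih, shift_Dg, succ_nsmul, sub_sub]

/-- the correlation of the arrows `a` and, `y` rows above, `b` -/
def corH (N M y : ℕ) (a b : Fin N) : ℂ := ⟪Dg N b (vM N M), (TL N ^ y) (Dg N a (vM N M))⟫_ℂ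

/-- **The correlation of an arrow with its translate.** -/
theorem corH_shift (M y x : ℕ) (a : Fin (n + 1)) : corH (n + 1) M y a (a + x • 1) =
    ⟪Dg (n + 1) a (vM (n + 1) M), (TL (n + 1) ^ y * tL (n + 1) 0 ^ x)
      (Dg (n + 1) a (vM (n + 1) M))⟫_ℂ := by
  unfold corH
  rw [← shift_pow_inner x]
  have h2 : Commute (tL (n + 1) 0 ^ x) (TL (n + 1) ^ y) :=
    ((tL_commute (n + 1) 0 (Real.pi / 6)).pow_left x).pow_right y
  rw [← Module.End.mul_apply (tL (n + 1) 0 ^ x) (TL (n + 1) ^ y), h2.eq]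
  congr 1
  rw [shift_pow_Dg, shift_pow_vM, add_sub_cancel_right]

theorem corH_comm (N M y : ℕ) (a b : Fin N) : (corH N M y a b).re = (corH N M y b a).re := by
  unfold corH
  rw [← TL_pow_symm, ← inner_conj_symm, Complex.conj_re]

theorem corH_self (N M : ℕ) (a : Fin N) : corH N M 0 a a = ((‖vM N M‖ ^ 2 : ℝ) : ℂ) := by
  unfold corH
  rw [pow_zero, Module.End.one_apply, inner_self_eq_norm_sq_to_K, norm_Dg]
  push_cast
  rfl

/-! ## Rows and signs -/

variable [hN : Fact (3 ≤ n + 1)]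
  {F : Finset (ZMod (n + 1) × ℤ)} {h : (ZMod (n + 1) × ℤ) × (ZMod (n + 1) × ℤ) → ℂ} {y : ℤ}

/-- the vector of `F` is `c • g` -/
def IsPsi (F : Finset (ZMod (n + 1) × ℤ)) (h : (ZMod (n + 1) × ℤ) × (ZMod (n + 1) × ℤ) → ℂ)
    (y : ℤ) (c : ℂ) (g : HN (n + 1)) : Prop :=
  ∀ s : ZMod (n + 1) → Bool, Psi F h y s = c * g.ofLp (fun j : Fin (n + 1) => s j)

theorem rowM_mulVec (f : (ZMod (n + 1) → Bool) → ℂ) :
    (rowM (n + 1)).mulVec f = (T (n + 1) (Real.pi / 6)).mulVec f := by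
  funext s
  change ∑ t, rowM (n + 1) s t * f t = ∑ t, T (n + 1) (Real.pi / 6) s t * f t
  exact Finset.sum_congr rfl fun t _ => by rw [rowM_eq]

theorem rowM_pow_mulVec (m : ℕ) (f : (ZMod (n + 1) → Bool) → ℂ) :
    (rowM (n + 1) ^ m).mulVec f = (T (n + 1) (Real.pi / 6) ^ m).mulVec f := by
  induction m with
  | zero => rw [pow_zero, pow_zero, Matrix.one_mulVec, Matrix.one_mulVec]
  | succ m ih =>
    rw [pow_succ', pow_succ', ← Matrix.mulVec_mulVec, ← Matrix.mulVec_mulVec, ih, rowM_mulVec]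

theorem IsPsi.up {c : ℂ} {g : HN (n + 1)} (hg : IsPsi F h y c g) (hb : Below F y)
    (ho : OffOne F h) (m : ℕ) : IsPsi (F ∪ cylF (n + 1) y (y + m)) h (y + m)
      (c * (2 ^ (n + 1)) ^ m) ((TL (n + 1) ^ m) g) := by
  intro s
  rw [Psi_rows hb ho m, smul_pow, Matrix.smul_mulVec, Pi.smul_apply, smul_eq_mul, tL_pow_ofLp]
  have h2 : Psi F h y = c • g.ofLp := funext hg
  rw [h2, rowM_pow_mulVec, Matrix.mulVec_smul, Pi.smul_apply, smul_eq_mul]
  ring

theorem IsPsi.sg {c : ℂ} {g : HN (n + 1)} (hg : IsPsi F h y c g) (hl : lvl (n + 1) y ⊆ dE (CQ (n + 1)) F)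
    (a : ZMod (n + 1)) : IsPsi F (fun e => h e * sgE (bE a y) e) y c (Dg (n + 1) a g) := by
  intro s
  rw [Psi_sign hl, hg s, Dg_apply]
  ring

theorem Z6_top (hl : lvl (n + 1) y ⊆ dE (CQ (n + 1)) F) :
    Z6 (CQ (n + 1)) F h = ∑ s, Psi F h y s := by
  rw [Z6_split (K := lvl (n + 1) y) hl (fun a => lvl_swap) h]
  unfold lvl
  rw [(isFam_lvl y).sum_karr]
  rfl

theorem IsPsi.sum {c : ℂ} {g : HN (n + 1)} (hg : IsPsi F h y c g)
    (hl : lvl (n + 1) y ⊆ dE (CQ (n + 1)) F) : Z6 (CQ (n + 1)) F h = c * ⟪oneH (n + 1), g⟫_ℂ := by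
  rw [Z6_top hl, inner_oneH, Finset.mul_sum]
  exact Finset.sum_congr rfl fun s _ => hg s

theorem offOne_one (F : Finset (ZMod (n + 1) × ℤ)) : OffOne F fun _ => 1 := fun _ _ => rfl

theorem OffOne.sg (ho : OffOne F h) {a : (ZMod (n + 1) × ℤ) × (ZMod (n + 1) × ℤ)}
    (ha : a ∈ dE (CQ (n + 1)) F) : OffOne F fun e => h e * sgE a e := by
  intro e he
  have h1 : sgE a e = 1 := by
    unfold sgE
    rw [if_neg]
    rintro rfl
    exact he (swap_mem_dE.mpr ha)
  simp only [ho e he, h1, mul_one]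

theorem isPsi_free (M : ℕ) :
    IsPsi (cylF (n + 1) (-M) 0) (fun _ => 1) 0 ((2 ^ (n + 1)) ^ M) (vM (n + 1) M) := by
  have h0 : IsPsi (∅ : Finset (ZMod (n + 1) × ℤ)) (fun _ => 1) (-M) 1 (oneH (n + 1)) := by
    intro s
    rw [Psi_empty]
    simp [oneH]
  have h1 := h0.up (fun f hf => absurd hf (Finset.notMem_empty f)) (offOne_one _) M
  rw [Finset.empty_union, neg_add_cancel, one_mul] at h1
  exact h1

theorem cylF_join {N : ℕ} [Fact (3 ≤ N)] {a b c : ℤ} (h1 : a ≤ b) (h2 : b ≤ c) :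
    cylF N a b ∪ cylF N b c = cylF N a c := by
  ext f
  rw [Finset.mem_union, mem_cylF, mem_cylF, mem_cylF]
  omega

theorem bE_mem_top {N : ℕ} [Fact (3 ≤ N)] {y₀ y : ℤ} (hy : y₀ < y) (x : ZMod N) :
    bE x y ∈ dE (CQ N) (cylF N y₀ y) := lvl_sub_top hy (mem_lvl.mpr ⟨x, Or.inl rfl⟩)

/-- **The arrow sum with two signs as a matrix element.** -/
theorem Z6_corr {M : ℕ} (hM : 0 < M) (y : ℕ) (a b : ZMod (n + 1)) :
    Z6 (CQ (n + 1)) (cylF (n + 1) (-M) (y + M)) (fun e => sgE (bE a 0) e * sgE (bE b y) e) =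
      (2 ^ (n + 1)) ^ (2 * M + y) * corH (n + 1) M y a b := by
  have hM' : (0 : ℤ) < M := by exact_mod_cast hM
  have h1 := (isPsi_free (n := n) M).sg (lvl_sub_top (by omega)) a
  have o1 : OffOne (cylF (n + 1) (-M) 0) (fun e => (1 : ℂ) * sgE (bE a 0) e) :=
    (offOne_one _).sg (bE_mem_top (by omega) a)
  have h2 := h1.up below_cylF o1 y
  rw [zero_add, cylF_join (by omega) (by omega)] at h2
  have h3 := h2.sg (lvl_sub_top (by omega)) b
  have o2 : OffOne (cylF (n + 1) (-M) y)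
      (fun e => (1 : ℂ) * sgE (bE a 0) e * sgE (bE b y) e) := by
    refine OffOne.sg (o1.mono ?_) (bE_mem_top (by omega) b)
    intro f hf
    rw [mem_cylF] at hf ⊢
    omega
  have h4 := h3.up below_cylF o2 M
  rw [cylF_join (by omega) (by omega)] at h4
  have h5 := h4.sum (lvl_sub_top (by omega))
  have h6 : (fun e => sgE (bE a 0) e * sgE (bE b y) e) =
      fun e => (1 : ℂ) * sgE (bE a 0) e * sgE (bE b (y : ℤ)) e := by
    funext e
    rw [one_mul]
  rw [h6, h5, ← TL_pow_symm, ← Dg_symm]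
  unfold corH vM
  ring

theorem card_cylF {N : ℕ} [Fact (3 ≤ N)] (y₀ : ℤ) (m : ℕ) : (cylF N y₀ (y₀ + m)).card = N * m := by
  unfold cylF
  rw [Finset.card_product, Finset.card_univ, ZMod.card, Int.card_Ico, add_sub_cancel_left,
    Int.toNat_natCast]

/-- the weighted average -/
def avC (N : ℕ) [Fact (3 ≤ N)] (M y : ℕ) (a b : ZMod N) : ℝ :=
  av (cylF N (-M) (y + M)) (fun ω => gg (CQ N) (cylF N (-M) (y + M)) ω (bE a 0) (bE b y) *
    Rel.c4 ^ (thrC N (-M) (y + M) ω).card)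

theorem bE_mem_mid {N : ℕ} [Fact (3 ≤ N)] {y₀ y y₁ : ℤ} (h0 : y₀ < y) (h1 : y ≤ y₁) (x : ZMod N) :
    bE x y ∈ dE (CQ N) (cylF N y₀ y₁) := by
  have h2 := bE_mem_top h0 x
  obtain ⟨f, hf, k, h⟩ := mem_dE.mp h2
  refine mem_dE.mpr ⟨f, ?_, k, h⟩
  rw [mem_cylF] at hf ⊢
  omega

/-- **The correlation as a matrix element.** -/
theorem corr_eq (hodd : Odd (n + 1)) {M : ℕ} (hM : 0 < M) (y : ℕ) (a b : ZMod (n + 1)) :
    ((Real.sqrt 3 ^ (n + 1) * avC (n + 1) M y a b : ℝ) : ℂ) = corH (n + 1) M y a b := by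
  have hM' : (0 : ℤ) < M := by exact_mod_cast hM
  have h1 := Z6_corr (n := n) hM y a b
  rw [Z6_signs hodd (by omega) (bE_mem_mid (by omega) (by omega) a)
    (bE_mem_mid (by omega) (by omega) b)] at h1
  have h2 : ((y : ℤ) + M) = -M + ((2 * M + y : ℕ) : ℤ) := by push_cast; ring
  have h3 : (cylF (n + 1) (-M) (y + M)).card = (n + 1) * (2 * M + y) := by
    rw [h2, card_cylF]
  rw [h3, pow_mul, Complex.ofReal_mul] at h1
  have h4 : (((2 ^ (n + 1)) ^ (2 * M + y) : ℝ) : ℂ) = (2 ^ (n + 1)) ^ (2 * M + y) := by push_cast; rfl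
  rw [h4] at h1
  have h5 : ((2 : ℂ) ^ (n + 1)) ^ (2 * M + y) ≠ 0 := pow_ne_zero _ (pow_ne_zero _ two_ne_zero)
  exact mul_left_cancel₀ h5 h1

theorem gg_self {V Φ : Type} [DecidableEq V] [DecidableEq Φ] {Q : QC V Φ} {F : Finset Φ}
    {ω : Φ → Bool} {e : V × V} (he : e ∈ dE Q F) : gg Q F ω e e = 1 := by
  classical
  unfold gg
  rw [if_pos (self_mem_dst he)]

theorem avC_self {N : ℕ} [Fact (3 ≤ N)] {M : ℕ} (hM : 0 < M) (a : ZMod N) :
    avC N M 0 a a = av (cylF N (-M) M) (fun ω => Rel.c4 ^ (thrC N (-M) M ω).card) := by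
  have hM' : (0 : ℤ) < M := by exact_mod_cast hM
  unfold avC
  rw [Nat.cast_zero, zero_add]
  refine av_congr fun T _ => ?_
  rw [gg_self (bE_mem_mid (by omega) (by omega) a), one_mul]

theorem norm_vM (hodd : Odd (n + 1)) {M : ℕ} (hM : 0 < M) :
    ‖vM (n + 1) M‖ ^ 2 = Real.sqrt 3 ^ (n + 1) *
      av (cylF (n + 1) (-M) M) (fun ω => Rel.c4 ^ (thrC (n + 1) (-M) M ω).card) := by
  have h1 := corr_eq hodd hM 0 (0 : ZMod (n + 1)) 0
  rw [avC_self hM] at h1
  have h2 := corH_self (n + 1) M (0 : Fin (n + 1))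
  exact (Complex.ofReal_injective (h1.trans h2)).symm

/-! ## The eigenvalues of the row operator -/

/-- the real row matrix -/
def R6 (n : ℕ) : Matrix (Fin (n + 1) → Bool) (Fin (n + 1) → Bool) ℝ := fun s' s =>
  ∑ u : Fin (n + 1) → Bool, ∏ j : Fin (n + 1), rw6 (s' j) (s j) (u j) (u (j + 1))

theorem rw6_nonneg (s' s u' u : Bool) : 0 ≤ rw6 s' s u' u := by
  unfold rw6
  split_ifs <;> positivity

theorem R6_nonneg (s' s : Fin (n + 1) → Bool) : 0 ≤ R6 n s' s :=
  Finset.sum_nonneg fun _ _ => Finset.prod_nonneg fun _ _ => rw6_nonneg _ _ _ _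

theorem R6_pow_nonneg (m : ℕ) (s' s : Fin (n + 1) → Bool) : 0 ≤ (R6 n ^ m) s' s := by
  induction m generalizing s with
  | zero =>
    rw [pow_zero, Matrix.one_apply]
    split_ifs
    · exact zero_le_one
    · exact le_refl _
  | succ m ih =>
    rw [pow_succ, Matrix.mul_apply]
    exact Finset.sum_nonneg fun t _ => mul_nonneg (ih t) (R6_nonneg t s)

theorem T_pow_eq (m : ℕ) : T (n + 1) (Real.pi / 6) ^ m = (R6 n ^ m).map (fun r : ℝ => (r : ℂ)) := by
  induction m with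
  | zero =>
    ext s' s
    rw [pow_zero, pow_zero, Matrix.map_apply, Matrix.one_apply, Matrix.one_apply]
    split_ifs
    · exact Complex.ofReal_one.symm
    · exact Complex.ofReal_zero.symm
  | succ m ih =>
    ext s' s
    rw [pow_succ, ih, pow_succ, Matrix.mul_apply, Matrix.map_apply, Matrix.mul_apply,
      Complex.ofReal_sum]
    refine Finset.sum_congr rfl fun t _ => ?_
    rw [Matrix.map_apply, T_pi_six, Complex.ofReal_mul]
    rfl

/-- the sum of the entries of the powers -/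
theorem sum_entries (hodd : Odd (n + 1)) {m : ℕ} (hm : 0 < m) :
    ∑ s', ∑ s, (R6 n ^ m) s' s ≤ 2 ^ (n + 1) := by
  have h0 : IsPsi (∅ : Finset (ZMod (n + 1) × ℤ)) (fun _ => 1) 0 1 (oneH (n + 1)) := by
    intro s
    rw [Psi_empty]
    simp [oneH]
  have h1 := h0.up (fun f hf => absurd hf (Finset.notMem_empty f)) (offOne_one _) m
  rw [Finset.empty_union, zero_add, one_mul] at h1
  have hm' : (0 : ℤ) < m := by exact_mod_cast hm
  have h2 := h1.sum (lvl_sub_top hm')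
  rw [inner_oneH, tL_pow_ofLp, T_pow_eq, Z6_flat hodd hm'] at h2
  have h3 : ∑ s, ((R6 n ^ m).map (fun r : ℝ => (r : ℂ))).mulVec (oneH (n + 1)).ofLp s =
      ((∑ s', ∑ s, (R6 n ^ m) s' s : ℝ) : ℂ) := by
    rw [Complex.ofReal_sum]
    refine Finset.sum_congr rfl fun s' _ => ?_
    rw [Complex.ofReal_sum]
    change ∑ s, ((R6 n ^ m).map (fun r : ℝ => (r : ℂ))) s' s * (oneH (n + 1)).ofLp s = _
    refine Finset.sum_congr rfl fun s _ => ?_
    rw [Matrix.map_apply]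
    simp [oneH]
  rw [h3] at h2
  have h4 : (cylF (n + 1) 0 m).card = (n + 1) * m := by
    have := card_cylF (N := n + 1) 0 m
    rwa [zero_add] at this
  rw [h4, pow_mul] at h2
  have h5 : (2 ^ (n + 1)) ^ m * (Real.sqrt 3 ^ (n + 1) * av (cylF (n + 1) 0 m)
      (fun ω => Rel.c4 ^ (thrC (n + 1) 0 m ω).card)) =
      (2 ^ (n + 1)) ^ m * ∑ s', ∑ s, (R6 n ^ m) s' s := by
    apply Complex.ofReal_injective
    rw [h2]
    push_cast
    ring
  have h6 := mul_left_cancel₀ (by positivity) h5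
  rw [← h6]
  have h7 : av (cylF (n + 1) 0 m) (fun ω => Rel.c4 ^ (thrC (n + 1) 0 m ω).card) ≤
      Rel.c4 ^ (n + 1) := by
    rw [← av_const (S := cylF (n + 1) 0 m) (Rel.c4 ^ (n + 1))]
    exact av_mono fun T _ => pow_le_pow_right₀ Rel.c4_ge (thr_le _)
  calc Real.sqrt 3 ^ (n + 1) * av (cylF (n + 1) 0 m) (fun ω => Rel.c4 ^ (thrC (n + 1) 0 m ω).card)
      ≤ Real.sqrt 3 ^ (n + 1) * Rel.c4 ^ (n + 1) := mul_le_mul_of_nonneg_left h7 (by positivity)
    _ = 2 ^ (n + 1) := by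
      rw [← mul_pow]
      congr 1
      unfold Rel.c4
      rw [Rel.r4_sq]
      have : Real.sqrt 3 ≠ 0 := (Real.sqrt_pos.mpr (by norm_num)).ne'
      field_simp

/-- **All eigenvalues of the row operator have modulus at most `1`.** -/
theorem eig_le_one (hodd : Odd (n + 1)) {g : HN (n + 1)} (hg : g ≠ 0) {l : ℂ}
    (hl : TL (n + 1) g = l • g) : ‖l‖ ≤ 1 := by
  have hpow : ∀ m : ℕ, (TL (n + 1) ^ m) g = l ^ m • g := by
    intro m
    induction m with
    | zero => simp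
    | succ m ih => rw [pow_succ', Module.End.mul_apply, ih, map_smul, hl, smul_smul, pow_succ]
  set C := ∑ s, ‖g.ofLp s‖ with hC
  have hC0 : 0 < C := by
    rw [hC]
    obtain ⟨s, hs⟩ : ∃ s, g.ofLp s ≠ 0 := by
      by_contra h
      push Not at h
      apply hg
      ext s
      exact h s
    exact Finset.sum_pos' (fun _ _ => norm_nonneg _) ⟨s, Finset.mem_univ s, norm_pos_iff.mpr hs⟩
  have key : ∀ m : ℕ, 0 < m → ‖l‖ ^ m ≤ 2 ^ (n + 1) := by
    intro m hm
    have h1 : ∑ s', ‖((TL (n + 1) ^ m) g).ofLp s'‖ = ‖l‖ ^ m * C := by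
      rw [hpow, hC, Finset.mul_sum]
      refine Finset.sum_congr rfl fun s _ => ?_
      rw [WithLp.ofLp_smul, Pi.smul_apply, smul_eq_mul, norm_mul, norm_pow]
    have h2 : ∑ s', ‖((TL (n + 1) ^ m) g).ofLp s'‖ ≤ 2 ^ (n + 1) * C := by
      calc ∑ s', ‖((TL (n + 1) ^ m) g).ofLp s'‖
          ≤ ∑ s', ∑ s, (R6 n ^ m) s' s * ‖g.ofLp s‖ := by
            refine Finset.sum_le_sum fun s' _ => ?_
            rw [tL_pow_ofLp, T_pow_eq]
            change ‖∑ s, ((R6 n ^ m).map (fun r : ℝ => (r : ℂ))) s' s * g.ofLp s‖ ≤ _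
            refine (norm_sum_le _ _).trans (Finset.sum_le_sum fun s _ => ?_)
            rw [norm_mul, Matrix.map_apply, Complex.norm_real, Real.norm_eq_abs,
              abs_of_nonneg (R6_pow_nonneg m s' s)]
        _ = ∑ s, (∑ s', (R6 n ^ m) s' s) * ‖g.ofLp s‖ := by
            rw [Finset.sum_comm]
            exact Finset.sum_congr rfl fun s _ => by rw [Finset.sum_mul]
        _ ≤ ∑ s, 2 ^ (n + 1) * ‖g.ofLp s‖ := by
            refine Finset.sum_le_sum fun s _ => mul_le_mul_of_nonneg_right ?_ (norm_nonneg _)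
            refine le_trans ?_ (sum_entries hodd hm)
            refine Finset.sum_le_sum fun s' _ => ?_
            exact Finset.single_le_sum (f := fun s => (R6 n ^ m) s' s)
              (fun t _ => R6_pow_nonneg m s' t) (Finset.mem_univ s)
        _ = 2 ^ (n + 1) * C := by rw [hC, Finset.mul_sum]
    rw [h1] at h2
    exact le_of_mul_le_mul_right h2 hC0
  by_contra hcon
  push Not at hcon
  have h3 := tendsto_pow_atTop_atTop_of_one_lt hcon
  obtain ⟨m, hm, hm0⟩ := ((h3.eventually (eventually_gt_atTop ((2 : ℝ) ^ (n + 1)))).and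
    (eventually_gt_atTop 0)).exists
  exact absurd (key m hm0) (not_le.mpr hm)

end

end Pool.Agent.SixB
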