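import Pool.Agent.Lib.SixB.CylTurns
import Pool.Agent.Lib.SixB.CylRow

/-!
# The cylinder of odd circumference: the number of strands from the bottom to the top

`thr`: the last sides of the strands which come from the bottom and end at the top.
* `one_le_thr`; `thr_le_one`: at most one, if some row is a zigzag;
* `av_noZig`: the probability that no row is a zigzag;
* `thr_moment`: `E c4 ^ thr ≤ 2` for all high cylinders.
-/

set_option autoImplicit false
set_option linter.unusedSectionVars false

namespace Pool.Agent.SixB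

open Pool.Agent.Perc Pool.Agent.Perc.Q Relation

noncomputable section

variable {N : ℕ} [hN : Fact (3 ≤ N)] {ω : ZMod N × ℤ → Bool} {y₀ y₁ y : ℤ}

/-- the strands from the bottom to the top (their last sides) -/
abbrev thrC (N : ℕ) [Fact (3 ≤ N)] (y₀ y₁ : ℤ) (ω : ZMod N × ℤ → Bool) :
    Finset ((ZMod N × ℤ) × (ZMod N × ℤ)) := Rel.thr (CQ N) (cylF N y₀ y₁) ω (Ebot N y₀) (Etop N y₁)

theorem cyl_flat (hy : y₀ < y₁) :
    Rel.Flat (CQ N) (cylF N y₀ y₁) ∅ (Ebot N y₀) (Etop N y₁) where
  bot := by
    intro a ha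
    obtain ⟨x, rfl⟩ := mem_Ebot.mp ha
    exact mem_bS.mpr ⟨sd_mem (Q := CQ N) (f := (x, y₀)) (mem_cylF_mk.mpr ⟨le_refl y₀, hy⟩) 0,
      bE_ini x⟩
  top := by
    intro a ha
    obtain ⟨x, rfl⟩ := mem_Etop.mp ha
    refine mem_bS.mpr ⟨?_, ini_swap.mpr (bE_top_ter x)⟩
    rw [top_sd]
    exact sd_mem (Q := CQ N) (f := (x, y₁ - 1)) (mem_cylF_mk.mpr ⟨by omega, by omega⟩) 2
  disj := by
    rw [Finset.disjoint_left]
    intro a ha ha'
    obtain ⟨x, rfl⟩ := mem_Ebot.mp ha
    obtain ⟨x', hx'⟩ := mem_Etop.mp ha'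
    have : y₁ = y₀ := congrArg (fun z => z.1.2) hx'
    omega
  all := by
    intro a ha
    obtain ⟨h1, h2⟩ := mem_bS.mp ha
    obtain ⟨x, hx | hx⟩ := ter_cases (swap_mem_dE.mpr h1) (ter_swap.mpr h2)
    · exact Or.inl (mem_Ebot.mpr ⟨x, (Prod.swap_injective hx).symm⟩)
    · refine Or.inr (Or.inl (mem_Etop.mpr ⟨x, ?_⟩))
      rw [← hx, Prod.swap_swap]

theorem one_le_thr (hodd : Odd N) (hy : y₀ < y₁) (ω : ZMod N × ℤ → Bool) :
    1 ≤ (thrC N y₀ y₁ ω).card := by
  obtain ⟨x, x', h⟩ := exists_through hodd hy ω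
  refine Finset.card_pos.mpr ⟨bE x' y₁, Rel.mem_thr.mpr ⟨mem_Etop.mpr ⟨x', rfl⟩, bE x y₀,
    mem_Ebot.mpr ⟨x, rfl⟩, srel_iff.mpr (Or.inl h)⟩⟩

theorem thr_le (ω : ZMod N × ℤ → Bool) : (thrC N y₀ y₁ ω).card ≤ N := by
  have h1 : (thrC N y₀ y₁ ω) ⊆ Finset.univ.image fun x : ZMod N => bE x y₁ := by
    intro t ht
    obtain ⟨h2, -⟩ := Rel.mem_thr.mp ht
    obtain ⟨x, hx⟩ := mem_Etop.mp h2
    exact Finset.mem_image.mpr ⟨x, Finset.mem_univ _, Prod.swap_injective hx⟩
  refine (Finset.card_le_card h1).trans (Finset.card_image_le.trans ?_)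
  rw [Finset.card_univ, ZMod.card]

/-! ## Zigzag rows -/

/-- the row `y` is a zigzag -/
def Zig (N : ℕ) (ω : ZMod N × ℤ → Bool) (y : ℤ) : Prop :=
  ∀ x : ZMod N, ω (x, y) = decide (x.val % 2 = 1)

/-- the sides below a zigzag row -/
def ZLow (N : ℕ) (y : ℤ) (a : (ZMod N × ℤ) × (ZMod N × ℤ)) : Prop :=
  (a.1.2 ≤ y ∧ a.2.2 ≤ y) ∨ (∃ p : ZMod N, p ≠ 0 ∧ p.val % 2 = 0 ∧ (a = vE p y ∨ a = (vE p y).swap)) ∨
    a = vE 0 y

theorem val_add_one (x : ZMod N) (h : x.val + 1 < N) : (x + 1).val = x.val + 1 := by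
  have h3 := hN.out
  rw [ZMod.val_add_of_lt]
  · rw [ZMod.val_one'' (by omega)]
  · rw [ZMod.val_one'' (by omega)]
    exact h

theorem last_add_one (x : ZMod N) (h : x.val + 1 = N) : x + 1 = 0 := by
  have h1 : ((x.val : ℕ) : ZMod N) = x := ZMod.natCast_zmod_val x
  have h2 : ((x.val + 1 : ℕ) : ZMod N) = 0 := by
    rw [h]
    exact ZMod.natCast_self N
  push_cast at h2
  rw [h1] at h2
  exact h2

/-- the last column -/
def xlast (N : ℕ) : ZMod N := -1

theorem xlast_of (x : ZMod N) (h : x + 1 = 0) : x = xlast N := eq_neg_of_add_eq_zero_left h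

theorem zlow_step (hodd : Odd N) (hz : Zig N ω y) {F' : Set (ZMod N × ℤ)}
    {a c : (ZMod N × ℤ) × (ZMod N × ℤ)} (ha : ZLow N y a) (h : Nx (CQ N) ω F' a c) :
    ZLow N y c ∨ c = bE (xlast N) (y + 1) := by
  obtain ⟨⟨x, y'⟩, -, k, rfl, h⟩ := h
  rcases lt_trichotomy y' y with hlt | rfl | hgt
  · left
    left
    have hc : ∀ l, (corC N (x, y') l).2 ≤ y := by
      intro l
      rcases k4_cases l with rfl | rfl | rfl | rfl
      · rw [corC_0]; simp only; omega
      · rw [corC_1]; simp only; omega
      · rw [corC_2]; simp only; omega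
      · rw [corC_3]; simp only; omega
    rcases h with ⟨-, rfl⟩ | ⟨-, rfl⟩
    · exact ⟨hc _, hc _⟩
    · exact ⟨hc _, hc _⟩
  · -- the row of the zigzag
    have hω := hz x
    have hxN := ZMod.val_lt x
    have e1 : (0 : ZMod 4) + 1 = 1 := rfl
    have e2 : (1 : ZMod 4) + 1 = 2 := rfl
    have e3 : (2 : ZMod 4) + 1 = 3 := rfl
    have e4 : (3 : ZMod 4) + 1 = 0 := rfl
    rcases k4_cases k with rfl | rfl | rfl | rfl
    · -- enters from below
      have c1 : (((CQ N).c (x, y') (0 + 2), (CQ N).c (x, y') (0 + 1)) :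
          (ZMod N × ℤ) × (ZMod N × ℤ)) = (vE (x + 1) y').swap := by
        change (corC N (x, y') 2, corC N (x, y') 1) = _
        rw [corC_1, corC_2]; rfl
      have c2 : (((CQ N).c (x, y') 0, (CQ N).c (x, y') (0 + 3)) :
          (ZMod N × ℤ) × (ZMod N × ℤ)) = vE x y' := by
        change (corC N (x, y') 0, corC N (x, y') 3) = _
        rw [corC_0, corC_3]; rfl
      rcases h with ⟨h, rfl⟩ | ⟨h, rfl⟩
      · -- odd column
        left
        rw [c1]
        right; left
        have hx1 : x.val % 2 = 1 := by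
          rw [hω] at h
          have : ev 0 = true := rfl
          rw [this] at h
          simpa using h
        have hlt : x.val + 1 < N := by
          obtain ⟨j, hj⟩ := hodd
          omega
        have hv := val_add_one x hlt
        refine ⟨x + 1, ?_, by rw [hv]; omega, Or.inr rfl⟩
        intro h0
        rw [h0, ZMod.val_zero] at hv
        omega
      · left
        rw [c2]
        right
        have hx1 : x.val % 2 = 0 := by
          rw [hω] at h
          have : (!ev 0) = false := rfl
          rw [this] at h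
          have h' := of_decide_eq_false h
          omega
        by_cases h0 : x = 0
        · right; rw [h0]
        · left; exact ⟨x, h0, hx1, Or.inl rfl⟩
    · -- enters from the right
      have c0 : (((CQ N).c (x, y') 1, (CQ N).c (x, y') (1 + 1)) :
          (ZMod N × ℤ) × (ZMod N × ℤ)) = vE (x + 1) y' := by
        change (corC N (x, y') 1, corC N (x, y') 2) = _
        rw [corC_1, corC_2]; rfl
      rw [c0] at ha
      have c2 : (((CQ N).c (x, y') 1, (CQ N).c (x, y') (1 + 3)) :
          (ZMod N × ℤ) × (ZMod N × ℤ)) = ((x + 1, y'), (x, y')) := by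
        change (corC N (x, y') 1, corC N (x, y') 0) = _
        rw [corC_0, corC_1]
      have c1 : (((CQ N).c (x, y') (1 + 2), (CQ N).c (x, y') (1 + 1)) :
          (ZMod N × ℤ) × (ZMod N × ℤ)) = bE x (y' + 1) := by
        change (corC N (x, y') 3, corC N (x, y') 2) = _
        rw [corC_3, corC_2]; rfl
      rcases h with ⟨h, rfl⟩ | ⟨h, rfl⟩
      · -- even column: up
        have hx1 : x.val % 2 = 0 := by
          rw [hω] at h
          have : ev 1 = false := rfl
          rw [this] at h
          have h' := of_decide_eq_false h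
          omega
        rcases ha with ha | ⟨p, hp0, hp, ha | ha⟩ | ha
        · have : y' + 1 ≤ y' := ha.2
          omega
        · exfalso
          have hxp : x + 1 = p := congrArg (fun z => z.1.1) ha
          by_cases hlast : x.val + 1 = N
          · exact hp0 (hxp ▸ last_add_one x hlast)
          · have hv := val_add_one x (by omega)
            rw [hxp] at hv
            omega
        · have : y' = y' + 1 := congrArg (fun z => z.1.2) ha
          omega
        · right
          have hxp : x + 1 = 0 := congrArg (fun z => z.1.1) ha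
          rw [c1, xlast_of x hxp]
      · left; left
        rw [c2]
        exact ⟨le_refl y', le_refl y'⟩
    · -- enters from above
      exfalso
      have c0 : (((CQ N).c (x, y') 2, (CQ N).c (x, y') (2 + 1)) :
          (ZMod N × ℤ) × (ZMod N × ℤ)) = ((x + 1, y' + 1), (x, y' + 1)) := by
        change (corC N (x, y') 2, corC N (x, y') 3) = _
        rw [corC_3, corC_2]
      rw [c0] at ha
      rcases ha with ha | ⟨p, hp0, hp, ha | ha⟩ | ha
      · have : y' + 1 ≤ y' := ha.2
        omega
      · have : y' + 1 = y' := congrArg (fun z => z.1.2) ha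
        omega
      · have : y' + 1 = y' := congrArg (fun z => z.2.2) ha
        omega
      · have : y' + 1 = y' := congrArg (fun z => z.1.2) ha
        omega
    · -- enters from the left
      have c0 : (((CQ N).c (x, y') 3, (CQ N).c (x, y') (3 + 1)) :
          (ZMod N × ℤ) × (ZMod N × ℤ)) = (vE x y').swap := by
        change (corC N (x, y') 3, corC N (x, y') 0) = _
        rw [corC_3, corC_0]; rfl
      rw [c0] at ha
      have c1 : (((CQ N).c (x, y') (3 + 2), (CQ N).c (x, y') (3 + 1)) :
          (ZMod N × ℤ) × (ZMod N × ℤ)) = ((x + 1, y'), (x, y')) := by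
        change (corC N (x, y') 1, corC N (x, y') 0) = _
        rw [corC_0, corC_1]
      have hx1 : x.val % 2 = 0 := by
        rcases ha with ha | ⟨p, hp0, hp, ha | ha⟩ | ha
        · have : y' + 1 ≤ y' := ha.1
          omega
        · have : y' + 1 = y' := congrArg (fun z => z.1.2) ha
          omega
        · have : x = p := congrArg (fun z => z.1.1) ha
          rw [this]; exact hp
        · have : y' + 1 = y' := congrArg (fun z => z.1.2) ha
          omega
      have hf : ω (x, y') = false := by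
        rw [hω]
        exact decide_eq_false (by omega)
      rcases h with ⟨h, rfl⟩ | ⟨h, rfl⟩
      · left; left
        rw [c1]
        exact ⟨le_refl y', le_refl y'⟩
      · exfalso
        rw [hf] at h
        exact absurd h (by decide)
  · exfalso
    have hc : ∀ l, y + 1 ≤ (corC N (x, y') l).2 := by
      intro l
      rcases k4_cases l with rfl | rfl | rfl | rfl
      · rw [corC_0]; simp only; omega
      · rw [corC_1]; simp only; omega
      · rw [corC_2]; simp only; omega
      · rw [corC_3]; simp only; omega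
    have h1 := hc k
    have h2 := hc (k + 1)
    rcases ha with ha | ⟨p, hp0, hp, ha | ha⟩ | ha
    · have : (corC N (x, y') k).2 ≤ y := ha.1
      omega
    · have : (corC N (x, y') k).2 = y := congrArg (fun z => z.1.2) ha
      omega
    · have : (corC N (x, y') (k + 1)).2 = y := congrArg (fun z => z.2.2) ha
      omega
    · have : (corC N (x, y') k).2 = y := congrArg (fun z => z.1.2) ha
      omega

/-- a path which leaves the lower part passes through one side -/
theorem zlow_path (hodd : Odd N) (hz : Zig N ω y) {F' : Set (ZMod N × ℤ)}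
    {a b : (ZMod N × ℤ) × (ZMod N × ℤ)} (ha : ZLow N y a) (hb : ¬ ZLow N y b)
    (h : ReflTransGen (Nx (CQ N) ω F') a b) :
    ReflTransGen (Nx (CQ N) ω F') (bE (xlast N) (y + 1)) b := by
  have key : ZLow N y b ∨ ReflTransGen (Nx (CQ N) ω F') (bE (xlast N) (y + 1)) b := by
    clear hb
    induction h with
    | refl => exact Or.inl ha
    | tail _ h ih =>
      rcases ih with ih | ih
      · rcases zlow_step hodd hz ih h with h1 | rfl
        · exact Or.inl h1
        · exact Or.inr ReflTransGen.refl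
      · exact Or.inr (ih.tail h)
  exact key.resolve_left hb

/-- **A zigzag row lets only one strand through.** -/
theorem thr_le_one (hodd : Odd N) (hy0 : y₀ ≤ y) (hy1 : y < y₁) (hz : Zig N ω y) :
    (thrC N y₀ y₁ ω).card ≤ 1 := by
  rw [Finset.card_le_one]
  have key : ∀ t ∈ thrC N y₀ y₁ ω, SRel (CQ N) (cylF N y₀ y₁) ω (bE (xlast N) (y + 1)) t ∧
      Ter (CQ N) (cylF N y₀ y₁ : Set (ZMod N × ℤ)) t := by
    intro t ht
    obtain ⟨h1, a, ha, h2⟩ := Rel.mem_thr.mp ht
    obtain ⟨x', hx'⟩ := mem_Etop.mp h1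
    have ht' : t = bE x' y₁ := (Prod.swap_injective hx').symm
    subst ht'
    obtain ⟨x, rfl⟩ := mem_Ebot.mp ha
    have hter := bE_top_ter (N := N) (y₀ := y₀) (y₁ := y₁) x'
    refine ⟨?_, hter⟩
    rcases srel_iff.mp h2 with h3 | h3
    · refine srel_iff.mpr (Or.inl (zlow_path hodd hz (Or.inl ⟨hy0, hy0⟩) ?_ h3))
      rintro (h4 | ⟨p, hp0, hp, h4 | h4⟩ | h4)
      · have : y₁ ≤ y := h4.1
        omega
      · have h5 : y₁ = y := congrArg (fun z => z.1.2) h4
        omega
      · have h5 : y₁ = y := congrArg (fun z => z.2.2) h4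
        omega
      · have h5 : y₁ = y := congrArg (fun z => z.1.2) h4
        omega
    · rcases ReflTransGen.cases_head h3 with h4 | ⟨c, h4, -⟩
      · have : y₁ = y₀ := congrArg (fun z => z.1.2) h4
        omega
      · exact absurd h4 (ter_nx hter)
  intro t ht t' ht'
  obtain ⟨h1, h2⟩ := key t ht
  obtain ⟨h3, h4⟩ := key t' ht'
  exact ter_uniq (ω := ω) h2 h4 (EqvGen.trans _ _ _ (EqvGen.symm _ _ h1) h3)

end

end Pool.Agent.SixB
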