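import Pool.Agent.Lib.SixB.CylDefs
import Pool.Agent.Lib.SixB.S0Clo
import Pool.Agent.Lib.MP_6bd702_z.Z037

/-!
# The cylinder: lifting of strands to the plane

* `lc N ω`: the periodic configuration of the plane; `tauN N m`: the translation by `N m`;
* `pE N`: projection of directed unit edges; `UE`: directed unit edges of the plane;
* `nx_down`, `nx_up`, `rtg_down`, `rtg_up`, `tg_up`: projection and lifting of strands;
* `clo_lift`: a closed strand of the cylinder lifts to a path from `a` to `tauN m a`.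
-/

set_option autoImplicit false
set_option linter.unusedSectionVars false

namespace Pool.Agent.SixB

open Pool.Agent.Perc Pool.Agent.Perc.Q Relation

noncomputable section

variable {N : ℕ} [hN : Fact (3 ≤ N)]

/-- the lifted configuration -/
def lc (N : ℕ) (ω : ZMod N × ℤ → Bool) : Cfg := fun f => ω (pN N f)

/-- projection of pairs of vertices -/
def pE (N : ℕ) (a : (ℤ × ℤ) × (ℤ × ℤ)) : (ZMod N × ℤ) × (ZMod N × ℤ) := Prod.map (pN N) (pN N) a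

/-- directed unit edges of the plane -/
def UE (a : (ℤ × ℤ) × (ℤ × ℤ)) : Prop := ∃ f k, a = sd ZQ f k

/-- the deck translation -/
def tau (N : ℕ) (m : ℤ) (v : ℤ × ℤ) : ℤ × ℤ := (v.1 + N * m, v.2)

/-- the deck translation of pairs -/
def tauE (N : ℕ) (m : ℤ) (a : (ℤ × ℤ) × (ℤ × ℤ)) : (ℤ × ℤ) × (ℤ × ℤ) :=
  Prod.map (tau N m) (tau N m) a

theorem pE_swap (a : (ℤ × ℤ) × (ℤ × ℤ)) : pE N a.swap = (pE N a).swap := rfl

theorem tauE_swap (m : ℤ) (a : (ℤ × ℤ) × (ℤ × ℤ)) : tauE N m a.swap = (tauE N m a).swap := rfl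

theorem pN_tau (m : ℤ) (v : ℤ × ℤ) : pN N (tau N m v) = pN N v := by
  unfold pN tau
  simp

theorem tau_tau (m m' : ℤ) (v : ℤ × ℤ) : tau N m (tau N m' v) = tau N (m + m') v := by
  unfold tau
  simp only [Prod.mk.injEq, and_true]
  ring

theorem tau_zero (v : ℤ × ℤ) : tau N 0 v = v := by
  unfold tau
  simp

theorem tauE_tauE (m m' : ℤ) (a : (ℤ × ℤ) × (ℤ × ℤ)) :
    tauE N m (tauE N m' a) = tauE N (m + m') a := by
  unfold tauE
  exact Prod.ext (tau_tau m m' _) (tau_tau m m' _)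

theorem tauE_zero (a : (ℤ × ℤ) × (ℤ × ℤ)) : tauE N 0 a = a :=
  Prod.ext (tau_zero _) (tau_zero _)

theorem cor0_tau (m : ℤ) (f : ℤ × ℤ) (k : ZMod 4) : cor0 (tau N m f) k = tau N m (cor0 f k) := by
  rcases k4_cases k with rfl | rfl | rfl | rfl
  · rfl
  · rw [cor0_1, cor0_1]
    unfold tau
    exact Prod.ext (by simp only; ring) rfl
  · rw [cor0_2, cor0_2]
    unfold tau
    exact Prod.ext (by simp only; ring) rfl
  · rw [cor0_3, cor0_3]
    rfl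

theorem pE_tauE (m : ℤ) (a : (ℤ × ℤ) × (ℤ × ℤ)) : pE N (tauE N m a) = pE N a :=
  Prod.ext (pN_tau m _) (pN_tau m _)

theorem pE_sd (f : ℤ × ℤ) (k : ZMod 4) : pE N (sd ZQ f k) = sd (CQ N) (pN N f) k :=
  Prod.ext (corC_pN f k).symm (corC_pN f (k + 1)).symm

theorem tauE_sd (m : ℤ) (f : ℤ × ℤ) (k : ZMod 4) :
    tauE N m (sd ZQ f k) = sd ZQ (tau N m f) k :=
  Prod.ext (cor0_tau m f k).symm (cor0_tau m f (k + 1)).symm

theorem tauE_UE {m : ℤ} {a : (ℤ × ℤ) × (ℤ × ℤ)} (h : UE a) : UE (tauE N m a) := by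
  obtain ⟨f, k, rfl⟩ := h
  exact ⟨tau N m f, k, tauE_sd m f k⟩

theorem sd_swap_0 (x y : ℤ) : (sd ZQ (x, y) 0).swap = sd ZQ (x, y - 1) 2 := by
  refine Prod.ext ?_ ?_
  · change cor0 (x, y) 1 = cor0 (x, y - 1) 2
    rw [cor0_1, cor0_2]; exact Prod.ext rfl (by simp)
  · change cor0 (x, y) 0 = cor0 (x, y - 1) 3
    rw [cor0_0, cor0_3]; exact Prod.ext rfl (by simp)

theorem sd_swap_1 (x y : ℤ) : (sd ZQ (x, y) 1).swap = sd ZQ (x + 1, y) 3 := by
  refine Prod.ext ?_ ?_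
  · change cor0 (x, y) 2 = cor0 (x + 1, y) 3
    rw [cor0_3, cor0_2]
  · change cor0 (x, y) 1 = cor0 (x + 1, y) 0
    rw [cor0_0, cor0_1]

theorem sd_swap_2 (x y : ℤ) : (sd ZQ (x, y) 2).swap = sd ZQ (x, y + 1) 0 := by
  rw [show sd ZQ (x, y) 2 = sd ZQ (x, y + 1 - 1) 2 by rw [add_sub_cancel_right], ← sd_swap_0,
    Prod.swap_swap]

theorem sd_swap_3 (x y : ℤ) : (sd ZQ (x, y) 3).swap = sd ZQ (x - 1, y) 1 := by
  rw [show sd ZQ (x, y) 3 = sd ZQ (x - 1 + 1, y) 3 by rw [sub_add_cancel], ← sd_swap_1,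
    Prod.swap_swap]

theorem UE.swap {a : (ℤ × ℤ) × (ℤ × ℤ)} (h : UE a) : UE a.swap := by
  obtain ⟨⟨x, y⟩, k, rfl⟩ := h
  rcases k4_cases k with rfl | rfl | rfl | rfl
  · exact ⟨_, _, sd_swap_0 x y⟩
  · exact ⟨_, _, sd_swap_1 x y⟩
  · exact ⟨_, _, sd_swap_2 x y⟩
  · exact ⟨_, _, sd_swap_3 x y⟩

variable {ω : ZMod N × ℤ → Bool} {F' : Set (ZMod N × ℤ)} {F : Set (ℤ × ℤ)}
  {a b c : (ℤ × ℤ) × (ℤ × ℤ)} {b' : (ZMod N × ℤ) × (ZMod N × ℤ)} {m : ℤ}

theorem nx_ue (h : Nx ZQ (lc N ω) F a b) : UE a ∧ UE b := by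
  have h1 : ∀ {a b}, Nx ZQ (lc N ω) F a b → UE a := by
    rintro a b ⟨f, -, k, rfl, -⟩
    exact ⟨f, k, rfl⟩
  refine ⟨h1 h, ?_⟩
  have h2 := (h1 h.rev).swap
  rwa [Prod.swap_swap] at h2

theorem nx_down (hF : ∀ f ∈ F, pN N f ∈ F') (h : Nx ZQ (lc N ω) F a b) :
    Nx (CQ N) ω F' (pE N a) (pE N b) := by
  have h1 := Nx_map (Q := ZQ) (Q' := CQ N) (φ := pN N) (ψ := pN N) (ω' := ω) (F := F)
    (fun f _ k => corC_pN f k) h
  refine SixB.Nx.mono ?_ h1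
  rintro f' ⟨f, hf, rfl⟩
  exact hF f hf

theorem nx_up (ha : UE a) (h : Nx (CQ N) ω F' (pE N a) b') :
    ∃ b, pE N b = b' ∧ Nx ZQ (lc N ω) (pN N ⁻¹' F') a b := by
  obtain ⟨g, k, rfl⟩ := ha
  obtain ⟨f', hf', k', h1, h2⟩ := h
  rw [pE_sd] at h1
  obtain ⟨rfl, rfl⟩ := (CQ N).inj (Prod.mk.inj h1).1 (Prod.mk.inj h1).2
  rcases h2 with ⟨h2, rfl⟩ | ⟨h2, rfl⟩
  · refine ⟨(ZQ.c g (k + 2), ZQ.c g (k + 1)), ?_, g, hf', k, rfl, Or.inl ⟨h2, rfl⟩⟩
    exact Prod.ext (corC_pN g (k + 2)).symm (corC_pN g (k + 1)).symm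
  · refine ⟨(ZQ.c g k, ZQ.c g (k + 3)), ?_, g, hf', k, rfl, Or.inr ⟨h2, rfl⟩⟩
    exact Prod.ext (corC_pN g k).symm (corC_pN g (k + 3)).symm

theorem rtg_down (hF : ∀ f ∈ F, pN N f ∈ F') (h : ReflTransGen (Nx ZQ (lc N ω) F) a b) :
    ReflTransGen (Nx (CQ N) ω F') (pE N a) (pE N b) := by
  induction h with
  | refl => exact ReflTransGen.refl
  | tail _ h ih => exact ih.tail (nx_down hF h)

theorem tg_down (hF : ∀ f ∈ F, pN N f ∈ F') (h : TransGen (Nx ZQ (lc N ω) F) a b) :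
    TransGen (Nx (CQ N) ω F') (pE N a) (pE N b) := by
  induction h with
  | single h => exact TransGen.single (nx_down hF h)
  | tail _ h ih => exact ih.tail (nx_down hF h)

theorem rtg_up (ha : UE a) (h : ReflTransGen (Nx (CQ N) ω F') (pE N a) b') :
    ∃ b, UE b ∧ pE N b = b' ∧ ReflTransGen (Nx ZQ (lc N ω) (pN N ⁻¹' F')) a b := by
  induction h with
  | refl => exact ⟨a, ha, rfl, ReflTransGen.refl⟩
  | tail _ h ih =>
    obtain ⟨b, hb, rfl, h2⟩ := ih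
    obtain ⟨c, hc, h3⟩ := nx_up hb h
    exact ⟨c, (nx_ue h3).2, hc, h2.tail h3⟩

theorem tg_up (ha : UE a) (h : TransGen (Nx (CQ N) ω F') (pE N a) b') :
    ∃ b, UE b ∧ pE N b = b' ∧ TransGen (Nx ZQ (lc N ω) (pN N ⁻¹' F')) a b := by
  induction h with
  | single h =>
    obtain ⟨c, hc, h3⟩ := nx_up ha h
    exact ⟨c, (nx_ue h3).2, hc, TransGen.single h3⟩
  | tail _ h ih =>
    obtain ⟨b, hb, rfl, h2⟩ := ih
    obtain ⟨c, hc, h3⟩ := nx_up hb h
    exact ⟨c, (nx_ue h3).2, hc, h2.tail h3⟩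

theorem nx_tau (h : Nx ZQ (lc N ω) (pN N ⁻¹' F') a b) :
    Nx ZQ (lc N ω) (pN N ⁻¹' F') (tauE N m a) (tauE N m b) := by
  obtain ⟨f, hf, k, rfl, h2⟩ := h
  refine ⟨tau N m f, ?_, k, ?_, ?_⟩
  · change pN N (tau N m f) ∈ F'
    rw [pN_tau]
    exact hf
  · exact tauE_sd m f k
  · have h3 : lc N ω (tau N m f) = lc N ω f := by
      unfold lc
      rw [pN_tau]
    rw [h3]
    rcases h2 with ⟨h2, rfl⟩ | ⟨h2, rfl⟩
    · exact Or.inl ⟨h2, Prod.ext (cor0_tau m f (k + 2)).symm (cor0_tau m f (k + 1)).symm⟩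
    · exact Or.inr ⟨h2, Prod.ext (cor0_tau m f k).symm (cor0_tau m f (k + 3)).symm⟩

theorem rtg_tau (h : ReflTransGen (Nx ZQ (lc N ω) (pN N ⁻¹' F')) a b) :
    ReflTransGen (Nx ZQ (lc N ω) (pN N ⁻¹' F')) (tauE N m a) (tauE N m b) := by
  induction h with
  | refl => exact ReflTransGen.refl
  | tail _ h ih => exact ih.tail (nx_tau h)

theorem tg_tau (h : TransGen (Nx ZQ (lc N ω) (pN N ⁻¹' F')) a b) :
    TransGen (Nx ZQ (lc N ω) (pN N ⁻¹' F')) (tauE N m a) (tauE N m b) := by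
  induction h with
  | single h => exact TransGen.single (nx_tau h)
  | tail _ h ih => exact ih.tail (nx_tau h)

/-- two directed unit edges with the same projection differ by a deck translation -/
theorem exists_tau (ha : UE a) (hb : UE b) (h : pE N a = pE N b) : ∃ m, b = tauE N m a := by
  obtain ⟨f, k, rfl⟩ := ha
  obtain ⟨g, l, rfl⟩ := hb
  rw [pE_sd, pE_sd] at h
  obtain ⟨h1, rfl⟩ := (CQ N).inj (Prod.mk.inj h).1 (Prod.mk.inj h).2
  have h2 : ((f.1 : ℤ) : ZMod N) = ((g.1 : ℤ) : ZMod N) := (Prod.mk.inj h1).1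
  have h3 : f.2 = g.2 := (Prod.mk.inj h1).2
  rw [ZMod.intCast_eq_intCast_iff_dvd_sub] at h2
  obtain ⟨m, hm⟩ := h2
  refine ⟨m, ?_⟩
  rw [tauE_sd]
  congr 1
  unfold tau
  exact Prod.ext (by simp only; linarith) h3.symm

/-- a closed strand of the cylinder lifts to a path from `a` to a translate of `a` -/
theorem clo_lift {F' : Finset (ZMod N × ℤ)} (ha : UE a) (h : Clo (CQ N) F' ω (pE N a)) :
    ∃ m, TransGen (Nx ZQ (lc N ω) (pN N ⁻¹' (F' : Set (ZMod N × ℤ)))) a (tauE N m a) := by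
  obtain ⟨b, hb, h1, h2⟩ := tg_up ha h
  obtain ⟨m, rfl⟩ := exists_tau ha hb h1.symm
  exact ⟨m, h2⟩

theorem tg_iter (h : TransGen (Nx ZQ (lc N ω) (pN N ⁻¹' F')) a (tauE N m a)) (j : ℕ) :
    TransGen (Nx ZQ (lc N ω) (pN N ⁻¹' F')) a (tauE N (m * (j + 1)) a) := by
  induction j with
  | zero => simpa using h
  | succ j ih =>
    have h1 := tg_tau (m := m * (j + 1)) h
    rw [tauE_tauE] at h1
    have h2 : m * (j + 1) + m = m * ((j + 1 : ℕ) + 1) := by push_cast; ring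
    rw [h2] at h1
    exact ih.trans h1

theorem noLoop_CQ : NoLoop (CQ N) := by
  intro f k h
  have h1 := one_ne_zero_zmod hN.out
  have e1 : (0 : ZMod 4) + 1 = 1 := rfl
  have e2 : (1 : ZMod 4) + 1 = 2 := rfl
  have e3 : (2 : ZMod 4) + 1 = 3 := rfl
  have e4 : (3 : ZMod 4) + 1 = 0 := rfl
  change corC N f k = corC N f (k + 1) at h
  rcases k4_cases k with rfl | rfl | rfl | rfl
  · rw [e1, corC_0, corC_1] at h
    have := (Prod.mk.inj h).1
    exact h1 (by simpa using this.symm)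
  · rw [e2, corC_1, corC_2] at h
    have := (Prod.mk.inj h).2
    omega
  · rw [e3, corC_2, corC_3] at h
    have := (Prod.mk.inj h).1
    exact h1 (by simpa using this)
  · rw [e4, corC_3, corC_0] at h
    have := (Prod.mk.inj h).2
    simp at this

end

end Pool.Agent.SixB
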