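import Pool.Agent.Lib.SixB.CylWind
import Pool.Agent.Lib.SixB.S0Link

/-!
# The cylinder: turnings of the strands, part A: lifting of walks

* `st_up`, `st_down`, `walk_up`, `walk_down`: steps with their turn.
* `turn_down_open`, `turn_down_closed`: the turning of a strand of the cylinder is the turning of its
  lift in a finite set of faces of the plane.
-/

set_option autoImplicit false
set_option linter.unusedSectionVars false

namespace Pool.Agent.SixB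

open Pool.Agent.Perc Pool.Agent.Perc.Q Relation

noncomputable section

variable {N : ℕ} [hN : Fact (3 ≤ N)]

variable {ω : ZMod N × ℤ → Bool} {F' : Set (ZMod N × ℤ)} {F : Set (ℤ × ℤ)}
  {a b c : (ℤ × ℤ) × (ℤ × ℤ)} {b' : (ZMod N × ℤ) × (ZMod N × ℤ)} {m t s : ℤ} {n : ℕ}

theorem st_down (hF : ∀ f ∈ F, pN N f ∈ F') (h : St ZQ (lc N ω) F a b t) :
    St (CQ N) ω F' (pE N a) (pE N b) t := by
  obtain ⟨f, hf, k, rfl, rfl, rfl⟩ := h
  refine ⟨pN N f, hF f hf, k, pE_sd f k, ?_, rfl⟩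
  rw [pE_swap, pE_sd]
  rfl

theorem st_up (ha : UE a) (h : St (CQ N) ω F' (pE N a) b' t) :
    ∃ b, pE N b = b' ∧ St ZQ (lc N ω) (pN N ⁻¹' F') a b t := by
  obtain ⟨g, k, rfl⟩ := ha
  obtain ⟨f', hf', k', h1, rfl, rfl⟩ := h
  rw [pE_sd] at h1
  obtain ⟨rfl, rfl⟩ := sd_inj h1
  refine ⟨(sd ZQ g (mt (ω (pN N g)) k)).swap, ?_, g, hf', k, rfl, rfl, rfl⟩
  rw [pE_swap, pE_sd]

theorem st_ue (h : St ZQ (lc N ω) F a b t) : UE b := by
  obtain ⟨f, -, k, -, rfl, -⟩ := h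
  exact UE.swap ⟨f, _, rfl⟩

theorem walk_down (hF : ∀ f ∈ F, pN N f ∈ F') {G : Set ((ℤ × ℤ) × (ℤ × ℤ))}
    (h : Walk ZQ (lc N ω) F G n a b t) :
    Walk (CQ N) ω F' Set.univ n (pE N a) (pE N b) t := by
  induction h with
  | one h => exact Walk.one (st_down hF h)
  | tail _ _ h' ih => exact Walk.tail ih (Set.mem_univ _) (st_down hF h')

theorem walk_up (ha : UE a) {G : Set ((ZMod N × ℤ) × (ZMod N × ℤ))} {a' : (ZMod N × ℤ) × (ZMod N × ℤ)}
    (haa : pE N a = a') (h : Walk (CQ N) ω F' G n a' b' t) :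
    ∃ b, UE b ∧ pE N b = b' ∧ Walk ZQ (lc N ω) (pN N ⁻¹' F') Set.univ n a b t := by
  induction h with
  | one h =>
    subst haa
    obtain ⟨b, hb, h1⟩ := st_up ha h
    exact ⟨b, st_ue h1, hb, Walk.one h1⟩
  | tail _ _ h' ih =>
    obtain ⟨b, hb, hb', h1⟩ := ih haa
    rw [← hb'] at h'
    obtain ⟨c, hc, h2⟩ := st_up hb h'
    exact ⟨c, st_ue h2, hc, Walk.tail h1 (Set.mem_univ _) h2⟩

theorem walk_tg {V Φ : Type} {Q : QC V Φ} {ω : Φ → Bool} {F : Set Φ} {G : Set (V × V)} {n : ℕ}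
    {a b : V × V} {t : ℤ} (h : Walk Q ω F G n a b t) : TransGen (Nx Q ω F) a b := by
  induction h with
  | one h => exact TransGen.single (nx_iff.mpr ⟨_, h⟩)
  | tail _ _ h' ih => exact ih.tail (nx_iff.mpr ⟨_, h'⟩)

theorem tg_walk {V Φ : Type} {Q : QC V Φ} {ω : Φ → Bool} {F : Set Φ}
    {a b : V × V} (h : TransGen (Nx Q ω F) a b) : ∃ n t, Walk Q ω F Set.univ n a b t := by
  induction h with
  | single h =>
    obtain ⟨t, ht⟩ := nx_iff.mp h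
    exact ⟨1, t, Walk.one ht⟩
  | tail _ h' ih =>
    obtain ⟨n, t, hw⟩ := ih
    obtain ⟨s, hs⟩ := nx_iff.mp h'
    exact ⟨n + 1, t + s, Walk.tail hw (Set.mem_univ _) hs⟩

/-- A walk in an increasing union of face sets. -/
theorem walk_box {w : Cfg} {y₀ y₁ : ℤ} {G : Set ((ℤ × ℤ) × (ℤ × ℤ))}
    (h : Walk ZQ w (strip y₀ y₁) G n a b t) :
    ∃ L : ℤ, ∀ L' ≥ L, Walk ZQ w (RF (-L') L' y₀ y₁ : Finset (ℤ × ℤ)) G n a b t := by
  have key : ∀ {a b : (ℤ × ℤ) × (ℤ × ℤ)} {t : ℤ}, St ZQ w (strip y₀ y₁) a b t →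
      ∃ L : ℤ, ∀ L' ≥ L, St ZQ w (RF (-L') L' y₀ y₁ : Finset (ℤ × ℤ)) a b t := by
    rintro a b t ⟨f, hf, k, h1, h2, h3⟩
    refine ⟨|f.1| + 1, fun L' hL' => ⟨f, ?_, k, h1, h2, h3⟩⟩
    have h4 := abs_le.mp (le_refl |f.1|)
    rw [Finset.mem_coe, mem_RFi]
    exact ⟨by omega, by omega, hf.1, hf.2⟩
  induction h with
  | one h =>
    obtain ⟨L, hL⟩ := key h
    exact ⟨L, fun L' hL' => Walk.one (hL L' hL')⟩
  | tail _ hb h' ih =>
    obtain ⟨L1, hL1⟩ := ih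
    obtain ⟨L2, hL2⟩ := key h'
    exact ⟨max L1 L2, fun L' hL' => Walk.tail (hL1 L' ((le_max_left _ _).trans hL')) hb
      (hL2 L' ((le_max_right _ _).trans hL'))⟩

theorem clo_walk {V Φ : Type} [DecidableEq V] [DecidableEq Φ] {Q : QC V Φ} {F : Finset Φ}
    {ω : Φ → Bool} {a : V × V} (h : Clo Q F ω a) :
    ∃ n, Walk Q ω (F : Set Φ) Set.univ n a a (trn Q F ω a) ∧
      ∀ m s, 0 < m → m < n → ¬ Walk Q ω (F : Set Φ) Set.univ m a a s := by
  have h1 : ∀ c ∈ dst Q F ω a, ¬ Ini Q (F : Set Φ) c := by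
    intro c hc hini
    have h2 := h.of_srel (mem_dst.mp hc).2
    obtain ⟨d, -, h3⟩ := TransGen.tail'_iff.mp h2
    exact ini_nx hini h3
  exact closed_walk (G := Set.univ) (dst_mem_dstr h.mem) h1 (self_mem_dst h.mem)
    (fun _ _ => Set.mem_univ _)

theorem RF_sub_strip {x₀ x₁ y₀ y₁ : ℤ} {f : ℤ × ℤ} (hf : f ∈ (RF x₀ x₁ y₀ y₁ : Finset (ℤ × ℤ))) :
    pN N f ∈ (cylF N y₀ y₁ : Set (ZMod N × ℤ)) := by
  have h := mem_RFi.mp hf
  rw [Finset.mem_coe, mem_cylF]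
  exact ⟨h.2.2.1, h.2.2.2⟩

/-- The turning of a closed strand of a cylinder of odd circumference is the turning of a closed
strand of a rectangle of the plane. -/
theorem turn_closed (hodd : Odd N) {y₀ y₁ : ℤ} (hy : y₀ < y₁) (ha : UE a)
    (h : Clo (CQ N) (cylF N y₀ y₁) ω (pE N a)) :
    ∃ L : ℤ, ∀ L' ≥ L, Clo ZQ (RF (-L') L' y₀ y₁) (lc N ω) a ∧
      trn (CQ N) (cylF N y₀ y₁) ω (pE N a) = trn ZQ (RF (-L') L' y₀ y₁) (lc N ω) a := by
  obtain ⟨m, hm⟩ := clo_lift ha h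
  rw [preimage_cylF] at hm
  have hm0 := no_wind hodd hy hm
  subst hm0
  rw [tauE_zero] at hm
  obtain ⟨n0, t0, hw0⟩ := tg_walk hm
  obtain ⟨L, hL⟩ := walk_box hw0
  refine ⟨L, fun L' hL' => ?_⟩
  have hclo : Clo ZQ (RF (-L') L' y₀ y₁) (lc N ω) a := walk_tg (hL L' hL')
  refine ⟨hclo, ?_⟩
  obtain ⟨n, hw, hmin⟩ := clo_walk hclo
  have hd := walk_down (N := N) (F' := (cylF N y₀ y₁ : Set (ZMod N × ℤ)))
    (fun f hf => RF_sub_strip (N := N) hf) hw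
  refine tX_of_closed_walk hd ?_
  intro m s hm hmn hw'
  obtain ⟨b, hb, hb', hw2⟩ := walk_up ha rfl hw'
  obtain ⟨m', rfl⟩ := exists_tau ha hb hb'.symm
  rw [preimage_cylF] at hw2
  have hm'0 := no_wind hodd hy (walk_tg hw2)
  subst hm'0
  rw [tauE_zero] at hw2
  -- a shorter closed walk in the strip is a shorter closed walk in the rectangle
  obtain ⟨L2, hL2⟩ := walk_box hw2
  have h5 := hL2 (max L' L2) (le_max_right _ _)
  have h6 : Walk ZQ (lc N ω) (RF (-(max L' L2)) (max L' L2) y₀ y₁ : Finset (ℤ × ℤ)) Set.univ n a a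
      (trn ZQ (RF (-L') L' y₀ y₁) (lc N ω) a) := by
    refine hw.mono ?_ (Set.Subset.refl _)
    intro f hf
    rw [Finset.mem_coe, mem_RFi] at hf ⊢
    have := le_max_left L' L2
    omega
  -- the first m steps stay in the small rectangle
  obtain ⟨d, u, h7, -, h8⟩ := hw.prefix_ hm hmn
  have h9 : Walk ZQ (lc N ω) (RF (-(max L' L2)) (max L' L2) y₀ y₁ : Finset (ℤ × ℤ)) Set.univ m a d
      u := by
    refine h7.mono ?_ (Set.Subset.refl _)
    intro f hf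
    rw [Finset.mem_coe, mem_RFi] at hf ⊢
    have := le_max_left L' L2
    omega
  obtain ⟨rfl, -⟩ := h5.unique h9
  exact hmin m u hm hmn h7

/-- The turning of an open strand of a cylinder is the turning of its lift. -/
theorem turn_open {y₀ y₁ : ℤ} (ha : UE a)
    (hini : Ini (CQ N) (cylF N y₀ y₁ : Set (ZMod N × ℤ)) (pE N a))
    (hne : ¬ Ter (CQ N) (cylF N y₀ y₁ : Set (ZMod N × ℤ)) (pE N a))
    (hiniZ : ∀ L', Ini ZQ (RF (-L') L' y₀ y₁ : Finset (ℤ × ℤ)) a) :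
    ∃ b, UE b ∧ mate (CQ N) (cylF N y₀ y₁) ω (pE N a) = (pE N b).swap ∧
      Ter (CQ N) (cylF N y₀ y₁ : Set (ZMod N × ℤ)) (pE N b) ∧
      ∃ L : ℤ, ∀ L' ≥ L, a ∈ bS ZQ (RF (-L') L' y₀ y₁) ∧
        (Ter ZQ (RF (-L') L' y₀ y₁ : Finset (ℤ × ℤ)) b →
          mate ZQ (RF (-L') L' y₀ y₁) (lc N ω) a = b.swap ∧
          turn (CQ N) (cylF N y₀ y₁) ω (pE N a) = turn ZQ (RF (-L') L' y₀ y₁) (lc N ω) a) := by
  obtain ⟨h1, h2⟩ := lst_spec (ω := ω) hini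
  have h1' : ReflTransGen (Nx (CQ N) ω (cylF N y₀ y₁ : Set (ZMod N × ℤ))) (pE N a)
    (lst (CQ N) (cylF N y₀ y₁) ω (pE N a)) := h1
  have htg : TransGen (Nx (CQ N) ω (cylF N y₀ y₁ : Set (ZMod N × ℤ))) (pE N a)
      (lst (CQ N) (cylF N y₀ y₁) ω (pE N a)) := by
    rcases reflTransGen_iff_eq_or_transGen.mp h1' with h | h
    · rw [h] at h2
      exact absurd h2 hne
    · exact h
  obtain ⟨b, hb, hb', hw⟩ := tg_up ha htg
  rw [preimage_cylF] at hw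
  obtain ⟨n0, t0, hw0⟩ := tg_walk hw
  obtain ⟨L, hL⟩ := walk_box hw0
  refine ⟨b, hb, ?_, by rw [hb']; exact h2, L, fun L' hL' => ?_⟩
  · unfold mate
    rw [hb']
  · have hwL := hL L' hL'
    have hmem : a ∈ bS ZQ (RF (-L') L' y₀ y₁) := by
      refine mem_bS.mpr ⟨?_, hiniZ L'⟩
      obtain ⟨f, hf, k, hk⟩ := hwL.first
      rw [hk]
      exact sd_mem (by exact_mod_cast hf) k
    refine ⟨hmem, fun hter => ?_⟩
    obtain ⟨h3, h4⟩ := hwL.mate_turn (hiniZ L') hter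
    refine ⟨h3, ?_⟩
    have hd := walk_down (N := N) (F' := (cylF N y₀ y₁ : Set (ZMod N × ℤ)))
      (fun f hf => RF_sub_strip (N := N) hf) hwL
    obtain ⟨-, h6⟩ := hd.mate_turn hini (by rw [hb']; exact h2)
    rw [h6, h4]

end

end Pool.Agent.SixB
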