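import Pool.Agent.Lib.SixB.PlaneP

/-!
# 6BD step 2: the two arrow functional of the plane, part 2: limit, symmetries, decay

* `Kp_tendsto`, `abs_Kp_sub`: `|Kp e e' - Kb F e e'| ≤ 3 (ncP F e + ncP F e')` for EVERY finite `F`;
* `Kp_inv`: invariance; `Kp_tE` (translations), `Kp_dE'` (transposition);
* `edgeCorr : EdgeCorr KE CE`;
* `CE_decay`: `CE x y → 0`, `hdecx`, `hdecy` of Theorem S2.
-/

set_option autoImplicit false
set_option linter.unusedSectionVars false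

namespace Pool.Agent.SixB

open Pool.Agent.Perc Pool.Agent.PercD Pool.Agent.Perc.Q Relation Filter Topology

noncomputable section

variable {F F' : Finset (ℤ × ℤ)} {ω : ℤ × ℤ → Bool} {e e' a b : DE} {f u v : ℤ × ℤ}

/-! ## The limit -/

theorem BR_sub {v w : ℤ × ℤ} {r R : ℤ} (h1 : |v.1 - w.1| + r ≤ R) (h2 : |v.2 - w.2| + r ≤ R) :
    BR v r ⊆ BR w R := by
  intro f hf
  unfold BR RF at hf ⊢
  rw [Finset.mem_product, Finset.mem_Ico, Finset.mem_Ico] at hf ⊢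
  have a1 := abs_le.mp (le_refl |v.1 - w.1|)
  have a2 := abs_le.mp (le_refl |v.2 - w.2|)
  omega

theorem nc_tendsto (he : Ue e) : Tendsto (fun r : ℕ => ncP (BR (0, 0) r) e) atTop (𝓝 0) := by
  obtain ⟨C, hC, h⟩ := nc_le
  have h0 : Tendsto (fun r : ℕ => C * (r : ℝ) ^ (-(1 / 4 : ℝ))) atTop (𝓝 0) := by
    have h1 := (tendsto_rpow_neg_atTop (y := 1 / 4) (by norm_num)).comp tendsto_natCast_atTop_atTop
    simpa using h1.const_mul C
  rw [Metric.tendsto_atTop] at h0 ⊢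
  intro ε hε
  obtain ⟨N, hN⟩ := h0 ε hε
  set r : ℕ := N + 1 with hr
  obtain ⟨M, hM1, hM2⟩ : ∃ M : ℕ, |(ua (ue e)).1 - 0| ≤ M ∧ |(ua (ue e)).2 - 0| ≤ M :=
    ⟨(ua (ue e)).1.natAbs + (ua (ue e)).2.natAbs,
      by rw [sub_zero, Int.abs_eq_natAbs]; omega, by rw [sub_zero, Int.abs_eq_natAbs]; omega⟩
  refine ⟨r + M, fun R hR => ?_⟩
  have hR' : ((r : ℤ) + M) ≤ R := by exact_mod_cast hR
  have h2 : ncP (BR (0, 0) R) e ≤ ncP (BR (ua (ue e)) r) e :=
    nc_mono (BR_sub (by simp only; linarith) (by simp only; linarith)) e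
  have h3 := h e he r (by omega)
  have h4 := hN r (by omega)
  rw [Real.dist_eq, sub_zero] at h4 ⊢
  rw [abs_of_nonneg (nc_nonneg _ _)]
  exact lt_of_le_of_lt (h2.trans h3) (lt_of_le_of_lt (le_abs_self _) h4)

theorem box_mono {r R : ℕ} (h : r ≤ R) : BR (0, 0) r ⊆ BR (0, 0) R :=
  BR_sub (by simp; exact h) (by simp; exact h)

theorem Kp_tendsto (he : Ue e) (he' : Ue e') :
    Tendsto (fun r : ℕ => Kb (BR (0, 0) r) e e') atTop (𝓝 (Kp e e')) := by
  have hc : CauchySeq (fun r : ℕ => Kb (BR (0, 0) r) e e') := by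
    refine cauchySeq_of_le_tendsto_0
      (fun N : ℕ => 6 * (ncP (BR (0, 0) N) e + ncP (BR (0, 0) N) e')) ?_ ?_
    · intro n m N hn hm
      have h1 := abs_Kb_sub (box_mono hn) e e'
      have h2 := abs_Kb_sub (box_mono hm) e e'
      rw [Real.dist_eq]
      have := abs_sub_le (Kb (BR (0, 0) n) e e') (Kb (BR (0, 0) N) e e') (Kb (BR (0, 0) m) e e')
      rw [abs_sub_comm (Kb (BR (0, 0) N) e e')] at this
      linarith
    · have := ((nc_tendsto he).add (nc_tendsto he')).const_mul 6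
      simpa using this
  exact hc.tendsto_limUnder

theorem exists_box (F : Finset (ℤ × ℤ)) : ∃ r : ℕ, ∀ R : ℕ, r ≤ R → F ⊆ BR (0, 0) R := by
  classical
  refine ⟨∑ f ∈ F, (f.1.natAbs + f.2.natAbs) + 1, fun R hR f hf => ?_⟩
  have := Finset.single_le_sum (f := fun f : ℤ × ℤ => f.1.natAbs + f.2.natAbs)
    (fun _ _ => Nat.zero_le _) hf
  unfold BR RF
  rw [Finset.mem_product, Finset.mem_Ico, Finset.mem_Ico]
  simp only at this ⊢
  omega

/-- **Comparison with a window.** -/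
theorem abs_Kp_sub (he : Ue e) (he' : Ue e') (F : Finset (ℤ × ℤ)) :
    |Kp e e' - Kb F e e'| ≤ 3 * (ncP F e + ncP F e') := by
  obtain ⟨r, hr⟩ := exists_box F
  refine le_of_tendsto (((Kp_tendsto he he').sub_const (Kb F e e')).abs) ?_
  filter_upwards [eventually_ge_atTop r] with R hR
  exact abs_Kb_sub (hr R hR) e e'

theorem Kp_of_windows {G : ℕ → Finset (ℤ × ℤ)} (he : Ue e) (he' : Ue e')
    (h1 : Tendsto (fun n => ncP (G n) e) atTop (𝓝 0))
    (h2 : Tendsto (fun n => ncP (G n) e') atTop (𝓝 0)) :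
    Tendsto (fun n => Kb (G n) e e') atTop (𝓝 (Kp e e')) := by
  rw [tendsto_iff_dist_tendsto_zero]
  have h3 := (h1.add h2).const_mul 3
  rw [add_zero, mul_zero] at h3
  refine squeeze_zero (fun n => dist_nonneg) (fun n => ?_) h3
  rw [Real.dist_eq, abs_sub_comm]
  exact abs_Kp_sub he he' _

theorem Kp_symm (he : Ue e) (he' : Ue e') : Kp e e' = Kp e' e :=
  tendsto_nhds_unique ((Kp_tendsto he he').congr fun _ => Kb_symm _ _ _) (Kp_tendsto he' he)

theorem Kp_swap (he : Ue e) (he' : Ue e') : Kp e.swap e' = -Kp e e' :=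
  tendsto_nhds_unique (Kp_tendsto he.swap he')
    ((Kp_tendsto he he').neg.congr fun _ => (Kb_swap _ _ _).symm)

theorem Kp_swap' (he : Ue e) (he' : Ue e') : Kp e e'.swap = -Kp e e' := by
  rw [Kp_symm he he'.swap, Kp_swap he' he, Kp_symm he' he]

theorem Kp_ice (f : ℤ × ℤ) (he : Ue e) :
    Kp (sd ZQ f 0) e + Kp (sd ZQ f 1) e + Kp (sd ZQ f 2) e + Kp (sd ZQ f 3) e = 0 := by
  have h := fun k : ZMod 4 => Kp_tendsto (e := sd ZQ f k) ⟨f, k, rfl⟩ he
  refine tendsto_nhds_unique ((((h 0).add (h 1)).add (h 2)).add (h 3)) ?_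
  obtain ⟨r, hr⟩ := exists_box {f}
  refine tendsto_const_nhds.congr' ?_
  filter_upwards [eventually_ge_atTop r] with R hR
  exact (Kb_ice (hr R hR (Finset.mem_singleton_self f)) e).symm

theorem abs_Kb_le (F : Finset (ℤ × ℤ)) (e e' : DE) : |Kb F e e'| ≤ 3 := by
  unfold Kb
  have := abs_av_le (S := F) (g := fun ω => gc ZQ F ω e e') (g' := fun _ => 3)
    fun T _ => abs_gc_le (uml_ZQ F)
  rwa [av_const] at this

theorem abs_Kp_le (he : Ue e) (he' : Ue e') : |Kp e e'| ≤ 3 :=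
  le_of_tendsto (Kp_tendsto he he').abs (Eventually.of_forall fun _ => abs_Kb_le _ _ _)

/-! ## Invariance -/

section inv

variable {Θ : DE → DE} {ψ : ℤ × ℤ → ℤ × ℤ} {κ : ZMod 4 → ZMod 4} {s : ℤ}

theorem Ue_map (H : ∀ F ω, SMap ZQ ZQ F (fun f => ω (ψ f)) ω Θ ψ κ s) (he : Ue e) : Ue (Θ e) := by
  obtain ⟨f, k, rfl⟩ := he
  exact ⟨ψ f, κ k, (H {f} fun _ => true).side f (Finset.mem_singleton_self f) k⟩

theorem Kb_map (H : ∀ F ω, SMap ZQ ZQ F (fun f => ω (ψ f)) ω Θ ψ κ s) (hs : s = 1 ∨ s = -1)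
    (hψ : Function.Injective ψ) (F : Finset (ℤ × ℤ)) (e e' : DE) :
    Kb (F.image ψ) (Θ e) (Θ e') = Kb F e e' :=
  av_map (fun _ _ _ _ h => hψ h) rfl dep_gc fun ω => (H F ω).gc_map hs

theorem nc_map (H : ∀ F ω, SMap ZQ ZQ F (fun f => ω (ψ f)) ω Θ ψ κ s)
    (hψ : Function.Injective ψ) (F : Finset (ℤ × ℤ)) (e : DE) :
    ncP (F.image ψ) (Θ e) = ncP F e := by
  classical
  unfold ncP
  refine av_map (fun _ _ _ _ h => hψ h) rfl
    (dep_clo F e _ _ (fun _ _ _ => rfl) (fun _ _ _ => rfl)) fun ω => ?_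
  by_cases h : Clo ZQ F (fun f => ω (ψ f)) e
  · rw [if_pos h, if_pos ((H F ω).clo_map.mpr h)]
  · rw [if_neg h, if_neg fun hh => h ((H F ω).clo_map.mp hh)]

theorem Kp_inv (H : ∀ F ω, SMap ZQ ZQ F (fun f => ω (ψ f)) ω Θ ψ κ s) (hs : s = 1 ∨ s = -1)
    (hψ : Function.Injective ψ) (he : Ue e) (he' : Ue e') : Kp (Θ e) (Θ e') = Kp e e' := by
  have h1 := Kp_of_windows (G := fun n : ℕ => (BR (0, 0) n).image ψ) (Ue_map H he) (Ue_map H he')
    ((nc_tendsto he).congr fun n => (nc_map H hψ _ _).symm)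
    ((nc_tendsto he').congr fun n => (nc_map H hψ _ _).symm)
  exact tendsto_nhds_unique h1 ((Kp_tendsto he he').congr fun n => (Kb_map H hs hψ _ _ _).symm)

end inv

theorem Kp_tE (u : ℤ × ℤ) (he : Ue e) (he' : Ue e') : Kp (tE u e) (tE u e') = Kp e e' :=
  Kp_inv (smT u) (Or.inl rfl) (add_left_injective u) he he'

theorem dR_inj : Function.Injective dR := fun p q h => by rw [← dR_dR p, h, dR_dR]

theorem Kp_dE' (he : Ue e) (he' : Ue e') : Kp (dE' e) (dE' e') = Kp e e' :=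
  Kp_inv smR (Or.inr rfl) dR_inj he he'

/-! ## Edges -/

/-- the directed pair of an edge -/
def de (e : Edge) : DE := (e.1, if e.2 then e.1 + (0, 1) else e.1 + (1, 0))

theorem de_false (v : ℤ × ℤ) : de (v, false) = sd ZQ v 0 := by
  obtain ⟨x, y⟩ := v
  unfold de
  refine Prod.ext rfl ?_
  change (x, y) + (1, 0) = cor0 (x, y) (0 + 1)
  rw [show (0 : ZMod 4) + 1 = 1 by rfl, cor0_1]
  simp

theorem de_right (v : ℤ × ℤ) : de (v + (1, 0), true) = sd ZQ v 1 := by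
  obtain ⟨x, y⟩ := v
  unfold de
  refine Prod.ext ?_ ?_
  · change (x, y) + (1, 0) = cor0 (x, y) 1
    rw [cor0_1]; simp
  · change (x, y) + (1, 0) + (0, 1) = cor0 (x, y) (1 + 1)
    rw [show (1 : ZMod 4) + 1 = 2 by rfl, cor0_2]
    simp

theorem de_top (v : ℤ × ℤ) : (de (v + (0, 1), false)).swap = sd ZQ v 2 := by
  obtain ⟨x, y⟩ := v
  unfold de
  refine Prod.ext ?_ ?_
  · change (x, y) + (0, 1) + (1, 0) = cor0 (x, y) 2
    rw [cor0_2]; simp
  · change (x, y) + (0, 1) = cor0 (x, y) (2 + 1)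
    rw [show (2 : ZMod 4) + 1 = 3 by rfl, cor0_3]
    simp

theorem de_left (v : ℤ × ℤ) : (de (v, true)).swap = sd ZQ v 3 := by
  obtain ⟨x, y⟩ := v
  unfold de
  refine Prod.ext ?_ ?_
  · change (x, y) + (0, 1) = cor0 (x, y) 3
    rw [cor0_3]; simp
  · change (x, y) = cor0 (x, y) (3 + 1)
    rw [show (3 : ZMod 4) + 1 = 0 by rfl, cor0_0]

theorem Ue_de (e : Edge) : Ue (de e) := by
  obtain ⟨v, _ | _⟩ := e
  · exact ⟨v, 0, de_false v⟩
  · have := Ue.swap (e := (de (v, true)).swap) ⟨v, 3, de_left v⟩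
    rwa [Prod.swap_swap] at this

/-- correlations of the edges -/
def KE (e e' : Edge) : ℝ := Kp (de e) (de e')

/-- correlations of parallel horizontal edges -/
def CE (x y : ℤ) : ℝ := KE ((0, 0), false) ((x, y), false)

theorem edgeCorr : EdgeCorr KE CE where
  symm := fun e e' => Kp_symm (Ue_de e) (Ue_de e')
  trans := fun u e e' => by
    unfold KE
    have h : ∀ e : Edge, de (e.1 + u, e.2) = tE u (de e) := by
      rintro ⟨v, _ | _⟩
      · exact Prod.ext rfl (by change v + u + (1, 0) = v + (1, 0) + u; abel)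
      · exact Prod.ext rfl (by change v + u + (0, 1) = v + (0, 1) + u; abel)
    rw [h, h, Kp_tE u (Ue_de e) (Ue_de e')]
  closed := fun e v => by
    unfold KE
    have h := Kp_ice v (Ue_de e)
    rw [← de_false, ← de_right, ← de_top, ← de_left, Kp_swap (Ue_de _) (Ue_de _),
      Kp_swap (Ue_de _) (Ue_de _), Kp_symm (Ue_de _) (Ue_de e),
      Kp_symm (Ue_de (v + (1, 0), true)) (Ue_de e), Kp_symm (Ue_de (v + (0, 1), false)) (Ue_de e),
      Kp_symm (Ue_de (v, true)) (Ue_de e)] at h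
    linarith
  hh := fun x y => rfl
  vv := fun x y => by
    unfold CE KE
    have h1 : dE' (de ((0, 0), true)) = (de ((0, 0), false)).swap := rfl
    have h2 : dE' (de ((x, y), true)) = (de ((y, x), false)).swap := by
      unfold dE' dR de
      simp
    rw [← Kp_dE' (Ue_de _) (Ue_de _), h1, h2, Kp_swap (Ue_de _) (Ue_de _).swap,
      Kp_swap' (Ue_de _) (Ue_de _), neg_neg]

/-! ## Decay -/

open Classical in
/-- mean arrow of `e` in a window, closed strands only -/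
def Mn (F : Finset (ℤ × ℤ)) (e : DE) : ℝ :=
  av F (fun ω => if Clo ZQ F ω e then tnt (trn ZQ F ω e) else 0)

theorem Mn_swap (F : Finset (ℤ × ℤ)) (e : DE) : Mn F e.swap = -Mn F e := by
  classical
  unfold Mn
  rw [← av_neg]
  refine av_congr fun T _ => ?_
  by_cases h : Clo ZQ F (ind T) e
  · rw [if_pos h, if_pos (clo_swap.mpr h), trn_swap, tnt_neg]
  · rw [if_neg h, if_neg fun hh => h (clo_swap.mp hh), neg_zero]

/-- faces around the edge `(0,0) - (1,0)` -/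
def Wn (m : ℕ) : Finset (ℤ × ℤ) :=
  Finset.Ico (-(m : ℤ)) (m + 1) ×ˢ Finset.Ico (-(m : ℤ) - 1) (m + 1)

theorem mem_Wn {m : ℕ} : f ∈ Wn m ↔ -(m : ℤ) ≤ f.1 ∧ f.1 ≤ m ∧ -(m : ℤ) - 1 ≤ f.2 ∧ f.2 ≤ m := by
  unfold Wn
  rw [Finset.mem_product, Finset.mem_Ico, Finset.mem_Ico]
  omega

theorem Wn_half (m : ℕ) : (Wn m).image (fun f => (1, 0) - f - (1, 1)) = Wn m := by
  ext g
  rw [Finset.mem_image]
  constructor
  · rintro ⟨f, hf, rfl⟩
    rw [mem_Wn] at hf ⊢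
    simp only [Prod.fst_sub, Prod.snd_sub]
    omega
  · intro hg
    refine ⟨(1, 0) - g - (1, 1), ?_, ?_⟩
    · rw [mem_Wn] at hg ⊢
      simp only [Prod.fst_sub, Prod.snd_sub]
      omega
    · obtain ⟨x, y⟩ := g
      simp only [Prod.mk_sub_mk]
      exact Prod.ext (by ring) (by ring)

/-- the base edge -/
def e0 : DE := ((0, 0), (1, 0))

theorem de_e0 : de ((0, 0), false) = e0 := rfl

theorem Mn_zero (m : ℕ) : Mn (Wn m) e0 = 0 := by
  classical
  have hψ : Function.Injective (fun f : ℤ × ℤ => (1, 0) - f - (1, 1)) := by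
    rintro ⟨x, y⟩ ⟨x', y'⟩ h
    simp only [Prod.mk_sub_mk, Prod.mk.injEq] at h
    exact Prod.ext (by simp only; linarith [h.1]) (by simp only; linarith [h.2])
  have h1 : Mn (Wn m) e0.swap = Mn (Wn m) e0 := by
    unfold Mn
    refine av_map (φ := fun f : ℤ × ℤ => (1, 0) - f - (1, 1)) (fun _ _ _ _ h => hψ h) (Wn_half m)
      (dep_clo (Wn m) e0 _ _ (fun ω ω' h => by
        rw [trn_congr fun f hf => h f (by exact_mod_cast hf)]) (fun _ _ _ => rfl)) fun ω => ?_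
    have hs := smH (1, 0) (Wn m) ω
    have h2 : hE (1, 0) e0 = e0.swap := rfl
    have h3 := hs.clo_map (a := e0)
    have h4 := hs.trn_map (a := e0)
    rw [h2, Wn_half, one_mul] at h4
    rw [h2, Wn_half] at h3
    by_cases h : Clo ZQ (Wn m) (fun f => ω ((1, 0) - f - (1, 1))) e0
    · rw [if_pos h, if_pos (h3.mpr h), h4]
    · rw [if_neg h, if_neg fun hh => h (h3.mp hh)]
  have h2 := Mn_swap (Wn m) e0
  linarith

theorem nc_Wn : Tendsto (fun m : ℕ => ncP (Wn m) e0) atTop (𝓝 0) := by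
  have h0 := nc_tendsto (e := e0) (by rw [← de_e0]; exact Ue_de _)
  refine squeeze_zero (fun m => nc_nonneg _ _) (fun m => nc_mono ?_ _) h0
  intro f hf
  unfold BR RF at hf
  rw [Finset.mem_product, Finset.mem_Ico, Finset.mem_Ico] at hf
  rw [mem_Wn]
  simp only at hf
  omega

/-- the ends of a directed edge of `F` are corners of faces of `F` -/
theorem dE_near (h : e ∈ dE ZQ F) : ∃ f ∈ F, (f.1 ≤ e.1.1 ∧ e.1.1 ≤ f.1 + 1) ∧
    (f.2 ≤ e.1.2 ∧ e.1.2 ≤ f.2 + 1) := by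
  obtain ⟨⟨x, y⟩, hf, k, h1⟩ := mem_dE.mp h
  refine ⟨(x, y), hf, ?_⟩
  have hc : ∀ k : ZMod 4, (x ≤ (cor0 (x, y) k).1 ∧ (cor0 (x, y) k).1 ≤ x + 1) ∧
      (y ≤ (cor0 (x, y) k).2 ∧ (cor0 (x, y) k).2 ≤ y + 1) := by
    intro k
    rcases k4_cases k with rfl | rfl | rfl | rfl
    · rw [cor0_0]; simp
    · rw [cor0_1]; simp
    · rw [cor0_2]; simp
    · rw [cor0_3]; simp
  rcases h1 with rfl | rfl
  · exact hc k
  · exact hc (k + 1)

theorem abs_Kb_far (m : ℕ) (u : ℤ × ℤ) (hu : 2 * (m : ℤ) + 4 ≤ |u.1| ∨ 2 * (m : ℤ) + 4 ≤ |u.2|) :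
    |Kb (Wn m ∪ (Wn m).image (fun f => f + u)) e0 (tE u e0)| ≤ 6 * ncP (Wn m) e0 := by
  classical
  set F₁ := Wn m with hF₁
  set F₂ := (Wn m).image (fun f => f + u) with hF₂
  have hm2 : ∀ f, f ∈ F₂ ↔ -(m : ℤ) ≤ f.1 - u.1 ∧ f.1 - u.1 ≤ m ∧ -(m : ℤ) - 1 ≤ f.2 - u.2 ∧
      f.2 - u.2 ≤ m := by
    intro f
    rw [hF₂, Finset.mem_image]
    constructor
    · rintro ⟨g, hg, rfl⟩
      rw [mem_Wn] at hg
      simp only [Prod.fst_add, Prod.snd_add]
      omega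
    · intro h
      refine ⟨f - u, ?_, by simp⟩
      rw [mem_Wn]
      simp only [Prod.fst_sub, Prod.snd_sub]
      exact h
  have hfar : ∀ x y z w : ℤ, -(m : ℤ) ≤ x → x ≤ m + 1 → -(m : ℤ) - 1 ≤ y → y ≤ m + 1 →
      -(m : ℤ) ≤ x - u.1 → x - u.1 ≤ m + 1 → -(m : ℤ) - 1 ≤ y - u.2 → y - u.2 ≤ m + 1 → False := by
    intro x y z w h1 h2 h3 h4 h5 h6 h7 h8
    rcases hu with hu | hu
    · rw [le_abs] at hu
      omega
    · rw [le_abs] at hu
      omega
  have hdis : Disjoint F₁ F₂ := by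
    rw [Finset.disjoint_left]
    intro f h1 h2
    rw [mem_Wn] at h1
    rw [hm2] at h2
    exact hfar f.1 f.2 0 0 (by omega) (by omega) (by omega) (by omega) (by omega) (by omega)
      (by omega) (by omega)
  have hdE : ∀ x ∈ dE ZQ F₁, x ∉ dE ZQ F₂ := by
    intro x h1 h2
    obtain ⟨f, hf, h3, h4⟩ := dE_near h1
    obtain ⟨g, hg, h5, h6⟩ := dE_near h2
    rw [mem_Wn] at hf
    rw [hm2] at hg
    exact hfar x.1.1 x.1.2 0 0 (by omega) (by omega) (by omega) (by omega) (by omega) (by omega)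
      (by omega) (by omega)
  have hs1 : F₁ ⊆ F₁ ∪ F₂ := Finset.subset_union_left
  have hs2 : F₂ ⊆ F₁ ∪ F₂ := Finset.subset_union_right
  set e' := tE u e0 with he'
  -- the product
  have hprod : av (F₁ ∪ F₂) (fun ω => (if Clo ZQ F₁ ω e0 then tnt (trn ZQ F₁ ω e0) else 0) *
      (if Clo ZQ F₂ ω e' then tnt (trn ZQ F₂ ω e') else 0)) = 0 := by
    rw [av_indep hdis (g' := fun ω => if Clo ZQ F₂ ω e' then tnt (trn ZQ F₂ ω e') else 0)
      (dep_clo F₂ e' _ _ (fun ω ω' h => by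
        rw [trn_congr fun f hf => h f (by exact_mod_cast hf)]) (fun _ _ _ => rfl))
      (fun ω => if Clo ZQ F₁ ω e0 then tnt (trn ZQ F₁ ω e0) else 0)
      (dep_clo F₁ e0 _ _ (fun ω ω' h => by
        rw [trn_congr fun f hf => h f (by exact_mod_cast hf)]) (fun _ _ _ => rfl))]
    have hM : av F₁ (fun ω => if Clo ZQ F₁ ω e0 then tnt (trn ZQ F₁ ω e0) else 0) = Mn F₁ e0 := by
      unfold Mn
      exact av_congr fun T _ => by
        by_cases h : Clo ZQ F₁ (ind T) e0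
        · simp only [if_pos h]
        · simp only [if_neg h]
    rw [hM, hF₁, Mn_zero m, zero_mul]
  have hnc2 : ncP F₂ e' = ncP F₁ e0 := nc_map (smT u) (add_left_injective u) F₁ e0
  have key : |Kb (F₁ ∪ F₂) e0 e' - av (F₁ ∪ F₂) (fun ω =>
      -((if Clo ZQ F₁ ω e0 then tnt (trn ZQ F₁ ω e0) else 0) *
      (if Clo ZQ F₂ ω e' then tnt (trn ZQ F₂ ω e') else 0)))| ≤ 3 * (ncP F₁ e0 + ncP F₂ e') := by
    rw [nc_eq hs1 e0, nc_eq hs2 e', ← av_add, ← av_mul]
    unfold Kb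
    refine abs_av_sub_le fun T _ => ?_
    have hb := abs_gc_le (uml_ZQ (F₁ ∪ F₂)) (ω := ind T) (e := e0) (e' := e')
    by_cases h1 : Clo ZQ F₁ (ind T) e0
    · by_cases h2 : Clo ZQ F₂ (ind T) e'
      · have h3 : gc ZQ (F₁ ∪ F₂) (ind T) e0 e' =
            -(tnt (trn ZQ F₁ (ind T) e0) * tnt (trn ZQ F₂ (ind T) e')) := by
          unfold gc
          rw [if_pos ⟨h1.mono hs1, h2.mono hs2⟩]
          unfold gg
          rw [h1.dst_eq hs1, h1.trn_eq hs1, h2.trn_eq hs2]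
          have n1 : e' ∉ dst ZQ F₁ (ind T) e0 := fun h => hdE _ (mem_dst.mp h).1 h2.mem
          have n2 : e'.swap ∉ dst ZQ F₁ (ind T) e0 := fun h =>
            hdE _ (mem_dst.mp h).1 (swap_mem_dE.mpr h2.mem)
          rw [if_neg n1, if_neg n2]
        rw [h3]
        simp only [if_pos h1, if_pos h2]
        simp
      · simp only [if_pos h1, if_neg h2, mul_zero, neg_zero, sub_zero]
        linarith
    · simp only [if_neg h1, zero_mul, neg_zero, sub_zero]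
      by_cases h2 : Clo ZQ F₂ (ind T) e'
      · simp only [if_pos h2]; linarith
      · simp only [if_neg h2]; linarith
  rw [av_neg, hprod, neg_zero, sub_zero, hnc2] at key
  linarith

theorem CE_far (m : ℕ) (x y : ℤ) (h : 2 * (m : ℤ) + 4 ≤ |x| ∨ 2 * (m : ℤ) + 4 ≤ |y|) :
    |CE x y| ≤ 12 * ncP (Wn m) e0 := by
  have h0 : Ue e0 := by rw [← de_e0]; exact Ue_de _
  have h1 : CE x y = Kp e0 (tE (x, y) e0) := by
    unfold CE KE
    rw [de_e0]
    congr 1
    unfold de tE e0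
    refine Prod.ext ?_ ?_
    · simp
    · simp [add_comm]
  have h2 : Ue (tE (x, y) e0) := Ue_map (smT (x, y)) h0
  have h3 := abs_Kp_sub h0 h2 (Wn m ∪ (Wn m).image (fun f => f + (x, y)))
  have h4 := abs_Kb_far m (x, y) h
  have h5 : ncP (Wn m ∪ (Wn m).image (fun f => f + (x, y))) e0 ≤ ncP (Wn m) e0 :=
    nc_mono Finset.subset_union_left _
  have h6 : ncP (Wn m ∪ (Wn m).image (fun f => f + (x, y))) (tE (x, y) e0) ≤ ncP (Wn m) e0 := by
    rw [← nc_map (smT (x, y)) (add_left_injective (x, y)) (Wn m) e0]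
    exact nc_mono Finset.subset_union_right _
  rw [h1]
  have h7 := abs_sub_abs_le_abs_sub (Kp e0 (tE (x, y) e0))
    (Kb (Wn m ∪ (Wn m).image (fun f => f + (x, y))) e0 (tE (x, y) e0))
  linarith

theorem CE_decay (ε : ℝ) (hε : 0 < ε) : ∃ M : ℕ, ∀ x y : ℤ, ((M : ℤ) ≤ |x| ∨ (M : ℤ) ≤ |y|) →
    |CE x y| < ε := by
  have h := nc_Wn
  rw [Metric.tendsto_atTop] at h
  obtain ⟨m, hm⟩ := h (ε / 12) (by positivity)
  refine ⟨2 * m + 4, fun x y hxy => ?_⟩
  have h1 := CE_far m x y (by push_cast at hxy; exact hxy)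
  have h2 := hm m le_rfl
  rw [Real.dist_eq, sub_zero, abs_of_nonneg (nc_nonneg _ _)] at h2
  linarith

theorem CE_decx : Tendsto (fun x : ℕ => CE x 0) atTop (𝓝 0) := by
  rw [Metric.tendsto_atTop]
  intro ε hε
  obtain ⟨M, hM⟩ := CE_decay ε hε
  refine ⟨M, fun x hx => ?_⟩
  rw [Real.dist_eq, sub_zero]
  exact hM x 0 (Or.inl (by rw [Nat.abs_cast]; exact_mod_cast hx))

theorem CE_decy : Tendsto (fun y : ℕ => CE 0 y) atTop (𝓝 0) := by
  rw [Metric.tendsto_atTop]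
  intro ε hε
  obtain ⟨M, hM⟩ := CE_decay ε hε
  refine ⟨M, fun y hy => ?_⟩
  rw [Real.dist_eq, sub_zero]
  exact hM 0 y (Or.inr (by rw [Nat.abs_cast]; exact_mod_cast hy))

end

end Pool.Agent.SixB
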