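import Pool.Agent.Lib.SixB.CylSign
import Pool.Agent.Lib.SixB.PlaneK

/-!
# 6BD step 2: the two arrow functional of the cylinder and the windows of the plane

`pN N` injective on the finite set of faces `F` of the plane.
* `clo_down`, `dst_down`, `trn_down`, `gg_down`, `gc_down`: a closed strand of `F` is a closed strand of the
  image with the same turning; the sign functionals agree.
* `av_lc`: the law of the lifted configuration in `F`.
* `window`: the mean of `gg` on the cylinder and `Kb F` differ by at most `3 (ncP F e + ncP F e')`.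
* `window_Kp`: the same with the functional `Kp` of the plane, `6 (ncP F e + ncP F e')`.
* `injOn_box`: `pN N` is injective on boxes of width at most `N`.
-/

set_option autoImplicit false
set_option linter.unusedSectionVars false

namespace Pool.Agent.SixB.CylWin

open Pool.Agent.Perc Pool.Agent.Perc.Q Relation

noncomputable section

variable {N : ℕ} [hN : Fact (3 ≤ N)] {F : Finset (ℤ × ℤ)} {ω : ZMod N × ℤ → Bool}
  {e e' a b c : DE} {y₀ y₁ : ℤ}

/-- `pE` is injective on the directed edges with a face of `F` ahead -/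
theorem pE_inj (hF : Set.InjOn (pN N) (F : Set (ℤ × ℤ))) {f g : ℤ × ℤ} (hf : f ∈ F) (hg : g ∈ F)
    {k l : ZMod 4} (h : pE N (sd ZQ f k) = pE N (sd ZQ g l)) : sd ZQ f k = sd ZQ g l := by
  rw [pE_sd, pE_sd] at h
  obtain ⟨h1, h2⟩ := (CQ N).inj (Prod.mk.inj h).1 (Prod.mk.inj h).2
  rw [hF (by exact_mod_cast hf) (by exact_mod_cast hg) h1, h2]

theorem clo_sd {w : Cfg} (h : Clo ZQ F w a) : ∃ f ∈ F, ∃ k, a = sd ZQ f k := by
  obtain ⟨b, ⟨f, hf, k, rfl, -⟩, -⟩ := h.exists_nx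
  exact ⟨f, by exact_mod_cast hf, k, rfl⟩

theorem img (f : ℤ × ℤ) (hf : f ∈ (F : Set (ℤ × ℤ))) :
    pN N f ∈ ((F.image (pN N) : Finset (ZMod N × ℤ)) : Set (ZMod N × ℤ)) := by
  rw [Finset.coe_image]
  exact Set.mem_image_of_mem _ hf

theorem clo_down (h : Clo ZQ F (lc N ω) a) : Clo (CQ N) (F.image (pN N)) ω (pE N a) :=
  tg_down img h

/-- the orbit of a closed strand in the image -/
theorem rtg_of_clo (h : Clo ZQ F (lc N ω) a) {b' : (ZMod N × ℤ) × (ZMod N × ℤ)}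
    (hb : ReflTransGen (Nx (CQ N) ω ((F.image (pN N) : Finset (ZMod N × ℤ)) : Set (ZMod N × ℤ)))
      (pE N a) b') :
    ∃ b, pE N b = b' ∧ ReflTransGen (Nx ZQ (lc N ω) (F : Set (ℤ × ℤ))) a b := by
  induction hb with
  | refl => exact ⟨a, rfl, ReflTransGen.refl⟩
  | @tail c' d' _ hcd ih =>
    obtain ⟨c, rfl, hc⟩ := ih
    have h1 : Clo ZQ F (lc N ω) c := h.of_srel (srel_iff.mpr (Or.inl hc))
    obtain ⟨d, h2, -⟩ := h1.exists_nx
    exact ⟨d, (hcd.unique (nx_down img h2)).symm, hc.tail h2⟩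

theorem dst_down (h : Clo ZQ F (lc N ω) a) :
    dst (CQ N) (F.image (pN N)) ω (pE N a) = (dst ZQ F (lc N ω) a).image (pE N) := by
  ext x
  rw [mem_dst, Finset.mem_image]
  constructor
  · rintro ⟨-, h2⟩
    obtain ⟨b, rfl, hb⟩ := rtg_of_clo h ((clo_down h).srel h2)
    have hs : SRel ZQ F (lc N ω) a b := srel_iff.mpr (Or.inl hb)
    exact ⟨b, mem_dst.mpr ⟨(h.of_srel hs).mem, hs⟩, rfl⟩
  · rintro ⟨b, hb, rfl⟩
    have h3 := rtg_down (N := N) (ω := ω) img (h.srel (mem_dst.mp hb).2)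
    have hs : SRel (CQ N) (F.image (pN N)) ω (pE N a) (pE N b) := srel_iff.mpr (Or.inl h3)
    exact ⟨((clo_down h).of_srel hs).mem, hs⟩

theorem trn_down (hF : Set.InjOn (pN N) (F : Set (ℤ × ℤ))) (h : Clo ZQ F (lc N ω) a) :
    trn (CQ N) (F.image (pN N)) ω (pE N a) = trn ZQ F (lc N ω) a := by
  unfold trn
  rw [dst_down h, Finset.sum_image]
  · refine Finset.sum_congr rfl fun b hb => ?_
    obtain ⟨f, hf, k, rfl⟩ := clo_sd (h.of_srel (mem_dst.mp hb).2)
    rw [pE_sd, qt_of_sd (Finset.mem_image_of_mem _ hf), qt_of_sd hf]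
    rfl
  · intro b hb c hc hbc
    obtain ⟨f, hf, k, rfl⟩ := clo_sd (h.of_srel (mem_dst.mp hb).2)
    obtain ⟨g, hg, l, rfl⟩ := clo_sd (h.of_srel (mem_dst.mp hc).2)
    exact pE_inj hF hf hg hbc

theorem mem_dst_down (hF : Set.InjOn (pN N) (F : Set (ℤ × ℤ))) (h : Clo ZQ F (lc N ω) a)
    (hc : Clo ZQ F (lc N ω) c) :
    pE N c ∈ dst (CQ N) (F.image (pN N)) ω (pE N a) ↔ c ∈ dst ZQ F (lc N ω) a := by
  rw [dst_down h, Finset.mem_image]
  constructor
  · rintro ⟨d, hd, hdc⟩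
    obtain ⟨f, hf, k, rfl⟩ := clo_sd (h.of_srel (mem_dst.mp hd).2)
    obtain ⟨g, hg, l, rfl⟩ := clo_sd hc
    rw [← pE_inj hF hf hg hdc]
    exact hd
  · exact fun hc' => ⟨c, hc', rfl⟩

theorem gg_down (hF : Set.InjOn (pN N) (F : Set (ℤ × ℤ))) (h : Clo ZQ F (lc N ω) a)
    (h' : Clo ZQ F (lc N ω) b) :
    gg (CQ N) (F.image (pN N)) ω (pE N a) (pE N b) = gg ZQ F (lc N ω) a b := by
  unfold gg
  rw [← pE_swap]
  simp only [mem_dst_down hF h h', mem_dst_down hF h h'.swap, trn_down hF h, trn_down hF h']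

/-- on the event that both strands are closed in `F` -/
theorem gg_cyl (hF : Set.InjOn (pN N) (F : Set (ℤ × ℤ))) {G : Finset (ZMod N × ℤ)}
    (hG : F.image (pN N) ⊆ G) (h : Clo ZQ F (lc N ω) a) (h' : Clo ZQ F (lc N ω) b) :
    gg (CQ N) G ω (pE N a) (pE N b) = gc ZQ F (lc N ω) a b := by
  rw [gg_window (clo_down h) (clo_down h') hG, gg_down hF h h']
  unfold gc
  rw [if_pos ⟨h, h'⟩]

theorem dep_lc {α : Type} {g : Cfg → α} (hg : Dep (F : Set (ℤ × ℤ)) g) :
    Dep ((F.image (pN N) : Finset (ZMod N × ℤ)) : Set (ZMod N × ℤ)) (fun ω => g (lc N ω)) := by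
  intro ω ω' h
  exact hg _ _ fun f hf => h _ (img f hf)

/-- the law of the lifted configuration -/
theorem av_lc (hF : Set.InjOn (pN N) (F : Set (ℤ × ℤ))) {g : Cfg → ℝ}
    (hg : Dep (F : Set (ℤ × ℤ)) g) {G : Finset (ZMod N × ℤ)} (hG : F.image (pN N) ⊆ G) :
    av G (fun ω => g (lc N ω)) = av F g := by
  rw [av_dep (dep_lc hg) hG]
  exact av_image hF hg

open Classical in
theorem ncP_lc (hF : Set.InjOn (pN N) (F : Set (ℤ × ℤ))) {G : Finset (ZMod N × ℤ)}
    (hG : F.image (pN N) ⊆ G) (e : DE) :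
    ncP F e = av G (fun ω => if Clo ZQ F (lc N ω) e then 0 else 1) := by
  unfold ncP
  exact (av_lc (g := fun w => if Clo ZQ F w e then 0 else 1) hF
    (dep_clo F e _ _ (fun _ _ _ => rfl) (fun _ _ _ => rfl)) hG).symm

/-- **Window comparison** -/
theorem window (hodd : Odd N) (hy : y₀ < y₁) (hF : Set.InjOn (pN N) (F : Set (ℤ × ℤ)))
    (hG : F.image (pN N) ⊆ cylF N y₀ y₁) (he : pE N e ∈ dE (CQ N) (cylF N y₀ y₁))
    (he' : pE N e' ∈ dE (CQ N) (cylF N y₀ y₁)) :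
    |av (cylF N y₀ y₁) (fun ω => gg (CQ N) (cylF N y₀ y₁) ω (pE N e) (pE N e')) - Kb F e e'| ≤
      3 * (ncP F e + ncP F e') := by
  classical
  have h1 : Kb F e e' = av (cylF N y₀ y₁) (fun ω => gc ZQ F (lc N ω) e e') :=
    (av_lc hF dep_gc hG).symm
  rw [h1, ncP_lc hF hG e, ncP_lc hF hG e', ← av_add, ← av_mul]
  refine abs_av_sub_le fun T _ => ?_
  set w := lc N (ind T) with hw
  have h3 := abs_gg_le hodd hy (ind T) he he'
  by_cases h : Clo ZQ F w e
  · by_cases h' : Clo ZQ F w e'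
    · rw [gg_cyl hF hG h h', if_pos h, if_pos h', sub_self, abs_zero]
      norm_num
    · have h4 : gc ZQ F w e e' = 0 := by
        unfold gc
        rw [if_neg fun hh => h' hh.2]
      rw [h4, sub_zero, if_pos h, if_neg h']
      linarith
  · have h4 : gc ZQ F w e e' = 0 := by
      unfold gc
      rw [if_neg fun hh => h hh.1]
    rw [h4, sub_zero, if_neg h]
    by_cases h' : Clo ZQ F w e'
    · rw [if_pos h']
      linarith
    · rw [if_neg h']
      linarith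

theorem window_Kp (hodd : Odd N) (hy : y₀ < y₁) (hF : Set.InjOn (pN N) (F : Set (ℤ × ℤ)))
    (hG : F.image (pN N) ⊆ cylF N y₀ y₁) (hu : Ue e) (hu' : Ue e')
    (he : pE N e ∈ dE (CQ N) (cylF N y₀ y₁)) (he' : pE N e' ∈ dE (CQ N) (cylF N y₀ y₁)) :
    |av (cylF N y₀ y₁) (fun ω => gg (CQ N) (cylF N y₀ y₁) ω (pE N e) (pE N e')) - Kp e e'| ≤
      6 * (ncP F e + ncP F e') := by
  have h1 := window hodd hy hF hG he he'
  have h2 := abs_Kp_sub hu hu' F
  have h3 := abs_sub_le (av (cylF N y₀ y₁) (fun ω => gg (CQ N) (cylF N y₀ y₁) ω (pE N e) (pE N e')))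
    (Kb F e e') (Kp e e')
  rw [abs_sub_comm (Kb F e e')] at h3
  linarith

/-- `pN N` is injective on boxes of width at most `N` -/
theorem injOn_box {x₀ x₁ z₀ z₁ : ℤ} (h : x₁ - x₀ ≤ N) :
    Set.InjOn (pN N) ((RF x₀ x₁ z₀ z₁ : Finset (ℤ × ℤ)) : Set (ℤ × ℤ)) := by
  rintro ⟨x, y⟩ hx ⟨x', y'⟩ hx' he
  unfold RF at hx hx'
  simp only [Finset.coe_product, Set.mem_prod, Finset.coe_Ico, Set.mem_Ico] at hx hx'
  unfold pN at he
  simp only [Prod.mk.injEq] at he
  obtain ⟨h1, h2⟩ := he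
  rw [ZMod.intCast_eq_intCast_iff, Int.modEq_iff_dvd] at h1
  obtain ⟨m, hm⟩ := h1
  have h3 : m = 0 := by
    by_contra hne
    rcases lt_or_gt_of_ne hne with h4 | h4
    · have : (N : ℤ) * m ≤ -N := by nlinarith [Int.natCast_nonneg N]
      omega
    · have : (N : ℤ) ≤ N * m := by nlinarith [Int.natCast_nonneg N]
      omega
  rw [h3, mul_zero] at hm
  exact Prod.ext (by simp only; omega) h2

end

end Pool.Agent.SixB.CylWin
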