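import Pool.Agent.Lib.SixB.CylTop

/-!
# The cylinder of odd circumference: a strand passes from the bottom to the top, no strand winds

* `cylF N y₀ y₁`: the faces of the rows `y₀ ≤ y < y₁`; `bE x y`: the upward edge over the unit
  segment from `(x, y)` to `(x + 1, y)`.
* `exists_through`: `N` odd.
* `no_wind`: a path from `a` to `tauE N m a` has `m = 0`.
-/

set_option autoImplicit false
set_option linter.unusedSectionVars false

namespace Pool.Agent.SixB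

open Pool.Agent.Perc Pool.Agent.Perc.Q Relation

noncomputable section

variable {N : ℕ} [hN : Fact (3 ≤ N)]

instance neZero_of_fact : NeZero N := ⟨by have := hN.out; omega⟩

/-- the faces of the rows `y₀ ≤ y < y₁` -/
def cylF (N : ℕ) [Fact (3 ≤ N)] (y₀ y₁ : ℤ) : Finset (ZMod N × ℤ) :=
  Finset.univ ×ˢ Finset.Ico y₀ y₁

theorem mem_cylF {y₀ y₁ : ℤ} {f : ZMod N × ℤ} : f ∈ cylF N y₀ y₁ ↔ y₀ ≤ f.2 ∧ f.2 < y₁ := by
  unfold cylF
  rw [Finset.mem_product, Finset.mem_Ico]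
  simp

theorem mem_cylF_mk {y₀ y₁ : ℤ} {x : ZMod N} {y : ℤ} :
    (x, y) ∈ cylF N y₀ y₁ ↔ y₀ ≤ y ∧ y < y₁ := mem_cylF

theorem mem_cylF_coe {y₀ y₁ : ℤ} {x : ZMod N} {y : ℤ} (h : y₀ ≤ y) (h' : y < y₁) :
    (x, y) ∈ (cylF N y₀ y₁ : Set (ZMod N × ℤ)) := Finset.mem_coe.mpr (mem_cylF_mk.mpr ⟨h, h'⟩)

/-- the upward edge over the unit segment from `(x, y)` to `(x + 1, y)` -/
def bE (x : ZMod N) (y : ℤ) : (ZMod N × ℤ) × (ZMod N × ℤ) := sd (CQ N) (x, y) 0

theorem bE_eq (x : ZMod N) (y : ℤ) : bE x y = ((x, y), (x + 1, y)) := rfl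

theorem bE_inj {x x' : ZMod N} {y y' : ℤ} (h : bE x y = bE x' y') : x = x' ∧ y = y' := by
  have := (Prod.mk.inj h).1
  exact Prod.mk.inj this

theorem csd_swap_0 (x : ZMod N) (y : ℤ) : (sd (CQ N) (x, y) 0).swap = sd (CQ N) (x, y - 1) 2 := by
  refine Prod.ext ?_ ?_
  · change corC N (x, y) 1 = corC N (x, y - 1) 2
    rw [corC_1, corC_2]; exact Prod.ext rfl (by simp)
  · change corC N (x, y) 0 = corC N (x, y - 1) 3
    rw [corC_0, corC_3]; exact Prod.ext rfl (by simp)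

theorem csd_swap_1 (x : ZMod N) (y : ℤ) : (sd (CQ N) (x, y) 1).swap = sd (CQ N) (x + 1, y) 3 := by
  refine Prod.ext ?_ ?_
  · change corC N (x, y) 2 = corC N (x + 1, y) 3
    rw [corC_3, corC_2]
  · change corC N (x, y) 1 = corC N (x + 1, y) 0
    rw [corC_0, corC_1]

theorem csd_swap_2 (x : ZMod N) (y : ℤ) : (sd (CQ N) (x, y) 2).swap = sd (CQ N) (x, y + 1) 0 := by
  rw [show sd (CQ N) (x, y) 2 = sd (CQ N) (x, y + 1 - 1) 2 by rw [add_sub_cancel_right],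
    ← csd_swap_0, Prod.swap_swap]

theorem csd_swap_3 (x : ZMod N) (y : ℤ) : (sd (CQ N) (x, y) 3).swap = sd (CQ N) (x - 1, y) 1 := by
  rw [show sd (CQ N) (x, y) 3 = sd (CQ N) (x - 1 + 1, y) 3 by rw [sub_add_cancel],
    ← csd_swap_1, Prod.swap_swap]

variable {ω : ZMod N × ℤ → Bool} {y₀ y₁ : ℤ}

/-- the ends of the strands of a cylinder -/
theorem ter_cases {t : (ZMod N × ℤ) × (ZMod N × ℤ)} (h1 : t ∈ dE (CQ N) (cylF N y₀ y₁))
    (h2 : Ter (CQ N) (cylF N y₀ y₁ : Set (ZMod N × ℤ)) t) :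
    ∃ x, t = (bE x y₀).swap ∨ t = bE x y₁ := by
  obtain ⟨⟨x, y⟩, hf, k, rfl | rfl⟩ := mem_dE.mp h1
  · exact absurd rfl (h2 _ (by exact_mod_cast hf) k)
  · have hf' := mem_cylF.mp hf
    simp only at hf'
    rcases k4_cases k with rfl | rfl | rfl | rfl
    · refine ⟨x, Or.inl ?_⟩
      have hy : y = y₀ := by
        by_contra hne
        have h3 : ((x, y - 1) : ZMod N × ℤ) ∈ (cylF N y₀ y₁ : Set (ZMod N × ℤ)) := by
          exact_mod_cast mem_cylF.mpr ⟨by simp only; omega, by simp only; omega⟩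
        exact h2 _ h3 2 (csd_swap_0 x y)
      rw [hy]; rfl
    · exfalso
      have h3 : ((x + 1, y) : ZMod N × ℤ) ∈ (cylF N y₀ y₁ : Set (ZMod N × ℤ)) := by
        exact_mod_cast mem_cylF.mpr hf'
      exact h2 _ h3 3 (csd_swap_1 x y)
    · refine ⟨x, Or.inr ?_⟩
      have hy : y + 1 = y₁ := by
        by_contra hne
        have h3 : ((x, y + 1) : ZMod N × ℤ) ∈ (cylF N y₀ y₁ : Set (ZMod N × ℤ)) := by
          exact_mod_cast mem_cylF.mpr ⟨by simp only; omega, by simp only; omega⟩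
        exact h2 _ h3 0 (csd_swap_2 x y)
      rw [csd_swap_2, hy]; rfl
    · exfalso
      have h3 : ((x - 1, y) : ZMod N × ℤ) ∈ (cylF N y₀ y₁ : Set (ZMod N × ℤ)) := by
        exact_mod_cast mem_cylF.mpr hf'
      exact h2 _ h3 1 (csd_swap_3 x y)

theorem bE_not_ter (hy : y₀ < y₁) (x : ZMod N) :
    ¬ Ter (CQ N) (cylF N y₀ y₁ : Set (ZMod N × ℤ)) (bE x y₀) := by
  intro h
  exact h (x, y₀) (mem_cylF_coe le_rfl hy) 0 rfl

theorem bE_ini (x : ZMod N) : Ini (CQ N) (cylF N y₀ y₁ : Set (ZMod N × ℤ)) (bE x y₀) := by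
  intro f hf k h
  have h1 : (bE x y₀).swap = sd (CQ N) f k := by
    rw [h]; rfl
  rw [bE, csd_swap_0] at h1
  obtain ⟨rfl, -⟩ := (CQ N).inj (Prod.mk.inj h1).1 (Prod.mk.inj h1).2
  have := mem_cylF.mp (show ((x, y₀ - 1) : ZMod N × ℤ) ∈ cylF N y₀ y₁ by exact_mod_cast hf)
  simp only at this
  omega

/-- the top edge, directed up, is terminal -/
theorem bE_top_ter (x : ZMod N) : Ter (CQ N) (cylF N y₀ y₁ : Set (ZMod N × ℤ)) (bE x y₁) := by
  intro f hf k h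
  have h1 : sd (CQ N) (x, y₁) 0 = sd (CQ N) f k := h
  obtain ⟨rfl, -⟩ := (CQ N).inj (Prod.mk.inj h1).1 (Prod.mk.inj h1).2
  have := mem_cylF.mp (show ((x, y₁) : ZMod N × ℤ) ∈ cylF N y₀ y₁ by exact_mod_cast hf)
  simp only at this
  omega

theorem bE_bot_ter (x : ZMod N) :
    Ter (CQ N) (cylF N y₀ y₁ : Set (ZMod N × ℤ)) (bE x y₀).swap := by
  intro f hf k h
  exact bE_ini (y₁ := y₁) x f hf k (by
    rw [← Prod.swap_swap (bE x y₀), h]; rfl)

/-- the strand of a bottom edge ends at the bottom or at the top -/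
theorem end_cases (hy : y₀ < y₁) (ω : ZMod N × ℤ → Bool) (x : ZMod N) :
    (∃ x', ReflTransGen (Nx (CQ N) ω (cylF N y₀ y₁ : Set (ZMod N × ℤ))) (bE x y₀)
      (bE x' y₀).swap) ∨
    ∃ x', ReflTransGen (Nx (CQ N) ω (cylF N y₀ y₁ : Set (ZMod N × ℤ))) (bE x y₀) (bE x' y₁) := by
  obtain ⟨t, ht, hter⟩ := exists_ter (ω := ω) (Finset.finite_toSet (cylF N y₀ y₁))
    (bE_ini (y₁ := y₁) x)
  have ht' : ReflTransGen (Nx (CQ N) ω (cylF N y₀ y₁ : Set (ZMod N × ℤ))) (bE x y₀) t := ht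
  rcases ReflTransGen.cases_tail ht' with h | ⟨c, -, h⟩
  · exact absurd (h ▸ hter) (bE_not_ter hy x)
  · have hmem := Nx.right_mem h
    obtain ⟨x', rfl | rfl⟩ := ter_cases hmem hter
    · exact Or.inl ⟨x', ht'⟩
    · exact Or.inr ⟨x', ht'⟩

/-- **A strand passes from the bottom to the top**, if the circumference is odd. -/
theorem exists_through (hodd : Odd N) (hy : y₀ < y₁) (ω : ZMod N × ℤ → Bool) :
    ∃ x x', ReflTransGen (Nx (CQ N) ω (cylF N y₀ y₁ : Set (ZMod N × ℤ)))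
      (bE x y₀) (bE x' y₁) := by
  by_contra hcon
  push Not at hcon
  have hend : ∀ x : ZMod N, ∃ x', ReflTransGen
      (Nx (CQ N) ω (cylF N y₀ y₁ : Set (ZMod N × ℤ))) (bE x y₀) (bE x' y₀).swap := by
    intro x
    rcases end_cases hy ω x with h | ⟨x', h⟩
    · exact h
    · exact absurd h (hcon x x')
  choose ι hι using hend
  have hinv : ∀ x, ι (ι x) = x := by
    intro x
    have h1 := rtg_rev (hι x)
    rw [Prod.swap_swap] at h1
    have h2 := ter_unique (hι (ι x)) h1 (bE_bot_ter _) (bE_bot_ter _)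
    exact (bE_inj (Prod.swap_injective h2)).1
  have hne : ∀ x, ι x ≠ x := by
    intro x hx
    have h1 := hι x
    rw [hx] at h1
    have hmem : bE x y₀ ∈ dE (CQ N) (cylF N y₀ y₁) :=
      sd_mem (mem_cylF_mk.mpr ⟨le_rfl, hy⟩) 0
    exact not_srel_swap noLoop_CQ hmem (srel_iff.mpr (Or.inl h1))
  have hsum : ∑ _x : ZMod N, (1 : ZMod 2) = 0 := by
    refine Finset.sum_involution (fun x _ => ι x) ?_ ?_ ?_ ?_
    · intro x _
      decide
    · intro x _ _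
      exact hne x
    · intro x _
      exact Finset.mem_univ _
    · intro x _
      exact hinv x
  rw [Finset.sum_const, Finset.card_univ, ZMod.card, nsmul_eq_mul, mul_one,
    ZMod.natCast_eq_zero_iff] at hsum
  obtain ⟨k, hk⟩ := hodd
  omega

/-! ## No winding -/

variable {w : Cfg} {a b : (ℤ × ℤ) × (ℤ × ℤ)}

/-- the faces of a horizontal strip of the plane -/
def strip (y₀ y₁ : ℤ) : Set (ℤ × ℤ) := {f | y₀ ≤ f.2 ∧ f.2 < y₁}

theorem preimage_cylF : pN N ⁻¹' (cylF N y₀ y₁ : Set (ZMod N × ℤ)) = strip y₀ y₁ := by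
  ext f
  rw [Set.mem_preimage, Finset.mem_coe, mem_cylF]
  rfl

theorem conn_of_rtg {F : Set (ℤ × ℤ)} (h : ReflTransGen (Nx ZQ w F) a b) :
    Conn w F a.1 b.1 ∧ Conn w F a.2 b.2 := by
  have h1 := marks (Q := ZQ) (ω := w) (F := F) (e := a) (a := b) h
  exact ⟨connZ_iff.1 (h1.1.mono Vis_sub), connZ_iff.1 (h1.2.mono Vis_sub)⟩

theorem conn_box {u v : ℤ × ℤ} (h : Conn w (strip y₀ y₁) u v) :
    ∃ L : ℤ, ∀ L' ≥ L, Conn w (RF (-L') L' y₀ y₁ : Finset (ℤ × ℤ)) u v := by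
  induction h with
  | refl => exact ⟨0, fun _ _ => ReflTransGen.refl⟩
  | tail _ hb ih =>
    obtain ⟨L, hL⟩ := ih
    obtain ⟨x, y, hxy, hh⟩ := hb
    refine ⟨max L (|x| + 1), fun L' hL' => ?_⟩
    have h1 := le_max_left L (|x| + 1)
    have h2 := le_max_right L (|x| + 1)
    have h3 := abs_le.mp (le_refl |x|)
    refine (hL L' (by omega)).tail ⟨x, y, ?_, hh⟩
    rw [Finset.mem_coe, mem_RFi]
    exact ⟨by simp only; omega, by simp only; omega, hxy.1, hxy.2⟩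

/-- If a strand of the strip joins the bottom and the top there is no path from `a` to
a translate of `a`. -/
theorem no_wind_aux {e t : (ℤ × ℤ) × (ℤ × ℤ)} (hy : y₀ < y₁) (hpar : (e.1.1 + e.1.2 + 1 -
    (e.2.1 + e.2.2)) % 2 = 0) (he1 : e.1.2 = y₀) (he2 : e.2.2 = y₀) (ht1 : t.1.2 = y₁)
    (ht2 : t.2.2 = y₁) (het : ReflTransGen (Nx ZQ w (strip y₀ y₁)) e t)
    {u : ℕ → ℤ × ℤ} {v : ℕ → ℤ × ℤ} (huv : ∀ j, Conn w (strip y₀ y₁) (u j) (v j))
    (huy : ∀ j, y₀ ≤ (u j).2 ∧ (u j).2 ≤ y₁) (hu : ∀ j : ℕ, (u j).1 ≤ -j) (hv : ∀ j : ℕ, j ≤ (v j).1) :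
    False := by
  obtain ⟨h1, h2⟩ := conn_of_rtg het
  obtain ⟨L1, hL1⟩ := conn_box h1
  obtain ⟨L2, hL2⟩ := conn_box h2
  set L : ℤ := max (max L1 L2) (max (|e.1.1| + 1) (|e.2.1| + 1)) with hL
  have a1 := le_max_left (max L1 L2) (max (|e.1.1| + 1) (|e.2.1| + 1))
  have a2 := le_max_right (max L1 L2) (max (|e.1.1| + 1) (|e.2.1| + 1))
  have a3 := le_max_left L1 L2
  have a4 := le_max_right L1 L2
  have a5 := le_max_left (|e.1.1| + 1) (|e.2.1| + 1)
  have a6 := le_max_right (|e.1.1| + 1) (|e.2.1| + 1)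
  have a7 := abs_le.mp (le_refl |e.1.1|)
  have a8 := abs_le.mp (le_refl |e.2.1|)
  have h1' := hL1 L (by omega)
  have h2' := hL2 L (by omega)
  obtain ⟨j, hj⟩ := Int.eq_ofNat_of_zero_le (show 0 ≤ L by omega)
  obtain ⟨L3, hL3⟩ := conn_box (huv j)
  set M : ℤ := max (max L3 L) (max (|(u j).1| + 1) (|(v j).1| + 1)) with hM
  have b1 := le_max_left (max L3 L) (max (|(u j).1| + 1) (|(v j).1| + 1))
  have b2 := le_max_right (max L3 L) (max (|(u j).1| + 1) (|(v j).1| + 1))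
  have b3 := le_max_left L3 L
  have b4 := le_max_right L3 L
  have b5 := le_max_left (|(u j).1| + 1) (|(v j).1| + 1)
  have b7 := abs_le.mp (le_refl |(u j).1|)
  have huj := hu j
  have hvj := hv j
  obtain ⟨p, q, hp1, hp2, hp3, hq1, hpq, hup⟩ := PercT.strip_hor (ω := w) (x₀ := -M) (x₀' := -L)
    (x₁' := L) (x₁ := M) (y₀ := y₀) (y₁ := y₁) (u := u j) (v := v j) (by omega) (by omega)
    (by omega) (by omega) ⟨by omega, (huy j).1, (huy j).2⟩ (by omega) (hL3 M (by omega))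
  have hLR : w ∈ LR (p.1 + p.2) (-L) L y₀ y₁ := ⟨p, q, hp1, hp2, hp3, hq1, by simp, hpq⟩
  have hBT : w ∈ BT (p.1 + p.2 + 1) (-L) L y₀ y₁ := by
    by_cases hc : (e.1.1 + e.1.2 - (p.1 + p.2 + 1)) % 2 = 0
    · exact ⟨e.1, t.1, he1, by omega, by omega, ht1, hc, h1'⟩
    · exact ⟨e.2, t.2, he2, by omega, by omega, ht2, by omega, h2'⟩
  exact not_lr_and_bt (p.1 + p.2) (by omega) hy w ⟨hLR, hBT⟩

theorem rtg_sd {F : Set (ℤ × ℤ)} (h : TransGen (Nx ZQ w F) a b) : ∃ f ∈ F, ∃ k, a = sd ZQ f k := by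
  obtain ⟨c, ⟨f, hf, k, h1, -⟩, -⟩ := TransGen.head'_iff.mp h
  exact ⟨f, hf, k, h1⟩

/-- **No strand winds around the cylinder**, if a strand passes from the bottom to the top. -/
theorem no_wind (hodd : Odd N) (hy : y₀ < y₁) {m : ℤ}
    (h : TransGen (Nx ZQ (lc N ω) (strip y₀ y₁)) a (tauE N m a)) : m = 0 := by
  -- the strand from the bottom to the top
  obtain ⟨x, x', hx⟩ := exists_through hodd hy ω
  obtain ⟨xi, rfl⟩ := ZMod.intCast_surjective x
  have hbe : pE N (sd ZQ (xi, y₀) 0) = bE (xi : ZMod N) y₀ := pE_sd (xi, y₀) 0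
  rw [← hbe] at hx
  obtain ⟨t, ht, ht', het⟩ := rtg_up ⟨_, _, rfl⟩ hx
  rw [preimage_cylF] at het
  have ht1 : t.1.2 = y₁ := by
    have := congrArg (fun z => z.1.2) ht'
    exact this
  have ht2 : t.2.2 = y₁ := by
    have := congrArg (fun z => z.2.2) ht'
    exact this
  have key : ∀ (m : ℤ) (a : (ℤ × ℤ) × (ℤ × ℤ)), 0 < m →
      ¬ TransGen (Nx ZQ (lc N ω) (strip y₀ y₁)) a (tauE N m a) := by
    intro m a hm h
    obtain ⟨f, hf, k, hfa⟩ := rtg_sd h
    have hay : y₀ ≤ a.1.2 ∧ a.1.2 ≤ y₁ := by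
      rw [hfa]
      change y₀ ≤ (cor0 f k).2 ∧ (cor0 f k).2 ≤ y₁
      have hf1 := hf.1
      have hf2 := hf.2
      rcases k4_cases k with rfl | rfl | rfl | rfl
      · rw [cor0_0]; omega
      · rw [cor0_1]; simp only; omega
      · rw [cor0_2]; simp only; omega
      · rw [cor0_3]; simp only; omega
    have h3 := hN.out
    rw [← preimage_cylF (N := N)] at h
    have hlong : ∀ j : ℕ, Conn (lc N ω) (strip y₀ y₁) (tauE N (-(m * (j + 1))) a).1
        (tauE N (m * (j + 1)) a).1 := by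
      intro j
      have h1 := (tg_iter h j).to_reflTransGen
      have h2 := rtg_tau (m := -(m * (j + 1))) h1
      rw [tauE_tauE] at h2
      rw [neg_add_cancel, tauE_zero] at h2
      have h4 := h2.trans h1
      rw [preimage_cylF] at h4
      exact (conn_of_rtg h4).1
    set s : ℕ := a.1.1.natAbs with hs
    have hs1 : -(s : ℤ) ≤ a.1.1 ∧ a.1.1 ≤ s := by omega
    have hgrow : ∀ j : ℕ, (j : ℤ) + s ≤ N * (m * ((j + s : ℕ) + 1)) := by
      intro j
      have g1 : (1 : ℤ) * (((j + s : ℕ) : ℤ) + 1) ≤ m * ((j + s : ℕ) + 1) :=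
        mul_le_mul_of_nonneg_right (by omega) (by positivity)
      have g2 : (1 : ℤ) * (m * ((j + s : ℕ) + 1)) ≤ N * (m * ((j + s : ℕ) + 1)) :=
        mul_le_mul_of_nonneg_right (by omega) (by positivity)
      push_cast at g1 g2 ⊢
      linarith
    refine no_wind_aux (w := lc N ω) (e := sd ZQ (xi, y₀) 0) (t := t) hy ?_ rfl rfl ht1 ht2 het
      (u := fun j => (tauE N (-(m * ((j + s : ℕ) + 1))) a).1)
      (v := fun j => (tauE N (m * ((j + s : ℕ) + 1)) a).1) (fun j => hlong (j + s)) ?_ ?_ ?_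
    · change ((cor0 (xi, y₀) 0).1 + (cor0 (xi, y₀) 0).2 + 1 -
        ((cor0 (xi, y₀) 1).1 + (cor0 (xi, y₀) 1).2)) % 2 = 0
      rw [cor0_0, cor0_1]
      simp only
      omega
    · intro j
      exact hay
    · intro j
      have := hgrow j
      change a.1.1 + N * (-(m * ((j + s : ℕ) + 1))) ≤ -j
      rw [mul_neg]
      linarith [hs1.2]
    · intro j
      have := hgrow j
      change (j : ℤ) ≤ a.1.1 + N * (m * ((j + s : ℕ) + 1))
      linarith [hs1.1]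
  rcases lt_trichotomy m 0 with hm | hm | hm
  · exfalso
    have h1 := tg_rev h
    rw [← preimage_cylF (N := N)] at h1
    have h2 := tg_tau (m := -m) h1
    rw [preimage_cylF, ← tauE_swap, tauE_tauE, neg_add_cancel, tauE_zero] at h2
    exact key (-m) a.swap (by omega) h2
  · exact hm
  · exact absurd h (key m a hm)

end

end Pool.Agent.SixB
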