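import Pool.Agent.Lib.MP_6bd702_zc.Y055
import Pool.Agent.Lib.MP_6bd702_z.Main
import Pool.Agent.Lib.MP_6bd702_z.Distinct
import Pool.Agent.Lib.MP_6bd702_zc.Y051
import Pool.Agent.Lib.MP_6bd702_zc.BridgeC3
import Pool.Agent.Lib.MP_6bd702_zc.OccFinal

/-!
# The last step: claim 1 gives the whole of Q1

`Claim1`: the laws of the rescaled outer perimeters converge, for every rule for breaking ties, to one
law `μ`. `full_of_claim1`: then `μ`-almost surely the trace has dimension `7 / 4`, the curve is not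
self-avoiding and the outer boundary has dimension `4 / 3`.
-/

set_option autoImplicit false

namespace Pool.Agent.SixB

open Pool.Agent.Perc Pool.Agent.PercD Pool.Agent.PercS5 Filter Topology MeasureTheory

/-- Claim 1: convergence of the laws of the rescaled outer perimeters. -/
def Claim1 : Prop := ∃ μ : ProbabilityMeasure Curve, ∀ sel : ℕ → Finset Edg → ℤ × ℤ,
  (∀ n, IsSel n (sel n)) → Tendsto (fun n => lawP n (sel n)) atTop (𝓝 μ)

/-- Claim 1 implies the complete statement. -/
theorem full_of_claim1 (h : Claim1) : ∃ μ : ProbabilityMeasure Curve,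
    (∀ sel : ℕ → Finset Edg → ℤ × ℤ, (∀ n, ∀ T ⊆ boxE n, sel n T ∈ Box n ∧
      ∀ v ∈ Box n, Metric.diam (clS T v) ≤ Metric.diam (clS T (sel n T))) →
      Tendsto (fun n => lawP n (sel n)) atTop (𝓝 μ)) ∧
    ∀ᵐ c : Curve ∂(μ : Measure Curve), dimH (c.trace : Set ℂ) = 7 / 4 ∧ ¬ c.SelfAvoiding ∧
      dimH (outB (c.trace : Set ℂ)) = 4 / 3 := by
  obtain ⟨μ, hμ⟩ := h
  refine ⟨μ, fun sel hsel => hμ sel hsel, ?_⟩
  choose sel hsel using exists_isSel
  exact ((scaling_full_of targetTight_holds targetExist_holds targetCurve_holds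
    (targetOutCurve_of (targetOutB_of Pool.Agent.Perc.TTBd.targetC1
      (Pool.Agent.Perc6.targetC3_of Pool.Agent.Occ.occHyp) targetB3_holds)) sel hsel).2 id
        tendsto_id).2 μ (hμ sel hsel)

end Pool.Agent.SixB
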