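import Mathlib

/-!
# Functional equations of the crossing probability (sprint 6BD, block CARDY)

Abstract real analysis.  Let `P x a b c` be the crossing probability `[a,b] <-> [c,x]` in the boundary
coordinate of the upper half plane.  Suppose that its derivatives in `x` and in `b` are both of the form
`const * prod |y - mark|^(-2 s) rho(dy)` with ONE unknown locally finite atomless measure `rho`
(the constants may depend on the other marks).  Then `s = 1/3` and `rho` is a multiple of Lebesgue measure,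
so that `P` is given by Cardy's integral.
-/

set_option autoImplicit false

open MeasureTheory Set Filter Topology

namespace Pool.Agent.SixB

/-- The kernel `|y - a|^(-2 s)`. -/
noncomputable def kr (s y a : ℝ) : ℝ := |y - a| ^ (-2 * s)

lemma kr_pos {s y a : ℝ} (h : y ≠ a) : 0 < kr s y a :=
  Real.rpow_pos_of_pos (abs_pos.2 (sub_ne_zero.2 h)) _

lemma kr_nonneg (s y a : ℝ) : 0 ≤ kr s y a := Real.rpow_nonneg (abs_nonneg _) _

lemma kr_comm (s y a : ℝ) : kr s y a = kr s a y := by simp [kr, abs_sub_comm]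

lemma kr_contAt {s y a : ℝ} (h : y ≠ a) : ContinuousAt (fun y => kr s y a) y := by
  unfold kr
  apply ContinuousAt.rpow_const
  · fun_prop
  · left
    exact (abs_pos.2 (sub_ne_zero.2 h)).ne'

lemma kr_contAt' {s y a : ℝ} (h : y ≠ a) : ContinuousAt (fun a => kr s y a) a := by
  have : (fun a => kr s y a) = fun a => kr s a y := by
    funext a; exact kr_comm _ _ _
  rw [this]
  exact kr_contAt h.symm

lemma kr_meas (s a : ℝ) : Measurable (fun y => kr s y a) := by
  unfold kr
  fun_prop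

/-- Data of the functional equation. -/
structure FE (ρ : Measure ℝ) (s : ℝ) (P : ℝ → ℝ → ℝ → ℝ → ℝ) (A : ℝ → ℝ → ℝ → ℝ)
    (B : ℝ → ℝ → ℝ → ℝ) : Prop where
  pos : ∀ x a b c, a < b → b < c → (c < x ∨ x < a) → 0 < P x a b c
  lt_one : ∀ x a b c, a < b → b < c → (c < x ∨ x < a) → P x a b c < 1
  A1 : ∀ x a b c, a < b → b < c → c < x →
    P x a b c = A a b c * ∫ y in Ioo c x, kr s y a * kr s y c * kr s y b ∂ρ
  A2 : ∀ x a b c, a < b → b < c → x < a →
    1 - P x a b c = A a b c * ∫ y in Ioo x a, kr s y a * kr s y c * kr s y b ∂ρ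
  B1 : ∀ x a b c, a < b → b < c → (c < x ∨ x < a) →
    P x a b c = B x a c * ∫ y in Ioo a b, kr s y a * kr s y c * kr s y x ∂ρ
  B2 : ∀ x a b c, a < b → b < c → (c < x ∨ x < a) →
    1 - P x a b c = B x a c * ∫ y in Ioo b c, kr s y a * kr s y c * kr s y x ∂ρ

/-- Averages of a continuous function against a positive weight on shrinking sets. -/
lemma tendsto_ratio {ρ : Measure ℝ} {w φ : ℝ → ℝ} {c : ℝ} {S : ℝ → Set ℝ} {l : Filter ℝ}
    (hS : ∀ᶠ x in l, MeasurableSet (S x))
    (hsmall : ∀ ε > 0, ∀ᶠ x in l, ∀ y ∈ S x, |φ y - φ c| ≤ ε)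
    (hw0 : ∀ᶠ x in l, ∀ y ∈ S x, 0 ≤ w y)
    (hw : ∀ᶠ x in l, IntegrableOn w (S x) ρ)
    (hwφ : ∀ᶠ x in l, IntegrableOn (fun y => w y * φ y) (S x) ρ)
    (hpos : ∀ᶠ x in l, 0 < ∫ y in S x, w y ∂ρ) :
    Tendsto (fun x => (∫ y in S x, w y * φ y ∂ρ) / (∫ y in S x, w y ∂ρ)) l (𝓝 (φ c)) := by
  rw [Metric.tendsto_nhds]
  intro ε hε
  filter_upwards [hS, hsmall (ε / 2) (half_pos hε), hw0, hw, hwφ, hpos] with x h1 h2 h3 h4 h5 h6
  rw [Real.dist_eq]
  have e1 : (∫ y in S x, w y * φ y ∂ρ) / (∫ y in S x, w y ∂ρ) - φ c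
      = (∫ y in S x, w y * (φ y - φ c) ∂ρ) / (∫ y in S x, w y ∂ρ) := by
    have : ∫ y in S x, w y * (φ y - φ c) ∂ρ
        = (∫ y in S x, w y * φ y ∂ρ) - φ c * ∫ y in S x, w y ∂ρ := by
      rw [← integral_const_mul, ← integral_sub h5 (h4.const_mul _)]
      congr 1
      funext y
      ring
    rw [this]
    field_simp
  rw [e1, abs_div, abs_of_pos h6, div_lt_iff₀ h6]
  have e2 : |∫ y in S x, w y * (φ y - φ c) ∂ρ| ≤ ∫ y in S x, w y * (ε / 2) ∂ρ := by
    rw [← Real.norm_eq_abs]
    apply norm_integral_le_of_norm_le (h4.mul_const _)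
    filter_upwards [ae_restrict_mem h1] with y hy
    rw [Real.norm_eq_abs, abs_mul, abs_of_nonneg (h3 y hy)]
    exact mul_le_mul_of_nonneg_left (h2 y hy) (h3 y hy)
  rw [integral_mul_const] at e2
  nlinarith [e2, h6, hε]

variable {ρ : Measure ℝ} {s : ℝ} {P : ℝ → ℝ → ℝ → ℝ → ℝ} {A : ℝ → ℝ → ℝ → ℝ}
    {B : ℝ → ℝ → ℝ → ℝ}

lemma FE.intA1 (h : FE ρ s P A B) {x a b c : ℝ} (hab : a < b) (hbc : b < c) (hx : c < x) :
    0 < ∫ y in Ioo c x, kr s y a * kr s y c * kr s y b ∂ρ := by
  have h1 := h.A1 x a b c hab hbc hx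
  have h2 := h.pos x a b c hab hbc (Or.inl hx)
  have h3 : 0 ≤ ∫ y in Ioo c x, kr s y a * kr s y c * kr s y b ∂ρ :=
    integral_nonneg fun y => mul_nonneg (mul_nonneg (kr_nonneg _ _ _) (kr_nonneg _ _ _)) (kr_nonneg _ _ _)
  rcases h3.lt_or_eq with h4 | h4
  · exact h4
  · rw [← h4] at h1
    simp at h1
    linarith

lemma FE.Apos (h : FE ρ s P A B) {a b c : ℝ} (hab : a < b) (hbc : b < c) : 0 < A a b c := by
  have h1 := h.A1 (c + 1) a b c hab hbc (by linarith)
  have h2 := h.pos (c + 1) a b c hab hbc (Or.inl (by linarith))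
  have h3 := h.intA1 hab hbc (x := c + 1) (by linarith)
  rw [h1] at h2
  exact (pos_iff_pos_of_mul_pos h2).2 h3

lemma FE.intA2 (h : FE ρ s P A B) {x a b c : ℝ} (hab : a < b) (hbc : b < c) (hx : x < a) :
    0 < ∫ y in Ioo x a, kr s y a * kr s y c * kr s y b ∂ρ := by
  have h1 := h.A2 x a b c hab hbc hx
  have h2 := h.lt_one x a b c hab hbc (Or.inr hx)
  have h3 : 0 ≤ ∫ y in Ioo x a, kr s y a * kr s y c * kr s y b ∂ρ :=
    integral_nonneg fun y => mul_nonneg (mul_nonneg (kr_nonneg _ _ _) (kr_nonneg _ _ _)) (kr_nonneg _ _ _)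
  rcases h3.lt_or_eq with h4 | h4
  · exact h4
  · rw [← h4] at h1
    simp at h1
    linarith

lemma FE.intB1 (h : FE ρ s P A B) {x a b c : ℝ} (hab : a < b) (hbc : b < c) (hx : c < x ∨ x < a) :
    0 < ∫ y in Ioo a b, kr s y a * kr s y c * kr s y x ∂ρ := by
  have h1 := h.B1 x a b c hab hbc hx
  have h2 := h.pos x a b c hab hbc hx
  have h3 : 0 ≤ ∫ y in Ioo a b, kr s y a * kr s y c * kr s y x ∂ρ :=
    integral_nonneg fun y => mul_nonneg (mul_nonneg (kr_nonneg _ _ _) (kr_nonneg _ _ _)) (kr_nonneg _ _ _)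
  rcases h3.lt_or_eq with h4 | h4
  · exact h4
  · rw [← h4] at h1
    simp at h1
    linarith

lemma FE.intB2 (h : FE ρ s P A B) {x a b c : ℝ} (hab : a < b) (hbc : b < c) (hx : c < x ∨ x < a) :
    0 < ∫ y in Ioo b c, kr s y a * kr s y c * kr s y x ∂ρ := by
  have h1 := h.B2 x a b c hab hbc hx
  have h2 := h.lt_one x a b c hab hbc hx
  have h3 : 0 ≤ ∫ y in Ioo b c, kr s y a * kr s y c * kr s y x ∂ρ :=
    integral_nonneg fun y => mul_nonneg (mul_nonneg (kr_nonneg _ _ _) (kr_nonneg _ _ _)) (kr_nonneg _ _ _)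
  rcases h3.lt_or_eq with h4 | h4
  · exact h4
  · rw [← h4] at h1
    simp at h1
    linarith

lemma FE.Bpos (h : FE ρ s P A B) {x a c : ℝ} (hac : a < c) (hx : c < x ∨ x < a) : 0 < B x a c := by
  have hm1 : a < (a + c) / 2 := by linarith
  have hm2 : (a + c) / 2 < c := by linarith
  have h1 := h.B1 x a ((a + c) / 2) c hm1 hm2 hx
  have h2 := h.pos x a ((a + c) / 2) c hm1 hm2 hx
  have h3 := h.intB1 hm1 hm2 hx
  rw [h1] at h2
  exact (pos_iff_pos_of_mul_pos h2).2 h3

/-- integrability from positivity of the Bochner integral -/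
lemma integrableOn_of_pos {S : Set ℝ} {g : ℝ → ℝ} (h : 0 < ∫ y in S, g y ∂ρ) : IntegrableOn g S ρ := by
  by_contra hn
  have : ∫ y in S, g y ∂ρ = 0 := integral_undef hn
  linarith

lemma integrableOn_of_mul_kr {S : Set ℝ} (hS : MeasurableSet S) {p q x : ℝ} (hSpq : S ⊆ Icc p q)
    (hx : x ∉ Icc p q) {w : ℝ → ℝ} (h : IntegrableOn (fun y => w y * kr s y x) S ρ) :
    IntegrableOn w S ρ := by
  have hne : ∀ y ∈ Icc p q, y ≠ x := fun y hy e => hx (e ▸ hy)
  have hc : ContinuousOn (fun y => (kr s y x)⁻¹) (Icc p q) := fun y hy =>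
    ((kr_contAt (hne y hy)).inv₀ (kr_pos (hne y hy)).ne').continuousWithinAt
  have h2 := h.mul_continuousOn_of_subset hc hS isCompact_Icc hSpq
  refine h2.congr_fun ?_ hS
  intro y hy
  have := (kr_pos (s := s) (hne y (hSpq hy))).ne'
  simp only
  field_simp

lemma tendsto_int_kr {S : Set ℝ} (hS : MeasurableSet S) {p q x0 : ℝ} (hSpq : S ⊆ Icc p q)
    (hx : x0 ∉ Icc p q) {w : ℝ → ℝ} (hw : IntegrableOn w S ρ) :
    Tendsto (fun x => ∫ y in S, w y * kr s y x ∂ρ) (𝓝 x0) (𝓝 (∫ y in S, w y * kr s y x0 ∂ρ)) := by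
  obtain ⟨δ, hδ, hball⟩ := Metric.isOpen_iff.1 (isClosed_Icc (a := p) (b := q)).isOpen_compl x0 hx
  have hne : ∀ y ∈ Icc p q, ∀ x ∈ Metric.closedBall x0 (δ / 2), y ≠ x := by
    intro y hy x hx' e
    have : x ∈ Metric.ball x0 δ := Metric.closedBall_subset_ball (by linarith) hx'
    exact hball this (e ▸ hy)
  have hcont : ContinuousOn (fun z : ℝ × ℝ => kr s z.1 z.2)
      (Icc p q ×ˢ Metric.closedBall x0 (δ / 2)) := by
    intro z hz
    have h1 := hne z.1 hz.1 z.2 hz.2
    unfold kr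
    apply ContinuousAt.continuousWithinAt
    apply ContinuousAt.rpow_const
    · fun_prop
    · left
      exact (abs_pos.2 (sub_ne_zero.2 h1)).ne'
  obtain ⟨C, hC⟩ := (isCompact_Icc.prod (isCompact_closedBall x0 (δ / 2))).exists_bound_of_continuousOn hcont
  have hev : ∀ᶠ x in 𝓝 x0, x ∈ Metric.closedBall x0 (δ / 2) :=
    Metric.closedBall_mem_nhds x0 (half_pos hδ)
  apply tendsto_integral_filter_of_dominated_convergence (fun y => ‖w y‖ * C)
  · exact Eventually.of_forall fun x => hw.aestronglyMeasurable.mul (kr_meas s x).aestronglyMeasurable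
  · filter_upwards [hev] with x hx'
    filter_upwards [ae_restrict_mem hS] with y hy
    rw [norm_mul]
    exact mul_le_mul_of_nonneg_left (hC (y, x) ⟨hSpq hy, hx'⟩) (norm_nonneg _)
  · exact hw.norm.mul_const C
  · filter_upwards [ae_restrict_mem hS] with y hy
    have : y ≠ x0 := fun e => hx (e ▸ hSpq hy)
    exact (kr_contAt' this).tendsto.const_mul _

/-- the weight of the left part `(a,t)` seen from `c` -/
noncomputable def GG (ρ : Measure ℝ) (s a c t : ℝ) : ℝ :=
  ∫ y in Ioo a t, kr s y a * kr s y c * kr s y c ∂ρ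

/-- the weight of the right part `(t,c)` seen from `a` -/
noncomputable def HH (ρ : Measure ℝ) (s a c t : ℝ) : ℝ :=
  ∫ y in Ioo t c, kr s y a * kr s y c * kr s y a ∂ρ

lemma FE.intw1 (h : FE ρ s P A B) {a t c : ℝ} (hat : a < t) (htc : t < c) :
    IntegrableOn (fun y => kr s y a * kr s y c) (Ioo a t) ρ := by
  have h1 := integrableOn_of_pos (h.intB1 hat htc (x := c + 1) (Or.inl (by linarith)))
  exact integrableOn_of_mul_kr measurableSet_Ioo (Ioo_subset_Icc_self)
    (by simp only [mem_Icc, not_and, not_le]; intro _; linarith) h1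

lemma FE.intw2 (h : FE ρ s P A B) {a t c : ℝ} (hat : a < t) (htc : t < c) :
    IntegrableOn (fun y => kr s y a * kr s y c) (Ioo t c) ρ := by
  have h1 := integrableOn_of_pos (h.intB2 hat htc (x := a - 1) (Or.inr (by linarith)))
  exact integrableOn_of_mul_kr measurableSet_Ioo (Ioo_subset_Icc_self)
    (by simp only [mem_Icc, not_and, not_le]; intro h3; linarith) h1

lemma FE.intG (h : FE ρ s P A B) {a t c : ℝ} (hat : a < t) (htc : t < c) :
    IntegrableOn (fun y => kr s y a * kr s y c * kr s y c) (Ioo a t) ρ := by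
  have hc : ContinuousOn (fun y => kr s y c) (Icc a t) := fun y hy =>
    (kr_contAt (by have := hy.2; exact (by linarith : y < c).ne)).continuousWithinAt
  exact (h.intw1 hat htc).mul_continuousOn_of_subset hc measurableSet_Ioo isCompact_Icc
    Ioo_subset_Icc_self

lemma FE.intH (h : FE ρ s P A B) {a t c : ℝ} (hat : a < t) (htc : t < c) :
    IntegrableOn (fun y => kr s y a * kr s y c * kr s y a) (Ioo t c) ρ := by
  have hc : ContinuousOn (fun y => kr s y a) (Icc t c) := fun y hy =>
    (kr_contAt (by have := hy.1; exact (by linarith : a < y).ne')).continuousWithinAt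
  exact (h.intw2 hat htc).mul_continuousOn_of_subset hc measurableSet_Ioo isCompact_Icc
    Ioo_subset_Icc_self

/-- a positive function has positive integral as soon as another one has -/
lemma pos_of_pos {S : Set ℝ} (hS : MeasurableSet S) {g g' : ℝ → ℝ}
    (hg : 0 < ∫ y in S, g y ∂ρ) (hg' : IntegrableOn g' S ρ) (h0 : ∀ y ∈ S, 0 < g' y) :
    0 < ∫ y in S, g' y ∂ρ := by
  have h1 : 0 ≤ ∫ y in S, g' y ∂ρ := setIntegral_nonneg hS fun y hy => (h0 y hy).le
  rcases h1.lt_or_eq with h2 | h2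
  · exact h2
  · exfalso
    have h3 : ρ (Function.support g' ∩ S) = 0 := by
      by_contra h4
      have := (setIntegral_pos_iff_support_of_nonneg_ae
        ((ae_restrict_iff' hS).2 (Eventually.of_forall fun y hy => (h0 y hy).le)) hg').2
        (pos_iff_ne_zero.2 h4)
      linarith
    have h4 : Function.support g' ∩ S = S := by
      apply inter_eq_right.2
      intro y hy
      exact (h0 y hy).ne'
    rw [h4] at h3
    have : ∫ y in S, g y ∂ρ = 0 := by
      rw [Measure.restrict_eq_zero.2 h3]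
      simp
    linarith

lemma FE.GGpos (h : FE ρ s P A B) {a t c : ℝ} (hat : a < t) (htc : t < c) : 0 < GG ρ s a c t := by
  refine pos_of_pos measurableSet_Ioo (h.intB1 hat htc (x := c + 1) (Or.inl (by linarith)))
    (h.intG hat htc) ?_
  intro y hy
  have h1 : y ≠ a := hy.1.ne'
  have h2 : y ≠ c := (hy.2.trans htc).ne
  exact mul_pos (mul_pos (kr_pos h1) (kr_pos h2)) (kr_pos h2)

lemma FE.HHpos (h : FE ρ s P A B) {a t c : ℝ} (hat : a < t) (htc : t < c) : 0 < HH ρ s a c t := by
  refine pos_of_pos measurableSet_Ioo (h.intB2 hat htc (x := a - 1) (Or.inr (by linarith)))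
    (h.intH hat htc) ?_
  intro y hy
  have h1 : y ≠ a := (hat.trans hy.1).ne'
  have h2 : y ≠ c := hy.2.ne
  exact mul_pos (mul_pos (kr_pos h1) (kr_pos h2)) (kr_pos h1)

lemma FE.limB (h : FE ρ s P A B) {a t t0 c : ℝ} (hat : a < t) (htc : t < c) (hat0 : a < t0)
    (htc0 : t0 < c) :
    Tendsto (fun x => P x a t c / P x a t0 c) (𝓝[>] c) (𝓝 (GG ρ s a c t / GG ρ s a c t0)) := by
  have h1 : ∀ u, a < u → u < c → Tendsto (fun x => ∫ y in Ioo a u, kr s y a * kr s y c * kr s y x ∂ρ)
      (𝓝[>] c) (𝓝 (GG ρ s a c u)) := by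
    intro u hau huc
    exact (tendsto_int_kr measurableSet_Ioo (Ioo_subset_Icc_self) (x0 := c)
      (by simp only [mem_Icc, not_and, not_le]; intro _; exact huc) (h.intw1 hau huc)).mono_left
      nhdsWithin_le_nhds
  refine ((h1 t hat htc).div (h1 t0 hat0 htc0) (h.GGpos hat0 htc0).ne').congr' ?_
  filter_upwards [self_mem_nhdsWithin] with x hx
  have hx' : c < x := hx
  have hB := h.Bpos (hat.trans htc) (Or.inl hx')
  rw [h.B1 x a t c hat htc (Or.inl hx'), h.B1 x a t0 c hat0 htc0 (Or.inl hx')]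
  rw [mul_div_mul_left _ _ hB.ne']
  rfl

lemma FE.limB' (h : FE ρ s P A B) {a t t0 c : ℝ} (hat : a < t) (htc : t < c) (hat0 : a < t0)
    (htc0 : t0 < c) :
    Tendsto (fun x => (1 - P x a t c) / (1 - P x a t0 c)) (𝓝[<] a)
      (𝓝 (HH ρ s a c t / HH ρ s a c t0)) := by
  have h1 : ∀ u, a < u → u < c → Tendsto (fun x => ∫ y in Ioo u c, kr s y a * kr s y c * kr s y x ∂ρ)
      (𝓝[<] a) (𝓝 (HH ρ s a c u)) := by
    intro u hau huc
    exact (tendsto_int_kr measurableSet_Ioo (Ioo_subset_Icc_self) (x0 := a)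
      (by simp only [mem_Icc, not_and, not_le]; intro h3; linarith) (h.intw2 hau huc)).mono_left
      nhdsWithin_le_nhds
  refine ((h1 t hat htc).div (h1 t0 hat0 htc0) (h.HHpos hat0 htc0).ne').congr' ?_
  filter_upwards [self_mem_nhdsWithin] with x hx
  have hx' : x < a := hx
  have hB := h.Bpos (hat.trans htc) (Or.inr hx')
  rw [h.B2 x a t c hat htc (Or.inr hx'), h.B2 x a t0 c hat0 htc0 (Or.inr hx')]
  rw [mul_div_mul_left _ _ hB.ne']
  rfl

/-- the ratio of two kernels tends to its value, uniformly on small one sided intervals -/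
lemma kr_small {t t0 c : ℝ} (h1 : c ≠ t) (h2 : c ≠ t0) {ε : ℝ} (hε : 0 < ε) :
    ∃ δ > 0, ∀ y, |y - c| < δ → |kr s y t / kr s y t0 - kr s c t / kr s c t0| ≤ ε := by
  have hc : ContinuousAt (fun y => kr s y t / kr s y t0) c :=
    (kr_contAt h1).div (kr_contAt h2) (kr_pos h2).ne'
  obtain ⟨δ, hδ, hδ2⟩ := Metric.continuousAt_iff.1 hc ε hε
  refine ⟨δ, hδ, fun y hy => ?_⟩
  have := hδ2 (x := y) (by rwa [Real.dist_eq])
  rw [Real.dist_eq] at this
  exact this.le

lemma FE.limA (h : FE ρ s P A B) {a t t0 c : ℝ} (hat : a < t) (htc : t < c) (hat0 : a < t0)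
    (htc0 : t0 < c) :
    Tendsto (fun x => P x a t c / P x a t0 c) (𝓝[>] c)
      (𝓝 (A a t c / A a t0 c * (kr s c t / kr s c t0))) := by
  have key := tendsto_ratio (ρ := ρ) (w := fun y => kr s y a * kr s y c * kr s y t0)
    (φ := fun y => kr s y t / kr s y t0) (c := c) (S := fun x => Ioo c x) (l := 𝓝[>] c)
    (Eventually.of_forall fun x => measurableSet_Ioo) ?_ ?_ ?_ ?_ ?_
  · refine (key.const_mul (A a t c / A a t0 c)).congr' ?_
    filter_upwards [self_mem_nhdsWithin] with x hx
    have hx' : c < x := hx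
    rw [h.A1 x a t c hat htc hx', h.A1 x a t0 c hat0 htc0 hx']
    have e : ∫ y in Ioo c x, kr s y a * kr s y c * kr s y t0 * (kr s y t / kr s y t0) ∂ρ
        = ∫ y in Ioo c x, kr s y a * kr s y c * kr s y t ∂ρ := by
      apply setIntegral_congr_fun measurableSet_Ioo
      intro y hy
      have hy0 : y ≠ t0 := (htc0.trans hy.1).ne'
      have := (kr_pos (s := s) hy0).ne'
      simp only
      field_simp
    rw [e, div_mul_div_comm]
  · intro ε hε
    obtain ⟨δ, hδ, hδ2⟩ := kr_small (s := s) htc.ne' htc0.ne' hε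
    have : Iio (c + δ) ∈ 𝓝[>] c := nhdsWithin_le_nhds (Iio_mem_nhds (by linarith))
    filter_upwards [this] with x hx y hy
    apply hδ2
    have h1 := hy.1
    have h2 := hy.2
    have h3 : x < c + δ := hx
    rw [abs_of_pos (by linarith)]
    linarith
  · exact Eventually.of_forall fun x y _ =>
      mul_nonneg (mul_nonneg (kr_nonneg _ _ _) (kr_nonneg _ _ _)) (kr_nonneg _ _ _)
  · filter_upwards [self_mem_nhdsWithin] with x hx
    exact integrableOn_of_pos (h.intA1 hat0 htc0 hx)
  · filter_upwards [self_mem_nhdsWithin] with x hx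
    have hx' : c < x := hx
    refine (integrableOn_of_pos (h.intA1 hat htc hx')).congr_fun ?_ measurableSet_Ioo
    intro y hy
    have hy0 : y ≠ t0 := (htc0.trans hy.1).ne'
    have := (kr_pos (s := s) hy0).ne'
    simp only
    field_simp
  · filter_upwards [self_mem_nhdsWithin] with x hx
    exact h.intA1 hat0 htc0 hx

lemma FE.limA' (h : FE ρ s P A B) {a t t0 c : ℝ} (hat : a < t) (htc : t < c) (hat0 : a < t0)
    (htc0 : t0 < c) :
    Tendsto (fun x => (1 - P x a t c) / (1 - P x a t0 c)) (𝓝[<] a)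
      (𝓝 (A a t c / A a t0 c * (kr s a t / kr s a t0))) := by
  have key := tendsto_ratio (ρ := ρ) (w := fun y => kr s y a * kr s y c * kr s y t0)
    (φ := fun y => kr s y t / kr s y t0) (c := a) (S := fun x => Ioo x a) (l := 𝓝[<] a)
    (Eventually.of_forall fun x => measurableSet_Ioo) ?_ ?_ ?_ ?_ ?_
  · refine (key.const_mul (A a t c / A a t0 c)).congr' ?_
    filter_upwards [self_mem_nhdsWithin] with x hx
    have hx' : x < a := hx
    rw [h.A2 x a t c hat htc hx', h.A2 x a t0 c hat0 htc0 hx']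
    have e : ∫ y in Ioo x a, kr s y a * kr s y c * kr s y t0 * (kr s y t / kr s y t0) ∂ρ
        = ∫ y in Ioo x a, kr s y a * kr s y c * kr s y t ∂ρ := by
      apply setIntegral_congr_fun measurableSet_Ioo
      intro y hy
      have hy0 : y ≠ t0 := (hy.2.trans hat0).ne
      have := (kr_pos (s := s) hy0).ne'
      simp only
      field_simp
    rw [e, div_mul_div_comm]
  · intro ε hε
    obtain ⟨δ, hδ, hδ2⟩ := kr_small (s := s) hat.ne hat0.ne hε
    have : Ioi (a - δ) ∈ 𝓝[<] a := nhdsWithin_le_nhds (Ioi_mem_nhds (by linarith))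
    filter_upwards [this] with x hx y hy
    apply hδ2
    have h1 := hy.1
    have h2 := hy.2
    have h3 : a - δ < x := hx
    rw [abs_of_neg (by linarith)]
    linarith
  · exact Eventually.of_forall fun x y _ =>
      mul_nonneg (mul_nonneg (kr_nonneg _ _ _) (kr_nonneg _ _ _)) (kr_nonneg _ _ _)
  · filter_upwards [self_mem_nhdsWithin] with x hx
    exact integrableOn_of_pos (h.intA2 hat0 htc0 hx)
  · filter_upwards [self_mem_nhdsWithin] with x hx
    have hx' : x < a := hx
    refine (integrableOn_of_pos (h.intA2 hat htc hx')).congr_fun ?_ measurableSet_Ioo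
    intro y hy
    have hy0 : y ≠ t0 := (hy.2.trans hat0).ne
    have := (kr_pos (s := s) hy0).ne'
    simp only
    field_simp
  · filter_upwards [self_mem_nhdsWithin] with x hx
    exact h.intA2 hat0 htc0 hx

/-- Combination of the two sides: `X * k` and `Y` are proportional. -/
lemma FE.exists_kappa (h : FE ρ s P A B) {a c : ℝ} (hac : a < c) :
    ∃ κ : ℝ, 0 < κ ∧ ∀ t, a < t → t < c →
      HH ρ s a c t = κ * GG ρ s a c t * (kr s t a / kr s t c) := by
  set t0 := (a + c) / 2 with ht0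
  have h01 : a < t0 := by rw [ht0]; linarith
  have h02 : t0 < c := by rw [ht0]; linarith
  have hk1 := kr_pos (s := s) h01.ne'
  have hk2 := kr_pos (s := s) h02.ne
  have hG0 := h.GGpos h01 h02
  have hH0 := h.HHpos h01 h02
  refine ⟨HH ρ s a c t0 / GG ρ s a c t0 * (kr s t0 c / kr s t0 a), by positivity, ?_⟩
  intro t hat htc
  have e1 := tendsto_nhds_unique (h.limA hat htc h01 h02) (h.limB hat htc h01 h02)
  have e2 := tendsto_nhds_unique (h.limA' hat htc h01 h02) (h.limB' hat htc h01 h02)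
  have hkt1 := kr_pos (s := s) hat.ne'
  have hkt2 := kr_pos (s := s) htc.ne
  have hA := h.Apos hat htc
  have hA0 := h.Apos h01 h02
  rw [kr_comm s c t, kr_comm s c t0] at e1
  rw [kr_comm s a t, kr_comm s a t0] at e2
  have hG := h.GGpos hat htc
  have hH := h.HHpos hat htc
  have e3 : GG ρ s a c t = A a t c / A a t0 c * (kr s t c / kr s t0 c) * GG ρ s a c t0 := by
    rw [e1]; field_simp
  have e4 : HH ρ s a c t = A a t c / A a t0 c * (kr s t a / kr s t0 a) * HH ρ s a c t0 := by
    rw [e2]; field_simp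
  rw [e3, e4]
  field_simp

/-! ### Differentiability -/

lemma slope_core {F G m : ℝ → ℝ} {m0 G' t : ℝ} (hm : Tendsto m (𝓝 t) (𝓝 m0)) (hm0 : m0 ≠ 0)
    (hG : HasDerivAt G G' t)
    (happ : ∀ ε > 0, ∀ᶠ z in 𝓝 t, |(F z - F t) * m z - (G z - G t)| ≤ ε * |F z - F t|) :
    HasDerivAt F (G' / m0) t := by
  classical
  set e : ℝ → ℝ := fun z => if F z = F t then 0 else
    -((F z - F t) * m z - (G z - G t)) / (F z - F t) with he
  have he0 : Tendsto e (𝓝 t) (𝓝 0) := by
    rw [Metric.tendsto_nhds]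
    intro ε hε
    filter_upwards [happ (ε / 2) (half_pos hε)] with z hz
    rw [Real.dist_eq, sub_zero, he]
    simp only
    split_ifs with h1
    · simpa using hε
    · have h2 : 0 < |F z - F t| := abs_pos.2 (sub_ne_zero.2 h1)
      rw [abs_div, abs_neg, div_lt_iff₀ h2]
      nlinarith
  have hden : Tendsto (fun z => m z + e z) (𝓝[≠] t) (𝓝 m0) := by
    have := (hm.add he0).mono_left (nhdsWithin_le_nhds (s := {t}ᶜ))
    simpa using this
  have hne : ∀ᶠ z in 𝓝[≠] t, m z + e z ≠ 0 := hden.eventually_ne hm0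
  rw [hasDerivAt_iff_tendsto_slope] at hG ⊢
  refine (hG.div hden hm0).congr' ?_
  filter_upwards [hne, self_mem_nhdsWithin, nhdsWithin_le_nhds (happ 1 one_pos)] with z hz hzt h1
  have hzt' : z - t ≠ 0 := sub_ne_zero.2 hzt
  have key : (F z - F t) * (m z + e z) = G z - G t := by
    by_cases h2 : F z = F t
    · rw [h2] at h1 ⊢
      simp only [sub_self, zero_mul, zero_sub, abs_neg, abs_zero, mul_zero] at h1 ⊢
      exact (abs_eq_zero.1 (le_antisymm h1 (abs_nonneg _))).symm
    · have h3 : F z - F t ≠ 0 := sub_ne_zero.2 h2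
      rw [he]
      simp only [h2, if_false]
      field_simp
      ring
  show slope G t z / (m z + e z) = slope F t z
  rw [slope_def_field, slope_def_field, ← key]
  field_simp

lemma kr_hasDeriv {s y a : ℝ} (h : y ≠ a) :
    HasDerivAt (fun y => kr s y a) (kr s y a * (-2 * s / (y - a))) y := by
  have hya : y - a ≠ 0 := sub_ne_zero.2 h
  have h1 : HasDerivAt (fun y => Real.exp (Real.log (y - a) * (-2 * s)))
      (Real.exp (Real.log (y - a) * (-2 * s)) * ((y - a)⁻¹ * 1 * (-2 * s))) y := by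
    have h2 : HasDerivAt (fun y => y - a) 1 y := (hasDerivAt_id y).sub_const a
    have h3 := ((Real.hasDerivAt_log hya).comp y h2).mul_const (-2 * s)
    exact h3.exp
  have e : ∀ z, z ≠ a → kr s z a = Real.exp (Real.log (z - a) * (-2 * s)) := by
    intro z hz
    unfold kr
    rw [Real.rpow_def_of_pos (abs_pos.2 (sub_ne_zero.2 hz)), Real.log_abs]
  have h4 : HasDerivAt (fun y => kr s y a)
      (Real.exp (Real.log (y - a) * (-2 * s)) * ((y - a)⁻¹ * 1 * (-2 * s))) y := by
    refine h1.congr_of_eventuallyEq ?_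
    filter_upwards [isOpen_ne.mem_nhds h] with z hz
    exact e z hz
  convert h4 using 1
  rw [e y h]
  field_simp

section deriv

variable [NullSingletonClass ρ]

lemma Ioo_split {g : ℝ → ℝ} {a u v : ℝ} (hau : a ≤ u) (huv : u < v)
    (hi : IntegrableOn g (Ioo a v) ρ) :
    ∫ y in Ioo a v, g y ∂ρ = (∫ y in Ioo a u, g y ∂ρ) + ∫ y in Ioo u v, g y ∂ρ := by
  rw [← integral_Ioc_eq_integral_Ioo (y := u)]
  rw [← setIntegral_union (Set.disjoint_left.2 fun z h1 h2 => absurd h2.1 (not_lt.2 h1.2))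
    measurableSet_Ioo (hi.mono_set fun z hz => ⟨hz.1, hz.2.trans_lt huv⟩)
    (hi.mono_set fun z hz => ⟨hau.trans_lt hz.1, hz.2⟩)]
  rw [Ioc_union_Ioo_eq_Ioo hau huv]

lemma Ioo_split' {g : ℝ → ℝ} {u v c : ℝ} (huv : u < v) (hvc : v ≤ c)
    (hi : IntegrableOn g (Ioo u c) ρ) :
    ∫ y in Ioo u c, g y ∂ρ = (∫ y in Ioo u v, g y ∂ρ) + ∫ y in Ioo v c, g y ∂ρ := by
  rcases hvc.lt_or_eq with h | h
  · exact Ioo_split huv.le h hi
  · subst h
    simp

lemma FE.X_sub (h : FE ρ s P A B) {a u v c : ℝ} (hau : a < u) (huv : u < v) (hvc : v < c) :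
    GG ρ s a c v - GG ρ s a c u = ∫ y in Ioo u v, kr s y a * kr s y c * kr s y c ∂ρ := by
  have := Ioo_split hau.le huv (h.intG (hau.trans huv) hvc)
  unfold GG
  linarith

lemma FE.Y_sub (h : FE ρ s P A B) {a u v c : ℝ} (hau : a < u) (huv : u < v) (hvc : v < c) :
    HH ρ s a c u - HH ρ s a c v = ∫ y in Ioo u v, kr s y a * kr s y c * kr s y a ∂ρ := by
  have := Ioo_split' huv hvc.le (h.intH hau (huv.trans hvc))
  unfold HH
  linarith

omit [NullSingletonClass ρ] in
lemma approx_core {F G f g : ℝ → ℝ} {t lo hi : ℝ} (hlo : lo < t) (hhi : t < hi)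
    (hF : ∀ u v, lo < u → u < v → v < hi → F v - F u = ∫ y in Ioo u v, f y ∂ρ)
    (hG : ∀ u v, lo < u → u < v → v < hi → G v - G u = ∫ y in Ioo u v, f y * g y ∂ρ)
    (hf0 : ∀ y, lo < y → y < hi → 0 ≤ f y)
    (hfi : ∀ u v, lo < u → u < v → v < hi → IntegrableOn f (Ioo u v) ρ)
    (hfgi : ∀ u v, lo < u → u < v → v < hi → IntegrableOn (fun y => f y * g y) (Ioo u v) ρ)
    (hgc : ContinuousAt g t) :
    ∀ ε > 0, ∀ᶠ z in 𝓝 t, |(F z - F t) * g t - (G z - G t)| ≤ ε * |F z - F t| := by
  intro ε hε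
  obtain ⟨δ, hδ, hδ2⟩ := Metric.continuousAt_iff.1 hgc ε hε
  have key : ∀ u v, lo < u → u < v → v < hi → (∀ y ∈ Ioo u v, |y - t| < δ) →
      |(F v - F u) * g t - (G v - G u)| ≤ ε * |F v - F u| := by
    intro u v hu huv hv hy
    have h1 := hfi u v hu huv hv
    have h2 := hfgi u v hu huv hv
    have h0 : 0 ≤ ∫ y in Ioo u v, f y ∂ρ := setIntegral_nonneg measurableSet_Ioo fun y hy =>
      hf0 y (hu.trans hy.1) (hy.2.trans hv)
    rw [hF u v hu huv hv, hG u v hu huv hv, abs_of_nonneg h0]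
    have e : (∫ y in Ioo u v, f y ∂ρ) * g t - ∫ y in Ioo u v, f y * g y ∂ρ
        = ∫ y in Ioo u v, f y * (g t - g y) ∂ρ := by
      rw [← integral_mul_const, ← integral_sub (h1.mul_const _) h2]
      congr 1
      funext y
      ring
    rw [e, ← integral_const_mul, ← Real.norm_eq_abs]
    apply norm_integral_le_of_norm_le (h1.const_mul _)
    filter_upwards [ae_restrict_mem measurableSet_Ioo] with y hy1
    rw [Real.norm_eq_abs, abs_mul, abs_of_nonneg (hf0 y (hu.trans hy1.1) (hy1.2.trans hv)), mul_comm]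
    apply mul_le_mul_of_nonneg_right _ (hf0 y (hu.trans hy1.1) (hy1.2.trans hv))
    have := hδ2 (x := y) (by rw [Real.dist_eq]; exact hy y hy1)
    rw [Real.dist_eq, abs_sub_comm] at this
    exact this.le
  have e1 : ∀ᶠ z in 𝓝 t, z ∈ Metric.ball t δ := Metric.ball_mem_nhds t hδ
  filter_upwards [e1, Ioo_mem_nhds hlo hhi] with z h1 h2
  rw [Metric.mem_ball, Real.dist_eq] at h1
  have h1' := abs_lt.1 h1
  rcases lt_trichotomy z t with h3 | h3 | h3
  · have := key z t h2.1 h3 hhi (by
      intro y hy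
      rw [abs_lt]
      constructor
      · linarith [hy.1, hy.2]
      · linarith [hy.1, hy.2])
    rw [abs_sub_comm (F z) (F t)]
    rw [← abs_neg]
    convert this using 2
    ring
  · subst h3
    simp
  · exact key t z hlo h3 h2.2 (by
      intro y hy
      rw [abs_lt]
      constructor
      · linarith [hy.1, hy.2]
      · linarith [hy.1, hy.2])

lemma FE.hasDeriv_GG (h : FE ρ s P A B) {a c κ : ℝ} (hκ : 0 < κ)
    (hrel : ∀ t, a < t → t < c → HH ρ s a c t = κ * GG ρ s a c t * (kr s t a / kr s t c))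
    {t : ℝ} (hat : a < t) (htc : t < c) :
    HasDerivAt (GG ρ s a c)
      (κ / (1 + κ) * GG ρ s a c t * (2 * s * (1 / (t - a) + 1 / (c - t)))) t := by
  set k : ℝ → ℝ := fun y => kr s y a / kr s y c with hk
  have hka := kr_pos (s := s) hat.ne'
  have hkc := kr_pos (s := s) htc.ne
  have hkt : 0 < k t := div_pos hka hkc
  have hta : t - a ≠ 0 := (sub_pos.2 hat).ne'
  have htc' : t - c ≠ 0 := (sub_neg.2 htc).ne
  have hct' : c - t ≠ 0 := (sub_pos.2 htc).ne'
  have hkd : HasDerivAt k (k t * (-2 * s * (1 / (t - a) + 1 / (c - t)))) t := by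
    have h1 : HasDerivAt k _ t :=
      (kr_hasDeriv (s := s) hat.ne').div (kr_hasDeriv (s := s) htc.ne) hkc.ne'
    refine h1.congr_deriv ?_
    have h2 : k t = kr s t a / kr s t c := rfl
    have h3 : c - t = -(t - c) := by ring
    rw [h2, h3]
    field_simp
    ring
  have hapx := approx_core (ρ := ρ) (F := GG ρ s a c) (G := fun z => -HH ρ s a c z)
    (f := fun y => kr s y a * kr s y c * kr s y c) (g := k) hat htc
    (fun u v hu huv hv => h.X_sub hu huv hv)
    (by
      intro u v hu huv hv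
      have h1 := h.Y_sub hu huv hv
      have h2 : ∫ y in Ioo u v, kr s y a * kr s y c * kr s y c * k y ∂ρ
          = ∫ y in Ioo u v, kr s y a * kr s y c * kr s y a ∂ρ := by
        apply setIntegral_congr_fun measurableSet_Ioo
        intro y hy
        have := (kr_pos (s := s) (hy.2.trans hv).ne).ne'
        simp only [hk]
        field_simp
      rw [h2, ← h1]
      ring)
    (fun y _ _ => mul_nonneg (mul_nonneg (kr_nonneg _ _ _) (kr_nonneg _ _ _)) (kr_nonneg _ _ _))
    (fun u v hu huv hv => (h.intG (hu.trans huv) hv).mono_set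
      fun y hy => ⟨hu.trans hy.1, hy.2⟩)
    (by
      intro u v hu huv hv
      refine ((h.intH hu (huv.trans hv)).mono_set
        (fun y hy => ⟨hy.1, hy.2.trans hv⟩ : Ioo u v ⊆ Ioo u c)).congr_fun ?_ measurableSet_Ioo
      intro y hy
      have := (kr_pos (s := s) (hy.2.trans hv).ne).ne'
      simp only [hk]
      field_simp)
    hkd.continuousAt
  have hm : Tendsto (fun z => κ * k z + k t) (𝓝 t) (𝓝 (κ * k t + k t)) :=
    (hkd.continuousAt.tendsto.const_mul κ).add_const _
  have hm0 : κ * k t + k t ≠ 0 := by positivity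
  have hGd : HasDerivAt (fun z => -(κ * GG ρ s a c t * k z))
      (-(κ * GG ρ s a c t * (k t * (-2 * s * (1 / (t - a) + 1 / (c - t)))))) t :=
    (hkd.const_mul (κ * GG ρ s a c t)).neg
  have := slope_core (F := GG ρ s a c) hm hm0 hGd (by
    intro ε hε
    filter_upwards [hapx ε hε, Ioo_mem_nhds hat htc] with z h1 h2
    convert h1 using 2
    rw [hrel z h2.1 h2.2, hrel t hat htc]
    show _ = (GG ρ s a c z - GG ρ s a c t) * k t
      - (-(κ * GG ρ s a c z * k z) - -(κ * GG ρ s a c t * k t))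
    ring)
  refine this.congr_deriv ?_
  field_simp
  ring

/-- cumulative function of `ρ` -/
noncomputable def RR (ρ : Measure ℝ) (z : ℝ) : ℝ := ∫ _y in (0:ℝ)..z, (1:ℝ) ∂ρ

variable [IsLocallyFiniteMeasure ρ]

lemma RR_sub {u v : ℝ} (huv : u < v) : RR ρ v - RR ρ u = ∫ _y in Ioo u v, (1:ℝ) ∂ρ := by
  unfold RR
  rw [intervalIntegral.integral_interval_sub_left intervalIntegrable_const intervalIntegrable_const,
    intervalIntegral.integral_of_le huv.le, integral_Ioc_eq_integral_Ioo]

lemma RR_mono {u v : ℝ} (huv : u ≤ v) : RR ρ u ≤ RR ρ v := by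
  rcases huv.lt_or_eq with h | h
  · have := RR_sub (ρ := ρ) h
    have h2 : 0 ≤ ∫ _y in Ioo u v, (1:ℝ) ∂ρ := integral_nonneg fun _ => zero_le_one
    linarith
  · rw [h]

lemma FE.hasDeriv_RR (h : FE ρ s P A B) {a c X' : ℝ} {t : ℝ} (hat : a < t) (htc : t < c)
    (hX : HasDerivAt (GG ρ s a c) X' t) :
    HasDerivAt (RR ρ) (X' / (kr s t a * kr s t c * kr s t c)) t := by
  have hka := kr_pos (s := s) hat.ne'
  have hkc := kr_pos (s := s) htc.ne
  have hc : ContinuousAt (fun y => kr s y a * kr s y c * kr s y c) t :=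
    ((kr_contAt hat.ne').mul (kr_contAt htc.ne)).mul (kr_contAt htc.ne)
  have hapx := approx_core (ρ := ρ) (F := RR ρ) (G := GG ρ s a c)
    (f := fun _ => (1:ℝ)) (g := fun y => kr s y a * kr s y c * kr s y c) hat htc
    (fun u v _ huv _ => RR_sub huv)
    (by
      intro u v hu huv hv
      simp only [one_mul]
      exact h.X_sub hu huv hv)
    (fun y _ _ => zero_le_one)
    (fun u v _ huv _ => by
      refine (integrableOn_const (μ := ρ) (s := Icc u v) (C := (1:ℝ)) ?_).mono_set Ioo_subset_Icc_self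
      exact (isCompact_Icc.measure_lt_top).ne)
    (by
      intro u v hu huv hv
      simp only [one_mul]
      exact (h.intG (hu.trans huv) hv).mono_set fun y hy => ⟨hu.trans hy.1, hy.2⟩)
    hc
  exact slope_core (F := RR ρ) (m := fun _ => kr s t a * kr s t c * kr s t c)
    tendsto_const_nhds (by positivity) hX hapx

/-- closed form of the density on `(a,c)` -/
lemma FE.closed (h : FE ρ s P A B) {a c : ℝ} (hac : a < c) :
    ∃ K α γ : ℝ, α + γ = 6 * s - 2 ∧ ∀ t, a < t → t < c →
      HasDerivAt (RR ρ) (K * Real.exp (α * Real.log (t - a) + γ * Real.log (c - t))) t := by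
  obtain ⟨κ, hκ, hrel⟩ := h.exists_kappa hac
  set θ := κ / (1 + κ) with hθ
  set σ := 2 * s * θ with hσ
  set E : ℝ → ℝ := fun t => Real.exp (-σ * (Real.log (t - a) - Real.log (c - t))) with hE
  have hX : ∀ t, a < t → t < c → HasDerivAt (GG ρ s a c)
      (θ * GG ρ s a c t * (2 * s * (1 / (t - a) + 1 / (c - t)))) t :=
    fun t h1 h2 => h.hasDeriv_GG hκ hrel h1 h2
  have hEd : ∀ t, a < t → t < c → HasDerivAt E
      (E t * (-σ * (1 / (t - a) + 1 / (c - t)))) t := by
    intro t h1 h2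
    have hta : t - a ≠ 0 := (sub_pos.2 h1).ne'
    have hct : c - t ≠ 0 := (sub_pos.2 h2).ne'
    have g1 : HasDerivAt (fun t => Real.log (t - a)) (1 / (t - a)) t :=
      ((hasDerivAt_id t).sub_const a).log hta
    have g2 : HasDerivAt (fun t => Real.log (c - t)) (-1 / (c - t)) t :=
      ((hasDerivAt_id t).const_sub c).log hct
    have g3 : HasDerivAt E _ t := ((g1.sub g2).const_mul (-σ)).exp
    refine g3.congr_deriv ?_
    show E t * (-σ * (1 / (t - a) - -1 / (c - t))) = _
    ring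
  set W : ℝ → ℝ := fun t => GG ρ s a c t * E t with hW
  have hWd : ∀ t ∈ Ioo a c, HasDerivAt W 0 t := by
    intro t ht
    have := (hX t ht.1 ht.2).mul (hEd t ht.1 ht.2)
    refine this.congr_deriv ?_
    rw [hσ]
    ring
  set t0 := (a + c) / 2 with ht0
  have h01 : a < t0 := by rw [ht0]; linarith
  have h02 : t0 < c := by rw [ht0]; linarith
  have hconst : ∀ t ∈ Ioo a c, W t = W t0 := by
    intro t ht
    exact isOpen_Ioo.is_const_of_deriv_eq_zero isPreconnected_Ioo
      (fun z hz => (hWd z hz).differentiableAt.differentiableWithinAt)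
      (fun z hz => (hWd z hz).deriv) ht ⟨h01, h02⟩
  refine ⟨W t0 * σ * (c - a), 2 * s + σ - 1, 4 * s - σ - 1, by ring, ?_⟩
  intro t hat htc
  have hta : 0 < t - a := sub_pos.2 hat
  have hct : 0 < c - t := sub_pos.2 htc
  have h1 := h.hasDeriv_RR hat htc (hX t hat htc)
  refine h1.congr_deriv ?_
  have hGt : GG ρ s a c t = W t0 * Real.exp (σ * (Real.log (t - a) - Real.log (c - t))) := by
    have h2 := hconst t ⟨hat, htc⟩
    rw [← h2, hW, hE]
    simp only
    rw [mul_assoc, ← Real.exp_add]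
    ring_nf
    simp
  have hk1 : kr s t a = Real.exp (Real.log (t - a) * (-2 * s)) := by
    unfold kr
    rw [abs_of_pos hta, Real.rpow_def_of_pos hta]
  have hk2 : kr s t c = Real.exp (Real.log (c - t) * (-2 * s)) := by
    unfold kr
    rw [abs_sub_comm, abs_of_pos hct, Real.rpow_def_of_pos hct]
  have hsum : 1 / (t - a) + 1 / (c - t)
      = (c - a) * Real.exp (-Real.log (t - a) - Real.log (c - t)) := by
    rw [Real.exp_sub, Real.exp_neg, Real.exp_log hta, Real.exp_log hct]
    field_simp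
    ring
  rw [hsum, hGt, hk1, hk2, div_eq_mul_inv]
  rw [mul_inv, mul_inv, ← Real.exp_neg, ← Real.exp_neg]
  have hexp : Real.exp ((2 * s + σ - 1) * Real.log (t - a) + (4 * s - σ - 1) * Real.log (c - t))
      = Real.exp (σ * (Real.log (t - a) - Real.log (c - t)))
        * Real.exp (-Real.log (t - a) - Real.log (c - t))
        * Real.exp (-(Real.log (t - a) * (-2 * s))) * Real.exp (-(Real.log (c - t) * (-2 * s)))
        * Real.exp (-(Real.log (c - t) * (-2 * s))) := by
    rw [← Real.exp_add, ← Real.exp_add, ← Real.exp_add, ← Real.exp_add]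
    congr 1
    ring
  rw [hexp, hσ]
  ring

omit [NullSingletonClass ρ] [IsLocallyFiniteMeasure ρ] in
lemma exponent_zero {r g L : ℝ → ℝ} {K α r0 g0 : ℝ} {l : Filter ℝ} [l.NeBot]
    (hr : Tendsto r l (𝓝 r0)) (hr0 : 0 < r0) (hg : Tendsto g l (𝓝 g0)) (hL : Tendsto L l atBot)
    (hK : 0 < K) (heq : ∀ᶠ t in l, r t = K * Real.exp (α * L t + g t)) : α = 0 := by
  by_contra hα
  have h1 : Tendsto (fun t => (Real.log (r t) - Real.log K - g t) / α) l
      (𝓝 ((Real.log r0 - Real.log K - g0) / α)) :=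
    (((hr.log hr0.ne').sub_const _).sub hg).div_const _
  have h2 : Tendsto L l (𝓝 ((Real.log r0 - Real.log K - g0) / α)) := by
    refine h1.congr' ?_
    filter_upwards [heq] with t ht
    rw [ht, Real.log_mul hK.ne' (Real.exp_pos _).ne', Real.log_exp]
    field_simp
    ring
  exact not_tendsto_nhds_of_tendsto_atBot hL _ h2

/-- **Main theorem, first part**: the exponent is `1/3` and the measure is Lebesgue. -/
theorem FE.main (h : FE ρ s P A B) : s = 1 / 3 ∧ ∃ r : ℝ, 0 < r ∧ ∀ t, HasDerivAt (RR ρ) r t := by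
  classical
  set r : ℝ → ℝ := deriv (RR ρ) with hr
  have hrd : ∀ t, HasDerivAt (RR ρ) (r t) t := by
    intro t
    obtain ⟨K, α, γ, -, h1⟩ := h.closed (a := t - 1) (c := t + 1) (by linarith)
    exact (h1 t (by linarith) (by linarith)).differentiableAt.hasDerivAt
  have hnn : ∀ t, 0 ≤ r t := fun t => (hrd t).nonneg_of_monotone fun u v huv => RR_mono huv
  -- positivity of the constant
  have hK : ∀ a c : ℝ, a < c → ∃ K α γ : ℝ, 0 < K ∧ α + γ = 6 * s - 2 ∧ ∀ t, a < t → t < c →
      r t = K * Real.exp (α * Real.log (t - a) + γ * Real.log (c - t)) := by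
    intro a c hac
    obtain ⟨K, α, γ, h0, h1⟩ := h.closed hac
    have h2 : ∀ t, a < t → t < c → r t = K * Real.exp (α * Real.log (t - a) + γ * Real.log (c - t)) :=
      fun t ha hc => (h1 t ha hc).deriv
    refine ⟨K, α, γ, ?_, h0, h2⟩
    set t0 := (a + c) / 2 with ht0
    have h01 : a < t0 := by rw [ht0]; linarith
    have h02 : t0 < c := by rw [ht0]; linarith
    have hK0 : 0 ≤ K := by
      have h3 := hnn t0
      rw [h2 t0 h01 h02] at h3
      exact nonneg_of_mul_nonneg_left h3 (Real.exp_pos _)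
    rcases hK0.lt_or_eq with h3 | h3
    · exact h3
    · exfalso
      obtain ⟨z, hz, hz2⟩ := exists_hasDerivAt_eq_slope (RR ρ) r h01
        (fun z _ => (hrd z).continuousAt.continuousWithinAt) (fun z _ => hrd z)
      rw [h2 z hz.1 (hz.2.trans h02), ← h3, zero_mul] at hz2
      have h4 : RR ρ t0 - RR ρ a = 0 := by
        rcases div_eq_zero_iff.1 hz2.symm with h5 | h5
        · exact h5
        · linarith
      rw [RR_sub h01, setIntegral_const, smul_eq_mul, mul_one, measureReal_eq_zero_iff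
        ((measure_mono Ioo_subset_Icc_self).trans_lt (isCompact_Icc.measure_lt_top)).ne] at h4
      have h5 := h.GGpos h01 h02
      unfold GG at h5
      rw [Measure.restrict_eq_zero.2 h4] at h5
      simp at h5
  have hrpos : ∀ t, 0 < r t := by
    intro t
    obtain ⟨K, α, γ, hKp, -, h1⟩ := hK (t - 1) (t + 1) (by linarith)
    rw [h1 t (by linarith) (by linarith)]
    positivity
  have hrc : ∀ t, ContinuousAt r t := by
    intro t
    obtain ⟨K, α, γ, hKp, -, h1⟩ := hK (t - 1) (t + 1) (by linarith)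
    have h2 : ContinuousAt (fun z => K * Real.exp (α * Real.log (z - (t - 1))
        + γ * Real.log (t + 1 - z))) t := by
      have g1 : ContinuousAt (fun z => Real.log (z - (t - 1))) t :=
        ContinuousAt.log (by fun_prop) (by norm_num)
      have g2 : ContinuousAt (fun z => Real.log (t + 1 - z)) t :=
        ContinuousAt.log (by fun_prop) (by norm_num)
      fun_prop
    refine h2.congr ?_
    filter_upwards [Ioo_mem_nhds (show t - 1 < t by linarith) (show t < t + 1 by linarith)] with z hz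
    exact (h1 z hz.1 hz.2).symm
  have hzero : ∀ a c : ℝ, a < c → ∃ K : ℝ, s = 1 / 3 ∧ ∀ t, a < t → t < c → r t = K := by
    intro a c hac
    obtain ⟨K, α, γ, hKp, h0, h1⟩ := hK a c hac
    have hα : α = 0 := by
      refine exponent_zero (r := r) (g := fun t => γ * Real.log (c - t)) (L := fun t => Real.log (t - a))
        (l := 𝓝[>] a) (K := K) (hrc a).continuousWithinAt.tendsto (hrpos a)
        (g0 := γ * Real.log (c - a)) ?_ ?_ hKp ?_
      · apply Tendsto.mono_left _ nhdsWithin_le_nhds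
        apply ContinuousAt.tendsto (f := fun t => γ * Real.log (c - t))
        exact (ContinuousAt.log (by fun_prop) (by linarith)).const_mul γ
      · apply Real.tendsto_log_nhdsGT_zero.comp
        apply tendsto_nhdsWithin_of_tendsto_nhds_of_eventually_within
        · have : Tendsto (fun t : ℝ => t - a) (𝓝 a) (𝓝 (a - a)) :=
            (continuous_id.sub continuous_const).tendsto a
          rw [sub_self] at this
          exact this.mono_left nhdsWithin_le_nhds
        · filter_upwards [self_mem_nhdsWithin] with t ht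
          exact sub_pos.2 (by simpa using ht)
      · filter_upwards [Ioo_mem_nhdsGT hac] with t ht
        exact h1 t ht.1 ht.2
    have hγ : γ = 0 := by
      refine exponent_zero (r := r) (g := fun t => α * Real.log (t - a)) (L := fun t => Real.log (c - t))
        (l := 𝓝[<] c) (K := K) (hrc c).continuousWithinAt.tendsto (hrpos c)
        (g0 := α * Real.log (c - a)) ?_ ?_ hKp ?_
      · apply Tendsto.mono_left _ nhdsWithin_le_nhds
        apply ContinuousAt.tendsto (f := fun t => α * Real.log (t - a))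
        exact (ContinuousAt.log (by fun_prop) (by linarith)).const_mul α
      · apply Real.tendsto_log_nhdsGT_zero.comp
        apply tendsto_nhdsWithin_of_tendsto_nhds_of_eventually_within
        · have : Tendsto (fun t : ℝ => c - t) (𝓝 c) (𝓝 (c - c)) :=
            (continuous_const.sub continuous_id).tendsto c
          rw [sub_self] at this
          exact this.mono_left nhdsWithin_le_nhds
        · filter_upwards [self_mem_nhdsWithin] with t ht
          exact sub_pos.2 (by simpa using ht)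
      · filter_upwards [Ioo_mem_nhdsLT hac] with t ht
        rw [h1 t ht.1 ht.2, add_comm]
    refine ⟨K, by rw [hα, hγ] at h0; linarith, ?_⟩
    intro t h2 h3
    rw [h1 t h2 h3, hα, hγ]
    simp
  obtain ⟨K, hs, -⟩ := hzero 0 1 one_pos
  refine ⟨hs, r 0, hrpos 0, ?_⟩
  intro t
  obtain ⟨K, -, h1⟩ := hzero (min t 0 - 1) (max t 0 + 1) (by
    have := min_le_max (a := t) (b := 0); linarith)
  have e1 := h1 t (by have := min_le_left t 0; linarith) (by have := le_max_left t 0; linarith)
  have e2 := h1 0 (by have := min_le_right t 0; linarith) (by have := le_max_right t 0; linarith)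
  rw [e2, ← e1]
  exact hrd t

/-- the measure is a multiple of Lebesgue measure -/
theorem FE.measure_eq (h : FE ρ s P A B) : ∃ r : ℝ, 0 < r ∧ ρ = ENNReal.ofReal r • volume := by
  obtain ⟨-, r, hr, hd⟩ := h.main
  refine ⟨r, hr, ?_⟩
  have hlin : ∀ u v, u < v → RR ρ v - RR ρ u = r * (v - u) := by
    intro u v huv
    obtain ⟨z, hz, hz2⟩ := exists_hasDerivAt_eq_slope (RR ρ) (fun _ => r) huv
      (fun z _ => (hd z).continuousAt.continuousWithinAt) (fun z _ => hd z)
    have : v - u ≠ 0 := (sub_pos.2 huv).ne'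
    rw [hz2]
    field_simp
  refine Measure.ext_of_Ioc _ _ fun u v huv => ?_
  have h1 : ρ (Ioc u v) ≠ ⊤ :=
    ((measure_mono Ioc_subset_Icc_self).trans_lt (isCompact_Icc.measure_lt_top)).ne
  have h2 := hlin u v huv
  rw [RR_sub huv, ← integral_Ioc_eq_integral_Ioo, setIntegral_const, smul_eq_mul, mul_one] at h2
  rw [← ofReal_measureReal h1, h2, Measure.smul_apply, Real.volume_Ioc, smul_eq_mul,
    ENNReal.ofReal_mul hr.le]

/-- **Cardy's integral.** -/
theorem FE.cardy (h : FE ρ s P A B) {x a b c : ℝ} (hab : a < b) (hbc : b < c)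
    (hx : c < x ∨ x < a) :
    P x a b c = (∫ y in Ioo a b, kr (1/3) y a * kr (1/3) y c * kr (1/3) y x)
      / (∫ y in Ioo a c, kr (1/3) y a * kr (1/3) y c * kr (1/3) y x) := by
  obtain ⟨hs, -⟩ := h.main
  obtain ⟨r, hr, hρ⟩ := h.measure_eq
  subst hs
  have hi1 := h.intB1 hab hbc hx
  have hi2 := h.intB2 hab hbc hx
  have hI1 := integrableOn_of_pos hi1
  have hI2 := integrableOn_of_pos hi2
  have hB := h.Bpos (hab.trans hbc) hx
  have e1 := h.B1 x a b c hab hbc hx
  have e2 := h.B2 x a b c hab hbc hx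
  have hI : IntegrableOn (fun y => kr (1/3) y a * kr (1/3) y c * kr (1/3) y x) (Ioo a c) ρ := by
    rw [← integrableOn_Icc_iff_integrableOn_Ioo] at hI1 ⊢
    rw [← integrableOn_Icc_iff_integrableOn_Ioo] at hI2
    rw [← Icc_union_Icc_eq_Icc hab.le hbc.le]
    exact hI1.union hI2
  have e3 := Ioo_split hab.le hbc hI
  have e4 : ∀ S : Set ℝ, ∫ y in S, kr (1/3) y a * kr (1/3) y c * kr (1/3) y x ∂ρ
      = r * ∫ y in S, kr (1/3) y a * kr (1/3) y c * kr (1/3) y x := by
    intro S
    rw [hρ, Measure.restrict_smul, integral_smul_measure, ENNReal.toReal_ofReal hr.le, smul_eq_mul]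
  have e5 : B x a c * ∫ y in Ioo a c, kr (1/3) y a * kr (1/3) y c * kr (1/3) y x ∂ρ = 1 := by
    rw [e3, mul_add, ← e1, ← e2]
    ring
  rw [e1, eq_div_iff]
  · rw [e4] at e5 ⊢
    linear_combination (∫ y in Ioo a b, kr (1/3) y a * kr (1/3) y c * kr (1/3) y x) * e5
  · intro h0
    rw [e4, h0] at e5
    simp at e5

end deriv

end Pool.Agent.SixB
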