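import Mathlib.MeasureTheory.Measure.Prokhorov
import Mathlib.MeasureTheory.Measure.Portmanteau
import Mathlib.MeasureTheory.Measure.DiracProba
import Mathlib.MeasureTheory.Integral.Bochner.Basic
import Mathlib.MeasureTheory.Integral.Bochner.Set
import Mathlib.Analysis.SpecialFunctions.Log.Basic
import Mathlib.Analysis.SpecialFunctions.Trigonometric.Basic

/-!
# Lemma A of step 2: the spectral measure as a weak limit of finite spectral data
-/

set_option autoImplicit false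

namespace Pool.Agent.SixB

open Set Filter Topology MeasureTheory
open scoped ENNReal NNReal

/-- the compact set carrying all spectral measures -/
def specBox : Set (ℝ × ℝ) := Icc 0 Real.pi ×ˢ Icc (-1) 1

theorem isCompact_specBox : IsCompact specBox := isCompact_Icc.prod isCompact_Icc

/-- the open set on which the cone condition with error `ε` fails -/
def badCone (ε : ℝ) : Set (ℝ × ℝ) := {p | 0 < p.2 ∧ -Real.log p.2 + ε < p.1}

theorem isOpen_badCone (ε : ℝ) : IsOpen (badCone ε) := by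
  have h : badCone ε = {p : ℝ × ℝ | 0 < p.2 ∧ Real.exp (-(p.1 - ε)) < p.2} := by
    ext p
    simp only [badCone, mem_setOf_eq]
    refine and_congr_right fun hp => ?_
    rw [← Real.lt_log_iff_exp_lt hp]
    constructor <;> intro h <;> linarith
  rw [h]
  exact (isOpen_lt continuous_const continuous_snd).inter
    (isOpen_lt (by fun_prop) continuous_snd)

/-- finite spectral data as a probability measure -/
noncomputable def specMeas {ι : Type} [Fintype ι] (w k lam : ι → ℝ) : Measure (ℝ × ℝ) :=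
  ∑ j, ENNReal.ofReal (w j) • Measure.dirac (k j, lam j)

theorem specMeas_apply_eq_zero {ι : Type} [Fintype ι] {w k lam : ι → ℝ} {s : Set (ℝ × ℝ)}
    (hs : MeasurableSet s) (h : ∀ j, (k j, lam j) ∉ s) : specMeas w k lam s = 0 := by
  rw [specMeas, Measure.finset_sum_apply]
  refine Finset.sum_eq_zero fun j _ => ?_
  rw [Measure.smul_apply, Measure.dirac_apply' _ hs, indicator_of_notMem (h j), smul_zero]

theorem isProb_specMeas {ι : Type} [Fintype ι] {w : ι → ℝ} (k lam : ι → ℝ)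
    (hw : ∀ j, 0 ≤ w j) (hs : ∑ j, w j = 1) : IsProbabilityMeasure (specMeas w k lam) := by
  refine ⟨?_⟩
  rw [specMeas, Measure.finset_sum_apply]
  simp only [Measure.smul_apply, measure_univ, smul_eq_mul, mul_one]
  rw [← ENNReal.ofReal_sum_of_nonneg fun j _ => hw j, hs, ENNReal.ofReal_one]

theorem integral_specMeas {ι : Type} [Fintype ι] {w : ι → ℝ} (k lam : ι → ℝ)
    (hw : ∀ j, 0 ≤ w j) {f : ℝ × ℝ → ℝ} (hf : Continuous f) :
    ∫ p, f p ∂specMeas w k lam = ∑ j, w j * f (k j, lam j) := by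
  rw [specMeas, integral_finset_sum_measure]
  · refine Finset.sum_congr rfl fun j _ => ?_
    rw [integral_smul_measure, integral_dirac, ENNReal.toReal_ofReal (hw j), smul_eq_mul]
  · intro j _
    refine Integrable.smul_measure ?_ ENNReal.ofReal_ne_top
    exact integrable_dirac (by simp)

/-- clamping to `[-1, 1]` -/
noncomputable def clamp (t : ℝ) : ℝ := max (-1) (min 1 t)

theorem continuous_clamp : Continuous clamp := by unfold clamp; fun_prop

theorem clamp_eq {t : ℝ} (h : |t| ≤ 1) : clamp t = t := by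
  obtain ⟨h1, h2⟩ := abs_le.1 h
  rw [clamp, min_eq_right h2, max_eq_right h1]

theorem abs_clamp_le (t : ℝ) : |clamp t| ≤ 1 := by
  rw [abs_le, clamp]
  exact ⟨le_max_left _ _, max_le (by norm_num) (min_le_left _ _)⟩

/-- the test function of `C x y` -/
noncomputable def specFun (x y : ℤ) : BoundedContinuousFunction (ℝ × ℝ) ℝ :=
  BoundedContinuousFunction.ofNormedAddCommGroup
    (fun p : ℝ × ℝ => Real.cos (p.1 * x) * clamp p.2 ^ y.natAbs)
    (by have := continuous_clamp; fun_prop) 1 (fun p => by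
      rw [norm_mul, norm_pow, Real.norm_eq_abs, Real.norm_eq_abs]
      exact mul_le_one₀ (Real.abs_cos_le_one _) (by positivity)
        (pow_le_one₀ (abs_nonneg _) (abs_clamp_le _)))

/-- **Lemma A.** Convergence of finite spectral data with the cone condition up to a vanishing
error gives a spectral measure with the sharp cone condition. -/
theorem exists_spectral_measure (C : ℤ → ℤ → ℝ) (ι : ℕ → Type) [∀ N, Fintype (ι N)]
    (w k lam : ∀ N, ι N → ℝ) (hw : ∀ N j, 0 ≤ w N j) (hsum : ∀ N, ∑ j, w N j = 1)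
    (hk : ∀ N j, 0 ≤ k N j ∧ k N j ≤ Real.pi) (hlam : ∀ N j, |lam N j| ≤ 1)
    (hlim : ∀ x y : ℤ, Tendsto (fun N => ∑ j, w N j * (Real.cos (k N j * x) *
      lam N j ^ y.natAbs)) atTop (𝓝 (C x y))) :
    ∃ ρ : Measure (ℝ × ℝ), IsProbabilityMeasure ρ ∧
      (∀ᵐ p ∂ρ, 0 ≤ p.1 ∧ p.1 ≤ Real.pi ∧ |p.2| ≤ 1) ∧
      (∀ x y : ℤ, C x y = ∫ p : ℝ × ℝ, Real.cos (p.1 * x) * p.2 ^ y.natAbs ∂ρ) ∧
      (∀ G : Set (ℝ × ℝ), IsOpen G → (∀ᶠ N in atTop, ∀ j, (k N j, lam N j) ∉ G) → ρ G = 0) := by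
  classical
  set P : ℕ → ProbabilityMeasure (ℝ × ℝ) := fun N =>
    ⟨specMeas (w N) (k N) (lam N), isProb_specMeas _ _ (hw N) (hsum N)⟩ with hP
  have hbox : ∀ N j, (k N j, lam N j) ∈ specBox := fun N j =>
    ⟨⟨(hk N j).1, (hk N j).2⟩, abs_le.1 (hlam N j)⟩
  have hnull : ∀ N, (P N : Measure (ℝ × ℝ)) specBoxᶜ = 0 := fun N =>
    specMeas_apply_eq_zero isCompact_specBox.isClosed.measurableSet.compl
      fun j => not_not.2 (hbox N j)
  have htight : IsTightMeasureSet
      {((μ : ProbabilityMeasure (ℝ × ℝ)) : Measure (ℝ × ℝ)) | μ ∈ range P} := by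
    rw [isTightMeasureSet_iff_exists_isCompact_measure_compl_le]
    intro ε _
    refine ⟨specBox, isCompact_specBox, ?_⟩
    rintro _ ⟨μ, ⟨N, rfl⟩, rfl⟩
    rw [hnull N]
    exact zero_le
  obtain ⟨ν, -, ψ, hψ, hconv⟩ := (isCompact_closure_of_isTightMeasureSet htight).isSeqCompact
    (fun n => subset_closure (mem_range_self n))
  have hopen : ∀ G : Set (ℝ × ℝ), IsOpen G → (∀ᶠ N in atTop, ∀ j, (k N j, lam N j) ∉ G) →
      (ν : Measure (ℝ × ℝ)) G = 0 := by
    intro G hG h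
    have h1 := ProbabilityMeasure.le_liminf_measure_open_of_tendsto hconv hG
    refine le_antisymm (h1.trans ?_) zero_le
    have h2 : (fun n => ((P ∘ ψ) n : Measure (ℝ × ℝ)) G) =ᶠ[atTop] fun _ => 0 := by
      filter_upwards [hψ.tendsto_atTop.eventually h] with n hn
      exact specMeas_apply_eq_zero hG.measurableSet hn
    rw [liminf_congr h2, liminf_const]
  have hsupp : ∀ᵐ p ∂(ν : Measure (ℝ × ℝ)), p ∈ specBox := by
    rw [ae_iff]
    exact hopen _ isCompact_specBox.isClosed.isOpen_compl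
      (Eventually.of_forall fun N j => not_not.2 (hbox N j))
  refine ⟨ν, inferInstance, ?_, ?_, hopen⟩
  · filter_upwards [hsupp] with p hp
    exact ⟨hp.1.1, hp.1.2, abs_le.2 hp.2⟩
  · intro x y
    have h1 := (ProbabilityMeasure.tendsto_iff_forall_integral_tendsto.1 hconv) (specFun x y)
    have h2 : ∀ N, ∫ p, specFun x y p ∂(P N : Measure (ℝ × ℝ)) =
        ∑ j, w N j * (Real.cos (k N j * x) * lam N j ^ y.natAbs) := by
      intro N
      have := integral_specMeas (w := w N) (k N) (lam N) (hw N) (specFun x y).continuous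
      rw [show (P N : Measure (ℝ × ℝ)) = specMeas (w N) (k N) (lam N) from rfl, this]
      refine Finset.sum_congr rfl fun j _ => ?_
      show w N j * (Real.cos (k N j * x) * clamp (lam N j) ^ y.natAbs) = _
      rw [clamp_eq (hlam N j)]
    have h3 := tendsto_nhds_unique h1 (by
      simp only [Function.comp_apply, h2]
      exact (hlim x y).comp hψ.tendsto_atTop)
    rw [← h3]
    refine integral_congr_ae ?_
    filter_upwards [hsupp] with p hp
    show Real.cos (p.1 * x) * clamp p.2 ^ y.natAbs = _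
    rw [clamp_eq (abs_le.2 hp.2)]

/-- the sharp cone condition in the limit -/
theorem ae_cone {ρ : Measure (ℝ × ℝ)} (h : ∀ ε > 0, ρ (badCone ε) = 0) :
    ∀ᵐ p ∂ρ, 0 < p.2 → p.1 ≤ -Real.log p.2 := by
  have h1 : ∀ᵐ p ∂ρ, ∀ m : ℕ, p ∉ badCone (1 / (m + 1 : ℝ)) := by
    rw [ae_all_iff]
    intro m
    rw [ae_iff]
    simpa using h (1 / (m + 1 : ℝ)) (by positivity)
  filter_upwards [h1] with p hp h0
  by_contra hlt
  push Not at hlt
  obtain ⟨m, hm⟩ := exists_nat_one_div_lt (sub_pos.2 hlt)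
  exact hp m ⟨h0, by linarith⟩

/-- **Lemma A, sharp cone.** -/
theorem exists_spectral_measure_cone (C : ℤ → ℤ → ℝ) (ι : ℕ → Type) [∀ N, Fintype (ι N)]
    (w k lam : ∀ N, ι N → ℝ) (hw : ∀ N j, 0 ≤ w N j) (hsum : ∀ N, ∑ j, w N j = 1)
    (hk : ∀ N j, 0 ≤ k N j ∧ k N j ≤ Real.pi) (hlam : ∀ N j, |lam N j| ≤ 1)
    (hcone : ∀ ε > 0, ∀ᶠ N in atTop, ∀ j, 0 < lam N j → k N j ≤ -Real.log (lam N j) + ε)
    (hlim : ∀ x y : ℤ, Tendsto (fun N => ∑ j, w N j * (Real.cos (k N j * x) *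
      lam N j ^ y.natAbs)) atTop (𝓝 (C x y))) :
    ∃ ρ : Measure (ℝ × ℝ), IsProbabilityMeasure ρ ∧
      (∀ᵐ p ∂ρ, 0 ≤ p.1 ∧ p.1 ≤ Real.pi ∧ |p.2| ≤ 1) ∧
      (∀ x y : ℤ, C x y = ∫ p : ℝ × ℝ, Real.cos (p.1 * x) * p.2 ^ y.natAbs ∂ρ) ∧
      (∀ᵐ p ∂ρ, 0 < p.2 → p.1 ≤ -Real.log p.2) := by
  obtain ⟨ρ, h1, h2, h3, h4⟩ := exists_spectral_measure C ι w k lam hw hsum hk hlam hlim
  refine ⟨ρ, h1, h2, h3, ae_cone fun ε hε => h4 _ (isOpen_badCone ε) ?_⟩
  filter_upwards [hcone ε hε] with N hN j hj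
  exact absurd (hN j hj.1) (not_le.2 hj.2)

end Pool.Agent.SixB
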