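import Pool.Agent.Lib.SixB.S0Clo
import Pool.Agent.Lib.SixB.S0Walk
import Pool.Agent.Lib.MP_6bd702_zc.Y024

/-!
# 6BD: maps of complexes of quadrangles which act on directed unit edges (orientation kept or reversed)

`SMap Q Q' F ω ω' Θ ψ κ s`: `Θ` maps directed edges, `ψ` faces, `κ` the labels of the sides; `s = 1` keeps the
turning, `s = -1` reverses it (reflections: `Θ (p, q) = (R q, R p)`). All symmetries of the plane are of this form.
`SMap.gc_map`: the two arrow functional is invariant; `SMap.trn_map`, `SMap.clo_map`.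
Instances: translations `smT`, transposition `smR`, rotation by a half turn `smH`.
-/

set_option autoImplicit false
set_option linter.unusedSectionVars false

namespace Pool.Agent.SixB

open Pool.Agent.Perc Pool.Agent.Perc.Q Relation

noncomputable section

variable {V Φ V' Φ' : Type} [DecidableEq V] [DecidableEq Φ] [DecidableEq V'] [DecidableEq Φ']

/-- maps of complexes acting on directed edges; `s` is the sign of the orientation -/
structure SMap (Q : QC V Φ) (Q' : QC V' Φ') (F : Finset Φ) (ω : Φ → Bool) (ω' : Φ' → Bool)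
    (Θ : V × V → V' × V') (ψ : Φ → Φ') (κ : ZMod 4 → ZMod 4) (s : ℤ) : Prop where
  inj : Function.Injective Θ
  swp : ∀ a, Θ a.swap = (Θ a).swap
  sur : Function.Surjective κ
  side : ∀ f ∈ F, ∀ k, Θ (sd Q f k) = sd Q' (ψ f) (κ k)
  mtk : ∀ f ∈ F, ∀ k, mt (ω' (ψ f)) (κ k) = κ (mt (ω f) k)
  qkk : ∀ f ∈ F, ∀ k, qk (ω' (ψ f)) (κ k) = s * qk (ω f) k

namespace SMap

variable {Q : QC V Φ} {Q' : QC V' Φ'} {F : Finset Φ} {ω : Φ → Bool} {ω' : Φ' → Bool}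
  {Θ : V × V → V' × V'} {ψ : Φ → Φ'} {κ : ZMod 4 → ZMod 4} {s : ℤ} {a b e e' : V × V}
  {b' : V' × V'}

theorem nx (h : SMap Q Q' F ω ω' Θ ψ κ s) (hab : Nx Q ω (F : Set Φ) a b) :
    Nx Q' ω' ((F.image ψ : Finset Φ') : Set Φ') (Θ a) (Θ b) := by
  rw [nx_iff] at hab ⊢
  obtain ⟨t, f, hf, k, rfl, rfl, rfl⟩ := hab
  have hf' : f ∈ F := by exact_mod_cast hf
  refine ⟨_, ψ f, ?_, κ k, h.side f hf' k, ?_, rfl⟩
  · exact_mod_cast Finset.mem_image_of_mem ψ hf'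
  · rw [h.swp, h.side f hf', h.mtk f hf']

theorem nx_inv (h : SMap Q Q' F ω ω' Θ ψ κ s)
    (hab : Nx Q' ω' ((F.image ψ : Finset Φ') : Set Φ') (Θ a) b') :
    ∃ b, b' = Θ b ∧ Nx Q ω (F : Set Φ) a b := by
  rw [nx_iff] at hab
  obtain ⟨t, g, hg, k', h1, h2, h3⟩ := hab
  obtain ⟨f, hf, rfl⟩ := Finset.mem_image.mp (by exact_mod_cast hg)
  obtain ⟨k, rfl⟩ := h.sur k'
  rw [← h.side f hf] at h1
  have h4 := h.inj h1
  refine ⟨(sd Q f (mt (ω f) k)).swap, ?_, ?_⟩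
  · rw [h2, h.swp, h.side f hf, h.mtk f hf]
  · rw [nx_iff]
    exact ⟨_, f, by exact_mod_cast hf, k, h4, rfl, rfl⟩

theorem rtg (h : SMap Q Q' F ω ω' Θ ψ κ s) (hab : ReflTransGen (Nx Q ω (F : Set Φ)) a b) :
    ReflTransGen (Nx Q' ω' ((F.image ψ : Finset Φ') : Set Φ')) (Θ a) (Θ b) := by
  induction hab with
  | refl => exact ReflTransGen.refl
  | tail _ hs ih => exact ih.tail (h.nx hs)

theorem rtg_inv (h : SMap Q Q' F ω ω' Θ ψ κ s)
    (hab : ReflTransGen (Nx Q' ω' ((F.image ψ : Finset Φ') : Set Φ')) (Θ a) b') :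
    ∃ b, b' = Θ b ∧ ReflTransGen (Nx Q ω (F : Set Φ)) a b := by
  induction hab with
  | refl => exact ⟨a, rfl, ReflTransGen.refl⟩
  | tail _ hs ih =>
    obtain ⟨b, rfl, hb⟩ := ih
    obtain ⟨c, rfl, hc⟩ := h.nx_inv hs
    exact ⟨c, rfl, hb.tail hc⟩

theorem clo_map (h : SMap Q Q' F ω ω' Θ ψ κ s) :
    Clo Q' (F.image ψ) ω' (Θ a) ↔ Clo Q F ω a := by
  unfold Clo
  constructor
  · intro hc
    obtain ⟨b', h1, h2⟩ := TransGen.head'_iff.mp hc
    obtain ⟨b, rfl, h3⟩ := h.nx_inv h1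
    obtain ⟨c, h4, h5⟩ := h.rtg_inv h2
    have := h.inj h4
    subst this
    exact TransGen.head'_iff.mpr ⟨b, h3, h5⟩
  · intro hc
    obtain ⟨b, h1, h2⟩ := TransGen.head'_iff.mp hc
    exact TransGen.head'_iff.mpr ⟨Θ b, h.nx h1, h.rtg h2⟩

theorem srel_map (h : SMap Q Q' F ω ω' Θ ψ κ s) :
    SRel Q' (F.image ψ) ω' (Θ a) (Θ b) ↔ SRel Q F ω a b := by
  rw [srel_iff, srel_iff]
  constructor
  · rintro (h1 | h1)
    · obtain ⟨c, h2, h3⟩ := h.rtg_inv h1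
      rw [h.inj h2]
      exact Or.inl h3
    · obtain ⟨c, h2, h3⟩ := h.rtg_inv h1
      rw [h.inj h2]
      exact Or.inr h3
  · rintro (h1 | h1)
    · exact Or.inl (h.rtg h1)
    · exact Or.inr (h.rtg h1)

theorem mem_dE_map (h : SMap Q Q' F ω ω' Θ ψ κ s) {x : V' × V'} :
    x ∈ dE Q' (F.image ψ) ↔ ∃ a ∈ dE Q F, Θ a = x := by
  rw [mem_dE]
  constructor
  · rintro ⟨g, hg, k', h1⟩
    obtain ⟨f, hf, rfl⟩ := Finset.mem_image.mp hg
    obtain ⟨k, rfl⟩ := h.sur k'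
    rcases h1 with h1 | h1
    · exact ⟨sd Q f k, sd_mem hf k, by rw [h1, h.side f hf]⟩
    · refine ⟨(sd Q f k).swap, swap_mem_dE.mpr (sd_mem hf k), ?_⟩
      rw [h1, h.swp, h.side f hf]
  · rintro ⟨a, ha, rfl⟩
    obtain ⟨f, hf, k, h1⟩ := mem_dE.mp ha
    refine ⟨ψ f, Finset.mem_image_of_mem ψ hf, κ k, ?_⟩
    rcases h1 with h1 | h1
    · exact Or.inl (by rw [h1, h.side f hf])
    · exact Or.inr (by rw [h1, h.swp, h.side f hf])

theorem mem_dE_iff (h : SMap Q Q' F ω ω' Θ ψ κ s) : Θ a ∈ dE Q' (F.image ψ) ↔ a ∈ dE Q F := by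
  rw [h.mem_dE_map]
  constructor
  · rintro ⟨b, hb, h1⟩
    rwa [← h.inj h1]
  · exact fun ha => ⟨a, ha, rfl⟩

theorem dst_map (h : SMap Q Q' F ω ω' Θ ψ κ s) :
    dst Q' (F.image ψ) ω' (Θ a) = (dst Q F ω a).image Θ := by
  ext x
  rw [mem_dst, h.mem_dE_map, Finset.mem_image]
  constructor
  · rintro ⟨⟨b, hb, rfl⟩, h2⟩
    exact ⟨b, mem_dst.mpr ⟨hb, h.srel_map.mp h2⟩, rfl⟩
  · rintro ⟨b, hb, rfl⟩
    obtain ⟨h1, h2⟩ := mem_dst.mp hb
    exact ⟨⟨b, h1, rfl⟩, h.srel_map.mpr h2⟩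

theorem mem_dst_iff (h : SMap Q Q' F ω ω' Θ ψ κ s) :
    Θ b ∈ dst Q' (F.image ψ) ω' (Θ a) ↔ b ∈ dst Q F ω a := by
  rw [h.dst_map, Finset.mem_image]
  constructor
  · rintro ⟨c, hc, h1⟩
    rwa [← h.inj h1]
  · exact fun hb => ⟨b, hb, rfl⟩

theorem qt_map (h : SMap Q Q' F ω ω' Θ ψ κ s) :
    qt Q' (F.image ψ) ω' (Θ a) = s * qt Q F ω a := by
  by_cases hT : Ter Q (F : Set Φ) a
  · rw [qt_eq_zero hT, mul_zero]
    apply qt_eq_zero
    intro g hg k' h1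
    obtain ⟨f, hf, rfl⟩ := Finset.mem_image.mp (by exact_mod_cast hg)
    obtain ⟨k, rfl⟩ := h.sur k'
    have h2 : Θ a = sd Q' (ψ f) (κ k) := h1
    rw [← h.side f hf] at h2
    exact hT f (by exact_mod_cast hf) k (h.inj h2)
  · unfold Ter at hT
    push Not at hT
    obtain ⟨f, hf, k, h1⟩ := hT
    have hf' : f ∈ F := by exact_mod_cast hf
    have h2 : a = sd Q f k := h1
    rw [h2, qt_of_sd hf', h.side f hf', qt_of_sd (Finset.mem_image_of_mem ψ hf'), h.qkk f hf']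

theorem trn_map (h : SMap Q Q' F ω ω' Θ ψ κ s) :
    trn Q' (F.image ψ) ω' (Θ a) = s * trn Q F ω a := by
  unfold trn
  rw [h.dst_map, Finset.sum_image fun x _ y _ hxy => h.inj hxy, Finset.mul_sum]
  exact Finset.sum_congr rfl fun b _ => h.qt_map

theorem gg_map (h : SMap Q Q' F ω ω' Θ ψ κ s) (hs : s = 1 ∨ s = -1) :
    gg Q' (F.image ψ) ω' (Θ e) (Θ e') = gg Q F ω e e' := by
  unfold gg
  rw [← h.swp]
  simp only [h.mem_dst_iff, h.trn_map]
  have : tnt (s * trn Q F ω e) * tnt (s * trn Q F ω e') = tnt (trn Q F ω e) * tnt (trn Q F ω e') := by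
    rcases hs with rfl | rfl
    · rw [one_mul, one_mul]
    · rw [neg_one_mul, neg_one_mul, tnt_neg, tnt_neg]
      ring
  rw [this]

theorem gc_map (h : SMap Q Q' F ω ω' Θ ψ κ s) (hs : s = 1 ∨ s = -1) :
    gc Q' (F.image ψ) ω' (Θ e) (Θ e') = gc Q F ω e e' := by
  unfold gc
  rw [h.gg_map hs]
  by_cases hc : Clo Q F ω e ∧ Clo Q F ω e'
  · rw [if_pos hc, if_pos ⟨h.clo_map.mpr hc.1, h.clo_map.mpr hc.2⟩]
  · rw [if_neg hc, if_neg fun hh => hc ⟨h.clo_map.mp hh.1, h.clo_map.mp hh.2⟩]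

end SMap

/-! ## Symmetries of the plane -/

theorem cor0_add (f u : ℤ × ℤ) (k : ZMod 4) : cor0 (f + u) k = cor0 f k + u := by
  obtain ⟨x, y⟩ := f
  obtain ⟨a, b⟩ := u
  rcases k4_cases k with rfl | rfl | rfl | rfl
  · rfl
  · rw [cor0_1, cor0_1]
    exact Prod.ext (by simp only [Prod.mk_add_mk]; ring) rfl
  · rw [cor0_2, cor0_2]
    exact Prod.ext (by simp only [Prod.mk_add_mk]; ring) (by simp only [Prod.mk_add_mk]; ring)
  · rw [cor0_3, cor0_3]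
    exact Prod.ext rfl (by simp only [Prod.mk_add_mk]; ring)

/-- translation of directed edges -/
def tE (u : ℤ × ℤ) (a : (ℤ × ℤ) × (ℤ × ℤ)) : (ℤ × ℤ) × (ℤ × ℤ) := (a.1 + u, a.2 + u)

theorem smT (u : ℤ × ℤ) (F : Finset (ℤ × ℤ)) (ω : ℤ × ℤ → Bool) :
    SMap ZQ ZQ F (fun f => ω (f + u)) ω (tE u) (fun f => f + u) id 1 where
  inj := by
    rintro ⟨p, q⟩ ⟨p', q'⟩ h
    unfold tE at h
    simp only [Prod.mk.injEq, add_left_inj] at h
    exact Prod.ext h.1 h.2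
  swp := fun a => rfl
  sur := Function.surjective_id
  side := fun f _ k => Prod.ext (cor0_add f u k).symm (cor0_add f u (k + 1)).symm
  mtk := fun f _ k => rfl
  qkk := fun f _ k => by rw [one_mul]; rfl

/-- reflection in the diagonal -/
def dR (p : ℤ × ℤ) : ℤ × ℤ := (p.2, p.1)

theorem dR_dR (p : ℤ × ℤ) : dR (dR p) = p := rfl

/-- reflection of directed edges in the diagonal -/
def dE' (a : (ℤ × ℤ) × (ℤ × ℤ)) : (ℤ × ℤ) × (ℤ × ℤ) := (dR a.2, dR a.1)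

theorem cor0_dR (f : ℤ × ℤ) (k : ZMod 4) : dR (cor0 f k) = cor0 (dR f) (-k) := by
  obtain ⟨x, y⟩ := f
  have e1 : (-1 : ZMod 4) = 3 := rfl
  have e2 : (-2 : ZMod 4) = 2 := rfl
  have e3 : (-3 : ZMod 4) = 1 := rfl
  rcases k4_cases k with rfl | rfl | rfl | rfl
  · rfl
  · rw [e1, cor0_1, cor0_3]; rfl
  · rw [e2, cor0_2, cor0_2]; rfl
  · rw [e3, cor0_3, cor0_1]; rfl

theorem smR (F : Finset (ℤ × ℤ)) (ω : ℤ × ℤ → Bool) :
    SMap ZQ ZQ F (fun f => ω (dR f)) ω dE' dR (fun k => 3 - k) (-1) where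
  inj := by
    rintro ⟨p, q⟩ ⟨p', q'⟩ h
    unfold dE' dR at h
    simp only [Prod.mk.injEq] at h
    exact Prod.ext (Prod.ext h.2.2 h.2.1) (Prod.ext h.1.2 h.1.1)
  swp := fun a => rfl
  sur := fun k => ⟨3 - k, by ring⟩
  side := fun f _ k => by
    have e1 : (3 : ZMod 4) - k = -(k + 1) := by
      have : (3 : ZMod 4) = -1 := rfl
      rw [this]; ring
    have e2 : (3 : ZMod 4) - k + 1 = -k := by
      rw [e1]; ring
    refine Prod.ext ?_ ?_
    · change dR (cor0 f (k + 1)) = cor0 (dR f) (3 - k)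
      rw [cor0_dR, e1]
    · change dR (cor0 f k) = cor0 (dR f) (3 - k + 1)
      rw [cor0_dR, e2]
  mtk := fun f _ k => by
    generalize ω (dR f) = b
    revert b k; decide
  qkk := fun f _ k => by
    generalize ω (dR f) = b
    revert b k; decide

/-- half turn of directed edges -/
def hE (c : ℤ × ℤ) (a : (ℤ × ℤ) × (ℤ × ℤ)) : (ℤ × ℤ) × (ℤ × ℤ) := (c - a.1, c - a.2)

theorem cor0_half (c f : ℤ × ℤ) (k : ZMod 4) : c - cor0 f k = cor0 (c - f - (1, 1)) (k + 2) := by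
  obtain ⟨x, y⟩ := f
  obtain ⟨a, b⟩ := c
  have e0 : (0 : ZMod 4) + 2 = 2 := rfl
  have e1 : (1 : ZMod 4) + 2 = 3 := rfl
  have e2 : (2 : ZMod 4) + 2 = 0 := rfl
  have e3 : (3 : ZMod 4) + 2 = 1 := rfl
  rcases k4_cases k with rfl | rfl | rfl | rfl
  · rw [e0, cor0_0, cor0_2]
    exact Prod.ext (by simp) (by simp)
  · rw [e1, cor0_1, cor0_3]
    exact Prod.ext (by simp; ring) (by simp)
  · rw [e2, cor0_2, cor0_0]
    exact Prod.ext (by simp; ring) (by simp; ring)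
  · rw [e3, cor0_3, cor0_1]
    exact Prod.ext (by simp) (by simp; ring)

theorem smH (c : ℤ × ℤ) (F : Finset (ℤ × ℤ)) (ω : ℤ × ℤ → Bool) :
    SMap ZQ ZQ F (fun f => ω (c - f - (1, 1))) ω (hE c) (fun f => c - f - (1, 1))
      (fun k => k + 2) 1 where
  inj := by
    rintro ⟨p, q⟩ ⟨p', q'⟩ h
    unfold hE at h
    simp only [Prod.mk.injEq, sub_right_inj] at h
    exact Prod.ext h.1 h.2
  swp := fun a => rfl
  sur := fun k => ⟨k + 2, by revert k; decide⟩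
  side := fun f _ k => by
    refine Prod.ext (cor0_half c f k) ?_
    change c - cor0 f (k + 1) = cor0 (c - f - (1, 1)) (k + 2 + 1)
    rw [cor0_half]
    congr 1
    ring
  mtk := fun f _ k => by
    generalize ω (c - f - (1, 1)) = b
    revert b k; decide
  qkk := fun f _ k => by
    generalize ω (c - f - (1, 1)) = b
    revert b k; decide

end

end Pool.Agent.SixB
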