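import Mathlib

/-! # 6BD step 2, Poisson kernel `Pk l w = (1 - l²) / (1 - 2 l cos w + l²)` -/

namespace Pool.Agent.SixB

open MeasureTheory Set Real intervalIntegral

/-- symbol of minus the second difference -/
noncomputable def sy (x : ℝ) : ℝ := 2 - 2 * cos x

/-- Poisson kernel -/
noncomputable def Pk (l w : ℝ) : ℝ := (1 - l ^ 2) / (1 - 2 * l * cos w + l ^ 2)

lemma sy_nonneg (x : ℝ) : 0 ≤ sy x := by unfold sy; linarith [cos_le_one x]

lemma sy_le (x : ℝ) : sy x ≤ 4 := by unfold sy; linarith [neg_one_le_cos x]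

lemma sy_pos {x : ℝ} (h0 : 0 < x) (h1 : x ≤ π) : 0 < sy x := by
  unfold sy
  have : cos x < cos 0 := cos_lt_cos_of_nonneg_of_le_pi le_rfl h1 h0
  rw [cos_zero] at this
  linarith

lemma sy_mono {x y : ℝ} (h0 : 0 ≤ x) (h1 : x ≤ y) (h2 : y ≤ π) : sy x ≤ sy y := by
  unfold sy
  have := cos_le_cos_of_nonneg_of_le_pi h0 h2 h1
  linarith

lemma sy_le_sq (x : ℝ) : sy x ≤ x ^ 2 := by
  unfold sy
  have := one_sub_sq_div_two_le_cos (x := x)
  linarith

lemma den_pos {l : ℝ} (hl : |l| < 1) (w : ℝ) : 0 < 1 - 2 * l * cos w + l ^ 2 := by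
  have h1 := abs_lt.mp hl
  have h2 := cos_le_one w
  have h3 := neg_one_le_cos w
  rcases le_total 0 l with h | h
  · nlinarith [sq_nonneg (1 - l), h1.2]
  · nlinarith [sq_nonneg (1 + l), h1.1]

lemma num_pos {l : ℝ} (hl : |l| < 1) : 0 < 1 - l ^ 2 := by
  have := (sq_lt_one_iff_abs_lt_one l).mpr hl
  linarith

lemma Pk_pos {l : ℝ} (hl : |l| < 1) (w : ℝ) : 0 < Pk l w := div_pos (num_pos hl) (den_pos hl w)

lemma continuous_Pk {l : ℝ} (hl : |l| < 1) : Continuous (Pk l) := by
  unfold Pk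
  refine Continuous.div (by fun_prop) (by fun_prop) (fun w => (den_pos hl w).ne')

private noncomputable def I (l : ℝ) (y : ℤ) : ℝ := ∫ w in (0 : ℝ)..π, cos (y * w) * Pk l w

private lemma int_cos (y : ℤ) : ∫ w in (0 : ℝ)..π, cos (y * w) = if y = 0 then π else 0 := by
  split_ifs with h
  · subst h; simp
  · have hy : (y : ℝ) ≠ 0 := by exact_mod_cast h
    rw [intervalIntegral.integral_comp_mul_left (fun x => cos x) hy]
    rw [integral_cos]
    simp [sin_int_mul_pi]

private lemma ii {l : ℝ} (hl : |l| < 1) (y : ℤ) :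
    IntervalIntegrable (fun w => cos (y * w) * Pk l w) volume 0 π :=
  (((continuous_cos.comp (continuous_const.mul continuous_id)).mul
    (continuous_Pk hl)).intervalIntegrable _ _)

private lemma rec {l : ℝ} (hl : |l| < 1) (y : ℤ) :
    (1 + l ^ 2) * I l y - l * (I l (y + 1) + I l (y - 1)) = (1 - l ^ 2) * (if y = 0 then π else 0) := by
  rw [← int_cos y]
  unfold I
  rw [← intervalIntegral.integral_add (ii hl _) (ii hl _), ← intervalIntegral.integral_const_mul,
    ← intervalIntegral.integral_const_mul, ← intervalIntegral.integral_const_mul,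
    ← intervalIntegral.integral_sub ((ii hl _).const_mul _) (((ii hl _).add (ii hl _)).const_mul _)]
  refine intervalIntegral.integral_congr (fun w _ => ?_)
  have hd := (den_pos hl w).ne'
  push_cast
  have c1 : cos (((y : ℝ) + 1) * w) = cos (y * w) * cos w - sin (y * w) * sin w := by
    rw [add_mul, one_mul, cos_add]
  have c2 : cos (((y : ℝ) - 1) * w) = cos (y * w) * cos w + sin (y * w) * sin w := by
    rw [sub_mul, one_mul, cos_sub]
  rw [c1, c2]
  have hP : Pk l w * (1 - 2 * l * cos w + l ^ 2) = 1 - l ^ 2 := by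
    unfold Pk
    exact div_mul_cancel₀ _ hd
  linear_combination cos (y * w) * hP

private lemma bdd {l : ℝ} (hl : |l| < 1) (y : ℤ) : |I l y| ≤ I l 0 := by
  unfold I
  have h0 : (0 : ℝ) ≤ π := pi_pos.le
  refine (intervalIntegral.abs_integral_le_integral_abs h0).trans ?_
  refine intervalIntegral.integral_mono_on h0 ((ii hl y).abs) (ii hl 0) (fun w _ => ?_)
  rw [abs_mul, abs_of_pos (Pk_pos hl w)]
  have : |cos (y * w)| ≤ 1 := abs_cos_le_one _
  have h2 := (Pk_pos hl w).le
  simp only [Int.cast_zero, zero_mul, cos_zero, one_mul]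
  nlinarith

private lemma step {l : ℝ} (hl : |l| < 1) (y : ℕ) : I l ((y : ℤ) + 1) = l * I l y := by
  -- D y = I (y+1) - l I y satisfies D y = l * D (y+1)
  have hD : ∀ y : ℕ, I l ((y : ℤ) + 1) - l * I l y
      = l * (I l (((y + 1 : ℕ) : ℤ) + 1) - l * I l ((y + 1 : ℕ) : ℤ)) := by
    intro y
    have h := rec hl ((y : ℤ) + 1)
    rw [if_neg (by positivity), mul_zero] at h
    have e1 : ((y : ℤ) + 1 - 1) = y := by ring
    rw [e1] at h
    push_cast
    linear_combination h
  have hDn : ∀ n y : ℕ, I l ((y : ℤ) + 1) - l * I l y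
      = l ^ n * (I l (((y + n : ℕ) : ℤ) + 1) - l * I l ((y + n : ℕ) : ℤ)) := by
    intro n
    induction n with
    | zero => intro y; simp
    | succ n ih =>
      intro y
      rw [ih y, hD (y + n), pow_succ]
      have : y + n + 1 = y + (n + 1) := by ring
      rw [this]
      ring
  have hbound : ∀ n : ℕ, |I l ((y : ℤ) + 1) - l * I l y| ≤ |l| ^ n * (2 * I l 0) := by
    intro n
    rw [hDn n y, abs_mul, abs_pow]
    refine mul_le_mul_of_nonneg_left ?_ (by positivity)
    have b1 := bdd hl (((y + n : ℕ) : ℤ) + 1)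
    have b2 := bdd hl ((y + n : ℕ) : ℤ)
    have b3 : |l * I l ((y + n : ℕ) : ℤ)| ≤ I l 0 := by
      rw [abs_mul]
      have := abs_nonneg (I l ((y + n : ℕ) : ℤ))
      nlinarith
    have := abs_sub (I l (((y + n : ℕ) : ℤ) + 1)) (l * I l ((y + n : ℕ) : ℤ))
    linarith
  have hlim : Filter.Tendsto (fun n : ℕ => |l| ^ n * (2 * I l 0)) Filter.atTop (nhds 0) := by
    have := (tendsto_pow_atTop_nhds_zero_of_lt_one (abs_nonneg l) hl).mul_const (2 * I l 0)
    simpa using this
  have h0 : |I l ((y : ℤ) + 1) - l * I l y| ≤ 0 := ge_of_tendsto' hlim hbound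
  have h1 := abs_nonpos_iff.mp h0
  linarith

private lemma I_zero {l : ℝ} (hl : |l| < 1) : I l 0 = π := by
  have h := rec hl 0
  have hs := step hl 0
  have hm : I l (0 - 1) = I l (0 + 1) := by
    unfold I
    refine intervalIntegral.integral_congr (fun w _ => ?_)
    simp
  rw [if_pos rfl, hm] at h
  simp only [Nat.cast_zero] at hs
  rw [hs] at h
  have hn := (num_pos hl).ne'
  have : (1 - l ^ 2) * (I l 0 - π) = 0 := by linear_combination h
  rcases mul_eq_zero.mp this with h1 | h1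
  · exact absurd h1 hn
  · linarith

/-- Fourier coefficients of the Poisson kernel -/
theorem integral_Pk {l : ℝ} (hl : |l| < 1) (y : ℤ) :
    ∫ w in (0 : ℝ)..π, cos (y * w) * Pk l w = π * l ^ y.natAbs := by
  have h1 : ∀ n : ℕ, I l n = π * l ^ n := by
    intro n
    induction n with
    | zero => simpa using I_zero hl
    | succ n ih =>
      have := step hl n
      push_cast
      rw [this, ih]
      ring
  have h2 : ∫ w in (0 : ℝ)..π, cos (y * w) * Pk l w = I l (y.natAbs : ℤ) := by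
    unfold I
    refine intervalIntegral.integral_congr (fun w _ => ?_)
    congr 1
    rcases Int.natAbs_eq y with h | h
    · conv_lhs => rw [h]
    · conv_lhs => rw [h]
      push_cast
      rw [neg_mul, cos_neg]
  rw [h2, h1]

lemma sq_le_two_cosh (x : ℝ) : x ^ 2 ≤ exp x + exp (-x) - 2 := by
  have h := cosh_eq x
  have h2 : cosh x = 2 * sinh (x / 2) ^ 2 + 1 := by
    have := cosh_two_mul (x / 2)
    rw [show 2 * (x / 2) = x by ring] at this
    have h3 := cosh_sq (x / 2)
    rw [this, h3]; ring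
  have h4 : |x / 2| ≤ |sinh (x / 2)| := by
    rcases le_total 0 (x / 2) with h5 | h5
    · rw [abs_of_nonneg h5, abs_of_nonneg (sinh_nonneg_iff.mpr h5)]
      exact self_le_sinh_iff.mpr h5
    · rw [abs_of_nonpos h5, abs_of_nonpos (sinh_nonpos_iff.mpr h5)]
      exact neg_le_neg (sinh_le_self_iff.mpr h5)
  have h6 := sq_le_sq.mpr h4
  nlinarith

/-- negative eigenvalues: exact monotonicity -/
theorem mono_neg {l k w w' : ℝ} (hl : |l| < 1) (hl0 : l ≤ 0) (hw : 0 ≤ w) (hww : w ≤ w')
    (hw' : w' ≤ π) : (sy k + sy w) * Pk l w ≤ (sy k + sy w') * Pk l w' := by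
  have h1 := sy_mono hw hww hw'
  have h2 := sy_nonneg k
  have h3 := sy_nonneg w
  have hc := cos_le_cos_of_nonneg_of_le_pi hw hw' hww
  have h4 : Pk l w ≤ Pk l w' := by
    unfold Pk
    refine div_le_div_of_nonneg_left (num_pos hl).le (den_pos hl w') ?_
    nlinarith
  exact mul_le_mul (by linarith) h4 (Pk_pos hl w).le (by linarith)

/-- positive eigenvalues: monotone up to the factor `(1-η)²` -/
theorem mono_pos {l k w w' η : ℝ} (hl : |l| < 1) (hl0 : 0 < l) (hw : 0 ≤ w) (hww : w ≤ w')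
    (hw' : w' ≤ π) (hk : 0 ≤ k) (hη0 : 0 ≤ η) (hη1 : η ≤ 1) (hc : (1 - η) * k ≤ -log l) :
    (1 - η) ^ 2 * ((sy k + sy w) * Pk l w) ≤ (sy k + sy w') * Pk l w' := by
  set e : ℝ := l + 1 / l - 2 with he
  have hE : (log l) ^ 2 ≤ e := by
    have := sq_le_two_cosh (log l)
    rw [exp_neg, exp_log hl0] at this
    rw [he, one_div]
    linarith
  have hk2 : ((1 - η) * k) ^ 2 ≤ (log l) ^ 2 := by
    rw [← neg_sq (log l)]
    exact pow_le_pow_left₀ (mul_nonneg (by linarith) hk) hc 2
  set θ : ℝ := (1 - η) ^ 2 with hθ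
  have hθ0 : 0 ≤ θ := sq_nonneg _
  have hθ1 : θ ≤ 1 := by rw [hθ]; nlinarith
  have hs : θ * sy k ≤ e := by
    have := sy_le_sq k
    have h5 : θ * sy k ≤ θ * k ^ 2 := mul_le_mul_of_nonneg_left this hθ0
    have h6 : θ * k ^ 2 = ((1 - η) * k) ^ 2 := by rw [hθ]; ring
    linarith
  have hsk := sy_nonneg k
  have e0 : 0 ≤ e := (sq_nonneg _).trans hE
  have hden : ∀ v : ℝ, 1 - 2 * l * cos v + l ^ 2 = l * (e + sy v) := by
    intro v
    rw [he]; unfold sy
    field_simp
    ring
  have hpos : ∀ v : ℝ, 0 < e + sy v := by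
    intro v
    have h1 := den_pos hl v
    rw [hden v] at h1
    exact (mul_pos_iff_of_pos_left hl0).mp h1
  have hP : ∀ v : ℝ, (sy k + sy v) * Pk l v = ((1 - l ^ 2) / l) * ((sy k + sy v) / (e + sy v)) := by
    intro v
    unfold Pk
    rw [hden v]
    have := (hpos v).ne'
    field_simp
  rw [hP w, hP w']
  have hcst : 0 ≤ (1 - l ^ 2) / l := div_nonneg (num_pos hl).le hl0.le
  have t1 := sy_mono hw hww hw'
  have t0 := sy_nonneg w
  have main : θ * ((sy k + sy w) / (e + sy w)) ≤ (sy k + sy w') / (e + sy w') := by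
    rw [← mul_div_assoc, div_le_div_iff₀ (hpos w) (hpos w')]
    rcases le_total (sy k) e with h | h
    · -- exact monotone
      have h7 : (sy k + sy w) * (e + sy w') ≤ (sy k + sy w') * (e + sy w) := by nlinarith
      have h8 : 0 ≤ (sy k + sy w) * (e + sy w') := mul_nonneg (by linarith) (hpos w').le
      calc θ * (sy k + sy w) * (e + sy w') = θ * ((sy k + sy w) * (e + sy w')) := by ring
        _ ≤ 1 * ((sy k + sy w) * (e + sy w')) := mul_le_mul_of_nonneg_right hθ1 h8
        _ ≤ _ := by linarith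
    · -- e < s : first ratio ≤ 1/θ, second ≥ 1
      have h9 : θ * (sy k + sy w) ≤ e + sy w := by nlinarith
      calc θ * (sy k + sy w) * (e + sy w') ≤ (e + sy w) * (e + sy w') :=
            mul_le_mul_of_nonneg_right h9 (hpos w').le
        _ ≤ (sy k + sy w') * (e + sy w) := by nlinarith [hpos w]
  calc θ * ((1 - l ^ 2) / l * ((sy k + sy w) / (e + sy w)))
      = (1 - l ^ 2) / l * (θ * ((sy k + sy w) / (e + sy w))) := by ring
    _ ≤ _ := mul_le_mul_of_nonneg_left main hcst

end Pool.Agent.SixB
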