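import Mathlib
import Pool.Agent.Lib.SixB.S2P

/-! # 6BD step 2: decay kills the atoms; the measure `muM` on `(0,π)²`. -/

namespace Pool.Agent.SixB

open MeasureTheory Set Filter Topology Real

/-- Cesàro criterion: no mass where all `u i = 1` -/
private lemma atom_zero {α : Type*} [MeasurableSpace α] {ρ : Measure α} [IsFiniteMeasure ρ]
    (u : ℕ → α → ℝ) (hu : ∀ i, Measurable (u i)) (hb : ∀ i, ∀ᵐ p ∂ρ, |u i p| ≤ 1) (Z : Set α)
    (hZ : MeasurableSet Z) (hZ1 : ∀ p ∈ Z, ∀ i, u i p = 1)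
    (hZ2 : ∀ᵐ p ∂ρ, p ∉ Z → ∃ B : ℝ, ∀ n : ℕ, |∑ i ∈ Finset.range n, u i p| ≤ B)
    (hlim : Tendsto (fun i => ∫ p, u i p ∂ρ) atTop (𝓝 0)) : ρ Z = 0 := by
  have h1 := hlim.cesaro
  have hint : ∀ i, Integrable (u i) ρ := fun i =>
    Integrable.of_bound (hu i).aestronglyMeasurable 1 (hb i)
  have h2 : Tendsto (fun n : ℕ => ∫ p, (n : ℝ)⁻¹ * ∑ i ∈ Finset.range n, u i p ∂ρ) atTop
      (𝓝 (∫ p, Z.indicator (fun _ => (1 : ℝ)) p ∂ρ)) := by
    refine tendsto_integral_of_dominated_convergence (fun _ => (1 : ℝ)) ?_ (integrable_const _) ?_ ?_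
    · intro n
      exact ((Finset.measurable_sum _ (fun i _ => hu i)).const_mul _).aestronglyMeasurable
    · intro n
      have hb' : ∀ᵐ p ∂ρ, ∀ i, |u i p| ≤ 1 := ae_all_iff.mpr hb
      filter_upwards [hb'] with p hp
      rw [Real.norm_eq_abs, abs_mul, abs_inv, Nat.abs_cast]
      have : |∑ i ∈ Finset.range n, u i p| ≤ n := by
        refine (Finset.abs_sum_le_sum_abs _ _).trans ?_
        calc ∑ i ∈ Finset.range n, |u i p| ≤ ∑ i ∈ Finset.range n, (1 : ℝ) :=
              Finset.sum_le_sum (fun i _ => hp i)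
          _ = n := by simp
      rcases Nat.eq_zero_or_pos n with h | h
      · subst h; simp
      · have hn : (0 : ℝ) < n := by exact_mod_cast h
        rw [inv_mul_le_iff₀ hn]
        simpa using this
    · filter_upwards [hZ2] with p hp
      by_cases hpZ : p ∈ Z
      · have : ∀ n : ℕ, n ≠ 0 → (n : ℝ)⁻¹ * ∑ i ∈ Finset.range n, u i p = 1 := by
          intro n hn
          simp only [hZ1 p hpZ, Finset.sum_const, Finset.card_range, nsmul_eq_mul, mul_one]
          have : (n : ℝ) ≠ 0 := by exact_mod_cast hn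
          field_simp
        rw [indicator_of_mem hpZ]
        refine tendsto_const_nhds.congr' ?_
        filter_upwards [eventually_ne_atTop 0] with n hn
        exact (this n hn).symm
      · obtain ⟨B, hB⟩ := hp hpZ
        rw [indicator_of_notMem hpZ]
        have h3 : Tendsto (fun n : ℕ => (n : ℝ)⁻¹ * B) atTop (𝓝 0) := by
          simpa using (tendsto_inv_atTop_nhds_zero_nat (𝕜 := ℝ)).mul_const B
        refine squeeze_zero_norm (fun n => ?_) h3
        rw [Real.norm_eq_abs, abs_mul, abs_inv, Nat.abs_cast]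
        exact mul_le_mul_of_nonneg_left (hB n) (by positivity)
  have h3 : ∀ n : ℕ, ∫ p, (n : ℝ)⁻¹ * ∑ i ∈ Finset.range n, u i p ∂ρ
      = (n : ℝ)⁻¹ * ∑ i ∈ Finset.range n, ∫ p, u i p ∂ρ := by
    intro n
    rw [integral_const_mul, integral_finsetSum _ (fun i _ => hint i)]
  simp_rw [h3] at h2
  have h4 := tendsto_nhds_unique h1 h2
  rw [integral_indicator_const _ hZ, smul_eq_mul, mul_one] at h4
  exact (measureReal_eq_zero_iff).mp h4.symm

private lemma sum_cos_bound {k : ℝ} (hk0 : 0 < k) (hk1 : k ≤ π) (n : ℕ) :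
    |∑ i ∈ Finset.range n, cos (i * k)| ≤ 1 / sin (k / 2) := by
  have hs : 0 < sin (k / 2) := sin_pos_of_pos_of_lt_pi (by linarith) (by linarith [pi_pos])
  have h : ∀ n : ℕ, 2 * sin (k / 2) * ∑ i ∈ Finset.range n, cos (i * k)
      = sin ((n - 1 / 2) * k) + sin (k / 2) := by
    intro n
    induction n with
    | zero =>
      simp only [Finset.range_zero, Finset.sum_empty, mul_zero, Nat.cast_zero]
      rw [show ((0 : ℝ) - 1 / 2) * k = -(k / 2) by ring, sin_neg]
      ring
    | succ n ih =>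
      rw [Finset.sum_range_succ, mul_add, ih]
      push_cast
      have e1 : ((n : ℝ) - 1 / 2) * k = n * k - k / 2 := by ring
      have e2 : ((n : ℝ) + 1 - 1 / 2) * k = n * k + k / 2 := by ring
      rw [e1, e2, sin_sub, sin_add]
      ring
  rw [le_div_iff₀ hs]
  have h1 : |2 * sin (k / 2) * ∑ i ∈ Finset.range n, cos (i * k)| ≤ 2 := by
    rw [h n]
    have a := abs_sin_le_one ((n - 1 / 2) * k)
    have b := abs_sin_le_one (k / 2)
    have := abs_add_le (sin ((n - 1 / 2) * k)) (sin (k / 2))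
    linarith
  rw [abs_mul, abs_of_pos (by positivity)] at h1
  nlinarith

/-- decay kills the atoms of `ρ` -/
theorem no_atoms {C : ℤ → ℤ → ℝ} {ρ : Measure (ℝ × ℝ)} [IsFiniteMeasure ρ]
    (hsupp : ∀ᵐ p ∂ρ, p.1 ∈ Icc 0 π ∧ p.2 ∈ Icc (-1 : ℝ) 1)
    (hC : ∀ x y : ℤ, C x y = ∫ p, cos (x * p.1) * p.2 ^ y.natAbs ∂ρ)
    (hdecx : Tendsto (fun x : ℕ => C x 0) atTop (𝓝 0))
    (hdecy : Tendsto (fun y : ℕ => C 0 y) atTop (𝓝 0)) :
    ∀ᵐ p ∂ρ, 0 < p.1 ∧ p.1 ≤ π ∧ |p.2| < 1 := by
  have h1 : ρ {p | p.1 = 0} = 0 := by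
    refine atom_zero (fun i p => cos (i * p.1)) (fun i => by fun_prop)
      (fun i => Eventually.of_forall fun p => abs_cos_le_one _) _
      (measurable_fst (measurableSet_singleton 0)) ?_ ?_ ?_
    · intro p hp i
      have : p.1 = 0 := hp
      simp [this]
    · filter_upwards [hsupp] with p hp hpZ
      refine ⟨1 / sin (p.1 / 2), fun n => sum_cos_bound ?_ hp.1.2 n⟩
      exact lt_of_le_of_ne hp.1.1 (fun h => hpZ h.symm)
    · refine hdecx.congr fun x => ?_
      rw [hC]
      simp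
  have h2 : ρ {p | p.2 = 1} = 0 := by
    refine atom_zero (fun i p => max (-1) (min 1 p.2) ^ i) (fun i => by fun_prop)
      (fun i => Eventually.of_forall fun p => ?_) _
      (measurable_snd (measurableSet_singleton 1)) ?_ ?_ ?_
    · rw [abs_pow]
      refine pow_le_one₀ (abs_nonneg _) (abs_le.mpr ⟨le_max_left _ _, max_le (by norm_num) (min_le_left _ _)⟩)
    · intro p hp i
      have : p.2 = 1 := hp
      simp [this]
    · filter_upwards [hsupp] with p hp hpZ
      have e : max (-1) (min 1 p.2) = p.2 := by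
        rw [min_eq_right hp.2.2, max_eq_right hp.2.1]
      refine ⟨2 / (1 - p.2), fun n => ?_⟩
      have hlt : p.2 < 1 := lt_of_le_of_ne hp.2.2 hpZ
      simp only [e]
      rw [geom_sum_eq hlt.ne, abs_div, abs_of_neg (by linarith : p.2 - 1 < 0), neg_sub]
      refine div_le_div_of_nonneg_right ?_ (by linarith)
      have : |p.2 ^ n| ≤ 1 := by
        rw [abs_pow]; exact pow_le_one₀ (abs_nonneg _) (abs_le.mpr ⟨hp.2.1, hp.2.2⟩)
      have h5 := abs_sub (p.2 ^ n) 1
      rw [abs_one] at h5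
      linarith
    · refine hdecy.congr fun y => ?_
      rw [hC]
      refine integral_congr_ae ?_
      filter_upwards [hsupp] with p hp
      rw [min_eq_right hp.2.2, max_eq_right hp.2.1]
      simp
  have h3 : ρ {p | p.2 = -1} = 0 := by
    refine atom_zero (fun i p => (- max (-1) (min 1 p.2)) ^ i) (fun i => by fun_prop)
      (fun i => Eventually.of_forall fun p => ?_) _
      (measurable_snd (measurableSet_singleton (-1))) ?_ ?_ ?_
    · rw [abs_pow, abs_neg]
      refine pow_le_one₀ (abs_nonneg _) (abs_le.mpr ⟨le_max_left _ _, max_le (by norm_num) (min_le_left _ _)⟩)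
    · intro p hp i
      have : p.2 = -1 := hp
      simp [this]
    · filter_upwards [hsupp] with p hp hpZ
      have e : max (-1) (min 1 p.2) = p.2 := by
        rw [min_eq_right hp.2.2, max_eq_right hp.2.1]
      refine ⟨2 / (1 + p.2), fun n => ?_⟩
      have hlt : -1 < p.2 := lt_of_le_of_ne hp.2.1 (fun h => hpZ h.symm)
      simp only [e]
      rw [geom_sum_eq (by linarith : -p.2 ≠ 1), abs_div, abs_of_neg (by linarith : -p.2 - 1 < 0)]
      rw [show -(-p.2 - 1) = 1 + p.2 by ring]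
      refine div_le_div_of_nonneg_right ?_ (by linarith)
      have : |(-p.2) ^ n| ≤ 1 := by
        rw [abs_pow, abs_neg]; exact pow_le_one₀ (abs_nonneg _) (abs_le.mpr ⟨hp.2.1, hp.2.2⟩)
      have h5 := abs_sub ((-p.2) ^ n) 1
      rw [abs_one] at h5
      linarith
    · have h6 : ∀ y : ℕ, ∫ p, (- max (-1) (min 1 p.2)) ^ y ∂ρ = (-1) ^ y * C 0 y := by
        intro y
        rw [hC, ← integral_const_mul]
        refine integral_congr_ae ?_
        filter_upwards [hsupp] with p hp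
        rw [min_eq_right hp.2.2, max_eq_right hp.2.1, neg_pow]
        simp
      simp_rw [h6]
      refine squeeze_zero_norm (fun y => ?_) (by simpa using hdecy.abs)
      rw [norm_mul, norm_pow, norm_neg, norm_one, one_pow, one_mul, Real.norm_eq_abs]
  have h1' : ∀ᵐ p ∂ρ, ¬ (p.1 = 0) := by rw [ae_iff]; simpa using h1
  have h2' : ∀ᵐ p ∂ρ, ¬ (p.2 = 1) := by rw [ae_iff]; simpa using h2
  have h3' : ∀ᵐ p ∂ρ, ¬ (p.2 = -1) := by rw [ae_iff]; simpa using h3
  filter_upwards [hsupp, h1', h2', h3'] with p hp a b c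
  refine ⟨lt_of_le_of_ne hp.1.1 (fun h => a h.symm), hp.1.2, abs_lt.mpr ⟨?_, ?_⟩⟩
  · exact lt_of_le_of_ne hp.2.1 (fun h => c h.symm)
  · exact lt_of_le_of_ne hp.2.2 b

end Pool.Agent.SixB
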