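import Mathlib

/-! # 6BD step 2, almost monotone measures on `(0,ε]²`: comparison with Lebesgue measure near `0`. -/

namespace Pool.Agent.SixB

open MeasureTheory Set Filter Topology

/-- the half open square `(0,e]²` -/
def Sq (e : ℝ) : Set (ℝ × ℝ) := Ioc 0 e ×ˢ Ioc 0 e

lemma measurableSet_Sq (e : ℝ) : MeasurableSet (Sq e) := measurableSet_Ioc.prod measurableSet_Ioc

lemma Sq_mono {d e : ℝ} (h : d ≤ e) : Sq d ⊆ Sq e :=
  prod_mono (Ioc_subset_Ioc_right h) (Ioc_subset_Ioc_right h)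

lemma volume_box (a b c d : ℝ) : (volume : Measure (ℝ × ℝ)) (Ioc a b ×ˢ Ioc c d)
    = ENNReal.ofReal (b - a) * ENNReal.ofReal (d - c) := by
  rw [Measure.volume_eq_prod, Measure.prod_prod, Real.volume_Ioc, Real.volume_Ioc]

lemma volume_real_box {a b c d : ℝ} (h1 : a ≤ b) (h2 : c ≤ d) :
    (volume : Measure (ℝ × ℝ)).real (Ioc a b ×ˢ Ioc c d) = (b - a) * (d - c) := by
  rw [Measure.real, volume_box, ENNReal.toReal_mul, ENNReal.toReal_ofReal (by linarith),
    ENNReal.toReal_ofReal (by linarith)]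

lemma volume_Sq_lt_top (e : ℝ) : (volume : Measure (ℝ × ℝ)) (Sq e) < ⊤ := by
  unfold Sq
  rw [volume_box]
  exact ENNReal.mul_lt_top ENNReal.ofReal_lt_top ENNReal.ofReal_lt_top

/-- almost monotone under positive translations, inside `(0,e]²`, factor `θ` -/
def TransMono (κ : Measure (ℝ × ℝ)) (θ e : ℝ) : Prop :=
  ∀ (S : Set (ℝ × ℝ)), MeasurableSet S → ∀ b : ℝ × ℝ, 0 ≤ b.1 → 0 ≤ b.2 → S ⊆ Sq e →
    (∀ p ∈ S, p + b ∈ Sq e) → ENNReal.ofReal θ * κ S ≤ κ ((fun p => p - b) ⁻¹' S)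

/-- the transport inequality -/
theorem transport {κ : Measure (ℝ × ℝ)} [IsFiniteMeasure κ] {θ e : ℝ} (h : TransMono κ θ e)
    {A B : Set (ℝ × ℝ)} (hA : MeasurableSet A) (hB : MeasurableSet B) (hAe : A ⊆ Sq e)
    (hBe : B ⊆ Sq e) (hAB : ∀ a ∈ A, ∀ b ∈ B, a.1 ≤ b.1 ∧ a.2 ≤ b.2) :
    ENNReal.ofReal θ * (κ A * volume B) ≤ κ B * volume A := by
  -- left: Fubini
  have hl : κ A * volume B = ∫⁻ b : ℝ × ℝ, κ (A ∩ (fun x => x + b) ⁻¹' B) := by
    have h1 : ∀ b : ℝ × ℝ, κ (A ∩ (fun x => x + b) ⁻¹' B)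
        = ∫⁻ x, A.indicator 1 x * B.indicator (1 : ℝ × ℝ → ENNReal) (x + b) ∂κ := by
      intro b
      have hm : MeasurableSet (A ∩ (fun x => x + b) ⁻¹' B) :=
        hA.inter (measurable_id.add_const b hB)
      rw [← lintegral_indicator_one hm]
      refine lintegral_congr fun x => ?_
      by_cases ha : x ∈ A <;> by_cases hb : x + b ∈ B <;> simp [ha, hb, indicator]
    simp_rw [h1]
    rw [lintegral_lintegral_swap]
    · have h2 : ∀ x : ℝ × ℝ, ∫⁻ b : ℝ × ℝ, A.indicator 1 x * B.indicator (1 : ℝ × ℝ → ENNReal) (x + b)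
          = A.indicator 1 x * volume B := by
        intro x
        have hm1 : Measurable (fun b : ℝ × ℝ => B.indicator (1 : ℝ × ℝ → ENNReal) (x + b)) :=
          (measurable_one.indicator hB).comp (measurable_const.add measurable_id)
        rw [lintegral_const_mul _ hm1]
        rw [lintegral_add_left_eq_self (fun b => B.indicator (1 : ℝ × ℝ → ENNReal) b) x,
          lintegral_indicator_one hB]
      simp_rw [h2]
      rw [lintegral_mul_const _ (measurable_one.indicator hA), lintegral_indicator_one hA]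
    · have m1 : Measurable (fun p : (ℝ × ℝ) × (ℝ × ℝ) => A.indicator (1 : ℝ × ℝ → ENNReal) p.2) :=
        (measurable_one.indicator hA).comp measurable_snd
      have m2 : Measurable (fun p : (ℝ × ℝ) × (ℝ × ℝ) => B.indicator (1 : ℝ × ℝ → ENNReal) (p.2 + p.1)) :=
        (measurable_one.indicator hB).comp (measurable_snd.add measurable_fst)
      exact (m1.mul m2).aemeasurable
  have hr : κ B * volume A = ∫⁻ b : ℝ × ℝ, κ (B ∩ (fun y => y - b) ⁻¹' A) := by
    have h1 : ∀ b : ℝ × ℝ, κ (B ∩ (fun y => y - b) ⁻¹' A)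
        = ∫⁻ y, B.indicator 1 y * A.indicator (1 : ℝ × ℝ → ENNReal) (y - b) ∂κ := by
      intro b
      have hm : MeasurableSet (B ∩ (fun y => y - b) ⁻¹' A) :=
        hB.inter (measurable_id.sub_const b hA)
      rw [← lintegral_indicator_one hm]
      refine lintegral_congr fun x => ?_
      by_cases ha : x ∈ B <;> by_cases hb : x - b ∈ A <;> simp [ha, hb, indicator]
    simp_rw [h1]
    rw [lintegral_lintegral_swap]
    · have h2 : ∀ y : ℝ × ℝ, ∫⁻ b : ℝ × ℝ, B.indicator 1 y * A.indicator (1 : ℝ × ℝ → ENNReal) (y - b)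
          = B.indicator 1 y * volume A := by
        intro x
        have hm1 : Measurable (fun b : ℝ × ℝ => A.indicator (1 : ℝ × ℝ → ENNReal) (x - b)) :=
          (measurable_one.indicator hA).comp (measurable_const.sub measurable_id)
        rw [lintegral_const_mul _ hm1]
        rw [lintegral_sub_left_eq_self (fun b => A.indicator (1 : ℝ × ℝ → ENNReal) b) x,
          lintegral_indicator_one hA]
      simp_rw [h2]
      rw [lintegral_mul_const _ (measurable_one.indicator hB), lintegral_indicator_one hB]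
    · have m1 : Measurable (fun p : (ℝ × ℝ) × (ℝ × ℝ) => B.indicator (1 : ℝ × ℝ → ENNReal) p.2) :=
        (measurable_one.indicator hB).comp measurable_snd
      have m2 : Measurable (fun p : (ℝ × ℝ) × (ℝ × ℝ) => A.indicator (1 : ℝ × ℝ → ENNReal) (p.2 - p.1)) :=
        (measurable_one.indicator hA).comp (measurable_snd.sub measurable_fst)
      exact (m1.mul m2).aemeasurable
  have hmeas : Measurable fun b : ℝ × ℝ => κ (A ∩ (fun x => x + b) ⁻¹' B) := by
    have hms : MeasurableSet {p : (ℝ × ℝ) × (ℝ × ℝ) | p.2 ∈ A ∧ p.2 + p.1 ∈ B} :=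
      (measurable_snd hA).inter ((measurable_snd.add measurable_fst) hB)
    exact measurable_measure_prodMk_left hms
  rw [hl, hr, ← lintegral_const_mul _ hmeas]
  refine lintegral_mono fun b => ?_
  simp only
  rcases (A ∩ (fun x => x + b) ⁻¹' B).eq_empty_or_nonempty with he | ⟨x, hx⟩
  · rw [he]; simp
  · have hb := hAB x hx.1 (x + b) hx.2
    have hb1 : 0 ≤ b.1 := by
      have := hb.1
      simp only [Prod.fst_add] at this
      linarith
    have hb2 : 0 ≤ b.2 := by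
      have := hb.2
      simp only [Prod.snd_add] at this
      linarith
    refine (h _ (hA.inter (measurable_id.add_const b hB)) b hb1 hb2 (fun p hp => hAe hp.1)
      (fun p hp => hBe hp.2)).trans (measure_mono ?_)
    intro y hy
    refine ⟨?_, hy.1⟩
    have := hy.2
    simpa using this

/-- real form of the transport inequality -/
theorem transport_real {κ : Measure (ℝ × ℝ)} [IsFiniteMeasure κ] {θ e : ℝ} (hθ : 0 ≤ θ)
    (h : TransMono κ θ e)
    {A B : Set (ℝ × ℝ)} (hA : MeasurableSet A) (hB : MeasurableSet B) (hAe : A ⊆ Sq e)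
    (hBe : B ⊆ Sq e) (hAB : ∀ a ∈ A, ∀ b ∈ B, a.1 ≤ b.1 ∧ a.2 ≤ b.2) :
    θ * (κ.real A * (volume : Measure (ℝ × ℝ)).real B)
      ≤ κ.real B * (volume : Measure (ℝ × ℝ)).real A := by
  have h1 := transport h hA hB hAe hBe hAB
  have hvA : (volume : Measure (ℝ × ℝ)) A < ⊤ := (measure_mono hAe).trans_lt (volume_Sq_lt_top e)
  have h2 := ENNReal.toReal_mono (ENNReal.mul_ne_top (measure_ne_top κ B) hvA.ne) h1
  rwa [ENNReal.toReal_mul, ENNReal.toReal_mul, ENNReal.toReal_mul, ENNReal.toReal_ofReal hθ] at h2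

private noncomputable def m (κ : Measure (ℝ × ℝ)) (d : ℝ) : ℝ := κ.real (Sq d) / d ^ 2

private lemma m_nonneg (κ : Measure (ℝ × ℝ)) (d : ℝ) : 0 ≤ m κ d := by unfold m; positivity

private lemma lower {κ : Measure (ℝ × ℝ)} [IsFiniteMeasure κ] {θ e K : ℝ} (hθ : 0 ≤ θ)
    (he : 0 < e) (h : TransMono κ θ e) (hK : ∃ᶠ d in 𝓝[>] (0 : ℝ), K < m κ d) (hK0 : 0 ≤ K)
    {B : Set (ℝ × ℝ)} (hB : MeasurableSet B) (hBe : B ⊆ Sq e) :
    θ * K * (volume : Measure (ℝ × ℝ)).real B ≤ κ.real B := by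
  set v : Measure (ℝ × ℝ) := volume
  have hvB : v B < ⊤ := (measure_mono hBe).trans_lt (volume_Sq_lt_top e)
  -- for such d
  have key : ∀ d : ℝ, 0 < d → d < e → K < m κ d → θ * K * (v.real B - 2 * e * d) ≤ κ.real B := by
    intro d hd hde hKd
    have hA : MeasurableSet (Sq d) := measurableSet_Sq d
    have hD : MeasurableSet (Ioc d e ×ˢ Ioc d e : Set (ℝ × ℝ)) := measurableSet_Ioc.prod measurableSet_Ioc
    have hBd : MeasurableSet (B ∩ Ioc d e ×ˢ Ioc d e) := hB.inter hD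
    have t := transport_real hθ h hA hBd (Sq_mono hde.le) (fun p hp => hBe hp.1) (by
      intro a ha b hb
      exact ⟨ha.1.2.trans hb.2.1.1.le, ha.2.2.trans hb.2.2.1.le⟩)
    have hvd : v.real (Sq d) = d ^ 2 := by
      have := volume_real_box (a := 0) (b := d) (c := 0) (d := d) hd.le hd.le
      unfold Sq
      rw [show v = volume from rfl, this]; ring
    rw [hvd] at t
    have hmd : κ.real (Sq d) = m κ d * d ^ 2 := by
      unfold m
      field_simp
    rw [hmd] at t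
    have hd2 : 0 < d ^ 2 := by positivity
    have t2 : θ * (m κ d * v.real (B ∩ Ioc d e ×ˢ Ioc d e)) ≤ κ.real (B ∩ Ioc d e ×ˢ Ioc d e) := by
      have : θ * (m κ d * d ^ 2 * v.real (B ∩ Ioc d e ×ˢ Ioc d e))
          = (θ * (m κ d * v.real (B ∩ Ioc d e ×ˢ Ioc d e))) * d ^ 2 := by ring
      rw [show (volume : Measure (ℝ × ℝ)) = v from rfl, this] at t
      exact le_of_mul_le_mul_right t hd2
    have t3 : κ.real (B ∩ Ioc d e ×ˢ Ioc d e) ≤ κ.real B := measureReal_mono inter_subset_left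
    have t4 : v.real B ≤ v.real (B ∩ Ioc d e ×ˢ Ioc d e) + 2 * e * d := by
      have hcov : B ⊆ (B ∩ Ioc d e ×ˢ Ioc d e) ∪ (Ioc 0 d ×ˢ Ioc 0 e ∪ Ioc 0 e ×ˢ Ioc 0 d) := by
        intro p hp
        have hp' := hBe hp
        by_cases h1 : d < p.1
        · by_cases h2 : d < p.2
          · exact Or.inl ⟨hp, ⟨h1, hp'.1.2⟩, ⟨h2, hp'.2.2⟩⟩
          · exact Or.inr (Or.inr ⟨hp'.1, ⟨hp'.2.1, not_lt.mp h2⟩⟩)
        · exact Or.inr (Or.inl ⟨⟨hp'.1.1, not_lt.mp h1⟩, hp'.2⟩)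
      have fin1 : v (B ∩ Ioc d e ×ˢ Ioc d e) ≠ ⊤ := ((measure_mono inter_subset_left).trans_lt hvB).ne
      have fin2 : v (Ioc 0 d ×ˢ Ioc 0 e) ≠ ⊤ := by
        rw [show v = volume from rfl, volume_box]
        exact ENNReal.mul_ne_top ENNReal.ofReal_ne_top ENNReal.ofReal_ne_top
      have fin3 : v (Ioc 0 e ×ˢ Ioc 0 d) ≠ ⊤ := by
        rw [show v = volume from rfl, volume_box]
        exact ENNReal.mul_ne_top ENNReal.ofReal_ne_top ENNReal.ofReal_ne_top
      have s1 : v.real B ≤ v.real ((B ∩ Ioc d e ×ˢ Ioc d e) ∪ (Ioc 0 d ×ˢ Ioc 0 e ∪ Ioc 0 e ×ˢ Ioc 0 d)) :=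
        measureReal_mono hcov (measure_union_ne_top fin1 (measure_union_ne_top fin2 fin3))
      have s2 := measureReal_union_le (μ := v) (B ∩ Ioc d e ×ˢ Ioc d e)
        (Ioc 0 d ×ˢ Ioc 0 e ∪ Ioc 0 e ×ˢ Ioc 0 d)
      have s3 := measureReal_union_le (μ := v) (Ioc 0 d ×ˢ Ioc 0 e : Set (ℝ × ℝ)) (Ioc 0 e ×ˢ Ioc 0 d)
      have s4 : v.real (Ioc 0 d ×ˢ Ioc 0 e) = d * e := by
        rw [show v = volume from rfl, volume_real_box hd.le he.le]; ring
      have s5 : v.real (Ioc 0 e ×ˢ Ioc 0 d) = e * d := by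
        rw [show v = volume from rfl, volume_real_box he.le hd.le]; ring
      rw [s4, s5] at s3
      linarith
    have t5 : θ * (K * v.real (B ∩ Ioc d e ×ˢ Ioc d e)) ≤ θ * (m κ d * v.real (B ∩ Ioc d e ×ˢ Ioc d e)) := by
      refine mul_le_mul_of_nonneg_left ?_ hθ
      exact mul_le_mul_of_nonneg_right hKd.le measureReal_nonneg
    have t6 : θ * K * (v.real B - 2 * e * d) ≤ θ * K * v.real (B ∩ Ioc d e ×ˢ Ioc d e) :=
      mul_le_mul_of_nonneg_left (by linarith) (mul_nonneg hθ hK0)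
    have t7 : θ * K * v.real (B ∩ Ioc d e ×ˢ Ioc d e) = θ * (K * v.real (B ∩ Ioc d e ×ˢ Ioc d e)) := by
      ring
    linarith
  by_contra hne
  push Not at hne
  -- choose d small
  have hlt : ∀ᶠ d in 𝓝[>] (0 : ℝ), κ.real B < θ * K * (v.real B - 2 * e * d) := by
    have hc : Tendsto (fun d : ℝ => θ * K * (v.real B - 2 * e * d)) (𝓝[>] 0)
        (𝓝 (θ * K * (v.real B - 2 * e * 0))) := by
      refine Tendsto.mono_left ?_ nhdsWithin_le_nhds
      exact (Continuous.tendsto (by fun_prop) 0)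
    refine hc.eventually_const_lt ?_
    simpa using hne
  have hpos : ∀ᶠ d in 𝓝[>] (0 : ℝ), 0 < d := eventually_mem_nhdsWithin
  have hsm : ∀ᶠ d in 𝓝[>] (0 : ℝ), d < e := by
    have : Iio e ∈ 𝓝 (0 : ℝ) := Iio_mem_nhds he
    exact nhdsWithin_le_nhds this
  obtain ⟨d, hd1, hd2, hd3, hd4⟩ := (hK.and_eventually (hlt.and (hpos.and hsm))).exists
  have := key d hd3 hd4 hd1
  linarith

private lemma upper {κ : Measure (ℝ × ℝ)} [IsFiniteMeasure κ] {θ e : ℝ} (hθ : 0 ≤ θ)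
    (h : TransMono κ θ e) {d M : ℝ} (hd : 0 < d) (hM : 1 < M) (hde : M * d ≤ e)
    {A : Set (ℝ × ℝ)} (hA : MeasurableSet A) (hAd : A ⊆ Sq d) :
    θ * (M - 1) ^ 2 * κ.real A ≤ M ^ 2 * m κ (M * d) * (volume : Measure (ℝ × ℝ)).real A := by
  have hMd : d ≤ M * d := by nlinarith
  have hDm : MeasurableSet (Ioc d (M * d) ×ˢ Ioc d (M * d) : Set (ℝ × ℝ)) :=
    measurableSet_Ioc.prod measurableSet_Ioc
  have hDs : (Ioc d (M * d) ×ˢ Ioc d (M * d) : Set (ℝ × ℝ)) ⊆ Sq (M * d) :=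
    prod_mono (Ioc_subset_Ioc_left hd.le) (Ioc_subset_Ioc_left hd.le)
  have t := transport_real hθ h hA hDm (hAd.trans (Sq_mono (hMd.trans hde)))
    (hDs.trans (Sq_mono hde)) (by
      intro a ha b hb
      exact ⟨(hAd ha).1.2.trans hb.1.1.le, (hAd ha).2.2.trans hb.2.1.le⟩)
  rw [volume_real_box hMd hMd] at t
  have t1 : κ.real (Ioc d (M * d) ×ˢ Ioc d (M * d)) ≤ m κ (M * d) * (M * d) ^ 2 := by
    have : m κ (M * d) * (M * d) ^ 2 = κ.real (Sq (M * d)) := by
      unfold m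
      have : (M * d) ^ 2 ≠ 0 := by positivity
      field_simp
    rw [this]
    exact measureReal_mono hDs
  have t2 : κ.real (Ioc d (M * d) ×ˢ Ioc d (M * d)) * (volume : Measure (ℝ × ℝ)).real A
      ≤ m κ (M * d) * (M * d) ^ 2 * (volume : Measure (ℝ × ℝ)).real A :=
    mul_le_mul_of_nonneg_right t1 measureReal_nonneg
  have hd2 : 0 < d ^ 2 := by positivity
  refine le_of_mul_le_mul_right ?_ hd2
  calc θ * (M - 1) ^ 2 * κ.real A * d ^ 2
      = θ * (κ.real A * ((M * d - d) * (M * d - d))) := by ring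
    _ ≤ m κ (M * d) * (M * d) ^ 2 * (volume : Measure (ℝ × ℝ)).real A := t.trans t2
    _ = M ^ 2 * m κ (M * d) * (volume : Measure (ℝ × ℝ)).real A * d ^ 2 := by ring

/-- Lemma C: near the origin an almost monotone finite measure is close to a multiple of
Lebesgue measure. -/
theorem exists_K0 (κ : Measure (ℝ × ℝ)) [IsFiniteMeasure κ]
    (h : ∀ θ : ℝ, 0 ≤ θ → θ < 1 → ∃ e > 0, TransMono κ θ e) :
    ∃ K0 : ℝ, 0 ≤ K0 ∧ ∀ η > 0, ∃ e > 0, ∀ B : Set (ℝ × ℝ), MeasurableSet B → B ⊆ Sq e →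
      (K0 - η) * (volume : Measure (ℝ × ℝ)).real B ≤ κ.real B ∧
      κ.real B ≤ (K0 + η) * (volume : Measure (ℝ × ℝ)).real B := by
  -- boundedness of m
  have hbdd : ∃ C : ℝ, ∀ᶠ d in 𝓝[>] (0 : ℝ), m κ d ≤ C := by
    obtain ⟨e, he, hT⟩ := h (1 / 2) (by norm_num) (by norm_num)
    refine ⟨2 * (4 * m κ e), ?_⟩
    have hpos : ∀ᶠ d in 𝓝[>] (0 : ℝ), 0 < d := eventually_mem_nhdsWithin
    have hsm : ∀ᶠ d in 𝓝[>] (0 : ℝ), d < e / 2 := by
      have : Iio (e / 2) ∈ 𝓝 (0 : ℝ) := Iio_mem_nhds (by linarith)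
      exact nhdsWithin_le_nhds this
    filter_upwards [hpos, hsm] with d hd hde
    have hup := upper (κ := κ) (θ := 1 / 2) (by norm_num) hT (d := e / 2) (M := 2) (by linarith)
      (by norm_num) (by linarith) (measurableSet_Sq d) (Sq_mono hde.le)
    have hv : (volume : Measure (ℝ × ℝ)).real (Sq d) = d ^ 2 := by
      unfold Sq
      rw [volume_real_box hd.le hd.le]; ring
    rw [hv] at hup
    have e2 : (2 : ℝ) * (e / 2) = e := by ring
    rw [e2] at hup
    unfold m at hup ⊢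
    rw [div_le_iff₀ (by positivity)]
    linarith
  obtain ⟨C, hC⟩ := hbdd
  have hbu : IsBoundedUnder (· ≤ ·) (𝓝[>] (0 : ℝ)) (m κ) := ⟨C, by simpa using hC⟩
  have hbl : IsCoboundedUnder (· ≤ ·) (𝓝[>] (0 : ℝ)) (m κ) := by
    refine IsBoundedUnder.isCoboundedUnder_le ?_
    exact ⟨0, by simpa using Eventually.of_forall (fun d => m_nonneg κ d)⟩
  set K0 : ℝ := limsup (m κ) (𝓝[>] (0 : ℝ)) with hK0
  have hK0n : 0 ≤ K0 := by
    refine le_limsup_of_frequently_le (Frequently.of_forall fun d => m_nonneg κ d) hbu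
  refine ⟨K0, hK0n, fun η hη => ?_⟩
  -- parameters
  obtain ⟨θ, hθ0, hθ1, hθa, hθb⟩ : ∃ θ : ℝ, 0 < θ ∧ θ < 1 ∧ K0 - η ≤ θ * (K0 - η / 2) ∧
      (K0 + η / 4) ≤ θ * (K0 + η / 2) := by
    refine ⟨1 - η / (4 * (K0 + η + 1)), ?_, ?_, ?_, ?_⟩
    · have : η / (4 * (K0 + η + 1)) < 1 := by
        rw [div_lt_one (by positivity)]; nlinarith
      linarith
    · have : 0 < η / (4 * (K0 + η + 1)) := by positivity
      linarith
    · have h1 : η / (4 * (K0 + η + 1)) * (K0 - η / 2) ≤ η / 2 := by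
        rw [div_mul_eq_mul_div, div_le_iff₀ (by positivity)]
        nlinarith
      nlinarith
    · have h1 : η / (4 * (K0 + η + 1)) * (K0 + η / 2) ≤ η / 4 := by
        rw [div_mul_eq_mul_div, div_le_iff₀ (by positivity)]
        nlinarith
      nlinarith
  obtain ⟨e, he, hT⟩ := h θ hθ0.le hθ1
  -- M with (M/(M-1))^2 (K0 + η/4 ...)
  obtain ⟨M, hM1, hM⟩ : ∃ M : ℝ, 1 < M ∧ M ^ 2 * (K0 + η / 4) ≤ θ * (M - 1) ^ 2 * (K0 + η) := by
    have hlim : Tendsto (fun M : ℝ => θ * (K0 + η) * (1 - M⁻¹) ^ 2) atTop (𝓝 (θ * (K0 + η) * (1 - 0) ^ 2)) := by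
      refine Tendsto.const_mul _ (Tendsto.pow (Tendsto.const_sub _ ?_) 2)
      exact tendsto_inv_atTop_zero
    have hlt : K0 + η / 4 < θ * (K0 + η) * (1 - 0) ^ 2 := by
      have : θ * (K0 + η / 2) < θ * (K0 + η) := by
        apply mul_lt_mul_of_pos_left _ hθ0; linarith
      rw [sub_zero, one_pow, mul_one]
      linarith
    obtain ⟨M, hM2, hM3⟩ := ((hlim.eventually_const_lt hlt).and (eventually_gt_atTop 1)).exists
    refine ⟨M, hM3, ?_⟩
    have hM0 : 0 < M := by linarith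
    have : θ * (M - 1) ^ 2 * (K0 + η) = M ^ 2 * (θ * (K0 + η) * (1 - M⁻¹) ^ 2) := by
      field_simp
    rw [this]
    exact mul_le_mul_of_nonneg_left hM2.le (by positivity)
  -- small scale where m < K0 + η/4
  have hev : ∀ᶠ d in 𝓝[>] (0 : ℝ), m κ d < K0 + η / 4 :=
    eventually_lt_of_limsup_lt (by rw [← hK0]; linarith) hbu
  obtain ⟨r, hr, hr2⟩ := (mem_nhdsGT_iff_exists_Ioo_subset).mp hev
  have hr0 : 0 < r := hr
  set e' : ℝ := min e (r / 2) / M with he'
  have hM0 : 0 < M := by linarith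
  have he'0 : 0 < e' := by
    rw [he']
    have : 0 < min e (r / 2) := lt_min he (by linarith)
    positivity
  have hMe : M * e' = min e (r / 2) := by rw [he']; field_simp
  have hMe1 : M * e' ≤ e := by rw [hMe]; exact min_le_left _ _
  have hMe2 : M * e' < r := by
    rw [hMe]
    exact (min_le_right _ _).trans_lt (by linarith)
  have hee : e' ≤ e := by nlinarith
  refine ⟨e', he'0, fun B hB hBe => ⟨?_, ?_⟩⟩
  · -- lower bound
    have hv : 0 ≤ (volume : Measure (ℝ × ℝ)).real B := measureReal_nonneg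
    rcases lt_or_ge (K0 - η / 2) 0 with hneg | hpos
    · have : (K0 - η) * (volume : Measure (ℝ × ℝ)).real B ≤ 0 := by
        apply mul_nonpos_of_nonpos_of_nonneg _ hv
        linarith
      exact this.trans measureReal_nonneg
    · have hfreq : ∃ᶠ d in 𝓝[>] (0 : ℝ), K0 - η / 2 < m κ d :=
        frequently_lt_of_lt_limsup hbl (by rw [← hK0]; linarith)
      have := lower hθ0.le he hT hfreq hpos hB (hBe.trans (Sq_mono hee))
      refine le_trans ?_ this
      exact mul_le_mul_of_nonneg_right hθa hv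
  · have hup := upper hθ0.le hT he'0 hM1 hMe1 hB hBe
    have hmm : m κ (M * e') ≤ K0 + η / 4 := by
      have := hr2 ⟨by positivity, hMe2⟩
      exact (le_of_lt this)
    have hv : 0 ≤ (volume : Measure (ℝ × ℝ)).real B := measureReal_nonneg
    have hpos : 0 < θ * (M - 1) ^ 2 := by
      have : 0 < M - 1 := by linarith
      positivity
    refine le_of_mul_le_mul_left ?_ hpos
    calc θ * (M - 1) ^ 2 * κ.real B ≤ M ^ 2 * m κ (M * e') * (volume : Measure (ℝ × ℝ)).real B := hup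
      _ ≤ M ^ 2 * (K0 + η / 4) * (volume : Measure (ℝ × ℝ)).real B := by gcongr
      _ ≤ θ * (M - 1) ^ 2 * (K0 + η) * (volume : Measure (ℝ × ℝ)).real B := by gcongr
      _ = θ * (M - 1) ^ 2 * ((K0 + η) * (volume : Measure (ℝ × ℝ)).real B) := by ring

end Pool.Agent.SixB
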