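import Mathlib

/-! # 6BD step 2, uniqueness: finite measures on `[0,π]²` are determined by the integrals of
`cos (x k) cos (y ω)`, `x y : ℤ`. -/

namespace Pool.Agent.SixB.S2U

open MeasureTheory Set Real

private lemma cosmul (x : ℤ) (k : ℝ) :
    cos (x * k) * cos k = (cos ((x + 1 : ℤ) * k) + cos ((x - 1 : ℤ) * k)) / 2 := by
  push_cast
  rw [add_mul, sub_mul, one_mul, cos_add, cos_sub]
  ring

private lemma int_aux {μ : Measure (ℝ × ℝ)} [IsFiniteMeasure μ] {F : ℝ × ℝ → ℝ} {C : ℝ}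
    (hF : Continuous F) (hb : ∀ p, |F p| ≤ C) : Integrable F μ :=
  Integrable.of_bound hF.aestronglyMeasurable C (Filter.Eventually.of_forall hb)

private lemma step1 (μ ν : Measure (ℝ × ℝ)) [IsFiniteMeasure μ] [IsFiniteMeasure ν]
    (h : ∀ x y : ℤ, ∫ p, cos (x * p.1) * cos (y * p.2) ∂μ = ∫ p, cos (x * p.1) * cos (y * p.2) ∂ν)
    (a : ℕ) : ∀ x y : ℤ, ∫ p, cos (x * p.1) * cos p.1 ^ a * cos (y * p.2) ∂μ
      = ∫ p, cos (x * p.1) * cos p.1 ^ a * cos (y * p.2) ∂ν := by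
  induction a with
  | zero => intro x y; simpa using h x y
  | succ a ih =>
    intro x y
    have key : ∀ p : ℝ × ℝ, cos (x * p.1) * cos p.1 ^ (a + 1) * cos (y * p.2)
        = (1 / 2) * (cos ((x + 1 : ℤ) * p.1) * cos p.1 ^ a * cos (y * p.2))
          + (1 / 2) * (cos ((x - 1 : ℤ) * p.1) * cos p.1 ^ a * cos (y * p.2)) := by
      intro p
      have := cosmul x p.1
      rw [pow_succ, show cos (x * p.1) * (cos p.1 ^ a * cos p.1) * cos (y * p.2)
        = (cos (x * p.1) * cos p.1) * cos p.1 ^ a * cos (y * p.2) by ring, this]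
      ring
    have hi : ∀ (ξ : Measure (ℝ × ℝ)) [IsFiniteMeasure ξ] (z : ℤ), Integrable (fun p : ℝ × ℝ =>
        (1 / 2) * (cos (z * p.1) * cos p.1 ^ a * cos (y * p.2))) ξ := by
      intro ξ _ z
      refine int_aux (C := 1) (by fun_prop) ?_
      intro p
      rw [abs_mul, abs_mul, abs_mul, abs_pow]
      have h1 := abs_cos_le_one (z * p.1)
      have h2 := abs_cos_le_one (p.1)
      have h3 := abs_cos_le_one (y * p.2)
      have h4 : |cos p.1| ^ a ≤ 1 := pow_le_one₀ (abs_nonneg _) h2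
      have h5 : |cos (z * p.1)| * |cos p.1| ^ a * |cos (y * p.2)| ≤ 1 := by
        have := mul_le_mul h1 h4 (pow_nonneg (abs_nonneg _) _) zero_le_one
        have := mul_le_mul this h3 (abs_nonneg _) (by norm_num)
        simpa using this
      have h6 : |(1 / 2 : ℝ)| = 1 / 2 := abs_of_pos (by norm_num)
      rw [h6]
      have h7 : 0 ≤ |cos (z * p.1)| * |cos p.1| ^ a * |cos (y * p.2)| := by positivity
      linarith
    simp_rw [key]
    rw [integral_add (hi μ _) (hi μ _), integral_add (hi ν _) (hi ν _)]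
    simp_rw [integral_const_mul]
    rw [ih, ih]

private lemma step2 (μ ν : Measure (ℝ × ℝ)) [IsFiniteMeasure μ] [IsFiniteMeasure ν]
    (h : ∀ x y : ℤ, ∫ p, cos (x * p.1) * cos (y * p.2) ∂μ = ∫ p, cos (x * p.1) * cos (y * p.2) ∂ν)
    (a b : ℕ) : ∀ y : ℤ, ∫ p, cos p.1 ^ a * (cos (y * p.2) * cos p.2 ^ b) ∂μ
      = ∫ p, cos p.1 ^ a * (cos (y * p.2) * cos p.2 ^ b) ∂ν := by
  induction b with
  | zero => intro y; simpa using step1 μ ν h a 0 y
  | succ b ih =>
    intro y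
    have key : ∀ p : ℝ × ℝ, cos p.1 ^ a * (cos (y * p.2) * cos p.2 ^ (b + 1))
        = (1 / 2) * (cos p.1 ^ a * (cos ((y + 1 : ℤ) * p.2) * cos p.2 ^ b))
          + (1 / 2) * (cos p.1 ^ a * (cos ((y - 1 : ℤ) * p.2) * cos p.2 ^ b)) := by
      intro p
      have := cosmul y p.2
      rw [pow_succ, show cos p.1 ^ a * (cos (y * p.2) * (cos p.2 ^ b * cos p.2))
        = cos p.1 ^ a * ((cos (y * p.2) * cos p.2) * cos p.2 ^ b) by ring, this]
      ring
    have hi : ∀ (ξ : Measure (ℝ × ℝ)) [IsFiniteMeasure ξ] (z : ℤ), Integrable (fun p : ℝ × ℝ =>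
        (1 / 2) * (cos p.1 ^ a * (cos (z * p.2) * cos p.2 ^ b))) ξ := by
      intro ξ _ z
      refine int_aux (C := 1) (by fun_prop) ?_
      intro p
      rw [abs_mul, abs_mul, abs_mul, abs_pow, abs_pow]
      have h1 := abs_cos_le_one (z * p.2)
      have h2 := abs_cos_le_one (p.1)
      have h3 := abs_cos_le_one (p.2)
      have h4 : |cos p.1| ^ a ≤ 1 := pow_le_one₀ (abs_nonneg _) h2
      have h4' : |cos p.2| ^ b ≤ 1 := pow_le_one₀ (abs_nonneg _) h3
      have h5 : |cos p.1| ^ a * (|cos (z * p.2)| * |cos p.2| ^ b) ≤ 1 := by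
        have h8 := mul_le_mul h1 h4' (pow_nonneg (abs_nonneg _) _) zero_le_one
        have := mul_le_mul h4 h8 (by positivity) zero_le_one
        simpa using this
      have h6 : |(1 / 2 : ℝ)| = 1 / 2 := abs_of_pos (by norm_num)
      rw [h6]
      have h7 : 0 ≤ |cos p.1| ^ a * (|cos (z * p.2)| * |cos p.2| ^ b) := by positivity
      linarith
    simp_rw [key]
    rw [integral_add (hi μ _) (hi μ _), integral_add (hi ν _) (hi ν _)]
    simp_rw [integral_const_mul]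
    rw [ih, ih]

private lemma step3 (μ ν : Measure (ℝ × ℝ)) [IsFiniteMeasure μ] [IsFiniteMeasure ν]
    (h : ∀ x y : ℤ, ∫ p, cos (x * p.1) * cos (y * p.2) ∂μ = ∫ p, cos (x * p.1) * cos (y * p.2) ∂ν)
    (P Q : Polynomial ℝ) : ∫ p, P.eval (cos p.1) * Q.eval (cos p.2) ∂μ
      = ∫ p, P.eval (cos p.1) * Q.eval (cos p.2) ∂ν := by
  have h2 : ∀ a b : ℕ, ∫ p, cos p.1 ^ a * cos p.2 ^ b ∂μ = ∫ p, cos p.1 ^ a * cos p.2 ^ b ∂ν := by
    intro a b
    simpa using step2 μ ν h a b 0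
  have hi : ∀ (ξ : Measure (ℝ × ℝ)) [IsFiniteMeasure ξ] (a b : ℕ) (c : ℝ),
      Integrable (fun p : ℝ × ℝ => c * (cos p.1 ^ a * cos p.2 ^ b)) ξ := by
    intro ξ _ a b c
    refine int_aux (C := |c|) (by fun_prop) ?_
    intro p
    rw [abs_mul, abs_mul, abs_pow, abs_pow]
    have h4 : |cos p.1| ^ a ≤ 1 := pow_le_one₀ (abs_nonneg _) (abs_cos_le_one _)
    have h4' : |cos p.2| ^ b ≤ 1 := pow_le_one₀ (abs_nonneg _) (abs_cos_le_one _)
    have h5 : |cos p.1| ^ a * |cos p.2| ^ b ≤ 1 := by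
      have h8 := mul_le_mul h4 h4' (pow_nonneg (abs_nonneg _) _) zero_le_one
      simpa using h8
    calc |c| * (|cos p.1| ^ a * |cos p.2| ^ b) ≤ |c| * 1 :=
          mul_le_mul_of_nonneg_left h5 (abs_nonneg _)
      _ = |c| := mul_one _
  have key : ∀ p : ℝ × ℝ, P.eval (cos p.1) * Q.eval (cos p.2)
      = ∑ i ∈ P.support, ∑ j ∈ Q.support, (P.coeff i * Q.coeff j) * (cos p.1 ^ i * cos p.2 ^ j) := by
    intro p
    rw [Polynomial.eval_eq_sum, Polynomial.eval_eq_sum, Polynomial.sum_def, Polynomial.sum_def,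
      Finset.sum_mul_sum]
    refine Finset.sum_congr rfl fun i _ => Finset.sum_congr rfl fun j _ => by ring
  simp_rw [key]
  have hs : ∀ (ξ : Measure (ℝ × ℝ)) [IsFiniteMeasure ξ],
      ∫ p, ∑ i ∈ P.support, ∑ j ∈ Q.support, (P.coeff i * Q.coeff j) * (cos p.1 ^ i * cos p.2 ^ j) ∂ξ
        = ∑ i ∈ P.support, ∑ j ∈ Q.support, (P.coeff i * Q.coeff j) *
          ∫ p, cos p.1 ^ i * cos p.2 ^ j ∂ξ := by
    intro ξ _
    rw [integral_finsetSum _ (fun i _ => integrable_finsetSum _ (fun j _ => hi ξ i j _))]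
    refine Finset.sum_congr rfl fun i _ => ?_
    rw [integral_finsetSum _ (fun j _ => hi ξ i j _)]
    refine Finset.sum_congr rfl fun j _ => ?_
    rw [integral_const_mul]
  rw [hs μ, hs ν]
  refine Finset.sum_congr rfl fun i _ => Finset.sum_congr rfl fun j _ => ?_
  rw [h2]

private lemma approx (f : BoundedContinuousFunction ℝ ℝ) {ε : ℝ} (hε : 0 < ε) :
    ∃ P : Polynomial ℝ, ∀ k ∈ Icc 0 π, |P.eval (cos k) - f k| < ε := by
  obtain ⟨P, hP⟩ := exists_polynomial_near_of_continuousOn (-1) 1 (fun u => f (arccos u))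
    ((f.continuous.comp continuous_arccos).continuousOn) ε hε
  refine ⟨P, fun k hk => ?_⟩
  have := hP (cos k) ⟨neg_one_le_cos k, cos_le_one k⟩
  simpa [arccos_cos hk.1 hk.2] using this

/-- finite measures on `[0,π]²` are determined by cosine moments -/
theorem ext_cos (μ ν : Measure (ℝ × ℝ)) [IsFiniteMeasure μ] [IsFiniteMeasure ν]
    (hμ : ∀ᵐ p ∂μ, p.1 ∈ Icc 0 π ∧ p.2 ∈ Icc 0 π) (hν : ∀ᵐ p ∂ν, p.1 ∈ Icc 0 π ∧ p.2 ∈ Icc 0 π)
    (h : ∀ x y : ℤ, ∫ p, cos (x * p.1) * cos (y * p.2) ∂μ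
      = ∫ p, cos (x * p.1) * cos (y * p.2) ∂ν) : μ = ν := by
  refine Measure.ext_of_integral_mul_boundedContinuousFunction (fun f g => ?_)
  -- bound
  set M : ℝ := μ.real univ + ν.real univ with hM
  have hM0 : 0 ≤ M := by positivity
  by_contra hne
  set D : ℝ := |∫ p, f p.1 * g p.2 ∂μ - ∫ p, f p.1 * g p.2 ∂ν| with hD
  have hDpos : 0 < D := abs_pos.mpr (sub_ne_zero.mpr hne)
  set B : ℝ := ‖f‖ + ‖g‖ + 1 with hB
  have hBpos : 0 < B := by positivity
  obtain ⟨ε, hε0, hε1, hεM⟩ : ∃ ε : ℝ, 0 < ε ∧ ε ≤ 1 ∧ (2 * B * ε) * M < D := by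
    refine ⟨min 1 (D / (4 * B * (M + 1))), by positivity, min_le_left _ _, ?_⟩
    have h1 : min 1 (D / (4 * B * (M + 1))) ≤ D / (4 * B * (M + 1)) := min_le_right _ _
    have h2 : 2 * B * min 1 (D / (4 * B * (M + 1))) * M ≤ 2 * B * (D / (4 * B * (M + 1))) * (M + 1) := by
      gcongr
      linarith
    have h3 : 2 * B * (D / (4 * B * (M + 1))) * (M + 1) = D / 2 := by
      field_simp
      ring
    linarith
  obtain ⟨P, hP⟩ := approx f hε0
  obtain ⟨Q, hQ⟩ := approx g hε0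
  have hclose : ∀ (ξ : Measure (ℝ × ℝ)) [IsFiniteMeasure ξ],
      (∀ᵐ p ∂ξ, p.1 ∈ Icc 0 π ∧ p.2 ∈ Icc 0 π) →
      |∫ p, f p.1 * g p.2 ∂ξ - ∫ p, P.eval (cos p.1) * Q.eval (cos p.2) ∂ξ|
        ≤ 2 * B * ε * ξ.real univ := by
    intro ξ _ hξ
    have i1 : Integrable (fun p : ℝ × ℝ => f p.1 * g p.2) ξ := by
      refine int_aux (C := ‖f‖ * ‖g‖) (by fun_prop) ?_
      intro p
      rw [abs_mul]
      exact mul_le_mul (f.norm_coe_le_norm _) (g.norm_coe_le_norm _) (abs_nonneg _) (norm_nonneg _)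
    have bd : ∀ᵐ p ∂ξ, |f p.1 * g p.2 - P.eval (cos p.1) * Q.eval (cos p.2)| ≤ 2 * B * ε := by
      filter_upwards [hξ] with p hp
      have a1 := hP p.1 hp.1
      have a2 := hQ p.2 hp.2
      have a3 : |g p.2| ≤ ‖g‖ := g.norm_coe_le_norm _
      have a4 : |f p.1| ≤ ‖f‖ := f.norm_coe_le_norm _
      have e : f p.1 * g p.2 - P.eval (cos p.1) * Q.eval (cos p.2)
          = -((P.eval (cos p.1) - f p.1) * g p.2) - (P.eval (cos p.1) - f p.1) *
            (Q.eval (cos p.2) - g p.2) - f p.1 * (Q.eval (cos p.2) - g p.2) := by ring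
      rw [e]
      have t1 : |(P.eval (cos p.1) - f p.1) * g p.2| ≤ ε * ‖g‖ := by
        rw [abs_mul]; exact mul_le_mul a1.le a3 (abs_nonneg _) hε0.le
      have t2 : |(P.eval (cos p.1) - f p.1) * (Q.eval (cos p.2) - g p.2)| ≤ ε * 1 := by
        rw [abs_mul]; exact mul_le_mul a1.le (a2.le.trans hε1) (abs_nonneg _) hε0.le
      have t3 : |f p.1 * (Q.eval (cos p.2) - g p.2)| ≤ ‖f‖ * ε := by
        rw [abs_mul]; exact mul_le_mul a4 a2.le (abs_nonneg _) (norm_nonneg _)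
      have t4 := abs_sub (-((P.eval (cos p.1) - f p.1) * g p.2) - (P.eval (cos p.1) - f p.1) *
            (Q.eval (cos p.2) - g p.2)) (f p.1 * (Q.eval (cos p.2) - g p.2))
      have t5 := abs_sub (-((P.eval (cos p.1) - f p.1) * g p.2)) ((P.eval (cos p.1) - f p.1) *
            (Q.eval (cos p.2) - g p.2))
      rw [abs_neg] at t5
      have nf := norm_nonneg f
      have ng := norm_nonneg g
      nlinarith
    have i2 : Integrable (fun p : ℝ × ℝ => P.eval (cos p.1) * Q.eval (cos p.2)) ξ := by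
      refine Integrable.of_bound (C := ‖f‖ * ‖g‖ + 2 * B * ε) ?_ ?_
      · have c1 : Continuous (fun p : ℝ × ℝ => P.eval (cos p.1) * Q.eval (cos p.2)) :=
          (P.continuous.comp (continuous_cos.comp continuous_fst)).mul
            (Q.continuous.comp (continuous_cos.comp continuous_snd))
        exact c1.aestronglyMeasurable
      · filter_upwards [bd] with p hp
        have a3 : |g p.2| ≤ ‖g‖ := g.norm_coe_le_norm _
        have a4 : |f p.1| ≤ ‖f‖ := f.norm_coe_le_norm _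
        have a5 : |f p.1 * g p.2| ≤ ‖f‖ * ‖g‖ := by
          rw [abs_mul]; exact mul_le_mul a4 a3 (abs_nonneg _) (norm_nonneg _)
        rw [Real.norm_eq_abs]
        have := abs_sub_abs_le_abs_sub (P.eval (cos p.1) * Q.eval (cos p.2)) (f p.1 * g p.2)
        rw [abs_sub_comm] at this
        linarith
    rw [← integral_sub i1 i2]
    have := norm_integral_le_of_norm_le_const (μ := ξ) (C := 2 * B * ε)
      (f := fun p : ℝ × ℝ => f p.1 * g p.2 - P.eval (cos p.1) * Q.eval (cos p.2)) bd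
    simpa [Real.norm_eq_abs, mul_comm] using this
  have c1 := hclose μ hμ
  have c2 := hclose ν hν
  rw [step3 μ ν h P Q] at c1
  have c3 : D ≤ 2 * B * ε * μ.real univ + 2 * B * ε * ν.real univ := by
    rw [hD]
    have e : ∫ p, f p.1 * g p.2 ∂μ - ∫ p, f p.1 * g p.2 ∂ν
        = (∫ p, f p.1 * g p.2 ∂μ - ∫ p, P.eval (cos p.1) * Q.eval (cos p.2) ∂ν)
          - (∫ p, f p.1 * g p.2 ∂ν - ∫ p, P.eval (cos p.1) * Q.eval (cos p.2) ∂ν) := by ring
    rw [e]
    exact (abs_sub _ _).trans (add_le_add c1 c2)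
  have c4 : 2 * B * ε * μ.real univ + 2 * B * ε * ν.real univ = (2 * B * ε) * M := by rw [hM]; ring
  linarith

end Pool.Agent.SixB.S2U
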