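import Mathlib
import Pool.Agent.Lib.SixB.S2U
import Pool.Agent.Lib.SixB.S2M
import Pool.Agent.Lib.SixB.S2T

/-! # 6BD step 2: the measure `muM` (Poisson kernels in the second variable), its symmetry with the
swapped measure, `kapM = muM + swap muM` is finite, symmetric and almost monotone near `0`. -/

namespace Pool.Agent.SixB

open MeasureTheory Set Filter Topology Real

private noncomputable def dens (q : (ℝ × ℝ) × ℝ) : ENNReal := ENNReal.ofReal (Pk q.1.2 q.2 / π)

private lemma measurable_Pk2 : Measurable (fun q : (ℝ × ℝ) × ℝ => Pk q.1.2 q.2) := by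
  unfold Pk
  fun_prop

private lemma measurable_dens : Measurable dens := (measurable_Pk2.div_const _).ennreal_ofReal

private def pr (q : (ℝ × ℝ) × ℝ) : ℝ × ℝ := (q.1.1, q.2)

private lemma measurable_pr : Measurable pr := (measurable_fst.comp measurable_fst).prodMk measurable_snd

/-- spectral measure in `(k, ω) ∈ (0,π]×(0,π)` -/
noncomputable def muM (ρ : Measure (ℝ × ℝ)) : Measure (ℝ × ℝ) :=
  ((ρ.prod ((volume : Measure ℝ).restrict (Ioo 0 π))).withDensity dens).map pr

variable {ρ : Measure (ℝ × ℝ)} [IsFiniteMeasure ρ]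

theorem lintegral_muM {F : ℝ × ℝ → ENNReal} (hF : Measurable F) :
    ∫⁻ z, F z ∂(muM ρ)
      = ∫⁻ p, (∫⁻ w in Ioo 0 π, ENNReal.ofReal (Pk p.2 w / π) * F (p.1, w)) ∂ρ := by
  unfold muM
  have hF' : Measurable (fun q => F (pr q)) := hF.comp measurable_pr
  rw [lintegral_map hF measurable_pr, lintegral_withDensity_eq_lintegral_mul _ measurable_dens
    hF', lintegral_prod _ (measurable_dens.mul hF').aemeasurable]
  rfl

private lemma lint_Pk {l : ℝ} (hl : |l| < 1) :
    ∫⁻ w in Ioo 0 π, ENNReal.ofReal (Pk l w / π) = 1 := by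
  have hint : Integrable (fun w => Pk l w / π) ((volume : Measure ℝ).restrict (Ioo 0 π)) := by
    have h0 : IntegrableOn (fun w => Pk l w / π) (Icc 0 π) volume :=
      ((continuous_Pk hl).div_const π).continuousOn.integrableOn_compact isCompact_Icc
    exact h0.mono_set Ioo_subset_Icc_self
  rw [← ofReal_integral_eq_lintegral_ofReal hint
    (Eventually.of_forall fun w => div_nonneg (Pk_pos hl w).le pi_pos.le)]
  have h := integral_Pk hl 0
  rw [intervalIntegral.integral_of_le pi_pos.le, integral_Ioc_eq_integral_Ioo] at h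
  simp only [Int.cast_zero, zero_mul, cos_zero, one_mul, Int.natAbs_zero, pow_zero, mul_one] at h
  rw [integral_div, h, div_self pi_pos.ne', ENNReal.ofReal_one]

theorem muM_univ (hρ : ∀ᵐ p ∂ρ, 0 < p.1 ∧ p.1 ≤ π ∧ |p.2| < 1) : muM ρ univ = ρ univ := by
  rw [← lintegral_one, lintegral_muM measurable_const]
  have : ∫⁻ p, (∫⁻ w in Ioo 0 π, ENNReal.ofReal (Pk p.2 w / π) * 1) ∂ρ = ∫⁻ p, 1 ∂ρ := by
    refine lintegral_congr_ae ?_
    filter_upwards [hρ] with p hp
    simp only [mul_one]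
    exact lint_Pk hp.2.2
  rw [this, lintegral_one]

theorem isFiniteMeasure_muM (hρ : ∀ᵐ p ∂ρ, 0 < p.1 ∧ p.1 ≤ π ∧ |p.2| < 1) :
    IsFiniteMeasure (muM ρ) := ⟨by rw [muM_univ hρ]; exact measure_lt_top _ _⟩

theorem muM_ae (hρ : ∀ᵐ p ∂ρ, 0 < p.1 ∧ p.1 ≤ π ∧ |p.2| < 1) :
    ∀ᵐ z ∂(muM ρ), (0 < z.1 ∧ z.1 ≤ π) ∧ (0 < z.2 ∧ z.2 < π) := by
  have hm : MeasurableSet {z : ℝ × ℝ | ¬ ((0 < z.1 ∧ z.1 ≤ π) ∧ (0 < z.2 ∧ z.2 < π))} := by
    measurability
  rw [ae_iff, ← lintegral_indicator_one hm, lintegral_muM (measurable_one.indicator hm)]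
  rw [lintegral_eq_zero_iff']
  · filter_upwards [hρ] with p hp
    rw [Pi.zero_apply]
    have : ∀ w ∈ Ioo (0 : ℝ) π, ENNReal.ofReal (Pk p.2 w / π) *
        ({z : ℝ × ℝ | ¬ ((0 < z.1 ∧ z.1 ≤ π) ∧ (0 < z.2 ∧ z.2 < π))}).indicator 1 (p.1, w) = 0 := by
      intro w hw
      rw [indicator_of_notMem, mul_zero]
      simp only [mem_ofPred_eq, not_not]
      exact ⟨⟨hp.1, hp.2.1⟩, hw.1, hw.2⟩
    rw [setLIntegral_congr_fun measurableSet_Ioo this]
    simp
  · have hF : Measurable (fun q : (ℝ × ℝ) × ℝ => dens q *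
        ({z : ℝ × ℝ | ¬ ((0 < z.1 ∧ z.1 ≤ π) ∧ (0 < z.2 ∧ z.2 < π))}).indicator 1 (pr q)) :=
      measurable_dens.mul ((measurable_one.indicator hm).comp measurable_pr)
    exact (hF.lintegral_prod_right' (ν := (volume : Measure ℝ).restrict (Ioo 0 π))).aemeasurable

/-- integrals of continuous bounded functions against `muM` -/
theorem integral_muM (hρ : ∀ᵐ p ∂ρ, 0 < p.1 ∧ p.1 ≤ π ∧ |p.2| < 1) {F : ℝ × ℝ → ℝ}
    (hF : Measurable F) {B : ℝ} (hB : ∀ z, |F z| ≤ B) :
    ∫ z, F z ∂(muM ρ) = ∫ p, (∫ w in Ioo 0 π, (Pk p.2 w / π) * F (p.1, w)) ∂ρ := by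
  have hfin := isFiniteMeasure_muM hρ
  have hintF : Integrable F (muM ρ) :=
    Integrable.of_bound hF.aestronglyMeasurable B (Eventually.of_forall hB)
  have hdae : ∀ᵐ q ∂(ρ.prod ((volume : Measure ℝ).restrict (Ioo 0 π))), |q.1.2| < 1 := by
    have : ∀ᵐ p ∂ρ, |p.2| < 1 := by filter_upwards [hρ] with p hp using hp.2.2
    exact (Measure.quasiMeasurePreserving_fst
      (μ := ρ) (ν := (volume : Measure ℝ).restrict (Ioo 0 π))).ae this
  unfold muM at hintF ⊢
  rw [integral_map measurable_pr.aemeasurable hF.aestronglyMeasurable]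
  have hintF' : Integrable (fun q => F (pr q))
      ((ρ.prod ((volume : Measure ℝ).restrict (Ioo 0 π))).withDensity dens) :=
    (integrable_map_measure hF.aestronglyMeasurable measurable_pr.aemeasurable).mp hintF
  have hlt : ∀ᵐ q ∂(ρ.prod ((volume : Measure ℝ).restrict (Ioo 0 π))), dens q < ⊤ :=
    Eventually.of_forall fun q => ENNReal.ofReal_lt_top
  rw [integral_withDensity_eq_integral_toReal_smul measurable_dens hlt]
  have hi2 := (integrable_withDensity_iff_integrable_smul' measurable_dens hlt).mp hintF'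
  rw [integral_prod _ hi2]
  refine integral_congr_ae ?_
  filter_upwards [hρ] with p hp
  refine integral_congr_ae (Eventually.of_forall fun w => ?_)
  simp only [dens, pr, smul_eq_mul]
  rw [ENNReal.toReal_ofReal (div_nonneg (Pk_pos hp.2.2 w).le pi_pos.le)]

/-- the correlation function is the cosine transform of `muM` -/
theorem corr_muM {C : ℤ → ℤ → ℝ} (hρ : ∀ᵐ p ∂ρ, 0 < p.1 ∧ p.1 ≤ π ∧ |p.2| < 1)
    (hC : ∀ x y : ℤ, C x y = ∫ p, cos (x * p.1) * p.2 ^ y.natAbs ∂ρ) (x y : ℤ) :
    ∫ z, cos (x * z.1) * cos (y * z.2) ∂(muM ρ) = C x y := by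
  rw [integral_muM hρ (by fun_prop) (B := 1), hC]
  · refine integral_congr_ae ?_
    filter_upwards [hρ] with p hp
    have h := integral_Pk hp.2.2 y
    rw [intervalIntegral.integral_of_le pi_pos.le, integral_Ioc_eq_integral_Ioo] at h
    have e : ∀ w : ℝ, Pk p.2 w / π * (cos (x * p.1) * cos (y * w))
        = (cos (x * p.1) / π) * (cos (y * w) * Pk p.2 w) := by intro w; ring
    simp only [e]
    rw [integral_const_mul, h]
    field_simp
  · intro z
    rw [abs_mul]
    exact mul_le_one₀ (abs_cos_le_one _) (abs_nonneg _) (abs_cos_le_one _)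

private lemma sd (y : ℤ) (w : ℝ) : sy w * cos (y * w)
    = 2 * cos (y * w) - cos (((y + 1 : ℤ) : ℝ) * w) - cos (((y - 1 : ℤ) : ℝ) * w) := by
  push_cast
  rw [show ((y : ℝ) + 1) * w = y * w + w by ring, show ((y : ℝ) - 1) * w = y * w - w by ring,
    cos_add, cos_sub]
  unfold sy
  ring

lemma measurable_sy : Measurable sy := by unfold sy; fun_prop

lemma continuous_sy : Continuous sy := by unfold sy; fun_prop

/-- the symmetry of the six-vertex correlations as an identity of measures -/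
theorem muM_swap {C : ℤ → ℤ → ℝ} (hρ : ∀ᵐ p ∂ρ, 0 < p.1 ∧ p.1 ≤ π ∧ |p.2| < 1)
    (hC : ∀ x y : ℤ, C x y = ∫ p, cos (x * p.1) * p.2 ^ y.natAbs ∂ρ)
    (hsym : ∀ x y : ℤ, C x (y + 1) + C x (y - 1) - 2 * C x y
      = C y (x + 1) + C y (x - 1) - 2 * C y x) :
    (muM ρ).withDensity (fun z => ENNReal.ofReal (sy z.2))
      = ((muM ρ).map Prod.swap).withDensity (fun z => ENNReal.ofReal (sy z.1)) := by
  have hfin := isFiniteMeasure_muM hρ
  have hfin2 : IsFiniteMeasure ((muM ρ).map Prod.swap) :=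
    Measure.isFiniteMeasure_map _ _
  have hae := muM_ae hρ
  have hae2 : ∀ᵐ z ∂((muM ρ).map Prod.swap), (0 < z.2 ∧ z.2 ≤ π) ∧ (0 < z.1 ∧ z.1 < π) := by
    rw [ae_map_iff measurable_swap.aemeasurable (by measurability)]
    exact hae
  have f1 : IsFiniteMeasure ((muM ρ).withDensity (fun z => ENNReal.ofReal (sy z.2))) := by
    refine isFiniteMeasure_withDensity_ofReal ?_
    refine HasFiniteIntegral.of_bounded (C := 4) (Eventually.of_forall fun z => ?_)
    rw [Real.norm_eq_abs, abs_of_nonneg (sy_nonneg _)]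
    exact sy_le _
  have f2 : IsFiniteMeasure (((muM ρ).map Prod.swap).withDensity
      (fun z => ENNReal.ofReal (sy z.1))) := by
    refine isFiniteMeasure_withDensity_ofReal ?_
    refine HasFiniteIntegral.of_bounded (C := 4) (Eventually.of_forall fun z => ?_)
    rw [Real.norm_eq_abs, abs_of_nonneg (sy_nonneg _)]
    exact sy_le _
  refine S2U.ext_cos _ _ ?_ ?_ ?_
  · have := (withDensity_absolutelyContinuous (muM ρ) (fun z => ENNReal.ofReal (sy z.2))).ae_le hae
    filter_upwards [this] with z hz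
    exact ⟨⟨hz.1.1.le, hz.1.2⟩, hz.2.1.le, hz.2.2.le⟩
  · have := (withDensity_absolutelyContinuous ((muM ρ).map Prod.swap)
      (fun z => ENNReal.ofReal (sy z.1))).ae_le hae2
    filter_upwards [this] with z hz
    exact ⟨⟨hz.2.1.le, hz.2.2.le⟩, hz.1.1.le, hz.1.2⟩
  · intro x y
    have m1 : Measurable (fun z : ℝ × ℝ => ENNReal.ofReal (sy z.2)) :=
      (measurable_sy.comp measurable_snd).ennreal_ofReal
    have m2 : Measurable (fun z : ℝ × ℝ => ENNReal.ofReal (sy z.1)) :=
      (measurable_sy.comp measurable_fst).ennreal_ofReal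
    rw [integral_withDensity_eq_integral_toReal_smul m1 (Eventually.of_forall fun _ => ENNReal.ofReal_lt_top),
      integral_withDensity_eq_integral_toReal_smul m2 (Eventually.of_forall fun _ => ENNReal.ofReal_lt_top)]
    have ib : ∀ a b : ℤ, Integrable (fun z : ℝ × ℝ => cos (a * z.1) * cos (b * z.2)) (muM ρ) := by
      intro a b
      refine Integrable.of_bound (C := 1) (by fun_prop) (Eventually.of_forall fun z => ?_)
      rw [Real.norm_eq_abs, abs_mul]
      exact mul_le_one₀ (abs_cos_le_one _) (abs_nonneg _) (abs_cos_le_one _)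
    have L : ∀ x y : ℤ, ∫ z, (ENNReal.ofReal (sy z.2)).toReal • (cos (x * z.1) * cos (y * z.2)) ∂(muM ρ)
        = 2 * C x y - C x (y + 1) - C x (y - 1) := by
      intro x y
      have e : ∀ z : ℝ × ℝ, (ENNReal.ofReal (sy z.2)).toReal • (cos (x * z.1) * cos (y * z.2))
          = 2 * (cos (x * z.1) * cos (y * z.2)) - cos (x * z.1) * cos (((y + 1 : ℤ) : ℝ) * z.2)
            - cos (x * z.1) * cos (((y - 1 : ℤ) : ℝ) * z.2) := by
        intro z
        rw [ENNReal.toReal_ofReal (sy_nonneg _), smul_eq_mul]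
        have := sd y z.2
        linear_combination cos (x * z.1) * this
      simp_rw [e]
      have i1 : Integrable (fun z : ℝ × ℝ => 2 * (cos (x * z.1) * cos (y * z.2))
          - cos (x * z.1) * cos (((y + 1 : ℤ) : ℝ) * z.2)) (muM ρ) :=
        ((ib x y).const_mul 2).sub (ib x (y + 1))
      rw [integral_sub i1 (ib x (y - 1)),
        integral_sub ((ib x y).const_mul 2) (ib x (y + 1)), integral_const_mul,
        corr_muM hρ hC, corr_muM hρ hC, corr_muM hρ hC]
    rw [L x y, integral_map measurable_swap.aemeasurable (by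
      have : Measurable (fun z : ℝ × ℝ => (ENNReal.ofReal (sy z.1)).toReal • (cos (x * z.1) * cos (y * z.2))) := by
        refine (m2.ennreal_toReal).smul ?_
        fun_prop
      exact this.aestronglyMeasurable)]
    have e2 : ∀ z : ℝ × ℝ, (ENNReal.ofReal (sy (Prod.swap z).1)).toReal •
        (cos (x * (Prod.swap z).1) * cos (y * (Prod.swap z).2))
        = (ENNReal.ofReal (sy z.2)).toReal • (cos (y * z.1) * cos (x * z.2)) := by
      intro z
      simp only [Prod.fst_swap, Prod.snd_swap]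
      rw [mul_comm (cos (x * z.2))]
    simp_rw [e2]
    rw [L y x]
    have := hsym x y
    linarith

end Pool.Agent.SixB
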