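import Mathlib
import Pool.Agent.Lib.SixB.S2K

/-! # 6BD step 2: `kapM = muM + swap muM` is almost monotone near `0` (soft cone). -/

namespace Pool.Agent.SixB

open MeasureTheory Set Filter Topology Real

/-- symmetrised spectral measure -/
noncomputable def kapM (ρ : Measure (ℝ × ℝ)) : Measure (ℝ × ℝ) := muM ρ + (muM ρ).map Prod.swap

variable {ρ : Measure (ℝ × ℝ)} [IsFiniteMeasure ρ]

theorem isFiniteMeasure_kap (hρ : ∀ᵐ p ∂ρ, 0 < p.1 ∧ p.1 ≤ π ∧ |p.2| < 1) :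
    IsFiniteMeasure (kapM ρ) := by
  have := isFiniteMeasure_muM hρ
  have : IsFiniteMeasure ((muM ρ).map Prod.swap) := Measure.isFiniteMeasure_map _ _
  unfold kapM
  infer_instance

omit [IsFiniteMeasure ρ] in
theorem kap_swap : (kapM ρ).map Prod.swap = kapM ρ := by
  unfold kapM
  rw [Measure.map_add _ _ measurable_swap, Measure.map_map measurable_swap measurable_swap,
    Prod.swap_swap_eq, Measure.map_id, add_comm]

private noncomputable def gg (z : ℝ × ℝ) : ENNReal := ENNReal.ofReal ((sy z.1 + sy z.2) / sy z.1)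

private lemma measurable_gg : Measurable gg :=
  (((measurable_sy.comp measurable_fst).add (measurable_sy.comp measurable_snd)).div
    (measurable_sy.comp measurable_fst)).ennreal_ofReal

theorem kap_eq {C : ℤ → ℤ → ℝ} (hρ : ∀ᵐ p ∂ρ, 0 < p.1 ∧ p.1 ≤ π ∧ |p.2| < 1)
    (hC : ∀ x y : ℤ, C x y = ∫ p, cos (x * p.1) * p.2 ^ y.natAbs ∂ρ)
    (hsym : ∀ x y : ℤ, C x (y + 1) + C x (y - 1) - 2 * C x y
      = C y (x + 1) + C y (x - 1) - 2 * C y x) :
    kapM ρ = (muM ρ).withDensity gg := by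
  have hsw := muM_swap hρ hC hsym
  have hae := muM_ae hρ
  have hae2 : ∀ᵐ z ∂((muM ρ).map Prod.swap), (0 < z.2 ∧ z.2 ≤ π) ∧ (0 < z.1 ∧ z.1 < π) := by
    rw [ae_map_iff measurable_swap.aemeasurable (by measurability)]
    exact hae
  have ms1 : Measurable (fun z : ℝ × ℝ => ENNReal.ofReal (sy z.1)) :=
    (measurable_sy.comp measurable_fst).ennreal_ofReal
  have ms2 : Measurable (fun z : ℝ × ℝ => ENNReal.ofReal (sy z.2)) :=
    (measurable_sy.comp measurable_snd).ennreal_ofReal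
  have ms1i : Measurable (fun z : ℝ × ℝ => ENNReal.ofReal (1 / sy z.1)) :=
    (measurable_const.div (measurable_sy.comp measurable_fst)).ennreal_ofReal
  -- second part
  have h2 : (muM ρ).map Prod.swap = (muM ρ).withDensity (fun z => ENNReal.ofReal (sy z.2 / sy z.1)) := by
    have e1 : ((muM ρ).map Prod.swap) = (((muM ρ).map Prod.swap).withDensity
        (fun z => ENNReal.ofReal (sy z.1))).withDensity (fun z => ENNReal.ofReal (1 / sy z.1)) := by
      rw [← withDensity_mul _ ms1 ms1i]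
      have : (fun z : ℝ × ℝ => ENNReal.ofReal (sy z.1)) * (fun z => ENNReal.ofReal (1 / sy z.1))
          =ᵐ[(muM ρ).map Prod.swap] 1 := by
        filter_upwards [hae2] with z hz
        have hpos := sy_pos hz.2.1 hz.2.2.le
        rw [Pi.mul_apply, ← ENNReal.ofReal_mul hpos.le, mul_one_div_cancel hpos.ne',
          ENNReal.ofReal_one, Pi.one_apply]
      rw [withDensity_congr_ae this, withDensity_one]
    rw [e1, ← hsw, ← withDensity_mul _ ms2 ms1i]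
    refine withDensity_congr_ae ?_
    filter_upwards [hae] with z hz
    have hpos := sy_pos hz.1.1 hz.1.2
    rw [Pi.mul_apply, ← ENNReal.ofReal_mul (sy_nonneg _)]
    congr 1
    field_simp
  unfold kapM
  rw [h2]
  have e3 : muM ρ + (muM ρ).withDensity (fun z => ENNReal.ofReal (sy z.2 / sy z.1))
      = (muM ρ).withDensity (1 + fun z => ENNReal.ofReal (sy z.2 / sy z.1)) := by
    rw [withDensity_add_left measurable_one, withDensity_one]
  rw [e3]
  refine withDensity_congr_ae ?_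
  filter_upwards [hae] with z hz
  have hpos := sy_pos hz.1.1 hz.1.2
  rw [Pi.add_apply, Pi.one_apply]
  unfold gg
  rw [← ENNReal.ofReal_one, ← ENNReal.ofReal_add zero_le_one (div_nonneg (sy_nonneg _) hpos.le)]
  congr 1
  field_simp

private lemma kap_apply {C : ℤ → ℤ → ℝ} (hρ : ∀ᵐ p ∂ρ, 0 < p.1 ∧ p.1 ≤ π ∧ |p.2| < 1)
    (hC : ∀ x y : ℤ, C x y = ∫ p, cos (x * p.1) * p.2 ^ y.natAbs ∂ρ)
    (hsym : ∀ x y : ℤ, C x (y + 1) + C x (y - 1) - 2 * C x y
      = C y (x + 1) + C y (x - 1) - 2 * C y x) {S : Set (ℝ × ℝ)} (hS : MeasurableSet S) :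
    kapM ρ S = ∫⁻ p, (∫⁻ w, (Ioo 0 π).indicator 1 w * (ENNReal.ofReal (Pk p.2 w / π) *
      (S.indicator 1 (p.1, w) * gg (p.1, w)))) ∂ρ := by
  rw [kap_eq hρ hC hsym, withDensity_apply _ hS, ← lintegral_indicator hS]
  have e : ∀ z : ℝ × ℝ, S.indicator gg z = S.indicator 1 z * gg z := by
    intro z
    by_cases h : z ∈ S <;> simp [h]
  simp_rw [e]
  have hm : Measurable (fun z : ℝ × ℝ => S.indicator 1 z * gg z) :=
    (measurable_one.indicator hS).mul measurable_gg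
  rw [lintegral_muM hm]
  refine lintegral_congr fun p => ?_
  rw [← lintegral_indicator measurableSet_Ioo]
  refine lintegral_congr fun w => ?_
  by_cases h : w ∈ Ioo 0 π <;> simp [h]

private lemma pointwise {θ η k l w b : ℝ} (hη0 : 0 ≤ η) (hη1 : η ≤ 1) (hθ : θ = (1 - η) ^ 2)
    (hk : 0 < k) (hkπ : k ≤ π) (hl : |l| < 1) (hc : 0 < l → (1 - η) * k ≤ -log l) (hw : 0 ≤ w)
    (hb : 0 ≤ b) (hwb : w + b ≤ π) :
    ENNReal.ofReal θ * (ENNReal.ofReal (Pk l w / π) * gg (k, w))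
      ≤ ENNReal.ofReal (Pk l (w + b) / π) * gg (k, w + b) := by
  have hs := sy_pos hk hkπ
  have hP := Pk_pos hl w
  have hP' := Pk_pos hl (w + b)
  have hπ := pi_pos
  unfold gg
  simp only
  have hθ0 : 0 ≤ θ := by rw [hθ]; positivity
  rw [← ENNReal.ofReal_mul (div_nonneg hP.le hπ.le), ← ENNReal.ofReal_mul (div_nonneg hP'.le hπ.le),
    ← ENNReal.ofReal_mul hθ0]
  refine ENNReal.ofReal_le_ofReal ?_
  have h1 : (1 - η) ^ 2 * ((sy k + sy w) * Pk l w) ≤ (sy k + sy (w + b)) * Pk l (w + b) := by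
    rcases le_or_gt l 0 with h | h
    · have h2 := mono_neg (k := k) hl h hw (by linarith : w ≤ w + b) hwb
      have h3 : 0 ≤ (sy k + sy w) * Pk l w := mul_nonneg (by linarith [sy_nonneg w]) hP.le
      have h4 : (1 - η) ^ 2 ≤ 1 := by nlinarith
      calc (1 - η) ^ 2 * ((sy k + sy w) * Pk l w) ≤ 1 * ((sy k + sy w) * Pk l w) :=
            mul_le_mul_of_nonneg_right h4 h3
        _ ≤ _ := by linarith
    · exact mono_pos hl h hw (by linarith) hwb hk.le hη0 hη1 (hc h)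
  rw [hθ]
  have e1 : (1 - η) ^ 2 * (Pk l w / π * ((sy k + sy w) / sy k))
      = ((1 - η) ^ 2 * ((sy k + sy w) * Pk l w)) / (π * sy k) := by field_simp
  have e2 : Pk l (w + b) / π * ((sy k + sy (w + b)) / sy k)
      = ((sy k + sy (w + b)) * Pk l (w + b)) / (π * sy k) := by field_simp
  rw [e1, e2]
  exact div_le_div_of_nonneg_right h1 (by positivity)

/-- translation in the second variable -/
theorem kap_trans_snd {C : ℤ → ℤ → ℝ} (hρ : ∀ᵐ p ∂ρ, 0 < p.1 ∧ p.1 ≤ π ∧ |p.2| < 1)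
    (hC : ∀ x y : ℤ, C x y = ∫ p, cos (x * p.1) * p.2 ^ y.natAbs ∂ρ)
    (hsym : ∀ x y : ℤ, C x (y + 1) + C x (y - 1) - 2 * C x y
      = C y (x + 1) + C y (x - 1) - 2 * C y x) {η k0 b : ℝ} (hη0 : 0 ≤ η) (hη1 : η ≤ 1)
    (hcone : ∀ᵐ p ∂ρ, p.1 ≤ k0 → 0 < p.2 → (1 - η) * p.1 ≤ -log p.2) (hb : 0 ≤ b)
    {S : Set (ℝ × ℝ)} (hS : MeasurableSet S) (hSs : ∀ z ∈ S, z.1 ≤ k0 ∧ 0 < z.2 ∧ z.2 + b < π) :
    ENNReal.ofReal ((1 - η) ^ 2) * kapM ρ S ≤ kapM ρ ((fun z : ℝ × ℝ => (z.1, z.2 - b)) ⁻¹' S) := by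
  have hm : Measurable (fun z : ℝ × ℝ => (z.1, z.2 - b)) :=
    measurable_fst.prodMk (measurable_snd.sub_const b)
  rw [kap_apply hρ hC hsym hS, kap_apply hρ hC hsym (hm hS)]
  have hmeasF : Measurable (fun q : (ℝ × ℝ) × ℝ => (Ioo 0 π).indicator (1 : ℝ → ENNReal) q.2 *
      (ENNReal.ofReal (Pk q.1.2 q.2 / π) * (S.indicator 1 (q.1.1, q.2) * gg (q.1.1, q.2)))) := by
    have a1 : Measurable (fun q : (ℝ × ℝ) × ℝ => (Ioo 0 π).indicator (1 : ℝ → ENNReal) q.2) :=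
      (measurable_one.indicator measurableSet_Ioo).comp measurable_snd
    have a2 : Measurable (fun q : (ℝ × ℝ) × ℝ => ENNReal.ofReal (Pk q.1.2 q.2 / π)) := by
      unfold Pk
      fun_prop
    have a0 : Measurable (fun q : (ℝ × ℝ) × ℝ => (q.1.1, q.2)) :=
      (measurable_fst.comp measurable_fst).prodMk measurable_snd
    have a3 : Measurable (fun q : (ℝ × ℝ) × ℝ => S.indicator (1 : ℝ × ℝ → ENNReal) (q.1.1, q.2)) :=
      (measurable_one.indicator hS).comp a0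
    have a4 : Measurable (fun q : (ℝ × ℝ) × ℝ => gg (q.1.1, q.2)) := measurable_gg.comp a0
    exact a1.mul (a2.mul (a3.mul a4))
  rw [← lintegral_const_mul _ hmeasF.lintegral_prod_right']
  refine lintegral_mono_ae ?_
  filter_upwards [hρ, hcone] with p hp hcp
  have hmeas_p : Measurable (fun w : ℝ => (Ioo 0 π).indicator (1 : ℝ → ENNReal) w *
      (ENNReal.ofReal (Pk p.2 w / π) * (S.indicator 1 (p.1, w) * gg (p.1, w)))) :=
    hmeasF.comp (measurable_const.prodMk measurable_id)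
  rw [← lintegral_const_mul _ hmeas_p]
  -- substitute w = w' + b on the right
  rw [← lintegral_add_right_eq_self (fun w => (Ioo 0 π).indicator (1 : ℝ → ENNReal) w *
      (ENNReal.ofReal (Pk p.2 w / π) * (((fun z : ℝ × ℝ => (z.1, z.2 - b)) ⁻¹' S).indicator 1 (p.1, w)
        * gg (p.1, w)))) b]
  refine lintegral_mono fun w => ?_
  simp only
  by_cases hwS : (p.1, w) ∈ S
  · have h1 := hSs _ hwS
    simp only at h1
    have h2 : (p.1, w + b) ∈ (fun z : ℝ × ℝ => (z.1, z.2 - b)) ⁻¹' S := by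
      simpa using hwS
    rw [indicator_of_mem h2, indicator_of_mem hwS]
    have h3 : w ∈ Ioo 0 π := ⟨h1.2.1, by linarith [h1.2.2]⟩
    have h4 : w + b ∈ Ioo 0 π := ⟨by linarith [h1.2.1], h1.2.2⟩
    rw [indicator_of_mem h3, indicator_of_mem h4]
    simp only [Pi.one_apply, one_mul]
    exact pointwise hη0 hη1 rfl hp.1 hp.2.1 hp.2.2 (hcp h1.1) h1.2.1.le hb h1.2.2.le
  · rw [indicator_of_notMem hwS]
    simp

theorem kap_transMono {C : ℤ → ℤ → ℝ} (hρ : ∀ᵐ p ∂ρ, 0 < p.1 ∧ p.1 ≤ π ∧ |p.2| < 1)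
    (hC : ∀ x y : ℤ, C x y = ∫ p, cos (x * p.1) * p.2 ^ y.natAbs ∂ρ)
    (hsym : ∀ x y : ℤ, C x (y + 1) + C x (y - 1) - 2 * C x y
      = C y (x + 1) + C y (x - 1) - 2 * C y x)
    (hcone : ∀ η > 0, ∃ k0 > 0, ∀ᵐ p ∂ρ, p.1 ≤ k0 → 0 < p.2 → (1 - η) * p.1 ≤ -log p.2) :
    ∀ θ : ℝ, 0 ≤ θ → θ < 1 → ∃ e > 0, TransMono (kapM ρ) θ e := by
  intro θ hθ0 hθ1
  set η : ℝ := (1 - θ) / 4 with hη
  have hη0 : 0 < η := by rw [hη]; linarith
  have hη1 : η ≤ 1 := by rw [hη]; linarith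
  obtain ⟨k0, hk0, hk⟩ := hcone η hη0
  refine ⟨min k0 3, lt_min hk0 (by norm_num), ?_⟩
  intro S hS b hb1 hb2 hSe hSb
  have hπ : (3 : ℝ) < π := pi_gt_three
  set S' : Set (ℝ × ℝ) := (fun z : ℝ × ℝ => (z.1, z.2 - b.2)) ⁻¹' S with hS'
  have hm : Measurable (fun z : ℝ × ℝ => (z.1, z.2 - b.2)) :=
    measurable_fst.prodMk (measurable_snd.sub_const b.2)
  have hS'm : MeasurableSet S' := hm hS
  have step1 : ENNReal.ofReal ((1 - η) ^ 2) * kapM ρ S ≤ kapM ρ S' := by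
    refine kap_trans_snd hρ hC hsym hη0.le hη1 hk hb2 hS ?_
    intro z hz
    have a := hSe hz
    have c := hSb z hz
    refine ⟨a.1.2.trans (min_le_left _ _), a.2.1, ?_⟩
    have : (z + b).2 ≤ min k0 3 := c.2.2
    simp only [Prod.snd_add] at this
    exact this.trans_lt ((min_le_right _ _).trans_lt hπ)
  have hsw : Measurable (Prod.swap : ℝ × ℝ → ℝ × ℝ) := measurable_swap
  have step2 : ENNReal.ofReal ((1 - η) ^ 2) * kapM ρ (Prod.swap ⁻¹' S')
      ≤ kapM ρ ((fun z : ℝ × ℝ => (z.1, z.2 - b.1)) ⁻¹' (Prod.swap ⁻¹' S')) := by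
    refine kap_trans_snd hρ hC hsym hη0.le hη1 hk hb1 (hsw hS'm) ?_
    intro z hz
    -- z.swap ∈ S', i.e. (z.2, z.1 - b.2) ∈ S
    have hz' : (z.2, z.1 - b.2) ∈ S := hz
    have a := hSe hz'
    have c := hSb _ hz'
    have c2 : ((z.2, z.1 - b.2) + b).2 ≤ min k0 3 := c.2.2
    have c1 : ((z.2, z.1 - b.2) + b).1 ≤ min k0 3 := c.1.2
    simp only [Prod.snd_add, sub_add_cancel] at c2
    simp only [Prod.fst_add] at c1
    refine ⟨c2.trans (min_le_left _ _), a.1.1, ?_⟩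
    exact c1.trans_lt ((min_le_right _ _).trans_lt hπ)
  have sw : ∀ A : Set (ℝ × ℝ), MeasurableSet A → kapM ρ (Prod.swap ⁻¹' A) = kapM ρ A := by
    intro A hA
    rw [← Measure.map_apply hsw hA, kap_swap]
  have e1 : (fun z : ℝ × ℝ => (z.1, z.2 - b.1)) ⁻¹' (Prod.swap ⁻¹' S')
      = Prod.swap ⁻¹' ((fun p => p - b) ⁻¹' S) := by
    ext z
    simp [hS', mem_preimage, Prod.swap, Prod.sub_def]
  have hmb : MeasurableSet ((fun p : ℝ × ℝ => p - b) ⁻¹' S) := (measurable_id.sub_const b) hS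
  rw [e1, sw _ hmb, sw _ hS'm] at step2
  have h4 : ENNReal.ofReal θ ≤ ENNReal.ofReal ((1 - η) ^ 2) * ENNReal.ofReal ((1 - η) ^ 2) := by
    rw [← ENNReal.ofReal_mul (sq_nonneg _)]
    refine ENNReal.ofReal_le_ofReal ?_
    have h5 : 1 - 2 * η ≤ (1 - η) ^ 2 := by nlinarith
    have h6 : 0 ≤ 1 - 2 * η := by rw [hη]; linarith
    have h7 : (1 - 2 * η) * (1 - 2 * η) ≤ (1 - η) ^ 2 * (1 - η) ^ 2 :=
      mul_le_mul h5 h5 h6 (sq_nonneg _)
    have h8 : θ = 1 - 4 * η := by rw [hη]; ring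
    nlinarith
  calc ENNReal.ofReal θ * kapM ρ S
      ≤ (ENNReal.ofReal ((1 - η) ^ 2) * ENNReal.ofReal ((1 - η) ^ 2)) * kapM ρ S := by gcongr
    _ = ENNReal.ofReal ((1 - η) ^ 2) * (ENNReal.ofReal ((1 - η) ^ 2) * kapM ρ S) := by ring
    _ ≤ ENNReal.ofReal ((1 - η) ^ 2) * kapM ρ S' := by gcongr
    _ ≤ _ := step2

end Pool.Agent.SixB
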