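import Mathlib
import Pool.Agent.Lib.SixB.S2P

/-! # 6BD step 2: quadratic forms on finitely supported functions on `ℤ × ℤ` and their cosine
representation. -/

namespace Pool.Agent.SixB

open MeasureTheory Set Filter Topology Real

/-- `E (Lap h)(0) (Lap h)(v)` in terms of the arrow correlation `C` -/
def Gc (C : ℤ → ℤ → ℝ) (v : ℤ × ℤ) : ℝ :=
  4 * (C v.1 v.2 + C v.2 v.1) - (C (v.1 + 1) v.2 + C v.2 (v.1 + 1)) - (C (v.1 - 1) v.2 + C v.2 (v.1 - 1))
    - (C v.1 (v.2 + 1) + C (v.2 + 1) v.1) - (C v.1 (v.2 - 1) + C (v.2 - 1) v.1)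

/-- the matrix of minus the lattice Laplacian -/
def Lc (v : ℤ × ℤ) : ℝ :=
  if v = (0, 0) then 4
  else if v = (1, 0) ∨ v = (-1, 0) ∨ v = (0, 1) ∨ v = (0, -1) then -1 else 0

/-- bilinear form of a kernel -/
noncomputable def QK (K : ℤ × ℤ → ℝ) (f g : ℤ × ℤ →₀ ℝ) : ℝ :=
  f.sum fun v a => g.sum fun w b => a * b * K (v - w)

/-- trigonometric coefficient -/
noncomputable def TT (a b : ℝ → ℝ) (z : ℝ × ℝ) : (ℤ × ℤ →₀ ℝ) →ₗ[ℝ] ℝ :=
  Finsupp.linearCombination ℝ (fun v : ℤ × ℤ => a (v.1 * z.1) * b (v.2 * z.2))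

lemma TT_apply (a b : ℝ → ℝ) (z : ℝ × ℝ) (f : ℤ × ℤ →₀ ℝ) :
    TT a b z f = ∑ v ∈ f.support, f v * (a (v.1 * z.1) * b (v.2 * z.2)) := by
  unfold TT
  rw [Finsupp.linearCombination_apply, Finsupp.sum]
  simp only [smul_eq_mul]

/-- the four products -/
noncomputable def NN (f g : ℤ × ℤ →₀ ℝ) (z : ℝ × ℝ) : ℝ :=
  TT cos cos z f * TT cos cos z g + TT cos sin z f * TT cos sin z g
    + TT sin cos z f * TT sin cos z g + TT sin sin z f * TT sin sin z g

lemma NN_eq (f g : ℤ × ℤ →₀ ℝ) (z : ℝ × ℝ) :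
    NN f g z = QK (fun v => cos (v.1 * z.1) * cos (v.2 * z.2)) f g := by
  unfold NN QK
  simp only [TT_apply, Finsupp.sum, Finset.sum_mul_sum]
  rw [← Finset.sum_add_distrib, ← Finset.sum_add_distrib, ← Finset.sum_add_distrib]
  refine Finset.sum_congr rfl fun v _ => ?_
  rw [← Finset.sum_add_distrib, ← Finset.sum_add_distrib, ← Finset.sum_add_distrib]
  refine Finset.sum_congr rfl fun w _ => ?_
  simp only [Prod.fst_sub, Prod.snd_sub]
  push_cast
  rw [sub_mul, sub_mul, cos_sub, cos_sub]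
  ring

lemma NN_self_nonneg (f : ℤ × ℤ →₀ ℝ) (z : ℝ × ℝ) : 0 ≤ NN f f z := by
  unfold NN
  nlinarith [mul_self_nonneg (TT cos cos z f), mul_self_nonneg (TT cos sin z f),
    mul_self_nonneg (TT sin cos z f), mul_self_nonneg (TT sin sin z f)]

lemma NN_polar (f g : ℤ × ℤ →₀ ℝ) (z : ℝ × ℝ) :
    NN f g z = (NN (f + g) (f + g) z - NN (f - g) (f - g) z) / 4 := by
  unfold NN
  simp only [map_add, map_sub]
  ring

lemma NN_par (f g : ℤ × ℤ →₀ ℝ) (z : ℝ × ℝ) :
    NN (f + g) (f + g) z + NN (f - g) (f - g) z = 2 * NN f f z + 2 * NN g g z := by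
  unfold NN
  simp only [map_add, map_sub]
  ring

lemma continuous_TT {a b : ℝ → ℝ} (ha : Continuous a) (hb : Continuous b) (f : ℤ × ℤ →₀ ℝ) :
    Continuous (fun z => TT a b z f) := by
  simp only [TT_apply]
  fun_prop

lemma continuous_NN (f g : ℤ × ℤ →₀ ℝ) : Continuous (NN f g) := by
  unfold NN
  have h1 := fun f => continuous_TT continuous_cos continuous_cos f
  have h2 := fun f => continuous_TT continuous_cos continuous_sin f
  have h3 := fun f => continuous_TT continuous_sin continuous_cos f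
  have h4 := fun f => continuous_TT continuous_sin continuous_sin f
  exact ((((h1 f).mul (h1 g)).add ((h2 f).mul (h2 g))).add ((h3 f).mul (h3 g))).add
    ((h4 f).mul (h4 g))

/-- `ℓ¹` norm -/
noncomputable def l1 (f : ℤ × ℤ →₀ ℝ) : ℝ := f.sum fun _ a => |a|

lemma l1_nonneg (f : ℤ × ℤ →₀ ℝ) : 0 ≤ l1 f := Finset.sum_nonneg fun _ _ => abs_nonneg _

lemma TT_le {a b : ℝ → ℝ} (ha : ∀ x, |a x| ≤ 1) (hb : ∀ x, |b x| ≤ 1) (z : ℝ × ℝ)
    (f : ℤ × ℤ →₀ ℝ) : |TT a b z f| ≤ l1 f := by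
  rw [TT_apply]
  refine (Finset.abs_sum_le_sum_abs _ _).trans (Finset.sum_le_sum fun v _ => ?_)
  rw [abs_mul, abs_mul]
  have h1 := ha (v.1 * z.1)
  have h2 := hb (v.2 * z.2)
  have h3 : |a (v.1 * z.1)| * |b (v.2 * z.2)| ≤ 1 := mul_le_one₀ h1 (abs_nonneg _) h2
  calc |f v| * (|a (v.1 * z.1)| * |b (v.2 * z.2)|) ≤ |f v| * 1 :=
        mul_le_mul_of_nonneg_left h3 (abs_nonneg _)
    _ = |f v| := mul_one _

lemma NN_le (f : ℤ × ℤ →₀ ℝ) (z : ℝ × ℝ) : NN f f z ≤ 4 * l1 f ^ 2 := by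
  have h : ∀ a b : ℝ → ℝ, (∀ x, |a x| ≤ 1) → (∀ x, |b x| ≤ 1) →
      TT a b z f * TT a b z f ≤ l1 f ^ 2 := by
    intro a b ha hb
    have := TT_le ha hb z f
    have h2 := sq_le_sq' (by linarith [neg_abs_le (TT a b z f)]) ((le_abs_self _).trans this)
    nlinarith
  unfold NN
  have h1 := h cos cos abs_cos_le_one abs_cos_le_one
  have h2 := h cos sin abs_cos_le_one abs_sin_le_one
  have h3 := h sin cos abs_sin_le_one abs_cos_le_one
  have h4 := h sin sin abs_sin_le_one abs_sin_le_one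
  linarith

/-- second difference in direction `e` -/
noncomputable def dd (e : ℤ × ℤ) (f : ℤ × ℤ →₀ ℝ) : ℤ × ℤ →₀ ℝ :=
  (2 : ℝ) • f - f.mapDomain (fun v => v + e) - f.mapDomain (fun v => v - e)

lemma TT_dd (a b : ℝ → ℝ) (z : ℝ × ℝ) (e : ℤ × ℤ) (f : ℤ × ℤ →₀ ℝ) (s : ℝ)
    (h : ∀ v : ℤ × ℤ, 2 * (a (v.1 * z.1) * b (v.2 * z.2))
      - a (((v + e).1 : ℤ) * z.1) * b (((v + e).2 : ℤ) * z.2)
      - a (((v - e).1 : ℤ) * z.1) * b (((v - e).2 : ℤ) * z.2) = s * (a (v.1 * z.1) * b (v.2 * z.2))) :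
    TT a b z (dd e f) = s * TT a b z f := by
  unfold dd TT
  rw [map_sub, map_sub, map_smul, Finsupp.linearCombination_mapDomain,
    Finsupp.linearCombination_mapDomain]
  simp only [Finsupp.linearCombination_apply, Finsupp.sum, smul_eq_mul, Function.comp_apply]
  rw [Finset.mul_sum, Finset.mul_sum, ← Finset.sum_sub_distrib, ← Finset.sum_sub_distrib]
  refine Finset.sum_congr rfl fun v _ => ?_
  linear_combination f v * h v

private lemma dcos (x : ℤ) (k : ℝ) :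
    2 * cos (x * k) - cos (((x + 1 : ℤ) : ℝ) * k) - cos (((x - 1 : ℤ) : ℝ) * k) = sy k * cos (x * k) := by
  push_cast
  rw [show ((x : ℝ) + 1) * k = x * k + k by ring, show ((x : ℝ) - 1) * k = x * k - k by ring,
    cos_add, cos_sub]
  unfold sy
  ring

private lemma dsin (x : ℤ) (k : ℝ) :
    2 * sin (x * k) - sin (((x + 1 : ℤ) : ℝ) * k) - sin (((x - 1 : ℤ) : ℝ) * k) = sy k * sin (x * k) := by
  push_cast
  rw [show ((x : ℝ) + 1) * k = x * k + k by ring, show ((x : ℝ) - 1) * k = x * k - k by ring,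
    sin_add, sin_sub]
  unfold sy
  ring

lemma NN_ddx (f : ℤ × ℤ →₀ ℝ) (z : ℝ × ℝ) :
    NN (dd (1, 0) f) (dd (1, 0) f) z = sy z.1 ^ 2 * NN f f z := by
  have h1 : ∀ b : ℝ → ℝ, TT cos b z (dd (1, 0) f) = sy z.1 * TT cos b z f := by
    intro b
    refine TT_dd _ _ _ _ _ _ fun v => ?_
    simp only [Prod.fst_add, Prod.snd_add, Prod.fst_sub, Prod.snd_sub, add_zero, sub_zero]
    linear_combination b (v.2 * z.2) * dcos v.1 z.1
  have h2 : ∀ b : ℝ → ℝ, TT sin b z (dd (1, 0) f) = sy z.1 * TT sin b z f := by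
    intro b
    refine TT_dd _ _ _ _ _ _ fun v => ?_
    simp only [Prod.fst_add, Prod.snd_add, Prod.fst_sub, Prod.snd_sub, add_zero, sub_zero]
    linear_combination b (v.2 * z.2) * dsin v.1 z.1
  unfold NN
  rw [h1, h1, h2, h2]
  ring

lemma NN_ddy (f : ℤ × ℤ →₀ ℝ) (z : ℝ × ℝ) :
    NN (dd (0, 1) f) (dd (0, 1) f) z = sy z.2 ^ 2 * NN f f z := by
  have h1 : ∀ a : ℝ → ℝ, TT a cos z (dd (0, 1) f) = sy z.2 * TT a cos z f := by
    intro a
    refine TT_dd _ _ _ _ _ _ fun v => ?_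
    simp only [Prod.fst_add, Prod.snd_add, Prod.fst_sub, Prod.snd_sub, add_zero, sub_zero]
    linear_combination a (v.1 * z.1) * dcos v.2 z.2
  have h2 : ∀ a : ℝ → ℝ, TT a sin z (dd (0, 1) f) = sy z.2 * TT a sin z f := by
    intro a
    refine TT_dd _ _ _ _ _ _ fun v => ?_
    simp only [Prod.fst_add, Prod.snd_add, Prod.fst_sub, Prod.snd_sub, add_zero, sub_zero]
    linear_combination a (v.1 * z.1) * dsin v.2 z.2
  unfold NN
  rw [h1, h2, h1, h2]
  ring

/-- integral representation of a kernel gives that of its form -/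
theorem QK_integral {κ : Measure (ℝ × ℝ)} [IsFiniteMeasure κ] {K : ℤ × ℤ → ℝ}
    (hK : ∀ v : ℤ × ℤ, K v = ∫ z, (sy z.1 + sy z.2) * (cos (v.1 * z.1) * cos (v.2 * z.2)) ∂κ)
    (f g : ℤ × ℤ →₀ ℝ) : QK K f g = ∫ z, (sy z.1 + sy z.2) * NN f g z ∂κ := by
  have hint : ∀ v : ℤ × ℤ, Integrable
      (fun z : ℝ × ℝ => (sy z.1 + sy z.2) * (cos (v.1 * z.1) * cos (v.2 * z.2))) κ := by
    intro v
    refine Integrable.of_bound (C := 8) ?_ (Eventually.of_forall fun z => ?_)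
    · unfold sy
      exact (by fun_prop : Continuous (fun z : ℝ × ℝ => ((2 - 2 * cos z.1) + (2 - 2 * cos z.2)) *
        (cos (v.1 * z.1) * cos (v.2 * z.2)))).aestronglyMeasurable
    · rw [Real.norm_eq_abs, abs_mul, abs_mul,
        abs_of_nonneg (add_nonneg (sy_nonneg _) (sy_nonneg _))]
      have h1 := sy_le z.1
      have h2 := sy_le z.2
      have h3 : |cos (v.1 * z.1)| * |cos (v.2 * z.2)| ≤ 1 :=
        mul_le_one₀ (abs_cos_le_one _) (abs_nonneg _) (abs_cos_le_one _)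
      have h4 : 0 ≤ |cos (v.1 * z.1)| * |cos (v.2 * z.2)| := by positivity
      have h5 := sy_nonneg z.1
      have h6 := sy_nonneg z.2
      nlinarith
  have e : ∀ z : ℝ × ℝ, (sy z.1 + sy z.2) * NN f g z
      = ∑ v ∈ f.support, ∑ w ∈ g.support, (f v * g w) *
        ((sy z.1 + sy z.2) * (cos ((v - w).1 * z.1) * cos ((v - w).2 * z.2))) := by
    intro z
    rw [NN_eq]
    unfold QK
    simp only [Finsupp.sum]
    rw [Finset.mul_sum]
    refine Finset.sum_congr rfl fun v _ => ?_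
    rw [Finset.mul_sum]
    refine Finset.sum_congr rfl fun w _ => by ring
  simp_rw [e]
  rw [integral_finsetSum _ (fun v _ => integrable_finsetSum _ (fun w _ => (hint (v - w)).const_mul _))]
  unfold QK
  simp only [Finsupp.sum]
  refine Finset.sum_congr rfl fun v _ => ?_
  rw [integral_finsetSum _ (fun w _ => (hint (v - w)).const_mul _)]
  refine Finset.sum_congr rfl fun w _ => ?_
  rw [integral_const_mul, ← hK (v - w)]

end Pool.Agent.SixB
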