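import Mathlib
import Pool.Agent.Lib.SixB.S2L
import Pool.Agent.Lib.SixB.S2Q

/-! # 6BD step 2: kernel representations and the main estimate. -/

namespace Pool.Agent.SixB

open MeasureTheory Set Filter Topology Real

/-- generic: a function with cosine representation has second differences represented with `sy` -/
private lemma lap_rep {κ : Measure (ℝ × ℝ)} [IsFiniteMeasure κ] {A : ℤ → ℤ → ℝ}
    (hA : ∀ x y : ℤ, ∫ z, cos (x * z.1) * cos (y * z.2) ∂κ = A x y) (x y : ℤ) :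
    ∫ z, (sy z.1 + sy z.2) * (cos (x * z.1) * cos (y * z.2)) ∂κ
      = 4 * A x y - A (x + 1) y - A (x - 1) y - A x (y + 1) - A x (y - 1) := by
  have ib : ∀ a b : ℤ, Integrable (fun z : ℝ × ℝ => cos (a * z.1) * cos (b * z.2)) κ := by
    intro a b
    refine Integrable.of_bound (C := 1) (by fun_prop) (Eventually.of_forall fun z => ?_)
    rw [Real.norm_eq_abs, abs_mul]
    exact mul_le_one₀ (abs_cos_le_one _) (abs_nonneg _) (abs_cos_le_one _)
  have e : ∀ z : ℝ × ℝ, (sy z.1 + sy z.2) * (cos (x * z.1) * cos (y * z.2))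
      = 4 * (cos (x * z.1) * cos (y * z.2)) - cos (((x + 1 : ℤ) : ℝ) * z.1) * cos (y * z.2)
        - cos (((x - 1 : ℤ) : ℝ) * z.1) * cos (y * z.2) - cos (x * z.1) * cos (((y + 1 : ℤ) : ℝ) * z.2)
        - cos (x * z.1) * cos (((y - 1 : ℤ) : ℝ) * z.2) := by
    intro z
    push_cast
    have c1 : cos (((x : ℝ) + 1) * z.1) = cos (x * z.1) * cos z.1 - sin (x * z.1) * sin z.1 := by
      rw [add_mul, one_mul, cos_add]
    have c2 : cos (((x : ℝ) - 1) * z.1) = cos (x * z.1) * cos z.1 + sin (x * z.1) * sin z.1 := by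
      rw [sub_mul, one_mul, cos_sub]
    have c3 : cos (((y : ℝ) + 1) * z.2) = cos (y * z.2) * cos z.2 - sin (y * z.2) * sin z.2 := by
      rw [add_mul, one_mul, cos_add]
    have c4 : cos (((y : ℝ) - 1) * z.2) = cos (y * z.2) * cos z.2 + sin (y * z.2) * sin z.2 := by
      rw [sub_mul, one_mul, cos_sub]
    rw [c1, c2, c3, c4]
    unfold sy
    ring
  simp_rw [e]
  have i0 := (ib x y).const_mul 4
  have i1 := i0.sub (ib (x + 1) y)
  have i2 := i1.sub (ib (x - 1) y)
  have i3 := i2.sub (ib x (y + 1))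
  have j1 : Integrable (fun z : ℝ × ℝ => 4 * (cos (x * z.1) * cos (y * z.2))
      - cos (((x + 1 : ℤ) : ℝ) * z.1) * cos (y * z.2)) κ := i1
  have j2 : Integrable (fun z : ℝ × ℝ => 4 * (cos (x * z.1) * cos (y * z.2))
      - cos (((x + 1 : ℤ) : ℝ) * z.1) * cos (y * z.2)
      - cos (((x - 1 : ℤ) : ℝ) * z.1) * cos (y * z.2)) κ := i2
  have j3 : Integrable (fun z : ℝ × ℝ => 4 * (cos (x * z.1) * cos (y * z.2))
      - cos (((x + 1 : ℤ) : ℝ) * z.1) * cos (y * z.2)
      - cos (((x - 1 : ℤ) : ℝ) * z.1) * cos (y * z.2)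
      - cos (x * z.1) * cos (((y + 1 : ℤ) : ℝ) * z.2)) κ := i3
  rw [integral_sub j3 (ib x (y - 1)), integral_sub j2 (ib x (y + 1)),
    integral_sub j1 (ib (x - 1) y), integral_sub i0 (ib (x + 1) y), integral_const_mul,
    hA, hA, hA, hA, hA]

variable {ρ : Measure (ℝ × ℝ)} [IsFiniteMeasure ρ]

theorem corr_kap {C : ℤ → ℤ → ℝ} (hρ : ∀ᵐ p ∂ρ, 0 < p.1 ∧ p.1 ≤ π ∧ |p.2| < 1)
    (hC : ∀ x y : ℤ, C x y = ∫ p, cos (x * p.1) * p.2 ^ y.natAbs ∂ρ) (x y : ℤ) :
    ∫ z, cos (x * z.1) * cos (y * z.2) ∂(kapM ρ) = C x y + C y x := by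
  have hfin := isFiniteMeasure_muM hρ
  have hfin2 : IsFiniteMeasure ((muM ρ).map Prod.swap) := Measure.isFiniteMeasure_map _ _
  have ib : ∀ (ξ : Measure (ℝ × ℝ)) [IsFiniteMeasure ξ] (a b : ℤ),
      Integrable (fun z : ℝ × ℝ => cos (a * z.1) * cos (b * z.2)) ξ := by
    intro ξ _ a b
    refine Integrable.of_bound (C := 1) (by fun_prop) (Eventually.of_forall fun z => ?_)
    rw [Real.norm_eq_abs, abs_mul]
    exact mul_le_one₀ (abs_cos_le_one _) (abs_nonneg _) (abs_cos_le_one _)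
  unfold kapM
  rw [integral_add_measure (ib _ x y) (ib _ x y), corr_muM hρ hC,
    integral_map measurable_swap.aemeasurable (ib _ x y).aestronglyMeasurable]
  congr 1
  rw [← corr_muM hρ hC]
  refine integral_congr_ae (Eventually.of_forall fun z => ?_)
  simp only [Prod.fst_swap, Prod.snd_swap]
  rw [mul_comm]

theorem Gc_rep {C : ℤ → ℤ → ℝ} (hρ : ∀ᵐ p ∂ρ, 0 < p.1 ∧ p.1 ≤ π ∧ |p.2| < 1)
    (hC : ∀ x y : ℤ, C x y = ∫ p, cos (x * p.1) * p.2 ^ y.natAbs ∂ρ) (v : ℤ × ℤ) :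
    Gc C v = ∫ z, (sy z.1 + sy z.2) * (cos (v.1 * z.1) * cos (v.2 * z.2)) ∂(kapM ρ) := by
  have := isFiniteMeasure_kap hρ
  rw [lap_rep (A := fun x y => C x y + C y x) (corr_kap hρ hC)]
  rfl

/-- Lebesgue measure on `(0,π)²` -/
noncomputable def lebQ : Measure (ℝ × ℝ) := (volume : Measure (ℝ × ℝ)).restrict (Ioo 0 π ×ˢ Ioo 0 π)

instance : IsFiniteMeasure lebQ := by
  refine ⟨?_⟩
  unfold lebQ
  rw [Measure.restrict_apply_univ, Measure.volume_eq_prod, Measure.prod_prod, Real.volume_Ioo]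
  exact ENNReal.mul_lt_top ENNReal.ofReal_lt_top ENNReal.ofReal_lt_top

private lemma int_cos' (x : ℤ) : ∫ w in Ioo 0 π, cos (x * w) = if x = 0 then π else 0 := by
  rw [← integral_Ioc_eq_integral_Ioo, ← intervalIntegral.integral_of_le pi_pos.le]
  split_ifs with h
  · subst h; simp
  · have hy : (x : ℝ) ≠ 0 := by exact_mod_cast h
    rw [intervalIntegral.integral_comp_mul_left (fun x => cos x) hy, integral_cos]
    simp [sin_int_mul_pi]

private lemma corr_leb (x y : ℤ) : ∫ z, cos (x * z.1) * cos (y * z.2) ∂lebQ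
    = (if x = 0 then π else 0) * (if y = 0 then π else 0) := by
  unfold lebQ
  rw [Measure.volume_eq_prod, setIntegral_prod_mul (fun k => cos (x * k)) (fun w => cos (y * w)),
    int_cos', int_cos']

theorem Lc_rep (v : ℤ × ℤ) :
    π ^ 2 * Lc v = ∫ z, (sy z.1 + sy z.2) * (cos (v.1 * z.1) * cos (v.2 * z.2)) ∂lebQ := by
  rw [lap_rep (A := fun x y => (if x = 0 then π else 0) * (if y = 0 then π else 0)) corr_leb]
  obtain ⟨x, y⟩ := v
  unfold Lc
  simp only [Prod.mk.injEq]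
  by_cases h1 : x = 0
  · subst h1
    by_cases h2 : y = 0
    · subst h2; simp; ring
    · by_cases h3 : y = 1
      · subst h3; simp; ring
      · by_cases h4 : y = -1
        · subst h4; simp; ring
        · have a1 : y + 1 ≠ 0 := by omega
          have a2 : y - 1 ≠ 0 := by omega
          simp [h2, h3, h4, a1, a2]
  · by_cases h2 : y = 0
    · subst h2
      by_cases h3 : x = 1
      · subst h3; simp; ring
      · by_cases h4 : x = -1
        · subst h4; simp; ring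
        · have a1 : x + 1 ≠ 0 := by omega
          have a2 : x - 1 ≠ 0 := by omega
          simp [h1, h3, h4, a1, a2]
    · by_cases h3 : x + 1 = 0 <;> by_cases h4 : x - 1 = 0 <;> by_cases h5 : y + 1 = 0 <;>
        by_cases h6 : y - 1 = 0 <;> simp [h1, h2]

end Pool.Agent.SixB
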