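import Mathlib
import Pool.Agent.Lib.SixB.S2R

/-! # 6BD step 2: the main estimate and Theorem S2 (the lattice Laplacian of the six-vertex height
is null). -/

namespace Pool.Agent.SixB

open MeasureTheory Set Filter Topology Real

/-- the integrand -/
noncomputable def MM (f g : ℤ × ℤ →₀ ℝ) (z : ℝ × ℝ) : ℝ := (sy z.1 + sy z.2) * NN f g z

lemma MM_nonneg (f : ℤ × ℤ →₀ ℝ) (z : ℝ × ℝ) : 0 ≤ MM f f z :=
  mul_nonneg (add_nonneg (sy_nonneg _) (sy_nonneg _)) (NN_self_nonneg f z)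

lemma continuous_MM (f g : ℤ × ℤ →₀ ℝ) : Continuous (MM f g) :=
  ((continuous_sy.comp continuous_fst).add (continuous_sy.comp continuous_snd)).mul
    (continuous_NN f g)

/-- fourth differences -/
noncomputable def d4x (f : ℤ × ℤ →₀ ℝ) : ℤ × ℤ →₀ ℝ := dd (1, 0) (dd (1, 0) f)
noncomputable def d4y (f : ℤ × ℤ →₀ ℝ) : ℤ × ℤ →₀ ℝ := dd (0, 1) (dd (0, 1) f)

lemma MM_self_bound (f : ℤ × ℤ →₀ ℝ) (z : ℝ × ℝ) : |MM f f z| ≤ 32 * l1 f ^ 2 := by
  rw [abs_of_nonneg (MM_nonneg f z)]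
  unfold MM
  have h1 := sy_le z.1
  have h2 := sy_le z.2
  have h3 := NN_le f z
  have h4 := NN_self_nonneg f z
  have h5 := sy_nonneg z.1
  have h6 := sy_nonneg z.2
  nlinarith

lemma integrable_MM_self (κ : Measure (ℝ × ℝ)) [IsFiniteMeasure κ] (f : ℤ × ℤ →₀ ℝ) :
    Integrable (MM f f) κ :=
  Integrable.of_bound (continuous_MM f f).aestronglyMeasurable (32 * l1 f ^ 2)
    (Eventually.of_forall (MM_self_bound f))

/-- decay away from the origin -/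
lemma MM_far (f : ℤ × ℤ →₀ ℝ) {e : ℝ} (he : 0 < e) (heπ : e ≤ π) {z : ℝ × ℝ}
    (hz : (0 < z.1 ∧ z.1 ≤ π) ∧ (0 < z.2 ∧ z.2 ≤ π)) (hze : z ∉ Sq e) :
    MM f f z ≤ 32 * (l1 (d4x f) ^ 2 + l1 (d4y f) ^ 2) / sy e ^ 4 := by
  have hse := sy_pos he heπ
  have h1 := sy_le z.1
  have h2 := sy_le z.2
  have h4 := NN_self_nonneg f z
  have h5 := sy_nonneg z.1
  have h6 := sy_nonneg z.2
  have hM : MM f f z ≤ 8 * NN f f z := by
    unfold MM
    nlinarith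
  have key : ∀ (s L : ℝ), sy e ≤ s → s ^ 2 * (s ^ 2 * NN f f z) ≤ 4 * L ^ 2 →
      NN f f z ≤ 4 * L ^ 2 / sy e ^ 4 := by
    intro s L hs hL
    rw [le_div_iff₀ (by positivity)]
    have : sy e ^ 4 ≤ s ^ 4 := pow_le_pow_left₀ hse.le hs 4
    calc NN f f z * sy e ^ 4 ≤ NN f f z * s ^ 4 := mul_le_mul_of_nonneg_left this h4
      _ = s ^ 2 * (s ^ 2 * NN f f z) := by ring
      _ ≤ _ := hL
  have hx : e < z.1 ∨ e < z.2 := by
    by_contra hcon
    push Not at hcon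
    exact hze ⟨⟨hz.1.1, hcon.1⟩, ⟨hz.2.1, hcon.2⟩⟩
  have hd : 0 < sy e ^ 4 := by positivity
  rcases hx with hx | hx
  · have hs := sy_mono he.le hx.le hz.1.2
    have hL : sy z.1 ^ 2 * (sy z.1 ^ 2 * NN f f z) ≤ 4 * l1 (d4x f) ^ 2 := by
      rw [← NN_ddx, ← NN_ddx]
      exact NN_le _ _
    have := key _ _ hs hL
    calc MM f f z ≤ 8 * NN f f z := hM
      _ ≤ 8 * (4 * l1 (d4x f) ^ 2 / sy e ^ 4) := by linarith
      _ = 32 * l1 (d4x f) ^ 2 / sy e ^ 4 := by ring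
      _ ≤ _ := by
        refine div_le_div_of_nonneg_right ?_ hd.le
        nlinarith [sq_nonneg (l1 (d4y f))]
  · have hs := sy_mono he.le hx.le hz.2.2
    have hL : sy z.2 ^ 2 * (sy z.2 ^ 2 * NN f f z) ≤ 4 * l1 (d4y f) ^ 2 := by
      rw [← NN_ddy, ← NN_ddy]
      exact NN_le _ _
    have := key _ _ hs hL
    calc MM f f z ≤ 8 * NN f f z := hM
      _ ≤ 8 * (4 * l1 (d4y f) ^ 2 / sy e ^ 4) := by linarith
      _ = 32 * l1 (d4y f) ^ 2 / sy e ^ 4 := by ring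
      _ ≤ _ := by
        refine div_le_div_of_nonneg_right ?_ hd.le
        nlinarith [sq_nonneg (l1 (d4x f))]

/-- the main estimate -/
theorem main_est {κ : Measure (ℝ × ℝ)} [IsFiniteMeasure κ]
    (hκ : ∀ᵐ z ∂κ, (0 < z.1 ∧ z.1 ≤ π) ∧ (0 < z.2 ∧ z.2 ≤ π)) {K0 η e : ℝ} (hK0 : 0 ≤ K0)
    (hη : 0 ≤ η) (he : 0 < e) (he3 : e ≤ 3)
    (hB : ∀ B : Set (ℝ × ℝ), MeasurableSet B → B ⊆ Sq e →
      (K0 - η) * (volume : Measure (ℝ × ℝ)).real B ≤ κ.real B ∧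
      κ.real B ≤ (K0 + η) * (volume : Measure (ℝ × ℝ)).real B) (f : ℤ × ℤ →₀ ℝ) :
    |∫ z, MM f f z ∂κ - K0 * ∫ z, MM f f z ∂lebQ| ≤ η * ∫ z, MM f f z ∂lebQ
      + 32 * (l1 (d4x f) ^ 2 + l1 (d4y f) ^ 2) / sy e ^ 4 * (κ.real univ + K0 * lebQ.real univ) := by
  have hπ : (3 : ℝ) < π := pi_gt_three
  set M := MM f f with hM
  set Bd : ℝ := 32 * (l1 (d4x f) ^ 2 + l1 (d4y f) ^ 2) / sy e ^ 4 with hBd
  have hse := sy_pos he (by linarith : e ≤ π)
  have hBd0 : 0 ≤ Bd := by rw [hBd]; positivity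
  have hSm := measurableSet_Sq e
  have iκ : Integrable M κ := integrable_MM_self κ f
  have iL : Integrable M lebQ := integrable_MM_self lebQ f
  have hsub : Sq e ⊆ Ioo 0 π ×ˢ Ioo 0 π := by
    intro z hz
    exact ⟨⟨hz.1.1, by linarith [hz.1.2]⟩, ⟨hz.2.1, by linarith [hz.2.2]⟩⟩
  have hLr : lebQ.restrict (Sq e) = (volume : Measure (ℝ × ℝ)).restrict (Sq e) := by
    unfold lebQ
    rw [Measure.restrict_restrict hSm, inter_eq_left.mpr hsub]
  -- splitting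
  have s1 := integral_add_compl hSm iκ
  have s2 := integral_add_compl hSm iL
  -- far parts
  have hLae : ∀ᵐ z ∂lebQ, (0 < z.1 ∧ z.1 ≤ π) ∧ (0 < z.2 ∧ z.2 ≤ π) := by
    unfold lebQ
    refine (ae_restrict_mem (measurableSet_Ioo.prod measurableSet_Ioo)).mono fun z hz => ?_
    exact ⟨⟨hz.1.1, hz.1.2.le⟩, ⟨hz.2.1, hz.2.2.le⟩⟩
  have far : ∀ (ξ : Measure (ℝ × ℝ)) [IsFiniteMeasure ξ],
      (∀ᵐ z ∂ξ, (0 < z.1 ∧ z.1 ≤ π) ∧ (0 < z.2 ∧ z.2 ≤ π)) →
      0 ≤ ∫ z in (Sq e)ᶜ, M z ∂ξ ∧ ∫ z in (Sq e)ᶜ, M z ∂ξ ≤ Bd * ξ.real univ := by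
    intro ξ _ hξ
    refine ⟨integral_nonneg (fun z => MM_nonneg f z), ?_⟩
    have i1 : IntegrableOn M (Sq e)ᶜ ξ := (integrable_MM_self ξ f).integrableOn
    have i2 : IntegrableOn (fun _ : ℝ × ℝ => Bd) (Sq e)ᶜ ξ := (integrable_const Bd).integrableOn
    have h1 : ∫ z in (Sq e)ᶜ, M z ∂ξ ≤ ∫ z in (Sq e)ᶜ, Bd ∂ξ := by
      refine setIntegral_mono_ae_restrict i1 i2 ?_
      have a1 := ae_restrict_of_ae (s := (Sq e)ᶜ) hξ
      have a2 := ae_restrict_mem (μ := ξ) hSm.compl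
      filter_upwards [a1, a2] with z hz1 hz2
      exact MM_far f he (by linarith) hz1 hz2
    refine h1.trans ?_
    rw [setIntegral_const, smul_eq_mul, mul_comm]
    exact mul_le_mul_of_nonneg_left (measureReal_mono (subset_univ _)) hBd0
  obtain ⟨fκ0, fκ1⟩ := far κ hκ
  obtain ⟨fL0, fL1⟩ := far lebQ hLae
  -- near parts
  have finV : ∀ B : Set (ℝ × ℝ), B ⊆ Sq e → (volume : Measure (ℝ × ℝ)) B ≠ ⊤ := fun B hBs =>
    ((measure_mono hBs).trans_lt (volume_Sq_lt_top e)).ne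
  have le1 : κ.restrict (Sq e) ≤ ENNReal.ofReal (K0 + η) • (volume : Measure (ℝ × ℝ)).restrict (Sq e) := by
    refine Measure.le_iff.mpr fun s hs => ?_
    rw [Measure.smul_apply, Measure.restrict_apply hs, Measure.restrict_apply hs, smul_eq_mul]
    have hsub2 : s ∩ Sq e ⊆ Sq e := inter_subset_right
    have h2 := (hB (s ∩ Sq e) (hs.inter hSm) hsub2).2
    rw [← ENNReal.ofReal_toReal (measure_ne_top κ (s ∩ Sq e)),
      ← ENNReal.ofReal_toReal (finV _ hsub2), ← ENNReal.ofReal_mul (by linarith)]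
    exact ENNReal.ofReal_le_ofReal h2
  have le2 : ENNReal.ofReal (K0 - η) • (volume : Measure (ℝ × ℝ)).restrict (Sq e) ≤ κ.restrict (Sq e) := by
    refine Measure.le_iff.mpr fun s hs => ?_
    rw [Measure.smul_apply, Measure.restrict_apply hs, Measure.restrict_apply hs, smul_eq_mul]
    have hsub2 : s ∩ Sq e ⊆ Sq e := inter_subset_right
    have h2 := (hB (s ∩ Sq e) (hs.inter hSm) hsub2).1
    rw [← ENNReal.ofReal_toReal (measure_ne_top κ (s ∩ Sq e)),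
      ← ENNReal.ofReal_toReal (finV _ hsub2), ← ENNReal.ofReal_mul' ENNReal.toReal_nonneg]
    exact ENNReal.ofReal_le_ofReal h2
  have iV : Integrable M ((volume : Measure (ℝ × ℝ)).restrict (Sq e)) := by
    rw [← hLr]; exact iL.restrict
  set V : ℝ := ∫ z in Sq e, M z with hV
  have hV0 : 0 ≤ V := integral_nonneg (fun z => MM_nonneg f z)
  have n1 : ∫ z in Sq e, M z ∂κ ≤ (K0 + η) * V := by
    have := integral_mono_measure le1 (Eventually.of_forall fun z => MM_nonneg f z)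
      (iV.smul_measure ENNReal.ofReal_ne_top)
    rw [integral_smul_measure, ENNReal.toReal_ofReal (by linarith), smul_eq_mul] at this
    exact this
  have n2 : (K0 - η) * V ≤ ∫ z in Sq e, M z ∂κ := by
    have := integral_mono_measure le2 (Eventually.of_forall fun z => MM_nonneg f z) iκ.restrict
    rw [integral_smul_measure, smul_eq_mul] at this
    refine le_trans ?_ this
    refine mul_le_mul_of_nonneg_right ?_ hV0
    rw [ENNReal.toReal_ofReal']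
    exact le_max_left _ _
  have hLV : ∫ z in Sq e, M z ∂lebQ = V := by rw [hLr]
  rw [hLV] at s2
  rw [← s1, ← s2]
  rw [abs_le]
  have p1 : 0 ≤ K0 * ∫ z in (Sq e)ᶜ, M z ∂lebQ := mul_nonneg hK0 fL0
  have p2 : K0 * ∫ z in (Sq e)ᶜ, M z ∂lebQ ≤ K0 * (Bd * lebQ.real univ) :=
    mul_le_mul_of_nonneg_left fL1 hK0
  have p3 : 0 ≤ η * ∫ z in (Sq e)ᶜ, M z ∂lebQ := mul_nonneg hη fL0
  have p4 : 0 ≤ Bd * κ.real univ := mul_nonneg hBd0 measureReal_nonneg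
  have p5 : 0 ≤ K0 * (Bd * lebQ.real univ) := by positivity
  have p6 : Bd * (κ.real univ + K0 * lebQ.real univ)
      = Bd * κ.real univ + K0 * (Bd * lebQ.real univ) := by ring
  rw [p6]
  constructor
  · nlinarith
  · nlinarith

lemma l1_add_le (f g : ℤ × ℤ →₀ ℝ) : l1 (f + g) ≤ l1 f + l1 g := by
  have h : ∀ (f : ℤ × ℤ →₀ ℝ) (s : Finset (ℤ × ℤ)), f.support ⊆ s → l1 f = ∑ v ∈ s, |f v| := by
    intro f s hs
    unfold l1
    exact Finsupp.sum_of_support_subset f hs _ (fun _ _ => abs_zero)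
  classical
  set s := (f + g).support ∪ (f.support ∪ g.support) with hs
  rw [h (f + g) s Finset.subset_union_left,
    h f s (Finset.subset_union_left.trans Finset.subset_union_right),
    h g s (Finset.subset_union_right.trans Finset.subset_union_right), ← Finset.sum_add_distrib]
  exact Finset.sum_le_sum fun v _ => abs_add_le _ _

lemma l1_neg (f : ℤ × ℤ →₀ ℝ) : l1 (-f) = l1 f := by
  unfold l1
  rw [Finsupp.sum, Finsupp.support_neg, Finsupp.sum]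
  simp

lemma dd_add (e : ℤ × ℤ) (f g : ℤ × ℤ →₀ ℝ) : dd e (f + g) = dd e f + dd e g := by
  unfold dd
  rw [smul_add, Finsupp.mapDomain_add, Finsupp.mapDomain_add]
  abel

lemma dd_neg (e : ℤ × ℤ) (f : ℤ × ℤ →₀ ℝ) : dd e (-f) = - dd e f := by
  have := dd_add e f (-f)
  have h0 : dd e (0 : ℤ × ℤ →₀ ℝ) = 0 := by unfold dd; simp
  rw [add_neg_cancel, h0] at this
  exact eq_neg_of_add_eq_zero_right this.symm

lemma QK_Lc_self_nonneg (f : ℤ × ℤ →₀ ℝ) : 0 ≤ ∫ z, MM f f z ∂lebQ :=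
  integral_nonneg fun z => MM_nonneg f z

lemma QK_smul (K : ℤ × ℤ → ℝ) (c : ℝ) (f g : ℤ × ℤ →₀ ℝ) :
    QK (fun v => c * K v) f g = c * QK K f g := by
  unfold QK
  simp only [Finsupp.sum]
  rw [Finset.mul_sum]
  refine Finset.sum_congr rfl fun v _ => ?_
  rw [Finset.mul_sum]
  refine Finset.sum_congr rfl fun w _ => by ring

lemma QK_Lc (f g : ℤ × ℤ →₀ ℝ) : ∫ z, MM f g z ∂lebQ = π ^ 2 * QK Lc f g := by
  rw [← QK_smul]
  exact (QK_integral (K := fun v => π ^ 2 * Lc v) Lc_rep f g).symm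

/-- **Theorem S2.** -/
theorem S2 (C : ℤ → ℤ → ℝ) (ρ : Measure (ℝ × ℝ)) [IsFiniteMeasure ρ]
    (hsupp : ∀ᵐ p ∂ρ, p.1 ∈ Icc 0 π ∧ p.2 ∈ Icc (-1 : ℝ) 1)
    (hC : ∀ x y : ℤ, C x y = ∫ p, cos (x * p.1) * p.2 ^ y.natAbs ∂ρ)
    (hcone : ∀ η > 0, ∃ k0 > 0, ∀ᵐ p ∂ρ, p.1 ≤ k0 → 0 < p.2 → (1 - η) * p.1 ≤ -log p.2)
    (hsym : ∀ x y : ℤ, C x (y + 1) + C x (y - 1) - 2 * C x y
      = C y (x + 1) + C y (x - 1) - 2 * C y x)
    (hdecx : Tendsto (fun x : ℕ => C x 0) atTop (𝓝 0))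
    (hdecy : Tendsto (fun y : ℕ => C 0 y) atTop (𝓝 0)) :
    ∃ K1 : ℝ, 0 ≤ K1 ∧ ∀ (f g : ℕ → (ℤ × ℤ →₀ ℝ)),
      (∃ D, ∀ n, QK Lc (f n) (f n) ≤ D) → (∃ D, ∀ n, QK Lc (g n) (g n) ≤ D) →
      Tendsto (fun n => l1 (d4x (f n))) atTop (𝓝 0) → Tendsto (fun n => l1 (d4y (f n))) atTop (𝓝 0) →
      Tendsto (fun n => l1 (d4x (g n))) atTop (𝓝 0) → Tendsto (fun n => l1 (d4y (g n))) atTop (𝓝 0) →
      Tendsto (fun n => QK (Gc C) (f n) (g n) - K1 * QK Lc (f n) (g n)) atTop (𝓝 0) := by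
  have hρ := no_atoms hsupp hC hdecx hdecy
  have hfin := isFiniteMeasure_kap hρ
  have hκ : ∀ᵐ z ∂(kapM ρ), (0 < z.1 ∧ z.1 ≤ π) ∧ (0 < z.2 ∧ z.2 ≤ π) := by
    unfold kapM
    rw [ae_add_measure_iff]
    have h1 := muM_ae hρ
    refine ⟨h1.mono fun z hz => ⟨hz.1, hz.2.1, hz.2.2.le⟩, ?_⟩
    rw [ae_map_iff measurable_swap.aemeasurable (by measurability)]
    exact h1.mono fun z hz => ⟨⟨hz.2.1, hz.2.2.le⟩, hz.1⟩
  obtain ⟨K0, hK0, hB⟩ := exists_K0 (kapM ρ) (kap_transMono hρ hC hsym hcone)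
  have hQG : ∀ f g : ℤ × ℤ →₀ ℝ, QK (Gc C) f g = ∫ z, MM f g z ∂(kapM ρ) := fun f g =>
    QK_integral (Gc_rep hρ hC) f g
  -- single sequences
  have single : ∀ h : ℕ → (ℤ × ℤ →₀ ℝ), (∃ D, ∀ n, ∫ z, MM (h n) (h n) z ∂lebQ ≤ D) →
      Tendsto (fun n => l1 (d4x (h n))) atTop (𝓝 0) → Tendsto (fun n => l1 (d4y (h n))) atTop (𝓝 0) →
      Tendsto (fun n => ∫ z, MM (h n) (h n) z ∂(kapM ρ) - K0 * ∫ z, MM (h n) (h n) z ∂lebQ)
        atTop (𝓝 0) := by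
    rintro h ⟨D, hD⟩ hx hy
    rw [Metric.tendsto_nhds]
    intro ε hε
    have hD0 : 0 ≤ D := (QK_Lc_self_nonneg (h 0)).trans (hD 0)
    set η : ℝ := ε / (2 * (D + 1)) with hη
    have hη0 : 0 < η := by rw [hη]; positivity
    obtain ⟨e, he, hBe⟩ := hB η hη0
    set e' : ℝ := min e 3 with he'
    have he'0 : 0 < e' := lt_min he (by norm_num)
    have hlim : Tendsto (fun n => 32 * (l1 (d4x (h n)) ^ 2 + l1 (d4y (h n)) ^ 2) / sy e' ^ 4 *
        ((kapM ρ).real univ + K0 * lebQ.real univ)) atTop (𝓝 0) := by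
      have h1 : Tendsto (fun n => 32 * (l1 (d4x (h n)) ^ 2 + l1 (d4y (h n)) ^ 2) / sy e' ^ 4 *
        ((kapM ρ).real univ + K0 * lebQ.real univ)) atTop (𝓝 (32 * ((0 : ℝ) ^ 2 + 0 ^ 2) / sy e' ^ 4 *
        ((kapM ρ).real univ + K0 * lebQ.real univ))) := by
        exact ((((hx.pow 2).add (hy.pow 2)).const_mul 32).div_const _).mul_const _
      simpa using h1
    have hev := hlim.eventually_lt_const (by positivity : (0 : ℝ) < ε / 2)
    filter_upwards [hev] with n hn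
    have hm := main_est hκ hK0 hη0.le he'0 (min_le_right _ _) (fun B hBm hBs =>
      hBe B hBm (hBs.trans (Sq_mono (min_le_left _ _)))) (h n)
    rw [Real.dist_eq, sub_zero]
    have h2 : η * ∫ z, MM (h n) (h n) z ∂lebQ ≤ ε / 2 := by
      calc η * ∫ z, MM (h n) (h n) z ∂lebQ ≤ η * (D + 1) :=
            mul_le_mul_of_nonneg_left (by linarith [hD n]) hη0.le
        _ = ε / 2 := by rw [hη]; field_simp
    linarith
  refine ⟨K0 * π ^ 2, by positivity, ?_⟩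
  rintro f g ⟨Df, hDf⟩ ⟨Dg, hDg⟩ hfx hfy hgx hgy
  have hfL : ∀ n, ∫ z, MM (f n) (f n) z ∂lebQ ≤ π ^ 2 * Df := by
    intro n
    rw [QK_Lc]
    exact mul_le_mul_of_nonneg_left (hDf n) (by positivity)
  have hgL : ∀ n, ∫ z, MM (g n) (g n) z ∂lebQ ≤ π ^ 2 * Dg := by
    intro n
    rw [QK_Lc]
    exact mul_le_mul_of_nonneg_left (hDg n) (by positivity)
  have hpar : ∀ n, ∫ z, MM (f n + g n) (f n + g n) z ∂lebQ + ∫ z, MM (f n - g n) (f n - g n) z ∂lebQ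
      ≤ 2 * (π ^ 2 * Df) + 2 * (π ^ 2 * Dg) := by
    intro n
    rw [← integral_add (integrable_MM_self _ _) (integrable_MM_self _ _)]
    have e : ∀ z, MM (f n + g n) (f n + g n) z + MM (f n - g n) (f n - g n) z
        = 2 * MM (f n) (f n) z + 2 * MM (g n) (g n) z := by
      intro z
      unfold MM
      linear_combination (sy z.1 + sy z.2) * NN_par (f n) (g n) z
    simp_rw [e]
    rw [integral_add ((integrable_MM_self _ _).const_mul 2) ((integrable_MM_self _ _).const_mul 2),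
      integral_const_mul, integral_const_mul]
    linarith [hfL n, hgL n]
  have d4x_add : ∀ a b : ℤ × ℤ →₀ ℝ, d4x (a + b) = d4x a + d4x b := by
    intro a b; unfold d4x; rw [dd_add, dd_add]
  have d4y_add : ∀ a b : ℤ × ℤ →₀ ℝ, d4y (a + b) = d4y a + d4y b := by
    intro a b; unfold d4y; rw [dd_add, dd_add]
  have d4x_neg : ∀ a : ℤ × ℤ →₀ ℝ, d4x (-a) = - d4x a := by
    intro a; unfold d4x; rw [dd_neg, dd_neg]
  have d4y_neg : ∀ a : ℤ × ℤ →₀ ℝ, d4y (-a) = - d4y a := by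
    intro a; unfold d4y; rw [dd_neg, dd_neg]
  have tx : Tendsto (fun n => l1 (d4x (f n)) + l1 (d4x (g n))) atTop (𝓝 0) := by
    simpa using hfx.add hgx
  have ty : Tendsto (fun n => l1 (d4y (f n)) + l1 (d4y (g n))) atTop (𝓝 0) := by
    simpa using hfy.add hgy
  have p := single (fun n => f n + g n)
    ⟨_, fun n => le_trans (le_add_of_nonneg_right (QK_Lc_self_nonneg _)) (hpar n)⟩
    (squeeze_zero (fun n => l1_nonneg _) (fun n => by rw [d4x_add]; exact l1_add_le _ _) tx)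
    (squeeze_zero (fun n => l1_nonneg _) (fun n => by rw [d4y_add]; exact l1_add_le _ _) ty)
  have q := single (fun n => f n - g n)
    ⟨_, fun n => le_trans (le_add_of_nonneg_left (QK_Lc_self_nonneg _)) (hpar n)⟩
    (squeeze_zero (fun n => l1_nonneg _) (fun n => by
      rw [sub_eq_add_neg, d4x_add, d4x_neg]
      refine (l1_add_le _ _).trans ?_
      rw [l1_neg]) tx)
    (squeeze_zero (fun n => l1_nonneg _) (fun n => by
      rw [sub_eq_add_neg, d4y_add, d4y_neg]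
      refine (l1_add_le _ _).trans ?_
      rw [l1_neg]) ty)
  have hfinal := (p.sub q).div_const 4
  rw [sub_zero, zero_div] at hfinal
  refine hfinal.congr fun n => ?_
  have pol : ∀ (ξ : Measure (ℝ × ℝ)) [IsFiniteMeasure ξ], ∫ z, MM (f n) (g n) z ∂ξ
      = (∫ z, MM (f n + g n) (f n + g n) z ∂ξ - ∫ z, MM (f n - g n) (f n - g n) z ∂ξ) / 4 := by
    intro ξ _
    rw [← integral_sub (integrable_MM_self _ _) (integrable_MM_self _ _), ← integral_div]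
    refine integral_congr_ae (Eventually.of_forall fun z => ?_)
    simp only
    unfold MM
    linear_combination (sy z.1 + sy z.2) * NN_polar (f n) (g n) z
  rw [hQG, pol (kapM ρ)]
  have h5 := pol lebQ
  rw [QK_Lc] at h5
  rw [mul_assoc, h5]
  ring

end Pool.Agent.SixB
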