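import Mathlib
import Pool.Agent.Lib.SixB.S2E

/-! # 6BD step 2, corollary: Theorem S2 for `f_n(v) = ψ_n(v/n)` with uniform `C⁴` bounds, and
nullness for separated supports. -/

namespace Pool.Agent.SixB

open MeasureTheory Set Filter Topology Real

/-- uniform class of test functions: support in the box of size `R`, values and second and fourth
partial derivatives (pure, in both directions) bounded by `B` -/
structure Nice (B R : ℝ) (ψ : ℝ × ℝ → ℝ) : Prop where
  smooth : ContDiff ℝ 4 ψ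
  supp : ∀ p : ℝ × ℝ, ψ p ≠ 0 → |p.1| ≤ R ∧ |p.2| ≤ R
  b0 : ∀ p : ℝ × ℝ, |ψ p| ≤ B
  bx2 : ∀ x y : ℝ, |deriv (deriv (fun t => ψ (t, y))) x| ≤ B
  bx4 : ∀ x y : ℝ, |deriv (deriv (deriv (deriv (fun t => ψ (t, y))))) x| ≤ B
  by2 : ∀ x y : ℝ, |deriv (deriv (fun t => ψ (x, t))) y| ≤ B
  by4 : ∀ x y : ℝ, |deriv (deriv (deriv (deriv (fun t => ψ (x, t))))) y| ≤ B

/-- second difference of a function with bounded second derivative -/
lemma second_diff {φ : ℝ → ℝ} (hφ : ContDiff ℝ 2 φ) {B : ℝ} (hB : ∀ x, |deriv (deriv φ) x| ≤ B)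
    (x h : ℝ) : |2 * φ x - φ (x + h) - φ (x - h)| ≤ B * h ^ 2 := by
  have hd1 : Differentiable ℝ φ := hφ.differentiable (by norm_num)
  have hd2 : Differentiable ℝ (deriv φ) := by
    have : ContDiff ℝ 1 (deriv φ) := by
      have := (contDiff_succ_iff_deriv (n := 1) (f := φ)).mp (hφ.of_le (by norm_num))
      exact this.2.2
    exact this.differentiable (by norm_num)
  have key : ∀ s : ℝ, (s = 1 ∨ s = -1) → s * (2 * φ x - φ (x + h) - φ (x - h)) ≤ B * h ^ 2 := by
    intro s hs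
    have hconv : ConvexOn ℝ univ (fun t => s * φ t + B / 2 * t ^ 2) := by
      have e1 : deriv (fun t => s * φ t + B / 2 * t ^ 2) = fun t => s * deriv φ t + B * t := by
        funext t
        have h1 : HasDerivAt (fun t => s * φ t + B / 2 * t ^ 2) (s * deriv φ t + B / 2 * (2 * t)) t := by
          have a := ((hd1 t).hasDerivAt).const_mul s
          have b : HasDerivAt (fun t : ℝ => B / 2 * t ^ 2) (B / 2 * (2 * t)) t := by
            simpa using ((hasDerivAt_pow 2 t).const_mul (B / 2))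
          exact a.fun_add b
        rw [h1.deriv]; ring
      have e2 : ∀ t, deriv (fun t => s * deriv φ t + B * t) t = s * deriv (deriv φ) t + B := by
        intro t
        have h1 : HasDerivAt (fun t => s * deriv φ t + B * t) (s * deriv (deriv φ) t + B * 1) t :=
          (((hd2 t).hasDerivAt).const_mul s).add ((hasDerivAt_id t).const_mul B)
        rw [h1.deriv]; ring
      refine convexOn_of_deriv2_nonneg convex_univ ?_ ?_ ?_ ?_
      · exact ((continuous_const.mul hd1.continuous).add (by fun_prop)).continuousOn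
      · exact ((hd1.const_mul s).add (by fun_prop)).differentiableOn
      · rw [e1]
        exact ((hd2.const_mul s).add (by fun_prop)).differentiableOn
      · intro t _
        rw [Function.iterate_succ, Function.iterate_one, Function.comp_apply, e1, e2]
        have h2 := abs_le.mp (hB t)
        rcases hs with h | h <;> rw [h] <;> linarith [h2.1, h2.2]
    have hc := hconv.2 (mem_univ (x + h)) (mem_univ (x - h)) (by norm_num : (0 : ℝ) ≤ 1 / 2)
      (by norm_num : (0 : ℝ) ≤ 1 / 2) (by norm_num)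
    simp only [smul_eq_mul] at hc
    have e3 : 1 / 2 * (x + h) + 1 / 2 * (x - h) = x := by ring
    rw [e3] at hc
    nlinarith
  rw [abs_le]
  have k1 := key 1 (Or.inl rfl)
  have k2 := key (-1) (Or.inr rfl)
  constructor <;> linarith

/-- fourth difference -/
lemma fourth_diff {φ : ℝ → ℝ} (hφ : ContDiff ℝ 4 φ) {B : ℝ}
    (hB : ∀ x, |deriv (deriv (deriv (deriv φ))) x| ≤ B) (x h : ℝ) :
    |2 * (2 * φ x - φ (x + h) - φ (x - h))
      - (2 * φ (x + h) - φ (x + h + h) - φ (x + h - h))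
      - (2 * φ (x - h) - φ (x - h + h) - φ (x - h - h))| ≤ B * h ^ 4 := by
  set Φ : ℝ → ℝ := fun t => 2 * φ t - φ (t + h) - φ (t - h) with hΦ
  have c2 : ContDiff ℝ 2 φ := hφ.of_le (by norm_num)
  have c3 : ContDiff ℝ 3 (deriv φ) :=
    ((contDiff_succ_iff_deriv (n := 3) (f := φ)).mp (hφ.of_le (by norm_num))).2.2
  have c4 : ContDiff ℝ 2 (deriv (deriv φ)) :=
    ((contDiff_succ_iff_deriv (n := 2) (f := deriv φ)).mp (c3.of_le (by norm_num))).2.2
  have cΦ : ContDiff ℝ 2 Φ := by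
    rw [hΦ]
    exact ((contDiff_const.mul c2).sub (c2.comp (by fun_prop))).sub (c2.comp (by fun_prop))
  have d1 : Differentiable ℝ φ := c2.differentiable (by norm_num)
  have d2 : Differentiable ℝ (deriv φ) := c3.differentiable (by norm_num)
  have gen : ∀ g : ℝ → ℝ, Differentiable ℝ g →
      deriv (fun t => 2 * g t - g (t + h) - g (t - h))
        = fun t => 2 * deriv g t - deriv g (t + h) - deriv g (t - h) := by
    intro g hg
    funext t
    have a := ((hg t).hasDerivAt).const_mul 2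
    have b : HasDerivAt (fun t => g (t + h)) (deriv g (t + h)) t := by
      simpa using (hg (t + h)).hasDerivAt.comp_add_const t h
    have c : HasDerivAt (fun t => g (t - h)) (deriv g (t - h)) t := by
      simpa using (hg (t - h)).hasDerivAt.comp_sub_const t h
    exact ((a.sub b).sub c).deriv
  have e2 : deriv (deriv Φ) = fun t => 2 * deriv (deriv φ) t - deriv (deriv φ) (t + h)
      - deriv (deriv φ) (t - h) := by
    rw [hΦ, gen φ d1, gen (deriv φ) d2]
  have bΦ : ∀ t, |deriv (deriv Φ) t| ≤ B * h ^ 2 := by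
    intro t
    rw [e2]
    exact second_diff c4 hB t h
  have := second_diff cΦ bΦ x h
  simp only [hΦ] at this
  calc _ ≤ B * h ^ 2 * h ^ 2 := this
    _ = B * h ^ 4 := by ring

/-- lattice version of a test function -/
noncomputable def lat (ψ : ℝ × ℝ → ℝ) (n : ℕ) (v : ℤ × ℤ) : ℝ := ψ (v.1 / n, v.2 / n)

/-- box -/
noncomputable def bx (m : ℕ) : Finset (ℤ × ℤ) := Finset.Icc (-(m : ℤ)) m ×ˢ Finset.Icc (-(m : ℤ)) m

lemma card_bx (m : ℕ) : (bx m).card = (2 * m + 1) ^ 2 := by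
  unfold bx
  rw [Finset.card_product, Int.card_Icc]
  have : ((m : ℤ) + 1 - -(m : ℤ)).toNat = 2 * m + 1 := by omega
  rw [this, sq]

lemma mem_bx {m : ℕ} {v : ℤ × ℤ} : v ∈ bx m ↔ |v.1| ≤ m ∧ |v.2| ≤ m := by
  unfold bx
  rw [Finset.mem_product, Finset.mem_Icc, Finset.mem_Icc, abs_le, abs_le]

/-- a radius -/
noncomputable def rad (R : ℝ) (n : ℕ) : ℕ := ⌈R * n⌉₊

lemma lat_supp {B R : ℝ} {ψ : ℝ × ℝ → ℝ} (h : Nice B R ψ) {n : ℕ} (hn : 0 < n) {v : ℤ × ℤ}
    (hv : lat ψ n v ≠ 0) : v ∈ bx (rad R n) := by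
  have h1 := h.supp _ hv
  have hn' : (0 : ℝ) < n := by exact_mod_cast hn
  simp only [abs_div, Nat.abs_cast] at h1
  rw [div_le_iff₀ hn', div_le_iff₀ hn'] at h1
  have h2 : R * n ≤ rad R n := Nat.le_ceil _
  rw [mem_bx]
  constructor
  · have := h1.1.trans h2
    exact_mod_cast this
  · have := h1.2.trans h2
    exact_mod_cast this

open Classical in
/-- finitely supported lattice function of `ψ` -/
noncomputable def fin (B R : ℝ) (ψ : ℝ × ℝ → ℝ) (n : ℕ) : ℤ × ℤ →₀ ℝ :=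
  if h : Nice B R ψ ∧ 0 < n then Finsupp.onFinset (bx (rad R n)) (lat ψ n) (fun _ hv => lat_supp h.1 h.2 hv)
  else 0

lemma fin_apply {B R : ℝ} {ψ : ℝ × ℝ → ℝ} (h : Nice B R ψ) {n : ℕ} (hn : 0 < n) (v : ℤ × ℤ) :
    fin B R ψ n v = lat ψ n v := by
  unfold fin
  rw [dif_pos ⟨h, hn⟩]
  rfl

lemma dd_apply (e : ℤ × ℤ) (f : ℤ × ℤ →₀ ℝ) (v : ℤ × ℤ) :
    dd e f v = 2 * f v - f (v - e) - f (v + e) := by
  unfold dd
  have i1 : Function.Injective (fun v : ℤ × ℤ => v + e) := add_left_injective e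
  have i2 : Function.Injective (fun v : ℤ × ℤ => v - e) := sub_left_injective
  have h1 : (f.mapDomain (fun v => v + e)) v = f (v - e) := by
    conv_lhs => rw [show v = (fun v : ℤ × ℤ => v + e) (v - e) by simp]
    rw [Finsupp.mapDomain_apply i1]
  have h2 : (f.mapDomain (fun v => v - e)) v = f (v + e) := by
    conv_lhs => rw [show v = (fun v : ℤ × ℤ => v - e) (v + e) by simp]
    rw [Finsupp.mapDomain_apply i2]
  rw [Finsupp.sub_apply, Finsupp.sub_apply, Finsupp.smul_apply, smul_eq_mul, h1, h2]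

/-- `ℓ¹` bound from a support box and a sup bound -/
lemma l1_le_of {f : ℤ × ℤ →₀ ℝ} {m : ℕ} {c : ℝ} (hs : ∀ v, f v ≠ 0 → v ∈ bx m) (hc : ∀ v, |f v| ≤ c) :
    l1 f ≤ (2 * m + 1) ^ 2 * c := by
  unfold l1
  have hsub : f.support ⊆ bx m := fun v hv => hs v (Finsupp.mem_support_iff.mp hv)
  rw [Finsupp.sum_of_support_subset f hsub _ (fun _ _ => abs_zero)]
  calc ∑ v ∈ bx m, |f v| ≤ ∑ v ∈ bx m, c := Finset.sum_le_sum fun v _ => hc v
    _ = (2 * m + 1) ^ 2 * c := by
      rw [Finset.sum_const, card_bx, nsmul_eq_mul]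
      push_cast
      ring

/-- support of differences -/
lemma dd_supp {e : ℤ × ℤ} (he1 : |e.1| ≤ 1) (he2 : |e.2| ≤ 1) {f : ℤ × ℤ →₀ ℝ} {m : ℕ}
    (hs : ∀ v, f v ≠ 0 → v ∈ bx m) : ∀ v, dd e f v ≠ 0 → v ∈ bx (m + 1) := by
  intro v hv
  by_contra hcon
  apply hv
  rw [dd_apply]
  have h0 : ∀ w : ℤ × ℤ, |w.1 - v.1| ≤ 1 → |w.2 - v.2| ≤ 1 → f w = 0 := by
    intro w h1 h2
    by_contra hw
    apply hcon
    have := mem_bx.mp (hs w hw)
    rw [mem_bx]
    rw [abs_le] at h1 h2 this ⊢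
    rw [abs_le] at this ⊢
    push_cast
    constructor <;> constructor <;> linarith [this.1.1, this.1.2, this.2.1, this.2.2, h1.1, h1.2, h2.1, h2.2]
  rw [h0 v (by simp) (by simp), h0 (v - e) (by simpa using he1) (by simpa using he2),
    h0 (v + e) (by simpa using he1) (by simpa using he2)]
  ring

section bounds

variable {B R : ℝ} {ψ : ℝ × ℝ → ℝ}

private lemma lat_shift_x (ψ : ℝ × ℝ → ℝ) (n : ℕ) (v : ℤ × ℤ) (c : ℤ) :
    lat ψ n (v + (c, 0)) = ψ ((v.1 / n : ℝ) + c * (1 / n), v.2 / n) := by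
  unfold lat
  simp only [Prod.fst_add, Prod.snd_add, add_zero, Int.cast_add]
  congr 2
  ring

private lemma lat_shift_y (ψ : ℝ × ℝ → ℝ) (n : ℕ) (v : ℤ × ℤ) (c : ℤ) :
    lat ψ n (v + (0, c)) = ψ (v.1 / n, (v.2 / n : ℝ) + c * (1 / n)) := by
  unfold lat
  simp only [Prod.fst_add, Prod.snd_add, add_zero, Int.cast_add]
  congr 2
  ring

private lemma contDiff_x (h : ContDiff ℝ 4 ψ) (y : ℝ) : ContDiff ℝ 4 (fun t => ψ (t, y)) :=
  h.comp (contDiff_id.prodMk contDiff_const)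

private lemma contDiff_y (h : ContDiff ℝ 4 ψ) (x : ℝ) : ContDiff ℝ 4 (fun t => ψ (x, t)) :=
  h.comp (contDiff_const.prodMk contDiff_id)

lemma ddx_le (h : Nice B R ψ) {n : ℕ} (hn : 0 < n) (v : ℤ × ℤ) :
    |dd (1, 0) (fin B R ψ n) v| ≤ B * (1 / n) ^ 2 := by
  rw [dd_apply, fin_apply h hn, fin_apply h hn, fin_apply h hn]
  have e1 : v - (1, 0) = v + ((-1 : ℤ), 0) := by ext <;> (simp; try ring)
  rw [e1, lat_shift_x, lat_shift_x]
  have := second_diff ((contDiff_x h.smooth (v.2 / n)).of_le (by norm_num)) (h.bx2 · (v.2 / n))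
    (v.1 / n) (1 / n)
  unfold lat
  push_cast
  rw [neg_one_mul, one_mul, ← sub_eq_add_neg, sub_right_comm]
  exact this

lemma ddy_le (h : Nice B R ψ) {n : ℕ} (hn : 0 < n) (v : ℤ × ℤ) :
    |dd (0, 1) (fin B R ψ n) v| ≤ B * (1 / n) ^ 2 := by
  rw [dd_apply, fin_apply h hn, fin_apply h hn, fin_apply h hn]
  have e1 : v - (0, 1) = v + (0, (-1 : ℤ)) := by ext <;> (simp; try ring)
  rw [e1, lat_shift_y, lat_shift_y]
  have := second_diff ((contDiff_y h.smooth (v.1 / n)).of_le (by norm_num)) (h.by2 (v.1 / n))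
    (v.2 / n) (1 / n)
  unfold lat
  push_cast
  rw [neg_one_mul, one_mul, ← sub_eq_add_neg, sub_right_comm]
  exact this

lemma d4x_le (h : Nice B R ψ) {n : ℕ} (hn : 0 < n) (v : ℤ × ℤ) :
    |d4x (fin B R ψ n) v| ≤ B * (1 / n) ^ 4 := by
  unfold d4x
  simp only [dd_apply, fin_apply h hn]
  have e1 : v - (1, 0) = v + ((-1 : ℤ), 0) := by ext <;> (simp; try ring)
  have e2 : v - (1, 0) - (1, 0) = v + ((-2 : ℤ), 0) := by ext <;> (simp; try ring)
  have e3 : v - (1, 0) + (1, 0) = v := by ext <;> simp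
  have e4 : v + (1, 0) - (1, 0) = v := by ext <;> simp
  have e5 : v + (1, 0) + (1, 0) = v + ((2 : ℤ), 0) := by ext <;> (simp; try ring)
  rw [e2, e3, e4, e5, e1, lat_shift_x, lat_shift_x, lat_shift_x, lat_shift_x]
  have := fourth_diff (contDiff_x h.smooth (v.2 / n)) (h.bx4 · (v.2 / n)) (v.1 / n) (1 / n)
  unfold lat
  push_cast
  rw [add_sub_cancel_right, sub_add_cancel] at this
  have a1 : (v.1 / n : ℝ) + -1 * (1 / n) = v.1 / n - 1 / n := by ring
  have a2 : (v.1 / n : ℝ) + -2 * (1 / n) = v.1 / n - 1 / n - 1 / n := by ring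
  have a3 : (v.1 / n : ℝ) + 1 * (1 / n) = v.1 / n + 1 / n := by ring
  have a4 : (v.1 / n : ℝ) + 2 * (1 / n) = v.1 / n + 1 / n + 1 / n := by ring
  rw [a1, a2, a3, a4]
  refine le_trans (le_of_eq ?_) this
  congr 1
  ring

lemma d4y_le (h : Nice B R ψ) {n : ℕ} (hn : 0 < n) (v : ℤ × ℤ) :
    |d4y (fin B R ψ n) v| ≤ B * (1 / n) ^ 4 := by
  unfold d4y
  simp only [dd_apply, fin_apply h hn]
  have e1 : v - (0, 1) = v + (0, (-1 : ℤ)) := by ext <;> (simp; try ring)
  have e2 : v - (0, 1) - (0, 1) = v + (0, (-2 : ℤ)) := by ext <;> (simp; try ring)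
  have e3 : v - (0, 1) + (0, 1) = v := by ext <;> simp
  have e4 : v + (0, 1) - (0, 1) = v := by ext <;> simp
  have e5 : v + (0, 1) + (0, 1) = v + (0, (2 : ℤ)) := by ext <;> (simp; try ring)
  rw [e2, e3, e4, e5, e1, lat_shift_y, lat_shift_y, lat_shift_y, lat_shift_y]
  have := fourth_diff (contDiff_y h.smooth (v.1 / n)) (h.by4 (v.1 / n)) (v.2 / n) (1 / n)
  unfold lat
  push_cast
  rw [add_sub_cancel_right, sub_add_cancel] at this
  have a1 : (v.2 / n : ℝ) + -1 * (1 / n) = v.2 / n - 1 / n := by ring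
  have a2 : (v.2 / n : ℝ) + -2 * (1 / n) = v.2 / n - 1 / n - 1 / n := by ring
  have a3 : (v.2 / n : ℝ) + 1 * (1 / n) = v.2 / n + 1 / n := by ring
  have a4 : (v.2 / n : ℝ) + 2 * (1 / n) = v.2 / n + 1 / n + 1 / n := by ring
  rw [a1, a2, a3, a4]
  refine le_trans (le_of_eq ?_) this
  congr 1
  ring

end bounds

end Pool.Agent.SixB
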