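import Mathlib
import Pool.Agent.Lib.SixB.S2C

/-! # 6BD step 2, final form: `E D_n(ψ₁) D_n(ψ₂) → 0` for separated supports, uniformly in `Nice`
families. -/

namespace Pool.Agent.SixB

open MeasureTheory Set Filter Topology Real

variable {B R : ℝ}

lemma fin_supp {ψ : ℝ × ℝ → ℝ} (h : Nice B R ψ) {n : ℕ} (hn : 0 < n) {v : ℤ × ℤ}
    (hv : fin B R ψ n v ≠ 0) : v ∈ bx (rad R n) := by
  rw [fin_apply h hn] at hv
  exact lat_supp h hn hv

lemma rad_le (R : ℝ) (n : ℕ) : (rad R n : ℝ) ≤ |R| * n + 1 := by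
  unfold rad
  have h1 : R * n ≤ |R| * n := mul_le_mul_of_nonneg_right (le_abs_self R) (Nat.cast_nonneg n)
  have h2 : (⌈R * n⌉₊ : ℝ) ≤ (⌈|R| * n⌉₊ : ℝ) := by exact_mod_cast Nat.ceil_mono h1
  exact h2.trans (Nat.ceil_lt_add_one (by positivity)).le

lemma Nice.B_nonneg {ψ : ℝ × ℝ → ℝ} (h : Nice B R ψ) : 0 ≤ B := (abs_nonneg _).trans (h.b0 (0, 0))

lemma l1_dd_fin {ψ : ℝ × ℝ → ℝ} (h : Nice B R ψ) {n : ℕ} (hn : 0 < n) :
    l1 (dd (1, 0) (fin B R ψ n)) ≤ (2 * |R| + 5) ^ 2 * B ∧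
    l1 (dd (0, 1) (fin B R ψ n)) ≤ (2 * |R| + 5) ^ 2 * B := by
  have hn' : (1 : ℝ) ≤ n := by exact_mod_cast hn
  have hB := h.B_nonneg
  have hcount : ((2 * ((rad R n + 1 : ℕ) : ℝ) + 1) ^ 2) * (B * (1 / n) ^ 2) ≤ (2 * |R| + 5) ^ 2 * B := by
    have h1 : 2 * ((rad R n + 1 : ℕ) : ℝ) + 1 ≤ (2 * |R| + 5) * n := by
      push_cast
      have := rad_le R n
      have := abs_nonneg R
      nlinarith
    have h2 : (2 * ((rad R n + 1 : ℕ) : ℝ) + 1) ^ 2 ≤ ((2 * |R| + 5) * n) ^ 2 :=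
      pow_le_pow_left₀ (by positivity) h1 2
    calc ((2 * ((rad R n + 1 : ℕ) : ℝ) + 1) ^ 2) * (B * (1 / n) ^ 2)
        ≤ ((2 * |R| + 5) * n) ^ 2 * (B * (1 / n) ^ 2) := by gcongr
      _ = (2 * |R| + 5) ^ 2 * B := by
        have : (n : ℝ) ≠ 0 := by linarith
        field_simp
  constructor
  · exact (l1_le_of (dd_supp (by simp) (by simp) (fun v hv => fin_supp h hn hv)) (ddx_le h hn)).trans
      hcount
  · exact (l1_le_of (dd_supp (by simp) (by simp) (fun v hv => fin_supp h hn hv)) (ddy_le h hn)).trans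
      hcount

lemma l1_d4_fin {ψ : ℝ × ℝ → ℝ} (h : Nice B R ψ) {n : ℕ} (hn : 0 < n) :
    l1 (d4x (fin B R ψ n)) ≤ (2 * |R| + 7) ^ 2 * B * (1 / n) ^ 2 ∧
    l1 (d4y (fin B R ψ n)) ≤ (2 * |R| + 7) ^ 2 * B * (1 / n) ^ 2 := by
  have hn' : (1 : ℝ) ≤ n := by exact_mod_cast hn
  have hB := h.B_nonneg
  have hcount : ((2 * ((rad R n + 1 + 1 : ℕ) : ℝ) + 1) ^ 2) * (B * (1 / n) ^ 4)
      ≤ (2 * |R| + 7) ^ 2 * B * (1 / n) ^ 2 := by
    have h1 : 2 * ((rad R n + 1 + 1 : ℕ) : ℝ) + 1 ≤ (2 * |R| + 7) * n := by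
      push_cast
      have := rad_le R n
      have := abs_nonneg R
      nlinarith
    have h2 : (2 * ((rad R n + 1 + 1 : ℕ) : ℝ) + 1) ^ 2 ≤ ((2 * |R| + 7) * n) ^ 2 :=
      pow_le_pow_left₀ (by positivity) h1 2
    calc ((2 * ((rad R n + 1 + 1 : ℕ) : ℝ) + 1) ^ 2) * (B * (1 / n) ^ 4)
        ≤ ((2 * |R| + 7) * n) ^ 2 * (B * (1 / n) ^ 4) := by gcongr
      _ = (2 * |R| + 7) ^ 2 * B * (1 / n) ^ 2 := by
        have : (n : ℝ) ≠ 0 := by linarith
        field_simp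
  constructor
  · exact (l1_le_of (dd_supp (by simp) (by simp) (dd_supp (by simp) (by simp)
      (fun v hv => fin_supp h hn hv))) (d4x_le h hn)).trans hcount
  · exact (l1_le_of (dd_supp (by simp) (by simp) (dd_supp (by simp) (by simp)
      (fun v hv => fin_supp h hn hv))) (d4y_le h hn)).trans hcount

private lemma Lc_ite (v w : ℤ × ℤ) : Lc (v - w) = 4 * (if w = v then (1 : ℝ) else 0)
    - (if w = v - (1, 0) then 1 else 0) - (if w = v + (1, 0) then 1 else 0)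
    - (if w = v - (0, 1) then 1 else 0) - (if w = v + (0, 1) then 1 else 0) := by
  obtain ⟨a, b⟩ := v
  obtain ⟨c, d⟩ := w
  unfold Lc
  simp only [Prod.mk_sub_mk, Prod.mk_add_mk, Prod.mk.injEq, sub_zero, add_zero]
  by_cases h1 : c = a
  · subst h1
    by_cases h2 : d = b
    · subst h2
      have q1 : c ≠ c - 1 := by omega
      have q2 : d ≠ d - 1 := by omega
      simp [q1, q2]
    · by_cases h3 : d = b - 1
      · subst h3
        have q1 : b - 1 ≠ b + 1 := by omega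
        simp [q1]
      · by_cases h4 : d = b + 1
        · subst h4
          have e : b - (b + 1) = -1 := by ring
          have q1 : b + 1 ≠ b - 1 := by omega
          simp [e, q1]
        · have a1 : b - d ≠ 0 := by omega
          have a2 : b - d ≠ 1 := by omega
          have a3 : b - d ≠ -1 := by omega
          have a4 : c ≠ c + 1 := by omega
          have a5 : c ≠ c - 1 := by omega
          simp [h2, h3, h4, a1, a2, a3]
  · by_cases h2 : d = b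
    · subst h2
      by_cases h3 : c = a - 1
      · subst h3
        have q1 : a - 1 ≠ a + 1 := by omega
        simp [q1]
      · by_cases h4 : c = a + 1
        · subst h4
          have e : a - (a + 1) = -1 := by ring
          have q1 : a + 1 ≠ a - 1 := by omega
          simp [e, q1]
        · have a1 : a - c ≠ 0 := by omega
          have a2 : a - c ≠ 1 := by omega
          have a3 : a - c ≠ -1 := by omega
          simp [h1, h3, h4, a1, a2, a3]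
    · have a1 : a - c ≠ 0 := by omega
      have a2 : b - d ≠ 0 := by omega
      simp [h1, h2, a1, a2]

lemma QK_Lc_dd (f g : ℤ × ℤ →₀ ℝ) :
    QK Lc f g = f.sum fun v a => a * (dd (1, 0) g v + dd (0, 1) g v) := by
  unfold QK
  refine Finsupp.sum_congr fun v _ => ?_
  have h : g.sum (fun w b => f v * b * Lc (v - w)) = f v * g.sum (fun w b => b * Lc (v - w)) := by
    rw [Finsupp.mul_sum]
    exact Finsupp.sum_congr fun w _ => by ring
  rw [h]
  congr 1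
  have e : g.sum (fun w b => b * Lc (v - w)) = ∑ w ∈ g.support, (4 * (if w = v then g w else 0)
      - (if w = v - (1, 0) then g w else 0) - (if w = v + (1, 0) then g w else 0)
      - (if w = v - (0, 1) then g w else 0) - (if w = v + (0, 1) then g w else 0)) := by
    rw [Finsupp.sum]
    refine Finset.sum_congr rfl fun w _ => ?_
    rw [Lc_ite]
    have : ∀ (P : Prop) [Decidable P], g w * (if P then (1 : ℝ) else 0) = if P then g w else 0 := by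
      intro P _
      split_ifs <;> simp
    rw [mul_sub, mul_sub, mul_sub, mul_sub, this, this, this, this,
      show g w * (4 * (if w = v then (1 : ℝ) else 0)) = 4 * (g w * (if w = v then (1 : ℝ) else 0)) by ring,
      this]
  rw [e, Finset.sum_sub_distrib, Finset.sum_sub_distrib, Finset.sum_sub_distrib,
    Finset.sum_sub_distrib, ← Finset.mul_sum]
  have s : ∀ u : ℤ × ℤ, ∑ w ∈ g.support, (if w = u then g w else 0) = g u := by
    intro u
    rw [Finset.sum_ite_eq']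
    split_ifs with hu
    · rfl
    · exact (Finsupp.notMem_support_iff.mp hu).symm
  rw [s, s, s, s, s, dd_apply, dd_apply]
  ring

lemma QK_Lc_le {ψ : ℝ × ℝ → ℝ} (h : Nice B R ψ) {n : ℕ} (hn : 0 < n) :
    QK Lc (fin B R ψ n) (fin B R ψ n) ≤ B * (2 * ((2 * |R| + 5) ^ 2 * B)) := by
  rw [QK_Lc_dd, Finsupp.sum]
  have hB := h.B_nonneg
  obtain ⟨h1, h2⟩ := l1_dd_fin h hn
  set f := fin B R ψ n
  have hsum : ∀ g : ℤ × ℤ →₀ ℝ, ∑ v ∈ f.support, |g v| ≤ l1 g := by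
    intro g
    classical
    have : l1 g = ∑ v ∈ g.support ∪ f.support, |g v| := by
      unfold l1
      exact Finsupp.sum_of_support_subset g Finset.subset_union_left _ (fun _ _ => abs_zero)
    rw [this]
    exact Finset.sum_le_sum_of_subset_of_nonneg Finset.subset_union_right (fun _ _ _ => abs_nonneg _)
  calc ∑ v ∈ f.support, f v * (dd (1, 0) f v + dd (0, 1) f v)
      ≤ ∑ v ∈ f.support, B * (|dd (1, 0) f v| + |dd (0, 1) f v|) := by
        refine Finset.sum_le_sum fun v _ => ?_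
        have a1 : |f v| ≤ B := by
          rw [show f v = lat ψ n v from fin_apply h hn v]
          exact h.b0 _
        calc f v * (dd (1, 0) f v + dd (0, 1) f v) ≤ |f v * (dd (1, 0) f v + dd (0, 1) f v)| :=
              le_abs_self _
          _ = |f v| * |dd (1, 0) f v + dd (0, 1) f v| := abs_mul _ _
          _ ≤ B * (|dd (1, 0) f v| + |dd (0, 1) f v|) :=
              mul_le_mul a1 (abs_add_le _ _) (abs_nonneg _) hB
    _ = B * (∑ v ∈ f.support, |dd (1, 0) f v| + ∑ v ∈ f.support, |dd (0, 1) f v|) := by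
        rw [← Finset.sum_add_distrib, Finset.mul_sum]
    _ ≤ B * (2 * ((2 * |R| + 5) ^ 2 * B)) := by
        refine mul_le_mul_of_nonneg_left ?_ hB
        have := hsum (dd (1, 0) f)
        have := hsum (dd (0, 1) f)
        linarith

lemma QK_Lc_sep {ψ₁ ψ₂ : ℝ × ℝ → ℝ} (h1 : Nice B R ψ₁) (h2 : Nice B R ψ₂) {δ : ℝ} (hδ : 0 < δ)
    (hsep : ∀ p q : ℝ × ℝ, ψ₁ p ≠ 0 → ψ₂ q ≠ 0 → δ ≤ |p.1 - q.1| ∨ δ ≤ |p.2 - q.2|)
    {n : ℕ} (hn : 0 < n) (hnδ : 1 / δ < n) : QK Lc (fin B R ψ₁ n) (fin B R ψ₂ n) = 0 := by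
  unfold QK
  rw [Finsupp.sum]
  refine Finset.sum_eq_zero fun v hv => ?_
  rw [Finsupp.sum]
  refine Finset.sum_eq_zero fun w hw => ?_
  have hv' := Finsupp.mem_support_iff.mp hv
  have hw' := Finsupp.mem_support_iff.mp hw
  rw [fin_apply h1 hn] at hv'
  rw [fin_apply h2 hn] at hw'
  have hs := hsep _ _ hv' hw'
  have hn' : (0 : ℝ) < n := by exact_mod_cast hn
  have hbig : 1 < |(v.1 : ℝ) - w.1| ∨ 1 < |(v.2 : ℝ) - w.2| := by
    have hnd : 1 < δ * n := by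
      rw [div_lt_iff₀ hδ] at hnδ
      linarith
    rcases hs with hs | hs
    · left
      simp only at hs
      rw [← sub_div, abs_div, Nat.abs_cast, le_div_iff₀ hn'] at hs
      linarith
    · right
      simp only at hs
      rw [← sub_div, abs_div, Nat.abs_cast, le_div_iff₀ hn'] at hs
      linarith
  have hL : Lc (v - w) = 0 := by
    have hint : 1 < |v.1 - w.1| ∨ 1 < |v.2 - w.2| := by
      rcases hbig with h | h
      · left; exact_mod_cast h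
      · right; exact_mod_cast h
    unfold Lc
    have e : v - w = (v.1 - w.1, v.2 - w.2) := rfl
    rw [e]
    simp only [Prod.mk.injEq]
    rw [if_neg, if_neg]
    · rintro (⟨a, b⟩ | ⟨a, b⟩ | ⟨a, b⟩ | ⟨a, b⟩) <;> rw [a, b] at hint <;> norm_num at hint
    · rintro ⟨a, b⟩
      rw [a, b] at hint
      norm_num at hint
  rw [hL, mul_zero]

/-- the form as a double sum over any finite set containing the box -/
lemma QK_fin_eq {ψ₁ ψ₂ : ℝ × ℝ → ℝ} (h1 : Nice B R ψ₁) (h2 : Nice B R ψ₂) {n : ℕ} (hn : 0 < n)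
    (K : ℤ × ℤ → ℝ) {S : Finset (ℤ × ℤ)} (hS : bx (rad R n) ⊆ S) :
    QK K (fin B R ψ₁ n) (fin B R ψ₂ n)
      = ∑ v ∈ S, ∑ w ∈ S, lat ψ₁ n v * lat ψ₂ n w * K (v - w) := by
  unfold QK
  have s1 : (fin B R ψ₁ n).support ⊆ S := fun v hv =>
    hS (fin_supp h1 hn (Finsupp.mem_support_iff.mp hv))
  have s2 : (fin B R ψ₂ n).support ⊆ S := fun v hv =>
    hS (fin_supp h2 hn (Finsupp.mem_support_iff.mp hv))
  have hin : ∀ (v : ℤ × ℤ) (a : ℝ), (fin B R ψ₂ n).sum (fun w b => a * b * K (v - w))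
      = ∑ w ∈ S, a * lat ψ₂ n w * K (v - w) := by
    intro v a
    rw [Finsupp.sum_of_support_subset _ s2 _ (fun _ _ => by simp)]
    exact Finset.sum_congr rfl fun w _ => by rw [fin_apply h2 hn]
  simp_rw [hin]
  rw [Finsupp.sum_of_support_subset _ s1 _ (fun _ _ => by simp)]
  exact Finset.sum_congr rfl fun w _ => by rw [fin_apply h1 hn]

/-- **S2, test function form.** -/
theorem S2_test (C : ℤ → ℤ → ℝ) (ρ : Measure (ℝ × ℝ)) [IsFiniteMeasure ρ]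
    (hsupp : ∀ᵐ p ∂ρ, p.1 ∈ Icc 0 π ∧ p.2 ∈ Icc (-1 : ℝ) 1)
    (hC : ∀ x y : ℤ, C x y = ∫ p, cos (x * p.1) * p.2 ^ y.natAbs ∂ρ)
    (hcone : ∀ η > 0, ∃ k0 > 0, ∀ᵐ p ∂ρ, p.1 ≤ k0 → 0 < p.2 → (1 - η) * p.1 ≤ -log p.2)
    (hsym : ∀ x y : ℤ, C x (y + 1) + C x (y - 1) - 2 * C x y
      = C y (x + 1) + C y (x - 1) - 2 * C y x)
    (hdecx : Tendsto (fun x : ℕ => C x 0) atTop (𝓝 0))
    (hdecy : Tendsto (fun y : ℕ => C 0 y) atTop (𝓝 0)) :
    ∃ K1 : ℝ, 0 ≤ K1 ∧ ∀ (B R : ℝ) (ψ₁ ψ₂ : ℕ → ℝ × ℝ → ℝ), (∀ n, Nice B R (ψ₁ n)) →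
      (∀ n, Nice B R (ψ₂ n)) → ∀ S : ℕ → Finset (ℤ × ℤ), (∀ n, bx (rad R n) ⊆ S n) →
      Tendsto (fun n => (∑ v ∈ S n, ∑ w ∈ S n, lat (ψ₁ n) n v * lat (ψ₂ n) n w * Gc C (v - w))
        - K1 * ∑ v ∈ S n, ∑ w ∈ S n, lat (ψ₁ n) n v * lat (ψ₂ n) n w * Lc (v - w)) atTop (𝓝 0) := by
  obtain ⟨K1, hK1, hmain⟩ := S2 C ρ hsupp hC hcone hsym hdecx hdecy
  refine ⟨K1, hK1, ?_⟩
  intro B R ψ₁ ψ₂ h1 h2 S hS
  have hB := (h1 0).B_nonneg
  have bound : ∀ ψ : ℕ → ℝ × ℝ → ℝ, (∀ n, Nice B R (ψ n)) →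
      (∃ D, ∀ n, QK Lc (fin B R (ψ n) n) (fin B R (ψ n) n) ≤ D) := by
    intro ψ h
    refine ⟨B * (2 * ((2 * |R| + 5) ^ 2 * B)), fun n => ?_⟩
    rcases Nat.eq_zero_or_pos n with hn | hn
    · have : fin B R (ψ n) n = 0 := by
        unfold fin
        rw [dif_neg (fun hh => by omega)]
      rw [this]
      unfold QK
      simp only [Finsupp.sum_zero_index]
      positivity
    · exact QK_Lc_le (h n) hn
  have hlim0 : Tendsto (fun n : ℕ => (2 * |R| + 7) ^ 2 * B * (1 / (n : ℝ)) ^ 2) atTop (𝓝 0) := by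
    have h := (tendsto_one_div_atTop_nhds_zero_nat (𝕜 := ℝ)).pow 2
    have h' := h.const_mul ((2 * |R| + 7) ^ 2 * B)
    simpa using h'
  have lim : ∀ ψ : ℕ → ℝ × ℝ → ℝ, (∀ n, Nice B R (ψ n)) →
      Tendsto (fun n => l1 (d4x (fin B R (ψ n) n))) atTop (𝓝 0) ∧
      Tendsto (fun n => l1 (d4y (fin B R (ψ n) n))) atTop (𝓝 0) := by
    intro ψ h
    constructor
    · refine tendsto_of_tendsto_of_tendsto_of_le_of_le' tendsto_const_nhds hlim0
        (Eventually.of_forall fun n => l1_nonneg _) ?_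
      filter_upwards [eventually_gt_atTop 0] with n hn
      exact (l1_d4_fin (h n) hn).1
    · refine tendsto_of_tendsto_of_tendsto_of_le_of_le' tendsto_const_nhds hlim0
        (Eventually.of_forall fun n => l1_nonneg _) ?_
      filter_upwards [eventually_gt_atTop 0] with n hn
      exact (l1_d4_fin (h n) hn).2
  have := hmain (fun n => fin B R (ψ₁ n) n) (fun n => fin B R (ψ₂ n) n) (bound ψ₁ h1) (bound ψ₂ h2)
    (lim ψ₁ h1).1 (lim ψ₁ h1).2 (lim ψ₂ h2).1 (lim ψ₂ h2).2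
  refine this.congr' ?_
  filter_upwards [eventually_gt_atTop 0] with n hn
  rw [QK_fin_eq (h1 n) (h2 n) hn _ (hS n), QK_fin_eq (h1 n) (h2 n) hn _ (hS n)]

/-- **S2, nullness for separated supports.** -/
theorem S2_null (C : ℤ → ℤ → ℝ) (ρ : Measure (ℝ × ℝ)) [IsFiniteMeasure ρ]
    (hsupp : ∀ᵐ p ∂ρ, p.1 ∈ Icc 0 π ∧ p.2 ∈ Icc (-1 : ℝ) 1)
    (hC : ∀ x y : ℤ, C x y = ∫ p, cos (x * p.1) * p.2 ^ y.natAbs ∂ρ)
    (hcone : ∀ η > 0, ∃ k0 > 0, ∀ᵐ p ∂ρ, p.1 ≤ k0 → 0 < p.2 → (1 - η) * p.1 ≤ -log p.2)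
    (hsym : ∀ x y : ℤ, C x (y + 1) + C x (y - 1) - 2 * C x y
      = C y (x + 1) + C y (x - 1) - 2 * C y x)
    (hdecx : Tendsto (fun x : ℕ => C x 0) atTop (𝓝 0))
    (hdecy : Tendsto (fun y : ℕ => C 0 y) atTop (𝓝 0))
    (B R δ : ℝ) (hδ : 0 < δ) (ψ₁ ψ₂ : ℕ → ℝ × ℝ → ℝ) (h1 : ∀ n, Nice B R (ψ₁ n))
    (h2 : ∀ n, Nice B R (ψ₂ n))
    (hsep : ∀ n, ∀ p q : ℝ × ℝ, ψ₁ n p ≠ 0 → ψ₂ n q ≠ 0 → δ ≤ |p.1 - q.1| ∨ δ ≤ |p.2 - q.2|)
    (S : ℕ → Finset (ℤ × ℤ)) (hS : ∀ n, bx (rad R n) ⊆ S n) :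
    Tendsto (fun n => ∑ v ∈ S n, ∑ w ∈ S n, lat (ψ₁ n) n v * lat (ψ₂ n) n w * Gc C (v - w))
      atTop (𝓝 0) := by
  obtain ⟨K1, -, hK⟩ := S2_test C ρ hsupp hC hcone hsym hdecx hdecy
  refine (hK B R ψ₁ ψ₂ h1 h2 S hS).congr' ?_
  have hev : ∀ᶠ n : ℕ in atTop, 1 / δ < (n : ℝ) :=
    tendsto_natCast_atTop_atTop.eventually_gt_atTop (1 / δ)
  filter_upwards [eventually_gt_atTop 0, hev] with n hn hnδ
  rw [← QK_fin_eq (h1 n) (h2 n) hn Lc (hS n), QK_Lc_sep (h1 n) (h2 n) hδ (hsep n) hn hnδ]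
  ring

end Pool.Agent.SixB
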