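import Mathlib
import Pool.Agent.Lib.SixB.S2D

/-! # 6BD step 2: every compactly supported `C⁴` function is `Nice`. -/

namespace Pool.Agent.SixB

open Set Filter Topology Real

private noncomputable def Dv (u : ℝ × ℝ) (ψ : ℝ × ℝ → ℝ) : ℝ × ℝ → ℝ := fun p => fderiv ℝ ψ p u

private lemma Dv_contDiff {n : WithTop ℕ∞} {u : ℝ × ℝ} {ψ : ℝ × ℝ → ℝ} (h : ContDiff ℝ (n + 1) ψ) :
    ContDiff ℝ n (Dv u ψ) := (h.fderiv_right le_rfl).clm_apply contDiff_const

private lemma Dv_supp {u : ℝ × ℝ} {ψ : ℝ × ℝ → ℝ} (h : HasCompactSupport ψ) :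
    HasCompactSupport (Dv u ψ) := h.fderiv_apply ℝ u

private lemma deriv_x {ψ : ℝ × ℝ → ℝ} (h : Differentiable ℝ ψ) (y : ℝ) :
    deriv (fun t => ψ (t, y)) = fun t => Dv (1, 0) ψ (t, y) := by
  funext t
  have h1 : HasDerivAt (fun t : ℝ => ((t, y) : ℝ × ℝ)) (1, 0) t :=
    (hasDerivAt_id t).prodMk (hasDerivAt_const t y)
  exact ((h (t, y)).hasFDerivAt.comp_hasDerivAt t h1).deriv

private lemma deriv_y {ψ : ℝ × ℝ → ℝ} (h : Differentiable ℝ ψ) (x : ℝ) :
    deriv (fun t => ψ (x, t)) = fun t => Dv (0, 1) ψ (x, t) := by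
  funext t
  have h1 : HasDerivAt (fun t : ℝ => ((x, t) : ℝ × ℝ)) (0, 1) t :=
    (hasDerivAt_const t x).prodMk (hasDerivAt_id t)
  exact ((h (x, t)).hasFDerivAt.comp_hasDerivAt t h1).deriv

/-- every compactly supported `C⁴` function is `Nice` for some constants -/
theorem nice_of_contDiff {ψ : ℝ × ℝ → ℝ} (h : ContDiff ℝ 4 ψ) (hc : HasCompactSupport ψ) :
    ∃ B R : ℝ, Nice B R ψ := by
  have c3 : ∀ u, ContDiff ℝ 3 (Dv u ψ) := fun u => Dv_contDiff (h.of_le (by norm_num))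
  have c2 : ∀ u, ContDiff ℝ 2 (Dv u (Dv u ψ)) := fun u => Dv_contDiff ((c3 u).of_le (by norm_num))
  have c1 : ∀ u, ContDiff ℝ 1 (Dv u (Dv u (Dv u ψ))) := fun u =>
    Dv_contDiff ((c2 u).of_le (by norm_num))
  have c0 : ∀ u, ContDiff ℝ 0 (Dv u (Dv u (Dv u (Dv u ψ)))) := fun u =>
    Dv_contDiff ((c1 u).of_le (by norm_num))
  have d0 : Differentiable ℝ ψ := h.differentiable (by norm_num)
  have d1 : ∀ u, Differentiable ℝ (Dv u ψ) := fun u => (c3 u).differentiable (by norm_num)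
  have d2 : ∀ u, Differentiable ℝ (Dv u (Dv u ψ)) := fun u => (c2 u).differentiable (by norm_num)
  have d3 : ∀ u, Differentiable ℝ (Dv u (Dv u (Dv u ψ))) := fun u =>
    (c1 u).differentiable (by norm_num)
  obtain ⟨B0, hB0⟩ := hc.exists_bound_of_continuous h.continuous
  have b2 : ∀ u, ∃ C, ∀ p, ‖Dv u (Dv u ψ) p‖ ≤ C := fun u =>
    (Dv_supp (Dv_supp hc)).exists_bound_of_continuous (c2 u).continuous
  have b4 : ∀ u, ∃ C, ∀ p, ‖Dv u (Dv u (Dv u (Dv u ψ))) p‖ ≤ C := fun u =>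
    (Dv_supp (Dv_supp (Dv_supp (Dv_supp hc)))).exists_bound_of_continuous (c0 u).continuous
  obtain ⟨B1, hB1⟩ := b2 (1, 0)
  obtain ⟨B2, hB2⟩ := b2 (0, 1)
  obtain ⟨B3, hB3⟩ := b4 (1, 0)
  obtain ⟨B4, hB4⟩ := b4 (0, 1)
  obtain ⟨R, hR⟩ := hc.isBounded.exists_norm_le
  refine ⟨max B0 (max (max B1 B2) (max B3 B4)), R, ⟨h, ?_, ?_, ?_, ?_, ?_, ?_⟩⟩
  · intro p hp
    have := hR p (subset_tsupport _ hp)
    rw [Prod.norm_def, max_le_iff] at this
    simpa [Real.norm_eq_abs] using this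
  · intro p
    exact (hB0 p).trans (le_max_left _ _)
  · intro x y
    rw [deriv_x d0, deriv_x (d1 _)]
    exact (hB1 _).trans ((le_max_left _ _).trans ((le_max_left _ _).trans (le_max_right _ _)))
  · intro x y
    rw [deriv_x d0, deriv_x (d1 _), deriv_x (d2 _), deriv_x (d3 _)]
    exact (hB3 _).trans ((le_max_left _ _).trans ((le_max_right _ _).trans (le_max_right _ _)))
  · intro x y
    rw [deriv_y d0, deriv_y (d1 _)]
    exact (hB2 _).trans ((le_max_right _ _).trans ((le_max_left _ _).trans (le_max_right _ _)))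
  · intro x y
    rw [deriv_y d0, deriv_y (d1 _), deriv_y (d2 _), deriv_y (d3 _)]
    exact (hB4 _).trans ((le_max_right _ _).trans ((le_max_right _ _).trans (le_max_right _ _)))

end Pool.Agent.SixB
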