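import Mathlib
import Pool.Agent.Lib.SixB.S2N

/-! # 6BD step 2: bridge from closed translation invariant edge correlations to Theorem S2. -/

namespace Pool.Agent.SixB

open MeasureTheory Set Filter Topology Real

/-- lattice edges: `(v, false)` = `v → v + (1,0)`, `(v, true)` = `v → v + (0,1)` -/
abbrev Edge := (ℤ × ℤ) × Bool

/-- tail and head -/
def etl (e : Edge) : ℤ × ℤ := e.1
def ehd (e : Edge) : ℤ × ℤ := if e.2 then e.1 + (0, 1) else e.1 + (1, 0)

/-- correlations of the height differences: symmetric, translation invariant, closed -/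
structure EdgeCorr (K : Edge → Edge → ℝ) (C : ℤ → ℤ → ℝ) : Prop where
  symm : ∀ e e', K e e' = K e' e
  trans : ∀ (u : ℤ × ℤ) (e e' : Edge), K (e.1 + u, e.2) (e'.1 + u, e'.2) = K e e'
  closed : ∀ (e : Edge) (v : ℤ × ℤ),
    K e (v, false) + K e (v + (1, 0), true) = K e (v, true) + K e (v + (0, 1), false)
  hh : ∀ x y : ℤ, K ((0, 0), false) ((x, y), false) = C x y
  vv : ∀ x y : ℤ, K ((0, 0), true) ((x, y), true) = C y x

namespace EdgeCorr

variable {K : Edge → Edge → ℝ} {C : ℤ → ℤ → ℝ}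

lemma base (h : EdgeCorr K C) (v w : ℤ × ℤ) (a b : Bool) :
    K (v, a) (w, b) = K ((0, 0), a) (w - v, b) := by
  have := h.trans v ((0, 0), a) (w - v, b)
  simp only [sub_add_cancel] at this
  rwa [show ((0 : ℤ), (0 : ℤ)) + v = v from zero_add v] at this

/-- mixed correlation -/
private def mx (K : Edge → Edge → ℝ) (v : ℤ × ℤ) : ℝ := K ((0, 0), false) (v, true)

private lemma ff (h : EdgeCorr K C) (v w : ℤ × ℤ) :
    K (v, false) (w, false) = C (w.1 - v.1) (w.2 - v.2) := by
  rw [h.base]; exact h.hh _ _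

private lemma tt (h : EdgeCorr K C) (v w : ℤ × ℤ) :
    K (v, true) (w, true) = C (w.2 - v.2) (w.1 - v.1) := by
  rw [h.base]; exact h.vv _ _

private lemma ft (h : EdgeCorr K C) (v w : ℤ × ℤ) :
    K (v, false) (w, true) = mx K (w - v) := h.base _ _ _ _

private lemma tf (h : EdgeCorr K C) (v w : ℤ × ℤ) :
    K (v, true) (w, false) = mx K (v - w) := by rw [h.symm]; exact h.base _ _ _ _

private lemma mx1 (h : EdgeCorr K C) (x y : ℤ) :
    mx K (x + 1, y) - mx K (x, y) = C x (y + 1) - C x y := by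
  have := h.closed ((0, 0), false) (x, y)
  simp only [Prod.mk_add_mk, add_zero] at this
  rw [h.hh, h.hh] at this
  unfold mx
  linarith

private lemma mx2 (h : EdgeCorr K C) (x y : ℤ) :
    mx K (x, y) - mx K (x, y - 1) = C y x - C y (x - 1) := by
  have := h.closed ((x, y), true) (0, 0)
  simp only [Prod.mk_add_mk, add_zero, zero_add] at this
  rw [h.tf, h.tt, h.tt, h.tf] at this
  simp only [Prod.mk_sub_mk, sub_zero, zero_sub] at this
  have e1 : C (-y) (1 - x) = C y (x - 1) := by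
    have a := h.vv (1 - x) (-y)
    have b := h.vv (x - 1) y
    rw [← a, ← b, h.symm, h.base]
    congr 2
    ext <;> simp
  have e2 : C (-y) (-x) = C y x := by
    have a := h.vv (-x) (-y)
    have b := h.vv x y
    rw [← a, ← b, h.symm, h.base]
    congr 2
    ext <;> simp
  rw [e1, e2] at this
  linarith

lemma even (h : EdgeCorr K C) (x y : ℤ) : C (-x) (-y) = C x y := by
  have a := h.hh (-x) (-y)
  have b := h.hh x y
  rw [← a, ← b, h.symm, h.base]
  congr 2
  ext <;> simp

/-- the symmetry identity of Theorem S2 -/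
theorem hsym (h : EdgeCorr K C) (x y : ℤ) : C x (y + 1) + C x (y - 1) - 2 * C x y
      = C y (x + 1) + C y (x - 1) - 2 * C y x := by
  have a1 := h.mx1 x y
  have a2 := h.mx1 x (y - 1)
  have b1 := h.mx2 (x + 1) y
  have b2 := h.mx2 x y
  rw [sub_add_cancel] at a2
  rw [add_sub_cancel_right] at b1
  linarith

/-- minus the divergence in both arguments -/
theorem divdiv (h : EdgeCorr K C) (v w : ℤ × ℤ) :
    (K (v - (1, 0), false) (w - (1, 0), false) + K (v - (1, 0), false) (w - (0, 1), true)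
        - K (v - (1, 0), false) (w, false) - K (v - (1, 0), false) (w, true))
      + (K (v - (0, 1), true) (w - (1, 0), false) + K (v - (0, 1), true) (w - (0, 1), true)
        - K (v - (0, 1), true) (w, false) - K (v - (0, 1), true) (w, true))
      - (K (v, false) (w - (1, 0), false) + K (v, false) (w - (0, 1), true)
        - K (v, false) (w, false) - K (v, false) (w, true))
      - (K (v, true) (w - (1, 0), false) + K (v, true) (w - (0, 1), true)
        - K (v, true) (w, false) - K (v, true) (w, true)) = Gc C (v - w) := by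
  obtain ⟨a, b⟩ := v
  obtain ⟨c, d⟩ := w
  simp only [h.ff, h.tt, h.ft, h.tf, Prod.mk_sub_mk, sub_zero]
  unfold Gc
  simp only
  -- normalise the arguments in terms of x = c - a, y = d - b
  obtain ⟨x, hx⟩ : ∃ x, x = c - a := ⟨_, rfl⟩
  obtain ⟨y, hy⟩ : ∃ y, y = d - b := ⟨_, rfl⟩
  have hc : c = x + a := by omega
  have hd : d = y + b := by omega
  subst hc hd
  have r1 : x + a - 1 - (a - 1) = x := by ring
  have r2 : y + b - b = y := by ring
  have r3 : x + a - (a - 1) = x + 1 := by ring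
  have r4 : y + b - 1 - b = y - 1 := by ring
  have r5 : y + b - 1 - (b - 1) = y := by ring
  have r6 : x + a - a = x := by ring
  have r7 : y + b - (b - 1) = y + 1 := by ring
  have r8 : x + a - 1 - a = x - 1 := by ring
  have s1 : a - (x + a - 1) = -x + 1 := by ring
  have s2 : b - 1 - (y + b) = -y - 1 := by ring
  have s3 : a - (x + a) = -x := by ring
  have s4 : b - (y + b) = -y := by ring
  rw [r1, r2, r3, r4, r5, r6, r7, r8, s1, s2, s3, s4]
  have m1 := h.mx1 x y
  have m2 := h.mx1 x (y - 1)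
  rw [sub_add_cancel] at m2
  have m3 := h.mx2 (-x) (-y)
  have m4 := h.mx2 (-x + 1) (-y)
  rw [add_sub_cancel_right] at m4
  have e0 := h.even x y
  have e1 : C (-x + 1) (-y) = C (x - 1) y := by
    have := h.even (x - 1) y
    rw [← this]; congr 1; ring
  have e2 : C (-x - 1) (-y) = C (x + 1) y := by
    have := h.even (x + 1) y
    rw [← this]; congr 1; ring
  have e3 : C (-x) (-y + 1) = C x (y - 1) := by
    have := h.even x (y - 1)
    rw [← this]; congr 1; ring
  have e4 : C (-x) (-y - 1) = C x (y + 1) := by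
    have := h.even x (y + 1)
    rw [← this]; congr 1; ring
  have f0 := h.even y x
  have f1 : C (-y) (-x + 1) = C y (x - 1) := by
    have := h.even y (x - 1)
    rw [← this]; congr 1; ring
  have f2 : C (-y) (-x - 1) = C y (x + 1) := by
    have := h.even y (x + 1)
    rw [← this]; congr 1; ring
  have f3 : C (-y + 1) (-x) = C (y - 1) x := by
    have := h.even (y - 1) x
    rw [← this]; congr 1; ring
  have f4 : C (-y - 1) (-x) = C (y + 1) x := by
    have := h.even (y + 1) x
    rw [← this]; congr 1; ring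
  rw [f1, f0] at m4
  rw [f2, f0] at m3
  rw [e0, e1, e2, e3, e4, f0, f1, f2, f3, f4]
  linarith

end EdgeCorr

/-- summation by parts against an arbitrary edge function -/
lemma sum_parts (f : ℤ × ℤ →₀ ℝ) (Φ : Edge → ℝ) {S : Finset Edge}
    (hS : ∀ e : Edge, (ehd e ∈ f.support ∨ etl e ∈ f.support) → e ∈ S) :
    ∑ e ∈ S, (f (ehd e) - f (etl e)) * Φ e
      = ∑ v ∈ f.support, f v * (Φ (v - (1, 0), false) + Φ (v - (0, 1), true)
        - Φ (v, false) - Φ (v, true)) := by
  classical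
  have gen : ∀ (t : Edge → ℤ × ℤ), (∀ e, t e ∈ f.support → e ∈ S) → ∀ (A B : ℤ × ℤ → Edge),
      (∀ v, A v ≠ B v) → (∀ v e, t e = v ↔ e = A v ∨ e = B v) →
      ∑ e ∈ S, f (t e) * Φ e = ∑ v ∈ f.support, f v * (Φ (A v) + Φ (B v)) := by
    intro t ht A B hAB hiff
    have h1 : ∀ e ∈ S, f (t e) * Φ e = ∑ v ∈ f.support, if t e = v then f v * Φ e else 0 := by
      intro e _
      rw [Finset.sum_ite_eq]
      split_ifs with h
      · rfl
      · rw [Finsupp.notMem_support_iff.mp h, zero_mul]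
    rw [Finset.sum_congr rfl h1, Finset.sum_comm]
    refine Finset.sum_congr rfl fun v hv => ?_
    rw [← Finset.sum_filter]
    have h2 : S.filter (fun e => t e = v) = {A v, B v} := by
      ext e
      rw [Finset.mem_filter, Finset.mem_insert, Finset.mem_singleton, hiff]
      constructor
      · exact fun h => h.2
      · intro h
        refine ⟨ht e ?_, h⟩
        rw [(hiff v e).mpr h]
        exact hv
    rw [h2, Finset.sum_pair (hAB v)]
    ring
  have g1 := gen ehd (fun e he => hS e (Or.inl he)) (fun v => (v - (1, 0), false))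
    (fun v => (v - (0, 1), true)) (fun v h => by simp at h) (by
      intro v e
      obtain ⟨u, b⟩ := e
      unfold ehd
      cases b
      · simp [eq_sub_iff_add_eq]
      · simp [eq_sub_iff_add_eq])
  have g2 := gen etl (fun e he => hS e (Or.inr he)) (fun v => (v, false))
    (fun v => (v, true)) (fun v h => by simp at h) (by
      intro v e
      obtain ⟨u, b⟩ := e
      unfold etl
      cases b <;> simp)
  have h3 : ∀ e ∈ S, (f (ehd e) - f (etl e)) * Φ e = f (ehd e) * Φ e - f (etl e) * Φ e :=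
    fun e _ => by ring
  rw [Finset.sum_congr rfl h3, Finset.sum_sub_distrib, g1, g2, ← Finset.sum_sub_distrib]
  exact Finset.sum_congr rfl fun v _ => by ring

/-- the edge form equals the vertex form -/
theorem edge_form {K : Edge → Edge → ℝ} {C : ℤ → ℤ → ℝ} (h : EdgeCorr K C) (f g : ℤ × ℤ →₀ ℝ)
    {S : Finset Edge}
    (hSf : ∀ e : Edge, (ehd e ∈ f.support ∨ etl e ∈ f.support) → e ∈ S)
    (hSg : ∀ e : Edge, (ehd e ∈ g.support ∨ etl e ∈ g.support) → e ∈ S) :
    ∑ e ∈ S, ∑ e' ∈ S, (f (ehd e) - f (etl e)) * (g (ehd e') - g (etl e')) * K e e'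
      = QK (Gc C) f g := by
  have h1 : ∀ e ∈ S, ∑ e' ∈ S, (f (ehd e) - f (etl e)) * (g (ehd e') - g (etl e')) * K e e'
      = (f (ehd e) - f (etl e)) * ∑ e' ∈ S, (g (ehd e') - g (etl e')) * K e e' := by
    intro e _
    rw [Finset.mul_sum]
    exact Finset.sum_congr rfl fun e' _ => by ring
  rw [Finset.sum_congr rfl h1, sum_parts f _ hSf]
  unfold QK
  rw [Finsupp.sum]
  refine Finset.sum_congr rfl fun v _ => ?_
  rw [sum_parts g (fun e' => K (v - (1, 0), false) e') hSg,
    sum_parts g (fun e' => K (v - (0, 1), true) e') hSg,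
    sum_parts g (fun e' => K (v, false) e') hSg, sum_parts g (fun e' => K (v, true) e') hSg,
    ← Finset.sum_add_distrib, ← Finset.sum_sub_distrib, ← Finset.sum_sub_distrib, Finset.mul_sum,
    Finsupp.sum]
  refine Finset.sum_congr rfl fun w _ => ?_
  rw [← h.divdiv v w]
  ring

/-- box of edges containing all edges which touch `bx m` -/
noncomputable def ebx (m : ℕ) : Finset Edge := bx (m + 1) ×ˢ Finset.univ

lemma mem_ebx {m : ℕ} {e : Edge} (h : ehd e ∈ bx m ∨ etl e ∈ bx m) : e ∈ ebx m := by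
  obtain ⟨⟨x, y⟩, b⟩ := e
  unfold ebx
  rw [Finset.mem_product]
  refine ⟨?_, Finset.mem_univ _⟩
  simp only [mem_bx] at h ⊢
  unfold ehd etl at h
  push_cast
  rcases h with h | h
  · cases b
    · simp only [Prod.mk_add_mk, add_zero, Bool.false_eq_true, if_false] at h
      rw [abs_le] at h ⊢
      rw [abs_le] at h ⊢
      omega
    · simp only [Prod.mk_add_mk, add_zero, if_true] at h
      rw [abs_le] at h ⊢
      rw [abs_le] at h ⊢
      omega
  · simp only at h
    rw [abs_le] at h ⊢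
    rw [abs_le] at h ⊢
    omega

/-- **S2 for edge correlations**: `∑ c_e c'_e' ⟨s_e s_e'⟩ → 0` for separated test functions. -/
theorem S2_edges {K : Edge → Edge → ℝ} {C : ℤ → ℤ → ℝ} (h : EdgeCorr K C)
    (ρ : Measure (ℝ × ℝ)) [IsFiniteMeasure ρ]
    (hsupp : ∀ᵐ p ∂ρ, p.1 ∈ Icc 0 π ∧ p.2 ∈ Icc (-1 : ℝ) 1)
    (hC : ∀ x y : ℤ, C x y = ∫ p, cos (x * p.1) * p.2 ^ y.natAbs ∂ρ)
    (hcone : ∀ η > 0, ∃ k0 > 0, ∀ᵐ p ∂ρ, p.1 ≤ k0 → 0 < p.2 → (1 - η) * p.1 ≤ -log p.2)
    (hdecx : Tendsto (fun x : ℕ => C x 0) atTop (𝓝 0))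
    (hdecy : Tendsto (fun y : ℕ => C 0 y) atTop (𝓝 0))
    (B R δ : ℝ) (hδ : 0 < δ) (ψ₁ ψ₂ : ℕ → ℝ × ℝ → ℝ) (h1 : ∀ n, Nice B R (ψ₁ n))
    (h2 : ∀ n, Nice B R (ψ₂ n))
    (hsep : ∀ n, ∀ p q : ℝ × ℝ, ψ₁ n p ≠ 0 → ψ₂ n q ≠ 0 → δ ≤ |p.1 - q.1| ∨ δ ≤ |p.2 - q.2|)
    (S : ℕ → Finset Edge) (hS : ∀ n, ebx (rad R n) ⊆ S n) :
    Tendsto (fun n => ∑ e ∈ S n, ∑ e' ∈ S n,
      (lat (ψ₁ n) n (ehd e) - lat (ψ₁ n) n (etl e)) * (lat (ψ₂ n) n (ehd e') - lat (ψ₂ n) n (etl e'))
        * K e e') atTop (𝓝 0) := by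
  have hn := S2_null C ρ hsupp hC hcone h.hsym hdecx hdecy B R δ hδ ψ₁ ψ₂ h1 h2 hsep
    (fun n => bx (rad R n)) (fun n => Finset.Subset.refl _)
  refine hn.congr' ?_
  filter_upwards [eventually_gt_atTop 0] with n hn0
  have s1 : (fin B R (ψ₁ n) n).support ⊆ bx (rad R n) := fun v hv =>
    fin_supp (h1 n) hn0 (Finsupp.mem_support_iff.mp hv)
  have s2 : (fin B R (ψ₂ n) n).support ⊆ bx (rad R n) := fun v hv =>
    fin_supp (h2 n) hn0 (Finsupp.mem_support_iff.mp hv)
  rw [← QK_fin_eq (h1 n) (h2 n) hn0 _ (Finset.Subset.refl _)]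
  rw [← edge_form h (fin B R (ψ₁ n) n) (fin B R (ψ₂ n) n) (S := S n)
    (fun e he => hS n (mem_ebx (he.imp (fun a => s1 a) (fun a => s1 a))))
    (fun e he => hS n (mem_ebx (he.imp (fun a => s2 a) (fun a => s2 a))))]
  refine Finset.sum_congr rfl fun e _ => Finset.sum_congr rfl fun e' _ => ?_
  rw [fin_apply (h1 n) hn0, fin_apply (h1 n) hn0, fin_apply (h2 n) hn0, fin_apply (h2 n) hn0]

end Pool.Agent.SixB
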