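import Pool.Agent.Lib.SixB.PlaneU
import Pool.Agent.Lib.SixB.PlaneS
import Pool.Agent.Lib.SixB.S2H
import Pool.Agent.Lib.MP_6bd702_z.Main

/-!
# 6BD step 2: the two arrow functional of the plane

* `ncP F e`: probability that the strand of `e` is not closed in the finite set of faces `F`;
* `Kb F e e'`: average of `gc` in the window `F`; `Kp e e'`: the limit over boxes;
* `abs_Kb_sub`, `abs_Kp_sub`: `|Kp e e' - Kb F e e'| ≤ 3 (ncP F e + ncP F e')` for EVERY finite `F`;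
* `nc_le`: `ncP (BR (ua a) r) e ≤ C r ^ (-1/4)`;
* `Kp_inv`: invariance under translations, transposition, half turns;
* `edgeCorr`: the correlations `KE` of the edges satisfy `EdgeCorr KE CE` (file `S2H`);
* `CE_decay`: `CE x y → 0`.
-/

set_option autoImplicit false
set_option linter.unusedSectionVars false

namespace Pool.Agent.SixB

open Pool.Agent.Perc Pool.Agent.PercD Pool.Agent.Perc.Q Relation Filter Topology

noncomputable section

/-- pairs of vertices of the plane -/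
abbrev DE : Type := (ℤ × ℤ) × (ℤ × ℤ)

variable {F F' : Finset (ℤ × ℤ)} {ω : ℤ × ℤ → Bool} {e e' a b : DE} {f u v : ℤ × ℤ}

/-! ## Windows -/

open Classical in
/-- probability that the strand of `e` is not closed in `F` -/
def ncP (F : Finset (ℤ × ℤ)) (e : DE) : ℝ := av F (fun ω => if Clo ZQ F ω e then 0 else 1)

/-- two arrow functional in a window -/
def Kb (F : Finset (ℤ × ℤ)) (e e' : DE) : ℝ := av F (fun ω => gc ZQ F ω e e')

/-- two arrow functional of the plane -/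
def Kp (e e' : DE) : ℝ := limUnder atTop (fun r : ℕ => Kb (BR (0, 0) r) e e')

theorem dep_clo (F : Finset (ℤ × ℤ)) (e : DE) {α : Type} (x y : (ℤ × ℤ → Bool) → α)
    (hx : Dep (F : Set (ℤ × ℤ)) x) (hy : Dep (F : Set (ℤ × ℤ)) y)
    [∀ ω, Decidable (Clo ZQ F ω e)] :
    Dep (F : Set (ℤ × ℤ)) (fun ω => if Clo ZQ F ω e then x ω else y ω) := by
  intro ω ω' h
  have h1 : Clo ZQ F ω e ↔ Clo ZQ F ω' e := clo_congr fun f hf => h f (by exact_mod_cast hf)
  by_cases h2 : Clo ZQ F ω e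
  · simp only [if_pos h2, if_pos (h1.mp h2)]
    exact hx _ _ h
  · simp only [if_neg h2, if_neg fun h3 => h2 (h1.mpr h3)]
    exact hy _ _ h

theorem nc_nonneg (F : Finset (ℤ × ℤ)) (e : DE) : 0 ≤ ncP F e :=
  av_nonneg fun T _ => by
    by_cases h : Clo ZQ F (ind T) e
    · simp only [if_pos h, le_refl]
    · simp only [if_neg h, zero_le_one]

theorem nc_eq (hF : F ⊆ F') (e : DE) [∀ ω, Decidable (Clo ZQ F ω e)] :
    ncP F e = av F' (fun ω => if Clo ZQ F ω e then 0 else 1) := by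
  classical
  rw [av_dep (dep_clo F e _ _ (fun _ _ _ => rfl) (fun _ _ _ => rfl)) hF]
  unfold ncP
  exact av_congr fun T _ => by
    by_cases h : Clo ZQ F (ind T) e
    · simp only [if_pos h]
    · simp only [if_neg h]

theorem nc_mono (hF : F ⊆ F') (e : DE) : ncP F' e ≤ ncP F e := by
  classical
  rw [nc_eq hF e]
  unfold ncP
  refine av_mono fun T _ => ?_
  by_cases h : Clo ZQ F (ind T) e
  · simp only [if_pos h, if_pos (h.mono hF), le_refl]
  · simp only [if_neg h]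
    split_ifs <;> norm_num

theorem abs_gc_sub (hF : F ⊆ F') (ω : ℤ × ℤ → Bool) [Decidable (Clo ZQ F ω e)]
    [Decidable (Clo ZQ F ω e')] :
    |gc ZQ F' ω e e' - gc ZQ F ω e e'| ≤
      3 * ((if Clo ZQ F ω e then 0 else 1) + (if Clo ZQ F ω e' then 0 else 1)) := by
  by_cases h1 : Clo ZQ F ω e
  · by_cases h2 : Clo ZQ F ω e'
    · rw [gc_window h1 h2 hF, if_pos h1, if_pos h2]
      simp
    · rw [if_pos h1, if_neg h2]
      have : gc ZQ F ω e e' = 0 := by
        unfold gc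
        rw [if_neg fun h => h2 h.2]
      rw [this, sub_zero]
      have := abs_gc_le (uml_ZQ F') (ω := ω) (e := e) (e' := e')
      linarith
  · have : gc ZQ F ω e e' = 0 := by
      unfold gc
      rw [if_neg fun h => h1 h.1]
    rw [this, sub_zero, if_neg h1]
    have := abs_gc_le (uml_ZQ F') (ω := ω) (e := e) (e' := e')
    by_cases h2 : Clo ZQ F ω e'
    · rw [if_pos h2]
      linarith
    · rw [if_neg h2]
      linarith

theorem abs_Kb_sub (hF : F ⊆ F') (e e' : DE) :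
    |Kb F' e e' - Kb F e e'| ≤ 3 * (ncP F e + ncP F e') := by
  classical
  have h1 : Kb F e e' = av F' (fun ω => gc ZQ F ω e e') := (av_dep dep_gc hF).symm
  rw [h1, nc_eq hF e, nc_eq hF e', ← av_add, ← av_mul]
  unfold Kb
  exact abs_av_sub_le fun T _ => abs_gc_sub hF _

theorem Kb_symm (F : Finset (ℤ × ℤ)) (e e' : DE) : Kb F e e' = Kb F e' e :=
  av_congr fun _ _ => gc_symm

theorem Kb_swap (F : Finset (ℤ × ℤ)) (e e' : DE) : Kb F e.swap e' = -Kb F e e' := by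
  unfold Kb
  rw [← av_neg]
  exact av_congr fun _ _ => gc_swap_left noLoop_ZQ

theorem Kb_ice (hf : f ∈ F) (e : DE) :
    Kb F (sd ZQ f 0) e + Kb F (sd ZQ f 1) e + Kb F (sd ZQ f 2) e + Kb F (sd ZQ f 3) e = 0 := by
  unfold Kb
  rw [← av_add, ← av_add, ← av_add, ← av_const (S := F) 0]
  exact av_congr fun _ _ => gc_ice noLoop_ZQ hf

/-! ## Closed strands have probability close to one -/

/-- the undirected unit edge -/
def ue (e : DE) : Perc.UE := (min e.1.1 e.2.1, min e.1.2 e.2.2, decide (e.1.1 = e.2.1))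

theorem ue_swap (e : DE) : ue e.swap = ue e := by
  unfold ue
  simp only [Prod.fst_swap, Prod.snd_swap, min_comm, eq_comm]

theorem ue_sd (f : ℤ × ℤ) : ue (sd ZQ f 0) = bo f ∧ ue (sd ZQ f 1) = ri f ∧
    ue (sd ZQ f 2) = to' f ∧ ue (sd ZQ f 3) = le' f := by
  obtain ⟨x, y⟩ := f
  have e1 : (0 : ZMod 4) + 1 = 1 := rfl
  have e2 : (1 : ZMod 4) + 1 = 2 := rfl
  have e3 : (2 : ZMod 4) + 1 = 3 := rfl
  have e4 : (3 : ZMod 4) + 1 = 0 := rfl
  refine ⟨?_, ?_, ?_, ?_⟩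
  · change ue (cor0 (x, y) 0, cor0 (x, y) (0 + 1)) = _
    rw [e1, cor0_0, cor0_1]
    unfold ue bo
    simp
  · change ue (cor0 (x, y) 1, cor0 (x, y) (1 + 1)) = _
    rw [e2, cor0_1, cor0_2]
    unfold ue ri
    simp
  · change ue (cor0 (x, y) 2, cor0 (x, y) (2 + 1)) = _
    rw [e3, cor0_2, cor0_3]
    unfold ue to'
    simp
  · change ue (cor0 (x, y) 3, cor0 (x, y) (3 + 1)) = _
    rw [e4, cor0_3, cor0_0]
    unfold ue le'
    simp

theorem mt_of_nx (h : Nx ZQ ω (F : Set (ℤ × ℤ)) a b) :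
    ∃ f ∈ (F : Set (ℤ × ℤ)), Mt ω f (ue a) (ue b) := by
  rw [nx_iff] at h
  obtain ⟨t, f, hf, k, rfl, rfl, -⟩ := h
  refine ⟨f, hf, ?_⟩
  rw [ue_swap]
  obtain ⟨h0, h1, h2, h3⟩ := ue_sd f
  unfold Mt
  rcases hω : ω f with _ | _
  · right
    refine ⟨rfl, ?_⟩
    rcases k4_cases k with rfl | rfl | rfl | rfl
    · rw [show mt false 0 = 3 by decide, h0, h3]; tauto
    · rw [show mt false 1 = 2 by decide, h1, h2]; tauto
    · rw [show mt false 2 = 1 by decide, h1, h2]; tauto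
    · rw [show mt false 3 = 0 by decide, h0, h3]; tauto
  · left
    refine ⟨rfl, ?_⟩
    rcases k4_cases k with rfl | rfl | rfl | rfl
    · rw [show mt true 0 = 1 by decide, h0, h1]; tauto
    · rw [show mt true 1 = 0 by decide, h0, h1]; tauto
    · rw [show mt true 2 = 3 by decide, h2, h3]; tauto
    · rw [show mt true 3 = 2 by decide, h2, h3]; tauto

theorem mm_of_rtg (h : ReflTransGen (Nx ZQ ω (F : Set (ℤ × ℤ))) a b) :
    ue b ∈ Perc.MM ω (F : Set (ℤ × ℤ)) (ue a) := by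
  induction h with
  | refl => exact ReflTransGen.refl
  | tail _ hs ih => exact ReflTransGen.tail ih (mt_of_nx hs)

theorem tg_of_walk {V Φ : Type} {Q : QC V Φ} {ω : Φ → Bool} {F : Set Φ} {G : Set (V × V)} {n : ℕ}
    {a b : V × V} {t : ℤ} (h : Walk Q ω F G n a b t) : TransGen (Nx Q ω F) a b := by
  induction h with
  | one h => exact TransGen.single (nx_iff.mpr ⟨_, h⟩)
  | tail _ _ h' ih => exact ih.tail (nx_iff.mpr ⟨_, h'⟩)

theorem exists_ter {V Φ : Type} [DecidableEq V] [DecidableEq Φ] {Q : QC V Φ} {F : Finset Φ}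
    {ω : Φ → Bool} {a : V × V} (ha : a ∈ dE Q F) (h : ¬ Clo Q F ω a) :
    ∃ b, ReflTransGen (Nx Q ω (F : Set Φ)) a b ∧ Ter Q (F : Set Φ) b := by
  by_contra hcon
  push Not at hcon
  have hX : dst Q F ω a ∈ dstr Q F ω := mem_dstr.mpr ⟨a, ha, rfl⟩
  have h1 : ∀ b ∈ dst Q F ω a, ¬ Ter Q (F : Set Φ) b := by
    intro b hb hT
    rcases srel_iff.mp (mem_dst.mp hb).2 with h2 | h2
    · exact hcon b h2 hT
    · rcases ReflTransGen.cases_head h2 with h3 | ⟨c, h3, -⟩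
      · rw [h3] at hT
        exact hcon a ReflTransGen.refl hT
      · exact ter_nx hT h3
  have h2 : ∀ b ∈ dst Q F ω a, ¬ Ini Q (F : Set Φ) b := by
    intro b hb hI
    obtain ⟨c, hc, hT⟩ := exists_last (ω := ω) hI
    have h3 : SRel Q F ω b c := srel_iff.mpr (Or.inl hc)
    have h4 := (mem_dst.mp hb).2
    have h5 := EqvGen.trans _ _ _ h4 h3
    exact h1 c (mem_dst.mpr ⟨srel_dE h5 ha, h5⟩) hT
  obtain ⟨n, hw, -⟩ := closed_walk hX h2 (self_mem_dst ha) (G := Set.univ) fun _ _ => Set.mem_univ _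
  exact h (tg_of_walk hw)

/-- unit edges -/
def Ue (e : DE) : Prop := ∃ f k, e = sd ZQ f k

theorem Ue.swap (h : Ue e) : Ue e.swap := by
  obtain ⟨⟨x, y⟩, k, rfl⟩ := h
  have e1 : (0 : ZMod 4) + 1 = 1 := rfl
  have e2 : (1 : ZMod 4) + 1 = 2 := rfl
  have e3 : (2 : ZMod 4) + 1 = 3 := rfl
  have e4 : (3 : ZMod 4) + 1 = 0 := rfl
  rcases k4_cases k with rfl | rfl | rfl | rfl
  · refine ⟨(x, y - 1), 2, Prod.ext ?_ ?_⟩
    · change cor0 (x, y) (0 + 1) = cor0 (x, y - 1) 2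
      rw [e1, cor0_1, cor0_2]; exact Prod.ext rfl (by simp)
    · change cor0 (x, y) 0 = cor0 (x, y - 1) (2 + 1)
      rw [e3, cor0_0, cor0_3]; exact Prod.ext rfl (by simp)
  · refine ⟨(x + 1, y), 3, Prod.ext ?_ ?_⟩
    · change cor0 (x, y) (1 + 1) = cor0 (x + 1, y) 3
      rw [e2, cor0_3, cor0_2]
    · change cor0 (x, y) 1 = cor0 (x + 1, y) (3 + 1)
      rw [e4, cor0_0, cor0_1]
  · refine ⟨(x, y + 1), 0, Prod.ext ?_ ?_⟩
    · change cor0 (x, y) (2 + 1) = cor0 (x, y + 1) 0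
      rw [e3, cor0_3, cor0_0]
    · change cor0 (x, y) 2 = cor0 (x, y + 1) (0 + 1)
      rw [e1, cor0_1, cor0_2]
  · refine ⟨(x - 1, y), 1, Prod.ext ?_ ?_⟩
    · change cor0 (x, y) (3 + 1) = cor0 (x - 1, y) 1
      rw [e4, cor0_0, cor0_1]; exact Prod.ext (by simp) rfl
    · change cor0 (x, y) 3 = cor0 (x - 1, y) (1 + 1)
      rw [e2, cor0_3, cor0_2]; exact Prod.ext (by simp) rfl

theorem inE_of_sd {r : ℤ} (hf : f ∈ BR v r) (k : ZMod 4) : InE v r (ue (sd ZQ f k)) := by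
  obtain ⟨h0, h1, h2, h3⟩ := ue_sd f
  unfold BR RF at hf
  rw [Finset.mem_product, Finset.mem_Ico, Finset.mem_Ico] at hf
  obtain ⟨x, y⟩ := f
  simp only at hf
  rcases k4_cases k with rfl | rfl | rfl | rfl
  · rw [h0]; unfold InE InR bo ua ub; simp; omega
  · rw [h1]; unfold InE InR ri ua ub; simp; omega
  · rw [h2]; unfold InE InR to' ua ub; simp; omega
  · rw [h3]; unfold InE InR le' ua ub; simp; omega

theorem bdR_of_ter {r : ℤ} (hb : Ue b) (hin : InE v r (ue b))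
    (hT : Ter ZQ ((BR v r : Finset (ℤ × ℤ)) : Set (ℤ × ℤ)) b) : BdR v r (ue b) := by
  obtain ⟨g, k, rfl⟩ := hb
  have hg : g ∉ BR v r := fun h => hT g (by exact_mod_cast h) k rfl
  obtain ⟨h0, h1, h2, h3⟩ := ue_sd g
  unfold BR RF at hg
  rw [Finset.mem_product, Finset.mem_Ico, Finset.mem_Ico] at hg
  obtain ⟨x, y⟩ := g
  simp only at hg
  rcases k4_cases k with rfl | rfl | rfl | rfl
  · rw [h0] at hin ⊢; unfold InE InR bo ua ub at hin; unfold BdR BdE bo; simp at hin ⊢; omega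
  · rw [h1] at hin ⊢; unfold InE InR ri ua ub at hin; unfold BdR BdE ri; simp at hin ⊢; omega
  · rw [h2] at hin ⊢; unfold InE InR to' ua ub at hin; unfold BdR BdE to'; simp at hin ⊢; omega
  · rw [h3] at hin ⊢; unfold InE InR le' ua ub at hin; unfold BdR BdE le'; simp at hin ⊢; omega

/-- A strand which is not closed in a box reaches the boundary of the box. -/
theorem rch_of_not_clo {r : ℤ} (he : e ∈ dE ZQ (BR v r)) (h : ¬ Clo ZQ (BR v r) ω e) :
    ω ∈ Rch v r (ue e) := by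
  obtain ⟨b, h1, h2⟩ := exists_ter he h
  refine ⟨ue b, mm_of_rtg h1, ?_⟩
  have hb : b ∈ dE ZQ (BR v r) := srel_dE (srel_iff.mpr (Or.inl h1)) he
  obtain ⟨f, hf, k, h3⟩ := mem_dE.mp hb
  rcases h3 with rfl | rfl
  · exact bdR_of_ter ⟨f, k, rfl⟩ (inE_of_sd hf k) h2
  · refine bdR_of_ter (Ue.swap ⟨f, k, rfl⟩) ?_ h2
    rw [ue_swap]
    exact inE_of_sd hf k

theorem ue_mem_dE (he : Ue e) {r : ℤ} (hr : 1 ≤ r) : e ∈ dE ZQ (BR (ua (ue e)) r) := by
  obtain ⟨g, k, rfl⟩ := he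
  by_cases hg : g ∈ BR (ua (ue (sd ZQ g k))) r
  · exact sd_mem hg k
  · obtain ⟨g', k', h⟩ := Ue.swap ⟨g, k, rfl⟩
    have hg' : g' ∈ BR (ua (ue (sd ZQ g k))) r := by
      rw [← ue_swap, h]
      rw [← ue_swap, h] at hg
      -- the ends of the edge
      obtain ⟨h0, h1, h2, h3⟩ := ue_sd g'
      obtain ⟨x, y⟩ := g'
      unfold BR RF
      rw [Finset.mem_product, Finset.mem_Ico, Finset.mem_Ico]
      rcases k4_cases k' with rfl | rfl | rfl | rfl
      · rw [h0]; unfold ua bo; simp; omega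
      · rw [h1]; unfold ua ri; simp; omega
      · rw [h2]; unfold ua to'; simp; omega
      · rw [h3]; unfold ua le'; simp; omega
    rw [← swap_mem_dE, h]
    exact sd_mem hg' k'

theorem nc_le : ∃ C : ℝ, 0 < C ∧ ∀ e : DE, Ue e → ∀ r : ℕ, 1 ≤ r →
    ncP (BR (ua (ue e)) r) e ≤ C * (r : ℝ) ^ (-(1 / 4 : ℝ)) := by
  classical
  obtain ⟨C, hC, h⟩ := upperHyp
  refine ⟨C, hC, fun e he r hr => le_trans ?_ (h (ue e) r hr)⟩
  rw [pr_eq_av]
  unfold ncP
  refine av_mono fun T _ => ?_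
  by_cases h1 : Clo ZQ (BR (ua (ue e)) r) (ind T) e
  · rw [if_pos h1]
    split_ifs <;> norm_num
  · have h2 := rch_of_not_clo (ue_mem_dE he (by exact_mod_cast hr)) h1
    rw [if_neg h1, if_pos h2]

end

end Pool.Agent.SixB
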