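import Pool.Agent.Lib.SixB.S0Defs

/-!
# 6BD step 0: `Z6 = sum over smoothings of Zs`
-/

set_option autoImplicit false
set_option linter.unusedSectionVars false

namespace Pool.Agent.SixB

open Pool.Agent.Perc.Q Relation

noncomputable section

variable {V Φ : Type} [DecidableEq V] [DecidableEq Φ]

theorem zeta_ne : zeta ≠ 0 := Complex.exp_ne_zero _

theorem zeta_two : zeta ^ (2 : ℤ) + zeta ^ (-2 : ℤ) = (Real.sqrt 3 : ℂ) := by
  unfold zeta
  rw [← Complex.exp_int_mul, ← Complex.exp_int_mul]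
  have h1 : ((2 : ℤ) : ℂ) * (Real.pi / 12 * Complex.I) = ((Real.pi / 6 : ℝ) : ℂ) * Complex.I := by
    push_cast; ring
  have h2 : ((-2 : ℤ) : ℂ) * (Real.pi / 12 * Complex.I) = -((Real.pi / 6 : ℝ) : ℂ) * Complex.I := by
    push_cast; ring
  rw [h1, h2]
  have h3 := Complex.two_cos ((Real.pi / 6 : ℝ) : ℂ)
  rw [← h3, ← Complex.ofReal_cos, Real.cos_pi_div_six]
  push_cast
  ring

theorem zeta_four : zeta ^ (4 : ℤ) + zeta ^ (-4 : ℤ) = 1 := by
  unfold zeta
  rw [← Complex.exp_int_mul, ← Complex.exp_int_mul]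
  have h1 : ((4 : ℤ) : ℂ) * (Real.pi / 12 * Complex.I) = ((Real.pi / 3 : ℝ) : ℂ) * Complex.I := by
    push_cast; ring
  have h2 : ((-4 : ℤ) : ℂ) * (Real.pi / 12 * Complex.I) = -((Real.pi / 3 : ℝ) : ℂ) * Complex.I := by
    push_cast; ring
  rw [h1, h2]
  have h3 := Complex.two_cos ((Real.pi / 3 : ℝ) : ℂ)
  rw [← h3, ← Complex.ofReal_cos, Real.cos_pi_div_three]
  push_cast
  ring

/-- compatibility of the smoothing `b` with the entering sides `x` -/
def cmp (b : Bool) (x : ZMod 4 → Bool) : Prop := ∀ k : ZMod 4, b = ev k → x k = !x (k + 1)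

instance (b : Bool) (x : ZMod 4 → Bool) : Decidable (cmp b x) := by unfold cmp; infer_instance

/-- the weight of a smoothing -/
def bw (b : Bool) (x : ZMod 4 → Bool) : ℂ :=
  if cmp b x then ∏ k : ZMod 4, (if x k then zeta ^ (qk b k) else 1) else 0

theorem prod_z4 (f : ZMod 4 → ℂ) : ∏ k : ZMod 4, f k = f 0 * f 1 * f 2 * f 3 := by
  have : (Finset.univ : Finset (ZMod 4)) = {0, 1, 2, 3} := by decide
  rw [this]
  rw [Finset.prod_insert (by decide), Finset.prod_insert (by decide),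
    Finset.prod_insert (by decide), Finset.prod_singleton]
  ring

theorem fw_eq (x : ZMod 4 → Bool) : fw x = bw true x + bw false x := by
  have hz := zeta_ne
  have q1 : zeta ^ (1 : ℤ) * zeta ^ (-1 : ℤ) = 1 := by rw [← zpow_add₀ hz]; simp
  have q2 : zeta ^ (-1 : ℤ) * zeta ^ (1 : ℤ) = 1 := by rw [← zpow_add₀ hz]; simp
  have q3 : zeta ^ (-1 : ℤ) * zeta ^ (-1 : ℤ) = zeta ^ (-2 : ℤ) := by rw [← zpow_add₀ hz]; norm_num
  have q4 : zeta ^ (1 : ℤ) * zeta ^ (1 : ℤ) = zeta ^ (2 : ℤ) := by rw [← zpow_add₀ hz]; norm_num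
  have e0 : ev 0 = true := by decide
  have e1 : ev 1 = false := by decide
  have e2 : ev 2 = true := by decide
  have e3 : ev 3 = false := by decide
  have k3 : (3 : ZMod 4) + 1 = 0 := by decide
  have k2 : (2 : ZMod 4) + 1 = 3 := by decide
  have k1 : (1 : ZMod 4) + 1 = 2 := by decide
  have k0 : (0 : ZMod 4) + 1 = 1 := by decide
  have hc : ∀ b, cmp b x ↔ ((b = true → x 0 = !x 1) ∧ (b = false → x 1 = !x 2) ∧
      (b = true → x 2 = !x 3) ∧ (b = false → x 3 = !x 0)) := by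
    intro b
    unfold cmp
    constructor
    · intro h
      refine ⟨fun hb => ?_, fun hb => ?_, fun hb => ?_, fun hb => ?_⟩
      · have := h 0 (by rw [hb, e0]); rwa [k0] at this
      · have := h 1 (by rw [hb, e1]); rwa [k1] at this
      · have := h 2 (by rw [hb, e2]); rwa [k2] at this
      · have := h 3 (by rw [hb, e3]); rwa [k3] at this
    · rintro ⟨h0, h1, h2, h3⟩ k hb
      rcases z4_cases k 0 with rfl | rfl | rfl | rfl
      · rw [e0] at hb; rw [k0]; exact h0 hb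
      · rw [zero_add, e1] at hb; rw [zero_add, k1]; exact h1 hb
      · rw [zero_add, e2] at hb; rw [zero_add, k2]; exact h2 hb
      · rw [zero_add, e3] at hb; rw [zero_add, k3]; exact h3 hb
  unfold bw
  simp only [prod_z4, hc, qk, e0, e1, e2, e3, fw]
  rcases h0 : x 0 <;> rcases h1 : x 1 <;> rcases h2 : x 2 <;> rcases h3 : x 3 <;>
    simp_all
  all_goals
    rw [← zeta_two, zpow_neg, show (zeta ^ (2 : ℤ)) = zeta ^ 2 from zpow_ofNat zeta 2]
    try rw [add_comm]

theorem mem_dE {Q : QC V Φ} {F : Finset Φ} {a : V × V} :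
    a ∈ dE Q F ↔ ∃ f ∈ F, ∃ k, a = sd Q f k ∨ a = (sd Q f k).swap := by
  simp [dE]

theorem sd_mem {Q : QC V Φ} {F : Finset Φ} {f : Φ} (hf : f ∈ F) (k : ZMod 4) :
    sd Q f k ∈ dE Q F := mem_dE.mpr ⟨f, hf, k, Or.inl rfl⟩

theorem swap_mem_dE {Q : QC V Φ} {F : Finset Φ} {a : V × V} :
    a.swap ∈ dE Q F ↔ a ∈ dE Q F := by
  have h : ∀ a : V × V, a ∈ dE Q F → a.swap ∈ dE Q F := by
    intro a ha
    obtain ⟨f, hf, k, rfl | rfl⟩ := mem_dE.mp ha
    · exact mem_dE.mpr ⟨f, hf, k, Or.inr rfl⟩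
    · exact mem_dE.mpr ⟨f, hf, k, Or.inl (Prod.swap_swap _)⟩
  constructor
  · intro hh
    have := h _ hh
    rwa [Prod.swap_swap] at this
  · exact h a

theorem swap_ne {Q : QC V Φ} (hQ : NoLoop Q) {F : Finset Φ} {a : V × V} (ha : a ∈ dE Q F) :
    a.swap ≠ a := by
  obtain ⟨f, hf, k, rfl | rfl⟩ := mem_dE.mp ha <;> intro hh
  · exact hQ f k (congrArg Prod.snd hh)
  · exact hQ f k (congrArg Prod.fst hh)

/-! ## The expansion -/

/-- `α` is compatible with the smoothing `ω` -/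
def Cmp (Q : QC V Φ) (F : Finset Φ) (ω : Φ → Bool) (α : Finset (V × V)) : Prop :=
  ∀ f ∈ F, ∀ k, ω f = ev k → (sd Q f k ∈ α ↔ sd Q f (k + 1) ∉ α)

theorem cmp_iff {Q : QC V Φ} {F : Finset Φ} {ω : Φ → Bool} {α : Finset (V × V)} :
    Cmp Q F ω α ↔ ∀ f ∈ F, cmp (ω f) (fun k => decide (sd Q f k ∈ α)) := by
  unfold Cmp cmp
  constructor
  · intro h f hf k hk
    have := h f hf k hk
    by_cases h1 : sd Q f k ∈ α <;> simp_all
  · intro h f hf k hk
    have := h f hf k hk
    by_cases h1 : sd Q f k ∈ α <;> by_cases h2 : sd Q f (k + 1) ∈ α <;> simp_all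

instance (Q : QC V Φ) (F : Finset Φ) (ω : Φ → Bool) (α : Finset (V × V)) :
    Decidable (Cmp Q F ω α) := by unfold Cmp; infer_instance

theorem zprod {ι : Type} (s : Finset ι) (g : ι → ℤ) :
    ∏ i ∈ s, zeta ^ (g i) = zeta ^ (∑ i ∈ s, g i) := by
  classical
  induction s using Finset.induction_on with
  | empty => simp
  | insert a s ha ih => rw [Finset.prod_insert ha, Finset.sum_insert ha, ih, zpow_add₀ zeta_ne]

theorem prod_phase (Q : QC V Φ) (F : Finset Φ) (ω : Φ → Bool) (α : Finset (V × V)) :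
    ∏ f ∈ F, ∏ k : ZMod 4, (if decide (sd Q f k ∈ α) = true then zeta ^ (qk (ω f) k) else 1) =
      ∏ a ∈ α, zeta ^ (qt Q F ω a) := by
  have hz := zeta_ne
  have h1 : ∀ a, zeta ^ (qt Q F ω a) =
      ∏ f ∈ F, ∏ k : ZMod 4, (if sd Q f k = a then zeta ^ (qk (ω f) k) else 1) := by
    intro a
    unfold qt
    rw [← zprod]
    refine Finset.prod_congr rfl fun f _ => ?_
    rw [← zprod]
    refine Finset.prod_congr rfl fun k _ => ?_
    split_ifs <;> simp
  simp only [h1]
  symm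
  rw [Finset.prod_comm]
  refine Finset.prod_congr rfl fun f _ => ?_
  rw [Finset.prod_comm]
  refine Finset.prod_congr rfl fun k _ => ?_
  rw [Finset.prod_ite_eq]
  simp

theorem Z6_expand (Q : QC V Φ) (F : Finset Φ) (h : V × V → ℂ) :
    Z6 Q F h = ∑ T ∈ F.powerset, ∑ α ∈ (Arrs Q F).filter (Cmp Q F (ind T)),
      ∏ a ∈ α, (h a * zeta ^ (qt Q F (ind T) a)) := by
  unfold Z6
  have h1 : ∀ α : Finset (V × V), ∏ f ∈ F, fw (fun k => decide (sd Q f k ∈ α)) =
      ∑ T ∈ F.powerset, if Cmp Q F (ind T) α then ∏ a ∈ α, zeta ^ (qt Q F (ind T) a) else 0 := by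
    intro α
    simp only [fw_eq]
    rw [Finset.prod_add]
    refine Finset.sum_congr rfl fun T hT => ?_
    have hT' := Finset.mem_powerset.mp hT
    have h2 : (∏ f ∈ T, bw true (fun k => decide (sd Q f k ∈ α))) *
        ∏ f ∈ F \ T, bw false (fun k => decide (sd Q f k ∈ α)) =
        ∏ f ∈ F, bw (ind T f) (fun k => decide (sd Q f k ∈ α)) := by
      rw [← Finset.prod_sdiff hT', mul_comm]
      congr 1
      · refine Finset.prod_congr rfl fun f hf => ?_
        have : f ∉ T := (Finset.mem_sdiff.mp hf).2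
        simp [ind, this]
      · refine Finset.prod_congr rfl fun f hf => ?_
        simp [ind, hf]
    rw [h2]
    by_cases hc : Cmp Q F (ind T) α
    · rw [if_pos hc, ← prod_phase]
      refine Finset.prod_congr rfl fun f hf => ?_
      unfold bw
      rw [if_pos (cmp_iff.mp hc f hf)]
    · rw [if_neg hc]
      have : ¬ ∀ f ∈ F, cmp (ind T f) (fun k => decide (sd Q f k ∈ α)) := fun hh => hc (cmp_iff.mpr hh)
      push Not at this
      obtain ⟨f, hf, hh⟩ := this
      apply Finset.prod_eq_zero hf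
      unfold bw
      rw [if_neg hh]
  simp only [h1]
  simp only [Finset.sum_mul]
  rw [Finset.sum_comm]
  refine Finset.sum_congr rfl fun T _ => ?_
  rw [Finset.sum_filter]
  refine Finset.sum_congr rfl fun α _ => ?_
  split_ifs
  · rw [← Finset.prod_mul_distrib]
    exact Finset.prod_congr rfl fun a _ => mul_comm _ _
  · rw [zero_mul]

end

end Pool.Agent.SixB
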