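import Pool.Agent.Lib.SixB.S0Seam

/-!
# Consecutive entries of the boundary word are consecutive boundary sides

`Ar Q F G x y`: `y` is reached from `x` by turning around the end vertex through glued sides.
`Nx0 Q F G x y`: the same, starting with the side after `x` in its face. `Disc.cyc`: consecutive
entries of the boundary word (cyclically, with the lift `4` at the end) satisfy `Nx0`.
-/

set_option autoImplicit false

namespace Pool.Agent.SixB

open Pool.Agent.Perc.Q

variable {V Φ : Type}

/-- Turning around the vertex in front of a side. -/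
inductive Ar (Q : QC V Φ) (F : Set Φ) (G : Set (V × V)) : (V × V) × ℤ → (V × V) × ℤ → Prop
  | refl (x : (V × V) × ℤ) : Ar Q F G x x
  | step {e : V × V} {a : ℤ} {f : Φ} {k : ZMod 4} {y : (V × V) × ℤ} (he : e ∈ G) (hf : f ∈ F)
      (hs : e.swap = sd Q f k) (h : Ar Q F G (sd Q f (k + 1), a - 1) y) : Ar Q F G (e, a) y

/-- The side after `x` on the boundary. -/
def Nx0 (Q : QC V Φ) (F : Set Φ) (G : Set (V × V)) (x y : (V × V) × ℤ) : Prop :=
  ∃ f ∈ F, ∃ k, x.1 = sd Q f k ∧ Ar Q F G (sd Q f (k + 1), x.2 + 1) y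

/-- The relation holds for cyclically consecutive entries, with the lift `4` at the end. -/
def CycP (R : (V × V) × ℤ → (V × V) × ℤ → Prop) (w : List ((V × V) × ℤ)) : Prop :=
  (∀ u x y v, w = u ++ x :: y :: v → R x y) ∧
    ∀ z v u x, w = z :: v → w = u ++ [x] → R x (z.1, z.2 + 4)

variable {Q : QC V Φ} {ω : Φ → Bool} {F F' : Set Φ} {G G' : Set (V × V)} {e : V × V}
  {f g : Φ} {k l : ZMod 4} {a b c : ℤ} {m n : ℕ} {w w' u v s u' v' : List ((V × V) × ℤ)}
  {x y z : (V × V) × ℤ}

theorem Ar.trans (h : Ar Q F G x y) (h' : Ar Q F G y z) : Ar Q F G x z := by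
  induction h with
  | refl _ => exact h'
  | step he hf hs _ ih => exact Ar.step he hf hs (ih h')

theorem Ar.mono (h : Ar Q F G x y) (hF : F ⊆ F') (hG : G ⊆ G') : Ar Q F' G' x y := by
  induction h with
  | refl x => exact Ar.refl x
  | step he hf hs _ ih => exact Ar.step (hG he) (hF hf) hs ih

theorem Ar.shift (h : Ar Q F G x y) (c : ℤ) : Ar Q F G (x.1, x.2 + c) (y.1, y.2 + c) := by
  induction h with
  | refl x => exact Ar.refl _
  | @step e a f k y he hf hs _ ih =>
    refine Ar.step he hf hs ?_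
    have h1 : a + c - 1 = a - 1 + c := by ring
    rw [h1]
    exact ih

theorem Ar.unique (h : Ar Q F G x y) (hy : y.1 ∉ G) (h' : Ar Q F G x z) (hz : z.1 ∉ G) : y = z := by
  induction h with
  | refl x =>
    cases h' with
    | refl _ => rfl
    | step he _ _ _ => exact absurd he hy
  | step he hf hs _ ih =>
    cases h' with
    | refl _ => exact absurd he hz
    | step he' hf' hs' h2 =>
      obtain ⟨rfl, rfl⟩ := sd_inj (hs.symm.trans hs')
      exact ih hy h2

theorem Nx0.mono (h : Nx0 Q F G x y) (hF : F ⊆ F') (hG : G ⊆ G') : Nx0 Q F' G' x y := by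
  obtain ⟨f, hf, k, h1, h2⟩ := h
  exact ⟨f, hF hf, k, h1, h2.mono hF hG⟩

theorem Nx0.shift (h : Nx0 Q F G x y) (c : ℤ) : Nx0 Q F G (x.1, x.2 + c) (y.1, y.2 + c) := by
  obtain ⟨f, hf, k, h1, h2⟩ := h
  refine ⟨f, hf, k, h1, ?_⟩
  have h3 := h2.shift c
  have h4 : x.2 + c + 1 = x.2 + 1 + c := by ring
  rw [h4]
  exact h3

theorem Nx0.unique (h : Nx0 Q F G x y) (hy : y.1 ∉ G) (h' : Nx0 Q F G x z) (hz : z.1 ∉ G) :
    y = z := by
  obtain ⟨f, hf, k, h1, h2⟩ := h
  obtain ⟨f', hf', k', h1', h2'⟩ := h'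
  obtain ⟨rfl, rfl⟩ := sd_inj (h1.symm.trans h1')
  exact h2.unique hy h2' hz

/-- Passing a glued side. -/
theorem Nx0.pass (h : Nx0 Q F G x (e, a)) (he : e ∈ G) (h' : Nx0 Q F G (e.swap, a - 2) z) :
    Nx0 Q F G x z := by
  obtain ⟨f, hf, k, h1, h2⟩ := h
  obtain ⟨f', hf', k', h1', h2'⟩ := h'
  refine ⟨f, hf, k, h1, h2.trans (Ar.step he hf' h1' ?_)⟩
  have h3 : a - 2 + 1 = a - 1 := by ring
  rw [← h3]
  exact h2'

theorem append_two {α : Type} {u v u1 v1 : List α} {x y : α} (h : u ++ v = u1 ++ x :: y :: v1) :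
    (∃ u2, u = u1 ++ x :: y :: u2) ∨ (u = u1 ++ [x] ∧ v = y :: v1) ∨
      ∃ v2, v = v2 ++ x :: y :: v1 := by
  rcases List.append_eq_append_iff.1 h with ⟨t, h1, h2⟩ | ⟨t, h1, h2⟩
  · exact Or.inr (Or.inr ⟨t, h2⟩)
  · rcases t with _ | ⟨a, t⟩
    · exact Or.inr (Or.inr ⟨[], by simpa using h2.symm⟩)
    · rw [List.cons_append] at h2
      obtain ⟨h3, h4⟩ := List.cons.inj h2
      rcases t with _ | ⟨b, t⟩
      · right; left
        rw [h3]
        exact ⟨h1, by simpa using h4.symm⟩
      · rw [List.cons_append] at h4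
        obtain ⟨h5, h6⟩ := List.cons.inj h4
        left
        exact ⟨t, by rw [h1, h3, h5]⟩

theorem CycP.mono {R R' : (V × V) × ℤ → (V × V) × ℤ → Prop} (h : CycP R w)
    (hR : ∀ x y, R x y → R' x y) : CycP R' w :=
  ⟨fun u x y v hw => hR _ _ (h.1 u x y v hw), fun z v u x h1 h2 => hR _ _ (h.2 z v u x h1 h2)⟩

/-- Consecutive entries of the boundary word are consecutive boundary sides. -/
theorem Disc.cyc (h : Disc Q F G w) : CycP (Nx0 Q F G) w := by
  induction h with
  | face f k a =>
    have k1 : k + 1 + 1 = k + 2 := z1 k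
    have k2 : k + 2 + 1 = k + 3 := z7 k
    have k3 : k + 3 + 1 = k := z5 k
    have key : ∀ j : ZMod 4, ∀ b : ℤ, Nx0 Q {f} ∅ (sd Q f j, b) (sd Q f (j + 1), b + 1) :=
      fun j b => ⟨f, rfl, j, rfl, Ar.refl _⟩
    have h0 := key k a
    have h1 := key (k + 1) (a + 1)
    have h2 := key (k + 2) (a + 2)
    have h3 := key (k + 3) (a + 3)
    rw [k1] at h1
    rw [k2] at h2
    rw [k3] at h3
    have e1 : a + 1 + 1 = a + 2 := by ring
    have e2 : a + 2 + 1 = a + 3 := by ring
    have e3 : a + 3 + 1 = a + 4 := by ring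
    rw [e1] at h1
    rw [e2] at h2
    rw [e3] at h3
    constructor
    · intro u x y v hw
      rcases u with _ | ⟨a1, _ | ⟨a2, _ | ⟨a3, u⟩⟩⟩
      · simp only [List.nil_append, List.cons.injEq] at hw
        obtain ⟨rfl, rfl, -⟩ := hw
        exact h0
      · simp only [List.cons_append, List.nil_append, List.cons.injEq] at hw
        obtain ⟨-, rfl, rfl, -⟩ := hw
        exact h1
      · simp only [List.cons_append, List.nil_append, List.cons.injEq] at hw
        obtain ⟨-, -, rfl, rfl, -⟩ := hw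
        exact h2
      · have := congrArg List.length hw
        simp at this
        omega
    · intro z v u x hz hx
      obtain ⟨rfl, -⟩ := List.cons.inj hz
      have h5 : (sd Q f (k + 3), a + 3) = x := by
        have := congrArg List.getLast? hx
        simpa using this
      rw [← h5]
      exact h3
  | @join F F' G G' u v e a hD hD' hd ih ih' =>
    set GG : Set (V × V) := G ∪ G' ∪ {e, e.swap} with hGG
    have hG : G ⊆ GG := fun x h => Or.inl (Or.inl h)
    have hG' : G' ⊆ GG := fun x h => Or.inl (Or.inr h)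
    have heG : e ∈ GG := Or.inr (Set.mem_insert _ _)
    have hesG : e.swap ∈ GG := Or.inr (Set.mem_insert_of_mem _ rfl)
    have i1 := ih.mono fun x y h => h.mono (F' := F ∪ F') Set.subset_union_left hG
    have i2 := ih'.mono fun x y h => h.mono (F' := F ∪ F') Set.subset_union_right hG'
    constructor
    · intro u1 x y v1 hw
      rcases append_two hw with ⟨u2, h1⟩ | ⟨h1, h2⟩ | ⟨v2, h1⟩
      · exact i1.1 u1 x y (u2 ++ [(e, a)]) (by rw [h1]; simp)
      · exact (i1.1 u1 x (e, a) [] (by rw [h1]; simp)).pass heG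
          (i2.1 [] (e.swap, a - 2) y v1 (by rw [h2]; simp))
      · exact i2.1 ((e.swap, a - 2) :: v2) x y v1 (by rw [h1]; simp)
    · intro z v' u' x hz hx
      rcases u with _ | ⟨z1, u2⟩
      · rw [List.nil_append] at hz hx
        have h1 := i2.2 (e.swap, a - 2) v ((e.swap, a - 2) :: u') x rfl (by rw [hx]; simp)
        have h2 := i1.2 (e, a) [] [] (e, a) rfl rfl
        have h3 := (i2.1 [] (e.swap, a - 2) z v' (by rw [hz]; simp)).shift 4
        have h4 : Nx0 Q (F ∪ F') GG (e, a) (z.1, z.2 + 4) := by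
          refine h2.pass heG ?_
          have e4 : a + 4 - 2 = a - 2 + 4 := by ring
          simp only [e4]
          exact h3
        refine h1.pass hesG ?_
        simp only [Prod.swap_swap]
        have e4 : a - 2 + 4 - 2 = a := by ring
        rw [e4]
        exact h4
      · rw [List.cons_append] at hz hx
        obtain ⟨rfl, hz2⟩ := List.cons.inj hz
        rcases List.eq_nil_or_concat v with rfl | ⟨v2, x2, rfl⟩
        · rw [List.append_nil] at hx
          have h1 := i1.1 u' x (e, a) [] (by rw [List.cons_append, ← List.cons_append, hx]; simp)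
          have h2 := i2.2 (e.swap, a - 2) [] [] (e.swap, a - 2) rfl rfl
          have h3 := i1.2 z1 (u2 ++ [(e, a)]) (z1 :: u2) (e, a) rfl rfl
          refine h1.pass heG (h2.pass hesG ?_)
          simp only [Prod.swap_swap]
          have e4 : a - 2 + 4 - 2 = a := by ring
          rw [e4]
          exact h3
        · rw [List.concat_eq_append] at hx i2
          have hx2 : x2 = x := by
            have h9 : (z1 :: (u2 ++ v2)) ++ [x2] = u' ++ [x] := by rw [← hx]; simp
            simpa using List.append_inj_right' h9 rfl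
          subst hx2
          have h1 := i2.2 (e.swap, a - 2) (v2 ++ [x2]) ((e.swap, a - 2) :: v2) x2 rfl rfl
          have h3 := i1.2 z1 (u2 ++ [(e, a)]) (z1 :: u2) (e, a) rfl rfl
          refine h1.pass hesG ?_
          simp only [Prod.swap_swap]
          have e4 : a - 2 + 4 - 2 = a := by ring
          rw [e4]
          exact h3
  | @zip F G u v e a hD ih =>
    set GG : Set (V × V) := G ∪ {e, e.swap} with hGG
    have hG : G ⊆ GG := fun x h => Or.inl h
    have heG : e ∈ GG := Or.inr (Set.mem_insert _ _)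
    have hesG : e.swap ∈ GG := Or.inr (Set.mem_insert_of_mem _ rfl)
    have i1 := ih.mono fun x y h => h.mono (F' := F) subset_rfl hG
    constructor
    · intro u1 x y v1 hw
      rcases append_two hw with ⟨u2, h1⟩ | ⟨h1, h2⟩ | ⟨v2, h1⟩
      · exact i1.1 u1 x y (u2 ++ (e, a) :: (e.swap, a - 2) :: v) (by rw [h1]; simp)
      · exact (i1.1 u1 x (e, a) ((e.swap, a - 2) :: v) (by rw [h1]; simp)).pass heG
          (i1.1 (u ++ [(e, a)]) (e.swap, a - 2) y v1 (by rw [h2]; simp))
      · exact i1.1 (u ++ (e, a) :: (e.swap, a - 2) :: v2) x y v1 (by rw [h1]; simp)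
    · intro z v' u' x hz hx
      rcases u with _ | ⟨z1, u2⟩
      · rw [List.nil_append] at hz hx
        have h1 := i1.2 (e, a) ((e.swap, a - 2) :: v) ((e, a) :: (e.swap, a - 2) :: u') x rfl
          (by rw [hx]; simp)
        have h3 := (i1.1 [(e, a)] (e.swap, a - 2) z v' (by rw [hz]; simp)).shift 4
        refine h1.pass heG ?_
        have e4 : a + 4 - 2 = a - 2 + 4 := by ring
        simp only [e4]
        exact h3
      · rw [List.cons_append] at hz hx
        obtain ⟨rfl, hz2⟩ := List.cons.inj hz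
        rcases List.eq_nil_or_concat v with rfl | ⟨v2, x2, rfl⟩
        · rw [List.append_nil] at hx
          have h1 := i1.1 u' x (e, a) [(e.swap, a - 2)] (by
            rw [show u' ++ x :: (e, a) :: [(e.swap, a - 2)] =
              (u' ++ [x]) ++ [(e, a), (e.swap, a - 2)] by simp, ← hx])
          have h3 := i1.2 z1 (u2 ++ [(e, a), (e.swap, a - 2)]) ((z1 :: u2) ++ [(e, a)])
            (e.swap, a - 2) rfl (by simp)
          exact h1.pass heG h3
        · rw [List.concat_eq_append] at hx i1
          have hx2 : x2 = x := by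
            have h9 : (z1 :: (u2 ++ v2)) ++ [x2] = u' ++ [x] := by rw [← hx]; simp
            simpa using List.append_inj_right' h9 rfl
          subst hx2
          exact i1.2 z1 (u2 ++ (e, a) :: (e.swap, a - 2) :: (v2 ++ [x2]))
            ((z1 :: u2) ++ (e, a) :: (e.swap, a - 2) :: v2) x2 rfl (by simp)
  | @rot F G u e a hD ih =>
    constructor
    · intro u1 x y v1 hw
      rcases append_two hw with ⟨u2, h1⟩ | ⟨h1, h2⟩ | ⟨v2, h1⟩
      · exact ih.1 ((e, a) :: u1) x y u2 (by rw [h1]; simp)
      · obtain ⟨rfl, -⟩ := List.cons.inj h2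
        exact ih.2 (e, a) u ((e, a) :: u1) x rfl (by rw [h1]; simp)
      · have := congrArg List.length h1
        simp at this
        omega
    · intro z v' u' x hz hx
      have hx2 : (e, a + 4) = x := by
        have := congrArg List.getLast? hx
        simpa using this
      rw [← hx2]
      rcases u with _ | ⟨z1, u2⟩
      · rw [List.nil_append] at hz
        obtain ⟨rfl, -⟩ := List.cons.inj hz
        exact (ih.2 (e, a) [] [] (e, a) rfl rfl).shift 4
      · rw [List.cons_append] at hz
        obtain ⟨rfl, -⟩ := List.cons.inj hz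
        exact (ih.1 [] (e, a) z1 u2 rfl).shift 4
  | @shift F G u c _ ih =>
    constructor
    · intro u1 x y v1 hw
      obtain ⟨u2, v2, h1, h2, h3⟩ := List.map_eq_append_iff.1 hw
      obtain ⟨x2, v3, rfl, rfl, h5⟩ := List.map_eq_cons_iff.1 h3
      obtain ⟨y2, v4, rfl, rfl, h6⟩ := List.map_eq_cons_iff.1 h5
      exact (ih.1 u2 x2 y2 v4 h1).shift c
    · intro z v' u' x hz hx
      obtain ⟨z2, v2, h1, rfl, h2⟩ := List.map_eq_cons_iff.1 hz
      obtain ⟨u3, v3, h3, h4, h5⟩ := List.map_eq_append_iff.1 hx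
      obtain ⟨x2, v4, rfl, rfl, h6⟩ := List.map_eq_cons_iff.1 h5
      obtain rfl : v4 = [] := List.map_eq_nil_iff.1 h6
      have h7 := (ih.2 z2 v2 u3 x2 h1 h3).shift c
      have e4 : z2.2 + 4 + c = z2.2 + c + 4 := by ring
      rw [e4] at h7
      exact h7

end Pool.Agent.SixB
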