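import Pool.Agent.Lib.MP_6bd702_zc.Y003

/-!
# 6BD step 0: arrows and strands (pure algebra, every complex of quadrangles)

`Q : QC V Φ`, `F : Finset Φ`. A directed unit edge is a pair `(p, q) : V × V` (a strand or an arrow crosses
the unit edge with `p` on its left and `q` on its right).
* `sd Q f k`: the side `k` of the face `f`, directed into `f`; `dE Q F`: all sides of faces of `F`, both directions.
* `Arrs Q F`: arrow configurations = finsets of directed unit edges with exactly one of `a`, `a.swap`.
* `fw`: weight of a face: `1` if the two entering sides are adjacent, `√3` if they are opposite, else `0`.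
* `Z6 Q F h = ∑ α, (∏ f, fw) * ∏ a ∈ α, h a`, `h` any complex weight of directed arrows (boundary phases,
  insertions).
* `qt Q F ω a`: quarter turn of the strand step which starts with `a` (`+1` left, `-1` right, `0` no face ahead).
* `dstr Q F ω`: the directed strands (finsets of directed unit edges); `ust`: pairs `{X, X.rev}`.
* `sw Q F ω h X = ∏ a ∈ X, h a * ζ ^ qt a`, `ζ = exp (i π / 12)`.
* `Zs Q F ω h = ∏ U ∈ ust, ∑ X ∈ U, sw X`.
THEOREM `Z6_eq`: `Z6 Q F h = ∑ T ∈ F.powerset, Zs Q F (indicator of T) h`.
-/

set_option autoImplicit false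
set_option linter.unusedSectionVars false

namespace Pool.Agent.SixB

open Pool.Agent.Perc.Q Relation

noncomputable section

variable {V Φ : Type} [DecidableEq V] [DecidableEq Φ]

/-- the side `k` of `f`, directed into the face -/
def sd (Q : QC V Φ) (f : Φ) (k : ZMod 4) : V × V := (Q.c f k, Q.c f (k + 1))

/-- the directed unit edges of `F` -/
def dE (Q : QC V Φ) (F : Finset Φ) : Finset (V × V) :=
  F.biUnion fun f => Finset.univ.biUnion fun k : ZMod 4 => {sd Q f k, (sd Q f k).swap}

/-- no side is degenerate -/
def NoLoop (Q : QC V Φ) : Prop := ∀ f k, Q.c f k ≠ Q.c f (k + 1)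

/-- arrow configurations -/
def Arrs (Q : QC V Φ) (F : Finset Φ) : Finset (Finset (V × V)) :=
  (dE Q F).powerset.filter fun α => ∀ a ∈ dE Q F, (a ∈ α ↔ a.swap ∉ α)

/-- weight of a face, `x k`: the arrow of the side `k` enters -/
def fw (x : ZMod 4 → Bool) : ℂ :=
  if x 0 = x 2 then (if x 1 = x 3 ∧ x 0 ≠ x 1 then (Real.sqrt 3 : ℂ) else 0)
  else (if x 1 = x 3 then 0 else 1)

/-- the arrow sum -/
def Z6 (Q : QC V Φ) (F : Finset Φ) (h : V × V → ℂ) : ℂ :=
  ∑ α ∈ Arrs Q F, (∏ f ∈ F, fw (fun k => decide (sd Q f k ∈ α))) * ∏ a ∈ α, h a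

/-- `exp (i π / 12)` -/
def zeta : ℂ := Complex.exp (Real.pi / 12 * Complex.I)

/-- quarter turn in a face entered through the side `k` with smoothing `b` -/
def qk (b : Bool) (k : ZMod 4) : ℤ := if b = ev k then -1 else 1

/-- quarter turn of the step from `a` -/
def qt (Q : QC V Φ) (F : Finset Φ) (ω : Φ → Bool) (a : V × V) : ℤ :=
  ∑ f ∈ F, ∑ k : ZMod 4, if sd Q f k = a then qk (ω f) k else 0

/-- the strand relation -/
def SRel (Q : QC V Φ) (F : Finset Φ) (ω : Φ → Bool) : V × V → V × V → Prop :=
  EqvGen (Nx Q ω (F : Set Φ))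

open Classical in
/-- the directed strand of `a` -/
def dst (Q : QC V Φ) (F : Finset Φ) (ω : Φ → Bool) (a : V × V) : Finset (V × V) :=
  (dE Q F).filter fun b => SRel Q F ω a b

/-- all directed strands -/
def dstr (Q : QC V Φ) (F : Finset Φ) (ω : Φ → Bool) : Finset (Finset (V × V)) :=
  (dE Q F).image (dst Q F ω)

/-- reversal of a directed strand -/
def rv (X : Finset (V × V)) : Finset (V × V) := X.image Prod.swap

/-- the undirected strands, as pairs of directed strands -/
def ust (Q : QC V Φ) (F : Finset Φ) (ω : Φ → Bool) : Finset (Finset (Finset (V × V))) :=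
  (dstr Q F ω).image fun X => {X, rv X}

/-- weight of a directed strand -/
def sw (Q : QC V Φ) (F : Finset Φ) (ω : Φ → Bool) (h : V × V → ℂ) (X : Finset (V × V)) : ℂ :=
  ∏ a ∈ X, (h a * zeta ^ (qt Q F ω a))

/-- the strand product -/
def Zs (Q : QC V Φ) (F : Finset Φ) (ω : Φ → Bool) (h : V × V → ℂ) : ℂ :=
  ∏ U ∈ ust Q F ω, ∑ X ∈ U, sw Q F ω h X

/-- indicator of a set of faces -/
def ind (T : Finset Φ) : Φ → Bool := fun f => decide (f ∈ T)

/-! ## Sums over sections of an involution -/

/-- subsets with exactly one of `X`, `ι X` -/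
def Secs {α : Type} [DecidableEq α] (ι : α → α) (D : Finset α) : Finset (Finset α) :=
  D.powerset.filter fun A => ∀ X ∈ D, (X ∈ A ↔ ι X ∉ A)

theorem secs_sum {α : Type} [DecidableEq α] (ι : α → α) (f : α → ℂ) (n : ℕ) :
    ∀ D : Finset α, D.card = n → (∀ X ∈ D, ι X ∈ D) → (∀ X ∈ D, ι (ι X) = X) →
      (∀ X ∈ D, ι X ≠ X) →
      ∑ A ∈ Secs ι D, ∏ X ∈ A, f X = ∏ U ∈ D.image (fun X => ({X, ι X} : Finset α)), ∑ X ∈ U, f X := by
  induction n using Nat.strong_induction_on with
  | _ n ih =>
    intro D hn h1 h2 h3
    rcases D.eq_empty_or_nonempty with rfl | ⟨X, hX⟩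
    · simp [Secs]
    set D' := (D.erase X).erase (ι X) with hD'
    have hmem : ∀ Y, Y ∈ D' ↔ (Y ∈ D ∧ Y ≠ X ∧ Y ≠ ι X) := by
      intro Y
      simp only [hD', Finset.mem_erase]
      tauto
    have hcard : D'.card < n := by
      rw [← hn]
      apply Finset.card_lt_card
      refine ⟨fun Y hY => ((hmem Y).mp hY).1, fun hh => ?_⟩
      exact ((hmem X).mp (hh hX)).2.1 rfl
    have hιX := h1 X hX
    have hne := h3 X hX
    have hinv : ∀ Y ∈ D', ι Y ∈ D' := by
      intro Y hY
      obtain ⟨a, b, c⟩ := (hmem Y).mp hY
      refine (hmem _).mpr ⟨h1 Y a, ?_, ?_⟩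
      · intro hh
        apply c
        rw [← hh, h2 Y a]
      · intro hh
        apply b
        rw [← h2 Y a, hh, h2 X hX]
    have IH := ih D'.card hcard D' rfl hinv (fun Y hY => h2 Y ((hmem Y).mp hY).1)
      (fun Y hY => h3 Y ((hmem Y).mp hY).1)
    -- the pairs
    have hpairs : D.image (fun X => ({X, ι X} : Finset α)) =
        insert ({X, ι X} : Finset α) (D'.image (fun X => ({X, ι X} : Finset α))) := by
      ext U
      simp only [Finset.mem_image, Finset.mem_insert]
      constructor
      · rintro ⟨Y, hY, rfl⟩
        by_cases e1 : Y = X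
        · left; rw [e1]
        by_cases e2 : Y = ι X
        · left
          rw [e2, h2 X hX, Finset.pair_comm]
        · exact Or.inr ⟨Y, (hmem Y).mpr ⟨hY, e1, e2⟩, rfl⟩
      · rintro (rfl | ⟨Y, hY, rfl⟩)
        · exact ⟨X, hX, rfl⟩
        · exact ⟨Y, ((hmem Y).mp hY).1, rfl⟩
    have hnot : ({X, ι X} : Finset α) ∉ D'.image (fun X => ({X, ι X} : Finset α)) := by
      intro hh
      obtain ⟨Y, hY, hYX⟩ := Finset.mem_image.mp hh
      obtain ⟨a, b, c⟩ := (hmem Y).mp hY
      have : Y ∈ ({X, ι X} : Finset α) := by rw [← hYX]; simp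
      simp only [Finset.mem_insert, Finset.mem_singleton] at this
      tauto
    rw [hpairs, Finset.prod_insert hnot, Finset.sum_pair hne.symm, ← IH, add_mul]
    -- the sections
    have hsplit : Secs ι D = (Secs ι D').image (fun A => insert X A) ∪
        (Secs ι D').image (fun A => insert (ι X) A) := by
      ext A
      simp only [Secs, Finset.mem_union, Finset.mem_image, Finset.mem_filter, Finset.mem_powerset]
      constructor
      · rintro ⟨hA, hA2⟩
        have key : ∀ Y ∈ D, (Y ∈ A ↔ ι Y ∉ A) := hA2
        by_cases hXA : X ∈ A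
        · left
          have hιA : ι X ∉ A := (key X hX).mp hXA
          refine ⟨A.erase X, ⟨?_, ?_⟩, Finset.insert_erase hXA⟩
          · intro Y hY
            obtain ⟨b, c⟩ := Finset.mem_erase.mp hY
            exact (hmem Y).mpr ⟨hA c, b, fun hh => hιA (hh ▸ c)⟩
          · intro Y hY
            obtain ⟨a, b, c⟩ := (hmem Y).mp hY
            have d : ι Y ≠ X := by
              intro hh; apply c; rw [← hh, h2 Y a]
            simp only [Finset.mem_erase, ne_eq, b, not_false_eq_true, true_and, d]
            exact key Y a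
        · right
          have hιA : ι X ∈ A := by
            by_contra hh
            exact hXA ((key X hX).mpr hh)
          refine ⟨A.erase (ι X), ⟨?_, ?_⟩, Finset.insert_erase hιA⟩
          · intro Y hY
            obtain ⟨b, c⟩ := Finset.mem_erase.mp hY
            exact (hmem Y).mpr ⟨hA c, fun hh => hXA (hh ▸ c), b⟩
          · intro Y hY
            obtain ⟨a, b, c⟩ := (hmem Y).mp hY
            have d : ι Y ≠ ι X := by
              intro hh; apply b; rw [← h2 Y a, hh, h2 X hX]
            simp only [Finset.mem_erase, ne_eq, c, not_false_eq_true, true_and, d]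
            exact key Y a
      · rintro (⟨A', ⟨hA, hA2⟩, rfl⟩ | ⟨A', ⟨hA, hA2⟩, rfl⟩)
        · have hXn : X ∉ A' := fun hh => ((hmem X).mp (hA hh)).2.1 rfl
          have hιn : ι X ∉ A' := fun hh => ((hmem (ι X)).mp (hA hh)).2.2 rfl
          refine ⟨?_, ?_⟩
          · intro Y hY
            rcases Finset.mem_insert.mp hY with rfl | hY
            · exact hX
            · exact ((hmem Y).mp (hA hY)).1
          · intro Y hY
            simp only [Finset.mem_insert, not_or]
            by_cases e1 : Y = X
            · subst e1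
              simp [hιn, hne]
            by_cases e2 : Y = ι X
            · subst e2
              simp [hιn, hne, h2 X hX]
            · have hY' := (hmem Y).mpr ⟨hY, e1, e2⟩
              have d : ι Y ≠ X := by
                intro hh; apply e2; rw [← hh, h2 Y hY]
              have := hA2 Y hY'
              simp only [e1, false_or, d, not_false_eq_true, true_and]
              exact this
        · have hXn : X ∉ A' := fun hh => ((hmem X).mp (hA hh)).2.1 rfl
          have hιn : ι X ∉ A' := fun hh => ((hmem (ι X)).mp (hA hh)).2.2 rfl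
          refine ⟨?_, ?_⟩
          · intro Y hY
            rcases Finset.mem_insert.mp hY with rfl | hY
            · exact hιX
            · exact ((hmem Y).mp (hA hY)).1
          · intro Y hY
            simp only [Finset.mem_insert, not_or]
            by_cases e1 : Y = X
            · subst e1
              simp [hXn, hne.symm]
            by_cases e2 : Y = ι X
            · subst e2
              simp [hXn, hne.symm, h2 X hX]
            · have hY' := (hmem Y).mpr ⟨hY, e1, e2⟩
              have d : ι Y ≠ ι X := by
                intro hh; apply e1; rw [← h2 Y hY, hh, h2 X hX]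
              have := hA2 Y hY'
              simp only [e2, false_or, d, not_false_eq_true, true_and]
              exact this
    have hX' : ∀ A ∈ Secs ι D', X ∉ A ∧ ι X ∉ A := by
      intro A hA
      have hA' := Finset.mem_powerset.mp (Finset.mem_filter.mp hA).1
      exact ⟨fun hh => ((hmem X).mp (hA' hh)).2.1 rfl, fun hh => ((hmem (ι X)).mp (hA' hh)).2.2 rfl⟩
    have hdisj : Disjoint ((Secs ι D').image (fun A => insert X A))
        ((Secs ι D').image (fun A => insert (ι X) A)) := by
      rw [Finset.disjoint_left]
      intro A hA hA'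
      obtain ⟨B, hB, rfl⟩ := Finset.mem_image.mp hA
      obtain ⟨B', hB', hBB⟩ := Finset.mem_image.mp hA'
      have : X ∈ insert (ι X) B' := by rw [hBB]; exact Finset.mem_insert_self _ _
      rcases Finset.mem_insert.mp this with hh | hh
      · exact hne hh.symm
      · exact (hX' B' hB').1 hh
    rw [hsplit, Finset.sum_union hdisj]
    congr 1
    · rw [Finset.sum_image, Finset.mul_sum]
      · exact Finset.sum_congr rfl fun A hA => Finset.prod_insert (hX' A hA).1
      · intro A hA B hB hAB
        have e := congrArg (fun S => S.erase X) hAB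
        simpa only [Finset.erase_insert (hX' A hA).1, Finset.erase_insert (hX' B hB).1] using e
    · rw [Finset.sum_image, Finset.mul_sum]
      · exact Finset.sum_congr rfl fun A hA => Finset.prod_insert (hX' A hA).2
      · intro A hA B hB hAB
        have e := congrArg (fun S => S.erase (ι X)) hAB
        simpa only [Finset.erase_insert (hX' A hA).2, Finset.erase_insert (hX' B hB).2] using e

end

end Pool.Agent.SixB
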