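import Pool.Agent.Lib.SixB.S0Str

/-!
# 6BD step 0: cutting the arrow sum along the common sides of two sets of faces
-/

set_option autoImplicit false
set_option linter.unusedSectionVars false

namespace Pool.Agent.SixB

open Pool.Agent.Perc.Q Relation

noncomputable section

variable {V Φ : Type} [DecidableEq V] [DecidableEq Φ]

/-- the common sides of `F₁` and `F₂` (both directions) -/
def cE (Q : QC V Φ) (F₁ F₂ : Finset Φ) : Finset (V × V) := dE Q F₁ ∩ dE Q F₂

/-- arrow configurations of a set `K` of directed unit edges -/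
def KArr (K : Finset (V × V)) : Finset (Finset (V × V)) :=
  K.powerset.filter fun κ => ∀ a ∈ K, (a ∈ κ ↔ a.swap ∉ κ)

/-- the arrows of `K` are those of `κ` -/
def dlt (K κ : Finset (V × V)) (a : V × V) : ℂ := if a ∈ K ∧ a ∉ κ then 0 else 1

theorem arrs_eq (Q : QC V Φ) (F : Finset Φ) : Arrs Q F = KArr (dE Q F) := rfl

theorem dE_union (Q : QC V Φ) (F₁ F₂ : Finset Φ) : dE Q (F₁ ∪ F₂) = dE Q F₁ ∪ dE Q F₂ := by
  ext a
  simp only [mem_dE, Finset.mem_union]
  constructor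
  · rintro ⟨f, hf | hf, h⟩
    · exact Or.inl ⟨f, hf, h⟩
    · exact Or.inr ⟨f, hf, h⟩
  · rintro (⟨f, hf, h⟩ | ⟨f, hf, h⟩)
    · exact ⟨f, Or.inl hf, h⟩
    · exact ⟨f, Or.inr hf, h⟩

theorem swap_mem_cE {Q : QC V Φ} {F₁ F₂ : Finset Φ} {a : V × V} :
    a.swap ∈ cE Q F₁ F₂ ↔ a ∈ cE Q F₁ F₂ := by
  unfold cE
  rw [Finset.mem_inter, Finset.mem_inter, swap_mem_dE, swap_mem_dE]

/-- restriction of an arrow configuration -/
theorem karr_inter {K L α : Finset (V × V)} (hα : α ∈ KArr L) (hKL : K ⊆ L)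
    (hs : ∀ a, a ∈ K → a.swap ∈ K) : α ∩ K ∈ KArr K := by
  obtain ⟨h1, h2⟩ := Finset.mem_filter.mp hα
  refine Finset.mem_filter.mpr ⟨Finset.mem_powerset.mpr Finset.inter_subset_right, ?_⟩
  intro a ha
  have := h2 a (hKL ha)
  rw [Finset.mem_inter, Finset.mem_inter]
  have := hs a ha
  tauto

theorem karr_sub_eq {K κ κ' : Finset (V × V)} (h : κ ∈ KArr K) (h' : κ' ∈ KArr K)
    (hs : κ ⊆ κ') : κ = κ' := by
  obtain ⟨h1, h2⟩ := Finset.mem_filter.mp h
  obtain ⟨h3, h4⟩ := Finset.mem_filter.mp h'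
  apply Finset.Subset.antisymm hs
  intro a ha
  have haK := Finset.mem_powerset.mp h3 ha
  by_contra hh
  have e1 := h2 a haK
  have e2 := h4 a haK
  have e3 : a.swap ∈ κ := by
    by_contra h5
    exact hh (e1.mpr h5)
  exact e2.mp ha (hs e3)

theorem prod_dlt (K κ α : Finset (V × V)) (g : V × V → ℂ) :
    ∏ a ∈ α, (g a * dlt K κ a) = if α ∩ K ⊆ κ then ∏ a ∈ α, g a else 0 := by
  split_ifs with h
  · refine Finset.prod_congr rfl fun a ha => ?_
    unfold dlt
    rw [if_neg, mul_one]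
    rintro ⟨h1, h2⟩
    exact h2 (h (Finset.mem_inter.mpr ⟨ha, h1⟩))
  · rw [Finset.not_subset] at h
    obtain ⟨a, ha, ha'⟩ := h
    apply Finset.prod_eq_zero (Finset.mem_inter.mp ha).1
    unfold dlt
    rw [if_pos ⟨(Finset.mem_inter.mp ha).2, ha'⟩, mul_zero]

/-- **Cutting.** -/
theorem Z6_glue (Q : QC V Φ) (F₁ F₂ : Finset Φ) (hd : Disjoint F₁ F₂) (h h₁ h₂ : V × V → ℂ)
    (e0 : ∀ a ∈ cE Q F₁ F₂, h a = h₁ a * h₂ a)
    (e1 : ∀ a ∈ dE Q F₁, a ∉ cE Q F₁ F₂ → h₁ a = h a)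
    (e2 : ∀ a ∈ dE Q F₂, a ∉ cE Q F₁ F₂ → h₂ a = h a) :
    Z6 Q (F₁ ∪ F₂) h = ∑ κ ∈ KArr (cE Q F₁ F₂),
      Z6 Q F₁ (fun a => h₁ a * dlt (cE Q F₁ F₂) κ a) *
        Z6 Q F₂ (fun a => h₂ a * dlt (cE Q F₁ F₂) κ a) := by
  set K := cE Q F₁ F₂ with hK
  have hK1 : K ⊆ dE Q F₁ := Finset.inter_subset_left
  have hK2 : K ⊆ dE Q F₂ := Finset.inter_subset_right
  have hKs : ∀ a, a ∈ K → a.swap ∈ K := fun a ha => swap_mem_cE.mpr ha
  set A₁ : Finset (V × V) → ℂ := fun α =>
    (∏ f ∈ F₁, fw (fun k => decide (sd Q f k ∈ α))) * ∏ a ∈ α, h₁ a with hA₁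
  set A₂ : Finset (V × V) → ℂ := fun α =>
    (∏ f ∈ F₂, fw (fun k => decide (sd Q f k ∈ α))) * ∏ a ∈ α, h₂ a with hA₂
  -- the right-hand side
  have hR : ∑ κ ∈ KArr K, Z6 Q F₁ (fun a => h₁ a * dlt K κ a) *
      Z6 Q F₂ (fun a => h₂ a * dlt K κ a) =
      ∑ α₁ ∈ Arrs Q F₁, ∑ α₂ ∈ Arrs Q F₂, if α₁ ∩ K = α₂ ∩ K then A₁ α₁ * A₂ α₂ else 0 := by
    have h1 : ∀ κ ∈ KArr K, Z6 Q F₁ (fun a => h₁ a * dlt K κ a) =
        ∑ α₁ ∈ Arrs Q F₁, if α₁ ∩ K = κ then A₁ α₁ else 0 := by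
      intro κ hκ
      unfold Z6
      refine Finset.sum_congr rfl fun α hα => ?_
      rw [prod_dlt]
      have h3 : α ∩ K ⊆ κ ↔ α ∩ K = κ :=
        ⟨fun h4 => karr_sub_eq (karr_inter hα hK1 hKs) hκ h4, fun h4 => h4 ▸ Finset.Subset.refl _⟩
      by_cases h5 : α ∩ K = κ
      · rw [if_pos (h3.mpr h5), if_pos h5]
      · rw [if_neg (fun h6 => h5 (h3.mp h6)), if_neg h5, mul_zero]
    have h2 : ∀ κ ∈ KArr K, Z6 Q F₂ (fun a => h₂ a * dlt K κ a) =
        ∑ α₂ ∈ Arrs Q F₂, if α₂ ∩ K = κ then A₂ α₂ else 0 := by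
      intro κ hκ
      unfold Z6
      refine Finset.sum_congr rfl fun α hα => ?_
      rw [prod_dlt]
      have h3 : α ∩ K ⊆ κ ↔ α ∩ K = κ :=
        ⟨fun h4 => karr_sub_eq (karr_inter hα hK2 hKs) hκ h4, fun h4 => h4 ▸ Finset.Subset.refl _⟩
      by_cases h5 : α ∩ K = κ
      · rw [if_pos (h3.mpr h5), if_pos h5]
      · rw [if_neg (fun h6 => h5 (h3.mp h6)), if_neg h5, mul_zero]
    have h3 : ∀ κ ∈ KArr K, Z6 Q F₁ (fun a => h₁ a * dlt K κ a) *
        Z6 Q F₂ (fun a => h₂ a * dlt K κ a) =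
        ∑ α₁ ∈ Arrs Q F₁, ∑ α₂ ∈ Arrs Q F₂,
          if α₁ ∩ K = κ then (if α₂ ∩ K = κ then A₁ α₁ * A₂ α₂ else 0) else 0 := by
      intro κ hκ
      rw [h1 κ hκ, h2 κ hκ, Finset.sum_mul_sum]
      refine Finset.sum_congr rfl fun α₁ _ => Finset.sum_congr rfl fun α₂ _ => ?_
      split_ifs <;> ring
    rw [Finset.sum_congr rfl h3, Finset.sum_comm]
    refine Finset.sum_congr rfl fun α₁ hα₁ => ?_
    rw [Finset.sum_comm]
    refine Finset.sum_congr rfl fun α₂ _ => ?_
    rw [Finset.sum_ite_eq]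
    rw [if_pos (karr_inter hα₁ hK1 hKs)]
    by_cases h5 : α₁ ∩ K = α₂ ∩ K
    · rw [if_pos h5.symm, if_pos h5]
    · rw [if_neg (fun h6 => h5 h6.symm), if_neg h5]
  rw [hR]
  -- the left-hand side
  rw [← Finset.sum_product', ← Finset.sum_filter]
  unfold Z6
  refine Finset.sum_bij' (fun α _ => (α ∩ dE Q F₁, α ∩ dE Q F₂)) (fun p _ => p.1 ∪ p.2)
    ?_ ?_ ?_ ?_ ?_
  · intro α hα
    rw [Finset.mem_filter, Finset.mem_product]
    have hα' : α ∈ KArr (dE Q (F₁ ∪ F₂)) := hα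
    rw [dE_union] at hα'
    refine ⟨⟨karr_inter hα' Finset.subset_union_left (fun a ha => swap_mem_dE.mpr ha),
      karr_inter hα' Finset.subset_union_right (fun a ha => swap_mem_dE.mpr ha)⟩, ?_⟩
    simp only
    rw [Finset.inter_assoc, Finset.inter_assoc, Finset.inter_eq_right.mpr hK1,
      Finset.inter_eq_right.mpr hK2]
  · intro p hp
    obtain ⟨hp1, hp2⟩ := Finset.mem_filter.mp hp
    obtain ⟨ha, hb⟩ := Finset.mem_product.mp hp1
    obtain ⟨ha1, ha2⟩ := Finset.mem_filter.mp ha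
    obtain ⟨hb1, hb2⟩ := Finset.mem_filter.mp hb
    have ha1 := Finset.mem_powerset.mp ha1
    have hb1 := Finset.mem_powerset.mp hb1
    have key : ∀ a, a ∈ K → (a ∈ p.1 ↔ a ∈ p.2) := by
      intro a haK
      have h3 := Finset.ext_iff.mp hp2 a
      rw [Finset.mem_inter, Finset.mem_inter] at h3
      tauto
    refine Finset.mem_filter.mpr ⟨Finset.mem_powerset.mpr ?_, ?_⟩
    · rw [dE_union]
      exact Finset.union_subset_union ha1 hb1
    · intro a haU
      rw [dE_union, Finset.mem_union] at haU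
      rw [Finset.mem_union, Finset.mem_union, not_or]
      by_cases h1 : a ∈ dE Q F₁ <;> by_cases h2 : a ∈ dE Q F₂
      · have haK : a ∈ K := Finset.mem_inter.mpr ⟨h1, h2⟩
        have k1 := key a haK
        have k2 := key a.swap (hKs a haK)
        have k3 := ha2 a h1
        tauto
      · have k3 := ha2 a h1
        have k4 : a ∉ p.2 := fun hh => h2 (hb1 hh)
        have k5 : a.swap ∉ p.2 := fun hh => h2 (swap_mem_dE.mp (hb1 hh))
        tauto
      · have k3 := hb2 a h2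
        have k4 : a ∉ p.1 := fun hh => h1 (ha1 hh)
        have k5 : a.swap ∉ p.1 := fun hh => h1 (swap_mem_dE.mp (ha1 hh))
        tauto
      · exact absurd haU (by tauto)
  · intro α hα
    have hα' := Finset.mem_powerset.mp (Finset.mem_filter.mp hα).1
    rw [dE_union] at hα'
    simp only
    rw [← Finset.inter_union_distrib_left, Finset.inter_eq_left.mpr hα']
  · intro p hp
    obtain ⟨hp1, hp2⟩ := Finset.mem_filter.mp hp
    obtain ⟨ha, hb⟩ := Finset.mem_product.mp hp1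
    have ha1 := Finset.mem_powerset.mp (Finset.mem_filter.mp ha).1
    have hb1 := Finset.mem_powerset.mp (Finset.mem_filter.mp hb).1
    have key : ∀ a, a ∈ K → (a ∈ p.1 ↔ a ∈ p.2) := by
      intro a haK
      have h3 := Finset.ext_iff.mp hp2 a
      rw [Finset.mem_inter, Finset.mem_inter] at h3
      tauto
    refine Prod.ext ?_ ?_
    · ext a
      simp only [Finset.mem_inter, Finset.mem_union]
      constructor
      · rintro ⟨h1 | h1, h2⟩
        · exact h1
        · exact (key a (Finset.mem_inter.mpr ⟨h2, hb1 h1⟩)).mpr h1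
      · intro h1
        exact ⟨Or.inl h1, ha1 h1⟩
    · ext a
      simp only [Finset.mem_inter, Finset.mem_union]
      constructor
      · rintro ⟨h1 | h1, h2⟩
        · exact (key a (Finset.mem_inter.mpr ⟨ha1 h1, h2⟩)).mp h1
        · exact h1
      · intro h1
        exact ⟨Or.inr h1, hb1 h1⟩
  · intro α hα
    have hα' := Finset.mem_powerset.mp (Finset.mem_filter.mp hα).1
    rw [dE_union] at hα'
    simp only [hA₁, hA₂]
    rw [Finset.prod_union hd]
    have f1 : ∏ f ∈ F₁, fw (fun k => decide (sd Q f k ∈ α)) =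
        ∏ f ∈ F₁, fw (fun k => decide (sd Q f k ∈ α ∩ dE Q F₁)) := by
      refine Finset.prod_congr rfl fun f hf => ?_
      congr 1
      funext k
      simp only [Finset.mem_inter, sd_mem hf k, and_true]
    have f2 : ∏ f ∈ F₂, fw (fun k => decide (sd Q f k ∈ α)) =
        ∏ f ∈ F₂, fw (fun k => decide (sd Q f k ∈ α ∩ dE Q F₂)) := by
      refine Finset.prod_congr rfl fun f hf => ?_
      congr 1
      funext k
      simp only [Finset.mem_inter, sd_mem hf k, and_true]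
    have f3 : ∏ a ∈ α, h a = (∏ a ∈ α ∩ dE Q F₁, h₁ a) * ∏ a ∈ α ∩ dE Q F₂, h₂ a := by
      have g1 : ∏ a ∈ α ∩ dE Q F₁, h₁ a =
          (∏ a ∈ α ∩ (dE Q F₁ \ K), h a) * ∏ a ∈ α ∩ K, h₁ a := by
        have : α ∩ dE Q F₁ = (α ∩ (dE Q F₁ \ K)) ∪ (α ∩ K) := by
          rw [← Finset.inter_union_distrib_left, Finset.sdiff_union_of_subset hK1]
        rw [this, Finset.prod_union]
        · congr 1
          refine Finset.prod_congr rfl fun a ha => ?_
          have := Finset.mem_sdiff.mp (Finset.mem_inter.mp ha).2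
          exact e1 a this.1 this.2
        · rw [Finset.disjoint_left]
          intro a ha hb
          exact (Finset.mem_sdiff.mp (Finset.mem_inter.mp ha).2).2 (Finset.mem_inter.mp hb).2
      have g2 : ∏ a ∈ α ∩ dE Q F₂, h₂ a =
          (∏ a ∈ α ∩ (dE Q F₂ \ K), h a) * ∏ a ∈ α ∩ K, h₂ a := by
        have : α ∩ dE Q F₂ = (α ∩ (dE Q F₂ \ K)) ∪ (α ∩ K) := by
          rw [← Finset.inter_union_distrib_left, Finset.sdiff_union_of_subset hK2]
        rw [this, Finset.prod_union]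
        · congr 1
          refine Finset.prod_congr rfl fun a ha => ?_
          have := Finset.mem_sdiff.mp (Finset.mem_inter.mp ha).2
          exact e2 a this.1 this.2
        · rw [Finset.disjoint_left]
          intro a ha hb
          exact (Finset.mem_sdiff.mp (Finset.mem_inter.mp ha).2).2 (Finset.mem_inter.mp hb).2
      have g3 : ∏ a ∈ α, h a = (∏ a ∈ α ∩ (dE Q F₁ \ K), h a) *
          ((∏ a ∈ α ∩ (dE Q F₂ \ K), h a) * ∏ a ∈ α ∩ K, h a) := by
        have : α = (α ∩ (dE Q F₁ \ K)) ∪ ((α ∩ (dE Q F₂ \ K)) ∪ (α ∩ K)) := by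
          rw [← Finset.inter_union_distrib_left, ← Finset.inter_union_distrib_left]
          symm
          rw [Finset.inter_eq_left]
          intro a ha
          have := hα' ha
          simp only [Finset.mem_union, Finset.mem_sdiff] at this ⊢
          by_cases hk : a ∈ K <;> tauto
        conv_lhs => rw [this]
        rw [Finset.prod_union, Finset.prod_union]
        · rw [Finset.disjoint_left]
          intro a ha hb
          exact (Finset.mem_sdiff.mp (Finset.mem_inter.mp ha).2).2 (Finset.mem_inter.mp hb).2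
        · rw [Finset.disjoint_left]
          intro a ha hb
          have h1 := Finset.mem_sdiff.mp (Finset.mem_inter.mp ha).2
          rcases Finset.mem_union.mp hb with h2 | h2
          · have h3 := Finset.mem_sdiff.mp (Finset.mem_inter.mp h2).2
            exact h1.2 (Finset.mem_inter.mpr ⟨h1.1, h3.1⟩)
          · exact h1.2 (Finset.mem_inter.mp h2).2
      have g4 : ∏ a ∈ α ∩ K, h a = (∏ a ∈ α ∩ K, h₁ a) * ∏ a ∈ α ∩ K, h₂ a := by
        rw [← Finset.prod_mul_distrib]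
        exact Finset.prod_congr rfl fun a ha => e0 a (Finset.mem_inter.mp ha).2
      rw [g1, g2, g3, g4]
      ring
    rw [f1, f2, f3]
    ring

end

end Pool.Agent.SixB
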