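import Pool.Agent.Lib.SixB.S0Rect
import Pool.Agent.Lib.MP_6bd702_zc.Y024

/-!
# Strands of the plane: loops have turning `4` or `-4`; rectangles

`lface p a`: the face on the left of the directed unit edge `(p, p + dv a)`.
-/

set_option autoImplicit false

namespace Pool.Agent.SixB

open Pool.Agent.Perc Pool.Agent.Perc.Q

/-- The face on the left of the directed unit edge from `p` in the direction `a`. -/
def lface (p : ℤ × ℤ) (a : ℤ) : ℤ × ℤ :=
  if a % 4 = 0 then p else if a % 4 = 1 then (p.1 - 1, p.2) else if a % 4 = 2 then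
    (p.1 - 1, p.2 - 1) else (p.1, p.2 - 1)

variable {ω : Cfg} {F F' S : Set (ℤ × ℤ)} {e : (ℤ × ℤ) × (ℤ × ℤ)} {p f : ℤ × ℤ} {a t : ℤ} {n : ℕ}
  {x y x₀ x₁ y₀ y₁ : ℤ}

theorem sd_ZQ (f : ℤ × ℤ) (k : ZMod 4) : sd ZQ f k = (cor0 f k, cor0 f (k + 1)) := rfl

theorem sd_ZQ0 (x y : ℤ) : sd ZQ (x, y) 0 = ((x, y), (x + 1, y)) := rfl

theorem sd_ZQ1 (x y : ℤ) : sd ZQ (x, y) 1 = ((x + 1, y), (x + 1, y + 1)) := rfl

theorem sd_ZQ2 (x y : ℤ) : sd ZQ (x, y) 2 = ((x + 1, y + 1), (x, y + 1)) := rfl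

theorem sd_ZQ3 (x y : ℤ) : sd ZQ (x, y) 3 = ((x, y + 1), (x, y)) := rfl

/-- A directed unit edge is a side of the face on its left only. -/
theorem mem_sides_ZQ : (p, p + dv a) ∈ Sides ZQ S ↔ lface p a ∈ S := by
  obtain ⟨x, y⟩ := p
  have h4 : a % 4 = 0 ∨ a % 4 = 1 ∨ a % 4 = 2 ∨ a % 4 = 3 := by omega
  constructor
  · rintro ⟨⟨u, v⟩, hf, k, hk⟩
    rcases k4_cases k with rfl | rfl | rfl | rfl
    · rw [sd_ZQ0] at hk
      simp only [Prod.ext_iff, Prod.fst_add, Prod.snd_add] at hk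
      rcases h4 with h | h | h | h <;> simp [dv, h] at hk
      · have : lface (x, y) a = (u, v) := by
          unfold lface; rw [if_pos h]; ext <;> simp <;> omega
        rw [this]; exact hf
      · omega
      · omega
      · omega
    · rw [sd_ZQ1] at hk
      simp only [Prod.ext_iff, Prod.fst_add, Prod.snd_add] at hk
      rcases h4 with h | h | h | h <;> simp [dv, h] at hk
      · omega
      · have : lface (x, y) a = (u, v) := by
          unfold lface; rw [if_neg (by omega), if_pos h]; ext <;> simp <;> omega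
        rw [this]; exact hf
      · omega
      · omega
    · rw [sd_ZQ2] at hk
      simp only [Prod.ext_iff, Prod.fst_add, Prod.snd_add] at hk
      rcases h4 with h | h | h | h <;> simp [dv, h] at hk
      · omega
      · omega
      · have : lface (x, y) a = (u, v) := by
          unfold lface; rw [if_neg (by omega), if_neg (by omega), if_pos h]; ext <;> simp <;> omega
        rw [this]; exact hf
      · omega
    · rw [sd_ZQ3] at hk
      simp only [Prod.ext_iff, Prod.fst_add, Prod.snd_add] at hk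
      rcases h4 with h | h | h | h <;> simp [dv, h] at hk
      · omega
      · omega
      · omega
      · have : lface (x, y) a = (u, v) := by
          unfold lface
          rw [if_neg (by omega), if_neg (by omega), if_neg (by omega)]; ext <;> simp <;> omega
        rw [this]; exact hf
  · intro h
    rcases h4 with h1 | h1 | h1 | h1
    · refine ⟨_, h, 0, ?_⟩
      have h2 : lface (x, y) a = (x, y) := by unfold lface; rw [if_pos h1]
      rw [h2, sd_ZQ0]
      simp [dv, h1]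
    · refine ⟨_, h, 1, ?_⟩
      have h2 : lface (x, y) a = (x - 1, y) := by
        unfold lface; rw [if_neg (by omega), if_pos h1]
      rw [h2, sd_ZQ1]
      simp [dv, h1]
    · refine ⟨_, h, 2, ?_⟩
      have h2 : lface (x, y) a = (x - 1, y - 1) := by
        unfold lface; rw [if_neg (by omega), if_neg (by omega), if_pos h1]
      rw [h2, sd_ZQ2]
      simp [dv, h1]
      omega
    · refine ⟨_, h, 3, ?_⟩
      have h2 : lface (x, y) a = (x, y - 1) := by
        unfold lface; rw [if_neg (by omega), if_neg (by omega), if_neg (by omega)]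
      rw [h2, sd_ZQ3]
      simp [dv, h1]
      omega

theorem swap_step (p : ℤ × ℤ) (a : ℤ) :
    (p, p + dv a).swap = (p + dv a, (p + dv a) + dv (a - 2)) := by
  rw [dv_sub_two, add_neg_cancel_right]
  rfl

/-- The other side of a directed unit edge. -/
theorem swap_mem_sides_ZQ : (p, p + dv a).swap ∈ Sides ZQ S ↔ lface (p + dv a) (a - 2) ∈ S := by
  rw [swap_step, mem_sides_ZQ]

theorem mem_segmP {V : Type} {pos : ℤ × ℤ → V} {a : ℤ} {z : (V × V) × ℤ} : ∀ {n : ℕ} {p : ℤ × ℤ},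
    z ∈ segm pos p a n → ∃ i : ℕ, i < n ∧
      z = ((pos (p + (i : ℤ) • dv a), pos (p + (i : ℤ) • dv a + dv a)), a) := by
  intro n
  induction n with
  | zero => intro p h; exact absurd h (List.not_mem_nil)
  | succ n ih =>
    intro p h
    rw [segm_succ, List.mem_cons] at h
    rcases h with rfl | h
    · exact ⟨0, Nat.succ_pos n, by simp⟩
    · obtain ⟨i, hi, rfl⟩ := ih h
      refine ⟨i + 1, by omega, ?_⟩
      have h1 : p + dv a + (i : ℤ) • dv a = p + ((i + 1 : ℕ) : ℤ) • dv a := by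
        push_cast
        rw [add_smul, one_smul, add_assoc, add_comm (dv a)]
      rw [h1]

theorem chartZ (R : Set (ℤ × ℤ)) : Chart ZQ id id R where
  inj := fun _ _ _ _ h => h
  c0 := fun _ _ => rfl
  c1 := fun _ _ => rfl
  c2 := fun _ _ => rfl
  c3 := fun _ _ => rfl

theorem coe_RF : ((RF x₀ x₁ y₀ y₁ : Finset (ℤ × ℤ)) : Set (ℤ × ℤ)) = RS x₀ x₁ y₀ y₁ := by
  ext p
  unfold RF RS
  simp only [Finset.coe_product, Finset.coe_Ico, Set.mem_prod, Set.mem_Ico, Set.mem_ofPred_eq]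
  tauto

/-- The boundary word of a rectangle. -/
def rectW (x₀ x₁ y₀ y₁ : ℤ) : List (((ℤ × ℤ) × (ℤ × ℤ)) × ℤ) :=
  segm id (x₀, y₀) 0 (x₁ - x₀).toNat ++ (segm id (x₁, y₀) 1 (y₁ - y₀).toNat ++
    (segm id (x₁, y₁) 2 (x₁ - x₀).toNat ++ segm id (x₀, y₁) 3 (y₁ - y₀).toNat))

theorem disc_RS (hx : x₀ < x₁) (hy : y₀ < y₁) :
    Disc ZQ (RS x₀ x₁ y₀ y₁) (Glued ZQ (RS x₀ x₁ y₀ y₁)) (rectW x₀ x₁ y₀ y₁) := by
  obtain ⟨n, hn⟩ : ∃ n : ℕ, x₁ = x₀ + (n + 1 : ℕ) := ⟨(x₁ - x₀).toNat - 1, by omega⟩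
  obtain ⟨m, hm⟩ : ∃ m : ℕ, y₁ = y₀ + (m + 1 : ℕ) := ⟨(y₁ - y₀).toNat - 1, by omega⟩
  obtain ⟨G, h⟩ := disc_rect (Q := ZQ) (φ := id) (pos := id) n m (x := x₀) (y := y₀) (chartZ _)
  rw [Set.image_id, ← hn, ← hm] at h
  have e1 : (x₁ - x₀).toNat = n + 1 := by omega
  have e2 : (y₁ - y₀).toNat = m + 1 := by omega
  have h' : Disc ZQ (RS x₀ x₁ y₀ y₁) G (rectW x₀ x₁ y₀ y₁) := by
    unfold rectW
    rw [e1, e2]
    exact h
  refine h'.complete ?_
  intro z hz
  unfold rectW at hz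
  simp only [List.mem_append] at hz
  rcases hz with hz | hz | hz | hz
  · obtain ⟨i, hi, rfl⟩ := mem_segmP hz
    simp only [id]
    rw [swap_mem_sides_ZQ, dv0]
    unfold lface RS
    simp
  · obtain ⟨i, hi, rfl⟩ := mem_segmP hz
    simp only [id]
    rw [swap_mem_sides_ZQ, dv1]
    unfold lface RS
    simp
  · obtain ⟨i, hi, rfl⟩ := mem_segmP hz
    simp only [id]
    rw [swap_mem_sides_ZQ, dv2]
    unfold lface RS
    simp
  · obtain ⟨i, hi, rfl⟩ := mem_segmP hz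
    simp only [id]
    rw [swap_mem_sides_ZQ, dv3]
    unfold lface RS
    simp

theorem disc_RF (hx : x₀ < x₁) (hy : y₀ < y₁) :
    Disc ZQ (RF x₀ x₁ y₀ y₁ : Finset (ℤ × ℤ)) (Glued ZQ (RF x₀ x₁ y₀ y₁ : Finset (ℤ × ℤ)))
      (rectW x₀ x₁ y₀ y₁) := by
  rw [coe_RF]
  exact disc_RS hx hy

theorem glued_mono (h : F ⊆ F') : Glued ZQ F ⊆ Glued ZQ F' := by
  rintro e ⟨⟨f, hf, k, h1⟩, ⟨g, hg, l, h2⟩⟩
  exact ⟨⟨f, h hf, k, h1⟩, ⟨g, h hg, l, h2⟩⟩

theorem exists_RS (hF : F.Finite) : ∃ x₀ x₁ y₀ y₁ : ℤ, x₀ < x₁ ∧ y₀ < y₁ ∧ F ⊆ RS x₀ x₁ y₀ y₁ := by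
  obtain ⟨B, hB⟩ := (hF.image fun f : ℤ × ℤ => f.1.natAbs + f.2.natAbs).bddAbove
  refine ⟨-B, B + 1, -B, B + 1, by omega, by omega, ?_⟩
  intro f hf
  have h1 := hB ⟨f, hf, rfl⟩
  simp only at h1
  unfold RS
  simp only [Set.mem_ofPred_eq]
  omega

theorem Walk.toGlued {V Φ : Type} {Q : QC V Φ} {ω : Φ → Bool} {F : Set Φ} {G : Set (V × V)} {n : ℕ}
    {a b : V × V} {t : ℤ} (h : Walk Q ω F G n a b t) : Walk Q ω F (Glued Q F) n a b t := by
  induction h with
  | one h => exact Walk.one h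
  | tail h _ h' ih => exact Walk.tail ih ⟨(mem_sides_of_st h').1, h.last'⟩ h'

/-- LOOPS OF THE PLANE: every closed strand of a finite set of faces, run through once, has turning
`4` or `-4`. -/
theorem plane_loop (hF : F.Finite) {G : Set ((ℤ × ℤ) × (ℤ × ℤ))} (hG : G ⊆ Glued ZQ F)
    (he : e ∈ G) (hw : Walk ZQ ω F G n e e t)
    (hmin : ∀ m < n, ∀ s, ¬ Walk ZQ ω F G m e e s) : t = 4 ∨ t = -4 := by
  obtain ⟨x₀, x₁, y₀, y₁, hx, hy, hF'⟩ := exists_RS hF
  exact (disc_RS hx hy).loop_sub hF' (hG.trans (glued_mono hF')) he hw hmin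

/-- LOOPS OF THE PLANE, without a set of glued sides. -/
theorem plane_loop_univ (hF : F.Finite) (hw : Walk ZQ ω F Set.univ n e e t)
    (hmin : ∀ m < n, ∀ s, ¬ Walk ZQ ω F Set.univ m e e s) : t = 4 ∨ t = -4 := by
  have he : e ∈ Glued ZQ F := ⟨hw.first', by
    have := hw.last'
    exact this⟩
  refine plane_loop hF subset_rfl he hw.toGlued ?_
  intro m hm s h
  exact hmin m hm s (h.mono subset_rfl (Set.subset_univ _))

end Pool.Agent.SixB
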