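import Pool.Agent.Lib.SixB.S0Loop

/-!
# Gluing discs along a segment of their boundary words
-/

set_option autoImplicit false

namespace Pool.Agent.SixB

open Pool.Agent.Perc.Q

variable {V Φ : Type}

/-- The same side seen from the other face. -/
def flp (x : (V × V) × ℤ) : (V × V) × ℤ := (x.1.swap, x.2 - 2)

/-- A segment of a boundary word seen from the other side. -/
def rvw (s : List ((V × V) × ℤ)) : List ((V × V) × ℤ) := (s.map flp).reverse

/-- Change of the lift. -/
def lft (c : ℤ) (s : List ((V × V) × ℤ)) : List ((V × V) × ℤ) := s.map fun x => (x.1, x.2 + c)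

/-- The sides of a segment, in both directions. -/
def seam (s : List ((V × V) × ℤ)) : Set (V × V) :=
  {e | e ∈ s.map Prod.fst ∨ e.swap ∈ s.map Prod.fst}

/-- The glued sides of the faces of `F`. -/
def Glued (Q : QC V Φ) (F : Set Φ) : Set (V × V) := {e | e ∈ Sides Q F ∧ e.swap ∈ Sides Q F}

variable {Q : QC V Φ} {ω : Φ → Bool} {F F' : Set Φ} {G G' : Set (V × V)} {a b c e : V × V}
  {f g : Φ} {k l : ZMod 4} {t : ℤ} {m n : ℕ} {w w' u v s u' v' : List ((V × V) × ℤ)}

theorem flp_def (e : V × V) (a : ℤ) : flp (e, a) = (e.swap, a - 2) := rfl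

theorem rvw_nil : rvw ([] : List ((V × V) × ℤ)) = [] := rfl

theorem rvw_cons (x : (V × V) × ℤ) (s : List ((V × V) × ℤ)) : rvw (x :: s) = rvw s ++ [flp x] := by
  unfold rvw
  rw [List.map_cons, List.reverse_cons]

theorem rvw_append (s s' : List ((V × V) × ℤ)) : rvw (s ++ s') = rvw s' ++ rvw s := by
  unfold rvw
  rw [List.map_append, List.reverse_append]

theorem lft_append (c : ℤ) (s s' : List ((V × V) × ℤ)) : lft c (s ++ s') = lft c s ++ lft c s' := by
  unfold lft
  rw [List.map_append]

theorem lft_lft (c d : ℤ) (s : List ((V × V) × ℤ)) : lft c (lft d s) = lft (d + c) s := by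
  unfold lft
  rw [List.map_map]
  apply List.map_congr_left
  intro x _
  simp only [Function.comp]
  rw [add_assoc]

theorem lft_zero (s : List ((V × V) × ℤ)) : lft 0 s = s := by
  unfold lft
  simp

theorem lft_cons (c : ℤ) (x : (V × V) × ℤ) (s : List ((V × V) × ℤ)) :
    lft c (x :: s) = (x.1, x.2 + c) :: lft c s := rfl

theorem lft_nil (c : ℤ) : lft c ([] : List ((V × V) × ℤ)) = [] := rfl

theorem lft_rvw (c : ℤ) (s : List ((V × V) × ℤ)) : lft c (rvw s) = rvw (lft c s) := by
  unfold lft rvw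
  rw [List.map_map, List.map_reverse, List.map_map]
  congr 1
  apply List.map_congr_left
  intro x _
  simp only [Function.comp, flp]
  rw [add_sub_right_comm]

theorem map_fst_lft (c : ℤ) (s : List ((V × V) × ℤ)) : (lft c s).map Prod.fst = s.map Prod.fst := by
  unfold lft
  rw [List.map_map]
  rfl

theorem seam_lft (c : ℤ) (s : List ((V × V) × ℤ)) : seam (lft c s) = seam s := by
  unfold seam
  rw [map_fst_lft]

theorem seam_cons (x : (V × V) × ℤ) (s : List ((V × V) × ℤ)) :
    seam (x :: s) = seam s ∪ {x.1, x.1.swap} := by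
  ext e
  unfold seam
  simp only [List.map_cons, List.mem_cons, Set.mem_ofPred_eq, Set.mem_union, Set.mem_insert_iff,
    Set.mem_singleton_iff]
  have h : e.swap = x.1 ↔ e = x.1.swap := by
    constructor
    · intro h; rw [← h, Prod.swap_swap]
    · intro h; rw [h, Prod.swap_swap]
  rw [h]
  tauto

theorem seam_snoc (x : (V × V) × ℤ) (s : List ((V × V) × ℤ)) :
    seam (s ++ [x]) = seam s ∪ {x.1, x.1.swap} := by
  have h : seam (s ++ [x]) = seam (x :: s) := by
    ext e
    unfold seam
    simp only [List.map_append, List.map_cons, List.map_nil, List.mem_append, List.mem_cons,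
      List.not_mem_nil, or_false, Set.mem_ofPred_eq]
    tauto
  rw [h, seam_cons]

theorem Disc.lft (h : Disc Q F G u) (c : ℤ) : Disc Q F G (lft c u) := Disc.shift c h

theorem Disc.cast (h : Disc Q F G u) (hF : F = F') (hG : G = G') (hu : u = v) : Disc Q F' G' v := by
  subst hF hG hu; exact h

/-- Rotation by a whole segment. -/
theorem Disc.rots : ∀ {s u : List ((V × V) × ℤ)}, Disc Q F G (s ++ u) →
    Disc Q F G (u ++ SixB.lft 4 s) := by
  intro s
  induction s with
  | nil =>
    intro u h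
    rw [lft_nil, List.append_nil]
    exact h
  | cons x s ih =>
    intro u h
    obtain ⟨e, a⟩ := x
    have h1 : Disc Q F G (s ++ (u ++ [(e, a + 4)])) := by
      rw [← List.append_assoc]
      exact Disc.rot (by rwa [List.cons_append] at h)
    have h2 := ih h1
    rw [lft_cons]
    rwa [List.append_assoc, List.singleton_append] at h2

theorem Disc.zips : ∀ {s u v : List ((V × V) × ℤ)}, Disc Q F G (u ++ (s ++ (rvw s ++ v))) →
    Disc Q F (G ∪ seam s) (u ++ v) := by
  intro s
  induction s with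
  | nil =>
    intro u v h
    refine h.cast rfl ?_ rfl
    ext e
    simp [seam]
  | cons x s ih =>
    intro u v h
    obtain ⟨e, a⟩ := x
    have h1 : Disc Q F G ((u ++ [(e, a)]) ++ (s ++ (rvw s ++ (flp (e, a) :: v)))) := by
      rw [rvw_cons] at h
      simpa using h
    have h2 := ih h1
    rw [flp_def, List.append_assoc, List.singleton_append] at h2
    refine (Disc.zip h2).cast rfl ?_ rfl
    rw [seam_cons, Set.union_assoc]

/-- GLUING ALONG A SEGMENT. -/
theorem Disc.glue (h : Disc Q F G (u ++ s)) (h' : Disc Q F' G' (rvw s ++ v)) (hs : s ≠ [])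
    (hd : Disjoint F F') : Disc Q (F ∪ F') (G ∪ G' ∪ seam s) (u ++ v) := by
  rcases List.eq_nil_or_concat s with rfl | ⟨s0, ⟨e, a⟩, rfl⟩
  · exact absurd rfl hs
  · rw [List.concat_eq_append] at h h' ⊢
    rw [rvw_append] at h'
    have h1 : Disc Q F G ((u ++ s0) ++ [(e, a)]) := by simpa using h
    have h2 : Disc Q F' G' ((e.swap, a - 2) :: (rvw s0 ++ v)) := by
      simpa [rvw, flp] using h'
    have h3 := Disc.join h1 h2 hd
    have h4 := Disc.zips (s := s0) (u := u) (v := v) (h3.cast rfl rfl (by simp))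
    refine h4.cast rfl ?_ rfl
    rw [seam_snoc, Set.union_assoc (G ∪ G'), Set.union_comm _ (seam s0)]

/-- Pasting a disc along a segment in the middle of the boundary word. -/
theorem Disc.paste (h : Disc Q F G (u ++ (s ++ v))) (h' : Disc Q F' G' (u' ++ (rvw s ++ v')))
    (hs : s ≠ []) (hd : Disjoint F F') :
    Disc Q (F ∪ F') (G ∪ G' ∪ seam s) (u ++ (v' ++ (SixB.lft 4 u' ++ v))) := by
  have h1 : Disc Q F G (v ++ SixB.lft 4 (u ++ s)) := Disc.rots (by simpa using h)
  have h2 : Disc Q F' G' ((rvw s ++ v') ++ SixB.lft 4 u') := Disc.rots h'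
  have h3 := h2.lft 4
  have h4 : Disc Q F G ((v ++ SixB.lft 4 u) ++ SixB.lft 4 s) := by
    rw [lft_append] at h1
    rwa [List.append_assoc]
  have h5 : Disc Q F' G' (rvw (SixB.lft 4 s) ++ (SixB.lft 4 v' ++ SixB.lft 8 u')) := by
    rw [lft_append, lft_append, lft_rvw, lft_lft, List.append_assoc] at h3
    exact h3
  have hs' : SixB.lft 4 s ≠ [] := by
    intro h
    apply hs
    unfold SixB.lft at h
    exact List.map_eq_nil_iff.1 h
  have h6 := Disc.glue h4 h5 hs' hd
  rw [seam_lft, List.append_assoc] at h6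
  have h7 := (Disc.rots h6).lft (-4)
  refine h7.cast rfl rfl ?_
  simp only [lft_append, lft_lft]
  norm_num [lft_zero]

/-- The glued sides of a disc whose boundary sides are not sides of a second face. -/
theorem Disc.eq_glued (h : Disc Q F G w) (hw : ∀ x ∈ w, x.1.swap ∉ Sides Q F) : G = Glued Q F := by
  have hi := h.inv
  ext e
  constructor
  · intro he
    exact ⟨hi.sideG e he, hi.sideG _ (hi.symm e he)⟩
  · rintro ⟨h1, h2⟩
    rcases hi.cover e h1 with h3 | h3
    · obtain ⟨x, hx, rfl⟩ := List.mem_map.1 h3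
      exact absurd h2 (hw x hx)
    · exact h3

theorem Disc.complete (h : Disc Q F G w) (hw : ∀ x ∈ w, x.1.swap ∉ Sides Q F) :
    Disc Q F (Glued Q F) w := by
  rw [← h.eq_glued hw]; exact h

/-- The boundary sides of a complete disc. -/
theorem Disc.bd (h : Disc Q F (Glued Q F) w) {x : (V × V) × ℤ} (hx : x ∈ w) :
    x.1 ∈ Sides Q F ∧ x.1.swap ∉ Sides Q F := by
  have hi := h.inv
  have h1 := hi.sideW x.1 (List.mem_map_of_mem hx)
  exact ⟨h1, fun h2 => hi.notG x.1 (List.mem_map_of_mem hx) ⟨h1, h2⟩⟩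

theorem Disc.mem_of_bd (h : Disc Q F (Glued Q F) w) (he : e ∈ Sides Q F)
    (he' : e.swap ∉ Sides Q F) : e ∈ w.map Prod.fst := by
  rcases h.inv.cover e he with h1 | h1
  · exact h1
  · exact absurd h1.2 he'

theorem ini_of_bd (he' : e.swap ∉ Sides Q F) : Ini Q F e := by
  intro f hf k h
  exact he' ⟨f, hf, k, by rw [h]; rfl⟩

theorem ter_of_bd (he' : e.swap ∉ Sides Q F) : Ter Q F e.swap := by
  intro f hf k h
  exact he' ⟨f, hf, k, h⟩

/-- Walks and orbits. -/
theorem Walk.orb (h : Walk Q ω F G n a b t) : b ∈ Orb Q ω F a := by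
  induction h with
  | one h => exact Orb_step mem_Orb_self (nx_iff.2 ⟨_, h⟩)
  | tail _ _ h' ih => exact Orb_step ih (nx_iff.2 ⟨_, h'⟩)

theorem exists_walk (h : b ∈ Orb Q ω F a) : a = b ∨ ∃ n t, Walk Q ω F (Glued Q F) n a b t := by
  have h' : Relation.ReflTransGen (Nx Q ω F) a b := h
  induction h' with
  | refl => exact Or.inl rfl
  | @tail b c h1 h2 ih =>
    right
    obtain ⟨t, h2⟩ := nx_iff.1 h2
    rcases ih h1 with rfl | ⟨n, s, h3⟩
    · exact ⟨1, t, Walk.one h2⟩
    · exact ⟨n + 1, s + t, Walk.tail h3 ⟨(mem_sides_of_st h2).1, h3.last'⟩ h2⟩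

end Pool.Agent.SixB
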