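import Pool.Agent.Lib.SixB.S0Plane
import Pool.Agent.Lib.SixB.S0Cyc
import Pool.Agent.Lib.SixB.TopEsc

/-!
# Finite edge connected sets of faces of the plane without holes are discs
-/

set_option autoImplicit false

namespace Pool.Agent.SixB

open Pool.Agent.Perc Pool.Agent.Perc.Q Pool.Agent.Perc6 Relation

section General

variable {V Φ : Type} {Q : QC V Φ} {F F' : Set Φ} {G : Set (V × V)} {e : V × V}
  {f : Φ} {w w' u v s u' v' : List ((V × V) × ℤ)}

/-- Pasting complete discs whose common sides are exactly the sides of the seam. -/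
theorem Disc.pasteC (h : Disc Q F (Glued Q F) (u ++ (s ++ v)))
    (h' : Disc Q F' (Glued Q F') (u' ++ (rvw s ++ v'))) (hs : s ≠ []) (hd : Disjoint F F')
    (hx : ∀ e ∈ Sides Q F, e.swap ∈ Sides Q F' → e ∈ s.map Prod.fst) :
    Disc Q (F ∪ F') (Glued Q (F ∪ F')) (u ++ (v' ++ (SixB.lft 4 u' ++ v))) := by
  refine (Disc.paste h h' hs hd).cast rfl ?_ rfl
  have hs1 : ∀ e ∈ s.map Prod.fst, e ∈ Sides Q F := by
    intro e he
    refine h.inv.sideW e ?_
    rw [List.map_append, List.map_append]
    simp only [List.mem_append]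
    exact Or.inr (Or.inl he)
  have hs2 : ∀ e ∈ s.map Prod.fst, e.swap ∈ Sides Q F' := by
    intro e he
    refine h'.inv.sideW e.swap ?_
    rw [List.map_append, List.map_append]
    simp only [List.mem_append]
    right; left
    obtain ⟨x, hx, rfl⟩ := List.mem_map.1 he
    unfold rvw
    rw [List.map_reverse, List.mem_reverse, List.map_map]
    exact List.mem_map.2 ⟨x, hx, rfl⟩
  ext e
  constructor
  · rintro ((h1 | h1) | h1)
    · exact ⟨by rw [sides_union]; exact Or.inl h1.1, by rw [sides_union]; exact Or.inl h1.2⟩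
    · exact ⟨by rw [sides_union]; exact Or.inr h1.1, by rw [sides_union]; exact Or.inr h1.2⟩
    · rcases h1 with h1 | h1
      · exact ⟨by rw [sides_union]; exact Or.inl (hs1 _ h1),
          by rw [sides_union]; exact Or.inr (hs2 _ h1)⟩
      · refine ⟨by rw [sides_union]; right; simpa using hs2 _ h1,
          by rw [sides_union]; exact Or.inl (hs1 _ h1)⟩
  · rintro ⟨h1, h2⟩
    rw [sides_union] at h1 h2
    rcases h1 with h1 | h1 <;> rcases h2 with h2 | h2
    · exact Or.inl (Or.inl ⟨h1, h2⟩)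
    · exact Or.inr (Or.inl (hx e h1 h2))
    · exact Or.inr (Or.inr (hx e.swap h2 (by simpa using h1)))
    · exact Or.inl (Or.inr ⟨h1, h2⟩)

/-- Attaching two discs along one common side. -/
theorem disc_attach (h : ∃ w, Disc Q F (Glued Q F) w) (h' : ∃ w, Disc Q F' (Glued Q F') w)
    (hd : Disjoint F F') (he : e ∈ Sides Q F) (he' : e.swap ∈ Sides Q F')
    (hx : ∀ e' ∈ Sides Q F, e'.swap ∈ Sides Q F' → e' = e) :
    ∃ w, Disc Q (F ∪ F') (Glued Q (F ∪ F')) w := by
  obtain ⟨w, h⟩ := h
  obtain ⟨w', h'⟩ := h'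
  have h1 : e ∈ w.map Prod.fst := h.mem_of_bd he fun h2 => sides_disj hd h2 he'
  have h1' : e.swap ∈ w'.map Prod.fst := by
    refine h'.mem_of_bd he' fun h2 => ?_
    rw [Prod.swap_swap] at h2
    exact sides_disj hd he h2
  obtain ⟨⟨e1, a⟩, h2, rfl⟩ := List.mem_map.1 h1
  obtain ⟨⟨e2, b⟩, h2', h3⟩ := List.mem_map.1 h1'
  simp only at h3 he he' hx
  subst h3
  obtain ⟨u, v, rfl⟩ := List.append_of_mem h2
  obtain ⟨u', v', rfl⟩ := List.append_of_mem h2'
  have h4 := h'.lft (a - 2 - b)
  rw [lft_append, lft_cons] at h4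
  have e4 : b + (a - 2 - b) = a - 2 := by ring
  simp only [e4] at h4
  refine ⟨_, Disc.pasteC (s := [(e1, a)]) (u := u) (v := v) (h.cast rfl rfl (by simp))
    (h4.cast rfl rfl (v := SixB.lft (a - 2 - b) u' ++ (rvw [(e1, a)] ++ SixB.lft (a - 2 - b) v'))
      (by simp [rvw, flp])) (by simp) hd ?_⟩
  intro e' he1 he2
  simp [hx e' he1 he2]

/-- A single face is a disc, if no side is glued to another one. -/
theorem disc_face (hf : ∀ k l : ZMod 4, sd Q f k ≠ (sd Q f l).swap) (k : ZMod 4) (a : ℤ) :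
    Disc Q {f} (Glued Q {f}) [(sd Q f k, a), (sd Q f (k + 1), a + 1), (sd Q f (k + 2), a + 2),
      (sd Q f (k + 3), a + 3)] := by
  refine (Disc.face f k a).complete ?_
  intro x hx
  rintro ⟨g, hg, l, hl⟩
  obtain rfl : g = f := hg
  simp only [List.mem_cons, List.not_mem_nil, or_false] at hx
  rcases hx with rfl | rfl | rfl | rfl
  · exact hf _ _ hl.symm
  · exact hf _ _ hl.symm
  · exact hf _ _ hl.symm
  · exact hf _ _ hl.symm

end General

variable {S T : Set (ℤ × ℤ)} {f g h : ℤ × ℤ}

/-- One step of a chain of adjacent faces of `S`. -/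
def StepS (S : Set (ℤ × ℤ)) (f g : ℤ × ℤ) : Prop := AdjF f g ∧ g ∈ S

/-- Edge connected sets of faces. -/
def ConnS (S : Set (ℤ × ℤ)) : Prop := ∀ f ∈ S, ∀ g ∈ S, ReflTransGen (StepS S) f g

theorem chainS_mem (hf : f ∈ S) (h : ReflTransGen (StepS S) f g) : g ∈ S := by
  induction h with
  | refl => exact hf
  | tail _ h _ => exact h.2

theorem chainS_rev (hf : f ∈ S) (h : ReflTransGen (StepS S) f g) : ReflTransGen (StepS S) g f := by
  induction h with
  | refl => exact ReflTransGen.refl
  | @tail b c h1 h2 ih => exact ReflTransGen.head ⟨h2.1.symm, chainS_mem hf h1⟩ ih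

theorem zq_face (f : ℤ × ℤ) (k l : ZMod 4) : sd ZQ f k ≠ (sd ZQ f l).swap := by
  obtain ⟨x, y⟩ := f
  rcases k4_cases k with rfl | rfl | rfl | rfl <;> rcases k4_cases l with rfl | rfl | rfl | rfl <;>
    simp [sd_ZQ0, sd_ZQ1, sd_ZQ2, sd_ZQ3]

/-- Adjacent faces have a common side. -/
theorem adj_of_sides {F F' : Set (ℤ × ℤ)} {e : (ℤ × ℤ) × (ℤ × ℤ)} (h : e ∈ Sides ZQ F)
    (h' : e.swap ∈ Sides ZQ F') : ∃ f ∈ F, ∃ g ∈ F', AdjF f g := by
  obtain ⟨⟨x, y⟩, hf, k, rfl⟩ := h
  obtain ⟨⟨x', y'⟩, hg, l, hl⟩ := h'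
  refine ⟨_, hf, _, hg, ?_⟩
  rw [adjF_iff]
  rcases k4_cases k with rfl | rfl | rfl | rfl <;> rcases k4_cases l with rfl | rfl | rfl | rfl <;>
    simp only [sd_ZQ0, sd_ZQ1, sd_ZQ2, sd_ZQ3, Prod.swap, Prod.mk.injEq] at hl ⊢ <;> omega

/-- The sides which `T` and the face `(x, y)` have in common. -/
theorem cross_face {x y : ℤ} (ha : (x, y + 1) ∉ T) (hl : (x - 1, y) ∉ T)
    {e : (ℤ × ℤ) × (ℤ × ℤ)} (he : e ∈ Sides ZQ T) (he' : e.swap ∈ Sides ZQ {(x, y)}) :
    (e = ((x + 1, y + 1), (x + 1, y)) ∧ (x + 1, y) ∈ T) ∨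
      (e = ((x + 1, y), (x, y)) ∧ (x, y - 1) ∈ T) := by
  obtain ⟨⟨x', y'⟩, hf, k, rfl⟩ := he
  obtain ⟨g, hg, l, hl'⟩ := he'
  obtain rfl : g = (x, y) := hg
  rcases k4_cases k with rfl | rfl | rfl | rfl <;> rcases k4_cases l with rfl | rfl | rfl | rfl <;>
    simp only [sd_ZQ0, sd_ZQ1, sd_ZQ2, sd_ZQ3, Prod.swap, Prod.mk.injEq] at hl' ⊢
  all_goals first
    | omega
    | (obtain ⟨⟨h1, h2⟩, h3, h4⟩ := hl'
       exfalso; apply ha
       have e1 : (x, y + 1) = (x', y') := by rw [Prod.mk.injEq]; omega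
       rw [e1]; exact hf)
    | (obtain ⟨⟨h1, h2⟩, h3, h4⟩ := hl'
       exfalso; apply hl
       have e1 : (x - 1, y) = (x', y') := by rw [Prod.mk.injEq]; omega
       rw [e1]; exact hf)
    | (obtain ⟨⟨h1, h2⟩, h3, h4⟩ := hl'
       left
       have e1 : (x + 1, y) = (x', y') := by rw [Prod.mk.injEq]; omega
       rw [e1]
       exact ⟨by omega, hf⟩)
    | (obtain ⟨⟨h1, h2⟩, h3, h4⟩ := hl'
       right
       have e1 : (x, y - 1) = (x', y') := by rw [Prod.mk.injEq]; omega
       rw [e1]
       exact ⟨by omega, hf⟩)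

/-- Every face of `S` other than the top left one is joined to one of its two neighbours. -/
theorem conn_cases {x y : ℤ} (ha : (x, y + 1) ∉ S) (hl : (x - 1, y) ∉ S)
    (hg : g ∈ S) (hgf : g ≠ (x, y)) (hc : ReflTransGen (StepS S) g (x, y)) :
    ((x + 1, y) ∈ S ∧ ReflTransGen (StepS (S \ {(x, y)})) g (x + 1, y)) ∨
      ((x, y - 1) ∈ S ∧ ReflTransGen (StepS (S \ {(x, y)})) g (x, y - 1)) := by
  induction hc using ReflTransGen.head_induction_on with
  | refl => exact absurd rfl hgf
  | @head g g' h1 h2 ih =>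
    by_cases h3 : g' = (x, y)
    · subst h3
      have h4 := h1.1.symm
      rw [adjF_iff] at h4
      simp only at h4
      rcases h4 with rfl | rfl | rfl | rfl
      · exact Or.inl ⟨hg, ReflTransGen.refl⟩
      · exact absurd hg hl
      · exact absurd hg ha
      · exact Or.inr ⟨hg, ReflTransGen.refl⟩
    · rcases ih h1.2 h3 with ⟨h4, h5⟩ | ⟨h4, h5⟩
      · exact Or.inl ⟨h4, ReflTransGen.head ⟨h1.1, h1.2, h3⟩ h5⟩
      · exact Or.inr ⟨h4, ReflTransGen.head ⟨h1.1, h1.2, h3⟩ h5⟩

/-- If the diagonal neighbour is missing, the two neighbours of the top left face are not joined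
without it. -/
theorem not_joined {x y : ℤ} (hpot : HasPot S) (ha : (x + 1, y + 1) ∉ S)
    (hR : (x + 1, y) ∈ S) (hBR : (x + 1, y - 1) ∉ S) (hB : (x, y - 1) ∈ S) :
    ¬ ReflTransGen (StepS (S \ {(x, y)})) (x, y - 1) (x + 1, y) := by
  intro hc
  set M : Set UE := {(x + 1, y, false), (x + 1, y + 1, false)} with hM
  obtain ⟨P, hP⟩ := hpot M (by
    intro g hg
    obtain ⟨u, v⟩ := g
    have h1 : ri (u, v) ∉ M := by
      rw [hM]; unfold ri; simp
    have h2 : le' (u, v) ∉ M := by
      rw [hM]; unfold le'; simp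
    unfold EvenAt
    by_cases h3 : (u, v) = (x + 1, y)
    · obtain ⟨rfl, rfl⟩ := Prod.mk.inj h3
      have h4 : bo (x + 1, v) ∈ M := by rw [hM]; unfold bo; simp
      have h5 : to' (x + 1, v) ∈ M := by rw [hM]; unfold to'; simp
      unfold ind2
      rw [if_pos h4, if_neg h1, if_pos h5, if_neg h2]
      decide
    · have h4 : bo (u, v) ∉ M := by
        rw [hM]; unfold bo
        intro h
        simp only [Set.mem_insert_iff, Set.mem_singleton_iff, Prod.mk.injEq, and_true] at h
        rcases h with ⟨h5, h6⟩ | ⟨h5, h6⟩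
        · exact h3 (by rw [h5, h6])
        · apply ha; rw [← h5, ← h6]; exact hg
      have h5 : to' (u, v) ∉ M := by
        rw [hM]; unfold to'
        intro h
        simp only [Set.mem_insert_iff, Set.mem_singleton_iff, Prod.mk.injEq, and_true] at h
        rcases h with ⟨h5, h6⟩ | ⟨h5, h6⟩
        · apply hBR
          have : (x + 1, y - 1) = (u, v) := by rw [Prod.mk.injEq]; omega
          rw [this]; exact hg
        · exact h3 (by rw [Prod.mk.injEq]; omega)
      unfold ind2
      rw [if_neg h4, if_neg h1, if_neg h5, if_neg h2]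
      decide)
  -- the chain before it reaches the right neighbour
  have key : ∀ g, ReflTransGen (StepS (S \ {(x, y)})) (x, y - 1) g →
      (ReflTransGen (StepS ((S \ {(x, y)}) \ {(x + 1, y)})) (x, y - 1) g ∧ g ≠ (x + 1, y)) ∨
        ∃ h, ReflTransGen (StepS ((S \ {(x, y)}) \ {(x + 1, y)})) (x, y - 1) h ∧
          AdjF h (x + 1, y) ∧ h ≠ (x + 1, y) := by
    intro g hg
    induction hg with
    | refl => exact Or.inl ⟨ReflTransGen.refl, by simp⟩
    | @tail b c h1 h2 ih =>
      rcases ih with ⟨h3, h4⟩ | h3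
      · by_cases h5 : c = (x + 1, y)
        · subst h5
          exact Or.inr ⟨b, h3, h2.1, h4⟩
        · exact Or.inl ⟨h3.tail ⟨h2.1, h2.2, h5⟩, h5⟩
      · exact Or.inr h3
  rcases key _ hc with ⟨-, h1⟩ | ⟨h, h1, h2, h3⟩
  · exact h1 rfl
  have hcor : ∀ g, ReflTransGen (StepS ((S \ {(x, y)}) \ {(x + 1, y)})) (x, y - 1) g →
      g ∈ S ∧ g ≠ (x, y) ∧ g ≠ (x + 1, y) ∧ P g = P (x + 1, y) ∧ P (g.1 + 1, g.2) = P (x + 1, y) ∧
        P (g.1 + 1, g.2 + 1) = P (x + 1, y) ∧ P (g.1, g.2 + 1) = P (x + 1, y) := by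
    have hface : ∀ g ∈ S, g ≠ (x + 1, y) → P g = P (g.1 + 1, g.2) ∧
        P (g.1 + 1, g.2) = P (g.1 + 1, g.2 + 1) ∧ P (g.1, g.2 + 1) = P (g.1 + 1, g.2 + 1) := by
      rintro ⟨u, v⟩ hg hne
      have i1 := hP (u, v) hg (bo (u, v)) (Or.inl rfl)
      have i2 := hP (u, v) hg (ri (u, v)) (Or.inr (Or.inr (Or.inr rfl)))
      have i3 := hP (u, v) hg (to' (u, v)) (Or.inr (Or.inr (Or.inl rfl)))
      have j1 : bo (u, v) ∉ M := by
        rw [hM]; unfold bo
        intro h
        simp only [Set.mem_insert_iff, Set.mem_singleton_iff, Prod.mk.injEq, and_true] at h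
        rcases h with ⟨h5, h6⟩ | ⟨h5, h6⟩
        · exact hne (by rw [h5, h6])
        · apply ha; rw [← h5, ← h6]; exact hg
      have j2 : ri (u, v) ∉ M := by
        rw [hM]; unfold ri; simp
      have j3 : to' (u, v) ∉ M := by
        rw [hM]; unfold to'
        intro h
        simp only [Set.mem_insert_iff, Set.mem_singleton_iff, Prod.mk.injEq, and_true] at h
        rcases h with ⟨h5, h6⟩ | ⟨h5, h6⟩
        · apply hBR
          have : (x + 1, y - 1) = (u, v) := by rw [Prod.mk.injEq]; omega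
          rw [this]; exact hg
        · exact hne (by rw [Prod.mk.injEq]; omega)
      refine ⟨?_, ?_, ?_⟩
      · by_contra h; exact j1 (i1.2 h)
      · by_contra h; exact j2 (i2.2 h)
      · by_contra h; exact j3 (i3.2 h)
    intro g hg
    induction hg with
    | refl =>
      have h4 := hface (x, y - 1) hB (by simp)
      simp only [sub_add_cancel] at h4 ⊢
      refine ⟨hB, by simp, by simp, ?_, ?_, trivial, h4.2.2⟩
      · rw [h4.1, h4.2.1]
      · rw [h4.2.1]
    | @tail b c h4 h5 ih =>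
      obtain ⟨hb, -, hb3, b1, b2, b3, b4⟩ := ih
      have hcS : c ∈ S := h5.2.1.1
      have hc2 : c ≠ (x, y) := h5.2.1.2
      have hc3 : c ≠ (x + 1, y) := h5.2.2
      obtain ⟨c1, c2, c3⟩ := hface c hcS hc3
      refine ⟨hcS, hc2, hc3, ?_⟩
      have h6 := h5.1
      rw [adjF_iff] at h6
      obtain ⟨b1', b2'⟩ := b
      simp only at b1 b2 b3 b4 h6
      rcases h6 with rfl | rfl | rfl | rfl
      · -- right
        simp only at c1 c2 c3 ⊢
        have d1 : P (b1' + 1, b2') = P (x + 1, y) := b2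
        exact ⟨d1, by rw [← c1, d1], by rw [← c2, ← c1, d1], by rw [c3, ← c2, ← c1, d1]⟩
      · simp only [sub_add_cancel] at c1 c2 c3 ⊢
        have d1 : P (b1', b2') = P (x + 1, y) := b1
        exact ⟨by rw [c1, d1], d1, by rw [← c2, d1], by rw [c3, ← c2, d1]⟩
      · simp only at c1 c2 c3 ⊢
        have d1 : P (b1', b2' + 1) = P (x + 1, y) := b4
        exact ⟨d1, by rw [← c1, d1], by rw [← c2, ← c1, d1], by rw [c3, ← c2, ← c1, d1]⟩
      · simp only [sub_add_cancel] at c1 c2 c3 ⊢
        have d1 : P (b1', b2') = P (x + 1, y) := b1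
        exact ⟨by rw [c1, c2, ← c3, d1], by rw [c2, ← c3, d1], by rw [← c3, d1], d1⟩
  obtain ⟨h4, h5, -, h6, -⟩ := hcor h h1
  have h7 := h2.symm
  rw [adjF_iff] at h7
  simp only at h7
  have h8 : h = (x + 1 + 1, y) := by
    rcases h7 with h7 | h7 | h7 | h7
    · exact h7
    · exfalso; apply h5; rw [h7]; simp
    · exfalso; apply ha; rw [← h7]; exact h4
    · exfalso; apply hBR; rw [← h7]; exact h4
  rw [h8] at h6
  have h9 := (hP (x + 1, y) hR (bo (x + 1, y)) (Or.inl rfl)).1 (by rw [hM]; unfold bo; simp)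
  apply h9
  unfold ua ub bo
  simp only
  rw [← h6]
  rfl

theorem exists_topleft (hS : S.Finite) (hne : S.Nonempty) :
    ∃ f ∈ S, ∀ g ∈ S, g.2 < f.2 ∨ (g.2 = f.2 ∧ f.1 ≤ g.1) := by
  obtain ⟨f, hf, h⟩ := Set.exists_max_image S (fun f : ℤ × ℤ => toLex (f.2, -f.1)) hS hne
  refine ⟨f, hf, fun g hg => ?_⟩
  have h1 := h g hg
  rw [Prod.Lex.le_iff] at h1
  rcases h1 with h1 | ⟨h1, h2⟩
  · exact Or.inl h1
  · right
    simp only [ofLex_toLex] at h1 h2
    exact ⟨h1, by omega⟩

theorem connS_of_center {c : ℤ × ℤ} (h : ∀ g ∈ T, ReflTransGen (StepS T) g c) : ConnS T :=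
  fun f hf g hg => (h f hf).trans (chainS_rev hg (h g hg))

/-- SHELLING: finite edge connected sets of faces without holes are discs. -/
theorem esc_disc_aux (n : ℕ) : ∀ S : Set (ℤ × ℤ), S.Finite → S.Nonempty → S.ncard = n →
    ConnS S → Esc S → ∃ w, Disc ZQ S (Glued ZQ S) w := by
  induction n using Nat.strong_induction_on with
  | _ n ih =>
  intro S hfin hne hcard hconn hesc
  obtain ⟨⟨x, y⟩, hf, htop⟩ := exists_topleft hfin hne
  simp only at htop
  have ha : (x, y + 1) ∉ S := fun h => by have := htop _ h; simp only at this; omega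
  have hl : (x - 1, y) ∉ S := fun h => by have := htop _ h; simp only at this; omega
  have haR : (x + 1, y + 1) ∉ S := fun h => by have := htop _ h; simp only at this; omega
  set T : Set (ℤ × ℤ) := S \ {(x, y)} with hT
  have hTS : T ⊆ S := Set.sdiff_subset
  have hfT : (x, y) ∉ T := fun h => h.2 rfl
  have hST : T ∪ {(x, y)} = S := by
    rw [hT, Set.sdiff_union_self]
    exact Set.union_eq_self_of_subset_right (Set.singleton_subset_iff.2 hf)
  have hTfin : T.Finite := hfin.subset hTS
  have hcardT : T.ncard < n := by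
    rw [← hcard, hT]
    exact Set.ncard_sdiff_singleton_lt_of_mem hf hfin
  have hsub : ∀ C ⊆ T, C.ncard < n := fun C hC => (Set.ncard_le_ncard hC hTfin).trans_lt hcardT
  have hescT : Esc T := by
    refine hesc.sub hTS ?_
    intro g hg hgT
    obtain rfl : g = (x, y) := by
      by_contra h
      exact hgT ⟨hg, h⟩
    exact ⟨(x, y + 1), ha, ReflTransGen.single ⟨adjF_up x y, fun h => ha (hTS h)⟩⟩
  have hface : ∃ w, Disc ZQ {(x, y)} (Glued ZQ {(x, y)}) w := ⟨_, disc_face (zq_face (x, y)) 0 0⟩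
  have hreach : ∀ g ∈ T, ((x + 1, y) ∈ S ∧ ReflTransGen (StepS T) g (x + 1, y)) ∨
      ((x, y - 1) ∈ S ∧ ReflTransGen (StepS T) g (x, y - 1)) := fun g hg =>
    conn_cases ha hl (hTS hg) (fun h => hfT (h ▸ hg)) (hconn g (hTS hg) _ hf)
  have hdT : Disjoint T {(x, y)} := Set.disjoint_singleton_right.2 hfT
  have hyy : y - 1 + 1 = y := by ring
  by_cases hR : (x + 1, y) ∈ S
  · have hRT : (x + 1, y) ∈ T := ⟨hR, by simp⟩
    have heR : ((x + 1, y + 1), (x + 1, y)) ∈ Sides ZQ T := ⟨(x + 1, y), hRT, 3, rfl⟩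
    by_cases hB : (x, y - 1) ∈ S
    · have hBT : (x, y - 1) ∈ T := ⟨hB, by simp⟩
      have heB : ((x + 1, y), (x, y)) ∈ Sides ZQ T :=
        ⟨(x, y - 1), hBT, 2, by rw [sd_ZQ2, hyy]⟩
      by_cases hBR : (x + 1, y - 1) ∈ S
      · -- the diagonal neighbour belongs to `S`
        have hBRT : (x + 1, y - 1) ∈ T := ⟨hBR, by simp⟩
        have hBtoR : ReflTransGen (StepS T) (x, y - 1) (x + 1, y) := by
          refine (ReflTransGen.single ⟨adjF_right x (y - 1), hBRT⟩).tail ⟨?_, hRT⟩
          have := adjF_up (x + 1) (y - 1)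
          rwa [hyy] at this
        have hcT : ConnS T := by
          refine connS_of_center (c := (x + 1, y)) ?_
          intro g hg
          rcases hreach g hg with ⟨-, h1⟩ | ⟨-, h1⟩
          · exact h1
          · exact h1.trans hBtoR
        obtain ⟨w, hw⟩ := ih T.ncard hcardT T hTfin ⟨_, hRT⟩ rfl hcT hescT
        have hn1 : ((x + 1, y + 1), (x + 1, y)).swap ∉ Sides ZQ T := by
          rintro ⟨g, hg, k, hk⟩
          have h1 : sd ZQ (x, y) 1 = sd ZQ g k := hk
          rw [← (sd_inj h1).1] at hg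
          exact hfT hg
        have hn2 : ((x + 1, y), (x, y)).swap ∉ Sides ZQ T := by
          rintro ⟨g, hg, k, hk⟩
          have h1 : sd ZQ (x, y) 0 = sd ZQ g k := hk
          rw [← (sd_inj h1).1] at hg
          exact hfT hg
        have hg2 : ((x + 1, y), (x, y)) ∉ Glued ZQ T := fun h => hn2 h.2
        have hmem := hw.mem_of_bd heR hn1
        obtain ⟨⟨e1, a⟩, h2, h3⟩ := List.mem_map.1 hmem
        simp only at h3
        subst h3
        obtain ⟨u, v, huv⟩ := List.append_of_mem h2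
        have hnx : Nx0 ZQ T (Glued ZQ T) (((x + 1, y + 1), (x + 1, y)), a)
            (((x + 1, y), (x, y)), a - 1) := by
          refine ⟨(x + 1, y), hRT, 3, rfl, ?_⟩
          have s1 : sd ZQ (x + 1, y) (3 + 1) = ((x + 1, y), (x + 1 + 1, y)) := rfl
          have s2 : sd ZQ (x + 1, y - 1) (2 + 1) = ((x + 1, y), (x + 1, y - 1)) := by
            have : sd ZQ (x + 1, y - 1) (2 + 1) = ((x + 1, y - 1 + 1), (x + 1, y - 1)) := rfl
            rw [this, hyy]
          have s3 : sd ZQ (x, y - 1) (1 + 1) = ((x + 1, y), (x, y)) := by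
            have : sd ZQ (x, y - 1) (1 + 1) = ((x + 1, y - 1 + 1), (x, y - 1 + 1)) := rfl
            rw [this, hyy]
          have t1 : ((x + 1, y), (x + 1 + 1, y)).swap = sd ZQ (x + 1, y - 1) 2 := by
            rw [sd_ZQ2, hyy]; rfl
          have t2 : ((x + 1, y), (x + 1, y - 1)).swap = sd ZQ (x, y - 1) 1 := by
            rw [sd_ZQ1, hyy]; rfl
          rw [s1]
          refine Ar.step (f := (x + 1, y - 1)) (k := 2) ⟨⟨_, hRT, 0, rfl⟩, ⟨_, hBRT, 2, t1⟩⟩
            hBRT t1 ?_
          rw [s2]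
          refine Ar.step (f := (x, y - 1)) (k := 1) ⟨⟨_, hBRT, 3, s2.symm⟩, ⟨_, hBT, 1, t2⟩⟩
            hBT t2 ?_
          rw [s3]
          have e4 : a + 1 - 1 - 1 = a - 1 := by ring
          simp only [e4]
          exact Ar.refl _
        have hadj : ∃ u2 v2 : List (((ℤ × ℤ) × (ℤ × ℤ)) × ℤ), Disc ZQ T (Glued ZQ T)
            (u2 ++ ([(((x + 1, y + 1), (x + 1, y)), a), (((x + 1, y), (x, y)), a - 1)] ++ v2)) := by
          rcases v with _ | ⟨z, v2⟩
          · rcases u with _ | ⟨z, u2⟩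
            · exfalso
              rw [huv, List.nil_append] at hw
              have h4 := hw.cyc.2 _ _ [] _ rfl rfl
              have h5 : (((x + 1, y + 1), (x + 1, y)) : (ℤ × ℤ) × (ℤ × ℤ)) ∉ Glued ZQ T :=
                fun h => hn1 h.2
              have h6 := hnx.unique hg2 h4 h5
              have := congrArg Prod.snd h6
              simp only at this
              omega
            · rw [huv] at hw
              have h4 := hw.cyc.2 z (u2 ++ [(((x + 1, y + 1), (x + 1, y)), a)]) (z :: u2) _ rfl rfl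
              have h5 : z.1 ∉ Glued ZQ T := hw.inv.notG z.1 (by simp)
              have h6 := hnx.unique hg2 h4 h5
              have h7 : Disc ZQ T (Glued ZQ T) ((z.1, z.2) ::
                  (u2 ++ [(((x + 1, y + 1), (x + 1, y)), a)])) := hw
              have h8 := Disc.rot h7
              rw [← h6] at h8
              exact ⟨u2, [], h8.cast rfl rfl (by simp)⟩
          · rw [huv] at hw
            have h4 := hw.cyc.1 u _ z v2 rfl
            have h5 : z.1 ∉ Glued ZQ T := hw.inv.notG z.1 (by simp)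
            have h6 := hnx.unique hg2 h4 h5
            rw [← h6] at hw
            exact ⟨u, v2, hw.cast rfl rfl (by simp)⟩
        obtain ⟨u2, v2, hD⟩ := hadj
        have h9 := disc_face (zq_face (x, y)) 0 (a - 3)
        have h10 : [(sd ZQ (x, y) 0, a - 3), (sd ZQ (x, y) (0 + 1), a - 3 + 1),
            (sd ZQ (x, y) (0 + 2), a - 3 + 2), (sd ZQ (x, y) (0 + 3), a - 3 + 3)] =
            [] ++ (rvw [(((x + 1, y + 1), (x + 1, y)), a), (((x + 1, y), (x, y)), a - 1)] ++
              [(sd ZQ (x, y) (0 + 2), a - 3 + 2), (sd ZQ (x, y) (0 + 3), a - 3 + 3)]) := by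
          have e1 : a - 1 - 2 = a - 3 := by ring
          have e2 : a - 3 + 1 = a - 2 := by ring
          simp only [rvw, flp, List.map_cons, List.map_nil, List.reverse_cons, List.reverse_nil,
            List.nil_append, List.cons_append, e1, e2]
          rfl
        rw [h10] at h9
        have h11 := Disc.pasteC hD h9 (by simp) hdT ?_
        · rw [hST] at h11
          exact ⟨_, h11⟩
        · intro e he he'
          rcases cross_face (T := T) (fun h => ha (hTS h)) (fun h => hl (hTS h)) he he' with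
            ⟨rfl, -⟩ | ⟨rfl, -⟩
          · simp
          · simp
      · -- the diagonal neighbour is missing
        have hnj := not_joined (hesc.hasPot' hfin) haR hR hBR hB
        rw [← hT] at hnj
        set C1 : Set (ℤ × ℤ) := {g | g ∈ T ∧ ReflTransGen (StepS T) g (x + 1, y)} with hC1
        set C2 : Set (ℤ × ℤ) := {g | g ∈ T ∧ ¬ ReflTransGen (StepS T) g (x + 1, y)} with hC2
        have h1T : C1 ⊆ T := fun g hg => hg.1
        have h2T : C2 ⊆ T := fun g hg => hg.1
        have hRC : (x + 1, y) ∈ C1 := ⟨hRT, ReflTransGen.refl⟩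
        have hBC : (x, y - 1) ∈ C2 := ⟨hBT, hnj⟩
        have hcon1 : ConnS C1 := by
          refine connS_of_center (c := (x + 1, y)) ?_
          rintro g ⟨hg, hc⟩
          induction hc using ReflTransGen.head_induction_on with
          | refl => exact ReflTransGen.refl
          | @head g g' h1 h2 ih2 => exact ReflTransGen.head ⟨h1.1, h1.2, h2⟩ (ih2 h1.2)
        have hcon2 : ConnS C2 := by
          refine connS_of_center (c := (x, y - 1)) ?_
          rintro g ⟨hg, hc⟩
          rcases hreach g hg with ⟨-, h1⟩ | ⟨-, h1⟩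
          · exact absurd h1 hc
          · induction h1 using ReflTransGen.head_induction_on with
            | refl => exact ReflTransGen.refl
            | @head g g' h1 h2 ih2 =>
              have h3 : ¬ ReflTransGen (StepS T) g' (x + 1, y) := fun h =>
                hc (ReflTransGen.head h1 h)
              exact ReflTransGen.head ⟨h1.1, h1.2, h3⟩ (ih2 h1.2 h3)
        obtain ⟨a0, a1, b0, b1, hb⟩ := exists_RF hTfin
        have hadj12 : ∀ f ∈ C1, ∀ g ∈ T, AdjF f g → g ∈ C1 := fun f hf1 g hg had =>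
          ⟨hg, ReflTransGen.head ⟨had.symm, hf1.1⟩ hf1.2⟩
        have hadj22 : ∀ f ∈ C2, ∀ g ∈ T, AdjF f g → g ∈ C2 := fun f hf1 g hg had =>
          ⟨hg, fun h => hf1.2 (ReflTransGen.head ⟨had, hg⟩ h)⟩
        have he1 : Esc C1 := hescT.component h1T hb hadj12
        have he2 : Esc C2 := hescT.component h2T hb hadj22
        have hd1 := ih C1.ncard (hsub C1 h1T) C1 (hTfin.subset h1T) ⟨_, hRC⟩ rfl hcon1 he1
        have hd2 := ih C2.ncard (hsub C2 h2T) C2 (hTfin.subset h2T) ⟨_, hBC⟩ rfl hcon2 he2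
        have h12 : Disjoint C2 C1 := by
          rw [Set.disjoint_left]
          exact fun g h h' => h.2 h'.2
        have hD1 : ∃ w, Disc ZQ (C1 ∪ {(x, y)}) (Glued ZQ (C1 ∪ {(x, y)})) w := by
          refine disc_attach (e := ((x + 1, y + 1), (x + 1, y))) hd1 hface
            (Set.disjoint_singleton_right.2 fun h => hfT (h1T h)) ⟨(x + 1, y), hRC, 3, rfl⟩
            ⟨(x, y), rfl, 1, rfl⟩ ?_
          intro e' h1 h2
          rcases cross_face (T := C1) (fun h => ha (hTS (h1T h))) (fun h => hl (hTS (h1T h)))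
            h1 h2 with ⟨h3, -⟩ | ⟨-, h3⟩
          · exact h3
          · exact absurd h3.2 hnj
        have hD2 : ∃ w, Disc ZQ (C2 ∪ (C1 ∪ {(x, y)})) (Glued ZQ (C2 ∪ (C1 ∪ {(x, y)}))) w := by
          refine disc_attach (e := ((x + 1, y), (x, y))) hd2 hD1 ?_
            ⟨(x, y - 1), hBC, 2, by rw [sd_ZQ2, hyy]⟩ ?_ ?_
          · rw [Set.disjoint_union_right]
            exact ⟨h12, Set.disjoint_singleton_right.2 fun h => hfT (h2T h)⟩
          · rw [sides_union]
            exact Or.inr ⟨(x, y), rfl, 0, rfl⟩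
          · intro e' h1 h2
            rw [sides_union] at h2
            rcases h2 with h2 | h2
            · obtain ⟨p, hp, q, hq, hpq⟩ := adj_of_sides h1 h2
              exact absurd (hadj22 p hp q (h1T hq) hpq) fun h =>
                Set.disjoint_left.1 h12 h hq
            · rcases cross_face (T := C2) (fun h => ha (hTS (h2T h))) (fun h => hl (hTS (h2T h)))
                h1 h2 with ⟨-, h3⟩ | ⟨h3, -⟩
              · exact absurd ReflTransGen.refl h3.2
              · exact h3
        have hU : C2 ∪ (C1 ∪ {(x, y)}) = S := by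
          rw [← Set.union_assoc, ← hST]
          congr 1
          ext g
          constructor
          · rintro (h | h)
            · exact h.1
            · exact h.1
          · intro h
            by_cases h3 : ReflTransGen (StepS T) g (x + 1, y)
            · exact Or.inr ⟨h, h3⟩
            · exact Or.inl ⟨h, h3⟩
        rwa [hU] at hD2
    · -- only the right neighbour
      have hcT : ConnS T := by
        refine connS_of_center (c := (x + 1, y)) ?_
        intro g hg
        rcases hreach g hg with ⟨-, h1⟩ | ⟨h1, -⟩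
        · exact h1
        · exact absurd h1 hB
      have hd := ih T.ncard hcardT T hTfin ⟨_, hRT⟩ rfl hcT hescT
      have := disc_attach (e := ((x + 1, y + 1), (x + 1, y))) hd hface hdT heR
        ⟨(x, y), rfl, 1, rfl⟩ (by
          intro e' h1 h2
          rcases cross_face (T := T) (fun h => ha (hTS h)) (fun h => hl (hTS h)) h1 h2 with
            ⟨h3, -⟩ | ⟨-, h3⟩
          · exact h3
          · exact absurd (hTS h3) hB)
      rwa [hST] at this
  · by_cases hB : (x, y - 1) ∈ S
    · have hBT : (x, y - 1) ∈ T := ⟨hB, by simp⟩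
      have heB : ((x + 1, y), (x, y)) ∈ Sides ZQ T :=
        ⟨(x, y - 1), hBT, 2, by rw [sd_ZQ2, hyy]⟩
      have hcT : ConnS T := by
        refine connS_of_center (c := (x, y - 1)) ?_
        intro g hg
        rcases hreach g hg with ⟨h1, -⟩ | ⟨-, h1⟩
        · exact absurd h1 hR
        · exact h1
      have hd := ih T.ncard hcardT T hTfin ⟨_, hBT⟩ rfl hcT hescT
      have := disc_attach (e := ((x + 1, y), (x, y))) hd hface hdT heB
        ⟨(x, y), rfl, 0, rfl⟩ (by
          intro e' h1 h2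
          rcases cross_face (T := T) (fun h => ha (hTS h)) (fun h => hl (hTS h)) h1 h2 with
            ⟨-, h3⟩ | ⟨h3, -⟩
          · exact absurd (hTS h3) hR
          · exact h3)
      rwa [hST] at this
    · have hT0 : T = ∅ := by
        rw [Set.eq_empty_iff_forall_notMem]
        intro g hg
        rcases hreach g hg with ⟨h1, -⟩ | ⟨h1, -⟩
        · exact hR h1
        · exact hB h1
      rw [hT0, Set.empty_union] at hST
      rwa [hST] at hface

/-- SHELLING: finite edge connected sets of faces without holes are discs. -/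
theorem esc_disc {S : Set (ℤ × ℤ)} (hfin : S.Finite) (hne : S.Nonempty) (hconn : ConnS S)
    (hesc : Esc S) : ∃ w, Disc ZQ S (Glued ZQ S) w :=
  esc_disc_aux S.ncard S hfin hne rfl hconn hesc

end Pool.Agent.SixB
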