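import Pool.Agent.Lib.SixB.S0Alg

/-!
# 6BD step 0: strands and orientations
-/

set_option autoImplicit false
set_option linter.unusedSectionVars false

namespace Pool.Agent.SixB

open Pool.Agent.Perc.Q Relation

noncomputable section

variable {V Φ : Type} [DecidableEq V] [DecidableEq Φ]
variable {Q : QC V Φ} {F : Finset Φ} {ω : Φ → Bool} {a b : V × V}

theorem Nx.left_mem (h : Nx Q ω (F : Set Φ) a b) : a ∈ dE Q F := by
  obtain ⟨f, hf, k, rfl, -⟩ := h
  exact sd_mem (by exact_mod_cast hf) k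

theorem Nx.right_mem (h : Nx Q ω (F : Set Φ) a b) : b ∈ dE Q F := by
  have := Nx.left_mem h.rev
  exact swap_mem_dE.mp this

/-- no step turns back -/
theorem nx_ne_swap (hQ : NoLoop Q) (h : Nx Q ω (F : Set Φ) a b) : b ≠ a.swap := by
  obtain ⟨f, hf, k, rfl, ⟨-, rfl⟩ | ⟨-, rfl⟩⟩ := h
  · intro hh
    have := congrArg Prod.fst hh
    simp only [Prod.swap] at this
    have h2 := hQ f (k + 1)
    rw [z1] at h2
    exact h2 this.symm
  · intro hh
    have := congrArg Prod.snd hh
    simp only [Prod.swap] at this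
    have h2 := hQ f (k + 3)
    rw [z5] at h2
    exact h2 this

/-- `n` steps of a strand -/
def Nxn (Q : QC V Φ) (ω : Φ → Bool) (F : Finset Φ) : ℕ → V × V → V × V → Prop
  | 0, a, b => a = b
  | n + 1, a, b => ∃ c, Nx Q ω (F : Set Φ) a c ∧ Nxn Q ω F n c b

theorem nxn_snoc (n : ℕ) : ∀ a b, Nxn Q ω F (n + 1) a b ↔ ∃ c, Nxn Q ω F n a c ∧ Nx Q ω (F : Set Φ) c b := by
  induction n with
  | zero =>
    intro a b
    simp [Nxn]
  | succ n ih =>
    intro a b
    constructor
    · rintro ⟨c, h1, h2⟩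
      obtain ⟨d, h3, h4⟩ := (ih c b).mp h2
      exact ⟨d, ⟨c, h1, h3⟩, h4⟩
    · rintro ⟨d, ⟨c, h1, h3⟩, h4⟩
      exact ⟨c, h1, (ih c b).mpr ⟨d, h3, h4⟩⟩

theorem nxn_no_swap (hQ : NoLoop Q) (n : ℕ) : ∀ a ∈ dE Q F, ¬ Nxn Q ω F n a a.swap := by
  induction n using Nat.strong_induction_on with
  | _ n ih =>
    intro a ha h
    match n, ih, h with
    | 0, _, h => exact swap_ne hQ ha h.symm
    | 1, _, h =>
      obtain ⟨c, h1, h2⟩ := h
      have h3 : c = a.swap := h2
      subst h3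
      exact nx_ne_swap hQ h1 rfl
    | n + 2, ih, h =>
      obtain ⟨c, h1, h2⟩ := h
      obtain ⟨d, h3, h4⟩ := (nxn_snoc n c a.swap).mp h2
      have h5 := h4.rev
      rw [Prod.swap_swap] at h5
      have h6 : c = d.swap := h1.unique h5
      have h7 : d = c.swap := by rw [h6, Prod.swap_swap]
      rw [h7] at h3
      exact ih n (by omega) c (Nx.right_mem h1) h3

theorem rtg_nxn (h : ReflTransGen (Nx Q ω (F : Set Φ)) a b) : ∃ n, Nxn Q ω F n a b := by
  induction h with
  | refl => exact ⟨0, rfl⟩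
  | tail _ h2 ih =>
    obtain ⟨n, hn⟩ := ih
    exact ⟨n + 1, (nxn_snoc n _ _).mpr ⟨_, hn, h2⟩⟩

theorem nxn_rtg : ∀ (n : ℕ) (a b : V × V), Nxn Q ω F n a b →
    ReflTransGen (Nx Q ω (F : Set Φ)) a b
  | 0, a, b, h => by
    have : a = b := h
    subst this
    exact ReflTransGen.refl
  | n + 1, a, b, ⟨c, h1, h2⟩ => ReflTransGen.head h1 (nxn_rtg n c b h2)

/-- two members of a strand: one follows the other -/
theorem srel_iff : SRel Q F ω a b ↔ ReflTransGen (Nx Q ω (F : Set Φ)) a b ∨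
    ReflTransGen (Nx Q ω (F : Set Φ)) b a := by
  constructor
  · intro h
    induction h with
    | rel x y h => exact Or.inl (ReflTransGen.single h)
    | refl x => exact Or.inl ReflTransGen.refl
    | symm x y _ ih => exact ih.symm
    | trans x y z _ _ ih1 ih2 =>
      have key : ∀ {x y z : V × V}, ReflTransGen (Nx Q ω (F : Set Φ)) x y →
          ReflTransGen (Nx Q ω (F : Set Φ)) x z →
          ReflTransGen (Nx Q ω (F : Set Φ)) y z ∨ ReflTransGen (Nx Q ω (F : Set Φ)) z y := by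
        intro x y z h1
        induction h1 using ReflTransGen.head_induction_on with
        | refl => exact fun h => Or.inl h
        | head h1 h2 ih =>
          intro h3
          rcases ReflTransGen.cases_head h3 with rfl | ⟨c, h4, h5⟩
          · exact Or.inr (ReflTransGen.head h1 h2)
          · rw [h1.unique h4] at ih
            rw [h4.unique h1] at h5
            rw [h1.unique h4] at h5
            exact ih h5
      have key2 : ∀ {x y z : V × V}, ReflTransGen (Nx Q ω (F : Set Φ)) y x →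
          ReflTransGen (Nx Q ω (F : Set Φ)) z x →
          ReflTransGen (Nx Q ω (F : Set Φ)) y z ∨ ReflTransGen (Nx Q ω (F : Set Φ)) z y := by
        intro x y z h1
        induction h1 with
        | refl => exact fun h => Or.inr h
        | tail h1 h2 ih =>
          intro h3
          rcases ReflTransGen.cases_tail h3 with h | ⟨c, h4, h5⟩
          · rw [← h]; exact Or.inl (h1.tail h2)
          · rw [h5.inj h2] at h4
            exact ih h4
      rcases ih1 with h1 | h1 <;> rcases ih2 with h2 | h2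
      · exact Or.inl (h1.trans h2)
      · exact key2 h1 h2
      · exact key h1 h2
      · exact Or.inr (h2.trans h1)
  · rintro (h | h)
    · induction h with
      | refl => exact EqvGen.refl _
      | tail _ h2 ih => exact EqvGen.trans _ _ _ ih (EqvGen.rel _ _ h2)
    · apply EqvGen.symm
      induction h with
      | refl => exact EqvGen.refl _
      | tail _ h2 ih => exact EqvGen.trans _ _ _ ih (EqvGen.rel _ _ h2)

theorem srel_swap (h : SRel Q F ω a b) : SRel Q F ω a.swap b.swap := by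
  induction h with
  | rel x y h => exact EqvGen.symm _ _ (EqvGen.rel _ _ h.rev)
  | refl x => exact EqvGen.refl _
  | symm x y _ ih => exact EqvGen.symm _ _ ih
  | trans x y z _ _ ih1 ih2 => exact EqvGen.trans _ _ _ ih1 ih2

theorem not_srel_swap (hQ : NoLoop Q) (ha : a ∈ dE Q F) : ¬ SRel Q F ω a a.swap := by
  rw [srel_iff]
  rintro (h | h)
  · obtain ⟨n, hn⟩ := rtg_nxn h
    exact nxn_no_swap hQ n a ha hn
  · obtain ⟨n, hn⟩ := rtg_nxn h
    refine nxn_no_swap (ω := ω) hQ n a.swap (swap_mem_dE.mpr ha) ?_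
    rw [Prod.swap_swap]; exact hn

theorem mem_dst : b ∈ dst Q F ω a ↔ b ∈ dE Q F ∧ SRel Q F ω a b := by
  classical
  unfold dst
  rw [Finset.mem_filter]

theorem self_mem_dst (ha : a ∈ dE Q F) : a ∈ dst Q F ω a := mem_dst.mpr ⟨ha, EqvGen.refl _⟩

theorem dst_eq (h : SRel Q F ω a b) : dst Q F ω a = dst Q F ω b := by
  ext c
  rw [mem_dst, mem_dst]
  exact ⟨fun hh => ⟨hh.1, EqvGen.trans _ _ _ (EqvGen.symm _ _ h) hh.2⟩,
    fun hh => ⟨hh.1, EqvGen.trans _ _ _ h hh.2⟩⟩

theorem mem_dstr {X : Finset (V × V)} : X ∈ dstr Q F ω ↔ ∃ a ∈ dE Q F, dst Q F ω a = X := by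
  unfold dstr
  rw [Finset.mem_image]

theorem rv_rv (X : Finset (V × V)) : rv (rv X) = X := by
  unfold rv
  rw [Finset.image_image]
  simp

theorem mem_rv {X : Finset (V × V)} : a ∈ rv X ↔ a.swap ∈ X := by
  unfold rv
  rw [Finset.mem_image]
  constructor
  · rintro ⟨b, hb, rfl⟩
    rwa [Prod.swap_swap]
  · intro h
    exact ⟨a.swap, h, Prod.swap_swap _⟩

theorem rv_dst : rv (dst Q F ω a) = dst Q F ω a.swap := by
  ext c
  rw [mem_rv, mem_dst, mem_dst, swap_mem_dE]
  constructor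
  · rintro ⟨h1, h2⟩
    have := srel_swap h2
    rw [Prod.swap_swap] at this
    exact ⟨h1, this⟩
  · rintro ⟨h1, h2⟩
    have := srel_swap h2
    rw [Prod.swap_swap] at this
    exact ⟨h1, this⟩

theorem rv_mem_dstr {X : Finset (V × V)} (h : X ∈ dstr Q F ω) : rv X ∈ dstr Q F ω := by
  obtain ⟨a, ha, rfl⟩ := mem_dstr.mp h
  exact mem_dstr.mpr ⟨a.swap, swap_mem_dE.mpr ha, rv_dst.symm⟩

theorem rv_ne {X : Finset (V × V)} (hQ : NoLoop Q) (h : X ∈ dstr Q F ω) : rv X ≠ X := by
  obtain ⟨a, ha, rfl⟩ := mem_dstr.mp h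
  rw [rv_dst]
  intro hh
  have h1 : a ∈ dst Q F ω a.swap := by rw [hh]; exact self_mem_dst ha
  exact not_srel_swap hQ ha (EqvGen.symm _ _ (mem_dst.mp h1).2)

theorem dstr_disj {X Y : Finset (V × V)} (hX : X ∈ dstr Q F ω) (hY : Y ∈ dstr Q F ω)
    (hne : X ≠ Y) : Disjoint X Y := by
  obtain ⟨a, ha, rfl⟩ := mem_dstr.mp hX
  obtain ⟨b, hb, rfl⟩ := mem_dstr.mp hY
  rw [Finset.disjoint_left]
  intro c hc hc'
  apply hne
  exact dst_eq (EqvGen.trans _ _ _ (mem_dst.mp hc).2 (EqvGen.symm _ _ (mem_dst.mp hc').2))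

theorem dstr_of_mem {X : Finset (V × V)} (hX : X ∈ dstr Q F ω) (ha : a ∈ X) :
    a ∈ dE Q F ∧ X = dst Q F ω a := by
  obtain ⟨b, hb, rfl⟩ := mem_dstr.mp hX
  have := mem_dst.mp ha
  exact ⟨this.1, dst_eq this.2⟩

/-- compatible arrow configurations are constant on directed strands -/
theorem cmp_step {α : Finset (V × V)} (hα : α ∈ Arrs Q F) (hc : Cmp Q F ω α)
    (h : Nx Q ω (F : Set Φ) a b) : a ∈ α ↔ b ∈ α := by
  have hα2 := (Finset.mem_filter.mp hα).2
  have hb := Nx.right_mem h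
  obtain ⟨f, hf, k, rfl, ⟨h1, rfl⟩ | ⟨h1, rfl⟩⟩ := h
  · have hf' : f ∈ F := by exact_mod_cast hf
    have h2 := hc f hf' k h1
    have h3 := hα2 _ hb
    have h4 : (Q.c f (k + 2), Q.c f (k + 1)).swap = sd Q f (k + 1) := by
      unfold sd; rw [z1]; rfl
    rw [h4] at h3
    exact h2.trans h3.symm
  · have hf' : f ∈ F := by exact_mod_cast hf
    have h2 := hc f hf' (k + 3) (by rw [ev_add_three, h1])
    have h3 := hα2 _ hb
    have h4 : (Q.c f k, Q.c f (k + 3)).swap = sd Q f (k + 3) := by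
      unfold sd; rw [z5]; rfl
    rw [h4] at h3
    have h5 : sd Q f (k + 3 + 1) = sd Q f k := by rw [z5]
    rw [h5] at h2
    show sd Q f k ∈ α ↔ _
    tauto

theorem cmp_srel {α : Finset (V × V)} (hα : α ∈ Arrs Q F) (hc : Cmp Q F ω α)
    (h : SRel Q F ω a b) : a ∈ α ↔ b ∈ α := by
  induction h with
  | rel x y h => exact cmp_step hα hc h
  | refl x => rfl
  | symm x y _ ih => exact ih.symm
  | trans x y z _ _ ih1 ih2 => exact ih1.trans ih2

theorem sum_compat (g : V × V → ℂ) :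
    ∑ α ∈ (Arrs Q F).filter (Cmp Q F ω), ∏ a ∈ α, g a =
      ∑ A ∈ Secs rv (dstr Q F ω), ∏ X ∈ A, ∏ a ∈ X, g a := by
  symm
  refine Finset.sum_bij' (fun A _ => A.biUnion id)
    (fun α _ => (dstr Q F ω).filter (fun X => X ⊆ α)) ?_ ?_ ?_ ?_ ?_
  · -- maps to compatible configurations
    intro A hA
    obtain ⟨hA1, hA2⟩ := Finset.mem_filter.mp hA
    have hA1 := Finset.mem_powerset.mp hA1
    have hmem : ∀ a ∈ dE Q F, (a ∈ A.biUnion id ↔ dst Q F ω a ∈ A) := by
      intro a ha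
      rw [Finset.mem_biUnion]
      constructor
      · rintro ⟨X, hX, haX⟩
        rw [← (dstr_of_mem (hA1 hX) haX).2]
        exact hX
      · intro h
        exact ⟨_, h, self_mem_dst ha⟩
    have hsub : A.biUnion id ⊆ dE Q F := by
      intro a ha
      obtain ⟨X, hX, haX⟩ := Finset.mem_biUnion.mp ha
      exact (dstr_of_mem (hA1 hX) haX).1
    have hArr : A.biUnion id ∈ Arrs Q F := by
      refine Finset.mem_filter.mpr ⟨Finset.mem_powerset.mpr hsub, ?_⟩
      intro a ha
      rw [hmem a ha, hmem a.swap (swap_mem_dE.mpr ha), ← rv_dst]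
      exact hA2 _ (mem_dstr.mpr ⟨a, ha, rfl⟩)
    refine Finset.mem_filter.mpr ⟨hArr, ?_⟩
    intro f hf k hk
    have h1 := hmem (sd Q f k) (sd_mem hf k)
    have h2 := (Finset.mem_filter.mp hArr).2 (sd Q f (k + 1)) (sd_mem hf (k + 1))
    have hn : Nx Q ω (F : Set Φ) (sd Q f k) (sd Q f (k + 1)).swap := by
      have := Nx.mk_left (Q := Q) (F := (F : Set Φ)) (by exact_mod_cast hf) hk
      unfold sd
      rw [z1]
      exact this
    have h3 := hmem (sd Q f (k + 1)).swap (swap_mem_dE.mpr (sd_mem hf (k + 1)))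
    have h4 : dst Q F ω (sd Q f k) = dst Q F ω (sd Q f (k + 1)).swap := dst_eq (EqvGen.rel _ _ hn)
    rw [← h4, ← h1] at h3
    tauto
  · -- maps to sections
    intro α hα
    obtain ⟨hα1, hα2⟩ := Finset.mem_filter.mp hα
    have hA := (Finset.mem_filter.mp hα1).2
    refine Finset.mem_filter.mpr ⟨Finset.mem_powerset.mpr (Finset.filter_subset _ _), ?_⟩
    intro X hX
    obtain ⟨a, ha, rfl⟩ := mem_dstr.mp hX
    have key : ∀ b ∈ dE Q F, (dst Q F ω b ⊆ α ↔ b ∈ α) := by
      intro b hb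
      constructor
      · intro h
        exact h (self_mem_dst hb)
      · intro h c hc
        exact (cmp_srel hα1 hα2 (mem_dst.mp hc).2).mp h
    rw [rv_dst, Finset.mem_filter, Finset.mem_filter, key a ha, key a.swap (swap_mem_dE.mpr ha)]
    have h1 := hA a ha
    have h2 : dst Q F ω a.swap ∈ dstr Q F ω := mem_dstr.mpr ⟨_, swap_mem_dE.mpr ha, rfl⟩
    tauto
  · -- left inverse
    intro A hA
    obtain ⟨hA1, hA2⟩ := Finset.mem_filter.mp hA
    have hA1 := Finset.mem_powerset.mp hA1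
    ext X
    rw [Finset.mem_filter]
    constructor
    · rintro ⟨h1, h2⟩
      obtain ⟨a, ha, rfl⟩ := mem_dstr.mp h1
      obtain ⟨Y, hY, haY⟩ := Finset.mem_biUnion.mp (h2 (self_mem_dst ha))
      rw [← (dstr_of_mem (hA1 hY) haY).2]
      exact hY
    · intro h
      refine ⟨hA1 h, fun a ha => Finset.mem_biUnion.mpr ⟨X, h, ha⟩⟩
  · -- right inverse
    intro α hα
    obtain ⟨hα1, hα2⟩ := Finset.mem_filter.mp hα
    have hsub := Finset.mem_powerset.mp (Finset.mem_filter.mp hα1).1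
    ext a
    rw [Finset.mem_biUnion]
    constructor
    · rintro ⟨X, hX, haX⟩
      exact (Finset.mem_filter.mp hX).2 haX
    · intro ha
      refine ⟨dst Q F ω a, Finset.mem_filter.mpr ⟨mem_dstr.mpr ⟨a, hsub ha, rfl⟩, ?_⟩,
        self_mem_dst (hsub ha)⟩
      intro c hc
      exact (cmp_srel hα1 hα2 (mem_dst.mp hc).2).mp ha
  · intro A hA
    obtain ⟨hA1, hA2⟩ := Finset.mem_filter.mp hA
    have hA1 := Finset.mem_powerset.mp hA1
    rw [Finset.prod_biUnion]
    · rfl
    · intro X hX Y hY hne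
      exact dstr_disj (hA1 hX) (hA1 hY) hne

/-- **The exact representation**, for every finite set of faces of every complex of quadrangles. -/
theorem Z6_eq (hQ : NoLoop Q) (h : V × V → ℂ) :
    Z6 Q F h = ∑ T ∈ F.powerset, Zs Q F (ind T) h := by
  rw [Z6_expand]
  refine Finset.sum_congr rfl fun T _ => ?_
  rw [sum_compat, secs_sum rv _ _ (dstr Q F (ind T)) rfl (fun X hX => rv_mem_dstr hX)
    (fun X _ => rv_rv X) (fun X hX => rv_ne hQ hX)]
  rfl

end

end Pool.Agent.SixB
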