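import Pool.Agent.Lib.SixB.TopEsc
import Pool.Agent.Lib.SixB.S6Defs

/-!
# Cutting a simple polygon along a slab

`SlabIn D x₁ x₂ w₁ w₂`: the rectangle `[x₁, x₂) × [w₁, w₂)` is contained in `D` and its left and right
neighbours are not in `D`. For `w₁ < s₁ < s₂ < w₂` the slab `S = [x₁, x₂) × [s₁, s₂)` cuts the simple
polygon `D` into two simple polygons: `CUp` (the part of `D \ S` which contains the row above `S`) and
`CLo` (the row below).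
-/

set_option autoImplicit false

namespace Pool.Agent.SixB

open Finset Pool.Agent.Perc Pool.Agent.Perc6

/-- chain of edge adjacent faces of `S` -/
def ECh (S : Set (ℤ × ℤ)) (f g : ℤ × ℤ) : Prop :=
  Relation.ReflTransGen (fun a b => b ∈ S ∧ EAdj a b) f g

theorem EAdj.symm {f g : ℤ × ℤ} (h : EAdj f g) : EAdj g f := by
  obtain ⟨x, y⟩ := f
  rcases h with rfl | rfl | rfl | rfl <;> simp [EAdj]

theorem EAdj.adjF {f g : ℤ × ℤ} (h : EAdj f g) : AdjF f g := adjF_iff.2 h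

theorem ECh.mono {S T : Set (ℤ × ℤ)} (hST : S ⊆ T) {f g : ℤ × ℤ} (h : ECh S f g) : ECh T f g := by
  induction h with
  | refl => exact .refl
  | tail _ h2 ih => exact ih.tail ⟨hST h2.1, h2.2⟩

theorem ECh.trans {S : Set (ℤ × ℤ)} {f g h : ℤ × ℤ} (h1 : ECh S f g) (h2 : ECh S g h) : ECh S f h :=
  Relation.ReflTransGen.trans h1 h2

theorem ECh.mem {S : Set (ℤ × ℤ)} {f g : ℤ × ℤ} (hf : f ∈ S) (h : ECh S f g) : g ∈ S := by
  induction h with
  | refl => exact hf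
  | tail _ h2 _ => exact h2.1

theorem ECh.symm {S : Set (ℤ × ℤ)} {f g : ℤ × ℤ} (hf : f ∈ S) (h : ECh S f g) : ECh S g f := by
  induction h with
  | refl => exact .refl
  | @tail b c hb h2 ih =>
    have hbS : b ∈ S := ECh.mem hf hb
    exact Relation.ReflTransGen.head ⟨hbS, h2.2.symm⟩ ih

theorem ECh.stepC {S : Set (ℤ × ℤ)} {f g : ℤ × ℤ} (h : ECh S f g) :
    Relation.ReflTransGen (StepC Sᶜ) f g := by
  induction h with
  | refl => exact .refl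
  | tail _ h2 ih => exact ih.tail ⟨h2.2.adjF, fun h3 => h3 h2.1⟩

/-- horizontal chains -/
theorem ECh.row {S : Set (ℤ × ℤ)} {x y : ℤ} : ∀ n : ℕ, (∀ k : ℤ, 0 < k → k ≤ n → (x + k, y) ∈ S) →
    ECh S (x, y) (x + n, y) := by
  intro n
  induction n with
  | zero => intro _; simpa [ECh] using Relation.ReflTransGen.refl
  | succ n ih =>
    intro h
    refine (ih fun k h1 h2 => h k h1 (by push_cast; omega)).tail ⟨h _ (by positivity) le_rfl, ?_⟩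
    left
    push_cast
    rw [Prod.mk.injEq]
    exact ⟨by ring, rfl⟩

/-- vertical chains -/
theorem ECh.col {S : Set (ℤ × ℤ)} {x y : ℤ} : ∀ n : ℕ, (∀ k : ℤ, 0 < k → k ≤ n → (x, y + k) ∈ S) →
    ECh S (x, y) (x, y + n) := by
  intro n
  induction n with
  | zero => intro _; simpa [ECh] using Relation.ReflTransGen.refl
  | succ n ih =>
    intro h
    refine (ih fun k h1 h2 => h k h1 (by push_cast; omega)).tail ⟨h _ (by positivity) le_rfl, ?_⟩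
    right; right; left
    push_cast
    rw [Prod.mk.injEq]
    exact ⟨rfl, by ring⟩

theorem ECh.row' {S : Set (ℤ × ℤ)} {x x' y : ℤ} (hx : x ≤ x')
    (h : ∀ k : ℤ, x < k → k ≤ x' → (k, y) ∈ S) : ECh S (x, y) (x', y) := by
  obtain ⟨n, hn⟩ := Int.eq_ofNat_of_zero_le (sub_nonneg.2 hx)
  have := ECh.row (S := S) (x := x) (y := y) n fun k h1 h2 => h _ (by omega) (by omega)
  have e : x + (n : ℤ) = x' := by omega
  rwa [e] at this

theorem ECh.col' {S : Set (ℤ × ℤ)} {x y y' : ℤ} (hy : y ≤ y')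
    (h : ∀ k : ℤ, y < k → k ≤ y' → (x, k) ∈ S) : ECh S (x, y) (x, y') := by
  obtain ⟨n, hn⟩ := Int.eq_ofNat_of_zero_le (sub_nonneg.2 hy)
  have := ECh.col (S := S) (x := x) (y := y) n fun k h1 h2 => h _ (by omega) (by omega)
  have e : y + (n : ℤ) = y' := by omega
  rwa [e] at this

/-- chains are bounded -/
theorem ECh.bounded {S : Set (ℤ × ℤ)} {f g : ℤ × ℤ} (h : ECh S f g) :
    ∃ R : ℤ, 0 ≤ R ∧ |f.1| ≤ R ∧ |f.2| ≤ R ∧ ECh (S ∩ {p | |p.1| ≤ R ∧ |p.2| ≤ R}) f g := by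
  induction h with
  | refl =>
    refine ⟨max |f.1| |f.2|, (abs_nonneg _).trans (le_max_left _ _), le_max_left _ _,
      le_max_right _ _, .refl⟩
  | @tail b c hb h2 ih =>
    obtain ⟨R, hR, h3, h4, h5⟩ := ih
    refine ⟨max R (max |c.1| |c.2|), hR.trans (le_max_left _ _), h3.trans (le_max_left _ _),
      h4.trans (le_max_left _ _), ?_⟩
    refine (h5.mono ?_).tail ⟨⟨h2.1, (le_max_left _ _).trans (le_max_right _ _),
      (le_max_right _ _).trans (le_max_right _ _)⟩, h2.2⟩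
    rintro p ⟨hp, hp1, hp2⟩
    exact ⟨hp, hp1.trans (le_max_left _ _), hp2.trans (le_max_left _ _)⟩

/-- the rectangle `[x₁, x₂) × [w₁, w₂)` crosses `D` from wall to wall -/
structure SlabIn (D : Set (ℤ × ℤ)) (x₁ x₂ w₁ w₂ : ℤ) : Prop where
  hx : x₁ < x₂
  sub : ∀ x y, x₁ ≤ x → x < x₂ → w₁ ≤ y → y < w₂ → (x, y) ∈ D
  left : ∀ y, w₁ ≤ y → y < w₂ → (x₁ - 1, y) ∉ D
  right : ∀ y, w₁ ≤ y → y < w₂ → (x₂, y) ∉ D

/-- parity of the vertical column of horizontal unit edges -/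
private theorem parAt_col {x a b : ℤ} (hab : a ≤ b) (k : ℤ × ℤ) :
    parAt {e : UE | e.1 = x ∧ e.2.2 = false ∧ a ≤ e.2.1 ∧ e.2.1 ≤ b} k =
      ind2 (k = (x, a - 1)) + ind2 (k = (x, b)) := by
  obtain ⟨u, v⟩ := k
  unfold parAt bo ri to' le'
  simp only [Set.mem_ofPred_eq, Prod.mk.injEq]
  by_cases h1 : u = x
  · by_cases h2 : a ≤ v ∧ v ≤ b
    · rw [ind2_pos (by simp [h1, h2]), ind2_neg (by simp), ind2_neg (by simp : ¬ (u = x ∧ true = false ∧ a ≤ v ∧ v ≤ b)),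
        ind2_neg (by omega : ¬ (u = x ∧ v = a - 1))]
      by_cases h3 : v = b
      · rw [ind2_neg (by simp; omega), ind2_pos (by simp [h1, h3])]
        decide
      · rw [ind2_pos (by simp; omega), ind2_neg (by simp; omega)]
        decide
    · rw [ind2_neg (by simp; omega), ind2_neg (by simp), ind2_neg (by simp : ¬ (u = x ∧ true = false ∧ a ≤ v ∧ v ≤ b)),
        ind2_neg (by simp; omega : ¬ (u = x ∧ v = b))]
      by_cases h3 : v = a - 1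
      · rw [ind2_pos (by simp; omega), ind2_pos (by simp [h1, h3])]
        decide
      · rw [ind2_neg (by simp; omega), ind2_neg (by simp; omega)]
        decide
  · rw [ind2_neg (by simp [h1]), ind2_neg (by simp), ind2_neg (by simp [h1]), ind2_neg (by simp),
      ind2_neg (by simp [h1]), ind2_neg (by simp [h1])]
    decide

/-- **The slab separates.** -/
theorem slab_sep {D : Set (ℤ × ℤ)} (hD : EConn Dᶜ) {x₁ x₂ w₁ w₂ s₁ s₂ : ℤ} (h : SlabIn D x₁ x₂ w₁ w₂)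
    (h1 : w₁ < s₁) (h2 : s₁ < s₂) (h3 : s₂ < w₂) :
    ¬ ECh (D \ (RF x₁ x₂ s₁ s₂ : Set (ℤ × ℤ))) (x₁, s₂) (x₁, s₁ - 1) := by
  intro hch
  have hx := h.hx
  set E : Set (ℤ × ℤ) := D \ (RF x₁ x₂ s₁ s₂ : Set (ℤ × ℤ)) with hE
  have hmemE : (x₁, s₂) ∈ E := by
    refine ⟨h.sub _ _ le_rfl hx (by omega) h3, ?_⟩
    rw [Finset.mem_coe, mem_RF]; simp only; omega
  have hnot : (x₁, s₂) ∉ Eᶜ := fun h' => h' hmemE
  obtain ⟨-, P, hP, hpar⟩ := chain_toggle (F := Eᶜ) hnot hch.stepC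
  set P' : Set UE := {e : UE | e.1 = x₁ ∧ e.2.2 = false ∧ s₁ ≤ e.2.1 ∧ e.2.1 ≤ s₂} with hP'
  have hpar' := fun k => parAt_col (x := x₁) h2.le k
  -- the wall chain
  have hL : (x₁ - 1, s₁) ∈ Dᶜ := h.left _ (by omega) (by omega)
  have hR : (x₂, s₁) ∈ Dᶜ := h.right _ (by omega) (by omega)
  obtain ⟨R, hR0, hr1, hr2, hc⟩ := ECh.bounded (hD _ hL _ hR : ECh Dᶜ _ _)
  -- potential
  set R' : ℤ := max R (max |x₁| (max |x₂| |s₁|)) with hR'
  have hRR : R ≤ R' := le_max_left _ _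
  have hR1 : |x₁| ≤ R' := (le_max_left _ _).trans (le_max_right _ _)
  have hR2 : |x₂| ≤ R' := (le_max_left _ _).trans ((le_max_right _ _).trans (le_max_right _ _))
  have hR3 : |s₁| ≤ R' := (le_max_right _ _).trans ((le_max_right _ _).trans (le_max_right _ _))
  rw [abs_le] at hR1 hR2 hR3
  obtain ⟨φ, hφ⟩ := hasPot_RF (-R' - 1) (R' + 2) (-R' - 1) (R' + 2) (symmDiff P P') (by
    intro f _
    rw [evenAt_iff, parAt_symmDiff, hpar, hpar']
    generalize ind2 (f = (x₁, s₂)) = p1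
    generalize ind2 (f = (x₁, s₁ - 1)) = p2
    revert p1 p2
    decide)
  -- sides of faces outside `D`
  have hout : ∀ f ∉ D, ∀ a, IsSide f a → a ∉ symmDiff P P' := by
    intro f hf a ha hm
    rw [Set.mem_symmDiff] at hm
    rcases hm with ⟨h4, -⟩ | ⟨h4, -⟩
    · exact hP a h4 f (fun h5 => hf h5.1) ha
    · obtain ⟨ax, ay, b⟩ := a
      obtain ⟨fx, fy⟩ := f
      simp only [hP', Set.mem_ofPred_eq] at h4
      obtain ⟨rfl, rfl, h5, h6⟩ := h4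
      unfold IsSide bo le' to' ri at ha
      simp only [Prod.mk.injEq, reduceCtorEq, and_false, and_true, false_or, or_false] at ha
      apply hf
      rcases ha with ⟨rfl, rfl⟩ | ⟨rfl, rfl⟩
      · exact h.sub _ _ le_rfl hx (by omega) (by omega)
      · exact h.sub _ _ le_rfl hx (by omega) (by omega)
  have hc1 : ∀ f : ℤ × ℤ, f ∉ D → |f.1| ≤ R' → |f.2| ≤ R' →
      φ (f.1, f.2) = φ (f.1 + 1, f.2) ∧ φ (f.1, f.2) = φ (f.1, f.2 + 1) := by
    intro f hf h4 h5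
    rw [abs_le] at h4 h5
    have hfR : f ∈ (RF (-R' - 1) (R' + 2) (-R' - 1) (R' + 2) : Set (ℤ × ℤ)) := by
      rw [Finset.mem_coe, mem_RF]; omega
    have h6 := hφ f hfR (bo f) (Or.inl rfl)
    have h7 := hφ f hfR (le' f) (Or.inr (Or.inl rfl))
    have h8 := hout f hf _ (Or.inl rfl)
    have h9 := hout f hf _ (Or.inr (Or.inl rfl) : IsSide f (le' f))
    constructor
    · by_contra hne
      exact h8 (h6.2 hne)
    · by_contra hne
      exact h9 (h7.2 hne)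
  have hc2 : ∀ f g : ℤ × ℤ, f ∉ D → g ∉ D → EAdj f g → |f.1| ≤ R' → |f.2| ≤ R' → |g.1| ≤ R' →
      |g.2| ≤ R' → φ (f.1, f.2) = φ (g.1, g.2) := by
    intro f g hf hg hfg h4 h5 h6 h7
    have h8 := hc1 f hf h4 h5
    have h9 := hc1 g hg h6 h7
    rcases hfg with rfl | rfl | rfl | rfl
    · exact h8.1
    · have := h9.1
      simp only [sub_add_cancel] at this
      exact this.symm
    · exact h8.2
    · have := h9.2
      simp only [sub_add_cancel] at this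
      exact this.symm
  have hwall : φ (x₁ - 1, s₁) = φ (x₂, s₁) := by
    have : ∀ g, ECh (Dᶜ ∩ {p | |p.1| ≤ R ∧ |p.2| ≤ R}) (x₁ - 1, s₁) g →
        (g ∉ D ∧ |g.1| ≤ R' ∧ |g.2| ≤ R') ∧ φ (x₁ - 1, s₁) = φ (g.1, g.2) := by
      intro g hg
      induction hg with
      | refl => exact ⟨⟨hL, hr1.trans hRR, hr2.trans hRR⟩, rfl⟩
      | @tail b c _ h5 ih =>
        have h6 : c ∉ D ∧ |c.1| ≤ R' ∧ |c.2| ≤ R' :=
          ⟨h5.1.1, h5.1.2.1.trans hRR, h5.1.2.2.trans hRR⟩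
        exact ⟨h6, ih.2.trans (hc2 b c ih.1.1 h6.1 h5.2 ih.1.2.1 ih.1.2.2 h6.2.1 h6.2.2)⟩
    exact (this _ hc).2
  have hwl : φ (x₁ - 1, s₁) = φ (x₁, s₁) := by
    have := (hc1 _ hL (hr1.trans hRR) (hr2.trans hRR)).1
    simpa using this
  -- the row of the slab
  have hrow : ∀ x : ℤ, x₁ ≤ x → x < x₂ →
      ((x, s₁, false) ∈ symmDiff P P' ↔ φ (x, s₁) ≠ φ (x + 1, s₁)) := by
    intro x h4 h5
    have hfR : (x, s₁) ∈ (RF (-R' - 1) (R' + 2) (-R' - 1) (R' + 2) : Set (ℤ × ℤ)) := by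
      rw [Finset.mem_coe, mem_RF]; simp only; omega
    exact hφ _ hfR (bo (x, s₁)) (Or.inl rfl)
  have hnP : ∀ x : ℤ, x₁ ≤ x → x < x₂ → (x, s₁, false) ∉ P := by
    intro x h4 h5 h6
    refine hP _ h6 (x, s₁) (fun h7 => h7.2 ?_) (Or.inl rfl)
    rw [Finset.mem_coe, mem_RF]; simp only; omega
  have hjump : φ (x₁, s₁) ≠ φ (x₁ + 1, s₁) := by
    rw [← hrow x₁ le_rfl hx, Set.mem_symmDiff]
    right
    exact ⟨⟨rfl, rfl, le_rfl, h2.le⟩, hnP _ le_rfl hx⟩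
  have hrest : ∀ n : ℕ, x₁ + 1 + n ≤ x₂ → φ (x₁ + 1, s₁) = φ (x₁ + 1 + n, s₁) := by
    intro n
    induction n with
    | zero => intro _; simp
    | succ n ih =>
      intro h4
      push_cast at h4
      rw [ih (by omega)]
      have h5 := hrow (x₁ + 1 + n) (by omega) (by omega)
      have h6 : (x₁ + 1 + (n : ℤ), s₁, false) ∉ symmDiff P P' := by
        rw [Set.mem_symmDiff]
        rintro (⟨h7, -⟩ | ⟨h7, -⟩)
        · exact hnP _ (by omega) (by omega) h7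
        · have := h7.1
          simp only at this
          omega
      have h7 : φ (x₁ + 1 + n, s₁) = φ (x₁ + 1 + n + 1, s₁) := by
        by_contra hne
        exact h6 (h5.2 hne)
      rw [h7]
      push_cast
      ring_nf
  obtain ⟨n, hn⟩ := Int.eq_ofNat_of_zero_le (by omega : 0 ≤ x₂ - (x₁ + 1))
  have h4 := hrest n (by omega)
  have h5 : x₁ + 1 + (n : ℤ) = x₂ := by omega
  rw [h5] at h4
  exact hjump (by rw [h4, ← hwall, hwl])

/-! ## The two parts -/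

open Classical in
/-- the part of `D \ S` which contains the face `p` -/
noncomputable def part (D S : Finset (ℤ × ℤ)) (p : ℤ × ℤ) : Finset (ℤ × ℤ) :=
  (D \ S).filter fun f => ECh ((D \ S : Finset (ℤ × ℤ)) : Set (ℤ × ℤ)) p f

theorem mem_part {D S : Finset (ℤ × ℤ)} {p f : ℤ × ℤ} :
    f ∈ part D S p ↔ (f ∈ D ∧ f ∉ S) ∧ ECh ((D \ S : Finset (ℤ × ℤ)) : Set (ℤ × ℤ)) p f := by
  classical
  unfold part
  rw [mem_filter, mem_sdiff]

/-- chains from `p` stay in the part -/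
theorem part_chain {D S : Finset (ℤ × ℤ)} {p f : ℤ × ℤ}
    (h : ECh ((D \ S : Finset (ℤ × ℤ)) : Set (ℤ × ℤ)) p f) :
    ECh (part D S p : Set (ℤ × ℤ)) p f := by
  induction h with
  | refl => exact .refl
  | @tail b c hb h2 ih =>
    refine ih.tail ⟨?_, h2.2⟩
    rw [Finset.mem_coe, mem_part]
    have hc : c ∈ D \ S := Finset.mem_coe.1 h2.1
    exact ⟨mem_sdiff.1 hc, hb.tail h2⟩

theorem part_conn {D S : Finset (ℤ × ℤ)} {p : ℤ × ℤ} (hp : p ∈ D \ S) :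
    EConn (part D S p : Set (ℤ × ℤ)) := by
  intro f hf g hg
  have hpp : p ∈ (part D S p : Set (ℤ × ℤ)) := by
    rw [Finset.mem_coe, mem_part]
    exact ⟨mem_sdiff.1 hp, .refl⟩
  rw [Finset.mem_coe, mem_part] at hf hg
  exact (ECh.symm hpp (part_chain hf.2)).trans (part_chain hg.2)

/-- an edge neighbour of a face of the part is in the part, in `S` or outside `D` -/
theorem part_adj {D S : Finset (ℤ × ℤ)} {p f g : ℤ × ℤ} (hf : f ∈ part D S p) (hfg : EAdj f g)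
    (hg : g ∈ D) (hgS : g ∉ S) : g ∈ part D S p := by
  rw [mem_part] at hf ⊢
  refine ⟨⟨hg, hgS⟩, hf.2.tail ⟨?_, hfg⟩⟩
  rw [Finset.mem_coe, mem_sdiff]
  exact ⟨hg, hgS⟩

section

variable {D : Finset (ℤ × ℤ)} {x₁ x₂ w₁ w₂ s₁ s₂ : ℤ}

/-- the slab -/
noncomputable abbrev slab (x₁ x₂ s₁ s₂ : ℤ) : Finset (ℤ × ℤ) := RF x₁ x₂ s₁ s₂

/-- the upper part -/
noncomputable def CUp (D : Finset (ℤ × ℤ)) (x₁ x₂ s₁ s₂ : ℤ) : Finset (ℤ × ℤ) :=
  part D (slab x₁ x₂ s₁ s₂) (x₁, s₂)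

/-- the lower part -/
noncomputable def CLo (D : Finset (ℤ × ℤ)) (x₁ x₂ s₁ s₂ : ℤ) : Finset (ℤ × ℤ) :=
  part D (slab x₁ x₂ s₁ s₂) (x₁, s₁ - 1)

theorem slab_sub (h : SlabIn (D : Set (ℤ × ℤ)) x₁ x₂ w₁ w₂) (h1 : w₁ < s₁) (h3 : s₂ < w₂) :
    slab x₁ x₂ s₁ s₂ ⊆ D := by
  intro f hf
  rw [mem_RF] at hf
  exact Finset.mem_coe.1 (h.sub f.1 f.2 hf.1 hf.2.1 (by omega) (by omega))

theorem up_base (h : SlabIn (D : Set (ℤ × ℤ)) x₁ x₂ w₁ w₂) (h1 : w₁ < s₁) (h2 : s₁ < s₂)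
    (h3 : s₂ < w₂) : (x₁, s₂) ∈ D \ slab x₁ x₂ s₁ s₂ := by
  rw [mem_sdiff, mem_RF]
  exact ⟨Finset.mem_coe.1 (h.sub _ _ le_rfl h.hx (by omega) h3), by simp only; omega⟩

theorem lo_base (h : SlabIn (D : Set (ℤ × ℤ)) x₁ x₂ w₁ w₂) (h1 : w₁ < s₁) (h2 : s₁ < s₂)
    (h3 : s₂ < w₂) : (x₁, s₁ - 1) ∈ D \ slab x₁ x₂ s₁ s₂ := by
  rw [mem_sdiff, mem_RF]
  exact ⟨Finset.mem_coe.1 (h.sub _ _ le_rfl h.hx (by omega) (by omega)), by simp only; omega⟩

/-- the rows of the window above the slab belong to the upper part -/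
theorem up_window (h : SlabIn (D : Set (ℤ × ℤ)) x₁ x₂ w₁ w₂) (h1 : w₁ < s₁) (h2 : s₁ < s₂)
    {x y : ℤ} (hx1 : x₁ ≤ x) (hx2 : x < x₂) (hy1 : s₂ ≤ y) (hy2 : y < w₂) :
    (x, y) ∈ CUp D x₁ x₂ s₁ s₂ := by
  have hm : ∀ x y : ℤ, x₁ ≤ x → x < x₂ → s₂ ≤ y → y < w₂ →
      (x, y) ∈ ((D \ slab x₁ x₂ s₁ s₂ : Finset (ℤ × ℤ)) : Set (ℤ × ℤ)) := by
    intro x y h4 h5 h6 h7
    rw [Finset.mem_coe, mem_sdiff, mem_RF]
    exact ⟨Finset.mem_coe.1 (h.sub _ _ h4 h5 (by omega) h7), by simp only; omega⟩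
  rw [CUp, mem_part, ← mem_sdiff]
  refine ⟨Finset.mem_coe.1 (hm x y hx1 hx2 hy1 hy2), ?_⟩
  exact (ECh.row' hx1 fun k h4 h5 => hm k s₂ h4.le (by omega) le_rfl (by omega)).trans
    (ECh.col' hy1 fun k h4 h5 => hm x k hx1 hx2 h4.le (by omega))

/-- the rows of the window below the slab belong to the lower part -/
theorem lo_window (h : SlabIn (D : Set (ℤ × ℤ)) x₁ x₂ w₁ w₂) (h2 : s₁ < s₂)
    (h3 : s₂ < w₂) {x y : ℤ} (hx1 : x₁ ≤ x) (hx2 : x < x₂) (hy1 : w₁ ≤ y) (hy2 : y < s₁) :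
    (x, y) ∈ CLo D x₁ x₂ s₁ s₂ := by
  have hm : ∀ x y : ℤ, x₁ ≤ x → x < x₂ → w₁ ≤ y → y < s₁ →
      (x, y) ∈ ((D \ slab x₁ x₂ s₁ s₂ : Finset (ℤ × ℤ)) : Set (ℤ × ℤ)) := by
    intro x y h4 h5 h6 h7
    rw [Finset.mem_coe, mem_sdiff, mem_RF]
    exact ⟨Finset.mem_coe.1 (h.sub _ _ h4 h5 h6 (by omega)), by simp only; omega⟩
  rw [CLo, mem_part, ← mem_sdiff]
  refine ⟨Finset.mem_coe.1 (hm x y hx1 hx2 hy1 hy2), ?_⟩
  refine (ECh.row' hx1 fun k h4 h5 => hm k (s₁ - 1) h4.le (by omega) (by omega) (by omega)).trans ?_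
  refine ECh.symm (hm x y hx1 hx2 hy1 hy2) ?_
  exact ECh.col' (by omega) fun k h4 h5 => hm x k hx1 hx2 (by omega) (by omega)

theorem up_sub : CUp D x₁ x₂ s₁ s₂ ⊆ D := fun _ hf => (mem_part.1 hf).1.1

theorem lo_sub : CLo D x₁ x₂ s₁ s₂ ⊆ D := fun _ hf => (mem_part.1 hf).1.1

theorem up_slab : Disjoint (CUp D x₁ x₂ s₁ s₂) (slab x₁ x₂ s₁ s₂) :=
  Finset.disjoint_left.2 fun _ hf => (mem_part.1 hf).1.2

theorem lo_slab : Disjoint (CLo D x₁ x₂ s₁ s₂) (slab x₁ x₂ s₁ s₂) :=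
  Finset.disjoint_left.2 fun _ hf => (mem_part.1 hf).1.2

theorem up_lo (hD : EConn ((D : Set (ℤ × ℤ))ᶜ)) (h : SlabIn (D : Set (ℤ × ℤ)) x₁ x₂ w₁ w₂)
    (h1 : w₁ < s₁) (h2 : s₁ < s₂) (h3 : s₂ < w₂) :
    Disjoint (CUp D x₁ x₂ s₁ s₂) (CLo D x₁ x₂ s₁ s₂) := by
  rw [Finset.disjoint_left]
  intro f hf hf'
  rw [CUp, mem_part] at hf
  rw [CLo, mem_part] at hf'
  have h4 := hf.2.trans (ECh.symm (Finset.mem_coe.2 (lo_base h h1 h2 h3)) hf'.2)
  refine slab_sep hD h h1 h2 h3 ?_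
  rwa [Finset.coe_sdiff] at h4

/-- neighbours of the slab in `D` -/
theorem slab_adj (h : SlabIn (D : Set (ℤ × ℤ)) x₁ x₂ w₁ w₂) (h1 : w₁ < s₁) (h2 : s₁ < s₂)
    (h3 : s₂ < w₂) {f g : ℤ × ℤ} (hf : f ∈ slab x₁ x₂ s₁ s₂) (hfg : EAdj f g) (hg : g ∈ D)
    (hgS : g ∉ slab x₁ x₂ s₁ s₂) :
    (f.2 = s₂ - 1 ∧ g = (f.1, s₂) ∧ g ∈ CUp D x₁ x₂ s₁ s₂) ∨
      (f.2 = s₁ ∧ g = (f.1, s₁ - 1) ∧ g ∈ CLo D x₁ x₂ s₁ s₂) := by
  obtain ⟨fx, fy⟩ := f
  rw [mem_RF] at hf hgS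
  simp only at hf
  rcases hfg with rfl | rfl | rfl | rfl
  · exfalso
    simp only at hgS hg
    have h4 : fx + 1 = x₂ := by omega
    rw [h4] at hg
    exact h.right fy (by omega) (by omega) hg
  · exfalso
    simp only at hgS hg
    have h4 : fx = x₁ := by omega
    rw [h4] at hg
    exact h.left fy (by omega) (by omega) hg
  · left
    simp only at hgS hg ⊢
    have h4 : fy = s₂ - 1 := by omega
    have h5 : fy + 1 = s₂ := by omega
    refine ⟨h4, by rw [h5], ?_⟩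
    rw [h5]
    exact up_window h h1 h2 hf.1 hf.2.1 le_rfl h3
  · right
    simp only at hgS hg ⊢
    have h4 : fy = s₁ := by omega
    refine ⟨h4, by rw [h4], ?_⟩
    rw [h4]
    exact lo_window h h2 h3 hf.1 hf.2.1 (by omega) (by omega)

theorem up_slab_lo (hD : EConn (D : Set (ℤ × ℤ))) (h : SlabIn (D : Set (ℤ × ℤ)) x₁ x₂ w₁ w₂)
    (h1 : w₁ < s₁) (h2 : s₁ < s₂) (h3 : s₂ < w₂) :
    CUp D x₁ x₂ s₁ s₂ ∪ slab x₁ x₂ s₁ s₂ ∪ CLo D x₁ x₂ s₁ s₂ = D := by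
  apply Finset.Subset.antisymm
  · intro f hf
    rw [mem_union, mem_union] at hf
    rcases hf with (hf | hf) | hf
    · exact up_sub hf
    · exact slab_sub h h1 h3 hf
    · exact lo_sub hf
  · intro f hf
    have h0 : (x₁, s₁) ∈ slab x₁ x₂ s₁ s₂ := by
      rw [mem_RF]; simp only; have := h.hx; omega
    have hch : ECh (D : Set (ℤ × ℤ)) (x₁, s₁) f :=
      hD _ (Finset.mem_coe.2 (slab_sub h h1 h3 h0)) _ (Finset.mem_coe.2 hf)
    clear hf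
    induction hch with
    | refl => rw [mem_union, mem_union]; exact Or.inl (Or.inr h0)
    | @tail b c _ h4 ih =>
      have hc : c ∈ D := Finset.mem_coe.1 h4.1
      by_cases hcS : c ∈ slab x₁ x₂ s₁ s₂
      · rw [mem_union, mem_union]; exact Or.inl (Or.inr hcS)
      rw [mem_union, mem_union] at ih ⊢
      rcases ih with (hb | hb) | hb
      · exact Or.inl (Or.inl (part_adj hb h4.2 hc hcS))
      · rcases slab_adj h h1 h2 h3 hb h4.2 hc hcS with h5 | h5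
        · exact Or.inl (Or.inl h5.2.2)
        · exact Or.inr h5.2.2
      · exact Or.inr (part_adj hb h4.2 hc hcS)

/-- a subset has no pinch if a face of `D` outside it never has two neighbours in it -/
theorem noPinch_of_cut {D U : Finset (ℤ × ℤ)} (hD : NoPinch D) (hU : U ⊆ D)
    (h : ∀ f ∈ D, f ∉ U → ∀ g ∈ U, ∀ g' ∈ U, EAdj f g → EAdj f g' → g = g') : NoPinch U := by
  intro x y
  constructor
  · rintro ⟨h1, h2, h3, h4⟩
    refine (hD x y).1 ⟨hU h1, hU h2, fun h5 => ?_, fun h5 => ?_⟩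
    · have := h _ h5 h3 _ h1 _ h2 (by left; simp) (by right; right; right; rfl)
      rw [Prod.mk.injEq] at this
      omega
    · have := h _ h5 h4 _ h1 _ h2 (by right; right; left; simp) (by right; left; rfl)
      rw [Prod.mk.injEq] at this
      omega
  · rintro ⟨h1, h2, h3, h4⟩
    refine (hD x y).2 ⟨fun h5 => ?_, fun h5 => ?_, hU h3, hU h4⟩
    · have := h _ h5 h1 _ h3 _ h4 (by right; left; rfl) (by right; right; right; rfl)
      rw [Prod.mk.injEq] at this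
      omega
    · have := h _ h5 h2 _ h3 _ h4 (by right; right; left; simp) (by left; simp)
      rw [Prod.mk.injEq] at this
      omega

/-- a face of the slab has at most one neighbour in the upper part -/
theorem slab_up_unique (hD : EConn ((D : Set (ℤ × ℤ))ᶜ)) (h : SlabIn (D : Set (ℤ × ℤ)) x₁ x₂ w₁ w₂)
    (h1 : w₁ < s₁) (h2 : s₁ < s₂) (h3 : s₂ < w₂) {f g : ℤ × ℤ} (hf : f ∈ slab x₁ x₂ s₁ s₂)
    (hg : g ∈ CUp D x₁ x₂ s₁ s₂) (hfg : EAdj f g) : f.2 = s₂ - 1 ∧ g = (f.1, s₂) := by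
  rcases slab_adj h h1 h2 h3 hf hfg (up_sub hg) (Finset.disjoint_left.1 up_slab hg) with h4 | h4
  · exact ⟨h4.1, h4.2.1⟩
  · exact absurd h4.2.2 (Finset.disjoint_left.1 (up_lo hD h h1 h2 h3) hg)

/-- a face of the slab has at most one neighbour in the lower part -/
theorem slab_lo_unique (hD : EConn ((D : Set (ℤ × ℤ))ᶜ)) (h : SlabIn (D : Set (ℤ × ℤ)) x₁ x₂ w₁ w₂)
    (h1 : w₁ < s₁) (h2 : s₁ < s₂) (h3 : s₂ < w₂) {f g : ℤ × ℤ} (hf : f ∈ slab x₁ x₂ s₁ s₂)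
    (hg : g ∈ CLo D x₁ x₂ s₁ s₂) (hfg : EAdj f g) : f.2 = s₁ ∧ g = (f.1, s₁ - 1) := by
  rcases slab_adj h h1 h2 h3 hf hfg (lo_sub hg) (Finset.disjoint_left.1 lo_slab hg) with h4 | h4
  · exact absurd hg (Finset.disjoint_left.1 (up_lo hD h h1 h2 h3) h4.2.2)
  · exact ⟨h4.1, h4.2.1⟩

/-- the two parts are not adjacent -/
theorem up_lo_adj (hD : EConn ((D : Set (ℤ × ℤ))ᶜ)) (h : SlabIn (D : Set (ℤ × ℤ)) x₁ x₂ w₁ w₂)
    (h1 : w₁ < s₁) (h2 : s₁ < s₂) (h3 : s₂ < w₂) {f g : ℤ × ℤ} (hf : f ∈ CUp D x₁ x₂ s₁ s₂)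
    (hg : g ∈ CLo D x₁ x₂ s₁ s₂) : ¬ EAdj f g := by
  intro hfg
  exact Finset.disjoint_left.1 (up_lo hD h h1 h2 h3)
    (part_adj hf hfg (lo_sub hg) (Finset.disjoint_left.1 lo_slab hg)) hg

/-- the complement of one of the parts is connected -/
theorem part_compl {U L : Finset (ℤ × ℤ)} (hD : MPoly D) (h : SlabIn (D : Set (ℤ × ℤ)) x₁ x₂ w₁ w₂)
    (h1 : w₁ < s₁) (h2 : s₁ < s₂) (h3 : s₂ < w₂) (hU : U ∪ slab x₁ x₂ s₁ s₂ ∪ L = D)
    (hUS : Disjoint U (slab x₁ x₂ s₁ s₂)) (hUL : Disjoint U L) {p : ℤ × ℤ}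
    (hL : ∀ f ∈ L, ECh (L : Set (ℤ × ℤ)) p f) (hpL : p ∈ L) {q : ℤ × ℤ}
    (hq : q ∈ slab x₁ x₂ s₁ s₂) (hpq : EAdj p q) : EConn ((U : Set (ℤ × ℤ))ᶜ) := by
  have hUD : U ⊆ D := by
    intro f hf
    rw [← hU, mem_union, mem_union]
    exact Or.inl (Or.inl hf)
  have hDU : ((D : Set (ℤ × ℤ))ᶜ) ⊆ ((U : Set (ℤ × ℤ))ᶜ) := fun f hf hf' => hf (hUD hf')
  have hSU : ∀ f ∈ slab x₁ x₂ s₁ s₂, f ∈ ((U : Set (ℤ × ℤ))ᶜ) := fun f hf hf' =>
    Finset.disjoint_left.1 hUS hf' hf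
  have hLU : (L : Set (ℤ × ℤ)) ⊆ ((U : Set (ℤ × ℤ))ᶜ) := fun f hf hf' =>
    Finset.disjoint_left.1 hUL hf' hf
  set z : ℤ × ℤ := (x₁ - 1, s₁) with hz
  have hzD : z ∈ ((D : Set (ℤ × ℤ))ᶜ) := h.left _ (by omega) (by omega)
  -- every face of the slab is joined to the wall
  have hS : ∀ f ∈ slab x₁ x₂ s₁ s₂, ECh ((U : Set (ℤ × ℤ))ᶜ) z f := by
    rintro ⟨fx, fy⟩ hf
    rw [mem_RF] at hf
    simp only at hf
    have hm : ∀ x y : ℤ, x₁ ≤ x → x < x₂ → s₁ ≤ y → y < s₂ → (x, y) ∈ ((U : Set (ℤ × ℤ))ᶜ) :=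
      fun x y h4 h5 h6 h7 => hSU _ (by rw [mem_RF]; simp only; omega)
    have h4 : ECh ((U : Set (ℤ × ℤ))ᶜ) z (x₁, s₁) := by
      refine Relation.ReflTransGen.single ⟨hm _ _ le_rfl h.hx le_rfl h2, ?_⟩
      left
      simp [hz]
    refine h4.trans ((ECh.row' hf.1 fun k h5 h6 => hm k s₁ h5.le (by omega) le_rfl h2).trans ?_)
    exact ECh.col' hf.2.2.1 fun k h5 h6 => hm fx k hf.1 hf.2.1 h5.le (by omega)
  have hall : ∀ f ∈ ((U : Set (ℤ × ℤ))ᶜ), ECh ((U : Set (ℤ × ℤ))ᶜ) z f := by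
    intro f hf
    by_cases hfD : f ∈ D
    · rw [← hU, mem_union, mem_union] at hfD
      rcases hfD with (h4 | h4) | h4
      · exact absurd h4 hf
      · exact hS f h4
      · refine (hS q hq).trans ((Relation.ReflTransGen.single ⟨hLU hpL, hpq.symm⟩).trans ?_)
        exact (hL f h4).mono hLU
    · exact ECh.mono hDU (hD.compl z hzD f hfD)
  intro f hf g hg
  exact (ECh.symm (hDU hzD) (hall f hf)).trans (hall g hg)

/-- **The upper part is a simple polygon.** -/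
theorem mpoly_up (hD : MPoly D) (h : SlabIn (D : Set (ℤ × ℤ)) x₁ x₂ w₁ w₂)
    (h1 : w₁ < s₁) (h2 : s₁ < s₂) (h3 : s₂ < w₂) : MPoly (CUp D x₁ x₂ s₁ s₂) := by
  have hx := h.hx
  refine ⟨⟨_, up_window h h1 h2 le_rfl hx le_rfl h3⟩, part_conn (up_base h h1 h2 h3), ?_, ?_⟩
  · refine part_compl (L := CLo D x₁ x₂ s₁ s₂) (p := (x₁, s₁ - 1)) (q := (x₁, s₁)) hD h h1 h2 h3
      (up_slab_lo hD.conn h h1 h2 h3) up_slab (up_lo hD.compl h h1 h2 h3) ?_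
      (lo_window (x := x₁) (y := s₁ - 1) h h2 h3 le_rfl hx (by omega) (by omega)) ?_ ?_
    · intro f hf
      exact part_chain (mem_part.1 hf).2
    · rw [mem_RF]; simp only; omega
    · right; right; left; simp
  · refine noPinch_of_cut hD.noPinch up_sub fun f hf hfU g hg g' hg' hfg hfg' => ?_
    rw [← up_slab_lo hD.conn h h1 h2 h3, mem_union, mem_union] at hf
    rcases hf with (hf | hf) | hf
    · exact absurd hf hfU
    · rw [(slab_up_unique hD.compl h h1 h2 h3 hf hg hfg).2,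
        (slab_up_unique hD.compl h h1 h2 h3 hf hg' hfg').2]
    · exact absurd hfg.symm (up_lo_adj hD.compl h h1 h2 h3 hg hf)

/-- **The lower part is a simple polygon.** -/
theorem mpoly_lo (hD : MPoly D) (h : SlabIn (D : Set (ℤ × ℤ)) x₁ x₂ w₁ w₂)
    (h1 : w₁ < s₁) (h2 : s₁ < s₂) (h3 : s₂ < w₂) : MPoly (CLo D x₁ x₂ s₁ s₂) := by
  have hx := h.hx
  refine ⟨⟨_, lo_window (x := x₁) (y := w₁) h h2 h3 le_rfl hx le_rfl h1⟩, part_conn (lo_base h h1 h2 h3), ?_, ?_⟩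
  · refine part_compl (L := CUp D x₁ x₂ s₁ s₂) (p := (x₁, s₂)) (q := (x₁, s₂ - 1)) hD h h1 h2 h3
      ?_ lo_slab (up_lo hD.compl h h1 h2 h3).symm ?_
      (up_window h h1 h2 le_rfl hx le_rfl h3) ?_ ?_
    · ext f
      have := Finset.ext_iff.1 (up_slab_lo hD.conn h h1 h2 h3) f
      simp only [mem_union] at this ⊢
      tauto
    · intro f hf
      exact part_chain (mem_part.1 hf).2
    · rw [mem_RF]; simp only; omega
    · right; right; right; rfl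
  · refine noPinch_of_cut hD.noPinch lo_sub fun f hf hfU g hg g' hg' hfg hfg' => ?_
    rw [← up_slab_lo hD.conn h h1 h2 h3, mem_union, mem_union] at hf
    rcases hf with (hf | hf) | hf
    · exact absurd hfg (up_lo_adj hD.compl h h1 h2 h3 hf hg)
    · rw [(slab_lo_unique hD.compl h h1 h2 h3 hf hg hfg).2,
        (slab_lo_unique hD.compl h h1 h2 h3 hf hg' hfg').2]
    · exact absurd hf hfU

/-! ## The unions with the slab -/

/-- a connected subset of `D`, all of whose complement in `D` is joined to a face outside `D` -/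
theorem mpoly_of_cut {D U : Finset (ℤ × ℤ)} (hD : MPoly D) (hU : U ⊆ D) {p z : ℤ × ℤ} (hp : p ∈ U)
    (hz : z ∉ D) (hc : ∀ f ∈ U, ECh (U : Set (ℤ × ℤ)) p f)
    (hcc : ∀ f ∈ D, f ∉ U → ECh ((U : Set (ℤ × ℤ))ᶜ) z f)
    (h : ∀ f ∈ D, f ∉ U → ∀ g ∈ U, ∀ g' ∈ U, EAdj f g → EAdj f g' → g = g') : MPoly U := by
  refine ⟨⟨p, hp⟩, fun f hf g hg => ?_, fun f hf g hg => ?_, noPinch_of_cut hD.noPinch hU h⟩
  · exact (ECh.symm (Finset.mem_coe.2 hp) (hc f hf)).trans (hc g hg)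
  · have hDU : ((D : Set (ℤ × ℤ))ᶜ) ⊆ ((U : Set (ℤ × ℤ))ᶜ) := fun f hf hf' => hf (hU hf')
    have hall : ∀ f ∈ ((U : Set (ℤ × ℤ))ᶜ), ECh ((U : Set (ℤ × ℤ))ᶜ) z f := by
      intro f hf
      by_cases hfD : f ∈ D
      · exact hcc f hfD hf
      · exact ECh.mono hDU (hD.compl z hz f hfD)
    exact (ECh.symm (hDU hz) (hall f hf)).trans (hall g hg)

/-- chains in the slab -/
theorem slab_chain {T : Set (ℤ × ℤ)} (hT : ∀ f ∈ slab x₁ x₂ s₁ s₂, f ∈ T) {f : ℤ × ℤ}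
    (hf : f ∈ slab x₁ x₂ s₁ s₂) : ECh T (x₁, s₁) f := by
  obtain ⟨fx, fy⟩ := f
  rw [mem_RF] at hf
  simp only at hf
  have hm : ∀ x y : ℤ, x₁ ≤ x → x < x₂ → s₁ ≤ y → y < s₂ → (x, y) ∈ T :=
    fun x y h4 h5 h6 h7 => hT _ (by rw [mem_RF]; simp only; omega)
  exact (ECh.row' hf.1 fun k h5 h6 => hm k s₁ h5.le (by omega) le_rfl (by omega)).trans
    (ECh.col' hf.2.2.1 fun k h5 h6 => hm fx k hf.1 hf.2.1 h5.le (by omega))

/-- **Upper part with the slab.** -/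
theorem mpoly_up_slab (hD : MPoly D) (h : SlabIn (D : Set (ℤ × ℤ)) x₁ x₂ w₁ w₂)
    (h1 : w₁ < s₁) (h2 : s₁ < s₂) (h3 : s₂ < w₂) :
    MPoly (CUp D x₁ x₂ s₁ s₂ ∪ slab x₁ x₂ s₁ s₂) := by
  have hx := h.hx
  have hsub : ∀ f ∈ slab x₁ x₂ s₁ s₂,
      f ∈ ((CUp D x₁ x₂ s₁ s₂ ∪ slab x₁ x₂ s₁ s₂ : Finset (ℤ × ℤ)) : Set (ℤ × ℤ)) :=
    fun f hf => Finset.mem_coe.2 (mem_union_right _ hf)
  have hbase : (x₁, s₁) ∈ slab x₁ x₂ s₁ s₂ := by rw [mem_RF]; simp only; omega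
  have hup : (x₁, s₂) ∈ CUp D x₁ x₂ s₁ s₂ := up_window h h1 h2 le_rfl hx le_rfl h3
  have hLo : ∀ f ∈ D, f ∉ CUp D x₁ x₂ s₁ s₂ ∪ slab x₁ x₂ s₁ s₂ → f ∈ CLo D x₁ x₂ s₁ s₂ := by
    intro f hf hf'
    rw [← up_slab_lo hD.conn h h1 h2 h3, mem_union] at hf
    exact hf.resolve_left hf'
  have hLU : (CLo D x₁ x₂ s₁ s₂ : Set (ℤ × ℤ)) ⊆
      ((CUp D x₁ x₂ s₁ s₂ ∪ slab x₁ x₂ s₁ s₂ : Finset (ℤ × ℤ)) : Set (ℤ × ℤ))ᶜ := by
    intro f hf hf'
    rcases mem_union.1 (Finset.mem_coe.1 hf') with h4 | h4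
    · exact Finset.disjoint_left.1 (up_lo hD.compl h h1 h2 h3) h4 hf
    · exact Finset.disjoint_left.1 lo_slab hf h4
  refine mpoly_of_cut (p := (x₁, s₁)) (z := (x₁ - 1, s₁ - 1)) hD
    (union_subset up_sub (slab_sub h h1 h3)) (mem_union_right _ hbase)
    (h.left _ (by omega) (by omega)) ?_ ?_ ?_
  · intro f hf
    rw [mem_union] at hf
    rcases hf with hf | hf
    · have h4 : ECh ((CUp D x₁ x₂ s₁ s₂ ∪ slab x₁ x₂ s₁ s₂ : Finset (ℤ × ℤ)) : Set (ℤ × ℤ))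
          (x₁, s₁) (x₁, s₂ - 1) := slab_chain hsub (by rw [mem_RF]; simp only; omega)
      have h5 : ECh ((CUp D x₁ x₂ s₁ s₂ ∪ slab x₁ x₂ s₁ s₂ : Finset (ℤ × ℤ)) : Set (ℤ × ℤ))
          (x₁, s₂ - 1) (x₁, s₂) := by
        refine Relation.ReflTransGen.single ⟨Finset.mem_coe.2 (mem_union_left _ hup), ?_⟩
        right; right; left; simp
      refine h4.trans (h5.trans (ECh.mono ?_ (part_chain (mem_part.1 hf).2)))
      intro g hg
      exact Finset.mem_coe.2 (mem_union_left _ (Finset.mem_coe.1 hg))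
    · exact slab_chain hsub hf
  · intro f hf hf'
    refine (Relation.ReflTransGen.single ⟨hLU (lo_window (x := x₁) (y := s₁ - 1) h h2 h3 le_rfl hx
      (by omega) (by omega)), ?_⟩).trans (ECh.mono hLU (part_chain (mem_part.1 (hLo f hf hf')).2))
    left; simp
  · intro f hf hf' g hg g' hg' hfg hfg'
    have hfL := hLo f hf hf'
    have key : ∀ g ∈ CUp D x₁ x₂ s₁ s₂ ∪ slab x₁ x₂ s₁ s₂, EAdj f g → g = (f.1, s₁) := by
      intro g hg hfg
      rw [mem_union] at hg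
      rcases hg with hg | hg
      · exact absurd hfg.symm (up_lo_adj hD.compl h h1 h2 h3 hg hfL)
      · have h4 := slab_lo_unique hD.compl h h1 h2 h3 hg hfL hfg.symm
        rw [h4.2, ← h4.1]
    rw [key g hg hfg, key g' hg' hfg']

/-- **Lower part with the slab.** -/
theorem mpoly_lo_slab (hD : MPoly D) (h : SlabIn (D : Set (ℤ × ℤ)) x₁ x₂ w₁ w₂)
    (h1 : w₁ < s₁) (h2 : s₁ < s₂) (h3 : s₂ < w₂) :
    MPoly (slab x₁ x₂ s₁ s₂ ∪ CLo D x₁ x₂ s₁ s₂) := by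
  have hx := h.hx
  have hsub : ∀ f ∈ slab x₁ x₂ s₁ s₂,
      f ∈ ((slab x₁ x₂ s₁ s₂ ∪ CLo D x₁ x₂ s₁ s₂ : Finset (ℤ × ℤ)) : Set (ℤ × ℤ)) :=
    fun f hf => Finset.mem_coe.2 (mem_union_left _ hf)
  have hbase : (x₁, s₁) ∈ slab x₁ x₂ s₁ s₂ := by rw [mem_RF]; simp only; omega
  have hlo : (x₁, s₁ - 1) ∈ CLo D x₁ x₂ s₁ s₂ :=
    lo_window (x := x₁) (y := s₁ - 1) h h2 h3 le_rfl hx (by omega) (by omega)
  have hUp : ∀ f ∈ D, f ∉ slab x₁ x₂ s₁ s₂ ∪ CLo D x₁ x₂ s₁ s₂ → f ∈ CUp D x₁ x₂ s₁ s₂ := by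
    intro f hf hf'
    rw [← up_slab_lo hD.conn h h1 h2 h3, union_assoc, mem_union] at hf
    exact hf.resolve_right hf'
  have hUL : (CUp D x₁ x₂ s₁ s₂ : Set (ℤ × ℤ)) ⊆
      ((slab x₁ x₂ s₁ s₂ ∪ CLo D x₁ x₂ s₁ s₂ : Finset (ℤ × ℤ)) : Set (ℤ × ℤ))ᶜ := by
    intro f hf hf'
    rcases mem_union.1 (Finset.mem_coe.1 hf') with h4 | h4
    · exact Finset.disjoint_left.1 up_slab hf h4
    · exact Finset.disjoint_left.1 (up_lo hD.compl h h1 h2 h3) hf h4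
  refine mpoly_of_cut (p := (x₁, s₁)) (z := (x₁ - 1, s₂)) hD
    (union_subset (slab_sub h h1 h3) lo_sub) (mem_union_left _ hbase)
    (h.left _ (by omega) (by omega)) ?_ ?_ ?_
  · intro f hf
    rw [mem_union] at hf
    rcases hf with hf | hf
    · exact slab_chain hsub hf
    · have h5 : ECh ((slab x₁ x₂ s₁ s₂ ∪ CLo D x₁ x₂ s₁ s₂ : Finset (ℤ × ℤ)) : Set (ℤ × ℤ))
          (x₁, s₁) (x₁, s₁ - 1) := by
        refine Relation.ReflTransGen.single ⟨Finset.mem_coe.2 (mem_union_right _ hlo), ?_⟩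
        right; right; right; rfl
      refine h5.trans (ECh.mono ?_ (part_chain (mem_part.1 hf).2))
      intro g hg
      exact Finset.mem_coe.2 (mem_union_right _ (Finset.mem_coe.1 hg))
  · intro f hf hf'
    refine (Relation.ReflTransGen.single ⟨hUL (up_window (x := x₁) (y := s₂) h h1 h2 le_rfl hx
      le_rfl h3), ?_⟩).trans (ECh.mono hUL (part_chain (mem_part.1 (hUp f hf hf')).2))
    left; simp
  · intro f hf hf' g hg g' hg' hfg hfg'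
    have hfU := hUp f hf hf'
    have key : ∀ g ∈ slab x₁ x₂ s₁ s₂ ∪ CLo D x₁ x₂ s₁ s₂, EAdj f g → g = (f.1, s₂ - 1) := by
      intro g hg hfg
      rw [mem_union] at hg
      rcases hg with hg | hg
      · have h4 := slab_up_unique hD.compl h h1 h2 h3 hg hfU hfg.symm
        rw [h4.2, ← h4.1]
      · exact absurd hfg (up_lo_adj hD.compl h h1 h2 h3 hfU hg)
    rw [key g hg hfg, key g' hg' hfg']

/-! ## How the pieces touch -/

/-- faces of `D` outside the slab which touch the slab (by a side or a corner) lie in one of the two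
rows next to it -/
theorem slab_touch (h : SlabIn (D : Set (ℤ × ℤ)) x₁ x₂ w₁ w₂) (h1 : w₁ < s₁) (h2 : s₁ < s₂)
    (h3 : s₂ < w₂) {f g : ℤ × ℤ} (hf : f ∈ slab x₁ x₂ s₁ s₂) (hg : g ∈ D)
    (hgS : g ∉ slab x₁ x₂ s₁ s₂) (hfg1 : |f.1 - g.1| ≤ 1) (hfg2 : |f.2 - g.2| ≤ 1) :
    (g ∈ CUp D x₁ x₂ s₁ s₂ ∧ x₁ ≤ g.1 ∧ g.1 < x₂ ∧ g.2 = s₂ ∧ f.2 = s₂ - 1) ∨
      (g ∈ CLo D x₁ x₂ s₁ s₂ ∧ x₁ ≤ g.1 ∧ g.1 < x₂ ∧ g.2 = s₁ - 1 ∧ f.2 = s₁) := by
  obtain ⟨fx, fy⟩ := f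
  obtain ⟨gx, gy⟩ := g
  rw [mem_RF] at hf hgS
  rw [abs_le] at hfg1 hfg2
  simp only at *
  have h4 : x₁ ≤ gx := by
    by_contra h5
    have h6 : gx = x₁ - 1 := by omega
    rw [h6] at hg
    exact h.left gy (by omega) (by omega) hg
  have h5 : gx < x₂ := by
    by_contra h6
    have h7 : gx = x₂ := by omega
    rw [h7] at hg
    exact h.right gy (by omega) (by omega) hg
  rcases (by omega : gy = s₂ ∨ gy = s₁ - 1) with h6 | h6
  · left
    subst h6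
    exact ⟨up_window h h1 h2 h4 h5 le_rfl h3, h4, h5, rfl, by omega⟩
  · right
    subst h6
    exact ⟨lo_window h h2 h3 h4 h5 (by omega) (by omega), h4, h5, rfl, by omega⟩

/-- the two parts do not touch, not even by corners -/
theorem up_lo_touch (hD : MPoly D) (h : SlabIn (D : Set (ℤ × ℤ)) x₁ x₂ w₁ w₂)
    (h1 : w₁ < s₁) (h2 : s₁ < s₂) (h3 : s₂ < w₂) {f g : ℤ × ℤ} (hf : f ∈ CUp D x₁ x₂ s₁ s₂)
    (hg : g ∈ CLo D x₁ x₂ s₁ s₂) (hfg1 : |f.1 - g.1| ≤ 1) (hfg2 : |f.2 - g.2| ≤ 1) : False := by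
  have hdis := Finset.disjoint_left.1 (up_lo hD.compl h h1 h2 h3)
  -- a common neighbour in `D` is impossible
  have key : ∀ b ∈ D, EAdj b f → EAdj b g → f.1 ≠ g.1 → False := by
    intro b hb hbf hbg hne
    by_cases hbS : b ∈ slab x₁ x₂ s₁ s₂
    · have h4 := slab_up_unique hD.compl h h1 h2 h3 hbS hf hbf
      have h5 := slab_lo_unique hD.compl h h1 h2 h3 hbS hg hbg
      exact hne (by rw [h4.2, h5.2])
    · exact hdis (part_adj hf hbf.symm hb hbS) (part_adj hg hbg.symm hb hbS)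
  obtain ⟨fx, fy⟩ := f
  obtain ⟨gx, gy⟩ := g
  rw [abs_le] at hfg1 hfg2
  simp only at hfg1 hfg2 key
  have hne : ¬ (gx = fx ∧ gy = fy) := by
    rintro ⟨rfl, rfl⟩
    exact hdis hf hg
  have hadj := up_lo_adj hD.compl h h1 h2 h3 hf hg
  unfold EAdj at hadj
  simp only [Prod.mk.injEq, not_or] at hadj
  have hp := hD.noPinch
  rcases (by omega : (gx = fx - 1 ∧ gy = fy - 1) ∨ (gx = fx + 1 ∧ gy = fy + 1) ∨
      (gx = fx - 1 ∧ gy = fy + 1) ∨ (gx = fx + 1 ∧ gy = fy - 1)) with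
    ⟨rfl, rfl⟩ | ⟨rfl, rfl⟩ | ⟨rfl, rfl⟩ | ⟨rfl, rfl⟩
  · refine (hp fx fy).1 ⟨up_sub hf, lo_sub hg, fun h4 => ?_, fun h4 => ?_⟩
    · exact key _ h4 (by left; simp) (by right; right; right; rfl) (by omega)
    · exact key _ h4 (by right; right; left; simp) (by right; left; rfl) (by omega)
  · refine (hp (fx + 1) (fy + 1)).1 ⟨lo_sub hg, by simpa using up_sub hf, fun h4 => ?_,
      fun h4 => ?_⟩
    · simp only [add_sub_cancel_right] at h4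
      exact key _ h4 (by right; right; right; simp) (by left; rfl) (by omega)
    · simp only [add_sub_cancel_right] at h4
      exact key _ h4 (by right; left; simp) (by right; right; left; rfl) (by omega)
  · refine (hp fx (fy + 1)).2 ⟨fun h4 => ?_, fun h4 => ?_, lo_sub hg, by simpa using up_sub hf⟩
    · exact key _ h4 (by right; right; right; simp) (by right; left; rfl) (by omega)
    · simp only [add_sub_cancel_right] at h4
      exact key _ h4 (by left; simp) (by right; right; left; rfl) (by omega)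
  · refine (hp (fx + 1) fy).2 ⟨fun h4 => ?_, fun h4 => ?_, by simpa using up_sub hf, lo_sub hg⟩
    · exact key _ h4 (by right; left; simp) (by right; right; right; rfl) (by omega)
    · simp only [add_sub_cancel_right] at h4
      exact key _ h4 (by right; right; left; simp) (by left; rfl) (by omega)

/-- the sides of the upper part: the sides of `D` at its faces and the mouth -/
theorem up_side (hD : MPoly D) (h : SlabIn (D : Set (ℤ × ℤ)) x₁ x₂ w₁ w₂)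
    (h1 : w₁ < s₁) (h2 : s₁ < s₂) (h3 : s₂ < w₂) {f g : ℤ × ℤ} (hf : f ∈ CUp D x₁ x₂ s₁ s₂)
    (hfg : EAdj f g) : g ∉ CUp D x₁ x₂ s₁ s₂ ↔
      (g ∉ D ∨ (f.2 = s₂ ∧ x₁ ≤ f.1 ∧ f.1 < x₂ ∧ g = (f.1, s₂ - 1))) := by
  constructor
  · intro hg
    by_cases hgD : g ∈ D
    · right
      by_cases hgS : g ∈ slab x₁ x₂ s₁ s₂
      · have h4 := slab_up_unique hD.compl h h1 h2 h3 hgS hf hfg.symm
        rw [mem_RF] at hgS
        rw [h4.2]
        exact ⟨rfl, hgS.1, hgS.2.1, Prod.ext rfl h4.1⟩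
      · exact absurd (part_adj hf hfg hgD hgS) hg
    · exact Or.inl hgD
  · rintro (hg | ⟨-, h4, h5, rfl⟩) hg'
    · exact hg (up_sub hg')
    · refine Finset.disjoint_left.1 up_slab hg' ?_
      rw [mem_RF]; simp only; omega

/-- the sides of the lower part: the sides of `D` at its faces and the mouth -/
theorem lo_side (hD : MPoly D) (h : SlabIn (D : Set (ℤ × ℤ)) x₁ x₂ w₁ w₂)
    (h1 : w₁ < s₁) (h2 : s₁ < s₂) (h3 : s₂ < w₂) {f g : ℤ × ℤ} (hf : f ∈ CLo D x₁ x₂ s₁ s₂)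
    (hfg : EAdj f g) : g ∉ CLo D x₁ x₂ s₁ s₂ ↔
      (g ∉ D ∨ (f.2 = s₁ - 1 ∧ x₁ ≤ f.1 ∧ f.1 < x₂ ∧ g = (f.1, s₁))) := by
  constructor
  · intro hg
    by_cases hgD : g ∈ D
    · right
      by_cases hgS : g ∈ slab x₁ x₂ s₁ s₂
      · have h4 := slab_lo_unique hD.compl h h1 h2 h3 hgS hf hfg.symm
        rw [mem_RF] at hgS
        rw [h4.2]
        exact ⟨rfl, hgS.1, hgS.2.1, Prod.ext rfl h4.1⟩
      · exact absurd (part_adj hf hfg hgD hgS) hg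
    · exact Or.inl hgD
  · rintro (hg | ⟨-, h4, h5, rfl⟩) hg'
    · exact hg (lo_sub hg')
    · refine Finset.disjoint_left.1 lo_slab hg' ?_
      rw [mem_RF]; simp only; omega

end

end Pool.Agent.SixB
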