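import Pool.Agent.Lib.SixB.S0Shell
import Pool.Agent.Lib.SixB.TopCA

/-!
# 6BD step 3: boundary words of cut domains

* `Disc.start`: the word of a complete disc may start at every boundary side, with every direction;
* `Disc.wall`: ... and with every straight piece of the boundary of a disc of the plane;
* `MPoly.exists_disc`: Manhattan polygons are discs;
* `CutD.words`: `D = U ∪ S ∪ L`, `S` a rectangle of the plane whose left and right sides are boundary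
  sides of `D`, `U` above, `L` below: if `mouth ++ wU`, `mouth' ++ wL` are the words of `U`, `L` then
  `left ++ wL ++ right ++ wU` is the word of `D`.
-/

set_option autoImplicit false

namespace Pool.Agent.SixB

open Pool.Agent.Perc Pool.Agent.Perc.Q

section
variable {V Φ : Type} {Q : QC V Φ} {F : Set Φ} {G : Set (V × V)} {e : V × V}
  {w u v s : List ((V × V) × ℤ)} {x y : (V × V) × ℤ}

/-- The word of a complete disc may start at every boundary side. -/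
theorem Disc.start (h : Disc Q F (Glued Q F) w) (he : e ∈ Sides Q F) (he' : e.swap ∉ Sides Q F)
    (a : ℤ) : ∃ v, Disc Q F (Glued Q F) ((e, a) :: v) := by
  obtain ⟨⟨e1, b⟩, hx, rfl⟩ := List.mem_map.1 (h.mem_of_bd he he')
  obtain ⟨u, v, rfl⟩ := List.append_of_mem hx
  have h1 := (Disc.rots h).lft (a - b)
  rw [List.cons_append, lft_cons] at h1
  have h2 : (e1, b).2 + (a - b) = a := by simp only; ring
  rw [h2] at h1
  exact ⟨_, h1⟩

/-- The entry after a prefix of the word. -/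
theorem Disc.next (h : Disc Q F (Glued Q F) ((u ++ [x]) ++ v)) (hxy : Nx0 Q F (Glued Q F) x y)
    (hy : y.1 ∉ Glued Q F) :
    (∃ v', v = y :: v') ∨ (v = [] ∧ ∃ z, (u ++ [x]).head? = some z ∧ y = (z.1, z.2 + 4)) := by
  have hc := h.cyc
  have hn := h.inv.notG
  rcases v with _ | ⟨z, v'⟩
  · right
    refine ⟨rfl, ?_⟩
    rw [List.append_nil] at hc hn
    obtain ⟨z, t, hz⟩ : ∃ z t, u ++ [x] = z :: t := by
      rcases u with _ | ⟨z, t⟩
      · exact ⟨x, [], rfl⟩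
      · exact ⟨z, t ++ [x], rfl⟩
    refine ⟨z, by rw [hz]; rfl, ?_⟩
    refine hxy.unique hy (hc.2 z t u x hz rfl) ?_
    exact hn z.1 (by rw [hz]; simp)
  · left
    refine ⟨v', ?_⟩
    have h1 := hc.1 u x z v' (by simp)
    rw [hxy.unique hy h1 (hn z.1 (by simp))]

end

variable {F D U L : Set (ℤ × ℤ)} {w wU wL : List (((ℤ × ℤ) × (ℤ × ℤ)) × ℤ)} {p f : ℤ × ℤ}
  {a x x₀ x₁ y₀ y₁ : ℤ} {n : ℕ}

theorem CutW.glued_iff : (p, p + dv a) ∈ Glued ZQ F ↔ lface p a ∈ F ∧ lface (p + dv a) (a - 2) ∈ F := by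
  unfold Glued
  rw [Set.mem_ofPred_eq, mem_sides_ZQ, swap_mem_sides_ZQ]

/-- the side `k` of a face, and its successor -/
theorem CutW.sd_lface (p : ℤ × ℤ) (a : ℤ) : ∃ k : ZMod 4, (p, p + dv a) = sd ZQ (lface p a) k ∧
    sd ZQ (lface p a) (k + 1) = (p + dv a, p + dv a + dv (a + 1)) := by
  obtain ⟨x, y⟩ := p
  have h4 : a % 4 = 0 ∨ a % 4 = 1 ∨ a % 4 = 2 ∨ a % 4 = 3 := by omega
  rcases h4 with h | h | h | h
  · have e1 : dv a = (1, 0) := by unfold dv; rw [if_pos h]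
    have e2 : dv (a + 1) = (0, 1) := by unfold dv; rw [if_neg (by omega), if_pos (by omega)]
    have e3 : lface (x, y) a = (x, y) := by unfold lface; rw [if_pos h]
    refine ⟨0, ?_, ?_⟩
    · rw [e1, e3, sd_ZQ0]; simp
    · rw [e1, e2, e3, zero_add, sd_ZQ1]; simp
  · have e1 : dv a = (0, 1) := by unfold dv; rw [if_neg (by omega), if_pos h]
    have e2 : dv (a + 1) = (-1, 0) := by
      unfold dv; rw [if_neg (by omega), if_neg (by omega), if_pos (by omega)]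
    have e3 : lface (x, y) a = (x - 1, y) := by unfold lface; rw [if_neg (by omega), if_pos h]
    refine ⟨1, ?_, ?_⟩
    · rw [e1, e3, sd_ZQ1]; simp
    · rw [e1, e2, e3, show (1 : ZMod 4) + 1 = 2 by decide, sd_ZQ2]; simp; omega
  · have e1 : dv a = (-1, 0) := by
      unfold dv; rw [if_neg (by omega), if_neg (by omega), if_pos h]
    have e2 : dv (a + 1) = (0, -1) := by
      unfold dv; rw [if_neg (by omega), if_neg (by omega), if_neg (by omega)]
    have e3 : lface (x, y) a = (x - 1, y - 1) := by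
      unfold lface; rw [if_neg (by omega), if_neg (by omega), if_pos h]
    refine ⟨2, ?_, ?_⟩
    · rw [e1, e3, sd_ZQ2]; simp; omega
    · rw [e1, e2, e3, show (2 : ZMod 4) + 1 = 3 by decide, sd_ZQ3]; simp; omega
  · have e1 : dv a = (0, -1) := by
      unfold dv; rw [if_neg (by omega), if_neg (by omega), if_neg (by omega)]
    have e2 : dv (a + 1) = (1, 0) := by unfold dv; rw [if_pos (by omega)]
    have e3 : lface (x, y) a = (x, y - 1) := by
      unfold lface; rw [if_neg (by omega), if_neg (by omega), if_neg (by omega)]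
    refine ⟨3, ?_, ?_⟩
    · rw [e1, e3, sd_ZQ3]; simp; omega
    · rw [e1, e2, e3, show (3 : ZMod 4) + 1 = 0 by decide, sd_ZQ0]; simp; omega

theorem CutW.dv_ne_zero (a : ℤ) : dv a ≠ 0 := by
  unfold dv
  split_ifs <;> decide

theorem CutW.lface_left (p : ℤ × ℤ) (a : ℤ) : lface (p + dv a) (a + 1) = lface p a := by
  obtain ⟨x, y⟩ := p
  have h4 : a % 4 = 0 ∨ a % 4 = 1 ∨ a % 4 = 2 ∨ a % 4 = 3 := by omega
  rcases h4 with h | h | h | h
  · have h' : (a + 1) % 4 = 1 := by omega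
    simp [lface, dv, h, h']
  · have h' : (a + 1) % 4 = 2 := by omega
    simp [lface, dv, h, h']
  · have h' : (a + 1) % 4 = 3 := by omega
    simp [lface, dv, h, h']
    omega
  · have h' : (a + 1) % 4 = 0 := by omega
    simp [lface, dv, h, h']
    omega

/-- straight on: the face in front on the left -/
theorem CutW.nx0_straight (h1 : lface p a ∈ F) (h2 : lface (p + dv a) a ∈ F) :
    Nx0 ZQ F (Glued ZQ F) ((p, p + dv a), a) ((p + dv a, p + dv a + dv a), a) := by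
  obtain ⟨k, hk1, hk2⟩ := CutW.sd_lface p a
  refine ⟨lface p a, h1, k, hk1, ?_⟩
  rw [hk2]
  -- the glued side `(p + dv a, p + dv a + dv (a + 1))`, its reversal is a side of `lface (p + dv a) a`
  set q := p + dv a with hq
  have e1 : lface (q + dv (a + 1)) (a + 1 - 2) = lface q a := by
    have h3 := CutW.lface_left (q + dv (a + 1)) (a - 1)
    have e2 : q + dv (a + 1) + dv (a - 1) = q := by
      have : dv (a - 1) = - dv (a + 1) := by
        rw [← dv_sub_two]; congr 1; ring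
      rw [this]; abel
    have e3 : a - 1 + 1 = a := by ring
    have e4 : a + 1 - 2 = a - 1 := by ring
    rw [e2, e3] at h3
    rw [e4, h3]
  have hg : (q, q + dv (a + 1)) ∈ Glued ZQ F := by
    rw [CutW.glued_iff, e1]
    refine ⟨?_, h2⟩
    rw [hq, CutW.lface_left]; exact h1
  obtain ⟨l, hl1, hl2⟩ := CutW.sd_lface (q + dv (a + 1)) (a + 1 - 2)
  rw [e1] at hl1 hl2
  have e5 : q + dv (a + 1) + dv (a + 1 - 2) = q := by rw [dv_sub_two]; abel
  rw [e5] at hl1 hl2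
  refine Ar.step hg h2 (k := l) ?_ ?_
  · rw [← hl1]; rfl
  · rw [hl2]
    have e6 : a + 1 - 2 + 1 = a := by ring
    have e7 : a + 1 - 1 = a := by ring
    rw [e6, e7]
    exact Ar.refl _

/-- The word of a disc of the plane may start with every straight piece of the boundary. -/
theorem Disc.wall (h : Disc ZQ F (Glued ZQ F) w) (p : ℤ × ℤ) (a : ℤ) : ∀ {n : ℕ}, 0 < n →
    (∀ i : ℕ, i < n → lface (p + (i : ℤ) • dv a) a ∈ F) →
    (∀ i : ℕ, i < n → lface (p + (i : ℤ) • dv a + dv a) (a - 2) ∉ F) →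
    ∃ v, Disc ZQ F (Glued ZQ F) (segm id p a n ++ v) := by
  intro n
  induction n with
  | zero => intro h0; exact absurd h0 (lt_irrefl _)
  | succ n ih =>
    intro _ h1 h2
    rcases Nat.eq_zero_or_pos n with rfl | hn
    · have h3 := h1 0 (by omega)
      have h4 := h2 0 (by omega)
      simp only [Nat.cast_zero, zero_smul, add_zero] at h3 h4
      obtain ⟨v, hv⟩ := h.start (e := (p, p + dv a)) (mem_sides_ZQ.2 h3)
        (fun h5 => h4 (swap_mem_sides_ZQ.1 h5)) a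
      exact ⟨v, hv⟩
    · obtain ⟨v, hv⟩ := ih hn (fun i hi => h1 i (by omega)) (fun i hi => h2 i (by omega))
      obtain ⟨m, rfl⟩ : ∃ m, n = m + 1 := ⟨n - 1, by omega⟩
      rw [segm_add, segm_one] at hv
      set q := p + (m : ℤ) • dv a with hq
      have hq1 : p + ((m + 1 : ℕ) : ℤ) • dv a = q + dv a := by
        rw [hq]; push_cast; rw [add_smul, one_smul, add_assoc]
      have h3 := h1 m (by omega)
      have h4 := h1 (m + 1) (by omega)
      have h5 := h2 (m + 1) (by omega)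
      rw [hq1] at h4 h5
      have hnx := CutW.nx0_straight (F := F) h3 h4
      rcases hv.next hnx (fun h6 => h5 (CutW.glued_iff.1 h6).2) with ⟨v', rfl⟩ | ⟨-, z, hz1, hz2⟩
      · refine ⟨v', ?_⟩
        rw [segm_add id a (m + 1) 1, segm_add id a m 1, segm_one, segm_one, ← hq, hq1]
        rw [← hq] at hv
        simpa only [id, List.append_assoc, List.cons_append, List.nil_append] using hv
      · exfalso
        have hz3 : z.2 = a := by
          rcases Nat.eq_zero_or_pos m with rfl | hm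
          · rw [segm_zero, List.nil_append] at hz1
            simp only [List.head?_cons, Option.some.injEq] at hz1
            rw [← hz1]
          · obtain ⟨m', rfl⟩ : ∃ m', m = m' + 1 := ⟨m - 1, by omega⟩
            rw [segm_succ, List.cons_append, List.head?_cons, Option.some.injEq] at hz1
            rw [← hz1]
        have := congrArg Prod.snd hz2
        simp only at this
        omega

theorem CutW.mem_segm_of {i : ℕ} (hi : i < n) :
    ((p + (i : ℤ) • dv a, p + (i : ℤ) • dv a + dv a), a) ∈ segm (id : ℤ × ℤ → ℤ × ℤ) p a n := by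
  obtain ⟨j, rfl⟩ : ∃ j, n = i + (j + 1) := ⟨n - i - 1, by omega⟩
  rw [segm_add, segm_succ]
  exact List.mem_append_right _ List.mem_cons_self

theorem CutW.mem_segm_fst {z : ((ℤ × ℤ) × (ℤ × ℤ)) × ℤ} (h : z ∈ segm id p a n) :
    ∃ i : ℕ, i < n ∧ z = ((p + (i : ℤ) • dv a, p + (i : ℤ) • dv a + dv a), a) := by
  obtain ⟨i, hi, h1⟩ := mem_segmP h
  exact ⟨i, hi, h1⟩

/-- The geometry of a cut domain: `D = U ∪ S ∪ L` with the rectangle `S`, `U` above and `L` below. -/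
structure CutD (D U L : Set (ℤ × ℤ)) (x₀ x₁ y₀ y₁ : ℤ) : Prop where
  hx : x₀ < x₁
  hy : y₀ < y₁
  eq : D = U ∪ RS x₀ x₁ y₀ y₁ ∪ L
  dUS : Disjoint U (RS x₀ x₁ y₀ y₁)
  dLS : Disjoint L (RS x₀ x₁ y₀ y₁)
  dUL : Disjoint U L
  left : ∀ y, y₀ ≤ y → y < y₁ → (x₀ - 1, y) ∉ D
  right : ∀ y, y₀ ≤ y → y < y₁ → (x₁, y) ∉ D
  up : ∀ x, x₀ ≤ x → x < x₁ → (x, y₁) ∈ U
  down : ∀ x, x₀ ≤ x → x < x₁ → (x, y₀ - 1) ∈ L
  sep : ∀ e ∈ Sides ZQ U, e.swap ∉ Sides ZQ L

/-- Manhattan polygons are discs. -/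
theorem MPoly.exists_disc {P : Finset (ℤ × ℤ)} (h : MPoly P) :
    ∃ w, Disc ZQ (P : Set (ℤ × ℤ)) (Glued ZQ (P : Set (ℤ × ℤ))) w :=
  esc_disc P.finite_toSet h.nonempty h.top_econn h.esc

/-- two faces with a common side -/
theorem CutW.swap_sd {f g : ℤ × ℤ} {k l : ZMod 4} (h : (sd ZQ f k).swap = sd ZQ g l) :
    (k = 0 ∧ l = 2 ∧ g = (f.1, f.2 - 1)) ∨ (k = 1 ∧ l = 3 ∧ g = (f.1 + 1, f.2)) ∨
      (k = 2 ∧ l = 0 ∧ g = (f.1, f.2 + 1)) ∨ (k = 3 ∧ l = 1 ∧ g = (f.1 - 1, f.2)) := by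
  obtain ⟨x, y⟩ := f
  obtain ⟨u, v⟩ := g
  rcases k4_cases k with rfl | rfl | rfl | rfl <;> rcases k4_cases l with rfl | rfl | rfl | rfl <;>
    simp only [sd_ZQ0, sd_ZQ1, sd_ZQ2, sd_ZQ3, Prod.swap_prod_mk, Prod.mk.injEq] at h <;> first
    | (exfalso; omega)
    | (refine Or.inl ⟨rfl, rfl, Prod.ext ?_ ?_⟩ <;> simp only <;> omega)
    | (refine Or.inr (Or.inl ⟨rfl, rfl, Prod.ext ?_ ?_⟩) <;> simp only <;> omega)
    | (refine Or.inr (Or.inr (Or.inl ⟨rfl, rfl, Prod.ext ?_ ?_⟩)) <;> simp only <;> omega)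
    | (refine Or.inr (Or.inr (Or.inr ⟨rfl, rfl, Prod.ext ?_ ?_⟩)) <;> simp only <;> omega)

theorem CutW.mem_RS : f ∈ RS x₀ x₁ y₀ y₁ ↔ x₀ ≤ f.1 ∧ f.1 < x₁ ∧ y₀ ≤ f.2 ∧ f.2 < y₁ := Iff.rfl

/-- the common sides of `U` and `S` are the sides of the mouth -/
theorem CutD.sideU (h : CutD D U L x₀ x₁ y₀ y₁) {e : (ℤ × ℤ) × (ℤ × ℤ)} (he : e ∈ Sides ZQ U)
    (he' : e.swap ∈ Sides ZQ (RS x₀ x₁ y₀ y₁)) :
    ∃ x, x₀ ≤ x ∧ x < x₁ ∧ e = ((x, y₁), (x + 1, y₁)) := by
  obtain ⟨f, hf, k, rfl⟩ := he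
  obtain ⟨g, hg, l, h1⟩ := he'
  have hfD : f ∈ D := by rw [h.eq]; exact Or.inl (Or.inl hf)
  have hfS : f ∉ RS x₀ x₁ y₀ y₁ := Set.disjoint_left.1 h.dUS hf
  have hfL : f ∉ L := Set.disjoint_left.1 h.dUL hf
  obtain ⟨u, v⟩ := f
  have h2 := CutW.mem_RS.1 hg
  have h3 : ¬ (x₀ ≤ u ∧ u < x₁ ∧ y₀ ≤ v ∧ v < y₁) := hfS
  rcases CutW.swap_sd h1 with ⟨rfl, rfl, rfl⟩ | ⟨rfl, rfl, rfl⟩ | ⟨rfl, rfl, rfl⟩ | ⟨rfl, rfl, rfl⟩ <;>
    simp only at h2
  · obtain rfl : v = y₁ := by omega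
    exact ⟨u, h2.1, h2.2.1, rfl⟩
  · exfalso
    obtain rfl : u = x₀ - 1 := by omega
    exact h.left v (by omega) (by omega) hfD
  · exfalso
    obtain rfl : v = y₀ - 1 := by omega
    exact hfL (h.down u h2.1 h2.2.1)
  · exfalso
    obtain rfl : u = x₁ := by omega
    exact h.right v (by omega) (by omega) hfD

/-- the common sides of `L` and `S` are the sides of the lower mouth -/
theorem CutD.sideL (h : CutD D U L x₀ x₁ y₀ y₁) {e : (ℤ × ℤ) × (ℤ × ℤ)} (he : e ∈ Sides ZQ L)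
    (he' : e.swap ∈ Sides ZQ (RS x₀ x₁ y₀ y₁)) :
    ∃ x, x₀ ≤ x ∧ x < x₁ ∧ e = ((x + 1, y₀), (x, y₀)) := by
  obtain ⟨f, hf, k, rfl⟩ := he
  obtain ⟨g, hg, l, h1⟩ := he'
  have hfD : f ∈ D := by rw [h.eq]; exact Or.inr hf
  have hfS : f ∉ RS x₀ x₁ y₀ y₁ := Set.disjoint_left.1 h.dLS hf
  have hfU : f ∉ U := fun h' => Set.disjoint_left.1 h.dUL h' hf
  obtain ⟨u, v⟩ := f
  have h2 := CutW.mem_RS.1 hg
  have h3 : ¬ (x₀ ≤ u ∧ u < x₁ ∧ y₀ ≤ v ∧ v < y₁) := hfS
  rcases CutW.swap_sd h1 with ⟨rfl, rfl, rfl⟩ | ⟨rfl, rfl, rfl⟩ | ⟨rfl, rfl, rfl⟩ | ⟨rfl, rfl, rfl⟩ <;>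
    simp only at h2
  · exfalso
    obtain rfl : v = y₁ := by omega
    exact hfU (h.up u h2.1 h2.2.1)
  · exfalso
    obtain rfl : u = x₀ - 1 := by omega
    exact h.left v (by omega) (by omega) hfD
  · obtain rfl : y₀ = v + 1 := by omega
    exact ⟨u, h2.1, h2.2.1, rfl⟩
  · exfalso
    obtain rfl : u = x₁ := by omega
    exact h.right v (by omega) (by omega) hfD

theorem CutD.mouthU (h : CutD D U L x₀ x₁ y₀ y₁) {w : List (((ℤ × ℤ) × (ℤ × ℤ)) × ℤ)}
    (hU : Disc ZQ U (Glued ZQ U) w) :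
    ∃ v, Disc ZQ U (Glued ZQ U) (segm id (x₀, y₁) 0 (x₁ - x₀).toNat ++ v) := by
  have hx := h.hx
  have hy := h.hy
  refine hU.wall (x₀, y₁) 0 (by omega) ?_ ?_
  · intro i hi
    have e1 : lface ((x₀, y₁) + (i : ℤ) • dv 0) 0 = (x₀ + i, y₁) := by
      simp [lface, dv]
    rw [e1]
    exact h.up _ (by omega) (by omega)
  · intro i hi h1
    have e1 : lface ((x₀, y₁) + (i : ℤ) • dv 0 + dv 0) (0 - 2) = (x₀ + i, y₁ - 1) := by
      simp [lface, dv]
    rw [e1] at h1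
    refine Set.disjoint_left.1 h.dUS h1 ?_
    rw [CutW.mem_RS]
    simp only
    omega

theorem CutD.mouthL (h : CutD D U L x₀ x₁ y₀ y₁) {w : List (((ℤ × ℤ) × (ℤ × ℤ)) × ℤ)}
    (hL : Disc ZQ L (Glued ZQ L) w) :
    ∃ v, Disc ZQ L (Glued ZQ L) (segm id (x₁, y₀) (-2) (x₁ - x₀).toNat ++ v) := by
  have hx := h.hx
  have hy := h.hy
  refine hL.wall (x₁, y₀) (-2) (by omega) ?_ ?_
  · intro i hi
    have e1 : lface ((x₁, y₀) + (i : ℤ) • dv (-2)) (-2) = (x₁ - i - 1, y₀ - 1) := by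
      simp [lface, dv]
      omega
    rw [e1]
    exact h.down _ (by omega) (by omega)
  · intro i hi h1
    have e1 : lface ((x₁, y₀) + (i : ℤ) • dv (-2) + dv (-2)) (-2 - 2) = (x₁ - i - 1, y₀) := by
      simp [lface, dv]
      omega
    rw [e1] at h1
    refine Set.disjoint_left.1 h.dLS h1 ?_
    rw [CutW.mem_RS]
    simp only
    omega

/-- WORDS OF A CUT DOMAIN. -/
theorem CutD.words (h : CutD D U L x₀ x₁ y₀ y₁) {wU wL : List (((ℤ × ℤ) × (ℤ × ℤ)) × ℤ)}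
    (hU : Disc ZQ U (Glued ZQ U) (segm id (x₀, y₁) 0 (x₁ - x₀).toNat ++ wU))
    (hL : Disc ZQ L (Glued ZQ L) (segm id (x₁, y₀) (-2) (x₁ - x₀).toNat ++ wL)) :
    Disc ZQ D (Glued ZQ D) (segm id (x₀, y₁) (-1) (y₁ - y₀).toNat ++ (wL ++
        (segm id (x₁, y₀) 1 (y₁ - y₀).toNat ++ wU))) := by
  have hx := h.hx
  have hy := h.hy
  set n := (x₁ - x₀).toNat with hn
  set m := (y₁ - y₀).toNat with hm
  have hn' : (n : ℤ) = x₁ - x₀ := by omega
  have hm' : (m : ℤ) = y₁ - y₀ := by omega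
  have hn0 : 0 < n := by omega
  have hS := disc_RS hx hy
  unfold rectW at hS
  rw [← hn, ← hm] at hS
  -- rotate: left side first, top side last
  have hS1 : Disc ZQ (RS x₀ x₁ y₀ y₁) (Glued ZQ (RS x₀ x₁ y₀ y₁))
      ((segm id (x₀, y₁) (-1) m ++ (segm id (x₀, y₀) 0 n ++ segm id (x₁, y₀) 1 m)) ++
        segm id (x₁, y₁) 2 n) := by
    have h1 : Disc ZQ (RS x₀ x₁ y₀ y₁) (Glued ZQ (RS x₀ x₁ y₀ y₁))
        ((segm id (x₀, y₀) 0 n ++ segm id (x₁, y₀) 1 m ++ segm id (x₁, y₁) 2 n) ++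
          segm id (x₀, y₁) 3 m) := by simpa only [List.append_assoc] using hS
    have h2 := (Disc.rots h1).lft (-4)
    rw [lft_append, lft_lft] at h2
    norm_num [lft_zero] at h2
    have h3 : lft (-4) (segm id (x₀, y₁) 3 m) = segm (id : ℤ × ℤ → ℤ × ℤ) (x₀, y₁) (-1) m := by
      have h4 := segm_lft (id : ℤ × ℤ → ℤ × ℤ) (-1) m (x₀, y₁)
      have e1 : (-1 : ℤ) + 4 = 3 := by norm_num
      rw [e1] at h4
      rw [← h4, lft_lft]
      norm_num [lft_zero]
    rw [h3] at h2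
    simpa only [List.append_assoc] using h2
  have e1 : rvw (segm (id : ℤ × ℤ → ℤ × ℤ) (x₁, y₁) 2 n) = segm id (x₀, y₁) 0 n := by
    rw [segm_rvw, dv2, hn']
    congr 1
    ext <;> simp
  have e2 : rvw (segm (id : ℤ × ℤ → ℤ × ℤ) (x₀, y₀) 0 n) = segm id (x₁, y₀) (-2) n := by
    rw [segm_rvw, dv0, hn']
    congr 1
    ext <;> simp
  have hne : ∀ (p : ℤ × ℤ) (a : ℤ), segm (id : ℤ × ℤ → ℤ × ℤ) p a n ≠ [] := by
    intro p a
    obtain ⟨n', hn1⟩ : ∃ n', n = n' + 1 := ⟨n - 1, by omega⟩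
    rw [hn1, segm_succ]
    exact List.cons_ne_nil _ _
  have h1 := Disc.glue hS1 (by rw [e1]; exact hU) (hne _ _) h.dUS.symm
  have h2 := Disc.paste (u := segm id (x₀, y₁) (-1) m) (s := segm id (x₀, y₀) 0 n)
    (v := segm id (x₁, y₀) 1 m ++ wU) (u' := []) (v' := wL)
    (h1.cast rfl rfl (by simp only [List.append_assoc])) (by rw [e2]; exact hL) (hne _ _) (by
      rw [Set.disjoint_union_left]
      exact ⟨h.dLS.symm, h.dUL⟩)
  have hD : RS x₀ x₁ y₀ y₁ ∪ U ∪ L = D := by rw [h.eq, Set.union_comm U]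
  refine (h2.cast hD rfl (by simp [lft_nil])).complete ?_
  have hUS : ∀ x ∈ wU, x.1.swap ∉ Sides ZQ D := by
    intro x hx1 hx2
    have h3 := hU.bd (x := x) (List.mem_append_right _ hx1)
    rw [h.eq, sides_union, sides_union] at hx2
    rcases hx2 with (hx2 | hx2) | hx2
    · exact h3.2 hx2
    · obtain ⟨z, hz1, hz2, hz3⟩ := h.sideU h3.1 hx2
      have hnd := hU.inv.nodup
      rw [List.map_append, List.nodup_append] at hnd
      refine hnd.2.2 x.1 ?_ x.1 (List.mem_map_of_mem hx1) rfl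
      rw [hz3]
      have h4 := CutW.mem_segm_of (p := (x₀, y₁)) (a := 0) (i := (z - x₀).toNat) (n := n) (by omega)
      have h5 : (((z - x₀).toNat : ℕ) : ℤ) = z - x₀ := by omega
      rw [h5, dv0] at h4
      refine List.mem_map.2 ⟨_, h4, ?_⟩
      ext <;> simp
    · exact h.sep _ h3.1 hx2
  have hLS : ∀ x ∈ wL, x.1.swap ∉ Sides ZQ D := by
    intro x hx1 hx2
    have h3 := hL.bd (x := x) (List.mem_append_right _ hx1)
    rw [h.eq, sides_union, sides_union] at hx2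
    rcases hx2 with (hx2 | hx2) | hx2
    · exact h.sep _ hx2 (by rw [Prod.swap_swap]; exact h3.1)
    · obtain ⟨z, hz1, hz2, hz3⟩ := h.sideL h3.1 hx2
      have hnd := hL.inv.nodup
      rw [List.map_append, List.nodup_append] at hnd
      refine hnd.2.2 x.1 ?_ x.1 (List.mem_map_of_mem hx1) rfl
      rw [hz3]
      have h4 := CutW.mem_segm_of (p := (x₁, y₀)) (a := -2) (i := (x₁ - 1 - z).toNat) (n := n) (by omega)
      have h5 : (((x₁ - 1 - z).toNat : ℕ) : ℤ) = x₁ - 1 - z := by omega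
      have h6 : dv (-2) = (-1, 0) := rfl
      rw [h5, h6] at h4
      refine List.mem_map.2 ⟨_, h4, ?_⟩
      ext <;> simp <;> omega
    · exact h3.2 hx2
  intro x hx1
  simp only [List.mem_append] at hx1
  rcases hx1 with hx1 | hx1 | hx1 | hx1
  · obtain ⟨i, hi, rfl⟩ := CutW.mem_segm_fst hx1
    rw [swap_mem_sides_ZQ]
    have e3 : lface ((x₀, y₁) + (i : ℤ) • dv (-1) + dv (-1)) (-1 - 2) = (x₀ - 1, y₁ - i - 1) := by
      simp [lface, dv]
      omega
    rw [e3]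
    exact h.left _ (by omega) (by omega)
  · exact hLS x hx1
  · obtain ⟨i, hi, rfl⟩ := CutW.mem_segm_fst hx1
    rw [swap_mem_sides_ZQ]
    have e3 : lface ((x₁, y₀) + (i : ℤ) • dv 1 + dv 1) (1 - 2) = (x₁, y₀ + i) := by
      simp [lface, dv]
    rw [e3]
    exact h.right _ (by omega) (by omega)
  · exact hUS x hx1

end Pool.Agent.SixB
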