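import Pool.Agent.Lib.SixB.S0Cont
import Pool.Agent.Lib.SixB.S3CutW
import Pool.Agent.Lib.SixB.S3CutD
import Pool.Agent.Lib.SixB.CAEnvD

/-!
# Uniqueness of the boundary word

* `Disc.uniq`: two words of a complete disc differ by a rotation and a shift of the lift.
* `Disc.cword_uniq`: every word of the disc of a contour `g` with lifted directions `ν` is
  `cword g (fun i => ν i + c) L k`.
* `Cont.lift_sub`: differences of lifted directions can be read off from any word.
* `SlabIn.cutD`: the cut of a Manhattan polygon along a slab; `SlabIn.lift_up`, `SlabIn.lift_lo`: from the right wall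
  of the slab to the left wall through the upper part, and from the left wall to the right wall through the lower
  part, the contour makes two quarter turns to the left.
-/

set_option autoImplicit false

namespace Pool.Agent.SixB

open Pool.Agent.Perc Pool.Agent.Perc.Q

section General

variable {V Φ : Type} {Q : QC V Φ} {F : Set Φ} {w w' s t : List ((V × V) × ℤ)}
  {x : (V × V) × ℤ}

/-- Two words of a complete disc with the same first entry. -/
theorem Disc.uniq_head (h : Disc Q F (Glued Q F) (x :: s)) (h' : Disc Q F (Glued Q F) (x :: t)) :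
    s = t := by
  have key : ∀ {s t : List ((V × V) × ℤ)} (h : Disc Q F (Glued Q F) (x :: s))
      (h' : Disc Q F (Glued Q F) (x :: t)) (i : ℕ) (hi : i < (x :: s).length),
      ∃ hi' : i < (x :: t).length, (x :: s)[i] = (x :: t)[i] := by
    intro s t h h' i
    induction i with
    | zero => intro hi; exact ⟨by simp, rfl⟩
    | succ i ih =>
      intro hi
      obtain ⟨hi', e⟩ := ih (by omega)
      have hc := h.cyc
      have hc' := h'.cyc
      have h4 : x :: s = (x :: s).take i ++ (x :: s)[i] :: (x :: s)[i + 1] :: (x :: s).drop (i + 2) := by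
        rw [← List.drop_eq_getElem_cons, ← List.drop_eq_getElem_cons, List.take_append_drop]
      have h5 := hc.1 _ _ _ _ h4
      have hn1 : ((x :: s)[i + 1]).1 ∉ Glued Q F := h.inv.notG _ (List.mem_map_of_mem (List.getElem_mem hi))
      rcases Nat.lt_or_ge (i + 1) (x :: t).length with h6 | h6
      · refine ⟨h6, ?_⟩
        have h7 : x :: t = (x :: t).take i ++ (x :: t)[i] :: (x :: t)[i + 1] :: (x :: t).drop (i + 2) := by
          rw [← List.drop_eq_getElem_cons, ← List.drop_eq_getElem_cons, List.take_append_drop]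
        have h8 := hc'.1 _ _ _ _ h7
        rw [← e] at h8
        exact h5.unique hn1 h8 (h'.inv.notG _ (List.mem_map_of_mem (List.getElem_mem h6)))
      · exfalso
        have hlen : i + 1 = (x :: t).length := by omega
        have h7 : x :: t = (x :: t).take i ++ [(x :: t)[i]] := by
          have h9 : (x :: t).drop i = [(x :: t)[i]] := by
            rw [List.drop_eq_getElem_cons hi', List.drop_eq_nil_of_le (by omega)]
          rw [← h9, List.take_append_drop]
        have h8 := hc'.2 x t _ _ rfl h7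
        rw [← e] at h8
        have h9 := h5.unique hn1 h8 (h'.inv.notG x.1 (by simp))
        have h10 := h.inv.nodup
        have h11 : ((x :: s).map Prod.fst)[0]'(by simp) =
            ((x :: s).map Prod.fst)[i + 1]'(by rw [List.length_map]; exact hi) := by
          rw [List.getElem_map, List.getElem_map, h9]
          rfl
        have := (List.Nodup.getElem_inj_iff h10).1 h11
        omega
  have h1 : (x :: s).length = (x :: t).length := by
    apply le_antisymm
    · obtain ⟨h2, -⟩ := key h h' ((x :: s).length - 1) (by simp)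
      have : 0 < (x :: s).length := by simp
      omega
    · obtain ⟨h2, -⟩ := key h' h ((x :: t).length - 1) (by simp)
      have : 0 < (x :: t).length := by simp
      omega
  have h2 : x :: s = x :: t := List.ext_getElem h1 fun i hi hi' => (key h h' i hi).2
  exact (List.cons.inj h2).2

/-- **Uniqueness of the boundary word** up to rotation and a shift of the lift. -/
theorem Disc.uniq (h : Disc Q F (Glued Q F) w) (h' : Disc Q F (Glued Q F) w') (hne : w' ≠ []) :
    ∃ u v c, w = u ++ v ∧ w' = SixB.lft c (v ++ SixB.lft 4 u) := by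
  obtain ⟨x, t, rfl⟩ := List.exists_cons_of_ne_nil hne
  obtain ⟨hx1, hx2⟩ := h'.bd (x := x) List.mem_cons_self
  obtain ⟨y, hy, hyx⟩ := List.mem_map.1 (h.mem_of_bd hx1 hx2)
  obtain ⟨u, v, rfl⟩ := List.append_of_mem hy
  refine ⟨u, y :: v, x.2 - y.2, rfl, ?_⟩
  have h1 := (Disc.rots h).lft (x.2 - y.2)
  rw [List.cons_append, lft_cons] at h1 ⊢
  have h2 : (y.1, y.2 + (x.2 - y.2)) = x := by
    rw [hyx]
    ext
    · rfl
    · rfl
    · simp
  rw [h2] at h1 ⊢
  rw [h'.uniq_head h1]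

end General

variable {P : Finset (ℤ × ℤ)} {L : ℕ} {g : ℤ → ℤ × ℤ} {ν : ℤ → ℤ}
  {w : List (((ℤ × ℤ) × (ℤ × ℤ)) × ℤ)}

theorem cword_lft (g : ℤ → ℤ × ℤ) (ν : ℤ → ℤ) (L : ℕ) (k c : ℤ) :
    SixB.lft c (cword g ν L k) = cword g (fun i => ν i + c) L k := by
  unfold SixB.lft cword
  rw [List.map_map]
  rfl

/-- **Every word of the disc of a contour.** -/
theorem Disc.cword_uniq (hc : Cont P L g)
    (hd : ∀ k : ℤ, Disc ZQ (P : Set (ℤ × ℤ)) (Glued ZQ P) (cword g ν L k))
    (hw : Disc ZQ (P : Set (ℤ × ℤ)) (Glued ZQ P) w) (hne : w ≠ []) :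
    ∃ k c : ℤ, w = cword g (fun i => ν i + c) L k := by
  obtain ⟨x, t, rfl⟩ := List.exists_cons_of_ne_nil hne
  obtain ⟨hx1, hx2⟩ := hw.bd (x := x) List.mem_cons_self
  obtain ⟨k, hk1, hk2⟩ := hc.all x.1.1 x.1.2 (lside_sides.2 ⟨hx1, hx2⟩)
  refine ⟨k, x.2 - ν k, ?_⟩
  have h1 := (hd k).lft (x.2 - ν k)
  rw [cword_lft] at h1
  have hL := hc.pos
  obtain ⟨n, rfl⟩ : ∃ n, L = n + 1 := ⟨L - 1, by omega⟩
  have h2 : cword g (fun i => ν i + (x.2 - ν k)) (n + 1) k = x ::
      (List.range n).map fun i : ℕ => ((g (k + 1 + i), g (k + 1 + i + 1)), ν (k + 1 + i) + (x.2 - ν k)) := by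
    unfold cword
    rw [List.range_succ_eq_map, List.map_cons, List.map_map]
    congr 1
    · simp only [Nat.cast_zero, add_zero]
      ext
      · rw [hk1]
      · rw [hk1]
      · rw [hk2]
      · rw [hk2]
      · simp
    · apply List.map_congr_left
      intro i _
      simp only [Function.comp]
      push_cast
      rw [show k + ((i : ℤ) + 1) = k + 1 + i by ring]
  rw [h2] at h1 ⊢
  rw [hw.uniq_head h1]

theorem Cont.nu_zmul (hν : ∀ i : ℤ, ν (i + L) = ν i + 4) (k q : ℤ) : ν (k + q * L) = ν k + 4 * q := by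
  have hnat : ∀ (n : ℕ) (k : ℤ), ν (k + n * L) = ν k + 4 * n := by
    intro n
    induction n with
    | zero => intro k; simp
    | succ n ih =>
      intro k
      have e1 : k + ((n + 1 : ℕ) : ℤ) * L = (k + n * L) + L := by push_cast; ring
      rw [e1, hν, ih]
      push_cast
      ring
  rcases le_total 0 q with hn | hn
  · have := hnat q.toNat k
    rwa [Int.toNat_of_nonneg hn] at this
  · have := hnat (-q).toNat (k + q * L)
    rw [Int.toNat_of_nonneg (by omega)] at this
    have e1 : k + q * (L : ℤ) + -q * L = k := by ring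
    rw [e1] at this
    rw [this]
    ring

/-- **Differences of lifted directions** can be read off from any word of the disc. -/
theorem Cont.lift_sub (hc : Cont P L g) (hν : ∀ i : ℤ, ν (i + L) = ν i + 4)
    (hd : ∀ k : ℤ, Disc ZQ (P : Set (ℤ × ℤ)) (Glued ZQ P) (cword g ν L k))
    {u s t : List (((ℤ × ℤ) × (ℤ × ℤ)) × ℤ)} {x y : ((ℤ × ℤ) × (ℤ × ℤ)) × ℤ}
    (hw : Disc ZQ (P : Set (ℤ × ℤ)) (Glued ZQ P) (u ++ x :: (s ++ y :: t))) {k k' : ℤ}
    (hk : csd g k = x.1) (hk' : csd g k' = y.1) (h1 : k < k') (h2 : k' < k + L) :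
    ν k' = ν k + (y.2 - x.2) := by
  obtain ⟨k₀, c, e⟩ := Disc.cword_uniq hc hd hw (by simp)
  have hlen := congrArg List.length e
  rw [cword_length] at hlen
  simp only [List.length_append, List.length_cons] at hlen
  have ex : (u ++ x :: (s ++ y :: t))[u.length]? = some x := by simp
  have ey : (u ++ x :: (s ++ y :: t))[u.length + 1 + s.length]? = some y := by
    have : u ++ x :: (s ++ y :: t) = (u ++ x :: s) ++ y :: t := by simp
    rw [this, List.getElem?_append_right (by simp; omega)]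
    simp
    rw [show u.length + 1 + s.length - (u.length + (s.length + 1)) = 0 by omega]
    rfl
  rw [e, cword_getElem? g _ k₀ (by omega)] at ex ey
  have ex' := Option.some.inj ex
  have ey' := Option.some.inj ey
  have ex1 : csd g (k₀ + (u.length : ℤ)) = csd g k := by
    rw [hk, ← ex']
    rfl
  have ey1 : csd g (k₀ + ((u.length + 1 + s.length : ℕ) : ℤ)) = csd g k' := by
    rw [hk', ← ey']
    rfl
  have ex2 : ν (k₀ + (u.length : ℤ)) + c = x.2 := by rw [← ex']
  have ey2 : ν (k₀ + ((u.length + 1 + s.length : ℕ) : ℤ)) + c = y.2 := by rw [← ey']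
  obtain ⟨a, ha⟩ := hc.csd_inj ex1
  obtain ⟨b, hb⟩ := hc.csd_inj ey1
  have hL : (0 : ℤ) < L := by exact_mod_cast hc.pos
  have e1 : k₀ + (u.length : ℤ) = k + a * L := by rw [mul_comm a]; omega
  have e2 : k₀ + ((u.length + 1 + s.length : ℕ) : ℤ) = k' + b * L := by rw [mul_comm b]; omega
  have hab : a = b := by
    have h3 : (k' + b * L) - (k + a * L) = 1 + s.length := by
      rw [← e1, ← e2]
      push_cast
      ring
    have h4 : (k' - k) + (b - a) * L = 1 + s.length := by linarith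
    have h5 : (s.length : ℤ) + 1 < L := by omega
    have h6 : (0 : ℤ) ≤ s.length := by positivity
    rcases lt_trichotomy a b with h7 | h7 | h7
    · exfalso
      nlinarith
    · exact h7
    · exfalso
      nlinarith
  rw [e1, Cont.nu_zmul hν] at ex2
  rw [e2, Cont.nu_zmul hν] at ey2
  subst hab
  omega

/-! ## The slab -/

/-- **The cut of a Manhattan polygon along a slab.** -/
theorem SlabIn.cutD {D : Finset (ℤ × ℤ)} {x₁ x₂ w₁ w₂ s₁ s₂ : ℤ} (hD : MPoly D)
    (h : SlabIn (D : Set (ℤ × ℤ)) x₁ x₂ w₁ w₂) (h1 : w₁ < s₁) (h2 : s₁ < s₂) (h3 : s₂ < w₂) :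
    CutD (D : Set (ℤ × ℤ)) (CUp D x₁ x₂ s₁ s₂ : Set (ℤ × ℤ)) (CLo D x₁ x₂ s₁ s₂ : Set (ℤ × ℤ))
      x₁ x₂ s₁ s₂ where
  hx := h.hx
  hy := h2
  eq := by
    have h4 := up_slab_lo hD.conn h h1 h2 h3
    rw [← coe_RF, ← Finset.coe_union, ← Finset.coe_union]
    exact congrArg _ h4.symm
  dUS := by
    rw [← coe_RF]
    exact Finset.disjoint_coe.2 up_slab
  dLS := by
    rw [← coe_RF]
    exact Finset.disjoint_coe.2 lo_slab
  dUL := Finset.disjoint_coe.2 (up_lo hD.compl h h1 h2 h3)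
  left := fun y hy1 hy2 => h.left y (by omega) (by omega)
  right := fun y hy1 hy2 => h.right y (by omega) (by omega)
  up := fun x hx1 hx2 => up_window h h1 h2 hx1 hx2 le_rfl h3
  down := fun x hx1 hx2 => lo_window h h2 h3 hx1 hx2 (by omega) (by omega)
  sep := by
    rintro e ⟨f, hf, k, rfl⟩ ⟨g, hg, l, hgl⟩
    refine up_lo_touch hD h h1 h2 h3 hf hg ?_ ?_
    · rcases CutW.swap_sd hgl with ⟨-, -, rfl⟩ | ⟨-, -, rfl⟩ | ⟨-, -, rfl⟩ | ⟨-, -, rfl⟩ <;> simp
    · rcases CutW.swap_sd hgl with ⟨-, -, rfl⟩ | ⟨-, -, rfl⟩ | ⟨-, -, rfl⟩ | ⟨-, -, rfl⟩ <;> simp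

/-- the word of the polygon, cut at the height `y` of the slab -/
theorem SlabIn.word {D : Finset (ℤ × ℤ)} {x₁ x₂ w₁ w₂ y : ℤ} (hD : MPoly D)
    (h : SlabIn (D : Set (ℤ × ℤ)) x₁ x₂ w₁ w₂) (h1 : w₁ < y) (h2 : y + 1 < w₂) :
    ∃ wU wL : List (((ℤ × ℤ) × (ℤ × ℤ)) × ℤ), Disc ZQ (D : Set (ℤ × ℤ)) (Glued ZQ D)
      ((((x₁, y + 1), (x₁, y)), -1) :: (wL ++ (((x₂, y), (x₂, y + 1)), 1) :: wU)) := by
  have hx := h.hx
  have hcut := h.cutD hD h1 (show y < y + 1 by omega) h2
  obtain ⟨w₁', hU⟩ := (mpoly_up hD h h1 (show y < y + 1 by omega) h2).exists_disc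
  obtain ⟨w₂', hL⟩ := (mpoly_lo hD h h1 (show y < y + 1 by omega) h2).exists_disc
  obtain ⟨wU, hU⟩ := hU.wall (x₁, y + 1) 0 (n := (x₂ - x₁).toNat) (by omega) (by
    intro i hi
    have e1 : lface ((x₁, y + 1) + (i : ℤ) • dv 0) 0 = (x₁ + i, y + 1) := by
      simp [lface, dv]
    rw [e1]
    exact hcut.up _ (by omega) (by omega)) (by
    intro i hi
    have e1 : lface ((x₁, y + 1) + (i : ℤ) • dv 0 + dv 0) (0 - 2) = (x₁ + i, y) := by
      simp [lface, dv]
    rw [e1]
    intro h4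
    refine Set.disjoint_left.1 hcut.dUS h4 ?_
    unfold RS
    simp only [Set.mem_ofPred_eq]
    omega)
  obtain ⟨wL, hL⟩ := hL.wall (x₂, y) (-2) (n := (x₂ - x₁).toNat) (by omega) (by
    intro i hi
    have e1 : lface ((x₂, y) + (i : ℤ) • dv (-2)) (-2) = (x₂ - i - 1, y - 1) := by
      simp [lface, dv]
      omega
    rw [e1]
    exact hcut.down _ (by omega) (by omega)) (by
    intro i hi
    have e1 : lface ((x₂, y) + (i : ℤ) • dv (-2) + dv (-2)) (-2 - 2) = (x₂ - i - 1, y) := by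
      simp [lface, dv]
      omega
    rw [e1]
    intro h4
    refine Set.disjoint_left.1 hcut.dLS h4 ?_
    unfold RS
    simp only [Set.mem_ofPred_eq]
    omega)
  refine ⟨wU, wL, ?_⟩
  have h5 := hcut.words hU hL
  rw [show (y + 1 - y).toNat = 1 by omega, segm_one, segm_one] at h5
  refine h5.cast rfl rfl ?_
  have e1 : dv (-1) = (0, -1) := rfl
  rw [e1, dv1]
  simp

/-- **Through the upper part**: from the right wall to the left wall of the slab. -/
theorem SlabIn.lift_up {D : Finset (ℤ × ℤ)} {x₁ x₂ w₁ w₂ y : ℤ} (hD : MPoly D)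
    (h : SlabIn (D : Set (ℤ × ℤ)) x₁ x₂ w₁ w₂) (h1 : w₁ < y) (h2 : y + 1 < w₂) (hc : Cont D L g)
    (hν : ∀ i : ℤ, ν (i + L) = ν i + 4)
    (hd : ∀ k : ℤ, Disc ZQ (D : Set (ℤ × ℤ)) (Glued ZQ D) (cword g ν L k)) {kr kl : ℤ}
    (hkr : csd g kr = ((x₂, y), (x₂, y + 1))) (hkl : csd g kl = ((x₁, y + 1), (x₁, y)))
    (h3 : kr < kl) (h4 : kl < kr + L) : ν kl = ν kr + 2 := by
  obtain ⟨wU, wL, hW⟩ := h.word hD h1 h2
  have h5 := Disc.rots (s := (((x₁, y + 1), (x₁, y)), (-1 : ℤ)) :: wL)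
    (u := (((x₂, y), (x₂, y + 1)), (1 : ℤ)) :: wU) (hW.cast rfl rfl (by simp))
  rw [lft_cons, List.cons_append] at h5
  have h6 := hc.lift_sub hν hd (u := []) (s := wU) h5 hkr hkl h3 h4
  rw [h6]
  norm_num

/-- **Through the lower part**: from the left wall to the right wall of the slab. -/
theorem SlabIn.lift_lo {D : Finset (ℤ × ℤ)} {x₁ x₂ w₁ w₂ y : ℤ} (hD : MPoly D)
    (h : SlabIn (D : Set (ℤ × ℤ)) x₁ x₂ w₁ w₂) (h1 : w₁ < y) (h2 : y + 1 < w₂) (hc : Cont D L g)
    (hν : ∀ i : ℤ, ν (i + L) = ν i + 4)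
    (hd : ∀ k : ℤ, Disc ZQ (D : Set (ℤ × ℤ)) (Glued ZQ D) (cword g ν L k)) {kr kl : ℤ}
    (hkr : csd g kr = ((x₂, y), (x₂, y + 1))) (hkl : csd g kl = ((x₁, y + 1), (x₁, y)))
    (h3 : kl < kr) (h4 : kr < kl + L) : ν kr = ν kl + 2 := by
  obtain ⟨wU, wL, hW⟩ := h.word hD h1 h2
  have h6 := hc.lift_sub hν hd (u := []) (s := wL) hW hkl hkr h3 h4
  rw [h6]
  norm_num

end Pool.Agent.SixB
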