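import Pool.Agent.Lib.SixB.S1Joint

/-!
# The cone in the forms used by steps 2 and 3
-/

set_option autoImplicit false

namespace Pool.Agent.SixB

open Pool.Agent.SixV Complex
open scoped Real ComplexConjugate InnerProductSpace

/-- The angle of a unit complex number is at most the modulus of any of its logarithms. -/
theorem abs_arg_exp_le (k : ℝ) : |(exp (I * k)).arg| ≤ |k| := by
  have h1 : ‖exp (I * k)‖ = 1 := by
    rw [mul_comm, Complex.norm_exp_ofReal_mul_I]
  by_cases hk : |k| ≤ π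
  · rcases eq_or_lt_of_le (neg_le_of_abs_le hk) with h | h
    · rw [← h, abs_neg, abs_of_pos Real.pi_pos]
      exact Complex.abs_arg_le_pi _
    · rw [mul_comm, Complex.arg_exp_mul_I, (toIocMod_eq_self _).2]
      constructor
      · exact h
      · have := le_of_abs_le hk
        linarith
  · exact (Complex.abs_arg_le_pi _).trans (le_of_not_ge hk)

/-- If `exp (i k) = exp (i θ)` and `|θ| ≤ π` then `|θ| ≤ |k|`. -/
theorem abs_le_of_exp_eq {θ k : ℝ} (hθ : |θ| ≤ π) (h : exp (I * θ) = exp (I * k)) : |θ| ≤ |k| := by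
  by_cases hk : |k| ≤ π
  · rcases eq_or_lt_of_le (neg_le_of_abs_le hk) with h1 | h1
    · rw [← h1, abs_neg, abs_of_pos Real.pi_pos]
      exact hθ
    · rcases eq_or_lt_of_le (neg_le_of_abs_le hθ) with h2 | h2
      · have h3 := congrArg Complex.arg h
        rw [mul_comm I (k : ℂ), Complex.arg_exp_mul_I, (toIocMod_eq_self _).2
          ⟨h1, by have := le_of_abs_le hk; linarith⟩, ← h2] at h3
        have h4 : exp (I * ((-π : ℝ) : ℂ)) = -1 := by
          have : (I * ((-π : ℝ) : ℂ)) = -(π * I) := by push_cast; ring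
          rw [this, Complex.exp_neg, Complex.exp_pi_mul_I]
          norm_num
        rw [h4, Complex.arg_neg_one] at h3
        rw [← h2, ← h3, abs_neg]
      · have h3 := congrArg Complex.arg h
        rw [mul_comm I (k : ℂ), mul_comm I (θ : ℂ), Complex.arg_exp_mul_I,
          Complex.arg_exp_mul_I, (toIocMod_eq_self _).2
          ⟨h1, by have := le_of_abs_le hk; linarith⟩, (toIocMod_eq_self _).2
          ⟨h2, by have := le_of_abs_le hθ; linarith⟩] at h3
        rw [h3]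
  · exact hθ.trans (le_of_not_ge hk)

/-- The weak cone from the form of `S1Weak`. -/
theorem weakCone_of {C : ℝ} (hC : 0 < C)
    (h : ∀ (N : ℕ) (Λ : ℂ → ℂ), 1 ≤ N → MP6bd.EigFun N Λ → ∃ σ k : ℝ, (σ = 1 ∨ σ = -1) ∧
      Λ 0 = σ * exp (k * I) ∧ ‖Λ (π / 6)‖ ≤ Real.exp (C / N - |k| / C)) :
    WeakCone (1 / (2 * C)) C := by
  intro N Λ hN hΛ θ hθ h0
  obtain ⟨σ, k, hσ, h1, h2⟩ := h N Λ hN hΛ
  have e1 : exp (I * θ) = exp (I * ((2 * k : ℝ) : ℂ)) := by
    rw [← h0, h1, mul_pow, ← Complex.exp_nat_mul]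
    have : (σ : ℂ) ^ 2 = 1 := by
      rcases hσ with rfl | rfl <;> norm_num
    rw [this, one_mul]
    congr 1
    push_cast
    ring
  have e2 := abs_le_of_exp_eq hθ e1
  rw [abs_mul, abs_two] at e2
  refine h2.trans ?_
  rw [← Real.exp_add]
  apply Real.exp_le_exp.2
  have e3 : 1 / (2 * C) * |θ| ≤ |k| / C := by
    rw [div_mul_eq_mul_div, one_mul, div_le_div_iff₀ (by positivity) hC]
    nlinarith
  linarith

/-- The full cone in the form of helper62's `exists_spectral_measure_cone`. -/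
theorem cone_arg_of
    (h : ∀ ε : ℝ, 0 < ε → ∃ N₀ : ℕ, ∀ (N : ℕ) (Λ : ℂ → ℂ), N₀ ≤ N → MP6bd.EigFun N Λ →
      Λ (π / 6) ≠ 0 → ∃ k : ℝ, Λ 0 * (‖Λ (π / 6)‖ : ℝ) = Λ (π / 6) * exp (I * k) ∧
        |k| ≤ -Real.log ‖Λ (π / 6)‖ + ε) {ε : ℝ} (hε : 0 < ε) :
    ∃ N₀ : ℕ, ∀ N : ℕ, N₀ ≤ N → ∀ (v : HN N) (l : ℝ) (z : ℂ), v ≠ 0 →
      tL N (π / 6) v = (l : ℂ) • v → tL N 0 v = z • v →
      (0 < l → |z.arg| ≤ -Real.log l + ε) ∧ |l| ≤ Real.exp ε := by
  obtain ⟨N₀, hN₀⟩ := h ε hε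
  refine ⟨N₀, fun N hN v l z hv h1 h2 => ?_⟩
  obtain ⟨Λ, hΛ, e1, e2⟩ := exists_eigFun hv h1 (k := 1) (μ := z) (by rw [pow_one]; exact h2)
  rw [pow_one] at e2
  by_cases hl : l = 0
  · subst hl
    refine ⟨fun h => absurd h (lt_irrefl 0), ?_⟩
    rw [abs_zero]
    positivity
  · have hne : Λ (π / 6) ≠ 0 := by
      rw [e1]
      exact_mod_cast hl
    obtain ⟨k, hk1, hk2⟩ := hN₀ N Λ hN hΛ hne
    rw [e1, e2, Complex.norm_real, Real.norm_eq_abs] at hk1
    rw [e1, Complex.norm_real, Real.norm_eq_abs] at hk2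
    constructor
    · intro hpos
      rw [abs_of_pos hpos] at hk1 hk2
      have hz : z = exp (I * k) := by
        have hl' : (l : ℂ) ≠ 0 := by exact_mod_cast hl
        have h3 : (l : ℂ) * z = l * exp (I * k) := by
          rw [← hk1]
          ring
        exact mul_left_cancel₀ hl' h3
      rw [hz]
      exact (abs_arg_exp_le k).trans hk2
    · have h3 : Real.log |l| ≤ ε := by
        have := abs_nonneg k
        linarith
      rw [← Real.exp_log (abs_pos.2 hl)]
      exact Real.exp_le_exp.2 h3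

end Pool.Agent.SixB
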