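import Pool.Agent.Lib.SixB.S1Cone
import Pool.Agent.Lib.MP_6bd702_sv.FullCone

/-!
# The full cone, unconditional
-/

set_option autoImplicit false

namespace Pool.Agent.SixB

open Pool.Agent.SixV Complex
open scoped Real ComplexConjugate InnerProductSpace

/-- **The full cone**, in the form of helper62's Lemma A: `v` is an eigenvector of `t(π/6)` and of
the shift. -/
theorem cone_arg {ε : ℝ} (hε : 0 < ε) :
    ∃ N₀ : ℕ, ∀ N : ℕ, N₀ ≤ N → ∀ (v : HN N) (l : ℝ) (z : ℂ), v ≠ 0 →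
      tL N (π / 6) v = (l : ℂ) • v → tL N 0 v = z • v →
      (0 < l → |z.arg| ≤ -Real.log l + ε) ∧ |l| ≤ Real.exp ε := by
  refine cone_arg_of (fun δ hδ => ?_) hε
  obtain ⟨N₀, h⟩ := MP6bd.full_cone hδ
  refine ⟨N₀, fun N Λ hN hΛ hne => ?_⟩
  have e : ((π / 6 : ℝ) : ℂ) = (π : ℂ) / 6 := by push_cast; rfl
  have h1 := h N hN Λ hΛ (by rw [e]; exact hne)
  rw [e] at h1
  exact h1

end Pool.Agent.SixB
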