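import Mathlib
import Pool.Agent.Lib.SixB.S1LemB

/-!
# Step 1: the weak cone for all states

`weak_cone`: there is `C > 0` such that for all `N ≥ 1` and every eigenvalue function `Λ` there are
`σ = ±1` and `k` with `|k| ≤ π`, `Λ 0 = σ e^{ik}`, `Λ (π/6) = σ ‖Λ (π/6)‖` and
`‖Λ (π/6)‖ ≤ exp (C / N - |k| / C)`.

Proof: Borel-Caratheodory for `log Λ` on the discs `B(π/6 + iy, π/6)` bounds `Λ'/Λ` by
`C (E + 1/N) / x ^ 2` near the line `x = 0`; the fusion relation carries this to `x < 0`; the maximum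
principle for `(w ^ 2 + s ^ 2) ^ 2 Λ' / Λ` on `‖w‖ ≤ s` removes the singularity.
-/

set_option autoImplicit false

open Complex Set Filter Topology Metric

namespace MP6bd

/-- A logarithm of a function without zeros on a disc. -/
lemma exists_log_disc {f : ℂ → ℂ} {c : ℂ} {r : ℝ} (hr : 0 < r)
    (hf : DifferentiableOn ℂ f (ball c r)) (hne : ∀ z ∈ ball c r, f z ≠ 0) :
    ∃ H : ℂ → ℂ, H c = 0 ∧ (∀ z ∈ ball c r, HasDerivAt H (deriv f z / f z) z) ∧
      (∀ z ∈ ball c r, f z = f c * Complex.exp (H z)) := by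
  have hcr : c ∈ ball c r := mem_ball_self hr
  have hg : DifferentiableOn ℂ (fun z => deriv f z / f z) (ball c r) :=
    (hf.deriv isOpen_ball).div hf hne
  obtain ⟨H, hH0, hH⟩ := (hg.isExactOn_ball).with_val_at c 0
  have hfd : ∀ z ∈ ball c r, HasDerivAt f (deriv f z) z := fun z hz =>
    (hf.differentiableAt (isOpen_ball.mem_nhds hz)).hasDerivAt
  have hG : ∀ z ∈ ball c r, HasDerivAt (fun z => f z * Complex.exp (-H z)) 0 z := by
    intro z hz
    refine HasDerivAt.congr_deriv ((hfd z hz).mul ((hH z hz).neg.cexp)) ?_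
    have e : f z * (deriv f z / f z) = deriv f z := mul_div_cancel₀ _ (hne z hz)
    linear_combination -Complex.exp (-H z) * e
  refine ⟨H, hH0, hH, ?_⟩
  intro z hz
  have hd : DifferentiableOn ℂ (fun z => f z * Complex.exp (-H z)) (ball c r) :=
    fun u hu => (hG u hu).differentiableAt.differentiableWithinAt
  have h2 : ∀ u ∈ ball c r, fderivWithin ℂ (fun z => f z * Complex.exp (-H z)) (ball c r) u = 0 := by
    intro u hu
    rw [fderivWithin_of_isOpen isOpen_ball hu]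
    have := (hG u hu).hasFDerivAt.fderiv
    rw [this]
    ext
    simp
  have h3 := (convex_ball c r).is_const_of_fderivWithin_eq_zero hd h2 hz hcr
  have h4 : f z * Complex.exp (-H z) = f c := by simpa [hH0] using h3
  rw [← h4, mul_assoc, ← Complex.exp_add, neg_add_cancel, Complex.exp_zero, mul_one]

/-- Borel-Caratheodory for the logarithm of a function without zeros, of norm at most one. -/
lemma exists_log_ball {f : ℂ → ℂ} {c : ℂ} {r M : ℝ} (hr : 0 < r)
    (hf : DifferentiableOn ℂ f (ball c r)) (hne : ∀ z ∈ ball c r, f z ≠ 0)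
    (hle : ∀ z ∈ ball c r, ‖f z‖ ≤ 1) (hM : 0 < M) (hc : Real.exp (-M) ≤ ‖f c‖) :
    ∃ H : ℂ → ℂ, (∀ z ∈ ball c r, HasDerivAt H (deriv f z / f z) z) ∧
      (∀ z ∈ ball c r, f z = f c * Complex.exp (H z)) ∧
      (∀ z ∈ ball c r, ‖H z‖ ≤ 2 * M * ‖z - c‖ / (r - ‖z - c‖)) := by
  obtain ⟨H, hH0, hH, hexp⟩ := exists_log_disc hr hf hne
  refine ⟨H, hH, hexp, ?_⟩
  intro z hz
  have hre : ∀ z ∈ ball c r, (H z).re ≤ M := by
    intro z hz
    have h1 : ‖f z‖ = ‖f c‖ * Real.exp (H z).re := by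
      rw [hexp z hz, norm_mul, Complex.norm_exp]
    have h2 := hle z hz
    rw [h1] at h2
    have h3 : Real.exp (-M) * Real.exp (H z).re ≤ 1 :=
      (mul_le_mul_of_nonneg_right hc (Real.exp_pos _).le).trans h2
    rw [← Real.exp_add] at h3
    have := Real.exp_le_one_iff.1 h3
    linarith
  have hF : DifferentiableOn ℂ (fun u => H (c + u)) (ball 0 r) := by
    intro u hu
    have hu' : c + u ∈ ball c r := by
      rw [mem_ball_iff_norm]
      rw [mem_ball_zero_iff] at hu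
      simpa using hu
    exact ((hH _ hu').comp_const_add c u).differentiableAt.differentiableWithinAt
  have hB := Complex.borelCaratheodory_zero (f := fun u => H (c + u)) (M := M) (R := r) (z := z - c)
    hM hF (by
      intro u hu
      have hu' : c + u ∈ ball c r := by
        rw [mem_ball_iff_norm]
        rw [mem_ball_zero_iff] at hu
        simpa using hu
      exact hre _ hu') hr (by
        rw [mem_ball_zero_iff]
        exact mem_ball_iff_norm.1 hz) (by simp [hH0])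
  simpa using hB

/-- Harnack: lower bound. -/
lemma harnack_lower {f : ℂ → ℂ} {c z : ℂ} {r M : ℝ} (hr : 0 < r)
    (hf : DifferentiableOn ℂ f (ball c r)) (hne : ∀ z ∈ ball c r, f z ≠ 0)
    (hle : ∀ z ∈ ball c r, ‖f z‖ ≤ 1) (hM : 0 < M) (hc : Real.exp (-M) ≤ ‖f c‖)
    (hz : ‖z - c‖ ≤ r / 2) : Real.exp (-(3 * M)) ≤ ‖f z‖ := by
  obtain ⟨H, -, h1, h2⟩ := exists_log_ball hr hf hne hle hM hc
  have hz' : z ∈ ball c r := by rw [mem_ball_iff_norm]; linarith
  rw [h1 z hz', norm_mul, Complex.norm_exp]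
  have h3 : -(2 * M) ≤ (H z).re := by
    have e1 := (abs_le.1 (Complex.abs_re_le_norm (H z))).1
    have e2 : ‖H z‖ ≤ 2 * M := by
      refine (h2 z hz').trans ?_
      rw [div_le_iff₀ (by linarith)]
      have : 0 ≤ ‖z - c‖ := norm_nonneg _
      nlinarith
    linarith
  calc Real.exp (-(3 * M)) = Real.exp (-M) * Real.exp (-(2 * M)) := by
        rw [← Real.exp_add]; congr 1; ring
    _ ≤ ‖f c‖ * Real.exp (H z).re := by
        gcongr

/-- Harnack: gradient bound. -/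
lemma harnack_grad {f : ℂ → ℂ} {c z : ℂ} {r M : ℝ} (hr : 0 < r)
    (hf : DifferentiableOn ℂ f (ball c r)) (hne : ∀ z ∈ ball c r, f z ≠ 0)
    (hle : ∀ z ∈ ball c r, ‖f z‖ ≤ 1) (hM : 0 < M) (hc : Real.exp (-M) ≤ ‖f c‖)
    (hz : z ∈ ball c r) : ‖deriv f z / f z‖ ≤ 8 * M * r / (r - ‖z - c‖) ^ 2 := by
  obtain ⟨H, h0, h1, h2⟩ := exists_log_ball hr hf hne hle hM hc
  have hz1 : ‖z - c‖ < r := mem_ball_iff_norm.1 hz
  obtain ⟨R, hR⟩ : ∃ R, R = (r - ‖z - c‖) / 2 := ⟨_, rfl⟩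
  have hR0 : 0 < R := by rw [hR]; linarith
  have hsub : closedBall z R ⊆ ball c r := by
    intro u hu
    rw [mem_closedBall, dist_eq_norm] at hu
    rw [mem_ball_iff_norm]
    have : ‖u - c‖ ≤ ‖u - z‖ + ‖z - c‖ := by
      have := norm_add_le (u - z) (z - c)
      simpa using this
    linarith
  have hd : DiffContOnCl ℂ H (ball z R) := by
    refine DifferentiableOn.diffContOnCl ?_
    refine DifferentiableOn.mono ?_ (closure_ball_subset_closedBall.trans hsub)
    exact fun u hu => (h0 u hu).differentiableAt.differentiableWithinAt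
  have h3 : ‖deriv H z‖ ≤ (2 * M * r / R) / R := by
    refine Complex.norm_deriv_le_of_forall_mem_sphere_norm_le hR0 hd ?_
    intro u hu
    have hu' : u ∈ ball c r := hsub (sphere_subset_closedBall hu)
    have h4 : ‖u - c‖ ≤ r - R := by
      have h5 : ‖u - c‖ ≤ ‖u - z‖ + ‖z - c‖ := by
        have := norm_add_le (u - z) (z - c)
        simpa using this
      rw [mem_sphere_iff_norm] at hu
      linarith
    refine (h2 u hu').trans ?_
    have h6 : 0 ≤ ‖u - c‖ := norm_nonneg _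
    have h7 : R ≤ r - ‖u - c‖ := by linarith
    have h8 : 2 * M * ‖u - c‖ ≤ 2 * M * r := by
      have : 0 ≤ 2 * M := by linarith
      exact mul_le_mul_of_nonneg_left (by linarith) this
    exact div_le_div₀ (by positivity) h8 hR0 h7
  rw [(h0 z hz).deriv] at h3
  refine h3.trans (le_of_eq ?_)
  rw [hR]
  have : r - ‖z - c‖ ≠ 0 := by linarith
  field_simp
  ring

variable {N : ℕ} {Λ : ℂ → ℂ}

/-- The open strip of analyticity. -/
def oStrip : Set ℂ := {w : ℂ | -(Real.pi / 3) < w.re ∧ w.re < 2 * Real.pi / 3}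

lemma isOpen_oStrip : IsOpen oStrip :=
  (isOpen_lt continuous_const Complex.continuous_re).inter
    (isOpen_lt Complex.continuous_re continuous_const)

lemma convex_oStrip : Convex ℝ oStrip := by
  have h1 : Convex ℝ {w : ℂ | -(Real.pi / 3) < w.re} := convex_halfSpace_re_gt _
  have h2 : Convex ℝ {w : ℂ | w.re < 2 * Real.pi / 3} := convex_halfSpace_re_lt _
  exact h1.inter h2

lemma EigFun.diffAt (h : EigFun N Λ) {w : ℂ} (h0 : -(Real.pi / 3) < w.re)
    (h1 : w.re < 2 * Real.pi / 3) : DifferentiableAt ℂ Λ w :=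
  h.diff.differentiableAt (isOpen_oStrip.mem_nhds ⟨h0, h1⟩)

/-- The reflection relation on the whole open strip. -/
lemma EigFun.refl_ext (h : EigFun N Λ) {w : ℂ} (h0 : -(Real.pi / 3) < w.re)
    (h1 : w.re < 2 * Real.pi / 3) :
    Λ ((Real.pi / 3 : ℝ) - (starRingEnd ℂ) w) = (starRingEnd ℂ) (Λ w) := by
  have hpi := Real.pi_pos
  obtain ⟨G, hG⟩ : ∃ G : ℂ → ℂ, G = fun w => (starRingEnd ℂ) (Λ ((Real.pi / 3 : ℝ) - (starRingEnd ℂ) w)) :=
    ⟨_, rfl⟩
  have hGd : DifferentiableOn ℂ G oStrip := by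
    intro u hu
    have h2 : DifferentiableAt ℂ (fun v : ℂ => Λ ((Real.pi / 3 : ℝ) - v)) ((starRingEnd ℂ) u) := by
      have h3 : DifferentiableAt ℂ Λ ((Real.pi / 3 : ℝ) - (starRingEnd ℂ) u) := by
        refine h.diffAt ?_ ?_
        · rw [Complex.sub_re, Complex.ofReal_re, Complex.conj_re]
          linarith [hu.2]
        · rw [Complex.sub_re, Complex.ofReal_re, Complex.conj_re]
          linarith [hu.1]
      exact h3.comp _ (by fun_prop)
    have h4 := h2.conj_conj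
    rw [Complex.conj_conj] at h4
    rw [hG]
    exact h4.differentiableWithinAt
  have hL : AnalyticOnNhd ℂ Λ oStrip := h.diff.analyticOnNhd isOpen_oStrip
  have hGa : AnalyticOnNhd ℂ G oStrip := hGd.analyticOnNhd isOpen_oStrip
  have hz0 : ((Real.pi / 6 : ℝ) : ℂ) ∈ oStrip := by
    constructor
    · rw [Complex.ofReal_re]; linarith
    · rw [Complex.ofReal_re]; linarith
  have hev : G =ᶠ[𝓝 ((Real.pi / 6 : ℝ) : ℂ)] Λ := by
    have h5 : {w : ℂ | 0 < w.re ∧ w.re < Real.pi / 3} ∈ 𝓝 ((Real.pi / 6 : ℝ) : ℂ) := by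
      refine IsOpen.mem_nhds ?_ ?_
      · exact (isOpen_lt continuous_const Complex.continuous_re).inter
          (isOpen_lt Complex.continuous_re continuous_const)
      · constructor
        · rw [Complex.ofReal_re]; linarith
        · rw [Complex.ofReal_re]; linarith
    filter_upwards [h5] with u hu
    rw [hG]
    simp only
    rw [h.refl u hu.1.le hu.2.le, Complex.conj_conj]
  have hEq := hGa.eqOn_of_preconnected_of_eventuallyEq hL convex_oStrip.isPreconnected hz0 hev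
  have h6 := hEq ⟨h0, h1⟩
  rw [hG] at h6
  simp only at h6
  rw [← h6, Complex.conj_conj]

/-- The fusion defect. -/
noncomputable def defectY (Λ : ℂ → ℂ) (w : ℂ) : ℂ := Λ w * Λ (w + (Real.pi / 3 : ℝ)) - 1

lemma norm_tan_neg_conj (w : ℂ) : ‖Complex.tan (3 * (-(starRingEnd ℂ) w) / 2)‖ =
    ‖Complex.tan (3 * w / 2)‖ := by
  have h1 : ‖Complex.tan (3 * (-(starRingEnd ℂ) w) / 2)‖ ^ 2 = ‖Complex.tan (3 * w / 2)‖ ^ 2 := by
    rw [norm_tan_sq, norm_tan_sq]
    simp
  exact (sq_eq_sq₀ (norm_nonneg _) (norm_nonneg _)).1 h1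

lemma EigFun.norm_defect_le (h : EigFun N Λ) {w : ℂ} (h0 : -(Real.pi / 6) ≤ w.re)
    (h1 : w.re ≤ Real.pi / 6) : ‖defectY Λ w‖ ≤ 3 * ‖Complex.tan (3 * w / 2)‖ ^ N := by
  have hpi := Real.pi_pos
  rcases le_total 0 w.re with h2 | h2
  · exact h.fusion w h2 h1
  · have h3 := h.fusion (-(starRingEnd ℂ) w) (by simpa using h2) (by simp; linarith)
    rw [norm_tan_neg_conj] at h3
    have e1 : Λ (-(starRingEnd ℂ) w) = (starRingEnd ℂ) (Λ (w + (Real.pi / 3 : ℝ))) := by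
      rw [← h.refl_ext (w := w + (Real.pi / 3 : ℝ)) (by simp; linarith) (by simp; linarith)]
      congr 1
      rw [map_add, Complex.conj_ofReal]
      ring
    have e2 : Λ (-(starRingEnd ℂ) w + (Real.pi / 3 : ℝ)) = (starRingEnd ℂ) (Λ w) := by
      rw [← h.refl_ext (w := w) (by linarith) (by linarith)]
      congr 1
      ring
    rw [e1, e2, ← map_mul] at h3
    have e3 : (starRingEnd ℂ) (Λ (w + (Real.pi / 3 : ℝ)) * Λ w) - 1 =
        (starRingEnd ℂ) (defectY Λ w) := by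
      unfold defectY
      rw [map_sub, map_one, mul_comm]
    rwa [e3, RCLike.norm_conj] at h3

lemma norm_tan_le {w : ℂ} (hw : ‖w‖ ≤ 1 / 4) : ‖Complex.tan (3 * w / 2)‖ ≤ 3 / 5 := by
  have h1 : |w.re| ≤ 1 / 4 := (Complex.abs_re_le_norm w).trans hw
  have h2 : |w.im| ≤ 1 / 4 := (Complex.abs_im_le_norm w).trans hw
  have h3 : w.re ^ 2 ≤ 1 / 16 := by
    rw [← sq_abs]
    nlinarith [abs_nonneg w.re]
  have h4 : w.im ^ 2 ≤ 1 / 16 := by
    rw [← sq_abs]
    nlinarith [abs_nonneg w.im]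
  have h5 : 1 - (3 * w.re) ^ 2 / 2 ≤ Real.cos (3 * w.re) := Real.one_sub_sq_div_two_le_cos
  have h6 : Real.cosh (3 * w.im) ≤ 3 / 2 := by
    refine (Real.cosh_le_exp_half_sq _).trans ?_
    have e1 : (3 * w.im) ^ 2 / 2 ≤ 9 / 32 := by nlinarith
    have e2 : 1 - (3 * w.im) ^ 2 / 2 ≤ Real.exp (-((3 * w.im) ^ 2 / 2)) := by
      have := Real.add_one_le_exp (-((3 * w.im) ^ 2 / 2))
      linarith
    have e3 : Real.exp ((3 * w.im) ^ 2 / 2) * Real.exp (-((3 * w.im) ^ 2 / 2)) = 1 := by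
      rw [← Real.exp_add, add_neg_cancel, Real.exp_zero]
    have e4 := Real.exp_pos ((3 * w.im) ^ 2 / 2)
    nlinarith
  have h7 : (0 : ℝ) < Real.cosh (3 * w.im) + Real.cos (3 * w.re) := by
    have := Real.one_le_cosh (3 * w.im)
    nlinarith
  have h8 : ‖Complex.tan (3 * w / 2)‖ ^ 2 ≤ (3 / 5) ^ 2 := by
    rw [norm_tan_sq, div_le_iff₀ h7]
    nlinarith
  exact le_of_sq_le_sq h8 (by norm_num)

lemma pow_le_inv {N : ℕ} (hN : 1 ≤ N) : (3 / 5 : ℝ) ^ N ≤ 1 / N := by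
  have hN' : (0 : ℝ) < N := by exact_mod_cast hN
  have key : (N : ℝ) ≤ (5 / 3) ^ N := by
    rcases Nat.lt_or_ge N 2 with h | h
    · have : N = 1 := by omega
      subst this
      norm_num
    · induction N, h using Nat.le_induction with
      | base => norm_num
      | succ n hn ih =>
        have h1 := ih (by omega) (by positivity)
        have h2 : (2 : ℝ) ≤ n := by exact_mod_cast hn
        push_cast
        rw [pow_succ]
        nlinarith
  rw [le_div_iff₀ hN']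
  have h3 : (3 / 5 : ℝ) ^ N * (5 / 3) ^ N = 1 := by
    rw [← mul_pow]
    norm_num
  have h4 : (0 : ℝ) < (3 / 5) ^ N := by positivity
  nlinarith

lemma EigFun.norm_defect_le' (h : EigFun N Λ) (hN : 1 ≤ N) {w : ℂ} (hw : ‖w‖ ≤ 1 / 4) :
    ‖defectY Λ w‖ ≤ 3 / N := by
  have hpi := Real.pi_gt_three
  have h1 := abs_le.1 ((Complex.abs_re_le_norm w).trans hw)
  refine (h.norm_defect_le (by linarith [h1.1]) (by linarith [h1.2])).trans ?_
  have h2 : ‖Complex.tan (3 * w / 2)‖ ^ N ≤ 1 / N :=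
    (pow_le_pow_left₀ (norm_nonneg _) (norm_tan_le hw) N).trans (pow_le_inv hN)
  calc _ ≤ 3 * (1 / (N : ℝ)) := by gcongr
    _ = 3 / N := by ring

lemma cosh_three_le : Real.cosh 3 ≤ 11 := by
  have h1 : Real.exp 3 = Real.exp 1 ^ 3 := by rw [← Real.exp_nat_mul]; norm_num
  have h2 := Real.exp_one_lt_d9
  have h3 : Real.exp 3 ≤ 21 := by
    rw [h1]
    have : Real.exp 1 ≤ 2.7182818286 := h2.le
    calc Real.exp 1 ^ 3 ≤ 2.7182818286 ^ 3 := by gcongr
      _ ≤ 21 := by norm_num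
  have h4 : Real.exp (-3) ≤ 1 := by
    rw [Real.exp_le_one_iff]
    norm_num
  rw [Real.cosh_eq]
  linarith

lemma cosh_le_eleven {y : ℝ} (hy : |y| ≤ 1) : Real.cosh (3 * y) ≤ 11 := by
  refine le_trans ?_ cosh_three_le
  rw [Real.cosh_le_cosh, abs_mul]
  have : |(3 : ℝ)| = 3 := abs_of_pos (by norm_num)
  rw [this]
  linarith

/-- The discs around the centre line. -/
lemma EigFun.ball_props (h : EigFun N Λ) (hN : 1 ≤ N) {E : ℝ}
    (hE : Real.exp (-E) ≤ ‖Λ ((Real.pi / 6 : ℝ) : ℂ)‖) (hη : 22 * (max E 0 + 2 / N) ≤ 1)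
    {y : ℝ} (hy : |y| ≤ 1 / 4) :
    DifferentiableOn ℂ (fun w => Λ w * (Real.exp (-(22 / N)) : ℝ))
        (ball (((Real.pi / 6 : ℝ) : ℂ) + (y : ℂ) * I) (Real.pi / 6)) ∧
      (∀ w ∈ ball (((Real.pi / 6 : ℝ) : ℂ) + (y : ℂ) * I) (Real.pi / 6), Λ w ≠ 0) ∧
      (∀ w ∈ ball (((Real.pi / 6 : ℝ) : ℂ) + (y : ℂ) * I) (Real.pi / 6),
        ‖Λ w * (Real.exp (-(22 / N)) : ℝ)‖ ≤ 1) := by
  have hpi := Real.pi_gt_three
  have hpi2 := Real.pi_lt_d2
  have hN' : (0 : ℝ) < N := by exact_mod_cast hN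
  have key : ∀ w ∈ ball (((Real.pi / 6 : ℝ) : ℂ) + (y : ℂ) * I) (Real.pi / 6),
      0 < w.re ∧ w.re < Real.pi / 3 ∧ |w.im| ≤ 1 := by
    intro w hw
    rw [mem_ball_iff_norm] at hw
    have h1 := (Complex.abs_re_le_norm _).trans_lt hw
    have h2 := (Complex.abs_im_le_norm _).trans_lt hw
    have e1 : (w - (((Real.pi / 6 : ℝ) : ℂ) + (y : ℂ) * I)).re = w.re - Real.pi / 6 := by simp
    have e2 : (w - (((Real.pi / 6 : ℝ) : ℂ) + (y : ℂ) * I)).im = w.im - y := by simp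
    rw [e1, abs_lt] at h1
    rw [e2] at h2
    refine ⟨by linarith [h1.1], by linarith [h1.2], ?_⟩
    have h3 : |w.im| ≤ |w.im - y| + |y| := by
      have := abs_add_le (w.im - y) y
      simpa using this
    linarith
  refine ⟨?_, ?_, ?_⟩
  · intro w hw
    obtain ⟨k1, k2, -⟩ := key w hw
    exact ((h.diffAt (by linarith) (by linarith)).mul_const _).differentiableWithinAt
  · intro w hw
    obtain ⟨k1, k2, k3⟩ := key w hw
    refine h.lemB hN hE k1.le k2.le ?_
    have h4 := cosh_le_eleven k3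
    have h5 : 0 ≤ max E 0 + 2 / (N : ℝ) := by
      have := le_max_right E 0
      positivity
    nlinarith
  · intro w hw
    obtain ⟨k1, k2, k3⟩ := key w hw
    have h4 := h.norm_le_exp hN k1.le k2.le
    rw [norm_mul, Complex.norm_real, Real.norm_eq_abs, abs_of_pos (Real.exp_pos _)]
    have h5 : Real.exp (2 * Real.cosh (3 * w.im) / N) ≤ Real.exp (22 / N) := by
      rw [Real.exp_le_exp]
      have := cosh_le_eleven k3
      gcongr
      linarith
    calc ‖Λ w‖ * Real.exp (-(22 / N)) ≤ Real.exp (22 / N) * Real.exp (-(22 / N)) := by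
          gcongr
          exact h4.trans h5
      _ = 1 := by rw [← Real.exp_add, add_neg_cancel, Real.exp_zero]

/-- The gradient bound in the strip. -/
lemma EigFun.grad_strip (h : EigFun N Λ) (hN : 1 ≤ N) {E : ℝ}
    (hE : Real.exp (-E) ≤ ‖Λ ((Real.pi / 6 : ℝ) : ℂ)‖) (hη : 22 * (max E 0 + 2 / N) ≤ 1)
    {w : ℂ} (h0 : 0 < w.re) (h1 : w.re < Real.pi / 3) (hy : |w.im| ≤ 1 / 4) :
    ‖deriv Λ w / Λ w‖ ≤ 4 * Real.pi * (max E 0 + 22 / N) /
      (Real.pi / 6 - |w.re - Real.pi / 6|) ^ 2 := by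
  have hpi := Real.pi_gt_three
  have hN' : (0 : ℝ) < N := by exact_mod_cast hN
  obtain ⟨M, hM⟩ : ∃ M : ℝ, M = max E 0 + 22 / N := ⟨_, rfl⟩
  have hM0 : 0 < M := by
    rw [hM]
    have := le_max_right E 0
    positivity
  obtain ⟨f, hf⟩ : ∃ f : ℂ → ℂ, f = fun w => Λ w * (Real.exp (-(22 / N)) : ℝ) := ⟨_, rfl⟩
  obtain ⟨a1, a2, a3⟩ := h.ball_props hN hE hη (y := 0) (by simp)
  obtain ⟨b1, b2, b3⟩ := h.ball_props hN hE hη hy
  have hex : ((Real.exp (-(22 / N)) : ℝ) : ℂ) ≠ 0 := by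
    exact_mod_cast (Real.exp_pos _).ne'
  rw [Complex.ofReal_zero, zero_mul, add_zero] at a1 a2 a3
  have hc : Real.exp (-M) ≤ ‖f ((Real.pi / 6 : ℝ) : ℂ)‖ := by
    rw [hf]
    simp only
    rw [norm_mul, Complex.norm_real, Real.norm_eq_abs, abs_of_pos (Real.exp_pos _)]
    calc Real.exp (-M) ≤ Real.exp (-E) * Real.exp (-(22 / N)) := by
          rw [← Real.exp_add, Real.exp_le_exp, hM]
          have := le_max_left E 0
          linarith
      _ ≤ _ := by gcongr
  have hc2 : Real.exp (-(3 * M)) ≤ ‖f (((Real.pi / 6 : ℝ) : ℂ) + (w.im : ℂ) * I)‖ := by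
    refine harnack_lower (f := f) (r := Real.pi / 6) (by positivity) (by rw [hf]; exact a1) ?_ ?_ hM0
      hc ?_
    · intro z hz
      rw [hf]
      exact mul_ne_zero (a2 z hz) hex
    · intro z hz
      rw [hf]
      exact a3 z hz
    · rw [add_sub_cancel_left, norm_mul, Complex.norm_I, mul_one, Complex.norm_real,
        Real.norm_eq_abs]
      linarith
  have e0 : w - (((Real.pi / 6 : ℝ) : ℂ) + (w.im : ℂ) * I) = ((w.re - Real.pi / 6 : ℝ) : ℂ) := by
    apply Complex.ext <;> simp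
  have e1 : ‖w - (((Real.pi / 6 : ℝ) : ℂ) + (w.im : ℂ) * I)‖ = |w.re - Real.pi / 6| := by
    rw [e0, Complex.norm_real, Real.norm_eq_abs]
  have hw : w ∈ ball (((Real.pi / 6 : ℝ) : ℂ) + (w.im : ℂ) * I) (Real.pi / 6) := by
    rw [mem_ball_iff_norm, e1, abs_lt]
    constructor <;> linarith
  have h2 := harnack_grad (f := f) (r := Real.pi / 6) (M := 3 * M) (by positivity)
    (by rw [hf]; exact b1) (by
      intro z hz
      rw [hf]
      exact mul_ne_zero (b2 z hz) hex) (by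
      intro z hz
      rw [hf]
      exact b3 z hz) (by positivity) hc2 hw
  have e2 : deriv f w / f w = deriv Λ w / Λ w := by
    have : deriv f w = deriv Λ w * (Real.exp (-(22 / N)) : ℝ) := by
      rw [hf]
      exact ((h.diffAt (by linarith) (by linarith)).hasDerivAt.mul_const _).deriv
    rw [this, hf]
    simp only
    exact mul_div_mul_right _ _ hex
  rw [e2, e1] at h2
  refine h2.trans (le_of_eq ?_)
  rw [← hM]
  ring

lemma EigFun.ne_zero_near (h : EigFun N Λ) (hN : 4 ≤ N) {w : ℂ} (hw : ‖w‖ ≤ 1 / 4) : Λ w ≠ 0 := by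
  intro h0
  have h1 := h.norm_defect_le' (by omega) hw
  unfold defectY at h1
  rw [h0, zero_mul, zero_sub, norm_neg, norm_one] at h1
  have h2 : (4 : ℝ) ≤ N := by exact_mod_cast hN
  rw [le_div_iff₀ (by linarith)] at h1
  linarith

/-- The derivative of the fusion relation. -/
lemma EigFun.grad_defect (h : EigFun N Λ) (hN : 6 ≤ N) {w : ℂ} (hw : ‖w‖ ≤ 1 / 8) :
    ‖deriv Λ w / Λ w + deriv Λ (w + (Real.pi / 3 : ℝ)) / Λ (w + (Real.pi / 3 : ℝ))‖ ≤ 48 / N := by
  have hpi := Real.pi_gt_three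
  have hN' : (6 : ℝ) ≤ N := by exact_mod_cast hN
  have hN0 : (0 : ℝ) < N := by linarith
  have hre : ∀ u : ℂ, ‖u‖ ≤ 1 / 4 → |u.re| ≤ 1 / 4 := fun u hu =>
    (Complex.abs_re_le_norm u).trans hu
  have hd : ∀ u : ℂ, ‖u‖ ≤ 1 / 4 → HasDerivAt (defectY Λ)
      (deriv Λ u * Λ (u + (Real.pi / 3 : ℝ)) + Λ u * deriv Λ (u + (Real.pi / 3 : ℝ))) u := by
    intro u hu
    have h1 := abs_le.1 (hre u hu)
    have h2 : HasDerivAt Λ (deriv Λ u) u :=
      (h.diffAt (by linarith [h1.1]) (by linarith [h1.2])).hasDerivAt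
    have h3 : HasDerivAt Λ (deriv Λ (u + (Real.pi / 3 : ℝ))) (u + (Real.pi / 3 : ℝ)) := by
      refine (h.diffAt ?_ ?_).hasDerivAt
      · rw [Complex.add_re, Complex.ofReal_re]; linarith [h1.1]
      · rw [Complex.add_re, Complex.ofReal_re]; linarith [h1.2]
    have h4 : HasDerivAt (fun v => Λ (v + (Real.pi / 3 : ℝ))) (deriv Λ (u + (Real.pi / 3 : ℝ))) u :=
      h3.comp_add_const u _
    exact (h2.mul h4).sub_const 1
  have hsub : ∀ u ∈ closedBall w (1 / 8), ‖u‖ ≤ 1 / 4 := by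
    intro u hu
    rw [mem_closedBall, dist_eq_norm] at hu
    have h1 := norm_add_le (u - w) w
    rw [sub_add_cancel] at h1
    linarith
  have h5 : ‖deriv (defectY Λ) w‖ ≤ 3 / N / (1 / 8) := by
    refine Complex.norm_deriv_le_of_forall_mem_sphere_norm_le (by norm_num) ?_ ?_
    · refine DifferentiableOn.diffContOnCl ?_
      intro u hu
      exact (hd u (hsub u (closure_ball_subset_closedBall hu))).differentiableAt.differentiableWithinAt
    · intro u hu
      exact h.norm_defect_le' (by omega) (hsub u (sphere_subset_closedBall hu))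
  have hw' : ‖w‖ ≤ 1 / 4 := by linarith
  rw [(hd w hw').deriv] at h5
  have h6 := h.norm_defect_le' (by omega) hw'
  have h7 : (1 / 2 : ℝ) ≤ ‖Λ w * Λ (w + (Real.pi / 3 : ℝ))‖ := by
    have e1 : (1 : ℂ) = Λ w * Λ (w + (Real.pi / 3 : ℝ)) - defectY Λ w := by unfold defectY; ring
    have e2 : (1 : ℝ) ≤ ‖Λ w * Λ (w + (Real.pi / 3 : ℝ))‖ + ‖defectY Λ w‖ := by
      calc (1 : ℝ) = ‖(1 : ℂ)‖ := norm_one.symm
        _ = ‖Λ w * Λ (w + (Real.pi / 3 : ℝ)) - defectY Λ w‖ := by rw [← e1]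
        _ ≤ _ := norm_sub_le _ _
    have e3 : (3 : ℝ) / N ≤ 1 / 2 := by
      rw [div_le_iff₀ hN0]
      linarith
    linarith
  have h8 : Λ w ≠ 0 ∧ Λ (w + (Real.pi / 3 : ℝ)) ≠ 0 := by
    constructor
    · intro h9
      rw [h9, zero_mul, norm_zero] at h7
      linarith
    · intro h9
      rw [h9, mul_zero, norm_zero] at h7
      linarith
  have h9 : deriv Λ w / Λ w + deriv Λ (w + (Real.pi / 3 : ℝ)) / Λ (w + (Real.pi / 3 : ℝ)) =
      (deriv Λ w * Λ (w + (Real.pi / 3 : ℝ)) + Λ w * deriv Λ (w + (Real.pi / 3 : ℝ))) /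
        (Λ w * Λ (w + (Real.pi / 3 : ℝ))) := by
    obtain ⟨k1, k2⟩ := h8
    field_simp
  rw [h9, norm_div]
  calc _ ≤ (3 / N / (1 / 8)) / (1 / 2 : ℝ) := by gcongr
    _ = 48 / N := by ring

/-- The bound of the logarithmic derivative near zero. -/
lemma EigFun.grad_near (h : EigFun N Λ) (hN : 6 ≤ N) {E : ℝ}
    (hE : Real.exp (-E) ≤ ‖Λ ((Real.pi / 6 : ℝ) : ℂ)‖) (hη : 22 * (max E 0 + 2 / N) ≤ 1)
    {w : ℂ} (hw : ‖w‖ ≤ 1 / 16) :
    ‖deriv Λ w / Λ w‖ ≤ 7300 * (max E 0 + 23 / N) := by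
  have hpi := Real.pi_gt_three
  have hpi2 := Real.pi_lt_d2
  have hN0 : (0 : ℝ) < N := by
    have : (6 : ℝ) ≤ N := by exact_mod_cast hN
    linarith
  obtain ⟨M, hM⟩ : ∃ M : ℝ, M = max E 0 + 22 / N := ⟨_, rfl⟩
  have hM0 : 0 < M := by
    rw [hM]
    have := le_max_right E 0
    positivity
  obtain ⟨F, hF⟩ : ∃ F : ℂ → ℂ, F = fun w => (w ^ 2 + 1 / 64) ^ 2 * (deriv Λ w / Λ w) := ⟨_, rfl⟩
  have hd : DiffContOnCl ℂ F (ball 0 (1 / 8)) := by
    refine DifferentiableOn.diffContOnCl ?_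
    intro u hu
    have hu' : ‖u‖ ≤ 1 / 8 := by
      have := closure_ball_subset_closedBall hu
      rwa [mem_closedBall_zero_iff] at this
    have h1 := abs_le.1 ((Complex.abs_re_le_norm u).trans hu')
    have h2 : u ∈ oStrip := ⟨by linarith [h1.1], by linarith [h1.2]⟩
    have h3 : DifferentiableAt ℂ (deriv Λ) u :=
      (h.diff.deriv isOpen_oStrip).differentiableAt (isOpen_oStrip.mem_nhds h2)
    have h4 : DifferentiableAt ℂ Λ u := h.diffAt h2.1 h2.2
    have h5 : Λ u ≠ 0 := h.ne_zero_near (by omega) (by linarith)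
    rw [hF]
    exact ((by fun_prop : DifferentiableAt ℂ (fun w : ℂ => (w ^ 2 + 1 / 64) ^ 2) u).mul
      (h3.div h4 h5)).differentiableWithinAt
  have hbd : ∀ u ∈ frontier (ball (0 : ℂ) (1 / 8)), ‖F u‖ ≤ M + 1 / N := by
    intro u hu
    rw [frontier_ball (0 : ℂ) (by norm_num : (1 / 8 : ℝ) ≠ 0), mem_sphere_zero_iff_norm] at hu
    have h1 := abs_le.1 ((Complex.abs_re_le_norm u).trans hu.le)
    have h2 : |u.im| ≤ 1 / 4 := (Complex.abs_im_le_norm u).trans (by linarith)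
    have e1 : u ^ 2 + 1 / 64 = u * ((2 * u.re : ℝ) : ℂ) := by
      have e2 : u * (starRingEnd ℂ) u = 1 / 64 := by
        rw [Complex.mul_conj', hu]
        norm_num
      have e3 : u + (starRingEnd ℂ) u = ((2 * u.re : ℝ) : ℂ) := by
        rw [Complex.add_conj]
      rw [← e3, mul_add, e2]
      ring
    have e4 : ‖(u ^ 2 + 1 / 64) ^ 2‖ = u.re ^ 2 / 16 := by
      rw [norm_pow, e1, norm_mul, hu, Complex.norm_real, Real.norm_eq_abs, mul_pow, sq_abs]
      ring
    have e5 : ‖F u‖ = u.re ^ 2 / 16 * ‖deriv Λ u / Λ u‖ := by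
      rw [hF]
      simp only
      rw [norm_mul, e4]
    have hre2 : u.re ^ 2 ≤ 1 / 64 := by nlinarith [h1.1, h1.2]
    have hMN : 0 < M + 1 / N := by positivity
    rw [e5]
    rcases lt_trichotomy u.re 0 with h3 | h3 | h3
    · have g1 := h.grad_defect hN (w := u) (by linarith)
      have g2 := h.grad_strip (by omega) hE hη (w := u + (Real.pi / 3 : ℝ))
        (by rw [Complex.add_re, Complex.ofReal_re]; linarith [h1.1])
        (by rw [Complex.add_re, Complex.ofReal_re]; linarith)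
        (by rw [Complex.add_im, Complex.ofReal_im, add_zero]; exact h2)
      have g3 : Real.pi / 6 - |(u + (Real.pi / 3 : ℝ)).re - Real.pi / 6| = -u.re := by
        rw [Complex.add_re, Complex.ofReal_re, abs_of_nonneg (by linarith [h1.1])]
        ring
      rw [g3, ← hM] at g2
      have g4 : ‖deriv Λ u / Λ u‖ ≤ 48 / N + 4 * Real.pi * M / (-u.re) ^ 2 := by
        have := norm_sub_le (deriv Λ u / Λ u + deriv Λ (u + (Real.pi / 3 : ℝ)) /
          Λ (u + (Real.pi / 3 : ℝ))) (deriv Λ (u + (Real.pi / 3 : ℝ)) / Λ (u + (Real.pi / 3 : ℝ)))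
        rw [add_sub_cancel_right] at this
        linarith
      have g5 : u.re ^ 2 / 16 * (48 / N + 4 * Real.pi * M / (-u.re) ^ 2) =
          u.re ^ 2 * (3 / N) + Real.pi / 4 * M := by
        have : u.re ≠ 0 := h3.ne
        field_simp
        ring
      calc u.re ^ 2 / 16 * ‖deriv Λ u / Λ u‖ ≤
          u.re ^ 2 / 16 * (48 / N + 4 * Real.pi * M / (-u.re) ^ 2) := by gcongr
        _ = u.re ^ 2 * (3 / N) + Real.pi / 4 * M := g5
        _ ≤ 1 / 64 * (3 / N) + 1 * M := by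
            gcongr
            linarith
        _ ≤ M + 1 / N := by
            have : (0 : ℝ) < 1 / N := by positivity
            have e6 : (1 : ℝ) / 64 * (3 / N) = 3 / 64 * (1 / N) := by ring
            rw [e6]
            linarith
    · rw [h3]
      simpa using hMN.le
    · have g2 := h.grad_strip (by omega) hE hη (w := u) h3 (by linarith [h1.2]) h2
      have g3 : Real.pi / 6 - |u.re - Real.pi / 6| = u.re := by
        rw [abs_of_nonpos (by linarith [h1.2])]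
        ring
      rw [g3, ← hM] at g2
      calc u.re ^ 2 / 16 * ‖deriv Λ u / Λ u‖ ≤ u.re ^ 2 / 16 * (4 * Real.pi * M / u.re ^ 2) := by
            gcongr
        _ = Real.pi / 4 * M := by
            field_simp
            norm_num
        _ ≤ 1 * M := by
            gcongr
            linarith
        _ ≤ M + 1 / N := by
            have : (0 : ℝ) < 1 / N := by positivity
            linarith
  have hw' : w ∈ closure (ball (0 : ℂ) (1 / 8)) := by
    rw [closure_ball (0 : ℂ) (by norm_num : (1 / 8 : ℝ) ≠ 0), mem_closedBall_zero_iff]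
    linarith
  have h3 := Complex.norm_le_of_forall_mem_frontier_norm_le isBounded_ball hd hbd hw'
  have h4 : (3 : ℝ) / 256 ≤ ‖w ^ 2 + 1 / 64‖ := by
    have e1 : ‖(1 / 64 : ℂ)‖ ≤ ‖w ^ 2 + 1 / 64‖ + ‖w ^ 2‖ := by
      have := norm_sub_le (w ^ 2 + 1 / 64) (w ^ 2)
      rwa [add_sub_cancel_left] at this
    have e2 : ‖(1 / 64 : ℂ)‖ = 1 / 64 := by norm_num
    have e3 : ‖w ^ 2‖ ≤ 1 / 256 := by
      rw [norm_pow]
      nlinarith [norm_nonneg w]
    linarith
  have h5 : (9 : ℝ) / 65536 * ‖deriv Λ w / Λ w‖ ≤ M + 1 / N := by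
    refine le_trans ?_ h3
    rw [hF]
    simp only
    rw [norm_mul, norm_pow]
    have e1 : (9 : ℝ) / 65536 ≤ ‖w ^ 2 + 1 / 64‖ ^ 2 := by nlinarith
    gcongr
  have h6 : M + 1 / N = max E 0 + 23 / N := by rw [hM]; ring
  rw [h6] at h5
  have h7 : 0 ≤ max E 0 + 23 / (N : ℝ) := by
    have := le_max_right E 0
    positivity
  nlinarith [norm_nonneg (deriv Λ w / Λ w)]

/-- The logarithmic derivative on the segment `[0, π/6]`. -/
lemma EigFun.grad_seg (h : EigFun N Λ) (hN : 6 ≤ N) {E : ℝ}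
    (hE : Real.exp (-E) ≤ ‖Λ ((Real.pi / 6 : ℝ) : ℂ)‖) (hη : 22 * (max E 0 + 2 / N) ≤ 1)
    {x : ℝ} (h0 : 0 ≤ x) (h1 : x ≤ Real.pi / 6) :
    ‖deriv Λ (x : ℂ) / Λ (x : ℂ)‖ ≤ 7300 * (max E 0 + 23 / N) := by
  have hpi := Real.pi_gt_three
  have hpi2 := Real.pi_lt_d2
  have hN0 : (0 : ℝ) < N := by
    have : (6 : ℝ) ≤ N := by exact_mod_cast hN
    linarith
  have hm := le_max_right E 0
  rcases le_total x (1 / 16) with h2 | h2
  · exact h.grad_near hN hE hη (by rwa [Complex.norm_real, Real.norm_eq_abs, abs_of_nonneg h0])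
  · have g2 := h.grad_strip (by omega) hE hη (w := (x : ℂ)) (by rw [Complex.ofReal_re]; linarith)
      (by rw [Complex.ofReal_re]; linarith) (by simp)
    have g3 : Real.pi / 6 - |(x : ℂ).re - Real.pi / 6| = x := by
      rw [Complex.ofReal_re, abs_of_nonpos (by linarith)]
      ring
    rw [g3] at g2
    refine g2.trans ?_
    rw [div_le_iff₀ (by positivity)]
    have e1 : (1 : ℝ) / 256 ≤ x ^ 2 := by nlinarith
    have e2 : (22 : ℝ) / N ≤ 23 / N := by gcongr; norm_num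
    have e3 : 0 ≤ max E 0 + 23 / (N : ℝ) := by positivity
    calc 4 * Real.pi * (max E 0 + 22 / N) ≤ 4 * 3.15 * (max E 0 + 23 / N) := by gcongr
      _ ≤ 7300 * (max E 0 + 23 / N) * (1 / 256) := by nlinarith
      _ ≤ 7300 * (max E 0 + 23 / N) * x ^ 2 := by gcongr

/-- The relation of the values at the centre and at the side. -/
lemma EigFun.log_seg (h : EigFun N Λ) (hN : 6 ≤ N) {E : ℝ}
    (hE : Real.exp (-E) ≤ ‖Λ ((Real.pi / 6 : ℝ) : ℂ)‖) (hη : 22 * (max E 0 + 2 / N) ≤ 1) :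
    ∃ z : ℂ, ‖z‖ ≤ 3900 * (max E 0 + 23 / N) ∧
      Λ 0 = Λ ((Real.pi / 6 : ℝ) : ℂ) * Complex.exp z := by
  have hpi := Real.pi_gt_three
  have hpi2 := Real.pi_lt_d2
  have hN0 : (0 : ℝ) < N := by
    have : (6 : ℝ) ≤ N := by exact_mod_cast hN
    linarith
  have hm := le_max_right E 0
  have hreg : ∀ w ∈ ball (((Real.pi / 12 : ℝ) : ℂ)) (Real.pi / 12 + 1 / 100),
      -(1 / 100) < w.re ∧ w.re < Real.pi / 6 + 1 / 100 ∧ Λ w ≠ 0 := by
    intro w hw
    rw [mem_ball_iff_norm] at hw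
    have e1 : (w - ((Real.pi / 12 : ℝ) : ℂ)).re = w.re - Real.pi / 12 := by simp
    have e2 : (w - ((Real.pi / 12 : ℝ) : ℂ)).im = w.im := by simp
    have h1 := (Complex.abs_re_le_norm _).trans_lt hw
    have h2 := (Complex.abs_im_le_norm _).trans_lt hw
    rw [e1, abs_lt] at h1
    rw [e2] at h2
    refine ⟨by linarith [h1.1], by linarith [h1.2], ?_⟩
    rcases le_total 0 w.re with h3 | h3
    · refine h.lemB (by omega) hE h3 (by linarith [h1.2]) ?_
      have h4 := cosh_le_eleven (y := w.im) (by linarith)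
      have h5 : 0 ≤ max E 0 + 2 / (N : ℝ) := by positivity
      nlinarith
    · refine h.ne_zero_near (by omega) ?_
      have h4 : ‖w - ((Real.pi / 12 : ℝ) : ℂ)‖ ^ 2 < (Real.pi / 12 + 1 / 100) ^ 2 := by
        have := norm_nonneg (w - ((Real.pi / 12 : ℝ) : ℂ))
        nlinarith
      rw [Complex.sq_norm, Complex.normSq_apply, e1, e2] at h4
      have h5 : ‖w‖ ^ 2 ≤ (1 / 4) ^ 2 := by
        rw [Complex.sq_norm, Complex.normSq_apply]
        nlinarith
      exact le_of_sq_le_sq h5 (by norm_num)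
  have hd : DifferentiableOn ℂ Λ (ball (((Real.pi / 12 : ℝ) : ℂ)) (Real.pi / 12 + 1 / 100)) := by
    intro w hw
    obtain ⟨k1, k2, -⟩ := hreg w hw
    exact (h.diffAt (by linarith) (by linarith)).differentiableWithinAt
  obtain ⟨H, -, hH1, hH2⟩ := exists_log_disc (by positivity) hd (fun w hw => (hreg w hw).2.2)
  have hmem : ∀ x : ℝ, 0 ≤ x → x ≤ Real.pi / 6 →
      (x : ℂ) ∈ ball (((Real.pi / 12 : ℝ) : ℂ)) (Real.pi / 12 + 1 / 100) := by
    intro x h0 h1
    rw [mem_ball_iff_norm, ← Complex.ofReal_sub, Complex.norm_real, Real.norm_eq_abs, abs_lt]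
    constructor <;> linarith
  have hseg : ∀ z ∈ segment ℝ (((Real.pi / 6 : ℝ) : ℂ)) 0, ∃ x : ℝ, 0 ≤ x ∧ x ≤ Real.pi / 6 ∧
      z = (x : ℂ) := by
    rintro z ⟨a, b, ha, hb, hab, rfl⟩
    refine ⟨a * (Real.pi / 6), by positivity, ?_, ?_⟩
    · have : a ≤ 1 := by linarith
      nlinarith
    · simp
  have hmv := (convex_segment (𝕜 := ℝ) (((Real.pi / 6 : ℝ) : ℂ)) (0 : ℂ)).norm_image_sub_le_of_norm_hasDerivWithin_le
    (f := H) (f' := fun z => deriv Λ z / Λ z) (C := 7300 * (max E 0 + 23 / N))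
    (x := ((Real.pi / 6 : ℝ) : ℂ)) (y := 0) (by
      intro z hz
      obtain ⟨x, h0, h1, rfl⟩ := hseg z hz
      exact (hH1 _ (hmem x h0 h1)).hasDerivWithinAt) (by
      intro z hz
      obtain ⟨x, h0, h1, rfl⟩ := hseg z hz
      exact h.grad_seg hN hE hη h0 h1) (left_mem_segment ℝ _ _) (right_mem_segment ℝ _ _)
  refine ⟨H 0 - H ((Real.pi / 6 : ℝ) : ℂ), ?_, ?_⟩
  · refine hmv.trans ?_
    rw [zero_sub, norm_neg, Complex.norm_real, Real.norm_eq_abs, abs_of_pos (by positivity)]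
    have e3 : 0 ≤ max E 0 + 23 / (N : ℝ) := by positivity
    nlinarith
  · have e1 := hH2 _ (hmem 0 le_rfl (by positivity))
    have e2 := hH2 _ (hmem (Real.pi / 6) (by positivity) le_rfl)
    rw [Complex.ofReal_zero] at e1
    rw [e1, e2, mul_assoc, ← Complex.exp_add]
    congr 2
    ring

/-- **The weak cone for all states.** -/
theorem weak_cone : ∃ C : ℝ, 0 < C ∧ ∀ (N : ℕ) (Λ : ℂ → ℂ), 1 ≤ N → EigFun N Λ →
    ∃ σ k : ℝ, (σ = 1 ∨ σ = -1) ∧ |k| ≤ Real.pi ∧ Λ 0 = (σ : ℂ) * Complex.exp ((k : ℂ) * I) ∧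
      Λ ((Real.pi / 6 : ℝ) : ℂ) = (σ : ℂ) * ((‖Λ ((Real.pi / 6 : ℝ) : ℂ)‖ : ℝ) : ℂ) ∧
      ‖Λ ((Real.pi / 6 : ℝ) : ℂ)‖ ≤ Real.exp (C / N - |k| / C) := by
  refine ⟨10000, by norm_num, ?_⟩
  intro N Λ hN h
  have hpi := Real.pi_gt_three
  have hpi2 := Real.pi_lt_d2
  have hN0 : (0 : ℝ) < N := by exact_mod_cast hN
  have hNi : (0 : ℝ) < 1 / N := by positivity
  obtain ⟨R, hR⟩ : ∃ R : ℝ, R = ‖Λ ((Real.pi / 6 : ℝ) : ℂ)‖ := ⟨_, rfl⟩
  have hR0 : 0 ≤ R := by rw [hR]; exact norm_nonneg _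
  -- the value at the centre is real
  have hreal : (((Λ ((Real.pi / 6 : ℝ) : ℂ)).re : ℝ) : ℂ) = Λ ((Real.pi / 6 : ℝ) : ℂ) := by
    have h1 := h.refl ((Real.pi / 6 : ℝ) : ℂ) (by rw [Complex.ofReal_re]; positivity)
      (by rw [Complex.ofReal_re]; linarith)
    rw [Complex.conj_ofReal, ← Complex.ofReal_sub] at h1
    have e1 : Real.pi / 3 - Real.pi / 6 = Real.pi / 6 := by ring
    rw [e1] at h1
    exact Complex.conj_eq_iff_re.1 h1.symm
  obtain ⟨σ, hσ, hσc⟩ : ∃ σ : ℝ, (σ = 1 ∨ σ = -1) ∧ Λ ((Real.pi / 6 : ℝ) : ℂ) = (σ : ℂ) * (R : ℂ) := by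
    obtain ⟨a, ha⟩ : ∃ a : ℝ, a = (Λ ((Real.pi / 6 : ℝ) : ℂ)).re := ⟨_, rfl⟩
    have hRa : R = |a| := by
      rw [hR, ← hreal, Complex.norm_real, Real.norm_eq_abs, ha]
    rcases le_total 0 a with h0 | h0
    · refine ⟨1, Or.inl rfl, ?_⟩
      rw [hRa, abs_of_nonneg h0, ← hreal, ← ha]
      simp
    · refine ⟨-1, Or.inr rfl, ?_⟩
      rw [hRa, abs_of_nonpos h0, ← hreal, ← ha]
      simp
  have hσ2 : σ * σ = 1 := by rcases hσ with h1 | h1 <;> rw [h1] <;> norm_num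
  -- the value at the side has norm one
  have hside : ‖Λ 0‖ = 1 := by
    have h1 := h.side 0
    rw [Complex.ofReal_zero, zero_mul, abs_zero, mul_zero, zero_div, Real.tanh_zero,
      zero_pow (by omega), mul_zero] at h1
    have h2 : ‖Λ 0‖ ^ 2 = 1 := by
      have := abs_nonpos_iff.1 h1
      linarith
    exact (pow_eq_one_iff_of_nonneg (norm_nonneg _) (by norm_num)).1 h2
  -- the argument as a fallback
  obtain ⟨k₀, hk₀, hk₁⟩ : ∃ k : ℝ, |k| ≤ Real.pi ∧ Λ 0 = (σ : ℂ) * Complex.exp ((k : ℂ) * I) := by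
    refine ⟨Complex.arg ((σ : ℂ) * Λ 0), Complex.abs_arg_le_pi _, ?_⟩
    have h1 : ‖(σ : ℂ) * Λ 0‖ = 1 := by
      rw [norm_mul, hside, mul_one, Complex.norm_real, Real.norm_eq_abs]
      rcases hσ with h1 | h1 <;> rw [h1] <;> norm_num
    have h2 := Complex.norm_mul_exp_arg_mul_I ((σ : ℂ) * Λ 0)
    rw [h1, Complex.ofReal_one, one_mul] at h2
    rw [h2, ← mul_assoc, ← Complex.ofReal_mul, hσ2, Complex.ofReal_one, one_mul]
  rw [← hR]
  -- final inequality
  have fin : ∀ k : ℝ, R = 0 ∨ |k| ≤ 10000 * (-Real.log R) + 100000000 / N →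
      R ≤ Real.exp (10000 / N - |k| / 10000) := by
    intro k hk
    rcases hR0.eq_or_lt with h1 | h1
    · rw [← h1]
      exact (Real.exp_pos _).le
    · have h2 : |k| ≤ 10000 * (-Real.log R) + 100000000 / N := by
        rcases hk with h3 | h3
        · linarith
        · exact h3
      rw [← Real.log_le_iff_le_exp h1]
      have e1 : (100000000 : ℝ) / N = 10000 * (10000 / N) := by ring
      rw [e1] at h2
      linarith
  rcases hR0.eq_or_lt with hz | hpos
  · exact ⟨σ, k₀, hσ, hk₀, hk₁, hσc, fin k₀ (Or.inl hz.symm)⟩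
  obtain ⟨E, hE⟩ : ∃ E : ℝ, E = -Real.log R := ⟨_, rfl⟩
  have hRE : R = Real.exp (-E) := by rw [hE, neg_neg, Real.exp_log hpos]
  have hE2 : -(2 / N) ≤ E := by
    have h1 := h.norm_centre_le hN
    rw [← hR, hRE, Real.exp_le_exp] at h1
    linarith
  have c1 : (100000000 : ℝ) / N = 100000000 * (1 / N) := by ring
  have c2 : (2 : ℝ) / N = 2 * (1 / N) := by ring
  have c3 : (23 : ℝ) / N = 23 * (1 / N) := by ring
  rw [c2] at hE2
  by_cases hη : 22 * (max E 0 + 2 / N) ≤ 1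
  · have hN6 : 6 ≤ N := by
      by_contra hcon
      have h1 : (N : ℝ) ≤ 6 := by
        have : N ≤ 6 := by omega
        exact_mod_cast this
      have h2 := le_max_right E 0
      have h3 : (1 : ℝ) / 6 ≤ 1 / N := by
        apply one_div_le_one_div_of_le hN0 h1
      rw [c2] at hη
      linarith
    obtain ⟨z, hz1, hz2⟩ := h.log_seg hN6 (E := E) (by rw [← hR, hRE]) hη
    have hre : z.re = E := by
      have h1 : ‖Λ 0‖ = R * Real.exp z.re := by
        rw [hz2, norm_mul, ← hR, Complex.norm_exp]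
      rw [hside, hRE, ← Real.exp_add] at h1
      have h2 := (Real.exp_eq_one_iff _).1 h1.symm
      linarith
    have hz3 : Λ 0 = (σ : ℂ) * Complex.exp ((z.im : ℂ) * I) := by
      rw [hz2, hσc, hRE, Complex.ofReal_exp, mul_assoc, ← Complex.exp_add]
      congr 2
      have : z = (z.re : ℂ) + (z.im : ℂ) * I := (Complex.re_add_im z).symm
      rw [hre] at this
      rw [Complex.ofReal_neg]
      linear_combination this
    have hmax : max E 0 ≤ E + 2 * (1 / N) := max_le (by linarith) (by linarith)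
    have him : |z.im| ≤ 3900 * (E + 25 * (1 / N)) := by
      refine (Complex.abs_im_le_norm z).trans (hz1.trans ?_)
      rw [c3]
      linarith
    have him2 : ∀ k : ℝ, |k| ≤ |z.im| → |k| ≤ 10000 * (-Real.log R) + 100000000 / N := by
      intro k hk
      rw [← hE, c1]
      linarith
    rcases le_total |z.im| Real.pi with h1 | h1
    · exact ⟨σ, z.im, hσ, h1, hz3, hσc, fin _ (Or.inr (him2 _ le_rfl))⟩
    · exact ⟨σ, k₀, hσ, hk₀, hk₁, hσc, fin _ (Or.inr (him2 _ (hk₀.trans h1)))⟩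
  · refine ⟨σ, k₀, hσ, hk₀, hk₁, hσc, fin _ (Or.inr (hk₀.trans ?_))⟩
    rw [not_le, c2] at hη
    rw [← hE, c1]
    rcases le_total E (1 / 44) with h1 | h1
    · have h2 : max E 0 ≤ 1 / 44 := max_le h1 (by norm_num)
      linarith
    · linarith

end MP6bd
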