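import Pool.Agent.Lib.SixB.S1Cone
import Pool.Agent.Lib.SixB.S1Weak

/-!
# The weak cone, unconditional
-/

set_option autoImplicit false

namespace Pool.Agent.SixB

open Pool.Agent.SixV Complex
open scoped Real ComplexConjugate InnerProductSpace

/-- **The weak cone.** -/
theorem weakCone : ∃ c C : ℝ, 0 < c ∧ 0 < C ∧ WeakCone c C := by
  obtain ⟨C, hC, h⟩ := MP6bd.weak_cone
  refine ⟨1 / (2 * C), C, by positivity, hC, weakCone_of hC ?_⟩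
  intro N Λ hN hΛ
  obtain ⟨σ, k, h1, h2, h3, h4, h5⟩ := h N Λ hN hΛ
  have e : ((π / 6 : ℝ) : ℂ) = (π : ℂ) / 6 := by push_cast; rfl
  rw [e] at h5
  exact ⟨σ, k, h1, h3, h5⟩

/-- **Weak cone for the powers of `T = t(π/6)`** on the momentum spaces of the even shift. -/
theorem cone_pow' : ∃ c C : ℝ, 0 < c ∧ 0 < C ∧ ∀ (N : ℕ), 1 ≤ N → ∀ (a : ℕ) (θ : ℝ), |θ| ≤ π →
    ∀ v : HN N, (tL N 0 ^ 2) v = exp (I * θ) • v →
    ‖(tL N (π / 6) ^ a) v‖ ≤ Real.exp (C * a / N) * Real.exp (-(c * a * |θ|)) * ‖v‖ := by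
  obtain ⟨c, C, hc, hC, h⟩ := weakCone
  exact ⟨c, C, hc, hC, fun N hN a θ hθ v hv => cone_pow h hN a hθ v hv⟩

end Pool.Agent.SixB
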