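import Pool.Agent.Lib.SixB.CylSpec
import Pool.Agent.Lib.SixB.LemA
import Pool.Agent.Lib.SixB.S2H
import Pool.Agent.Lib.SixB.S1FullFinal
import Pool.Agent.Lib.SixB.PlaneK
import Pool.Agent.Lib.SixB.CylWin

/-!
# 6BD step 2: the spectral measure of the arrow correlations of the plane, Theorem S2

* `cyl_spec`: the finite spectral data of the cylinders of odd circumference;
* `spectral_CE`: `CE x y = ∫ cos (x k) λ ^ |y| dρ` with `k ≤ -log λ` for `λ > 0`;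
* `S2_plane`: Theorem S2 for the plane, unconditional.
-/

set_option autoImplicit false
set_option linter.unusedSectionVars false

namespace Pool.Agent.SixB

open Pool.Agent.Perc Pool.Agent.PercD Pool.Agent.Perc.Q Relation Filter Topology
open Pool.Agent.SixV MeasureTheory Set
open scoped InnerProductSpace Real

noncomputable section

/-- **Spectral data of the cylinder.** -/
theorem cyl_spec {n : ℕ} [Fact (3 ≤ n + 1)] (hodd : Odd (n + 1)) {M : ℕ} (hM : 0 < M) :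
    ∃ (k : ℕ) (w θ lam : Fin k → ℝ), (∀ j, 0 ≤ w j) ∧ ∑ j, w j = 1 ∧
      (∀ j, 0 ≤ θ j ∧ θ j ≤ π) ∧ (∀ j, |lam j| ≤ 1) ∧
      (∀ j, ∃ (g : HN (n + 1)) (z : ℂ), g ≠ 0 ∧ tL (n + 1) (π / 6) g = ((lam j : ℝ) : ℂ) • g ∧
        tL (n + 1) 0 g = z • g ∧ θ j = |z.arg|) ∧
      ∀ x y : ℕ, ∑ j, w j * (Real.cos (θ j * x) * lam j ^ y) =
        avC (n + 1) M y 0 x / avC (n + 1) M 0 0 0 ∧
        avC (n + 1) M y x 0 = avC (n + 1) M y 0 x := by
  have hp := Real.pi_pos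
  have e6 : ((π : ℂ) / 6).re = π / 6 := by
    have : ((π : ℂ) / 6) = ((π / 6 : ℝ) : ℂ) := by push_cast; rfl
    rw [this, Complex.ofReal_re]
  set p6 : StripPt := ⟨π / 6, by rw [e6]; constructor <;> linarith⟩
  set p0 : StripPt := ⟨0, by rw [Complex.zero_re]; constructor <;> linarith⟩
  have h6 : (tL (n + 1) p6.1).IsSymmetric := tL_six_symm (n + 1)
  set g := Dg (n + 1) 0 (vM (n + 1) M) with hg
  obtain ⟨k, u, χ, lam, hu, hχ, hlam, hχ1, hsum, hxy⟩ :=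
    exists_specData (isAdj_tL (n + 1)) (fun i j => tL_commute (n + 1) i.1 j.1) p6 p0 h6
      (fun v => shift_norm v) g
  have hD : avC (n + 1) M 0 0 0 = av (cylF (n + 1) (-M) M)
      (fun ω => Rel.c4 ^ (thrC (n + 1) (-M) M ω).card) := avC_self hM 0
  have hD1 : 1 ≤ avC (n + 1) M 0 0 0 := by
    rw [hD, ← av_const (S := cylF (n + 1) (-M) M) 1]
    exact av_mono fun T _ => one_le_pow₀ Rel.c4_ge
  have hng : ‖g‖ ^ 2 = Real.sqrt 3 ^ (n + 1) * avC (n + 1) M 0 0 0 := by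
    rw [hg, norm_Dg, norm_vM hodd hM, hD]
  have hs3 : 0 < Real.sqrt 3 ^ (n + 1) := pow_pos (Real.sqrt_pos.mpr (by norm_num)) _
  have hg0 : 0 < ‖g‖ ^ 2 := by rw [hng]; positivity
  refine ⟨k, fun j => ‖u j‖ ^ 2 / ‖g‖ ^ 2, fun j => |(χ j p0).arg|, lam, fun j => by positivity,
    ?_, fun j => ⟨abs_nonneg _, Complex.abs_arg_le_pi _⟩, ?_, ?_, ?_⟩
  · rw [← Finset.sum_div, hsum, div_self hg0.ne']
  · intro j
    have h1 : TL (n + 1) (u j) = ((lam j : ℝ) : ℂ) • u j := by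
      rw [← hlam j]
      exact hχ j p6
    have h2 := eig_le_one hodd (hu j) h1
    rwa [Complex.norm_real, Real.norm_eq_abs] at h2
  · intro j
    refine ⟨u j, χ j p0, hu j, ?_, hχ j p0, rfl⟩
    rw [← hlam j]
    exact hχ j p6
  · intro x y
    have h1 := hxy x y
    have h2 : ⟪g, (tL (n + 1) p6.1 ^ y * tL (n + 1) p0.1 ^ x) g⟫_ℂ =
        ((Real.sqrt 3 ^ (n + 1) * avC (n + 1) M y 0 x : ℝ) : ℂ) := by
      have h3 := corH_shift (n := n) M y x 0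
      rw [corr_eq hodd hM]
      have h4 : corH (n + 1) M y (0 : ZMod (n + 1)) (x : ZMod (n + 1)) =
          corH (n + 1) M y (0 : Fin (n + 1)) (0 + x • 1) := by
        congr 1
        rw [zero_add]
        exact (nsmul_one (A := ZMod (n + 1)) x).symm
      rw [h4, h3]
    rw [h2, Complex.ofReal_re] at h1
    constructor
    · have h5 : ∑ j, ‖u j‖ ^ 2 / ‖g‖ ^ 2 * (Real.cos (|(χ j p0).arg| * x) * lam j ^ y) =
          (∑ j, ‖u j‖ ^ 2 * (Real.cos (|(χ j p0).arg| * x) * lam j ^ y)) / ‖g‖ ^ 2 := by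
        rw [Finset.sum_div]
        exact Finset.sum_congr rfl fun j _ => by ring
      rw [h5, ← h1, hng, mul_div_mul_left _ _ hs3.ne']
    · have h6 := corH_comm (n + 1) M y (0 : Fin (n + 1)) (x • 1)
      have h7 : corH (n + 1) M y (0 : ZMod (n + 1)) (x : ZMod (n + 1)) =
          corH (n + 1) M y (0 : Fin (n + 1)) (x • 1) := by
        congr 1
        exact (nsmul_one (A := ZMod (n + 1)) x).symm
      have h8 : corH (n + 1) M y (x : ZMod (n + 1)) (0 : ZMod (n + 1)) =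
          corH (n + 1) M y (x • 1) (0 : Fin (n + 1)) := by
        congr 1
        exact (nsmul_one (A := ZMod (n + 1)) x).symm
      rw [← h7, ← h8, ← corr_eq hodd hM, ← corr_eq hodd hM, Complex.ofReal_re,
        Complex.ofReal_re] at h6
      exact (mul_left_cancel₀ hs3.ne' h6).symm

/-- the window comparison (CylWin) -/
def CylWinP : Prop := ∀ (N : ℕ) [Fact (3 ≤ N)], Odd N → ∀ y₀ y₁ : ℤ, y₀ < y₁ →
  ∀ F : Finset (ℤ × ℤ), Set.InjOn (pN N) (F : Set (ℤ × ℤ)) → F.image (pN N) ⊆ cylF N y₀ y₁ →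
  ∀ e e' : DE, e ∈ dE ZQ F → e' ∈ dE ZQ F →
    |av (cylF N y₀ y₁) (fun ω => gg (CQ N) (cylF N y₀ y₁) ω (pE N e) (pE N e')) - Kb F e e'| ≤
      6 * (ncP F e + ncP F e')

theorem cylWinP : CylWinP := by
  intro N _ hodd y₀ y₁ hy F hF hG e e' he he'
  have key : ∀ a : DE, a ∈ dE ZQ F → pE N a ∈ dE (CQ N) (cylF N y₀ y₁) := by
    intro a ha
    obtain ⟨f, hf, k, h | h⟩ := mem_dE.mp ha
    · rw [h, pE_sd]
      exact sd_mem (hG (Finset.mem_image_of_mem _ hf)) k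
    · rw [h, pE_swap, pE_sd]
      exact swap_mem_dE.mpr (sd_mem (hG (Finset.mem_image_of_mem _ hf)) k)
  have h1 := CylWin.window hodd hy hF hG (key e he) (key e' he')
  have h2 := nc_nonneg F e
  have h3 := nc_nonneg F e'
  linarith

instance factN (i : ℕ) : Fact (3 ≤ 2 * i + 2 + 1) := ⟨by omega⟩

theorem exists_M (i : ℕ) : ∃ M : ℕ, i + 1 ≤ M ∧ erN (2 * i + 2 + 1) (2 * M) ≤ 1 / ((i : ℝ) + 1) := by
  have h0 : Tendsto (fun M : ℕ => 2 * M) atTop atTop :=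
    tendsto_atTop_mono (fun M => by simp only [id]; omega) tendsto_id
  have h1 := (erN_tendsto (2 * i + 2 + 1)).comp h0
  have h2 := h1.eventually (ge_mem_nhds (show (0 : ℝ) < 1 / ((i : ℝ) + 1) by positivity))
  obtain ⟨M, hM1, hM2⟩ := (h2.and (eventually_ge_atTop (i + 1))).exists
  exact ⟨M, hM2, hM1⟩

/-- the height of the cylinder of circumference `2 i + 3` -/
def Mseq (i : ℕ) : ℕ := (exists_M i).choose

theorem Mseq_ge (i : ℕ) : i + 1 ≤ Mseq i := (exists_M i).choose_spec.1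

theorem Mseq_er (i : ℕ) : erN (2 * i + 2 + 1) (2 * Mseq i) ≤ 1 / ((i : ℝ) + 1) :=
  (exists_M i).choose_spec.2

theorem tendsto_one_div_succ : Tendsto (fun i : ℕ => 1 / ((i : ℝ) + 1)) atTop (𝓝 0) :=
  tendsto_one_div_add_atTop_nhds_zero_nat

/-- the denominators -/
theorem avC_zero_tendsto :
    Tendsto (fun i : ℕ => avC (2 * i + 2 + 1) (Mseq i) 0 0 0) atTop (𝓝 Rel.c4) := by
  rw [tendsto_iff_dist_tendsto_zero]
  refine squeeze_zero (fun _ => dist_nonneg) (fun i => ?_) tendsto_one_div_succ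
  have hM := Mseq_ge i
  have h1 := abs_av_thr_one (N := 2 * i + 2 + 1) ⟨i + 1, by ring⟩ (m := 2 * Mseq i) (by omega)
    (-(Mseq i : ℤ))
  have h2 : -(Mseq i : ℤ) + ((2 * Mseq i : ℕ) : ℤ) = Mseq i := by push_cast; ring
  rw [h2] at h1
  rw [avC_self (by omega), Real.dist_eq]
  exact h1.trans (Mseq_er i)

theorem pE_de {N : ℕ} [Fact (3 ≤ N)] (x y : ℤ) : pE N (de ((x, y), false)) = bE (x : ZMod N) y := by
  refine Prod.ext rfl ?_
  change pN N ((x, y) + (1, 0)) = ((x : ZMod N) + 1, y)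
  unfold pN
  refine Prod.ext ?_ ?_
  · simp
  · simp

/-- the numerators -/
theorem avC_tendsto (hW : CylWinP) (x x' : ℤ) (y : ℕ) :
    Tendsto (fun i : ℕ => avC (2 * i + 2 + 1) (Mseq i) y x x') atTop
      (𝓝 (Rel.c4 * KE ((x, 0), false) ((x', y), false))) := by
  set e : DE := de ((x, 0), false) with he
  set e' : DE := de ((x', (y : ℤ)), false) with he'
  have hu : Ue e := Ue_de _
  have hu' : Ue e' := Ue_de _
  obtain ⟨r, hr⟩ := exists_box {(x, 0), (x', (y : ℤ))}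
  have h1 := nc_tendsto hu
  have h2 := nc_tendsto hu'
  have h3 := Kp_tendsto hu hu'
  have hbound : Tendsto (fun i : ℕ => 3 * (1 / ((i : ℝ) + 1)) + Rel.c4 * (6 * (ncP (BR (0, 0) i) e +
      ncP (BR (0, 0) i) e')) + Rel.c4 * dist (Kb (BR (0, 0) i) e e') (Kp e e')) atTop (𝓝 0) := by
    have h4 := (tendsto_one_div_succ.const_mul 3).add (((h1.add h2).const_mul 6).const_mul Rel.c4)
    have h5 := h4.add ((tendsto_iff_dist_tendsto_zero.mp h3).const_mul Rel.c4)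
    simpa using h5
  rw [tendsto_iff_dist_tendsto_zero]
  refine squeeze_zero' (Eventually.of_forall fun _ => dist_nonneg) ?_ hbound
  filter_upwards [eventually_ge_atTop r] with i hi
  have hM := Mseq_ge i
  have hN : Odd (2 * i + 2 + 1) := ⟨i + 1, by ring⟩
  have hbox := hr i hi
  have hmem : (x, 0) ∈ BR (0, 0) i := hbox (Finset.mem_insert_self _ _)
  have hmem' : (x', (y : ℤ)) ∈ BR (0, 0) i :=
    hbox (Finset.mem_insert_of_mem (Finset.mem_singleton_self _))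
  have hBR : ∀ f : ℤ × ℤ, f ∈ BR (0, 0) (i : ℤ) → -(i : ℤ) ≤ f.1 ∧ f.1 < i ∧ -(i : ℤ) ≤ f.2 ∧
      f.2 < i := by
    intro f hf
    unfold BR RF at hf
    rw [Finset.mem_product, Finset.mem_Ico, Finset.mem_Ico] at hf
    simp only [zero_sub, zero_add] at hf
    exact ⟨hf.1.1, hf.1.2, hf.2.1, hf.2.2⟩
  have heE : e ∈ dE ZQ (BR (0, 0) i) := by
    rw [he, de_false]
    exact sd_mem hmem 0
  have heE' : e' ∈ dE ZQ (BR (0, 0) i) := by
    rw [he', de_false]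
    exact sd_mem hmem' 0
  have hinj : Set.InjOn (pN (2 * i + 2 + 1)) (BR (0, 0) i : Set (ℤ × ℤ)) := by
    intro f hf f' hf' h
    have a1 := hBR f (by exact_mod_cast hf)
    have a2 := hBR f' (by exact_mod_cast hf')
    have b1 : ((f.1 : ℤ) : ZMod (2 * i + 2 + 1)) = ((f'.1 : ℤ) : ZMod (2 * i + 2 + 1)) :=
      congrArg Prod.fst h
    have b2 : f.2 = f'.2 := congrArg (fun z : ZMod (2 * i + 2 + 1) × ℤ => z.2) h
    rw [ZMod.intCast_eq_intCast_iff_dvd_sub] at b1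
    refine Prod.ext ?_ b2
    obtain ⟨c, hc⟩ := b1
    have hc0 : c = 0 := by
      by_contra hne
      rcases lt_or_gt_of_ne hne with h3 | h3
      · have : ((2 * i + 2 + 1 : ℕ) : ℤ) * c ≤ ((2 * i + 2 + 1 : ℕ) : ℤ) * (-1) :=
          mul_le_mul_of_nonneg_left (by omega) (by positivity)
        push_cast at this hc
        linarith
      · have : ((2 * i + 2 + 1 : ℕ) : ℤ) * 1 ≤ ((2 * i + 2 + 1 : ℕ) : ℤ) * c :=
          mul_le_mul_of_nonneg_left (by omega) (by positivity)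
        push_cast at this hc
        linarith
    rw [hc0, mul_zero] at hc
    omega
  have himg : (BR (0, 0) (i : ℤ)).image (pN (2 * i + 2 + 1)) ⊆
      cylF (2 * i + 2 + 1) (-(Mseq i : ℤ)) (y + Mseq i) := by
    intro f hf
    obtain ⟨f', hf', rfl⟩ := Finset.mem_image.mp hf
    have a2 := hBR f' hf'
    rw [mem_cylF]
    unfold pN
    simp only
    omega
  have hw := hW (2 * i + 2 + 1) hN (-(Mseq i : ℤ)) (y + Mseq i) (by omega) (BR (0, 0) i) hinj himg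
    e e' heE heE'
  have hpe : pE (2 * i + 2 + 1) e = bE (x : ZMod (2 * i + 2 + 1)) 0 := pE_de x 0
  have hpe' : pE (2 * i + 2 + 1) e' = bE (x' : ZMod (2 * i + 2 + 1)) y := pE_de x' y
  rw [hpe, hpe'] at hw
  set G := av (cylF (2 * i + 2 + 1) (-(Mseq i : ℤ)) (y + Mseq i)) (fun ω =>
    gg (CQ (2 * i + 2 + 1)) (cylF (2 * i + 2 + 1) (-(Mseq i : ℤ)) (y + Mseq i)) ω
      (bE (x : ZMod (2 * i + 2 + 1)) 0) (bE (x' : ZMod (2 * i + 2 + 1)) y)) with hG
  have hthr := abs_av_thr (N := 2 * i + 2 + 1) hN (m := 2 * Mseq i + y) (by omega)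
    (-(Mseq i : ℤ)) (g := fun ω =>
    gg (CQ (2 * i + 2 + 1)) (cylF (2 * i + 2 + 1) (-(Mseq i : ℤ)) (y + Mseq i)) ω
      (bE (x : ZMod (2 * i + 2 + 1)) 0) (bE (x' : ZMod (2 * i + 2 + 1)) y)) (B := 3)
    (fun ω => abs_gg_le hN (by omega) ω (bE_mem_mid (by omega) (by omega) _)
      (bE_mem_mid (by omega) (by omega) _))
  have h4 : -(Mseq i : ℤ) + ((2 * Mseq i + y : ℕ) : ℤ) = y + Mseq i := by push_cast; ring
  rw [h4, ← hG] at hthr
  have h5 : erN (2 * i + 2 + 1) (2 * Mseq i + y) ≤ 1 / ((i : ℝ) + 1) :=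
    (erN_anti (by omega)).trans (Mseq_er i)
  have c0 := Rel.c4_pos
  rw [Real.dist_eq]
  unfold avC
  have h6 : Rel.c4 * KE ((x, 0), false) ((x', (y : ℤ)), false) = Rel.c4 * Kp e e' := rfl
  rw [h6]
  have h7 := dist_nonneg (x := Kb (BR (0, 0) i) e e') (y := Kp e e')
  have h8 : |Rel.c4 * G - Rel.c4 * Kb (BR (0, 0) i) e e'| ≤ Rel.c4 * (6 * (ncP (BR (0, 0) i) e +
      ncP (BR (0, 0) i) e')) := by
    rw [← mul_sub, abs_mul, abs_of_pos c0]
    exact mul_le_mul_of_nonneg_left hw c0.le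
  have h9 : |Rel.c4 * Kb (BR (0, 0) i) e e' - Rel.c4 * Kp e e'| =
      Rel.c4 * dist (Kb (BR (0, 0) i) e e') (Kp e e') := by
    rw [← mul_sub, abs_mul, abs_of_pos c0, Real.dist_eq]
  have t1 := abs_sub_le (av (cylF (2 * i + 2 + 1) (-(Mseq i : ℤ)) (y + Mseq i)) (fun ω =>
    gg (CQ (2 * i + 2 + 1)) (cylF (2 * i + 2 + 1) (-(Mseq i : ℤ)) (y + Mseq i)) ω
      (bE (x : ZMod (2 * i + 2 + 1)) 0) (bE (x' : ZMod (2 * i + 2 + 1)) y) *
      Rel.c4 ^ (thrC (2 * i + 2 + 1) (-(Mseq i : ℤ)) (y + Mseq i) ω).card)) (Rel.c4 * G)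
    (Rel.c4 * Kp e e')
  have t2 := abs_sub_le (Rel.c4 * G) (Rel.c4 * Kb (BR (0, 0) i) e e') (Rel.c4 * Kp e e')
  linarith

/-- the spectral sums of the cylinders tend to the plane correlations -/
theorem spec_limit (hW : CylWinP) {S : ℕ → ℕ → ℕ → ℝ}
    (hS : ∀ i x y : ℕ, S i x y = avC (2 * i + 2 + 1) (Mseq i) y 0 x /
      avC (2 * i + 2 + 1) (Mseq i) 0 0 0 ∧
      avC (2 * i + 2 + 1) (Mseq i) y x 0 = avC (2 * i + 2 + 1) (Mseq i) y 0 x) (x y : ℕ) :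
    Tendsto (fun i => S i x y) atTop (𝓝 (CE x y)) ∧
      Tendsto (fun i => S i x y) atTop (𝓝 (CE (-x) y)) := by
  have c0 := Rel.c4_pos
  have h0 := avC_zero_tendsto
  have h1 := (avC_tendsto hW 0 x y).div h0 c0.ne'
  have h2 := (avC_tendsto hW x 0 y).div h0 c0.ne'
  have e1 : KE ((0, 0), false) (((x : ℤ), (y : ℤ)), false) = CE x y := rfl
  have e2 : KE (((x : ℤ), 0), false) ((0, (y : ℤ)), false) = CE (-x) y := by
    have := edgeCorr.trans ((x : ℤ), 0) ((0, 0), false) ((-(x : ℤ), (y : ℤ)), false)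
    simp only [Prod.mk_add_mk, zero_add, add_zero, neg_add_cancel] at this
    rw [this]
    rfl
  rw [e1, mul_comm, mul_div_assoc, div_self c0.ne', mul_one] at h1
  rw [e2, mul_comm, mul_div_assoc, div_self c0.ne', mul_one] at h2
  constructor
  · refine h1.congr fun i => ?_
    rw [(hS i x y).1]
    simp
  · refine h2.congr fun i => ?_
    rw [(hS i x y).1, ← (hS i x y).2]
    simp

theorem spectral_CE_of (hW : CylWinP) : ∃ ρ : Measure (ℝ × ℝ), IsProbabilityMeasure ρ ∧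
    (∀ᵐ p ∂ρ, 0 ≤ p.1 ∧ p.1 ≤ π ∧ |p.2| ≤ 1) ∧
    (∀ x y : ℤ, CE x y = ∫ p : ℝ × ℝ, Real.cos (p.1 * x) * p.2 ^ y.natAbs ∂ρ) ∧
    (∀ᵐ p ∂ρ, 0 < p.2 → p.1 ≤ -Real.log p.2) := by
  have hodd : ∀ i : ℕ, Odd (2 * i + 2 + 1) := fun i => ⟨i + 1, by ring⟩
  have hM : ∀ i, 0 < Mseq i := fun i => by
    have := Mseq_ge i
    omega
  choose k w θ lam hw hsum hθ hlam hv hxy using
    fun i : ℕ => cyl_spec (n := 2 * i + 2) (hodd i) (hM i)
  refine exists_spectral_measure_cone CE (fun i => Fin (k i)) w θ lam hw hsum hθ hlam ?_ ?_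
  · intro ε hε
    obtain ⟨N₀, hN₀⟩ := cone_arg hε
    filter_upwards [eventually_ge_atTop N₀] with i hi j hj
    obtain ⟨g, z, hg, h1, h2, h3⟩ := hv i j
    rw [h3]
    exact (hN₀ (2 * i + 2 + 1) (by omega) g (lam i j) z hg h1 h2).1 hj
  · have hlim := fun x y : ℕ => spec_limit hW
      (S := fun i x y => ∑ j, w i j * (Real.cos (θ i j * x) * lam i j ^ y)) hxy x y
    have hrefl : ∀ x y : ℕ, CE (-x) y = CE x y := fun x y =>
      tendsto_nhds_unique (hlim x y).2 (hlim x y).1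
    intro x y
    have hC : CE x y = CE (x.natAbs : ℕ) (y.natAbs : ℕ) := by
      rcases Int.natAbs_eq x with hx | hx <;> rcases Int.natAbs_eq y with hy | hy
      · rw [← hx, ← hy]
      · have h1 : CE x y = CE (-x) (-y) := (edgeCorr.even x y).symm
        have h2 : -y = (y.natAbs : ℕ) := by omega
        have h3 : -x = -((x.natAbs : ℕ) : ℤ) := by omega
        rw [h1, h2, h3, hrefl]
      · have h3 : x = -((x.natAbs : ℕ) : ℤ) := by omega
        have h4 : CE x y = CE (-((x.natAbs : ℕ) : ℤ)) (y.natAbs : ℕ) := by rw [← h3, ← hy]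
        rw [h4, hrefl]
      · have h1 : CE x y = CE (-x) (-y) := (edgeCorr.even x y).symm
        have h2 : -y = (y.natAbs : ℕ) := by omega
        have h3 : -x = ((x.natAbs : ℕ) : ℤ) := by omega
        rw [h1, h2, h3]
    rw [hC]
    refine (hlim x.natAbs y.natAbs).1.congr fun i => ?_
    refine Finset.sum_congr rfl fun j _ => ?_
    congr 2
    rcases Int.natAbs_eq x with hx | hx
    · have : (x : ℝ) = ((x.natAbs : ℕ) : ℝ) := by
        rw [← Int.cast_natCast (R := ℝ) x.natAbs, ← hx]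
      rw [this]
    · have : (x : ℝ) = -((x.natAbs : ℕ) : ℝ) := by
        rw [← Int.cast_natCast (R := ℝ) x.natAbs, ← Int.cast_neg, ← hx]
      rw [this, mul_neg, Real.cos_neg]

/-- **Theorem S2 for the plane.** -/
theorem S2_plane_of (hW : CylWinP) (B R δ : ℝ) (hδ : 0 < δ) (ψ₁ ψ₂ : ℕ → ℝ × ℝ → ℝ)
    (h1 : ∀ n, Nice B R (ψ₁ n)) (h2 : ∀ n, Nice B R (ψ₂ n))
    (hsep : ∀ n, ∀ p q : ℝ × ℝ, ψ₁ n p ≠ 0 → ψ₂ n q ≠ 0 → δ ≤ |p.1 - q.1| ∨ δ ≤ |p.2 - q.2|)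
    (S : ℕ → Finset Edge) (hS : ∀ n, ebx (rad R n) ⊆ S n) :
    Tendsto (fun n => ∑ e ∈ S n, ∑ e' ∈ S n,
      (lat (ψ₁ n) n (ehd e) - lat (ψ₁ n) n (etl e)) *
        (lat (ψ₂ n) n (ehd e') - lat (ψ₂ n) n (etl e')) * KE e e') atTop (𝓝 0) := by
  obtain ⟨ρ, hρ, hsupp, hC, hcone⟩ := spectral_CE_of hW
  refine S2_edges edgeCorr ρ ?_ ?_ ?_ CE_decx CE_decy B R δ hδ ψ₁ ψ₂ h1 h2 hsep S hS
  · filter_upwards [hsupp] with p hp
    exact ⟨⟨hp.1, hp.2.1⟩, abs_le.mp hp.2.2⟩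
  · intro x y
    rw [hC]
    refine integral_congr_ae (Eventually.of_forall fun p => ?_)
    change Real.cos (p.1 * x) * p.2 ^ y.natAbs = Real.cos (x * p.1) * p.2 ^ y.natAbs
    rw [mul_comm p.1]
  · intro η hη
    refine ⟨1, one_pos, ?_⟩
    filter_upwards [hcone, hsupp] with p hp hp' _ h0
    have h3 := hp h0
    nlinarith [hp'.1]

/-- **The spectral measure of the arrow correlations of the plane.** -/
theorem spectral_CE : ∃ ρ : Measure (ℝ × ℝ), IsProbabilityMeasure ρ ∧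
    (∀ᵐ p ∂ρ, 0 ≤ p.1 ∧ p.1 ≤ π ∧ |p.2| ≤ 1) ∧
    (∀ x y : ℤ, CE x y = ∫ p : ℝ × ℝ, Real.cos (p.1 * x) * p.2 ^ y.natAbs ∂ρ) ∧
    (∀ᵐ p ∂ρ, 0 < p.2 → p.1 ≤ -Real.log p.2) := spectral_CE_of cylWinP

/-- **Theorem S2 for the plane, unconditional.** -/
theorem S2_plane (B R δ : ℝ) (hδ : 0 < δ) (ψ₁ ψ₂ : ℕ → ℝ × ℝ → ℝ)
    (h1 : ∀ n, Nice B R (ψ₁ n)) (h2 : ∀ n, Nice B R (ψ₂ n))
    (hsep : ∀ n, ∀ p q : ℝ × ℝ, ψ₁ n p ≠ 0 → ψ₂ n q ≠ 0 → δ ≤ |p.1 - q.1| ∨ δ ≤ |p.2 - q.2|)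
    (S : ℕ → Finset Edge) (hS : ∀ n, ebx (rad R n) ⊆ S n) :
    Tendsto (fun n => ∑ e ∈ S n, ∑ e' ∈ S n,
      (lat (ψ₁ n) n (ehd e) - lat (ψ₁ n) n (etl e)) *
        (lat (ψ₂ n) n (ehd e') - lat (ψ₂ n) n (etl e')) * KE e e') atTop (𝓝 0) :=
  S2_plane_of cylWinP B R δ hδ ψ₁ ψ₂ h1 h2 hsep S hS

end

end Pool.Agent.SixB
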