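import Pool.Agent.Lib.SixB.CAIn
import Pool.Agent.Lib.SixB.CAEnv
import Pool.Agent.Lib.SixB.S4Move
import Pool.Agent.Lib.SixB.ANBocher
import Pool.Agent.Lib.SixB.AN7

/-!
# 6BD: covariance under the rotation by 90 degrees (block S3, point U1)

`Rt.rP P`, `Rt.rg g`, `Rt.rv v`: the polygon, the contour and the vertices rotated by 90 degrees around `0`
(multiplication by `I`, counterclockwise); `Rt.rvi` the inverse rotation.
* geometry: `mem_Cl`, `mem_Om`, `Cl_rP`, `Om_rP`, `wall`, `convex`, `concave`, `corners_rP`, `mpoly`, `rf_rP`,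
  `cont`, `gr_rg`, `gam_rg`, `fl_rg`, `marks`, `specX_rP`.
* mean heights, for every motion `m : Mot`: `bph_move`, `WU_move`, `WU1_move`, `uE_move`, `hasPotQ_move`,
  `connE_move`, `uH_move`, `HD_move`, `uT_move` (phases `ph m ψ`), `inc_move` (functions with the increments `mA` of an
  environment).
* limits: `tlu_rot` (locally uniform limits of `nz n z0 u` and of the rotated functions), `harm_rot`, `cont_of_ae`,
  `harm_of_lines` (harmonic off finitely many horizontal and off finitely many vertical lines), `harm_full`: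
  the horizontal slabs of the polygon and of the rotated polygon are enough.
-/

set_option autoImplicit false

namespace Pool.Agent.SixB.Rt

open Complex Filter Topology
open Pool.Agent.Perc Pool.Agent.Perc.Q

noncomputable section

/-- the polygon rotated by 90 degrees -/
def rP (P : Finset (ℤ × ℤ)) : Finset (ℤ × ℤ) := Mot.rot.im P

/-- a vertex rotated by 90 degrees -/
def rv (v : ℤ × ℤ) : ℤ × ℤ := (-v.2, v.1)

/-- the vertex rotated by -90 degrees -/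
def rvi (v : ℤ × ℤ) : ℤ × ℤ := (v.2, -v.1)

/-- the contour rotated by 90 degrees -/
def rg (g : ℤ → ℤ × ℤ) (k : ℤ) : ℤ × ℤ := rv (g k)

theorem rv_rvi (v : ℤ × ℤ) : rv (rvi v) = v := by simp [rv, rvi]

theorem rvi_rv (v : ℤ × ℤ) : rvi (rv v) = v := by simp [rv, rvi]

theorem rv_inj {v w : ℤ × ℤ} (h : rv v = rv w) : v = w := by
  rw [← rvi_rv v, h, rvi_rv]

theorem rv_sub (v w : ℤ × ℤ) : rv (v - w) = rv v - rv w := by
  unfold rv
  ext <;> simp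
  ring

theorem rot_phi_eq (v : ℤ × ℤ) : Mot.rot.φ v = rv v := rfl

/-- the face rotated by 90 degrees -/
def rf4 (f : ℤ × ℤ) : ℤ × ℤ := (-f.2 - 1, f.1)

/-- the face rotated by -90 degrees -/
def rf4i (f : ℤ × ℤ) : ℤ × ℤ := (f.2, -f.1 - 1)

theorem rf4_rf4i (f : ℤ × ℤ) : rf4 (rf4i f) = f := by simp [rf4, rf4i]

theorem rf4i_rf4 (f : ℤ × ℤ) : rf4i (rf4 f) = f := by simp [rf4, rf4i]

theorem mem_rP {P : Finset (ℤ × ℤ)} {f : ℤ × ℤ} : f ∈ rP P ↔ rf4i f ∈ P := Mot.mem_im Mot.rot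

theorem rf4_mem {P : Finset (ℤ × ℤ)} {f : ℤ × ℤ} : rf4 f ∈ rP P ↔ f ∈ P := by
  rw [mem_rP, rf4i_rf4]

theorem mk_mem_rP {P : Finset (ℤ × ℤ)} {x y : ℤ} : (x, y) ∈ rP P ↔ (y, -x - 1) ∈ P := mem_rP

/-! ## Regions -/

theorem mem_csq (f : ℤ × ℤ) (z : ℂ) : I * z ∈ csq (rf4 f) ↔ z ∈ csq f := by
  unfold csq rf4
  simp only [Set.mem_ofPred_eq, mul_re, I_re, I_im, mul_im, zero_mul, one_mul, zero_sub, zero_add]
  push_cast
  constructor
  · rintro ⟨h1, h2, h3, h4⟩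
    exact ⟨h3, h4, by linarith, by linarith⟩
  · rintro ⟨h1, h2, h3, h4⟩
    exact ⟨by linarith, by linarith, h1, h2⟩

theorem mem_Cl {P : Finset (ℤ × ℤ)} {z : ℂ} : I * z ∈ Cl (rP P) ↔ z ∈ Cl P := by
  unfold Cl
  simp only [Set.mem_iUnion, exists_prop]
  constructor
  · rintro ⟨f, hf, hz⟩
    refine ⟨rf4i f, mem_rP.mp hf, ?_⟩
    rw [← mem_csq, rf4_rf4i]
    exact hz
  · rintro ⟨f, hf, hz⟩
    exact ⟨rf4 f, rf4_mem.mpr hf, (mem_csq f z).mpr hz⟩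

/-- multiplication by `I` as a homeomorphism -/
def hI : ℂ ≃ₜ ℂ := Homeomorph.mulLeft₀ I I_ne_zero

theorem hI_apply (z : ℂ) : hI z = I * z := rfl

theorem preimage_Cl {P : Finset (ℤ × ℤ)} : hI ⁻¹' Cl (rP P) = Cl P := by
  ext z
  exact mem_Cl

theorem preimage_Om {P : Finset (ℤ × ℤ)} : hI ⁻¹' Om (rP P) = Om P := by
  unfold Om
  rw [hI.preimage_interior, preimage_Cl]

theorem mem_Om {P : Finset (ℤ × ℤ)} {z : ℂ} : I * z ∈ Om (rP P) ↔ z ∈ Om P := by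
  rw [← preimage_Om (P := P)]
  rfl

theorem I_neg_I (z : ℂ) : I * (-I * z) = z := by
  rw [← mul_assoc, mul_neg, I_mul_I, neg_neg, one_mul]

theorem neg_I_I (z : ℂ) : -I * (I * z) = z := by
  rw [← mul_assoc, neg_mul, I_mul_I, neg_neg, one_mul]

theorem Cl_rP {P : Finset (ℤ × ℤ)} : Cl (rP P) = (fun z => I * z) '' Cl P := by
  ext z
  constructor
  · intro h
    refine ⟨-I * z, ?_, I_neg_I z⟩
    rwa [← mem_Cl, I_neg_I]
  · rintro ⟨w, hw, rfl⟩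
    exact mem_Cl.mpr hw

theorem Om_rP {P : Finset (ℤ × ℤ)} : Om (rP P) = (fun z => I * z) '' Om P := by
  ext z
  constructor
  · intro h
    refine ⟨-I * z, ?_, I_neg_I z⟩
    rwa [← mem_Om, I_neg_I]
  · rintro ⟨w, hw, rfl⟩
    exact mem_Om.mpr hw

theorem sp_rot (z w : ℂ) : sp (I * z) (I * w) = sp z w := by
  unfold sp
  simp only [mul_re, I_re, I_im, mul_im, zero_mul, one_mul, zero_sub, zero_add]
  ring

theorem isDir_rot {ν : ℂ} : IsDir (I * ν) ↔ IsDir ν := by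
  have key : ∀ {ν : ℂ}, IsDir ν → IsDir (I * ν) := by
    rintro ν (rfl | rfl | rfl | rfl)
    · exact Or.inr (Or.inr (Or.inl (mul_one _)))
    · exact Or.inr (Or.inr (Or.inr (by rw [mul_neg, mul_one])))
    · exact Or.inr (Or.inl I_mul_I)
    · exact Or.inl (by rw [mul_neg, I_mul_I, neg_neg])
  constructor
  · intro h
    have h1 := key (key (key h))
    have h2 : I * (I * (I * (I * ν))) = ν := by
      rw [← mul_assoc I I (I * (I * ν)), I_mul_I, ← mul_assoc I I ν, I_mul_I]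
      ring
    rwa [h2] at h1
  · exact key

theorem norm_rot (z p : ℂ) : ‖I * z - I * p‖ = ‖z - p‖ := by
  rw [← mul_sub, norm_mul, norm_I, one_mul]

theorem local_rot {P : Finset (ℤ × ℤ)} {p : ℂ} {T T' : ℂ → Prop} (hT : ∀ z, T' (I * z) ↔ T z) :
    (∃ r > 0, ∀ z : ℂ, ‖z - I * p‖ < r → (z ∈ Cl (rP P) ↔ T' z)) ↔
      ∃ r > 0, ∀ z : ℂ, ‖z - p‖ < r → (z ∈ Cl P ↔ T z) := by
  constructor
  · rintro ⟨r, hr, h⟩
    refine ⟨r, hr, fun z hz => ?_⟩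
    rw [← mem_Cl, ← hT]
    exact h _ (by rwa [norm_rot])
  · rintro ⟨r, hr, h⟩
    refine ⟨r, hr, fun z hz => ?_⟩
    have h1 := h (-I * z) (by rwa [← norm_rot, I_neg_I])
    rwa [← mem_Cl, ← hT, I_neg_I] at h1

theorem wall {P : Finset (ℤ × ℤ)} {p ν : ℂ} : Wall (rP P) (I * p) (I * ν) ↔ Wall P p ν := by
  unfold Wall
  rw [isDir_rot, local_rot (P := P) (p := p) (T := fun z => 0 ≤ sp (z - p) ν)]
  intro z
  rw [← mul_sub, sp_rot]

theorem convex {P : Finset (ℤ × ℤ)} {p ν : ℂ} : Convex (rP P) (I * p) (I * ν) ↔ Convex P p ν := by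
  unfold Convex
  rw [isDir_rot, local_rot (P := P) (p := p)
    (T := fun z => 0 ≤ sp (z - p) ν ∧ 0 ≤ sp (z - p) (I * ν))]
  intro z
  rw [← mul_sub, sp_rot, sp_rot]

theorem concave {P : Finset (ℤ × ℤ)} {p ν : ℂ} : Concave (rP P) (I * p) (I * ν) ↔ Concave P p ν := by
  unfold Concave
  rw [isDir_rot, local_rot (P := P) (p := p)
    (T := fun z => 0 ≤ sp (z - p) ν ∨ 0 ≤ sp (z - p) (I * ν))]
  intro z
  rw [← mul_sub, sp_rot, sp_rot]

theorem wall' {P : Finset (ℤ × ℤ)} {p ν : ℂ} : Wall (rP P) p ν ↔ Wall P (-I * p) (-I * ν) := by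
  have h := wall (P := P) (p := -I * p) (ν := -I * ν)
  rwa [I_neg_I, I_neg_I] at h

theorem mem_corners {P : Finset (ℤ × ℤ)} {z : ℂ} : I * z ∈ corners (rP P) ↔ z ∈ corners P := by
  unfold corners
  show (I * z ∈ Cl (rP P) ∧ I * z ∉ Om (rP P) ∧ ∀ ν, ¬ Wall (rP P) (I * z) ν) ↔
    (z ∈ Cl P ∧ z ∉ Om P ∧ ∀ ν, ¬ Wall P z ν)
  rw [mem_Cl, mem_Om]
  constructor
  · rintro ⟨h1, h2, h3⟩
    exact ⟨h1, h2, fun ν h => h3 (I * ν) (wall.mpr h)⟩
  · rintro ⟨h1, h2, h3⟩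
    refine ⟨h1, h2, fun ν h => h3 (-I * ν) ?_⟩
    rwa [wall', neg_I_I] at h

theorem corners_rP {P : Finset (ℤ × ℤ)} : corners (rP P) = (fun z => I * z) '' corners P := by
  ext z
  constructor
  · intro h
    refine ⟨-I * z, ?_, I_neg_I z⟩
    rwa [← mem_corners, I_neg_I]
  · rintro ⟨w, hw, rfl⟩
    exact mem_corners.mpr hw

/-! ## Polygons -/

theorem eadj {f h : ℤ × ℤ} : EAdj (rf4 f) (rf4 h) ↔ EAdj f h := by
  obtain ⟨a, b⟩ := f
  obtain ⟨c, d⟩ := h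
  unfold EAdj rf4
  simp only [Prod.mk.injEq]
  omega

theorem econn {S : Set (ℤ × ℤ)} (h : EConn S) : EConn (rf4 '' S) := by
  rintro _ ⟨f, hf, rfl⟩ _ ⟨k, hk, rfl⟩
  refine Relation.ReflTransGen.lift rf4 (fun a b hab => ?_) _ _ (h f hf k hk)
  exact ⟨⟨b, hab.1, rfl⟩, eadj.mpr hab.2⟩

theorem coe_rP (P : Finset (ℤ × ℤ)) : ((rP P : Finset (ℤ × ℤ)) : Set (ℤ × ℤ)) = rf4 '' (P : Set (ℤ × ℤ)) := by
  ext f
  constructor
  · intro h
    have h1 : f ∈ rP P := by exact_mod_cast h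
    exact ⟨rf4i f, by exact_mod_cast mem_rP.mp h1, rf4_rf4i f⟩
  · rintro ⟨k, hk, rfl⟩
    have h1 : k ∈ P := by exact_mod_cast hk
    exact_mod_cast rf4_mem.mpr h1

theorem compl_rP (P : Finset (ℤ × ℤ)) : ((rP P : Finset (ℤ × ℤ)) : Set (ℤ × ℤ))ᶜ =
    rf4 '' (P : Set (ℤ × ℤ))ᶜ := by
  ext f
  constructor
  · intro h
    refine ⟨rf4i f, fun h1 => h ?_, rf4_rf4i f⟩
    have h2 : rf4i f ∈ P := by exact_mod_cast h1
    exact_mod_cast mem_rP.mpr h2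
  · rintro ⟨k, hk, rfl⟩ h1
    have h2 : rf4 k ∈ rP P := by exact_mod_cast h1
    exact hk (by exact_mod_cast rf4_mem.mp h2)

theorem mpoly {P : Finset (ℤ × ℤ)} (h : MPoly P) : MPoly (rP P) where
  nonempty := by
    obtain ⟨f, hf⟩ := h.nonempty
    exact ⟨rf4 f, rf4_mem.mpr hf⟩
  conn := by
    rw [coe_rP]
    exact econn h.conn
  compl := by
    rw [compl_rP]
    exact econn h.compl
  noPinch := by
    intro x y
    have h1 := h.noPinch y (-x)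
    rw [mk_mem_rP, mk_mem_rP, mk_mem_rP, mk_mem_rP]
    have e : -(x - 1) - 1 = -x := by ring
    rw [e]
    tauto

theorem rf_rP (n : ℕ) (P : Finset (ℤ × ℤ)) : rf n (rP P) = rP (rf n P) := by
  ext ⟨x, y⟩
  rw [mk_mem_rP]
  unfold rf
  simp only [Finset.mem_biUnion, Finset.mem_product, Finset.mem_Ico]
  constructor
  · rintro ⟨f, hf, ⟨h1, h2⟩, h3, h4⟩
    refine ⟨rf4i f, mem_rP.mp hf, ⟨h3, h4⟩, ?_⟩
    unfold rf4i
    constructor
    · show (n : ℤ) * (-f.1 - 1) ≤ -x - 1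
      nlinarith
    · show -x - 1 < (n : ℤ) * (-f.1 - 1) + n
      nlinarith
  · rintro ⟨f, hf, ⟨h1, h2⟩, h3, h4⟩
    refine ⟨rf4 f, rf4_mem.mpr hf, ⟨?_, ?_⟩, h1, h2⟩
    · show (n : ℤ) * (-f.2 - 1) ≤ x
      nlinarith
    · show x < (n : ℤ) * (-f.2 - 1) + n
      nlinarith

/-! ## Contours -/

theorem lside {P : Finset (ℤ × ℤ)} {p q : ℤ × ℤ} : LSide (rP P) (rv p) (rv q) ↔ LSide P p q := by
  obtain ⟨a, b⟩ := p
  obtain ⟨c, d⟩ := q
  unfold LSide rv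
  simp only [mk_mem_rP, Prod.mk.injEq]
  have e1 : -(-b) - 1 = b - 1 := by ring
  have e2 : -(-b - 1) - 1 = b := by ring
  rw [e1, e2]
  constructor
  · rintro (h | h | h | h)
    · exact Or.inr (Or.inr (Or.inr ⟨⟨by omega, by omega⟩, h.2⟩))
    · exact Or.inl ⟨⟨by omega, by omega⟩, h.2⟩
    · exact Or.inr (Or.inl ⟨⟨by omega, by omega⟩, h.2⟩)
    · exact Or.inr (Or.inr (Or.inl ⟨⟨by omega, by omega⟩, h.2⟩))
  · rintro (h | h | h | h)
    · exact Or.inr (Or.inl ⟨⟨by omega, by omega⟩, h.2⟩)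
    · exact Or.inr (Or.inr (Or.inl ⟨⟨by omega, by omega⟩, h.2⟩))
    · exact Or.inr (Or.inr (Or.inr ⟨⟨by omega, by omega⟩, h.2⟩))
    · exact Or.inl ⟨⟨by omega, by omega⟩, h.2⟩

theorem lside' {P : Finset (ℤ × ℤ)} {p q : ℤ × ℤ} : LSide (rP P) p q ↔ LSide P (rvi p) (rvi q) := by
  have h := lside (P := P) (p := rvi p) (q := rvi q)
  rwa [rv_rvi, rv_rvi] at h

theorem cont {P : Finset (ℤ × ℤ)} {L : ℕ} {g : ℤ → ℤ × ℤ} (h : Cont P L g) : Cont (rP P) L (rg g) where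
  pos := h.pos
  per := fun k => by
    show rv (g (k + L)) = rv (g k)
    rw [h.per]
  side := fun k => lside.mpr (h.side k)
  inj := fun j k hjk => h.inj j k (rv_inj hjk)
  all := by
    intro p q hpq
    obtain ⟨k, h1, h2⟩ := h.all _ _ (lside'.mp hpq)
    refine ⟨k, ?_, ?_⟩
    · show rv (g k) = p
      rw [h1, rv_rvi]
    · show rv (g (k + 1)) = q
      rw [h2, rv_rvi]

theorem gr_rg (n : ℕ) (g : ℤ → ℤ × ℤ) (k : ℤ) : gr n (rg g) k = rv (gr n g k) := by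
  unfold gr rg rv
  apply Prod.ext
  · simp only
    ring
  · simp only

theorem gr_rg' (n : ℕ) (g : ℤ → ℤ × ℤ) : gr n (rg g) = rg (gr n g) := by
  funext k
  exact gr_rg n g k

theorem gam_rg (g : ℤ → ℤ × ℤ) (t : ℝ) : gam (rg g) t = I * gam g t := by
  unfold gam rg rv
  apply Complex.ext
  · simp only [mul_re, I_re, I_im, zero_mul, one_mul, zero_sub]
    push_cast
    ring
  · simp only [mul_im, I_re, I_im, zero_mul, one_mul, zero_add]

theorem fl_rg {g : ℤ → ℤ × ℤ} {t : ℝ} : Fl (rg g) t ↔ Fl g t := by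
  unfold Fl
  refine forall_congr' fun k => imp_congr_right fun _ => ?_
  show rv (g (k + 1)) - rv (g k) = rv (g k) - rv (g (k - 1)) ↔ _
  rw [← rv_sub, ← rv_sub]
  exact ⟨fun h => rv_inj h, fun h => by rw [h]⟩

theorem marks {L : ℕ} {g : ℤ → ℤ × ℤ} {t₁ t₂ t₂' t₃ t₄ : ℝ} (h : Marks5 L g t₁ t₂ t₂' t₃ t₄) :
    Marks5 L (rg g) t₁ t₂ t₂' t₃ t₄ :=
  ⟨h.h1, h.h2, h.h3, h.h4, h.h5, fl_rg.mpr h.f1, fl_rg.mpr h.f2, fl_rg.mpr h.f2', fl_rg.mpr h.f3,
    fl_rg.mpr h.f4⟩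

theorem specX_rP (P : Finset (ℤ × ℤ)) (g : ℤ → ℤ × ℤ) (t₁ t₂ t₂' t₃ t₄ : ℝ) :
    specX (rP P) (rg g) t₁ t₂ t₂' t₃ t₄ = (fun z => I * z) '' specX P g t₁ t₂ t₂' t₃ t₄ := by
  unfold specX
  rw [Set.image_union, corners_rP, gam_rg, gam_rg, gam_rg, gam_rg, gam_rg]
  simp only [Set.image_insert_eq, Set.image_singleton]

/-! ## Mean heights of domains with phases -/

section heights

open Relation

variable (m : Mot) {F : Finset (ℤ × ℤ)} {ω : Cfg} {ψ : DZ → ℝ} {a e : DZ} {z z' : VZ}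

private theorem nlZQ : NoLoop ZQ := by
  intro f k
  obtain ⟨u, v⟩ := f
  have h4 : ∀ k : ZMod 4, k = 0 ∨ k = 1 ∨ k = 2 ∨ k = 3 := by decide
  rcases h4 k with rfl | rfl | rfl | rfl
  · change (u, v) ≠ (u + 1, v)
    simp
  · change (u + 1, v) ≠ (u + 1, v + 1)
    simp
  · change (u + 1, v + 1) ≠ (u, v + 1)
    simp
  · change (u, v + 1) ≠ (u, v)
    simp

/-- transported phases -/
def ph (m : Mot) (ψ : DZ → ℝ) : DZ → ℝ := fun a => ψ (m.e.symm a)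

theorem bph_move (a : DZ) : bph ZQ (m.im F) (ph m ψ) (m.e a) = bph ZQ F ψ a := by
  unfold bph
  have h1 : ph m ψ (m.e a) = ψ a := by
    show ψ (m.e.symm (m.e a)) = _
    rw [Equiv.symm_apply_apply]
  have h2 : ph m ψ (m.e a).swap = ψ a.swap := by
    show ψ (m.e.symm (m.e a.swap)) = _
    rw [Equiv.symm_apply_apply]
  rw [h1, h2]
  by_cases hi : Ini ZQ (F : Set (ℤ × ℤ)) a
  · rw [if_pos hi, if_pos (m.ini_e.mpr hi)]
  · rw [if_neg hi, if_neg (fun h => hi (m.ini_e.mp h))]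
    by_cases ht : Ter ZQ (F : Set (ℤ × ℤ)) a
    · rw [if_pos ht, if_pos (m.ter_e.mpr ht)]
    · rw [if_neg ht, if_neg (fun h => ht (m.ter_e.mp h))]

theorem sgE_move (e a : DZ) : sgE (m.e e) (m.e a) = sgE e a := by
  unfold sgE
  by_cases h : a = e.swap
  · rw [if_pos h, if_pos (by rw [h]; rfl)]
  · rw [if_neg h, if_neg]
    intro h1
    exact h (m.e.injective h1)

theorem WU_move : WU ZQ (m.im F) (ph m ψ) (m.cf ω) = WU ZQ F ψ ω := by
  have h1 := Zs_WU (Q := ZQ) (F := m.im F) (ω := m.cf ω) (ψ := ph m ψ) nlZQ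
  have h2 := Zs_WU (Q := ZQ) (F := F) (ω := ω) (ψ := ψ) nlZQ
  have h3 := (m.qmap F ω).Zs_map (h := bph ZQ F ψ) (h' := bph ZQ (m.im F) (ph m ψ))
    fun a _ => bph_move m a
  have h4 : Zs ZQ (m.im F) (m.cf ω) (bph ZQ (m.im F) (ph m ψ)) = Zs ZQ F ω (bph ZQ F ψ) := h3
  rw [h1, h2] at h4
  exact_mod_cast h4

theorem WU1_move (he : e ∈ dE ZQ F) :
    WU1 ZQ (m.im F) (ph m ψ) (m.e e) (m.cf ω) = WU1 ZQ F ψ e ω := by
  have h1 := Zs_WU1 (Q := ZQ) (F := m.im F) (ω := m.cf ω) (ψ := ph m ψ) nlZQ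
    (m.mem_dE_e.mpr he)
  have h2 := Zs_WU1 (Q := ZQ) (F := F) (ω := ω) (ψ := ψ) nlZQ he
  have h3 := (m.qmap F ω).Zs_map (h := fun a => bph ZQ F ψ a * sgE e a)
    (h' := fun a => bph ZQ (m.im F) (ph m ψ) a * sgE (m.e e) a) fun a _ => by
      show bph ZQ (m.im F) (ph m ψ) (m.e a) * sgE (m.e e) (m.e a) = _
      rw [bph_move, sgE_move]
  have h4 : Zs ZQ (m.im F) (m.cf ω) (fun a => bph ZQ (m.im F) (ph m ψ) a * sgE (m.e e) a) =
      Zs ZQ F ω (fun a => bph ZQ F ψ a * sgE e a) := h3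
  rw [h1, h2] at h4
  have h5 := mul_right_cancel₀ Complex.I_ne_zero h4
  exact_mod_cast h5

theorem WU_dep (F : Finset (ℤ × ℤ)) (ψ : DZ → ℝ) : Dep (F : Set (ℤ × ℤ)) (WU ZQ F ψ) := by
  intro ω ω' h
  have h1 := Rel.Zs_congr_cfg (Q := ZQ) (F := F) (ω := ω) (ω' := ω') (h := bph ZQ F ψ)
    fun f hf => h f (by exact_mod_cast hf)
  rw [Zs_WU nlZQ, Zs_WU nlZQ] at h1
  exact_mod_cast h1

theorem WU1_dep (ψ : DZ → ℝ) (he : e ∈ dE ZQ F) :
    Dep (F : Set (ℤ × ℤ)) (WU1 ZQ F ψ e) := by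
  intro ω ω' h
  have h1 := Rel.Zs_congr_cfg (Q := ZQ) (F := F) (ω := ω) (ω' := ω')
    (h := fun a => bph ZQ F ψ a * sgE e a) fun f hf => h f (by exact_mod_cast hf)
  rw [Zs_WU1 nlZQ he, Zs_WU1 nlZQ he] at h1
  have h5 := mul_right_cancel₀ Complex.I_ne_zero h1
  exact_mod_cast h5

theorem avWU_move : av (m.im F) (WU ZQ (m.im F) (ph m ψ)) = av F (WU ZQ F ψ) :=
  m.av_move (WU_dep F ψ) fun _ => WU_move m

theorem avWU1_move (he : e ∈ dE ZQ F) :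
    av (m.im F) (WU1 ZQ (m.im F) (ph m ψ) (m.e e)) = av F (WU1 ZQ F ψ e) :=
  m.av_move (WU1_dep ψ he) fun _ => WU1_move m he

theorem uE_move (he : e ∈ dE ZQ F) : uE ZQ (m.im F) (ph m ψ) (m.e e) = uE ZQ F ψ e := by
  unfold uE
  rw [avWU_move, avWU1_move m he]

theorem hasPotQ_move (h : Tilt.HasPotQ ZQ F) : Tilt.HasPotQ ZQ (m.im F) := by
  intro M hM hf
  obtain ⟨κ, hκ⟩ := h {a | m.e a ∈ M} (fun a ha => hM _ ha) (by
    intro f hfF
    obtain ⟨b, hb⟩ := hf (m.ψ f) (m.psi_mem.mpr hfF)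
    refine ⟨b == ev m.r, fun k hk => ?_⟩
    have h1 := hb (k + m.r) (by
      rw [ev_add]
      revert hk
      cases b <;> cases ev k <;> cases ev m.r <;> decide)
    have h2 : k + m.r + 1 = k + 1 + m.r := by ring
    rw [h2, m.sd_e, m.sd_e] at h1
    exact h1)
  refine ⟨fun v => κ (m.φ.symm v), fun a ha => ?_⟩
  obtain ⟨c, rfl⟩ := m.e.surjective a
  have h1 := hκ c (m.mem_dE_e.mp ha)
  show m.e c ∈ M ↔ κ (m.φ.symm (m.φ c.1)) ≠ κ (m.φ.symm (m.φ c.2))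
  rw [Equiv.symm_apply_apply, Equiv.symm_apply_apply]
  exact h1

theorem connE_move (h : Tilt.ConnE ZQ F z z') : Tilt.ConnE ZQ (m.im F) (m.φ z) (m.φ z') := by
  refine ReflTransGen.lift m.φ (fun a b hab => ?_) _ _ h
  have h1 := m.mem_dE_e.mpr hab
  exact h1

/-- **mean heights are covariant** -/
theorem uH_move (hP : Tilt.HasPotQ ZQ F) (hz : Tilt.ConnE ZQ F z z') :
    Ht.uH ZQ (m.im F) (ph m ψ) (m.φ z) (m.φ z') = Ht.uH ZQ F ψ z z' := by
  have h1 := Ht.uH_unique (Q := ZQ) (F := m.im F) (ψ := ph m ψ) (z := m.φ z) (z' := m.φ z')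
    (g := fun v => Ht.uH ZQ F ψ (m.φ.symm v) z') nlZQ (hasPotQ_move m hP) (by
      intro a ha
      obtain ⟨c, rfl⟩ := m.e.surjective a
      have hc := m.mem_dE_e.mp ha
      rw [uE_move m hc]
      show Ht.uH ZQ F ψ (m.φ.symm (m.φ c.1)) z' - Ht.uH ZQ F ψ (m.φ.symm (m.φ c.2)) z' = _
      rw [Equiv.symm_apply_apply, Equiv.symm_apply_apply, Ht.uH_sub, Ht.uH_edge nlZQ hP hc])
    (connE_move m hz)
  rw [h1, Equiv.symm_apply_apply, Equiv.symm_apply_apply, Ht.uH_self, sub_zero]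

theorem HD_move (hP : Tilt.HasPotQ ZQ F) (hz : Tilt.ConnE ZQ F z z') :
    Ht.HD ZQ (m.im F) (ph m ψ) (m.φ z) (m.φ z') = Ht.HD ZQ F ψ z z' := by
  induction hz with
  | refl => rw [Ht.HD_self, Ht.HD_self]
  | @tail x y _ hs ih =>
    have h1 := Ht.HD_edge (ψ := ψ) nlZQ hP hs
    have h2 := Ht.HD_edge (ψ := ph m ψ) nlZQ (hasPotQ_move m hP) (m.mem_dE_e.mpr hs)
    rw [avWU1_move m hs, ← h1] at h2
    have h3 : Ht.HD ZQ (m.im F) (ph m ψ) (m.φ x) (m.φ y) = Ht.HD ZQ F ψ x y := h2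
    have h4 := Ht.HD_add (Q := ZQ) (F := m.im F) (ψ := ph m ψ) (m.φ z) (m.φ x) (m.φ y)
    have h5 := Ht.HD_add (Q := ZQ) (F := F) (ψ := ψ) z x y
    rw [← h4, ← h5, h3, ih]

/-- families of phases -/
theorem uT_move {ι : Type} (s : Finset ι) (p : ι → ℝ) (Ψ : ι → DZ → ℝ) (hP : Tilt.HasPotQ ZQ F)
    (hz : Tilt.ConnE ZQ F z z') :
    Ht.uT ZQ (m.im F) s p (fun i => ph m (Ψ i)) (m.φ z) (m.φ z') = Ht.uT ZQ F s p Ψ z z' := by
  have h1 : Ht.HT ZQ (m.im F) s p (fun i => ph m (Ψ i)) (m.φ z) (m.φ z') = Ht.HT ZQ F s p Ψ z z' :=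
    Finset.sum_congr rfl fun i _ => by rw [HD_move m hP hz]
  have h2 : Ht.ZT ZQ (m.im F) s p (fun i => ph m (Ψ i)) = Ht.ZT ZQ F s p Ψ :=
    Finset.sum_congr rfl fun i _ => by rw [avWU_move]
  unfold Ht.uT
  rw [h1, h2]

end heights

/-! ## Heights of environments -/

section env

variable (m : Mot) {E : WEnv} {u : VZ → ℝ}

/-- a function whose increments are the mean arrows of the environment -/
theorem inc_move (h : ∀ a ∈ dE ZQ E.F, u a.1 - u a.2 = E.mA a) :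
    ∀ a ∈ dE ZQ (E.move m).F, u (m.φ.symm a.1) - u (m.φ.symm a.2) = (E.move m).mA a := by
  intro a ha
  obtain ⟨c, rfl⟩ := m.e.surjective a
  have hc := m.mem_dE_e.mp ha
  rw [WEnv.mA_move, ← h c hc]
  show u (m.φ.symm (m.φ c.1)) - u (m.φ.symm (m.φ c.2)) = _
  rw [Equiv.symm_apply_apply, Equiv.symm_apply_apply]

end env

/-! ## Limits -/

section limits

open DC (AE)
open InnerProductSpace (HarmonicOnNhd HarmonicAt)

variable {ι : Type*}

/-- the point which is rounded to the rotated vertex -/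
def up (n : ℕ) (z : ℂ) : ℂ := z + (((⌈(n : ℝ) * z.im⌉ : ℝ) - ⌊(n : ℝ) * z.im⌋) / n : ℝ) * I

theorem up_re (n : ℕ) (z : ℂ) : (up n z).re = z.re := by
  unfold up
  simp

theorem up_im (n : ℕ) (z : ℂ) : (up n z).im =
    z.im + ((⌈(n : ℝ) * z.im⌉ : ℝ) - ⌊(n : ℝ) * z.im⌋) / n := by
  unfold up
  simp

theorem norm_up {n : ℕ} (hn : 0 < n) (z : ℂ) : ‖up n z - z‖ ≤ 1 / n := by
  have hn' : (0 : ℝ) < n := by exact_mod_cast hn
  unfold up
  rw [add_sub_cancel_left, norm_mul, norm_I, mul_one, Complex.norm_real, Real.norm_eq_abs, abs_div,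
    abs_of_pos hn']
  gcongr
  rw [abs_le]
  have h1 := Int.floor_le_ceil ((n : ℝ) * z.im)
  have h2 : ⌈(n : ℝ) * z.im⌉ ≤ ⌊(n : ℝ) * z.im⌋ + 1 := Int.ceil_le_floor_add_one _
  have h3 : ((⌊(n : ℝ) * z.im⌋ : ℤ) : ℝ) ≤ ⌈(n : ℝ) * z.im⌉ := by exact_mod_cast h1
  have h4 : ((⌈(n : ℝ) * z.im⌉ : ℤ) : ℝ) ≤ ⌊(n : ℝ) * z.im⌋ + 1 := by exact_mod_cast h2
  constructor <;> linarith

theorem fl_up {n : ℕ} (hn : 0 < n) (z : ℂ) : rvi (fl n (I * z)) = fl n (up n z) := by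
  have hn' : (n : ℝ) ≠ 0 := by exact_mod_cast hn.ne'
  unfold rvi fl
  rw [up_re, up_im]
  simp only [mul_re, I_re, I_im, mul_im, zero_mul, one_mul, zero_sub, zero_add]
  apply Prod.ext
  · rfl
  · show -⌊(n : ℝ) * -z.im⌋ = ⌊(n : ℝ) * (z.im + _)⌋
    rw [mul_neg, Int.floor_neg, neg_neg, mul_add, mul_div_cancel₀ _ hn']
    have h : (n : ℝ) * z.im + ((⌈(n : ℝ) * z.im⌉ : ℝ) - ⌊(n : ℝ) * z.im⌋) =
        (n : ℝ) * z.im + ((⌈(n : ℝ) * z.im⌉ - ⌊(n : ℝ) * z.im⌋ : ℤ) : ℝ) := by push_cast; ring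
    rw [h, Int.floor_add_intCast]
    ring

/-- limits of rotated lattice functions -/
theorem tlu_rot {l : Filter ι} {sc : ι → ℕ} (hsc : Tendsto sc l atTop) {P : Finset (ℤ × ℤ)} {z0 : ℂ}
    (hz0 : z0 ∈ Om P) {f : ι → ℤ × ℤ → ℝ} {U : ℂ → ℝ}
    (hae : AE l (fun i => nz (sc i) z0 (f i)) (Om P))
    (hU : TendstoLocallyUniformlyOn (fun i => nz (sc i) z0 (f i)) U l (Om P)) :
    TendstoLocallyUniformlyOn (fun i => nz (sc i) (I * z0) (fun v => f i (rvi v)))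
      (fun z => U (-I * z)) l (Om (rP P)) := by
  have hO : IsOpen (Om P) := isOpen_interior
  have hO' : IsOpen (Om (rP P)) := isOpen_interior
  rw [tendstoLocallyUniformlyOn_iff_forall_isCompact hO']
  rw [tendstoLocallyUniformlyOn_iff_forall_isCompact hO] at hU
  intro K hK hKc
  set K' : Set ℂ := insert z0 ((fun z => -I * z) '' K) with hK'
  have hK'c : IsCompact K' := (hKc.image (by fun_prop)).insert z0
  have hK'O : K' ⊆ Om P := by
    rintro z (rfl | ⟨w, hw, rfl⟩)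
    · exact hz0
    · rw [← mem_Om, I_neg_I]
      exact hK hw
  obtain ⟨r, hr, hrO⟩ := hK'c.exists_cthickening_subset_open hO hK'O
  have hK2 : IsCompact (Metric.cthickening r K') := hK'c.cthickening
  rw [Metric.tendstoUniformlyOn_iff]
  intro ε hε
  obtain ⟨δ, hδ, h1⟩ := hae _ hrO hK2 (ε / 3) (by positivity)
  have h2 := (Metric.tendstoUniformlyOn_iff.mp (hU K' hK'O hK'c)) (ε / 3) (by positivity)
  have h3 : ∀ᶠ i in l, 0 < sc i := hsc.eventually_gt_atTop 0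
  have h4 : ∀ᶠ i in l, 1 / (sc i : ℝ) < min r δ := by
    have h5 : Tendsto (fun i => 1 / ((sc i : ℕ) : ℝ)) l (𝓝 0) :=
      tendsto_one_div_atTop_nhds_zero_nat.comp hsc
    exact h5.eventually (gt_mem_nhds (lt_min hr hδ))
  filter_upwards [h1, h2, h3, h4] with i h1 h2 h3 h4 z hz
  have hw : -I * z ∈ K' := Or.inr ⟨z, hz, rfl⟩
  have hz0' : z0 ∈ K' := Or.inl rfl
  have key : ∀ w ∈ K', dist (nz (sc i) z0 (f i) w) (nz (sc i) z0 (f i) (up (sc i) w)) < ε / 3 := by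
    intro w hw
    have h6 : dist (up (sc i) w) w ≤ 1 / (sc i : ℝ) := by
      rw [dist_eq_norm]
      exact norm_up h3 w
    refine h1 w (Metric.self_subset_cthickening K' hw) (up (sc i) w) ?_ ?_
    · refine Metric.mem_cthickening_of_dist_le _ w r K' hw ?_
      exact h6.trans (h4.trans_le (min_le_left _ _)).le
    · rw [dist_comm]
      exact h6.trans_lt (h4.trans_le (min_le_right _ _))
  have e : nz (sc i) (I * z0) (fun v => f i (rvi v)) z =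
      nz (sc i) z0 (f i) (up (sc i) (-I * z)) - nz (sc i) z0 (f i) (up (sc i) z0) := by
    unfold nz
    have e1 : rvi (fl (sc i) z) = fl (sc i) (up (sc i) (-I * z)) := by
      rw [← fl_up h3, I_neg_I]
    show f i (rvi (fl (sc i) z)) - f i (rvi (fl (sc i) (I * z0))) = _
    rw [e1, fl_up h3]
    ring
  have e0 : nz (sc i) z0 (f i) z0 = 0 := sub_self _
  have k1 := key _ hw
  have k2 := key _ hz0'
  have k3 := h2 _ hw
  rw [e0] at k2
  rw [e]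
  rw [Real.dist_eq, abs_lt] at k1 k2 k3 ⊢
  constructor <;> linarith [k1.1, k1.2, k2.1, k2.2, k3.1, k3.2]

/-- harmonic functions and the rotation -/
theorem harm_rot {U : ℂ → ℝ} {S : Set ℂ} (h : HarmonicOnNhd (fun z => U (-I * z)) S) {z : ℂ}
    (hz : I * z ∈ S) : HarmonicAt U z := by
  have h1 := h (I * z) hz
  have h2 : HarmonicAt (fun w => U (-I * w)) (0 + z * I) := by
    rw [zero_add, mul_comm]
    exact h1
  have h3 := harmonicAt_comp_affine h2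
  have h4 : (fun w : ℂ => U (-I * (0 + w * I))) = U := by
    funext w
    congr 1
    rw [zero_add, mul_comm w I, neg_I_I]
  rwa [h4] at h3

/-- limits of asymptotically equicontinuous functions are continuous -/
theorem cont_of_ae {l : Filter ι} [l.NeBot] {F : ι → ℂ → ℝ} {U : ℂ → ℝ} {O : Set ℂ} (hO : IsOpen O)
    (hae : AE l F O) (hU : ∀ z ∈ O, Tendsto (fun i => F i z) l (𝓝 (U z))) : ContinuousOn U O := by
  intro z hz
  obtain ⟨K, hK, hKO, hKc⟩ := local_compact_nhds (hO.mem_nhds hz)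
  rw [Metric.continuousWithinAt_iff]
  intro ε hε
  obtain ⟨δ, hδ, h1⟩ := hae K hKO hKc (ε / 2) (by positivity)
  obtain ⟨r, hr, hrK⟩ := Metric.mem_nhds_iff.mp hK
  refine ⟨min r δ, lt_min hr hδ, fun w hw hwz => ?_⟩
  have h2 : Tendsto (fun i => dist (F i w) (F i z)) l (𝓝 (dist (U w) (U z))) :=
    (hU w hw).dist (hU z hz)
  have h3 : dist (U w) (U z) ≤ ε / 2 := by
    refine le_of_tendsto h2 ?_
    filter_upwards [h1] with i hi
    exact (hi w (hrK (hwz.trans_le (min_le_left _ _))) z (mem_of_mem_nhds hK)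
      (hwz.trans_le (min_le_right _ _))).le
  linarith

/-- harmonic off finitely many horizontal lines and off finitely many vertical lines -/
theorem harm_of_lines {U : ℂ → ℝ} {O : Set ℂ} (hO : IsOpen O) (hc : ContinuousOn U O)
    {X Y : Set ℝ} (hX : X.Finite) (hY : Y.Finite)
    (h1 : ∀ z ∈ O, z.im ∉ X → HarmonicAt U z) (h2 : ∀ z ∈ O, z.re ∉ Y → HarmonicAt U z) :
    HarmonicOnNhd U O := by
  intro z hz
  have hfin : ({w : ℂ | w.re ∈ Y ∧ w.im ∈ X}).Finite := by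
    have h3 : ({w : ℂ | w.re ∈ Y ∧ w.im ∈ X}) ⊆ (fun p : ℝ × ℝ => (⟨p.1, p.2⟩ : ℂ)) '' (Y ×ˢ X) := by
      rintro w ⟨h3, h4⟩
      exact ⟨(w.re, w.im), ⟨h3, h4⟩, rfl⟩
    exact ((hY.prod hX).image _).subset h3
  have hfin2 : ({w : ℂ | w.re ∈ Y ∧ w.im ∈ X} \ {z}).Finite := hfin.subset Set.sdiff_subset
  have h3 : (O \ ({w : ℂ | w.re ∈ Y ∧ w.im ∈ X} \ {z})) ∈ 𝓝 z :=
    (hO.sdiff hfin2.isClosed).mem_nhds ⟨hz, fun h => h.2 rfl⟩
  obtain ⟨r, hr, hrO⟩ := Metric.mem_nhds_iff.mp h3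
  refine harmonicOnNhd_of_punctured hr (fun w hw => ?_) (hc.continuousAt (hO.mem_nhds hz)) z
    (Metric.mem_ball_self hr)
  obtain ⟨hw1, hw2⟩ := hw
  obtain ⟨hw3, hw4⟩ := hrO hw1
  by_cases h5 : w.im ∈ X
  · refine h2 w hw3 fun h6 => hw4 ⟨⟨h6, h5⟩, hw2⟩
  · exact h1 w hw3 h5

/-- **horizontal slabs of the polygon and of the rotated polygon are enough** -/
theorem harm_full (u : Ultrafilter ι) {sc : ι → ℕ} (hsc : Tendsto sc u atTop) {P : Finset (ℤ × ℤ)} {z0 : ℂ}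
    (hz0 : z0 ∈ Om P) {f : ι → ℤ × ℤ → ℝ} (hae : AE (u : Filter ι) (fun i => nz (sc i) z0 (f i)) (Om P))
    {X Y : Set ℝ} (hX : X.Finite) (hY : Y.Finite)
    (h1 : ∀ U : ℂ → ℝ, TendstoLocallyUniformlyOn (fun i => nz (sc i) z0 (f i)) U u (Om P) →
      ∀ z ∈ Om P, z.im ∉ X → HarmonicAt U z)
    (h2 : ∀ U : ℂ → ℝ, TendstoLocallyUniformlyOn (fun i => nz (sc i) (I * z0) (fun v => f i (rvi v))) U u
      (Om (rP P)) → ∀ z ∈ Om (rP P), z.im ∉ Y → HarmonicAt U z)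
    {U : ℂ → ℝ} (hU : TendstoLocallyUniformlyOn (fun i => nz (sc i) z0 (f i)) U u (Om P)) :
    HarmonicOnNhd U (Om P) := by
  have hO : IsOpen (Om P) := isOpen_interior
  refine harm_of_lines hO (cont_of_ae hO hae fun z hz => hU.tendsto_at hz) hX hY (h1 U hU) ?_
  intro z hz hzY
  have h3 := h2 _ (tlu_rot hsc hz0 hae hU)
  refine harm_rot (S := {w | w ∈ Om (rP P) ∧ w.im ∉ Y}) (fun w hw => h3 w hw.1 hw.2) ?_
  refine ⟨mem_Om.mpr hz, ?_⟩
  simpa using hzY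

end limits

end

end Pool.Agent.SixB.Rt
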