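import Pool.Agent.Lib.SixB.S3EnvN
import Pool.Agent.Lib.SixB.S3Rot
import Pool.Agent.Lib.SixB.AN10b
import Pool.Agent.Lib.SixB.CARf

/-!
# 6BD step 3: assembly of the export (captain helper95)

* `Core χ P l n u X`: the two statements of step 3 (3.7 and 3.8) at all points of `Om P` whose height is not in `X`.
* `harm_core`: harmonicity of the limits off the heights `X`.
* `wh_of_core`: `Core` for the polygon and for the polygon rotated by 90 degrees gives the property `WH` of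
  CAEnvA (weak harmonicity against one profile, off finitely many centres), `prof` = the profile.
-/

set_option autoImplicit false

namespace Pool.Agent.SixB

open Complex Filter Topology Metric
open Pool.Agent.Perc Pool.Agent.Perc.Q
open scoped ContDiff

namespace Asm3

noncomputable section

variable {ι : Type}

/-- the statements 3.7 and 3.8 at the points whose height is not in `X` -/
def Core (χ : ℂ → ℝ) (P : Finset (ℤ × ℤ)) (l : Filter ι) (n : ι → ℕ) (u : ι → ℤ × ℤ → ℝ)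
    (X : Set ℝ) : Prop :=
  ∀ z0 ∈ Om P, z0.im ∉ X → ∃ ρ > 0, ∃ r0 > 0, ∃ C c : ℝ, 0 < c ∧ ∀ z ∈ ball z0 ρ, ∀ r : ℝ,
    0 < r → r < r0 → ∃ V' : ι → ℤ × ℤ → ℝ,
      Tendsto (fun i => ∑' v : ℤ × ℤ, χ ((DC.mesh (n i) v - z) / r) * DC.lapZ (V' i) v) l (𝓝 0) ∧
      ∀ᶠ i in l, ∃ a : ℝ, ∀ v, dist (DC.mesh (n i) v) z ≤ 2 * r → |u i v - V' i v - a| ≤ C * r ^ (2 + c)

/-- a lattice point of the open region is (the lower left corner of) a face -/
theorem mem_rf_of_mesh {P : Finset (ℤ × ℤ)} {n : ℕ} (hn : 0 < n) {v : ℤ × ℤ}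
    (h : DC.mesh n v ∈ Om P) : v ∈ rf n P := by
  rw [CARf.mem_rf hn]
  have h1 := CARf.mem_Om_iff.mp h _ (CARf.mem_csq_floor (DC.mesh n v))
  have h2 : ⌊(DC.mesh n v).re⌋ = v.1 / (n : ℤ) := by
    rw [show (DC.mesh n v).re = (v.1 : ℝ) / n by rfl]
    exact CARf.floor_div hn
  have h3 : ⌊(DC.mesh n v).im⌋ = v.2 / (n : ℤ) := by
    rw [show (DC.mesh n v).im = (v.2 : ℝ) / n by rfl]
    exact CARf.floor_div hn
  rw [h2, h3] at h1
  exact h1

theorem Core.congr {χ : ℂ → ℝ} {P : Finset (ℤ × ℤ)} {l : Filter ι} {n : ι → ℕ}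
    (hn : Tendsto n l atTop) {u u' : ι → ℤ × ℤ → ℝ} {X : Set ℝ} (h : Core χ P l n u X)
    (hu : ∀ᶠ i in l, ∃ b : ℝ, ∀ v ∈ rf (n i) P, u' i v = u i v + b) : Core χ P l n u' X := by
  intro z0 hz0 hX
  obtain ⟨ρ, hρ, r0, hr0, C, c, hc, h1⟩ := h z0 hz0 hX
  have hO : IsOpen (Om P) := isOpen_interior
  obtain ⟨ε, hε, hεO⟩ := Metric.isOpen_iff.mp hO z0 hz0
  refine ⟨min ρ (ε / 4), lt_min hρ (by positivity), min r0 (ε / 8), lt_min hr0 (by positivity), C, c,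
    hc, fun z hz r hr hr' => ?_⟩
  have hz1 : dist z z0 < ρ := (mem_ball.mp hz).trans_le (min_le_left _ _)
  have hz2 : dist z z0 < ε / 4 := (mem_ball.mp hz).trans_le (min_le_right _ _)
  have hr1 : r < r0 := hr'.trans_le (min_le_left _ _)
  have hr2 : r < ε / 8 := hr'.trans_le (min_le_right _ _)
  obtain ⟨V', h2, h3⟩ := h1 z hz1 r hr hr1
  refine ⟨V', h2, ?_⟩
  filter_upwards [h3, hu, hn.eventually_gt_atTop 0] with i hi hb hni
  obtain ⟨a, ha⟩ := hi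
  obtain ⟨b, hb⟩ := hb
  refine ⟨a + b, fun v hv => ?_⟩
  have h4 : DC.mesh (n i) v ∈ Om P := hεO (by
    rw [mem_ball]
    have := dist_triangle (DC.mesh (n i) v) z z0
    linarith)
  rw [hb v (mem_rf_of_mesh hni h4)]
  have := ha v hv
  rw [show u i v + b - V' i v - (a + b) = u i v - V' i v - a by ring]
  exact this

/-- harmonicity off the heights `X` -/
theorem harm_core {χ : ℂ → ℝ} (hχ : ContDiff ℝ ∞ χ) (hc : HasCompactSupport χ) (hχ1 : ∫ x, χ x ≠ 0)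
    (hR : tsupport χ ⊆ closedBall 0 1) {P : Finset (ℤ × ℤ)} {z0 : ℂ} {l : Filter ι} {n : ι → ℕ}
    (hn : Tendsto n l atTop) {u : ι → ℤ × ℤ → ℝ} {X : Set ℝ} (hX : X.Finite)
    (h : Core χ P l n u X) (hae : DC.AE l (fun i => nz (n i) z0 (u i)) (Om P))
    (U : Ultrafilter ι) (hU : (U : Filter ι) ≤ l) (f : ℂ → ℝ)
    (hf : TendstoLocallyUniformlyOn (fun i => nz (n i) z0 (u i)) f U (Om P)) :
    ∀ z ∈ Om P, z.im ∉ X → InnerProductSpace.HarmonicAt f z := by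
  set O : Set ℂ := Om P ∩ {z | z.im ∉ X} with hO
  have hOo : IsOpen O := by
    refine IsOpen.inter isOpen_interior ?_
    have h1 : IsClosed (Complex.im ⁻¹' X) := hX.isClosed.preimage Complex.continuous_im
    exact h1.isOpen_compl
  set V : ι → ℤ × ℤ → ℝ := fun i v => u i v - u i (fl (n i) z0) with hV
  have hVe : (fun (i : ι) (x : ℂ) => V i (DC.fl (n i) x)) = fun i => nz (n i) z0 (u i) := rfl
  have key := DC.harm_of_opened_pow (l := l) (N := n) hn hOo Set.finite_empty (V := V)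
    (by rw [hVe]; exact hae.mono le_rfl Set.inter_subset_left) hχ hc hχ1 (R := 1) zero_le_one hR ?_ U hU f
    (by rw [hVe]; exact hf.mono Set.inter_subset_left)
  · intro z hz hzX
    exact key z ⟨hz, hzX⟩
  · rintro w ⟨⟨hw, hwX⟩, -⟩
    obtain ⟨ρ, hρ, r0, hr0, C, c, hc0, h1⟩ := h w hw hwX
    refine ⟨ρ, hρ, r0, hr0, C, c, hc0, fun z hz r hr hr' => ?_⟩
    obtain ⟨V', h2, h3⟩ := h1 z hz r hr hr'
    refine ⟨V', h2, ?_⟩
    filter_upwards [h3] with i hi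
    obtain ⟨a, ha⟩ := hi
    refine ⟨a - u i (fl (n i) z0), fun v hv => ?_⟩
    have h4 := ha v (by
      have : (1 + 1) * r = 2 * r := by ring
      rw [← this]; exact hv)
    rw [show V i v - V' i v - (a - u i (fl (n i) z0)) = u i v - V' i v - a by rw [hV]; ring]
    exact h4

/-- the lattice Laplacian of `u` is null against `χ` at all scales, near `z0` -/
def Nul (χ : ℂ → ℝ) (l : Filter ι) (n : ι → ℕ) (u : ι → ℤ × ℤ → ℝ) (z0 : ℂ) : Prop :=
  ∃ ρ > 0, ∀ ε > 0, ∃ r0 > 0, ∀ z ∈ ball z0 ρ, ∀ r : ℝ, 0 < r → r < r0 →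
    ∀ᶠ i in l, |∑' v : ℤ × ℤ, χ ((DC.mesh (n i) v - z) / r) * DC.lapZ (u i) v| ≤ ε * r ^ 2

theorem nul_of_core {χ : ℂ → ℝ} (hχ : ContDiff ℝ ∞ χ) (hc : HasCompactSupport χ)
    (hR : tsupport χ ⊆ closedBall 0 1) {P : Finset (ℤ × ℤ)} {l : Filter ι} {n : ι → ℕ}
    (hn : Tendsto n l atTop) {u : ι → ℤ × ℤ → ℝ} {X : Set ℝ} (h : Core χ P l n u X) {z0 : ℂ}
    (hz0 : z0 ∈ Om P) (hX : z0.im ∉ X) : Nul χ l n u z0 := by
  obtain ⟨ρ, hρ, r0, hr0, C, c, hc0, h1⟩ := h z0 hz0 hX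
  obtain ⟨M, hM0, hM⟩ := DC.profile_compare hχ hc zero_le_one hR
  refine ⟨ρ, hρ, fun ε hε => ?_⟩
  have hlim : Tendsto (fun r : ℝ => M * (|C| * r ^ c)) (𝓝[>] 0) (𝓝 0) := by
    have h2 : Tendsto (fun r : ℝ => M * (|C| * r ^ c)) (𝓝 0) (𝓝 (M * (|C| * 0 ^ c))) :=
      (((Real.continuous_rpow_const hc0.le).tendsto 0).const_mul |C|).const_mul M
    rw [Real.zero_rpow hc0.ne', mul_zero, mul_zero] at h2
    exact h2.mono_left nhdsWithin_le_nhds
  obtain ⟨r1, hr1, h3⟩ := mem_nhdsGT_iff_exists_Ioo_subset.1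
    (hlim.eventually (gt_mem_nhds (half_pos hε)))
  refine ⟨min r0 r1, lt_min hr0 hr1, fun z hz r hr hr' => ?_⟩
  obtain ⟨V', h4, h5⟩ := h1 z hz r hr (hr'.trans_le (min_le_left _ _))
  have h6 : (0 : ℝ) < ε / 2 * r ^ 2 := by positivity
  have h7 := h4.abs
  rw [abs_zero] at h7
  have h8 : Tendsto (fun i => 1 / ((n i : ℕ) : ℝ)) l (𝓝 0) :=
    tendsto_one_div_atTop_nhds_zero_nat.comp hn
  filter_upwards [h7.eventually (gt_mem_nhds h6), h5, hn.eventually_gt_atTop 0,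
    h8.eventually (gt_mem_nhds hr)] with i hi hi2 hi0 hi3
  obtain ⟨a, ha⟩ := hi2
  have h9 : ∀ v, dist (DC.mesh (n i) v) z ≤ (1 + 1) * r → |(u i v - V' i v) - a| ≤ |C| * r ^ (2 + c) := by
    intro v hv
    refine (ha v (by rw [show (2 : ℝ) * r = (1 + 1) * r by ring]; exact hv)).trans ?_
    have : (0 : ℝ) ≤ r ^ (2 + c) := by positivity
    exact mul_le_mul_of_nonneg_right (le_abs_self C) this
  have h10 := hM (n i) z r hi0 hr hi3.le (fun v => u i v - V' i v) a (|C| * r ^ (2 + c))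
    (by positivity) h9
  have h11 : ∑' v : ℤ × ℤ, χ ((DC.mesh (n i) v - z) / r) * DC.lapZ (u i) v =
      ∑' v : ℤ × ℤ, χ ((DC.mesh (n i) v - z) / r) * DC.lapZ (V' i) v +
        ∑' v : ℤ × ℤ, χ ((DC.mesh (n i) v - z) / r) * DC.lapZ (fun v => u i v - V' i v) v :=
    DC.tsum_lapZ_sub hi0 (DC.hasCompactSupport_scale hc z hr) (u i) (V' i)
  rw [h11]
  refine (abs_add_le _ _).trans ?_
  have h12 : M * (|C| * r ^ c) < ε / 2 := h3 ⟨hr, hr'.trans_le (min_le_right _ _)⟩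
  have h13 : M * (|C| * r ^ (2 + c)) = M * (|C| * r ^ c) * r ^ 2 := by
    rw [Real.rpow_add hr, Real.rpow_two]; ring
  have h14 : (0 : ℝ) < r ^ 2 := by positivity
  have h15 : M * (|C| * r ^ c) * r ^ 2 ≤ ε / 2 * r ^ 2 :=
    mul_le_mul_of_nonneg_right h12.le h14.le
  calc _ ≤ ε / 2 * r ^ 2 + M * (|C| * r ^ (2 + c)) := add_le_add hi.le h10
    _ ≤ ε / 2 * r ^ 2 + ε / 2 * r ^ 2 := by rw [h13]; linarith
    _ = ε * r ^ 2 := by ring

theorem lapZ_rvi (u : ℤ × ℤ → ℝ) (w : ℤ × ℤ) :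
    DC.lapZ (fun v => u (Rt.rvi v)) (Rt.rv w) = DC.lapZ u w := by
  unfold DC.lapZ Rt.rvi Rt.rv
  simp only [neg_neg, neg_add_rev, neg_sub]
  rw [show -1 + w.2 = w.2 - 1 by ring, show (1 : ℤ) - -w.2 = w.2 + 1 by ring]
  ring

/-- the sums for the rotated function -/
theorem sum_rot {χ : ℂ → ℝ} (hI : ∀ z, χ (I * z) = χ z) (n : ℕ) (z : ℂ) (r : ℝ) (u : ℤ × ℤ → ℝ) :
    ∑' v : ℤ × ℤ, χ ((DC.mesh n v - I * z) / r) * DC.lapZ (fun v => u (Rt.rvi v)) v =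
      ∑' v : ℤ × ℤ, χ ((DC.mesh n v - z) / r) * DC.lapZ u v := by
  let e : ℤ × ℤ ≃ ℤ × ℤ := ⟨Rt.rv, Rt.rvi, Rt.rvi_rv, Rt.rv_rvi⟩
  rw [← e.tsum_eq]
  refine tsum_congr fun w => ?_
  show χ ((DC.mesh n (Rt.rv w) - I * z) / r) * DC.lapZ (fun v => u (Rt.rvi v)) (Rt.rv w) = _
  rw [lapZ_rvi]
  congr 1
  have h1 : DC.mesh n (Rt.rv w) = I * DC.mesh n w := by
    unfold DC.mesh Rt.rv
    apply Complex.ext <;> simp
    ring
  rw [h1, ← mul_sub, mul_div_assoc, hI]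

theorem Nul.rot {χ : ℂ → ℝ} (hI : ∀ z, χ (I * z) = χ z) {l : Filter ι} {n : ι → ℕ}
    {u : ι → ℤ × ℤ → ℝ} {z0 : ℂ} (h : Nul χ l n (fun i v => u i (Rt.rvi v)) (I * z0)) :
    Nul χ l n u z0 := by
  obtain ⟨ρ, hρ, h1⟩ := h
  refine ⟨ρ, hρ, fun ε hε => ?_⟩
  obtain ⟨r0, hr0, h2⟩ := h1 ε hε
  refine ⟨r0, hr0, fun z hz r hr hr' => ?_⟩
  have hz' : I * z ∈ ball (I * z0) ρ := by
    rw [mem_ball, Complex.dist_eq, ← mul_sub, norm_mul, Complex.norm_I, one_mul, ← Complex.dist_eq]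
    exact mem_ball.mp hz
  filter_upwards [h2 (I * z) hz' r hr hr'] with i hi
  rw [sum_rot hI] at hi
  exact hi

/-- **Horizontal slabs of the polygon and of the rotated polygon give the export** (form `WH` of CAEnvA). -/
theorem wh_of_core {χ : ℂ → ℝ} (hχ : ContDiff ℝ ∞ χ) (hc : HasCompactSupport χ)
    (hI : ∀ z, χ (I * z) = χ z) (hR : tsupport χ ⊆ closedBall 0 1) {P : Finset (ℤ × ℤ)}
    {l : Filter ι} {n : ι → ℕ} (hn : Tendsto n l atTop) {u : ι → ℤ × ℤ → ℝ}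
    {X Y : Set ℝ} (hX : X.Finite) (hY : Y.Finite) (h1 : Core χ P l n u X)
    (h2 : Core χ (Rt.rP P) l n (fun i v => u i (Rt.rvi v)) Y) :
    ∃ S : Set ℂ, S.Finite ∧ ∀ z0 ∈ Om P \ S, ∃ ρ > 0, ∀ ε > 0, ∃ r0 > 0, ∀ z ∈ ball z0 ρ,
      ∀ r : ℝ, 0 < r → r < r0 →
        ∀ᶠ i in l, |∑' v : ℤ × ℤ, χ ((DC.mesh (n i) v - z) / r) * DC.lapZ (u i) v| ≤ ε * r ^ 2 := by
  refine ⟨{w : ℂ | w.re ∈ Y ∧ w.im ∈ X}, ?_, ?_⟩
  · have h3 : ({w : ℂ | w.re ∈ Y ∧ w.im ∈ X}) ⊆ (fun p : ℝ × ℝ => (⟨p.1, p.2⟩ : ℂ)) '' (Y ×ˢ X) := by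
      rintro w ⟨h3, h4⟩
      exact ⟨(w.re, w.im), ⟨h3, h4⟩, rfl⟩
    exact ((hY.prod hX).image _).subset h3
  · rintro z0 ⟨hz0, hS⟩
    by_cases hzX : z0.im ∈ X
    · have hzY : z0.re ∉ Y := fun h => hS ⟨h, hzX⟩
      have hz1 : I * z0 ∈ Om (Rt.rP P) := Rt.mem_Om.mpr hz0
      have hz2 : (I * z0).im ∉ Y := by simpa using hzY
      exact (nul_of_core hχ hc hR hn h2 hz1 hz2).rot hI
    · exact nul_of_core hχ hc hR hn h1 hz0 hzX

/-- the standard profile -/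
def prof (z : ℂ) : ℝ := Real.smoothTransition (1 - Complex.normSq z)

theorem prof_smooth : ContDiff ℝ ∞ prof := by
  have h1 : ContDiff ℝ ∞ (fun z : ℂ => 1 - Complex.normSq z) := by
    have h2 : (fun z : ℂ => 1 - Complex.normSq z) = fun z : ℂ => 1 - (Complex.reCLM z * Complex.reCLM z +
        Complex.imCLM z * Complex.imCLM z) := by
      funext z
      rw [Complex.normSq_apply]
      rfl
    rw [h2]
    have h3 : ContDiff ℝ ∞ (fun z : ℂ => Complex.reCLM z) := Complex.reCLM.contDiff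
    have h4 : ContDiff ℝ ∞ (fun z : ℂ => Complex.imCLM z) := Complex.imCLM.contDiff
    exact contDiff_const.sub ((h3.mul h3).add (h4.mul h4))
  exact Real.smoothTransition.contDiff.comp h1

theorem prof_eq_zero {z : ℂ} (h : 1 ≤ ‖z‖) : prof z = 0 := by
  unfold prof
  apply Real.smoothTransition.zero_of_nonpos
  rw [Complex.normSq_eq_norm_sq]
  nlinarith [norm_nonneg z]

theorem prof_tsupport : tsupport prof ⊆ closedBall 0 1 := by
  refine closure_minimal ?_ isClosed_closedBall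
  intro z hz
  rw [mem_closedBall, dist_zero_right]
  by_contra h
  push Not at h
  exact hz (prof_eq_zero h.le)

theorem prof_supp : HasCompactSupport prof :=
  (isCompact_closedBall (0 : ℂ) 1).of_isClosed_subset (isClosed_tsupport _) prof_tsupport

theorem prof_nonneg (z : ℂ) : 0 ≤ prof z := Real.smoothTransition.nonneg _

theorem prof_int : ∫ x, prof x ≠ 0 := by
  have h1 : 0 < ∫ x, prof x := by
    refine prof_smooth.continuous.integral_pos_of_hasCompactSupport_nonneg_nonzero prof_supp prof_nonneg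
      (x := 0) ?_
    unfold prof
    rw [map_zero, sub_zero, Real.smoothTransition.one]
    exact one_ne_zero
  exact h1.ne'

theorem prof_I (z : ℂ) : prof (I * z) = prof z := by
  unfold prof
  rw [Complex.normSq_mul, Complex.normSq_I, one_mul]

end

end Asm3

end Pool.Agent.SixB
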