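import Pool.Agent.Lib.SixB.S3Shift

/-!
# The abstract end of 3.5-3.7

Plane functionals `zE, zU, zD, zJJ, zEE, zJ` (limits of odd cylinders up to bounded factors), the
norm inequality, the inequality of the vertical reflection and `zJJ → 0` give `zJ 0 0 / zE → 0`.
-/

set_option autoImplicit false

namespace Pool.Agent.SixB

open Complex Filter Topology
open scoped Real ComplexConjugate InnerProductSpace

/-- The data of one finite odd cylinder: vectors `d, u`, a bounded insertion `J`, `a` rows between,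
matrix elements `tol`-close to `X0 * zJ x y` for the shifts in `P`. -/
structure CylData (N : ℕ) (B C tol L₀ : ℝ) (P : ℕ → ℕ → Prop) (zU zD : ℝ) (zJ : ℕ → ℕ → ℂ) where
  d : HN N
  u : HN N
  J : HN N →ₗ[ℂ] HN N
  J' : HN N →ₗ[ℂ] HN N
  a : ℕ
  X0 : ℝ
  X1 : ℝ
  X2 : ℝ
  adj : ∀ x y, ⟪J' x, y⟫_ℂ = ⟪x, J y⟫_ℂ
  bdd : ∀ x, ‖J x‖ ≤ B * ‖x‖
  haN : a ≤ N
  ha : L₀ ≤ a
  hX0 : 1 / 2 ≤ X0
  hX0' : X0 ≤ C
  hX1 : 1 / 2 ≤ X1
  hX1' : X1 ≤ C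
  hX2 : 1 / 2 ≤ X2
  hX2' : X2 ≤ C
  hd : ‖d‖ ^ 2 ≤ X1 * zD + tol
  hu : ‖u‖ ^ 2 ≤ X2 * zU + tol
  elt : ∀ x y : ℕ, P x y →
    ‖⟪(tL N (π / 6) ^ a) ((W2 N ^ x) d), J ((tL N (π / 6) ^ a) ((W2 N ^ y) u))⟫_ℂ -
      X0 * zJ x y‖ ≤ tol

/-- The shifts which are used: both zero, or both in the window. -/
def Shifts (X s L : ℝ) (x y : ℕ) : Prop :=
  (x = 0 ∧ y = 0) ∨ (X * L ≤ x ∧ (x : ℝ) ≤ (X + s) * L ∧ X * L ≤ y ∧ (y : ℝ) ≤ (X + s) * L)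

private theorem aux_norm {C E zU zD X1 X2 tol a b M : ℝ} (hC : 1 ≤ C) (hE : 0 < E)
    (hX1 : 1 / 2 ≤ X1) (hX1' : X1 ≤ C) (hX2 : 1 / 2 ≤ X2) (hX2' : X2 ≤ C) (htol : 0 < tol)
    (ht1 : tol ≤ 1) (hM : M = C * (|zD| + |zU|) + 1) (ht2 : tol ≤ E ^ 2 / (M + 1))
    (hUD : zU * zD ≤ C * E ^ 2) (had : a ^ 2 ≤ X1 * zD + tol)
    (hbu : b ^ 2 ≤ X2 * zU + tol) : a * b ≤ (C ^ 3 + 1) * E := by
  have hC0 : 0 < C := by linarith
  have hM1 : 1 ≤ M := by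
    have : 0 ≤ C * (|zD| + |zU|) := by positivity
    linarith
  have e1 : a ^ 2 * b ^ 2 ≤ (X1 * zD + tol) * (X2 * zU + tol) :=
    mul_le_mul had hbu (sq_nonneg _) (le_trans (sq_nonneg _) had)
  have e2 : X1 * zD * (X2 * zU) ≤ C ^ 2 * (C * E ^ 2) := by
    have e3 : X1 * zD * (X2 * zU) = (X1 * X2) * (zU * zD) := by ring
    rw [e3]
    have e4 : X1 * X2 ≤ C ^ 2 := by
      rw [pow_two]
      exact mul_le_mul hX1' hX2' (by linarith) (by linarith)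
    have e5 : 0 ≤ X1 * X2 := mul_nonneg (by linarith) (by linarith)
    calc (X1 * X2) * (zU * zD) ≤ (X1 * X2) * (C * E ^ 2) := mul_le_mul_of_nonneg_left hUD e5
      _ ≤ C ^ 2 * (C * E ^ 2) := mul_le_mul_of_nonneg_right e4 (by positivity)
  have e6 : tol * (X1 * zD + X2 * zU + tol) ≤ E ^ 2 := by
    have e7 : X1 * zD + X2 * zU + tol ≤ M := by
      have f1 : X1 * zD ≤ C * |zD| := by
        calc X1 * zD ≤ X1 * |zD| := mul_le_mul_of_nonneg_left (le_abs_self _) (by linarith)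
          _ ≤ C * |zD| := mul_le_mul_of_nonneg_right hX1' (abs_nonneg _)
      have f2 : X2 * zU ≤ C * |zU| := by
        calc X2 * zU ≤ X2 * |zU| := mul_le_mul_of_nonneg_left (le_abs_self _) (by linarith)
          _ ≤ C * |zU| := mul_le_mul_of_nonneg_right hX2' (abs_nonneg _)
      rw [hM, mul_add]
      linarith
    calc tol * (X1 * zD + X2 * zU + tol) ≤ tol * M := mul_le_mul_of_nonneg_left e7 htol.le
      _ ≤ (E ^ 2 / (M + 1)) * (M + 1) :=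
          mul_le_mul ht2 (by linarith) (by linarith) (by positivity)
      _ = E ^ 2 := by field_simp
  have e8 : (a * b) ^ 2 ≤ (C ^ 3 + 1) * E ^ 2 := by
    rw [mul_pow]
    calc a ^ 2 * b ^ 2 ≤ (X1 * zD + tol) * (X2 * zU + tol) := e1
      _ = X1 * zD * (X2 * zU) + tol * (X1 * zD + X2 * zU + tol) := by ring
      _ ≤ C ^ 2 * (C * E ^ 2) + E ^ 2 := add_le_add e2 e6
      _ = (C ^ 3 + 1) * E ^ 2 := by ring
  have e9 : (a * b) ^ 2 ≤ ((C ^ 3 + 1) * E) ^ 2 := by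
    refine e8.trans ?_
    rw [mul_pow]
    apply mul_le_mul_of_nonneg_right _ (by positivity)
    have : 0 ≤ C ^ 3 := by positivity
    rw [pow_two]
    calc C ^ 3 + 1 = (C ^ 3 + 1) * 1 := (mul_one _).symm
      _ ≤ (C ^ 3 + 1) * (C ^ 3 + 1) := mul_le_mul_of_nonneg_left (by linarith) (by linarith)
  exact (abs_le_of_sq_le_sq' e9 (by positivity)).2

private theorem aux_win {C E δ zJJ X0 r EE : ℝ} (hC : 1 ≤ C) (hE : 0 < E) (hδ : 0 < δ)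
    (hX0 : 1 / 2 ≤ X0) (hX0' : X0 ≤ C) (hJJ : 0 ≤ zJJ) (hsm : C ^ 2 * (C * zJJ) < (δ / 2) ^ 2)
    (hr : r ^ 2 ≤ EE * zJJ) (hEE : EE ≤ C * E ^ 2) : X0 * r ≤ δ / 2 * E := by
  have e4 : r ^ 2 ≤ C * E ^ 2 * zJJ := hr.trans (mul_le_mul_of_nonneg_right hEE hJJ)
  have e0 : X0 ^ 2 ≤ C ^ 2 := pow_le_pow_left₀ (by linarith) hX0' 2
  have e5 : (X0 * r) ^ 2 ≤ (δ / 2 * E) ^ 2 := by
    calc (X0 * r) ^ 2 = X0 ^ 2 * r ^ 2 := by ring
      _ ≤ C ^ 2 * (C * E ^ 2 * zJJ) := mul_le_mul e0 e4 (by positivity) (by positivity)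
      _ = (C ^ 2 * (C * zJJ)) * E ^ 2 := by ring
      _ ≤ (δ / 2) ^ 2 * E ^ 2 := mul_le_mul_of_nonneg_right hsm.le (by positivity)
      _ = (δ / 2 * E) ^ 2 := by ring
  exact (abs_le_of_sq_le_sq' e5 (by positivity)).2

theorem slab_null {c C₀ : ℝ} (hw : WeakCone c C₀) (hc : 0 < c) {h s C B : ℝ} (hh : 0 < h)
    (hs : 0 < s) (hC : 1 ≤ C) (hB : 0 < B) {X : ℝ} (hX : 0 ≤ X) {ι : Type*} {l : Filter ι}
    {L : ι → ℝ} (hL : Tendsto L l atTop) {zE zU zD zJJ : ι → ℝ} {zEE : ι → ℕ → ℕ → ℝ}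
    {zJ : ι → ℕ → ℕ → ℂ} (hE : ∀ᶠ i in l, 0 < zE i) (hJJ0 : ∀ᶠ i in l, 0 ≤ zJJ i)
    (hJJ : Tendsto zJJ l (𝓝 0))
    (hcs : ∀ᶠ i in l, ∀ x y : ℕ, X * L i ≤ x → (x : ℝ) ≤ (X + s) * L i → X * L i ≤ y →
      (y : ℝ) ≤ (X + s) * L i → ‖zJ i x y‖ ^ 2 ≤ zEE i x y * zJJ i)
    (hEE : ∀ᶠ i in l, ∀ x y : ℕ, X * L i ≤ x → (x : ℝ) ≤ (X + s) * L i → X * L i ≤ y →
      (y : ℝ) ≤ (X + s) * L i → zEE i x y ≤ C * zE i ^ 2)
    (hUD : ∀ᶠ i in l, zU i * zD i ≤ C * zE i ^ 2)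
    (hfin : ∀ᶠ i in l, ∀ tol : ℝ, 0 < tol → ∃ N : ℕ, 1 ≤ N ∧
      Nonempty (CylData N B C tol (h * L i) (Shifts X s (L i)) (zU i) (zD i) (zJ i))) :
    Tendsto (fun i => zJ i 0 0 / zE i) l (𝓝 0) := by
  rw [Metric.tendsto_nhds]
  intro ε hε
  set C' : ℝ := C ^ 3 + 1 with hC'
  have hC0 : 0 < C := by linarith
  have hC'0 : 0 < C' := by positivity
  obtain ⟨δ, hδ, n₀, hn₀, P⟩ := cyl_small hw hc hh hs (C := C') hC'0 hB hX (ε := ε / 8)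
    (by positivity)
  have hsmall : ∀ᶠ i in l, C ^ 2 * (C * zJJ i) < (δ / 2) ^ 2 := by
    have h1 : Tendsto (fun i => C ^ 2 * (C * zJJ i)) l (𝓝 (C ^ 2 * (C * 0))) :=
      (hJJ.const_mul C).const_mul (C ^ 2)
    rw [mul_zero, mul_zero] at h1
    exact h1.eventually (gt_mem_nhds (by positivity))
  filter_upwards [hL.eventually_ge_atTop n₀, hE, hJJ0, hcs, hEE, hUD, hfin, hsmall]
    with i hLi hEi hJJi hcsi hEEi hUDi hfini hsm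
  -- choose `tol`
  have hLpos : 0 < L i := lt_of_lt_of_le hn₀ hLi
  set M : ℝ := C * (|zD i| + |zU i|) + 1 with hM
  have hM1 : 1 ≤ M := by
    have : 0 ≤ C * (|zD i| + |zU i|) := by positivity
    linarith
  set tol : ℝ := min (min 1 (zE i ^ 2 / (M + 1))) (min (δ / 2 * zE i) (ε / 8 * zE i)) with htol
  have htol0 : 0 < tol := by
    apply lt_min
    · apply lt_min one_pos
      positivity
    · apply lt_min <;> positivity
  have ht1 : tol ≤ 1 := (min_le_left _ _).trans (min_le_left _ _)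
  have ht2 : tol ≤ zE i ^ 2 / (M + 1) := (min_le_left _ _).trans (min_le_right _ _)
  have ht3 : tol ≤ δ / 2 * zE i := (min_le_right _ _).trans (min_le_left _ _)
  have ht4 : tol ≤ ε / 8 * zE i := (min_le_right _ _).trans (min_le_right _ _)
  obtain ⟨N, hN, ⟨D⟩⟩ := hfini tol htol0
  -- the norm inequality
  have hnorm : ‖D.d‖ * ‖D.u‖ ≤ C' * zE i :=
    aux_norm hC hEi D.hX1 D.hX1' D.hX2 D.hX2' htol0 ht1 hM ht2 hUDi D.hd D.hu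
  -- the window
  have hwin : ∀ x y : ℕ, X * L i ≤ x → (x : ℝ) ≤ (X + s) * L i → X * L i ≤ y →
      (y : ℝ) ≤ (X + s) * L i →
      ‖⟪(tL N (π / 6) ^ D.a) ((W2 N ^ x) D.d),
        D.J ((tL N (π / 6) ^ D.a) ((W2 N ^ y) D.u))⟫_ℂ‖ ≤ δ * zE i := by
    intro x y h1 h2 h3 h4
    have e1 := D.elt x y (Or.inr ⟨h1, h2, h3, h4⟩)
    have e2 := hcsi x y h1 h2 h3 h4
    have e3 := hEEi x y h1 h2 h3 h4
    have hX0 := D.hX0
    have e6 : D.X0 * ‖zJ i x y‖ ≤ δ / 2 * zE i :=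
      aux_win hC hEi hδ hX0 D.hX0' hJJi hsm e2 e3
    have e7 : ‖(D.X0 : ℂ) * zJ i x y‖ = D.X0 * ‖zJ i x y‖ := by
      rw [norm_mul, Complex.norm_real, Real.norm_eq_abs, abs_of_nonneg (by linarith)]
    calc _ = ‖(⟪(tL N (π / 6) ^ D.a) ((W2 N ^ x) D.d),
          D.J ((tL N (π / 6) ^ D.a) ((W2 N ^ y) D.u))⟫_ℂ - D.X0 * zJ i x y) +
          D.X0 * zJ i x y‖ := by rw [sub_add_cancel]
      _ ≤ tol + ‖(D.X0 : ℂ) * zJ i x y‖ := (norm_add_le _ _).trans (by linarith)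
      _ ≤ δ * zE i := by rw [e7]; linarith
  have key := P (L i) hLi N D.a hN D.haN D.ha D.J D.J' D.adj D.bdd D.d D.u (zE i) hEi hnorm hwin
  have e0 := D.elt 0 0 (Or.inl ⟨rfl, rfl⟩)
  rw [pow_zero, Module.End.one_apply, Module.End.one_apply] at e0
  have hX0 := D.hX0
  have e1 : ‖(D.X0 : ℂ) * zJ i 0 0‖ ≤ ε / 4 * zE i := by
    calc ‖(D.X0 : ℂ) * zJ i 0 0‖ = ‖⟪(tL N (π / 6) ^ D.a) D.d,
          D.J ((tL N (π / 6) ^ D.a) D.u)⟫_ℂ - (⟪(tL N (π / 6) ^ D.a) D.d,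
          D.J ((tL N (π / 6) ^ D.a) D.u)⟫_ℂ - D.X0 * zJ i 0 0)‖ := by rw [sub_sub_cancel]
      _ ≤ _ := norm_sub_le _ _
      _ ≤ ε / 8 * zE i + ε / 8 * zE i := add_le_add key (e0.trans ht4)
      _ = ε / 4 * zE i := by ring
  rw [norm_mul, Complex.norm_real, Real.norm_eq_abs, abs_of_nonneg (by linarith)] at e1
  rw [dist_zero_right, norm_div, Complex.norm_real, Real.norm_eq_abs, abs_of_pos hEi,
    div_lt_iff₀ hEi]
  have e2 : ‖zJ i 0 0‖ / 2 ≤ D.X0 * ‖zJ i 0 0‖ := by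
    have := mul_le_mul_of_nonneg_right hX0 (norm_nonneg (zJ i 0 0))
    linarith
  have : 0 < ε * zE i := by positivity
  nlinarith

end Pool.Agent.SixB
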