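import Pool.Agent.Lib.SixB.S3Asm
import Pool.Agent.Lib.SixB.S3Slab
import Pool.Agent.Lib.SixB.S1WeakFinal
import Pool.Agent.Lib.SixB.CAEnvL

/-!
# 6BD step 3: from the numbers of the slabs to `Core`

* `Run χ l n u z r err`: one family of slabs (centre `z`, radius `r`): all the premises of `slab_null` (the functional
  with the sign of a side inserted is `zs i x y a`, shifts `x`, `y`), the height `V` of the opened domain, the comparison of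
  `V` with `u` up to `err`.
* `Run.null`: the lattice Laplacian of `V` is null against the profile (premise (a) of `Core`).
* `core_of_run`: families of slabs with the error `C r ^ (2 + c)` around every point give `Core`.
-/

set_option autoImplicit false

namespace Pool.Agent.SixB.Asm3

open Complex Filter Topology Metric
open Pool.Agent.Perc Pool.Agent.Perc.Q
open scoped Real

noncomputable section

variable {ι : Type}

/-- the window of the shifts -/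
def Win (T s L : ℝ) (x y : ℕ) : Prop :=
  T * L ≤ x ∧ (x : ℝ) ≤ (T + s) * L ∧ T * L ≤ y ∧ (y : ℝ) ≤ (T + s) * L

/-- the numbers of one family of slabs (centre `z`, radius `r`) -/
structure Run (χ : ℂ → ℝ) (l : Filter ι) (n : ι → ℕ) (u : ι → ℤ × ℤ → ℝ) (z : ℂ) (r err : ℝ) where
  /-- height of the opened domain -/
  V : ι → ℤ × ℤ → ℝ
  /-- rectangle of the insertion: columns `X₀ .. X₁`, rows `Y₀ .. Y₁` -/
  X₀ : ι → ℤ
  X₁ : ι → ℤ
  Y₀ : ι → ℤ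
  Y₁ : ι → ℤ
  /-- half width of the slab in units of `L`, length of the window, constants, start of the window -/
  h : ℝ
  s : ℝ
  C : ℝ
  B : ℝ
  T : ℝ
  L : ι → ℝ
  zE : ι → ℝ
  zU : ι → ℝ
  zD : ι → ℝ
  zJJ : ι → ℝ
  zEE : ι → ℕ → ℕ → ℝ
  /-- value with the sign of a side inserted -/
  zs : ι → ℕ → ℕ → (ℤ × ℤ) × (ℤ × ℤ) → ℂ
  hh : 0 < h
  hs : 0 < s
  hC : 1 ≤ C
  hB : 0 < B
  hT : 0 ≤ T
  hL : Tendsto L l atTop
  /-- LOWER for `E` -/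
  hE : ∀ᶠ i in l, 0 < zE i
  hJJ0 : ∀ᶠ i in l, 0 ≤ zJJ i
  /-- two point function of the insertion -/
  hJJ : Tendsto zJJ l (𝓝 0)
  /-- vertical reflection -/
  hcs : ∀ᶠ i in l, ∀ x y : ℕ, Win T s (L i) x y →
    ‖Ins.zJ (X₀ i) (X₁ i) (Y₀ i) (Y₁ i) (fun v => χ ((DC.mesh (n i) v - z) / r)) (zs i x y)‖ ^ 2 ≤
      zEE i x y * zJJ i
  hEE : ∀ᶠ i in l, ∀ x y : ℕ, Win T s (L i) x y → zEE i x y ≤ C * zE i ^ 2
  /-- norm inequality -/
  hUD : ∀ᶠ i in l, zU i * zD i ≤ C * zE i ^ 2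
  /-- the finite odd cylinders -/
  hfin : ∀ᶠ i in l, ∀ tol : ℝ, 0 < tol → ∃ N : ℕ, 1 ≤ N ∧
    Nonempty (CylData N B C tol (h * L i) (Shifts T s (L i)) (zU i) (zD i)
      (fun x y => Ins.zJ (X₀ i) (X₁ i) (Y₀ i) (Y₁ i) (fun v => χ ((DC.mesh (n i) v - z) / r)) (zs i x y)))
  /-- the profile is supported in the rectangle -/
  inside : ∀ᶠ i in l, Op.Inside (X₀ i) (X₁ i) (Y₀ i) (Y₁ i) (fun v => χ ((DC.mesh (n i) v - z) / r))
  /-- `V` is the mean height -/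
  pot : ∀ᶠ i in l, ∀ a ∈ dE ZQ (RF (X₀ i) (X₁ i) (Y₀ i) (Y₁ i)),
    zs i 0 0 a / (zE i : ℂ) = ((V i a.1 - V i a.2 : ℝ) : ℂ) * I
  /-- comparison with the height of `D` -/
  cmp : ∀ᶠ i in l, ∃ a : ℝ, ∀ v, dist (DC.mesh (n i) v) z ≤ 2 * r → |u i v - V i v - a| ≤ err

/-- **Premise (a) of `Core`.** -/
theorem Run.null {χ : ℂ → ℝ} {l : Filter ι} {n : ι → ℕ} {u : ι → ℤ × ℤ → ℝ} {z : ℂ} {r err : ℝ}
    (R : Run χ l n u z r err) :
    Tendsto (fun i => ∑' v : ℤ × ℤ, χ ((DC.mesh (n i) v - z) / r) * DC.lapZ (R.V i) v) l (𝓝 0) := by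
  obtain ⟨c, C₀, hc, -, hw⟩ := weakCone
  have h0 := slab_null hw hc R.hh R.hs R.hC R.hB R.hT R.hL R.hE R.hJJ0 R.hJJ
    (zJ := fun i x y => Ins.zJ (R.X₀ i) (R.X₁ i) (R.Y₀ i) (R.Y₁ i)
      (fun v => χ ((DC.mesh (n i) v - z) / r)) (R.zs i x y)) (zEE := R.zEE)
    (R.hcs.mono fun i hi x y h1 h2 h3 h4 => hi x y ⟨h1, h2, h3, h4⟩)
    (R.hEE.mono fun i hi x y h1 h2 h3 h4 => hi x y ⟨h1, h2, h3, h4⟩) R.hUD R.hfin
  exact Ins.lap_of_null (f := fun i v => χ ((DC.mesh (n i) v - z) / r)) (zs := fun i => R.zs i 0 0)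
    (z := fun i => (R.zE i : ℂ)) R.inside R.pot h0

/-- **Slabs around every point give `Core`.** -/
theorem core_of_run {χ : ℂ → ℝ} {P : Finset (ℤ × ℤ)} {l : Filter ι} {n : ι → ℕ} {u : ι → ℤ × ℤ → ℝ}
    {X : Set ℝ} (h : ∀ z0 ∈ Om P, z0.im ∉ X → ∃ ρ > 0, ∃ r0 > 0, ∃ C c : ℝ, 0 < c ∧ ∀ z ∈ ball z0 ρ,
      ∀ r : ℝ, 0 < r → r < r0 → Nonempty (Run χ l n u z r (C * r ^ (2 + c)))) : Core χ P l n u X := by
  intro z0 hz0 hX
  obtain ⟨ρ, hρ, r0, hr0, C, c, hc, h1⟩ := h z0 hz0 hX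
  refine ⟨ρ, hρ, r0, hr0, C, c, hc, fun z hz r hr hr' => ?_⟩
  obtain ⟨R⟩ := h1 z hz r hr hr'
  exact ⟨R.V, R.null, R.cmp⟩

end

end Pool.Agent.SixB.Asm3
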