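import Pool.Agent.Lib.SixB.S3AsmGeo
import Pool.Agent.Lib.SixB.S3CutD

/-!
# 6BD step 3: the exceptional heights and the slabs of a polygon (row R24, part A; helper53)

* `MFam.far`: off a finite set `X` of heights there is no mark and no corner of the refined contour at distance
  `≤ κ n` of the height `n y`, for large `i`.
* `slab_exists`: the row of faces through an interior point contains a slab of height one.
* `slabIn_rf`: slabs of the refinement.
-/

set_option autoImplicit false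
set_option linter.unusedSectionVars false

namespace Pool.Agent.SixB

open Pool.Agent.Perc.Q Pool.Agent.Perc Filter Topology

namespace Asm3

noncomputable section

variable {P : Finset (ℤ × ℤ)} {L : ℕ} {g : ℤ → ℤ × ℤ} {n : ℕ}

/-- points outside a finite set have a positive distance from it -/
theorem exists_gap {X : Set ℝ} (hX : X.Finite) {y : ℝ} (hy : y ∉ X) :
    ∃ δ : ℝ, 0 < δ ∧ ∀ x ∈ X, δ ≤ |x - y| := by
  have h1 : IsClosed X := hX.isClosed
  have h2 : y ∈ Xᶜ := hy
  obtain ⟨δ, hδ, hb⟩ := Metric.isOpen_iff.mp h1.isOpen_compl y h2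
  refine ⟨δ, hδ, fun x hx => ?_⟩
  by_contra hc
  push Not at hc
  exact hb (by rw [Metric.mem_ball, Real.dist_eq]; exact hc) hx

/-- the exceptional heights of a polygon with marks at `t`: heights of faces, of contour vertices and of marks -/
def bad (P : Finset (ℤ × ℤ)) (L : ℕ) (g : ℤ → ℤ × ℤ) {m : ℕ} (t : Fin m → ℝ) : Set ℝ :=
  ((fun f : ℤ × ℤ => (f.2 : ℝ)) '' (P : Set (ℤ × ℤ))) ∪
    ((fun q : ℕ => ((g q).2 : ℝ)) '' (Finset.range L : Set ℕ)) ∪ Set.range fun a => (gam g (t a)).im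

theorem bad_finite {m : ℕ} (t : Fin m → ℝ) : (bad P L g t).Finite :=
  (((Finset.finite_toSet P).image _).union ((Finset.finite_toSet _).image _)).union
    (Set.finite_range _)

theorem mem_bad_vert {m : ℕ} (t : Fin m → ℝ) (hg : Cont P L g) (q : ℤ) : ((g q).2 : ℝ) ∈ bad P L g t := by
  have hL : (0 : ℤ) < L := by exact_mod_cast hg.pos
  left
  right
  refine ⟨(q % L).toNat, ?_, ?_⟩
  · have h1 := Int.emod_nonneg q hL.ne'
    have h2 := Int.emod_lt_of_pos q hL
    simp only [Finset.coe_range, Set.mem_Iio]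
    omega
  · have h1 := Int.emod_nonneg q hL.ne'
    have h3 : g q = g ((q % L).toNat : ℤ) := by
      rw [Int.toNat_of_nonneg h1]
      have := hg.per_zmul (q % L) (q / L)
      rw [← this]
      congr 1
      have := Int.emod_add_mul_ediv q L
      linarith
    simp only
    rw [← h3]

/-- **no mark and no corner near the height `y`** -/
theorem MFam.far {ι : Type} {l : Filter ι} {n : ι → ℕ} {j : ι → ℤ → ℝ} (hg : Cont P L g)
    (hn : Tendsto n l atTop) (h : MFam L g l n j) :
    ∃ X : Set ℝ, X.Finite ∧ (∀ z ∈ Om P, z.im ∉ X → ((⌊z.im⌋ : ℤ) : ℝ) < z.im) ∧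
      ∀ y : ℝ, y ∉ X → ∃ κ : ℝ, 0 < κ ∧ ∀ᶠ i in l, ∀ k : ℤ,
        |((gr (n i) g k).2 : ℝ) - n i * y| ≤ κ * n i → j i k = 0 ∧ crs (gr (n i) g) k = 0 := by
  obtain ⟨m, t, b, hb, hj⟩ := MFam.pos hn h
  refine ⟨bad P L g t, bad_finite t, fun z hz hX => ?_, fun y hy => ?_⟩
  · refine lt_of_le_of_ne (Int.floor_le _) fun he => hX ?_
    have h1 := CARf.mem_Om_iff.mp hz _ (CARf.mem_csq_floor z)
    left
    left
    exact ⟨_, h1, he⟩
  · obtain ⟨δ, hδ, hX⟩ := exists_gap (bad_finite t) hy
    refine ⟨δ / 3, by positivity, ?_⟩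
    have h1 : ∀ᶠ i in l, ∀ a, |(b a i : ℝ) / n i - t a| < δ / 3 := by
      rw [eventually_all]
      intro a
      have := (Metric.tendsto_nhds.mp (hb a)) (δ / 3) (by positivity)
      simpa only [Real.dist_eq] using this
    filter_upwards [h1, hn.eventually_gt_atTop 0] with i h2 hni k hk
    have hnR : (0 : ℝ) < n i := by exact_mod_cast hni
    have hdiv : |((gr (n i) g k).2 : ℝ) / n i - y| ≤ δ / 3 := by
      have e : ((gr (n i) g k).2 : ℝ) / n i - y = (((gr (n i) g k).2 : ℝ) - n i * y) / n i := by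
        field_simp
      rw [e, abs_div, abs_of_pos hnR, div_le_iff₀ hnR]
      exact hk
    constructor
    · by_contra hc
      obtain ⟨a, ha⟩ := hj i k hc
      have h3 : gr (n i) g k = gr (n i) g (b a i) := by
        obtain ⟨c, hc⟩ := ha
        have h4 := (CARf.cont_rf hg hni).per_zmul (b a i) c
        rw [← h4]
        congr 1
        linarith
      have h5 := CARf.gam_div g hni (b a i)
      have h6 := CARf.gam_lip hg (t a) ((b a i : ℝ) / n i)
      have h7 : |(gam g ((b a i : ℝ) / n i)).im - (gam g (t a)).im| ≤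
          ‖gam g ((b a i : ℝ) / n i) - gam g (t a)‖ := by
        rw [← Complex.sub_im]
        exact Complex.abs_im_le_norm _
      rw [h5] at h7
      simp only at h7
      rw [← h5] at h7
      have h8 := h2 a
      have h9 := hX _ (Or.inr ⟨a, rfl⟩ : (gam g (t a)).im ∈ bad P L g t)
      rw [h3] at hdiv
      rw [abs_le] at hdiv h7
      rw [abs_lt] at h8
      have h10 := h6.trans (abs_lt.mpr h8).le
      rcases le_abs.mp h9 with h11 | h11 <;> linarith
    · rcases crs_gr hni (g := g) k with h3 | ⟨q, rfl⟩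
      · exact h3
      exfalso
      have e0 := CARf.gr_eq' g hni (k := n i * q) (q := q) (r := 0) (by ring) le_rfl (by positivity)
      rw [e0] at hdiv
      simp only [zero_mul, add_zero] at hdiv
      push_cast at hdiv
      rw [mul_div_cancel_left₀ _ hnR.ne'] at hdiv
      have h9 := hX _ (mem_bad_vert t hg q)
      linarith

/-- the row of faces through a face of `P` is bounded on both sides -/
theorem exists_right {y x : ℤ} (h : (x, y) ∈ P) : ∃ x₂, x < x₂ ∧ (x₂, y) ∉ P ∧
    ∀ u, x ≤ u → u < x₂ → (u, y) ∈ P := by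
  obtain ⟨N, hN⟩ : ∃ N : ℕ, (x + N, y) ∉ P := by
    by_contra hc
    push Not at hc
    have : Set.Infinite ((fun N : ℕ => (x + N, y)) '' Set.univ) := by
      refine Set.infinite_univ.image ?_
      intro a _ b _ hab
      simp only [Prod.mk.injEq, add_right_inj, Nat.cast_inj, and_true] at hab
      exact hab
    refine this ((Finset.finite_toSet P).subset ?_)
    rintro _ ⟨N, _, rfl⟩
    exact hc N
  classical
  have hex : ∃ N : ℕ, (x + N, y) ∉ P := ⟨N, hN⟩
  refine ⟨x + Nat.find hex, ?_, Nat.find_spec hex, fun u hu hu' => ?_⟩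
  · have : Nat.find hex ≠ 0 := by
      intro h0
      have := Nat.find_spec hex
      rw [h0] at this
      simp at this
      exact this h
    omega
  · have h1 := Nat.find_min hex (m := (u - x).toNat) (by omega)
    rw [not_not, Int.toNat_of_nonneg (by omega)] at h1
    simpa using h1

theorem exists_left {y x : ℤ} (h : (x, y) ∈ P) : ∃ x₁, x₁ ≤ x ∧ (x₁ - 1, y) ∉ P ∧
    ∀ u, x₁ ≤ u → u ≤ x → (u, y) ∈ P := by
  obtain ⟨N, hN⟩ : ∃ N : ℕ, (x - N, y) ∉ P := by
    by_contra hc
    push Not at hc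
    have : Set.Infinite ((fun N : ℕ => (x - N, y)) '' Set.univ) := by
      refine Set.infinite_univ.image ?_
      intro a _ b _ hab
      simp only [Prod.mk.injEq, sub_right_inj, Nat.cast_inj, and_true] at hab
      exact hab
    refine this ((Finset.finite_toSet P).subset ?_)
    rintro _ ⟨N, _, rfl⟩
    exact hc N
  classical
  have hex : ∃ N : ℕ, (x - N, y) ∉ P := ⟨N, hN⟩
  have h0 : Nat.find hex ≠ 0 := by
    intro h0
    have := Nat.find_spec hex
    rw [h0] at this
    simp at this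
    exact this h
  refine ⟨x - Nat.find hex + 1, by omega, ?_, fun u hu hu' => ?_⟩
  · rw [add_sub_cancel_right]
    exact Nat.find_spec hex
  · have h1 := Nat.find_min hex (m := (x - u).toNat) (by omega)
    rw [not_not, Int.toNat_of_nonneg (by omega)] at h1
    simpa using h1

/-- **The slab through an interior point.** -/
theorem slab_exists {z : ℂ} (hz : z ∈ Om P) :
    ∃ X₁ X₂ : ℤ, (X₁ : ℝ) < z.re ∧ z.re < X₂ ∧
      SlabIn (P : Set (ℤ × ℤ)) X₁ X₂ ⌊z.im⌋ (⌊z.im⌋ + 1) := by
  have h0 : (⌊z.re⌋, ⌊z.im⌋) ∈ P := CARf.mem_Om_iff.mp hz _ (CARf.mem_csq_floor z)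
  obtain ⟨X₂, a1, a2, a3⟩ := exists_right h0
  obtain ⟨X₁, b1, b2, b3⟩ := exists_left h0
  refine ⟨X₁, X₂, ?_, ?_, ⟨by omega, ?_, ?_, ?_⟩⟩
  · by_contra hc
    push Not at hc
    have h1 : (⌊z.re⌋ : ℝ) ≤ z.re := Int.floor_le _
    have h2 : ((X₁ : ℤ) : ℝ) ≤ (⌊z.re⌋ : ℝ) := by exact_mod_cast b1
    have h3 : z.re = X₁ := le_antisymm hc (h2.trans h1)
    have h4 : z ∈ csq (X₁ - 1, ⌊z.im⌋) := by
      refine ⟨?_, ?_, Int.floor_le _, (Int.lt_floor_add_one _).le⟩
      · simp only
        push_cast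
        linarith
      · simp only
        push_cast
        linarith
    exact b2 (CARf.mem_Om_iff.mp hz _ h4)
  · have h1 := Int.lt_floor_add_one z.re
    have h2 : ((⌊z.re⌋ + 1 : ℤ) : ℝ) ≤ X₂ := by exact_mod_cast a1
    push_cast at h2
    linarith
  · intro x y h1 h2 h3 h4
    have hy' : y = ⌊z.im⌋ := by omega
    subst hy'
    rcases le_or_gt x ⌊z.re⌋ with h5 | h5
    · exact_mod_cast b3 x h1 h5
    · exact_mod_cast a3 x h5.le h2
  · intro y h3 h4
    have hy' : y = ⌊z.im⌋ := by omega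
    subst hy'
    exact_mod_cast b2
  · intro y h3 h4
    have hy' : y = ⌊z.im⌋ := by omega
    subst hy'
    exact_mod_cast a2

/-- **slabs of the refinement** -/
theorem slabIn_rf {X₁ X₂ Y y₁ y₂ : ℤ} (h : SlabIn (P : Set (ℤ × ℤ)) X₁ X₂ Y (Y + 1)) (hn : 0 < n)
    (h1 : n * Y ≤ y₁) (h2 : y₂ ≤ n * (Y + 1)) :
    SlabIn (rf n P : Set (ℤ × ℤ)) (n * X₁) (n * X₂) y₁ y₂ := by
  have hn' : (0 : ℤ) < n := by exact_mod_cast hn
  have hdiv : ∀ y : ℤ, y₁ ≤ y → y < y₂ → y / n = Y := by
    intro y hy1 hy2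
    rw [Int.ediv_eq_iff_of_pos hn']
    constructor
    · linarith
    · linarith
  refine ⟨Int.mul_lt_mul_of_pos_left h.hx hn', ?_, ?_, ?_⟩
  · intro x y hx1 hx2 hy1 hy2
    have h3 : X₁ ≤ x / n := by
      rw [Int.le_ediv_iff_mul_le hn']
      linarith
    have h4 : x / n < X₂ := by
      rw [Int.ediv_lt_iff_lt_mul hn']
      linarith
    have h5 := h.sub (x / n) Y h3 h4 le_rfl (by omega)
    have h6 : (x, y) ∈ rf n P := (CARf.mem_rf hn).mpr (by
      rw [hdiv y hy1 hy2]
      exact_mod_cast h5)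
    exact_mod_cast h6
  · intro y hy1 hy2 hc
    have h6 : (n * X₁ - 1, y) ∈ rf n P := by exact_mod_cast hc
    have h7 := (CARf.mem_rf hn).mp h6
    simp only at h7
    rw [hdiv y hy1 hy2] at h7
    have h8 : (n * X₁ - 1) / (n : ℤ) = X₁ - 1 := by
      rw [Int.ediv_eq_iff_of_pos hn']
      constructor <;> nlinarith
    rw [h8] at h7
    exact h.left Y le_rfl (by omega) (by exact_mod_cast h7)
  · intro y hy1 hy2 hc
    have h6 : (n * X₂, y) ∈ rf n P := by exact_mod_cast hc
    have h7 := (CARf.mem_rf hn).mp h6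
    simp only at h7
    rw [hdiv y hy1 hy2, Int.mul_ediv_cancel_left _ hn'.ne'] at h7
    exact h.right Y le_rfl (by omega) (by exact_mod_cast h7)

end

end Asm3

end Pool.Agent.SixB
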