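import Pool.Agent.Lib.SixB.S3AsmW
import Pool.Agent.Lib.SixB.S3AsmX

/-!
# 6BD step 3: the slabs of a polygon at a point (row R24; helper53)

* `Asm3.slab_ok`: off finitely many heights, every interior point `z` of the polygon has a slab `[X₁, X₂)` and `κ > 0`
  such that for large `i` all the slabs `Slb.mk (rf n P) ψ (n X₁) (n X₂) yc k a` with `|yc - n z.im| ≤ κ n`,
  `k ≤ κ n`, `100 a ≤ k` are admissible.
-/

set_option autoImplicit false
set_option linter.unusedSectionVars false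

namespace Pool.Agent.SixB

open Pool.Agent.Perc.Q Pool.Agent.Perc Filter Topology

namespace Asm3

noncomputable section

variable {P : Finset (ℤ × ℤ)} {L : ℕ} {g : ℤ → ℤ × ℤ}

/-- **The slabs of the families.** -/
theorem slab_ok {ι : Type} {l : Filter ι} {n : ι → ℕ} {j : ι → ℤ → ℝ} (hP : MPoly P) (hg : Cont P L g)
    (hn : Tendsto n l atTop) (h : MFam L g l n j) :
    ∃ X : Set ℝ, X.Finite ∧ ∀ z ∈ Om P, z.im ∉ X → ∃ (X₁ X₂ : ℤ) (κ : ℝ), 0 < κ ∧ κ ≤ 1 / 4 ∧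
      (X₁ : ℝ) + κ < z.re ∧ z.re < X₂ - κ ∧
      SlabIn (P : Set (ℤ × ℤ)) X₁ X₂ ⌊z.im⌋ (⌊z.im⌋ + 1) ∧
      ((⌊z.im⌋ : ℤ) : ℝ) + κ < z.im ∧ z.im < (⌊z.im⌋ : ℤ) + 1 - κ ∧
      ∀ᶠ i in l, ∀ ψ, PhC (rf (n i) P) (n i * L) (gr (n i) g) (j i) ψ → ∀ (yc : ℤ) (k a : ℕ),
        |(yc : ℝ) - n i * z.im| ≤ κ * n i → (k : ℝ) ≤ κ * n i → 0 < a → 100 * a ≤ k →
          (Slb.mk (rf (n i) P) ψ (n i * X₁) (n i * X₂) yc k a).Ok := by
  obtain ⟨X, hX, h1, h2⟩ := MFam.far hg hn h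
  refine ⟨X, hX, fun z hz hzX => ?_⟩
  have h3 := h1 z hz hzX
  have h3' := Int.lt_floor_add_one z.im
  obtain ⟨κ', hκ', h4⟩ := h2 z.im hzX
  obtain ⟨X₁, X₂, a1, a2, hs⟩ := slab_exists hz
  set Y : ℤ := ⌊z.im⌋ with hY
  obtain ⟨κ, hκ0, hκ1, hκ2, hκ3, hκ4, hκ5, hκ6⟩ : ∃ κ : ℝ, 0 < κ ∧ κ ≤ 1 / 4 ∧ 2 * κ ≤ κ' ∧
      (X₁ : ℝ) + κ < z.re ∧ z.re < X₂ - κ ∧ (Y : ℝ) + 2 * κ ≤ z.im ∧ z.im + 2 * κ ≤ Y + 1 := by
    refine ⟨min (1 / 4) (min (κ' / 2) (min ((z.re - X₁) / 2) (min ((X₂ - z.re) / 2)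
      (min ((z.im - Y) / 2) ((Y + 1 - z.im) / 2))))), ?_, min_le_left _ _, ?_, ?_, ?_, ?_, ?_⟩
    · refine lt_min (by norm_num) (lt_min (by linarith) (lt_min (by linarith) (lt_min (by linarith)
        (lt_min (by linarith) (by linarith)))))
    · have : min (1 / 4) (min (κ' / 2) (min ((z.re - X₁) / 2) (min ((X₂ - z.re) / 2)
          (min ((z.im - Y) / 2) ((Y + 1 - z.im) / 2))))) ≤ κ' / 2 :=
        (min_le_right _ _).trans (min_le_left _ _)
      linarith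
    · have : min (1 / 4) (min (κ' / 2) (min ((z.re - X₁) / 2) (min ((X₂ - z.re) / 2)
          (min ((z.im - Y) / 2) ((Y + 1 - z.im) / 2))))) ≤ (z.re - X₁) / 2 :=
        (min_le_right _ _).trans ((min_le_right _ _).trans (min_le_left _ _))
      linarith
    · have : min (1 / 4) (min (κ' / 2) (min ((z.re - X₁) / 2) (min ((X₂ - z.re) / 2)
          (min ((z.im - Y) / 2) ((Y + 1 - z.im) / 2))))) ≤ (X₂ - z.re) / 2 :=
        (min_le_right _ _).trans ((min_le_right _ _).trans ((min_le_right _ _).trans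
          (min_le_left _ _)))
      linarith
    · have : min (1 / 4) (min (κ' / 2) (min ((z.re - X₁) / 2) (min ((X₂ - z.re) / 2)
          (min ((z.im - Y) / 2) ((Y + 1 - z.im) / 2))))) ≤ (z.im - Y) / 2 :=
        (min_le_right _ _).trans ((min_le_right _ _).trans ((min_le_right _ _).trans
          ((min_le_right _ _).trans (min_le_left _ _))))
      linarith
    · have : min (1 / 4) (min (κ' / 2) (min ((z.re - X₁) / 2) (min ((X₂ - z.re) / 2)
          (min ((z.im - Y) / 2) ((Y + 1 - z.im) / 2))))) ≤ (Y + 1 - z.im) / 2 :=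
        (min_le_right _ _).trans ((min_le_right _ _).trans ((min_le_right _ _).trans
          ((min_le_right _ _).trans (min_le_right _ _))))
      linarith
  refine ⟨X₁, X₂, κ, hκ0, hκ1, hκ3, hκ4, hs, by linarith, by linarith, ?_⟩
  filter_upwards [h4, hn.eventually_gt_atTop 0] with i hi hni ψ hψ yc k a hy hk ha hak
  have hnR : (0 : ℝ) < n i := by exact_mod_cast hni
  obtain ⟨y1, y2⟩ := abs_le.mp hy
  have w1 : (n i : ℤ) * Y ≤ yc - k := by
    have h5 : (n i : ℝ) * (Y + 2 * κ) ≤ n i * z.im := mul_le_mul_of_nonneg_left hκ5 hnR.le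
    have : (((n i : ℤ) * Y : ℤ) : ℝ) ≤ ((yc - k : ℤ) : ℝ) := by
      push_cast
      nlinarith
    exact_mod_cast this
  have w2 : yc + k ≤ (n i : ℤ) * (Y + 1) := by
    have h5 : (n i : ℝ) * (z.im + 2 * κ) ≤ n i * (Y + 1) := mul_le_mul_of_nonneg_left hκ6 hnR.le
    have : ((yc + k : ℤ) : ℝ) ≤ (((n i : ℤ) * (Y + 1) : ℤ) : ℝ) := by
      push_cast
      nlinarith
    exact_mod_cast this
  refine slb_ok (CARf.mpoly_rf hP hni) hψ (slabIn_rf hs hni le_rfl le_rfl) w1 w2 ha hak ?_ ?_ ?_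
  · have h5 : (k : ℝ) ≤ n i := by nlinarith
    have h6 : (k : ℤ) ≤ n i := by exact_mod_cast h5
    have h7 : X₁ + 1 ≤ X₂ := hs.hx
    nlinarith
  · intro v _ hv1 hv2
    refine (hi v ?_).1
    have h5 : ((yc - k : ℤ) : ℝ) ≤ ((gr (n i) g v).2 : ℝ) := by exact_mod_cast hv1
    have h6 : ((gr (n i) g v).2 : ℝ) ≤ ((yc + k : ℤ) : ℝ) := by exact_mod_cast hv2
    push_cast at h5 h6
    have h7 : 2 * κ * n i ≤ κ' * n i := mul_le_mul_of_nonneg_right hκ2 hnR.le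
    rw [abs_le]
    constructor <;> linarith
  · intro a b hab
    have hL : 0 < n i * L := Nat.mul_pos hni hg.pos
    exact MFam.range h i hL hab

end

end Asm3

end Pool.Agent.SixB
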