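import Pool.Agent.Lib.SixB.S3PlaneC
import Pool.Agent.Lib.SixB.CylDefs

/-!
# 6BD: relabelling of the corners of the faces, the vertical cylinder

* `relQ Q s`: the label `k` of the face `f` becomes the old label `k + s f`; `dE`, `Z6`, `Ini`, `Ter`, `NoLoop` do not
  change; strands: `flp s ω` (flip of the smoothings of the faces with `s f` odd);
* `CR N`: cylinder of circumference `N`, periodic in the second coordinate, standard labels; `crChart`,
  `crChart'`: charts to and from `CQ N` (rotation by 90 degrees);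
* `Z6_avc`: `Z6 = 2 ^ card F * avc Zs`.
-/

set_option autoImplicit false
set_option linter.unusedSectionVars false

namespace Pool.Agent.SixB.Rel

open Pool.Agent.Perc.Q Relation
open Pool.Agent.SixB hiding Zs_split

noncomputable section

variable {V Φ : Type}

/-- relabelled complex -/
def relQ (Q : QC V Φ) (s : Φ → ZMod 4) : QC V Φ where
  c f k := Q.c f (k + s f)
  inj := by
    intro f k f' k' h1 h2
    have e : k + 1 + s f = k + s f + 1 := by ring
    have e' : k' + 1 + s f' = k' + s f' + 1 := by ring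
    rw [e, e'] at h2
    obtain ⟨h3, h4⟩ := Q.inj h1 h2
    subst h3
    exact ⟨rfl, add_right_cancel h4⟩

theorem relQ_c (Q : QC V Φ) (s : Φ → ZMod 4) (f : Φ) (k : ZMod 4) :
    (relQ Q s).c f k = Q.c f (k + s f) := rfl

/-- flip of the smoothings of the faces with odd shift -/
def flp (s : Φ → ZMod 4) (ω : Φ → Bool) : Φ → Bool := fun f => xor (!ev (s f)) (ω f)

theorem flp_flp (s : Φ → ZMod 4) (ω : Φ → Bool) : flp s (flp s ω) = ω := by
  funext f
  unfold flp
  cases ev (s f) <;> cases ω f <;> rfl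

theorem ev_sh (k r : ZMod 4) : ev (k + r) = xor (!ev r) (ev k) := by
  revert k r
  decide

theorem flp_ev {s : Φ → ZMod 4} {ω : Φ → Bool} {f : Φ} {k : ZMod 4} :
    flp s ω f = ev (k + s f) ↔ ω f = ev k := by
  unfold flp
  rw [ev_sh]
  cases ev (s f) <;> cases ω f <;> cases ev k <;> decide

theorem flp_nev {s : Φ → ZMod 4} {ω : Φ → Bool} {f : Φ} {k : ZMod 4} :
    flp s ω f = (!ev (k + s f)) ↔ ω f = !ev k := by
  unfold flp
  rw [ev_sh]
  cases ev (s f) <;> cases ω f <;> cases ev k <;> decide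

theorem sd_relQ (Q : QC V Φ) (s : Φ → ZMod 4) (f : Φ) (k : ZMod 4) :
    sd (relQ Q s) f k = sd Q f (k + s f) := by
  unfold sd
  rw [relQ_c, relQ_c]
  have e : k + 1 + s f = k + s f + 1 := by ring
  rw [e]

theorem noLoop_relQ {Q : QC V Φ} (h : NoLoop Q) (s : Φ → ZMod 4) : NoLoop (relQ Q s) := by
  intro f k
  have e : k + 1 + s f = k + s f + 1 := by ring
  rw [relQ_c, relQ_c, e]
  exact h f _

theorem nx_relQ {Q : QC V Φ} {s : Φ → ZMod 4} {ω : Φ → Bool} {F : Set Φ} {a b : V × V} :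
    Nx (relQ Q s) ω F a b ↔ Nx Q (flp s ω) F a b := by
  constructor
  · rintro ⟨f, hf, k, h1, h2⟩
    refine ⟨f, hf, k + s f, ?_, ?_⟩
    · rw [h1, relQ_c, relQ_c]
      have e : k + 1 + s f = k + s f + 1 := by ring
      rw [e]
    · have e1 : k + 1 + s f = k + s f + 1 := by ring
      have e2 : k + 2 + s f = k + s f + 2 := by ring
      have e3 : k + 3 + s f = k + s f + 3 := by ring
      simp only [relQ_c, e1, e2, e3] at h2
      rcases h2 with ⟨h2, rfl⟩ | ⟨h2, rfl⟩
      · exact Or.inl ⟨flp_ev.mpr h2, rfl⟩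
      · exact Or.inr ⟨flp_nev.mpr h2, rfl⟩
  · rintro ⟨f, hf, j, h1, h2⟩
    obtain ⟨k, rfl⟩ : ∃ k, j = k + s f := ⟨j - s f, by ring⟩
    have e1 : k + s f + 1 = k + 1 + s f := by ring
    have e2 : k + s f + 2 = k + 2 + s f := by ring
    have e3 : k + s f + 3 = k + 3 + s f := by ring
    refine ⟨f, hf, k, ?_, ?_⟩
    · rw [h1, relQ_c, relQ_c, e1]
    · rw [e1, e2, e3] at h2
      rcases h2 with ⟨h2, rfl⟩ | ⟨h2, rfl⟩
      · exact Or.inl ⟨flp_ev.mp h2, rfl⟩
      · exact Or.inr ⟨flp_nev.mp h2, rfl⟩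

theorem nx_relQ' {Q : QC V Φ} {s : Φ → ZMod 4} {ω : Φ → Bool} {F : Set Φ} :
    Nx (relQ Q s) ω F = Nx Q (flp s ω) F := by
  funext a b
  exact propext nx_relQ

theorem ini_relQ {Q : QC V Φ} {s : Φ → ZMod 4} {F : Set Φ} {a : V × V} :
    Ini (relQ Q s) F a ↔ Ini Q F a := by
  unfold Ini
  constructor
  · intro h f hf k he
    have h1 := h f hf (k - s f)
    rw [relQ_c, relQ_c] at h1
    apply h1
    have e1 : k - s f + 1 + s f = k + 1 := by ring
    have e2 : k - s f + s f = k := by ring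
    rw [e1, e2]
    exact he
  · intro h f hf k he
    apply h f hf (k + s f)
    rw [he, relQ_c, relQ_c]
    have e1 : k + 1 + s f = k + s f + 1 := by ring
    rw [e1]

theorem ter_relQ {Q : QC V Φ} {s : Φ → ZMod 4} {F : Set Φ} {a : V × V} :
    Ter (relQ Q s) F a ↔ Ter Q F a := by
  unfold Ter
  constructor
  · intro h f hf k he
    have h1 := h f hf (k - s f)
    rw [relQ_c, relQ_c] at h1
    apply h1
    have e1 : k - s f + 1 + s f = k + 1 := by ring
    have e2 : k - s f + s f = k := by ring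
    rw [e1, e2]
    exact he
  · intro h f hf k he
    apply h f hf (k + s f)
    rw [he, relQ_c, relQ_c]
    have e1 : k + 1 + s f = k + s f + 1 := by ring
    rw [e1]

variable [DecidableEq V] [DecidableEq Φ]

variable {Q : QC V Φ} {s : Φ → ZMod 4} {F : Finset Φ} {ω : Φ → Bool} {a b : V × V}
  {P X : Finset (V × V)} {h : V × V → ℂ}

theorem dE_relQ (Q : QC V Φ) (s : Φ → ZMod 4) (F : Finset Φ) : dE (relQ Q s) F = dE Q F := by
  ext a
  rw [mem_dE, mem_dE]
  constructor
  · rintro ⟨f, hf, k, h⟩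
    refine ⟨f, hf, k + s f, ?_⟩
    rwa [sd_relQ] at h
  · rintro ⟨f, hf, k, h⟩
    refine ⟨f, hf, k - s f, ?_⟩
    rw [sd_relQ]
    have e : k - s f + s f = k := by ring
    rwa [e]

theorem bS_relQ (Q : QC V Φ) (s : Φ → ZMod 4) (F : Finset Φ) : bS (relQ Q s) F = bS Q F := by
  ext a
  rw [mem_bS, mem_bS, dE_relQ, ini_relQ]

theorem Arrs_relQ (Q : QC V Φ) (s : Φ → ZMod 4) (F : Finset Φ) :
    Arrs (relQ Q s) F = Arrs Q F := by
  unfold Arrs
  rw [dE_relQ]

theorem fw_one (x : ZMod 4 → Bool) : fw (fun k => x (k + 1)) = fw x := by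
  have e0 : (0 : ZMod 4) + 1 = 1 := rfl
  have e1 : (1 : ZMod 4) + 1 = 2 := rfl
  have e2 : (2 : ZMod 4) + 1 = 3 := rfl
  have e3 : (3 : ZMod 4) + 1 = 0 := rfl
  unfold fw
  simp only [e0, e1, e2, e3]
  cases x 0 <;> cases x 1 <;> cases x 2 <;> cases x 3 <;> simp

theorem fw_shift (x : ZMod 4 → Bool) (r : ZMod 4) : fw (fun k => x (k + r)) = fw x := by
  have h2 : ∀ x : ZMod 4 → Bool, fw (fun k => x (k + 2)) = fw x := by
    intro x
    have h := (fw_one (fun k => x (k + 1))).trans (fw_one x)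
    have e : (fun k : ZMod 4 => x (k + 1 + 1)) = fun k => x (k + 2) := by
      funext k
      congr 1
      ring
    simp only [e] at h
    exact h
  rcases k4_cases r with rfl | rfl | rfl | rfl
  · simp only [add_zero]
  · exact fw_one x
  · exact h2 x
  · have h := (h2 (fun k => x (k + 1))).trans (fw_one x)
    have e : (fun k : ZMod 4 => x (k + 2 + 1)) = fun k => x (k + 3) := by
      funext k
      congr 1
      ring
    simp only [e] at h
    exact h

/-- **The arrow sum does not see the labels.** -/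
theorem Z6_relQ (Q : QC V Φ) (s : Φ → ZMod 4) (F : Finset Φ) (h : V × V → ℂ) :
    Z6 (relQ Q s) F h = Z6 Q F h := by
  unfold Z6
  rw [Arrs_relQ]
  refine Finset.sum_congr rfl fun α _ => ?_
  congr 1
  refine Finset.prod_congr rfl fun f _ => ?_
  simp only [sd_relQ]
  exact fw_shift (fun k => decide (sd Q f k ∈ α)) (s f)

theorem srel_relQ : SRel (relQ Q s) F ω a b ↔ SRel Q F (flp s ω) a b := by
  unfold SRel
  rw [nx_relQ']

theorem dst_relQ : dst (relQ Q s) F ω a = dst Q F (flp s ω) a := by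
  ext b
  rw [mem_dst, mem_dst, dE_relQ, srel_relQ]

theorem dstr_relQ : dstr (relQ Q s) F ω = dstr Q F (flp s ω) := by
  unfold dstr
  rw [dE_relQ]
  exact Finset.image_congr fun a _ => dst_relQ

theorem qk_relQ {f : Φ} (k : ZMod 4) : qk (flp s ω f) (k + s f) = qk (ω f) k := by
  unfold qk
  by_cases h : ω f = ev k
  · rw [if_pos h, if_pos (flp_ev.mpr h)]
  · rw [if_neg h, if_neg (fun h2 => h (flp_ev.mp h2))]

theorem qt_relQ : qt (relQ Q s) F ω a = qt Q F (flp s ω) a := by
  unfold qt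
  refine Finset.sum_congr rfl fun f _ => ?_
  rw [← Equiv.sum_comp (Equiv.addRight (s f))
    (fun k => if sd Q f k = a then qk (flp s ω f) k else 0)]
  refine Finset.sum_congr rfl fun k _ => ?_
  show (if sd (relQ Q s) f k = a then qk (ω f) k else 0) =
    if sd Q f (k + s f) = a then qk (flp s ω f) (k + s f) else 0
  rw [sd_relQ, qk_relQ]

theorem tX_relQ : tX (relQ Q s) F ω X = tX Q F (flp s ω) X := by
  unfold tX
  exact Finset.sum_congr rfl fun a _ => qt_relQ

theorem sw_relQ : sw (relQ Q s) F ω h X = sw Q F (flp s ω) h X := by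
  unfold sw
  exact Finset.prod_congr rfl fun a _ => by rw [qt_relQ]

theorem Zs_relQ : Zs (relQ Q s) F ω h = Zs Q F (flp s ω) h := by
  unfold Zs ust
  rw [dstr_relQ]
  exact Finset.prod_congr rfl fun U _ => Finset.sum_congr rfl fun X _ => sw_relQ

theorem Zr_relQ : Zr (relQ Q s) F ω h P = Zr Q F (flp s ω) h P := by
  unfold Zr
  rw [dstr_relQ]
  exact Finset.prod_congr rfl fun U _ => Finset.sum_congr rfl fun X _ => sw_relQ

theorem lst_relQ : lst (relQ Q s) F ω a = lst Q F (flp s ω) a := by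
  have e1 : Ter (relQ Q s) (F : Set Φ) = Ter Q (F : Set Φ) := funext fun a => propext ter_relQ
  have e2 : Orb (relQ Q s) ω (F : Set Φ) a = Orb Q (flp s ω) (F : Set Φ) a := by
    unfold Orb
    rw [nx_relQ']
  unfold lst
  rw [e1, e2]

theorem mate_relQ : mate (relQ Q s) F ω a = mate Q F (flp s ω) a := by
  unfold mate
  rw [lst_relQ]

theorem turn_relQ : turn (relQ Q s) F ω a = turn Q F (flp s ω) a := by
  unfold turn
  rw [tX_relQ, dst_relQ]

/-- turnings of the relabelled complex -/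
theorem Turns.relQ {Eb Et : Finset (V × V)} (H : Turns Q F (flp s ω) Eb Et) :
    Turns (relQ Q s) F ω Eb Et where
  closed X hX hc := by
    rw [dstr_relQ] at hX
    rw [tX_relQ]
    exact H.closed X hX fun a ha hi => hc a ha (ini_relQ.mpr hi)
  bb a ha hm := by
    rw [mate_relQ] at hm
    rw [turn_relQ]
    exact H.bb a ha hm
  tt a ha hm := by
    rw [mate_relQ] at hm
    rw [turn_relQ]
    exact H.tt a ha hm
  bt a ha hm := by
    rw [mate_relQ] at hm
    rw [turn_relQ]
    exact H.bt a ha hm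

theorem avc_flp {g : (Φ → Bool) → ℂ} (hg : Dep (F : Set Φ) g) :
    avc F (fun ω => g (flp s ω)) = avc F g := avc_flip hg fun f => !ev (s f)

theorem avc_Zs_relQ : avc F (fun ω => Zs (relQ Q s) F ω h) = avc F (fun ω => Zs Q F ω h) := by
  simp only [Zs_relQ]
  refine avc_flp (g := fun ω => Zs Q F ω h) ?_
  intro ω ω' hω
  exact Zs_congr_cfg fun f hf => hω f (by exact_mod_cast hf)

/-- a chart with face dependent label shift -/
theorem chart_relQ {V₀ Φ₀ : Type} [DecidableEq V₀] [DecidableEq Φ₀] {Q₀ : QC V₀ Φ₀}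
    {F₀ : Finset Φ₀} {φ : V₀ → V} {ψ : Φ₀ → Φ}
    (hi : ∀ f ∈ F₀, ∀ g ∈ F₀, ∀ k l, φ (Q₀.c f k) = φ (Q₀.c g l) → Q₀.c f k = Q₀.c g l)
    (hc : ∀ f ∈ F₀, ∀ k, Q.c (ψ f) (k + s (ψ f)) = φ (Q₀.c f k)) :
    QChart Q₀ (relQ Q s) F₀ φ ψ 0 where
  inj := hi
  cor f hf k := by
    rw [add_zero]
    exact hc f hf k

/-- the arrow sum is an average over the smoothings -/
theorem Z6_avc (hQ : NoLoop Q) (F : Finset Φ) (h : V × V → ℂ) :
    Z6 Q F h = (2 : ℂ) ^ F.card * avc F (fun ω => Zs Q F ω h) := by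
  rw [Z6_eq hQ]
  unfold avc
  have h2 : (2 : ℂ) ^ F.card ≠ 0 := pow_ne_zero _ two_ne_zero
  field_simp

/-! ## The vertical cylinder -/

section CR

variable {N : ℕ}

/-- rotation of the vertices -/
def rotv (N : ℕ) (v : ℤ × ZMod N) : ZMod N × ℤ := (-v.2, v.1)

/-- inverse rotation of the vertices -/
def rotv' (N : ℕ) (v : ZMod N × ℤ) : ℤ × ZMod N := (v.2, -v.1)

/-- rotation of the faces -/
def rotf (N : ℕ) (f : ℤ × ZMod N) : ZMod N × ℤ := (-f.2 - 1, f.1)

/-- inverse rotation of the faces -/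
def rotf' (N : ℕ) (f : ZMod N × ℤ) : ℤ × ZMod N := (f.2, -f.1 - 1)

theorem rotv_rotv' (v : ZMod N × ℤ) : rotv N (rotv' N v) = v := by
  unfold rotv rotv'
  ext <;> simp

theorem rotv'_rotv (v : ℤ × ZMod N) : rotv' N (rotv N v) = v := by
  unfold rotv rotv'
  ext <;> simp

theorem rotf_rotf' (f : ZMod N × ℤ) : rotf N (rotf' N f) = f := by
  unfold rotf rotf'
  ext
  · simp
  · simp

theorem rotf'_rotf (f : ℤ × ZMod N) : rotf' N (rotf N f) = f := by
  unfold rotf rotf'
  ext
  · simp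
  · simp

variable [hN : Fact (3 ≤ N)]

/-- the cylinder which is periodic in the second coordinate -/
def CR (N : ℕ) [Fact (3 ≤ N)] : QC (ℤ × ZMod N) (ℤ × ZMod N) where
  c f k := rotv' N ((CQ N).c (rotf N f) (k + 1))
  inj := by
    intro f k f' k' h1 h2
    have e1 := congrArg (rotv N) h1
    have e2 := congrArg (rotv N) h2
    rw [rotv_rotv', rotv_rotv'] at e1 e2
    obtain ⟨h3, h4⟩ := (CQ N).inj e1 e2
    refine ⟨?_, add_right_cancel h4⟩
    rw [← rotf'_rotf f, h3, rotf'_rotf]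

theorem CR_0 (f : ℤ × ZMod N) : (CR N).c f 0 = f := by
  change rotv' N (corC N (rotf N f) 1) = f
  rw [corC_1]
  unfold rotv' rotf
  ext <;> simp

theorem CR_1 (f : ℤ × ZMod N) : (CR N).c f 1 = (f.1 + 1, f.2) := by
  change rotv' N (corC N (rotf N f) 2) = _
  rw [corC_2]
  unfold rotv' rotf
  ext <;> simp

theorem CR_2 (f : ℤ × ZMod N) : (CR N).c f 2 = (f.1 + 1, f.2 + 1) := by
  change rotv' N (corC N (rotf N f) 3) = _
  rw [corC_3]
  unfold rotv' rotf
  ext
  · simp
  · simp; ring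

theorem CR_3 (f : ℤ × ZMod N) : (CR N).c f 3 = (f.1, f.2 + 1) := by
  change rotv' N (corC N (rotf N f) 0) = _
  rw [corC_0]
  unfold rotv' rotf
  ext
  · simp
  · simp; ring

theorem crChart (F₀ : Finset (ℤ × ZMod N)) : QChart (CR N) (CQ N) F₀ (rotv N) (rotf N) 1 where
  inj f _ g _ k l h := by
    have := congrArg (rotv' N) h
    rwa [rotv'_rotv, rotv'_rotv] at this
  cor f _ k := (rotv_rotv' _).symm

theorem crChart' (F₀ : Finset (ZMod N × ℤ)) : QChart (CQ N) (CR N) F₀ (rotv' N) (rotf' N) (-1) where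
  inj f _ g _ k l h := by
    have := congrArg (rotv N) h
    rwa [rotv_rotv', rotv_rotv'] at this
  cor f _ k := by
    show rotv' N ((CQ N).c (rotf N (rotf' N f)) (k + -1 + 1)) = _
    rw [rotf_rotf', neg_add_cancel_right]

theorem noLoop_CR : NoLoop (CR N) := by
  intro f k
  rcases k4_cases k with rfl | rfl | rfl | rfl
  · change (CR N).c f 0 ≠ (CR N).c f 1
    rw [CR_0, CR_1]
    intro h
    have := congrArg Prod.fst h
    simp at this
  · change (CR N).c f 1 ≠ (CR N).c f 2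
    rw [CR_1, CR_2]
    intro h
    have := congrArg Prod.snd h
    simp only at this
    exact one_ne_zero_zmod hN.out (left_eq_add.mp this)
  · change (CR N).c f 2 ≠ (CR N).c f 3
    rw [CR_2, CR_3]
    intro h
    have := congrArg Prod.fst h
    simp at this
  · change (CR N).c f 3 ≠ (CR N).c f 0
    rw [CR_3, CR_0]
    intro h
    have := congrArg Prod.snd h
    simp only at this
    exact one_ne_zero_zmod hN.out (add_eq_left.mp this)

end CR

end

end Pool.Agent.SixB.Rel
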