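import Pool.Agent.Lib.SixB.S3PlaneE
import Pool.Agent.Lib.SixB.S3Relab

/-!
# 6BD: rotation of plane surfaces by 90 degrees

`GlueZ.rot`: in the rotated chart the column `x = X₀` is the row `y = X₀`; `Zp_relQ`: the functional
does not change.
-/

set_option autoImplicit false
set_option linter.unusedSectionVars false

namespace Pool.Agent.SixB.Rel

open Pool.Agent.Perc Pool.Agent.Perc.Q Relation Filter Topology
open Pool.Agent.SixB hiding Zs_split dst_congr qt_congr dE_mono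

noncomputable section

/-- new vertex to old vertex: `(x, y)` new is `(y, -x)` old -/
def rv0 (v : ℤ × ℤ) : ℤ × ℤ := (v.2, -v.1)

/-- new face to old face -/
def rf0 (f : ℤ × ℤ) : ℤ × ℤ := (f.2, -f.1 - 1)

theorem rv0_inj {v w : ℤ × ℤ} (h : rv0 v = rv0 w) : v = w := by
  unfold rv0 at h
  obtain ⟨h1, h2⟩ := Prod.mk.inj h
  exact Prod.ext (by omega) h1

theorem rf0_inj {v w : ℤ × ℤ} (h : rf0 v = rf0 w) : v = w := by
  unfold rf0 at h
  obtain ⟨h1, h2⟩ := Prod.mk.inj h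
  exact Prod.ext (by omega) h1

theorem rf0_surj (f : ℤ × ℤ) : rf0 (-f.2 - 1, f.1) = f := by
  unfold rf0
  ext
  · rfl
  · simp

theorem rv0_surj (f : ℤ × ℤ) : rv0 (-f.2, f.1) = f := by
  unfold rv0
  ext
  · rfl
  · simp

theorem c_rf0 (f : ℤ × ℤ) (k : ZMod 4) : ZQ.c (rf0 f) (k + 3) = rv0 (ZQ.c f k) := by
  rcases k4_cases k with rfl | rfl | rfl | rfl
  · change cor0 (rf0 f) 3 = rv0 (cor0 f 0)
    rw [cor0_3, cor0_0]
    unfold rf0 rv0
    ext <;> simp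
  · change cor0 (rf0 f) 0 = rv0 (cor0 f 1)
    rw [cor0_0, cor0_1]
    unfold rf0 rv0
    ext
    · simp
    · simp; ring
  · change cor0 (rf0 f) 1 = rv0 (cor0 f 2)
    rw [cor0_1, cor0_2]
    unfold rf0 rv0
    ext
    · simp
    · simp; ring
  · change cor0 (rf0 f) 2 = rv0 (cor0 f 3)
    rw [cor0_2, cor0_3]
    unfold rf0 rv0
    ext <;> simp

theorem mem_rf0 {L : ℤ} {f : ℤ × ℤ} : rf0 f ∈ RFb (0, 0) L ↔ f ∈ RFb (0, 0) L := by
  rw [mem_RF0, mem_RF0]
  unfold rf0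
  simp only
  omega

theorem aZ_rf0 (L : ℤ) (n : ℕ) : (aZ L n).image rf0 = aZ L n := by
  ext f
  rw [Finset.mem_image]
  constructor
  · rintro ⟨g, hg, rfl⟩
    rw [mem_aZ] at hg ⊢
    rw [mem_rf0, mem_rf0]
    exact hg
  · intro hf
    refine ⟨_, ?_, rf0_surj f⟩
    rw [mem_aZ] at hf ⊢
    rw [← mem_rf0, ← mem_rf0 (L := L), rf0_surj]
    exact hf

variable {V Φ : Type} [DecidableEq V] [DecidableEq Φ]
variable {Q : QC V Φ} {A : Finset Φ} {L : ℤ} {φ : ℤ × ℤ → V} {ψ : ℤ × ℤ → Φ}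
  {P : Finset (V × V)}

theorem zplO_relQ (s : Φ → ZMod 4) (A R : Finset Φ) (h : V × V → ℂ) (P : Finset (V × V)) :
    zplO (relQ Q s) A R ∅ h P = zplO Q A R ∅ h P := by
  rw [zplO_empty, zplO_empty]
  simp only [Zr_relQ]
  refine avc_flp (g := fun ω => Zr Q (A ∪ R) ω h P) ?_
  intro ω ω' hω
  exact Zr_congr_cfg fun f hf => hω f (by exact_mod_cast hf)

theorem zn_relQ (s : Φ → ZMod 4) (A : Finset Φ) (ψ : ℤ × ℤ → Φ) (h : V × V → ℂ)
    (P : Finset (V × V)) (n : ℕ) : zn L (relQ Q s) A ψ h P n = zn L Q A ψ h P n :=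
  zplO_relQ s _ _ h P

/-- relabelling does not change the functional -/
theorem Zp_relQ (s : Φ → ZMod 4) (A : Finset Φ) (ψ : ℤ × ℤ → Φ) (h : V × V → ℂ)
    (P : Finset (V × V)) : Zp L (relQ Q s) A ψ h P = Zp L Q A ψ h P := by
  have e : zn L (relQ Q s) A ψ h P = zn L Q A ψ h P := funext fun n => zn_relQ s A ψ h P n
  unfold Zp
  rw [e]

/-- rotation of the chart does not change the functional -/
theorem Zp_rf0 (A : Finset Φ) (ψ : ℤ × ℤ → Φ) (h : V × V → ℂ)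
    (P : Finset (V × V)) : Zp L Q A (ψ ∘ rf0) h P = Zp L Q A ψ h P := by
  have e : zn L Q A (ψ ∘ rf0) h P = zn L Q A ψ h P := by
    funext n
    unfold zn
    rw [← Finset.image_image, aZ_rf0]
  unfold Zp
  rw [e]

/-- **Rotation of a plane surface.** -/
theorem GlueZ.rot (H : GlueZ L Q A φ ψ P) :
    GlueZ L (relQ Q fun _ => 3) A (φ ∘ rv0) (ψ ∘ rf0) P where
  chart M := by
    have hX := H.chart M
    have hm : ∀ f ∈ RFb (0, 0) M \ RFb (0, 0) L, rf0 f ∈ RFb (0, 0) M \ RFb (0, 0) L := by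
      intro f hf
      rw [Finset.mem_sdiff] at hf ⊢
      rw [mem_rf0, mem_rf0]
      exact hf
    refine chart_relQ ?_ ?_
    · intro f hf g hg k l h
      have h1 : φ (ZQ.c (rf0 f) (k + 3)) = φ (ZQ.c (rf0 g) (l + 3)) := by
        rw [c_rf0, c_rf0]
        exact h
      have h2 := hX.inj _ (hm f hf) _ (hm g hg) _ _ h1
      rw [c_rf0, c_rf0] at h2
      exact rv0_inj h2
    · intro f hf k
      have h1 := hX.cor _ (hm f hf) (k + 3)
      rw [add_zero, c_rf0] at h1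
      exact h1
  dj g hg := H.dj _ (fun h => hg (mem_rf0.mp h))
  nb f hf k g hg l h := by
    have h1 : Q.c f (k + 3) = φ (ZQ.c (rf0 g) (l + 3)) := by
      rw [c_rf0]
      exact h
    have h2 := H.nb f hf (k + 3) _ (fun h => hg (mem_rf0.mp h)) (l + 3) h1
    rw [c_rf0] at h2
    unfold rv0 at h2
    simp only [abs_neg] at h2
    exact ⟨h2.2, h2.1⟩
  P_sub := by
    rw [dE_relQ]
    exact H.P_sub

theorem Zp_rot (A : Finset Φ) (ψ : ℤ × ℤ → Φ) (h : V × V → ℂ) (P : Finset (V × V)) :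
    Zp L (relQ Q fun _ => 3) A (ψ ∘ rf0) h P = Zp L Q A ψ h P := by
  rw [Zp_relQ, Zp_rf0]

end

end Pool.Agent.SixB.Rel
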