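import Pool.Agent.Lib.SixB.S3DblS
import Pool.Agent.Lib.SixB.S3PlaneH

/-!
# 6BD step 3: the plane functional under charts, the double of a flat half

* `zn_avc`, `Zp_map`: `Zp` is transported by charts of the windows.
* `FlatHalf`: one half of the surface is a flat half plane (chart `φ'`, `ψ'`), also inside the core.
* `FlatHalf.Zp_eq`: the functional of the double of a flat half is the functional of the plane.
-/

set_option autoImplicit false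
set_option linter.unusedSectionVars false

namespace Pool.Agent.SixB.Hcs

open Pool.Agent.Perc Pool.Agent.Perc.Q Relation Filter Topology
open Pool.Agent.SixB.Rel Pool.Agent.SixB.Dbl
open Pool.Agent.SixB hiding Zs_split dst_congr qt_congr dE_mono

noncomputable section

variable {V Φ V' Φ' : Type} [DecidableEq V] [DecidableEq Φ] [DecidableEq V'] [DecidableEq Φ']
variable {Q : QC V Φ} {Q' : QC V' Φ'} {L : ℤ} {A : Finset Φ} {A' : Finset Φ'} {ψ : ℤ × ℤ → Φ}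
  {ψ' : ℤ × ℤ → Φ'} {h : V × V → ℂ} {h' : V' × V' → ℂ} {P : Finset (V × V)}
  {P' : Finset (V' × V')} {χv : V → V'} {χf : Φ → Φ'} {r : ZMod 4}

theorem zn_avc (L : ℤ) (Q : QC V Φ) (A : Finset Φ) (ψ : ℤ × ℤ → Φ) (h : V × V → ℂ)
    (P : Finset (V × V)) (n : ℕ) : zn L Q A ψ h P n =
      avc (A ∪ (aZ L n).image ψ) (fun ω => Zr Q (A ∪ (aZ L n).image ψ) ω h P) :=
  zplO_empty _ _ _ _

/-- transport of the average of `Zr` -/
theorem avc_Zr_map {F : Finset Φ} (H : QChart Q Q' F χv χf r)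
    (hh : ∀ a ∈ dE Q F, h' (Prod.map χv χv a) = h a) (hP : P ⊆ dE Q F) :
    avc (F.image χf) (fun ω => Zr Q' (F.image χf) ω h' (P.image (Prod.map χv χv))) =
      avc F (fun ω => Zr Q F ω h P) := by
  have H' : QChart Q Q' (F ∪ ∅) χv χf r := by rw [Finset.union_empty]; exact H
  have h1 := zplO_map (A := F) (R := ∅) (O := ∅) (P := P) H' (Finset.empty_subset _)
    (h := h) (h' := h') (by rw [Finset.union_empty]; exact hh) (by rw [Finset.union_empty]; exact hP)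
  rw [Finset.image_empty, Finset.image_empty, zplO_empty, zplO_empty, Finset.union_empty,
    Finset.union_empty] at h1
  exact h1

/-- **Transport of the plane functional.** -/
theorem Zp_map (H : ∀ n, QChart Q Q' (A ∪ (aZ L n).image ψ) χv χf r)
    (hF : ∀ n, (A ∪ (aZ L n).image ψ).image χf = A' ∪ (aZ L n).image ψ')
    (hh : ∀ n, ∀ a ∈ dE Q (A ∪ (aZ L n).image ψ), h' (Prod.map χv χv a) = h a)
    (hP : P ⊆ dE Q A) (hP' : P.image (Prod.map χv χv) = P') :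
    Zp L Q' A' ψ' h' P' = Zp L Q A ψ h P := by
  have e : zn L Q' A' ψ' h' P' = zn L Q A ψ h P := by
    funext n
    rw [zn_avc, zn_avc, ← hF, ← hP']
    exact avc_Zr_map (H n) (hh n) (hP.trans (dE_mono Finset.subset_union_left))
  unfold Zp
  rw [e]

/-! ## The double of a flat half -/

variable {ι : Type} {up : Bool} {g₀ L' : ℤ} {φ' : ℤ × ℤ → V} {ψ₁ : ℤ × ℤ → Φ} {S : Set Φ}
  {m : ι → V × V}

/-- the half `S` is a flat half plane with the chart `φ'`, `ψ₁`, also inside the core `A` -/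
structure FlatHalf (up : Bool) (g₀ L : ℤ) (Q : QC V Φ) (A : Finset Φ) (ψ : ℤ × ℤ → Φ)
    (φ' : ℤ × ℤ → V) (ψ₁ : ℤ × ℤ → Φ) (S : Set Φ) (m : ι → V × V) : Prop where
  half : HalfS up g₀ ZQ Set.univ Q ∅ φ' ψ₁ S m
  chart : ∀ W : Finset (ℤ × ℤ), (∀ g ∈ W, inH up g₀ g) → QChart ZQ Q W φ' ψ₁ 0
  out : ∀ g, g ∉ RFb (0, 0) L → inH up g₀ g → ψ g = ψ₁ g
  core : ∀ f, (f ∈ A ∧ f ∈ S) ↔ ∃ g ∈ RFb (0, 0) L, inH up g₀ g ∧ f = ψ₁ g

namespace FlatHalf

theorem chart2 (H : FlatHalf up g₀ L Q A ψ φ' ψ₁ S m) (W : Finset (ℤ × ℤ)) :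
    QChart ZQ (dblS Q S m H.half.os) W (dblφ up g₀ φ' m) (dblψ up g₀ ψ₁) 0 := by
  refine H.half.chart stdB_ZQ (W₀ := W.image (ptf up g₀)) (fun g _ => Set.mem_univ g)
    (H.chart _ fun g hg => ?_) (fun g hg => Finset.mem_image_of_mem _ hg)
  obtain ⟨g', _, rfl⟩ := Finset.mem_image.mp hg
  exact inH_ptf up g₀ g'

/-- the windows of the double -/
theorem window (H : FlatHalf up g₀ L Q A ψ φ' ψ₁ S m) (hL0 : 0 ≤ L) (hL : L + |g₀| ≤ L') (n : ℕ) :
    (RFb (0, 0) (4 ^ n * L')).image (dblψ up g₀ ψ₁) =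
      cor2 up g₀ A S ψ (wZ up g₀ L L') ∪ (aZ L' n).image (dblψ up g₀ ψ) := by
  have hL'0 : 0 ≤ L' := by
    have := abs_nonneg g₀
    omega
  have h4 : (1 : ℤ) ≤ 4 ^ n := one_le_pow₀ (by norm_num)
  have hsub : RFb (0, 0) L' ⊆ RFb (0, 0) (4 ^ n * L') := RF0_mono (by nlinarith)
  have key : ∀ g : ℤ × ℤ, ptf up g₀ g ∉ RFb (0, 0) L → dblψ up g₀ ψ g = dblψ up g₀ ψ₁ g := by
    intro g hg
    unfold dblψ
    rw [H.out _ hg (inH_ptf up g₀ g)]
  ext p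
  rw [Finset.mem_image, Finset.mem_union, mem_cor2, Finset.mem_image]
  constructor
  · rintro ⟨g, hg, rfl⟩
    by_cases h1 : g ∈ RFb (0, 0) L'
    · by_cases h2 : ptf up g₀ g ∈ RFb (0, 0) L
      · left; left
        exact (H.core _).mpr ⟨_, h2, inH_ptf up g₀ g, rfl⟩
      · left; right
        exact ⟨g, mem_wZ.mpr ⟨h1, h2⟩, key g h2⟩
    · right
      exact ⟨g, mem_aZ.mpr ⟨hg, h1⟩, key g (ptf_out hL h1)⟩
  · rintro ((h1 | ⟨g, hg, rfl⟩) | ⟨g, hg, rfl⟩)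
    · obtain ⟨g, hg, hH, h2⟩ := (H.core _).mp h1
      refine ⟨qtf g₀ p.2 g, hsub (qtf_box hL hg p.2), ?_⟩
      unfold dblψ
      rw [ptf_qtf hH, cc_qtf hH, ← h2]
    · obtain ⟨h1, h2⟩ := mem_wZ.mp hg
      exact ⟨g, hsub h1, (key g h2).symm⟩
    · obtain ⟨h1, h2⟩ := mem_aZ.mp hg
      exact ⟨g, h1, (key g (ptf_out hL h2)).symm⟩

theorem RFb_aZ (hL'0 : 0 ≤ L') (n : ℕ) :
    RFb (0, 0) L' ∪ (aZ L' n).image id = RFb (0, 0) (4 ^ n * L') := by
  have h4 : (1 : ℤ) ≤ 4 ^ n := one_le_pow₀ (by norm_num)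
  have hsub : RFb (0, 0) L' ⊆ RFb (0, 0) (4 ^ n * L') := RF0_mono (by nlinarith)
  rw [Finset.image_id]
  unfold aZ
  exact Finset.union_sdiff_of_subset hsub

/-- **The functional of the double of a flat half is the functional of the plane.** -/
theorem Zp_eq (H : FlatHalf up g₀ L Q A ψ φ' ψ₁ S m) (hL0 : 0 ≤ L) (hL : L + |g₀| ≤ L')
    {h3 : (ℤ × ℤ) × (ℤ × ℤ) → ℂ} {P3 : Finset ((ℤ × ℤ) × (ℤ × ℤ))}
    {h2 : (V × Bool × Bool) × (V × Bool × Bool) → ℂ}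
    (hh : ∀ a, h2 (Prod.map (dblφ up g₀ φ' m) (dblφ up g₀ φ' m) a) = h3 a)
    (hP : P3 ⊆ dE ZQ (RFb (0, 0) L')) :
    Zp L' (dblS Q S m H.half.os) (cor2 up g₀ A S ψ (wZ up g₀ L L')) (dblψ up g₀ ψ) h2
        (P3.image (Prod.map (dblφ up g₀ φ' m) (dblφ up g₀ φ' m))) =
      Zp L' ZQ (RFb (0, 0) L') id h3 P3 := by
  have hL'0 : 0 ≤ L' := by
    have := abs_nonneg g₀
    omega
  refine Zp_map (r := 0) (χf := dblψ up g₀ ψ₁) (fun n => ?_) (fun n => ?_) (fun n a _ => hh a) hP rfl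
  · rw [RFb_aZ hL'0]
    exact H.chart2 _
  · rw [RFb_aZ hL'0]
    exact H.window hL0 hL n

end FlatHalf

end

end Pool.Agent.SixB.Hcs
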