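import Pool.Agent.Lib.SixB.S3OpBoxD
import Pool.Agent.Lib.SixB.AN10

/-!
# 6BD, operator bound (14): smooth profiles satisfy the hypotheses of the box theorem

`boxD_chi`: for a smooth `χ` with support in the ball of radius `ρ` there is `K₀` such that for all `n`, `z`, `r`
with `1 ≤ ρ r n` there is `K` such that `BoxD (⌊n z⌋) K R (fun v => χ ((mesh n v - z) / r)) K₀` for all
`R ≥ 32 ρ r n`. The constant depends on `χ` and `ρ` only.
-/

set_option autoImplicit false
set_option linter.unusedSectionVars false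

open Filter Topology Metric Set Complex InnerProductSpace Real MeasureTheory Laplacian
open scoped Convolution ContDiff

namespace Pool.Agent.SixB.Op

open Pool.Agent.SixB.DC

/-- the two definitions of the lattice Laplacian agree -/
theorem lapZ_eq_DC (V : ℤ × ℤ → ℝ) (v : ℤ × ℤ) : Op.lapZ V v = DC.lapZ V v := by
  unfold Op.lapZ DC.lapZ
  ring

/-- a power of two of a given size -/
theorem exists_two_pow {x : ℝ} (hx : 1 ≤ x) : ∃ K : ℕ, x + 1 ≤ 2 ^ K ∧ (2 : ℝ) ^ K ≤ 4 * x := by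
  obtain ⟨K, h1, h2⟩ := exists_nat_pow_near (show (1 : ℝ) ≤ x + 1 by linarith) (show (1 : ℝ) < 2 by norm_num)
  refine ⟨K + 1, h2.le, ?_⟩
  rw [pow_succ]
  linarith

theorem lapZ_chi {χ : ℂ → ℝ} (hχ : ContDiff ℝ ∞ χ) {M : ℝ} (hM : ∀ y, |dd2 χ 1 y| ≤ M)
    (hM' : ∀ y, |dd2 χ I y| ≤ M) {n : ℕ} (hn : 0 < n) {r : ℝ} (hr : 0 < r) (z : ℂ) (v : ℤ × ℤ) :
    |Op.lapZ (fun v => χ ((mesh n v - z) / r)) v| ≤ 4 * M * (1 / (n * r)) ^ 2 := by
  have hn' : (0 : ℝ) < n := by exact_mod_cast hn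
  set T : ℝ := 1 / (n * r) with hT
  have hT0 : 0 ≤ T := by positivity
  set y : ℂ := (mesh n v - z) / r with hy
  have hrC : (r : ℂ) ≠ 0 := by exact_mod_cast hr.ne'
  have hnC : (n : ℂ) ≠ 0 := by exact_mod_cast hn.ne'
  have e1 : (mesh n (v.1 + 1, v.2) - z) / r = y + T * 1 := by
    have : mesh n (v.1 + 1, v.2) = mesh n v + (1 / (n : ℝ) : ℝ) := by
      unfold mesh
      apply Complex.ext
      · simp; ring
      · simp
    rw [this, hy, hT]
    push_cast
    field_simp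
    ring
  have e2 : (mesh n (v.1 - 1, v.2) - z) / r = y - T * 1 := by
    have : mesh n (v.1 - 1, v.2) = mesh n v - (1 / (n : ℝ) : ℝ) := by
      unfold mesh
      apply Complex.ext
      · simp; ring
      · simp
    rw [this, hy, hT]
    push_cast
    field_simp
    ring
  have e3 : (mesh n (v.1, v.2 + 1) - z) / r = y + T * I := by
    have : mesh n (v.1, v.2 + 1) = mesh n v + (1 / (n : ℝ) : ℝ) * I := by
      unfold mesh
      apply Complex.ext
      · simp
      · simp; ring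
    rw [this, hy, hT]
    push_cast
    field_simp
    ring
  have e4 : (mesh n (v.1, v.2 - 1) - z) / r = y - T * I := by
    have : mesh n (v.1, v.2 - 1) = mesh n v - (1 / (n : ℝ) : ℝ) * I := by
      unfold mesh
      apply Complex.ext
      · simp
      · simp; ring
    rw [this, hy, hT]
    push_cast
    field_simp
    ring
  have h1 := second_diff_dir hχ 1 y (T := T) (ε := M) (c := 0) hT0
    (fun s _ => by rw [sub_zero]; exact hM _)
  have h2 := second_diff_dir hχ I y (T := T) (ε := M) (c := 0) hT0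
    (fun s _ => by rw [sub_zero]; exact hM' _)
  rw [mul_zero, sub_zero] at h1 h2
  have h3 : Op.lapZ (fun v => χ ((mesh n v - z) / r)) v =
      (χ (y + T * 1) + χ (y - T * 1) - 2 * χ y) + (χ (y + T * I) + χ (y - T * I) - 2 * χ y) := by
    unfold Op.lapZ
    simp only
    rw [e1, e2, e3, e4, ← hy]
    ring
  rw [h3]
  refine (abs_add_le _ _).trans ?_
  linarith

/-- **Smooth profiles.** -/
theorem boxD_chi {χ : ℂ → ℝ} (hχ : ContDiff ℝ ∞ χ) (hc : HasCompactSupport χ) {ρ : ℝ}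
    (hρ : 0 < ρ) (hs : tsupport χ ⊆ closedBall 0 ρ) : ∃ K₀ : ℝ, 0 ≤ K₀ ∧
    ∀ (n : ℕ) (z : ℂ) (r : ℝ), 0 < n → 0 < r → 1 ≤ ρ * r * n → ∃ K : ℕ,
      ρ * r * n + 1 ≤ 2 ^ K ∧ (2 : ℝ) ^ K ≤ 4 * (ρ * r * n) ∧
      ∀ R : ℤ, 32 * (ρ * r * n) ≤ R →
        BoxD (⌊n * z.re⌋, ⌊n * z.im⌋) K R (fun v => χ ((mesh n v - z) / r)) K₀ := by
  obtain ⟨M1, hM1⟩ := (hasCompactSupport_dd2 hc 1).exists_bound_of_continuous (continuous_dd2 hχ 1)
  obtain ⟨M2, hM2⟩ := (hasCompactSupport_dd2 hc I).exists_bound_of_continuous (continuous_dd2 hχ I)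
  set M : ℝ := max (max M1 M2) 0 with hMd
  have hM0 : 0 ≤ M := le_max_right _ _
  have hMa : ∀ y, |dd2 χ 1 y| ≤ M := fun y => (hM1 y).trans ((le_max_left _ _).trans (le_max_left _ _))
  have hMb : ∀ y, |dd2 χ I y| ≤ M := fun y => (hM2 y).trans ((le_max_right _ _).trans (le_max_left _ _))
  refine ⟨64 * M * ρ ^ 2, by positivity, ?_⟩
  intro n z r hn hr h1
  have hn' : (0 : ℝ) < n := by exact_mod_cast hn
  obtain ⟨K, hK1, hK2⟩ := exists_two_pow h1
  refine ⟨K, hK1, hK2, ?_⟩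
  intro R hR
  refine ⟨?_, ?_, ?_⟩
  · have : (8 : ℝ) * 2 ^ K ≤ R := by linarith
    exact_mod_cast this
  · intro p hp
    by_contra hne
    have h2 : (mesh n p - z) / r ∈ closedBall (0 : ℂ) ρ := hs (subset_tsupport χ hne)
    rw [mem_closedBall_zero_iff, norm_div, Complex.norm_real, Real.norm_of_nonneg hr.le,
      div_le_iff₀ hr] at h2
    have h3 := (Complex.abs_re_le_norm _).trans h2
    have h4 := (Complex.abs_im_le_norm _).trans h2
    rw [Complex.sub_re] at h3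
    rw [Complex.sub_im] at h4
    have e1 : (mesh n p).re = p.1 / n := rfl
    have e2 : (mesh n p).im = p.2 / n := rfl
    rw [e1] at h3
    rw [e2] at h4
    have h5 : |(p.1 : ℝ) - n * z.re| ≤ ρ * r * n := by
      have : (p.1 : ℝ) - n * z.re = (p.1 / n - z.re) * n := by field_simp
      rw [this, abs_mul, abs_of_pos hn']
      exact mul_le_mul_of_nonneg_right h3 hn'.le
    have h6 : |(p.2 : ℝ) - n * z.im| ≤ ρ * r * n := by
      have : (p.2 : ℝ) - n * z.im = (p.2 / n - z.im) * n := by field_simp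
      rw [this, abs_mul, abs_of_pos hn']
      exact mul_le_mul_of_nonneg_right h4 hn'.le
    rw [abs_le] at h5 h6
    have f1 := Int.floor_le (n * z.re)
    have f2 := Int.lt_floor_add_one (n * z.re)
    have f3 := Int.floor_le (n * z.im)
    have f4 := Int.lt_floor_add_one (n * z.im)
    apply hp
    unfold InV
    simp only
    refine ⟨?_, ?_, ?_, ?_⟩
    · have : ((⌊n * z.re⌋ - 2 ^ K : ℤ) : ℝ) ≤ p.1 := by push_cast; linarith
      exact_mod_cast this
    · have : (p.1 : ℝ) ≤ ((⌊n * z.re⌋ + 2 ^ K : ℤ) : ℝ) := by push_cast; linarith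
      exact_mod_cast this
    · have : ((⌊n * z.im⌋ - 2 ^ K : ℤ) : ℝ) ≤ p.2 := by push_cast; linarith
      exact_mod_cast this
    · have : (p.2 : ℝ) ≤ ((⌊n * z.im⌋ + 2 ^ K : ℤ) : ℝ) := by push_cast; linarith
      exact_mod_cast this
  · intro p
    refine (lapZ_chi hχ hMa hMb hn hr z p).trans ?_
    have h4 : (4 : ℝ) ^ K = (2 ^ K) ^ 2 := by
      rw [← pow_mul, mul_comm, pow_mul]; norm_num
    rw [le_div_iff₀ (by positivity), h4]
    have h5 : ((2 : ℝ) ^ K) ^ 2 ≤ (4 * (ρ * r * n)) ^ 2 := pow_le_pow_left₀ (by positivity) hK2 2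
    calc 4 * M * (1 / (n * r)) ^ 2 * ((2 : ℝ) ^ K) ^ 2 ≤
        4 * M * (1 / (n * r)) ^ 2 * (4 * (ρ * r * n)) ^ 2 :=
          mul_le_mul_of_nonneg_left h5 (by positivity)
      _ = 64 * M * ρ ^ 2 := by
        field_simp
        ring

end Pool.Agent.SixB.Op
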