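import Pool.Agent.Lib.SixB.S3Ins

/-!
# 6BD: polarised mirror identity and the cut-and-mirror inequality with an inserted functional

* `sum_polar`: `∑ s, Z6 F (h pin s) * conj (Z6 F (h' pin s)) = Z6 (dbl ..) (dblH2 m h h')`.
* `Z6D_sgE`, `Z6D_half`: `Z6D` in terms of arrow signs (`c` antisymmetric).
* `sum_Z6D`: the same for inserted functionals (double sum over the sides).
* `cut_Z6D`: `‖Z6D (F₁ ∪ F₂) h c‖ ^ 2 ≤ (∑ s, ‖Z6 F₁‖ ^ 2) * ∑ s, ‖Z6D F₂ c‖ ^ 2`, `c` supported in `F₂`.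
-/

set_option autoImplicit false
set_option linter.unusedSectionVars false

namespace Pool.Agent.SixB

open Pool.Agent.Perc.Q Relation ComplexConjugate

noncomputable section

variable {V Φ : Type} [DecidableEq V] [DecidableEq Φ]
variable {Q : QC V Φ} {F F₁ F₂ : Finset Φ} {h h' : V × V → ℂ} {c : V × V → ℝ}

/-! ## Signs -/

theorem prod_sgE_arr {e : V × V} {α : Finset (V × V)} (h : e ∈ α ↔ e.swap ∉ α) :
    ∏ a ∈ α, sgE e a = if e ∈ α then 1 else -1 := by
  by_cases he : e ∈ α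
  · rw [if_pos he]
    refine Finset.prod_eq_one fun a ha => ?_
    unfold sgE
    rw [if_neg]
    rintro rfl
    exact h.mp he ha
  · rw [if_neg he]
    have h1 : e.swap ∈ α := by
      by_contra h2
      exact he (h.mpr h2)
    rw [Finset.prod_eq_single e.swap]
    · unfold sgE
      rw [if_pos rfl]
    · intro a _ ha
      unfold sgE
      rw [if_neg ha]
    · intro h2
      exact absurd h1 h2

/-- a prescribed arrow and an arrow sign -/
theorem Z6_kil {e : V × V} (he : e ∈ dE Q F) (h : V × V → ℂ) :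
    Z6 Q F (fun a => h a * kil e a) = (Z6 Q F h + Z6 Q F (fun a => h a * sgE e a)) / 2 := by
  unfold Z6
  rw [← Finset.sum_add_distrib, Finset.sum_div]
  refine Finset.sum_congr rfl fun α hα => ?_
  have h2 := (Finset.mem_filter.mp hα).2 e he
  rw [Finset.prod_mul_distrib, Finset.prod_mul_distrib, prod_kil h2, prod_sgE_arr h2]
  split_ifs <;> ring

theorem Z6_sgE_swap {e : V × V} (he : e ∈ dE Q F) (h : V × V → ℂ) :
    Z6 Q F (fun a => h a * sgE e.swap a) = -Z6 Q F (fun a => h a * sgE e a) := by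
  unfold Z6
  rw [← Finset.sum_neg_distrib]
  refine Finset.sum_congr rfl fun α hα => ?_
  have h2 := (Finset.mem_filter.mp hα).2 e he
  have h3 := (Finset.mem_filter.mp hα).2 e.swap (swap_mem_dE.mpr he)
  rw [Finset.prod_mul_distrib, Finset.prod_mul_distrib, prod_sgE_arr h2, prod_sgE_arr h3]
  by_cases h4 : e ∈ α
  · rw [if_pos h4, if_neg (h2.mp h4)]
    ring
  · have h5 : e.swap ∈ α := by
      by_contra h6
      exact h4 (h2.mpr h6)
    rw [if_neg h4, if_pos h5]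
    ring

theorem sum_dE_swap (g : V × V → ℂ) : ∑ e ∈ dE Q F, g e.swap = ∑ e ∈ dE Q F, g e := by
  refine Finset.sum_nbij' Prod.swap Prod.swap ?_ ?_ ?_ ?_ ?_
  · intro a ha
    exact swap_mem_dE.mpr ha
  · intro a ha
    exact swap_mem_dE.mpr ha
  · intro a _
    exact Prod.swap_swap a
  · intro a _
    exact Prod.swap_swap a
  · intro a _
    rfl

/-- **`Z6D` by arrow signs**, antisymmetric `c`. -/
theorem Z6D_sgE (hc : ∀ a, c a.swap = -c a) :
    Z6D Q F h c = (∑ e ∈ dE Q F, (c e : ℂ) * Z6 Q F (fun a => h a * sgE e a)) / 2 := by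
  rw [Z6D_eq]
  have e0 : ∑ e ∈ dE Q F, (c e : ℂ) = 0 := by
    have e1 := sum_dE_swap (Q := Q) (F := F) (fun e => (c e : ℂ))
    have e2 : ∑ e ∈ dE Q F, (c e.swap : ℂ) = -∑ e ∈ dE Q F, (c e : ℂ) := by
      rw [← Finset.sum_neg_distrib]
      refine Finset.sum_congr rfl fun e _ => ?_
      rw [hc e]
      push_cast
      rfl
    rw [e2] at e1
    linear_combination (-1 / 2) * e1
  have e1 : ∀ e ∈ dE Q F, (c e : ℂ) * Z6 Q F (fun a => h a * kil e a) =
      (c e : ℂ) * (Z6 Q F h / 2) + ((c e : ℂ) * Z6 Q F (fun a => h a * sgE e a)) / 2 := by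
    intro e he
    rw [Z6_kil he]
    ring
  rw [Finset.sum_congr rfl e1, Finset.sum_add_distrib, ← Finset.sum_mul, e0, zero_mul, zero_add,
    Finset.sum_div]

/-- one direction of every side -/
theorem Z6D_half (hc : ∀ a, c a.swap = -c a) {P : Finset (V × V)} (hP : P ⊆ dE Q F)
    (hP' : ∀ a ∈ dE Q F, a ∈ P ↔ a.swap ∉ P) :
    Z6D Q F h c = ∑ e ∈ P, (c e : ℂ) * Z6 Q F (fun a => h a * sgE e a) := by
  rw [Z6D_sgE hc]
  have e1 : ∑ e ∈ dE Q F, (c e : ℂ) * Z6 Q F (fun a => h a * sgE e a) =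
      ∑ e ∈ P, (c e : ℂ) * Z6 Q F (fun a => h a * sgE e a) +
        ∑ e ∈ dE Q F \ P, (c e : ℂ) * Z6 Q F (fun a => h a * sgE e a) := by
    rw [add_comm, Finset.sum_sdiff hP]
  have e2 : ∑ e ∈ dE Q F \ P, (c e : ℂ) * Z6 Q F (fun a => h a * sgE e a) =
      ∑ e ∈ P, (c e : ℂ) * Z6 Q F (fun a => h a * sgE e a) := by
    refine Finset.sum_nbij' Prod.swap Prod.swap ?_ ?_ ?_ ?_ ?_
    · intro a ha
      obtain ⟨h1, h2⟩ := Finset.mem_sdiff.mp ha
      by_contra h3
      exact h2 ((hP' a h1).mpr h3)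
    · intro a ha
      refine Finset.mem_sdiff.mpr ⟨swap_mem_dE.mpr (hP ha), ?_⟩
      exact (hP' a (hP ha)).mp ha
    · intro a _
      exact Prod.swap_swap a
    · intro a _
      exact Prod.swap_swap a
    · intro a ha
      have h1 := (Finset.mem_sdiff.mp ha).1
      rw [hc a, Z6_sgE_swap h1]
      push_cast
      ring
  rw [e1, e2]
  ring

/-! ## The polarised identity -/

variable {ι : Type} [Fintype ι] {m : ι → V × V}

/-- the weight on the doubled complex: `h` on the first copy, `conj h'` on the second one -/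
def dblH2 (m : ι → V × V) (h h' : V × V → ℂ) (a : (V × Bool × Bool) × (V × Bool × Bool)) : ℂ :=
  if (a.1.1, a.2.1) ∈ eds m then h (a.1.1, a.2.1) * conj (h' (a.1.1, a.2.1))
  else if (a.1.2.1 || a.2.2.1) = true then conj (h' (a.1.1, a.2.1)) else h (a.1.1, a.2.1)

theorem dblH2_self (m : ι → V × V) (h : V × V → ℂ) : dblH2 m h h = dblH m h := rfl

theorem dblH2_false (h h' : V × V → ℂ) {a : V × V} (ha : a ∉ eds m) :
    dblH2 m h h' (dblA m false a) = h a := by
  unfold dblH2 dblA dblV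
  simp [ha]

theorem dblH2_true (hm : OneSided Q F m) (h h' : V × V → ℂ) {a : V × V} (ha : a ∈ dE Q F)
    (ha' : a ∉ eds m) : dblH2 m h h' (dblA m true a) = conj (h' a) := by
  unfold dblH2 dblA dblV
  have h1 : ¬ (onCut m a.1 ∧ onCut m a.2) := fun hh => ha' (mem_eds_of_onCut ha hm hh.1 hh.2)
  by_cases h2 : onCut m a.1
  · have h3 : ¬ onCut m a.2 := fun hh => h1 ⟨h2, hh⟩
    simp [ha', h2, h3]
  · simp [ha', h2]

theorem dblH2_cut (h h' : V × V → ℂ) {a : V × V} (ha : a ∈ eds m) (b : Bool) :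
    dblH2 m h h' (dblA m b a) = h a * conj (h' a) := by
  unfold dblH2 dblA dblV
  simp [ha]

theorem conj_pin (s : ι → Bool) (a : V × V) : conj (pin m s a) = pin m s a := by
  unfold pin
  split_ifs <;> simp

/-- **The polarised identity**, general weight. -/
theorem sum_polar' [DecidableEq ι] (hm : OneSided Q F m) (h h' : V × V → ℂ)
    (h2 : (V × Bool × Bool) × (V × Bool × Bool) → ℂ)
    (e0 : ∀ a ∈ eds m, h2 (dblA m false a) = h a * conj (h' a))
    (e1 : ∀ a ∈ dE Q F, a ∉ eds m → h2 (dblA m false a) = h a)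
    (e2 : ∀ a ∈ dE Q F, a ∉ eds m → h2 (dblA m true a) = conj (h' a)) :
    Z6 (dbl Q F m hm) (cpy F false ∪ cpy F true) h2 =
      ∑ s : ι → Bool, Z6 Q F (fun a => h a * pin m s a) *
        conj (Z6 Q F (fun a => h' a * pin m s a)) := by
  classical
  rw [Z6_cut (dbl Q F m hm) (cpy F false) (cpy F true) disj_cpy (fam_dblFam hm) cE_cpy h2
    (fun a => if a ∈ eds (dblFam m) then h (a.1.1, a.2.1) else h2 a)
    (fun a => if a ∈ eds (dblFam m) then conj (h' (a.1.1, a.2.1)) else h2 a)]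
  · refine Finset.sum_congr rfl fun s _ => ?_
    congr 1
    · refine Z6_cpy_false _ _ fun a ha => ?_
      rw [pin_dblA hm]
      by_cases h1 : a ∈ eds m
      · rw [if_pos ((mem_eds_dblFam false).mpr h1)]
        rfl
      · rw [if_neg (fun hh => h1 ((mem_eds_dblFam false).mp hh)), e1 a ha h1]
    · rw [conj_Z6]
      refine Z6_cpy_true _ _ fun a ha => ?_
      rw [pin_dblA hm, map_mul, conj_pin]
      by_cases h1 : a ∈ eds m
      · rw [if_pos ((mem_eds_dblFam true).mpr h1)]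
        rfl
      · rw [if_neg (fun hh => h1 ((mem_eds_dblFam true).mp hh)), e2 a ha h1]
  · intro a' ha'
    rw [if_pos ha', if_pos ha']
    obtain ⟨i, h1 | h1⟩ := mem_eds.mp ha'
    · rw [h1]
      exact e0 (m i) (mem_eds.mpr ⟨i, Or.inl rfl⟩)
    · rw [h1]
      exact e0 (m i).swap (mem_eds.mpr ⟨i, Or.inr rfl⟩)
  · intro a _ ha'
    rw [if_neg ha']
  · intro a _ ha'
    rw [if_neg ha']

/-- **The polarised identity.** -/
theorem sum_polar [DecidableEq ι] (hm : OneSided Q F m) (h h' : V × V → ℂ) :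
    Z6 (dbl Q F m hm) (cpy F false ∪ cpy F true) (dblH2 m h h') =
      ∑ s : ι → Bool, Z6 Q F (fun a => h a * pin m s a) *
        conj (Z6 Q F (fun a => h' a * pin m s a)) :=
  sum_polar' hm h h' _ (fun _ ha => dblH2_cut h h' ha false) (fun _ _ ha' => dblH2_false h h' ha')
    (fun _ ha ha' => dblH2_true hm h h' ha ha')

theorem Z6D_pin (s : ι → Bool) (h : V × V → ℂ) :
    Z6D Q F (fun a => h a * pin m s a) c =
      ∑ e ∈ dE Q F, (c e : ℂ) * Z6 Q F (fun a => h a * kil e a * pin m s a) := by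
  rw [Z6D_eq]
  refine Finset.sum_congr rfl fun e _ => ?_
  congr 2
  funext a
  ring

theorem Z6D_pin_sgE (hc : ∀ a, c a.swap = -c a) (s : ι → Bool) (h : V × V → ℂ) :
    Z6D Q F (fun a => h a * pin m s a) c =
      (∑ e ∈ dE Q F, (c e : ℂ) * Z6 Q F (fun a => h a * sgE e a * pin m s a)) / 2 := by
  rw [Z6D_sgE hc]
  congr 1
  refine Finset.sum_congr rfl fun e _ => ?_
  congr 2
  funext a
  ring

theorem Z6D_pin_half (hc : ∀ a, c a.swap = -c a) {P : Finset (V × V)} (hP : P ⊆ dE Q F)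
    (hP' : ∀ a ∈ dE Q F, a ∈ P ↔ a.swap ∉ P) (s : ι → Bool) (h : V × V → ℂ) :
    Z6D Q F (fun a => h a * pin m s a) c =
      ∑ e ∈ P, (c e : ℂ) * Z6 Q F (fun a => h a * sgE e a * pin m s a) := by
  rw [Z6D_half hc hP hP']
  refine Finset.sum_congr rfl fun e _ => ?_
  congr 2
  funext a
  ring

/-- **Two insertions**, one in each copy, by signs of one direction of every side. -/
theorem sum_Z6D [DecidableEq ι] (hm : OneSided Q F m) (hc : ∀ a, c a.swap = -c a)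
    {P : Finset (V × V)} (hP : P ⊆ dE Q F) (hP' : ∀ a ∈ dE Q F, a ∈ P ↔ a.swap ∉ P)
    (h h' : V × V → ℂ) :
    ∑ s : ι → Bool, Z6D Q F (fun a => h a * pin m s a) c *
        conj (Z6D Q F (fun a => h' a * pin m s a) c) =
      ∑ e ∈ P, ∑ e' ∈ P, (c e : ℂ) * (c e' : ℂ) *
        Z6 (dbl Q F m hm) (cpy F false ∪ cpy F true)
          (dblH2 m (fun a => h a * sgE e a) (fun a => h' a * sgE e' a)) := by
  simp_rw [sum_polar hm, Z6D_pin_half hc hP hP', map_sum, map_mul, Complex.conj_ofReal,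
    Finset.sum_mul_sum, Finset.mul_sum]
  rw [Finset.sum_comm]
  refine Finset.sum_congr rfl fun e _ => ?_
  rw [Finset.sum_comm]
  refine Finset.sum_congr rfl fun e' _ => ?_
  refine Finset.sum_congr rfl fun s _ => ?_
  ring

/-- the norm of the vector with an inserted functional -/
theorem sum_normSq_Z6D [DecidableEq ι] (hm : OneSided Q F m) (hc : ∀ a, c a.swap = -c a)
    {P : Finset (V × V)} (hP : P ⊆ dE Q F) (hP' : ∀ a ∈ dE Q F, a ∈ P ↔ a.swap ∉ P)
    (h : V × V → ℂ) :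
    ∑ s : ι → Bool, ‖Z6D Q F (fun a => h a * pin m s a) c‖ ^ 2 =
      (∑ e ∈ P, ∑ e' ∈ P, (c e : ℂ) * (c e' : ℂ) *
        Z6 (dbl Q F m hm) (cpy F false ∪ cpy F true)
          (dblH2 m (fun a => h a * sgE e a) (fun a => h a * sgE e' a))).re := by
  rw [← sum_Z6D hm hc hP hP', Complex.re_sum]
  refine Finset.sum_congr rfl fun s _ => ?_
  rw [Complex.mul_conj, Complex.normSq_eq_norm_sq, Complex.ofReal_re]

/-! ## The cut -/

theorem sum_norm_revFam [DecidableEq ι] (hm : Fam m) (g : (V × V → ℂ) → ℂ) :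
    ∑ s : ι → Bool, ‖g (pin (revFam m) s)‖ ^ 2 = ∑ s : ι → Bool, ‖g (pin m s)‖ ^ 2 := by
  symm
  refine Finset.sum_bij (fun s _ => fun i => !s i) (fun _ _ => Finset.mem_univ _) ?_ ?_ ?_
  · intro s _ s' _ e
    funext i
    have := congrFun e i
    simpa using this
  · intro s _
    exact ⟨fun i => !s i, Finset.mem_univ _, by funext i; simp⟩
  · intro s _
    have e1 : pin (revFam m) (fun i => !s i) = pin m s := funext fun a => pin_revFam hm s a
    rw [e1]

/-- **Cutting an inserted sum**, `c` supported in `F₂`. -/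
theorem Z6D_cut [DecidableEq ι] (hd : Disjoint F₁ F₂) (hm : Fam m) (hcE : cE Q F₁ F₂ = eds m)
    (h₁ h₂ : V × V → ℂ)
    (e0 : ∀ a ∈ eds m, h a = h₁ a * h₂ a)
    (e1 : ∀ a ∈ dE Q F₁, a ∉ eds m → h₁ a = h a)
    (e2 : ∀ a ∈ dE Q F₂, a ∉ eds m → h₂ a = h a)
    (hc : ∀ a, c a ≠ 0 → a ∈ dE Q F₂ ∧ a ∉ dE Q F₁) :
    Z6D Q (F₁ ∪ F₂) h c = ∑ s : ι → Bool, Z6 Q F₁ (fun a => h₁ a * pin m s a) *
      Z6D Q F₂ (fun a => h₂ a * pin m s a) c := by
  have key : ∀ e, c e ≠ 0 → Z6 Q (F₁ ∪ F₂) (fun a => h a * kil e a) =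
      ∑ s : ι → Bool, Z6 Q F₁ (fun a => h₁ a * pin m s a) *
        Z6 Q F₂ (fun a => h₂ a * kil e a * pin m s a) := by
    intro e he
    obtain ⟨h2, h3⟩ := hc e he
    rw [Z6_cut Q F₁ F₂ hd hm hcE (fun a => h a * kil e a) h₁ (fun a => h₂ a * kil e a)]
    · intro a ha
      rw [e0 a ha]
      ring
    · intro a ha ha'
      rw [kil_off ha h3, e1 a ha ha']
      ring
    · intro a ha ha'
      rw [e2 a ha ha']
  rw [Z6D_eq]
  simp_rw [← smul_eq_mul (c _ : ℂ)]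
  rw [sum_supp dE_sub_right (fun a ha => (hc a ha).1) _ _ key]
  simp_rw [Finset.smul_sum]
  rw [Finset.sum_comm]
  refine Finset.sum_congr rfl fun s _ => ?_
  rw [Z6D_pin, Finset.mul_sum]
  refine Finset.sum_congr rfl fun e _ => ?_
  rw [smul_eq_mul]
  ring

/-- **Cut-and-mirror inequality with an insertion in `F₂`.** -/
theorem cut_Z6D [DecidableEq ι] (hd : Disjoint F₁ F₂) (hm : Fam m) (hcE : cE Q F₁ F₂ = eds m)
    (h₁ h₂ : V × V → ℂ)
    (e0 : ∀ a ∈ eds m, h a = h₁ a * h₂ a)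
    (e1 : ∀ a ∈ dE Q F₁, a ∉ eds m → h₁ a = h a)
    (e2 : ∀ a ∈ dE Q F₂, a ∉ eds m → h₂ a = h a)
    (hc : ∀ a, c a ≠ 0 → a ∈ dE Q F₂ ∧ a ∉ dE Q F₁) :
    ‖Z6D Q (F₁ ∪ F₂) h c‖ ^ 2 ≤ (∑ s : ι → Bool, ‖Z6 Q F₁ (fun a => h₁ a * pin m s a)‖ ^ 2) *
      ∑ s : ι → Bool, ‖Z6D Q F₂ (fun a => h₂ a * pin m s a) c‖ ^ 2 := by
  rw [Z6D_cut hd hm hcE h₁ h₂ e0 e1 e2 hc]
  calc ‖∑ s : ι → Bool, Z6 Q F₁ (fun a => h₁ a * pin m s a) *
        Z6D Q F₂ (fun a => h₂ a * pin m s a) c‖ ^ 2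
      ≤ (∑ s : ι → Bool, ‖Z6 Q F₁ (fun a => h₁ a * pin m s a)‖ *
          ‖Z6D Q F₂ (fun a => h₂ a * pin m s a) c‖) ^ 2 := by
        gcongr
        refine (norm_sum_le _ _).trans (le_of_eq ?_)
        exact Finset.sum_congr rfl fun s _ => norm_mul _ _
    _ ≤ _ := Finset.sum_mul_sq_le_sq_mul_sq _ _ _

end

end Pool.Agent.SixB
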