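import Pool.Agent.Lib.SixB.S3Defs
import Pool.Agent.Lib.SixB.S4A

/-!
# 6BD step 3: the base sheet of an environment

`E : SEnv`, `F' ⊆ E.F` any set of faces.
* `nb f k`: the face across the side `k`; `upM`, `loM`: the side `k` of `f` lies in the upper / lower mouth.
* `cor_base`, `cor_pk`: the corners of the faces of the base and of the pockets.
* `base_bS`: the boundary sides of the base faces; `base_Z`: the island sides among them.
* `baseP`: chart of a planar set of base faces.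
* `psi_up`, `psi_lo`: the phases of the sides of the blocks; `ph_up0` .. `ph_lo3`, `Hst0` .. `Hst5`: closed forms.
-/

set_option autoImplicit false
set_option linter.unusedSectionVars false

namespace Pool.Agent.SixB.EnvB

open Pool.Agent.Perc.Q Pool.Agent.Perc Pool.Agent.SixB.Tilt

noncomputable section

/-! ## The plane -/

theorem k4 (k : ZMod 4) : k = 0 ∨ k = 1 ∨ k = 2 ∨ k = 3 := by
  revert k; decide

theorem sd0 (f : ℤ × ℤ) : sd ZQ f 0 = ((f.1, f.2), (f.1 + 1, f.2)) := rfl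

theorem sd1 (f : ℤ × ℤ) : sd ZQ f 1 = ((f.1 + 1, f.2), (f.1 + 1, f.2 + 1)) := rfl

theorem sd2 (f : ℤ × ℤ) : sd ZQ f 2 = ((f.1 + 1, f.2 + 1), (f.1, f.2 + 1)) := rfl

theorem sd3 (f : ℤ × ℤ) : sd ZQ f 3 = ((f.1, f.2 + 1), (f.1, f.2)) := rfl

/-- the face across a side -/
def nb (f : ℤ × ℤ) (k : ZMod 4) : ℤ × ℤ :=
  if k = 0 then (f.1, f.2 - 1) else if k = 1 then (f.1 + 1, f.2) else
    if k = 2 then (f.1, f.2 + 1) else (f.1 - 1, f.2)

@[simp] theorem nb0 (f : ℤ × ℤ) : nb f 0 = (f.1, f.2 - 1) := rfl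

@[simp] theorem nb1 (f : ℤ × ℤ) : nb f 1 = (f.1 + 1, f.2) := rfl

@[simp] theorem nb2 (f : ℤ × ℤ) : nb f 2 = (f.1, f.2 + 1) := rfl

@[simp] theorem nb3 (f : ℤ × ℤ) : nb f 3 = (f.1 - 1, f.2) := rfl

theorem c_nb1 (f : ℤ × ℤ) (k : ZMod 4) : ZQ.c (nb f k) (k + 3) = ZQ.c f k := by
  obtain ⟨u, v⟩ := f
  rcases k4 k with rfl | rfl | rfl | rfl
  · change (u, v - 1 + 1) = (u, v)
    rw [sub_add_cancel]
  · rfl
  · rfl
  · change (u - 1 + 1, v + 1) = (u, v + 1)
    rw [sub_add_cancel]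

theorem c_nb2 (f : ℤ × ℤ) (k : ZMod 4) : ZQ.c (nb f k) (k + 2) = ZQ.c f (k + 1) := by
  obtain ⟨u, v⟩ := f
  rcases k4 k with rfl | rfl | rfl | rfl
  · change (u + 1, v - 1 + 1) = (u + 1, v)
    rw [sub_add_cancel]
  · rfl
  · rfl
  · change (u - 1 + 1, v) = (u, v)
    rw [sub_add_cancel]

theorem sd_swap (f : ℤ × ℤ) (k : ZMod 4) : (sd ZQ f k).swap = sd ZQ (nb f k) (k + 2) := by
  have h : k + 2 + 1 = k + 3 := by ring
  unfold sd
  rw [c_nb2, h, c_nb1]
  rfl

theorem sd_swap_iff {f g : ℤ × ℤ} {k l : ZMod 4} :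
    (sd ZQ f k).swap = sd ZQ g l ↔ g = nb f k ∧ l = k + 2 := by
  rw [sd_swap]
  constructor
  · intro h
    have h1 := ZQ.inj (Prod.mk.inj h).1 (Prod.mk.inj h).2
    exact ⟨h1.1.symm, h1.2.symm⟩
  · rintro ⟨rfl, rfl⟩
    rfl

/-! ## Corners -/

variable {E : SEnv} {f g : ℤ × ℤ} {k l : ZMod 4} {F' : Finset (Option Bool × (ℤ × ℤ))}

/-- the mouths of the environment -/
def mu (E : SEnv) (i : Bool) : Mouth := if i then E.gu.mouth true else E.gd.mouth false

theorem adj_up : (mu E true).adj f k ↔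
    (E.gu.x1 ≤ f.1 ∧ f.1 < E.gu.x2) ∧ f.2 = E.gu.yc + E.gu.a ∧ (k = 0 ∨ k = 1) := by
  unfold mu Mouth.adj BGeo.mouth
  simp only [if_true, true_and, Bool.true_eq_false, false_and, or_false]
  tauto

theorem adj_lo : (mu E false).adj f k ↔
    (E.gd.x1 ≤ f.1 ∧ f.1 < E.gd.x2) ∧ f.2 + 1 = E.gd.yc - E.gd.a ∧ (k = 2 ∨ k = 3) := by
  unfold mu Mouth.adj BGeo.mouth
  simp only [Bool.false_eq_true, if_false, false_and, true_and, false_or]
  tauto

theorem adj_uniq {i j : Bool} (h : (mu E i).adj f k) (h' : (mu E j).adj f k) : i = j := by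
  cases i <;> cases j <;> first | rfl | skip
  · rw [adj_lo] at h
    rw [adj_up] at h'
    rcases h.2.2 with h1 | h1 <;> rcases h'.2.2 with h2 | h2 <;> rw [h1] at h2 <;>
      exact absurd h2 (by decide)
  · rw [adj_up] at h
    rw [adj_lo] at h'
    rcases h.2.2 with h1 | h1 <;> rcases h'.2.2 with h2 | h2 <;> rw [h1] at h2 <;>
      exact absurd h2 (by decide)

theorem msig_of {i : Bool} (h : (mu E i).adj f k) : msig (mu E) f k = Equiv.swap none (some i) := by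
  have h1 : ∃ i, (mu E i).adj f k := ⟨i, h⟩
  unfold msig
  rw [dif_pos h1, adj_uniq h1.choose_spec h]
  congr
  exact Subsingleton.elim _ _

theorem msig_not (h : ∀ i, ¬ (mu E i).adj f k) : msig (mu E) f k = 1 := by
  unfold msig
  rw [dif_neg]
  rintro ⟨i, hi⟩
  exact h i hi

/-- the blocks are not empty -/
structure Thk (E : SEnv) : Prop where
  au : E.gu.a < E.gu.c
  ad : E.gd.a < E.gd.c

theorem Q_c (s : Option Bool) (f : ℤ × ℤ) (k : ZMod 4) :
    E.Q.c (s, f) k = (msig (mu E) f k s, ZQ.c f k) := rfl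

theorem mem_base : f ∈ E.base ↔ f ∈ E.W ∧ ¬ E.gu.solid true f ∧ ¬ E.gd.solid false f := by
  unfold SEnv.base
  rw [Finset.mem_filter]

theorem mem_F {x : Option Bool × (ℤ × ℤ)} : x ∈ E.F ↔
    (x.1 = none ∧ x.2 ∈ E.base) ∨ (x.1 = some true ∧ x.2 ∈ E.U) ∨ (x.1 = some false ∧ x.2 ∈ E.L) := by
  obtain ⟨s, f⟩ := x
  unfold SEnv.F
  simp only [Finset.mem_union, Finset.mem_image, Prod.mk.injEq]
  constructor
  · rintro ((⟨g, h, rfl, rfl⟩ | ⟨g, h, rfl, rfl⟩) | ⟨g, h, rfl, rfl⟩)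
    · exact Or.inl ⟨rfl, h⟩
    · exact Or.inr (Or.inl ⟨rfl, h⟩)
    · exact Or.inr (Or.inr ⟨rfl, h⟩)
  · rintro (⟨rfl, h⟩ | ⟨rfl, h⟩ | ⟨rfl, h⟩)
    · exact Or.inl (Or.inl ⟨f, h, rfl, rfl⟩)
    · exact Or.inl (Or.inr ⟨f, h, rfl, rfl⟩)
    · exact Or.inr ⟨f, h, rfl, rfl⟩

theorem mem_F_none : (none, f) ∈ E.F ↔ f ∈ E.base := by
  rw [mem_F]
  simp

theorem mem_F_up : (some true, f) ∈ E.F ↔ f ∈ E.U := by
  rw [mem_F]
  simp

theorem mem_F_lo : (some false, f) ∈ E.F ↔ f ∈ E.L := by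
  rw [mem_F]
  simp

theorem adj_solid (hE : Thk E) {i : Bool} (h : (mu E i).adj f k) :
    E.gu.solid true f ∨ E.gd.solid false f := by
  have h1 := hE.au
  have h2 := hE.ad
  cases i
  · right
    rw [adj_lo] at h
    unfold BGeo.solid BGeo.hgt BGeo.cham
    simp only [Bool.false_eq_true, if_false]
    omega
  · left
    rw [adj_up] at h
    unfold BGeo.solid BGeo.hgt BGeo.cham
    simp only [if_true]
    omega

theorem msig_base (hE : Thk E) (hf : f ∈ E.base) (k : ZMod 4) : msig (mu E) f k = 1 := by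
  refine msig_not fun i hi => ?_
  have h := (mem_base.mp hf).2
  rcases adj_solid hE hi with h1 | h1
  · exact h.1 h1
  · exact h.2 h1

/-- corners of base faces -/
theorem cor_base (hE : Thk E) (hf : f ∈ E.base) (k : ZMod 4) :
    E.Q.c (none, f) k = (none, ZQ.c f k) := by
  rw [Q_c, msig_base hE hf]
  rfl

theorem sd_base (hE : Thk E) (hf : f ∈ E.base) (k : ZMod 4) :
    sd E.Q (none, f) k = ((none, (sd ZQ f k).1), (none, (sd ZQ f k).2)) := by
  unfold sd
  rw [cor_base hE hf, cor_base hE hf]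

open Classical in
/-- corners of the faces of the pockets -/
theorem cor_pk (i : Bool) (f : ℤ × ℤ) (k : ZMod 4) :
    E.Q.c (some i, f) k = (if (mu E i).adj f k then none else some i, ZQ.c f k) := by
  rw [Q_c]
  by_cases h : (mu E i).adj f k
  · rw [if_pos h, msig_of h, Equiv.swap_apply_right]
  · rw [if_neg h]
    by_cases h' : ∃ j, (mu E j).adj f k
    · obtain ⟨j, hj⟩ := h'
      have hij : j ≠ i := fun e => h (e ▸ hj)
      rw [msig_of hj, Equiv.swap_apply_of_ne_of_ne (by simp) (by simpa using hij.symm)]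
    · push Not at h'
      rw [msig_not h']
      rfl

/-! ## Boundary sides of the base faces -/

/-- the side `k` of the base face `f` lies in the upper mouth -/
def upM (E : SEnv) (f : ℤ × ℤ) (k : ZMod 4) : Prop :=
  k = 2 ∧ (E.gu.x1 ≤ f.1 ∧ f.1 < E.gu.x2) ∧ f.2 + 1 = E.gu.yc + E.gu.a

/-- the side `k` of the base face `f` lies in the lower mouth -/
def loM (E : SEnv) (f : ℤ × ℤ) (k : ZMod 4) : Prop :=
  k = 0 ∧ (E.gd.x1 ≤ f.1 ∧ f.1 < E.gd.x2) ∧ f.2 = E.gd.yc - E.gd.a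

theorem up_iff : ((mu E true).adj (nb f k) (k + 3) ∧ (mu E true).adj (nb f k) (k + 2)) ↔
    upM E f k := by
  rw [adj_up, adj_up]
  unfold upM
  constructor
  · rintro ⟨⟨h1, h2, h3⟩, -, -, h4⟩
    have hk : k = 2 := by
      revert h3 h4
      generalize k = k
      revert k
      decide
    subst hk
    exact ⟨rfl, h1, h2⟩
  · rintro ⟨rfl, h1, h2⟩
    exact ⟨⟨h1, h2, by decide⟩, h1, h2, by decide⟩

theorem lo_iff : ((mu E false).adj (nb f k) (k + 3) ∧ (mu E false).adj (nb f k) (k + 2)) ↔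
    loM E f k := by
  rw [adj_lo, adj_lo]
  unfold loM
  constructor
  · rintro ⟨⟨h1, h2, h3⟩, -, -, h4⟩
    have hk : k = 0 := by
      revert h3 h4
      generalize k = k
      revert k
      decide
    subst hk
    refine ⟨rfl, h1, ?_⟩
    rw [nb0] at h2
    simp only at h2
    omega
  · rintro ⟨rfl, h1, h2⟩
    have h3 : (nb f 0).2 + 1 = E.gd.yc - E.gd.a := by
      rw [nb0]
      simp only
      omega
    exact ⟨⟨h1, h3, by decide⟩, h1, h3, by decide⟩

/-- the other side of the side `k` of a base face -/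
theorem swap_base (hE : Thk E) (hf : f ∈ E.base) {s : Option Bool} :
    (sd E.Q (none, f) k).swap = sd E.Q (s, g) l ↔
      g = nb f k ∧ l = k + 2 ∧ ((s = none ∧ ∀ i, ¬ (mu E i).adj (nb f k) (k + 3) ∧
        ¬ (mu E i).adj (nb f k) (k + 2)) ∨ (s = some true ∧ upM E f k) ∨
          (s = some false ∧ loM E f k)) := by
  classical
  have e3 : k + 2 + 1 = k + 3 := by ring
  rw [sd_base hE hf]
  constructor
  · intro h
    have h1 : (sd ZQ f k).swap = sd ZQ g l := by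
      have h2 := (Prod.mk.inj h).1
      have h3 := (Prod.mk.inj h).2
      exact Prod.ext (Prod.mk.inj h2).2 (Prod.mk.inj h3).2
    obtain ⟨rfl, rfl⟩ := sd_swap_iff.mp h1
    refine ⟨rfl, rfl, ?_⟩
    have h2 : (none : Option Bool) = msig (mu E) (nb f k) (k + 2) s := (Prod.mk.inj (Prod.mk.inj h).1).1
    have h3 : (none : Option Bool) = msig (mu E) (nb f k) (k + 2 + 1) s :=
      (Prod.mk.inj (Prod.mk.inj h).2).1
    rw [e3] at h3
    have key : ∀ l' : ZMod 4, (none : Option Bool) = msig (mu E) (nb f k) l' s →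
        (s = none ∧ ∀ i, ¬ (mu E i).adj (nb f k) l') ∨ ∃ i, s = some i ∧ (mu E i).adj (nb f k) l' := by
      intro l' h4
      by_cases h5 : ∃ j, (mu E j).adj (nb f k) l'
      · obtain ⟨j, hj⟩ := h5
        rw [msig_of hj] at h4
        right
        refine ⟨j, ?_, hj⟩
        have h6 := congrArg (Equiv.swap none (some j)) h4
        rw [Equiv.swap_apply_self, Equiv.swap_apply_left] at h6
        exact h6.symm
      · push Not at h5
        left
        rw [msig_not h5] at h4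
        exact ⟨h4.symm, h5⟩
    rcases key _ h2 with ⟨h4, h5⟩ | ⟨i, h4, h5⟩
    · rcases key _ h3 with ⟨-, h6⟩ | ⟨j, h6, -⟩
      · exact Or.inl ⟨h4, fun i => ⟨h6 i, h5 i⟩⟩
      · rw [h4] at h6
        exact absurd h6 (by simp)
    · rcases key _ h3 with ⟨h6, -⟩ | ⟨j, h6, h7⟩
      · rw [h4] at h6
        exact absurd h6 (by simp)
      · have hij : i = j := by
          rw [h4] at h6
          exact Option.some.inj h6
        subst hij
        cases i
        · exact Or.inr (Or.inr ⟨h4, lo_iff.mp ⟨h7, h5⟩⟩)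
        · exact Or.inr (Or.inl ⟨h4, up_iff.mp ⟨h7, h5⟩⟩)
  · rintro ⟨rfl, rfl, h⟩
    have h0 : ∀ s' : Option Bool, sd E.Q (s', nb f k) (k + 2) =
        ((msig (mu E) (nb f k) (k + 2) s', ZQ.c f (k + 1)),
          (msig (mu E) (nb f k) (k + 3) s', ZQ.c f k)) := by
      intro s'
      unfold sd
      rw [Q_c, Q_c, e3, c_nb1, c_nb2]
    rw [h0]
    rcases h with ⟨rfl, h1⟩ | ⟨rfl, h1⟩ | ⟨rfl, h1⟩
    · rw [msig_not fun i => (h1 i).1, msig_not fun i => (h1 i).2]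
      rfl
    · obtain ⟨h2, h3⟩ := up_iff.mpr h1
      rw [msig_of h2, msig_of h3, Equiv.swap_apply_right]
      rfl
    · obtain ⟨h2, h3⟩ := lo_iff.mpr h1
      rw [msig_of h2, msig_of h3, Equiv.swap_apply_right]
      rfl

/-- **Boundary sides of the base faces.** -/
theorem base_bS (hE : Thk E) (hF : F' ⊆ E.F) (hf : (none, f) ∈ F') (k : ZMod 4) :
    sd E.Q (none, f) k ∈ bS E.Q F' ↔ (none, nb f k) ∉ F' ∧
      ¬ (upM E f k ∧ (some true, nb f k) ∈ F') ∧ ¬ (loM E f k ∧ (some false, nb f k) ∈ F') := by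
  have hfb : f ∈ E.base := mem_F_none.mp (hF hf)
  rw [mem_bS_ah]
  constructor
  · rintro ⟨-, h⟩
    refine ⟨fun h1 => h ⟨_, h1, k + 2, ?_⟩, fun h1 => h ⟨_, h1.2, k + 2, ?_⟩,
      fun h1 => h ⟨_, h1.2, k + 2, ?_⟩⟩
    · rw [swap_base hE hfb]
      refine ⟨rfl, rfl, Or.inl ⟨rfl, fun i => ?_⟩⟩
      have h2 := (mem_base.mp (mem_F_none.mp (hF h1))).2
      constructor <;> intro h3 <;> rcases adj_solid hE h3 with h4 | h4
      · exact h2.1 h4
      · exact h2.2 h4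
      · exact h2.1 h4
      · exact h2.2 h4
    · rw [swap_base hE hfb]
      exact ⟨rfl, rfl, Or.inr (Or.inl ⟨rfl, h1.1⟩)⟩
    · rw [swap_base hE hfb]
      exact ⟨rfl, rfl, Or.inr (Or.inr ⟨rfl, h1.1⟩)⟩
  · rintro ⟨h1, h2, h3⟩
    refine ⟨⟨(none, f), hf, k, rfl⟩, ?_⟩
    rintro ⟨⟨s, g⟩, hg, l, hl⟩
    rw [swap_base hE hfb] at hl
    obtain ⟨rfl, rfl, h4⟩ := hl
    rcases h4 with ⟨rfl, -⟩ | ⟨rfl, h5⟩ | ⟨rfl, h5⟩
    · exact h1 hg
    · exact h2 ⟨h5, hg⟩
    · exact h3 ⟨h5, hg⟩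

/-- the base faces inside `F'` next to a face which is missing, off the mouths -/
theorem base_bS_of (hE : Thk E) (hF : F' ⊆ E.F) (hf : (none, f) ∈ F') (h : nb f k ∉ E.base)
    (hu : ¬ upM E f k) (hl : ¬ loM E f k) : sd E.Q (none, f) k ∈ bS E.Q F' :=
  (base_bS hE hF hf k).mpr ⟨fun h1 => h (mem_F_none.mp (hF h1)), fun h1 => hu h1.1,
    fun h1 => hl h1.1⟩

theorem mem_Z {s : (Option Bool × (ℤ × ℤ)) × (Option Bool × (ℤ × ℤ))} :
    s ∈ E.Z ↔ s ∈ bS E.Q E.F ∧ (s.1.1 ≠ none ∨ s.2.1 ≠ none ∨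
      ∃ f, (E.gu.solid true f ∨ E.gd.solid false f) ∧ ∃ k, SEnv.pl s = (sd ZQ f k).swap) := by
  classical
  unfold SEnv.Z
  rw [Finset.mem_filter]

theorem swap_inj_iff {f g : ℤ × ℤ} {k l : ZMod 4} :
    sd ZQ f k = (sd ZQ g l).swap ↔ g = nb f k ∧ l = k + 2 := by
  rw [← sd_swap_iff]
  constructor
  · intro h
    rw [h, Prod.swap_swap]
  · intro h
    rw [← h, Prod.swap_swap]

/-- **The island sides of the base faces.** -/
theorem base_Z (hE : Thk E) (hf : f ∈ E.base) (k : ZMod 4) :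
    sd E.Q (none, f) k ∈ E.Z ↔ (E.gu.solid true (nb f k) ∨ E.gd.solid false (nb f k)) ∧
      ¬ (upM E f k ∧ nb f k ∈ E.U) ∧ ¬ (loM E f k ∧ nb f k ∈ E.L) := by
  rw [mem_Z, base_bS hE (Finset.Subset.refl _) (mem_F_none.mpr hf), mem_F_none, mem_F_up, mem_F_lo,
    sd_base hE hf]
  constructor
  · rintro ⟨⟨-, h1, h2⟩, h3⟩
    refine ⟨?_, h1, h2⟩
    rcases h3 with h3 | h3 | ⟨g, hg, l, h3⟩
    · exact absurd rfl h3
    · exact absurd rfl h3
    · have h4 : sd ZQ f k = (sd ZQ g l).swap := h3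
      obtain ⟨rfl, -⟩ := swap_inj_iff.mp h4
      exact hg
  · rintro ⟨h1, h2, h3⟩
    refine ⟨⟨fun h4 => ?_, h2, h3⟩, Or.inr (Or.inr ⟨nb f k, h1, k + 2, ?_⟩)⟩
    · have h5 := (mem_base.mp h4).2
      rcases h1 with h6 | h6
      · exact h5.1 h6
      · exact h5.2 h6
    · exact swap_inj_iff.mpr ⟨rfl, rfl⟩

/-- the island sides are sides of base faces or of pocket faces -/
theorem Z_cases {s : (Option Bool × (ℤ × ℤ)) × (Option Bool × (ℤ × ℤ))} (hs : s ∈ E.Z) :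
    (∃ f ∈ E.base, ∃ k, s = sd E.Q (none, f) k) ∨ (∃ f ∈ E.U, ∃ k, s = sd E.Q (some true, f) k) ∨
      ∃ f ∈ E.L, ∃ k, s = sd E.Q (some false, f) k := by
  obtain ⟨⟨x, f⟩, hx, k, rfl⟩ := (mem_bS_ah.mp (mem_Z.mp hs).1).1
  rcases mem_F.mp hx with ⟨h1, h2⟩ | ⟨h1, h2⟩ | ⟨h1, h2⟩
  · simp only at h1 h2
    subst h1
    exact Or.inl ⟨f, h2, k, rfl⟩
  · simp only at h1 h2
    subst h1
    exact Or.inr (Or.inl ⟨f, h2, k, rfl⟩)
  · simp only at h1 h2
    subst h1
    exact Or.inr (Or.inr ⟨f, h2, k, rfl⟩)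

/-- chart of a planar set of base faces -/
def baseP (hE : Thk E) (hF : F' ⊆ E.F) (R : Finset (ℤ × ℤ)) (hR : ∀ f ∈ R, (none, f) ∈ F') :
    PChart E.Q F' R where
  φV := fun w => (none, w)
  φF := fun f => (none, f)
  cor := fun f hf k => cor_base hE (mem_F_none.mp (hF (hR f hf))) k
  inj := fun _ _ _ _ _ _ h => (Prod.mk.inj h).2
  sub := hR

theorem baseP_side (hE : Thk E) (hF : F' ⊆ E.F) (R : Finset (ℤ × ℤ))
    (hR : ∀ f ∈ R, (none, f) ∈ F') (hf : f ∈ E.base) :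
    (baseP hE hF R hR).side (sd ZQ f k) = sd E.Q (none, f) k := by
  rw [sd_base hE hf]
  rfl

/-! ## Phases -/

variable {m ρ mu ρu ml ρl : ℝ} {ψu ψl : (ℤ × ℤ) × (ℤ × ℤ) → ℝ} {G : BGeo} {x : ℤ}

/-- phases of the sides of base faces at the upper block -/
theorem psi_up (hE : Thk E) (hf : f ∈ E.base) (h : E.gu.yc ≤ f.2) (k : ZMod 4) :
    E.psi mu ρu ml ρl ψu ψl (sd E.Q (none, f) k) = E.gu.ph true mu ρu (sd ZQ f k) := by
  rw [sd_base hE hf]
  unfold SEnv.psi
  rw [if_neg (by simp), if_neg (by simp), if_pos]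
  · rfl
  · rcases k4 k with rfl | rfl | rfl | rfl
    · rw [sd0]; simp only; omega
    · rw [sd1]; simp only; omega
    · rw [sd2]; simp only; omega
    · rw [sd3]; simp only; omega

/-- the upper sides of the base faces below the centre line -/
theorem psi_lo2 (hE : Thk E) (hf : f ∈ E.base) (h : f.2 + 1 < E.gu.yc) :
    E.psi mu ρu ml ρl ψu ψl (sd E.Q (none, f) 2) = E.gd.ph false ml ρl (sd ZQ f 2) := by
  rw [sd_base hE hf]
  unfold SEnv.psi
  rw [if_neg (by simp), if_neg (by simp), if_neg]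
  · rfl
  · rw [sd2]; simp only; omega

/-- phases of the sides of base faces at the lower block -/
theorem psi_lo (hE : Thk E) (hf : f ∈ E.base) (h : f.2 < E.gu.yc) {k : ZMod 4} (hk : k ≠ 2) :
    E.psi mu ρu ml ρl ψu ψl (sd E.Q (none, f) k) = E.gd.ph false ml ρl (sd ZQ f k) := by
  rw [sd_base hE hf]
  unfold SEnv.psi
  rw [if_neg (by simp), if_neg (by simp), if_neg]
  · rfl
  · rcases k4 k with rfl | rfl | rfl | rfl
    · rw [sd0]; simp only; omega
    · rw [sd1]; simp only; omega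
    · exact absurd rfl hk
    · rw [sd3]; simp only; omega

/-- the constant part of the phases of a block -/
def cst (m ρ : ℝ) : ℝ := ρ + BGeo.alpha m + BGeo.sig m - Real.pi / 12

/-- the phase of the top of the upper block -/
def top (m : ℝ) : ℝ := -2 * BGeo.alpha m - 2 * BGeo.sig m + m + Real.pi / 6 + BGeo.out m / 2

theorem ph_up0 : G.ph true m ρ (sd ZQ f 0) = cst m ρ + top m := by
  unfold BGeo.ph BGeo.blkPh cst top
  rw [if_pos rfl, sd0, if_neg, if_pos rfl]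
  simp only [Prod.mk.injEq, and_true]
  omega

theorem ph_up1 : G.ph true m ρ (sd ZQ f 1) = cst m ρ + (G.Hst m f.1 + Real.pi / 12) := by
  unfold BGeo.ph BGeo.blkPh cst
  rw [if_pos rfl, sd1, if_neg, if_neg, if_pos rfl, add_sub_cancel_right]
  · simp only [Prod.mk.injEq]; omega
  · simp only [Prod.mk.injEq]; omega

theorem ph_up2 : G.ph true m ρ (sd ZQ f 2) = cst m ρ + G.Hst m f.1 := by
  unfold BGeo.ph BGeo.blkPh cst
  rw [if_pos rfl, sd2, if_pos]
  simp only [Prod.mk.injEq, and_true]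
  omega

theorem ph_up3 : G.ph true m ρ (sd ZQ f 3) = cst m ρ + (G.Hst m f.1 - Real.pi / 12) := by
  unfold BGeo.ph BGeo.blkPh cst
  rw [if_pos rfl, sd3, if_neg, if_neg, if_neg]
  · simp only [Prod.mk.injEq]; omega
  · simp only [Prod.mk.injEq]; omega
  · simp only [Prod.mk.injEq]; omega

/-- the column of the rotated face -/
def rx (G : BGeo) (x : ℤ) : ℤ := G.x1 + G.x2 - 1 - x

theorem blk_left (p q : ℤ) : G.blkPh m ((p + 1, q), (p, q)) = G.Hst m p := by
  unfold BGeo.blkPh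
  rw [if_pos]
  simp only [Prod.mk.injEq, and_true]
  omega

theorem blk_right (p q : ℤ) : G.blkPh m ((p, q), (p + 1, q)) = top m := by
  unfold BGeo.blkPh top
  rw [if_neg, if_pos rfl]
  simp only [Prod.mk.injEq, and_true]
  omega

theorem blk_up (p q : ℤ) : G.blkPh m ((p + 1, q), (p + 1, q + 1)) = G.Hst m p + Real.pi / 12 := by
  unfold BGeo.blkPh
  rw [if_neg, if_neg, if_pos rfl]
  · simp only [add_sub_cancel_right]
  · simp only [Prod.mk.injEq]; omega
  · simp only [Prod.mk.injEq]; omega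

theorem blk_down (p q : ℤ) : G.blkPh m ((p, q + 1), (p, q)) = G.Hst m p - Real.pi / 12 := by
  unfold BGeo.blkPh
  rw [if_neg, if_neg, if_neg]
  · simp only [Prod.mk.injEq]; omega
  · simp only [Prod.mk.injEq]; omega
  · simp only [Prod.mk.injEq]; omega

theorem ph_lo0 : G.ph false m ρ (sd ZQ f 0) = cst m ρ + G.Hst m (rx G f.1) := by
  rw [← blk_left (rx G f.1) (2 * G.yc - f.2)]
  change cst m ρ + G.blkPh m ((G.x1 + G.x2 - f.1, 2 * G.yc - f.2),
    (G.x1 + G.x2 - (f.1 + 1), 2 * G.yc - f.2)) = _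
  unfold rx
  exact congrArg (fun s => cst m ρ + G.blkPh m s)
    (Prod.ext (Prod.ext (by ring) (by ring))
      (Prod.ext (by ring) (by ring)))

theorem ph_lo1 : G.ph false m ρ (sd ZQ f 1) =
    cst m ρ + (G.Hst m (rx G f.1) - Real.pi / 12) := by
  rw [← blk_down (rx G f.1) (2 * G.yc - (f.2 + 1))]
  change cst m ρ + G.blkPh m ((G.x1 + G.x2 - (f.1 + 1), 2 * G.yc - f.2),
    (G.x1 + G.x2 - (f.1 + 1), 2 * G.yc - (f.2 + 1))) = _
  unfold rx
  exact congrArg (fun s => cst m ρ + G.blkPh m s)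
    (Prod.ext (Prod.ext (by ring) (by ring))
      (Prod.ext (by ring) (by ring)))

theorem ph_lo2 : G.ph false m ρ (sd ZQ f 2) = cst m ρ + top m := by
  rw [← blk_right (rx G f.1) (2 * G.yc - (f.2 + 1))]
  change cst m ρ + G.blkPh m ((G.x1 + G.x2 - (f.1 + 1), 2 * G.yc - (f.2 + 1)),
    (G.x1 + G.x2 - f.1, 2 * G.yc - (f.2 + 1))) = _
  unfold rx
  exact congrArg (fun s => cst m ρ + G.blkPh m s)
    (Prod.ext (Prod.ext (by ring) (by ring))
      (Prod.ext (by ring) (by ring)))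

theorem ph_lo3 : G.ph false m ρ (sd ZQ f 3) =
    cst m ρ + (G.Hst m (rx G f.1) + Real.pi / 12) := by
  rw [← blk_up (rx G f.1) (2 * G.yc - (f.2 + 1))]
  change cst m ρ + G.blkPh m ((G.x1 + G.x2 - f.1, 2 * G.yc - (f.2 + 1)),
    (G.x1 + G.x2 - f.1, 2 * G.yc - f.2)) = _
  unfold rx
  exact congrArg (fun s => cst m ρ + G.blkPh m s)
    (Prod.ext (Prod.ext (by ring) (by ring))
      (Prod.ext (by ring) (by ring)))

/-! ### The six values of the phase of the ceilings -/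

theorem Hst0 (h : G.x2 + 5 * G.k ≤ x) (hG : G.x1 ≤ G.x2) : G.Hst m x = 0 := by
  unfold BGeo.Hst
  rw [if_neg (by omega), if_neg (by omega), if_neg (by omega), if_neg (by omega), if_neg (by omega)]
  ring

theorem Hst1 (h : G.x2 + 2 * G.k ≤ x) (h' : x < G.x2 + 5 * G.k) (hG : G.x1 ≤ G.x2) :
    G.Hst m x = -BGeo.alpha m := by
  unfold BGeo.Hst
  rw [if_pos (by omega), if_neg (by omega), if_neg (by omega), if_neg (by omega), if_neg (by omega)]
  ring

theorem Hst2 (h : G.x2 ≤ x) (h' : x < G.x2 + 2 * G.k) (hG : G.x1 ≤ G.x2) :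
    G.Hst m x = -BGeo.alpha m - BGeo.sig m := by
  unfold BGeo.Hst
  rw [if_pos (by omega), if_pos (by omega), if_neg (by omega), if_neg (by omega), if_neg (by omega)]
  ring

theorem Hst3 (h : G.x1 - 2 * G.k ≤ x) (h' : x < G.x2) :
    G.Hst m x = -BGeo.alpha m - BGeo.sig m + m := by
  unfold BGeo.Hst
  rw [if_pos (by omega), if_pos (by omega), if_pos (by omega), if_neg (by omega), if_neg (by omega)]
  ring

theorem Hst4 (h : G.x1 - 5 * G.k ≤ x) (h' : x < G.x1 - 2 * G.k) (hG : G.x1 ≤ G.x2) :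
    G.Hst m x = -BGeo.alpha m - 2 * BGeo.sig m + m := by
  unfold BGeo.Hst
  rw [if_pos (by omega), if_pos (by omega), if_pos (by omega), if_pos (by omega), if_neg (by omega)]
  ring

theorem Hst5 (h' : x < G.x1 - 5 * G.k) (hG : G.x1 ≤ G.x2) :
    G.Hst m x = -2 * BGeo.alpha m - 2 * BGeo.sig m + m := by
  unfold BGeo.Hst
  rw [if_pos (by omega), if_pos (by omega), if_pos (by omega), if_pos (by omega), if_pos (by omega)]
  ring

end

end Pool.Agent.SixB.EnvB
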