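import Pool.Agent.Lib.SixB.S3ZplW
import Pool.Agent.Lib.SixB.S3EnvB

/-!
# 6BD step 3: an environment in the windows of the plane

`E : SEnv` with thick blocks (`EnvB.Thk`), all faces of the blocks in the box of radius `L - 1` (`InBx E L`).
* `win E M`: the same environment in the window of radius `M`; `F_win`: `(win E M).F` is the core `(win E L).F` together
  with the annulus; `Z_win`: the island sides are the same in all windows;
* `glueZ_env`: `GlueZ`; `islM_env`: `IslM`; `FM_env`: `FM L (win E L).F M = (win E M).F`;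
* `zE E L ψ`: the plane functional; `zE_tendsto`: limit over all windows; `zE_indep`: independent of the box `L`;
  `norm_zE_le`, `le_zE`: bounds; `inBx_of`: a box which contains the blocks.

General part: windows of any radius `FM L A ps M`, `IslM`, `GlueZ.tendsto_M`, `GlueZ.zwM_WZ`, `GlueZ.tendsto_WZ_M`.
-/

set_option autoImplicit false
set_option linter.unusedSectionVars false

namespace Pool.Agent.SixB.Rel

open Pool.Agent.Perc Pool.Agent.Perc.Q Relation Filter Topology Pool.Agent.SixB.EnvB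
open Pool.Agent.SixB.Tilt (mem_bS_ah Ah)
open Pool.Agent.SixB hiding Zs_split dst_congr qt_congr dE_mono

noncomputable section

/-! ## Windows of any radius -/

section AnyWindow

variable {V Φ : Type} [DecidableEq V] [DecidableEq Φ]
variable {L M M' : ℤ} {Q : QC V Φ} {A : Finset Φ} {φ : ℤ × ℤ → V} {ps : ℤ × ℤ → Φ}
  {Z : Finset (V × V)} {h : V × V → ℂ} {ψ : V × V → ℝ} {n : ℕ}

/-- the window of radius `M` -/
def FM (L : ℤ) (A : Finset Φ) (ps : ℤ × ℤ → Φ) (M : ℤ) : Finset Φ :=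
  A ∪ (RFb (0, 0) M \ RFb (0, 0) L).image ps

theorem FM_pow (n : ℕ) : FM L A ps (4 ^ n * L) = wF L A ps n := rfl

theorem pow_L (hL0 : 0 < L) (n : ℕ) : L ≤ 4 ^ n * L := by
  have h4 : (1 : ℤ) ≤ 4 ^ n := one_le_pow₀ (by norm_num)
  nlinarith

theorem lt_pow_L (hL0 : 0 < L) (hn : 1 ≤ n) : L < 4 ^ n * L := by
  have h4 : (4 : ℤ) ^ 1 ≤ 4 ^ n := pow_le_pow_right₀ (by norm_num) hn
  nlinarith

theorem FM_split {K : ℤ} (h1 : L ≤ K) (h2 : K ≤ M) : FM L A ps M = FM L A ps K ∪
    (RFb (0, 0) M \ RFb (0, 0) K).image ps := by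
  have e0 : RFb (0, 0) M \ RFb (0, 0) L =
      (RFb (0, 0) K \ RFb (0, 0) L) ∪ (RFb (0, 0) M \ RFb (0, 0) K) := by
    ext g
    rw [Finset.mem_union, Finset.mem_sdiff, Finset.mem_sdiff, Finset.mem_sdiff]
    have a1 : g ∈ RFb (0, 0) L → g ∈ RFb (0, 0) K := fun h => RF0_mono h1 h
    have a2 : g ∈ RFb (0, 0) K → g ∈ RFb (0, 0) M := fun h => RF0_mono h2 h
    tauto
  unfold FM
  rw [e0, Finset.image_union, Finset.union_assoc]

/-- `Z` is the set of the boundary sides of all windows which are not on the outer boundary. -/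
structure IslM (L : ℤ) (Q : QC V Φ) (A : Finset Φ) (ps : ℤ × ℤ → Φ) (Z : Finset (V × V)) :
    Prop where
  sub : ∀ M, L ≤ M → Z ⊆ bS Q (FM L A ps M)
  out : ∀ M M', L ≤ M → M + 1 ≤ M' → ∀ a ∈ bS Q (FM L A ps M), a ∉ Z → a ∉ bS Q (FM L A ps M')

theorem IslM.isl (H : IslM L Q A ps Z) (hL : 0 < L) : Isl L Q A ps Z where
  sub n _ := H.sub _ (pow_L hL n)
  out n _ := H.out _ _ (pow_L hL n) (by
    have h1 := pow_L hL n
    rw [pow_succ]
    linarith)

namespace GlueZ

theorem blkM (H : GlueZ L Q A φ ps Z) (hL : 0 < L) (hM : 4 ^ n * L ≤ M) :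
    av ((aZ L n).image ps) (fun ω => ic (¬ Blk Q ((aZ L n).image ps) ω (dE Q A)
      (dE Q ((RFb (0, 0) M \ RFb (0, 0) (4 ^ n * L)).image ps) ∩
        dE Q ((aZ L n).image ps)))) ≤ 2 * thB ^ n := by
  have hX := H.chart M
  have s1 : aZ L n ⊆ RFb (0, 0) M \ RFb (0, 0) L :=
    Finset.sdiff_subset_sdiff (RF0_mono hM) (Finset.Subset.refl _)
  have s2 : RFb (0, 0) M \ RFb (0, 0) (4 ^ n * L) ⊆ RFb (0, 0) M \ RFb (0, 0) L :=
    Finset.sdiff_subset_sdiff (Finset.Subset.refl _) (RF0_mono (pow_L hL n))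
  rw [av_blk_chart (hX.mono s1)]
  apply blk_aZ hL
  · intro c hc
    obtain ⟨h1, h2⟩ := Finset.mem_filter.mp hc
    obtain ⟨⟨g, hg, l, e1⟩, -⟩ := GlueC.dE_corner h1
    obtain ⟨⟨f, hf, k, e2⟩, -⟩ := GlueC.dE_corner h2
    have e3 : Q.c f k = φ (ZQ.c g l) := by
      rw [← e2, ← e1]
      rfl
    have h3 := H.nb f hf k g (mem_aZ.mp hg).2 l e3
    rw [e1]
    exact h3
  · intro d hd
    obtain ⟨h1, h2⟩ := Finset.mem_filter.mp hd
    have h3 := (Finset.mem_inter.mp h2).1
    rw [hX.dE_map s2] at h3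
    obtain ⟨e, he, h4⟩ := Finset.mem_image.mp h3
    have h5 : e = d := hX.inj_dE (dE_mono s2 he) (dE_mono s1 h1) h4
    subst h5
    obtain ⟨⟨g, hg, l, e1⟩, -⟩ := GlueC.dE_corner he
    by_contra hcon
    push Not at hcon
    rw [e1] at hcon
    exact (Finset.mem_sdiff.mp hg).2 (face_of_cor0 hcon.1 hcon.2)

/-- the functional in the window of radius `M` -/
theorem zwM (hQ : NoLoop Q) (H : GlueZ L Q A φ ps Z) (hL : 0 < L)
    (hh : ∀ a, a ∉ Z → a.swap ∉ Z → h a = 1) (hn : 1 ≤ n) (hM : 4 ^ n * L ≤ M) :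
    ‖avc (FM L A ps M) (fun ω => Zr Q (FM L A ps M) ω h Z) - zn L Q A ps h Z n‖ ≤
      4 * CP h Z * thB ^ n := by
  have e1 : (RFb (0, 0) M \ RFb (0, 0) L).image ps = (aZ L n).image ps ∪
      (RFb (0, 0) M \ RFb (0, 0) (4 ^ n * L)).image ps := by
    rw [← Finset.image_union]
    congr 1
    ext g
    rw [Finset.mem_union, Finset.mem_sdiff, mem_aZ, Finset.mem_sdiff]
    have a1 : g ∈ RFb (0, 0) L → g ∈ RFb (0, 0) (4 ^ n * L) := fun h => RF0_mono (pow_L hL n) h
    have a2 : g ∈ RFb (0, 0) (4 ^ n * L) → g ∈ RFb (0, 0) M := fun h => RF0_mono hM h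
    tauto
  have e2 : avc (FM L A ps M) (fun ω => Zr Q (FM L A ps M) ω h Z) =
      zplO Q A ((aZ L n).image ps ∪ (RFb (0, 0) M \ RFb (0, 0) (4 ^ n * L)).image ps) ∅ h Z := by
    rw [zplO_empty, ← e1]
    rfl
  rw [e2]
  unfold zn
  refine (zw_window hQ (H.sep (lt_pow_L hL hn)) H.P_sub hh).trans ?_
  have h1 := H.blkM (M := M) hL hM
  have c0 := CP_nonneg h Z
  nlinarith

theorem tendsto_M (hQ : NoLoop Q) (H : GlueZ L Q A φ ps Z) (hL : 0 < L)
    (hh : ∀ a, a ∉ Z → a.swap ∉ Z → h a = 1) :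
    Tendsto (fun M : ℤ => avc (FM L A ps M) (fun ω => Zr Q (FM L A ps M) ω h Z)) atTop
      (𝓝 (Zp L Q A ps h Z)) := by
  rw [Metric.tendsto_atTop]
  intro ε hε
  have ht : Tendsto (fun n : ℕ => 8 * CP h Z * thB ^ n) atTop (𝓝 0) := by
    have h1 := tendsto_pow_atTop_nhds_zero_of_lt_one thB_pos.le thB_lt
    simpa using h1.const_mul (8 * CP h Z)
  obtain ⟨n, hn⟩ := ((ht.eventually (gt_mem_nhds hε)).and (eventually_ge_atTop 1)).exists
  refine ⟨4 ^ n * L, fun M hM => ?_⟩
  rw [dist_eq_norm]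
  have h1 := H.zwM hQ hL hh hn.2 hM
  have h2 := H.zn_Zp hQ hL hh hn.2
  rw [norm_sub_rev] at h2
  calc _ = ‖(avc (FM L A ps M) (fun ω => Zr Q (FM L A ps M) ω h Z) - zn L Q A ps h Z n) +
        (zn L Q A ps h Z n - Zp L Q A ps h Z)‖ := by rw [sub_add_sub_cancel]
    _ ≤ _ := norm_add_le _ _
    _ ≤ 4 * CP h Z * thB ^ n + 4 * CP h Z * thB ^ n := add_le_add h1 h2
    _ = 8 * CP h Z * thB ^ n := by ring
    _ < ε := hn.1

/-- On the blocking event all mates of the island sides are island sides. -/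
theorem mates_M (H : GlueZ L Q A φ ps Z) (hI : IslM L Q A ps Z) (hL : 0 < L) (hn : 1 ≤ n)
    (hM : 4 ^ n * L ≤ M) {ω : Φ → Bool} (hb : Blk Q ((aZ L n).image ps) ω (dE Q A)
      (dE Q ((RFb (0, 0) (M + 1) \ RFb (0, 0) (4 ^ n * L)).image ps) ∩
        dE Q ((aZ L n).image ps))) : ∀ a ∈ Z, mate Q (FM L A ps M) ω a ∈ Z := by
  intro a ha
  by_contra hbZ
  have hLM : L ≤ M := (pow_L hL n).trans hM
  have ha' := hI.sub M hLM ha
  set b := mate Q (FM L A ps M) ω a with hbdef
  have hb1 : b ∈ bS Q (FM L A ps M) := mate_mem ha'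
  obtain ⟨hb2, hb3⟩ := mem_bS.mp hb1
  have hb4 := hI.out M (M + 1) hLM le_rfl _ hb1 hbZ
  have hsep := H.sep (L₁ := 4 ^ n * L) (M := M + 1) (lt_pow_L hL hn)
  set D := (RFb (0, 0) (M + 1) \ RFb (0, 0) (4 ^ n * L)).image ps with hD
  set R := (aZ L n).image ps with hR
  have hblk : Blk Q R ω (dE Q A) (dE Q D) := by
    intro c hc d hd hc1 hd1
    exact hb c hc d (Finset.mem_inter.mpr ⟨hd, hd1⟩) hc1 hd1
  have hbD : b ∈ dE Q D := by
    have h1 : ¬ Ini Q ((FM L A ps (M + 1) : Finset Φ) : Set Φ) b := by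
      intro h1
      refine hb4 (mem_bS.mpr ⟨?_, h1⟩)
      rw [FM_split hLM (by omega)]
      exact dE_mono Finset.subset_union_left hb2
    unfold Ini at h1
    push Not at h1
    obtain ⟨f, hf, k, hk⟩ := h1
    rw [FM_split hLM (by omega)] at hf
    rcases Finset.mem_union.mp (Finset.mem_coe.mp hf) with h2 | h2
    · exact absurd hk (hb3 f (by exact_mod_cast h2) k)
    · refine mem_dE.mpr ⟨f, ?_, k, Or.inr hk⟩
      rw [hD]
      exact Finset.image_subset_image (Finset.sdiff_subset_sdiff (Finset.Subset.refl _)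
        (RF0_mono hM)) h2
  set DM := (RFb (0, 0) M \ RFb (0, 0) (4 ^ n * L)).image ps with hDM
  have hDMD : DM ⊆ D := Finset.image_subset_image
    (Finset.sdiff_subset_sdiff (RF0_mono (by omega)) (Finset.Subset.refl _))
  have hFM : FM L A ps M = A ∪ R ∪ DM := by
    rw [FM_split (pow_L hL n) hM]
    rfl
  have hblk' : Blk Q R ω (dE Q A) (dE Q DM) := hblk.mono (Finset.Subset.refl _) (dE_mono hDMD)
  have hsep' : Disjoint (dE Q A) (dE Q DM) := hsep.mono_right (dE_mono hDMD)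
  have haA : a ∈ dE Q A := H.P_sub ha
  have hconf := conf_of_blk (ω := ω) (R := R) hsep' H.P_sub hblk'
  rw [← hFM] at hconf
  have hsubF : A ∪ R ⊆ FM L A ps M := by
    rw [hFM]
    exact Finset.subset_union_left
  have haE : a ∈ dE Q (A ∪ R) := dE_mono Finset.subset_union_left haA
  have h3 := hconf _ (mem_dstr.mpr ⟨a, haE, rfl⟩)
    (touch_iff.mpr ⟨a, self_mem_dst haE, Or.inl ha⟩)
  have h4 : dst Q (FM L A ps M) ω a = dst Q (A ∪ R) ω a :=
    dst_sub hsubF (fun c hc hc' => Finset.disjoint_left.mp h3 hc hc') haE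
  have h5 : b.swap ∈ dst Q (FM L A ps M) ω a := by
    have h6 := srel_lst (Q := Q) (F := FM L A ps M) (ω := ω) (mem_bS.mp ha').2
    have h7 : b.swap = lst Q (FM L A ps M) ω a := by
      rw [hbdef]
      unfold mate
      rw [Prod.swap_swap]
    rw [h7]
    exact mem_dst.mpr ⟨srel_dE h6 (mem_bS.mp ha').1, h6⟩
  rw [h4] at h5
  exact no_cross (fun d hd => swap_mem_dE.mpr hd) hsep hblk (mem_dst.mp h5).2 haA
    (swap_mem_dE.mpr hbD)

/-- **The functional in the window of radius `M` in terms of `WZ`.** -/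
theorem zwM_WZ (hQ : NoLoop Q) (H : GlueZ L Q A φ ps Z) (hI : IslM L Q A ps Z) (hL : 0 < L)
    (hh : PhZ h ψ Z) (hn : 1 ≤ n) (hM : 4 ^ n * L ≤ M) :
    ‖avc (FM L A ps M) (fun ω => Zr Q (FM L A ps M) ω h Z) -
      ((Real.sqrt 3 ^ (Z.card / 2) * av (FM L A ps M) (WZ Q (FM L A ps M) ψ Z) : ℝ) : ℂ)‖ ≤
      2 * CP h Z * thB ^ n := by
  rw [← av_mul, ← avc_ofReal, ← avc_sub]
  refine (norm_avc_le (f := fun ω => CP h Z * ic (¬ Blk Q ((aZ L n).image ps) ω (dE Q A)
      (dE Q ((RFb (0, 0) (M + 1) \ RFb (0, 0) (4 ^ n * L)).image ps) ∩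
        dE Q ((aZ L n).image ps)))) fun T _ => ?_).trans ?_
  · exact norm_Zr_sub_WZ hQ (hI.sub M ((pow_L hL n).trans hM)) hh (H.mates_M hI hL hn hM)
  · have h1 := H.blkM (n := n) (M := M + 1) hL (by omega)
    have c0 := CP_nonneg h Z
    have e : (aZ L n).image ps ⊆ FM L A ps M := by
      refine Finset.Subset.trans ?_ (Finset.subset_union_right (s₁ := A))
      exact Finset.image_subset_image (Finset.sdiff_subset_sdiff (RF0_mono hM)
        (Finset.Subset.refl _))
    rw [av_mul, av_dep dep_nblk e]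
    nlinarith

/-- **The plane functional is the limit over all windows.** -/
theorem tendsto_WZ_M (hQ : NoLoop Q) (H : GlueZ L Q A φ ps Z) (hI : IslM L Q A ps Z) (hL : 0 < L)
    (hh : PhZ h ψ Z) : Tendsto (fun M : ℤ =>
      Real.sqrt 3 ^ (Z.card / 2) * av (FM L A ps M) (WZ Q (FM L A ps M) ψ Z)) atTop
      (𝓝 (Zp L Q A ps h Z).re) := by
  have h0 : Tendsto (fun M : ℤ =>
      ((Real.sqrt 3 ^ (Z.card / 2) * av (FM L A ps M) (WZ Q (FM L A ps M) ψ Z) : ℝ) : ℂ)) atTop
      (𝓝 (Zp L Q A ps h Z)) := by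
    have h1 := H.tendsto_M hQ hL hh.one
    have h2 : Tendsto (fun M : ℤ => avc (FM L A ps M) (fun ω => Zr Q (FM L A ps M) ω h Z) -
        ((Real.sqrt 3 ^ (Z.card / 2) * av (FM L A ps M) (WZ Q (FM L A ps M) ψ Z) : ℝ) : ℂ)) atTop
        (𝓝 0) := by
      rw [Metric.tendsto_atTop]
      intro ε hε
      have ht : Tendsto (fun n : ℕ => 2 * CP h Z * thB ^ n) atTop (𝓝 0) := by
        have h1 := tendsto_pow_atTop_nhds_zero_of_lt_one thB_pos.le thB_lt
        simpa using h1.const_mul (2 * CP h Z)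
      obtain ⟨n, hn⟩ := ((ht.eventually (gt_mem_nhds hε)).and (eventually_ge_atTop 1)).exists
      refine ⟨4 ^ n * L, fun M hM => ?_⟩
      rw [dist_zero_right]
      exact (H.zwM_WZ hQ hI hL hh hn.2 hM).trans_lt hn.1
    have h4 := h1.sub h2
    rw [sub_zero] at h4
    refine h4.congr fun M => ?_
    rw [sub_sub_cancel]
  have h1 := (Complex.continuous_re.tendsto _).comp h0
  refine h1.congr fun n => ?_
  exact Complex.ofReal_re _

end GlueZ

end AnyWindow

theorem noLoop_SQ {V Φ S : Type} {B : QC V Φ} (h : NoLoop B) (σ : Φ → ZMod 4 → Equiv.Perm S) :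
    NoLoop (SQ B σ) := fun f k e => h f.2 k (Prod.mk.inj e).2

theorem noLoop_plane : NoLoop ZQ := by
  intro f k h
  rcases k4 k with rfl | rfl | rfl | rfl
  · have := (Prod.mk.inj (show (f.1, f.2) = (f.1 + 1, f.2) from h)).1
    omega
  · have := (Prod.mk.inj (show (f.1 + 1, f.2) = (f.1 + 1, f.2 + 1) from h)).2
    omega
  · have := (Prod.mk.inj (show (f.1 + 1, f.2 + 1) = (f.1, f.2 + 1) from h)).1
    omega
  · have := (Prod.mk.inj (show (f.1, f.2 + 1) = (f.1, f.2) from h)).2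
    omega

theorem noLoop_env (E : SEnv) : NoLoop E.Q := noLoop_SQ noLoop_plane _

/-- the environment in the window of radius `M` -/
def win (E : SEnv) (M : ℤ) : SEnv := { E with W := RFb (0, 0) M }

/-- the faces of the blocks are in the box of radius `L - 1` -/
def InBx (E : SEnv) (L : ℤ) : Prop :=
  ∀ f, E.gu.solid true f ∨ E.gd.solid false f → f ∈ RFb (0, 0) (L - 1)

/-- side of a block -/
def SolSide (E : SEnv) (s : (Option Bool × (ℤ × ℤ)) × (Option Bool × (ℤ × ℤ))) : Prop :=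
  s.1.1 ≠ none ∨ s.2.1 ≠ none ∨
    ∃ f, (E.gu.solid true f ∨ E.gd.solid false f) ∧ ∃ k, SEnv.pl s = (sd ZQ f k).swap

section

variable {E : SEnv} {L M M' : ℤ} {f g : ℤ × ℤ} {k l : ZMod 4}
  {s : (Option Bool × (ℤ × ℤ)) × (Option Bool × (ℤ × ℤ))}

theorem win_Q : (win E M).Q = E.Q := rfl

theorem win_thk (hE : Thk E) : Thk (win E M) := ⟨hE.au, hE.ad⟩

theorem mem_base_win : f ∈ (win E M).base ↔
    f ∈ RFb (0, 0) M ∧ ¬ E.gu.solid true f ∧ ¬ E.gd.solid false f := mem_base

theorem mem_Z_win : s ∈ (win E M).Z ↔ s ∈ bS E.Q (win E M).F ∧ SolSide E s := mem_Z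

theorem nb_box (hf : f ∈ RFb (0, 0) M) : nb f k ∈ RFb (0, 0) (M + 1) := by
  rw [mem_RF0] at hf ⊢
  rcases k4 k with rfl | rfl | rfl | rfl
  · rw [nb0]; simp only; omega
  · rw [nb1]; simp only; omega
  · rw [nb2]; simp only; omega
  · rw [nb3]; simp only; omega

theorem nb_nb (f : ℤ × ℤ) (k : ZMod 4) : nb (nb f k) (k + 2) = f := by
  have h : sd ZQ f k = (sd ZQ (nb f k) (k + 2)).swap := swap_inj_iff.mpr ⟨rfl, rfl⟩
  have h2 := (sd_swap_iff (f := nb f k) (g := f) (k := k + 2) (l := k)).mp h.symm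
  exact h2.1.symm

/-- **The windows of an environment.** -/
theorem F_win (hL : InBx E L) (hM : L ≤ M) :
    (win E M).F = (win E L).F ∪
      (RFb (0, 0) M \ RFb (0, 0) L).image (fun f => ((none : Option Bool), f)) := by
  ext x
  obtain ⟨t, f⟩ := x
  rw [Finset.mem_union]
  rcases t with _ | t
  · rw [mem_F_none, mem_F_none, mem_base_win, mem_base_win, Finset.mem_image]
    constructor
    · rintro ⟨h1, h2, h3⟩
      by_cases h4 : f ∈ RFb (0, 0) L
      · exact Or.inl ⟨h4, h2, h3⟩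
      · exact Or.inr ⟨f, Finset.mem_sdiff.mpr ⟨h1, h4⟩, rfl⟩
    · rintro (⟨h1, h2, h3⟩ | ⟨g, hg, hgf⟩)
      · exact ⟨RF0_mono hM h1, h2, h3⟩
      · obtain rfl : g = f := (Prod.mk.inj hgf).2
        obtain ⟨h1, h2⟩ := Finset.mem_sdiff.mp hg
        have h3 : ∀ {p : Prop}, (p → E.gu.solid true g ∨ E.gd.solid false g) → ¬ p := by
          intro p hp h
          exact h2 (RF0_mono (by omega) (hL g (hp h)))
        exact ⟨h1, h3 Or.inl, h3 Or.inr⟩
  · have h1 : ((some t, f) : Option Bool × (ℤ × ℤ)) ∉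
        (RFb (0, 0) M \ RFb (0, 0) L).image (fun f => ((none : Option Bool), f)) := by
      rw [Finset.mem_image]
      rintro ⟨g, -, h⟩
      exact absurd (Prod.mk.inj h).1 (by simp)
    cases t
    · rw [mem_F_lo, mem_F_lo]
      constructor
      · exact Or.inl
      · rintro (h | h)
        · exact h
        · exact absurd h h1
    · rw [mem_F_up, mem_F_up]
      constructor
      · exact Or.inl
      · rintro (h | h)
        · exact h
        · exact absurd h h1

theorem F_win_mono (hL : InBx E L) (hM : L ≤ M) (hM' : M ≤ M') : (win E M).F ⊆ (win E M').F := by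
  rw [F_win hL hM, F_win hL (hM.trans hM')]
  exact Finset.union_subset_union (Finset.Subset.refl _)
    (Finset.image_subset_image (Finset.sdiff_subset_sdiff (RF0_mono hM') (Finset.Subset.refl _)))

/-- a side of a base face is a side of a block iff the face across it belongs to a block -/
theorem solSide_base (hE : Thk E) (hf : f ∈ (win E M).base) :
    SolSide E (sd E.Q (none, f) k) ↔ E.gu.solid true (nb f k) ∨ E.gd.solid false (nb f k) := by
  have e : sd E.Q (none, f) k = ((none, (sd ZQ f k).1), (none, (sd ZQ f k).2)) :=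
    sd_base (win_thk hE) hf k
  rw [e]
  constructor
  · rintro (h | h | ⟨g, hg, l, h⟩)
    · exact absurd rfl h
    · exact absurd rfl h
    · have h4 : sd ZQ f k = (sd ZQ g l).swap := h
      obtain ⟨rfl, -⟩ := swap_inj_iff.mp h4
      exact hg
  · intro h
    exact Or.inr (Or.inr ⟨nb f k, h, k + 2, swap_inj_iff.mpr ⟨rfl, rfl⟩⟩)

/-- **The island sides are the same in all windows.** -/
theorem Z_win (hE : Thk E) (hL : InBx E L) (hM : L ≤ M) : (win E M).Z = (win E L).Z := by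
  ext s
  rw [mem_Z_win, mem_Z_win]
  refine and_congr_left fun hs => ?_
  have hsub := F_win_mono hL le_rfl hM
  constructor
  · intro h
    obtain ⟨⟨⟨t, f⟩, hx, k, rfl⟩, h2⟩ := mem_bS_ah.mp h
    refine mem_bS_ah.mpr ⟨⟨(t, f), ?_, k, rfl⟩, fun h3 => h2 ?_⟩
    · rcases t with _ | t
      · have hf := mem_F_none.mp hx
        have h3 := hL _ ((solSide_base hE hf).mp hs)
        have h4 := nb_box (k := k + 2) h3
        rw [nb_nb, sub_add_cancel] at h4
        have h5 := mem_base_win.mp hf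
        exact mem_F_none.mpr (mem_base_win.mpr ⟨h4, h5.2⟩)
      · cases t
        · have h5 : f ∈ E.L := (mem_F_lo (E := win E M)).mp hx
          exact mem_F_lo.mpr h5
        · have h5 : f ∈ E.U := (mem_F_up (E := win E M)).mp hx
          exact mem_F_up.mpr h5
    · obtain ⟨y, hy, l, hl⟩ := h3
      exact ⟨y, hsub hy, l, hl⟩
  · intro h
    obtain ⟨⟨⟨t, f⟩, hx, k, rfl⟩, h2⟩ := mem_bS_ah.mp h
    refine mem_bS_ah.mpr ⟨⟨(t, f), hsub hx, k, rfl⟩, fun h3 => h2 ?_⟩
    obtain ⟨y, hy, l, hl⟩ := h3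
    rw [F_win hL hM] at hy
    rcases Finset.mem_union.mp hy with hy | hy
    · exact ⟨y, hy, l, hl⟩
    · exfalso
      obtain ⟨g, hg, rfl⟩ := Finset.mem_image.mp hy
      obtain ⟨hg1, hg2⟩ := Finset.mem_sdiff.mp hg
      have hgb : g ∈ (win E M).base := by
        refine mem_base_win.mpr ⟨hg1, fun h4 => ?_, fun h4 => ?_⟩
        · exact hg2 (RF0_mono (by omega) (hL g (Or.inl h4)))
        · exact hg2 (RF0_mono (by omega) (hL g (Or.inr h4)))
      have e : sd E.Q (none, g) l = ((none, (sd ZQ g l).1), (none, (sd ZQ g l).2)) :=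
        sd_base (win_thk hE) hgb l
      set s := sd E.Q (t, f) k with hs0
      have hs1 : s = ((none, (sd ZQ g l).2), (none, (sd ZQ g l).1)) := by
        have h5 : s.swap = sd E.Q (none, g) l := hl
        rw [e] at h5
        rw [← Prod.swap_swap s, h5]
        rfl
      rw [hs1] at hs
      rcases hs with h6 | h6 | ⟨g', hg', l', h6⟩
      · exact h6 rfl
      · exact h6 rfl
      · have h7 : (sd ZQ g l).swap = (sd ZQ g' l').swap := h6
        have h8 : sd ZQ g l = sd ZQ g' l' := by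
          rw [← Prod.swap_swap (sd ZQ g l), h7, Prod.swap_swap]
        have h9 := (ZQ.inj (Prod.mk.inj h8).1 (Prod.mk.inj h8).2).1
        rw [h9] at hg2
        exact hg2 (RF0_mono (by omega) (hL g' hg'))

/-- A boundary side of a window which is not an island side is not a boundary side of larger windows. -/
theorem out_win (hE : Thk E) (hL : InBx E L) (hM : L ≤ M) (hM' : M + 1 ≤ M')
    (hs : s ∈ bS E.Q (win E M).F) (hZ : s ∉ (win E M).Z) : s ∉ bS E.Q (win E M').F := by
  have hns : ¬ SolSide E s := fun h => hZ (mem_Z_win.mpr ⟨hs, h⟩)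
  have hsub : (win E M).F ⊆ (win E M').F := F_win_mono hL hM (by omega)
  obtain ⟨⟨⟨t, f⟩, hx, k, rfl⟩, h2⟩ := mem_bS_ah.mp hs
  rcases t with _ | t
  · intro h3
    have hf := mem_F_none.mp hx
    have h4 := (base_bS (E := win E M') (win_thk hE) (Finset.Subset.refl _) (hsub hx) k).mp h3
    refine h4.1 (mem_F_none.mpr (mem_base_win.mpr ⟨?_, ?_⟩))
    · exact RF0_mono hM' (nb_box (mem_base_win.mp hf).1)
    · have h5 := fun h => hns ((solSide_base hE hf).mpr h)
      exact ⟨fun h => h5 (Or.inl h), fun h => h5 (Or.inr h)⟩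
  · exfalso
    have c1 := cor_pk (E := E) t f k
    have c2 := cor_pk (E := E) t f (k + 1)
    have e0 : sd E.Q (some t, f) k = (E.Q.c (some t, f) k, E.Q.c (some t, f) (k + 1)) := rfl
    have a1 : (mu E t).adj f k := by
      by_contra h
      refine hns (Or.inl ?_)
      rw [e0, c1, if_neg h]
      simp
    have a2 : (mu E t).adj f (k + 1) := by
      by_contra h
      refine hns (Or.inr (Or.inl ?_))
      rw [e0, c2, if_neg h]
      simp
    have hsol := adj_solid hE a1
    have hf := hL f hsol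
    have hpl : SEnv.pl (sd E.Q (some t, f) k) = sd ZQ f k := by
      rw [e0, c1, c2]
      rfl
    have hnb : ¬ (E.gu.solid true (nb f k) ∨ E.gd.solid false (nb f k)) := by
      intro h
      refine hns (Or.inr (Or.inr ⟨nb f k, h, k + 2, ?_⟩))
      rw [hpl]
      exact swap_inj_iff.mpr ⟨rfl, rfl⟩
    have hb : nb f k ∈ (win E M).base := by
      refine mem_base_win.mpr ⟨RF0_mono (by omega) (nb_box (k := k) hf), ?_⟩
      exact ⟨fun h => hnb (Or.inl h), fun h => hnb (Or.inr h)⟩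
    refine h2 ⟨(none, nb f k), mem_F_none.mpr hb, k + 2, ?_⟩
    have h6 : (sd E.Q (none, nb f k) (k + 2)).swap = sd E.Q (some t, f) k := by
      refine (swap_base (E := win E M) (win_thk hE) hb (k := k + 2) (s := some t)).mpr ?_
      refine ⟨(nb_nb f k).symm, ?_, ?_⟩
      · have : (2 : ZMod 4) + 2 = 0 := by decide
        rw [add_assoc, this, add_zero]
      · cases t
        · refine Or.inr (Or.inr ⟨rfl, ?_⟩)
          rw [adj_lo] at a1 a2
          have hk : k = 2 := by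
            have h7 := a1.2.2
            have h8 := a2.2.2
            revert h7 h8
            generalize k = k
            revert k
            decide
          subst hk
          rw [nb2]
          exact ⟨by decide, a1.1, a1.2.1⟩
        · refine Or.inr (Or.inl ⟨rfl, ?_⟩)
          rw [adj_up] at a1 a2
          have hk : k = 0 := by
            have h7 := a1.2.2
            have h8 := a2.2.2
            revert h7 h8
            generalize k = k
            revert k
            decide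
          subst hk
          rw [nb0]
          refine ⟨by decide, a1.1, ?_⟩
          show f.2 - 1 + 1 = _
          rw [sub_add_cancel]
          exact a1.2.1
    rw [← h6, Prod.swap_swap]

/-! ## The structures of the plane functional -/

theorem wF_env (hL : InBx E L) (hL0 : 0 < L) (n : ℕ) :
    wF L (win E L).F (fun f => ((none : Option Bool), f)) n = (win E (4 ^ n * L)).F := by
  rw [F_win hL (pow_L hL0 n)]
  rfl

/-- **An environment is a surface which is the plane outside a box.** -/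
theorem glueZ_env (hE : Thk E) (hL : InBx E L) :
    GlueZ L E.Q (win E L).F (fun v => ((none : Option Bool), v)) (fun f => ((none : Option Bool), f))
      (win E L).Z where
  chart M := by
    refine ⟨fun f _ g _ k l h => (Prod.mk.inj h).2, fun f hf k => ?_⟩
    obtain ⟨h1, h2⟩ := Finset.mem_sdiff.mp hf
    have hb : f ∈ (win E M).base := by
      refine mem_base_win.mpr ⟨h1, fun h4 => ?_, fun h4 => ?_⟩
      · exact h2 (RF0_mono (by omega) (hL f (Or.inl h4)))
      · exact h2 (RF0_mono (by omega) (hL f (Or.inr h4)))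
    rw [add_zero]
    exact cor_base (win_thk hE) hb k
  dj g hg h := hg (mem_base_win.mp (mem_F_none.mp h)).1
  nb x hx k g hg l h := by
    obtain ⟨t, f⟩ := x
    rcases t with _ | t
    · have hb := mem_F_none.mp hx
      have h1 : E.Q.c (none, f) k = (none, ZQ.c f k) := cor_base (win_thk hE) hb k
      rw [h1] at h
      rw [← (Prod.mk.inj h).2]
      exact cor0_le (mem_base_win.mp hb).1 k
    · have h1 := cor_pk (E := E) t f k
      rw [h1] at h
      have h2 : (mu E t).adj f k := by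
        by_contra h3
        rw [if_neg h3] at h
        exact absurd (Prod.mk.inj h).1 (by simp)
      rw [← (Prod.mk.inj h).2]
      exact cor0_le (RF0_mono (by omega) (hL f (adj_solid hE h2))) k
  P_sub s hs := (mem_bS.mp (mem_Z_win.mp hs).1).1

theorem FM_env (hL : InBx E L) (hM : L ≤ M) :
    FM L (win E L).F (fun f => ((none : Option Bool), f)) M = (win E M).F := by
  rw [F_win hL hM]
  rfl

theorem islM_env (hE : Thk E) (hL : InBx E L) :
    IslM L E.Q (win E L).F (fun f => ((none : Option Bool), f)) (win E L).Z where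
  sub M hM := by
    rw [FM_env hL hM, ← Z_win hE hL hM]
    exact fun s hs => (mem_Z_win.mp hs).1
  out M M' hM hM' s hs hZ := by
    rw [FM_env hL hM] at hs
    rw [FM_env hL (by omega)]
    rw [← Z_win hE hL hM] at hZ
    exact out_win hE hL hM hM' hs hZ

theorem isl_env (hE : Thk E) (hL : InBx E L) (hL0 : 0 < L) :
    Isl L E.Q (win E L).F (fun f => ((none : Option Bool), f)) (win E L).Z :=
  (islM_env hE hL).isl hL0

theorem swap_Z_env : ∀ s ∈ (win E L).Z, s.swap ∉ (win E L).Z := fun _ hs h =>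
  not_ini_ter (mem_bS.mp (mem_Z_win.mp hs).1).1 (mem_bS.mp (mem_Z_win.mp hs).1).2
    (ini_swap.mp (mem_bS.mp (mem_Z_win.mp h).1).2)

/-- **The plane functional of an environment with the phases `ψ` of the island sides.** -/
def zE (E : SEnv) (L : ℤ) (ψ : (Option Bool × (ℤ × ℤ)) × (Option Bool × (ℤ × ℤ)) → ℝ) : ℂ :=
  Zp L E.Q (win E L).F (fun f => ((none : Option Bool), f)) (hz ψ (win E L).Z) (win E L).Z

/-- **The plane functional of `E` is the limit of the normalised weights over all windows.** -/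
theorem zE_tendsto (hE : Thk E) (hL : InBx E L) (hL0 : 0 < L)
    (ψ : (Option Bool × (ℤ × ℤ)) × (Option Bool × (ℤ × ℤ)) → ℝ) :
    Tendsto (fun M : ℤ => Real.sqrt 3 ^ ((win E M).Z.card / 2) *
      av (win E M).F (WZ E.Q (win E M).F ψ (win E M).Z)) atTop (𝓝 (zE E L ψ).re) := by
  have h1 := (glueZ_env hE hL).tendsto_WZ_M (noLoop_env E) (islM_env hE hL) hL0
    (phZ_hz ψ swap_Z_env)
  refine h1.congr' ?_
  filter_upwards [eventually_ge_atTop L] with M hM
  rw [FM_env hL hM, Z_win hE hL hM]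

theorem zE_eq (hE : Thk E) (hL : InBx E L) (hL0 : 0 < L)
    (ψ : (Option Bool × (ℤ × ℤ)) × (Option Bool × (ℤ × ℤ)) → ℝ) :
    zE E L ψ = (((zE E L ψ).re : ℝ) : ℂ) :=
  (glueZ_env hE hL).Zp_eq (noLoop_env E) (isl_env hE hL hL0) hL0 (phZ_hz ψ swap_Z_env)

/-- the plane functional does not depend on the box -/
theorem zE_indep {L' : ℤ} (hE : Thk E) (hL : InBx E L) (hL0 : 0 < L) (hL' : InBx E L')
    (hL0' : 0 < L') (ψ : (Option Bool × (ℤ × ℤ)) × (Option Bool × (ℤ × ℤ)) → ℝ) :
    zE E L ψ = zE E L' ψ := by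
  rw [zE_eq hE hL hL0, zE_eq hE hL' hL0',
    tendsto_nhds_unique (zE_tendsto hE hL hL0 ψ) (zE_tendsto hE hL' hL0' ψ)]

/-- upper bound, from the bound in arbitrarily large windows -/
theorem norm_zE_le (hE : Thk E) (hL : InBx E L) (hL0 : 0 < L)
    {ψ : (Option Bool × (ℤ × ℤ)) × (Option Bool × (ℤ × ℤ)) → ℝ} {B : ℝ}
    (hB : ∃ᶠ M : ℤ in atTop, av (win E M).F (fun ω => |WZ E.Q (win E M).F ψ (win E M).Z ω|) ≤ B) :
    ‖zE E L ψ‖ ≤ Real.sqrt 3 ^ ((win E L).Z.card / 2) * B := by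
  have h3 : (0 : ℝ) ≤ Real.sqrt 3 := Real.sqrt_nonneg 3
  rw [zE_eq hE hL hL0, Complex.norm_real]
  refine le_of_tendsto_of_frequently (zE_tendsto hE hL hL0 ψ).norm ?_
  refine (hB.and_eventually (eventually_ge_atTop L)).mono fun M hM => ?_
  rw [norm_mul, norm_pow, Real.norm_of_nonneg h3, Z_win hE hL hM.2]
  refine mul_le_mul_of_nonneg_left ?_ (pow_nonneg h3 _)
  rw [← Z_win hE hL hM.2]
  exact (abs_av_le fun _ _ => le_rfl).trans hM.1

/-- lower bound, from the bound in arbitrarily large windows -/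
theorem le_zE (hE : Thk E) (hL : InBx E L) (hL0 : 0 < L)
    {ψ : (Option Bool × (ℤ × ℤ)) × (Option Bool × (ℤ × ℤ)) → ℝ} {B : ℝ}
    (hB : ∃ᶠ M : ℤ in atTop, B ≤ av (win E M).F (WZ E.Q (win E M).F ψ (win E M).Z)) :
    Real.sqrt 3 ^ ((win E L).Z.card / 2) * B ≤ (zE E L ψ).re := by
  have h3 : (0 : ℝ) ≤ Real.sqrt 3 := Real.sqrt_nonneg 3
  refine ge_of_tendsto_of_frequently (zE_tendsto hE hL hL0 ψ) ?_
  refine (hB.and_eventually (eventually_ge_atTop L)).mono fun M hM => ?_
  rw [Z_win hE hL hM.2]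
  rw [Z_win hE hL hM.2] at hM
  exact mul_le_mul_of_nonneg_left hM.1 (pow_nonneg h3 _)

/-- a box which contains the blocks -/
theorem inBx_of (h1 : |E.gu.x1| + |E.gu.x2| + |E.gu.yc| + 7 * E.gu.k + E.gu.a + E.gu.c + 2 ≤ L)
    (h2 : |E.gd.x1| + |E.gd.x2| + |E.gd.yc| + 7 * E.gd.k + E.gd.a + E.gd.c + 2 ≤ L) :
    InBx E L := by
  rintro f (h | h)
  · obtain ⟨a1, a2, a3, a4, -⟩ := h
    unfold BGeo.hgt at a1 a2
    rw [if_pos rfl] at a1 a2
    have b1 := abs_le.mp (le_refl |E.gu.x1|)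
    have b2 := abs_le.mp (le_refl |E.gu.x2|)
    have b3 := abs_le.mp (le_refl |E.gu.yc|)
    have b4 := abs_nonneg E.gu.x1
    have b5 := abs_nonneg E.gu.x2
    have b6 := abs_nonneg E.gu.yc
    rw [mem_RF0]
    omega
  · obtain ⟨a1, a2, a3, a4, -⟩ := h
    unfold BGeo.hgt at a1 a2
    rw [if_neg (by simp)] at a1 a2
    have b1 := abs_le.mp (le_refl |E.gd.x1|)
    have b2 := abs_le.mp (le_refl |E.gd.x2|)
    have b3 := abs_le.mp (le_refl |E.gd.yc|)
    have b4 := abs_nonneg E.gd.x1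
    have b5 := abs_nonneg E.gd.x2
    have b6 := abs_nonneg E.gd.yc
    rw [mem_RF0]
    omega

end

end

end Pool.Agent.SixB.Rel
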