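import Pool.Agent.Lib.SixB.S3AsmB
import Pool.Agent.Lib.SixB.S3AsmS
import Pool.Agent.Lib.SixB.S3InH
import Pool.Agent.Lib.SixB.S3HcsP
import Pool.Agent.Lib.SixB.S3Polar
import Pool.Agent.Lib.SixB.S3ZplE
import Pool.Agent.Lib.SixB.S3OpChi
import Pool.Agent.Lib.SixB.PlaneP

/-!
# 6BD step 3: the numbers of a slab, the premises, `CoreFam` (row R24, part (C))

`S : Slb` a slab, `E(X, Y) = S.env ∅ X Y` (upper block and pocket shifted by `X`, lower by `Y` columns).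
* `bx S X Y`: radius of the box (core) of `E(X, Y)`; `inBx`.
* `zE S X Y`: plane functional of `E(X, Y)`; `zS S X Y R a`: the same with the sign of the side `a` inserted, `R` =
  rectangle of faces of the insertion (relevant sides: the islands and the sides of `R`).
* `zDbl`: plane functional of the double of a half (S3DblS); `zU S`, `zD S`: upper half above the row `yc + a / 2`,
  lower half below the row `yc - a / 2`; `zEE S X0 X Y`: left half of `E(X, Y)`, cut along the column `X0`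
  (rotated chart of S3PlaneH), times 16.
* `zJJ X0 P c`: two point function of the insertion `c` and its mirror image.
* `SFam`: the family of slabs of `slab_ok` at a point `z0`; `SFam.slb z r i`: the slab with centre `z` for the radius `r`;
  `SFam.rc`: rectangle of the insertion; `SFam.ins`: the insertion; `SFam.X0`, `SFam.T`: cut column, start of the window
  of the shifts (`X = -2 y`, `Y = -2 x`).
* The premises: `NormIn` (hE, hUD, hEE), `CylIn` (hfin), `CsIn` (hcs), `JJIn` (hJJ), `PotIn` (height of `E`), `CmpIn`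
  (comparison with the height of `D`).
* `coreFam_of`: the premises give `CoreFam`.
-/

set_option autoImplicit false
set_option linter.unusedSectionVars false

namespace Pool.Agent.SixB.Asm3

open Complex Filter Topology Metric
open Pool.Agent.Perc Pool.Agent.Perc.Q
open scoped ComplexConjugate

noncomputable section

/-! ## The numbers of a slab -/

section numbers

variable (S : Slb)

/-- radius of a box which contains the blocks of `E(X, Y)` -/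
def bx (X Y : ℤ) : ℤ :=
  |S.x1| + |S.x2| + |S.yc| + 2 * |X| + 2 * |Y| + 10 * S.k + S.a + (S.x2 - S.x1).toNat + 2

theorem inBx (X Y : ℤ) : Rel.InBx (S.env ∅ X Y) (bx S X Y) := by
  have h1 : |S.x1 + X| ≤ |S.x1| + |X| := abs_add_le _ _
  have h2 : |S.x2 + X| ≤ |S.x2| + |X| := abs_add_le _ _
  have h3 : |S.x1 + Y| ≤ |S.x1| + |Y| := abs_add_le _ _
  have h4 : |S.x2 + Y| ≤ |S.x2| + |Y| := abs_add_le _ _
  have h5 := abs_nonneg X
  have h6 := abs_nonneg Y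
  refine Rel.inBx_of ?_ ?_
  · show |S.x1 + X| + |S.x2 + X| + |S.yc| + 7 * (S.k : ℤ) + S.a +
      ((3 * S.k + (S.x2 - S.x1).toNat : ℕ) : ℤ) + 2 ≤ bx S X Y
    unfold bx
    push_cast
    omega
  · show |S.x1 + Y| + |S.x2 + Y| + |S.yc| + 7 * (S.k : ℤ) + S.a +
      ((3 * S.k + (S.x2 - S.x1).toNat : ℕ) : ℤ) + 2 ≤ bx S X Y
    unfold bx
    push_cast
    omega

theorem bx_pos (X Y : ℤ) : 0 < bx S X Y := by
  have h1 := abs_nonneg S.x1
  have h2 := abs_nonneg S.x2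
  have h3 := abs_nonneg S.yc
  have h5 := abs_nonneg X
  have h6 := abs_nonneg Y
  unfold bx
  omega

/-- the environment in its box -/
def eB (X Y : ℤ) : SEnv := Rel.win (S.env ∅ X Y) (bx S X Y)

/-- the weight of the island sides -/
def hB (X Y : ℤ) : (Option Bool × (ℤ × ℤ)) × (Option Bool × (ℤ × ℤ)) → ℂ :=
  Rel.hz (S.ph ∅ X Y) (eB S X Y).Z

/-- the plane functional of `E(X, Y)` -/
def zE (X Y : ℤ) : ℝ := (Rel.zE (S.env ∅ X Y) (bx S X Y) (S.ph ∅ X Y)).re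

/-- a side of the base sheet -/
def sd0 (a : (ℤ × ℤ) × (ℤ × ℤ)) : (Option Bool × (ℤ × ℤ)) × (Option Bool × (ℤ × ℤ)) :=
  ((none, a.1), (none, a.2))

/-- the plane functional of `E(X, Y)` with the sign of the side `a` inserted, `R` = faces of the insertion -/
def zS (X Y : ℤ) (R : Finset (ℤ × ℤ)) (a : (ℤ × ℤ) × (ℤ × ℤ)) : ℂ :=
  Rel.Zp (bx S X Y) (S.env ∅ X Y).Q (eB S X Y).F (fun f => ((none : Option Bool), f))
    (fun b => hB S X Y b * sgE (sd0 a) b) ((eB S X Y).Z ∪ (dE ZQ R).image sd0)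

section dbl

variable {V Φ : Type} [DecidableEq V] [DecidableEq Φ]

/-- the weight on the double of a half (`h = 1` on the cut line): `h` on the half, `conj h` on its mirror image -/
def dblW (h : V × V → ℂ) (a : (V × Bool × Bool) × (V × Bool × Bool)) : ℂ :=
  if (a.1.2.1 || a.2.2.1) = true then conj (h (a.1.1, a.2.1)) else h (a.1.1, a.2.1)

open Classical in
/-- the plane functional of the double of the half `H` (upper half `up = true`) with the cut line `m` in the row `g₀` -/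
def zDbl (up : Bool) (g₀ L : ℤ) (Q : QC V Φ) (A : Finset Φ) (ps : ℤ × ℤ → Φ) (h : V × V → ℂ)
    (P : Finset (V × V)) (H : Set Φ) (m : ℤ → V × V) : ℝ :=
  if hm : Dbl.OneSidedS Q H m then
    (Rel.Zp (L + |g₀|) (Dbl.dblS Q H m hm) (Dbl.cor2 up g₀ A H ps (Dbl.wZ up g₀ L (L + |g₀|)))
      (Dbl.dblψ up g₀ ps) (dblW h) (Dbl.isl2 Q A H m P)).re
  else 0

theorem zDbl_eq {up : Bool} {g₀ L : ℤ} {Q : QC V Φ} {A : Finset Φ} {ps : ℤ × ℤ → Φ} {h : V × V → ℂ}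
    {P : Finset (V × V)} {H : Set Φ} {m : ℤ → V × V} (hm : Dbl.OneSidedS Q H m) :
    zDbl up g₀ L Q A ps h P H m =
      (Rel.Zp (L + |g₀|) (Dbl.dblS Q H m hm) (Dbl.cor2 up g₀ A H ps (Dbl.wZ up g₀ L (L + |g₀|)))
        (Dbl.dblψ up g₀ ps) (dblW h) (Dbl.isl2 Q A H m P)).re := dif_pos hm

end dbl

/-- all faces above the row `y` and the upper pocket -/
def hiS (E : SEnv) (y : ℤ) : Set (Option Bool × (ℤ × ℤ)) := {f | ∃ M : ℤ, f ∈ (Rel.win E M).hi y}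

/-- all faces below the row `y` and the lower pocket -/
def loS (E : SEnv) (y : ℤ) : Set (Option Bool × (ℤ × ℤ)) := {f | ∃ M : ℤ, f ∈ (Rel.win E M).lo y}

/-- all faces on the left of the column `x` and both pockets -/
def lfS (E : SEnv) (x : ℤ) : Set (Option Bool × (ℤ × ℤ)) := {f | ∃ M : ℤ, f ∈ (Rel.win E M).lf x}

/-- the cut column `x`: the sides `((x, y), (x, y + 1))` of the base sheet (directed to the left) -/
def cutV (x y : ℤ) : (Option Bool × (ℤ × ℤ)) × (Option Bool × (ℤ × ℤ)) :=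
  ((none, (x, y)), (none, (x, y + 1)))

/-- `‖u‖²`: the double of the upper half, cut along the row `yc + a / 2` -/
def zU : ℝ := zDbl true (S.yc + (S.a / 2 : ℕ)) (bx S 0 0) (S.env ∅ 0 0).Q (eB S 0 0).F
  (fun f => ((none : Option Bool), f)) (hB S 0 0) (eB S 0 0).Z
  (hiS (S.env ∅ 0 0) (S.yc + (S.a / 2 : ℕ))) (SEnv.cutH (S.yc + (S.a / 2 : ℕ)))

/-- `‖d‖²`: the double of the lower half, cut along the row `yc - a / 2` -/
def zD : ℝ := zDbl false (S.yc - (S.a / 2 : ℕ)) (bx S 0 0) (S.env ∅ 0 0).Q (eB S 0 0).F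
  (fun f => ((none : Option Bool), f)) (hB S 0 0) (eB S 0 0).Z
  (loS (S.env ∅ 0 0) (S.yc - (S.a / 2 : ℕ))) (revFam (SEnv.cutH (S.yc - (S.a / 2 : ℕ))))

/-- the double of the part of `E(X, Y)` on the left of the column `X0`, times 16 -/
def zEE (X0 X Y : ℤ) : ℝ := 16 * zDbl false X0 (bx S X Y) (Rel.relQ (S.env ∅ X Y).Q fun _ => 3)
  (eB S X Y).F ((fun f => ((none : Option Bool), f)) ∘ Rel.rf0) (hB S X Y) (eB S X Y).Z
  (lfS (S.env ∅ X Y) X0) (cutV X0)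

end numbers

/-- reflection in the column `X0` -/
def mirX (X0 : ℤ) (v : ℤ × ℤ) : ℤ × ℤ := (2 * X0 - v.1, v.2)

/-- the two point function of an insertion `c` on the sides `P` and its mirror image -/
def zJJ (X0 : ℤ) (P : Finset ((ℤ × ℤ) × (ℤ × ℤ))) (c : (ℤ × ℤ) × (ℤ × ℤ) → ℝ) : ℝ :=
  ∑ e ∈ P, ∑ e' ∈ P, c e * c e' * Kp e (Prod.map (mirX X0) (mirX X0) e')

/-! ## The families of slabs -/

/-- the slabs of a family of marks at the point `z0` -/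
structure SFam (P : Finset (ℤ × ℤ)) (L : ℕ) (g : ℤ → ℤ × ℤ) {ι : Type} (l : Filter ι) (n : ι → ℕ)
    (j : ι → ℤ → ℝ) (z0 : ℂ) where
  X₁ : ℤ
  X₂ : ℤ
  κ : ℝ
  ψ : ι → (ℤ × ℤ) × (ℤ × ℤ) → ℝ
  hκ : 0 < κ
  hκ' : κ ≤ 1 / 4
  hX₁ : (X₁ : ℝ) + κ < z0.re
  hX₂ : z0.re < X₂ - κ
  slab : SlabIn (P : Set (ℤ × ℤ)) X₁ X₂ ⌊z0.im⌋ (⌊z0.im⌋ + 1)
  hY₁ : ((⌊z0.im⌋ : ℤ) : ℝ) + κ < z0.im
  hY₂ : z0.im < (⌊z0.im⌋ : ℤ) + 1 - κ
  ph : ∀ᶠ i in l, PhC (rf (n i) P) (n i * L) (gr (n i) g) (j i) (ψ i)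
  ok : ∀ᶠ i in l, ∀ (yc : ℤ) (k a : ℕ), |(yc : ℝ) - n i * z0.im| ≤ κ * n i → (k : ℝ) ≤ κ * n i →
    0 < a → 100 * a ≤ k → (Slb.mk (rf (n i) P) (ψ i) (n i * X₁) (n i * X₂) yc k a).Ok

section fam

variable {P : Finset (ℤ × ℤ)} {L : ℕ} {g : ℤ → ℤ × ℤ} {ι : Type} {l : Filter ι} {n : ι → ℕ}
  {j : ι → ℤ → ℝ} {z0 : ℂ}

namespace SFam

variable (D : SFam P L g l n j z0)

/-- the slab with centre `z` for the radius `r` -/
def slb (z : ℂ) (r : ℝ) (i : ι) : Slb :=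
  ⟨rf (n i) P, D.ψ i, n i * D.X₁, n i * D.X₂, ⌊(n i : ℝ) * z.im⌋, ⌊D.κ * n i / 2⌋₊, ⌈100 * r * n i⌉₊⟩

/-- half side of the rectangle of the insertion -/
def rR (_ : SFam P L g l n j z0) (r : ℝ) (i : ι) : ℤ := ⌈32 * r * n i⌉

/-- the rectangle of the insertion -/
def rc (z : ℂ) (r : ℝ) (i : ι) : Finset (ℤ × ℤ) :=
  RF (⌊(n i : ℝ) * z.re⌋ - D.rR r i) (⌊(n i : ℝ) * z.re⌋ + D.rR r i)
    (⌊(n i : ℝ) * z.im⌋ - D.rR r i) (⌊(n i : ℝ) * z.im⌋ + D.rR r i)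

/-- the insertion -/
def ins (_ : SFam P L g l n j z0) (z : ℂ) (r : ℝ) (i : ι) (v : ℤ × ℤ) : ℝ :=
  prof ((DC.mesh (n i) v - z) / r)

/-- column of the vertical cut -/
def X0 (i : ι) : ℤ := n i * (D.X₁ - 4)

/-- start of the window of the shifts -/
def T : ℝ := (D.X₂ - D.X₁ : ℝ) + 6

/-- the value of the insertion for the shifts `x`, `y` -/
def zJ (z : ℂ) (r : ℝ) (i : ι) (x y : ℕ) : ℂ :=
  Ins.zJ (⌊(n i : ℝ) * z.re⌋ - D.rR r i) (⌊(n i : ℝ) * z.re⌋ + D.rR r i)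
    (⌊(n i : ℝ) * z.im⌋ - D.rR r i) (⌊(n i : ℝ) * z.im⌋ + D.rR r i) (D.ins z r i)
    (zS (D.slb z r i) (-2 * y) (-2 * x) (D.rc z r i))

end SFam

/-! ## The premises -/

/-- `hE`, `hUD`, `hEE`: LOWER and the norm inequalities -/
def NormIn : Prop := ∀ (P : Finset (ℤ × ℤ)) (L : ℕ) (g : ℤ → ℤ × ℤ), MPoly P → Cont P L g →
  ∀ {ι : Type} (l : Filter ι) (n : ι → ℕ), Tendsto n l atTop → ∀ j : ι → ℤ → ℝ, MFam L g l n j →
  ∀ z0 ∈ Om P, ∀ D : SFam P L g l n j z0, ∃ r0 > 0, ∀ z ∈ ball z0 (D.κ / 4), ∀ r : ℝ, 0 < r → r < r0 →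
    ∃ C : ℝ, ∀ᶠ i in l, 0 < zE (D.slb z r i) 0 0 ∧
      zU (D.slb z r i) * zD (D.slb z r i) ≤ C * zE (D.slb z r i) 0 0 ^ 2 ∧
      ∀ x y : ℕ, Win D.T 1 (n i) x y →
        zEE (D.slb z r i) (D.X0 i) (-2 * y) (-2 * x) ≤ C * zE (D.slb z r i) 0 0 ^ 2

/-- `hfin`: the finite odd cylinders -/
def CylIn : Prop := ∀ (P : Finset (ℤ × ℤ)) (L : ℕ) (g : ℤ → ℤ × ℤ), MPoly P → Cont P L g →
  ∀ {ι : Type} (l : Filter ι) (n : ι → ℕ), Tendsto n l atTop → ∀ j : ι → ℤ → ℝ, MFam L g l n j →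
  ∀ z0 ∈ Om P, ∀ D : SFam P L g l n j z0, ∃ r0 > 0, ∀ z ∈ ball z0 (D.κ / 4), ∀ r : ℝ, 0 < r → r < r0 →
    ∃ B C : ℝ, 0 < B ∧ ∀ᶠ i in l, ∀ tol : ℝ, 0 < tol → ∃ N : ℕ, 1 ≤ N ∧
      Nonempty (CylData N B C tol (15 * r * n i) (Shifts D.T 1 (n i)) (zU (D.slb z r i))
        (zD (D.slb z r i)) (D.zJ z r i))

/-- `hcs`: the vertical reflection -/
def CsIn : Prop := ∀ (P : Finset (ℤ × ℤ)) (L : ℕ) (g : ℤ → ℤ × ℤ), MPoly P → Cont P L g →
  ∀ {ι : Type} (l : Filter ι) (n : ι → ℕ), Tendsto n l atTop → ∀ j : ι → ℤ → ℝ, MFam L g l n j →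
  ∀ z0 ∈ Om P, ∀ D : SFam P L g l n j z0, ∃ r0 > 0, ∀ z ∈ ball z0 (D.κ / 4), ∀ r : ℝ, 0 < r → r < r0 →
    ∀ᶠ i in l, ∀ x y : ℕ, Win D.T 1 (n i) x y →
      ‖D.zJ z r i x y‖ ^ 2 ≤ zEE (D.slb z r i) (D.X0 i) (-2 * y) (-2 * x) *
        |zJJ (D.X0 i) (Ins.EP (D.rc z r i)) (fun a => D.ins z r i a.2 - D.ins z r i a.1)|

/-- `hJJ`: the two point function of the insertion tends to zero -/
def JJIn : Prop := ∀ (P : Finset (ℤ × ℤ)) (L : ℕ) (g : ℤ → ℤ × ℤ), MPoly P → Cont P L g →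
  ∀ {ι : Type} (l : Filter ι) (n : ι → ℕ), Tendsto n l atTop → ∀ j : ι → ℤ → ℝ, MFam L g l n j →
  ∀ z0 ∈ Om P, ∀ D : SFam P L g l n j z0, ∃ r0 > 0, ∀ z ∈ ball z0 (D.κ / 4), ∀ r : ℝ, 0 < r → r < r0 →
    Tendsto (fun i => zJJ (D.X0 i) (Ins.EP (D.rc z r i))
      (fun a => D.ins z r i a.2 - D.ins z r i a.1)) l (𝓝 0)

/-- `V` is the mean height of `E(0, 0)` in the rectangle `R` -/
def IsHt (S : Slb) (R : Finset (ℤ × ℤ)) (V : ℤ × ℤ → ℝ) : Prop :=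
  ∀ a ∈ dE ZQ R, zS S 0 0 R a / (zE S 0 0 : ℂ) = ((V a.1 - V a.2 : ℝ) : ℂ) * I

/-- `pot`: the mean height exists -/
def PotIn : Prop := ∀ (P : Finset (ℤ × ℤ)) (L : ℕ) (g : ℤ → ℤ × ℤ), MPoly P → Cont P L g →
  ∀ {ι : Type} (l : Filter ι) (n : ι → ℕ), Tendsto n l atTop → ∀ j : ι → ℤ → ℝ, MFam L g l n j →
  ∀ z0 ∈ Om P, ∀ D : SFam P L g l n j z0, ∃ r0 > 0, ∀ z ∈ ball z0 (D.κ / 4), ∀ r : ℝ, 0 < r → r < r0 →
    ∀ᶠ i in l, ∃ V : ℤ × ℤ → ℝ, IsHt (D.slb z r i) (D.rc z r i) V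

/-- `cmp`: comparison with the height of the polygon -/
def CmpIn : Prop := ∀ (P : Finset (ℤ × ℤ)) (L : ℕ) (g : ℤ → ℤ × ℤ), MPoly P → Cont P L g →
  ∀ {ι : Type} (l : Filter ι) (n : ι → ℕ), Tendsto n l atTop → ∀ j : ι → ℤ → ℝ, MFam L g l n j →
  ∀ z0 ∈ Om P, ∀ D : SFam P L g l n j z0, ∃ r0 > 0, ∃ C c : ℝ, 0 < c ∧
    ∀ z ∈ ball z0 (D.κ / 4), ∀ r : ℝ, 0 < r → r < r0 → ∀ᶠ i in l,
      ∀ V : ℤ × ℤ → ℝ, IsHt (D.slb z r i) (D.rc z r i) V → ∃ a : ℝ, ∀ v, dist (DC.mesh (n i) v) z ≤ 2 * r →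
        |(envJ P L g (n i) (j i)).hU v (gr (n i) g 0) - V v - a| ≤ C * r ^ (2 + c)

/-! ## The assembly -/

/-- phases with the jumps of the family -/
theorem exists_phC {i : ι} (hP : MPoly P) (hg : Cont P L g) (h : MFam L g l n j) (hi : 0 < n i) :
    ∃ ψ, PhC (rf (n i) P) (n i * L) (gr (n i) g) (j i) ψ := by
  have hc := CARf.cont_rf hg hi
  obtain ⟨ν, h1, h2, h3, -⟩ := (CARf.mpoly_rf hP hi).disc hc
  have h4 := MFam.per h i
  have h5 := MFam.tot h i (Nat.mul_pos hi hg.pos)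
  exact ⟨_, phC_of hc h1 h3 h4 h5 (exists_ph hc h2 h4 h5)⟩

/-- **The slabs of the families.** -/
theorem exists_sfam (hP : MPoly P) (hg : Cont P L g) (hn : Tendsto n l atTop) (h : MFam L g l n j) :
    ∃ X : Set ℝ, X.Finite ∧ ∀ z ∈ Om P, z.im ∉ X → Nonempty (SFam P L g l n j z) := by
  classical
  obtain ⟨X, hX, h1⟩ := slab_ok hP hg hn h
  refine ⟨X, hX, fun z hz hzX => ?_⟩
  obtain ⟨X₁, X₂, κ, a1, a2, a3, a4, a5, a6, a7, a8⟩ := h1 z hz hzX
  set ψ : ι → (ℤ × ℤ) × (ℤ × ℤ) → ℝ := fun i =>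
    if h : ∃ ψ, PhC (rf (n i) P) (n i * L) (gr (n i) g) (j i) ψ then h.choose else 0 with hψ
  have h2 : ∀ᶠ i in l, PhC (rf (n i) P) (n i * L) (gr (n i) g) (j i) (ψ i) := by
    filter_upwards [hn.eventually_gt_atTop 0] with i hi
    have h3 := exists_phC hP hg h hi
    rw [hψ]
    simp only [dif_pos h3]
    exact h3.choose_spec
  exact ⟨⟨X₁, X₂, κ, ψ, a1, a2, a3, a4, a5, a6, a7, h2, by
    filter_upwards [h2, a8] with i hi hi8
    exact hi8 _ hi⟩⟩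

namespace SFam

variable (D : SFam P L g l n j z0)

theorem T_nonneg : 0 ≤ D.T := by
  have h1 := D.hX₁
  have h2 := D.hX₂
  have h3 := D.hκ
  unfold T
  linarith

/-- the slabs are admissible -/
theorem slb_ok (hn : Tendsto n l atTop) {z : ℂ} (hz : z ∈ ball z0 (D.κ / 4)) {r : ℝ} (hr : 0 < r)
    (hr' : r < D.κ / 10 ^ 5) : ∀ᶠ i in l, (D.slb z r i).Ok := by
  have hκ := D.hκ
  have hnR : Tendsto (fun i => (n i : ℝ)) l atTop := tendsto_natCast_atTop_atTop.comp hn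
  filter_upwards [D.ok, hnR.eventually_ge_atTop (1000 / D.κ), hn.eventually_gt_atTop 0] with i hi h1 h0
  have hn0 : (0 : ℝ) < n i := by exact_mod_cast h0
  have h2 : 1000 ≤ D.κ * n i := by
    have := (div_le_iff₀ hκ).mp h1
    linarith
  refine hi _ _ _ ?_ ?_ ?_ ?_
  · have e1 : |z.im - z0.im| < D.κ / 4 := by
      have h3 := mem_ball.mp hz
      rw [dist_eq] at h3
      have h4 := abs_im_le_norm (z - z0)
      rw [sub_im] at h4
      linarith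
    have f1 := Int.floor_le ((n i : ℝ) * z.im)
    have f2 := Int.lt_floor_add_one ((n i : ℝ) * z.im)
    rw [abs_lt] at e1
    have g1 : (n i : ℝ) * (z.im - z0.im) ≤ n i * (D.κ / 4) :=
      mul_le_mul_of_nonneg_left e1.2.le hn0.le
    have g2 : (n i : ℝ) * (-(D.κ / 4)) ≤ n i * (z.im - z0.im) :=
      mul_le_mul_of_nonneg_left e1.1.le hn0.le
    rw [abs_le]
    constructor <;> nlinarith
  · have f1 := Nat.floor_le (show 0 ≤ D.κ * n i / 2 by positivity)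
    have : 0 ≤ D.κ * n i := by positivity
    linarith
  · exact Nat.ceil_pos.mpr (by positivity)
  · have f1 := Nat.lt_floor_add_one (D.κ * n i / 2)
    have f2 := Nat.ceil_lt_add_one (show 0 ≤ 100 * r * n i by positivity)
    have g1 : r * n i ≤ D.κ / 10 ^ 5 * n i := mul_le_mul_of_nonneg_right hr'.le hn0.le
    have g2 : ((100 * ⌈100 * r * n i⌉₊ : ℕ) : ℝ) ≤ (⌊D.κ * n i / 2⌋₊ : ℕ) := by
      push_cast
      nlinarith
    exact_mod_cast g2

theorem inside (hn : Tendsto n l atTop) (z : ℂ) {r : ℝ} (hr : 0 < r) :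
    ∀ᶠ i in l, Op.Inside (⌊(n i : ℝ) * z.re⌋ - D.rR r i) (⌊(n i : ℝ) * z.re⌋ + D.rR r i)
      (⌊(n i : ℝ) * z.im⌋ - D.rR r i) (⌊(n i : ℝ) * z.im⌋ + D.rR r i) (D.ins z r i) := by
  obtain ⟨K₀, -, h⟩ := Op.boxD_chi prof_smooth prof_supp one_pos prof_tsupport
  have hnR : Tendsto (fun i => (n i : ℝ)) l atTop := tendsto_natCast_atTop_atTop.comp hn
  filter_upwards [hnR.eventually_ge_atTop (1 / r), hn.eventually_gt_atTop 0] with i h1 h0
  obtain ⟨K, -, -, h2⟩ := h (n i) z r h0 hr (by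
    have := (div_le_iff₀ hr).mp h1
    linarith)
  exact (h2 (D.rR r i) (by
    unfold rR
    have := Int.le_ceil (32 * r * n i)
    linarith)).inside

end SFam

theorem CylData.mono {N : ℕ} {B C C' tol L₀ : ℝ} {P : ℕ → ℕ → Prop} {zU zD : ℝ} {zJ : ℕ → ℕ → ℂ}
    (hC : C ≤ C') (h : Nonempty (CylData N B C tol L₀ P zU zD zJ)) :
    Nonempty (CylData N B C' tol L₀ P zU zD zJ) := by
  obtain ⟨E⟩ := h
  exact ⟨{ E with
    hX0' := E.hX0'.trans hC
    hX1' := E.hX1'.trans hC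
    hX2' := E.hX2'.trans hC }⟩

/-- **Step 3 from its premises.** -/
theorem coreFam_of (hN : NormIn) (hY : CylIn) (hS : CsIn) (hJ : JJIn) (hV : PotIn) (hK : CmpIn) :
    CoreFam := by
  intro P L g hP hg ι l n hn j hj
  obtain ⟨X, hX, h1⟩ := exists_sfam hP hg hn hj
  refine ⟨X, hX, core_of_run fun z0 hz0 hzX => ?_⟩
  obtain ⟨D⟩ := h1 z0 hz0 hzX
  obtain ⟨r1, hr1, g1⟩ := hN P L g hP hg l n hn j hj z0 hz0 D
  obtain ⟨r2, hr2, g2⟩ := hY P L g hP hg l n hn j hj z0 hz0 D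
  obtain ⟨r3, hr3, g3⟩ := hS P L g hP hg l n hn j hj z0 hz0 D
  obtain ⟨r4, hr4, g4⟩ := hJ P L g hP hg l n hn j hj z0 hz0 D
  obtain ⟨r5, hr5, g5⟩ := hV P L g hP hg l n hn j hj z0 hz0 D
  obtain ⟨r6, hr6, C6, c, hc, g6⟩ := hK P L g hP hg l n hn j hj z0 hz0 D
  have hκ := D.hκ
  refine ⟨D.κ / 4, by positivity, min (min (min r1 r2) (min r3 r4)) (min r5 r6),
    lt_min (lt_min (lt_min hr1 hr2) (lt_min hr3 hr4)) (lt_min hr5 hr6), C6, c, hc,
    fun z hz r hr hr' => ?_⟩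
  have q0 := hr'.trans_le (min_le_left _ _)
  have q0' := hr'.trans_le (min_le_right _ _)
  have q1 := q0.trans_le ((min_le_left _ _).trans (min_le_left _ _))
  have q2 := q0.trans_le ((min_le_left _ _).trans (min_le_right _ _))
  have q3 := q0.trans_le ((min_le_right _ _).trans (min_le_left _ _))
  have q4 := q0.trans_le ((min_le_right _ _).trans (min_le_right _ _))
  have q5 := q0'.trans_le (min_le_left _ _)
  have q6 := q0'.trans_le (min_le_right _ _)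
  obtain ⟨C1, k1⟩ := g1 z hz r hr q1
  obtain ⟨B, C2, hB, k2⟩ := g2 z hz r hr q2
  have k3 := g3 z hz r hr q3
  have k4 := g4 z hz r hr q4
  have k5 := g5 z hz r hr q5
  have k6 := g6 z hz r hr q6
  classical
  set C : ℝ := max 1 (max C1 C2) with hC
  have hC1 : C1 ≤ C := (le_max_left _ _).trans (le_max_right _ _)
  have hC2 : C2 ≤ C := (le_max_right _ _).trans (le_max_right _ _)
  set V : ι → ℤ × ℤ → ℝ := fun i =>
    if h : ∃ V : ℤ × ℤ → ℝ, IsHt (D.slb z r i) (D.rc z r i) V then h.choose else 0 with hVd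
  have kV : ∀ᶠ i in l, IsHt (D.slb z r i) (D.rc z r i) (V i) := by
    filter_upwards [k5] with i hi
    rw [hVd]
    simp only [dif_pos hi]
    exact hi.choose_spec
  exact ⟨{
    V := V
    X₀ := fun i => ⌊(n i : ℝ) * z.re⌋ - D.rR r i
    X₁ := fun i => ⌊(n i : ℝ) * z.re⌋ + D.rR r i
    Y₀ := fun i => ⌊(n i : ℝ) * z.im⌋ - D.rR r i
    Y₁ := fun i => ⌊(n i : ℝ) * z.im⌋ + D.rR r i
    h := 15 * r
    s := 1
    C := C
    B := B
    T := D.T
    L := fun i => n i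
    zE := fun i => zE (D.slb z r i) 0 0
    zU := fun i => zU (D.slb z r i)
    zD := fun i => zD (D.slb z r i)
    zJJ := fun i => |zJJ (D.X0 i) (Ins.EP (D.rc z r i)) (fun a => D.ins z r i a.2 - D.ins z r i a.1)|
    zEE := fun i x y => zEE (D.slb z r i) (D.X0 i) (-2 * y) (-2 * x)
    zs := fun i x y => zS (D.slb z r i) (-2 * y) (-2 * x) (D.rc z r i)
    hh := by positivity
    hs := one_pos
    hC := le_max_left _ _
    hB := hB
    hT := D.T_nonneg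
    hL := tendsto_natCast_atTop_atTop.comp hn
    hE := k1.mono fun i hi => hi.1
    hJJ0 := Eventually.of_forall fun i => abs_nonneg _
    hJJ := by
      have := k4.abs
      rwa [abs_zero] at this
    hcs := k3
    hEE := k1.mono fun i hi x y hxy => (hi.2.2 x y hxy).trans
      (mul_le_mul_of_nonneg_right hC1 (sq_nonneg _))
    hUD := k1.mono fun i hi => hi.2.1.trans (mul_le_mul_of_nonneg_right hC1 (sq_nonneg _))
    hfin := k2.mono fun i hi tol htol => by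
      obtain ⟨N, hN1, hN2⟩ := hi tol htol
      exact ⟨N, hN1, CylData.mono hC2 hN2⟩
    inside := D.inside hn z hr
    pot := kV.mono fun i hi a ha => by
      have := hi a ha
      simpa using this
    cmp := by
      filter_upwards [kV, k6] with i hi hi6
      exact hi6 _ hi }⟩

end fam

end

end Pool.Agent.SixB.Asm3
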