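import Pool.Agent.Lib.SixB.S3DblS
import Pool.Agent.Lib.SixB.S3ZplE

/-!
# 6BD step 3: island sides of the double of a half surface

`Z` is the set of the island sides of a surface which is the plane outside of the box of radius `L`
(`IslM`). `islD Q A S m Z`: the island sides of the double, directed into the surface (in the copy `true`
the sides are reversed).
* `islM_dbl`: `IslM` for the double, if `S` is closed under adjacency across sides which are not on the cut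
  (`hcl`) and no island side is on the cut (`hcut`).
* `glueZD`: `GlueZ` for the double with the set `islD`.
-/

set_option autoImplicit false
set_option linter.unusedSectionVars false

namespace Pool.Agent.SixB.Dbl

open Pool.Agent.Perc Pool.Agent.Perc.Q
open Pool.Agent.SixB.Rel (QChart GlueZ FM IslM mem_RF0 RF0_mono)

noncomputable section

variable {V Φ : Type} [DecidableEq V] [DecidableEq Φ] {ι : Type}

/-! ## Boundary sides -/

theorem mem_bSD {Q : QC V Φ} {F : Finset Φ} {a : V × V} :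
    a ∈ bS Q F ↔ (∃ f ∈ F, ∃ k, a = sd Q f k) ∧ ∀ f ∈ F, ∀ k, sd Q f k ≠ a.swap := by
  constructor
  · intro h
    refine ⟨bS_sd h, fun f hf k hk => ?_⟩
    refine (mem_bS.mp h).2 f (by exact_mod_cast hf) k ?_
    rw [← Prod.swap_swap a, ← hk]
    rfl
  · rintro ⟨⟨f, hf, k, hk⟩, h⟩
    refine mem_bS.mpr ⟨?_, ?_⟩
    · rw [hk]
      exact sd_mem hf k
    · intro g hg l hl
      refine h g (by exact_mod_cast hg) l ?_
      rw [hl]
      rfl

section sides

variable {Q : QC V Φ} {S : Set Φ} {m : ι → V × V}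

/-- the index of the original side -/
def kx (b : Bool) (k : ZMod 4) : ZMod 4 := if b = true then 2 - k else k

/-- the directed side `a` in the copy `b`, directed as the surface -/
def dblE (m : ι → V × V) (b : Bool) (a : V × V) : (V × Bool × Bool) × (V × Bool × Bool) :=
  if b = true then (dblA m true a).swap else dblA m false a

theorem kx_kx (b : Bool) (k : ZMod 4) : kx b (kx b k) = k := by
  unfold kx
  cases b
  · simp
  · simp

theorem dblE_swap (b : Bool) (a : V × V) : dblE m b a.swap = (dblE m b a).swap := by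
  unfold dblE
  cases b
  · simp [dblA_swap]
  · simp [dblA_swap]

theorem dblE_inj {b : Bool} {a a' : V × V} (h : dblE m b a = dblE m b a') : a = a' := by
  unfold dblE at h
  cases b
  · simp only [Bool.false_eq_true, if_false] at h
    exact dblA_inj h
  · simp only [if_true] at h
    exact dblA_inj (Prod.swap_injective h)

theorem dblE_cut (b : Bool) (i : ι) : dblE m (!b) (m i) = (dblE m b (m i)).swap := by
  unfold dblE
  cases b
  · simp [dblA_cut true i]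
  · simp [dblA_cut true i]

/-- sides of different copies -/
theorem dblE_cross {b : Bool} {a a' : V × V} (h : dblE m b a = dblE m (!b) a') :
    a'.swap = a ∧ onCut m a.1 ∧ onCut m a.2 := by
  have key : ∀ {a a' : V × V}, dblA m false a = (dblA m true a').swap →
      a'.swap = a ∧ onCut m a.1 ∧ onCut m a.2 := by
    intro a a' h
    obtain ⟨e1, l1⟩ := dblV_cross (congrArg Prod.fst h)
    obtain ⟨e2, l2⟩ := dblV_cross (congrArg Prod.snd h)
    exact ⟨Prod.ext e1.symm e2.symm, l1, l2⟩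
  unfold dblE at h
  cases b
  · simp only [Bool.false_eq_true, if_false, Bool.not_false, if_true] at h
    exact key h
  · simp only [if_true, Bool.not_true, Bool.false_eq_true, if_false] at h
    obtain ⟨e, l1, l2⟩ := key h.symm
    refine ⟨by rw [← e, Prod.swap_swap], ?_, ?_⟩
    · rw [← e] at l2
      exact l2
    · rw [← e] at l1
      exact l1

theorem sd_dblS {hm : OneSidedS Q S m} {f : Φ} (hf : f ∈ S) (b : Bool) (k : ZMod 4) :
    sd (dblS Q S m hm) (f, b) k = dblE m b (sd Q f (kx b k)) := by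
  unfold dblE kx
  cases b
  · simp only [Bool.false_eq_true, if_false]
    exact dblS_sd_false hf k
  · simp only [if_true]
    rw [dblS_sd_true hf, dblA_swap]

end sides

open Classical in
/-- the island sides of the double, directed into the surface -/
def islD (Q : QC V Φ) (A : Finset Φ) (S : Set Φ) (m : ι → V × V) (Z : Finset (V × V)) :
    Finset ((V × Bool × Bool) × (V × Bool × Bool)) :=
  (Z.filter fun a => a ∈ dE Q (corS A S)).image (dblE m false) ∪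
    (Z.filter fun a => a ∈ dE Q (corS A S)).image (dblE m true)

theorem mem_islD {Q : QC V Φ} {A : Finset Φ} {S : Set Φ} {m : ι → V × V} {Z : Finset (V × V)}
    {a' : (V × Bool × Bool) × (V × Bool × Bool)} : a' ∈ islD Q A S m Z ↔
      ∃ b, ∃ a ∈ Z, a ∈ dE Q (corS A S) ∧ a' = dblE m b a := by
  classical
  unfold islD
  rw [Finset.mem_union, Finset.mem_image, Finset.mem_image]
  constructor
  · rintro (⟨a, ha, rfl⟩ | ⟨a, ha, rfl⟩)
    · exact ⟨false, a, (Finset.mem_filter.mp ha).1, (Finset.mem_filter.mp ha).2, rfl⟩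
    · exact ⟨true, a, (Finset.mem_filter.mp ha).1, (Finset.mem_filter.mp ha).2, rfl⟩
  · rintro ⟨_ | _, a, h1, h2, rfl⟩
    · exact Or.inl ⟨a, Finset.mem_filter.mpr ⟨h1, h2⟩, rfl⟩
    · exact Or.inr ⟨a, Finset.mem_filter.mpr ⟨h1, h2⟩, rfl⟩

section plane

variable {up : Bool} {g₀ : ℤ} {Q : QC V Φ} {A : Finset Φ} {φ : ℤ × ℤ → V}
  {ψ : ℤ × ℤ → Φ} {S : Set Φ} {m : ι → V × V} {P Z : Finset (V × V)} {L L' M : ℤ}

/-- the faces of one copy of the window of radius `M` of the double -/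
def InG (up : Bool) (g₀ L : ℤ) (A : Finset Φ) (S : Set Φ) (ψ : ℤ × ℤ → Φ) (M : ℤ) (f : Φ) : Prop :=
  (f ∈ A ∧ f ∈ S) ∨
    ∃ g, g ∉ RFb (0, 0) L ∧ inH up g₀ g ∧ qtf g₀ false g ∈ RFb (0, 0) M ∧ f = ψ g

theorem qtf_mem (b : Bool) (g : ℤ × ℤ) :
    qtf g₀ b g ∈ RFb (0, 0) M ↔ qtf g₀ false g ∈ RFb (0, 0) M := by
  rw [mem_RF0, mem_RF0]
  unfold qtf
  cases b
  · rfl
  · simp only [if_true, Bool.false_eq_true, if_false]
    omega

theorem mem_FMd (hL : L + |g₀| ≤ L') (hM : L' ≤ M) {f : Φ} {b : Bool} :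
    (f, b) ∈ FM L' (cor2 up g₀ A S ψ (wZ up g₀ L L')) (dblψ up g₀ ψ) M ↔
      InG up g₀ L A S ψ M f := by
  unfold FM
  rw [Finset.mem_union, mem_cor2, Finset.mem_image]
  constructor
  · rintro ((h | ⟨g, hg, h⟩) | ⟨g, hg, h⟩)
    · exact Or.inl h
    · obtain ⟨h1, h2⟩ := mem_wZ.mp hg
      obtain ⟨e1, e2⟩ := Prod.mk.inj h
      refine Or.inr ⟨ptf up g₀ g, h2, inH_ptf up g₀ g, ?_, e1.symm⟩
      rw [← qtf_mem (cc up g.2), qtf_ptf]
      exact RF0_mono hM h1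
    · obtain ⟨h1, h2⟩ := Finset.mem_sdiff.mp hg
      obtain ⟨e1, e2⟩ := Prod.mk.inj h
      refine Or.inr ⟨ptf up g₀ g, ptf_out hL h2, inH_ptf up g₀ g, ?_, e1.symm⟩
      rw [← qtf_mem (cc up g.2), qtf_ptf]
      exact h1
  · rintro (h | ⟨g, h1, h2, h3, rfl⟩)
    · exact Or.inl (Or.inl h)
    · have e1 : dblψ up g₀ ψ (qtf g₀ b g) = (ψ g, b) := by
        unfold dblψ
        rw [ptf_qtf h2, cc_qtf h2]
      have h4 : qtf g₀ b g ∈ RFb (0, 0) M := (qtf_mem b g).mpr h3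
      by_cases h5 : qtf g₀ b g ∈ RFb (0, 0) L'
      · refine Or.inl (Or.inr ⟨_, mem_wZ.mpr ⟨h5, ?_⟩, e1⟩)
        rw [ptf_qtf h2]
        exact h1
      · exact Or.inr ⟨_, Finset.mem_sdiff.mpr ⟨h4, h5⟩, e1⟩

theorem InG.memS (H : HalfS up g₀ ZQ (outZ L) Q A φ ψ S m) {f : Φ} (h : InG up g₀ L A S ψ M f) :
    f ∈ S := by
  rcases h with ⟨-, h⟩ | ⟨g, h1, h2, -, rfl⟩
  · exact h
  · exact H.out g h1 h2

theorem mem_FM' {f : Φ} : f ∈ FM L A ψ M ↔
    f ∈ A ∨ ∃ g, g ∉ RFb (0, 0) L ∧ g ∈ RFb (0, 0) M ∧ f = ψ g := by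
  unfold FM
  rw [Finset.mem_union, Finset.mem_image]
  constructor
  · rintro (h | ⟨g, hg, h⟩)
    · exact Or.inl h
    · exact Or.inr ⟨g, (Finset.mem_sdiff.mp hg).2, (Finset.mem_sdiff.mp hg).1, h.symm⟩
  · rintro (h | ⟨g, h1, h2, h⟩)
    · exact Or.inl h
    · exact Or.inr ⟨g, Finset.mem_sdiff.mpr ⟨h2, h1⟩, h.symm⟩

theorem InG.win {f : Φ} (h : InG up g₀ L A S ψ M f) : ∃ K, L ≤ K ∧ f ∈ FM L A ψ K := by
  rcases h with ⟨h, -⟩ | ⟨g, h1, -, -, rfl⟩
  · exact ⟨L, le_rfl, mem_FM'.mpr (Or.inl h)⟩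
  · obtain ⟨K, hK, hgK⟩ := exists_RFb g L
    exact ⟨K, hK, mem_FM'.mpr (Or.inr ⟨g, h1, hgK, rfl⟩)⟩

/-- the other face at a side which is not an island side -/
theorem exists_nb (hI : IslM L Q A ψ Z) {f : Φ} {k : ZMod 4} {K : ℤ} (hK : L ≤ K)
    (hf : f ∈ FM L A ψ K) (hZ : sd Q f k ∉ Z) :
    ∃ f' ∈ FM L A ψ (K + 1), ∃ k', sd Q f' k' = (sd Q f k).swap := by
  by_contra hno
  push Not at hno
  have hsub : ∀ f, f ∈ FM L A ψ K → f ∈ FM L A ψ (K + 1) := by
    intro f hf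
    rcases mem_FM'.mp hf with h | ⟨g, h1, h2, h3⟩
    · exact mem_FM'.mpr (Or.inl h)
    · exact mem_FM'.mpr (Or.inr ⟨g, h1, RF0_mono (by omega) h2, h3⟩)
  refine hI.out K (K + 1) hK le_rfl (sd Q f k) ?_ hZ ?_
  · exact mem_bSD.mpr ⟨⟨f, hf, k, rfl⟩, fun f' hf' k' => hno f' (hsub f' hf') k'⟩
  · exact mem_bSD.mpr ⟨⟨f, hsub f hf, k, rfl⟩, fun f' hf' k' => hno f' hf' k'⟩

theorem psi_inj (HZ : GlueZ L Q A φ ψ P) {g g' : ℤ × ℤ} (hg : g ∉ RFb (0, 0) L)
    (hg' : g' ∉ RFb (0, 0) L) (h : ψ g = ψ g') : g = g' := by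
  obtain ⟨K, -, hK⟩ := exists_RFb g 0
  obtain ⟨K', -, hK'⟩ := exists_RFb g' 0
  have h1 : g ∈ RFb (0, 0) (max K K') \ RFb (0, 0) L :=
    Finset.mem_sdiff.mpr ⟨RF0_mono (le_max_left _ _) hK, hg⟩
  have h2 : g' ∈ RFb (0, 0) (max K K') \ RFb (0, 0) L :=
    Finset.mem_sdiff.mpr ⟨RF0_mono (le_max_right _ _) hK', hg'⟩
  exact (HZ.chart (max K K')).injOn (by exact_mod_cast h1) (by exact_mod_cast h2) h

theorem inH_of (HZ : GlueZ L Q A φ ψ P) (H : HalfS up g₀ ZQ (outZ L) Q A φ ψ S m) {g : ℤ × ℤ}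
    (hg : g ∉ RFb (0, 0) L) (h : ψ g ∈ S) : inH up g₀ g := by
  rcases H.mem _ h with h1 | ⟨g', h1, h2, h3⟩
  · exact absurd h1 (HZ.dj g hg)
  · rw [psi_inj HZ hg h1 h3]
    exact h2

/-- adjacent outer faces are adjacent in the plane -/
theorem near_of (HZ : GlueZ L Q A φ ψ P) {g g' : ℤ × ℤ} (hg : g ∉ RFb (0, 0) L)
    (hg' : g' ∉ RFb (0, 0) L) {k k' : ZMod 4} (h : sd Q (ψ g') k' = (sd Q (ψ g) k).swap) :
    (g'.1 ≤ g.1 + 1 ∧ g.1 ≤ g'.1 + 1) ∧ (g'.2 ≤ g.2 + 1 ∧ g.2 ≤ g'.2 + 1) := by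
  obtain ⟨K, -, hK⟩ := exists_RFb g 0
  obtain ⟨K', -, hK'⟩ := exists_RFb g' 0
  have h1 : g ∈ RFb (0, 0) (max K K') \ RFb (0, 0) L :=
    Finset.mem_sdiff.mpr ⟨RF0_mono (le_max_left _ _) hK, hg⟩
  have h2 : g' ∈ RFb (0, 0) (max K K') \ RFb (0, 0) L :=
    Finset.mem_sdiff.mpr ⟨RF0_mono (le_max_right _ _) hK', hg'⟩
  have hX := HZ.chart (max K K')
  have e0 : Q.c (ψ g') k' = Q.c (ψ g) (k + 1) := congrArg Prod.fst h
  have e1 := hX.cor g h1 (k + 1)
  have e2 := hX.cor g' h2 k'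
  rw [add_zero] at e1 e2
  rw [e1, e2] at e0
  have e3 := hX.inj g' h2 g h1 _ _ e0
  rw [ZQ_c, ZQ_c] at e3
  rcases isCor_cor0 g' k' with ⟨a1 | a1, a2 | a2⟩ <;>
    rcases isCor_cor0 g (k + 1) with ⟨b1 | b1, b2 | b2⟩ <;>
    · rw [e3] at a1 a2
      omega

/-- **Island sides of the double.** -/
theorem islM_dbl (HZ : GlueZ L Q A φ ψ P) (H : HalfS up g₀ ZQ (outZ L) Q A φ ψ S m)
    (hL : L + |g₀| ≤ L') (hI : IslM L Q A ψ Z)
    (hcl : ∀ f ∈ S, ∀ k, ∀ f', (f' ∈ A ∨ ∃ g, g ∉ RFb (0, 0) L ∧ f' = ψ g) → ∀ k',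
      sd Q f' k' = (sd Q f k).swap → f' ∈ S ∨ ∃ i, sd Q f k = m i)
    (hcut : ∀ a ∈ Z, ∀ i, a ≠ m i) :
    IslM L' (dblS Q S m H.os) (cor2 up g₀ A S ψ (wZ up g₀ L L')) (dblψ up g₀ ψ)
      (islD Q A S m Z) where
  sub M hM := by
    intro a' ha'
    obtain ⟨b, a, haZ, haE, rfl⟩ := mem_islD.mp ha'
    -- the face of the side
    obtain ⟨f, hf, k, hk⟩ := mem_dE.mp haE
    obtain ⟨hfA, hfS⟩ := mem_corS.mp hf
    have hI0 := mem_bSD.mp (hI.sub L le_rfl haZ)
    have hka : a = sd Q f k := by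
      rcases hk with h | h
      · exact h
      · exact absurd (by rw [h, Prod.swap_swap])
          (hI0.2 f (mem_FM'.mpr (Or.inl hfA)) k)
    have hInG : InG up g₀ L A S ψ M f := Or.inl ⟨hfA, hfS⟩
    refine mem_bSD.mpr ⟨⟨(f, b), (mem_FMd hL hM).mpr hInG, kx b k, ?_⟩, ?_⟩
    · rw [sd_dblS hfS, kx_kx, hka]
    · rintro ⟨f', b'⟩ hf' l hl
      have hG' := (mem_FMd hL hM).mp hf'
      have hS' := hG'.memS H
      rw [sd_dblS hS', ← dblE_swap] at hl
      by_cases hb : b' = b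
      · subst hb
        have e := dblE_inj hl
        obtain ⟨K, hK, hfK⟩ := hG'.win
        exact (mem_bSD.mp (hI.sub K hK haZ)).2 f' hfK _ e
      · have hb' : b = !b' := by cases b <;> cases b' <;> simp_all
        rw [hb'] at hl
        obtain ⟨e, l1, l2⟩ := dblE_cross hl
        rw [Prod.swap_swap] at e
        rw [← e, hka] at l1 l2
        obtain ⟨i, hi⟩ := H.os.only f hfS k l1 l2
        exact hcut a haZ i (hka.trans hi)
  out M M' hM hM' := by
    intro a' ha' hnot ha''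
    obtain ⟨⟨⟨f, b⟩, hf, k, hk⟩, hno⟩ := mem_bSD.mp ha'
    have hG := (mem_FMd hL hM).mp hf
    have hS := hG.memS H
    rw [sd_dblS hS] at hk
    obtain ⟨a, k₀, hak, rfl⟩ : ∃ a k₀, a = sd Q f k₀ ∧ a' = dblE m b a := ⟨_, _, rfl, hk⟩
    -- the side is not on the cut
    have hnc : ¬ ∃ i, sd Q f k₀ = m i := by
      rintro ⟨i, hi⟩
      refine hno (f, !b) ((mem_FMd hL hM).mpr hG) (kx (!b) k₀) ?_
      rw [sd_dblS hS, kx_kx, hak, hi, dblE_cut]
    -- the other face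
    have key : ∃ f', InG up g₀ L A S ψ M' f' ∧ ∃ k', sd Q f' k' = a.swap := by
      rcases hG with ⟨hfA, -⟩ | ⟨g, hg1, hg2, hg3, rfl⟩
      · have haZ : sd Q f k₀ ∉ Z := by
          intro hZ
          apply hnot
          refine mem_islD.mpr ⟨b, a, hak ▸ hZ, ?_, rfl⟩
          rw [hak]
          exact sd_mem (mem_corS.mpr ⟨hfA, hS⟩) k₀
        obtain ⟨f', hf', k', hk'⟩ := exists_nb hI le_rfl (mem_FM'.mpr (Or.inl hfA)) haZ
        refine ⟨f', ?_, k', by rw [hak]; exact hk'⟩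
        rcases mem_FM'.mp hf' with h1 | ⟨g', h1, h2, rfl⟩
        · rcases hcl f hS k₀ f' (Or.inl h1) k' hk' with h3 | h3
          · exact Or.inl ⟨h1, h3⟩
          · exact absurd h3 hnc
        · rcases hcl f hS k₀ (ψ g') (Or.inr ⟨g', h1, rfl⟩) k' hk' with h3 | h3
          · refine Or.inr ⟨g', h1, inH_of HZ H h1 h3, ?_, rfl⟩
            exact qtf_box (L := L + 1) (by omega) h2 false
          · exact absurd h3 hnc
      · have haZ : sd Q (ψ g) k₀ ∉ Z := by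
          intro hZ
          obtain ⟨f₀, hf₀, k₁, h1⟩ := (mem_bSD.mp (hI.sub L le_rfl hZ)).1
          have h2 : f₀ ∈ A := by
            rcases mem_FM'.mp hf₀ with h | ⟨g', h3, h4, -⟩
            · exact h
            · exact absurd h4 h3
          have h3 := (Q.inj (congrArg Prod.fst h1) (congrArg Prod.snd h1)).1
          exact HZ.dj g hg1 (h3 ▸ h2)
        obtain ⟨K, hK, hgK⟩ := exists_RFb g L
        obtain ⟨f', hf', k', hk'⟩ := exists_nb hI hK
          (mem_FM'.mpr (Or.inr ⟨g, hg1, hgK, rfl⟩)) haZ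
        refine ⟨f', ?_, k', by rw [hak]; exact hk'⟩
        rcases mem_FM'.mp hf' with h1 | ⟨g', h1, h2, rfl⟩
        · rcases hcl _ hS k₀ f' (Or.inl h1) k' hk' with h3 | h3
          · exact Or.inl ⟨h1, h3⟩
          · exact absurd h3 hnc
        · rcases hcl _ hS k₀ (ψ g') (Or.inr ⟨g', h1, rfl⟩) k' hk' with h3 | h3
          · refine Or.inr ⟨g', h1, inH_of HZ H h1 h3, ?_, rfl⟩
            obtain ⟨⟨n1, n2⟩, n3, n4⟩ := near_of HZ hg1 h1 hk'
            rw [mem_RF0] at hg3 ⊢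
            unfold qtf at hg3 ⊢
            simp only [Bool.false_eq_true, if_false] at hg3 ⊢
            omega
          · exact absurd h3 hnc
    obtain ⟨f', hG', k', hk'⟩ := key
    refine (mem_bSD.mp ha'').2 (f', b) ((mem_FMd hL (by omega)).mpr hG') (kx b k') ?_
    rw [sd_dblS (hG'.memS H), kx_kx, hk', dblE_swap]

theorem islD_sub {hm : OneSidedS Q S m} {W : Finset (ℤ × ℤ)} :
    islD Q A S m Z ⊆ dE (dblS Q S m hm) (cor2 up g₀ A S ψ W) := by
  intro a' ha'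
  obtain ⟨b, a, h1, h2, rfl⟩ := mem_islD.mp ha'
  obtain ⟨f, hf, k, hk⟩ := mem_dE.mp h2
  obtain ⟨hfA, hfS⟩ := mem_corS.mp hf
  refine mem_dE.mpr ⟨(f, b), mem_cor2.mpr (Or.inl ⟨hfA, hfS⟩), kx b k, ?_⟩
  rw [sd_dblS hfS, kx_kx, ← dblE_swap]
  rcases hk with h | h
  · exact Or.inl (by rw [h])
  · exact Or.inr (by rw [h])

/-- `GlueZ` for the double with the island sides `islD`. -/
theorem glueZD (HZ : GlueZ L Q A φ ψ P) (H : HalfS up g₀ ZQ (outZ L) Q A φ ψ S m)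
    (hL : L + |g₀| ≤ L') :
    GlueZ L' (dblS Q S m H.os) (cor2 up g₀ A S ψ (wZ up g₀ L L')) (dblφ up g₀ φ m)
      (dblψ up g₀ ψ) (islD Q A S m Z) :=
  { glueZ HZ H hL with P_sub := islD_sub }

end plane

end

end Pool.Agent.SixB.Dbl
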