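import Pool.Agent.Lib.SixB.S3Mirror
import Pool.Agent.Lib.SixB.S3PlaneE

/-!
# 6BD step 3: the double of a half surface (finite or infinite)

* `OneSidedS Q S m`, `dblS Q S m`: as `OneSided`, `dbl` for a SET `S` of faces; `dbl_eq : dbl Q F m = dblS Q F m`.
* `dblS_chart`: `dbl` of a finite part of `S` is a chart of `dblS Q S m`.
* `StdB B`: the complex `B` has the corners of the square lattice (`ZQ`, `CQ N`).
* `cc up y`, `htv`, `htf`, `ptf`: the doubled coordinates: cut row `g₀`, upper (`up = true`) or lower half;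
  the copy `false` is the half itself, translated by `-g₀`, the copy `true` is its reflection in the cut row.
* `HalfS`: `S` is one half of the surface with the outer faces `ψ '' O`.
* `HalfS.chart`: the chart `dblφ`, `dblψ` of the doubled outer part.
* `glueZ`: the double of a half of a `GlueZ` surface is a `GlueZ` surface.
-/

set_option autoImplicit false
set_option linter.unusedSectionVars false

namespace Pool.Agent.SixB.Dbl

open Pool.Agent.Perc Pool.Agent.Perc.Q Relation ComplexConjugate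
open Pool.Agent.SixB.Rel (QChart GlueZ)

noncomputable section

variable {V Φ : Type} [DecidableEq V] [DecidableEq Φ] {ι : Type}

/-! ## The doubled complex of a set of faces -/

/-- the family `m` of sides of `S` is a cut line, directed into `S` -/
structure OneSidedS (Q : QC V Φ) (S : Set Φ) {ι : Type} (m : ι → V × V) : Prop where
  fam : Fam m
  into : ∀ i, ∃ f ∈ S, ∃ k, sd Q f k = m i
  only : ∀ f ∈ S, ∀ k, onCut m (Q.c f k) → onCut m (Q.c f (k + 1)) → ∃ i, sd Q f k = m i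

theorem OneSidedS.of {Q : QC V Φ} {F : Finset Φ} {m : ι → V × V} (hm : OneSided Q F m) :
    OneSidedS Q (F : Set Φ) m where
  fam := hm.fam
  into i := by
    obtain ⟨f, hf, k, h⟩ := hm.into i
    exact ⟨f, by exact_mod_cast hf, k, h⟩
  only f hf := hm.only f (by exact_mod_cast hf)

open Classical in
/-- **The doubled complex.** -/
def dblS (Q : QC V Φ) (S : Set Φ) {ι : Type} (m : ι → V × V) (hm : OneSidedS Q S m) :
    QC (V × Bool × Bool) (Φ × Bool) where
  c := fun f k => if f.1 ∈ S then dblV m f.2 (Q.c f.1 (if f.2 = true then 3 - k else k)) else (Q.c f.1 k, f.2, true)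
  inj := by
    rintro ⟨f, b⟩ k ⟨f', b'⟩ k' h1 h2
    by_cases hf : f ∈ S <;> by_cases hf' : f' ∈ S
    · simp only [hf, hf', if_true] at h1 h2
      have cross : ∀ {f f' : Φ} {k k' : ZMod 4}, f ∈ S → f' ∈ S →
          dblV m false (Q.c f k) = dblV m true (Q.c f' (3 - k')) →
          dblV m false (Q.c f (k + 1)) = dblV m true (Q.c f' (3 - (k' + 1))) → False := by
        intro f f' k k' hf hf' h1 h2
        obtain ⟨e1, l1⟩ := dblV_cross h1
        obtain ⟨e2, l2⟩ := dblV_cross h2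
        obtain ⟨i, hi⟩ := hm.only f hf k l1 l2
        rw [three_sub] at e2
        have l3 : onCut m (Q.c f' (2 - k')) := e2 ▸ l2
        have l4 : onCut m (Q.c f' (2 - k' + 1)) := by rw [two_sub_add]; exact e1 ▸ l1
        obtain ⟨j, hj⟩ := hm.only f' hf' (2 - k') l3 l4
        apply hm.fam.2 i j
        rw [← hi, ← hj]
        unfold sd
        rw [two_sub_add, e1, e2]
        rfl
      cases b <;> cases b'
      · simp only [Bool.false_eq_true, if_false] at h1 h2
        obtain ⟨e1, e2⟩ := Q.inj (dblV_inj h1) (dblV_inj h2)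
        exact ⟨by rw [e1], e2⟩
      · simp only [Bool.false_eq_true, if_false, if_true] at h1 h2
        exact (cross hf hf' h1 h2).elim
      · simp only [Bool.false_eq_true, if_false, if_true] at h1 h2
        exact (cross hf' hf h1.symm h2.symm).elim
      · simp only [if_true] at h1 h2
        have e1 := dblV_inj h1
        have e2 := dblV_inj h2
        rw [three_sub, three_sub] at e2
        have e3 : Q.c f (2 - k + 1) = Q.c f' (2 - k' + 1) := by rw [two_sub_add, two_sub_add]; exact e1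
        obtain ⟨e4, e5⟩ := Q.inj e2 e3
        exact ⟨by rw [e4], by simpa using e5⟩
    · simp only [hf, hf', if_true, if_false] at h1
      have := congrArg (fun p => p.2.2) h1
      simp [dblV] at this
    · simp only [hf, hf', if_true, if_false] at h1
      have := congrArg (fun p => p.2.2) h1
      simp [dblV] at this
    · simp only [hf, hf', if_false] at h1 h2
      obtain ⟨e1, e2⟩ := Q.inj (congrArg Prod.fst h1) (congrArg Prod.fst h2)
      have e3 : b = b' := congrArg (fun p => p.2.1) h1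
      exact ⟨by rw [e1, e3], e2⟩

theorem QC_ext {Q Q' : QC V Φ} (h : ∀ f k, Q.c f k = Q'.c f k) : Q = Q' := by
  cases Q with
  | mk c i =>
    cases Q' with
    | mk c' i' =>
      have : c = c' := funext fun f => funext fun k => h f k
      subst this
      rfl

/-- the finite double is a special case -/
theorem dbl_eq (Q : QC V Φ) (F : Finset Φ) (m : ι → V × V) (hm : OneSided Q F m) :
    dbl Q F m hm = dblS Q (F : Set Φ) m (OneSidedS.of hm) := by
  refine QC_ext fun f k => ?_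
  unfold dbl dblS
  simp only [Finset.mem_coe]

section

variable {Q : QC V Φ} {S : Set Φ} {m : ι → V × V} {hm : OneSidedS Q S m}

theorem dblS_c {f : Φ} (hf : f ∈ S) (b : Bool) (k : ZMod 4) :
    (dblS Q S m hm).c (f, b) k = dblV m b (Q.c f (if b = true then 3 - k else k)) := by
  unfold dblS
  simp only [hf, if_true]

theorem dblS_false {f : Φ} (hf : f ∈ S) (k : ZMod 4) :
    (dblS Q S m hm).c (f, false) k = dblV m false (Q.c f k) := by
  rw [dblS_c hf, if_neg (by simp)]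

theorem dblS_true {f : Φ} (hf : f ∈ S) (k : ZMod 4) :
    (dblS Q S m hm).c (f, true) k = dblV m true (Q.c f (3 - k)) := by
  rw [dblS_c hf, if_pos rfl]

theorem dblS_noLoop (hQ : NoLoop Q) : NoLoop (dblS Q S m hm) := by
  rintro ⟨f, b⟩ k h
  by_cases hf : f ∈ S
  · cases b
    · rw [dblS_false hf, dblS_false hf] at h
      exact hQ f k (dblV_inj h)
    · rw [dblS_true hf, dblS_true hf, three_sub] at h
      have h1 := dblV_inj h
      apply hQ f (2 - k)
      rw [two_sub_add]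
      exact h1.symm
  · unfold dblS at h
    simp only [hf, if_false] at h
    exact hQ f k (congrArg Prod.fst h)

theorem dblS_sd_false {f : Φ} (hf : f ∈ S) (k : ZMod 4) :
    sd (dblS Q S m hm) (f, false) k = dblA m false (sd Q f k) := by
  unfold sd dblA
  rw [dblS_false hf, dblS_false hf]

theorem dblS_sd_true {f : Φ} (hf : f ∈ S) (k : ZMod 4) :
    sd (dblS Q S m hm) (f, true) k = dblA m true (sd Q f (2 - k)).swap := by
  unfold sd dblA
  rw [dblS_true hf, dblS_true hf, three_sub, two_sub_add]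
  rfl

theorem mem_cpy {F : Finset Φ} {f : Φ} {b c : Bool} : (f, b) ∈ cpy F c ↔ f ∈ F ∧ b = c := by
  unfold cpy
  rw [Finset.mem_image]
  constructor
  · rintro ⟨g, hg, h⟩
    have h1 : g = f := congrArg Prod.fst h
    have h2 : c = b := congrArg Prod.snd h
    exact ⟨h1 ▸ hg, h2.symm⟩
  · rintro ⟨h1, rfl⟩
    exact ⟨f, h1, rfl⟩

/-- sides of the copies -/
theorem dE_cpyS {F : Finset Φ} (hF : ∀ f ∈ F, f ∈ S) (b : Bool) :
    dE (dblS Q S m hm) (cpy F b) = (dE Q F).image (dblA m b) := by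
  ext a'
  rw [mem_dE, Finset.mem_image]
  constructor
  · rintro ⟨f', hf', k, hk⟩
    obtain ⟨f, hf, rfl⟩ := Finset.mem_image.mp hf'
    cases b
    · rw [dblS_sd_false (hF f hf)] at hk
      rcases hk with rfl | rfl
      · exact ⟨_, sd_mem hf k, rfl⟩
      · exact ⟨_, swap_mem_dE.mpr (sd_mem hf k), rfl⟩
    · rw [dblS_sd_true (hF f hf)] at hk
      rcases hk with rfl | rfl
      · exact ⟨_, swap_mem_dE.mpr (sd_mem hf _), rfl⟩
      · exact ⟨_, sd_mem hf (2 - k), by rw [dblA_swap, Prod.swap_swap]⟩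
  · rintro ⟨a, ha, rfl⟩
    obtain ⟨f, hf, k, hk⟩ := mem_dE.mp ha
    refine ⟨(f, b), Finset.mem_image_of_mem _ hf, ?_⟩
    cases b
    · refine ⟨k, ?_⟩
      rw [dblS_sd_false (hF f hf)]
      rcases hk with rfl | rfl
      · exact Or.inl rfl
      · exact Or.inr rfl
    · refine ⟨2 - k, ?_⟩
      rw [dblS_sd_true (hF f hf), two_sub_two_sub]
      rcases hk with rfl | rfl
      · right
        rw [dblA_swap, Prod.swap_swap]
      · left
        rfl

end

/-- **Finite parts.** The double of a finite part is a chart of the double of the whole half. -/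
theorem dblS_chart {Q : QC V Φ} {S : Set Φ} {F : Finset Φ} {ι' : Type} {m : ι → V × V}
    {m' : ι' → V × V} {hm : OneSidedS Q S m} {hm' : OneSided Q F m'} (hF : ∀ f ∈ F, f ∈ S)
    (hc : ∀ f ∈ F, ∀ k, onCut m' (Q.c f k) ↔ onCut m (Q.c f k)) :
    QChart (dbl Q F m' hm') (dblS Q S m hm) (cpy F false ∪ cpy F true)
      (fun v => dblV m v.2.1 v.1) id 0 := by
  classical
  have key : ∀ (b : Bool) (f : Φ), f ∈ F → ∀ k, dblV m b (Q.c f k) = dblV m' b (Q.c f k) := by
    intro b f hf k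
    unfold dblV
    by_cases h : onCut m (Q.c f k)
    · have h' := (hc f hf k).mpr h
      rw [decide_eq_true h, decide_eq_true h']
    · have h' : ¬ onCut m' (Q.c f k) := fun h2 => h ((hc f hf k).mp h2)
      rw [decide_eq_false h, decide_eq_false h']
  have key2 : ∀ (b : Bool) (f : Φ), f ∈ F → ∀ k,
      dblV m (dblV m' b (Q.c f k)).2.1 (dblV m' b (Q.c f k)).1 = dblV m b (Q.c f k) := by
    intro b f hf k
    by_cases h : onCut m (Q.c f k)
    · have h' := (hc f hf k).mpr h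
      rw [dblV_onCut h b]
      unfold dblV
      rw [decide_eq_true h, decide_eq_true h']
      simp
    · have h' : ¬ onCut m' (Q.c f k) := fun h2 => h ((hc f hf k).mp h2)
      unfold dblV
      rw [decide_eq_false h, decide_eq_false h']
      simp
  have mem : ∀ p ∈ cpy F false ∪ cpy F true, p.1 ∈ F := by
    intro p hp
    rcases Finset.mem_union.mp hp with h | h
    · obtain ⟨f, hf, rfl⟩ := Finset.mem_image.mp h
      exact hf
    · obtain ⟨f, hf, rfl⟩ := Finset.mem_image.mp h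
      exact hf
  have cor : ∀ p : Φ × Bool, p.1 ∈ F → ∀ k, (dbl Q F m' hm').c p k =
      dblV m' p.2 (Q.c p.1 (if p.2 = true then 3 - k else k)) := by
    intro p hp k
    unfold dbl
    simp only [hp, if_true]
  constructor
  · intro p hp q hq k l h
    have hp' := mem p hp
    have hq' := mem q hq
    rw [cor p hp', cor q hq'] at h ⊢
    rw [key2 _ _ hp', key2 _ _ hq', key _ _ hp', key _ _ hq'] at h
    exact h
  · intro p hp k
    have hp' := mem p hp
    rw [add_zero, cor p hp', key2 _ _ hp']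
    obtain ⟨f, b⟩ := p
    exact dblS_c (hF f hp') b k

/-! ## Doubled coordinates -/

section coords

variable {X : Type} [AddGroupWithOne X]

/-- the corners of the square lattice -/
def StdB (B : QC (X × ℤ) (X × ℤ)) : Prop :=
  ∀ f : X × ℤ, B.c f 0 = f ∧ B.c f 1 = (f.1 + 1, f.2) ∧ B.c f 2 = (f.1 + 1, f.2 + 1) ∧
    B.c f 3 = (f.1, f.2 + 1)

theorem stdB_ZQ : StdB (X := ℤ) ZQ := fun f => ⟨cor0_0 f, cor0_1 f, cor0_2 f, cor0_3 f⟩

theorem stdB_CQ {N : ℕ} [Fact (3 ≤ N)] : StdB (X := ZMod N) (CQ N) := fun _ => ⟨rfl, rfl, rfl, rfl⟩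

/-- the copy of a row of the double -/
def cc (up : Bool) (y : ℤ) : Bool := xor (!up) (decide (y < 0))

/-- height of a vertex -/
def htv (g₀ : ℤ) (c : Bool) (y : ℤ) : ℤ := if c = true then g₀ - y else y + g₀

/-- height of a face -/
def htf (g₀ : ℤ) (c : Bool) (y : ℤ) : ℤ := if c = true then g₀ - 1 - y else y + g₀

/-- the face of the original half -/
def ptf (up : Bool) (g₀ : ℤ) (g : X × ℤ) : X × ℤ := (g.1, htf g₀ (cc up g.2) g.2)

/-- the face of the double in the copy `b` -/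
def qtf (g₀ : ℤ) (b : Bool) (g : X × ℤ) : X × ℤ := (g.1, if b = true then g₀ - 1 - g.2 else g.2 - g₀)

/-- the half of a face -/
def inH (up : Bool) (g₀ : ℤ) (g : X × ℤ) : Prop := g₀ ≤ g.2 ↔ up = true

theorem cc_eq (up : Bool) (y : ℤ) : cc up y = false ↔ (0 ≤ y ↔ up = true) := by
  unfold cc
  cases up <;> simp

theorem inH_ptf (up : Bool) (g₀ : ℤ) (g : X × ℤ) : inH up g₀ (ptf up g₀ g) := by
  unfold inH ptf htf cc
  cases up <;> simp <;> split_ifs <;> omega

theorem qtf_ptf (up : Bool) (g₀ : ℤ) (g : X × ℤ) : qtf g₀ (cc up g.2) (ptf up g₀ g) = g := by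
  unfold qtf ptf htf
  refine Prod.ext rfl ?_
  simp only
  split_ifs <;> omega

theorem cc_qtf {up : Bool} {g₀ : ℤ} {g : X × ℤ} (h : inH up g₀ g) (b : Bool) :
    cc up (qtf g₀ b g).2 = b := by
  unfold inH at h
  unfold cc qtf
  cases up <;> cases b <;> simp at h ⊢ <;> omega

theorem ptf_qtf {up : Bool} {g₀ : ℤ} {g : X × ℤ} (h : inH up g₀ g) (b : Bool) :
    ptf up g₀ (qtf g₀ b g) = g := by
  have h1 := cc_qtf h b
  unfold ptf
  rw [h1]
  unfold htf qtf
  refine Prod.ext rfl ?_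
  simp only
  split_ifs <;> omega

variable {B : QC (X × ℤ) (X × ℤ)}

theorem StdB.y (hB : StdB B) (g : X × ℤ) (k : ZMod 4) :
    (B.c g k).2 = g.2 ∨ (B.c g k).2 = g.2 + 1 := by
  obtain ⟨h0, h1, h2, h3⟩ := hB g
  rcases k4_cases k with rfl | rfl | rfl | rfl
  · rw [h0]; exact Or.inl rfl
  · rw [h1]; exact Or.inl rfl
  · rw [h2]; exact Or.inr rfl
  · rw [h3]; exact Or.inr rfl

/-- corners of the original face, copy `false` -/
theorem StdB.cor_false (hB : StdB B) {up : Bool} {g₀ : ℤ} {g : X × ℤ} (h : cc up g.2 = false)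
    (k : ZMod 4) : B.c (ptf up g₀ g) k = ((B.c g k).1, (B.c g k).2 + g₀) := by
  have e : ptf up g₀ g = (g.1, g.2 + g₀) := by
    unfold ptf htf
    rw [h, if_neg (by simp)]
  obtain ⟨a0, a1, a2, a3⟩ := hB (g.1, g.2 + g₀)
  obtain ⟨h0, h1, h2, h3⟩ := hB g
  rw [e]
  rcases k4_cases k with rfl | rfl | rfl | rfl
  · rw [a0, h0]
  · rw [a1, h1]
  · rw [a2, h2]
    refine Prod.ext rfl ?_
    simp only
    ring
  · rw [a3, h3]
    refine Prod.ext rfl ?_
    simp only
    ring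

/-- corners of the original face, copy `true` -/
theorem StdB.cor_true (hB : StdB B) {up : Bool} {g₀ : ℤ} {g : X × ℤ} (h : cc up g.2 = true)
    (k : ZMod 4) : B.c (ptf up g₀ g) (3 - k) = ((B.c g k).1, g₀ - (B.c g k).2) := by
  have e : ptf up g₀ g = (g.1, g₀ - 1 - g.2) := by
    unfold ptf htf
    rw [h, if_pos rfl]
  obtain ⟨a0, a1, a2, a3⟩ := hB (g.1, g₀ - 1 - g.2)
  obtain ⟨h0, h1, h2, h3⟩ := hB g
  have s0 : (3 : ZMod 4) - 0 = 3 := by decide
  have s1 : (3 : ZMod 4) - 1 = 2 := by decide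
  have s2 : (3 : ZMod 4) - 2 = 1 := by decide
  have s3 : (3 : ZMod 4) - 3 = 0 := by decide
  rw [e]
  rcases k4_cases k with rfl | rfl | rfl | rfl
  · rw [s0, a3, h0]
    refine Prod.ext rfl ?_
    simp only
    ring
  · rw [s1, a2, h1]
    refine Prod.ext rfl ?_
    simp only
    ring
  · rw [s2, a1, h2]
    refine Prod.ext rfl ?_
    simp only
    ring
  · rw [s3, a0, h3]
    refine Prod.ext rfl ?_
    simp only
    ring

/-- the vertex chart of the double -/
def dblφ (up : Bool) (g₀ : ℤ) (φ : X × ℤ → V) (m : ι → V × V) (v : X × ℤ) : V × Bool × Bool :=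
  dblV m (cc up v.2) (φ (v.1, htv g₀ (cc up v.2) v.2))

/-- the face chart of the double -/
def dblψ (up : Bool) (g₀ : ℤ) (ψ : X × ℤ → Φ) (g : X × ℤ) : Φ × Bool :=
  (ψ (ptf up g₀ g), cc up g.2)

/-- `S` is one half of a surface with the outer part `ψ '' O`. -/
structure HalfS (up : Bool) (g₀ : ℤ) (B : QC (X × ℤ) (X × ℤ)) (O : Set (X × ℤ)) (Q : QC V Φ)
    (A : Finset Φ) (φ : X × ℤ → V) (ψ : X × ℤ → Φ) (S : Set Φ) (m : ι → V × V) : Prop where
  os : OneSidedS Q S m
  mem : ∀ f ∈ S, f ∈ A ∨ ∃ g ∈ O, inH up g₀ g ∧ f = ψ g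
  out : ∀ g ∈ O, inH up g₀ g → ψ g ∈ S
  cut : ∀ g ∈ O, inH up g₀ g → ∀ l, (onCut m (φ (B.c g l)) ↔ (B.c g l).2 = g₀)

namespace HalfS

variable {up : Bool} {g₀ : ℤ} {O : Set (X × ℤ)} {Q : QC V Φ} {A : Finset Φ} {φ : X × ℤ → V}
  {ψ : X × ℤ → Φ} {S : Set Φ} {m : ι → V × V}

/-- the original corner of a corner of the double -/
theorem exists_corner (hB : StdB B) (up : Bool) (g₀ : ℤ) (g : X × ℤ) (k : ZMod 4) :
    ∃ l, B.c (ptf up g₀ g) l = ((B.c g k).1, htv g₀ (cc up (B.c g k).2) (B.c g k).2) := by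
  have hy := hB.y g k
  rcases hc : cc up g.2 with _ | _
  · refine ⟨k, ?_⟩
    rw [hB.cor_false hc k]
    refine Prod.ext rfl ?_
    simp only
    unfold htv
    split_ifs with h2
    · unfold cc at hc h2
      cases up <;> simp at hc h2 <;> omega
    · rfl
  · refine ⟨3 - k, ?_⟩
    rw [hB.cor_true hc k]
    refine Prod.ext rfl ?_
    simp only
    unfold htv
    split_ifs with h2
    · rfl
    · unfold cc at hc h2
      cases up <;> simp at hc h2 <;> omega

/-- **Corners of the double.** -/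
theorem corner (H : HalfS up g₀ B O Q A φ ψ S m) (hB : StdB B) {W₀ : Finset (X × ℤ)}
    (hW₀ : ∀ g ∈ W₀, g ∈ O) (hC : QChart B Q W₀ φ ψ 0) {g : X × ℤ} (hg : ptf up g₀ g ∈ W₀)
    (k : ZMod 4) : (dblS Q S m H.os).c (dblψ up g₀ ψ g) k = dblφ up g₀ φ m (B.c g k) := by
  have hO := hW₀ _ hg
  have hH := inH_ptf up g₀ g
  have hS := H.out _ hO hH
  have hy := hB.y g k
  unfold dblψ dblφ
  rcases hc : cc up g.2 with _ | _
  · rw [dblS_false hS]
    have e1 := hC.cor _ hg k
    rw [add_zero] at e1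
    have e2 := hB.cor_false (g₀ := g₀) hc k
    have e3 := H.cut _ hO hH k
    rw [e1, e2]
    rw [e2] at e3
    rcases h2 : cc up (B.c g k).2 with _ | _
    · unfold htv
      rw [if_neg (by simp)]
    · have h3 : (B.c g k).2 = 0 := by
        unfold cc at hc h2
        cases up <;> simp at hc h2 <;> omega
      have h4 := e3.mpr (by simp only; omega)
      unfold htv
      rw [if_pos rfl]
      have h5 : g₀ - (B.c g k).2 = (B.c g k).2 + g₀ := by omega
      rw [h5, dblV_onCut h4 true]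
  · rw [dblS_true hS]
    have e1 := hC.cor _ hg (3 - k)
    rw [add_zero] at e1
    have e2 := hB.cor_true (g₀ := g₀) hc k
    have e3 := H.cut _ hO hH (3 - k)
    rw [e1, e2]
    rw [e2] at e3
    rcases h2 : cc up (B.c g k).2 with _ | _
    · have h3 : (B.c g k).2 = 0 := by
        unfold cc at hc h2
        cases up <;> simp at hc h2 <;> omega
      have h4 := e3.mpr (by simp only; omega)
      unfold htv
      rw [if_neg (by simp)]
      have h5 : (B.c g k).2 + g₀ = g₀ - (B.c g k).2 := by omega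
      rw [h5, dblV_onCut h4 true]
    · unfold htv
      rw [if_pos rfl]

/-- injectivity on the vertices -/
theorem inj (H : HalfS up g₀ B O Q A φ ψ S m) (hB : StdB B) {W₀ : Finset (X × ℤ)}
    (hW₀ : ∀ g ∈ W₀, g ∈ O) (hC : QChart B Q W₀ φ ψ 0) {g g' : X × ℤ} (hg : ptf up g₀ g ∈ W₀)
    (hg' : ptf up g₀ g' ∈ W₀) (k k' : ZMod 4)
    (h : dblφ up g₀ φ m (B.c g k) = dblφ up g₀ φ m (B.c g' k')) : B.c g k = B.c g' k' := by
  obtain ⟨l, hl⟩ := exists_corner hB up g₀ g k
  obtain ⟨l', hl'⟩ := exists_corner hB up g₀ g' k'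
  have hcut := H.cut _ (hW₀ _ hg) (inH_ptf up g₀ g) l
  have hcut' := H.cut _ (hW₀ _ hg') (inH_ptf up g₀ g') l'
  have hinj := hC.inj _ hg _ hg' l l'
  rw [hl] at hcut hinj
  rw [hl'] at hcut' hinj
  unfold dblφ at h
  have e := hinj (congrArg Prod.fst h)
  obtain ⟨e1, e2⟩ := Prod.mk.inj e
  refine Prod.ext e1 ?_
  rcases h1 : cc up (B.c g k).2 with _ | _ <;> rcases h2 : cc up (B.c g' k').2 with _ | _
  · rw [h1, h2] at e2
    unfold htv at e2
    simpa using e2
  · rw [h1, h2] at h e2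
    rw [h1] at hcut
    have h3 := hcut.mp (dblV_cross h).2
    unfold htv at e2 h3
    simp at e2 h3
    omega
  · rw [h1, h2] at h e2
    rw [h2] at hcut'
    have h3 := hcut'.mp (dblV_cross h.symm).2
    unfold htv at e2 h3
    simp at e2 h3
    omega
  · rw [h1, h2] at e2
    unfold htv at e2
    simp at e2
    omega

/-- **The chart of the double.** -/
theorem chart (H : HalfS up g₀ B O Q A φ ψ S m) (hB : StdB B) {W₀ W : Finset (X × ℤ)}
    (hW₀ : ∀ g ∈ W₀, g ∈ O) (hC : QChart B Q W₀ φ ψ 0) (hW : ∀ g ∈ W, ptf up g₀ g ∈ W₀) :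
    QChart B (dblS Q S m H.os) W (dblφ up g₀ φ m) (dblψ up g₀ ψ) 0 where
  inj f hf g hg k l h := H.inj hB hW₀ hC (hW f hf) (hW g hg) k l h
  cor f hf k := by
    rw [add_zero]
    exact H.corner hB hW₀ hC (hW f hf) k

end HalfS

/-! ## The core of the double -/

open Classical in
/-- the part of the core in the half -/
def corS (A : Finset Φ) (S : Set Φ) : Finset Φ := A.filter (fun f => f ∈ S)

theorem mem_corS {A : Finset Φ} {S : Set Φ} {f : Φ} : f ∈ corS A S ↔ f ∈ A ∧ f ∈ S := by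
  classical
  unfold corS
  rw [Finset.mem_filter]

/-- the core of the double: two copies of the half of the core and the faces of `W` -/
def cor2 [DecidableEq X] (up : Bool) (g₀ : ℤ) (A : Finset Φ) (S : Set Φ) (ψ : X × ℤ → Φ)
    (W : Finset (X × ℤ)) : Finset (Φ × Bool) :=
  cpy (corS A S) false ∪ cpy (corS A S) true ∪ W.image (dblψ up g₀ ψ)

open Classical in
/-- the island sides of the double -/
def isl2 (Q : QC V Φ) (A : Finset Φ) (S : Set Φ) (m : ι → V × V) (P : Finset (V × V)) :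
    Finset ((V × Bool × Bool) × (V × Bool × Bool)) :=
  (P.filter fun a => a ∈ dE Q (corS A S)).image (dblA m false) ∪
    (P.filter fun a => a ∈ dE Q (corS A S)).image (dblA m true)

theorem mem_isl2 {Q : QC V Φ} {A : Finset Φ} {S : Set Φ} {m : ι → V × V} {P : Finset (V × V)}
    {a' : (V × Bool × Bool) × (V × Bool × Bool)} : a' ∈ isl2 Q A S m P ↔
      ∃ b, ∃ a ∈ P, a ∈ dE Q (corS A S) ∧ a' = dblA m b a := by
  classical
  unfold isl2
  rw [Finset.mem_union, Finset.mem_image, Finset.mem_image]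
  constructor
  · rintro (⟨a, ha, rfl⟩ | ⟨a, ha, rfl⟩)
    · exact ⟨false, a, (Finset.mem_filter.mp ha).1, (Finset.mem_filter.mp ha).2, rfl⟩
    · exact ⟨true, a, (Finset.mem_filter.mp ha).1, (Finset.mem_filter.mp ha).2, rfl⟩
  · rintro ⟨_ | _, a, h1, h2, rfl⟩
    · exact Or.inl ⟨a, Finset.mem_filter.mpr ⟨h1, h2⟩, rfl⟩
    · exact Or.inr ⟨a, Finset.mem_filter.mpr ⟨h1, h2⟩, rfl⟩

theorem mem_cor2 [DecidableEq X] {up : Bool} {g₀ : ℤ} {A : Finset Φ} {S : Set Φ} {ψ : X × ℤ → Φ}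
    {W : Finset (X × ℤ)} {p : Φ × Bool} : p ∈ cor2 up g₀ A S ψ W ↔
      (p.1 ∈ A ∧ p.1 ∈ S) ∨ ∃ g ∈ W, dblψ up g₀ ψ g = p := by
  obtain ⟨f, b⟩ := p
  unfold cor2
  rw [Finset.mem_union, Finset.mem_union, mem_cpy, mem_cpy, mem_corS, Finset.mem_image]
  cases b <;> simp

theorem isl2_sub [DecidableEq X] {up : Bool} {g₀ : ℤ} {Q : QC V Φ} {A : Finset Φ} {S : Set Φ}
    {m : ι → V × V} (hm : OneSidedS Q S m) {P : Finset (V × V)} {ψ : X × ℤ → Φ}
    {W : Finset (X × ℤ)} :
    isl2 Q A S m P ⊆ dE (dblS Q S m hm) (cor2 up g₀ A S ψ W) := by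
  intro a' ha'
  obtain ⟨b, a, h1, h2, rfl⟩ := mem_isl2.mp ha'
  have h3 : dblA m b a ∈ dE (dblS Q S m hm) (cpy (corS A S) b) := by
    rw [dE_cpyS (fun f hf => (mem_corS.mp hf).2)]
    exact Finset.mem_image_of_mem _ h2
  refine Rel.dE_mono ?_ h3
  unfold cor2
  cases b
  · exact Finset.subset_union_left.trans Finset.subset_union_left
  · exact Finset.subset_union_right.trans Finset.subset_union_left

namespace HalfS

variable {up : Bool} {g₀ : ℤ} {O : Set (X × ℤ)} {Q : QC V Φ} {A : Finset Φ} {φ : X × ℤ → V}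
  {ψ : X × ℤ → Φ} {S : Set Φ} {m : ι → V × V}

/-- the outer part of the double does not meet its core -/
theorem dj [DecidableEq X] {W₀ W : Finset (X × ℤ)}
    (hdj : ∀ g ∈ W₀, ψ g ∉ A) (hinj : Set.InjOn ψ (W₀ : Set (X × ℤ)))
    (hW : ∀ g ∈ W, ptf up g₀ g ∈ W₀) {g : X × ℤ} (hg : ptf up g₀ g ∈ W₀) (hgW : g ∉ W) :
    dblψ up g₀ ψ g ∉ cor2 up g₀ A S ψ W := by
  rw [mem_cor2]
  rintro (⟨h1, -⟩ | ⟨g', hg', h1⟩)
  · exact hdj _ hg h1
  · unfold dblψ at h1
    obtain ⟨e1, e2⟩ := Prod.mk.inj h1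
    have e3 := hinj (by exact_mod_cast hW g' hg') (by exact_mod_cast hg) e1
    apply hgW
    rw [← qtf_ptf up g₀ g, ← e3, ← e2, qtf_ptf]
    exact hg'

/-- the core of the double meets the outer part only in vertices of the box -/
theorem nb (H : HalfS up g₀ B O Q A φ ψ S m) (hB : StdB B) [DecidableEq X] {W₀ W : Finset (X × ℤ)}
    (hW₀ : ∀ g ∈ W₀, g ∈ O) (hC : QChart B Q W₀ φ ψ 0) (hW : ∀ g ∈ W, ptf up g₀ g ∈ W₀)
    {Vb Vb' : Set (X × ℤ)}
    (hnb : ∀ f ∈ A, ∀ k, ∀ g ∈ W₀, ∀ l, Q.c f k = φ (B.c g l) → B.c g l ∈ Vb)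
    (hV : ∀ v : X × ℤ, (v.1, htv g₀ (cc up v.2) v.2) ∈ Vb → v ∈ Vb')
    (hV' : ∀ g ∈ W, ∀ k, B.c g k ∈ Vb') {p : Φ × Bool} (hp : p ∈ cor2 up g₀ A S ψ W)
    (k : ZMod 4) {g : X × ℤ} (hg : ptf up g₀ g ∈ W₀) (l : ZMod 4)
    (h : (dblS Q S m H.os).c p k = dblφ up g₀ φ m (B.c g l)) : B.c g l ∈ Vb' := by
  rcases mem_cor2.mp hp with ⟨h1, h2⟩ | ⟨g', hg', rfl⟩
  · obtain ⟨f, b⟩ := p
    rw [dblS_c h2] at h
    obtain ⟨l', hl'⟩ := exists_corner hB up g₀ g l
    have e1 : Q.c f (if b = true then 3 - k else k) = φ (B.c (ptf up g₀ g) l') := by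
      rw [hl']
      exact congrArg Prod.fst h
    have e2 := hnb f h1 _ _ hg l' e1
    rw [hl'] at e2
    exact hV _ e2
  · rw [H.corner hB hW₀ hC (hW g' hg')] at h
    rw [← H.inj hB hW₀ hC (hW g' hg') hg k l h]
    exact hV' g' hg' k

end HalfS

end coords

/-! ## The plane -/

section plane

open Pool.Agent.SixB.Rel

variable {up : Bool} {g₀ : ℤ} {Q : QC V Φ} {A : Finset Φ} {φ : ℤ × ℤ → V}
  {ψ : ℤ × ℤ → Φ} {S : Set Φ} {m : ι → V × V} {P : Finset (V × V)} {L L' : ℤ}

theorem qtf_box (hL : L + |g₀| ≤ L') {g : ℤ × ℤ} (h : g ∈ RFb (0, 0) L) (b : Bool) :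
    qtf g₀ b g ∈ RFb (0, 0) L' := by
  have h1 := abs_le.mp (le_refl |g₀|)
  rw [mem_RF0] at h ⊢
  unfold qtf
  simp only
  have h2 := abs_nonneg g₀
  split_ifs <;> omega

theorem ptf_box {M : ℤ} {g : ℤ × ℤ} (h : g ∈ RFb (0, 0) M) :
    ptf up g₀ g ∈ RFb (0, 0) (M + |g₀|) := by
  have h1 := abs_le.mp (le_refl |g₀|)
  rw [mem_RF0] at h ⊢
  unfold ptf htf
  simp only
  have h2 := abs_nonneg g₀
  split_ifs <;> omega

theorem ptf_out (hL : L + |g₀| ≤ L') {g : ℤ × ℤ} (h : g ∉ RFb (0, 0) L') :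
    ptf up g₀ g ∉ RFb (0, 0) L := by
  intro h1
  apply h
  rw [← qtf_ptf up g₀ g]
  exact qtf_box hL h1 _

theorem exists_RFb (g : ℤ × ℤ) (L' : ℤ) : ∃ M, L' ≤ M ∧ g ∈ RFb (0, 0) M := by
  refine ⟨|g.1| + |g.2| + |L'| + 1, ?_, ?_⟩
  · have := abs_nonneg g.1
    have := abs_nonneg g.2
    have := le_abs_self L'
    omega
  · rw [mem_RF0]
    have h1 := abs_le.mp (le_refl |g.1|)
    have h2 := abs_le.mp (le_refl |g.2|)
    have h3 := abs_nonneg g.1
    have h4 := abs_nonneg g.2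
    have h5 := abs_nonneg L'
    omega

open Classical in
/-- the faces of the doubled box outside the box -/
def wZ (up : Bool) (g₀ L L' : ℤ) : Finset (ℤ × ℤ) :=
  (RFb (0, 0) L').filter fun g => ptf up g₀ g ∉ RFb (0, 0) L

theorem mem_wZ {g : ℤ × ℤ} : g ∈ wZ up g₀ L L' ↔
    g ∈ RFb (0, 0) L' ∧ ptf up g₀ g ∉ RFb (0, 0) L := by
  classical
  unfold wZ
  rw [Finset.mem_filter]

/-- the outer faces of the plane -/
def outZ (L : ℤ) : Set (ℤ × ℤ) := {g | g ∉ RFb (0, 0) L}

/-- **The double of a half of a surface which is the plane outside a box.** -/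
theorem glueZ (HZ : GlueZ L Q A φ ψ P) (H : HalfS up g₀ ZQ (outZ L) Q A φ ψ S m)
    (hL : L + |g₀| ≤ L') :
    GlueZ L' (dblS Q S m H.os) (cor2 up g₀ A S ψ (wZ up g₀ L L')) (dblφ up g₀ φ m)
      (dblψ up g₀ ψ) (isl2 Q A S m P) where
  chart M := by
    refine H.chart stdB_ZQ (W₀ := RFb (0, 0) (M + |g₀|) \ RFb (0, 0) L) ?_ (HZ.chart _) ?_
    · intro g hg
      exact (Finset.mem_sdiff.mp hg).2
    · intro g hg
      obtain ⟨h1, h2⟩ := Finset.mem_sdiff.mp hg
      exact Finset.mem_sdiff.mpr ⟨ptf_box h1, ptf_out hL h2⟩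
  dj g hg := by
    obtain ⟨M, hM, hgM⟩ := exists_RFb g L'
    refine HalfS.dj (W₀ := RFb (0, 0) (M + |g₀|) \ RFb (0, 0) L) ?_ (HZ.chart _).injOn ?_ ?_ ?_
    · intro f hf
      exact HZ.dj f (Finset.mem_sdiff.mp hf).2
    · intro f hf
      obtain ⟨h1, h2⟩ := mem_wZ.mp hf
      exact Finset.mem_sdiff.mpr ⟨ptf_box (RF0_mono hM h1), h2⟩
    · exact Finset.mem_sdiff.mpr ⟨ptf_box hgM, ptf_out hL hg⟩
    · exact fun h => hg (mem_wZ.mp h).1
  nb p hp k g hg l h := by
    obtain ⟨M, hM, hgM⟩ := exists_RFb g L'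
    have key := H.nb stdB_ZQ (W₀ := RFb (0, 0) (M + |g₀|) \ RFb (0, 0) L)
      (W := wZ up g₀ L L') (fun f hf => (Finset.mem_sdiff.mp hf).2) (HZ.chart _) ?_
      (Vb := {v | |v.1| ≤ L ∧ |v.2| ≤ L}) (Vb' := {v | |v.1| ≤ L' ∧ |v.2| ≤ L'}) ?_ ?_ ?_ hp k
      (g := g) ?_ l h
    · exact key
    · intro f hf
      obtain ⟨h1, h2⟩ := mem_wZ.mp hf
      exact Finset.mem_sdiff.mpr ⟨ptf_box (RF0_mono hM h1), h2⟩
    · intro f hf k g hg l h
      exact HZ.nb f hf k g (Finset.mem_sdiff.mp hg).2 l h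
    · intro v hv
      obtain ⟨h1, h2⟩ := hv
      change |v.1| ≤ L at h1
      change |htv g₀ (cc up v.2) v.2| ≤ L at h2
      change |v.1| ≤ L' ∧ |v.2| ≤ L'
      have h3 := abs_nonneg g₀
      refine ⟨by omega, ?_⟩
      unfold htv at h2
      have h4 := abs_le.mp (le_refl |g₀|)
      rw [abs_le] at h2 ⊢
      split_ifs at h2 <;> omega
    · intro g hg k
      exact cor0_le (mem_wZ.mp hg).1 k
    · exact Finset.mem_sdiff.mpr ⟨ptf_box hgM, ptf_out hL hg⟩
  P_sub := isl2_sub H.os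

end plane


end

end Pool.Agent.SixB.Dbl
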