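import Pool.Agent.Lib.SixB.S3Cyln
import Pool.Agent.Lib.SixB.S3DblS

/-!
# 6BD step 3: a cut row of a plane surface and its cylindrification

* `CutH up g L Q A φ ψ S m`: `S` is one half (`up = true` upper) of the plane surface, cut along the row `g`,
  `|g| < L`, with the family `m : ℤ → V × V` of cut sides directed into `S` (`half`, `out`, `core`).
* `cyM`: the cut sides of the cylindrification `cyQ`, `cyS`: the half, `O` = the outer faces.
* `CutH.halfS`: `HalfS up g (CQ N) O (cyQ N H hL) (A.image Sum.inl) (glv Φ N L φ) Sum.inr (cyS ..) (cyM ..)`.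
* `rev_cyM`: the reversed family; `CutZ`: both halves; `CutZ.up'`, `CutZ.lo'`, `CutZ.disj`, `CutZ.cover`, `CutZ.meet`.
* finite version (`cyF`, the faces in the rows `[-M, M)`): `CutZ.one_up`, `CutZ.one_lo`, `CutZ.cE_eq`, `CutZ.union`.
-/

set_option autoImplicit false
set_option linter.unusedSectionVars false

namespace Pool.Agent.SixB.Cyh

open Pool.Agent.Perc Pool.Agent.Perc.Q Relation Filter Topology
open Pool.Agent.SixB.Rel Pool.Agent.SixB.Dbl
open Pool.Agent.SixB hiding Zs_split dst_congr qt_congr dE_mono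

noncomputable section

variable {V Φ : Type} [DecidableEq V] [DecidableEq Φ]
variable {Q : QC V Φ} {A : Finset Φ} {L g : ℤ} {φ : ℤ × ℤ → V} {ψ : ℤ × ℤ → Φ}
  {P : Finset (V × V)} {N : ℕ} [hN : Fact (3 ≤ N)] {up : Bool} {S S' : Set Φ} {m : ℤ → V × V}

/-! ## Columns -/

instance neN : NeZero N := ⟨by have := hN.out; omega⟩

/-- the representative of a column -/
def rp (x : ZMod N) : ℤ := x.valMinAbs

theorem rp_cast (x : ZMod N) : ((rp x : ℤ) : ZMod N) = x := ZMod.coe_valMinAbs x

theorem rp_of {i : ℤ} (h : 2 * |i| < N) : rp (i : ZMod N) = i := by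
  unfold rp
  rw [ZMod.valMinAbs_spec]
  refine ⟨rfl, ?_⟩
  have h1 := abs_le.mp (le_refl |i|)
  rw [Set.mem_Ioc]
  constructor <;> omega

theorem rp_of' {i : ℤ} {K : ℤ} (hK : 2 * K < N) (h : |i| ≤ K) : rp (i : ZMod N) = i :=
  rp_of (by omega)

theorem rp_inj {x y : ZMod N} (h : rp x = rp y) : x = y := by
  rw [← rp_cast x, h, rp_cast]

/-- columns of the box -/
def Cor (L : ℤ) (x : ZMod N) : Prop := -L ≤ rp x ∧ rp x < L

theorem vb_rp (hL : 2 * L < N) {v : ZMod N × ℤ} (h : v ∈ vb N L) :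
    |rp v.1| ≤ L ∧ |v.2| ≤ L ∧ Rel.lft N L v = (rp v.1, v.2) := by
  obtain ⟨h1, h2, h3⟩ := lft_spec h
  have e1 : v.1 = ((Rel.lft N L v).1 : ZMod N) := congrArg Prod.fst h3
  have e2 : v.2 = (Rel.lft N L v).2 := congrArg Prod.snd h3
  have e3 : rp v.1 = (Rel.lft N L v).1 := by
    rw [e1]
    exact rp_of' hL h1
  refine ⟨by rw [e3]; exact h1, by rw [e2]; exact h2, ?_⟩
  exact Prod.ext e3.symm e2.symm

theorem mem_vb {x : ZMod N} {y : ℤ} (h1 : |rp x| ≤ L) (h2 : |y| ≤ L) : ((x, y) : ZMod N × ℤ) ∈ vb N L :=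
  ⟨(rp x, y), h1, h2, Prod.ext (rp_cast x).symm rfl⟩

theorem glv_mem (hL : 2 * L < N) {x : ZMod N} {y : ℤ} (h1 : |rp x| ≤ L) (h2 : |y| ≤ L) :
    glv Φ N L φ (x, y) = Sum.inl (φ (rp x, y)) := by
  have h := mem_vb h1 h2
  rw [glv_in h, (vb_rp hL h).2.2]

theorem glv_inl (hL : 2 * L < N) {x : ZMod N} {y : ℤ} {w : V} (h : glv Φ N L φ (x, y) = Sum.inl w) :
    |rp x| ≤ L ∧ |y| ≤ L ∧ w = φ (rp x, y) := by
  obtain ⟨h1, h2⟩ := vb_iff h
  obtain ⟨h3, h4, h5⟩ := vb_rp hL h1
  exact ⟨h3, h4, by rw [← h2, h5]⟩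

/-- faces of the box -/
theorem bxC_iff (hL : 2 * L < N) {x : ZMod N} {y : ℤ} :
    ((x, y) : ZMod N × ℤ) ∈ bxC N L ↔ Cor L x ∧ -L ≤ y ∧ y < L := by
  rw [mem_bxC]
  unfold Cor
  constructor
  · rintro ⟨u, h1, h2, h3, h4, e⟩
    have e1 : x = (u.1 : ZMod N) := congrArg Prod.fst e
    have e2 : y = u.2 := congrArg Prod.snd e
    have e3 : rp x = u.1 := by
      rw [e1]
      exact rp_of' hL (by rw [abs_le]; omega)
    rw [e3, e2]
    exact ⟨⟨h1, h2⟩, h3, h4⟩
  · rintro ⟨⟨h1, h2⟩, h3, h4⟩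
    exact ⟨(rp x, y), h1, h2, h3, h4, Prod.ext (rp_cast x).symm rfl⟩

/-- an outer column whose first vertex is a vertex of the box -/
theorem out_fst {x : ZMod N} (h : ¬ Cor L x) (h1 : |rp x| ≤ L) : rp x = L := by
  unfold Cor at h
  rw [abs_le] at h1
  omega

/-- an outer column whose second vertex is a vertex of the box -/
theorem out_snd (hL : 2 * (L + 1) < N) {x : ZMod N} (h : ¬ Cor L x) (h1 : |rp (x + 1)| ≤ L) :
    rp (x + 1) = -L ∧ rp x = -L - 1 := by
  have e : rp x = rp (x + 1) - 1 := by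
    have e1 : x = ((rp (x + 1) - 1 : ℤ) : ZMod N) := by
      push_cast
      rw [rp_cast]
      ring
    have h2 := rp_of' (N := N) (i := rp (x + 1) - 1) hL (by rw [abs_le] at h1 ⊢; omega)
    rw [← e1] at h2
    exact h2
  unfold Cor at h
  rw [abs_le] at h1
  omega

/-! ## The cut sides -/

/-- orientation of a cut side -/
def ori {W : Type} (up : Bool) (a : W × W) : W × W := if up = true then a else a.swap

theorem ori_ends {W : Type} (up : Bool) (a : W × W) (v : W) :
    (v = (ori up a).1 ∨ v = (ori up a).2) ↔ (v = a.1 ∨ v = a.2) := by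
  unfold ori
  cases up
  · simp only [Bool.false_eq_true, if_false, Prod.fst_swap, Prod.snd_swap]
    tauto
  · simp

open Classical in
/-- the cut sides of the cylindrification -/
def cyM (Φ : Type) (N : ℕ) [Fact (3 ≤ N)] (L g : ℤ) (φ : ℤ × ℤ → V) (up : Bool) (m : ℤ → V × V)
    (x : ZMod N) : CV V Φ N × CV V Φ N :=
  if Cor L x then icl V Φ N (m (rp x)) else ori up (glv Φ N L φ (x, g), glv Φ N L φ (x + 1, g))

theorem cyM_in {x : ZMod N} (h : Cor L x) : cyM Φ N L g φ up m x = icl V Φ N (m (rp x)) := if_pos h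

theorem cyM_out {x : ZMod N} (h : ¬ Cor L x) :
    cyM Φ N L g φ up m x = ori up (glv Φ N L φ (x, g), glv Φ N L φ (x + 1, g)) := if_neg h

theorem rev_cyM : revFam (cyM Φ N L g φ true m) = cyM Φ N L g φ false (revFam m) := by
  funext x
  unfold revFam
  by_cases h : Cor L x
  · rw [cyM_in h, cyM_in h]
    rfl
  · rw [cyM_out h, cyM_out h]
    rfl

/-- the half of the cylindrification with the outer faces `O` -/
def cyS (A : Finset Φ) (S : Set Φ) (up : Bool) (g : ℤ) (O : Set (ZMod N × ℤ)) : Set (CF Φ N) :=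
  {F | (∃ f ∈ A, f ∈ S ∧ F = Sum.inl f) ∨ ∃ h ∈ O, inH up g h ∧ F = Sum.inr h}

theorem inl_cyS {O : Set (ZMod N × ℤ)} {f : Φ} :
    (Sum.inl f : CF Φ N) ∈ cyS A S up g O ↔ f ∈ A ∧ f ∈ S := by
  constructor
  · rintro (⟨f', h1, h2, e⟩ | ⟨h, _, _, e⟩)
    · rw [Sum.inl.inj e]
      exact ⟨h1, h2⟩
    · exact absurd e (by simp)
  · rintro ⟨h1, h2⟩
    exact Or.inl ⟨f, h1, h2, rfl⟩

theorem inr_cyS {O : Set (ZMod N × ℤ)} {h : ZMod N × ℤ} :
    (Sum.inr h : CF Φ N) ∈ cyS A S up g O ↔ h ∈ O ∧ inH up g h := by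
  constructor
  · rintro (⟨f', h1, h2, e⟩ | ⟨h', h1, h2, e⟩)
    · exact absurd e (by simp)
    · rw [Sum.inr.inj e]
      exact ⟨h1, h2⟩
  · rintro ⟨h1, h2⟩
    exact Or.inr ⟨h, h1, h2, rfl⟩

/-- one half of a plane surface, cut along the row `g` -/
structure CutH (up : Bool) (g L : ℤ) (Q : QC V Φ) (A : Finset Φ) (φ : ℤ × ℤ → V) (ψ : ℤ × ℤ → Φ)
    (S : Set Φ) (m : ℤ → V × V) : Prop where
  half : HalfS up g ZQ (outZ L) Q A φ ψ S m
  hg : |g| < L
  out : ∀ x : ℤ, x < -L ∨ L ≤ x → m x = ori up (φ (x, g), φ (x + 1, g))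
  core : ∀ x : ℤ, -L ≤ x → x < L → ∃ f ∈ A, f ∈ S ∧ ∃ k, sd Q f k = m x

/-- admissible sets of outer faces -/
structure OutO (N : ℕ) [Fact (3 ≤ N)] (L g : ℤ) (O : Set (ZMod N × ℤ)) : Prop where
  sub : ∀ h ∈ O, h ∉ bxC N L
  near : ∀ h, h ∉ bxC N L → h.2 = g ∨ h.2 = g - 1 → h ∈ O

theorem outO_all : OutO N L g {h | h ∉ bxC N L} := ⟨fun _ h => h, fun _ h _ => h⟩

theorem outO_cyl (hg : |g| < L) {M : ℤ} (hM : L < M) :
    OutO N L g {h | h ∈ cylF N (-M) M \ bxC N L} := by
  refine ⟨fun h hh => (Finset.mem_sdiff.mp hh).2, fun h h1 h2 => ?_⟩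
  rw [abs_lt] at hg
  refine Finset.mem_sdiff.mpr ⟨?_, h1⟩
  rw [mem_cylF]
  omega

section corners

theorem face_out {i : ℤ} {y : ℤ} (h : i < -L ∨ L ≤ i) : ((i, y) : ℤ × ℤ) ∉ RFb (0, 0) L := by
  rw [mem_RF0]
  simp only
  omega

theorem c0 (i y : ℤ) : ZQ.c (i, y) 0 = (i, y) := by change cor0 (i, y) 0 = _; rw [cor0_0]

theorem c1 (i y : ℤ) : ZQ.c (i, y) 1 = (i + 1, y) := by change cor0 (i, y) 1 = _; rw [cor0_1]

theorem cC0 (h : ZMod N × ℤ) : (CQ N).c h 0 = h := rfl

theorem cC1 (h : ZMod N × ℤ) : (CQ N).c h 1 = (h.1 + 1, h.2) := rfl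

theorem cC2 (h : ZMod N × ℤ) : (CQ N).c h 2 = (h.1 + 1, h.2 + 1) := rfl

theorem cC3 (h : ZMod N × ℤ) : (CQ N).c h 3 = (h.1, h.2 + 1) := rfl

end corners

namespace CutH

variable (C : CutH up g L Q A φ ψ S m) (H : GlueZ L Q A φ ψ P) (hL : 2 * (L + 1) < N)

include C H hL

theorem L_pos : 0 < L := (abs_nonneg g).trans_lt C.hg

/-- ends of the outer cut sides -/
theorem onCut_outer {i : ℤ} (h : i < -L ∨ L ≤ i) {v : V} (hv : v = φ (i, g) ∨ v = φ (i + 1, g)) :
    onCut m v := by
  refine ⟨i, ?_⟩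
  rw [C.out i h, ori_ends]
  exact hv

theorem onCut_cy_out {x : ZMod N} (h : ¬ Cor L x) {v : CV V Φ N}
    (hv : v = glv Φ N L φ (x, g) ∨ v = glv Φ N L φ (x + 1, g)) : onCut (cyM Φ N L g φ up m) v := by
  refine ⟨x, ?_⟩
  rw [cyM_out h, ori_ends]
  exact hv

theorem onCut_cy_core {i : ℤ} (h1 : -L ≤ i) (h2 : i < L) {v : V} (hv : v = (m i).1 ∨ v = (m i).2) :
    onCut (cyM Φ N L g φ up m) (Sum.inl v : CV V Φ N) := by
  have e : rp (i : ZMod N) = i := rp_of' (K := L) (by omega) (by rw [abs_le]; omega)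
  refine ⟨(i : ZMod N), ?_⟩
  rw [cyM_in (by unfold Cor; rw [e]; exact ⟨h1, h2⟩), e]
  rcases hv with rfl | rfl
  · exact Or.inl rfl
  · exact Or.inr rfl

/-- the vertex `(L, g)` -/
theorem onCut_right : onCut (cyM Φ N L g φ up m) (Sum.inl (φ (L, g)) : CV V Φ N) := by
  have h0 := C.L_pos H hL
  have e : rp (L : ZMod N) = L := rp_of' (K := L) (by omega) (by rw [abs_of_pos h0])
  have hc : ¬ Cor L (L : ZMod N) := by
    unfold Cor
    rw [e]
    omega
  refine C.onCut_cy_out H hL hc (Or.inl ?_)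
  rw [glv_mem (by omega) (by rw [e, abs_of_pos h0]) C.hg.le, e]

/-- the vertex `(-L, g)` -/
theorem onCut_left : onCut (cyM Φ N L g φ up m) (Sum.inl (φ (-L, g)) : CV V Φ N) := by
  have h0 := C.L_pos H hL
  have e : rp ((-L - 1 : ℤ) : ZMod N) = -L - 1 :=
    rp_of' (K := L + 1) hL (by rw [abs_le]; omega)
  have hc : ¬ Cor L ((-L - 1 : ℤ) : ZMod N) := by
    unfold Cor
    rw [e]
    omega
  have e2 : ((-L - 1 : ℤ) : ZMod N) + 1 = ((-L : ℤ) : ZMod N) := by
    push_cast
    ring
  have e3 : rp ((-L : ℤ) : ZMod N) = -L := rp_of' (K := L) (by omega) (by rw [abs_neg, abs_of_pos h0])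
  refine C.onCut_cy_out H hL hc (Or.inr ?_)
  rw [e2, glv_mem (by omega) (by rw [e3, abs_neg, abs_of_pos h0]) C.hg.le, e3]

/-- **Cut vertices of core faces.** -/
theorem onCut_inl {f : Φ} (hf : f ∈ A) (k : ZMod 4) :
    onCut (cyM Φ N L g φ up m) (Sum.inl (Q.c f k) : CV V Φ N) ↔ onCut m (Q.c f k) := by
  constructor
  · rintro ⟨x, hx⟩
    by_cases hc : Cor L x
    · rw [cyM_in hc] at hx
      refine ⟨rp x, ?_⟩
      rcases hx with hx | hx
      · exact Or.inl (Sum.inl.inj hx)
      · exact Or.inr (Sum.inl.inj hx)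
    · rw [cyM_out hc, ori_ends] at hx
      rcases hx with hx | hx
      · obtain ⟨h1, -, h3⟩ := glv_inl (by omega) hx.symm
        rw [out_fst hc h1] at h3
        exact C.onCut_outer H hL (Or.inr le_rfl) (Or.inl h3)
      · obtain ⟨h1, -, h3⟩ := glv_inl (by omega) hx.symm
        obtain ⟨h4, -⟩ := out_snd hL hc h1
        rw [h4] at h3
        refine C.onCut_outer H hL (i := -L - 1) (Or.inl (by omega)) (Or.inr ?_)
        rw [h3]
        congr 2
        ring
  · rintro ⟨i, hi⟩
    by_cases h1 : i < -L ∨ L ≤ i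
    · rw [C.out i h1, ori_ends] at hi
      rcases hi with hi | hi
      · have h2 := H.nb f hf k (i, g) (face_out h1) 0 (by rw [c0]; exact hi)
        rw [c0] at h2
        have h3 := h2.1
        simp only at h3
        rw [abs_le] at h3
        have h4 : i = L := by omega
        rw [hi, h4]
        exact C.onCut_right H hL
      · have h2 := H.nb f hf k (i, g) (face_out h1) 1 (by rw [c1]; exact hi)
        rw [c1] at h2
        have h3 := h2.1
        simp only at h3
        rw [abs_le] at h3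
        have h4 : i + 1 = -L := by omega
        rw [hi, h4]
        exact C.onCut_left H hL
    · exact C.onCut_cy_core H hL (by omega) (by omega) hi

/-- **Cut vertices of outer faces.** -/
theorem onCut_glv {h : ZMod N × ℤ} (hh : h ∉ bxC N L) (hu : inH up g h) (k : ZMod 4) :
    onCut (cyM Φ N L g φ up m) (glv Φ N L φ ((CQ N).c h k)) ↔ ((CQ N).c h k).2 = g := by
  have h2L : 2 * L < N := by omega
  constructor
  · rintro ⟨x, hx⟩
    by_cases hc : Cor L x
    · rw [cyM_in hc] at hx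
      obtain ⟨w, hw, hw'⟩ : ∃ w, (w = (m (rp x)).1 ∨ w = (m (rp x)).2) ∧
          glv Φ N L φ ((CQ N).c h k) = Sum.inl w := by
        rcases hx with hx | hx
        · exact ⟨_, Or.inl rfl, hx⟩
        · exact ⟨_, Or.inr rfl, hx⟩
      obtain ⟨h1, h2⟩ := vb_iff hw'
      obtain ⟨g₀, a1, a2, a3⟩ := out_face hh h1
      have h3 : inH up g g₀ := by
        unfold inH at hu ⊢
        have : g₀.2 = h.2 := congrArg Prod.snd a2
        rw [this]
        exact hu
      have h4 := (C.half.cut g₀ a1 h3 k).mp (by rw [a3, h2]; exact ⟨rp x, hw⟩)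
      rw [a3] at h4
      rw [← h4]
      exact congrArg Prod.snd (lft_spec h1).2.2
    · rw [cyM_out hc, ori_ends] at hx
      have h1 : ((x, g) : ZMod N × ℤ) ∉ bxC N L := fun h2 => hc ((bxC_iff h2L).mp h2).1
      rcases hx with hx | hx
      · have := glv_inj H hh h1 (k := k) (l := 0) hx
        rw [this]
        rfl
      · have := glv_inj H hh h1 (k := k) (l := 1) hx
        rw [this]
        rfl
  · intro hv
    by_cases hc : Cor L ((CQ N).c h k).1
    · have h1 : (CQ N).c h k ∈ vb N L := by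
        have h2 : (((CQ N).c h k).1, ((CQ N).c h k).2) ∈ vb N L := by
          refine mem_vb ?_ ?_
          · unfold Cor at hc
            rw [abs_le]
            omega
          · rw [hv]
            exact C.hg.le
        exact h2
      obtain ⟨g₀, a1, a2, a3⟩ := out_face hh h1
      obtain ⟨-, -, b3⟩ := vb_rp h2L h1
      have h3 : inH up g g₀ := by
        unfold inH at hu ⊢
        have : g₀.2 = h.2 := congrArg Prod.snd a2
        rw [this]
        exact hu
      obtain ⟨i, hi⟩ := (C.half.cut g₀ a1 h3 k).mpr (by rw [a3, b3]; exact hv)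
      rw [glv_in h1]
      rw [a3] at hi
      by_cases h4 : i < -L ∨ L ≤ i
      · rw [C.out i h4, ori_ends] at hi
        rcases hi with hi | hi
        · exfalso
          have h5 := chart_inj H a1 (face_out (y := g) h4) (k := k) (l := 0) (by rw [a3, c0]; exact hi)
          rw [a3, b3, c0] at h5
          have h6 : rp ((CQ N).c h k).1 = i := congrArg Prod.fst h5
          unfold Cor at hc
          omega
        · have h5 := chart_inj H a1 (face_out (y := g) h4) (k := k) (l := 1) (by rw [a3, c1]; exact hi)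
          rw [a3, b3, c1] at h5
          have h6 : rp ((CQ N).c h k).1 = i + 1 := congrArg Prod.fst h5
          unfold Cor at hc
          have h7 : i + 1 = -L := by omega
          rw [hi, h7]
          exact C.onCut_left H hL
      · exact C.onCut_cy_core H hL (by omega) (by omega) hi
    · refine C.onCut_cy_out H hL hc (Or.inl ?_)
      rw [← hv]

/-- the cut sides are a family -/
theorem fam : Fam (cyM Φ N L g φ up m) := by
  have h2L : 2 * L < N := by omega
  have hm := C.half.os.fam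
  -- the ends of an outer side are not both in the core
  have key : ∀ x : ZMod N, ¬ Cor L x → ∀ a : V × V,
      cyM Φ N L g φ up m x ≠ icl V Φ N a := by
    intro x hc a h
    have h1 : ∃ w, glv Φ N L φ (x, g) = (Sum.inl w : CV V Φ N) := by
      rw [cyM_out hc] at h
      unfold ori at h
      split_ifs at h
      · exact ⟨a.1, congrArg Prod.fst h⟩
      · exact ⟨a.2, congrArg Prod.snd h⟩
    have h2 : ∃ w, glv Φ N L φ (x + 1, g) = (Sum.inl w : CV V Φ N) := by
      rw [cyM_out hc] at h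
      unfold ori at h
      split_ifs at h
      · exact ⟨a.2, congrArg Prod.snd h⟩
      · exact ⟨a.1, congrArg Prod.fst h⟩
    obtain ⟨w, hw⟩ := h1
    obtain ⟨w', hw'⟩ := h2
    have h3 := out_fst hc (glv_inl h2L hw).1
    have h4 := (out_snd hL hc (glv_inl h2L hw').1).2
    have := C.L_pos H hL
    omega
  have key2 : ∀ x y : ZMod N, ¬ Cor L x → ¬ Cor L y →
      (glv Φ N L φ (x, g) = glv Φ N L φ (y, g) → x = y) ∧
      (glv Φ N L φ (x, g) = glv Φ N L φ (y + 1, g) → x = y + 1) := by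
    intro x y hx hy
    have h1 : ((x, g) : ZMod N × ℤ) ∉ bxC N L := fun h2 => hx ((bxC_iff h2L).mp h2).1
    have h2 : ((y, g) : ZMod N × ℤ) ∉ bxC N L := fun h2 => hy ((bxC_iff h2L).mp h2).1
    constructor
    · intro h
      exact congrArg Prod.fst (glv_inj H h1 h2 (k := 0) (l := 0) h)
    · intro h
      exact congrArg Prod.fst (glv_inj H h1 h2 (k := 0) (l := 1) h)
  constructor
  · intro x y h
    by_cases hx : Cor L x <;> by_cases hy : Cor L y
    · rw [cyM_in hx, cyM_in hy] at h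
      exact rp_inj (hm.1 _ _ (icl_inj h))
    · rw [cyM_in hx] at h
      exact absurd h.symm (key y hy _)
    · rw [cyM_in hy] at h
      exact absurd h (key x hx _)
    · rw [cyM_out hx, cyM_out hy] at h
      refine (key2 x y hx hy).1 ?_
      unfold ori at h
      split_ifs at h
      · exact congrArg Prod.fst h
      · exact congrArg Prod.snd h
  · intro x y h
    by_cases hx : Cor L x <;> by_cases hy : Cor L y
    · rw [cyM_in hx, cyM_in hy] at h
      exact hm.2 (rp x) (rp y) (icl_inj (b := (m (rp y)).swap) h)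
    · rw [cyM_in hx] at h
      have h1 : cyM Φ N L g φ up m y = icl V Φ N (m (rp x)).swap := by
        have := congrArg Prod.swap h
        rw [Prod.swap_swap] at this
        rw [← this]
        rfl
      exact key y hy _ h1
    · rw [cyM_in hy] at h
      exact key x hx ((m (rp y)).swap) h
    · rw [cyM_out hx, cyM_out hy] at h
      have h1 : x = y + 1 ∧ y = x + 1 := by
        unfold ori at h
        split_ifs at h
        · exact ⟨(key2 x y hx hy).2 (congrArg Prod.fst h),
            (key2 y x hy hx).2 (congrArg Prod.snd h).symm⟩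
        · exact ⟨(key2 x y hx hy).2 (congrArg Prod.snd h),
            (key2 y x hy hx).2 (congrArg Prod.fst h).symm⟩
      obtain ⟨h2, h3⟩ := h1
      have h4 : (2 : ZMod N) = 0 := by
        have : y = y + 1 + 1 := by rw [← h2]; exact h3
        have h5 : (0 : ZMod N) = 2 := by
          have h6 : y + 0 = y + (1 + 1) := by rw [add_zero, ← add_assoc]; exact this
          have h7 := add_left_cancel h6
          rw [h7]
          norm_num
        exact h5.symm
      have h5 : ((2 : ℕ) : ZMod N) = 0 := by exact_mod_cast h4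
      rw [ZMod.natCast_eq_zero_iff] at h5
      have h6 := Nat.le_of_dvd (by norm_num) h5
      have := hN.out
      omega

/-- **One half of the cylindrification.** -/
theorem halfS {O : Set (ZMod N × ℤ)} (hO : OutO N L g O) :
    HalfS up g (CQ N) O (cyQ N H hL) (A.image Sum.inl) (glv Φ N L φ) Sum.inr
      (cyS A S up g O) (cyM Φ N L g φ up m) where
  os := by
    have h2L : 2 * L < N := by omega
    have h0 := C.L_pos H hL
    have hg := abs_lt.mp C.hg
    refine ⟨C.fam H hL, ?_, ?_⟩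
    · intro x
      by_cases hx : Cor L x
      · obtain ⟨f, hf, hfS, k, hk⟩ := C.core (rp x) hx.1 hx.2
        refine ⟨Sum.inl f, inl_cyS.mpr ⟨hf, hfS⟩, k, ?_⟩
        rw [sd_cyA H hL hf, hk, cyM_in hx]
      · rw [cyM_out hx]
        have h1 : ∀ y, ((x, y) : ZMod N × ℤ) ∉ bxC N L := fun y h2 => hx ((bxC_iff h2L).mp h2).1
        unfold ori
        cases hup : up
        · refine ⟨Sum.inr (x, g - 1), inr_cyS.mpr ⟨hO.near _ (h1 _) (Or.inr rfl), ?_⟩, 2, ?_⟩
          · unfold inH
            simp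
          · rw [sd_cyC H hL (h1 _), if_neg (by simp)]
            show (glv Φ N L φ ((CQ N).c (x, g - 1) 2), glv Φ N L φ ((CQ N).c (x, g - 1) (2 + 1))) = _
            have e : (2 : ZMod 4) + 1 = 3 := by decide
            rw [e, cC2, cC3]
            simp
        · refine ⟨Sum.inr (x, g), inr_cyS.mpr ⟨hO.near _ (h1 _) (Or.inl rfl), ?_⟩, 0, ?_⟩
          · unfold inH
            simp
          · rw [sd_cyC H hL (h1 _), if_pos rfl]
            show (glv Φ N L φ ((CQ N).c (x, g) 0), glv Φ N L φ ((CQ N).c (x, g) (0 + 1))) = _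
            have e : (0 : ZMod 4) + 1 = 1 := by decide
            rw [e, cC0, cC1]
    · rintro F hF k h1 h2
      rcases F with f | h
      · obtain ⟨hf, hfS⟩ := inl_cyS.mp hF
        have e1 : (cyQ N H hL).c (Sum.inl f) k = Sum.inl (Q.c f k) := cyc_A (L := L) (φ := φ) hf k
        have e2 : (cyQ N H hL).c (Sum.inl f) (k + 1) = Sum.inl (Q.c f (k + 1)) := cyc_A (L := L) (φ := φ) hf (k + 1)
        rw [e1, C.onCut_inl H hL hf] at h1
        rw [e2, C.onCut_inl H hL hf] at h2
        obtain ⟨i, hi⟩ := C.half.os.only f hfS k h1 h2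
        by_cases h4 : i < -L ∨ L ≤ i
        · exfalso
          have h5 : ∀ v, (v = (sd Q f k).1 ∨ v = (sd Q f k).2) ↔ (v = φ (i, g) ∨ v = φ (i + 1, g)) := by
            intro v
            rw [hi, C.out i h4, ori_ends]
          have h6 : |i| ≤ L := by
            rcases (h5 (φ (i, g))).mpr (Or.inl rfl) with h7 | h7
            · have := H.nb f hf k (i, g) (face_out h4) 0 (by rw [c0]; exact h7.symm)
              rw [c0] at this
              exact this.1
            · have := H.nb f hf (k + 1) (i, g) (face_out h4) 0 (by rw [c0]; exact h7.symm)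
              rw [c0] at this
              exact this.1
          have h8 : |i + 1| ≤ L := by
            rcases (h5 (φ (i + 1, g))).mpr (Or.inr rfl) with h7 | h7
            · have := H.nb f hf k (i, g) (face_out h4) 1 (by rw [c1]; exact h7.symm)
              rw [c1] at this
              exact this.1
            · have := H.nb f hf (k + 1) (i, g) (face_out h4) 1 (by rw [c1]; exact h7.symm)
              rw [c1] at this
              exact this.1
          rw [abs_le] at h6 h8
          omega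
        · have e : rp (i : ZMod N) = i := rp_of' (K := L) h2L (by rw [abs_le]; omega)
          have hc : Cor L (i : ZMod N) := by
            unfold Cor
            rw [e]
            omega
          refine ⟨(i : ZMod N), ?_⟩
          rw [sd_cyA H hL hf, cyM_in hc, e, hi]
      · obtain ⟨hhO, hu⟩ := inr_cyS.mp hF
        have hh := hO.sub h hhO
        have e1 : (cyQ N H hL).c (Sum.inr h) k = glv Φ N L φ ((CQ N).c h k) := cyc_C (Q := Q) (A := A) hh k
        have e2 : (cyQ N H hL).c (Sum.inr h) (k + 1) = glv Φ N L φ ((CQ N).c h (k + 1)) :=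
          cyc_C (Q := Q) (A := A) hh (k + 1)
        rw [e1, C.onCut_glv H hL hh hu] at h1
        rw [e2, C.onCut_glv H hL hh hu] at h2
        obtain ⟨x, y⟩ := h
        have hu' : g ≤ y ↔ up = true := hu
        rw [sd_cyC H hL hh]
        rcases k4_cases k with rfl | rfl | rfl | rfl
        · -- lower side
          have hy : y = g := h1
          subst hy
          have hup : up = true := hu'.mp le_rfl
          have hx : ¬ Cor L x := fun hx => hh ((bxC_iff h2L).mpr ⟨hx, by omega, by omega⟩)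
          refine ⟨x, ?_⟩
          rw [cyM_out hx]
          unfold ori
          rw [if_pos hup]
          rfl
        · exfalso
          have a1 : y = g := h1
          have a2 : y + 1 = g := h2
          omega
        · have hy : y + 1 = g := h1
          have hup : up = false := by
            cases up
            · rfl
            · have := hu'.mpr rfl
              omega
          have hx : ¬ Cor L x := fun hx => hh ((bxC_iff h2L).mpr ⟨hx, by omega, by omega⟩)
          refine ⟨x, ?_⟩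
          rw [cyM_out hx]
          unfold ori
          rw [if_neg (by rw [hup]; simp), ← hy]
          rfl
        · exfalso
          have e : (3 : ZMod 4) + 1 = 0 := by decide
          rw [e] at h2
          have a1 : y + 1 = g := h1
          have a2 : y = g := h2
          omega
  mem F hF := by
    rcases hF with ⟨f, h1, h2, rfl⟩ | ⟨h, h1, h2, rfl⟩
    · exact Or.inl (Finset.mem_image_of_mem _ h1)
    · exact Or.inr ⟨h, h1, h2, rfl⟩
  out h hh hu := inr_cyS.mpr ⟨hh, hu⟩
  cut h hh hu l := C.onCut_glv H hL (hO.sub h hh) hu l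

end CutH

/-! ## Both halves -/

/-- a cut row of a plane surface: upper half `S`, lower half `S'` -/
structure CutZ (g L : ℤ) (Q : QC V Φ) (A : Finset Φ) (φ : ℤ × ℤ → V) (ψ : ℤ × ℤ → Φ)
    (S S' : Set Φ) (m : ℤ → V × V) : Prop where
  hi : CutH true g L Q A φ ψ S m
  lo : CutH false g L Q A φ ψ S' (revFam m)
  dj : ∀ f ∈ A, f ∈ S → f ∉ S'
  cov : ∀ f ∈ A, f ∈ S ∨ f ∈ S'
  meet : ∀ f ∈ S, ∀ f' ∈ S', ∀ k l, Q.c f k = Q.c f' l → onCut m (Q.c f k)

theorem onCut_rev {W : Type} {ι : Type} {m : ι → W × W} {v : W} :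
    onCut (revFam m) v ↔ onCut m v := by
  unfold onCut revFam
  refine exists_congr fun i => ?_
  simp only [Prod.fst_swap, Prod.snd_swap]
  exact or_comm

namespace CutZ

variable (C : CutZ g L Q A φ ψ S S' m) (H : GlueZ L Q A φ ψ P) (hL : 2 * (L + 1) < N)
  {O : Set (ZMod N × ℤ)}

include C H hL

theorem up' (hO : OutO N L g O) :
    HalfS true g (CQ N) O (cyQ N H hL) (A.image Sum.inl) (glv Φ N L φ) Sum.inr
      (cyS A S true g O) (cyM Φ N L g φ true m) := C.hi.halfS H hL hO

theorem lo' (hO : OutO N L g O) :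
    HalfS false g (CQ N) O (cyQ N H hL) (A.image Sum.inl) (glv Φ N L φ) Sum.inr
      (cyS A S' false g O) (revFam (cyM Φ N L g φ true m)) := by
  rw [rev_cyM]
  exact C.lo.halfS H hL hO

theorem disj : ∀ F ∈ cyS (N := N) A S true g O, F ∉ cyS A S' false g O := by
  rintro F hF hF'
  rcases F with f | h
  · obtain ⟨h1, h2⟩ := inl_cyS.mp hF
    exact C.dj f h1 h2 (inl_cyS.mp hF').2
  · have h1 := (inr_cyS.mp hF).2
    have h2 := (inr_cyS.mp hF').2
    unfold inH at h1 h2
    have h3 := h1.mpr rfl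
    exact absurd (h2.mp h3) (by simp)

theorem cover_inl {f : Φ} (hf : f ∈ A) :
    (Sum.inl f : CF Φ N) ∈ cyS A S true g O ∨ (Sum.inl f : CF Φ N) ∈ cyS A S' false g O := by
  rcases C.cov f hf with h | h
  · exact Or.inl (inl_cyS.mpr ⟨hf, h⟩)
  · exact Or.inr (inl_cyS.mpr ⟨hf, h⟩)

theorem cover_inr {h : ZMod N × ℤ} (hh : h ∈ O) :
    (Sum.inr h : CF Φ N) ∈ cyS A S true g O ∨ (Sum.inr h : CF Φ N) ∈ cyS A S' false g O := by
  by_cases h1 : g ≤ h.2
  · exact Or.inl (inr_cyS.mpr ⟨hh, by unfold inH; simp [h1]⟩)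
  · exact Or.inr (inr_cyS.mpr ⟨hh, by unfold inH; simp [h1]⟩)

/-- the halves meet in cut vertices only -/
theorem meet' (hO : OutO N L g O) {F F' : CF Φ N} (hF : F ∈ cyS A S true g O)
    (hF' : F' ∈ cyS A S' false g O) {k l : ZMod 4}
    (h : (cyQ N H hL).c F k = (cyQ N H hL).c F' l) :
    onCut (cyM Φ N L g φ true m) ((cyQ N H hL).c F k) := by
  have h2L : 2 * L < N := by omega
  have hg := abs_lt.mp C.hi.hg
  rcases F with f | a <;> rcases F' with f' | a'
  · obtain ⟨h1, h2⟩ := inl_cyS.mp hF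
    obtain ⟨h3, h4⟩ := inl_cyS.mp hF'
    have e1 : (cyQ N H hL).c (Sum.inl f) k = Sum.inl (Q.c f k) := cyc_A (L := L) (φ := φ) h1 k
    have e2 : (cyQ N H hL).c (Sum.inl f') l = Sum.inl (Q.c f' l) := cyc_A (L := L) (φ := φ) h3 l
    rw [e1, e2] at h
    rw [e1, C.hi.onCut_inl H hL h1]
    exact C.meet f h2 f' h4 k l (Sum.inl.inj h)
  · obtain ⟨h1, h2⟩ := inl_cyS.mp hF
    obtain ⟨h3, h4⟩ := inr_cyS.mp hF'
    have n2 := hO.sub _ h3
    have e1 : (cyQ N H hL).c (Sum.inl f) k = Sum.inl (Q.c f k) := cyc_A (L := L) (φ := φ) h1 k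
    have e2 : (cyQ N H hL).c (Sum.inr a') l = glv Φ N L φ ((CQ N).c a' l) :=
      cyc_C (Q := Q) (A := A) n2 l
    rw [e1, e2] at h
    rw [e1, C.hi.onCut_inl H hL h1]
    obtain ⟨b1, b2⟩ := vb_iff h.symm
    obtain ⟨g₀, c1, c2, c3⟩ := out_face n2 b1
    have c4 : inH false g g₀ := by
      unfold inH at h4 ⊢
      have : g₀.2 = a'.2 := congrArg Prod.snd c2
      rw [this]
      exact h4
    refine C.meet f h2 (ψ g₀) (C.lo.half.out g₀ c1 c4) k l ?_
    rw [chart_cor H c1, c3, b2]
  · obtain ⟨h1, h2⟩ := inr_cyS.mp hF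
    obtain ⟨h3, h4⟩ := inl_cyS.mp hF'
    have n1 := hO.sub _ h1
    have e1 : (cyQ N H hL).c (Sum.inr a) k = glv Φ N L φ ((CQ N).c a k) :=
      cyc_C (Q := Q) (A := A) n1 k
    have e2 : (cyQ N H hL).c (Sum.inl f') l = Sum.inl (Q.c f' l) := cyc_A (L := L) (φ := φ) h3 l
    rw [e1, e2] at h
    rw [e1, C.hi.onCut_glv H hL n1 h2]
    obtain ⟨b1, b2⟩ := vb_iff h
    obtain ⟨g₀, c1, c2, c3⟩ := out_face n1 b1
    have c4 : inH true g g₀ := by
      unfold inH at h2 ⊢
      have : g₀.2 = a.2 := congrArg Prod.snd c2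
      rw [this]
      exact h2
    have h5 := C.meet (ψ g₀) (C.hi.half.out g₀ c1 c4) f' h4 k l (by rw [chart_cor H c1, c3, b2])
    rw [chart_cor H c1, C.hi.half.cut g₀ c1 c4 k, c3] at h5
    rw [← h5]
    exact congrArg Prod.snd (lft_spec b1).2.2
  · obtain ⟨h1, h2⟩ := inr_cyS.mp hF
    obtain ⟨h3, h4⟩ := inr_cyS.mp hF'
    have n1 := hO.sub _ h1
    have n2 := hO.sub _ h3
    have e1 : (cyQ N H hL).c (Sum.inr a) k = glv Φ N L φ ((CQ N).c a k) := cyc_C (Q := Q) (A := A) n1 k
    have e2 : (cyQ N H hL).c (Sum.inr a') l = glv Φ N L φ ((CQ N).c a' l) := cyc_C (Q := Q) (A := A) n2 l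
    rw [e1, e2] at h
    rw [e1, C.hi.onCut_glv H hL n1 h2]
    have h5 := glv_inj H n1 n2 h
    have h6 := congrArg Prod.snd h5
    have y1 := stdB_CQ.y (B := CQ N) a k
    have y2 := stdB_CQ.y (B := CQ N) a' l
    unfold inH at h2 h4
    simp only [iff_true] at h2
    simp only [Bool.false_eq_true, iff_false, not_le] at h4
    omega

end CutZ

/-! ## Finite parts -/

theorem oneSided_of {W Ψ ι : Type} [DecidableEq W] [DecidableEq Ψ] {R : QC W Ψ} {T : Set Ψ}
    {F : Finset Ψ} {m : ι → W × W} (h : OneSidedS R T m) (hF : ∀ f, f ∈ F ↔ f ∈ T) :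
    OneSided R F m where
  fam := h.fam
  into i := by
    obtain ⟨f, hf, k, e⟩ := h.into i
    exact ⟨f, (hF f).mpr hf, k, e⟩
  only f hf := h.only f ((hF f).mp hf)

theorem eds_rev {W ι : Type} [DecidableEq W] [Fintype ι] {m : ι → W × W} :
    eds (revFam m) = eds m := by
  ext a
  rw [mem_eds, mem_eds]
  refine exists_congr fun i => ?_
  unfold revFam
  rw [Prod.swap_swap]
  exact or_comm

open Classical in
/-- the half of the finite cylinder surface -/
def cyF (N : ℕ) [Fact (3 ≤ N)] (A : Finset Φ) (S : Set Φ) (up : Bool) (g L M : ℤ) :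
    Finset (CF Φ N) :=
  (corS A S).image Sum.inl ∪
    ((cylF N (-M) M \ bxC N L).filter fun h => inH up g h).image Sum.inr

theorem mem_cyF {M : ℤ} {F : CF Φ N} : F ∈ cyF N A S up g L M ↔
    F ∈ cyS A S up g {h | h ∈ cylF N (-M) M \ bxC N L} := by
  classical
  unfold cyF cyS
  rw [Finset.mem_union, Finset.mem_image, Finset.mem_image]
  constructor
  · rintro (⟨f, hf, rfl⟩ | ⟨h, hh, rfl⟩)
    · obtain ⟨h1, h2⟩ := mem_corS.mp hf
      exact Or.inl ⟨f, h1, h2, rfl⟩
    · obtain ⟨h1, h2⟩ := Finset.mem_filter.mp hh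
      exact Or.inr ⟨h, h1, h2, rfl⟩
  · rintro (⟨f, h1, h2, rfl⟩ | ⟨h, h1, h2, rfl⟩)
    · exact Or.inl ⟨f, mem_corS.mpr ⟨h1, h2⟩, rfl⟩
    · exact Or.inr ⟨h, Finset.mem_filter.mpr ⟨h1, h2⟩, rfl⟩

namespace CutZ

variable (C : CutZ g L Q A φ ψ S S' m) (H : GlueZ L Q A φ ψ P) (hL : 2 * (L + 1) < N)
  {M : ℤ} (hM : L < M)

include C H hL hM

theorem one_up : OneSided (cyQ N H hL) (cyF N A S true g L M) (cyM Φ N L g φ true m) :=
  oneSided_of (C.up' H hL (outO_cyl C.hi.hg hM)).os fun _ => mem_cyF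

theorem one_lo :
    OneSided (cyQ N H hL) (cyF N A S' false g L M) (revFam (cyM Φ N L g φ true m)) :=
  oneSided_of (C.lo' H hL (outO_cyl C.hi.hg hM)).os fun _ => mem_cyF

omit hM in
theorem disjF : Disjoint (cyF N A S' false g L M) (cyF N A S true g L M) := by
  rw [Finset.disjoint_left]
  intro F h1 h2
  exact C.disj H hL F (mem_cyF.mp h2) (mem_cyF.mp h1)

omit hM in
theorem union : cyF N A S' false g L M ∪ cyF N A S true g L M =
    A.image Sum.inl ∪ (cylF N (-M) M \ bxC N L).image Sum.inr := by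
  ext F
  rw [Finset.mem_union, mem_cyF, mem_cyF, Finset.mem_union]
  constructor
  · rintro (h | h)
    all_goals
      rcases h with ⟨f, h1, -, rfl⟩ | ⟨h, h1, -, rfl⟩
      · exact Or.inl (Finset.mem_image_of_mem _ h1)
      · exact Or.inr (Finset.mem_image_of_mem _ h1)
  · rintro (h | h)
    · obtain ⟨f, hf, rfl⟩ := Finset.mem_image.mp h
      exact (C.cover_inl H hL hf).symm
    · obtain ⟨h, hh, rfl⟩ := Finset.mem_image.mp h
      exact (C.cover_inr H hL (O := {h | h ∈ cylF N (-M) M \ bxC N L}) hh).symm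

/-- **The common sides of the two halves are the cut sides.** -/
theorem cE_eq : cE (cyQ N H hL) (cyF N A S' false g L M) (cyF N A S true g L M) =
    eds (cyM Φ N L g φ true m) := by
  have hO := outO_cyl (N := N) C.hi.hg hM
  have o1 := C.one_up H hL hM
  have o2 := C.one_lo H hL hM
  ext a
  unfold cE
  rw [Finset.mem_inter, mem_eds]
  constructor
  · rintro ⟨h1, h2⟩
    have hcut : ∀ v, (∃ F ∈ cyF N A S' false g L M, ∃ k, v = (cyQ N H hL).c F k) →
        (∃ F ∈ cyF N A S true g L M, ∃ k, v = (cyQ N H hL).c F k) →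
        onCut (cyM Φ N L g φ true m) v := by
      rintro v ⟨F', hF', l, e'⟩ ⟨F, hF, k, e⟩
      rw [e]
      exact C.meet' H hL hO (mem_cyF.mp hF) (mem_cyF.mp hF') (l := l) (by rw [← e, ← e'])
    obtain ⟨v1, v2⟩ := GlueC.dE_corner h1
    obtain ⟨w1, w2⟩ := GlueC.dE_corner h2
    have c1 := hcut _ v1 w1
    have c2 := hcut _ v2 w2
    obtain ⟨F, hF, k, hk⟩ := mem_dE.mp h2
    rcases hk with hk | hk
    · obtain ⟨i, hi⟩ := o1.only F hF k (by rw [hk] at c1; exact c1) (by rw [hk] at c2; exact c2)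
      exact ⟨i, Or.inl (by rw [hk, hi])⟩
    · obtain ⟨i, hi⟩ := o1.only F hF k (by rw [hk] at c2; exact c2) (by rw [hk] at c1; exact c1)
      exact ⟨i, Or.inr (by rw [hk, hi])⟩
  · rintro ⟨i, hi⟩
    obtain ⟨F, hF, k, e⟩ := o1.into i
    obtain ⟨F', hF', k', e'⟩ := o2.into i
    have m1 : cyM Φ N L g φ true m i ∈ dE (cyQ N H hL) (cyF N A S true g L M) := by
      rw [← e]
      exact sd_mem hF k
    have m2 : cyM Φ N L g φ true m i ∈ dE (cyQ N H hL) (cyF N A S' false g L M) := by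
      have h3 : (cyM Φ N L g φ true m i).swap ∈ dE (cyQ N H hL) (cyF N A S' false g L M) := by
        have h4 : (cyM Φ N L g φ true m i).swap = sd (cyQ N H hL) F' k' := e'.symm
        rw [h4]
        exact sd_mem hF' k'
      have h5 := swap_mem_dE.mpr h3
      rwa [Prod.swap_swap] at h5
    rcases hi with rfl | rfl
    · exact ⟨m2, m1⟩
    · exact ⟨swap_mem_dE.mpr m2, swap_mem_dE.mpr m1⟩

end CutZ

end

end Pool.Agent.SixB.Cyh
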