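import Pool.Agent.Lib.SixB.S3Hcs
import Pool.Agent.Lib.SixB.S3DblS

/-!
# 6BD step 3: the reflection inequality on a surface with a cut row

* `CutS`: the two halves of a surface and the cut row between them.
* `dw`: the weight of the double (two copies); `avc_dbl`: the double of a finite piece and the double of the half.
* `CutS.fin`: the finite inequality for the faces `A ∪ ψ '' W`.
-/

set_option autoImplicit false
set_option linter.unusedSectionVars false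

namespace Pool.Agent.SixB.Hcs

open Pool.Agent.Perc Pool.Agent.Perc.Q Relation Filter Topology ComplexConjugate
open Pool.Agent.SixB.Rel Pool.Agent.SixB.Dbl
open Pool.Agent.SixB hiding Zs_split dst_congr qt_congr dE_mono

noncomputable section

variable {V Φ : Type} [DecidableEq V] [DecidableEq Φ] {ι : Type}

/-- the weight of the double: `h` on the copy `false`, the conjugate of `h'` on the copy `true` -/
def dw (h h' : V × V → ℂ) (a : (V × Bool × Bool) × (V × Bool × Bool)) : ℂ :=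
  if (a.1.2.1 || a.2.2.1) = true then conj (h' (a.1.1, a.2.1)) else h (a.1.1, a.2.1)

theorem dw_eq [Fintype ι] {m : ι → V × V} {h h' : V × V → ℂ} (h1 : ∀ a ∈ eds m, h a = 1)
    (h2 : ∀ a ∈ eds m, h' a = 1) (a : (V × Bool × Bool) × (V × Bool × Bool)) :
    dblH2 m h h' a = dw h h' a := by
  unfold dblH2 dw
  by_cases h3 : (a.1.1, a.2.1) ∈ eds m
  · rw [if_pos h3, h1 _ h3, h2 _ h3, map_one, mul_one]
    split_ifs <;> rfl
  · rw [if_neg h3]

/-- the average of the strand sums depends only on the corners of the faces -/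
theorem avc_Zs_congr {F : Finset Φ} {Q Q' : QC V Φ} {h h' : V × V → ℂ}
    (hc : ∀ f ∈ F, ∀ k, Q'.c f k = Q.c f k) (hh : ∀ a ∈ dE Q F, h' a = h a) :
    avc F (fun ω => Zs Q' F ω h') = avc F (fun ω => Zs Q F ω h) := by
  congr 1
  funext ω
  have H : QMap Q Q' F ω ω id id 0 :=
    ⟨fun f _ g _ k l e => e, fun f hf k => by rw [add_zero]; exact hc f hf k,
      fun f _ k => by rw [add_zero]; rfl⟩
  have := H.Zs_map (h := h) (h' := h') (fun a ha => by rw [Prod.map_id]; exact hh a ha)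
  rw [Finset.image_id] at this
  exact this

theorem cpy_mem {F : Finset Φ} {p : Φ × Bool} : p ∈ cpy F false ∪ cpy F true ↔ p.1 ∈ F := by
  obtain ⟨f, b⟩ := p
  rw [Finset.mem_union, mem_cpy, mem_cpy]
  cases b <;> simp

/-- the double of a finite piece of the half -/
theorem avc_dbl {Q : QC V Φ} {F : Finset Φ} {S : Set Φ} {m : ι → V × V} (hm : OneSided Q F m)
    (hs : OneSidedS Q S m) (hFS : ∀ f ∈ F, f ∈ S) {h h' : (V × Bool × Bool) × (V × Bool × Bool) → ℂ}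
    (hh : ∀ a, h a = h' a) :
    avc (cpy F false ∪ cpy F true) (fun ω => Zs (dbl Q F m hm) (cpy F false ∪ cpy F true) ω h) =
      avc (cpy F false ∪ cpy F true)
        (fun ω => Zs (dblS Q S m hs) (cpy F false ∪ cpy F true) ω h') := by
  refine avc_Zs_congr ?_ fun a _ => hh a
  rintro ⟨f, b⟩ hf k
  have h1 : f ∈ F := cpy_mem.mp hf
  rw [dbl_eq, dblS_c (show f ∈ (F : Set Φ) by exact_mod_cast h1), dblS_c (hFS f h1)]

theorem noLoop_dbl {Q : QC V Φ} {F : Finset Φ} {m : ι → V × V} (hm : OneSided Q F m)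
    (hQ : NoLoop Q) : NoLoop (dbl Q F m hm) := by
  rw [dbl_eq]
  exact dblS_noLoop hQ

theorem onCut_revFam {m : ι → V × V} {w : V} : onCut (revFam m) w ↔ onCut m w := by
  unfold onCut revFam
  constructor
  · rintro ⟨i, h | h⟩
    · exact ⟨i, Or.inr h⟩
    · exact ⟨i, Or.inl h⟩
  · rintro ⟨i, h | h⟩
    · exact ⟨i, Or.inr h⟩
    · exact ⟨i, Or.inl h⟩

theorem eds_revFam [Fintype ι] {m : ι → V × V} : eds (revFam m) = eds m := by
  ext a
  rw [mem_eds, mem_eds]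
  unfold revFam
  constructor
  · rintro ⟨i, h | h⟩
    · exact ⟨i, Or.inr h⟩
    · exact ⟨i, Or.inl (by rw [h, Prod.swap_swap])⟩
  · rintro ⟨i, h | h⟩
    · exact ⟨i, Or.inr (by rw [h, Prod.swap_swap])⟩
    · exact ⟨i, Or.inl h⟩

/-- the two halves of a surface, the cut row `m` is directed into the upper half `S₂` -/
structure CutS {X : Type} [AddGroupWithOne X] (g₀ : ℤ) (B : QC (X × ℤ) (X × ℤ)) (O : Set (X × ℤ))
    (Q : QC V Φ) (A : Finset Φ) (φ : X × ℤ → V) (ψ : X × ℤ → Φ) (S₁ S₂ : Set Φ)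
    (m : ι → V × V) : Prop where
  lo : HalfS false g₀ B O Q A φ ψ S₁ (revFam m)
  up : HalfS true g₀ B O Q A φ ψ S₂ m
  disj : Disjoint S₁ S₂
  cov : ∀ f ∈ A, f ∈ S₁ ∨ f ∈ S₂
  sep : ∀ f₁ ∈ S₁, ∀ f₂ ∈ S₂, ∀ k l, Q.c f₁ k = Q.c f₂ l → onCut m (Q.c f₂ l)

namespace CutS

variable {X : Type} [AddGroupWithOne X] [DecidableEq X] {g₀ : ℤ} {B : QC (X × ℤ) (X × ℤ)}
  {O : Set (X × ℤ)} {Q : QC V Φ} {A : Finset Φ} {φ : X × ℤ → V} {ψ : X × ℤ → Φ} {S₁ S₂ : Set Φ}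
  {m : ι → V × V} {W : Finset (X × ℤ)}

theorem cut_W (hcor : ∀ g ∈ O, ∀ k, Q.c (ψ g) k = φ (B.c g k))
    (hW : ∀ g ∈ O, (∃ k, (B.c g k).2 = g₀) → g ∈ W) {up : Bool} {S : Set Φ} {m' : ι → V × V}
    (H : HalfS up g₀ B O Q A φ ψ S m') {f : Φ} (hf : f ∈ S) {k : ZMod 4}
    (h : onCut m' (Q.c f k)) : f ∈ A ∪ W.image ψ := by
  rcases H.mem f hf with hA | ⟨g, hg, hH, rfl⟩
  · exact Finset.mem_union_left _ hA
  · refine Finset.mem_union_right _ (Finset.mem_image_of_mem _ (hW g hg ⟨k, ?_⟩))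
    rw [hcor g hg] at h
    exact (H.cut g hg hH k).mp h

theorem oneSided (hcor : ∀ g ∈ O, ∀ k, Q.c (ψ g) k = φ (B.c g k))
    (hW : ∀ g ∈ O, (∃ k, (B.c g k).2 = g₀) → g ∈ W) {up : Bool} {S : Set Φ} {m' : ι → V × V}
    (H : HalfS up g₀ B O Q A φ ψ S m') : OneSided Q (corS (A ∪ W.image ψ) S) m' where
  fam := H.os.fam
  into i := by
    obtain ⟨f, hf, k, h⟩ := H.os.into i
    refine ⟨f, mem_corS.mpr ⟨cut_W hcor hW H hf (k := k) ⟨i, Or.inl ?_⟩, hf⟩, k, h⟩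
    rw [← h]
    rfl
  only f hf := H.os.only f (mem_corS.mp hf).2

theorem union (H : CutS g₀ B O Q A φ ψ S₁ S₂ m) (hO : ∀ g ∈ W, g ∈ O) :
    corS (A ∪ W.image ψ) S₁ ∪ corS (A ∪ W.image ψ) S₂ = A ∪ W.image ψ := by
  ext f
  rw [Finset.mem_union, mem_corS, mem_corS]
  constructor
  · rintro (h | h)
    · exact h.1
    · exact h.1
  · intro h
    rcases Finset.mem_union.mp h with h1 | h1
    · rcases H.cov f h1 with h2 | h2
      · exact Or.inl ⟨h, h2⟩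
      · exact Or.inr ⟨h, h2⟩
    · obtain ⟨g, hg, rfl⟩ := Finset.mem_image.mp h1
      by_cases h2 : g₀ ≤ g.2
      · exact Or.inr ⟨h, H.up.out g (hO g hg) (by unfold inH; simp [h2])⟩
      · exact Or.inl ⟨h, H.lo.out g (hO g hg) (by unfold inH; simp [h2])⟩

theorem disjF (H : CutS g₀ B O Q A φ ψ S₁ S₂ m) (F : Finset Φ) :
    Disjoint (corS F S₁) (corS F S₂) := by
  rw [Finset.disjoint_left]
  intro f h1 h2
  exact Set.disjoint_left.mp H.disj (mem_corS.mp h1).2 (mem_corS.mp h2).2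

variable [Fintype ι]

theorem cE_eq (H : CutS g₀ B O Q A φ ψ S₁ S₂ m) (hcor : ∀ g ∈ O, ∀ k, Q.c (ψ g) k = φ (B.c g k))
    (hW : ∀ g ∈ O, (∃ k, (B.c g k).2 = g₀) → g ∈ W) :
    cE Q (corS (A ∪ W.image ψ) S₁) (corS (A ∪ W.image ψ) S₂) = eds m := by
  have m1 := oneSided hcor hW H.lo
  have m2 := oneSided hcor hW H.up
  unfold cE
  ext a
  rw [Finset.mem_inter]
  constructor
  · rintro ⟨h1, h2⟩
    have key : ∀ {F : Finset Φ} {S : Set Φ}, a ∈ dE Q (corS F S) →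
        (∃ f ∈ S, ∃ k, Q.c f k = a.1) ∧ ∃ f ∈ S, ∃ k, Q.c f k = a.2 := by
      intro F S ha
      obtain ⟨f, hf, k, h3 | h3⟩ := mem_dE.mp ha
      · have hf' := (mem_corS.mp hf).2
        rw [h3]
        exact ⟨⟨f, hf', k, rfl⟩, f, hf', k + 1, rfl⟩
      · have hf' := (mem_corS.mp hf).2
        rw [h3]
        exact ⟨⟨f, hf', k + 1, rfl⟩, f, hf', k, rfl⟩
    obtain ⟨⟨f₁, hf₁, k₁, e₁⟩, f₂, hf₂, k₂, e₂⟩ := key h1
    obtain ⟨⟨f₃, hf₃, k₃, e₃⟩, f₄, hf₄, k₄, e₄⟩ := key h2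
    refine mem_eds_of_onCut h2 m2 ?_ ?_
    · rw [← e₃]
      exact H.sep f₁ hf₁ f₃ hf₃ k₁ k₃ (by rw [e₁, e₃])
    · rw [← e₄]
      exact H.sep f₂ hf₂ f₄ hf₄ k₂ k₄ (by rw [e₂, e₄])
  · intro ha
    refine ⟨?_, eds_sub m2 ha⟩
    apply eds_sub m1
    rw [eds_revFam]
    exact ha

variable [DecidableEq ι]

/-- **The finite inequality for a surface with a cut row.** -/
theorem fin (H : CutS g₀ B O Q A φ ψ S₁ S₂ m) (hQ : NoLoop Q)
    (hcor : ∀ g ∈ O, ∀ k, Q.c (ψ g) k = φ (B.c g k))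
    (hW : ∀ g ∈ O, (∃ k, (B.c g k).2 = g₀) → g ∈ W) (hO : ∀ g ∈ W, g ∈ O)
    {h : V × V → ℂ} (h1 : ∀ a ∈ eds m, h a = 1) {c : V × V → ℝ} {P : Finset (V × V)}
    (HS : Sup c P) (hP : ∀ e ∈ P, e ∈ dE Q (corS (A ∪ W.image ψ) S₂) ∧
      e ∉ dE Q (corS (A ∪ W.image ψ) S₁)) :
    ‖∑ e ∈ P, (c e : ℂ) * avc (A ∪ W.image ψ)
        (fun ω => Zs Q (A ∪ W.image ψ) ω fun a => h a * sgE e a)‖ ^ 2 ≤
      (avc (cpy (corS (A ∪ W.image ψ) S₁) false ∪ cpy (corS (A ∪ W.image ψ) S₁) true)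
        (fun ω => Zs (dblS Q S₁ (revFam m) H.lo.os)
          (cpy (corS (A ∪ W.image ψ) S₁) false ∪ cpy (corS (A ∪ W.image ψ) S₁) true) ω
          (dw h h))).re *
        (∑ e ∈ P, ∑ e' ∈ P, (c e : ℂ) * (c e' : ℂ) *
          avc (cpy (corS (A ∪ W.image ψ) S₂) false ∪ cpy (corS (A ∪ W.image ψ) S₂) true)
          (fun ω => Zs (dblS Q S₂ m H.up.os)
          (cpy (corS (A ∪ W.image ψ) S₂) false ∪ cpy (corS (A ∪ W.image ψ) S₂) true) ω
          (dw (fun a => h a * sgE e a) (fun a => h a * sgE e' a)))).re ∧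
    0 ≤ (avc (cpy (corS (A ∪ W.image ψ) S₁) false ∪ cpy (corS (A ∪ W.image ψ) S₁) true)
        (fun ω => Zs (dblS Q S₁ (revFam m) H.lo.os)
          (cpy (corS (A ∪ W.image ψ) S₁) false ∪ cpy (corS (A ∪ W.image ψ) S₁) true) ω
          (dw h h))).re ∧
    0 ≤ (∑ e ∈ P, ∑ e' ∈ P, (c e : ℂ) * (c e' : ℂ) *
          avc (cpy (corS (A ∪ W.image ψ) S₂) false ∪ cpy (corS (A ∪ W.image ψ) S₂) true)
          (fun ω => Zs (dblS Q S₂ m H.up.os)
          (cpy (corS (A ∪ W.image ψ) S₂) false ∪ cpy (corS (A ∪ W.image ψ) S₂) true) ω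
          (dw (fun a => h a * sgE e a) (fun a => h a * sgE e' a)))).re := by
  have m1 := oneSided hcor hW H.lo
  have m2 := oneSided hcor hW H.up
  have hE := H.cE_eq hcor hW
  have hm1 : ∀ a ∈ eds m, a ∈ dE Q (corS (A ∪ W.image ψ) S₁) := by
    intro a ha
    apply eds_sub m1
    rw [eds_revFam]
    exact ha
  have key := Hcs.fin hQ (H.disjF _) hE m1 m2 (noLoop_dbl m1 hQ) (noLoop_dbl m2 hQ)
    (h := h) (h₁ := h) (h₂ := h) (fun a ha => by rw [h1 a ha, mul_one]) (fun a _ _ => rfl)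
    (fun a _ _ => rfl) HS hP
  rw [H.union hO] at key
  have e1 : dA Q (corS (A ∪ W.image ψ) S₁) (revFam m) m1 h =
      avc (cpy (corS (A ∪ W.image ψ) S₁) false ∪ cpy (corS (A ∪ W.image ψ) S₁) true)
        (fun ω => Zs (dblS Q S₁ (revFam m) H.lo.os)
          (cpy (corS (A ∪ W.image ψ) S₁) false ∪ cpy (corS (A ∪ W.image ψ) S₁) true) ω
          (dw h h)) := by
    unfold dA
    refine avc_dbl m1 H.lo.os (fun f hf => (mem_corS.mp hf).2) fun a => ?_
    rw [← dblH2_self]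
    refine dw_eq ?_ ?_ a
    · rw [eds_revFam]
      exact h1
    · rw [eds_revFam]
      exact h1
  have hs : ∀ e ∈ P, ∀ a ∈ eds m, h a * sgE e a = 1 := by
    intro e he a ha
    have h3 : sgE e a = 1 := by
      unfold sgE
      have h4 : a ≠ e := by
        rintro rfl
        exact (hP _ he).2 (hm1 _ ha)
      have h5 : a ≠ e.swap := by
        rintro rfl
        exact (hP _ he).2 (swap_mem_dE.mpr (hm1 _ ha))
      rw [if_neg h5]
    rw [h1 a ha, h3, mul_one]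
  have e2 : ∀ e ∈ P, ∀ e' ∈ P,
      dB Q (corS (A ∪ W.image ψ) S₂) m m2 (fun a => h a * sgE e a) (fun a => h a * sgE e' a) =
      avc (cpy (corS (A ∪ W.image ψ) S₂) false ∪ cpy (corS (A ∪ W.image ψ) S₂) true)
          (fun ω => Zs (dblS Q S₂ m H.up.os)
          (cpy (corS (A ∪ W.image ψ) S₂) false ∪ cpy (corS (A ∪ W.image ψ) S₂) true) ω
          (dw (fun a => h a * sgE e a) (fun a => h a * sgE e' a))) := by
    intro e he e' he'
    unfold dB
    exact avc_dbl m2 H.up.os (fun f hf => (mem_corS.mp hf).2) fun a =>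
      dw_eq (hs e he) (hs e' he') a
  rw [e1, Finset.sum_congr rfl fun e he => Finset.sum_congr rfl fun e' he' => by
    rw [e2 e he e' he']] at key
  exact key

end CutS

end

end Pool.Agent.SixB.Hcs
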