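import Pool.Agent.Lib.SixB.S3HcsE
import Pool.Agent.Lib.SixB.S3HcsC
import Pool.Agent.Lib.SixB.S3CylnH

/-!
# 6BD step 3: the cut of an environment along a column

`cutE`: `CutS` for the rotated environment, `S₁` = left half with the blocks, `S₂` = flat right half.
`cutZE`: the structure `Cyh.CutZ` of `S3CylnH`.
-/

set_option autoImplicit false
set_option linter.unusedSectionVars false

namespace Pool.Agent.SixB.Hcs

open Pool.Agent.Perc Pool.Agent.Perc.Q Relation Filter Topology
open Pool.Agent.SixB.Rel Pool.Agent.SixB.Dbl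
open Pool.Agent.SixB hiding Zs_split dst_congr qt_congr dE_mono

noncomputable section

variable {E : SEnv} {X L : ℤ}

theorem corner_le {g : ℤ × ℤ} {k : ZMod 4} : g.1 ≤ (ZQ.c g k).1 ∧ (ZQ.c g k).1 ≤ g.1 + 1 := by
  rcases corner_x g k with h | h <;> omega

/-- the sheet changes only near a mouth -/
theorem corner_sheet {f : VE} {k : ZMod 4} (h : ∀ b : Bool,
    ¬ (if b then E.gu.mouth true else E.gd.mouth false).adj f.2 k) :
    E.Q.c f k = (f.1, ZQ.c f.2 k) := by
  rw [EQ_c, msig_id h]

theorem sep_E (H : LeftOf E X) {f₁ f₂ : VE} (h1 : f₁ ∈ hL E X) (h2 : f₂ ∈ hR X) {k l : ZMod 4}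
    (h : (RQ E).c f₁ k = (RQ E).c f₂ l) : onCut (colF X) ((RQ E).c f₂ l) := by
  obtain ⟨s₂, g₂⟩ := f₂
  obtain ⟨h3, h4⟩ := h2
  simp only at h3 h4
  subst h3
  rw [RQ_c, RQ_c, corner_right H h4] at h
  rw [RQ_c, corner_right H h4, onCut_col]
  refine ⟨rfl, ?_⟩
  have h5 : X ≤ (ZQ.c g₂ (l + 3)).1 := h4.trans corner_le.1
  simp only
  have e1 : (E.Q.c f₁ (k + 3)).1 = none := congrArg Prod.fst h
  have e2 : ZQ.c f₁.2 (k + 3) = ZQ.c g₂ (l + 3) := congrArg Prod.snd h
  by_cases hadj : ∃ b : Bool, (if b then E.gu.mouth true else E.gd.mouth false).adj f₁.2 (k + 3)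
  · obtain ⟨b, hb⟩ := hadj
    have h6 := adj_lt H hb
    have h7 := (corner_le (g := f₁.2) (k := k + 3)).2
    rw [e2] at h7
    omega
  · have h6 : ∀ b : Bool, ¬ (if b then E.gu.mouth true else E.gd.mouth false).adj f₁.2 (k + 3) :=
      fun b hb => hadj ⟨b, hb⟩
    rw [corner_sheet h6] at e1
    have h7 := (corner_le (g := f₁.2) (k := k + 3)).2
    rw [e2] at h7
    rcases h1 with h8 | h8 | h8
    · have h9 : f₁.2.1 < X := h8.2.1
      omega
    · rw [h8.1] at e1
      exact absurd e1 (by simp)
    · rw [h8.1] at e1
      exact absurd e1 (by simp)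

/-- **The cut of the environment along the column `x = X`.** -/
theorem cutE (H : LeftOf E X) (hB : InBx E L) :
    CutS X ZQ (outZ L) (RQ E) (win E L).F cv cf (hL E X) (hR X) (colF X) where
  lo := halfL H hB
  up := halfR H
  disj := disj_halves.symm
  cov f hf := (cover_halves hB hf).symm
  sep f₁ h1 f₂ h2 k l h := sep_E H h1 h2 h

theorem out_col (X x : ℤ) : colF X x = (cv (x, X), cv (x + 1, X)) := by
  unfold colF cv rv0
  exact pr4 rfl rfl rfl (by simp only; omega)

/-- **The cut row of the rotated environment.** -/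
theorem cutZE (H : LeftOf E X) (hB : InBx E L) (hX : |X| < L) :
    Cyh.CutZ X L (RQ E) (win E L).F cv cf (hR X) (hL E X) (colF X) where
  hi :=
    { half := halfR H
      hg := hX
      out := fun x _ => by
        unfold Cyh.ori
        rw [if_pos rfl]
        exact out_col X x
      core := fun x h1 h2 => by
        obtain ⟨f, hf, k, hk⟩ := (os_R H).into x
        obtain ⟨s, g⟩ := f
        obtain ⟨h3, h4⟩ := hf
        simp only at h3 h4
        subst h3
        have e1 := congrArg (fun p : VE × VE => p.1.2) hk
        have e2 := congrArg (fun p : VE × VE => p.2.2) hk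
        change ((RQ E).c (none, g) k).2 = (X, -x) at e1
        change ((RQ E).c (none, g) (k + 1)).2 = (X, -x - 1) at e2
        rw [RQ_c, corner_right H h4] at e1
        rw [RQ_c, corner_right H h4] at e2
        simp only at e1 e2
        refine ⟨(none, g), ?_, ⟨rfl, h4⟩, k, hk⟩
        have h5 := not_solid_right H h4
        refine EnvB.mem_F_none.mpr (mem_base_win.mpr ⟨?_, h5.1, h5.2⟩)
        rw [show k + 1 + 3 = k + 3 + 1 by ring] at e2
        rw [abs_lt] at hX
        have h6 := col_side (f := g) (j := k + 3) (X := X) (by rw [e1]) (by rw [e2])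
        rcases h6 with ⟨h7, h8⟩ | ⟨h7, h8⟩
        · rw [h7] at e1
          change cor0 g 3 = _ at e1
          rw [cor0_3] at e1
          have e3 := congrArg Prod.snd e1
          simp only at e3
          rw [mem_RF0]
          omega
        · omega }
  lo :=
    { half := halfL H hB
      hg := hX
      out := fun x _ => by
        unfold Cyh.ori revFam
        rw [if_neg (by simp), out_col X x]
      core := fun x h1 h2 => by
        have hns : ¬ E.gu.solid true (X - 1, -x - 1) ∧ ¬ E.gd.solid false (X - 1, -x - 1) := by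
          constructor
          · intro h
            have := H.sol _ (Or.inl h)
            simp only at this
            omega
          · intro h
            have := H.sol _ (Or.inr h)
            simp only at this
            omega
        rw [abs_lt] at hX
        refine ⟨(none, (X - 1, -x - 1)), EnvB.mem_F_none.mpr (mem_base_win.mpr ⟨?_, hns.1, hns.2⟩),
          Or.inl ⟨rfl, by simp only; omega, hns.1, hns.2⟩, 2, ?_⟩
        · rw [mem_RF0]
          simp only
          omega
        · have e1 : (ZQ.c (X - 1, -x - 1) 1).1 = X := by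
            change (cor0 (X - 1, -x - 1) 1).1 = X
            rw [cor0_1]
            simp
          have e2 : (ZQ.c (X - 1, -x - 1) 2).1 = X := by
            change (cor0 (X - 1, -x - 1) 2).1 = X
            rw [cor0_2]
            simp
          unfold sd colF revFam
          rw [RQ_c, RQ_c, show (2 : ZMod 4) + 1 + 3 = 2 by decide, z23, corner_cut H e1,
            corner_cut H e2]
          change ((none, cor0 (X - 1, -x - 1) 1), (none, cor0 (X - 1, -x - 1) 2)) = _
          rw [cor0_1, cor0_2]
          exact pr4 (by omega) rfl (by omega) (by omega) }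
  dj f _ h1 h2 := Set.disjoint_left.mp disj_halves h1 h2
  cov f hf := cover_halves hB hf
  meet f h1 f' h2 k l h := sep_E H h2 h1 h.symm

end

end Pool.Agent.SixB.Hcs
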