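import Pool.Agent.Lib.SixB.S3Loc
import Pool.Agent.Lib.SixB.S0Clo
import Pool.Agent.Lib.SixB.S0Av

/-!
# 6BD, step 3: cells

Any complex of quadrangles `Q`, any finite face sets `G₀ ⊆ G ⊆ F`, any weights.
* `Cell.Xc Q F G₀ G ω`: the number of the strands of `G \ G₀` from the common sides with `F \ G` to the common
  sides with `G₀`; it depends only on the faces of `G \ G₀` (`Xc_congr`, `dep_Xc`), monotone in `F`.
* `Cell.card_esc_le`: the number of the sides at `G₀` whose strand does not stay in `G` is at most `Xc`.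
* `Cells`: cells for a set `Z` of boundary sides (for instance all sides of the islands), regular cells and
  one cell for every special vertex; `arcsZ` = arcs with an end in `Z`.
* `Cells.prod_le`: `|∏ arcsZ| ≤ √3 ^ card * ∏ t v ^ N v * (2/√3) ^ K`;
* `Cells.prod_eq`: if no strand crosses a cell then `∏ arcsZ = √3 ^ card * ∏ t v ^ Nb v`.
-/

set_option autoImplicit false
set_option linter.unusedSectionVars false

namespace Pool.Agent.SixB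

open Pool.Agent.Perc.Q Relation

noncomputable section

variable {V Φ : Type} [DecidableEq V] [DecidableEq Φ]
variable {Q : QC V Φ} {F F' G G' G₀ : Finset Φ} {ω ω' : Φ → Bool} {a b c : V × V}
  {Z H P P' : Finset (V × V)}

namespace Cell

/-! ## Dependence on the configuration -/

theorem lst_congr (h : ∀ f ∈ F, ω f = ω' f) : lst Q F ω = lst Q F ω' := by
  have h1 : Nx Q ω (F : Set Φ) = Nx Q ω' (F : Set Φ) := nx_congr fun f hf => h f (by exact_mod_cast hf)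
  funext a
  unfold lst Orb
  rw [h1]

theorem mate_congr (h : ∀ f ∈ F, ω f = ω' f) (a : V × V) : mate Q F ω a = mate Q F ω' a := by
  unfold mate
  rw [lst_congr h]

theorem turn_congr (h : ∀ f ∈ F, ω f = ω' f) (a : V × V) : turn Q F ω a = turn Q F ω' a := by
  unfold turn tX
  rw [dst_congr h]
  exact Finset.sum_congr rfl fun b _ => qt_congr h

theorem wt_congr (h : ∀ f ∈ F, ω f = ω' f) (ψ : V × V → ℝ) (a : V × V) :
    wt Q F ω ψ a = wt Q F ω' ψ a := by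
  unfold wt
  rw [mate_congr h, turn_congr h]

theorem esc_congr (h : ∀ f ∈ G, ω f = ω' f) : esc Q F G H ω = esc Q F G H ω' := by
  ext a
  rw [mem_esc, mem_esc, mate_congr h]

theorem ovr_congr (h : ∀ f ∈ G, ω f = ω' f) : ovr Q G P P' ω = ovr Q G P P' ω' := by
  ext a
  rw [mem_ovr, mem_ovr, mate_congr h]

/-! ## Crossings of a cell -/

open Classical in
/-- Strands of `G \ G₀` from the common sides with `F \ G` to the common sides with `G₀`, recorded by their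
first side. -/
def Xs (Q : QC V Φ) (F G₀ G : Finset Φ) (ω : Φ → Bool) : Finset (V × V) :=
  (bS Q (G \ G₀)).filter fun b => b ∈ bS Q G ∧ b ∉ bS Q F ∧ mate Q (G \ G₀) ω b ∉ bS Q G

/-- The number of the strands which cross the cell. -/
def Xc (Q : QC V Φ) (F G₀ G : Finset Φ) (ω : Φ → Bool) : ℕ := (Xs Q F G₀ G ω).card

theorem mem_Xs : b ∈ Xs Q F G₀ G ω ↔ b ∈ bS Q (G \ G₀) ∧ b ∈ bS Q G ∧ b ∉ bS Q F ∧
    mate Q (G \ G₀) ω b ∉ bS Q G := by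
  classical
  unfold Xs
  rw [Finset.mem_filter]

theorem Xs_congr (h : ∀ f ∈ G \ G₀, ω f = ω' f) : Xs Q F G₀ G ω = Xs Q F G₀ G ω' := by
  ext b
  rw [mem_Xs, mem_Xs, mate_congr h]

theorem Xc_congr (h : ∀ f ∈ G \ G₀, ω f = ω' f) : Xc Q F G₀ G ω = Xc Q F G₀ G ω' := by
  unfold Xc
  rw [Xs_congr h]

theorem dep_Xc : Dep ((G \ G₀ : Finset Φ) : Set Φ) (Xc Q F G₀ G) := fun _ _ h =>
  Xc_congr fun f hf => h f (by exact_mod_cast hf)

theorem Xs_mono (hGF : G ⊆ F) (hF : F ⊆ F') : Xs Q F G₀ G ω ⊆ Xs Q F' G₀ G ω := by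
  intro b hb
  obtain ⟨h1, h2, h3, h4⟩ := mem_Xs.mp hb
  refine mem_Xs.mpr ⟨h1, h2, fun h5 => h3 (mem_bS.mpr ⟨?_, ?_⟩), h4⟩
  · exact mate_loc'.dE_mono hGF (mem_bS.mp h2).1
  · exact Ini.anti (by exact_mod_cast hF) (mem_bS.mp h5).2

theorem Xc_mono (hGF : G ⊆ F) (hF : F ⊆ F') : Xc Q F G₀ G ω ≤ Xc Q F' G₀ G ω :=
  Finset.card_le_card (Xs_mono hGF hF)

/-- A boundary side of `G` which is not a side of `G₀` is a boundary side of `G \ G₀`. -/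
theorem bS_sdiff (hb : b ∈ bS Q G) (h0 : b ∉ dE Q G₀) : b ∈ bS Q (G \ G₀) := by
  obtain ⟨f, hf, k, rfl⟩ := bS_sd hb
  refine mem_bS.mpr ⟨mem_dE.mpr ⟨f, Finset.mem_sdiff.mpr ⟨hf, fun h => h0 ?_⟩, k, Or.inl rfl⟩, ?_⟩
  · exact mem_dE.mpr ⟨f, h, k, Or.inl rfl⟩
  · exact Ini.anti (by exact_mod_cast Finset.sdiff_subset) (mem_bS.mp hb).2

/-- An inward boundary side of `G` belongs to one face. -/
theorem not_both (h1 : a ∈ bS Q (G \ G₀)) (h2 : a ∈ dE Q G₀) (h3 : Ini Q (G : Set Φ) a)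
    (hG : G₀ ⊆ G) : False := by
  obtain ⟨f, hf, k, rfl⟩ := bS_sd h1
  obtain ⟨g, hg, l, h4 | h4⟩ := mem_dE.mp h2
  · have h5 := (sd_inj h4).1
    rw [h5] at hf
    exact (Finset.mem_sdiff.mp hf).2 hg
  · exact h3 g (by exact_mod_cast hG hg) l h4

/-- **Sides at `G₀` whose strand does not stay in `G`.** -/
theorem card_esc_le (h0 : G₀ ⊆ G) (hGF : G ⊆ F)
    (hsep : ∀ b ∈ bS Q G, b ∈ dE Q G₀ → b ∈ bS Q F)
    (hH : H ⊆ bS Q F) (hH0 : ∀ a ∈ H, a ∈ dE Q G₀) :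
    (esc Q F G H ω).card ≤ Xc Q F G₀ G ω := by
  refine Finset.card_le_card_of_injOn (fun a => mate Q G ω a) ?_ ?_
  · intro a ha
    obtain ⟨h1, h2⟩ := mem_esc.mp (Finset.mem_coe.mp ha)
    have haF := (mem_bS.mp (hH h1)).2
    have haG : a ∈ bS Q G := mem_bS.mpr ⟨mate_loc'.dE_mono h0 (hH0 a h1),
      Ini.anti (by exact_mod_cast hGF) haF⟩
    have hb := mate_mem (ω := ω) haG
    have hb0 : mate Q G ω a ∉ dE Q G₀ := fun h => h2 (hsep _ hb h)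
    have hb' := bS_sdiff hb hb0
    refine Finset.mem_coe.mpr (mem_Xs.mpr ⟨hb', hb, h2, fun hc => ?_⟩)
    have h3 := (mate_loc' (ω := ω) Finset.sdiff_subset hb' (mem_bS.mp hb).2 (mem_bS.mp hc).2).1
    rw [mate_mate haG] at h3
    have h4 := mate_mem (ω := ω) hb'
    rw [← h3] at h4
    exact not_both h4 (hH0 a h1) (mem_bS.mp haG).2 h0
  · intro a ha b hb hab
    obtain ⟨h1, -⟩ := mem_esc.mp (Finset.mem_coe.mp ha)
    obtain ⟨h2, -⟩ := mem_esc.mp (Finset.mem_coe.mp hb)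
    have haG : a ∈ bS Q G := mem_bS.mpr ⟨mate_loc'.dE_mono h0 (hH0 a h1),
      Ini.anti (by exact_mod_cast hGF) (mem_bS.mp (hH h1)).2⟩
    have hbG : b ∈ bS Q G := mem_bS.mpr ⟨mate_loc'.dE_mono h0 (hH0 b h2),
      Ini.anti (by exact_mod_cast hGF) (mem_bS.mp (hH h2)).2⟩
    have h3 : mate Q G ω a = mate Q G ω b := hab
    rw [← mate_mate (ω := ω) haG, h3, mate_mate hbG]

end Cell

/-! ## Cells for a set of sides -/

/-- the arcs with an end in `Z` -/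
def arcsZ (Q : QC V Φ) (F : Finset Φ) (Z : Finset (V × V)) (ω : Φ → Bool) : Finset (Sym2 (V × V)) :=
  Z.image fun a => s(a, mate Q F ω a)

theorem mem_arcsZ {p : Sym2 (V × V)} :
    p ∈ arcsZ Q F Z ω ↔ ∃ a ∈ Z, s(a, mate Q F ω a) = p := by
  unfold arcsZ
  rw [Finset.mem_image]

theorem arcsZ_bS : arcsZ Q F (bS Q F) ω = arcs Q F ω := by
  ext p
  rw [mem_arcsZ, mem_arcs]

theorem arcsZ_sub (hZ : Z ⊆ bS Q F) : arcsZ Q F Z ω ⊆ arcs Q F ω := by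
  intro p hp
  obtain ⟨a, ha, rfl⟩ := mem_arcsZ.mp hp
  exact mem_arcs.mpr ⟨a, hZ ha, rfl⟩

/-- The number of the arcs with an end in `Z`, when all mates are in `Z`. -/
theorem card_arcsZ (hQ : NoLoop Q) (hZ : Z ⊆ bS Q F) (hm : ∀ a ∈ Z, mate Q F ω a ∈ Z) :
    2 * (arcsZ Q F Z ω).card = Z.card := by
  have h1 : Z.card = ∑ p ∈ arcsZ Q F Z ω, (Z.filter fun a => s(a, mate Q F ω a) = p).card :=
    Finset.card_eq_sum_card_fiberwise fun a ha => mem_arcsZ.mpr ⟨a, ha, rfl⟩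
  have h2 : ∀ p ∈ arcsZ Q F Z ω, (Z.filter fun a => s(a, mate Q F ω a) = p).card = 2 := by
    intro p hp
    obtain ⟨a, ha, rfl⟩ := mem_arcsZ.mp hp
    have h3 : (Z.filter fun b => s(b, mate Q F ω b) = s(a, mate Q F ω a)) = {a, mate Q F ω a} := by
      ext b
      rw [Finset.mem_filter, Sym2.eq_iff, Finset.mem_insert, Finset.mem_singleton]
      constructor
      · rintro ⟨-, ⟨h, -⟩ | ⟨h, -⟩⟩
        · exact Or.inl h
        · exact Or.inr h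
      · rintro (rfl | rfl)
        · exact ⟨ha, Or.inl ⟨rfl, rfl⟩⟩
        · exact ⟨hm a ha, Or.inr ⟨rfl, mate_mate (hZ ha)⟩⟩
    rw [h3, Finset.card_pair (mate_ne hQ (hZ ha)).symm]
  rw [h1, Finset.sum_congr rfl h2, Finset.sum_const, smul_eq_mul, mul_comm]

/-- Cells of `F` with the phases `ψ` for the set `Z` of boundary sides. -/
structure Cells (Q : QC V Φ) (F : Finset Φ) (ψ : V × V → ℝ) (Z : Finset (V × V)) (ι κ : Type) where
  /-- regular cells, special vertices -/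
  I : Finset ι
  S : Finset κ
  /-- regular cells -/
  G₀ : ι → Finset Φ
  G : ι → Finset Φ
  /-- special vertices: inner box, half box, box; the two walls of the box -/
  B₀ : κ → Finset Φ
  B₁ : κ → Finset Φ
  B : κ → Finset Φ
  PA : κ → Finset (V × V)
  PB : κ → Finset (V × V)
  t : κ → ℝ
  Z_F : Z ⊆ bS Q F
  G₀_sub : ∀ i ∈ I, G₀ i ⊆ G i
  G_sub : ∀ i ∈ I, G i ⊆ F
  G_sep : ∀ i ∈ I, ∀ b ∈ bS Q (G i), b ∈ dE Q (G₀ i) → b ∈ bS Q F
  nat : ∀ i ∈ I, ∀ ω, ∀ a ∈ Z, a ∈ dE Q (G₀ i) → mate Q (G i) ω a ∈ bS Q F →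
    |wt Q (G i) ω ψ a| ≤ Real.sqrt 3
  B₀_sub : ∀ v ∈ S, B₀ v ⊆ B v
  B₁_sub : ∀ v ∈ S, B₁ v ⊆ B v
  B_sub : ∀ v ∈ S, B v ⊆ F
  B_sep : ∀ v ∈ S, ∀ b ∈ bS Q (B v), b ∈ dE Q (B₁ v) → b ∈ bS Q F
  PA_Z : ∀ v ∈ S, PA v ⊆ Z
  PB_F : ∀ v ∈ S, PB v ⊆ bS Q F
  dAB : ∀ v ∈ S, ∀ v' ∈ S, Disjoint (PA v) (PB v')
  dAA : ∀ v ∈ S, ∀ v' ∈ S, v ≠ v' → Disjoint (PA v) (PA v')
  t_nonneg : ∀ v ∈ S, 0 ≤ t v
  spec : ∀ v ∈ S, ∀ ω, ∀ a ∈ Z, a ∈ dE Q (B₁ v) → mate Q (B v) ω a ∈ bS Q F →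
    (a ∈ PA v ∧ mate Q (B v) ω a ∈ PB v) ∨ (a ∈ PB v ∧ mate Q (B v) ω a ∈ PA v) ∨
      |wt Q (B v) ω ψ a| ≤ Real.sqrt 3
  ovw : ∀ v ∈ S, ∀ ω, ∀ a ∈ PA v, a ∈ bS Q (B v) → mate Q (B v) ω a ∈ PB v →
    wt Q (B v) ω ψ a = Real.sqrt 3 * t v
  cover : ∀ a ∈ Z, (∃ i ∈ I, a ∈ dE Q (G₀ i)) ∨ ∃ v ∈ S, a ∈ dE Q (B₁ v)

namespace Cells

variable {ψ : V × V → ℝ} {ι κ : Type} [DecidableEq ι] [DecidableEq κ]

/-- The number of the arcs over `v` in the inner box. -/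
def N (C : Cells Q F ψ Z ι κ) (v : κ) (ω : Φ → Bool) : ℕ :=
  (ovr Q (C.B₀ v) (C.PA v) (C.PB v) ω).card

/-- The number of the arcs over `v` in the box. -/
def Nb (C : Cells Q F ψ Z ι κ) (v : κ) (ω : Φ → Bool) : ℕ :=
  (ovr Q (C.B v) (C.PA v) (C.PB v) ω).card

/-- The number of the crossings of the cells. -/
def X (C : Cells Q F ψ Z ι κ) (ω : Φ → Bool) : ℕ :=
  ∑ i ∈ C.I, Cell.Xc Q F (C.G₀ i) (C.G i) ω + ∑ v ∈ C.S, Cell.Xc Q F (C.B₁ v) (C.B v) ω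

/-- The number of the exceptional arcs. -/
def K (C : Cells Q F ψ Z ι κ) (ω : Φ → Bool) : ℕ :=
  C.X ω + ∑ v ∈ C.S, (C.Nb v ω - C.N v ω)

theorem bS_B (C : Cells Q F ψ Z ι κ) {v : κ} (hv : v ∈ C.S) (ha : a ∈ Z) (h1 : a ∈ dE Q (C.B₁ v)) :
    a ∈ bS Q (C.B v) :=
  mem_bS.mpr ⟨mate_loc'.dE_mono (C.B₁_sub v hv) h1,
    Ini.anti (by exact_mod_cast C.B_sub v hv) (mem_bS.mp (C.Z_F ha)).2⟩

theorem bS_G (C : Cells Q F ψ Z ι κ) {i : ι} (hi : i ∈ C.I) (ha : a ∈ Z) (h1 : a ∈ dE Q (C.G₀ i)) :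
    a ∈ bS Q (C.G i) :=
  mem_bS.mpr ⟨mate_loc'.dE_mono (C.G₀_sub i hi) h1,
    Ini.anti (by exact_mod_cast C.G_sub i hi) (mem_bS.mp (C.Z_F ha)).2⟩

theorem ovr_sub (C : Cells Q F ψ Z ι κ) {v : κ} (hv : v ∈ C.S) (ω : Φ → Bool) :
    ovr Q (C.B₀ v) (C.PA v) (C.PB v) ω ⊆ ovr Q (C.B v) (C.PA v) (C.PB v) ω := by
  intro a ha
  obtain ⟨h1, h2, h3⟩ := mem_ovr.mp ha
  have haF := (mem_bS.mp (C.Z_F (C.PA_Z v hv h1))).2
  have hbF := (mem_bS.mp (C.PB_F v hv h3)).2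
  have hsub : ((C.B v : Finset Φ) : Set Φ) ⊆ (F : Set Φ) := by exact_mod_cast C.B_sub v hv
  have h4 := mate_loc' (C.B₀_sub v hv) h2 (Ini.anti hsub haF) (Ini.anti hsub hbF)
  refine mem_ovr.mpr ⟨h1, ?_, by rw [h4.1]; exact h3⟩
  exact mem_bS.mpr ⟨mate_loc'.dE_mono (C.B₀_sub v hv) (mem_bS.mp h2).1, Ini.anti hsub haF⟩

theorem N_le_Nb (C : Cells Q F ψ Z ι κ) {v : κ} (hv : v ∈ C.S) (ω : Φ → Bool) :
    C.N v ω ≤ C.Nb v ω := Finset.card_le_card (C.ovr_sub hv ω)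

/-- Arcs over `v` in the box as arcs of `F`. -/
theorem over_F (C : Cells Q F ψ Z ι κ) {v : κ} (hv : v ∈ C.S)
    (ha : a ∈ ovr Q (C.B v) (C.PA v) (C.PB v) ω) :
    a ∈ Z ∧ mate Q F ω a = mate Q (C.B v) ω a ∧ wt Q F ω ψ a = Real.sqrt 3 * C.t v := by
  obtain ⟨h1, h2, h3⟩ := mem_ovr.mp ha
  have haZ := C.PA_Z v hv h1
  have haF := C.Z_F haZ
  have h4 := mate_loc (C.B_sub v hv) h2 (mem_bS.mp haF).2 (C.PB_F v hv h3)
  refine ⟨haZ, h4.1, ?_⟩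
  rw [wt_loc ψ (C.B_sub v hv) h2 (mem_bS.mp haF).2 (C.PB_F v hv h3)]
  exact C.ovw v hv ω a h1 h2 h3

/-- The arcs over `v` in the face set `D`. -/
def A (C : Cells Q F ψ Z ι κ) (D : κ → Finset Φ) (ω : Φ → Bool) (v : κ) : Finset (Sym2 (V × V)) :=
  (ovr Q (D v) (C.PA v) (C.PB v) ω).image fun a => s(a, mate Q F ω a)

theorem card_A (C : Cells Q F ψ Z ι κ) {D : κ → Finset Φ} {ω : Φ → Bool} {v : κ} (hv : v ∈ C.S)
    (hD : ovr Q (D v) (C.PA v) (C.PB v) ω ⊆ ovr Q (C.B v) (C.PA v) (C.PB v) ω) :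
    (C.A D ω v).card = (ovr Q (D v) (C.PA v) (C.PB v) ω).card := by
  unfold A
  refine Finset.card_image_of_injOn fun a ha b hb h => ?_
  have ha' := C.over_F hv (hD (Finset.mem_coe.mp ha))
  have ha3 := (mem_ovr.mp (hD (Finset.mem_coe.mp ha))).2.2
  have hb1 := (mem_ovr.mp (Finset.mem_coe.mp hb)).1
  have h' : s(a, mate Q F ω a) = s(b, mate Q F ω b) := h
  rw [Sym2.eq_iff] at h'
  rcases h' with ⟨h1, -⟩ | ⟨-, h1⟩
  · exact h1
  · exfalso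
    rw [ha'.2.1] at h1
    rw [h1] at ha3
    exact Finset.disjoint_left.mp (C.dAB v hv v hv) hb1 ha3

theorem A_disj (C : Cells Q F ψ Z ι κ) {D : κ → Finset Φ} {ω : Φ → Bool}
    (hD : ∀ v ∈ C.S, ovr Q (D v) (C.PA v) (C.PB v) ω ⊆ ovr Q (C.B v) (C.PA v) (C.PB v) ω) :
    ∀ v ∈ C.S, ∀ v' ∈ C.S, v ≠ v' → Disjoint (C.A D ω v) (C.A D ω v') := by
  intro v hv v' hv' hne
  rw [Finset.disjoint_left]
  intro p hp hp'
  obtain ⟨a, ha, rfl⟩ := Finset.mem_image.mp hp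
  obtain ⟨b, hb, hab⟩ := Finset.mem_image.mp hp'
  have h1 := (mem_ovr.mp ha).1
  have h2 := (mem_ovr.mp hb).1
  have h4 := C.over_F hv (hD v hv ha)
  have h5 := (mem_ovr.mp (hD v hv ha)).2.2
  rw [← h4.2.1] at h5
  have hab' : s(b, mate Q F ω b) = s(a, mate Q F ω a) := hab
  rw [Sym2.eq_iff] at hab'
  rcases hab' with ⟨h6, -⟩ | ⟨h6, -⟩
  · rw [h6] at h2
    exact Finset.disjoint_left.mp (C.dAA v hv v' hv' hne) h1 h2
  · rw [h6] at h2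
    exact Finset.disjoint_left.mp (C.dAB v' hv' v hv) h2 h5

/-- the product over the arcs over the special vertices -/
theorem prod_A (C : Cells Q F ψ Z ι κ) {D : κ → Finset Φ} {ω : Φ → Bool}
    (hD : ∀ v ∈ C.S, ovr Q (D v) (C.PA v) (C.PB v) ω ⊆ ovr Q (C.B v) (C.PA v) (C.PB v) ω) :
    ∏ p ∈ C.S.biUnion (C.A D ω), wA Q F ω ψ p =
      Real.sqrt 3 ^ (C.S.biUnion (C.A D ω)).card *
        ∏ v ∈ C.S, C.t v ^ (ovr Q (D v) (C.PA v) (C.PB v) ω).card := by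
  have hdis := C.A_disj hD
  have e1 : ∏ p ∈ C.S.biUnion (C.A D ω), wA Q F ω ψ p = ∏ v ∈ C.S, ∏ p ∈ C.A D ω v, wA Q F ω ψ p :=
    Finset.prod_biUnion (fun v hv v' hv' hne => hdis v (Finset.mem_coe.mp hv) v'
      (Finset.mem_coe.mp hv') hne)
  have e2 : (C.S.biUnion (C.A D ω)).card = ∑ v ∈ C.S, (ovr Q (D v) (C.PA v) (C.PB v) ω).card := by
    rw [Finset.card_biUnion hdis]
    exact Finset.sum_congr rfl fun v hv => C.card_A hv (hD v hv)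
  rw [e1, e2, ← Finset.prod_pow_eq_pow_sum, ← Finset.prod_mul_distrib]
  refine Finset.prod_congr rfl fun v hv => ?_
  rw [← mul_pow, ← C.card_A hv (hD v hv)]
  refine Finset.prod_eq_pow_card fun p hp => ?_
  obtain ⟨a, ha, rfl⟩ := Finset.mem_image.mp hp
  have h4 := C.over_F hv (hD v hv ha)
  rw [wA_eq ψ (C.Z_F h4.1), h4.2.2]

/-- the sides whose strand does not stay in the cell, and the arcs over `v` outside of `D v` -/
def bad (C : Cells Q F ψ Z ι κ) (D : κ → Finset Φ) (ω : Φ → Bool) : Finset (V × V) := by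
  classical
  exact (C.I.biUnion fun i => esc Q F (C.G i) (Z ∩ dE Q (C.G₀ i)) ω) ∪
    C.S.biUnion fun v => esc Q F (C.B v) (Z ∩ dE Q (C.B₁ v)) ω ∪
      (ovr Q (C.B v) (C.PA v) (C.PB v) ω \ ovr Q (D v) (C.PA v) (C.PB v) ω)

theorem card_bad (C : Cells Q F ψ Z ι κ) {D : κ → Finset Φ} {ω : Φ → Bool}
    (hD : ∀ v ∈ C.S, ovr Q (D v) (C.PA v) (C.PB v) ω ⊆ ovr Q (C.B v) (C.PA v) (C.PB v) ω) :
    (C.bad D ω).card ≤ C.X ω +
      ∑ v ∈ C.S, (C.Nb v ω - (ovr Q (D v) (C.PA v) (C.PB v) ω).card) := by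
  classical
  have h1 : ∀ i ∈ C.I, (esc Q F (C.G i) (Z ∩ dE Q (C.G₀ i)) ω).card ≤
      Cell.Xc Q F (C.G₀ i) (C.G i) ω := fun i hi =>
    Cell.card_esc_le (C.G₀_sub i hi) (C.G_sub i hi) (C.G_sep i hi)
      (Finset.inter_subset_left.trans C.Z_F) fun a ha => (Finset.mem_inter.mp ha).2
  have h2 : ∀ v ∈ C.S, (esc Q F (C.B v) (Z ∩ dE Q (C.B₁ v)) ω).card ≤
      Cell.Xc Q F (C.B₁ v) (C.B v) ω := fun v hv =>
    Cell.card_esc_le (C.B₁_sub v hv) (C.B_sub v hv) (C.B_sep v hv)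
      (Finset.inter_subset_left.trans C.Z_F) fun a ha => (Finset.mem_inter.mp ha).2
  unfold bad X
  refine (Finset.card_union_le _ _).trans ?_
  rw [add_assoc, ← Finset.sum_add_distrib]
  refine Nat.add_le_add (Finset.card_biUnion_le.trans (Finset.sum_le_sum h1))
    (Finset.card_biUnion_le.trans (Finset.sum_le_sum fun v hv => ?_))
  refine (Finset.card_union_le _ _).trans (Nat.add_le_add (h2 v hv) ?_)
  rw [Finset.card_sdiff_of_subset (hD v hv)]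
  exact le_rfl

/-- Every arc with an end in `Z` is over a special vertex inside `D`, or it has a weight at most `√3`, or it
has an end in `bad`. -/
theorem trichotomy (C : Cells Q F ψ Z ι κ) {D : κ → Finset Φ} {ω : Φ → Bool}
    (ha : a ∈ Z) (hU : s(a, mate Q F ω a) ∉ C.S.biUnion (C.A D ω)) :
    (∃ c ∈ C.bad D ω, s(c, mate Q F ω c) = s(a, mate Q F ω a)) ∨
      (∃ i ∈ C.I, a ∈ dE Q (C.G₀ i) ∧ mate Q (C.G i) ω a ∈ bS Q F ∧
        wt Q F ω ψ a = wt Q (C.G i) ω ψ a) ∨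
      ∃ v ∈ C.S, a ∈ dE Q (C.B₁ v) ∧ mate Q (C.B v) ω a ∈ bS Q F ∧
        wt Q F ω ψ a = wt Q (C.B v) ω ψ a ∧
        ¬(a ∈ C.PA v ∧ mate Q (C.B v) ω a ∈ C.PB v) ∧
        ¬(a ∈ C.PB v ∧ mate Q (C.B v) ω a ∈ C.PA v) := by
  classical
  have haF := C.Z_F ha
  -- an arc over `v` in the box
  have key : ∀ v ∈ C.S, ∀ b, s(b, mate Q F ω b) = s(a, mate Q F ω a) →
      b ∈ ovr Q (C.B v) (C.PA v) (C.PB v) ω → b ∈ C.bad D ω := by
    intro v hv b hba hb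
    unfold bad
    refine Finset.mem_union_right _ (Finset.mem_biUnion.mpr ⟨v, hv, Finset.mem_union_right _ ?_⟩)
    rw [Finset.mem_sdiff]
    refine ⟨hb, fun hb' => hU ?_⟩
    rw [Finset.mem_biUnion]
    refine ⟨v, hv, ?_⟩
    rw [← hba]
    exact Finset.mem_image_of_mem _ hb'
  rcases C.cover a ha with ⟨i, hi, hai⟩ | ⟨v, hv, hav⟩
  · by_cases hm : mate Q (C.G i) ω a ∈ bS Q F
    · exact Or.inr (Or.inl ⟨i, hi, hai, hm,
        wt_loc ψ (C.G_sub i hi) (C.bS_G hi ha hai) (mem_bS.mp haF).2 hm⟩)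
    · refine Or.inl ⟨a, ?_, rfl⟩
      unfold bad
      exact Finset.mem_union_left _ (Finset.mem_biUnion.mpr ⟨i, hi,
        mem_esc.mpr ⟨Finset.mem_inter.mpr ⟨ha, hai⟩, hm⟩⟩)
  · by_cases hm : mate Q (C.B v) ω a ∈ bS Q F
    · have hab := C.bS_B hv ha hav
      have hloc := mate_loc (C.B_sub v hv) hab (mem_bS.mp haF).2 hm
      by_cases h1 : a ∈ C.PA v ∧ mate Q (C.B v) ω a ∈ C.PB v
      · exact Or.inl ⟨a, key v hv a rfl (mem_ovr.mpr ⟨h1.1, hab, h1.2⟩), rfl⟩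
      · by_cases h2 : a ∈ C.PB v ∧ mate Q (C.B v) ω a ∈ C.PA v
        · have hmb : mate Q (C.B v) ω a ∈ bS Q (C.B v) := mate_mem hab
          have heq : s(mate Q (C.B v) ω a, mate Q F ω (mate Q (C.B v) ω a)) =
              s(a, mate Q F ω a) := by
            rw [← hloc.1, mate_mate haF, Sym2.eq_swap]
          exact Or.inl ⟨_, key v hv _ heq
            (mem_ovr.mpr ⟨h2.2, hmb, by rw [mate_mate hab]; exact h2.1⟩), heq⟩
        · exact Or.inr (Or.inr ⟨v, hv, hav, hm,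
            wt_loc ψ (C.B_sub v hv) hab (mem_bS.mp haF).2 hm, h1, h2⟩)
    · refine Or.inl ⟨a, ?_, rfl⟩
      unfold bad
      exact Finset.mem_union_right _ (Finset.mem_biUnion.mpr ⟨v, hv, Finset.mem_union_left _
        (mem_esc.mpr ⟨Finset.mem_inter.mpr ⟨ha, hav⟩, hm⟩)⟩)

theorem biUnion_sub (C : Cells Q F ψ Z ι κ) {D : κ → Finset Φ} {ω : Φ → Bool}
    (hD : ∀ v ∈ C.S, ovr Q (D v) (C.PA v) (C.PB v) ω ⊆ ovr Q (C.B v) (C.PA v) (C.PB v) ω) :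
    C.S.biUnion (C.A D ω) ⊆ arcsZ Q F Z ω := by
  intro p hp
  obtain ⟨v, hv, hp⟩ := Finset.mem_biUnion.mp hp
  obtain ⟨a, ha, rfl⟩ := Finset.mem_image.mp hp
  exact mem_arcsZ.mpr ⟨a, (C.over_F hv (hD v hv ha)).1, rfl⟩

/-- **Localisation of the product over the arcs with an end in `Z`.** -/
theorem prod_le (C : Cells Q F ψ Z ι κ) (ω : Φ → Bool) :
    |∏ p ∈ arcsZ Q F Z ω, wA Q F ω ψ p| ≤
      Real.sqrt 3 ^ (arcsZ Q F Z ω).card * (∏ v ∈ C.S, C.t v ^ C.N v ω) *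
        (2 / Real.sqrt 3) ^ C.K ω := by
  classical
  have h3 : (0 : ℝ) < Real.sqrt 3 := Real.sqrt_pos.mpr (by norm_num)
  have h32 : Real.sqrt 3 ≤ 2 := by
    rw [Real.sqrt_le_left (by norm_num)]
    norm_num
  have hq : 1 ≤ 2 / Real.sqrt 3 := by rwa [le_div_iff₀ h3, one_mul]
  have hD : ∀ v ∈ C.S, ovr Q (C.B₀ v) (C.PA v) (C.PB v) ω ⊆
      ovr Q (C.B v) (C.PA v) (C.PB v) ω := fun v hv => C.ovr_sub hv ω
  set U := C.S.biUnion (C.A C.B₀ ω) with hU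
  have hUa : U ⊆ arcsZ Q F Z ω := C.biUnion_sub hD
  set B := (arcsZ Q F Z ω \ U).filter fun p => Real.sqrt 3 < |wA Q F ω ψ p| with hB
  have hprodU : ∏ p ∈ U, |wA Q F ω ψ p| =
      Real.sqrt 3 ^ U.card * ∏ v ∈ C.S, C.t v ^ C.N v ω := by
    rw [← Finset.abs_prod, C.prod_A hD, abs_of_nonneg]
    · rfl
    · exact mul_nonneg (by positivity)
        (Finset.prod_nonneg fun v hv => pow_nonneg (C.t_nonneg v hv) _)
  have hBcard : B.card ≤ C.K ω := by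
    refine le_trans ?_ (C.card_bad hD)
    have hsub : B ⊆ (C.bad C.B₀ ω).image fun a => s(a, mate Q F ω a) := by
      intro p hp
      rw [hB, Finset.mem_filter, Finset.mem_sdiff] at hp
      obtain ⟨⟨hp1, hp2⟩, hp3⟩ := hp
      obtain ⟨a, ha, rfl⟩ := mem_arcsZ.mp hp1
      rw [wA_eq ψ (C.Z_F ha)] at hp3
      rw [Finset.mem_image]
      rcases C.trichotomy ha hp2 with h | ⟨i, hi, h1, h2, h4⟩ | ⟨v, hv, h1, h2, h4, h5, h6⟩
      · exact h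
      · exfalso
        have := C.nat i hi ω a ha h1 h2
        rw [← h4] at this
        linarith
      · exfalso
        rcases C.spec v hv ω a ha h1 h2 with h | h | h
        · exact h5 h
        · exact h6 h
        · rw [← h4] at h
          linarith
    exact (Finset.card_le_card hsub).trans Finset.card_image_le
  have hrest : ∏ p ∈ arcsZ Q F Z ω \ U, |wA Q F ω ψ p| ≤
      Real.sqrt 3 ^ (arcsZ Q F Z ω \ U).card * (2 / Real.sqrt 3) ^ C.K ω := by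
    have e1 : ∀ p ∈ arcsZ Q F Z ω \ U, |wA Q F ω ψ p| ≤
        Real.sqrt 3 * (if Real.sqrt 3 < |wA Q F ω ψ p| then 2 / Real.sqrt 3 else 1) := by
      intro p hp
      obtain ⟨a, ha, rfl⟩ := mem_arcsZ.mp (Finset.mem_sdiff.mp hp).1
      rw [wA_eq ψ (C.Z_F ha)]
      split_ifs with h
      · rw [mul_div_cancel₀ _ h3.ne']
        exact abs_wt_le ψ
      · rw [mul_one]
        exact not_lt.mp h
    refine (Finset.prod_le_prod (fun p _ => abs_nonneg _) e1).trans ?_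
    rw [Finset.prod_mul_distrib, Finset.prod_const]
    refine mul_le_mul_of_nonneg_left ?_ (by positivity)
    rw [Finset.prod_ite, Finset.prod_const, Finset.prod_const_one, mul_one]
    exact pow_le_pow_right₀ hq hBcard
  rw [Finset.abs_prod, ← Finset.prod_sdiff hUa, hprodU]
  have hcard : (arcsZ Q F Z ω).card = (arcsZ Q F Z ω \ U).card + U.card := by
    rw [Finset.card_sdiff_add_card_eq_card hUa]
  rw [hcard, pow_add]
  have hT : 0 ≤ ∏ v ∈ C.S, C.t v ^ C.N v ω :=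
    Finset.prod_nonneg fun v hv => pow_nonneg (C.t_nonneg v hv) _
  calc (∏ p ∈ arcsZ Q F Z ω \ U, |wA Q F ω ψ p|) *
        (Real.sqrt 3 ^ U.card * ∏ v ∈ C.S, C.t v ^ C.N v ω)
      ≤ (Real.sqrt 3 ^ (arcsZ Q F Z ω \ U).card * (2 / Real.sqrt 3) ^ C.K ω) *
          (Real.sqrt 3 ^ U.card * ∏ v ∈ C.S, C.t v ^ C.N v ω) :=
        mul_le_mul_of_nonneg_right hrest (by positivity)
    _ = _ := by ring

/-- Exact cells: the weights of the arcs which stay in their cell are `√3`, or `√3 * t v` over `v`. The last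
alternative is for the marked side (`t v = 0`, `PB v` = the marked side): arcs over the marked side. -/
structure Exact (C : Cells Q F ψ Z ι κ) : Prop where
  nat : ∀ i ∈ C.I, ∀ ω, ∀ a ∈ Z, a ∈ dE Q (C.G₀ i) → mate Q (C.G i) ω a ∈ bS Q F →
    wt Q (C.G i) ω ψ a = Real.sqrt 3
  spec : ∀ v ∈ C.S, ∀ ω, ∀ a ∈ Z, a ∈ dE Q (C.B₁ v) → mate Q (C.B v) ω a ∈ bS Q F →
    (a ∈ C.PA v ∧ mate Q (C.B v) ω a ∈ C.PB v) ∨ (a ∈ C.PB v ∧ mate Q (C.B v) ω a ∈ C.PA v) ∨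
      wt Q (C.B v) ω ψ a = Real.sqrt 3 ∨ (C.t v = 0 ∧ C.Nb v ω ≠ 0)

/-- **No crossing of a cell: the product is local.** -/
theorem prod_eq (C : Cells Q F ψ Z ι κ) (hE : C.Exact) {ω : Φ → Bool} (hX : C.X ω = 0) :
    ∏ p ∈ arcsZ Q F Z ω, wA Q F ω ψ p =
      Real.sqrt 3 ^ (arcsZ Q F Z ω).card * ∏ v ∈ C.S, C.t v ^ C.Nb v ω := by
  classical
  have hD : ∀ v ∈ C.S, ovr Q (C.B v) (C.PA v) (C.PB v) ω ⊆
      ovr Q (C.B v) (C.PA v) (C.PB v) ω := fun v _ => Finset.Subset.refl _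
  set U := C.S.biUnion (C.A C.B ω) with hU
  have hUa : U ⊆ arcsZ Q F Z ω := C.biUnion_sub hD
  have hprodU : ∏ p ∈ U, wA Q F ω ψ p = Real.sqrt 3 ^ U.card * ∏ v ∈ C.S, C.t v ^ C.Nb v ω :=
    C.prod_A hD
  have hbad : C.bad C.B ω = ∅ := by
    have h1 := C.card_bad hD
    have h2 : ∑ v ∈ C.S, (C.Nb v ω - (ovr Q (C.B v) (C.PA v) (C.PB v) ω).card) = 0 :=
      Finset.sum_eq_zero fun v _ => Nat.sub_self _
    rw [hX, h2] at h1
    exact Finset.card_eq_zero.mp (Nat.le_zero.mp h1)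
  rw [← Finset.prod_sdiff hUa, hprodU]
  have hcard : (arcsZ Q F Z ω).card = (arcsZ Q F Z ω \ U).card + U.card := by
    rw [Finset.card_sdiff_add_card_eq_card hUa]
  by_cases h0 : ∃ v ∈ C.S, C.t v = 0 ∧ C.Nb v ω ≠ 0
  · obtain ⟨v, hv, h1, h2⟩ := h0
    have h3 : ∏ v ∈ C.S, C.t v ^ C.Nb v ω = 0 :=
      Finset.prod_eq_zero hv (by rw [h1, zero_pow h2])
    rw [h3, mul_zero, mul_zero, mul_zero]
  · have hrest : ∏ p ∈ arcsZ Q F Z ω \ U, wA Q F ω ψ p =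
        Real.sqrt 3 ^ (arcsZ Q F Z ω \ U).card := by
      refine Finset.prod_eq_pow_card fun p hp => ?_
      rw [Finset.mem_sdiff] at hp
      obtain ⟨hp1, hp2⟩ := hp
      obtain ⟨a, ha, rfl⟩ := mem_arcsZ.mp hp1
      rw [wA_eq ψ (C.Z_F ha)]
      rcases C.trichotomy ha hp2 with ⟨c, h, -⟩ | ⟨i, hi, h1, h2, h4⟩ | ⟨v, hv, h1, h2, h4, h5, h6⟩
      · rw [hbad] at h
        exact absurd h (Finset.notMem_empty c)
      · rw [h4]
        exact hE.nat i hi ω a ha h1 h2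
      · rcases hE.spec v hv ω a ha h1 h2 with h | h | h | h
        · exact absurd h h5
        · exact absurd h h6
        · rw [h4]
          exact h
        · exact absurd ⟨v, hv, h⟩ h0
    rw [hrest, hcard, pow_add]
    ring

end Cells

/-! ## Normalised product -/

open Classical in
/-- The normalised weight of the arcs with an end in `Z`; `0` if a strand leads from `Z` to another side. -/
def WZ (Q : QC V Φ) (F : Finset Φ) (ψ : V × V → ℝ) (Z : Finset (V × V)) (ω : Φ → Bool) : ℝ :=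
  if ∀ a ∈ Z, mate Q F ω a ∈ Z then ∏ p ∈ arcsZ Q F Z ω, wA Q F ω ψ p / Real.sqrt 3 else 0

theorem WZ_of (ψ : V × V → ℝ) (h : ∀ a ∈ Z, mate Q F ω a ∈ Z) :
    WZ Q F ψ Z ω = (∏ p ∈ arcsZ Q F Z ω, wA Q F ω ψ p) / Real.sqrt 3 ^ (arcsZ Q F Z ω).card := by
  unfold WZ
  rw [if_pos h, Finset.prod_div_distrib, Finset.prod_const]

theorem WZ_not (ψ : V × V → ℝ) (h : ¬∀ a ∈ Z, mate Q F ω a ∈ Z) : WZ Q F ψ Z ω = 0 := by
  unfold WZ
  rw [if_neg h]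

theorem wA_congr (h : ∀ f ∈ F, ω f = ω' f) (ψ : V × V → ℝ) (p : Sym2 (V × V)) (hp : p ∈ arcs Q F ω) :
    wA Q F ω ψ p = wA Q F ω' ψ p := by
  obtain ⟨a, ha, rfl⟩ := mem_arcs.mp hp
  rw [wA_eq ψ ha, Cell.mate_congr h, wA_eq ψ ha, Cell.wt_congr h]

theorem arcsZ_congr (h : ∀ f ∈ F, ω f = ω' f) : arcsZ Q F Z ω = arcsZ Q F Z ω' := by
  unfold arcsZ
  exact Finset.image_congr fun a _ => by
    show s(_, _) = s(_, _)
    rw [Cell.mate_congr h]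

theorem WZ_congr (hZ : Z ⊆ bS Q F) (h : ∀ f ∈ F, ω f = ω' f) (ψ : V × V → ℝ) :
    WZ Q F ψ Z ω = WZ Q F ψ Z ω' := by
  by_cases h1 : ∀ a ∈ Z, mate Q F ω a ∈ Z
  · have h2 : ∀ a ∈ Z, mate Q F ω' a ∈ Z := by
      intro a ha
      rw [← Cell.mate_congr h]
      exact h1 a ha
    rw [WZ_of ψ h1, WZ_of ψ h2, ← arcsZ_congr h]
    congr 1
    exact Finset.prod_congr rfl fun p hp => wA_congr h ψ p (arcsZ_sub hZ hp)
  · have h2 : ¬∀ a ∈ Z, mate Q F ω' a ∈ Z := by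
      intro h3
      refine h1 fun a ha => ?_
      rw [Cell.mate_congr h]
      exact h3 a ha
    rw [WZ_not ψ h1, WZ_not ψ h2]

theorem dep_WZ (hZ : Z ⊆ bS Q F) (ψ : V × V → ℝ) : Dep (F : Set Φ) (WZ Q F ψ Z) := fun _ _ h =>
  WZ_congr hZ (fun f hf => h f (by exact_mod_cast hf)) ψ

/-- The strand product of `S0Arcs` in terms of the normalised weight of all boundary sides. -/
theorem Zs_WZ (hQ : NoLoop Q) (ψ : V × V → ℝ)
    (hL : ∀ X ∈ dstr Q F ω, (∀ a ∈ X, ¬ Ini Q (F : Set Φ) a) →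
      tX Q F ω X = 4 ∨ tX Q F ω X = -4) :
    Zs Q F ω (bph Q F ψ) =
      ((Real.sqrt 3 ^ (arcs Q F ω).card * WZ Q F ψ (bS Q F) ω : ℝ) : ℂ) := by
  rw [Zs_wA hQ ψ hL, WZ_of ψ fun a ha => mate_mem ha, arcsZ_bS]
  congr 1
  have h3 : (0 : ℝ) < Real.sqrt 3 := Real.sqrt_pos.mpr (by norm_num)
  field_simp

namespace Cells

variable {ψ : V × V → ℝ} {ι κ : Type} [DecidableEq ι] [DecidableEq κ]

theorem abs_WZ_le (C : Cells Q F ψ Z ι κ) (ω : Φ → Bool) :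
    |WZ Q F ψ Z ω| ≤ (∏ v ∈ C.S, C.t v ^ C.N v ω) * (2 / Real.sqrt 3) ^ C.K ω := by
  have hT : 0 ≤ ∏ v ∈ C.S, C.t v ^ C.N v ω :=
    Finset.prod_nonneg fun v hv => pow_nonneg (C.t_nonneg v hv) _
  have h3 : (0 : ℝ) < Real.sqrt 3 := Real.sqrt_pos.mpr (by norm_num)
  by_cases h : ∀ a ∈ Z, mate Q F ω a ∈ Z
  · rw [WZ_of ψ h, abs_div, abs_of_pos (pow_pos h3 _), div_le_iff₀ (pow_pos h3 _)]
    refine (C.prod_le ω).trans (le_of_eq ?_)
    ring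
  · rw [WZ_not ψ h, abs_zero]
    exact mul_nonneg hT (by positivity)

/-- No crossing of a cell and no strand from `Z` to another side: the weight is local. -/
theorem WZ_eq (C : Cells Q F ψ Z ι κ) (hE : C.Exact) {ω : Φ → Bool} (hX : C.X ω = 0)
    (h : ∀ a ∈ Z, mate Q F ω a ∈ Z) : WZ Q F ψ Z ω = ∏ v ∈ C.S, C.t v ^ C.Nb v ω := by
  have h3 : (0 : ℝ) < Real.sqrt 3 := Real.sqrt_pos.mpr (by norm_num)
  rw [WZ_of ψ h, C.prod_eq hE hX, mul_div_cancel_left₀ _ (pow_pos h3 _).ne']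

/-- No crossing of a cell: the strands from `Z` stay in the cells. -/
theorem stay (C : Cells Q F ψ Z ι κ) {ω : Φ → Bool} (hX : C.X ω = 0) (ha : a ∈ Z) :
    (∃ i ∈ C.I, a ∈ dE Q (C.G₀ i) ∧ mate Q (C.G i) ω a ∈ bS Q F ∧
        mate Q F ω a = mate Q (C.G i) ω a) ∨
      ∃ v ∈ C.S, a ∈ dE Q (C.B₁ v) ∧ mate Q (C.B v) ω a ∈ bS Q F ∧
        mate Q F ω a = mate Q (C.B v) ω a := by
  classical
  have hX' : (∑ i ∈ C.I, Cell.Xc Q F (C.G₀ i) (C.G i) ω) = 0 ∧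
      (∑ v ∈ C.S, Cell.Xc Q F (C.B₁ v) (C.B v) ω) = 0 := by
    unfold X at hX
    omega
  rcases C.cover a ha with ⟨i, hi, hai⟩ | ⟨v, hv, hav⟩
  · have h1 : Cell.Xc Q F (C.G₀ i) (C.G i) ω = 0 := (Finset.sum_eq_zero_iff.mp hX'.1) i hi
    have h2 := Cell.card_esc_le (ω := ω) (H := Z ∩ dE Q (C.G₀ i)) (C.G₀_sub i hi) (C.G_sub i hi)
      (C.G_sep i hi) (Finset.inter_subset_left.trans C.Z_F) fun a ha => (Finset.mem_inter.mp ha).2
    rw [h1] at h2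
    have h4 : mate Q (C.G i) ω a ∈ bS Q F := by
      by_contra hm
      have h5 : a ∈ esc Q F (C.G i) (Z ∩ dE Q (C.G₀ i)) ω :=
        mem_esc.mpr ⟨Finset.mem_inter.mpr ⟨ha, hai⟩, hm⟩
      rw [Finset.card_eq_zero.mp (Nat.le_zero.mp h2)] at h5
      exact Finset.notMem_empty _ h5
    exact Or.inl ⟨i, hi, hai, h4,
      (mate_loc (C.G_sub i hi) (C.bS_G hi ha hai) (mem_bS.mp (C.Z_F ha)).2 h4).1⟩
  · have h1 : Cell.Xc Q F (C.B₁ v) (C.B v) ω = 0 := (Finset.sum_eq_zero_iff.mp hX'.2) v hv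
    have h2 := Cell.card_esc_le (ω := ω) (H := Z ∩ dE Q (C.B₁ v)) (C.B₁_sub v hv) (C.B_sub v hv)
      (C.B_sep v hv) (Finset.inter_subset_left.trans C.Z_F) fun a ha => (Finset.mem_inter.mp ha).2
    rw [h1] at h2
    have h4 : mate Q (C.B v) ω a ∈ bS Q F := by
      by_contra hm
      have h5 : a ∈ esc Q F (C.B v) (Z ∩ dE Q (C.B₁ v)) ω :=
        mem_esc.mpr ⟨Finset.mem_inter.mpr ⟨ha, hav⟩, hm⟩
      rw [Finset.card_eq_zero.mp (Nat.le_zero.mp h2)] at h5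
      exact Finset.notMem_empty _ h5
    exact Or.inr ⟨v, hv, hav, h4,
      (mate_loc (C.B_sub v hv) (C.bS_B hv ha hav) (mem_bS.mp (C.Z_F ha)).2 h4).1⟩

/-- a boundary side of `F` in one of the cells which is a boundary side of the window only is excluded:
if in every cell all boundary sides of `F` belong to `Z` then on `X = 0` all mates are in `Z` -/
theorem mates_of_X (C : Cells Q F ψ Z ι κ) {ω : Φ → Bool} (hX : C.X ω = 0)
    (hG : ∀ i ∈ C.I, ∀ b ∈ bS Q (C.G i), b ∈ bS Q F → b ∈ Z)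
    (hB : ∀ v ∈ C.S, ∀ b ∈ bS Q (C.B v), b ∈ bS Q F → b ∈ Z) : ∀ a ∈ Z, mate Q F ω a ∈ Z := by
  intro a ha
  rcases C.stay hX ha with ⟨i, hi, h1, h2, h3⟩ | ⟨v, hv, h1, h2, h3⟩
  · rw [h3]
    exact hG i hi _ (mate_mem (C.bS_G hi ha h1)) h2
  · rw [h3]
    exact hB v hv _ (mate_mem (C.bS_B hv ha h1)) h2

end Cells

end

end Pool.Agent.SixB
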