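import Pool.Agent.Lib.SixB.S3Chart
import Pool.Agent.Lib.SixB.S3Cell

/-!
# 6BD, step 3: the normalised weight under an injective map of complexes

`H : QChart Q Q' F ν φ 0`: the faces of `F` are mapped injectively into `Q'`, labels kept. `WM.mate_map`,
`WM.turn_map`, `WM.WZ_map`: `WZ` of the image is `WZ` of `F`; `WM.av_map`: averages; `WM.av_abs_WZ`: the mean of `|WZ|`.
-/

set_option autoImplicit false
set_option linter.unusedSectionVars false

namespace Pool.Agent.SixB.WM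

open Pool.Agent.Perc.Q Pool.Agent.Perc Relation Finset
open Pool.Agent.SixB Pool.Agent.SixB.Rel

noncomputable section

variable {V Φ V' Φ' : Type} [DecidableEq V] [DecidableEq Φ] [DecidableEq V'] [DecidableEq Φ']
variable {Q : QC V Φ} {Q' : QC V' Φ'} {F : Finset Φ} {ν : V → V'} {φ : Φ → Φ'} {ω : Φ' → Bool}
  {a b : V × V} {Z : Finset (V × V)}

theorem toMap (H : QChart Q Q' F ν φ 0) (ω : Φ' → Bool) : QMap Q Q' F (fun f => ω (φ f)) ω ν φ 0 := by
  have h := H.toMap ω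
  have e : QChart.pull φ 0 ω = fun f => ω (φ f) := by
    funext f
    unfold QChart.pull
    have : ev (0 : ZMod 4) = true := by decide
    rw [this]
    simp
  rwa [e] at h

theorem face_inj (H : QChart Q Q' F ν φ 0) {f g : Φ} (hf : f ∈ F) (hg : g ∈ F) (h : φ f = φ g) :
    f = g := by
  have h1 : ∀ k, Q.c f k = Q.c g k := fun k => by
    refine H.inj f hf g hg k k ?_
    rw [← H.cor f hf, ← H.cor g hg, h]
  exact (Q.inj (h1 0) (h1 (0 + 1))).1

theorem ini_map (H : QChart Q Q' F ν φ 0) (ha : a ∈ dE Q F) :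
    Ini Q' ((F.image φ : Finset Φ') : Set Φ') (Prod.map ν ν a) ↔ Ini Q (F : Set Φ) a := by
  have H' := toMap H (fun _ => false)
  constructor
  · intro h f hf k he
    have hf' : f ∈ F := by exact_mod_cast hf
    refine h (φ f) (by exact_mod_cast Finset.mem_image_of_mem φ hf') (k + 0) ?_
    have h1 := H'.sd_eq hf' k
    have h2 : a = (sd Q f k).swap := he
    rw [h2]
    change (Prod.map ν ν (sd Q f k)).swap = (sd Q' (φ f) (k + 0)).swap
    rw [h1]
  · intro h f' hf' k he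
    obtain ⟨f, hf, rfl⟩ := Finset.mem_image.mp (show f' ∈ F.image φ by exact_mod_cast hf')
    have h1 := H'.sd_eq hf k
    rw [add_zero] at h1
    have h2 : Prod.map ν ν a = (sd Q' (φ f) k).swap := he
    rw [h1] at h2
    have h3 : Prod.map ν ν a = Prod.map ν ν (sd Q f k).swap := h2
    have h4 := H'.inj_dE ha (swap_mem_dE.mpr (sd_mem hf k)) h3
    exact h f (by exact_mod_cast hf) k h4

theorem ter_map (H : QChart Q Q' F ν φ 0) (ha : a ∈ dE Q F) :
    Ter Q' ((F.image φ : Finset Φ') : Set Φ') (Prod.map ν ν a) ↔ Ter Q (F : Set Φ) a := by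
  rw [← ini_swap, ← ini_swap]
  exact ini_map H (swap_mem_dE.mpr ha)

theorem dE_map (H : QChart Q Q' F ν φ 0) : dE Q' (F.image φ) = (dE Q F).image (Prod.map ν ν) :=
  (toMap H (fun _ => false)).dE_map

theorem bS_map (H : QChart Q Q' F ν φ 0) : bS Q' (F.image φ) = (bS Q F).image (Prod.map ν ν) := by
  ext x
  rw [mem_bS, dE_map H, Finset.mem_image, Finset.mem_image]
  constructor
  · rintro ⟨⟨a, ha, rfl⟩, h2⟩
    exact ⟨a, mem_bS.mpr ⟨ha, (ini_map H ha).mp h2⟩, rfl⟩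
  · rintro ⟨a, ha, rfl⟩
    obtain ⟨h1, h2⟩ := mem_bS.mp ha
    exact ⟨⟨a, h1, rfl⟩, (ini_map H h1).mpr h2⟩

theorem side_inj (H : QChart Q Q' F ν φ 0) (ha : a ∈ dE Q F) (hb : b ∈ dE Q F)
    (h : Prod.map ν ν a = Prod.map ν ν b) : a = b :=
  (toMap H (fun _ => false)).inj_dE ha hb h

/-- **Mates.** -/
theorem mate_map (H : QChart Q Q' F ν φ 0) (ha : a ∈ bS Q F) :
    mate Q' (F.image φ) ω (Prod.map ν ν a) = Prod.map ν ν (mate Q F (fun f => ω (φ f)) a) := by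
  have H' := toMap H ω
  obtain ⟨h1, h2⟩ := mem_bS.mp ha
  have h3 := srel_lst (ω := fun f => ω (φ f)) h2
  have h4 : lst Q F (fun f => ω (φ f)) a ∈ dE Q F := srel_dE h3 h1
  have h5 : Ter Q' ((F.image φ : Finset Φ') : Set Φ') (Prod.map ν ν (lst Q F (fun f => ω (φ f)) a)) :=
    (ter_map H h4).mpr (lst_spec h2).2
  exact mate_unique ((ini_map H h1).mpr h2) h5 (H'.srel h3)

/-- **Turnings.** -/
theorem turn_map (H : QChart Q Q' F ν φ 0) (ha : a ∈ dE Q F) :
    turn Q' (F.image φ) ω (Prod.map ν ν a) = turn Q F (fun f => ω (φ f)) a := by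
  have H' := toMap H ω
  unfold turn tX
  rw [H'.dst_map ha, Finset.sum_image]
  · exact Finset.sum_congr rfl fun b hb => H'.qt_map (mem_dst.mp hb).1
  · intro x hx y hy hxy
    exact H'.inj_dE (mem_dst.mp hx).1 (mem_dst.mp hy).1 hxy

theorem mates_map (H : QChart Q Q' F ν φ 0) (hZ : Z ⊆ bS Q F) :
    (∀ a ∈ Z.image (Prod.map ν ν), mate Q' (F.image φ) ω a ∈ Z.image (Prod.map ν ν)) ↔
      ∀ a ∈ Z, mate Q F (fun f => ω (φ f)) a ∈ Z := by
  constructor
  · intro h a ha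
    have h1 := h _ (Finset.mem_image_of_mem _ ha)
    rw [mate_map H (hZ ha), Finset.mem_image] at h1
    obtain ⟨b, hb, h2⟩ := h1
    have h3 := side_inj H (mem_bS.mp (hZ hb)).1 (mem_bS.mp (mate_mem (hZ ha))).1 h2
    exact h3 ▸ hb
  · intro h a ha
    obtain ⟨b, hb, rfl⟩ := Finset.mem_image.mp ha
    rw [mate_map H (hZ hb)]
    exact Finset.mem_image_of_mem _ (h b hb)

theorem arcsZ_map (H : QChart Q Q' F ν φ 0) (hZ : Z ⊆ bS Q F) :
    arcsZ Q' (F.image φ) (Z.image (Prod.map ν ν)) ω =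
      (arcsZ Q F Z (fun f => ω (φ f))).image (Sym2.map (Prod.map ν ν)) := by
  unfold arcsZ
  rw [Finset.image_image, Finset.image_image]
  refine Finset.image_congr fun a ha => ?_
  have ha' : a ∈ Z := by exact_mod_cast ha
  simp only [Function.comp]
  rw [mate_map H (hZ ha'), Sym2.map_mk]

/-- **The normalised weight.** -/
theorem WZ_map (H : QChart Q Q' F ν φ 0) (hZ : Z ⊆ bS Q F) {ψ : V × V → ℝ} {ψ' : V' × V' → ℝ}
    (hψ : ∀ a ∈ Z, ψ' (Prod.map ν ν a) = ψ a) :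
    WZ Q' (F.image φ) ψ' (Z.image (Prod.map ν ν)) ω = WZ Q F ψ Z (fun f => ω (φ f)) := by
  by_cases hm : ∀ a ∈ Z, mate Q F (fun f => ω (φ f)) a ∈ Z
  · have hm' := (mates_map (ω := ω) H hZ).mpr hm
    unfold WZ
    rw [if_pos hm', if_pos hm, arcsZ_map H hZ, Finset.prod_image]
    · refine Finset.prod_congr rfl fun p hp => ?_
      obtain ⟨a, ha, rfl⟩ := mem_arcsZ.mp hp
      have h1 : Prod.map ν ν a ∈ bS Q' (F.image φ) := by
        rw [bS_map H]
        exact Finset.mem_image_of_mem _ (hZ ha)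
      rw [Sym2.map_mk, ← mate_map H (hZ ha), wA_eq _ h1, wA_eq _ (hZ ha)]
      unfold wt
      rw [mate_map H (hZ ha), turn_map H (mem_bS.mp (hZ ha)).1, hψ a ha, hψ _ (hm a ha)]
    · intro p hp q hq hpq
      obtain ⟨a, ha, rfl⟩ := mem_arcsZ.mp (Finset.mem_coe.mp hp)
      obtain ⟨b, hb, rfl⟩ := mem_arcsZ.mp (Finset.mem_coe.mp hq)
      rw [Sym2.map_mk, Sym2.map_mk, Sym2.eq_iff] at hpq
      have ha1 := (mem_bS.mp (hZ ha)).1
      have hb1 := (mem_bS.mp (hZ hb)).1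
      have ha2 := (mem_bS.mp (mate_mem (ω := fun f => ω (φ f)) (hZ ha))).1
      have hb2 := (mem_bS.mp (mate_mem (ω := fun f => ω (φ f)) (hZ hb))).1
      rcases hpq with ⟨h1, h2⟩ | ⟨h1, h2⟩
      · rw [side_inj H ha1 hb1 h1]
      · have e1 := side_inj H ha1 hb2 h1
        have e2 := side_inj H ha2 hb1 h2
        rw [Sym2.eq_iff]
        exact Or.inr ⟨e1, e2⟩
  · have hm' := fun h => hm ((mates_map (ω := ω) H hZ).mp h)
    rw [WZ_not _ hm', WZ_not _ hm]

/-- **Averages.** -/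
theorem av_map (H : QChart Q Q' F ν φ 0) {g' : (Φ' → Bool) → ℝ} {g : (Φ → Bool) → ℝ}
    (h : ∀ ω : Φ' → Bool, g' ω = g (fun f => ω (φ f))) (hd : Dep (F : Set Φ) g) :
    av (F.image φ) g' = av F g := by
  have h1 : g' = fun ω => g (fun f => ω (φ f)) := funext h
  rw [h1]
  exact av_image (fun f hf g hg e => face_inj H (by exact_mod_cast hf) (by exact_mod_cast hg) e) hd

theorem av_WZ (H : QChart Q Q' F ν φ 0) (hZ : Z ⊆ bS Q F) {ψ : V × V → ℝ} {ψ' : V' × V' → ℝ}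
    (hψ : ∀ a ∈ Z, ψ' (Prod.map ν ν a) = ψ a) :
    av (F.image φ) (WZ Q' (F.image φ) ψ' (Z.image (Prod.map ν ν))) = av F (WZ Q F ψ Z) :=
  av_map H (fun _ => WZ_map H hZ hψ) (dep_WZ hZ ψ)

theorem av_abs_WZ (H : QChart Q Q' F ν φ 0) (hZ : Z ⊆ bS Q F) {ψ : V × V → ℝ} {ψ' : V' × V' → ℝ}
    (hψ : ∀ a ∈ Z, ψ' (Prod.map ν ν a) = ψ a) :
    av (F.image φ) (fun ω => |WZ Q' (F.image φ) ψ' (Z.image (Prod.map ν ν)) ω|) =
      av F (fun ω => |WZ Q F ψ Z ω|) :=
  av_map H (g := fun ω => |WZ Q F ψ Z ω|) (fun ω => by rw [WZ_map H hZ hψ])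
    (fun ω ω' h => congrArg abs (dep_WZ hZ ψ ω ω' h))

end

end Pool.Agent.SixB.WM
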