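import Pool.Agent.Lib.SixB.S3ZplE

/-!
# 6BD step 3: bounds of the plane functional from bounds in arbitrarily large windows

Any surface (`GlueZ`, `IslM`): `norm_Zp_le_M`: an upper bound of `av |WZ|` in arbitrarily large windows; `le_Zp_M`: a
lower bound of `av WZ` in arbitrarily large windows.
-/

set_option autoImplicit false
set_option linter.unusedSectionVars false

namespace Pool.Agent.SixB.Rel

open Pool.Agent.Perc Pool.Agent.Perc.Q Relation Filter Topology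
open Pool.Agent.SixB hiding Zs_split dst_congr qt_congr dE_mono

noncomputable section

variable {V Φ : Type} [DecidableEq V] [DecidableEq Φ]
variable {L : ℤ} {Q : QC V Φ} {A : Finset Φ} {φ : ℤ × ℤ → V} {ps : ℤ × ℤ → Φ}
  {Z : Finset (V × V)} {h : V × V → ℂ} {ψ : V × V → ℝ}

namespace GlueZ

/-- upper bound -/
theorem norm_Zp_le_M (hQ : NoLoop Q) (H : GlueZ L Q A φ ps Z) (hI : IslM L Q A ps Z) (hL : 0 < L)
    (hh : PhZ h ψ Z) {B : ℝ}
    (hB : ∃ᶠ M : ℤ in atTop, av (FM L A ps M) (fun ω => |WZ Q (FM L A ps M) ψ Z ω|) ≤ B) :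
    ‖Zp L Q A ps h Z‖ ≤ Real.sqrt 3 ^ (Z.card / 2) * B := by
  have h3 : (0 : ℝ) ≤ Real.sqrt 3 := Real.sqrt_nonneg 3
  rw [H.Zp_eq hQ (hI.isl hL) hL hh, Complex.norm_real]
  refine le_of_tendsto_of_frequently (H.tendsto_WZ_M hQ hI hL hh).norm ?_
  refine hB.mono fun M hM => ?_
  rw [norm_mul, norm_pow, Real.norm_of_nonneg h3]
  refine mul_le_mul_of_nonneg_left ?_ (pow_nonneg h3 _)
  exact (abs_av_le fun _ _ => le_rfl).trans hM

/-- lower bound -/
theorem le_Zp_M (hQ : NoLoop Q) (H : GlueZ L Q A φ ps Z) (hI : IslM L Q A ps Z) (hL : 0 < L)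
    (hh : PhZ h ψ Z) {B : ℝ}
    (hB : ∃ᶠ M : ℤ in atTop, B ≤ av (FM L A ps M) (WZ Q (FM L A ps M) ψ Z)) :
    Real.sqrt 3 ^ (Z.card / 2) * B ≤ (Zp L Q A ps h Z).re := by
  have h3 : (0 : ℝ) ≤ Real.sqrt 3 := Real.sqrt_nonneg 3
  refine ge_of_tendsto_of_frequently (H.tendsto_WZ_M hQ hI hL hh) ?_
  exact hB.mono fun M hM => mul_le_mul_of_nonneg_left hM (pow_nonneg h3 _)

end GlueZ

end

end Pool.Agent.SixB.Rel
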