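import Pool.Agent.Lib.SixB.S3DblAtl
import Pool.Agent.Lib.SixB.S3DblS
import Pool.Agent.Lib.SixB.S3ZplM
import Pool.Agent.Lib.SixB.S3WZMap

/-!
# 6BD step 3, row R21, last step: the plane functional of a doubled half surface

* `hW up g₀ M`: the faces of the half window of radius `M` centred on the cut row; `halfF`: the half surface in this
  window; `FM_dbl`: the windows of the double are the two copies of `halfF`.
* `nuD m`: the vertex map of `dblS_chart`; `nuD_dblA`.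
* `av_abs_WZ_dbl`: the mean of `|WZ|` of a window of the infinite double is that of the finite double.
* `norm_Zp_dbl_le`: a bound of the mean of `|WZ|` of the finite doubles for arbitrarily large windows bounds the
  plane functional of the double.
* `UpAtl`: UPPER for all atlases; `av_dbl_le`: UPPER for the double of a half surface with an atlas and a mirrored atlas;
  `norm_Zp_dbl_atlas`: the plane functional of the double is at most
  `√3 ^ |Z| * K₀ * prS A * prS B` (`A`, `B` atlases of the half and of its mirror image in arbitrarily large windows).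
-/

set_option autoImplicit false
set_option linter.unusedSectionVars false

namespace Pool.Agent.SixB.Dbl

open Pool.Agent.Perc Pool.Agent.Perc.Q Relation Filter Topology
open Pool.Agent.SixB.Rel

noncomputable section

variable {V Φ : Type} [DecidableEq V] [DecidableEq Φ] {ι : Type}
variable {up : Bool} {g₀ : ℤ} {Q : QC V Φ} {A : Finset Φ} {φ : ℤ × ℤ → V}
  {ps : ℤ × ℤ → Φ} {S : Set Φ} {m : ι → V × V} {P : Finset (V × V)} {L L' M : ℤ}

/-! ## The windows of the double -/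

/-- the faces of the half window -/
def hW (up : Bool) (g₀ M : ℤ) : Finset (ℤ × ℤ) := (RFb (0, 0) M).image (ptf up g₀)

theorem mem_hW {p : ℤ × ℤ} : p ∈ hW up g₀ M ↔
    (-M ≤ p.1 ∧ p.1 < M) ∧ inH up g₀ p ∧ (g₀ - M ≤ p.2 ∧ p.2 < g₀ + M) := by
  unfold hW
  rw [Finset.mem_image]
  constructor
  · rintro ⟨g, hg, rfl⟩
    rw [mem_RF0] at hg
    refine ⟨⟨by unfold ptf; omega, by unfold ptf; omega⟩, inH_ptf up g₀ g, ?_⟩
    unfold ptf htf
    simp only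
    split_ifs <;> omega
  · rintro ⟨⟨h1, h2⟩, h3, h4, h5⟩
    refine ⟨qtf g₀ (!up) p, ?_, ptf_qtf h3 _⟩
    rw [mem_RF0]
    unfold qtf
    simp only
    split_ifs <;> omega

theorem qtf_mem_hW {p : ℤ × ℤ} (h : p ∈ hW up g₀ M) (b : Bool) : qtf g₀ b p ∈ RFb (0, 0) M := by
  obtain ⟨⟨h1, h2⟩, h3, h4, h5⟩ := mem_hW.mp h
  rw [mem_RF0]
  unfold qtf
  simp only
  split_ifs <;> omega

/-- the half surface in the half window -/
def halfF (up : Bool) (g₀ L : ℤ) (A : Finset Φ) (S : Set Φ) (ps : ℤ × ℤ → Φ) (M : ℤ) : Finset Φ :=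
  corS A S ∪ ((hW up g₀ M).filter fun p => p ∉ RFb (0, 0) L).image ps

theorem mem_halfF {f : Φ} : f ∈ halfF up g₀ L A S ps M ↔
    (f ∈ A ∧ f ∈ S) ∨ ∃ p, p ∈ hW up g₀ M ∧ p ∉ RFb (0, 0) L ∧ ps p = f := by
  unfold halfF
  rw [Finset.mem_union, mem_corS, Finset.mem_image]
  constructor
  · rintro (h | ⟨p, hp, rfl⟩)
    · exact Or.inl h
    · obtain ⟨h1, h2⟩ := Finset.mem_filter.mp hp
      exact Or.inr ⟨p, h1, h2, rfl⟩
  · rintro (h | ⟨p, h1, h2, rfl⟩)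
    · exact Or.inl h
    · exact Or.inr ⟨p, Finset.mem_filter.mpr ⟨h1, h2⟩, rfl⟩

/-- the faces of the half surface are in the half -/
theorem halfF_sub (H : HalfS up g₀ ZQ (outZ L) Q A φ ps S m) {f : Φ}
    (hf : f ∈ halfF up g₀ L A S ps M) : f ∈ S := by
  rcases mem_halfF.mp hf with h | ⟨p, h1, h2, rfl⟩
  · exact h.2
  · exact H.out p h2 (mem_hW.mp h1).2.1

/-- **The windows of the double.** -/
theorem FM_dbl (hL : L + |g₀| ≤ L') (hM : L' ≤ M) :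
    FM L' (cor2 up g₀ A S ps (wZ up g₀ L L')) (dblψ up g₀ ps) M =
      cpy (halfF up g₀ L A S ps M) false ∪ cpy (halfF up g₀ L A S ps M) true := by
  ext ⟨f, b⟩
  unfold FM
  rw [Finset.mem_union, mem_cor2, Finset.mem_union, mem_cpy, mem_cpy, Finset.mem_image]
  have e : ((f ∈ halfF up g₀ L A S ps M ∧ b = false) ∨ (f ∈ halfF up g₀ L A S ps M ∧ b = true)) ↔
      f ∈ halfF up g₀ L A S ps M := by cases b <;> simp
  rw [e, mem_halfF]
  constructor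
  · rintro ((h | ⟨g, hg, h⟩) | ⟨g, hg, h⟩)
    · exact Or.inl h
    · obtain ⟨h1, h2⟩ := mem_wZ.mp hg
      obtain ⟨h3, -⟩ := Prod.mk.inj h
      exact Or.inr ⟨ptf up g₀ g, Finset.mem_image_of_mem _ (RF0_mono hM h1), h2, h3⟩
    · obtain ⟨h1, h2⟩ := Finset.mem_sdiff.mp hg
      obtain ⟨h3, -⟩ := Prod.mk.inj h
      exact Or.inr ⟨ptf up g₀ g, Finset.mem_image_of_mem _ h1, ptf_out hL h2, h3⟩
  · rintro (h | ⟨p, h1, h2, rfl⟩)
    · exact Or.inl (Or.inl h)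
    · have h3 := (mem_hW.mp h1).2.1
      have e1 : ptf up g₀ (qtf g₀ b p) = p := ptf_qtf h3 b
      have e2 : dblψ up g₀ ps (qtf g₀ b p) = (ps p, b) := by
        unfold dblψ
        rw [e1, cc_qtf h3 b]
      by_cases h4 : qtf g₀ b p ∈ RFb (0, 0) L'
      · exact Or.inl (Or.inr ⟨qtf g₀ b p, mem_wZ.mpr ⟨h4, by rw [e1]; exact h2⟩, e2⟩)
      · exact Or.inr ⟨qtf g₀ b p, Finset.mem_sdiff.mpr ⟨qtf_mem_hW h1 b, h4⟩, e2⟩

/-! ## The finite double -/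

/-- the vertex map of `dblS_chart` -/
def nuD (m : ι → V × V) (v : V × Bool × Bool) : V × Bool × Bool := dblV m v.2.1 v.1

theorem nuD_dblV {ι' : Type} {m' : ι' → V × V} {v : V} (h : onCut m' v ↔ onCut m v) (b : Bool) :
    nuD m (dblV m' b v) = dblV m b v := by
  classical
  unfold nuD
  by_cases h1 : onCut m v
  · have h' := h.mpr h1
    rw [dblV_onCut h1 b]
    unfold dblV
    rw [decide_eq_true h1, decide_eq_true h']
    simp
  · have h' : ¬ onCut m' v := fun h2 => h1 (h.mp h2)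
    unfold dblV
    rw [decide_eq_false h1, decide_eq_false h']
    simp

theorem nuD_dblA {ι' : Type} {m' : ι' → V × V} {a : V × V} (h1 : onCut m' a.1 ↔ onCut m a.1)
    (h2 : onCut m' a.2 ↔ onCut m a.2) (b : Bool) :
    Prod.map (nuD m) (nuD m) (dblA m' b a) = dblA m b a := by
  exact Prod.ext (nuD_dblV h1 b) (nuD_dblV h2 b)

theorem dE_onCut {ι' : Type} {m' : ι' → V × V} {F : Finset Φ}
    (hc : ∀ f ∈ F, ∀ k, onCut m' (Q.c f k) ↔ onCut m (Q.c f k)) {a : V × V} (ha : a ∈ dE Q F) :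
    (onCut m' a.1 ↔ onCut m a.1) ∧ (onCut m' a.2 ↔ onCut m a.2) := by
  obtain ⟨⟨f, hf, k, h1⟩, g, hg, l, h2⟩ := QMap.corner_of ha
  rw [h1, h2]
  exact ⟨hc f hf k, hc g hg l⟩

/-- **The mean of `|WZ|` of a finite part of the double.** -/
theorem av_abs_WZ_dbl {ι' : Type} {m' : ι' → V × V} {hm : OneSidedS Q S m} {F : Finset Φ}
    {hm' : OneSided Q F m'} (hF : ∀ f ∈ F, f ∈ S)
    (hc : ∀ f ∈ F, ∀ k, onCut m' (Q.c f k) ↔ onCut m (Q.c f k))
    {Z₂' : Finset ((V × Bool × Bool) × (V × Bool × Bool))}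
    (hZ : Z₂' ⊆ bS (dbl Q F m' hm') (cpy F false ∪ cpy F true))
    {ψ₂ ψ₂' : (V × Bool × Bool) × (V × Bool × Bool) → ℝ}
    (hψ : ∀ a ∈ Z₂', ψ₂ (Prod.map (nuD m) (nuD m) a) = ψ₂' a) :
    av (cpy F false ∪ cpy F true) (fun ω => |WZ (dblS Q S m hm) (cpy F false ∪ cpy F true) ψ₂
      (Z₂'.image (Prod.map (nuD m) (nuD m))) ω|) =
    av (cpy F false ∪ cpy F true)
      (fun ω => |WZ (dbl Q F m' hm') (cpy F false ∪ cpy F true) ψ₂' Z₂' ω|) := by
  have H : QChart (dbl Q F m' hm') (dblS Q S m hm) (cpy F false ∪ cpy F true) (nuD m) id 0 :=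
    dblS_chart hF hc
  have h1 := WM.av_abs_WZ H hZ hψ
  rw [Finset.image_id] at h1
  exact h1

/-- **The plane functional of the double.** `Z₂'`, `ψ₂'`: the island sides and the phases of the finite doubles. -/
theorem norm_Zp_dbl_le (hQ : NoLoop Q)
    {Z₂ : Finset ((V × Bool × Bool) × (V × Bool × Bool))}
    {ψ₂ : (V × Bool × Bool) × (V × Bool × Bool) → ℝ}
    {h : (V × Bool × Bool) × (V × Bool × Bool) → ℂ}
    (H : HalfS up g₀ ZQ (outZ L) Q A φ ps S m) (hL : L + |g₀| ≤ L') (hL' : 0 < L')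
    (HZ : GlueZ L' (dblS Q S m H.os) (cor2 up g₀ A S ps (wZ up g₀ L L')) (dblφ up g₀ φ m)
      (dblψ up g₀ ps) Z₂)
    (hI : IslM L' (dblS Q S m H.os) (cor2 up g₀ A S ps (wZ up g₀ L L')) (dblψ up g₀ ps) Z₂)
    (hh : PhZ h ψ₂ Z₂) {B : ℝ}
    (hB : ∃ᶠ M : ℤ in atTop, ∃ (ι' : Type) (m' : ι' → V × V)
      (hm' : OneSided Q (halfF up g₀ L A S ps M) m')
      (Z₂' : Finset ((V × Bool × Bool) × (V × Bool × Bool)))
      (ψ₂' : (V × Bool × Bool) × (V × Bool × Bool) → ℝ),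
      (∀ f ∈ halfF up g₀ L A S ps M, ∀ k, onCut m' (Q.c f k) ↔ onCut m (Q.c f k)) ∧
      Z₂' ⊆ bS (dbl Q _ m' hm') (cpy (halfF up g₀ L A S ps M) false ∪
        cpy (halfF up g₀ L A S ps M) true) ∧
      Z₂'.image (Prod.map (nuD m) (nuD m)) = Z₂ ∧
      (∀ a ∈ Z₂', ψ₂ (Prod.map (nuD m) (nuD m) a) = ψ₂' a) ∧
      av (cpy (halfF up g₀ L A S ps M) false ∪ cpy (halfF up g₀ L A S ps M) true)
        (fun ω => |WZ (dbl Q _ m' hm') (cpy (halfF up g₀ L A S ps M) false ∪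
          cpy (halfF up g₀ L A S ps M) true) ψ₂' Z₂' ω|) ≤ B) :
    ‖Zp L' (dblS Q S m H.os) (cor2 up g₀ A S ps (wZ up g₀ L L')) (dblψ up g₀ ps) h Z₂‖ ≤
      Real.sqrt 3 ^ (Z₂.card / 2) * B := by
  refine HZ.norm_Zp_le_M (dblS_noLoop hQ) hI hL' hh ?_
  refine (hB.and_eventually (eventually_ge_atTop L')).mono ?_
  rintro M ⟨⟨ι', m', hm', Z₂', ψ₂', h1, h2, h3, h4, h5⟩, hM⟩
  rw [FM_dbl hL hM, ← h3, av_abs_WZ_dbl (fun f hf => halfF_sub H hf) h1 h2 h4]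
  exact h5

/-! ## The atlas of the double -/

theorem dblV_eq {ι' : Type} {m' : ι' → V × V} {v : V} (h : onCut m' v ↔ onCut m v) (b : Bool) :
    dblV m' b v = dblV m b v := by
  classical
  unfold dblV
  by_cases h1 : onCut m v
  · rw [decide_eq_true h1, decide_eq_true (h.mpr h1)]
  · rw [decide_eq_false h1, decide_eq_false fun h2 => h1 (h.mp h2)]

theorem dblA_eq {ι' : Type} {m' : ι' → V × V} {a : V × V} (h1 : onCut m' a.1 ↔ onCut m a.1)
    (h2 : onCut m' a.2 ↔ onCut m a.2) (b : Bool) : dblA m' b a = dblA m b a :=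
  Prod.ext (dblV_eq h1 b) (dblV_eq h2 b)

theorem image_dblA_eq {ι' : Type} {m' : ι' → V × V} {F : Finset Φ}
    (hc : ∀ f ∈ F, ∀ k, onCut m' (Q.c f k) ↔ onCut m (Q.c f k)) {Z : Finset (V × V)}
    (hZ : Z ⊆ dE Q F) (b : Bool) : Z.image (dblA m' b) = Z.image (dblA m b) := by
  refine Finset.image_congr fun a ha => ?_
  obtain ⟨h1, h2⟩ := dE_onCut hc (hZ (Finset.mem_coe.mp ha))
  exact dblA_eq h1 h2 _

theorem dZ_eq {ι' : Type} {m' : ι' → V × V} {F : Finset Φ}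
    (hc : ∀ f ∈ F, ∀ k, onCut m' (Q.c f k) ↔ onCut m (Q.c f k)) {Z Z' : Finset (V × V)}
    (hZ : Z ⊆ dE Q F) (hZ' : Z' ⊆ dE Q F) : dZ m' Z Z' = dZ m Z Z' := by
  unfold dZ
  rw [image_dblA_eq hc hZ, image_dblA_eq hc hZ']

theorem nuD_dZ {ι' : Type} {m' : ι' → V × V} {F : Finset Φ}
    (hc : ∀ f ∈ F, ∀ k, onCut m' (Q.c f k) ↔ onCut m (Q.c f k)) {Z Z' : Finset (V × V)}
    (hZ : Z ⊆ dE Q F) (hZ' : Z' ⊆ dE Q F) {x : (V × Bool × Bool) × (V × Bool × Bool)}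
    (hx : x ∈ dZ m' Z Z') : Prod.map (nuD m) (nuD m) x = x := by
  unfold dZ at hx
  rw [Finset.mem_union, Finset.mem_image, Finset.mem_image] at hx
  rcases hx with ⟨a, ha, rfl⟩ | ⟨a, ha, rfl⟩
  · obtain ⟨h1, h2⟩ := dE_onCut hc (hZ ha)
    rw [nuD_dblA h1 h2, dblA_eq h1 h2]
  · obtain ⟨h1, h2⟩ := dE_onCut hc (hZ' ha)
    rw [nuD_dblA h1 h2, dblA_eq h1 h2]

/-- **UPPER for all atlases.** -/
def UpAtl : Prop := ∀ (nS nN : ℕ) (t₀ : ℝ), 0 < t₀ → t₀ ≤ 1 → ∃ K₀ : ℝ, 0 < K₀ ∧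
  ∀ {V Φ : Type} [DecidableEq V] [DecidableEq Φ] {Q : QC V Φ} {F : Finset Φ} {ψ : V × V → ℝ}
    {Z : Finset (V × V)} {r : ℕ} (A : Atlas Q F ψ Z r nS nN t₀), 0 < r →
    av F (fun ω => |WZ Q F ψ Z ω|) ≤ K₀ * prS A

/-- **UPPER for the double.** -/
theorem av_dbl_le (hU : UpAtl) (nS nN nS' nN' : ℕ) (t₀ : ℝ) (h0 : 0 < t₀) (h1 : t₀ ≤ 1) :
    ∃ K₀ : ℝ, 0 < K₀ ∧ ∀ {V Φ ι : Type} [DecidableEq V] [DecidableEq Φ] [Fintype ι] {Q : QC V Φ}
      {F : Finset Φ} {l : ι → V × V} (hl : OneSided Q F l) {ψ : V × V → ℝ} {Z Z' : Finset (V × V)}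
      {r : ℕ} (A : Atlas Q F ψ Z r nS nN t₀) (B : Atlas (mir Q) F (mps ψ) Z' r nS' nN' t₀),
      OffCut l A → OffCut l B → 0 < r →
      av (dblFs F) (fun ω => |WZ (dbl Q F l hl) (dblFs F) (dps ψ (mps ψ)) (dZ l Z Z') ω|) ≤
        K₀ * (prS A * prS B) := by
  obtain ⟨K₀, hK, h⟩ := hU (nS + nS') (nN + nN') t₀ h0 h1
  refine ⟨K₀, hK, ?_⟩
  intro V Φ ι _ _ _ Q F l hl ψ Z Z' r A B hA hB hr
  have h2 := h (dblAtlas hl A hA B hB) hr
  rw [dblAtlas_prS] at h2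
  exact h2

/-- **The plane functional of the double of a half surface.** `Z`: the island sides of the half. -/
theorem norm_Zp_dbl_atlas (hU : UpAtl) (nS nN nS' nN' : ℕ) (t₀ : ℝ) (h0 : 0 < t₀) (h1 : t₀ ≤ 1) :
    ∃ K₀ : ℝ, 0 < K₀ ∧ ∀ {V Φ ι : Type} [DecidableEq V] [DecidableEq Φ] {Q : QC V Φ}
      (_ : NoLoop Q) {up : Bool} {g₀ L L' : ℤ} {A : Finset Φ} {φ : ℤ × ℤ → V} {ps : ℤ × ℤ → Φ}
      {S : Set Φ} {m : ι → V × V} {Z : Finset (V × V)} {ψ : V × V → ℝ}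
      {h : (V × Bool × Bool) × (V × Bool × Bool) → ℂ}
      (H : HalfS up g₀ ZQ (outZ L) Q A φ ps S m) (_ : L + |g₀| ≤ L') (_ : 0 < L')
      (_ : GlueZ L' (dblS Q S m H.os) (cor2 up g₀ A S ps (wZ up g₀ L L')) (dblφ up g₀ φ m)
        (dblψ up g₀ ps) (dZ m Z (Z.image Prod.swap)))
      (_ : IslM L' (dblS Q S m H.os) (cor2 up g₀ A S ps (wZ up g₀ L L')) (dblψ up g₀ ps)
        (dZ m Z (Z.image Prod.swap)))
      (_ : PhZ h (dps ψ (mps ψ)) (dZ m Z (Z.image Prod.swap))) {r : ℕ} {FA FB : ℝ}, 0 < r →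
      (∃ᶠ M : ℤ in atTop, ∃ (ι' : Type) (_ : Fintype ι') (l : ι' → V × V)
        (_ : OneSided Q (halfF up g₀ L A S ps M) l)
        (AA : Atlas Q (halfF up g₀ L A S ps M) ψ Z r nS nN t₀)
        (BB : Atlas (mir Q) (halfF up g₀ L A S ps M) (mps ψ) (Z.image Prod.swap) r nS' nN' t₀),
        (∀ f ∈ halfF up g₀ L A S ps M, ∀ k, onCut l (Q.c f k) ↔ onCut m (Q.c f k)) ∧
        OffCut l AA ∧ OffCut l BB ∧ prS AA = FA ∧ prS BB = FB) →
      ‖Zp L' (dblS Q S m H.os) (cor2 up g₀ A S ps (wZ up g₀ L L')) (dblψ up g₀ ps) h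
        (dZ m Z (Z.image Prod.swap))‖ ≤ Real.sqrt 3 ^ Z.card * (K₀ * (FA * FB)) := by
  obtain ⟨K₀, hK, hd⟩ := av_dbl_le hU nS nN nS' nN' t₀ h0 h1
  refine ⟨K₀, hK, ?_⟩
  intro V Φ ι _ _ Q hQ up g₀ L L' A φ ps S m Z ψ h H hL hL' HZ hI hh r FA FB hr hB
  -- the number of the island sides of the double
  have hcard : (dZ m Z (Z.image Prod.swap)).card / 2 = Z.card := by
    obtain ⟨M, ι', hι, l, hl, AA, BB, hc, hA, -, -, -⟩ := hB.exists
    have hZ : Z ⊆ dE Q (halfF up g₀ L A S ps M) := fun a ha => (mem_bS.mp (AA.Z_sub ha)).1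
    have hZ' : Z.image Prod.swap ⊆ dE Q (halfF up g₀ L A S ps M) := by
      intro a ha
      obtain ⟨b, hb, rfl⟩ := Finset.mem_image.mp ha
      exact swap_mem_dE.mpr (hZ hb)
    rw [← dZ_eq hc hZ hZ', card_dZ hZ hA.z hl,
      Finset.card_image_of_injective _ Prod.swap_injective]
    omega
  have key := norm_Zp_dbl_le hQ H hL hL' HZ hI hh (B := K₀ * (FA * FB)) (hB.mono ?_)
  · rw [hcard] at key
    exact key
  · rintro M ⟨ι', hι, l, hl, AA, BB, hc, hA, hB', rfl, rfl⟩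
    have hZ : Z ⊆ dE Q (halfF up g₀ L A S ps M) := fun a ha => (mem_bS.mp (AA.Z_sub ha)).1
    have hZ' : Z.image Prod.swap ⊆ dE Q (halfF up g₀ L A S ps M) := by
      intro a ha
      obtain ⟨b, hb, rfl⟩ := Finset.mem_image.mp ha
      exact swap_mem_dE.mpr (hZ hb)
    have e := dZ_eq hc hZ hZ'
    refine ⟨ι', l, hl, dZ l Z (Z.image Prod.swap), dps ψ (mps ψ), hc, ?_, ?_, ?_, ?_⟩
    · exact (dblAtlas hl AA hA BB hB').Z_sub
    · rw [← e]
      conv_rhs => rw [← Finset.image_id (s := dZ l Z (Z.image Prod.swap))]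
      refine Finset.image_congr fun x hx => ?_
      exact nuD_dZ hc hZ hZ' (by exact_mod_cast hx)
    · intro a ha
      rw [nuD_dZ hc hZ hZ' ha]
    · exact hd hl AA BB hA hB' hr

end

end Pool.Agent.SixB.Dbl
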