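import Pool.Agent.Lib.SixB.S3Cut

/-!
# 6BD: the doubled complex and the cut-and-mirror inequality (every complex of quadrangles)

`F` a finite set of faces of `Q`, `m` a family of sides directed into `F` (the cut line), `onCut m` its vertices.
* `OneSided Q F m`: `m` is a family, every `m i` is directed into a face of `F`, and every side of a face of `F`
  with both ends on the cut line is some `m i` (directed into the face).
* `dbl Q F m`: complex with the faces `(f, false)` (as in `Q`) and `(f, true)` (mirror image, corner `k` of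
  `(f, true)` is corner `3 - k` of `f`), the vertices of the cut line are shared.
* `dblV m b v`: the vertex `v` in the copy `b`; `dblA m b a`: the arrow `a` in the copy `b` (reflection and
  reversal of the arrow: simply the vertex map).
* `dblH m h`: weight `h` on the first copy, `conj h` on the second one, `h * conj h` on the cut line.
* `sum_normSq`: `∑ s, Z6 Q F (h * pin m s) * conj (..) = Z6 (dbl Q F m) (F ×ˢ univ) (dblH m h)`.
* `cut_mirror`: `‖Z6 Q (F₁ ∪ F₂) h‖ ^ 2 ≤ (Z6 (dbl Q F₁ m) ..).re * (Z6 (dbl Q F₂ m') ..).re`.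
-/

set_option autoImplicit false
set_option linter.unusedSectionVars false

namespace Pool.Agent.SixB

open Pool.Agent.Perc.Q Relation ComplexConjugate

noncomputable section

variable {V Φ : Type} [DecidableEq V] [DecidableEq Φ] {ι : Type} [Fintype ι]

/-! ## Transport of arrow sums -/

/-- **Transport.** -/
theorem Z6_transport {V' Φ' : Type} [DecidableEq V'] [DecidableEq Φ'] {Q : QC V Φ} {Q' : QC V' Φ'}
    {F : Finset Φ} (g : Φ → Φ') (hg : Set.InjOn g (F : Set Φ)) (u : V × V → V' × V')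
    (hu : Set.InjOn u (dE Q F : Set (V × V))) (hs : ∀ a, u a.swap = (u a).swap)
    (hd : dE Q' (F.image g) = (dE Q F).image u) (h : V × V → ℂ) (h' : V' × V' → ℂ)
    (hf : ∀ f ∈ F, ∀ α ∈ Arrs Q F,
      fw (fun k => decide (sd Q' (g f) k ∈ α.image u)) = fw (fun k => decide (sd Q f k ∈ α)))
    (hh : ∀ a ∈ dE Q F, h' (u a) = h a) :
    Z6 Q' (F.image g) h' = Z6 Q F h := by
  have hmem : ∀ α : Finset (V × V), α ⊆ dE Q F → ∀ a ∈ dE Q F, (u a ∈ α.image u ↔ a ∈ α) := by
    intro α hα a ha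
    rw [Finset.mem_image]
    constructor
    · rintro ⟨b, hb, e⟩
      rw [← hu (hα hb) ha e]
      exact hb
    · intro h1
      exact ⟨a, h1, rfl⟩
  symm
  unfold Z6
  refine Finset.sum_bij (fun α _ => α.image u) ?_ ?_ ?_ ?_
  · intro α hα
    obtain ⟨h1, h2⟩ := Finset.mem_filter.mp hα
    have h1 := Finset.mem_powerset.mp h1
    refine Finset.mem_filter.mpr ⟨Finset.mem_powerset.mpr ?_, ?_⟩
    · rw [hd]
      exact Finset.image_subset_image h1
    · intro a' ha'
      rw [hd] at ha'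
      obtain ⟨a, ha, rfl⟩ := Finset.mem_image.mp ha'
      rw [← hs, hmem α h1 a ha, hmem α h1 a.swap (swap_mem_dE.mpr ha)]
      exact h2 a ha
  · intro α hα β hβ e
    have h1 := Finset.mem_powerset.mp (Finset.mem_filter.mp hα).1
    have h2 := Finset.mem_powerset.mp (Finset.mem_filter.mp hβ).1
    ext a
    by_cases ha : a ∈ dE Q F
    · rw [← hmem α h1 a ha, ← hmem β h2 a ha]
      exact ⟨fun h3 => e ▸ h3, fun h3 => e ▸ h3⟩
    · exact ⟨fun h3 => absurd (h1 h3) ha, fun h3 => absurd (h2 h3) ha⟩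
  · intro α' hα'
    obtain ⟨h1, h2⟩ := Finset.mem_filter.mp hα'
    have h1 := Finset.mem_powerset.mp h1
    refine ⟨(dE Q F).filter (fun a => u a ∈ α'), ?_, ?_⟩
    · refine Finset.mem_filter.mpr ⟨Finset.mem_powerset.mpr (Finset.filter_subset _ _), ?_⟩
      intro a ha
      have h3 := h2 (u a) (by rw [hd]; exact Finset.mem_image_of_mem u ha)
      rw [← hs] at h3
      simp only [Finset.mem_filter, ha, true_and, swap_mem_dE.mpr ha]
      exact h3
    · ext a'
      simp only [Finset.mem_image, Finset.mem_filter]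
      constructor
      · rintro ⟨a, ⟨_, h4⟩, rfl⟩
        exact h4
      · intro h3
        have h4 := h1 h3
        rw [hd] at h4
        obtain ⟨a, ha, rfl⟩ := Finset.mem_image.mp h4
        exact ⟨a, ⟨ha, h3⟩, rfl⟩
  · intro α hα
    have h1 := Finset.mem_powerset.mp (Finset.mem_filter.mp hα).1
    rw [Finset.prod_image hg, Finset.prod_image (fun a ha b hb e => hu (h1 ha) (h1 hb) e)]
    congr 1
    · exact Finset.prod_congr rfl fun f hf' => (hf f hf' α hα).symm
    · exact Finset.prod_congr rfl fun a ha => (hh a (h1 ha)).symm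

theorem conj_fw (x : ZMod 4 → Bool) : conj (fw x) = fw x := by
  unfold fw
  split_ifs <;> simp

theorem fw_mirror (x : ZMod 4 → Bool) : fw (fun k => !x (2 - k)) = fw x := by
  have e0 : (2 : ZMod 4) - 0 = 2 := by decide
  have e1 : (2 : ZMod 4) - 1 = 1 := by decide
  have e2 : (2 : ZMod 4) - 2 = 0 := by decide
  have e3 : (2 : ZMod 4) - 3 = 3 := by decide
  unfold fw
  simp only [e0, e1, e2, e3]
  cases x 0 <;> cases x 1 <;> cases x 2 <;> cases x 3 <;> simp

theorem conj_Z6 (Q : QC V Φ) (F : Finset Φ) (h : V × V → ℂ) :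
    conj (Z6 Q F h) = Z6 Q F (fun a => conj (h a)) := by
  unfold Z6
  rw [map_sum]
  refine Finset.sum_congr rfl fun α _ => ?_
  rw [map_mul, map_prod, map_prod]
  simp only [conj_fw]

/-! ## The doubled complex -/

/-- the vertices of the cut line -/
def onCut {ι : Type} (m : ι → V × V) (v : V) : Prop := ∃ i, v = (m i).1 ∨ v = (m i).2

/-- the family `m` of sides of `F` is a cut line, directed into `F` -/
structure OneSided (Q : QC V Φ) (F : Finset Φ) {ι : Type} (m : ι → V × V) : Prop where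
  fam : Fam m
  into : ∀ i, ∃ f ∈ F, ∃ k, sd Q f k = m i
  only : ∀ f ∈ F, ∀ k, onCut m (Q.c f k) → onCut m (Q.c f (k + 1)) → ∃ i, sd Q f k = m i

open Classical in
/-- the vertex `v` in the copy `b` -/
def dblV {ι : Type} (m : ι → V × V) (b : Bool) (v : V) : V × Bool × Bool :=
  (v, b && !decide (onCut m v), false)

/-- the arrow `a` in the copy `b` -/
def dblA {ι : Type} (m : ι → V × V) (b : Bool) (a : V × V) : (V × Bool × Bool) × (V × Bool × Bool) :=
  (dblV m b a.1, dblV m b a.2)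

theorem dblV_inj {ι : Type} {m : ι → V × V} {b : Bool} {v v' : V} (h : dblV m b v = dblV m b v') : v = v' :=
  congrArg Prod.fst h

theorem dblV_cross {ι : Type} {m : ι → V × V} {v v' : V} (h : dblV m false v = dblV m true v') :
    v = v' ∧ onCut m v := by
  have h1 : v = v' := congrArg Prod.fst h
  refine ⟨h1, ?_⟩
  subst h1
  have h2 := congrArg (fun p => p.2.1) h
  simpa [dblV] using h2

theorem dblV_onCut {ι : Type} {m : ι → V × V} {v : V} (h : onCut m v) (b : Bool) : dblV m b v = dblV m false v := by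
  unfold dblV
  simp [h]

theorem dblA_swap {ι : Type} {m : ι → V × V} (b : Bool) (a : V × V) : dblA m b a.swap = (dblA m b a).swap := rfl

theorem dblA_inj {ι : Type} {m : ι → V × V} {b : Bool} {a a' : V × V} (h : dblA m b a = dblA m b a') :
    a = a' :=
  Prod.ext (dblV_inj (congrArg Prod.fst h)) (dblV_inj (congrArg Prod.snd h))

theorem dblA_cut {ι : Type} {m : ι → V × V} (b : Bool) (i : ι) : dblA m b (m i) = dblA m false (m i) := by
  unfold dblA
  rw [dblV_onCut ⟨i, Or.inl rfl⟩ b, dblV_onCut ⟨i, Or.inr rfl⟩ b]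

theorem three_sub (k : ZMod 4) : 3 - (k + 1) = 2 - k := by ring

theorem two_sub_add (k : ZMod 4) : 2 - k + 1 = 3 - k := by ring

/-- **The doubled complex.** -/
def dbl (Q : QC V Φ) (F : Finset Φ) {ι : Type} (m : ι → V × V) (hm : OneSided Q F m) :
    QC (V × Bool × Bool) (Φ × Bool) where
  c := fun f k => if f.1 ∈ F then dblV m f.2 (Q.c f.1 (if f.2 = true then 3 - k else k)) else (Q.c f.1 k, f.2, true)
  inj := by
    rintro ⟨f, b⟩ k ⟨f', b'⟩ k' h1 h2
    by_cases hf : f ∈ F <;> by_cases hf' : f' ∈ F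
    · simp only [hf, hf', if_true] at h1 h2
      have cross : ∀ {f f' : Φ} {k k' : ZMod 4}, f ∈ F → f' ∈ F →
          dblV m false (Q.c f k) = dblV m true (Q.c f' (3 - k')) →
          dblV m false (Q.c f (k + 1)) = dblV m true (Q.c f' (3 - (k' + 1))) → False := by
        intro f f' k k' hf hf' h1 h2
        obtain ⟨e1, l1⟩ := dblV_cross h1
        obtain ⟨e2, l2⟩ := dblV_cross h2
        obtain ⟨i, hi⟩ := hm.only f hf k l1 l2
        rw [three_sub] at e2
        have l3 : onCut m (Q.c f' (2 - k')) := e2 ▸ l2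
        have l4 : onCut m (Q.c f' (2 - k' + 1)) := by rw [two_sub_add]; exact e1 ▸ l1
        obtain ⟨j, hj⟩ := hm.only f' hf' (2 - k') l3 l4
        apply hm.fam.2 i j
        rw [← hi, ← hj]
        unfold sd
        rw [two_sub_add, e1, e2]
        rfl
      cases b <;> cases b'
      · simp only [Bool.false_eq_true, if_false] at h1 h2
        obtain ⟨e1, e2⟩ := Q.inj (dblV_inj h1) (dblV_inj h2)
        exact ⟨by rw [e1], e2⟩
      · simp only [Bool.false_eq_true, if_false, if_true] at h1 h2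
        exact (cross hf hf' h1 h2).elim
      · simp only [Bool.false_eq_true, if_false, if_true] at h1 h2
        exact (cross hf' hf h1.symm h2.symm).elim
      · simp only [if_true] at h1 h2
        have e1 := dblV_inj h1
        have e2 := dblV_inj h2
        rw [three_sub, three_sub] at e2
        have e3 : Q.c f (2 - k + 1) = Q.c f' (2 - k' + 1) := by rw [two_sub_add, two_sub_add]; exact e1
        obtain ⟨e4, e5⟩ := Q.inj e2 e3
        exact ⟨by rw [e4], by simpa using e5⟩
    · simp only [hf, hf', if_true, if_false] at h1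
      have := congrArg (fun p => p.2.2) h1
      simp [dblV] at this
    · simp only [hf, hf', if_true, if_false] at h1
      have := congrArg (fun p => p.2.2) h1
      simp [dblV] at this
    · simp only [hf, hf', if_false] at h1 h2
      obtain ⟨e1, e2⟩ := Q.inj (congrArg Prod.fst h1) (congrArg Prod.fst h2)
      have e3 : b = b' := congrArg (fun p => p.2.1) h1
      exact ⟨by rw [e1, e3], e2⟩

section

variable {Q : QC V Φ} {F : Finset Φ} {ι : Type} {m : ι → V × V} {hm : OneSided Q F m}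

theorem sd_dbl_false {f : Φ} (hf : f ∈ F) (k : ZMod 4) :
    sd (dbl Q F m hm) (f, false) k = dblA m false (sd Q f k) := by
  unfold sd dblA dbl
  simp [hf]

theorem sd_dbl_true {f : Φ} (hf : f ∈ F) (k : ZMod 4) :
    sd (dbl Q F m hm) (f, true) k = dblA m true (sd Q f (2 - k)).swap := by
  unfold sd dblA dbl
  simp only [hf, if_true, three_sub, two_sub_add, Prod.swap]

/-- the faces of the copy `b` -/
def cpy (F : Finset Φ) (b : Bool) : Finset (Φ × Bool) := F.image fun f => (f, b)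

theorem two_sub_two_sub (k : ZMod 4) : 2 - (2 - k) = k := by ring

theorem dE_cpy (b : Bool) : dE (dbl Q F m hm) (cpy F b) = (dE Q F).image (dblA m b) := by
  ext a'
  rw [mem_dE, Finset.mem_image]
  constructor
  · rintro ⟨f', hf', k, hk⟩
    obtain ⟨f, hf, rfl⟩ := Finset.mem_image.mp hf'
    cases b
    · rw [sd_dbl_false hf] at hk
      rcases hk with rfl | rfl
      · exact ⟨_, sd_mem hf k, rfl⟩
      · exact ⟨_, swap_mem_dE.mpr (sd_mem hf k), rfl⟩
    · rw [sd_dbl_true hf] at hk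
      rcases hk with rfl | rfl
      · exact ⟨_, swap_mem_dE.mpr (sd_mem hf _), rfl⟩
      · exact ⟨_, sd_mem hf (2 - k), by rw [dblA_swap, Prod.swap_swap]⟩
  · rintro ⟨a, ha, rfl⟩
    obtain ⟨f, hf, k, hk⟩ := mem_dE.mp ha
    refine ⟨(f, b), Finset.mem_image_of_mem _ hf, ?_⟩
    cases b
    · refine ⟨k, ?_⟩
      rw [sd_dbl_false hf]
      rcases hk with rfl | rfl
      · exact Or.inl rfl
      · exact Or.inr rfl
    · refine ⟨2 - k, ?_⟩
      rw [sd_dbl_true hf, two_sub_two_sub]
      rcases hk with rfl | rfl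
      · right
        rw [dblA_swap, Prod.swap_swap]
      · left
        rfl

theorem Z6_cpy_false (h : V × V → ℂ) (h' : (V × Bool × Bool) × (V × Bool × Bool) → ℂ)
    (hh : ∀ a ∈ dE Q F, h' (dblA m false a) = h a) :
    Z6 (dbl Q F m hm) (cpy F false) h' = Z6 Q F h := by
  refine Z6_transport (fun f => (f, false)) ?_ (dblA m false) ?_ (fun a => dblA_swap _ a)
    (dE_cpy false) h h' ?_ hh
  · intro f _ f' _ e
    exact congrArg Prod.fst e
  · intro a _ b _ e
    exact dblA_inj e
  · intro f hf α hα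
    congr 1
    funext k
    rw [sd_dbl_false hf]
    congr 1
    rw [Finset.mem_image]
    apply propext
    constructor
    · rintro ⟨b, hb, e⟩
      rw [← dblA_inj e]
      exact hb
    · intro h1
      exact ⟨_, h1, rfl⟩

theorem Z6_cpy_true (h : V × V → ℂ) (h' : (V × Bool × Bool) × (V × Bool × Bool) → ℂ)
    (hh : ∀ a ∈ dE Q F, h' (dblA m true a) = h a) :
    Z6 (dbl Q F m hm) (cpy F true) h' = Z6 Q F h := by
  refine Z6_transport (fun f => (f, true)) ?_ (dblA m true) ?_ (fun a => dblA_swap _ a)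
    (dE_cpy true) h h' ?_ hh
  · intro f _ f' _ e
    exact congrArg Prod.fst e
  · intro a _ b _ e
    exact dblA_inj e
  · intro f hf α hα
    obtain ⟨h1, h2⟩ := Finset.mem_filter.mp hα
    rw [← fw_mirror (fun k => decide (sd Q f k ∈ α))]
    congr 1
    funext k
    rw [sd_dbl_true hf]
    have h3 : dblA m true (sd Q f (2 - k)).swap ∈ α.image (dblA m true) ↔ (sd Q f (2 - k)).swap ∈ α := by
      rw [Finset.mem_image]
      constructor
      · rintro ⟨b, hb, e⟩
        rw [← dblA_inj e]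
        exact hb
      · intro h4
        exact ⟨_, h4, rfl⟩
    have h4 := h2 _ (sd_mem hf (2 - k))
    by_cases h5 : sd Q f (2 - k) ∈ α
    · have h6 := h4.mp h5
      rw [decide_eq_false (fun h7 => h6 (h3.mp h7))]
      simp [h5]
    · have h6 : (sd Q f (2 - k)).swap ∈ α := by
        by_contra h7
        exact h5 (h4.mpr h7)
      rw [decide_eq_true (h3.mpr h6)]
      simp [h5]

/-- the cut family in the doubled complex -/
def dblFam {ι : Type} (m : ι → V × V) : ι → (V × Bool × Bool) × (V × Bool × Bool) := fun i => dblA m false (m i)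

theorem fam_dblFam (hm : OneSided Q F m) : Fam (dblFam m) := by
  refine ⟨fun i j e => hm.fam.1 i j (dblA_inj e), fun i j e => hm.fam.2 i j ?_⟩
  unfold dblFam at e
  rw [← dblA_swap] at e
  exact dblA_inj e

end

section

variable {Q : QC V Φ} {F : Finset Φ} {m : ι → V × V} {hm : OneSided Q F m}

theorem mem_eds_of_onCut {a : V × V} (ha : a ∈ dE Q F) (hm : OneSided Q F m) (h1 : onCut m a.1) (h2 : onCut m a.2) :
    a ∈ eds m := by
  obtain ⟨f, hf, k, hk⟩ := mem_dE.mp ha
  rcases hk with rfl | rfl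
  · obtain ⟨i, hi⟩ := hm.only f hf k h1 h2
    exact mem_eds.mpr ⟨i, Or.inl hi⟩
  · obtain ⟨i, hi⟩ := hm.only f hf k h2 h1
    exact mem_eds.mpr ⟨i, Or.inr (by rw [hi])⟩

theorem onCut_of_mem_eds {a : V × V} (ha : a ∈ eds m) : onCut m a.1 ∧ onCut m a.2 := by
  obtain ⟨i, rfl | rfl⟩ := mem_eds.mp ha
  · exact ⟨⟨i, Or.inl rfl⟩, ⟨i, Or.inr rfl⟩⟩
  · exact ⟨⟨i, Or.inr rfl⟩, ⟨i, Or.inl rfl⟩⟩

theorem eds_sub (hm : OneSided Q F m) : eds m ⊆ dE Q F := by
  intro a ha
  obtain ⟨i, rfl | rfl⟩ := mem_eds.mp ha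
  · obtain ⟨f, hf, k, hk⟩ := hm.into i
    rw [← hk]
    exact sd_mem hf k
  · obtain ⟨f, hf, k, hk⟩ := hm.into i
    rw [← hk]
    exact swap_mem_dE.mpr (sd_mem hf k)

theorem mem_eds_dblFam {a : V × V} (b : Bool) : dblA m b a ∈ eds (dblFam m) ↔ a ∈ eds m := by
  constructor
  · intro h
    obtain ⟨i, h1 | h1⟩ := mem_eds.mp h
    · unfold dblFam at h1
      rw [← dblA_cut b] at h1
      exact mem_eds.mpr ⟨i, Or.inl (dblA_inj h1)⟩
    · unfold dblFam at h1
      rw [← dblA_cut b, ← dblA_swap] at h1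
      exact mem_eds.mpr ⟨i, Or.inr (dblA_inj h1)⟩
  · intro h
    obtain ⟨i, rfl | rfl⟩ := mem_eds.mp h
    · exact mem_eds.mpr ⟨i, Or.inl (dblA_cut b i)⟩
    · refine mem_eds.mpr ⟨i, Or.inr ?_⟩
      rw [dblA_swap, dblA_cut]
      rfl

theorem cE_cpy : cE (dbl Q F m hm) (cpy F false) (cpy F true) = eds (dblFam m) := by
  ext a'
  unfold cE
  rw [Finset.mem_inter, dE_cpy, dE_cpy, Finset.mem_image, Finset.mem_image]
  constructor
  · rintro ⟨⟨a, ha, rfl⟩, ⟨b, hb, e⟩⟩
    have e1 := dblV_cross (congrArg Prod.fst e).symm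
    have e2 := dblV_cross (congrArg Prod.snd e).symm
    rw [mem_eds_dblFam]
    exact mem_eds_of_onCut ha hm e1.2 e2.2
  · intro h
    obtain ⟨i, h1⟩ := mem_eds.mp h
    have h2 : m i ∈ dE Q F := eds_sub hm (mem_eds.mpr ⟨i, Or.inl rfl⟩)
    have h3 : (m i).swap ∈ dE Q F := swap_mem_dE.mpr h2
    rcases h1 with rfl | rfl
    · exact ⟨⟨_, h2, rfl⟩, ⟨_, h2, dblA_cut true i⟩⟩
    · exact ⟨⟨_, h3, rfl⟩, ⟨_, h3, by rw [dblA_swap, dblA_cut]; rfl⟩⟩

theorem disj_cpy : Disjoint (cpy F false) (cpy F true) := by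
  rw [Finset.disjoint_left]
  intro x hx hy
  obtain ⟨f, _, rfl⟩ := Finset.mem_image.mp hx
  obtain ⟨f', _, e⟩ := Finset.mem_image.mp hy
  exact Bool.noConfusion (congrArg Prod.snd e)

theorem pin_dblA (hm : OneSided Q F m) (s : ι → Bool) (b : Bool) (a : V × V) :
    pin (dblFam m) s (dblA m b a) = pin m s a := by
  by_cases h : a ∈ eds m
  · obtain ⟨i, rfl | rfl⟩ := mem_eds.mp h
    · rw [dblA_cut, pin_self hm.fam]
      exact pin_self (fam_dblFam hm) s i
    · rw [dblA_swap, dblA_cut, pin_swap hm.fam]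
      exact pin_swap (fam_dblFam hm) s i
  · rw [pin_off s h, pin_off s (fun hh => h ((mem_eds_dblFam b).mp hh))]

/-- the weight on the doubled complex -/
def dblH (m : ι → V × V) (h : V × V → ℂ) (a : (V × Bool × Bool) × (V × Bool × Bool)) : ℂ :=
  if (a.1.1, a.2.1) ∈ eds m then h (a.1.1, a.2.1) * conj (h (a.1.1, a.2.1))
  else if (a.1.2.1 || a.2.2.1) = true then conj (h (a.1.1, a.2.1)) else h (a.1.1, a.2.1)

theorem dblH_false (h : V × V → ℂ) {a : V × V} (ha : a ∉ eds m) : dblH m h (dblA m false a) = h a := by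
  unfold dblH dblA dblV
  simp [ha]

theorem dblH_true (hm : OneSided Q F m) (h : V × V → ℂ) {a : V × V} (ha : a ∈ dE Q F)
    (ha' : a ∉ eds m) : dblH m h (dblA m true a) = conj (h a) := by
  unfold dblH dblA dblV
  have h1 : ¬ (onCut m a.1 ∧ onCut m a.2) := fun hh => ha' (mem_eds_of_onCut ha hm hh.1 hh.2)
  by_cases h2 : onCut m a.1
  · have h3 : ¬ onCut m a.2 := fun hh => h1 ⟨h2, hh⟩
    simp [ha', h2, h3]
  · simp [ha', h2]

theorem dblH_cut (h : V × V → ℂ) {a : V × V} (ha : a ∈ eds m) (b : Bool) :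
    dblH m h (dblA m b a) = h a * conj (h a) := by
  unfold dblH dblA dblV
  simp [ha]

/-- **The norm of the boundary vector is the arrow sum of the doubled complex.** General weight. -/
theorem sum_normSq' [DecidableEq ι] (hm : OneSided Q F m) (h : V × V → ℂ)
    (h2 : (V × Bool × Bool) × (V × Bool × Bool) → ℂ)
    (e0 : ∀ a ∈ eds m, h2 (dblA m false a) = h a * conj (h a))
    (e1 : ∀ a ∈ dE Q F, a ∉ eds m → h2 (dblA m false a) = h a)
    (e2 : ∀ a ∈ dE Q F, a ∉ eds m → h2 (dblA m true a) = conj (h a)) :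
    Z6 (dbl Q F m hm) (cpy F false ∪ cpy F true) h2 =
      ∑ s : ι → Bool, Z6 Q F (fun a => h a * pin m s a) *
        conj (Z6 Q F (fun a => h a * pin m s a)) := by
  classical
  rw [Z6_cut (dbl Q F m hm) (cpy F false) (cpy F true) disj_cpy (fam_dblFam hm) cE_cpy h2
    (fun a => if a ∈ eds (dblFam m) then h (a.1.1, a.2.1) else h2 a)
    (fun a => if a ∈ eds (dblFam m) then conj (h (a.1.1, a.2.1)) else h2 a)]
  · refine Finset.sum_congr rfl fun s _ => ?_
    congr 1
    · refine Z6_cpy_false _ _ fun a ha => ?_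
      rw [pin_dblA hm]
      by_cases h1 : a ∈ eds m
      · rw [if_pos ((mem_eds_dblFam false).mpr h1)]
        rfl
      · rw [if_neg (fun hh => h1 ((mem_eds_dblFam false).mp hh)), e1 a ha h1]
    · rw [conj_Z6]
      refine Z6_cpy_true _ _ fun a ha => ?_
      rw [pin_dblA hm, map_mul]
      have h3 : conj (pin m s a) = pin m s a := by
        unfold pin
        split_ifs <;> simp
      rw [h3]
      by_cases h1 : a ∈ eds m
      · rw [if_pos ((mem_eds_dblFam true).mpr h1)]
        rfl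
      · rw [if_neg (fun hh => h1 ((mem_eds_dblFam true).mp hh)), e2 a ha h1]
  · intro a' ha'
    rw [if_pos ha', if_pos ha']
    obtain ⟨i, h1 | h1⟩ := mem_eds.mp ha'
    · rw [h1]
      exact e0 (m i) (mem_eds.mpr ⟨i, Or.inl rfl⟩)
    · rw [h1]
      exact e0 (m i).swap (mem_eds.mpr ⟨i, Or.inr rfl⟩)
  · intro a _ ha'
    rw [if_neg ha']
  · intro a _ ha'
    rw [if_neg ha']

theorem sum_normSq [DecidableEq ι] (hm : OneSided Q F m) (h : V × V → ℂ) :
    Z6 (dbl Q F m hm) (cpy F false ∪ cpy F true) (dblH m h) =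
      ∑ s : ι → Bool, Z6 Q F (fun a => h a * pin m s a) *
        conj (Z6 Q F (fun a => h a * pin m s a)) :=
  sum_normSq' hm h _ (fun _ ha => dblH_cut h ha false) (fun _ _ ha' => dblH_false h ha')
    (fun _ ha ha' => dblH_true hm h ha ha')

/-- real form -/
theorem sum_normSq_re [DecidableEq ι] (hm : OneSided Q F m) (h : V × V → ℂ) :
    (Z6 (dbl Q F m hm) (cpy F false ∪ cpy F true) (dblH m h)).re =
      ∑ s : ι → Bool, ‖Z6 Q F (fun a => h a * pin m s a)‖ ^ 2 := by
  rw [sum_normSq hm h, Complex.re_sum]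
  refine Finset.sum_congr rfl fun s _ => ?_
  rw [Complex.mul_conj, Complex.normSq_eq_norm_sq, Complex.ofReal_re]

end

/-- reversal of the family -/
def revFam {ι : Type} (m : ι → V × V) : ι → V × V := fun i => (m i).swap

theorem pin_revFam {m : ι → V × V} (hm : Fam m) (s : ι → Bool) (a : V × V) :
    pin (revFam m) (fun i => !s i) a = pin m s a := by
  unfold pin revFam
  congr 1
  apply propext
  constructor
  · rintro ⟨i, ⟨h1, h2⟩ | ⟨h1, h2⟩⟩
    · exact ⟨i, Or.inr ⟨h1, by simpa using h2⟩⟩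
    · exact ⟨i, Or.inl ⟨by simpa using h1, by simpa using h2⟩⟩
  · rintro ⟨i, ⟨h1, h2⟩ | ⟨h1, h2⟩⟩
    · exact ⟨i, Or.inr ⟨by simpa using h1, by simpa using h2⟩⟩
    · exact ⟨i, Or.inl ⟨h1, by simpa using h2⟩⟩

/-- **Cut-and-mirror inequality.**  `m` is directed into `F₁`, its reversal into `F₂`. -/
theorem cut_mirror [DecidableEq ι] {Q : QC V Φ} {F₁ F₂ : Finset Φ} {m : ι → V × V}
    (hd : Disjoint F₁ F₂) (hc : cE Q F₁ F₂ = eds m)
    (h1 : OneSided Q F₁ m) (h2 : OneSided Q F₂ (revFam m))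
    (h h₁ h₂ : V × V → ℂ)
    (e0 : ∀ a ∈ eds m, h a = h₁ a * h₂ a)
    (e1 : ∀ a ∈ dE Q F₁, a ∉ eds m → h₁ a = h a)
    (e2 : ∀ a ∈ dE Q F₂, a ∉ eds m → h₂ a = h a) :
    ‖Z6 Q (F₁ ∪ F₂) h‖ ^ 2 ≤
      (Z6 (dbl Q F₁ m h1) (cpy F₁ false ∪ cpy F₁ true) (dblH m h₁)).re *
        (Z6 (dbl Q F₂ (revFam m) h2) (cpy F₂ false ∪ cpy F₂ true) (dblH (revFam m) h₂)).re := by
  rw [sum_normSq_re h1, sum_normSq_re h2, Z6_cut Q F₁ F₂ hd h1.fam hc h h₁ h₂ e0 e1 e2]
  have h3 : ∑ s : ι → Bool, ‖Z6 Q F₂ (fun a => h₂ a * pin (revFam m) s a)‖ ^ 2 =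
      ∑ s : ι → Bool, ‖Z6 Q F₂ (fun a => h₂ a * pin m s a)‖ ^ 2 := by
    symm
    refine Finset.sum_bij (fun s _ => fun i => !s i) (fun _ _ => Finset.mem_univ _) ?_ ?_ ?_
    · intro s _ s' _ e
      funext i
      have := congrFun e i
      simpa using this
    · intro s _
      exact ⟨fun i => !s i, Finset.mem_univ _, by funext i; simp⟩
    · intro s _
      simp only [pin_revFam h1.fam]
  rw [h3]
  calc ‖∑ s : ι → Bool, Z6 Q F₁ (fun a => h₁ a * pin m s a) * Z6 Q F₂ (fun a => h₂ a * pin m s a)‖ ^ 2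
      ≤ (∑ s : ι → Bool, ‖Z6 Q F₁ (fun a => h₁ a * pin m s a)‖ *
          ‖Z6 Q F₂ (fun a => h₂ a * pin m s a)‖) ^ 2 := by
        gcongr
        refine (norm_sum_le _ _).trans (le_of_eq ?_)
        exact Finset.sum_congr rfl fun s _ => norm_mul _ _
    _ ≤ _ := Finset.sum_mul_sq_le_sq_mul_sq _ _ _

end

end Pool.Agent.SixB
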