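import Pool.Agent.Lib.SixB.S3UpHi
import Pool.Agent.Lib.SixB.S3Mirror

/-!
# 6BD step 3, row R21: the horizontal cuts of a slab environment

* `UpE.CutF W y x`: `x` enumerates the columns of the faces of `W` in the row `y`.
* `UpE.os_hi`, `UpE.os_lo`: the cut row is one sided for the upper and for the lower half.
* `UpE.off_hi`, `UpE.off_lo`: no side of a face in the chart regions `gU`, `gL` is in the cut.
-/

set_option autoImplicit false
set_option linter.unusedSectionVars false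

namespace Pool.Agent.SixB

open Pool.Agent.Perc.Q Pool.Agent.Perc EmbH EnvB

noncomputable section

namespace UpE

variable {S : Slb} {W : Finset (ℤ × ℤ)} {X Y : ℤ} {E : SEnv} {ι : Type}
  {l : ι → (Option Bool × (ℤ × ℤ)) × (Option Bool × (ℤ × ℤ))} {x : ι → ℤ}

/-- `x` enumerates the columns of the faces of `W` in the row `y` -/
structure CutF (W : Finset (ℤ × ℤ)) (y : ℤ) (x : ι → ℤ) : Prop where
  inj : Function.Injective x
  mem : ∀ i, (x i, y) ∈ W
  all : ∀ t, (t, y) ∈ W → ∃ i, x i = t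

theorem cutH_eq (y t : ℤ) : SEnv.cutH y t = ((none, (t, y)), (none, (t + 1, y))) := rfl

theorem fam_cutH {y : ℤ} (hx : Function.Injective x) (hl : ∀ i, l i = SEnv.cutH y (x i)) :
    Fam l := by
  refine ⟨fun i j h => ?_, fun i j h => ?_⟩
  · rw [hl, hl, cutH_eq, cutH_eq] at h
    exact hx (congrArg (fun p => p.1.2.1) h)
  · rw [hl, hl, cutH_eq, cutH_eq] at h
    have h1 : x i = x j + 1 := congrArg (fun p => p.1.2.1) h
    have h2 : x i + 1 = x j := congrArg (fun p => p.2.2.1) h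
    omega

theorem fam_rev {l' : ι → (Option Bool × (ℤ × ℤ)) × (Option Bool × (ℤ × ℤ))} (h : Fam l)
    (hl : ∀ i, l' i = (l i).swap) : Fam l' := by
  refine ⟨fun i j h1 => ?_, fun i j h1 => ?_⟩
  · rw [hl, hl] at h1
    exact h.1 i j (Prod.swap_injective h1)
  · rw [hl, hl, Prod.swap_swap] at h1
    exact h.2 j i h1.symm

/-- the slab rows of the window are free -/
theorem base_row (h : S.Ok) {f : ℤ × ℤ} (hf : f ∈ W) (h1 : S.yc - S.a ≤ f.2)
    (h2 : f.2 < S.yc + S.a) : f ∈ (S.env W X Y).base := by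
  rw [EnvB.mem_base]
  refine ⟨hf, fun h3 => ?_, fun h3 => ?_⟩
  · have h4 : (S.a : ℤ) ≤ f.2 - S.yc := h3.1
    omega
  · have h4 : (S.a : ℤ) ≤ S.yc - 1 - f.2 := h3.1
    omega

theorem onCut_row {y : ℤ} (hl : ∀ i, l i = SEnv.cutH y (x i) ∨ l i = (SEnv.cutH y (x i)).swap)
    {v : Option Bool × (ℤ × ℤ)} (hv : onCut l v) : v.1 = none ∧ v.2.2 = y := by
  obtain ⟨i, h⟩ := hv
  rcases hl i with h1 | h1 <;> rw [h1] at h <;> rcases h with rfl | rfl <;> exact ⟨rfl, rfl⟩

/-- corners of the faces of the upper pocket in the base sheet have the height of the mouth -/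
theorem pkU_row {f : ℤ × ℤ} {k : ZMod 4} (h : (E.Q.c (some true, f) k).1 = none) :
    (E.Q.c (some true, f) k).2.2 = E.gu.yc + E.gu.a := by
  rw [EmbH.Q_c] at h ⊢
  have h1 := (shf_true (E := E) (f := f) (k := k) (by simp only at h; rw [h]; simp)).1
  rw [adj_up_iff] at h1
  obtain ⟨-, -, h2, h3⟩ := h1
  rcases h3 with rfl | rfl
  · exact h2
  · exact h2

theorem pkL_row {f : ℤ × ℤ} {k : ZMod 4} (h : (E.Q.c (some false, f) k).1 = none) :
    (E.Q.c (some false, f) k).2.2 = E.gd.yc - E.gd.a := by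
  rw [EmbH.Q_c] at h ⊢
  have h1 := (shf_false (E := E) (f := f) (k := k) (by simp only at h; rw [h]; simp)).1
  rw [adj_dn_iff] at h1
  obtain ⟨-, -, h2, h3⟩ := h1
  rcases h3 with rfl | rfl
  · exact h2
  · exact h2

/-- corners of base faces -/
theorem base_row2 (h : S.Ok) {f : ℤ × ℤ} (hf : f ∈ (S.env W X Y).base) (k : ZMod 4) :
    ((S.env W X Y).Q.c (none, f) k).2.2 = (ZQ.c f k).2 := by
  rw [EnvB.cor_base (BlkS.thk h) hf k]

/-- **the cut of the upper half is one sided** -/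
theorem os_hi (h : S.Ok) {y : ℤ} (hy1 : S.yc - S.a ≤ y) (hy2 : y < S.yc + S.a)
    (hl : ∀ i, l i = SEnv.cutH y (x i)) (hx : CutF W y x) :
    OneSided (S.env W X Y).Q ((S.env W X Y).hi y) l := by
  have hrow : ∀ i, l i = SEnv.cutH y (x i) ∨ l i = (SEnv.cutH y (x i)).swap := fun i => Or.inl (hl i)
  refine ⟨fam_cutH hx.inj hl, fun i => ?_, ?_⟩
  · have hb : (x i, y) ∈ (S.env W X Y).base := base_row h (hx.mem i) hy1 hy2
    refine ⟨(none, (x i, y)), mem_hiE.2 (Or.inl ⟨rfl, hb, le_rfl⟩), 0, ?_⟩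
    rw [EnvB.sd_base (BlkS.thk h) hb, hl]
    rfl
  · rintro ⟨s, f⟩ hf k h1 h2
    obtain ⟨h3, h4⟩ := onCut_row hrow h1
    obtain ⟨h5, h6⟩ := onCut_row hrow h2
    rcases mem_hiE.1 hf with ⟨h7, h8, h9⟩ | ⟨h7, h8⟩
    · simp only at h7 h8 h9
      subst h7
      rw [base_row2 h h8] at h4 h6
      have h10 : k = 0 ∧ f.2 = y := by
        rcases k4_cases k with rfl | rfl | rfl | rfl
        · exact ⟨rfl, h4⟩
        · exfalso
          have h11 : f.2 + 1 = y := h6
          omega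
        · exfalso
          have h11 : f.2 + 1 = y := h4
          omega
        · exfalso
          have h11 : f.2 + 1 = y := h4
          omega
      obtain ⟨rfl, h11⟩ := h10
      obtain ⟨i, hi⟩ := hx.all f.1 (by
        rw [← h11]
        exact (EnvB.mem_base.1 h8).1)
      refine ⟨i, ?_⟩
      rw [EnvB.sd_base (BlkS.thk h) h8, hl, hi, ← h11]
      rfl
    · simp only at h7 h8
      subst h7
      exfalso
      have h9 := pkU_row (E := S.env W X Y) h3
      rw [h4] at h9
      have h10 : y = S.yc + S.a := h9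
      omega

/-- **the cut of the lower half is one sided** -/
theorem os_lo (h : S.Ok) {y : ℤ} (hy1 : S.yc - S.a < y) (hy2 : y ≤ S.yc + S.a)
    (hl : ∀ i, l i = (SEnv.cutH y (x i)).swap) (hx : CutF W (y - 1) x) :
    OneSided (S.env W X Y).Q ((S.env W X Y).lo y) l := by
  have hrow : ∀ i, l i = SEnv.cutH y (x i) ∨ l i = (SEnv.cutH y (x i)).swap := fun i => Or.inr (hl i)
  refine ⟨fam_rev (l := fun i => SEnv.cutH y (x i)) (fam_cutH hx.inj fun i => rfl) hl, fun i => ?_, ?_⟩
  · have hb : (x i, y - 1) ∈ (S.env W X Y).base :=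
      base_row h (hx.mem i) (by simp only; omega) (by simp only; omega)
    refine ⟨(none, (x i, y - 1)), mem_loE.2 (Or.inl ⟨rfl, hb, by simp only; omega⟩), 2, ?_⟩
    rw [EnvB.sd_base (BlkS.thk h) hb, hl]
    have e : sd ZQ (x i, y - 1) 2 = ((x i + 1, y - 1 + 1), (x i, y - 1 + 1)) := rfl
    rw [e, sub_add_cancel]
    rfl
  · rintro ⟨s, f⟩ hf k h1 h2
    obtain ⟨h3, h4⟩ := onCut_row hrow h1
    obtain ⟨h5, h6⟩ := onCut_row hrow h2
    rcases mem_loE.1 hf with ⟨h7, h8, h9⟩ | ⟨h7, h8⟩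
    · simp only at h7 h8 h9
      subst h7
      rw [base_row2 h h8] at h4 h6
      have h10 : k = 2 ∧ f.2 + 1 = y := by
        rcases k4_cases k with rfl | rfl | rfl | rfl
        · exfalso
          have h11 : f.2 = y := h4
          omega
        · exfalso
          have h11 : f.2 = y := h4
          omega
        · exact ⟨rfl, h4⟩
        · exfalso
          have h11 : f.2 = y := h6
          omega
      obtain ⟨rfl, h11⟩ := h10
      have h12 : y - 1 = f.2 := by omega
      obtain ⟨i, hi⟩ := hx.all f.1 (by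
        rw [h12]
        exact (EnvB.mem_base.1 h8).1)
      refine ⟨i, ?_⟩
      rw [EnvB.sd_base (BlkS.thk h) h8, hl, hi, ← h11]
      rfl
    · simp only at h7 h8
      subst h7
      exfalso
      have h9 := pkL_row (E := S.env W X Y) h3
      rw [h4] at h9
      have h10 : y = S.yc - S.a := h9
      omega

theorem eds_onCut [Fintype ι] {a : (Option Bool × (ℤ × ℤ)) × (Option Bool × (ℤ × ℤ))}
    (ha : a ∈ eds l) : onCut l a.1 := by
  obtain ⟨i, h⟩ := mem_eds.1 ha
  rcases h with rfl | rfl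
  · exact ⟨i, Or.inl rfl⟩
  · exact ⟨i, Or.inr rfl⟩

/-- the chart faces of the upper half are off the cut -/
theorem off_hi [Fintype ι] (h : S.Ok) {y : ℤ} {ρ : ℕ} (hy : y + ρ < S.yc + S.a)
    (hl : ∀ i, l i = SEnv.cutH y (x i)) {f : Option Bool × (ℤ × ℤ)}
    (hf : f ∈ (S.env W X Y).hi y) (hG : f ∈ gU S ρ) (k : ZMod 4) :
    sd (S.env W X Y).Q f k ∉ eds l := by
  intro h1
  obtain ⟨h2, h3⟩ := onCut_row (fun i => Or.inl (hl i)) (eds_onCut h1)
  obtain ⟨s, f⟩ := f
  rcases mem_hiE.1 hf with ⟨h7, h8, h9⟩ | ⟨h7, h8⟩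
  · simp only at h7 h8 h9
    subst h7
    rcases hG with ⟨-, h10⟩ | h10
    · simp only at h10
      have h11 := base_row2 h h8 k
      have h12 : ((S.env W X Y).Q.c (none, f) k).2.2 = y := h3
      rw [h12] at h11
      have h13 : f.2 ≤ (ZQ.c f k).2 := by
        rcases corc f k with ⟨-, e⟩ | ⟨-, e⟩ | ⟨-, e⟩ | ⟨-, e⟩ <;> rw [e] <;> simp
      omega
    · exact absurd h10 (by simp)
  · simp only at h7 h8
    subst h7
    have h9 := pkU_row (E := S.env W X Y) (f := f) (k := k) h2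
    have h12 : ((S.env W X Y).Q.c (some true, f) k).2.2 = y := h3
    rw [h12] at h9
    have h10 : y = S.yc + S.a := h9
    omega

/-- the chart faces of the lower half are off the cut -/
theorem off_lo [Fintype ι] (h : S.Ok) {y : ℤ} {ρ : ℕ} (hy : S.yc - S.a + ρ < y)
    (hl : ∀ i, l i = (SEnv.cutH y (x i)).swap) {f : Option Bool × (ℤ × ℤ)}
    (hf : f ∈ (S.env W X Y).lo y) (hG : f ∈ gL S ρ) (k : ZMod 4) :
    sd (S.env W X Y).Q f k ∉ eds l := by
  intro h1
  obtain ⟨h2, h3⟩ := onCut_row (fun i => Or.inr (hl i)) (eds_onCut h1)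
  obtain ⟨s, f⟩ := f
  rcases mem_loE.1 hf with ⟨h7, h8, h9⟩ | ⟨h7, h8⟩
  · simp only at h7 h8 h9
    subst h7
    rcases hG with ⟨-, h10⟩ | h10
    · simp only at h10
      have h11 := base_row2 h h8 k
      have h12 : ((S.env W X Y).Q.c (none, f) k).2.2 = y := h3
      rw [h12] at h11
      have h13 : (ZQ.c f k).2 ≤ f.2 + 1 := by
        rcases corc f k with ⟨-, e⟩ | ⟨-, e⟩ | ⟨-, e⟩ | ⟨-, e⟩ <;> rw [e] <;> simp
      omega
    · exact absurd h10 (by simp)
  · simp only at h7 h8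
    subst h7
    have h9 := pkL_row (E := S.env W X Y) (f := f) (k := k) h2
    have h12 : ((S.env W X Y).Q.c (some false, f) k).2.2 = y := h3
    rw [h12] at h9
    have h10 : y = S.yc - S.a := h9
    omega

end UpE

end

end Pool.Agent.SixB
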