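import Pool.Agent.Lib.SixB.S3BlkW

/-!
# 6BD step 3: charts at the mouths of the pockets

`E : SEnv`. The corners `(x2, yc + a)`, `(x1, yc + a)` of the upper block and `(x1, yc - a)`, `(x2, yc - a)` of the
lower block, where the walls of the pocket meet the block (`m = 3`, `J = 0`). The charts use two sheets.
* `pkP`: chart of a planar set of faces, some of them in the pocket `some i`.
* `pk_bS1`, `pk_bS2`: boundary sides of the faces of a pocket.
* `cUR`, `cUL`, `cLL`, `cLR`: the four charts; `_face` (the map of the faces), `_walls` (the walls are island sides),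
  `_jump` (`J = 0`).
-/

set_option autoImplicit false
set_option linter.unusedSectionVars false

namespace Pool.Agent.SixB.EnvB

open Pool.Agent.Perc.Q Pool.Agent.Perc Pool.Agent.SixB.Tilt

noncomputable section

variable {E : SEnv} {R : Finset (ℤ × ℤ)} {f : ℤ × ℤ} {k : ZMod 4} {i : Bool}

/-! ## Faces of the pockets -/

/-- chart of a planar set of faces; `pk`: faces in the pocket `some i`, `tp`: vertices of the pocket off the mouth -/
def pkP (hE : Thk E) (i : Bool) (R : Finset (ℤ × ℤ)) (pk tp : ℤ × ℤ → Prop) [DecidablePred pk]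
    [DecidablePred tp] (hpk : ∀ f ∈ R, pk f → (some i, f) ∈ E.F) (hbs : ∀ f ∈ R, ¬ pk f → f ∈ E.base)
    (h1 : ∀ f ∈ R, pk f → ∀ k, ((mu E i).adj f k ↔ ¬ tp (ZQ.c f k)))
    (h2 : ∀ f ∈ R, ¬ pk f → ∀ k, ¬ tp (ZQ.c f k)) : PChart E.Q E.F R where
  φV := fun w => (if tp w then some i else none, w)
  φF := fun f => (if pk f then some i else none, f)
  cor := by
    intro f hf k
    by_cases h : pk f
    · rw [if_pos h, cor_pk]
      by_cases h3 : (mu E i).adj f k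
      · rw [if_pos h3, if_neg ((h1 f hf h k).1 h3)]
      · rw [if_neg h3, if_pos (by
          by_contra h4
          exact h3 ((h1 f hf h k).2 h4))]
    · rw [if_neg h, cor_base hE (hbs f hf h), if_neg (h2 f hf h k)]
  inj := fun _ _ _ _ _ _ h => (Prod.mk.inj h).2
  sub := by
    intro f hf
    by_cases h : pk f
    · rw [if_pos h]; exact hpk f hf h
    · rw [if_neg h]; exact mem_F_none.2 (hbs f hf h)

/-- a side of a face of a pocket whose second end is off the mouth -/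
theorem pk_bS1 (hf : (some i, f) ∈ E.F) (hn : (some i, nb f k) ∉ E.F)
    (c1 : ¬ (mu E i).adj f (k + 1)) (c2 : ∀ j, ¬ (mu E j).adj (nb f k) (k + 2)) :
    sd E.Q (some i, f) k ∈ bS E.Q E.F := by
  rw [sd_mem_bS hf]
  rintro ⟨s, g⟩ hg l h
  have e1 : sd ZQ f k = (sd ZQ g l).swap := by
    have h3 := (Prod.mk.inj h).1
    have h4 := (Prod.mk.inj h).2
    exact Prod.ext (Prod.mk.inj h3).2 (Prod.mk.inj h4).2
  obtain ⟨rfl, rfl⟩ := swap_inj_iff.1 e1
  have h4 : E.Q.c (some i, f) (k + 1) = E.Q.c (s, nb f k) (k + 2) := (Prod.mk.inj h).2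
  rw [cor_pk, if_neg c1, Q_c, msig_not c2] at h4
  have h5 : some i = s := (Prod.mk.inj h4).1
  rw [← h5] at hg
  exact hn hg

/-- a side of a face of a pocket whose first end is off the mouth -/
theorem pk_bS2 (hf : (some i, f) ∈ E.F) (hn : (some i, nb f k) ∉ E.F)
    (c1 : ¬ (mu E i).adj f k) (c2 : ∀ j, ¬ (mu E j).adj (nb f k) (k + 3)) :
    sd E.Q (some i, f) k ∈ bS E.Q E.F := by
  rw [sd_mem_bS hf]
  rintro ⟨s, g⟩ hg l h
  have e1 : sd ZQ f k = (sd ZQ g l).swap := by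
    have h3 := (Prod.mk.inj h).1
    have h4 := (Prod.mk.inj h).2
    exact Prod.ext (Prod.mk.inj h3).2 (Prod.mk.inj h4).2
  obtain ⟨rfl, rfl⟩ := swap_inj_iff.1 e1
  have h4 : E.Q.c (some i, f) k = E.Q.c (s, nb f k) (k + 2 + 1) := (Prod.mk.inj h).1
  rw [show k + 2 + 1 = k + 3 by ring, cor_pk, if_neg c1, Q_c, msig_not c2] at h4
  have h5 : some i = s := (Prod.mk.inj h4).1
  rw [← h5] at hg
  exact hn hg

theorem pk_Z (hb : sd E.Q (some i, f) k ∈ bS E.Q E.F)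
    (h : ¬ (mu E i).adj f k ∨ ¬ (mu E i).adj f (k + 1)) : sd E.Q (some i, f) k ∈ E.Z := by
  rw [mem_Z]
  refine ⟨hb, ?_⟩
  rcases h with h | h
  · left
    change (E.Q.c (some i, f) k).1 ≠ none
    rw [cor_pk, if_neg h]
    simp
  · right; left
    change (E.Q.c (some i, f) (k + 1)).1 ≠ none
    rw [cor_pk, if_neg h]
    simp

theorem pk_pl : SEnv.pl (sd E.Q (some i, f) k) = sd ZQ f k := by
  unfold SEnv.pl sd
  rw [cor_pk, cor_pk]

theorem pk_psi_up {mu' ρu ml ρl : ℝ} {ψu ψl : (ℤ × ℤ) × (ℤ × ℤ) → ℝ}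
    (h : ¬ (mu E true).adj f k ∨ ¬ (mu E true).adj f (k + 1)) :
    E.psi mu' ρu ml ρl ψu ψl (sd E.Q (some true, f) k) = ψu (sd ZQ f k) := by
  unfold SEnv.psi
  rw [if_pos, pk_pl]
  rcases h with h | h
  · left
    change (E.Q.c (some true, f) k).1 = some true
    rw [cor_pk, if_neg h]
  · right
    change (E.Q.c (some true, f) (k + 1)).1 = some true
    rw [cor_pk, if_neg h]

theorem pk_psi_lo {mu' ρu ml ρl : ℝ} {ψu ψl : (ℤ × ℤ) × (ℤ × ℤ) → ℝ}
    (h : ¬ (mu E false).adj f k ∨ ¬ (mu E false).adj f (k + 1)) :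
    E.psi mu' ρu ml ρl ψu ψl (sd E.Q (some false, f) k) = ψl (sd ZQ f k) := by
  have h0 : ∀ l, (E.Q.c (some false, f) l).1 ≠ some true := by
    intro l
    rw [cor_pk]
    by_cases h : (mu E false).adj f l
    · rw [if_pos h]; simp
    · rw [if_neg h]; simp
  unfold SEnv.psi
  rw [if_neg (by
    rintro (h1 | h1)
    · exact h0 _ h1
    · exact h0 _ h1), if_pos, pk_pl]
  rcases h with h | h
  · left
    change (E.Q.c (some false, f) k).1 = some false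
    rw [cor_pk, if_neg h]
  · right
    change (E.Q.c (some false, f) (k + 1)).1 = some false
    rw [cor_pk, if_neg h]

/-! ## The geometry at the mouths -/

/-- The geometry near the mouth of the upper pocket: boxes of radius `r` -/
structure UpM (E : SEnv) (r : ℕ) : Prop where
  hx : E.gu.x1 + r ≤ E.gu.x2
  hk : r ≤ E.gu.k
  ha : 1 ≤ E.gu.a
  hd : E.gd.yc - E.gd.a + r ≤ E.gu.yc + E.gu.a
  /-- the window contains the base faces below the mouth -/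
  hW : ∀ x y : ℤ, E.gu.x1 - r ≤ x → x < E.gu.x2 + r → E.gu.yc + E.gu.a - r ≤ y → y < E.gu.yc + E.gu.a →
    (x, y) ∈ E.W
  /-- the pocket near the mouth -/
  hU : ∀ x y : ℤ, E.gu.x1 ≤ x → x < E.gu.x2 → E.gu.yc + E.gu.a ≤ y → y < E.gu.yc + E.gu.a + r →
    (x, y) ∈ E.U
  hR : ∀ y : ℤ, E.gu.yc + E.gu.a ≤ y → y < E.gu.yc + E.gu.a + r → (E.gu.x2, y) ∉ E.U
  hL : ∀ y : ℤ, E.gu.yc + E.gu.a ≤ y → y < E.gu.yc + E.gu.a + r → (E.gu.x1 - 1, y) ∉ E.U

theorem UpM.base {r : ℕ} (h : UpM E r) {x y : ℤ} (h1 : E.gu.x1 - r ≤ x) (h2 : x < E.gu.x2 + r)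
    (h3 : E.gu.yc + E.gu.a - r ≤ y) (h4 : y < E.gu.yc + E.gu.a) : (x, y) ∈ E.base := by
  have hd := h.hd
  rw [mem_base]
  refine ⟨h.hW x y h1 h2 h3 h4, fun h5 => ?_, fun h5 => ?_⟩
  · unfold BGeo.solid BGeo.hgt at h5
    simp only [if_true] at h5
    omega
  · unfold BGeo.solid BGeo.hgt at h5
    simp only [Bool.false_eq_true, if_false] at h5
    omega

/-- the geometry near the mouth of the lower pocket -/
structure LoM (E : SEnv) (r : ℕ) : Prop where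
  hx : E.gd.x1 + r ≤ E.gd.x2
  hk : r ≤ E.gd.k
  ha : 1 ≤ E.gd.a
  hd : E.gd.yc - E.gd.a + r ≤ E.gu.yc + E.gu.a
  hy : E.gd.yc ≤ E.gu.yc + E.gd.a - 1
  hW : ∀ x y : ℤ, E.gd.x1 - r ≤ x → x < E.gd.x2 + r → E.gd.yc - E.gd.a ≤ y → y < E.gd.yc - E.gd.a + r →
    (x, y) ∈ E.W
  hL : ∀ x y : ℤ, E.gd.x1 ≤ x → x < E.gd.x2 → E.gd.yc - E.gd.a - r ≤ y → y < E.gd.yc - E.gd.a →
    (x, y) ∈ E.L
  hR : ∀ y : ℤ, E.gd.yc - E.gd.a - r ≤ y → y < E.gd.yc - E.gd.a → (E.gd.x2, y) ∉ E.L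
  hLl : ∀ y : ℤ, E.gd.yc - E.gd.a - r ≤ y → y < E.gd.yc - E.gd.a → (E.gd.x1 - 1, y) ∉ E.L

theorem LoM.base {r : ℕ} (h : LoM E r) {x y : ℤ} (h1 : E.gd.x1 - r ≤ x) (h2 : x < E.gd.x2 + r)
    (h3 : E.gd.yc - E.gd.a ≤ y) (h4 : y < E.gd.yc - E.gd.a + r) : (x, y) ∈ E.base := by
  have hd := h.hd
  rw [mem_base]
  refine ⟨h.hW x y h1 h2 h3 h4, fun h5 => ?_, fun h5 => ?_⟩
  · unfold BGeo.solid BGeo.hgt at h5
    simp only [if_true] at h5
    omega
  · unfold BGeo.solid BGeo.hgt at h5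
    simp only [Bool.false_eq_true, if_false] at h5
    omega

section UR

variable {r ρ : ℕ}

/-- the faces around the upper right corner of the mouth -/
def cURp (hE : Thk E) (h : UpM E r) : PChart E.Q E.F (Wdg 3 1 (E.gu.x2, E.gu.yc + E.gu.a) r) :=
  pkP hE true _ (fun f => f.1 < E.gu.x2 ∧ E.gu.yc + E.gu.a ≤ f.2)
    (fun w => w.1 ≤ E.gu.x2 ∧ E.gu.yc + E.gu.a < w.2)
    (by
      rintro ⟨x, y⟩ hf hp
      rw [mem_w31] at hf
      have hx := h.hx
      simp only at hf hp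
      exact mem_F_up.2 (h.hU x y (by omega) (by omega) (by omega) (by omega)))
    (by
      rintro ⟨x, y⟩ hf hp
      rw [mem_w31] at hf
      have hx := h.hx
      simp only at hf hp
      exact h.base (by omega) (by omega) (by omega) (by omega))
    (by
      rintro ⟨x, y⟩ hf hp k
      rw [mem_w31] at hf
      have hx := h.hx
      rw [adj_up]
      simp only at hf hp
      rcases k4 k with rfl | rfl | rfl | rfl
      · change _ ↔ ¬ (x ≤ _ ∧ _ < y)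
        simp only [true_or, and_true]
        omega
      · change _ ↔ ¬ (x + 1 ≤ _ ∧ _ < y)
        simp only [or_true, and_true]
        omega
      · change _ ↔ ¬ (x + 1 ≤ _ ∧ _ < y + 1)
        simp only [show ¬ ((2 : ZMod 4) = 0 ∨ (2 : ZMod 4) = 1) by decide, and_false, false_iff]
        omega
      · change _ ↔ ¬ (x ≤ _ ∧ _ < y + 1)
        simp only [show ¬ ((3 : ZMod 4) = 0 ∨ (3 : ZMod 4) = 1) by decide, and_false, false_iff]
        omega)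
    (by
      rintro ⟨x, y⟩ hf hp k
      rw [mem_w31] at hf
      simp only at hf hp
      rcases k4 k with rfl | rfl | rfl | rfl
      · change ¬ (x ≤ _ ∧ _ < y)
        omega
      · change ¬ (x + 1 ≤ _ ∧ _ < y)
        omega
      · change ¬ (x + 1 ≤ _ ∧ _ < y + 1)
        omega
      · change ¬ (x ≤ _ ∧ _ < y + 1)
        omega)

theorem cUR_pk (hE : Thk E) (h : UpM E r) {a : (ℤ × ℤ) × (ℤ × ℤ)}
    (ha : a ∈ wOut 1 (E.gu.x2, E.gu.yc + E.gu.a) r) : ∃ y : ℤ, E.gu.yc + E.gu.a ≤ y ∧ y < E.gu.yc + E.gu.a + r ∧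
      (cURp hE h).side a = sd E.Q (some true, (E.gu.x2 - 1, y)) 1 := by
  obtain ⟨y, h1, h2, rfl⟩ := mem_wOut1.1 ha
  refine ⟨y, h1, h2, ?_⟩
  have hf : (E.gu.x2 - 1, y) ∈ Wdg 3 1 (E.gu.x2, E.gu.yc + E.gu.a) r := by
    have h3 : 0 < r := by
      simp only at h1 h2
      omega
    rw [mem_w31]
    simp only at h1 h2 ⊢
    omega
  rw [(cURp hE h).side_sdR hf]
  change sd E.Q (if _ then some true else none, _) 1 = _
  rw [if_pos]
  simp only at h1 h2 ⊢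
  omega

theorem cUR_bs (hE : Thk E) (h : UpM E r) {a : (ℤ × ℤ) × (ℤ × ℤ)}
    (ha : a ∈ wIn 0 (E.gu.x2, E.gu.yc + E.gu.a) r) : ∃ x : ℤ, E.gu.x2 ≤ x ∧ x < E.gu.x2 + r ∧
      (cURp hE h).side a = sd E.Q (none, (x, E.gu.yc + E.gu.a - 1)) 2 := by
  obtain ⟨x, h1, h2, rfl⟩ := mem_wIn0.1 ha
  refine ⟨x, h1, h2, ?_⟩
  have hf : (x, E.gu.yc + E.gu.a - 1) ∈ Wdg 3 1 (E.gu.x2, E.gu.yc + E.gu.a) r := by
    have h3 : 0 < r := by
      simp only at h1 h2
      omega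
    rw [mem_w31]
    simp only at h1 h2 ⊢
    omega
  rw [(cURp hE h).side_sdR hf]
  change sd E.Q (if _ then some true else none, _) 2 = _
  rw [if_neg]
  simp only at h1 h2 ⊢
  omega

theorem cUR_adj (h : UpM E r) {y : ℤ} (h1 : E.gu.yc + E.gu.a ≤ y) (h2 : y < E.gu.yc + E.gu.a + r) :
    (¬ (mu E true).adj (E.gu.x2 - 1, y) 2) ∧ ∀ j, ¬ (mu E j).adj (E.gu.x2 - 1 + 1, y) 3 := by
  have hd := h.hd
  refine ⟨?_, ?_⟩
  · rw [adj_up]
    rintro ⟨-, -, h3⟩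
    revert h3
    decide
  · intro j
    cases j
    · rw [adj_lo]
      rintro ⟨-, h3, h4⟩
      first
        | (revert h4; decide)
        | (simp only at h3; omega)
    · rw [adj_up]
      rintro ⟨-, h3, h4⟩
      first
        | (revert h4; decide)
        | (simp only at h3; omega)

theorem cUR_pk_bS (h : UpM E r) {y : ℤ} (h1 : E.gu.yc + E.gu.a ≤ y) (h2 : y < E.gu.yc + E.gu.a + r) :
    sd E.Q (some true, (E.gu.x2 - 1, y)) 1 ∈ bS E.Q E.F := by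
  have hx := h.hx
  obtain ⟨c1, c2⟩ := cUR_adj h h1 h2
  have h0 : 0 < r := by omega
  refine pk_bS1 (mem_F_up.2 (h.hU _ y (by omega) (by omega) (by omega) (by omega))) (fun h3 => ?_) c1 c2
  have h3 := mem_F_up.1 h3
  rw [nb1] at h3
  simp only at h3
  rw [sub_add_cancel] at h3
  exact h.hR y h1 h2 h3

theorem cUR_pk_Z (h : UpM E r) {y : ℤ} (h1 : E.gu.yc + E.gu.a ≤ y) (h2 : y < E.gu.yc + E.gu.a + r) :
    sd E.Q (some true, (E.gu.x2 - 1, y)) 1 ∈ E.Z :=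
  pk_Z (cUR_pk_bS h h1 h2) (Or.inr (cUR_adj h h1 h2).1)

theorem cUR_bs_Z (hE : Thk E) (h : UpM E r) {x : ℤ} (h1 : E.gu.x2 ≤ x) (h2 : x < E.gu.x2 + r) :
    sd E.Q (none, (x, E.gu.yc + E.gu.a - 1)) 2 ∈ E.Z := by
  have hx := h.hx
  have hk := h.hk
  have ha := h.ha
  have hc := hE.1
  rw [base_Z hE (h.base (by omega) (by omega) (by omega) (by omega))]
  refine ⟨Or.inl ?_, ?_, ?_⟩
  · rw [nb2, BlkW.solid_up]
    unfold BGeo.cham
    simp only
    omega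
  · rintro ⟨h3, -⟩
    unfold upM at h3
    obtain ⟨h4, h5, h6⟩ := h3
    first
      | (revert h4; decide)
      | (simp only at h5 h6; omega)
  · rintro ⟨h3, -⟩
    unfold loM at h3
    obtain ⟨h4, h5, h6⟩ := h3
    first
      | (revert h4; decide)
      | (simp only at h5 h6; omega)

/-- **The chart at the upper right corner of the mouth.** -/
def cUR (hE : Thk E) (h : UpM E r) : WChart E.Q E.F 3 1 (E.gu.x2, E.gu.yc + E.gu.a) r where
  toPChart := cURp hE h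
  bIn := by
    intro a ha
    obtain ⟨z, h1, h2, h3⟩ := cUR_bs hE h ha
    rw [h3]
    exact (mem_Z.1 (cUR_bs_Z hE h h1 h2)).1
  bOut := by
    intro a ha
    obtain ⟨z, h1, h2, h3⟩ := cUR_pk hE h ha
    rw [h3]
    exact cUR_pk_bS h h1 h2

theorem cUR_face (hE : Thk E) (h : UpM E r) (f : ℤ × ℤ) :
    (cUR hE h).φF f = (if f.1 < E.gu.x2 ∧ E.gu.yc + E.gu.a ≤ f.2 then some true else none, f) := rfl

theorem cUR_walls (hE : Thk E) (h : UpM E r) (hρ : ρ ≤ r) : (cUR hE h).walls ρ ⊆ E.Z := by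
  intro a ha
  unfold WChart.walls at ha
  rw [Finset.mem_image] at ha
  obtain ⟨s, hs, rfl⟩ := ha
  rcases Finset.mem_union.1 hs with hs | hs
  · obtain ⟨z, h1, h2, h3⟩ := cUR_bs hE h (wIn_mono hρ hs)
    change (cURp hE h).side s ∈ _
    rw [h3]
    exact cUR_bs_Z hE h h1 h2
  · obtain ⟨z, h1, h2, h3⟩ := cUR_pk hE h (wOut_mono hρ hs)
    change (cURp hE h).side s ∈ _
    rw [h3]
    exact cUR_pk_Z h h1 h2

theorem cUR_bs_psi (hE : Thk E) (h : UpM E r) {x : ℤ} (h1 : E.gu.x2 ≤ x) (h2 : x < E.gu.x2 + r)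
    {mu' ρu ml ρl : ℝ} {ψu ψl : (ℤ × ℤ) × (ℤ × ℤ) → ℝ} :
    E.psi mu' ρu ml ρl ψu ψl (sd E.Q (none, (x, E.gu.yc + E.gu.a - 1)) 2) = ρu - Real.pi / 12 := by
  have hx := h.hx
  have hk := h.hk
  have ha := h.ha
  have hb : (x, E.gu.yc + E.gu.a - 1) ∈ E.base := h.base (by omega) (by omega) (by omega) (by omega)
  rw [psi_up hE hb (by simp only; omega), ph_up2, Hst2 h1 (by omega) (by omega)]
  unfold cst
  ring

theorem cUR_jump (hE : Thk E) (h : UpM E r) {mu' ρu ml ρl : ℝ} {ψu ψl : (ℤ × ℤ) × (ℤ × ℤ) → ℝ}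
    (hψ : ∀ y : ℤ, E.gu.yc + E.gu.a ≤ y → y < E.gu.yc + E.gu.a + r → ψu (sd ZQ (E.gu.x2 - 1, y) 1) = ρu) :
    (cUR hE h).Jump (E.psi mu' ρu ml ρl ψu ψl) 0 := by
  refine ⟨ρu - Real.pi / 12, ρu, fun a ha => ?_, fun a ha => ?_, by push_cast; ring⟩
  · obtain ⟨z, h1, h2, h3⟩ := cUR_bs hE h ha
    change E.psi _ _ _ _ _ _ ((cURp hE h).side a) = _
    rw [h3, cUR_bs_psi hE h h1 h2]
  · obtain ⟨z, h1, h2, h3⟩ := cUR_pk hE h ha
    change E.psi _ _ _ _ _ _ ((cURp hE h).side a) = _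
    rw [h3, pk_psi_up (Or.inr (cUR_adj h h1 h2).1), hψ z h1 h2]

end UR

section UL

variable {r ρ : ℕ}

/-- the faces around the upper left corner of the mouth -/
def cULp (hE : Thk E) (h : UpM E r) : PChart E.Q E.F (Wdg 3 2 (E.gu.x1, E.gu.yc + E.gu.a) r) :=
  pkP hE true _ (fun f => E.gu.x1 ≤ f.1 ∧ E.gu.yc + E.gu.a ≤ f.2)
    (fun w => E.gu.x1 ≤ w.1 ∧ E.gu.yc + E.gu.a < w.2)
    (by
      rintro ⟨x, y⟩ hf hp
      rw [mem_w32] at hf
      have hx := h.hx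
      simp only at hf hp
      exact mem_F_up.2 (h.hU x y (by omega) (by omega) (by omega) (by omega)))
    (by
      rintro ⟨x, y⟩ hf hp
      rw [mem_w32] at hf
      have hx := h.hx
      simp only at hf hp
      exact h.base (by omega) (by omega) (by omega) (by omega))
    (by
      rintro ⟨x, y⟩ hf hp k
      rw [mem_w32] at hf
      have hx := h.hx
      rw [adj_up]
      simp only at hf hp
      rcases k4 k with rfl | rfl | rfl | rfl
      · change _ ↔ ¬ (_ ≤ x ∧ _ < y)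
        simp only [true_or, and_true]
        omega
      · change _ ↔ ¬ (_ ≤ x + 1 ∧ _ < y)
        simp only [or_true, and_true]
        omega
      · change _ ↔ ¬ (_ ≤ x + 1 ∧ _ < y + 1)
        simp only [show ¬ ((2 : ZMod 4) = 0 ∨ (2 : ZMod 4) = 1) by decide, and_false, false_iff]
        omega
      · change _ ↔ ¬ (_ ≤ x ∧ _ < y + 1)
        simp only [show ¬ ((3 : ZMod 4) = 0 ∨ (3 : ZMod 4) = 1) by decide, and_false, false_iff]
        omega)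
    (by
      rintro ⟨x, y⟩ hf hp k
      rw [mem_w32] at hf
      simp only at hf hp
      rcases k4 k with rfl | rfl | rfl | rfl
      · change ¬ (_ ≤ x ∧ _ < y)
        omega
      · change ¬ (_ ≤ x + 1 ∧ _ < y)
        omega
      · change ¬ (_ ≤ x + 1 ∧ _ < y + 1)
        omega
      · change ¬ (_ ≤ x ∧ _ < y + 1)
        omega)

theorem cUL_pk (hE : Thk E) (h : UpM E r) {a : (ℤ × ℤ) × (ℤ × ℤ)}
    (ha : a ∈ wIn 1 (E.gu.x1, E.gu.yc + E.gu.a) r) : ∃ y : ℤ, E.gu.yc + E.gu.a ≤ y ∧ y < E.gu.yc + E.gu.a + r ∧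
      (cULp hE h).side a = sd E.Q (some true, (E.gu.x1, y)) 3 := by
  obtain ⟨y, h1, h2, rfl⟩ := mem_wIn1.1 ha
  refine ⟨y, h1, h2, ?_⟩
  have hf : (E.gu.x1, y) ∈ Wdg 3 2 (E.gu.x1, E.gu.yc + E.gu.a) r := by
    have h3 : 0 < r := by
      simp only at h1 h2
      omega
    rw [mem_w32]
    simp only at h1 h2 ⊢
    omega
  rw [(cULp hE h).side_sdR hf]
  change sd E.Q (if _ then some true else none, _) 3 = _
  rw [if_pos]
  simp only at h1 h2 ⊢
  omega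

theorem cUL_bs (hE : Thk E) (h : UpM E r) {a : (ℤ × ℤ) × (ℤ × ℤ)}
    (ha : a ∈ wOut 2 (E.gu.x1, E.gu.yc + E.gu.a) r) : ∃ x : ℤ, E.gu.x1 - r ≤ x ∧ x < E.gu.x1 ∧
      (cULp hE h).side a = sd E.Q (none, (x, E.gu.yc + E.gu.a - 1)) 2 := by
  obtain ⟨x, h1, h2, rfl⟩ := mem_wOut2.1 ha
  refine ⟨x, h1, h2, ?_⟩
  have hf : (x, E.gu.yc + E.gu.a - 1) ∈ Wdg 3 2 (E.gu.x1, E.gu.yc + E.gu.a) r := by
    have h3 : 0 < r := by
      simp only at h1 h2
      omega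
    rw [mem_w32]
    simp only at h1 h2 ⊢
    omega
  rw [(cULp hE h).side_sdR hf]
  change sd E.Q (if _ then some true else none, _) 2 = _
  rw [if_neg]
  simp only at h1 h2 ⊢
  omega

theorem cUL_adj (h : UpM E r) {y : ℤ} (h1 : E.gu.yc + E.gu.a ≤ y) (h2 : y < E.gu.yc + E.gu.a + r) :
    (¬ (mu E true).adj (E.gu.x1, y) 3) ∧ ∀ j, ¬ (mu E j).adj (E.gu.x1 - 1, y) 2 := by
  have hd := h.hd
  refine ⟨?_, ?_⟩
  · rw [adj_up]
    rintro ⟨-, -, h3⟩
    revert h3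
    decide
  · intro j
    cases j
    · rw [adj_lo]
      rintro ⟨-, h3, h4⟩
      first
        | (revert h4; decide)
        | (simp only at h3; omega)
    · rw [adj_up]
      rintro ⟨-, h3, h4⟩
      first
        | (revert h4; decide)
        | (simp only at h3; omega)

theorem cUL_pk_bS (h : UpM E r) {y : ℤ} (h1 : E.gu.yc + E.gu.a ≤ y) (h2 : y < E.gu.yc + E.gu.a + r) :
    sd E.Q (some true, (E.gu.x1, y)) 3 ∈ bS E.Q E.F := by
  have hx := h.hx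
  obtain ⟨c1, c2⟩ := cUL_adj h h1 h2
  have h0 : 0 < r := by omega
  refine pk_bS2 (mem_F_up.2 (h.hU _ y (by omega) (by omega) (by omega) (by omega))) (fun h3 => ?_) c1 c2
  have h3 := mem_F_up.1 h3
  rw [nb3] at h3
  simp only at h3
  exact h.hL y h1 h2 h3

theorem cUL_pk_Z (h : UpM E r) {y : ℤ} (h1 : E.gu.yc + E.gu.a ≤ y) (h2 : y < E.gu.yc + E.gu.a + r) :
    sd E.Q (some true, (E.gu.x1, y)) 3 ∈ E.Z :=
  pk_Z (cUL_pk_bS h h1 h2) (Or.inl (cUL_adj h h1 h2).1)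

theorem cUL_bs_Z (hE : Thk E) (h : UpM E r) {x : ℤ} (h1 : E.gu.x1 - r ≤ x) (h2 : x < E.gu.x1) :
    sd E.Q (none, (x, E.gu.yc + E.gu.a - 1)) 2 ∈ E.Z := by
  have hx := h.hx
  have hk := h.hk
  have ha := h.ha
  have hc := hE.1
  rw [base_Z hE (h.base (by omega) (by omega) (by omega) (by omega))]
  refine ⟨Or.inl ?_, ?_, ?_⟩
  · rw [nb2, BlkW.solid_up]
    unfold BGeo.cham
    simp only
    omega
  · rintro ⟨h3, -⟩
    unfold upM at h3
    obtain ⟨h4, h5, h6⟩ := h3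
    first
      | (revert h4; decide)
      | (simp only at h5 h6; omega)
  · rintro ⟨h3, -⟩
    unfold loM at h3
    obtain ⟨h4, h5, h6⟩ := h3
    first
      | (revert h4; decide)
      | (simp only at h5 h6; omega)

/-- **The chart at the upper left corner of the mouth.** -/
def cUL (hE : Thk E) (h : UpM E r) : WChart E.Q E.F 3 2 (E.gu.x1, E.gu.yc + E.gu.a) r where
  toPChart := cULp hE h
  bIn := by
    intro a ha
    obtain ⟨z, h1, h2, h3⟩ := cUL_pk hE h ha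
    rw [h3]
    exact cUL_pk_bS h h1 h2
  bOut := by
    intro a ha
    obtain ⟨z, h1, h2, h3⟩ := cUL_bs hE h ha
    rw [h3]
    exact (mem_Z.1 (cUL_bs_Z hE h h1 h2)).1

theorem cUL_face (hE : Thk E) (h : UpM E r) (f : ℤ × ℤ) :
    (cUL hE h).φF f = (if E.gu.x1 ≤ f.1 ∧ E.gu.yc + E.gu.a ≤ f.2 then some true else none, f) := rfl

theorem cUL_walls (hE : Thk E) (h : UpM E r) (hρ : ρ ≤ r) : (cUL hE h).walls ρ ⊆ E.Z := by
  intro a ha
  unfold WChart.walls at ha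
  rw [Finset.mem_image] at ha
  obtain ⟨s, hs, rfl⟩ := ha
  rcases Finset.mem_union.1 hs with hs | hs
  · obtain ⟨z, h1, h2, h3⟩ := cUL_pk hE h (wIn_mono hρ hs)
    change (cULp hE h).side s ∈ _
    rw [h3]
    exact cUL_pk_Z h h1 h2
  · obtain ⟨z, h1, h2, h3⟩ := cUL_bs hE h (wOut_mono hρ hs)
    change (cULp hE h).side s ∈ _
    rw [h3]
    exact cUL_bs_Z hE h h1 h2

theorem cUL_bs_psi (hE : Thk E) (h : UpM E r) {x : ℤ} (h1 : E.gu.x1 - r ≤ x) (h2 : x < E.gu.x1)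
    {mu' ρu ml ρl : ℝ} {ψu ψl : (ℤ × ℤ) × (ℤ × ℤ) → ℝ} :
    E.psi mu' ρu ml ρl ψu ψl (sd E.Q (none, (x, E.gu.yc + E.gu.a - 1)) 2) = ρu + mu' - Real.pi / 12 := by
  have hx := h.hx
  have hk := h.hk
  have ha := h.ha
  have hb : (x, E.gu.yc + E.gu.a - 1) ∈ E.base := h.base (by omega) (by omega) (by omega) (by omega)
  rw [psi_up hE hb (by simp only; omega), ph_up2, Hst3 (by omega) (by omega)]
  unfold cst
  ring

theorem cUL_jump (hE : Thk E) (h : UpM E r) {mu' ρu ml ρl : ℝ} {ψu ψl : (ℤ × ℤ) × (ℤ × ℤ) → ℝ}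
    (hψ : ∀ y : ℤ, E.gu.yc + E.gu.a ≤ y → y < E.gu.yc + E.gu.a + r → ψu (sd ZQ (E.gu.x1, y) 3) = ρu + mu' - Real.pi / 6) :
    (cUL hE h).Jump (E.psi mu' ρu ml ρl ψu ψl) 0 := by
  refine ⟨ρu + mu' - Real.pi / 6, ρu + mu' - Real.pi / 12, fun a ha => ?_, fun a ha => ?_, by push_cast; ring⟩
  · obtain ⟨z, h1, h2, h3⟩ := cUL_pk hE h ha
    change E.psi _ _ _ _ _ _ ((cULp hE h).side a) = _
    rw [h3, pk_psi_up (Or.inl (cUL_adj h h1 h2).1), hψ z h1 h2]
  · obtain ⟨z, h1, h2, h3⟩ := cUL_bs hE h ha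
    change E.psi _ _ _ _ _ _ ((cULp hE h).side a) = _
    rw [h3, cUL_bs_psi hE h h1 h2]

end UL

section LL

variable {r ρ : ℕ}

/-- the faces around the lower left corner of the mouth -/
def cLLp (hE : Thk E) (h : LoM E r) : PChart E.Q E.F (Wdg 3 3 (E.gd.x1, E.gd.yc - E.gd.a) r) :=
  pkP hE false _ (fun f => E.gd.x1 ≤ f.1 ∧ f.2 < E.gd.yc - E.gd.a)
    (fun w => E.gd.x1 ≤ w.1 ∧ w.2 < E.gd.yc - E.gd.a)
    (by
      rintro ⟨x, y⟩ hf hp
      rw [mem_w33] at hf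
      have hx := h.hx
      simp only at hf hp
      exact mem_F_lo.2 (h.hL x y (by omega) (by omega) (by omega) (by omega)))
    (by
      rintro ⟨x, y⟩ hf hp
      rw [mem_w33] at hf
      have hx := h.hx
      simp only at hf hp
      exact h.base (by omega) (by omega) (by omega) (by omega))
    (by
      rintro ⟨x, y⟩ hf hp k
      rw [mem_w33] at hf
      have hx := h.hx
      rw [adj_lo]
      simp only at hf hp
      rcases k4 k with rfl | rfl | rfl | rfl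
      · change _ ↔ ¬ (_ ≤ x ∧ y < _)
        simp only [show ¬ ((0 : ZMod 4) = 2 ∨ (0 : ZMod 4) = 3) by decide, and_false, false_iff]
        omega
      · change _ ↔ ¬ (_ ≤ x + 1 ∧ y < _)
        simp only [show ¬ ((1 : ZMod 4) = 2 ∨ (1 : ZMod 4) = 3) by decide, and_false, false_iff]
        omega
      · change _ ↔ ¬ (_ ≤ x + 1 ∧ y + 1 < _)
        simp only [true_or, and_true]
        omega
      · change _ ↔ ¬ (_ ≤ x ∧ y + 1 < _)
        simp only [or_true, and_true]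
        omega)
    (by
      rintro ⟨x, y⟩ hf hp k
      rw [mem_w33] at hf
      simp only at hf hp
      rcases k4 k with rfl | rfl | rfl | rfl
      · change ¬ (_ ≤ x ∧ y < _)
        omega
      · change ¬ (_ ≤ x + 1 ∧ y < _)
        omega
      · change ¬ (_ ≤ x + 1 ∧ y + 1 < _)
        omega
      · change ¬ (_ ≤ x ∧ y + 1 < _)
        omega)

theorem cLL_pk (hE : Thk E) (h : LoM E r) {a : (ℤ × ℤ) × (ℤ × ℤ)}
    (ha : a ∈ wOut 3 (E.gd.x1, E.gd.yc - E.gd.a) r) : ∃ y : ℤ, E.gd.yc - E.gd.a - r ≤ y ∧ y < E.gd.yc - E.gd.a ∧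
      (cLLp hE h).side a = sd E.Q (some false, (E.gd.x1, y)) 3 := by
  obtain ⟨y, h1, h2, rfl⟩ := mem_wOut3.1 ha
  refine ⟨y, h1, h2, ?_⟩
  have hf : (E.gd.x1, y) ∈ Wdg 3 3 (E.gd.x1, E.gd.yc - E.gd.a) r := by
    have h3 : 0 < r := by
      simp only at h1 h2
      omega
    rw [mem_w33]
    simp only at h1 h2 ⊢
    omega
  rw [(cLLp hE h).side_sdR hf]
  change sd E.Q (if _ then some false else none, _) 3 = _
  rw [if_pos]
  simp only at h1 h2 ⊢
  omega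

theorem cLL_bs (hE : Thk E) (h : LoM E r) {a : (ℤ × ℤ) × (ℤ × ℤ)}
    (ha : a ∈ wIn 2 (E.gd.x1, E.gd.yc - E.gd.a) r) : ∃ x : ℤ, E.gd.x1 - r ≤ x ∧ x < E.gd.x1 ∧
      (cLLp hE h).side a = sd E.Q (none, (x, E.gd.yc - E.gd.a)) 0 := by
  obtain ⟨x, h1, h2, rfl⟩ := mem_wIn2.1 ha
  refine ⟨x, h1, h2, ?_⟩
  have hf : (x, E.gd.yc - E.gd.a) ∈ Wdg 3 3 (E.gd.x1, E.gd.yc - E.gd.a) r := by
    have h3 : 0 < r := by
      simp only at h1 h2
      omega
    rw [mem_w33]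
    simp only at h1 h2 ⊢
    omega
  rw [(cLLp hE h).side_sdR hf]
  change sd E.Q (if _ then some false else none, _) 0 = _
  rw [if_neg]
  simp only at h1 h2 ⊢
  omega

theorem cLL_adj (h : LoM E r) {y : ℤ} (h1 : E.gd.yc - E.gd.a - r ≤ y) (h2 : y < E.gd.yc - E.gd.a) :
    (¬ (mu E false).adj (E.gd.x1, y) 0) ∧ ∀ j, ¬ (mu E j).adj (E.gd.x1 - 1, y) 1 := by
  have hd := h.hd
  refine ⟨?_, ?_⟩
  · rw [adj_lo]
    rintro ⟨-, -, h3⟩
    revert h3
    decide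
  · intro j
    cases j
    · rw [adj_lo]
      rintro ⟨-, h3, h4⟩
      first
        | (revert h4; decide)
        | (simp only at h3; omega)
    · rw [adj_up]
      rintro ⟨-, h3, h4⟩
      first
        | (revert h4; decide)
        | (simp only at h3; omega)

theorem cLL_pk_bS (h : LoM E r) {y : ℤ} (h1 : E.gd.yc - E.gd.a - r ≤ y) (h2 : y < E.gd.yc - E.gd.a) :
    sd E.Q (some false, (E.gd.x1, y)) 3 ∈ bS E.Q E.F := by
  have hx := h.hx
  obtain ⟨c1, c2⟩ := cLL_adj h h1 h2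
  have h0 : 0 < r := by omega
  refine pk_bS1 (mem_F_lo.2 (h.hL _ y (by omega) (by omega) (by omega) (by omega))) (fun h3 => ?_) c1 c2
  have h3 := mem_F_lo.1 h3
  rw [nb3] at h3
  simp only at h3
  exact h.hLl y h1 h2 h3

theorem cLL_pk_Z (h : LoM E r) {y : ℤ} (h1 : E.gd.yc - E.gd.a - r ≤ y) (h2 : y < E.gd.yc - E.gd.a) :
    sd E.Q (some false, (E.gd.x1, y)) 3 ∈ E.Z :=
  pk_Z (cLL_pk_bS h h1 h2) (Or.inr (cLL_adj h h1 h2).1)

theorem cLL_bs_Z (hE : Thk E) (h : LoM E r) {x : ℤ} (h1 : E.gd.x1 - r ≤ x) (h2 : x < E.gd.x1) :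
    sd E.Q (none, (x, E.gd.yc - E.gd.a)) 0 ∈ E.Z := by
  have hx := h.hx
  have hk := h.hk
  have ha := h.ha
  have hc := hE.2
  rw [base_Z hE (h.base (by omega) (by omega) (by omega) (by omega))]
  refine ⟨Or.inr ?_, ?_, ?_⟩
  · rw [nb0, BlkW.solid_lo]
    unfold BGeo.cham
    simp only
    omega
  · rintro ⟨h3, -⟩
    unfold upM at h3
    obtain ⟨h4, h5, h6⟩ := h3
    first
      | (revert h4; decide)
      | (simp only at h5 h6; omega)
  · rintro ⟨h3, -⟩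
    unfold loM at h3
    obtain ⟨h4, h5, h6⟩ := h3
    first
      | (revert h4; decide)
      | (simp only at h5 h6; omega)

/-- **The chart at the lower left corner of the mouth.** -/
def cLL (hE : Thk E) (h : LoM E r) : WChart E.Q E.F 3 3 (E.gd.x1, E.gd.yc - E.gd.a) r where
  toPChart := cLLp hE h
  bIn := by
    intro a ha
    obtain ⟨z, h1, h2, h3⟩ := cLL_bs hE h ha
    rw [h3]
    exact (mem_Z.1 (cLL_bs_Z hE h h1 h2)).1
  bOut := by
    intro a ha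
    obtain ⟨z, h1, h2, h3⟩ := cLL_pk hE h ha
    rw [h3]
    exact cLL_pk_bS h h1 h2

theorem cLL_face (hE : Thk E) (h : LoM E r) (f : ℤ × ℤ) :
    (cLL hE h).φF f = (if E.gd.x1 ≤ f.1 ∧ f.2 < E.gd.yc - E.gd.a then some false else none, f) := rfl

theorem cLL_walls (hE : Thk E) (h : LoM E r) (hρ : ρ ≤ r) : (cLL hE h).walls ρ ⊆ E.Z := by
  intro a ha
  unfold WChart.walls at ha
  rw [Finset.mem_image] at ha
  obtain ⟨s, hs, rfl⟩ := ha
  rcases Finset.mem_union.1 hs with hs | hs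
  · obtain ⟨z, h1, h2, h3⟩ := cLL_bs hE h (wIn_mono hρ hs)
    change (cLLp hE h).side s ∈ _
    rw [h3]
    exact cLL_bs_Z hE h h1 h2
  · obtain ⟨z, h1, h2, h3⟩ := cLL_pk hE h (wOut_mono hρ hs)
    change (cLLp hE h).side s ∈ _
    rw [h3]
    exact cLL_pk_Z h h1 h2

theorem cLL_bs_psi (hE : Thk E) (h : LoM E r) {x : ℤ} (h1 : E.gd.x1 - r ≤ x) (h2 : x < E.gd.x1)
    {mu' ρu ml ρl : ℝ} {ψu ψl : (ℤ × ℤ) × (ℤ × ℤ) → ℝ} :
    E.psi mu' ρu ml ρl ψu ψl (sd E.Q (none, (x, E.gd.yc - E.gd.a)) 0) = ρl - Real.pi / 12 := by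
  have hx := h.hx
  have hk := h.hk
  have ha := h.ha
  have hb : (x, E.gd.yc - E.gd.a) ∈ E.base := h.base (by omega) (by omega) (by omega) (by omega)
  have hy := h.hy
  rw [psi_lo hE hb (by simp only; omega) (by decide), ph_lo0, Hst2 (by unfold rx; omega) (by unfold rx; omega) (by omega)]
  unfold cst
  ring

theorem cLL_jump (hE : Thk E) (h : LoM E r) {mu' ρu ml ρl : ℝ} {ψu ψl : (ℤ × ℤ) × (ℤ × ℤ) → ℝ}
    (hψ : ∀ y : ℤ, E.gd.yc - E.gd.a - r ≤ y → y < E.gd.yc - E.gd.a → ψl (sd ZQ (E.gd.x1, y) 3) = ρl) :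
    (cLL hE h).Jump (E.psi mu' ρu ml ρl ψu ψl) 0 := by
  refine ⟨ρl - Real.pi / 12, ρl, fun a ha => ?_, fun a ha => ?_, by push_cast; ring⟩
  · obtain ⟨z, h1, h2, h3⟩ := cLL_bs hE h ha
    change E.psi _ _ _ _ _ _ ((cLLp hE h).side a) = _
    rw [h3, cLL_bs_psi hE h h1 h2]
  · obtain ⟨z, h1, h2, h3⟩ := cLL_pk hE h ha
    change E.psi _ _ _ _ _ _ ((cLLp hE h).side a) = _
    rw [h3, pk_psi_lo (Or.inr (cLL_adj h h1 h2).1), hψ z h1 h2]

end LL

section LR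

variable {r ρ : ℕ}

/-- the faces around the lower right corner of the mouth -/
def cLRp (hE : Thk E) (h : LoM E r) : PChart E.Q E.F (Wdg 3 0 (E.gd.x2, E.gd.yc - E.gd.a) r) :=
  pkP hE false _ (fun f => f.1 < E.gd.x2 ∧ f.2 < E.gd.yc - E.gd.a)
    (fun w => w.1 ≤ E.gd.x2 ∧ w.2 < E.gd.yc - E.gd.a)
    (by
      rintro ⟨x, y⟩ hf hp
      rw [mem_w30] at hf
      have hx := h.hx
      simp only at hf hp
      exact mem_F_lo.2 (h.hL x y (by omega) (by omega) (by omega) (by omega)))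
    (by
      rintro ⟨x, y⟩ hf hp
      rw [mem_w30] at hf
      have hx := h.hx
      simp only at hf hp
      exact h.base (by omega) (by omega) (by omega) (by omega))
    (by
      rintro ⟨x, y⟩ hf hp k
      rw [mem_w30] at hf
      have hx := h.hx
      rw [adj_lo]
      simp only at hf hp
      rcases k4 k with rfl | rfl | rfl | rfl
      · change _ ↔ ¬ (x ≤ _ ∧ y < _)
        simp only [show ¬ ((0 : ZMod 4) = 2 ∨ (0 : ZMod 4) = 3) by decide, and_false, false_iff]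
        omega
      · change _ ↔ ¬ (x + 1 ≤ _ ∧ y < _)
        simp only [show ¬ ((1 : ZMod 4) = 2 ∨ (1 : ZMod 4) = 3) by decide, and_false, false_iff]
        omega
      · change _ ↔ ¬ (x + 1 ≤ _ ∧ y + 1 < _)
        simp only [true_or, and_true]
        omega
      · change _ ↔ ¬ (x ≤ _ ∧ y + 1 < _)
        simp only [or_true, and_true]
        omega)
    (by
      rintro ⟨x, y⟩ hf hp k
      rw [mem_w30] at hf
      simp only at hf hp
      rcases k4 k with rfl | rfl | rfl | rfl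
      · change ¬ (x ≤ _ ∧ y < _)
        omega
      · change ¬ (x + 1 ≤ _ ∧ y < _)
        omega
      · change ¬ (x + 1 ≤ _ ∧ y + 1 < _)
        omega
      · change ¬ (x ≤ _ ∧ y + 1 < _)
        omega)

theorem cLR_pk (hE : Thk E) (h : LoM E r) {a : (ℤ × ℤ) × (ℤ × ℤ)}
    (ha : a ∈ wIn 3 (E.gd.x2, E.gd.yc - E.gd.a) r) : ∃ y : ℤ, E.gd.yc - E.gd.a - r ≤ y ∧ y < E.gd.yc - E.gd.a ∧
      (cLRp hE h).side a = sd E.Q (some false, (E.gd.x2 - 1, y)) 1 := by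
  obtain ⟨y, h1, h2, rfl⟩ := mem_wIn3.1 ha
  refine ⟨y, h1, h2, ?_⟩
  have hf : (E.gd.x2 - 1, y) ∈ Wdg 3 0 (E.gd.x2, E.gd.yc - E.gd.a) r := by
    have h3 : 0 < r := by
      simp only at h1 h2
      omega
    rw [mem_w30]
    simp only at h1 h2 ⊢
    omega
  rw [(cLRp hE h).side_sdR hf]
  change sd E.Q (if _ then some false else none, _) 1 = _
  rw [if_pos]
  simp only at h1 h2 ⊢
  omega

theorem cLR_bs (hE : Thk E) (h : LoM E r) {a : (ℤ × ℤ) × (ℤ × ℤ)}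
    (ha : a ∈ wOut 0 (E.gd.x2, E.gd.yc - E.gd.a) r) : ∃ x : ℤ, E.gd.x2 ≤ x ∧ x < E.gd.x2 + r ∧
      (cLRp hE h).side a = sd E.Q (none, (x, E.gd.yc - E.gd.a)) 0 := by
  obtain ⟨x, h1, h2, rfl⟩ := mem_wOut0.1 ha
  refine ⟨x, h1, h2, ?_⟩
  have hf : (x, E.gd.yc - E.gd.a) ∈ Wdg 3 0 (E.gd.x2, E.gd.yc - E.gd.a) r := by
    have h3 : 0 < r := by
      simp only at h1 h2
      omega
    rw [mem_w30]
    simp only at h1 h2 ⊢
    omega
  rw [(cLRp hE h).side_sdR hf]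
  change sd E.Q (if _ then some false else none, _) 0 = _
  rw [if_neg]
  simp only at h1 h2 ⊢
  omega

theorem cLR_adj (h : LoM E r) {y : ℤ} (h1 : E.gd.yc - E.gd.a - r ≤ y) (h2 : y < E.gd.yc - E.gd.a) :
    (¬ (mu E false).adj (E.gd.x2 - 1, y) 1) ∧ ∀ j, ¬ (mu E j).adj (E.gd.x2 - 1 + 1, y) 0 := by
  have hd := h.hd
  refine ⟨?_, ?_⟩
  · rw [adj_lo]
    rintro ⟨-, -, h3⟩
    revert h3
    decide
  · intro j
    cases j
    · rw [adj_lo]
      rintro ⟨-, h3, h4⟩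
      first
        | (revert h4; decide)
        | (simp only at h3; omega)
    · rw [adj_up]
      rintro ⟨-, h3, h4⟩
      first
        | (revert h4; decide)
        | (simp only at h3; omega)

theorem cLR_pk_bS (h : LoM E r) {y : ℤ} (h1 : E.gd.yc - E.gd.a - r ≤ y) (h2 : y < E.gd.yc - E.gd.a) :
    sd E.Q (some false, (E.gd.x2 - 1, y)) 1 ∈ bS E.Q E.F := by
  have hx := h.hx
  obtain ⟨c1, c2⟩ := cLR_adj h h1 h2
  have h0 : 0 < r := by omega
  refine pk_bS2 (mem_F_lo.2 (h.hL _ y (by omega) (by omega) (by omega) (by omega))) (fun h3 => ?_) c1 c2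
  have h3 := mem_F_lo.1 h3
  rw [nb1] at h3
  simp only at h3
  rw [sub_add_cancel] at h3
  exact h.hR y h1 h2 h3

theorem cLR_pk_Z (h : LoM E r) {y : ℤ} (h1 : E.gd.yc - E.gd.a - r ≤ y) (h2 : y < E.gd.yc - E.gd.a) :
    sd E.Q (some false, (E.gd.x2 - 1, y)) 1 ∈ E.Z :=
  pk_Z (cLR_pk_bS h h1 h2) (Or.inl (cLR_adj h h1 h2).1)

theorem cLR_bs_Z (hE : Thk E) (h : LoM E r) {x : ℤ} (h1 : E.gd.x2 ≤ x) (h2 : x < E.gd.x2 + r) :
    sd E.Q (none, (x, E.gd.yc - E.gd.a)) 0 ∈ E.Z := by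
  have hx := h.hx
  have hk := h.hk
  have ha := h.ha
  have hc := hE.2
  rw [base_Z hE (h.base (by omega) (by omega) (by omega) (by omega))]
  refine ⟨Or.inr ?_, ?_, ?_⟩
  · rw [nb0, BlkW.solid_lo]
    unfold BGeo.cham
    simp only
    omega
  · rintro ⟨h3, -⟩
    unfold upM at h3
    obtain ⟨h4, h5, h6⟩ := h3
    first
      | (revert h4; decide)
      | (simp only at h5 h6; omega)
  · rintro ⟨h3, -⟩
    unfold loM at h3
    obtain ⟨h4, h5, h6⟩ := h3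
    first
      | (revert h4; decide)
      | (simp only at h5 h6; omega)

/-- **The chart at the lower right corner of the mouth.** -/
def cLR (hE : Thk E) (h : LoM E r) : WChart E.Q E.F 3 0 (E.gd.x2, E.gd.yc - E.gd.a) r where
  toPChart := cLRp hE h
  bIn := by
    intro a ha
    obtain ⟨z, h1, h2, h3⟩ := cLR_pk hE h ha
    rw [h3]
    exact cLR_pk_bS h h1 h2
  bOut := by
    intro a ha
    obtain ⟨z, h1, h2, h3⟩ := cLR_bs hE h ha
    rw [h3]
    exact (mem_Z.1 (cLR_bs_Z hE h h1 h2)).1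

theorem cLR_face (hE : Thk E) (h : LoM E r) (f : ℤ × ℤ) :
    (cLR hE h).φF f = (if f.1 < E.gd.x2 ∧ f.2 < E.gd.yc - E.gd.a then some false else none, f) := rfl

theorem cLR_walls (hE : Thk E) (h : LoM E r) (hρ : ρ ≤ r) : (cLR hE h).walls ρ ⊆ E.Z := by
  intro a ha
  unfold WChart.walls at ha
  rw [Finset.mem_image] at ha
  obtain ⟨s, hs, rfl⟩ := ha
  rcases Finset.mem_union.1 hs with hs | hs
  · obtain ⟨z, h1, h2, h3⟩ := cLR_pk hE h (wIn_mono hρ hs)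
    change (cLRp hE h).side s ∈ _
    rw [h3]
    exact cLR_pk_Z h h1 h2
  · obtain ⟨z, h1, h2, h3⟩ := cLR_bs hE h (wOut_mono hρ hs)
    change (cLRp hE h).side s ∈ _
    rw [h3]
    exact cLR_bs_Z hE h h1 h2

theorem cLR_bs_psi (hE : Thk E) (h : LoM E r) {x : ℤ} (h1 : E.gd.x2 ≤ x) (h2 : x < E.gd.x2 + r)
    {mu' ρu ml ρl : ℝ} {ψu ψl : (ℤ × ℤ) × (ℤ × ℤ) → ℝ} :
    E.psi mu' ρu ml ρl ψu ψl (sd E.Q (none, (x, E.gd.yc - E.gd.a)) 0) = ρl + ml - Real.pi / 12 := by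
  have hx := h.hx
  have hk := h.hk
  have ha := h.ha
  have hb : (x, E.gd.yc - E.gd.a) ∈ E.base := h.base (by omega) (by omega) (by omega) (by omega)
  have hy := h.hy
  rw [psi_lo hE hb (by simp only; omega) (by decide), ph_lo0, Hst3 (by unfold rx; omega) (by unfold rx; omega)]
  unfold cst
  ring

theorem cLR_jump (hE : Thk E) (h : LoM E r) {mu' ρu ml ρl : ℝ} {ψu ψl : (ℤ × ℤ) × (ℤ × ℤ) → ℝ}
    (hψ : ∀ y : ℤ, E.gd.yc - E.gd.a - r ≤ y → y < E.gd.yc - E.gd.a → ψl (sd ZQ (E.gd.x2 - 1, y) 1) = ρl + ml - Real.pi / 6) :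
    (cLR hE h).Jump (E.psi mu' ρu ml ρl ψu ψl) 0 := by
  refine ⟨ρl + ml - Real.pi / 6, ρl + ml - Real.pi / 12, fun a ha => ?_, fun a ha => ?_, by push_cast; ring⟩
  · obtain ⟨z, h1, h2, h3⟩ := cLR_pk hE h ha
    change E.psi _ _ _ _ _ _ ((cLRp hE h).side a) = _
    rw [h3, pk_psi_lo (Or.inl (cLR_adj h h1 h2).1), hψ z h1 h2]
  · obtain ⟨z, h1, h2, h3⟩ := cLR_bs hE h ha
    change E.psi _ _ _ _ _ _ ((cLRp hE h).side a) = _
    rw [h3, cLR_bs_psi hE h h1 h2]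

end LR

end

end Pool.Agent.SixB.EnvB
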