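import Pool.Agent.Lib.SixB.S3BlkU
import Pool.Agent.Lib.SixB.S3BlkL

/-!
# 6BD step 3: the charts of the blocks at the height of the slab

`UpA E r`, `LoA E r`: hypotheses for charts of radius `r ≤ a` at the upper and lower block. Vertices 2, 3, 7, 8, 12, 15,
19, 20, 24, 25 of the skeleton (`m = 3`, `J = 0`; the lower block is rotated by 180 degrees) and the walls of the tubes,
pointwise. The vertices 13, 14 (mouths of the pockets) are in `S3BlkC`.
-/

set_option autoImplicit false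
set_option linter.unusedSectionVars false

namespace Pool.Agent.SixB.BlkW

open Pool.Agent.Perc.Q Pool.Agent.Perc Pool.Agent.SixB.EnvB

noncomputable section

variable {E : SEnv} {r : ℕ} {v f : ℤ × ℤ} {x y : ℤ} {m : ℕ} {o : ZMod 4}
  {mu ρu ml ρl : ℝ} {ψu ψl : (ℤ × ℤ) × (ℤ × ℤ) → ℝ}

/-! ## The upper block -/

/-- hypotheses for charts of radius `r` at the height of the slab, upper block -/
structure UpA (E : SEnv) (r : ℕ) : Prop extends UpB E r where
  ra : r ≤ E.gu.a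

theorem UpA.locW (h : UpA E r) (hm : 1 ≤ m ∧ m ≤ 3)
    (hv : (E.gu.x1 - 7 * E.gu.k ≤ v.1 ∧ v.1 + r ≤ E.gu.x1) ∨
      (E.gu.x2 ≤ v.1 - r ∧ v.1 ≤ E.gu.x2 + 7 * E.gu.k)) (hv2 : v.2 = E.gu.yc + E.gu.a)
    (hloc : ∀ f ∈ Bx v r, ¬ E.gu.solid true f ↔ f ∈ Wdg m o v r) : LocW E m o v r := by
  have h1 := h.hx
  have h2 := h.ra
  have h3 := h.rb
  have h4 := h.rc
  refine locW_up h.thk h.yc h.ad hm (fun f hf => ?_) (by omega) hloc fun f hf => ?_
  · rw [mem_Bx] at hf
    exact h.win f (by omega) (by omega) (by omega) (by omega)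
  · rintro ⟨-, h5, -⟩
    rw [mem_Wdg] at hf
    omega

theorem UpA.jump32 (hl : LocW E 3 2 v r) (hr : 0 < r) (hlow : E.gu.yc ≤ v.2 - r) {c : ℝ}
    (hc : ∀ x : ℤ, v.1 - r ≤ x → x ≤ v.1 → E.gu.Hst mu x = c) :
    hl.chart.Jump (E.psi mu ρu ml ρl ψu ψl) 0 := by
  refine hl.jump_up (p := cst mu ρu + (c - Real.pi / 12)) (q := cst mu ρu + c) hlow
    (fun a ha => ?_) (fun a ha => ?_) (by push_cast; ring)
  · obtain ⟨y, -, -, rfl⟩ := mem_wIn1.mp ha
    rw [ph_up3, hc _ (by simp only; omega) (by simp only; omega)]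
  · obtain ⟨x, h1, h2, rfl⟩ := mem_wOut2.mp ha
    rw [ph_up2, hc _ h1 (by omega)]

theorem UpA.jump31 (hl : LocW E 3 1 v r) (hr : 0 < r) (hlow : E.gu.yc ≤ v.2 - r) {c : ℝ}
    (hc : ∀ x : ℤ, v.1 - 1 ≤ x → x < v.1 + r → E.gu.Hst mu x = c) :
    hl.chart.Jump (E.psi mu ρu ml ρl ψu ψl) 0 := by
  refine hl.jump_up (p := cst mu ρu + c) (q := cst mu ρu + (c + Real.pi / 12)) hlow
    (fun a ha => ?_) (fun a ha => ?_) (by push_cast; ring)
  · obtain ⟨x, h1, h2, rfl⟩ := mem_wIn0.mp ha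
    rw [ph_up2, hc _ (by omega) h2]
  · obtain ⟨y, -, -, rfl⟩ := mem_wOut1.mp ha
    rw [ph_up1, hc _ (by simp only; omega) (by simp only; omega)]

/-- vertex 2 -/
theorem UpA.l2 (h : UpA E r) : LocW E 3 2 (E.gu.x2 + 7 * E.gu.k, E.gu.yc + E.gu.a) r := by
  have h1 := h.hx
  have h2 := h.rk
  have h3 := h.rb
  have h4 := h.rc
  have h0 := h.r0
  have ha := h.ra
  refine h.locW (by omega) (by simp only; omega) rfl fun f hf => ?_
  rw [mem_Bx] at hf
  rw [solid_up, mem_w32]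
  unfold BGeo.cham
  simp only at hf ⊢
  omega

theorem UpA.j2 (h : UpA E r) : h.l2.chart.Jump (E.psi mu ρu ml ρl ψu ψl) 0 := by
  have h1 := h.hx
  have h2 := h.rk
  have h3 := h.rb
  have h4 := h.rc
  have h0 := h.r0
  have ha := h.ra
  exact UpA.jump32 h.l2 h0 (by simp only; omega) fun x h5 h6 => by
    simp only at h5 h6
    exact Hst0 (by omega) h1

/-- vertex 3 -/
theorem UpA.l3 (h : UpA E r) : LocW E 3 1 (E.gu.x2 + 6 * E.gu.k, E.gu.yc + E.gu.a) r := by
  have h1 := h.hx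
  have h2 := h.rk
  have h3 := h.rb
  have h4 := h.rc
  have h0 := h.r0
  have ha := h.ra
  refine h.locW (by omega) (by simp only; omega) rfl fun f hf => ?_
  rw [mem_Bx] at hf
  rw [solid_up, mem_w31]
  unfold BGeo.cham
  simp only at hf ⊢
  omega

theorem UpA.j3 (h : UpA E r) : h.l3.chart.Jump (E.psi mu ρu ml ρl ψu ψl) 0 := by
  have h1 := h.hx
  have h2 := h.rk
  have h3 := h.rb
  have h4 := h.rc
  have h0 := h.r0
  have ha := h.ra
  exact UpA.jump31 h.l3 h0 (by simp only; omega) fun x h5 h6 => by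
    simp only at h5 h6
    exact Hst0 (by omega) h1

/-- vertex 7 -/
theorem UpA.l7 (h : UpA E r) : LocW E 3 2 (E.gu.x2 + 4 * E.gu.k, E.gu.yc + E.gu.a) r := by
  have h1 := h.hx
  have h2 := h.rk
  have h3 := h.rb
  have h4 := h.rc
  have h0 := h.r0
  have ha := h.ra
  refine h.locW (by omega) (by simp only; omega) rfl fun f hf => ?_
  rw [mem_Bx] at hf
  rw [solid_up, mem_w32]
  unfold BGeo.cham
  simp only at hf ⊢
  omega

theorem UpA.j7 (h : UpA E r) : h.l7.chart.Jump (E.psi mu ρu ml ρl ψu ψl) 0 := by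
  have h1 := h.hx
  have h2 := h.rk
  have h3 := h.rb
  have h4 := h.rc
  have h0 := h.r0
  have ha := h.ra
  exact UpA.jump32 h.l7 h0 (by simp only; omega) fun x h5 h6 => by
    simp only at h5 h6
    exact Hst1 (by omega) (by omega) h1

/-- vertex 8 -/
theorem UpA.l8 (h : UpA E r) : LocW E 3 1 (E.gu.x2 + 3 * E.gu.k, E.gu.yc + E.gu.a) r := by
  have h1 := h.hx
  have h2 := h.rk
  have h3 := h.rb
  have h4 := h.rc
  have h0 := h.r0
  have ha := h.ra
  refine h.locW (by omega) (by simp only; omega) rfl fun f hf => ?_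
  rw [mem_Bx] at hf
  rw [solid_up, mem_w31]
  unfold BGeo.cham
  simp only at hf ⊢
  omega

theorem UpA.j8 (h : UpA E r) : h.l8.chart.Jump (E.psi mu ρu ml ρl ψu ψl) 0 := by
  have h1 := h.hx
  have h2 := h.rk
  have h3 := h.rb
  have h4 := h.rc
  have h0 := h.r0
  have ha := h.ra
  exact UpA.jump31 h.l8 h0 (by simp only; omega) fun x h5 h6 => by
    simp only at h5 h6
    exact Hst1 (by omega) (by omega) h1

/-- vertex 12 -/
theorem UpA.l12 (h : UpA E r) : LocW E 3 2 (E.gu.x2 + E.gu.k, E.gu.yc + E.gu.a) r := by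
  have h1 := h.hx
  have h2 := h.rk
  have h3 := h.rb
  have h4 := h.rc
  have h0 := h.r0
  have ha := h.ra
  refine h.locW (by omega) (by simp only; omega) rfl fun f hf => ?_
  rw [mem_Bx] at hf
  rw [solid_up, mem_w32]
  unfold BGeo.cham
  simp only at hf ⊢
  omega

theorem UpA.j12 (h : UpA E r) : h.l12.chart.Jump (E.psi mu ρu ml ρl ψu ψl) 0 := by
  have h1 := h.hx
  have h2 := h.rk
  have h3 := h.rb
  have h4 := h.rc
  have h0 := h.r0
  have ha := h.ra
  exact UpA.jump32 h.l12 h0 (by simp only; omega) fun x h5 h6 => by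
    simp only at h5 h6
    exact Hst2 (by omega) (by omega) h1

/-- vertex 15 -/
theorem UpA.l15 (h : UpA E r) : LocW E 3 1 (E.gu.x1 - E.gu.k, E.gu.yc + E.gu.a) r := by
  have h1 := h.hx
  have h2 := h.rk
  have h3 := h.rb
  have h4 := h.rc
  have h0 := h.r0
  have ha := h.ra
  refine h.locW (by omega) (by simp only; omega) rfl fun f hf => ?_
  rw [mem_Bx] at hf
  rw [solid_up, mem_w31]
  unfold BGeo.cham
  simp only at hf ⊢
  omega

theorem UpA.j15 (h : UpA E r) : h.l15.chart.Jump (E.psi mu ρu ml ρl ψu ψl) 0 := by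
  have h1 := h.hx
  have h2 := h.rk
  have h3 := h.rb
  have h4 := h.rc
  have h0 := h.r0
  have ha := h.ra
  exact UpA.jump31 h.l15 h0 (by simp only; omega) fun x h5 h6 => by
    simp only at h5 h6
    exact Hst3 (by omega) (by omega)

/-- vertex 19 -/
theorem UpA.l19 (h : UpA E r) : LocW E 3 2 (E.gu.x1 - 3 * E.gu.k, E.gu.yc + E.gu.a) r := by
  have h1 := h.hx
  have h2 := h.rk
  have h3 := h.rb
  have h4 := h.rc
  have h0 := h.r0
  have ha := h.ra
  refine h.locW (by omega) (by simp only; omega) rfl fun f hf => ?_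
  rw [mem_Bx] at hf
  rw [solid_up, mem_w32]
  unfold BGeo.cham
  simp only at hf ⊢
  omega

theorem UpA.j19 (h : UpA E r) : h.l19.chart.Jump (E.psi mu ρu ml ρl ψu ψl) 0 := by
  have h1 := h.hx
  have h2 := h.rk
  have h3 := h.rb
  have h4 := h.rc
  have h0 := h.r0
  have ha := h.ra
  exact UpA.jump32 h.l19 h0 (by simp only; omega) fun x h5 h6 => by
    simp only at h5 h6
    exact Hst4 (by omega) (by omega) h1

/-- vertex 20 -/
theorem UpA.l20 (h : UpA E r) : LocW E 3 1 (E.gu.x1 - 4 * E.gu.k, E.gu.yc + E.gu.a) r := by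
  have h1 := h.hx
  have h2 := h.rk
  have h3 := h.rb
  have h4 := h.rc
  have h0 := h.r0
  have ha := h.ra
  refine h.locW (by omega) (by simp only; omega) rfl fun f hf => ?_
  rw [mem_Bx] at hf
  rw [solid_up, mem_w31]
  unfold BGeo.cham
  simp only at hf ⊢
  omega

theorem UpA.j20 (h : UpA E r) : h.l20.chart.Jump (E.psi mu ρu ml ρl ψu ψl) 0 := by
  have h1 := h.hx
  have h2 := h.rk
  have h3 := h.rb
  have h4 := h.rc
  have h0 := h.r0
  have ha := h.ra
  exact UpA.jump31 h.l20 h0 (by simp only; omega) fun x h5 h6 => by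
    simp only at h5 h6
    exact Hst4 (by omega) (by omega) h1

/-- vertex 24 -/
theorem UpA.l24 (h : UpA E r) : LocW E 3 2 (E.gu.x1 - 6 * E.gu.k, E.gu.yc + E.gu.a) r := by
  have h1 := h.hx
  have h2 := h.rk
  have h3 := h.rb
  have h4 := h.rc
  have h0 := h.r0
  have ha := h.ra
  refine h.locW (by omega) (by simp only; omega) rfl fun f hf => ?_
  rw [mem_Bx] at hf
  rw [solid_up, mem_w32]
  unfold BGeo.cham
  simp only at hf ⊢
  omega

theorem UpA.j24 (h : UpA E r) : h.l24.chart.Jump (E.psi mu ρu ml ρl ψu ψl) 0 := by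
  have h1 := h.hx
  have h2 := h.rk
  have h3 := h.rb
  have h4 := h.rc
  have h0 := h.r0
  have ha := h.ra
  exact UpA.jump32 h.l24 h0 (by simp only; omega) fun x h5 h6 => by
    simp only at h5 h6
    exact Hst5 (by omega) h1

/-- vertex 25 -/
theorem UpA.l25 (h : UpA E r) : LocW E 3 1 (E.gu.x1 - 7 * E.gu.k, E.gu.yc + E.gu.a) r := by
  have h1 := h.hx
  have h2 := h.rk
  have h3 := h.rb
  have h4 := h.rc
  have h0 := h.r0
  have ha := h.ra
  refine h.locW (by omega) (by simp only; omega) rfl fun f hf => ?_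
  rw [mem_Bx] at hf
  rw [solid_up, mem_w31]
  unfold BGeo.cham
  simp only at hf ⊢
  omega

theorem UpA.j25 (h : UpA E r) : h.l25.chart.Jump (E.psi mu ρu ml ρl ψu ψl) 0 := by
  have h1 := h.hx
  have h2 := h.rk
  have h3 := h.rb
  have h4 := h.rc
  have h0 := h.r0
  have ha := h.ra
  exact UpA.jump31 h.l25 h0 (by simp only; omega) fun x h5 h6 => by
    simp only at h5 h6
    exact Hst5 (by omega) h1

/-- wall of a tube after vertex 2 -/
theorem UpA.t2 (h : UpA E r) (h5 : E.gu.x2 + 6 * E.gu.k ≤ x - r) (h6 : x + r ≤ E.gu.x2 + 7 * E.gu.k) :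
    LocW E 2 2 (x, E.gu.yc + E.gu.a) r := by
  have h1 := h.hx
  have h2 := h.rk
  have h3 := h.rb
  have h4 := h.rc
  have h0 := h.r0
  have ha := h.ra
  refine h.locW (by omega) (by simp only; omega) rfl fun f hf => ?_
  rw [mem_Bx] at hf
  rw [solid_up, mem_w22]
  unfold BGeo.cham
  simp only at hf ⊢
  omega

theorem UpA.tj2 (h : UpA E r) (h5 : E.gu.x2 + 6 * E.gu.k ≤ x - r) (h6 : x + r ≤ E.gu.x2 + 7 * E.gu.k) :
    (h.t2 h5 h6).chart.Jump (E.psi mu ρu ml ρl ψu ψl) 0 := by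
  have h1 := h.hx
  have h2 := h.rk
  have h3 := h.rb
  have h4 := h.rc
  have h0 := h.r0
  have ha := h.ra
  exact UpB.jump22 (h.t2 h5 h6) (by simp only; omega)
    (fun z h7 h8 => by
      simp only at h7 h8
      exact Hst0 (by omega) h1)
    (fun z h7 h8 => by
      simp only at h7 h8
      exact Hst0 (by omega) h1) (by ring)

/-- wall of a tube after vertex 7 -/
theorem UpA.t7 (h : UpA E r) (h5 : E.gu.x2 + 3 * E.gu.k ≤ x - r) (h6 : x + r ≤ E.gu.x2 + 4 * E.gu.k) :
    LocW E 2 2 (x, E.gu.yc + E.gu.a) r := by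
  have h1 := h.hx
  have h2 := h.rk
  have h3 := h.rb
  have h4 := h.rc
  have h0 := h.r0
  have ha := h.ra
  refine h.locW (by omega) (by simp only; omega) rfl fun f hf => ?_
  rw [mem_Bx] at hf
  rw [solid_up, mem_w22]
  unfold BGeo.cham
  simp only at hf ⊢
  omega

theorem UpA.tj7 (h : UpA E r) (h5 : E.gu.x2 + 3 * E.gu.k ≤ x - r) (h6 : x + r ≤ E.gu.x2 + 4 * E.gu.k) :
    (h.t7 h5 h6).chart.Jump (E.psi mu ρu ml ρl ψu ψl) 0 := by
  have h1 := h.hx
  have h2 := h.rk
  have h3 := h.rb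
  have h4 := h.rc
  have h0 := h.r0
  have ha := h.ra
  exact UpB.jump22 (h.t7 h5 h6) (by simp only; omega)
    (fun z h7 h8 => by
      simp only at h7 h8
      exact Hst1 (by omega) (by omega) h1)
    (fun z h7 h8 => by
      simp only at h7 h8
      exact Hst1 (by omega) (by omega) h1) (by ring)

/-- wall of a tube after vertex 12 -/
theorem UpA.t12 (h : UpA E r) (h5 : E.gu.x2 ≤ x - r) (h6 : x + r ≤ E.gu.x2 + E.gu.k) :
    LocW E 2 2 (x, E.gu.yc + E.gu.a) r := by
  have h1 := h.hx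
  have h2 := h.rk
  have h3 := h.rb
  have h4 := h.rc
  have h0 := h.r0
  have ha := h.ra
  refine h.locW (by omega) (by simp only; omega) rfl fun f hf => ?_
  rw [mem_Bx] at hf
  rw [solid_up, mem_w22]
  unfold BGeo.cham
  simp only at hf ⊢
  omega

theorem UpA.tj12 (h : UpA E r) (h5 : E.gu.x2 ≤ x - r) (h6 : x + r ≤ E.gu.x2 + E.gu.k) :
    (h.t12 h5 h6).chart.Jump (E.psi mu ρu ml ρl ψu ψl) 0 := by
  have h1 := h.hx
  have h2 := h.rk
  have h3 := h.rb
  have h4 := h.rc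
  have h0 := h.r0
  have ha := h.ra
  exact UpB.jump22 (h.t12 h5 h6) (by simp only; omega)
    (fun z h7 h8 => by
      simp only at h7 h8
      exact Hst2 (by omega) (by omega) h1)
    (fun z h7 h8 => by
      simp only at h7 h8
      exact Hst2 (by omega) (by omega) h1) (by ring)

/-- wall of a tube after vertex 14 -/
theorem UpA.t14 (h : UpA E r) (h5 : E.gu.x1 - E.gu.k ≤ x - r) (h6 : x + r ≤ E.gu.x1) :
    LocW E 2 2 (x, E.gu.yc + E.gu.a) r := by
  have h1 := h.hx
  have h2 := h.rk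
  have h3 := h.rb
  have h4 := h.rc
  have h0 := h.r0
  have ha := h.ra
  refine h.locW (by omega) (by simp only; omega) rfl fun f hf => ?_
  rw [mem_Bx] at hf
  rw [solid_up, mem_w22]
  unfold BGeo.cham
  simp only at hf ⊢
  omega

theorem UpA.tj14 (h : UpA E r) (h5 : E.gu.x1 - E.gu.k ≤ x - r) (h6 : x + r ≤ E.gu.x1) :
    (h.t14 h5 h6).chart.Jump (E.psi mu ρu ml ρl ψu ψl) 0 := by
  have h1 := h.hx
  have h2 := h.rk
  have h3 := h.rb
  have h4 := h.rc
  have h0 := h.r0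
  have ha := h.ra
  exact UpB.jump22 (h.t14 h5 h6) (by simp only; omega)
    (fun z h7 h8 => by
      simp only at h7 h8
      exact Hst3 (by omega) (by omega))
    (fun z h7 h8 => by
      simp only at h7 h8
      exact Hst3 (by omega) (by omega)) (by ring)

/-- wall of a tube after vertex 19 -/
theorem UpA.t19 (h : UpA E r) (h5 : E.gu.x1 - 4 * E.gu.k ≤ x - r) (h6 : x + r ≤ E.gu.x1 - 3 * E.gu.k) :
    LocW E 2 2 (x, E.gu.yc + E.gu.a) r := by
  have h1 := h.hx
  have h2 := h.rk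
  have h3 := h.rb
  have h4 := h.rc
  have h0 := h.r0
  have ha := h.ra
  refine h.locW (by omega) (by simp only; omega) rfl fun f hf => ?_
  rw [mem_Bx] at hf
  rw [solid_up, mem_w22]
  unfold BGeo.cham
  simp only at hf ⊢
  omega

theorem UpA.tj19 (h : UpA E r) (h5 : E.gu.x1 - 4 * E.gu.k ≤ x - r) (h6 : x + r ≤ E.gu.x1 - 3 * E.gu.k) :
    (h.t19 h5 h6).chart.Jump (E.psi mu ρu ml ρl ψu ψl) 0 := by
  have h1 := h.hx
  have h2 := h.rk
  have h3 := h.rb
  have h4 := h.rc
  have h0 := h.r0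
  have ha := h.ra
  exact UpB.jump22 (h.t19 h5 h6) (by simp only; omega)
    (fun z h7 h8 => by
      simp only at h7 h8
      exact Hst4 (by omega) (by omega) h1)
    (fun z h7 h8 => by
      simp only at h7 h8
      exact Hst4 (by omega) (by omega) h1) (by ring)

/-- wall of a tube after vertex 24 -/
theorem UpA.t24 (h : UpA E r) (h5 : E.gu.x1 - 7 * E.gu.k ≤ x - r) (h6 : x + r ≤ E.gu.x1 - 6 * E.gu.k) :
    LocW E 2 2 (x, E.gu.yc + E.gu.a) r := by
  have h1 := h.hx
  have h2 := h.rk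
  have h3 := h.rb
  have h4 := h.rc
  have h0 := h.r0
  have ha := h.ra
  refine h.locW (by omega) (by simp only; omega) rfl fun f hf => ?_
  rw [mem_Bx] at hf
  rw [solid_up, mem_w22]
  unfold BGeo.cham
  simp only at hf ⊢
  omega

theorem UpA.tj24 (h : UpA E r) (h5 : E.gu.x1 - 7 * E.gu.k ≤ x - r) (h6 : x + r ≤ E.gu.x1 - 6 * E.gu.k) :
    (h.t24 h5 h6).chart.Jump (E.psi mu ρu ml ρl ψu ψl) 0 := by
  have h1 := h.hx
  have h2 := h.rk
  have h3 := h.rb
  have h4 := h.rc
  have h0 := h.r0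
  have ha := h.ra
  exact UpB.jump22 (h.t24 h5 h6) (by simp only; omega)
    (fun z h7 h8 => by
      simp only at h7 h8
      exact Hst5 (by omega) h1)
    (fun z h7 h8 => by
      simp only at h7 h8
      exact Hst5 (by omega) h1) (by ring)

/-! ## The lower block -/

/-- hypotheses for charts of radius `r` at the height of the slab, lower block -/
structure LoA (E : SEnv) (r : ℕ) : Prop extends LoB E r where
  ra : r ≤ E.gd.a

theorem LoA.locW (h : LoA E r) (hm : 1 ≤ m ∧ m ≤ 3)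
    (hv : (E.gd.x1 - 7 * E.gd.k ≤ v.1 ∧ v.1 + r ≤ E.gd.x1) ∨
      (E.gd.x2 ≤ v.1 - r ∧ v.1 ≤ E.gd.x2 + 7 * E.gd.k)) (hv2 : v.2 = E.gd.yc - E.gd.a)
    (hloc : ∀ f ∈ Bx v r, ¬ E.gd.solid false f ↔ f ∈ Wdg m o v r) : LocW E m o v r := by
  have hyc := h.yc
  have h1 := h.hx
  have h2 := h.ra
  have h3 := h.rb
  have h4 := h.rc
  refine locW_lo h.thk h.au hm (fun f hf => ?_) (by omega) hloc fun f hf => ?_
  · rw [mem_Bx] at hf
    exact h.win f (by omega) (by omega) (by omega) (by omega)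
  · rintro ⟨-, h5, -⟩
    rw [mem_Wdg] at hf
    omega

theorem LoA.jump30 (hl : LocW E 3 0 v r) (hr : 0 < r) (hhi : v.2 + r ≤ E.gu.yc) {c : ℝ}
    (hc : ∀ x : ℤ, v.1 - 1 ≤ x → x < v.1 + r → E.gd.Hst ml (rx E.gd x) = c) :
    hl.chart.Jump (E.psi mu ρu ml ρl ψu ψl) 0 := by
  refine hl.jump_lo (p := cst ml ρl + (c - Real.pi / 12)) (q := cst ml ρl + c) hhi hr
    (fun a ha => ?_) (fun a ha => ?_) (by push_cast; ring)
  · obtain ⟨y, -, -, rfl⟩ := mem_wIn3.mp ha
    rw [ph_lo1, hc _ (by simp only; omega) (by simp only; omega)]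
  · obtain ⟨x, h1, h2, rfl⟩ := mem_wOut0.mp ha
    rw [ph_lo0, hc _ (by omega) h2]

theorem LoA.jump33 (hl : LocW E 3 3 v r) (hr : 0 < r) (hhi : v.2 + r ≤ E.gu.yc) {c : ℝ}
    (hc : ∀ x : ℤ, v.1 - r ≤ x → x ≤ v.1 → E.gd.Hst ml (rx E.gd x) = c) :
    hl.chart.Jump (E.psi mu ρu ml ρl ψu ψl) 0 := by
  refine hl.jump_lo (p := cst ml ρl + c) (q := cst ml ρl + (c + Real.pi / 12)) hhi hr
    (fun a ha => ?_) (fun a ha => ?_) (by push_cast; ring)
  · obtain ⟨x, h1, h2, rfl⟩ := mem_wIn2.mp ha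
    rw [ph_lo0, hc _ h1 (by omega)]
  · obtain ⟨y, -, -, rfl⟩ := mem_wOut3.mp ha
    rw [ph_lo3, hc _ (by simp only; omega) (by simp only; omega)]

/-- vertex 2 -/
theorem LoA.l2 (h : LoA E r) : LocW E 3 0 (E.gd.x1 - 7 * E.gd.k, E.gd.yc - E.gd.a) r := by
  have h1 := h.hx
  have h2 := h.rk
  have h3 := h.rb
  have h4 := h.rc
  have h0 := h.r0
  have ha := h.ra
  refine h.locW (by omega) (by simp only; omega) rfl fun f hf => ?_
  rw [mem_Bx] at hf
  rw [solid_lo, mem_w30]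
  unfold BGeo.cham
  simp only at hf ⊢
  omega

theorem LoA.j2 (h : LoA E r) : h.l2.chart.Jump (E.psi mu ρu ml ρl ψu ψl) 0 := by
  have h1 := h.hx
  have h2 := h.rk
  have h3 := h.rb
  have h4 := h.rc
  have h0 := h.r0
  have ha := h.ra
  exact LoA.jump30 h.l2 h0 (by have := h.yc; simp only; omega) fun x h5 h6 => by
    simp only at h5 h6
    exact Hst0 (by unfold rx; omega) h1

/-- vertex 3 -/
theorem LoA.l3 (h : LoA E r) : LocW E 3 3 (E.gd.x1 - 6 * E.gd.k, E.gd.yc - E.gd.a) r := by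
  have h1 := h.hx
  have h2 := h.rk
  have h3 := h.rb
  have h4 := h.rc
  have h0 := h.r0
  have ha := h.ra
  refine h.locW (by omega) (by simp only; omega) rfl fun f hf => ?_
  rw [mem_Bx] at hf
  rw [solid_lo, mem_w33]
  unfold BGeo.cham
  simp only at hf ⊢
  omega

theorem LoA.j3 (h : LoA E r) : h.l3.chart.Jump (E.psi mu ρu ml ρl ψu ψl) 0 := by
  have h1 := h.hx
  have h2 := h.rk
  have h3 := h.rb
  have h4 := h.rc
  have h0 := h.r0
  have ha := h.ra
  exact LoA.jump33 h.l3 h0 (by have := h.yc; simp only; omega) fun x h5 h6 => by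
    simp only at h5 h6
    exact Hst0 (by unfold rx; omega) h1

/-- vertex 7 -/
theorem LoA.l7 (h : LoA E r) : LocW E 3 0 (E.gd.x1 - 4 * E.gd.k, E.gd.yc - E.gd.a) r := by
  have h1 := h.hx
  have h2 := h.rk
  have h3 := h.rb
  have h4 := h.rc
  have h0 := h.r0
  have ha := h.ra
  refine h.locW (by omega) (by simp only; omega) rfl fun f hf => ?_
  rw [mem_Bx] at hf
  rw [solid_lo, mem_w30]
  unfold BGeo.cham
  simp only at hf ⊢
  omega

theorem LoA.j7 (h : LoA E r) : h.l7.chart.Jump (E.psi mu ρu ml ρl ψu ψl) 0 := by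
  have h1 := h.hx
  have h2 := h.rk
  have h3 := h.rb
  have h4 := h.rc
  have h0 := h.r0
  have ha := h.ra
  exact LoA.jump30 h.l7 h0 (by have := h.yc; simp only; omega) fun x h5 h6 => by
    simp only at h5 h6
    exact Hst1 (by unfold rx; omega) (by unfold rx; omega) h1

/-- vertex 8 -/
theorem LoA.l8 (h : LoA E r) : LocW E 3 3 (E.gd.x1 - 3 * E.gd.k, E.gd.yc - E.gd.a) r := by
  have h1 := h.hx
  have h2 := h.rk
  have h3 := h.rb
  have h4 := h.rc
  have h0 := h.r0
  have ha := h.ra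
  refine h.locW (by omega) (by simp only; omega) rfl fun f hf => ?_
  rw [mem_Bx] at hf
  rw [solid_lo, mem_w33]
  unfold BGeo.cham
  simp only at hf ⊢
  omega

theorem LoA.j8 (h : LoA E r) : h.l8.chart.Jump (E.psi mu ρu ml ρl ψu ψl) 0 := by
  have h1 := h.hx
  have h2 := h.rk
  have h3 := h.rb
  have h4 := h.rc
  have h0 := h.r0
  have ha := h.ra
  exact LoA.jump33 h.l8 h0 (by have := h.yc; simp only; omega) fun x h5 h6 => by
    simp only at h5 h6
    exact Hst1 (by unfold rx; omega) (by unfold rx; omega) h1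

/-- vertex 12 -/
theorem LoA.l12 (h : LoA E r) : LocW E 3 0 (E.gd.x1 - E.gd.k, E.gd.yc - E.gd.a) r := by
  have h1 := h.hx
  have h2 := h.rk
  have h3 := h.rb
  have h4 := h.rc
  have h0 := h.r0
  have ha := h.ra
  refine h.locW (by omega) (by simp only; omega) rfl fun f hf => ?_
  rw [mem_Bx] at hf
  rw [solid_lo, mem_w30]
  unfold BGeo.cham
  simp only at hf ⊢
  omega

theorem LoA.j12 (h : LoA E r) : h.l12.chart.Jump (E.psi mu ρu ml ρl ψu ψl) 0 := by
  have h1 := h.hx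
  have h2 := h.rk
  have h3 := h.rb
  have h4 := h.rc
  have h0 := h.r0
  have ha := h.ra
  exact LoA.jump30 h.l12 h0 (by have := h.yc; simp only; omega) fun x h5 h6 => by
    simp only at h5 h6
    exact Hst2 (by unfold rx; omega) (by unfold rx; omega) h1

/-- vertex 15 -/
theorem LoA.l15 (h : LoA E r) : LocW E 3 3 (E.gd.x2 + E.gd.k, E.gd.yc - E.gd.a) r := by
  have h1 := h.hx
  have h2 := h.rk
  have h3 := h.rb
  have h4 := h.rc
  have h0 := h.r0
  have ha := h.ra
  refine h.locW (by omega) (by simp only; omega) rfl fun f hf => ?_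
  rw [mem_Bx] at hf
  rw [solid_lo, mem_w33]
  unfold BGeo.cham
  simp only at hf ⊢
  omega

theorem LoA.j15 (h : LoA E r) : h.l15.chart.Jump (E.psi mu ρu ml ρl ψu ψl) 0 := by
  have h1 := h.hx
  have h2 := h.rk
  have h3 := h.rb
  have h4 := h.rc
  have h0 := h.r0
  have ha := h.ra
  exact LoA.jump33 h.l15 h0 (by have := h.yc; simp only; omega) fun x h5 h6 => by
    simp only at h5 h6
    exact Hst3 (by unfold rx; omega) (by unfold rx; omega)

/-- vertex 19 -/
theorem LoA.l19 (h : LoA E r) : LocW E 3 0 (E.gd.x2 + 3 * E.gd.k, E.gd.yc - E.gd.a) r := by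
  have h1 := h.hx
  have h2 := h.rk
  have h3 := h.rb
  have h4 := h.rc
  have h0 := h.r0
  have ha := h.ra
  refine h.locW (by omega) (by simp only; omega) rfl fun f hf => ?_
  rw [mem_Bx] at hf
  rw [solid_lo, mem_w30]
  unfold BGeo.cham
  simp only at hf ⊢
  omega

theorem LoA.j19 (h : LoA E r) : h.l19.chart.Jump (E.psi mu ρu ml ρl ψu ψl) 0 := by
  have h1 := h.hx
  have h2 := h.rk
  have h3 := h.rb
  have h4 := h.rc
  have h0 := h.r0
  have ha := h.ra
  exact LoA.jump30 h.l19 h0 (by have := h.yc; simp only; omega) fun x h5 h6 => by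
    simp only at h5 h6
    exact Hst4 (by unfold rx; omega) (by unfold rx; omega) h1

/-- vertex 20 -/
theorem LoA.l20 (h : LoA E r) : LocW E 3 3 (E.gd.x2 + 4 * E.gd.k, E.gd.yc - E.gd.a) r := by
  have h1 := h.hx
  have h2 := h.rk
  have h3 := h.rb
  have h4 := h.rc
  have h0 := h.r0
  have ha := h.ra
  refine h.locW (by omega) (by simp only; omega) rfl fun f hf => ?_
  rw [mem_Bx] at hf
  rw [solid_lo, mem_w33]
  unfold BGeo.cham
  simp only at hf ⊢
  omega

theorem LoA.j20 (h : LoA E r) : h.l20.chart.Jump (E.psi mu ρu ml ρl ψu ψl) 0 := by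
  have h1 := h.hx
  have h2 := h.rk
  have h3 := h.rb
  have h4 := h.rc
  have h0 := h.r0
  have ha := h.ra
  exact LoA.jump33 h.l20 h0 (by have := h.yc; simp only; omega) fun x h5 h6 => by
    simp only at h5 h6
    exact Hst4 (by unfold rx; omega) (by unfold rx; omega) h1

/-- vertex 24 -/
theorem LoA.l24 (h : LoA E r) : LocW E 3 0 (E.gd.x2 + 6 * E.gd.k, E.gd.yc - E.gd.a) r := by
  have h1 := h.hx
  have h2 := h.rk
  have h3 := h.rb
  have h4 := h.rc
  have h0 := h.r0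
  have ha := h.ra
  refine h.locW (by omega) (by simp only; omega) rfl fun f hf => ?_
  rw [mem_Bx] at hf
  rw [solid_lo, mem_w30]
  unfold BGeo.cham
  simp only at hf ⊢
  omega

theorem LoA.j24 (h : LoA E r) : h.l24.chart.Jump (E.psi mu ρu ml ρl ψu ψl) 0 := by
  have h1 := h.hx
  have h2 := h.rk
  have h3 := h.rb
  have h4 := h.rc
  have h0 := h.r0
  have ha := h.ra
  exact LoA.jump30 h.l24 h0 (by have := h.yc; simp only; omega) fun x h5 h6 => by
    simp only at h5 h6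
    exact Hst5 (by unfold rx; omega) h1

/-- vertex 25 -/
theorem LoA.l25 (h : LoA E r) : LocW E 3 3 (E.gd.x2 + 7 * E.gd.k, E.gd.yc - E.gd.a) r := by
  have h1 := h.hx
  have h2 := h.rk
  have h3 := h.rb
  have h4 := h.rc
  have h0 := h.r0
  have ha := h.ra
  refine h.locW (by omega) (by simp only; omega) rfl fun f hf => ?_
  rw [mem_Bx] at hf
  rw [solid_lo, mem_w33]
  unfold BGeo.cham
  simp only at hf ⊢
  omega

theorem LoA.j25 (h : LoA E r) : h.l25.chart.Jump (E.psi mu ρu ml ρl ψu ψl) 0 := by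
  have h1 := h.hx
  have h2 := h.rk
  have h3 := h.rb
  have h4 := h.rc
  have h0 := h.r0
  have ha := h.ra
  exact LoA.jump33 h.l25 h0 (by have := h.yc; simp only; omega) fun x h5 h6 => by
    simp only at h5 h6
    exact Hst5 (by unfold rx; omega) h1

/-- wall of a tube after vertex 2 -/
theorem LoA.t2 (h : LoA E r) (h5 : E.gd.x1 - 7 * E.gd.k ≤ x - r) (h6 : x + r ≤ E.gd.x1 - 6 * E.gd.k) :
    LocW E 2 0 (x, E.gd.yc - E.gd.a) r := by
  have h1 := h.hx
  have h2 := h.rk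
  have h3 := h.rb
  have h4 := h.rc
  have h0 := h.r0
  have ha := h.ra
  refine h.locW (by omega) (by simp only; omega) rfl fun f hf => ?_
  rw [mem_Bx] at hf
  rw [solid_lo, mem_w20]
  unfold BGeo.cham
  simp only at hf ⊢
  omega

theorem LoA.tj2 (h : LoA E r) (h5 : E.gd.x1 - 7 * E.gd.k ≤ x - r) (h6 : x + r ≤ E.gd.x1 - 6 * E.gd.k) :
    (h.t2 h5 h6).chart.Jump (E.psi mu ρu ml ρl ψu ψl) 0 := by
  have h1 := h.hx
  have h2 := h.rk
  have h3 := h.rb
  have h4 := h.rc
  have h0 := h.r0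
  have ha := h.ra
  exact h.toLoB.jump20 (h.t2 h5 h6) (by have := h.yc; simp only; omega)
    (fun z h7 h8 => by
      simp only at h7 h8
      exact Hst0 (by unfold rx; omega) h1)
    (fun z h7 h8 => by
      simp only at h7 h8
      exact Hst0 (by unfold rx; omega) h1) (by ring)

/-- wall of a tube after vertex 7 -/
theorem LoA.t7 (h : LoA E r) (h5 : E.gd.x1 - 4 * E.gd.k ≤ x - r) (h6 : x + r ≤ E.gd.x1 - 3 * E.gd.k) :
    LocW E 2 0 (x, E.gd.yc - E.gd.a) r := by
  have h1 := h.hx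
  have h2 := h.rk
  have h3 := h.rb
  have h4 := h.rc
  have h0 := h.r0
  have ha := h.ra
  refine h.locW (by omega) (by simp only; omega) rfl fun f hf => ?_
  rw [mem_Bx] at hf
  rw [solid_lo, mem_w20]
  unfold BGeo.cham
  simp only at hf ⊢
  omega

theorem LoA.tj7 (h : LoA E r) (h5 : E.gd.x1 - 4 * E.gd.k ≤ x - r) (h6 : x + r ≤ E.gd.x1 - 3 * E.gd.k) :
    (h.t7 h5 h6).chart.Jump (E.psi mu ρu ml ρl ψu ψl) 0 := by
  have h1 := h.hx
  have h2 := h.rk
  have h3 := h.rb
  have h4 := h.rc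
  have h0 := h.r0
  have ha := h.ra
  exact h.toLoB.jump20 (h.t7 h5 h6) (by have := h.yc; simp only; omega)
    (fun z h7 h8 => by
      simp only at h7 h8
      exact Hst1 (by unfold rx; omega) (by unfold rx; omega) h1)
    (fun z h7 h8 => by
      simp only at h7 h8
      exact Hst1 (by unfold rx; omega) (by unfold rx; omega) h1) (by ring)

/-- wall of a tube after vertex 12 -/
theorem LoA.t12 (h : LoA E r) (h5 : E.gd.x1 - E.gd.k ≤ x - r) (h6 : x + r ≤ E.gd.x1) :
    LocW E 2 0 (x, E.gd.yc - E.gd.a) r := by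
  have h1 := h.hx
  have h2 := h.rk
  have h3 := h.rb
  have h4 := h.rc
  have h0 := h.r0
  have ha := h.ra
  refine h.locW (by omega) (by simp only; omega) rfl fun f hf => ?_
  rw [mem_Bx] at hf
  rw [solid_lo, mem_w20]
  unfold BGeo.cham
  simp only at hf ⊢
  omega

theorem LoA.tj12 (h : LoA E r) (h5 : E.gd.x1 - E.gd.k ≤ x - r) (h6 : x + r ≤ E.gd.x1) :
    (h.t12 h5 h6).chart.Jump (E.psi mu ρu ml ρl ψu ψl) 0 := by
  have h1 := h.hx
  have h2 := h.rk
  have h3 := h.rb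
  have h4 := h.rc
  have h0 := h.r0
  have ha := h.ra
  exact h.toLoB.jump20 (h.t12 h5 h6) (by have := h.yc; simp only; omega)
    (fun z h7 h8 => by
      simp only at h7 h8
      exact Hst2 (by unfold rx; omega) (by unfold rx; omega) h1)
    (fun z h7 h8 => by
      simp only at h7 h8
      exact Hst2 (by unfold rx; omega) (by unfold rx; omega) h1) (by ring)

/-- wall of a tube after vertex 14 -/
theorem LoA.t14 (h : LoA E r) (h5 : E.gd.x2 ≤ x - r) (h6 : x + r ≤ E.gd.x2 + E.gd.k) :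
    LocW E 2 0 (x, E.gd.yc - E.gd.a) r := by
  have h1 := h.hx
  have h2 := h.rk
  have h3 := h.rb
  have h4 := h.rc
  have h0 := h.r0
  have ha := h.ra
  refine h.locW (by omega) (by simp only; omega) rfl fun f hf => ?_
  rw [mem_Bx] at hf
  rw [solid_lo, mem_w20]
  unfold BGeo.cham
  simp only at hf ⊢
  omega

theorem LoA.tj14 (h : LoA E r) (h5 : E.gd.x2 ≤ x - r) (h6 : x + r ≤ E.gd.x2 + E.gd.k) :
    (h.t14 h5 h6).chart.Jump (E.psi mu ρu ml ρl ψu ψl) 0 := by
  have h1 := h.hx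
  have h2 := h.rk
  have h3 := h.rb
  have h4 := h.rc
  have h0 := h.r0
  have ha := h.ra
  exact h.toLoB.jump20 (h.t14 h5 h6) (by have := h.yc; simp only; omega)
    (fun z h7 h8 => by
      simp only at h7 h8
      exact Hst3 (by unfold rx; omega) (by unfold rx; omega))
    (fun z h7 h8 => by
      simp only at h7 h8
      exact Hst3 (by unfold rx; omega) (by unfold rx; omega)) (by ring)

/-- wall of a tube after vertex 19 -/
theorem LoA.t19 (h : LoA E r) (h5 : E.gd.x2 + 3 * E.gd.k ≤ x - r) (h6 : x + r ≤ E.gd.x2 + 4 * E.gd.k) :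
    LocW E 2 0 (x, E.gd.yc - E.gd.a) r := by
  have h1 := h.hx
  have h2 := h.rk
  have h3 := h.rb
  have h4 := h.rc
  have h0 := h.r0
  have ha := h.ra
  refine h.locW (by omega) (by simp only; omega) rfl fun f hf => ?_
  rw [mem_Bx] at hf
  rw [solid_lo, mem_w20]
  unfold BGeo.cham
  simp only at hf ⊢
  omega

theorem LoA.tj19 (h : LoA E r) (h5 : E.gd.x2 + 3 * E.gd.k ≤ x - r) (h6 : x + r ≤ E.gd.x2 + 4 * E.gd.k) :
    (h.t19 h5 h6).chart.Jump (E.psi mu ρu ml ρl ψu ψl) 0 := by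
  have h1 := h.hx
  have h2 := h.rk
  have h3 := h.rb
  have h4 := h.rc
  have h0 := h.r0
  have ha := h.ra
  exact h.toLoB.jump20 (h.t19 h5 h6) (by have := h.yc; simp only; omega)
    (fun z h7 h8 => by
      simp only at h7 h8
      exact Hst4 (by unfold rx; omega) (by unfold rx; omega) h1)
    (fun z h7 h8 => by
      simp only at h7 h8
      exact Hst4 (by unfold rx; omega) (by unfold rx; omega) h1) (by ring)

/-- wall of a tube after vertex 24 -/
theorem LoA.t24 (h : LoA E r) (h5 : E.gd.x2 + 6 * E.gd.k ≤ x - r) (h6 : x + r ≤ E.gd.x2 + 7 * E.gd.k) :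
    LocW E 2 0 (x, E.gd.yc - E.gd.a) r := by
  have h1 := h.hx
  have h2 := h.rk
  have h3 := h.rb
  have h4 := h.rc
  have h0 := h.r0
  have ha := h.ra
  refine h.locW (by omega) (by simp only; omega) rfl fun f hf => ?_
  rw [mem_Bx] at hf
  rw [solid_lo, mem_w20]
  unfold BGeo.cham
  simp only at hf ⊢
  omega

theorem LoA.tj24 (h : LoA E r) (h5 : E.gd.x2 + 6 * E.gd.k ≤ x - r) (h6 : x + r ≤ E.gd.x2 + 7 * E.gd.k) :
    (h.t24 h5 h6).chart.Jump (E.psi mu ρu ml ρl ψu ψl) 0 := by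
  have h1 := h.hx
  have h2 := h.rk
  have h3 := h.rb
  have h4 := h.rc
  have h0 := h.r0
  have ha := h.ra
  exact h.toLoB.jump20 (h.t24 h5 h6) (by have := h.yc; simp only; omega)
    (fun z h7 h8 => by
      simp only at h7 h8
      exact Hst5 (by unfold rx; omega) h1)
    (fun z h7 h8 => by
      simp only at h7 h8
      exact Hst5 (by unfold rx; omega) h1) (by ring)

end

end Pool.Agent.SixB.BlkW
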