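import Pool.Agent.Lib.SixB.S3EnvN
import Pool.Agent.Lib.SixB.S3BlkH
import Pool.Agent.Lib.SixB.S3BlkC

/-!
# 6BD step 3: the blocks of the environments of a slab

`S : Slb`, `S.Ok`, `E = S.env W X Y`. `WinU S W X r`, `WinL S W Y r`: the window contains the neighbourhood of radius `r`
of the upper (lower) block. Then the geometry structures `UpB`, `UpA`, `UpM` and `LoB`, `LoA`, `LoM` hold (`upB` ..), and
the charts at the four corners of the mouths have the jump `0` for the phases `S.ph W X Y` (`jUR` ..).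
-/

set_option autoImplicit false
set_option linter.unusedSectionVars false

namespace Pool.Agent.SixB.BlkS

open Pool.Agent.Perc.Q Pool.Agent.Perc Pool.Agent.SixB.EnvB Pool.Agent.SixB.BlkW

noncomputable section

variable {S : Slb} {W : Finset (ℤ × ℤ)} {X Y : ℤ} {r : ℕ}

/-- the window contains the neighbourhood of the upper block -/
def WinU (S : Slb) (W : Finset (ℤ × ℤ)) (X : ℤ) (r : ℕ) : Prop :=
  ∀ x y : ℤ, S.x1 + X - 7 * S.k - r ≤ x → x < S.x2 + X + 7 * S.k + r → S.yc ≤ y →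
    y < S.yc + (3 * S.k + (S.x2 - S.x1)) + r → (x, y) ∈ W

/-- the window contains the neighbourhood of the lower block -/
def WinL (S : Slb) (W : Finset (ℤ × ℤ)) (Y : ℤ) (r : ℕ) : Prop :=
  ∀ x y : ℤ, S.x1 + Y - 7 * S.k - r ≤ x → x < S.x2 + Y + 7 * S.k + r → y < S.yc →
    S.yc - (3 * S.k + (S.x2 - S.x1)) - r ≤ y → (x, y) ∈ W

theorem WinU.mono {ρ : ℕ} (h : WinU S W X r) (hρ : ρ ≤ r) : WinU S W X ρ :=
  fun x y h1 h2 h3 h4 => h x y (by omega) (by omega) h3 (by omega)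

theorem WinL.mono {ρ : ℕ} (h : WinL S W Y r) (hρ : ρ ≤ r) : WinL S W Y ρ :=
  fun x y h1 h2 h3 h4 => h x y (by omega) (by omega) h3 (by omega)

theorem mem_shF {F : Finset (ℤ × ℤ)} {x y : ℤ} : (x, y) ∈ shF X F ↔ (x - X, y) ∈ F := by
  unfold shF shv
  rw [Finset.mem_image]
  constructor
  · rintro ⟨f, hf, h⟩
    obtain ⟨h1, h2⟩ := Prod.mk.inj h
    have : f = (x - X, y) := Prod.ext (by simp only; omega) (by simp only; omega)
    rwa [← this]
  · intro h
    exact ⟨_, h, by simp only; rw [sub_add_cancel]⟩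

theorem thk (h : S.Ok) : Thk (S.env W X Y) := by
  have h1 := h.ha
  have h2 := h.hak
  have h3 : S.a < 3 * S.k + (S.x2 - S.x1).toNat := by omega
  exact ⟨h3, h3⟩

section upper

theorem upB (h : S.Ok) (hW : WinU S W X r) (r0 : 0 < r) (rk : r + S.a ≤ S.k) :
    UpB (S.env W X Y) r := by
  have h1 := h.ha
  have h2 := h.hx
  have h3 : ((S.x2 - S.x1).toNat : ℤ) = S.x2 - S.x1 := Int.toNat_of_nonneg (by omega)
  refine ⟨thk h, rfl, h1, h1, ?_, r0, ?_, rk, ?_, ?_⟩
  · change S.x1 + X ≤ S.x2 + X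
    omega
  · change r ≤ S.k
    omega
  · change r + S.k ≤ 3 * S.k + (S.x2 - S.x1).toNat
    omega
  · rintro ⟨x, y⟩ h4 h5 h6 h7
    change S.x1 + X - 7 * (S.k : ℤ) - r ≤ x at h4
    change x < S.x2 + X + 7 * (S.k : ℤ) + r at h5
    change y < S.yc + ((3 * S.k + (S.x2 - S.x1).toNat : ℕ) : ℤ) + r at h7
    refine hW x y h4 h5 h6 ?_
    push_cast at h7
    omega

theorem upA (h : S.Ok) (hW : WinU S W X r) (r0 : 0 < r) (ra : r ≤ S.a) :
    UpA (S.env W X Y) r := by
  have h1 := h.hak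
  have h2 := h.ha
  exact ⟨upB h hW r0 (by omega), ra⟩

theorem upM (h : S.Ok) (hW : WinU S W X r) (ra : r ≤ S.a) : UpM (S.env W X Y) r := by
  have h1 := h.hak
  have h2 := h.ha
  have h3 := h.hx
  have h5 := h.slab
  refine ⟨?_, ?_, h2, ?_, ?_, ?_, ?_, ?_⟩
  · change S.x1 + X + r ≤ S.x2 + X
    omega
  · change r ≤ S.k
    omega
  · change S.yc - (S.a : ℤ) + r ≤ S.yc + (S.a : ℤ)
    omega
  · intro x y h6 h7 h8 h9
    change S.x1 + X - r ≤ x at h6
    change x < S.x2 + X + r at h7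
    change S.yc + (S.a : ℤ) - r ≤ y at h8
    change y < S.yc + (S.a : ℤ) at h9
    exact hW x y (by omega) (by omega) (by omega) (by omega)
  · intro x y h6 h7 h8 h9
    change S.x1 + X ≤ x at h6
    change x < S.x2 + X at h7
    change S.yc + (S.a : ℤ) ≤ y at h8
    change y < S.yc + (S.a : ℤ) + r at h9
    change (x, y) ∈ shF X S.Up
    rw [mem_shF]
    exact up_window h5 (by omega) (by omega) (by omega) (by omega) (by omega) (by omega)
  · intro y h8 h9 h10
    change S.yc + (S.a : ℤ) ≤ y at h8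
    change y < S.yc + (S.a : ℤ) + r at h9
    change (S.x2 + X, y) ∈ shF X S.Up at h10
    rw [mem_shF, add_sub_cancel_right] at h10
    exact h5.right y (by omega) (by omega) (Finset.mem_coe.2 (up_sub h10))
  · intro y h8 h9 h10
    change S.yc + (S.a : ℤ) ≤ y at h8
    change y < S.yc + (S.a : ℤ) + r at h9
    change (S.x1 + X - 1, y) ∈ shF X S.Up at h10
    rw [mem_shF, show S.x1 + X - 1 - X = S.x1 - 1 by ring] at h10
    exact h5.left y (by omega) (by omega) (Finset.mem_coe.2 (up_sub h10))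

theorem jUR (h : S.Ok) (hW : WinU S W X r) (ra : r ≤ S.a) :
    (cUR (thk h) (upM (Y := Y) h hW ra)).Jump (S.ph W X Y) 0 := by
  have h1 := h.hak
  refine cUR_jump _ _ fun y h2 h3 => ?_
  change S.yc + (S.a : ℤ) ≤ y at h2
  change y < S.yc + (S.a : ℤ) + r at h3
  change S.ψ ((S.x2 + X - 1 + 1 + -X, y), (S.x2 + X - 1 + 1 + -X, y + 1)) = _
  rw [show S.x2 + X - 1 + 1 + -X = S.x2 by ring]
  exact h.right y (by omega) (by omega)

theorem jUL (h : S.Ok) (hW : WinU S W X r) (ra : r ≤ S.a) :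
    (cUL (thk h) (upM (Y := Y) h hW ra)).Jump (S.ph W X Y) 0 := by
  have h1 := h.hak
  refine cUL_jump _ _ fun y h2 h3 => ?_
  change S.yc + (S.a : ℤ) ≤ y at h2
  change y < S.yc + (S.a : ℤ) + r at h3
  change S.ψ ((S.x1 + X + -X, y + 1), (S.x1 + X + -X, y)) = _
  rw [show S.x1 + X + -X = S.x1 by ring, h.left y (by omega) (by omega)]
  unfold Slb.mu
  ring

end upper

section lower

theorem loB (h : S.Ok) (hW : WinL S W Y r) (r0 : 0 < r) (rk : r + S.a ≤ S.k) :
    LoB (S.env W X Y) r := by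
  have h1 := h.ha
  have h2 := h.hx
  have h3 : ((S.x2 - S.x1).toNat : ℤ) = S.x2 - S.x1 := Int.toNat_of_nonneg (by omega)
  refine ⟨thk h, rfl, h1, h1, ?_, r0, ?_, rk, ?_, ?_⟩
  · change S.x1 + Y ≤ S.x2 + Y
    omega
  · change r ≤ S.k
    omega
  · change r + S.k ≤ 3 * S.k + (S.x2 - S.x1).toNat
    omega
  · rintro ⟨x, y⟩ h4 h5 h6 h7
    change S.x1 + Y - 7 * (S.k : ℤ) - r ≤ x at h4
    change x < S.x2 + Y + 7 * (S.k : ℤ) + r at h5
    change S.yc - ((3 * S.k + (S.x2 - S.x1).toNat : ℕ) : ℤ) - r ≤ y at h7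
    refine hW x y h4 h5 h6 ?_
    push_cast at h7
    omega

theorem loA (h : S.Ok) (hW : WinL S W Y r) (r0 : 0 < r) (ra : r ≤ S.a) :
    LoA (S.env W X Y) r := by
  have h1 := h.hak
  have h2 := h.ha
  exact ⟨loB h hW r0 (by omega), ra⟩

theorem loM (h : S.Ok) (hW : WinL S W Y r) (ra : r ≤ S.a) : LoM (S.env W X Y) r := by
  have h1 := h.hak
  have h2 := h.ha
  have h3 := h.hx
  have h5 := h.slab
  refine ⟨?_, ?_, h2, ?_, ?_, ?_, ?_, ?_, ?_⟩
  · change S.x1 + Y + r ≤ S.x2 + Y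
    omega
  · change r ≤ S.k
    omega
  · change S.yc - (S.a : ℤ) + r ≤ S.yc + (S.a : ℤ)
    omega
  · change S.yc ≤ S.yc + (S.a : ℤ) - 1
    omega
  · intro x y h6 h7 h8 h9
    change S.x1 + Y - r ≤ x at h6
    change x < S.x2 + Y + r at h7
    change S.yc - (S.a : ℤ) ≤ y at h8
    change y < S.yc - (S.a : ℤ) + r at h9
    exact hW x y (by omega) (by omega) (by omega) (by omega)
  · intro x y h6 h7 h8 h9
    change S.x1 + Y ≤ x at h6
    change x < S.x2 + Y at h7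
    change S.yc - (S.a : ℤ) - r ≤ y at h8
    change y < S.yc - (S.a : ℤ) at h9
    change (x, y) ∈ shF Y S.Lo
    rw [mem_shF]
    exact lo_window h5 (by omega) (by omega) (by omega) (by omega) (by omega) (by omega)
  · intro y h8 h9 h10
    change S.yc - (S.a : ℤ) - r ≤ y at h8
    change y < S.yc - (S.a : ℤ) at h9
    change (S.x2 + Y, y) ∈ shF Y S.Lo at h10
    rw [mem_shF, add_sub_cancel_right] at h10
    exact h5.right y (by omega) (by omega) (Finset.mem_coe.2 (lo_sub h10))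
  · intro y h8 h9 h10
    change S.yc - (S.a : ℤ) - r ≤ y at h8
    change y < S.yc - (S.a : ℤ) at h9
    change (S.x1 + Y - 1, y) ∈ shF Y S.Lo at h10
    rw [mem_shF, show S.x1 + Y - 1 - Y = S.x1 - 1 by ring] at h10
    exact h5.left y (by omega) (by omega) (Finset.mem_coe.2 (lo_sub h10))

theorem jLL (h : S.Ok) (hW : WinL S W Y r) (ra : r ≤ S.a) :
    (cLL (thk h) (loM (X := X) h hW ra)).Jump (S.ph W X Y) 0 := by
  have h1 := h.hak
  refine cLL_jump _ _ fun y h2 h3 => ?_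
  change S.yc - (S.a : ℤ) - r ≤ y at h2
  change y < S.yc - (S.a : ℤ) at h3
  change S.ψ ((S.x1 + Y + -Y, y + 1), (S.x1 + Y + -Y, y)) = _
  rw [show S.x1 + Y + -Y = S.x1 by ring]
  exact h.left y (by omega) (by omega)

theorem jLR (h : S.Ok) (hW : WinL S W Y r) (ra : r ≤ S.a) :
    (cLR (thk h) (loM (X := X) h hW ra)).Jump (S.ph W X Y) 0 := by
  have h1 := h.hak
  refine cLR_jump _ _ fun y h2 h3 => ?_
  change S.yc - (S.a : ℤ) - r ≤ y at h2
  change y < S.yc - (S.a : ℤ) at h3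
  change S.ψ ((S.x2 + Y - 1 + 1 + -Y, y), (S.x2 + Y - 1 + 1 + -Y, y + 1)) = _
  rw [show S.x2 + Y - 1 + 1 + -Y = S.x2 by ring, h.right y (by omega) (by omega)]
  unfold Slb.ml
  ring

end lower

end

end Pool.Agent.SixB.BlkS
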