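import Pool.Agent.Lib.SixB.S3AtlDefs
import Pool.Agent.Lib.SixB.S3CutD
import Pool.Agent.Lib.SixB.CAEnvE
import Pool.Agent.Lib.SixB.CAIn

/-!
# 6BD step 3: the environments of a polygon, the export (captain helper95)

* `crs g k`: turning of the contour at its vertex `k` (`1` left = convex, `-1` right = concave, `0` flat).
* `PhC D L g j ψ`: `D` has the contour `g` of period `L`, `j k` = jump of the phases `ψ` at the vertex `k`
  (natural: `0`), the jumps of one period have the sum `π / 3`.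
* `Slb`: polygon `D` with phases `ψ` and a horizontal slab of half width `a` around the height `yc` between the walls
  `x1`, `x2`, unit `k` of the blocks; `Slb.Ok`.
* `Slb.env S W X Y`: the environment `E (X, Y)`: upper block and upper pocket shifted by `X` columns, lower block and
  lower pocket by `Y` columns, window `W`; `Slb.ph` its phases; `Slb.geo` its blocks; `Slb.hi`, `Slb.lo` upper and
  lower half (cut along the row `y`).
* `MFam`: the three families of marks (jumps `jN`, `jP`, `jX` of CAEnvE).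
* `InH`: the export of step 3.
-/

set_option autoImplicit false
set_option linter.unusedSectionVars false

namespace Pool.Agent.SixB

open Pool.Agent.Perc.Q Pool.Agent.Perc Filter Topology

noncomputable section

/-! ## Contour phases -/

/-- turning of the contour at its vertex `k` -/
def crs (g : ℤ → ℤ × ℤ) (k : ℤ) : ℤ :=
  ((g k).1 - (g (k - 1)).1) * ((g (k + 1)).2 - (g k).2) -
    ((g k).2 - (g (k - 1)).2) * ((g (k + 1)).1 - (g k).1)

/-- the phases `ψ` have the jumps `j` along the contour `g` of `D` -/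
structure PhC (D : Finset (ℤ × ℤ)) (L : ℕ) (g : ℤ → ℤ × ℤ) (j : ℤ → ℝ)
    (ψ : (ℤ × ℤ) × (ℤ × ℤ) → ℝ) : Prop where
  cont : Cont D L g
  per : ∀ k : ℤ, j (k + L) = j k
  tot : ∑ k ∈ Finset.range L, j k = Real.pi / 3
  jump : ∀ k : ℤ, ψ (g k, g (k + 1)) - ψ (g (k - 1), g k) + (crs g k : ℝ) * (Real.pi / 12) = j k

/-- the three families of marks of block CA along the filter `l` -/
inductive MFam (L : ℕ) (g : ℤ → ℤ × ℤ) {ι : Type} (l : Filter ι) (n : ι → ℕ) : (ι → ℤ → ℝ) → Prop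
  | nat (s : ℝ) (b : ι → ℤ) (hs : Fl g s) (hb : Tendsto (fun i => (b i : ℝ) / n i) l (𝓝 s)) :
      MFam L g l n fun i => jN (n i * L) (b i)
  | pair (α s s' : ℝ) (b b' : ι → ℤ) (hα : α ∈ Set.Ioo (0 : ℝ) 1) (hs : Fl g s) (hs' : Fl g s')
      (h1 : s < s') (h2 : s' < s + L) (hb : Tendsto (fun i => (b i : ℝ) / n i) l (𝓝 s))
      (hb' : Tendsto (fun i => (b' i : ℝ) / n i) l (𝓝 s')) :
      MFam L g l n fun i => jP (n i * L) α (b i) (b' i)
  | full (α t₁ t₂ t₂' t₃ t₄ : ℝ) (b₁ b₂ b₂' b₃ k : ι → ℤ) (hα : α ∈ Set.Ioo (0 : ℝ) 1)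
      (hm : Marks5 L g t₁ t₂ t₂' t₃ t₄) (h₁ : Tendsto (fun i => (b₁ i : ℝ) / n i) l (𝓝 t₁))
      (h₂ : Tendsto (fun i => (b₂ i : ℝ) / n i) l (𝓝 t₂))
      (h₂' : Tendsto (fun i => (b₂' i : ℝ) / n i) l (𝓝 t₂'))
      (h₃ : Tendsto (fun i => (b₃ i : ℝ) / n i) l (𝓝 t₃))
      (h₄ : Tendsto (fun i => (k i : ℝ) / n i) l (𝓝 t₄)) :
      MFam L g l n fun i => jX (n i * L) α (b₁ i) (b₂ i) (b₂' i) (b₃ i) (k i)

/-! ## Slabs and environments -/

/-- translation by `X` columns -/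
def shv (X : ℤ) (v : ℤ × ℤ) : ℤ × ℤ := (v.1 + X, v.2)

/-- shifted face set -/
def shF (X : ℤ) (S : Finset (ℤ × ℤ)) : Finset (ℤ × ℤ) := S.image (shv X)

/-- shifted phases -/
def shP (X : ℤ) (ψ : (ℤ × ℤ) × (ℤ × ℤ) → ℝ) (s : (ℤ × ℤ) × (ℤ × ℤ)) : ℝ :=
  ψ (shv (-X) s.1, shv (-X) s.2)

/-- a horizontal slab of a polygon -/
structure Slb where
  D : Finset (ℤ × ℤ)
  ψ : (ℤ × ℤ) × (ℤ × ℤ) → ℝ
  x1 : ℤ
  x2 : ℤ
  yc : ℤ
  k : ℕ
  a : ℕ

namespace Slb

variable (S : Slb)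

/-- phase of the right wall -/
def ρr : ℝ := S.ψ ((S.x2, S.yc), (S.x2, S.yc + 1))

/-- phase of the left wall -/
def ρl : ℝ := S.ψ ((S.x1, S.yc + 1), (S.x1, S.yc))

/-- sum of the jumps of the upper pocket -/
def mu : ℝ := S.ρl - S.ρr + Real.pi / 6

/-- sum of the jumps of the lower pocket -/
def ml : ℝ := S.ρr - S.ρl + Real.pi / 6

/-- the pockets -/
def Up : Finset (ℤ × ℤ) := CUp S.D S.x1 S.x2 (S.yc - S.a) (S.yc + S.a)

def Lo : Finset (ℤ × ℤ) := CLo S.D S.x1 S.x2 (S.yc - S.a) (S.yc + S.a)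

/-- the block, shifted by `X` columns -/
def geo (X : ℤ) : BGeo := ⟨S.x1 + X, S.x2 + X, S.yc, S.k, S.a, S.k, 3 * S.k + (S.x2 - S.x1).toNat⟩

/-- the environment -/
def env (W : Finset (ℤ × ℤ)) (X Y : ℤ) : SEnv := ⟨S.geo X, S.geo Y, shF X S.Up, shF Y S.Lo, W⟩

/-- its phases -/
def ph (W : Finset (ℤ × ℤ)) (X Y : ℤ) :
    (Option Bool × (ℤ × ℤ)) × (Option Bool × (ℤ × ℤ)) → ℝ :=
  (S.env W X Y).psi S.mu S.ρr S.ml S.ρl (shP X S.ψ) (shP Y S.ψ)

/-- the hypotheses on a slab: no vertex and no mark of `D` on the two walls at distance `< k` of the centre line -/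
structure Ok : Prop where
  poly : MPoly S.D
  slab : SlabIn (S.D : Set (ℤ × ℤ)) S.x1 S.x2 (S.yc - S.k) (S.yc + S.k)
  ha : 0 < S.a
  hak : 100 * S.a ≤ S.k
  hx : S.x1 + S.k ≤ S.x2
  right : ∀ y : ℤ, S.yc - S.k ≤ y → y < S.yc + S.k → S.ψ ((S.x2, y), (S.x2, y + 1)) = S.ρr
  left : ∀ y : ℤ, S.yc - S.k ≤ y → y < S.yc + S.k → S.ψ ((S.x1, y + 1), (S.x1, y)) = S.ρl
  mu1 : -(2 * (Real.pi / 3)) ≤ S.mu
  mu2 : S.mu ≤ Real.pi

end Slb

namespace SEnv

/-- the faces above the row `y` together with the upper pocket -/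
def hi (E : SEnv) (y : ℤ) : Finset (Option Bool × (ℤ × ℤ)) :=
  E.F.filter fun f => f.1 = some true ∨ (f.1 = none ∧ y ≤ f.2.2)

/-- the faces below the row `y` together with the lower pocket -/
def lo (E : SEnv) (y : ℤ) : Finset (Option Bool × (ℤ × ℤ)) :=
  E.F.filter fun f => f.1 = some false ∨ (f.1 = none ∧ f.2.2 < y)

/-- the faces on the left of the column `x` together with both pockets -/
def lf (E : SEnv) (x : ℤ) : Finset (Option Bool × (ℤ × ℤ)) :=
  E.F.filter fun f => f.1 ≠ none ∨ f.2.1 < x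

/-- the cut row at height `y`: the sides `((x, y), (x + 1, y))` of the base sheet -/
def cutH (y : ℤ) (x : ℤ) : (Option Bool × (ℤ × ℤ)) × (Option Bool × (ℤ × ℤ)) :=
  ((none, (x, y)), (none, (x + 1, y)))

end SEnv

/-! ## The export -/

/-- every local uniform limit of the normalised functions is harmonic -/
def InH (P : Finset (ℤ × ℤ)) (z0 : ℂ) {ι : Type} (l : Filter ι) (n : ι → ℕ)
    (u : ι → ℤ × ℤ → ℝ) : Prop :=
  DC.AE l (fun i => nz (n i) z0 (u i)) (Om P) →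
    ∀ U : Ultrafilter ι, (U : Filter ι) ≤ l → ∀ f : ℂ → ℝ,
      TendstoLocallyUniformlyOn (fun i => nz (n i) z0 (u i)) f U (Om P) →
        InnerProductSpace.HarmonicOnNhd f (Om P)

end

end Pool.Agent.SixB
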