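import Pool.Agent.Lib.SixB.S3PlaneE

/-!
# 6BD step 3: plane boxes with natural phases on the outer boundary

`lab` = turning labels of the outer sides `Out`, `h a = zeta ^ lab a` on `Out`.
* `BoxH`, `BoxT`: the phases and the turnings of the arcs of the outer boundary;
* `wt_box`: irrelevant strands have the weights `√3` (arcs of the outer boundary) and `1` (closed);
* `box_approx`, `GlueZ.box`: `avc F Zs = r4 ^ card Out * (Zp + O(CP * thB ^ n))`.
-/

set_option autoImplicit false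
set_option linter.unusedSectionVars false

namespace Pool.Agent.SixB.Rel

open Pool.Agent.Perc Pool.Agent.Perc.Q Relation Filter Topology
open Pool.Agent.SixB hiding Zs_split dst_congr qt_congr dE_mono

noncomputable section

variable {V Φ : Type} [DecidableEq V] [DecidableEq Φ]
variable {Q : QC V Φ} {F : Finset Φ} {ω : Φ → Bool} {a b : V × V}
  {P Out X Y : Finset (V × V)} {lab : V × V → ℤ} {h g : V × V → ℂ}

/-- the weights: natural phases on the outer sides `Out`, arbitrary on `P`, `1` elsewhere -/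
structure BoxH (Q : QC V Φ) (F : Finset Φ) (P Out : Finset (V × V)) (lab : V × V → ℤ)
    (h : V × V → ℂ) : Prop where
  sub : Out ⊆ bS Q F
  all : ∀ a ∈ bS Q F, a ∈ Out ∨ a ∈ P ∨ a.swap ∈ P
  hO : ∀ a ∈ Out, h a = zeta ^ lab a
  hO' : ∀ a ∈ Out, h a.swap = zeta ^ (-lab a)
  h1 : ∀ a, a ∉ P → a.swap ∉ P → a ∉ Out → a.swap ∉ Out → h a = 1

/-- the turnings of closed strands and of the arcs of the outer boundary -/
structure BoxT (Q : QC V Φ) (F : Finset Φ) (ω : Φ → Bool) (Out : Finset (V × V))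
    (lab : V × V → ℤ) : Prop where
  closed : ∀ X ∈ dstr Q F ω, (∀ a ∈ X, ¬ Ini Q (F : Set Φ) a) →
    tX Q F ω X = 4 ∨ tX Q F ω X = -4
  arc : ∀ a ∈ Out, mate Q F ω a ∈ Out →
    turn Q F ω a = lab (mate Q F ω a) - lab a - 2 ∨ turn Q F ω a = lab (mate Q F ω a) - lab a + 2

theorem zeta_ne_zero : zeta ≠ 0 := Complex.exp_ne_zero _

theorem BoxH.norm_one (H : BoxH Q F P Out lab h) (h1 : a ∉ P) (h2 : a.swap ∉ P) : ‖h a‖ = 1 := by
  by_cases h3 : a ∈ Out
  · rw [H.hO a h3, norm_zpow, norm_zeta, one_zpow]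
  · by_cases h4 : a.swap ∈ Out
    · have := H.hO' _ h4
      rw [Prod.swap_swap] at this
      rw [this, norm_zpow, norm_zeta, one_zpow]
    · rw [H.h1 a h1 h2 h3 h4]
      exact NormOneClass.norm_one

/-- the product of the weights along an irrelevant arc of the outer boundary -/
theorem BoxH.prod_dst (H : BoxH Q F P Out lab h) (ha : a ∈ Out)
    (hn : ¬ touch P (dst Q F ω a)) :
    ∏ e ∈ dst Q F ω a, h e = h a * h (mate Q F ω a).swap := by
  have haB := H.sub ha
  have haI := (mem_bS.mp haB).2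
  have hb := mate_mem (ω := ω) haB
  set b := mate Q F ω a with hbdef
  have sab : SRel Q F ω a b.swap := by
    have h2 := srel_swap (srel_mate (ω := ω) haB)
    rw [Prod.swap_swap] at h2
    exact EqvGen.symm _ _ h2
  have hbT : Ter Q (F : Set Φ) b.swap := ter_swap.mpr (mem_bS.mp hb).2
  have hne : a ≠ b.swap := by
    intro h
    rw [h] at haI
    exact not_ini_ter (swap_mem_dE.mpr (mem_bS.mp hb).1) haI hbT
  refine Finset.prod_eq_mul a b.swap hne ?_ ?_ ?_
  · intro e he ⟨h1, h2⟩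
    obtain ⟨heE, hae⟩ := mem_dst.mp he
    have e1 : e ∉ P := fun h => hn (touch_iff.mpr ⟨e, he, Or.inl h⟩)
    have e2 : e.swap ∉ P := fun h => hn (touch_iff.mpr ⟨e, he, Or.inr h⟩)
    refine H.h1 e e1 e2 ?_ ?_
    · intro h3
      exact h1 (ini_unique haI (mem_bS.mp (H.sub h3)).2 hae).symm
    · intro h3
      have h4 : Ter Q (F : Set Φ) e := ini_swap.mp (mem_bS.mp (H.sub h3)).2
      have h5 := mate_unique (ω := ω) haI h4 hae
      rw [← hbdef] at h5
      exact h2 (by rw [h5, Prod.swap_swap])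
  · intro h
    exact absurd (self_mem_dst (mem_bS.mp haB).1) h
  · intro h
    exact absurd (mem_dst.mpr ⟨swap_mem_dE.mpr (mem_bS.mp hb).1, sab⟩) h

/-- **The weight of an irrelevant strand.** -/
theorem wt_box (hQ : NoLoop Q) (H : BoxH Q F P Out lab h) (hT : BoxT Q F ω Out lab)
    (hX : X ∈ dstr Q F ω) (hn : ¬ touch P X) :
    ∑ Y ∈ prs X, sw Q F ω h Y = ((r4 ^ cnt Out (prs X) : ℝ) : ℂ) := by
  rw [sum_prs hQ hX, sw_eq, sw_eq, tX_rv hX]
  unfold cnt
  rw [biUnion_prs]
  by_cases hc : ∀ a ∈ X, ¬ Ini Q (F : Set Φ) a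
  · have hT' : ∀ a ∈ X, ¬ Ter Q (F : Set Φ) a := by
      intro a ha ht
      obtain ⟨b, hb, hb2⟩ := ini_of_ter hX ha ht
      exact hc b hb hb2
    have hI : ∀ a ∈ Out, Ini Q (F : Set Φ) a := fun a ha => (mem_bS.mp (H.sub ha)).2
    have e1 : Out ∩ (X ∪ rv X) = ∅ := by
      rw [Finset.eq_empty_iff_forall_notMem]
      intro a ha
      obtain ⟨h1, h2⟩ := Finset.mem_inter.mp ha
      rcases Finset.mem_union.mp h2 with h3 | h3
      · exact hc a h3 (hI a h1)
      · exact hT' _ (mem_rv.mp h3) (ter_swap.mpr (hI a h1))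
    have key : ∀ a ∈ X ∪ rv X, h a = 1 := by
      intro a ha
      have h5 : a ∈ X ∨ a.swap ∈ X := by
        rcases Finset.mem_union.mp ha with h3 | h3
        · exact Or.inl h3
        · exact Or.inr (mem_rv.mp h3)
      have e1 : a ∉ P ∧ a.swap ∉ P := by
        rcases h5 with h5 | h5
        · exact ⟨fun h => hn (touch_iff.mpr ⟨a, h5, Or.inl h⟩),
            fun h => hn (touch_iff.mpr ⟨a, h5, Or.inr h⟩)⟩
        · exact ⟨fun h => hn (touch_iff.mpr ⟨_, h5, Or.inr (by rwa [Prod.swap_swap])⟩),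
            fun h => hn (touch_iff.mpr ⟨_, h5, Or.inl h⟩)⟩
      refine H.h1 a e1.1 e1.2 ?_ ?_
      · intro h3
        rcases h5 with h5 | h5
        · exact hc a h5 (hI a h3)
        · exact hT' _ h5 (ter_swap.mpr (hI a h3))
      · intro h3
        rcases h5 with h5 | h5
        · exact hT' a h5 (ini_swap.mp (hI _ h3))
        · exact hc _ h5 (hI _ h3)
    rw [e1, Finset.card_empty, pow_zero,
      Finset.prod_eq_one fun a ha => key a (Finset.mem_union_left _ ha),
      Finset.prod_eq_one fun a ha => key a (Finset.mem_union_right _ ha), one_mul, one_mul]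
    rcases hT.closed X hX hc with h | h
    · rw [h, zeta_four]
      norm_num
    · rw [h, neg_neg, add_comm, zeta_four]
      norm_num
  · push Not at hc
    obtain ⟨a, haX, haI⟩ := hc
    obtain ⟨haE, rfl⟩ := dstr_of_mem hX haX
    have ha : a ∈ bS Q F := mem_bS.mpr ⟨haE, haI⟩
    have hb := mate_mem (ω := ω) ha
    have hrv : rv (dst Q F ω a) = dst Q F ω (mate Q F ω a) := rv_dst_mate ha
    have hab : a ≠ mate Q F ω a := (mate_ne hQ ha).symm
    have hnb : ¬ touch P (dst Q F ω (mate Q F ω a)) := by rw [← hrv, touch_rv]; exact hn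
    have haO : a ∈ Out := by
      rcases H.all a ha with h | h
      · exact h
      · exact absurd (touch_iff.mpr ⟨a, haX, h⟩) hn
    have hbX : mate Q F ω a ∈ dst Q F ω (mate Q F ω a) := self_mem_dst (mem_bS.mp hb).1
    have hbO : mate Q F ω a ∈ Out := by
      rcases H.all _ hb with h | h
      · exact h
      · exact absurd (touch_iff.mpr ⟨_, hbX, h⟩) hnb
    have e1 : Out ∩ (dst Q F ω a ∪ rv (dst Q F ω a)) = {a, mate Q F ω a} := by
      rw [hrv]
      ext e
      simp only [Finset.mem_inter, Finset.mem_union, Finset.mem_insert, Finset.mem_singleton]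
      constructor
      · rintro ⟨h1, h2 | h2⟩
        · exact Or.inl (ini_unique haI (mem_bS.mp (H.sub h1)).2 (mem_dst.mp h2).2).symm
        · exact Or.inr (ini_unique (mem_bS.mp hb).2 (mem_bS.mp (H.sub h1)).2
            (mem_dst.mp h2).2).symm
      · rintro (rfl | rfl)
        · exact ⟨haO, Or.inl haX⟩
        · exact ⟨hbO, Or.inr hbX⟩
    rw [e1, Finset.card_pair hab, hrv, H.prod_dst haO hn, H.prod_dst hbO hnb, mate_mate ha,
      H.hO a haO, H.hO' _ hbO, H.hO _ hbO, H.hO' a haO, ← zpow_add₀ zeta_ne_zero,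
      ← zpow_add₀ zeta_ne_zero, ← zpow_add₀ zeta_ne_zero, ← zpow_add₀ zeta_ne_zero]
    have ht := hT.arc a haO hbO
    unfold turn at ht
    rcases ht with ht | ht
    · rw [ht]
      have h1 : lab a + -lab (mate Q F ω a) + (lab (mate Q F ω a) - lab a - 2) = -2 := by ring
      have h2 : lab (mate Q F ω a) + -lab a + -(lab (mate Q F ω a) - lab a - 2) = 2 := by ring
      rw [h1, h2, add_comm]
      exact zeta_sum_two
    · rw [ht]
      have h1 : lab a + -lab (mate Q F ω a) + (lab (mate Q F ω a) - lab a + 2) = 2 := by ring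
      have h2 : lab (mate Q F ω a) + -lab a + -(lab (mate Q F ω a) - lab a + 2) = -2 := by ring
      rw [h1, h2]
      exact zeta_sum_two

theorem Zn_box (hQ : NoLoop Q) (H : BoxH Q F P Out lab h) (hT : BoxT Q F ω Out lab) :
    Zn Q F ω h P = ((r4 ^ (∑ U ∈ ((dstr Q F ω).filter (fun X => ¬ touch P X)).image prs,
      cnt Out U) : ℝ) : ℂ) := by
  unfold Zn
  rw [← Finset.prod_pow_eq_pow_sum, Complex.ofReal_prod]
  refine Finset.prod_congr rfl fun U hU => ?_
  obtain ⟨X, hX, rfl⟩ := Finset.mem_image.mp hU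
  obtain ⟨h1, h2⟩ := Finset.mem_filter.mp hX
  exact wt_box hQ H hT h1 h2

theorem norm_Zn_box (hQ : NoLoop Q) (H : BoxH Q F P Out lab h) (hT : BoxT Q F ω Out lab) :
    ‖Zn Q F ω h P‖ ≤ r4 ^ Out.card := by
  have r0 := r4_pos
  rw [Zn_box hQ H hT, Complex.norm_real, Real.norm_eq_abs, abs_of_pos (by positivity)]
  exact pow_le_pow_right₀ r4_ge (sum_cnt (Finset.filter_subset _ _) _)

theorem Zn_box_eval (hQ : NoLoop Q) (H : BoxH Q F P Out lab h) (hT : BoxT Q F ω Out lab)
    (hn : ∀ a ∈ Out, ¬ touch P (dst Q F ω a)) : Zn Q F ω h P = ((r4 ^ Out.card : ℝ) : ℂ) := by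
  rw [Zn_box hQ H hT, sum_cnt_eq (Finset.filter_subset _ _)]
  intro a ha
  have h3 := (mem_bS.mp (H.sub ha)).1
  exact ⟨h3, Finset.mem_filter.mpr ⟨mem_dstr.mpr ⟨a, h3, rfl⟩, hn a ha⟩⟩

/-! ## Bound of the relevant part -/

theorem norm_sw_le' (hh : ∀ a, a ∉ P → a.swap ∉ P → ‖h a‖ = 1)
    {U : Finset (V × V)} (hU : X ⊆ U) :
    ‖sw Q F ω h X‖ ≤ ∏ a ∈ (P ∪ rv P) ∩ U, max 1 ‖h a‖ := by
  have e1 : ‖sw Q F ω h X‖ = ∏ a ∈ X, ‖h a‖ := by
    unfold sw
    rw [norm_prod]
    refine Finset.prod_congr rfl fun a _ => ?_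
    rw [norm_mul, norm_zpow, norm_zeta, one_zpow, mul_one]
  have e2 : ∏ a ∈ X, ‖h a‖ = ∏ a ∈ (P ∪ rv P) ∩ X, ‖h a‖ := by
    symm
    apply Finset.prod_subset Finset.inter_subset_right
    intro a ha hn
    have h1 : a ∉ P ∪ rv P := fun h => hn (Finset.mem_inter.mpr ⟨h, ha⟩)
    rw [Finset.mem_union, mem_rv, not_or] at h1
    rw [hh a h1.1 h1.2]
  rw [e1, e2]
  calc ∏ a ∈ (P ∪ rv P) ∩ X, ‖h a‖ ≤ ∏ a ∈ (P ∪ rv P) ∩ X, max 1 ‖h a‖ :=
        Finset.prod_le_prod (fun _ _ => norm_nonneg _) fun _ _ => le_max_right _ _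
    _ ≤ ∏ a ∈ (P ∪ rv P) ∩ U, max 1 ‖h a‖ := by
        apply Finset.prod_le_prod_of_subset_of_one_le
        · exact Finset.inter_subset_inter_left hU
        · intro a _
          exact le_trans zero_le_one (le_max_left _ _)
        · intro a _ _
          exact le_max_left _ _

theorem norm_Zr_le' (hQ : NoLoop Q) (hh : ∀ a, a ∉ P → a.swap ∉ P → ‖h a‖ = 1) :
    ‖Zr Q F ω h P‖ ≤ CP h P := by
  unfold Zr
  rw [norm_prod]
  set D := (dstr Q F ω).filter (touch P) with hD
  have hDs : D ⊆ dstr Q F ω := Finset.filter_subset _ _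
  have h1 : ∀ U ∈ D.image prs, ‖∑ X ∈ U, sw Q F ω h X‖ ≤
      2 * ∏ a ∈ (P ∪ rv P) ∩ U.biUnion id, max 1 ‖h a‖ := by
    intro U hU
    obtain ⟨X, hX, rfl⟩ := Finset.mem_image.mp hU
    rw [sum_prs hQ (hDs hX), biUnion_prs]
    calc ‖sw Q F ω h X + sw Q F ω h (rv X)‖ ≤ ‖sw Q F ω h X‖ + ‖sw Q F ω h (rv X)‖ :=
          norm_add_le _ _
      _ ≤ _ := by
          rw [two_mul]
          exact add_le_add (norm_sw_le' hh Finset.subset_union_left)
            (norm_sw_le' hh Finset.subset_union_right)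
  calc ∏ U ∈ D.image prs, ‖∑ X ∈ U, sw Q F ω h X‖
      ≤ ∏ U ∈ D.image prs, (2 * ∏ a ∈ (P ∪ rv P) ∩ U.biUnion id, max 1 ‖h a‖) :=
        Finset.prod_le_prod (fun _ _ => norm_nonneg _) h1
    _ = 2 ^ (D.image prs).card *
        ∏ U ∈ D.image prs, ∏ a ∈ (P ∪ rv P) ∩ U.biUnion id, max 1 ‖h a‖ := by
        rw [Finset.prod_mul_distrib, Finset.prod_const]
    _ ≤ CP h P := by
        unfold CP
        apply mul_le_mul
        · apply pow_le_pow_right₀ (by norm_num)
          refine le_trans ?_ (sum_cnt hDs P)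
          rw [Finset.card_eq_sum_ones]
          apply Finset.sum_le_sum
          intro U hU
          obtain ⟨X, hX, rfl⟩ := Finset.mem_image.mp hU
          unfold cnt
          rw [biUnion_prs, Nat.one_le_iff_ne_zero, ← Nat.pos_iff_ne_zero, Finset.card_pos]
          obtain ⟨a, ha, h2⟩ := touch_iff.mp (Finset.mem_filter.mp hX).2
          rcases h2 with h2 | h2
          · exact ⟨a, Finset.mem_inter.mpr ⟨h2, Finset.mem_union_left _ ha⟩⟩
          · refine ⟨a.swap, Finset.mem_inter.mpr ⟨h2, Finset.mem_union_right _ ?_⟩⟩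
            rw [mem_rv, Prod.swap_swap]
            exact ha
        · rw [← Finset.prod_biUnion]
          · apply Finset.prod_le_prod_of_subset_of_one_le
            · intro a ha
              obtain ⟨U, _, h2⟩ := Finset.mem_biUnion.mp ha
              exact (Finset.mem_inter.mp h2).1
            · intro a _
              exact le_trans zero_le_one (le_max_left _ _)
            · intro a _ _
              exact le_max_left _ _
          · intro U hU W hW hne
            obtain ⟨X, hX, rfl⟩ := Finset.mem_image.mp hU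
            obtain ⟨Y, hY, rfl⟩ := Finset.mem_image.mp hW
            show Disjoint ((P ∪ rv P) ∩ (prs X).biUnion id) ((P ∪ rv P) ∩ (prs Y).biUnion id)
            rw [biUnion_prs, biUnion_prs]
            exact (prs_disj (hDs hX) (hDs hY) hne).mono Finset.inter_subset_right
              Finset.inter_subset_right
        · exact Finset.prod_nonneg fun U _ => Finset.prod_nonneg fun a _ =>
            le_trans zero_le_one (le_max_left _ _)
        · positivity

/-! ## The box -/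

/-- **The sum of the box.** -/
theorem box_approx (hQ : NoLoop Q) {A R D : Finset Φ} (hAD : Disjoint (dE Q A) (dE Q D))
    (hP : P ⊆ dE Q A) (H : BoxH Q (A ∪ R ∪ D) P Out lab h)
    (hT : ∀ ω, BoxT Q (A ∪ R ∪ D) ω Out lab) (hOut : Out ⊆ dE Q ((A ∪ R ∪ D) \ (A ∪ R)))
    (hg : ∀ a ∈ dE Q (A ∪ R), g a = h a) :
    ‖avc (A ∪ R ∪ D) (fun ω => Zs Q (A ∪ R ∪ D) ω h) -
      ((r4 ^ Out.card : ℝ) : ℂ) * zplO Q A R ∅ g P‖ ≤
      r4 ^ Out.card * (2 * CP h P * av R (fun ω => ic (¬ Blk Q R ω (dE Q A) (dE Q D)))) := by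
  have r0 := r4_pos
  set F := A ∪ R ∪ D with hF
  have hsub : A ∪ R ⊆ F := Finset.subset_union_left
  have hR : R ⊆ F := Finset.subset_union_right.trans hsub
  have c0 := CP_nonneg h P
  have hn1 : ∀ a, a ∉ P → a.swap ∉ P → ‖h a‖ = 1 := fun a h1 h2 => H.norm_one h1 h2
  have hdep : Dep ((A ∪ R : Finset Φ) : Set Φ) (fun ω => Zr Q (A ∪ R) ω g P) := by
    intro ω ω' hω
    exact Zr_congr_cfg fun f hf => hω f (by exact_mod_cast hf)
  rw [zplO_empty, ← avc_dep hdep hsub, ← avc_mul, ← avc_sub]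
  have herr : ∀ S ⊆ F, ‖Zs Q F (ind S) h - ((r4 ^ Out.card : ℝ) : ℂ) *
      Zr Q (A ∪ R) (ind S) g P‖ ≤
      r4 ^ Out.card * (2 * CP h P) * ic (¬ Blk Q R (ind S) (dE Q A) (dE Q D)) := by
    intro S _
    have e1 : Zr Q (A ∪ R) (ind S) g P = Zr Q (A ∪ R) (ind S) h P :=
      Zr_congr hg
    by_cases hb : Blk Q R (ind S) (dE Q A) (dE Q D)
    · have hconf := conf_of_blk hAD hP hb
      rw [← hF] at hconf
      rw [Zs_split Q F (ind S) h P, Zr_sub h hsub (hP.trans (dE_mono Finset.subset_union_left))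
        hconf, Zn_box_eval hQ H (hT _), e1, ic_not (not_not.mpr hb), mul_zero, mul_comm, sub_self,
        norm_zero]
      intro a ha ht
      have haE := (mem_bS.mp (H.sub ha)).1
      have h1 : dst Q F (ind S) a ∈ (dstr Q F (ind S)).filter (touch P) :=
        Finset.mem_filter.mpr ⟨mem_dstr.mpr ⟨a, haE, rfl⟩, ht⟩
      rw [filter_sub hsub (hP.trans (dE_mono Finset.subset_union_left)) hconf] at h1
      have h2 := hconf _ (Finset.mem_filter.mp h1).1 ht
      exact Finset.disjoint_left.mp h2 (self_mem_dst haE) (hOut ha)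
    · rw [ic_of hb, mul_one]
      have n1 : ‖Zs Q F (ind S) h‖ ≤ CP h P * r4 ^ Out.card := by
        rw [Zs_split Q F (ind S) h P, norm_mul]
        exact mul_le_mul (norm_Zr_le' hQ hn1) (norm_Zn_box hQ H (hT _)) (norm_nonneg _) c0
      have n2 : ‖((r4 ^ Out.card : ℝ) : ℂ) * Zr Q (A ∪ R) (ind S) g P‖ ≤ r4 ^ Out.card * CP h P := by
        rw [norm_mul, Complex.norm_real, Real.norm_eq_abs, abs_of_pos (by positivity), e1]
        exact mul_le_mul_of_nonneg_left (norm_Zr_le' hQ hn1) (by positivity)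
      refine (norm_sub_le _ _).trans ((add_le_add n1 n2).trans (le_of_eq ?_))
      ring
  refine (norm_avc_le (f := fun ω => r4 ^ Out.card * (2 * CP h P) *
    ic (¬ Blk Q R ω (dE Q A) (dE Q D))) herr).trans ?_
  rw [av_mul, av_dep dep_nblk hR]
  exact le_of_eq (by ring)

end

end Pool.Agent.SixB.Rel
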