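import Pool.Agent.Lib.SixB.S3bTurns
import Pool.Agent.Lib.SixB.S3EnvN
import Pool.Agent.Lib.SixB.S3CutW
import Pool.Agent.Lib.SixB.S3PlaneG

/-!
# The environments of slabs: T1 and turnings of the environments and of their doubles

* `CovOK.box`, `DblOK.box`: `Rel.BoxT` for the plane with pockets and its doubles.
* `Slb.Ok.topOK`: the environment of a slab satisfies the topological hypotheses.
* `SEnv.TopOK.hi`, `lo`, `lf`: `DblOK` for the upper, the lower and the left part of an environment.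
* `SPOK.cyl`: `CovOK` on the cylinder.
-/

set_option autoImplicit false
set_option linter.unusedSectionVars false
set_option linter.unnecessarySeqFocus false

namespace Pool.Agent.SixB

open Pool.Agent.Perc Pool.Agent.Perc.Q

section BoxT

set_option synthInstance.maxSize 1000

variable {ι κ : Type} [DecidableEq ι] {p pf : ℤ × ℤ → ℤ × ℤ}
  {σ : ℤ × ℤ → ZMod 4 → Equiv.Perm (Option ι)} {μ : ι → Mouth} {U : ι → Set (ℤ × ℤ)}
  {B0 : Set (ℤ × ℤ)} {J : Set ι} {x₀ x₁ y₀ y₁ X : ℤ}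
  {m : κ → (Option ι × (ℤ × ℤ)) × (Option ι × (ℤ × ℤ))} {θv θf : ℤ × ℤ → ℤ × ℤ} {s : ZMod 4}
  {H : Set (ℤ × ℤ)} {F : Finset (Option ι × (ℤ × ℤ))} {F' : Finset ((Option ι × (ℤ × ℤ)) × Bool)}

theorem CovOK.box (h : CovOK ZQ p pf σ μ U B0) (hx : x₀ < x₁) (hy : y₀ < y₁) (h0 : x₀ ≤ X)
    (h1 : X ≤ x₁) (hF : (F : Set (Option ι × (ℤ × ℤ))) = covJ pf U B0 J)
    (hB : B0 ⊆ RS x₀ x₁ y₀ y₁) (htri : ∀ i f, (μ i).tri f → pf f ∈ RS x₀ x₁ y₀ y₁)
    {Eo : Finset ((Option ι × (ℤ × ℤ)) × (Option ι × (ℤ × ℤ)))}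
    (ho : ∀ a ∈ Eo, ∃ e, a = lf0 ι e ∧ e ∈ Sides ZQ B0 ∧ e.swap ∉ Sides ZQ (RS x₀ x₁ y₀ y₁))
    (ω : Option ι × (ℤ × ℤ) → Bool) :
    Rel.BoxT (SQ ZQ σ) F ω Eo (fun a => boxLab X (Prod.map Prod.snd Prod.snd a)) := by
  obtain ⟨h2, h3⟩ := h.boxT hx hy h0 h1 hF hB htri ho ω
  exact ⟨fun X hX hX' => h2.tX hX hX', fun a ha hm => (h3 a ha).2 hm⟩

theorem DblOK.box (h : DblOK ZQ p pf σ μ U B0 J m θv θf s H) (hx : x₀ < x₁) (hy : y₀ < y₁)
    (h0 : x₀ ≤ X) (h1 : X ≤ x₁) (hF : (F : Set (Option ι × (ℤ × ℤ))) = covJ pf U B0 J)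
    (hm : OneSided (SQ ZQ σ) F m)
    (hR : ∀ g ∈ B0 ∪ ⋃ i ∈ J, pf '' {f | (μ i).tri f}, g ∈ RS x₀ x₁ y₀ y₁ ∧ θf g ∈ RS x₀ x₁ y₀ y₁)
    (hF' : ∀ z, z ∈ F' ↔ z.1 ∈ F)
    {Eo : Finset (((Option ι × (ℤ × ℤ)) × Bool × Bool) × ((Option ι × (ℤ × ℤ)) × Bool × Bool))}
    (ho : ∀ a ∈ Eo, (∃ e, a = dblA m false (lf0 ι e) ∧ e ∈ Sides ZQ B0 ∧
        e.swap ∉ Sides ZQ (RS x₀ x₁ y₀ y₁)) ∨
      ∃ e, a = dblA m true (lf0 ι e) ∧ e.swap ∈ Sides ZQ B0 ∧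
        (Prod.map θv θv e).swap ∉ Sides ZQ (RS x₀ x₁ y₀ y₁))
    (ω : (Option ι × (ℤ × ℤ)) × Bool → Bool) :
    Rel.BoxT (dbl (SQ ZQ σ) F m hm) F' ω Eo
      (fun a => boxLab X (Prod.map (dpos θv) (dpos θv) a)) := by
  obtain ⟨h2, h3⟩ := h.boxT hx hy h0 h1 hF hm hR hF' ho ω
  exact ⟨fun X hX hX' => h2.tX hX hX', fun a ha hm => (h3 a ha).2 hm⟩

end BoxT

/-! ## Shifts -/

theorem shv_inj (X : ℤ) : Function.Injective (shv X) := by
  rintro ⟨a, b⟩ ⟨c, d⟩ h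
  obtain ⟨h1, h2⟩ := Prod.mk.inj h
  exact Prod.ext (by simp only at h1 ⊢; omega) h2

theorem shv_cor (X : ℤ) (f : ℤ × ℤ) (k : ZMod 4) : ZQ.c (shv X f) k = shv X (ZQ.c f k) := by
  obtain ⟨x, y⟩ := f
  rcases k4_cases k with rfl | rfl | rfl | rfl
  · rfl
  · show ((x + X + 1, y) : ℤ × ℤ) = (x + 1 + X, y)
    ext <;> simp only <;> ring
  · show ((x + X + 1, y + 1) : ℤ × ℤ) = (x + 1 + X, y + 1)
    ext <;> simp only <;> ring
  · rfl

theorem disc_shv {U : Set (ℤ × ℤ)} (X : ℤ) (h : ∃ w, Disc ZQ U (Glued ZQ U) w) :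
    ∃ w, Disc ZQ (shv X '' U) (Glued ZQ (shv X '' U)) w := by
  obtain ⟨w, hw⟩ := h
  refine ⟨_, hw.lift (Q := ZQ) (φ := shv X) (r := 0) (pv := id) (pos := shv X) ⟨?_, ?_, ?_⟩⟩
  · intro f _ k
    rw [add_zero]
    exact shv_cor X f k
  · exact (shv_inj X).injOn
  · intro f _ k g _ l h
    rw [add_zero, add_zero]
    have e : ∀ (f : ℤ × ℤ) (k : ZMod 4), sd ZQ (shv X f) k = Prod.map (shv X) (shv X) (sd ZQ f k) :=
      fun f k => Prod.ext (shv_cor X f k) (shv_cor X f (k + 1))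
    rw [e, e, ← h]
    rfl

theorem mem_shF {X : ℤ} {S : Finset (ℤ × ℤ)} {f : ℤ × ℤ} : f ∈ shF X S ↔ (f.1 - X, f.2) ∈ S := by
  unfold shF
  rw [Finset.mem_image]
  constructor
  · rintro ⟨g, hg, rfl⟩
    unfold shv
    simpa using hg
  · intro h
    exact ⟨_, h, by unfold shv; simp⟩

theorem disc_shF {S : Finset (ℤ × ℤ)} (X : ℤ)
    (h : ∃ w, Disc ZQ (S : Set (ℤ × ℤ)) (Glued ZQ (S : Set (ℤ × ℤ))) w) :
    ∃ w, Disc ZQ (shF X S : Set (ℤ × ℤ)) (Glued ZQ (shF X S : Set (ℤ × ℤ))) w := by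
  have h1 := disc_shv X h
  unfold shF
  rw [Finset.coe_image]
  exact h1

/-! ## Slabs -/

/-- **The environments of slabs satisfy the topological hypotheses.** -/
theorem Slb.Ok.topOK {S : Slb} (h : S.Ok) (W : Finset (ℤ × ℤ)) (X Y : ℤ) : (S.env W X Y).TopOK := by
  have ha := h.ha
  have hak := h.hak
  have hx := h.hx
  have h1 : S.yc - (S.k : ℤ) < S.yc - S.a := by omega
  have h2 : S.yc - (S.a : ℤ) < S.yc + S.a := by omega
  have h3 : S.yc + (S.a : ℤ) < S.yc + S.k := by omega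
  have hc : ((3 * S.k + (S.x2 - S.x1).toNat : ℕ) : ℤ) = 3 * S.k + (S.x2 - S.x1) := by
    push_cast
    omega
  refine ⟨?_, ?_, ?_, ?_, ?_, ?_, ?_, ?_, ?_, ?_, ?_, ?_, ?_, ?_, ?_⟩
  · exact disc_shF X (mpoly_up h.poly h.slab h1 h2 h3).exists_disc
  · exact disc_shF Y (mpoly_lo h.poly h.slab h1 h2 h3).exists_disc
  · show S.x1 + X ≤ S.x2 + X
    omega
  · show S.x1 + Y ≤ S.x2 + Y
    omega
  · intro x hx1 hx2
    show (x, S.yc + (S.a : ℤ)) ∈ shF X S.Up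
    have hx1' : S.x1 + X ≤ x := hx1
    have hx2' : x < S.x2 + X := hx2
    rw [mem_shF]
    exact up_window h.slab h1 h2 (by simp only; omega) (by simp only; omega) le_rfl h3
  · intro x hx1 hx2 hm
    have hx1' : S.x1 + X ≤ x := hx1
    have hx2' : x < S.x2 + X := hx2
    have hm' : (x, S.yc + (S.a : ℤ) - 1) ∈ shF X S.Up := hm
    rw [mem_shF] at hm'
    refine Finset.disjoint_left.1 up_slab hm' ?_
    rw [mem_RF]
    simp only
    omega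
  · intro hm
    have hm' : (S.x1 + X - 1, S.yc + (S.a : ℤ)) ∈ shF X S.Up := hm
    rw [mem_shF] at hm'
    have h4 := up_sub hm'
    refine h.slab.left (S.yc + S.a) (by omega) h3 (Finset.mem_coe.2 ?_)
    rwa [show S.x1 + X - 1 - X = S.x1 - 1 by ring] at h4
  · intro hm
    have hm' : (S.x2 + X, S.yc + (S.a : ℤ)) ∈ shF X S.Up := hm
    rw [mem_shF] at hm'
    have h4 := up_sub hm'
    refine h.slab.right (S.yc + S.a) (by omega) h3 (Finset.mem_coe.2 ?_)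
    rwa [show S.x2 + X - X = S.x2 by ring] at h4
  · intro x hx1 hx2
    show (x, S.yc - (S.a : ℤ) - 1) ∈ shF Y S.Lo
    have hx1' : S.x1 + Y ≤ x := hx1
    have hx2' : x < S.x2 + Y := hx2
    rw [mem_shF]
    exact lo_window h.slab h2 h3 (by simp only; omega) (by simp only; omega)
      (by simp only; omega) (by simp only; omega)
  · intro x hx1 hx2 hm
    have hx1' : S.x1 + Y ≤ x := hx1
    have hx2' : x < S.x2 + Y := hx2
    have hm' : (x, S.yc - (S.a : ℤ)) ∈ shF Y S.Lo := hm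
    rw [mem_shF] at hm'
    refine Finset.disjoint_left.1 lo_slab hm' ?_
    rw [mem_RF]
    simp only
    omega
  · intro hm
    have hm' : (S.x1 + Y - 1, S.yc - (S.a : ℤ) - 1) ∈ shF Y S.Lo := hm
    rw [mem_shF] at hm'
    have h4 := lo_sub hm'
    refine h.slab.left (S.yc - S.a - 1) (by omega) (by omega) (Finset.mem_coe.2 ?_)
    rwa [show S.x1 + Y - 1 - Y = S.x1 - 1 by ring] at h4
  · intro hm
    have hm' : (S.x2 + Y, S.yc - (S.a : ℤ) - 1) ∈ shF Y S.Lo := hm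
    rw [mem_shF] at hm'
    have h4 := lo_sub hm'
    refine h.slab.right (S.yc - S.a - 1) (by omega) (by omega) (Finset.mem_coe.2 ?_)
    rwa [show S.x2 + Y - Y = S.x2 by ring] at h4
  · show S.x2 + X - (S.x1 + X) ≤ 2 * (((3 * S.k + (S.x2 - S.x1).toNat : ℕ) : ℤ) - S.a)
    rw [hc]
    omega
  · show S.x2 + Y - (S.x1 + Y) ≤ 2 * (((3 * S.k + (S.x2 - S.x1).toNat : ℕ) : ℤ) - S.a)
    rw [hc]
    omega
  · show S.yc - (S.a : ℤ) < S.yc + S.a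
    omega

/-! ## Parts of environments -/

namespace SEnv

variable {E : SEnv} {κ : Type}
  {m : κ → (Option Bool × (ℤ × ℤ)) × (Option Bool × (ℤ × ℤ))} {Y X : ℤ}

theorem mem_F {E : SEnv} {f : Option Bool × (ℤ × ℤ)} : f ∈ E.F ↔
    (f.1 = none ∧ f.2 ∈ E.base) ∨ (f.1 = some true ∧ f.2 ∈ E.U) ∨ (f.1 = some false ∧ f.2 ∈ E.L) := by
  obtain ⟨s, f⟩ := f
  unfold SEnv.F
  simp only [Finset.mem_union, Finset.mem_image, Prod.mk.injEq]
  constructor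
  · rintro ((⟨g, hg, rfl, rfl⟩ | ⟨g, hg, rfl, rfl⟩) | ⟨g, hg, rfl, rfl⟩)
    · exact Or.inl ⟨rfl, hg⟩
    · exact Or.inr (Or.inl ⟨rfl, hg⟩)
    · exact Or.inr (Or.inr ⟨rfl, hg⟩)
  · rintro (⟨rfl, hg⟩ | ⟨rfl, hg⟩ | ⟨rfl, hg⟩)
    · exact Or.inl (Or.inl ⟨f, hg, rfl, rfl⟩)
    · exact Or.inl (Or.inr ⟨f, hg, rfl, rfl⟩)
    · exact Or.inr ⟨f, hg, rfl, rfl⟩

theorem coe_part {P : Option Bool × (ℤ × ℤ) → Prop} [DecidablePred P] {J : Set Bool}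
    {B0 : Set (ℤ × ℤ)} (h0 : ∀ f, f ∈ B0 ↔ f ∈ E.base ∧ P (none, f))
    (h1 : ∀ (b : Bool) (f : ℤ × ℤ), f ∈ E.pk b → (P (some b, f) ↔ b ∈ J)) :
    ((E.F.filter P : Finset (Option Bool × (ℤ × ℤ))) : Set (Option Bool × (ℤ × ℤ))) =
      covJ id E.pk B0 J := by
  ext ⟨s, f⟩
  rw [Finset.mem_coe, Finset.mem_filter, mem_F]
  unfold covJ bF pF
  simp only [Set.mem_union, Set.mem_image, Set.mem_iUnion, Prod.mk.injEq, id, exists_prop]
  constructor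
  · rintro ⟨⟨rfl, hf⟩ | ⟨rfl, hf⟩ | ⟨rfl, hf⟩, hP⟩
    · exact Or.inl ⟨f, (h0 f).2 ⟨hf, hP⟩, rfl, rfl⟩
    · exact Or.inr ⟨true, (h1 true f hf).1 hP, f, hf, rfl, rfl⟩
    · exact Or.inr ⟨false, (h1 false f hf).1 hP, f, hf, rfl, rfl⟩
  · rintro (⟨g, hg, rfl, rfl⟩ | ⟨b, hb, g, hg, rfl, rfl⟩)
    · obtain ⟨h2, h3⟩ := (h0 g).1 hg
      exact ⟨Or.inl ⟨rfl, h2⟩, h3⟩
    · refine ⟨?_, (h1 b g hg).2 hb⟩
      cases b
      · exact Or.inr (Or.inr ⟨rfl, hg⟩)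
      · exact Or.inr (Or.inl ⟨rfl, hg⟩)

theorem coe_hi : (E.hi Y : Set (Option Bool × (ℤ × ℤ))) =
    covJ id E.pk {f | f ∈ E.base ∧ Y ≤ f.2} {true} := by
  unfold SEnv.hi
  apply coe_part
  · intro f
    simp
  · intro b f _
    cases b <;> simp

theorem coe_lo : (E.lo Y : Set (Option Bool × (ℤ × ℤ))) =
    covJ id E.pk {f | f ∈ E.base ∧ f.2 < Y} {false} := by
  unfold SEnv.lo
  apply coe_part
  · intro f
    simp
  · intro b f _
    cases b <;> simp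

theorem coe_lf : (E.lf X : Set (Option Bool × (ℤ × ℤ))) =
    covJ id E.pk {f | f ∈ E.base ∧ f.1 < X} Set.univ := by
  unfold SEnv.lf
  apply coe_part
  · intro f
    simp
  · intro b f _
    simp

/-- **The upper part.** -/
theorem TopOK.hi (h : E.TopOK) (hY : Y < E.gu.yc + E.gu.a)
    (hc : ∀ v, onCut m v → v.1 = none ∧ v.2.2 = Y) :
    DblOK ZQ id id (msig E.mu) E.mu E.pk {f | f ∈ E.base ∧ Y ≤ f.2} {true} m (hrv Y) (hrf Y) 3
      {f | Y ≤ f.2} where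
  cov := h.spok.cov.mono fun f hf => Finset.mem_coe.2 hf.1
  ref := refZ_up Y
  half0 := fun f hf => hf.2
  halfT := by
    intro i hi f hf
    obtain rfl : i = true := hi
    have h1 : 0 ≤ f.2 - (E.gu.yc + E.gu.a) := hf.1
    show Y ≤ f.2
    omega
  cut := by
    intro v hv
    obtain ⟨h1, h2⟩ := hc v hv
    refine ⟨h1, Prod.ext rfl ?_⟩
    show 2 * Y - v.2.2 = v.2.2
    omega
  nocut := by
    intro i hi x _ _ he
    obtain rfl : i = true := hi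
    have h1 : 2 * Y - (E.gu.yc + E.gu.a) = E.gu.yc + E.gu.a := congrArg Prod.snd he
    omega

/-- **The lower part.** -/
theorem TopOK.lo (h : E.TopOK) (hY : E.gd.yc - E.gd.a < Y)
    (hc : ∀ v, onCut m v → v.1 = none ∧ v.2.2 = Y) :
    DblOK ZQ id id (msig E.mu) E.mu E.pk {f | f ∈ E.base ∧ f.2 < Y} {false} m (hrv Y) (hrf Y) 3
      {f | f.2 < Y} where
  cov := h.spok.cov.mono fun f hf => Finset.mem_coe.2 hf.1
  ref := refZ_dn Y
  half0 := fun f hf => hf.2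
  halfT := by
    intro i hi f hf
    obtain rfl : i = false := hi
    have h1 : 0 ≤ E.gd.yc - E.gd.a - 1 - f.2 := hf.1
    show f.2 < Y
    omega
  cut := by
    intro v hv
    obtain ⟨h1, h2⟩ := hc v hv
    refine ⟨h1, Prod.ext rfl ?_⟩
    show 2 * Y - v.2.2 = v.2.2
    omega
  nocut := by
    intro i hi x _ _ he
    obtain rfl : i = false := hi
    have h1 : 2 * Y - (E.gd.yc - E.gd.a) = E.gd.yc - E.gd.a := congrArg Prod.snd he
    omega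

/-- **The left part.** -/
theorem TopOK.lf (h : E.TopOK) (h1 : E.gu.x2 < X) (h2 : E.gd.x2 < X)
    (hc : ∀ v, onCut m v → v.1 = none ∧ v.2.1 = X) :
    DblOK ZQ id id (msig E.mu) E.mu E.pk {f | f ∈ E.base ∧ f.1 < X} Set.univ m (vrv X) (vrf X) 1
      {f | f.1 < X} where
  cov := h.spok.cov.mono fun f hf => Finset.mem_coe.2 hf.1
  ref := refZ_lf X
  half0 := fun f hf => hf.2
  halfT := by
    intro i _ f hf
    show f.1 < X
    cases i with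
    | true =>
      obtain ⟨h3, -, h4⟩ := hf
      have h5 : 0 ≤ f.2 - (E.gu.yc + E.gu.a) := h3
      have h6 : f.1 < E.gu.x2 - (f.2 - (E.gu.yc + E.gu.a)) := h4
      omega
    | false =>
      obtain ⟨h3, -, h4⟩ := hf
      have h5 : 0 ≤ E.gd.yc - E.gd.a - 1 - f.2 := h3
      have h6 : f.1 < E.gd.x2 - (E.gd.yc - E.gd.a - 1 - f.2) := h4
      omega
  cut := by
    intro v hv
    obtain ⟨h3, h4⟩ := hc v hv
    refine ⟨h3, Prod.ext ?_ rfl⟩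
    show 2 * X - v.2.1 = v.2.1
    omega
  nocut := by
    intro i _ x _ hx he
    have h3 : 2 * X - x = x := congrArg Prod.fst he
    cases i with
    | true =>
      have h4 : x ≤ E.gu.x2 := hx
      omega
    | false =>
      have h4 : x ≤ E.gd.x2 := hx
      omega

theorem TopOK.t1_hi (h : E.TopOK) (hY : Y < E.gu.yc + E.gu.a)
    (hc : ∀ v, onCut m v → v.1 = none ∧ v.2.2 = Y) (hm : OneSided E.Q (E.hi Y) m)
    (ω : (Option Bool × (ℤ × ℤ)) × Bool → Bool) :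
    T1 (dbl E.Q (E.hi Y) m hm) ω (dF (E.hi Y : Set (Option Bool × (ℤ × ℤ)))) :=
  (h.hi hY hc).t1 coe_hi t1_plane hm ω

theorem TopOK.t1_lo (h : E.TopOK) (hY : E.gd.yc - E.gd.a < Y)
    (hc : ∀ v, onCut m v → v.1 = none ∧ v.2.2 = Y) (hm : OneSided E.Q (E.lo Y) m)
    (ω : (Option Bool × (ℤ × ℤ)) × Bool → Bool) :
    T1 (dbl E.Q (E.lo Y) m hm) ω (dF (E.lo Y : Set (Option Bool × (ℤ × ℤ)))) :=
  (h.lo hY hc).t1 coe_lo t1_plane hm ω

theorem TopOK.t1_lf (h : E.TopOK) (h1 : E.gu.x2 < X) (h2 : E.gd.x2 < X)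
    (hc : ∀ v, onCut m v → v.1 = none ∧ v.2.1 = X) (hm : OneSided E.Q (E.lf X) m)
    (ω : (Option Bool × (ℤ × ℤ)) × Bool → Bool) :
    T1 (dbl E.Q (E.lf X) m hm) ω (dF (E.lf X : Set (Option Bool × (ℤ × ℤ)))) :=
  (h.lf h1 h2 hc).t1 coe_lf t1_plane hm ω

end SEnv

/-! ## The cylinder -/

section Cyl

variable {N : ℕ} [hN : Fact (3 ≤ N)] {ι : Type} {μ : ι → Mouth} {U : ι → Set (ℤ × ℤ)}
  {B0 : Set (ℤ × ℤ)} {B1 : Set (ZMod N × ℤ)} {σ : ZMod N × ℤ → ZMod 4 → Equiv.Perm (Option ι)}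
  {x₀ x₁ : ℤ}

theorem pN_inj_win (hw : x₁ - x₀ ≤ N) {u v : ℤ × ℤ} (h1 : x₀ ≤ u.1) (h2 : u.1 < x₁)
    (h3 : x₀ ≤ v.1) (h4 : v.1 < x₁) (h : pN N u = pN N v) : u = v := by
  obtain ⟨h5, h6⟩ := Prod.mk.inj h
  refine Prod.ext ?_ h6
  have h7 := (ZMod.intCast_eq_intCast_iff_dvd_sub _ _ _).mp h5
  obtain ⟨c, hc⟩ := h7
  have h8 : c = 0 := by
    by_contra hne
    rcases lt_or_gt_of_ne hne with h9 | h9
    · have : (N : ℤ) * c ≤ (N : ℤ) * (-1) := mul_le_mul_of_nonneg_left (by omega) (by positivity)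
      omega
    · have : (N : ℤ) * 1 ≤ (N : ℤ) * c := mul_le_mul_of_nonneg_left (by omega) (by positivity)
      omega
  rw [h8, mul_zero] at hc
  omega

/-- **The cylinder with pockets**: everything in the columns `[x₀, x₁)`, `x₁ - x₀ ≤ N`. -/
theorem SPOK.cyl (h : SPOK μ U B0) (hw : x₁ - x₀ ≤ N)
    (hσ : ∀ i, ∀ f ∈ U i, ∀ k, σ (pN N f) k (some i) = msig μ f k (some i))
    (hB : ∀ g ∈ B1, ∀ k, σ g k none = none)
    (hU : ∀ i, ∀ f ∈ U i, x₀ ≤ f.1 ∧ f.1 + 1 < x₁) (hμ : ∀ i, x₀ ≤ (μ i).x1 ∧ (μ i).x2 < x₁)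
    (hB1 : ∀ i f, (μ i).tri f → pN N f ∉ B1) : CovOK (CQ N) (pN N) (pN N) σ μ U B1 := by
  have htri : ∀ i f, (μ i).tri f → x₀ ≤ f.1 ∧ f.1 < x₁ := by
    intro i f hf
    obtain ⟨h1, h2, h3⟩ := hf
    obtain ⟨h4, h5⟩ := hμ i
    omega
  refine ⟨fun f k => corC_pN f k, ?_, ?_, ?_, hB, fun i => (h.ok i).le, fun i => (h.ok i).disc,
    fun i => (h.ok i).inn, fun i => (h.ok i).outf, fun i => (h.ok i).left, fun i => (h.ok i).right,
    hB1, ?_, ?_⟩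
  · have key : ∀ i, ∀ v ∈ verts (U i), x₀ ≤ v.1 ∧ v.1 < x₁ := by
      rintro i _ ⟨f, hf, k, rfl⟩
      obtain ⟨h1, h2⟩ := hU i f hf
      rcases k4_cases k with rfl | rfl | rfl | rfl
      · show x₀ ≤ f.1 ∧ f.1 < x₁
        omega
      · show x₀ ≤ f.1 + 1 ∧ f.1 + 1 < x₁
        omega
      · show x₀ ≤ f.1 + 1 ∧ f.1 + 1 < x₁
        omega
      · show x₀ ≤ f.1 ∧ f.1 < x₁
        omega
    intro i u hu v hv huv
    exact pN_inj_win hw (key i u hu).1 (key i u hu).2 (key i v hv).1 (key i v hv).2 huv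
  · intro i f hf g hg hfg
    exact pN_inj_win hw (htri i f hf).1 (htri i f hf).2 (htri i g hg).1 (htri i g hg).2 hfg
  · intro i f hf k
    rw [hσ i f hf k]
    exact msig_self h.sep
  · intro i j hij f g hf hg hfg
    have e := pN_inj_win hw (htri i f hf).1 (htri i f hf).2 (htri j g hg).1 (htri j g hg).2 hfg
    subst e
    exact h.tri i j hij f hf hg
  · intro i j hij x x' a1 a2 b1 b2 he
    obtain ⟨h4, h5⟩ := hμ i
    obtain ⟨h6, h7⟩ := hμ j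
    have e := pN_inj_win (u := (x, (μ i).y)) (v := (x', (μ j).y)) hw (by simp only; omega)
      (by simp only; omega) (by simp only; omega) (by simp only; omega) he
    obtain ⟨e1, e2⟩ := Prod.mk.inj e
    subst e1
    exact h.sep i j hij x a1 a2 b1 b2 e2

end Cyl

end Pool.Agent.SixB
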