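import Pool.Agent.Lib.SixB.S3WZ4
import Pool.Agent.Lib.SixB.S3bBox
import Pool.Agent.Lib.SixB.S3BlkS

/-!
# 6BD, U3: the height of the environment of a slab

`S : Slb`, `S.Ok`, shifts `X`, `Y`, window `W` (irrelevant), `SlbBx S X Y L`: `L` is large.
* `clo4_env`, `clo4_slb`: closed strands of all windows have turning `±4`;
* `inBx_slb`, `rb_slb`: hypotheses of `S3WZ4` for the environment of a slab and a rectangle inside of the slab;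
* `slb_pot`: the height of the environment, `slb_cmp`: comparison from windows.
-/

set_option autoImplicit false
set_option linter.unusedSectionVars false

namespace Pool.Agent.SixB.Rel

open Pool.Agent.Perc Pool.Agent.Perc.Q Relation Filter Topology Pool.Agent.SixB.EnvB
open Pool.Agent.SixB hiding Zs_split dst_congr qt_congr dE_mono

noncomputable section

/-- **T1 in all windows of an environment.** -/
theorem clo4_env {E : SEnv} (h : E.TopOK) (M : ℤ) : Clo4 E.Q (win E M).F := by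
  have h1 : (win E M).TopOK := ⟨h.discU, h.discL, h.leU, h.leL, h.innU, h.outU, h.leftU, h.rightU,
    h.innL, h.outL, h.leftL, h.rightL, h.hgtU, h.hgtL, h.slab⟩
  exact fun ω X hX hX' => (SEnv.t1 h1 ω).tX hX hX'

section Slab

variable {S : Slb} {W : Finset (ℤ × ℤ)} {X Y L : ℤ} {x₀ x₁ y₀ y₁ : ℤ}

theorem clo4_slb (h : S.Ok) (M : ℤ) : Clo4 (S.env W X Y).Q (win (S.env W X Y) M).F :=
  clo4_env (h.topOK W X Y) M

/-- `L` is large enough for the environment with shifts `X`, `Y` -/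
def SlbBx (S : Slb) (X Y L : ℤ) : Prop :=
  |S.x1| + |S.x2| + |S.yc| + 7 * S.k + S.a + (3 * S.k + (S.x2 - S.x1).toNat : ℕ) + |X| + |X| + |Y| + |Y| +
    2 ≤ L

theorem SlbBx.pos (h : SlbBx S X Y L) : 0 < L := by
  unfold SlbBx at h
  have b1 := abs_nonneg S.x1
  have b2 := abs_nonneg S.x2
  have b3 := abs_nonneg S.yc
  have b4 := abs_nonneg X
  have b5 := abs_nonneg Y
  omega

theorem inBx_slb (h : SlbBx S X Y L) : InBx (S.env W X Y) L := by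
  unfold SlbBx at h
  apply inBx_of
  · show |S.x1 + X| + |S.x2 + X| + |S.yc| + 7 * (S.k : ℤ) + (S.a : ℤ) +
      ((3 * S.k + (S.x2 - S.x1).toNat : ℕ) : ℤ) + 2 ≤ L
    have b1 := abs_add_le S.x1 X
    have b2 := abs_add_le S.x2 X
    have b5 := abs_nonneg Y
    linarith
  · show |S.x1 + Y| + |S.x2 + Y| + |S.yc| + 7 * (S.k : ℤ) + (S.a : ℤ) +
      ((3 * S.k + (S.x2 - S.x1).toNat : ℕ) : ℤ) + 2 ≤ L
    have b1 := abs_add_le S.x1 Y
    have b2 := abs_add_le S.x2 Y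
    have b5 := abs_nonneg X
    linarith

/-- a rectangle inside of the slab -/
theorem rb_slb (hx0 : -L ≤ x₀) (hx1 : x₁ ≤ L) (hy0 : -L ≤ y₀) (hy1 : y₁ ≤ L)
    (h0 : S.yc - S.a ≤ y₀) (h1 : y₁ ≤ S.yc + S.a) : RB (S.env W X Y) L x₀ x₁ y₀ y₁ := by
  intro f hf
  obtain ⟨⟨a1, a2⟩, a3, a4⟩ := Ins.mem_RF.mp hf
  refine mem_base_win.mpr ⟨?_, ?_, ?_⟩
  · rw [mem_RF0]
    omega
  · rintro ⟨b1, -⟩
    change (S.a : ℤ) ≤ f.2 - S.yc at b1
    omega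
  · rintro ⟨b1, -⟩
    change (S.a : ℤ) ≤ S.yc - 1 - f.2 at b1
    omega

/-- **The height of the environment of a slab.** -/
theorem slb_pot (h : S.Ok) (hL : SlbBx S X Y L) (hR : RB (S.env W X Y) L x₀ x₁ y₀ y₁)
    {ψ : (Option Bool × (ℤ × ℤ)) × (Option Bool × (ℤ × ℤ)) → ℝ} (h0 : zE (S.env W X Y) L ψ ≠ 0) :
    ∃ V' : ℤ × ℤ → ℝ,
      (∀ a ∈ dE ZQ (RF x₀ x₁ y₀ y₁), zS (S.env W X Y) L x₀ x₁ y₀ y₁ ψ a /
        (((zE (S.env W X Y) L ψ).re : ℝ) : ℂ) = ((V' a.1 - V' a.2 : ℝ) : ℂ) * Complex.I) ∧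
      ∀ a ∈ dE ZQ (RF x₀ x₁ y₀ y₁),
        Tendsto (fun M => qW (S.env W X Y) ψ M a) atTop (𝓝 (V' a.1 - V' a.2)) := by
  obtain ⟨V', h1, h2⟩ := exists_potE (BlkS.thk h) (inBx_slb hL) hL.pos hR
    (fun M _ => clo4_slb (W := W) h M) h0
  refine ⟨V', fun a ha => ?_, h2⟩
  rw [← zE_eq (BlkS.thk h) (inBx_slb hL) hL.pos ψ]
  exact h1 a ha

/-- **Comparison with the height of the environment of a slab from comparisons in windows.** -/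
theorem slb_cmp (h : S.Ok) (hR : RB (S.env W X Y) L x₀ x₁ y₀ y₁) (hx : x₀ < x₁) (hy : y₀ < y₁)
    {ψ : (Option Bool × (ℤ × ℤ)) × (Option Bool × (ℤ × ℤ)) → ℝ} {V V' : ℤ × ℤ → ℝ}
    (hlim : ∀ a ∈ dE ZQ (RF x₀ x₁ y₀ y₁),
      Tendsto (fun M => qW (S.env W X Y) ψ M a) atTop (𝓝 (V' a.1 - V' a.2)))
    {K : Set (ℤ × ℤ)} (hK : ∀ v ∈ K, x₀ ≤ v.1 ∧ v.1 ≤ x₁ ∧ y₀ ≤ v.2 ∧ v.2 ≤ y₁) {B : ℝ}
    (hB : ∃ᶠ M : ℤ in atTop, ∀ W' : ℤ × ℤ → ℝ,
      (∀ a ∈ dE ZQ (RF x₀ x₁ y₀ y₁), W' a.1 - W' a.2 = qW (S.env W X Y) ψ M a) →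
        ∀ v ∈ K, ∀ w ∈ K, |(V v - V w) - (W' v - W' w)| ≤ B) :
    ∃ a : ℝ, ∀ v ∈ K, |V v - V' v - a| ≤ B :=
  cmp_of_win (BlkS.thk h) hR hx hy hlim hK hB

end Slab

end

end Pool.Agent.SixB.Rel
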