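import Pool.Agent.Lib.SixB.S3AsmC
import Pool.Agent.Lib.SixB.S3HcsF
import Pool.Agent.Lib.SixB.S3DblIsl
import Pool.Agent.Lib.SixB.S3UpDbl
import Pool.Agent.Lib.SixB.S3WZ5
import Pool.Agent.Lib.SixB.S3UpOs

/-!
# 6BD step 3: the halves of the environment of a slab (row R24)

* `Zp_dir`: the plane functional depends only on the undirected relevant sides (`SameU`); `zDbl_of`: other forms of the
  number `zDbl`: another numbering of the cut, other relevant sides; `sameU_islD`, `sameU_dZ`: the sides of S3DblIsl and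
  S3DblAtl.
* `mem_hiS`, `mem_loS`, `lfS_eq` (the left half of S3HcsE); `half_hi`, `half_lo`, `half_lf`: `HalfS` for the three halves
  of the environment of a slab; `half_U`, `half_D`, `half_EE`: the same for the numbers of S3AsmC.
* `zU_of`, `zD_of`, `zEE_of`, `zEE_hcs`: the numbers of S3AsmC.
* `SFam.leftOf`: the shifted blocks are on the left of the cut column of the family.
-/

set_option autoImplicit false
set_option linter.unusedSectionVars false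

namespace Pool.Agent.SixB.Asm3

open Complex Filter Topology Metric
open Pool.Agent.Perc Pool.Agent.Perc.Q
open scoped ComplexConjugate

noncomputable section

/-! ## Undirected relevant sides -/

section general

variable {V Φ : Type} [DecidableEq V] [DecidableEq Φ] {Q : QC V Φ} {F A : Finset Φ} {ω : Φ → Bool}
  {P P' : Finset (V × V)} {h : V × V → ℂ} {L : ℤ} {ps : ℤ × ℤ → Φ}

/-- `P` and `P'` contain the same sides up to the direction -/
def SameU (P P' : Finset (V × V)) : Prop := ∀ a, (a ∈ P ∨ a.swap ∈ P) ↔ (a ∈ P' ∨ a.swap ∈ P')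

theorem Zr_dir (hP : SameU P P') : Rel.Zr Q F ω h P = Rel.Zr Q F ω h P' := by
  unfold Rel.Zr
  congr 2
  refine Finset.filter_congr fun X _ => ?_
  rw [Rel.touch_iff, Rel.touch_iff]
  exact exists_congr fun a => and_congr_right fun _ => hP a

theorem Zp_dir (hP : SameU P P') : Rel.Zp L Q A ps h P = Rel.Zp L Q A ps h P' := by
  have e : Rel.zn L Q A ps h P = Rel.zn L Q A ps h P' := by
    funext n
    unfold Rel.zn Rel.zplO
    congr 1
    funext ω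
    rw [Zr_dir hP]
  unfold Rel.Zp
  rw [e]

end general

/-! ## The double depends only on the vertices of the cut -/

section general

variable {V Φ : Type} [DecidableEq V] [DecidableEq Φ] {Q : QC V Φ} {A : Finset Φ} {H : Set Φ}
  {ι ι' : Type} {m : ι → V × V} {m' : ι' → V × V} {P : Finset (V × V)}

theorem dblV_congr (h : ∀ v, onCut m v ↔ onCut m' v) : dblV m = dblV m' := by
  classical
  funext b v
  exact Dbl.dblV_eq (h v) b

theorem dblA_congr (h : ∀ v, onCut m v ↔ onCut m' v) : dblA m = dblA m' := by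
  funext b a
  unfold dblA
  rw [dblV_congr h]

theorem dblS_congr (h : ∀ v, onCut m v ↔ onCut m' v) (hm : Dbl.OneSidedS Q H m)
    (hm' : Dbl.OneSidedS Q H m') : Dbl.dblS Q H m hm = Dbl.dblS Q H m' hm' := by
  refine Dbl.QC_ext fun f k => ?_
  unfold Dbl.dblS
  simp only [dblV_congr h]

theorem isl2_congr (h : ∀ v, onCut m v ↔ onCut m' v) : Dbl.isl2 Q A H m P = Dbl.isl2 Q A H m' P := by
  unfold Dbl.isl2
  rw [dblA_congr h]

/-- other forms of the number `zDbl` -/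
theorem zDbl_of {up : Bool} {g₀ L : ℤ} {ps : ℤ × ℤ → Φ} {h : V × V → ℂ} {m : ℤ → V × V}
    (hm : Dbl.OneSidedS Q H m) (hc : ∀ v, onCut m v ↔ onCut m' v) (hm' : Dbl.OneSidedS Q H m')
    {P' : Finset ((V × Bool × Bool) × (V × Bool × Bool))} (hP : SameU (Dbl.isl2 Q A H m' P) P') :
    zDbl up g₀ L Q A ps h P H m =
      (Rel.Zp (L + |g₀|) (Dbl.dblS Q H m' hm') (Dbl.cor2 up g₀ A H ps (Dbl.wZ up g₀ L (L + |g₀|)))
        (Dbl.dblψ up g₀ ps) (dblW h) P').re := by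
  rw [zDbl_eq hm, dblS_congr hc hm hm', isl2_congr hc, Zp_dir hP]

theorem sameU_refl {W : Type} [DecidableEq W] (P : Finset (W × W)) : SameU P P := fun _ => Iff.rfl

theorem dblE_true (a : V × V) : Dbl.dblE m true a = (dblA m true a).swap := by
  unfold Dbl.dblE
  simp

theorem dblE_false (a : V × V) : Dbl.dblE m false a = dblA m false a := by
  unfold Dbl.dblE
  simp

/-- the relevant sides of S3DblS and the island sides of S3DblIsl -/
theorem sameU_islD : SameU (Dbl.isl2 Q A H m P) (Dbl.islD Q A H m P) := by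
  intro a
  simp only [Dbl.mem_isl2, Dbl.mem_islD]
  constructor
  · rintro (⟨b, c, h1, h2, h3⟩ | ⟨b, c, h1, h2, h3⟩) <;> cases b
    · exact Or.inl ⟨false, c, h1, h2, by rw [dblE_false]; exact h3⟩
    · exact Or.inr ⟨true, c, h1, h2, by rw [dblE_true, h3]⟩
    · exact Or.inr ⟨false, c, h1, h2, by rw [dblE_false]; exact h3⟩
    · exact Or.inl ⟨true, c, h1, h2, by rw [dblE_true, ← h3, Prod.swap_swap]⟩
  · rintro (⟨b, c, h1, h2, h3⟩ | ⟨b, c, h1, h2, h3⟩) <;> cases b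
    · exact Or.inl ⟨false, c, h1, h2, by rw [dblE_false] at h3; exact h3⟩
    · exact Or.inr ⟨true, c, h1, h2, by rw [h3, dblE_true, Prod.swap_swap]⟩
    · exact Or.inr ⟨false, c, h1, h2, by rw [dblE_false] at h3; exact h3⟩
    · refine Or.inl ⟨true, c, h1, h2, ?_⟩
      rw [dblE_true] at h3
      rw [← Prod.swap_swap a, h3, Prod.swap_swap]

theorem mem_dZ' {Z Z' : Finset (V × V)} {x : (V × Bool × Bool) × (V × Bool × Bool)} :
    x ∈ Dbl.dZ m Z Z' ↔ (∃ a ∈ Z, x = dblA m false a) ∨ ∃ a ∈ Z', x = dblA m true a := by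
  unfold Dbl.dZ
  rw [Finset.mem_union, Finset.mem_image, Finset.mem_image]
  exact or_congr ⟨fun ⟨a, h, e⟩ => ⟨a, h, e.symm⟩, fun ⟨a, h, e⟩ => ⟨a, h, e.symm⟩⟩
    ⟨fun ⟨a, h, e⟩ => ⟨a, h, e.symm⟩, fun ⟨a, h, e⟩ => ⟨a, h, e.symm⟩⟩

/-- the relevant sides of S3DblS and the island sides of S3DblAtl -/
theorem sameU_dZ {Zh : Finset (V × V)} (hZ : ∀ a, a ∈ Zh ↔ a ∈ P ∧ a ∈ dE Q (Dbl.corS A H)) :
    SameU (Dbl.isl2 Q A H m P) (Dbl.dZ m Zh (Zh.image Prod.swap)) := by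
  intro a
  rw [Dbl.mem_isl2, Dbl.mem_isl2, mem_dZ', mem_dZ']
  constructor
  · rintro (⟨b, c, h1, h2, h3⟩ | ⟨b, c, h1, h2, h3⟩) <;> cases b
    · exact Or.inl (Or.inl ⟨c, (hZ c).mpr ⟨h1, h2⟩, h3⟩)
    · refine Or.inr (Or.inr ⟨c.swap, Finset.mem_image_of_mem _ ((hZ c).mpr ⟨h1, h2⟩), ?_⟩)
      rw [h3, dblA_swap]
    · exact Or.inr (Or.inl ⟨c, (hZ c).mpr ⟨h1, h2⟩, h3⟩)
    · refine Or.inl (Or.inr ⟨c.swap, Finset.mem_image_of_mem _ ((hZ c).mpr ⟨h1, h2⟩), ?_⟩)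
      rw [dblA_swap, ← h3, Prod.swap_swap]
  · rintro ((⟨c, hc, h3⟩ | ⟨c, hc, h3⟩) | (⟨c, hc, h3⟩ | ⟨c, hc, h3⟩))
    · obtain ⟨h1, h2⟩ := (hZ c).mp hc
      exact Or.inl ⟨false, c, h1, h2, h3⟩
    · obtain ⟨c, hc', rfl⟩ := Finset.mem_image.mp hc
      obtain ⟨h1, h2⟩ := (hZ c).mp hc'
      exact Or.inr ⟨true, c, h1, h2, by rw [h3, dblA_swap, Prod.swap_swap]⟩
    · obtain ⟨h1, h2⟩ := (hZ c).mp hc
      exact Or.inr ⟨false, c, h1, h2, h3⟩
    · obtain ⟨c, hc', rfl⟩ := Finset.mem_image.mp hc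
      obtain ⟨h1, h2⟩ := (hZ c).mp hc'
      refine Or.inl ⟨true, c, h1, h2, ?_⟩
      rw [← Prod.swap_swap a, h3, dblA_swap, Prod.swap_swap]

end general

/-! ## The halves of an environment -/

section env

variable {E : SEnv} {L y x : ℤ} {w : Option Bool × (ℤ × ℤ)}

theorem win_gu (M : ℤ) : (Rel.win E M).gu = E.gu := rfl

theorem mem_union_base {f : ℤ × ℤ} : (∃ M : ℤ, f ∈ (Rel.win E M).base) ↔
    ¬ E.gu.solid true f ∧ ¬ E.gd.solid false f := by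
  constructor
  · rintro ⟨M, hM⟩
    exact (Rel.mem_base_win.mp hM).2
  · intro h
    obtain ⟨M, -, hM⟩ := Dbl.exists_RFb f 0
    exact ⟨M, Rel.mem_base_win.mpr ⟨hM, h⟩⟩

/-- the upper half -/
theorem mem_hiS : w ∈ hiS E y ↔
    (w.1 = none ∧ y ≤ w.2.2 ∧ ¬ E.gu.solid true w.2 ∧ ¬ E.gd.solid false w.2) ∨
      (w.1 = some true ∧ w.2 ∈ E.U) := by
  obtain ⟨s, f⟩ := w
  unfold hiS SEnv.hi
  rw [Set.mem_ofPred_eq]
  simp only [Finset.mem_filter]
  constructor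
  · rintro ⟨M, h1, h2 | ⟨h2, h3⟩⟩
    · subst h2
      exact Or.inr ⟨rfl, (EnvB.mem_F_up (E := Rel.win E M)).mp h1⟩
    · subst h2
      exact Or.inl ⟨rfl, h3, mem_union_base.mp ⟨M, EnvB.mem_F_none.mp h1⟩⟩
  · rintro (⟨h1, h2, h3⟩ | ⟨h1, h2⟩)
    · subst h1
      obtain ⟨M, hM⟩ := mem_union_base.mpr h3
      exact ⟨M, EnvB.mem_F_none.mpr hM, Or.inr ⟨rfl, h2⟩⟩
    · subst h1
      exact ⟨0, (EnvB.mem_F_up (E := Rel.win E 0)).mpr h2, Or.inl rfl⟩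

/-- the lower half -/
theorem mem_loS : w ∈ loS E y ↔
    (w.1 = none ∧ w.2.2 < y ∧ ¬ E.gu.solid true w.2 ∧ ¬ E.gd.solid false w.2) ∨
      (w.1 = some false ∧ w.2 ∈ E.L) := by
  obtain ⟨s, f⟩ := w
  unfold loS SEnv.lo
  rw [Set.mem_ofPred_eq]
  simp only [Finset.mem_filter]
  constructor
  · rintro ⟨M, h1, h2 | ⟨h2, h3⟩⟩
    · subst h2
      exact Or.inr ⟨rfl, (EnvB.mem_F_lo (E := Rel.win E M)).mp h1⟩
    · subst h2
      exact Or.inl ⟨rfl, h3, mem_union_base.mp ⟨M, EnvB.mem_F_none.mp h1⟩⟩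
  · rintro (⟨h1, h2, h3⟩ | ⟨h1, h2⟩)
    · subst h1
      obtain ⟨M, hM⟩ := mem_union_base.mpr h3
      exact ⟨M, EnvB.mem_F_none.mpr hM, Or.inr ⟨rfl, h2⟩⟩
    · subst h1
      exact ⟨0, (EnvB.mem_F_lo (E := Rel.win E 0)).mpr h2, Or.inl rfl⟩

/-- the left half is the one of S3HcsE -/
theorem lfS_eq : lfS E x = Hcs.hL E x := by
  ext ⟨s, f⟩
  unfold lfS SEnv.lf Hcs.hL
  rw [Set.mem_ofPred_eq, Set.mem_ofPred_eq]
  simp only [Finset.mem_filter]
  constructor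
  · rintro ⟨M, h1, h2⟩
    rcases s with _ | _ | _
    · refine Or.inl ⟨rfl, ?_, mem_union_base.mp ⟨M, EnvB.mem_F_none.mp h1⟩⟩
      rcases h2 with h2 | h2
      · exact absurd rfl h2
      · exact h2
    · exact Or.inr (Or.inr ⟨rfl, (EnvB.mem_F_lo (E := Rel.win E M)).mp h1⟩)
    · exact Or.inr (Or.inl ⟨rfl, (EnvB.mem_F_up (E := Rel.win E M)).mp h1⟩)
  · rintro (⟨h1, h2, h3⟩ | ⟨h1, h2⟩ | ⟨h1, h2⟩)
    · subst h1
      obtain ⟨M, hM⟩ := mem_union_base.mpr h3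
      exact ⟨M, EnvB.mem_F_none.mpr hM, Or.inr h2⟩
    · subst h1
      exact ⟨0, (EnvB.mem_F_up (E := Rel.win E 0)).mpr h2, Or.inl (by simp)⟩
    · subst h1
      exact ⟨0, (EnvB.mem_F_lo (E := Rel.win E 0)).mpr h2, Or.inl (by simp)⟩

theorem onCut_cutH : onCut (SEnv.cutH y) w ↔ w.1 = none ∧ w.2.2 = y := by
  obtain ⟨s, a, b⟩ := w
  unfold onCut SEnv.cutH
  constructor
  · rintro ⟨i, h | h⟩
    · obtain ⟨rfl, h2⟩ := Prod.mk.inj h
      exact ⟨rfl, (Prod.mk.inj h2).2⟩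
    · obtain ⟨rfl, h2⟩ := Prod.mk.inj h
      exact ⟨rfl, (Prod.mk.inj h2).2⟩
  · rintro ⟨h1, h2⟩
    simp only at h1 h2
    subst h1 h2
    exact ⟨a, Or.inl rfl⟩

theorem onCut_cutV : onCut (cutV x) w ↔ w.1 = none ∧ w.2.1 = x := by
  obtain ⟨s, a, b⟩ := w
  unfold onCut cutV
  constructor
  · rintro ⟨i, h | h⟩
    · obtain ⟨rfl, h2⟩ := Prod.mk.inj h
      exact ⟨rfl, (Prod.mk.inj h2).1⟩
    · obtain ⟨rfl, h2⟩ := Prod.mk.inj h
      exact ⟨rfl, (Prod.mk.inj h2).1⟩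
  · rintro ⟨h1, h2⟩
    simp only at h1 h2
    subst h1 h2
    exact ⟨b, Or.inl rfl⟩

theorem fam_cutH (y : ℤ) : Fam (SEnv.cutH y) := by
  unfold SEnv.cutH
  refine ⟨fun i j h => ?_, fun i j h => ?_⟩
  · exact (Prod.mk.inj (Prod.mk.inj (Prod.mk.inj h).1).2).1
  · have h1 := (Prod.mk.inj (Prod.mk.inj (Prod.mk.inj h).1).2).1
    have h2 := (Prod.mk.inj (Prod.mk.inj (Prod.mk.inj h).2).2).1
    omega

theorem fam_cutV (x : ℤ) : Fam (cutV x) := by
  unfold cutV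
  refine ⟨fun i j h => ?_, fun i j h => ?_⟩
  · exact (Prod.mk.inj (Prod.mk.inj (Prod.mk.inj h).1).2).2
  · have h1 := (Prod.mk.inj (Prod.mk.inj (Prod.mk.inj h).1).2).2
    have h2 := (Prod.mk.inj (Prod.mk.inj (Prod.mk.inj h).2).2).2
    omega

end env

/-! ## One sided cuts -/

section general

variable {V Φ : Type} [DecidableEq V] [DecidableEq Φ] {Q : QC V Φ} {H : Set Φ} {ι ι' : Type}
  {m : ι → V × V}

theorem onCut_comp (e : ι' ≃ ι) {v : V} : onCut (m ∘ e) v ↔ onCut m v := by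
  unfold onCut
  constructor
  · rintro ⟨i, h⟩
    exact ⟨e i, h⟩
  · rintro ⟨i, h⟩
    exact ⟨e.symm i, by simpa using h⟩

/-- renumbering of the cut -/
theorem oneSidedS_comp (e : ι' ≃ ι) (h : Dbl.OneSidedS Q H m) : Dbl.OneSidedS Q H (m ∘ e) where
  fam := ⟨fun i j hij => e.injective (h.fam.1 _ _ hij), fun i j => h.fam.2 (e i) (e j)⟩
  into i := h.into (e i)
  only f hf k h1 h2 := by
    obtain ⟨i, hi⟩ := h.only f hf k (onCut_comp e |>.mp h1) (onCut_comp e |>.mp h2)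
    exact ⟨e.symm i, by rw [hi]; simp⟩

theorem dblW_eq (h : V × V → ℂ) : dblW h = Hcs.dw h h := rfl

end general

/-! ## The vertical cut -/

section vertical

variable {E : SEnv} {x L : ℤ}

theorem cutV_eq (x : ℤ) : cutV x = revFam (Hcs.colF x) ∘ Equiv.subLeft (-1 : ℤ) := by
  funext y
  unfold cutV revFam Hcs.colF
  simp only [Function.comp, Equiv.subLeft_apply, Prod.swap_prod_mk]
  exact Hcs.pr4 rfl (by omega) rfl (by omega)

theorem onCut_cutV' {w : Option Bool × (ℤ × ℤ)} : onCut (cutV x) w ↔ onCut (revFam (Hcs.colF x)) w := by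
  rw [cutV_eq, onCut_comp]

/-- the cut column is one sided for the left half -/
theorem os_lf (H : Hcs.LeftOf E x) : Dbl.OneSidedS (Rel.relQ E.Q fun _ => 3) (lfS E x) (cutV x) := by
  rw [cutV_eq, lfS_eq]
  exact oneSidedS_comp _ (Hcs.os_L H)

/-- **The left half.** -/
theorem half_lf (H : Hcs.LeftOf E x) (hB : Rel.InBx E L) :
    Dbl.HalfS false x ZQ (Dbl.outZ L) (Rel.relQ E.Q fun _ => 3) (Rel.win E L).F Hcs.cv Hcs.cf (lfS E x)
      (cutV x) where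
  os := os_lf H
  mem := by
    rw [lfS_eq]
    exact (Hcs.halfL H hB).mem
  out := by
    rw [lfS_eq]
    exact (Hcs.halfL H hB).out
  cut g h1 h2 k := by
    rw [onCut_cutV']
    exact (Hcs.halfL H hB).cut g h1 h2 k

end vertical

/-! ## The horizontal cuts -/

section slab

variable {S : Slb} {X Y y L : ℤ}

theorem free_row (h : S.Ok) {f : ℤ × ℤ} (h1 : S.yc - S.a ≤ f.2) (h2 : f.2 < S.yc + S.a) :
    ¬ (S.env ∅ X Y).gu.solid true f ∧ ¬ (S.env ∅ X Y).gd.solid false f := by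
  have ha := h.ha
  constructor
  · intro h3
    have h4 : (S.a : ℤ) ≤ f.2 - S.yc := h3.1
    omega
  · intro h3
    have h4 : (S.a : ℤ) ≤ S.yc - 1 - f.2 := h3.1
    omega

/-- a free base face: no change of sheet -/
theorem base_c (h : S.Ok) {f : ℤ × ℤ}
    (hf : ¬ (S.env ∅ X Y).gu.solid true f ∧ ¬ (S.env ∅ X Y).gd.solid false f) (k : ZMod 4) :
    (S.env ∅ X Y).Q.c (none, f) k = (none, ZQ.c f k) := by
  obtain ⟨M, hM⟩ := mem_union_base.mpr hf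
  exact EnvB.cor_base (E := Rel.win (S.env ∅ X Y) M) (BlkS.thk h) hM k

/-- the cut row is one sided for the upper half -/
theorem os_hi (h : S.Ok) (hy1 : S.yc - S.a ≤ y) (hy2 : y < S.yc + S.a) :
    Dbl.OneSidedS (S.env ∅ X Y).Q (hiS (S.env ∅ X Y) y) (SEnv.cutH y) where
  fam := fam_cutH y
  into i := by
    have hb := free_row (X := X) (Y := Y) h (f := (i, y)) hy1 hy2
    refine ⟨(none, (i, y)), mem_hiS.mpr (Or.inl ⟨rfl, le_rfl, hb⟩), 0, ?_⟩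
    unfold sd
    rw [base_c h hb, base_c h hb]
    rfl
  only f hf k h1 h2 := by
    obtain ⟨h3, h4⟩ := onCut_cutH.mp h1
    obtain ⟨h5, h6⟩ := onCut_cutH.mp h2
    obtain ⟨s, f⟩ := f
    rcases mem_hiS.mp hf with ⟨h7, h8, h9⟩ | ⟨h7, h8⟩
    · simp only at h7 h8 h9
      subst h7
      rw [base_c h h9] at h4 h6
      have h10 : k = 0 ∧ f.2 = y := by
        rcases k4_cases k with rfl | rfl | rfl | rfl
        · exact ⟨rfl, h4⟩
        · exfalso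
          have h11 : f.2 + 1 = y := h6
          omega
        · exfalso
          have h11 : f.2 + 1 = y := h4
          omega
        · exfalso
          have h11 : f.2 + 1 = y := h4
          omega
      obtain ⟨rfl, rfl⟩ := h10
      refine ⟨f.1, ?_⟩
      unfold sd
      rw [base_c h h9, base_c h h9]
      rfl
    · simp only at h7 h8
      subst h7
      exfalso
      have h9 := UpE.pkU_row (E := S.env ∅ X Y) h3
      rw [h4] at h9
      have h10 : y = S.yc + S.a := h9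
      omega

/-- the cut row is one sided for the lower half -/
theorem os_lo (h : S.Ok) (hy1 : S.yc - S.a < y) (hy2 : y ≤ S.yc + S.a) :
    Dbl.OneSidedS (S.env ∅ X Y).Q (loS (S.env ∅ X Y) y) (revFam (SEnv.cutH y)) where
  fam := Hcs.fam_rev (fam_cutH y)
  into i := by
    have hb := free_row (X := X) (Y := Y) h (f := (i, y - 1)) (by simp only; omega)
      (by simp only; omega)
    refine ⟨(none, (i, y - 1)), mem_loS.mpr (Or.inl ⟨rfl, by simp only; omega, hb⟩), 2, ?_⟩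
    unfold sd
    rw [base_c h hb, base_c h hb]
    have e : (ZQ.c (i, y - 1) 2, ZQ.c (i, y - 1) (2 + 1)) = ((i + 1, y - 1 + 1), (i, y - 1 + 1)) := rfl
    obtain ⟨e1, e2⟩ := Prod.mk.inj e
    rw [e1, e2, sub_add_cancel]
    rfl
  only f hf k h1 h2 := by
    rw [Hcs.onCut_rev] at h1 h2
    obtain ⟨h3, h4⟩ := onCut_cutH.mp h1
    obtain ⟨h5, h6⟩ := onCut_cutH.mp h2
    obtain ⟨s, f⟩ := f
    rcases mem_loS.mp hf with ⟨h7, h8, h9⟩ | ⟨h7, h8⟩
    · simp only at h7 h8 h9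
      subst h7
      rw [base_c h h9] at h4 h6
      have h10 : k = 2 ∧ f.2 + 1 = y := by
        rcases k4_cases k with rfl | rfl | rfl | rfl
        · exfalso
          have h11 : f.2 = y := h4
          omega
        · exfalso
          have h11 : f.2 = y := h4
          omega
        · exact ⟨rfl, h4⟩
        · exfalso
          have h11 : f.2 = y := h6
          omega
      obtain ⟨rfl, rfl⟩ := h10
      refine ⟨f.1, ?_⟩
      unfold sd
      rw [base_c h h9, base_c h h9]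
      rfl
    · simp only at h7 h8
      subst h7
      exfalso
      have h9 := UpE.pkL_row (E := S.env ∅ X Y) h3
      rw [h4] at h9
      have h10 : y = S.yc - S.a := h9
      omega

theorem inH_true {g : ℤ × ℤ} : Dbl.inH true y g ↔ y ≤ g.2 := Hcs.inH_true

theorem not_solid_out {E : SEnv} (hB : Rel.InBx E L) {g : ℤ × ℤ} (hg : g ∈ Dbl.outZ L) :
    ¬ E.gu.solid true g ∧ ¬ E.gd.solid false g :=
  ⟨fun h => hg (Rel.RF0_mono (by omega) (hB _ (Or.inl h))),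
    fun h => hg (Rel.RF0_mono (by omega) (hB _ (Or.inr h)))⟩

/-- **The upper half.** -/
theorem half_hi (h : S.Ok) (hy1 : S.yc - S.a ≤ y) (hy2 : y < S.yc + S.a)
    (hB : Rel.InBx (S.env ∅ X Y) L) :
    Dbl.HalfS true y ZQ (Dbl.outZ L) (S.env ∅ X Y).Q (Rel.win (S.env ∅ X Y) L).F
      (fun v => ((none : Option Bool), v)) (fun f => ((none : Option Bool), f)) (hiS (S.env ∅ X Y) y)
      (SEnv.cutH y) where
  os := os_hi h hy1 hy2
  mem f hf := by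
    obtain ⟨s, g⟩ := f
    rcases mem_hiS.mp hf with ⟨h7, h8, h9⟩ | ⟨h7, h8⟩
    · simp only at h7 h8 h9
      subst h7
      by_cases hb : g ∈ RFb (0, 0) L
      · left
        exact (EnvB.mem_F_none (E := Rel.win (S.env ∅ X Y) L)).mpr (Rel.mem_base_win.mpr ⟨hb, h9⟩)
      · right
        exact ⟨g, hb, Hcs.inH_true.mpr h8, rfl⟩
    · simp only at h7 h8
      subst h7
      left
      exact (EnvB.mem_F_up (E := Rel.win (S.env ∅ X Y) L)).mpr h8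
  out g h1 h2 := mem_hiS.mpr (Or.inl ⟨rfl, Hcs.inH_true.mp h2, not_solid_out hB h1⟩)
  cut g _ _ l := by
    rw [onCut_cutH]
    simp

/-- **The lower half.** -/
theorem half_lo (h : S.Ok) (hy1 : S.yc - S.a < y) (hy2 : y ≤ S.yc + S.a)
    (hB : Rel.InBx (S.env ∅ X Y) L) :
    Dbl.HalfS false y ZQ (Dbl.outZ L) (S.env ∅ X Y).Q (Rel.win (S.env ∅ X Y) L).F
      (fun v => ((none : Option Bool), v)) (fun f => ((none : Option Bool), f)) (loS (S.env ∅ X Y) y)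
      (revFam (SEnv.cutH y)) where
  os := os_lo h hy1 hy2
  mem f hf := by
    obtain ⟨s, g⟩ := f
    rcases mem_loS.mp hf with ⟨h7, h8, h9⟩ | ⟨h7, h8⟩
    · simp only at h7 h8 h9
      subst h7
      by_cases hb : g ∈ RFb (0, 0) L
      · left
        exact (EnvB.mem_F_none (E := Rel.win (S.env ∅ X Y) L)).mpr (Rel.mem_base_win.mpr ⟨hb, h9⟩)
      · right
        exact ⟨g, hb, Hcs.inH_false.mpr h8, rfl⟩
    · simp only at h7 h8
      subst h7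
      left
      exact (EnvB.mem_F_lo (E := Rel.win (S.env ∅ X Y) L)).mpr h8
  out g h1 h2 := mem_loS.mpr (Or.inl ⟨rfl, Hcs.inH_false.mp h2, not_solid_out hB h1⟩)
  cut g _ _ l := by
    rw [Hcs.onCut_rev, onCut_cutH]
    simp

end slab

/-! ## The numbers -/

section numbers

variable {S : Slb} {X Y X0 : ℤ}

theorem rowU (h : S.Ok) : S.yc - S.a ≤ S.yc + (S.a / 2 : ℕ) ∧ S.yc + (S.a / 2 : ℕ) < S.yc + S.a := by
  have ha := h.ha
  omega

theorem rowD (h : S.Ok) : S.yc - S.a < S.yc - (S.a / 2 : ℕ) ∧ S.yc - (S.a / 2 : ℕ) ≤ S.yc + S.a := by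
  have ha := h.ha
  omega

theorem rowU_lt (h : S.Ok) : |S.yc + (S.a / 2 : ℕ)| < bx S X Y := by
  have ha := h.ha
  have h1 := abs_nonneg S.x1
  have h2 := abs_nonneg S.x2
  have h5 := abs_nonneg X
  have h6 := abs_nonneg Y
  have h7 : |S.yc + (S.a / 2 : ℕ)| ≤ |S.yc| + |((S.a / 2 : ℕ) : ℤ)| := abs_add_le _ _
  have h8 : |((S.a / 2 : ℕ) : ℤ)| = ((S.a / 2 : ℕ) : ℤ) := abs_of_nonneg (by positivity)
  unfold bx
  omega

theorem rowD_lt (h : S.Ok) : |S.yc - (S.a / 2 : ℕ)| < bx S X Y := by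
  have ha := h.ha
  have h1 := abs_nonneg S.x1
  have h2 := abs_nonneg S.x2
  have h5 := abs_nonneg X
  have h6 := abs_nonneg Y
  have h7 : |S.yc - (S.a / 2 : ℕ)| ≤ |S.yc| + |((S.a / 2 : ℕ) : ℤ)| := abs_sub _ _
  have h8 : |((S.a / 2 : ℕ) : ℤ)| = ((S.a / 2 : ℕ) : ℤ) := abs_of_nonneg (by positivity)
  unfold bx
  omega

theorem os_U (h : S.Ok) : Dbl.OneSidedS (S.env ∅ X Y).Q (hiS (S.env ∅ X Y) (S.yc + (S.a / 2 : ℕ)))
    (SEnv.cutH (S.yc + (S.a / 2 : ℕ))) := os_hi h (rowU h).1 (rowU h).2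

theorem os_D (h : S.Ok) : Dbl.OneSidedS (S.env ∅ X Y).Q (loS (S.env ∅ X Y) (S.yc - (S.a / 2 : ℕ)))
    (revFam (SEnv.cutH (S.yc - (S.a / 2 : ℕ)))) := os_lo h (rowD h).1 (rowD h).2

/-- the half of `zU` -/
theorem half_U (h : S.Ok) :
    Dbl.HalfS true (S.yc + (S.a / 2 : ℕ)) ZQ (Dbl.outZ (bx S X Y)) (S.env ∅ X Y).Q (eB S X Y).F
      (fun v => ((none : Option Bool), v)) (fun f => ((none : Option Bool), f))
      (hiS (S.env ∅ X Y) (S.yc + (S.a / 2 : ℕ))) (SEnv.cutH (S.yc + (S.a / 2 : ℕ))) :=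
  half_hi h (rowU h).1 (rowU h).2 (inBx S X Y)

/-- the half of `zD` -/
theorem half_D (h : S.Ok) :
    Dbl.HalfS false (S.yc - (S.a / 2 : ℕ)) ZQ (Dbl.outZ (bx S X Y)) (S.env ∅ X Y).Q (eB S X Y).F
      (fun v => ((none : Option Bool), v)) (fun f => ((none : Option Bool), f))
      (loS (S.env ∅ X Y) (S.yc - (S.a / 2 : ℕ))) (revFam (SEnv.cutH (S.yc - (S.a / 2 : ℕ)))) :=
  half_lo h (rowD h).1 (rowD h).2 (inBx S X Y)

/-- the half of `zEE` -/
theorem half_EE (H : Hcs.LeftOf (S.env ∅ X Y) X0) :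
    Dbl.HalfS false X0 ZQ (Dbl.outZ (bx S X Y)) (Rel.relQ (S.env ∅ X Y).Q fun _ => 3) (eB S X Y).F
      Hcs.cv Hcs.cf (lfS (S.env ∅ X Y) X0) (cutV X0) := half_lf H (inBx S X Y)

/-- the number `zU` -/
theorem zU_of (h : S.Ok) {P : Finset (((Option Bool × (ℤ × ℤ)) × Bool × Bool) ×
    ((Option Bool × (ℤ × ℤ)) × Bool × Bool))}
    (hP : SameU (Dbl.isl2 (S.env ∅ 0 0).Q (eB S 0 0).F (hiS (S.env ∅ 0 0) (S.yc + (S.a / 2 : ℕ)))
      (SEnv.cutH (S.yc + (S.a / 2 : ℕ))) (eB S 0 0).Z) P) :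
    zU S = (Rel.Zp (bx S 0 0 + |S.yc + (S.a / 2 : ℕ)|)
      (Dbl.dblS (S.env ∅ 0 0).Q (hiS (S.env ∅ 0 0) (S.yc + (S.a / 2 : ℕ)))
        (SEnv.cutH (S.yc + (S.a / 2 : ℕ))) (os_U h))
      (Dbl.cor2 true (S.yc + (S.a / 2 : ℕ)) (eB S 0 0).F (hiS (S.env ∅ 0 0) (S.yc + (S.a / 2 : ℕ)))
        (fun f => ((none : Option Bool), f))
        (Dbl.wZ true (S.yc + (S.a / 2 : ℕ)) (bx S 0 0) (bx S 0 0 + |S.yc + (S.a / 2 : ℕ)|)))
      (Dbl.dblψ true (S.yc + (S.a / 2 : ℕ)) (fun f => ((none : Option Bool), f)))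
      (dblW (hB S 0 0)) P).re :=
  zDbl_of (os_U h) (fun _ => Iff.rfl) (os_U h) hP

/-- the number `zD` -/
theorem zD_of (h : S.Ok) {P : Finset (((Option Bool × (ℤ × ℤ)) × Bool × Bool) ×
    ((Option Bool × (ℤ × ℤ)) × Bool × Bool))}
    (hP : SameU (Dbl.isl2 (S.env ∅ 0 0).Q (eB S 0 0).F (loS (S.env ∅ 0 0) (S.yc - (S.a / 2 : ℕ)))
      (revFam (SEnv.cutH (S.yc - (S.a / 2 : ℕ)))) (eB S 0 0).Z) P) :
    zD S = (Rel.Zp (bx S 0 0 + |S.yc - (S.a / 2 : ℕ)|)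
      (Dbl.dblS (S.env ∅ 0 0).Q (loS (S.env ∅ 0 0) (S.yc - (S.a / 2 : ℕ)))
        (revFam (SEnv.cutH (S.yc - (S.a / 2 : ℕ)))) (os_D h))
      (Dbl.cor2 false (S.yc - (S.a / 2 : ℕ)) (eB S 0 0).F
        (loS (S.env ∅ 0 0) (S.yc - (S.a / 2 : ℕ))) (fun f => ((none : Option Bool), f))
        (Dbl.wZ false (S.yc - (S.a / 2 : ℕ)) (bx S 0 0) (bx S 0 0 + |S.yc - (S.a / 2 : ℕ)|)))
      (Dbl.dblψ false (S.yc - (S.a / 2 : ℕ)) (fun f => ((none : Option Bool), f)))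
      (dblW (hB S 0 0)) P).re :=
  zDbl_of (os_D h) (fun _ => Iff.rfl) (os_D h) hP

/-- the number `zEE`, any numbering of the cut column -/
theorem zEE_of (H : Hcs.LeftOf (S.env ∅ X Y) X0)
    {m : ℤ → (Option Bool × (ℤ × ℤ)) × (Option Bool × (ℤ × ℤ))}
    (hc : ∀ v, onCut (cutV X0) v ↔ onCut m v)
    (hm : Dbl.OneSidedS (Rel.relQ (S.env ∅ X Y).Q fun _ => 3) (lfS (S.env ∅ X Y) X0) m)
    {P : Finset (((Option Bool × (ℤ × ℤ)) × Bool × Bool) ×
      ((Option Bool × (ℤ × ℤ)) × Bool × Bool))}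
    (hP : SameU (Dbl.isl2 (Rel.relQ (S.env ∅ X Y).Q fun _ => 3) (eB S X Y).F
      (lfS (S.env ∅ X Y) X0) m (eB S X Y).Z) P) :
    zEE S X0 X Y = 16 * (Rel.Zp (bx S X Y + |X0|)
      (Dbl.dblS (Rel.relQ (S.env ∅ X Y).Q fun _ => 3) (lfS (S.env ∅ X Y) X0) m hm)
      (Dbl.cor2 false X0 (eB S X Y).F (lfS (S.env ∅ X Y) X0) Hcs.cf
        (Dbl.wZ false X0 (bx S X Y) (bx S X Y + |X0|)))
      (Dbl.dblψ false X0 Hcs.cf) (dblW (hB S X Y)) P).re := by
  unfold zEE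
  rw [zDbl_of (os_lf H) hc hm hP]
  rfl

theorem os_hL (H : Hcs.LeftOf (S.env ∅ X Y) X0) :
    Dbl.OneSidedS (Rel.relQ (S.env ∅ X Y).Q fun _ => 3) (lfS (S.env ∅ X Y) X0)
      (revFam (Hcs.colF X0)) := by
  rw [lfS_eq]
  exact Hcs.os_L H

/-- the number `zEE` in the form of S3HcsF -/
theorem zEE_hcs (H : Hcs.LeftOf (S.env ∅ X Y) X0)
    {P : Finset (((Option Bool × (ℤ × ℤ)) × Bool × Bool) ×
      ((Option Bool × (ℤ × ℤ)) × Bool × Bool))}
    (hP : SameU (Dbl.isl2 (Hcs.RQ (S.env ∅ X Y)) (eB S X Y).F (Hcs.hL (S.env ∅ X Y) X0)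
      (revFam (Hcs.colF X0)) (eB S X Y).Z) P) :
    zEE S X0 X Y = 16 * (Rel.Zp (bx S X Y + |X0|)
      (Dbl.dblS (Hcs.RQ (S.env ∅ X Y)) (Hcs.hL (S.env ∅ X Y) X0) (revFam (Hcs.colF X0))
        (Hcs.os_L H))
      (Dbl.cor2 false X0 (eB S X Y).F (Hcs.hL (S.env ∅ X Y) X0) Hcs.cf
        (Dbl.wZ false X0 (bx S X Y) (bx S X Y + |X0|)))
      (Dbl.dblψ false X0 Hcs.cf) (Hcs.dw (hB S X Y) (hB S X Y)) P).re := by
  have h1 := zEE_of H (fun _ => onCut_cutV') (os_hL H) (P := P) (by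
    rw [lfS_eq]
    exact hP)
  rw [h1]
  simp only [lfS_eq]
  rfl

end numbers

/-! ## The cut column of the family -/

section fam

variable {P : Finset (ℤ × ℤ)} {L : ℕ} {g : ℤ → ℤ × ℤ} {ι : Type} {l : Filter ι} {n : ι → ℕ}
  {j : ι → ℤ → ℝ} {z0 : ℂ}

/-- the shifted blocks are on the left of the cut column -/
theorem SFam.leftOf (D : SFam P L g l n j z0) {z : ℂ} {r : ℝ} {i : ι} (hn : 0 < n i) {x y : ℕ}
    (hxy : Win D.T 1 (n i) x y) :
    Hcs.LeftOf ((D.slb z r i).env ∅ (-2 * y) (-2 * x)) (D.X0 i) := by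
  obtain ⟨h1, -, h3, -⟩ := hxy
  have hκ := D.hκ
  have hκ' := D.hκ'
  have hX : (D.X₁ : ℝ) < D.X₂ := by linarith [D.hX₁, D.hX₂]
  have hn0 : (0 : ℝ) < n i := by exact_mod_cast hn
  have hk := Nat.floor_le (show 0 ≤ D.κ * n i / 2 by positivity)
  have hk' : 7 * ((⌊D.κ * n i / 2⌋₊ : ℕ) : ℝ) ≤ n i := by nlinarith
  have hT : ∀ t : ℕ, D.T * n i ≤ t → (n i : ℤ) * D.X₂ + -2 * t + 7 * (⌊D.κ * n i / 2⌋₊ : ℕ) + 1 <
      n i * (D.X₁ - 4) := by
    intro t ht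
    have h5 : ((n i : ℤ) : ℝ) * D.X₂ + -2 * t + 7 * ((⌊D.κ * n i / 2⌋₊ : ℕ) : ℝ) + 1 <
        n i * (D.X₁ - 4) := by
      unfold SFam.T at ht
      have h6 : (n i : ℝ) * D.X₁ < n i * D.X₂ := mul_lt_mul_of_pos_left hX hn0
      have h7 : (1 : ℝ) ≤ n i := by exact_mod_cast hn
      push_cast
      nlinarith
    exact_mod_cast h5
  have hx := hT x h1
  have hy := hT y h3
  refine ⟨fun f hf => ?_, ?_, ?_⟩
  · rcases hf with hf | hf
    · have h8 : f.1 < (n i : ℤ) * D.X₂ + -2 * y + 7 * (⌊D.κ * n i / 2⌋₊ : ℕ) := hf.2.2.2.1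
      show f.1 + 1 < (n i : ℤ) * (D.X₁ - 4)
      omega
    · have h8 : f.1 < (n i : ℤ) * D.X₂ + -2 * x + 7 * (⌊D.κ * n i / 2⌋₊ : ℕ) := hf.2.2.2.1
      show f.1 + 1 < (n i : ℤ) * (D.X₁ - 4)
      omega
  · show (n i : ℤ) * D.X₂ + -2 * y < (n i : ℤ) * (D.X₁ - 4)
    omega
  · show (n i : ℤ) * D.X₂ + -2 * x < (n i : ℤ) * (D.X₁ - 4)
    omega

/-- the cut column is inside the box -/
theorem SFam.X0_lt (D : SFam P L g l n j z0) {z : ℂ} {r : ℝ} {i : ι} (hn : 0 < n i) {x y : ℕ}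
    (hxy : Win D.T 1 (n i) x y) : |D.X0 i| < bx (D.slb z r i) (-2 * y) (-2 * x) := by
  obtain ⟨h1, -, -, -⟩ := hxy
  have hX : (D.X₁ : ℝ) < D.X₂ := by linarith [D.hX₁, D.hX₂, D.hκ]
  have hn0 : (0 : ℝ) < n i := by exact_mod_cast hn
  have h2 : (n i : ℤ) * 6 ≤ x := by
    have h3 : (n i : ℝ) * 6 ≤ x := by
      unfold SFam.T at h1
      nlinarith
    exact_mod_cast h3
  have h4 : |D.X0 i| ≤ |(n i : ℤ) * D.X₁| + n i * 4 := by
    show |(n i : ℤ) * (D.X₁ - 4)| ≤ _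
    have h5 : (n i : ℤ) * (D.X₁ - 4) = n i * D.X₁ - n i * 4 := by ring
    have h6 : |((n i : ℤ) * 4)| = n i * 4 := abs_of_nonneg (by positivity)
    have h12 : |(n i : ℤ) * D.X₁ - n i * 4| ≤ |(n i : ℤ) * D.X₁| + |(n i : ℤ) * 4| := abs_sub _ _
    rw [h5]
    rw [h6] at h12
    exact h12
  have h7 : |-2 * (x : ℤ)| = 2 * x := by
    rw [abs_mul, abs_of_nonneg (show (0 : ℤ) ≤ x by positivity)]
    rfl
  have h8 := abs_nonneg ((n i : ℤ) * D.X₂)
  have h9 := abs_nonneg (⌊(n i : ℝ) * z.im⌋)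
  have h10 := abs_nonneg (-2 * (y : ℤ))
  have h11 : (0 : ℤ) < n i := by exact_mod_cast hn
  show |D.X0 i| < |(n i : ℤ) * D.X₁| + |(n i : ℤ) * D.X₂| + |⌊(n i : ℝ) * z.im⌋| + 2 * |-2 * (y : ℤ)| +
    2 * |-2 * (x : ℤ)| + 10 * ((⌊D.κ * n i / 2⌋₊ : ℕ) : ℤ) + ((⌈100 * r * n i⌉₊ : ℕ) : ℤ) +
    (((n i : ℤ) * D.X₂ - n i * D.X₁).toNat : ℤ) + 2
  rw [h7]
  omega

end fam

end

end Pool.Agent.SixB.Asm3
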