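import Pool.Agent.Lib.SixB.S3EnvN
import Pool.Agent.Lib.SixB.CAEnvF

/-!
# 6BD step 3: the slabs of a polygon at a point (captain helper95)

* `crs_eq`: turning of the contour from the directions; `phC_of`: the phases `phC` of CAEnvE have the jumps `j`
  (`PhC`).
* `MFam.pos`: the marks of the three families converge; `MFam.far`: off finitely many heights there is no mark and no
  corner at height `|y' - y| ≤ κ` for large `i`.
-/

set_option autoImplicit false
set_option linter.unusedSectionVars false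

namespace Pool.Agent.SixB

open Pool.Agent.Perc.Q Pool.Agent.Perc Filter Topology

namespace Asm3

noncomputable section

variable {P D : Finset (ℤ × ℤ)} {L m : ℕ} {g : ℤ → ℤ × ℤ} {ν : ℤ → ℤ} {j : ℤ → ℝ}
  {ψ : (ℤ × ℤ) × (ℤ × ℤ) → ℝ} {n : ℕ}

/-! ## Turnings and phases -/

theorem crs_eq (h1 : ∀ i, g (i + 1) = g i + dv (ν i))
    (h2 : ∀ i, ν (i + 1) = ν i + 1 ∨ ν (i + 1) = ν i ∨ ν (i + 1) = ν i - 1) (k : ℤ) :
    crs g k = ν k - ν (k - 1) := by
  have e1 : g k = g (k - 1) + dv (ν (k - 1)) := by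
    have := h1 (k - 1)
    rwa [sub_add_cancel] at this
  have e2 := h1 k
  have e3 := h2 (k - 1)
  rw [sub_add_cancel] at e3
  have a1 : (g k).1 - (g (k - 1)).1 = (dv (ν (k - 1))).1 := by rw [e1]; simp
  have a2 : (g k).2 - (g (k - 1)).2 = (dv (ν (k - 1))).2 := by rw [e1]; simp
  have a3 : (g (k + 1)).1 - (g k).1 = (dv (ν k)).1 := by rw [e2]; simp
  have a4 : (g (k + 1)).2 - (g k).2 = (dv (ν k)).2 := by rw [e2]; simp
  unfold crs
  rw [a1, a2, a3, a4]
  have hr : ν (k - 1) % 4 = 0 ∨ ν (k - 1) % 4 = 1 ∨ ν (k - 1) % 4 = 2 ∨ ν (k - 1) % 4 = 3 := by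
    omega
  rcases e3 with e3 | e3 | e3 <;> rw [e3] <;> rcases hr with hr | hr | hr | hr
  all_goals
    first
    | (have t1 : dv (ν (k - 1)) = (1, 0) := by unfold dv; rw [if_pos hr]
       rw [t1])
    | (have t1 : dv (ν (k - 1)) = (0, 1) := by unfold dv; rw [if_neg (by omega), if_pos hr]
       rw [t1])
    | (have t1 : dv (ν (k - 1)) = (-1, 0) := by
         unfold dv; rw [if_neg (by omega), if_neg (by omega), if_pos hr]
       rw [t1])
    | (have t1 : dv (ν (k - 1)) = (0, -1) := by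
         unfold dv; rw [if_neg (by omega), if_neg (by omega), if_neg (by omega)]
       rw [t1])
  all_goals
    first
    | (have t2 : dv (ν (k - 1) + 1) = (0, 1) := by
         unfold dv; rw [if_neg (by omega), if_pos (by omega)]
       rw [t2]; ring)
    | (have t2 : dv (ν (k - 1) + 1) = (-1, 0) := by
         unfold dv; rw [if_neg (by omega), if_neg (by omega), if_pos (by omega)]
       rw [t2]; ring)
    | (have t2 : dv (ν (k - 1) + 1) = (0, -1) := by
         unfold dv; rw [if_neg (by omega), if_neg (by omega), if_neg (by omega)]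
       rw [t2]; ring)
    | (have t2 : dv (ν (k - 1) + 1) = (1, 0) := by
         unfold dv; rw [if_pos (by omega)]
       rw [t2]; ring)
    | (have t2 : dv (ν (k - 1) - 1) = (0, 1) := by
         unfold dv; rw [if_neg (by omega), if_pos (by omega)]
       rw [t2]; ring)
    | (have t2 : dv (ν (k - 1) - 1) = (-1, 0) := by
         unfold dv; rw [if_neg (by omega), if_neg (by omega), if_pos (by omega)]
       rw [t2]; ring)
    | (have t2 : dv (ν (k - 1) - 1) = (0, -1) := by
         unfold dv; rw [if_neg (by omega), if_neg (by omega), if_neg (by omega)]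
       rw [t2]; ring)
    | (have t2 : dv (ν (k - 1) - 1) = (1, 0) := by
         unfold dv; rw [if_pos (by omega)]
       rw [t2]; ring)
    | ring

theorem csum_range (hj : ∀ v, j (v + m) = j v) : ∑ k ∈ Finset.range m, j k = csum j 0 m := by
  have h1 : csum j 0 m = ∑ k ∈ Finset.range m, j ((k : ℤ) + 1) := by
    unfold csum
    symm
    refine Finset.sum_bij (fun k _ => (k : ℤ) + 1) ?_ ?_ ?_ ?_
    · intro k hk
      rw [Finset.mem_Ioc]
      have := Finset.mem_range.mp hk
      omega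
    · intro a _ b _ h
      have h' : (a : ℤ) + 1 = (b : ℤ) + 1 := h
      omega
    · intro b hb
      rw [Finset.mem_Ioc] at hb
      exact ⟨(b - 1).toNat, Finset.mem_range.mpr (by omega), by omega⟩
    · intro k _
      rfl
  rw [h1]
  rcases Nat.eq_zero_or_pos m with rfl | hm
  · simp
  · obtain ⟨m', rfl⟩ : ∃ m', m = m' + 1 := ⟨m - 1, by omega⟩
    rw [Finset.sum_range_succ', Finset.sum_range_succ]
    congr 1
    have := hj 0
    rw [zero_add] at this
    rw [Nat.cast_zero, ← this]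
    push_cast
    rfl

/-- the standard phases have the jumps `j` -/
theorem phC_of (hc : Cont D m g) (h1 : ∀ i, g (i + 1) = g i + dv (ν i))
    (h2 : ∀ i, ν (i + 1) = ν i + 1 ∨ ν (i + 1) = ν i ∨ ν (i + 1) = ν i - 1)
    (hj : ∀ v, j (v + m) = j v) (h0 : csum j 0 m = Real.pi / 3) (hψ : IsPh g ν j ψ) :
    PhC D m g j ψ where
  cont := hc
  per := hj
  tot := by rw [csum_range hj, h0]
  jump := fun k => by
    have := hψ k
    unfold csd at this
    rw [sub_add_cancel] at this
    rw [crs_eq h1 h2]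
    exact this

/-- turnings of refined contours -/
theorem crs_gr (hn : 0 < n) (k : ℤ) : crs (gr n g) k = 0 ∨ ∃ q : ℤ, k = n * q := by
  have hn0 : (0 : ℤ) < n := by exact_mod_cast hn
  by_cases hk : (n : ℤ) ∣ k
  · obtain ⟨q, hq⟩ := hk
    exact Or.inr ⟨q, hq⟩
  left
  have h1 := Int.emod_nonneg k hn0.ne'
  have h2 := Int.emod_lt_of_pos k hn0
  have h3 := Int.mul_ediv_add_emod k n
  have h4 : k % n ≠ 0 := fun h => hk (Int.dvd_of_emod_eq_zero h)
  have e0 := CARf.gr_eq' g hn (k := k) (q := k / n) (r := k % n) h3.symm h1 h2.le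
  have e1 := CARf.gr_eq' g hn (k := k + 1) (q := k / n) (r := k % n + 1) (by linarith) (by omega)
    (by omega)
  have e2 := CARf.gr_eq' g hn (k := k - 1) (q := k / n) (r := k % n - 1) (by linarith) (by omega)
    (by omega)
  unfold crs
  rw [e0, e1, e2]
  ring

/-! ## Marks -/

theorem jN_ne {M : ℕ} {b v : ℤ} (h : jN M b v ≠ 0) : (M : ℤ) ∣ v - b := by
  unfold jN at h
  by_contra h1
  rw [if_neg h1] at h
  exact h rfl

/-- the marks of a family converge -/
theorem MFam.pos {ι : Type} {l : Filter ι} {n : ι → ℕ} {j : ι → ℤ → ℝ} (hn : Tendsto n l atTop)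
    (h : MFam L g l n j) : ∃ (m : ℕ) (t : Fin m → ℝ) (b : Fin m → ι → ℤ),
      (∀ a, Tendsto (fun i => (b a i : ℝ) / n i) l (𝓝 (t a))) ∧
      ∀ i k, j i k ≠ 0 → ∃ a, ((n i * L : ℕ) : ℤ) ∣ k - b a i := by
  cases h with
  | nat s b hs hb =>
    refine ⟨1, fun _ => s, fun _ => b, fun _ => hb, fun i k hk => ⟨0, jN_ne hk⟩⟩
  | pair α s s' b b' hα hs hs' h1 h2 hb hb' =>
    refine ⟨2, ![s, s'], ![b, b'], ?_, ?_⟩
    · intro a
      fin_cases a
      · exact hb
      · exact hb'
    · intro i k hk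
      by_contra hc
      push Not at hc
      apply hk
      show (1 - α) * jN (n i * L) (b i) k + α * jN (n i * L) (b' i) k = 0
      have e0 : jN (n i * L) (b i) k = 0 := by
        by_contra h; exact hc 0 (jN_ne h)
      have e1 : jN (n i * L) (b' i) k = 0 := by
        by_contra h; exact hc 1 (jN_ne h)
      rw [e0, e1]
      ring
  | full α t₁ t₂ t₂' t₃ t₄ b₁ b₂ b₂' b₃ k' hα hm h₁ h₂ h₂' h₃ h₄ =>
    have h₅ : Tendsto (fun i => ((k' i + 1 : ℤ) : ℝ) / n i) l (𝓝 t₄) := by
      have h6 : Tendsto (fun i => 1 / ((n i : ℕ) : ℝ)) l (𝓝 0) :=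
        tendsto_one_div_atTop_nhds_zero_nat.comp hn
      have h7 := h₄.add h6
      rw [add_zero] at h7
      refine h7.congr fun i => ?_
      push_cast
      rw [add_div]
    refine ⟨6, ![t₁, t₂, t₂', t₃, t₄, t₄], ![b₁, b₂, b₂', b₃, k', fun i => k' i + 1], ?_, ?_⟩
    · intro a
      fin_cases a
      · exact h₁
      · exact h₂
      · exact h₂'
      · exact h₃
      · exact h₄
      · exact h₅
    · intro i k hk
      by_contra hc
      push Not at hc
      apply hk
      show jN (n i * L) (b₁ i) k + ((1 - α) * jN (n i * L) (b₂ i) k + α * jN (n i * L) (b₂' i) k) +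
        jN (n i * L) (b₃ i) k - jN (n i * L) (k' i) k - jN (n i * L) (k' i + 1) k = 0
      have e0 : jN (n i * L) (b₁ i) k = 0 := by
        by_contra h; exact hc 0 (jN_ne h)
      have e1 : jN (n i * L) (b₂ i) k = 0 := by
        by_contra h; exact hc 1 (jN_ne h)
      have e2 : jN (n i * L) (b₂' i) k = 0 := by
        by_contra h; exact hc 2 (jN_ne h)
      have e3 : jN (n i * L) (b₃ i) k = 0 := by
        by_contra h; exact hc 3 (jN_ne h)
      have e4 : jN (n i * L) (k' i) k = 0 := by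
        by_contra h; exact hc 4 (jN_ne h)
      have e5 : jN (n i * L) (k' i + 1) k = 0 := by
        by_contra h; exact hc 5 (jN_ne h)
      rw [e0, e1, e2, e3, e4, e5]
      ring

theorem MFam.per {ι : Type} {l : Filter ι} {n : ι → ℕ} {j : ι → ℤ → ℝ} (h : MFam L g l n j) (i : ι)
    (v : ℤ) : j i (v + (n i * L : ℕ)) = j i v := by
  cases h with
  | nat s b hs hb => exact jN_per _ _ _
  | pair α s s' b b' hα hs hs' h1 h2 hb hb' => exact jP_per _ _ _ _ _
  | full α t₁ t₂ t₂' t₃ t₄ b₁ b₂ b₂' b₃ k' hα hm h₁ h₂ h₂' h₃ h₄ => exact jX_per _ _ _ _ _ _ _ _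

theorem MFam.tot {ι : Type} {l : Filter ι} {n : ι → ℕ} {j : ι → ℤ → ℝ} (h : MFam L g l n j) (i : ι)
    (hi : 0 < n i * L) : csum (j i) 0 (n i * L : ℕ) = Real.pi / 3 := by
  cases h with
  | nat s b hs hb => exact csum_jN hi _
  | pair α s s' b b' hα hs hs' h1 h2 hb hb' => exact csum_jP hi _ _ _
  | full α t₁ t₂ t₂' t₃ t₄ b₁ b₂ b₂' b₃ k' hα hm h₁ h₂ h₂' h₃ h₄ => exact csum_jX hi _ _ _ _ _ _

/-- sums of jumps over less than a period -/
theorem MFam.range {ι : Type} {l : Filter ι} {n : ι → ℕ} {j : ι → ℤ → ℝ} (h : MFam L g l n j) (i : ι)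
    (hi : 0 < n i * L) {a b : ℤ} (hab : b < a + (n i * L : ℕ)) :
    -(2 * (Real.pi / 3)) ≤ csum (j i) a b ∧ csum (j i) a b ≤ Real.pi := by
  have hpi := Real.pi_pos
  have key : ∀ c : ℤ, 0 ≤ csum (jN (n i * L) c) a b ∧ csum (jN (n i * L) c) a b ≤ Real.pi / 3 := by
    intro c
    rw [csum_jN_cases hi c hab]
    split_ifs
    · exact ⟨by positivity, le_refl _⟩
    · exact ⟨le_refl _, by positivity⟩
  cases h with
  | nat s b' hs hb =>
    obtain ⟨h1, h2⟩ := key (b' i)
    constructor <;> linarith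
  | pair α s s' b₁ b₂ hα hs hs' h1 h2 hb hb' =>
    have h3 := csum_lin (jN (n i * L) (b₁ i)) (jN (n i * L) (b₂ i)) (1 - α) α a b
    have h4 : csum (jP (n i * L) α (b₁ i) (b₂ i)) a b =
        (1 - α) * csum (jN (n i * L) (b₁ i)) a b + α * csum (jN (n i * L) (b₂ i)) a b := h3
    obtain ⟨k1, k2⟩ := key (b₁ i)
    obtain ⟨k3, k4⟩ := key (b₂ i)
    obtain ⟨a1, a2⟩ := hα
    rw [h4]
    constructor
    · have : 0 ≤ (1 - α) * csum (jN (n i * L) (b₁ i)) a b + α * csum (jN (n i * L) (b₂ i)) a b := by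
        have : 0 ≤ 1 - α := by linarith
        positivity
      linarith
    · nlinarith
  | full α t₁ t₂ t₂' t₃ t₄ b₁ b₂ b₂' b₃ k' hα hm h₁ h₂ h₂' h₃ h₄ =>
    have h4 : csum (jX (n i * L) α (b₁ i) (b₂ i) (b₂' i) (b₃ i) (k' i)) a b =
        csum (jN (n i * L) (b₁ i)) a b + ((1 - α) * csum (jN (n i * L) (b₂ i)) a b +
          α * csum (jN (n i * L) (b₂' i)) a b) + csum (jN (n i * L) (b₃ i)) a b -
          csum (jN (n i * L) (k' i)) a b - csum (jN (n i * L) (k' i + 1)) a b := by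
      unfold csum jX
      rw [Finset.sum_sub_distrib, Finset.sum_sub_distrib, Finset.sum_add_distrib,
        Finset.sum_add_distrib, Finset.sum_add_distrib, ← Finset.mul_sum, ← Finset.mul_sum]
    obtain ⟨k1, k2⟩ := key (b₁ i)
    obtain ⟨k3, k4⟩ := key (b₂ i)
    obtain ⟨k5, k6⟩ := key (b₂' i)
    obtain ⟨k7, k8⟩ := key (b₃ i)
    obtain ⟨k9, k10⟩ := key (k' i)
    obtain ⟨k11, k12⟩ := key (k' i + 1)
    obtain ⟨a1, a2⟩ := hα
    rw [h4]
    have a3 : 0 ≤ 1 - α := by linarith
    have a4 : 0 ≤ (1 - α) * csum (jN (n i * L) (b₂ i)) a b + α * csum (jN (n i * L) (b₂' i)) a b := by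
      positivity
    have a5 : (1 - α) * csum (jN (n i * L) (b₂ i)) a b + α * csum (jN (n i * L) (b₂' i)) a b ≤
        Real.pi / 3 := by nlinarith
    constructor <;> linarith

end

end Asm3

end Pool.Agent.SixB
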