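import Pool.Agent.Lib.SixB.S3AsmGeo
import Pool.Agent.Lib.SixB.S3CutD
import Pool.Agent.Lib.SixB.S0Uniq

/-!
# 6BD step 3: the walls of a slab (captain helper95)

* `Asm3.succ_side`: the contour is determined by its sides; `right_wall`, `left_wall`: the contour along the two
  walls of a slab;
* `ph_wall`: phases are constant along straight pieces without marks;
* `turn2`: the contour turns twice on its way from the right wall to the left wall (`Turn2`);
* `slb_ok`: a slab of a polygon without marks satisfies `Slb.Ok`.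
-/

set_option autoImplicit false
set_option linter.unusedSectionVars false

namespace Pool.Agent.SixB

open Pool.Agent.Perc.Q Pool.Agent.Perc Filter Topology

namespace Asm3

noncomputable section

variable {D : Finset (ℤ × ℤ)} {m : ℕ} {b : ℤ → ℤ × ℤ} {j : ℤ → ℝ} {x1 x2 w1 w2 : ℤ}
  {ψ : (ℤ × ℤ) × (ℤ × ℤ) → ℝ}

/-- the next vertex of the contour is determined by the side -/
theorem succ_side (hc : Cont D m b) {k : ℤ} {p q : ℤ × ℤ} (h : LSide D p q) (hk : b k = p) :
    b (k + 1) = q := by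
  obtain ⟨k', h1, h2⟩ := hc.all p q h
  obtain ⟨c, hc'⟩ := hc.inj k' k (by rw [h1, hk])
  have h3 : k' + 1 = k + 1 + c * m := by linarith
  have h4 : b (k + 1 + c * m) = b (k + 1) := by
    have := hc.csd_per k c
    unfold csd at this
    have h5 := (Prod.mk.inj this).2
    rwa [show k + c * (m : ℤ) + 1 = k + 1 + c * m by ring] at h5
  rw [← h4, ← h3, h2]

theorem side_right (hs : SlabIn (D : Set (ℤ × ℤ)) x1 x2 w1 w2) {y : ℤ} (h1 : w1 ≤ y) (h2 : y < w2) :
    LSide D (x2, y) (x2, y + 1) := by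
  refine Or.inr (Or.inl ⟨rfl, ?_, ?_⟩)
  · have := hs.sub (x2 - 1) y (by have := hs.hx; omega) (by omega) h1 h2
    exact_mod_cast this
  · have := hs.right y h1 h2
    exact_mod_cast this

theorem side_left (hs : SlabIn (D : Set (ℤ × ℤ)) x1 x2 w1 w2) {y : ℤ} (h1 : w1 ≤ y) (h2 : y < w2) :
    LSide D (x1, y + 1) (x1, y) := by
  refine Or.inr (Or.inr (Or.inr ⟨?_, ?_, ?_⟩))
  · ext
    · rfl
    · show y = y + 1 - 1
      ring
  · have := hs.sub x1 y le_rfl hs.hx h1 h2
    show (x1, y + 1 - 1) ∈ D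
    rw [add_sub_cancel_right]
    exact_mod_cast this
  · have := hs.left y h1 h2
    show (x1 - 1, y + 1 - 1) ∉ D
    rw [add_sub_cancel_right]
    exact_mod_cast this

/-- the contour along the right wall, starting at the height `y` -/
theorem right_wall (hc : Cont D m b) (hs : SlabIn (D : Set (ℤ × ℤ)) x1 x2 w1 w2) {y : ℤ}
    (h1 : w1 ≤ y) {k : ℤ} (hk : b k = (x2, y)) : ∀ t : ℕ, y + t ≤ w2 → b (k + t) = (x2, y + t)
  | 0, _ => by simpa using hk
  | t + 1, ht => by
    push_cast at ht ⊢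
    have ih := right_wall hc hs h1 hk t (by omega)
    have := succ_side hc (side_right hs (y := y + t) (by omega) (by omega)) ih
    rw [show k + ((t : ℤ) + 1) = k + t + 1 by ring, this]
    ext
    · rfl
    · show y + t + 1 = y + (t + 1)
      ring

/-- the contour along the left wall, starting at the height `y` -/
theorem left_wall (hc : Cont D m b) (hs : SlabIn (D : Set (ℤ × ℤ)) x1 x2 w1 w2) {y : ℤ}
    (h1 : y ≤ w2) {k : ℤ} (hk : b k = (x1, y)) : ∀ t : ℕ, w1 ≤ y - t → b (k + t) = (x1, y - t)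
  | 0, _ => by simpa using hk
  | t + 1, ht => by
    push_cast at ht ⊢
    have ih := left_wall hc hs h1 hk t (by omega)
    have h3 := side_left hs (y := y - t - 1) (by omega) (by omega)
    rw [sub_add_cancel] at h3
    have := succ_side hc h3 ih
    rw [show k + ((t : ℤ) + 1) = k + t + 1 by ring, this]
    ext
    · rfl
    · show y - t - 1 = y - (t + 1)
      ring

/-- phases along a straight piece without marks -/
theorem ph_wall (hp : PhC D m b j ψ) {k : ℤ} {p d : ℤ × ℤ} {T : ℕ}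
    (hb : ∀ t : ℕ, t ≤ T → b (k + t) = p + (t : ℤ) • d)
    (hj : ∀ t : ℕ, 0 < t → t < T → j (k + t) = 0) :
    ∀ t : ℕ, t < T → ψ (b (k + t), b (k + t + 1)) = ψ (b k, b (k + 1))
  | 0, _ => by simp
  | t + 1, ht => by
    have ih := ph_wall hp hb hj t (by omega)
    have h1 := hp.jump (k + (t + 1 : ℕ))
    have e0 := hb t (by omega)
    have e1 := hb (t + 1) (by omega)
    have e2 := hb (t + 2) (by omega)
    have hcr : crs b (k + (t + 1 : ℕ)) = 0 := by
      unfold crs
      have a0 : b (k + (t + 1 : ℕ) - 1) = p + (t : ℤ) • d := by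
        rw [← e0]; congr 1; push_cast; ring
      have a2 : b (k + (t + 1 : ℕ) + 1) = p + ((t + 2 : ℕ) : ℤ) • d := by
        rw [← e2]; congr 1; push_cast; ring
      rw [a0, a2, e1]
      obtain ⟨d1, d2⟩ := d
      obtain ⟨p1, p2⟩ := p
      simp only [Prod.smul_mk, Prod.mk_add_mk, smul_eq_mul]
      push_cast
      ring
    rw [hcr, hj (t + 1) (by omega) ht] at h1
    have h3 : k + ((t + 1 : ℕ) : ℤ) - 1 = k + t := by push_cast; ring
    rw [h3] at h1
    have h4 : b (k + ((t + 1 : ℕ) : ℤ)) = b (k + t + 1) := by congr 1; push_cast; ring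
    have h5 : ψ (b (k + ((t + 1 : ℕ) : ℤ)), b (k + ((t + 1 : ℕ) : ℤ) + 1)) =
        ψ (b (k + t), b (k + t + 1)) := by
      rw [h4] at h1 ⊢
      simp only [Int.cast_zero, zero_mul, add_zero] at h1
      linarith
    rw [h5, ih]

/-- sum of the phases along a piece of the contour -/
theorem ph_sum (hp : PhC D m b j ψ) (k : ℤ) : ∀ t : ℕ,
    ψ (b (k + t), b (k + t + 1)) - ψ (b k, b (k + 1)) =
      csum j k (k + t) - ((∑ v ∈ Finset.Ioc k (k + t), crs b v : ℤ) : ℝ) * (Real.pi / 12)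
  | 0 => by simp [csum]
  | t + 1 => by
    have ih := ph_sum hp k t
    have h1 := hp.jump (k + t + 1)
    have h2 : Finset.Ioc k (k + ((t + 1 : ℕ) : ℤ)) = insert (k + t + 1) (Finset.Ioc k (k + t)) := by
      ext v
      rw [Finset.mem_insert, Finset.mem_Ioc, Finset.mem_Ioc]
      push_cast
      omega
    have h3 : k + t + 1 ∉ Finset.Ioc k (k + (t : ℤ)) := by
      rw [Finset.mem_Ioc]
      omega
    unfold csum at ih ⊢
    rw [h2, Finset.sum_insert h3, Finset.sum_insert h3]
    rw [show k + (t : ℤ) + 1 - 1 = k + t by ring] at h1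
    rw [show k + ((t + 1 : ℕ) : ℤ) = k + t + 1 by push_cast; ring]
    push_cast at ih ⊢
    linarith

/-- the contour turns twice on its way from the right wall to the left wall of the slab -/
def Turn2 (m : ℕ) (b : ℤ → ℤ × ℤ) (x1 x2 w1 w2 : ℤ) : Prop :=
  ∀ y : ℤ, w1 < y → y + 1 < w2 → ∃ (k : ℤ) (t : ℕ), t < m ∧ b k = (x2, y) ∧ b (k + 1) = (x2, y + 1) ∧
    b (k + t) = (x1, y + 1) ∧ b (k + t + 1) = (x1, y) ∧ ∑ v ∈ Finset.Ioc k (k + t), crs b v = 2

theorem turn2 (hD : MPoly D) (hc : Cont D m b) (hs : SlabIn (D : Set (ℤ × ℤ)) x1 x2 w1 w2) :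
    Turn2 m b x1 x2 w1 w2 := by
  intro y h1 h2
  obtain ⟨ν, hν1, hν2, hν3, hd⟩ := hD.disc hc
  have hm : (0 : ℤ) < m := by exact_mod_cast hc.pos
  obtain ⟨kr, e1, e2⟩ := hc.all _ _ (side_right hs (y := y) h1.le (by omega))
  obtain ⟨k0, e3, e4⟩ := hc.all _ _ (side_left hs (y := y) h1.le (by omega))
  have h3 := Int.emod_nonneg (k0 - kr) hm.ne'
  have h4 := Int.emod_lt_of_pos (k0 - kr) hm
  have h5 := Int.mul_ediv_add_emod (k0 - kr) m
  set t : ℕ := ((k0 - kr) % m).toNat with ht
  have h6 : (t : ℤ) = (k0 - kr) % m := by omega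
  have h7 : kr + t = k0 + (-((k0 - kr) / m)) * m := by
    rw [h6]
    linarith
  have h8 : csd b (kr + t) = ((x1, y + 1), (x1, y)) := by
    rw [h7, hc.csd_per]
    unfold csd
    rw [e3, e4]
  have h9 : csd b kr = ((x2, y), (x2, y + 1)) := by
    unfold csd
    rw [e1, e2]
  have h10 : t ≠ 0 := by
    intro h0
    rw [h0, Nat.cast_zero, add_zero, h9] at h8
    have := hs.hx
    have h11 := congrArg (fun x : (ℤ × ℤ) × (ℤ × ℤ) => x.1.1) h8
    simp only at h11
    omega
  have h12 := SlabIn.lift_up hD hs h1 h2 hc hν2 hd h9 h8 (by omega) (by omega)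
  refine ⟨kr, t, by omega, e1, e2, (Prod.mk.inj h8).1, (Prod.mk.inj h8).2, ?_⟩
  have h13 : ∀ t : ℕ, ∑ v ∈ Finset.Ioc kr (kr + t), crs b v = ν (kr + t) - ν kr := by
    intro t
    induction t with
    | zero => simp
    | succ t ih =>
      have h2 : Finset.Ioc kr (kr + ((t + 1 : ℕ) : ℤ)) =
          insert (kr + t + 1) (Finset.Ioc kr (kr + t)) := by
        ext v
        rw [Finset.mem_insert, Finset.mem_Ioc, Finset.mem_Ioc]
        push_cast
        omega
      have h3 : kr + t + 1 ∉ Finset.Ioc kr (kr + (t : ℤ)) := by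
        rw [Finset.mem_Ioc]
        omega
      rw [h2, Finset.sum_insert h3, ih, crs_eq hν1 hν3]
      rw [show kr + (t : ℤ) + 1 - 1 = kr + t by ring,
        show kr + ((t + 1 : ℕ) : ℤ) = kr + t + 1 by push_cast; ring]
      ring
  rw [h13 t, h12]
  ring

/-- **A slab without marks is admissible.** -/
theorem slb_ok (hD : MPoly D) (hp : PhC D m b j ψ) {yc : ℤ} {k a : ℕ}
    (hs : SlabIn (D : Set (ℤ × ℤ)) x1 x2 w1 w2) (h1 : w1 ≤ yc - k) (h2 : yc + k ≤ w2) (ha : 0 < a)
    (hak : 100 * a ≤ k) (hx : x1 + k ≤ x2)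
    (hj : ∀ v : ℤ, (b v).1 = x1 ∨ (b v).1 = x2 → yc - k ≤ (b v).2 → (b v).2 ≤ yc + k → j v = 0)
    (hr : ∀ i i' : ℤ, i' < i + m → -(2 * (Real.pi / 3)) ≤ csum j i i' ∧ csum j i i' ≤ Real.pi) :
    (Slb.mk D ψ x1 x2 yc k a).Ok where
  poly := hD
  slab :=
    { hx := hs.hx
      sub := fun x y h3 h4 h5 h6 => hs.sub x y h3 h4 (h1.trans h5) (h6.trans_le h2)
      left := fun y h3 h4 => hs.left y (h1.trans h3) (h4.trans_le h2)
      right := fun y h3 h4 => hs.right y (h1.trans h3) (h4.trans_le h2) }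
  ha := ha
  hak := hak
  hx := hx
  right := by
    have hc := hp.cont
    -- start of the wall
    obtain ⟨k0, e0, -⟩ := hc.all _ _ (side_right hs (y := yc - k) h1 (by omega))
    have hb := right_wall hc hs h1 e0
    have hb' : ∀ t : ℕ, t ≤ 2 * k → b (k0 + t) = (x2, yc - k) + (t : ℤ) • ((0, 1) : ℤ × ℤ) := by
      intro t ht'
      rw [hb t (by omega)]
      ext
      · simp
      · simp
    have hw := ph_wall hp hb' (fun t h3 h4 => by
      refine hj _ ?_ ?_ ?_
      · rw [hb' t h4.le]; right; simp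
      · rw [hb' t h4.le]; simp
      · rw [hb' t h4.le]; simp; omega)
    have key : ∀ y : ℤ, yc - k ≤ y → y < yc + k → ψ ((x2, y), (x2, y + 1)) = ψ (b k0, b (k0 + 1)) := by
      intro y h3 h4
      obtain ⟨t, ht'⟩ : ∃ t : ℕ, y = yc - k + t := ⟨(y - (yc - k)).toNat, by omega⟩
      have h5 := hw t (by omega)
      have h6 := hb t (by omega)
      have h7 := hb (t + 1) (by push_cast; omega)
      push_cast at h7
      rw [← add_assoc, ← add_assoc] at h7
      rw [h6, h7] at h5
      rw [ht']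
      exact h5
    intro y h3 h4
    show ψ ((x2, y), (x2, y + 1)) = ψ ((x2, yc), (x2, yc + 1))
    rw [key y h3 h4, key yc (by omega) (by omega)]
  left := by
    have hc := hp.cont
    have hsd := side_left hs (y := yc + k - 1) (by omega) (by omega)
    rw [sub_add_cancel] at hsd
    obtain ⟨k0, e0, -⟩ := hc.all _ _ hsd
    have hb := left_wall hc hs h2 e0
    have hb' : ∀ t : ℕ, t ≤ 2 * k → b (k0 + t) = (x1, yc + k) + (t : ℤ) • ((0, -1) : ℤ × ℤ) := by
      intro t ht'
      rw [hb t (by omega)]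
      ext
      · simp
      · simp
        ring
    have hw := ph_wall hp hb' (fun t h3 h4 => by
      refine hj _ ?_ ?_ ?_
      · rw [hb' t h4.le]; left; simp
      · rw [hb' t h4.le]; simp; omega
      · rw [hb' t h4.le]; simp)
    have key : ∀ y : ℤ, yc - k ≤ y → y < yc + k → ψ ((x1, y + 1), (x1, y)) = ψ (b k0, b (k0 + 1)) := by
      intro y h3 h4
      obtain ⟨t, ht'⟩ : ∃ t : ℕ, y = yc + k - 1 - t := ⟨(yc + k - 1 - y).toNat, by omega⟩
      have h5 := hw t (by omega)
      have h6 := hb t (by omega)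
      have h7 := hb (t + 1) (by push_cast; omega)
      have e1 : k0 + ((t + 1 : ℕ) : ℤ) = k0 + t + 1 := by push_cast; ring
      rw [e1] at h7
      rw [h6, h7] at h5
      have e2 : y + 1 = yc + k - t := by omega
      have e3 : y = yc + k - ((t + 1 : ℕ) : ℤ) := by push_cast; omega
      rw [e2]
      rw [e3]
      exact h5
    intro y h3 h4
    show ψ ((x1, y + 1), (x1, y)) = ψ ((x1, yc + 1), (x1, yc))
    rw [key y h3 h4, key yc (by omega) (by omega)]
  mu1 := by
    obtain ⟨i, t, h3, e1, e2, e3, e4, e5⟩ := turn2 hD hp.cont hs yc (by omega) (by omega)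
    have h6 := ph_sum hp i t
    rw [e5, e1, e2, e3, e4] at h6
    have h7 := (hr i (i + t) (by omega)).1
    show -(2 * (Real.pi / 3)) ≤ ψ ((x1, yc + 1), (x1, yc)) - ψ ((x2, yc), (x2, yc + 1)) + Real.pi / 6
    push_cast at h6
    linarith
  mu2 := by
    obtain ⟨i, t, h3, e1, e2, e3, e4, e5⟩ := turn2 hD hp.cont hs yc (by omega) (by omega)
    have h6 := ph_sum hp i t
    rw [e5, e1, e2, e3, e4] at h6
    have h7 := (hr i (i + t) (by omega)).2
    show ψ ((x1, yc + 1), (x1, yc)) - ψ ((x2, yc), (x2, yc + 1)) + Real.pi / 6 ≤ Real.pi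
    push_cast at h6
    linarith

end

end Asm3

end Pool.Agent.SixB
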