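import Pool.Agent.Lib.SixB.S3AtlDefs

/-!
# 6BD step 3, row R7: wedges, walls and charts in explicit form

* `lf4 o p`: face on the left of the directed unit edge `(p, p + dz o)`; `sd_lf4`.
* `mem_w10, …, mem_w33`: the wedges `Wdg m o v r` by inequalities.
* `mem_wOut0, …, mem_wIn3`: the walls, every side as `sd ZQ f k` with an explicit face.
* `PChart.side_sdR`, `PChart.monoR`, `PChart.restr`, `WChart.mono`, `WChart.restr`, `MChart.restr`: smaller radius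
  and smaller surface.
* `WChart.mk'`: a chart from the statement that the wall sides are boundary sides.
-/

set_option autoImplicit false
set_option linter.unusedSectionVars false

namespace Pool.Agent.SixB

open Pool.Agent.Perc.Q Pool.Agent.Perc

noncomputable section

theorem zm4_cases (k : ZMod 4) : k = 0 ∨ k = 1 ∨ k = 2 ∨ k = 3 := by revert k; decide

/-- the face on the left of the directed unit edge from `p` in the direction `o` -/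
def lf4 (o : ZMod 4) (p : ℤ × ℤ) : ℤ × ℤ :=
  if o = 0 then p else if o = 1 then (p.1 - 1, p.2) else if o = 2 then (p.1 - 1, p.2 - 1)
  else (p.1, p.2 - 1)

theorem dz0 : dz 0 = (1, 0) := rfl
theorem dz1 : dz 1 = (0, 1) := rfl
theorem dz2 : dz 2 = (-1, 0) := rfl
theorem dz3 : dz 3 = (0, -1) := rfl
theorem lf40 (p : ℤ × ℤ) : lf4 0 p = p := rfl
theorem lf41 (p : ℤ × ℤ) : lf4 1 p = (p.1 - 1, p.2) := rfl
theorem lf42 (p : ℤ × ℤ) : lf4 2 p = (p.1 - 1, p.2 - 1) := rfl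
theorem lf43 (p : ℤ × ℤ) : lf4 3 p = (p.1, p.2 - 1) := rfl

theorem sdz0 (x y : ℤ) : sd ZQ (x, y) 0 = ((x, y), (x + 1, y)) := rfl
theorem sdz1 (x y : ℤ) : sd ZQ (x, y) 1 = ((x + 1, y), (x + 1, y + 1)) := rfl
theorem sdz2 (x y : ℤ) : sd ZQ (x, y) 2 = ((x + 1, y + 1), (x, y + 1)) := rfl
theorem sdz3 (x y : ℤ) : sd ZQ (x, y) 3 = ((x, y + 1), (x, y)) := rfl

theorem sd_lf4 (o : ZMod 4) (p : ℤ × ℤ) : sd ZQ (lf4 o p) o = (p, p + dz o) := by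
  obtain ⟨x, y⟩ := p
  rcases zm4_cases o with rfl | rfl | rfl | rfl
  · rw [lf40, sdz0, dz0]; simp
  · rw [lf41, sdz1, dz1]; simp
  · rw [lf42, sdz2, dz2]; simp; omega
  · rw [lf43, sdz3, dz3]; simp; omega

/-! ## Wedges -/

theorem quad_cases (v f : ℤ × ℤ) : (v.1 ≤ f.1 ∧ v.2 ≤ f.2 ∧ quad v f = 0) ∨
    (f.1 < v.1 ∧ v.2 ≤ f.2 ∧ quad v f = 1) ∨ (f.1 < v.1 ∧ f.2 < v.2 ∧ quad v f = 2) ∨
    (v.1 ≤ f.1 ∧ f.2 < v.2 ∧ quad v f = 3) := by
  unfold quad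
  split_ifs with h1 h2 h3
  · exact Or.inl ⟨h1, h2, rfl⟩
  · exact Or.inr (Or.inr (Or.inr ⟨h1, by omega, rfl⟩))
  · exact Or.inr (Or.inl ⟨by omega, h3, rfl⟩)
  · exact Or.inr (Or.inr (Or.inl ⟨by omega, by omega, rfl⟩))

section wdg
variable {m : ℕ} {o : ZMod 4} {v f : ℤ × ℤ} {r t : ℕ} {a : (ℤ × ℤ) × (ℤ × ℤ)}

theorem mem_Bx : f ∈ Bx v r ↔ v.1 - r ≤ f.1 ∧ f.1 < v.1 + r ∧ v.2 - r ≤ f.2 ∧ f.2 < v.2 + r := by
  unfold Bx
  rw [Finset.mem_product, Finset.mem_Ico, Finset.mem_Ico]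
  tauto

theorem mem_Wdg : f ∈ Wdg m o v r ↔ (v.1 - r ≤ f.1 ∧ f.1 < v.1 + r ∧ v.2 - r ≤ f.2 ∧ f.2 < v.2 + r) ∧
    (quad v f - o).val < m := by
  unfold Wdg
  rw [Finset.mem_filter, mem_Bx]

theorem Wdg_sub_Bx : Wdg m o v r ⊆ Bx v r := Finset.filter_subset _ _

theorem Wdg_mono {r' : ℕ} (h : r' ≤ r) : Wdg m o v r' ⊆ Wdg m o v r := by
  intro f hf
  rw [mem_Wdg] at hf ⊢
  exact ⟨⟨by omega, by omega, by omega, by omega⟩, hf.2⟩

theorem mem_w10 : f ∈ Wdg 1 0 v r ↔ (v.1 - r ≤ f.1 ∧ f.1 < v.1 + r ∧ v.2 - r ≤ f.2 ∧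
    f.2 < v.2 + r) ∧ v.1 ≤ f.1 ∧ v.2 ≤ f.2 := by
  rw [mem_Wdg]
  rcases quad_cases v f with ⟨h1, h2, h3⟩ | ⟨h1, h2, h3⟩ | ⟨h1, h2, h3⟩ | ⟨h1, h2, h3⟩ <;>
    rw [h3] <;> constructor <;> intro h <;>
    first
      | omega
      | exact absurd h.2 (by decide)
      | exact ⟨h.1, by decide⟩

theorem mem_w11 : f ∈ Wdg 1 1 v r ↔ (v.1 - r ≤ f.1 ∧ f.1 < v.1 + r ∧ v.2 - r ≤ f.2 ∧
    f.2 < v.2 + r) ∧ f.1 < v.1 ∧ v.2 ≤ f.2 := by
  rw [mem_Wdg]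
  rcases quad_cases v f with ⟨h1, h2, h3⟩ | ⟨h1, h2, h3⟩ | ⟨h1, h2, h3⟩ | ⟨h1, h2, h3⟩ <;>
    rw [h3] <;> constructor <;> intro h <;>
    first
      | omega
      | exact absurd h.2 (by decide)
      | exact ⟨h.1, by decide⟩

theorem mem_w12 : f ∈ Wdg 1 2 v r ↔ (v.1 - r ≤ f.1 ∧ f.1 < v.1 + r ∧ v.2 - r ≤ f.2 ∧
    f.2 < v.2 + r) ∧ f.1 < v.1 ∧ f.2 < v.2 := by
  rw [mem_Wdg]
  rcases quad_cases v f with ⟨h1, h2, h3⟩ | ⟨h1, h2, h3⟩ | ⟨h1, h2, h3⟩ | ⟨h1, h2, h3⟩ <;>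
    rw [h3] <;> constructor <;> intro h <;>
    first
      | omega
      | exact absurd h.2 (by decide)
      | exact ⟨h.1, by decide⟩

theorem mem_w13 : f ∈ Wdg 1 3 v r ↔ (v.1 - r ≤ f.1 ∧ f.1 < v.1 + r ∧ v.2 - r ≤ f.2 ∧
    f.2 < v.2 + r) ∧ v.1 ≤ f.1 ∧ f.2 < v.2 := by
  rw [mem_Wdg]
  rcases quad_cases v f with ⟨h1, h2, h3⟩ | ⟨h1, h2, h3⟩ | ⟨h1, h2, h3⟩ | ⟨h1, h2, h3⟩ <;>
    rw [h3] <;> constructor <;> intro h <;>
    first
      | omega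
      | exact absurd h.2 (by decide)
      | exact ⟨h.1, by decide⟩

theorem mem_w20 : f ∈ Wdg 2 0 v r ↔ (v.1 - r ≤ f.1 ∧ f.1 < v.1 + r ∧ v.2 - r ≤ f.2 ∧
    f.2 < v.2 + r) ∧ v.2 ≤ f.2 := by
  rw [mem_Wdg]
  rcases quad_cases v f with ⟨h1, h2, h3⟩ | ⟨h1, h2, h3⟩ | ⟨h1, h2, h3⟩ | ⟨h1, h2, h3⟩ <;>
    rw [h3] <;> constructor <;> intro h <;>
    first
      | omega
      | exact absurd h.2 (by decide)
      | exact ⟨h.1, by decide⟩

theorem mem_w21 : f ∈ Wdg 2 1 v r ↔ (v.1 - r ≤ f.1 ∧ f.1 < v.1 + r ∧ v.2 - r ≤ f.2 ∧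
    f.2 < v.2 + r) ∧ f.1 < v.1 := by
  rw [mem_Wdg]
  rcases quad_cases v f with ⟨h1, h2, h3⟩ | ⟨h1, h2, h3⟩ | ⟨h1, h2, h3⟩ | ⟨h1, h2, h3⟩ <;>
    rw [h3] <;> constructor <;> intro h <;>
    first
      | omega
      | exact absurd h.2 (by decide)
      | exact ⟨h.1, by decide⟩

theorem mem_w22 : f ∈ Wdg 2 2 v r ↔ (v.1 - r ≤ f.1 ∧ f.1 < v.1 + r ∧ v.2 - r ≤ f.2 ∧
    f.2 < v.2 + r) ∧ f.2 < v.2 := by
  rw [mem_Wdg]
  rcases quad_cases v f with ⟨h1, h2, h3⟩ | ⟨h1, h2, h3⟩ | ⟨h1, h2, h3⟩ | ⟨h1, h2, h3⟩ <;>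
    rw [h3] <;> constructor <;> intro h <;>
    first
      | omega
      | exact absurd h.2 (by decide)
      | exact ⟨h.1, by decide⟩

theorem mem_w23 : f ∈ Wdg 2 3 v r ↔ (v.1 - r ≤ f.1 ∧ f.1 < v.1 + r ∧ v.2 - r ≤ f.2 ∧
    f.2 < v.2 + r) ∧ v.1 ≤ f.1 := by
  rw [mem_Wdg]
  rcases quad_cases v f with ⟨h1, h2, h3⟩ | ⟨h1, h2, h3⟩ | ⟨h1, h2, h3⟩ | ⟨h1, h2, h3⟩ <;>
    rw [h3] <;> constructor <;> intro h <;>
    first
      | omega
      | exact absurd h.2 (by decide)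
      | exact ⟨h.1, by decide⟩

theorem mem_w30 : f ∈ Wdg 3 0 v r ↔ (v.1 - r ≤ f.1 ∧ f.1 < v.1 + r ∧ v.2 - r ≤ f.2 ∧
    f.2 < v.2 + r) ∧ (f.1 < v.1 ∨ v.2 ≤ f.2) := by
  rw [mem_Wdg]
  rcases quad_cases v f with ⟨h1, h2, h3⟩ | ⟨h1, h2, h3⟩ | ⟨h1, h2, h3⟩ | ⟨h1, h2, h3⟩ <;>
    rw [h3] <;> constructor <;> intro h <;>
    first
      | omega
      | exact absurd h.2 (by decide)
      | exact ⟨h.1, by decide⟩

theorem mem_w31 : f ∈ Wdg 3 1 v r ↔ (v.1 - r ≤ f.1 ∧ f.1 < v.1 + r ∧ v.2 - r ≤ f.2 ∧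
    f.2 < v.2 + r) ∧ (f.1 < v.1 ∨ f.2 < v.2) := by
  rw [mem_Wdg]
  rcases quad_cases v f with ⟨h1, h2, h3⟩ | ⟨h1, h2, h3⟩ | ⟨h1, h2, h3⟩ | ⟨h1, h2, h3⟩ <;>
    rw [h3] <;> constructor <;> intro h <;>
    first
      | omega
      | exact absurd h.2 (by decide)
      | exact ⟨h.1, by decide⟩

theorem mem_w32 : f ∈ Wdg 3 2 v r ↔ (v.1 - r ≤ f.1 ∧ f.1 < v.1 + r ∧ v.2 - r ≤ f.2 ∧
    f.2 < v.2 + r) ∧ (v.1 ≤ f.1 ∨ f.2 < v.2) := by
  rw [mem_Wdg]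
  rcases quad_cases v f with ⟨h1, h2, h3⟩ | ⟨h1, h2, h3⟩ | ⟨h1, h2, h3⟩ | ⟨h1, h2, h3⟩ <;>
    rw [h3] <;> constructor <;> intro h <;>
    first
      | omega
      | exact absurd h.2 (by decide)
      | exact ⟨h.1, by decide⟩

theorem mem_w33 : f ∈ Wdg 3 3 v r ↔ (v.1 - r ≤ f.1 ∧ f.1 < v.1 + r ∧ v.2 - r ≤ f.2 ∧
    f.2 < v.2 + r) ∧ (v.1 ≤ f.1 ∨ v.2 ≤ f.2) := by
  rw [mem_Wdg]
  rcases quad_cases v f with ⟨h1, h2, h3⟩ | ⟨h1, h2, h3⟩ | ⟨h1, h2, h3⟩ | ⟨h1, h2, h3⟩ <;>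
    rw [h3] <;> constructor <;> intro h <;>
    first
      | omega
      | exact absurd h.2 (by decide)
      | exact ⟨h.1, by decide⟩

/-- boxes with distant centres are disjoint -/
theorem disj_Wdg {m' : ℕ} {o' : ZMod 4} {v' : ℤ × ℤ} {r' : ℕ}
    (h : (r : ℤ) + r' ≤ |v.1 - v'.1| ∨ (r : ℤ) + r' ≤ |v.2 - v'.2|) :
    Disjoint (Wdg m o v r) (Wdg m' o' v' r') := by
  rw [Finset.disjoint_left]
  intro f h1 h2
  rw [mem_Wdg] at h1 h2
  rcases h with h | h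
  · rcases abs_cases (v.1 - v'.1) with h3 | h3 <;> omega
  · rcases abs_cases (v.2 - v'.2) with h3 | h3 <;> omega

/-! ## Walls -/

theorem mem_wOut : a ∈ wOut o v r ↔ ∃ t : ℕ, t < r ∧
    a = (v + (t : ℤ) • dz o, v + ((t : ℤ) + 1) • dz o) := by
  unfold wOut
  rw [Finset.mem_image]
  constructor
  · rintro ⟨t, ht, rfl⟩
    exact ⟨t, Finset.mem_range.mp ht, rfl⟩
  · rintro ⟨t, ht, rfl⟩
    exact ⟨t, Finset.mem_range.mpr ht, rfl⟩

theorem mem_wIn : a ∈ wIn o v r ↔ ∃ t : ℕ, t < r ∧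
    a = (v + ((t : ℤ) + 1) • dz o, v + (t : ℤ) • dz o) := by
  unfold wIn
  rw [Finset.mem_image]
  constructor
  · rintro ⟨t, ht, rfl⟩
    exact ⟨t, Finset.mem_range.mp ht, rfl⟩
  · rintro ⟨t, ht, rfl⟩
    exact ⟨t, Finset.mem_range.mpr ht, rfl⟩

theorem wOut_mono {r' : ℕ} (h : r' ≤ r) : wOut o v r' ⊆ wOut o v r := by
  intro a ha
  rw [mem_wOut] at ha ⊢
  obtain ⟨t, ht, rfl⟩ := ha
  exact ⟨t, by omega, rfl⟩

theorem wIn_mono {r' : ℕ} (h : r' ≤ r) : wIn o v r' ⊆ wIn o v r := by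
  intro a ha
  rw [mem_wIn] at ha ⊢
  obtain ⟨t, ht, rfl⟩ := ha
  exact ⟨t, by omega, rfl⟩

/-- the sides of the wall `wOut` are sides of faces of the wedge -/
theorem wOut_face (hm : 1 ≤ m) (ha : a ∈ wOut o v r) : ∃ f ∈ Wdg m o v r, a = sd ZQ f o := by
  rw [mem_wOut] at ha
  obtain ⟨t, ht, rfl⟩ := ha
  refine ⟨lf4 o (v + (t : ℤ) • dz o), ?_, ?_⟩
  · obtain ⟨x, y⟩ := v
    rw [mem_Wdg]
    have h0 : quad (x, y) (lf4 o ((x, y) + (t : ℤ) • dz o)) = o := by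
      rcases zm4_cases o with rfl | rfl | rfl | rfl
      · rw [lf40, dz0]; unfold quad; simp
      · rw [lf41, dz1]; unfold quad; simp
      · rw [lf42, dz2]; unfold quad; simp
      · rw [lf43, dz3]; unfold quad; simp
    refine ⟨?_, ?_⟩
    · rcases zm4_cases o with rfl | rfl | rfl | rfl
      · rw [lf40, dz0]; simp; omega
      · rw [lf41, dz1]; simp; omega
      · rw [lf42, dz2]; simp; omega
      · rw [lf43, dz3]; simp; omega
    · rw [h0, sub_self, ZMod.val_zero]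
      omega
  · rw [sd_lf4]
    ext <;> simp [add_smul] <;> ring

/-- the sides of the wall `wIn` are sides of faces of the wedge -/
theorem wIn_face (hm : 1 ≤ m) (hm4 : m ≤ 4) (ha : a ∈ wIn (o + m) v r) :
    ∃ f ∈ Wdg m o v r, a = sd ZQ f (o + m + 2) := by
  rw [mem_wIn] at ha
  obtain ⟨t, ht, rfl⟩ := ha
  refine ⟨lf4 (o + m + 2) (v + ((t : ℤ) + 1) • dz (o + m)), ?_, ?_⟩
  · obtain ⟨x, y⟩ := v
    rw [mem_Wdg]
    set e := o + (m : ZMod 4) with he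
    have h0 : quad (x, y) (lf4 (e + 2) ((x, y) + ((t : ℤ) + 1) • dz e)) = e - 1 := by
      rcases zm4_cases e with h | h | h | h <;> rw [h]
      · rw [show (0 : ZMod 4) + 2 = 2 from rfl, lf42, dz0]; unfold quad; simp; rfl
      · rw [show (1 : ZMod 4) + 2 = 3 from rfl, lf43, dz1]; unfold quad; simp
      · rw [show (2 : ZMod 4) + 2 = 0 from rfl, lf40, dz2]; unfold quad; simp; rw [if_neg (by omega)]; rfl
      · rw [show (3 : ZMod 4) + 2 = 1 from rfl, lf41, dz3]; unfold quad; simp; rw [if_neg (by omega)]; rfl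
    refine ⟨?_, ?_⟩
    · rcases zm4_cases e with h | h | h | h <;> rw [h]
      · rw [show (0 : ZMod 4) + 2 = 2 from rfl, lf42, dz0]; simp; omega
      · rw [show (1 : ZMod 4) + 2 = 3 from rfl, lf43, dz1]; simp; omega
      · rw [show (2 : ZMod 4) + 2 = 0 from rfl, lf40, dz2]; simp; omega
      · rw [show (3 : ZMod 4) + 2 = 1 from rfl, lf41, dz3]; simp; omega
    · rw [h0, he, show o + (m : ZMod 4) - 1 - o = ((m - 1 : ℕ) : ZMod 4) by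
        rw [Nat.cast_sub hm]; push_cast; ring, ZMod.val_natCast]
      have := Nat.mod_le (m - 1) 4
      omega
  · rw [sd_lf4]
    have h2 : dz (o + m + 2) = -dz (o + m) := by
      rcases zm4_cases (o + m) with h | h | h | h <;> rw [h] <;> rfl
    rw [h2]
    ext <;> simp [add_smul] <;> ring

theorem mem_wOut0 : a ∈ wOut 0 v r ↔ ∃ x : ℤ, v.1 ≤ x ∧ x < v.1 + r ∧
    a = sd ZQ (x, v.2) 0 := by
  obtain ⟨x₀, y₀⟩ := v
  rw [mem_wOut]
  constructor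
  · rintro ⟨t, ht, rfl⟩
    refine ⟨x₀ + t, ?_, ?_, ?_⟩
    · simp only; omega
    · simp only; omega
    · rw [sdz0, dz0]
      simp only [Prod.smul_mk, Prod.mk_add_mk, Prod.mk.injEq, smul_eq_mul, mul_one, mul_zero,
        mul_neg, true_and, and_true]
      omega
  · rintro ⟨x, h1, h2, rfl⟩
    simp only at h1 h2
    refine ⟨(x - x₀).toNat, by omega, ?_⟩
    have ht : (((x - x₀).toNat : ℕ) : ℤ) = x - x₀ :=
      Int.toNat_of_nonneg (by omega)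
    rw [sdz0, dz0, ht]
    simp only [Prod.smul_mk, Prod.mk_add_mk, Prod.mk.injEq, smul_eq_mul, mul_one, mul_zero,
        mul_neg, true_and, and_true]
    omega

theorem mem_wOut1 : a ∈ wOut 1 v r ↔ ∃ y : ℤ, v.2 ≤ y ∧ y < v.2 + r ∧
    a = sd ZQ (v.1 - 1, y) 1 := by
  obtain ⟨x₀, y₀⟩ := v
  rw [mem_wOut]
  constructor
  · rintro ⟨t, ht, rfl⟩
    refine ⟨y₀ + t, ?_, ?_, ?_⟩
    · simp only; omega
    · simp only; omega
    · rw [sdz1, dz1]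
      simp only [Prod.smul_mk, Prod.mk_add_mk, Prod.mk.injEq, smul_eq_mul, mul_one, mul_zero,
        mul_neg, true_and, and_true]
      omega
  · rintro ⟨y, h1, h2, rfl⟩
    simp only at h1 h2
    refine ⟨(y - y₀).toNat, by omega, ?_⟩
    have ht : (((y - y₀).toNat : ℕ) : ℤ) = y - y₀ :=
      Int.toNat_of_nonneg (by omega)
    rw [sdz1, dz1, ht]
    simp only [Prod.smul_mk, Prod.mk_add_mk, Prod.mk.injEq, smul_eq_mul, mul_one, mul_zero,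
        mul_neg, true_and, and_true]
    omega

theorem mem_wOut2 : a ∈ wOut 2 v r ↔ ∃ x : ℤ, v.1 - r ≤ x ∧ x < v.1 ∧
    a = sd ZQ (x, v.2 - 1) 2 := by
  obtain ⟨x₀, y₀⟩ := v
  rw [mem_wOut]
  constructor
  · rintro ⟨t, ht, rfl⟩
    refine ⟨x₀ - 1 - t, ?_, ?_, ?_⟩
    · simp only; omega
    · simp only; omega
    · rw [sdz2, dz2]
      simp only [Prod.smul_mk, Prod.mk_add_mk, Prod.mk.injEq, smul_eq_mul, mul_one, mul_zero,
        mul_neg, true_and, and_true]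
      omega
  · rintro ⟨x, h1, h2, rfl⟩
    simp only at h1 h2
    refine ⟨(x₀ - 1 - x).toNat, by omega, ?_⟩
    have ht : (((x₀ - 1 - x).toNat : ℕ) : ℤ) = x₀ - 1 - x :=
      Int.toNat_of_nonneg (by omega)
    rw [sdz2, dz2, ht]
    simp only [Prod.smul_mk, Prod.mk_add_mk, Prod.mk.injEq, smul_eq_mul, mul_one, mul_zero,
        mul_neg, true_and, and_true]
    omega

theorem mem_wOut3 : a ∈ wOut 3 v r ↔ ∃ y : ℤ, v.2 - r ≤ y ∧ y < v.2 ∧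
    a = sd ZQ (v.1, y) 3 := by
  obtain ⟨x₀, y₀⟩ := v
  rw [mem_wOut]
  constructor
  · rintro ⟨t, ht, rfl⟩
    refine ⟨y₀ - 1 - t, ?_, ?_, ?_⟩
    · simp only; omega
    · simp only; omega
    · rw [sdz3, dz3]
      simp only [Prod.smul_mk, Prod.mk_add_mk, Prod.mk.injEq, smul_eq_mul, mul_one, mul_zero,
        mul_neg, true_and, and_true]
      omega
  · rintro ⟨y, h1, h2, rfl⟩
    simp only at h1 h2
    refine ⟨(y₀ - 1 - y).toNat, by omega, ?_⟩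
    have ht : (((y₀ - 1 - y).toNat : ℕ) : ℤ) = y₀ - 1 - y :=
      Int.toNat_of_nonneg (by omega)
    rw [sdz3, dz3, ht]
    simp only [Prod.smul_mk, Prod.mk_add_mk, Prod.mk.injEq, smul_eq_mul, mul_one, mul_zero,
        mul_neg, true_and, and_true]
    omega

theorem mem_wIn0 : a ∈ wIn 0 v r ↔ ∃ x : ℤ, v.1 ≤ x ∧ x < v.1 + r ∧
    a = sd ZQ (x, v.2 - 1) 2 := by
  obtain ⟨x₀, y₀⟩ := v
  rw [mem_wIn]
  constructor
  · rintro ⟨t, ht, rfl⟩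
    refine ⟨x₀ + t, ?_, ?_, ?_⟩
    · simp only; omega
    · simp only; omega
    · rw [sdz2, dz0]
      simp only [Prod.smul_mk, Prod.mk_add_mk, Prod.mk.injEq, smul_eq_mul, mul_one, mul_zero,
        mul_neg, true_and, and_true]
      omega
  · rintro ⟨x, h1, h2, rfl⟩
    simp only at h1 h2
    refine ⟨(x - x₀).toNat, by omega, ?_⟩
    have ht : (((x - x₀).toNat : ℕ) : ℤ) = x - x₀ :=
      Int.toNat_of_nonneg (by omega)
    rw [sdz2, dz0, ht]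
    simp only [Prod.smul_mk, Prod.mk_add_mk, Prod.mk.injEq, smul_eq_mul, mul_one, mul_zero,
        mul_neg, true_and, and_true]
    omega

theorem mem_wIn1 : a ∈ wIn 1 v r ↔ ∃ y : ℤ, v.2 ≤ y ∧ y < v.2 + r ∧
    a = sd ZQ (v.1, y) 3 := by
  obtain ⟨x₀, y₀⟩ := v
  rw [mem_wIn]
  constructor
  · rintro ⟨t, ht, rfl⟩
    refine ⟨y₀ + t, ?_, ?_, ?_⟩
    · simp only; omega
    · simp only; omega
    · rw [sdz3, dz1]
      simp only [Prod.smul_mk, Prod.mk_add_mk, Prod.mk.injEq, smul_eq_mul, mul_one, mul_zero,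
        mul_neg, true_and, and_true]
      omega
  · rintro ⟨y, h1, h2, rfl⟩
    simp only at h1 h2
    refine ⟨(y - y₀).toNat, by omega, ?_⟩
    have ht : (((y - y₀).toNat : ℕ) : ℤ) = y - y₀ :=
      Int.toNat_of_nonneg (by omega)
    rw [sdz3, dz1, ht]
    simp only [Prod.smul_mk, Prod.mk_add_mk, Prod.mk.injEq, smul_eq_mul, mul_one, mul_zero,
        mul_neg, true_and, and_true]
    omega

theorem mem_wIn2 : a ∈ wIn 2 v r ↔ ∃ x : ℤ, v.1 - r ≤ x ∧ x < v.1 ∧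
    a = sd ZQ (x, v.2) 0 := by
  obtain ⟨x₀, y₀⟩ := v
  rw [mem_wIn]
  constructor
  · rintro ⟨t, ht, rfl⟩
    refine ⟨x₀ - 1 - t, ?_, ?_, ?_⟩
    · simp only; omega
    · simp only; omega
    · rw [sdz0, dz2]
      simp only [Prod.smul_mk, Prod.mk_add_mk, Prod.mk.injEq, smul_eq_mul, mul_one, mul_zero,
        mul_neg, true_and, and_true]
      omega
  · rintro ⟨x, h1, h2, rfl⟩
    simp only at h1 h2
    refine ⟨(x₀ - 1 - x).toNat, by omega, ?_⟩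
    have ht : (((x₀ - 1 - x).toNat : ℕ) : ℤ) = x₀ - 1 - x :=
      Int.toNat_of_nonneg (by omega)
    rw [sdz0, dz2, ht]
    simp only [Prod.smul_mk, Prod.mk_add_mk, Prod.mk.injEq, smul_eq_mul, mul_one, mul_zero,
        mul_neg, true_and, and_true]
    omega

theorem mem_wIn3 : a ∈ wIn 3 v r ↔ ∃ y : ℤ, v.2 - r ≤ y ∧ y < v.2 ∧
    a = sd ZQ (v.1 - 1, y) 1 := by
  obtain ⟨x₀, y₀⟩ := v
  rw [mem_wIn]
  constructor
  · rintro ⟨t, ht, rfl⟩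
    refine ⟨y₀ - 1 - t, ?_, ?_, ?_⟩
    · simp only; omega
    · simp only; omega
    · rw [sdz1, dz3]
      simp only [Prod.smul_mk, Prod.mk_add_mk, Prod.mk.injEq, smul_eq_mul, mul_one, mul_zero,
        mul_neg, true_and, and_true]
      omega
  · rintro ⟨y, h1, h2, rfl⟩
    simp only at h1 h2
    refine ⟨(y₀ - 1 - y).toNat, by omega, ?_⟩
    have ht : (((y₀ - 1 - y).toNat : ℕ) : ℤ) = y₀ - 1 - y :=
      Int.toNat_of_nonneg (by omega)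
    rw [sdz1, dz3, ht]
    simp only [Prod.smul_mk, Prod.mk_add_mk, Prod.mk.injEq, smul_eq_mul, mul_one, mul_zero,
        mul_neg, true_and, and_true]
    omega

end wdg

/-! ## Charts -/

section chart

variable {V Φ : Type} [DecidableEq V] [DecidableEq Φ] {Q : QC V Φ} {F F' : Finset Φ}
  {R R' : Finset (ℤ × ℤ)} {m : ℕ} {o : ZMod 4} {v f : ℤ × ℤ} {r r' : ℕ} {ψ : V × V → ℝ}

theorem mem_dE' {a : V × V} : a ∈ dE Q F ↔ ∃ f ∈ F, ∃ k, a = sd Q f k ∨ a = (sd Q f k).swap := by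
  unfold dE
  simp only [Finset.mem_biUnion, Finset.mem_univ, true_and, Finset.mem_insert,
    Finset.mem_singleton]

/-- a side of a face is a boundary side iff no face of the surface lies behind it -/
theorem sd_mem_bS {f : Φ} {k : ZMod 4} (hf : f ∈ F) :
    sd Q f k ∈ bS Q F ↔ ∀ g ∈ F, ∀ l, sd Q f k ≠ (sd Q g l).swap := by
  rw [mem_bS]
  constructor
  · rintro ⟨-, h⟩ g hg l
    exact h g (by exact_mod_cast hg) l
  · intro h
    exact ⟨mem_dE'.mpr ⟨f, hf, k, Or.inl rfl⟩, fun g hg l => h g (by exact_mod_cast hg) l⟩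

/-- smaller surface -/
theorem bS_restr {f : Φ} {k : ZMod 4} (hF : F' ⊆ F) (hf : f ∈ F') (h : sd Q f k ∈ bS Q F) :
    sd Q f k ∈ bS Q F' := by
  rw [sd_mem_bS (hF hf)] at h
  rw [sd_mem_bS hf]
  exact fun g hg l => h g (hF hg) l

theorem PChart.side_sdR (c : PChart Q F R) (hf : f ∈ R) (k : ZMod 4) :
    c.side (sd ZQ f k) = sd Q (c.φF f) k := by
  unfold PChart.side sd
  rw [c.cor f hf, c.cor f hf]

/-- smaller planar set -/
def PChart.monoR (c : PChart Q F R) (h : R' ⊆ R) : PChart Q F R' where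
  φV := c.φV
  φF := c.φF
  cor f hf := c.cor f (h hf)
  inj f hf g hg := c.inj f (h hf) g (h hg)
  sub f hf := c.sub f (h hf)

/-- smaller surface -/
def PChart.restr (c : PChart Q F R) (h : ∀ f ∈ R, c.φF f ∈ F') : PChart Q F' R where
  φV := c.φV
  φF := c.φF
  cor := c.cor
  inj := c.inj
  sub := h

/-- smaller radius -/
def WChart.mono (c : WChart Q F m o v r) (h : r' ≤ r) : WChart Q F m o v r' where
  toPChart := c.toPChart.monoR (Wdg_mono h)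
  bIn a ha := c.bIn a (wIn_mono h ha)
  bOut a ha := c.bOut a (wOut_mono h ha)

/-- smaller surface which contains the wedge -/
def WChart.restr (c : WChart Q F m o v r) (hm : 1 ≤ m ∧ m ≤ 3) (hF : F' ⊆ F)
    (h : ∀ f ∈ Wdg m o v r, c.φF f ∈ F') : WChart Q F' m o v r where
  toPChart := c.toPChart.restr h
  bIn a ha := by
    obtain ⟨f, hf, rfl⟩ := wIn_face hm.1 (by omega) ha
    have h1 := c.bIn _ ha
    rw [c.toPChart.side_sdR hf] at h1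
    rw [(c.toPChart.restr h).side_sdR hf]
    exact bS_restr hF (h f hf) h1
  bOut a ha := by
    obtain ⟨f, hf, rfl⟩ := wOut_face hm.1 ha
    have h1 := c.bOut _ ha
    rw [c.toPChart.side_sdR hf] at h1
    rw [(c.toPChart.restr h).side_sdR hf]
    exact bS_restr hF (h f hf) h1

theorem WChart.mono_side (c : WChart Q F m o v r) (h : r' ≤ r) : (c.mono h).side = c.side := rfl

theorem WChart.restr_side (c : WChart Q F m o v r) (hm : 1 ≤ m ∧ m ≤ 3) (hF : F' ⊆ F)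
    (h : ∀ f ∈ Wdg m o v r, c.φF f ∈ F') : (c.restr hm hF h).side = c.side := rfl

theorem WChart.mono_box (c : WChart Q F m o v r) (h : r' ≤ r) (ρ : ℕ) :
    (c.mono h).box ρ = c.box ρ := rfl

theorem WChart.restr_box (c : WChart Q F m o v r) (hm : 1 ≤ m ∧ m ≤ 3) (hF : F' ⊆ F)
    (h : ∀ f ∈ Wdg m o v r, c.φF f ∈ F') (ρ : ℕ) : (c.restr hm hF h).box ρ = c.box ρ := rfl

theorem WChart.mono_walls (c : WChart Q F m o v r) (h : r' ≤ r) (ρ : ℕ) :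
    (c.mono h).walls ρ = c.walls ρ := rfl

theorem WChart.restr_walls (c : WChart Q F m o v r) (hm : 1 ≤ m ∧ m ≤ 3) (hF : F' ⊆ F)
    (h : ∀ f ∈ Wdg m o v r, c.φF f ∈ F') (ρ : ℕ) : (c.restr hm hF h).walls ρ = c.walls ρ := rfl

theorem WChart.Jump.mono {c : WChart Q F m o v r} {J : ℝ} (hJ : c.Jump ψ J) (h : r' ≤ r) :
    (c.mono h).Jump ψ J := by
  obtain ⟨p, q, h1, h2, h3⟩ := hJ
  exact ⟨p, q, fun a ha => h1 a (wIn_mono h ha), fun a ha => h2 a (wOut_mono h ha), h3⟩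

theorem WChart.Jump.restr {c : WChart Q F m o v r} {J : ℝ} (hJ : c.Jump ψ J)
    (hm : 1 ≤ m ∧ m ≤ 3) (hF : F' ⊆ F) (h : ∀ f ∈ Wdg m o v r, c.φF f ∈ F') :
    (c.restr hm hF h).Jump ψ J := hJ

theorem SJump.mono {c : WChart Q F m o v r} {K : SK} (hJ : SJump c K ψ) (h : r' ≤ r) :
    SJump (c.mono h) K ψ := by
  cases K with
  | ver J => exact WChart.Jump.mono (J := J) hJ h
  | e =>
    obtain ⟨h1, p, h2, h3, h4⟩ := hJ
    exact ⟨h1, p, fun a ha => h2 a (wIn_mono h ha), h3, fun a ha => h4 a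
      (Finset.erase_subset_erase _ (wOut_mono h) ha)⟩
  | em =>
    obtain ⟨h1, p, h2, h3, h4⟩ := hJ
    exact ⟨h1, p, fun a ha => h2 a (wIn_mono h ha), h3, fun a ha => h4 a
      (Finset.erase_subset_erase _ (wOut_mono h) ha)⟩

theorem SJump.restr {c : WChart Q F m o v r} {K : SK} (hJ : SJump c K ψ)
    (hm : 1 ≤ m ∧ m ≤ 3) (hF : F' ⊆ F) (h : ∀ f ∈ Wdg m o v r, c.φF f ∈ F') :
    SJump (c.restr hm hF h) K ψ := by
  cases K <;> exact hJ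

/-- walls of a chart of smaller core -/
theorem WChart.walls_mono (c : WChart Q F m o v r) {ρ ρ' : ℕ} (h : ρ ≤ ρ') :
    c.walls ρ ⊆ c.walls ρ' :=
  Finset.image_subset_image (Finset.union_subset_union (wIn_mono h) (wOut_mono h))

theorem WChart.box_mono (c : WChart Q F m o v r) {ρ ρ' : ℕ} (h : ρ ≤ ρ') : c.box ρ ⊆ c.box ρ' :=
  Finset.image_subset_image (Wdg_mono h)

/-- the walls of a chart are boundary sides -/
theorem WChart.walls_bS (c : WChart Q F m o v r) {ρ : ℕ} (h : ρ ≤ r) : c.walls ρ ⊆ bS Q F := by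
  intro a ha
  unfold WChart.walls at ha
  rw [Finset.mem_image] at ha
  obtain ⟨s, hs, rfl⟩ := ha
  rcases Finset.mem_union.mp hs with hs | hs
  · exact c.bIn s (wIn_mono h hs)
  · exact c.bOut s (wOut_mono h hs)

/-! ## Mouth charts -/

theorem mem_Mth_left {v : ℤ × ℤ} {r h l : ℕ} : f ∈ Mth true v r h l ↔
    ((v.1 - r ≤ f.1 ∧ f.1 < v.1 + r ∧ v.2 - r ≤ f.2 ∧ f.2 < v.2 + r) ∧ f.1 < v.1) ∨
      (v.1 ≤ f.1 ∧ f.1 < v.1 + l ∧ v.2 - h ≤ f.2 ∧ f.2 < v.2 + h) := by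
  unfold Mth
  rw [if_pos rfl, Finset.mem_union, mem_w21, Finset.mem_product, Finset.mem_Ico, Finset.mem_Ico]
  tauto

theorem mem_Mth_right {v : ℤ × ℤ} {r h l : ℕ} : f ∈ Mth false v r h l ↔
    ((v.1 - r ≤ f.1 ∧ f.1 < v.1 + r ∧ v.2 - r ≤ f.2 ∧ f.2 < v.2 + r) ∧ v.1 ≤ f.1) ∨
      (v.1 - l ≤ f.1 ∧ f.1 < v.1 ∧ v.2 - h ≤ f.2 ∧ f.2 < v.2 + h) := by
  unfold Mth
  rw [if_neg (by decide), Finset.mem_union, mem_w23, Finset.mem_product, Finset.mem_Ico,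
    Finset.mem_Ico]
  tauto

/-- the sides of the walls of a mouth are sides of faces of the mouth -/
theorem mthWall_face {left : Bool} {v : ℤ × ℤ} {r h l : ℕ} {i : Fin 4} {a : (ℤ × ℤ) × (ℤ × ℤ)}
    (hh : h ≤ r) (h0 : 0 < h) (ha : a ∈ mthWall left v r h l i) :
    ∃ f ∈ Mth left v r h l, ∃ k, a = sd ZQ f k := by
  cases left with
  | true =>
    unfold mthWall at ha
    rw [if_pos rfl] at ha
    fin_cases i
    · obtain ⟨y, h1, h2, rfl⟩ := mem_wOut1.mp ha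
      exact ⟨_, mem_Mth_left.mpr (by simp only at h1 h2 ⊢; omega), 1, rfl⟩
    · obtain ⟨y, h1, h2, rfl⟩ := mem_wOut0.mp ha
      exact ⟨_, mem_Mth_left.mpr (by simp only at h1 h2 ⊢; omega), 0, rfl⟩
    · obtain ⟨y, h1, h2, rfl⟩ := mem_wOut2.mp ha
      exact ⟨_, mem_Mth_left.mpr (by simp only at h1 h2 ⊢; omega), 2, rfl⟩
    · obtain ⟨y, h1, h2, rfl⟩ := mem_wOut1.mp ha
      exact ⟨_, mem_Mth_left.mpr (by simp only at h1 h2 ⊢; omega), 1, rfl⟩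
  | false =>
    unfold mthWall at ha
    rw [if_neg (by decide)] at ha
    fin_cases i
    · obtain ⟨y, h1, h2, rfl⟩ := mem_wOut3.mp ha
      exact ⟨_, mem_Mth_right.mpr (by simp only at h1 h2 ⊢; omega), 3, rfl⟩
    · obtain ⟨y, h1, h2, rfl⟩ := mem_wOut2.mp ha
      exact ⟨_, mem_Mth_right.mpr (by simp only at h1 h2 ⊢; omega), 2, rfl⟩
    · obtain ⟨y, h1, h2, rfl⟩ := mem_wOut0.mp ha
      exact ⟨_, mem_Mth_right.mpr (by simp only at h1 h2 ⊢; omega), 0, rfl⟩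
    · obtain ⟨y, h1, h2, rfl⟩ := mem_wOut3.mp ha
      exact ⟨_, mem_Mth_right.mpr (by simp only at h1 h2 ⊢; omega), 3, rfl⟩

/-- smaller surface -/
def MChart.restr {left : Bool} {h l : ℕ} (c : MChart Q F left v r h l) (hh : h ≤ r) (h0 : 0 < h)
    (hF : F' ⊆ F) (hs : ∀ f ∈ Mth left v r h l, c.φF f ∈ F') : MChart Q F' left v r h l where
  toPChart := c.toPChart.restr hs
  bd i a ha := by
    obtain ⟨f, hf, k, rfl⟩ := mthWall_face hh h0 ha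
    have h1 := c.bd i _ ha
    rw [c.toPChart.side_sdR hf] at h1
    rw [(c.toPChart.restr hs).side_sdR hf]
    exact bS_restr hF (hs f hf) h1

end chart

end

end Pool.Agent.SixB
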