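import Pool.Agent.Lib.SixB.S3Emb
import Pool.Agent.Lib.SixB.S3Wdg

/-!
# 6BD step 3: partial atlases

`PAtlas Q F ψ Z C r nS nN t₀`: an `Atlas` whose charts cover only the sides of `C` (the walls of the charts are in
the island sides `Z`).
* `Atlas.toP`, `PAtlas.toAtlas` (if `Z ⊆ C`), `PAtlas.mono`, `PAtlas.union`, `PAtlas.empty`.
* `PAtlas.push`: transport along a chart `c` of the polygon `D` in the surface `F` (`Keeps`), with any choice of
  the charts whose walls have the property `P`.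
-/

set_option autoImplicit false
set_option linter.unusedSectionVars false

namespace Pool.Agent.SixB

open Pool.Agent.Perc.Q Pool.Agent.Perc

noncomputable section

variable {V Φ : Type} [DecidableEq V] [DecidableEq Φ]

/-- partial atlas -/
structure PAtlas (Q : QC V Φ) (F : Finset Φ) (ψ : V × V → ℝ) (Z C : Finset (V × V)) (r nS nN : ℕ)
    (t₀ : ℝ) where
  κ : Type
  [fκ : Fintype κ]
  [dκ : DecidableEq κ]
  K : κ → SK
  m : κ → ℕ
  o : κ → ZMod 4
  v : κ → ℤ × ℤ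
  ch : ∀ i, WChart Q F (m i) (o i) (v i) (4 * r + 1)
  m_rng : ∀ i, 1 ≤ m i ∧ m i ≤ 3
  jmp : ∀ i, SJump (ch i) (K i) ψ
  tpos : ∀ i J, K i = .ver J → t₀ ≤ tJ J ∨ (J = -(Real.pi / 3) ∧ m i = 2)
  disj : ∀ i j, i ≠ j → Disjoint ((ch i).box (4 * r)) ((ch j).box (4 * r))
  cardS : Fintype.card κ ≤ nS
  chZ : ∀ i, (ch i).walls (4 * r) ⊆ Z
  ι : Type
  [fι : Fintype ι]
  m' : ι → ℕ
  o' : ι → ZMod 4
  v' : ι → ℤ × ℤ
  nch : ∀ i, WChart Q F (m' i) (o' i) (v' i) (2 * r + 1)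
  m'_rng : ∀ i, 1 ≤ m' i ∧ m' i ≤ 3
  njmp : ∀ i, (nch i).Jump ψ 0 ∨ (nch i).Jump ψ (Real.pi / 3)
  nZ : ∀ i, (nch i).walls (2 * r) ⊆ Z
  ndisj : ∀ i j, Disjoint ((nch i).box (2 * r)) ((ch j).box r)
  cardN : Fintype.card ι ≤ nN
  μ : Type
  [fμ : Fintype μ]
  lf : μ → Bool
  w : μ → ℤ × ℤ
  h : μ → ℕ
  l : μ → ℕ
  mch : ∀ i, MChart Q F (lf i) (w i) (2 * r + 1) (h i) (l i + 1)
  h_lt : ∀ i, 0 < h i ∧ 2 * (h i + 1) ≤ r ∧ 8 * h i ≤ l i
  mnat : ∀ i, (mch i).Nat ψ 0 ∨ (mch i).Nat ψ (Real.pi / 3)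
  mZ : ∀ i j, (mthWall (lf i) (w i) (2 * r) (h i) (l i) j).image (mch i).side ⊆ Z
  mdisj : ∀ i j, Disjoint ((Mth (lf i) (w i) (2 * r) (h i) (l i)).image (mch i).φF) ((ch j).box r)
  cardM : Fintype.card μ ≤ nN
  cover : ∀ a ∈ C, (∃ i, a ∈ (ch i).walls (2 * r)) ∨ (∃ i, a ∈ (nch i).walls r) ∨
    ∃ i, ∃ j, ∃ s ∈ mthWall (lf i) (w i) (r + h i + 1) (h i) (l i / 2 + 1) j, a = (mch i).side s

attribute [instance] PAtlas.fκ PAtlas.dκ PAtlas.fι PAtlas.fμ

variable {Q : QC V Φ} {F : Finset Φ} {ψ : V × V → ℝ} {Z Z' C C' C₁ C₂ : Finset (V × V)}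
  {r nS nN nS' nN' : ℕ} {t₀ : ℝ}

/-- an atlas is a partial atlas -/
def Atlas.toP (A : Atlas Q F ψ Z r nS nN t₀) : PAtlas Q F ψ Z Z r nS nN t₀ where
  κ := A.κ
  fκ := A.fκ
  dκ := A.dκ
  K := A.K
  m := A.m
  o := A.o
  v := A.v
  ch := A.ch
  m_rng := A.m_rng
  jmp := A.jmp
  tpos := A.tpos
  disj := A.disj
  cardS := A.cardS
  chZ := A.chZ
  ι := A.ι
  fι := A.fι
  m' := A.m'
  o' := A.o'
  v' := A.v'
  nch := A.nch
  m'_rng := A.m'_rng
  njmp := A.njmp
  nZ := A.nZ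
  ndisj := A.ndisj
  cardN := A.cardN
  μ := A.μ
  fμ := A.fμ
  lf := A.lf
  w := A.w
  h := A.h
  l := A.l
  mch := A.mch
  h_lt := A.h_lt
  mnat := A.mnat
  mZ := A.mZ
  mdisj := A.mdisj
  cardM := A.cardM
  cover := A.cover

/-- a partial atlas which covers all island sides is an atlas -/
def PAtlas.toAtlas (A : PAtlas Q F ψ Z C r nS nN t₀) (hZ : Z ⊆ bS Q F) (hC : Z ⊆ C) :
    Atlas Q F ψ Z r nS nN t₀ where
  Z_sub := hZ
  κ := A.κ
  fκ := A.fκ
  dκ := A.dκ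
  K := A.K
  m := A.m
  o := A.o
  v := A.v
  ch := A.ch
  m_rng := A.m_rng
  jmp := A.jmp
  tpos := A.tpos
  disj := A.disj
  cardS := A.cardS
  chZ := A.chZ
  ι := A.ι
  fι := A.fι
  m' := A.m'
  o' := A.o'
  v' := A.v'
  nch := A.nch
  m'_rng := A.m'_rng
  njmp := A.njmp
  nZ := A.nZ
  ndisj := A.ndisj
  cardN := A.cardN
  μ := A.μ
  fμ := A.fμ
  lf := A.lf
  w := A.w
  h := A.h
  l := A.l
  mch := A.mch
  h_lt := A.h_lt
  mnat := A.mnat
  mZ := A.mZ
  mdisj := A.mdisj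
  cardM := A.cardM
  cover := fun a ha => A.cover a (hC ha)

/-- larger island sides, fewer covered sides, larger bounds -/
def PAtlas.mono (A : PAtlas Q F ψ Z C r nS nN t₀) (hZ : Z ⊆ Z') (hC : C' ⊆ C) (hS : nS ≤ nS')
    (hN : nN ≤ nN') : PAtlas Q F ψ Z' C' r nS' nN' t₀ where
  κ := A.κ
  fκ := A.fκ
  dκ := A.dκ
  K := A.K
  m := A.m
  o := A.o
  v := A.v
  ch := A.ch
  m_rng := A.m_rng
  jmp := A.jmp
  tpos := A.tpos
  disj := A.disj
  cardS := A.cardS.trans hS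
  chZ := fun i => (A.chZ i).trans hZ
  ι := A.ι
  fι := A.fι
  m' := A.m'
  o' := A.o'
  v' := A.v'
  nch := A.nch
  m'_rng := A.m'_rng
  njmp := A.njmp
  nZ := fun i => (A.nZ i).trans hZ
  ndisj := A.ndisj
  cardN := A.cardN.trans hN
  μ := A.μ
  fμ := A.fμ
  lf := A.lf
  w := A.w
  h := A.h
  l := A.l
  mch := A.mch
  h_lt := A.h_lt
  mnat := A.mnat
  mZ := fun i j => (A.mZ i j).trans hZ
  mdisj := A.mdisj
  cardM := A.cardM.trans hN
  cover := fun a ha => A.cover a (hC ha)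

/-- the empty partial atlas -/
def PAtlas.empty (Q : QC V Φ) (F : Finset Φ) (ψ : V × V → ℝ) (Z : Finset (V × V)) (r : ℕ) (t₀ : ℝ) :
    PAtlas Q F ψ Z ∅ r 0 0 t₀ where
  κ := Empty
  K := fun i => i.elim
  m := fun i => i.elim
  o := fun i => i.elim
  v := fun i => i.elim
  ch := fun i => i.elim
  m_rng := fun i => i.elim
  jmp := fun i => i.elim
  tpos := fun i => i.elim
  disj := fun i => i.elim
  cardS := by simp
  chZ := fun i => i.elim
  ι := Empty
  m' := fun i => i.elim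
  o' := fun i => i.elim
  v' := fun i => i.elim
  nch := fun i => i.elim
  m'_rng := fun i => i.elim
  njmp := fun i => i.elim
  nZ := fun i => i.elim
  ndisj := fun i => i.elim
  cardN := by simp
  μ := Empty
  lf := fun i => i.elim
  w := fun i => i.elim
  h := fun i => i.elim
  l := fun i => i.elim
  mch := fun i => i.elim
  h_lt := fun i => i.elim
  mnat := fun i => i.elim
  mZ := fun i => i.elim
  mdisj := fun i => i.elim
  cardM := by simp
  cover := by simp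

/-- union of two partial atlases -/
def PAtlas.union (A : PAtlas Q F ψ Z C₁ r nS nN t₀) (B : PAtlas Q F ψ Z C₂ r nS' nN' t₀)
    (h1 : ∀ i j, Disjoint ((A.ch i).box (4 * r)) ((B.ch j).box (4 * r)))
    (h2 : ∀ i j, Disjoint ((A.nch i).box (2 * r)) ((B.ch j).box r))
    (h3 : ∀ i j, Disjoint ((B.nch i).box (2 * r)) ((A.ch j).box r))
    (h4 : ∀ i j, Disjoint ((Mth (A.lf i) (A.w i) (2 * r) (A.h i) (A.l i)).image (A.mch i).φF)
      ((B.ch j).box r))
    (h5 : ∀ i j, Disjoint ((Mth (B.lf i) (B.w i) (2 * r) (B.h i) (B.l i)).image (B.mch i).φF)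
      ((A.ch j).box r)) : PAtlas Q F ψ Z (C₁ ∪ C₂) r (nS + nS') (nN + nN') t₀ where
  κ := A.κ ⊕ B.κ
  K := Sum.elim A.K B.K
  m := Sum.elim A.m B.m
  o := Sum.elim A.o B.o
  v := Sum.elim A.v B.v
  ch := fun | .inl i => A.ch i | .inr i => B.ch i
  m_rng := fun | .inl i => A.m_rng i | .inr i => B.m_rng i
  jmp := fun | .inl i => A.jmp i | .inr i => B.jmp i
  tpos := fun | .inl i => A.tpos i | .inr i => B.tpos i
  disj := by
    rintro (i | i) (j | j) hij
    · exact A.disj i j (fun h => hij (by rw [h]))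
    · exact h1 i j
    · exact (h1 j i).symm
    · exact B.disj i j (fun h => hij (by rw [h]))
  cardS := by
    rw [Fintype.card_sum]
    exact Nat.add_le_add A.cardS B.cardS
  chZ := fun | .inl i => A.chZ i | .inr i => B.chZ i
  ι := A.ι ⊕ B.ι
  m' := Sum.elim A.m' B.m'
  o' := Sum.elim A.o' B.o'
  v' := Sum.elim A.v' B.v'
  nch := fun | .inl i => A.nch i | .inr i => B.nch i
  m'_rng := fun | .inl i => A.m'_rng i | .inr i => B.m'_rng i
  njmp := fun | .inl i => A.njmp i | .inr i => B.njmp i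
  nZ := fun | .inl i => A.nZ i | .inr i => B.nZ i
  ndisj := by
    rintro (i | i) (j | j)
    · exact A.ndisj i j
    · exact h2 i j
    · exact h3 i j
    · exact B.ndisj i j
  cardN := by
    rw [Fintype.card_sum]
    exact Nat.add_le_add A.cardN B.cardN
  μ := A.μ ⊕ B.μ
  lf := Sum.elim A.lf B.lf
  w := Sum.elim A.w B.w
  h := Sum.elim A.h B.h
  l := Sum.elim A.l B.l
  mch := fun | .inl i => A.mch i | .inr i => B.mch i
  h_lt := fun | .inl i => A.h_lt i | .inr i => B.h_lt i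
  mnat := fun | .inl i => A.mnat i | .inr i => B.mnat i
  mZ := fun | .inl i => A.mZ i | .inr i => B.mZ i
  mdisj := by
    rintro (i | i) (j | j)
    · exact A.mdisj i j
    · exact h4 i j
    · exact h5 i j
    · exact B.mdisj i j
  cardM := by
    rw [Fintype.card_sum]
    exact Nat.add_le_add A.cardM B.cardM
  cover := by
    intro a ha
    rw [Finset.mem_union] at ha
    rcases ha with ha | ha
    · rcases A.cover a ha with ⟨i, h⟩ | ⟨i, h⟩ | ⟨i, h⟩
      · exact Or.inl ⟨.inl i, h⟩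
      · exact Or.inr (Or.inl ⟨.inl i, h⟩)
      · exact Or.inr (Or.inr ⟨.inl i, h⟩)
    · rcases B.cover a ha with ⟨i, h⟩ | ⟨i, h⟩ | ⟨i, h⟩
      · exact Or.inl ⟨.inr i, h⟩
      · exact Or.inr (Or.inl ⟨.inr i, h⟩)
      · exact Or.inr (Or.inr ⟨.inr i, h⟩)

/-! ## Restriction to a smaller surface -/

theorem mthWall_mono {left : Bool} {w : ℤ × ℤ} {r r' h l l' : ℕ} (hh : h ≤ r) (hr : r ≤ r')
    (hl : l ≤ l') (j : Fin 4) : mthWall left w r h l j ⊆ mthWall left w r' h l' j := by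
  obtain ⟨x, y⟩ := w
  have e : ∀ (o : ZMod 4) (v v' : ℤ × ℤ) (n n' s : ℕ), v = v' + (s : ℤ) • dz o → s + n ≤ n' →
      wOut o v n ⊆ wOut o v' n' := by
    intro o v v' n n' s hv hn a ha
    rw [mem_wOut] at ha ⊢
    obtain ⟨t, ht, rfl⟩ := ha
    refine ⟨s + t, by omega, ?_⟩
    rw [hv]
    push_cast
    rw [add_smul, add_smul, add_smul, add_assoc, add_assoc, add_smul, add_assoc]
  unfold mthWall
  cases left
  · fin_cases j
    · refine e 3 _ _ _ _ (r' - r) ?_ (by omega)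
      rw [dz3]
      ext <;> (simp; try omega)
    · refine e 2 _ _ _ _ 0 ?_ (by omega)
      ext <;> simp
    · refine e 0 _ _ _ _ (l' - l) ?_ (by omega)
      rw [dz0]
      ext <;> (simp; try omega)
    · refine e 3 _ _ _ _ 0 ?_ (by omega)
      ext <;> simp
  · fin_cases j
    · refine e 1 _ _ _ _ (r' - r) ?_ (by omega)
      rw [dz1]
      ext <;> (simp; try omega)
    · refine e 0 _ _ _ _ 0 ?_ (by omega)
      ext <;> simp
    · refine e 2 _ _ _ _ (l' - l) ?_ (by omega)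
      rw [dz2]
      ext <;> (simp; try omega)
    · refine e 1 _ _ _ _ 0 ?_ (by omega)
      ext <;> simp

variable {F' : Finset Φ}

theorem card_sub_le {α : Type} (p : α → Prop) (i1 : Fintype α) (i2 : Fintype {a // p a}) {n : ℕ}
    (h : @Fintype.card α i1 ≤ n) : @Fintype.card {a // p a} i2 ≤ n :=
  le_trans (Fintype.card_le_of_injective Subtype.val Subtype.val_injective) h

/-- restriction to a smaller surface `F'`: any choice `SS`, `SN`, `SM` of the charts which lie in `F'` -/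
def PAtlas.restr (A : PAtlas Q F ψ Z C r nS nN t₀) (hF : F' ⊆ F) (SS : A.κ → Prop) (SN : A.ι → Prop)
    (SM : A.μ → Prop)
    (hS : ∀ i, SS i → ∀ f ∈ Wdg (A.m i) (A.o i) (A.v i) (4 * r + 1), (A.ch i).φF f ∈ F')
    (hN : ∀ i, SN i → ∀ f ∈ Wdg (A.m' i) (A.o' i) (A.v' i) (2 * r + 1), (A.nch i).φF f ∈ F')
    (hM : ∀ i, SM i → ∀ f ∈ Mth (A.lf i) (A.w i) (2 * r + 1) (A.h i) (A.l i + 1), (A.mch i).φF f ∈ F')
    (hZ : ∀ f ∈ F', ∀ k, sd Q f k ∈ Z → sd Q f k ∈ Z')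
    (hC : ∀ a ∈ C', (∃ i, SS i ∧ a ∈ (A.ch i).walls (2 * r)) ∨ (∃ i, SN i ∧ a ∈ (A.nch i).walls r) ∨
      ∃ i, SM i ∧ ∃ j, ∃ s ∈ mthWall (A.lf i) (A.w i) (r + A.h i + 1) (A.h i) (A.l i / 2 + 1) j,
        a = (A.mch i).side s) : PAtlas Q F' ψ Z' C' r nS nN t₀ where
  κ := {i // SS i}
  fκ := by classical exact Fintype.ofFinite _
  dκ := by classical exact inferInstance
  K i := A.K i
  m i := A.m i
  o i := A.o i
  v i := A.v i
  ch i := (A.ch i).restr (A.m_rng i) hF (hS i i.2)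
  m_rng i := A.m_rng i
  jmp i := (A.jmp i).restr (A.m_rng i) hF (hS i i.2)
  tpos i J h := A.tpos i J h
  disj i j h := A.disj i j (fun h1 => h (Subtype.ext h1))
  cardS := card_sub_le _ _ _ A.cardS
  chZ i := by
    intro a ha
    rw [WChart.restr_walls] at ha
    have h1 := A.chZ i ha
    unfold WChart.walls at ha
    rw [Finset.mem_image] at ha
    obtain ⟨s, hs, rfl⟩ := ha
    rcases Finset.mem_union.1 hs with hs | hs
    · obtain ⟨f, hf, rfl⟩ := wIn_face (A.m_rng i).1 (by have := (A.m_rng i).2; omega) hs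
      rw [(A.ch i).toPChart.side_sdR (Wdg_mono (by omega) hf)] at h1 ⊢
      exact hZ _ (hS i i.2 f (Wdg_mono (by omega) hf)) _ h1
    · obtain ⟨f, hf, rfl⟩ := wOut_face (A.m_rng i).1 hs
      rw [(A.ch i).toPChart.side_sdR (Wdg_mono (by omega) hf)] at h1 ⊢
      exact hZ _ (hS i i.2 f (Wdg_mono (by omega) hf)) _ h1
  ι := {i // SN i}
  fι := by classical exact Fintype.ofFinite _
  m' i := A.m' i
  o' i := A.o' i
  v' i := A.v' i
  nch i := (A.nch i).restr (A.m'_rng i) hF (hN i i.2)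
  m'_rng i := A.m'_rng i
  njmp i := A.njmp i
  nZ i := by
    intro a ha
    rw [WChart.restr_walls] at ha
    have h1 := A.nZ i ha
    unfold WChart.walls at ha
    rw [Finset.mem_image] at ha
    obtain ⟨s, hs, rfl⟩ := ha
    rcases Finset.mem_union.1 hs with hs | hs
    · obtain ⟨f, hf, rfl⟩ := wIn_face (A.m'_rng i).1 (by have := (A.m'_rng i).2; omega) hs
      rw [(A.nch i).toPChart.side_sdR (Wdg_mono (by omega) hf)] at h1 ⊢
      exact hZ _ (hN i i.2 f (Wdg_mono (by omega) hf)) _ h1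
    · obtain ⟨f, hf, rfl⟩ := wOut_face (A.m'_rng i).1 hs
      rw [(A.nch i).toPChart.side_sdR (Wdg_mono (by omega) hf)] at h1 ⊢
      exact hZ _ (hN i i.2 f (Wdg_mono (by omega) hf)) _ h1
  ndisj i j := A.ndisj i j
  cardN := card_sub_le _ _ _ A.cardN
  μ := {i // SM i}
  fμ := by classical exact Fintype.ofFinite _
  lf i := A.lf i
  w i := A.w i
  h i := A.h i
  l i := A.l i
  mch i := (A.mch i).restr (by have := A.h_lt i; omega) (A.h_lt i).1 hF (hM i i.2)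
  h_lt i := A.h_lt i
  mnat i := A.mnat i
  mZ i j := by
    intro a ha
    have h1 := A.mZ i j ha
    rw [Finset.mem_image] at ha
    obtain ⟨s, hs, rfl⟩ := ha
    have h2 := A.h_lt i
    obtain ⟨f, hf, k, rfl⟩ := mthWall_face (by omega) h2.1
      (mthWall_mono (by omega) (Nat.le_succ _) (Nat.le_succ _) j hs)
    have e : ((A.mch i).restr (by omega) h2.1 hF (hM i i.2)).side (sd ZQ f k) =
      (A.mch i).side (sd ZQ f k) := rfl
    rw [e, (A.mch i).toPChart.side_sdR hf] at h1 ⊢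
    exact hZ _ (hM i i.2 f hf) _ h1
  mdisj i j := A.mdisj i j
  cardM := card_sub_le _ _ _ A.cardM
  cover a ha := by
    rcases hC a ha with ⟨i, h1, h2⟩ | ⟨i, h1, h2⟩ | ⟨i, h1, h2⟩
    · exact Or.inl ⟨⟨i, h1⟩, h2⟩
    · exact Or.inr (Or.inl ⟨⟨i, h1⟩, h2⟩)
    · exact Or.inr (Or.inr ⟨⟨i, h1⟩, h2⟩)

/-! ## Transport along a chart -/

section push

variable {D : Finset (ℤ × ℤ)} {ψ' : (ℤ × ℤ) × (ℤ × ℤ) → ℝ} {ZD CD : Finset ((ℤ × ℤ) × (ℤ × ℤ))}
  {P : (ℤ × ℤ) × (ℤ × ℤ) → Prop}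

theorem push_disj {c : PChart Q F D} (hinj : ∀ f ∈ D, ∀ g ∈ D, c.φF f = c.φF g → f = g)
    {X Y : Finset (ℤ × ℤ)} (hX : X ⊆ D) (hY : Y ⊆ D) (h : Disjoint X Y) :
    Disjoint (X.image c.φF) (Y.image c.φF) := by
  rw [Finset.disjoint_left] at h ⊢
  intro a ha hb
  rw [Finset.mem_image] at ha hb
  obtain ⟨f, hf, rfl⟩ := ha
  obtain ⟨g, hg, h1⟩ := hb
  have := hinj g (hY hg) f (hX hf) h1
  exact h hf (this ▸ hg)

theorem WChart.box_sub {m : ℕ} {o : ZMod 4} {v : ℤ × ℤ} {r ρ : ℕ} (d : WChart Q F m o v r)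
    (h : ρ ≤ r) : d.box ρ ⊆ F := by
  intro a ha
  unfold WChart.box at ha
  rw [Finset.mem_image] at ha
  obtain ⟨f, hf, rfl⟩ := ha
  exact d.sub f (Wdg_mono h hf)

/-- **transport of a partial atlas of the polygon `D` to the surface `F`** -/
def PAtlas.push (A : PAtlas ZQ D ψ' ZD CD r nS nN t₀) {c : PChart Q F D} (hc : c.Keeps P Z ψ ψ')
    (hinj : ∀ f ∈ D, ∀ g ∈ D, c.φF f = c.φF g → f = g) (SS : A.κ → Prop) (SN : A.ι → Prop)
    (SM : A.μ → Prop)
    (hS : ∀ i, SS i → ∀ a ∈ wIn (A.o i + A.m i) (A.v i) (4 * r + 1) ∪ wOut (A.o i) (A.v i) (4 * r + 1),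
      P ((A.ch i).side a))
    (hN : ∀ i, SN i → ∀ a ∈ wIn (A.o' i + A.m' i) (A.v' i) (2 * r + 1) ∪
      wOut (A.o' i) (A.v' i) (2 * r + 1), P ((A.nch i).side a))
    (hM : ∀ i, SM i → ∀ j, ∀ a ∈ mthWall (A.lf i) (A.w i) (2 * r + 1) (A.h i) (A.l i + 1) j,
      P ((A.mch i).side a))
    (hC : ∀ a ∈ C, (∃ i, SS i ∧ ∃ b ∈ (A.ch i).walls (2 * r), a = c.side b) ∨
      (∃ i, SN i ∧ ∃ b ∈ (A.nch i).walls r, a = c.side b) ∨
      ∃ i, SM i ∧ ∃ j, ∃ s ∈ mthWall (A.lf i) (A.w i) (r + A.h i + 1) (A.h i) (A.l i / 2 + 1) j,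
        a = c.side ((A.mch i).side s)) : PAtlas Q F ψ Z C r nS nN t₀ where
  κ := {i // SS i}
  fκ := by classical exact Fintype.ofFinite _
  dκ := by classical exact inferInstance
  K i := A.K i
  m i := A.m i
  o i := A.o i
  v i := A.v i
  ch i := hc.wch (A.ch i) (hS i i.2)
  m_rng i := A.m_rng i
  jmp i := hc.wch_sjump (by omega) (hS i i.2) (A.jmp i)
  tpos i J h := A.tpos i J h
  disj i j h := by
    rw [hc.wch_box, hc.wch_box]
    exact push_disj hinj ((A.ch i).box_sub (by omega)) ((A.ch j).box_sub (by omega))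
      (A.disj i j (fun h1 => h (Subtype.ext h1)))
  cardS := card_sub_le _ _ _ A.cardS
  chZ i := by
    intro a ha
    rw [hc.wch_walls, Finset.mem_image] at ha
    obtain ⟨b, hb, rfl⟩ := ha
    unfold WChart.walls at hb
    rw [Finset.mem_image] at hb
    obtain ⟨s, hs, rfl⟩ := hb
    rcases Finset.mem_union.1 hs with hs | hs
    · have h1 := wIn_mono (r' := 4 * r) (r := 4 * r + 1) (by omega) hs
      exact hc.z _ ((A.ch i).bIn s h1) (hS i i.2 s (Finset.mem_union_left _ h1))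
    · have h1 := wOut_mono (r' := 4 * r) (r := 4 * r + 1) (by omega) hs
      exact hc.z _ ((A.ch i).bOut s h1) (hS i i.2 s (Finset.mem_union_right _ h1))
  ι := {i // SN i}
  fι := by classical exact Fintype.ofFinite _
  m' i := A.m' i
  o' i := A.o' i
  v' i := A.v' i
  nch i := hc.wch (A.nch i) (hN i i.2)
  m'_rng i := A.m'_rng i
  njmp i := by
    rcases A.njmp i with h | h
    · exact Or.inl (hc.wch_jump (hN i i.2) h)
    · exact Or.inr (hc.wch_jump (hN i i.2) h)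
  nZ i := by
    intro a ha
    rw [hc.wch_walls, Finset.mem_image] at ha
    obtain ⟨b, hb, rfl⟩ := ha
    unfold WChart.walls at hb
    rw [Finset.mem_image] at hb
    obtain ⟨s, hs, rfl⟩ := hb
    rcases Finset.mem_union.1 hs with hs | hs
    · have h1 := wIn_mono (r' := 2 * r) (r := 2 * r + 1) (by omega) hs
      exact hc.z _ ((A.nch i).bIn s h1) (hN i i.2 s (Finset.mem_union_left _ h1))
    · have h1 := wOut_mono (r' := 2 * r) (r := 2 * r + 1) (by omega) hs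
      exact hc.z _ ((A.nch i).bOut s h1) (hN i i.2 s (Finset.mem_union_right _ h1))
  ndisj i j := by
    rw [hc.wch_box, hc.wch_box]
    exact push_disj hinj ((A.nch i).box_sub (by omega)) ((A.ch j).box_sub (by omega)) (A.ndisj i j)
  cardN := card_sub_le _ _ _ A.cardN
  μ := {i // SM i}
  fμ := by classical exact Fintype.ofFinite _
  lf i := A.lf i
  w i := A.w i
  h i := A.h i
  l i := A.l i
  mch i := hc.mch (A.mch i) (hM i i.2)
  h_lt i := A.h_lt i
  mnat i := by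
    rcases A.mnat i with h | h
    · exact Or.inl (hc.mch_nat (hM i i.2) h)
    · exact Or.inr (hc.mch_nat (hM i i.2) h)
  mZ i j := by
    intro a ha
    rw [Finset.mem_image] at ha
    obtain ⟨s, hs, rfl⟩ := ha
    have h1 := A.h_lt i
    have h2 := mthWall_mono (r' := 2 * r + 1) (l' := A.l i + 1) (show A.h i ≤ 2 * r by omega)
      (Nat.le_succ _) (Nat.le_succ _) j hs
    exact hc.z _ ((A.mch i).bd j s h2) (hM i i.2 j s h2)
  mdisj i j := by
    rw [hc.wch_box]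
    have e : (Mth (A.lf i) (A.w i) (2 * r) (A.h i) (A.l i)).image (hc.mch (A.mch i) (hM i i.2)).φF =
        ((Mth (A.lf i) (A.w i) (2 * r) (A.h i) (A.l i)).image (A.mch i).φF).image c.φF := by
      rw [Finset.image_image]; rfl
    rw [e]
    refine push_disj hinj ?_ ((A.ch j).box_sub (by omega)) (A.mdisj i j)
    intro a ha
    rw [Finset.mem_image] at ha
    obtain ⟨f, hf, rfl⟩ := ha
    refine (A.mch i).sub f ?_
    rcases Bool.eq_false_or_eq_true (A.lf i) with hb | hb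
    · rw [hb] at hf ⊢
      rw [mem_Mth_left] at hf ⊢
      push_cast
      omega
    · rw [hb] at hf ⊢
      rw [mem_Mth_right] at hf ⊢
      push_cast
      omega
  cardM := card_sub_le _ _ _ A.cardM
  cover a ha := by
    rcases hC a ha with ⟨i, h1, b, hb, rfl⟩ | ⟨i, h1, b, hb, rfl⟩ | ⟨i, h1, h2⟩
    · refine Or.inl ⟨⟨i, h1⟩, ?_⟩
      rw [hc.wch_walls]
      exact Finset.mem_image_of_mem _ hb
    · refine Or.inr (Or.inl ⟨⟨i, h1⟩, ?_⟩)
      rw [hc.wch_walls]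
      exact Finset.mem_image_of_mem _ hb
    · exact Or.inr (Or.inr ⟨⟨i, h1⟩, h2⟩)

end push

end

end Pool.Agent.SixB
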