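import Pool.Agent.Lib.SixB.S3Harris
import Pool.Agent.Lib.SixB.S3Plane
import Pool.Agent.Lib.MP_6bd702_z.Z034
import Pool.Agent.Lib.MP_6bd702_zc.Y024

/-!
# 6BD step 3: blocking events in a complex of quadrangles

`D : Φ → Bool`: the value of a face for which its bond has the first colour. `NoArm Q D R X Y ω`: no path of the
first colour in the faces of `R` joins the sets of vertices `X`, `Y`. It depends on the faces of `R`, and it is
monotone. `PCh`: a planar chart of `R` (injective on the faces, no rotation of the labels) in which `D` is the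
colour `c`. `R` is any set of faces: walls only remove faces.
* `blk_of_noArm`: in a chart no arm of the first colour from the ends of the sides of `A` to those of `B` implies
  `Rel.Blk Q R ω A B`: no strand of `R` joins `A` and `B`.
* `PCh.noArm_ge`: the probability of `NoArm` is at least the probability of any planar event which forbids the
  connections in the chart; `noArm_posR`: if `X` is charted in the box of radius `r` and `Y` outside of the open box of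
  radius `s`, `s ≤ 8 (s - r)`, then it is at least an absolute constant; `noArm_family`: a finite family of such events.
* `Ring Q D C R E`: the ring `R` between the core `C` and the outer faces `E` has no arm. `RingCh`: its chart.
  `RingCh.blk`, `Ring.congr` (it depends on the faces of `R`), `ring_family` (probability at least `c₀ ^ m`),
  `RingCh.conf`: no strand of `C ∪ R ∪ E` meets `C` and `E`; `RingCh.dst_eq`: the strands of `C ∪ R ∪ E` which
  meet `C` are strands of `C ∪ R`.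
* `blk_net`: a net of blocked rings stops the strands from `A` to `B` if its cores separate `A` from `B`.
-/

set_option autoImplicit false
set_option linter.unusedSectionVars false

namespace Pool.Agent.SixB.Bk

open Pool.Agent.Perc.Q Relation
open Pool.Agent.SixB hiding Zs_split

noncomputable section

variable {V Φ : Type} [DecidableEq V] [DecidableEq Φ]
variable {Q : QC V Φ} {D : Φ → Bool} {R R' F : Finset Φ} {ω ω' : Φ → Bool} {a b : V × V}
  {u v : V} {X Y X' Y' : Set V} {A B : Finset (V × V)}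

/-- the bonds of the first colour in the faces of `R` -/
def CB (Q : QC V Φ) (D : Φ → Bool) (R : Finset Φ) (ω : Φ → Bool) (u v : V) : Prop :=
  ∃ f ∈ R, ω f = D f ∧ ∃ k, D f = ev k ∧ u = Q.c f k ∧ v = Q.c f (k + 2)

/-- connection by bonds of the first colour -/
def CC (Q : QC V Φ) (D : Φ → Bool) (R : Finset Φ) (ω : Φ → Bool) : V → V → Prop :=
  ReflTransGen (CB Q D R ω)

/-- no path of the first colour in the faces of `R` joins `X` and `Y` -/
def NoArm (Q : QC V Φ) (D : Φ → Bool) (R : Finset Φ) (X Y : Set V) (ω : Φ → Bool) : Prop :=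
  ∀ x ∈ X, ∀ y ∈ Y, ¬ CC Q D R ω x y

theorem CB.symm (h : CB Q D R ω u v) : CB Q D R ω v u := by
  obtain ⟨f, hf, h, k, hk, rfl, rfl⟩ := h
  exact ⟨f, hf, h, k + 2, by rw [ev_add_two, hk], rfl, by rw [z4]⟩

theorem CC.symm (h : CC Q D R ω u v) : CC Q D R ω v u := rtg_symm (fun _ _ h => CB.symm h) h

theorem CC.mono (hR : R' ⊆ R) (h : CC Q D R' ω u v) : CC Q D R ω u v :=
  rtg_mono (fun _ _ ⟨f, hf, h⟩ => ⟨f, hR hf, h⟩) h

theorem CC.congr (hω : ∀ f ∈ R, ω f = ω' f) (h : CC Q D R ω u v) : CC Q D R ω' u v :=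
  rtg_mono (fun _ _ ⟨f, hf, h, h'⟩ => ⟨f, hf, by rw [← hω f hf, h], h'⟩) h

/-- more faces of the first colour: more connections -/
theorem CC.incr (hω : ∀ f ∈ R, ω f = D f → ω' f = D f) (h : CC Q D R ω u v) : CC Q D R ω' u v :=
  rtg_mono (fun _ _ ⟨f, hf, h, h'⟩ => ⟨f, hf, hω f hf h, h'⟩) h

theorem CC.connQ (h : CC Q D R ω u v) : ConnQ Q ω (R : Set Φ) u v :=
  rtg_mono (fun _ _ ⟨f, hf, h, k, hk, hu, hv⟩ =>
    ⟨f, Finset.mem_coe.mpr hf, k, by rw [h, hk], hu, hv⟩) h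

theorem NoArm.symm (h : NoArm Q D R X Y ω) : NoArm Q D R Y X ω :=
  fun y hy x hx hc => h x hx y hy hc.symm

theorem NoArm.mono (h : NoArm Q D R X Y ω) (hR : R' ⊆ R) (hX : X' ⊆ X) (hY : Y' ⊆ Y) :
    NoArm Q D R' X' Y' ω := fun x hx y hy hc => h x (hX hx) y (hY hy) (hc.mono hR)

theorem NoArm.congr (hω : ∀ f ∈ R, ω f = ω' f) : NoArm Q D R X Y ω ↔ NoArm Q D R X Y ω' :=
  ⟨fun h x hx y hy hc => h x hx y hy (hc.congr fun f hf => (hω f hf).symm),
    fun h x hx y hy hc => h x hx y hy (hc.congr hω)⟩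

/-- `NoArm` is increasing in the other colour -/
theorem NoArm.up (hω : ∀ f, ω f = (!D f) → ω' f = !D f) (h : NoArm Q D R X Y ω) :
    NoArm Q D R X Y ω' := by
  intro x hx y hy hc
  refine h x hx y hy (hc.incr fun f _ hf => ?_)
  have h1 := hω f
  revert h1 hf
  cases ω f <;> cases ω' f <;> cases D f <;> simp

/-- the ends of the sides of `A` -/
def Ends (A : Finset (V × V)) : Set V := {v | ∃ a ∈ A, v = a.1 ∨ v = a.2}

theorem Ends.mono {A' : Finset (V × V)} (h : A' ⊆ A) : Ends A' ⊆ Ends A :=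
  fun _ ⟨a, ha, h'⟩ => ⟨a, h ha, h'⟩

theorem fst_mem_Ends (h : a ∈ A) : a.1 ∈ Ends A := ⟨a, h, Or.inl rfl⟩

theorem snd_mem_Ends (h : a ∈ A) : a.2 ∈ Ends A := ⟨a, h, Or.inr rfl⟩

/-- A planar chart of the faces `R`: `D` is the colour `c`. -/
structure PCh (Q : QC V Φ) (D : Φ → Bool) (R : Finset Φ) (c : ℤ) (π : Φ → ℤ × ℤ)
    (ν : V → ℤ × ℤ) : Prop where
  inj : Set.InjOn π (R : Set Φ)
  cor : ∀ f ∈ R, ∀ k, ZQ.c (π f) k = ν (Q.c f k)
  col : ∀ f ∈ R, D f = !Perc.parD c (π f)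

theorem PCh.mono {c : ℤ} {π : Φ → ℤ × ℤ} {ν : V → ℤ × ℤ} (H : PCh Q D R c π ν) (hR : R' ⊆ R) :
    PCh Q D R' c π ν where
  inj := fun f hf f' hf' h => H.inj (by exact_mod_cast hR hf) (by exact_mod_cast hR hf') h
  cor := fun f hf => H.cor f (hR hf)
  col := fun f hf => H.col f (hR hf)

/-- the colour of a corner of a face of the plane -/
theorem par_cor (g : ℤ × ℤ) (k : ZMod 4) (c : ℤ) :
    ((ZQ.c g k).1 + (ZQ.c g k).2 - c) % 2 = 0 ↔ (!Perc.parD c g) = ev k := by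
  have hk : k = 0 ∨ k = 1 ∨ k = 2 ∨ k = 3 := by revert k; decide
  unfold Perc.parD
  rcases hk with rfl | rfl | rfl | rfl
  · rw [ZQ_c, show cor0 g 0 = (g.1, g.2) from rfl, show ev 0 = true from rfl]
    simp
  · rw [ZQ_c, show cor0 g 1 = (g.1 + 1, g.2) from rfl, show ev 1 = false from rfl]
    simp only [Bool.not_eq_false', decide_eq_true_eq]
    omega
  · rw [ZQ_c, show cor0 g 2 = (g.1 + 1, g.2 + 1) from rfl, show ev 2 = true from rfl]
    simp only [Bool.not_eq_true', decide_eq_false_iff_not, not_not]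
    omega
  · rw [ZQ_c, show cor0 g 3 = (g.1, g.2 + 1) from rfl, show ev 3 = false from rfl]
    simp only [Bool.not_eq_false', decide_eq_true_eq]
    omega

section chart

variable {c : ℤ} {π : Φ → ℤ × ℤ} {ν : V → ℤ × ℤ}

/-- the colour of a corner in the chart -/
theorem PCh.par (H : PCh Q D R c π ν) {f : Φ} (hf : f ∈ R) (k : ZMod 4) :
    ((ν (Q.c f k)).1 + (ν (Q.c f k)).2 - c) % 2 = 0 ↔ D f = ev k := by
  rw [← H.cor f hf, par_cor, H.col f hf]

/-- a connection which starts at a vertex of the first colour has the first colour -/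
theorem PCh.cc_of_connQ (H : PCh Q D R c π ν) (h : ConnQ Q ω (R : Set Φ) u v)
    (hu : ((ν u).1 + (ν u).2 - c) % 2 = 0) :
    CC Q D R ω u v ∧ ((ν v).1 + (ν v).2 - c) % 2 = 0 := by
  induction h with
  | refl => exact ⟨ReflTransGen.refl, hu⟩
  | tail _ hb ih =>
    obtain ⟨f, hf, k, h, rfl, rfl⟩ := hb
    have hf' := Finset.mem_coe.mp hf
    have h1 := (H.par hf' k).mp ih.2
    exact ⟨ih.1.tail ⟨f, hf', by rw [h, h1], k, h1, rfl, rfl⟩,
      (H.par hf' (k + 2)).mpr (by rw [ev_add_two, h1])⟩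

/-- the ends of a side have different colours -/
theorem PCh.par_side (H : PCh Q D R c π ν) (ha : a ∈ dE Q R) :
    ((ν a.1).1 + (ν a.1).2 - c) % 2 = 0 ∨ ((ν a.2).1 + (ν a.2).2 - c) % 2 = 0 := by
  unfold dE at ha
  simp only [Finset.mem_biUnion, Finset.mem_univ, true_and, Finset.mem_insert,
    Finset.mem_singleton] at ha
  obtain ⟨f, hf, k, h⟩ := ha
  have h1 := H.par hf k
  have h2 := H.par hf (k + 1)
  rw [ev_add_one] at h2
  have key : D f = ev k ∨ D f = !ev k := Bool.eq_or_eq_not _ _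
  rcases h with rfl | rfl
  · rcases key with h | h
    · exact Or.inl (h1.mpr h)
    · exact Or.inr (h2.mpr h)
  · rcases key with h | h
    · exact Or.inr (h1.mpr h)
    · exact Or.inl (h2.mpr h)

/-- a strand gives connections of the left ends and of the right ends -/
theorem connQ_of_srel (h : SRel Q R ω a b) :
    ConnQ Q ω (R : Set Φ) a.1 b.1 ∧ ConnQ Q ω (R : Set Φ) a.2 b.2 := by
  unfold SRel at h
  induction h with
  | rel x y h =>
    have h1 := marks (e := x) (a := y) (F := (R : Set Φ)) (ω := ω) (ReflTransGen.single h)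
    exact ⟨h1.1.mono Vis_sub, h1.2.mono Vis_sub⟩
  | refl x => exact ⟨ReflTransGen.refl, ReflTransGen.refl⟩
  | symm x y _ ih => exact ⟨ih.1.symm, ih.2.symm⟩
  | trans x y z _ _ ih1 ih2 => exact ⟨ih1.1.trans ih2.1, ih1.2.trans ih2.2⟩

/-- **No arm of one colour: no strand.** -/
theorem PCh.blk_of_noArm (H : PCh Q D R c π ν)
    (h : NoArm Q D R (Ends (A ∩ dE Q R)) (Ends (B ∩ dE Q R)) ω) : Rel.Blk Q R ω A B := by
  intro a ha b hb haR hbR hs
  have ha' := Finset.mem_inter.mpr ⟨ha, haR⟩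
  have hb' := Finset.mem_inter.mpr ⟨hb, hbR⟩
  obtain ⟨h1, h2⟩ := connQ_of_srel hs
  rcases H.par_side haR with h3 | h3
  · exact h _ (fst_mem_Ends ha') _ (fst_mem_Ends hb') (H.cc_of_connQ h1 h3).1
  · exact h _ (snd_mem_Ends ha') _ (snd_mem_Ends hb') (H.cc_of_connQ h2 h3).1

/-- a connection in the chart -/
theorem PCh.conn (H : PCh Q D R c π ν) {τ : ℤ × ℤ → Bool}
    (h : CC Q D R (fun f => τ (π f)) u v) :
    Perc.Conn τ ((R.image π : Finset (ℤ × ℤ)) : Set (ℤ × ℤ)) (ν u) (ν v) ∧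
      (u = v ∨ ((ν u).1 + (ν u).2 - c) % 2 = 0) := by
  constructor
  · rw [← connZ_iff]
    induction h with
    | refl => exact ReflTransGen.refl
    | tail _ hb ih =>
      obtain ⟨f, hf, h, k, hk, rfl, rfl⟩ := hb
      refine ih.tail ⟨π f, Finset.mem_coe.mpr (Finset.mem_image_of_mem _ hf), k, ?_, ?_, ?_⟩
      · rw [← hk, ← h]
      · rw [H.cor f hf]
      · rw [H.cor f hf]
  · rcases ReflTransGen.cases_head h with h | ⟨w, ⟨f, hf, h, k, hk, rfl, rfl⟩, _⟩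
    · exact Or.inl h
    · exact Or.inr ((H.par hf k).mpr hk)

/-- in the box of radius `r` around `p` -/
def InB (p : ℤ × ℤ) (r : ℤ) (x : ℤ × ℤ) : Prop :=
  p.1 - r ≤ x.1 ∧ x.1 ≤ p.1 + r ∧ p.2 - r ≤ x.2 ∧ x.2 ≤ p.2 + r

/-- not in the open box of radius `r` around `p` -/
def OutB (p : ℤ × ℤ) (r : ℤ) (x : ℤ × ℤ) : Prop :=
  ¬ (p.1 - r < x.1 ∧ x.1 < p.1 + r ∧ p.2 - r < x.2 ∧ x.2 < p.2 + r)

/-- **Comparison with a planar event** which forbids the connections in the chart. -/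
theorem PCh.noArm_imp (H : PCh Q D R c π ν) {E : Set Perc.Cfg} (hne : ∀ x ∈ X, ∀ y ∈ Y, x ≠ y)
    (hE : ∀ τ ∈ E, ∀ x ∈ X, ∀ y ∈ Y, ((ν x).1 + (ν x).2 - c) % 2 = 0 →
      ¬ Perc.Conn τ ((R.image π : Finset (ℤ × ℤ)) : Set (ℤ × ℤ)) (ν x) (ν y)) {τ : ℤ × ℤ → Bool}
    (h : τ ∈ E) : NoArm Q D R X Y (fun f => τ (π f)) := by
  intro x hx y hy hc
  obtain ⟨h1, h2⟩ := H.conn hc
  rcases h2 with h2 | h2
  · exact hne x hx y hy h2
  · exact hE τ h x hx y hy h2 h1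

end chart

open Classical in
theorem dep_noArm : Dep (R : Set Φ) (fun ω => if NoArm Q D R X Y ω then (1 : ℝ) else 0) := by
  intro ω ω' h
  have : NoArm Q D R X Y ω ↔ NoArm Q D R X Y ω' :=
    NoArm.congr fun f hf => h f (Finset.mem_coe.mpr hf)
  simp only [this]

open Classical in
theorem PCh.noArm_ge {c : ℤ} {π : Φ → ℤ × ℤ} {ν : V → ℤ × ℤ} (H : PCh Q D R c π ν)
    {E : Set Perc.Cfg} {W : Finset (ℤ × ℤ)} (hW : Perc.DepOn (W : Set (ℤ × ℤ)) E)
    (hne : ∀ x ∈ X, ∀ y ∈ Y, x ≠ y)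
    (hE : ∀ τ ∈ E, ∀ x ∈ X, ∀ y ∈ Y, ((ν x).1 + (ν x).2 - c) % 2 = 0 →
      ¬ Perc.Conn τ ((R.image π : Finset (ℤ × ℤ)) : Set (ℤ × ℤ)) (ν x) (ν y)) {S : Finset Φ}
    (hRS : R ⊆ S) : Perc.pr W E ≤ av S (fun ω => if NoArm Q D R X Y ω then (1 : ℝ) else 0) := by
  rw [av_dep dep_noArm hRS, ← av_image H.inj dep_noArm]
  set g : (ℤ × ℤ → Bool) → ℝ :=
    fun τ => if NoArm Q D R X Y (fun f => τ (π f)) then (1 : ℝ) else 0 with hg
  have hdep : Dep ((R.image π : Finset (ℤ × ℤ)) : Set (ℤ × ℤ)) g := by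
    intro τ τ' hτ
    have : NoArm Q D R X Y (fun f => τ (π f)) ↔ NoArm Q D R X Y (fun f => τ' (π f)) :=
      NoArm.congr fun f hf => hτ _ (Finset.mem_coe.mpr (Finset.mem_image_of_mem _ hf))
    simp only [hg, this]
  set W' := R.image π ∪ W with hW'
  rw [← av_dep hdep (show R.image π ⊆ W' from Finset.subset_union_left),
    ← Perc.pr_eq_of_depOn hW (show W ⊆ W' from Finset.subset_union_right), pr_eq_av]
  refine av_mono fun T _ => ?_
  show (if ind T ∈ E then (1 : ℝ) else 0) ≤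
    if NoArm Q D R X Y (fun f => ind T (π f)) then (1 : ℝ) else 0
  split_ifs with h1 h2 h2
  · exact le_rfl
  · exact absurd (H.noArm_imp hne hE h1) h2
  · norm_num
  · exact le_rfl

/-! ## Planar blocking events -/

/-- Four crossings of the colour different from `c` in the annulus `(r, s)`. -/
def Blk2 (c : ℤ) (p : ℤ × ℤ) (r s : ℤ) : Set Perc.Cfg :=
  Perc.LR (c + 1) (p.1 - s) (p.1 + s) (p.2 + r) (p.2 + s) ∩
  (Perc.LR (c + 1) (p.1 - s) (p.1 + s) (p.2 - s) (p.2 - r) ∩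
  (Perc.BT (c + 1) (p.1 - s) (p.1 - r) (p.2 - s) (p.2 + s) ∩
  Perc.BT (c + 1) (p.1 + r) (p.1 + s) (p.2 - s) (p.2 + s)))

/-- The four crossings block every arm. -/
theorem blk2_not_arm {c : ℤ} {p : ℤ × ℤ} {r s : ℤ} (hr : 0 ≤ r) (hs : r < s) {τ : Perc.Cfg}
    (h : τ ∈ Blk2 c p r s) {F : Set (ℤ × ℤ)} {u v : ℤ × ℤ} (hu : InB p r u) (hv : OutB p s v)
    (hc : (u.1 + u.2 - c) % 2 = 0) : ¬ Perc.Conn τ F u v := by
  intro h0
  unfold InB at hu
  unfold OutB at hv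
  obtain ⟨w, hw, hw'⟩ := h0.toBd (x₀ := p.1 - s) (x₁ := p.1 + s) (y₀ := p.2 - s)
    (y₁ := p.2 + s) (by omega) hv
  have h7 : Perc.Conn τ (Perc.RFb p s : Set (ℤ × ℤ)) u w := hw.mono Set.inter_subset_right
  obtain ⟨hT, hB, hL, hR⟩ := h
  have hp := Perc.Conn.parity h7
  obtain ⟨h8, hv1, hv2, hv3, hv4⟩ := hw'
  rcases h8 with h8 | h8 | h8 | h8
  · have h9 : τ ∈ Perc.LR c (p.1 - s) (p.1 - r) (p.2 - s) (p.2 + s) :=
      Perc.lr_of_conn (F := Perc.RFb p s) (fun f hf => by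
        have := Perc.mem_RFb.1 (Finset.mem_coe.1 hf); omega) (by omega) (by omega) (by omega)
        (by omega) h7.symm
    exact Perc.not_lr_and_bt c (by omega) (by omega) τ ⟨h9, hL⟩
  · have h9 : τ ∈ Perc.LR c (p.1 + r) (p.1 + s) (p.2 - s) (p.2 + s) :=
      Perc.lr_of_conn (F := Perc.RFb p s) (fun f hf => by
        have := Perc.mem_RFb.1 (Finset.mem_coe.1 hf); omega) (by omega) (by omega) (by omega)
        (by omega) h7
    exact Perc.not_lr_and_bt c (by omega) (by omega) τ ⟨h9, hR⟩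
  · have h9 : τ ∈ Perc.BT (c + 1 + 1) (p.1 - s) (p.1 + s) (p.2 - s) (p.2 - r) :=
      Perc.bt_of_conn (F := Perc.RFb p s) (fun f hf => by
        have := Perc.mem_RFb.1 (Finset.mem_coe.1 hf); omega) (by omega) (by omega) (by omega)
        (by omega) h7.symm
    exact Perc.not_lr_and_bt (c + 1) (by omega) (by omega) τ ⟨hB, h9⟩
  · have h9 : τ ∈ Perc.BT (c + 1 + 1) (p.1 - s) (p.1 + s) (p.2 + r) (p.2 + s) :=
      Perc.bt_of_conn (F := Perc.RFb p s) (fun f hf => by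
        have := Perc.mem_RFb.1 (Finset.mem_coe.1 hf); omega) (by omega) (by omega) (by omega)
        (by omega) h7
    exact Perc.not_lr_and_bt (c + 1) (by omega) (by omega) τ ⟨hT, h9⟩

theorem depOn_Blk2 {c : ℤ} {p : ℤ × ℤ} {r s : ℤ} (hr : 0 ≤ r) (hs : r < s) :
    Perc.DepOn ((Perc.RFb p s \ Perc.RFb p r : Finset (ℤ × ℤ)) : Set (ℤ × ℤ))
      (Blk2 c p r s) := by
  refine Perc.depOn_inter' (Perc.depOn_mono' (Perc.depOn_LR _ _ _ _ _) ?_) (Perc.depOn_inter'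
    (Perc.depOn_mono' (Perc.depOn_LR _ _ _ _ _) ?_) (Perc.depOn_inter'
    (Perc.depOn_mono' (Perc.depOn_BT _ _ _ _ _) ?_) (Perc.depOn_mono' (Perc.depOn_BT _ _ _ _ _) ?_)))
  all_goals
    intro f hf
    rw [Finset.mem_coe, Perc.mem_RFi] at hf
    rw [Finset.mem_coe, Finset.mem_sdiff, Perc.mem_RFb, Perc.mem_RFb]
    omega

theorem incD_Blk2 (c : ℤ) (p : ℤ × ℤ) (r s : ℤ) : Perc.IncD (Perc.parD (c + 1)) (Blk2 c p r s) :=
  Perc.incD_inter' (Perc.incD_LR _ _ _ _ _) (Perc.incD_inter' (Perc.incD_LR _ _ _ _ _)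
    (Perc.incD_inter' (Perc.incD_BT' _ _ _ _ _) (Perc.incD_BT' _ _ _ _ _)))

theorem pr_Blk2 : ∃ c₀ : ℝ, 0 < c₀ ∧ ∀ (c : ℤ) (p : ℤ × ℤ) (r s : ℤ) (S : Finset (ℤ × ℤ)),
    0 ≤ r → r < s → s ≤ 8 * (s - r) →
    Perc.RFb p s \ Perc.RFb p r ⊆ S → c₀ ≤ Perc.pr S (Blk2 c p r s) := by
  obtain ⟨c₀, hc, h⟩ := Perc.rswF 16
  obtain ⟨c', hc', h'⟩ := Perc.rswF' 16
  refine ⟨c₀ * (c₀ * (c' * c')), by positivity, ?_⟩
  intro c p r s S hr hs hrs hS
  set W := S ∪ Perc.RFb p s with hW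
  have hWb : Perc.RFb p s ⊆ W := Finset.subset_union_right
  have e : Perc.pr W (Blk2 c p r s) = Perc.pr S (Blk2 c p r s) := by
    rw [Perc.pr_eq_of_depOn (depOn_Blk2 hr hs) hS, Perc.pr_eq_of_depOn (depOn_Blk2 hr hs)
      (hS.trans Finset.subset_union_left)]
  rw [← e]
  have s1 : Perc.RF (p.1 - s) (p.1 + s) (p.2 + r) (p.2 + s) ⊆ W := by
    refine Finset.Subset.trans ?_ hWb
    intro f hf; rw [Perc.mem_RFi] at hf; rw [Perc.mem_RFb]; omega
  have s2 : Perc.RF (p.1 - s) (p.1 + s) (p.2 - s) (p.2 - r) ⊆ W := by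
    refine Finset.Subset.trans ?_ hWb
    intro f hf; rw [Perc.mem_RFi] at hf; rw [Perc.mem_RFb]; omega
  have s3 : Perc.RF (p.1 - s) (p.1 - r) (p.2 - s) (p.2 + s) ⊆ W := by
    refine Finset.Subset.trans ?_ hWb
    intro f hf; rw [Perc.mem_RFi] at hf; rw [Perc.mem_RFb]; omega
  have s4 : Perc.RF (p.1 + r) (p.1 + s) (p.2 - s) (p.2 + s) ⊆ W := by
    refine Finset.Subset.trans ?_ hWb
    intro f hf; rw [Perc.mem_RFi] at hf; rw [Perc.mem_RFb]; omega
  have p1 : c₀ ≤ Perc.pr W (Perc.LR (c + 1) (p.1 - s) (p.1 + s) (p.2 + r) (p.2 + s)) := by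
    rw [Perc.pr_LR_window s1]
    exact h _ _ _ _ _ (by omega) (by omega) (by push_cast; omega)
  have p2 : c₀ ≤ Perc.pr W (Perc.LR (c + 1) (p.1 - s) (p.1 + s) (p.2 - s) (p.2 - r)) := by
    rw [Perc.pr_LR_window s2]
    exact h _ _ _ _ _ (by omega) (by omega) (by push_cast; omega)
  have p3 : c' ≤ Perc.pr W (Perc.BT (c + 1) (p.1 - s) (p.1 - r) (p.2 - s) (p.2 + s)) := by
    rw [Perc.pr_BT_window s3]
    exact h' _ _ _ _ _ (by omega) (by omega) (by push_cast; omega)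
  have p4 : c' ≤ Perc.pr W (Perc.BT (c + 1) (p.1 + r) (p.1 + s) (p.2 - s) (p.2 + s)) := by
    rw [Perc.pr_BT_window s4]
    exact h' _ _ _ _ _ (by omega) (by omega) (by push_cast; omega)
  have d1 := Perc.depOn_mono' (Perc.depOn_LR (c + 1) (p.1 - s) (p.1 + s) (p.2 + r)
    (p.2 + s)) (Finset.coe_subset.2 s1)
  have d2 := Perc.depOn_mono' (Perc.depOn_LR (c + 1) (p.1 - s) (p.1 + s) (p.2 - s)
    (p.2 - r)) (Finset.coe_subset.2 s2)
  have d3 := Perc.depOn_mono' (Perc.depOn_BT (c + 1) (p.1 - s) (p.1 - r) (p.2 - s)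
    (p.2 + s)) (Finset.coe_subset.2 s3)
  have d4 := Perc.depOn_mono' (Perc.depOn_BT (c + 1) (p.1 + r) (p.1 + s) (p.2 - s)
    (p.2 + s)) (Finset.coe_subset.2 s4)
  have i3 := Perc.incD_BT' (c + 1) (p.1 - s) (p.1 - r) (p.2 - s) (p.2 + s)
  have i4 := Perc.incD_BT' (c + 1) (p.1 + r) (p.1 + s) (p.2 - s) (p.2 + s)
  have q3 := Perc.harris _ d3 d4 i3 i4
  have q2 := Perc.harris _ d2 (Perc.depOn_inter' d3 d4) (Perc.incD_LR _ _ _ _ _)
    (Perc.incD_inter' i3 i4)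
  have q1 := Perc.harris _ d1 (Perc.depOn_inter' d2 (Perc.depOn_inter' d3 d4))
    (Perc.incD_LR _ _ _ _ _)
    (Perc.incD_inter' (Perc.incD_LR (c + 1) (p.1 - s) (p.1 + s) (p.2 - s) (p.2 - r))
      (Perc.incD_inter' i3 i4))
  have r3 : c' * c' ≤ _ := (mul_le_mul p3 p4 hc'.le (Perc.pr_nonneg _ _)).trans q3
  have r2 : c₀ * (c' * c') ≤ _ := (mul_le_mul p2 r3 (by positivity) (Perc.pr_nonneg _ _)).trans q2
  exact (mul_le_mul p1 r2 (by positivity) (Perc.pr_nonneg _ _)).trans q1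

open Classical in
/-- **The blocking events have probability at least `c₀`**, in every chart and for every set of faces; radii
`r < s` with `s ≤ 8 (s - r)`. -/
theorem noArm_posR : ∃ c₀ : ℝ, 0 < c₀ ∧ ∀ {V Φ : Type} [DecidableEq V] [DecidableEq Φ]
    (Q : QC V Φ) (D : Φ → Bool) (R : Finset Φ) (c : ℤ) (π : Φ → ℤ × ℤ) (ν : V → ℤ × ℤ)
    (p : ℤ × ℤ) (r s : ℤ) (X Y : Set V) (S : Finset Φ), 0 ≤ r → r < s → s ≤ 8 * (s - r) →
    PCh Q D R c π ν → R ⊆ S → (∀ x ∈ X, InB p r (ν x)) → (∀ y ∈ Y, OutB p s (ν y)) →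
    c₀ ≤ av S (fun ω => if NoArm Q D R X Y ω then (1 : ℝ) else 0) := by
  obtain ⟨c₀, hc, h⟩ := pr_Blk2
  refine ⟨c₀, hc, ?_⟩
  intro V Φ _ _ Q D R c π ν p r s X Y S hr hs hrs H hRS hX hY
  refine (h c p r s _ hr hs hrs (Finset.Subset.refl _)).trans
    (H.noArm_ge (depOn_Blk2 hr hs) ?_ ?_ hRS)
  · intro x hx y hy he
    have h1 := hX x hx
    have h2 := hY y hy
    rw [he] at h1
    unfold InB at h1
    unfold OutB at h2
    omega
  · intro τ hτ x hx y hy hc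
    exact blk2_not_arm hr hs hτ (hX x hx) (hY y hy) hc

open Classical in
/-- Radii `r`, `4 r`. -/
theorem noArm_pos : ∃ c₀ : ℝ, 0 < c₀ ∧ ∀ {V Φ : Type} [DecidableEq V] [DecidableEq Φ]
    (Q : QC V Φ) (D : Φ → Bool) (R : Finset Φ) (c : ℤ) (π : Φ → ℤ × ℤ) (ν : V → ℤ × ℤ)
    (p : ℤ × ℤ) (r : ℤ) (X Y : Set V) (S : Finset Φ), 0 < r → PCh Q D R c π ν → R ⊆ S →
    (∀ x ∈ X, InB p r (ν x)) → (∀ y ∈ Y, OutB p (4 * r) (ν y)) →
    c₀ ≤ av S (fun ω => if NoArm Q D R X Y ω then (1 : ℝ) else 0) := by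
  obtain ⟨c₀, hc, h⟩ := noArm_posR
  refine ⟨c₀, hc, ?_⟩
  intro V Φ _ _ Q D R c π ν p r X Y S hr H hRS hX hY
  exact h Q D R c π ν p r (4 * r) X Y S hr.le (by omega) (by omega) H hRS hX hY

open Classical in
/-- **A finite family of blocking events.** -/
theorem noArm_family : ∃ c₀ : ℝ, 0 < c₀ ∧ ∀ {V Φ κ : Type} [DecidableEq V] [DecidableEq Φ]
    (Q : QC V Φ) (D : Φ → Bool) (J : Finset κ) (R : κ → Finset Φ) (c : κ → ℤ)
    (π : κ → Φ → ℤ × ℤ) (ν : κ → V → ℤ × ℤ) (p : κ → ℤ × ℤ) (r s : κ → ℤ) (X Y : κ → Set V)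
    (S : Finset Φ), (∀ j ∈ J, 0 ≤ r j ∧ r j < s j ∧ s j ≤ 8 * (s j - r j)) →
    (∀ j ∈ J, PCh Q D (R j) (c j) (π j) (ν j)) →
    (∀ j ∈ J, R j ⊆ S) → (∀ j ∈ J, ∀ x ∈ X j, InB (p j) (r j) (ν j x)) →
    (∀ j ∈ J, ∀ y ∈ Y j, OutB (p j) (s j) (ν j y)) →
    c₀ ^ J.card ≤ av S (fun ω => if ∀ j ∈ J, NoArm Q D (R j) (X j) (Y j) ω then (1 : ℝ) else 0) := by
  obtain ⟨c₀, hc, h⟩ := noArm_posR
  refine ⟨c₀, hc, ?_⟩
  intro V Φ κ _ _ Q D J R c π ν p r s X Y S hr H hRS hX hY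
  exact av_harris_events (fun f => !D f) S J (fun j ω => NoArm Q D (R j) (X j) (Y j) ω)
    (fun j hj ω ω' hω hh => hh.up hω) hc.le
    (fun j hj => h Q D (R j) (c j) (π j) (ν j) (p j) (r j) (s j) (X j) (Y j) S (hr j hj).1
      (hr j hj).2.1 (hr j hj).2.2 (H j hj) (hRS j hj) (hX j hj) (hY j hj))

/-! ## Rings -/

/-- The ring `R` between the core `C` and the outer faces `E` is blocked. -/
def Ring (Q : QC V Φ) (D : Φ → Bool) (C R E : Finset Φ) (ω : Φ → Bool) : Prop :=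
  NoArm Q D R (Ends (dE Q C ∩ dE Q R)) (Ends (dE Q E ∩ dE Q R)) ω

/-- Chart of a ring. -/
structure RingCh (Q : QC V Φ) (D : Φ → Bool) (C R E : Finset Φ) (c : ℤ) (π : Φ → ℤ × ℤ)
    (ν : V → ℤ × ℤ) (p : ℤ × ℤ) (r s : ℤ) : Prop extends PCh Q D R c π ν where
  rad : 0 ≤ r ∧ r < s ∧ s ≤ 8 * (s - r)
  inn : ∀ a ∈ dE Q C, a ∈ dE Q R → InB p r (ν a.1) ∧ InB p r (ν a.2)
  out : ∀ a ∈ dE Q E, a ∈ dE Q R → OutB p s (ν a.1) ∧ OutB p s (ν a.2)

variable {C E : Finset Φ}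

theorem Ring.congr (hω : ∀ f ∈ R, ω f = ω' f) : Ring Q D C R E ω ↔ Ring Q D C R E ω' :=
  NoArm.congr hω

theorem Ring.up (hω : ∀ f, ω f = (!D f) → ω' f = !D f) (h : Ring Q D C R E ω) :
    Ring Q D C R E ω' := NoArm.up hω h

section ring

variable {c : ℤ} {π : Φ → ℤ × ℤ} {ν : V → ℤ × ℤ} {p : ℤ × ℤ} {r s : ℤ}

theorem RingCh.blk (H : RingCh Q D C R E c π ν p r s) (h : Ring Q D C R E ω) :
    Rel.Blk Q R ω (dE Q C) (dE Q E) := H.toPCh.blk_of_noArm h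

theorem RingCh.inX (H : RingCh Q D C R E c π ν p r s) :
    ∀ x ∈ Ends (dE Q C ∩ dE Q R), InB p r (ν x) := by
  rintro x ⟨a, ha, h⟩
  obtain ⟨h1, h2⟩ := Finset.mem_inter.mp ha
  rcases h with rfl | rfl
  · exact (H.inn a h1 h2).1
  · exact (H.inn a h1 h2).2

theorem RingCh.outY (H : RingCh Q D C R E c π ν p r s) :
    ∀ y ∈ Ends (dE Q E ∩ dE Q R), OutB p s (ν y) := by
  rintro x ⟨a, ha, h⟩
  obtain ⟨h1, h2⟩ := Finset.mem_inter.mp ha
  rcases h with rfl | rfl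
  · exact (H.out a h1 h2).1
  · exact (H.out a h1 h2).2

end ring

open Classical in
theorem dep_ring : Dep (R : Set Φ) (fun ω => if Ring Q D C R E ω then (1 : ℝ) else 0) := dep_noArm

open Classical in
/-- **A finite family of blocked rings** has probability at least `c₀ ^ m`. -/
theorem ring_family : ∃ c₀ : ℝ, 0 < c₀ ∧ ∀ {V Φ κ : Type} [DecidableEq V] [DecidableEq Φ]
    (Q : QC V Φ) (D : Φ → Bool) (J : Finset κ) (C R E : κ → Finset Φ) (c : κ → ℤ)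
    (π : κ → Φ → ℤ × ℤ) (ν : κ → V → ℤ × ℤ) (p : κ → ℤ × ℤ) (r s : κ → ℤ) (S : Finset Φ),
    (∀ j ∈ J, RingCh Q D (C j) (R j) (E j) (c j) (π j) (ν j) (p j) (r j) (s j)) →
    (∀ j ∈ J, R j ⊆ S) →
    c₀ ^ J.card ≤ av S (fun ω => if ∀ j ∈ J, Ring Q D (C j) (R j) (E j) ω then (1 : ℝ) else 0) := by
  obtain ⟨c₀, hc, h⟩ := noArm_family
  refine ⟨c₀, hc, ?_⟩
  intro V Φ κ _ _ Q D J C R E c π ν p r s S H hRS
  exact h Q D J R c π ν p r s (fun j => Ends (dE Q (C j) ∩ dE Q (R j)))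
    (fun j => Ends (dE Q (E j) ∩ dE Q (R j))) S (fun j hj => (H j hj).rad)
    (fun j hj => (H j hj).toPCh) hRS (fun j hj => (H j hj).inX) (fun j hj => (H j hj).outY)

/-- No strand of `C ∪ R ∪ E` meets `C` and `E`. -/
theorem conf_of_blk (hCE : Disjoint (dE Q C) (dE Q E)) (hb : Rel.Blk Q R ω (dE Q C) (dE Q E))
    (ha : a ∈ dE Q C) : (∀ b, SRel Q (C ∪ R ∪ E) ω a b → b ∉ dE Q E) ∧
      dst Q (C ∪ R ∪ E) ω a = dst Q (C ∪ R) ω a := by
  have h1 : ∀ b, SRel Q (C ∪ R) ω a b → b ∉ dE Q E := fun b h =>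
    Rel.no_cross (fun d hd => swap_mem_dE.mpr hd) hCE hb h ha
  have hsub : dE Q ((C ∪ R ∪ E) \ (C ∪ R)) ⊆ dE Q E := by
    apply Rel.dE_mono
    intro f hf
    obtain ⟨h1, h2⟩ := Finset.mem_sdiff.mp hf
    rcases Finset.mem_union.mp h1 with h3 | h3
    · exact absurd h3 h2
    · exact h3
  have haE : a ∈ dE Q (C ∪ R) := Rel.dE_mono Finset.subset_union_left ha
  have h2 : ∀ b ∈ dst Q (C ∪ R) ω a, b ∉ dE Q ((C ∪ R ∪ E) \ (C ∪ R)) := fun b hb' hb2 =>
    h1 b (mem_dst.mp hb').2 (hsub hb2)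
  exact ⟨fun b hab => h1 b ((Rel.srel_sub Finset.subset_union_left h2 haE).mp hab),
    Rel.dst_sub Finset.subset_union_left h2 haE⟩

section ring

variable {c : ℤ} {π : Φ → ℤ × ℤ} {ν : V → ℤ × ℤ} {p : ℤ × ℤ} {r s : ℤ}

/-- **Confinement**: on a blocked ring no strand meets the core and the outer faces. -/
theorem RingCh.conf (H : RingCh Q D C R E c π ν p r s) (hCE : Disjoint (dE Q C) (dE Q E))
    (h : Ring Q D C R E ω) (ha : a ∈ dE Q C) (hab : SRel Q (C ∪ R ∪ E) ω a b) : b ∉ dE Q E :=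
  (conf_of_blk hCE (H.blk h) ha).1 b hab

theorem RingCh.dst_eq (H : RingCh Q D C R E c π ν p r s) (hCE : Disjoint (dE Q C) (dE Q E))
    (h : Ring Q D C R E ω) (ha : a ∈ dE Q C) :
    dst Q (C ∪ R ∪ E) ω a = dst Q (C ∪ R) ω a := (conf_of_blk hCE (H.blk h) ha).2

end ring

/-- A strand of `R` from `A` to `B` visits a set of faces which separates `A` from `B`. -/
theorem meets_sep {RA RB N : Finset Φ} (hR : R ⊆ RA ∪ RB ∪ N) (hAB : Disjoint (dE Q RA) (dE Q RB))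
    (hA : ∀ a ∈ A, a ∉ dE Q RB) (hB : ∀ b ∈ B, b ∉ dE Q RA) (hdis : Disjoint A B)
    (ha : a ∈ A) (hb : b ∈ B) (h : ReflTransGen (Nx Q ω (R : Set Φ)) a b) :
    ∃ x, ReflTransGen (Nx Q ω (R : Set Φ)) a x ∧ x ∈ dE Q (R ∩ N) := by
  by_contra hcon
  push Not at hcon
  -- all sides of the strand, from `a` on, are `a` itself or sides of `RA`
  have key : ∀ x, ReflTransGen (Nx Q ω (R : Set Φ)) a x → x = a ∨ x ∈ dE Q RA := by
    intro x hx
    induction hx with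
    | refl => exact Or.inl rfl
    | tail h1 h2 ih =>
      rename_i x y
      obtain ⟨f, hf, k, e1, e2⟩ := h2
      have hf' := Finset.mem_coe.mp hf
      have hxf : x ∈ dE Q {f} := Nx.left_mem (ω := ω) (F := {f}) ⟨f, by simp, k, e1, e2⟩
      have hyf : y ∈ dE Q {f} := Nx.right_mem (ω := ω) (F := {f}) ⟨f, by simp, k, e1, e2⟩
      have hsub : ∀ {T : Finset Φ}, f ∈ T → dE Q {f} ⊆ dE Q T := fun hT =>
        Rel.dE_mono (by simpa using hT)
      rcases Finset.mem_union.mp (hR hf') with h3 | h3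
      · rcases Finset.mem_union.mp h3 with h4 | h4
        · exact Or.inr (hsub h4 hyf)
        · exfalso
          rcases ih with h5 | h5
          · rw [h5] at hxf
            exact hA a ha (hsub h4 hxf)
          · exact Finset.disjoint_left.mp hAB h5 (hsub h4 hxf)
      · exact absurd (hsub (Finset.mem_inter.mpr ⟨hf', h3⟩) hxf) (hcon x h1)
  rcases key b h with h1 | h1
  · rw [h1] at hb
    exact Finset.disjoint_left.mp hdis ha hb
  · exact hB b hb h1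

/-- **A net of blocked rings** stops the strands of `R` from `A` to `B`. `R = C j ∪ Rg j ∪ E j` for all `j`, the
cores separate `A` from `B`, and `A` is in the outer part of every ring. -/
theorem blk_net {κ : Type} {J : Finset κ} {C Rg E : κ → Finset Φ} {RA RB : Finset Φ}
    (hR : ∀ f ∈ R, f ∈ RA ∨ f ∈ RB ∨ ∃ j ∈ J, f ∈ C j) (hAB : Disjoint (dE Q RA) (dE Q RB))
    (hA : ∀ a ∈ A, a ∉ dE Q RB) (hB : ∀ b ∈ B, b ∉ dE Q RA) (hdis : Disjoint A B)
    (hAs : ∀ a ∈ A, a.swap ∈ A) (hBs : ∀ b ∈ B, b.swap ∈ B)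
    (hdec : ∀ j ∈ J, R = C j ∪ Rg j ∪ E j) (hCE : ∀ j ∈ J, Disjoint (dE Q (C j)) (dE Q (E j)))
    (hAE : ∀ j ∈ J, ∀ a ∈ A, a ∈ dE Q R → a ∈ dE Q (E j))
    (hblk : ∀ j ∈ J, Rel.Blk Q (Rg j) ω (dE Q (C j)) (dE Q (E j))) : Rel.Blk Q R ω A B := by
  classical
  have fwd : ∀ a ∈ A, ∀ b ∈ B, a ∈ dE Q R → ¬ ReflTransGen (Nx Q ω (R : Set Φ)) a b := by
    intro a ha b hb haR h
    obtain ⟨x, hx, hxN⟩ := meets_sep (N := J.biUnion C) (fun f hf => by
      rcases hR f hf with h1 | h1 | ⟨j, hj, h1⟩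
      · exact Finset.mem_union_left _ (Finset.mem_union_left _ h1)
      · exact Finset.mem_union_left _ (Finset.mem_union_right _ h1)
      · exact Finset.mem_union_right _ (Finset.mem_biUnion.mpr ⟨j, hj, h1⟩)) hAB hA hB hdis ha hb h
    obtain ⟨f, hf, k, hk⟩ := mem_dE.mp hxN
    obtain ⟨-, h2⟩ := Finset.mem_inter.mp hf
    obtain ⟨j, hj, h3⟩ := Finset.mem_biUnion.mp h2
    have hxC : x ∈ dE Q (C j) := mem_dE.mpr ⟨f, h3, k, hk⟩
    have h4 : SRel Q (C j ∪ Rg j ∪ E j) ω x a := by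
      rw [← hdec j hj]
      exact EqvGen.symm _ _ (Rel.rtg_srel hx)
    exact (conf_of_blk (hCE j hj) (hblk j hj) hxC).1 a h4 (hAE j hj a ha haR)
  intro a ha b hb haR hbR hs
  rcases srel_iff.mp hs with h | h
  · exact fwd a ha b hb haR h
  · exact fwd a.swap (hAs a ha) b.swap (hBs b hb) (swap_mem_dE.mpr haR) (Rel.rtg_rev h)

end

end Pool.Agent.SixB.Bk
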