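import Pool.Agent.Lib.SixB.S3Defs
import Pool.Agent.Lib.SixB.S3Blk

/-!
# 6BD step 3: planar geometry of the chart regions `Wdg`, `Mth`

* `bh f k`: the face behind the side `k` of `f`; `sd_bS_iff : sd ZQ f k ∈ bS ZQ F ↔ f ∈ F ∧ bh f k ∉ F`.
* `bS_Wdg`: a boundary side of `Wdg m o v r` is in `wIn (o + m) v r`, in `wOut o v r`, or on the boundary of the box.
* `bS_Mth`: a boundary side of `Mth` is in one of the walls `mthWall`, on the outer boundary of the half box, or at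
  the open end of the tube.
* `PChart.pi`, `PChart.nu`: the inverse maps of a chart; `PChart.pch`: the chart as `Bk.PCh`;
  `PChart.mem_dE_image`, `PChart.bS_image`, `PChart.image_sdiff`: images of planar sets of faces.
-/

set_option autoImplicit false
set_option linter.unusedSectionVars false
set_option linter.unnecessarySeqFocus false

namespace Pool.Agent.SixB

open Pool.Agent.Perc.Q Relation

noncomputable section

namespace WG

/-- the face behind the side `k` of `f` -/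
def bh (f : ℤ × ℤ) (k : ZMod 4) : ℤ × ℤ :=
  if k = 0 then (f.1, f.2 - 1) else if k = 1 then (f.1 + 1, f.2) else if k = 2 then (f.1, f.2 + 1)
    else (f.1 - 1, f.2)

theorem k_cases (k : ZMod 4) : k = 0 ∨ k = 1 ∨ k = 2 ∨ k = 3 := by revert k; decide

theorem bh0 (f : ℤ × ℤ) : bh f 0 = (f.1, f.2 - 1) := rfl
theorem bh1 (f : ℤ × ℤ) : bh f 1 = (f.1 + 1, f.2) := rfl
theorem bh2 (f : ℤ × ℤ) : bh f 2 = (f.1, f.2 + 1) := rfl
theorem bh3 (f : ℤ × ℤ) : bh f 3 = (f.1 - 1, f.2) := rfl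

theorem c0 (f : ℤ × ℤ) : ZQ.c f 0 = (f.1, f.2) := rfl
theorem c1 (f : ℤ × ℤ) : ZQ.c f 1 = (f.1 + 1, f.2) := rfl
theorem c2 (f : ℤ × ℤ) : ZQ.c f 2 = (f.1 + 1, f.2 + 1) := rfl
theorem c3 (f : ℤ × ℤ) : ZQ.c f 3 = (f.1, f.2 + 1) := rfl

theorem sd0 (f : ℤ × ℤ) : sd ZQ f 0 = ((f.1, f.2), (f.1 + 1, f.2)) := rfl
theorem sd1 (f : ℤ × ℤ) : sd ZQ f 1 = ((f.1 + 1, f.2), (f.1 + 1, f.2 + 1)) := rfl
theorem sd2 (f : ℤ × ℤ) : sd ZQ f 2 = ((f.1 + 1, f.2 + 1), (f.1, f.2 + 1)) := rfl
theorem sd3 (f : ℤ × ℤ) : sd ZQ f 3 = ((f.1, f.2 + 1), (f.1, f.2)) := rfl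

/-- the side of the face behind -/
theorem sd_bh (f : ℤ × ℤ) (k : ZMod 4) : sd ZQ (bh f k) (k + 2) = (sd ZQ f k).swap := by
  rcases k_cases k with rfl | rfl | rfl | rfl
  · rw [show (0 : ZMod 4) + 2 = 2 from rfl, sd2, sd0, bh0]
    simp
  · rw [show (1 : ZMod 4) + 2 = 3 from rfl, sd3, sd1, bh1]
    simp
  · rw [show (2 : ZMod 4) + 2 = 0 from rfl, sd0, sd2, bh2]
    simp
  · rw [show (3 : ZMod 4) + 2 = 1 from rfl, sd1, sd3, bh3]
    simp

theorem sd_bS_iff {F : Finset (ℤ × ℤ)} {f : ℤ × ℤ} {k : ZMod 4} :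
    sd ZQ f k ∈ bS ZQ F ↔ f ∈ F ∧ bh f k ∉ F := by
  constructor
  · intro h
    obtain ⟨g, hg, l, h1⟩ := bS_sd h
    obtain ⟨rfl, rfl⟩ := sd_inj h1
    refine ⟨hg, fun h2 => ?_⟩
    refine (mem_bS.mp h).2 (bh f k) (Finset.mem_coe.mpr h2) (k + 2) ?_
    have h3 := congrArg Prod.swap (sd_bh f k)
    rw [Prod.swap_swap] at h3
    exact h3.symm
  · rintro ⟨hf, hg⟩
    refine mem_bS.mpr ⟨sd_mem hf k, ?_⟩
    intro g hg' l h1
    apply hg
    have h2 : sd ZQ (bh f k) (k + 2) = sd ZQ g l := by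
      rw [sd_bh, h1]
      rfl
    rw [(sd_inj h2).1]
    exact Finset.mem_coe.mp hg'

theorem mem_Bx {v : ℤ × ℤ} {r : ℕ} {f : ℤ × ℤ} :
    f ∈ Bx v r ↔ (v.1 - r ≤ f.1 ∧ f.1 < v.1 + r) ∧ v.2 - r ≤ f.2 ∧ f.2 < v.2 + r := by
  unfold Bx
  rw [Finset.mem_product, Finset.mem_Ico, Finset.mem_Ico]

theorem mem_Wdg {m : ℕ} {o : ZMod 4} {v : ℤ × ℤ} {r : ℕ} {f : ℤ × ℤ} :
    f ∈ Wdg m o v r ↔ f ∈ Bx v r ∧ (quad v f - o).val < m := by
  unfold Wdg
  rw [Finset.mem_filter]

theorem Bx_mono {v : ℤ × ℤ} {r s : ℕ} (h : r ≤ s) : Bx v r ⊆ Bx v s := by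
  intro f hf
  rw [mem_Bx] at hf ⊢
  omega

theorem Wdg_mono {m : ℕ} {o : ZMod 4} {v : ℤ × ℤ} {r s : ℕ} (h : r ≤ s) :
    Wdg m o v r ⊆ Wdg m o v s := by
  intro f hf
  rw [mem_Wdg] at hf ⊢
  exact ⟨Bx_mono h hf.1, hf.2⟩

theorem wIn_mono {e : ZMod 4} {v : ℤ × ℤ} {r s : ℕ} (h : r ≤ s) : wIn e v r ⊆ wIn e v s :=
  Finset.image_subset_image (Finset.range_subset_range.mpr h)

theorem wOut_mono {e : ZMod 4} {v : ℤ × ℤ} {r s : ℕ} (h : r ≤ s) : wOut e v r ⊆ wOut e v s :=
  Finset.image_subset_image (Finset.range_subset_range.mpr h)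

theorem mem_wOut {e : ZMod 4} {v : ℤ × ℤ} {r : ℕ} {a : (ℤ × ℤ) × (ℤ × ℤ)} (t : ℤ) (h0 : 0 ≤ t)
    (h1 : t < r) (ha : a = (v + t • dz e, v + (t + 1) • dz e)) : a ∈ wOut e v r := by
  obtain ⟨n, rfl⟩ := Int.eq_ofNat_of_zero_le h0
  exact Finset.mem_image.mpr ⟨n, Finset.mem_range.mpr (by omega), ha.symm⟩

theorem mem_wIn {e : ZMod 4} {v : ℤ × ℤ} {r : ℕ} {a : (ℤ × ℤ) × (ℤ × ℤ)} (t : ℤ) (h0 : 0 ≤ t)
    (h1 : t < r) (ha : a = (v + (t + 1) • dz e, v + t • dz e)) : a ∈ wIn e v r := by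
  obtain ⟨n, rfl⟩ := Int.eq_ofNat_of_zero_le h0
  exact Finset.mem_image.mpr ⟨n, Finset.mem_range.mpr (by omega), ha.symm⟩

theorem dz0 : dz 0 = (1, 0) := rfl
theorem dz1 : dz 1 = (0, 1) := rfl
theorem dz2 : dz 2 = (-1, 0) := rfl
theorem dz3 : dz 3 = (0, -1) := rfl

/-- the first quadrant of the wedge -/
theorem q_lo {m : ℕ} (hm : 1 ≤ m ∧ m ≤ 3) {o q q' : ZMod 4} (hq : q' = q - 1)
    (h1 : (q - o).val < m) (h2 : ¬ (q' - o).val < m) : o = q := by
  subst hq
  obtain rfl | rfl | rfl : m = 1 ∨ m = 2 ∨ m = 3 := by omega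
  all_goals revert o q; decide

/-- the last quadrant of the wedge -/
theorem q_hi {m : ℕ} (hm : 1 ≤ m ∧ m ≤ 3) {o q q' : ZMod 4} (hq : q' = q + 1)
    (h1 : (q - o).val < m) (h2 : ¬ (q' - o).val < m) : o + m = q' := by
  subst hq
  obtain rfl | rfl | rfl : m = 1 ∨ m = 2 ∨ m = 3 := by omega
  all_goals revert o q; decide

theorem quad0 {v f : ℤ × ℤ} (h1 : v.1 ≤ f.1) (h2 : v.2 ≤ f.2) : quad v f = 0 := by
  unfold quad
  rw [if_pos h1, if_pos h2]
theorem quad1 {v f : ℤ × ℤ} (h1 : f.1 < v.1) (h2 : v.2 ≤ f.2) : quad v f = 1 := by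
  unfold quad
  rw [if_neg (by omega), if_pos h2]
theorem quad2 {v f : ℤ × ℤ} (h1 : f.1 < v.1) (h2 : f.2 < v.2) : quad v f = 2 := by
  unfold quad
  rw [if_neg (by omega), if_neg (by omega)]
theorem quad3 {v f : ℤ × ℤ} (h1 : v.1 ≤ f.1) (h2 : f.2 < v.2) : quad v f = 3 := by
  unfold quad
  rw [if_pos h1, if_neg (by omega)]

/-- on the boundary of the box or outside -/
def Ob (v : ℤ × ℤ) (r : ℕ) (a : (ℤ × ℤ) × (ℤ × ℤ)) : Prop :=
  Bk.OutB v r a.1 ∧ Bk.OutB v r a.2

/-- **The boundary sides of a wedge.** -/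
theorem sd_Wdg {m : ℕ} (hm : 1 ≤ m ∧ m ≤ 3) {o : ZMod 4} {v : ℤ × ℤ} {r : ℕ} {f : ℤ × ℤ}
    {k : ZMod 4} (hf : f ∈ Wdg m o v r) (hg : bh f k ∉ Wdg m o v r) :
    sd ZQ f k ∈ wIn (o + m) v r ∨ sd ZQ f k ∈ wOut o v r ∨ Ob v r (sd ZQ f k) := by
  obtain ⟨x, y⟩ := f
  obtain ⟨a, b⟩ := v
  rw [mem_Wdg, mem_Bx] at hf
  rw [mem_Wdg, mem_Bx, not_and_or] at hg
  obtain ⟨hf1, hf2⟩ := hf
  unfold Ob Bk.OutB
  dsimp only at *
  rcases k_cases k with rfl | rfl | rfl | rfl
  · rw [bh0] at hg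
    rw [sd0]
    dsimp only at *
    rcases hg with hg | hg
    · right; right; omega
    by_cases hy : b ≤ y - 1
    · exfalso
      apply hg
      by_cases hx : a ≤ x
      · rw [quad0 hx (by dsimp only; omega)] at hf2
        rwa [quad0 hx hy]
      · rw [quad1 (by dsimp only; omega) (by dsimp only; omega)] at hf2
        rwa [quad1 (by dsimp only; omega) hy]
    by_cases hy' : b ≤ y
    · have hyb : y = b := by omega
      by_cases hx : a ≤ x
      · rw [quad0 hx hy'] at hf2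
        rw [quad3 hx (by dsimp only; omega)] at hg
        have ho := q_lo hm (q := 0) (q' := 3) (by decide) hf2 hg
        right; left
        rw [ho]
        refine mem_wOut (x - a) (by omega) (by omega) ?_
        rw [dz0]
        ext <;> simp [hyb] <;> ring
      · rw [quad1 (by dsimp only; omega) hy'] at hf2
        rw [quad2 (by dsimp only; omega) (by dsimp only; omega)] at hg
        have ho := q_hi hm (q := 1) (q' := 2) (by decide) hf2 hg
        left
        rw [ho]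
        refine mem_wIn (a - x - 1) (by omega) (by omega) ?_
        rw [dz2]
        ext <;> simp [hyb] <;> ring
    · exfalso
      apply hg
      by_cases hx : a ≤ x
      · rw [quad3 hx (by dsimp only; omega)] at hf2
        rwa [quad3 hx (by dsimp only; omega)]
      · rw [quad2 (by dsimp only; omega) (by dsimp only; omega)] at hf2
        rwa [quad2 (by dsimp only; omega) (by dsimp only; omega)]
  · rw [bh1] at hg
    rw [sd1]
    dsimp only at *
    rcases hg with hg | hg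
    · right; right; omega
    by_cases hx : a ≤ x
    · exfalso
      apply hg
      by_cases hy : b ≤ y
      · rw [quad0 hx hy] at hf2
        rwa [quad0 (by dsimp only; omega) hy]
      · rw [quad3 hx (by dsimp only; omega)] at hf2
        rwa [quad3 (by dsimp only; omega) (by dsimp only; omega)]
    by_cases hx' : a ≤ x + 1
    · have hxa : x = a - 1 := by omega
      by_cases hy : b ≤ y
      · rw [quad1 (by dsimp only; omega) hy] at hf2
        rw [quad0 hx' hy] at hg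
        have ho := q_lo hm (q := 1) (q' := 0) (by decide) hf2 hg
        right; left
        rw [ho]
        refine mem_wOut (y - b) (by omega) (by omega) ?_
        rw [dz1]
        ext <;> simp [hxa] <;> ring
      · rw [quad2 (by dsimp only; omega) (by dsimp only; omega)] at hf2
        rw [quad3 hx' (by dsimp only; omega)] at hg
        have ho := q_hi hm (q := 2) (q' := 3) (by decide) hf2 hg
        left
        rw [ho]
        refine mem_wIn (b - y - 1) (by omega) (by omega) ?_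
        rw [dz3]
        ext <;> simp [hxa] <;> ring
    · exfalso
      apply hg
      by_cases hy : b ≤ y
      · rw [quad1 (by dsimp only; omega) hy] at hf2
        rwa [quad1 (by dsimp only; omega) hy]
      · rw [quad2 (by dsimp only; omega) (by dsimp only; omega)] at hf2
        rwa [quad2 (by dsimp only; omega) (by dsimp only; omega)]
  · rw [bh2] at hg
    rw [sd2]
    dsimp only at *
    rcases hg with hg | hg
    · right; right; omega
    by_cases hy : b ≤ y
    · exfalso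
      apply hg
      by_cases hx : a ≤ x
      · rw [quad0 hx hy] at hf2
        rwa [quad0 hx (by dsimp only; omega)]
      · rw [quad1 (by dsimp only; omega) hy] at hf2
        rwa [quad1 (by dsimp only; omega) (by dsimp only; omega)]
    by_cases hy' : b ≤ y + 1
    · have hyb : y = b - 1 := by omega
      by_cases hx : a ≤ x
      · rw [quad3 hx (by dsimp only; omega)] at hf2
        rw [quad0 hx hy'] at hg
        have ho := q_hi hm (q := 3) (q' := 0) (by decide) hf2 hg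
        left
        rw [ho]
        refine mem_wIn (x - a) (by omega) (by omega) ?_
        rw [dz0]
        ext <;> simp [hyb] <;> ring
      · rw [quad2 (by dsimp only; omega) (by dsimp only; omega)] at hf2
        rw [quad1 (by dsimp only; omega) hy'] at hg
        have ho := q_lo hm (q := 2) (q' := 1) (by decide) hf2 hg
        right; left
        rw [ho]
        refine mem_wOut (a - x - 1) (by omega) (by omega) ?_
        rw [dz2]
        ext <;> simp [hyb] <;> ring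
    · exfalso
      apply hg
      by_cases hx : a ≤ x
      · rw [quad3 hx (by dsimp only; omega)] at hf2
        rwa [quad3 hx (by dsimp only; omega)]
      · rw [quad2 (by dsimp only; omega) (by dsimp only; omega)] at hf2
        rwa [quad2 (by dsimp only; omega) (by dsimp only; omega)]
  · rw [bh3] at hg
    rw [sd3]
    dsimp only at *
    rcases hg with hg | hg
    · right; right; omega
    by_cases hx : a ≤ x - 1
    · exfalso
      apply hg
      by_cases hy : b ≤ y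
      · rw [quad0 (by dsimp only; omega) hy] at hf2
        rwa [quad0 hx hy]
      · rw [quad3 (by dsimp only; omega) (by dsimp only; omega)] at hf2
        rwa [quad3 hx (by dsimp only; omega)]
    by_cases hx' : a ≤ x
    · have hxa : x = a := by omega
      by_cases hy : b ≤ y
      · rw [quad0 hx' hy] at hf2
        rw [quad1 (by dsimp only; omega) hy] at hg
        have ho := q_hi hm (q := 0) (q' := 1) (by decide) hf2 hg
        left
        rw [ho]
        refine mem_wIn (y - b) (by omega) (by omega) ?_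
        rw [dz1]
        ext <;> simp [hxa] <;> ring
      · rw [quad3 hx' (by dsimp only; omega)] at hf2
        rw [quad2 (by dsimp only; omega) (by dsimp only; omega)] at hg
        have ho := q_lo hm (q := 3) (q' := 2) (by decide) hf2 hg
        right; left
        rw [ho]
        refine mem_wOut (b - y - 1) (by omega) (by omega) ?_
        rw [dz3]
        ext <;> simp [hxa] <;> ring
    · exfalso
      apply hg
      by_cases hy : b ≤ y
      · rw [quad1 (by dsimp only; omega) hy] at hf2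
        rwa [quad1 (by dsimp only; omega) hy]
      · rw [quad2 (by dsimp only; omega) (by dsimp only; omega)] at hf2
        rwa [quad2 (by dsimp only; omega) (by dsimp only; omega)]

theorem bS_Wdg {m : ℕ} (hm : 1 ≤ m ∧ m ≤ 3) {o : ZMod 4} {v : ℤ × ℤ} {r : ℕ}
    {a : (ℤ × ℤ) × (ℤ × ℤ)} (ha : a ∈ bS ZQ (Wdg m o v r)) :
    a ∈ wIn (o + m) v r ∨ a ∈ wOut o v r ∨ Ob v r a := by
  obtain ⟨f, hf, k, rfl⟩ := bS_sd ha
  exact sd_Wdg hm hf (sd_bS_iff.mp ha).2

/-- the corners of the faces of a box are in the closed box -/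
theorem cor_Bx {v : ℤ × ℤ} {r : ℕ} {f : ℤ × ℤ} (hf : f ∈ Bx v r) (k : ZMod 4) :
    Bk.InB v r (ZQ.c f k) := by
  rw [mem_Bx] at hf
  unfold Bk.InB
  rcases k_cases k with rfl | rfl | rfl | rfl
  · rw [c0]; dsimp only; omega
  · rw [c1]; dsimp only; omega
  · rw [c2]; dsimp only; omega
  · rw [c3]; dsimp only; omega

theorem mem_Wdg2_1 {v : ℤ × ℤ} {r : ℕ} {f : ℤ × ℤ} :
    f ∈ Wdg 2 1 v r ↔ (v.1 - r ≤ f.1 ∧ f.1 < v.1) ∧ v.2 - r ≤ f.2 ∧ f.2 < v.2 + r := by
  rw [mem_Wdg, mem_Bx]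
  constructor
  · rintro ⟨h, h1⟩
    by_cases hx : v.1 ≤ f.1
    · exfalso
      by_cases hy : v.2 ≤ f.2
      · rw [quad0 hx hy] at h1
        exact absurd h1 (by decide)
      · rw [quad3 hx (by omega)] at h1
        exact absurd h1 (by decide)
    · omega
  · intro h
    refine ⟨by omega, ?_⟩
    by_cases hy : v.2 ≤ f.2
    · rw [quad1 (by omega) hy]
      decide
    · rw [quad2 (by omega) (by omega)]
      decide

theorem mem_Wdg2_3 {v : ℤ × ℤ} {r : ℕ} {f : ℤ × ℤ} :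
    f ∈ Wdg 2 3 v r ↔ (v.1 ≤ f.1 ∧ f.1 < v.1 + r) ∧ v.2 - r ≤ f.2 ∧ f.2 < v.2 + r := by
  rw [mem_Wdg, mem_Bx]
  constructor
  · rintro ⟨h, h1⟩
    by_cases hx : v.1 ≤ f.1
    · omega
    · exfalso
      by_cases hy : v.2 ≤ f.2
      · rw [quad1 (by omega) hy] at h1
        exact absurd h1 (by decide)
      · rw [quad2 (by omega) (by omega)] at h1
        exact absurd h1 (by decide)
  · intro h
    refine ⟨by omega, ?_⟩
    by_cases hy : v.2 ≤ f.2
    · rw [quad0 (by omega) hy]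
      decide
    · rw [quad3 (by omega) (by omega)]
      decide

theorem mem_Mth_left {v : ℤ × ℤ} {r h l : ℕ} {f : ℤ × ℤ} :
    f ∈ Mth true v r h l ↔
      ((v.1 - r ≤ f.1 ∧ f.1 < v.1) ∧ v.2 - r ≤ f.2 ∧ f.2 < v.2 + r) ∨
      ((v.1 ≤ f.1 ∧ f.1 < v.1 + l) ∧ v.2 - h ≤ f.2 ∧ f.2 < v.2 + h) := by
  unfold Mth
  rw [if_pos rfl, Finset.mem_union, mem_Wdg2_1, Finset.mem_product, Finset.mem_Ico, Finset.mem_Ico]

theorem mem_Mth_right {v : ℤ × ℤ} {r h l : ℕ} {f : ℤ × ℤ} :
    f ∈ Mth false v r h l ↔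
      ((v.1 ≤ f.1 ∧ f.1 < v.1 + r) ∧ v.2 - r ≤ f.2 ∧ f.2 < v.2 + r) ∨
      ((v.1 - l ≤ f.1 ∧ f.1 < v.1) ∧ v.2 - h ≤ f.2 ∧ f.2 < v.2 + h) := by
  unfold Mth
  rw [if_neg (by simp), Finset.mem_union, mem_Wdg2_3, Finset.mem_product, Finset.mem_Ico,
    Finset.mem_Ico]

theorem Mth_mono {left : Bool} {v : ℤ × ℤ} {r s h l l' : ℕ} (h1 : r ≤ s) (h2 : l ≤ l') :
    Mth left v r h l ⊆ Mth left v s h l' := by
  intro f hf
  cases left
  · rw [mem_Mth_right] at hf ⊢
    omega
  · rw [mem_Mth_left] at hf ⊢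
    omega

/-- the open end of the tube -/
def Te (left : Bool) (v : ℤ × ℤ) (h l : ℕ) (a : (ℤ × ℤ) × (ℤ × ℤ)) : Prop :=
  if left then (a.1.1 = v.1 + l ∧ a.2.1 = v.1 + l) ∧
      (v.2 - h ≤ a.1.2 ∧ a.1.2 ≤ v.2 + h) ∧ v.2 - h ≤ a.2.2 ∧ a.2.2 ≤ v.2 + h
  else (a.1.1 = v.1 - l ∧ a.2.1 = v.1 - l) ∧
      (v.2 - h ≤ a.1.2 ∧ a.1.2 ≤ v.2 + h) ∧ v.2 - h ≤ a.2.2 ∧ a.2.2 ≤ v.2 + h

/-- the outer boundary of the half box -/
def Hb (left : Bool) (v : ℤ × ℤ) (r : ℕ) (a : (ℤ × ℤ) × (ℤ × ℤ)) : Prop :=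
  Ob v r a ∧ if left then a.1.1 ≤ v.1 ∧ a.2.1 ≤ v.1 else v.1 ≤ a.1.1 ∧ v.1 ≤ a.2.1

/-- **The boundary sides of the region of a mouth.** -/
theorem sd_Mth {left : Bool} {v : ℤ × ℤ} {r h l : ℕ} (hh : h ≤ r) {f : ℤ × ℤ}
    {k : ZMod 4} (hf : f ∈ Mth left v r h l) (hg : bh f k ∉ Mth left v r h l) :
    (∃ i, sd ZQ f k ∈ mthWall left v r h l i) ∨ Hb left v r (sd ZQ f k) ∨
      Te left v h l (sd ZQ f k) := by
  obtain ⟨x, y⟩ := f
  obtain ⟨a, b⟩ := v
  unfold Hb Ob Bk.OutB Te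
  cases left
  · rw [mem_Mth_right] at hf hg
    dsimp only at *
    rcases k_cases k with rfl | rfl | rfl | rfl
    · rw [bh0] at hg
      rw [sd0]
      dsimp only at *
      rcases hf with hf | hf
      · right; left
        refine ⟨by omega, ?_⟩
        simp
        omega
      · left
        refine ⟨2, ?_⟩
        show _ ∈ wOut 0 (a - l, b - h) l
        refine mem_wOut (x - (a - l)) (by omega) (by omega) ?_
        rw [dz0]
        ext <;> simp <;> omega
    · rw [bh1] at hg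
      rw [sd1]
      dsimp only at *
      rcases hf with hf | hf
      · right; left
        refine ⟨by omega, ?_⟩
        simp
        omega
      · exfalso
        omega
    · rw [bh2] at hg
      rw [sd2]
      dsimp only at *
      rcases hf with hf | hf
      · right; left
        refine ⟨by omega, ?_⟩
        simp
        omega
      · left
        refine ⟨1, ?_⟩
        show _ ∈ wOut 2 (a, b + h) l
        refine mem_wOut (a - x - 1) (by omega) (by omega) ?_
        rw [dz2]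
        ext <;> simp <;> omega
    · rw [bh3] at hg
      rw [sd3]
      dsimp only at *
      rcases hf with hf | hf
      · by_cases hy : b + h ≤ y
        · left
          refine ⟨0, ?_⟩
          show _ ∈ wOut 3 (a, b + r) (r - h)
          refine mem_wOut (b + r - y - 1) (by omega) (by omega) ?_
          rw [dz3]
          ext <;> simp <;> omega
        by_cases hy2 : y < b - h
        · left
          refine ⟨3, ?_⟩
          show _ ∈ wOut 3 (a, b - h) (r - h)
          refine mem_wOut (b - h - y - 1) (by omega) (by omega) ?_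
          rw [dz3]
          ext <;> simp <;> omega
        · right; right
          simp
          omega
      · right; right
        simp
        omega
  · rw [mem_Mth_left] at hf hg
    dsimp only at *
    rcases k_cases k with rfl | rfl | rfl | rfl
    · rw [bh0] at hg
      rw [sd0]
      dsimp only at *
      rcases hf with hf | hf
      · right; left
        refine ⟨by omega, ?_⟩
        simp
        omega
      · left
        refine ⟨1, ?_⟩
        show _ ∈ wOut 0 (a, b - h) l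
        refine mem_wOut (x - a) (by omega) (by omega) ?_
        rw [dz0]
        ext <;> simp <;> omega
    · rw [bh1] at hg
      rw [sd1]
      dsimp only at *
      rcases hf with hf | hf
      · by_cases hy : b + h ≤ y
        · left
          refine ⟨3, ?_⟩
          show _ ∈ wOut 1 (a, b + h) (r - h)
          refine mem_wOut (y - (b + h)) (by omega) (by omega) ?_
          rw [dz1]
          ext <;> simp <;> omega
        by_cases hy2 : y < b - h
        · left
          refine ⟨0, ?_⟩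
          show _ ∈ wOut 1 (a, b - r) (r - h)
          refine mem_wOut (y - (b - r)) (by omega) (by omega) ?_
          rw [dz1]
          ext <;> simp <;> omega
        · right; right
          simp
          omega
      · right; right
        simp
        omega
    · rw [bh2] at hg
      rw [sd2]
      dsimp only at *
      rcases hf with hf | hf
      · right; left
        refine ⟨by omega, ?_⟩
        simp
        omega
      · left
        refine ⟨2, ?_⟩
        show _ ∈ wOut 2 (a + l, b + h) l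
        refine mem_wOut (a + l - x - 1) (by omega) (by omega) ?_
        rw [dz2]
        ext <;> simp <;> omega
    · rw [bh3] at hg
      rw [sd3]
      dsimp only at *
      rcases hf with hf | hf
      · right; left
        refine ⟨by omega, ?_⟩
        simp
        omega
      · exfalso
        omega

theorem bS_Mth {left : Bool} {v : ℤ × ℤ} {r h l : ℕ} (hh : h ≤ r) {a : (ℤ × ℤ) × (ℤ × ℤ)}
    (ha : a ∈ bS ZQ (Mth left v r h l)) :
    (∃ i, a ∈ mthWall left v r h l i) ∨ Hb left v r a ∨ Te left v h l a := by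
  obtain ⟨f, hf, k, rfl⟩ := bS_sd ha
  exact sd_Mth hh hf (sd_bS_iff.mp ha).2

end WG

/-! ## Charts -/

section charts

variable {V Φ : Type} [DecidableEq V] [DecidableEq Φ] {Q : QC V Φ} {F : Finset Φ}
  {R R₀ R₁ : Finset (ℤ × ℤ)}

namespace PChart

/-- the inverse of the face map -/
def pi (c : PChart Q F R) : Φ → ℤ × ℤ := Function.invFunOn c.φF (R : Set (ℤ × ℤ))

/-- the inverse of the vertex map -/
def nu (c : PChart Q F R) : V → ℤ × ℤ := Function.invFunOn c.φV {p | ∃ f ∈ R, ∃ k, p = ZQ.c f k}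

theorem inj_φF (c : PChart Q F R) {f g : ℤ × ℤ} (hf : f ∈ R) (hg : g ∈ R) (h : c.φF f = c.φF g) :
    f = g := by
  have key : ∀ k, ZQ.c f k = ZQ.c g k := fun k => c.inj f hf g hg k k (by
    rw [← c.cor f hf, ← c.cor g hg, h])
  exact (ZQ.inj (key 0) (key (0 + 1))).1

theorem pi_φF (c : PChart Q F R) {f : ℤ × ℤ} (hf : f ∈ R) : c.pi (c.φF f) = f := by
  have h1 : ∃ g ∈ (R : Set (ℤ × ℤ)), c.φF g = c.φF f := ⟨f, Finset.mem_coe.mpr hf, rfl⟩
  have h2 := Function.invFunOn_mem h1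
  have h3 := Function.invFunOn_eq h1
  exact c.inj_φF (Finset.mem_coe.mp h2) hf h3

theorem nu_φV (c : PChart Q F R) {f : ℤ × ℤ} (hf : f ∈ R) (k : ZMod 4) :
    c.nu (c.φV (ZQ.c f k)) = ZQ.c f k := by
  have h1 : ∃ p ∈ {p | ∃ f ∈ R, ∃ k, p = ZQ.c f k}, c.φV p = c.φV (ZQ.c f k) :=
    ⟨ZQ.c f k, ⟨f, hf, k, rfl⟩, rfl⟩
  have h2 := Function.invFunOn_mem h1
  have h3 := Function.invFunOn_eq h1
  obtain ⟨g, hg, l, h4⟩ := h2
  have h5 : c.nu (c.φV (ZQ.c f k)) = ZQ.c g l := h4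
  rw [h5]
  refine c.inj g hg f hf l k ?_
  rw [← h5]
  exact h3

theorem sd_φF (c : PChart Q F R) {f : ℤ × ℤ} (hf : f ∈ R) (k : ZMod 4) :
    sd Q (c.φF f) k = c.side (sd ZQ f k) := by
  unfold sd side
  rw [c.cor f hf, c.cor f hf]

theorem side_swap (c : PChart Q F R) (a : (ℤ × ℤ) × (ℤ × ℤ)) :
    (c.side a).swap = c.side a.swap := rfl

/-- the chart as a chart of `S3Blk` -/
theorem pch (c : PChart Q F R) (hR : R₁ ⊆ R) {D : Φ → Bool} {cc : ℤ}
    (hD : ∀ f ∈ R₁, D (c.φF f) = !Perc.parD cc f) : Bk.PCh Q D (R₁.image c.φF) cc c.pi c.nu where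
  inj := by
    intro x hx y hy hxy
    obtain ⟨f, hf, rfl⟩ := Finset.mem_image.mp (Finset.mem_coe.mp hx)
    obtain ⟨g, hg, rfl⟩ := Finset.mem_image.mp (Finset.mem_coe.mp hy)
    rw [c.pi_φF (hR hf), c.pi_φF (hR hg)] at hxy
    rw [hxy]
  cor := by
    intro x hx k
    obtain ⟨f, hf, rfl⟩ := Finset.mem_image.mp hx
    rw [c.pi_φF (hR hf), c.cor f (hR hf), c.nu_φV (hR hf)]
  col := by
    intro x hx
    obtain ⟨f, hf, rfl⟩ := Finset.mem_image.mp hx
    rw [c.pi_φF (hR hf), hD f hf]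

theorem image_pi (c : PChart Q F R) (hR : R₁ ⊆ R) : (R₁.image c.φF).image c.pi = R₁ := by
  ext f
  rw [Finset.mem_image]
  constructor
  · rintro ⟨x, hx, rfl⟩
    obtain ⟨g, hg, rfl⟩ := Finset.mem_image.mp hx
    rwa [c.pi_φF (hR hg)]
  · intro hf
    exact ⟨c.φF f, Finset.mem_image_of_mem _ hf, c.pi_φF (hR hf)⟩

theorem image_sdiff (c : PChart Q F R) (hR : R₁ ⊆ R) (h0 : R₀ ⊆ R₁) :
    R₁.image c.φF \ R₀.image c.φF = (R₁ \ R₀).image c.φF := by
  ext x
  rw [Finset.mem_sdiff, Finset.mem_image, Finset.mem_image, Finset.mem_image]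
  constructor
  · rintro ⟨⟨f, hf, rfl⟩, h2⟩
    exact ⟨f, Finset.mem_sdiff.mpr ⟨hf, fun h => h2 ⟨f, h, rfl⟩⟩, rfl⟩
  · rintro ⟨f, hf, rfl⟩
    obtain ⟨h1, h2⟩ := Finset.mem_sdiff.mp hf
    refine ⟨⟨f, h1, rfl⟩, ?_⟩
    rintro ⟨g, hg, h3⟩
    exact h2 (c.inj_φF (hR (h0 hg)) (hR h1) h3 ▸ hg)

theorem image_sub (c : PChart Q F R) (hR : R₁ ⊆ R) : R₁.image c.φF ⊆ F := by
  intro x hx
  obtain ⟨f, hf, rfl⟩ := Finset.mem_image.mp hx
  exact c.sub f (hR hf)

/-- the sides of the image -/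
theorem mem_dE_image (c : PChart Q F R) (hR : R₁ ⊆ R) {a : V × V} :
    a ∈ dE Q (R₁.image c.φF) ↔ ∃ b ∈ dE ZQ R₁, a = c.side b := by
  rw [mem_dE]
  constructor
  · rintro ⟨x, hx, k, h⟩
    obtain ⟨f, hf, rfl⟩ := Finset.mem_image.mp hx
    rw [c.sd_φF (hR hf)] at h
    rcases h with rfl | rfl
    · exact ⟨_, sd_mem hf k, rfl⟩
    · exact ⟨(sd ZQ f k).swap, swap_mem_dE.mpr (sd_mem hf k), rfl⟩
  · rintro ⟨b, hb, rfl⟩
    obtain ⟨f, hf, k, h⟩ := mem_dE.mp hb
    refine ⟨c.φF f, Finset.mem_image_of_mem _ hf, k, ?_⟩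
    rw [c.sd_φF (hR hf)]
    rcases h with rfl | rfl
    · exact Or.inl rfl
    · exact Or.inr rfl

/-- the ends of a side of the image -/
theorem nu_side (c : PChart Q F R) (hR : R₁ ⊆ R) {b : (ℤ × ℤ) × (ℤ × ℤ)} (hb : b ∈ dE ZQ R₁) :
    c.nu (c.side b).1 = b.1 ∧ c.nu (c.side b).2 = b.2 := by
  obtain ⟨f, hf, k, h⟩ := mem_dE.mp hb
  rcases h with rfl | rfl
  · exact ⟨c.nu_φV (hR hf) k, c.nu_φV (hR hf) (k + 1)⟩
  · exact ⟨c.nu_φV (hR hf) (k + 1), c.nu_φV (hR hf) k⟩

/-- the boundary sides of the image are images of boundary sides -/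
theorem bS_image (c : PChart Q F R) (hR : R₁ ⊆ R) {a : V × V} (ha : a ∈ bS Q (R₁.image c.φF)) :
    ∃ b ∈ bS ZQ R₁, a = c.side b := by
  obtain ⟨x, hx, k, rfl⟩ := bS_sd ha
  obtain ⟨f, hf, rfl⟩ := Finset.mem_image.mp hx
  refine ⟨sd ZQ f k, WG.sd_bS_iff.mpr ⟨hf, fun hg => ?_⟩, c.sd_φF (hR hf) k⟩
  have h1 := (mem_bS.mp ha).2 (c.φF (WG.bh f k))
    (Finset.mem_coe.mpr (Finset.mem_image_of_mem _ hg)) (k + 2)
  apply h1
  have h2 : sd Q (c.φF (WG.bh f k)) (k + 2) = (sd Q (c.φF f) k).swap := by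
    rw [c.sd_φF (hR hg), c.sd_φF (hR hf), WG.sd_bh, side_swap]
  have h3 := congrArg Prod.swap h2
  rw [Prod.swap_swap] at h3
  exact h3.symm

end PChart

end charts

end

end Pool.Agent.SixB
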