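import Pool.Agent.Lib.SixB.S3TurnW
import Pool.Agent.Lib.SixB.S3WGeo

/-!
# 6BD step 3, row R4 (4): kinds `e` and `em`

`c : WChart Q F m o v r`, `eC c` = the marked side, `outE c ρ` = the wall `outW c ρ` without it.
* `wdg_wt3`, `e_plane`, `em_plane`: weights in the plane.
* `e_cases`: kind `e`: an arc with the marked side has the weight `0`, the others `±√3`; `e_arc`.
* `em_cases`: kind `em`: an arc over the marked side has the weight `0`, the others `√3`; `em_arc`.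
* `card_e`, `card_em`: the local counts are `sN .e`, `sN .em`.
-/

set_option autoImplicit false
set_option linter.unusedSectionVars false
set_option linter.unusedSimpArgs false
set_option linter.unusedVariables false

namespace Pool.Agent.SixB.S3T

open Pool.Agent.Perc.Q Pool.Agent.Perc Pool.Agent.SixB
open Pool.Agent.SixB.Rel (QChart QMap)
open Pool.Agent.SixB.PC (mv pb)

noncomputable section

/-! ## Kinds `e` and `em` -/

section three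

variable {v : ℤ × ℤ} {o : ZMod 4} {r : ℕ} {a b : (ℤ × ℤ) × (ℤ × ℤ)} {ω : ℤ × ℤ → Bool}

theorem eS_mem (hr : 0 < r) : eS o v ∈ wOut o v r := by
  unfold eS wOut
  refine Finset.mem_image.mpr ⟨0, Finset.mem_range.mpr hr, ?_⟩
  simp

private theorem smul_dz_ne {i : ℤ} (hi : i ≠ 0) (o : ZMod 4) : v + i • dz o ≠ v := by
  intro h
  have h1 : i • dz o = 0 := by simpa using h
  rcases Tilt.k4 o with rfl | rfl | rfl | rfl
  · rw [WG.dz0] at h1; simp at h1; exact hi h1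
  · rw [WG.dz1] at h1; simp at h1; exact hi h1
  · rw [WG.dz2] at h1; simp at h1; exact hi h1
  · rw [WG.dz3] at h1; simp at h1; exact hi h1

/-- the marked side and the rest of its wall in the word -/
theorem sOut_succ (o : ZMod 4) (v : ℤ × ℤ) (r : ℕ) : sOut o v (r + 1) =
    [(eS o v, (o.val : ℤ))] ++ segm id (v + dv (o.val : ℤ)) (o.val : ℤ) r := by
  unfold sOut eS
  rw [segm_succ, (dz_dv o).1]
  rfl

theorem mem_tail {z : ((ℤ × ℤ) × (ℤ × ℤ)) × ℤ}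
    (hz : z ∈ segm id (v + dv (o.val : ℤ)) (o.val : ℤ) r) :
    z.1 ∈ (wOut o v (r + 1)).erase (eS o v) ∧ z.2 = (o.val : ℤ) := by
  obtain ⟨i, hi, rfl⟩ := mem_segmP hz
  refine ⟨?_, rfl⟩
  rw [Finset.mem_erase, ← (dz_dv o).1]
  constructor
  · intro h
    have h1 := (Prod.mk.inj h).1
    have h2 : v + ((i : ℤ) + 1) • dz o = v := by
      have e : v + ((i : ℤ) + 1) • dz o = id (v + dz o + (i : ℤ) • dz o) := by
        simp only [id]
        module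
      rw [e, h1]
    exact smul_dz_ne (by omega) o h2
  · unfold wOut
    refine Finset.mem_image.mpr ⟨i + 1, Finset.mem_range.mpr (by omega), ?_⟩
    simp only [id]
    push_cast
    congr 1 <;> module

theorem tail_mem (ha : a ∈ (wOut o v (r + 1)).erase (eS o v)) :
    (a, (o.val : ℤ)) ∈ segm id (v + dv (o.val : ℤ)) (o.val : ℤ) r := by
  obtain ⟨h1, h2⟩ := Finset.mem_erase.mp ha
  have h3 := mem_wOut.mp h2
  rw [sOut_succ, List.mem_append, List.mem_singleton] at h3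
  rcases h3 with h3 | h3
  · exact absurd (Prod.mk.inj h3).1 h1
  · exact h3

/-- **Weights of the arcs of a flat wedge with a marked side.** -/
theorem wdg_wt3 {ψ : (ℤ × ℤ) × (ℤ × ℤ) → ℝ} {p p₁ p₂ : ℝ} (hr : 0 < r)
    (hp : ∀ a ∈ wIn (o + (2 : ℕ)) v r, ψ a = p) (h1 : ψ (eS o v) = p₁)
    (h2 : ∀ a ∈ (wOut o v r).erase (eS o v), ψ a = p₂) (hab : mate ZQ (Wdg 2 o v r) ω a = b) :
    (a ∈ wIn (o + (2 : ℕ)) v r → b ∈ wIn (o + (2 : ℕ)) v r →
        wt ZQ (Wdg 2 o v r) ω ψ a = Real.sqrt 3) ∧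
      (a ∈ (wOut o v r).erase (eS o v) → b ∈ (wOut o v r).erase (eS o v) →
        wt ZQ (Wdg 2 o v r) ω ψ a = Real.sqrt 3) ∧
      ((a ∈ wIn (o + (2 : ℕ)) v r ∧ b = eS o v ∨ a = eS o v ∧ b ∈ wIn (o + (2 : ℕ)) v r) →
        wt ZQ (Wdg 2 o v r) ω ψ a = Real.sqrt 3 * tJ (p₁ - p)) ∧
      ((a ∈ (wOut o v r).erase (eS o v) ∧ b = eS o v ∨
          a = eS o v ∧ b ∈ (wOut o v r).erase (eS o v)) →
        wt ZQ (Wdg 2 o v r) ω ψ a = Real.sqrt 3 * tJ (p₂ - p₁)) ∧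
      ((a ∈ wIn (o + (2 : ℕ)) v r ∧ b ∈ (wOut o v r).erase (eS o v) ∨
          a ∈ (wOut o v r).erase (eS o v) ∧ b ∈ wIn (o + (2 : ℕ)) v r) →
        wt ZQ (Wdg 2 o v r) ω ψ a = Real.sqrt 3 * tJ (p₂ - p)) := by
  obtain ⟨r, rfl⟩ : ∃ r', r = r' + 1 := ⟨r - 1, by omega⟩
  obtain ⟨N₀, N₂, hD, hN⟩ := disc_wdg (m := 2) (by omega) (by omega) hr o v
  rw [sOut_succ, List.nil_append] at hD
  have hI : ∀ x ∈ sIn 2 o v (r + 1), th ψ x = p + (o.val : ℝ) * (Real.pi / 12) := by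
    intro x hx
    have e := lift_sIn hx
    have hx' : x.1 ∈ wIn (o + (2 : ℕ)) v (r + 1) := by
      rw [mem_wIn (by omega) (by omega), ← e]
      exact hx
    unfold th
    rw [hp _ hx', e]
    push_cast
    ring
  have hE : ∀ x ∈ [(eS o v, (o.val : ℤ))], th ψ x = p₁ + (o.val : ℝ) * (Real.pi / 12) := by
    intro x hx
    rw [List.mem_singleton] at hx
    subst hx
    unfold th
    rw [h1]
    push_cast
    rfl
  have hU : ∀ x ∈ segm id (v + dv (o.val : ℤ)) (o.val : ℤ) r,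
      th ψ x = p₂ + (o.val : ℝ) * (Real.pi / 12) := by
    intro x hx
    obtain ⟨h3, h4⟩ := mem_tail hx
    unfold th
    rw [h2 _ h3, h4]
    push_cast
    rfl
  have dI : ∀ {a}, a ∈ wIn (o + (2 : ℕ)) v (r + 1) → (a, (o.val : ℤ) + (2 : ℕ) - 2) ∈ sIn 2 o v (r + 1) :=
    fun ha => (mem_wIn (by omega) (by omega)).mp ha
  have dE' : ∀ {a}, a = eS o v → (a, (o.val : ℤ)) ∈ [(eS o v, (o.val : ℤ))] := fun ha => by
    rw [ha, List.mem_singleton]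
  -- three splittings of the word
  have k1 : Disc ZQ ((Wdg 2 o v (r + 1) : Finset (ℤ × ℤ)) : Set (ℤ × ℤ))
      (Glued ZQ ((Wdg 2 o v (r + 1) : Finset (ℤ × ℤ)) : Set (ℤ × ℤ)))
      (N₀ ++ (sIn 2 o v (r + 1) ++ ([(eS o v, (o.val : ℤ))] ++
        (segm id (v + dv (o.val : ℤ)) (o.val : ℤ) r ++ N₂)))) :=
    hD.cast rfl rfl (by simp only [List.append_assoc])
  have k2 : Disc ZQ ((Wdg 2 o v (r + 1) : Finset (ℤ × ℤ)) : Set (ℤ × ℤ))
      (Glued ZQ ((Wdg 2 o v (r + 1) : Finset (ℤ × ℤ)) : Set (ℤ × ℤ)))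
      (N₀ ++ (sIn 2 o v (r + 1) ++ ([] ++ ([(eS o v, (o.val : ℤ))] ++
        (segm id (v + dv (o.val : ℤ)) (o.val : ℤ) r ++ N₂))))) :=
    hD.cast rfl rfl (by simp only [List.append_assoc, List.nil_append])
  have k3 : Disc ZQ ((Wdg 2 o v (r + 1) : Finset (ℤ × ℤ)) : Set (ℤ × ℤ))
      (Glued ZQ ((Wdg 2 o v (r + 1) : Finset (ℤ × ℤ)) : Set (ℤ × ℤ)))
      ((N₀ ++ sIn 2 o v (r + 1)) ++ ([(eS o v, (o.val : ℤ))] ++ ([] ++
        (segm id (v + dv (o.val : ℤ)) (o.val : ℤ) r ++ N₂)))) :=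
    hD.cast rfl rfl (by simp only [List.append_assoc, List.nil_append])
  refine ⟨fun ha hb => ?_, fun ha hb => ?_, ?_, ?_, ?_⟩
  · exact (wt_two (x := (a, _)) (y := (b, _)) k1 (disc_ini k1) hI hU hab).1 (dI ha) (dI hb)
  · exact (wt_two (x := (a, _)) (y := (b, _)) k1 (disc_ini k1) hI hU hab).2.1 (tail_mem ha)
      (tail_mem hb)
  · rintro (⟨ha, hb⟩ | ⟨ha, hb⟩)
    · rw [(wt_two (x := (a, _)) (y := (b, _)) k2 (disc_ini k2) hI hE hab).2.2.1 (dI ha) (dE' hb),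
        add_sub_add_right_eq_sub]
    · rw [(wt_two (x := (a, _)) (y := (b, _)) k2 (disc_ini k2) hI hE hab).2.2.2 (dE' ha) (dI hb),
        add_sub_add_right_eq_sub]
  · rintro (⟨ha, hb⟩ | ⟨ha, hb⟩)
    · rw [(wt_two (x := (a, _)) (y := (b, _)) k3 (disc_ini k3) hE hU hab).2.2.2 (tail_mem ha)
        (dE' hb), add_sub_add_right_eq_sub]
    · rw [(wt_two (x := (a, _)) (y := (b, _)) k3 (disc_ini k3) hE hU hab).2.2.1 (dE' ha)
        (tail_mem hb), add_sub_add_right_eq_sub]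
  · rintro (⟨ha, hb⟩ | ⟨ha, hb⟩)
    · rw [(wt_two (x := (a, _)) (y := (b, _)) k1 (disc_ini k1) hI hU hab).2.2.1 (dI ha)
        (tail_mem hb), add_sub_add_right_eq_sub]
    · rw [(wt_two (x := (a, _)) (y := (b, _)) k1 (disc_ini k1) hI hU hab).2.2.2 (tail_mem ha)
        (dI hb), add_sub_add_right_eq_sub]

theorem tJ_neg_one_third : tJ (-(Real.pi / 3)) = 0 := by
  unfold tJ
  rw [show -(Real.pi / 3) - Real.pi / 6 = -(Real.pi / 2) by ring, Real.cos_neg, Real.cos_pi_div_two,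
    zero_div]

theorem tJ_two_third : tJ (2 * (Real.pi / 3)) = 0 := by
  unfold tJ
  rw [show 2 * (Real.pi / 3) - Real.pi / 6 = Real.pi / 2 by ring, Real.cos_pi_div_two, zero_div]

theorem tJ_neg_two_third : tJ (-(2 * (Real.pi / 3))) = -1 := by
  unfold tJ
  rw [show -(2 * (Real.pi / 3)) - Real.pi / 6 = Real.pi / 6 - Real.pi by ring,
    Real.cos_sub_pi, neg_div, div_self cos_sixth_pos.ne']

/-- kind `e` in the plane -/
theorem e_plane {ψ : (ℤ × ℤ) × (ℤ × ℤ) → ℝ} {p : ℝ} (hr : 0 < r)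
    (hp : ∀ a ∈ wIn (o + (2 : ℕ)) v r, ψ a = p) (h1 : ψ (eS o v) = p - Real.pi / 3)
    (h2 : ∀ a ∈ (wOut o v r).erase (eS o v), ψ a = p - 2 * (Real.pi / 3))
    (hab : mate ZQ (Wdg 2 o v r) ω a = b) (ha : a ∈ wIn (o + (2 : ℕ)) v r ∪ wOut o v r)
    (hb : b ∈ wIn (o + (2 : ℕ)) v r ∪ wOut o v r) :
    ((a = eS o v ∨ b = eS o v) ∧ wt ZQ (Wdg 2 o v r) ω ψ a = 0) ∨
      (a ≠ eS o v ∧ b ≠ eS o v ∧ |wt ZQ (Wdg 2 o v r) ω ψ a| = Real.sqrt 3) := by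
  obtain ⟨e1, e2, e3, e4, e5⟩ := wdg_wt3 hr hp h1 h2 hab
  have c1 : p - Real.pi / 3 - p = -(Real.pi / 3) := by ring
  have c2 : p - 2 * (Real.pi / 3) - (p - Real.pi / 3) = -(Real.pi / 3) := by ring
  have c3 : p - 2 * (Real.pi / 3) - p = -(2 * (Real.pi / 3)) := by ring
  rw [c1, tJ_neg_one_third, mul_zero] at e3
  rw [c2, tJ_neg_one_third, mul_zero] at e4
  rw [c3, tJ_neg_two_third] at e5
  have hs : |Real.sqrt 3| = Real.sqrt 3 := abs_of_nonneg (Real.sqrt_nonneg 3)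
  have hs' : |Real.sqrt 3 * -1| = Real.sqrt 3 := by rw [mul_neg_one, abs_neg, hs]
  have dis : ∀ {x}, x ∈ wIn (o + (2 : ℕ)) v r → x ≠ eS o v := by
    intro x hx h
    rw [h] at hx
    exact wIn_disj_wOut (by omega) (by omega) hx (eS_mem hr)
  have cl : ∀ {x}, x ∈ wIn (o + (2 : ℕ)) v r ∪ wOut o v r →
      x ∈ wIn (o + (2 : ℕ)) v r ∨ x = eS o v ∨ x ∈ (wOut o v r).erase (eS o v) := by
    intro x hx
    rcases Finset.mem_union.mp hx with h | h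
    · exact Or.inl h
    · by_cases h' : x = eS o v
      · exact Or.inr (Or.inl h')
      · exact Or.inr (Or.inr (Finset.mem_erase.mpr ⟨h', h⟩))
  have abB : a ∈ bS ZQ (Wdg 2 o v r) := by
    rcases Finset.mem_union.mp ha with h | h
    · exact bS_of_wIn (by omega) (by omega) h
    · exact bS_of_wOut (by omega) (by omega) h
  rcases cl ha with h | h | h <;> rcases cl hb with h' | h' | h'
  · exact Or.inr ⟨dis h, dis h', by rw [e1 h h', hs]⟩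
  · exact Or.inl ⟨Or.inr h', e3 (Or.inl ⟨h, h'⟩)⟩
  · exact Or.inr ⟨dis h, (Finset.mem_erase.mp h').1, by rw [e5 (Or.inl ⟨h, h'⟩), hs']⟩
  · exact Or.inl ⟨Or.inl h, e3 (Or.inr ⟨h, h'⟩)⟩
  · exfalso
    have := mate_ne (ω := ω) Tilt.zq_noLoop abB
    rw [hab, h, h'] at this
    exact this rfl
  · exact Or.inl ⟨Or.inl h, e4 (Or.inr ⟨h, h'⟩)⟩
  · exact Or.inr ⟨(Finset.mem_erase.mp h).1, dis h', by rw [e5 (Or.inr ⟨h, h'⟩), hs']⟩
  · exact Or.inl ⟨Or.inr h', e4 (Or.inl ⟨h, h'⟩)⟩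
  · exact Or.inr ⟨(Finset.mem_erase.mp h).1, (Finset.mem_erase.mp h').1, by rw [e2 h h', hs]⟩

/-- kind `em` in the plane -/
theorem em_plane {ψ : (ℤ × ℤ) × (ℤ × ℤ) → ℝ} {p : ℝ} (hr : 0 < r)
    (hp : ∀ a ∈ wIn (o + (2 : ℕ)) v r, ψ a = p) (h1 : ψ (eS o v) = p + Real.pi / 3)
    (h2 : ∀ a ∈ (wOut o v r).erase (eS o v), ψ a = p + 2 * (Real.pi / 3))
    (hab : mate ZQ (Wdg 2 o v r) ω a = b) (ha : a ∈ wIn (o + (2 : ℕ)) v r ∪ wOut o v r)
    (hb : b ∈ wIn (o + (2 : ℕ)) v r ∪ wOut o v r) :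
    ((a ∈ wIn (o + (2 : ℕ)) v r ∧ b ∈ (wOut o v r).erase (eS o v) ∨
        a ∈ (wOut o v r).erase (eS o v) ∧ b ∈ wIn (o + (2 : ℕ)) v r) ∧
          wt ZQ (Wdg 2 o v r) ω ψ a = 0) ∨
      (¬(a ∈ wIn (o + (2 : ℕ)) v r ∧ b ∈ (wOut o v r).erase (eS o v) ∨
        a ∈ (wOut o v r).erase (eS o v) ∧ b ∈ wIn (o + (2 : ℕ)) v r) ∧
          wt ZQ (Wdg 2 o v r) ω ψ a = Real.sqrt 3) := by
  obtain ⟨e1, e2, e3, e4, e5⟩ := wdg_wt3 hr hp h1 h2 hab
  have c1 : p + Real.pi / 3 - p = Real.pi / 3 := by ring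
  have c2 : p + 2 * (Real.pi / 3) - (p + Real.pi / 3) = Real.pi / 3 := by ring
  have c3 : p + 2 * (Real.pi / 3) - p = 2 * (Real.pi / 3) := by ring
  rw [c1, tJ_third, mul_one] at e3
  rw [c2, tJ_third, mul_one] at e4
  rw [c3, tJ_two_third, mul_zero] at e5
  have dis : ∀ {x}, x ∈ wIn (o + (2 : ℕ)) v r → x ∉ wOut o v r := by
    intro x hx h
    exact wIn_disj_wOut (by omega) (by omega) hx h
  have eO : eS o v ∈ wOut o v r := eS_mem hr
  have cl : ∀ {x}, x ∈ wIn (o + (2 : ℕ)) v r ∪ wOut o v r →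
      x ∈ wIn (o + (2 : ℕ)) v r ∨ x = eS o v ∨ x ∈ (wOut o v r).erase (eS o v) := by
    intro x hx
    rcases Finset.mem_union.mp hx with h | h
    · exact Or.inl h
    · by_cases h' : x = eS o v
      · exact Or.inr (Or.inl h')
      · exact Or.inr (Or.inr (Finset.mem_erase.mpr ⟨h', h⟩))
  have abB : a ∈ bS ZQ (Wdg 2 o v r) := by
    rcases Finset.mem_union.mp ha with h | h
    · exact bS_of_wIn (by omega) (by omega) h
    · exact bS_of_wOut (by omega) (by omega) h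
  rcases cl ha with h | h | h <;> rcases cl hb with h' | h' | h'
  · refine Or.inr ⟨?_, e1 h h'⟩
    rintro (⟨-, h3⟩ | ⟨h3, -⟩)
    · exact dis h' (Finset.mem_of_mem_erase h3)
    · exact dis h (Finset.mem_of_mem_erase h3)
  · refine Or.inr ⟨?_, e3 (Or.inl ⟨h, h'⟩)⟩
    rintro (⟨-, h3⟩ | ⟨h3, -⟩)
    · exact (Finset.mem_erase.mp h3).1 h'
    · exact dis h (Finset.mem_of_mem_erase h3)
  · exact Or.inl ⟨Or.inl ⟨h, h'⟩, e5 (Or.inl ⟨h, h'⟩)⟩
  · refine Or.inr ⟨?_, e3 (Or.inr ⟨h, h'⟩)⟩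
    rintro (⟨h3, -⟩ | ⟨h3, -⟩)
    · rw [h] at h3
      exact dis h3 eO
    · exact (Finset.mem_erase.mp h3).1 h
  · exfalso
    have := mate_ne (ω := ω) Tilt.zq_noLoop abB
    rw [hab, h, h'] at this
    exact this rfl
  · refine Or.inr ⟨?_, e4 (Or.inr ⟨h, h'⟩)⟩
    rintro (⟨h3, -⟩ | ⟨h3, -⟩)
    · rw [h] at h3
      exact dis h3 eO
    · exact (Finset.mem_erase.mp h3).1 h
  · exact Or.inl ⟨Or.inr ⟨h, h'⟩, e5 (Or.inr ⟨h, h'⟩)⟩
  · refine Or.inr ⟨?_, e4 (Or.inl ⟨h, h'⟩)⟩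
    rintro (⟨-, h3⟩ | ⟨-, h3⟩)
    · exact (Finset.mem_erase.mp h3).1 h'
    · rw [h'] at h3
      exact dis h3 eO
  · refine Or.inr ⟨?_, e2 h h'⟩
    rintro (⟨h3, -⟩ | ⟨-, h3⟩)
    · exact dis h3 (Finset.mem_of_mem_erase h)
    · exact dis h3 (Finset.mem_of_mem_erase h')

end three

section kinds

variable {V Φ : Type} [DecidableEq V] [DecidableEq Φ]
variable {Q : QC V Φ} {F : Finset Φ} {m r ρ : ℕ} {o : ZMod 4} {v : ℤ × ℤ}
  {ω : Φ → Bool} {a b : V × V} {ψ : V × V → ℝ}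

/-- the marked side of a chart of the kind `e` or `em` -/
def eC (c : WChart Q F m o v r) : V × V := c.side (eS o v)

/-- the wall with the marked side without the marked side -/
def outE (c : WChart Q F m o v r) (ρ : ℕ) : Finset (V × V) :=
  ((wOut o v ρ).erase (eS o v)).image c.side

theorem eC_mem (c : WChart Q F m o v r) (hρ : 0 < ρ) : eC c ∈ outW c ρ :=
  Finset.mem_image_of_mem _ (eS_mem hρ)

theorem side_inj' (c : WChart Q F m o v r) (h : ρ ≤ r) {s t : (ℤ × ℤ) × (ℤ × ℤ)}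
    (hs : s ∈ bS ZQ (Wdg m o v ρ)) (ht : t ∈ bS ZQ (Wdg m o v ρ)) (e : c.side s = c.side t) :
    s = t := PC.mv_inj (box_chart c h) (mem_bS.mp hs).1 (mem_bS.mp ht).1 e

theorem outE_eq (c : WChart Q F m o v r) (h1 : 1 ≤ m) (h3 : m ≤ 3) (h : ρ ≤ r) (hρ : 0 < ρ) :
    outE c ρ = (outW c ρ).erase (eC c) := by
  ext x
  unfold outE outW eC
  rw [Finset.mem_erase, Finset.mem_image, Finset.mem_image]
  constructor
  · rintro ⟨s, hs, rfl⟩
    obtain ⟨hs1, hs2⟩ := Finset.mem_erase.mp hs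
    exact ⟨fun e => hs1 (side_inj' c h (bS_of_wOut h1 h3 hs2) (bS_of_wOut h1 h3 (eS_mem hρ)) e),
      s, hs2, rfl⟩
  · rintro ⟨h4, s, hs, rfl⟩
    exact ⟨s, Finset.mem_erase.mpr ⟨fun e => h4 (by rw [e]), hs⟩, rfl⟩

/-- transport of two wall sides to the plane -/
theorem walls_plane (c : WChart Q F m o v r) (h1 : 1 ≤ m) (h3 : m ≤ 3) (h : ρ ≤ r)
    (ha : a ∈ c.walls ρ) (hb : b ∈ c.walls ρ) (hm : mate Q (c.box ρ) ω a = b) :
    ∃ s t, s ∈ wIn (o + m) v ρ ∪ wOut o v ρ ∧ t ∈ wIn (o + m) v ρ ∪ wOut o v ρ ∧ a = c.side s ∧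
      b = c.side t ∧ mate ZQ (Wdg m o v ρ) (pb c.φF ω) s = t ∧
      wt Q (c.box ρ) ω ψ a = wt ZQ (Wdg m o v ρ) (pb c.φF ω) (fun x => ψ (c.side x)) s := by
  unfold WChart.walls at ha hb
  obtain ⟨s, hs, rfl⟩ := Finset.mem_image.mp ha
  obtain ⟨t, ht, rfl⟩ := Finset.mem_image.mp hb
  have bB : ∀ {s}, s ∈ wIn (o + m) v ρ ∪ wOut o v ρ → s ∈ bS ZQ (Wdg m o v ρ) := by
    intro s hs
    rcases Finset.mem_union.mp hs with h4 | h4
    · exact bS_of_wIn h1 h3 h4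
    · exact bS_of_wOut h1 h3 h4
  rw [mate_side c h (bB hs)] at hm
  exact ⟨s, t, hs, ht, rfl, rfl, side_inj' c h (mate_mem (bB hs)) (bB ht) hm,
    wt_side c h (bB hs)⟩

/-- **Kind `e`**: an arc with the marked side has the weight `0`, the others `±√3`. -/
theorem e_cases (c : WChart Q F m o v r) (hρ : 0 < ρ) (h : ρ ≤ r) (hJ : SJump c .e ψ)
    (ha : a ∈ c.walls ρ) (hb : b ∈ c.walls ρ) (hm : mate Q (c.box ρ) ω a = b) :
    ((a = eC c ∨ b = eC c) ∧ wt Q (c.box ρ) ω ψ a = 0) ∨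
      (a ≠ eC c ∧ b ≠ eC c ∧ |wt Q (c.box ρ) ω ψ a| = Real.sqrt 3) := by
  obtain ⟨rfl, p, hp, h4, h5⟩ := hJ
  obtain ⟨s, t, hs, ht, rfl, rfl, hst, hw⟩ := walls_plane (ψ := ψ) c (by omega) (by omega) h ha hb hm
  rw [hw]
  have bB : ∀ {s}, s ∈ wIn (o + (2 : ℕ)) v ρ ∪ wOut o v ρ → s ∈ bS ZQ (Wdg 2 o v ρ) := by
    intro s hs
    rcases Finset.mem_union.mp hs with h4 | h4
    · exact bS_of_wIn (by omega) (by omega) h4
    · exact bS_of_wOut (by omega) (by omega) h4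
  have hE := bB (Finset.mem_union_right _ (eS_mem (o := o) (v := v) hρ))
  rcases e_plane (ψ := fun x => ψ (c.side x)) hρ (fun x hx => hp x (wIn_mono h hx)) h4
    (fun x hx => h5 x (Finset.erase_subset_erase _ (wOut_mono h) hx)) hst hs ht with h6 | h6
  · refine Or.inl ⟨?_, h6.2⟩
    rcases h6.1 with h7 | h7
    · left; unfold eC; rw [h7]
    · right; unfold eC; rw [h7]
  · exact Or.inr ⟨fun e => h6.1 (side_inj' c h (bB hs) hE e),
      fun e => h6.2.1 (side_inj' c h (bB ht) hE e), h6.2.2⟩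

/-- **Kind `em`**: an arc over the marked side has the weight `0`, the others `√3`. -/
theorem em_cases (c : WChart Q F m o v r) (hρ : 0 < ρ) (h : ρ ≤ r) (hJ : SJump c .em ψ)
    (ha : a ∈ c.walls ρ) (hb : b ∈ c.walls ρ) (hm : mate Q (c.box ρ) ω a = b) :
    ((a ∈ inW c ρ ∧ b ∈ outE c ρ ∨ a ∈ outE c ρ ∧ b ∈ inW c ρ) ∧ wt Q (c.box ρ) ω ψ a = 0) ∨
      (¬(a ∈ inW c ρ ∧ b ∈ outE c ρ ∨ a ∈ outE c ρ ∧ b ∈ inW c ρ) ∧
        wt Q (c.box ρ) ω ψ a = Real.sqrt 3) := by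
  obtain ⟨rfl, p, hp, h4, h5⟩ := hJ
  obtain ⟨s, t, hs, ht, rfl, rfl, hst, hw⟩ := walls_plane (ψ := ψ) c (by omega) (by omega) h ha hb hm
  rw [hw]
  have bI : ∀ {s}, s ∈ wIn (o + (2 : ℕ)) v ρ → s ∈ bS ZQ (Wdg 2 o v ρ) :=
    fun h4 => bS_of_wIn (by omega) (by omega) h4
  have bO : ∀ {s}, s ∈ wOut o v ρ → s ∈ bS ZQ (Wdg 2 o v ρ) :=
    fun h4 => bS_of_wOut (by omega) (by omega) h4
  have bB : ∀ {s}, s ∈ wIn (o + (2 : ℕ)) v ρ ∪ wOut o v ρ → s ∈ bS ZQ (Wdg 2 o v ρ) := by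
    intro s hs
    rcases Finset.mem_union.mp hs with h4 | h4
    · exact bI h4
    · exact bO h4
  have inI : ∀ {s}, s ∈ wIn (o + (2 : ℕ)) v ρ ∪ wOut o v ρ → c.side s ∈ inW c ρ →
      s ∈ wIn (o + (2 : ℕ)) v ρ := by
    intro s hs h7
    obtain ⟨t, ht, e⟩ := Finset.mem_image.mp h7
    rwa [side_inj' c h (bI ht) (bB hs) e] at ht
  have inO : ∀ {s}, s ∈ wIn (o + (2 : ℕ)) v ρ ∪ wOut o v ρ → c.side s ∈ outE c ρ →
      s ∈ (wOut o v ρ).erase (eS o v) := by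
    intro s hs h7
    obtain ⟨t, ht, e⟩ := Finset.mem_image.mp h7
    rwa [side_inj' c h (bO (Finset.mem_of_mem_erase ht)) (bB hs) e] at ht
  rcases em_plane (ψ := fun x => ψ (c.side x)) hρ (fun x hx => hp x (wIn_mono h hx)) h4
    (fun x hx => h5 x (Finset.erase_subset_erase _ (wOut_mono h) hx)) hst hs ht with h6 | h6
  · refine Or.inl ⟨?_, h6.2⟩
    rcases h6.1 with h7 | h7
    · exact Or.inl ⟨Finset.mem_image_of_mem _ h7.1, Finset.mem_image_of_mem _ h7.2⟩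
    · exact Or.inr ⟨Finset.mem_image_of_mem _ h7.1, Finset.mem_image_of_mem _ h7.2⟩
  · refine Or.inr ⟨fun h7 => h6.1 ?_, h6.2⟩
    rcases h7 with h7 | h7
    · exact Or.inl ⟨inI hs h7.1, inO ht h7.2⟩
    · exact Or.inr ⟨inO hs h7.1, inI ht h7.2⟩

/-- kind `e`, `ρ < r`: the arc of a wall side whose mate in the box is a boundary side of the surface -/
theorem e_arc (c : WChart Q F m o v r) (hρ : 0 < ρ) (h : ρ < r) (hJ : SJump c .e ψ)
    (ha : a ∈ c.walls ρ) (hb : mate Q (c.box ρ) ω a ∈ bS Q F) :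
    mate Q (c.box ρ) ω a ∈ c.walls ρ ∧ (((a = eC c ∨ mate Q (c.box ρ) ω a = eC c) ∧
      wt Q (c.box ρ) ω ψ a = 0) ∨ (a ≠ eC c ∧ mate Q (c.box ρ) ω a ≠ eC c ∧
        |wt Q (c.box ρ) ω ψ a| = Real.sqrt 3)) := by
  have hm2 : m = 2 := hJ.1
  have h4 := mem_walls c (by omega) (by omega) h
    (mate_mem (walls_sub_box c (by omega) (by omega) h.le ha)) hb
  exact ⟨h4, e_cases c hρ h.le hJ ha h4 rfl⟩

/-- kind `em`, `ρ < r` -/
theorem em_arc (c : WChart Q F m o v r) (hρ : 0 < ρ) (h : ρ < r) (hJ : SJump c .em ψ)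
    (ha : a ∈ c.walls ρ) (hb : mate Q (c.box ρ) ω a ∈ bS Q F) :
    mate Q (c.box ρ) ω a ∈ c.walls ρ ∧ (((a ∈ inW c ρ ∧ mate Q (c.box ρ) ω a ∈ outE c ρ ∨
      a ∈ outE c ρ ∧ mate Q (c.box ρ) ω a ∈ inW c ρ) ∧ wt Q (c.box ρ) ω ψ a = 0) ∨
      (¬(a ∈ inW c ρ ∧ mate Q (c.box ρ) ω a ∈ outE c ρ ∨
      a ∈ outE c ρ ∧ mate Q (c.box ρ) ω a ∈ inW c ρ) ∧ wt Q (c.box ρ) ω ψ a = Real.sqrt 3)) := by
  have hm2 : m = 2 := hJ.1
  have h4 := mem_walls c (by omega) (by omega) h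
    (mate_mem (walls_sub_box c (by omega) (by omega) h.le ha)) hb
  exact ⟨h4, em_cases c hρ h.le hJ ha h4 rfl⟩

/-- the local count of the kind `e` -/
theorem card_e (c : WChart Q F m o v r) (h1 : 1 ≤ m) (h3 : m ≤ 3) (hρ : 0 < ρ) (h : ρ ≤ r)
    (ω : Φ → Bool) : (({eC c} : Finset (V × V)).filter fun a =>
      mate Q (c.box ρ) ω a ∈ c.walls ρ).card = sN .e m o v ρ (pb c.φF ω) := by
  have hE : eS o v ∈ bS ZQ (Wdg m o v ρ) := bS_of_wOut h1 h3 (eS_mem hρ)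
  have e : mate Q (c.box ρ) ω (eC c) ∈ c.walls ρ ↔
      mate ZQ (Wdg m o v ρ) (pb c.φF ω) (eS o v) ∈ wIn (o + m) v ρ ∪ wOut o v ρ := by
    unfold eC
    rw [mate_side c h hE]
    unfold WChart.walls
    rw [Finset.mem_image]
    constructor
    · rintro ⟨s, hs, e⟩
      have hs' : s ∈ bS ZQ (Wdg m o v ρ) := by
        rcases Finset.mem_union.mp hs with h4 | h4
        · exact bS_of_wIn h1 h3 h4
        · exact bS_of_wOut h1 h3 h4
      rwa [side_inj' c h hs' (mate_mem hE) e] at hs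
    · exact fun h4 => ⟨_, h4, rfl⟩
  rw [Finset.filter_singleton]
  unfold sN
  by_cases h4 : mate ZQ (Wdg m o v ρ) (pb c.φF ω) (eS o v) ∈ wIn (o + m) v ρ ∪ wOut o v ρ
  · rw [if_pos (e.mpr h4)]
    simp only [h4, if_true, Finset.card_singleton]
  · rw [if_neg (fun h5 => h4 (e.mp h5))]
    simp only [h4, if_false, Finset.card_empty]

/-- the local count of the kind `em` -/
theorem card_em (c : WChart Q F m o v r) (h1 : 1 ≤ m) (h3 : m ≤ 3) (h : ρ ≤ r) (ω : Φ → Bool) :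
    ((inW c ρ).filter fun a => mate Q (c.box ρ) ω a ∈ outE c ρ).card =
      sN .em m o v ρ (pb c.φF ω) := by
  unfold sN
  have bI : ∀ {s}, s ∈ wIn (o + m) v ρ → s ∈ bS ZQ (Wdg m o v ρ) := fun hs => bS_of_wIn h1 h3 hs
  have bO : ∀ {s}, s ∈ wOut o v ρ → s ∈ bS ZQ (Wdg m o v ρ) := fun hs => bS_of_wOut h1 h3 hs
  have e : ((inW c ρ).filter fun a => mate Q (c.box ρ) ω a ∈ outE c ρ) =
      ((wIn (o + m) v ρ).filter fun s =>
        mate ZQ (Wdg m o v ρ) (pb c.φF ω) s ∈ (wOut o v ρ).erase (eS o v)).image c.side := by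
    ext x
    rw [Finset.mem_filter, Finset.mem_image]
    constructor
    · rintro ⟨hx, hx'⟩
      obtain ⟨s, hs, rfl⟩ := Finset.mem_image.mp hx
      obtain ⟨t, ht, e⟩ := Finset.mem_image.mp hx'
      refine ⟨s, Finset.mem_filter.mpr ⟨hs, ?_⟩, rfl⟩
      rw [mate_side c h (bI hs)] at e
      have e' := side_inj' c h (bO (Finset.mem_of_mem_erase ht)) (mate_mem (bI hs)) e
      rw [← e']
      exact ht
    · rintro ⟨s, hs, rfl⟩
      obtain ⟨hs1, hs2⟩ := Finset.mem_filter.mp hs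
      refine ⟨Finset.mem_image_of_mem _ hs1, ?_⟩
      rw [mate_side c h (bI hs1)]
      exact Finset.mem_image_of_mem _ hs2
  rw [e, Finset.card_image_of_injOn]
  intro s hs t ht hst
  exact side_inj' c h (bI (Finset.mem_filter.mp (Finset.mem_coe.mp hs)).1)
    (bI (Finset.mem_filter.mp (Finset.mem_coe.mp ht)).1) hst

end kinds




end

end Pool.Agent.SixB.S3T
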