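import Pool.Agent.Lib.SixB.S3TurnE

/-!
# 6BD step 3, row R4 (5): arcs over the marked side

* `mate_over`: in a disc the mate of an entry under an arc is under the arc.
* `e_over`: plane: if an arc of the flat wedge goes over the marked side then the mate of the marked side is a wall side.
* `e_arc'`: kind `e`: an arc off the marked side has the weight `√3` or the mate of the marked side is a wall side.
-/

set_option autoImplicit false
set_option linter.unusedSectionVars false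

namespace Pool.Agent.SixB.S3T

open Pool.Agent.Perc.Q Pool.Agent.Perc Pool.Agent.SixB
open Pool.Agent.SixB.PC (mv pb)

noncomputable section

section disc

variable {V Φ : Type} [DecidableEq V] [DecidableEq Φ] {Q : QC V Φ} {G : Finset Φ} {Gl : Set (V × V)}
  {ω : Φ → Bool} {w : List ((V × V) × ℤ)}

/-- In a disc the mate of an entry under an arc is under the arc. -/
theorem mate_over (h : Disc Q (G : Set Φ) Gl w) (hw : ∀ e ∈ w.map Prod.fst, Ini Q (G : Set Φ) e)
    {i j k : ℕ} {x y z : (V × V) × ℤ} (hx : w[i]? = some x) (hy : w[j]? = some y)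
    (hz : w[k]? = some z) (hm : mate Q G ω x.1 = y.1) (h1 : i < k) (h2 : k < j) :
    ∃ l u, i < l ∧ l < j ∧ w[l]? = some u ∧ mate Q G ω z.1 = u.1 := by
  obtain ⟨M, m1, m2, m3⟩ := h.mates hw ω
  have hlen : ∀ {k : ℕ} {z : (V × V) × ℤ}, w[k]? = some z → k < w.length := by
    intro k z hz
    by_contra hc
    rw [List.getElem?_eq_none (by omega)] at hz
    cases hz
  have hi := hlen hx
  have hj := hlen hy
  have hk := hlen hz
  obtain ⟨y', hy'⟩ : ∃ z, w[M i]? = some z := ⟨_, List.getElem?_eq_getElem (m1 i hi).1⟩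
  have hji : j = M i := by
    have e1 : (w.map Prod.fst)[j]? = some y.1 := by rw [List.getElem?_map, hy]; rfl
    have e2 : (w.map Prod.fst)[M i]? = some y'.1 := by rw [List.getElem?_map, hy']; rfl
    rw [← (m3 i x y' hx hy').1, hm] at e2
    have hj' : j < (w.map Prod.fst).length := by rw [List.length_map]; exact hj
    exact (List.getElem?_inj hj' h.inv.nodup).mp (e1.trans e2.symm)
  subst hji
  obtain ⟨h3, h4⟩ := m2 i hi k h1 h2
  obtain ⟨u, hu⟩ : ∃ z, w[M k]? = some z := ⟨_, List.getElem?_eq_getElem (m1 k hk).1⟩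
  exact ⟨M k, u, h3, h4, hu, (m3 k z u hz hu).1⟩

theorem pos_mem {α : Type} {x : α} {u s v : List α} {i : ℕ} (h1 : u.length ≤ i)
    (h2 : i < u.length + s.length) (hx : (u ++ (s ++ v))[i]? = some x) : x ∈ s := by
  rw [List.getElem?_append_right h1, List.getElem?_append_left (by omega)] at hx
  exact List.mem_iff_getElem?.mpr ⟨_, hx⟩

end disc

section plane

variable {v : ℤ × ℤ} {o : ZMod 4} {r : ℕ} {a b : (ℤ × ℤ) × (ℤ × ℤ)} {ω : ℤ × ℤ → Bool}

/-- an arc over the marked side: its mate is a wall side -/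
theorem e_over (hab : mate ZQ (Wdg 2 o v r) ω a = b) (ha : a ∈ wIn (o + (2 : ℕ)) v r)
    (hb : b ∈ (wOut o v r).erase (eS o v)) :
    mate ZQ (Wdg 2 o v r) ω (eS o v) ∈ wIn (o + (2 : ℕ)) v r ∪ wOut o v r := by
  have hr : 0 < r := pos_of_mem_wIn ha
  obtain ⟨r, rfl⟩ : ∃ r', r = r' + 1 := ⟨r - 1, by omega⟩
  obtain ⟨N₀, N₂, hD, hN⟩ := disc_wdg (m := 2) (by omega) (by omega) hr o v
  rw [sOut_succ, List.nil_append] at hD
  have k1 : Disc ZQ ((Wdg 2 o v (r + 1) : Finset (ℤ × ℤ)) : Set (ℤ × ℤ))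
      (Glued ZQ ((Wdg 2 o v (r + 1) : Finset (ℤ × ℤ)) : Set (ℤ × ℤ)))
      (N₀ ++ (sIn 2 o v (r + 1) ++ ([(eS o v, (o.val : ℤ))] ++
        (segm id (v + dv (o.val : ℤ)) (o.val : ℤ) r ++ N₂)))) :=
    hD.cast rfl rfl (by simp only [List.append_assoc])
  have e1 : N₀ ++ (sIn 2 o v (r + 1) ++ ([(eS o v, (o.val : ℤ))] ++
        (segm id (v + dv (o.val : ℤ)) (o.val : ℤ) r ++ N₂))) =
      (N₀ ++ sIn 2 o v (r + 1)) ++ ([(eS o v, (o.val : ℤ))] ++
        (segm id (v + dv (o.val : ℤ)) (o.val : ℤ) r ++ N₂)) := by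
    simp only [List.append_assoc]
  have e2 : N₀ ++ (sIn 2 o v (r + 1) ++ ([(eS o v, (o.val : ℤ))] ++
        (segm id (v + dv (o.val : ℤ)) (o.val : ℤ) r ++ N₂))) =
      (N₀ ++ (sIn 2 o v (r + 1) ++ [(eS o v, (o.val : ℤ))])) ++
        (segm id (v + dv (o.val : ℤ)) (o.val : ℤ) r ++ N₂) := by
    simp only [List.append_assoc]
  have e3 : N₀ ++ (sIn 2 o v (r + 1) ++ ([(eS o v, (o.val : ℤ))] ++
        (segm id (v + dv (o.val : ℤ)) (o.val : ℤ) r ++ N₂))) =
      N₀ ++ ((sIn 2 o v (r + 1) ++ ([(eS o v, (o.val : ℤ))] ++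
        segm id (v + dv (o.val : ℤ)) (o.val : ℤ) r)) ++ N₂) := by
    simp only [List.append_assoc]
  obtain ⟨i, i1, i2, i3⟩ := mem_pos (u := N₀) (v := [(eS o v, (o.val : ℤ))] ++
    (segm id (v + dv (o.val : ℤ)) (o.val : ℤ) r ++ N₂)) ((mem_wIn (m := 2) (by omega) (by omega)).mp ha)
  obtain ⟨k, l1, l2, l3⟩ := mem_pos (u := N₀ ++ sIn 2 o v (r + 1))
    (v := segm id (v + dv (o.val : ℤ)) (o.val : ℤ) r ++ N₂)
    (List.mem_singleton.mpr (rfl : (eS o v, (o.val : ℤ)) = (eS o v, (o.val : ℤ))))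
  obtain ⟨j, j1, j2, j3⟩ := mem_pos (u := N₀ ++ (sIn 2 o v (r + 1) ++ [(eS o v, (o.val : ℤ))]))
    (v := N₂) (tail_mem hb)
  rw [← e1] at l3
  rw [← e2] at j3
  simp only [List.length_append, List.length_singleton] at i1 i2 l1 l2 j1 j2
  obtain ⟨l, u, n1, n2, n3, n4⟩ := mate_over (ω := ω) k1 (disc_ini k1) i3 j3 l3 hab (by omega) (by omega)
  rw [n4]
  rw [e3] at n3
  have n5 := pos_mem (by omega) (by
    simp only [List.length_append, List.length_singleton]
    omega) n3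
  rw [List.mem_append, List.mem_append, List.mem_singleton] at n5
  rw [Finset.mem_union]
  rcases n5 with n5 | n5 | n5
  · left
    rw [mem_wIn (by omega) (by omega), ← lift_sIn n5]
    exact n5
  · right
    rw [n5]
    exact eS_mem hr
  · right
    exact Finset.mem_of_mem_erase (mem_tail n5).1

end plane

section chart

variable {V Φ : Type} [DecidableEq V] [DecidableEq Φ]
variable {Q : QC V Φ} {F : Finset Φ} {m r ρ : ℕ} {o : ZMod 4} {v : ℤ × ℤ}
  {ω : Φ → Bool} {a b : V × V} {ψ : V × V → ℝ}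

/-- kind `e`: an arc off the marked side has the weight `√3`, or the mate of the marked side is a wall side -/
theorem e_arc' (c : WChart Q F m o v r) (hρ : 0 < ρ) (h : ρ < r) (hJ : SJump c .e ψ)
    (ha : a ∈ c.walls ρ) (hb : mate Q (c.box ρ) ω a ∈ bS Q F) (h1 : a ≠ eC c)
    (h2 : mate Q (c.box ρ) ω a ≠ eC c) :
    wt Q (c.box ρ) ω ψ a = Real.sqrt 3 ∨ mate Q (c.box ρ) ω (eC c) ∈ c.walls ρ := by
  have hw := (e_arc (ω := ω) c hρ h hJ ha hb).1
  obtain ⟨rfl, p, hp, h4, h5⟩ := hJ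
  obtain ⟨s, t, hs, ht, rfl, htt, hst, hwt⟩ :=
    walls_plane (ω := ω) (ψ := ψ) c (by omega) (by omega) h.le ha hw rfl
  rw [htt] at h2
  rw [hwt]
  have bB : ∀ {s}, s ∈ wIn (o + (2 : ℕ)) v ρ ∪ wOut o v ρ → s ∈ bS ZQ (Wdg 2 o v ρ) := by
    intro s hs
    rcases Finset.mem_union.mp hs with h4 | h4
    · exact bS_of_wIn (by omega) (by omega) h4
    · exact bS_of_wOut (by omega) (by omega) h4
  have hE : eS o v ∈ bS ZQ (Wdg 2 o v ρ) :=
    bB (Finset.mem_union_right _ (eS_mem (o := o) (v := v) hρ))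
  have cl : ∀ {x}, c.side x ≠ eC c → x ∈ wIn (o + (2 : ℕ)) v ρ ∪ wOut o v ρ →
      x ∈ wIn (o + (2 : ℕ)) v ρ ∨ x ∈ (wOut o v ρ).erase (eS o v) := by
    intro x hx hx'
    rcases Finset.mem_union.mp hx' with h | h
    · exact Or.inl h
    · refine Or.inr (Finset.mem_erase.mpr ⟨?_, h⟩)
      rintro rfl
      exact hx rfl
  obtain ⟨e1, e2, -, -, -⟩ := wdg_wt3 (ψ := fun x => ψ (c.side x)) hρ
    (fun x hx => hp x (wIn_mono h.le hx)) h4
    (fun x hx => h5 x (Finset.erase_subset_erase _ (wOut_mono h.le) hx)) hst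
  have fin : mate ZQ (Wdg 2 o v ρ) (pb c.φF ω) (eS o v) ∈ wIn (o + (2 : ℕ)) v ρ ∪ wOut o v ρ →
      mate Q (c.box ρ) ω (eC c) ∈ c.walls ρ := by
    intro h6
    unfold eC
    rw [mate_side c h.le hE]
    unfold WChart.walls
    exact Finset.mem_image_of_mem _ h6
  rcases cl h1 hs with h6 | h6 <;> rcases cl h2 ht with h7 | h7
  · exact Or.inl (e1 h6 h7)
  · exact Or.inr (fin (e_over hst h6 h7))
  · refine Or.inr (fin (e_over (a := t) (b := s) ?_ h7 h6))
    rw [← hst]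
    exact mate_mate (bB hs)
  · exact Or.inl (e2 h6 h7)

end chart

end

end Pool.Agent.SixB.S3T
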