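import Pool.Agent.Lib.SixB.S3TurnW
import Pool.Agent.Lib.SixB.S3WGeo

/-!
# 6BD step 3, row R4 (3): mouths

* `disc_mth`: the boundary word of the region `Mth left v r h l` of a mouth;
  `bS_mth`: its boundary sides, `mth_wt`: the weights of the arcs from wall to wall.
* `c : MChart Q F left v R h L`: `mBox c ρ l`, `mW c ρ l j` (the region and the four walls of the mouth of radius `ρ`
  and length `l`); `mem_mW`: a boundary side of `mBox c ρ l` (`ρ < R`, `l < L`) which is a boundary side of `F` is on a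
  wall; `wt_mW`, `mth_nat`: the weights.
-/

set_option autoImplicit false
set_option linter.unusedSectionVars false
set_option linter.unusedSimpArgs false
set_option linter.unusedVariables false

namespace Pool.Agent.SixB.S3T

open Pool.Agent.Perc.Q Pool.Agent.Perc Pool.Agent.SixB
open Pool.Agent.SixB.Rel (QChart QMap)
open Pool.Agent.SixB.PC (mv pb)

noncomputable section

/-! ## The region of a mouth -/

private theorem v01 : ((0 : ZMod 4) - 1).val = 3 := by decide
private theorem v03 : ((0 : ZMod 4) - 3).val = 1 := by decide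
private theorem v11 : ((1 : ZMod 4) - 1).val = 0 := by decide
private theorem v13 : ((1 : ZMod 4) - 3).val = 2 := by decide
private theorem v21 : ((2 : ZMod 4) - 1).val = 1 := by decide
private theorem v23 : ((2 : ZMod 4) - 3).val = 3 := by decide
private theorem v31 : ((3 : ZMod 4) - 1).val = 2 := by decide
private theorem v33 : ((3 : ZMod 4) - 3).val = 0 := by decide

section plane

variable {left : Bool} {v p q : ℤ × ℤ} {e : ZMod 4} {r ρ h l n N : ℕ}
  {a b : (ℤ × ℤ) × (ℤ × ℤ)} {ω : ℤ × ℤ → Bool}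

/-- direction of the wall of a mouth -/
def om (left : Bool) : ZMod 4 := if left then 1 else 3

theorem mem_mth {f : ℤ × ℤ} : f ∈ Mth left v r h l ↔
    (f ∈ Wdg 2 (om left) v r) ∨ (if left then v.1 ≤ f.1 ∧ f.1 < v.1 + l else
      v.1 - l ≤ f.1 ∧ f.1 < v.1) ∧ v.2 - h ≤ f.2 ∧ f.2 < v.2 + h := by
  unfold Mth om
  cases left
  · simp only [Bool.false_eq_true, if_false, Finset.mem_union, Finset.mem_product, Finset.mem_Ico]
  · simp only [if_true, Finset.mem_union, Finset.mem_product, Finset.mem_Ico]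

theorem fR_mth {x y : ℤ} : fR v ((om left).val : ℤ) x y ∈ Mth left v r h l ↔
    (-(r : ℤ) ≤ x ∧ x < r ∧ 0 ≤ y ∧ y < r) ∨ (-(h : ℤ) ≤ x ∧ x < h ∧ -(l : ℤ) ≤ y ∧ y < 0) := by
  obtain ⟨v1, v2⟩ := v
  cases left
  · have e1 : (((om false).val : ℕ) : ℤ) = 3 := rfl
    have e2 : om false = 3 := rfl
    rw [mem_mth, e1, mem_Wdg, e2]
    unfold fR
    simp only [v03, v13, v23, v33]
    norm_num
    omega
  · have e1 : (((om true).val : ℕ) : ℤ) = 1 := rfl
    have e2 : om true = 1 := rfl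
    rw [mem_mth, e1, mem_Wdg, e2]
    unfold fR
    simp only [v01, v11, v21, v31]
    norm_num
    omega

theorem mth_set (left : Bool) (v : ℤ × ℤ) (r h l : ℕ) :
    ((Mth left v r h l : Finset (ℤ × ℤ)) : Set (ℤ × ℤ)) =
      RD (pt v (om left).val (-r) 0) (om left).val (2 * r) r ∪
        RD (pt v (om left).val h 0) ((om left).val + 2) (2 * h) l := by
  obtain ⟨v1, v2⟩ := v
  ext ⟨x, y⟩
  rw [Finset.mem_coe, mem_mth, mem_Wdg]
  cases left
  · have e1 : (((om false).val : ℕ) : ℤ) = 3 := rfl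
    have e2 : om false = 3 := rfl
    rw [e1, RD3 (by decide), RD1 (by decide), e2]
    unfold pt RS
    rw [dvc3 (d := 3) (by decide), dvc0 (d := 3 + 1) (by decide)]
    simp only [Set.mem_ofPred_eq, Set.mem_union, pt_add, v03, v13, v23, v33]
    norm_num
    omega
  · have e1 : (((om true).val : ℕ) : ℤ) = 1 := rfl
    have e2 : om true = 1 := rfl
    rw [e1, RD1 (by decide), RD3 (by decide), e2]
    unfold pt RS
    rw [dvc1 (d := 1) (by decide), dvc2 (d := 1 + 1) (by decide)]
    simp only [Set.mem_ofPred_eq, Set.mem_union, pt_add, v01, v11, v21, v31]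
    norm_num
    omega

theorem mth_disj (left : Bool) (v : ℤ × ℤ) (r h l : ℕ) :
    Disjoint (RD (pt v (om left).val (-r) 0) (om left).val (2 * r) r)
      (RD (pt v (om left).val h 0) ((om left).val + 2) (2 * h) l) := by
  obtain ⟨v1, v2⟩ := v
  rw [Set.disjoint_left]
  rintro ⟨x, y⟩ h1 h2
  cases left
  · have e1 : (((om false).val : ℕ) : ℤ) = 3 := rfl
    rw [e1, RD3 (by decide)] at h1
    rw [e1, RD1 (by decide)] at h2
    unfold pt RS at h1 h2
    rw [dvc3 (d := 3) (by decide), dvc0 (d := 3 + 1) (by decide)] at h1 h2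
    simp only [Set.mem_ofPred_eq, pt_add] at h1 h2
    norm_num at h1 h2
    omega
  · have e1 : (((om true).val : ℕ) : ℤ) = 1 := rfl
    rw [e1, RD1 (by decide)] at h1
    rw [e1, RD3 (by decide)] at h2
    unfold pt RS at h1 h2
    rw [dvc1 (d := 1) (by decide), dvc2 (d := 1 + 1) (by decide)] at h1 h2
    simp only [Set.mem_ofPred_eq, pt_add] at h1 h2
    norm_num at h1 h2
    omega

/-- the four walls of a mouth as segments -/
def sM (left : Bool) (v : ℤ × ℤ) (r h l : ℕ) : Fin 4 → List (((ℤ × ℤ) × (ℤ × ℤ)) × ℤ) :=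
  ![segm id (pt v (om left).val (-r) 0) (om left).val (r - h),
    segm id (pt v (om left).val (-h) 0) ((om left).val - 1) l,
    segm id (pt v (om left).val h (-l)) ((om left).val + 1) l,
    segm id (pt v (om left).val h 0) (om left).val (r - h)]

/-- lifted directions of the four walls -/
def dM (left : Bool) : Fin 4 → ℤ :=
  ![((om left).val : ℤ), ((om left).val : ℤ) - 1, ((om left).val : ℤ) + 1, ((om left).val : ℤ)]

/-- **The word of a mouth.** -/
theorem disc_mth (left : Bool) (v : ℤ × ℤ) (hh : 0 < h) (hr : h ≤ r) (hl : 0 < l) :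
    ∃ N₂ : List (((ℤ × ℤ) × (ℤ × ℤ)) × ℤ),
      Disc ZQ ((Mth left v r h l : Finset (ℤ × ℤ)) : Set (ℤ × ℤ))
        (Glued ZQ ((Mth left v r h l : Finset (ℤ × ℤ)) : Set (ℤ × ℤ)))
        ([] ++ ((sM left v r h l 0 ++ sM left v r h l 1) ++
          (segm id (pt v (om left).val (-h) (-l)) (om left).val (2 * h) ++
            ((sM left v r h l 2 ++ sM left v r h l 3) ++ N₂)))) ∧
      ∀ z, z ∈ segm id (pt v (om left).val (-h) (-l)) (om left).val (2 * h) ∨ z ∈ N₂ →
        z.1.swap ∈ Sides ZQ ((Mth left v (r + 1) h (l + 1) : Finset (ℤ × ℤ)) : Set (ℤ × ℤ)) := by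
  have hr0 : 0 < r := by omega
  have h1 := disc_RD (p := pt v (om left).val (-r) 0) (d := ((om left).val : ℤ)) (n := 2 * r)
    (m := r) (by omega) hr0
  rw [wR_pt, show 2 * r = (r - h) + (2 * h + (r - h)) by omega, segm_add, segm_add, pt_0, pt_0,
    ← show 2 * r = (r - h) + (2 * h + (r - h)) by omega] at h1
  have h2 := (disc_RD (p := pt v (om left).val h 0) (d := ((om left).val : ℤ) + 2) (n := 2 * h)
    (m := l) (by omega) hl).lft (-4)
  rw [wR_pt2] at h2
  simp only [lft_append, lft_segm (-4) _ _ _ (by norm_num)] at h2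
  have h3 := Disc.paste (u := sM left v r h l 0)
    (s := segm id (pt v (om left).val (-h) 0) (om left).val (2 * h))
    (v := sM left v r h l 3 ++ (segm id (pt v (om left).val r 0) ((om left).val + 1) r ++
      (segm id (pt v (om left).val r r) ((om left).val + 2) (2 * r) ++
        segm id (pt v (om left).val (-r) r) ((om left).val + 3) r)))
    (u' := []) (v' := sM left v r h l 1 ++
      (segm id (pt v (om left).val (-h) (-l)) (om left).val (2 * h) ++ sM left v r h l 2))
    (h1.cast rfl rfl (by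
      simp only [sM, Matrix.cons_val, List.append_assoc]
      congr 1
      congr 1
      · exact segm_cast (by congr 2; push_cast [hr]; ring) (by congr 2; push_cast [hr]; ring) rfl
      congr 1
      · exact segm_cast (by congr 2; push_cast [hr]; ring) (by congr 2; push_cast [hr]; ring) rfl
      congr 1
      · exact segm_cast (by congr 2; push_cast; ring) (by congr 2; push_cast; ring) rfl
      congr 1
      · exact segm_cast (by congr 2 <;> push_cast <;> ring) (by congr 2 <;> push_cast <;> ring) rfl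
      · exact segm_cast (by congr 2; ring) (by congr 2; ring) rfl))
    (h2.cast rfl rfl (by
      rw [segm_rvw, pt_0, List.nil_append]
      simp only [sM, Matrix.cons_val, List.append_assoc]
      congr 1
      · exact segm_cast (by congr 2; push_cast; ring) (by congr 2; push_cast; ring) (by ring)
      congr 1
      · exact segm_cast (by congr 2; push_cast; ring) (by congr 2; push_cast; ring) (by ring)
      congr 1
      · exact segm_cast (by congr 2 <;> push_cast <;> ring) (by congr 2 <;> push_cast <;> ring)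
          (by ring)
      · exact segm_cast (by congr 2; push_cast; ring) (by congr 2; push_cast; ring) (by ring)))
    (by
      intro h0
      have := congrArg List.length h0
      rw [segm_length] at this
      simp at this
      omega)
    (mth_disj left v r h l)
  rw [← mth_set] at h3
  refine ⟨segm id (pt v (om left).val r 0) ((om left).val + 1) r ++
      (segm id (pt v (om left).val r r) ((om left).val + 2) (2 * r) ++
        segm id (pt v (om left).val (-r) r) ((om left).val + 3) r), ?_, ?_⟩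
  · have h4 := h3.cast (v := [] ++ ((sM left v r h l 0 ++ sM left v r h l 1) ++
          (segm id (pt v (om left).val (-h) (-l)) (om left).val (2 * h) ++
            ((sM left v r h l 2 ++ sM left v r h l 3) ++
      (segm id (pt v (om left).val r 0) ((om left).val + 1) r ++
      (segm id (pt v (om left).val r r) ((om left).val + 2) (2 * r) ++
        segm id (pt v (om left).val (-r) r) ((om left).val + 3) r)))))) rfl rfl (by
      simp only [List.append_assoc, lft_nil, List.nil_append])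
    refine h4.complete ?_
    intro z hz
    simp only [sM, Matrix.cons_val, List.mem_append, List.not_mem_nil, false_or] at hz
    rcases hz with (hz | hz) | hz | (hz | hz) | hz | hz | hz
    · obtain ⟨i, hi, e⟩ := side0 (S := Mth left v r h l) z hz
      rw [e, fR_mth]; omega
    · obtain ⟨i, hi, e⟩ := side3' (S := Mth left v r h l) z hz
      rw [e, fR_mth]; omega
    · obtain ⟨i, hi, e⟩ := side0 (S := Mth left v r h l) z hz
      rw [e, fR_mth]; omega
    · obtain ⟨i, hi, e⟩ := side1 (S := Mth left v r h l) z hz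
      rw [e, fR_mth]; omega
    · obtain ⟨i, hi, e⟩ := side0 (S := Mth left v r h l) z hz
      rw [e, fR_mth]; omega
    · obtain ⟨i, hi, e⟩ := side1 (S := Mth left v r h l) z hz
      rw [e, fR_mth]; omega
    · obtain ⟨i, hi, e⟩ := side2 (S := Mth left v r h l) z hz
      rw [e, fR_mth]; omega
    · obtain ⟨i, hi, e⟩ := side3 (S := Mth left v r h l) z hz
      rw [e, fR_mth]; omega
  · intro z hz
    simp only [List.mem_append] at hz
    rcases hz with hz | hz | hz | hz
    · obtain ⟨i, hi, e⟩ := side0 (S := Mth left v (r + 1) h (l + 1)) z hz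
      rw [e, fR_mth]; push_cast; omega
    · obtain ⟨i, hi, e⟩ := side1 (S := Mth left v (r + 1) h (l + 1)) z hz
      rw [e, fR_mth]; push_cast; omega
    · obtain ⟨i, hi, e⟩ := side2 (S := Mth left v (r + 1) h (l + 1)) z hz
      rw [e, fR_mth]; push_cast; omega
    · obtain ⟨i, hi, e⟩ := side3 (S := Mth left v (r + 1) h (l + 1)) z hz
      rw [e, fR_mth]; push_cast; omega

/-! ### The walls -/

theorem wOut_segm {c : ℤ} (hc : dz e = dv c) : a ∈ wOut e p n ↔ (a, c) ∈ segm id p c n := by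
  unfold wOut
  rw [Finset.mem_image, hc]
  constructor
  · rintro ⟨t, ht, rfl⟩
    have h1 := segm_mem (p := p) (d := c) (Finset.mem_range.mp ht)
    have e : p + (t : ℤ) • dv c + dv c = p + ((t : ℤ) + 1) • dv c := by module
    rwa [e] at h1
  · intro h
    obtain ⟨i, hi, e⟩ := mem_segmP h
    refine ⟨i, Finset.mem_range.mpr hi, ?_⟩
    have e' := (Prod.mk.inj e).1
    rw [e']
    simp only [id]
    congr 1
    module

theorem wOut_sub (k : ℕ) (hq : q = p + (k : ℤ) • dz e) (hk : k + n ≤ N) : wOut e q n ⊆ wOut e p N := by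
  intro x hx
  unfold wOut at hx ⊢
  obtain ⟨t, ht, rfl⟩ := Finset.mem_image.mp hx
  have ht' := Finset.mem_range.mp ht
  refine Finset.mem_image.mpr ⟨k + t, Finset.mem_range.mpr (by omega), ?_⟩
  rw [hq]
  push_cast
  congr 1 <;> module

theorem mthWall_mono {R L : ℕ} (h1 : h ≤ r) (h2 : r ≤ R) (h3 : l ≤ L) (i : Fin 4) :
    mthWall left v r h l i ⊆ mthWall left v R h L i := by
  obtain ⟨v1, v2⟩ := v
  unfold mthWall
  cases left
  · simp only [Bool.false_eq_true, if_false]
    fin_cases i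
    · refine wOut_sub (R - r) ?_ (by omega)
      rw [WG.dz3]
      ext <;> simp <;> omega
    · refine wOut_sub 0 ?_ (by omega)
      simp
    · refine wOut_sub (L - l) ?_ (by omega)
      rw [WG.dz0]
      ext <;> simp <;> omega
    · refine wOut_sub 0 ?_ (by omega)
      simp
  · simp only [if_true]
    fin_cases i
    · refine wOut_sub (R - r) ?_ (by omega)
      rw [WG.dz1]
      ext <;> simp <;> omega
    · refine wOut_sub 0 ?_ (by omega)
      simp
    · refine wOut_sub (L - l) ?_ (by omega)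
      rw [WG.dz2]
      ext <;> simp <;> omega
    · refine wOut_sub 0 ?_ (by omega)
      simp

/-- **The walls are the segments of the word.** -/
theorem mem_mthWall {i : Fin 4} : a ∈ mthWall left v r h l i ↔ (a, dM left i) ∈ sM left v r h l i := by
  obtain ⟨v1, v2⟩ := v
  cases left
  · have e1 : (((om false).val : ℕ) : ℤ) = 3 := rfl
    have e3 : dv (3 + 1) = (1, 0) := rfl
    unfold mthWall sM dM
    rw [e1]
    simp only [Bool.false_eq_true, if_false]
    fin_cases i
    · show a ∈ wOut 3 (v1, v2 + r) (r - h) ↔ (a, (3 : ℤ)) ∈ segm id (pt (v1, v2) 3 (-r) 0) 3 (r - h)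
      rw [wOut_segm (c := 3) rfl]
      unfold pt
      rw [dv3, e3]
      simp
    · show a ∈ wOut 2 (v1, v2 + h) l ↔ (a, (3 - 1 : ℤ)) ∈ segm id (pt (v1, v2) 3 (-h) 0) (3 - 1) l
      rw [wOut_segm (c := 3 - 1) rfl]
      unfold pt
      rw [dv3, e3]
      simp
    · show a ∈ wOut 0 (v1 - l, v2 - h) l ↔ (a, (3 + 1 : ℤ)) ∈ segm id (pt (v1, v2) 3 h (-l)) (3 + 1) l
      rw [wOut_segm (c := 3 + 1) rfl]
      unfold pt
      rw [dv3, e3]
      simp [sub_eq_add_neg]
    · show a ∈ wOut 3 (v1, v2 - h) (r - h) ↔ (a, (3 : ℤ)) ∈ segm id (pt (v1, v2) 3 h 0) 3 (r - h)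
      rw [wOut_segm (c := 3) rfl]
      unfold pt
      rw [dv3, e3]
      simp [sub_eq_add_neg]
  · have e1 : (((om true).val : ℕ) : ℤ) = 1 := rfl
    have e3 : dv (1 + 1) = (-1, 0) := rfl
    unfold mthWall sM dM
    rw [e1]
    simp only [if_true]
    fin_cases i
    · show a ∈ wOut 1 (v1, v2 - r) (r - h) ↔ (a, (1 : ℤ)) ∈ segm id (pt (v1, v2) 1 (-r) 0) 1 (r - h)
      rw [wOut_segm (c := 1) rfl]
      unfold pt
      rw [dv1, e3]
      simp [sub_eq_add_neg]
    · show a ∈ wOut 0 (v1, v2 - h) l ↔ (a, (1 - 1 : ℤ)) ∈ segm id (pt (v1, v2) 1 (-h) 0) (1 - 1) l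
      rw [wOut_segm (c := 1 - 1) rfl]
      unfold pt
      rw [dv1, e3]
      simp [sub_eq_add_neg]
    · show a ∈ wOut 2 (v1 + l, v2 + h) l ↔ (a, (1 + 1 : ℤ)) ∈ segm id (pt (v1, v2) 1 h (-l)) (1 + 1) l
      rw [wOut_segm (c := 1 + 1) rfl]
      unfold pt
      rw [dv1, e3]
      simp [sub_eq_add_neg]
    · show a ∈ wOut 1 (v1, v2 + h) (r - h) ↔ (a, (1 : ℤ)) ∈ segm id (pt (v1, v2) 1 h 0) 1 (r - h)
      rw [wOut_segm (c := 1) rfl]
      unfold pt
      rw [dv1, e3]
      simp [sub_eq_add_neg]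

theorem lift_sM {i : Fin 4} {z : ((ℤ × ℤ) × (ℤ × ℤ)) × ℤ} (hz : z ∈ sM left v r h l i) :
    z.2 = dM left i := by
  unfold sM at hz
  unfold dM
  fin_cases i <;> obtain ⟨j, hj, rfl⟩ := mem_segmP hz <;> rfl

/-- **Boundary sides of a mouth.** -/
theorem bS_mth (hh : 0 < h) (hr : h ≤ r) (hl : 0 < l) (ha : a ∈ bS ZQ (Mth left v r h l)) :
    (∃ i, a ∈ mthWall left v r h l i) ∨
      a.swap ∈ Sides ZQ ((Mth left v (r + 1) h (l + 1) : Finset (ℤ × ℤ)) : Set (ℤ × ℤ)) := by
  obtain ⟨N₂, hD, hN⟩ := disc_mth left v hh hr hl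
  obtain ⟨z, hz, rfl⟩ := List.mem_map.mp ((hD.mem_bS (disc_ini hD)).mp ha)
  simp only [List.mem_append, List.not_mem_nil, false_or] at hz
  have key : ∀ i, z ∈ sM left v r h l i → ∃ i, z.1 ∈ mthWall left v r h l i := fun i hi => by
    refine ⟨i, ?_⟩
    rw [mem_mthWall, ← lift_sM hi]
    exact hi
  rcases hz with (hz | hz) | hz | (hz | hz) | hz
  · exact Or.inl (key 0 hz)
  · exact Or.inl (key 1 hz)
  · exact Or.inr (hN z (Or.inl hz))
  · exact Or.inl (key 2 hz)
  · exact Or.inl (key 3 hz)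
  · exact Or.inr (hN z (Or.inr hz))

theorem bS_of_mthWall (hh : 0 < h) (hr : h ≤ r) (hl : 0 < l) {i : Fin 4}
    (ha : a ∈ mthWall left v r h l i) : a ∈ bS ZQ (Mth left v r h l) := by
  obtain ⟨N₂, hD, hN⟩ := disc_mth left v hh hr hl
  refine (hD.mem_bS (disc_ini hD)).mpr (List.mem_map.mpr ⟨(a, dM left i), ?_, rfl⟩)
  have h1 := mem_mthWall.mp ha
  simp only [List.mem_append, List.not_mem_nil, false_or]
  fin_cases i
  · exact Or.inl (Or.inl h1)
  · exact Or.inl (Or.inr h1)
  · exact Or.inr (Or.inr (Or.inl (Or.inl h1)))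
  · exact Or.inr (Or.inr (Or.inl (Or.inr h1)))

/-- the two ends of the tube -/
def lo (i : Fin 4) : Prop := i.val < 2

instance (i : Fin 4) : Decidable (lo i) := by unfold lo; infer_instance

/-- **Weights of the arcs of a mouth.** -/
theorem mth_wt {ψ : (ℤ × ℤ) × (ℤ × ℤ) → ℝ} {J : ℝ} {P : Fin 4 → ℝ} (hh : 0 < h) (hr : h ≤ r)
    (hl : 0 < l) (hP : ∀ i, ∀ a ∈ mthWall left v r h l i, ψ a = P i) (h1 : P 1 - P 0 = Real.pi / 12)
    (h2 : P 2 - P 1 + 2 * (Real.pi / 12) = J) (h3 : P 3 - P 2 = Real.pi / 12)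
    (hab : mate ZQ (Mth left v r h l) ω a = b) {i j : Fin 4} (ha : a ∈ mthWall left v r h l i)
    (hb : b ∈ mthWall left v r h l j) : wt ZQ (Mth left v r h l) ω ψ a =
      Real.sqrt 3 * (if lo i ↔ lo j then 1 else tJ J) := by
  obtain ⟨N₂, hD, hN⟩ := disc_mth left v hh hr hl
  have hth : ∀ i, ∀ x ∈ sM left v r h l i, th ψ x = P i + (dM left i : ℝ) * (Real.pi / 12) := by
    intro i x hx
    have e := lift_sM hx
    have hx' : x.1 ∈ mthWall left v r h l i := by
      rw [mem_mthWall, ← e]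
      exact hx
    unfold th
    rw [hP i _ hx', e]
  have hA : ∀ x ∈ sM left v r h l 0 ++ sM left v r h l 1,
      th ψ x = P 0 + ((om left).val : ℝ) * (Real.pi / 12) := by
    intro x hx
    rcases List.mem_append.mp hx with hx | hx
    · rw [hth 0 x hx]
      simp [dM]
    · rw [hth 1 x hx, show P 1 = P 0 + Real.pi / 12 by linarith]
      simp only [dM, Matrix.cons_val]
      push_cast
      ring
  have hB : ∀ x ∈ sM left v r h l 2 ++ sM left v r h l 3,
      th ψ x = P 0 + ((om left).val : ℝ) * (Real.pi / 12) + J := by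
    intro x hx
    have e2 : P 2 = P 0 - Real.pi / 12 + J := by linarith
    rcases List.mem_append.mp hx with hx | hx
    · rw [hth 2 x hx, e2]
      simp only [dM, Matrix.cons_val]
      push_cast
      ring
    · rw [hth 3 x hx, show P 3 = P 0 + J by linarith]
      simp only [dM, Matrix.cons_val]
      push_cast
      ring
  have key := wt_two (x := (a, dM left i)) (y := (b, dM left j)) hD (disc_ini hD) hA hB hab
  have ha' := mem_mthWall.mp ha
  have hb' := mem_mthWall.mp hb
  have hAi : ∀ {i : Fin 4} {z}, lo i → z ∈ sM left v r h l i →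
      z ∈ sM left v r h l 0 ++ sM left v r h l 1 := by
    intro i z hi hz
    rw [List.mem_append]
    fin_cases i
    · exact Or.inl hz
    · exact Or.inr hz
    · exact absurd hi (by decide)
    · exact absurd hi (by decide)
  have hBi : ∀ {i : Fin 4} {z}, ¬ lo i → z ∈ sM left v r h l i →
      z ∈ sM left v r h l 2 ++ sM left v r h l 3 := by
    intro i z hi hz
    rw [List.mem_append]
    fin_cases i
    · exact absurd (show lo 0 by decide) hi
    · exact absurd (show lo 1 by decide) hi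
    · exact Or.inl hz
    · exact Or.inr hz
  by_cases hi : lo i <;> by_cases hj : lo j
  · rw [if_pos ⟨fun _ => hj, fun _ => hi⟩, mul_one]
    exact key.1 (hAi hi ha') (hAi hj hb')
  · rw [if_neg (fun hc => hj (hc.mp hi)), key.2.2.1 (hAi hi ha') (hBi hj hb'), add_sub_cancel_left]
  · rw [if_neg (fun hc => hi (hc.mpr hj)), key.2.2.2 (hBi hi ha') (hAi hj hb'), add_sub_cancel_left]
  · rw [if_pos ⟨fun hc => absurd hc hi, fun hc => absurd hc hj⟩, mul_one]
    exact key.2.1 (hBi hi ha') (hBi hj hb')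

end plane

/-! ## Charts of mouths -/

section charts

variable {V Φ : Type} [DecidableEq V] [DecidableEq Φ]
variable {Q : QC V Φ} {F : Finset Φ} {left : Bool} {v : ℤ × ℤ} {R h L ρ l : ℕ}
  {ω : Φ → Bool} {a b : V × V} {ψ : V × V → ℝ} {J : ℝ}

/-- the region of radius `ρ` and length `l` in the chart of a mouth -/
def mBox (c : MChart Q F left v R h L) (ρ l : ℕ) : Finset Φ := (Mth left v ρ h l).image c.φF

/-- its walls -/
def mW (c : MChart Q F left v R h L) (ρ l : ℕ) (j : Fin 4) : Finset (V × V) :=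
  (mthWall left v ρ h l j).image c.side

theorem mth_mono (h1 : ρ ≤ R) (h2 : l ≤ L) : Mth left v ρ h l ⊆ Mth left v R h L :=
  WG.Mth_mono h1 h2

theorem mth_chart (c : MChart Q F left v R h L) (h1 : ρ ≤ R) (h2 : l ≤ L) :
    QChart ZQ Q (Mth left v ρ h l) c.φV c.φF 0 := (qchart c.toPChart).mono (mth_mono h1 h2)

theorem mBox_sub_F (c : MChart Q F left v R h L) (h1 : ρ ≤ R) (h2 : l ≤ L) : mBox c ρ l ⊆ F := by
  intro x hx
  obtain ⟨f, hf, rfl⟩ := Finset.mem_image.mp hx
  exact c.sub f (mth_mono h1 h2 hf)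

theorem mBox_mono (c : MChart Q F left v R h L) {ρ' l' : ℕ} (h1 : ρ ≤ ρ') (h2 : l ≤ l') :
    mBox c ρ l ⊆ mBox c ρ' l' := Finset.image_subset_image (mth_mono h1 h2)

theorem mW_sub_F (c : MChart Q F left v R h L) (h0 : h ≤ ρ) (h1 : ρ ≤ R) (h2 : l ≤ L) (j : Fin 4) :
    mW c ρ l j ⊆ bS Q F := by
  intro x hx
  obtain ⟨s, hs, rfl⟩ := Finset.mem_image.mp hx
  exact c.bd j s (mthWall_mono h0 h1 h2 j hs)

theorem mW_mono (c : MChart Q F left v R h L) {ρ' l' : ℕ} (h0 : h ≤ ρ) (h1 : ρ ≤ ρ') (h2 : l ≤ l')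
    (j : Fin 4) : mW c ρ l j ⊆ mW c ρ' l' j :=
  Finset.image_subset_image (mthWall_mono h0 h1 h2 j)

theorem mW_sub_box (c : MChart Q F left v R h L) (hh : 0 < h) (h0 : h ≤ ρ) (h1 : ρ ≤ R) (hl : 0 < l)
    (h2 : l ≤ L) (j : Fin 4) : mW c ρ l j ⊆ bS Q (mBox c ρ l) := by
  intro x hx
  obtain ⟨s, hs, rfl⟩ := Finset.mem_image.mp hx
  unfold mBox
  rw [PC.bS_map (mth_chart c h1 h2)]
  exact Finset.mem_image_of_mem _ (bS_of_mthWall hh h0 hl hs)

/-- **(i)** a boundary side of the region which is a boundary side of the surface is on a wall -/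
theorem mem_mW (c : MChart Q F left v R h L) (hh : 0 < h) (h0 : h ≤ ρ) (h1 : ρ < R) (hl : 0 < l)
    (h2 : l < L) (hb : b ∈ bS Q (mBox c ρ l)) (hF : b ∈ bS Q F) : ∃ j, b ∈ mW c ρ l j := by
  have hC := mth_chart c h1.le h2.le
  unfold mBox at hb
  rw [PC.bS_map hC] at hb
  obtain ⟨s, hs, rfl⟩ := Finset.mem_image.mp hb
  rcases bS_mth hh h0 hl hs with ⟨j, h3⟩ | h3
  · exact ⟨j, Finset.mem_image_of_mem _ h3⟩
  · exfalso
    obtain ⟨f, hf, k, hk⟩ := h3
    have hf' : f ∈ Mth left v R h L :=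
      mth_mono (show ρ + 1 ≤ R by omega) (show l + 1 ≤ L by omega) (by exact_mod_cast hf)
    have h4 := (PC.toMap (mth_chart c le_rfl le_rfl) (fun _ => false)).sd_eq hf' k
    rw [add_zero] at h4
    have h5 : (sd Q (c.φF f) k).swap = mv c.φV s := by
      rw [h4, ← hk]
      rfl
    exact (mem_bS.mp hF).2 (c.φF f) (by exact_mod_cast c.sub f hf') k h5.symm

/-- the mate of a side in the region -/
theorem mate_mside (c : MChart Q F left v R h L) (h1 : ρ ≤ R) (h2 : l ≤ L)
    {s : (ℤ × ℤ) × (ℤ × ℤ)} (hs : s ∈ bS ZQ (Mth left v ρ h l)) :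
    mate Q (mBox c ρ l) ω (c.side s) = c.side (mate ZQ (Mth left v ρ h l) (pb c.φF ω) s) :=
  PC.mate_map (mth_chart c h1 h2) hs

theorem wt_mside (c : MChart Q F left v R h L) (h1 : ρ ≤ R) (h2 : l ≤ L)
    {s : (ℤ × ℤ) × (ℤ × ℤ)} (hs : s ∈ bS ZQ (Mth left v ρ h l)) :
    wt Q (mBox c ρ l) ω ψ (c.side s) =
      wt ZQ (Mth left v ρ h l) (pb c.φF ω) (fun x => ψ (c.side x)) s :=
  PC.wt_map (mth_chart c h1 h2) hs ψ

/-- **(ii)** the weights of the arcs from wall to wall -/
theorem wt_mW (c : MChart Q F left v R h L) (hh : 0 < h) (h0 : h ≤ ρ) (h1 : ρ ≤ R) (hl : 0 < l)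
    (h2 : l ≤ L) (hN : c.Nat ψ J) (hm : mate Q (mBox c ρ l) ω a = b) {i j : Fin 4}
    (ha : a ∈ mW c ρ l i) (hb : b ∈ mW c ρ l j) : wt Q (mBox c ρ l) ω ψ a =
      Real.sqrt 3 * (if lo i ↔ lo j then 1 else tJ J) := by
  obtain ⟨P, hP, e1, e2, e3⟩ := hN
  obtain ⟨s, hs, rfl⟩ := Finset.mem_image.mp ha
  obtain ⟨t, ht, rfl⟩ := Finset.mem_image.mp hb
  have bs := bS_of_mthWall hh h0 hl hs
  have bt := bS_of_mthWall hh h0 hl ht
  have bM : ∀ {s}, s ∈ bS ZQ (Mth left v ρ h l) → s ∈ dE ZQ (Mth left v R h L) := fun hs =>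
    Rel.dE_mono (mth_mono h1 h2) (mem_bS.mp hs).1
  rw [mate_mside c h1 h2 bs] at hm
  have hm' := PC.mv_inj (mth_chart c le_rfl le_rfl) (bM (mate_mem bs)) (bM bt) hm
  rw [wt_mside c h1 h2 bs]
  exact mth_wt hh h0 hl (fun i x hx => hP i x (mthWall_mono h0 h1 h2 i hx)) e1 e2 e3 hm' hs ht

/-- **(iii)** natural mouths: the arc of a wall side whose mate in the region is a boundary side of the surface
ends on a wall and has the weight `√3` -/
theorem mth_nat (c : MChart Q F left v R h L) (hh : 0 < h) (h0 : h ≤ ρ) (h1 : ρ < R) (hl : 0 < l)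
    (h2 : l < L) (hN : c.Nat ψ 0 ∨ c.Nat ψ (Real.pi / 3)) {i : Fin 4} (ha : a ∈ mW c ρ l i)
    (hb : mate Q (mBox c ρ l) ω a ∈ bS Q F) :
    (∃ j, mate Q (mBox c ρ l) ω a ∈ mW c ρ l j) ∧ wt Q (mBox c ρ l) ω ψ a = Real.sqrt 3 := by
  obtain ⟨j, hj⟩ := mem_mW c hh h0 h1 hl h2
    (mate_mem (mW_sub_box c hh h0 h1.le hl h2.le i ha)) hb
  refine ⟨⟨j, hj⟩, ?_⟩
  rcases hN with hN | hN
  · rw [wt_mW c hh h0 h1.le hl h2.le hN rfl ha hj, tJ_zero]
    simp
  · rw [wt_mW c hh h0 h1.le hl h2.le hN rfl ha hj, tJ_third]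
    simp

/-- the same for any boundary side of the surface which is a side of the region -/
theorem mth_nat' (c : MChart Q F left v R h L) (hh : 0 < h) (h0 : h ≤ ρ) (h1 : ρ < R) (hl : 0 < l)
    (h2 : l < L) (hN : c.Nat ψ 0 ∨ c.Nat ψ (Real.pi / 3)) (ha : a ∈ bS Q (mBox c ρ l))
    (haF : a ∈ bS Q F) (hb : mate Q (mBox c ρ l) ω a ∈ bS Q F) :
    (∃ i, a ∈ mW c ρ l i) ∧ (∃ j, mate Q (mBox c ρ l) ω a ∈ mW c ρ l j) ∧
      wt Q (mBox c ρ l) ω ψ a = Real.sqrt 3 := by
  obtain ⟨i, hi⟩ := mem_mW c hh h0 h1 hl h2 ha haF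
  exact ⟨⟨i, hi⟩, mth_nat c hh h0 h1 hl h2 hN hi hb⟩

end charts

end

end Pool.Agent.SixB.S3T
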