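import Pool.Agent.Lib.SixB.S3Turn

/-!
# 6BD step 3, row R4 (2): boundary sides and weights in the boxes of a wedge chart

`c : WChart Q F m o v r`, `1 ≤ m ≤ 3`, `c.box ρ`, `c.walls ρ` as in S3AtlDefs; `inW c ρ`, `outW c ρ`: the two walls.
* `bS_wdg`: boundary sides of `Wdg m o v r`; `wdg_wt`: weights of its arcs from wall to wall.
* `mem_walls`: a boundary side of `c.box ρ` (`ρ < r`) which is a boundary side of `F` is on the walls.
* `wt_same_in`, `wt_same_out`, `wt_in_out`, `wt_out_in`: weights `√3`, `√3`, `√3 * tJ J`, `√3 * tJ J`.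
* `wall_arc`: the arc of a wall side in `c.box ρ` with the mate in `bS Q F`.
* `card_cross`: the number of arcs from wall to wall is `Nwd`.
-/

set_option autoImplicit false
set_option linter.unusedSectionVars false
set_option linter.unusedSimpArgs false
set_option linter.unusedVariables false

namespace Pool.Agent.SixB.S3T

open Pool.Agent.Perc.Q Pool.Agent.Perc Pool.Agent.SixB
open Pool.Agent.SixB.Rel (QChart QMap)
open Pool.Agent.SixB.PC (mv pb)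

noncomputable section

/-! ## The plane -/

section plane

variable {v : ℤ × ℤ} {o : ZMod 4} {m r ρ : ℕ} {a b : (ℤ × ℤ) × (ℤ × ℤ)} {ω : ℤ × ℤ → Bool}

theorem disc_ini {V Φ : Type} {Q : QC V Φ} {S : Set Φ} {w : List ((V × V) × ℤ)}
    (h : Disc Q S (Glued Q S) w) : ∀ e ∈ w.map Prod.fst, Ini Q S e := by
  intro e he
  obtain ⟨x, hx, rfl⟩ := List.mem_map.mp he
  exact ini_of_bd (h.bd hx).2

theorem pos_of_mem_wIn {e : ZMod 4} (h : a ∈ wIn e v r) : 0 < r := by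
  unfold wIn at h
  obtain ⟨t, ht, -⟩ := Finset.mem_image.mp h
  have := Finset.mem_range.mp ht
  omega

theorem pos_of_mem_wOut (h : a ∈ wOut o v r) : 0 < r := by
  unfold wOut at h
  obtain ⟨t, ht, -⟩ := Finset.mem_image.mp h
  have := Finset.mem_range.mp ht
  omega

theorem wIn_mono {e : ZMod 4} (h : ρ ≤ r) : wIn e v ρ ⊆ wIn e v r :=
  Finset.image_subset_image (Finset.range_mono h)

theorem wOut_mono (h : ρ ≤ r) : wOut o v ρ ⊆ wOut o v r :=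
  Finset.image_subset_image (Finset.range_mono h)

/-- **Boundary sides of a wedge.** -/
theorem bS_wdg (h1 : 1 ≤ m) (h3 : m ≤ 3) (hr : 0 < r) (h : a ∈ bS ZQ (Wdg m o v r)) :
    a ∈ wIn (o + m) v r ∨ a ∈ wOut o v r ∨
      a.swap ∈ Sides ZQ ((Wdg m o v (r + 1) : Finset (ℤ × ℤ)) : Set (ℤ × ℤ)) := by
  obtain ⟨N₀, N₂, hD, hN⟩ := disc_wdg h1 h3 hr o v
  obtain ⟨z, hz, rfl⟩ := List.mem_map.mp ((hD.mem_bS (disc_ini hD)).mp h)
  simp only [List.mem_append, List.not_mem_nil, false_or] at hz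
  rcases hz with hz | hz | hz | hz
  · exact Or.inr (Or.inr (hN z (Or.inl hz)))
  · left
    rw [mem_wIn h1 h3, ← lift_sIn hz]
    exact hz
  · right; left
    rw [mem_wOut, ← lift_sOut hz]
    exact hz
  · exact Or.inr (Or.inr (hN z (Or.inr hz)))

theorem bS_of_wIn (h1 : 1 ≤ m) (h3 : m ≤ 3) (h : a ∈ wIn (o + m) v r) :
    a ∈ bS ZQ (Wdg m o v r) := by
  obtain ⟨N₀, N₂, hD, hN⟩ := disc_wdg h1 h3 (pos_of_mem_wIn h) o v
  refine (hD.mem_bS (disc_ini hD)).mpr (List.mem_map.mpr ⟨(a, (o.val : ℤ) + m - 2), ?_, rfl⟩)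
  simp only [List.mem_append]
  exact Or.inr (Or.inl ((mem_wIn h1 h3).mp h))

theorem bS_of_wOut (h1 : 1 ≤ m) (h3 : m ≤ 3) (h : a ∈ wOut o v r) :
    a ∈ bS ZQ (Wdg m o v r) := by
  obtain ⟨N₀, N₂, hD, hN⟩ := disc_wdg h1 h3 (pos_of_mem_wOut h) o v
  refine (hD.mem_bS (disc_ini hD)).mpr (List.mem_map.mpr ⟨(a, (o.val : ℤ)), ?_, rfl⟩)
  simp only [List.mem_append]
  exact Or.inr (Or.inr (Or.inr (Or.inl (mem_wOut.mp h))))

/-- the two walls are disjoint -/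
theorem wIn_disj_wOut (h1 : 1 ≤ m) (h3 : m ≤ 3) (h : a ∈ wIn (o + m) v r) : a ∉ wOut o v r := by
  intro h'
  obtain ⟨N₀, N₂, hD, hN⟩ := disc_wdg h1 h3 (pos_of_mem_wIn h) o v
  have hd := hD.inv.nodup
  simp only [List.map_append, List.map_nil, List.nil_append] at hd
  have h2 := (List.nodup_append.mp hd).2.1
  have h4 := (List.nodup_append.mp h2).2.2
  exact h4 a (List.mem_map.mpr ⟨_, (mem_wIn h1 h3).mp h, rfl⟩) a
    (List.mem_append.mpr (Or.inl (List.mem_map.mpr ⟨_, mem_wOut.mp h', rfl⟩))) rfl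

/-- **Weights of the arcs of a wedge.** -/
theorem wdg_wt {ψ : (ℤ × ℤ) × (ℤ × ℤ) → ℝ} {p q J : ℝ} (h1 : 1 ≤ m) (h3 : m ≤ 3) (hr : 0 < r)
    (hp : ∀ a ∈ wIn (o + m) v r, ψ a = p) (hq : ∀ a ∈ wOut o v r, ψ a = q)
    (hJ : q - p + ((2 : ℝ) - m) * (Real.pi / 12) = J) (hab : mate ZQ (Wdg m o v r) ω a = b) :
    (a ∈ wIn (o + m) v r → b ∈ wIn (o + m) v r → wt ZQ (Wdg m o v r) ω ψ a = Real.sqrt 3) ∧
      (a ∈ wOut o v r → b ∈ wOut o v r → wt ZQ (Wdg m o v r) ω ψ a = Real.sqrt 3) ∧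
      (a ∈ wIn (o + m) v r → b ∈ wOut o v r → wt ZQ (Wdg m o v r) ω ψ a = Real.sqrt 3 * tJ J) ∧
        (a ∈ wOut o v r → b ∈ wIn (o + m) v r →
          wt ZQ (Wdg m o v r) ω ψ a = Real.sqrt 3 * tJ J) := by
  obtain ⟨N₀, N₂, hD, hN⟩ := disc_wdg h1 h3 hr o v
  have hA : ∀ x ∈ sIn m o v r, th ψ x = p + ((o.val : ℝ) + m - 2) * (Real.pi / 12) := by
    intro x hx
    have e := lift_sIn hx
    have hx' : x.1 ∈ wIn (o + m) v r := by
      rw [mem_wIn h1 h3, ← e]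
      exact hx
    unfold th
    rw [hp _ hx', e]
    push_cast
    ring
  have hB : ∀ x ∈ sOut o v r, th ψ x = q + (o.val : ℝ) * (Real.pi / 12) := by
    intro x hx
    have e := lift_sOut hx
    have hx' : x.1 ∈ wOut o v r := by
      rw [mem_wOut, ← e]
      exact hx
    unfold th
    rw [hq _ hx', e]
    push_cast
    ring
  have e : q + (o.val : ℝ) * (Real.pi / 12) - (p + ((o.val : ℝ) + m - 2) * (Real.pi / 12)) = J := by
    rw [← hJ]
    ring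
  refine ⟨fun ha hb => ?_, fun ha hb => ?_, fun ha hb => ?_, fun ha hb => ?_⟩
  · exact (wt_two (x := (a, _)) (y := (b, _)) hD (disc_ini hD) hA hB hab).1
      ((mem_wIn h1 h3).mp ha) ((mem_wIn h1 h3).mp hb)
  · exact (wt_two (x := (a, _)) (y := (b, _)) hD (disc_ini hD) hA hB hab).2.1
      (mem_wOut.mp ha) (mem_wOut.mp hb)
  · rw [← e]
    exact (wt_two (x := (a, _)) (y := (b, _)) hD (disc_ini hD) hA hB hab).2.2.1
      ((mem_wIn h1 h3).mp ha) (mem_wOut.mp hb)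
  · rw [← e]
    exact (wt_two (x := (a, _)) (y := (b, _)) hD (disc_ini hD) hA hB hab).2.2.2
      (mem_wOut.mp ha) ((mem_wIn h1 h3).mp hb)

end plane

/-! ## Charts -/

section charts

variable {V Φ : Type} [DecidableEq V] [DecidableEq Φ]
variable {Q : QC V Φ} {F : Finset Φ} {m r ρ : ℕ} {o : ZMod 4} {v : ℤ × ℤ} {R : Finset (ℤ × ℤ)}
  {ω : Φ → Bool} {a b : V × V} {ψ : V × V → ℝ} {J : ℝ}

theorem qchart (c : PChart Q F R) : QChart ZQ Q R c.φV c.φF 0 :=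
  ⟨c.inj, fun f hf k => by rw [add_zero]; exact c.cor f hf k⟩

theorem box_chart (c : WChart Q F m o v r) (h : ρ ≤ r) :
    QChart ZQ Q (Wdg m o v ρ) c.φV c.φF 0 := (qchart c.toPChart).mono (Wdg_mono h)

/-- the wall towards the vertex -/
def inW (c : WChart Q F m o v r) (ρ : ℕ) : Finset (V × V) := (wIn (o + m) v ρ).image c.side

/-- the wall away from the vertex -/
def outW (c : WChart Q F m o v r) (ρ : ℕ) : Finset (V × V) := (wOut o v ρ).image c.side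

theorem walls_eq (c : WChart Q F m o v r) (ρ : ℕ) : c.walls ρ = inW c ρ ∪ outW c ρ :=
  Finset.image_union _ _

theorem walls_sub_box (c : WChart Q F m o v r) (h1 : 1 ≤ m) (h3 : m ≤ 3) (h : ρ ≤ r) :
    c.walls ρ ⊆ bS Q (c.box ρ) := by
  intro x hx
  unfold WChart.walls at hx
  obtain ⟨s, hs, rfl⟩ := Finset.mem_image.mp hx
  unfold WChart.box
  rw [PC.bS_map (box_chart c h)]
  refine Finset.mem_image_of_mem _ ?_
  rcases Finset.mem_union.mp hs with hs | hs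
  · exact bS_of_wIn h1 h3 hs
  · exact bS_of_wOut h1 h3 hs

theorem walls_sub_F (c : WChart Q F m o v r) (h : ρ ≤ r) : c.walls ρ ⊆ bS Q F := by
  intro x hx
  unfold WChart.walls at hx
  obtain ⟨s, hs, rfl⟩ := Finset.mem_image.mp hx
  rcases Finset.mem_union.mp hs with hs | hs
  · exact c.bIn s (wIn_mono h hs)
  · exact c.bOut s (wOut_mono h hs)

theorem walls_mono (c : WChart Q F m o v r) {ρ' : ℕ} (h : ρ ≤ ρ') : c.walls ρ ⊆ c.walls ρ' :=
  Finset.image_subset_image (Finset.union_subset_union (wIn_mono h) (wOut_mono h))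

theorem box_mono (c : WChart Q F m o v r) {ρ' : ℕ} (h : ρ ≤ ρ') : c.box ρ ⊆ c.box ρ' :=
  Finset.image_subset_image (Wdg_mono h)

theorem box_sub_F (c : WChart Q F m o v r) (h : ρ ≤ r) : c.box ρ ⊆ F := by
  intro x hx
  unfold WChart.box at hx
  obtain ⟨f, hf, rfl⟩ := Finset.mem_image.mp hx
  exact c.sub f (Wdg_mono h hf)

/-- **(i)** a boundary side of the box which is a boundary side of the surface is on the walls -/
theorem mem_walls (c : WChart Q F m o v r) (h1 : 1 ≤ m) (h3 : m ≤ 3) (h : ρ < r)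
    (hb : b ∈ bS Q (c.box ρ)) (hF : b ∈ bS Q F) : b ∈ c.walls ρ := by
  have hC := box_chart c h.le
  unfold WChart.box at hb
  rw [PC.bS_map hC] at hb
  obtain ⟨s, hs, rfl⟩ := Finset.mem_image.mp hb
  have hρ : 0 < ρ := by
    rcases Nat.eq_zero_or_pos ρ with rfl | h0
    · exfalso
      obtain ⟨f, hf, k, -⟩ := bS_sd hs
      have := mem_Wdg.mp hf
      omega
    · exact h0
  unfold WChart.walls
  rcases bS_wdg h1 h3 hρ hs with h2 | h2 | h2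
  · exact Finset.mem_image_of_mem _ (Finset.mem_union_left _ h2)
  · exact Finset.mem_image_of_mem _ (Finset.mem_union_right _ h2)
  · exfalso
    obtain ⟨f, hf, k, hk⟩ := h2
    have hf' : f ∈ Wdg m o v r := Wdg_mono (show ρ + 1 ≤ r by omega) (by exact_mod_cast hf)
    have h4 := (PC.toMap (box_chart c le_rfl) (fun _ => false)).sd_eq hf' k
    rw [add_zero] at h4
    have h5 : (sd Q (c.φF f) k).swap = mv c.φV s := by
      rw [h4, ← hk]
      rfl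
    exact (mem_bS.mp hF).2 (c.φF f) (by exact_mod_cast c.sub f hf') k h5.symm

theorem side_inj (c : WChart Q F m o v r) {s t : (ℤ × ℤ) × (ℤ × ℤ)} (hs : s ∈ bS ZQ (Wdg m o v r))
    (ht : t ∈ bS ZQ (Wdg m o v r)) (h : c.side s = c.side t) : s = t :=
  PC.mv_inj (box_chart c le_rfl) (mem_bS.mp hs).1 (mem_bS.mp ht).1 h

theorem in_disj_out (c : WChart Q F m o v r) (h1 : 1 ≤ m) (h3 : m ≤ 3) (h : ρ ≤ r)
    (ha : a ∈ inW c ρ) : a ∉ outW c ρ := by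
  intro hb
  obtain ⟨s, hs, rfl⟩ := Finset.mem_image.mp ha
  obtain ⟨t, ht, e⟩ := Finset.mem_image.mp hb
  have hs' := wIn_mono h hs
  have ht' := wOut_mono h ht
  have h2 := side_inj c (bS_of_wOut h1 h3 ht') (bS_of_wIn h1 h3 hs') e
  rw [h2] at ht'
  exact wIn_disj_wOut h1 h3 hs' ht'

/-- the mate of a wall side in the box -/
theorem mate_side (c : WChart Q F m o v r) (h : ρ ≤ r) {s : (ℤ × ℤ) × (ℤ × ℤ)}
    (hs : s ∈ bS ZQ (Wdg m o v ρ)) : mate Q (c.box ρ) ω (c.side s) =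
      c.side (mate ZQ (Wdg m o v ρ) (pb c.φF ω) s) := PC.mate_map (box_chart c h) hs

theorem wt_side (c : WChart Q F m o v r) (h : ρ ≤ r) {s : (ℤ × ℤ) × (ℤ × ℤ)}
    (hs : s ∈ bS ZQ (Wdg m o v ρ)) : wt Q (c.box ρ) ω ψ (c.side s) =
      wt ZQ (Wdg m o v ρ) (pb c.φF ω) (fun x => ψ (c.side x)) s := PC.wt_map (box_chart c h) hs ψ

/-- **(ii)** the weights of the arcs from wall to wall -/
theorem wt_walls (c : WChart Q F m o v r) (h1 : 1 ≤ m) (h3 : m ≤ 3) (h : ρ ≤ r) (hJ : c.Jump ψ J)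
    (hm : mate Q (c.box ρ) ω a = b) :
    (a ∈ inW c ρ → b ∈ inW c ρ → wt Q (c.box ρ) ω ψ a = Real.sqrt 3) ∧
      (a ∈ outW c ρ → b ∈ outW c ρ → wt Q (c.box ρ) ω ψ a = Real.sqrt 3) ∧
      (a ∈ inW c ρ → b ∈ outW c ρ → wt Q (c.box ρ) ω ψ a = Real.sqrt 3 * tJ J) ∧
        (a ∈ outW c ρ → b ∈ inW c ρ → wt Q (c.box ρ) ω ψ a = Real.sqrt 3 * tJ J) := by
  obtain ⟨p, q, hp, hq, hpq⟩ := hJ
  have hp' : ∀ s ∈ wIn (o + m) v ρ, (fun x => ψ (c.side x)) s = p := fun s hs =>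
    hp s (wIn_mono h hs)
  have hq' : ∀ s ∈ wOut o v ρ, (fun x => ψ (c.side x)) s = q := fun s hs =>
    hq s (wOut_mono h hs)
  have bI : ∀ {s}, s ∈ wIn (o + m) v ρ → s ∈ bS ZQ (Wdg m o v ρ) := fun hs => bS_of_wIn h1 h3 hs
  have bO : ∀ {s}, s ∈ wOut o v ρ → s ∈ bS ZQ (Wdg m o v ρ) := fun hs => bS_of_wOut h1 h3 hs
  have bM : ∀ {s}, s ∈ bS ZQ (Wdg m o v ρ) → s ∈ dE ZQ (Wdg m o v r) := fun hs =>
    Rel.dE_mono (Wdg_mono h) (mem_bS.mp hs).1
  have key : ∀ {s t}, s ∈ bS ZQ (Wdg m o v ρ) → t ∈ bS ZQ (Wdg m o v ρ) →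
      mate Q (c.box ρ) ω (c.side s) = c.side t → mate ZQ (Wdg m o v ρ) (pb c.φF ω) s = t := by
    intro s t hs ht e
    rw [mate_side c h hs] at e
    exact PC.mv_inj (box_chart c le_rfl) (bM (mate_mem hs)) (bM ht) e
  refine ⟨fun ha hb => ?_, fun ha hb => ?_, fun ha hb => ?_, fun ha hb => ?_⟩
  · obtain ⟨s, hs, rfl⟩ := Finset.mem_image.mp ha
    obtain ⟨t, ht, rfl⟩ := Finset.mem_image.mp hb
    rw [wt_side c h (bI hs)]
    exact (wdg_wt h1 h3 (pos_of_mem_wIn hs) hp' hq' hpq (key (bI hs) (bI ht) hm)).1 hs ht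
  · obtain ⟨s, hs, rfl⟩ := Finset.mem_image.mp ha
    obtain ⟨t, ht, rfl⟩ := Finset.mem_image.mp hb
    rw [wt_side c h (bO hs)]
    exact (wdg_wt h1 h3 (pos_of_mem_wOut hs) hp' hq' hpq (key (bO hs) (bO ht) hm)).2.1 hs ht
  · obtain ⟨s, hs, rfl⟩ := Finset.mem_image.mp ha
    obtain ⟨t, ht, rfl⟩ := Finset.mem_image.mp hb
    rw [wt_side c h (bI hs)]
    exact (wdg_wt h1 h3 (pos_of_mem_wIn hs) hp' hq' hpq (key (bI hs) (bO ht) hm)).2.2.1 hs ht
  · obtain ⟨s, hs, rfl⟩ := Finset.mem_image.mp ha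
    obtain ⟨t, ht, rfl⟩ := Finset.mem_image.mp hb
    rw [wt_side c h (bO hs)]
    exact (wdg_wt h1 h3 (pos_of_mem_wOut hs) hp' hq' hpq (key (bO hs) (bI ht) hm)).2.2.2 hs ht

/-- **(iii)** the arc of a wall side whose mate in the box is a boundary side of the surface -/
theorem wall_arc (c : WChart Q F m o v r) (h1 : 1 ≤ m) (h3 : m ≤ 3) (h : ρ < r) (hJ : c.Jump ψ J)
    (ha : a ∈ c.walls ρ) (hb : mate Q (c.box ρ) ω a ∈ bS Q F) :
    mate Q (c.box ρ) ω a ∈ c.walls ρ ∧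
      (((a ∈ inW c ρ ∧ mate Q (c.box ρ) ω a ∈ inW c ρ ∨ a ∈ outW c ρ ∧
          mate Q (c.box ρ) ω a ∈ outW c ρ) ∧ wt Q (c.box ρ) ω ψ a = Real.sqrt 3) ∨
        ((a ∈ inW c ρ ∧ mate Q (c.box ρ) ω a ∈ outW c ρ ∨ a ∈ outW c ρ ∧
          mate Q (c.box ρ) ω a ∈ inW c ρ) ∧ wt Q (c.box ρ) ω ψ a = Real.sqrt 3 * tJ J)) := by
  have h4 : mate Q (c.box ρ) ω a ∈ c.walls ρ :=
    mem_walls c h1 h3 h (mate_mem (walls_sub_box c h1 h3 h.le ha)) hb
  refine ⟨h4, ?_⟩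
  obtain ⟨e1, e2, e3, e4⟩ := wt_walls (ω := ω) (a := a) c h1 h3 h.le hJ rfl
  rw [walls_eq, Finset.mem_union] at ha h4
  rcases ha with ha | ha <;> rcases h4 with hb | hb
  · exact Or.inl ⟨Or.inl ⟨ha, hb⟩, e1 ha hb⟩
  · exact Or.inr ⟨Or.inl ⟨ha, hb⟩, e3 ha hb⟩
  · exact Or.inr ⟨Or.inr ⟨ha, hb⟩, e4 ha hb⟩
  · exact Or.inl ⟨Or.inr ⟨ha, hb⟩, e2 ha hb⟩

/-- **(iv)** the number of arcs from wall to wall -/
theorem card_cross (c : WChart Q F m o v r) (h1 : 1 ≤ m) (h3 : m ≤ 3) (h : ρ ≤ r) (ω : Φ → Bool) :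
    ((inW c ρ).filter fun a => mate Q (c.box ρ) ω a ∈ outW c ρ).card = Nwd m o v ρ (pb c.φF ω) := by
  unfold Nwd
  have bI : ∀ {s}, s ∈ wIn (o + m) v ρ → s ∈ bS ZQ (Wdg m o v ρ) := fun hs => bS_of_wIn h1 h3 hs
  have bO : ∀ {s}, s ∈ wOut o v ρ → s ∈ bS ZQ (Wdg m o v ρ) := fun hs => bS_of_wOut h1 h3 hs
  have bM : ∀ {s}, s ∈ bS ZQ (Wdg m o v ρ) → s ∈ dE ZQ (Wdg m o v r) := fun hs =>
    Rel.dE_mono (Wdg_mono h) (mem_bS.mp hs).1
  have e : ((inW c ρ).filter fun a => mate Q (c.box ρ) ω a ∈ outW c ρ) =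
      ((wIn (o + m) v ρ).filter fun s =>
        mate ZQ (Wdg m o v ρ) (pb c.φF ω) s ∈ wOut o v ρ).image c.side := by
    ext x
    rw [Finset.mem_filter, Finset.mem_image]
    constructor
    · rintro ⟨hx, hx'⟩
      obtain ⟨s, hs, rfl⟩ := Finset.mem_image.mp hx
      obtain ⟨t, ht, e⟩ := Finset.mem_image.mp hx'
      refine ⟨s, Finset.mem_filter.mpr ⟨hs, ?_⟩, rfl⟩
      rw [mate_side c h (bI hs)] at e
      have e' := PC.mv_inj (box_chart c le_rfl) (bM (bO ht)) (bM (mate_mem (bI hs))) e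
      rw [← e']
      exact ht
    · rintro ⟨s, hs, rfl⟩
      obtain ⟨hs1, hs2⟩ := Finset.mem_filter.mp hs
      refine ⟨Finset.mem_image_of_mem _ hs1, ?_⟩
      rw [mate_side c h (bI hs1)]
      exact Finset.mem_image_of_mem _ hs2
  rw [e, Finset.card_image_of_injOn]
  intro s hs t ht hst
  exact PC.mv_inj (box_chart c le_rfl) (bM (bI (Finset.mem_filter.mp (Finset.mem_coe.mp hs)).1))
    (bM (bI (Finset.mem_filter.mp (Finset.mem_coe.mp ht)).1)) hst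

/-- natural charts: all weights are `√3` -/
theorem wall_nat (c : WChart Q F m o v r) (h1 : 1 ≤ m) (h3 : m ≤ 3) (h : ρ < r)
    (hJ : c.Jump ψ 0 ∨ c.Jump ψ (Real.pi / 3)) (ha : a ∈ c.walls ρ)
    (hb : mate Q (c.box ρ) ω a ∈ bS Q F) :
    mate Q (c.box ρ) ω a ∈ c.walls ρ ∧ wt Q (c.box ρ) ω ψ a = Real.sqrt 3 := by
  rcases hJ with hJ | hJ
  · obtain ⟨h4, h5 | h5⟩ := wall_arc c h1 h3 h hJ ha hb
    · exact ⟨h4, h5.2⟩
    · exact ⟨h4, by rw [h5.2, tJ_zero, mul_one]⟩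
  · obtain ⟨h4, h5 | h5⟩ := wall_arc c h1 h3 h hJ ha hb
    · exact ⟨h4, h5.2⟩
    · exact ⟨h4, by rw [h5.2, tJ_third, mul_one]⟩

end charts

end

end Pool.Agent.SixB.S3T
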