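import Pool.Agent.Lib.SixB.S3AtlUpB
import Pool.Agent.Lib.SixB.S3PAtl
import Pool.Agent.Lib.SixB.S3TurnE
import Pool.Agent.Lib.SixB.S3TurnF
import Pool.Agent.Lib.SixB.S3TurnM
import Pool.Agent.Lib.SixB.S3TurnW

/-!
# 6BD, step 3, row R1a: the cells of an atlas

* `S3C.pA`, `S3C.pB`: the two wall parts of a special chart; `S3C.spec_arc`, `S3C.over_wt`, `S3C.card_ovr`.
* `PAtlas.cells`: the cells of a partial atlas for a set `Z₁` of boundary sides covered by the atlas, with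
  `PAtlas.cells_exact` and the formulas `PAtlas.cells_is`.
* `Atlas.cells`, `Atlas.cells_exact`, `Atlas.isCells`.
-/

set_option autoImplicit false
set_option linter.unusedSectionVars false

namespace Pool.Agent.SixB

open Pool.Agent.Perc.Q Pool.Agent.Perc
open Pool.Agent.SixB.PC (pb)

noncomputable section

variable {V Φ : Type} [DecidableEq V] [DecidableEq Φ]

namespace S3C

open Pool.Agent.SixB.S3T

variable {Q : QC V Φ} {F : Finset Φ} {m r ρ R : ℕ} {o : ZMod 4} {v : ℤ × ℤ} {K : SK}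
  {ω : Φ → Bool} {a b : V × V} {ψ : V × V → ℝ}

/-- first wall part of a special chart -/
def pA (K : SK) (c : WChart Q F m o v r) (ρ : ℕ) : Finset (V × V) :=
  match K with
  | .ver _ => inW c ρ
  | .e => {eC c}
  | .em => inW c ρ

/-- second wall part of a special chart -/
def pB (K : SK) (c : WChart Q F m o v r) (ρ : ℕ) : Finset (V × V) :=
  match K with
  | .ver _ => outW c ρ
  | .e => (c.walls ρ).erase (eC c)
  | .em => outE c ρ

theorem in_sub_walls (c : WChart Q F m o v r) : inW c ρ ⊆ c.walls ρ := by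
  rw [walls_eq]
  exact Finset.subset_union_left

theorem out_sub_walls (c : WChart Q F m o v r) : outW c ρ ⊆ c.walls ρ := by
  rw [walls_eq]
  exact Finset.subset_union_right

theorem outE_sub (c : WChart Q F m o v r) : outE c ρ ⊆ outW c ρ :=
  Finset.image_subset_image (Finset.erase_subset _ _)

theorem eC_walls (c : WChart Q F m o v r) (hρ : 0 < ρ) : eC c ∈ c.walls ρ :=
  out_sub_walls c (eC_mem c hρ)

theorem pA_sub (c : WChart Q F m o v r) (hρ : 0 < ρ) : pA K c ρ ⊆ c.walls ρ := by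
  cases K with
  | ver J => exact in_sub_walls c
  | e =>
    intro x hx
    rw [show x = eC c from Finset.mem_singleton.mp hx]
    exact eC_walls c hρ
  | em => exact in_sub_walls c

theorem pB_sub (c : WChart Q F m o v r) : pB K c ρ ⊆ c.walls ρ := by
  cases K with
  | ver J => exact out_sub_walls c
  | e => exact Finset.erase_subset _ _
  | em => exact (outE_sub c).trans (out_sub_walls c)

theorem pAB_disj (c : WChart Q F m o v r) (h1 : 1 ≤ m) (h3 : m ≤ 3) (h : ρ ≤ r) :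
    Disjoint (pA K c ρ) (pB K c ρ) := by
  rw [Finset.disjoint_left]
  intro x hx hx'
  cases K with
  | ver J => exact in_disj_out c h1 h3 h hx hx'
  | e => exact (Finset.mem_erase.mp hx').1 (Finset.mem_singleton.mp hx)
  | em => exact in_disj_out c h1 h3 h hx (outE_sub c hx')

theorem in_mono (c : WChart Q F m o v r) {ρ' : ℕ} (h : ρ ≤ ρ') : inW c ρ ⊆ inW c ρ' :=
  Finset.image_subset_image (wIn_mono h)

theorem out_mono (c : WChart Q F m o v r) {ρ' : ℕ} (h : ρ ≤ ρ') : outW c ρ ⊆ outW c ρ' :=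
  Finset.image_subset_image (wOut_mono h)

theorem outE_mono (c : WChart Q F m o v r) {ρ' : ℕ} (h : ρ ≤ ρ') : outE c ρ ⊆ outE c ρ' :=
  Finset.image_subset_image (Finset.erase_subset_erase _ (wOut_mono h))

/-- a side of the bigger wall which is a boundary side of the smaller box is on the smaller wall -/
theorem in_of (c : WChart Q F m o v r) (h1 : 1 ≤ m) (h3 : m ≤ 3) (h : ρ < r) (hR : R ≤ r)
    (hρR : ρ ≤ R) (hb : a ∈ bS Q (c.box ρ)) (ha : a ∈ inW c R) : a ∈ inW c ρ := by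
  have hF := walls_sub_F c hR (in_sub_walls c ha)
  have h4 := mem_walls c h1 h3 h hb hF
  rw [walls_eq, Finset.mem_union] at h4
  rcases h4 with h4 | h4
  · exact h4
  · exact absurd (out_mono c hρR h4) (in_disj_out c h1 h3 hR ha)

theorem out_of (c : WChart Q F m o v r) (h1 : 1 ≤ m) (h3 : m ≤ 3) (h : ρ < r) (hR : R ≤ r)
    (hρR : ρ ≤ R) (hb : a ∈ bS Q (c.box ρ)) (ha : a ∈ outW c R) : a ∈ outW c ρ := by
  have hF := walls_sub_F c hR (out_sub_walls c ha)
  have h4 := mem_walls c h1 h3 h hb hF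
  rw [walls_eq, Finset.mem_union] at h4
  rcases h4 with h4 | h4
  · exact absurd ha (in_disj_out c h1 h3 hR (in_mono c hρR h4))
  · exact h4

theorem in_bS (c : WChart Q F m o v r) (h1 : 1 ≤ m) (h3 : m ≤ 3) (h : ρ ≤ r) (ha : a ∈ inW c ρ) :
    a ∈ bS Q (c.box ρ) := walls_sub_box c h1 h3 h (in_sub_walls c ha)

/-- the strand of the marked side does not end on it -/
theorem mate_eC (c : WChart Q F m o v r) (h1 : 1 ≤ m) (h3 : m ≤ 3) (hρ : 0 < ρ) (h : ρ ≤ r) :
    mate Q (c.box ρ) ω (eC c) ≠ eC c := by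
  have hE : eS o v ∈ bS ZQ (Wdg m o v ρ) := bS_of_wOut h1 h3 (eS_mem hρ)
  unfold eC
  rw [mate_side c h hE]
  intro he
  have h4 := side_inj' c h (mate_mem hE) hE he
  exact mate_ne Tilt.zq_noLoop hE h4

/-- **The number of the arcs over a special vertex.** -/
theorem card_ovr (c : WChart Q F m o v r) (h1 : 1 ≤ m) (h3 : m ≤ 3) (hρ : 0 < ρ) (h : ρ < r)
    (hR : R ≤ r) (hρR : ρ ≤ R) (K : SK) (ω : Φ → Bool) :
    (ovr Q (c.box ρ) (pA K c R) (pB K c R) ω).card = sN K m o v ρ (pb c.φF ω) := by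
  cases K with
  | ver J =>
    have e : ovr Q (c.box ρ) (inW c R) (outW c R) ω =
        (inW c ρ).filter fun a => mate Q (c.box ρ) ω a ∈ outW c ρ := by
      ext x
      rw [mem_ovr, Finset.mem_filter]
      constructor
      · rintro ⟨e1, e2, e3⟩
        exact ⟨in_of c h1 h3 h hR hρR e2 e1, out_of c h1 h3 h hR hρR (mate_mem e2) e3⟩
      · rintro ⟨e1, e2⟩
        exact ⟨in_mono c hρR e1, in_bS c h1 h3 h.le e1, out_mono c hρR e2⟩
    show (ovr Q (c.box ρ) (inW c R) (outW c R) ω).card = _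
    rw [e, card_cross c h1 h3 h.le]
    rfl
  | e =>
    have e : ovr Q (c.box ρ) {eC c} ((c.walls R).erase (eC c)) ω =
        ({eC c} : Finset (V × V)).filter fun a => mate Q (c.box ρ) ω a ∈ c.walls ρ := by
      ext x
      rw [mem_ovr, Finset.mem_filter, Finset.mem_singleton]
      constructor
      · rintro ⟨rfl, e2, e3⟩
        refine ⟨rfl, mem_walls c h1 h3 h (mate_mem e2) ?_⟩
        exact walls_sub_F c hR (Finset.mem_of_mem_erase e3)
      · rintro ⟨rfl, e2⟩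
        exact ⟨rfl, walls_sub_box c h1 h3 h.le (eC_walls c hρ),
          Finset.mem_erase.mpr ⟨mate_eC c h1 h3 hρ h.le, walls_mono c hρR e2⟩⟩
    show (ovr Q (c.box ρ) {eC c} ((c.walls R).erase (eC c)) ω).card = _
    rw [e, card_e c h1 h3 hρ h.le]
  | em =>
    have e : ovr Q (c.box ρ) (inW c R) (outE c R) ω =
        (inW c ρ).filter fun a => mate Q (c.box ρ) ω a ∈ outE c ρ := by
      ext x
      rw [mem_ovr, Finset.mem_filter]
      constructor
      · rintro ⟨e1, e2, e3⟩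
        refine ⟨in_of c h1 h3 h hR hρR e2 e1, ?_⟩
        rw [outE_eq c h1 h3 h.le hρ, Finset.mem_erase]
        rw [outE_eq c h1 h3 hR (by omega), Finset.mem_erase] at e3
        exact ⟨e3.1, out_of c h1 h3 h hR hρR (mate_mem e2) e3.2⟩
      · rintro ⟨e1, e2⟩
        exact ⟨in_mono c hρR e1, in_bS c h1 h3 h.le e1, outE_mono c hρR e2⟩
    show (ovr Q (c.box ρ) (inW c R) (outE c R) ω).card = _
    rw [e, card_em c h1 h3 h.le]

/-- **Weights of the arcs over a special vertex.** -/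
theorem over_wt (c : WChart Q F m o v r) (h1 : 1 ≤ m) (h3 : m ≤ 3) (hρ : 0 < ρ) (h : ρ < r)
    (hJ : SJump c K ψ) (ha : a ∈ pA K c ρ) (hb : mate Q (c.box ρ) ω a ∈ pB K c ρ) :
    wt Q (c.box ρ) ω ψ a = Real.sqrt 3 * sT K := by
  cases K with
  | ver J => exact (wt_walls c h1 h3 h.le (show c.Jump ψ J from hJ) rfl).2.2.1 ha hb
  | e =>
    obtain rfl : a = eC c := Finset.mem_singleton.mp ha
    rcases e_cases c hρ h.le hJ (eC_walls c hρ) (Finset.mem_of_mem_erase hb) rfl with h4 | h4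
    · rw [h4.2]
      show (0 : ℝ) = Real.sqrt 3 * 0
      rw [mul_zero]
    · exact absurd rfl h4.1
  | em =>
    rcases em_cases c hρ h.le hJ (in_sub_walls c ha) (pB_sub (K := .em) c hb) rfl with h4 | h4
    · rw [h4.2]
      show (0 : ℝ) = Real.sqrt 3 * 0
      rw [mul_zero]
    · exact absurd (Or.inl ⟨ha, hb⟩) h4.1

/-- **The arcs of a special cell.** -/
theorem spec_arc (c : WChart Q F m o v r) (h1 : 1 ≤ m) (h3 : m ≤ 3) (hρ : 0 < ρ) (h : ρ < r)
    (hJ : SJump c K ψ) (ha : a ∈ c.walls ρ) (hb : mate Q (c.box ρ) ω a ∈ bS Q F) :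
    (a ∈ pA K c ρ ∧ mate Q (c.box ρ) ω a ∈ pB K c ρ) ∨
      (a ∈ pB K c ρ ∧ mate Q (c.box ρ) ω a ∈ pA K c ρ) ∨
      wt Q (c.box ρ) ω ψ a = Real.sqrt 3 ∨
      (|wt Q (c.box ρ) ω ψ a| = Real.sqrt 3 ∧ sT K = 0 ∧ mate Q (c.box ρ) ω (eC c) ∈ c.walls ρ ∧
        K = .e) := by
  cases K with
  | ver J =>
    obtain ⟨h4, h5 | h5⟩ := wall_arc c h1 h3 h (show c.Jump ψ J from hJ) ha hb
    · exact Or.inr (Or.inr (Or.inl h5.2))
    · rcases h5.1 with h6 | h6
      · exact Or.inl h6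
      · exact Or.inr (Or.inl h6)
  | e =>
    obtain ⟨h4, h5 | h5⟩ := e_arc c hρ h hJ ha hb
    · by_cases hae : a = eC c
      · refine Or.inl ⟨Finset.mem_singleton.mpr hae, Finset.mem_erase.mpr ⟨?_, h4⟩⟩
        rw [hae]
        exact mate_eC c h1 h3 hρ h.le
      · have h6 := h5.1.resolve_left hae
        exact Or.inr (Or.inl ⟨Finset.mem_erase.mpr ⟨hae, ha⟩, Finset.mem_singleton.mpr h6⟩)
    · rcases e_arc' c hρ h hJ ha hb h5.1 h5.2.1 with h6 | h6
      · exact Or.inr (Or.inr (Or.inl h6))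
      · exact Or.inr (Or.inr (Or.inr ⟨h5.2.2, rfl, h6, rfl⟩))
  | em =>
    obtain ⟨h4, h5 | h5⟩ := em_arc c hρ h hJ ha hb
    · rcases h5.1 with h6 | h6
      · exact Or.inl h6
      · exact Or.inr (Or.inl ⟨h6.1, h6.2⟩)
    · exact Or.inr (Or.inr (Or.inl h5.2))

/-- disjoint face sets have disjoint boundary sides -/
theorem bS_disj {G G' : Finset Φ} (h : Disjoint G G') : Disjoint (bS Q G) (bS Q G') := by
  rw [Finset.disjoint_left]
  intro x hx hx'
  obtain ⟨f, hf, k, rfl⟩ := bS_sd hx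
  obtain ⟨g, hg, l, e⟩ := bS_sd hx'
  have h5 := (sd_inj e).1
  rw [h5] at hf
  exact Finset.disjoint_left.mp h hf hg

end S3C

open Pool.Agent.SixB.S3T

variable {Q : QC V Φ} {F : Finset Φ} {ψ : V × V → ℝ} {Z Z₁ C : Finset (V × V)} {r nS nN : ℕ} {t₀ : ℝ}

/-- the core of a mouth cell -/
def PAtlas.mG₀ (A : PAtlas Q F ψ Z C r nS nN t₀) (i : A.μ) : Finset Φ :=
  (Mth (A.lf i) (A.w i) (r + A.h i + 1) (A.h i) (A.l i / 2 + 1)).image (A.mch i).φF

/-- a mouth cell -/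
def PAtlas.mG (A : PAtlas Q F ψ Z C r nS nN t₀) (i : A.μ) : Finset Φ :=
  (Mth (A.lf i) (A.w i) (2 * r) (A.h i) (A.l i)).image (A.mch i).φF

theorem PAtlas.sT_nonneg (A : PAtlas Q F ψ Z C r nS nN t₀) (h0 : 0 ≤ t₀) (i : A.κ) :
    0 ≤ sT (A.K i) := by
  cases h : A.K i with
  | ver J =>
    show (0 : ℝ) ≤ tJ J
    rcases A.tpos i J h with h1 | h1
    · exact h0.trans h1
    · rw [h1.1, tJ_neg_one_third]
  | e => exact le_refl _
  | em => exact le_refl _

theorem PAtlas.walls_disj (A : PAtlas Q F ψ Z C r nS nN t₀) {i j : A.κ} (h : i ≠ j) :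
    Disjoint ((A.ch i).walls (4 * r)) ((A.ch j).walls (4 * r)) :=
  Finset.disjoint_of_subset_left (walls_sub_box (A.ch i) (A.m_rng i).1 (A.m_rng i).2 (by omega))
    (Finset.disjoint_of_subset_right
      (walls_sub_box (A.ch j) (A.m_rng j).1 (A.m_rng j).2 (by omega)) (S3C.bS_disj (A.disj i j h)))

/-- a boundary side of the surface at a part of `G` is a boundary side of `G` -/
theorem bS_of_dE {G G₀ : Finset Φ} {a : V × V} (ha : a ∈ bS Q F) (h : a ∈ dE Q G₀) (h0 : G₀ ⊆ G)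
    (hG : G ⊆ F) : a ∈ bS Q G :=
  mem_bS.mpr ⟨mate_loc'.dE_mono h0 h, Ini.anti (by exact_mod_cast hG) (mem_bS.mp ha).2⟩

/-- **The cells of a partial atlas.** -/
def PAtlas.cells (A : PAtlas Q F ψ Z C r nS nN t₀) (hr : 0 < r) (h0 : 0 ≤ t₀) (Z₁ : Finset (V × V))
    (h1 : Z₁ ⊆ bS Q F) (hC : Z₁ ⊆ C) (hw : ∀ i, (A.ch i).walls (4 * r) ⊆ Z₁) :
    Cells Q F ψ Z₁ (A.ι ⊕ A.μ) A.κ where
  I := Finset.univ
  S := Finset.univ
  G₀ := Sum.elim (fun i => (A.nch i).box r) A.mG₀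
  G := Sum.elim (fun i => (A.nch i).box (2 * r)) A.mG
  B₀ := fun i => (A.ch i).box r
  B₁ := fun i => (A.ch i).box (2 * r)
  B := fun i => (A.ch i).box (4 * r)
  PA := fun i => S3C.pA (A.K i) (A.ch i) (4 * r)
  PB := fun i => S3C.pB (A.K i) (A.ch i) (4 * r)
  t := fun i => sT (A.K i)
  Z_F := h1
  G₀_sub := by
    rintro (i | i) -
    · exact box_mono (A.nch i) (by omega)
    · obtain ⟨e1, e2, e3⟩ := A.h_lt i
      exact mBox_mono (A.mch i) (by omega) (by omega)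
  G_sub := by
    rintro (i | i) -
    · exact box_sub_F (A.nch i) (by omega)
    · exact mBox_sub_F (A.mch i) (by omega) (by omega)
  G_sep := by
    rintro (i | i) -
    · exact CM.wedge_sep (A.nch i) (A.m'_rng i) (by omega) (by omega)
    · obtain ⟨e1, e2, e3⟩ := A.h_lt i
      exact CM.mouth_sep (A.mch i) e1 (by omega) (by omega) (by omega) (by omega) (by omega)
  nat := by
    rintro (i | i) - ω a ha ha0 hb
    · have hG : a ∈ bS Q ((A.nch i).box (2 * r)) := bS_of_dE (h1 ha) ha0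
        (box_mono (A.nch i) (by omega)) (box_sub_F (A.nch i) (by omega))
      have hw := mem_walls (A.nch i) (A.m'_rng i).1 (A.m'_rng i).2 (by omega) hG (h1 ha)
      have h5 := (wall_nat (A.nch i) (A.m'_rng i).1 (A.m'_rng i).2 (by omega) (A.njmp i) hw hb).2
      show |wt Q ((A.nch i).box (2 * r)) ω ψ a| ≤ Real.sqrt 3
      rw [h5, abs_of_nonneg (Real.sqrt_nonneg 3)]
    · obtain ⟨e1, e2, e3⟩ := A.h_lt i
      have hG : a ∈ bS Q (mBox (A.mch i) (2 * r) (A.l i)) := bS_of_dE (h1 ha) ha0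
        (mBox_mono (A.mch i) (by omega) (by omega)) (mBox_sub_F (A.mch i) (by omega) (by omega))
      have h5 := (mth_nat' (A.mch i) e1 (by omega) (by omega) (by omega) (by omega) (A.mnat i) hG
        (h1 ha) hb).2.2
      show |wt Q (mBox (A.mch i) (2 * r) (A.l i)) ω ψ a| ≤ Real.sqrt 3
      rw [h5, abs_of_nonneg (Real.sqrt_nonneg 3)]
  B₀_sub := fun i _ => box_mono (A.ch i) (by omega)
  B₁_sub := fun i _ => box_mono (A.ch i) (by omega)
  B_sub := fun i _ => box_sub_F (A.ch i) (by omega)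
  B_sep := fun i _ => CM.wedge_sep (A.ch i) (A.m_rng i) (by omega) (by omega)
  PA_Z := fun i _ => (S3C.pA_sub (A.ch i) (by omega)).trans (hw i)
  PB_F := fun i _ => (S3C.pB_sub (A.ch i)).trans (walls_sub_F (A.ch i) (by omega))
  dAB := by
    intro i _ j _
    by_cases h : i = j
    · subst h
      exact S3C.pAB_disj (A.ch i) (A.m_rng i).1 (A.m_rng i).2 (by omega)
    · exact Finset.disjoint_of_subset_left (S3C.pA_sub (A.ch i) (by omega))
        (Finset.disjoint_of_subset_right (S3C.pB_sub (A.ch j)) (A.walls_disj h))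
  dAA := by
    intro i _ j _ h
    exact Finset.disjoint_of_subset_left (S3C.pA_sub (A.ch i) (by omega))
      (Finset.disjoint_of_subset_right (S3C.pA_sub (A.ch j) (by omega)) (A.walls_disj h))
  t_nonneg := fun i _ => A.sT_nonneg h0 i
  spec := by
    intro i _ ω a ha ha0 hb
    have hG : a ∈ bS Q ((A.ch i).box (4 * r)) := bS_of_dE (h1 ha) ha0
      (box_mono (A.ch i) (by omega)) (box_sub_F (A.ch i) (by omega))
    have hw := mem_walls (A.ch i) (A.m_rng i).1 (A.m_rng i).2 (by omega) hG (h1 ha)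
    rcases S3C.spec_arc (A.ch i) (A.m_rng i).1 (A.m_rng i).2 (by omega) (by omega) (A.jmp i) hw hb
      with h5 | h5 | h5 | h5
    · exact Or.inl h5
    · exact Or.inr (Or.inl h5)
    · refine Or.inr (Or.inr ?_)
      rw [h5, abs_of_nonneg (Real.sqrt_nonneg 3)]
    · exact Or.inr (Or.inr h5.1.le)
  ovw := fun i _ ω a ha _ hb => S3C.over_wt (A.ch i) (A.m_rng i).1 (A.m_rng i).2 (by omega) (by omega)
    (A.jmp i) ha hb
  cover := by
    intro a ha
    rcases A.cover a (hC ha) with ⟨i, h⟩ | ⟨i, h⟩ | ⟨i, j, s, hs, rfl⟩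
    · exact Or.inr ⟨i, Finset.mem_univ _, (mem_bS.mp (walls_sub_box (A.ch i) (A.m_rng i).1
        (A.m_rng i).2 (by omega) h)).1⟩
    · exact Or.inl ⟨.inl i, Finset.mem_univ _, (mem_bS.mp (walls_sub_box (A.nch i) (A.m'_rng i).1
        (A.m'_rng i).2 (by omega) h)).1⟩
    · obtain ⟨e1, e2, e3⟩ := A.h_lt i
      refine Or.inl ⟨.inr i, Finset.mem_univ _, ?_⟩
      exact (mem_bS.mp (mW_sub_box (A.mch i) e1 (by omega) (by omega) (by omega) (by omega) j
        (Finset.mem_image_of_mem _ hs))).1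

/-- `D` is the record of the cells of the partial atlas `A`. -/
structure IsPCells (A : PAtlas Q F ψ Z C r nS nN t₀) (D : Cells Q F ψ Z₁ (A.ι ⊕ A.μ) A.κ) : Prop where
  I : D.I = Finset.univ
  S : D.S = Finset.univ
  nG₀ : ∀ i, D.G₀ (.inl i) = (A.nch i).box r
  nG : ∀ i, D.G (.inl i) = (A.nch i).box (2 * r)
  mG₀ : ∀ i, D.G₀ (.inr i) = (Mth (A.lf i) (A.w i) (r + A.h i + 1) (A.h i) (A.l i / 2 + 1)).image (A.mch i).φF
  mG : ∀ i, D.G (.inr i) = (Mth (A.lf i) (A.w i) (2 * r) (A.h i) (A.l i)).image (A.mch i).φF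
  B₀ : ∀ i, D.B₀ i = (A.ch i).box r
  B₁ : ∀ i, D.B₁ i = (A.ch i).box (2 * r)
  B : ∀ i, D.B i = (A.ch i).box (4 * r)
  t : ∀ i, D.t i = sT (A.K i)
  N : ∀ i ω, (ovr Q (D.B₀ i) (D.PA i) (D.PB i) ω).card =
    sN (A.K i) (A.m i) (A.o i) (A.v i) r (fun f => ω ((A.ch i).φF f))
  Nb : ∀ i ω, (ovr Q (D.B i) (D.PA i) (D.PB i) ω).card =
    sN (A.K i) (A.m i) (A.o i) (A.v i) (4 * r) (fun f => ω ((A.ch i).φF f))
  exact : D.Exact

theorem PAtlas.cells_is (A : PAtlas Q F ψ Z C r nS nN t₀) (hr : 0 < r) (h0 : 0 ≤ t₀) (h1 : Z₁ ⊆ bS Q F)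
    (hC : Z₁ ⊆ C) (hw : ∀ i, (A.ch i).walls (4 * r) ⊆ Z₁) :
    IsPCells A (A.cells hr h0 Z₁ h1 hC hw) where
  I := rfl
  S := rfl
  nG₀ := fun _ => rfl
  nG := fun _ => rfl
  mG₀ := fun _ => rfl
  mG := fun _ => rfl
  B₀ := fun _ => rfl
  B₁ := fun _ => rfl
  B := fun _ => rfl
  t := fun _ => rfl
  N := fun i ω => S3C.card_ovr (A.ch i) (A.m_rng i).1 (A.m_rng i).2 (by omega) (by omega) (by omega)
    (by omega) (A.K i) ω
  Nb := fun i ω => S3C.card_ovr (A.ch i) (A.m_rng i).1 (A.m_rng i).2 (by omega) (by omega) (by omega)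
    (by omega) (A.K i) ω
  exact := by
    constructor
    · rintro (i | i) - ω a ha ha0 hb
      · have hG : a ∈ bS Q ((A.nch i).box (2 * r)) := bS_of_dE (h1 ha) ha0
          (box_mono (A.nch i) (by omega)) (box_sub_F (A.nch i) (by omega))
        have hw := mem_walls (A.nch i) (A.m'_rng i).1 (A.m'_rng i).2 (by omega) hG (h1 ha)
        exact (wall_nat (A.nch i) (A.m'_rng i).1 (A.m'_rng i).2 (by omega) (A.njmp i) hw hb).2
      · obtain ⟨e1, e2, e3⟩ := A.h_lt i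
        have hG : a ∈ bS Q (mBox (A.mch i) (2 * r) (A.l i)) := bS_of_dE (h1 ha) ha0
          (mBox_mono (A.mch i) (by omega) (by omega)) (mBox_sub_F (A.mch i) (by omega) (by omega))
        exact (mth_nat' (A.mch i) e1 (by omega) (by omega) (by omega) (by omega) (A.mnat i) hG
          (h1 ha) hb).2.2
    · intro i _ ω a ha ha0 hb
      have hG : a ∈ bS Q ((A.ch i).box (4 * r)) := bS_of_dE (h1 ha) ha0
        (box_mono (A.ch i) (by omega)) (box_sub_F (A.ch i) (by omega))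
      have hwa := mem_walls (A.ch i) (A.m_rng i).1 (A.m_rng i).2 (by omega) hG (h1 ha)
      rcases S3C.spec_arc (A.ch i) (A.m_rng i).1 (A.m_rng i).2 (by omega) (by omega) (A.jmp i) hwa hb
        with h5 | h5 | h5 | h5
      · exact Or.inl h5
      · exact Or.inr (Or.inl h5)
      · exact Or.inr (Or.inr (Or.inl h5))
      · refine Or.inr (Or.inr (Or.inr ⟨h5.2.1, ?_⟩))
        obtain ⟨-, -, h6, h7⟩ := h5
        have hm : eC (A.ch i) ∈ ovr Q ((A.ch i).box (4 * r)) (S3C.pA (A.K i) (A.ch i) (4 * r))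
            (S3C.pB (A.K i) (A.ch i) (4 * r)) ω := by
          rw [h7, mem_ovr]
          refine ⟨Finset.mem_singleton.mpr rfl, walls_sub_box (A.ch i) (A.m_rng i).1 (A.m_rng i).2
            (by omega) (S3C.eC_walls (A.ch i) (by omega)), Finset.mem_erase.mpr ⟨?_, h6⟩⟩
          exact S3C.mate_eC (A.ch i) (A.m_rng i).1 (A.m_rng i).2 (by omega) (by omega)
        exact (Finset.card_pos.mpr ⟨_, hm⟩).ne'

/-! ## Atlas -/

attribute [local instance] Atlas.fκ Atlas.dκ Atlas.fι Atlas.fμ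

/-- **The cells of an atlas.** -/
def Atlas.cells (A : Atlas Q F ψ Z r nS nN t₀) (hr : 0 < r) (h0 : 0 ≤ t₀) :
    Cells Q F ψ Z (A.ι ⊕ A.μ) A.κ :=
  A.toP.cells hr h0 Z A.Z_sub (Finset.Subset.refl _) A.chZ

theorem Atlas.cells_isP (A : Atlas Q F ψ Z r nS nN t₀) (hr : 0 < r) (h0 : 0 ≤ t₀) :
    IsPCells A.toP (A.cells hr h0) :=
  A.toP.cells_is hr h0 A.Z_sub (Finset.Subset.refl _) A.chZ

theorem Atlas.isCells (A : Atlas Q F ψ Z r nS nN t₀) (hr : 0 < r) (h0 : 0 ≤ t₀) :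
    IsCells A (A.cells hr h0) where
  nG₀ := fun _ => rfl
  nG := fun _ => rfl
  mG₀ := fun _ => rfl
  mG := fun _ => rfl
  B₁ := fun _ => rfl
  B := fun _ => rfl
  t := fun _ => rfl
  N := fun i ω => (A.cells_isP hr h0).N i ω
  Nb := fun i ω => (A.cells_isP hr h0).Nb i ω

theorem Atlas.cells_exact (A : Atlas Q F ψ Z r nS nN t₀) (hr : 0 < r) (h0 : 0 ≤ t₀) :
    (A.cells hr h0).Exact := (A.cells_isP hr h0).exact

theorem Atlas.cells_I (A : Atlas Q F ψ Z r nS nN t₀) (hr : 0 < r) (h0 : 0 ≤ t₀) :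
    (A.cells hr h0).I = Finset.univ := rfl

theorem Atlas.cells_S (A : Atlas Q F ψ Z r nS nN t₀) (hr : 0 < r) (h0 : 0 ≤ t₀) :
    (A.cells hr h0).S = Finset.univ := rfl

theorem PAtlas.card_I (A : PAtlas Q F ψ Z C r nS nN t₀) {D : Cells Q F ψ Z₁ (A.ι ⊕ A.μ) A.κ}
    (h : D.I = Finset.univ) : D.I.card ≤ 2 * nN := by
  rw [h, Finset.card_univ, Fintype.card_sum]
  have h1 := A.cardN
  have h2 := A.cardM
  omega

theorem Atlas.cells_cardI (A : Atlas Q F ψ Z r nS nN t₀) (hr : 0 < r) (h0 : 0 ≤ t₀) :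
    (A.cells hr h0).I.card ≤ 2 * nN :=
  A.toP.card_I (D := A.cells hr h0) rfl

end

end Pool.Agent.SixB
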