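import Mathlib

/-!
# 6BD step 3 (N-g): weights of arcs over jumps, contiguous sums of jumps, the local inequality

* `tJ J = cos (J - π/6) / cos (π/6)`: normalised weight of an arc over jumps with sum `J`.
* `Rng J`: `-π/3 ≤ J ≤ 2π/3`; then `0 ≤ tJ J`.
* `ps l k = (l.take k).sum`: partial sums of a list of jumps; `RngOK l`: all contiguous sums are in the range.
  For a closed contour with total jump `π/3` the complementary sum is `π/3 - J` and is in the range as well.
* `RngOK` for the test polygons.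
* `local_ineq`, `ab_le`: the local inequality from the inequalities of the test polygons.
-/

set_option autoImplicit false

namespace Pool.Agent.SixB

open Real

noncomputable section

/-- normalised weight of an arc over jumps with sum `J` -/
def tJ (J : ℝ) : ℝ := cos (J - π / 6) / cos (π / 6)

theorem cos_sixth_pos : 0 < cos (π / 6) := by
  rw [cos_pi_div_six]; positivity

theorem tJ_zero : tJ 0 = 1 := by
  unfold tJ
  rw [zero_sub, cos_neg, div_self cos_sixth_pos.ne']

theorem tJ_refl (J : ℝ) : tJ (π / 3 - J) = tJ J := by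
  unfold tJ
  rw [← cos_neg (J - π / 6)]
  congr 2
  ring

theorem tJ_third : tJ (π / 3) = 1 := by
  have h := tJ_refl 0
  rw [sub_zero, tJ_zero] at h
  exact h

theorem tJ_neg_third : tJ (-(π / 3)) = 0 := by
  unfold tJ
  have : -(π / 3) - π / 6 = -(π / 2) := by ring
  rw [this, cos_neg, cos_pi_div_two, zero_div]

theorem tJ_two_third : tJ (2 * (π / 3)) = 0 := by
  have h := tJ_refl (-(π / 3))
  rw [tJ_neg_third] at h
  rw [← h]
  congr 1
  ring

theorem tJ_sixth : tJ (π / 6) = 2 / √3 := by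
  unfold tJ
  rw [sub_self, cos_zero, cos_pi_div_six]
  field_simp

theorem tJ_neg_sixth : tJ (-(π / 6)) = 1 / √3 := by
  unfold tJ
  have : -(π / 6) - π / 6 = -(π / 3) := by ring
  rw [this, cos_neg, cos_pi_div_three, cos_pi_div_six]
  field_simp

theorem tJ_add_pi (J : ℝ) : tJ (J + π) = -tJ J := by
  unfold tJ
  have : J + π - π / 6 = (J - π / 6) + π := by ring
  rw [this, cos_add_pi, neg_div]

theorem tJ_sub_pi (J : ℝ) : tJ (J - π) = -tJ J := by
  have := tJ_add_pi (J - π)
  rw [sub_add_cancel] at this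
  rw [this, neg_neg]

theorem tJ_eq_two_cos (J : ℝ) : √3 * tJ J = 2 * cos (J - π / 6) := by
  unfold tJ
  rw [cos_pi_div_six]
  have h3 : √3 ≠ 0 := by positivity
  field_simp

theorem abs_tJ_le (J : ℝ) : |tJ J| ≤ 2 / √3 := by
  unfold tJ
  rw [abs_div, abs_of_pos cos_sixth_pos, cos_pi_div_six]
  have h3 : (0 : ℝ) < √3 := by positivity
  rw [div_le_div_iff₀ (by positivity) h3]
  have := abs_cos_le_one (J - π / 6)
  nlinarith

theorem tJ_le (J : ℝ) : tJ J ≤ 2 / √3 := (le_abs_self _).trans (abs_tJ_le J)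

theorem two_div_sqrt_three : (1 : ℝ) ≤ 2 / √3 := by
  have h3 : (0 : ℝ) < √3 := by positivity
  rw [le_div_iff₀ h3, one_mul]
  exact (Real.sqrt_le_left (by norm_num)).2 (by norm_num)

/-- the range in which the weight is nonnegative -/
def Rng (J : ℝ) : Prop := -(π / 3) ≤ J ∧ J ≤ 2 * (π / 3)

theorem Rng.refl {J : ℝ} (h : Rng J) : Rng (π / 3 - J) := ⟨by linarith [h.2], by linarith [h.1]⟩

theorem tJ_nonneg {J : ℝ} (h : Rng J) : 0 ≤ tJ J := by
  unfold tJ
  refine div_nonneg (cos_nonneg_of_neg_pi_div_two_le_of_le ?_ ?_) cos_sixth_pos.le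
  · linarith [h.1]
  · linarith [h.2]

theorem tJ_pos {J : ℝ} (h1 : -(π / 3) < J) (h2 : J < 2 * (π / 3)) : 0 < tJ J := by
  unfold tJ
  refine div_pos (cos_pos_of_mem_Ioo ⟨?_, ?_⟩) cos_sixth_pos
  · linarith
  · linarith

theorem one_le_tJ {J : ℝ} (h1 : 0 ≤ J) (h2 : J ≤ π / 3) : 1 ≤ tJ J := by
  unfold tJ
  rw [one_le_div cos_sixth_pos]
  rw [← cos_abs (J - π / 6)]
  refine cos_le_cos_of_nonneg_of_le_pi (abs_nonneg _) (by linarith [pi_pos]) ?_
  rw [abs_le]
  constructor <;> linarith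

theorem tJ_le_one {J : ℝ} (h1 : -(π / 3) ≤ J) (h2 : J ≤ 0) : tJ J ≤ 1 := by
  unfold tJ
  rw [div_le_one cos_sixth_pos]
  rw [← cos_neg (J - π / 6)]
  refine cos_le_cos_of_nonneg_of_le_pi (by linarith [pi_pos]) (by linarith [pi_pos]) ?_
  linarith

/-- quantitative positivity -/
theorem tJ_ge {J δ : ℝ} (hδ : 0 ≤ δ) (hδ' : δ ≤ π / 2) (h1 : -(π / 3) + δ ≤ J)
    (h2 : J ≤ 2 * (π / 3) - δ) : sin δ ≤ tJ J := by
  have h3 : sin δ ≤ cos (J - π / 6) := by
    rw [← cos_pi_div_two_sub, ← cos_abs (J - π / 6)]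
    refine cos_le_cos_of_nonneg_of_le_pi (abs_nonneg _) (by linarith [pi_pos]) ?_
    rw [abs_le]
    constructor <;> linarith
  have h4 : 0 ≤ sin δ := sin_nonneg_of_nonneg_of_le_pi hδ (by linarith [pi_pos])
  unfold tJ
  rw [le_div_iff₀ cos_sixth_pos]
  calc sin δ * cos (π / 6) ≤ sin δ * 1 := by gcongr; exact cos_le_one _
    _ ≤ cos (J - π / 6) := by rw [mul_one]; exact h3

theorem continuous_tJ : Continuous tJ := by
  unfold tJ
  fun_prop

/-! ## Contiguous sums -/

/-- partial sums of the jumps -/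
def ps (l : List ℝ) (k : ℕ) : ℝ := (l.take k).sum

/-- all contiguous sums are in the range -/
def RngOK (l : List ℝ) : Prop := ∀ a b, a ≤ b → b ≤ l.length → Rng (ps l b - ps l a)

theorem ps_zero (l : List ℝ) : ps l 0 = 0 := by simp [ps]

theorem ps_length (l : List ℝ) : ps l l.length = l.sum := by simp [ps]

theorem RngOK.nonneg {l : List ℝ} (h : RngOK l) {a b : ℕ} (hab : a ≤ b) (hb : b ≤ l.length) :
    0 ≤ tJ (ps l b - ps l a) := tJ_nonneg (h a b hab hb)

/-- for a closed contour with total jump `π/3` the order of the two ends does not matter -/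
theorem RngOK.nonneg' {l : List ℝ} (h : RngOK l) {a b : ℕ} (ha : a ≤ l.length)
    (hb : b ≤ l.length) : 0 ≤ tJ (ps l b - ps l a) ∨ 0 ≤ tJ (ps l a - ps l b) := by
  rcases le_total a b with hab | hab
  · exact Or.inl (h.nonneg hab hb)
  · exact Or.inr (h.nonneg hab ha)

/-- a list of nonpositive jumps with sum at least `-π/3` -/
theorem rngOK_of_nonpos {l : List ℝ} (h : ∀ x ∈ l, x ≤ 0) (hs : -(π / 3) ≤ l.sum) : RngOK l := by
  intro a b hab hb
  have hle : ∀ (l : List ℝ), (∀ x ∈ l, x ≤ 0) → l.sum ≤ 0 := by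
    intro l
    induction l with
    | nil => intro _; simp
    | cons x l ih =>
      intro hl
      rw [List.sum_cons]
      have h1 := hl x (by simp)
      have h2 := ih fun y hy => hl y (List.mem_cons_of_mem _ hy)
      linarith
  have h1 : ps l b = ps l a + ((l.take b).drop a).sum := by
    have h2 : (l.take b).take a ++ (l.take b).drop a = l.take b := List.take_append_drop _ _
    have h3 := congrArg List.sum h2
    rw [List.sum_append, List.take_take, min_eq_left hab] at h3
    unfold ps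
    linarith
  have h4 : ps l b + (l.drop b).sum = l.sum := by
    have h5 := congrArg List.sum (List.take_append_drop b l)
    rw [List.sum_append] at h5
    exact h5
  have h6 : (l.drop b).sum ≤ 0 := hle _ fun x hx => h x (List.mem_of_mem_drop hx)
  have h7 : ps l a ≤ 0 := hle _ fun x hx => h x (List.mem_of_mem_take hx)
  have h8 : ((l.take b).drop a).sum ≤ 0 := hle _ fun x hx =>
    h x (List.mem_of_mem_take (List.mem_of_mem_drop hx))
  refine ⟨?_, ?_⟩
  · linarith
  · linarith [pi_pos]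

/-! ### The test polygons of 6bd_norms.md, section 5 (jumps in cyclic order, zero jumps omitted) -/

/-- rectangle with two flats `π/6` -/
theorem rngOK_P1 : RngOK [π / 6, π / 6] := by
  intro a b hab hb
  have hπ := pi_pos
  simp only [List.length_cons, List.length_nil] at hb
  interval_cases b <;> interval_cases a <;> refine ⟨?_, ?_⟩ <;>
    simp only [ps, List.take, List.sum_cons, List.sum_nil] <;> linarith

/-- its mirror: corners `π/6`, flats `-π/6` -/
theorem rngOK_P1' : RngOK [π / 6, -(π / 6), π / 6, π / 6, -(π / 6), π / 6] := by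
  intro a b hab hb
  have hπ := pi_pos
  simp only [List.length_cons, List.length_nil] at hb
  interval_cases b <;> interval_cases a <;> refine ⟨?_, ?_⟩ <;>
    simp only [ps, List.take, List.sum_cons, List.sum_nil] <;> linarith

/-- mirror of the L-shape with two flats `π/6`: `V f V V V f V R` -/
theorem rngOK_P2' : RngOK [π / 6, -(π / 6), π / 6, π / 6, π / 6, -(π / 6), π / 6, -(π / 6)] := by
  intro a b hab hb
  have hπ := pi_pos
  simp only [List.length_cons, List.length_nil] at hb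
  interval_cases b <;> interval_cases a <;> refine ⟨?_, ?_⟩ <;>
    simp only [ps, List.take, List.sum_cons, List.sum_nil] <;> linarith

/-- rectangle with seven flats -/
theorem rngOK_P3 {p q : ℝ} (hq : 0 ≤ q) (hq' : q ≤ π / 3) (hp : -(π / 6) ≤ p) (hp' : p ≤ π / 6) :
    RngOK [π / 6 + p, -q, π / 6 - p, 2 * q - π / 3, π / 6 + p, -q, π / 6 - p] := by
  intro a b hab hb
  have hπ := pi_pos
  simp only [List.length_cons, List.length_nil] at hb
  interval_cases b <;> interval_cases a <;> refine ⟨?_, ?_⟩ <;>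
    simp only [ps, List.take, List.sum_cons, List.sum_nil] <;> linarith

/-- rectangle with two flats `q`, `q'`, `q + q' = π/3` -/
theorem rngOK_P4 {q q' : ℝ} (hq : 0 ≤ q) (hq' : 0 ≤ q') (h : q + q' = π / 3) : RngOK [q, q'] := by
  intro a b hab hb
  have hπ := pi_pos
  simp only [List.length_cons, List.length_nil] at hb
  interval_cases b <;> interval_cases a <;> refine ⟨?_, ?_⟩ <;>
    simp only [ps, List.take, List.sum_cons, List.sum_nil] <;> linarith

/-- its mirror: corners `π/6`, flats `-q`, `-q'` on opposite sides -/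
theorem rngOK_P4' {q q' : ℝ} (hq : 0 ≤ q) (hq' : 0 ≤ q') (h : q + q' = π / 3) :
    RngOK [π / 6, -q, π / 6, π / 6, -q', π / 6] := by
  intro a b hab hb
  have hπ := pi_pos
  simp only [List.length_cons, List.length_nil] at hb
  interval_cases b <;> interval_cases a <;> refine ⟨?_, ?_⟩ <;>
    simp only [ps, List.take, List.sum_cons, List.sum_nil] <;> linarith

/-! ## The local inequality -/

/-- `A B ≤ C` from the rectangle and the L-shape. `F = F(π/6)`, `F' = F(-π/6)`. -/
theorem ab_le {A B F F' C₁ C₂ : ℝ} (hA : 0 < A) (hF' : 0 < F') (hC₂ : 0 ≤ C₂)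
    (h1 : F ^ 2 ≤ C₁ * (A ^ 4 * F' ^ 2)) (h2 : A ^ 5 * B * F' ^ 2 ≤ C₂ * F ^ 2) :
    A * B ≤ C₂ * C₁ := by
  have h3 : A ^ 5 * B * F' ^ 2 ≤ C₂ * (C₁ * (A ^ 4 * F' ^ 2)) :=
    h2.trans (mul_le_mul_of_nonneg_left h1 hC₂)
  have h4 : 0 < A ^ 4 * F' ^ 2 := by positivity
  have h5 : (A * B) * (A ^ 4 * F' ^ 2) ≤ (C₂ * C₁) * (A ^ 4 * F' ^ 2) := by
    calc (A * B) * (A ^ 4 * F' ^ 2) = A ^ 5 * B * F' ^ 2 := by ring
      _ ≤ C₂ * (C₁ * (A ^ 4 * F' ^ 2)) := h3
      _ = (C₂ * C₁) * (A ^ 4 * F' ^ 2) := by ring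
  exact le_of_mul_le_mul_right h5 h4

/-- The local inequality: `X ≤ C A⁴ Y` for one test polygon and `A B ≤ D` give
`A^k B^(k+4) X ≤ C D^(k+4) Y`. -/
theorem local_ineq {A B X Y C D : ℝ} (k : ℕ) (hA : 0 ≤ A) (hB : 0 ≤ B) (hY : 0 ≤ Y)
    (hC : 0 ≤ C) (hAB : A * B ≤ D) (h : X ≤ C * (A ^ 4 * Y)) :
    A ^ k * B ^ (k + 4) * X ≤ C * D ^ (k + 4) * Y := by
  have h0 : 0 ≤ A * B := mul_nonneg hA hB
  calc A ^ k * B ^ (k + 4) * X ≤ A ^ k * B ^ (k + 4) * (C * (A ^ 4 * Y)) :=
        mul_le_mul_of_nonneg_left h (by positivity)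
    _ = C * (A * B) ^ (k + 4) * Y := by rw [mul_pow]; ring
    _ ≤ C * D ^ (k + 4) * Y := by gcongr

end

end Pool.Agent.SixB
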