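import Pool.Agent.Lib.SixB.S3Defs
import Pool.Agent.Lib.SixB.S3Test

/-!
# 6BD step 3: atlases (captain helper95)

Special vertices are of three kinds `SK`: `ver J` (vertex of a wedge with jump `J`), `e` (marked boundary side with
jumps `-π/3`, `-π/3` at its ends, the first side of `wOut`), `em` (its mirror image: `π/3`, `π/3`).
* `sN K m o v r ω`: number of forbidden/weighted local arcs, `sT K`: weight of one of them, `sF K m r`: local factor
  `E sT ^ sN` in the box of radius `r`.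
* `SJump c K ψ`: the phases on the walls of the chart `c`.
* `Atlas Q F ψ Z r nS nN`: special charts for the boxes of radius `4 r`, natural charts for the boxes of radius `2 r`,
  natural mouth charts (thin tubes of any half width), which cover the boundary sides `Z` (inner halves). All charts
  reach one unit beyond their box.
-/

set_option autoImplicit false
set_option linter.unusedSectionVars false

namespace Pool.Agent.SixB

open Pool.Agent.Perc.Q Pool.Agent.Perc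

noncomputable section

/-- kinds of special vertices -/
inductive SK
  | ver (J : ℝ)
  | e
  | em

/-- the marked side of the kinds `e`, `em` -/
def eS (o : ZMod 4) (v : ℤ × ℤ) : (ℤ × ℤ) × (ℤ × ℤ) := (v, v + dz o)

/-- local count of a special vertex -/
def sN (K : SK) (m : ℕ) (o : ZMod 4) (v : ℤ × ℤ) (r : ℕ) (ω : ℤ × ℤ → Bool) : ℕ :=
  match K with
  | .ver _ => Nwd m o v r ω
  | .e => if mate ZQ (Wdg m o v r) ω (eS o v) ∈ wIn (o + m) v r ∪ wOut o v r then 1 else 0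
  | .em => ((wIn (o + m) v r).filter fun a =>
      mate ZQ (Wdg m o v r) ω a ∈ (wOut o v r).erase (eS o v)).card

/-- local weight -/
def sT : SK → ℝ
  | .ver J => tJ J
  | .e => 0
  | .em => 0

/-- local factor -/
def sF (K : SK) (m r : ℕ) : ℝ := av (Wdg m 0 (0, 0) r) fun ω => sT K ^ sN K m 0 (0, 0) r ω

section

variable {V Φ : Type} [DecidableEq V] [DecidableEq Φ]

/-- phases at a special vertex -/
def SJump {Q : QC V Φ} {F : Finset Φ} {m : ℕ} {o : ZMod 4} {v : ℤ × ℤ} {r : ℕ}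
    (c : WChart Q F m o v r) (K : SK) (ψ : V × V → ℝ) : Prop :=
  match K with
  | .ver J => c.Jump ψ J
  | .e => m = 2 ∧ ∃ p : ℝ, (∀ a ∈ wIn (o + m) v r, ψ (c.side a) = p) ∧
      ψ (c.side (eS o v)) = p - Real.pi / 3 ∧
      ∀ a ∈ (wOut o v r).erase (eS o v), ψ (c.side a) = p - 2 * (Real.pi / 3)
  | .em => m = 2 ∧ ∃ p : ℝ, (∀ a ∈ wIn (o + m) v r, ψ (c.side a) = p) ∧
      ψ (c.side (eS o v)) = p + Real.pi / 3 ∧
      ∀ a ∈ (wOut o v r).erase (eS o v), ψ (c.side a) = p + 2 * (Real.pi / 3)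

/-- the faces of the inner box of radius `ρ` of a chart -/
def WChart.box {Q : QC V Φ} {F : Finset Φ} {m : ℕ} {o : ZMod 4} {v : ℤ × ℤ} {r : ℕ}
    (c : WChart Q F m o v r) (ρ : ℕ) : Finset Φ := (Wdg m o v ρ).image c.φF

/-- the wall sides of the inner box of radius `ρ` of a chart -/
def WChart.walls {Q : QC V Φ} {F : Finset Φ} {m : ℕ} {o : ZMod 4} {v : ℤ × ℤ} {r : ℕ}
    (c : WChart Q F m o v r) (ρ : ℕ) : Finset (V × V) :=
  (wIn (o + m) v ρ ∪ wOut o v ρ).image c.side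

/-- Atlas of the boundary sides `Z` of the surface `F` with the phases `ψ`. -/
structure Atlas (Q : QC V Φ) (F : Finset Φ) (ψ : V × V → ℝ) (Z : Finset (V × V)) (r nS nN : ℕ)
    (t₀ : ℝ) where
  Z_sub : Z ⊆ bS Q F
  /-- special charts, boxes of radius `4 r` -/
  κ : Type
  [fκ : Fintype κ]
  [dκ : DecidableEq κ]
  K : κ → SK
  m : κ → ℕ
  o : κ → ZMod 4
  v : κ → ℤ × ℤ
  ch : ∀ i, WChart Q F (m i) (o i) (v i) (4 * r + 1)
  m_rng : ∀ i, 1 ≤ m i ∧ m i ≤ 3
  jmp : ∀ i, SJump (ch i) (K i) ψ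
  tpos : ∀ i J, K i = .ver J → t₀ ≤ tJ J ∨ (J = -(Real.pi / 3) ∧ m i = 2)
  disj : ∀ i j, i ≠ j → Disjoint ((ch i).box (4 * r)) ((ch j).box (4 * r))
  cardS : Fintype.card κ ≤ nS
  chZ : ∀ i, (ch i).walls (4 * r) ⊆ Z
  /-- natural charts, boxes of radius `2 r` -/
  ι : Type
  [fι : Fintype ι]
  m' : ι → ℕ
  o' : ι → ZMod 4
  v' : ι → ℤ × ℤ
  nch : ∀ i, WChart Q F (m' i) (o' i) (v' i) (2 * r + 1)
  m'_rng : ∀ i, 1 ≤ m' i ∧ m' i ≤ 3
  njmp : ∀ i, (nch i).Jump ψ 0 ∨ (nch i).Jump ψ (Real.pi / 3)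
  nZ : ∀ i, (nch i).walls (2 * r) ⊆ Z
  ndisj : ∀ i j, Disjoint ((nch i).box (2 * r)) ((ch j).box r)
  cardN : Fintype.card ι ≤ nN
  /-- natural mouth charts: box radius `2 r`, half width `h ≤ r / 2`, length `l` of the tube part. The cell is
  `Mth (2 r) h l`, its core `Mth (r + h + 1) h (l / 2 + 1)` -/
  μ : Type
  [fμ : Fintype μ]
  lf : μ → Bool
  w : μ → ℤ × ℤ
  h : μ → ℕ
  l : μ → ℕ
  mch : ∀ i, MChart Q F (lf i) (w i) (2 * r + 1) (h i) (l i + 1)
  h_lt : ∀ i, 0 < h i ∧ 2 * (h i + 1) ≤ r ∧ 8 * h i ≤ l i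
  mnat : ∀ i, (mch i).Nat ψ 0 ∨ (mch i).Nat ψ (Real.pi / 3)
  mZ : ∀ i j, (mthWall (lf i) (w i) (2 * r) (h i) (l i) j).image (mch i).side ⊆ Z
  mdisj : ∀ i j, Disjoint ((Mth (lf i) (w i) (2 * r) (h i) (l i)).image (mch i).φF) ((ch j).box r)
  cardM : Fintype.card μ ≤ nN
  /-- the inner halves cover: `2 r` for special charts, `r` for natural charts, mouths: wall sides and tube sides of
  the core `Mth (r + h + 1) h (l / 2 + 1)` -/
  cover : ∀ a ∈ Z, (∃ i, a ∈ (ch i).walls (2 * r)) ∨ (∃ i, a ∈ (nch i).walls r) ∨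
    ∃ i, ∃ j, ∃ s ∈ mthWall (lf i) (w i) (r + h i + 1) (h i) (l i / 2 + 1) j, a = (mch i).side s

end

end

end Pool.Agent.SixB
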