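import Mathlib

/-!
# SixB, step 3: weighted quasi-multiplicativity, abstract chain lemma

`ExpSys`: an expectation functional on functions of configurations with independence of disjoint sets of faces.
Nested boxes `B v 0 ⊇ B v 1 ⊇ ...` around the special vertices `v`; `N v j` = number of arcs over `v` in `B v j`;
`N v (j+1) ≤ N v j ≤ N v (j+1) + M v j`, `M v j` depends on `B v j \ B v (j+2)` and has small exponential tails.
`chain_upper`: `E[∏ t_v^{N v 0} Y] ≤ C ‖Y‖₂ ∏ E[t_v^{N v 0}]` for every `Y ≥ 0` which depends on the faces outside the `B v 1`.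
`chain_lower`: the corresponding lower bound. `F_step`: comparison of scales for `0 < t`.
-/

set_option autoImplicit false
set_option linter.unusedVariables false

namespace Pool.Agent.SixB

open Finset

/-- expectation with independence of disjoint sets of faces -/
structure ExpSys (Ω ι : Type*) where
  agree : Set ι → Ω → Ω → Prop
  anti : ∀ (S T : Set ι) (ω ω' : Ω), S ⊆ T → agree T ω ω' → agree S ω ω'
  E : (Ω → ℝ) → ℝ
  add : ∀ f g : Ω → ℝ, E (fun ω => f ω + g ω) = E f + E g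
  smul : ∀ (c : ℝ) (f : Ω → ℝ), E (fun ω => c * f ω) = c * E f
  one : E (fun _ => 1) = 1
  mono : ∀ f g : Ω → ℝ, (∀ ω, f ω ≤ g ω) → E f ≤ E g
  indep : ∀ (S T : Set ι) (f g : Ω → ℝ), Disjoint S T → (∀ ω ω', agree S ω ω' → f ω = f ω') →
    (∀ ω ω', agree T ω ω' → g ω = g ω') → E (fun ω => f ω * g ω) = E f * E g

namespace ExpSys

variable {Ω ι : Type*} (P : ExpSys Ω ι)

/-- `f` depends only on the faces of `S` -/
def Dep {α : Type*} (S : Set ι) (f : Ω → α) : Prop := ∀ ω ω', P.agree S ω ω' → f ω = f ω'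

theorem Dep.mono {α : Type*} {P : ExpSys Ω ι} {S T : Set ι} {f : Ω → α} (h : P.Dep S f)
    (hST : S ⊆ T) : P.Dep T f := fun ω ω' hω => h ω ω' (P.anti S T ω ω' hST hω)

theorem Dep.comp {α β : Type*} {P : ExpSys Ω ι} {S : Set ι} {f : Ω → α} (h : P.Dep S f)
    (φ : α → β) : P.Dep S (fun ω => φ (f ω)) := fun ω ω' hω => congrArg φ (h ω ω' hω)

theorem Dep.comp2 {α β γ : Type*} {P : ExpSys Ω ι} {S : Set ι} {f : Ω → α} {g : Ω → β}
    (h : P.Dep S f) (h' : P.Dep S g) (φ : α → β → γ) : P.Dep S (fun ω => φ (f ω) (g ω)) := by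
  intro ω ω' hω
  show φ (f ω) (g ω) = φ (f ω') (g ω')
  rw [h ω ω' hω, h' ω ω' hω]

theorem Dep.const {α : Type*} {P : ExpSys Ω ι} (S : Set ι) (c : α) : P.Dep S (fun _ : Ω => c) :=
  fun _ _ _ => rfl

theorem Dep.prod {κ : Type*} {P : ExpSys Ω ι} {S : Set ι} (A : Finset κ) (f : κ → Ω → ℝ)
    (h : ∀ k ∈ A, P.Dep S (f k)) : P.Dep S (fun ω => ∏ k ∈ A, f k ω) := by
  intro ω ω' hω
  exact Finset.prod_congr rfl fun k hk => h k hk ω ω' hω

theorem E_indep {S T : Set ι} {f g : Ω → ℝ} (hST : Disjoint S T) (hf : P.Dep S f)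
    (hg : P.Dep T g) : P.E (fun ω => f ω * g ω) = P.E f * P.E g :=
  P.indep S T f g hST hf hg

theorem E_const (c : ℝ) : P.E (fun _ => c) = c := by
  have h := P.smul c (fun _ => 1)
  rw [P.one] at h
  simpa using h

theorem E_nonneg {f : Ω → ℝ} (h : ∀ ω, 0 ≤ f ω) : 0 ≤ P.E f := by
  have := P.mono (fun _ => 0) f h
  rwa [P.E_const] at this

theorem E_neg (f : Ω → ℝ) : P.E (fun ω => - f ω) = - P.E f := by
  have h := P.smul (-1) f
  simpa using h

theorem E_sub (f g : Ω → ℝ) : P.E (fun ω => f ω - g ω) = P.E f - P.E g := by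
  have h := P.add f (fun ω => - g ω)
  rw [P.E_neg] at h
  simpa [sub_eq_add_neg] using h

theorem E_sum {κ : Type*} (A : Finset κ) (f : κ → Ω → ℝ) :
    P.E (fun ω => ∑ k ∈ A, f k ω) = ∑ k ∈ A, P.E (f k) := by
  classical
  induction A using Finset.induction_on with
  | empty => simpa using P.E_const 0
  | insert a A ha ih =>
    simp only [Finset.sum_insert ha]
    rw [P.add, ih]

/-- Cauchy-Schwarz -/
theorem cs (f g : Ω → ℝ) :
    P.E (fun ω => f ω * g ω) ^ 2 ≤ P.E (fun ω => f ω ^ 2) * P.E (fun ω => g ω ^ 2) := by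
  set a := P.E (fun ω => f ω ^ 2) with ha
  set b := P.E (fun ω => f ω * g ω) with hb
  set c := P.E (fun ω => g ω ^ 2) with hc
  have ha0 : 0 ≤ a := P.E_nonneg fun ω => sq_nonneg _
  have key : ∀ x : ℝ, 0 ≤ a * x ^ 2 + 2 * b * x + c := by
    intro x
    have h1 : 0 ≤ P.E (fun ω => (x * f ω + g ω) ^ 2) := P.E_nonneg fun ω => sq_nonneg _
    have h2 : P.E (fun ω => (x * f ω + g ω) ^ 2) = a * x ^ 2 + 2 * b * x + c := by
      have e : (fun ω => (x * f ω + g ω) ^ 2) =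
          fun ω => (x ^ 2 * f ω ^ 2 + (2 * x) * (f ω * g ω)) + g ω ^ 2 := by
        funext ω
        ring
      rw [e, P.add, P.add, P.smul, P.smul, ← ha, ← hb, ← hc]
      ring
    linarith
  have hd := discrim_le_zero (a := a) (b := 2 * b) (c := c) (fun x => by
    have := key x
    nlinarith)
  unfold discrim at hd
  nlinarith

theorem cs_sqrt (f g : Ω → ℝ) :
    P.E (fun ω => f ω * g ω) ≤ Real.sqrt (P.E (fun ω => f ω ^ 2)) *
      Real.sqrt (P.E (fun ω => g ω ^ 2)) := by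
  rw [← Real.sqrt_mul (P.E_nonneg fun ω => sq_nonneg _)]
  exact Real.le_sqrt_of_sq_le (P.cs f g)

end ExpSys

section chain

variable {Ω ι κ : Type*} (P : ExpSys Ω ι)

/-- the product of the truncated factors -/
noncomputable def chG (m : ℕ) (T : ℝ) (M : ℕ → Ω → ℕ) (k : ℕ) (ω : Ω) : ℝ :=
  ∏ i ∈ Finset.range k, (if m < M i ω then T ^ M i ω else 0)

theorem chG_nonneg {m : ℕ} {T : ℝ} (hT : 1 ≤ T) (M : ℕ → Ω → ℕ) (k : ℕ) (ω : Ω) :
    0 ≤ chG m T M k ω := by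
  unfold chG
  refine Finset.prod_nonneg fun i _ => ?_
  split_ifs
  · exact pow_nonneg (by linarith) _
  · exact le_rfl

/-- pointwise chain inequality -/
theorem chain_pt (m : ℕ) (t T : ℝ) (ht : 0 ≤ t) (hT : 1 ≤ T) (htT : t ≤ T) (N M : ℕ → Ω → ℕ)
    (h1 : ∀ j ω, N (j + 1) ω ≤ N j ω) (h2 : ∀ j ω, N j ω ≤ N (j + 1) ω + M j ω) (n : ℕ) (ω : Ω) :
    t ^ N 0 ω ≤ (∑ k ∈ Finset.range n, T ^ m * (t ^ N (k + 1) ω * chG m T M k ω)) +
      t ^ N n ω * chG m T M n ω := by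
  have hT0 : (0 : ℝ) ≤ T := by linarith
  have step : ∀ j, t ^ N j ω ≤ t ^ N (j + 1) ω * T ^ M j ω := by
    intro j
    rcases le_total t 1 with h | h
    · have e1 : t ^ N j ω ≤ t ^ N (j + 1) ω := pow_le_pow_of_le_one ht h (h1 j ω)
      have e2 : (1 : ℝ) ≤ T ^ M j ω := one_le_pow₀ hT
      calc t ^ N j ω ≤ t ^ N (j + 1) ω * 1 := by rw [mul_one]; exact e1
        _ ≤ t ^ N (j + 1) ω * T ^ M j ω := mul_le_mul_of_nonneg_left e2 (pow_nonneg ht _)
    · calc t ^ N j ω ≤ t ^ (N (j + 1) ω + M j ω) := pow_le_pow_right₀ h (h2 j ω)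
        _ = t ^ N (j + 1) ω * t ^ M j ω := pow_add _ _ _
        _ ≤ t ^ N (j + 1) ω * T ^ M j ω :=
          mul_le_mul_of_nonneg_left (pow_le_pow_left₀ ht htT _) (pow_nonneg ht _)
  induction n with
  | zero => simp [chG]
  | succ n ih =>
    refine ih.trans ?_
    rw [Finset.sum_range_succ, add_assoc]
    refine add_le_add le_rfl ?_
    have hG := chG_nonneg (m := m) hT M n ω
    have hG1 : chG m T M (n + 1) ω = chG m T M n ω * (if m < M n ω then T ^ M n ω else 0) := by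
      unfold chG
      rw [Finset.prod_range_succ]
    rw [hG1]
    split_ifs with hm
    · have e1 := mul_le_mul_of_nonneg_right (step n) hG
      have e2 : 0 ≤ T ^ m * (t ^ N (n + 1) ω * chG m T M n ω) := by positivity
      calc t ^ N n ω * chG m T M n ω ≤ t ^ N (n + 1) ω * T ^ M n ω * chG m T M n ω := e1
        _ = t ^ N (n + 1) ω * (chG m T M n ω * T ^ M n ω) := by ring
        _ ≤ _ := by linarith
    · have e0 : T ^ M n ω ≤ T ^ m := pow_le_pow_right₀ hT (by omega)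
      have e1 := mul_le_mul_of_nonneg_right (step n) hG
      have e2 : t ^ N (n + 1) ω * T ^ M n ω * chG m T M n ω ≤
          t ^ N (n + 1) ω * T ^ m * chG m T M n ω :=
        mul_le_mul_of_nonneg_right (mul_le_mul_of_nonneg_left e0 (pow_nonneg ht _)) hG
      have e3 : t ^ N (n + 1) ω * (chG m T M n ω * 0) = 0 := by ring
      rw [e3, add_zero]
      calc t ^ N n ω * chG m T M n ω ≤ t ^ N (n + 1) ω * T ^ M n ω * chG m T M n ω := e1
        _ ≤ t ^ N (n + 1) ω * T ^ m * chG m T M n ω := e2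
        _ = T ^ m * (t ^ N (n + 1) ω * chG m T M n ω) := by ring

theorem box_anti {B : ℕ → Set ι} (hB : ∀ j, B (j + 1) ⊆ B j) {i j : ℕ} (hij : i ≤ j) :
    B j ⊆ B i := by
  induction hij with
  | refl => exact subset_rfl
  | step _ ih => exact (hB _).trans ih

theorem chG_dep {m : ℕ} {T : ℝ} {B : ℕ → Set ι} (hB : ∀ j, B (j + 1) ⊆ B j) {M : ℕ → Ω → ℕ}
    (hM : ∀ j, P.Dep (B j \ B (j + 2)) (M j)) (k : ℕ) :
    P.Dep (B 0 \ B (k + 1)) (chG m T M k) := by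
  unfold chG
  refine ExpSys.Dep.prod _ _ fun i hi => ?_
  rw [Finset.mem_range] at hi
  have h1 : P.Dep (B 0 \ B (k + 1)) (M i) :=
    (hM i).mono (Set.sdiff_subset_sdiff (box_anti hB (Nat.zero_le _)) (box_anti hB (by omega)))
  exact h1.comp fun n => if m < n then T ^ n else 0

/-- a product of independent factors along one parity class -/
theorem par_prod {B : ℕ → Set ι} (hB : ∀ j, B (j + 1) ⊆ B j) {g : ℕ → Ω → ℝ}
    (hg : ∀ j, P.Dep (B j \ B (j + 2)) (g j)) (hg0 : ∀ j ω, 0 ≤ g j ω) (d : ℝ) (hd0 : 0 ≤ d)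
    (hd : ∀ j, P.E (g j) ≤ d) (s n : ℕ) :
    P.E (fun ω => ∏ i ∈ Finset.range n, g (2 * i + s) ω) ≤ d ^ n ∧
      P.Dep (B 0 \ B (2 * n + s)) (fun ω => ∏ i ∈ Finset.range n, g (2 * i + s) ω) := by
  induction n with
  | zero =>
    simp only [Finset.range_zero, Finset.prod_empty, pow_zero]
    exact ⟨(P.E_const 1).le, ExpSys.Dep.const _ _⟩
  | succ n ih =>
    obtain ⟨ih1, ih2⟩ := ih
    simp only [Finset.prod_range_succ]
    refine ⟨?_, ?_⟩
    · have hdis : Disjoint (B 0 \ B (2 * n + s)) (B (2 * n + s) \ B (2 * n + s + 2)) := by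
        rw [Set.disjoint_left]
        intro x hx hx'
        exact hx.2 hx'.1
      rw [P.E_indep hdis ih2 (hg (2 * n + s)), pow_succ]
      exact mul_le_mul ih1 (hd _) (P.E_nonneg (hg0 _)) (pow_nonneg hd0 _)
    · have e : 2 * (n + 1) + s = 2 * n + s + 2 := by ring
      rw [e]
      refine ExpSys.Dep.comp2 (ih2.mono ?_) ((hg (2 * n + s)).mono ?_) (fun x y : ℝ => x * y)
      · exact Set.sdiff_subset_sdiff subset_rfl (box_anti hB (by omega))
      · exact Set.sdiff_subset_sdiff (box_anti hB (Nat.zero_le _)) subset_rfl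

theorem split_prod (g : ℕ → ℝ) (k : ℕ) :
    ∏ i ∈ Finset.range k, g i = (∏ i ∈ Finset.range ((k + 1) / 2), g (2 * i + 0)) *
      ∏ i ∈ Finset.range (k / 2), g (2 * i + 1) := by
  induction k with
  | zero => simp
  | succ k ih =>
    rw [Finset.prod_range_succ, ih]
    rcases Nat.even_or_odd' k with ⟨c, hc | hc⟩
    · have e1 : (k + 1 + 1) / 2 = (k + 1) / 2 + 1 := by omega
      have e2 : (k + 1) / 2 = k / 2 := by omega
      have e3 : k = 2 * (k / 2) + 0 := by omega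
      rw [e1, Finset.prod_range_succ _ ((k + 1) / 2), e2, ← e3]
      ring
    · have e1 : (k + 1 + 1) / 2 = (k + 1) / 2 := by omega
      have e2 : (k + 1) / 2 = k / 2 + 1 := by omega
      have e3 : k = 2 * (k / 2) + 1 := by omega
      rw [e1, e2, Finset.prod_range_succ (fun i => g (2 * i + 1)) (k / 2), ← e3]
      ring

/-- second moment of the truncated product -/
theorem chG_sq {m : ℕ} {T : ℝ} (hT : 1 ≤ T) {B : ℕ → Set ι} (hB : ∀ j, B (j + 1) ⊆ B j)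
    {M : ℕ → Ω → ℕ} (hM : ∀ j, P.Dep (B j \ B (j + 2)) (M j)) (d : ℝ) (hd0 : 0 ≤ d)
    (hd : ∀ j, P.E (fun ω => if m < M j ω then T ^ (4 * M j ω) else 0) ≤ d ^ 4) (k : ℕ) :
    P.E (fun ω => chG m T M k ω ^ 2) ≤ (d ^ k) ^ 2 := by
  have hT0 : (0 : ℝ) ≤ T := by linarith
  set g : ℕ → Ω → ℝ := fun j ω => if m < M j ω then T ^ (2 * M j ω) else 0 with hg
  set g2 : ℕ → Ω → ℝ := fun j ω => if m < M j ω then T ^ (4 * M j ω) else 0 with hg2
  have hg2dep : ∀ j, P.Dep (B j \ B (j + 2)) (g2 j) := fun j =>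
    (hM j).comp fun n => if m < n then T ^ (4 * n) else 0
  have hg20 : ∀ j ω, 0 ≤ g2 j ω := by
    intro j ω
    simp only [hg2]
    split_ifs
    · exact pow_nonneg hT0 _
    · exact le_rfl
  have hsq : ∀ j ω, g j ω ^ 2 = g2 j ω := by
    intro j ω
    simp only [hg, hg2]
    split_ifs
    · rw [← pow_mul]
      congr 1
      ring
    · simp
  have e1 : (fun ω => chG m T M k ω ^ 2) = fun ω =>
      (∏ i ∈ Finset.range ((k + 1) / 2), g (2 * i + 0) ω) *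
        ∏ i ∈ Finset.range (k / 2), g (2 * i + 1) ω := by
    funext ω
    rw [← split_prod (fun i => g i ω) k]
    unfold chG
    rw [← Finset.prod_pow]
    refine Finset.prod_congr rfl fun i _ => ?_
    simp only [hg]
    split_ifs
    · rw [← pow_mul, mul_comm]
    · simp
  rw [e1]
  refine (P.cs_sqrt _ _).trans ?_
  have h1 : ∀ s n : ℕ, P.E (fun ω => (∏ i ∈ Finset.range n, g (2 * i + s) ω) ^ 2) ≤
      (d ^ 4) ^ n := by
    intro s n
    have e2 : (fun ω => (∏ i ∈ Finset.range n, g (2 * i + s) ω) ^ 2) =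
        fun ω => ∏ i ∈ Finset.range n, g2 (2 * i + s) ω := by
      funext ω
      rw [← Finset.prod_pow]
      exact Finset.prod_congr rfl fun i _ => hsq _ _
    rw [e2]
    exact (par_prod P hB hg2dep hg20 (d ^ 4) (pow_nonneg hd0 4) hd s n).1
  have h2 : ∀ s n : ℕ, Real.sqrt (P.E (fun ω => (∏ i ∈ Finset.range n, g (2 * i + s) ω) ^ 2)) ≤
      d ^ (2 * n) := by
    intro s n
    refine Real.sqrt_le_iff.2 ⟨pow_nonneg hd0 _, (h1 s n).trans (le_of_eq ?_)⟩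
    rw [← pow_mul, ← pow_mul]
    congr 1
    ring
  calc _ ≤ d ^ (2 * ((k + 1) / 2)) * d ^ (2 * (k / 2)) :=
        mul_le_mul (h2 0 _) (h2 1 _) (Real.sqrt_nonneg _) (pow_nonneg hd0 _)
    _ = (d ^ k) ^ 2 := by
      rw [← pow_add, ← pow_mul]
      congr 1
      omega

variable (B : κ → ℕ → Set ι) (N M : κ → ℕ → Ω → ℕ) (t : κ → ℝ)

/-- UPPER BOUND (weighted quasi-multiplicativity) -/
theorem chain_aux (hB : ∀ v j, B v (j + 1) ⊆ B v j)
    (hdis : ∀ v v', v ≠ v' → Disjoint (B v 0) (B v' 0))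
    (hN : ∀ v j, P.Dep (B v j) (N v j)) (hM : ∀ v j, P.Dep (B v j \ B v (j + 2)) (M v j))
    (hN1 : ∀ v j ω, N v (j + 1) ω ≤ N v j ω) (hN2 : ∀ v j ω, N v j ω ≤ N v (j + 1) ω + M v j ω)
    (J : ℕ) (hJ : ∀ v j, J ≤ j → ∀ ω, N v j ω = 0) (ht : ∀ v, 0 ≤ t v) (T : ℝ) (hT : 1 ≤ T)
    (htT : ∀ v, t v ≤ T) (m : ℕ) (d : ℝ) (hd0 : 0 ≤ d)
    (hd : ∀ v j, P.E (fun ω => if m < M v j ω then T ^ (4 * M v j ω) else 0) ≤ d ^ 4)
    (A : ℝ) (hA0 : 0 ≤ A)
    (hA : ∀ v j, P.E (fun ω => t v ^ N v (j + 1) ω) ≤ A * P.E (fun ω => t v ^ N v j ω))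
    (hAd : A * d ≤ 1 / 2) (V : Finset κ) :
    ∀ (Y H : Ω → ℝ) (S : Set ι), (∀ ω, 0 ≤ Y ω) → (∀ ω, 0 ≤ H ω) →
      (∀ v ∈ V, P.Dep (B v 1)ᶜ Y) → P.Dep S H → (∀ v ∈ V, Disjoint S (B v 0)) →
      P.E (fun ω => (∏ v ∈ V, t v ^ N v 0 ω) * (Y ω * H ω)) ≤
        (∏ v ∈ V, (2 * A * T ^ m * P.E (fun ω => t v ^ N v 0 ω))) *
          (Real.sqrt (P.E (fun ω => Y ω ^ 2)) * Real.sqrt (P.E (fun ω => H ω ^ 2))) := by
  classical
  have hT0 : (0 : ℝ) ≤ T := by linarith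
  have hF0 : ∀ v j, 0 ≤ P.E (fun ω => t v ^ N v j ω) := fun v j =>
    P.E_nonneg fun ω => pow_nonneg (ht v) _
  have hFk : ∀ v k, P.E (fun ω => t v ^ N v k ω) ≤ A ^ k * P.E (fun ω => t v ^ N v 0 ω) := by
    intro v k
    induction k with
    | zero => simp
    | succ k ih =>
      refine (hA v k).trans ?_
      rw [pow_succ', mul_assoc]
      exact mul_le_mul_of_nonneg_left ih hA0
  have hgeo : ∀ n : ℕ, ∑ k ∈ Finset.range n, (A * d) ^ k ≤ 2 := by
    intro n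
    have h0 : 0 ≤ A * d := mul_nonneg hA0 hd0
    have h1 : ∑ k ∈ Finset.range n, (A * d) ^ k ≤ ∑ k ∈ Finset.range n, (1 / 2 : ℝ) ^ k :=
      Finset.sum_le_sum fun k _ => pow_le_pow_left₀ h0 hAd k
    refine h1.trans ?_
    have h2 := geom_sum_eq (show (1 / 2 : ℝ) ≠ 1 by norm_num) n
    rw [h2]
    have h3 : (0 : ℝ) ≤ (1 / 2 : ℝ) ^ n := by positivity
    have e : ((1 / 2 : ℝ) ^ n - 1) / (1 / 2 - 1) = 2 * (1 - (1 / 2 : ℝ) ^ n) := by ring
    rw [e]
    linarith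
  induction V using Finset.induction_on with
  | empty =>
    intro Y H S hY hH hYd hHd hSd
    simp only [Finset.prod_empty, one_mul]
    exact P.cs_sqrt Y H
  | insert a V ha ih =>
    intro Y H S hY hH hYd hHd hSd
    have haV : ∀ v ∈ V, v ≠ a := fun v hv h => ha (h ▸ hv)
    set G : ℕ → Ω → ℝ := fun k => chG m T (M a) k with hG
    have hG0 : ∀ k ω, 0 ≤ G k ω := fun k ω => chG_nonneg hT (M a) k ω
    have hGd : ∀ k, P.Dep (B a 0 \ B a (k + 1)) (G k) := fun k => chG_dep P (hB a) (hM a) k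
    set R : ℕ → Ω → ℝ := fun k ω => (∏ v ∈ V, t v ^ N v 0 ω) * (Y ω * (G k ω * H ω)) with hR
    have hR0 : ∀ k ω, 0 ≤ R k ω := by
      intro k ω
      have h1 : 0 ≤ ∏ v ∈ V, t v ^ N v 0 ω := Finset.prod_nonneg fun v _ => pow_nonneg (ht v) _
      exact mul_nonneg h1 (mul_nonneg (hY ω) (mul_nonneg (hG0 k ω) (hH ω)))
    have hRd : ∀ k, P.Dep (B a (k + 1))ᶜ (R k) := by
      intro k
      have h1 : P.Dep (B a (k + 1))ᶜ (fun ω => ∏ v ∈ V, t v ^ N v 0 ω) := by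
        refine ExpSys.Dep.prod _ _ fun v hv => ?_
        have h2 : P.Dep (B a (k + 1))ᶜ (N v 0) := by
          refine (hN v 0).mono ?_
          intro x hx hx'
          exact Set.disjoint_left.1 (hdis v a (haV v hv)) hx (box_anti (hB a) (Nat.zero_le _) hx')
        exact h2.comp fun n => t v ^ n
      have h2 : P.Dep (B a (k + 1))ᶜ Y := by
        refine (hYd a (Finset.mem_insert_self _ _)).mono ?_
        exact Set.compl_subset_compl.2 (box_anti (hB a) (by omega))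
      have h3 : P.Dep (B a (k + 1))ᶜ (G k) := (hGd k).mono fun x hx => hx.2
      have h4 : P.Dep (B a (k + 1))ᶜ H := by
        refine hHd.mono ?_
        intro x hx hx'
        exact Set.disjoint_left.1 (hSd a (Finset.mem_insert_self _ _)) hx
          (box_anti (hB a) (Nat.zero_le _) hx')
      exact h1.comp2 (h2.comp2 (h3.comp2 h4 fun x y : ℝ => x * y) fun x y : ℝ => x * y)
        fun x y : ℝ => x * y
    -- expansion
    have hexp : P.E (fun ω => (∏ v ∈ insert a V, t v ^ N v 0 ω) * (Y ω * H ω)) ≤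
        ∑ k ∈ Finset.range (J + 1), T ^ m * (P.E (fun ω => t a ^ N a (k + 1) ω) * P.E (R k)) := by
      have h1 : ∀ ω, (∏ v ∈ insert a V, t v ^ N v 0 ω) * (Y ω * H ω) ≤
          ∑ k ∈ Finset.range (J + 1), T ^ m * (t a ^ N a (k + 1) ω * R k ω) := by
        intro ω
        rw [Finset.prod_insert ha]
        have h2 := chain_pt m (t a) T (ht a) hT (htT a) (N a) (M a) (hN1 a) (hN2 a) J ω
        have h3 : t a ^ N a 0 ω ≤ ∑ k ∈ Finset.range (J + 1),
            T ^ m * (t a ^ N a (k + 1) ω * G k ω) := by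
          refine h2.trans ?_
          rw [Finset.sum_range_succ]
          refine add_le_add le_rfl ?_
          rw [hJ a J le_rfl ω, hJ a (J + 1) (by omega) ω]
          have h4 : (1 : ℝ) ≤ T ^ m := one_le_pow₀ hT
          have h5 := hG0 J ω
          simp only [pow_zero, one_mul]
          exact le_mul_of_one_le_left h5 h4
        have h6 : 0 ≤ (∏ v ∈ V, t v ^ N v 0 ω) * (Y ω * H ω) :=
          mul_nonneg (Finset.prod_nonneg fun v _ => pow_nonneg (ht v) _)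
            (mul_nonneg (hY ω) (hH ω))
        have h7 := mul_le_mul_of_nonneg_right h3 h6
        calc t a ^ N a 0 ω * (∏ v ∈ V, t v ^ N v 0 ω) * (Y ω * H ω)
            = t a ^ N a 0 ω * ((∏ v ∈ V, t v ^ N v 0 ω) * (Y ω * H ω)) := by ring
          _ ≤ _ := h7
          _ = _ := by
            rw [Finset.sum_mul]
            refine Finset.sum_congr rfl fun k _ => ?_
            simp only [hR]
            ring
      refine (P.mono _ _ h1).trans (le_of_eq ?_)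
      rw [P.E_sum]
      refine Finset.sum_congr rfl fun k _ => ?_
      rw [P.smul]
      congr 1
      exact P.E_indep disjoint_compl_right ((hN a (k + 1)).comp fun n => t a ^ n) (hRd k)
    refine hexp.trans ?_
    set CV := ∏ v ∈ V, (2 * A * T ^ m * P.E (fun ω => t v ^ N v 0 ω)) with hCV
    have hCV0 : 0 ≤ CV := Finset.prod_nonneg fun v _ => by
      have := hF0 v 0
      positivity
    have hRk : ∀ k, P.E (R k) ≤ CV * (Real.sqrt (P.E (fun ω => Y ω ^ 2)) *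
        (d ^ k * Real.sqrt (P.E (fun ω => H ω ^ 2)))) := by
      intro k
      have h1 := ih Y (fun ω => G k ω * H ω) (S ∪ B a 0) hY
        (fun ω => mul_nonneg (hG0 k ω) (hH ω))
        (fun v hv => hYd v (Finset.mem_insert_of_mem hv))
        (((hGd k).mono (fun x hx => Or.inr hx.1)).comp2 (hHd.mono Set.subset_union_left)
          fun x y : ℝ => x * y)
        (fun v hv => by
          rw [Set.disjoint_union_left]
          exact ⟨hSd v (Finset.mem_insert_of_mem hv), hdis a v (haV v hv).symm⟩)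
      refine h1.trans ?_
      have h2 : P.E (fun ω => (G k ω * H ω) ^ 2) ≤ (d ^ k) ^ 2 * P.E (fun ω => H ω ^ 2) := by
        have e : (fun ω => (G k ω * H ω) ^ 2) = fun ω => G k ω ^ 2 * H ω ^ 2 := by
          funext ω
          ring
        rw [e, P.E_indep (hSd a (Finset.mem_insert_self _ _)).symm
          (((hGd k).mono fun x hx => hx.1).comp fun x => x ^ 2) (hHd.comp fun x => x ^ 2)]
        exact mul_le_mul_of_nonneg_right (chG_sq P hT (hB a) (hM a) d hd0 (hd a) k)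
          (P.E_nonneg fun ω => sq_nonneg _)
      have h3 : Real.sqrt (P.E (fun ω => (G k ω * H ω) ^ 2)) ≤
          d ^ k * Real.sqrt (P.E (fun ω => H ω ^ 2)) := by
        refine (Real.sqrt_le_sqrt h2).trans (le_of_eq ?_)
        rw [Real.sqrt_mul (sq_nonneg _), Real.sqrt_sq (pow_nonneg hd0 _)]
      exact mul_le_mul_of_nonneg_left (mul_le_mul_of_nonneg_left h3 (Real.sqrt_nonneg _)) hCV0
    set sY := Real.sqrt (P.E (fun ω => Y ω ^ 2)) with hsY
    set sH := Real.sqrt (P.E (fun ω => H ω ^ 2)) with hsH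
    have hsY0 : 0 ≤ sY := Real.sqrt_nonneg _
    have hsH0 : 0 ≤ sH := Real.sqrt_nonneg _
    set Fa := P.E (fun ω => t a ^ N a 0 ω) with hFa
    have hFa0 : 0 ≤ Fa := hF0 a 0
    have hterm : ∀ k, T ^ m * (P.E (fun ω => t a ^ N a (k + 1) ω) * P.E (R k)) ≤
        (A * T ^ m * Fa * CV * (sY * sH)) * (A * d) ^ k := by
      intro k
      have h1 : P.E (fun ω => t a ^ N a (k + 1) ω) * P.E (R k) ≤
          (A ^ (k + 1) * Fa) * (CV * (sY * (d ^ k * sH))) :=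
        mul_le_mul (hFk a (k + 1)) (hRk k) (P.E_nonneg (hR0 k))
          (mul_nonneg (pow_nonneg hA0 _) hFa0)
      have h2 := mul_le_mul_of_nonneg_left h1 (pow_nonneg hT0 m)
      refine h2.trans (le_of_eq ?_)
      rw [mul_pow, pow_succ]
      ring
    refine (Finset.sum_le_sum fun k _ => hterm k).trans ?_
    rw [← Finset.mul_sum, Finset.prod_insert ha]
    have hc0 : 0 ≤ A * T ^ m * Fa * CV * (sY * sH) := by positivity
    refine (mul_le_mul_of_nonneg_left (hgeo (J + 1)) hc0).trans (le_of_eq ?_)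
    ring

/-- upper bound, standard form -/
theorem chain_upper (hB : ∀ v j, B v (j + 1) ⊆ B v j)
    (hdis : ∀ v v', v ≠ v' → Disjoint (B v 0) (B v' 0))
    (hN : ∀ v j, P.Dep (B v j) (N v j)) (hM : ∀ v j, P.Dep (B v j \ B v (j + 2)) (M v j))
    (hN1 : ∀ v j ω, N v (j + 1) ω ≤ N v j ω) (hN2 : ∀ v j ω, N v j ω ≤ N v (j + 1) ω + M v j ω)
    (J : ℕ) (hJ : ∀ v j, J ≤ j → ∀ ω, N v j ω = 0) (ht : ∀ v, 0 ≤ t v) (T : ℝ) (hT : 1 ≤ T)
    (htT : ∀ v, t v ≤ T) (m : ℕ) (d : ℝ) (hd0 : 0 ≤ d)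
    (hd : ∀ v j, P.E (fun ω => if m < M v j ω then T ^ (4 * M v j ω) else 0) ≤ d ^ 4)
    (A : ℝ) (hA0 : 0 ≤ A)
    (hA : ∀ v j, P.E (fun ω => t v ^ N v (j + 1) ω) ≤ A * P.E (fun ω => t v ^ N v j ω))
    (hAd : A * d ≤ 1 / 2) (V : Finset κ) (Y : Ω → ℝ) (hY : ∀ ω, 0 ≤ Y ω)
    (hYd : ∀ v ∈ V, P.Dep (B v 1)ᶜ Y) :
    P.E (fun ω => (∏ v ∈ V, t v ^ N v 0 ω) * Y ω) ≤
      (2 * A * T ^ m) ^ V.card * (∏ v ∈ V, P.E (fun ω => t v ^ N v 0 ω)) *
        Real.sqrt (P.E (fun ω => Y ω ^ 2)) := by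
  have h := chain_aux P B N M t hB hdis hN hM hN1 hN2 J hJ ht T hT htT m d hd0 hd A hA0 hA hAd V
    Y (fun _ => 1) ∅ hY (fun _ => zero_le_one) hYd (ExpSys.Dep.const _ _)
    (fun v _ => Set.empty_disjoint _)
  simp only [mul_one, one_pow, P.one, Real.sqrt_one] at h
  rw [Finset.prod_mul_distrib, Finset.prod_const] at h
  exact h

/-- the product formula for the boxes -/
theorem chain_prod (hdis : ∀ v v', v ≠ v' → Disjoint (B v 0) (B v' 0))
    (hN : ∀ v j, P.Dep (B v j) (N v j)) (V : Finset κ) (g : Ω → ℝ) (S : Set ι)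
    (hg : P.Dep S g) (hS : ∀ v ∈ V, Disjoint S (B v 0)) :
    P.E (fun ω => (∏ v ∈ V, t v ^ N v 0 ω) * g ω) =
      (∏ v ∈ V, P.E (fun ω => t v ^ N v 0 ω)) * P.E g := by
  classical
  induction V using Finset.induction_on with
  | empty => simp
  | insert a V ha ih =>
    have haV : ∀ v ∈ V, v ≠ a := fun v hv h => ha (h ▸ hv)
    have e : (fun ω => (∏ v ∈ insert a V, t v ^ N v 0 ω) * g ω) =
        fun ω => t a ^ N a 0 ω * ((∏ v ∈ V, t v ^ N v 0 ω) * g ω) := by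
      funext ω
      rw [Finset.prod_insert ha]
      ring
    have h1 : P.Dep (B a 0)ᶜ (fun ω => ∏ v ∈ V, t v ^ N v 0 ω) := by
      refine ExpSys.Dep.prod _ _ fun v hv => ?_
      have h2 : P.Dep (B a 0)ᶜ (N v 0) := by
        refine (hN v 0).mono ?_
        intro x hx hx'
        exact Set.disjoint_left.1 (hdis v a (haV v hv)) hx hx'
      exact h2.comp fun n => t v ^ n
    have h2 : P.Dep (B a 0)ᶜ g := by
      refine hg.mono ?_
      intro x hx hx'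
      exact Set.disjoint_left.1 (hS a (Finset.mem_insert_self _ _)) hx hx'
    rw [e, P.E_indep disjoint_compl_right ((hN a 0).comp fun n => t a ^ n)
      (h1.comp2 h2 fun x y : ℝ => x * y), ih fun v hv => hS v (Finset.mem_insert_of_mem hv),
      Finset.prod_insert ha]
    ring

/-- LOWER BOUND -/
theorem chain_lower (hB : ∀ v j, B v (j + 1) ⊆ B v j)
    (hdis : ∀ v v', v ≠ v' → Disjoint (B v 0) (B v' 0))
    (hN : ∀ v j, P.Dep (B v j) (N v j)) (hM : ∀ v j, P.Dep (B v j \ B v (j + 2)) (M v j))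
    (hN1 : ∀ v j ω, N v (j + 1) ω ≤ N v j ω) (hN2 : ∀ v j ω, N v j ω ≤ N v (j + 1) ω + M v j ω)
    (J : ℕ) (hJ : ∀ v j, J ≤ j → ∀ ω, N v j ω = 0) (ht : ∀ v, 0 ≤ t v) (T : ℝ) (hT : 1 ≤ T)
    (htT : ∀ v, t v ≤ T) (m : ℕ) (d : ℝ) (hd0 : 0 ≤ d)
    (hd : ∀ v j, P.E (fun ω => if m < M v j ω then T ^ (4 * M v j ω) else 0) ≤ d ^ 4)
    (A : ℝ) (hA0 : 0 ≤ A)
    (hA : ∀ v j, P.E (fun ω => t v ^ N v (j + 1) ω) ≤ A * P.E (fun ω => t v ^ N v j ω))
    (hAd : A * d ≤ 1 / 2) (V : Finset κ) (K : Ω → ℕ) (hK : ∀ v ∈ V, P.Dep (B v 1)ᶜ K)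
    (g : Ω → ℝ) (S : Set ι) (hg : P.Dep S g) (hS : ∀ v ∈ V, Disjoint S (B v 0))
    (hg0 : ∀ ω, 0 ≤ g ω) (hg1 : ∀ ω, g ω ≤ 1) (w : ℝ) (hw0 : 0 ≤ w) (hw1 : w ≤ 1) (n : ℕ) :
    w ^ n * ((∏ v ∈ V, P.E (fun ω => t v ^ N v 0 ω)) *
      (P.E g - (2 * A * T ^ m) ^ V.card * Real.sqrt (P.E (fun ω => if n < K ω then 1 else 0)))) ≤
      P.E (fun ω => (∏ v ∈ V, t v ^ N v 0 ω) * (w ^ K ω * g ω)) := by
  have hind : ∀ v ∈ V, P.Dep (B v 1)ᶜ (fun ω => if n < K ω then (1 : ℝ) else 0) :=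
    fun v hv => (hK v hv).comp fun k => if n < k then (1 : ℝ) else 0
  have h1 := chain_upper P B N M t hB hdis hN hM hN1 hN2 J hJ ht T hT htT m d hd0 hd A hA0 hA
    hAd V (fun ω => if n < K ω then 1 else 0) (fun ω => by split_ifs <;> norm_num) hind
  have e1 : (fun ω => (if n < K ω then (1 : ℝ) else 0) ^ 2) =
      fun ω => if n < K ω then (1 : ℝ) else 0 := by
    funext ω
    split_ifs <;> norm_num
  rw [e1] at h1
  have h2 := chain_prod P B N t hdis hN V g S hg hS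
  have h3 : ∀ ω, w ^ n * ((∏ v ∈ V, t v ^ N v 0 ω) * g ω -
      (∏ v ∈ V, t v ^ N v 0 ω) * (if n < K ω then (1 : ℝ) else 0)) ≤
      (∏ v ∈ V, t v ^ N v 0 ω) * (w ^ K ω * g ω) := by
    intro ω
    have hp : 0 ≤ ∏ v ∈ V, t v ^ N v 0 ω := Finset.prod_nonneg fun v _ => pow_nonneg (ht v) _
    have h4 : w ^ n * (g ω - (if n < K ω then (1 : ℝ) else 0)) ≤ w ^ K ω * g ω := by
      split_ifs with hk
      · have h5 : w ^ n * (g ω - 1) ≤ 0 :=
          mul_nonpos_of_nonneg_of_nonpos (pow_nonneg hw0 _) (by linarith [hg1 ω])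
        exact h5.trans (mul_nonneg (pow_nonneg hw0 _) (hg0 ω))
      · rw [sub_zero]
        exact mul_le_mul_of_nonneg_right (pow_le_pow_of_le_one hw0 hw1 (by omega)) (hg0 ω)
    have h5 := mul_le_mul_of_nonneg_left h4 hp
    calc _ = (∏ v ∈ V, t v ^ N v 0 ω) *
          (w ^ n * (g ω - (if n < K ω then (1 : ℝ) else 0))) := by ring
      _ ≤ _ := h5
  refine le_trans ?_ (P.mono _ _ h3)
  rw [P.smul, P.E_sub, h2]
  refine mul_le_mul_of_nonneg_left ?_ (pow_nonneg hw0 _)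
  rw [mul_sub]
  refine sub_le_sub_left (h1.trans (le_of_eq ?_)) _
  ring

/-- comparison of scales, weight `t ≤ 1` -/
theorem F_step {B : ℕ → Set ι} (hB : ∀ j, B (j + 1) ⊆ B j) {N M : ℕ → Ω → ℕ}
    (hN : ∀ j, P.Dep (B j) (N j)) (hM : ∀ j, P.Dep (B j \ B (j + 2)) (M j))
    (hN1 : ∀ j ω, N (j + 1) ω ≤ N j ω) (hN2 : ∀ j ω, N j ω ≤ N (j + 1) ω + M j ω)
    (J : ℕ) (hJ : ∀ j, J ≤ j → ∀ ω, N j ω = 0) (t : ℝ) (ht : 0 < t) (ht1 : t ≤ 1) (m : ℕ)
    (hm : ∀ j, P.E (fun ω => if m < M j ω then 1 else 0) ≤ t ^ m / 4) (j : ℕ) :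
    P.E (fun ω => t ^ N (j + 1) ω) ≤ 2 * (t ^ m)⁻¹ * P.E (fun ω => t ^ N j ω) := by
  have htm : 0 < t ^ m := pow_pos ht m
  have htm1 : t ^ m ≤ 1 := pow_le_one₀ ht.le ht1
  have hF0 : ∀ j, 0 ≤ P.E (fun ω => t ^ N j ω) := fun j =>
    P.E_nonneg fun ω => pow_nonneg ht.le _
  have key : ∀ j, t ^ m * (P.E (fun ω => t ^ N (j + 1) ω) -
      t ^ m / 4 * P.E (fun ω => t ^ N (j + 2) ω)) ≤ P.E (fun ω => t ^ N j ω) := by
    intro j
    have h1 : ∀ ω, t ^ m * (t ^ N (j + 1) ω - t ^ N (j + 2) ω * (if m < M j ω then 1 else 0)) ≤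
        t ^ N j ω := by
      intro ω
      split_ifs with h
      · rw [mul_one]
        have h2 : t ^ N (j + 1) ω ≤ t ^ N (j + 2) ω := pow_le_pow_of_le_one ht.le ht1 (hN1 _ _)
        have h3 : t ^ m * (t ^ N (j + 1) ω - t ^ N (j + 2) ω) ≤ 0 :=
          mul_nonpos_of_nonneg_of_nonpos htm.le (by linarith)
        exact h3.trans (pow_nonneg ht.le _)
      · rw [mul_zero, sub_zero, ← pow_add]
        refine pow_le_pow_of_le_one ht.le ht1 ?_
        have := hN2 j ω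
        omega
    refine le_trans ?_ (P.mono _ _ h1)
    rw [P.smul, P.E_sub]
    refine mul_le_mul_of_nonneg_left (sub_le_sub_left ?_ _) htm.le
    have hdis : Disjoint (B (j + 2)) (B j \ B (j + 2)) := by
      rw [Set.disjoint_left]
      intro x hx hx'
      exact hx'.2 hx
    rw [P.E_indep hdis ((hN (j + 2)).comp fun n => t ^ n)
      ((hM j).comp fun n => if m < n then (1 : ℝ) else 0), mul_comm]
    exact mul_le_mul_of_nonneg_right (hm j) (hF0 _)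
  have hmain : ∀ i j, J ≤ j + i → P.E (fun ω => t ^ N (j + 1) ω) ≤
      2 * (t ^ m)⁻¹ * P.E (fun ω => t ^ N j ω) := by
    intro i
    induction i with
    | zero =>
      intro j hj
      have e1 : (fun ω => t ^ N (j + 1) ω) = fun _ => (1 : ℝ) := by
        funext ω
        rw [hJ (j + 1) (by omega) ω, pow_zero]
      have e2 : (fun ω => t ^ N j ω) = fun _ => (1 : ℝ) := by
        funext ω
        rw [hJ j (by omega) ω, pow_zero]
      rw [e1, e2, P.one, mul_one]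
      have h1 : (1 : ℝ) ≤ (t ^ m)⁻¹ := (one_le_inv₀ htm).2 htm1
      linarith
    | succ i ih =>
      intro j hj
      have h1 := ih (j + 1) (by omega)
      have h2 := key j
      set a := P.E (fun ω => t ^ N (j + 2) ω)
      set b := P.E (fun ω => t ^ N (j + 1) ω)
      set c := P.E (fun ω => t ^ N j ω)
      have e1 : t ^ m / 4 * (2 * (t ^ m)⁻¹ * b) = b / 2 := by
        field_simp
        ring
      have h3 : t ^ m / 4 * a ≤ b / 2 := by
        rw [← e1]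
        exact mul_le_mul_of_nonneg_left h1 (by positivity)
      have h4 : t ^ m * (b / 2) ≤ c := by
        refine le_trans (mul_le_mul_of_nonneg_left ?_ htm.le) h2
        linarith
      have h5 : b = 2 * (t ^ m)⁻¹ * (t ^ m * (b / 2)) := by
        field_simp
      rw [h5]
      exact mul_le_mul_of_nonneg_left h4 (by positivity)
  exact hmain J j (by omega)

/-- comparison of scales, weight `1 ≤ t` -/
theorem F_step_one {N : ℕ → Ω → ℕ} (hN1 : ∀ j ω, N (j + 1) ω ≤ N j ω) (t : ℝ) (ht : 1 ≤ t)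
    (j : ℕ) : P.E (fun ω => t ^ N (j + 1) ω) ≤ P.E (fun ω => t ^ N j ω) :=
  P.mono _ _ fun ω => pow_le_pow_right₀ ht (hN1 j ω)

/-- Markov bound for the truncated exponential moments -/
theorem trunc_le (M : Ω → ℕ) (L b C : ℝ) (hL : 1 ≤ L) (hb : 1 ≤ b) (k : ℕ)
    (hC : P.E (fun ω => (b * L ^ k) ^ M ω) ≤ C) (m : ℕ) :
    P.E (fun ω => if m < M ω then L ^ (k * M ω) else 0) ≤ C * (b ^ m)⁻¹ := by
  have hL0 : (0 : ℝ) ≤ L := by linarith
  have hb0 : (0 : ℝ) < b := by linarith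
  have hbm : (0 : ℝ) < b ^ m := pow_pos hb0 m
  have h1 : ∀ ω, (if m < M ω then L ^ (k * M ω) else 0) ≤ (b ^ m)⁻¹ * (b * L ^ k) ^ M ω := by
    intro ω
    split_ifs with h
    · have e : (b * L ^ k) ^ M ω = b ^ M ω * L ^ (k * M ω) := by rw [mul_pow, pow_mul]
      rw [e]
      have h2 : b ^ m ≤ b ^ M ω := pow_le_pow_right₀ hb (by omega)
      have h3 : (0 : ℝ) ≤ L ^ (k * M ω) := pow_nonneg hL0 _
      have h4 : (b ^ m)⁻¹ * b ^ m = 1 := inv_mul_cancel₀ hbm.ne'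
      calc L ^ (k * M ω) = (b ^ m)⁻¹ * b ^ m * L ^ (k * M ω) := by rw [h4, one_mul]
        _ ≤ (b ^ m)⁻¹ * b ^ M ω * L ^ (k * M ω) :=
          mul_le_mul_of_nonneg_right (mul_le_mul_of_nonneg_left h2 (inv_nonneg.2 hbm.le)) h3
        _ = _ := by ring
    · positivity
  refine (P.mono _ _ h1).trans ?_
  rw [P.smul, mul_comm]
  exact mul_le_mul_of_nonneg_right hC (inv_nonneg.2 hbm.le)

end chain

/-- The data of the chain lemma: nested boxes around the vertices `v : κ`, numbers `N v j` of arcs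
over `v` in the box `B v j`, bounds `M v j` for the numbers of the arcs which are in `B v j` but not in
`B v (j + 1)`. -/
structure ChainData {Ω ι : Type*} (P : ExpSys Ω ι) (κ : Type*) where
  B : κ → ℕ → Set ι
  N : κ → ℕ → Ω → ℕ
  M : κ → ℕ → Ω → ℕ
  hB : ∀ v j, B v (j + 1) ⊆ B v j
  hdis : ∀ v v', v ≠ v' → Disjoint (B v 0) (B v' 0)
  hN : ∀ v j, P.Dep (B v j) (N v j)
  hM : ∀ v j, P.Dep (B v j \ B v (j + 2)) (M v j)
  hN1 : ∀ v j ω, N v (j + 1) ω ≤ N v j ω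
  hN2 : ∀ v j ω, N v j ω ≤ N v (j + 1) ω + M v j ω
  J : ℕ
  hJ : ∀ v j, J ≤ j → ∀ ω, N v j ω = 0

/-- `F v j = E[t ^ N v j]` -/
noncomputable def ChainData.F {Ω ι κ : Type*} {P : ExpSys Ω ι} (D : ChainData P κ) (v : κ)
    (t : ℝ) (j : ℕ) : ℝ := P.E (fun ω => t ^ D.N v j ω)

/-- uniform exponential moments of all the `M v j`, the weights are in `[0, T]`, and either `≥ t₀` or
comparison of scales is given -/
structure ChainData.Good {Ω ι κ : Type*} {P : ExpSys Ω ι} (D : ChainData P κ) (t : κ → ℝ)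
    (cM : ℝ → ℝ) (t₀ T A₀ : ℝ) : Prop where
  mom : ∀ L : ℝ, 1 ≤ L → ∀ v j, P.E (fun ω => L ^ D.M v j ω) ≤ cM L
  t_nonneg : ∀ v, 0 ≤ t v
  t_le : ∀ v, t v ≤ T
  scale : ∀ v, t₀ ≤ t v ∨ ∀ j, D.F v (t v) (j + 1) ≤ A₀ * D.F v (t v) j

/-- existence of the constants -/
theorem exists_consts (cM : ℝ → ℝ) (t₀ T A₀ : ℝ) (ht₀ : 0 < t₀) (ht₁ : t₀ ≤ 1) (hT : 1 ≤ T) :
    ∃ (m : ℕ) (d A : ℝ), 0 ≤ d ∧ 1 ≤ A ∧ A * d ≤ 1 / 2 ∧
      ∀ (Ω ι κ : Type) (P : ExpSys Ω ι) (D : ChainData P κ) (t : κ → ℝ),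
        D.Good t cM t₀ T A₀ →
        (∀ v j, P.E (fun ω => if m < D.M v j ω then T ^ (4 * D.M v j ω) else 0) ≤ d ^ 4) ∧
        ∀ v j, P.E (fun ω => t v ^ D.N v (j + 1) ω) ≤ A * P.E (fun ω => t v ^ D.N v j ω) := by
  -- the first truncation
  obtain ⟨m₁, hm₁⟩ : ∃ m₁ : ℕ, cM (2 / t₀) ≤ 2 ^ m₁ / 4 := by
    obtain ⟨n, hn⟩ := pow_unbounded_of_one_lt (4 * cM (2 / t₀)) (show (1 : ℝ) < 2 by norm_num)
    exact ⟨n, by linarith⟩
  set A : ℝ := max (2 * (t₀ ^ m₁)⁻¹) (max A₀ 1) with hA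
  have hA1 : 1 ≤ A := (le_max_right A₀ 1).trans (le_max_right _ _)
  have hA0 : 0 < A := by linarith
  set d : ℝ := (2 * A)⁻¹ with hd
  have hd0 : 0 < d := by positivity
  obtain ⟨m, hm⟩ : ∃ m : ℕ, cM (2 * T ^ 4) * ((2 : ℝ) ^ m)⁻¹ ≤ d ^ 4 := by
    obtain ⟨n, hn⟩ := pow_unbounded_of_one_lt (cM (2 * T ^ 4) / d ^ 4)
      (show (1 : ℝ) < 2 by norm_num)
    refine ⟨n, ?_⟩
    rw [div_lt_iff₀ (by positivity)] at hn
    rw [← div_eq_mul_inv, div_le_iff₀ (by positivity)]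
    linarith
  refine ⟨m, d, A, hd0.le, hA1, ?_, ?_⟩
  · rw [hd]
    field_simp
    exact le_rfl
  intro Ω ι κ P D t hG
  refine ⟨?_, ?_⟩
  · intro v j
    refine (trunc_le P (D.M v j) T 2 _ hT (by norm_num) 4 (hG.mom (2 * T ^ 4) ?_ v j) m).trans hm
    have : (1 : ℝ) ≤ T ^ 4 := one_le_pow₀ hT
    linarith
  · intro v j
    have hF0 : 0 ≤ P.E (fun ω => t v ^ D.N v j ω) :=
      P.E_nonneg fun ω => pow_nonneg (hG.t_nonneg v) _
    rcases hG.scale v with h | h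
    · rcases le_total (t v) 1 with h1 | h1
      · have htv : 0 < t v := lt_of_lt_of_le ht₀ h
        have hstep := F_step P (D.hB v) (D.hN v) (D.hM v) (D.hN1 v) (D.hN2 v) D.J (D.hJ v) (t v)
          htv h1 m₁ (fun j => by
            have e : (fun ω => if m₁ < D.M v j ω then (1 : ℝ) else 0) =
                fun ω => if m₁ < D.M v j ω then (1 : ℝ) ^ (0 * D.M v j ω) else 0 := by
              funext ω
              simp
            rw [e]
            have hb : (1 : ℝ) ≤ 2 / t₀ := by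
              rw [le_div_iff₀ ht₀]
              linarith
            refine (trunc_le P (D.M v j) 1 (2 / t₀) _ le_rfl hb 0 (by
              have := hG.mom (2 / t₀) hb v j
              simpa using this) m₁).trans ?_
            have h2 : t₀ ^ m₁ ≤ t v ^ m₁ := pow_le_pow_left₀ ht₀.le h m₁
            have e2 : ((2 / t₀) ^ m₁)⁻¹ = t₀ ^ m₁ / 2 ^ m₁ := by
              rw [div_pow, inv_div]
            rw [e2]
            have h3 : 0 < t₀ ^ m₁ := pow_pos ht₀ _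
            calc cM (2 / t₀) * (t₀ ^ m₁ / 2 ^ m₁) ≤ 2 ^ m₁ / 4 * (t₀ ^ m₁ / 2 ^ m₁) :=
                  mul_le_mul_of_nonneg_right hm₁ (by positivity)
              _ = t₀ ^ m₁ / 4 := by field_simp
              _ ≤ t v ^ m₁ / 4 := by linarith) j
        refine hstep.trans (mul_le_mul_of_nonneg_right ?_ hF0)
        refine le_trans ?_ (le_max_left _ _)
        have h2 : t₀ ^ m₁ ≤ t v ^ m₁ := pow_le_pow_left₀ ht₀.le h m₁
        have h3 : (t v ^ m₁)⁻¹ ≤ (t₀ ^ m₁)⁻¹ := inv_anti₀ (pow_pos ht₀ _) h2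
        linarith
      · refine (F_step_one P (D.hN1 v) (t v) h1 j).trans ?_
        exact le_mul_of_one_le_left hF0 hA1
    · refine (h j).trans (mul_le_mul_of_nonneg_right ?_ hF0)
      exact (le_max_left A₀ 1).trans (le_max_right _ _)

/-- WEIGHTED QUASI-MULTIPLICATIVITY, upper bound, uniform constants -/
theorem qm_upper (cM : ℝ → ℝ) (t₀ T A₀ : ℝ) (ht₀ : 0 < t₀) (ht₁ : t₀ ≤ 1) (hT : 1 ≤ T) :
    ∃ C : ℝ, 1 ≤ C ∧ ∀ (Ω ι κ : Type) (P : ExpSys Ω ι) (D : ChainData P κ) (t : κ → ℝ),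
      D.Good t cM t₀ T A₀ → ∀ (V : Finset κ) (Y : Ω → ℝ), (∀ ω, 0 ≤ Y ω) →
      (∀ v ∈ V, P.Dep (D.B v 1)ᶜ Y) →
      P.E (fun ω => (∏ v ∈ V, t v ^ D.N v 0 ω) * Y ω) ≤
        C ^ V.card * (∏ v ∈ V, D.F v (t v) 0) * Real.sqrt (P.E (fun ω => Y ω ^ 2)) := by
  obtain ⟨m, d, A, hd0, hA1, hAd, hmain⟩ := exists_consts cM t₀ T A₀ ht₀ ht₁ hT
  refine ⟨2 * A * T ^ m, ?_, ?_⟩
  · have : (1 : ℝ) ≤ T ^ m := one_le_pow₀ hT
    nlinarith
  intro Ω ι κ P D t hG V Y hY hYd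
  obtain ⟨h1, h2⟩ := hmain Ω ι κ P D t hG
  exact chain_upper P D.B D.N D.M t D.hB D.hdis D.hN D.hM D.hN1 D.hN2 D.J D.hJ hG.t_nonneg T hT
    hG.t_le m d hd0 h1 A (by linarith) h2 hAd V Y hY hYd

/-- WEIGHTED QUASI-MULTIPLICATIVITY, lower bound, uniform constants -/
theorem qm_lower (cM : ℝ → ℝ) (t₀ T A₀ cK g₀ w : ℝ) (nV : ℕ) (ht₀ : 0 < t₀) (ht₁ : t₀ ≤ 1)
    (hT : 1 ≤ T) (hg₀ : 0 < g₀) (hw0 : 0 < w) (hw1 : w ≤ 1) :
    ∃ c : ℝ, 0 < c ∧ ∀ (Ω ι κ : Type) (P : ExpSys Ω ι) (D : ChainData P κ) (t : κ → ℝ),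
      D.Good t cM t₀ T A₀ → ∀ (V : Finset κ), V.card ≤ nV → ∀ (K : Ω → ℕ) (g : Ω → ℝ) (S : Set ι),
      (∀ v ∈ V, P.Dep (D.B v 1)ᶜ K) → P.E (fun ω => 2 ^ K ω) ≤ cK →
      P.Dep S g → (∀ v ∈ V, Disjoint S (D.B v 0)) → (∀ ω, 0 ≤ g ω) → (∀ ω, g ω ≤ 1) →
      g₀ ≤ P.E g →
      c * ∏ v ∈ V, D.F v (t v) 0 ≤
        P.E (fun ω => (∏ v ∈ V, t v ^ D.N v 0 ω) * (w ^ K ω * g ω)) := by
  obtain ⟨m, d, A, hd0, hA1, hAd, hmain⟩ := exists_consts cM t₀ T A₀ ht₀ ht₁ hT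
  set C : ℝ := 2 * A * T ^ m with hC
  have hC1 : 1 ≤ C := by
    have : (1 : ℝ) ≤ T ^ m := one_le_pow₀ hT
    nlinarith
  obtain ⟨n, hn⟩ : ∃ n : ℕ, C ^ nV * Real.sqrt (cK * ((2 : ℝ) ^ n)⁻¹) ≤ g₀ / 2 := by
    have hCn : 0 < C ^ nV := by positivity
    obtain ⟨n, hn⟩ := pow_unbounded_of_one_lt (cK / (g₀ / 2 / C ^ nV) ^ 2)
      (show (1 : ℝ) < 2 by norm_num)
    refine ⟨n, ?_⟩
    have h1 : cK * ((2 : ℝ) ^ n)⁻¹ ≤ (g₀ / 2 / C ^ nV) ^ 2 := by
      rw [div_lt_iff₀ (by positivity)] at hn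
      rw [← div_eq_mul_inv, div_le_iff₀ (by positivity)]
      linarith
    have h2 : Real.sqrt (cK * ((2 : ℝ) ^ n)⁻¹) ≤ g₀ / 2 / C ^ nV :=
      Real.sqrt_le_iff.2 ⟨by positivity, h1⟩
    calc C ^ nV * Real.sqrt (cK * ((2 : ℝ) ^ n)⁻¹) ≤ C ^ nV * (g₀ / 2 / C ^ nV) :=
          mul_le_mul_of_nonneg_left h2 hCn.le
      _ = g₀ / 2 := by field_simp
  refine ⟨w ^ n * (g₀ / 2), by positivity, ?_⟩
  intro Ω ι κ P D t hG V hV K g S hK hcK hgd hS hg0 hg1 hgE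
  obtain ⟨h1, h2⟩ := hmain Ω ι κ P D t hG
  have h3 := chain_lower P D.B D.N D.M t D.hB D.hdis D.hN D.hM D.hN1 D.hN2 D.J D.hJ hG.t_nonneg T
    hT hG.t_le m d hd0 h1 A (by linarith) h2 hAd V K hK g S hgd hS hg0 hg1 w hw0.le hw1 n
  refine le_trans ?_ h3
  have hF : 0 ≤ ∏ v ∈ V, P.E (fun ω => t v ^ D.N v 0 ω) := Finset.prod_nonneg fun v _ =>
    P.E_nonneg fun ω => pow_nonneg (hG.t_nonneg v) _
  have h4 : P.E (fun ω => if n < K ω then (1 : ℝ) else 0) ≤ cK * ((2 : ℝ) ^ n)⁻¹ := by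
    have h5 := trunc_le P K 1 2 cK le_rfl (by norm_num) 0 (by simpa using hcK) n
    simpa using h5
  have h5 : C ^ V.card * Real.sqrt (P.E (fun ω => if n < K ω then (1 : ℝ) else 0)) ≤ g₀ / 2 := by
    refine le_trans ?_ hn
    exact mul_le_mul (pow_le_pow_right₀ hC1 hV) (Real.sqrt_le_sqrt h4) (Real.sqrt_nonneg _)
      (by positivity)
  have h6 : g₀ / 2 ≤ P.E g - C ^ V.card *
      Real.sqrt (P.E (fun ω => if n < K ω then (1 : ℝ) else 0)) := by linarith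
  calc w ^ n * (g₀ / 2) * ∏ v ∈ V, D.F v (t v) 0
      = w ^ n * ((∏ v ∈ V, P.E (fun ω => t v ^ D.N v 0 ω)) * (g₀ / 2)) := by
        unfold ChainData.F
        ring
    _ ≤ _ := mul_le_mul_of_nonneg_left (mul_le_mul_of_nonneg_left h6 hF) (pow_nonneg hw0.le _)

end Pool.Agent.SixB
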