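import Pool.Agent.Lib.SixB.S3Defs
import Pool.Agent.Lib.SixB.S3Large
import Pool.Agent.Lib.SixB.S6LHeavy

/-!
# 6BD, step 3: functions of a planar chart

`c : PChart Q F R`. `inj_F`: the faces of `R` are mapped injectively; `dep_pull`, `av_pull`: dependence and average
of `ω ↦ g (ω ∘ c.φF)` for a function `g` of the planar faces of `S ⊆ R`.
`nf_pull`, `lt_pull`, `bt_pull`: all exponential moments of the numbers of strands of a planar set of faces which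
cross an annulus or a rectangle, in a chart.
-/

set_option autoImplicit false
set_option linter.unusedSectionVars false

namespace Pool.Agent.SixB.Pull

open Finset Pool.Agent.Perc.Q Pool.Agent.Perc Pool.Agent.PercD Pool.Agent.PercN Pool.Agent.SixB

noncomputable section

variable {V Φ : Type} [DecidableEq V] [DecidableEq Φ] {Q : QC V Φ} {F : Finset Φ}
  {R S : Finset (ℤ × ℤ)}

theorem inj_F (c : PChart Q F R) : Set.InjOn c.φF (R : Set (ℤ × ℤ)) := by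
  intro f hf g hg h
  have h1 := c.cor f (mem_coe.1 hf) 0
  have h2 := c.cor g (mem_coe.1 hg) 0
  rw [h] at h1
  have h3 := c.inj f (mem_coe.1 hf) g (mem_coe.1 hg) 0 0 (by rw [← h1, ← h2])
  have e : ∀ x : ℤ × ℤ, ZQ.c x 0 = (x.1, x.2) := fun x => rfl
  rw [e, e] at h3
  exact Prod.ext (congrArg Prod.fst h3) (congrArg Prod.snd h3)

/-- Dependence in a chart. -/
theorem dep_pull {α : Type} (c : PChart Q F R) {g : (ℤ × ℤ → Bool) → α}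
    (hg : Dep (S : Set (ℤ × ℤ)) g) :
    Dep ((S.image c.φF : Finset Φ) : Set Φ) (fun ω => g (fun f => ω (c.φF f))) := by
  intro ω ω' h
  exact hg _ _ fun f hf => h _ (mem_coe.2 (mem_image_of_mem _ (mem_coe.1 hf)))

/-- Averages in a chart. -/
theorem av_pull (c : PChart Q F R) (hS : S ⊆ R) {g : (ℤ × ℤ → Bool) → ℝ}
    (hg : Dep (S : Set (ℤ × ℤ)) g) :
    av F (fun ω => g (fun f => ω (c.φF f))) = av S g := by
  have hsub : S.image c.φF ⊆ F := by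
    intro f hf
    obtain ⟨x, hx, rfl⟩ := mem_image.1 hf
    exact c.sub x (hS hx)
  rw [av_dep (dep_pull c hg) hsub]
  exact av_map (φ := c.φF) ((inj_F c).mono (by exact_mod_cast hS)) rfl hg fun ω => rfl

/-- Dependence off a set of faces of the chart, the other faces. -/
theorem dep_pull_set {α : Type} (c : PChart Q F R) {A : Set (ℤ × ℤ)} {g : (ℤ × ℤ → Bool) → α}
    (hg : Dep A g) : Dep (c.φF '' A) (fun ω => g (fun f => ω (c.φF f))) := by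
  intro ω ω' h
  exact hg _ _ fun f hf => h _ ⟨f, hf, rfl⟩

/-- A function of a planar counting function: from the sums of `S3Large` to `av`. -/
theorem av_of_sum {N : Cfg → ℕ} {S W : Finset (ℤ × ℤ)} (hN : Dep (S : Set (ℤ × ℤ)) N) (hSW : S ⊆ W)
    {L C : ℝ} (h : (∑ T ∈ W.powerset, L ^ N (cfg T)) / 2 ^ W.card ≤ C) :
    av S (fun ω => L ^ N ω) ≤ C := by
  have hd : Dep (S : Set (ℤ × ℤ)) (fun ω : Cfg => L ^ N ω) := fun ω ω' hω => by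
    simp only [hN ω ω' hω]
  rw [← av_dep hd hSW]
  exact h

theorem dep_NF (G : Set (ℤ × ℤ)) (v : ℤ × ℤ) (r r' : ℤ) :
    Dep (G ∩ (An v r r' : Set (ℤ × ℤ))) (NF G v r r') := by
  classical
  intro ω ω' h
  unfold NF
  congr 1
  ext b
  rw [mem_filter, mem_filter, MM_congr' (ω := ω) (ω' := ω') (F := G ∩ (An v r r' : Set (ℤ × ℤ))) h]

/-- **Crossings of an annulus** in a chart, any planar set of faces `G` whose part in the annulus is charted. -/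
theorem nf_pull (k : ℕ) : ∃ cN : ℝ → ℝ, ∀ L : ℝ, 1 ≤ L → ∀ {V Φ : Type} [DecidableEq V]
    [DecidableEq Φ] {Q : QC V Φ} {F : Finset Φ} {R : Finset (ℤ × ℤ)} (c : PChart Q F R)
    (G : Set (ℤ × ℤ)) (v : ℤ × ℤ) (r r' : ℤ), 0 < r → r < r' → r ≤ k * (r' - r) →
    (∀ f ∈ G, f ∈ An v r r' → f ∈ R) →
    av F (fun ω => L ^ NF G v r r' (fun f => ω (c.φF f))) ≤ cN L := by
  classical
  have H : ∀ L : ℝ, ∃ C : ℝ, 1 ≤ L → ∀ (G : Set (ℤ × ℤ)) (v : ℤ × ℤ) (r r' : ℤ)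
      (W : Finset (ℤ × ℤ)), 0 < r → r < r' → r ≤ k * (r' - r) → BR v r' ⊆ W →
      (∑ T ∈ W.powerset, L ^ NF G v r r' (cfg T)) / 2 ^ W.card ≤ C := by
    intro L
    by_cases hL : 1 ≤ L
    · obtain ⟨C, -, h⟩ := NF_moment k hL
      exact ⟨C, fun _ => h⟩
    · exact ⟨0, fun h => absurd h hL⟩
  choose cN hcN using H
  refine ⟨cN, ?_⟩
  intro L hL V Φ _ _ Q F R c G v r r' hr hr' hk hG
  set S : Finset (ℤ × ℤ) := R.filter fun f => f ∈ G ∧ f ∈ An v r r' with hS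
  have hcoe : (S : Set (ℤ × ℤ)) = G ∩ (An v r r' : Set (ℤ × ℤ)) := by
    ext f
    rw [hS, mem_coe, mem_filter, Set.mem_inter_iff, mem_coe]
    exact ⟨fun h => h.2, fun h => ⟨hG f h.1 h.2, h⟩⟩
  have hd : Dep (S : Set (ℤ × ℤ)) (NF G v r r') := by
    rw [hcoe]
    exact dep_NF G v r r'
  have hd' : Dep (S : Set (ℤ × ℤ)) (fun ω : Cfg => L ^ NF G v r r' ω) := fun ω ω' hω => by
    simp only [hd ω ω' hω]
  rw [av_pull c (filter_subset _ _) hd']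
  refine av_of_sum hd (W := BR v r') ?_ (hcN L hL G v r r' (BR v r') hr hr' hk (Subset.refl _))
  intro f hf
  rw [hS, mem_filter] at hf
  exact (mem_An.1 hf.2.2).1

/-- **Crossings of a rectangle** from left to right in a chart. -/
theorem lt_pull (k : ℕ) : ∃ cN : ℝ → ℝ, ∀ L : ℝ, 1 ≤ L → ∀ {V Φ : Type} [DecidableEq V]
    [DecidableEq Φ] {Q : QC V Φ} {F : Finset Φ} {R : Finset (ℤ × ℤ)} (c : PChart Q F R)
    (x₀ x₁ y₀ y₁ : ℤ), x₀ < x₁ → y₁ - y₀ ≤ k * (x₁ - x₀) → RF x₀ x₁ y₀ y₁ ⊆ R →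
    av F (fun ω => L ^ (LT (fun f => ω (c.φF f)) x₀ x₁ y₀ y₁).card) ≤ cN L := by
  classical
  have H : ∀ L : ℝ, ∃ C : ℝ, 1 ≤ L → ∀ (x₀ x₁ y₀ y₁ : ℤ) (W : Finset (ℤ × ℤ)), x₀ < x₁ →
      y₁ - y₀ ≤ k * (x₁ - x₀) → RF x₀ x₁ y₀ y₁ ⊆ W →
      (∑ T ∈ W.powerset, L ^ (LT (cfg T) x₀ x₁ y₀ y₁).card) / 2 ^ W.card ≤ C := by
    intro L
    by_cases hL : 1 ≤ L
    · obtain ⟨C, -, h⟩ := LT_moment k hL
      exact ⟨C, fun _ => h⟩
    · exact ⟨0, fun h => absurd h hL⟩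
  choose cN hcN using H
  refine ⟨cN, ?_⟩
  intro L hL V Φ _ _ Q F R c x₀ x₁ y₀ y₁ h0 hk hR
  have hd : Dep (RF x₀ x₁ y₀ y₁ : Set (ℤ × ℤ)) (fun ω : Cfg => (LT ω x₀ x₁ y₀ y₁).card) :=
    depN_LT x₀ x₁ y₀ y₁
  have hd' : Dep (RF x₀ x₁ y₀ y₁ : Set (ℤ × ℤ)) (fun ω : Cfg => L ^ (LT ω x₀ x₁ y₀ y₁).card) :=
    fun ω ω' hω => by
      have := hd ω ω' hω
      simp only at this
      simp only [this]
  rw [av_pull c hR hd']
  exact av_of_sum hd (Subset.refl _) (hcN L hL x₀ x₁ y₀ y₁ _ h0 hk (Subset.refl _))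

/-- **Crossings of a rectangle** from bottom to top in a chart. -/
theorem bt_pull (k : ℕ) : ∃ cN : ℝ → ℝ, ∀ L : ℝ, 1 ≤ L → ∀ {V Φ : Type} [DecidableEq V]
    [DecidableEq Φ] {Q : QC V Φ} {F : Finset Φ} {R : Finset (ℤ × ℤ)} (c : PChart Q F R)
    (x₀ x₁ y₀ y₁ : ℤ), y₀ < y₁ → x₁ - x₀ ≤ k * (y₁ - y₀) → RF x₀ x₁ y₀ y₁ ⊆ R →
    av F (fun ω => L ^ BT (fun f => ω (c.φF f)) x₀ x₁ y₀ y₁) ≤ cN L := by
  classical
  have H : ∀ L : ℝ, ∃ C : ℝ, 1 ≤ L → ∀ (x₀ x₁ y₀ y₁ : ℤ) (W : Finset (ℤ × ℤ)), y₀ < y₁ →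
      x₁ - x₀ ≤ k * (y₁ - y₀) → RF x₀ x₁ y₀ y₁ ⊆ W →
      (∑ T ∈ W.powerset, L ^ BT (cfg T) x₀ x₁ y₀ y₁) / 2 ^ W.card ≤ C := by
    intro L
    by_cases hL : 1 ≤ L
    · obtain ⟨C, -, h⟩ := BT_moment k hL
      exact ⟨C, fun _ => h⟩
    · exact ⟨0, fun h => absurd h hL⟩
  choose cN hcN using H
  refine ⟨cN, ?_⟩
  intro L hL V Φ _ _ Q F R c x₀ x₁ y₀ y₁ h0 hk hR
  have hd : Dep (RF x₀ x₁ y₀ y₁ : Set (ℤ × ℤ)) (fun ω : Cfg => BT ω x₀ x₁ y₀ y₁) :=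
    depN_BT x₀ x₁ y₀ y₁
  have hd' : Dep (RF x₀ x₁ y₀ y₁ : Set (ℤ × ℤ)) (fun ω : Cfg => L ^ BT ω x₀ x₁ y₀ y₁) :=
    fun ω ω' hω => by
      have := hd ω ω' hω
      simp only at this
      simp only [this]
  rw [av_pull c hR hd']
  exact av_of_sum hd (Subset.refl _) (hcN L hL x₀ x₁ y₀ y₁ _ h0 hk (Subset.refl _))

end

end Pool.Agent.SixB.Pull
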