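import Pool.Agent.Lib.SixB.S3KindS
import Pool.Agent.Lib.SixB.S3Pull
import Pool.Agent.Lib.SixB.S3Chain

/-!
# 6BD, step 3, row R2 = R1b: the chain data of special vertices

`KCh Q F κ`: charts `WChart` around special vertices of the kinds `SK`, chain radius `r`, disjoint boxes.
* `KCh.chain : ChainData (LH.avSys F) κ`: `B i j = (ch i).box (r / 2 ^ j)`,
  `N i j ω = sN (K i) (m i) (o i) (v i) (r / 2 ^ j) (ω ∘ φF)`; `KCh.F_eq : chain.F i (sT (K i)) j = sF (K i) (m i) (r / 2 ^ j)`.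
* `KCh.good`: one function `cM` and one `A₀` for all surfaces.
* `Atlas.kch`, `Atlas.chain` (chain radius `4 r`), `Atlas.chain_F`, `Atlas.good`.
-/

set_option autoImplicit false
set_option linter.unusedSimpArgs false

namespace Pool.Agent.SixB

open Pool.Agent.Perc Pool.Agent.Perc.Q Finset

noncomputable section

variable {V Φ : Type} [DecidableEq V] [DecidableEq Φ]

/-- Charts around special vertices. -/
structure KCh (Q : QC V Φ) (F : Finset Φ) (κ : Type) where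
  K : κ → SK
  m : κ → ℕ
  o : κ → ZMod 4
  v : κ → ℤ × ℤ
  R : κ → ℕ
  r : ℕ
  ch : ∀ i, WChart Q F (m i) (o i) (v i) (R i)
  hR : ∀ i, r ≤ R i
  hm : ∀ i, 1 ≤ m i ∧ m i ≤ 3
  disj : ∀ i j, i ≠ j → Disjoint ((ch i).box r) ((ch j).box r)

namespace KCh

variable {Q : QC V Φ} {F : Finset Φ} {κ : Type} (C : KCh Q F κ)

/-- the configuration in the chart -/
def cf (i : κ) (ω : Φ → Bool) : ℤ × ℤ → Bool := fun f => ω ((C.ch i).φF f)

/-- the configuration in the standard position -/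
def cs (i : κ) (ω : Φ → Bool) : ℤ × ℤ → Bool := (Kd.mo (C.o i) (C.v i)).inv.cf (C.cf i ω)

/-- the counts -/
def N (i : κ) (j : ℕ) (ω : Φ → Bool) : ℕ := sN (C.K i) (C.m i) (C.o i) (C.v i) (C.r / 2 ^ j) (C.cf i ω)

/-- the increments -/
def M (i : κ) (j : ℕ) (ω : Φ → Bool) : ℕ := Kd.sM (C.K i) (C.m i) C.r j (C.cs i ω)

theorem le_R (i : κ) (j : ℕ) : C.r / 2 ^ j ≤ C.R i := (Nat.div_le_self _ _).trans (C.hR i)

theorem wdg_sub (i : κ) (j : ℕ) :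
    Wdg (C.m i) (C.o i) (C.v i) (C.r / 2 ^ j) ⊆ Wdg (C.m i) (C.o i) (C.v i) (C.R i) :=
  Kd.Wdg_mono (C.le_R i j)

theorem div_anti {r i j : ℕ} (h : i ≤ j) : r / 2 ^ j ≤ r / 2 ^ i :=
  Nat.div_le_div_left (Nat.pow_le_pow_right (by norm_num) h) (by positivity)

theorem N_std (i : κ) (j : ℕ) (ω : Φ → Bool) :
    C.N i j ω = sN (C.K i) (C.m i) 0 (0, 0) (C.r / 2 ^ j) (C.cs i ω) := by
  unfold N cs
  rw [← Kd.sN_mw (Kd.mo_mw (m := C.m i) (o := C.o i) (v := C.v i)), Mot.cf_inv]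

theorem box_sub (i : κ) (j : ℕ) : (C.ch i).box (C.r / 2 ^ j) ⊆ F := by
  intro f hf
  unfold WChart.box at hf
  obtain ⟨g, hg, rfl⟩ := mem_image.1 hf
  exact (C.ch i).sub g (C.wdg_sub i j hg)

theorem box_anti (i : κ) {j k : ℕ} (h : j ≤ k) :
    (C.ch i).box (C.r / 2 ^ k) ⊆ (C.ch i).box (C.r / 2 ^ j) :=
  image_subset_image (Kd.Wdg_mono (div_anti h))

theorem dep_N (i : κ) (j : ℕ) : Dep ((C.ch i).box (C.r / 2 ^ j) : Set Φ) (C.N i j) :=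
  Pull.dep_pull (C.ch i).toPChart (Kd.dep_sN (C.K i) (C.m i) (C.o i) (C.v i) (C.r / 2 ^ j))

theorem dep_M (i : κ) (j : ℕ) : Dep (((C.ch i).box (C.r / 2 ^ j) : Set Φ) \
    ((C.ch i).box (C.r / 2 ^ (j + 2)) : Set Φ)) (C.M i j) := by
  intro ω ω' h
  have hM := Kd.mo_mw (m := C.m i) (o := C.o i) (v := C.v i)
  refine Kd.dep_sM (C.K i) (C.hm i).1 (C.hm i).2 C.r j _ _ ?_
  rintro g ⟨hg, hg'⟩
  show (C.cf i ω ((Kd.mo (C.o i) (C.v i)).ψ g) == _) = (C.cf i ω' ((Kd.mo (C.o i) (C.v i)).ψ g) == _)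
  have h1 : (Kd.mo (C.o i) (C.v i)).ψ g ∈ Wdg (C.m i) (C.o i) (C.v i) (C.r / 2 ^ j) := by
    rw [← hM.im, Mot.psi_mem]
    exact mem_coe.1 hg
  have h2 : (Kd.mo (C.o i) (C.v i)).ψ g ∉ Wdg (C.m i) (C.o i) (C.v i) (C.r / 2 ^ (j + 2)) := by
    rw [← hM.im, Mot.psi_mem]
    exact fun hc => hg' (mem_coe.2 hc)
  have h3 : C.cf i ω ((Kd.mo (C.o i) (C.v i)).ψ g) = C.cf i ω' ((Kd.mo (C.o i) (C.v i)).ψ g) := by
    refine h _ ⟨?_, fun hc => h2 ?_⟩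
    · rw [mem_coe]
      exact mem_image_of_mem _ h1
    · rw [mem_coe] at hc
      obtain ⟨x, hx, hxe⟩ := mem_image.1 hc
      have := Pull.inj_F (C.ch i).toPChart (mem_coe.2 (C.wdg_sub i (j + 2) hx))
        (mem_coe.2 (C.wdg_sub i j h1)) hxe
      rw [← this]
      exact hx
  rw [h3]

/-- **The chain data.** -/
def chain : ChainData (LH.avSys F) κ where
  B i j := (C.ch i).box (C.r / 2 ^ j)
  N := C.N
  M := C.M
  hB i j := by exact_mod_cast C.box_anti i (Nat.le_succ j)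
  hdis i i' h := by
    have := C.disj i i' h
    rw [pow_zero, Nat.div_one]
    exact_mod_cast this
  hN i j := C.dep_N i j
  hM i j := C.dep_M i j
  hN1 i j ω := Kd.sN_mono (C.K i) (C.hm i).1 (C.hm i).2 (div_anti (Nat.le_succ j)) _
  hN2 i j ω := by
    rw [C.N_std, C.N_std]
    exact Kd.sN_le (C.K i) (C.hm i).1 (C.hm i).2 C.r j _
  J := C.r
  hJ i j h ω := by
    have h1 : C.r / 2 ^ j = 0 := Nat.div_eq_of_lt (lt_of_lt_of_le Nat.lt_two_pow_self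
      (Nat.pow_le_pow_right (by norm_num) h))
    show sN _ _ _ _ (C.r / 2 ^ j) _ = 0
    rw [h1, Kd.sN_zero]

theorem chain_B (i : κ) (j : ℕ) : C.chain.B i j = ((C.ch i).box (C.r / 2 ^ j) : Set Φ) := rfl

theorem chain_N (i : κ) (j : ℕ) (ω : Φ → Bool) : C.chain.N i j ω =
    sN (C.K i) (C.m i) (C.o i) (C.v i) (C.r / 2 ^ j) (fun f => ω ((C.ch i).φF f)) := rfl

/-- The law of the counts. -/
theorem av_N (g : ℕ → ℝ) (i : κ) (j : ℕ) : av F (fun ω => g (C.N i j ω)) =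
    av (Wdg (C.m i) 0 (0, 0) (C.r / 2 ^ j)) fun ω => g (sN (C.K i) (C.m i) 0 (0, 0) (C.r / 2 ^ j) ω) := by
  have h := Pull.av_pull (C.ch i).toPChart (C.wdg_sub i j)
    (g := fun ω => g (sN (C.K i) (C.m i) (C.o i) (C.v i) (C.r / 2 ^ j) ω)) (fun ω ω' hω => by
      simp only [Kd.dep_sN (C.K i) (C.m i) (C.o i) (C.v i) (C.r / 2 ^ j) ω ω' hω])
  refine Eq.trans ?_ (h.trans (Kd.av_sN g (C.K i) (C.m i) (C.o i) (C.v i) (C.r / 2 ^ j)))
  rfl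

theorem F_eq (i : κ) (j : ℕ) :
    C.chain.F i (sT (C.K i)) j = sF (C.K i) (C.m i) (C.r / 2 ^ j) :=
  C.av_N (fun n => sT (C.K i) ^ n) i j

/-- The moments of the increments. -/
theorem moment : ∃ cM : ℝ → ℝ, ∀ L : ℝ, 1 ≤ L → ∀ {V Φ : Type} [DecidableEq V] [DecidableEq Φ]
    {Q : QC V Φ} {F : Finset Φ} {κ : Type} (C : KCh Q F κ) (i : κ) (j : ℕ),
    av F (fun ω => L ^ C.M i j ω) ≤ cM L := by
  obtain ⟨cM, h⟩ := Kd.sM_moment
  refine ⟨cM, ?_⟩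
  intro L hL V Φ _ _ Q F κ C i j
  have hM := Kd.mo_mw (m := C.m i) (o := C.o i) (v := C.v i)
  set M := Kd.mo (C.o i) (C.v i) with hMd
  have hd : Dep (Wdg (C.m i) 0 (0, 0) (C.r / 2 ^ j) : Set (ℤ × ℤ))
      (fun ω => L ^ Kd.sM (C.K i) (C.m i) C.r j ω) := by
    have h1 := (Kd.dep_sM (C.K i) (C.hm i).1 (C.hm i).2 C.r j).mono (Set.sdiff_subset : _ ⊆
      (Wdg (C.m i) 0 (0, 0) (C.r / 2 ^ j) : Set (ℤ × ℤ)))
    intro ω ω' hω
    simp only [h1 ω ω' hω]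
  have hd2 : Dep (Wdg (C.m i) (C.o i) (C.v i) (C.r / 2 ^ j) : Set (ℤ × ℤ))
      (fun ω => L ^ Kd.sM (C.K i) (C.m i) C.r j (M.inv.cf ω)) := by
    intro ω ω' hω
    refine hd _ _ fun g hg => ?_
    show (ω (M.ψ g) == _) = (ω' (M.ψ g) == _)
    rw [hω (M.ψ g) ?_]
    rw [← hM.im, mem_coe, Mot.psi_mem]
    exact mem_coe.1 hg
  have e1 : av F (fun ω => L ^ C.M i j ω) = av (Wdg (C.m i) (C.o i) (C.v i) (C.r / 2 ^ j))
      (fun ω => L ^ Kd.sM (C.K i) (C.m i) C.r j (M.inv.cf ω)) :=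
    Pull.av_pull (C.ch i).toPChart (C.wdg_sub i j) hd2
  have e2 : av (Wdg (C.m i) (C.o i) (C.v i) (C.r / 2 ^ j))
      (fun ω => L ^ Kd.sM (C.K i) (C.m i) C.r j (M.inv.cf ω)) =
      av (Wdg (C.m i) 0 (0, 0) (C.r / 2 ^ j)) (fun ω => L ^ Kd.sM (C.K i) (C.m i) C.r j ω) := by
    rw [← hM.im]
    refine M.av_move hd fun ω => ?_
    rw [Mot.inv_cf]
  rw [e1, e2]
  exact h L hL _ _ _ j (C.hm i).1 (C.hm i).2 _ (Finset.Subset.refl _)

end KCh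

theorem sT_le (K : SK) : sT K ≤ 2 / Real.sqrt 3 := by
  cases K with
  | ver J => exact (le_abs_self _).trans (abs_tJ_le J)
  | e => exact div_nonneg (by norm_num) (Real.sqrt_nonneg _)
  | em => exact div_nonneg (by norm_num) (Real.sqrt_nonneg _)

/-- **One function `cM` and one constant `A₀` for all surfaces.** -/
theorem KCh.good : ∃ (cM : ℝ → ℝ) (A₀ : ℝ), 1 ≤ A₀ ∧ ∀ {V Φ : Type} [DecidableEq V] [DecidableEq Φ]
    {Q : QC V Φ} {F : Finset Φ} {κ : Type} (C : KCh Q F κ) (t₀ : ℝ), 0 ≤ t₀ →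
    (∀ i, t₀ ≤ sT (C.K i) ∨ (sT (C.K i) = 0 ∧ C.m i = 2)) →
    C.chain.Good (fun i => sT (C.K i)) cM t₀ (2 / Real.sqrt 3) A₀ := by
  obtain ⟨cM, hM⟩ := KCh.moment
  obtain ⟨A₀, hA, hs⟩ := Kd.sF_scale
  refine ⟨cM, A₀, hA, ?_⟩
  intro V Φ _ _ Q F κ C t₀ ht₀ ht
  refine ⟨fun L hL i j => hM L hL C i j, fun i => ?_, fun i => sT_le _, fun i => ?_⟩
  · rcases ht i with h | ⟨h, -⟩
    · exact ht₀.trans h
    · exact h.symm.le
  · rcases ht i with h | ⟨h, h2⟩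
    · exact Or.inl h
    · refine Or.inr fun j => ?_
      rw [C.F_eq, C.F_eq, h2, pow_succ, ← Nat.div_div_eq_div_mul]
      exact hs _ h _

/-! ## Atlases -/

namespace Atlas

variable {Q : QC V Φ} {F : Finset Φ} {ψ : V × V → ℝ} {Z : Finset (V × V)} {r nS nN : ℕ} {t₀ : ℝ}

/-- the special charts of an atlas, chain radius `4 r` -/
def kch (A : Atlas Q F ψ Z r nS nN t₀) : KCh Q F A.κ where
  K := A.K
  m := A.m
  o := A.o
  v := A.v
  R := fun _ => 4 * r + 1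
  r := 4 * r
  ch := A.ch
  hR := fun _ => Nat.le_succ _
  hm := A.m_rng
  disj := A.disj

/-- the chain data of an atlas -/
def chain (A : Atlas Q F ψ Z r nS nN t₀) : ChainData (LH.avSys F) A.κ := A.kch.chain

theorem chain_B (A : Atlas Q F ψ Z r nS nN t₀) (i : A.κ) (j : ℕ) :
    A.chain.B i j = ((A.ch i).box (4 * r / 2 ^ j) : Set Φ) := rfl

theorem chain_N (A : Atlas Q F ψ Z r nS nN t₀) (i : A.κ) (j : ℕ) (ω : Φ → Bool) :
    A.chain.N i j ω =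
      sN (A.K i) (A.m i) (A.o i) (A.v i) (4 * r / 2 ^ j) (fun f => ω ((A.ch i).φF f)) := rfl

theorem chain_N0 (A : Atlas Q F ψ Z r nS nN t₀) (i : A.κ) (ω : Φ → Bool) :
    A.chain.N i 0 ω = sN (A.K i) (A.m i) (A.o i) (A.v i) (4 * r) (fun f => ω ((A.ch i).φF f)) := by
  rw [chain_N, pow_zero, Nat.div_one]

theorem chain_N2 (A : Atlas Q F ψ Z r nS nN t₀) (i : A.κ) (ω : Φ → Bool) :
    A.chain.N i 2 ω = sN (A.K i) (A.m i) (A.o i) (A.v i) r (fun f => ω ((A.ch i).φF f)) := by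
  rw [chain_N, show 4 * r / 2 ^ 2 = r by omega]

theorem chain_B0 (A : Atlas Q F ψ Z r nS nN t₀) (i : A.κ) :
    A.chain.B i 0 = ((A.ch i).box (4 * r) : Set Φ) := by
  rw [chain_B, pow_zero, Nat.div_one]

theorem chain_B1 (A : Atlas Q F ψ Z r nS nN t₀) (i : A.κ) :
    A.chain.B i 1 = ((A.ch i).box (2 * r) : Set Φ) := by
  rw [chain_B, show 4 * r / 2 ^ 1 = 2 * r by omega]

theorem chain_B2 (A : Atlas Q F ψ Z r nS nN t₀) (i : A.κ) :
    A.chain.B i 2 = ((A.ch i).box r : Set Φ) := by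
  rw [chain_B, show 4 * r / 2 ^ 2 = r by omega]

theorem chain_F (A : Atlas Q F ψ Z r nS nN t₀) (i : A.κ) (j : ℕ) :
    A.chain.F i (sT (A.K i)) j = sF (A.K i) (A.m i) (4 * r / 2 ^ j) := A.kch.F_eq i j

theorem chain_F2 (A : Atlas Q F ψ Z r nS nN t₀) (i : A.κ) :
    A.chain.F i (sT (A.K i)) 2 = sF (A.K i) (A.m i) r := by
  rw [chain_F, show 4 * r / 2 ^ 2 = r by omega]

theorem tJ_neg : tJ (-(Real.pi / 3)) = 0 := by
  have := tJ_neg_third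
  simpa using this

/-- the weights of the special vertices -/
theorem weights (A : Atlas Q F ψ Z r nS nN t₀) (i : A.κ) :
    t₀ ≤ sT (A.K i) ∨ (sT (A.K i) = 0 ∧ A.m i = 2) := by
  have hj := A.jmp i
  rcases hK : A.K i with J | _ | _
  · rcases A.tpos i J hK with h | ⟨h, h2⟩
    · exact Or.inl h
    · refine Or.inr ⟨?_, h2⟩
      show tJ J = 0
      rw [h, tJ_neg]
  · rw [hK] at hj
    exact Or.inr ⟨rfl, hj.1⟩
  · rw [hK] at hj
    exact Or.inr ⟨rfl, hj.1⟩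

end Atlas

/-- **The chain data of all atlases are good**, one `cM` and one `A₀`. -/
theorem Atlas.good : ∃ (cM : ℝ → ℝ) (A₀ : ℝ), 1 ≤ A₀ ∧ ∀ {V Φ : Type} [DecidableEq V]
    [DecidableEq Φ] {Q : QC V Φ} {F : Finset Φ} {ψ : V × V → ℝ} {Z : Finset (V × V)} {r nS nN : ℕ}
    {t₀ : ℝ} (A : Atlas Q F ψ Z r nS nN t₀), 0 ≤ t₀ →
    A.chain.Good (fun i => sT (A.K i)) cM t₀ (2 / Real.sqrt 3) A₀ := by
  obtain ⟨cM, A₀, hA, h⟩ := KCh.good
  refine ⟨cM, A₀, hA, ?_⟩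
  intro V Φ _ _ Q F ψ Z r nS nN t₀ A ht
  exact h A.kch t₀ ht A.weights

end

end Pool.Agent.SixB
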