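import Pool.Agent.Lib.SixB.S3BlkB
import Pool.Agent.Lib.SixB.S3KindC

/-!
# 6BD, step 3, row R5: own factors of the special charts of weight zero against the blocking event

`AtlZ.cor`: the product of the indicators `0 ^ N v 0` (special charts with `sT = 0`, kinds `ver (-π / 3)` and `em`)
and the blocking event `Bk.AtBlk A D` are positively correlated up to a constant: the hypothesis `hcor` of
`AU.low_pos` for an atlas. A special chart of the kind `ver` has the colour which `D` has not (`AtlZ.Own`); a chart of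
the kind `em` can have any colour: the arm of one of the two ends of its marked side is used.
-/

set_option autoImplicit false
set_option linter.unusedSectionVars false

namespace Pool.Agent.SixB.AtlZ

open Finset Pool.Agent.Perc Pool.Agent.PercD Pool.Agent.PercN Pool.Agent.Perc6 Pool.Agent.SixB.A1
open Pool.Agent.SixB

variable {ω : Cfg} {R : ℤ}

/-! ### The arm of the second end of the marked side -/

/-- the vertex `(1, 0)` is joined to the left, right or top side of the half box of `(0, 0)` -/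
def ArmB (R : ℤ) : Set Cfg :=
  {ω | ∃ w : ℤ × ℤ, Conn ω (HB (0, 0) R) (1, 0) w ∧ (w.1 = -R ∨ w.1 = R ∨ w.2 = R)}

theorem depOn_ArmB (R : ℤ) : DepOn (HB (0, 0) R : Set (ℤ × ℤ)) (ArmB R) := by
  intro ω ω' h
  simp only [ArmB, Set.mem_ofPred_eq, GridA.conn_iff _ h]

theorem incD_ArmB (R : ℤ) : IncD (Perc.parD 1) (ArmB R) := by
  rintro ω ω' h ⟨w, hw, hout⟩
  exact ⟨w, incD_conn 1 _ (by norm_num) ω ω' h hw, hout⟩

/-- the corners of a bond -/
theorem bond_cor {τ : Cfg} {T : Set (ℤ × ℤ)} {a b : ℤ × ℤ} (h : Bond τ T a b) :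
    ∃ f ∈ T, (f.1 ≤ a.1 ∧ a.1 ≤ f.1 + 1 ∧ f.2 ≤ a.2 ∧ a.2 ≤ f.2 + 1) ∧
      (f.1 ≤ b.1 ∧ b.1 ≤ f.1 + 1 ∧ f.2 ≤ b.2 ∧ b.2 ≤ f.2 + 1) := by
  obtain ⟨x, y, hf, hb⟩ := h
  refine ⟨(x, y), hf, ?_⟩
  rcases hb with ⟨-, ⟨rfl, rfl⟩ | ⟨rfl, rfl⟩⟩ | ⟨-, ⟨rfl, rfl⟩ | ⟨rfl, rfl⟩⟩ <;> simp only <;>
    refine ⟨⟨?_, ?_, ?_, ?_⟩, ?_, ?_, ?_, ?_⟩ <;> omega

theorem armB_of_arm (hR : 0 < R) (h : ω ∈ SixB.HArm (1, 0) (R + 1)) : ω ∈ ArmB R := by
  obtain ⟨w, hw, hout⟩ := h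
  have key : ∀ z, Conn ω (HB (1, 0) (R + 1) : Set (ℤ × ℤ)) (1, 0) z → ω ∈ ArmB R ∨
      (Conn ω (HB (0, 0) R : Set (ℤ × ℤ)) (1, 0) z ∧ -R ≤ z.1 ∧ z.1 ≤ R ∧ 0 ≤ z.2 ∧ z.2 ≤ R) := by
    intro z hz
    induction hz with
    | refl =>
      right
      refine ⟨Relation.ReflTransGen.refl, ?_⟩
      simp only
      omega
    | @tail a b _ hb ih =>
      rcases ih with h | ⟨h, h1, h2, h3, h4⟩
      · exact Or.inl h
      by_cases ho : a.1 = -R ∨ a.1 = R ∨ a.2 = R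
      · exact Or.inl ⟨a, h, ho⟩
      · right
        obtain ⟨x, y, hf, hbb⟩ := hb
        obtain ⟨f, hf', ha', hb'⟩ := bond_cor (τ := ω) (T := {(x, y)}) (a := a) (b := b)
          ⟨x, y, rfl, hbb⟩
        obtain rfl : f = (x, y) := hf'
        rw [mem_HB] at hf
        simp only at hf ha' hb'
        have hf0 : ((x, y) : ℤ × ℤ) ∈ (HB (0, 0) R : Set (ℤ × ℤ)) := by
          rw [mem_HB]
          simp only
          omega
        refine ⟨h.tail ⟨x, y, hf0, hbb⟩, ?_⟩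
        rw [mem_HB] at hf0
        simp only at hf0
        omega
  rcases key w hw with h | ⟨h, h1, h2, h3, h4⟩
  · exact h
  · refine ⟨w, h, ?_⟩
    simp only at hout
    omega

/-- the arm of `(1, 0)` excludes an arc over the marked side -/
theorem noArcE_of_armB (hR : 0 < R) (h : ω ∈ ArmB R) : ω ∉ ArcOverE (0, 0) R := by
  classical
  rintro ⟨x, y, hx, hy, hm⟩
  obtain ⟨w, hw, hout⟩ := h
  simp only at hx hy hm
  set ω' : Cfg := fun f => if f ∈ HB (0, 0) R then ω f else !Perc.parD 1 f with hω'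
  have hsub : (HB (0, 0) R : Set (ℤ × ℤ)) ⊆ (HB (1, 0) (R + 1) : Set (ℤ × ℤ)) := by
    intro f hf
    rw [mem_HB] at hf ⊢
    simp only at hf ⊢
    omega
  have hcg : ∀ f ∈ (HB (0, 0) R : Set (ℤ × ℤ)), ω f = ω' f := by
    intro f hf
    simp only [hω']
    rw [if_pos (mem_coe.1 hf)]
  have h1 : ω' ∈ ArcOver (1, 0) (R + 1) := by
    refine ⟨x, y, by simp only; omega, by simp only; omega, ?_⟩
    have : MM ω' (HB (0, 0) R : Set (ℤ × ℤ)) (x, 0, false) =
        MM ω (HB (0, 0) R : Set (ℤ × ℤ)) (x, 0, false) := MM_congr' hcg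
    rw [← this] at hm
    exact MM_mono hsub hm
  refine OwnZ.noArc_of_arm (by omega) ?_ h1
  have hc0 : Conn ω' (HB (0, 0) R : Set (ℤ × ℤ)) (1, 0) w := (GridA.conn_iff _ hcg _ _).1 hw
  have hc : Conn ω' (HB (1, 0) (R + 1) : Set (ℤ × ℤ)) (1, 0) w := hc0.mono hsub
  have hpar := Conn.parity hc
  simp only at hpar
  have hout' : ∀ f : ℤ × ℤ, f ∉ HB (0, 0) R → ω' f = !Perc.parD 1 f := fun f hf => by
    simp only [hω']
    rw [if_neg hf]
  have hval : ∀ f : ℤ × ℤ, f ∉ HB (0, 0) R → (ω' f = true ↔ (f.1 + f.2) % 2 = 1) := by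
    intro f hf
    rw [hout' f hf]
    unfold Perc.parD
    rw [Bool.not_eq_true', decide_eq_false_iff_not]
    omega
  have hb : (-R ≤ w.1 ∧ w.1 ≤ R) ∧ 0 ≤ w.2 ∧ w.2 ≤ R := by
    rcases Relation.ReflTransGen.cases_tail hw with h2 | ⟨b, -, h2⟩
    · rw [h2]
      simp only
      omega
    · obtain ⟨f, hf, -, h3⟩ := bond_cor h2
      rw [mem_HB] at hf
      simp only at hf
      omega
  obtain ⟨a, b⟩ := w
  simp only at hb hpar hout
  rcases hout with h2 | h2 | h2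
  · exact ⟨(a, b), hc, Or.inl (by simp only; omega)⟩
  · subst h2
    have n1 : ((a, b) : ℤ × ℤ) ∉ HB (0, 0) a := by
      rw [← mem_coe, mem_HB]
      simp only
      omega
    have n2 : ((a + 1, b) : ℤ × ℤ) ∉ HB (0, 0) a := by
      rw [← mem_coe, mem_HB]
      simp only
      omega
    have m1 : ((a, b) : ℤ × ℤ) ∈ (HB (1, 0) (a + 1) : Set (ℤ × ℤ)) := by
      rw [mem_HB]
      simp only
      omega
    have m2 : ((a + 1, b) : ℤ × ℤ) ∈ (HB (1, 0) (a + 1) : Set (ℤ × ℤ)) := by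
      rw [mem_HB]
      simp only
      omega
    have v1 : ω' (a, b) = true := (hval _ n1).2 (by simp only; omega)
    have v2 : ω' (a + 1, b) = false := by
      have := (not_congr (hval _ n2)).2 (by simp only; omega)
      simpa using this
    have b1 : Bond ω' (HB (1, 0) (a + 1) : Set (ℤ × ℤ)) (a, b) (a + 1, b + 1) :=
      ⟨a, b, m1, Or.inl ⟨v1, Or.inl ⟨rfl, rfl⟩⟩⟩
    have b2 : Bond ω' (HB (1, 0) (a + 1) : Set (ℤ × ℤ)) (a + 1, b + 1) (a + 1 + 1, b) :=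
      ⟨a + 1, b, m2, Or.inr ⟨v2, Or.inl ⟨rfl, rfl⟩⟩⟩
    exact ⟨(a + 1 + 1, b), (hc.tail b1).tail b2, Or.inr (Or.inl (by simp only; omega))⟩
  · subst h2
    have n1 : ((a, b) : ℤ × ℤ) ∉ HB (0, 0) b := by
      rw [← mem_coe, mem_HB]
      simp only
      omega
    have m1 : ((a, b) : ℤ × ℤ) ∈ (HB (1, 0) (b + 1) : Set (ℤ × ℤ)) := by
      rw [mem_HB]
      simp only
      omega
    have v1 : ω' (a, b) = true := (hval _ n1).2 (by simp only; omega)
    have b1 : Bond ω' (HB (1, 0) (b + 1) : Set (ℤ × ℤ)) (a, b) (a + 1, b + 1) :=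
      ⟨a, b, m1, Or.inl ⟨v1, Or.inl ⟨rfl, rfl⟩⟩⟩
    exact ⟨(a + 1, b + 1), hc.tail b1, Or.inr (Or.inr (by simp only; omega))⟩

/-! ### The arms of the ends of the marked side: probability -/

noncomputable section

/-- the arm of `(0, 0)` or of `(1, 0)` -/
def Arm (b : Bool) (R : ℤ) : Set Cfg := if b then SixB.HArm (0, 0) R else ArmB R

theorem depOn_Arm (b : Bool) (R : ℤ) : DepOn (HB (0, 0) R : Set (ℤ × ℤ)) (Arm b R) := by
  unfold Arm
  cases b
  · exact depOn_ArmB R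
  · exact depOn_HArm (0, 0) R

/-- the parity of the vertex -/
def pb (b : Bool) : ℤ := if b then 0 else 1

theorem incD_Arm (b : Bool) (R : ℤ) : IncD (Perc.parD (pb b)) (Arm b R) := by
  unfold Arm pb
  cases b
  · exact incD_ArmB R
  · exact OwnZ.incD_HArm R

/-- the constant of the lower bound -/
def cA : ℝ := (1 / 12 : ℝ) ^ (1 / 3 : ℝ)

theorem cA_pos : 0 < cA := Real.rpow_pos_of_pos (by norm_num) _

theorem pr_arm_ge (v : ℤ × ℤ) {r : ℕ} (hr : 0 < r) :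
    cA * (r : ℝ) ^ (-(1 / 3 : ℝ)) ≤ pr (HB v r) (SixB.HArm v r) := by
  refine (OwnZ.Fw_zero_ge 0 hr).trans (le_of_eq ?_)
  rw [OwnZ.Fw_zero_eq_pr 0 r v (Finset.Subset.refl _)]
  congr 1
  ext ω
  exact OwnZ.noArc_iff_arm' (Int.natCast_nonneg r)

theorem pr_Arm_ge (b : Bool) {r : ℕ} (hr : 0 < r) :
    cA / 2 * (r : ℝ) ^ (-(1 / 3 : ℝ)) ≤ pr (HB (0, 0) r) (Arm b r) := by
  have hr0 : (0 : ℝ) < r := by exact_mod_cast hr
  have hx : 0 < (r : ℝ) ^ (-(1 / 3 : ℝ)) := Real.rpow_pos_of_pos hr0 _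
  have hc := cA_pos
  cases b
  · have h1 := pr_arm_ge (1, 0) (r := r + 1) (Nat.succ_pos r)
    have hsub : HB (0, 0) (r : ℤ) ⊆ HB (1, 0) ((r : ℤ) + 1) := by
      intro f hf
      rw [← mem_coe, mem_HB] at hf ⊢
      simp only at hf ⊢
      omega
    have h2 : pr (HB (1, 0) ((r : ℤ) + 1)) (SixB.HArm (1, 0) ((r : ℤ) + 1)) ≤
        pr (HB (0, 0) r) (Arm false r) := by
      rw [← pr_eq_of_depOn (depOn_Arm false (r : ℤ)) hsub]
      exact pr_mono _ fun ω hω => armB_of_arm (by exact_mod_cast hr) hω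
    push_cast at h1
    refine le_trans ?_ (h1.trans h2)
    have h3 : (r : ℝ) ^ (-(1 / 3 : ℝ)) / 2 ≤ ((r : ℝ) + 1) ^ (-(1 / 3 : ℝ)) := by
      have e1 : (2 * (r : ℝ)) ^ (-(1 / 3 : ℝ)) ≤ ((r : ℝ) + 1) ^ (-(1 / 3 : ℝ)) := by
        refine Real.rpow_le_rpow_of_nonpos (by positivity) ?_ (by norm_num)
        have : (1 : ℝ) ≤ r := by exact_mod_cast hr
        linarith
      refine le_trans ?_ e1
      rw [Real.mul_rpow (by norm_num) hr0.le, div_eq_mul_inv, mul_comm]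
      refine mul_le_mul_of_nonneg_right ?_ hx.le
      rw [← Real.rpow_neg_one]
      exact Real.rpow_le_rpow_of_exponent_le (by norm_num) (by norm_num)
    calc cA / 2 * (r : ℝ) ^ (-(1 / 3 : ℝ)) = cA * ((r : ℝ) ^ (-(1 / 3 : ℝ)) / 2) := by ring
      _ ≤ cA * ((r : ℝ) + 1) ^ (-(1 / 3 : ℝ)) := mul_le_mul_of_nonneg_left h3 hc.le
  · refine le_trans ?_ (pr_arm_ge (0, 0) hr)
    refine mul_le_mul_of_nonneg_right ?_ hx.le
    linarith

/-- The kinds of weight zero without `e`: an upper bound for the local factor. -/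
theorem sF_zero_le : ∃ C : ℝ, 0 < C ∧ ∀ K : SK, sT K = 0 → K ≠ .e → ∀ r : ℕ, 0 < r →
    sF K 2 r ≤ C * (r : ℝ) ^ (-(1 / 3 : ℝ)) := by
  obtain ⟨C₁, h1, p1⟩ := OwnZ.Fw_zero_le
  obtain ⟨C₂, h2, p2⟩ := Kd.sF_em_le
  refine ⟨max C₁ C₂, lt_max_of_lt_left h1, fun K hK he r hr => ?_⟩
  have hx : 0 ≤ (r : ℝ) ^ (-(1 / 3 : ℝ)) := Real.rpow_nonneg (Nat.cast_nonneg r) _
  cases K with
  | ver J =>
    have hJ : tJ J = 0 := hK
    rw [Kd.sF_ver (by norm_num) (by norm_num), hJ]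
    exact (p1 0 r hr).trans (mul_le_mul_of_nonneg_right (le_max_left _ _) hx)
  | e => exact absurd rfl he
  | em => exact (p2 r hr).trans (mul_le_mul_of_nonneg_right (le_max_right _ _) hx)

/-- The arm has at least a constant times the local factor. -/
theorem arm_sF : ∃ c : ℝ, 0 < c ∧ c ≤ 1 ∧ ∀ K : SK, sT K = 0 → K ≠ .e → ∀ (b : Bool) (r : ℕ), 0 < r →
    c * sF K 2 r ≤ pr (HB (0, 0) r) (Arm b r) := by
  obtain ⟨C, hC, h⟩ := sF_zero_le
  have hc := cA_pos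
  refine ⟨min (cA / 2 / C) 1, lt_min (by positivity) one_pos, min_le_right _ _,
    fun K hK he b r hr => ?_⟩
  have h0 : 0 ≤ sF K 2 r := Kd.sF_nonneg hK.symm.le 2 r
  refine le_trans ?_ (pr_Arm_ge b hr)
  calc min (cA / 2 / C) 1 * sF K 2 r ≤ cA / 2 / C * sF K 2 r :=
        mul_le_mul_of_nonneg_right (min_le_left _ _) h0
    _ ≤ cA / 2 / C * (C * (r : ℝ) ^ (-(1 / 3 : ℝ))) :=
        mul_le_mul_of_nonneg_left (h K hK he r hr) (by positivity)
    _ = cA / 2 * (r : ℝ) ^ (-(1 / 3 : ℝ)) := by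
        field_simp

/-- The arm excludes the arcs which are counted. -/
theorem sN_zero_of_arm {K : SK} (he : K ≠ .e) {b : Bool} (hb : b = false → K = .em) {r : ℕ}
    (hr : 0 < r) (h : ω ∈ Arm b r) : sN K 2 0 (0, 0) r ω = 0 := by
  have hr' : (0 : ℤ) < r := by exact_mod_cast hr
  cases K with
  | ver J =>
    cases b
    · exact absurd (hb rfl) (by simp)
    · have h1 := Kd.sN_ver (m := 2) (by norm_num) (by norm_num) J r 0 ω
      rw [pow_zero, Nat.div_one] at h1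
      rw [h1]
      have h2 := OwnZ.wN_zero_iff_arm r 0 ω
      rw [Wd.rj_zero] at h2
      exact h2.2 h
  | e => exact absurd rfl he
  | em =>
    rw [Kd.sN_em_iff]
    cases b
    · exact noArcE_of_armB hr' h
    · intro hc
      refine OwnZ.noArc_of_arm hr' h ?_
      obtain ⟨x, y, h1, h2, h3⟩ := hc
      exact ⟨x, y, h1, by omega, h3⟩

/-! ### Transport to a chart -/

theorem ev_cast (k : ℕ) : Pool.Agent.Perc.Q.ev (k : ZMod 4) = decide (k % 2 = 0) := by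
  induction k with
  | zero => decide
  | succ k ih =>
    rw [Nat.cast_succ, Pool.Agent.Perc.Q.ev_add_one, ih, ← decide_not]
    exact decide_eq_decide.2 (by omega)

/-- the parity of the image of a face -/
theorem rotn_par (k : ℕ) (g : ℤ × ℤ) :
    (((Mot.rotn k).ψ g).1 + ((Mot.rotn k).ψ g).2 - (g.1 + g.2) - k) % 2 = 0 := by
  induction k with
  | zero =>
    have : (Mot.rotn 0).ψ g = g := rfl
    rw [this]
    simp
  | succ k ih =>
    have : (Mot.rotn (k + 1)).ψ g = (-((Mot.rotn k).ψ g).2 - 1, ((Mot.rotn k).ψ g).1) := rfl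
    rw [this]
    simp only
    push_cast
    omega

theorem rotn_r (k : ℕ) : (Mot.rotn k).r = (k : ZMod 4) := by
  induction k with
  | zero =>
    show (0 : ZMod 4) = _
    rw [Nat.cast_zero]
  | succ k ih =>
    show (Mot.rotn k).r + 1 = _
    rw [ih, Nat.cast_succ]

theorem mo_par (o : ZMod 4) (v g : ℤ × ℤ) :
    (((Kd.mo o v).ψ g).1 + ((Kd.mo o v).ψ g).2 - (g.1 + g.2) - o.val - (v.1 + v.2)) % 2 = 0 := by
  have h := rotn_par o.val g
  have : (Kd.mo o v).ψ g = (Mot.rotn o.val).ψ g + v := rfl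
  rw [this]
  simp only [Prod.fst_add, Prod.snd_add]
  omega

theorem par_key (x g v : ℤ × ℤ) (cc p : ℤ) (n : ℕ) (hp : (cc - (v.1 + v.2) - p) % 2 = 1)
    (h3 : (x.1 + x.2 - (g.1 + g.2) - n - (v.1 + v.2)) % 2 = 0) :
    (Perc.parD cc x == decide (n % 2 = 0)) = !Perc.parD p g := by
  unfold Perc.parD
  by_cases e1 : (x.1 + x.2 - cc) % 2 ≠ 0 <;> by_cases e2 : n % 2 = 0 <;>
    by_cases e3 : (g.1 + g.2 - p) % 2 ≠ 0 <;> first
    | (exfalso; omega)
    | simp [e1, e2, e3]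

theorem mo_ev (o : ZMod 4) (v : ℤ × ℤ) :
    Pool.Agent.Perc.Q.ev (-(Kd.mo o v).r) = decide (o.val % 2 = 0) := by
  have : (Kd.mo o v).r = (Mot.rotn o.val).r + 0 := rfl
  rw [ev_neg, this, add_zero, rotn_r, ev_cast]

section chart

variable {V Φ : Type} [DecidableEq V] [DecidableEq Φ] {Q : Pool.Agent.Perc.Q.QC V Φ}
  {F : Finset Φ} {m : ℕ} {o : ZMod 4} {v : ℤ × ℤ} {R' : ℕ}

/-- the configuration of a chart in the standard position -/
def cs (c : WChart Q F m o v R') (ω : Φ → Bool) : Cfg :=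
  (Kd.mo o v).inv.cf fun f => ω (c.φF f)

theorem cs_apply (c : WChart Q F m o v R') (ω : Φ → Bool) (g : ℤ × ℤ) :
    cs c ω g = (ω (c.φF ((Kd.mo o v).ψ g)) == Pool.Agent.Perc.Q.ev (-(Kd.mo o v).r)) := rfl

theorem psi_mem_wdg {r : ℕ} {g : ℤ × ℤ} : (Kd.mo o v).ψ g ∈ Wdg 2 o v r ↔ g ∈ HB (0, 0) (r : ℤ) := by
  rw [← (Kd.mo_mw (m := 2) (o := o) (v := v)).im, Mot.psi_mem, Kd.wdg_HB]

/-- monotonicity of an arm in a chart -/
theorem up_arm (hm : m = 2) (c : WChart Q F m o v R') {r : ℕ} {D : Φ → Bool} {cc : ℤ} {b : Bool}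
    (hD : ∀ f ∈ Wdg m o v r, D (c.φF f) = !Perc.parD cc f)
    (hp : (cc - (v.1 + v.2) - pb b) % 2 = 1) {ω ω' : Φ → Bool}
    (h : ∀ f, ω f = (!D f) → ω' f = !D f) (ha : cs c ω ∈ Arm b r) : cs c ω' ∈ Arm b r := by
  classical
  subst hm
  set η : Cfg := fun g => if g ∈ HB (0, 0) (r : ℤ) then cs c ω' g else cs c ω g with hη
  have hη' : ∀ g ∈ (HB (0, 0) (r : ℤ) : Set (ℤ × ℤ)), η g = cs c ω' g := by
    intro g hg
    simp only [hη]
    rw [if_pos (mem_coe.1 hg)]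
  refine (depOn_Arm b r η (cs c ω') hη').1 ?_
  refine (incD_iff_up _ _).1 (incD_Arm b r) (cs c ω) η (fun g hg => ?_) ha
  simp only [hη]
  split_ifs with hgm
  · have h1 := hD _ (psi_mem_wdg.2 hgm)
    have h2 := h (c.φF ((Kd.mo o v).ψ g))
    have h3 := mo_par o v g
    rw [cs_apply, mo_ev] at hg ⊢
    rw [h1, Bool.not_not] at h2
    have key : (Perc.parD cc ((Kd.mo o v).ψ g) == decide (o.val % 2 = 0)) =
        !Perc.parD (pb b) g := par_key _ g v cc (pb b) o.val hp h3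
    rw [← key] at hg ⊢
    have h4 : ω (c.φF ((Kd.mo o v).ψ g)) = Perc.parD cc ((Kd.mo o v).ψ g) := by
      revert hg
      cases ω (c.φF ((Kd.mo o v).ψ g)) <;> cases Perc.parD cc ((Kd.mo o v).ψ g) <;>
        cases decide (o.val % 2 = 0) <;> simp
    rw [h2 h4]
  · exact hg

theorem dep_arm (o : ZMod 4) (v : ℤ × ℤ) (b : Bool) (r : ℕ) :
    Dep ((Wdg 2 o v r : Finset (ℤ × ℤ)) : Set (ℤ × ℤ))
      (fun η : Cfg => (Kd.mo o v).inv.cf η ∈ Arm b r) := by
  intro η η' h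
  have := depOn_Arm b r ((Kd.mo o v).inv.cf η) ((Kd.mo o v).inv.cf η') fun g hg => by
    show (η ((Kd.mo o v).ψ g) == _) = (η' ((Kd.mo o v).ψ g) == _)
    rw [h _ (mem_coe.2 (psi_mem_wdg.2 (mem_coe.1 hg)))]
  exact propext this

open Classical in
/-- the probability of an arm in a chart -/
theorem av_arm (hm : m = 2) (c : WChart Q F m o v R') (b : Bool) {r : ℕ} (hr : r ≤ R') :
    av F (fun ω => if cs c ω ∈ Arm b r then (1 : ℝ) else 0) = pr (HB (0, 0) r) (Arm b r) := by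
  subst hm
  have hM := Kd.mo_mw (m := 2) (o := o) (v := v)
  have e1 : av F (fun ω => if cs c ω ∈ Arm b r then (1 : ℝ) else 0) =
      av (Wdg 2 o v r) (fun η => if (Kd.mo o v).inv.cf η ∈ Arm b r then (1 : ℝ) else 0) :=
    Pull.av_pull (S := Wdg 2 o v r) c.toPChart (Kd.Wdg_mono hr)
      (g := fun η : Cfg => if (Kd.mo o v).inv.cf η ∈ Arm b r then (1 : ℝ) else 0)
      (fun η η' h => by
        have := dep_arm o v b r η η' h
        simp only [this])
  rw [e1, ← hM.im, pr_eq_av, ← Kd.wdg_HB]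
  refine (Kd.mo o v).av_move (fun η η' h => ?_) fun η => ?_
  · have := depOn_Arm b r η η' (by rw [← Kd.wdg_HB]; exact h)
    simp only [this]
  · rw [Mot.inv_cf]

/-- an arm in a chart excludes the arcs which are counted -/
theorem sN_zero_chart (hm : m = 2) (c : WChart Q F m o v R') {K : SK} (he : K ≠ .e) {b : Bool}
    (hb : b = false → K = .em) {r : ℕ} (hr : 0 < r) {ω : Φ → Bool} (h : cs c ω ∈ Arm b r) :
    sN K m o v r (fun f => ω (c.φF f)) = 0 := by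
  subst hm
  have h1 : sN K 2 o v r (fun f => ω (c.φF f)) = sN K 2 0 (0, 0) r (cs c ω) := by
    unfold cs
    rw [← Kd.sN_mw (Kd.mo_mw (m := 2) (o := o) (v := v)), Mot.cf_inv]
  rw [h1]
  exact sN_zero_of_arm he hb hr h

end chart

/-! ### The hypothesis `hcor` for an atlas -/

section atlas

open Pool.Agent.SixB.Bk

attribute [local instance] Atlas.fκ Atlas.dκ

variable {V Φ : Type} [DecidableEq V] [DecidableEq Φ] {Q : Pool.Agent.Perc.Q.QC V Φ}
  {F : Finset Φ} {ψ : V × V → ℝ} {Z : Finset (V × V)} {r nS nN : ℕ} {t₀ : ℝ}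

/-- The special charts of weight zero have the kind `em`, or the kind `ver` and the colour which `D` has not. -/
def Own (A : Atlas Q F ψ Z r nS nN t₀) {D : Φ → Bool} (C : Colr A D) : Prop :=
  ∀ i, sT (A.K i) = 0 → A.K i = .em ∨
    (∃ J, A.K i = .ver J) ∧ (C.cS i - ((A.v i).1 + (A.v i).2)) % 2 = 1

/-- the end of the marked side which has the colour which `D` has not -/
def bI (A : Atlas Q F ψ Z r nS nN t₀) {D : Φ → Bool} (C : Colr A D) (i : A.κ) : Bool :=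
  decide ((C.cS i - ((A.v i).1 + (A.v i).2)) % 2 = 1)

open Classical in
/-- the indicator of the arm -/
def uI (A : Atlas Q F ψ Z r nS nN t₀) {D : Φ → Bool} (C : Colr A D) (i : A.κ) (ω : Φ → Bool) : ℝ :=
  if cs (A.ch i) ω ∈ Arm (bI A C i) ((4 * r : ℕ) : ℤ) then 1 else 0

theorem uI_nonneg (A : Atlas Q F ψ Z r nS nN t₀) {D : Φ → Bool} (C : Colr A D) (i : A.κ)
    (ω : Φ → Bool) : 0 ≤ uI A C i ω := by
  unfold uI
  split_ifs <;> norm_num

theorem m_two (A : Atlas Q F ψ Z r nS nN t₀) (ht : 0 < t₀) {i : A.κ} (h : sT (A.K i) = 0) :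
    A.m i = 2 := by
  rcases A.weights i with h1 | ⟨-, h1⟩
  · rw [h] at h1
    exact absurd h1 (not_le.2 ht)
  · exact h1

theorem uI_le (A : Atlas Q F ψ Z r nS nN t₀) {D : Φ → Bool} {C : Colr A D} (hO : Own A C)
    (ht : 0 < t₀) (hr : 0 < r) {i : A.κ} (h : sT (A.K i) = 0) (ω : Φ → Bool) :
    uI A C i ω ≤ sT (A.K i) ^ A.chain.N i 0 ω := by
  unfold uI
  split_ifs with h1
  · have h2 : A.chain.N i 0 ω = 0 := by
      rw [A.chain_N0]
      refine sN_zero_chart (m_two A ht h) (A.ch i) ?_ ?_ (by omega) h1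
      · intro he
        rcases hO i h with h3 | ⟨⟨J, h3⟩, -⟩ <;> rw [h3] at he <;> exact absurd he (by simp)
      · intro hb
        rcases hO i h with h3 | ⟨-, h3⟩
        · exact h3
        · unfold bI at hb
          rw [h3] at hb
          exact absurd hb (by simp)
    rw [h2, pow_zero]
  · rw [h]
    exact pow_nonneg le_rfl _

theorem uI_up (A : Atlas Q F ψ Z r nS nN t₀) {D : Φ → Bool} (C : Colr A D) (ht : 0 < t₀)
    {i : A.κ} (h : sT (A.K i) = 0) : Up (fun f => !D f) (uI A C i) := by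
  intro ω ω' hω
  unfold uI
  by_cases h1 : cs (A.ch i) ω ∈ Arm (bI A C i) ((4 * r : ℕ) : ℤ)
  · have h2 : cs (A.ch i) ω' ∈ Arm (bI A C i) ((4 * r : ℕ) : ℤ) := by
      refine up_arm (m_two A ht h) (A.ch i) (cc := C.cS i) (fun f hf => C.hS i f ?_) ?_ hω h1
      · exact Kd.Wdg_mono (by omega) hf
      · unfold bI pb
        by_cases h3 : (C.cS i - ((A.v i).1 + (A.v i).2)) % 2 = 1
        · rw [decide_eq_true h3, if_pos rfl, sub_zero]
          exact h3
        · rw [decide_eq_false h3, if_neg (by simp)]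
          omega
    rw [if_pos h1, if_pos h2]
  · rw [if_neg h1]
    split_ifs <;> norm_num

open Classical in
/-- **The hypothesis `hcor` of `AU.low_pos` for an atlas.** -/
theorem cor (nS nN : ℕ) : ∃ g₀ : ℝ, 0 < g₀ ∧ ∀ {V Φ : Type} [DecidableEq V] [DecidableEq Φ]
    {Q : Pool.Agent.Perc.Q.QC V Φ} {F : Finset Φ} {ψ : V × V → ℝ} {Z : Finset (V × V)} {r : ℕ}
    {t₀ : ℝ} (A : Atlas Q F ψ Z r nS nN t₀) (D : Φ → Bool) (C : Colr A D), Own A C → 0 < t₀ →
    0 < r → ∀ V₀ : Finset A.κ, (∀ i ∈ V₀, sT (A.K i) = 0) →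
    g₀ * av F (fun ω => ∏ i ∈ V₀, sT (A.K i) ^ A.chain.N i 0 ω) ≤
      av F (fun ω => (∏ i ∈ V₀, sT (A.K i) ^ A.chain.N i 0 ω) *
        if AtBlk A D ω then (1 : ℝ) else 0) := by
  obtain ⟨g₁, hg₁, hblk⟩ := atBlk_pos nS nN
  obtain ⟨c, hc0, hc1, harm⟩ := arm_sF
  refine ⟨c ^ nS * g₁, by positivity, ?_⟩
  intro V Φ _ _ Q F ψ Z r t₀ A D C hO ht hr V₀ hV₀
  set f : A.κ → (Φ → Bool) → ℝ := fun i ω => sT (A.K i) ^ A.chain.N i 0 ω with hf
  have hf0 : ∀ i ∈ V₀, ∀ ω, 0 ≤ f i ω := fun i hi ω => by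
    simp only [hf]
    rw [hV₀ i hi]
    exact pow_nonneg le_rfl _
  have hB0 : ∀ ω, (0 : ℝ) ≤ if AtBlk A D ω then (1 : ℝ) else 0 := fun ω => by
    split_ifs <;> norm_num
  -- the product formula
  have hprod : av F (fun ω => ∏ i ∈ V₀, f i ω) = ∏ i ∈ V₀, av F (f i) := by
    have h1 := chain_prod (P := LH.avSys F) (B := A.chain.B) (N := A.chain.N)
      (t := fun i => sT (A.K i)) A.chain.hdis A.chain.hN V₀ (fun _ => 1) ∅
      (ExpSys.Dep.const _ _) (fun v _ => Set.empty_disjoint _)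
    have h2 : (LH.avSys F).E (fun _ => (1 : ℝ)) = 1 := (LH.avSys F).one
    rw [h2, mul_one] at h1
    simp only [mul_one] at h1
    exact h1
  -- one factor
  have hone : ∀ i ∈ V₀, c * av F (f i) ≤ av F (uI A C i) := by
    intro i hi
    have h0 := hV₀ i hi
    have hm := m_two A ht h0
    have e1 : av F (f i) = sF (A.K i) 2 (4 * r) := by
      have := A.chain_F i 0
      rw [pow_zero, Nat.div_one, hm] at this
      exact this
    have e2 : av F (uI A C i) = pr (HB (0, 0) ((4 * r : ℕ) : ℤ)) (Arm (bI A C i) ((4 * r : ℕ) : ℤ)) :=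
      av_arm hm (A.ch i) (bI A C i) (by omega)
    rw [e1, e2]
    refine harm (A.K i) h0 ?_ _ _ (by omega)
    intro he
    rcases hO i h0 with h3 | ⟨⟨J, h3⟩, -⟩ <;> rw [h3] at he <;> exact absurd he (by simp)
  have hF0 : ∀ i ∈ V₀, 0 ≤ av F (f i) := fun i hi => av_nonneg fun T _ => hf0 i hi _
  -- Harris
  have k1 : ∏ i ∈ V₀, av F (uI A C i) ≤ av F (fun ω => ∏ i ∈ V₀, uI A C i ω) :=
    av_harris_prod (fun x => !D x) F V₀ (uI A C) (fun i hi => uI_up A C ht (hV₀ i hi))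
      (uI_nonneg A C)
  have k2 := av_harris (fun x => !D x) F (fun ω => ∏ i ∈ V₀, uI A C i ω) _
    (Up.prod V₀ (uI A C) (fun i hi => uI_up A C ht (hV₀ i hi)) (uI_nonneg A C)) (up_atBlk A D)
  have k3 : av F (fun ω => (∏ i ∈ V₀, uI A C i ω) * if AtBlk A D ω then (1 : ℝ) else 0) ≤
      av F (fun ω => (∏ i ∈ V₀, f i ω) * if AtBlk A D ω then (1 : ℝ) else 0) := by
    refine av_mono fun T _ => mul_le_mul_of_nonneg_right ?_ (hB0 _)
    exact Finset.prod_le_prod (fun i _ => uI_nonneg A C i _) fun i hi =>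
      uI_le A hO ht hr (hV₀ i hi) _
  have k4 := hblk A D C hr
  have k5 : c ^ nS * ∏ i ∈ V₀, av F (f i) ≤ ∏ i ∈ V₀, av F (uI A C i) := by
    have h1 : c ^ nS * ∏ i ∈ V₀, av F (f i) ≤ c ^ V₀.card * ∏ i ∈ V₀, av F (f i) := by
      refine mul_le_mul_of_nonneg_right (pow_le_pow_of_le_one hc0.le hc1 ?_)
        (Finset.prod_nonneg hF0)
      exact (Finset.card_le_univ V₀).trans A.cardS
    refine h1.trans ?_
    rw [← Finset.prod_const, ← Finset.prod_mul_distrib]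
    exact Finset.prod_le_prod (fun i hi => mul_nonneg hc0.le (hF0 i hi)) hone
  have hP0 : 0 ≤ ∏ i ∈ V₀, av F (f i) := Finset.prod_nonneg hF0
  have hU0 : 0 ≤ ∏ i ∈ V₀, av F (uI A C i) :=
    Finset.prod_nonneg fun i _ => av_nonneg fun T _ => uI_nonneg A C i _
  rw [hprod]
  calc c ^ nS * g₁ * ∏ i ∈ V₀, av F (f i) = (c ^ nS * ∏ i ∈ V₀, av F (f i)) * g₁ := by ring
    _ ≤ (∏ i ∈ V₀, av F (uI A C i)) * g₁ := mul_le_mul_of_nonneg_right k5 hg₁.le
    _ ≤ av F (fun ω => ∏ i ∈ V₀, uI A C i ω) *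
        av F (fun ω => if AtBlk A D ω then (1 : ℝ) else 0) :=
        mul_le_mul k1 k4 hg₁.le (hU0.trans k1)
    _ ≤ _ := k2.trans k3

end atlas

end

end Pool.Agent.SixB.AtlZ
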