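import Pool.Agent.Lib.SixB.S3AtlLow
import Pool.Agent.Lib.SixB.S3AtlLowZ

/-!
# 6BD, step 3, row R5b, fourth part: LOWER for an atlas with vertices of weight `0` of own colour

`atlasC_lower_own`: as `atlasC_lower`, with `AtlZ.Own A hD` in place of the condition that no weight vanishes.
`atlasC_lower_pos`: the same for a nonnegative weight.
-/

set_option autoImplicit false
set_option linter.unusedSectionVars false

namespace Pool.Agent.SixB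

open Finset Pool.Agent.Perc.Q Pool.Agent.Perc

noncomputable section

attribute [local instance] Atlas.fκ Atlas.dκ

/-- LOWER, vertices of weight `0` have own colour. -/
theorem atlasC_lower_own (nS nN : ℕ) (t₀ : ℝ) (h0 : 0 < t₀) (h1 : t₀ ≤ 1) :
    ∃ c K₀ : ℝ, 0 < c ∧ 0 < K₀ ∧ ∀ {V Φ : Type} [DecidableEq V] [DecidableEq Φ] {Q : QC V Φ}
      {F : Finset Φ} {ψ : V × V → ℝ} {Z : Finset (V × V)} {r : ℕ} (A : Atlas Q F ψ Z r nS nN t₀)
      {D : Φ → Bool} (hD : Bk.Colr A D), AtlZ.Own A hD →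
      ∀ {C : Cells Q F ψ Z (A.ι ⊕ A.μ) A.κ}, IsCells A C → C.Exact →
      C.I.card ≤ 2 * nN → C.S = univ → 0 < r →
      ∀ good : (Φ → Bool) → ℝ, (∀ ω, good ω = 0 ∨ good ω = 1) →
      (∀ i, Dep ((A.ch i).box (r / 2) : Set Φ)ᶜ good) → (∀ ω, good ω = 1 → 0 ≤ WZ Q F ψ Z ω) →
      (c - K₀ * Real.sqrt (1 - av F good)) * ∏ i, sF (A.K i) (A.m i) r ≤ av F (WZ Q F ψ Z) := by
  classical
  obtain ⟨g₀, hg₀, hb⟩ := AtlZ.cor nS nN
  obtain ⟨c, K₀, hc, hK, h⟩ := atlasC_lower_cor nS nN t₀ g₀ h0 h1 hg₀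
  refine ⟨c, K₀, hc, hK, ?_⟩
  intro V Φ _ _ Q F ψ Z r A D hD hO C hC hE hI hS hr good hgood hgd hpos
  exact h A hD hC hE hI hS hr (hb A D hD hO h0 hr _ fun i hi => (Finset.mem_filter.mp hi).2)
    good hgood hgd hpos

/-- LOWER, nonnegative weight, vertices of weight `0` have own colour. -/
theorem atlasC_lower_pos (nS nN : ℕ) (t₀ : ℝ) (h0 : 0 < t₀) (h1 : t₀ ≤ 1) :
    ∃ c : ℝ, 0 < c ∧ ∀ {V Φ : Type} [DecidableEq V] [DecidableEq Φ] {Q : QC V Φ}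
      {F : Finset Φ} {ψ : V × V → ℝ} {Z : Finset (V × V)} {r : ℕ} (A : Atlas Q F ψ Z r nS nN t₀)
      {D : Φ → Bool} (hD : Bk.Colr A D), AtlZ.Own A hD →
      ∀ {C : Cells Q F ψ Z (A.ι ⊕ A.μ) A.κ}, IsCells A C → C.Exact →
      C.I.card ≤ 2 * nN → C.S = univ → 0 < r → (∀ ω, 0 ≤ WZ Q F ψ Z ω) →
      c * ∏ i, sF (A.K i) (A.m i) r ≤ av F (WZ Q F ψ Z) := by
  obtain ⟨c, K₀, hc, hK, h⟩ := atlasC_lower_own nS nN t₀ h0 h1
  refine ⟨c, hc, ?_⟩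
  intro V Φ _ _ Q F ψ Z r A D hD hO C hC hE hI hS hr hpos
  exact AL.pos_of c K₀ A (h A hD hO hC hE hI hS hr) hpos

end

end Pool.Agent.SixB
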