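import Pool.Agent.Lib.SixB.S3LowP

/-!
# 6BD step 3, R13: LOWER(E), abstract form

* `lowE`: outer partial atlas `A` off the polygon `G`, full atlas `AE`, `0 ≤ WZ` on an event `good` of probability
  close to `1`, exact product on the blocking event, lower bound `cD pD ≤ E[f e]` for the polygon: then
  `c pD ∏ sF ≤ av F WZ`.
* `lowD`: the polygon with all weights at least `t₀`: `c ∏ sF ≤ av F (WZ 1_x)` for an extra event `x`.
-/

set_option autoImplicit false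
set_option linter.unusedSectionVars false

namespace Pool.Agent.SixB.LowP

open Pool.Agent.Perc.Q Pool.Agent.Perc
open Pool.Agent.SixB hiding Zs_split

noncomputable section

attribute [local instance] Atlas.fκ Atlas.dκ

theorem wtS_nonneg {V Φ : Type} [DecidableEq V] [DecidableEq Φ] {Q : QC V Φ} {F : Finset Φ}
    {ψ : V × V → ℝ} {Z C : Finset (V × V)} {r nS nN : ℕ} {t₀ : ℝ}
    (A : PAtlas Q F ψ Z C r nS nN t₀) (h : ∀ i, 0 ≤ sT (A.K i)) (ω : Φ → Bool) : 0 ≤ wtS A ω :=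
  Finset.prod_nonneg fun i _ => pow_nonneg (h i) _

open Classical in
/-- **LOWER(E).** -/
theorem lowE (nS nN nS' nN' : ℕ) (t₀ x₀ cD B : ℝ) (h0 : 0 < t₀) (h1 : t₀ ≤ 1) (hx₀ : 0 < x₀)
    (hcD : 0 < cD) (hB : 0 < B) :
    ∃ c ε : ℝ, 0 < c ∧ 0 < ε ∧ ∀ {V Φ : Type} [DecidableEq V] [DecidableEq Φ] {Q : QC V Φ}
      {F : Finset Φ} {ψ : V × V → ℝ} {Z C : Finset (V × V)} {r : ℕ}
      (A : PAtlas Q F ψ Z C r nS nN t₀) (AE : Atlas Q F ψ Z r nS' nN' t₀)
      {CE : Cells Q F ψ Z (AE.ι ⊕ AE.μ) AE.κ}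
      (D : Φ → Bool) (x : (Φ → Bool) → Prop) (G : Finset Φ) (f e : (Φ → Bool) → ℝ),
      IsCells AE CE → CE.I.card ≤ 2 * nN' → CE.S = Finset.univ → Col A D →
      Ext A D x → x₀ ≤ av F (fun ω => if x ω then (1 : ℝ) else 0) → 0 < r →
      (∀ i, t₀ ≤ sT (A.K i)) → (∀ i, Disjoint ((A.ch i).box (4 * r)) G) →
      Dep (G : Set Φ) f → Dep (G : Set Φ) e → (∀ ω, 0 ≤ f ω) → (∀ ω, e ω = 0 ∨ e ω = 1) →
      (∀ ω, PX A D x (off D G ω) → e ω = 1 → f ω * wtS A ω ≤ WZ Q F ψ Z ω) →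
      ∀ good : (Φ → Bool) → ℝ, (∀ ω, good ω = 0 ∨ good ω = 1) →
      (∀ i, Dep ((AE.ch i).box (r / 2) : Set Φ)ᶜ good) → (∀ ω, good ω = 1 → 0 ≤ WZ Q F ψ Z ω) →
      ∀ pD : ℝ, cD * pD ≤ av F (fun ω => f ω * e ω) →
      ∏ i, sF (AE.K i) (AE.m i) r ≤ B * (pD * prF A) → 1 - av F good ≤ ε →
      c * (pD * prF A) ≤ av F (WZ Q F ψ Z) := by
  obtain ⟨c₁, hc₁, hlow⟩ := low_prod nS nN t₀ x₀ h0 h1 hx₀
  obtain ⟨K₀, hK, hup⟩ := atlasC_event nS' nN' 1 t₀ h0 h1
  set c : ℝ := c₁ * cD / 2 with hc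
  have hc0 : 0 < c := by positivity
  refine ⟨c, (c / (K₀ * B)) ^ 2, hc0, by positivity, ?_⟩
  intro V Φ _ _ Q F ψ Z C r A AE CE D x G f e hIC hI hS H hxE hxP hr ht hGd hf he hf0 he01 hW good
    hg01 hgd hgpos pD hpD hAE hε
  have k1 := hlow A D x G (WZ Q F ψ Z) f e H hxE hxP hr ht hGd hf he hf0 he01 hW
  have hbad01 : ∀ ω, (1 - good ω = 0 ∨ 1 - good ω = 1) := fun ω => by
    rcases hg01 ω with h | h <;> rw [h] <;> norm_num
  have hbadd : ∀ i, Dep ((AE.ch i).box (r / 2) : Set Φ)ᶜ (fun ω => 1 - good ω) := fun i ω ω' h => by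
    have := hgd i ω ω' h
    simp only [this]
  have k2 := hup AE hIC hI hS hr (WZ Q F ψ Z) (fun ω => 1 - good ω) (AU.abs_WZ_le CE) hbad01 hbadd
  have hbad : av F (fun ω => 1 - good ω) = 1 - av F good := by
    rw [av_sub, av_const]
  rw [hbad] at k2
  have hA0 : 0 ≤ prF A := Finset.prod_nonneg fun i _ =>
    Kd.sF_nonneg (h0.le.trans (ht i)) _ _
  -- the decomposition
  have k3 : av F (fun ω => WZ Q F ψ Z ω * (e ω * if PX A D x (off D G ω) then (1 : ℝ) else 0)) -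
      av F (fun ω => |WZ Q F ψ Z ω| * (1 - good ω)) ≤ av F (WZ Q F ψ Z) := by
    rw [← av_sub]
    refine av_mono fun T _ => ?_
    set w := WZ Q F ψ Z (ind T)
    set y : ℝ := e (ind T) * if PX A D x (off D G (ind T)) then (1 : ℝ) else 0 with hy
    have hy01 : y = 0 ∨ y = 1 := by
      rw [hy]
      rcases he01 (ind T) with h | h <;> rw [h] <;> split_ifs <;> norm_num
    rcases hg01 (ind T) with h | h
    · rw [h, sub_zero, mul_one]
      rcases hy01 with h' | h' <;> rw [h']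
      · have := neg_abs_le w
        linarith
      · have := abs_nonneg w
        linarith
    · have hw := hgpos (ind T) h
      rw [h, sub_self, mul_zero, sub_zero]
      rcases hy01 with h' | h' <;> rw [h']
      · linarith
      · linarith
  have hprod0 : 0 ≤ B * (pD * prF A) := by
    refine le_trans (Finset.prod_nonneg fun i _ => Kd.sF_nonneg ?_ _ _) hAE
    rcases AE.weights i with h | ⟨h, -⟩
    · exact h0.le.trans h
    · exact h.symm.le
  have hp0 : 0 ≤ pD * prF A := by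
    by_contra hn
    have := mul_neg_of_pos_of_neg hB (not_le.1 hn)
    linarith
  -- the bad event
  have hs : (1 - av F good) ^ (1 - (1 / 2 : ℝ) ^ 1) ≤ c / (K₀ * B) := by
    have e1 : (1 - (1 / 2 : ℝ) ^ 1) = 1 / 2 := by norm_num
    rw [e1, ← Real.sqrt_eq_rpow]
    refine Real.sqrt_le_iff.2 ⟨by positivity, hε⟩
  have k4 : av F (fun ω => |WZ Q F ψ Z ω| * (1 - good ω)) ≤ c * (pD * prF A) := by
    refine k2.trans ?_
    calc K₀ * (1 - av F good) ^ (1 - (1 / 2 : ℝ) ^ 1) * ∏ i, sF (AE.K i) (AE.m i) r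
        ≤ K₀ * (c / (K₀ * B)) * (B * (pD * prF A)) := by
          refine mul_le_mul (mul_le_mul_of_nonneg_left hs hK.le) hAE ?_ (by positivity)
          refine Finset.prod_nonneg fun i _ => Kd.sF_nonneg ?_ _ _
          rcases AE.weights i with h | ⟨h, -⟩
          · exact h0.le.trans h
          · exact h.symm.le
      _ = c * (pD * prF A) := by
          field_simp
  have k5 : c₁ * (cD * (pD * prF A)) ≤ c₁ * (av F (fun ω => f ω * e ω) * prF A) := by
    refine mul_le_mul_of_nonneg_left ?_ hc₁.le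
    calc cD * (pD * prF A) = cD * pD * prF A := by ring
      _ ≤ _ := mul_le_mul_of_nonneg_right hpD hA0
  have k6 : c₁ * (cD * (pD * prF A)) = 2 * (c * (pD * prF A)) := by
    rw [hc]
    ring
  linarith

open Classical in
/-- **LOWER for a polygon with positive weights and an extra event `x`.** -/
theorem lowD (nS nN : ℕ) (t₀ x₀ : ℝ) (h0 : 0 < t₀) (h1 : t₀ ≤ 1) (hx₀ : 0 < x₀) :
    ∃ c : ℝ, 0 < c ∧ ∀ {V Φ : Type} [DecidableEq V] [DecidableEq Φ] {Q : QC V Φ}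
      {F : Finset Φ} {ψ : V × V → ℝ} {Z : Finset (V × V)} {r : ℕ}
      (A : Atlas Q F ψ Z r nS nN t₀) {CE : Cells Q F ψ Z (A.ι ⊕ A.μ) A.κ}
      (D : Φ → Bool) (x : (Φ → Bool) → Prop),
      IsCells A CE → CE.S = Finset.univ → CE.Exact → Col A.toP D →
      (∀ ω, XZ A.toP ω → CE.X ω = 0) → (∀ ω, XZ A.toP ω → ∀ a ∈ Z, mate Q F ω a ∈ Z) →
      Ext A.toP D x → x₀ ≤ av F (fun ω => if x ω then (1 : ℝ) else 0) → 0 < r →
      (∀ i, t₀ ≤ sT (A.K i)) → (∀ ω, 0 ≤ WZ Q F ψ Z ω) →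
      c * ∏ i, sF (A.K i) (A.m i) r ≤
        av F (fun ω => WZ Q F ψ Z ω * if x ω then (1 : ℝ) else 0) := by
  obtain ⟨c, hc, hlow⟩ := low_prod nS nN t₀ x₀ h0 h1 hx₀
  refine ⟨c, hc, ?_⟩
  intro V Φ _ _ Q F ψ Z r A CE D x hIC hS hEx H hX hm hxE hxP hr ht hpos
  have k1 := hlow A.toP D x ∅ (fun ω => WZ Q F ψ Z ω * if x ω then (1 : ℝ) else 0) (fun _ => 1)
    (fun _ => 1) H hxE hxP hr ht (fun i => by simp) (fun _ _ _ => rfl) (fun _ _ _ => rfl)
    (fun _ => zero_le_one) (fun _ => Or.inr rfl) (by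
      intro ω hω _
      have e1 : off D (∅ : Finset Φ) ω = ω := by
        funext f
        exact off_of (by simp)
      rw [e1] at hω
      have h2 := hω.1.xz H
      show 1 * wtS A.toP ω ≤ WZ Q F ψ Z ω * if x ω then (1 : ℝ) else 0
      rw [if_pos hω.2, mul_one, one_mul, CE.WZ_eq hEx (hX ω h2) (hm ω h2), hS]
      refine le_of_eq ?_
      unfold wtS
      refine Finset.prod_congr rfl fun i _ => ?_
      rw [hIC.t, hIC.Nb]
      rfl)
  have e2 : av F (fun _ => (1 : ℝ) * 1) = 1 := by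
    rw [one_mul]
    exact av_const _
  rw [e2, one_mul] at k1
  refine k1.trans (av_mono fun T _ => ?_)
  have h3 : 0 ≤ WZ Q F ψ Z (ind T) * if x (ind T) then (1 : ℝ) else 0 :=
    mul_nonneg (hpos _) (by split_ifs <;> norm_num)
  rw [one_mul]
  by_cases h4 : PX A.toP D x (off D ∅ (ind T))
  · rw [if_pos h4, mul_one]
  · rw [if_neg h4, mul_zero]
    exact h3

end

end Pool.Agent.SixB.LowP
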