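import Pool.Agent.Lib.SixB.S3AtlCells
import Pool.Agent.Lib.SixB.S3AtlLowW
import Pool.Agent.Lib.SixB.S3LowE

/-!
# 6BD, step 3: LOWER for an atlas, final form

* `atlas_lower`, `atlas_lower_own`, `atlas_lower_pos`, `atlas_lower_x` (with an extra event).
* `IsPCells.X_zero`: no strand crosses a cell of a partial atlas, `IsPCells.mates`.
-/

set_option autoImplicit false
set_option linter.unusedSectionVars false

namespace Pool.Agent.SixB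

open Finset Pool.Agent.Perc.Q Pool.Agent.Perc

noncomputable section

attribute [local instance] Atlas.fκ Atlas.dκ

/-! ## Crossings of the cells of a partial atlas -/

section

variable {V Φ : Type} [DecidableEq V] [DecidableEq Φ] {Q : QC V Φ} {F : Finset Φ} {ψ : V × V → ℝ}
  {Z Z₁ C : Finset (V × V)} {r nS nN : ℕ} {t₀ : ℝ} {ω : Φ → Bool}

/-- no strand crosses a cell -/
theorem IsPCells.X_zero {A : PAtlas Q F ψ Z C r nS nN t₀} {D : Cells Q F ψ Z₁ (A.ι ⊕ A.μ) A.κ}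
    (h : IsPCells A D) (hX : LowP.XZ A ω) : D.X ω = 0 := by
  obtain ⟨h1, h2, h3⟩ := hX
  unfold Cells.X
  have e1 : ∑ i ∈ D.I, Cell.Xc Q F (D.G₀ i) (D.G i) ω = 0 := by
    refine Finset.sum_eq_zero fun k _ => ?_
    rcases k with i | i
    · rw [h.nG₀, h.nG]
      exact h2 i
    · rw [h.mG₀, h.mG]
      exact h3 i
  have e2 : ∑ v ∈ D.S, Cell.Xc Q F (D.B₁ v) (D.B v) ω = 0 := by
    refine Finset.sum_eq_zero fun i _ => ?_
    rw [h.B₁, h.B]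
    exact h1 i
  rw [e1, e2]

/-- all mates of `Z₁` are in `Z₁` -/
theorem IsPCells.mates {A : PAtlas Q F ψ Z C r nS nN t₀} {D : Cells Q F ψ Z₁ (A.ι ⊕ A.μ) A.κ}
    (h : IsPCells A D) (hw : ∀ i, (A.ch i).walls (4 * r) ⊆ Z₁)
    (hn : ∀ i, (A.nch i).walls (2 * r) ⊆ Z₁)
    (hm : ∀ i j, (mthWall (A.lf i) (A.w i) (2 * r) (A.h i) (A.l i) j).image (A.mch i).side ⊆ Z₁)
    (hX : LowP.XZ A ω) : ∀ a ∈ Z₁, mate Q F ω a ∈ Z₁ := by
  classical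
  refine D.mates_of_X (h.X_zero hX) ?_ ?_
  · rintro (i | i) - b hb hF
    · rw [h.nG] at hb
      exact hn i (S3T.mem_walls (A.nch i) (A.m'_rng i).1 (A.m'_rng i).2 (by omega) hb hF)
    · rw [h.mG] at hb
      obtain ⟨e1, e2, e3⟩ := A.h_lt i
      obtain ⟨j, hj⟩ := S3T.mem_mW (A.mch i) e1 (by omega) (by omega) (by omega) (by omega) hb hF
      exact hm i j hj
  · intro i _ b hb hF
    rw [h.B] at hb
    exact hw i (S3T.mem_walls (A.ch i) (A.m_rng i).1 (A.m_rng i).2 (by omega) hb hF)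

/-- **No crossing of a cell: the weight is local.** -/
theorem IsPCells.WZ_eq {A : PAtlas Q F ψ Z C r nS nN t₀} {D : Cells Q F ψ Z₁ (A.ι ⊕ A.μ) A.κ}
    (h : IsPCells A D) (hw : ∀ i, (A.ch i).walls (4 * r) ⊆ Z₁)
    (hn : ∀ i, (A.nch i).walls (2 * r) ⊆ Z₁)
    (hm : ∀ i j, (mthWall (A.lf i) (A.w i) (2 * r) (A.h i) (A.l i) j).image (A.mch i).side ⊆ Z₁)
    (hX : LowP.XZ A ω) : WZ Q F ψ Z₁ ω = LowP.wtS A ω := by
  classical
  rw [D.WZ_eq h.exact (h.X_zero hX) (h.mates hw hn hm hX), h.S]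
  unfold LowP.wtS
  refine Finset.prod_congr rfl fun i _ => ?_
  rw [h.t]
  congr 1
  exact h.Nb i ω

end

/-! ## LOWER -/

/-- **LOWER**, no weight vanishes. -/
theorem atlas_lower (nS nN : ℕ) (t₀ : ℝ) (h0 : 0 < t₀) (h1 : t₀ ≤ 1) :
    ∃ c K₀ : ℝ, 0 < c ∧ 0 < K₀ ∧ ∀ {V Φ : Type} [DecidableEq V] [DecidableEq Φ] {Q : QC V Φ}
      {F : Finset Φ} {ψ : V × V → ℝ} {Z : Finset (V × V)} {r : ℕ} (A : Atlas Q F ψ Z r nS nN t₀)
      {D : Φ → Bool}, Bk.Colr A D → 0 < r → (∀ i, sT (A.K i) ≠ 0) →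
      ∀ good : (Φ → Bool) → ℝ, (∀ ω, good ω = 0 ∨ good ω = 1) →
      (∀ i, Dep ((A.ch i).box (r / 2) : Set Φ)ᶜ good) → (∀ ω, good ω = 1 → 0 ≤ WZ Q F ψ Z ω) →
      (c - K₀ * Real.sqrt (1 - av F good)) * ∏ i, sF (A.K i) (A.m i) r ≤ av F (WZ Q F ψ Z) := by
  obtain ⟨c, K₀, hc, hK, h⟩ := atlasC_lower nS nN t₀ h0 h1
  refine ⟨c, K₀, hc, hK, ?_⟩
  intro V Φ _ _ Q F ψ Z r A D hD hr hne good hg hgd hpos
  exact h A hD (A.isCells hr h0.le) (A.cells_exact hr h0.le) (A.cells_cardI hr h0.le) rfl hr hne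
    good hg hgd hpos

/-- **LOWER**, vertices of weight `0` have own colour. -/
theorem atlas_lower_own (nS nN : ℕ) (t₀ : ℝ) (h0 : 0 < t₀) (h1 : t₀ ≤ 1) :
    ∃ c K₀ : ℝ, 0 < c ∧ 0 < K₀ ∧ ∀ {V Φ : Type} [DecidableEq V] [DecidableEq Φ] {Q : QC V Φ}
      {F : Finset Φ} {ψ : V × V → ℝ} {Z : Finset (V × V)} {r : ℕ} (A : Atlas Q F ψ Z r nS nN t₀)
      {D : Φ → Bool} (hD : Bk.Colr A D), AtlZ.Own A hD → 0 < r →
      ∀ good : (Φ → Bool) → ℝ, (∀ ω, good ω = 0 ∨ good ω = 1) →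
      (∀ i, Dep ((A.ch i).box (r / 2) : Set Φ)ᶜ good) → (∀ ω, good ω = 1 → 0 ≤ WZ Q F ψ Z ω) →
      (c - K₀ * Real.sqrt (1 - av F good)) * ∏ i, sF (A.K i) (A.m i) r ≤ av F (WZ Q F ψ Z) := by
  obtain ⟨c, K₀, hc, hK, h⟩ := atlasC_lower_own nS nN t₀ h0 h1
  refine ⟨c, K₀, hc, hK, ?_⟩
  intro V Φ _ _ Q F ψ Z r A D hD hO hr good hg hgd hpos
  exact h A hD hO (A.isCells hr h0.le) (A.cells_exact hr h0.le) (A.cells_cardI hr h0.le) rfl hr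
    good hg hgd hpos

/-- **LOWER**, nonnegative weight, vertices of weight `0` have own colour. -/
theorem atlas_lower_pos (nS nN : ℕ) (t₀ : ℝ) (h0 : 0 < t₀) (h1 : t₀ ≤ 1) :
    ∃ c : ℝ, 0 < c ∧ ∀ {V Φ : Type} [DecidableEq V] [DecidableEq Φ] {Q : QC V Φ}
      {F : Finset Φ} {ψ : V × V → ℝ} {Z : Finset (V × V)} {r : ℕ} (A : Atlas Q F ψ Z r nS nN t₀)
      {D : Φ → Bool} (hD : Bk.Colr A D), AtlZ.Own A hD → 0 < r → (∀ ω, 0 ≤ WZ Q F ψ Z ω) →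
      c * ∏ i, sF (A.K i) (A.m i) r ≤ av F (WZ Q F ψ Z) := by
  obtain ⟨c, hc, h⟩ := atlasC_lower_pos nS nN t₀ h0 h1
  refine ⟨c, hc, ?_⟩
  intro V Φ _ _ Q F ψ Z r A D hD hO hr hpos
  exact h A hD hO (A.isCells hr h0.le) (A.cells_exact hr h0.le) (A.cells_cardI hr h0.le) rfl hr hpos

open Classical in
/-- **LOWER with an extra event `x`**, all weights at least `t₀`. -/
theorem atlas_lower_x (nS nN : ℕ) (t₀ x₀ : ℝ) (h0 : 0 < t₀) (h1 : t₀ ≤ 1) (hx₀ : 0 < x₀) :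
    ∃ c : ℝ, 0 < c ∧ ∀ {V Φ : Type} [DecidableEq V] [DecidableEq Φ] {Q : QC V Φ}
      {F : Finset Φ} {ψ : V × V → ℝ} {Z : Finset (V × V)} {r : ℕ}
      (A : Atlas Q F ψ Z r nS nN t₀) (D : Φ → Bool) (x : (Φ → Bool) → Prop),
      LowP.Col A.toP D → LowP.Ext A.toP D x →
      x₀ ≤ av F (fun ω => if x ω then (1 : ℝ) else 0) → 0 < r →
      (∀ i, t₀ ≤ sT (A.K i)) → (∀ ω, 0 ≤ WZ Q F ψ Z ω) →
      c * ∏ i, sF (A.K i) (A.m i) r ≤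
        av F (fun ω => WZ Q F ψ Z ω * if x ω then (1 : ℝ) else 0) := by
  obtain ⟨c, hc, h⟩ := LowP.lowD nS nN t₀ x₀ h0 h1 hx₀
  refine ⟨c, hc, ?_⟩
  intro V Φ _ _ Q F ψ Z r A D x hC hE hx hr ht hpos
  have hP := A.cells_isP hr h0.le
  exact h A D x (A.isCells hr h0.le) rfl (A.cells_exact hr h0.le) hC (fun ω hω => hP.X_zero hω)
    (fun ω hω => hP.mates A.chZ A.nZ A.mZ hω) hE hx hr ht hpos

end

end Pool.Agent.SixB
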