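import Pool.Agent.Lib.SixB.S3Chain

/-!
# SixB, step 3: weighted quasi-multiplicativity for events, Hoelder exponent near 1

`ExpSys.event_le`: `E[a G] ≤ P(a)^(1 - 2^-s) (E[G^(2^s)])^(2^-s)` for an indicator `a`.
`qm_event`: for an event `a` and a function `Z ≥ 0` which depend on the faces outside the boxes `B v 1`:
`E[∏ t_v^{N v 0} a Z] ≤ C^{|V|} ∏ F_v P(a)^(1 - 2^-s) (E[Z^(2^(s+1))])^(2^-(s+1))`, uniform constants.
The version `qm_upper` of `S3Chain` gives only `P(a)^(1/2)`; step 3.8 needs an exponent near `1`.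
-/

set_option autoImplicit false
set_option linter.unusedVariables false

namespace Pool.Agent.SixB

open Finset

/-- iterated square root `x ^ (2 ^ -s)` -/
noncomputable def rt : ℕ → ℝ → ℝ
  | 0, x => x
  | s + 1, x => Real.sqrt (rt s x)

theorem rt_nonneg {x : ℝ} (hx : 0 ≤ x) : ∀ s : ℕ, 0 ≤ rt s x
  | 0 => hx
  | _ + 1 => Real.sqrt_nonneg _

theorem rt_mono {x y : ℝ} (h : x ≤ y) : ∀ s : ℕ, rt s x ≤ rt s y
  | 0 => h
  | s + 1 => Real.sqrt_le_sqrt (rt_mono h s)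

theorem rt_mul {x y : ℝ} (hx : 0 ≤ x) (hy : 0 ≤ y) : ∀ s : ℕ, rt s (x * y) = rt s x * rt s y
  | 0 => rfl
  | s + 1 => by
    simp only [rt]
    rw [rt_mul hx hy s, Real.sqrt_mul (rt_nonneg hx s)]

theorem rt_pow {x : ℝ} (hx : 0 ≤ x) (s : ℕ) : rt s (x ^ (2 ^ s)) = x := by
  induction s with
  | zero => simp [rt]
  | succ s ih =>
    have e : x ^ (2 ^ (s + 1)) = x ^ (2 ^ s) * x ^ (2 ^ s) := by
      rw [← pow_add]
      congr 1
      ring
    simp only [rt]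
    rw [e, rt_mul (pow_nonneg hx _) (pow_nonneg hx _), ih, Real.sqrt_mul_self hx]

theorem rt_succ' (x : ℝ) (hx : 0 ≤ x) (s : ℕ) : rt s (Real.sqrt x) = rt (s + 1) x := by
  induction s with
  | zero => rfl
  | succ s ih =>
    simp only [rt] at ih ⊢
    rw [ih]

theorem rt_one (s : ℕ) : rt s 1 = 1 := by
  have h := rt_pow (zero_le_one (α := ℝ)) s
  rwa [one_pow] at h

theorem rt_eq_rpow {x : ℝ} (hx : 0 ≤ x) (s : ℕ) : rt s x = x ^ ((1 / 2 : ℝ) ^ s) := by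
  induction s with
  | zero => simp [rt]
  | succ s ih =>
    simp only [rt]
    rw [ih, Real.sqrt_eq_rpow, ← Real.rpow_mul hx, pow_succ]

namespace ExpSys

variable {Ω ι : Type*} (P : ExpSys Ω ι)

/-- Hoelder inequality for an event, exponent near `1` -/
theorem event_le (a : Ω → ℝ) (ha : ∀ ω, a ω = 0 ∨ a ω = 1) (s : ℕ) :
    ∀ G : Ω → ℝ, (∀ ω, 0 ≤ G ω) → P.E (fun ω => a ω * G ω) ≤
      P.E a ^ (1 - (1 / 2 : ℝ) ^ s) * rt s (P.E (fun ω => G ω ^ (2 ^ s))) := by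
  have ha0 : ∀ ω, 0 ≤ a ω := fun ω => by rcases ha ω with h | h <;> rw [h]; norm_num
  have hP0 : 0 ≤ P.E a := P.E_nonneg ha0
  induction s with
  | zero =>
    intro G hG
    simp only [pow_zero, sub_self, Real.rpow_zero, one_mul, rt, pow_one]
    refine P.mono _ _ fun ω => ?_
    rcases ha ω with h | h <;> rw [h]
    · rw [zero_mul]; exact hG ω
    · rw [one_mul]
  | succ s ih =>
    intro G hG
    have h1 := P.cs_sqrt a (fun ω => a ω * G ω)
    have e1 : (fun ω => a ω * (a ω * G ω)) = fun ω => a ω * G ω := by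
      funext ω
      rcases ha ω with h | h <;> rw [h] <;> ring
    have e2 : (fun ω => a ω ^ 2) = a := by
      funext ω
      rcases ha ω with h | h <;> rw [h] <;> norm_num
    have e3 : (fun ω => (a ω * G ω) ^ 2) = fun ω => a ω * G ω ^ 2 := by
      funext ω
      rcases ha ω with h | h <;> rw [h] <;> ring
    rw [e1, e2, e3] at h1
    refine h1.trans ?_
    have h2 := ih (fun ω => G ω ^ 2) (fun ω => sq_nonneg _)
    have e4 : (fun ω => (G ω ^ 2) ^ (2 ^ s)) = fun ω => G ω ^ (2 ^ (s + 1)) := by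
      funext ω
      rw [← pow_mul]
      congr 1
      ring
    rw [e4] at h2
    have hG0 : 0 ≤ P.E (fun ω => G ω ^ (2 ^ (s + 1))) := P.E_nonneg fun ω => pow_nonneg (hG ω) _
    have h3 := Real.sqrt_le_sqrt h2
    rw [Real.sqrt_mul (Real.rpow_nonneg hP0 _)] at h3
    refine (mul_le_mul_of_nonneg_left h3 (Real.sqrt_nonneg _)).trans (le_of_eq ?_)
    simp only [rt]
    rw [← mul_assoc]
    congr 1
    rw [Real.sqrt_eq_rpow, Real.sqrt_eq_rpow, ← Real.rpow_mul hP0]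
    have h5 : (1 / 2 : ℝ) ^ s ≤ 1 := pow_le_one₀ (by norm_num) (by norm_num)
    have h6 : (0 : ℝ) ≤ (1 - (1 / 2 : ℝ) ^ s) * (1 / 2) := by
      have : 0 ≤ 1 - (1 / 2 : ℝ) ^ s := by linarith
      positivity
    rw [← Real.rpow_add_of_nonneg hP0 (by norm_num) h6]
    congr 1
    rw [pow_succ]
    ring

/-- an event times a function -/
theorem event_mul_le (a : Ω → ℝ) (ha : ∀ ω, a ω = 0 ∨ a ω = 1) (Z : Ω → ℝ) (hZ : ∀ ω, 0 ≤ Z ω)
    (s : ℕ) (H : Ω → ℝ) (hH : ∀ ω, 0 ≤ H ω) :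
    P.E (fun ω => (a ω * Z ω) * H ω) ≤
      (P.E a ^ (1 - (1 / 2 : ℝ) ^ s) * rt (s + 1) (P.E (fun ω => Z ω ^ (2 ^ (s + 1))))) *
        rt (s + 1) (P.E (fun ω => H ω ^ (2 ^ (s + 1)))) := by
  have ha0 : ∀ ω, 0 ≤ a ω := fun ω => by rcases ha ω with h | h <;> rw [h]; norm_num
  have hP0 : 0 ≤ P.E a := P.E_nonneg ha0
  have h1 := P.event_le a ha s (fun ω => Z ω * H ω) (fun ω => mul_nonneg (hZ ω) (hH ω))
  have e1 : (fun ω => (a ω * Z ω) * H ω) = fun ω => a ω * (Z ω * H ω) := by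
    funext ω
    ring
  rw [e1]
  refine h1.trans ?_
  rw [mul_assoc]
  refine mul_le_mul_of_nonneg_left ?_ (Real.rpow_nonneg hP0 _)
  have h2 := P.cs_sqrt (fun ω => Z ω ^ (2 ^ s)) (fun ω => H ω ^ (2 ^ s))
  have e2 : ∀ f : Ω → ℝ, (fun ω => (f ω ^ (2 ^ s)) ^ 2) = fun ω => f ω ^ (2 ^ (s + 1)) := by
    intro f
    funext ω
    rw [← pow_mul]
    congr 1
  have e3 : (fun ω => (Z ω * H ω) ^ (2 ^ s)) = fun ω => Z ω ^ (2 ^ s) * H ω ^ (2 ^ s) := by
    funext ω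
    rw [mul_pow]
  rw [e3]
  rw [e2, e2] at h2
  refine (rt_mono h2 s).trans (le_of_eq ?_)
  have hz : 0 ≤ P.E (fun ω => Z ω ^ (2 ^ (s + 1))) := P.E_nonneg fun ω => pow_nonneg (hZ ω) _
  have hh : 0 ≤ P.E (fun ω => H ω ^ (2 ^ (s + 1))) := P.E_nonneg fun ω => pow_nonneg (hH ω) _
  rw [rt_mul (Real.sqrt_nonneg _) (Real.sqrt_nonneg _), rt_succ' _ hz, rt_succ' _ hh]

end ExpSys

section chain

variable {Ω ι κ : Type*} (P : ExpSys Ω ι)

/-- moments of the truncated product -/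
theorem chG_pow {m : ℕ} {T : ℝ} (hT : 1 ≤ T) {B : ℕ → Set ι} (hB : ∀ j, B (j + 1) ⊆ B j)
    {M : ℕ → Ω → ℕ} (hM : ∀ j, P.Dep (B j \ B (j + 2)) (M j)) (d : ℝ) (hd0 : 0 ≤ d) (q : ℕ)
    (hq : 0 < q) (hd : ∀ j, P.E (fun ω => if m < M j ω then T ^ (2 * q * M j ω) else 0) ≤
      d ^ (2 * q)) (k : ℕ) :
    P.E (fun ω => chG m T M k ω ^ q) ≤ (d ^ k) ^ q := by
  have hT0 : (0 : ℝ) ≤ T := by linarith
  set g : ℕ → Ω → ℝ := fun j ω => if m < M j ω then T ^ (q * M j ω) else 0 with hg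
  set g2 : ℕ → Ω → ℝ := fun j ω => if m < M j ω then T ^ (2 * q * M j ω) else 0 with hg2
  have hg2dep : ∀ j, P.Dep (B j \ B (j + 2)) (g2 j) := fun j =>
    (hM j).comp fun n => if m < n then T ^ (2 * q * n) else 0
  have hg20 : ∀ j ω, 0 ≤ g2 j ω := by
    intro j ω
    simp only [hg2]
    split_ifs
    · exact pow_nonneg hT0 _
    · exact le_rfl
  have hsq : ∀ j ω, g j ω ^ 2 = g2 j ω := by
    intro j ω
    simp only [hg, hg2]
    split_ifs
    · rw [← pow_mul]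
      congr 1
      ring
    · simp
  have e1 : (fun ω => chG m T M k ω ^ q) = fun ω =>
      (∏ i ∈ Finset.range ((k + 1) / 2), g (2 * i + 0) ω) *
        ∏ i ∈ Finset.range (k / 2), g (2 * i + 1) ω := by
    funext ω
    rw [← split_prod (fun i => g i ω) k]
    unfold chG
    rw [← Finset.prod_pow]
    refine Finset.prod_congr rfl fun i _ => ?_
    simp only [hg]
    split_ifs
    · rw [← pow_mul, mul_comm]
    · rw [zero_pow hq.ne']
  rw [e1]
  refine (P.cs_sqrt _ _).trans ?_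
  have h1 : ∀ s n : ℕ, P.E (fun ω => (∏ i ∈ Finset.range n, g (2 * i + s) ω) ^ 2) ≤
      (d ^ (2 * q)) ^ n := by
    intro s n
    have e2 : (fun ω => (∏ i ∈ Finset.range n, g (2 * i + s) ω) ^ 2) =
        fun ω => ∏ i ∈ Finset.range n, g2 (2 * i + s) ω := by
      funext ω
      rw [← Finset.prod_pow]
      exact Finset.prod_congr rfl fun i _ => hsq _ _
    rw [e2]
    exact (par_prod P hB hg2dep hg20 (d ^ (2 * q)) (pow_nonneg hd0 _) hd s n).1
  have h2 : ∀ s n : ℕ, Real.sqrt (P.E (fun ω => (∏ i ∈ Finset.range n, g (2 * i + s) ω) ^ 2)) ≤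
      d ^ (q * n) := by
    intro s n
    refine Real.sqrt_le_iff.2 ⟨pow_nonneg hd0 _, (h1 s n).trans (le_of_eq ?_)⟩
    rw [← pow_mul, ← pow_mul]
    congr 1
    ring
  calc _ ≤ d ^ (q * ((k + 1) / 2)) * d ^ (q * (k / 2)) :=
        mul_le_mul (h2 0 _) (h2 1 _) (Real.sqrt_nonneg _) (pow_nonneg hd0 _)
    _ = (d ^ k) ^ q := by
      rw [← pow_add, ← pow_mul, ← mul_add, mul_comm k q]
      congr 2
      omega

variable (B : κ → ℕ → Set ι) (N M : κ → ℕ → Ω → ℕ) (t : κ → ℝ)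

/-- chain lemma for a function `Y` controlled by a norm with a large exponent of the other factor -/
theorem chain_hold (hB : ∀ v j, B v (j + 1) ⊆ B v j)
    (hdis : ∀ v v', v ≠ v' → Disjoint (B v 0) (B v' 0))
    (hN : ∀ v j, P.Dep (B v j) (N v j)) (hM : ∀ v j, P.Dep (B v j \ B v (j + 2)) (M v j))
    (hN1 : ∀ v j ω, N v (j + 1) ω ≤ N v j ω) (hN2 : ∀ v j ω, N v j ω ≤ N v (j + 1) ω + M v j ω)
    (J : ℕ) (hJ : ∀ v j, J ≤ j → ∀ ω, N v j ω = 0) (ht : ∀ v, 0 ≤ t v) (T : ℝ) (hT : 1 ≤ T)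
    (htT : ∀ v, t v ≤ T) (m : ℕ) (d : ℝ) (hd0 : 0 ≤ d) (s : ℕ)
    (hd : ∀ v j, P.E (fun ω => if m < M v j ω then T ^ (2 * 2 ^ s * M v j ω) else 0) ≤
      d ^ (2 * 2 ^ s))
    (A : ℝ) (hA0 : 0 ≤ A)
    (hA : ∀ v j, P.E (fun ω => t v ^ N v (j + 1) ω) ≤ A * P.E (fun ω => t v ^ N v j ω))
    (hAd : A * d ≤ 1 / 2) (Y : Ω → ℝ) (hY : ∀ ω, 0 ≤ Y ω) (Λ : ℝ) (hΛ0 : 0 ≤ Λ)
    (hΛ : ∀ H : Ω → ℝ, (∀ ω, 0 ≤ H ω) →
      P.E (fun ω => Y ω * H ω) ≤ Λ * rt s (P.E (fun ω => H ω ^ (2 ^ s)))) (V : Finset κ) :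
    ∀ (H : Ω → ℝ) (S : Set ι), (∀ ω, 0 ≤ H ω) →
      (∀ v ∈ V, P.Dep (B v 1)ᶜ Y) → P.Dep S H → (∀ v ∈ V, Disjoint S (B v 0)) →
      P.E (fun ω => (∏ v ∈ V, t v ^ N v 0 ω) * (Y ω * H ω)) ≤
        (∏ v ∈ V, (2 * A * T ^ m * P.E (fun ω => t v ^ N v 0 ω))) *
          (Λ * rt s (P.E (fun ω => H ω ^ (2 ^ s)))) := by
  classical
  have hT0 : (0 : ℝ) ≤ T := by linarith
  have hq : 0 < 2 ^ s := by positivity
  have hF0 : ∀ v j, 0 ≤ P.E (fun ω => t v ^ N v j ω) := fun v j =>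
    P.E_nonneg fun ω => pow_nonneg (ht v) _
  have hFk : ∀ v k, P.E (fun ω => t v ^ N v k ω) ≤ A ^ k * P.E (fun ω => t v ^ N v 0 ω) := by
    intro v k
    induction k with
    | zero => simp
    | succ k ih =>
      refine (hA v k).trans ?_
      rw [pow_succ', mul_assoc]
      exact mul_le_mul_of_nonneg_left ih hA0
  have hgeo : ∀ n : ℕ, ∑ k ∈ Finset.range n, (A * d) ^ k ≤ 2 := by
    intro n
    have h0 : 0 ≤ A * d := mul_nonneg hA0 hd0
    have h1 : ∑ k ∈ Finset.range n, (A * d) ^ k ≤ ∑ k ∈ Finset.range n, (1 / 2 : ℝ) ^ k :=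
      Finset.sum_le_sum fun k _ => pow_le_pow_left₀ h0 hAd k
    refine h1.trans ?_
    have h2 := geom_sum_eq (show (1 / 2 : ℝ) ≠ 1 by norm_num) n
    rw [h2]
    have h3 : (0 : ℝ) ≤ (1 / 2 : ℝ) ^ n := by positivity
    have e : ((1 / 2 : ℝ) ^ n - 1) / (1 / 2 - 1) = 2 * (1 - (1 / 2 : ℝ) ^ n) := by ring
    rw [e]
    linarith
  induction V using Finset.induction_on with
  | empty =>
    intro H S hH hYd hHd hSd
    simp only [Finset.prod_empty, one_mul]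
    exact hΛ H hH
  | insert a V ha ih =>
    intro H S hH hYd hHd hSd
    have haV : ∀ v ∈ V, v ≠ a := fun v hv h => ha (h ▸ hv)
    set G : ℕ → Ω → ℝ := fun k => chG m T (M a) k with hG
    have hG0 : ∀ k ω, 0 ≤ G k ω := fun k ω => chG_nonneg hT (M a) k ω
    have hGd : ∀ k, P.Dep (B a 0 \ B a (k + 1)) (G k) := fun k => chG_dep P (hB a) (hM a) k
    set R : ℕ → Ω → ℝ := fun k ω => (∏ v ∈ V, t v ^ N v 0 ω) * (Y ω * (G k ω * H ω)) with hR
    have hR0 : ∀ k ω, 0 ≤ R k ω := by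
      intro k ω
      have h1 : 0 ≤ ∏ v ∈ V, t v ^ N v 0 ω := Finset.prod_nonneg fun v _ => pow_nonneg (ht v) _
      exact mul_nonneg h1 (mul_nonneg (hY ω) (mul_nonneg (hG0 k ω) (hH ω)))
    have hRd : ∀ k, P.Dep (B a (k + 1))ᶜ (R k) := by
      intro k
      have h1 : P.Dep (B a (k + 1))ᶜ (fun ω => ∏ v ∈ V, t v ^ N v 0 ω) := by
        refine ExpSys.Dep.prod _ _ fun v hv => ?_
        have h2 : P.Dep (B a (k + 1))ᶜ (N v 0) := by
          refine (hN v 0).mono ?_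
          intro x hx hx'
          exact Set.disjoint_left.1 (hdis v a (haV v hv)) hx (box_anti (hB a) (Nat.zero_le _) hx')
        exact h2.comp fun n => t v ^ n
      have h2 : P.Dep (B a (k + 1))ᶜ Y := by
        refine (hYd a (Finset.mem_insert_self _ _)).mono ?_
        exact Set.compl_subset_compl.2 (box_anti (hB a) (by omega))
      have h3 : P.Dep (B a (k + 1))ᶜ (G k) := (hGd k).mono fun x hx => hx.2
      have h4 : P.Dep (B a (k + 1))ᶜ H := by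
        refine hHd.mono ?_
        intro x hx hx'
        exact Set.disjoint_left.1 (hSd a (Finset.mem_insert_self _ _)) hx
          (box_anti (hB a) (Nat.zero_le _) hx')
      exact h1.comp2 (h2.comp2 (h3.comp2 h4 fun x y : ℝ => x * y) fun x y : ℝ => x * y)
        fun x y : ℝ => x * y
    have hexp : P.E (fun ω => (∏ v ∈ insert a V, t v ^ N v 0 ω) * (Y ω * H ω)) ≤
        ∑ k ∈ Finset.range (J + 1), T ^ m * (P.E (fun ω => t a ^ N a (k + 1) ω) * P.E (R k)) := by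
      have h1 : ∀ ω, (∏ v ∈ insert a V, t v ^ N v 0 ω) * (Y ω * H ω) ≤
          ∑ k ∈ Finset.range (J + 1), T ^ m * (t a ^ N a (k + 1) ω * R k ω) := by
        intro ω
        rw [Finset.prod_insert ha]
        have h2 := chain_pt m (t a) T (ht a) hT (htT a) (N a) (M a) (hN1 a) (hN2 a) J ω
        have h3 : t a ^ N a 0 ω ≤ ∑ k ∈ Finset.range (J + 1),
            T ^ m * (t a ^ N a (k + 1) ω * G k ω) := by
          refine h2.trans ?_
          rw [Finset.sum_range_succ]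
          refine add_le_add le_rfl ?_
          rw [hJ a J le_rfl ω, hJ a (J + 1) (by omega) ω]
          have h4 : (1 : ℝ) ≤ T ^ m := one_le_pow₀ hT
          have h5 := hG0 J ω
          simp only [pow_zero, one_mul]
          exact le_mul_of_one_le_left h5 h4
        have h6 : 0 ≤ (∏ v ∈ V, t v ^ N v 0 ω) * (Y ω * H ω) :=
          mul_nonneg (Finset.prod_nonneg fun v _ => pow_nonneg (ht v) _)
            (mul_nonneg (hY ω) (hH ω))
        have h7 := mul_le_mul_of_nonneg_right h3 h6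
        calc t a ^ N a 0 ω * (∏ v ∈ V, t v ^ N v 0 ω) * (Y ω * H ω)
            = t a ^ N a 0 ω * ((∏ v ∈ V, t v ^ N v 0 ω) * (Y ω * H ω)) := by ring
          _ ≤ _ := h7
          _ = _ := by
            rw [Finset.sum_mul]
            refine Finset.sum_congr rfl fun k _ => ?_
            simp only [hR]
            ring
      refine (P.mono _ _ h1).trans (le_of_eq ?_)
      rw [P.E_sum]
      refine Finset.sum_congr rfl fun k _ => ?_
      rw [P.smul]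
      congr 1
      exact P.E_indep disjoint_compl_right ((hN a (k + 1)).comp fun n => t a ^ n) (hRd k)
    refine hexp.trans ?_
    set CV := ∏ v ∈ V, (2 * A * T ^ m * P.E (fun ω => t v ^ N v 0 ω)) with hCV
    have hCV0 : 0 ≤ CV := Finset.prod_nonneg fun v _ => by
      have := hF0 v 0
      positivity
    have hHE0 : 0 ≤ P.E (fun ω => H ω ^ (2 ^ s)) := P.E_nonneg fun ω => pow_nonneg (hH ω) _
    have hRk : ∀ k, P.E (R k) ≤ CV * (Λ * (d ^ k * rt s (P.E (fun ω => H ω ^ (2 ^ s))))) := by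
      intro k
      have h1 := ih (fun ω => G k ω * H ω) (S ∪ B a 0)
        (fun ω => mul_nonneg (hG0 k ω) (hH ω))
        (fun v hv => hYd v (Finset.mem_insert_of_mem hv))
        (((hGd k).mono (fun x hx => Or.inr hx.1)).comp2 (hHd.mono Set.subset_union_left)
          fun x y : ℝ => x * y)
        (fun v hv => by
          rw [Set.disjoint_union_left]
          exact ⟨hSd v (Finset.mem_insert_of_mem hv), hdis a v (haV v hv).symm⟩)
      refine h1.trans ?_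
      have h2 : P.E (fun ω => (G k ω * H ω) ^ (2 ^ s)) ≤
          (d ^ k) ^ (2 ^ s) * P.E (fun ω => H ω ^ (2 ^ s)) := by
        have e : (fun ω => (G k ω * H ω) ^ (2 ^ s)) = fun ω => G k ω ^ (2 ^ s) * H ω ^ (2 ^ s) := by
          funext ω
          rw [mul_pow]
        rw [e, P.E_indep (hSd a (Finset.mem_insert_self _ _)).symm
          (((hGd k).mono fun x hx => hx.1).comp fun x => x ^ (2 ^ s)) (hHd.comp fun x => x ^ (2 ^ s))]
        exact mul_le_mul_of_nonneg_right (chG_pow P hT (hB a) (hM a) d hd0 (2 ^ s) hq (hd a) k)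
          hHE0
      have h3 : rt s (P.E (fun ω => (G k ω * H ω) ^ (2 ^ s))) ≤
          d ^ k * rt s (P.E (fun ω => H ω ^ (2 ^ s))) := by
        refine (rt_mono h2 s).trans (le_of_eq ?_)
        rw [rt_mul (pow_nonneg (pow_nonneg hd0 _) _) hHE0, rt_pow (pow_nonneg hd0 _)]
      exact mul_le_mul_of_nonneg_left (mul_le_mul_of_nonneg_left h3 hΛ0) hCV0
    set sH := rt s (P.E (fun ω => H ω ^ (2 ^ s))) with hsH
    have hsH0 : 0 ≤ sH := rt_nonneg hHE0 s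
    set Fa := P.E (fun ω => t a ^ N a 0 ω) with hFa
    have hFa0 : 0 ≤ Fa := hF0 a 0
    have hterm : ∀ k, T ^ m * (P.E (fun ω => t a ^ N a (k + 1) ω) * P.E (R k)) ≤
        (A * T ^ m * Fa * CV * (Λ * sH)) * (A * d) ^ k := by
      intro k
      have h1 : P.E (fun ω => t a ^ N a (k + 1) ω) * P.E (R k) ≤
          (A ^ (k + 1) * Fa) * (CV * (Λ * (d ^ k * sH))) :=
        mul_le_mul (hFk a (k + 1)) (hRk k) (P.E_nonneg (hR0 k))
          (mul_nonneg (pow_nonneg hA0 _) hFa0)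
      have h2 := mul_le_mul_of_nonneg_left h1 (pow_nonneg hT0 m)
      refine h2.trans (le_of_eq ?_)
      rw [mul_pow, pow_succ]
      ring
    refine (Finset.sum_le_sum fun k _ => hterm k).trans ?_
    rw [← Finset.mul_sum, Finset.prod_insert ha]
    have hc0 : 0 ≤ A * T ^ m * Fa * CV * (Λ * sH) := by positivity
    refine (mul_le_mul_of_nonneg_left (hgeo (J + 1)) hc0).trans (le_of_eq ?_)
    ring

end chain

/-- WEIGHTED QUASI-MULTIPLICATIVITY for an event off the boxes `B v 1`, Hoelder exponent near `1`,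
uniform constants. `Z` is any nonnegative function off the boxes `B v 1`. -/
theorem qm_event (cM : ℝ → ℝ) (t₀ T A₀ : ℝ) (s : ℕ) (ht₀ : 0 < t₀) (ht₁ : t₀ ≤ 1) (hT : 1 ≤ T) :
    ∃ C : ℝ, 1 ≤ C ∧ ∀ (Ω ι κ : Type) (P : ExpSys Ω ι) (D : ChainData P κ) (t : κ → ℝ),
      D.Good t cM t₀ T A₀ → ∀ (V : Finset κ) (a Z : Ω → ℝ), (∀ ω, a ω = 0 ∨ a ω = 1) →
      (∀ ω, 0 ≤ Z ω) → (∀ v ∈ V, P.Dep (D.B v 1)ᶜ a) → (∀ v ∈ V, P.Dep (D.B v 1)ᶜ Z) →
      P.E (fun ω => (∏ v ∈ V, t v ^ D.N v 0 ω) * (a ω * Z ω)) ≤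
        C ^ V.card * (∏ v ∈ V, D.F v (t v) 0) * (P.E a ^ (1 - (1 / 2 : ℝ) ^ s) *
          P.E (fun ω => Z ω ^ (2 ^ (s + 1))) ^ ((1 / 2 : ℝ) ^ (s + 1))) := by
  obtain ⟨m₀, d₀, A, hd₀0, hA1, hAd₀, hmain⟩ := exists_consts cM t₀ T A₀ ht₀ ht₁ hT
  have hA0 : 0 < A := by linarith
  set d : ℝ := (2 * A)⁻¹ with hd
  have hd0 : 0 < d := by positivity
  set Q : ℕ := 2 * 2 ^ (s + 1) with hQ
  obtain ⟨m, hm⟩ : ∃ m : ℕ, cM (2 * T ^ Q) * ((2 : ℝ) ^ m)⁻¹ ≤ d ^ Q := by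
    obtain ⟨n, hn⟩ := pow_unbounded_of_one_lt (cM (2 * T ^ Q) / d ^ Q)
      (show (1 : ℝ) < 2 by norm_num)
    refine ⟨n, ?_⟩
    rw [div_lt_iff₀ (by positivity)] at hn
    rw [← div_eq_mul_inv, div_le_iff₀ (by positivity)]
    linarith
  have hTm : (1 : ℝ) ≤ T ^ m := one_le_pow₀ hT
  refine ⟨2 * A * T ^ m, by nlinarith, ?_⟩
  intro Ω ι κ P D t hG V a Z ha hZ had hZd
  obtain ⟨-, h2⟩ := hmain Ω ι κ P D t hG
  have ha0 : ∀ ω, 0 ≤ a ω := fun ω => by rcases ha ω with h | h <;> rw [h]; norm_num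
  have hP0 : 0 ≤ P.E a := P.E_nonneg ha0
  have hZE : 0 ≤ P.E (fun ω => Z ω ^ (2 ^ (s + 1))) := P.E_nonneg fun ω => pow_nonneg (hZ ω) _
  have hY : ∀ ω, 0 ≤ a ω * Z ω := fun ω => mul_nonneg (ha0 ω) (hZ ω)
  have h1 : ∀ v j, P.E (fun ω => if m < D.M v j ω then T ^ (2 * 2 ^ (s + 1) * D.M v j ω) else 0) ≤
      d ^ (2 * 2 ^ (s + 1)) := by
    intro v j
    refine (trunc_le P (D.M v j) T 2 _ hT (by norm_num) Q (hG.mom (2 * T ^ Q) ?_ v j) m).trans hm
    have : (1 : ℝ) ≤ T ^ Q := one_le_pow₀ hT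
    linarith
  have hAd : A * d ≤ 1 / 2 := by
    rw [hd]
    field_simp
    exact le_rfl
  have h := chain_hold P D.B D.N D.M t D.hB D.hdis D.hN D.hM D.hN1 D.hN2 D.J D.hJ hG.t_nonneg T hT
    hG.t_le m d hd0.le (s + 1) h1 A hA0.le h2 hAd (fun ω => a ω * Z ω) hY
    (P.E a ^ (1 - (1 / 2 : ℝ) ^ s) * rt (s + 1) (P.E (fun ω => Z ω ^ (2 ^ (s + 1)))))
    (mul_nonneg (Real.rpow_nonneg hP0 _) (rt_nonneg hZE _))
    (fun H hH => P.event_mul_le a ha Z hZ s H hH) V (fun _ => 1) ∅ (fun _ => zero_le_one)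
    (fun v hv => (had v hv).comp2 (hZd v hv) fun x y : ℝ => x * y) (ExpSys.Dep.const _ _)
    (fun v _ => Set.empty_disjoint _)
  simp only [mul_one, one_pow, P.one, rt_one] at h
  rw [Finset.prod_mul_distrib, Finset.prod_const, rt_eq_rpow hZE] at h
  exact h

end Pool.Agent.SixB
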