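import Pool.Agent.Lib.SixB.S3MouthA
import Pool.Agent.Lib.SixB.S3Hold

/-!
# SixB, step 3.8: comparison of two normalised means, sum over classes

`W`, `Y` (weight, weight with the height insertion) and `Wp`, `Yp` for two surfaces. The insertion is a sum of
local functions `y k` times the weight plus a remainder. The two surfaces agree off a rare event `g`. The class `k`
is supported on the event `a k`, and off the event `n k` the weights do not depend on the region `B k` of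
`y k`. `D`: the faces off the special boxes, where the upper bound (`HUpper`) is available.
-/

set_option autoImplicit false

namespace Pool.Agent.SixB.HSum

open Finset

variable {Ω ι κ : Type*}

theorem abs_E_le (P : ExpSys Ω ι) (f : Ω → ℝ) : |P.E f| ≤ P.E (fun ω => |f ω|) := by
  rw [abs_le]
  constructor
  · rw [neg_le, ← P.E_neg]
    exact P.mono _ _ fun ω => neg_le_abs _
  · exact P.mono _ _ fun ω => le_abs_self _

/-- upper bound for the weights: events and functions of the faces of `D`, Hoelder exponent near `1` -/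
def HUpper (P : ExpSys Ω ι) (s : ℕ) (D : Set ι) (Bd : Ω → ℝ) (A : ℝ) : Prop :=
  ∀ x Z : Ω → ℝ, (∀ ω, x ω = 0 ∨ x ω = 1) → (∀ ω, 0 ≤ Z ω) → P.Dep D x → P.Dep D Z →
    P.E (fun ω => Bd ω * (x ω * Z ω)) ≤
      A * (P.E x ^ (1 - (1 / 2 : ℝ) ^ s) * P.E (fun ω => Z ω ^ (2 ^ (s + 1))) ^ ((1 / 2 : ℝ) ^ (s + 1)))

/-- one class: a local function `y` with its support event `a` and its crossing event `n` -/
structure Cls (P : ExpSys Ω ι) (s : ℕ) (D G : Set ι) (W Wp : Ω → ℝ) (y a n : Ω → ℝ) (B : Set ι)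
    (m q : ℝ) : Prop where
  a01 : ∀ ω, a ω = 0 ∨ a ω = 1
  n01 : ∀ ω, n ω = 0 ∨ n ω = 1
  aD : P.Dep (D ∩ G) a
  nD : P.Dep (D ∩ G) n
  yD : P.Dep (D ∩ G) y
  yB : P.Dep B y
  ya : ∀ ω, y ω = a ω * y ω
  W : P.Dep Bᶜ (fun ω => W ω * (1 - n ω))
  Wp : P.Dep Bᶜ (fun ω => Wp ω * (1 - n ω))
  hq : P.E (fun ω => a ω * n ω) ≤ q
  hq' : P.E a * P.E n ≤ q
  hm : P.E (fun ω => |y ω| ^ (2 ^ (s + 1))) ^ ((1 / 2 : ℝ) ^ (s + 1)) ≤ m

section

variable (P : ExpSys Ω ι)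

theorem E01 {a : Ω → ℝ} (ha : ∀ ω, a ω = 0 ∨ a ω = 1) : 0 ≤ P.E a ∧ P.E a ≤ 1 := by
  constructor
  · exact P.E_nonneg fun ω => by rcases ha ω with h | h <;> rw [h]; norm_num
  · rw [← P.one]
    exact P.mono _ _ fun ω => by rcases ha ω with h | h <;> rw [h]; norm_num

theorem mul01 {a b : Ω → ℝ} (ha : ∀ ω, a ω = 0 ∨ a ω = 1) (hb : ∀ ω, b ω = 0 ∨ b ω = 1) :
    ∀ ω, a ω * b ω = 0 ∨ a ω * b ω = 1 := by
  intro ω
  rcases ha ω with h | h <;> rcases hb ω with h' | h' <;> rw [h, h'] <;> norm_num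

theorem nn01 {a : Ω → ℝ} (ha : ∀ ω, a ω = 0 ∨ a ω = 1) : ∀ ω, 0 ≤ a ω := by
  intro ω
  rcases ha ω with h | h <;> rw [h]
  exact zero_le_one

theorem th_nonneg (s : ℕ) : (0 : ℝ) ≤ 1 - (1 / 2 : ℝ) ^ s := by
  have : (1 / 2 : ℝ) ^ s ≤ 1 := pow_le_one₀ (by norm_num) (by norm_num)
  linarith

variable {P}

/-- one weight bounded by `Bd` on an event -/
theorem use {s : ℕ} {D : Set ι} {Bd : Ω → ℝ} {A : ℝ} (hU : HUpper P s D Bd A)
    {x Z F : Ω → ℝ} (hx : ∀ ω, x ω = 0 ∨ x ω = 1) (hZ : ∀ ω, 0 ≤ Z ω) (hxD : P.Dep D x)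
    (hZD : P.Dep D Z) (hF : ∀ ω, F ω ≤ Bd ω * (x ω * Z ω)) (hA : 0 ≤ A) {q m : ℝ} (hq : P.E x ≤ q)
    (hm : P.E (fun ω => Z ω ^ (2 ^ (s + 1))) ^ ((1 / 2 : ℝ) ^ (s + 1)) ≤ m) :
    P.E F ≤ A * (q ^ (1 - (1 / 2 : ℝ) ^ s) * m) := by
  refine (P.mono _ _ hF).trans ((hU x Z hx hZ hxD hZD).trans ?_)
  refine mul_le_mul_of_nonneg_left ?_ hA
  have h0 := (E01 P hx).1
  refine mul_le_mul (Real.rpow_le_rpow h0 hq (th_nonneg s)) hm ?_ (Real.rpow_nonneg (h0.trans hq) _)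
  exact Real.rpow_nonneg (P.E_nonneg fun ω => pow_nonneg (hZ ω) _) _

theorem one_pow_E (s : ℕ) : P.E (fun _ => (1 : ℝ) ^ (2 ^ (s + 1))) ^ ((1 / 2 : ℝ) ^ (s + 1)) ≤ 1 := by
  simp only [one_pow]
  rw [P.one, Real.one_rpow]

variable {s : ℕ} {D G : Set ι} {W Wp Bd g : Ω → ℝ} {c C0 Pr : ℝ}

/-- mean of a local function -/
theorem E_abs_y {y a n : Ω → ℝ} {B : Set ι} {m q : ℝ} (h : Cls P s D G W Wp y a n B m q) :
    |P.E y| ≤ P.E a ^ (1 - (1 / 2 : ℝ) ^ s) * m := by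
  have h0 := E01 P h.a01
  refine (abs_E_le P y).trans ?_
  have h1 := P.event_le a h.a01 (s + 1) (fun ω => |y ω|) (fun ω => abs_nonneg _)
  have e : (fun ω => |y ω|) = fun ω => a ω * |y ω| := by
    funext ω
    conv_lhs => rw [h.ya ω]
    rw [abs_mul, abs_of_nonneg (nn01 h.a01 ω)]
  rw [e]
  refine h1.trans ?_
  rw [rt_eq_rpow (P.E_nonneg fun ω => pow_nonneg (abs_nonneg _) _)]
  have hs : (1 : ℝ) - (1 / 2) ^ s ≤ 1 - (1 / 2) ^ (s + 1) := by
    have : (1 / 2 : ℝ) ^ (s + 1) ≤ (1 / 2) ^ s := pow_le_pow_of_le_one (by norm_num) (by norm_num) (by omega)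
    linarith
  refine mul_le_mul ?_ h.hm (Real.rpow_nonneg (P.E_nonneg fun ω => pow_nonneg (abs_nonneg _) _) _)
    (Real.rpow_nonneg h0.1 _)
  rcases h0.1.eq_or_lt with h2 | h2
  · rw [← h2]
    rcases Nat.eq_zero_or_pos s with h3 | h3
    · subst h3
      norm_num
    · have h4 : (1 : ℝ) - (1 / 2) ^ s ≠ 0 := by
        have : (1 / 2 : ℝ) ^ s < 1 := pow_lt_one₀ (by norm_num) (by norm_num) (by omega)
        linarith
      have h5 : (1 : ℝ) - (1 / 2) ^ (s + 1) ≠ 0 := by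
        have : (1 / 2 : ℝ) ^ (s + 1) < 1 := pow_lt_one₀ (by norm_num) (by norm_num) (by omega)
        linarith
      rw [Real.zero_rpow h4, Real.zero_rpow h5]
  · exact Real.rpow_le_rpow_of_exponent_ge h2 h0.2 hs

theorem cls_compare {y a n : Ω → ℝ} {B : Set ι} {m q : ℝ} (h : Cls P s D G W Wp y a n B m q)
    (hU : HUpper P s D Bd (C0 * Pr)) (hWB : ∀ ω, |W ω| ≤ Bd ω) (hWpB : ∀ ω, |Wp ω| ≤ Bd ω)
    (hg : ∀ ω, g ω = 0 ∨ g ω = 1) (hgD : P.Dep D g) (hgG : P.Dep Gᶜ g)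
    (hsame : ∀ ω, g ω = 0 → Wp ω = W ω) (hc : 0 < c) (hPr : 0 < Pr) (hC0 : 0 ≤ C0)
    (hZ : c * Pr ≤ P.E Wp) (hsm : 2 * C0 * P.E g ^ (1 - (1 / 2 : ℝ) ^ s) ≤ c / 2) :
    c / 2 * Pr ≤ P.E W ∧ |P.E (fun ω => y ω * Wp ω) / P.E Wp - P.E (fun ω => y ω * W ω) / P.E W| ≤
      (4 * C0 / c + 8 * C0 ^ 2 / c ^ 2) * P.E g ^ (1 - (1 / 2 : ℝ) ^ s) *
        (m * q ^ (1 - (1 / 2 : ℝ) ^ s)) := by
  set θ : ℝ := 1 - (1 / 2 : ℝ) ^ s with hθ
  have hθ0 : 0 ≤ θ := th_nonneg s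
  have hA : 0 ≤ C0 * Pr := mul_nonneg hC0 hPr.le
  have hg0 := E01 P hg
  have ha0 := E01 P h.a01
  have hn0 := E01 P h.n01
  have hgn := nn01 hg
  have han := nn01 h.a01
  have hnn := nn01 h.n01
  have hm0 : 0 ≤ m := le_trans (Real.rpow_nonneg (P.E_nonneg fun ω => pow_nonneg (abs_nonneg _) _) _) h.hm
  have hq0 : 0 ≤ q := (mul_nonneg ha0.1 hn0.1).trans h.hq'
  set Gm := P.E g ^ θ with hGm
  have hGm0 : 0 ≤ Gm := Real.rpow_nonneg hg0.1 _
  have hqθ : 0 ≤ q ^ θ := Real.rpow_nonneg hq0 _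
  have aD := h.aD.mono (Set.inter_subset_left : D ∩ G ⊆ D)
  have nD := h.nD.mono (Set.inter_subset_left : D ∩ G ⊆ D)
  have yD := h.yD.mono (Set.inter_subset_left : D ∩ G ⊆ D)
  have aG := h.aD.mono (Set.inter_subset_right : D ∩ G ⊆ G)
  have nG := h.nD.mono (Set.inter_subset_right : D ∩ G ⊆ G)
  have yaD : P.Dep D (fun ω => |y ω|) := yD.comp abs
  have hdis : Disjoint (Gᶜ) G := disjoint_compl_left
  -- E (g a n), E (g n)
  have i1 : P.E (fun ω => g ω * (a ω * n ω)) ≤ P.E g * q := by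
    rw [P.E_indep hdis hgG (aG.comp2 nG fun x y => x * y)]
    exact mul_le_mul_of_nonneg_left h.hq hg0.1
  have i2 : P.E (fun ω => g ω * n ω) ≤ P.E g * P.E n := by
    rw [P.E_indep hdis hgG nG]
  have hEy := E_abs_y h
  -- the seven bounds
  have b1 : P.E (fun ω => (|Wp ω| + |W ω|) * g ω) ≤ 2 * C0 * Gm * Pr := by
    have h1 := use (q := P.E g) (m := 1) hU (x := g) (Z := fun _ => 1) (F := fun ω => (|Wp ω| + |W ω|) / 2 * g ω)
      hg (fun _ => zero_le_one) hgD (ExpSys.Dep.const _ _) (fun ω => by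
        have := hWB ω
        have := hWpB ω
        have := hgn ω
        rw [mul_one]
        exact mul_le_mul_of_nonneg_right (by linarith) (hgn ω)) hA le_rfl (one_pow_E s)
    have e : P.E (fun ω => (|Wp ω| + |W ω|) * g ω) = 2 * P.E (fun ω => (|Wp ω| + |W ω|) / 2 * g ω) := by
      rw [← P.smul]
      congr 1
      funext ω
      ring
    rw [e]
    nlinarith [h1]
  have b2 : P.E (fun ω => (|y ω * Wp ω| + |y ω * W ω|) * g ω * max 0 (n ω)) ≤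
      2 * C0 * Gm * (m * q ^ θ) * Pr := by
    have h1 := use (q := P.E g * q) (m := m) hU (x := fun ω => g ω * (a ω * n ω)) (Z := fun ω => |y ω|)
      (F := fun ω => (|y ω * Wp ω| + |y ω * W ω|) / 2 * g ω * max 0 (n ω))
      (mul01 hg (mul01 h.a01 h.n01)) (fun _ => abs_nonneg _)
      (hgD.comp2 (aD.comp2 nD fun x y => x * y) fun x y => x * y) yaD (fun ω => by
        have e1 : |y ω| = a ω * |y ω| := by
          conv_lhs => rw [h.ya ω]
          rw [abs_mul, abs_of_nonneg (han ω)]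
        rw [abs_mul, abs_mul, max_eq_right (hnn ω)]
        have h3 : (|y ω| * |Wp ω| + |y ω| * |W ω|) / 2 ≤ Bd ω * |y ω| := by
          have := mul_le_mul_of_nonneg_left (hWB ω) (abs_nonneg (y ω))
          have := mul_le_mul_of_nonneg_left (hWpB ω) (abs_nonneg (y ω))
          linarith
        calc (|y ω| * |Wp ω| + |y ω| * |W ω|) / 2 * g ω * n ω ≤ (Bd ω * |y ω|) * g ω * n ω := by
              gcongr
              · exact hnn ω
              · exact hgn ω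
          _ = Bd ω * (g ω * (a ω * n ω) * |y ω|) := by
              have e2 : Bd ω * (g ω * (a ω * n ω) * |y ω|) = Bd ω * g ω * n ω * (a ω * |y ω|) := by ring
              rw [e2, ← e1]
              ring) hA i1 h.hm
    have e : P.E (fun ω => (|y ω * Wp ω| + |y ω * W ω|) * g ω * max 0 (n ω)) =
        2 * P.E (fun ω => (|y ω * Wp ω| + |y ω * W ω|) / 2 * g ω * max 0 (n ω)) := by
      rw [← P.smul]
      congr 1
      funext ω
      ring
    rw [e]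
    rw [Real.mul_rpow hg0.1 hq0] at h1
    nlinarith [h1]
  have b3 : |P.E (fun ω => y ω * (1 - 0))| * P.E (fun ω => (|Wp ω| + |W ω|) * g ω * n ω) ≤
      2 * C0 * Gm * (m * q ^ θ) * Pr := by
    have h1 := use (q := P.E g * P.E n) (m := 1) hU (x := fun ω => g ω * n ω) (Z := fun _ => 1)
      (F := fun ω => (|Wp ω| + |W ω|) / 2 * g ω * n ω)
      (mul01 hg h.n01) (fun _ => zero_le_one) (hgD.comp2 nD fun x y => x * y) (ExpSys.Dep.const _ _)
      (fun ω => by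
        rw [mul_one]
        calc (|Wp ω| + |W ω|) / 2 * g ω * n ω ≤ Bd ω * g ω * n ω := by
              gcongr
              · exact hnn ω
              · exact hgn ω
              · have := hWB ω
                have := hWpB ω
                linarith
          _ = Bd ω * (g ω * n ω) := by ring) hA i2 (one_pow_E s)
    have e : P.E (fun ω => (|Wp ω| + |W ω|) * g ω * n ω) =
        2 * P.E (fun ω => (|Wp ω| + |W ω|) / 2 * g ω * n ω) := by
      rw [← P.smul]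
      congr 1
      funext ω
      ring
    have e0 : (fun ω => y ω * (1 - 0)) = y := by
      funext ω
      ring
    rw [e, e0]
    have h0 : 0 ≤ P.E (fun ω => (|Wp ω| + |W ω|) / 2 * g ω * n ω) := P.E_nonneg fun ω =>
      mul_nonneg (mul_nonneg (by positivity) (hgn ω)) (hnn ω)
    calc |P.E y| * (2 * P.E (fun ω => (|Wp ω| + |W ω|) / 2 * g ω * n ω))
        ≤ (P.E a ^ θ * m) * (2 * (C0 * Pr * ((P.E g * P.E n) ^ θ * 1))) :=
          mul_le_mul hEy (mul_le_mul_of_nonneg_left h1 zero_le_two) (by positivity)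
            (mul_nonneg (Real.rpow_nonneg ha0.1 _) hm0)
      _ = 2 * C0 * Gm * (m * (P.E a * P.E n) ^ θ) * Pr := by
          rw [Real.mul_rpow hg0.1 hn0.1, Real.mul_rpow ha0.1 hn0.1]
          ring
      _ ≤ 2 * C0 * Gm * (m * q ^ θ) * Pr := by
          have : (P.E a * P.E n) ^ θ ≤ q ^ θ := Real.rpow_le_rpow (mul_nonneg ha0.1 hn0.1) h.hq' hθ0
          gcongr
  have b4 : P.E (fun ω => |y ω * W ω| * max 0 (n ω)) ≤ C0 * (m * q ^ θ) * Pr := by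
    have h1 := use (q := q) (m := m) hU (x := fun ω => a ω * n ω) (Z := fun ω => |y ω|)
      (F := fun ω => |y ω * W ω| * max 0 (n ω))
      (mul01 h.a01 h.n01) (fun _ => abs_nonneg _)
      (aD.comp2 nD fun x y => x * y) yaD (fun ω => by
        have e1 : |y ω| = a ω * |y ω| := by
          conv_lhs => rw [h.ya ω]
          rw [abs_mul, abs_of_nonneg (han ω)]
        rw [abs_mul, max_eq_right (hnn ω)]
        calc |y ω| * |W ω| * n ω ≤ |y ω| * Bd ω * n ω := by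
              gcongr
              · exact hnn ω
              · exact hWB ω
          _ = Bd ω * (a ω * n ω * |y ω|) := by
              have e2 : Bd ω * (a ω * n ω * |y ω|) = Bd ω * n ω * (a ω * |y ω|) := by ring
              rw [e2, ← e1]
              ring) hA h.hq h.hm
    nlinarith [h1]
  have b5 : |P.E (fun ω => y ω * (1 - 0))| * P.E (fun ω => |W ω| * n ω) ≤ C0 * (m * q ^ θ) * Pr := by
    have h1 := use (q := P.E n) (m := 1) hU (x := n) (Z := fun _ => 1)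
      (F := fun ω => |W ω| * n ω) h.n01 (fun _ => zero_le_one) nD (ExpSys.Dep.const _ _)
      (fun ω => by
        rw [mul_one]
        exact mul_le_mul_of_nonneg_right (hWB ω) (hnn ω)) hA le_rfl (one_pow_E s)
    have e0 : (fun ω => y ω * (1 - 0)) = y := by
      funext ω
      ring
    rw [e0]
    have h0 : 0 ≤ P.E (fun ω => |W ω| * n ω) := P.E_nonneg fun ω => mul_nonneg (abs_nonneg _) (hnn ω)
    calc |P.E y| * P.E (fun ω => |W ω| * n ω) ≤ (P.E a ^ θ * m) * (C0 * Pr * (P.E n ^ θ * 1)) :=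
          mul_le_mul hEy h1 h0 (mul_nonneg (Real.rpow_nonneg ha0.1 _) hm0)
      _ = C0 * (m * (P.E a * P.E n) ^ θ) * Pr := by
          rw [Real.mul_rpow ha0.1 hn0.1]
          ring
      _ ≤ C0 * (m * q ^ θ) * Pr := by
          have : (P.E a * P.E n) ^ θ ≤ q ^ θ := Real.rpow_le_rpow (mul_nonneg ha0.1 hn0.1) h.hq' hθ0
          gcongr
  have hmain := mouth_compare P (W := W) (Y := fun ω => y ω * W ω) (Wp := Wp) (Yp := fun ω => y ω * Wp ω)
    (y0 := y) (g := g) (n1 := fun _ => 0) (n2 := n) (B := B) (c := c) (κ := 2 * C0 * Gm)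
    (δ := 4 * C0 * Gm * (m * q ^ θ)) (η := 2 * C0 * (m * q ^ θ)) (Pr := Pr) hc hPr hsm hg h.n01
    (fun _ => Or.inl rfl) (fun ω hω => ⟨hsame ω hω, by rw [hsame ω hω]⟩) (fun ω _ _ => rfl)
    (fun ω _ _ => rfl) (by
      have := h.yB.comp (fun x : ℝ => x * (1 - 0))
      exact this) h.W h.Wp hZ b1 (by linarith) (by linarith)
  refine ⟨hmain.1, hmain.2.trans (le_of_eq ?_)⟩
  field_simp
  ring

/-- the remainder -/
theorem rem_compare {Mr Mrp nR NR : Ω → ℝ} {mR qR : ℝ}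
    (hU : HUpper P s D Bd (C0 * Pr)) (hWB : ∀ ω, |W ω| ≤ Bd ω) (hWpB : ∀ ω, |Wp ω| ≤ Bd ω)
    (hg : ∀ ω, g ω = 0 ∨ g ω = 1) (hgD : P.Dep D g) (hgG : P.Dep Gᶜ g)
    (hsame : ∀ ω, g ω = 0 → Wp ω = W ω) (hc : 0 < c) (hPr : 0 < Pr) (hC0 : 0 ≤ C0)
    (hZ : c * Pr ≤ P.E Wp) (hsm : 2 * C0 * P.E g ^ (1 - (1 / 2 : ℝ) ^ s) ≤ c / 2)
    (hsameM : ∀ ω, g ω = 0 → Mrp ω = Mr ω) (hnR : ∀ ω, nR ω = 0 ∨ nR ω = 1) (hNR : ∀ ω, 0 ≤ NR ω)
    (hnRD : P.Dep (D ∩ G) nR) (hNRD : P.Dep (D ∩ G) NR)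
    (hMr : ∀ ω, |Mr ω| ≤ Bd ω * (nR ω * NR ω)) (hMrp : ∀ ω, |Mrp ω| ≤ Bd ω * (nR ω * NR ω))
    (hqR : P.E nR ≤ qR)
    (hmR : P.E (fun ω => NR ω ^ (2 ^ (s + 1))) ^ ((1 / 2 : ℝ) ^ (s + 1)) ≤ mR) :
    c / 2 * Pr ≤ P.E W ∧ |P.E Mrp / P.E Wp - P.E Mr / P.E W| ≤
      (4 * C0 / c + 8 * C0 ^ 2 / c ^ 2) * P.E g ^ (1 - (1 / 2 : ℝ) ^ s) *
        (mR * qR ^ (1 - (1 / 2 : ℝ) ^ s)) := by
  set θ : ℝ := 1 - (1 / 2 : ℝ) ^ s with hθ
  have hθ0 : 0 ≤ θ := th_nonneg s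
  have hA : 0 ≤ C0 * Pr := mul_nonneg hC0 hPr.le
  have hg0 := E01 P hg
  have hn0 := E01 P hnR
  have hgn := nn01 hg
  have hnn := nn01 hnR
  have hm0 : 0 ≤ mR := le_trans (Real.rpow_nonneg (P.E_nonneg fun ω => pow_nonneg (hNR ω) _) _) hmR
  have hq0 : 0 ≤ qR := hn0.1.trans hqR
  set Gm := P.E g ^ θ with hGm
  have hGm0 : 0 ≤ Gm := Real.rpow_nonneg hg0.1 _
  have hqθ : 0 ≤ qR ^ θ := Real.rpow_nonneg hq0 _
  have nD := hnRD.mono (Set.inter_subset_left : D ∩ G ⊆ D)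
  have ND := hNRD.mono (Set.inter_subset_left : D ∩ G ⊆ D)
  have nG := hnRD.mono (Set.inter_subset_right : D ∩ G ⊆ G)
  have hdis : Disjoint (Gᶜ) G := disjoint_compl_left
  have hWppos : 0 < P.E Wp := lt_of_lt_of_le (by positivity) hZ
  -- denominators
  have b1 : |P.E Wp - P.E W| ≤ 2 * C0 * Gm * Pr := by
    rw [← P.E_sub]
    refine (abs_E_le P _).trans ?_
    have h1 := use (q := P.E g) (m := 1) hU (x := g) (Z := fun _ => 1) (F := fun ω => |Wp ω - W ω| / 2)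
      hg (fun _ => zero_le_one) hgD (ExpSys.Dep.const _ _) (fun ω => by
        rw [mul_one]
        rcases hg ω with h | h
        · rw [hsame ω h, h, sub_self, abs_zero]
          simp
        · rw [h, mul_one]
          have := abs_sub (Wp ω) (W ω)
          have := hWB ω
          have := hWpB ω
          linarith) hA le_rfl (one_pow_E s)
    have e : P.E (fun ω => |Wp ω - W ω|) = 2 * P.E (fun ω => |Wp ω - W ω| / 2) := by
      rw [← P.smul]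
      congr 1
      funext ω
      ring
    rw [e]
    nlinarith [h1]
  have hZW : c / 2 * Pr ≤ P.E W := by
    have h3 := (abs_le.1 b1).2
    have h4 : 2 * C0 * Gm * Pr ≤ c / 2 * Pr := mul_le_mul_of_nonneg_right hsm hPr.le
    nlinarith
  refine ⟨hZW, ?_⟩
  have hWpos : 0 < P.E W := lt_of_lt_of_le (by positivity) hZW
  have b2 : |P.E Mrp - P.E Mr| ≤ 2 * C0 * Gm * (mR * qR ^ θ) * Pr := by
    rw [← P.E_sub]
    refine (abs_E_le P _).trans ?_
    have i1 : P.E (fun ω => g ω * nR ω) ≤ P.E g * qR := by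
      rw [P.E_indep hdis hgG nG]
      exact mul_le_mul_of_nonneg_left hqR hg0.1
    have h1 := use (q := P.E g * qR) (m := mR) hU (x := fun ω => g ω * nR ω) (Z := NR)
      (F := fun ω => |Mrp ω - Mr ω| / 2) (mul01 hg hnR) hNR
      (hgD.comp2 nD fun x y => x * y) ND (fun ω => by
        rcases hg ω with h | h
        · rw [hsameM ω h, h, sub_self, abs_zero]
          simp
        · rw [h, one_mul]
          have := abs_sub (Mrp ω) (Mr ω)
          have := hMr ω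
          have := hMrp ω
          linarith) hA i1 hmR
    have e : P.E (fun ω => |Mrp ω - Mr ω|) = 2 * P.E (fun ω => |Mrp ω - Mr ω| / 2) := by
      rw [← P.smul]
      congr 1
      funext ω
      ring
    rw [e]
    rw [Real.mul_rpow hg0.1 hq0] at h1
    nlinarith [h1]
  have b3 : |P.E Mr| ≤ C0 * (mR * qR ^ θ) * Pr := by
    refine (abs_E_le P _).trans ?_
    have h1 := use (q := qR) (m := mR) hU (x := nR) (Z := NR) (F := fun ω => |Mr ω|) hnR hNR nD ND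
      hMr hA hqR hmR
    nlinarith [h1]
  have e : P.E Mrp / P.E Wp - P.E Mr / P.E W =
      (P.E Mrp - P.E Mr) / P.E Wp + P.E Mr * (P.E W - P.E Wp) / (P.E W * P.E Wp) := by
    field_simp
    ring
  rw [e]
  have hX : 0 ≤ mR * qR ^ θ := mul_nonneg hm0 hqθ
  have k1 : |(P.E Mrp - P.E Mr) / P.E Wp| ≤ 2 * C0 * Gm * (mR * qR ^ θ) / c := by
    rw [abs_div, abs_of_pos hWppos, div_le_div_iff₀ hWppos hc]
    calc |P.E Mrp - P.E Mr| * c ≤ 2 * C0 * Gm * (mR * qR ^ θ) * Pr * c :=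
          mul_le_mul_of_nonneg_right b2 hc.le
      _ = 2 * C0 * Gm * (mR * qR ^ θ) * (c * Pr) := by ring
      _ ≤ 2 * C0 * Gm * (mR * qR ^ θ) * P.E Wp := mul_le_mul_of_nonneg_left hZ (by positivity)
  have k2 : |P.E Mr * (P.E W - P.E Wp) / (P.E W * P.E Wp)| ≤
      4 * C0 ^ 2 * Gm * (mR * qR ^ θ) / c ^ 2 := by
    rw [abs_div, abs_mul, abs_of_pos (mul_pos hWpos hWppos), abs_sub_comm (P.E W),
      div_le_div_iff₀ (mul_pos hWpos hWppos) (by positivity)]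
    calc |P.E Mr| * |P.E Wp - P.E W| * c ^ 2 ≤
        (C0 * (mR * qR ^ θ) * Pr) * (2 * C0 * Gm * Pr) * c ^ 2 := by gcongr
      _ = 4 * C0 ^ 2 * Gm * (mR * qR ^ θ) * ((c / 2 * Pr) * (c * Pr)) := by ring
      _ ≤ 4 * C0 ^ 2 * Gm * (mR * qR ^ θ) * (P.E W * P.E Wp) := by
          refine mul_le_mul_of_nonneg_left ?_ (by positivity)
          exact mul_le_mul hZW hZ (by positivity) hWpos.le
  refine (abs_add_le _ _).trans ((add_le_add k1 k2).trans ?_)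
  have : 0 ≤ 2 * C0 * Gm * (mR * qR ^ θ) / c + 4 * C0 ^ 2 * Gm * (mR * qR ^ θ) / c ^ 2 := by positivity
  calc 2 * C0 * Gm * (mR * qR ^ θ) / c + 4 * C0 ^ 2 * Gm * (mR * qR ^ θ) / c ^ 2
      ≤ 2 * (2 * C0 * Gm * (mR * qR ^ θ) / c + 4 * C0 ^ 2 * Gm * (mR * qR ^ θ) / c ^ 2) := by linarith
    _ = (4 * C0 / c + 8 * C0 ^ 2 / c ^ 2) * Gm * (mR * qR ^ θ) := by
        field_simp
        ring

/-- **Comparison of the normalised means of two surfaces.** -/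
theorem height_compare {K : Finset κ} {Y Yp Mr Mrp nR NR : Ω → ℝ} {y a n : κ → Ω → ℝ}
    {B : κ → Set ι} {m q : κ → ℝ} {mR qR : ℝ}
    (hU : HUpper P s D Bd (C0 * Pr)) (hWB : ∀ ω, |W ω| ≤ Bd ω) (hWpB : ∀ ω, |Wp ω| ≤ Bd ω)
    (hg : ∀ ω, g ω = 0 ∨ g ω = 1) (hgD : P.Dep D g) (hgG : P.Dep Gᶜ g)
    (hsame : ∀ ω, g ω = 0 → Wp ω = W ω) (hc : 0 < c) (hPr : 0 < Pr) (hC0 : 0 ≤ C0)
    (hZ : c * Pr ≤ P.E Wp) (hsm : 2 * C0 * P.E g ^ (1 - (1 / 2 : ℝ) ^ s) ≤ c / 2)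
    (hK : ∀ k ∈ K, Cls P s D G W Wp (y k) (a k) (n k) (B k) (m k) (q k))
    (hY : ∀ ω, Y ω = ∑ k ∈ K, y k ω * W ω + Mr ω) (hYp : ∀ ω, Yp ω = ∑ k ∈ K, y k ω * Wp ω + Mrp ω)
    (hsameM : ∀ ω, g ω = 0 → Mrp ω = Mr ω) (hnR : ∀ ω, nR ω = 0 ∨ nR ω = 1) (hNR : ∀ ω, 0 ≤ NR ω)
    (hnRD : P.Dep (D ∩ G) nR) (hNRD : P.Dep (D ∩ G) NR)
    (hMr : ∀ ω, |Mr ω| ≤ Bd ω * (nR ω * NR ω)) (hMrp : ∀ ω, |Mrp ω| ≤ Bd ω * (nR ω * NR ω))
    (hqR : P.E nR ≤ qR)
    (hmR : P.E (fun ω => NR ω ^ (2 ^ (s + 1))) ^ ((1 / 2 : ℝ) ^ (s + 1)) ≤ mR) :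
    c / 2 * Pr ≤ P.E W ∧ |P.E Yp / P.E Wp - P.E Y / P.E W| ≤
      (4 * C0 / c + 8 * C0 ^ 2 / c ^ 2) * P.E g ^ (1 - (1 / 2 : ℝ) ^ s) *
        (∑ k ∈ K, m k * q k ^ (1 - (1 / 2 : ℝ) ^ s) + mR * qR ^ (1 - (1 / 2 : ℝ) ^ s)) := by
  have hr := rem_compare hU hWB hWpB hg hgD hgG hsame hc hPr hC0 hZ hsm hsameM hnR hNR hnRD hNRD hMr
    hMrp hqR hmR
  refine ⟨hr.1, ?_⟩
  have e1 : P.E Y = ∑ k ∈ K, P.E (fun ω => y k ω * W ω) + P.E Mr := by
    rw [← P.E_sum, ← P.add]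
    congr 1
    funext ω
    exact hY ω
  have e2 : P.E Yp = ∑ k ∈ K, P.E (fun ω => y k ω * Wp ω) + P.E Mrp := by
    rw [← P.E_sum, ← P.add]
    congr 1
    funext ω
    exact hYp ω
  have e3 : P.E Yp / P.E Wp - P.E Y / P.E W =
      ∑ k ∈ K, (P.E (fun ω => y k ω * Wp ω) / P.E Wp - P.E (fun ω => y k ω * W ω) / P.E W) +
        (P.E Mrp / P.E Wp - P.E Mr / P.E W) := by
    rw [e1, e2, add_div, add_div, Finset.sum_div, Finset.sum_div, Finset.sum_sub_distrib]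
    ring
  rw [e3, mul_add, Finset.mul_sum]
  refine (abs_add_le _ _).trans (add_le_add ?_ hr.2)
  refine (Finset.abs_sum_le_sum_abs _ _).trans (Finset.sum_le_sum fun k hk => ?_)
  exact (cls_compare (hK k hk) hU hWB hWpB hg hgD hgG hsame hc hPr hC0 hZ hsm).2

end

end Pool.Agent.SixB.HSum
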