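import Pool.Agent.Lib.SixB.S3AtlUpC
import Pool.Agent.Lib.SixB.S3HSum

/-!
# 6BD, step 3: the upper bound with an event and a function (`HUpper`) for atlases

* `qm_hold`: weighted quasi-multiplicativity for any function `Y` off the boxes which is controlled by a high norm of
  the other factor;
* `ExpSys.event_mul3_le`: event times function times a factor with all moments;
* `hup_of_good`: `HUpper` for `Bd ω = ∏ t v ^ N v 0 ω * q ^ K ω`, `K` an excess with all exponential moments;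
* `HUpper.add`, `HUpper.mono_bd`, `HUpper.mono_dom`, `HUpper.mono_A`;
* `KCh.hup`: for any family of charts around special vertices (chain radius `4 r`, boxes `r / 2` removed);
* `AU.Link.hup`, `atlasC_hup`: for an atlas with its cells, with an additional excess `K'`;
* `atlasC_hup_abs`: `HUpper` for `|W|`.
-/

set_option autoImplicit false
set_option linter.unusedSectionVars false
set_option linter.unusedVariables false

namespace Pool.Agent.SixB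

open Finset Pool.Agent.Perc.Q Pool.Agent.Perc Pool.Agent.SixB.HSum

/-- Weighted quasi-multiplicativity for a function `Y` controlled by the norm with the exponent `2 ^ p` of the
other factor, uniform constants. -/
theorem qm_hold (cM : ℝ → ℝ) (t₀ T A₀ : ℝ) (p : ℕ) (ht₀ : 0 < t₀) (ht₁ : t₀ ≤ 1) (hT : 1 ≤ T) :
    ∃ C : ℝ, 1 ≤ C ∧ ∀ (Ω ι κ : Type) (P : ExpSys Ω ι) (D : ChainData P κ) (t : κ → ℝ),
      D.Good t cM t₀ T A₀ → ∀ (V : Finset κ) (Y : Ω → ℝ) (Λ : ℝ), (∀ ω, 0 ≤ Y ω) → 0 ≤ Λ →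
      (∀ H : Ω → ℝ, (∀ ω, 0 ≤ H ω) →
        P.E (fun ω => Y ω * H ω) ≤ Λ * rt p (P.E (fun ω => H ω ^ (2 ^ p)))) →
      (∀ v ∈ V, P.Dep (D.B v 1)ᶜ Y) →
      P.E (fun ω => (∏ v ∈ V, t v ^ D.N v 0 ω) * Y ω) ≤
        C ^ V.card * (∏ v ∈ V, D.F v (t v) 0) * Λ := by
  obtain ⟨m₀, d₀, A, hd₀0, hA1, hAd₀, hmain⟩ := exists_consts cM t₀ T A₀ ht₀ ht₁ hT
  have hA0 : 0 < A := by linarith
  set d : ℝ := (2 * A)⁻¹ with hd
  have hd0 : 0 < d := by positivity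
  set Q : ℕ := 2 * 2 ^ p with hQ
  obtain ⟨m, hm⟩ : ∃ m : ℕ, cM (2 * T ^ Q) * ((2 : ℝ) ^ m)⁻¹ ≤ d ^ Q := by
    obtain ⟨n, hn⟩ := pow_unbounded_of_one_lt (cM (2 * T ^ Q) / d ^ Q)
      (show (1 : ℝ) < 2 by norm_num)
    refine ⟨n, ?_⟩
    rw [div_lt_iff₀ (by positivity)] at hn
    rw [← div_eq_mul_inv, div_le_iff₀ (by positivity)]
    linarith
  have hTm : (1 : ℝ) ≤ T ^ m := one_le_pow₀ hT
  refine ⟨2 * A * T ^ m, by nlinarith, ?_⟩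
  intro Ω ι κ P D t hG V Y Λ hY hΛ0 hΛ hYd
  obtain ⟨-, h2⟩ := hmain Ω ι κ P D t hG
  have h1 : ∀ v j, P.E (fun ω => if m < D.M v j ω then T ^ (2 * 2 ^ p * D.M v j ω) else 0) ≤
      d ^ (2 * 2 ^ p) := by
    intro v j
    refine (trunc_le P (D.M v j) T 2 _ hT (by norm_num) Q (hG.mom (2 * T ^ Q) ?_ v j) m).trans hm
    have : (1 : ℝ) ≤ T ^ Q := one_le_pow₀ hT
    linarith
  have hAd : A * d ≤ 1 / 2 := by
    rw [hd]
    field_simp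
    exact le_rfl
  have h := chain_hold P D.B D.N D.M t D.hB D.hdis D.hN D.hM D.hN1 D.hN2 D.J D.hJ hG.t_nonneg T hT
    hG.t_le m d hd0.le p h1 A hA0.le h2 hAd Y hY Λ hΛ0 hΛ V (fun _ => 1) ∅ (fun _ => zero_le_one)
    hYd (ExpSys.Dep.const _ _) (fun v _ => Set.empty_disjoint _)
  simp only [mul_one, one_pow, P.one, rt_one] at h
  rw [Finset.prod_mul_distrib, Finset.prod_const] at h
  exact h

namespace ExpSys

variable {Ω ι : Type*} (P : ExpSys Ω ι)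

/-- an event times a function times a factor with all moments -/
theorem event_mul3_le (a : Ω → ℝ) (ha : ∀ ω, a ω = 0 ∨ a ω = 1) (Z R : Ω → ℝ)
    (hZ : ∀ ω, 0 ≤ Z ω) (hR : ∀ ω, 0 ≤ R ω) (s : ℕ) (H : Ω → ℝ) (hH : ∀ ω, 0 ≤ H ω) :
    P.E (fun ω => (a ω * Z ω * R ω) * H ω) ≤
      (P.E a ^ (1 - (1 / 2 : ℝ) ^ s) * rt (s + 1) (P.E (fun ω => Z ω ^ (2 ^ (s + 1)))) *
        rt (s + 2) (P.E (fun ω => R ω ^ (2 ^ (s + 2))))) *
        rt (s + 2) (P.E (fun ω => H ω ^ (2 ^ (s + 2)))) := by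
  have ha0 : ∀ ω, 0 ≤ a ω := fun ω => by rcases ha ω with h | h <;> rw [h]; norm_num
  have hP0 : 0 ≤ P.E a := P.E_nonneg ha0
  have h1 := P.event_mul_le a ha Z hZ s (fun ω => R ω * H ω) (fun ω => mul_nonneg (hR ω) (hH ω))
  have e1 : (fun ω => (a ω * Z ω * R ω) * H ω) = fun ω => (a ω * Z ω) * (R ω * H ω) := by
    funext ω
    ring
  rw [e1]
  refine h1.trans ?_
  have hZE : 0 ≤ P.E (fun ω => Z ω ^ (2 ^ (s + 1))) := P.E_nonneg fun ω => pow_nonneg (hZ ω) _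
  have h2 := P.cs_sqrt (fun ω => R ω ^ (2 ^ (s + 1))) (fun ω => H ω ^ (2 ^ (s + 1)))
  have e2 : ∀ f : Ω → ℝ, (fun ω => (f ω ^ (2 ^ (s + 1))) ^ 2) = fun ω => f ω ^ (2 ^ (s + 2)) := by
    intro f
    funext ω
    rw [← pow_mul]
    congr 1
  have e3 : (fun ω => (R ω * H ω) ^ (2 ^ (s + 1))) =
      fun ω => R ω ^ (2 ^ (s + 1)) * H ω ^ (2 ^ (s + 1)) := by
    funext ω
    rw [mul_pow]
  rw [e2, e2] at h2
  have hz : 0 ≤ P.E (fun ω => R ω ^ (2 ^ (s + 2))) := P.E_nonneg fun ω => pow_nonneg (hR ω) _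
  have hh : 0 ≤ P.E (fun ω => H ω ^ (2 ^ (s + 2))) := P.E_nonneg fun ω => pow_nonneg (hH ω) _
  have h3 : rt (s + 1) (P.E (fun ω => (R ω * H ω) ^ (2 ^ (s + 1)))) ≤
      rt (s + 2) (P.E (fun ω => R ω ^ (2 ^ (s + 2)))) *
        rt (s + 2) (P.E (fun ω => H ω ^ (2 ^ (s + 2)))) := by
    rw [e3]
    refine (rt_mono h2 (s + 1)).trans (le_of_eq ?_)
    rw [rt_mul (Real.sqrt_nonneg _) (Real.sqrt_nonneg _), rt_succ' _ hz, rt_succ' _ hh]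
  refine (mul_le_mul_of_nonneg_left h3
    (mul_nonneg (Real.rpow_nonneg hP0 _) (rt_nonneg hZE _))).trans (le_of_eq ?_)
  ring

end ExpSys

/-- **`HUpper` for the local bound.** -/
theorem hup_of_good (cM : ℝ → ℝ) (t₀ T A₀ : ℝ) (s nV : ℕ) (q : ℝ) (cK : ℝ → ℝ) (ht₀ : 0 < t₀)
    (ht₁ : t₀ ≤ 1) (hT : 1 ≤ T) (hq : 1 ≤ q) :
    ∃ C : ℝ, 0 < C ∧ ∀ (Ω ι κ : Type) (P : ExpSys Ω ι) (D : ChainData P κ) (t : κ → ℝ),
      D.Good t cM t₀ T A₀ → ∀ (V : Finset κ), V.card ≤ nV → ∀ (K : Ω → ℕ) (Dm : Set ι),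
      (∀ v ∈ V, P.Dep (D.B v 1)ᶜ K) → (∀ L : ℝ, 1 ≤ L → P.E (fun ω => L ^ K ω) ≤ cK L) →
      (∀ v ∈ V, Dm ⊆ (D.B v 1)ᶜ) →
      HUpper P s Dm (fun ω => (∏ v ∈ V, t v ^ D.N v 0 ω) * q ^ K ω)
        (C * ∏ v ∈ V, D.F v (t v) 0) := by
  obtain ⟨C, hC, hmain⟩ := qm_hold cM t₀ T A₀ (s + 2) ht₀ ht₁ hT
  have hC0 : 0 < C := by linarith
  set R : ℝ := (max (cK (q ^ (2 ^ (s + 2)))) 1) ^ ((1 / 2 : ℝ) ^ (s + 2)) with hR
  have hR0 : 0 < R := Real.rpow_pos_of_pos (lt_of_lt_of_le one_pos (le_max_right _ _)) _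
  refine ⟨C ^ nV * R, by positivity, ?_⟩
  intro Ω ι κ P D t hG V hV K Dm hKd hKm hDm x Z hx hZ hxD hZD
  have hx0 : ∀ ω, 0 ≤ x ω := fun ω => by rcases hx ω with h | h <;> rw [h]; norm_num
  have hE0 : 0 ≤ P.E x := P.E_nonneg hx0
  have hZE : 0 ≤ P.E (fun ω => Z ω ^ (2 ^ (s + 1))) := P.E_nonneg fun ω => pow_nonneg (hZ ω) _
  have hq0 : ∀ ω, 0 ≤ q ^ K ω := fun ω => by positivity
  have hqE : 0 ≤ P.E (fun ω => (q ^ K ω) ^ (2 ^ (s + 2))) := P.E_nonneg fun ω => by positivity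
  set Λ : ℝ := P.E x ^ (1 - (1 / 2 : ℝ) ^ s) * rt (s + 1) (P.E (fun ω => Z ω ^ (2 ^ (s + 1)))) *
    rt (s + 2) (P.E (fun ω => (q ^ K ω) ^ (2 ^ (s + 2)))) with hΛ
  have h1 := hmain Ω ι κ P D t hG V (fun ω => x ω * Z ω * q ^ K ω) Λ
    (fun ω => mul_nonneg (mul_nonneg (hx0 ω) (hZ ω)) (hq0 ω))
    (mul_nonneg (mul_nonneg (Real.rpow_nonneg hE0 _) (rt_nonneg hZE _)) (rt_nonneg hqE _))
    (fun H hH => P.event_mul3_le x hx Z (fun ω => q ^ K ω) hZ hq0 s H hH)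
    (fun v hv => ((hxD.mono (hDm v hv)).comp2 (hZD.mono (hDm v hv)) fun a b : ℝ => a * b).comp2
      ((hKd v hv).comp fun n => q ^ n) fun a b : ℝ => a * b)
  have hF0 : 0 ≤ ∏ v ∈ V, D.F v (t v) 0 := Finset.prod_nonneg fun v _ =>
    P.E_nonneg fun ω => pow_nonneg (hG.t_nonneg v) _
  have e : (fun ω => (∏ v ∈ V, t v ^ D.N v 0 ω) * q ^ K ω * (x ω * Z ω)) =
      fun ω => (∏ v ∈ V, t v ^ D.N v 0 ω) * (x ω * Z ω * q ^ K ω) := by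
    funext ω
    ring
  rw [e]
  refine h1.trans ?_
  have h3 : rt (s + 2) (P.E (fun ω => (q ^ K ω) ^ (2 ^ (s + 2)))) ≤ R := by
    rw [rt_eq_rpow hqE, hR]
    refine Real.rpow_le_rpow hqE ?_ (by positivity)
    refine le_trans ?_ (le_max_left _ _)
    have e : (fun ω => (q ^ K ω) ^ (2 ^ (s + 2))) = fun ω => (q ^ (2 ^ (s + 2))) ^ K ω := by
      funext ω
      rw [← pow_mul, ← pow_mul, mul_comm]
    rw [e]
    exact hKm _ (one_le_pow₀ hq)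
  have h4 : C ^ V.card ≤ C ^ nV := pow_le_pow_right₀ hC hV
  have h5 : 0 ≤ P.E x ^ (1 - (1 / 2 : ℝ) ^ s) * rt (s + 1) (P.E (fun ω => Z ω ^ (2 ^ (s + 1)))) :=
    mul_nonneg (Real.rpow_nonneg hE0 _) (rt_nonneg hZE _)
  have h6 : Λ ≤ P.E x ^ (1 - (1 / 2 : ℝ) ^ s) *
      rt (s + 1) (P.E (fun ω => Z ω ^ (2 ^ (s + 1)))) * R := by
    rw [hΛ]
    exact mul_le_mul_of_nonneg_left h3 h5
  have h7 : 0 ≤ Λ := mul_nonneg h5 (rt_nonneg hqE _)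
  calc C ^ V.card * (∏ v ∈ V, D.F v (t v) 0) * Λ
      ≤ C ^ nV * (∏ v ∈ V, D.F v (t v) 0) * (P.E x ^ (1 - (1 / 2 : ℝ) ^ s) *
          rt (s + 1) (P.E (fun ω => Z ω ^ (2 ^ (s + 1)))) * R) := by
        refine mul_le_mul (mul_le_mul_of_nonneg_right h4 hF0) h6 h7 (mul_nonneg (by positivity) hF0)
    _ = _ := by
        rw [rt_eq_rpow hZE]
        ring

namespace HSum

variable {Ω ι : Type*} {P : ExpSys Ω ι} {s : ℕ} {Dm Dm' : Set ι} {Bd Bd' : Ω → ℝ} {A A' : ℝ}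

theorem HUpper.mono_bd (h : HUpper P s Dm Bd A) (hle : ∀ ω, Bd' ω ≤ Bd ω) : HUpper P s Dm Bd' A := by
  intro x Z hx hZ hxD hZD
  refine (P.mono _ _ fun ω => ?_).trans (h x Z hx hZ hxD hZD)
  exact mul_le_mul_of_nonneg_right (hle ω) (mul_nonneg (nn01 hx ω) (hZ ω))

theorem HUpper.mono_dom (h : HUpper P s Dm Bd A) (hle : Dm' ⊆ Dm) : HUpper P s Dm' Bd A :=
  fun x Z hx hZ hxD hZD => h x Z hx hZ (hxD.mono hle) (hZD.mono hle)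

theorem HUpper.mono_A (h : HUpper P s Dm Bd A) (hle : A ≤ A') : HUpper P s Dm Bd A' := by
  intro x Z hx hZ hxD hZD
  refine (h x Z hx hZ hxD hZD).trans (mul_le_mul_of_nonneg_right hle ?_)
  exact mul_nonneg (Real.rpow_nonneg (E01 P hx).1 _)
    (Real.rpow_nonneg (P.E_nonneg fun ω => pow_nonneg (hZ ω) _) _)

theorem HUpper.add (h : HUpper P s Dm Bd A) (h' : HUpper P s Dm Bd' A') :
    HUpper P s Dm (fun ω => Bd ω + Bd' ω) (A + A') := by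
  intro x Z hx hZ hxD hZD
  have e : (fun ω => (Bd ω + Bd' ω) * (x ω * Z ω)) =
      fun ω => Bd ω * (x ω * Z ω) + Bd' ω * (x ω * Z ω) := by
    funext ω
    ring
  rw [e, P.add, add_mul]
  exact add_le_add (h x Z hx hZ hxD hZD) (h' x Z hx hZ hxD hZD)

end HSum

/-! ### Charts around special vertices -/

noncomputable section

/-- **`HUpper` for a family of charts around special vertices**; `V` any subset, the boxes of the radius `C.r / 8` are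
removed. -/
theorem KCh.hup (s nV : ℕ) (t₀ : ℝ) (cK : ℝ → ℝ) (ht₀ : 0 < t₀) (ht₁ : t₀ ≤ 1) :
    ∃ K₀ : ℝ, 0 < K₀ ∧ ∀ {V Φ : Type} [DecidableEq V] [DecidableEq Φ] {Q : QC V Φ} {F : Finset Φ}
      {κ : Type} (C : KCh Q F κ), (∀ i, t₀ ≤ sT (C.K i) ∨ (sT (C.K i) = 0 ∧ C.m i = 2)) →
      ∀ (S : Finset κ), S.card ≤ nV → ∀ (K : (Φ → Bool) → ℕ) (Dm : Set Φ),
      (∀ i ∈ S, Dep (C.chain.B i 3)ᶜ K) → (∀ L : ℝ, 1 ≤ L → av F (fun ω => L ^ K ω) ≤ cK L) →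
      (∀ i ∈ S, Dm ⊆ (C.chain.B i 3)ᶜ) →
      HUpper (LH.avSys F) s Dm (fun ω => (∏ i ∈ S, sT (C.K i) ^ C.chain.N i 2 ω) *
        (2 / Real.sqrt 3) ^ K ω) (K₀ * ∏ i ∈ S, sF (C.K i) (C.m i) (C.r / 2 ^ 2)) := by
  obtain ⟨cM, A₀, hA, hG⟩ := KCh.good
  have hT : (1 : ℝ) ≤ 2 / Real.sqrt 3 := AU.one_le_q
  obtain ⟨K₀, hK, h⟩ := hup_of_good cM t₀ (2 / Real.sqrt 3) A₀ s nV (2 / Real.sqrt 3) cK ht₀ ht₁ hT hT
  refine ⟨K₀, hK, ?_⟩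
  intro V Φ _ _ Q F κ C hC S hS K Dm hKd hKm hDm
  have h1 := h (Φ → Bool) Φ κ (LH.avSys F) (C.chain.shift 2) (fun i => sT (C.K i))
    ((hG C t₀ ht₀.le hC).shift 2) S hS K Dm hKd hKm hDm
  have e : ∏ i ∈ S, (C.chain.shift 2).F i (sT (C.K i)) 0 = ∏ i ∈ S, sF (C.K i) (C.m i) (C.r / 2 ^ 2) :=
    Finset.prod_congr rfl fun i _ => C.F_eq i 2
  rw [e] at h1
  exact h1

/-! ### Atlases -/

attribute [local instance] Atlas.fκ Atlas.dκ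

/-- `HUpper` for cells linked to chain data, with an additional excess `X`. -/
theorem AU.hup (cM cY cX : ℝ → ℝ) (t₀ T A₀ : ℝ) (nS nY s : ℕ) (h0 : 0 < t₀) (h1 : t₀ ≤ 1)
    (hT : 1 ≤ T) :
    ∃ K₀ : ℝ, 0 < K₀ ∧ ∀ {V Φ ι κ τ : Type} [DecidableEq V] [DecidableEq Φ] [DecidableEq ι]
      [DecidableEq κ] {Q : QC V Φ} {F : Finset Φ} {ψ : V × V → ℝ} {Z : Finset (V × V)}
      (C : Cells Q F ψ Z ι κ) (D : ChainData (LH.avSys F) κ) (t : κ → ℝ) (J : Finset τ)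
      (Y : τ → (Φ → Bool) → ℕ), AU.Link C D t J Y cY → D.Good t cM t₀ T A₀ → C.S.card ≤ nS →
      J.card ≤ nY → ∀ (X : (Φ → Bool) → ℕ) (Dm : Set Φ), (∀ v ∈ C.S, Dep (D.B v 3)ᶜ X) →
      (∀ L : ℝ, 1 ≤ L → av F (fun ω => L ^ X ω) ≤ cX L) → (∀ v ∈ C.S, Dm ⊆ (D.B v 3)ᶜ) →
      HUpper (LH.avSys F) s Dm (fun ω => (∏ v ∈ C.S, C.t v ^ C.N v ω) *
        (2 / Real.sqrt 3) ^ (C.K ω + X ω)) (K₀ * ∏ v ∈ C.S, D.F v (t v) 2) := by
  obtain ⟨K₀, hK, h⟩ := hup_of_good cM t₀ T A₀ s nS (2 / Real.sqrt 3)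
    (fun L => Real.sqrt (AU.cK cM cY nS nY (L ^ 2)) * Real.sqrt (cX (L ^ 2))) h0 h1 hT AU.one_le_q
  refine ⟨K₀, hK, ?_⟩
  intro V Φ ι κ τ _ _ _ _ Q F ψ Z C D t J Y hl hG hS hJ X Dm hXd hXm hDm
  have h2 := h (Φ → Bool) Φ κ (LH.avSys F) (D.shift 2) t (hG.shift 2) C.S hS
    (fun ω => AU.Kx C D J Y ω + X ω) Dm
    (fun v hv ω ω' hω => by
      show AU.Kx C D J Y ω + X ω = AU.Kx C D J Y ω' + X ω'
      rw [hl.dep hv ω ω' hω, hXd v hv ω ω' hω]) (fun L hL => by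
      have hL2 : 1 ≤ L ^ 2 := one_le_pow₀ hL
      have e : (fun ω => L ^ (AU.Kx C D J Y ω + X ω)) =
          fun ω => L ^ AU.Kx C D J Y ω * L ^ X ω := by
        funext ω
        rw [pow_add]
      show av F (fun ω => L ^ (AU.Kx C D J Y ω + X ω)) ≤ _
      rw [e]
      show (LH.avSys F).E (fun ω => L ^ AU.Kx C D J Y ω * L ^ X ω) ≤ _
      refine ((LH.avSys F).cs_sqrt _ _).trans ?_
      have e1 : ∀ f : (Φ → Bool) → ℕ, (fun ω => (L ^ f ω) ^ 2) = fun ω => (L ^ 2) ^ f ω := by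
        intro f
        funext ω
        rw [← pow_mul, ← pow_mul, mul_comm]
      rw [e1, e1]
      exact mul_le_mul (Real.sqrt_le_sqrt (hl.mom hG hS hJ hL2)) (Real.sqrt_le_sqrt (hXm _ hL2))
        (Real.sqrt_nonneg _) (Real.sqrt_nonneg _)) hDm
  refine h2.mono_bd fun ω => ?_
  have e : ∏ v ∈ C.S, t v ^ (D.shift 2).N v 0 ω = ∏ v ∈ C.S, C.t v ^ C.N v ω := by
    refine Finset.prod_congr rfl fun v hv => ?_
    rw [hl.ht v hv, hl.hN v hv]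
    rfl
  show (∏ v ∈ C.S, C.t v ^ C.N v ω) * (2 / Real.sqrt 3) ^ (C.K ω + X ω) ≤
    (∏ v ∈ C.S, t v ^ (D.shift 2).N v 0 ω) * (2 / Real.sqrt 3) ^ (AU.Kx C D J Y ω + X ω)
  rw [e]
  refine mul_le_mul_of_nonneg_left (pow_le_pow_right₀ AU.one_le_q
    (Nat.add_le_add_right (hl.K_le ω) _)) ?_
  exact Finset.prod_nonneg fun v hv => pow_nonneg (C.t_nonneg v hv) _

/-- **`HUpper` for an atlas with its cells**, with an additional excess `X`; the boxes of the radius `r / 2` around the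
special vertices are removed. -/
theorem atlasC_hup (nS nN s : ℕ) (t₀ : ℝ) (cX : ℝ → ℝ) (h0 : 0 < t₀) (h1 : t₀ ≤ 1) :
    ∃ K₀ : ℝ, 0 < K₀ ∧ ∀ {V Φ : Type} [DecidableEq V] [DecidableEq Φ] {Q : QC V Φ} {F : Finset Φ}
      {ψ : V × V → ℝ} {Z : Finset (V × V)} {r : ℕ} (A : Atlas Q F ψ Z r nS nN t₀)
      {C : Cells Q F ψ Z (A.ι ⊕ A.μ) A.κ}, IsCells A C → C.I.card ≤ 2 * nN → C.S = univ → 0 < r →
      ∀ (X : (Φ → Bool) → ℕ) (Dm : Set Φ),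
      (∀ i, Dep ((A.ch i).box (r / 2) : Set Φ)ᶜ X) →
      (∀ L : ℝ, 1 ≤ L → av F (fun ω => L ^ X ω) ≤ cX L) →
      (∀ i, Dm ⊆ ((A.ch i).box (r / 2) : Set Φ)ᶜ) →
      HUpper (LH.avSys F) s Dm (fun ω => (∏ v ∈ C.S, C.t v ^ C.N v ω) *
        (2 / Real.sqrt 3) ^ (C.K ω + X ω)) (K₀ * ∏ i, sF (A.K i) (A.m i) r) := by
  classical
  obtain ⟨cY, hY⟩ := Atlas.Y_mom
  obtain ⟨cM, A₀, hA, hG⟩ := Atlas.good
  obtain ⟨K₀, hK, h⟩ := AU.hup cM cY cX t₀ (2 / Real.sqrt 3) A₀ nS (2 * nN + nS) s h0 h1 AU.one_le_q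
  refine ⟨K₀, hK, ?_⟩
  intro V Φ _ _ Q F ψ Z r A C hC hI hS hr X Dm hXd hXm hDm
  obtain ⟨e1, e2⟩ := A.card_idx hI hS
  have h2 := h C A.chain (fun i => sT (A.K i)) (C.I.disjSum C.S) A.Y
    (A.link hC hr fun L hL k => hY L hL A hr k) (hG A h0.le) e1 e2 X Dm (fun v _ => by
      rw [A.chain_B3]
      exact hXd v) hXm (fun v _ => by
      rw [A.chain_B3]
      exact hDm v)
  have e : ∏ v ∈ C.S, A.chain.F v (sT (A.K v)) 2 = ∏ i, sF (A.K i) (A.m i) r := by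
    rw [hS]
    exact Finset.prod_congr rfl fun i _ => A.chain_F2 i
  rw [e] at h2
  exact h2

/-- **`HUpper` for the absolute value of a weight with the local bound** (`AU.abs_WZ_le` for `WZ`). -/
theorem atlasC_hup_abs (nS nN s : ℕ) (t₀ : ℝ) (h0 : 0 < t₀) (h1 : t₀ ≤ 1) :
    ∃ K₀ : ℝ, 0 < K₀ ∧ ∀ {V Φ : Type} [DecidableEq V] [DecidableEq Φ] {Q : QC V Φ} {F : Finset Φ}
      {ψ : V × V → ℝ} {Z : Finset (V × V)} {r : ℕ} (A : Atlas Q F ψ Z r nS nN t₀)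
      {C : Cells Q F ψ Z (A.ι ⊕ A.μ) A.κ}, IsCells A C → C.I.card ≤ 2 * nN → C.S = univ → 0 < r →
      ∀ (W : (Φ → Bool) → ℝ) (Dm : Set Φ),
      (∀ ω, |W ω| ≤ (∏ v ∈ C.S, C.t v ^ C.N v ω) * (2 / Real.sqrt 3) ^ C.K ω) →
      (∀ i, Dm ⊆ ((A.ch i).box (r / 2) : Set Φ)ᶜ) →
      HUpper (LH.avSys F) s Dm (fun ω => |W ω|) (K₀ * ∏ i, sF (A.K i) (A.m i) r) := by
  obtain ⟨K₀, hK, h⟩ := atlasC_hup nS nN s t₀ (fun _ => 1) h0 h1
  refine ⟨K₀, hK, ?_⟩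
  intro V Φ _ _ Q F ψ Z r A C hC hI hS hr W Dm hW hDm
  have h2 := h A hC hI hS hr (fun _ => 0) Dm (fun i _ _ _ => rfl) (fun L _ => by
    simp only [pow_zero]
    exact le_of_eq ((LH.avSys F).one)) hDm
  refine h2.mono_bd fun ω => ?_
  rw [add_zero]
  exact hW ω

end

end Pool.Agent.SixB
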