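import Pool.Agent.Lib.SixB.S3AtlLowB

/-!
# 6BD, step 3, row R5b, third part: LOWER for an atlas with its cells

`atlasC_lower_cor`: `(c - K₀ √(1 - P good)) ∏ sF ≤ av F WZ` for an atlas `A` with a record of cells `C`, if the
blocking event is positively correlated with the absence of arcs over the vertices of weight `0` (hypothesis `hcor`).
`atlasC_lower`: no vertex of weight `0`. `atlasC_lower_pos`: the weight is nonnegative everywhere.
-/

set_option autoImplicit false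
set_option linter.unusedSectionVars false

namespace Pool.Agent.SixB

open Finset Pool.Agent.Perc.Q Pool.Agent.Perc

noncomputable section

attribute [local instance] Atlas.fκ Atlas.dκ

theorem AL.box_core {V Φ : Type} [DecidableEq V] [DecidableEq Φ] {Q : QC V Φ} {F : Finset Φ}
    {ψ : V × V → ℝ} {Z : Finset (V × V)} {r nS nN : ℕ} {t₀ : ℝ} (A : Atlas Q F ψ Z r nS nN t₀)
    (i : A.κ) : (A.ch i).box r ⊆ Bk.core A := fun f hf => by
  unfold Bk.core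
  exact Finset.mem_biUnion.mpr ⟨i, Finset.mem_univ _, hf⟩

open Classical in
/-- LOWER, general form. -/
theorem atlasC_lower_cor (nS nN : ℕ) (t₀ g₀ : ℝ) (h0 : 0 < t₀) (h1 : t₀ ≤ 1) (hg₀ : 0 < g₀) :
    ∃ c K₀ : ℝ, 0 < c ∧ 0 < K₀ ∧ ∀ {V Φ : Type} [DecidableEq V] [DecidableEq Φ] {Q : QC V Φ}
      {F : Finset Φ} {ψ : V × V → ℝ} {Z : Finset (V × V)} {r : ℕ} (A : Atlas Q F ψ Z r nS nN t₀)
      {D : Φ → Bool}, Bk.Colr A D → ∀ {C : Cells Q F ψ Z (A.ι ⊕ A.μ) A.κ}, IsCells A C → C.Exact →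
      C.I.card ≤ 2 * nN → C.S = univ → 0 < r →
      g₀ * av F (fun ω => ∏ i ∈ univ.filter (fun i => sT (A.K i) = 0), sT (A.K i) ^ A.chain.N i 0 ω) ≤
        av F (fun ω => (∏ i ∈ univ.filter (fun i => sT (A.K i) = 0),
          sT (A.K i) ^ A.chain.N i 0 ω) * if Bk.AtBlk A D ω then (1 : ℝ) else 0) →
      ∀ good : (Φ → Bool) → ℝ, (∀ ω, good ω = 0 ∨ good ω = 1) →
      (∀ i, Dep ((A.ch i).box (r / 2) : Set Φ)ᶜ good) → (∀ ω, good ω = 1 → 0 ≤ WZ Q F ψ Z ω) →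
      (c - K₀ * Real.sqrt (1 - av F good)) * ∏ i, sF (A.K i) (A.m i) r ≤ av F (WZ Q F ψ Z) := by
  obtain ⟨cY, hY⟩ := Atlas.Y_mom
  obtain ⟨cM, A₀, hA, hG⟩ := Atlas.good
  obtain ⟨c, K₀, hc, hK, h⟩ := AU.low cM cY t₀ (2 / Real.sqrt 3) A₀ g₀ nS (2 * nN + nS) h0 h1
    AU.one_le_q hg₀
  refine ⟨c, K₀, hc, hK, ?_⟩
  intro V Φ _ _ Q F ψ Z r A D hD C hC hE hI hS hr hcor good hgood hgd hpos
  obtain ⟨e1, e2⟩ := A.card_idx hI hS
  have h2 := h C A.chain (fun i => sT (A.K i)) (C.I.disjSum C.S) A.Y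
    (A.link hC hr fun L hL k => hY L hL A hr k) (hG A h0.le) hE e1 e2
    (univ.filter fun i => sT (A.K i) = 0) (univ.filter fun i => ¬ sT (A.K i) = 0)
    (Finset.disjoint_filter_filter_not _ _ _)
    (fun v => by
      rw [hS, Finset.mem_filter, Finset.mem_filter]
      by_cases h3 : sT (A.K v) = 0
      · simp [h3]
      · simp [h3])
    (fun v hv => (Finset.mem_filter.mp hv).2)
    (fun v hv => by
      rcases A.weights v with h3 | h3
      · exact h3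
      · exact absurd h3.1 (Finset.mem_filter.mp hv).2)
    good (fun ω => if Bk.AtBlk A D ω then (1 : ℝ) else 0) ((F \ Bk.core A : Finset Φ) : Set Φ)
    hgood
    (fun v _ => by
      rw [A.chain_B3]
      exact hgd v)
    (fun ω => by
      by_cases h3 : Bk.AtBlk A D ω
      · exact Or.inr (if_pos h3)
      · exact Or.inl (if_neg h3))
    (Bk.dep_atBlk A D)
    (fun v _ => by
      rw [A.chain_B2, Finset.disjoint_coe, Finset.disjoint_left]
      intro f hf hf'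
      exact (Finset.mem_sdiff.mp hf).2 (AL.box_core A v hf'))
    hcor hpos
    (fun ω hω => by
      have h3 : Bk.AtBlk A D ω := by
        by_contra h4
        rw [if_neg h4] at hω
        exact zero_ne_one hω
      exact ⟨AL.atBlk_X hD hC h3, AL.atBlk_mates hD hC h3⟩)
  refine le_trans (le_of_eq ?_) h2
  congr 1
  rw [hS]
  exact Finset.prod_congr rfl fun i _ => (A.chain_F2 i).symm

/-- LOWER, no vertex of weight `0`. -/
theorem atlasC_lower (nS nN : ℕ) (t₀ : ℝ) (h0 : 0 < t₀) (h1 : t₀ ≤ 1) :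
    ∃ c K₀ : ℝ, 0 < c ∧ 0 < K₀ ∧ ∀ {V Φ : Type} [DecidableEq V] [DecidableEq Φ] {Q : QC V Φ}
      {F : Finset Φ} {ψ : V × V → ℝ} {Z : Finset (V × V)} {r : ℕ} (A : Atlas Q F ψ Z r nS nN t₀)
      {D : Φ → Bool}, Bk.Colr A D → ∀ {C : Cells Q F ψ Z (A.ι ⊕ A.μ) A.κ}, IsCells A C → C.Exact →
      C.I.card ≤ 2 * nN → C.S = univ → 0 < r → (∀ i, sT (A.K i) ≠ 0) →
      ∀ good : (Φ → Bool) → ℝ, (∀ ω, good ω = 0 ∨ good ω = 1) →
      (∀ i, Dep ((A.ch i).box (r / 2) : Set Φ)ᶜ good) → (∀ ω, good ω = 1 → 0 ≤ WZ Q F ψ Z ω) →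
      (c - K₀ * Real.sqrt (1 - av F good)) * ∏ i, sF (A.K i) (A.m i) r ≤ av F (WZ Q F ψ Z) := by
  classical
  obtain ⟨g₀, hg₀, hb⟩ := Bk.atBlk_pos nS nN
  obtain ⟨c, K₀, hc, hK, h⟩ := atlasC_lower_cor nS nN t₀ g₀ h0 h1 hg₀
  refine ⟨c, K₀, hc, hK, ?_⟩
  intro V Φ _ _ Q F ψ Z r A D hD C hC hE hI hS hr hne good hgood hgd hpos
  refine h A hD hC hE hI hS hr ?_ good hgood hgd hpos
  have e : (univ.filter fun i => sT (A.K i) = 0) = ∅ :=
    Finset.filter_eq_empty_iff.mpr fun i _ => hne i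
  rw [e]
  simp only [Finset.prod_empty, one_mul]
  have h3 : av F (fun _ => (1 : ℝ)) = 1 := (LH.avSys F).one
  rw [h3, mul_one]
  exact hb A D hD hr

/-- LOWER, nonnegative weight, general form. -/
theorem AL.pos_of (c K₀ : ℝ) {V Φ : Type} [DecidableEq V] [DecidableEq Φ] {Q : QC V Φ}
    {F : Finset Φ} {ψ : V × V → ℝ} {Z : Finset (V × V)} {r nS nN : ℕ} {t₀ : ℝ}
    (A : Atlas Q F ψ Z r nS nN t₀)
    (h : ∀ good : (Φ → Bool) → ℝ, (∀ ω, good ω = 0 ∨ good ω = 1) →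
      (∀ i, Dep ((A.ch i).box (r / 2) : Set Φ)ᶜ good) → (∀ ω, good ω = 1 → 0 ≤ WZ Q F ψ Z ω) →
      (c - K₀ * Real.sqrt (1 - av F good)) * ∏ i, sF (A.K i) (A.m i) r ≤ av F (WZ Q F ψ Z))
    (hpos : ∀ ω, 0 ≤ WZ Q F ψ Z ω) : c * ∏ i, sF (A.K i) (A.m i) r ≤ av F (WZ Q F ψ Z) := by
  have h2 := h (fun _ => 1) (fun _ => Or.inr rfl) (fun _ _ _ _ => rfl) fun ω _ => hpos ω
  have h3 : av F (fun _ => (1 : ℝ)) = 1 := (LH.avSys F).one
  rw [h3, sub_self, Real.sqrt_zero, mul_zero, sub_zero] at h2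
  exact h2

end

end Pool.Agent.SixB
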