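import Pool.Agent.Lib.SixB.S3Hold

/-!
# SixB, step 3: own factors and comparison of scales (abstract part)

* `ChainData.shift`: the chain data seen from the box number `k`.
* `F_le_F_one`, `F_one_le_F`: `E[t ^ N v 0]` and `E[t ^ N v 1]` are comparable (all `0 ≤ t ≤ T`).
* `F_shift_le`, `F_le_F_shift`: the same for `k` steps.
* `own_blk`: `E[t ^ N v 0 * blk] ≥ a₀ E[t ^ N v 0]` for an event `blk` of the ring `B v 0 \ B v 1`.
-/

set_option autoImplicit false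
set_option linter.unusedVariables false

namespace Pool.Agent.SixB

open Finset

/-- chain data seen from box number `k` -/
def ChainData.shift {Ω ι κ : Type*} {P : ExpSys Ω ι} (D : ChainData P κ) (k : ℕ) :
    ChainData P κ where
  B := fun v j => D.B v (j + k)
  N := fun v j => D.N v (j + k)
  M := fun v j => D.M v (j + k)
  hB := fun v j => by
    have := D.hB v (j + k)
    rwa [show j + 1 + k = j + k + 1 by omega]
  hdis := fun v v' h => by
    have h1 := D.hdis v v' h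
    exact h1.mono (box_anti (D.hB v) (Nat.zero_le _)) (box_anti (D.hB v') (Nat.zero_le _))
  hN := fun v j => D.hN v (j + k)
  hM := fun v j => by
    have := D.hM v (j + k)
    rwa [show j + 2 + k = j + k + 2 by omega]
  hN1 := fun v j ω => by
    have := D.hN1 v (j + k) ω
    rwa [show j + 1 + k = j + k + 1 by omega]
  hN2 := fun v j ω => by
    have := D.hN2 v (j + k) ω
    rwa [show j + 1 + k = j + k + 1 by omega]
  J := D.J
  hJ := fun v j hj ω => D.hJ v (j + k) (by omega) ω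

theorem ChainData.shift_F {Ω ι κ : Type*} {P : ExpSys Ω ι} (D : ChainData P κ) (k : ℕ) (v : κ)
    (t : ℝ) (j : ℕ) : (D.shift k).F v t j = D.F v t (j + k) := rfl

theorem ChainData.Good.shift {Ω ι κ : Type*} {P : ExpSys Ω ι} {D : ChainData P κ} {t : κ → ℝ}
    {cM : ℝ → ℝ} {t₀ T A₀ : ℝ} (h : D.Good t cM t₀ T A₀) (k : ℕ) :
    (D.shift k).Good t cM t₀ T A₀ where
  mom := fun L hL v j => h.mom L hL v (j + k)
  t_nonneg := h.t_nonneg
  t_le := h.t_le
  scale := fun v => by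
    rcases h.scale v with h1 | h1
    · exact Or.inl h1
    · refine Or.inr fun j => ?_
      have h2 := h1 (j + k)
      rw [D.shift_F, D.shift_F, show j + 1 + k = j + k + 1 by omega]
      exact h2

/-- the bigger scale is bounded by the smaller one -/
theorem F_le_F_one (cM : ℝ → ℝ) (t₀ T A₀ : ℝ) (ht₀ : 0 < t₀) (ht₁ : t₀ ≤ 1) (hT : 1 ≤ T) :
    ∃ C : ℝ, 1 ≤ C ∧ ∀ (Ω ι κ : Type) (P : ExpSys Ω ι) (D : ChainData P κ) (t : κ → ℝ),
      D.Good t cM t₀ T A₀ → ∀ v j, D.F v (t v) j ≤ C * D.F v (t v) (j + 1) := by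
  obtain ⟨C, hC, hmain⟩ := qm_upper cM t₀ T A₀ ht₀ ht₁ hT
  set R : ℝ := max (Real.sqrt (cM (T ^ 2))) 1 with hR
  have hR1 : 1 ≤ R := le_max_right _ _
  refine ⟨C * R, by nlinarith, ?_⟩
  intro Ω ι κ P D t hG v j
  have hT0 : 0 ≤ T := by linarith
  set Y : Ω → ℝ := fun ω => T ^ D.M v j ω with hY
  have hYd : P.Dep (D.B v (j + 2))ᶜ Y := by
    have h1 : P.Dep (D.B v (j + 2))ᶜ (D.M v j) := (D.hM v j).mono fun x hx => hx.2
    exact h1.comp fun n => T ^ n
  have h1 := hmain Ω ι κ P (D.shift (j + 1)) t (hG.shift (j + 1)) {v} Y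
    (fun ω => pow_nonneg hT0 _) (fun v' hv' => by
      rw [Finset.mem_singleton] at hv'
      subst hv'
      have e : (D.shift (j + 1)).B v' 1 = D.B v' (j + 2) := by
        show D.B v' (1 + (j + 1)) = _
        congr 1
        omega
      rw [e]
      exact hYd)
  simp only [Finset.prod_singleton, Finset.card_singleton, pow_one] at h1
  have e0 : ∀ ω, (D.shift (j + 1)).N v 0 ω = D.N v (j + 1) ω := by
    intro ω
    show D.N v (0 + (j + 1)) ω = _
    rw [zero_add]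
  have eF : (D.shift (j + 1)).F v (t v) 0 = D.F v (t v) (j + 1) := by
    rw [D.shift_F, zero_add]
  rw [eF] at h1
  have h2 : D.F v (t v) j ≤ P.E (fun ω => t v ^ (D.shift (j + 1)).N v 0 ω * Y ω) := by
    unfold ChainData.F
    refine P.mono _ _ fun ω => ?_
    rw [e0]
    have h3 := D.hN1 v j ω
    have h4 := D.hN2 v j ω
    have ht := hG.t_nonneg v
    rcases le_total 1 (t v) with h5 | h5
    · calc t v ^ D.N v j ω ≤ t v ^ (D.N v (j + 1) ω + D.M v j ω) := pow_le_pow_right₀ h5 h4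
        _ = t v ^ D.N v (j + 1) ω * t v ^ D.M v j ω := pow_add _ _ _
        _ ≤ t v ^ D.N v (j + 1) ω * T ^ D.M v j ω :=
            mul_le_mul_of_nonneg_left (pow_le_pow_left₀ ht (hG.t_le v) _) (pow_nonneg ht _)
    · calc t v ^ D.N v j ω ≤ t v ^ D.N v (j + 1) ω := pow_le_pow_of_le_one ht h5 h3
        _ ≤ t v ^ D.N v (j + 1) ω * T ^ D.M v j ω :=
            le_mul_of_one_le_right (pow_nonneg ht _) (one_le_pow₀ hT)
  have h3 : Real.sqrt (P.E (fun ω => Y ω ^ 2)) ≤ R := by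
    have e : (fun ω => Y ω ^ 2) = fun ω => (T ^ 2) ^ D.M v j ω := by
      funext ω
      simp only [hY]
      rw [← pow_mul, ← pow_mul, mul_comm]
    rw [e]
    exact (Real.sqrt_le_sqrt (hG.mom _ (one_le_pow₀ hT) v j)).trans (le_max_left _ _)
  have hF : 0 ≤ D.F v (t v) (j + 1) := P.E_nonneg fun ω => pow_nonneg (hG.t_nonneg v) _
  calc D.F v (t v) j ≤ C * D.F v (t v) (j + 1) * Real.sqrt (P.E (fun ω => Y ω ^ 2)) := h2.trans h1
    _ ≤ C * D.F v (t v) (j + 1) * R := mul_le_mul_of_nonneg_left h3 (by positivity)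
    _ = _ := by ring

/-- the smaller scale is bounded by the bigger one -/
theorem F_one_le_F (cM : ℝ → ℝ) (t₀ T A₀ : ℝ) (ht₀ : 0 < t₀) (ht₁ : t₀ ≤ 1) (hT : 1 ≤ T) :
    ∃ A : ℝ, 1 ≤ A ∧ ∀ (Ω ι κ : Type) (P : ExpSys Ω ι) (D : ChainData P κ) (t : κ → ℝ),
      D.Good t cM t₀ T A₀ → ∀ v j, D.F v (t v) (j + 1) ≤ A * D.F v (t v) j := by
  obtain ⟨m, d, A, -, hA, -, hmain⟩ := exists_consts cM t₀ T A₀ ht₀ ht₁ hT
  exact ⟨A, hA, fun Ω ι κ P D t hG v j => (hmain Ω ι κ P D t hG).2 v j⟩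

/-- `k` steps -/
theorem F_le_F_shift (cM : ℝ → ℝ) (t₀ T A₀ : ℝ) (ht₀ : 0 < t₀) (ht₁ : t₀ ≤ 1) (hT : 1 ≤ T)
    (k : ℕ) :
    ∃ C : ℝ, 1 ≤ C ∧ ∀ (Ω ι κ : Type) (P : ExpSys Ω ι) (D : ChainData P κ) (t : κ → ℝ),
      D.Good t cM t₀ T A₀ → ∀ v j, D.F v (t v) j ≤ C * D.F v (t v) (j + k) ∧
        D.F v (t v) (j + k) ≤ C * D.F v (t v) j := by
  obtain ⟨C, hC, h1⟩ := F_le_F_one cM t₀ T A₀ ht₀ ht₁ hT
  obtain ⟨A, hA, h2⟩ := F_one_le_F cM t₀ T A₀ ht₀ ht₁ hT
  have hCA : 1 ≤ C * A := by nlinarith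
  refine ⟨(C * A) ^ k, one_le_pow₀ hCA, ?_⟩
  intro Ω ι κ P D t hG v j
  have hF : ∀ i, 0 ≤ D.F v (t v) i := fun i => P.E_nonneg fun ω => pow_nonneg (hG.t_nonneg v) _
  induction k with
  | zero => simp
  | succ k ih =>
    obtain ⟨i1, i2⟩ := ih
    have h3 := h1 Ω ι κ P D t hG v (j + k)
    have h4 := h2 Ω ι κ P D t hG v (j + k)
    have hk : 0 < (C * A) ^ k := by positivity
    have hC0 : 0 < C := by linarith
    have hA0 : 0 < A := by linarith
    refine ⟨?_, ?_⟩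
    · calc D.F v (t v) j ≤ (C * A) ^ k * D.F v (t v) (j + k) := i1
        _ ≤ (C * A) ^ k * (C * D.F v (t v) (j + k + 1)) := mul_le_mul_of_nonneg_left h3 hk.le
        _ ≤ (C * A) ^ k * ((C * A) * D.F v (t v) (j + k + 1)) := by
            refine mul_le_mul_of_nonneg_left ?_ hk.le
            exact mul_le_mul_of_nonneg_right (by nlinarith) (hF _)
        _ = _ := by
            rw [pow_succ, show j + (k + 1) = j + k + 1 by omega]
            ring
    · calc D.F v (t v) (j + (k + 1)) = D.F v (t v) (j + k + 1) := by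
            rw [show j + (k + 1) = j + k + 1 by omega]
        _ ≤ A * D.F v (t v) (j + k) := h4
        _ ≤ A * ((C * A) ^ k * D.F v (t v) j) := mul_le_mul_of_nonneg_left i2 hA0.le
        _ ≤ (C * A) * ((C * A) ^ k * D.F v (t v) j) := by
            refine mul_le_mul_of_nonneg_right (by nlinarith) (mul_nonneg hk.le (hF _))
        _ = _ := by rw [pow_succ]; ring

/-- OWN FACTOR: a blocking event in the ring `B v 0 \ B v 1` costs a constant factor only -/
theorem own_blk (cM : ℝ → ℝ) (t₀ T A₀ g₀ : ℝ) (ht₀ : 0 < t₀) (ht₁ : t₀ ≤ 1) (hT : 1 ≤ T)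
    (hg₀ : 0 < g₀) :
    ∃ a₀ : ℝ, 0 < a₀ ∧ ∀ (Ω ι κ : Type) (P : ExpSys Ω ι) (D : ChainData P κ) (t : κ → ℝ),
      D.Good t cM t₀ T A₀ → ∀ (v : κ), t₀ ≤ t v → ∀ (j : ℕ) (blk : Ω → ℝ),
      P.Dep (D.B v j \ D.B v (j + 1)) blk → (∀ ω, 0 ≤ blk ω) → (∀ ω, blk ω ≤ 1) →
      g₀ ≤ P.E blk →
      a₀ * D.F v (t v) j ≤ P.E (fun ω => t v ^ D.N v j ω * blk ω) := by
  obtain ⟨c, hc, hlow⟩ := qm_lower cM t₀ T A₀ (cM 2) g₀ t₀ 1 ht₀ ht₁ hT hg₀ ht₀ ht₁
  obtain ⟨C, hC, hF⟩ := F_le_F_one cM t₀ T A₀ ht₀ ht₁ hT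
  have hC0 : 0 < C := by linarith
  refine ⟨c / C, by positivity, ?_⟩
  intro Ω ι κ P D t hG v htv j blk hbd hb0 hb1 hbE
  have eB0 : (D.shift (j + 1)).B v 0 = D.B v (j + 1) := by
    show D.B v (0 + (j + 1)) = _
    rw [zero_add]
  have eB1 : (D.shift (j + 1)).B v 1 = D.B v (j + 2) := by
    show D.B v (1 + (j + 1)) = _
    congr 1
    omega
  have e0 : ∀ ω, (D.shift (j + 1)).N v 0 ω = D.N v (j + 1) ω := by
    intro ω
    show D.N v (0 + (j + 1)) ω = _
    rw [zero_add]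
  have h1 := hlow Ω ι κ P (D.shift (j + 1)) t (hG.shift (j + 1)) {v} (by simp) (D.M v j) blk
    (D.B v j \ D.B v (j + 1))
    (fun v' hv' => by
      rw [Finset.mem_singleton] at hv'
      subst hv'
      rw [eB1]
      exact (D.hM v' j).mono fun x hx => hx.2)
    (hG.mom 2 (by norm_num) v j) hbd
    (fun v' hv' => by
      rw [Finset.mem_singleton] at hv'
      subst hv'
      rw [eB0]
      exact Set.disjoint_left.2 fun x hx hx' => hx.2 hx')
    hb0 hb1 hbE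
  simp only [Finset.prod_singleton] at h1
  rw [show (D.shift (j + 1)).F v (t v) 0 = D.F v (t v) (j + 1) by rw [D.shift_F, zero_add]] at h1
  have h2 : P.E (fun ω => t v ^ (D.shift (j + 1)).N v 0 ω * (t₀ ^ D.M v j ω * blk ω)) ≤
      P.E (fun ω => t v ^ D.N v j ω * blk ω) := by
    refine P.mono _ _ fun ω => ?_
    rw [e0, ← mul_assoc]
    refine mul_le_mul_of_nonneg_right ?_ (hb0 ω)
    have h3 := D.hN1 v j ω
    have h4 := D.hN2 v j ω
    have ht := hG.t_nonneg v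
    rcases le_total 1 (t v) with h5 | h5
    · calc t v ^ D.N v (j + 1) ω * t₀ ^ D.M v j ω ≤ t v ^ D.N v (j + 1) ω :=
            mul_le_of_le_one_right (pow_nonneg ht _) (pow_le_one₀ ht₀.le ht₁)
        _ ≤ t v ^ D.N v j ω := pow_le_pow_right₀ h5 h3
    · calc t v ^ D.N v (j + 1) ω * t₀ ^ D.M v j ω
          ≤ t v ^ D.N v (j + 1) ω * t v ^ D.M v j ω :=
            mul_le_mul_of_nonneg_left (pow_le_pow_left₀ ht₀.le htv _) (pow_nonneg ht _)
        _ = t v ^ (D.N v (j + 1) ω + D.M v j ω) := (pow_add _ _ _).symm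
        _ ≤ t v ^ D.N v j ω := pow_le_pow_of_le_one ht h5 h4
  have h3 := hF Ω ι κ P D t hG v j
  calc c / C * D.F v (t v) j ≤ c / C * (C * D.F v (t v) (j + 1)) :=
        mul_le_mul_of_nonneg_left h3 (by positivity)
    _ = c * D.F v (t v) (j + 1) := by field_simp
    _ ≤ _ := h1.trans h2

end Pool.Agent.SixB
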