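import Pool.Agent.Lib.SixB.S3LowF
import Pool.Agent.Lib.SixB.S3Own

/-!
# SixB, step 3: abstract LOWER bound from an exact product on a blocking event

`D : ChainData` with the boxes `B v 0 ⊇ B v 1 ⊇ B v 2 ⊇ ..` (radii `4 r`, `2 r`, `r`, ..).
* `mom_two`: exponential moments of `∑ v, (M v 0 + M v 1)`.
* `lower_ring`: if `W = ∏ t v ^ N v 0` on the event `blk` which depends on the faces outside the boxes
  `B v 2`, and `0 ≤ W` on the event `good`, then `(c - C √(P(not good))) ∏ F v 2 ≤ E W`; vertices with weight `0`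
  are allowed if `blk` is positively correlated with the event `∀ v, N v 0 = 0` of these vertices.
-/

set_option autoImplicit false
set_option linter.unusedVariables false

namespace Pool.Agent.SixB.UL

open Finset Pool.Agent.SixB

section

variable {Ω ι κ : Type} {P : ExpSys Ω ι} {D : ChainData P κ} {t : κ → ℝ} {cM : ℝ → ℝ}
  {t₀ T A₀ : ℝ}

/-- one vertex -/
theorem mom_two_one (hG : D.Good t cM t₀ T A₀) (v : κ) :
    P.E (fun ω => (2 : ℝ) ^ (D.M v 0 ω + D.M v 1 ω)) ≤ max (cM 4) 1 := by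
  have h1 := P.cs_sqrt (fun ω => (2 : ℝ) ^ D.M v 0 ω) (fun ω => (2 : ℝ) ^ D.M v 1 ω)
  have e : ∀ j, (fun ω => ((2 : ℝ) ^ D.M v j ω) ^ 2) = fun ω => (4 : ℝ) ^ D.M v j ω := by
    intro j
    funext ω
    rw [← pow_mul, mul_comm, pow_mul]
    norm_num
  rw [e 0, e 1] at h1
  have h2 : ∀ j, Real.sqrt (P.E (fun ω => (4 : ℝ) ^ D.M v j ω)) ≤ Real.sqrt (max (cM 4) 1) :=
    fun j => Real.sqrt_le_sqrt ((hG.mom 4 (by norm_num) v j).trans (le_max_left _ _))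
  have h3 : (fun ω => (2 : ℝ) ^ (D.M v 0 ω + D.M v 1 ω)) =
      fun ω => (2 : ℝ) ^ D.M v 0 ω * 2 ^ D.M v 1 ω := by
    funext ω
    rw [pow_add]
  rw [h3]
  refine h1.trans ?_
  calc _ ≤ Real.sqrt (max (cM 4) 1) * Real.sqrt (max (cM 4) 1) :=
        mul_le_mul (h2 0) (h2 1) (Real.sqrt_nonneg _) (Real.sqrt_nonneg _)
    _ = max (cM 4) 1 := Real.mul_self_sqrt (zero_le_one.trans (le_max_right _ _))

theorem dep_two (v : κ) : P.Dep (D.B v 0 \ D.B v 3) (fun ω => D.M v 0 ω + D.M v 1 ω) := by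
  have h0 : P.Dep (D.B v 0 \ D.B v 3) (D.M v 0) :=
    (D.hM v 0).mono (Set.sdiff_subset_sdiff subset_rfl (D.hB v 2))
  have h1 : P.Dep (D.B v 0 \ D.B v 3) (D.M v 1) :=
    (D.hM v 1).mono (Set.sdiff_subset_sdiff (D.hB v 0) subset_rfl)
  exact h0.comp2 h1 fun x y : ℕ => x + y

/-- all vertices -/
theorem mom_two (hG : D.Good t cM t₀ T A₀) (V : Finset κ) (nV : ℕ) (hV : V.card ≤ nV) :
    P.E (fun ω => (2 : ℝ) ^ ∑ v ∈ V, (D.M v 0 ω + D.M v 1 ω)) ≤ max (cM 4) 1 ^ nV := by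
  classical
  have e : (fun ω => (2 : ℝ) ^ ∑ v ∈ V, (D.M v 0 ω + D.M v 1 ω)) =
      fun ω => (∏ v ∈ V, (2 : ℝ) ^ (D.M v 0 ω + D.M v 1 ω)) * 1 := by
    funext ω
    rw [mul_one, Finset.prod_pow_eq_pow_sum]
  rw [e, own_prod P (fun v => D.B v 0) D.hdis (fun v ω => (2 : ℝ) ^ (D.M v 0 ω + D.M v 1 ω)) V
    (fun v _ => ((dep_two v).mono Set.sdiff_subset).comp fun n => (2 : ℝ) ^ n) (fun _ => 1) ∅
    (ExpSys.Dep.const _ _) (fun v _ => Set.empty_disjoint _), P.E_const, mul_one]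
  calc ∏ v ∈ V, P.E (fun ω => (2 : ℝ) ^ (D.M v 0 ω + D.M v 1 ω)) ≤ ∏ _v ∈ V, max (cM 4) 1 :=
        Finset.prod_le_prod (fun v _ => P.E_nonneg fun ω => by positivity)
          fun v _ => mom_two_one hG v
    _ = max (cM 4) 1 ^ V.card := by rw [Finset.prod_const]
    _ ≤ max (cM 4) 1 ^ nV := pow_le_pow_right₀ (le_max_right _ _) hV

/-- one step of two scales, weights at least `t₀` -/
theorem two_steps (ht₀ : 0 < t₀) (ht₁ : t₀ ≤ 1) {v : κ} (hv : t₀ ≤ t v) (ω : Ω) :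
    t v ^ D.N v 2 ω * t₀ ^ (D.M v 0 ω + D.M v 1 ω) ≤ t v ^ D.N v 0 ω := by
  have h0 : 0 < t v := ht₀.trans_le hv
  have h1 := D.hN1 v 0 ω
  have h2 := D.hN1 v 1 ω
  have h3 := D.hN2 v 0 ω
  have h4 := D.hN2 v 1 ω
  simp only [zero_add] at h1 h2 h3 h4
  rw [show 1 + 1 = 2 from rfl] at h2 h4
  rcases le_total 1 (t v) with h | h
  · calc t v ^ D.N v 2 ω * t₀ ^ (D.M v 0 ω + D.M v 1 ω) ≤ t v ^ D.N v 2 ω :=
          mul_le_of_le_one_right (pow_nonneg h0.le _) (pow_le_one₀ ht₀.le ht₁)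
      _ ≤ t v ^ D.N v 0 ω := pow_le_pow_right₀ h (by omega)
  · calc t v ^ D.N v 2 ω * t₀ ^ (D.M v 0 ω + D.M v 1 ω)
        ≤ t v ^ D.N v 2 ω * t v ^ (D.M v 0 ω + D.M v 1 ω) :=
          mul_le_mul_of_nonneg_left (pow_le_pow_left₀ ht₀.le hv _) (pow_nonneg h0.le _)
      _ = t v ^ (D.N v 2 ω + (D.M v 0 ω + D.M v 1 ω)) := (pow_add _ _ _).symm
      _ ≤ t v ^ D.N v 0 ω := pow_le_pow_of_le_one h0.le h (by omega)

end

/-- LOWER bound from an exact product on a blocking event. `V₀`: vertices with weight `0`. -/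
theorem lower_ring (cM : ℝ → ℝ) (t₀ T A₀ : ℝ) (nV : ℕ) (q : ℝ) (cK : ℝ → ℝ) (g₀ : ℝ)
    (ht₀ : 0 < t₀) (ht₁ : t₀ ≤ 1) (hT : 1 ≤ T) (hq : 1 ≤ q) (hg₀ : 0 < g₀) :
    ∃ c C : ℝ, 0 < c ∧ 0 < C ∧ ∀ (Ω ι κ : Type) (P : ExpSys Ω ι) (D : ChainData P κ) (t : κ → ℝ),
      D.Good t cM t₀ T A₀ → ∀ (V V₀ V₁ : Finset κ), Disjoint V₀ V₁ →
      (∀ v, v ∈ V₀ ∨ v ∈ V₁ ↔ v ∈ V) → V.card ≤ nV →
      (∀ v ∈ V₀, t v = 0) → (∀ v ∈ V₁, t₀ ≤ t v) →
      ∀ (K : Ω → ℕ) (W good blk : Ω → ℝ) (S : Set ι),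
      Loc P (D.shift 2) t V q cK K W →
      (∀ ω, good ω = 0 ∨ good ω = 1) → (∀ v ∈ V, P.Dep (D.B v 3)ᶜ good) →
      (∀ ω, blk ω = 0 ∨ blk ω = 1) → P.Dep S blk → (∀ v ∈ V₁, Disjoint S (D.B v 2)) →
      g₀ * P.E (fun ω => ∏ v ∈ V₀, t v ^ D.N v 0 ω) ≤
        P.E (fun ω => (∏ v ∈ V₀, t v ^ D.N v 0 ω) * blk ω) →
      (∀ ω, good ω = 1 → 0 ≤ W ω) →
      (∀ ω, good ω = 1 → blk ω = 1 → ∏ v ∈ V, t v ^ D.N v 0 ω ≤ W ω) →
      (c - C * Real.sqrt (1 - P.E good)) * ∏ v ∈ V, D.F v (t v) 2 ≤ P.E W := by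
  classical
  obtain ⟨c, C, hc, hC, hlow⟩ := lower_f cM t₀ T A₀ nV q cK (max (cM 4) 1 ^ nV) g₀ t₀ ht₀ ht₁ hT hq
    hg₀ ht₀ ht₁
  obtain ⟨B, hB, hF⟩ := F_le_F_shift cM t₀ T A₀ ht₀ ht₁ hT 2
  have hB0 : 0 < B := by linarith
  refine ⟨c / B ^ nV, C, by positivity, hC, ?_⟩
  intro Ω ι κ P D t hG V V₀ V₁ hdis hun' hV ht0 ht1 K W good blk S hL hgood hgd hblk hbd hSB hcor
    hpos hlo
  have hun : V₀ ∪ V₁ = V := by
    ext v
    rw [Finset.mem_union]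
    exact hun' v
  have hsub1 : V₁ ⊆ V := hun ▸ Finset.subset_union_right
  have hsub0 : V₀ ⊆ V := hun ▸ Finset.subset_union_left
  have hFv : ∀ v j, 0 ≤ D.F v (t v) j := fun v j =>
    P.E_nonneg fun ω => pow_nonneg (hG.t_nonneg v) _
  set f : Ω → ℝ := fun ω => ∏ v ∈ V₀, t v ^ D.N v 0 ω with hf
  have hf0 : ∀ ω, 0 ≤ f ω := fun ω => Finset.prod_nonneg fun v _ => pow_nonneg (hG.t_nonneg v) _
  set R : Set ι := ⋃ v ∈ V₀, D.B v 0 with hR
  have hfd : P.Dep R f := ExpSys.Dep.prod _ _ fun v hv =>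
    ((D.hN v 0).comp fun n => t v ^ n).mono (Set.subset_biUnion_of_mem (u := fun v => D.B v 0) hv)
  have hRB : ∀ v ∈ V₁, Disjoint R (D.B v 0) := by
    intro v hv
    rw [hR, Set.disjoint_iUnion₂_left]
    intro v' hv'
    refine D.hdis v' v ?_
    rintro rfl
    exact Finset.disjoint_left.1 hdis hv' hv
  have hB2 : ∀ v, D.B v 2 ⊆ D.B v 0 := fun v => (D.hB v 1).trans (D.hB v 0)
  have hB3 : ∀ v, D.B v 3 ⊆ D.B v 0 := fun v => (D.hB v 2).trans (hB2 v)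
  have hfE : P.E f = ∏ v ∈ V₀, D.F v (t v) 0 := by
    have h1 := own_prod P (fun v => D.B v 0) D.hdis (fun v ω => t v ^ D.N v 0 ω) V₀
      (fun v _ => (D.hN v 0).comp fun n => t v ^ n) (fun _ => 1) ∅
      (ExpSys.Dep.const _ _) (fun v _ => Set.empty_disjoint _)
    rw [P.E_const, mul_one] at h1
    simp only [mul_one] at h1
    exact h1
  have e0 : ∀ v ω, (D.shift 2).N v 0 ω = D.N v 2 ω := fun v ω => by
    show D.N v (0 + 2) ω = _
    rw [zero_add]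
  have eF : ∀ v, (D.shift 2).F v (t v) 0 = D.F v (t v) 2 := fun v => by
    rw [D.shift_F, zero_add]
  have eB0 : ∀ v, (D.shift 2).B v 0 = D.B v 2 := fun v => by
    show D.B v (0 + 2) = _
    rw [zero_add]
  have eB1 : ∀ v, (D.shift 2).B v 1 = D.B v 3 := fun v => rfl
  have hN20 : ∀ v ω, D.N v 2 ω ≤ D.N v 0 ω := fun v ω => (D.hN1 v 1 ω).trans (D.hN1 v 0 ω)
  have hmain := hlow Ω ι κ P (D.shift 2) t (hG.shift 2) V V₁ hV ((Finset.card_le_card hsub1).trans hV)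
    K (fun ω => ∑ v ∈ V₁, (D.M v 0 ω + D.M v 1 ω)) W good blk f S R hL hgood
    (fun v hv => by rw [eB1]; exact hgd v hv) hblk hbd
    (fun v hv => by rw [eB0]; exact hSB v hv) hfd hf0
    (fun v hv => by
      rw [eB0]
      exact (hRB v hv).mono_right (hB2 v)) hcor
    (fun ω => by
      simp only [e0]
      rw [← hun, Finset.prod_union hdis]
      refine mul_le_mul_of_nonneg_right ?_
        (Finset.prod_nonneg fun v _ => pow_nonneg (hG.t_nonneg v) _)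
      refine Finset.prod_le_prod (fun v _ => pow_nonneg (hG.t_nonneg v) _) fun v hv => ?_
      rw [ht0 v hv]
      exact pow_le_pow_of_le_one le_rfl zero_le_one (hN20 v ω))
    (by
      intro ω ω' hω
      refine Finset.sum_congr rfl fun v hv => ?_
      refine (dep_two v).mono ?_ ω ω' hω
      intro x hx hx'
      exact Set.disjoint_left.1 (hRB v hv) hx' hx.1)
    (fun v hv => by
      rw [eB1]
      intro ω ω' hω
      refine Finset.sum_congr rfl fun v' hv' => ?_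
      refine (dep_two v').mono ?_ ω ω' hω
      intro x hx hx'
      by_cases h : v' = v
      · subst h
        exact hx.2 hx'
      · exact Set.disjoint_left.1 (D.hdis v' v h) hx.1 (hB3 v hx'))
    (mom_two hG V₁ nV ((Finset.card_le_card hsub1).trans hV)) hpos
    (fun ω h1 h2 => by
      refine le_trans ?_ (hlo ω h1 h2)
      simp only [e0]
      rw [← hun, Finset.prod_union hdis]
      refine mul_le_mul_of_nonneg_left ?_ (hf0 ω)
      rw [← Finset.prod_pow_eq_pow_sum, ← Finset.prod_mul_distrib]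
      exact Finset.prod_le_prod
        (fun v _ => mul_nonneg (pow_nonneg (hG.t_nonneg v) _) (pow_nonneg ht₀.le _))
        fun v hv => two_steps ht₀ ht₁ (ht1 v hv) ω)
  simp only [eF] at hmain
  refine le_trans ?_ hmain
  have hF2 : 0 ≤ ∏ v ∈ V, D.F v (t v) 2 := Finset.prod_nonneg fun v _ => hFv v 2
  have h0 : ∏ v ∈ V₀, D.F v (t v) 2 ≤ B ^ nV * P.E f := by
    rw [hfE]
    calc ∏ v ∈ V₀, D.F v (t v) 2 ≤ ∏ v ∈ V₀, (B * D.F v (t v) 0) :=
          Finset.prod_le_prod (fun v _ => hFv v 2) fun v _ => (hF Ω ι κ P D t hG v 0).2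
      _ = B ^ V₀.card * ∏ v ∈ V₀, D.F v (t v) 0 := by
          rw [Finset.prod_mul_distrib, Finset.prod_const]
      _ ≤ B ^ nV * ∏ v ∈ V₀, D.F v (t v) 0 :=
          mul_le_mul_of_nonneg_right
            (pow_le_pow_right₀ hB ((Finset.card_le_card hsub0).trans hV))
            (Finset.prod_nonneg fun v _ => hFv v 0)
  have h1 : c / B ^ nV * ∏ v ∈ V, D.F v (t v) 2 ≤ c * (P.E f * ∏ v ∈ V₁, D.F v (t v) 2) := by
    rw [← hun, Finset.prod_union hdis]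
    have hB1 : 0 < B ^ nV := by positivity
    have h3 : 0 ≤ ∏ v ∈ V₁, D.F v (t v) 2 := Finset.prod_nonneg fun v _ => hFv v 2
    calc c / B ^ nV * ((∏ v ∈ V₀, D.F v (t v) 2) * ∏ v ∈ V₁, D.F v (t v) 2)
        ≤ c / B ^ nV * ((B ^ nV * P.E f) * ∏ v ∈ V₁, D.F v (t v) 2) :=
          mul_le_mul_of_nonneg_left (mul_le_mul_of_nonneg_right h0 h3) (by positivity)
      _ = c * (P.E f * ∏ v ∈ V₁, D.F v (t v) 2) := by field_simp
  have h4 : (c / B ^ nV - C * Real.sqrt (1 - P.E good)) * ∏ v ∈ V, D.F v (t v) 2 =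
      c / B ^ nV * ∏ v ∈ V, D.F v (t v) 2 -
        C * Real.sqrt (1 - P.E good) * ∏ v ∈ V, D.F v (t v) 2 := by ring
  rw [h4]
  linarith

end Pool.Agent.SixB.UL
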