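import Pool.Agent.Lib.SixB.S3AtlUpA
import Pool.Agent.Lib.SixB.S3LowG

/-!
# 6BD, step 3, row R5b, first part: from cells and chain data to the lower bound

`low`: for cells `C` and chain data `D` with `AU.Link`, exact cells, an event `blk` off the boxes `D.B v 2` on which
no cell is crossed and all mates of `Z` are in `Z`, an event `good` off the boxes `D.B v 3` on which `0 ≤ WZ`:
`(c - C √(1 - P good)) ∏ D.F v (t v) 2 ≤ av F WZ`. Special vertices with weight `0` are allowed if `blk` is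
positively correlated with the absence of arcs over them.
-/

set_option autoImplicit false
set_option linter.unusedSectionVars false

namespace Pool.Agent.SixB.AU

open Finset Pool.Agent.Perc.Q Pool.Agent.SixB

/-- LOWER bound. -/
theorem low (cM cY : ℝ → ℝ) (t₀ T A₀ g₀ : ℝ) (nS nY : ℕ) (h0 : 0 < t₀) (h1 : t₀ ≤ 1)
    (hT : 1 ≤ T) (hg₀ : 0 < g₀) :
    ∃ c K₀ : ℝ, 0 < c ∧ 0 < K₀ ∧ ∀ {V Φ ι κ τ : Type} [DecidableEq V] [DecidableEq Φ]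
      [DecidableEq ι] [DecidableEq κ] {Q : QC V Φ} {F : Finset Φ} {ψ : V × V → ℝ}
      {Z : Finset (V × V)} (C : Cells Q F ψ Z ι κ) (D : ChainData (LH.avSys F) κ) (t : κ → ℝ)
      (J : Finset τ) (Y : τ → (Φ → Bool) → ℕ), Link C D t J Y cY → D.Good t cM t₀ T A₀ →
      C.Exact → C.S.card ≤ nS → J.card ≤ nY → ∀ V₀ V₁ : Finset κ, Disjoint V₀ V₁ →
      (∀ v, v ∈ V₀ ∨ v ∈ V₁ ↔ v ∈ C.S) → (∀ v ∈ V₀, t v = 0) → (∀ v ∈ V₁, t₀ ≤ t v) →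
      ∀ (good blk : (Φ → Bool) → ℝ) (S : Set Φ),
      (∀ ω, good ω = 0 ∨ good ω = 1) → (∀ v ∈ C.S, Dep (D.B v 3)ᶜ good) →
      (∀ ω, blk ω = 0 ∨ blk ω = 1) → Dep S blk → (∀ v ∈ V₁, Disjoint S (D.B v 2)) →
      g₀ * av F (fun ω => ∏ v ∈ V₀, t v ^ D.N v 0 ω) ≤
        av F (fun ω => (∏ v ∈ V₀, t v ^ D.N v 0 ω) * blk ω) →
      (∀ ω, good ω = 1 → 0 ≤ WZ Q F ψ Z ω) →
      (∀ ω, blk ω = 1 → C.X ω = 0 ∧ ∀ a ∈ Z, mate Q F ω a ∈ Z) →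
      (c - K₀ * Real.sqrt (1 - av F good)) * ∏ v ∈ C.S, D.F v (t v) 2 ≤ av F (WZ Q F ψ Z) := by
  obtain ⟨c, K₀, hc, hK, h⟩ := UL.lower_ring cM t₀ T A₀ nS (2 / Real.sqrt 3) (cK cM cY nS nY) g₀
    h0 h1 hT one_le_q hg₀
  refine ⟨c, K₀, hc, hK, ?_⟩
  intro V Φ ι κ τ _ _ _ _ Q F ψ Z C D t J Y hl hG hE hS hJ V₀ V₁ hdis hun ht0 ht1 good blk S
    hgood hgd hblk hbd hSB hcor hpos hX
  exact h (Φ → Bool) Φ κ (LH.avSys F) D t hG C.S V₀ V₁ hdis hun hS ht0 ht1 (Kx C D J Y)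
    (WZ Q F ψ Z) good blk S (hl.loc hG hS hJ (abs_WZ_le C)) hgood hgd hblk hbd hSB hcor hpos
    (fun ω _ hb => by
      obtain ⟨hX0, hm⟩ := hX ω hb
      rw [C.WZ_eq hE hX0 hm]
      refine le_of_eq (Finset.prod_congr rfl fun v hv => ?_)
      rw [hl.ht v hv, hl.hNb v hv])

/-- The case in which the weight is nonnegative for all configurations. -/
theorem low_pos (cM cY : ℝ → ℝ) (t₀ T A₀ g₀ : ℝ) (nS nY : ℕ) (h0 : 0 < t₀) (h1 : t₀ ≤ 1)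
    (hT : 1 ≤ T) (hg₀ : 0 < g₀) :
    ∃ c : ℝ, 0 < c ∧ ∀ {V Φ ι κ τ : Type} [DecidableEq V] [DecidableEq Φ]
      [DecidableEq ι] [DecidableEq κ] {Q : QC V Φ} {F : Finset Φ} {ψ : V × V → ℝ}
      {Z : Finset (V × V)} (C : Cells Q F ψ Z ι κ) (D : ChainData (LH.avSys F) κ) (t : κ → ℝ)
      (J : Finset τ) (Y : τ → (Φ → Bool) → ℕ), Link C D t J Y cY → D.Good t cM t₀ T A₀ →
      C.Exact → C.S.card ≤ nS → J.card ≤ nY → ∀ V₀ V₁ : Finset κ, Disjoint V₀ V₁ →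
      (∀ v, v ∈ V₀ ∨ v ∈ V₁ ↔ v ∈ C.S) → (∀ v ∈ V₀, t v = 0) → (∀ v ∈ V₁, t₀ ≤ t v) →
      ∀ (blk : (Φ → Bool) → ℝ) (S : Set Φ),
      (∀ ω, blk ω = 0 ∨ blk ω = 1) → Dep S blk → (∀ v ∈ V₁, Disjoint S (D.B v 2)) →
      g₀ * av F (fun ω => ∏ v ∈ V₀, t v ^ D.N v 0 ω) ≤
        av F (fun ω => (∏ v ∈ V₀, t v ^ D.N v 0 ω) * blk ω) →
      (∀ ω, 0 ≤ WZ Q F ψ Z ω) →
      (∀ ω, blk ω = 1 → C.X ω = 0 ∧ ∀ a ∈ Z, mate Q F ω a ∈ Z) →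
      c * ∏ v ∈ C.S, D.F v (t v) 2 ≤ av F (WZ Q F ψ Z) := by
  obtain ⟨c, K₀, hc, hK, h⟩ := low cM cY t₀ T A₀ g₀ nS nY h0 h1 hT hg₀
  refine ⟨c, hc, ?_⟩
  intro V Φ ι κ τ _ _ _ _ Q F ψ Z C D t J Y hl hG hE hS hJ V₀ V₁ hdis hun ht0 ht1 blk S
    hblk hbd hSB hcor hpos hX
  have h2 := h C D t J Y hl hG hE hS hJ V₀ V₁ hdis hun ht0 ht1 (fun _ => 1) blk S
    (fun _ => Or.inr rfl) (fun _ _ _ _ _ => rfl) hblk hbd hSB hcor (fun ω _ => hpos ω) hX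
  have h3 : av F (fun _ => (1 : ℝ)) = 1 := (LH.avSys F).one
  rw [h3, sub_self, Real.sqrt_zero, mul_zero, sub_zero] at h2
  exact h2

end Pool.Agent.SixB.AU
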