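import Pool.Agent.Lib.SixB.S3AtlUpB

/-!
# 6BD, step 3, row R1c, third part: upper bounds for an atlas with its cells

`atlasC_event`, `atlasC_one`, `atlasC_mul`: UPPER for an atlas `A` with a record of cells `C`, `IsCells A C`; the
constants depend on `nS`, `nN`, `t₀` only. The weight may be any `W` with
`|W| ≤ ∏ C.t v ^ C.N v * (2 / √3) ^ C.K` (`AU.abs_WZ_le` for `WZ`).
-/

set_option autoImplicit false
set_option linter.unusedSectionVars false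

namespace Pool.Agent.SixB

open Finset Pool.Agent.Perc.Q Pool.Agent.Perc

noncomputable section

attribute [local instance] Atlas.fκ Atlas.dκ

theorem Atlas.chain_B3 {V Φ : Type} [DecidableEq V] [DecidableEq Φ] {Q : QC V Φ} {F : Finset Φ}
    {ψ : V × V → ℝ} {Z : Finset (V × V)} {r nS nN : ℕ} {t₀ : ℝ} (A : Atlas Q F ψ Z r nS nN t₀)
    (i : A.κ) : A.chain.B i 3 = ((A.ch i).box (r / 2) : Set Φ) := by
  rw [A.chain_B, show 4 * r / 2 ^ 3 = r / 2 by omega]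

theorem Atlas.card_idx {V Φ : Type} [DecidableEq V] [DecidableEq Φ] {Q : QC V Φ} {F : Finset Φ}
    {ψ : V × V → ℝ} {Z : Finset (V × V)} {r nS nN : ℕ} {t₀ : ℝ} (A : Atlas Q F ψ Z r nS nN t₀)
    {C : Cells Q F ψ Z (A.ι ⊕ A.μ) A.κ} (hI : C.I.card ≤ 2 * nN) (hS : C.S = univ) :
    C.S.card ≤ nS ∧ (C.I.disjSum C.S).card ≤ 2 * nN + nS := by
  have h1 : C.S.card ≤ nS := by
    rw [hS, Finset.card_univ]
    exact A.cardS
  refine ⟨h1, ?_⟩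
  rw [Finset.card_disjSum]
  omega

/-- UPPER with an event. -/
theorem atlasC_event (nS nN s : ℕ) (t₀ : ℝ) (h0 : 0 < t₀) (h1 : t₀ ≤ 1) :
    ∃ K₀ : ℝ, 0 < K₀ ∧ ∀ {V Φ : Type} [DecidableEq V] [DecidableEq Φ] {Q : QC V Φ} {F : Finset Φ}
      {ψ : V × V → ℝ} {Z : Finset (V × V)} {r : ℕ} (A : Atlas Q F ψ Z r nS nN t₀)
      {C : Cells Q F ψ Z (A.ι ⊕ A.μ) A.κ}, IsCells A C → C.I.card ≤ 2 * nN → C.S = univ → 0 < r →
      ∀ W a : (Φ → Bool) → ℝ,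
      (∀ ω, |W ω| ≤ (∏ v ∈ C.S, C.t v ^ C.N v ω) * (2 / Real.sqrt 3) ^ C.K ω) →
      (∀ ω, a ω = 0 ∨ a ω = 1) → (∀ i, Dep ((A.ch i).box (r / 2) : Set Φ)ᶜ a) →
      av F (fun ω => |W ω| * a ω) ≤
        K₀ * av F a ^ (1 - (1 / 2 : ℝ) ^ s) * ∏ i, sF (A.K i) (A.m i) r := by
  classical
  obtain ⟨cY, hY⟩ := Atlas.Y_mom
  obtain ⟨cM, A₀, hA, hG⟩ := Atlas.good
  obtain ⟨K₀, hK, h⟩ := AU.up_event cM cY t₀ (2 / Real.sqrt 3) A₀ nS (2 * nN + nS) s h0 h1 AU.one_le_q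
  refine ⟨K₀, hK, ?_⟩
  intro V Φ _ _ Q F ψ Z r A C hC hI hS hr W a hW ha had
  obtain ⟨e1, e2⟩ := A.card_idx hI hS
  have h2 := h C A.chain (fun i => sT (A.K i)) (C.I.disjSum C.S) A.Y
    (A.link hC hr fun L hL k => hY L hL A hr k) (hG A h0.le) e1 e2 W a hW ha (fun v _ => by
      rw [A.chain_B3]
      exact had v)
  refine h2.trans (le_of_eq ?_)
  congr 1
  rw [hS]
  exact Finset.prod_congr rfl fun i _ => A.chain_F2 i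

/-- UPPER. -/
theorem atlasC_one (nS nN : ℕ) (t₀ : ℝ) (h0 : 0 < t₀) (h1 : t₀ ≤ 1) :
    ∃ K₀ : ℝ, 0 < K₀ ∧ ∀ {V Φ : Type} [DecidableEq V] [DecidableEq Φ] {Q : QC V Φ} {F : Finset Φ}
      {ψ : V × V → ℝ} {Z : Finset (V × V)} {r : ℕ} (A : Atlas Q F ψ Z r nS nN t₀)
      {C : Cells Q F ψ Z (A.ι ⊕ A.μ) A.κ}, IsCells A C → C.I.card ≤ 2 * nN → C.S = univ → 0 < r →
      ∀ W : (Φ → Bool) → ℝ,
      (∀ ω, |W ω| ≤ (∏ v ∈ C.S, C.t v ^ C.N v ω) * (2 / Real.sqrt 3) ^ C.K ω) →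
      av F (fun ω => |W ω|) ≤ K₀ * ∏ i, sF (A.K i) (A.m i) r := by
  classical
  obtain ⟨cY, hY⟩ := Atlas.Y_mom
  obtain ⟨cM, A₀, hA, hG⟩ := Atlas.good
  obtain ⟨K₀, hK, h⟩ := AU.up_one cM cY t₀ (2 / Real.sqrt 3) A₀ nS (2 * nN + nS) h0 h1 AU.one_le_q
  refine ⟨K₀, hK, ?_⟩
  intro V Φ _ _ Q F ψ Z r A C hC hI hS hr W hW
  obtain ⟨e1, e2⟩ := A.card_idx hI hS
  have h2 := h C A.chain (fun i => sT (A.K i)) (C.I.disjSum C.S) A.Y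
    (A.link hC hr fun L hL k => hY L hL A hr k) (hG A h0.le) e1 e2 W hW
  refine h2.trans (le_of_eq ?_)
  congr 1
  rw [hS]
  exact Finset.prod_congr rfl fun i _ => A.chain_F2 i

/-- UPPER with a function. -/
theorem atlasC_mul (nS nN : ℕ) (t₀ : ℝ) (h0 : 0 < t₀) (h1 : t₀ ≤ 1) :
    ∃ K₀ : ℝ, 0 < K₀ ∧ ∀ {V Φ : Type} [DecidableEq V] [DecidableEq Φ] {Q : QC V Φ} {F : Finset Φ}
      {ψ : V × V → ℝ} {Z : Finset (V × V)} {r : ℕ} (A : Atlas Q F ψ Z r nS nN t₀)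
      {C : Cells Q F ψ Z (A.ι ⊕ A.μ) A.κ}, IsCells A C → C.I.card ≤ 2 * nN → C.S = univ → 0 < r →
      ∀ W f H : (Φ → Bool) → ℝ,
      (∀ ω, |W ω| ≤ (∏ v ∈ C.S, C.t v ^ C.N v ω) * (2 / Real.sqrt 3) ^ C.K ω) →
      (∀ ω, f ω ≤ H ω) → (∀ ω, 0 ≤ H ω) → (∀ i, Dep ((A.ch i).box (r / 2) : Set Φ)ᶜ H) →
      av F (fun ω => |W ω| * f ω) ≤
        K₀ * Real.sqrt (Real.sqrt (av F (fun ω => H ω ^ 4))) * ∏ i, sF (A.K i) (A.m i) r := by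
  classical
  obtain ⟨cY, hY⟩ := Atlas.Y_mom
  obtain ⟨cM, A₀, hA, hG⟩ := Atlas.good
  obtain ⟨K₀, hK, h⟩ := AU.up_mul cM cY t₀ (2 / Real.sqrt 3) A₀ nS (2 * nN + nS) h0 h1 AU.one_le_q
  refine ⟨K₀, hK, ?_⟩
  intro V Φ _ _ Q F ψ Z r A C hC hI hS hr W f H hW hf hH had
  obtain ⟨e1, e2⟩ := A.card_idx hI hS
  have h2 := h C A.chain (fun i => sT (A.K i)) (C.I.disjSum C.S) A.Y
    (A.link hC hr fun L hL k => hY L hL A hr k) (hG A h0.le) e1 e2 W f H hW hf hH (fun v _ => by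
      rw [A.chain_B3]
      exact had v)
  refine h2.trans (le_of_eq ?_)
  congr 1
  rw [hS]
  exact Finset.prod_congr rfl fun i _ => A.chain_F2 i

end

end Pool.Agent.SixB
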