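import Pool.Agent.Lib.SixB.S3BlkB
import Pool.Agent.Lib.SixB.S3AtlLowA
import Pool.Agent.Lib.SixB.S3AtlUpC
import Pool.Agent.Lib.SixB.S3TurnW

/-!
# 6BD, step 3, row R5b, second part: the blocking event of an atlas and the mates

`mth_walls`: a boundary side of the cell of a mouth which is a boundary side of the surface is on the walls of the
mouth. `atBlk_X`, `atBlk_mates`: on `AtBlk` no strand crosses a cell and all mates of `Z` are in `Z`.
-/

set_option autoImplicit false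
set_option linter.unusedSectionVars false

namespace Pool.Agent.SixB

open Finset Pool.Agent.Perc.Q Pool.Agent.Perc

noncomputable section

namespace AL

variable {V Φ : Type} [DecidableEq V] [DecidableEq Φ] {Q : QC V Φ} {F : Finset Φ}

private theorem aux_r {v f : ℤ × ℤ} {r h l : ℕ} {k : ZMod 4} (hh : h ≤ r)
    (hf : f ∈ Mth false v r h l) (hg : WG.bh f k ∉ Mth false v (r + 1) h (l + 1))
    (h1 : WG.Hb false v r (sd ZQ f k) ∨ WG.Te false v h l (sd ZQ f k)) : False := by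
  obtain ⟨x, y⟩ := f
  obtain ⟨a, b⟩ := v
  unfold WG.Hb WG.Ob Bk.OutB WG.Te at h1
  rw [if_neg (by simp), if_neg (by simp)] at h1
  rw [WG.mem_Mth_right] at hf hg
  rcases WG.k_cases k with rfl | rfl | rfl | rfl
  · rw [WG.bh0] at hg
    rw [WG.sd0] at h1
    push_cast at *
    omega
  · rw [WG.bh1] at hg
    rw [WG.sd1] at h1
    push_cast at *
    omega
  · rw [WG.bh2] at hg
    rw [WG.sd2] at h1
    push_cast at *
    omega
  · rw [WG.bh3] at hg
    rw [WG.sd3] at h1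
    push_cast at *
    omega

private theorem aux_l {v f : ℤ × ℤ} {r h l : ℕ} {k : ZMod 4} (hh : h ≤ r)
    (hf : f ∈ Mth true v r h l) (hg : WG.bh f k ∉ Mth true v (r + 1) h (l + 1))
    (h1 : WG.Hb true v r (sd ZQ f k) ∨ WG.Te true v h l (sd ZQ f k)) : False := by
  obtain ⟨x, y⟩ := f
  obtain ⟨a, b⟩ := v
  unfold WG.Hb WG.Ob Bk.OutB WG.Te at h1
  rw [if_pos rfl, if_pos rfl] at h1
  rw [WG.mem_Mth_left] at hf hg
  rcases WG.k_cases k with rfl | rfl | rfl | rfl
  · rw [WG.bh0] at hg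
    rw [WG.sd0] at h1
    push_cast at *
    omega
  · rw [WG.bh1] at hg
    rw [WG.sd1] at h1
    push_cast at *
    omega
  · rw [WG.bh2] at hg
    rw [WG.sd2] at h1
    push_cast at *
    omega
  · rw [WG.bh3] at hg
    rw [WG.sd3] at h1
    push_cast at *
    omega

/-- a side of a face of the mouth with no face of the larger mouth behind it is on the walls -/
theorem mth_wall {left : Bool} {v : ℤ × ℤ} {r h l : ℕ} (hh : h ≤ r) {f : ℤ × ℤ} {k : ZMod 4}
    (hf : f ∈ Mth left v r h l) (hg : WG.bh f k ∉ Mth left v (r + 1) h (l + 1)) :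
    ∃ i, sd ZQ f k ∈ mthWall left v r h l i := by
  have hg' : WG.bh f k ∉ Mth left v r h l := fun h1 => hg (WG.Mth_mono (by omega) (by omega) h1)
  rcases WG.sd_Mth hh hf hg' with h1 | h1
  · exact h1
  · exfalso
    cases left
    · exact aux_r hh hf hg h1
    · exact aux_l hh hf hg h1

/-- **Boundary sides of the cell of a mouth.** -/
theorem mth_walls {left : Bool} {v : ℤ × ℤ} {r h l : ℕ} (hh : h ≤ r)
    (c : MChart Q F left v (r + 1) h (l + 1)) {b : V × V}
    (hb : b ∈ bS Q ((Mth left v r h l).image c.φF)) (hF : b ∈ bS Q F) :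
    ∃ j, b ∈ (mthWall left v r h l j).image c.side := by
  have hR : Mth left v r h l ⊆ Mth left v (r + 1) h (l + 1) := WG.Mth_mono (by omega) (by omega)
  obtain ⟨s, hs, rfl⟩ := c.bS_image hR hb
  obtain ⟨f, hf, k, rfl⟩ := bS_sd hs
  by_cases hg : WG.bh f k ∈ Mth left v (r + 1) h (l + 1)
  · exfalso
    refine (mem_bS.mp hF).2 (c.φF (WG.bh f k)) (Finset.mem_coe.mpr (c.sub _ hg)) (k + 2) ?_
    have h2 : sd Q (c.φF (WG.bh f k)) (k + 2) = (c.side (sd ZQ f k)).swap := by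
      rw [c.sd_φF hg, WG.sd_bh, PChart.side_swap]
    have h3 := congrArg Prod.swap h2
    rw [Prod.swap_swap] at h3
    exact h3.symm
  · obtain ⟨i, hi⟩ := mth_wall hh hf hg
    exact ⟨i, Finset.mem_image_of_mem _ hi⟩

variable {ψ : V × V → ℝ} {Z : Finset (V × V)} {r nS nN : ℕ} {t₀ : ℝ} {ω : Φ → Bool}

/-- no strand crosses a cell -/
theorem atBlk_X {A : Atlas Q F ψ Z r nS nN t₀} {D : Φ → Bool} (hD : Bk.Colr A D)
    {C : Cells Q F ψ Z (A.ι ⊕ A.μ) A.κ} (hC : IsCells A C) (h : Bk.AtBlk A D ω) : C.X ω = 0 := by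
  unfold Cells.X
  have e1 : ∑ i ∈ C.I, Cell.Xc Q F (C.G₀ i) (C.G i) ω = 0 := by
    refine Finset.sum_eq_zero fun k _ => ?_
    rcases k with i | i
    · rw [hC.nG₀, hC.nG]
      exact h.Xn hD i
    · rw [hC.mG₀, hC.mG]
      exact h.Xm hD i
  have e2 : ∑ v ∈ C.S, Cell.Xc Q F (C.B₁ v) (C.B v) ω = 0 := by
    refine Finset.sum_eq_zero fun i _ => ?_
    rw [hC.B₁, hC.B]
    exact h.Xs hD i
  rw [e1, e2]

/-- all mates of `Z` are in `Z` -/
theorem atBlk_mates {A : Atlas Q F ψ Z r nS nN t₀} {D : Φ → Bool} (hD : Bk.Colr A D)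
    {C : Cells Q F ψ Z (A.ι ⊕ A.μ) A.κ} (hC : IsCells A C) (h : Bk.AtBlk A D ω) :
    ∀ a ∈ Z, mate Q F ω a ∈ Z := by
  classical
  refine C.mates_of_X (atBlk_X hD hC h) ?_ ?_
  · rintro (i | i) - b hb hF
    · rw [hC.nG] at hb
      exact A.nZ i (S3T.mem_walls (A.nch i) (A.m'_rng i).1 (A.m'_rng i).2 (by omega) hb hF)
    · rw [hC.mG] at hb
      have h1 := A.h_lt i
      obtain ⟨j, hj⟩ := mth_walls (by omega) (A.mch i) hb hF
      exact A.mZ i j hj
  · intro i _ b hb hF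
    rw [hC.B] at hb
    exact A.chZ i (S3T.mem_walls (A.ch i) (A.m_rng i).1 (A.m_rng i).2 (by omega) hb hF)

end AL

end

end Pool.Agent.SixB
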