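import Pool.Agent.Lib.SixB.S3KindC
import Pool.Agent.Lib.SixB.S3Own

/-!
# 6BD, step 3, row R2: comparison of the local factors (radii `r ≤ r' ≤ 2 ^ k * r`)

* `Kd.plane`: the wedge of the plane as a surface with one chart.
* `Kd.sF_half`: `sF K m r` and `sF K m (r / 2)` are comparable (weights `t₀ ≤ sT K`, or `sT K = 0` and `m = 2`).
* `Kd.sF_mono_of_one_le`, `Kd.sF_anti_of_le_one`: monotonicity in the radius.
* `Kd.sF_cmp`: `sF K m r ≤ C * sF K m r'` for all `r, r'` with `r ≤ 2 ^ k * r'`, `r' ≤ 2 ^ k * r`.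
* `Kd.sF_lip`: the same for `r ≤ N * r'`, `r' ≤ N * r`.
* `Kd.sF_pos`: the local factors are positive.
-/

set_option autoImplicit false
set_option linter.unusedSimpArgs false

namespace Pool.Agent.SixB.Kd

open Pool.Agent.Perc Pool.Agent.Perc.Q Finset

noncomputable section

variable {m : ℕ}

/-- the wedge as a chart of itself -/
def idW (hm0 : 1 ≤ m) (hm : m ≤ 3) (r : ℕ) : WChart ZQ (Wdg m 0 (0, 0) r) m 0 (0, 0) r where
  φV := id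
  φF := id
  cor := fun _ _ _ => rfl
  inj := fun _ _ _ _ _ _ h => h
  sub := fun _ h => h
  bIn := fun _ ha => wIn_sub hm0 hm ha
  bOut := fun _ ha => wOut_sub hm0 hm ha

/-- the wedge of the plane as a surface with one special vertex -/
def plane (K : SK) (hm0 : 1 ≤ m) (hm : m ≤ 3) (r : ℕ) : KCh ZQ (Wdg m 0 (0, 0) r) Unit where
  K := fun _ => K
  m := fun _ => m
  o := fun _ => 0
  v := fun _ => (0, 0)
  R := fun _ => r
  r := r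
  ch := fun _ => idW hm0 hm r
  hR := fun _ => le_rfl
  hm := fun _ => ⟨hm0, hm⟩
  disj := fun _ _ h => absurd rfl h

theorem plane_F (K : SK) (hm0 : 1 ≤ m) (hm : m ≤ 3) (r j : ℕ) :
    (plane K hm0 hm r).chain.F () (sT K) j = sF K m (r / 2 ^ j) := (plane K hm0 hm r).F_eq () j

/-- **The factors of the radii `r` and `r / 2 ^ k` are comparable.** -/
theorem sF_half (t₀ : ℝ) (ht₀ : 0 < t₀) (ht₁ : t₀ ≤ 1) (k : ℕ) : ∃ C : ℝ, 1 ≤ C ∧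
    ∀ (K : SK) (m r : ℕ), 1 ≤ m → m ≤ 3 → (t₀ ≤ sT K ∨ (sT K = 0 ∧ m = 2)) →
      sF K m r ≤ C * sF K m (r / 2 ^ k) ∧ sF K m (r / 2 ^ k) ≤ C * sF K m r := by
  obtain ⟨cM, A₀, hA, hg⟩ := KCh.good
  have hT : (1 : ℝ) ≤ 2 / Real.sqrt 3 := by
    rw [le_div_iff₀ (Real.sqrt_pos.2 (by norm_num)), one_mul]
    refine Real.sqrt_le_iff.2 ⟨by norm_num, by norm_num⟩
  obtain ⟨C, hC, h⟩ := F_le_F_shift cM t₀ (2 / Real.sqrt 3) A₀ ht₀ ht₁ hT k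
  refine ⟨C, hC, ?_⟩
  intro K m r hm0 hm hK
  have h1 := h _ _ _ _ _ _ (hg (plane K hm0 hm r) t₀ ht₀.le fun _ => hK) () 0
  have e0 := plane_F K hm0 hm r 0
  have ek := plane_F K hm0 hm r (0 + k)
  rw [pow_zero, Nat.div_one] at e0
  rw [zero_add] at ek
  rw [zero_add] at h1
  have e0' : (plane K hm0 hm r).chain.F () (sT ((plane K hm0 hm r).K ())) 0 = sF K m r := e0
  have ek' : (plane K hm0 hm r).chain.F () (sT ((plane K hm0 hm r).K ())) k =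
      sF K m (r / 2 ^ k) := ek
  rw [e0', ek'] at h1
  exact h1

theorem sF_mono_of_one_le {K : SK} (h : 1 ≤ sT K) (hm0 : 1 ≤ m) (hm : m ≤ 3) {r r' : ℕ}
    (hr : r ≤ r') : sF K m r ≤ sF K m r' := by
  rw [← sF_eq K m 0 (0, 0) r (Wdg_mono hr), ← sF_eq K m 0 (0, 0) r' (Finset.Subset.refl _)]
  exact av_mono fun T _ => pow_le_pow_right₀ h (sN_mono K hm0 hm hr _)

theorem sF_anti_of_le_one {K : SK} (h0 : 0 ≤ sT K) (h : sT K ≤ 1) (hm0 : 1 ≤ m) (hm : m ≤ 3)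
    {r r' : ℕ} (hr : r ≤ r') : sF K m r' ≤ sF K m r := by
  rw [← sF_eq K m 0 (0, 0) r (Wdg_mono hr), ← sF_eq K m 0 (0, 0) r' (Finset.Subset.refl _)]
  exact av_mono fun T _ => pow_le_pow_of_le_one h0 h (sN_mono K hm0 hm hr _)

/-- **Comparison of the local factors.** -/
theorem sF_cmp (t₀ : ℝ) (ht₀ : 0 < t₀) (ht₁ : t₀ ≤ 1) (k : ℕ) : ∃ C : ℝ, 1 ≤ C ∧
    ∀ (K : SK) (m r r' : ℕ), 1 ≤ m → m ≤ 3 → (t₀ ≤ sT K ∨ (sT K = 0 ∧ m = 2)) →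
      r ≤ 2 ^ k * r' → r' ≤ 2 ^ k * r → sF K m r ≤ C * sF K m r' := by
  obtain ⟨C, hC, h⟩ := sF_half t₀ ht₀ ht₁ k
  refine ⟨C, hC, ?_⟩
  intro K m r r' hm0 hm hK h1 h2
  have ht : 0 ≤ sT K := by
    rcases hK with h | ⟨h, -⟩
    · exact ht₀.le.trans h
    · exact h.symm.le
  have hp : 0 < 2 ^ k := by positivity
  have hC0 : 0 ≤ C := by linarith
  set M := max r r' with hM
  have hMr : M / 2 ^ k ≤ r := by
    rw [hM]
    rcases max_cases r r' with ⟨he, -⟩ | ⟨he, -⟩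
    · rw [he]
      exact Nat.div_le_self _ _
    · rw [he]
      exact Nat.div_le_of_le_mul h2
  have hMr' : M / 2 ^ k ≤ r' := by
    rw [hM]
    rcases max_cases r r' with ⟨he, -⟩ | ⟨he, -⟩
    · rw [he]
      exact Nat.div_le_of_le_mul h1
    · rw [he]
      exact Nat.div_le_self _ _
  obtain ⟨h3, h4⟩ := h K m M hm0 hm hK
  rcases le_total 1 (sT K) with h5 | h5
  · calc sF K m r ≤ sF K m M := sF_mono_of_one_le h5 hm0 hm (le_max_left _ _)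
      _ ≤ C * sF K m (M / 2 ^ k) := h3
      _ ≤ C * sF K m r' := mul_le_mul_of_nonneg_left (sF_mono_of_one_le h5 hm0 hm hMr') hC0
  · calc sF K m r ≤ sF K m (M / 2 ^ k) := sF_anti_of_le_one ht h5 hm0 hm hMr
      _ ≤ C * sF K m M := h4
      _ ≤ C * sF K m r' :=
        mul_le_mul_of_nonneg_left (sF_anti_of_le_one ht h5 hm0 hm (le_max_right _ _)) hC0

/-- The same with a ratio `N`. -/
theorem sF_lip (t₀ : ℝ) (ht₀ : 0 < t₀) (ht₁ : t₀ ≤ 1) (N : ℕ) : ∃ C : ℝ, 1 ≤ C ∧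
    ∀ (K : SK) (m r r' : ℕ), 1 ≤ m → m ≤ 3 → (t₀ ≤ sT K ∨ (sT K = 0 ∧ m = 2)) →
      r ≤ N * r' → r' ≤ N * r → sF K m r ≤ C * sF K m r' := by
  obtain ⟨C, hC, h⟩ := sF_cmp t₀ ht₀ ht₁ N
  refine ⟨C, hC, fun K m r r' hm0 hm hK h1 h2 => h K m r r' hm0 hm hK ?_ ?_⟩
  · exact h1.trans (Nat.mul_le_mul_right _ Nat.lt_two_pow_self.le)
  · exact h2.trans (Nat.mul_le_mul_right _ Nat.lt_two_pow_self.le)

/-- The local factors are positive. -/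
theorem sF_pos {t₀ : ℝ} (ht₀ : 0 < t₀) {K : SK} (hm0 : 1 ≤ m) (hm : m ≤ 3)
    (hK : t₀ ≤ sT K ∨ (sT K = 0 ∧ m = 2)) (r : ℕ) : 0 < sF K m r := by
  have ht : 0 ≤ sT K := by
    rcases hK with h | ⟨h, -⟩
    · exact ht₀.le.trans h
    · exact h.symm.le
  have h1 : min t₀ 1 ≤ sT K ∨ (sT K = 0 ∧ m = 2) := hK.imp (fun h => (min_le_left _ _).trans h) id
  obtain ⟨C, hC, h⟩ := sF_half (min t₀ 1) (lt_min ht₀ one_pos) (min_le_right _ _) r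
  have h2 := (h K m r hm0 hm h1).2
  have h3 : r / 2 ^ r = 0 := Nat.div_eq_of_lt Nat.lt_two_pow_self
  rw [h3, sF_zero] at h2
  by_contra hn
  have h4 : sF K m r = 0 := le_antisymm (not_lt.1 hn) (sF_nonneg ht m r)
  rw [h4, mul_zero] at h2
  linarith

/-- `Fwd` form. -/
theorem Fwd_cmp (t₀ : ℝ) (ht₀ : 0 < t₀) (ht₁ : t₀ ≤ 1) (N : ℕ) : ∃ C : ℝ, 1 ≤ C ∧
    ∀ (J : ℝ) (m r r' : ℕ), 1 ≤ m → m ≤ 3 → (t₀ ≤ tJ J ∨ (tJ J = 0 ∧ m = 2)) →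
      r ≤ N * r' → r' ≤ N * r → Fwd m (tJ J) r ≤ C * Fwd m (tJ J) r' := by
  obtain ⟨C, hC, h⟩ := sF_lip t₀ ht₀ ht₁ N
  exact ⟨C, hC, fun J m r r' hm0 hm hJ h1 h2 => h (.ver J) m r r' hm0 hm hJ h1 h2⟩

end

end Pool.Agent.SixB.Kd
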