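import Pool.Agent.Lib.SixB.S3Test

/-!
# 6BD step 3 (N-g, part 2): chambers, exterior, contour sums, the inequality (N*)

Geometry of step 3 (6bd_norms.md, version 3, section 1): two chambers per side, `M = m - π/6`, `m` the total jump of
the part of the domain above the slab:

* outer corners above `(-π/6 - M/5)/2`, below `(-π/6 + M/5)/2` (two each): `oU M`, `oD M`;
* chamber A: ceiling `-π/6 - p`, floor `-π/6 + p`, `p = 2M/15`; both tubes `π/3` from inside;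
* chamber B: ceiling `-s`, floor `s`, `s = 4M/15`; inner tube `π/3`, outer tube `0` from inside.

Alternative geometry: three chambers per side (TYPE 0, TYPE 0, TYPE I), all jumps in units of `π/3`:

* TYPE 0: ceiling `s`, floor `-s`, tubes `0` and `1` (seen from inside);
* TYPE I: ceiling `-1/2`, floor `-1/2`, both tubes `1` (seen from inside);
* exterior: four outer corners `-1/4`;
* `s = (1/2 - q)/4`, `q` the total jump of the part of `D` above the slab.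

`RngD δ l`: all contiguous sums are at distance at least `δ` from the ends of the range.
`nstar`: the inequality (N*) for the marks of the Cardy family, `nstar_nat` for a natural domain with a base.
-/

set_option autoImplicit false

namespace Pool.Agent.SixB

open Real

noncomputable section

/-! ## Contiguous sums with a margin -/

/-- all contiguous sums lie in the range shrunk by `δ` -/
def RngD (δ : ℝ) (l : List ℝ) : Prop :=
  ∀ a b, a ≤ b → b ≤ l.length → -(π / 3) + δ ≤ ps l b - ps l a ∧ ps l b - ps l a ≤ 2 * (π / 3) - δ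

theorem RngD.ok {δ : ℝ} {l : List ℝ} (h : RngD δ l) (hδ : 0 ≤ δ) : RngOK l := by
  intro a b hab hb
  obtain ⟨h1, h2⟩ := h a b hab hb
  exact ⟨by linarith, by linarith⟩

/-- weight of an arc over the jumps `a ≤ i < b` -/
theorem RngD.ge {δ : ℝ} {l : List ℝ} (h : RngD δ l) (hδ : 0 ≤ δ) (hδ' : δ ≤ π / 2) {a b : ℕ}
    (hab : a ≤ b) (hb : b ≤ l.length) : sin δ ≤ tJ (ps l b - ps l a) :=
  tJ_ge hδ hδ' (h a b hab hb).1 (h a b hab hb).2

/-- the same for the complementary arc, when the total jump is `π/3` -/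
theorem RngD.ge' {δ : ℝ} {l : List ℝ} (h : RngD δ l) (hδ : 0 ≤ δ) (hδ' : δ ≤ π / 2) {a b : ℕ}
    (hab : a ≤ b) (hb : b ≤ l.length) : sin δ ≤ tJ (π / 3 - (ps l b - ps l a)) := by
  rw [tJ_refl]
  exact h.ge hδ hδ' hab hb

/-! ### Version 3: parameters -/

/-- outer corners above -/
def oU (M : ℝ) : ℝ := (-(π / 6) - M / 5) / 2

/-- outer corners below -/
def oD (M : ℝ) : ℝ := (-(π / 6) + M / 5) / 2

/-- flats of chamber A: `-π/6 - pA M` (ceiling), `-π/6 + pA M` (floor) -/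
def pA (M : ℝ) : ℝ := 2 * M / 15

/-- flats of chamber B: `-sB M` (ceiling), `sB M` (floor) -/
def sB (M : ℝ) : ℝ := 4 * M / 15

/-- contour sum of the upper block: two outer corners, flats of the two chambers on both sides, the
marks above; the four other corners are natural -/
theorem sum_Kup3 (m : ℝ) :
    2 * oU (m - π / 6) + 2 * (-(π / 6) - pA (m - π / 6)) + 2 * -sB (m - π / 6) + m = -(π / 3) := by
  unfold oU pA sB; ring

theorem sum_Kdn3 (m : ℝ) :
    2 * oD (m - π / 6) + 2 * (-(π / 6) + pA (m - π / 6)) + 2 * sB (m - π / 6) + (π / 3 - m) =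
      -(π / 3) := by
  unfold oD pA sB; ring

/-- the range of `M` for all contiguous groups of marks of the Cardy family -/
def MR (M : ℝ) : Prop := |M| ≤ 5 * (π / 6)

theorem MR.of_range {m : ℝ} (h1 : -(2 * (π / 3)) ≤ m) (h2 : m ≤ 3 * (π / 3)) : MR (m - π / 6) := by
  rw [MR, abs_le]
  constructor <;> linarith

theorem oU_range {M : ℝ} (h : MR M) : -(π / 6) ≤ oU M ∧ oU M ≤ 0 := by
  obtain ⟨h1, h2⟩ := abs_le.1 h
  unfold oU
  constructor <;> linarith

theorem oD_range {M : ℝ} (h : MR M) : -(π / 6) ≤ oD M ∧ oD M ≤ 0 := by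
  obtain ⟨h1, h2⟩ := abs_le.1 h
  unfold oD
  constructor <;> linarith

theorem oU_add_oD (M : ℝ) : oU M + oD M = -(π / 6) := by unfold oU oD; ring

theorem pA_bound {M : ℝ} (h : MR M) : |pA M| ≤ 1 / 3 * (π / 3) := by
  obtain ⟨h1, h2⟩ := abs_le.1 h
  unfold pA
  rw [abs_le]
  constructor <;> linarith

theorem sB_bound {M : ℝ} (h : MR M) : |sB M| ≤ 2 / 3 * (π / 3) := by
  obtain ⟨h1, h2⟩ := abs_le.1 h
  unfold sB
  rw [abs_le]
  constructor <;> linarith

theorem oU_neg (M : ℝ) : oU (-M) = oD M := by unfold oU oD; ring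

theorem pA_neg (M : ℝ) : pA (-M) = -pA M := by unfold pA; ring

theorem sB_neg (M : ℝ) : sB (-M) = -sB M := by unfold sB; ring

/-- chamber A: ceiling, outer tube, floor, inner tube -/
theorem rngD_chA {p : ℝ} (hp : |p| ≤ 1 / 3 * (π / 3)) :
    RngD (1 / 6 * (π / 3)) [-(π / 6) - p, π / 3, -(π / 6) + p, π / 3] := by
  obtain ⟨h1, h2⟩ := abs_le.1 hp
  intro a b hab hb
  have hπ := pi_pos
  simp only [List.length_cons, List.length_nil] at hb
  interval_cases b <;> interval_cases a <;> refine ⟨?_, ?_⟩ <;>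
    simp only [ps, List.take, List.sum_cons, List.sum_nil] <;> linarith

theorem sum_chA (p : ℝ) : ([-(π / 6) - p, π / 3, -(π / 6) + p, π / 3] : List ℝ).sum = π / 3 := by
  simp only [List.sum_cons, List.sum_nil]
  ring

/-- chamber B: ceiling, outer tube, floor, inner tube -/
theorem rngD_chB {s : ℝ} (hs : |s| ≤ 2 / 3 * (π / 3)) :
    RngD (1 / 3 * (π / 3)) [-s, 0, s, π / 3] := by
  obtain ⟨h1, h2⟩ := abs_le.1 hs
  intro a b hab hb
  have hπ := pi_pos
  simp only [List.length_cons, List.length_nil] at hb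
  interval_cases b <;> interval_cases a <;> refine ⟨?_, ?_⟩ <;>
    simp only [ps, List.take, List.sum_cons, List.sum_nil] <;> linarith

/-- the same with the outer tube `π/3` and the inner tube `0` (chamber on the other side) -/
theorem rngD_chB' {s : ℝ} (hs : |s| ≤ 2 / 3 * (π / 3)) :
    RngD (1 / 3 * (π / 3)) [-s, π / 3, s, 0] := by
  obtain ⟨h1, h2⟩ := abs_le.1 hs
  intro a b hab hb
  have hπ := pi_pos
  simp only [List.length_cons, List.length_nil] at hb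
  interval_cases b <;> interval_cases a <;> refine ⟨?_, ?_⟩ <;>
    simp only [ps, List.take, List.sum_cons, List.sum_nil] <;> linarith

theorem sum_chB (s : ℝ) : ([-s, 0, s, π / 3] : List ℝ).sum = π / 3 := by
  simp

/-- exterior: the four outer corners -/
theorem rngOK_ext3 {M : ℝ} (h : MR M) : RngOK [oU M, oD M, oD M, oU M] := by
  have h1 := oU_range h
  have h2 := oD_range h
  refine rngOK_of_nonpos ?_ ?_
  · intro x hx
    simp only [List.mem_cons, List.not_mem_nil, or_false] at hx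
    rcases hx with rfl | rfl | rfl | rfl
    exacts [h1.2, h2.2, h2.2, h1.2]
  · simp only [List.sum_cons, List.sum_nil]
    have := oU_add_oD M
    linarith

theorem sum_ext3 (M : ℝ) : ([oU M, oD M, oD M, oU M] : List ℝ).sum = -(π / 3) := by
  simp only [List.sum_cons, List.sum_nil]
  have := oU_add_oD M
  linarith

/-- all special vertices outside of the domain have weights bounded below -/
theorem tJ_chA_pos {p : ℝ} (hp : |p| ≤ 1 / 3 * (π / 3)) :
    sin (1 / 6 * (π / 3)) ≤ tJ (-(π / 6) - p) ∧ sin (1 / 6 * (π / 3)) ≤ tJ (-(π / 6) + p) ∧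
      sin (1 / 6 * (π / 3)) ≤ tJ (π / 6 - p) ∧ sin (1 / 6 * (π / 3)) ≤ tJ (π / 6 + p) := by
  obtain ⟨h1, h2⟩ := abs_le.1 hp
  refine ⟨?_, ?_, ?_, ?_⟩ <;>
  · refine tJ_ge (by positivity) ?_ ?_ ?_ <;> linarith [pi_pos]

theorem tJ_chB_pos {s : ℝ} (hs : |s| ≤ 2 / 3 * (π / 3)) :
    sin (1 / 6 * (π / 3)) ≤ tJ s ∧ sin (1 / 6 * (π / 3)) ≤ tJ (-s) := by
  obtain ⟨h1, h2⟩ := abs_le.1 hs
  refine ⟨?_, ?_⟩ <;>
  · refine tJ_ge (by positivity) ?_ ?_ ?_ <;> linarith [pi_pos]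

theorem tJ_o_pos {M : ℝ} (h : MR M) :
    sin (1 / 6 * (π / 3)) ≤ tJ (oU M) ∧ sin (1 / 6 * (π / 3)) ≤ tJ (oD M) := by
  have h1 := oU_range h
  have h2 := oD_range h
  constructor
  · refine tJ_ge (by positivity) ?_ ?_ ?_ <;> linarith [pi_pos]
  · refine tJ_ge (by positivity) ?_ ?_ ?_ <;> linarith [pi_pos]

theorem sin_eighteenth_pos : 0 < sin (1 / 6 * (π / 3)) :=
  sin_pos_of_pos_of_lt_pi (by positivity) (by linarith [pi_pos])

/-! ### Three chambers per side -/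

/-- the parameter of the chambers of TYPE 0: `4 s = π/6 - q` -/
def chS (q : ℝ) : ℝ := (π / 6 - q) / 4

theorem chS_compl (q : ℝ) : chS (π / 3 - q) = -chS q := by unfold chS; ring

/-- all values of the total jump of the marks of the Cardy family above the slab -/
theorem chS_bound {q : ℝ} (h1 : -(2 * (π / 3)) ≤ q) (h2 : q ≤ 3 * (π / 3)) :
    |chS q| ≤ 5 / 8 * (π / 3) := by
  unfold chS
  rw [abs_le]
  constructor <;> linarith [pi_pos]

theorem chS_bound_nat {q : ℝ} (h1 : 0 ≤ q) (h2 : q ≤ π / 3) : |chS q| ≤ 1 / 8 * (π / 3) := by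
  unfold chS
  rw [abs_le]
  constructor <;> linarith [pi_pos]

/-- TYPE 0: ceiling, outer tube, floor, inner tube -/
theorem rngD_type0 {s : ℝ} (hs : |s| ≤ 5 / 8 * (π / 3)) : RngD (3 / 8 * (π / 3)) [-s, 0, s, π / 3] := by
  obtain ⟨h1, h2⟩ := abs_le.1 hs
  intro a b hab hb
  have hπ := pi_pos
  simp only [List.length_cons, List.length_nil] at hb
  interval_cases b <;> interval_cases a <;> refine ⟨?_, ?_⟩ <;>
    simp only [ps, List.take, List.sum_cons, List.sum_nil] <;> linarith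

theorem sum_type0 (s : ℝ) : ([-s, 0, s, π / 3] : List ℝ).sum = π / 3 := by
  simp

/-- TYPE I: ceiling, outer tube, floor, inner tube -/
theorem rngD_typeI : RngD (1 / 2 * (π / 3)) [-(π / 6), π / 3, -(π / 6), π / 3] := by
  intro a b hab hb
  have hπ := pi_pos
  simp only [List.length_cons, List.length_nil] at hb
  interval_cases b <;> interval_cases a <;> refine ⟨?_, ?_⟩ <;>
    simp only [ps, List.take, List.sum_cons, List.sum_nil] <;> linarith

theorem sum_typeI : ([-(π / 6), π / 3, -(π / 6), π / 3] : List ℝ).sum = π / 3 := by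
  simp only [List.sum_cons, List.sum_nil]
  ring

theorem tJ_flat0_pos {s : ℝ} (hs : |s| ≤ 5 / 8 * (π / 3)) : sin (3 / 8 * (π / 3)) ≤ tJ s := by
  obtain ⟨h1, h2⟩ := abs_le.1 hs
  refine tJ_ge (by positivity) ?_ ?_ ?_ <;> linarith [pi_pos]

theorem tJ_flat0_pos' {s : ℝ} (hs : |s| ≤ 5 / 8 * (π / 3)) : sin (3 / 8 * (π / 3)) ≤ tJ (-s) :=
  tJ_flat0_pos (by rwa [abs_neg])

theorem sin_margin_pos : 0 < sin (3 / 8 * (π / 3)) :=
  sin_pos_of_pos_of_lt_pi (by positivity) (by linarith [pi_pos])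

theorem tJ_outer_pos : 0 < tJ (-(π / 12)) := tJ_pos (by linarith [pi_pos]) (by linarith [pi_pos])

theorem tJ_neg_sixth_pos : 0 < tJ (-(π / 6)) := tJ_pos (by linarith [pi_pos]) (by linarith [pi_pos])

/-! ### The exterior piece -/

/-- `-π/3 ≤ J ≤ 0` for every contiguous sum of a list of nonpositive jumps with total `-π/3`;
the sum over the complementary arc is `-π/3 - J`. -/
theorem ps_nonpos_range {l : List ℝ} (h : ∀ x ∈ l, x ≤ 0) (hs : -(π / 3) ≤ l.sum) {a b : ℕ}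
    (hab : a ≤ b) (hb : b ≤ l.length) :
    -(π / 3) ≤ ps l b - ps l a ∧ ps l b - ps l a ≤ 0 := by
  refine ⟨(rngOK_of_nonpos h hs a b hab hb).1, ?_⟩
  have hle : ∀ (l : List ℝ), (∀ x ∈ l, x ≤ 0) → l.sum ≤ 0 := by
    intro l
    induction l with
    | nil => intro _; simp
    | cons x l ih =>
      intro hl
      rw [List.sum_cons]
      have h1 := hl x (by simp)
      have h2 := ih fun y hy => hl y (List.mem_cons_of_mem _ hy)
      linarith
  have h2 : (l.take b).take a ++ (l.take b).drop a = l.take b := List.take_append_drop _ _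
  have h3 := congrArg List.sum h2
  rw [List.sum_append, List.take_take, min_eq_left hab] at h3
  have h8 : ((l.take b).drop a).sum ≤ 0 := hle _ fun x hx =>
    h x (List.mem_of_mem_take (List.mem_of_mem_drop hx))
  unfold ps
  linarith

/-- exterior arcs: `J₁ + J₂ = -π/3`, both nonpositive: both weights are nonnegative -/
theorem ext_nonneg {J₁ J₂ : ℝ} (h : J₁ + J₂ = -(π / 3)) (h1 : J₁ ≤ 0) (h2 : J₂ ≤ 0) :
    0 ≤ tJ J₁ ∧ 0 ≤ tJ J₂ := by
  constructor
  · exact tJ_nonneg ⟨by linarith, by linarith [pi_pos]⟩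
  · exact tJ_nonneg ⟨by linarith, by linarith [pi_pos]⟩

theorem rngOK_ext : RngOK [-(π / 12), -(π / 12), -(π / 12), -(π / 12)] := by
  refine rngOK_of_nonpos ?_ ?_
  · intro x hx
    simp only [List.mem_cons, List.not_mem_nil, or_false, or_self] at hx
    rw [hx]
    linarith [pi_pos]
  · simp only [List.sum_cons, List.sum_nil]
    linarith [pi_pos]

/-! ### Contour sums of the two blocks -/

theorem sum_Kup (q : ℝ) :
    2 * -(π / 12) + 2 * -(π / 6) + 4 * chS q + q = -(π / 3) := by unfold chS; ring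

theorem sum_Kdn (q : ℝ) :
    2 * -(π / 12) + 2 * -(π / 6) + 4 * -chS q + (π / 3 - q) = -(π / 3) := by unfold chS; ring

/-! ### The domain: marks of the Cardy family -/

/-- jumps at `x', x, a₁, a₂, a₂', a₃` in cyclic order -/
def cajumps (al : ℝ) : List ℝ := [-(π / 3), -(π / 3), π / 3, (1 - al) * (π / 3), al * (π / 3), π / 3]

theorem sum_cajumps (al : ℝ) : (cajumps al).sum = π / 3 := by
  simp only [cajumps, List.sum_cons, List.sum_nil]
  ring

/-- The weight of an arc over a contiguous group of marks is nonnegative, except for the group `{x', x}`. -/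
theorem ca_nonneg {al : ℝ} (h0 : 0 ≤ al) (h1 : al ≤ 1) {a b : ℕ} (hab : a ≤ b) (hb : b ≤ 6)
    (hex : ¬(a = 0 ∧ b = 2)) (hex' : ¬(a = 2 ∧ b = 6)) :
    0 ≤ tJ (ps (cajumps al) b - ps (cajumps al) a) := by
  have hπ := pi_pos
  have e1 : al * (π / 3) ≤ π / 3 := by nlinarith
  have e0 : 0 ≤ al * (π / 3) := by positivity
  refine tJ_nonneg ?_
  have e2 : (1 - al) * (π / 3) = π / 3 - al * (π / 3) := by ring
  generalize hq : al * (π / 3) = q at *
  interval_cases b <;> interval_cases a <;> first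
    | exact absurd ⟨rfl, rfl⟩ hex
    | exact absurd ⟨rfl, rfl⟩ hex'
    | (refine ⟨?_, ?_⟩ <;>
        simp only [ps, cajumps, List.take, List.sum_cons, List.sum_nil, e2, hq] <;> linarith)

/-- an arc over `x` alone or over `x'` alone has weight `0` -/
theorem ca_zero (al : ℝ) : tJ (ps (cajumps al) 1 - ps (cajumps al) 0) = 0 ∧
    tJ (ps (cajumps al) 2 - ps (cajumps al) 1) = 0 := by
  constructor
  · simp only [ps, cajumps, List.take, List.sum_cons, List.sum_nil]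
    rw [show -(π / 3) + 0 - 0 = -(π / 3) by ring]
    exact tJ_neg_third
  · simp only [ps, cajumps, List.take, List.sum_cons, List.sum_nil]
    rw [show -(π / 3) + (-(π / 3) + 0) - (-(π / 3) + 0) = -(π / 3) by ring]
    exact tJ_neg_third

/-- total jump of the marks above the slab: any contiguous group -/
theorem ca_range {al : ℝ} (h0 : 0 ≤ al) (h1 : al ≤ 1) {a b : ℕ} (hab : a ≤ b) (hb : b ≤ 6) :
    -(2 * (π / 3)) ≤ ps (cajumps al) b - ps (cajumps al) a ∧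
      ps (cajumps al) b - ps (cajumps al) a ≤ 3 * (π / 3) := by
  have hπ := pi_pos
  have e1 : al * (π / 3) ≤ π / 3 := by nlinarith
  have e0 : 0 ≤ al * (π / 3) := by positivity
  have e2 : (1 - al) * (π / 3) = π / 3 - al * (π / 3) := by ring
  generalize hq : al * (π / 3) = q at *
  interval_cases b <;> interval_cases a <;> refine ⟨?_, ?_⟩ <;>
    simp only [ps, cajumps, List.take, List.sum_cons, List.sum_nil, e2, hq] <;> linarith

/-! ## Mirror images -/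

/-- jump at the mirror image of a vertex: turn `d` quarter turns (`1` convex, `-1` concave, `0` flat) -/
def mJ (d : ℤ) (J : ℝ) : ℝ := d * (π / 6) - J

theorem mJ_mJ (d : ℤ) (J : ℝ) : mJ d (mJ d J) = J := by unfold mJ; ring

theorem mJ_flat (J : ℝ) : mJ 0 J = -J := by unfold mJ; push_cast; ring

theorem mJ_convex : mJ 1 0 = π / 6 := by unfold mJ; push_cast; ring

theorem mJ_concave : mJ (-1) 0 = -(π / 6) := by unfold mJ; push_cast; ring

/-- version 3: the outer corners above and below are exchanged -/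
theorem mJ_oU (M : ℝ) : mJ (-1) (oU M) = oD M := by unfold mJ oU oD; push_cast; ring

theorem mJ_oD (M : ℝ) : mJ (-1) (oD M) = oU M := by unfold mJ oU oD; push_cast; ring

/-- three chambers: the outer corners are mirrored to themselves -/
theorem mJ_outer : mJ (-1) (-(π / 12)) = -(π / 12) := by unfold mJ; push_cast; ring

/-! ## The inequality (N*)

`A, B`: convex corner `π/6`, concave corner `-π/6`;
`Fq, Fq', Fmq, Fmq'`: flat `q, π/3 - q, -q, -(π/3 - q)`; `Fe, Fe', b`: marked side, its mirror, flat `-π/3`. -/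

/-- core of (N*); `G`, `G'`: product of the two flats `q₁, π/3 - q₁` resp. `-q₁, -(π/3 - q₁)` -/
theorem nstar_core {A B G G' X Y C₁ C₂ C₃ : ℝ} (k : ℕ) (hA : 0 ≤ A) (hB : 0 ≤ B)
    (hG : 0 ≤ G) (hX : 0 ≤ X) (hY : 0 ≤ Y) (hC₁ : 0 ≤ C₁) (hC₂ : 0 ≤ C₂)
    (h1 : G ≤ C₁ * (A ^ 4 * G')) (h2 : A ^ 4 * X ≤ C₂ * Y) (h3 : A * B ≤ C₃) :
    A ^ k * B ^ (k + 4) * G ^ 2 * X ≤ C₁ ^ 2 * C₂ * C₃ ^ (k + 4) * (G' ^ 2 * Y) := by
  have h0 : 0 ≤ A * B := mul_nonneg hA hB
  have hC₃ : 0 ≤ C₃ := h0.trans h3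
  have h4 : G ^ 2 ≤ C₁ ^ 2 * (A ^ 8 * G' ^ 2) := by
    calc G ^ 2 = G * G := by ring
      _ ≤ (C₁ * (A ^ 4 * G')) * (C₁ * (A ^ 4 * G')) :=
          mul_le_mul h1 h1 hG (hG.trans h1)
      _ = C₁ ^ 2 * (A ^ 8 * G' ^ 2) := by ring
  calc A ^ k * B ^ (k + 4) * G ^ 2 * X
      ≤ A ^ k * B ^ (k + 4) * (C₁ ^ 2 * (A ^ 8 * G' ^ 2)) * X := by gcongr
    _ = C₁ ^ 2 * (A * B) ^ (k + 4) * G' ^ 2 * (A ^ 4 * X) := by rw [mul_pow]; ring
    _ ≤ C₁ ^ 2 * C₃ ^ (k + 4) * G' ^ 2 * (C₂ * Y) := by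
        have h5 : (A * B) ^ (k + 4) ≤ C₃ ^ (k + 4) := pow_le_pow_left₀ h0 h3 _
        have h6 : 0 ≤ A ^ 4 * X := by positivity
        gcongr
    _ = C₁ ^ 2 * C₂ * C₃ ^ (k + 4) * (G' ^ 2 * Y) := by ring

/-- (N*) for the marks of the Cardy family; `T` is the factor of the chamber B flats and the outer
corners, which is the same on both sides. -/
theorem nstar {A B G G' Fq Fq' Fmq Fmq' Fe Fe' b T C₁ C₂ C₃ C₄ : ℝ} (k : ℕ)
    (hA : 0 ≤ A) (hB : 0 ≤ B) (hG : 0 ≤ G) (hq : 0 ≤ Fq) (hq' : 0 ≤ Fq')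
    (hmq : 0 ≤ Fmq) (hmq' : 0 ≤ Fmq') (hFe : 0 ≤ Fe) (hFe' : 0 ≤ Fe') (hT : 0 ≤ T)
    (hC₁ : 0 ≤ C₁) (hC₂ : 0 ≤ C₂) (hC₄ : 0 ≤ C₄)
    (h1 : G ≤ C₁ * (A ^ 4 * G')) (h2 : A ^ 4 * (Fmq * Fmq') ≤ C₂ * (Fq * Fq'))
    (h3 : A * B ≤ C₃) (h4 : Fe' * b ^ 2 ≤ C₄ * Fe) :
    A ^ k * B ^ (k + 4) * G ^ 2 * (Fmq * Fmq') * (Fe' * b ^ 2) * T ≤
      C₁ ^ 2 * (C₂ * C₄) * C₃ ^ (k + 4) * (G' ^ 2 * (Fq * Fq') * Fe * T) := by
  have h5 : A ^ 4 * (Fmq * Fmq' * (Fe' * b ^ 2) * T) ≤ C₂ * C₄ * (Fq * Fq' * Fe * T) := by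
    calc A ^ 4 * (Fmq * Fmq' * (Fe' * b ^ 2) * T)
        = (A ^ 4 * (Fmq * Fmq')) * (Fe' * b ^ 2) * T := by ring
      _ ≤ (C₂ * (Fq * Fq')) * (C₄ * Fe) * T := by gcongr
      _ = C₂ * C₄ * (Fq * Fq' * Fe * T) := by ring
  have h6 := nstar_core k hA hB hG (by positivity) (by positivity) hC₁ (mul_nonneg hC₂ hC₄) h1 h5 h3
  calc A ^ k * B ^ (k + 4) * G ^ 2 * (Fmq * Fmq') * (Fe' * b ^ 2) * T
      = A ^ k * B ^ (k + 4) * G ^ 2 * (Fmq * Fmq' * (Fe' * b ^ 2) * T) := by ring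
    _ ≤ _ := h6
    _ = _ := by ring

/-- (N*) for a natural domain with a base -/
theorem nstar_nat {A B G G' b T C₁ C₃ C₅ : ℝ} (k : ℕ)
    (hA : 0 ≤ A) (hB : 0 ≤ B) (hG : 0 ≤ G) (hb : 0 ≤ b) (hT : 0 ≤ T)
    (hC₁ : 0 ≤ C₁) (hC₅ : 0 ≤ C₅)
    (h1 : G ≤ C₁ * (A ^ 4 * G')) (h3 : A * B ≤ C₃) (h5 : A ^ 4 * b ≤ C₅) :
    A ^ k * B ^ (k + 4) * G ^ 2 * b * T ≤ C₁ ^ 2 * C₅ * C₃ ^ (k + 4) * (G' ^ 2 * T) := by
  have h5' : A ^ 4 * (b * T) ≤ C₅ * T := by
    calc A ^ 4 * (b * T) = (A ^ 4 * b) * T := by ring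
      _ ≤ C₅ * T := by gcongr
  have h6 := nstar_core k hA hB hG (by positivity) hT hC₁ hC₅ h1 h5' h3
  calc A ^ k * B ^ (k + 4) * G ^ 2 * b * T = A ^ k * B ^ (k + 4) * G ^ 2 * (b * T) := by ring
    _ ≤ _ := h6

/-- the marked side against its mirror: half plane one arm `b ≤ C_b n^(-1/3)`, `F'_e ≤ 2 b`,
`c/n ≤ F_e` -/
theorem marked_le {n b Fe Fe' Cb c : ℝ} (hn : 0 < n) (hb : 0 ≤ b) (hc : 0 < c)
    (h1 : b ≤ Cb * n ^ (-(1 / 3) : ℝ)) (h2 : Fe' ≤ 2 * b) (h3 : c / n ≤ Fe) :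
    Fe' * b ^ 2 ≤ 2 * Cb ^ 3 / c * Fe := by
  have hx : 0 < n ^ (-(1 / 3) : ℝ) := rpow_pos_of_pos hn _
  have hCb : 0 ≤ Cb := by
    by_contra hcon
    have : Cb * n ^ (-(1 / 3) : ℝ) < 0 := mul_neg_of_neg_of_pos (not_le.1 hcon) hx
    linarith
  have h4 : (n ^ (-(1 / 3) : ℝ)) ^ 3 = 1 / n := by
    rw [← rpow_natCast (n ^ (-(1 / 3) : ℝ)) 3, ← rpow_mul hn.le]
    rw [show (-(1 / 3) : ℝ) * ((3 : ℕ) : ℝ) = -1 by norm_num, rpow_neg_one, one_div]
  calc Fe' * b ^ 2 ≤ 2 * b * b ^ 2 := by gcongr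
    _ = 2 * b ^ 3 := by ring
    _ ≤ 2 * (Cb * n ^ (-(1 / 3) : ℝ)) ^ 3 := by gcongr
    _ = 2 * Cb ^ 3 / c * (c / n) := by rw [mul_pow, h4]; field_simp
    _ ≤ 2 * Cb ^ 3 / c * Fe := by gcongr

/-! ## Products over the special vertices

A special vertex is recorded by `(d, J)`, `d = 1` convex, `-1` concave, `0` flat. -/

/-- product of local factors -/
def kProd (F : ℤ × ℝ → ℝ) (l : List (ℤ × ℝ)) : ℝ := (l.map F).prod

/-- mirror image -/
def kMir (v : ℤ × ℝ) : ℤ × ℝ := (v.1, mJ v.1 v.2)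

theorem kProd_append (F : ℤ × ℝ → ℝ) (l₁ l₂ : List (ℤ × ℝ)) :
    kProd F (l₁ ++ l₂) = kProd F l₁ * kProd F l₂ := by simp [kProd]

theorem kProd_replicate (F : ℤ × ℝ → ℝ) (m : ℕ) (v : ℤ × ℝ) :
    kProd F (List.replicate m v) = F v ^ m := by simp [kProd]

theorem kProd_cons (F : ℤ × ℝ → ℝ) (v : ℤ × ℝ) (l : List (ℤ × ℝ)) :
    kProd F (v :: l) = F v * kProd F l := by simp [kProd]

theorem kProd_nil (F : ℤ × ℝ → ℝ) : kProd F [] = 1 := by simp [kProd]

theorem kProd_nonneg {F : ℤ × ℝ → ℝ} (hF : ∀ v, 0 ≤ F v) (l : List (ℤ × ℝ)) : 0 ≤ kProd F l := by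
  induction l with
  | nil => simp [kProd]
  | cons v l ih => rw [kProd_cons]; exact mul_nonneg (hF v) ih

theorem kProd_pos {F : ℤ × ℝ → ℝ} {l : List (ℤ × ℝ)} (hF : ∀ v ∈ l, 0 < F v) : 0 < kProd F l := by
  induction l with
  | nil => simp [kProd]
  | cons v l ih =>
    rw [kProd_cons]
    exact mul_pos (hF v (by simp)) (ih fun w hw => hF w (List.mem_cons_of_mem _ hw))

theorem kMir_kMir (v : ℤ × ℝ) : kMir (kMir v) = v := Prod.ext rfl (mJ_mJ v.1 v.2)

/-- special vertices of the environment outside of the domain, version 3: four outer corners, the flats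
of the chambers A and B on both sides, four block ends -/
def kOut (M : ℝ) : List (ℤ × ℝ) :=
  List.replicate 2 (-1, oU M) ++ List.replicate 2 (-1, oD M) ++
    List.replicate 2 (0, -(π / 6) - pA M) ++ List.replicate 2 (0, -(π / 6) + pA M) ++
    List.replicate 2 (0, -sB M) ++ List.replicate 2 (0, sB M) ++ List.replicate 4 (-1, 0)

/-- the factor which is the same for the environment and its mirror image -/
def kBal (F : ℤ × ℝ → ℝ) (M : ℝ) : ℝ :=
  F (-1, oU M) ^ 2 * F (-1, oD M) ^ 2 * (F (0, -sB M) ^ 2 * F (0, sB M) ^ 2)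

theorem kBal_nonneg {F : ℤ × ℝ → ℝ} (hF : ∀ v, 0 ≤ F v) (M : ℝ) : 0 ≤ kBal F M :=
  mul_nonneg (mul_nonneg (pow_nonneg (hF _) _) (pow_nonneg (hF _) _))
    (mul_nonneg (pow_nonneg (hF _) _) (pow_nonneg (hF _) _))

theorem kProd_kOut (F : ℤ × ℝ → ℝ) (M : ℝ) (h0 : F (-1, 0) = 1) :
    kProd F (kOut M) = (F (0, -(π / 6 + pA M)) * F (0, -(π / 3 - (π / 6 + pA M)))) ^ 2 *
      kBal F M := by
  have e1 : -(π / 6 + pA M) = -(π / 6) - pA M := by ring
  have e2 : -(π / 3 - (π / 6 + pA M)) = -(π / 6) + pA M := by ring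
  simp only [kOut, kBal, kProd_append, kProd_replicate, h0, e1, e2]
  ring

theorem kProd_kOut_mir (F : ℤ × ℝ → ℝ) (M : ℝ) :
    kProd F ((kOut M).map kMir) = (F (0, π / 6 + pA M) * F (0, π / 3 - (π / 6 + pA M))) ^ 2 *
      kBal F M * F (-1, -(π / 6)) ^ 4 := by
  have e1 : kMir (-1, oU M) = (-1, oD M) := Prod.ext rfl (mJ_oU M)
  have e2 : kMir (-1, oD M) = (-1, oU M) := Prod.ext rfl (mJ_oD M)
  have e3 : kMir (0, -(π / 6) - pA M) = (0, π / 6 + pA M) :=
    Prod.ext rfl (by rw [kMir, mJ_flat]; ring)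
  have e4 : kMir (0, -(π / 6) + pA M) = (0, π / 3 - (π / 6 + pA M)) :=
    Prod.ext rfl (by rw [kMir, mJ_flat]; ring)
  have e5 : kMir (0, -sB M) = (0, sB M) := Prod.ext rfl (by rw [kMir, mJ_flat, neg_neg])
  have e6 : kMir (0, sB M) = (0, -sB M) := Prod.ext rfl (mJ_flat _)
  have e7 : kMir (-1, 0) = (-1, -(π / 6)) := Prod.ext rfl mJ_concave
  simp only [kOut, kBal, List.map_append, List.map_replicate, e1, e2, e3, e4, e5, e6, e7,
    kProd_append, kProd_replicate]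
  ring

/-- the two ends of the range of `q₁ = π/6 + pA M` used in the rectangle with flats `q₁, π/3 - q₁` -/
theorem qA_range {M : ℝ} (h : MR M) : 0 ≤ π / 6 + pA M ∧ 0 ≤ π / 3 - (π / 6 + pA M) := by
  obtain ⟨h1, h2⟩ := abs_le.1 (pA_bound h)
  constructor <;> linarith [pi_pos]

/-- **(N*) in product form** for the Cardy marks. `F` gives the local factors of the special vertices
(the same scale everywhere); the polygon inequalities enter as hypotheses: `h1` = (R1) at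
`π/6 + pA M`, `h2` = (R1') at `q`, `h3` = (5.1), `h4` = the marked side against its mirror and two
flats `-π/3`. `k` = number of natural convex corners = number of natural concave corners of the
domain besides the marks (the four block ends are in `kOut`). -/
theorem nstar_prod {F : ℤ × ℝ → ℝ} (hF : ∀ v, 0 ≤ F v) (h0 : F (-1, 0) = 1)
    {M q Fe Fe' C₁ C₂ C₃ C₄ : ℝ}
    (k : ℕ) (hFe : 0 ≤ Fe) (hFe' : 0 ≤ Fe') (hC₁ : 0 ≤ C₁) (hC₂ : 0 ≤ C₂) (hC₄ : 0 ≤ C₄)
    (h1 : F (0, π / 6 + pA M) * F (0, π / 3 - (π / 6 + pA M)) ≤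
      C₁ * (F (1, π / 6) ^ 4 * (F (0, -(π / 6 + pA M)) * F (0, -(π / 3 - (π / 6 + pA M))))))
    (h2 : F (1, π / 6) ^ 4 * (F (0, -q) * F (0, -(π / 3 - q))) ≤
      C₂ * (F (0, q) * F (0, π / 3 - q)))
    (h3 : F (1, π / 6) * F (-1, -(π / 6)) ≤ C₃) (h4 : Fe' * F (0, -(π / 3)) ^ 2 ≤ C₄ * Fe) :
    kProd F ((kOut M).map kMir) * (F (1, π / 6) ^ k * F (-1, -(π / 6)) ^ k) *
        (F (0, -q) * F (0, -(π / 3 - q))) * (Fe' * F (0, -(π / 3)) ^ 2) ≤
      C₁ ^ 2 * (C₂ * C₄) * C₃ ^ (k + 4) *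
        (kProd F (kOut M) * (F (0, q) * F (0, π / 3 - q)) * Fe) := by
  rw [kProd_kOut F M h0, kProd_kOut_mir]
  have h := nstar (T := kBal F M) k (hF (1, π / 6)) (hF (-1, -(π / 6)))
    (mul_nonneg (hF (0, π / 6 + pA M)) (hF (0, π / 3 - (π / 6 + pA M)))) (hF (0, q))
    (hF (0, π / 3 - q)) (hF (0, -q)) (hF (0, -(π / 3 - q))) hFe hFe' (kBal_nonneg hF M)
    hC₁ hC₂ hC₄ h1 h2 h3 h4
  refine le_trans (le_of_eq ?_) (h.trans (le_of_eq ?_))
  · rw [pow_add (F (-1, -(π / 6))) k 4]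
    ring
  · ring

/-- the same for a natural domain with a base; `h5` = (R1') at `0` -/
theorem nstar_nat_prod {F : ℤ × ℝ → ℝ} (hF : ∀ v, 0 ≤ F v) (h0 : F (-1, 0) = 1)
    {M C₁ C₃ C₅ : ℝ} (k : ℕ) (hC₁ : 0 ≤ C₁) (hC₅ : 0 ≤ C₅)
    (h1 : F (0, π / 6 + pA M) * F (0, π / 3 - (π / 6 + pA M)) ≤
      C₁ * (F (1, π / 6) ^ 4 * (F (0, -(π / 6 + pA M)) * F (0, -(π / 3 - (π / 6 + pA M))))))
    (h3 : F (1, π / 6) * F (-1, -(π / 6)) ≤ C₃) (h5 : F (1, π / 6) ^ 4 * F (0, -(π / 3)) ≤ C₅) :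
    kProd F ((kOut M).map kMir) * (F (1, π / 6) ^ k * F (-1, -(π / 6)) ^ k) * F (0, -(π / 3)) ≤
      C₁ ^ 2 * C₅ * C₃ ^ (k + 4) * kProd F (kOut M) := by
  rw [kProd_kOut F M h0, kProd_kOut_mir]
  have h := nstar_nat (T := kBal F M) k (hF (1, π / 6)) (hF (-1, -(π / 6)))
    (mul_nonneg (hF (0, π / 6 + pA M)) (hF (0, π / 3 - (π / 6 + pA M)))) (hF (0, -(π / 3)))
    (kBal_nonneg hF M) hC₁ hC₅ h1 h3 h5
  refine le_trans (le_of_eq ?_) (h.trans (le_of_eq ?_))
  · rw [pow_add (F (-1, -(π / 6))) k 4]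
    ring
  · ring

end

end Pool.Agent.SixB
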