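import Pool.Agent.Lib.SixB.S3PAtl
import Pool.Agent.Lib.SixB.S3TestB
import Pool.Agent.Lib.SixB.S3KindD

/-!
# 6BD step 3, row R23: products of local factors and mirror images

The type of a special vertex is its kind and its number of quadrants: `VT = SK × ℕ`.
* `SK.star K m`, `VT.star`: the type of the mirror image (`ver J ↦ ver ((2 - m) π / 6 - J)`, `e ↔ em`).
* `FP r M`: product of the local factors `sF` of the multiset `M` of types.
* `vts A`: the types of an atlas; `prod_vts`, `vts_union`, ...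
* `blkV μ`: the 26 special vertices of a block whose pocket has the sum of jumps `μ`; `domV b X`: the corners of a
  polygon with `b` concave corners, and the marks `X`.
* `FP_cmp`: change of the scale. `nstar_nat`, `nstar_pair`, `nstar_full`: the inequality (N*).
-/

set_option autoImplicit false
set_option linter.unusedSectionVars false

namespace Pool.Agent.SixB

open Pool.Agent.Perc.Q Pool.Agent.Perc Real

noncomputable section

/-- the kind of the mirror image of a special vertex with `m` quadrants -/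
def SK.star (K : SK) (m : ℕ) : SK :=
  match K with
  | .ver J => .ver (((2 : ℝ) - m) * (π / 6) - J)
  | .e => .em
  | .em => .e

theorem SK.star_star (K : SK) (m : ℕ) : (K.star m).star m = K := by
  cases K with
  | ver J => unfold SK.star; simp
  | e => rfl
  | em => rfl

/-- types of special vertices: kind and number of quadrants -/
abbrev VT := SK × ℕ

/-- type of the mirror image -/
def VT.star (p : VT) : VT := (p.1.star p.2, p.2)

theorem VT.star_star (p : VT) : VT.star (VT.star p) = p := by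
  obtain ⟨K, m⟩ := p
  unfold VT.star
  simp only [SK.star_star]

/-- product of the local factors -/
def FP (r : ℕ) (M : Multiset VT) : ℝ := (M.map fun p => sF p.1 p.2 r).prod

/-- multiset of the mirror images -/
def mst (M : Multiset VT) : Multiset VT := M.map VT.star

namespace St

theorem FP_zero (r : ℕ) : FP r 0 = 1 := by simp [FP]

theorem FP_add (r : ℕ) (M N : Multiset VT) : FP r (M + N) = FP r M * FP r N := by simp [FP]

theorem FP_cons (r : ℕ) (p : VT) (M : Multiset VT) : FP r (p ::ₘ M) = sF p.1 p.2 r * FP r M := by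
  simp [FP]

theorem FP_replicate (r n : ℕ) (p : VT) : FP r (Multiset.replicate n p) = sF p.1 p.2 r ^ n := by
  simp [FP]

theorem FP_single (r : ℕ) (p : VT) : FP r {p} = sF p.1 p.2 r := by simp [FP]

theorem mst_add (M N : Multiset VT) : mst (M + N) = mst M + mst N := by simp [mst]

theorem mst_zero : mst 0 = 0 := rfl

theorem mst_cons (p : VT) (M : Multiset VT) : mst (p ::ₘ M) = p.star ::ₘ mst M := by simp [mst]

theorem mst_single (p : VT) : mst {p} = {p.star} := by simp [mst]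

theorem mst_replicate (n : ℕ) (p : VT) : mst (Multiset.replicate n p) = Multiset.replicate n p.star := by
  simp [mst]

theorem mst_mst (M : Multiset VT) : mst (mst M) = M := by
  unfold mst
  rw [Multiset.map_map]
  simp [VT.star_star]

theorem star_ver (J : ℝ) (m : ℕ) : VT.star (.ver J, m) = (.ver (((2 : ℝ) - m) * (π / 6) - J), m) := rfl

theorem star_flat (J : ℝ) : VT.star (.ver J, 2) = (.ver (-J), 2) := by
  rw [star_ver]
  congr 2
  push_cast
  ring

theorem star_convex : VT.star (.ver 0, 1) = (.ver (π / 6), 1) := by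
  rw [star_ver]
  congr 2
  push_cast
  ring

theorem star_concave : VT.star (.ver 0, 3) = (.ver (-(π / 6)), 3) := by
  rw [star_ver]
  congr 2
  push_cast
  ring

theorem star_e : VT.star (.e, 2) = (.em, 2) := rfl

/-- weight of a type -/
def vT (p : VT) : ℝ := sT p.1

/-- admissible types for the scale comparison -/
def Adm (t₀ : ℝ) (p : VT) : Prop := 1 ≤ p.2 ∧ p.2 ≤ 3 ∧ (t₀ ≤ sT p.1 ∨ (sT p.1 = 0 ∧ p.2 = 2))

theorem Adm.nonneg {t₀ : ℝ} (ht : 0 ≤ t₀) {p : VT} (h : Adm t₀ p) (r : ℕ) : 0 ≤ sF p.1 p.2 r := by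
  refine Kd.sF_nonneg ?_ _ _
  rcases h.2.2 with h1 | ⟨h1, -⟩
  · exact ht.trans h1
  · exact h1.symm.le

theorem Adm.pos {t₀ : ℝ} (ht : 0 < t₀) {p : VT} (h : Adm t₀ p) (r : ℕ) : 0 < sF p.1 p.2 r :=
  Kd.sF_pos ht h.1 h.2.1 h.2.2 r

theorem FP_nonneg {t₀ : ℝ} (ht : 0 ≤ t₀) {M : Multiset VT} (h : ∀ p ∈ M, Adm t₀ p) (r : ℕ) :
    0 ≤ FP r M := by
  unfold FP
  refine Multiset.prod_nonneg ?_
  intro x hx
  obtain ⟨p, hp, rfl⟩ := Multiset.mem_map.mp hx
  exact (h p hp).nonneg ht r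

theorem FP_pos {t₀ : ℝ} (ht : 0 < t₀) {M : Multiset VT} (h : ∀ p ∈ M, Adm t₀ p) (r : ℕ) :
    0 < FP r M := by
  induction M using Multiset.induction_on with
  | empty => rw [FP_zero]; exact one_pos
  | cons p M ih =>
    rw [FP_cons]
    exact mul_pos ((h p (Multiset.mem_cons_self p M)).pos ht r)
      (ih fun q hq => h q (Multiset.mem_cons_of_mem hq))

/-- **Change of the scale.** -/
theorem FP_cmp {t₀ : ℝ} (ht₀ : 0 < t₀) (ht₁ : t₀ ≤ 1) (N n : ℕ) : ∃ C : ℝ, 1 ≤ C ∧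
    ∀ (M : Multiset VT) (r r' : ℕ), M.card ≤ n → (∀ p ∈ M, Adm t₀ p) → r ≤ N * r' → r' ≤ N * r →
      FP r M ≤ C * FP r' M := by
  obtain ⟨C, hC, h⟩ := Kd.sF_lip t₀ ht₀ ht₁ N
  have hC0 : 0 ≤ C := zero_le_one.trans hC
  refine ⟨C ^ n, one_le_pow₀ hC, ?_⟩
  intro M r r' hn hM h1 h2
  have key : FP r M ≤ C ^ M.card * FP r' M := by
    clear hn
    induction M using Multiset.induction_on with
    | empty => simp [FP_zero]
    | cons p M ih =>
      have hp := hM p (Multiset.mem_cons_self p M)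
      have hM' : ∀ q ∈ M, Adm t₀ q := fun q hq => hM q (Multiset.mem_cons_of_mem hq)
      rw [FP_cons, FP_cons, Multiset.card_cons, pow_succ]
      calc sF p.1 p.2 r * FP r M ≤ (C * sF p.1 p.2 r') * (C ^ M.card * FP r' M) :=
            mul_le_mul (h p.1 p.2 r r' hp.1 hp.2.1 hp.2.2 h1 h2) (ih hM') (FP_nonneg ht₀.le hM' r)
              (mul_nonneg hC0 (hp.nonneg ht₀.le r'))
        _ = C ^ M.card * C * (sF p.1 p.2 r' * FP r' M) := by ring
  refine key.trans ?_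
  exact mul_le_mul_of_nonneg_right (pow_le_pow_right₀ hC hn) (FP_nonneg ht₀.le hM r')

/-! ## Types with factor `1` -/

theorem sF_one {K : SK} (h : sT K = 1) (m r : ℕ) : sF K m r = 1 := by
  unfold sF
  simp only [h, one_pow]
  exact av_const 1

theorem sF_ver_zero (m r : ℕ) : sF (.ver 0) m r = 1 :=
  sF_one (K := .ver 0) tJ_zero m r

theorem sF_ver_third (m r : ℕ) : sF (.ver (π / 3)) m r = 1 :=
  sF_one (K := .ver (π / 3)) tJ_third m r

/-- types with factor one -/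
def Triv (p : VT) : Prop := sT p.1 = 1

theorem FP_triv {M : Multiset VT} (h : ∀ p ∈ M, Triv p) (r : ℕ) : FP r M = 1 := by
  induction M using Multiset.induction_on with
  | empty => exact FP_zero r
  | cons p M ih =>
    rw [FP_cons, sF_one (h p (Multiset.mem_cons_self p M)),
      ih fun q hq => h q (Multiset.mem_cons_of_mem hq), mul_one]

theorem FP_add_triv {M N : Multiset VT} (h : ∀ p ∈ N, Triv p) (r : ℕ) : FP r (M + N) = FP r M := by
  rw [FP_add, FP_triv h, mul_one]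

/-! ## Atlases -/

section atlas

variable {V Φ : Type} [DecidableEq V] [DecidableEq Φ] {Q : QC V Φ} {F : Finset Φ} {ψ : V × V → ℝ}
  {Z Z' C C' C₁ C₂ : Finset (V × V)} {r nS nN nS' nN' : ℕ} {t₀ : ℝ}

/-- the types of the special vertices of a family -/
def tys {κ : Type} [Fintype κ] (K : κ → SK) (m : κ → ℕ) : Multiset VT :=
  Finset.univ.val.map fun i => (K i, m i)

theorem prod_tys {κ : Type} [Fintype κ] (K : κ → SK) (m : κ → ℕ) (r : ℕ) :
    ∏ i, sF (K i) (m i) r = FP r (tys K m) := by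
  unfold FP tys
  rw [Multiset.map_map]
  rfl

theorem card_tys {κ : Type} [Fintype κ] (K : κ → SK) (m : κ → ℕ) :
    (tys K m).card = Fintype.card κ := by
  unfold tys
  rw [Multiset.card_map]
  rfl

theorem mem_tys {κ : Type} [Fintype κ] {K : κ → SK} {m : κ → ℕ} {p : VT} :
    p ∈ tys K m ↔ ∃ i, (K i, m i) = p := by
  unfold tys
  rw [Multiset.mem_map]
  constructor
  · rintro ⟨i, -, h⟩
    exact ⟨i, h⟩
  · rintro ⟨i, h⟩
    exact ⟨i, Finset.mem_univ_val i, h⟩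

theorem mst_tys {κ : Type} [Fintype κ] (K : κ → SK) (m : κ → ℕ) :
    mst (tys K m) = tys (fun i => (K i).star (m i)) m := by
  unfold mst tys
  rw [Multiset.map_map]
  rfl

theorem tys_sum {κ₁ κ₂ : Type} [Fintype κ₁] [Fintype κ₂] (K₁ : κ₁ → SK) (K₂ : κ₂ → SK)
    (m₁ : κ₁ → ℕ) (m₂ : κ₂ → ℕ) :
    tys (Sum.elim K₁ K₂) (Sum.elim m₁ m₂) = tys K₁ m₁ + tys K₂ m₂ := by
  unfold tys
  rw [← Finset.univ_disjSum_univ]
  simp only [Finset.disjSum, Multiset.disjSum, Multiset.map_add, Multiset.map_map]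
  rfl

theorem tys_empty {κ : Type} [Fintype κ] [IsEmpty κ] (K : κ → SK) (m : κ → ℕ) : tys K m = 0 := by
  unfold tys
  rw [Finset.univ_eq_empty]
  rfl

theorem tys_equiv {κ κ' : Type} [Fintype κ] [Fintype κ'] (e : κ ≃ κ') (K : κ' → SK) (m : κ' → ℕ) :
    tys (fun i => K (e i)) (fun i => m (e i)) = tys K m := by
  unfold tys
  rw [← Finset.map_univ_equiv e, Finset.map_val, Multiset.map_map]
  rfl

/-- a family indexed by the entries of a list -/
theorem tys_list (l : List VT) :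
    tys (fun i : Fin l.length => (l.get i).1) (fun i => (l.get i).2) = (l : Multiset VT) := by
  unfold tys
  rw [Fin.univ_val_map]
  simp

/-- the types of the special vertices of an atlas -/
def vts (A : Atlas Q F ψ Z r nS nN t₀) : Multiset VT := @tys A.κ A.fκ A.K A.m

/-- the types of the special vertices of a partial atlas -/
def pvts (A : PAtlas Q F ψ Z C r nS nN t₀) : Multiset VT := @tys A.κ A.fκ A.K A.m

theorem prod_vts (A : Atlas Q F ψ Z r nS nN t₀) (ρ : ℕ) :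
    @Finset.prod A.κ ℝ _ (@Finset.univ A.κ A.fκ) (fun i => sF (A.K i) (A.m i) ρ) = FP ρ (vts A) :=
  @prod_tys A.κ A.fκ A.K A.m ρ

theorem card_vts (A : Atlas Q F ψ Z r nS nN t₀) : (vts A).card ≤ nS := by
  unfold vts
  rw [@card_tys A.κ A.fκ]
  exact A.cardS

theorem vts_toAtlas (A : PAtlas Q F ψ Z C r nS nN t₀) (hZ : Z ⊆ bS Q F) (hC : Z ⊆ C) :
    vts (A.toAtlas hZ hC) = pvts A := rfl

theorem pvts_toP (A : Atlas Q F ψ Z r nS nN t₀) : pvts A.toP = vts A := rfl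

theorem pvts_mono (A : PAtlas Q F ψ Z C r nS nN t₀) (hZ : Z ⊆ Z') (hC : C' ⊆ C) (hS : nS ≤ nS')
    (hN : nN ≤ nN') : pvts (A.mono hZ hC hS hN) = pvts A := rfl

theorem pvts_empty : pvts (PAtlas.empty Q F ψ Z r t₀) = 0 := rfl

theorem pvts_union (A : PAtlas Q F ψ Z C₁ r nS nN t₀) (B : PAtlas Q F ψ Z C₂ r nS' nN' t₀)
    (h1 : ∀ i j, Disjoint ((A.ch i).box (4 * r)) ((B.ch j).box (4 * r)))
    (h2 : ∀ i j, Disjoint ((A.nch i).box (2 * r)) ((B.ch j).box r))
    (h3 : ∀ i j, Disjoint ((B.nch i).box (2 * r)) ((A.ch j).box r))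
    (h4 : ∀ i j, Disjoint ((Mth (A.lf i) (A.w i) (2 * r) (A.h i) (A.l i)).image (A.mch i).φF)
      ((B.ch j).box r))
    (h5 : ∀ i j, Disjoint ((Mth (B.lf i) (B.w i) (2 * r) (B.h i) (B.l i)).image (B.mch i).φF)
      ((A.ch j).box r)) : pvts (A.union B h1 h2 h3 h4 h5) = pvts A + pvts B :=
  tys_sum A.K B.K A.m B.m

/-- the types of an atlas are admissible -/
theorem adm_vts (A : Atlas Q F ψ Z r nS nN t₀) (hm : ∀ i, A.K i = .e ∨ A.K i = .em → A.m i = 2) :
    ∀ p ∈ vts A, Adm t₀ p := by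
  intro p hp
  obtain ⟨i, rfl⟩ := (@mem_tys A.κ A.fκ A.K A.m p).mp hp
  refine ⟨(A.m_rng i).1, (A.m_rng i).2, ?_⟩
  show t₀ ≤ sT (A.K i) ∨ (sT (A.K i) = 0 ∧ A.m i = 2)
  rcases h : A.K i with J | _ | _
  · rcases A.tpos i J h with h1 | ⟨h1, h2⟩
    · exact Or.inl h1
    · right
      refine ⟨?_, h2⟩
      rw [h1]
      exact tJ_neg_third
  · exact Or.inr ⟨rfl, hm i (Or.inl h)⟩
  · exact Or.inr ⟨rfl, hm i (Or.inr h)⟩

end atlas

/-! ## The types of the environment -/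

/-- the special vertices of a block in the order of its contour; `μ` = sum of the jumps of its pocket -/
def blkL (μ : ℝ) : List VT :=
  [(.ver (BGeo.out μ / 2), 3), (.ver 0, 3), (.ver 0, 3), (.ver 0, 1), (.ver (-BGeo.alpha μ), 2),
    (.ver 0, 1), (.ver 0, 3), (.ver 0, 3), (.ver 0, 1), (.ver (-BGeo.sig μ), 2), (.ver 0, 1),
    (.ver 0, 3), (.ver 0, 3), (.ver 0, 3), (.ver 0, 3), (.ver 0, 1), (.ver (-BGeo.sig μ), 2),
    (.ver 0, 1), (.ver 0, 3), (.ver 0, 3), (.ver 0, 1), (.ver (-BGeo.alpha μ), 2), (.ver 0, 1),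
    (.ver 0, 3), (.ver 0, 3), (.ver (BGeo.out μ / 2), 3)]

/-- the special vertices of a block -/
def blkV (μ : ℝ) : Multiset VT := (blkL μ : Multiset VT)

/-- the special vertices of a polygon with `b` concave corners and the marks `X` -/
def domV (b : ℕ) (X : Multiset VT) : Multiset VT :=
  Multiset.replicate (4 + b) (.ver 0, 1) + Multiset.replicate b (.ver 0, 3) + X

/-- marks of a natural domain -/
def mkNat : Multiset VT := {(.ver (π / 3), 2)}

/-- a split mark -/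
def mkPair (α : ℝ) : Multiset VT := {(.ver ((1 - α) * (π / 3)), 2), (.ver (α * (π / 3)), 2)}

/-- the marks of block CA -/
def mkFull (α : ℝ) : Multiset VT := mkPair α + {(.ver (π / 3), 2), (.ver (π / 3), 2), (.e, 2)}

/-- the marks of the three families -/
def Mk (X : Multiset VT) : Prop := X = mkNat ∨ ∃ α : ℝ, 0 ≤ α ∧ α ≤ 1 ∧ (X = mkPair α ∨ X = mkFull α)

/-- convex corner `π / 6` -/
def cA (r : ℕ) : ℝ := sF (.ver (π / 6)) 1 r

/-- concave corner `-π / 6` -/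
def cB (r : ℕ) : ℝ := sF (.ver (-(π / 6))) 3 r

/-- flat vertex -/
def fF (q : ℝ) (r : ℕ) : ℝ := sF (.ver q) 2 r

theorem cA_nonneg (r : ℕ) : 0 ≤ cA r := by
  refine Kd.sF_nonneg ?_ _ _
  show (0 : ℝ) ≤ tJ (π / 6)
  rw [tJ_sixth]
  positivity

theorem cB_nonneg (r : ℕ) : 0 ≤ cB r := by
  refine Kd.sF_nonneg ?_ _ _
  show (0 : ℝ) ≤ tJ (-(π / 6))
  rw [tJ_neg_sixth]
  positivity

theorem fF_nonneg {q : ℝ} (h1 : -(π / 3) ≤ q) (h2 : q ≤ 2 * (π / 3)) (r : ℕ) : 0 ≤ fF q r :=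
  Kd.sF_nonneg (K := .ver q) (tJ_nonneg ⟨h1, h2⟩) _ _

theorem fF_zero (r : ℕ) : fF 0 r = 1 := sF_ver_zero 2 r

theorem fF_third (r : ℕ) : fF (π / 3) r = 1 := sF_ver_third 2 r

theorem FP_blkV (μ : ℝ) (r : ℕ) : FP r (blkV μ) =
    sF (.ver (BGeo.out μ / 2)) 3 r ^ 2 * fF (-BGeo.alpha μ) r ^ 2 * fF (-BGeo.sig μ) r ^ 2 := by
  unfold FP blkV blkL fF
  simp only [Multiset.map_coe, Multiset.prod_coe, List.map_cons, List.map_nil, List.prod_cons,
    List.prod_nil, sF_ver_zero]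
  ring

theorem out_star (μ : ℝ) : ((2 : ℝ) - (3 : ℕ)) * (π / 6) - BGeo.out μ / 2 = BGeo.out (π / 3 - μ) / 2 := by
  unfold BGeo.out
  push_cast
  ring

theorem flat_star (J : ℝ) : ((2 : ℝ) - (2 : ℕ)) * (π / 6) - J = -J := by
  push_cast
  ring

theorem FP_mst_blkV (μ : ℝ) (r : ℕ) : FP r (mst (blkV μ)) =
    cA r ^ 8 * cB r ^ 12 * (sF (.ver (BGeo.out (π / 3 - μ) / 2)) 3 r ^ 2 * fF (BGeo.alpha μ) r ^ 2 *
      fF (BGeo.sig μ) r ^ 2) := by
  have e1 : VT.star (.ver (BGeo.out μ / 2), 3) = (.ver (BGeo.out (π / 3 - μ) / 2), 3) := by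
    rw [star_ver, out_star]
  have e2 : VT.star (.ver (-BGeo.alpha μ), 2) = (.ver (BGeo.alpha μ), 2) := by
    rw [star_flat, neg_neg]
  have e3 : VT.star (.ver (-BGeo.sig μ), 2) = (.ver (BGeo.sig μ), 2) := by
    rw [star_flat, neg_neg]
  unfold FP mst blkV blkL fF cA cB
  simp only [Multiset.map_coe, Multiset.prod_coe, List.map_cons, List.map_nil, List.prod_cons,
    List.prod_nil, e1, e2, e3, star_convex, star_concave]
  ring

theorem FP_domV (b : ℕ) (X : Multiset VT) (r : ℕ) : FP r (domV b X) = FP r X := by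
  unfold domV
  rw [FP_add, FP_add, FP_replicate, FP_replicate]
  simp only [sF_ver_zero, one_pow, one_mul]

theorem FP_mst_domV (b : ℕ) (X : Multiset VT) (r : ℕ) :
    FP r (mst (domV b X)) = cA r ^ (4 + b) * cB r ^ b * FP r (mst X) := by
  unfold domV
  rw [mst_add, mst_add, mst_replicate, mst_replicate, FP_add, FP_add, FP_replicate, FP_replicate,
    star_convex, star_concave]
  rfl

theorem FP_mkNat (r : ℕ) : FP r mkNat = 1 := by
  unfold mkNat
  rw [FP_single]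
  exact sF_ver_third 2 r

theorem FP_mst_mkNat (r : ℕ) : FP r (mst mkNat) = fF (-(π / 3)) r := by
  unfold mkNat
  rw [mst_single, star_flat, FP_single]
  rfl

theorem FP_mkPair (α : ℝ) (r : ℕ) :
    FP r (mkPair α) = fF ((1 - α) * (π / 3)) r * fF (α * (π / 3)) r := by
  simp [mkPair, FP, fF]

theorem FP_mst_mkPair (α : ℝ) (r : ℕ) :
    FP r (mst (mkPair α)) = fF (-((1 - α) * (π / 3))) r * fF (-(α * (π / 3))) r := by
  have h : mst (mkPair α) = {(.ver (-((1 - α) * (π / 3))), 2), (.ver (-(α * (π / 3))), 2)} := by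
    unfold mst mkPair
    simp only [Multiset.insert_eq_cons, Multiset.map_cons, Multiset.map_singleton, star_flat]
  rw [h]
  simp [FP, fF]

theorem FP_mkFull (α : ℝ) (r : ℕ) :
    FP r (mkFull α) = fF ((1 - α) * (π / 3)) r * fF (α * (π / 3)) r * sF .e 2 r := by
  unfold mkFull
  rw [FP_add, FP_mkPair]
  simp [FP, sF_ver_third]

theorem FP_mst_mkFull (α : ℝ) (r : ℕ) :
    FP r (mst (mkFull α)) = fF (-((1 - α) * (π / 3))) r * fF (-(α * (π / 3))) r *
      (sF .em 2 r * fF (-(π / 3)) r ^ 2) := by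
  unfold mkFull
  rw [mst_add, FP_add, FP_mst_mkPair]
  have h : mst {(.ver (π / 3), 2), (.ver (π / 3), 2), (.e, 2)} =
      {(.ver (-(π / 3)), 2), (.ver (-(π / 3)), 2), (.em, 2)} := by
    unfold mst
    simp only [Multiset.insert_eq_cons, Multiset.map_cons, Multiset.map_singleton, star_flat, star_e]
  rw [h]
  simp only [FP, fF, Multiset.insert_eq_cons, Multiset.map_cons, Multiset.map_singleton,
    Multiset.prod_cons, Multiset.prod_singleton]
  ring

/-! ## The inequality (N*) -/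

/-- the inequalities of the test polygons at the scale `r` -/
structure PolyI (C : ℝ) (r : ℕ) : Prop where
  r1 : ∀ q : ℝ, 0 ≤ q → q ≤ π / 3 → fF q r * fF (π / 3 - q) r ≤
    C * (cA r ^ 4 * (fF (-q) r * fF (-(π / 3 - q)) r))
  r1' : ∀ q : ℝ, 0 ≤ q → q ≤ π / 3 → cA r ^ 4 * (fF (-q) r * fF (-(π / 3 - q)) r) ≤
    C * (fF q r * fF (π / 3 - q) r)
  l : cA r * cB r ≤ C

/-- the marked side against its mirror -/
theorem e_le : ∃ C : ℝ, 0 < C ∧ ∀ r : ℕ, 0 < r →
    sF .em 2 r * fF (-(π / 3)) r ^ 2 ≤ C * sF .e 2 r := by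
  obtain ⟨C₁, hC₁, h1⟩ := Kd.sF_em_le
  obtain ⟨C₂, hC₂, h2⟩ := OwnZ.Fw_zero_le
  obtain ⟨c, hc, h3⟩ := Kd.sF_e_ge
  refine ⟨C₁ * C₂ ^ 2 / c, by positivity, fun r hr => ?_⟩
  have hr' : (0 : ℝ) < r := by exact_mod_cast hr
  have h4 : fF (-(π / 3)) r ≤ C₂ * (r : ℝ) ^ (-(1 / 3 : ℝ)) := by
    unfold fF
    rw [Kd.sF_ver (by norm_num) (by norm_num), tJ_neg_third]
    exact h2 0 r hr
  have h5 : 0 ≤ fF (-(π / 3)) r := fF_nonneg le_rfl (by linarith [pi_pos]) r
  have h6 : 0 ≤ sF .em 2 r := Kd.sF_nonneg le_rfl _ _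
  have hx : 0 < (r : ℝ) ^ (-(1 / 3 : ℝ)) := rpow_pos_of_pos hr' _
  have hx3 : ((r : ℝ) ^ (-(1 / 3 : ℝ))) ^ 3 = 1 / r := by
    rw [← rpow_natCast ((r : ℝ) ^ (-(1 / 3) : ℝ)) 3, ← rpow_mul hr'.le]
    rw [show (-(1 / 3) : ℝ) * ((3 : ℕ) : ℝ) = -1 by norm_num, rpow_neg_one, one_div]
  calc sF .em 2 r * fF (-(π / 3)) r ^ 2
      ≤ (C₁ * (r : ℝ) ^ (-(1 / 3 : ℝ))) * (C₂ * (r : ℝ) ^ (-(1 / 3 : ℝ))) ^ 2 := by
        have := h1 r hr
        gcongr
    _ = C₁ * C₂ ^ 2 * ((r : ℝ) ^ (-(1 / 3 : ℝ))) ^ 3 := by ring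
    _ = C₁ * C₂ ^ 2 / c * (c / r) := by rw [hx3]; field_simp
    _ ≤ C₁ * C₂ ^ 2 / c * sF .e 2 r := by
        have := h3 r hr
        gcongr

/-- the marks -/
theorem marks_star {C : ℝ} (hC : 0 ≤ C) : ∃ C₂ : ℝ, 0 ≤ C₂ ∧ ∀ r : ℕ, 0 < r → PolyI C r →
    ∀ X, Mk X → cA r ^ 4 * FP r (mst X) ≤ C₂ * FP r X := by
  obtain ⟨K, hK, hk⟩ := e_le
  refine ⟨C + C * K, by positivity, fun r hr hP X hX => ?_⟩
  have hπ := pi_pos
  rcases hX with rfl | ⟨α, h0, h1, rfl | rfl⟩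
  · have h := hP.r1' 0 le_rfl (by positivity)
    rw [neg_zero, sub_zero, fF_zero, fF_third, one_mul, mul_one, mul_one] at h
    rw [FP_mst_mkNat, FP_mkNat, mul_one]
    nlinarith [mul_nonneg hC hK.le]
  · have h := hP.r1' ((1 - α) * (π / 3)) (by nlinarith) (by nlinarith)
    have e : π / 3 - (1 - α) * (π / 3) = α * (π / 3) := by ring
    rw [e] at h
    rw [FP_mst_mkPair, FP_mkPair]
    refine h.trans ?_
    have h2 : 0 ≤ fF ((1 - α) * (π / 3)) r * fF (α * (π / 3)) r :=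
      mul_nonneg (fF_nonneg (by nlinarith) (by nlinarith) r) (fF_nonneg (by nlinarith) (by nlinarith) r)
    nlinarith [mul_nonneg (mul_nonneg hC hK.le) h2]
  · have h := hP.r1' ((1 - α) * (π / 3)) (by nlinarith) (by nlinarith)
    have e : π / 3 - (1 - α) * (π / 3) = α * (π / 3) := by ring
    rw [e] at h
    rw [FP_mst_mkFull, FP_mkFull]
    have h2 : 0 ≤ fF ((1 - α) * (π / 3)) r * fF (α * (π / 3)) r :=
      mul_nonneg (fF_nonneg (by nlinarith) (by nlinarith) r) (fF_nonneg (by nlinarith) (by nlinarith) r)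
    have h3 := hk r hr
    have h4 : 0 ≤ sF .em 2 r * fF (-(π / 3)) r ^ 2 :=
      mul_nonneg (Kd.sF_nonneg le_rfl _ _) (sq_nonneg _)
    have h5 : 0 ≤ sF .e 2 r := Kd.sF_nonneg le_rfl _ _
    calc cA r ^ 4 * (fF (-((1 - α) * (π / 3))) r * fF (-(α * (π / 3))) r *
          (sF .em 2 r * fF (-(π / 3)) r ^ 2))
        = cA r ^ 4 * (fF (-((1 - α) * (π / 3))) r * fF (-(α * (π / 3))) r) *
          (sF .em 2 r * fF (-(π / 3)) r ^ 2) := by ring
      _ ≤ (C * (fF ((1 - α) * (π / 3)) r * fF (α * (π / 3)) r)) * (K * sF .e 2 r) :=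
          mul_le_mul h h3 h4 (mul_nonneg hC h2)
      _ = C * K * (fF ((1 - α) * (π / 3)) r * fF (α * (π / 3)) r * sF .e 2 r) := by ring
      _ ≤ (C + C * K) * (fF ((1 - α) * (π / 3)) r * fF (α * (π / 3)) r * sF .e 2 r) := by
          have h6 : 0 ≤ fF ((1 - α) * (π / 3)) r * fF (α * (π / 3)) r * sF .e 2 r := mul_nonneg h2 h5
          nlinarith

/-- the range of the amplitudes -/
theorem alpha_range {μ : ℝ} (h1 : -(2 * (π / 3)) ≤ μ) (h2 : μ ≤ π) :
    0 ≤ BGeo.alpha μ ∧ BGeo.alpha μ ≤ π / 3 := by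
  unfold BGeo.alpha
  have := pi_pos
  constructor <;> linarith

theorem sig_range {μ : ℝ} (h1 : -(2 * (π / 3)) ≤ μ) (h2 : μ ≤ π) :
    -(π / 3) ≤ BGeo.sig μ ∧ BGeo.sig μ ≤ π / 3 := by
  unfold BGeo.sig
  have := pi_pos
  constructor <;> linarith

theorem out_range {μ : ℝ} (h1 : -(2 * (π / 3)) ≤ μ) (h2 : μ ≤ π) :
    -(π / 3) ≤ BGeo.out μ ∧ BGeo.out μ ≤ 0 := by
  unfold BGeo.out
  have := pi_pos
  constructor <;> linarith

/-- the types of the environment of a polygon -/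
def envV (μ : ℝ) (b : ℕ) (X : Multiset VT) : Multiset VT := blkV μ + blkV (π / 3 - μ) + domV b X

/-- **(N*)** for the three families. -/
theorem nstar_env {C : ℝ} (hC : 0 ≤ C) (b : ℕ) : ∃ C' : ℝ, 0 ≤ C' ∧ ∀ r : ℕ, 0 < r → PolyI C r →
    ∀ μ : ℝ, -(2 * (π / 3)) ≤ μ → μ ≤ π → ∀ X, Mk X →
      FP r (mst (envV μ b X)) ≤ C' * FP r (envV μ b X) := by
  obtain ⟨C₂, hC₂, h2⟩ := marks_star hC
  refine ⟨C ^ 2 * C₂ * C ^ (20 + b + 4), by positivity, fun r hr hP μ hμ1 hμ2 X hX => ?_⟩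
  have hπ := pi_pos
  obtain ⟨ha1, ha2⟩ := alpha_range hμ1 hμ2
  obtain ⟨hs1, hs2⟩ := sig_range hμ1 hμ2
  obtain ⟨ho1, ho2⟩ := out_range hμ1 hμ2
  have hμ1' : -(2 * (π / 3)) ≤ π / 3 - μ := by linarith
  have hμ2' : π / 3 - μ ≤ π := by linarith
  obtain ⟨ho1', ho2'⟩ := out_range hμ1' hμ2'
  have ea : BGeo.alpha (π / 3 - μ) = π / 3 - BGeo.alpha μ := by unfold BGeo.alpha; ring
  have es : BGeo.sig (π / 3 - μ) = -BGeo.sig μ := by unfold BGeo.sig; ring
  have ep : π / 3 - (π / 3 - μ) = μ := by ring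
  set T : ℝ := sF (.ver (BGeo.out μ / 2)) 3 r ^ 2 * sF (.ver (BGeo.out (π / 3 - μ) / 2)) 3 r ^ 2 *
    (fF (BGeo.sig μ) r ^ 2 * fF (-BGeo.sig μ) r ^ 2) with hT
  have hT0 : 0 ≤ T := by positivity
  have e1 : FP r (envV μ b X) =
      (fF (-BGeo.alpha μ) r * fF (-(π / 3 - BGeo.alpha μ)) r) ^ 2 * (T * FP r X) := by
    unfold envV
    rw [FP_add, FP_add, FP_blkV, FP_blkV, FP_domV, ea, es, neg_neg, hT]
    ring
  have e2 : FP r (mst (envV μ b X)) = cA r ^ (20 + b) * cB r ^ (20 + b + 4) *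
      (fF (BGeo.alpha μ) r * fF (π / 3 - BGeo.alpha μ) r) ^ 2 * (T * FP r (mst X)) := by
    unfold envV
    rw [mst_add, mst_add, FP_add, FP_add, FP_mst_blkV, FP_mst_blkV, FP_mst_domV, ea, es, ep, hT]
    ring
  rw [e1, e2]
  have hX0 : 0 ≤ FP r (mst X) ∧ 0 ≤ FP r X := by
    rcases hX with rfl | ⟨α, h0, h1, rfl | rfl⟩
    · rw [FP_mst_mkNat, FP_mkNat]
      exact ⟨fF_nonneg (by linarith) (by linarith) r, zero_le_one⟩
    · rw [FP_mst_mkPair, FP_mkPair]
      exact ⟨mul_nonneg (fF_nonneg (by nlinarith) (by nlinarith) r) (fF_nonneg (by nlinarith) (by nlinarith) r),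
        mul_nonneg (fF_nonneg (by nlinarith) (by nlinarith) r) (fF_nonneg (by nlinarith) (by nlinarith) r)⟩
    · rw [FP_mst_mkFull, FP_mkFull]
      exact ⟨mul_nonneg (mul_nonneg (fF_nonneg (by nlinarith) (by nlinarith) r)
          (fF_nonneg (by nlinarith) (by nlinarith) r))
          (mul_nonneg (Kd.sF_nonneg le_rfl _ _) (sq_nonneg _)),
        mul_nonneg (mul_nonneg (fF_nonneg (by nlinarith) (by nlinarith) r)
          (fF_nonneg (by nlinarith) (by nlinarith) r)) (Kd.sF_nonneg le_rfl _ _)⟩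
  have key := nstar_core (20 + b) (cA_nonneg r) (cB_nonneg r)
    (mul_nonneg (fF_nonneg (by linarith) (by linarith) r) (fF_nonneg (by linarith) (by linarith) r))
    (mul_nonneg hT0 hX0.1) (mul_nonneg hT0 hX0.2) hC hC₂ (hP.r1 _ ha1 ha2)
    (X := T * FP r (mst X)) (Y := T * FP r X) (by
      have h3 := h2 r hr hP X hX
      calc cA r ^ 4 * (T * FP r (mst X)) = T * (cA r ^ 4 * FP r (mst X)) := by ring
        _ ≤ T * (C₂ * FP r X) := mul_le_mul_of_nonneg_left h3 hT0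
        _ = C₂ * (T * FP r X) := by ring) hP.l
  exact key

end St

end

end Pool.Agent.SixB
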