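import Pool.Agent.Lib.SixB.S3DblAtl
import Pool.Agent.Lib.SixB.S3Star

/-!
# 6BD step 3: types of the special vertices of the double (R6)

`vts_dblAtlas`: the types of the double are those of the two copies; `pvts_mirP`, `pvts_mirE`: the types of mirror
images.
-/

set_option autoImplicit false
set_option linter.unusedSectionVars false

namespace Pool.Agent.SixB.Dbl

open Pool.Agent.Perc.Q Pool.Agent.Perc Pool.Agent.SixB.St

noncomputable section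

variable {V Φ : Type} [DecidableEq V] [DecidableEq Φ]

theorem mK_eq (m : ℕ) (K : SK) : mK m K = K.star m := by
  cases K <;> rfl

section

variable {Q : QC V Φ} {F : Finset Φ} {ψ : V × V → ℝ} {Z C : Finset (V × V)} {r nS nN : ℕ} {t₀ : ℝ}

theorem pvts_mirP (A : PAtlas Q F ψ Z C r nS nN t₀) {t₁ : ℝ} (hK : ∀ i, ∃ J, A.K i = .ver J)
    (ht : ∀ i J, A.K i = .ver J → t₁ ≤ tJ (Jm (A.m i) J) ∨ (Jm (A.m i) J = -(Real.pi / 3) ∧ A.m i = 2))
    (hn : ∀ i, A.m' i = 2) (hJ : ∀ i, (A.nch i).Jump ψ 0) (hμ : IsEmpty A.μ) :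
    pvts (mirP A hK ht hn hJ hμ) = mst (pvts A) := by
  unfold pvts
  rw [mst_tys]
  show tys (fun i => mK (A.m i) (A.K i)) A.m = _
  simp only [mK_eq]

theorem pvts_mirE {o : ZMod 4} {v : ℤ × ℤ} {K : SK} (c : WChart Q F 2 o v (4 * r + 1))
    (hc : SJumpR c K ψ) (hK : K = .e ∨ K = .em) (hZ : c.walls (4 * r) ⊆ Z) (t₁ : ℝ) :
    pvts (mirE c hc hK hZ t₁) = {VT.star (K, 2)} := by
  show tys (fun _ : Unit => mK 2 K) (fun _ => 2) = {VT.star (K, 2)}
  unfold tys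
  rw [mK_eq]
  rfl

end

section

variable {ι : Type} [Fintype ι] {Q : QC V Φ} {F : Finset Φ} {l : ι → V × V} (hl : OneSided Q F l)
  {ψ : V × V → ℝ} {Z Z' : Finset (V × V)} {r nS nN nS' nN' : ℕ} {t₀ : ℝ}

theorem prS_eq (A : Atlas Q F ψ Z r nS nN t₀) : prS A = FP r (vts A) := prod_vts A r

/-- **The types of the double.** -/
theorem vts_dblAtlas (A : Atlas Q F ψ Z r nS nN t₀) (hA : OffCut l A)
    (B : Atlas (mir Q) F (mps ψ) Z' r nS' nN' t₀) (hB : OffCut l B) :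
    vts (dblAtlas hl A hA B hB) = vts A + vts B :=
  @tys_sum A.κ B.κ A.fκ B.fκ A.K B.K A.m B.m

theorem vts_dblAtlas0 (A : Atlas Q F ψ Z r nS nN t₀) (hA : OffCut l A) (hK : ∀ i, ∃ J, A.K i = .ver J)
    (ht : ∀ i J, A.K i = .ver J → t₀ ≤ tJ (Jm (A.m i) J) ∨ (Jm (A.m i) J = -(Real.pi / 3) ∧ A.m i = 2))
    (hn : ∀ i, A.m' i = 2) (hJ : ∀ i, (A.nch i).Jump ψ 0) (hμ : IsEmpty A.μ) :
    vts (dblAtlas0 hl A hA hK ht hn hJ hμ) = vts A + mst (vts A) :=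
  (vts_dblAtlas hl A hA _ _).trans (congrArg (vts A + ·) (pvts_mirP A.toP hK ht hn hJ hμ))

end

end

end Pool.Agent.SixB.Dbl
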