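import Pool.Agent.Lib.SixB.S3AtlHgt
import Pool.Agent.Lib.SixB.S3AtlCells
import Pool.Agent.Lib.SixB.S3UpDbl
import Pool.Agent.Lib.SixB.S3DblV

/-!
# 6BD, step 3, row R1: UPPER for atlases

The results of `S3AtlUpC` and `S3AtlHgt` with the cells of the atlas (`Atlas.cells`): constants depend only on bounds
of the numbers of charts, on a lower bound of the positive weights and (if there is an event) on `s`.

* `Atlas.bd A hr h0`: the local bound `∏ t ^ N * (2 / √3) ^ K` of the atlas; `Atlas.abs_WZ_bd : |WZ| ≤ bd`.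
* `atlas_upper`: UPPER; `atlas_upper_event`: with an event off the boxes of radius `r / 2` of the special vertices;
  `atlas_upper_mul`: with a function; `atlas_hup`: `HUpper` for `bd * (2 / √3) ^ X`; `atlas_hup_WZ`: for `|WZ|`.
* `atlas_upper_le`, `atlas_hup_le`: uniform in the numbers of charts and in the lower bound of the weights.
* `Dbl.upAtl : UpAtl`.
-/

set_option autoImplicit false
set_option linter.unusedSectionVars false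
set_option linter.unusedVariables false

namespace Pool.Agent.SixB

open Finset Pool.Agent.Perc.Q Pool.Agent.Perc Pool.Agent.SixB.HSum

noncomputable section

attribute [local instance] Atlas.fκ Atlas.dκ Atlas.fι Atlas.fμ

variable {V Φ : Type} [DecidableEq V] [DecidableEq Φ] {Q : QC V Φ} {F : Finset Φ} {ψ : V × V → ℝ}
  {Z : Finset (V × V)} {r nS nN : ℕ} {t₀ : ℝ}

/-- the local bound of an atlas -/
def Atlas.bd (A : Atlas Q F ψ Z r nS nN t₀) (hr : 0 < r) (h0 : 0 ≤ t₀) (ω : Φ → Bool) : ℝ :=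
  (∏ v ∈ (A.cells hr h0).S, (A.cells hr h0).t v ^ (A.cells hr h0).N v ω) *
    (2 / Real.sqrt 3) ^ (A.cells hr h0).K ω

theorem Atlas.abs_WZ_bd (A : Atlas Q F ψ Z r nS nN t₀) (hr : 0 < r) (h0 : 0 ≤ t₀) (ω : Φ → Bool) :
    |WZ Q F ψ Z ω| ≤ A.bd hr h0 ω := by
  classical
  exact AU.abs_WZ_le (A.cells hr h0) ω

theorem Atlas.bd_nonneg (A : Atlas Q F ψ Z r nS nN t₀) (hr : 0 < r) (h0 : 0 ≤ t₀) (ω : Φ → Bool) :
    0 ≤ A.bd hr h0 ω := (abs_nonneg _).trans (A.abs_WZ_bd hr h0 ω)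

/-- **UPPER.** -/
theorem atlas_upper (nS nN : ℕ) (t₀ : ℝ) (h0 : 0 < t₀) (h1 : t₀ ≤ 1) :
    ∃ K₀ : ℝ, 0 < K₀ ∧ ∀ {V Φ : Type} [DecidableEq V] [DecidableEq Φ] {Q : QC V Φ} {F : Finset Φ}
      {ψ : V × V → ℝ} {Z : Finset (V × V)} {r : ℕ} (A : Atlas Q F ψ Z r nS nN t₀), 0 < r →
      av F (fun ω => |WZ Q F ψ Z ω|) ≤ K₀ * ∏ i, sF (A.K i) (A.m i) r := by
  obtain ⟨K₀, hK, h⟩ := atlasC_one nS nN t₀ h0 h1
  refine ⟨K₀, hK, ?_⟩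
  intro V Φ _ _ Q F ψ Z r A hr
  classical
  exact h A (A.isCells hr h0.le) (A.cells_cardI hr h0.le) rfl hr _ (AU.abs_WZ_le (A.cells hr h0.le))

/-- UPPER for the local bound. -/
theorem atlas_upper_bd (nS nN : ℕ) (t₀ : ℝ) (h0 : 0 < t₀) (h1 : t₀ ≤ 1) :
    ∃ K₀ : ℝ, 0 < K₀ ∧ ∀ {V Φ : Type} [DecidableEq V] [DecidableEq Φ] {Q : QC V Φ} {F : Finset Φ}
      {ψ : V × V → ℝ} {Z : Finset (V × V)} {r : ℕ} (A : Atlas Q F ψ Z r nS nN t₀) (hr : 0 < r),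
      av F (A.bd hr h0.le) ≤ K₀ * ∏ i, sF (A.K i) (A.m i) r := by
  obtain ⟨K₀, hK, h⟩ := atlasC_one nS nN t₀ h0 h1
  refine ⟨K₀, hK, ?_⟩
  intro V Φ _ _ Q F ψ Z r A hr
  have e : ∀ ω, |A.bd hr h0.le ω| = A.bd hr h0.le ω := fun ω => abs_of_nonneg (A.bd_nonneg hr h0.le ω)
  have h2 := h A (A.isCells hr h0.le) (A.cells_cardI hr h0.le) rfl hr (A.bd hr h0.le)
    (fun ω => le_of_eq (e ω))
  simp only [e] at h2
  exact h2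

/-- **UPPER with an event.** -/
theorem atlas_upper_event (nS nN s : ℕ) (t₀ : ℝ) (h0 : 0 < t₀) (h1 : t₀ ≤ 1) :
    ∃ K₀ : ℝ, 0 < K₀ ∧ ∀ {V Φ : Type} [DecidableEq V] [DecidableEq Φ] {Q : QC V Φ} {F : Finset Φ}
      {ψ : V × V → ℝ} {Z : Finset (V × V)} {r : ℕ} (A : Atlas Q F ψ Z r nS nN t₀), 0 < r →
      ∀ a : (Φ → Bool) → ℝ, (∀ ω, a ω = 0 ∨ a ω = 1) → (∀ i, Dep ((A.ch i).box (r / 2) : Set Φ)ᶜ a) →
      av F (fun ω => |WZ Q F ψ Z ω| * a ω) ≤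
        K₀ * av F a ^ (1 - (1 / 2 : ℝ) ^ s) * ∏ i, sF (A.K i) (A.m i) r := by
  obtain ⟨K₀, hK, h⟩ := atlasC_event nS nN s t₀ h0 h1
  refine ⟨K₀, hK, ?_⟩
  intro V Φ _ _ Q F ψ Z r A hr a ha had
  classical
  exact h A (A.isCells hr h0.le) (A.cells_cardI hr h0.le) rfl hr _ a
    (AU.abs_WZ_le (A.cells hr h0.le)) ha had

/-- **UPPER with a function.** -/
theorem atlas_upper_mul (nS nN : ℕ) (t₀ : ℝ) (h0 : 0 < t₀) (h1 : t₀ ≤ 1) :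
    ∃ K₀ : ℝ, 0 < K₀ ∧ ∀ {V Φ : Type} [DecidableEq V] [DecidableEq Φ] {Q : QC V Φ} {F : Finset Φ}
      {ψ : V × V → ℝ} {Z : Finset (V × V)} {r : ℕ} (A : Atlas Q F ψ Z r nS nN t₀), 0 < r →
      ∀ f H : (Φ → Bool) → ℝ, (∀ ω, f ω ≤ H ω) → (∀ ω, 0 ≤ H ω) →
      (∀ i, Dep ((A.ch i).box (r / 2) : Set Φ)ᶜ H) →
      av F (fun ω => |WZ Q F ψ Z ω| * f ω) ≤
        K₀ * Real.sqrt (Real.sqrt (av F (fun ω => H ω ^ 4))) * ∏ i, sF (A.K i) (A.m i) r := by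
  obtain ⟨K₀, hK, h⟩ := atlasC_mul nS nN t₀ h0 h1
  refine ⟨K₀, hK, ?_⟩
  intro V Φ _ _ Q F ψ Z r A hr f H hf hH had
  classical
  exact h A (A.isCells hr h0.le) (A.cells_cardI hr h0.le) rfl hr _ f H
    (AU.abs_WZ_le (A.cells hr h0.le)) hf hH had

/-- **`HUpper` for the local bound of an atlas with an additional excess `X`.** -/
theorem atlas_hup (nS nN s : ℕ) (t₀ : ℝ) (cX : ℝ → ℝ) (h0 : 0 < t₀) (h1 : t₀ ≤ 1) :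
    ∃ K₀ : ℝ, 0 < K₀ ∧ ∀ {V Φ : Type} [DecidableEq V] [DecidableEq Φ] {Q : QC V Φ} {F : Finset Φ}
      {ψ : V × V → ℝ} {Z : Finset (V × V)} {r : ℕ} (A : Atlas Q F ψ Z r nS nN t₀) (hr : 0 < r),
      ∀ (X : (Φ → Bool) → ℕ) (Dm : Set Φ),
      (∀ i, Dep ((A.ch i).box (r / 2) : Set Φ)ᶜ X) →
      (∀ L : ℝ, 1 ≤ L → av F (fun ω => L ^ X ω) ≤ cX L) →
      (∀ i, Dm ⊆ ((A.ch i).box (r / 2) : Set Φ)ᶜ) →
      HUpper (LH.avSys F) s Dm (fun ω => A.bd hr h0.le ω * (2 / Real.sqrt 3) ^ X ω)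
        (K₀ * ∏ i, sF (A.K i) (A.m i) r) := by
  obtain ⟨K₀, hK, h⟩ := atlasC_hup nS nN s t₀ cX h0 h1
  refine ⟨K₀, hK, ?_⟩
  intro V Φ _ _ Q F ψ Z r A hr X Dm hX hXm hDm
  have h2 := h A (A.isCells hr h0.le) (A.cells_cardI hr h0.le) rfl hr X Dm hX hXm hDm
  refine h2.mono_bd fun ω => ?_
  unfold Atlas.bd
  rw [pow_add, mul_assoc]

/-- **`HUpper` for the local bound of an atlas.** -/
theorem atlas_hup_bd (nS nN s : ℕ) (t₀ : ℝ) (h0 : 0 < t₀) (h1 : t₀ ≤ 1) :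
    ∃ K₀ : ℝ, 0 < K₀ ∧ ∀ {V Φ : Type} [DecidableEq V] [DecidableEq Φ] {Q : QC V Φ} {F : Finset Φ}
      {ψ : V × V → ℝ} {Z : Finset (V × V)} {r : ℕ} (A : Atlas Q F ψ Z r nS nN t₀) (hr : 0 < r)
      (Dm : Set Φ), (∀ i, Dm ⊆ ((A.ch i).box (r / 2) : Set Φ)ᶜ) →
      HUpper (LH.avSys F) s Dm (A.bd hr h0.le) (K₀ * ∏ i, sF (A.K i) (A.m i) r) := by
  obtain ⟨K₀, hK, h⟩ := atlas_hup nS nN s t₀ (fun _ => 1) h0 h1
  refine ⟨K₀, hK, ?_⟩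
  intro V Φ _ _ Q F ψ Z r A hr Dm hDm
  refine (h A hr (fun _ => 0) Dm (fun i _ _ _ => rfl) (fun L _ => ?_) hDm).mono_bd fun ω => ?_
  · simp only [pow_zero]
    exact le_of_eq ((LH.avSys F).one)
  · rw [pow_zero, mul_one]

/-- **`HUpper` for `|WZ|`.** -/
theorem atlas_hup_WZ (nS nN s : ℕ) (t₀ : ℝ) (h0 : 0 < t₀) (h1 : t₀ ≤ 1) :
    ∃ K₀ : ℝ, 0 < K₀ ∧ ∀ {V Φ : Type} [DecidableEq V] [DecidableEq Φ] {Q : QC V Φ} {F : Finset Φ}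
      {ψ : V × V → ℝ} {Z : Finset (V × V)} {r : ℕ} (A : Atlas Q F ψ Z r nS nN t₀), 0 < r →
      ∀ Dm : Set Φ, (∀ i, Dm ⊆ ((A.ch i).box (r / 2) : Set Φ)ᶜ) →
      HUpper (LH.avSys F) s Dm (fun ω => |WZ Q F ψ Z ω|) (K₀ * ∏ i, sF (A.K i) (A.m i) r) := by
  obtain ⟨K₀, hK, h⟩ := atlas_hup_bd nS nN s t₀ h0 h1
  refine ⟨K₀, hK, ?_⟩
  intro V Φ _ _ Q F ψ Z r A hr Dm hDm
  exact (h A hr Dm hDm).mono_bd fun ω => A.abs_WZ_bd hr h0.le ω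

/-- UPPER with bounds of the numbers of charts. -/
theorem atlas_upper_le (nS nN : ℕ) (t₀ : ℝ) (h0 : 0 < t₀) (h1 : t₀ ≤ 1) :
    ∃ K₀ : ℝ, 0 < K₀ ∧ ∀ {V Φ : Type} [DecidableEq V] [DecidableEq Φ] {Q : QC V Φ} {F : Finset Φ}
      {ψ : V × V → ℝ} {Z : Finset (V × V)} {r nS' nN' : ℕ} {t₁ : ℝ}
      (A : Atlas Q F ψ Z r nS' nN' t₁), nS' ≤ nS → nN' ≤ nN → t₀ ≤ t₁ → 0 < r →
      av F (fun ω => |WZ Q F ψ Z ω|) ≤ K₀ * FP r (St.vts A) := by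
  obtain ⟨K₀, hK, h⟩ := atlas_upper nS nN t₀ h0 h1
  refine ⟨K₀, hK, ?_⟩
  intro V Φ _ _ Q F ψ Z r nS' nN' t₁ A hS hN ht hr
  have h2 := h (Dbl.monoA A ht hS hN) hr
  rw [← Dbl.prS_eq]
  exact h2

/-- `HUpper` with bounds of the numbers of charts. -/
theorem atlas_hup_le (nS nN s : ℕ) (t₀ : ℝ) (h0 : 0 < t₀) (h1 : t₀ ≤ 1) :
    ∃ K₀ : ℝ, 0 < K₀ ∧ ∀ {V Φ : Type} [DecidableEq V] [DecidableEq Φ] {Q : QC V Φ} {F : Finset Φ}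
      {ψ : V × V → ℝ} {Z : Finset (V × V)} {r nS' nN' : ℕ} {t₁ : ℝ}
      (A : Atlas Q F ψ Z r nS' nN' t₁), nS' ≤ nS → nN' ≤ nN → t₀ ≤ t₁ → 0 < r →
      ∀ Dm : Set Φ, (∀ i, Dm ⊆ ((A.ch i).box (r / 2) : Set Φ)ᶜ) →
      HUpper (LH.avSys F) s Dm (fun ω => |WZ Q F ψ Z ω|) (K₀ * FP r (St.vts A)) := by
  obtain ⟨K₀, hK, h⟩ := atlas_hup_WZ nS nN s t₀ h0 h1
  refine ⟨K₀, hK, ?_⟩
  intro V Φ _ _ Q F ψ Z r nS' nN' t₁ A hS hN ht hr Dm hDm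
  have h2 := h (Dbl.monoA A ht hS hN) hr Dm hDm
  rw [← Dbl.prS_eq]
  exact h2

namespace Dbl

/-- **UPPER for all atlases.** -/
theorem upAtl : UpAtl := fun nS nN t₀ h0 h1 => atlas_upper nS nN t₀ h0 h1

end Dbl

end

end Pool.Agent.SixB
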