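import Pool.Agent.Lib.SixB.S3Hold

/-!
# SixB, step 3: abstract UPPER and LOWER bounds for weighted partition functions

Input: chain data `D` (boxes `B v j`, numbers `N v j` of arcs over the special vertex `v`), a signed weight `W`
with the deterministic local bound `|W| ≤ ∏ t_v ^ N v 0 * q ^ K` where the excess `K` depends on the faces outside
the boxes `B v 1` and has all exponential moments.

* `up_event`: `E[|W| a] ≤ C P(a)^(1 - 2^-s) ∏ F_v` for an event `a` outside the boxes `B v 1`;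
* `up_one`: `E|W| ≤ C ∏ F_v`;
* `up_mul`: `E[|W| h] ≤ C (E H^4)^(1/4) ∏ F_v` for `h ≤ H`, `H` outside the boxes `B v 1`;
* `lower`: if `W ≥ 0` on `good` and `W ≥ ∏ t_v ^ N v 0 * w ^ K'` on `good ∩ blk` then
  `E W ≥ (c - C P(not good)^(1/2)) ∏ F_v`.

All constants are uniform over all systems.
-/

set_option autoImplicit false
set_option linter.unusedVariables false

namespace Pool.Agent.SixB.UL

open Finset Pool.Agent.SixB

/-- deterministic local bound (output of LOC) together with the moments of the excess `K` -/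
structure Loc {Ω ι κ : Type*} (P : ExpSys Ω ι) (D : ChainData P κ) (t : κ → ℝ) (V : Finset κ)
    (q : ℝ) (cK : ℝ → ℝ) (K : Ω → ℕ) (W : Ω → ℝ) : Prop where
  dep : ∀ v ∈ V, P.Dep (D.B v 1)ᶜ K
  mom : ∀ L : ℝ, 1 ≤ L → P.E (fun ω => L ^ K ω) ≤ cK L
  le : ∀ ω, |W ω| ≤ (∏ v ∈ V, t v ^ D.N v 0 ω) * q ^ K ω

theorem prodF_nonneg {Ω ι κ : Type*} {P : ExpSys Ω ι} {D : ChainData P κ} {t : κ → ℝ}
    (ht : ∀ v, 0 ≤ t v) (V : Finset κ) : 0 ≤ ∏ v ∈ V, D.F v (t v) 0 :=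
  Finset.prod_nonneg fun v _ => P.E_nonneg fun ω => pow_nonneg (ht v) _

/-- UPPER bound with an event -/
theorem up_event (cM : ℝ → ℝ) (t₀ T A₀ : ℝ) (s nV : ℕ) (q : ℝ) (cK : ℝ → ℝ) (ht₀ : 0 < t₀)
    (ht₁ : t₀ ≤ 1) (hT : 1 ≤ T) (hq : 1 ≤ q) :
    ∃ C : ℝ, 0 < C ∧ ∀ (Ω ι κ : Type) (P : ExpSys Ω ι) (D : ChainData P κ) (t : κ → ℝ),
      D.Good t cM t₀ T A₀ → ∀ (V : Finset κ), V.card ≤ nV → ∀ (K : Ω → ℕ) (W a : Ω → ℝ),
      Loc P D t V q cK K W → (∀ ω, a ω = 0 ∨ a ω = 1) → (∀ v ∈ V, P.Dep (D.B v 1)ᶜ a) →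
      P.E (fun ω => |W ω| * a ω) ≤
        C * P.E a ^ (1 - (1 / 2 : ℝ) ^ s) * ∏ v ∈ V, D.F v (t v) 0 := by
  obtain ⟨C, hC, hmain⟩ := qm_event cM t₀ T A₀ s ht₀ ht₁ hT
  have hC0 : 0 < C := by linarith
  set R : ℝ := (max (cK (q ^ (2 ^ (s + 1)))) 1) ^ ((1 / 2 : ℝ) ^ (s + 1)) with hR
  have hR0 : 0 < R := Real.rpow_pos_of_pos (lt_of_lt_of_le one_pos (le_max_right _ _)) _
  refine ⟨C ^ nV * R, by positivity, ?_⟩
  intro Ω ι κ P D t hG V hV K W a hL ha had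
  have h1 := hmain Ω ι κ P D t hG V a (fun ω => q ^ K ω) ha (fun ω => by positivity) had
    (fun v hv => (hL.dep v hv).comp fun n => q ^ n)
  have ha0 : ∀ ω, 0 ≤ a ω := fun ω => by rcases ha ω with h | h <;> rw [h]; norm_num
  have hE0 : 0 ≤ P.E a := P.E_nonneg ha0
  have hF0 := prodF_nonneg (D := D) hG.t_nonneg V
  have h2 : P.E (fun ω => |W ω| * a ω) ≤
      P.E (fun ω => (∏ v ∈ V, t v ^ D.N v 0 ω) * (a ω * q ^ K ω)) := by
    refine P.mono _ _ fun ω => ?_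
    calc |W ω| * a ω ≤ ((∏ v ∈ V, t v ^ D.N v 0 ω) * q ^ K ω) * a ω :=
          mul_le_mul_of_nonneg_right (hL.le ω) (ha0 ω)
      _ = _ := by ring
  refine h2.trans (h1.trans ?_)
  have h3 : P.E (fun ω => (q ^ K ω) ^ (2 ^ (s + 1))) ^ ((1 / 2 : ℝ) ^ (s + 1)) ≤ R := by
    rw [hR]
    refine Real.rpow_le_rpow (P.E_nonneg fun ω => by positivity) ?_ (by positivity)
    refine le_trans ?_ (le_max_left _ _)
    have e : (fun ω => (q ^ K ω) ^ (2 ^ (s + 1))) = fun ω => (q ^ (2 ^ (s + 1))) ^ K ω := by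
      funext ω
      rw [← pow_mul, ← pow_mul, mul_comm]
    rw [e]
    exact hL.mom _ (one_le_pow₀ hq)
  have h4 : C ^ V.card ≤ C ^ nV := pow_le_pow_right₀ hC hV
  have h5 : 0 ≤ P.E a ^ (1 - (1 / 2 : ℝ) ^ s) := Real.rpow_nonneg hE0 _
  have h6 : 0 ≤ P.E (fun ω => (q ^ K ω) ^ (2 ^ (s + 1))) ^ ((1 / 2 : ℝ) ^ (s + 1)) :=
    Real.rpow_nonneg (P.E_nonneg fun ω => by positivity) _
  calc C ^ V.card * (∏ v ∈ V, D.F v (t v) 0) * (P.E a ^ (1 - (1 / 2 : ℝ) ^ s) *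
          P.E (fun ω => (q ^ K ω) ^ (2 ^ (s + 1))) ^ ((1 / 2 : ℝ) ^ (s + 1)))
      ≤ C ^ nV * (∏ v ∈ V, D.F v (t v) 0) * (P.E a ^ (1 - (1 / 2 : ℝ) ^ s) * R) := by
        refine mul_le_mul (mul_le_mul_of_nonneg_right h4 hF0)
          (mul_le_mul_of_nonneg_left h3 h5) (mul_nonneg h5 h6) (mul_nonneg (by positivity) hF0)
    _ = _ := by ring

/-- UPPER bound -/
theorem up_one (cM : ℝ → ℝ) (t₀ T A₀ : ℝ) (nV : ℕ) (q : ℝ) (cK : ℝ → ℝ) (ht₀ : 0 < t₀)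
    (ht₁ : t₀ ≤ 1) (hT : 1 ≤ T) (hq : 1 ≤ q) :
    ∃ C : ℝ, 0 < C ∧ ∀ (Ω ι κ : Type) (P : ExpSys Ω ι) (D : ChainData P κ) (t : κ → ℝ),
      D.Good t cM t₀ T A₀ → ∀ (V : Finset κ), V.card ≤ nV → ∀ (K : Ω → ℕ) (W : Ω → ℝ),
      Loc P D t V q cK K W →
      P.E (fun ω => |W ω|) ≤ C * ∏ v ∈ V, D.F v (t v) 0 := by
  obtain ⟨C, hC, hmain⟩ := up_event cM t₀ T A₀ 0 nV q cK ht₀ ht₁ hT hq
  refine ⟨C, hC, ?_⟩
  intro Ω ι κ P D t hG V hV K W hL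
  have h1 := hmain Ω ι κ P D t hG V hV K W (fun _ => 1) hL (fun _ => Or.inr rfl)
    (fun v _ => ExpSys.Dep.const _ _)
  rw [P.E_const, Real.one_rpow, mul_one] at h1
  simpa using h1

/-- UPPER bound with a function -/
theorem up_mul (cM : ℝ → ℝ) (t₀ T A₀ : ℝ) (nV : ℕ) (q : ℝ) (cK : ℝ → ℝ) (ht₀ : 0 < t₀)
    (ht₁ : t₀ ≤ 1) (hT : 1 ≤ T) (hq : 1 ≤ q) :
    ∃ C : ℝ, 0 < C ∧ ∀ (Ω ι κ : Type) (P : ExpSys Ω ι) (D : ChainData P κ) (t : κ → ℝ),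
      D.Good t cM t₀ T A₀ → ∀ (V : Finset κ), V.card ≤ nV → ∀ (K : Ω → ℕ) (W h H : Ω → ℝ),
      Loc P D t V q cK K W → (∀ ω, h ω ≤ H ω) → (∀ ω, 0 ≤ H ω) →
      (∀ v ∈ V, P.Dep (D.B v 1)ᶜ H) →
      P.E (fun ω => |W ω| * h ω) ≤
        C * Real.sqrt (Real.sqrt (P.E (fun ω => H ω ^ 4))) * ∏ v ∈ V, D.F v (t v) 0 := by
  obtain ⟨C, hC, hmain⟩ := qm_upper cM t₀ T A₀ ht₀ ht₁ hT
  have hC0 : 0 < C := by linarith
  set R : ℝ := Real.sqrt (Real.sqrt (max (cK (q ^ 4)) 1)) with hR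
  have hR0 : 0 < R := by
    have : 0 < max (cK (q ^ 4)) 1 := lt_of_lt_of_le one_pos (le_max_right _ _)
    positivity
  refine ⟨C ^ nV * R, by positivity, ?_⟩
  intro Ω ι κ P D t hG V hV K W h H hL hhH hH hHd
  have hq0 : 0 < q := by linarith
  have h1 := hmain Ω ι κ P D t hG V (fun ω => q ^ K ω * H ω)
    (fun ω => mul_nonneg (by positivity) (hH ω))
    (fun v hv => ((hL.dep v hv).comp fun n => q ^ n).comp2 (hHd v hv) fun x y => x * y)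
  have hF0 := prodF_nonneg (D := D) hG.t_nonneg V
  have hprod : ∀ ω, 0 ≤ ∏ v ∈ V, t v ^ D.N v 0 ω := fun ω =>
    Finset.prod_nonneg fun v _ => pow_nonneg (hG.t_nonneg v) _
  have h2 : P.E (fun ω => |W ω| * h ω) ≤
      P.E (fun ω => (∏ v ∈ V, t v ^ D.N v 0 ω) * (q ^ K ω * H ω)) := by
    refine P.mono _ _ fun ω => ?_
    calc |W ω| * h ω ≤ |W ω| * H ω := mul_le_mul_of_nonneg_left (hhH ω) (abs_nonneg _)
      _ ≤ ((∏ v ∈ V, t v ^ D.N v 0 ω) * q ^ K ω) * H ω :=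
          mul_le_mul_of_nonneg_right (hL.le ω) (hH ω)
      _ = _ := by ring
  refine h2.trans (h1.trans ?_)
  have h3 : Real.sqrt (P.E (fun ω => (q ^ K ω * H ω) ^ 2)) ≤
      R * Real.sqrt (Real.sqrt (P.E (fun ω => H ω ^ 4))) := by
    rw [hR, ← Real.sqrt_mul (Real.sqrt_nonneg _)]
    refine Real.sqrt_le_sqrt ?_
    have e1 : (fun ω => (q ^ K ω * H ω) ^ 2) = fun ω => (q ^ K ω) ^ 2 * H ω ^ 2 := by
      funext ω
      rw [mul_pow]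
    rw [e1]
    refine (P.cs_sqrt _ _).trans ?_
    have e2 : (fun ω => ((q ^ K ω) ^ 2) ^ 2) = fun ω => (q ^ 4) ^ K ω := by
      funext ω
      rw [← pow_mul, ← pow_mul, ← pow_mul]
      congr 1
      ring
    have e3 : (fun ω => (H ω ^ 2) ^ 2) = fun ω => H ω ^ 4 := by
      funext ω
      rw [← pow_mul]
    rw [e2, e3]
    refine mul_le_mul_of_nonneg_right ?_ (Real.sqrt_nonneg _)
    exact Real.sqrt_le_sqrt ((hL.mom _ (one_le_pow₀ hq)).trans (le_max_left _ _))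
  have h4 : C ^ V.card ≤ C ^ nV := pow_le_pow_right₀ hC hV
  calc C ^ V.card * (∏ v ∈ V, D.F v (t v) 0) * Real.sqrt (P.E (fun ω => (q ^ K ω * H ω) ^ 2))
      ≤ C ^ nV * (∏ v ∈ V, D.F v (t v) 0) *
          (R * Real.sqrt (Real.sqrt (P.E (fun ω => H ω ^ 4)))) :=
        mul_le_mul (mul_le_mul_of_nonneg_right h4 hF0) h3 (Real.sqrt_nonneg _)
          (mul_nonneg (by positivity) hF0)
    _ = _ := by ring

/-- LOWER bound -/
theorem lower (cM : ℝ → ℝ) (t₀ T A₀ : ℝ) (nV : ℕ) (q : ℝ) (cK : ℝ → ℝ) (cK' g₀ w : ℝ)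
    (ht₀ : 0 < t₀) (ht₁ : t₀ ≤ 1) (hT : 1 ≤ T) (hq : 1 ≤ q) (hg₀ : 0 < g₀) (hw0 : 0 < w)
    (hw1 : w ≤ 1) :
    ∃ c C : ℝ, 0 < c ∧ 0 < C ∧ ∀ (Ω ι κ : Type) (P : ExpSys Ω ι) (D : ChainData P κ) (t : κ → ℝ),
      D.Good t cM t₀ T A₀ → ∀ (V : Finset κ), V.card ≤ nV →
      ∀ (K K' : Ω → ℕ) (W good blk : Ω → ℝ) (S : Set ι),
      Loc P D t V q cK K W →
      (∀ ω, good ω = 0 ∨ good ω = 1) → (∀ v ∈ V, P.Dep (D.B v 1)ᶜ good) →
      (∀ ω, blk ω = 0 ∨ blk ω = 1) → P.Dep S blk → (∀ v ∈ V, Disjoint S (D.B v 0)) →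
      g₀ ≤ P.E blk →
      (∀ v ∈ V, P.Dep (D.B v 1)ᶜ K') → P.E (fun ω => 2 ^ K' ω) ≤ cK' →
      (∀ ω, good ω = 1 → 0 ≤ W ω) →
      (∀ ω, good ω = 1 → blk ω = 1 → (∏ v ∈ V, t v ^ D.N v 0 ω) * w ^ K' ω ≤ W ω) →
      (c - C * Real.sqrt (1 - P.E good)) * ∏ v ∈ V, D.F v (t v) 0 ≤ P.E W := by
  obtain ⟨c, hc, hlow⟩ := qm_lower cM t₀ T A₀ cK' g₀ w nV ht₀ ht₁ hT hg₀ hw0 hw1
  obtain ⟨C₁, hC₁, hup₁⟩ := qm_upper cM t₀ T A₀ ht₀ ht₁ hT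
  obtain ⟨C₂, hC₂, hup₂⟩ := up_event cM t₀ T A₀ 1 nV q cK ht₀ ht₁ hT hq
  have hC₁0 : 0 < C₁ := by linarith
  refine ⟨c, C₁ ^ nV + C₂, hc, by positivity, ?_⟩
  intro Ω ι κ P D t hG V hV K K' W good blk S hL hgood hgd hblk hbd hS hbE hK'd hK' hpos hbl
  have hF0 := prodF_nonneg (D := D) hG.t_nonneg V
  have hprod : ∀ ω, 0 ≤ ∏ v ∈ V, t v ^ D.N v 0 ω := fun ω =>
    Finset.prod_nonneg fun v _ => pow_nonneg (hG.t_nonneg v) _
  have hblk0 : ∀ ω, 0 ≤ blk ω := fun ω => by rcases hblk ω with h | h <;> rw [h]; norm_num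
  have hblk1 : ∀ ω, blk ω ≤ 1 := fun ω => by rcases hblk ω with h | h <;> rw [h]; norm_num
  set bad : Ω → ℝ := fun ω => 1 - good ω with hbad
  have hbad01 : ∀ ω, bad ω = 0 ∨ bad ω = 1 := by
    intro ω
    rcases hgood ω with h | h
    · exact Or.inr (by simp only [hbad]; rw [h]; norm_num)
    · exact Or.inl (by simp only [hbad]; rw [h]; norm_num)
  have hbad0 : ∀ ω, 0 ≤ bad ω := fun ω => by rcases hbad01 ω with h | h <;> rw [h]; norm_num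
  have hbadE : P.E bad = 1 - P.E good := by
    have h1 := P.E_sub (fun _ => 1) good
    rw [P.E_const] at h1
    exact h1
  have hbadd : ∀ v ∈ V, P.Dep (D.B v 1)ᶜ bad := fun v hv => (hgd v hv).comp fun x => 1 - x
  set X : Ω → ℝ := fun ω => (∏ v ∈ V, t v ^ D.N v 0 ω) * (w ^ K' ω * blk ω) with hX
  have h1 : c * ∏ v ∈ V, D.F v (t v) 0 ≤ P.E X :=
    hlow Ω ι κ P D t hG V hV K' blk S hK'd hK' hbd hS hblk0 hblk1 hbE
  have h2 : P.E (fun ω => (∏ v ∈ V, t v ^ D.N v 0 ω) * bad ω) ≤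
      C₁ ^ nV * Real.sqrt (1 - P.E good) * ∏ v ∈ V, D.F v (t v) 0 := by
    have h3 := hup₁ Ω ι κ P D t hG V bad hbad0 hbadd
    have e : (fun ω => bad ω ^ 2) = bad := by
      funext ω
      rcases hbad01 ω with h | h <;> rw [h] <;> norm_num
    rw [e, hbadE] at h3
    refine h3.trans ?_
    calc C₁ ^ V.card * (∏ v ∈ V, D.F v (t v) 0) * Real.sqrt (1 - P.E good)
        ≤ C₁ ^ nV * (∏ v ∈ V, D.F v (t v) 0) * Real.sqrt (1 - P.E good) :=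
          mul_le_mul_of_nonneg_right
            (mul_le_mul_of_nonneg_right (pow_le_pow_right₀ hC₁ hV) hF0) (Real.sqrt_nonneg _)
      _ = _ := by ring
  have h3 : P.E (fun ω => |W ω| * bad ω) ≤
      C₂ * Real.sqrt (1 - P.E good) * ∏ v ∈ V, D.F v (t v) 0 := by
    have h4 := hup₂ Ω ι κ P D t hG V hV K W bad hL hbad01 hbadd
    have e : (1 - (1 / 2 : ℝ) ^ 1) = 1 / 2 := by norm_num
    rw [e, hbadE, ← Real.sqrt_eq_rpow] at h4
    exact h4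
  have h5 : P.E (fun ω => X ω - ((∏ v ∈ V, t v ^ D.N v 0 ω) * bad ω + |W ω| * bad ω)) ≤ P.E W := by
    refine P.mono _ _ fun ω => ?_
    have hw : w ^ K' ω ≤ 1 := pow_le_one₀ hw0.le hw1
    have hw2 : 0 ≤ w ^ K' ω := pow_nonneg hw0.le _
    rcases hgood ω with h | h
    · have hb : bad ω = 1 := by simp only [hbad]; rw [h]; norm_num
      rw [hb]
      have h6 : X ω ≤ ∏ v ∈ V, t v ^ D.N v 0 ω := by
        simp only [hX]
        refine mul_le_of_le_one_right (hprod ω) ?_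
        exact mul_le_one₀ hw (hblk0 ω) (hblk1 ω)
      have h7 := neg_abs_le (W ω)
      linarith
    · have hb : bad ω = 0 := by simp only [hbad]; rw [h]; norm_num
      rw [hb]
      simp only [mul_zero, add_zero, sub_zero]
      rcases hblk ω with h6 | h6
      · simp only [hX]
        rw [h6, mul_zero, mul_zero]
        exact hpos ω h
      · simp only [hX]
        rw [h6, mul_one]
        exact hbl ω h h6
  have h6 : P.E (fun ω => X ω - ((∏ v ∈ V, t v ^ D.N v 0 ω) * bad ω + |W ω| * bad ω)) =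
      P.E X - (P.E (fun ω => (∏ v ∈ V, t v ^ D.N v 0 ω) * bad ω) +
        P.E (fun ω => |W ω| * bad ω)) := by
    rw [P.E_sub, P.add]
  rw [h6] at h5
  calc (c - (C₁ ^ nV + C₂) * Real.sqrt (1 - P.E good)) * ∏ v ∈ V, D.F v (t v) 0
      = c * ∏ v ∈ V, D.F v (t v) 0 - (C₁ ^ nV * Real.sqrt (1 - P.E good) *
          (∏ v ∈ V, D.F v (t v) 0) + C₂ * Real.sqrt (1 - P.E good) *
          ∏ v ∈ V, D.F v (t v) 0) := by ring
    _ ≤ P.E X - (P.E (fun ω => (∏ v ∈ V, t v ^ D.N v 0 ω) * bad ω) +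
        P.E (fun ω => |W ω| * bad ω)) := sub_le_sub h1 (add_le_add h2 h3)
    _ ≤ P.E W := h5

end Pool.Agent.SixB.UL
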