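import Pool.Agent.Lib.SixB.S3Cell
import Pool.Agent.Lib.SixB.S3UpLow
import Pool.Agent.Lib.SixB.S3Own
import Pool.Agent.Lib.SixB.S6LHeavy

/-!
# 6BD, step 3, row R1c, first part: from cells and chain data to the upper bounds

`C : Cells Q F ψ Z ι κ`, `D : ChainData (LH.avSys F) κ` with `C.N v = D.N v 2`, `C.Nb v = D.N v 0`, and functions
`Y k` which bound the number of the crossings of the cells. Then
`K = ∑ Y k + ∑ v, (D.M v 0 + D.M v 1)` depends on the faces off the boxes `D.B v 3`, has all exponential moments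
(`mom_sum`), and `|WZ| ≤ ∏ t v ^ D.N v 2 * (2 / √3) ^ K`: this is `UL.Loc` for the shifted chain data (`loc_of_cells`).
`Link` is the record of these hypotheses; `Link.up`, `Link.up_event`, `Link.up_mul`: upper bounds for `av F |WZ|`,
`av F (|WZ| a)`, `av F (|WZ| h)`.
-/

set_option autoImplicit false
set_option linter.unusedSectionVars false

namespace Pool.Agent.SixB.AU

open Finset Pool.Agent.Perc.Q Pool.Agent.SixB

noncomputable section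

/-- Exponential moments of a finite sum of counting functions. -/
theorem mom_sum {Ω ι κ : Type} (P : ExpSys Ω ι) (I : Finset κ) (Y : κ → Ω → ℕ) (c : ℝ → ℝ) {n : ℕ}
    (hn : I.card ≤ n) (h : ∀ i ∈ I, ∀ L : ℝ, 1 ≤ L → P.E (fun ω => L ^ Y i ω) ≤ c L) {L : ℝ}
    (hL : 1 ≤ L) : P.E (fun ω => L ^ (∑ i ∈ I, Y i ω)) ≤ 1 + n * max (c (L ^ n)) 0 := by
  have hLn : 1 ≤ L ^ n := one_le_pow₀ hL
  have h1 : ∀ ω, L ^ (∑ i ∈ I, Y i ω) ≤ 1 + ∑ i ∈ I, (L ^ n) ^ Y i ω := by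
    intro ω
    have h0 : ∀ i ∈ I, 0 ≤ (L ^ n) ^ Y i ω := fun i _ => by positivity
    rcases I.eq_empty_or_nonempty with rfl | hI
    · simp
    · obtain ⟨m, hm, hmax⟩ := I.exists_max_image (fun i => Y i ω) hI
      have h2 : ∑ i ∈ I, Y i ω ≤ n * Y m ω := by
        calc ∑ i ∈ I, Y i ω ≤ I.card • Y m ω := Finset.sum_le_card_nsmul _ _ _ hmax
          _ ≤ n * Y m ω := by
            rw [smul_eq_mul]
            exact Nat.mul_le_mul_right _ hn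
      calc L ^ (∑ i ∈ I, Y i ω) ≤ L ^ (n * Y m ω) := pow_le_pow_right₀ hL h2
        _ = (L ^ n) ^ Y m ω := pow_mul _ _ _
        _ ≤ ∑ i ∈ I, (L ^ n) ^ Y i ω := Finset.single_le_sum h0 hm
        _ ≤ 1 + ∑ i ∈ I, (L ^ n) ^ Y i ω := by linarith
  refine (P.mono _ _ h1).trans ?_
  have h2 : ∀ J : Finset κ, J ⊆ I → P.E (fun ω => 1 + ∑ i ∈ J, (L ^ n) ^ Y i ω) ≤
      1 + J.card * max (c (L ^ n)) 0 := by
    classical
    intro J
    induction J using Finset.induction_on with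
    | empty =>
      intro _
      simp only [Finset.sum_empty, Finset.card_empty, Nat.cast_zero, zero_mul, add_zero]
      exact P.one.le
    | insert a J ha ih =>
      intro hJ
      have e : (fun ω => 1 + ∑ i ∈ insert a J, (L ^ n) ^ Y i ω) =
          fun ω => (1 + ∑ i ∈ J, (L ^ n) ^ Y i ω) + (L ^ n) ^ Y a ω := by
        funext ω
        rw [Finset.sum_insert ha]
        ring
      rw [e, P.add, Finset.card_insert_of_notMem ha]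
      have h3 := ih fun x hx => hJ (Finset.mem_insert_of_mem hx)
      have h4 := h a (hJ (Finset.mem_insert_self _ _)) _ hLn
      have h5 := le_max_left (c (L ^ n)) 0
      push_cast
      linarith
  refine (h2 I (Finset.Subset.refl _)).trans ?_
  have h3 : (I.card : ℝ) ≤ n := by exact_mod_cast hn
  have h4 := le_max_right (c (L ^ n)) 0
  have := mul_le_mul_of_nonneg_right h3 h4
  linarith

/-- Exponential moments of a sum of three counting functions. -/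
theorem mom_three {Ω ι : Type} (P : ExpSys Ω ι) (a b c : Ω → ℕ) {L A B C : ℝ} (hL : 1 ≤ L)
    (ha : P.E (fun ω => (L ^ 3) ^ a ω) ≤ A) (hb : P.E (fun ω => (L ^ 3) ^ b ω) ≤ B)
    (hc : P.E (fun ω => (L ^ 3) ^ c ω) ≤ C) :
    P.E (fun ω => L ^ (a ω + b ω + c ω)) ≤ A + B + C := by
  have h1 : ∀ ω, L ^ (a ω + b ω + c ω) ≤ ((L ^ 3) ^ a ω + (L ^ 3) ^ b ω) + (L ^ 3) ^ c ω := by
    intro ω
    have p1 : 0 ≤ (L ^ 3) ^ a ω := by positivity
    have p2 : 0 ≤ (L ^ 3) ^ b ω := by positivity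
    have p3 : 0 ≤ (L ^ 3) ^ c ω := by positivity
    have key : ∀ m : ℕ, a ω + b ω + c ω ≤ 3 * m → L ^ (a ω + b ω + c ω) ≤ (L ^ 3) ^ m := by
      intro m hm
      rw [← pow_mul]
      exact pow_le_pow_right₀ hL hm
    rcases le_total (a ω) (b ω) with h | h <;> rcases le_total (b ω) (c ω) with h' | h'
    · have := key (c ω) (by omega)
      linarith
    · have := key (b ω) (by omega)
      linarith
    · rcases le_total (a ω) (c ω) with h'' | h''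
      · have := key (c ω) (by omega)
        linarith
      · have := key (a ω) (by omega)
        linarith
    · have := key (a ω) (by omega)
      linarith
  refine (P.mono _ _ h1).trans ?_
  rw [P.add, P.add]
  linarith

variable {V Φ : Type} [DecidableEq V] [DecidableEq Φ]
variable {Q : QC V Φ} {F : Finset Φ} {ψ : V × V → ℝ} {Z : Finset (V × V)} {ι κ : Type}
  [DecidableEq ι] [DecidableEq κ]

/-- The localisation of the normalised weight. -/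
theorem abs_WZ_le (C : Cells Q F ψ Z ι κ) (ω : Φ → Bool) :
    |WZ Q F ψ Z ω| ≤ (∏ v ∈ C.S, C.t v ^ C.N v ω) * (2 / Real.sqrt 3) ^ C.K ω := by
  have h3 : (0 : ℝ) < Real.sqrt 3 := Real.sqrt_pos.mpr (by norm_num)
  have hT : 0 ≤ ∏ v ∈ C.S, C.t v ^ C.N v ω :=
    Finset.prod_nonneg fun v hv => pow_nonneg (C.t_nonneg v hv) _
  by_cases h : ∀ a ∈ Z, mate Q F ω a ∈ Z
  · rw [WZ_of ψ h, abs_div, abs_of_nonneg (by positivity : 0 ≤ Real.sqrt 3 ^ (arcsZ Q F Z ω).card),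
      div_le_iff₀ (by positivity)]
    refine (C.prod_le ω).trans (le_of_eq (by ring))
  · rw [WZ_not ψ h, abs_zero]
    positivity

/-- The link between cells and chain data: `Y k`, `k ∈ J`, bound the crossings of the cells. -/
structure Link (C : Cells Q F ψ Z ι κ) (D : ChainData (LH.avSys F) κ) (t : κ → ℝ) {τ : Type}
    (J : Finset τ) (Y : τ → (Φ → Bool) → ℕ) (cY : ℝ → ℝ) : Prop where
  ht : ∀ v ∈ C.S, C.t v = t v
  hN : ∀ v ∈ C.S, ∀ ω, C.N v ω = D.N v 2 ω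
  hNb : ∀ v ∈ C.S, ∀ ω, C.Nb v ω = D.N v 0 ω
  hX : ∀ ω, C.X ω ≤ ∑ k ∈ J, Y k ω
  hd : ∀ k ∈ J, ∀ v ∈ C.S, Dep (D.B v 3)ᶜ (Y k)
  hm : ∀ k ∈ J, ∀ L : ℝ, 1 ≤ L → av F (fun ω => L ^ Y k ω) ≤ cY L

/-- The moments of the excess. -/
def cK (cM cY : ℝ → ℝ) (nS nY : ℕ) (L : ℝ) : ℝ :=
  (1 + nY * max (cY ((L ^ 3) ^ nY)) 0) + (1 + nS * max (cM ((L ^ 3) ^ nS)) 0) +
    (1 + nS * max (cM ((L ^ 3) ^ nS)) 0)

variable {C : Cells Q F ψ Z ι κ} {D : ChainData (LH.avSys F) κ} {t : κ → ℝ} {τ : Type}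
  {J : Finset τ} {Y : τ → (Φ → Bool) → ℕ} {cY cM : ℝ → ℝ} {t₀ T A₀ : ℝ} {nS nY : ℕ}

/-- The excess. -/
def Kx (C : Cells Q F ψ Z ι κ) (D : ChainData (LH.avSys F) κ) (J : Finset τ)
    (Y : τ → (Φ → Bool) → ℕ) (ω : Φ → Bool) : ℕ :=
  ∑ k ∈ J, Y k ω + ∑ v ∈ C.S, D.M v 0 ω + ∑ v ∈ C.S, D.M v 1 ω

theorem Link.K_le (h : Link C D t J Y cY) (ω : Φ → Bool) : C.K ω ≤ Kx C D J Y ω := by
  unfold Cells.K Kx
  rw [add_assoc, ← Finset.sum_add_distrib]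
  refine Nat.add_le_add (h.hX ω) (Finset.sum_le_sum fun v hv => ?_)
  rw [h.hN v hv, h.hNb v hv]
  have h1 : D.N v 0 ω ≤ D.N v 1 ω + D.M v 0 ω := D.hN2 v 0 ω
  have h2 : D.N v 1 ω ≤ D.N v 2 ω + D.M v 1 ω := D.hN2 v 1 ω
  omega

/-- A box number `j` is contained in the box number `i ≤ j`. -/
theorem B_anti (D : ChainData (LH.avSys F) κ) (v : κ) {i j : ℕ} (h : i ≤ j) : D.B v j ⊆ D.B v i :=
  box_anti (D.hB v) h

theorem Link.dep (h : Link C D t J Y cY) {v : κ} (hv : v ∈ C.S) :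
    Dep (D.B v 3)ᶜ (Kx C D J Y) := by
  intro ω ω' hω
  have hM : ∀ (j : ℕ), j ≤ 1 → ∀ v' ∈ C.S, D.M v' j ω = D.M v' j ω' := by
    intro j hj v' _
    refine D.hM v' j ω ω' fun f hf => hω f ?_
    by_cases hvv : v' = v
    · subst hvv
      intro hf3
      exact hf.2 (B_anti D v' (by omega : j + 2 ≤ 3) hf3)
    · intro hf3
      exact Set.disjoint_left.1 (D.hdis v' v hvv) (B_anti D v' (Nat.zero_le j) hf.1)
        (B_anti D v (Nat.zero_le 3) hf3)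
  unfold Kx
  rw [Finset.sum_congr rfl fun k hk => h.hd k hk v hv ω ω' hω,
    Finset.sum_congr rfl fun v' hv' => hM 0 (by norm_num) v' hv',
    Finset.sum_congr rfl fun v' hv' => hM 1 le_rfl v' hv']

theorem Link.mom (h : Link C D t J Y cY) (hG : D.Good t cM t₀ T A₀) (hS : C.S.card ≤ nS)
    (hJ : J.card ≤ nY) {L : ℝ} (hL : 1 ≤ L) :
    av F (fun ω => L ^ Kx C D J Y ω) ≤ cK cM cY nS nY L := by
  have hL3 : 1 ≤ L ^ 3 := one_le_pow₀ hL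
  exact mom_three (LH.avSys F) (fun ω => ∑ k ∈ J, Y k ω) (fun ω => ∑ v ∈ C.S, D.M v 0 ω)
    (fun ω => ∑ v ∈ C.S, D.M v 1 ω) hL
    (mom_sum (LH.avSys F) J Y cY hJ (fun k hk L hL => h.hm k hk L hL) hL3)
    (mom_sum (LH.avSys F) C.S (fun v => D.M v 0) cM hS (fun v _ L hL => hG.mom L hL v 0) hL3)
    (mom_sum (LH.avSys F) C.S (fun v => D.M v 1) cM hS (fun v _ L hL => hG.mom L hL v 1) hL3)

theorem one_le_q : (1 : ℝ) ≤ 2 / Real.sqrt 3 := by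
  have h3 : (0 : ℝ) < Real.sqrt 3 := Real.sqrt_pos.mpr (by norm_num)
  rw [le_div_iff₀ h3, one_mul, Real.sqrt_le_left (by norm_num)]
  norm_num

/-- **Localisation** in the form of `S3UpLow`. Any function `W` with `|W| ≤ |WZ|`-type bound can be used. -/
theorem Link.loc (h : Link C D t J Y cY) (hG : D.Good t cM t₀ T A₀) (hS : C.S.card ≤ nS)
    (hJ : J.card ≤ nY) {W : (Φ → Bool) → ℝ}
    (hW : ∀ ω, |W ω| ≤ (∏ v ∈ C.S, C.t v ^ C.N v ω) * (2 / Real.sqrt 3) ^ C.K ω) :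
    UL.Loc (LH.avSys F) (D.shift 2) t C.S (2 / Real.sqrt 3) (cK cM cY nS nY) (Kx C D J Y) W where
  dep := fun v hv => h.dep hv
  mom := fun L hL => h.mom hG hS hJ hL
  le := fun ω => by
    have e : ∏ v ∈ C.S, t v ^ (D.shift 2).N v 0 ω = ∏ v ∈ C.S, C.t v ^ C.N v ω := by
      refine Finset.prod_congr rfl fun v hv => ?_
      rw [h.ht v hv, h.hN v hv]
      rfl
    rw [e]
    refine (hW ω).trans ?_
    refine mul_le_mul_of_nonneg_left (pow_le_pow_right₀ one_le_q (h.K_le ω)) ?_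
    exact Finset.prod_nonneg fun v hv => pow_nonneg (C.t_nonneg v hv) _

end

/-! ### Upper bounds -/

/-- UPPER bound with an event, constants depend only on the numbers. -/
theorem up_event (cM cY : ℝ → ℝ) (t₀ T A₀ : ℝ) (nS nY s : ℕ) (h0 : 0 < t₀) (h1 : t₀ ≤ 1)
    (hT : 1 ≤ T) :
    ∃ K₀ : ℝ, 0 < K₀ ∧ ∀ {V Φ ι κ τ : Type} [DecidableEq V] [DecidableEq Φ] [DecidableEq ι]
      [DecidableEq κ] {Q : QC V Φ} {F : Finset Φ} {ψ : V × V → ℝ} {Z : Finset (V × V)}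
      (C : Cells Q F ψ Z ι κ) (D : ChainData (LH.avSys F) κ) (t : κ → ℝ) (J : Finset τ)
      (Y : τ → (Φ → Bool) → ℕ), Link C D t J Y cY → D.Good t cM t₀ T A₀ → C.S.card ≤ nS →
      J.card ≤ nY → ∀ W a : (Φ → Bool) → ℝ,
      (∀ ω, |W ω| ≤ (∏ v ∈ C.S, C.t v ^ C.N v ω) * (2 / Real.sqrt 3) ^ C.K ω) →
      (∀ ω, a ω = 0 ∨ a ω = 1) → (∀ v ∈ C.S, Dep (D.B v 3)ᶜ a) →
      av F (fun ω => |W ω| * a ω) ≤
        K₀ * av F a ^ (1 - (1 / 2 : ℝ) ^ s) * ∏ v ∈ C.S, D.F v (t v) 2 := by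
  obtain ⟨K₀, hK, h⟩ := UL.up_event cM t₀ T A₀ s nS (2 / Real.sqrt 3) (cK cM cY nS nY) h0 h1 hT one_le_q
  refine ⟨K₀, hK, ?_⟩
  intro V Φ ι κ τ _ _ _ _ Q F ψ Z C D t J Y hl hG hS hJ W a hW ha had
  have h2 := h (Φ → Bool) Φ κ (LH.avSys F) (D.shift 2) t (hG.shift 2) C.S hS (Kx C D J Y) W a
    (hl.loc hG hS hJ hW) ha had
  exact h2

/-- UPPER bound. -/
theorem up_one (cM cY : ℝ → ℝ) (t₀ T A₀ : ℝ) (nS nY : ℕ) (h0 : 0 < t₀) (h1 : t₀ ≤ 1)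
    (hT : 1 ≤ T) :
    ∃ K₀ : ℝ, 0 < K₀ ∧ ∀ {V Φ ι κ τ : Type} [DecidableEq V] [DecidableEq Φ] [DecidableEq ι]
      [DecidableEq κ] {Q : QC V Φ} {F : Finset Φ} {ψ : V × V → ℝ} {Z : Finset (V × V)}
      (C : Cells Q F ψ Z ι κ) (D : ChainData (LH.avSys F) κ) (t : κ → ℝ) (J : Finset τ)
      (Y : τ → (Φ → Bool) → ℕ), Link C D t J Y cY → D.Good t cM t₀ T A₀ → C.S.card ≤ nS →
      J.card ≤ nY → ∀ W : (Φ → Bool) → ℝ,
      (∀ ω, |W ω| ≤ (∏ v ∈ C.S, C.t v ^ C.N v ω) * (2 / Real.sqrt 3) ^ C.K ω) →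
      av F (fun ω => |W ω|) ≤ K₀ * ∏ v ∈ C.S, D.F v (t v) 2 := by
  obtain ⟨K₀, hK, h⟩ := UL.up_one cM t₀ T A₀ nS (2 / Real.sqrt 3) (cK cM cY nS nY) h0 h1 hT one_le_q
  refine ⟨K₀, hK, ?_⟩
  intro V Φ ι κ τ _ _ _ _ Q F ψ Z C D t J Y hl hG hS hJ W hW
  exact h (Φ → Bool) Φ κ (LH.avSys F) (D.shift 2) t (hG.shift 2) C.S hS (Kx C D J Y) W
    (hl.loc hG hS hJ hW)

/-- UPPER bound with a function. -/
theorem up_mul (cM cY : ℝ → ℝ) (t₀ T A₀ : ℝ) (nS nY : ℕ) (h0 : 0 < t₀) (h1 : t₀ ≤ 1)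
    (hT : 1 ≤ T) :
    ∃ K₀ : ℝ, 0 < K₀ ∧ ∀ {V Φ ι κ τ : Type} [DecidableEq V] [DecidableEq Φ] [DecidableEq ι]
      [DecidableEq κ] {Q : QC V Φ} {F : Finset Φ} {ψ : V × V → ℝ} {Z : Finset (V × V)}
      (C : Cells Q F ψ Z ι κ) (D : ChainData (LH.avSys F) κ) (t : κ → ℝ) (J : Finset τ)
      (Y : τ → (Φ → Bool) → ℕ), Link C D t J Y cY → D.Good t cM t₀ T A₀ → C.S.card ≤ nS →
      J.card ≤ nY → ∀ W h H : (Φ → Bool) → ℝ,
      (∀ ω, |W ω| ≤ (∏ v ∈ C.S, C.t v ^ C.N v ω) * (2 / Real.sqrt 3) ^ C.K ω) →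
      (∀ ω, h ω ≤ H ω) → (∀ ω, 0 ≤ H ω) → (∀ v ∈ C.S, Dep (D.B v 3)ᶜ H) →
      av F (fun ω => |W ω| * h ω) ≤
        K₀ * Real.sqrt (Real.sqrt (av F (fun ω => H ω ^ 4))) * ∏ v ∈ C.S, D.F v (t v) 2 := by
  obtain ⟨K₀, hK, h⟩ := UL.up_mul cM t₀ T A₀ nS (2 / Real.sqrt 3) (cK cM cY nS nY) h0 h1 hT one_le_q
  refine ⟨K₀, hK, ?_⟩
  intro V Φ ι κ τ _ _ _ _ Q F ψ Z C D t J Y hl hG hS hJ W f H hW hf hH had
  exact h (Φ → Bool) Φ κ (LH.avSys F) (D.shift 2) t (hG.shift 2) C.S hS (Kx C D J Y) W f H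
    (hl.loc hG hS hJ hW) hf hH had

end Pool.Agent.SixB.AU
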