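import Pool.Agent.Lib.SixB.S3ChartM
import Pool.Agent.Lib.SixB.S3Cell
import Pool.Agent.Lib.SixB.S3WGeo

/-!
# 6BD step 3: crossings of cells in charts (row R3, form `Cell.Xc`)

`P₀ ⊆ P` planar sets of faces in a chart of the surface `F`.
* `XP P₀ P E τ`: the strands of `P \ P₀` from the boundary sides of `P` which are in `E` to the common sides with
  `P₀`; `Xc_le_XP` (`E`: the sides which are not boundary sides of the surface).
* `Xc_le_NF`: if `P₀` is in the box of radius `ρ` and all sides in `E` are on the boundary of the box of radius `R`.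
* wedges: `wedge_Xc` (`WChart`, cells `Wdg m o v ρ ⊆ Wdg m o v R`), `wedge_sep` (`G_sep`, `B_sep`), `walls_F`,
  `walls_dE`.
* mouths: `mouth_Xc` (crossings `mK` of the annulus and of the outer part of the tube), `mouth_sep` (`G_sep`),
  `core_dE`, `mouth_bS` (boundary sides of the surface in the cell are walls), `mouth_momentX`.
-/

set_option autoImplicit false
set_option linter.unusedSectionVars false

namespace Pool.Agent.SixB.CM

open Pool.Agent.Perc Pool.Agent.PercD Pool.Agent.PercN Pool.Agent.Perc.Q Relation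
open Pool.Agent.SixB Pool.Agent.SixB.Tilt
open Pool.Agent.SixB.Rel (QChart QMap)

noncomputable section

/-! ## Planar crossings of a cell -/

open Classical in
/-- the strands of `P \ P₀` from the sides of `P` in `E` to the common sides with `P₀` -/
def XP (P₀ P : Finset (ℤ × ℤ)) (E : (ℤ × ℤ) × (ℤ × ℤ) → Prop) (τ : Cfg) :
    Finset ((ℤ × ℤ) × (ℤ × ℤ)) :=
  (bS ZQ (P \ P₀)).filter fun x => x ∈ bS ZQ P ∧ E x ∧ mate ZQ (P \ P₀) τ x ∉ bS ZQ P

section planar

variable {P₀ P : Finset (ℤ × ℤ)} {E : (ℤ × ℤ) × (ℤ × ℤ) → Prop} {τ : Cfg} {x : (ℤ × ℤ) × (ℤ × ℤ)}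

theorem mem_XP : x ∈ XP P₀ P E τ ↔ x ∈ bS ZQ (P \ P₀) ∧ x ∈ bS ZQ P ∧ E x ∧
    mate ZQ (P \ P₀) τ x ∉ bS ZQ P := by
  classical
  unfold XP
  rw [Finset.mem_filter]

/-- a boundary side of `P \ P₀` which is not a boundary side of `P` is a side of a face of `P₀` -/
theorem side_in (hx : x ∈ bS ZQ (P \ P₀)) (h : x ∉ bS ZQ P) : ∃ g ∈ P₀, IsSide g (und x) := by
  have hd : x ∈ dE ZQ P := Rel.dE_mono Finset.sdiff_subset (mem_bS.mp hx).1
  have h1 : ¬ Ini ZQ (P : Set (ℤ × ℤ)) x := fun h2 => h (mem_bS.mpr ⟨hd, h2⟩)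
  unfold Ini at h1
  push Not at h1
  obtain ⟨g, hg, l, h2⟩ := h1
  refine ⟨g, ?_, ?_⟩
  · by_contra hg0
    exact (mem_bS.mp hx).2 g (by
      rw [Finset.mem_coe, Finset.mem_sdiff]
      exact ⟨by exact_mod_cast hg, hg0⟩) l h2
  · have h3 : x = (sd ZQ g l).swap := h2
    rw [h3, und_sd_swap]
    exact su_isSide g l

theorem diff_XP : Diff τ ((P \ P₀ : Finset (ℤ × ℤ)) : Set (ℤ × ℤ)) ((XP P₀ P E τ).image und) := by
  classical
  intro c hc c' hc' hcc
  obtain ⟨x, hx, rfl⟩ := Finset.mem_image.mp hc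
  obtain ⟨y, hy, rfl⟩ := Finset.mem_image.mp hc'
  obtain ⟨hx1, hx2, -, hx3⟩ := mem_XP.mp hx
  obtain ⟨hy1, hy2, -, hy3⟩ := mem_XP.mp hy
  rcases PC.MM_cases hx1 hy1 hcc with h4 | h4
  · rw [h4]
  · exact absurd (h4 ▸ hy2) hx3

theorem card_XP : ((XP P₀ P E τ).image und).card = (XP P₀ P E τ).card := by
  classical
  refine Finset.card_image_of_injOn fun x hx y hy hxy => ?_
  exact PC.und_bS_inj (mem_XP.mp (Finset.mem_coe.mp hx)).1 (mem_XP.mp (Finset.mem_coe.mp hy)).1 hxy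

/-- **Crossings of a box cell.** -/
theorem XP_le_NF {v : ℤ × ℤ} {ρ R : ℤ} (hρ : 0 ≤ ρ) (hρR : ρ < R) (h0 : P₀ ⊆ BR v ρ)
    (hE : ∀ x ∈ bS ZQ P, E x → BdR v R (und x)) {G : Set (ℤ × ℤ)}
    (hG : ((P \ P₀ : Finset (ℤ × ℤ)) : Set (ℤ × ℤ)) ⊆ G) :
    (XP P₀ P E τ).card ≤ NF G v ρ R τ := by
  classical
  rw [← card_XP]
  have := card_le_sum_NF (ι := ℕ) (G := G) (r := ρ) (R := R) (diff_XP (τ := τ) (P₀ := P₀) (P := P) (E := E))
    {0} (fun _ => v) hρ hρR (fun _ _ f hf => hG hf.1) (fun c hc => ?_)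
  · simpa using this
  · obtain ⟨x, hx, rfl⟩ := Finset.mem_image.mp hc
    obtain ⟨h1, h2, h3, h4⟩ := mem_XP.mp hx
    obtain ⟨g, hg, hgs⟩ := side_in (mate_mem (ω := τ) h1) h4
    refine ⟨0, Finset.mem_singleton_self _, ⟨_, PC.mate_MM h1 τ, ?_⟩, _, mem_MM_self, fun _ => hE x h2 h3⟩
    exact inE_of_side (by exact_mod_cast h0 hg) hgs

end planar

/-! ## The surface -/

section surface

variable {V Φ : Type} [DecidableEq V] [DecidableEq Φ] {Q : QC V Φ} {F : Finset Φ}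
  {L P₀ P : Finset (ℤ × ℤ)}

theorem image_sdiff (c : PChart Q F L) (hP : P ⊆ L) (h0 : P₀ ⊆ P) :
    P.image c.φF \ P₀.image c.φF = (P \ P₀).image c.φF := by
  have hinj := injOn c
  ext f
  rw [Finset.mem_sdiff, Finset.mem_image, Finset.mem_image, Finset.mem_image]
  constructor
  · rintro ⟨⟨g, hg, rfl⟩, h⟩
    exact ⟨g, Finset.mem_sdiff.mpr ⟨hg, fun hg0 => h ⟨g, hg0, rfl⟩⟩, rfl⟩
  · rintro ⟨g, hg, rfl⟩
    obtain ⟨h1, h2⟩ := Finset.mem_sdiff.mp hg
    refine ⟨⟨g, h1, rfl⟩, ?_⟩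
    rintro ⟨g', hg', he⟩
    have := hinj (by exact_mod_cast hP (h0 hg')) (by exact_mod_cast hP h1) he
    exact h2 (this ▸ hg')

/-- **From the surface to the plane.** -/
theorem Xc_le_XP (c : PChart Q F L) (hP : P ⊆ L) (h0 : P₀ ⊆ P) (ω : Φ → Bool) :
    Cell.Xc Q F (P₀.image c.φF) (P.image c.φF) ω ≤
      (XP P₀ P (fun x => c.side x ∉ bS Q F) (fun f => ω (c.φF f))).card := by
  classical
  unfold Cell.Xc
  refine (Finset.card_le_card ?_).trans (Finset.card_image_le (f := PC.mv c.φV))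
  intro b hb
  obtain ⟨h1, h2, h3, h4⟩ := Cell.mem_Xs.mp hb
  rw [image_sdiff c hP h0] at h1 h4
  rw [PC.bS_map (toQ c (Finset.sdiff_subset.trans hP))] at h1
  obtain ⟨x, hx, rfl⟩ := Finset.mem_image.mp h1
  refine Finset.mem_image.mpr ⟨x, mem_XP.mpr ⟨hx, ?_, h3, fun h5 => h4 ?_⟩, rfl⟩
  · rw [PC.bS_map (toQ c hP)] at h2
    obtain ⟨y, hy, he⟩ := Finset.mem_image.mp h2
    have := PC.mv_inj (toQ c hP) (mem_bS.mp hy).1 (Rel.dE_mono Finset.sdiff_subset (mem_bS.mp hx).1) he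
    rwa [← this]
  · rw [PC.mate_map (toQ c (Finset.sdiff_subset.trans hP)) hx, PC.bS_map (toQ c hP)]
    exact Finset.mem_image_of_mem _ h5

/-- the field `G_sep` of `Cells` -/
theorem sep_of (c : PChart Q F L) (hP : P ⊆ L) (h0 : P₀ ⊆ P)
    (h : ∀ x ∈ bS ZQ P, x ∈ dE ZQ P₀ → c.side x ∈ bS Q F) :
    ∀ b ∈ bS Q (P.image c.φF), b ∈ dE Q (P₀.image c.φF) → b ∈ bS Q F := by
  intro b hb hb0
  rw [PC.bS_map (toQ c hP)] at hb
  obtain ⟨x, hx, rfl⟩ := Finset.mem_image.mp hb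
  rw [PC.dE_map (toQ c (h0.trans hP))] at hb0
  obtain ⟨y, hy, he⟩ := Finset.mem_image.mp hb0
  have := PC.mv_inj (toQ c hP) (Rel.dE_mono h0 hy) (mem_bS.mp hx).1 he
  exact h x hx (this ▸ hy)

/-- **Crossings of a box cell in a chart** (natural and special cells: `P = Wdg m o v R`, `P₀ = Wdg m o v ρ`). -/
theorem Xc_le_NF (c : PChart Q F L) (hP : P ⊆ L) (h0 : P₀ ⊆ P) {v : ℤ × ℤ} {ρ R : ℤ} (hρ : 0 ≤ ρ)
    (hρR : ρ < R) (hB : P₀ ⊆ BR v ρ) (hE : ∀ x ∈ bS ZQ P, c.side x ∉ bS Q F → BdR v R (und x))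
    (ω : Φ → Bool) :
    Cell.Xc Q F (P₀.image c.φF) (P.image c.φF) ω ≤
      NF (P : Set (ℤ × ℤ)) v ρ R (fun f => ω (c.φF f)) :=
  (Xc_le_XP c hP h0 ω).trans (XP_le_NF hρ hρR hB hE (by exact_mod_cast Finset.sdiff_subset))

end surface

/-! ## Mouths -/

section mouth

variable {lf : Bool} {v : ℤ × ℤ} {ρ R h l₀ l : ℕ} {τ : Cfg} {E : (ℤ × ℤ) × (ℤ × ℤ) → Prop}

/-- the exits of the cell of a mouth -/
def MOut (lf : Bool) (v : ℤ × ℤ) (R h l : ℕ) (x : (ℤ × ℤ) × (ℤ × ℤ)) : Prop :=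
  (BdR v R (und x) ∧ ∃ f ∈ Mth lf v R h l, IsSide f (und x) ∧ (if lf then f.1 < v.1 else v.1 ≤ f.1)) ∨
    TEnd lf v h l (und x)

/-- **Crossings of the cell of a mouth.** -/
theorem XP_le_mK (hhρ : h ≤ ρ) (hρ : 0 < ρ) (hρR : ρ < R) (h0 : 0 < l₀) (hl : l₀ < l)
    (hE : ∀ x ∈ bS ZQ (Mth lf v R h l), E x → MOut lf v R h l x) :
    (XP (Mth lf v ρ h l₀) (Mth lf v R h l) E τ).card ≤ mK lf v ρ R h l₀ l τ := by
  classical
  rw [← card_XP]
  set P := Mth lf v R h l with hP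
  set P₀ := Mth lf v ρ h l₀ with hP₀
  set S := (XP P₀ P E τ).image und with hSd
  have hD : Diff τ ((P \ P₀ : Finset (ℤ × ℤ)) : Set (ℤ × ℤ)) S := diff_XP
  set S1 := S.filter fun c => (BdR v R c ∧ ∃ f ∈ Mth lf v R h l, IsSide f c ∧
    (if lf then f.1 < v.1 else v.1 ≤ f.1)) ∧
    ∃ c' ∈ MM τ ((P \ P₀ : Finset (ℤ × ℤ)) : Set (ℤ × ℤ)) c, ∃ g ∈ P₀, IsSide g c' with hS1
  set S2 := S.filter fun c => TEnd lf v h l c ∧
    ∃ c' ∈ MM τ ((P \ P₀ : Finset (ℤ × ℤ)) : Set (ℤ × ℤ)) c, ∃ g ∈ P₀, IsSide g c' with hS2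
  have hsub : S ⊆ S1 ∪ S2 := by
    intro c hc
    rw [Finset.mem_union, hS1, hS2, Finset.mem_filter, Finset.mem_filter]
    obtain ⟨x, hx, rfl⟩ := Finset.mem_image.mp hc
    obtain ⟨h1, h2, h3, h4⟩ := mem_XP.mp hx
    obtain ⟨g, hg, hgs⟩ := side_in (mate_mem (ω := τ) h1) h4
    rcases hE x h2 h3 with h5 | h5
    · exact Or.inl ⟨hc, h5, _, PC.mate_MM h1 τ, g, hg, hgs⟩
    · exact Or.inr ⟨hc, h5, _, PC.mate_MM h1 τ, g, hg, hgs⟩
  refine (Finset.card_le_card hsub).trans ((Finset.card_union_le _ _).trans ?_)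
  unfold mK
  refine Nat.add_le_add ?_ ?_
  · -- the annulus
    have := card_le_sum_NF (ι := ℕ) (G := (Mth lf v R h l : Set (ℤ × ℤ))) (r := (ρ : ℤ)) (R := (R : ℤ))
      (Diff.mono hD (Finset.filter_subset _ _)) {0} (fun _ => v) (by omega) (by exact_mod_cast hρR)
      (fun _ _ f hf => (Finset.mem_sdiff.mp (Finset.mem_coe.mp hf.1)).1) (S := S1) (fun c hc => ?_)
    · simpa using this
    · refine ⟨0, Finset.mem_singleton_self _, ?_⟩
      rw [hS1, Finset.mem_filter] at hc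
      obtain ⟨hc, ⟨hbd, f, hf, hfs, hfx⟩, c', hc', g, hg, hgs⟩ := hc
      refine ⟨⟨c', hc', ?_⟩, c, mem_MM_self, fun _ => hbd⟩
      by_contra hin
      rw [hP₀, mem_Mth] at hg
      have hgs' := hgs
      unfold IsSide at hgs hfs
      rcases hg with ⟨rfl, hg | hg⟩ | ⟨rfl, hg | hg⟩
      · apply hin
        refine inE_of_side (f := g) ?_ hgs'
        rw [mem_BR']
        omega
      · simp only [if_true] at hfx
        have hua : (ua c).1 < v.1 + 1 := by
          rcases hfs with rfl | rfl | rfl | rfl <;> simp only [bo, le', to', ri, ua_mk] <;> omega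
        have hgx : v.1 + ρ < g.1 + 1 := by
          by_contra hcon
          apply hin
          refine inE_of_side (f := g) ?_ hgs'
          rw [mem_BR']
          omega
        have hua2 : v.1 + 1 ≤ (ua c').1 := by
          rcases hgs with rfl | rfl | rfl | rfl <;> simp only [bo, le', to', ri, ua_mk] <;> omega
        obtain ⟨f', hf', h5, -⟩ := line_step mem_MM_self hc' hua hua2
        rw [Finset.mem_coe, Finset.mem_sdiff, hP, hP₀, mem_Mth, mem_Mth] at hf'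
        obtain ⟨h6, h7⟩ := hf'
        apply h7
        simp only [true_and, Bool.true_eq_false, false_and, or_false] at h6 ⊢
        omega
      · apply hin
        refine inE_of_side (f := g) ?_ hgs'
        rw [mem_BR']
        omega
      · simp only [Bool.false_eq_true, if_false] at hfx
        have hua : v.1 ≤ (ua c).1 := by
          rcases hfs with rfl | rfl | rfl | rfl <;> simp only [bo, le', to', ri, ua_mk] <;> omega
        have hgx : g.1 < v.1 - ρ := by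
          by_contra hcon
          apply hin
          refine inE_of_side (f := g) ?_ hgs'
          rw [mem_BR']
          omega
        have hua2 : (ua c').1 < v.1 := by
          rcases hgs with rfl | rfl | rfl | rfl <;> simp only [bo, le', to', ri, ua_mk] <;> omega
        obtain ⟨f', hf', h5, -⟩ := line_step hc' mem_MM_self hua2 hua
        rw [Finset.mem_coe, Finset.mem_sdiff, hP, hP₀, mem_Mth, mem_Mth] at hf'
        obtain ⟨h6, h7⟩ := hf'
        apply h7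
        simp only [true_and, Bool.false_eq_true, false_and, false_or] at h6 ⊢
        omega
  · -- the tube
    refine card_le_LT (F := ((P \ P₀ : Finset (ℤ × ℤ)) : Set (ℤ × ℤ))) ?_
      (Diff.mono hD (Finset.filter_subset _ _)) ?_ ?_
    · unfold X0 X1
      cases lf <;> simp only [Bool.false_eq_true, if_true, if_false] <;> omega
    · intro f hf h1 h2
      rw [Finset.mem_coe, Finset.mem_sdiff, hP, mem_Mth] at hf
      have hf := hf.1
      unfold X0 at h1
      unfold X1 at h2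
      cases lf <;> simp only [Bool.false_eq_true, Bool.true_eq_false, if_true, if_false, true_and,
        false_and, or_false, false_or] at h1 h2 hf <;> omega
    · intro c hc
      rw [Finset.mem_filter] at hc
      obtain ⟨hc, ⟨y, hy1, hy2, rfl⟩, c', hc', g, hg, hgs⟩ := hc
      rw [hP₀, mem_Mth] at hg
      unfold IsSide at hgs
      unfold CrossH X0 X1
      rcases hg with ⟨rfl, hg⟩ | ⟨rfl, hg⟩
      · simp only [if_true] at hc' ⊢
        refine ⟨⟨_, hc', ?_⟩, _, mem_MM_self, ?_⟩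
        · rcases hgs with rfl | rfl | rfl | rfl <;> simp only [bo, le', to', ri, ub_true, ub_false] <;>
            omega
        · rw [ua_mk]
      · simp only [Bool.false_eq_true, if_false] at hc' ⊢
        refine ⟨⟨_, mem_MM_self, ?_⟩, _, hc', ?_⟩
        · rw [ub_true]
        · rcases hgs with rfl | rfl | rfl | rfl <;> simp only [bo, le', to', ri, ua_mk] <;> omega

end mouth

/-! ## Mouths on the surface -/

section surface

variable {V Φ : Type} [DecidableEq V] [DecidableEq Φ] {Q : QC V Φ} {F : Finset Φ}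

/-- a side which is a boundary side of a planar part of the chart and of the surface is a boundary side of the
whole planar chart -/
theorem bS_up {L P : Finset (ℤ × ℤ)} (c : PChart Q F L) (hP : P ⊆ L) {x : (ℤ × ℤ) × (ℤ × ℤ)}
    (hx : x ∈ bS ZQ P) (hF : c.side x ∈ bS Q F) : x ∈ bS ZQ L := by
  refine mem_bS.mpr ⟨Rel.dE_mono hP (mem_bS.mp hx).1, ?_⟩
  intro g hg k he
  have hg' : g ∈ L := by exact_mod_cast hg
  have he' : x = (sd ZQ g k).swap := he
  refine (mem_bS.mp hF).2 (c.φF g) (by exact_mod_cast c.sub g hg') k ?_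
  rw [he']
  show (c.φV (sd ZQ g k).2, c.φV (sd ZQ g k).1) = (sd Q (c.φF g) k).swap
  unfold sd
  rw [c.cor g hg' k, c.cor g hg' (k + 1)]
  rfl

/-- the walls of a smaller mouth which are walls of a bigger one -/
theorem Wl.anti {lf : Bool} {v : ℤ × ℤ} {r h l r' l' : ℕ} {f : ℤ × ℤ} {k : ZMod 4} (hh : 0 < h)
    (hr : h ≤ r) (H : Wl lf v r' h l' f k) (hf : f ∈ Mth lf v r h l) : Wl lf v r h l f k := by
  rw [mem_Mth] at hf
  unfold Wl at H ⊢
  rcases H with ⟨rfl, H⟩ | ⟨rfl, H⟩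
  · simp only [true_and, Bool.true_eq_false, false_and, or_false] at hf ⊢
    rcases H with ⟨rfl, h1, h2⟩ | ⟨rfl, h1, h2⟩ | ⟨rfl, h1, h2⟩
    · exact Or.inl ⟨rfl, h1, by omega⟩
    · exact Or.inr (Or.inl ⟨rfl, h1, by omega⟩)
    · exact Or.inr (Or.inr ⟨rfl, h1, by omega⟩)
  · simp only [true_and, Bool.false_eq_true, false_and, false_or] at hf ⊢
    rcases H with ⟨rfl, h1, h2⟩ | ⟨rfl, h1, h2⟩ | ⟨rfl, h1, h2⟩
    · exact Or.inl ⟨rfl, h1, by omega⟩
    · exact Or.inr (Or.inl ⟨rfl, h1, by omega⟩)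
    · exact Or.inr (Or.inr ⟨rfl, h1, by omega⟩)

variable {lf : Bool} {v : ℤ × ℤ} {r ρ R h l₀ l l' : ℕ}

/-- **The boundary sides of the surface in the cell of a mouth are wall sides.** -/
theorem mouth_bS (c : MChart Q F lf v r h l') (hh : 0 < h) (hR : h ≤ R) (hr : R < r) (hl : l < l')
    {b : V × V} (hb : b ∈ bS Q ((Mth lf v R h l).image c.φF)) (hF : b ∈ bS Q F) :
    b ∈ core c R l := by
  have hsub : Mth lf v R h l ⊆ Mth lf v r h l' := Mth_mono hr.le hl.le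
  rw [PC.bS_map (toQ c.toPChart hsub)] at hb
  obtain ⟨x, hx, rfl⟩ := Finset.mem_image.mp hb
  have h1 := bS_up c.toPChart hsub hx hF
  obtain ⟨f, hf, k, rfl⟩ := bS_sd hx
  have hw : ∃ i, sd ZQ f k ∈ mthWall lf v r h l' i := by
    rcases bS_Mth (hR.trans hr.le) (by omega) h1 with h2 | ⟨h2, f', hf', hfs', hfx'⟩ | ⟨y, -, -, h2⟩
    · exact h2
    · exfalso
      rw [und_sd] at h2 hfs'
      have hside := su_isSide f k
      rw [mem_Mth] at hf hf'
      unfold BdR BdE at h2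
      unfold IsSide at hside hfs'
      rcases hf with ⟨rfl, hf⟩ | ⟨rfl, hf⟩
      · simp only [if_true, true_and, Bool.true_eq_false, false_and, or_false] at hfx' hf'
        rcases hside with h3 | h3 | h3 | h3 <;> rw [h3] at h2 hfs' <;>
          simp only [bo, le', to', ri, Bool.true_eq_false, Bool.false_eq_true, Prod.mk.injEq,
            false_and, true_and, false_or, or_false, and_false, and_true] at h2 hfs' <;> omega
      · simp only [Bool.false_eq_true, if_false, false_and, true_and, false_or] at hfx' hf'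
        rcases hside with h3 | h3 | h3 | h3 <;> rw [h3] at h2 hfs' <;>
          simp only [bo, le', to', ri, Bool.true_eq_false, Bool.false_eq_true, Prod.mk.injEq,
            false_and, true_and, false_or, or_false, and_false, and_true] at h2 hfs' <;> omega
    · exfalso
      rw [und_sd] at h2
      have hside := su_isSide f k
      rw [mem_Mth] at hf
      unfold IsSide at hside
      rcases hf with ⟨rfl, hf⟩ | ⟨rfl, hf⟩ <;> rcases hside with h3 | h3 | h3 | h3 <;>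
        rw [h3] at h2 <;> simp only [bo, le', to', ri, if_true, if_false, Bool.false_eq_true,
          Prod.mk.injEq, Bool.true_eq_false, and_false, and_true] at h2 <;> omega
  obtain ⟨g, j, he, H⟩ := mem_mthWall.mp hw
  obtain ⟨rfl, rfl⟩ := sd_inj he
  obtain ⟨i, hi⟩ := mem_mthWall.mpr ⟨f, k, rfl, H.anti hh hR hf⟩
  exact mem_core.mpr ⟨i, _, hi, rfl⟩

/-- `G_sep` for mouths -/
theorem mouth_sep (c : MChart Q F lf v r h l') (hh : 0 < h) (hhρ : h ≤ ρ) (hρR : ρ < R) (h0 : l₀ < l)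
    (hr : R ≤ r) (hl : l ≤ l') :
    ∀ b ∈ bS Q ((Mth lf v R h l).image c.φF), b ∈ dE Q ((Mth lf v ρ h l₀).image c.φF) →
      b ∈ bS Q F := by
  refine sep_of c.toPChart (Mth_mono hr hl) (Mth_mono hρR.le h0.le) ?_
  intro x hx hx0
  rcases bS_Mth (hhρ.trans hρR.le) (by omega) hx with h2 | ⟨h2, f, hf, hfs, hfx⟩ | ⟨y, -, -, h2⟩
  · exact wall_F c hr hl h2
  · exfalso
    obtain ⟨g, hg, hgs⟩ := und_side hx0
    rw [mem_Mth] at hg hf
    unfold BdR BdE at h2
    unfold IsSide at hgs hfs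
    rcases hg with ⟨rfl, hg⟩ | ⟨rfl, hg⟩
    · simp only [if_true, true_and, Bool.true_eq_false, false_and, or_false] at hfx hf
      rcases hgs with h3 | h3 | h3 | h3 <;> rw [h3] at h2 hfs <;>
        simp only [bo, le', to', ri, Bool.true_eq_false, Bool.false_eq_true, Prod.mk.injEq,
          false_and, true_and, false_or, or_false, and_false, and_true] at h2 hfs <;> omega
    · simp only [Bool.false_eq_true, if_false, false_and, true_and, false_or] at hfx hf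
      rcases hgs with h3 | h3 | h3 | h3 <;> rw [h3] at h2 hfs <;>
        simp only [bo, le', to', ri, Bool.true_eq_false, Bool.false_eq_true, Prod.mk.injEq,
          false_and, true_and, false_or, or_false, and_false, and_true] at h2 hfs <;> omega
  · exfalso
    obtain ⟨g, hg, hgs⟩ := und_side hx0
    rw [mem_Mth] at hg
    unfold IsSide at hgs
    rcases hg with ⟨rfl, hg⟩ | ⟨rfl, hg⟩ <;> rcases hgs with h3 | h3 | h3 | h3 <;>
      rw [h3] at h2 <;> simp only [bo, le', to', ri, if_true, if_false, Bool.false_eq_true,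
        Prod.mk.injEq, Bool.true_eq_false, and_false, and_true] at h2 <;> omega

/-- the sides of the core are sides of its faces -/
theorem core_dE (c : MChart Q F lf v r h l') (hh : 0 < h) (hr : ρ ≤ r) (hl : l₀ ≤ l') :
    core c ρ l₀ ⊆ dE Q ((Mth lf v ρ h l₀).image c.φF) := fun a ha =>
  (mem_bS.mp (core_G c hh le_rfl le_rfl hr hl ha)).1

/-- **Row R3, part M, form `Xc`.** -/
theorem Xc_le_mK (c : MChart Q F lf v r h l') (hhρ : h ≤ ρ) (hρ : 0 < ρ) (hρR : ρ < R)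
    (h00 : 0 < l₀) (h0 : l₀ < l) (hr : R ≤ r) (hl : l ≤ l') (ω : Φ → Bool) :
    Cell.Xc Q F ((Mth lf v ρ h l₀).image c.φF) ((Mth lf v R h l).image c.φF) ω ≤
      mK lf v ρ R h l₀ l (fun f => ω (c.φF f)) := by
  refine (Xc_le_XP c.toPChart (Mth_mono hr hl) (Mth_mono hρR.le h0.le) ω).trans
    (XP_le_mK hhρ hρ hρR h00 h0 fun x hx hxF => ?_)
  rcases bS_Mth (hhρ.trans hρR.le) (by omega) hx with h1 | h1 | h1
  · exact absurd (wall_F c hr hl h1) hxF
  · exact Or.inl h1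
  · exact Or.inr h1

/-- the crossings of the cell of a mouth of an atlas -/
theorem mouth_Xc (c : MChart Q F lf v (2 * r + 1) h (l + 1)) (hh : 0 < h) (hr : 2 * (h + 1) ≤ r)
    (hl : 8 * h ≤ l) (ω : Φ → Bool) :
    Cell.Xc Q F ((Mth lf v (r + h + 1) h (l / 2 + 1)).image c.φF) ((Mth lf v (2 * r) h l).image c.φF) ω ≤
      mK lf v (r + h + 1) (2 * r) h (l / 2 + 1) l (fun f => ω (c.φF f)) :=
  Xc_le_mK c (by omega) (by omega) (by omega) (by omega) (by omega) (by omega) (by omega) ω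

end surface

/-- **All exponential moments**, in the final radii of an atlas (core `r + h + 1`, `l / 2 + 1`). -/
theorem mK_momentX {lam : ℝ} (hlam : 1 ≤ lam) : ∃ C : ℝ, 0 < C ∧ ∀ (lf : Bool) (v : ℤ × ℤ)
    (r h l : ℕ), 0 < h → 2 * (h + 1) ≤ r → 8 * h ≤ l → ∀ W : Finset (ℤ × ℤ), Mth lf v (2 * r) h l ⊆ W →
      av W (fun τ => lam ^ mK lf v (r + h + 1) (2 * r) h (l / 2 + 1) l τ) ≤ C := by
  classical
  have hlam2 : (1 : ℝ) ≤ lam ^ 2 := one_le_pow₀ hlam
  obtain ⟨C1, hC1, h1⟩ := NF_moment 3 hlam2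
  obtain ⟨C2, hC2, h2⟩ := LT_moment 1 hlam2
  refine ⟨C1 + C2, by positivity, fun lf v r h l hh hr hl W hW => ?_⟩
  set L := Mth lf v (2 * r) h l with hL
  set W' := W ∪ BR v ((2 * r : ℕ) : ℤ) with hW'
  have hd : Dep (L : Set (ℤ × ℤ)) (fun τ => lam ^ mK lf v (r + h + 1) (2 * r) h (l / 2 + 1) l τ) := by
    intro ω ω' hω
    simp only [dep_mK ω ω' hω]
  rw [av_dep hd hW, ← av_dep hd (show L ⊆ W' from hW.trans Finset.subset_union_left)]
  have e1 := h1 (L : Set (ℤ × ℤ)) v ((r + h + 1 : ℕ) : ℤ) ((2 * r : ℕ) : ℤ) W' (by push_cast; omega)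
    (by push_cast; omega) (by push_cast; omega) Finset.subset_union_right
  have hX : X0 lf v (l / 2 + 1) l < X1 lf v (l / 2 + 1) l ∧
      (v.2 + h) - (v.2 - h) ≤ (1 : ℕ) * (X1 lf v (l / 2 + 1) l - X0 lf v (l / 2 + 1) l) := by
    unfold X0 X1
    cases lf <;> simp only [Bool.false_eq_true, if_true, if_false] <;> push_cast <;> omega
  have e2 := h2 (X0 lf v (l / 2 + 1) l) (X1 lf v (l / 2 + 1) l) (v.2 - h) (v.2 + h) W' hX.1 hX.2
    ((RF_sub (R := 2 * r)).trans (hW.trans Finset.subset_union_left))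
  have e3 : av W' (fun τ => lam ^ mK lf v (r + h + 1) (2 * r) h (l / 2 + 1) l τ) ≤
      av W' (fun τ => (lam ^ 2) ^ NF (L : Set (ℤ × ℤ)) v ((r + h + 1 : ℕ) : ℤ) ((2 * r : ℕ) : ℤ) τ +
        (lam ^ 2) ^ (LT τ (X0 lf v (l / 2 + 1) l) (X1 lf v (l / 2 + 1) l) (v.2 - h) (v.2 + h)).card) := by
    refine av_mono fun T _ => ?_
    unfold mK
    set a := NF (L : Set (ℤ × ℤ)) v ((r + h + 1 : ℕ) : ℤ) ((2 * r : ℕ) : ℤ) (ind T)
    set b := (LT (ind T) (X0 lf v (l / 2 + 1) l) (X1 lf v (l / 2 + 1) l) (v.2 - h) (v.2 + h)).card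
    rw [pow_add, ← pow_mul, ← pow_mul, mul_comm 2 a, mul_comm 2 b, pow_mul, pow_mul]
    have ha : (0 : ℝ) ≤ lam ^ a := by positivity
    have hb : (0 : ℝ) ≤ lam ^ b := by positivity
    nlinarith [sq_nonneg (lam ^ a - lam ^ b)]
  refine e3.trans ?_
  rw [av_add]
  exact add_le_add e1 e2

/-- **Moments of the mouth counts of an atlas.** -/
theorem mouth_momentX {lam : ℝ} (hlam : 1 ≤ lam) : ∃ C : ℝ, 0 < C ∧
    ∀ {V Φ : Type} [DecidableEq V] [DecidableEq Φ] (Q : QC V Φ) (F : Finset Φ) (lf : Bool) (v : ℤ × ℤ)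
      (r h l : ℕ) (c : MChart Q F lf v (2 * r + 1) h (l + 1)), 0 < h → 2 * (h + 1) ≤ r → 8 * h ≤ l →
      av F (fun ω => lam ^ mK lf v (r + h + 1) (2 * r) h (l / 2 + 1) l (fun f => ω (c.φF f))) ≤ C := by
  obtain ⟨C, hC, H⟩ := mK_momentX hlam
  refine ⟨C, hC, ?_⟩
  intro V Φ _ _ Q F lf v r h l c hh hr hl
  have hd : Dep (Mth lf v (2 * r) h l : Set (ℤ × ℤ))
      (fun τ => lam ^ mK lf v (r + h + 1) (2 * r) h (l / 2 + 1) l τ) := by
    intro ω ω' hω
    simp only [dep_mK ω ω' hω]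
  rw [av_chart c.toPChart (Mth_mono (by omega) (by omega)) hd]
  exact H lf v r h l hh hr hl _ (Finset.Subset.refl _)

/-! ## Wedges -/

section wedge

theorem bdR_of_ob {v : ℤ × ℤ} {R : ℕ} {f : ℤ × ℤ} {k : ZMod 4} (hf : f ∈ Bx v R)
    (h : WG.Ob v R (sd ZQ f k)) : BdR v R (su f k) := by
  rw [mem_Bx] at hf
  unfold WG.Ob Bk.OutB at h
  unfold BdR BdE
  rcases k4 k with rfl | rfl | rfl | rfl
  · rw [sd0] at h
    rw [su0]
    simp only [Bool.true_eq_false, Bool.false_eq_true, false_and, true_and, false_or, or_false] at h ⊢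
    omega
  · rw [sd1] at h
    rw [su1]
    simp only [Bool.true_eq_false, Bool.false_eq_true, false_and, true_and, false_or, or_false] at h ⊢
    omega
  · rw [sd2] at h
    rw [su2]
    simp only [Bool.true_eq_false, Bool.false_eq_true, false_and, true_and, false_or, or_false] at h ⊢
    omega
  · rw [sd3] at h
    rw [su3]
    simp only [Bool.true_eq_false, Bool.false_eq_true, false_and, true_and, false_or, or_false] at h ⊢
    omega

theorem Wdg_BR {m : ℕ} {o : ZMod 4} {v : ℤ × ℤ} {ρ : ℕ} : Wdg m o v ρ ⊆ BR v ρ := by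
  intro f hf
  have h := (WG.mem_Wdg.mp hf).1
  rw [mem_Bx] at h
  rw [mem_BR]
  omega

/-- a side of a face of the smaller box is not on the boundary of the bigger box -/
theorem not_ob {v : ℤ × ℤ} {ρ R : ℕ} (h : ρ < R) {m : ℕ} {o : ZMod 4} {x : (ℤ × ℤ) × (ℤ × ℤ)}
    (hx : x ∈ dE ZQ (Wdg m o v ρ)) : ¬ WG.Ob v R x := by
  rintro ⟨h1, -⟩
  obtain ⟨f, hf, k, hk⟩ := mem_dE.mp hx
  have hfB := (WG.mem_Wdg.mp hf).1
  have hc : Bk.InB v ρ x.1 := by
    rcases hk with rfl | rfl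
    · exact WG.cor_Bx hfB k
    · exact WG.cor_Bx hfB (k + 1)
  unfold Bk.InB at hc
  unfold Bk.OutB at h1
  omega

variable {V Φ : Type} [DecidableEq V] [DecidableEq Φ] {Q : QC V Φ} {F : Finset Φ} {m : ℕ} {o : ZMod 4}
  {v : ℤ × ℤ} {r ρ R : ℕ}

/-- wall sides of a wedge chart (any radius up to that of the chart) -/
theorem walls_F (c : WChart Q F m o v r) (hρ : ρ ≤ r) :
    (wIn (o + m) v ρ ∪ wOut o v ρ).image c.side ⊆ bS Q F := by
  intro b hb
  obtain ⟨x, hx, rfl⟩ := Finset.mem_image.mp hb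
  rcases Finset.mem_union.mp hx with h | h
  · exact c.bIn x (WG.wIn_mono hρ h)
  · exact c.bOut x (WG.wOut_mono hρ h)

/-- **Crossings of a wedge cell.** Natural cells `r, 2 r`, special cells `2 r, 4 r`. -/
theorem wedge_Xc (c : WChart Q F m o v r) (hm : 1 ≤ m ∧ m ≤ 3) (hρR : ρ < R) (hR : R ≤ r)
    (ω : Φ → Bool) :
    Cell.Xc Q F ((Wdg m o v ρ).image c.φF) ((Wdg m o v R).image c.φF) ω ≤
      NF (Wdg m o v R : Set (ℤ × ℤ)) v ρ R (fun f => ω (c.φF f)) := by
  refine Xc_le_NF c.toPChart (WG.Wdg_mono hR) (WG.Wdg_mono hρR.le) (by omega) (by exact_mod_cast hρR)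
    Wdg_BR ?_ ω
  intro x hx hxF
  obtain ⟨f, hf, k, rfl⟩ := bS_sd hx
  rw [und_sd]
  rcases WG.bS_Wdg hm hx with h | h | h
  · exact absurd (c.bIn _ (WG.wIn_mono hR h)) hxF
  · exact absurd (c.bOut _ (WG.wOut_mono hR h)) hxF
  · exact bdR_of_ob (WG.mem_Wdg.mp hf).1 h

/-- `G_sep`, `B_sep` for wedge cells -/
theorem wedge_sep (c : WChart Q F m o v r) (hm : 1 ≤ m ∧ m ≤ 3) (hρR : ρ < R) (hR : R ≤ r) :
    ∀ b ∈ bS Q ((Wdg m o v R).image c.φF), b ∈ dE Q ((Wdg m o v ρ).image c.φF) → b ∈ bS Q F := by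
  refine sep_of c.toPChart (WG.Wdg_mono hR) (WG.Wdg_mono hρR.le) ?_
  intro x hx hx0
  rcases WG.bS_Wdg hm hx with h | h | h
  · exact c.bIn _ (WG.wIn_mono hR h)
  · exact c.bOut _ (WG.wOut_mono hR h)
  · exact absurd h (not_ob hρR hx0)

end wedge

end

end Pool.Agent.SixB.CM
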