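import Pool.Agent.Lib.SixB.S3AtlUpA
import Pool.Agent.Lib.SixB.S3ChartX
import Pool.Agent.Lib.SixB.S3KindC

/-!
# 6BD, step 3, row R1c, second part: the link between the cells and the chain data of an atlas

`Atlas.Y A k ω`, `k : (A.ι ⊕ A.μ) ⊕ A.κ`: the crossings of the natural cells, of the mouth cells and of the special
cells; `Atlas.Y_dep`: they do not depend on the faces of the special boxes of radius `r / 2`; `Atlas.Y_mom`: all
exponential moments, one function `cY` for all atlases. `IsCells A C`: `C` is the record of cells of the atlas;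
`Atlas.link`: `AU.Link C A.chain ..`.
-/

set_option autoImplicit false
set_option linter.unusedSectionVars false

namespace Pool.Agent.SixB

open Finset Pool.Agent.Perc.Q Pool.Agent.Perc Pool.Agent.PercD Pool.Agent.PercN

noncomputable section

variable {V Φ : Type} [DecidableEq V] [DecidableEq Φ] {Q : QC V Φ} {F : Finset Φ}
  {ψ : V × V → ℝ} {Z : Finset (V × V)} {r nS nN : ℕ} {t₀ : ℝ}

/-- The crossings of the cells of an atlas. -/
def Atlas.Y (A : Atlas Q F ψ Z r nS nN t₀) : (A.ι ⊕ A.μ) ⊕ A.κ → (Φ → Bool) → ℕ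
  | .inl (.inl i), ω => NF (Wdg (A.m' i) (A.o' i) (A.v' i) (2 * r) : Set (ℤ × ℤ)) (A.v' i)
      ((r : ℕ) : ℤ) ((2 * r : ℕ) : ℤ) (fun f => ω ((A.nch i).φF f))
  | .inl (.inr i), ω => CM.mK (A.lf i) (A.w i) (r + A.h i + 1) (2 * r) (A.h i) (A.l i / 2 + 1) (A.l i)
      (fun f => ω ((A.mch i).φF f))
  | .inr i, ω => NF (Wdg (A.m i) (A.o i) (A.v i) (4 * r) : Set (ℤ × ℤ)) (A.v i)
      ((2 * r : ℕ) : ℤ) ((4 * r : ℕ) : ℤ) (fun f => ω ((A.ch i).φF f))

/-- a box of radius `r / 2` is contained in the box of radius `r` -/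
theorem Atlas.B3_sub (A : Atlas Q F ψ Z r nS nN t₀) (i : A.κ) {f : Φ} (hf : f ∈ A.chain.B i 3) :
    f ∈ (A.ch i).box r := by
  have h : A.chain.B i 3 ⊆ A.chain.B i 2 := A.chain.hB i 2
  have h1 := h hf
  rw [A.chain_B2] at h1
  exact mem_coe.1 h1

/-- the faces of a box number `3` are images of faces of the box of radius `r` in the plane -/
theorem Atlas.B3_an (A : Atlas Q F ψ Z r nS nN t₀) (i : A.κ) {f : ℤ × ℤ}
    (hf : f ∈ Wdg (A.m i) (A.o i) (A.v i) (4 * r))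
    (h2 : f ∈ (An (A.v i) ((2 * r : ℕ) : ℤ) ((4 * r : ℕ) : ℤ) : Set (ℤ × ℤ))) :
    (A.ch i).φF f ∉ A.chain.B i 3 := by
  intro h3
  have h4 := A.B3_sub i h3
  unfold WChart.box at h4
  obtain ⟨g, hg, hgf⟩ := mem_image.1 h4
  have h5 : (g : ℤ × ℤ) = f := by
    refine Pull.inj_F (A.ch i).toPChart ?_ ?_ hgf
    · exact mem_coe.2 (Kd.Wdg_mono (by omega) hg)
    · exact mem_coe.2 (Kd.Wdg_mono (by omega) hf)
  rw [h5] at hg
  have h6 := CM.Wdg_BR hg
  rw [mem_BR] at h6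
  rw [mem_coe, mem_An, mem_BR, mem_BR] at h2
  push_cast at h2
  omega

theorem Atlas.Y_dep (A : Atlas Q F ψ Z r nS nN t₀) (k : (A.ι ⊕ A.μ) ⊕ A.κ) (j : A.κ) :
    Dep (A.chain.B j 3)ᶜ (A.Y k) := by
  intro ω ω' h
  rcases k with (i | i) | i
  · refine depN_NF _ _ _ _ _ _ fun f hf => h _ fun hc => ?_
    exact Finset.disjoint_left.1 (A.ndisj i j) (mem_image_of_mem _ (mem_coe.1 hf.1)) (A.B3_sub j hc)
  · refine CM.dep_mK _ _ fun f hf => h _ fun hc => ?_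
    exact Finset.disjoint_left.1 (A.mdisj i j) (mem_image_of_mem _ (mem_coe.1 hf)) (A.B3_sub j hc)
  · refine depN_NF _ _ _ _ _ _ fun f hf => h _ fun hc => ?_
    by_cases hij : i = j
    · subst hij
      exact A.B3_an i (mem_coe.1 hf.1) hf.2 hc
    · have h1 : (A.ch i).φF f ∈ (A.ch i).box (4 * r) := mem_image_of_mem _ (mem_coe.1 hf.1)
      have h2 : (A.ch i).φF f ∈ (A.ch j).box (4 * r) :=
        image_subset_image (Kd.Wdg_mono (by omega)) (A.B3_sub j hc)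
      exact Finset.disjoint_left.1 (A.disj i j hij) h1 h2

/-- **All exponential moments**, one function for all atlases. -/
theorem Atlas.Y_mom : ∃ cY : ℝ → ℝ, ∀ L : ℝ, 1 ≤ L → ∀ {V Φ : Type} [DecidableEq V] [DecidableEq Φ]
    {Q : QC V Φ} {F : Finset Φ} {ψ : V × V → ℝ} {Z : Finset (V × V)} {r nS nN : ℕ} {t₀ : ℝ}
    (A : Atlas Q F ψ Z r nS nN t₀), 0 < r → ∀ k, av F (fun ω => L ^ A.Y k ω) ≤ cY L := by
  classical
  obtain ⟨c1, h1⟩ := Pull.nf_pull 1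
  have H : ∀ L : ℝ, ∃ C : ℝ, 1 ≤ L → ∀ {V Φ : Type} [DecidableEq V] [DecidableEq Φ] (Q : QC V Φ)
      (F : Finset Φ) (lf : Bool) (v : ℤ × ℤ) (r h l : ℕ) (c : MChart Q F lf v (2 * r + 1) h (l + 1)),
      0 < h → 2 * (h + 1) ≤ r → 8 * h ≤ l →
      av F (fun ω => L ^ CM.mK lf v (r + h + 1) (2 * r) h (l / 2 + 1) l (fun f => ω (c.φF f))) ≤ C := by
    intro L
    by_cases hL : 1 ≤ L
    · obtain ⟨C, -, h⟩ := CM.mouth_momentX hL
      exact ⟨C, fun _ => h⟩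
    · exact ⟨0, fun h => absurd h hL⟩
  choose c2 h2 using H
  refine ⟨fun L => max (c1 L) (c2 L), ?_⟩
  intro L hL V Φ _ _ Q F ψ Z r nS nN t₀ A hr k
  rcases k with (i | i) | i
  · refine le_trans ?_ (le_max_left _ _)
    refine h1 L hL (A.nch i).toPChart (Wdg (A.m' i) (A.o' i) (A.v' i) (2 * r) : Set (ℤ × ℤ)) (A.v' i)
      ((r : ℕ) : ℤ) ((2 * r : ℕ) : ℤ) (by omega) (by push_cast; omega) (by push_cast; omega) ?_
    intro f hf _
    exact Kd.Wdg_mono (by omega) (mem_coe.1 hf)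
  · refine le_trans ?_ (le_max_right _ _)
    obtain ⟨e1, e2, e3⟩ := A.h_lt i
    exact h2 L hL Q F (A.lf i) (A.w i) r (A.h i) (A.l i) (A.mch i) e1 e2 e3
  · refine le_trans ?_ (le_max_left _ _)
    refine h1 L hL (A.ch i).toPChart (Wdg (A.m i) (A.o i) (A.v i) (4 * r) : Set (ℤ × ℤ)) (A.v i)
      ((2 * r : ℕ) : ℤ) ((4 * r : ℕ) : ℤ) (by push_cast; omega) (by push_cast; omega)
      (by push_cast; omega) ?_
    intro f hf _
    exact Kd.Wdg_mono (by omega) (mem_coe.1 hf)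

/-- `C` is the record of the cells of the atlas `A`. -/
structure IsCells (A : Atlas Q F ψ Z r nS nN t₀) (C : Cells Q F ψ Z (A.ι ⊕ A.μ) A.κ) : Prop where
  nG₀ : ∀ i, C.G₀ (.inl i) = (A.nch i).box r
  nG : ∀ i, C.G (.inl i) = (A.nch i).box (2 * r)
  mG₀ : ∀ i, C.G₀ (.inr i) = (Mth (A.lf i) (A.w i) (r + A.h i + 1) (A.h i) (A.l i / 2 + 1)).image (A.mch i).φF
  mG : ∀ i, C.G (.inr i) = (Mth (A.lf i) (A.w i) (2 * r) (A.h i) (A.l i)).image (A.mch i).φF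
  B₁ : ∀ i, C.B₁ i = (A.ch i).box (2 * r)
  B : ∀ i, C.B i = (A.ch i).box (4 * r)
  t : ∀ i, C.t i = sT (A.K i)
  N : ∀ i ω, C.N i ω = sN (A.K i) (A.m i) (A.o i) (A.v i) r (fun f => ω ((A.ch i).φF f))
  Nb : ∀ i ω, C.Nb i ω = sN (A.K i) (A.m i) (A.o i) (A.v i) (4 * r) (fun f => ω ((A.ch i).φF f))

/-- **The link of an atlas.** -/
theorem Atlas.link (A : Atlas Q F ψ Z r nS nN t₀) {C : Cells Q F ψ Z (A.ι ⊕ A.μ) A.κ}
    (h : IsCells A C) (hr : 0 < r) {cY : ℝ → ℝ}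
    (hY : ∀ L : ℝ, 1 ≤ L → ∀ k, av F (fun ω => L ^ A.Y k ω) ≤ cY L) :
    AU.Link C A.chain (fun i => sT (A.K i)) (C.I.disjSum C.S) A.Y cY where
  ht := fun i _ => h.t i
  hN := fun i _ ω => by rw [h.N, A.chain_N2]
  hNb := fun i _ ω => by rw [h.Nb, A.chain_N0]
  hX := fun ω => by
    unfold Cells.X
    rw [Finset.sum_disjSum]
    refine Nat.add_le_add (Finset.sum_le_sum fun k _ => ?_) (Finset.sum_le_sum fun i _ => ?_)
    · rcases k with i | i
      · rw [h.nG₀, h.nG]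
        exact CM.wedge_Xc (A.nch i) (A.m'_rng i) (by omega) (by omega) ω
      · rw [h.mG₀, h.mG]
        obtain ⟨e1, e2, e3⟩ := A.h_lt i
        exact CM.mouth_Xc (A.mch i) e1 e2 e3 ω
    · rw [h.B₁, h.B]
      exact CM.wedge_Xc (A.ch i) (A.m_rng i) (by omega) (by omega) ω
  hd := fun k _ j _ => A.Y_dep k j
  hm := fun k _ L hL => hY L hL k

end

end Pool.Agent.SixB
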