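import Pool.Agent.Lib.SixB.S3Wedge

/-!
# 6BD, step 3: the chain data of a surface from wedge charts

`WCharts F κ`: charts of wedge boxes (`Wd.wB`) around the special vertices `v : κ`, injective, with
disjoint images in the finite face set `F` (any type of faces). `WCharts.chain` is the `ChainData` of
`LH.avSys F`, `WCharts.good` its uniform moments, `WCharts.F_eq` the local factors `Wd.Fw`.
-/

set_option autoImplicit false

namespace Pool.Agent.SixB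

open Finset

noncomputable section

variable {Φ : Type} [DecidableEq Φ]

/-- Charts of wedge boxes. -/
structure WCharts (F : Finset Φ) (κ : Type) where
  m : κ → ℕ
  o : κ → ℕ
  r : κ → ℕ
  R : ℕ
  φ : κ → ℤ × ℤ → Φ
  hm0 : ∀ v, 1 ≤ m v
  hm : ∀ v, m v ≤ 3
  hR : ∀ v, r v ≤ R
  inj : ∀ v, Set.InjOn (φ v) (Wd.wB (m v) (o v) (r v) 0 : Set (ℤ × ℤ))
  sub : ∀ v, ∀ f ∈ Wd.wB (m v) (o v) (r v) 0, φ v f ∈ F
  dis : ∀ v v', v ≠ v' → ∀ f ∈ Wd.wB (m v) (o v) (r v) 0, ∀ g ∈ Wd.wB (m v') (o v') (r v') 0,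
    φ v f ≠ φ v' g

namespace WCharts

variable {F : Finset Φ} {κ : Type} (C : WCharts F κ)

/-- The configuration in the chart. -/
def cf (v : κ) (ω : Φ → Bool) : Perc.Cfg := fun f => ω (C.φ v f)

/-- The faces of the box number `j`. -/
def B (v : κ) (j : ℕ) : Finset Φ := (Wd.wB (C.m v) (C.o v) (C.r v) j).image (C.φ v)

/-- The number of the strands over `v` in the box number `j`. -/
def N (v : κ) (j : ℕ) (ω : Φ → Bool) : ℕ := Wd.wN (C.m v) (C.o v) (C.r v) j (C.cf v ω)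

/-- The increment. -/
def M (v : κ) (j : ℕ) (ω : Φ → Bool) : ℕ := Wd.wM (C.m v) (C.o v) (C.r v) j (C.cf v ω)

theorem B_sub (v : κ) (j : ℕ) : C.B v j ⊆ F := by
  intro f hf
  unfold B at hf
  obtain ⟨g, hg, rfl⟩ := mem_image.1 hf
  exact C.sub v g (Wd.wB_anti' _ _ _ (Nat.zero_le j) hg)

theorem B_anti (v : κ) (j : ℕ) : C.B v (j + 1) ⊆ C.B v j :=
  image_subset_image (Wd.wB_anti _ _ _ j)

theorem dep_pull {α : Type} (v : κ) (j : ℕ) {g : Perc.Cfg → α}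
    (hg : Dep (Wd.wB (C.m v) (C.o v) (C.r v) j : Set (ℤ × ℤ)) g) :
    Dep (C.B v j : Set Φ) (fun ω => g (C.cf v ω)) := by
  intro ω ω' h
  refine hg _ _ fun f hf => h _ ?_
  unfold B
  rw [mem_coe]
  exact mem_image_of_mem _ (mem_coe.1 hf)

theorem dep_N (v : κ) (j : ℕ) : Dep (C.B v j : Set Φ) (C.N v j) :=
  C.dep_pull v j (Wd.dep_wN _ _ _ j)

theorem dep_M (v : κ) (j : ℕ) : Dep ((C.B v j : Set Φ) \ (C.B v (j + 2) : Set Φ)) (C.M v j) := by
  intro ω ω' h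
  refine Wd.dep_wM (C.m v) (C.o v) (C.r v) j _ _ ?_
  rintro f ⟨hf, hf'⟩
  refine h _ ⟨?_, fun hc => hf' ?_⟩
  · unfold B
    rw [mem_coe]
    exact mem_image_of_mem _ (mem_coe.1 hf)
  · unfold B at hc
    rw [mem_coe] at hc
    obtain ⟨g, hg, hgf⟩ := mem_image.1 hc
    have h1 := C.inj v (mem_coe.2 (Wd.wB_anti' _ _ _ (Nat.zero_le (j + 2)) hg))
      (mem_coe.2 (Wd.wB_anti' _ _ _ (Nat.zero_le j) (mem_coe.1 hf))) hgf
    rw [← h1]
    exact mem_coe.2 hg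

/-- Averages over the surface of functions of one chart. -/
theorem av_pull (v : κ) (j : ℕ) {g : Perc.Cfg → ℝ}
    (hg : Dep (Wd.wB (C.m v) (C.o v) (C.r v) j : Set (ℤ × ℤ)) g) {W : Finset Φ} (hW : C.B v j ⊆ W) :
    av W (fun ω => g (C.cf v ω)) = av (Wd.wB (C.m v) (C.o v) (C.r v) j) g := by
  rw [av_dep (C.dep_pull v j hg) hW]
  exact av_map (φ := C.φ v) ((C.inj v).mono (by
    intro f hf
    exact mem_coe.2 (Wd.wB_anti' _ _ _ (Nat.zero_le j) (mem_coe.1 hf)))) rfl hg fun ω => rfl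

/-- The chain data of the surface. -/
def chain : ChainData (LH.avSys F) κ where
  B v j := C.B v j
  N := C.N
  M := C.M
  hB v j := by exact_mod_cast C.B_anti v j
  hdis v v' h := by
    rw [Set.disjoint_left]
    rintro x hx hx'
    unfold B at hx hx'
    rw [mem_coe] at hx hx'
    obtain ⟨f, hf, rfl⟩ := mem_image.1 hx
    obtain ⟨g, hg, hgf⟩ := mem_image.1 hx'
    exact C.dis v v' h f hf g hg hgf.symm
  hN v j := C.dep_N v j
  hM v j := C.dep_M v j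
  hN1 v j ω := Wd.wN_anti _ _ _ _ _
  hN2 v j ω := Wd.wN_le (C.hm0 v) (C.hm v) _ _ _
  J := C.R
  hJ v j h ω := Wd.wN_zero (C.hm0 v) (C.hm v) ((C.hR v).trans h) _

theorem F_eq (v : κ) (t : ℝ) (j : ℕ) :
    C.chain.F v t j = Wd.Fw (C.m v) 0 t (C.r v / 2 ^ j) := by
  have h : C.chain.F v t j = av F (fun ω => t ^ Wd.wN (C.m v) (C.o v) (C.r v) j (C.cf v ω)) := rfl
  rw [h, C.av_pull v j (g := fun ω => t ^ Wd.wN (C.m v) (C.o v) (C.r v) j ω) (fun ω ω' hω => by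
    simp only [Wd.dep_wN _ _ _ _ ω ω' hω]) (C.B_sub v j),
    Wd.Fw_eq (C.m v) (C.o v) t (C.r v) j (Finset.Subset.refl _), Wd.Fw_orient (C.hm0 v) (C.hm v)]

end WCharts

/-- One function of the moments serves for all surfaces. -/
theorem exists_cM : ∃ cM : ℝ → ℝ, ∀ (Φ : Type) [DecidableEq Φ] (F : Finset Φ) (κ : Type)
    (C : WCharts F κ) (t : κ → ℝ) (t₀ T A₀ : ℝ), (∀ v, 0 ≤ t v) → (∀ v, t v ≤ T) →
    (∀ v, t₀ ≤ t v ∨ ∀ j, C.chain.F v (t v) (j + 1) ≤ A₀ * C.chain.F v (t v) j) →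
    C.chain.Good t cM t₀ T A₀ := by
  obtain ⟨cM, h⟩ := Wd.wM_moment
  refine ⟨cM, fun Φ _ F κ C t t₀ T A₀ h0 hT hs => ⟨fun L hL v j => ?_, h0, hT, hs⟩⟩
  have h1 : (LH.avSys F).E (fun ω => L ^ C.chain.M v j ω) =
      av F (fun ω => L ^ Wd.wM (C.m v) (C.o v) (C.r v) j (C.cf v ω)) := rfl
  have hd := (Wd.dep_wM (C.m v) (C.o v) (C.r v) j).mono
    (Set.sdiff_subset : _ ⊆ (Wd.wB (C.m v) (C.o v) (C.r v) j : Set (ℤ × ℤ)))
  rw [h1, C.av_pull v j (g := fun ω => L ^ Wd.wM (C.m v) (C.o v) (C.r v) j ω) (fun ω ω' hω => by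
    simp only [hd ω ω' hω]) (C.B_sub v j)]
  exact h L hL _ _ _ j (C.hm0 v) (C.hm v) _ (Finset.Subset.refl _)

end

end Pool.Agent.SixB
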