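import Pool.Agent.Lib.SixB.S3WGeo
import Pool.Agent.Lib.SixB.S3Cell
import Pool.Agent.Lib.SixB.S3AtlDefs

/-!
# 6BD step 3, R5: blocking the cells of wedge charts and mouth charts

* `CellBlk Q D F G₀ G ω`: no arm of the first colour in `G \ G₀` from the sides of `G₀` to the common sides of `G`
  and `F \ G`. It depends on the faces of `G \ G₀`, increases in the other colour (`CellBlk.up`), and implies
  `Cell.Xc Q F G₀ G ω = 0` (`CellBlk.Xc`) if `G \ G₀` has a planar chart.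
* `wch_pos`: for the boxes of radii `ρ < R`, `R ≤ 8 (R - ρ)`, of a wedge chart its probability is at least `c₀`.
* `mch_pos`: the same for the cell `Mth R h l` of a mouth chart with the core `Mth ρ h l₀`.
-/

set_option autoImplicit false
set_option linter.unusedSectionVars false
set_option linter.unnecessarySeqFocus false

namespace Pool.Agent.SixB.Bk

open Pool.Agent.Perc.Q Relation
open Pool.Agent.SixB hiding Zs_split

noncomputable section

variable {V Φ : Type} [DecidableEq V] [DecidableEq Φ]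
variable {Q : QC V Φ} {D : Φ → Bool} {F G G₀ : Finset Φ} {ω ω' : Φ → Bool} {a b : V × V}

/-- The cell `G₀ ⊆ G` is blocked. -/
def CellBlk (Q : QC V Φ) (D : Φ → Bool) (F G₀ G : Finset Φ) (ω : Φ → Bool) : Prop :=
  NoArm Q D (G \ G₀) (Ends (dE Q G₀ ∩ dE Q (G \ G₀))) (Ends (bS Q G \ bS Q F)) ω

theorem CellBlk.congr (hω : ∀ f ∈ G \ G₀, ω f = ω' f) :
    CellBlk Q D F G₀ G ω ↔ CellBlk Q D F G₀ G ω' := NoArm.congr hω

theorem CellBlk.up (hω : ∀ f, ω f = (!D f) → ω' f = !D f) (h : CellBlk Q D F G₀ G ω) :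
    CellBlk Q D F G₀ G ω' := NoArm.up hω h

open Classical in
theorem dep_cellBlk : Dep ((G \ G₀ : Finset Φ) : Set Φ)
    (fun ω => if CellBlk Q D F G₀ G ω then (1 : ℝ) else 0) := dep_noArm

/-- **A blocked cell is not crossed.** -/
theorem CellBlk.Xc {c : ℤ} {π : Φ → ℤ × ℤ} {ν : V → ℤ × ℤ} (H : PCh Q D (G \ G₀) c π ν)
    (h : CellBlk Q D F G₀ G ω) : Cell.Xc Q F G₀ G ω = 0 := by
  unfold Cell.Xc
  rw [Finset.card_eq_zero, Finset.eq_empty_iff_forall_notMem]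
  intro b hb
  obtain ⟨h1, h2, h3, h4⟩ := Cell.mem_Xs.mp hb
  have ha := mate_mem (ω := ω) h1
  set a := mate Q (G \ G₀) ω b with hadef
  have haE : a ∈ dE Q (G \ G₀) := (mem_bS.mp ha).1
  have haG : a ∈ dE Q G := Rel.dE_mono Finset.sdiff_subset haE
  -- a face of `G₀` is behind `a`
  have ha0 : a ∈ dE Q G₀ := by
    by_contra hcon
    apply h4
    refine mem_bS.mpr ⟨haG, fun f hf k hk => ?_⟩
    by_cases hf0 : f ∈ G₀
    · exact hcon (mem_dE.mpr ⟨f, hf0, k, Or.inr hk⟩)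
    · exact (mem_bS.mp ha).2 f (Finset.mem_coe.mpr (Finset.mem_sdiff.mpr
        ⟨Finset.mem_coe.mp hf, hf0⟩)) k hk
  have hs : SRel Q (G \ G₀) ω b (lst Q (G \ G₀) ω b) := srel_lst (mem_bS.mp h1).2
  obtain ⟨e1, e2⟩ := connQ_of_srel hs
  have ea : (lst Q (G \ G₀) ω b).1 = a.2 := rfl
  have eb : (lst Q (G \ G₀) ω b).2 = a.1 := rfl
  rw [ea] at e1
  rw [eb] at e2
  have hx : a ∈ dE Q G₀ ∩ dE Q (G \ G₀) := Finset.mem_inter.mpr ⟨ha0, haE⟩
  have hy : b ∈ bS Q G \ bS Q F := Finset.mem_sdiff.mpr ⟨h2, h3⟩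
  rcases H.par_side (mem_bS.mp h1).1 with h5 | h5
  · exact h _ (snd_mem_Ends hx) _ (fst_mem_Ends hy) (H.cc_of_connQ e1 h5).1.symm
  · exact h _ (fst_mem_Ends hx) _ (snd_mem_Ends hy) (H.cc_of_connQ e2 h5).1.symm

/-! ## Cells of planar charts -/

section planar

variable {R R₀ R₁ : Finset (ℤ × ℤ)}

/-- the chart of the ring -/
theorem pch_ring (c : PChart Q F R) (hR : R₁ ⊆ R) (h0 : R₀ ⊆ R₁) {cc : ℤ}
    (hD : ∀ f ∈ R₁, D (c.φF f) = !Perc.parD cc f) :
    PCh Q D (R₁.image c.φF \ R₀.image c.φF) cc c.pi c.nu := by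
  rw [c.image_sdiff hR h0]
  exact c.pch (Finset.sdiff_subset.trans hR) fun f hf => hD f (Finset.sdiff_subset hf)

/-- the inner ends of the ring -/
theorem nu_inn (c : PChart Q F R) (hR : R₁ ⊆ R) (h0 : R₀ ⊆ R₁) {P : ℤ × ℤ → Prop}
    (hP : ∀ f ∈ R₀, ∀ k, P (ZQ.c f k)) {A : Finset (V × V)} :
    ∀ x ∈ Ends (dE Q (R₀.image c.φF) ∩ A), P (c.nu x) := by
  rintro x ⟨a, ha, hx⟩
  obtain ⟨b, hb, rfl⟩ := (c.mem_dE_image (h0.trans hR)).mp (Finset.mem_inter.mp ha).1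
  obtain ⟨h1, h2⟩ := c.nu_side (h0.trans hR) hb
  obtain ⟨f, hf, k, h3⟩ := mem_dE.mp hb
  rcases hx with rfl | rfl
  · rw [h1]
    rcases h3 with rfl | rfl
    · exact hP f hf k
    · exact hP f hf (k + 1)
  · rw [h2]
    rcases h3 with rfl | rfl
    · exact hP f hf (k + 1)
    · exact hP f hf k

/-- the outer ends of the ring -/
theorem nu_out (c : PChart Q F R) (hR : R₁ ⊆ R) {P : (ℤ × ℤ) × (ℤ × ℤ) → Prop}
    (hP : ∀ b ∈ bS ZQ R₁, c.side b ∈ bS Q F ∨ P b) :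
    ∀ y ∈ Ends (bS Q (R₁.image c.φF) \ bS Q F), ∃ b, P b ∧ (c.nu y = b.1 ∨ c.nu y = b.2) := by
  rintro y ⟨a, ha, hy⟩
  obtain ⟨h1, h2⟩ := Finset.mem_sdiff.mp ha
  obtain ⟨b, hb, rfl⟩ := c.bS_image hR h1
  obtain ⟨h3, h4⟩ := c.nu_side hR (mem_bS.mp hb).1
  rcases hP b hb with h5 | h5
  · exact absurd h5 h2
  · refine ⟨b, h5, ?_⟩
    rcases hy with rfl | rfl
    · exact Or.inl h3
    · exact Or.inr h4

end planar

/-! ## Wedges -/

section wedge

variable {m : ℕ} {o : ZMod 4} {v : ℤ × ℤ} {R' : ℕ}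

theorem wbox_sub {ρ R : ℕ} (c : WChart Q F m o v R') (h : ρ ≤ R) : c.box ρ ⊆ c.box R :=
  Finset.image_subset_image (WG.Wdg_mono h)

theorem wbox_F {R : ℕ} (c : WChart Q F m o v R') (h : R ≤ R') : c.box R ⊆ F :=
  c.toPChart.image_sub (WG.Wdg_mono h)

/-- boundary sides of a box of a wedge chart -/
theorem wch_bS (hm : 1 ≤ m ∧ m ≤ 3) (c : WChart Q F m o v R') {R : ℕ} (hR : R ≤ R') :
    ∀ b ∈ bS ZQ (Wdg m o v R), c.side b ∈ bS Q F ∨ WG.Ob v R b := by
  intro b hb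
  rcases WG.bS_Wdg hm hb with h | h | h
  · exact Or.inl (c.bIn b (WG.wIn_mono hR h))
  · exact Or.inl (c.bOut b (WG.wOut_mono hR h))
  · exact Or.inr h

theorem wch_pch (c : WChart Q F m o v R') {cc : ℤ}
    (hD : ∀ f ∈ Wdg m o v R', D (c.φF f) = !Perc.parD cc f) {ρ R : ℕ} (h1 : ρ ≤ R) (h2 : R ≤ R') :
    PCh Q D (c.box R \ c.box ρ) cc c.pi c.nu :=
  pch_ring c.toPChart (WG.Wdg_mono h2) (WG.Wdg_mono h1) fun f hf => hD f (WG.Wdg_mono h2 hf)

/-- **A blocked wedge cell is not crossed.** -/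
theorem wch_Xc (c : WChart Q F m o v R') {cc : ℤ}
    (hD : ∀ f ∈ Wdg m o v R', D (c.φF f) = !Perc.parD cc f) {ρ R : ℕ} (h1 : ρ ≤ R) (h2 : R ≤ R')
    (h : CellBlk Q D F (c.box ρ) (c.box R) ω) : Cell.Xc Q F (c.box ρ) (c.box R) ω = 0 :=
  h.Xc (wch_pch c hD h1 h2)

end wedge

open Classical in
/-- **The probability of a blocked wedge cell.** -/
theorem wch_pos : ∃ c₀ : ℝ, 0 < c₀ ∧ ∀ {V Φ : Type} [DecidableEq V] [DecidableEq Φ]
    {Q : QC V Φ} {F : Finset Φ} {m : ℕ} {o : ZMod 4} {v : ℤ × ℤ} {R' : ℕ}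
    (c : WChart Q F m o v R') (D : Φ → Bool) (cc : ℤ) (ρ R : ℕ) (S : Finset Φ),
    1 ≤ m ∧ m ≤ 3 → ρ < R → R ≤ R' → R ≤ 8 * (R - ρ) →
    (∀ f ∈ Wdg m o v R', D (c.φF f) = !Perc.parD cc f) → c.box R \ c.box ρ ⊆ S →
    c₀ ≤ av S (fun ω => if CellBlk Q D F (c.box ρ) (c.box R) ω then (1 : ℝ) else 0) := by
  obtain ⟨c₀, hc, h⟩ := noArm_posR
  refine ⟨c₀, hc, ?_⟩
  intro V Φ _ _ Q F m o v R' c D cc ρ R S hm h1 h2 h3 hD hS
  refine h Q D _ cc c.pi c.nu v ρ R _ _ S (by positivity) (by exact_mod_cast h1) (by omega)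
    (wch_pch c hD h1.le h2) hS ?_ ?_
  · exact nu_inn c.toPChart (WG.Wdg_mono h2) (WG.Wdg_mono h1.le) (P := InB v ρ)
      fun f hf k => WG.cor_Bx (WG.mem_Wdg.mp hf).1 k
  · intro y hy
    obtain ⟨b, hb, h4⟩ := nu_out c.toPChart (WG.Wdg_mono h2) (P := WG.Ob v R)
      (wch_bS hm c h2) y hy
    rcases h4 with h4 | h4
    · rw [h4]
      exact hb.1
    · rw [h4]
      exact hb.2

/-! ## Mouths -/

section mouth

variable {left : Bool} {v : ℤ × ℤ} {R' h l' : ℕ}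

theorem wOut_shift {e : ZMod 4} {p p' : ℤ × ℤ} {n n' t : ℕ} (hp : p = p' + (t : ℤ) • dz e)
    (hn : n + t ≤ n') : wOut e p n ⊆ wOut e p' n' := by
  intro a ha
  obtain ⟨s, hs, rfl⟩ := Finset.mem_image.mp ha
  rw [Finset.mem_range] at hs
  refine WG.mem_wOut ((s : ℤ) + t) (by positivity) (by omega) ?_
  rw [hp]
  refine Prod.ext ?_ ?_
  · show p' + (t : ℤ) • dz e + (s : ℤ) • dz e = p' + ((s : ℤ) + t) • dz e
    rw [add_smul]
    abel
  · show p' + (t : ℤ) • dz e + ((s : ℤ) + 1) • dz e = p' + ((s : ℤ) + t + 1) • dz e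
    rw [add_smul, add_smul, add_smul, one_smul]
    abel

/-- the walls of a smaller mouth region are walls of the bigger one -/
theorem mthWall_mono {R l : ℕ} (hh : h ≤ R) (hR : R ≤ R') (hl : l ≤ l') (i : Fin 4) :
    mthWall left v R h l i ⊆ mthWall left v R' h l' i := by
  have e1 : ((R' - h : ℕ) : ℤ) = R' - h := by omega
  cases left
  · fin_cases i
    · show wOut 3 (v.1, v.2 + R) (R - h) ⊆ wOut 3 (v.1, v.2 + R') (R' - h)
      refine wOut_shift (t := R' - R) ?_ (by omega)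
      rw [WG.dz3]
      ext <;> simp <;> omega
    · exact WG.wOut_mono hl
    · show wOut 0 (v.1 - l, v.2 - h) l ⊆ wOut 0 (v.1 - l', v.2 - h) l'
      refine wOut_shift (t := l' - l) ?_ (by omega)
      rw [WG.dz0]
      ext <;> simp <;> omega
    · exact WG.wOut_mono (by omega)
  · fin_cases i
    · show wOut 1 (v.1, v.2 - R) (R - h) ⊆ wOut 1 (v.1, v.2 - R') (R' - h)
      refine wOut_shift (t := R' - R) ?_ (by omega)
      rw [WG.dz1]
      ext <;> simp <;> omega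
    · exact WG.wOut_mono hl
    · show wOut 2 (v.1 + l, v.2 + h) l ⊆ wOut 2 (v.1 + l', v.2 + h) l'
      refine wOut_shift (t := l' - l) ?_ (by omega)
      rw [WG.dz2]
      ext <;> simp <;> omega
    · exact WG.wOut_mono (by omega)

/-- boundary sides of the cell of a mouth chart -/
theorem mch_bS (c : MChart Q F left v R' h l') {R l : ℕ} (hh : h ≤ R) (hR : R ≤ R')
    (hl : l ≤ l') : ∀ b ∈ bS ZQ (Mth left v R h l), c.side b ∈ bS Q F ∨
      (WG.Hb left v R b ∨ WG.Te left v h l b) := by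
  intro b hb
  rcases WG.bS_Mth hh hb with ⟨i, h1⟩ | h1
  · exact Or.inl (c.bd i b (mthWall_mono hh hR hl i h1))
  · exact Or.inr h1

theorem mch_pch (c : MChart Q F left v R' h l') {cc : ℤ}
    (hD : ∀ f ∈ Mth left v R' h l', D (c.φF f) = !Perc.parD cc f) {ρ R l₀ l : ℕ} (h1 : ρ ≤ R)
    (h2 : R ≤ R') (h3 : l₀ ≤ l) (h4 : l ≤ l') :
    PCh Q D ((Mth left v R h l).image c.φF \ (Mth left v ρ h l₀).image c.φF) cc c.pi c.nu :=
  pch_ring c.toPChart (WG.Mth_mono h2 h4) (WG.Mth_mono h1 h3)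
    fun f hf => hD f (WG.Mth_mono h2 h4 hf)

theorem mch_Xc (c : MChart Q F left v R' h l') {cc : ℤ}
    (hD : ∀ f ∈ Mth left v R' h l', D (c.φF f) = !Perc.parD cc f) {ρ R l₀ l : ℕ} (h1 : ρ ≤ R)
    (h2 : R ≤ R') (h3 : l₀ ≤ l) (h4 : l ≤ l')
    (hb : CellBlk Q D F ((Mth left v ρ h l₀).image c.φF) ((Mth left v R h l).image c.φF) ω) :
    Cell.Xc Q F ((Mth left v ρ h l₀).image c.φF) ((Mth left v R h l).image c.φF) ω = 0 :=
  hb.Xc (mch_pch c hD h1 h2 h3 h4)

end mouth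

/-- paths do not change between two sets of faces whose bonds are separated by `P` -/
theorem conn_part {τ : Perc.Cfg} {T : Set (ℤ × ℤ)} {P : ℤ × ℤ → Prop} {T' : Set (ℤ × ℤ)}
    (hT : ∀ f ∈ T, (∀ k, P (ZQ.c f k)) ∨ (∀ k, ¬ P (ZQ.c f k)) ∧ f ∈ T') {u w : ℤ × ℤ}
    (h : Perc.Conn τ T u w) : (P u ↔ P w) ∧ (¬ P u → Perc.Conn τ T' u w) := by
  rw [← connZ_iff] at h
  have key : (P u ↔ P w) ∧ (¬ P u → ConnQ ZQ τ T' u w) := by
    induction h with
    | refl => exact ⟨Iff.rfl, fun _ => ReflTransGen.refl⟩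
    | tail _ hb ih =>
      obtain ⟨f, hf, k, h1, rfl, rfl⟩ := hb
      rcases hT f hf with h2 | ⟨h2, h3⟩
      · exact ⟨ih.1.trans (iff_of_true (h2 k) (h2 (k + 2))), fun h4 => absurd (ih.1.mpr (h2 k)) h4⟩
      · exact ⟨ih.1.trans (iff_of_false (h2 k) (h2 (k + 2))), fun h4 =>
          (ih.2 h4).tail ⟨f, h3, k, h1, rfl, rfl⟩⟩
  exact ⟨key.1, fun h => connZ_iff.mp (key.2 h)⟩

/-- the planar blocking event of a mouth: a ring and the outer part of the tube -/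
def BlkM (c : ℤ) (left : Bool) (v : ℤ × ℤ) (ρ R h l₀ l : ℕ) : Set Perc.Cfg :=
  Blk2 c v ρ R ∩ (if left then Perc.BT (c + 1) (v.1 + l₀) (v.1 + l) (v.2 - h) (v.2 + h)
    else Perc.BT (c + 1) (v.1 - l) (v.1 - l₀) (v.2 - h) (v.2 + h))

/-- a window -/
def WinM (left : Bool) (v : ℤ × ℤ) (R h l₀ l : ℕ) : Finset (ℤ × ℤ) :=
  Perc.RFb v R ∪ (if left then Perc.RF (v.1 + l₀) (v.1 + l) (v.2 - h) (v.2 + h)
    else Perc.RF (v.1 - l) (v.1 - l₀) (v.2 - h) (v.2 + h))

theorem depOn_BlkM {c : ℤ} {left : Bool} {v : ℤ × ℤ} {ρ R h l₀ l : ℕ} (h1 : ρ < R) :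
    Perc.DepOn (WinM left v R h l₀ l : Set (ℤ × ℤ)) (BlkM c left v ρ R h l₀ l) := by
  refine Perc.depOn_inter' (Perc.depOn_mono' (depOn_Blk2 (by positivity)
    (by exact_mod_cast h1)) ?_) ?_
  · rw [Finset.coe_subset]
    exact Finset.sdiff_subset.trans Finset.subset_union_left
  · cases left
    · rw [if_neg (by simp)]
      refine Perc.depOn_mono' (Perc.depOn_BT _ _ _ _ _) ?_
      rw [Finset.coe_subset]
      unfold WinM
      rw [if_neg (by simp)]
      exact Finset.subset_union_right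
    · rw [if_pos rfl]
      refine Perc.depOn_mono' (Perc.depOn_BT _ _ _ _ _) ?_
      rw [Finset.coe_subset]
      unfold WinM
      rw [if_pos rfl]
      exact Finset.subset_union_right

theorem pr_BlkM : ∃ c₀ : ℝ, 0 < c₀ ∧ ∀ (c : ℤ) (left : Bool) (v : ℤ × ℤ) (ρ R h l₀ l : ℕ),
    ρ < R → R ≤ 8 * (R - ρ) → 0 < h → l₀ < l → 2 * h ≤ l - l₀ →
    c₀ ≤ Perc.pr (WinM left v R h l₀ l) (BlkM c left v ρ R h l₀ l) := by
  obtain ⟨c₁, hc₁, p₁⟩ := pr_Blk2
  obtain ⟨c₂, hc₂, p₂⟩ := Perc.rswF' 1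
  refine ⟨c₁ * c₂, by positivity, ?_⟩
  intro c left v ρ R h l₀ l h1 h2 h3 h4 h5
  have q1 := p₁ c v ρ R (WinM left v R h l₀ l) (by positivity) (by exact_mod_cast h1) (by omega)
    (Finset.sdiff_subset.trans Finset.subset_union_left)
  have d1 : Perc.DepOn (WinM left v R h l₀ l : Set (ℤ × ℤ)) (Blk2 c v ρ R) := by
    refine Perc.depOn_mono' (depOn_Blk2 (by positivity) (by exact_mod_cast h1)) ?_
    rw [Finset.coe_subset]
    exact Finset.sdiff_subset.trans Finset.subset_union_left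
  cases left
  · have s2 : Perc.RF (v.1 - l) (v.1 - l₀) (v.2 - h) (v.2 + h) ⊆ WinM false v R h l₀ l := by
      unfold WinM
      rw [if_neg (by simp)]
      exact Finset.subset_union_right
    have q2 : c₂ ≤ Perc.pr (WinM false v R h l₀ l)
        (Perc.BT (c + 1) (v.1 - l) (v.1 - l₀) (v.2 - h) (v.2 + h)) := by
      rw [Perc.pr_BT_window s2]
      exact p₂ _ _ _ _ _ (by omega) (by omega) (by push_cast; omega)
    have d2 : Perc.DepOn (WinM false v R h l₀ l : Set (ℤ × ℤ))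
        (Perc.BT (c + 1) (v.1 - l) (v.1 - l₀) (v.2 - h) (v.2 + h)) :=
      Perc.depOn_mono' (Perc.depOn_BT _ _ _ _ _) (Finset.coe_subset.2 s2)
    have q3 := Perc.harris _ d1 d2 (incD_Blk2 c v ρ R) (Perc.incD_BT' _ _ _ _ _)
    unfold BlkM
    rw [if_neg (by simp)]
    exact (mul_le_mul q1 q2 hc₂.le (Perc.pr_nonneg _ _)).trans q3
  · have s2 : Perc.RF (v.1 + l₀) (v.1 + l) (v.2 - h) (v.2 + h) ⊆ WinM true v R h l₀ l := by
      unfold WinM
      rw [if_pos rfl]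
      exact Finset.subset_union_right
    have q2 : c₂ ≤ Perc.pr (WinM true v R h l₀ l)
        (Perc.BT (c + 1) (v.1 + l₀) (v.1 + l) (v.2 - h) (v.2 + h)) := by
      rw [Perc.pr_BT_window s2]
      exact p₂ _ _ _ _ _ (by omega) (by omega) (by push_cast; omega)
    have d2 : Perc.DepOn (WinM true v R h l₀ l : Set (ℤ × ℤ))
        (Perc.BT (c + 1) (v.1 + l₀) (v.1 + l) (v.2 - h) (v.2 + h)) :=
      Perc.depOn_mono' (Perc.depOn_BT _ _ _ _ _) (Finset.coe_subset.2 s2)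
    have q3 := Perc.harris _ d1 d2 (incD_Blk2 c v ρ R) (Perc.incD_BT' _ _ _ _ _)
    unfold BlkM
    rw [if_pos rfl]
    exact (mul_le_mul q1 q2 hc₂.le (Perc.pr_nonneg _ _)).trans q3

/-- the region of the inner ends of a mouth -/
def InM (left : Bool) (v : ℤ × ℤ) (ρ h l₀ : ℕ) (x : ℤ × ℤ) : Prop :=
  if left then (InB v ρ x ∧ x.1 ≤ v.1) ∨ (v.1 < x.1 ∧ x.1 ≤ v.1 + l₀ ∧ v.2 - h ≤ x.2 ∧ x.2 ≤ v.2 + h)
  else (InB v ρ x ∧ v.1 ≤ x.1) ∨ (x.1 < v.1 ∧ v.1 - l₀ ≤ x.1 ∧ v.2 - h ≤ x.2 ∧ x.2 ≤ v.2 + h)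

/-- the region of the outer ends of a mouth -/
def OutM (left : Bool) (v : ℤ × ℤ) (R l : ℕ) (x : ℤ × ℤ) : Prop :=
  if left then (OutB v R x ∧ x.1 ≤ v.1) ∨ x.1 = v.1 + l
  else (OutB v R x ∧ v.1 ≤ x.1) ∨ x.1 = v.1 - l

theorem cor_Mth {left : Bool} {v : ℤ × ℤ} {ρ h l₀ : ℕ} (hh : h ≤ ρ) {f : ℤ × ℤ}
    (hf : f ∈ Mth left v ρ h l₀) (k : ZMod 4) : InM left v ρ h l₀ (ZQ.c f k) := by
  unfold InM InB
  cases left
  · rw [WG.mem_Mth_right] at hf
    rw [if_neg (by simp)]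
    rcases WG.k_cases k with rfl | rfl | rfl | rfl
    · rw [WG.c0]; dsimp only; omega
    · rw [WG.c1]; dsimp only; omega
    · rw [WG.c2]; dsimp only; omega
    · rw [WG.c3]; dsimp only; omega
  · rw [WG.mem_Mth_left] at hf
    rw [if_pos rfl]
    rcases WG.k_cases k with rfl | rfl | rfl | rfl
    · rw [WG.c0]; dsimp only; omega
    · rw [WG.c1]; dsimp only; omega
    · rw [WG.c2]; dsimp only; omega
    · rw [WG.c3]; dsimp only; omega

/-- the planar blocking event forbids the arms of a mouth -/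
theorem blkM_not {c : ℤ} {left : Bool} {v : ℤ × ℤ} {ρ R h l₀ l : ℕ} (h1 : ρ < R) (h0 : 0 < h)
    (hl0 : 0 < l₀) (hl : l₀ < l) {τ : Perc.Cfg} (hτ : τ ∈ BlkM c left v ρ R h l₀ l) {u w : ℤ × ℤ}
    (hu : InM left v ρ h l₀ u) (hw : OutM left v R l w) (hc : (u.1 + u.2 - c) % 2 = 0) :
    ¬ Perc.Conn τ ((Mth left v R h l \ Mth left v ρ h l₀ : Finset (ℤ × ℤ)) : Set (ℤ × ℤ)) u w := by
  intro h2
  obtain ⟨hτ1, hτ2⟩ := hτ
  unfold InM at hu
  unfold OutM at hw
  cases left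
  · rw [if_neg (by simp)] at hu hw hτ2
    have h3 := conn_part (P := fun z : ℤ × ℤ => v.1 ≤ z.1)
      (T' := (Perc.RF (v.1 - l) (v.1 - l₀) (v.2 - h) (v.2 + h) : Finset (ℤ × ℤ))) (fun f hf => by
        have hf' := Finset.mem_coe.mp hf
        rw [Finset.mem_sdiff, WG.mem_Mth_right, WG.mem_Mth_right] at hf'
        by_cases hx : v.1 ≤ f.1
        · left
          intro k
          rcases WG.k_cases k with rfl | rfl | rfl | rfl
          · rw [WG.c0]; exact hx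
          · rw [WG.c1]; show v.1 ≤ f.1 + 1; omega
          · rw [WG.c2]; show v.1 ≤ f.1 + 1; omega
          · rw [WG.c3]; exact hx
        · right
          refine ⟨fun k => ?_, ?_⟩
          · rcases WG.k_cases k with rfl | rfl | rfl | rfl
            · rw [WG.c0]; exact hx
            · rw [WG.c1]; show ¬ v.1 ≤ f.1 + 1; omega
            · rw [WG.c2]; show ¬ v.1 ≤ f.1 + 1; omega
            · rw [WG.c3]; exact hx
          · rw [Finset.mem_coe, Perc.mem_RFi]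
            omega) h2
    by_cases hP : v.1 ≤ u.1
    · have hP' := h3.1.mp hP
      refine blk2_not_arm (by positivity) (by exact_mod_cast h1) hτ1 ?_ ?_ hc h2
      · rcases hu with hu | hu
        · exact hu.1
        · exfalso; omega
      · rcases hw with hw | hw
        · exact hw.1
        · exfalso
          have : v.1 ≤ w.1 := hP'
          omega
    · have hP' : ¬ v.1 ≤ w.1 := fun h => hP (h3.1.mpr h)
      have h4 := h3.2 hP
      have hu' : v.1 - l₀ ≤ u.1 := by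
        rcases hu with hu | hu
        · exfalso; omega
        · omega
      have hw' : w.1 = v.1 - l := by
        rcases hw with hw | hw
        · exfalso; omega
        · exact hw
      have hp := Perc.Conn.parity h4
      have h9 : τ ∈ Perc.LR c (v.1 - l) (v.1 - l₀) (v.2 - h) (v.2 + h) :=
        Perc.lr_of_conn (F := Perc.RF (v.1 - l) (v.1 - l₀) (v.2 - h) (v.2 + h)) (fun f hf => by
          have := Perc.mem_RFi.1 (Finset.mem_coe.1 hf); omega) (by omega) (by omega) (by omega)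
          hu' h4.symm
      exact Perc.not_lr_and_bt c (by omega) (by omega) τ ⟨h9, hτ2⟩
  · rw [if_pos rfl] at hu hw hτ2
    have h3 := conn_part (P := fun z : ℤ × ℤ => z.1 ≤ v.1)
      (T' := (Perc.RF (v.1 + l₀) (v.1 + l) (v.2 - h) (v.2 + h) : Finset (ℤ × ℤ))) (fun f hf => by
        have hf' := Finset.mem_coe.mp hf
        rw [Finset.mem_sdiff, WG.mem_Mth_left, WG.mem_Mth_left] at hf'
        by_cases hx : f.1 < v.1
        · left
          intro k
          rcases WG.k_cases k with rfl | rfl | rfl | rfl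
          · rw [WG.c0]; show f.1 ≤ v.1; omega
          · rw [WG.c1]; show f.1 + 1 ≤ v.1; omega
          · rw [WG.c2]; show f.1 + 1 ≤ v.1; omega
          · rw [WG.c3]; show f.1 ≤ v.1; omega
        · right
          refine ⟨fun k => ?_, ?_⟩
          · rcases WG.k_cases k with rfl | rfl | rfl | rfl
            · rw [WG.c0]; show ¬ f.1 ≤ v.1; omega
            · rw [WG.c1]; show ¬ f.1 + 1 ≤ v.1; omega
            · rw [WG.c2]; show ¬ f.1 + 1 ≤ v.1; omega
            · rw [WG.c3]; show ¬ f.1 ≤ v.1; omega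
          · rw [Finset.mem_coe, Perc.mem_RFi]
            omega) h2
    by_cases hP : u.1 ≤ v.1
    · have hP' := h3.1.mp hP
      refine blk2_not_arm (by positivity) (by exact_mod_cast h1) hτ1 ?_ ?_ hc h2
      · rcases hu with hu | hu
        · exact hu.1
        · exfalso; omega
      · rcases hw with hw | hw
        · exact hw.1
        · exfalso
          have : w.1 ≤ v.1 := hP'
          omega
    · have hP' : ¬ w.1 ≤ v.1 := fun h => hP (h3.1.mpr h)
      have h4 := h3.2 hP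
      have hu' : u.1 ≤ v.1 + l₀ := by
        rcases hu with hu | hu
        · exfalso; omega
        · omega
      have hw' : w.1 = v.1 + l := by
        rcases hw with hw | hw
        · exfalso; omega
        · exact hw
      have h9 : τ ∈ Perc.LR c (v.1 + l₀) (v.1 + l) (v.2 - h) (v.2 + h) :=
        Perc.lr_of_conn (F := Perc.RF (v.1 + l₀) (v.1 + l) (v.2 - h) (v.2 + h)) (fun f hf => by
          have := Perc.mem_RFi.1 (Finset.mem_coe.1 hf); omega) (by omega) hc hu' (by omega) h4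
      exact Perc.not_lr_and_bt c (by omega) (by omega) τ ⟨h9, hτ2⟩

open Classical in
/-- **The probability of a blocked mouth cell.** -/
theorem mch_pos : ∃ c₀ : ℝ, 0 < c₀ ∧ ∀ {V Φ : Type} [DecidableEq V] [DecidableEq Φ]
    {Q : QC V Φ} {F : Finset Φ} {left : Bool} {v : ℤ × ℤ} {R' h l' : ℕ}
    (c : MChart Q F left v R' h l') (D : Φ → Bool) (cc : ℤ) (ρ R l₀ l : ℕ) (S : Finset Φ),
    ρ < R → R ≤ R' → R ≤ 8 * (R - ρ) → 0 < h → h ≤ ρ → 0 < l₀ → l₀ < l → l ≤ l' →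
    2 * h ≤ l - l₀ → (∀ f ∈ Mth left v R' h l', D (c.φF f) = !Perc.parD cc f) →
    (Mth left v R h l).image c.φF \ (Mth left v ρ h l₀).image c.φF ⊆ S →
    c₀ ≤ av S (fun ω => if CellBlk Q D F ((Mth left v ρ h l₀).image c.φF)
      ((Mth left v R h l).image c.φF) ω then (1 : ℝ) else 0) := by
  obtain ⟨c₀, hc, hp⟩ := pr_BlkM
  refine ⟨c₀, hc, ?_⟩
  intro V Φ _ _ Q F left v R' h l' c D cc ρ R l₀ l S h1 h2 h3 h4 h5 h6 h7 h8 h9 hD hS
  have H := mch_pch c hD h1.le h2 h7.le h8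
  have hin := nu_inn c.toPChart (WG.Mth_mono h2 h8 : Mth left v R h l ⊆ _)
    (WG.Mth_mono h1.le h7.le : Mth left v ρ h l₀ ⊆ _) (P := InM left v ρ h l₀)
    (fun f hf k => cor_Mth h5 hf k) (A := dE Q ((Mth left v R h l).image c.φF \
      (Mth left v ρ h l₀).image c.φF))
  have hout : ∀ y ∈ Ends (bS Q ((Mth left v R h l).image c.φF) \ bS Q F),
      OutM left v R l (c.nu y) := by
    intro y hy
    obtain ⟨b, hb, h10⟩ := nu_out c.toPChart (WG.Mth_mono h2 h8)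
      (P := fun b => WG.Hb left v R b ∨ WG.Te left v h l b)
      (mch_bS c (h5.trans h1.le) h2 h8) y hy
    unfold OutM
    unfold WG.Hb WG.Ob WG.Te at hb
    cases left
    · rw [if_neg (by simp)] at hb ⊢
      rw [if_neg (by simp)] at hb
      rcases h10 with h10 | h10
      · rw [h10]
        rcases hb with hb | hb
        · exact Or.inl ⟨hb.1.1, hb.2.1⟩
        · exact Or.inr hb.1.1
      · rw [h10]
        rcases hb with hb | hb
        · exact Or.inl ⟨hb.1.2, hb.2.2⟩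
        · exact Or.inr hb.1.2
    · rw [if_pos rfl] at hb ⊢
      rw [if_pos rfl] at hb
      rcases h10 with h10 | h10
      · rw [h10]
        rcases hb with hb | hb
        · exact Or.inl ⟨hb.1.1, hb.2.1⟩
        · exact Or.inr hb.1.1
      · rw [h10]
        rcases hb with hb | hb
        · exact Or.inl ⟨hb.1.2, hb.2.2⟩
        · exact Or.inr hb.1.2
  refine (hp cc left v ρ R h l₀ l h1 h3 h4 h7 h9).trans
    (H.noArm_ge (depOn_BlkM h1) ?_ ?_ hS)
  · intro x hx y hy he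
    have e1 := hin x hx
    have e2 := hout y hy
    rw [he] at e1
    unfold InM InB at e1
    unfold OutM OutB at e2
    cases left
    · rw [if_neg (by simp)] at e1 e2
      omega
    · rw [if_pos rfl] at e1 e2
      omega
  · intro τ hτ x hx y hy hpar
    have himg : ((Mth left v R h l).image c.φF \ (Mth left v ρ h l₀).image c.φF).image c.pi =
        Mth left v R h l \ Mth left v ρ h l₀ := by
      rw [c.image_sdiff (WG.Mth_mono h2 h8) (WG.Mth_mono h1.le h7.le),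
        c.image_pi (Finset.sdiff_subset.trans (WG.Mth_mono h2 h8))]
    rw [himg]
    exact blkM_not h1 h4 h6 h7 hτ (hin x hx) (hout y hy) hpar

end

end Pool.Agent.SixB.Bk
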