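import Pool.Agent.Lib.SixB.S3PAtl

/-!
# 6BD step 3, row R7: assembling atlases

* `lside o p u`: the directed unit edge number `u` of the line through `p` in the direction `o`;
  `mem_wOut_line`, `mem_wIn_line`: the walls of a chart centred on the line.
* `PA Q F ψ Z C r nS nN t₀ S4 S1 N2`: there is a partial atlas whose special boxes of radius `4 r` (radius `r`) lie
  in `S4` (`S1`) and whose natural boxes and mouths lie in `N2`.
* `PA.mono`, `PA.zmono`, `PA.empty`, `PA.union`, `PA.one` (one special chart), `PA.fam` (a finite family of special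
  charts), `PA.segment` (natural charts along a line), `PA.atlas`.
-/

set_option autoImplicit false
set_option linter.unusedSectionVars false

namespace Pool.Agent.SixB

open Pool.Agent.Perc.Q Pool.Agent.Perc

noncomputable section

/-! ## Lines -/

/-- the directed unit edge number `u` of the line through `p` in the direction `o` -/
def lside (o : ZMod 4) (p : ℤ × ℤ) (u : ℤ) : (ℤ × ℤ) × (ℤ × ℤ) :=
  (p + u • dz o, p + (u + 1) • dz o)

theorem lside_add (o : ZMod 4) (p : ℤ × ℤ) (t u : ℤ) :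
    lside o (p + t • dz o) u = lside o p (t + u) := by
  unfold lside
  rw [add_assoc, ← add_smul, add_assoc p, ← add_smul, add_assoc t]

theorem mem_wOut_line {o : ZMod 4} {p : ℤ × ℤ} {t : ℤ} {r : ℕ} {a : (ℤ × ℤ) × (ℤ × ℤ)} :
    a ∈ wOut o (p + t • dz o) r ↔ ∃ u : ℤ, t ≤ u ∧ u < t + r ∧ a = lside o p u := by
  rw [mem_wOut]
  constructor
  · rintro ⟨s, hs, rfl⟩
    refine ⟨t + s, by omega, by omega, ?_⟩
    unfold lside
    rw [add_assoc, ← add_smul, add_assoc p, ← add_smul, add_assoc t]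
  · rintro ⟨u, h1, h2, rfl⟩
    refine ⟨(u - t).toNat, by omega, ?_⟩
    have h3 : (((u - t).toNat : ℕ) : ℤ) = u - t := Int.toNat_of_nonneg (by omega)
    unfold lside
    rw [h3, add_assoc, ← add_smul, add_assoc p, ← add_smul]
    congr 3 <;> ring_nf

theorem mem_wIn_line {o : ZMod 4} {p : ℤ × ℤ} {t : ℤ} {r : ℕ} {a : (ℤ × ℤ) × (ℤ × ℤ)} :
    a ∈ wIn (o + 2) (p + t • dz o) r ↔ ∃ u : ℤ, t - r ≤ u ∧ u < t ∧ a = lside o p u := by
  have dz2 : dz (o + 2) = -dz o := by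
    rcases zm4_cases o with h | h | h | h <;> rw [h] <;> rfl
  rw [mem_wIn, dz2]
  constructor
  · rintro ⟨s, hs, rfl⟩
    refine ⟨t - s - 1, by omega, by omega, ?_⟩
    unfold lside
    rw [smul_neg, smul_neg, ← neg_smul, ← neg_smul, add_assoc, ← add_smul, add_assoc p, ← add_smul]
    congr 3 <;> ring_nf
  · rintro ⟨u, h1, h2, rfl⟩
    refine ⟨(t - 1 - u).toNat, by omega, ?_⟩
    have h3 : (((t - 1 - u).toNat : ℕ) : ℤ) = t - 1 - u := Int.toNat_of_nonneg (by omega)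
    unfold lside
    rw [h3, smul_neg, smul_neg, ← neg_smul, ← neg_smul, add_assoc, ← add_smul, add_assoc p,
      ← add_smul]
    congr 3 <;> ring_nf

/-- the walls of a flat chart centred on the line -/
theorem mem_flat_line {o : ZMod 4} {p : ℤ × ℤ} {t : ℤ} {r : ℕ} {a : (ℤ × ℤ) × (ℤ × ℤ)} :
    a ∈ wIn (o + (2 : ℕ)) (p + t • dz o) r ∪ wOut o (p + t • dz o) r ↔
      ∃ u : ℤ, t - r ≤ u ∧ u < t + r ∧ a = lside o p u := by
  have e : (o + ((2 : ℕ) : ZMod 4)) = o + 2 := rfl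
  rw [Finset.mem_union, e, mem_wIn_line, mem_wOut_line]
  constructor
  · rintro (⟨u, h1, h2, h3⟩ | ⟨u, h1, h2, h3⟩)
    · exact ⟨u, h1, by omega, h3⟩
    · exact ⟨u, by omega, h2, h3⟩
  · rintro ⟨u, h1, h2, h3⟩
    rcases lt_or_ge u t with h | h
    · exact Or.inl ⟨u, h1, h, h3⟩
    · exact Or.inr ⟨u, h, h2, h3⟩

/-! ## Partial atlases -/

section pa

variable {V Φ : Type} [DecidableEq V] [DecidableEq Φ]

/-- a partial atlas with boxes in given regions -/
def PA (Q : QC V Φ) (F : Finset Φ) (ψ : V × V → ℝ) (Z C : Finset (V × V)) (r nS nN : ℕ) (t₀ : ℝ)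
    (S4 S1 N2 : Set Φ) : Prop :=
  ∃ A : PAtlas Q F ψ Z C r nS nN t₀, (∀ i, ∀ f ∈ (A.ch i).box (4 * r), f ∈ S4) ∧
    (∀ i, ∀ f ∈ (A.ch i).box r, f ∈ S1) ∧ (∀ i, ∀ f ∈ (A.nch i).box (2 * r), f ∈ N2) ∧
    ∀ i, ∀ f ∈ (Mth (A.lf i) (A.w i) (2 * r) (A.h i) (A.l i)).image (A.mch i).φF, f ∈ N2

variable {Q : QC V Φ} {F : Finset Φ} {ψ : V × V → ℝ} {Z Z' C C' : Finset (V × V)}
  {r nS nN nS' nN' : ℕ} {t₀ : ℝ} {S4 S1 N2 S4' S1' N2' : Set Φ}

theorem PA.mono (h : PA Q F ψ Z C r nS nN t₀ S4 S1 N2) (hC : C' ⊆ C) (hS : nS ≤ nS')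
    (hN : nN ≤ nN') (h4 : S4 ⊆ S4') (h1 : S1 ⊆ S1') (h2 : N2 ⊆ N2') :
    PA Q F ψ Z C' r nS' nN' t₀ S4' S1' N2' := by
  obtain ⟨A, a1, a2, a3, a4⟩ := h
  exact ⟨A.mono (Finset.Subset.refl _) hC hS hN, fun i f hf => h4 (a1 i f hf),
    fun i f hf => h1 (a2 i f hf), fun i f hf => h2 (a3 i f hf), fun i f hf => h2 (a4 i f hf)⟩

theorem PA.zmono (h : PA Q F ψ Z C r nS nN t₀ S4 S1 N2) (hZ : Z ⊆ Z') :
    PA Q F ψ Z' C r nS nN t₀ S4 S1 N2 := by
  obtain ⟨A, a1, a2, a3, a4⟩ := h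
  exact ⟨A.mono hZ (Finset.Subset.refl _) le_rfl le_rfl, a1, a2, a3, a4⟩

/-- no chart -/
theorem PA.empty : PA Q F ψ Z ∅ r 0 0 t₀ ∅ ∅ ∅ :=
  ⟨PAtlas.empty Q F ψ Z r t₀, fun i => i.elim, fun i => i.elim, fun i => i.elim, fun i => i.elim⟩

/-- union of two partial atlases -/
theorem PA.union (h : PA Q F ψ Z C r nS nN t₀ S4 S1 N2)
    (h' : PA Q F ψ Z C' r nS' nN' t₀ S4' S1' N2')
    (d4 : Disjoint S4 S4') (d1 : Disjoint N2 S1') (d2 : Disjoint N2' S1) :
    PA Q F ψ Z (C ∪ C') r (nS + nS') (nN + nN') t₀ (S4 ∪ S4') (S1 ∪ S1') (N2 ∪ N2') := by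
  obtain ⟨A, a1, a2, a3, a4⟩ := h
  obtain ⟨B, b1, b2, b3, b4⟩ := h'
  refine ⟨A.union B (fun i j => ?_) (fun i j => ?_) (fun i j => ?_) (fun i j => ?_) (fun i j => ?_),
    ?_, ?_, ?_, ?_⟩
  · rw [Finset.disjoint_left]
    exact fun f hf hf' => Set.disjoint_left.1 d4 (a1 i f hf) (b1 j f hf')
  · rw [Finset.disjoint_left]
    exact fun f hf hf' => Set.disjoint_left.1 d1 (a3 i f hf) (b2 j f hf')
  · rw [Finset.disjoint_left]
    exact fun f hf hf' => Set.disjoint_left.1 d2 (b3 i f hf) (a2 j f hf')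
  · rw [Finset.disjoint_left]
    exact fun f hf hf' => Set.disjoint_left.1 d1 (a4 i f hf) (b2 j f hf')
  · rw [Finset.disjoint_left]
    exact fun f hf hf' => Set.disjoint_left.1 d2 (b4 i f hf) (a2 j f hf')
  · rintro (i | i) f hf
    · exact Or.inl (a1 i f hf)
    · exact Or.inr (b1 i f hf)
  · rintro (i | i) f hf
    · exact Or.inl (a2 i f hf)
    · exact Or.inr (b2 i f hf)
  · rintro (i | i) f hf
    · exact Or.inl (a3 i f hf)
    · exact Or.inr (b3 i f hf)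
  · rintro (i | i) f hf
    · exact Or.inl (a4 i f hf)
    · exact Or.inr (b4 i f hf)

/-- an atlas -/
theorem PA.atlas (h : PA Q F ψ Z C r nS nN t₀ S4 S1 N2) (hZ : Z ⊆ bS Q F) (hC : Z ⊆ C) :
    Nonempty (Atlas Q F ψ Z r nS nN t₀) := by
  obtain ⟨A, -⟩ := h
  exact ⟨A.toAtlas hZ hC⟩

/-- **a finite family of special charts** -/
theorem PA.fam {κ : Type} [Fintype κ] [DecidableEq κ] (K : κ → SK) (m : κ → ℕ) (o : κ → ZMod 4)
    (v : κ → ℤ × ℤ) (ch : ∀ i, WChart Q F (m i) (o i) (v i) (4 * r + 1))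
    (hm : ∀ i, 1 ≤ m i ∧ m i ≤ 3) (hj : ∀ i, SJump (ch i) (K i) ψ)
    (ht : ∀ i J, K i = .ver J → t₀ ≤ tJ J ∨ (J = -(Real.pi / 3) ∧ m i = 2))
    (hd : ∀ i j, i ≠ j → Disjoint ((ch i).box (4 * r)) ((ch j).box (4 * r)))
    (hZ : ∀ i, (ch i).walls (4 * r) ⊆ Z) (hcard : Fintype.card κ ≤ nS)
    (hC : ∀ a ∈ C, ∃ i, a ∈ (ch i).walls (2 * r))
    (h4 : ∀ i, ∀ f ∈ (ch i).box (4 * r), f ∈ S4) (h1 : ∀ i, ∀ f ∈ (ch i).box r, f ∈ S1) :
    PA Q F ψ Z C r nS 0 t₀ S4 S1 ∅ :=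
  ⟨{  κ := κ
      K := K
      m := m
      o := o
      v := v
      ch := ch
      m_rng := hm
      jmp := hj
      tpos := ht
      disj := hd
      cardS := hcard
      chZ := hZ
      ι := Empty
      m' := fun i => i.elim
      o' := fun i => i.elim
      v' := fun i => i.elim
      nch := fun i => i.elim
      m'_rng := fun i => i.elim
      njmp := fun i => i.elim
      nZ := fun i => i.elim
      ndisj := fun i => i.elim
      cardN := by simp
      μ := Empty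
      lf := fun i => i.elim
      w := fun i => i.elim
      h := fun i => i.elim
      l := fun i => i.elim
      mch := fun i => i.elim
      h_lt := fun i => i.elim
      mnat := fun i => i.elim
      mZ := fun i => i.elim
      mdisj := fun i => i.elim
      cardM := by simp
      cover := fun a ha => Or.inl (hC a ha) }, h4, h1, fun i => i.elim, fun i => i.elim⟩

/-- one special chart -/
theorem PA.one {K : SK} {m : ℕ} {o : ZMod 4} {v : ℤ × ℤ} (ch : WChart Q F m o v (4 * r + 1))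
    (hm : 1 ≤ m ∧ m ≤ 3) (hj : SJump ch K ψ)
    (ht : ∀ J, K = .ver J → t₀ ≤ tJ J ∨ (J = -(Real.pi / 3) ∧ m = 2))
    (hZ : ch.walls (4 * r) ⊆ Z) :
    PA Q F ψ Z (ch.walls (2 * r)) r 1 0 t₀ (ch.box (4 * r) : Set Φ) (ch.box r : Set Φ) ∅ :=
  PA.fam (κ := Unit) (fun _ => K) (fun _ => m) (fun _ => o) (fun _ => v) (fun _ => ch) (fun _ => hm)
    (fun _ => hj) (fun _ => ht) (fun _ _ h => absurd rfl h) (fun _ => hZ) (by simp)
    (fun _ ha => ⟨(), ha⟩) (fun _ _ hf => hf) (fun _ _ hf => hf)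

/-- a finite family of natural charts -/
theorem PA.nfam {ι : Type} [Fintype ι] (m : ι → ℕ) (o : ι → ZMod 4)
    (v : ι → ℤ × ℤ) (nch : ∀ i, WChart Q F (m i) (o i) (v i) (2 * r + 1))
    (hm : ∀ i, 1 ≤ m i ∧ m i ≤ 3) (hj : ∀ i, (nch i).Jump ψ 0 ∨ (nch i).Jump ψ (Real.pi / 3))
    (hZ : ∀ i, (nch i).walls (2 * r) ⊆ Z) (hcard : Fintype.card ι ≤ nN)
    (hC : ∀ a ∈ C, ∃ i, a ∈ (nch i).walls r)
    (h2 : ∀ i, ∀ f ∈ (nch i).box (2 * r), f ∈ N2) :
    PA Q F ψ Z C r 0 nN t₀ ∅ ∅ N2 :=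
  ⟨{  κ := Empty
      K := fun i => i.elim
      m := fun i => i.elim
      o := fun i => i.elim
      v := fun i => i.elim
      ch := fun i => i.elim
      m_rng := fun i => i.elim
      jmp := fun i => i.elim
      tpos := fun i => i.elim
      disj := fun i => i.elim
      cardS := by simp
      chZ := fun i => i.elim
      ι := ι
      m' := m
      o' := o
      v' := v
      nch := nch
      m'_rng := hm
      njmp := hj
      nZ := hZ
      ndisj := fun _ j => j.elim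
      cardN := hcard
      μ := Empty
      lf := fun i => i.elim
      w := fun i => i.elim
      h := fun i => i.elim
      l := fun i => i.elim
      mch := fun i => i.elim
      h_lt := fun i => i.elim
      mnat := fun i => i.elim
      mZ := fun i => i.elim
      mdisj := fun i => i.elim
      cardM := by simp
      cover := fun a ha => Or.inr (Or.inl (hC a ha)) }, fun i => i.elim, fun i => i.elim, h2,
      fun i => i.elim⟩

/-- **natural charts along the segment `lo ≤ t ≤ hi` of the line through `p` in the direction `o`** -/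
theorem PA.segment (hr : 0 < r) {o : ZMod 4} {p : ℤ × ℤ} {lo hi : ℤ} (hlh : lo ≤ hi)
    (S : (ℤ × ℤ) × (ℤ × ℤ) → V × V)
    (nch : ∀ t : ℤ, lo ≤ t → t ≤ hi → WChart Q F 2 o (p + t • dz o) (2 * r + 1))
    (hS : ∀ t h h', ∀ u : ℤ, t - r ≤ u → u < t + r → (nch t h h').side (lside o p u) = S (lside o p u))
    (hj : ∀ t h h', (nch t h h').Jump ψ 0 ∨ (nch t h h').Jump ψ (Real.pi / 3))
    (hZ : ∀ t h h', (nch t h h').walls (2 * r) ⊆ Z)
    (h2 : ∀ t h h', ∀ f ∈ (nch t h h').box (2 * r), f ∈ N2) :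
    PA Q F ψ Z ((Finset.Ico (lo - r) (hi + r)).image fun u => S (lside o p u)) r 0
      ((hi - lo).toNat / (2 * r) + 2) t₀ ∅ ∅ N2 := by
  have hr' : (0 : ℤ) < r := by exact_mod_cast hr
  have c1 : ∀ j : Fin ((hi - lo).toNat / (2 * r) + 2), lo ≤ min (lo + 2 * r * ((j : ℕ) : ℤ)) hi :=
    fun j => le_min (by nlinarith [Int.natCast_nonneg (j : ℕ)]) hlh
  have c2 : ∀ j : Fin ((hi - lo).toNat / (2 * r) + 2), min (lo + 2 * r * ((j : ℕ) : ℤ)) hi ≤ hi :=
    fun j => min_le_right _ _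
  refine PA.nfam (ι := Fin ((hi - lo).toNat / (2 * r) + 2)) (fun _ => 2) (fun _ => o)
    (fun j => p + (min (lo + 2 * r * ((j : ℕ) : ℤ)) hi) • dz o) (fun j => nch _ (c1 j) (c2 j))
    (fun _ => ⟨by norm_num, by norm_num⟩) (fun j => hj _ _ _) (fun j => hZ _ _ _) (by simp) ?_
    (fun j => h2 _ _ _)
  intro a ha
  rw [Finset.mem_image] at ha
  obtain ⟨u, hu, rfl⟩ := ha
  rw [Finset.mem_Ico] at hu
  obtain ⟨hu1, hu2⟩ := hu
  have e1 : (((u - lo + r).toNat : ℕ) : ℤ) = u - lo + r := Int.toNat_of_nonneg (by omega)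
  have e2 : (((hi - lo).toNat : ℕ) : ℤ) = hi - lo := Int.toNat_of_nonneg (by omega)
  have hb : (u - lo + r).toNat / (2 * r) < (hi - lo).toNat / (2 * r) + 2 := by
    have h3 : (u - lo + r).toNat < (hi - lo).toNat + 2 * r := by omega
    have h4 : (u - lo + r).toNat / (2 * r) ≤ ((hi - lo).toNat + 2 * r) / (2 * r) :=
      Nat.div_le_div_right h3.le
    rw [Nat.add_div_right _ (by omega)] at h4
    omega
  set q : ℕ := (u - lo + r).toNat / (2 * r) with hq
  have q1 : 2 * r * q ≤ (u - lo + r).toNat := Nat.mul_div_le _ _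
  have q2 : (u - lo + r).toNat < 2 * r * (q + 1) := by
    have := Nat.lt_mul_div_succ (u - lo + r).toNat (show 0 < 2 * r by omega)
    simpa [hq] using this
  have q3 : (2 : ℤ) * r * q ≤ u - lo + r := by
    rw [← e1]; exact_mod_cast q1
  have q4 : u - lo + r < (2 : ℤ) * r * q + 2 * r := by
    have h5 : (((u - lo + r).toNat : ℕ) : ℤ) < ((2 * r * (q + 1) : ℕ) : ℤ) := by exact_mod_cast q2
    rw [e1] at h5
    push_cast at h5
    linarith
  have k1 : min (lo + 2 * r * (q : ℤ)) hi - r ≤ u := by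
    have := min_le_left (lo + 2 * r * (q : ℤ)) hi
    linarith
  have k2 : u < min (lo + 2 * r * (q : ℤ)) hi + r := by
    rcases min_choice (lo + 2 * r * (q : ℤ)) hi with h | h <;> rw [h] <;> linarith
  refine ⟨⟨q, hb⟩, ?_⟩
  have h6 := hS _ (c1 ⟨q, hb⟩) (c2 ⟨q, hb⟩) u k1 k2
  rw [← h6]
  unfold WChart.walls
  exact Finset.mem_image_of_mem _ (mem_flat_line.2 ⟨u, k1, k2, rfl⟩)

end pa

end

end Pool.Agent.SixB
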