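import Pool.Agent.Lib.SixB.S3EnvB
import Pool.Agent.Lib.SixB.S3Path

/-!
# 6BD step 3, row R7: the contour of a block

`G : BGeo`. The 26 vertices of the contour of the upper block in the order of the skeleton (number `i + 1`):
`vT G i` position, `mT i` number of quadrants, `oT i` direction of the next wall, `lT G i` its length, `JT m i` jump.
* `vT_sep`: the vertices have distance at least `8 r`; `vT_far`: the points of the walls at distance at least `3 r`
  from the ends have distance at least `3 r` from all vertices; `vT_next`: the next vertex.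
* `cls`: every side between the block and its complement lies on one of the walls (or on the mouth).
-/

set_option autoImplicit false
set_option linter.unusedSectionVars false

namespace Pool.Agent.SixB.BlkT

open Pool.Agent.Perc.Q Pool.Agent.Perc Pool.Agent.SixB.EnvB

noncomputable section

/-- number of the column of the vertex -/
def ciT : Fin 26 → ℕ :=
  ![0, 0, 1, 1, 2, 3, 3, 4, 4, 5, 6, 6, 7, 8, 9, 9, 10, 11, 11, 12, 12, 13, 14, 14, 15, 15]

/-- number of the height of the vertex -/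
def hiT : Fin 26 → ℕ :=
  ![2, 0, 0, 1, 1, 1, 0, 0, 1, 1, 1, 0, 0, 0, 0, 1, 1, 1, 0, 0, 1, 1, 1, 0, 0, 2]

/-- number of quadrants -/
def mT : Fin 26 → ℕ :=
  ![3, 3, 3, 1, 2, 1, 3, 3, 1, 2, 1, 3, 3, 3, 3, 1, 2, 1, 3, 3, 1, 2, 1, 3, 3, 3]

/-- direction of the next wall -/
def oT : Fin 26 → ZMod 4 :=
  ![3, 2, 1, 2, 2, 3, 2, 1, 2, 2, 3, 2, 1, 2, 1, 2, 2, 3, 2, 1, 2, 2, 3, 2, 1, 0]

/-- jumps -/
def JT (m : ℝ) : Fin 26 → ℝ :=
  ![BGeo.out m / 2, 0, 0, 0, -BGeo.alpha m, 0, 0, 0, 0, -BGeo.sig m, 0, 0, 0, 0, 0, 0, -BGeo.sig m,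
    0, 0, 0, 0, -BGeo.alpha m, 0, 0, 0, BGeo.out m / 2]

/-- distance of the column from the first one -/
def Dc (G : BGeo) (c : ℕ) : ℤ :=
  if c ≤ 7 then (c : ℤ) * G.k else ((c : ℤ) - 1) * G.k + (G.x2 - G.x1)

/-- height over the centre line -/
def Hc (G : BGeo) (h : ℕ) : ℤ := if h = 0 then G.a else if h = 1 then G.b else G.c

/-- the vertices -/
def vT (G : BGeo) (i : Fin 26) : ℤ × ℤ := (G.x2 + 7 * G.k - Dc G (ciT i), G.yc + Hc G (hiT i))

/-- the lengths of the walls -/
def lT (G : BGeo) (i : Fin 26) : ℤ :=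
  if oT i = 2 then G.k else if oT i = 0 then 14 * G.k + (G.x2 - G.x1) else
    if i = 12 then 0 else if i = 0 ∨ i = 24 then (G.c : ℤ) - G.a else (G.b : ℤ) - G.a

/-- The hypotheses on the sizes. -/
structure Sz (G : BGeo) (r : ℕ) : Prop where
  r0 : 0 < r
  k : 8 * r ≤ G.k
  x : G.x1 + 8 * r ≤ G.x2
  a : 0 < G.a
  ab : G.a + 8 * r ≤ G.b
  bc : G.b + 8 * r ≤ G.c

variable {G : BGeo} {r : ℕ} {i j : Fin 26}

theorem Dc_gap (h : Sz G r) {c c' : ℕ} (hc : c < c') : Dc G c + 8 * r ≤ Dc G c' := by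
  have h1 : (8 * r : ℤ) ≤ G.k := by exact_mod_cast h.k
  have h2 := h.x
  have h3 : (c : ℤ) + 1 ≤ c' := by exact_mod_cast hc
  have h4 : (0 : ℤ) ≤ r := by positivity
  unfold Dc
  split_ifs with h5 h6 h7
  · nlinarith
  · have h8 : (c' : ℤ) ≥ 8 := by omega
    have h9 : (c : ℤ) ≤ 7 := by exact_mod_cast h5
    nlinarith
  · omega
  · nlinarith

theorem Dc_mono (h : Sz G r) {c c' : ℕ} (hc : c ≤ c') : Dc G c ≤ Dc G c' := by
  rcases hc.lt_or_eq with h1 | h1
  · have := Dc_gap h h1
    have h4 : (0 : ℤ) ≤ r := by positivity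
    linarith
  · rw [h1]

theorem Hc_gap (h : Sz G r) {n n' : ℕ} (hn : n < n') (hn' : n' ≤ 2) : Hc G n + 8 * r ≤ Hc G n' := by
  have h1 := h.ab
  have h2 := h.bc
  have h3 : n = 0 ∧ n' = 1 ∨ n = 0 ∧ n' = 2 ∨ n = 1 ∧ n' = 2 := by omega
  rcases h3 with ⟨rfl, rfl⟩ | ⟨rfl, rfl⟩ | ⟨rfl, rfl⟩ <;> (unfold Hc; simp; omega)

theorem hiT_le (i : Fin 26) : hiT i ≤ 2 := by revert i; decide

theorem ciT_le (i : Fin 26) : ciT i ≤ 15 := by revert i; decide

theorem tab_inj : ∀ i j : Fin 26, i ≠ j → ciT i ≠ ciT j ∨ hiT i ≠ hiT j := by decide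

/-- the vertices have distance at least `8 r` -/
theorem vT_sep (h : Sz G r) (hij : i ≠ j) :
    8 * (r : ℤ) ≤ |(vT G i).1 - (vT G j).1| ∨ 8 * (r : ℤ) ≤ |(vT G i).2 - (vT G j).2| := by
  rcases tab_inj i j hij with h1 | h1
  · left
    unfold vT
    simp only
    rcases lt_or_gt_of_ne h1 with h2 | h2
    · have := Dc_gap h h2
      rw [le_abs]; left; linarith
    · have := Dc_gap h h2
      rw [le_abs]; right; linarith
  · right
    unfold vT
    simp only
    rcases lt_or_gt_of_ne h1 with h2 | h2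
    · have := Hc_gap h h2 (hiT_le j)
      rw [le_abs]; right; linarith
    · have := Hc_gap h h2 (hiT_le i)
      rw [le_abs]; left; linarith

/-! ### The next vertex -/

theorem tab2 : ∀ i : Fin 26, oT i = 2 → ciT (i + 1) = ciT i + 1 ∧ hiT (i + 1) = hiT i ∧ ciT i ≠ 7 := by
  decide

theorem tab0 : ∀ i : Fin 26, oT i = 0 → i = 25 := by decide

theorem tab1 : ∀ i : Fin 26, oT i = 1 → i ≠ 12 → ciT (i + 1) = ciT i ∧ hiT i = 0 ∧
    (i = 24 ∧ hiT (i + 1) = 2 ∨ i ≠ 24 ∧ hiT (i + 1) = 1) ∧ i ≠ 0 ∧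
      ∀ j, ciT j = ciT i → j = i ∨ j = i + 1 := by decide

theorem tab3 : ∀ i : Fin 26, oT i = 3 → ciT (i + 1) = ciT i ∧ hiT (i + 1) = 0 ∧
    (i = 0 ∧ hiT i = 2 ∨ i ≠ 0 ∧ hiT i = 1) ∧ i ≠ 24 ∧ i ≠ 12 ∧
      ∀ j, ciT j = ciT i → j = i ∨ j = i + 1 := by decide

theorem tabT : ∀ j : Fin 26, hiT j = 2 → j = 0 ∨ j = 25 := by decide

theorem tab_next : ∀ i : Fin 26, i ≠ 12 → oT (i + 1) + (mT (i + 1) : ZMod 4) = oT i + 2 := by decide

theorem Dc_succ {c : ℕ} (hc : c ≠ 7) : Dc G (c + 1) = Dc G c + G.k := by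
  unfold Dc
  split_ifs with h1 h2 h2
  · push_cast; ring
  · omega
  · omega
  · push_cast; ring

/-- the next vertex -/
theorem vT_next (hi : i ≠ 12) : vT G (i + 1) = vT G i + lT G i • dz (oT i) := by
  rcases zm4_cases (oT i) with h | h | h | h
  · have h1 := tab0 i h
    subst h1
    have e0 : (25 : Fin 26) + 1 = 0 := rfl
    have e1 : ciT 0 = 0 := rfl
    have e2 : ciT 25 = 15 := rfl
    have e3 : hiT 0 = 2 := rfl
    have e4 : hiT 25 = 2 := rfl
    have e5 : lT G 25 = 14 * G.k + (G.x2 - G.x1) := by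
      unfold lT
      rw [if_neg (by decide), if_pos (by decide)]
    rw [h, e0, e5]
    unfold vT
    rw [e1, e2, e3, e4, dz0]
    unfold Dc
    ext
    · simp
      try ring
    · simp
  · obtain ⟨h1, h2, h3, h4, -⟩ := tab1 i h hi
    unfold vT
    rw [h1, h2, h, dz1]
    rcases h3 with ⟨h3, h5⟩ | ⟨h3, h5⟩
    · have e5 : lT G i = (G.c : ℤ) - G.a := by
        unfold lT
        rw [if_neg (by rw [h]; decide), if_neg (by rw [h]; decide), if_neg hi, if_pos (Or.inr h3)]
      rw [h5, e5]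
      unfold Hc
      ext
      · simp
      · simp
    · have e5 : lT G i = (G.b : ℤ) - G.a := by
        unfold lT
        rw [if_neg (by rw [h]; decide), if_neg (by rw [h]; decide), if_neg hi,
          if_neg (by push Not; exact ⟨h4, h3⟩)]
      rw [h5, e5]
      unfold Hc
      ext
      · simp
      · simp
  · obtain ⟨h1, h2, h3⟩ := tab2 i h
    have e5 : lT G i = G.k := by
      unfold lT
      rw [if_pos h]
    unfold vT
    rw [h1, h2, h, dz2, Dc_succ h3, e5]
    ext
    · simp; ring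
    · simp
  · obtain ⟨h1, h2, h3, h4, -⟩ := tab3 i h
    unfold vT
    rw [h1, h2, h, dz3]
    rcases h3 with ⟨h3, h5⟩ | ⟨h3, h5⟩
    · have e5 : lT G i = (G.c : ℤ) - G.a := by
        unfold lT
        rw [if_neg (by rw [h]; decide), if_neg (by rw [h]; decide), if_neg hi, if_pos (Or.inl h3)]
      rw [h5, e5]
      unfold Hc
      ext
      · simp
      · simp
    · have e5 : lT G i = (G.b : ℤ) - G.a := by
        unfold lT
        rw [if_neg (by rw [h]; decide), if_neg (by rw [h]; decide), if_neg hi,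
          if_neg (by push Not; exact ⟨h3, h4⟩)]
      rw [h5, e5]
      unfold Hc
      ext
      · simp
      · simp

theorem lT_ge (h : Sz G r) (hi : i ≠ 12) : 8 * (r : ℤ) ≤ lT G i := by
  have h1 := h.k
  have h2 := h.x
  have h3 := h.ab
  have h4 := h.bc
  unfold lT
  split_ifs <;> omega

/-- points of the walls away from the ends are far from all vertices -/
theorem vT_far (h : Sz G r) (hi : i ≠ 12) {t : ℤ} (h1 : 3 * (r : ℤ) ≤ t) (h2 : t + 3 * r ≤ lT G i)
    (j : Fin 26) : 3 * (r : ℤ) ≤ |(vT G j).1 - (vT G i + t • dz (oT i)).1| ∨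
      3 * (r : ℤ) ≤ |(vT G j).2 - (vT G i + t • dz (oT i)).2| := by
  have hr : (0 : ℤ) ≤ r := by positivity
  rcases zm4_cases (oT i) with ho | ho | ho | ho
  · have h3 := tab0 i ho
    subst h3
    have e5 : lT G 25 = 14 * G.k + (G.x2 - G.x1) := by
      unfold lT
      rw [if_neg (by decide), if_pos (by decide)]
    rw [e5] at h2
    rw [ho, dz0]
    by_cases hj : hiT j = 2
    · left
      have e6 : ciT 25 = 15 := rfl
      rcases tabT j hj with rfl | rfl
      · have e7 : ciT 0 = 0 := rfl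
        unfold vT
        rw [e6, e7]
        unfold Dc
        simp
        first | (rw [le_abs]; left; linarith) | (rw [le_abs]; right; linarith)
      · unfold vT
        simp
        first | (rw [le_abs]; left; linarith) | (rw [le_abs]; right; linarith)
    · right
      have h4 := hiT_le j
      have e6 : hiT 25 = 2 := rfl
      have h5 : Hc G (hiT j) + 8 * r ≤ Hc G 2 := Hc_gap h (by omega) le_rfl
      unfold vT
      rw [e6]
      simp
      first | (rw [le_abs]; left; linarith) | (rw [le_abs]; right; linarith)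
  · obtain ⟨h3, h4, h5, h6, h7⟩ := tab1 i ho hi
    rw [ho, dz1]
    by_cases hj : ciT j = ciT i
    · right
      rcases h7 j hj with rfl | rfl
      · unfold vT
        simp
        first | (rw [le_abs]; left; linarith) | (rw [le_abs]; right; linarith)
      · have h8 := congrArg Prod.snd (vT_next (G := G) hi)
        rw [h8, ho, dz1]
        simp
        first | (rw [le_abs]; left; linarith) | (rw [le_abs]; right; linarith)
    · left
      unfold vT
      simp
      rcases lt_or_gt_of_ne hj with h8 | h8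
      · have := Dc_gap h h8
        rw [le_abs]; left; linarith
      · have := Dc_gap h h8
        rw [le_abs]; right; linarith
  · obtain ⟨h3, h4, h5⟩ := tab2 i ho
    have e5 : lT G i = G.k := by
      unfold lT
      rw [if_pos ho]
    rw [e5] at h2
    rw [ho, dz2]
    left
    have h6 := Dc_succ (G := G) h5
    unfold vT
    simp
    rcases le_or_gt (ciT j) (ciT i) with h8 | h8
    · have := Dc_mono h h8
      rw [le_abs]; left; linarith
    · have : Dc G (ciT i + 1) ≤ Dc G (ciT j) := Dc_mono h h8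
      rw [le_abs]; right; linarith
  · obtain ⟨h3, h4, h5, h6, h6', h7⟩ := tab3 i ho
    rw [ho, dz3]
    by_cases hj : ciT j = ciT i
    · right
      rcases h7 j hj with rfl | rfl
      · unfold vT
        simp
        first | (rw [le_abs]; left; linarith) | (rw [le_abs]; right; linarith)
      · have h8 := congrArg Prod.snd (vT_next (G := G) hi)
        rw [h8, ho, dz3]
        simp
        first | (rw [le_abs]; left; linarith) | (rw [le_abs]; right; linarith)
    · left
      unfold vT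
      simp
      rcases lt_or_gt_of_ne hj with h8 | h8
      · have := Dc_gap h h8
        rw [le_abs]; left; linarith
      · have := Dc_gap h h8
        rw [le_abs]; right; linarith

/-! ### Values -/

theorem vT0 : vT G 0 = (G.x2 + 7 * G.k, G.yc + G.c) := by
  unfold vT
  rw [show ciT 0 = 0 from rfl, show hiT 0 = 2 from rfl]
  unfold Dc Hc
  ext
  · simp
    try ring
  · simp

theorem vT1 : vT G 1 = (G.x2 + 7 * G.k, G.yc + G.a) := by
  unfold vT
  rw [show ciT 1 = 0 from rfl, show hiT 1 = 0 from rfl]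
  unfold Dc Hc
  ext
  · simp
    try ring
  · simp

theorem vT2 : vT G 2 = (G.x2 + 6 * G.k, G.yc + G.a) := by
  unfold vT
  rw [show ciT 2 = 1 from rfl, show hiT 2 = 0 from rfl]
  unfold Dc Hc
  ext
  · simp
    try ring
  · simp

theorem vT3 : vT G 3 = (G.x2 + 6 * G.k, G.yc + G.b) := by
  unfold vT
  rw [show ciT 3 = 1 from rfl, show hiT 3 = 1 from rfl]
  unfold Dc Hc
  ext
  · simp
    try ring
  · simp

theorem vT4 : vT G 4 = (G.x2 + 5 * G.k, G.yc + G.b) := by
  unfold vT
  rw [show ciT 4 = 2 from rfl, show hiT 4 = 1 from rfl]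
  unfold Dc Hc
  ext
  · simp
    try ring
  · simp

theorem vT5 : vT G 5 = (G.x2 + 4 * G.k, G.yc + G.b) := by
  unfold vT
  rw [show ciT 5 = 3 from rfl, show hiT 5 = 1 from rfl]
  unfold Dc Hc
  ext
  · simp
    try ring
  · simp

theorem vT6 : vT G 6 = (G.x2 + 4 * G.k, G.yc + G.a) := by
  unfold vT
  rw [show ciT 6 = 3 from rfl, show hiT 6 = 0 from rfl]
  unfold Dc Hc
  ext
  · simp
    try ring
  · simp

theorem vT7 : vT G 7 = (G.x2 + 3 * G.k, G.yc + G.a) := by
  unfold vT
  rw [show ciT 7 = 4 from rfl, show hiT 7 = 0 from rfl]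
  unfold Dc Hc
  ext
  · simp
    try ring
  · simp

theorem vT8 : vT G 8 = (G.x2 + 3 * G.k, G.yc + G.b) := by
  unfold vT
  rw [show ciT 8 = 4 from rfl, show hiT 8 = 1 from rfl]
  unfold Dc Hc
  ext
  · simp
    try ring
  · simp

theorem vT9 : vT G 9 = (G.x2 + 2 * G.k, G.yc + G.b) := by
  unfold vT
  rw [show ciT 9 = 5 from rfl, show hiT 9 = 1 from rfl]
  unfold Dc Hc
  ext
  · simp
    try ring
  · simp

theorem vT10 : vT G 10 = (G.x2 + G.k, G.yc + G.b) := by
  unfold vT
  rw [show ciT 10 = 6 from rfl, show hiT 10 = 1 from rfl]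
  unfold Dc Hc
  ext
  · simp
    try ring
  · simp

theorem vT11 : vT G 11 = (G.x2 + G.k, G.yc + G.a) := by
  unfold vT
  rw [show ciT 11 = 6 from rfl, show hiT 11 = 0 from rfl]
  unfold Dc Hc
  ext
  · simp
    try ring
  · simp

theorem vT12 : vT G 12 = (G.x2, G.yc + G.a) := by
  unfold vT
  rw [show ciT 12 = 7 from rfl, show hiT 12 = 0 from rfl]
  unfold Dc Hc
  ext
  · simp
    try ring
  · simp

theorem vT13 : vT G 13 = (G.x1, G.yc + G.a) := by
  unfold vT
  rw [show ciT 13 = 8 from rfl, show hiT 13 = 0 from rfl]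
  unfold Dc Hc
  ext
  · simp
    try ring
  · simp

theorem vT14 : vT G 14 = (G.x1 - G.k, G.yc + G.a) := by
  unfold vT
  rw [show ciT 14 = 9 from rfl, show hiT 14 = 0 from rfl]
  unfold Dc Hc
  ext
  · simp
    try ring
  · simp

theorem vT15 : vT G 15 = (G.x1 - G.k, G.yc + G.b) := by
  unfold vT
  rw [show ciT 15 = 9 from rfl, show hiT 15 = 1 from rfl]
  unfold Dc Hc
  ext
  · simp
    try ring
  · simp

theorem vT16 : vT G 16 = (G.x1 - 2 * G.k, G.yc + G.b) := by
  unfold vT
  rw [show ciT 16 = 10 from rfl, show hiT 16 = 1 from rfl]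
  unfold Dc Hc
  ext
  · simp
    try ring
  · simp

theorem vT17 : vT G 17 = (G.x1 - 3 * G.k, G.yc + G.b) := by
  unfold vT
  rw [show ciT 17 = 11 from rfl, show hiT 17 = 1 from rfl]
  unfold Dc Hc
  ext
  · simp
    try ring
  · simp

theorem vT18 : vT G 18 = (G.x1 - 3 * G.k, G.yc + G.a) := by
  unfold vT
  rw [show ciT 18 = 11 from rfl, show hiT 18 = 0 from rfl]
  unfold Dc Hc
  ext
  · simp
    try ring
  · simp

theorem vT19 : vT G 19 = (G.x1 - 4 * G.k, G.yc + G.a) := by
  unfold vT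
  rw [show ciT 19 = 12 from rfl, show hiT 19 = 0 from rfl]
  unfold Dc Hc
  ext
  · simp
    try ring
  · simp

theorem vT20 : vT G 20 = (G.x1 - 4 * G.k, G.yc + G.b) := by
  unfold vT
  rw [show ciT 20 = 12 from rfl, show hiT 20 = 1 from rfl]
  unfold Dc Hc
  ext
  · simp
    try ring
  · simp

theorem vT21 : vT G 21 = (G.x1 - 5 * G.k, G.yc + G.b) := by
  unfold vT
  rw [show ciT 21 = 13 from rfl, show hiT 21 = 1 from rfl]
  unfold Dc Hc
  ext
  · simp
    try ring
  · simp

theorem vT22 : vT G 22 = (G.x1 - 6 * G.k, G.yc + G.b) := by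
  unfold vT
  rw [show ciT 22 = 14 from rfl, show hiT 22 = 1 from rfl]
  unfold Dc Hc
  ext
  · simp
    try ring
  · simp

theorem vT23 : vT G 23 = (G.x1 - 6 * G.k, G.yc + G.a) := by
  unfold vT
  rw [show ciT 23 = 14 from rfl, show hiT 23 = 0 from rfl]
  unfold Dc Hc
  ext
  · simp
    try ring
  · simp

theorem vT24 : vT G 24 = (G.x1 - 7 * G.k, G.yc + G.a) := by
  unfold vT
  rw [show ciT 24 = 15 from rfl, show hiT 24 = 0 from rfl]
  unfold Dc Hc
  ext
  · simp
    try ring
  · simp

theorem vT25 : vT G 25 = (G.x1 - 7 * G.k, G.yc + G.c) := by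
  unfold vT
  rw [show ciT 25 = 15 from rfl, show hiT 25 = 2 from rfl]
  unfold Dc Hc
  ext
  · simp
    try ring
  · simp

theorem lT0 : lT G 0 = G.c - G.a := by
  unfold lT
  rw [if_neg (by decide), if_neg (by decide), if_neg (by decide), if_pos (by decide)]

theorem lT1 : lT G 1 = G.k := by
  unfold lT
  rw [if_pos (by decide)]

theorem lT2 : lT G 2 = G.b - G.a := by
  unfold lT
  rw [if_neg (by decide), if_neg (by decide), if_neg (by decide), if_neg (by decide)]

theorem lT3 : lT G 3 = G.k := by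
  unfold lT
  rw [if_pos (by decide)]

theorem lT4 : lT G 4 = G.k := by
  unfold lT
  rw [if_pos (by decide)]

theorem lT5 : lT G 5 = G.b - G.a := by
  unfold lT
  rw [if_neg (by decide), if_neg (by decide), if_neg (by decide), if_neg (by decide)]

theorem lT6 : lT G 6 = G.k := by
  unfold lT
  rw [if_pos (by decide)]

theorem lT7 : lT G 7 = G.b - G.a := by
  unfold lT
  rw [if_neg (by decide), if_neg (by decide), if_neg (by decide), if_neg (by decide)]

theorem lT8 : lT G 8 = G.k := by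
  unfold lT
  rw [if_pos (by decide)]

theorem lT9 : lT G 9 = G.k := by
  unfold lT
  rw [if_pos (by decide)]

theorem lT10 : lT G 10 = G.b - G.a := by
  unfold lT
  rw [if_neg (by decide), if_neg (by decide), if_neg (by decide), if_neg (by decide)]

theorem lT11 : lT G 11 = G.k := by
  unfold lT
  rw [if_pos (by decide)]

theorem lT13 : lT G 13 = G.k := by
  unfold lT
  rw [if_pos (by decide)]

theorem lT14 : lT G 14 = G.b - G.a := by
  unfold lT
  rw [if_neg (by decide), if_neg (by decide), if_neg (by decide), if_neg (by decide)]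

theorem lT15 : lT G 15 = G.k := by
  unfold lT
  rw [if_pos (by decide)]

theorem lT16 : lT G 16 = G.k := by
  unfold lT
  rw [if_pos (by decide)]

theorem lT17 : lT G 17 = G.b - G.a := by
  unfold lT
  rw [if_neg (by decide), if_neg (by decide), if_neg (by decide), if_neg (by decide)]

theorem lT18 : lT G 18 = G.k := by
  unfold lT
  rw [if_pos (by decide)]

theorem lT19 : lT G 19 = G.b - G.a := by
  unfold lT
  rw [if_neg (by decide), if_neg (by decide), if_neg (by decide), if_neg (by decide)]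

theorem lT20 : lT G 20 = G.k := by
  unfold lT
  rw [if_pos (by decide)]

theorem lT21 : lT G 21 = G.k := by
  unfold lT
  rw [if_pos (by decide)]

theorem lT22 : lT G 22 = G.b - G.a := by
  unfold lT
  rw [if_neg (by decide), if_neg (by decide), if_neg (by decide), if_neg (by decide)]

theorem lT23 : lT G 23 = G.k := by
  unfold lT
  rw [if_pos (by decide)]

theorem lT24 : lT G 24 = G.c - G.a := by
  unfold lT
  rw [if_neg (by decide), if_neg (by decide), if_neg (by decide), if_pos (by decide)]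

theorem lT25 : lT G 25 = 14 * G.k + (G.x2 - G.x1) := by
  unfold lT
  rw [if_neg (by decide), if_pos (by decide)]

/-! ### Sides of the block -/

theorem ls0 {p : ℤ × ℤ} {x y u : ℤ} (h1 : x = p.1 + u) (h2 : y = p.2) :
    sd ZQ (x, y) 0 = lside 0 p u := by
  unfold lside
  rw [sdz0, dz0]
  ext <;> simp <;> omega

theorem ls1 {p : ℤ × ℤ} {x y u : ℤ} (h1 : x + 1 = p.1) (h2 : y = p.2 + u) :
    sd ZQ (x, y) 1 = lside 1 p u := by
  unfold lside
  rw [sdz1, dz1]
  ext <;> simp <;> omega

theorem ls2 {p : ℤ × ℤ} {x y u : ℤ} (h1 : x + 1 = p.1 - u) (h2 : y + 1 = p.2) :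
    sd ZQ (x, y) 2 = lside 2 p u := by
  unfold lside
  rw [sdz2, dz2]
  ext <;> simp <;> omega

theorem ls3 {p : ℤ × ℤ} {x y u : ℤ} (h1 : x = p.1) (h2 : y + 1 = p.2 - u) :
    sd ZQ (x, y) 3 = lside 3 p u := by
  unfold lside
  rw [sdz3, dz3]
  ext <;> simp <;> omega

theorem solid_iff {f : ℤ × ℤ} : G.solid true f ↔ (G.a ≤ f.2 - G.yc ∧ f.2 - G.yc < G.c) ∧
    (G.x1 - 7 * G.k ≤ f.1 ∧ f.1 < G.x2 + 7 * G.k) ∧ ¬ (G.cham f.1 ∧ f.2 - G.yc < G.b) := by
  unfold BGeo.solid BGeo.hgt
  rw [if_pos rfl]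
  tauto

/-- **every side between the block and its complement lies on a wall** -/
theorem cls (h : Sz G r) {f : ℤ × ℤ} {k : ZMod 4} (h1 : G.solid true (nb f k))
    (h2 : ¬ G.solid true f)
    (hm : ¬ (k = 2 ∧ (G.x1 ≤ f.1 ∧ f.1 < G.x2) ∧ f.2 + 1 = G.yc + G.a)) :
    ∃ i : Fin 26, i ≠ 12 ∧ ∃ u : ℤ, 0 ≤ u ∧ u < lT G i ∧ sd ZQ f k = lside (oT i) (vT G i) u := by
  obtain ⟨x, y⟩ := f
  rw [solid_iff] at h1 h2
  have g1 := h.k
  have g2 := h.x
  have g3 := h.ab
  have g4 := h.bc
  have g5 := h.r0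
  have g6 := h.a
  rcases k4 k with rfl | rfl | rfl | rfl
  · rw [nb0] at h1
    simp only at h1 h2
    have e : y = G.yc + G.c ∧ G.x1 - 7 * G.k ≤ x ∧ x < G.x2 + 7 * G.k := by
      by_cases hc : G.cham x
      · simp only [hc, true_and] at h1 h2; omega
      · simp only [hc, false_and, not_false_eq_true, and_true] at h1 h2; omega
    refine ⟨25, by decide, x - (G.x1 - 7 * G.k), by omega, by rw [lT25]; omega, ?_⟩
    exact ls0 (by rw [vT25]; simp) (by rw [vT25]; exact e.1)
  · rw [nb1] at h1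
    simp only at h1 h2
    unfold BGeo.cham at h1 h2
    have e : (x + 1 = G.x1 - 7 * G.k ∧ G.a ≤ y - G.yc ∧ y - G.yc < G.c) ∨
        (x + 1 = G.x2 + 6 * G.k ∧ G.a ≤ y - G.yc ∧ y - G.yc < G.b) ∨
        (x + 1 = G.x2 + 3 * G.k ∧ G.a ≤ y - G.yc ∧ y - G.yc < G.b) ∨
        (x + 1 = G.x1 - G.k ∧ G.a ≤ y - G.yc ∧ y - G.yc < G.b) ∨
        (x + 1 = G.x1 - 4 * G.k ∧ G.a ≤ y - G.yc ∧ y - G.yc < G.b) := by omega
    rcases e with e | e | e | e | e
    · refine ⟨24, by decide, y - (G.yc + G.a), by omega, by rw [lT24]; omega, ?_⟩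
      exact ls1 (by rw [vT24]; exact e.1) (by rw [vT24]; simp)
    · refine ⟨2, by decide, y - (G.yc + G.a), by omega, by rw [lT2]; omega, ?_⟩
      exact ls1 (by rw [vT2]; exact e.1) (by rw [vT2]; simp)
    · refine ⟨7, by decide, y - (G.yc + G.a), by omega, by rw [lT7]; omega, ?_⟩
      exact ls1 (by rw [vT7]; exact e.1) (by rw [vT7]; simp)
    · refine ⟨14, by decide, y - (G.yc + G.a), by omega, by rw [lT14]; omega, ?_⟩
      exact ls1 (by rw [vT14]; exact e.1) (by rw [vT14]; simp)
    · refine ⟨19, by decide, y - (G.yc + G.a), by omega, by rw [lT19]; omega, ?_⟩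
      exact ls1 (by rw [vT19]; exact e.1) (by rw [vT19]; simp)
  · rw [nb2] at h1
    simp only at h1 h2 hm
    have e : (¬ G.cham x ∧ y + 1 = G.yc + G.a ∧ G.x1 - 7 * G.k ≤ x ∧ x < G.x2 + 7 * G.k) ∨
        (G.cham x ∧ y + 1 = G.yc + G.b ∧ G.x1 - 7 * G.k ≤ x ∧ x < G.x2 + 7 * G.k) := by
      by_cases hc : G.cham x
      · simp only [hc, true_and] at h1 h2; simp only [hc, not_true, false_and, true_and, false_or]; omega
      · simp only [hc, false_and, not_false_eq_true, and_true] at h1 h2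
        simp only [hc, not_false_eq_true, true_and, false_and, or_false]; omega
    have hm' : ¬ ((G.x1 ≤ x ∧ x < G.x2) ∧ y + 1 = G.yc + G.a) := by
      intro h7
      exact hm (by simpa using h7)
    unfold BGeo.cham at e
    rcases lt_or_ge x (G.x2) with c7 | c7
    · rcases lt_or_ge x (G.x1 - 3 * G.k) with c11 | c11
      · rcases lt_or_ge x (G.x1 - 5 * G.k) with c13 | c13
        · rcases lt_or_ge x (G.x1 - 6 * G.k) with c14 | c14
          · have e1 : y + 1 = G.yc + G.a := by omega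
            refine ⟨23, by decide, G.x1 - 6 * G.k - (x + 1), by omega, by rw [lT23]; omega, ?_⟩
            exact ls2 (by rw [vT23]; simp) (by rw [vT23]; exact e1)
          · have e1 : y + 1 = G.yc + G.b := by omega
            refine ⟨21, by decide, G.x1 - 5 * G.k - (x + 1), by omega, by rw [lT21]; omega, ?_⟩
            exact ls2 (by rw [vT21]; simp) (by rw [vT21]; exact e1)
        · rcases lt_or_ge x (G.x1 - 4 * G.k) with c12 | c12
          · have e1 : y + 1 = G.yc + G.b := by omega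
            refine ⟨20, by decide, G.x1 - 4 * G.k - (x + 1), by omega, by rw [lT20]; omega, ?_⟩
            exact ls2 (by rw [vT20]; simp) (by rw [vT20]; exact e1)
          · have e1 : y + 1 = G.yc + G.a := by omega
            refine ⟨18, by decide, G.x1 - 3 * G.k - (x + 1), by omega, by rw [lT18]; omega, ?_⟩
            exact ls2 (by rw [vT18]; simp) (by rw [vT18]; exact e1)
      · rcases lt_or_ge x (G.x1 - G.k) with c9 | c9
        · rcases lt_or_ge x (G.x1 - 2 * G.k) with c10 | c10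
          · have e1 : y + 1 = G.yc + G.b := by omega
            refine ⟨16, by decide, G.x1 - 2 * G.k - (x + 1), by omega, by rw [lT16]; omega, ?_⟩
            exact ls2 (by rw [vT16]; simp) (by rw [vT16]; exact e1)
          · have e1 : y + 1 = G.yc + G.b := by omega
            refine ⟨15, by decide, G.x1 - G.k - (x + 1), by omega, by rw [lT15]; omega, ?_⟩
            exact ls2 (by rw [vT15]; simp) (by rw [vT15]; exact e1)
        · rcases lt_or_ge x (G.x1) with c8 | c8
          · have e1 : y + 1 = G.yc + G.a := by omega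
            refine ⟨13, by decide, G.x1 - (x + 1), by omega, by rw [lT13]; omega, ?_⟩
            exact ls2 (by rw [vT13]; simp) (by rw [vT13]; exact e1)
          · exfalso
            omega
    · rcases lt_or_ge x (G.x2 + 4 * G.k) with c3 | c3
      · rcases lt_or_ge x (G.x2 + 2 * G.k) with c5 | c5
        · rcases lt_or_ge x (G.x2 + G.k) with c6 | c6
          · have e1 : y + 1 = G.yc + G.a := by omega
            refine ⟨11, by decide, G.x2 + G.k - (x + 1), by omega, by rw [lT11]; omega, ?_⟩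
            exact ls2 (by rw [vT11]; simp) (by rw [vT11]; exact e1)
          · have e1 : y + 1 = G.yc + G.b := by omega
            refine ⟨9, by decide, G.x2 + 2 * G.k - (x + 1), by omega, by rw [lT9]; omega, ?_⟩
            exact ls2 (by rw [vT9]; simp) (by rw [vT9]; exact e1)
        · rcases lt_or_ge x (G.x2 + 3 * G.k) with c4 | c4
          · have e1 : y + 1 = G.yc + G.b := by omega
            refine ⟨8, by decide, G.x2 + 3 * G.k - (x + 1), by omega, by rw [lT8]; omega, ?_⟩
            exact ls2 (by rw [vT8]; simp) (by rw [vT8]; exact e1)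
          · have e1 : y + 1 = G.yc + G.a := by omega
            refine ⟨6, by decide, G.x2 + 4 * G.k - (x + 1), by omega, by rw [lT6]; omega, ?_⟩
            exact ls2 (by rw [vT6]; simp) (by rw [vT6]; exact e1)
      · rcases lt_or_ge x (G.x2 + 6 * G.k) with c1 | c1
        · rcases lt_or_ge x (G.x2 + 5 * G.k) with c2 | c2
          · have e1 : y + 1 = G.yc + G.b := by omega
            refine ⟨4, by decide, G.x2 + 5 * G.k - (x + 1), by omega, by rw [lT4]; omega, ?_⟩
            exact ls2 (by rw [vT4]; simp) (by rw [vT4]; exact e1)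
          · have e1 : y + 1 = G.yc + G.b := by omega
            refine ⟨3, by decide, G.x2 + 6 * G.k - (x + 1), by omega, by rw [lT3]; omega, ?_⟩
            exact ls2 (by rw [vT3]; simp) (by rw [vT3]; exact e1)
        · have e1 : y + 1 = G.yc + G.a := by omega
          refine ⟨1, by decide, G.x2 + 7 * G.k - (x + 1), by omega, by rw [lT1]; omega, ?_⟩
          exact ls2 (by rw [vT1]; simp) (by rw [vT1]; exact e1)
  · rw [nb3] at h1
    simp only at h1 h2
    unfold BGeo.cham at h1 h2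
    have e : (x = G.x2 + 7 * G.k ∧ G.a ≤ y - G.yc ∧ y - G.yc < G.c) ∨
        (x = G.x2 + 4 * G.k ∧ G.a ≤ y - G.yc ∧ y - G.yc < G.b) ∨
        (x = G.x2 + G.k ∧ G.a ≤ y - G.yc ∧ y - G.yc < G.b) ∨
        (x = G.x1 - 3 * G.k ∧ G.a ≤ y - G.yc ∧ y - G.yc < G.b) ∨
        (x = G.x1 - 6 * G.k ∧ G.a ≤ y - G.yc ∧ y - G.yc < G.b) := by omega
    rcases e with e | e | e | e | e
    · refine ⟨0, by decide, G.yc + G.c - (y + 1), by omega, by rw [lT0]; omega, ?_⟩
      exact ls3 (by rw [vT0]; exact e.1) (by rw [vT0]; simp)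
    · refine ⟨5, by decide, G.yc + G.b - (y + 1), by omega, by rw [lT5]; omega, ?_⟩
      exact ls3 (by rw [vT5]; exact e.1) (by rw [vT5]; simp)
    · refine ⟨10, by decide, G.yc + G.b - (y + 1), by omega, by rw [lT10]; omega, ?_⟩
      exact ls3 (by rw [vT10]; exact e.1) (by rw [vT10]; simp)
    · refine ⟨17, by decide, G.yc + G.b - (y + 1), by omega, by rw [lT17]; omega, ?_⟩
      exact ls3 (by rw [vT17]; exact e.1) (by rw [vT17]; simp)
    · refine ⟨22, by decide, G.yc + G.b - (y + 1), by omega, by rw [lT22]; omega, ?_⟩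
      exact ls3 (by rw [vT22]; exact e.1) (by rw [vT22]; simp)

end

end Pool.Agent.SixB.BlkT
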