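import Pool.Agent.Lib.SixB.S3EnvB
import Pool.Agent.Lib.SixB.S3Wdg

/-!
# 6BD step 3: charts at the walls of the blocks

`E : SEnv`, any radius `r`.
* `wOut_nb`, `wIn_nb`: the face behind a wall side of a wedge.
* `upW`, `loW`: the wedge chart at `v` if in the box of radius `r` around `v` the complement of the upper
  (lower) block is the wedge; `upW_side`, `upW_Z`: its walls are island sides.
-/

set_option autoImplicit false
set_option linter.unusedSectionVars false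

namespace Pool.Agent.SixB.BlkW

open Pool.Agent.Perc.Q Pool.Agent.Perc Pool.Agent.SixB.EnvB

noncomputable section

/-! ## Behind the walls -/

section plane

variable {m : ℕ} {o : ZMod 4} {v f : ℤ × ℤ} {r : ℕ} {a : (ℤ × ℤ) × (ℤ × ℤ)}

theorem val_neg_one : (-1 : ZMod 4).val = 3 := rfl

/-- the face behind a side of `wOut` -/
theorem wOut_nb (hm : 1 ≤ m) (hm3 : m ≤ 3) (ha : a ∈ wOut o v r) : ∃ f ∈ Wdg m o v r,
    a = sd ZQ f o ∧ nb f o ∈ Bx v r ∧ nb f o ∉ Wdg m o v r := by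
  rcases k4 o with rfl | rfl | rfl | rfl
  · obtain ⟨x, h1, h2, rfl⟩ := mem_wOut0.mp ha
    refine ⟨_, ?_, rfl, ?_, ?_⟩
    · rw [mem_Wdg]
      have hq : quad v (x, v.2) = 0 := by
        unfold quad; rw [if_pos (by simpa using h1), if_pos (by simp)]
      rw [hq]
      refine ⟨?_, by rw [sub_self, ZMod.val_zero]; omega⟩
      simp only; omega
    · rw [nb0, mem_Bx]; simp only; omega
    · rw [nb0, mem_Wdg]
      have hq : quad v (x, v.2 - 1) = 3 := by
        unfold quad; rw [if_pos (by simpa using h1), if_neg (by simp)]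
      rw [hq]
      rintro ⟨-, h⟩
      have : (3 - 0 : ZMod 4).val = 3 := rfl
      omega
  · obtain ⟨y, h1, h2, rfl⟩ := mem_wOut1.mp ha
    refine ⟨_, ?_, rfl, ?_, ?_⟩
    · rw [mem_Wdg]
      have hq : quad v (v.1 - 1, y) = 1 := by
        unfold quad; rw [if_neg (by simp), if_pos (by simpa using h1)]
      rw [hq]
      refine ⟨?_, by rw [sub_self, ZMod.val_zero]; omega⟩
      simp only; omega
    · rw [nb1, mem_Bx]; simp only; omega
    · rw [nb1, mem_Wdg]
      have hq : quad v (v.1 - 1 + 1, y) = 0 := by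
        unfold quad; rw [if_pos (by simp), if_pos (by simpa using h1)]
      simp only
      rw [hq]
      rintro ⟨-, h⟩
      have : (0 - 1 : ZMod 4).val = 3 := rfl
      omega
  · obtain ⟨x, h1, h2, rfl⟩ := mem_wOut2.mp ha
    refine ⟨_, ?_, rfl, ?_, ?_⟩
    · rw [mem_Wdg]
      have hq : quad v (x, v.2 - 1) = 2 := by
        unfold quad; rw [if_neg (by simpa using h2), if_neg (by simp)]
      rw [hq]
      refine ⟨?_, by rw [sub_self, ZMod.val_zero]; omega⟩
      simp only; omega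
    · rw [nb2, mem_Bx]; simp only; omega
    · rw [nb2, mem_Wdg]
      have hq : quad v (x, v.2 - 1 + 1) = 1 := by
        unfold quad; rw [if_neg (by simpa using h2), if_pos (by simp)]
      simp only
      rw [hq]
      rintro ⟨-, h⟩
      have : (1 - 2 : ZMod 4).val = 3 := rfl
      omega
  · obtain ⟨y, h1, h2, rfl⟩ := mem_wOut3.mp ha
    refine ⟨_, ?_, rfl, ?_, ?_⟩
    · rw [mem_Wdg]
      have hq : quad v (v.1, y) = 3 := by
        unfold quad; rw [if_pos (by simp), if_neg (by simpa using h2)]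
      rw [hq]
      refine ⟨?_, by rw [sub_self, ZMod.val_zero]; omega⟩
      simp only; omega
    · rw [nb3, mem_Bx]; simp only; omega
    · rw [nb3, mem_Wdg]
      have hq : quad v (v.1 - 1, y) = 2 := by
        unfold quad; rw [if_neg (by simp), if_neg (by simpa using h2)]
      simp only
      rw [hq]
      rintro ⟨-, h⟩
      have : (2 - 3 : ZMod 4).val = 3 := rfl
      omega

/-- the face behind a side of `wIn` -/
theorem wIn_nb (hm : 1 ≤ m) (hm3 : m ≤ 3) (ha : a ∈ wIn (o + m) v r) : ∃ f ∈ Wdg m o v r,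
    a = sd ZQ f (o + m + 2) ∧ nb f (o + m + 2) ∈ Bx v r ∧ nb f (o + m + 2) ∉ Wdg m o v r := by
  have hq0 : ∀ e : ZMod 4, e = o + m → (e - 1 - o).val < m ∧ ¬ (e - o).val < m := by
    rintro e rfl
    interval_cases m
    · constructor
      · have : (o + (1 : ℕ) - 1 - o : ZMod 4) = 0 := by push_cast; ring
        rw [this]; decide
      · have : (o + (1 : ℕ) - o : ZMod 4) = 1 := by push_cast; ring
        rw [this]; decide
    · constructor
      · have : (o + (2 : ℕ) - 1 - o : ZMod 4) = 1 := by push_cast; ring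
        rw [this]; decide
      · have : (o + (2 : ℕ) - o : ZMod 4) = 2 := by push_cast; ring
        rw [this]; decide
    · constructor
      · have : (o + (3 : ℕ) - 1 - o : ZMod 4) = 2 := by push_cast; ring
        rw [this]; decide
      · have : (o + (3 : ℕ) - o : ZMod 4) = 3 := by push_cast; ring
        rw [this]; decide
  rcases k4 (o + (m : ZMod 4)) with he | he | he | he <;> rw [he] at ha ⊢ <;>
    obtain ⟨hqa, hqb⟩ := hq0 _ he.symm
  · obtain ⟨x, h1, h2, rfl⟩ := mem_wIn0.mp ha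
    refine ⟨(x, v.2 - 1), ?_, rfl, ?_, ?_⟩
    · rw [mem_Wdg]
      have hq : quad v (x, v.2 - 1) = 0 - 1 := by
        unfold quad; rw [if_pos (by simpa using h1), if_neg (by simp)]; rfl
      rw [hq]
      refine ⟨?_, hqa⟩
      simp only; omega
    · change nb (x, v.2 - 1) 2 ∈ Bx v r
      rw [nb2, mem_Bx]; simp only; omega
    · change nb (x, v.2 - 1) 2 ∉ Wdg m o v r
      rw [nb2, mem_Wdg]
      have hq : quad v (x, v.2 - 1 + 1) = 0 := by
        unfold quad; rw [if_pos (by simpa using h1), if_pos (by simp)]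
      simp only
      rw [hq]
      exact fun h => hqb h.2
  · obtain ⟨y, h1, h2, rfl⟩ := mem_wIn1.mp ha
    refine ⟨(v.1, y), ?_, rfl, ?_, ?_⟩
    · rw [mem_Wdg]
      have hq : quad v (v.1, y) = 1 - 1 := by
        unfold quad; rw [if_pos (by simp), if_pos (by simpa using h1)]; rfl
      rw [hq]
      refine ⟨?_, hqa⟩
      simp only; omega
    · change nb (v.1, y) 3 ∈ Bx v r
      rw [nb3, mem_Bx]; simp only; omega
    · change nb (v.1, y) 3 ∉ Wdg m o v r
      rw [nb3, mem_Wdg]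
      have hq : quad v (v.1 - 1, y) = 1 := by
        unfold quad; rw [if_neg (by simp), if_pos (by simpa using h1)]
      simp only
      rw [hq]
      exact fun h => hqb h.2
  · obtain ⟨x, h1, h2, rfl⟩ := mem_wIn2.mp ha
    refine ⟨(x, v.2), ?_, rfl, ?_, ?_⟩
    · rw [mem_Wdg]
      have hq : quad v (x, v.2) = 2 - 1 := by
        unfold quad; rw [if_neg (by simpa using h2), if_pos (by simp)]; rfl
      rw [hq]
      refine ⟨?_, hqa⟩
      simp only; omega
    · change nb (x, v.2) 0 ∈ Bx v r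
      rw [nb0, mem_Bx]; simp only; omega
    · change nb (x, v.2) 0 ∉ Wdg m o v r
      rw [nb0, mem_Wdg]
      have hq : quad v (x, v.2 - 1) = 2 := by
        unfold quad; rw [if_neg (by simpa using h2), if_neg (by simp)]
      simp only
      rw [hq]
      exact fun h => hqb h.2
  · obtain ⟨y, h1, h2, rfl⟩ := mem_wIn3.mp ha
    refine ⟨(v.1 - 1, y), ?_, rfl, ?_, ?_⟩
    · rw [mem_Wdg]
      have hq : quad v (v.1 - 1, y) = 3 - 1 := by
        unfold quad; rw [if_neg (by simp), if_neg (by simpa using h2)]; rfl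
      rw [hq]
      refine ⟨?_, hqa⟩
      simp only; omega
    · change nb (v.1 - 1, y) 1 ∈ Bx v r
      rw [nb1, mem_Bx]; simp only; omega
    · change nb (v.1 - 1, y) 1 ∉ Wdg m o v r
      rw [nb1, mem_Wdg]
      have hq : quad v (v.1 - 1 + 1, y) = 3 := by
        unfold quad; rw [if_pos (by simp), if_neg (by simpa using h2)]
      simp only
      rw [hq]
      exact fun h => hqb h.2

end plane

/-! ## Charts of the base sheet -/

variable {E : SEnv} {m : ℕ} {o : ZMod 4} {v f : ℤ × ℤ} {r ρ : ℕ} {a : (ℤ × ℤ) × (ℤ × ℤ)} {k : ZMod 4}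

/-- In the box of radius `r` around `v` the complement of the blocks is the wedge, no mouth of a pocket. -/
structure LocW (E : SEnv) (m : ℕ) (o : ZMod 4) (v : ℤ × ℤ) (r : ℕ) : Prop where
  thk : Thk E
  m1 : 1 ≤ m
  m3 : m ≤ 3
  win : ∀ f ∈ Bx v r, f ∈ E.W
  loc : ∀ f ∈ Bx v r, (¬ E.gu.solid true f ∧ ¬ E.gd.solid false f) ↔ f ∈ Wdg m o v r
  mo : ∀ f ∈ Wdg m o v r, ∀ k, ¬ upM E f k ∧ ¬ loM E f k

theorem LocW.base (h : LocW E m o v r) (hf : f ∈ Wdg m o v r) : f ∈ E.base :=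
  mem_base.mpr ⟨h.win f (Wdg_sub_Bx hf), (h.loc f (Wdg_sub_Bx hf)).mpr hf⟩

theorem LocW.solid (h : LocW E m o v r) (hf : f ∈ Bx v r) (hf' : f ∉ Wdg m o v r) :
    E.gu.solid true f ∨ E.gd.solid false f := by
  by_contra hcon
  push Not at hcon
  exact hf' ((h.loc f hf).mp hcon)

theorem LocW.mono (h : LocW E m o v r) (hρ : ρ ≤ r) : LocW E m o v ρ where
  thk := h.thk
  m1 := h.m1
  m3 := h.m3
  win f hf := h.win f (by rw [mem_Bx] at hf ⊢; omega)
  loc f hf := by
    have hb : f ∈ Bx v r := by rw [mem_Bx] at hf ⊢; omega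
    rw [h.loc f hb, mem_Wdg, mem_Wdg]
    rw [mem_Bx] at hf hb
    exact ⟨fun h1 => ⟨hf, h1.2⟩, fun h1 => ⟨hb, h1.2⟩⟩
  mo f hf := h.mo f (Wdg_mono hρ hf)

theorem LocW.sd_Z (h : LocW E m o v r) (hf : f ∈ Wdg m o v r) (hb : nb f k ∈ Bx v r)
    (hn : nb f k ∉ Wdg m o v r) : sd E.Q (none, f) k ∈ E.Z :=
  (base_Z h.thk (h.base hf) k).mpr ⟨h.solid hb hn, fun h1 => (h.mo f hf k).1 h1.1,
    fun h1 => (h.mo f hf k).2 h1.1⟩

/-- the faces of the wedge as a chart -/
def LocW.pch (h : LocW E m o v r) : PChart E.Q E.F (Wdg m o v r) :=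
  baseP h.thk (Finset.Subset.refl _) _ fun _ hf => mem_F_none.mpr (h.base hf)

theorem LocW.pch_side (h : LocW E m o v r) (hf : f ∈ Wdg m o v r) (k : ZMod 4) :
    h.pch.side (sd ZQ f k) = sd E.Q (none, f) k := baseP_side _ _ _ _ (h.base hf)

theorem LocW.out_Z (h : LocW E m o v r) (ha : a ∈ wOut o v r) : h.pch.side a ∈ E.Z := by
  obtain ⟨f, hf, rfl, h1, h2⟩ := wOut_nb h.m1 h.m3 ha
  rw [h.pch_side hf]
  exact h.sd_Z hf h1 h2

theorem LocW.in_Z (h : LocW E m o v r) (ha : a ∈ wIn (o + m) v r) : h.pch.side a ∈ E.Z := by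
  obtain ⟨f, hf, rfl, h1, h2⟩ := wIn_nb h.m1 h.m3 ha
  rw [h.pch_side hf]
  exact h.sd_Z hf h1 h2

/-- **The chart of a wedge of the base sheet.** -/
def LocW.chart (h : LocW E m o v r) : WChart E.Q E.F m o v r where
  toPChart := h.pch
  bIn _ ha := (mem_Z.mp (h.in_Z ha)).1
  bOut _ ha := (mem_Z.mp (h.out_Z ha)).1

theorem LocW.chart_φF (h : LocW E m o v r) (f : ℤ × ℤ) : h.chart.φF f = (none, f) := rfl

theorem LocW.chart_side (h : LocW E m o v r) (a : (ℤ × ℤ) × (ℤ × ℤ)) :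
    h.chart.side a = ((none, a.1), (none, a.2)) := rfl

theorem LocW.box (h : LocW E m o v r) (ρ : ℕ) :
    h.chart.box ρ = (Wdg m o v ρ).image fun f => (none, f) := rfl

theorem LocW.walls_Z (h : LocW E m o v r) (hρ : ρ ≤ r) : h.chart.walls ρ ⊆ E.Z := by
  intro a ha
  unfold WChart.walls at ha
  rw [Finset.mem_image] at ha
  obtain ⟨b, hb, rfl⟩ := ha
  rcases Finset.mem_union.mp hb with hb | hb
  · exact h.in_Z (wIn_mono hρ hb)
  · exact h.out_Z (wOut_mono hρ hb)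

theorem LocW.mem_walls (h : LocW E m o v r) {s : (Option Bool × (ℤ × ℤ)) × (Option Bool × (ℤ × ℤ))} :
    s ∈ h.chart.walls ρ ↔ ∃ a, (a ∈ wIn (o + m) v ρ ∨ a ∈ wOut o v ρ) ∧
      s = ((none, a.1), (none, a.2)) := by
  unfold WChart.walls
  rw [Finset.mem_image]
  constructor
  · rintro ⟨b, hb, rfl⟩
    exact ⟨b, Finset.mem_union.mp hb, rfl⟩
  · rintro ⟨b, hb, rfl⟩
    exact ⟨b, Finset.mem_union.mpr hb, rfl⟩

variable {J mu ρu ml ρl p q : ℝ} {ψu ψl : (ℤ × ℤ) × (ℤ × ℤ) → ℝ}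

/-- jump at the upper block -/
theorem LocW.jump_up (h : LocW E m o v r) (hlow : E.gu.yc ≤ v.2 - r)
    (hp : ∀ a ∈ wIn (o + m) v r, E.gu.ph true mu ρu a = p)
    (hq : ∀ a ∈ wOut o v r, E.gu.ph true mu ρu a = q)
    (hJ : q - p + ((2 : ℝ) - m) * (Real.pi / 12) = J) :
    h.chart.Jump (E.psi mu ρu ml ρl ψu ψl) J := by
  have key : ∀ f ∈ Wdg m o v r, ∀ k, E.psi mu ρu ml ρl ψu ψl (h.pch.side (sd ZQ f k)) =
      E.gu.ph true mu ρu (sd ZQ f k) := by
    intro f hf k
    rw [h.pch_side hf]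
    refine psi_up h.thk (h.base hf) ?_ k
    rw [mem_Wdg] at hf
    omega
  refine ⟨p, q, fun a ha => ?_, fun a ha => ?_, hJ⟩
  · rw [← hp a ha]
    obtain ⟨f, hf, rfl, -, -⟩ := wIn_nb h.m1 h.m3 ha
    exact key f hf _
  · rw [← hq a ha]
    obtain ⟨f, hf, rfl, -, -⟩ := wOut_nb h.m1 h.m3 ha
    exact key f hf _

/-- jump at the lower block -/
theorem LocW.jump_lo (h : LocW E m o v r) (hhi : v.2 + r ≤ E.gu.yc) (hr : 0 < r)
    (hp : ∀ a ∈ wIn (o + m) v r, E.gd.ph false ml ρl a = p)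
    (hq : ∀ a ∈ wOut o v r, E.gd.ph false ml ρl a = q)
    (hJ : q - p + ((2 : ℝ) - m) * (Real.pi / 12) = J) :
    h.chart.Jump (E.psi mu ρu ml ρl ψu ψl) J := by
  have key : ∀ f ∈ Wdg m o v r, ∀ k, (k = 2 → f.2 + 1 < E.gu.yc) →
      E.psi mu ρu ml ρl ψu ψl (h.pch.side (sd ZQ f k)) = E.gd.ph false ml ρl (sd ZQ f k) := by
    intro f hf k hk
    rw [h.pch_side hf]
    by_cases h2 : k = 2
    · subst h2
      exact psi_lo2 h.thk (h.base hf) (hk rfl)
    · refine psi_lo h.thk (h.base hf) ?_ h2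
      rw [mem_Wdg] at hf
      omega
  refine ⟨p, q, fun a ha => ?_, fun a ha => ?_, hJ⟩
  · rw [← hp a ha]
    obtain ⟨f, hf, h1, -, -⟩ := wIn_nb h.m1 h.m3 ha
    rw [h1]
    refine key f hf _ fun h2 => ?_
    have h3 : o + (m : ZMod 4) = 0 := by
      have : o + (m : ZMod 4) + 2 - 2 = 2 - 2 := by rw [h2]
      rwa [add_sub_cancel_right, sub_self] at this
    rw [h2] at h1
    rw [h3, mem_wIn0] at ha
    obtain ⟨x, -, -, h4⟩ := ha
    rw [h1, sd2, sd2] at h4
    have := (Prod.mk.inj (Prod.mk.inj h4).1).2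
    simp only at this
    omega
  · rw [← hq a ha]
    obtain ⟨f, hf, h1, -, -⟩ := wOut_nb h.m1 h.m3 ha
    rw [h1]
    refine key f hf _ fun h2 => ?_
    rw [h2] at h1
    rw [h2, mem_wOut2] at ha
    obtain ⟨x, -, -, h4⟩ := ha
    rw [h1, sd2, sd2] at h4
    have := (Prod.mk.inj (Prod.mk.inj h4).1).2
    simp only at this
    omega

/-! ## The two blocks -/

theorem solid_up : E.gu.solid true f ↔ (E.gu.a ≤ f.2 - E.gu.yc ∧ f.2 - E.gu.yc < E.gu.c) ∧
    (E.gu.x1 - 7 * E.gu.k ≤ f.1 ∧ f.1 < E.gu.x2 + 7 * E.gu.k) ∧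
      ¬ (E.gu.cham f.1 ∧ f.2 - E.gu.yc < E.gu.b) := by
  unfold BGeo.solid BGeo.hgt
  rw [if_pos rfl]
  tauto

theorem solid_lo : E.gd.solid false f ↔
    (E.gd.a ≤ E.gd.yc - 1 - f.2 ∧ E.gd.yc - 1 - f.2 < E.gd.c) ∧
    (E.gd.x1 - 7 * E.gd.k ≤ f.1 ∧ f.1 < E.gd.x2 + 7 * E.gd.k) ∧
      ¬ (E.gd.cham f.1 ∧ E.gd.yc - 1 - f.2 < E.gd.b) := by
  unfold BGeo.solid BGeo.hgt
  rw [if_neg (by decide)]
  tauto

/-- local description at the upper block -/
theorem locW_up (hE : Thk E) (hyc : E.gd.yc = E.gu.yc) (ha : 0 < E.gd.a) (hm : 1 ≤ m ∧ m ≤ 3)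
    (hW : ∀ f ∈ Bx v r, f ∈ E.W) (hlow : E.gu.yc ≤ v.2 - r)
    (hloc : ∀ f ∈ Bx v r, ¬ E.gu.solid true f ↔ f ∈ Wdg m o v r)
    (hmo : ∀ f ∈ Wdg m o v r, ¬ upM E f 2) : LocW E m o v r where
  thk := hE
  m1 := hm.1
  m3 := hm.2
  win := hW
  loc f hf := by
    rw [← hloc f hf]
    rw [mem_Bx] at hf
    rw [solid_lo]
    constructor
    · exact fun h => h.1
    · exact fun h => ⟨h, by omega⟩
  mo f hf k := by
    constructor
    · intro h
      have hk := h.1
      subst hk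
      exact hmo f hf h
    · rintro ⟨-, -, h⟩
      rw [mem_Wdg] at hf
      omega

/-- local description at the lower block -/
theorem locW_lo (hE : Thk E) (ha : 0 < E.gu.a) (hm : 1 ≤ m ∧ m ≤ 3)
    (hW : ∀ f ∈ Bx v r, f ∈ E.W) (hhi : v.2 + r ≤ E.gu.yc)
    (hloc : ∀ f ∈ Bx v r, ¬ E.gd.solid false f ↔ f ∈ Wdg m o v r)
    (hmo : ∀ f ∈ Wdg m o v r, ¬ loM E f 0) : LocW E m o v r where
  thk := hE
  m1 := hm.1
  m3 := hm.2
  win := hW
  loc f hf := by
    rw [← hloc f hf]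
    rw [mem_Bx] at hf
    rw [solid_up]
    constructor
    · exact fun h => h.2
    · exact fun h => ⟨by omega, h⟩
  mo f hf k := by
    constructor
    · rintro ⟨-, -, h⟩
      rw [mem_Wdg] at hf
      omega
    · intro h
      have hk := h.1
      subst hk
      exact hmo f hf h

end

end Pool.Agent.SixB.BlkW
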