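import Pool.Agent.Lib.SixB.S3PathV
import Pool.Agent.Lib.SixB.S3BlkT
import Pool.Agent.Lib.SixB.S3BlkW

/-!
# 6BD step 3, row R7: assembling the atlas of a block

* `PAV.iUnion`: union of natural partial atlases over a finite set.
* `Asm.BD`: the data of a block: the contour (positions `v`, directions `o`, lengths `l`, `mT` quadrants, jumps `J`),
  the local descriptions `LocW` at 24 vertices, the charts at the two corners of the mouth (numbers `12`, `13`) and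
  the local descriptions of the walls.
* `Asm.BD.pav`: the partial atlas of the block.
-/

set_option autoImplicit false
set_option linter.unusedSectionVars false

namespace Pool.Agent.SixB

open Pool.Agent.Perc.Q Pool.Agent.Perc

noncomputable section

section iun

variable {V Φ : Type} [DecidableEq V] [DecidableEq Φ] {Q : QC V Φ} {F : Finset Φ} {ψ : V × V → ℝ}
  {Z : Finset (V × V)} {r : ℕ} {t₀ : ℝ} {N2 G : Set Φ}

theorem PAV.iUnion {S : Type} [DecidableEq S] (s : Finset S) (C : S → Finset (V × V)) (n : S → ℕ)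
    (h : ∀ i ∈ s, PAV Q F ψ Z (C i) r (n i) t₀ ∅ ∅ N2 G 0) :
    PAV Q F ψ Z (s.biUnion C) r (∑ i ∈ s, n i) t₀ ∅ ∅ N2 G 0 := by
  induction s using Finset.induction_on with
  | empty =>
    exact PAV.empty.mono (by simp) (by simp) (Set.Subset.refl _) (Set.Subset.refl _)
      (Set.empty_subset _) (Set.empty_subset _)
  | insert i s hi ih =>
    have h1 := (h i (Finset.mem_insert_self _ _)).union
      (ih fun j hj => h j (Finset.mem_insert_of_mem hj)) (by simp) (by simp) (by simp)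
    have h2 := h1.mono (C' := (insert i s).biUnion C) (by rw [Finset.biUnion_insert])
      (nN' := ∑ j ∈ insert i s, n j) (by rw [Finset.sum_insert hi]) (S4' := ∅) (by simp)
      (S1' := ∅) (by simp) (N2' := N2) (by simp) (G' := G) (by simp)
    simpa using h2

end iun

namespace Asm

open EnvB BlkW BlkT

variable {E : SEnv} {r : ℕ} {ψ : (Option Bool × (ℤ × ℤ)) × (Option Bool × (ℤ × ℤ)) → ℝ} {t₀ : ℝ}

/-- image of a planar side in the base sheet -/
def bsd (a : (ℤ × ℤ) × (ℤ × ℤ)) : (Option Bool × (ℤ × ℤ)) × (Option Bool × (ℤ × ℤ)) :=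
  ((none, a.1), (none, a.2))

/-- the data of a block -/
structure BD (E : SEnv) (r : ℕ) (ψ : (Option Bool × (ℤ × ℤ)) × (Option Bool × (ℤ × ℤ)) → ℝ) where
  o : Fin 26 → ZMod 4
  v : Fin 26 → ℤ × ℤ
  l : Fin 26 → ℤ
  J : Fin 26 → ℝ
  r0 : 0 < r
  hl : ∀ i, i ≠ 12 → 8 * (r : ℤ) ≤ l i
  sep : ∀ i j, i ≠ j → 8 * (r : ℤ) ≤ |(v i).1 - (v j).1| ∨ 8 * (r : ℤ) ≤ |(v i).2 - (v j).2|
  far : ∀ i, i ≠ 12 → ∀ t : ℤ, 3 * (r : ℤ) ≤ t → t + 3 * r ≤ l i → ∀ j,
    3 * (r : ℤ) ≤ |(v j).1 - (v i + t • dz (o i)).1| ∨ 3 * (r : ℤ) ≤ |(v j).2 - (v i + t • dz (o i)).2|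
  nxt : ∀ i, i ≠ 12 → v (i + 1) = v i + l i • dz (o i)
  onx : ∀ i, i ≠ 12 → o (i + 1) + (mT (i + 1) : ZMod 4) = o i + 2
  sp : ∀ i, i ≠ 12 → i ≠ 13 → LocW E (mT i) (o i) (v i) (4 * r + 1)
  spj : ∀ i h1 h2, (sp i h1 h2).chart.Jump ψ (J i)
  c12 : WChart E.Q E.F (mT 12) (o 12) (v 12) (4 * r + 1)
  c13 : WChart E.Q E.F (mT 13) (o 13) (v 13) (4 * r + 1)
  j12 : c12.Jump ψ (J 12)
  j13 : c13.Jump ψ (J 13)
  z12 : c12.walls (4 * r) ⊆ E.Z
  z13 : c13.walls (4 * r) ⊆ E.Z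
  f12 : ∀ f, (c12.φF f).2 = f
  f13 : ∀ f, (c13.φF f).2 = f
  in12 : ∀ a ∈ wIn (o 12 + (mT 12 : ZMod 4)) (v 12) (2 * r), c12.side a = bsd a
  out13 : ∀ a ∈ wOut (o 13) (v 13) (2 * r), c13.side a = bsd a
  sg : ∀ i, i ≠ 12 → ∀ t : ℤ, 3 * (r : ℤ) ≤ t → t + 3 * r ≤ l i →
    LocW E 2 (o i) (v i + t • dz (o i)) (2 * r + 1)
  sgj : ∀ i h1 t h2 h3, (sg i h1 t h2 h3).chart.Jump ψ 0

namespace BD

variable (D : BD E r ψ)

/-- the special charts -/
def ch (i : Fin 26) : WChart E.Q E.F (mT i) (D.o i) (D.v i) (4 * r + 1) :=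
  if h12 : i = 12 then h12 ▸ D.c12 else if h13 : i = 13 then h13 ▸ D.c13 else (D.sp i h12 h13).chart

theorem ch12 : D.ch 12 = D.c12 := by
  unfold ch
  rw [dif_pos rfl]

theorem ch13 : D.ch 13 = D.c13 := by
  unfold ch
  rw [dif_neg (by decide), dif_pos rfl]

theorem ch_eq {i : Fin 26} (h1 : i ≠ 12) (h2 : i ≠ 13) : D.ch i = (D.sp i h1 h2).chart := by
  unfold ch
  rw [dif_neg h1, dif_neg h2]

theorem ch_jump (i : Fin 26) : (D.ch i).Jump ψ (D.J i) := by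
  by_cases h1 : i = 12
  · subst h1
    rw [ch12]
    exact D.j12
  by_cases h2 : i = 13
  · subst h2
    rw [ch13]
    exact D.j13
  rw [D.ch_eq h1 h2]
  exact D.spj i h1 h2

theorem ch_Z (i : Fin 26) : (D.ch i).walls (4 * r) ⊆ E.Z := by
  by_cases h1 : i = 12
  · subst h1
    rw [ch12]
    exact D.z12
  by_cases h2 : i = 13
  · subst h2
    rw [ch13]
    exact D.z13
  rw [D.ch_eq h1 h2]
  exact (D.sp i h1 h2).walls_Z (by omega)

theorem ch_F (i : Fin 26) (f : ℤ × ℤ) : ((D.ch i).φF f).2 = f := by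
  by_cases h1 : i = 12
  · subst h1
    rw [ch12]
    exact D.f12 f
  by_cases h2 : i = 13
  · subst h2
    rw [ch13]
    exact D.f13 f
  rw [D.ch_eq h1 h2]
  rfl

theorem ch_out {i : Fin 26} (h1 : i ≠ 12) {a : (ℤ × ℤ) × (ℤ × ℤ)}
    (ha : a ∈ wOut (D.o i) (D.v i) (2 * r)) : (D.ch i).side a = bsd a := by
  by_cases h2 : i = 13
  · subst h2
    rw [ch13]
    exact D.out13 a ha
  rw [D.ch_eq h1 h2]
  rfl

theorem ch_in {i : Fin 26} (h2 : i ≠ 13) {a : (ℤ × ℤ) × (ℤ × ℤ)}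
    (ha : a ∈ wIn (D.o i + (mT i : ZMod 4)) (D.v i) (2 * r)) : (D.ch i).side a = bsd a := by
  by_cases h1 : i = 12
  · subst h1
    rw [ch12]
    exact D.in12 a ha
  rw [D.ch_eq h1 h2]
  rfl

theorem ch_reg (i : Fin 26) {ρ : ℕ} {S : Set (ℤ × ℤ)} (h : ∀ f ∈ Wdg (mT i) (D.o i) (D.v i) ρ, f ∈ S) :
    ∀ f ∈ Wdg (mT i) (D.o i) (D.v i) ρ, (D.ch i).φF f ∈
      {x | x.1 = none ∧ x.2 ∈ S} ∪ (D.c12.box ρ : Set _) ∪ (D.c13.box ρ : Set _) := by
  intro f hf
  by_cases h1 : i = 12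
  · subst h1
    rw [ch12]
    exact Or.inl (Or.inr (Finset.mem_coe.2 (Finset.mem_image_of_mem _ hf)))
  by_cases h2 : i = 13
  · subst h2
    rw [ch13]
    exact Or.inr (Finset.mem_coe.2 (Finset.mem_image_of_mem _ hf))
  rw [D.ch_eq h1 h2]
  exact Or.inl (Or.inl ⟨rfl, h f hf⟩)

theorem sub_Bx {m : ℕ} {o : ZMod 4} {v : ℤ × ℤ} {ρ : ℕ} {f : ℤ × ℤ} (hf : f ∈ Wdg m o v ρ) :
    f ∈ Bx v ρ := Wdg_sub_Bx hf

theorem bx_disj {v w f : ℤ × ℤ} {ρ : ℕ} (h : 2 * (ρ : ℤ) ≤ |v.1 - w.1| ∨ 2 * (ρ : ℤ) ≤ |v.2 - w.2|)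
    (hf : f ∈ Bx v ρ) (hf' : f ∈ Bx w ρ) : False := by
  rw [mem_Bx] at hf hf'
  rcases h with h | h <;> rw [le_abs] at h <;> omega

theorem bx_disj3 {v w f : ℤ × ℤ} (hr : 0 < r) (h : 3 * (r : ℤ) ≤ |v.1 - w.1| ∨ 3 * (r : ℤ) ≤ |v.2 - w.2|)
    (hf : f ∈ Bx v r) (hf' : f ∈ Bx w (2 * r)) : False := by
  rw [mem_Bx] at hf hf'
  push_cast at hf'
  rcases h with h | h <;> rw [le_abs] at h <;> omega

/-- the special part -/
theorem spec (ht : ∀ i, t₀ ≤ tJ (D.J i) ∨ (D.J i = -(Real.pi / 3) ∧ mT i = 2)) {G0 : Set (ℤ × ℤ)}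
    (hG : ∀ i, ∀ f ∈ Bx (D.v i) (4 * r + 1), f ∈ G0) :
    PAV E.Q E.F ψ E.Z (Finset.univ.biUnion fun i => (D.ch i).walls (2 * r)) r 0 t₀
      ({x | x.1 = none} ∪ (D.c12.box (4 * r) : Set _) ∪ (D.c13.box (4 * r) : Set _))
      ({x | ∃ i, x.2 ∈ Bx (D.v i) r} ∩
        ({x | x.1 = none} ∪ (D.c12.box r : Set _) ∪ (D.c13.box r : Set _))) ∅
      ({x | x.1 = none ∧ x.2 ∈ G0} ∪ (D.c12.box (4 * r + 1) : Set _) ∪
        (D.c13.box (4 * r + 1) : Set _))
      ((Finset.univ : Finset (Fin 26)).val.map fun i => (SK.ver (D.J i), mT i)) := by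
  have hm : ∀ i : Fin 26, 1 ≤ mT i ∧ mT i ≤ 3 := by decide
  refine PAV.fam (fun i => SK.ver (D.J i)) mT D.o D.v D.ch hm (fun i => D.ch_jump i)
    (fun i J hJ => ?_) (fun i j hij => ?_) (fun i => D.ch_Z i) (fun a ha => ?_) (fun i x hx => ?_)
    (fun i x hx => ?_) (fun i f hf => ?_) rfl
  · have e : D.J i = J := SK.ver.inj hJ
    rw [← e]
    exact ht i
  · rw [Finset.disjoint_left]
    intro x hx hx'
    unfold WChart.box at hx hx'
    rw [Finset.mem_image] at hx hx'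
    obtain ⟨f, hf, rfl⟩ := hx
    obtain ⟨g, hg, h1⟩ := hx'
    have h2 : g = f := by
      have := congrArg Prod.snd h1
      rwa [D.ch_F, D.ch_F] at this
    subst h2
    refine bx_disj (ρ := 4 * r) ?_ (sub_Bx hf) (sub_Bx hg)
    have := D.sep i j hij
    push_cast
    rcases this with h3 | h3
    · left; linarith
    · right; linarith
  · rw [Finset.mem_biUnion] at ha
    obtain ⟨i, -, hi⟩ := ha
    exact ⟨i, hi⟩
  · unfold WChart.box at hx
    rw [Finset.mem_image] at hx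
    obtain ⟨f, hf, rfl⟩ := hx
    rcases D.ch_reg i (S := Set.univ) (fun _ _ => trivial) f hf with (h | h) | h
    · exact Or.inl (Or.inl h.1)
    · exact Or.inl (Or.inr h)
    · exact Or.inr h
  · unfold WChart.box at hx
    rw [Finset.mem_image] at hx
    obtain ⟨f, hf, rfl⟩ := hx
    refine ⟨⟨i, ?_⟩, ?_⟩
    · rw [D.ch_F]
      exact sub_Bx hf
    · rcases D.ch_reg i (S := Set.univ) (fun _ _ => trivial) f hf with (h | h) | h
      · exact Or.inl (Or.inl h.1)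
      · exact Or.inl (Or.inr h)
      · exact Or.inr h
  · exact D.ch_reg i (fun f hf => hG i f (sub_Bx hf)) f hf

/-- the covered part of the wall number `i` -/
def segC (i : Fin 26) : Finset ((Option Bool × (ℤ × ℤ)) × (Option Bool × (ℤ × ℤ))) :=
  (Finset.Ico (3 * (r : ℤ) - r) (D.l i - 3 * r + r)).image fun u => bsd (lside (D.o i) (D.v i) u)

/-- the natural part -/
theorem natp {G0 : Set (ℤ × ℤ)} (hG : ∀ i, i ≠ 12 → ∀ t : ℤ, 3 * (r : ℤ) ≤ t → t + 3 * r ≤ D.l i →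
      ∀ f ∈ Bx (D.v i + t • dz (D.o i)) (2 * r + 1), f ∈ G0) :
    PAV E.Q E.F ψ E.Z ((Finset.univ.erase (12 : Fin 26)).biUnion D.segC) r
      (∑ i ∈ Finset.univ.erase (12 : Fin 26), ((D.l i - 3 * r - 3 * r).toNat / (2 * r) + 2)) t₀ ∅ ∅
      {x | x.1 = none ∧ ∀ i, x.2 ∉ Bx (D.v i) r} {x | x.1 = none ∧ x.2 ∈ G0} 0 := by
  refine PAV.iUnion _ _ _ fun i hi => ?_
  have hi : i ≠ 12 := Finset.ne_of_mem_erase hi
  have hl := D.hl i hi
  have hr := D.r0
  refine PAV.segment hr (lo := 3 * (r : ℤ)) (hi := D.l i - 3 * r) (by linarith) bsd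
    (fun t h1 h2 => (D.sg i hi t h1 (by linarith)).chart) (fun t h1 h2 u _ _ => rfl)
    (fun t h1 h2 => D.sgj i hi t h1 (by linarith))
    (fun t h1 h2 => (D.sg i hi t h1 (by linarith)).walls_Z (by omega))
    (fun t h1 h2 x hx => ?_) (fun t h1 h2 f hf => ?_)
  · unfold WChart.box at hx
    rw [Finset.mem_image] at hx
    obtain ⟨f, hf, rfl⟩ := hx
    refine ⟨rfl, fun j hj => ?_⟩
    exact bx_disj3 hr (D.far i hi t h1 (by linarith) j) hj (sub_Bx hf)
  · exact ⟨rfl, hG i hi t h1 (by linarith) f (sub_Bx hf)⟩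

/-- **the partial atlas of a block** -/
theorem pav (ht : ∀ i, t₀ ≤ tJ (D.J i) ∨ (D.J i = -(Real.pi / 3) ∧ mT i = 2)) {G0 : Set (ℤ × ℤ)}
    (hG : ∀ i, ∀ f ∈ Bx (D.v i) (4 * r + 1), f ∈ G0)
    (hG' : ∀ i, i ≠ 12 → ∀ t : ℤ, 3 * (r : ℤ) ≤ t → t + 3 * r ≤ D.l i →
      ∀ f ∈ Bx (D.v i + t • dz (D.o i)) (2 * r + 1), f ∈ G0)
    {C : Finset ((Option Bool × (ℤ × ℤ)) × (Option Bool × (ℤ × ℤ)))}
    (hC : ∀ a ∈ C, (∃ i, i ≠ 12 ∧ ∃ u : ℤ, 0 ≤ u ∧ u < D.l i ∧ a = bsd (lside (D.o i) (D.v i) u)) ∨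
      a ∈ D.c12.walls (2 * r) ∨ a ∈ D.c13.walls (2 * r)) {nB : ℕ}
    (hn : ∑ i ∈ Finset.univ.erase (12 : Fin 26), ((D.l i).toNat / (2 * r) + 2) ≤ nB) :
    PAV E.Q E.F ψ E.Z C r nB t₀
      ({x | x.1 = none} ∪ (D.c12.box (4 * r) : Set _) ∪ (D.c13.box (4 * r) : Set _))
      ({x | x.1 = none} ∪ (D.c12.box r : Set _) ∪ (D.c13.box r : Set _))
      {x | x.1 = none}
      ({x | x.1 = none ∧ x.2 ∈ G0} ∪ (D.c12.box (4 * r + 1) : Set _) ∪
        (D.c13.box (4 * r + 1) : Set _))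
      ((Finset.univ : Finset (Fin 26)).val.map fun i => (SK.ver (D.J i), mT i)) := by
  have h1 := (D.spec ht hG).union (D.natp (t₀ := t₀) hG') (by simp) (by simp) (by
    rw [Set.disjoint_left]
    rintro x ⟨-, h2⟩ ⟨⟨i, h3⟩, -⟩
    exact h2 i h3)
  rw [add_zero] at h1
  refine h1.mono ?_ ?_ ?_ ?_ ?_ ?_
  · intro a ha
    rw [Finset.mem_union, Finset.mem_biUnion, Finset.mem_biUnion]
    rcases hC a ha with ⟨i, hi, u, hu1, hu2, rfl⟩ | h2 | h2
    · have hl := D.hl i hi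
      rcases lt_or_ge u (2 * r) with h3 | h3
      · left
        refine ⟨i, Finset.mem_univ _, ?_⟩
        have h4 : lside (D.o i) (D.v i) u ∈ wOut (D.o i) (D.v i) (2 * r) := by
          have := (mem_wOut_line (o := D.o i) (p := D.v i) (t := 0) (r := 2 * r)
            (a := lside (D.o i) (D.v i) u)).2 ⟨u, hu1, by push_cast; linarith, rfl⟩
          simpa using this
        rw [← D.ch_out hi h4]
        unfold WChart.walls
        exact Finset.mem_image_of_mem _ (Finset.mem_union_right _ h4)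
      · rcases lt_or_ge u (D.l i - 2 * r) with h5 | h5
        · right
          refine ⟨i, Finset.mem_erase.2 ⟨hi, Finset.mem_univ _⟩, ?_⟩
          unfold segC
          exact Finset.mem_image_of_mem (fun u => bsd (lside (D.o i) (D.v i) u))
            (Finset.mem_Ico.2 ⟨by linarith, by linarith⟩)
        · left
          refine ⟨i + 1, Finset.mem_univ _, ?_⟩
          have h6 : i + 1 ≠ 13 := by
            intro h7
            apply hi
            have : i + 1 - 1 = 13 - 1 := by rw [h7]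
            simpa using this
          have h4 : lside (D.o i) (D.v i) u ∈
              wIn (D.o (i + 1) + (mT (i + 1) : ZMod 4)) (D.v (i + 1)) (2 * r) := by
            rw [D.nxt i hi, D.onx i hi]
            exact (mem_wIn_line (o := D.o i) (p := D.v i) (t := D.l i) (r := 2 * r)).2
              ⟨u, by push_cast; linarith, hu2, rfl⟩
          rw [← D.ch_in h6 h4]
          unfold WChart.walls
          exact Finset.mem_image_of_mem _ (Finset.mem_union_left _ h4)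
    · left
      refine ⟨12, Finset.mem_univ _, ?_⟩
      rw [D.ch12]
      exact h2
    · left
      refine ⟨13, Finset.mem_univ _, ?_⟩
      rw [D.ch13]
      exact h2
  · rw [zero_add]
    refine le_trans (Finset.sum_le_sum fun i _ => ?_) hn
    have : (D.l i - 3 * r - 3 * r).toNat ≤ (D.l i).toNat := by omega
    have := Nat.div_le_div_right (c := 2 * r) this
    omega
  · rintro x (h | h)
    · exact h
    · exact absurd h (Set.notMem_empty _)
  · rintro x (h | h)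
    · exact h.2
    · exact absurd h (Set.notMem_empty _)
  · rintro x (h | h)
    · exact absurd h (Set.notMem_empty _)
    · exact h.1
  · rintro x (h | h)
    · exact h
    · exact Or.inl (Or.inl h)

end BD

end Asm

end

end Pool.Agent.SixB
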