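import Pool.Agent.Lib.SixB.S3BlkT
import Pool.Agent.Lib.SixB.S3BlkH

/-!
# 6BD step 3, row R7: the charts of the upper block in the form of the tables

* `spU`, `spU_jump`: the local descriptions at the vertices (off the mouth) and their jumps.
* `sgU`, `sgU_jump`: the local descriptions of the walls and their jumps.
-/

set_option autoImplicit false
set_option linter.unusedSectionVars false

namespace Pool.Agent.SixB.BlkT

open Pool.Agent.Perc.Q Pool.Agent.Perc Pool.Agent.SixB.EnvB Pool.Agent.SixB.BlkW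

noncomputable section

theorem cases26 (i : Fin 26) : i = 0 ∨ i = 1 ∨ i = 2 ∨ i = 3 ∨ i = 4 ∨ i = 5 ∨ i = 6 ∨ i = 7 ∨ i = 8 ∨
    i = 9 ∨ i = 10 ∨ i = 11 ∨ i = 12 ∨ i = 13 ∨ i = 14 ∨ i = 15 ∨ i = 16 ∨ i = 17 ∨ i = 18 ∨ i = 19 ∨
    i = 20 ∨ i = 21 ∨ i = 22 ∨ i = 23 ∨ i = 24 ∨ i = 25 := by
  revert i; decide

theorem jump_cast {E : SEnv} {m : ℕ} {o : ZMod 4} {v v' : ℤ × ℤ} {ρ : ℕ}
    {ψ : (Option Bool × (ℤ × ℤ)) × (Option Bool × (ℤ × ℤ)) → ℝ} {J : ℝ} (e : v = v')
    (h : LocW E m o v ρ) {h' : LocW E m o v' ρ} (hj : h'.chart.Jump ψ J) : h.chart.Jump ψ J := by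
  subst e
  exact hj

variable {E : SEnv} {ρ : ℕ} {mu ρu ml ρl : ℝ} {ψu ψl : (ℤ × ℤ) × (ℤ × ℤ) → ℝ}

/-- **the local descriptions at the vertices of the upper block** -/
theorem spU (h : UpA E ρ) (i : Fin 26) (h1 : i ≠ 12) (h2 : i ≠ 13) :
    LocW E (mT i) (oT i) (vT E.gu i) ρ := by
  rcases cases26 i with rfl | rfl | rfl | rfl | rfl | rfl | rfl | rfl | rfl | rfl | rfl | rfl | rfl | rfl | rfl | rfl | rfl | rfl | rfl | rfl | rfl | rfl | rfl | rfl | rfl | rfl
  · rw [vT0]
    exact h.l1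
  · rw [vT1]
    exact h.l2
  · rw [vT2]
    exact h.l3
  · rw [vT3]
    exact h.l4
  · rw [vT4]
    exact h.l5
  · rw [vT5]
    exact h.l6
  · rw [vT6]
    exact h.l7
  · rw [vT7]
    exact h.l8
  · rw [vT8]
    exact h.l9
  · rw [vT9]
    exact h.l10
  · rw [vT10]
    exact h.l11
  · rw [vT11]
    exact h.l12
  · exact absurd rfl h1
  · exact absurd rfl h2
  · rw [vT14]
    exact h.l15
  · rw [vT15]
    exact h.l16
  · rw [vT16]
    exact h.l17
  · rw [vT17]
    exact h.l18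
  · rw [vT18]
    exact h.l19
  · rw [vT19]
    exact h.l20
  · rw [vT20]
    exact h.l21
  · rw [vT21]
    exact h.l22
  · rw [vT22]
    exact h.l23
  · rw [vT23]
    exact h.l24
  · rw [vT24]
    exact h.l25
  · rw [vT25]
    exact h.l26

theorem spU_jump (h : UpA E ρ) (i : Fin 26) (h1 : i ≠ 12) (h2 : i ≠ 13) :
    (spU h i h1 h2).chart.Jump (E.psi mu ρu ml ρl ψu ψl) (JT mu i) := by
  rcases cases26 i with rfl | rfl | rfl | rfl | rfl | rfl | rfl | rfl | rfl | rfl | rfl | rfl | rfl | rfl | rfl | rfl | rfl | rfl | rfl | rfl | rfl | rfl | rfl | rfl | rfl | rfl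
  · exact jump_cast vT0 _ h.j1
  · exact jump_cast vT1 _ h.j2
  · exact jump_cast vT2 _ h.j3
  · exact jump_cast vT3 _ h.j4
  · exact jump_cast vT4 _ h.j5
  · exact jump_cast vT5 _ h.j6
  · exact jump_cast vT6 _ h.j7
  · exact jump_cast vT7 _ h.j8
  · exact jump_cast vT8 _ h.j9
  · exact jump_cast vT9 _ h.j10
  · exact jump_cast vT10 _ h.j11
  · exact jump_cast vT11 _ h.j12
  · exact absurd rfl h1
  · exact absurd rfl h2
  · exact jump_cast vT14 _ h.j15
  · exact jump_cast vT15 _ h.j16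
  · exact jump_cast vT16 _ h.j17
  · exact jump_cast vT17 _ h.j18
  · exact jump_cast vT18 _ h.j19
  · exact jump_cast vT19 _ h.j20
  · exact jump_cast vT20 _ h.j21
  · exact jump_cast vT21 _ h.j22
  · exact jump_cast vT22 _ h.j23
  · exact jump_cast vT23 _ h.j24
  · exact jump_cast vT24 _ h.j25
  · exact jump_cast vT25 _ h.j26

/-! ### Positions on the walls -/

theorem pU0 {t : ℤ} : vT E.gu 0 + t • dz (oT 0) = (E.gu.x2 + 7 * E.gu.k, E.gu.yc + E.gu.c - t) := by
  rw [vT0, show oT 0 = 3 from rfl, dz3]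
  ext <;> simp <;> ring

theorem pU1 {t : ℤ} : vT E.gu 1 + t • dz (oT 1) = (E.gu.x2 + 7 * E.gu.k - t, E.gu.yc + E.gu.a) := by
  rw [vT1, show oT 1 = 2 from rfl, dz2]
  ext <;> simp <;> ring

theorem pU2 {t : ℤ} : vT E.gu 2 + t • dz (oT 2) = (E.gu.x2 + 6 * E.gu.k, E.gu.yc + E.gu.a + t) := by
  rw [vT2, show oT 2 = 1 from rfl, dz1]
  ext <;> simp <;> ring

theorem pU3 {t : ℤ} : vT E.gu 3 + t • dz (oT 3) = (E.gu.x2 + 6 * E.gu.k - t, E.gu.yc + E.gu.b) := by
  rw [vT3, show oT 3 = 2 from rfl, dz2]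
  ext <;> simp <;> ring

theorem pU4 {t : ℤ} : vT E.gu 4 + t • dz (oT 4) = (E.gu.x2 + 5 * E.gu.k - t, E.gu.yc + E.gu.b) := by
  rw [vT4, show oT 4 = 2 from rfl, dz2]
  ext <;> simp <;> ring

theorem pU5 {t : ℤ} : vT E.gu 5 + t • dz (oT 5) = (E.gu.x2 + 4 * E.gu.k, E.gu.yc + E.gu.b - t) := by
  rw [vT5, show oT 5 = 3 from rfl, dz3]
  ext <;> simp <;> ring

theorem pU6 {t : ℤ} : vT E.gu 6 + t • dz (oT 6) = (E.gu.x2 + 4 * E.gu.k - t, E.gu.yc + E.gu.a) := by
  rw [vT6, show oT 6 = 2 from rfl, dz2]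
  ext <;> simp <;> ring

theorem pU7 {t : ℤ} : vT E.gu 7 + t • dz (oT 7) = (E.gu.x2 + 3 * E.gu.k, E.gu.yc + E.gu.a + t) := by
  rw [vT7, show oT 7 = 1 from rfl, dz1]
  ext <;> simp <;> ring

theorem pU8 {t : ℤ} : vT E.gu 8 + t • dz (oT 8) = (E.gu.x2 + 3 * E.gu.k - t, E.gu.yc + E.gu.b) := by
  rw [vT8, show oT 8 = 2 from rfl, dz2]
  ext <;> simp <;> ring

theorem pU9 {t : ℤ} : vT E.gu 9 + t • dz (oT 9) = (E.gu.x2 + 2 * E.gu.k - t, E.gu.yc + E.gu.b) := by
  rw [vT9, show oT 9 = 2 from rfl, dz2]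
  ext <;> simp <;> ring

theorem pU10 {t : ℤ} : vT E.gu 10 + t • dz (oT 10) = (E.gu.x2 + E.gu.k, E.gu.yc + E.gu.b - t) := by
  rw [vT10, show oT 10 = 3 from rfl, dz3]
  ext <;> simp <;> ring

theorem pU11 {t : ℤ} : vT E.gu 11 + t • dz (oT 11) = (E.gu.x2 + E.gu.k - t, E.gu.yc + E.gu.a) := by
  rw [vT11, show oT 11 = 2 from rfl, dz2]
  ext <;> simp <;> ring

theorem pU13 {t : ℤ} : vT E.gu 13 + t • dz (oT 13) = (E.gu.x1 - t, E.gu.yc + E.gu.a) := by
  rw [vT13, show oT 13 = 2 from rfl, dz2]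
  ext <;> simp <;> ring

theorem pU14 {t : ℤ} : vT E.gu 14 + t • dz (oT 14) = (E.gu.x1 - E.gu.k, E.gu.yc + E.gu.a + t) := by
  rw [vT14, show oT 14 = 1 from rfl, dz1]
  ext <;> simp <;> ring

theorem pU15 {t : ℤ} : vT E.gu 15 + t • dz (oT 15) = (E.gu.x1 - E.gu.k - t, E.gu.yc + E.gu.b) := by
  rw [vT15, show oT 15 = 2 from rfl, dz2]
  ext <;> simp <;> ring

theorem pU16 {t : ℤ} : vT E.gu 16 + t • dz (oT 16) = (E.gu.x1 - 2 * E.gu.k - t, E.gu.yc + E.gu.b) := by
  rw [vT16, show oT 16 = 2 from rfl, dz2]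
  ext <;> simp <;> ring

theorem pU17 {t : ℤ} : vT E.gu 17 + t • dz (oT 17) = (E.gu.x1 - 3 * E.gu.k, E.gu.yc + E.gu.b - t) := by
  rw [vT17, show oT 17 = 3 from rfl, dz3]
  ext <;> simp <;> ring

theorem pU18 {t : ℤ} : vT E.gu 18 + t • dz (oT 18) = (E.gu.x1 - 3 * E.gu.k - t, E.gu.yc + E.gu.a) := by
  rw [vT18, show oT 18 = 2 from rfl, dz2]
  ext <;> simp <;> ring

theorem pU19 {t : ℤ} : vT E.gu 19 + t • dz (oT 19) = (E.gu.x1 - 4 * E.gu.k, E.gu.yc + E.gu.a + t) := by
  rw [vT19, show oT 19 = 1 from rfl, dz1]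
  ext <;> simp <;> ring

theorem pU20 {t : ℤ} : vT E.gu 20 + t • dz (oT 20) = (E.gu.x1 - 4 * E.gu.k - t, E.gu.yc + E.gu.b) := by
  rw [vT20, show oT 20 = 2 from rfl, dz2]
  ext <;> simp <;> ring

theorem pU21 {t : ℤ} : vT E.gu 21 + t • dz (oT 21) = (E.gu.x1 - 5 * E.gu.k - t, E.gu.yc + E.gu.b) := by
  rw [vT21, show oT 21 = 2 from rfl, dz2]
  ext <;> simp <;> ring

theorem pU22 {t : ℤ} : vT E.gu 22 + t • dz (oT 22) = (E.gu.x1 - 6 * E.gu.k, E.gu.yc + E.gu.b - t) := by
  rw [vT22, show oT 22 = 3 from rfl, dz3]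
  ext <;> simp <;> ring

theorem pU23 {t : ℤ} : vT E.gu 23 + t • dz (oT 23) = (E.gu.x1 - 6 * E.gu.k - t, E.gu.yc + E.gu.a) := by
  rw [vT23, show oT 23 = 2 from rfl, dz2]
  ext <;> simp <;> ring

theorem pU24 {t : ℤ} : vT E.gu 24 + t • dz (oT 24) = (E.gu.x1 - 7 * E.gu.k, E.gu.yc + E.gu.a + t) := by
  rw [vT24, show oT 24 = 1 from rfl, dz1]
  ext <;> simp <;> ring

theorem pU25 {t : ℤ} : vT E.gu 25 + t • dz (oT 25) = (E.gu.x1 - 7 * E.gu.k + t, E.gu.yc + E.gu.c) := by
  rw [vT25, show oT 25 = 0 from rfl, dz0]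
  ext <;> simp <;> ring

/-- **the local descriptions of the walls of the upper block** -/
theorem sgU (h : UpA E ρ) (i : Fin 26) (h1 : i ≠ 12) {t : ℤ} (h3 : (ρ : ℤ) ≤ t)
    (h4 : t + ρ ≤ lT E.gu i) : LocW E 2 (oT i) (vT E.gu i + t • dz (oT i)) ρ := by
  have g1 := h.hx
  have g2 := h.rk
  have g3 := h.rb
  have g4 := h.rc
  have g0 := h.r0
  have g5 := h.ra
  rcases cases26 i with rfl | rfl | rfl | rfl | rfl | rfl | rfl | rfl | rfl | rfl | rfl | rfl | rfl | rfl | rfl | rfl | rfl | rfl | rfl | rfl | rfl | rfl | rfl | rfl | rfl | rfl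
  · rw [lT0] at h4
    rw [pU0]
    exact h.wR7 (by omega) (by omega)
  · rw [lT1] at h4
    rw [pU1]
    exact h.t2 (by omega) (by omega)
  · rw [lT2] at h4
    rw [pU2]
    exact h.wR6 (by omega) (by omega)
  · rw [lT3] at h4
    rw [pU3]
    exact h.ceil (by omega)
  · rw [lT4] at h4
    rw [pU4]
    exact h.ceil (by omega)
  · rw [lT5] at h4
    rw [pU5]
    exact h.wR4 (by omega) (by omega)
  · rw [lT6] at h4
    rw [pU6]
    exact h.t7 (by omega) (by omega)
  · rw [lT7] at h4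
    rw [pU7]
    exact h.wR3 (by omega) (by omega)
  · rw [lT8] at h4
    rw [pU8]
    exact h.ceil (by omega)
  · rw [lT9] at h4
    rw [pU9]
    exact h.ceil (by omega)
  · rw [lT10] at h4
    rw [pU10]
    exact h.wR1 (by omega) (by omega)
  · rw [lT11] at h4
    rw [pU11]
    exact h.t12 (by omega) (by omega)
  · exact absurd rfl h1
  · rw [lT13] at h4
    rw [pU13]
    exact h.t14 (by omega) (by omega)
  · rw [lT14] at h4
    rw [pU14]
    exact h.wL1 (by omega) (by omega)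
  · rw [lT15] at h4
    rw [pU15]
    exact h.ceil (by omega)
  · rw [lT16] at h4
    rw [pU16]
    exact h.ceil (by omega)
  · rw [lT17] at h4
    rw [pU17]
    exact h.wL3 (by omega) (by omega)
  · rw [lT18] at h4
    rw [pU18]
    exact h.t19 (by omega) (by omega)
  · rw [lT19] at h4
    rw [pU19]
    exact h.wL4 (by omega) (by omega)
  · rw [lT20] at h4
    rw [pU20]
    exact h.ceil (by omega)
  · rw [lT21] at h4
    rw [pU21]
    exact h.ceil (by omega)
  · rw [lT22] at h4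
    rw [pU22]
    exact h.wL6 (by omega) (by omega)
  · rw [lT23] at h4
    rw [pU23]
    exact h.t24 (by omega) (by omega)
  · rw [lT24] at h4
    rw [pU24]
    exact h.wL7 (by omega) (by omega)
  · rw [lT25] at h4
    rw [pU25]
    exact h.roof (by omega) (by omega)

theorem sgU_jump (h : UpA E ρ) (i : Fin 26) (h1 : i ≠ 12) {t : ℤ} (h3 : (ρ : ℤ) ≤ t)
    (h4 : t + ρ ≤ lT E.gu i) : (sgU h i h1 h3 h4).chart.Jump (E.psi mu ρu ml ρl ψu ψl) 0 := by
  have g1 := h.hx
  have g2 := h.rk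
  have g3 := h.rb
  have g4 := h.rc
  have g0 := h.r0
  have g5 := h.ra
  rcases cases26 i with rfl | rfl | rfl | rfl | rfl | rfl | rfl | rfl | rfl | rfl | rfl | rfl | rfl | rfl | rfl | rfl | rfl | rfl | rfl | rfl | rfl | rfl | rfl | rfl | rfl | rfl
  · have h5 := h4
    rw [lT0] at h5
    have e := pU0 (E := E) (t := t)
    exact UpB.jump23 _ (by rw [e]; simp only; omega)
  · have h5 := h4
    rw [lT1] at h5
    have e := pU1 (E := E) (t := t)
    refine UpB.jump22 _ (by rw [e]; simp only; omega) (c := 0)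
      (c' := 0) (fun z h7 h8 => ?_) (fun z h7 h8 => ?_) (sub_self _)
    · rw [e] at h7 h8
      simp only at h7 h8
      exact Hst0 (by omega) g1
    · rw [e] at h7 h8
      simp only at h7 h8
      exact Hst0 (by omega) g1
  · have h5 := h4
    rw [lT2] at h5
    have e := pU2 (E := E) (t := t)
    exact UpB.jump21 _ (by rw [e]; simp only; omega)
  · have h5 := h4
    rw [lT3] at h5
    have e := pU3 (E := E) (t := t)
    refine UpB.jump22 _ (by rw [e]; simp only; omega) (c := 0)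
      (c' := 0) (fun z h7 h8 => ?_) (fun z h7 h8 => ?_) (sub_self _)
    · rw [e] at h7 h8
      simp only at h7 h8
      exact Hst0 (by omega) g1
    · rw [e] at h7 h8
      simp only at h7 h8
      exact Hst0 (by omega) g1
  · have h5 := h4
    rw [lT4] at h5
    have e := pU4 (E := E) (t := t)
    refine UpB.jump22 _ (by rw [e]; simp only; omega) (c := -BGeo.alpha mu)
      (c' := -BGeo.alpha mu) (fun z h7 h8 => ?_) (fun z h7 h8 => ?_) (sub_self _)
    · rw [e] at h7 h8
      simp only at h7 h8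
      exact Hst1 (by omega) (by omega) g1
    · rw [e] at h7 h8
      simp only at h7 h8
      exact Hst1 (by omega) (by omega) g1
  · have h5 := h4
    rw [lT5] at h5
    have e := pU5 (E := E) (t := t)
    exact UpB.jump23 _ (by rw [e]; simp only; omega)
  · have h5 := h4
    rw [lT6] at h5
    have e := pU6 (E := E) (t := t)
    refine UpB.jump22 _ (by rw [e]; simp only; omega) (c := -BGeo.alpha mu)
      (c' := -BGeo.alpha mu) (fun z h7 h8 => ?_) (fun z h7 h8 => ?_) (sub_self _)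
    · rw [e] at h7 h8
      simp only at h7 h8
      exact Hst1 (by omega) (by omega) g1
    · rw [e] at h7 h8
      simp only at h7 h8
      exact Hst1 (by omega) (by omega) g1
  · have h5 := h4
    rw [lT7] at h5
    have e := pU7 (E := E) (t := t)
    exact UpB.jump21 _ (by rw [e]; simp only; omega)
  · have h5 := h4
    rw [lT8] at h5
    have e := pU8 (E := E) (t := t)
    refine UpB.jump22 _ (by rw [e]; simp only; omega) (c := -BGeo.alpha mu)
      (c' := -BGeo.alpha mu) (fun z h7 h8 => ?_) (fun z h7 h8 => ?_) (sub_self _)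
    · rw [e] at h7 h8
      simp only at h7 h8
      exact Hst1 (by omega) (by omega) g1
    · rw [e] at h7 h8
      simp only at h7 h8
      exact Hst1 (by omega) (by omega) g1
  · have h5 := h4
    rw [lT9] at h5
    have e := pU9 (E := E) (t := t)
    refine UpB.jump22 _ (by rw [e]; simp only; omega) (c := -BGeo.alpha mu - BGeo.sig mu)
      (c' := -BGeo.alpha mu - BGeo.sig mu) (fun z h7 h8 => ?_) (fun z h7 h8 => ?_) (sub_self _)
    · rw [e] at h7 h8
      simp only at h7 h8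
      exact Hst2 (by omega) (by omega) g1
    · rw [e] at h7 h8
      simp only at h7 h8
      exact Hst2 (by omega) (by omega) g1
  · have h5 := h4
    rw [lT10] at h5
    have e := pU10 (E := E) (t := t)
    exact UpB.jump23 _ (by rw [e]; simp only; omega)
  · have h5 := h4
    rw [lT11] at h5
    have e := pU11 (E := E) (t := t)
    refine UpB.jump22 _ (by rw [e]; simp only; omega) (c := -BGeo.alpha mu - BGeo.sig mu)
      (c' := -BGeo.alpha mu - BGeo.sig mu) (fun z h7 h8 => ?_) (fun z h7 h8 => ?_) (sub_self _)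
    · rw [e] at h7 h8
      simp only at h7 h8
      exact Hst2 (by omega) (by omega) g1
    · rw [e] at h7 h8
      simp only at h7 h8
      exact Hst2 (by omega) (by omega) g1
  · exact absurd rfl h1
  · have h5 := h4
    rw [lT13] at h5
    have e := pU13 (E := E) (t := t)
    refine UpB.jump22 _ (by rw [e]; simp only; omega) (c := -BGeo.alpha mu - BGeo.sig mu + mu)
      (c' := -BGeo.alpha mu - BGeo.sig mu + mu) (fun z h7 h8 => ?_) (fun z h7 h8 => ?_) (sub_self _)
    · rw [e] at h7 h8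
      simp only at h7 h8
      exact Hst3 (by omega) (by omega)
    · rw [e] at h7 h8
      simp only at h7 h8
      exact Hst3 (by omega) (by omega)
  · have h5 := h4
    rw [lT14] at h5
    have e := pU14 (E := E) (t := t)
    exact UpB.jump21 _ (by rw [e]; simp only; omega)
  · have h5 := h4
    rw [lT15] at h5
    have e := pU15 (E := E) (t := t)
    refine UpB.jump22 _ (by rw [e]; simp only; omega) (c := -BGeo.alpha mu - BGeo.sig mu + mu)
      (c' := -BGeo.alpha mu - BGeo.sig mu + mu) (fun z h7 h8 => ?_) (fun z h7 h8 => ?_) (sub_self _)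
    · rw [e] at h7 h8
      simp only at h7 h8
      exact Hst3 (by omega) (by omega)
    · rw [e] at h7 h8
      simp only at h7 h8
      exact Hst3 (by omega) (by omega)
  · have h5 := h4
    rw [lT16] at h5
    have e := pU16 (E := E) (t := t)
    refine UpB.jump22 _ (by rw [e]; simp only; omega) (c := -BGeo.alpha mu - 2 * BGeo.sig mu + mu)
      (c' := -BGeo.alpha mu - 2 * BGeo.sig mu + mu) (fun z h7 h8 => ?_) (fun z h7 h8 => ?_) (sub_self _)
    · rw [e] at h7 h8
      simp only at h7 h8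
      exact Hst4 (by omega) (by omega) g1
    · rw [e] at h7 h8
      simp only at h7 h8
      exact Hst4 (by omega) (by omega) g1
  · have h5 := h4
    rw [lT17] at h5
    have e := pU17 (E := E) (t := t)
    exact UpB.jump23 _ (by rw [e]; simp only; omega)
  · have h5 := h4
    rw [lT18] at h5
    have e := pU18 (E := E) (t := t)
    refine UpB.jump22 _ (by rw [e]; simp only; omega) (c := -BGeo.alpha mu - 2 * BGeo.sig mu + mu)
      (c' := -BGeo.alpha mu - 2 * BGeo.sig mu + mu) (fun z h7 h8 => ?_) (fun z h7 h8 => ?_) (sub_self _)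
    · rw [e] at h7 h8
      simp only at h7 h8
      exact Hst4 (by omega) (by omega) g1
    · rw [e] at h7 h8
      simp only at h7 h8
      exact Hst4 (by omega) (by omega) g1
  · have h5 := h4
    rw [lT19] at h5
    have e := pU19 (E := E) (t := t)
    exact UpB.jump21 _ (by rw [e]; simp only; omega)
  · have h5 := h4
    rw [lT20] at h5
    have e := pU20 (E := E) (t := t)
    refine UpB.jump22 _ (by rw [e]; simp only; omega) (c := -BGeo.alpha mu - 2 * BGeo.sig mu + mu)
      (c' := -BGeo.alpha mu - 2 * BGeo.sig mu + mu) (fun z h7 h8 => ?_) (fun z h7 h8 => ?_) (sub_self _)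
    · rw [e] at h7 h8
      simp only at h7 h8
      exact Hst4 (by omega) (by omega) g1
    · rw [e] at h7 h8
      simp only at h7 h8
      exact Hst4 (by omega) (by omega) g1
  · have h5 := h4
    rw [lT21] at h5
    have e := pU21 (E := E) (t := t)
    refine UpB.jump22 _ (by rw [e]; simp only; omega) (c := -2 * BGeo.alpha mu - 2 * BGeo.sig mu + mu)
      (c' := -2 * BGeo.alpha mu - 2 * BGeo.sig mu + mu) (fun z h7 h8 => ?_) (fun z h7 h8 => ?_) (sub_self _)
    · rw [e] at h7 h8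
      simp only at h7 h8
      exact Hst5 (by omega) g1
    · rw [e] at h7 h8
      simp only at h7 h8
      exact Hst5 (by omega) g1
  · have h5 := h4
    rw [lT22] at h5
    have e := pU22 (E := E) (t := t)
    exact UpB.jump23 _ (by rw [e]; simp only; omega)
  · have h5 := h4
    rw [lT23] at h5
    have e := pU23 (E := E) (t := t)
    refine UpB.jump22 _ (by rw [e]; simp only; omega) (c := -2 * BGeo.alpha mu - 2 * BGeo.sig mu + mu)
      (c' := -2 * BGeo.alpha mu - 2 * BGeo.sig mu + mu) (fun z h7 h8 => ?_) (fun z h7 h8 => ?_) (sub_self _)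
    · rw [e] at h7 h8
      simp only at h7 h8
      exact Hst5 (by omega) g1
    · rw [e] at h7 h8
      simp only at h7 h8
      exact Hst5 (by omega) g1
  · have h5 := h4
    rw [lT24] at h5
    have e := pU24 (E := E) (t := t)
    exact UpB.jump21 _ (by rw [e]; simp only; omega)
  · have h5 := h4
    rw [lT25] at h5
    have e := pU25 (E := E) (t := t)
    exact UpB.jump20 _ (by rw [e]; simp only; omega)

end

end Pool.Agent.SixB.BlkT
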