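import Pool.Agent.Lib.SixB.S3BlkAsm
import Pool.Agent.Lib.SixB.S3BlkIU
import Pool.Agent.Lib.SixB.S3BlkS
import Pool.Agent.Lib.SixB.S3Star

/-!
# 6BD step 3, row R7: the atlas of the upper block

* `wcast`: transport of a chart along an equality of centres.
* `tpos_JT`: the weights of the jumps of a block are at least `tB`.
* `bdU`: the data of the upper block; `upPav`: **the partial atlas of the upper block** of any environment;
  regions `RgU`, `GU`, covered sides `CvU`.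
* `upPav_env`: the same for `S.env W X Y`, `S.ph W X Y` with `16 r ≤ S.a`; number of natural charts `nBS S r`.
-/

set_option autoImplicit false
set_option linter.unusedSectionVars false

namespace Pool.Agent.SixB

open Pool.Agent.Perc.Q Pool.Agent.Perc

noncomputable section

/-! ## Casts -/

section cast

variable {V Φ : Type} [DecidableEq V] [DecidableEq Φ] {Q : QC V Φ} {F : Finset Φ} {m m' : ℕ}
  {o o' : ZMod 4} {v v' : ℤ × ℤ} {r : ℕ} {ψ : V × V → ℝ}

/-- the same chart, other expressions of the parameters -/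
def wcast (hm : m' = m) (ho : o' = o) (e : v' = v) (c : WChart Q F m o v r) : WChart Q F m' o' v' r :=
  hm ▸ ho ▸ e ▸ c

variable (hm : m' = m) (ho : o' = o) (e : v' = v)

theorem wcast_side (c : WChart Q F m o v r) : (wcast hm ho e c).side = c.side := by
  subst hm; subst ho; subst e; rfl

theorem wcast_φF (c : WChart Q F m o v r) : (wcast hm ho e c).φF = c.φF := by
  subst hm; subst ho; subst e; rfl

theorem wcast_walls (c : WChart Q F m o v r) (ρ : ℕ) : (wcast hm ho e c).walls ρ = c.walls ρ := by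
  subst hm; subst ho; subst e; rfl

theorem wcast_box (c : WChart Q F m o v r) (ρ : ℕ) : (wcast hm ho e c).box ρ = c.box ρ := by
  subst hm; subst ho; subst e; rfl

theorem wcast_jump {c : WChart Q F m o v r} {J : ℝ} (h : c.Jump ψ J) :
    (wcast hm ho e c).Jump ψ J := by
  subst hm; subst ho; subst e; exact h

end cast

namespace BlkT

open EnvB BlkW Asm St

/-! ## Weights -/

/-- lower bound of the weights of the jumps of a block -/
def tB : ℝ := Real.cos (4 * (Real.pi / 9)) / Real.cos (Real.pi / 6)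

theorem tB_pos : 0 < tB := by
  have hπ := Real.pi_pos
  refine div_pos (Real.cos_pos_of_mem_Ioo ⟨by linarith, by linarith⟩)
    (Real.cos_pos_of_mem_Ioo ⟨by linarith, by linarith⟩)

theorem tJ_ge {J : ℝ} (h1 : -(5 * (Real.pi / 18)) ≤ J) (h2 : J ≤ 2 * (Real.pi / 9)) : tB ≤ tJ J := by
  have hπ := Real.pi_pos
  unfold tB tJ
  refine div_le_div_of_nonneg_right ?_ (Real.cos_pos_of_mem_Ioo ⟨by linarith, by linarith⟩).le
  rw [← Real.cos_abs (J - Real.pi / 6)]
  refine Real.cos_le_cos_of_nonneg_of_le_pi (abs_nonneg _) (by linarith) ?_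
  rw [abs_le]
  constructor <;> linarith

theorem tpos_JT {m : ℝ} (h1 : -(2 * (Real.pi / 3)) ≤ m) (h2 : m ≤ Real.pi) (i : Fin 26) :
    tB ≤ tJ (JT m i) := by
  have hπ := Real.pi_pos
  have a0 : tB ≤ tJ 0 := tJ_ge (by linarith) (by linarith)
  have a1 : tB ≤ tJ (BGeo.out m / 2) := by
    unfold BGeo.out
    exact tJ_ge (by linarith) (by linarith)
  have a2 : tB ≤ tJ (-BGeo.alpha m) := by
    unfold BGeo.alpha
    exact tJ_ge (by linarith) (by linarith)
  have a3 : tB ≤ tJ (-BGeo.sig m) := by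
    unfold BGeo.sig
    exact tJ_ge (by linarith) (by linarith)
  rcases cases26 i with rfl | rfl | rfl | rfl | rfl | rfl | rfl | rfl | rfl | rfl | rfl | rfl | rfl |
    rfl | rfl | rfl | rfl | rfl | rfl | rfl | rfl | rfl | rfl | rfl | rfl | rfl
  · exact a1
  · exact a0
  · exact a0
  · exact a0
  · exact a2
  · exact a0
  · exact a0
  · exact a0
  · exact a0
  · exact a3
  · exact a0
  · exact a0
  · exact a0
  · exact a0
  · exact a0
  · exact a0
  · exact a3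
  · exact a0
  · exact a0
  · exact a0
  · exact a0
  · exact a2
  · exact a0
  · exact a0
  · exact a0
  · exact a1

/-- the types -/
theorem types_JT (m : ℝ) :
    ((Finset.univ : Finset (Fin 26)).val.map fun i => (SK.ver (JT m i), mT i)) = blkV m := by
  rw [Fin.univ_val_map]
  rfl

/-! ## Bounds of the positions -/

section bounds

variable {G : BGeo} {r : ℕ} {i : Fin 26}

/-- a bound of the positions of the contour -/
def InR (G : BGeo) (p : ℤ × ℤ) : Prop :=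
  G.x1 - 7 * G.k ≤ p.1 ∧ p.1 ≤ G.x2 + 7 * G.k ∧ G.yc + G.a ≤ p.2 ∧ p.2 ≤ G.yc + G.c

theorem Dc_le (h : Sz G r) (c : ℕ) (hc : c ≤ 15) : 0 ≤ Dc G c ∧ Dc G c ≤ 14 * G.k + (G.x2 - G.x1) := by
  have e0 : Dc G 0 = 0 := by unfold Dc; simp
  have e1 : Dc G 15 = 14 * G.k + (G.x2 - G.x1) := by unfold Dc; norm_num
  constructor
  · rw [← e0]; exact Dc_mono h (Nat.zero_le _)
  · rw [← e1]; exact Dc_mono h hc

theorem Hc_le (h : Sz G r) (i : Fin 26) : (G.a : ℤ) ≤ Hc G (hiT i) ∧ Hc G (hiT i) ≤ G.c := by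
  have h1 := h.ab
  have h2 := h.bc
  unfold Hc
  split_ifs <;> constructor <;> omega

theorem inR_vT (h : Sz G r) (i : Fin 26) : InR G (vT G i) := by
  obtain ⟨h1, h2⟩ := Dc_le h (ciT i) (ciT_le i)
  obtain ⟨h3, h4⟩ := Hc_le h i
  unfold InR vT
  simp only
  refine ⟨by linarith, by linarith, by linarith, by linarith⟩

theorem inR_seg (h : Sz G r) (hi : i ≠ 12) {t : ℤ} (h1 : 0 ≤ t) (h2 : t ≤ lT G i) :
    InR G (vT G i + t • dz (oT i)) := by
  have h3 := inR_vT h i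
  have h4 := inR_vT h (i + 1)
  rw [vT_next hi] at h4
  unfold InR at h3 h4 ⊢
  rcases zm4_cases (oT i) with ho | ho | ho | ho <;> rw [ho] at h4 ⊢
  · rw [dz0] at h4 ⊢
    simp at h4 ⊢
    omega
  · rw [dz1] at h4 ⊢
    simp at h4 ⊢
    omega
  · rw [dz2] at h4 ⊢
    simp at h4 ⊢
    omega
  · rw [dz3] at h4 ⊢
    simp at h4 ⊢
    omega

/-- the number of natural charts of a block -/
def nBlk (G : BGeo) (r : ℕ) : ℕ :=
  ∑ i ∈ Finset.univ.erase (12 : Fin 26), ((lT G i).toNat / (2 * r) + 2)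

theorem lT_le (h : Sz G r) (i : Fin 26) : lT G i ≤ 14 * G.k + (G.x2 - G.x1) + G.c := by
  have h1 := h.k
  have h2 := h.x
  have h3 := h.ab
  have h4 := h.bc
  unfold lT
  split_ifs <;> omega

theorem nBlk_le (h : Sz G r) :
    nBlk G r ≤ 25 * ((14 * G.k + (G.x2 - G.x1).toNat + G.c) / (2 * r) + 2) := by
  unfold nBlk
  have e : (Finset.univ.erase (12 : Fin 26)).card = 25 := by decide
  refine (Finset.sum_le_card_nsmul _ _ ((14 * G.k + (G.x2 - G.x1).toNat + G.c) / (2 * r) + 2)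
    fun i _ => ?_).trans (by rw [e, smul_eq_mul])
  have h1 := lT_le h i
  have h2 := h.x
  have h3 : (lT G i).toNat ≤ 14 * G.k + (G.x2 - G.x1).toNat + G.c := by omega
  have := Nat.div_le_div_right (c := 2 * r) h3
  omega

end bounds

/-! ## The upper block -/

variable {E : SEnv} {r : ℕ} {mu' ρu ml ρl : ℝ} {ψu ψl : (ℤ × ℤ) × (ℤ × ℤ) → ℝ} {t₀ : ℝ}

theorem upA_mono {ρ : ℕ} (h : UpA E r) (h0 : 0 < ρ) (hρ : ρ ≤ r) : UpA E ρ := by
  have h1 := h.rk
  have h2 := h.rb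
  have h3 := h.rc
  have h4 := h.ra
  exact ⟨⟨h.thk, h.yc, h.au, h.ad, h.hx, h0, by omega, by omega, by omega,
    fun f h5 h6 h7 h8 => h.win f (by omega) (by omega) h7 (by omega)⟩, by omega⟩

/-- the data of the upper block -/
def bdU (h : UpA E (4 * r + 1)) (hs : Sz E.gu r) (hm : UpM E (4 * r + 1))
    (j12 : (cUR h.thk hm).Jump (E.psi mu' ρu ml ρl ψu ψl) 0)
    (j13 : (cUL h.thk hm).Jump (E.psi mu' ρu ml ρl ψu ψl) 0) :
    BD E r (E.psi mu' ρu ml ρl ψu ψl) where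
  o := oT
  v := vT E.gu
  l := lT E.gu
  J := JT mu'
  r0 := hs.r0
  hl i hi := lT_ge hs hi
  sep i j hij := vT_sep hs hij
  far i hi t h1 h2 j := vT_far hs hi h1 h2 j
  nxt i hi := vT_next hi
  onx i hi := tab_next i hi
  sp i h1 h2 := spU h i h1 h2
  spj i h1 h2 := spU_jump h i h1 h2
  c12 := wcast (by decide) (by decide) vT12 (cUR h.thk hm)
  c13 := wcast (by decide) (by decide) vT13 (cUL h.thk hm)
  j12 := wcast_jump _ _ _ j12
  j13 := wcast_jump _ _ _ j13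
  z12 := by rw [wcast_walls]; exact cUR_walls _ _ (by omega)
  z13 := by rw [wcast_walls]; exact cUL_walls _ _ (by omega)
  f12 f := by rw [wcast_φF]; rfl
  f13 f := by rw [wcast_φF]; rfl
  in12 a ha := by
    rw [wcast_side]
    rw [vT12] at ha
    obtain ⟨x, h1, h2, rfl⟩ := mem_wIn0.1 ha
    refine Prod.ext (Prod.ext ?_ rfl) (Prod.ext ?_ rfl)
    · exact if_neg (by rintro ⟨-, h3⟩; simp [sdz2] at h3)
    · exact if_neg (by rintro ⟨-, h3⟩; simp [sdz2] at h3)
  out13 a ha := by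
    rw [wcast_side]
    rw [vT13] at ha
    obtain ⟨x, h1, h2, rfl⟩ := mem_wOut2.1 ha
    refine Prod.ext (Prod.ext ?_ rfl) (Prod.ext ?_ rfl)
    · exact if_neg (by rintro ⟨-, h3⟩; simp [sdz2] at h3)
    · exact if_neg (by rintro ⟨-, h3⟩; simp [sdz2] at h3)
  sg i hi t h1 h2 := sgU (upA_mono h (by omega) (by omega)) i hi
    (by have := hs.r0; push_cast; omega) (by have := hs.r0; push_cast; omega)
  sgj i hi t h1 h2 := sgU_jump (upA_mono h (by omega) (by omega)) i hi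
    (by have := hs.r0; push_cast; omega) (by have := hs.r0; push_cast; omega)

/-! ### The regions -/

/-- sheet none, or the pocket within `ρ` above the upper mouth -/
def RgU (E : SEnv) (ρ : ℕ) : Set (Option Bool × (ℤ × ℤ)) :=
  {x | x.1 = none ∨ (x.1 = some true ∧ (E.gu.x1 ≤ x.2.1 ∧ x.2.1 < E.gu.x2) ∧
    E.gu.yc + E.gu.a ≤ x.2.2 ∧ x.2.2 < E.gu.yc + E.gu.a + ρ)}

/-- the faces of all charts of the upper block -/
def GU (E : SEnv) (ρ : ℕ) : Set (Option Bool × (ℤ × ℤ)) :=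
  {x | (x.1 = none ∧ (E.gu.x1 - 7 * E.gu.k - ρ ≤ x.2.1 ∧ x.2.1 < E.gu.x2 + 7 * E.gu.k + ρ) ∧
      (E.gu.yc + E.gu.a - ρ ≤ x.2.2 ∧ x.2.2 < E.gu.yc + E.gu.c + ρ)) ∨
    (x.1 = some true ∧ (E.gu.x1 ≤ x.2.1 ∧ x.2.1 < E.gu.x2) ∧
      E.gu.yc + E.gu.a ≤ x.2.2 ∧ x.2.2 < E.gu.yc + E.gu.a + ρ)}

/-- the island sides of the upper block and of the pocket within `2 r` above the mouth -/
def CvU (E : SEnv) (r : ℕ) (a : (Option Bool × (ℤ × ℤ)) × (Option Bool × (ℤ × ℤ))) : Prop :=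
  (∃ f ∈ E.base, ∃ k, E.gu.solid true (nb f k) ∧ a = sd E.Q (none, f) k ∧ a ∈ E.Z) ∨
    ∃ x y : ℤ, (E.gu.x1 ≤ x ∧ x < E.gu.x2) ∧ (E.gu.yc + E.gu.a ≤ y ∧ y < E.gu.yc + E.gu.a + 2 * r) ∧
      ∃ k, a = sd E.Q (some true, (x, y)) k ∧ a ∈ E.Z

theorem box12 (hE : Thk E) (hm : UpM E (4 * r + 1)) {ρ : ℕ} (hρ : ρ ≤ 4 * r + 1)
    {x : Option Bool × (ℤ × ℤ)} (hx : x ∈ (cUR hE hm).box ρ) :
    x ∈ RgU E ρ ∧ (x.1 = none → (E.gu.x2 - ρ ≤ x.2.1 ∧ x.2.1 < E.gu.x2 + ρ) ∧
      (E.gu.yc + E.gu.a - ρ ≤ x.2.2 ∧ x.2.2 < E.gu.yc + E.gu.a + ρ)) := by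
  have h1 := hm.hx
  unfold WChart.box at hx
  rw [Finset.mem_image] at hx
  obtain ⟨f, hf, rfl⟩ := hx
  rw [mem_w31] at hf
  simp only at hf
  rw [cUR_face]
  by_cases h : f.1 < E.gu.x2 ∧ E.gu.yc + E.gu.a ≤ f.2
  · rw [if_pos h]
    refine ⟨Or.inr ⟨rfl, ?_, ?_, ?_⟩, fun h => absurd h (by simp)⟩ <;> simp only <;> omega
  · rw [if_neg h]
    refine ⟨Or.inl rfl, fun _ => ?_⟩
    simp only
    omega

theorem box13 (hE : Thk E) (hm : UpM E (4 * r + 1)) {ρ : ℕ} (hρ : ρ ≤ 4 * r + 1)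
    {x : Option Bool × (ℤ × ℤ)} (hx : x ∈ (cUL hE hm).box ρ) :
    x ∈ RgU E ρ ∧ (x.1 = none → (E.gu.x1 - ρ ≤ x.2.1 ∧ x.2.1 < E.gu.x1 + ρ) ∧
      (E.gu.yc + E.gu.a - ρ ≤ x.2.2 ∧ x.2.2 < E.gu.yc + E.gu.a + ρ)) := by
  have h1 := hm.hx
  unfold WChart.box at hx
  rw [Finset.mem_image] at hx
  obtain ⟨f, hf, rfl⟩ := hx
  rw [mem_w32] at hf
  simp only at hf
  rw [cUL_face]
  by_cases h : E.gu.x1 ≤ f.1 ∧ E.gu.yc + E.gu.a ≤ f.2
  · rw [if_pos h]
    refine ⟨Or.inr ⟨rfl, ?_, ?_, ?_⟩, fun h => absurd h (by simp)⟩ <;> simp only <;> omega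
  · rw [if_neg h]
    refine ⟨Or.inl rfl, fun _ => ?_⟩
    simp only
    omega

/-- the boundary sides of the pocket next to the mouth -/
theorem pk_cases (hE : Thk E) (hm : UpM E (4 * r + 1)) {x y : ℤ} (hx : E.gu.x1 ≤ x ∧ x < E.gu.x2)
    (hy : E.gu.yc + E.gu.a ≤ y ∧ y < E.gu.yc + E.gu.a + 2 * r) {k : ZMod 4}
    (hb : sd E.Q (some true, (x, y)) k ∈ bS E.Q E.F) : (k = 1 ∧ x + 1 = E.gu.x2) ∨ (k = 3 ∧ x = E.gu.x1) := by
  classical
  have h0 := hm.hx
  have h1 := (Tilt.mem_bS_ah.mp hb).2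
  have inU : ∀ x' y' : ℤ, E.gu.x1 ≤ x' → x' < E.gu.x2 → E.gu.yc + E.gu.a ≤ y' →
      y' < E.gu.yc + E.gu.a + 2 * r + 1 → (some true, (x', y')) ∈ E.F := fun x' y' a1 a2 a3 a4 =>
    mem_F_up.2 (hm.hU x' y' a1 a2 a3 (by push_cast; omega))
  have c0 : ∀ x' y' : ℤ, E.gu.x1 ≤ x' → x' < E.gu.x2 →
      E.Q.c (some true, (x', y')) 0 = (if y' = E.gu.yc + E.gu.a then none else some true, (x', y')) := by
    intro x' y' a1 a2
    rw [cor_pk]
    refine Prod.ext ?_ rfl
    simp only [adj_up, a1, a2, true_and, true_or, and_true]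
  have c1 : ∀ x' y' : ℤ, E.gu.x1 ≤ x' → x' < E.gu.x2 →
      E.Q.c (some true, (x', y')) 1 = (if y' = E.gu.yc + E.gu.a then none else some true, (x' + 1, y')) := by
    intro x' y' a1 a2
    rw [cor_pk]
    refine Prod.ext ?_ rfl
    simp only [adj_up, a1, a2, true_and, or_true, and_true]
  have c2 : ∀ x' y' : ℤ, E.Q.c (some true, (x', y')) 2 = (some true, (x' + 1, y' + 1)) := by
    intro x' y'
    rw [cor_pk, if_neg]
    · rfl
    · rw [adj_up]
      rintro ⟨-, -, h⟩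
      revert h
      decide
  have c3 : ∀ x' y' : ℤ, E.Q.c (some true, (x', y')) 3 = (some true, (x', y' + 1)) := by
    intro x' y'
    rw [cor_pk, if_neg]
    · rfl
    · rw [adj_up]
      rintro ⟨-, -, h⟩
      revert h
      decide
  rcases k4 k with rfl | rfl | rfl | rfl
  · exfalso
    rcases eq_or_lt_of_le hy.1 with h2 | h2
    · have hbs : (x, y - 1) ∈ E.base := hm.base (by omega) (by omega) (by push_cast; omega) (by omega)
      refine h1 ⟨(none, (x, y - 1)), mem_F_none.2 hbs, 2, ?_⟩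
      rw [sd_base hE hbs, sdz2]
      unfold sd
      rw [show (0 : ZMod 4) + 1 = 1 from rfl, c0 x y hx.1 hx.2, c1 x y hx.1 hx.2, if_pos h2.symm]
      simp only [Prod.swap_prod_mk, sub_add_cancel]
    · refine h1 ⟨(some true, (x, y - 1)), inU _ _ hx.1 hx.2 (by omega) (by omega), 2, ?_⟩
      unfold sd
      rw [show (0 : ZMod 4) + 1 = 1 from rfl, show (2 : ZMod 4) + 1 = 3 from rfl, c0 x y hx.1 hx.2,
        c1 x y hx.1 hx.2, c2, c3, if_neg (by omega)]
      simp only [Prod.swap_prod_mk, sub_add_cancel]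
  · left
    refine ⟨rfl, ?_⟩
    by_contra h2
    refine h1 ⟨(some true, (x + 1, y)), inU _ _ (by omega) (by omega) hy.1 (by omega), 3, ?_⟩
    unfold sd
    rw [show (1 : ZMod 4) + 1 = 2 from rfl, show (3 : ZMod 4) + 1 = 0 from rfl, c1 x y hx.1 hx.2,
      c0 (x + 1) y (by omega) (by omega), c2, c3]
    rfl
  · exfalso
    refine h1 ⟨(some true, (x, y + 1)), inU _ _ hx.1 hx.2 (by omega) (by omega), 0, ?_⟩
    unfold sd
    rw [show (2 : ZMod 4) + 1 = 3 from rfl, show (0 : ZMod 4) + 1 = 1 from rfl,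
      c0 x (y + 1) hx.1 hx.2, c1 x (y + 1) hx.1 hx.2, c2, c3, if_neg (by omega)]
    rfl
  · right
    refine ⟨rfl, ?_⟩
    by_contra h2
    refine h1 ⟨(some true, (x - 1, y)), inU _ _ (by omega) (by omega) hy.1 (by omega), 1, ?_⟩
    unfold sd
    rw [show (1 : ZMod 4) + 1 = 2 from rfl, show (3 : ZMod 4) + 1 = 0 from rfl, c0 x y hx.1 hx.2,
      c1 (x - 1) y (by omega) (by omega), c2, c3]
    simp only [Prod.swap_prod_mk, sub_add_cancel]

/-- **the partial atlas of the upper block** -/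
theorem upPav (h : UpA E (4 * r + 1)) (hs : Sz E.gu r) (hm : UpM E (4 * r + 1))
    (j12 : (cUR h.thk hm).Jump (E.psi mu' ρu ml ρl ψu ψl) 0)
    (j13 : (cUL h.thk hm).Jump (E.psi mu' ρu ml ρl ψu ψl) 0)
    (h1 : -(2 * (Real.pi / 3)) ≤ mu') (h2 : mu' ≤ Real.pi) (ht : t₀ ≤ tB)
    {C : Finset ((Option Bool × (ℤ × ℤ)) × (Option Bool × (ℤ × ℤ)))} (hC : ∀ a ∈ C, CvU E r a)
    {nB : ℕ} (hn : nBlk E.gu r ≤ nB) :
    PAV E.Q E.F (E.psi mu' ρu ml ρl ψu ψl) E.Z C r nB t₀ (RgU E (4 * r)) (RgU E r) {x | x.1 = none}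
      (GU E (4 * r + 1)) (blkV mu') := by
  have hx := hm.hx
  have hr := hs.r0
  have key := (bdU h hs hm j12 j13).pav (t₀ := t₀) (fun i => Or.inl (ht.trans (tpos_JT h1 h2 i)))
    (G0 := {f | (E.gu.x1 - 7 * E.gu.k - ((4 * r + 1 : ℕ) : ℤ) ≤ f.1 ∧
      f.1 < E.gu.x2 + 7 * E.gu.k + ((4 * r + 1 : ℕ) : ℤ)) ∧
      (E.gu.yc + E.gu.a - ((4 * r + 1 : ℕ) : ℤ) ≤ f.2 ∧ f.2 < E.gu.yc + E.gu.c + ((4 * r + 1 : ℕ) : ℤ))})
    (fun i f hf => ?_) (fun i hi t h3 h4 f hf => ?_) (C := C) (fun a ha => ?_) hn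
  · rw [← types_JT]
    refine key.mono (Finset.Subset.refl _) le_rfl ?_ ?_ (Set.Subset.refl _) ?_
    · rintro x ((h3 | h3) | h3)
      · exact Or.inl h3
      · have h3 := Finset.mem_coe.1 h3
        change x ∈ (wcast _ _ _ _).box _ at h3
        rw [wcast_box] at h3
        exact (box12 h.thk hm (by omega) h3).1
      · have h3 := Finset.mem_coe.1 h3
        change x ∈ (wcast _ _ _ _).box _ at h3
        rw [wcast_box] at h3
        exact (box13 h.thk hm (by omega) h3).1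
    · rintro x ((h3 | h3) | h3)
      · exact Or.inl h3
      · have h3 := Finset.mem_coe.1 h3
        change x ∈ (wcast _ _ _ _).box _ at h3
        rw [wcast_box] at h3
        exact (box12 h.thk hm (by omega) h3).1
      · have h3 := Finset.mem_coe.1 h3
        change x ∈ (wcast _ _ _ _).box _ at h3
        rw [wcast_box] at h3
        exact (box13 h.thk hm (by omega) h3).1
    · have hk := h.rk
      have hc := h.rc
      have hb := h.rb
      rintro x ((h3 | h3) | h3)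
      · exact Or.inl h3
      · have h3 := Finset.mem_coe.1 h3
        change x ∈ (wcast _ _ _ _).box _ at h3
        rw [wcast_box] at h3
        obtain ⟨h4, h5⟩ := box12 h.thk hm le_rfl h3
        rcases h4 with h4 | h4
        · have h5 := h5 h4
          exact Or.inl ⟨h4, by omega, by omega⟩
        · exact Or.inr h4
      · have h3 := Finset.mem_coe.1 h3
        change x ∈ (wcast _ _ _ _).box _ at h3
        rw [wcast_box] at h3
        obtain ⟨h4, h5⟩ := box13 h.thk hm le_rfl h3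
        rcases h4 with h4 | h4
        · have h5 := h5 h4
          exact Or.inl ⟨h4, by omega, by omega⟩
        · exact Or.inr h4
  · have h3 := inR_vT hs i
    change f ∈ Bx (vT E.gu i) (4 * r + 1) at hf
    rw [mem_Bx] at hf
    unfold InR at h3
    refine ⟨⟨?_, ?_⟩, ?_, ?_⟩ <;> omega
  · have h5 := inR_seg hs hi (t := t) (by omega) (by change t + 3 * r ≤ lT E.gu i at h4; omega)
    change f ∈ Bx (vT E.gu i + t • dz (oT i)) (2 * r + 1) at hf
    rw [mem_Bx] at hf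
    unfold InR at h5
    refine ⟨⟨?_, ?_⟩, ?_, ?_⟩ <;> omega
  · rcases hC a ha with ⟨f, hf, k, h3, rfl, h4⟩ | ⟨x, y, hx', hy', k, rfl, h4⟩
    · left
      rw [base_Z h.thk hf] at h4
      have h5 : ¬ (k = 2 ∧ (E.gu.x1 ≤ f.1 ∧ f.1 < E.gu.x2) ∧ f.2 + 1 = E.gu.yc + E.gu.a) := by
        rintro ⟨rfl, h6, h7⟩
        refine h4.2.1 ⟨⟨rfl, h6, h7⟩, ?_⟩
        exact hm.hU _ _ h6.1 h6.2 (by omega) (by push_cast; omega)
      obtain ⟨i, hi, u, hu1, hu2, h6⟩ := cls hs h3 (mem_base.mp hf).2.1 h5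
      refine ⟨i, hi, u, hu1, hu2, ?_⟩
      rw [sd_base h.thk hf]
      change _ = bsd (lside (oT i) (vT E.gu i) u)
      rw [← h6]
      rfl
    · right
      rcases pk_cases h.thk hm hx' hy' (mem_Z.mp h4).1 with ⟨rfl, h5⟩ | ⟨rfl, h5⟩
      · left
        change _ ∈ (wcast _ _ _ _).walls _
        rw [wcast_walls]
        have h6 : sd ZQ (E.gu.x2 - 1, y) 1 ∈ wOut 1 (E.gu.x2, E.gu.yc + E.gu.a) (2 * r) :=
          mem_wOut1.2 ⟨y, hy'.1, by push_cast; omega, rfl⟩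
        have h7 : (cUR h.thk hm).side (sd ZQ (E.gu.x2 - 1, y) 1) = sd E.Q (some true, (x, y)) 1 := by
          obtain ⟨z, z1, z2, z3⟩ := cUR_pk h.thk hm (wOut_mono (by omega : 2 * r ≤ 4 * r + 1) h6)
          have e1 : (cUR h.thk hm).side (sd ZQ (E.gu.x2 - 1, y) 1) =
            sd E.Q (some true, (E.gu.x2 - 1, z)) 1 := z3
          have e2 : z = y := by
            have := congrArg (fun s => s.1.2.2) e1
            exact this.symm
          rw [e1, e2]
          have e3 : E.gu.x2 - 1 = x := by omega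
          rw [e3]
        rw [← h7]
        unfold WChart.walls
        exact Finset.mem_image_of_mem _ (Finset.mem_union_right _ h6)
      · right
        change _ ∈ (wcast _ _ _ _).walls _
        rw [wcast_walls]
        have h6 : sd ZQ (E.gu.x1, y) 3 ∈ wIn 1 (E.gu.x1, E.gu.yc + E.gu.a) (2 * r) :=
          mem_wIn1.2 ⟨y, hy'.1, by push_cast; omega, rfl⟩
        have h7 : (cUL h.thk hm).side (sd ZQ (E.gu.x1, y) 3) = sd E.Q (some true, (x, y)) 3 := by
          obtain ⟨z, z1, z2, z3⟩ := cUL_pk h.thk hm (wIn_mono (by omega : 2 * r ≤ 4 * r + 1) h6)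
          have e1 : (cUL h.thk hm).side (sd ZQ (E.gu.x1, y) 3) =
            sd E.Q (some true, (E.gu.x1, z)) 3 := z3
          have e2 : z = y := by
            have := congrArg (fun s => s.2.2.2) e1
            exact this.symm
          rw [e1, e2, h5]
        rw [← h7]
        unfold WChart.walls
        exact Finset.mem_image_of_mem _ (Finset.mem_union_left _ h6)

/-! ### The environments of a slab -/

section env

variable {S : Slb} {W : Finset (ℤ × ℤ)} {X Y : ℤ}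

theorem sz_env (h : S.Ok) (hr : 0 < r) (ha : 16 * r ≤ S.a) (Z : ℤ) : Sz (S.geo Z) r := by
  have h1 := h.hak
  have h2 := h.hx
  have h3 : ((S.x2 - S.x1).toNat : ℤ) = S.x2 - S.x1 := Int.toNat_of_nonneg (by omega)
  refine ⟨hr, ?_, ?_, h.ha, ?_, ?_⟩
  · change 8 * r ≤ S.k
    omega
  · change S.x1 + Z + 8 * r ≤ S.x2 + Z
    omega
  · change S.a + 8 * r ≤ S.k
    omega
  · change S.k + 8 * r ≤ 3 * S.k + (S.x2 - S.x1).toNat
    omega

/-- the number of natural charts of one block -/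
def nBS (S : Slb) (r : ℕ) : ℕ := 25 * ((17 * S.k + 2 * (S.x2 - S.x1).toNat) / (2 * r) + 2)

theorem nBlk_env (h : S.Ok) (hr : 0 < r) (ha : 16 * r ≤ S.a) (Z : ℤ) :
    nBlk (S.geo Z) r ≤ nBS S r := by
  refine (nBlk_le (sz_env h hr ha Z)).trans (le_of_eq ?_)
  have e : (S.geo Z).x2 - (S.geo Z).x1 = S.x2 - S.x1 := by
    change S.x2 + Z - (S.x1 + Z) = _
    ring
  have e2 : (S.geo Z).k = S.k := rfl
  have e3 : (S.geo Z).c = 3 * S.k + (S.x2 - S.x1).toNat := rfl
  rw [e, e2, e3]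
  unfold nBS
  congr 3
  ring

/-- **the partial atlas of the upper block of the environment of a slab** -/
theorem upPav_env (h : S.Ok) (hr : 0 < r) (ha : 16 * r ≤ S.a) (hW : BlkS.WinU S W X (4 * r + 1))
    (ht : t₀ ≤ tB) {C : Finset ((Option Bool × (ℤ × ℤ)) × (Option Bool × (ℤ × ℤ)))}
    (hC : ∀ a ∈ C, CvU (S.env W X Y) r a) {nB : ℕ} (hn : nBS S r ≤ nB) :
    PAV (S.env W X Y).Q (S.env W X Y).F (S.ph W X Y) (S.env W X Y).Z C r nB t₀
      (RgU (S.env W X Y) (4 * r)) (RgU (S.env W X Y) r) {x | x.1 = none}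
      (GU (S.env W X Y) (4 * r + 1)) (blkV S.mu) :=
  upPav (BlkS.upA h hW (by omega) (by omega)) (sz_env h hr ha X) (BlkS.upM h hW (by omega))
    (BlkS.jUR h hW (by omega)) (BlkS.jUL h hW (by omega)) h.mu1 h.mu2 ht hC
    ((nBlk_env h hr ha X).trans hn)

end env

end BlkT

end

end Pool.Agent.SixB
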