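import Pool.Agent.Lib.SixB.S3BlkTL
import Pool.Agent.Lib.SixB.S3BlkH

/-!
# 6BD step 3, row R7: the charts at the contour of a lower block

`h : LoA E ρ`: charts of radius `ρ` at the lower block.
* `spL`, `spL_jump`: the wedge at the vertex `vL E.gd i` (all vertices but the two corners of the mouth),
  jump `JT ml i`.
* `sgL`, `sgL_jump`: the straight wall at `vL E.gd i + t • dz (oT i + 2)`, `ρ ≤ t ≤ lT E.gd i - ρ`, jump `0`.
-/

set_option autoImplicit false
set_option linter.unusedSectionVars false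

namespace Pool.Agent.SixB.BlkT

open Pool.Agent.Perc.Q Pool.Agent.Perc Pool.Agent.SixB.EnvB Pool.Agent.SixB.BlkW

noncomputable section

variable {E : SEnv} {ρ : ℕ} {m m' : ℕ} {o o' : ZMod 4} {v v' : ℤ × ℤ}
  {mu ρu ml ρl : ℝ} {ψu ψl : (ℤ × ℤ) × (ℤ × ℤ) → ℝ}

private theorem locW_cast (h : LocW E m o v ρ) (hm : m' = m) (ho : o' = o) (hv : v' = v) : LocW E m' o' v' ρ := by
  subst hm ho hv
  exact h

private theorem jump_cast {ψ : (Option Bool × (ℤ × ℤ)) × (Option Bool × (ℤ × ℤ)) → ℝ} {J J' : ℝ}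
    {h : LocW E m o v ρ} (hj : h.chart.Jump ψ J) (h' : LocW E m' o' v' ρ) (hm : m' = m) (ho : o' = o)
    (hv : v' = v) (hJ : J' = J) : h'.chart.Jump ψ J' := by
  subst hm ho hv hJ
  exact hj

/-! ### The vertices -/

/-- the wedges at the vertices of the lower block -/
theorem spL (h : LoA E ρ) (i : Fin 26) (h1 : i ≠ 12) (h2 : i ≠ 13) :
    LocW E (mT i) (oT i + 2) (vL E.gd i) ρ := by
  fin_cases i
  · exact locW_cast h.toLoB.l1 rfl rfl vL0
  · exact locW_cast h.l2 rfl rfl vL1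
  · exact locW_cast h.l3 rfl rfl vL2
  · exact locW_cast h.toLoB.l4 rfl rfl vL3
  · exact locW_cast h.toLoB.l5 rfl rfl vL4
  · exact locW_cast h.toLoB.l6 rfl rfl vL5
  · exact locW_cast h.l7 rfl rfl vL6
  · exact locW_cast h.l8 rfl rfl vL7
  · exact locW_cast h.toLoB.l9 rfl rfl vL8
  · exact locW_cast h.toLoB.l10 rfl rfl vL9
  · exact locW_cast h.toLoB.l11 rfl rfl vL10
  · exact locW_cast h.l12 rfl rfl vL11
  · exact absurd rfl h1
  · exact absurd rfl h2
  · exact locW_cast h.l15 rfl rfl vL14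
  · exact locW_cast h.toLoB.l16 rfl rfl vL15
  · exact locW_cast h.toLoB.l17 rfl rfl vL16
  · exact locW_cast h.toLoB.l18 rfl rfl vL17
  · exact locW_cast h.l19 rfl rfl vL18
  · exact locW_cast h.l20 rfl rfl vL19
  · exact locW_cast h.toLoB.l21 rfl rfl vL20
  · exact locW_cast h.toLoB.l22 rfl rfl vL21
  · exact locW_cast h.toLoB.l23 rfl rfl vL22
  · exact locW_cast h.l24 rfl rfl vL23
  · exact locW_cast h.l25 rfl rfl vL24
  · exact locW_cast h.toLoB.l26 rfl rfl vL25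

/-- the jumps at the vertices of the lower block -/
theorem spL_jump (h : LoA E ρ) (i : Fin 26) (h1 : i ≠ 12) (h2 : i ≠ 13) :
    (spL h i h1 h2).chart.Jump (E.psi mu ρu ml ρl ψu ψl) (JT ml i) := by
  fin_cases i
  · exact jump_cast h.toLoB.j1 _ rfl rfl vL0 rfl
  · exact jump_cast h.j2 _ rfl rfl vL1 rfl
  · exact jump_cast h.j3 _ rfl rfl vL2 rfl
  · exact jump_cast h.toLoB.j4 _ rfl rfl vL3 rfl
  · exact jump_cast h.toLoB.j5 _ rfl rfl vL4 rfl
  · exact jump_cast h.toLoB.j6 _ rfl rfl vL5 rfl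
  · exact jump_cast h.j7 _ rfl rfl vL6 rfl
  · exact jump_cast h.j8 _ rfl rfl vL7 rfl
  · exact jump_cast h.toLoB.j9 _ rfl rfl vL8 rfl
  · exact jump_cast h.toLoB.j10 _ rfl rfl vL9 rfl
  · exact jump_cast h.toLoB.j11 _ rfl rfl vL10 rfl
  · exact jump_cast h.j12 _ rfl rfl vL11 rfl
  · exact absurd rfl h1
  · exact absurd rfl h2
  · exact jump_cast h.j15 _ rfl rfl vL14 rfl
  · exact jump_cast h.toLoB.j16 _ rfl rfl vL15 rfl
  · exact jump_cast h.toLoB.j17 _ rfl rfl vL16 rfl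
  · exact jump_cast h.toLoB.j18 _ rfl rfl vL17 rfl
  · exact jump_cast h.j19 _ rfl rfl vL18 rfl
  · exact jump_cast h.j20 _ rfl rfl vL19 rfl
  · exact jump_cast h.toLoB.j21 _ rfl rfl vL20 rfl
  · exact jump_cast h.toLoB.j22 _ rfl rfl vL21 rfl
  · exact jump_cast h.toLoB.j23 _ rfl rfl vL22 rfl
  · exact jump_cast h.j24 _ rfl rfl vL23 rfl
  · exact jump_cast h.j25 _ rfl rfl vL24 rfl
  · exact jump_cast h.toLoB.j26 _ rfl rfl vL25 rfl

/-! ### The walls -/

private theorem walk0 {o : ZMod 4} {x y : ℤ} (ho : o = 0) (hv : v = (x, y)) (t : ℤ) :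
    v + t • dz o = (x + t, y) := by
  rw [ho, hv, dz0]
  ext <;> simp

private theorem walk1 {o : ZMod 4} {x y : ℤ} (ho : o = 1) (hv : v = (x, y)) (t : ℤ) :
    v + t • dz o = (x, y + t) := by
  rw [ho, hv, dz1]
  ext <;> simp

private theorem walk2 {o : ZMod 4} {x y : ℤ} (ho : o = 2) (hv : v = (x, y)) (t : ℤ) :
    v + t • dz o = (x - t, y) := by
  rw [ho, hv, dz2]
  ext <;> simp
  ring

private theorem walk3 {o : ZMod 4} {x y : ℤ} (ho : o = 3) (hv : v = (x, y)) (t : ℤ) :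
    v + t • dz o = (x, y - t) := by
  rw [ho, hv, dz3]
  ext <;> simp
  ring

/-- the straight walls of the lower block -/
theorem sgL (h : LoA E ρ) (i : Fin 26) (h1 : i ≠ 12) {t : ℤ} (h3 : (ρ : ℤ) ≤ t)
    (h4 : t + ρ ≤ lT E.gd i) : LocW E 2 (oT i + 2) (vL E.gd i + t • dz (oT i + 2)) ρ := by
  have g1 := h.rk
  have g2 := h.hx
  fin_cases i
  · replace h4 : t + ρ ≤ lT E.gd 0 := h4
    rw [lT0] at h4
    exact locW_cast (h.toLoB.wL7 (by omega) (by omega)) rfl rfl (walk1 rfl vL0 t)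
  · replace h4 : t + ρ ≤ lT E.gd 1 := h4
    rw [lT1] at h4
    exact locW_cast (h.t2 (by omega) (by omega)) rfl rfl (walk0 rfl vL1 t)
  · replace h4 : t + ρ ≤ lT E.gd 2 := h4
    rw [lT2] at h4
    exact locW_cast (h.toLoB.wL6 (by omega) (by omega)) rfl rfl (walk3 rfl vL2 t)
  · replace h4 : t + ρ ≤ lT E.gd 3 := h4
    rw [lT3] at h4
    exact locW_cast (h.toLoB.ceil (by omega)) rfl rfl (walk0 rfl vL3 t)
  · replace h4 : t + ρ ≤ lT E.gd 4 := h4
    rw [lT4] at h4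
    exact locW_cast (h.toLoB.ceil (by omega)) rfl rfl (walk0 rfl vL4 t)
  · replace h4 : t + ρ ≤ lT E.gd 5 := h4
    rw [lT5] at h4
    exact locW_cast (h.toLoB.wL4 (by omega) (by omega)) rfl rfl (walk1 rfl vL5 t)
  · replace h4 : t + ρ ≤ lT E.gd 6 := h4
    rw [lT6] at h4
    exact locW_cast (h.t7 (by omega) (by omega)) rfl rfl (walk0 rfl vL6 t)
  · replace h4 : t + ρ ≤ lT E.gd 7 := h4
    rw [lT7] at h4
    exact locW_cast (h.toLoB.wL3 (by omega) (by omega)) rfl rfl (walk3 rfl vL7 t)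
  · replace h4 : t + ρ ≤ lT E.gd 8 := h4
    rw [lT8] at h4
    exact locW_cast (h.toLoB.ceil (by omega)) rfl rfl (walk0 rfl vL8 t)
  · replace h4 : t + ρ ≤ lT E.gd 9 := h4
    rw [lT9] at h4
    exact locW_cast (h.toLoB.ceil (by omega)) rfl rfl (walk0 rfl vL9 t)
  · replace h4 : t + ρ ≤ lT E.gd 10 := h4
    rw [lT10] at h4
    exact locW_cast (h.toLoB.wL1 (by omega) (by omega)) rfl rfl (walk1 rfl vL10 t)
  · replace h4 : t + ρ ≤ lT E.gd 11 := h4
    rw [lT11] at h4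
    exact locW_cast (h.t12 (by omega) (by omega)) rfl rfl (walk0 rfl vL11 t)
  · exact absurd rfl h1
  · replace h4 : t + ρ ≤ lT E.gd 13 := h4
    rw [lT13] at h4
    exact locW_cast (h.t14 (by omega) (by omega)) rfl rfl (walk0 rfl vL13 t)
  · replace h4 : t + ρ ≤ lT E.gd 14 := h4
    rw [lT14] at h4
    exact locW_cast (h.toLoB.wR1 (by omega) (by omega)) rfl rfl (walk3 rfl vL14 t)
  · replace h4 : t + ρ ≤ lT E.gd 15 := h4
    rw [lT15] at h4
    exact locW_cast (h.toLoB.ceil (by omega)) rfl rfl (walk0 rfl vL15 t)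
  · replace h4 : t + ρ ≤ lT E.gd 16 := h4
    rw [lT16] at h4
    exact locW_cast (h.toLoB.ceil (by omega)) rfl rfl (walk0 rfl vL16 t)
  · replace h4 : t + ρ ≤ lT E.gd 17 := h4
    rw [lT17] at h4
    exact locW_cast (h.toLoB.wR3 (by omega) (by omega)) rfl rfl (walk1 rfl vL17 t)
  · replace h4 : t + ρ ≤ lT E.gd 18 := h4
    rw [lT18] at h4
    exact locW_cast (h.t19 (by omega) (by omega)) rfl rfl (walk0 rfl vL18 t)
  · replace h4 : t + ρ ≤ lT E.gd 19 := h4
    rw [lT19] at h4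
    exact locW_cast (h.toLoB.wR4 (by omega) (by omega)) rfl rfl (walk3 rfl vL19 t)
  · replace h4 : t + ρ ≤ lT E.gd 20 := h4
    rw [lT20] at h4
    exact locW_cast (h.toLoB.ceil (by omega)) rfl rfl (walk0 rfl vL20 t)
  · replace h4 : t + ρ ≤ lT E.gd 21 := h4
    rw [lT21] at h4
    exact locW_cast (h.toLoB.ceil (by omega)) rfl rfl (walk0 rfl vL21 t)
  · replace h4 : t + ρ ≤ lT E.gd 22 := h4
    rw [lT22] at h4
    exact locW_cast (h.toLoB.wR6 (by omega) (by omega)) rfl rfl (walk1 rfl vL22 t)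
  · replace h4 : t + ρ ≤ lT E.gd 23 := h4
    rw [lT23] at h4
    exact locW_cast (h.t24 (by omega) (by omega)) rfl rfl (walk0 rfl vL23 t)
  · replace h4 : t + ρ ≤ lT E.gd 24 := h4
    rw [lT24] at h4
    exact locW_cast (h.toLoB.wR7 (by omega) (by omega)) rfl rfl (walk3 rfl vL24 t)
  · replace h4 : t + ρ ≤ lT E.gd 25 := h4
    rw [lT25] at h4
    exact locW_cast (h.toLoB.roof (by omega) (by omega)) rfl rfl (walk2 rfl vL25 t)

private theorem ceil_jump (h : LoA E ρ) {x : ℤ} (hl : LocW E 2 0 (x, E.gd.yc - E.gd.b) ρ) {c : ℝ}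
    (hc : ∀ z : ℤ, x - ρ ≤ z → z < x + ρ → E.gd.Hst ml (rx E.gd z) = c) :
    hl.chart.Jump (E.psi mu ρu ml ρl ψu ψl) 0 := by
  have g1 := h.rb
  have g2 := h.yc
  have g3 := h.r0
  have g4 := h.ad
  exact h.toLoB.jump20 hl (by simp only; omega) (fun z h5 h6 => hc z (by simp only at h5; omega) h6)
    (fun z h5 h6 => hc z h5 (by simp only at h6; omega)) (sub_self c)

/-- the straight walls of the lower block have jump `0` -/
theorem sgL_jump (h : LoA E ρ) (i : Fin 26) (h1 : i ≠ 12) {t : ℤ} (h3 : (ρ : ℤ) ≤ t)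
    (h4 : t + ρ ≤ lT E.gd i) : (sgL h i h1 h3 h4).chart.Jump (E.psi mu ρu ml ρl ψu ψl) 0 := by
  have g1 := h.rk
  have g2 := h.hx
  have g3 := h.rb
  have g4 := h.rc
  have g5 := h.r0
  have g6 := h.ra
  have g7 := h.yc
  fin_cases i
  · replace h4 : t + ρ ≤ lT E.gd 0 := h4
    rw [lT0] at h4
    exact jump_cast (h.toLoB.jump21 (h.toLoB.wL7 (by omega) (by omega)) (by simp only; omega))
      _ rfl rfl (walk1 rfl vL0 t) rfl
  · replace h4 : t + ρ ≤ lT E.gd 1 := h4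
    rw [lT1] at h4
    exact jump_cast (h.tj2 (by omega) (by omega))
      _ rfl rfl (walk0 rfl vL1 t) rfl
  · replace h4 : t + ρ ≤ lT E.gd 2 := h4
    rw [lT2] at h4
    exact jump_cast (h.toLoB.jump23 (h.toLoB.wL6 (by omega) (by omega)) (by simp only; omega))
      _ rfl rfl (walk3 rfl vL2 t) rfl
  · replace h4 : t + ρ ≤ lT E.gd 3 := h4
    rw [lT3] at h4
    exact jump_cast (ceil_jump h (h.toLoB.ceil (by omega)) fun z h5 h6 =>
      Hst0 (by unfold rx; omega) g2)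
      _ rfl rfl (walk0 rfl vL3 t) rfl
  · replace h4 : t + ρ ≤ lT E.gd 4 := h4
    rw [lT4] at h4
    exact jump_cast (ceil_jump h (h.toLoB.ceil (by omega)) fun z h5 h6 =>
      Hst1 (by unfold rx; omega) (by unfold rx; omega) g2)
      _ rfl rfl (walk0 rfl vL4 t) rfl
  · replace h4 : t + ρ ≤ lT E.gd 5 := h4
    rw [lT5] at h4
    exact jump_cast (h.toLoB.jump21 (h.toLoB.wL4 (by omega) (by omega)) (by simp only; omega))
      _ rfl rfl (walk1 rfl vL5 t) rfl
  · replace h4 : t + ρ ≤ lT E.gd 6 := h4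
    rw [lT6] at h4
    exact jump_cast (h.tj7 (by omega) (by omega))
      _ rfl rfl (walk0 rfl vL6 t) rfl
  · replace h4 : t + ρ ≤ lT E.gd 7 := h4
    rw [lT7] at h4
    exact jump_cast (h.toLoB.jump23 (h.toLoB.wL3 (by omega) (by omega)) (by simp only; omega))
      _ rfl rfl (walk3 rfl vL7 t) rfl
  · replace h4 : t + ρ ≤ lT E.gd 8 := h4
    rw [lT8] at h4
    exact jump_cast (ceil_jump h (h.toLoB.ceil (by omega)) fun z h5 h6 =>
      Hst1 (by unfold rx; omega) (by unfold rx; omega) g2)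
      _ rfl rfl (walk0 rfl vL8 t) rfl
  · replace h4 : t + ρ ≤ lT E.gd 9 := h4
    rw [lT9] at h4
    exact jump_cast (ceil_jump h (h.toLoB.ceil (by omega)) fun z h5 h6 =>
      Hst2 (by unfold rx; omega) (by unfold rx; omega) g2)
      _ rfl rfl (walk0 rfl vL9 t) rfl
  · replace h4 : t + ρ ≤ lT E.gd 10 := h4
    rw [lT10] at h4
    exact jump_cast (h.toLoB.jump21 (h.toLoB.wL1 (by omega) (by omega)) (by simp only; omega))
      _ rfl rfl (walk1 rfl vL10 t) rfl
  · replace h4 : t + ρ ≤ lT E.gd 11 := h4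
    rw [lT11] at h4
    exact jump_cast (h.tj12 (by omega) (by omega))
      _ rfl rfl (walk0 rfl vL11 t) rfl
  · exact absurd rfl h1
  · replace h4 : t + ρ ≤ lT E.gd 13 := h4
    rw [lT13] at h4
    exact jump_cast (h.tj14 (by omega) (by omega))
      _ rfl rfl (walk0 rfl vL13 t) rfl
  · replace h4 : t + ρ ≤ lT E.gd 14 := h4
    rw [lT14] at h4
    exact jump_cast (h.toLoB.jump23 (h.toLoB.wR1 (by omega) (by omega)) (by simp only; omega))
      _ rfl rfl (walk3 rfl vL14 t) rfl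
  · replace h4 : t + ρ ≤ lT E.gd 15 := h4
    rw [lT15] at h4
    exact jump_cast (ceil_jump h (h.toLoB.ceil (by omega)) fun z h5 h6 =>
      Hst3 (by unfold rx; omega) (by unfold rx; omega))
      _ rfl rfl (walk0 rfl vL15 t) rfl
  · replace h4 : t + ρ ≤ lT E.gd 16 := h4
    rw [lT16] at h4
    exact jump_cast (ceil_jump h (h.toLoB.ceil (by omega)) fun z h5 h6 =>
      Hst4 (by unfold rx; omega) (by unfold rx; omega) g2)
      _ rfl rfl (walk0 rfl vL16 t) rfl
  · replace h4 : t + ρ ≤ lT E.gd 17 := h4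
    rw [lT17] at h4
    exact jump_cast (h.toLoB.jump21 (h.toLoB.wR3 (by omega) (by omega)) (by simp only; omega))
      _ rfl rfl (walk1 rfl vL17 t) rfl
  · replace h4 : t + ρ ≤ lT E.gd 18 := h4
    rw [lT18] at h4
    exact jump_cast (h.tj19 (by omega) (by omega))
      _ rfl rfl (walk0 rfl vL18 t) rfl
  · replace h4 : t + ρ ≤ lT E.gd 19 := h4
    rw [lT19] at h4
    exact jump_cast (h.toLoB.jump23 (h.toLoB.wR4 (by omega) (by omega)) (by simp only; omega))
      _ rfl rfl (walk3 rfl vL19 t) rfl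
  · replace h4 : t + ρ ≤ lT E.gd 20 := h4
    rw [lT20] at h4
    exact jump_cast (ceil_jump h (h.toLoB.ceil (by omega)) fun z h5 h6 =>
      Hst4 (by unfold rx; omega) (by unfold rx; omega) g2)
      _ rfl rfl (walk0 rfl vL20 t) rfl
  · replace h4 : t + ρ ≤ lT E.gd 21 := h4
    rw [lT21] at h4
    exact jump_cast (ceil_jump h (h.toLoB.ceil (by omega)) fun z h5 h6 =>
      Hst5 (by unfold rx; omega) g2)
      _ rfl rfl (walk0 rfl vL21 t) rfl
  · replace h4 : t + ρ ≤ lT E.gd 22 := h4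
    rw [lT22] at h4
    exact jump_cast (h.toLoB.jump21 (h.toLoB.wR6 (by omega) (by omega)) (by simp only; omega))
      _ rfl rfl (walk1 rfl vL22 t) rfl
  · replace h4 : t + ρ ≤ lT E.gd 23 := h4
    rw [lT23] at h4
    exact jump_cast (h.tj24 (by omega) (by omega))
      _ rfl rfl (walk0 rfl vL23 t) rfl
  · replace h4 : t + ρ ≤ lT E.gd 24 := h4
    rw [lT24] at h4
    exact jump_cast (h.toLoB.jump23 (h.toLoB.wR7 (by omega) (by omega)) (by simp only; omega))
      _ rfl rfl (walk3 rfl vL24 t) rfl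
  · replace h4 : t + ρ ≤ lT E.gd 25 := h4
    rw [lT25] at h4
    exact jump_cast (h.toLoB.jump22 (h.toLoB.roof (by omega) (by omega)) (by simp only; omega))
      _ rfl rfl (walk2 rfl vL25 t) rfl

end

end Pool.Agent.SixB.BlkT
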