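import Pool.Agent.Lib.SixB.S3PkY
import Pool.Agent.Lib.SixB.S3BlkS
import Pool.Agent.Lib.SixB.S3Star

/-!
# 6BD step 3, row R21: the atlases of the halves

* `UpE.zh E F'`: the island sides of the part `F'` of the environment.
* `UpE.half_hi`, `half_lo`, `half_lf`, `half_all`: the parts.
* `UpE.back`: island sides of pocket faces come from boundary sides of `D`.
* `UpE.BlkU`, `UpE.BlkL`: atlases of the upper and of the lower block.
* `UpE.hiPAV`, `UpE.loPAV`: atlases of the halves.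
-/

set_option autoImplicit false
set_option linter.unusedSectionVars false

namespace Pool.Agent.SixB

open Pool.Agent.Perc.Q Pool.Agent.Perc EmbH EnvB

noncomputable section

namespace UpE

variable {S : Slb} {W : Finset (ℤ × ℤ)} {X Y : ℤ} {B : ℤ × ℤ → Prop} {E : SEnv}
  {F' : Finset (Option Bool × (ℤ × ℤ))} {r nS nN : ℕ} {t₀ : ℝ}
  {ZD CD : Finset ((ℤ × ℤ) × (ℤ × ℤ))}

open Classical in
/-- the island sides of a part -/
def zh (E : SEnv) (F' : Finset (Option Bool × (ℤ × ℤ))) :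
    Finset ((Option Bool × (ℤ × ℤ)) × (Option Bool × (ℤ × ℤ))) :=
  E.Z.filter fun a => a ∈ bS E.Q F'

theorem mem_zh {a : (Option Bool × (ℤ × ℤ)) × (Option Bool × (ℤ × ℤ))} :
    a ∈ zh E F' ↔ a ∈ E.Z ∧ a ∈ bS E.Q F' := by
  unfold zh
  rw [Finset.mem_filter]

theorem zh_bS : zh E F' ⊆ bS E.Q F' := fun _ h => (mem_zh.1 h).2

theorem zh_all : zh E E.F = E.Z := by
  ext a
  rw [mem_zh]
  exact ⟨fun h => h.1, fun h => ⟨h, (EnvB.mem_Z.1 h).1⟩⟩

theorem half_of (hB : S.Comp B) (hF : F' ⊆ (S.env W X Y).F)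
    (hFB : ∀ f ∈ S.D \ S.slb, B f → S.shrF X Y f ∈ F') :
    Half S W X Y B F' (zh (S.env W X Y) F') where
  hB := hB
  hF := hF
  hFB := hFB
  hZ := fun _ hf k hz => mem_zh.2 ⟨hz, SixB.bS_anti hF (EnvB.mem_Z.1 hz).1 (sd_mem hf k)⟩

theorem half_hi (y : ℤ) : Half S W X Y (fun f => f ∈ S.Up) ((S.env W X Y).hi y)
    (zh (S.env W X Y) ((S.env W X Y).hi y)) :=
  half_of S.comp_up (Finset.filter_subset _ _) (fun f _ hf =>
    Finset.mem_filter.2 ⟨by rw [Slb.Ok.shrF_U hf]; exact Slb.Ok.mem_F_U hf,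
      by rw [Slb.Ok.shrF_U hf]; exact Or.inl rfl⟩)

theorem not_up (h : S.Ok) {f : ℤ × ℤ} (hf0 : f ∈ S.D \ S.slb) (hf : f ∈ S.Lo) : f ∉ S.Up := by
  rcases h.cases hf0 with h1 | h1
  · exact absurd hf h1.2
  · exact h1.2

theorem half_lo (h : S.Ok) (y : ℤ) : Half S W X Y (fun f => f ∈ S.Lo) ((S.env W X Y).lo y)
    (zh (S.env W X Y) ((S.env W X Y).lo y)) :=
  half_of S.comp_lo (Finset.filter_subset _ _) (fun f hf0 hf => by
    have hnU := not_up h hf0 hf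
    exact Finset.mem_filter.2 ⟨by rw [Slb.Ok.shrF_L hnU]; exact Slb.Ok.mem_F_L hf,
      by rw [Slb.Ok.shrF_L hnU]; exact Or.inl rfl⟩)

theorem half_lf (h : S.Ok) (x : ℤ) : Half S W X Y (fun _ => True) ((S.env W X Y).lf x)
    (zh (S.env W X Y) ((S.env W X Y).lf x)) :=
  half_of S.comp_all (Finset.filter_subset _ _) (fun f hf0 _ => by
    rcases h.cases hf0 with h1 | h1
    · exact Finset.mem_filter.2 ⟨by rw [Slb.Ok.shrF_U h1.1]; exact Slb.Ok.mem_F_U h1.1,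
        by rw [Slb.Ok.shrF_U h1.1]; exact Or.inl (by simp)⟩
    · exact Finset.mem_filter.2 ⟨by rw [Slb.Ok.shrF_L h1.2]; exact Slb.Ok.mem_F_L h1.1,
        by rw [Slb.Ok.shrF_L h1.2]; exact Or.inl (by simp)⟩)

theorem half_all (h : S.Ok) : Half S W X Y (fun _ => True) (S.env W X Y).F (S.env W X Y).Z := by
  have h1 : Half S W X Y (fun _ => True) (S.env W X Y).F (zh (S.env W X Y) (S.env W X Y).F) :=
    half_of S.comp_all (Finset.Subset.refl _) (fun f hf0 _ => by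
      rcases h.cases hf0 with h1 | h1
      · rw [Slb.Ok.shrF_U h1.1]; exact Slb.Ok.mem_F_U h1.1
      · rw [Slb.Ok.shrF_L h1.2]; exact Slb.Ok.mem_F_L h1.1)
  rwa [zh_all] at h1

/-! ## The island sides of the pocket faces -/

/-- a base side in the mouth is no island side -/
theorem not_mouthU (h : S.Ok) {f : ℤ × ℤ} (h1 : S.x1 ≤ f.1) (h2 : f.1 < S.x2)
    (h3 : f.2 = S.yc + S.a) : sd (S.env W X Y).Q (some true, shv X f) 0 ∉ (S.env W X Y).Z := by
  have ha := h.ha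
  have e : sd (S.env W X Y).Q (some true, shv X f) 0 =
      ((none, (f.1 + X, f.2)), (none, (f.1 + X + 1, f.2))) := by
    have a0 : ((S.env W X Y).gu.mouth true).adj (shv X f) 0 :=
      (Slb.Ok.adjU S W X Y f 0).2 ⟨h1, h2, h3, Or.inl rfl⟩
    have a1 : ((S.env W X Y).gu.mouth true).adj (shv X f) 1 :=
      (Slb.Ok.adjU S W X Y f 1).2 ⟨h1, h2, h3, Or.inr rfl⟩
    unfold sd
    rw [EmbH.Q_c, EmbH.Q_c, zero_add, shf_up a0, shf_up a1, Equiv.swap_apply_right]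
    rfl
  rw [e, EnvB.mem_Z]
  rintro ⟨-, h4 | h4 | ⟨g, hg, l, hl⟩⟩
  · exact h4 rfl
  · exact h4 rfl
  · have h5 : sd ZQ (f.1 + X, f.2) 0 = (sd ZQ g l).swap := hl
    obtain ⟨h6, -⟩ := swap_inj_iff.1 h5
    have h7 : g.2 = f.2 - 1 := by rw [h6]; rfl
    rcases hg with hg | hg
    · have h8 := hg.1
      have h9 : (S.a : ℤ) ≤ g.2 - S.yc := h8
      omega
    · have h8 := hg.1
      have h9 : (S.a : ℤ) ≤ S.yc - 1 - g.2 := h8
      omega

theorem not_mouthL (h : S.Ok) {f : ℤ × ℤ} (h1 : S.x1 ≤ f.1) (h2 : f.1 < S.x2)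
    (h3 : f.2 + 1 = S.yc - S.a) : sd (S.env W X Y).Q (some false, shv Y f) 2 ∉ (S.env W X Y).Z := by
  have ha := h.ha
  have e : sd (S.env W X Y).Q (some false, shv Y f) 2 =
      ((none, (f.1 + Y + 1, f.2 + 1)), (none, (f.1 + Y, f.2 + 1))) := by
    have a0 : ((S.env W X Y).gd.mouth false).adj (shv Y f) 2 :=
      (Slb.Ok.adjL S W X Y f 2).2 ⟨h1, h2, h3, Or.inl rfl⟩
    have a1 : ((S.env W X Y).gd.mouth false).adj (shv Y f) 3 :=
      (Slb.Ok.adjL S W X Y f 3).2 ⟨h1, h2, h3, Or.inr rfl⟩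
    have e3 : (2 : ZMod 4) + 1 = 3 := by decide
    unfold sd
    rw [EmbH.Q_c, EmbH.Q_c, e3, shf_dn a0, shf_dn a1, Equiv.swap_apply_right]
    rfl
  rw [e, EnvB.mem_Z]
  rintro ⟨-, h4 | h4 | ⟨g, hg, l, hl⟩⟩
  · exact h4 rfl
  · exact h4 rfl
  · have h5 : sd ZQ (f.1 + Y, f.2) 2 = (sd ZQ g l).swap := hl
    obtain ⟨h6, -⟩ := swap_inj_iff.1 h5
    have h7 : g.2 = f.2 + 1 := by rw [h6]; rfl
    rcases hg with hg | hg
    · have h8 := hg.1
      have h9 : (S.a : ℤ) ≤ g.2 - S.yc := h8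
      omega
    · have h8 := hg.1
      have h9 : (S.a : ℤ) ≤ S.yc - 1 - g.2 := h8
      omega

/-- **island sides of pocket faces come from boundary sides of `D`** -/
theorem back (h : S.Ok) {f : ℤ × ℤ} {k : ZMod 4} (hf : f ∈ S.D \ S.slb)
    (hz : sd (S.env W X Y).Q (S.shrF X Y f) k ∈ (S.env W X Y).Z) : sd ZQ f k ∈ bS ZQ S.D := by
  have hk := h.hak
  have hf' := hf
  rw [Finset.mem_sdiff, mem_RF] at hf'
  by_contra hb
  rw [WG.sd_bS_iff] at hb
  have hb' : WG.bh f k ∈ S.D := by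
    by_contra h1
    exact hb ⟨hf'.1, h1⟩
  by_cases hs : WG.bh f k ∈ S.slb
  · have hs' := hs
    rw [mem_RF] at hs'
    obtain ⟨x, y⟩ := f
    rcases k4_cases k with rfl | rfl | rfl | rfl
    · rw [WG.bh0] at hs'
      have h1 : S.x1 ≤ x ∧ x < S.x2 ∧ y = S.yc + S.a := by
        have h2 := hf'.2
        simp only at hs' h2
        omega
      have hU : (x, y) ∈ S.Up := up_window h.slab h.w1 h.w2 h1.1 h1.2.1 (by omega) (by omega)
      rw [Slb.Ok.shrF_U hU] at hz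
      exact not_mouthU h h1.1 h1.2.1 h1.2.2 hz
    · rw [WG.bh1] at hs'
      have h2 := hf'.2
      simp only at hs' h2
      have h3 : x = S.x1 - 1 := by omega
      rw [h3] at hf'
      exact h.slab.left y (by omega) (by omega) hf'.1
    · rw [WG.bh2] at hs'
      have h1 : S.x1 ≤ x ∧ x < S.x2 ∧ y + 1 = S.yc - S.a := by
        have h2 := hf'.2
        simp only at hs' h2
        omega
      have hL : (x, y) ∈ S.Lo := lo_window h.slab h.w2 h.w3 h1.1 h1.2.1 (by omega) (by omega)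
      rw [Slb.Ok.shrF_L (not_up h hf hL)] at hz
      exact not_mouthL h h1.1 h1.2.1 h1.2.2 hz
    · rw [WG.bh3] at hs'
      have h2 := hf'.2
      simp only at hs' h2
      have h3 : x = S.x2 := by omega
      rw [h3] at hf'
      exact h.slab.right y (by omega) (by omega) hf'.1
  · have hg : WG.bh f k ∈ S.D \ S.slb := Finset.mem_sdiff.2 ⟨hb', hs⟩
    have h1 := (EnvB.mem_Z.1 hz).1
    have h2 : (h.shr W X Y).side (sd ZQ f k) = sd (S.env W X Y).Q (S.shrF X Y f) k :=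
      (h.shr W X Y).side_sdR hf k
    have h3 : (h.shr W X Y).side (sd ZQ (WG.bh f k) (k + 2)) =
        sd (S.env W X Y).Q (S.shrF X Y (WG.bh f k)) (k + 2) := (h.shr W X Y).side_sdR hg (k + 2)
    have h4 : (sd ZQ f k).swap = sd ZQ (WG.bh f k) (k + 2) := by
      rw [sd_swap]
      rfl
    have h5 : sd (S.env W X Y).Q (S.shrF X Y f) k =
        (sd (S.env W X Y).Q (S.shrF X Y (WG.bh f k)) (k + 2)).swap := by
      rw [← h3, ← h4, ← h2]
      rfl
    have h6 : S.shrF X Y (WG.bh f k) ∈ (S.env W X Y).F := (h.shr W X Y).sub _ hg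
    exact (mem_bS.1 h1).2 _ (Finset.mem_coe.2 h6) _ h5

/-! ## The blocks -/

/-- region of the boxes of the upper block -/
def nU (S : Slb) (X : ℤ) (ρ : ℕ) : Set (Option Bool × (ℤ × ℤ)) :=
  {x | x.1 = none ∨ (x.1 = some true ∧ S.x1 + X ≤ x.2.1 ∧ x.2.1 < S.x2 + X ∧ S.yc + S.a ≤ x.2.2 ∧
    x.2.2 < S.yc + S.a + ρ)}

/-- region of the boxes of the lower block -/
def nL (S : Slb) (Y : ℤ) (ρ : ℕ) : Set (Option Bool × (ℤ × ℤ)) :=
  {x | x.1 = none ∨ (x.1 = some false ∧ S.x1 + Y ≤ x.2.1 ∧ x.2.1 < S.x2 + Y ∧ x.2.2 < S.yc - S.a ∧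
    S.yc - S.a - ρ ≤ x.2.2)}

/-- faces of the base sheet -/
def nO : Set (Option Bool × (ℤ × ℤ)) := {x | x.1 = none}

/-- region of the charts of the upper block -/
def gU (S : Slb) (ρ : ℕ) : Set (Option Bool × (ℤ × ℤ)) :=
  {x | (x.1 = none ∧ S.yc + S.a - ρ ≤ x.2.2) ∨ x.1 = some true}

/-- region of the charts of the lower block -/
def gL (S : Slb) (ρ : ℕ) : Set (Option Bool × (ℤ × ℤ)) :=
  {x | (x.1 = none ∧ x.2.2 < S.yc - S.a + ρ) ∨ x.1 = some false}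

/-- the covered sides of the upper block -/
structure CovU (S : Slb) (W : Finset (ℤ × ℤ)) (X Y : ℤ) (r : ℕ)
    (C : Finset ((Option Bool × (ℤ × ℤ)) × (Option Bool × (ℤ × ℤ)))) : Prop where
  base : ∀ f ∈ (S.env W X Y).base, ∀ k, (S.env W X Y).gu.solid true (nb f k) →
    sd (S.env W X Y).Q (none, f) k ∈ (S.env W X Y).Z → sd (S.env W X Y).Q (none, f) k ∈ C
  pk : ∀ g ∈ (S.env W X Y).U, ∀ k, S.x1 + X ≤ g.1 → g.1 < S.x2 + X → S.yc + S.a ≤ g.2 →
    g.2 < S.yc + S.a + 2 * r → sd (S.env W X Y).Q (some true, g) k ∈ (S.env W X Y).Z →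
      sd (S.env W X Y).Q (some true, g) k ∈ C

/-- the covered sides of the lower block -/
structure CovL (S : Slb) (W : Finset (ℤ × ℤ)) (X Y : ℤ) (r : ℕ)
    (C : Finset ((Option Bool × (ℤ × ℤ)) × (Option Bool × (ℤ × ℤ)))) : Prop where
  base : ∀ f ∈ (S.env W X Y).base, ∀ k, (S.env W X Y).gd.solid false (nb f k) →
    sd (S.env W X Y).Q (none, f) k ∈ (S.env W X Y).Z → sd (S.env W X Y).Q (none, f) k ∈ C
  pk : ∀ g ∈ (S.env W X Y).L, ∀ k, S.x1 + Y ≤ g.1 → g.1 < S.x2 + Y → g.2 < S.yc - S.a →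
    S.yc - S.a - 2 * r ≤ g.2 → sd (S.env W X Y).Q (some false, g) k ∈ (S.env W X Y).Z →
      sd (S.env W X Y).Q (some false, g) k ∈ C

/-- the atlas of the upper block -/
def BlkU (S : Slb) (W : Finset (ℤ × ℤ)) (X Y : ℤ) (r nB : ℕ) (t₀ : ℝ) : Prop :=
  ∃ C, PAV (S.env W X Y).Q (S.env W X Y).F (S.ph W X Y) (S.env W X Y).Z C r nB t₀
    (nU S X (4 * r)) (nU S X r) nO (gU S (4 * r + 1)) (St.blkV S.mu) ∧ CovU S W X Y r C

/-- the atlas of the lower block -/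
def BlkL (S : Slb) (W : Finset (ℤ × ℤ)) (X Y : ℤ) (r nB : ℕ) (t₀ : ℝ) : Prop :=
  ∃ C, PAV (S.env W X Y).Q (S.env W X Y).F (S.ph W X Y) (S.env W X Y).Z C r nB t₀
    (nL S Y (4 * r)) (nL S Y r) nO (gL S (4 * r + 1)) (St.blkV S.ml) ∧ CovL S W X Y r C

theorem disj_U (X Y : ℤ) {ρ ρ' : ℕ} (hρ : ρ ≤ ρ') :
    Disjoint (nU S X ρ) (reg S X Y (fun f => f ∈ S.Up) ρ') := by
  rw [Set.disjoint_left]
  rintro x hx ⟨f, h1, h2, h3, rfl⟩
  rw [Slb.Ok.shrF_U h2] at hx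
  rcases hx with hx | ⟨-, h4, h5, h6, h7⟩
  · exact absurd hx (by simp)
  · refine h3 ?_
    have h8 : (shv X f).1 = f.1 + X := rfl
    have h9 : (shv X f).2 = f.2 := rfl
    simp only [h8, h9] at h4 h5 h6 h7
    unfold nearF
    omega

theorem disj_L (h : S.Ok) (X Y : ℤ) {ρ ρ' : ℕ} (hρ : ρ ≤ ρ') :
    Disjoint (nL S Y ρ) (reg S X Y (fun f => f ∈ S.Lo) ρ') := by
  rw [Set.disjoint_left]
  rintro x hx ⟨f, h1, h2, h3, rfl⟩
  rw [Slb.Ok.shrF_L (not_up h h1 h2)] at hx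
  rcases hx with hx | ⟨-, h4, h5, h6, h7⟩
  · exact absurd hx (by simp)
  · refine h3 ?_
    have h8 : (shv Y f).1 = f.1 + Y := rfl
    have h9 : (shv Y f).2 = f.2 := rfl
    simp only [h8, h9] at h4 h5 h6 h7
    unfold nearF
    omega

theorem disj_O (X Y : ℤ) {ρ : ℕ} : Disjoint nO (reg S X Y B ρ) := by
  rw [Set.disjoint_left]
  rintro x hx ⟨f, h1, h2, h3, rfl⟩
  exact shrF_ne _ _ _ _ hx

theorem nU_mono (X : ℤ) {ρ ρ' : ℕ} (h : ρ ≤ ρ') : nU S X ρ ⊆ nU S X ρ' := by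
  rintro x (hx | ⟨h1, h2, h3, h4, h5⟩)
  · exact Or.inl hx
  · exact Or.inr ⟨h1, h2, h3, h4, by omega⟩

/-- membership in the upper half -/
theorem mem_hiE {y : ℤ} {x : Option Bool × (ℤ × ℤ)} : x ∈ E.hi y ↔
    (x.1 = none ∧ x.2 ∈ E.base ∧ y ≤ x.2.2) ∨ (x.1 = some true ∧ x.2 ∈ E.U) := by
  unfold SEnv.hi
  rw [Finset.mem_filter]
  obtain ⟨s, f⟩ := x
  rw [EmbH.mem_F]
  constructor
  · rintro ⟨(⟨rfl, h1⟩ | ⟨rfl, h1⟩ | ⟨rfl, h1⟩), h2⟩
    · rcases h2 with h2 | h2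
      · exact absurd h2 (by simp)
      · exact Or.inl ⟨rfl, h1, h2.2⟩
    · exact Or.inr ⟨rfl, h1⟩
    · rcases h2 with h2 | h2
      · exact absurd h2 (by simp)
      · exact absurd h2.1 (by simp)
  · rintro (⟨h1, h2, h3⟩ | ⟨h1, h2⟩)
    · simp only at h1
      subst h1
      exact ⟨Or.inl ⟨rfl, h2⟩, Or.inr ⟨rfl, h3⟩⟩
    · simp only at h1
      subst h1
      exact ⟨Or.inr (Or.inl ⟨rfl, h2⟩), Or.inl rfl⟩

/-- membership in the lower half -/
theorem mem_loE {y : ℤ} {x : Option Bool × (ℤ × ℤ)} : x ∈ E.lo y ↔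
    (x.1 = none ∧ x.2 ∈ E.base ∧ x.2.2 < y) ∨ (x.1 = some false ∧ x.2 ∈ E.L) := by
  unfold SEnv.lo
  rw [Finset.mem_filter]
  obtain ⟨s, f⟩ := x
  rw [EmbH.mem_F]
  constructor
  · rintro ⟨(⟨rfl, h1⟩ | ⟨rfl, h1⟩ | ⟨rfl, h1⟩), h2⟩
    · rcases h2 with h2 | h2
      · exact absurd h2 (by simp)
      · exact Or.inl ⟨rfl, h1, h2.2⟩
    · rcases h2 with h2 | h2
      · exact absurd h2 (by simp)
      · exact absurd h2.1 (by simp)
    · exact Or.inr ⟨rfl, h1⟩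
  · rintro (⟨h1, h2, h3⟩ | ⟨h1, h2⟩)
    · simp only at h1
      subst h1
      exact ⟨Or.inl ⟨rfl, h2⟩, Or.inr ⟨rfl, h3⟩⟩
    · simp only at h1
      subst h1
      exact ⟨Or.inr (Or.inr ⟨rfl, h2⟩), Or.inl rfl⟩

/-- the sides of `D` in the part `B` which are not covered -/
def Miss (h : S.Ok) (W : Finset (ℤ × ℤ)) (X Y : ℤ) (B : ℤ × ℤ → Prop)
    (CD : Finset ((ℤ × ℤ) × (ℤ × ℤ)))
    (a : (Option Bool × (ℤ × ℤ)) × (Option Bool × (ℤ × ℤ))) : Prop :=
  ∃ f k, f ∈ S.D \ S.slb ∧ B f ∧ off2 S 0 f ∧ sd ZQ f k ∈ bS ZQ S.D ∧ sd ZQ f k ∉ CD ∧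
    a = (h.shr W X Y).side (sd ZQ f k)

theorem sideU (h : S.Ok) {f : ℤ × ℤ} (hf : f ∈ S.D \ S.slb) (hU : f ∈ S.Up) (k : ZMod 4) :
    (h.shr W X Y).side (sd ZQ f k) = sd (S.env W X Y).Q (some true, shv X f) k := by
  have h2 : (h.shr W X Y).side (sd ZQ f k) = sd (S.env W X Y).Q (S.shrF X Y f) k :=
    (h.shr W X Y).side_sdR hf k
  rw [h2, Slb.Ok.shrF_U hU]

theorem sideL (h : S.Ok) {f : ℤ × ℤ} (hf : f ∈ S.D \ S.slb) (hL : f ∈ S.Lo) (k : ZMod 4) :
    (h.shr W X Y).side (sd ZQ f k) = sd (S.env W X Y).Q (some false, shv Y f) k := by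
  have h2 : (h.shr W X Y).side (sd ZQ f k) = sd (S.env W X Y).Q (S.shrF X Y f) k :=
    (h.shr W X Y).side_sdR hf k
  rw [h2, Slb.Ok.shrF_L (not_up h hf hL)]

theorem up_mem (_h : S.Ok) {f : ℤ × ℤ} (hf : f ∈ S.Up) : f ∈ S.D \ S.slb :=
  Finset.mem_sdiff.2 ⟨up_sub hf, Finset.disjoint_left.1 up_slab hf⟩

theorem lo_mem (_h : S.Ok) {f : ℤ × ℤ} (hf : f ∈ S.Lo) : f ∈ S.D \ S.slb :=
  Finset.mem_sdiff.2 ⟨lo_sub hf, Finset.disjoint_left.1 lo_slab hf⟩

/-- the pocket sides of the upper pocket are covered or missing -/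
theorem cov_U (h : S.Ok) (hra : 2 * r ≤ S.a) {C : Finset ((Option Bool × (ℤ × ℤ)) × (Option Bool × (ℤ × ℤ)))}
    (hC : CovU S W X Y r C) {g : ℤ × ℤ} (hg : g ∈ (S.env W X Y).U) {k : ZMod 4}
    (hz : sd (S.env W X Y).Q (some true, g) k ∈ (S.env W X Y).Z) (hB : ∀ f ∈ S.Up, B f) :
    sd (S.env W X Y).Q (some true, g) k ∈
      C ∪ (selC (fun f => B f ∧ off2 S r f) CD).image (h.shr W X Y).side ∨
        Miss h W X Y B CD (sd (S.env W X Y).Q (some true, g) k) := by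
  have hg' : g ∈ shF X S.Up := hg
  unfold shF at hg'
  rw [Finset.mem_image] at hg'
  obtain ⟨f, hf, rfl⟩ := hg'
  have hfm := up_mem h hf
  have hb : sd ZQ f k ∈ bS ZQ S.D := by
    refine back (X := X) (Y := Y) (W := W) h hfm ?_
    rwa [Slb.Ok.shrF_U hf]
  by_cases h1 : off2 S r f
  · by_cases h2 : sd ZQ f k ∈ CD
    · left
      refine Finset.mem_union_right _ (Finset.mem_image.2 ⟨sd ZQ f k,
        mem_selC.2 ⟨h2, f, k, rfl, hB f hf, h1⟩, sideU h hfm hf k⟩)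
    · right
      refine ⟨f, k, hfm, hB f hf, ?_, hb, h2, (sideU h hfm hf k).symm⟩
      unfold off2 at h1 ⊢
      push_cast
      omega
  · left
    refine Finset.mem_union_left _ (hC.pk _ hg k ?_ ?_ ?_ ?_ hz)
    all_goals
      have h8 : (shv X f).1 = f.1 + X := rfl
      have h9 : (shv X f).2 = f.2 := rfl
      have hk := h.hak
      unfold off2 at h1
      have h10 : S.yc + S.a ≤ f.2 := by
        have h11 := (Finset.mem_sdiff.1 hfm).2
        rw [mem_RF] at h11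
        by_contra h12
        have h13 : f ∈ S.Lo := lo_window (x := f.1) (y := f.2) h.slab h.w2 h.w3 (by omega) (by omega)
          (by omega) (by omega)
        exact not_up h hfm h13 hf
      simp only [h8, h9]
      omega

/-- the pocket sides of the lower pocket are covered or missing -/
theorem cov_L (h : S.Ok) (hra : 2 * r ≤ S.a) {C : Finset ((Option Bool × (ℤ × ℤ)) × (Option Bool × (ℤ × ℤ)))}
    (hC : CovL S W X Y r C) {g : ℤ × ℤ} (hg : g ∈ (S.env W X Y).L) {k : ZMod 4}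
    (hz : sd (S.env W X Y).Q (some false, g) k ∈ (S.env W X Y).Z) (hB : ∀ f ∈ S.Lo, B f) :
    sd (S.env W X Y).Q (some false, g) k ∈
      C ∪ (selC (fun f => B f ∧ off2 S r f) CD).image (h.shr W X Y).side ∨
        Miss h W X Y B CD (sd (S.env W X Y).Q (some false, g) k) := by
  have hg' : g ∈ shF Y S.Lo := hg
  unfold shF at hg'
  rw [Finset.mem_image] at hg'
  obtain ⟨f, hf, rfl⟩ := hg'
  have hfm := lo_mem h hf
  have hnU := not_up h hfm hf
  have hb : sd ZQ f k ∈ bS ZQ S.D := by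
    refine back (X := X) (Y := Y) (W := W) h hfm ?_
    rwa [Slb.Ok.shrF_L hnU]
  by_cases h1 : off2 S r f
  · by_cases h2 : sd ZQ f k ∈ CD
    · left
      refine Finset.mem_union_right _ (Finset.mem_image.2 ⟨sd ZQ f k,
        mem_selC.2 ⟨h2, f, k, rfl, hB f hf, h1⟩, sideL h hfm hf k⟩)
    · right
      refine ⟨f, k, hfm, hB f hf, ?_, hb, h2, (sideL h hfm hf k).symm⟩
      unfold off2 at h1 ⊢
      push_cast
      omega
  · left
    refine Finset.mem_union_left _ (hC.pk _ hg k ?_ ?_ ?_ ?_ hz)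
    all_goals
      have h8 : (shv Y f).1 = f.1 + Y := rfl
      have h9 : (shv Y f).2 = f.2 := rfl
      have hk := h.hak
      unfold off2 at h1
      have h10 : f.2 < S.yc - S.a := by
        have h11 := (Finset.mem_sdiff.1 hfm).2
        rw [mem_RF] at h11
        by_contra h12
        have h13 : f ∈ S.Up := up_window (x := f.1) (y := f.2) h.slab h.w1 h.w2 (by omega) (by omega)
          (by omega) (by omega)
        exact hnU h13
      simp only [h8, h9]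
      omega

/-! ## The halves -/

/-- **the atlas of the upper half** -/
theorem hiPAV (h : S.Ok) (hr : 0 < r) (hra : 16 * r ≤ S.a) (hth : Thick S (4 * r + 2)) {y : ℤ}
    (hy1 : S.yc - S.a < y) (hy2 : y + (4 * r + 1) ≤ S.yc + S.a) {nB : ℕ}
    (hb : BlkU S W X Y r nB t₀) (A : PAtlas ZQ S.D S.ψ ZD CD r nS nN t₀) (hCD : CD ⊆ bS ZQ S.D)
    (hA : A.Flat) (hS : ∀ i, ¬ S.near (8 * r + 2) (A.v i))
    (hfl : ∀ i, A.m' i = 2 ∧ (A.nch i).Jump S.ψ 0) :
    ∃ C, PAV (S.env W X Y).Q ((S.env W X Y).hi y) (S.ph W X Y)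
      (zh (S.env W X Y) ((S.env W X Y).hi y)) C r (nB + (12 + nN)) t₀
      (nU S X (4 * r) ∪ reg S X Y (fun f => f ∈ S.Up) (4 * r + 1))
      (nU S X r ∪ reg S X Y (fun f => f ∈ S.Up) (7 * r + 1)) (nO ∪ reg S X Y (fun f => f ∈ S.Up) r)
      (gU S (4 * r + 1))
      (St.blkV S.mu + (S.selK (fun f => f ∈ S.Up) A).val.map fun i => (A.K i, A.m i)) ∧
      ∀ a ∈ zh (S.env W X Y) ((S.env W X Y).hi y), a ∈ C ∨
        Miss h W X Y (fun f => f ∈ S.Up) CD a := by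
  obtain ⟨C, hP, hC⟩ := hb
  have hP' : PAV (S.env W X Y).Q ((S.env W X Y).hi y) (S.ph W X Y)
      (zh (S.env W X Y) ((S.env W X Y).hi y)) C r nB t₀
      (nU S X (4 * r)) (nU S X r) nO (gU S (4 * r + 1)) (St.blkV S.mu) := by
    refine hP.restrF (Finset.filter_subset _ _) ?_ (half_hi (S := S) (X := X) (Y := Y) (W := W) y).hZ
    rintro ⟨s, f⟩ hx hG
    rw [mem_hiE]
    rcases EmbH.mem_F.1 hx with ⟨rfl, h1⟩ | ⟨rfl, h1⟩ | ⟨rfl, h1⟩
    · rcases hG with ⟨-, h2⟩ | h2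
      · refine Or.inl ⟨rfl, h1, ?_⟩
        simp only at h2
        push_cast at h2
        simp only
        omega
      · exact absurd h2 (by simp)
    · exact Or.inr ⟨rfl, h1⟩
    · rcases hG with ⟨h2, -⟩ | h2
      · exact absurd h2 (by simp)
      · exact absurd h2 (by simp)
  have hQ := pocket (t₀ := t₀) h (half_hi (S := S) (X := X) (Y := Y) (W := W) y) hr hra hth A hCD hA
    hS hfl
  refine ⟨_, (hP'.union hQ (disj_U X Y (by omega)) (disj_O X Y) (disj_U X Y (by omega)).symm).mono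
    (Finset.Subset.refl _) le_rfl (Set.Subset.refl _) (Set.Subset.refl _) (Set.Subset.refl _) ?_, ?_⟩
  · rintro x (hx | ⟨hx, hx'⟩)
    · exact hx
    · rcases mem_hiE.1 hx with h1 | h1
      · exact absurd h1.1 hx'
      · exact Or.inr h1.1
  · intro a ha
    obtain ⟨hz, hb⟩ := mem_zh.1 ha
    obtain ⟨x, hx, k, rfl⟩ := exists_sd_of_bS hb
    obtain ⟨s, f⟩ := x
    rcases mem_hiE.1 hx with ⟨h1, h2, h3⟩ | ⟨h1, h2⟩
    · simp only at h1 h2 h3
      subst h1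
      left
      refine Finset.mem_union_left _ (hC.base f h2 k ?_ hz)
      rcases ((base_Z (BlkS.thk h) h2 k).1 hz).1 with h4 | h4
      · exact h4
      · exfalso
        have h5 : (S.a : ℤ) ≤ S.yc - 1 - (nb f k).2 := h4.1
        have h6 : f.2 - 1 ≤ (nb f k).2 := by
          rcases k4_cases k with rfl | rfl | rfl | rfl
          · show f.2 - 1 ≤ f.2 - 1
            exact le_rfl
          · show f.2 - 1 ≤ f.2
            omega
          · show f.2 - 1 ≤ f.2 + 1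
            omega
          · show f.2 - 1 ≤ f.2
            omega
        omega
    · simp only at h1 h2
      subst h1
      exact cov_U h (by omega) hC h2 hz (fun f hf => hf)

/-- **the atlas of the lower half** -/
theorem loPAV (h : S.Ok) (hr : 0 < r) (hra : 16 * r ≤ S.a) (hth : Thick S (4 * r + 2)) {y : ℤ}
    (hy1 : S.yc - S.a + (4 * r + 1) ≤ y) (hy2 : y < S.yc + S.a) {nB : ℕ}
    (hb : BlkL S W X Y r nB t₀) (A : PAtlas ZQ S.D S.ψ ZD CD r nS nN t₀) (hCD : CD ⊆ bS ZQ S.D)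
    (hA : A.Flat) (hS : ∀ i, ¬ S.near (8 * r + 2) (A.v i))
    (hfl : ∀ i, A.m' i = 2 ∧ (A.nch i).Jump S.ψ 0) :
    ∃ C, PAV (S.env W X Y).Q ((S.env W X Y).lo y) (S.ph W X Y)
      (zh (S.env W X Y) ((S.env W X Y).lo y)) C r (nB + (12 + nN)) t₀
      (nL S Y (4 * r) ∪ reg S X Y (fun f => f ∈ S.Lo) (4 * r + 1))
      (nL S Y r ∪ reg S X Y (fun f => f ∈ S.Lo) (7 * r + 1)) (nO ∪ reg S X Y (fun f => f ∈ S.Lo) r)
      (gL S (4 * r + 1))
      (St.blkV S.ml + (S.selK (fun f => f ∈ S.Lo) A).val.map fun i => (A.K i, A.m i)) ∧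
      ∀ a ∈ zh (S.env W X Y) ((S.env W X Y).lo y), a ∈ C ∨
        Miss h W X Y (fun f => f ∈ S.Lo) CD a := by
  obtain ⟨C, hP, hC⟩ := hb
  have hP' : PAV (S.env W X Y).Q ((S.env W X Y).lo y) (S.ph W X Y)
      (zh (S.env W X Y) ((S.env W X Y).lo y)) C r nB t₀
      (nL S Y (4 * r)) (nL S Y r) nO (gL S (4 * r + 1)) (St.blkV S.ml) := by
    refine hP.restrF (Finset.filter_subset _ _) ?_
      (half_lo (S := S) (X := X) (Y := Y) (W := W) h y).hZ
    rintro ⟨s, f⟩ hx hG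
    rw [mem_loE]
    rcases EmbH.mem_F.1 hx with ⟨rfl, h1⟩ | ⟨rfl, h1⟩ | ⟨rfl, h1⟩
    · rcases hG with ⟨-, h2⟩ | h2
      · refine Or.inl ⟨rfl, h1, ?_⟩
        simp only at h2
        push_cast at h2
        simp only
        omega
      · exact absurd h2 (by simp)
    · rcases hG with ⟨h2, -⟩ | h2
      · exact absurd h2 (by simp)
      · exact absurd h2 (by simp)
    · exact Or.inr ⟨rfl, h1⟩
  have hQ := pocket (t₀ := t₀) h (half_lo (S := S) (X := X) (Y := Y) (W := W) h y) hr hra hth A hCD hA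
    hS hfl
  refine ⟨_, (hP'.union hQ (disj_L h X Y (by omega)) (disj_O X Y) (disj_L h X Y (by omega)).symm).mono
    (Finset.Subset.refl _) le_rfl (Set.Subset.refl _) (Set.Subset.refl _) (Set.Subset.refl _) ?_, ?_⟩
  · rintro x (hx | ⟨hx, hx'⟩)
    · exact hx
    · rcases mem_loE.1 hx with h1 | h1
      · exact absurd h1.1 hx'
      · exact Or.inr h1.1
  · intro a ha
    obtain ⟨hz, hb⟩ := mem_zh.1 ha
    obtain ⟨x, hx, k, rfl⟩ := exists_sd_of_bS hb
    obtain ⟨s, f⟩ := x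
    rcases mem_loE.1 hx with ⟨h1, h2, h3⟩ | ⟨h1, h2⟩
    · simp only at h1 h2 h3
      subst h1
      left
      refine Finset.mem_union_left _ (hC.base f h2 k ?_ hz)
      rcases ((base_Z (BlkS.thk h) h2 k).1 hz).1 with h4 | h4
      · exfalso
        have h5 : (S.a : ℤ) ≤ (nb f k).2 - S.yc := h4.1
        have h6 : (nb f k).2 ≤ f.2 + 1 := by
          rcases k4_cases k with rfl | rfl | rfl | rfl
          · show f.2 - 1 ≤ f.2 + 1
            omega
          · show f.2 ≤ f.2 + 1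
            omega
          · show f.2 + 1 ≤ f.2 + 1
            exact le_rfl
          · show f.2 ≤ f.2 + 1
            omega
        omega
      · exact h4
    · simp only at h1 h2
      subst h1
      exact cov_L h (by omega) hC h2 hz (fun f hf => hf)

end UpE

end

end Pool.Agent.SixB
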