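import Pool.Agent.Lib.SixB.S3BlkAtl
import Pool.Agent.Lib.SixB.S3BlkIL
import Pool.Agent.Lib.SixB.S3UpHi

/-!
# 6BD step 3, row R7: the atlas of the lower block

* `Lo.bd`: the data of the lower block of `S.env W X Y` for the assembly theorem `Asm.BD.pav`.
* `RgL`, `GLo`: the regions; `CvL`: the covered sides.
* `loPav_env`: **the partial atlas of the lower block** for `S.env W X Y`, `S.ph W X Y` with `16 r ≤ S.a`.
* `blkL`: the same in the form `UpE.BlkL` of `S3UpHi`.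
-/

set_option autoImplicit false
set_option linter.unusedSectionVars false

namespace Pool.Agent.SixB.BlkT

open Pool.Agent.Perc.Q Pool.Agent.Perc Pool.Agent.SixB.EnvB Pool.Agent.SixB.BlkW

noncomputable section

namespace Lo

/-! ### Positions on the contour -/


variable {G : BGeo} {r : ℕ}

theorem inL_v (h : Sz G r) (i : Fin 26) : (G.x1 - 7 * G.k ≤ (vL G i).1 ∧ (vL G i).1 ≤ G.x2 + 7 * G.k) ∧
    G.yc - G.c ≤ (vL G i).2 ∧ (vL G i).2 ≤ G.yc - G.a := by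
  have h1 := inR_vT h i
  unfold InR at h1
  unfold vL BGeo.rot
  simp only
  omega

theorem inL_seg (h : Sz G r) {i : Fin 26} (hi : i ≠ 12) {t : ℤ} (h1 : 0 ≤ t) (h2 : t ≤ lT G i) :
    (G.x1 - 7 * G.k ≤ (vL G i + t • dz (oT i + 2)).1 ∧
      (vL G i + t • dz (oT i + 2)).1 ≤ G.x2 + 7 * G.k) ∧
    G.yc - G.c ≤ (vL G i + t • dz (oT i + 2)).2 ∧ (vL G i + t • dz (oT i + 2)).2 ≤ G.yc - G.a := by
  have h3 := inR_seg h hi h1 h2
  unfold InR at h3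
  unfold vL
  rw [← rot_smul]
  unfold BGeo.rot
  simp only
  omega

/-! ### The lower block of a slab -/

section blk

variable {S : Slb} {W : Finset (ℤ × ℤ)} {X Y : ℤ} {r : ℕ} {t₀ : ℝ}

theorem sz (h : S.Ok) (hr : 0 < r) (ha : 16 * r ≤ S.a) : Sz (S.env W X Y).gd r := sz_env h hr ha Y

theorem loA4 (h : S.Ok) (ha : 16 * r ≤ S.a) (hW : BlkS.WinL S W Y (4 * r + 1)) :
    LoA (S.env W X Y) (4 * r + 1) :=
  BlkS.loA h hW (by omega) (by have := h.ha; omega)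

theorem loA2 (h : S.Ok) (ha : 16 * r ≤ S.a) (hW : BlkS.WinL S W Y (4 * r + 1)) :
    LoA (S.env W X Y) (2 * r + 1) :=
  BlkS.loA h (hW.mono (by omega)) (by omega) (by have := h.ha; omega)

theorem loM4 (h : S.Ok) (ha : 16 * r ≤ S.a) (hW : BlkS.WinL S W Y (4 * r + 1)) :
    LoM (S.env W X Y) (4 * r + 1) := BlkS.loM h hW (by have := h.ha; omega)

/-- the data of the lower block -/
def bd (h : S.Ok) (hr : 0 < r) (ha : 16 * r ≤ S.a) (hW : BlkS.WinL S W Y (4 * r + 1)) :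
    Asm.BD (S.env W X Y) r (S.ph W X Y) where
  o i := oT i + 2
  v := vL (S.env W X Y).gd
  l := lT (S.env W X Y).gd
  J := JT S.ml
  r0 := hr
  hl _ hi := lT_ge (sz h hr ha) hi
  sep _ _ hij := vL_sep (sz h hr ha) hij
  far _ hi _ h1 h2 j := vL_far (sz h hr ha) hi h1 h2 j
  nxt _ hi := vL_next hi
  onx i hi := by
    have := tab_next i hi
    rw [add_right_comm, this]
  sp i h1 h2 := spL (loA4 h ha hW) i h1 h2
  spj i h1 h2 := spL_jump (loA4 h ha hW) i h1 h2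
  c12 := wcast rfl rfl vL12 (cLL (BlkS.thk h) (loM4 h ha hW))
  c13 := wcast rfl rfl vL13 (cLR (BlkS.thk h) (loM4 h ha hW))
  j12 := wcast_jump rfl rfl vL12 (BlkS.jLL h hW (by have := h.ha; omega))
  j13 := wcast_jump rfl rfl vL13 (BlkS.jLR h hW (by have := h.ha; omega))
  z12 := by
    change (wcast rfl rfl vL12 (cLL (BlkS.thk h) (loM4 h ha hW))).walls (4 * r) ⊆ _
    rw [wcast_walls]
    exact cLL_walls _ _ (by omega)
  z13 := by
    change (wcast rfl rfl vL13 (cLR (BlkS.thk h) (loM4 h ha hW))).walls (4 * r) ⊆ _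
    rw [wcast_walls]
    exact cLR_walls _ _ (by omega)
  f12 f := by
    change ((wcast rfl rfl vL12 (cLL (BlkS.thk h) (loM4 h ha hW))).φF f).2 = f
    rw [wcast_φF]
    rfl
  f13 f := by
    change ((wcast rfl rfl vL13 (cLR (BlkS.thk h) (loM4 h ha hW))).φF f).2 = f
    rw [wcast_φF]
    rfl
  in12 a hp := by
    change (wcast rfl rfl vL12 (cLL (BlkS.thk h) (loM4 h ha hW))).side a = _
    rw [wcast_side]
    change a ∈ wIn 2 (vL (S.env W X Y).gd 12) (2 * r) at hp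
    rw [vL12] at hp
    obtain ⟨x, -, -, rfl⟩ := mem_wIn2.1 hp
    have e : ∀ w : ℤ × ℤ, w.2 = (S.env W X Y).gd.yc - (S.env W X Y).gd.a →
        (cLL (BlkS.thk h) (loM4 (X := X) h ha hW)).φV w = (none, w) := by
      intro w hw
      change (if _ ∧ w.2 < _ then some false else none, w) = _
      rw [if_neg]
      rintro ⟨-, h1⟩
      omega
    rw [sdz0]
    exact Prod.ext (e _ rfl) (e _ rfl)
  out13 a hp := by
    change (wcast rfl rfl vL13 (cLR (BlkS.thk h) (loM4 h ha hW))).side a = _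
    rw [wcast_side]
    change a ∈ wOut 0 (vL (S.env W X Y).gd 13) (2 * r) at hp
    rw [vL13] at hp
    obtain ⟨x, -, -, rfl⟩ := mem_wOut0.1 hp
    have e : ∀ w : ℤ × ℤ, w.2 = (S.env W X Y).gd.yc - (S.env W X Y).gd.a →
        (cLR (BlkS.thk h) (loM4 (X := X) h ha hW)).φV w = (none, w) := by
      intro w hw
      change (if _ ∧ w.2 < _ then some false else none, w) = _
      rw [if_neg]
      rintro ⟨-, h1⟩
      omega
    rw [sdz0]
    exact Prod.ext (e _ rfl) (e _ rfl)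
  sg i hi t h1 h2 := sgL (loA2 h ha hW) i hi (by push_cast; omega) (by push_cast; omega)
  sgj i hi t h1 h2 := sgL_jump (loA2 h ha hW) i hi (by push_cast; omega) (by push_cast; omega)

theorem cLL_mem {E : SEnv} (hE : Thk E) {R ρ : ℕ} (h : LoM E R) (hρ : ρ ≤ R) {y : ℤ}
    (h1 : E.gd.yc - E.gd.a - ρ ≤ y) (h2 : y < E.gd.yc - E.gd.a) :
    sd E.Q (some false, (E.gd.x1, y)) 3 ∈ (cLL hE h).walls ρ := by
  unfold WChart.walls
  rw [Finset.mem_image]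
  refine ⟨sd ZQ (E.gd.x1, y) 3, Finset.mem_union_right _ (mem_wOut3.2 ⟨y, h1, h2, rfl⟩), ?_⟩
  have hx := h.hx
  have hf : (E.gd.x1, y) ∈ Wdg 3 3 (E.gd.x1, E.gd.yc - E.gd.a) R := by
    rw [mem_w33]
    simp only
    omega
  change (cLLp hE h).side _ = _
  rw [(cLLp hE h).side_sdR hf]
  change sd E.Q (if _ then some false else none, _) 3 = _
  rw [if_pos]
  simp only
  omega

theorem cLR_mem {E : SEnv} (hE : Thk E) {R ρ : ℕ} (h : LoM E R) (hρ : ρ ≤ R) {y : ℤ}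
    (h1 : E.gd.yc - E.gd.a - ρ ≤ y) (h2 : y < E.gd.yc - E.gd.a) :
    sd E.Q (some false, (E.gd.x2 - 1, y)) 1 ∈ (cLR hE h).walls ρ := by
  unfold WChart.walls
  rw [Finset.mem_image]
  refine ⟨sd ZQ (E.gd.x2 - 1, y) 1, Finset.mem_union_left _ ?_, ?_⟩
  · change _ ∈ wIn 3 _ _
    exact mem_wIn3.2 ⟨y, h1, h2, rfl⟩
  have hx := h.hx
  have hf : (E.gd.x2 - 1, y) ∈ Wdg 3 0 (E.gd.x2, E.gd.yc - E.gd.a) R := by
    rw [mem_w30]
    simp only
    omega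
  change (cLRp hE h).side _ = _
  rw [(cLRp hE h).side_sdR hf]
  change sd E.Q (if _ then some false else none, _) 1 = _
  rw [if_pos]
  simp only
  omega

end blk

end Lo

/-! ### The regions -/

/-- sheet none, or the pocket within `ρ` below the lower mouth -/
def RgL (E : SEnv) (ρ : ℕ) : Set (Option Bool × (ℤ × ℤ)) :=
  {x | x.1 = none ∨ (x.1 = some false ∧ (E.gd.x1 ≤ x.2.1 ∧ x.2.1 < E.gd.x2) ∧
    E.gd.yc - E.gd.a - ρ ≤ x.2.2 ∧ x.2.2 < E.gd.yc - E.gd.a)}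

/-- the faces of all charts of the lower block -/
def GLo (E : SEnv) (ρ : ℕ) : Set (Option Bool × (ℤ × ℤ)) :=
  {x | (x.1 = none ∧ (E.gd.x1 - 7 * E.gd.k - ρ ≤ x.2.1 ∧ x.2.1 < E.gd.x2 + 7 * E.gd.k + ρ) ∧
      (E.gd.yc - E.gd.c - ρ ≤ x.2.2 ∧ x.2.2 < E.gd.yc - E.gd.a + ρ)) ∨
    (x.1 = some false ∧ (E.gd.x1 ≤ x.2.1 ∧ x.2.1 < E.gd.x2) ∧
      E.gd.yc - E.gd.a - ρ ≤ x.2.2 ∧ x.2.2 < E.gd.yc - E.gd.a)}

/-- the island sides of the lower block and of the pocket within `2 r` below the mouth -/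
def CvL (E : SEnv) (r : ℕ) (a : (Option Bool × (ℤ × ℤ)) × (Option Bool × (ℤ × ℤ))) : Prop :=
  (∃ f ∈ E.base, ∃ k, E.gd.solid false (nb f k) ∧ a = sd E.Q (none, f) k ∧ a ∈ E.Z) ∨
    ∃ x y : ℤ, (E.gd.x1 ≤ x ∧ x < E.gd.x2) ∧ (E.gd.yc - E.gd.a - 2 * r ≤ y ∧ y < E.gd.yc - E.gd.a) ∧
      ∃ k, a = sd E.Q (some false, (x, y)) k ∧ a ∈ E.Z

namespace Lo

section blk

variable {S : Slb} {W : Finset (ℤ × ℤ)} {X Y : ℤ} {r : ℕ} {t₀ : ℝ}

theorem cov (h : S.Ok) (hr : 0 < r) (ha : 16 * r ≤ S.a) (hW : BlkS.WinL S W Y (4 * r + 1))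
    {a : (Option Bool × (ℤ × ℤ)) × (Option Bool × (ℤ × ℤ))} (hc : CvL (S.env W X Y) r a) :
    (∃ i, i ≠ 12 ∧ ∃ u : ℤ, 0 ≤ u ∧ u < (bd (X := X) h hr ha hW).l i ∧
        a = Asm.bsd (lside ((bd (X := X) h hr ha hW).o i) ((bd (X := X) h hr ha hW).v i) u)) ∨
      a ∈ (bd (X := X) h hr ha hW).c12.walls (2 * r) ∨
        a ∈ (bd (X := X) h hr ha hW).c13.walls (2 * r) := by
  have hE : Thk (S.env W X Y) := BlkS.thk h
  have hM := loM4 (X := X) h ha hW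
  have ha0 := h.ha
  have hak := h.hak
  rcases hc with ⟨f, hf, k, hk, rfl, hz⟩ | ⟨x, y, ⟨h1, h2⟩, ⟨h4, h3⟩, k, rfl, hz⟩
  · left
    have hb := mem_base.1 hf
    obtain ⟨i, hi, u, hu1, hu2, hu3⟩ := clsL (sz h hr ha) hk hb.2.2 (by
      rintro ⟨rfl, h1, h2⟩
      have h3 := ((base_Z hE hf 0).1 hz).2.2
      refine h3 ⟨⟨rfl, h1, h2⟩, ?_⟩
      obtain ⟨x, y⟩ := f
      rw [nb0]
      simp only at h1 h2 ⊢
      exact hM.hL x (y - 1) h1.1 h1.2 (by rw [h2]; push_cast; omega) (by rw [h2]; omega))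
    refine ⟨i, hi, u, hu1, hu2, ?_⟩
    rw [sd_base hE hf, hu3]
    rfl
  · right
    change S.x1 + Y ≤ x at h1
    change x < S.x2 + Y at h2
    change y < S.yc - (S.a : ℤ) at h3
    change S.yc - (S.a : ℤ) - 2 * r ≤ y at h4
    have hg : (x, y) ∈ (S.env W X Y).L := hM.hL x y h1 h2 (by
      change S.yc - (S.a : ℤ) - ((4 * r + 1 : ℕ) : ℤ) ≤ y
      push_cast
      omega) h3
    have hg' : (x, y) ∈ shF Y S.Lo := hg
    rw [BlkS.mem_shF] at hg'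
    have hD := UpE.lo_mem h hg'
    have e : S.shrF X Y (x - Y, y) = (some false, (x, y)) := by
      rw [Slb.Ok.shrF_L (UpE.not_up h hD hg')]
      unfold shv
      simp
    have hz' := hz
    rw [← e] at hz'
    have hb := UpE.back h hD hz'
    rw [WG.sd_bS_iff] at hb
    have key : k = 3 ∧ x - Y = S.x1 ∨ k = 1 ∧ x - Y = S.x2 - 1 := by
      have hs := h.slab.sub
      rcases k4 k with rfl | rfl | rfl | rfl
      · rw [WG.bh0] at hb
        exact absurd (hs (x - Y) (y - 1) (by omega) (by omega) (by omega) (by omega)) hb.2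
      · rw [WG.bh1] at hb
        right
        refine ⟨rfl, ?_⟩
        by_contra hc
        exact hb.2 (hs (x - Y + 1) y (by omega) (by omega) (by omega) (by omega))
      · rw [WG.bh2] at hb
        exact absurd (hs (x - Y) (y + 1) (by omega) (by omega) (by omega) (by omega)) hb.2
      · rw [WG.bh3] at hb
        left
        refine ⟨rfl, ?_⟩
        by_contra hc
        exact hb.2 (hs (x - Y - 1) y (by omega) (by omega) (by omega) (by omega))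
    rcases key with ⟨rfl, h5⟩ | ⟨rfl, h5⟩
    · left
      change _ ∈ (wcast rfl rfl vL12 (cLL hE hM)).walls (2 * r)
      rw [wcast_walls, show x = S.x1 + Y by omega]
      exact cLL_mem hE hM (by omega) (by push_cast; exact h4) h3
    · right
      change _ ∈ (wcast rfl rfl vL13 (cLR hE hM)).walls (2 * r)
      rw [wcast_walls, show x = S.x2 + Y - 1 by omega]
      exact cLR_mem hE hM (by omega) (by push_cast; exact h4) h3

theorem box12 (h : S.Ok) (hr : 0 < r) (ha : 16 * r ≤ S.a) (hW : BlkS.WinL S W Y (4 * r + 1)) {ρ : ℕ}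
    (hρ : ρ ≤ 4 * r + 1) {x : Option Bool × (ℤ × ℤ)} (hx : x ∈ (bd (X := X) h hr ha hW).c12.box ρ) :
    x ∈ RgL (S.env W X Y) ρ ∧ (S.x1 + Y - ρ ≤ x.2.1 ∧ x.2.1 < S.x1 + Y + ρ) ∧
      S.yc - S.a - ρ ≤ x.2.2 ∧ x.2.2 < S.yc - S.a + ρ := by
  have h3 := (loM4 (X := X) h ha hW).hx
  change x ∈ (wcast rfl rfl vL12 (cLL (BlkS.thk h) (loM4 (X := X) h ha hW))).box ρ at hx
  rw [wcast_box] at hx
  unfold WChart.box at hx
  rw [Finset.mem_image] at hx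
  obtain ⟨f, hf, rfl⟩ := hx
  have hf' := mem_Bx.1 (Wdg_sub_Bx hf)
  change S.x1 + Y - (ρ : ℤ) ≤ f.1 ∧ f.1 < S.x1 + Y + ρ ∧ S.yc - S.a - ρ ≤ f.2 ∧
    f.2 < S.yc - S.a + ρ at hf'
  change S.x1 + Y + ((4 * r + 1 : ℕ) : ℤ) ≤ S.x2 + Y at h3
  change (if S.x1 + Y ≤ f.1 ∧ f.2 < S.yc - S.a then some false else none, f) ∈
    RgL (S.env W X Y) ρ ∧ (S.x1 + Y - ρ ≤ f.1 ∧ f.1 < S.x1 + Y + ρ) ∧
      S.yc - S.a - ρ ≤ f.2 ∧ f.2 < S.yc - S.a + ρ
  refine ⟨?_, ⟨hf'.1, hf'.2.1⟩, hf'.2.2⟩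
  split_ifs with h4
  · exact Or.inr ⟨rfl, ⟨h4.1, by change f.1 < S.x2 + Y; omega⟩, hf'.2.2.1, h4.2⟩
  · exact Or.inl rfl

theorem box13 (h : S.Ok) (hr : 0 < r) (ha : 16 * r ≤ S.a) (hW : BlkS.WinL S W Y (4 * r + 1)) {ρ : ℕ}
    (hρ : ρ ≤ 4 * r + 1) {x : Option Bool × (ℤ × ℤ)} (hx : x ∈ (bd (X := X) h hr ha hW).c13.box ρ) :
    x ∈ RgL (S.env W X Y) ρ ∧ (S.x2 + Y - ρ ≤ x.2.1 ∧ x.2.1 < S.x2 + Y + ρ) ∧
      S.yc - S.a - ρ ≤ x.2.2 ∧ x.2.2 < S.yc - S.a + ρ := by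
  have h3 := (loM4 (X := X) h ha hW).hx
  change x ∈ (wcast rfl rfl vL13 (cLR (BlkS.thk h) (loM4 (X := X) h ha hW))).box ρ at hx
  rw [wcast_box] at hx
  unfold WChart.box at hx
  rw [Finset.mem_image] at hx
  obtain ⟨f, hf, rfl⟩ := hx
  have hf' := mem_Bx.1 (Wdg_sub_Bx hf)
  change S.x2 + Y - (ρ : ℤ) ≤ f.1 ∧ f.1 < S.x2 + Y + ρ ∧ S.yc - S.a - ρ ≤ f.2 ∧
    f.2 < S.yc - S.a + ρ at hf'
  change S.x1 + Y + ((4 * r + 1 : ℕ) : ℤ) ≤ S.x2 + Y at h3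
  change (if f.1 < S.x2 + Y ∧ f.2 < S.yc - S.a then some false else none, f) ∈
    RgL (S.env W X Y) ρ ∧ (S.x2 + Y - ρ ≤ f.1 ∧ f.1 < S.x2 + Y + ρ) ∧
      S.yc - S.a - ρ ≤ f.2 ∧ f.2 < S.yc - S.a + ρ
  refine ⟨?_, ⟨hf'.1, hf'.2.1⟩, hf'.2.2⟩
  split_ifs with h4
  · exact Or.inr ⟨rfl, ⟨by change S.x1 + Y ≤ f.1; omega, h4.1⟩, hf'.2.2.1, h4.2⟩
  · exact Or.inl rfl

end blk

end Lo

section env

variable {S : Slb} {W : Finset (ℤ × ℤ)} {X Y : ℤ} {r : ℕ} {t₀ : ℝ}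

/-- **the partial atlas of the lower block of the environment of a slab** -/
theorem loPav_env (h : S.Ok) (hr : 0 < r) (ha : 16 * r ≤ S.a) (hW : BlkS.WinL S W Y (4 * r + 1))
    (ht : t₀ ≤ tB) {C : Finset ((Option Bool × (ℤ × ℤ)) × (Option Bool × (ℤ × ℤ)))}
    (hC : ∀ a ∈ C, CvL (S.env W X Y) r a) {nB : ℕ} (hn : nBS S r ≤ nB) :
    PAV (S.env W X Y).Q (S.env W X Y).F (S.ph W X Y) (S.env W X Y).Z C r nB t₀
      (RgL (S.env W X Y) (4 * r)) (RgL (S.env W X Y) r) {x | x.1 = none}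
      (GLo (S.env W X Y) (4 * r + 1)) (St.blkV S.ml) := by
  have hx := h.hx
  have hak := h.hak
  have hsz := Lo.sz (W := W) (X := X) (Y := Y) h hr ha
  have h1 : -(2 * (Real.pi / 3)) ≤ S.ml := by
    have := h.mu2
    unfold Slb.mu at this
    unfold Slb.ml
    have := Real.pi_pos
    linarith
  have h2 : S.ml ≤ Real.pi := by
    have := h.mu1
    unfold Slb.mu at this
    unfold Slb.ml
    have := Real.pi_pos
    linarith
  have key := (Lo.bd (X := X) h hr ha hW).pav (t₀ := t₀)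
    (G0 := {f | (S.x1 + Y - 7 * S.k - ((4 * r + 1 : ℕ) : ℤ) ≤ f.1 ∧
      f.1 < S.x2 + Y + 7 * S.k + ((4 * r + 1 : ℕ) : ℤ)) ∧
      (S.yc - (S.env W X Y).gd.c - ((4 * r + 1 : ℕ) : ℤ) ≤ f.2 ∧
        f.2 < S.yc - S.a + ((4 * r + 1 : ℕ) : ℤ))})
    (fun i => Or.inl (ht.trans (tpos_JT h1 h2 i)))
    (fun i f hf => ?_) (fun i hi t h3 h4 f hf => ?_) (C := C)
    (fun a ha' => Lo.cov h hr ha hW (hC a ha')) (nB := nB)
    ((nBlk_env h hr ha Y).trans hn)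
  · rw [← types_JT]
    have hc : ((S.env W X Y).gd.c : ℤ) = 3 * S.k + (S.x2 - S.x1) := by
      change ((3 * S.k + (S.x2 - S.x1).toNat : ℕ) : ℤ) = _
      push_cast
      omega
    refine key.mono (Finset.Subset.refl _) le_rfl ?_ ?_ (Set.Subset.refl _) ?_
    · rintro x ((h3 | h3) | h3)
      · exact Or.inl h3
      · exact (Lo.box12 h hr ha hW (by omega) (Finset.mem_coe.1 h3)).1
      · exact (Lo.box13 h hr ha hW (by omega) (Finset.mem_coe.1 h3)).1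
    · rintro x ((h3 | h3) | h3)
      · exact Or.inl h3
      · exact (Lo.box12 h hr ha hW (by omega) (Finset.mem_coe.1 h3)).1
      · exact (Lo.box13 h hr ha hW (by omega) (Finset.mem_coe.1 h3)).1
    · rintro x ((h3 | h3) | h3)
      · exact Or.inl h3
      · obtain ⟨h4 | h4, h5, h6⟩ := Lo.box12 h hr ha hW le_rfl (Finset.mem_coe.1 h3)
        · refine Or.inl ⟨h4, ?_, ?_, ?_⟩
          · change S.x1 + Y - 7 * (S.k : ℤ) - ((4 * r + 1 : ℕ) : ℤ) ≤ x.2.1 ∧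
              x.2.1 < S.x2 + Y + 7 * (S.k : ℤ) + ((4 * r + 1 : ℕ) : ℤ)
            omega
          · change S.yc - ((S.env W X Y).gd.c : ℤ) - ((4 * r + 1 : ℕ) : ℤ) ≤ x.2.2
            omega
          · exact h6.2
        · exact Or.inr h4
      · obtain ⟨h4 | h4, h5, h6⟩ := Lo.box13 h hr ha hW le_rfl (Finset.mem_coe.1 h3)
        · refine Or.inl ⟨h4, ?_, ?_, ?_⟩
          · change S.x1 + Y - 7 * (S.k : ℤ) - ((4 * r + 1 : ℕ) : ℤ) ≤ x.2.1 ∧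
              x.2.1 < S.x2 + Y + 7 * (S.k : ℤ) + ((4 * r + 1 : ℕ) : ℤ)
            omega
          · change S.yc - ((S.env W X Y).gd.c : ℤ) - ((4 * r + 1 : ℕ) : ℤ) ≤ x.2.2
            omega
          · exact h6.2
        · exact Or.inr h4
  · have h3 := Lo.inL_v hsz i
    change f ∈ Bx (vL (S.env W X Y).gd i) (4 * r + 1) at hf
    rw [mem_Bx] at hf
    change (S.x1 + Y - 7 * (S.k : ℤ) ≤ (vL (S.env W X Y).gd i).1 ∧
      (vL (S.env W X Y).gd i).1 ≤ S.x2 + Y + 7 * (S.k : ℤ)) ∧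
      S.yc - ((S.env W X Y).gd.c : ℤ) ≤ (vL (S.env W X Y).gd i).2 ∧
        (vL (S.env W X Y).gd i).2 ≤ S.yc - (S.a : ℤ) at h3
    refine ⟨⟨?_, ?_⟩, ?_, ?_⟩ <;> omega
  · change t + 3 * (r : ℤ) ≤ lT (S.env W X Y).gd i at h4
    have h5 := Lo.inL_seg hsz hi (t := t) (by omega) (by omega)
    change f ∈ Bx (vL (S.env W X Y).gd i + t • dz (oT i + 2)) (2 * r + 1) at hf
    rw [mem_Bx] at hf
    change (S.x1 + Y - 7 * (S.k : ℤ) ≤ (vL (S.env W X Y).gd i + t • dz (oT i + 2)).1 ∧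
      (vL (S.env W X Y).gd i + t • dz (oT i + 2)).1 ≤ S.x2 + Y + 7 * (S.k : ℤ)) ∧
      S.yc - ((S.env W X Y).gd.c : ℤ) ≤ (vL (S.env W X Y).gd i + t • dz (oT i + 2)).2 ∧
        (vL (S.env W X Y).gd i + t • dz (oT i + 2)).2 ≤ S.yc - (S.a : ℤ) at h5
    refine ⟨⟨?_, ?_⟩, ?_, ?_⟩ <;> omega

/-- **the atlas of the lower block** -/
theorem blkL (h : S.Ok) (hr : 0 < r) (ha : 16 * r ≤ S.a) (hW : BlkS.WinL S W Y (4 * r + 1))
    (ht : t₀ ≤ tB) {nB : ℕ} (hn : nBS S r ≤ nB) : UpE.BlkL S W X Y r nB t₀ := by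
  classical
  refine ⟨(S.env W X Y).Z.filter fun a => CvL (S.env W X Y) r a, ?_, ?_, ?_⟩
  · refine (loPav_env (C := (S.env W X Y).Z.filter fun a => CvL (S.env W X Y) r a) h hr ha hW ht
      (fun a ha => (Finset.mem_filter.1 ha).2) hn).mono (Finset.Subset.refl _) le_rfl ?_ ?_ ?_ ?_
    · rintro x (h1 | ⟨h1, h2, h3, h4⟩)
      · exact Or.inl h1
      · exact Or.inr ⟨h1, h2.1, h2.2, h4, h3⟩
    · rintro x (h1 | ⟨h1, h2, h3, h4⟩)
      · exact Or.inl h1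
      · exact Or.inr ⟨h1, h2.1, h2.2, h4, h3⟩
    · exact Set.Subset.refl _
    · rintro x (⟨h1, -, h3⟩ | ⟨h1, -⟩)
      · exact Or.inl ⟨h1, h3.2⟩
      · exact Or.inr h1
  · intro f hf k h1 h2
    exact Finset.mem_filter.2 ⟨h2, Or.inl ⟨f, hf, k, h1, rfl, h2⟩⟩
  · rintro ⟨x, y⟩ hg k h1 h2 h3 h4 h5
    exact Finset.mem_filter.2 ⟨h5, Or.inr ⟨x, y, ⟨h1, h2⟩, ⟨h4, h3⟩, k, rfl, h5⟩⟩

end env

end

end Pool.Agent.SixB.BlkT
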