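import Pool.Agent.Lib.SixB.S3BlkA

/-!
# 6BD step 3, R5: the blocking event of an atlas

* `Colr A D`: `D : Φ → Bool` is a colouring: in every chart it is the colour of an integer parity.
* `AtBlk A D ω`: all cells of the atlas are blocked for the first colour: special cells `(box 2r, box 4r)`, natural
  cells `(box r, box 2r)`, mouths `(Mth (r + h + 1) h (l / 2 + 1), Mth (2r) h l)`.
* `AtBlk.Xs`, `AtBlk.Xn`, `AtBlk.Xm`: no strand crosses a cell.
* `SubBlk A D J`: the same for a sub-family of cells (`subBlk_pos`, `dep_subBlk`, `up_subBlk`, `atEv_Xc`).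
* `atBlk_pos`: its probability is at least `g₀ (nS, nN)`; `dep_atBlk`: it depends only on the faces off the boxes of
  radius `r` of the special charts; `up_atBlk`: it increases in the other colour; `own_atBlk`: Harris with another
  function which increases in the other colour (own factors of the vertices of weight `0`).
-/

set_option autoImplicit false
set_option linter.unusedSectionVars false

namespace Pool.Agent.SixB.Bk

open Pool.Agent.Perc.Q Relation
open Pool.Agent.SixB hiding Zs_split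

noncomputable section

variable {V Φ : Type} [DecidableEq V] [DecidableEq Φ]
variable {Q : QC V Φ} {F : Finset Φ} {ψ : V × V → ℝ} {Z : Finset (V × V)} {r nS nN : ℕ} {t₀ : ℝ}
  {ω ω' : Φ → Bool}

/-- `D` is a colouring of the charts of the atlas -/
structure Colr (A : Atlas Q F ψ Z r nS nN t₀) (D : Φ → Bool) where
  cS : A.κ → ℤ
  cN : A.ι → ℤ
  cM : A.μ → ℤ
  hS : ∀ i, ∀ f ∈ Wdg (A.m i) (A.o i) (A.v i) (4 * r + 1), D ((A.ch i).φF f) = !Perc.parD (cS i) f
  hN : ∀ i, ∀ f ∈ Wdg (A.m' i) (A.o' i) (A.v' i) (2 * r + 1),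
    D ((A.nch i).φF f) = !Perc.parD (cN i) f
  hM : ∀ i, ∀ f ∈ Mth (A.lf i) (A.w i) (2 * r + 1) (A.h i) (A.l i + 1),
    D ((A.mch i).φF f) = !Perc.parD (cM i) f

/-- the core of a mouth -/
def mcore (A : Atlas Q F ψ Z r nS nN t₀) (i : A.μ) : Finset Φ :=
  (Mth (A.lf i) (A.w i) (r + A.h i + 1) (A.h i) (A.l i / 2 + 1)).image (A.mch i).φF

/-- the cell of a mouth -/
def mcell (A : Atlas Q F ψ Z r nS nN t₀) (i : A.μ) : Finset Φ :=
  (Mth (A.lf i) (A.w i) (2 * r) (A.h i) (A.l i)).image (A.mch i).φF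

/-- All cells of the atlas are blocked. -/
def AtBlk (A : Atlas Q F ψ Z r nS nN t₀) (D : Φ → Bool) (ω : Φ → Bool) : Prop :=
  (∀ i, CellBlk Q D F ((A.ch i).box (2 * r)) ((A.ch i).box (4 * r)) ω) ∧
  (∀ i, CellBlk Q D F ((A.nch i).box r) ((A.nch i).box (2 * r)) ω) ∧
  ∀ i, CellBlk Q D F (mcore A i) (mcell A i) ω

/-- the events of the family -/
def atEv (A : Atlas Q F ψ Z r nS nN t₀) (D : Φ → Bool) : A.κ ⊕ (A.ι ⊕ A.μ) → (Φ → Bool) → Prop
  | .inl i => CellBlk Q D F ((A.ch i).box (2 * r)) ((A.ch i).box (4 * r))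
  | .inr (.inl i) => CellBlk Q D F ((A.nch i).box r) ((A.nch i).box (2 * r))
  | .inr (.inr i) => CellBlk Q D F (mcore A i) (mcell A i)

theorem atBlk_iff (A : Atlas Q F ψ Z r nS nN t₀) (D : Φ → Bool) (ω : Φ → Bool) :
    AtBlk A D ω ↔ ∀ k, atEv A D k ω := by
  constructor
  · rintro ⟨h1, h2, h3⟩ (i | i | i)
    · exact h1 i
    · exact h2 i
    · exact h3 i
  · intro h
    exact ⟨fun i => h (.inl i), fun i => h (.inr (.inl i)), fun i => h (.inr (.inr i))⟩

theorem AtBlk.Xs {A : Atlas Q F ψ Z r nS nN t₀} {D : Φ → Bool} (C : Colr A D)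
    (h : AtBlk A D ω) (i : A.κ) :
    Cell.Xc Q F ((A.ch i).box (2 * r)) ((A.ch i).box (4 * r)) ω = 0 :=
  wch_Xc (A.ch i) (C.hS i) (by omega) (by omega) (h.1 i)

theorem AtBlk.Xn {A : Atlas Q F ψ Z r nS nN t₀} {D : Φ → Bool} (C : Colr A D)
    (h : AtBlk A D ω) (i : A.ι) :
    Cell.Xc Q F ((A.nch i).box r) ((A.nch i).box (2 * r)) ω = 0 :=
  wch_Xc (A.nch i) (C.hN i) (by omega) (by omega) (h.2.1 i)

theorem AtBlk.Xm {A : Atlas Q F ψ Z r nS nN t₀} {D : Φ → Bool} (C : Colr A D)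
    (h : AtBlk A D ω) (i : A.μ) : Cell.Xc Q F (mcore A i) (mcell A i) ω = 0 := by
  have h1 := A.h_lt i
  exact mch_Xc (A.mch i) (C.hM i) (by omega) (by omega) (by omega) (by omega) (h.2.2 i)

open Classical in
/-- `AtBlk` increases in the other colour -/
theorem up_atBlk (A : Atlas Q F ψ Z r nS nN t₀) (D : Φ → Bool) :
    Up (fun f => !D f) (fun ω => if AtBlk A D ω then (1 : ℝ) else 0) := by
  intro ω ω' hω
  show (if AtBlk A D ω then (1 : ℝ) else 0) ≤ if AtBlk A D ω' then (1 : ℝ) else 0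
  by_cases h : AtBlk A D ω
  · have h' : AtBlk A D ω' := ⟨fun i => (h.1 i).up hω, fun i => (h.2.1 i).up hω,
      fun i => (h.2.2 i).up hω⟩
    rw [if_pos h, if_pos h']
  · rw [if_neg h]
    split_ifs <;> norm_num

/-- the union of the boxes of radius `r` of the special charts -/
def core (A : Atlas Q F ψ Z r nS nN t₀) : Finset Φ :=
  let _ := A.fκ
  Finset.univ.biUnion fun i : A.κ => (A.ch i).box r

theorem notMem_core {A : Atlas Q F ψ Z r nS nN t₀} {f : Φ} (h : ∀ i, f ∉ (A.ch i).box r) :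
    f ∉ core A := by
  unfold core
  intro hf
  let _ := A.fκ
  obtain ⟨i, -, h1⟩ := Finset.mem_biUnion.mp hf
  exact h i h1

open Classical in
/-- `AtBlk` depends only on the faces off the boxes of radius `r` -/
theorem dep_atBlk (A : Atlas Q F ψ Z r nS nN t₀) (D : Φ → Bool) :
    Dep ((F \ core A : Finset Φ) : Set Φ) (fun ω => if AtBlk A D ω then (1 : ℝ) else 0) := by
  intro ω ω' h
  have h' : ∀ f ∈ F, (∀ i, f ∉ (A.ch i).box r) → ω f = ω' f := fun f hf hn =>
    h f (Finset.mem_coe.mpr (Finset.mem_sdiff.mpr ⟨hf, notMem_core hn⟩))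
  have e1 : ∀ i, CellBlk Q D F ((A.ch i).box (2 * r)) ((A.ch i).box (4 * r)) ω ↔
      CellBlk Q D F ((A.ch i).box (2 * r)) ((A.ch i).box (4 * r)) ω' := by
    intro i
    refine CellBlk.congr fun f hf => ?_
    obtain ⟨h1, h2⟩ := Finset.mem_sdiff.mp hf
    refine h' f (wbox_F (A.ch i) (by omega) h1) fun j hj => ?_
    by_cases hij : i = j
    · subst hij
      exact h2 (wbox_sub (A.ch i) (by omega) hj)
    · exact Finset.disjoint_left.mp (A.disj i j hij) h1 (wbox_sub (A.ch j) (by omega) hj)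
  have e2 : ∀ i, CellBlk Q D F ((A.nch i).box r) ((A.nch i).box (2 * r)) ω ↔
      CellBlk Q D F ((A.nch i).box r) ((A.nch i).box (2 * r)) ω' := by
    intro i
    refine CellBlk.congr fun f hf => ?_
    obtain ⟨h1, -⟩ := Finset.mem_sdiff.mp hf
    exact h' f (wbox_F (A.nch i) (by omega) h1) fun j hj =>
      Finset.disjoint_left.mp (A.ndisj i j) h1 hj
  have e3 : ∀ i, CellBlk Q D F (mcore A i) (mcell A i) ω ↔
      CellBlk Q D F (mcore A i) (mcell A i) ω' := by
    intro i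
    refine CellBlk.congr fun f hf => ?_
    obtain ⟨h1, -⟩ := Finset.mem_sdiff.mp hf
    refine h' f ((A.mch i).image_sub (WG.Mth_mono (by omega) (by omega)) h1) fun j hj =>
      Finset.disjoint_left.mp (A.mdisj i j) h1 hj
  have : AtBlk A D ω ↔ AtBlk A D ω' :=
    and_congr (forall_congr' e1) (and_congr (forall_congr' e2) (forall_congr' e3))
  simp only [this]

/-- The cells of the sub-family `J` are blocked. -/
def SubBlk (A : Atlas Q F ψ Z r nS nN t₀) (D : Φ → Bool) (J : A.κ ⊕ (A.ι ⊕ A.μ) → Prop)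
    (ω : Φ → Bool) : Prop := ∀ k, J k → atEv A D k ω

/-- the faces of the ring of a cell -/
def ringOf (A : Atlas Q F ψ Z r nS nN t₀) : A.κ ⊕ (A.ι ⊕ A.μ) → Finset Φ
  | .inl i => (A.ch i).box (4 * r) \ (A.ch i).box (2 * r)
  | .inr (.inl i) => (A.nch i).box (2 * r) \ (A.nch i).box r
  | .inr (.inr i) => mcell A i \ mcore A i

theorem atEv_congr {A : Atlas Q F ψ Z r nS nN t₀} {D : Φ → Bool} {k : A.κ ⊕ (A.ι ⊕ A.μ)}
    (h : ∀ f ∈ ringOf A k, ω f = ω' f) : atEv A D k ω ↔ atEv A D k ω' := by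
  rcases k with i | i | i
  · exact CellBlk.congr h
  · exact CellBlk.congr h
  · exact CellBlk.congr h

theorem atEv_up {A : Atlas Q F ψ Z r nS nN t₀} {D : Φ → Bool} {k : A.κ ⊕ (A.ι ⊕ A.μ)}
    (hω : ∀ f, ω f = (!D f) → ω' f = !D f) (h : atEv A D k ω) : atEv A D k ω' := by
  rcases k with i | i | i
  · exact CellBlk.up hω h
  · exact CellBlk.up hω h
  · exact CellBlk.up hω h

theorem SubBlk.congr {A : Atlas Q F ψ Z r nS nN t₀} {D : Φ → Bool}
    {J : A.κ ⊕ (A.ι ⊕ A.μ) → Prop} (h : ∀ k, J k → ∀ f ∈ ringOf A k, ω f = ω' f) :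
    SubBlk A D J ω ↔ SubBlk A D J ω' :=
  forall_congr' fun k => forall_congr' fun hk => atEv_congr (h k hk)

open Classical in
/-- a sub-family depends only on the rings of its cells -/
theorem dep_subBlk {A : Atlas Q F ψ Z r nS nN t₀} {D : Φ → Bool}
    {J : A.κ ⊕ (A.ι ⊕ A.μ) → Prop} {S : Set Φ} (h : ∀ k, J k → ∀ f ∈ ringOf A k, f ∈ S) :
    Dep S (fun ω => if SubBlk A D J ω then (1 : ℝ) else 0) := by
  intro ω ω' hω
  have : SubBlk A D J ω ↔ SubBlk A D J ω' := SubBlk.congr fun k hk f hf => hω f (h k hk f hf)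
  simp only [this]

open Classical in
theorem up_subBlk (A : Atlas Q F ψ Z r nS nN t₀) (D : Φ → Bool)
    (J : A.κ ⊕ (A.ι ⊕ A.μ) → Prop) :
    Up (fun f => !D f) (fun ω => if SubBlk A D J ω then (1 : ℝ) else 0) := by
  intro ω ω' hω
  show (if SubBlk A D J ω then (1 : ℝ) else 0) ≤ if SubBlk A D J ω' then (1 : ℝ) else 0
  by_cases h : SubBlk A D J ω
  · have h' : SubBlk A D J ω' := fun k hk => atEv_up hω (h k hk)
    rw [if_pos h, if_pos h']
  · rw [if_neg h]
    split_ifs <;> norm_num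

/-- a blocked cell of a sub-family is not crossed -/
theorem atEv_Xc {A : Atlas Q F ψ Z r nS nN t₀} {D : Φ → Bool} (C : Colr A D) :
    (∀ i, atEv A D (.inl i) ω → Cell.Xc Q F ((A.ch i).box (2 * r)) ((A.ch i).box (4 * r)) ω = 0) ∧
    (∀ i, atEv A D (.inr (.inl i)) ω →
      Cell.Xc Q F ((A.nch i).box r) ((A.nch i).box (2 * r)) ω = 0) ∧
    ∀ i, atEv A D (.inr (.inr i)) ω → Cell.Xc Q F (mcore A i) (mcell A i) ω = 0 := by
  refine ⟨fun i h => wch_Xc (A.ch i) (C.hS i) (by omega) (by omega) h,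
    fun i h => wch_Xc (A.nch i) (C.hN i) (by omega) (by omega) h, fun i h => ?_⟩
  have h1 := A.h_lt i
  exact mch_Xc (A.mch i) (C.hM i) (by omega) (by omega) (by omega) (by omega) h

open Classical in
/-- **The probability that the cells of a sub-family are blocked.** -/
theorem subBlk_pos (nS nN : ℕ) : ∃ g₀ : ℝ, 0 < g₀ ∧ ∀ {V Φ : Type} [DecidableEq V] [DecidableEq Φ]
    {Q : QC V Φ} {F : Finset Φ} {ψ : V × V → ℝ} {Z : Finset (V × V)} {r : ℕ} {t₀ : ℝ}
    (A : Atlas Q F ψ Z r nS nN t₀) (D : Φ → Bool) (J : A.κ ⊕ (A.ι ⊕ A.μ) → Prop), Colr A D →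
    0 < r → g₀ ≤ av F (fun ω => if SubBlk A D J ω then (1 : ℝ) else 0) := by
  obtain ⟨c₁, hc₁, p₁⟩ := wch_pos
  obtain ⟨c₂, hc₂, p₂⟩ := mch_pos
  set c : ℝ := min (min c₁ c₂) 1 with hc
  have hc0 : 0 < c := lt_min (lt_min hc₁ hc₂) one_pos
  have hc1 : c ≤ 1 := min_le_right _ _
  have hcc₁ : c ≤ c₁ := (min_le_left _ _).trans (min_le_left _ _)
  have hcc₂ : c ≤ c₂ := (min_le_left _ _).trans (min_le_right _ _)
  refine ⟨c ^ (nS + (nN + nN)), by positivity, ?_⟩
  intro V Φ _ _ Q F ψ Z r t₀ A D J C hr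
  let _ := A.fκ
  let _ := A.fι
  let _ := A.fμ
  have hall : ∀ k, c ≤ av F (fun ω => if atEv A D k ω then (1 : ℝ) else 0) := by
    rintro (i | i | i)
    · exact hcc₁.trans (p₁ (A.ch i) D (C.cS i) (2 * r) (4 * r) F (A.m_rng i) (by omega) (by omega)
        (by omega) (C.hS i) (Finset.sdiff_subset.trans (wbox_F (A.ch i) (by omega))))
    · exact hcc₁.trans (p₁ (A.nch i) D (C.cN i) r (2 * r) F (A.m'_rng i) (by omega) (by omega)
        (by omega) (C.hN i) (Finset.sdiff_subset.trans (wbox_F (A.nch i) (by omega))))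
    · have h1 := A.h_lt i
      exact hcc₂.trans (p₂ (A.mch i) D (C.cM i) (r + A.h i + 1) (2 * r) (A.l i / 2 + 1) (A.l i) F
        (by omega) (by omega) (by omega) h1.1 (by omega) (by omega) (by omega) (by omega)
        (by omega) (C.hM i) (Finset.sdiff_subset.trans
          ((A.mch i).image_sub (WG.Mth_mono (by omega) (by omega)))))
  have key := av_harris_events (fun f => !D f) F (Finset.univ : Finset (A.κ ⊕ (A.ι ⊕ A.μ)))
    (fun k ω => J k → atEv A D k ω) (fun k _ ω ω' hω h hk => atEv_up hω (h hk)) hc0.le (by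
      intro k _
      by_cases hk : J k
      · refine (hall k).trans (le_of_eq (av_congr fun T _ => ?_))
        have : (J k → atEv A D k (ind T)) ↔ atEv A D k (ind T) := ⟨fun h => h hk, fun h _ => h⟩
        simp only [this]
      · refine hc1.trans (le_of_eq ((av_const (S := F) (1 : ℝ)).symm.trans (av_congr fun T _ => ?_)))
        exact (if_pos fun h => absurd h hk).symm)
  have hcard : (Finset.univ : Finset (A.κ ⊕ (A.ι ⊕ A.μ))).card ≤ nS + (nN + nN) := by
    rw [Finset.card_univ, Fintype.card_sum, Fintype.card_sum]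
    exact Nat.add_le_add A.cardS (Nat.add_le_add A.cardN A.cardM)
  refine (pow_le_pow_of_le_one hc0.le hc1 hcard).trans (key.trans (le_of_eq ?_))
  refine av_congr fun T _ => ?_
  have : (∀ k ∈ (Finset.univ : Finset (A.κ ⊕ (A.ι ⊕ A.μ))), J k → atEv A D k (ind T)) ↔
      SubBlk A D J (ind T) := ⟨fun h k => h k (Finset.mem_univ k), fun h k _ => h k⟩
  simp only [this]

theorem atBlk_iff_sub (A : Atlas Q F ψ Z r nS nN t₀) (D : Φ → Bool) (ω : Φ → Bool) :
    AtBlk A D ω ↔ SubBlk A D (fun _ => True) ω := by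
  rw [atBlk_iff]
  exact ⟨fun h k _ => h k, fun h k => h k trivial⟩

open Classical in
/-- **The probability of the blocking event of an atlas.** -/
theorem atBlk_pos (nS nN : ℕ) : ∃ g₀ : ℝ, 0 < g₀ ∧ ∀ {V Φ : Type} [DecidableEq V] [DecidableEq Φ]
    {Q : QC V Φ} {F : Finset Φ} {ψ : V × V → ℝ} {Z : Finset (V × V)} {r : ℕ} {t₀ : ℝ}
    (A : Atlas Q F ψ Z r nS nN t₀) (D : Φ → Bool), Colr A D → 0 < r →
    g₀ ≤ av F (fun ω => if AtBlk A D ω then (1 : ℝ) else 0) := by
  obtain ⟨g₀, h0, h⟩ := subBlk_pos nS nN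
  refine ⟨g₀, h0, ?_⟩
  intro V Φ _ _ Q F ψ Z r t₀ A D C hr
  refine (h A D (fun _ => True) C hr).trans (le_of_eq (av_congr fun T _ => ?_))
  simp only [atBlk_iff_sub]

open Classical in
/-- **Harris**: a nonnegative function which increases in the other colour. -/
theorem own_atBlk (A : Atlas Q F ψ Z r nS nN t₀) (D : Φ → Bool) {g : (Φ → Bool) → ℝ}
    (hg : Up (fun f => !D f) g) (g0 : ∀ ω, 0 ≤ g ω) {g₀ : ℝ}
    (hb : g₀ ≤ av F (fun ω => if AtBlk A D ω then (1 : ℝ) else 0)) :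
    g₀ * av F g ≤ av F (fun ω => g ω * if AtBlk A D ω then (1 : ℝ) else 0) := by
  have h1 := av_harris (fun f => !D f) F g _ hg (up_atBlk A D)
  refine le_trans ?_ h1
  rw [mul_comm]
  exact mul_le_mul_of_nonneg_left hb (av_nonneg fun T _ => g0 _)

end

end Pool.Agent.SixB.Bk
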