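import Pool.Agent.Lib.SixB.S3BlkAtl
import Pool.Agent.Lib.SixB.S3UpHi

/-!
# 6BD step 3, row R7: the atlas of the upper block in the form of `S3UpHi`

* `BlkT.blkU`: `UpE.BlkU S W X Y r (nBS S r) t₀` for `16 r ≤ S.a`, `t₀ ≤ tB` and a window which contains the
  neighbourhood of radius `4 r + 1` of the upper block.
-/

set_option autoImplicit false
set_option linter.unusedSectionVars false

namespace Pool.Agent.SixB.BlkT

open Pool.Agent.Perc.Q Pool.Agent.Perc Pool.Agent.SixB.EnvB Pool.Agent.SixB.UpE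

noncomputable section

/-- **the atlas of the upper block** -/
theorem blkU {S : Slb} {W : Finset (ℤ × ℤ)} {X Y : ℤ} {r : ℕ} {t₀ : ℝ} (h : S.Ok) (hr : 0 < r)
    (ha : 16 * r ≤ S.a) (hW : BlkS.WinU S W X (4 * r + 1)) (ht : t₀ ≤ tB) {nB : ℕ}
    (hn : nBS S r ≤ nB) : BlkU S W X Y r nB t₀ := by
  classical
  refine ⟨(S.env W X Y).Z.filter fun a => CvU (S.env W X Y) r a, ?_, ?_, ?_⟩
  · refine (upPav_env (C := (S.env W X Y).Z.filter fun a => CvU (S.env W X Y) r a) h hr ha hW ht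
      (fun a ha => (Finset.mem_filter.1 ha).2) hn).mono (Finset.Subset.refl _) le_rfl ?_ ?_ ?_ ?_
    · rintro x (h1 | ⟨h1, h2, h3, h4⟩)
      · exact Or.inl h1
      · exact Or.inr ⟨h1, h2.1, h2.2, h3, h4⟩
    · rintro x (h1 | ⟨h1, h2, h3, h4⟩)
      · exact Or.inl h1
      · exact Or.inr ⟨h1, h2.1, h2.2, h3, h4⟩
    · exact Set.Subset.refl _
    · rintro x (⟨h1, -, h3⟩ | ⟨h1, -⟩)
      · exact Or.inl ⟨h1, h3.1⟩
      · exact Or.inr h1
  · intro f hf k h1 h2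
    exact Finset.mem_filter.2 ⟨h2, Or.inl ⟨f, hf, k, h1, rfl, h2⟩⟩
  · rintro ⟨x, y⟩ hg k h1 h2 h3 h4 h5
    exact Finset.mem_filter.2 ⟨h5, Or.inr ⟨x, y, ⟨h1, h2⟩, ⟨h3, h4⟩, k, rfl, h5⟩⟩

end

end Pool.Agent.SixB.BlkT
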