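import Pool.Agent.Lib.SixB.S3BlkT

/-!
# 6BD step 3, row R7: the contour of a lower block

The lower block is the image of the upper block under the rotation `G.rot`: vertices `vL G i`, directions `oT i + 2`,
lengths `lT G i`. `vL_sep`, `vL_far`, `vL_next`, `clsL` as for the upper block.
-/

set_option autoImplicit false
set_option linter.unusedSectionVars false

namespace Pool.Agent.SixB.BlkT

open Pool.Agent.Perc.Q Pool.Agent.Perc Pool.Agent.SixB.EnvB

noncomputable section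

variable {G : BGeo} {r : ℕ} {i j : Fin 26}

/-! ### The lower block -/

/-- the vertices of the lower block -/
def vL (G : BGeo) (i : Fin 26) : ℤ × ℤ := G.rot (vT G i)

/-- rotation of the faces -/
def rotF (G : BGeo) (f : ℤ × ℤ) : ℤ × ℤ := (G.x1 + G.x2 - 1 - f.1, 2 * G.yc - 1 - f.2)

theorem rot_rot (v : ℤ × ℤ) : G.rot (G.rot v) = v := by
  unfold BGeo.rot
  ext <;> simp

theorem rot_smul (v : ℤ × ℤ) (t : ℤ) (o : ZMod 4) :
    G.rot (v + t • dz o) = G.rot v + t • dz (o + 2) := by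
  unfold BGeo.rot
  rcases zm4_cases o with rfl | rfl | rfl | rfl
  · rw [show (0 : ZMod 4) + 2 = 2 from rfl, dz0, dz2]
    ext <;> simp <;> ring
  · rw [show (1 : ZMod 4) + 2 = 3 from rfl, dz1, dz3]
    ext <;> simp <;> ring
  · rw [show (2 : ZMod 4) + 2 = 0 from rfl, dz2, dz0]
    ext <;> simp <;> ring
  · rw [show (3 : ZMod 4) + 2 = 1 from rfl, dz3, dz1]
    ext <;> simp <;> ring

theorem rot_lside (v : ℤ × ℤ) (u : ℤ) (o : ZMod 4) :
    (G.rot (lside o v u).1, G.rot (lside o v u).2) = lside (o + 2) (G.rot v) u := by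
  unfold lside
  rw [rot_smul, rot_smul]

theorem rot_sd (f : ℤ × ℤ) (k : ZMod 4) :
    sd ZQ (rotF G f) (k + 2) = (G.rot (sd ZQ f k).1, G.rot (sd ZQ f k).2) := by
  obtain ⟨x, y⟩ := f
  unfold BGeo.rot rotF
  rcases k4 k with rfl | rfl | rfl | rfl
  · rw [show (0 : ZMod 4) + 2 = 2 from rfl, sdz0, sdz2]
    ext <;> simp <;> ring
  · rw [show (1 : ZMod 4) + 2 = 3 from rfl, sdz1, sdz3]
    ext <;> simp <;> ring
  · rw [show (2 : ZMod 4) + 2 = 0 from rfl, sdz2, sdz0]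
    ext <;> simp <;> ring
  · rw [show (3 : ZMod 4) + 2 = 1 from rfl, sdz3, sdz1]
    ext <;> simp <;> ring

theorem rotF_nb (f : ℤ × ℤ) (k : ZMod 4) : nb (rotF G f) (k + 2) = rotF G (nb f k) := by
  obtain ⟨x, y⟩ := f
  unfold rotF
  rcases k4 k with rfl | rfl | rfl | rfl
  · rw [show (0 : ZMod 4) + 2 = 2 from rfl, nb0, nb2]
    ext <;> simp <;> ring
  · rw [show (1 : ZMod 4) + 2 = 3 from rfl, nb1, nb3]
    ext <;> simp <;> ring
  · rw [show (2 : ZMod 4) + 2 = 0 from rfl, nb2, nb0]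
    ext <;> simp <;> ring
  · rw [show (3 : ZMod 4) + 2 = 1 from rfl, nb3, nb1]
    ext <;> simp <;> ring

theorem solid_rot {f : ℤ × ℤ} : G.solid true (rotF G f) ↔ G.solid false f := by
  unfold BGeo.solid BGeo.hgt rotF BGeo.cham
  rw [if_pos rfl, if_neg (by decide)]
  simp only
  constructor <;> intro h <;> omega

/-- the vertices have distance at least `8 r` -/
theorem vL_sep (h : Sz G r) (hij : i ≠ j) :
    8 * (r : ℤ) ≤ |(vL G i).1 - (vL G j).1| ∨ 8 * (r : ℤ) ≤ |(vL G i).2 - (vL G j).2| := by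
  rcases vT_sep h hij with h1 | h1
  · left
    rw [abs_sub_comm]
    unfold vL BGeo.rot
    simpa using h1
  · right
    rw [abs_sub_comm]
    unfold vL BGeo.rot
    simpa using h1

theorem vL_far (h : Sz G r) (hi : i ≠ 12) {t : ℤ} (h1 : 3 * (r : ℤ) ≤ t) (h2 : t + 3 * r ≤ lT G i)
    (j : Fin 26) : 3 * (r : ℤ) ≤ |(vL G j).1 - (vL G i + t • dz (oT i + 2)).1| ∨
      3 * (r : ℤ) ≤ |(vL G j).2 - (vL G i + t • dz (oT i + 2)).2| := by
  unfold vL
  rw [← rot_smul]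
  rcases vT_far h hi h1 h2 j with h3 | h3
  · left
    rw [abs_sub_comm]
    unfold BGeo.rot
    simp only
    rw [show G.x1 + G.x2 - (vT G i + t • dz (oT i)).1 - (G.x1 + G.x2 - (vT G j).1) =
      (vT G j).1 - (vT G i + t • dz (oT i)).1 by ring]
    exact h3
  · right
    rw [abs_sub_comm]
    unfold BGeo.rot
    simp only
    rw [show 2 * G.yc - (vT G i + t • dz (oT i)).2 - (2 * G.yc - (vT G j).2) =
      (vT G j).2 - (vT G i + t • dz (oT i)).2 by ring]
    exact h3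

theorem vL_next (hi : i ≠ 12) : vL G (i + 1) = vL G i + lT G i • dz (oT i + 2) := by
  unfold vL
  rw [vT_next hi, rot_smul]

/-- **every side between the lower block and its complement lies on a wall** -/
theorem clsL (h : Sz G r) {f : ℤ × ℤ} {k : ZMod 4} (h1 : G.solid false (nb f k))
    (h2 : ¬ G.solid false f)
    (hm : ¬ (k = 0 ∧ (G.x1 ≤ f.1 ∧ f.1 < G.x2) ∧ f.2 = G.yc - G.a)) :
    ∃ i : Fin 26, i ≠ 12 ∧ ∃ u : ℤ, 0 ≤ u ∧ u < lT G i ∧ sd ZQ f k = lside (oT i + 2) (vL G i) u := by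
  have h3 : G.solid true (nb (rotF G f) (k + 2)) := by
    rw [rotF_nb, solid_rot]
    exact h1
  have h4 : ¬ G.solid true (rotF G f) := by
    rw [solid_rot]
    exact h2
  obtain ⟨i, hi, u, h5, h6, h7⟩ := cls h h3 h4 (by
    rintro ⟨h8, h9, h10⟩
    unfold rotF at h9 h10
    simp only at h9 h10
    refine hm ⟨?_, by omega, by omega⟩
    have : k + 2 - 2 = 2 - 2 := by rw [h8]
    simpa using this)
  refine ⟨i, hi, u, h5, h6, ?_⟩
  unfold vL
  rw [← rot_lside, ← h7, rot_sd]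
  simp only [rot_rot]

theorem vL0 : vL G 0 = (G.x1 - 7 * G.k, G.yc - G.c) := by
  unfold vL BGeo.rot
  rw [vT0]
  ext <;> simp <;> ring

theorem vL1 : vL G 1 = (G.x1 - 7 * G.k, G.yc - G.a) := by
  unfold vL BGeo.rot
  rw [vT1]
  ext <;> simp <;> ring

theorem vL2 : vL G 2 = (G.x1 - 6 * G.k, G.yc - G.a) := by
  unfold vL BGeo.rot
  rw [vT2]
  ext <;> simp <;> ring

theorem vL3 : vL G 3 = (G.x1 - 6 * G.k, G.yc - G.b) := by
  unfold vL BGeo.rot
  rw [vT3]
  ext <;> simp <;> ring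

theorem vL4 : vL G 4 = (G.x1 - 5 * G.k, G.yc - G.b) := by
  unfold vL BGeo.rot
  rw [vT4]
  ext <;> simp <;> ring

theorem vL5 : vL G 5 = (G.x1 - 4 * G.k, G.yc - G.b) := by
  unfold vL BGeo.rot
  rw [vT5]
  ext <;> simp <;> ring

theorem vL6 : vL G 6 = (G.x1 - 4 * G.k, G.yc - G.a) := by
  unfold vL BGeo.rot
  rw [vT6]
  ext <;> simp <;> ring

theorem vL7 : vL G 7 = (G.x1 - 3 * G.k, G.yc - G.a) := by
  unfold vL BGeo.rot
  rw [vT7]
  ext <;> simp <;> ring

theorem vL8 : vL G 8 = (G.x1 - 3 * G.k, G.yc - G.b) := by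
  unfold vL BGeo.rot
  rw [vT8]
  ext <;> simp <;> ring

theorem vL9 : vL G 9 = (G.x1 - 2 * G.k, G.yc - G.b) := by
  unfold vL BGeo.rot
  rw [vT9]
  ext <;> simp <;> ring

theorem vL10 : vL G 10 = (G.x1 - G.k, G.yc - G.b) := by
  unfold vL BGeo.rot
  rw [vT10]
  ext <;> simp <;> ring

theorem vL11 : vL G 11 = (G.x1 - G.k, G.yc - G.a) := by
  unfold vL BGeo.rot
  rw [vT11]
  ext <;> simp <;> ring

theorem vL12 : vL G 12 = (G.x1, G.yc - G.a) := by
  unfold vL BGeo.rot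
  rw [vT12]
  ext <;> simp <;> ring

theorem vL13 : vL G 13 = (G.x2, G.yc - G.a) := by
  unfold vL BGeo.rot
  rw [vT13]
  ext <;> simp <;> ring

theorem vL14 : vL G 14 = (G.x2 + G.k, G.yc - G.a) := by
  unfold vL BGeo.rot
  rw [vT14]
  ext <;> simp <;> ring

theorem vL15 : vL G 15 = (G.x2 + G.k, G.yc - G.b) := by
  unfold vL BGeo.rot
  rw [vT15]
  ext <;> simp <;> ring

theorem vL16 : vL G 16 = (G.x2 + 2 * G.k, G.yc - G.b) := by
  unfold vL BGeo.rot
  rw [vT16]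
  ext <;> simp <;> ring

theorem vL17 : vL G 17 = (G.x2 + 3 * G.k, G.yc - G.b) := by
  unfold vL BGeo.rot
  rw [vT17]
  ext <;> simp <;> ring

theorem vL18 : vL G 18 = (G.x2 + 3 * G.k, G.yc - G.a) := by
  unfold vL BGeo.rot
  rw [vT18]
  ext <;> simp <;> ring

theorem vL19 : vL G 19 = (G.x2 + 4 * G.k, G.yc - G.a) := by
  unfold vL BGeo.rot
  rw [vT19]
  ext <;> simp <;> ring

theorem vL20 : vL G 20 = (G.x2 + 4 * G.k, G.yc - G.b) := by
  unfold vL BGeo.rot
  rw [vT20]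
  ext <;> simp <;> ring

theorem vL21 : vL G 21 = (G.x2 + 5 * G.k, G.yc - G.b) := by
  unfold vL BGeo.rot
  rw [vT21]
  ext <;> simp <;> ring

theorem vL22 : vL G 22 = (G.x2 + 6 * G.k, G.yc - G.b) := by
  unfold vL BGeo.rot
  rw [vT22]
  ext <;> simp <;> ring

theorem vL23 : vL G 23 = (G.x2 + 6 * G.k, G.yc - G.a) := by
  unfold vL BGeo.rot
  rw [vT23]
  ext <;> simp <;> ring

theorem vL24 : vL G 24 = (G.x2 + 7 * G.k, G.yc - G.a) := by
  unfold vL BGeo.rot
  rw [vT24]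
  ext <;> simp <;> ring

theorem vL25 : vL G 25 = (G.x2 + 7 * G.k, G.yc - G.c) := by
  unfold vL BGeo.rot
  rw [vT25]
  ext <;> simp <;> ring

end

end Pool.Agent.SixB.BlkT
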