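import Pool.Agent.Lib.SixB.S3BlkW

/-!
# 6BD step 3: the charts of the upper block

`UpB E r`: hypotheses for charts of radius `r` at the upper block. Vertices off the mouths (numbers of the
skeleton, the lower block is rotated by 180 degrees) and straight walls, pointwise.
* `UpB.l1` ..: local description `LocW`; `UpB.j1` ..: jumps.
-/

set_option autoImplicit false
set_option linter.unusedSectionVars false

namespace Pool.Agent.SixB.BlkW

open Pool.Agent.Perc.Q Pool.Agent.Perc Pool.Agent.SixB.EnvB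

noncomputable section

variable {E : SEnv} {r : ℕ} {v f : ℤ × ℤ} {x y : ℤ} {m : ℕ} {o : ZMod 4}
  {mu ρu ml ρl : ℝ} {ψu ψl : (ℤ × ℤ) × (ℤ × ℤ) → ℝ}

/-- hypotheses for charts of radius `r` at the upper block -/
structure UpB (E : SEnv) (r : ℕ) : Prop where
  thk : Thk E
  yc : E.gd.yc = E.gu.yc
  au : 0 < E.gu.a
  ad : 0 < E.gd.a
  hx : E.gu.x1 ≤ E.gu.x2
  r0 : 0 < r
  rk : r ≤ E.gu.k
  rb : r + E.gu.a ≤ E.gu.b
  rc : r + E.gu.b ≤ E.gu.c
  win : ∀ f : ℤ × ℤ, E.gu.x1 - 7 * E.gu.k - r ≤ f.1 → f.1 < E.gu.x2 + 7 * E.gu.k + r →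
    E.gu.yc ≤ f.2 → f.2 < E.gu.yc + E.gu.c + r → f ∈ E.W

theorem UpB.locW (h : UpB E r) (hm : 1 ≤ m ∧ m ≤ 3)
    (hv : E.gu.x1 - 7 * E.gu.k ≤ v.1 ∧ v.1 ≤ E.gu.x2 + 7 * E.gu.k ∧ E.gu.yc + E.gu.a + r ≤ v.2 ∧
      v.2 ≤ E.gu.yc + E.gu.c)
    (hloc : ∀ f ∈ Bx v r, ¬ E.gu.solid true f ↔ f ∈ Wdg m o v r) : LocW E m o v r := by
  refine locW_up h.thk h.yc h.ad hm (fun f hf => ?_) (by omega) hloc fun f hf => ?_
  · rw [mem_Bx] at hf
    exact h.win f (by omega) (by omega) (by omega) (by omega)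
  · rintro ⟨-, -, h1⟩
    rw [mem_Wdg] at hf
    omega

/-! ### Vertices -/

/-- vertex 1 -/
theorem UpB.l1 (h : UpB E r) : LocW E 3 3 (E.gu.x2 + 7 * E.gu.k, E.gu.yc + E.gu.c) r := by
  have h1 := h.hx
  have h2 := h.rk
  have h3 := h.rb
  have h4 := h.rc
  have h0 := h.r0
  refine h.locW (by omega) (by simp only; omega) fun f hf => ?_
  rw [mem_Bx] at hf
  rw [solid_up, mem_w33]
  unfold BGeo.cham
  simp only at hf ⊢
  omega

/-- vertex 4 -/
theorem UpB.l4 (h : UpB E r) : LocW E 1 2 (E.gu.x2 + 6 * E.gu.k, E.gu.yc + E.gu.b) r := by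
  have h1 := h.hx
  have h2 := h.rk
  have h3 := h.rb
  have h4 := h.rc
  have h0 := h.r0
  refine h.locW (by omega) (by simp only; omega) fun f hf => ?_
  rw [mem_Bx] at hf
  rw [solid_up, mem_w12]
  unfold BGeo.cham
  simp only at hf ⊢
  omega

/-- vertex 5 -/
theorem UpB.l5 (h : UpB E r) : LocW E 2 2 (E.gu.x2 + 5 * E.gu.k, E.gu.yc + E.gu.b) r := by
  have h1 := h.hx
  have h2 := h.rk
  have h3 := h.rb
  have h4 := h.rc
  have h0 := h.r0
  refine h.locW (by omega) (by simp only; omega) fun f hf => ?_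
  rw [mem_Bx] at hf
  rw [solid_up, mem_w22]
  unfold BGeo.cham
  simp only at hf ⊢
  omega

/-- vertex 6 -/
theorem UpB.l6 (h : UpB E r) : LocW E 1 3 (E.gu.x2 + 4 * E.gu.k, E.gu.yc + E.gu.b) r := by
  have h1 := h.hx
  have h2 := h.rk
  have h3 := h.rb
  have h4 := h.rc
  have h0 := h.r0
  refine h.locW (by omega) (by simp only; omega) fun f hf => ?_
  rw [mem_Bx] at hf
  rw [solid_up, mem_w13]
  unfold BGeo.cham
  simp only at hf ⊢
  omega

/-- vertex 9 -/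
theorem UpB.l9 (h : UpB E r) : LocW E 1 2 (E.gu.x2 + 3 * E.gu.k, E.gu.yc + E.gu.b) r := by
  have h1 := h.hx
  have h2 := h.rk
  have h3 := h.rb
  have h4 := h.rc
  have h0 := h.r0
  refine h.locW (by omega) (by simp only; omega) fun f hf => ?_
  rw [mem_Bx] at hf
  rw [solid_up, mem_w12]
  unfold BGeo.cham
  simp only at hf ⊢
  omega

/-- vertex 10 -/
theorem UpB.l10 (h : UpB E r) : LocW E 2 2 (E.gu.x2 + 2 * E.gu.k, E.gu.yc + E.gu.b) r := by
  have h1 := h.hx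
  have h2 := h.rk
  have h3 := h.rb
  have h4 := h.rc
  have h0 := h.r0
  refine h.locW (by omega) (by simp only; omega) fun f hf => ?_
  rw [mem_Bx] at hf
  rw [solid_up, mem_w22]
  unfold BGeo.cham
  simp only at hf ⊢
  omega

/-- vertex 11 -/
theorem UpB.l11 (h : UpB E r) : LocW E 1 3 (E.gu.x2 + E.gu.k, E.gu.yc + E.gu.b) r := by
  have h1 := h.hx
  have h2 := h.rk
  have h3 := h.rb
  have h4 := h.rc
  have h0 := h.r0
  refine h.locW (by omega) (by simp only; omega) fun f hf => ?_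
  rw [mem_Bx] at hf
  rw [solid_up, mem_w13]
  unfold BGeo.cham
  simp only at hf ⊢
  omega

/-- vertex 16 -/
theorem UpB.l16 (h : UpB E r) : LocW E 1 2 (E.gu.x1 - E.gu.k, E.gu.yc + E.gu.b) r := by
  have h1 := h.hx
  have h2 := h.rk
  have h3 := h.rb
  have h4 := h.rc
  have h0 := h.r0
  refine h.locW (by omega) (by simp only; omega) fun f hf => ?_
  rw [mem_Bx] at hf
  rw [solid_up, mem_w12]
  unfold BGeo.cham
  simp only at hf ⊢
  omega

/-- vertex 17 -/
theorem UpB.l17 (h : UpB E r) : LocW E 2 2 (E.gu.x1 - 2 * E.gu.k, E.gu.yc + E.gu.b) r := by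
  have h1 := h.hx
  have h2 := h.rk
  have h3 := h.rb
  have h4 := h.rc
  have h0 := h.r0
  refine h.locW (by omega) (by simp only; omega) fun f hf => ?_
  rw [mem_Bx] at hf
  rw [solid_up, mem_w22]
  unfold BGeo.cham
  simp only at hf ⊢
  omega

/-- vertex 18 -/
theorem UpB.l18 (h : UpB E r) : LocW E 1 3 (E.gu.x1 - 3 * E.gu.k, E.gu.yc + E.gu.b) r := by
  have h1 := h.hx
  have h2 := h.rk
  have h3 := h.rb
  have h4 := h.rc
  have h0 := h.r0
  refine h.locW (by omega) (by simp only; omega) fun f hf => ?_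
  rw [mem_Bx] at hf
  rw [solid_up, mem_w13]
  unfold BGeo.cham
  simp only at hf ⊢
  omega

/-- vertex 21 -/
theorem UpB.l21 (h : UpB E r) : LocW E 1 2 (E.gu.x1 - 4 * E.gu.k, E.gu.yc + E.gu.b) r := by
  have h1 := h.hx
  have h2 := h.rk
  have h3 := h.rb
  have h4 := h.rc
  have h0 := h.r0
  refine h.locW (by omega) (by simp only; omega) fun f hf => ?_
  rw [mem_Bx] at hf
  rw [solid_up, mem_w12]
  unfold BGeo.cham
  simp only at hf ⊢
  omega

/-- vertex 22 -/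
theorem UpB.l22 (h : UpB E r) : LocW E 2 2 (E.gu.x1 - 5 * E.gu.k, E.gu.yc + E.gu.b) r := by
  have h1 := h.hx
  have h2 := h.rk
  have h3 := h.rb
  have h4 := h.rc
  have h0 := h.r0
  refine h.locW (by omega) (by simp only; omega) fun f hf => ?_
  rw [mem_Bx] at hf
  rw [solid_up, mem_w22]
  unfold BGeo.cham
  simp only at hf ⊢
  omega

/-- vertex 23 -/
theorem UpB.l23 (h : UpB E r) : LocW E 1 3 (E.gu.x1 - 6 * E.gu.k, E.gu.yc + E.gu.b) r := by
  have h1 := h.hx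
  have h2 := h.rk
  have h3 := h.rb
  have h4 := h.rc
  have h0 := h.r0
  refine h.locW (by omega) (by simp only; omega) fun f hf => ?_
  rw [mem_Bx] at hf
  rw [solid_up, mem_w13]
  unfold BGeo.cham
  simp only at hf ⊢
  omega

/-- vertex 26 -/
theorem UpB.l26 (h : UpB E r) : LocW E 3 0 (E.gu.x1 - 7 * E.gu.k, E.gu.yc + E.gu.c) r := by
  have h1 := h.hx
  have h2 := h.rk
  have h3 := h.rb
  have h4 := h.rc
  have h0 := h.r0
  refine h.locW (by omega) (by simp only; omega) fun f hf => ?_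
  rw [mem_Bx] at hf
  rw [solid_up, mem_w30]
  unfold BGeo.cham
  simp only at hf ⊢
  omega

/-! ### Straight walls -/

theorem UpB.wR7 (h : UpB E r) (h5 : E.gu.yc + E.gu.a + r ≤ y) (h6 : y + r ≤ E.gu.yc + E.gu.c) :
    LocW E 2 3 (E.gu.x2 + 7 * E.gu.k, y) r := by
  have h1 := h.hx
  have h2 := h.rk
  have h3 := h.rb
  have h4 := h.rc
  have h0 := h.r0
  refine h.locW (by omega) (by simp only; omega) fun f hf => ?_
  rw [mem_Bx] at hf
  rw [solid_up, mem_w23]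
  unfold BGeo.cham
  simp only at hf ⊢
  omega

theorem UpB.wR6 (h : UpB E r) (h5 : E.gu.yc + E.gu.a + r ≤ y) (h6 : y + r ≤ E.gu.yc + E.gu.b) :
    LocW E 2 1 (E.gu.x2 + 6 * E.gu.k, y) r := by
  have h1 := h.hx
  have h2 := h.rk
  have h3 := h.rb
  have h4 := h.rc
  have h0 := h.r0
  refine h.locW (by omega) (by simp only; omega) fun f hf => ?_
  rw [mem_Bx] at hf
  rw [solid_up, mem_w21]
  unfold BGeo.cham
  simp only at hf ⊢
  omega

theorem UpB.wR4 (h : UpB E r) (h5 : E.gu.yc + E.gu.a + r ≤ y) (h6 : y + r ≤ E.gu.yc + E.gu.b) :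
    LocW E 2 3 (E.gu.x2 + 4 * E.gu.k, y) r := by
  have h1 := h.hx
  have h2 := h.rk
  have h3 := h.rb
  have h4 := h.rc
  have h0 := h.r0
  refine h.locW (by omega) (by simp only; omega) fun f hf => ?_
  rw [mem_Bx] at hf
  rw [solid_up, mem_w23]
  unfold BGeo.cham
  simp only at hf ⊢
  omega

theorem UpB.wR3 (h : UpB E r) (h5 : E.gu.yc + E.gu.a + r ≤ y) (h6 : y + r ≤ E.gu.yc + E.gu.b) :
    LocW E 2 1 (E.gu.x2 + 3 * E.gu.k, y) r := by
  have h1 := h.hx
  have h2 := h.rk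
  have h3 := h.rb
  have h4 := h.rc
  have h0 := h.r0
  refine h.locW (by omega) (by simp only; omega) fun f hf => ?_
  rw [mem_Bx] at hf
  rw [solid_up, mem_w21]
  unfold BGeo.cham
  simp only at hf ⊢
  omega

theorem UpB.wR1 (h : UpB E r) (h5 : E.gu.yc + E.gu.a + r ≤ y) (h6 : y + r ≤ E.gu.yc + E.gu.b) :
    LocW E 2 3 (E.gu.x2 + E.gu.k, y) r := by
  have h1 := h.hx
  have h2 := h.rk
  have h3 := h.rb
  have h4 := h.rc
  have h0 := h.r0
  refine h.locW (by omega) (by simp only; omega) fun f hf => ?_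
  rw [mem_Bx] at hf
  rw [solid_up, mem_w23]
  unfold BGeo.cham
  simp only at hf ⊢
  omega

theorem UpB.wL1 (h : UpB E r) (h5 : E.gu.yc + E.gu.a + r ≤ y) (h6 : y + r ≤ E.gu.yc + E.gu.b) :
    LocW E 2 1 (E.gu.x1 - E.gu.k, y) r := by
  have h1 := h.hx
  have h2 := h.rk
  have h3 := h.rb
  have h4 := h.rc
  have h0 := h.r0
  refine h.locW (by omega) (by simp only; omega) fun f hf => ?_
  rw [mem_Bx] at hf
  rw [solid_up, mem_w21]
  unfold BGeo.cham
  simp only at hf ⊢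
  omega

theorem UpB.wL3 (h : UpB E r) (h5 : E.gu.yc + E.gu.a + r ≤ y) (h6 : y + r ≤ E.gu.yc + E.gu.b) :
    LocW E 2 3 (E.gu.x1 - 3 * E.gu.k, y) r := by
  have h1 := h.hx
  have h2 := h.rk
  have h3 := h.rb
  have h4 := h.rc
  have h0 := h.r0
  refine h.locW (by omega) (by simp only; omega) fun f hf => ?_
  rw [mem_Bx] at hf
  rw [solid_up, mem_w23]
  unfold BGeo.cham
  simp only at hf ⊢
  omega

theorem UpB.wL4 (h : UpB E r) (h5 : E.gu.yc + E.gu.a + r ≤ y) (h6 : y + r ≤ E.gu.yc + E.gu.b) :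
    LocW E 2 1 (E.gu.x1 - 4 * E.gu.k, y) r := by
  have h1 := h.hx
  have h2 := h.rk
  have h3 := h.rb
  have h4 := h.rc
  have h0 := h.r0
  refine h.locW (by omega) (by simp only; omega) fun f hf => ?_
  rw [mem_Bx] at hf
  rw [solid_up, mem_w21]
  unfold BGeo.cham
  simp only at hf ⊢
  omega

theorem UpB.wL6 (h : UpB E r) (h5 : E.gu.yc + E.gu.a + r ≤ y) (h6 : y + r ≤ E.gu.yc + E.gu.b) :
    LocW E 2 3 (E.gu.x1 - 6 * E.gu.k, y) r := by
  have h1 := h.hx
  have h2 := h.rk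
  have h3 := h.rb
  have h4 := h.rc
  have h0 := h.r0
  refine h.locW (by omega) (by simp only; omega) fun f hf => ?_
  rw [mem_Bx] at hf
  rw [solid_up, mem_w23]
  unfold BGeo.cham
  simp only at hf ⊢
  omega

theorem UpB.wL7 (h : UpB E r) (h5 : E.gu.yc + E.gu.a + r ≤ y) (h6 : y + r ≤ E.gu.yc + E.gu.c) :
    LocW E 2 1 (E.gu.x1 - 7 * E.gu.k, y) r := by
  have h1 := h.hx
  have h2 := h.rk
  have h3 := h.rb
  have h4 := h.rc
  have h0 := h.r0
  refine h.locW (by omega) (by simp only; omega) fun f hf => ?_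
  rw [mem_Bx] at hf
  rw [solid_up, mem_w21]
  unfold BGeo.cham
  simp only at hf ⊢
  omega

/-- ceilings of the chambers (floors for the lower block) -/
theorem UpB.ceil (h : UpB E r)
    (hx : (E.gu.x2 + E.gu.k ≤ x - r ∧ x + r ≤ E.gu.x2 + 3 * E.gu.k) ∨
      (E.gu.x2 + 4 * E.gu.k ≤ x - r ∧ x + r ≤ E.gu.x2 + 6 * E.gu.k) ∨
      (E.gu.x1 - 3 * E.gu.k ≤ x - r ∧ x + r ≤ E.gu.x1 - E.gu.k) ∨
      (E.gu.x1 - 6 * E.gu.k ≤ x - r ∧ x + r ≤ E.gu.x1 - 4 * E.gu.k)) :
    LocW E 2 2 (x, E.gu.yc + E.gu.b) r := by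
  have h1 := h.hx
  have h2 := h.rk
  have h3 := h.rb
  have h4 := h.rc
  have h0 := h.r0
  refine h.locW (by omega) (by simp only; omega) fun f hf => ?_
  rw [mem_Bx] at hf
  rw [solid_up, mem_w22]
  unfold BGeo.cham
  simp only at hf ⊢
  omega

/-- top of the block (bottom for the lower block) -/
theorem UpB.roof (h : UpB E r) (h5 : E.gu.x1 - 7 * E.gu.k ≤ x - r)
    (h6 : x + r ≤ E.gu.x2 + 7 * E.gu.k) : LocW E 2 0 (x, E.gu.yc + E.gu.c) r := by
  have h1 := h.hx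
  have h2 := h.rk
  have h3 := h.rb
  have h4 := h.rc
  have h0 := h.r0
  refine h.locW (by omega) (by simp only; omega) fun f hf => ?_
  rw [mem_Bx] at hf
  rw [solid_up, mem_w20]
  unfold BGeo.cham
  simp only at hf ⊢
  omega

/-! ### Jumps in terms of the phases of the ceilings -/

theorem UpB.jump12 (h : UpB E r) (hl : LocW E 1 2 v r) (hlow : E.gu.yc ≤ v.2 - r) {c : ℝ}
    (hc : ∀ x : ℤ, v.1 - r ≤ x → x < v.1 → E.gu.Hst mu x = c) :
    hl.chart.Jump (E.psi mu ρu ml ρl ψu ψl) 0 := by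
  have hr := h.r0
  refine hl.jump_up (p := cst mu ρu + (c + Real.pi / 12)) (q := cst mu ρu + c) hlow
    (fun a ha => ?_) (fun a ha => ?_) (by push_cast; ring)
  · obtain ⟨y, -, -, rfl⟩ := mem_wIn3.mp ha
    rw [ph_up1, hc _ (by simp only; omega) (by simp only; omega)]
  · obtain ⟨x, h1, h2, rfl⟩ := mem_wOut2.mp ha
    rw [ph_up2, hc _ h1 h2]

theorem UpB.jump13 (h : UpB E r) (hl : LocW E 1 3 v r) (hlow : E.gu.yc ≤ v.2 - r) {c : ℝ}
    (hc : ∀ x : ℤ, v.1 ≤ x → x < v.1 + r → E.gu.Hst mu x = c) :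
    hl.chart.Jump (E.psi mu ρu ml ρl ψu ψl) 0 := by
  have hr := h.r0
  refine hl.jump_up (p := cst mu ρu + c) (q := cst mu ρu + (c - Real.pi / 12)) hlow
    (fun a ha => ?_) (fun a ha => ?_) (by push_cast; ring)
  · obtain ⟨x, h1, h2, rfl⟩ := mem_wIn0.mp ha
    rw [ph_up2, hc _ h1 h2]
  · obtain ⟨y, -, -, rfl⟩ := mem_wOut3.mp ha
    rw [ph_up3, hc _ (by simp only; omega) (by simp only; omega)]

theorem UpB.jump22 (hl : LocW E 2 2 v r) (hlow : E.gu.yc ≤ v.2 - r) {c c' : ℝ}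
    (hc : ∀ x : ℤ, v.1 - r ≤ x → x < v.1 → E.gu.Hst mu x = c)
    (hc' : ∀ x : ℤ, v.1 ≤ x → x < v.1 + r → E.gu.Hst mu x = c') {J : ℝ} (hJ : c - c' = J) :
    hl.chart.Jump (E.psi mu ρu ml ρl ψu ψl) J := by
  refine hl.jump_up (p := cst mu ρu + c') (q := cst mu ρu + c) hlow
    (fun a ha => ?_) (fun a ha => ?_) (by rw [← hJ]; push_cast; ring)
  · obtain ⟨x, h1, h2, rfl⟩ := mem_wIn0.mp ha
    rw [ph_up2, hc' _ h1 h2]
  · obtain ⟨x, h1, h2, rfl⟩ := mem_wOut2.mp ha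
    rw [ph_up2, hc _ h1 h2]

theorem UpB.jump21 (hl : LocW E 2 1 v r) (hlow : E.gu.yc ≤ v.2 - r) :
    hl.chart.Jump (E.psi mu ρu ml ρl ψu ψl) 0 := by
  refine hl.jump_up (p := cst mu ρu + (E.gu.Hst mu (v.1 - 1) + Real.pi / 12))
    (q := cst mu ρu + (E.gu.Hst mu (v.1 - 1) + Real.pi / 12)) hlow
    (fun a ha => ?_) (fun a ha => ?_) (by push_cast; ring)
  · obtain ⟨y, -, -, rfl⟩ := mem_wIn3.mp ha
    rw [ph_up1]
  · obtain ⟨y, -, -, rfl⟩ := mem_wOut1.mp ha
    rw [ph_up1]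

theorem UpB.jump23 (hl : LocW E 2 3 v r) (hlow : E.gu.yc ≤ v.2 - r) :
    hl.chart.Jump (E.psi mu ρu ml ρl ψu ψl) 0 := by
  refine hl.jump_up (p := cst mu ρu + (E.gu.Hst mu v.1 - Real.pi / 12))
    (q := cst mu ρu + (E.gu.Hst mu v.1 - Real.pi / 12)) hlow
    (fun a ha => ?_) (fun a ha => ?_) (by push_cast; ring)
  · obtain ⟨y, -, -, rfl⟩ := mem_wIn1.mp ha
    rw [ph_up3]
  · obtain ⟨y, -, -, rfl⟩ := mem_wOut3.mp ha
    rw [ph_up3]

theorem UpB.jump20 (hl : LocW E 2 0 v r) (hlow : E.gu.yc ≤ v.2 - r) :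
    hl.chart.Jump (E.psi mu ρu ml ρl ψu ψl) 0 := by
  refine hl.jump_up (p := cst mu ρu + top mu) (q := cst mu ρu + top mu) hlow
    (fun a ha => ?_) (fun a ha => ?_) (by push_cast; ring)
  · obtain ⟨x, -, -, rfl⟩ := mem_wIn2.mp ha
    rw [ph_up0]
  · obtain ⟨x, -, -, rfl⟩ := mem_wOut0.mp ha
    rw [ph_up0]

theorem UpB.jump33 (hl : LocW E 3 3 v r) (hlow : E.gu.yc ≤ v.2 - r) {J : ℝ}
    (hJ : E.gu.Hst mu v.1 - Real.pi / 6 - top mu = J) :
    hl.chart.Jump (E.psi mu ρu ml ρl ψu ψl) J := by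
  refine hl.jump_up (p := cst mu ρu + top mu) (q := cst mu ρu + (E.gu.Hst mu v.1 - Real.pi / 12))
    hlow (fun a ha => ?_) (fun a ha => ?_) (by rw [← hJ]; push_cast; ring)
  · obtain ⟨x, -, -, rfl⟩ := mem_wIn2.mp ha
    rw [ph_up0]
  · obtain ⟨y, -, -, rfl⟩ := mem_wOut3.mp ha
    rw [ph_up3]

theorem UpB.jump30 (hl : LocW E 3 0 v r) (hlow : E.gu.yc ≤ v.2 - r) {J : ℝ}
    (hJ : top mu - E.gu.Hst mu (v.1 - 1) - Real.pi / 6 = J) :
    hl.chart.Jump (E.psi mu ρu ml ρl ψu ψl) J := by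
  refine hl.jump_up (p := cst mu ρu + (E.gu.Hst mu (v.1 - 1) + Real.pi / 12))
    (q := cst mu ρu + top mu)
    hlow (fun a ha => ?_) (fun a ha => ?_) (by rw [← hJ]; push_cast; ring)
  · obtain ⟨y, -, -, rfl⟩ := mem_wIn3.mp ha
    rw [ph_up1]
  · obtain ⟨x, -, -, rfl⟩ := mem_wOut0.mp ha
    rw [ph_up0]

/-! ### Jumps of the vertices -/

theorem UpB.j1 (h : UpB E r) :
    h.l1.chart.Jump (E.psi mu ρu ml ρl ψu ψl) (BGeo.out mu / 2) := by
  have h1 := h.hx
  have h2 := h.rk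
  have h3 := h.rb
  have h4 := h.rc
  have h0 := h.r0
  refine UpB.jump33 h.l1 (by simp only; omega) ?_
  rw [Hst0 (by simp only; omega) h1]
  unfold top BGeo.out BGeo.alpha BGeo.sig
  ring

theorem UpB.j4 (h : UpB E r) : h.l4.chart.Jump (E.psi mu ρu ml ρl ψu ψl) 0 := by
  have h1 := h.hx
  have h2 := h.rk
  have h3 := h.rb
  have h4 := h.rc
  have h0 := h.r0
  exact h.jump12 h.l4 (by simp only; omega) fun x h5 h6 => by
    simp only at h5 h6
    exact Hst0 (by omega) h1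

theorem UpB.j5 (h : UpB E r) :
    h.l5.chart.Jump (E.psi mu ρu ml ρl ψu ψl) (-BGeo.alpha mu) := by
  have h1 := h.hx
  have h2 := h.rk
  have h3 := h.rb
  have h4 := h.rc
  have h0 := h.r0
  exact UpB.jump22 h.l5 (by simp only; omega)
    (fun x h5 h6 => by
      simp only at h5 h6
      exact Hst1 (by omega) (by omega) h1)
    (fun x h5 h6 => by
      simp only at h5 h6
      exact Hst0 (by omega) h1) (by ring)

theorem UpB.j6 (h : UpB E r) : h.l6.chart.Jump (E.psi mu ρu ml ρl ψu ψl) 0 := by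
  have h1 := h.hx
  have h2 := h.rk
  have h3 := h.rb
  have h4 := h.rc
  have h0 := h.r0
  exact h.jump13 h.l6 (by simp only; omega) fun x h5 h6 => by
    simp only at h5 h6
    exact Hst1 (by omega) (by omega) h1

theorem UpB.j9 (h : UpB E r) : h.l9.chart.Jump (E.psi mu ρu ml ρl ψu ψl) 0 := by
  have h1 := h.hx
  have h2 := h.rk
  have h3 := h.rb
  have h4 := h.rc
  have h0 := h.r0
  exact h.jump12 h.l9 (by simp only; omega) fun x h5 h6 => by
    simp only at h5 h6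
    exact Hst1 (by omega) (by omega) h1

theorem UpB.j10 (h : UpB E r) :
    h.l10.chart.Jump (E.psi mu ρu ml ρl ψu ψl) (-BGeo.sig mu) := by
  have h1 := h.hx
  have h2 := h.rk
  have h3 := h.rb
  have h4 := h.rc
  have h0 := h.r0
  exact UpB.jump22 h.l10 (by simp only; omega)
    (fun x h5 h6 => by
      simp only at h5 h6
      exact Hst2 (by omega) (by omega) h1)
    (fun x h5 h6 => by
      simp only at h5 h6
      exact Hst1 (by omega) (by omega) h1) (by ring)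

theorem UpB.j11 (h : UpB E r) : h.l11.chart.Jump (E.psi mu ρu ml ρl ψu ψl) 0 := by
  have h1 := h.hx
  have h2 := h.rk
  have h3 := h.rb
  have h4 := h.rc
  have h0 := h.r0
  exact h.jump13 h.l11 (by simp only; omega) fun x h5 h6 => by
    simp only at h5 h6
    exact Hst2 (by omega) (by omega) h1

theorem UpB.j16 (h : UpB E r) : h.l16.chart.Jump (E.psi mu ρu ml ρl ψu ψl) 0 := by
  have h1 := h.hx
  have h2 := h.rk
  have h3 := h.rb
  have h4 := h.rc
  have h0 := h.r0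
  exact h.jump12 h.l16 (by simp only; omega) fun x h5 h6 => by
    simp only at h5 h6
    exact Hst3 (by omega) (by omega)

theorem UpB.j17 (h : UpB E r) :
    h.l17.chart.Jump (E.psi mu ρu ml ρl ψu ψl) (-BGeo.sig mu) := by
  have h1 := h.hx
  have h2 := h.rk
  have h3 := h.rb
  have h4 := h.rc
  have h0 := h.r0
  exact UpB.jump22 h.l17 (by simp only; omega)
    (fun x h5 h6 => by
      simp only at h5 h6
      exact Hst4 (by omega) (by omega) h1)
    (fun x h5 h6 => by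
      simp only at h5 h6
      exact Hst3 (by omega) (by omega)) (by ring)

theorem UpB.j18 (h : UpB E r) : h.l18.chart.Jump (E.psi mu ρu ml ρl ψu ψl) 0 := by
  have h1 := h.hx
  have h2 := h.rk
  have h3 := h.rb
  have h4 := h.rc
  have h0 := h.r0
  exact h.jump13 h.l18 (by simp only; omega) fun x h5 h6 => by
    simp only at h5 h6
    exact Hst4 (by omega) (by omega) h1

theorem UpB.j21 (h : UpB E r) : h.l21.chart.Jump (E.psi mu ρu ml ρl ψu ψl) 0 := by
  have h1 := h.hx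
  have h2 := h.rk
  have h3 := h.rb
  have h4 := h.rc
  have h0 := h.r0
  exact h.jump12 h.l21 (by simp only; omega) fun x h5 h6 => by
    simp only at h5 h6
    exact Hst4 (by omega) (by omega) h1

theorem UpB.j22 (h : UpB E r) :
    h.l22.chart.Jump (E.psi mu ρu ml ρl ψu ψl) (-BGeo.alpha mu) := by
  have h1 := h.hx
  have h2 := h.rk
  have h3 := h.rb
  have h4 := h.rc
  have h0 := h.r0
  exact UpB.jump22 h.l22 (by simp only; omega)
    (fun x h5 h6 => by
      simp only at h5 h6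
      exact Hst5 (by omega) h1)
    (fun x h5 h6 => by
      simp only at h5 h6
      exact Hst4 (by omega) (by omega) h1) (by ring)

theorem UpB.j23 (h : UpB E r) : h.l23.chart.Jump (E.psi mu ρu ml ρl ψu ψl) 0 := by
  have h1 := h.hx
  have h2 := h.rk
  have h3 := h.rb
  have h4 := h.rc
  have h0 := h.r0
  exact h.jump13 h.l23 (by simp only; omega) fun x h5 h6 => by
    simp only at h5 h6
    exact Hst5 (by omega) h1

theorem UpB.j26 (h : UpB E r) :
    h.l26.chart.Jump (E.psi mu ρu ml ρl ψu ψl) (BGeo.out mu / 2) := by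
  have h1 := h.hx
  have h2 := h.rk
  have h3 := h.rb
  have h4 := h.rc
  have h0 := h.r0
  refine UpB.jump30 h.l26 (by simp only; omega) ?_
  rw [Hst5 (by simp only; omega) h1]
  unfold top BGeo.out BGeo.alpha BGeo.sig
  ring

end

end Pool.Agent.SixB.BlkW
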