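import Pool.Agent.Lib.SixB.S3Hold

/-!
# SixB, step 3 (N-f): bounds for signed weights from the chain theorem

`D : ChainData P κ` boxes around special vertices, `F v = E[t_v ^ N v 0]`.
* `upper_signed`: if `|W| ≤ ∏ t_v^{N v 0} q^K` (`K` off the boxes `B v 1`, exponential moments) then
  `E[|W| a Y] ≤ C ∏ F_v P(a)^(1 - 2^-s) (E[Y^(2^(s+2))])^(2^-(s+2))`, `a` an event, `a, Y` off the boxes.
* `lower_own`: own factors `a_v` (in the box of `v`, `0 ≤ a_v ≤ t_v^{N v 0}`, `E a_v ≥ a₀ F_v`), a factor `f ≥ 0`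
  of a region `R` disjoint from the boxes, an event `g` off the boxes and off `R`:
  `E[f ∏ a_v w^K g] ≥ c E[f] ∏ F_v`.
* `lower_signed`: `W ≥ f ∏ a_v w^K g - |W| bad`, hence `E W ≥ c ∏ F_v` if `P(bad)` is small.
-/

set_option autoImplicit false
set_option linter.unusedVariables false

namespace Pool.Agent.SixB

open Finset

/-- absolute value -/
theorem ExpSys.abs_E_le {Ω ι : Type*} (P : ExpSys Ω ι) (f : Ω → ℝ) :
    |P.E f| ≤ P.E (fun ω => |f ω|) := by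
  rw [abs_le]
  refine ⟨?_, P.mono _ _ fun ω => le_abs_self _⟩
  have h := P.mono (fun ω => - |f ω|) f fun ω => neg_abs_le _
  rwa [P.E_neg] at h

/-- `E[f G] ≤ C` type bound: a function bounded by another in absolute value -/
theorem ExpSys.abs_E_le_of_le {Ω ι : Type*} (P : ExpSys Ω ι) {f G : Ω → ℝ}
    (h : ∀ ω, |f ω| ≤ G ω) : |P.E f| ≤ P.E G :=
  (P.abs_E_le f).trans (P.mono _ _ h)

section moments

variable {Ω ι : Type*} (P : ExpSys Ω ι)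

/-- moment of a product with an exponential of a counting function -/
theorem mom_mul (q : ℝ) (hq : 1 ≤ q) (s : ℕ) (K : Ω → ℕ) (cK : ℝ)
    (hK : P.E (fun ω => (q ^ 2 ^ (s + 1)) ^ K ω) ≤ cK) (Y : Ω → ℝ) (hY : ∀ ω, 0 ≤ Y ω) :
    rt s (P.E (fun ω => (q ^ K ω * Y ω) ^ (2 ^ s))) ≤
      rt (s + 1) cK * rt (s + 1) (P.E (fun ω => Y ω ^ (2 ^ (s + 1)))) := by
  have hq0 : (0 : ℝ) ≤ q := by linarith
  have h2 := P.cs_sqrt (fun ω => (q ^ K ω) ^ (2 ^ s)) (fun ω => Y ω ^ (2 ^ s))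
  have e3 : (fun ω => (q ^ K ω * Y ω) ^ (2 ^ s)) = fun ω => (q ^ K ω) ^ (2 ^ s) * Y ω ^ (2 ^ s) := by
    funext ω
    rw [mul_pow]
  have e1 : (fun ω => ((q ^ K ω) ^ (2 ^ s)) ^ 2) = fun ω => (q ^ 2 ^ (s + 1)) ^ K ω := by
    funext ω
    rw [← pow_mul, ← pow_mul, ← pow_mul]
    congr 1
    ring
  have e2 : (fun ω => (Y ω ^ (2 ^ s)) ^ 2) = fun ω => Y ω ^ (2 ^ (s + 1)) := by
    funext ω
    rw [← pow_mul]
    congr 1
  rw [e1, e2] at h2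
  rw [e3]
  have hk0 : 0 ≤ P.E (fun ω => (q ^ 2 ^ (s + 1)) ^ K ω) :=
    P.E_nonneg fun ω => pow_nonneg (pow_nonneg hq0 _) _
  have hy0 : 0 ≤ P.E (fun ω => Y ω ^ (2 ^ (s + 1))) := P.E_nonneg fun ω => pow_nonneg (hY ω) _
  have h3 : P.E (fun ω => (q ^ K ω) ^ (2 ^ s) * Y ω ^ (2 ^ s)) ≤
      Real.sqrt cK * Real.sqrt (P.E (fun ω => Y ω ^ (2 ^ (s + 1)))) :=
    h2.trans (mul_le_mul_of_nonneg_right (Real.sqrt_le_sqrt hK) (Real.sqrt_nonneg _))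
  refine (rt_mono h3 s).trans (le_of_eq ?_)
  rw [rt_mul (Real.sqrt_nonneg _) (Real.sqrt_nonneg _), rt_succ' _ (hk0.trans hK),
    rt_succ' _ hy0]

end moments

/-- UPPER BOUND for a signed weight, with an event `a` and a function `Y ≥ 0` off the boxes -/
theorem upper_signed (cM cK : ℝ → ℝ) (t₀ T A₀ q : ℝ) (s nV : ℕ) (ht₀ : 0 < t₀) (ht₁ : t₀ ≤ 1)
    (hT : 1 ≤ T) (hq : 1 ≤ q) :
    ∃ C : ℝ, 1 ≤ C ∧ ∀ (Ω ι κ : Type) (P : ExpSys Ω ι) (D : ChainData P κ) (t : κ → ℝ),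
      D.Good t cM t₀ T A₀ → ∀ (V : Finset κ), V.card ≤ nV → ∀ (W : Ω → ℝ) (K : Ω → ℕ),
      (∀ ω, |W ω| ≤ (∏ v ∈ V, t v ^ D.N v 0 ω) * q ^ K ω) →
      (∀ v ∈ V, P.Dep (D.B v 1)ᶜ K) → (∀ L : ℝ, 1 ≤ L → P.E (fun ω => L ^ K ω) ≤ cK L) →
      ∀ (a Y : Ω → ℝ), (∀ ω, a ω = 0 ∨ a ω = 1) → (∀ ω, 0 ≤ Y ω) →
      (∀ v ∈ V, P.Dep (D.B v 1)ᶜ a) → (∀ v ∈ V, P.Dep (D.B v 1)ᶜ Y) →
      P.E (fun ω => |W ω| * (a ω * Y ω)) ≤
        C * (∏ v ∈ V, D.F v (t v) 0) * (P.E a ^ (1 - (1 / 2 : ℝ) ^ s) *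
          P.E (fun ω => Y ω ^ (2 ^ (s + 2))) ^ ((1 / 2 : ℝ) ^ (s + 2))) := by
  obtain ⟨C, hC1, hC⟩ := qm_event cM t₀ T A₀ s ht₀ ht₁ hT
  set c1 : ℝ := rt (s + 2) (max (cK (q ^ 2 ^ (s + 2))) 1) with hc1
  have hc11 : 1 ≤ c1 := by
    have h := rt_mono (le_max_right (cK (q ^ 2 ^ (s + 2))) 1) (s + 2)
    rwa [rt_one] at h
  have hc10 : 0 ≤ c1 := by linarith
  refine ⟨C ^ nV * c1, ?_, ?_⟩
  · have : 1 ≤ C ^ nV := one_le_pow₀ hC1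
    nlinarith
  intro Ω ι κ P D t hG V hV W K hW hK hcK a Y ha hY had hYd
  have hq0 : (0 : ℝ) ≤ q := by linarith
  have ha0 : ∀ ω, 0 ≤ a ω := fun ω => by rcases ha ω with h | h <;> rw [h]; norm_num
  have hP0 : 0 ≤ P.E a := P.E_nonneg ha0
  have hF0 : 0 ≤ ∏ v ∈ V, D.F v (t v) 0 := Finset.prod_nonneg fun v _ =>
    P.E_nonneg fun ω => pow_nonneg (hG.t_nonneg v) _
  have h1 := hC Ω ι κ P D t hG V a (fun ω => q ^ K ω * Y ω) ha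
    (fun ω => mul_nonneg (pow_nonneg hq0 _) (hY ω)) had
    (fun v hv => ((hK v hv).comp fun k => q ^ k).comp2 (hYd v hv) fun x y : ℝ => x * y)
  have h2 : P.E (fun ω => |W ω| * (a ω * Y ω)) ≤
      P.E (fun ω => (∏ v ∈ V, t v ^ D.N v 0 ω) * (a ω * (q ^ K ω * Y ω))) := by
    refine P.mono _ _ fun ω => ?_
    calc |W ω| * (a ω * Y ω) ≤ ((∏ v ∈ V, t v ^ D.N v 0 ω) * q ^ K ω) * (a ω * Y ω) :=
          mul_le_mul_of_nonneg_right (hW ω) (mul_nonneg (ha0 ω) (hY ω))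
      _ = _ := by ring
  refine h2.trans (h1.trans ?_)
  have hYE : 0 ≤ P.E (fun ω => Y ω ^ (2 ^ (s + 2))) := P.E_nonneg fun ω => pow_nonneg (hY ω) _
  have hZE : 0 ≤ P.E (fun ω => (q ^ K ω * Y ω) ^ (2 ^ (s + 1))) :=
    P.E_nonneg fun ω => pow_nonneg (mul_nonneg (pow_nonneg hq0 _) (hY ω)) _
  have hqq : (1 : ℝ) ≤ q ^ 2 ^ (s + 2) := one_le_pow₀ hq
  have h3 := mom_mul P q hq (s + 1) K (max (cK (q ^ 2 ^ (s + 2))) 1)
    ((hcK _ hqq).trans (le_max_left _ _)) Y hY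
  rw [rt_eq_rpow hZE] at h3
  rw [rt_eq_rpow hYE] at h3
  set y := P.E (fun ω => Y ω ^ (2 ^ (s + 2))) ^ ((1 / 2 : ℝ) ^ (s + 2)) with hy
  have hy0 : 0 ≤ y := Real.rpow_nonneg hYE _
  have h4 : P.E a ^ (1 - (1 / 2 : ℝ) ^ s) *
      P.E (fun ω => (q ^ K ω * Y ω) ^ (2 ^ (s + 1))) ^ ((1 / 2 : ℝ) ^ (s + 1)) ≤
      P.E a ^ (1 - (1 / 2 : ℝ) ^ s) * (c1 * y) :=
    mul_le_mul_of_nonneg_left h3 (Real.rpow_nonneg hP0 _)
  have hCV : C ^ V.card ≤ C ^ nV := pow_le_pow_right₀ hC1 hV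
  have hCV0 : 0 ≤ C ^ V.card := pow_nonneg (by linarith) _
  calc C ^ V.card * (∏ v ∈ V, D.F v (t v) 0) * (P.E a ^ (1 - (1 / 2 : ℝ) ^ s) *
        P.E (fun ω => (q ^ K ω * Y ω) ^ (2 ^ (s + 1))) ^ ((1 / 2 : ℝ) ^ (s + 1)))
      ≤ C ^ V.card * (∏ v ∈ V, D.F v (t v) 0) * (P.E a ^ (1 - (1 / 2 : ℝ) ^ s) * (c1 * y)) :=
        mul_le_mul_of_nonneg_left h4 (mul_nonneg hCV0 hF0)
    _ ≤ C ^ nV * (∏ v ∈ V, D.F v (t v) 0) * (P.E a ^ (1 - (1 / 2 : ℝ) ^ s) * (c1 * y)) := by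
        refine mul_le_mul_of_nonneg_right (mul_le_mul_of_nonneg_right hCV hF0) ?_
        exact mul_nonneg (Real.rpow_nonneg hP0 _) (mul_nonneg hc10 hy0)
    _ = _ := by ring

/-- the upper bound for the partition function itself -/
theorem upper_signed_one (cM cK : ℝ → ℝ) (t₀ T A₀ q : ℝ) (nV : ℕ) (ht₀ : 0 < t₀) (ht₁ : t₀ ≤ 1)
    (hT : 1 ≤ T) (hq : 1 ≤ q) :
    ∃ C : ℝ, 1 ≤ C ∧ ∀ (Ω ι κ : Type) (P : ExpSys Ω ι) (D : ChainData P κ) (t : κ → ℝ),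
      D.Good t cM t₀ T A₀ → ∀ (V : Finset κ), V.card ≤ nV → ∀ (W : Ω → ℝ) (K : Ω → ℕ),
      (∀ ω, |W ω| ≤ (∏ v ∈ V, t v ^ D.N v 0 ω) * q ^ K ω) →
      (∀ v ∈ V, P.Dep (D.B v 1)ᶜ K) → (∀ L : ℝ, 1 ≤ L → P.E (fun ω => L ^ K ω) ≤ cK L) →
      P.E (fun ω => |W ω|) ≤ C * ∏ v ∈ V, D.F v (t v) 0 := by
  obtain ⟨C, hC1, hC⟩ := upper_signed cM cK t₀ T A₀ q 0 nV ht₀ ht₁ hT hq
  refine ⟨C, hC1, ?_⟩
  intro Ω ι κ P D t hG V hV W K hW hK hcK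
  have h := hC Ω ι κ P D t hG V hV W K hW hK hcK (fun _ => 1) (fun _ => 1) (fun _ => Or.inr rfl)
    (fun _ => zero_le_one) (fun v _ => ExpSys.Dep.const _ _) (fun v _ => ExpSys.Dep.const _ _)
  simpa [P.one] using h

section own

variable {Ω ι κ : Type*} (P : ExpSys Ω ι)

/-- product formula with own factors -/
theorem own_prod (B : κ → Set ι) (hdis : ∀ v v', v ≠ v' → Disjoint (B v) (B v'))
    (a : κ → Ω → ℝ) (V : Finset κ) (ha : ∀ v ∈ V, P.Dep (B v) (a v)) (g : Ω → ℝ) (S : Set ι)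
    (hg : P.Dep S g) (hS : ∀ v ∈ V, Disjoint S (B v)) :
    P.E (fun ω => (∏ v ∈ V, a v ω) * g ω) = (∏ v ∈ V, P.E (a v)) * P.E g := by
  classical
  induction V using Finset.induction_on with
  | empty => simp
  | insert x V hx ih =>
    have hxV : ∀ v ∈ V, v ≠ x := fun v hv h => hx (h ▸ hv)
    have e : (fun ω => (∏ v ∈ insert x V, a v ω) * g ω) =
        fun ω => a x ω * ((∏ v ∈ V, a v ω) * g ω) := by
      funext ω
      rw [Finset.prod_insert hx]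
      ring
    have h1 : P.Dep (B x)ᶜ (fun ω => ∏ v ∈ V, a v ω) := by
      refine ExpSys.Dep.prod _ _ fun v hv => ?_
      refine (ha v (Finset.mem_insert_of_mem hv)).mono ?_
      intro y hy hy'
      exact Set.disjoint_left.1 (hdis v x (hxV v hv)) hy hy'
    have h2 : P.Dep (B x)ᶜ g := by
      refine hg.mono ?_
      intro y hy hy'
      exact Set.disjoint_left.1 (hS x (Finset.mem_insert_self _ _)) hy hy'
    rw [e, P.E_indep disjoint_compl_right (ha x (Finset.mem_insert_self _ _))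
      (h1.comp2 h2 fun x y : ℝ => x * y), ih (fun v hv => ha v (Finset.mem_insert_of_mem hv))
      fun v hv => hS v (Finset.mem_insert_of_mem hv), Finset.prod_insert hx]
    ring

end own

/-- LOWER BOUND with own factors `a v` and a factor `f` of a region `R` -/
theorem lower_own (cM : ℝ → ℝ) (t₀ T A₀ cK g₀ w a₀ : ℝ) (nV : ℕ) (ht₀ : 0 < t₀) (ht₁ : t₀ ≤ 1)
    (hT : 1 ≤ T) (hg₀ : 0 < g₀) (hw0 : 0 < w) (hw1 : w ≤ 1) (ha₀ : 0 < a₀) :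
    ∃ c : ℝ, 0 < c ∧ ∀ (Ω ι κ : Type) (P : ExpSys Ω ι) (D : ChainData P κ) (t : κ → ℝ),
      D.Good t cM t₀ T A₀ → ∀ (V : Finset κ), V.card ≤ nV →
      ∀ (a : κ → Ω → ℝ) (f : Ω → ℝ) (R : Set ι) (K : Ω → ℕ) (g : Ω → ℝ) (S : Set ι),
      (∀ v ∈ V, P.Dep (D.B v 0) (a v)) → (∀ v ∈ V, ∀ ω, 0 ≤ a v ω) →
      (∀ v ∈ V, ∀ ω, a v ω ≤ t v ^ D.N v 0 ω) → (∀ v ∈ V, a₀ * D.F v (t v) 0 ≤ P.E (a v)) →
      P.Dep R f → (∀ ω, 0 ≤ f ω) → (∀ v ∈ V, Disjoint R (D.B v 0)) → Disjoint R S →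
      P.Dep Rᶜ K → (∀ v ∈ V, P.Dep (D.B v 1)ᶜ K) → P.E (fun ω => 2 ^ K ω) ≤ cK →
      P.Dep S g → (∀ v ∈ V, Disjoint S (D.B v 0)) → (∀ ω, 0 ≤ g ω) → (∀ ω, g ω ≤ 1) →
      g₀ ≤ P.E g →
      c * (P.E f * ∏ v ∈ V, D.F v (t v) 0) ≤
        P.E (fun ω => f ω * ((∏ v ∈ V, a v ω) * (w ^ K ω * g ω))) := by
  obtain ⟨C, hC1, hC⟩ := qm_upper cM t₀ T A₀ ht₀ ht₁ hT
  -- `b₀ = min a₀ 1`
  set b₀ : ℝ := min a₀ 1 with hb₀
  have hb₀0 : 0 < b₀ := lt_min ha₀ one_pos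
  have hb₀1 : b₀ ≤ 1 := min_le_right _ _
  have hbV : 0 < b₀ ^ nV := pow_pos hb₀0 _
  obtain ⟨n, hn⟩ : ∃ n : ℕ, C ^ nV * Real.sqrt (cK * ((2 : ℝ) ^ n)⁻¹) ≤ b₀ ^ nV * g₀ / 2 := by
    have hCn : 0 < C ^ nV := by positivity
    obtain ⟨n, hn⟩ := pow_unbounded_of_one_lt (cK / (b₀ ^ nV * g₀ / 2 / C ^ nV) ^ 2)
      (show (1 : ℝ) < 2 by norm_num)
    refine ⟨n, ?_⟩
    have h1 : cK * ((2 : ℝ) ^ n)⁻¹ ≤ (b₀ ^ nV * g₀ / 2 / C ^ nV) ^ 2 := by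
      rw [div_lt_iff₀ (by positivity)] at hn
      rw [← div_eq_mul_inv, div_le_iff₀ (by positivity)]
      linarith
    have h2 : Real.sqrt (cK * ((2 : ℝ) ^ n)⁻¹) ≤ b₀ ^ nV * g₀ / 2 / C ^ nV :=
      Real.sqrt_le_iff.2 ⟨by positivity, h1⟩
    calc C ^ nV * Real.sqrt (cK * ((2 : ℝ) ^ n)⁻¹) ≤ C ^ nV * (b₀ ^ nV * g₀ / 2 / C ^ nV) :=
          mul_le_mul_of_nonneg_left h2 hCn.le
      _ = b₀ ^ nV * g₀ / 2 := by field_simp
  refine ⟨w ^ n * (b₀ ^ nV * g₀ / 2), by positivity, ?_⟩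
  intro Ω ι κ P D t hG V hV a f R K g S had ha0 hat haE hfd hf0 hRB hRS hKR hK hcK hgd hSB hg0
    hg1 hgE
  have hFv : ∀ v, 0 ≤ D.F v (t v) 0 := fun v =>
    P.E_nonneg fun ω => pow_nonneg (hG.t_nonneg v) _
  have hF : 0 ≤ ∏ v ∈ V, D.F v (t v) 0 := Finset.prod_nonneg fun v _ => hFv v
  have hfE : 0 ≤ P.E f := P.E_nonneg hf0
  set k1 : Ω → ℝ := fun ω => if n < K ω then 1 else 0 with hk1
  have hk10 : ∀ ω, 0 ≤ k1 ω := fun ω => by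
    simp only [hk1]
    split_ifs <;> norm_num
  have hk1d : ∀ v ∈ V, P.Dep (D.B v 1)ᶜ k1 := fun v hv =>
    (hK v hv).comp fun k => if n < k then (1 : ℝ) else 0
  have hprod0 : ∀ ω, 0 ≤ ∏ v ∈ V, a v ω := fun ω => Finset.prod_nonneg fun v hv => ha0 v hv ω
  -- pointwise lower bound
  have hpt : ∀ ω, w ^ n * (f ω * ((∏ v ∈ V, a v ω) * g ω) -
      f ω * ((∏ v ∈ V, t v ^ D.N v 0 ω) * k1 ω)) ≤
      f ω * ((∏ v ∈ V, a v ω) * (w ^ K ω * g ω)) := by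
    intro ω
    have h1 : (∏ v ∈ V, a v ω) ≤ ∏ v ∈ V, t v ^ D.N v 0 ω :=
      Finset.prod_le_prod (fun v hv => ha0 v hv ω) fun v hv => hat v hv ω
    have h2 : f ω * ((∏ v ∈ V, a v ω) * k1 ω) ≤ f ω * ((∏ v ∈ V, t v ^ D.N v 0 ω) * k1 ω) :=
      mul_le_mul_of_nonneg_left (mul_le_mul_of_nonneg_right h1 (hk10 ω)) (hf0 ω)
    have h3 : w ^ n * (g ω - k1 ω) ≤ w ^ K ω * g ω := by
      simp only [hk1]
      split_ifs with hk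
      · have h5 : w ^ n * (g ω - 1) ≤ 0 :=
          mul_nonpos_of_nonneg_of_nonpos (pow_nonneg hw0.le _) (by linarith [hg1 ω])
        exact h5.trans (mul_nonneg (pow_nonneg hw0.le _) (hg0 ω))
      · rw [sub_zero]
        exact mul_le_mul_of_nonneg_right (pow_le_pow_of_le_one hw0.le hw1 (by omega)) (hg0 ω)
    have h4 := mul_le_mul_of_nonneg_left h3 (mul_nonneg (hf0 ω) (hprod0 ω))
    have h5 := mul_le_mul_of_nonneg_left h2 (pow_nonneg hw0.le n)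
    nlinarith
  refine le_trans ?_ (P.mono _ _ hpt)
  rw [P.smul, P.E_sub]
  -- first term
  have hgk : P.E (fun ω => f ω * ((∏ v ∈ V, a v ω) * g ω)) =
      P.E f * ((∏ v ∈ V, P.E (a v)) * P.E g) := by
    have hd1 : P.Dep Rᶜ (fun ω => (∏ v ∈ V, a v ω) * g ω) := by
      refine ExpSys.Dep.comp2 (ExpSys.Dep.prod _ _ fun v hv => ?_) (hgd.mono ?_)
        fun x y : ℝ => x * y
      · refine (had v hv).mono ?_
        intro y hy hy'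
        exact Set.disjoint_left.1 (hRB v hv) hy' hy
      · intro y hy hy'
        exact Set.disjoint_left.1 hRS hy' hy
    rw [P.E_indep disjoint_compl_right hfd hd1,
      own_prod P (fun v => D.B v 0) D.hdis a V had g S hgd hSB]
  have hkk : P.E (fun ω => f ω * ((∏ v ∈ V, t v ^ D.N v 0 ω) * k1 ω)) =
      P.E f * P.E (fun ω => (∏ v ∈ V, t v ^ D.N v 0 ω) * k1 ω) := by
    have hd1 : P.Dep Rᶜ (fun ω => (∏ v ∈ V, t v ^ D.N v 0 ω) * k1 ω) := by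
      refine ExpSys.Dep.comp2 (ExpSys.Dep.prod _ _ fun v hv => ?_)
        (hKR.comp fun k => if n < k then (1 : ℝ) else 0) fun x y : ℝ => x * y
      have h2 : P.Dep Rᶜ (D.N v 0) := by
        refine (D.hN v 0).mono ?_
        intro y hy hy'
        exact Set.disjoint_left.1 (hRB v hv) hy' hy
      exact h2.comp fun n => t v ^ n
    exact P.E_indep disjoint_compl_right hfd hd1
  rw [hgk, hkk]
  have h1 := hC Ω ι κ P D t hG V k1 hk10 hk1d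
  have e1 : (fun ω => k1 ω ^ 2) = k1 := by
    funext ω
    simp only [hk1]
    split_ifs <;> norm_num
  rw [e1] at h1
  have h4 : P.E k1 ≤ cK * ((2 : ℝ) ^ n)⁻¹ := by
    have h5 := trunc_le P K 1 2 cK le_rfl (by norm_num) 0 (by simpa using hcK) n
    simpa [hk1] using h5
  have h5 : C ^ V.card * Real.sqrt (P.E k1) ≤ b₀ ^ nV * g₀ / 2 := by
    refine le_trans ?_ hn
    exact mul_le_mul (pow_le_pow_right₀ hC1 hV) (Real.sqrt_le_sqrt h4) (Real.sqrt_nonneg _)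
      (by positivity)
  have h6 : P.E (fun ω => (∏ v ∈ V, t v ^ D.N v 0 ω) * k1 ω) ≤
      (b₀ ^ nV * g₀ / 2) * ∏ v ∈ V, D.F v (t v) 0 := by
    refine h1.trans ?_
    calc C ^ V.card * (∏ v ∈ V, D.F v (t v) 0) * Real.sqrt (P.E k1)
        = (C ^ V.card * Real.sqrt (P.E k1)) * ∏ v ∈ V, D.F v (t v) 0 := by ring
      _ ≤ _ := mul_le_mul_of_nonneg_right h5 hF
  have h7 : b₀ ^ nV * ∏ v ∈ V, D.F v (t v) 0 ≤ ∏ v ∈ V, P.E (a v) := by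
    have h8 : ∏ v ∈ V, (b₀ * D.F v (t v) 0) ≤ ∏ v ∈ V, P.E (a v) := by
      refine Finset.prod_le_prod (fun v _ => mul_nonneg hb₀0.le (hFv v)) fun v hv => ?_
      exact (mul_le_mul_of_nonneg_right (min_le_left _ _) (hFv v)).trans (haE v hv)
    rw [Finset.prod_mul_distrib, Finset.prod_const] at h8
    refine le_trans (mul_le_mul_of_nonneg_right ?_ hF) h8
    exact pow_le_pow_of_le_one hb₀0.le hb₀1 hV
  have h8 : (b₀ ^ nV * g₀) * ∏ v ∈ V, D.F v (t v) 0 ≤ (∏ v ∈ V, P.E (a v)) * P.E g := by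
    calc (b₀ ^ nV * g₀) * ∏ v ∈ V, D.F v (t v) 0
        = (b₀ ^ nV * ∏ v ∈ V, D.F v (t v) 0) * g₀ := by ring
      _ ≤ (∏ v ∈ V, P.E (a v)) * P.E g :=
        mul_le_mul h7 hgE hg₀.le (Finset.prod_nonneg fun v hv => P.E_nonneg (ha0 v hv))
  rw [mul_assoc]
  refine mul_le_mul_of_nonneg_left ?_ (pow_nonneg hw0.le _)
  have h9 := mul_le_mul_of_nonneg_left h8 hfE
  have h10 := mul_le_mul_of_nonneg_left h6 hfE
  nlinarith

/-- LOWER BOUND FOR A SIGNED WEIGHT. `V` the outer vertices, `VD` the vertices of the region `R`;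
`f = ` weight of the region on the event that its mouths are blocked; `bad` the event that `W < 0` is
possible. -/
theorem lower_signed (cM cK : ℝ → ℝ) (t₀ T A₀ q cK' g₀ w a₀ a₁ : ℝ) (nV : ℕ) (ht₀ : 0 < t₀)
    (ht₁ : t₀ ≤ 1) (hT : 1 ≤ T) (hq : 1 ≤ q) (hg₀ : 0 < g₀) (hw0 : 0 < w) (hw1 : w ≤ 1)
    (ha₀ : 0 < a₀) (ha₁ : 0 < a₁) :
    ∃ c δ : ℝ, 0 < c ∧ 0 < δ ∧
      ∀ (Ω ι κ : Type) (P : ExpSys Ω ι) (D : ChainData P κ) (t : κ → ℝ),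
      D.Good t cM t₀ T A₀ → ∀ (V VD : Finset κ), Disjoint V VD → V.card + VD.card ≤ nV →
      ∀ (W : Ω → ℝ) (K : Ω → ℕ) (bad : Ω → ℝ),
      (∀ ω, |W ω| ≤ ((∏ v ∈ V, t v ^ D.N v 0 ω) * ∏ v ∈ VD, t v ^ D.N v 0 ω) * q ^ K ω) →
      (∀ v ∈ V, P.Dep (D.B v 1)ᶜ K) → (∀ v ∈ VD, P.Dep (D.B v 1)ᶜ K) →
      (∀ L : ℝ, 1 ≤ L → P.E (fun ω => L ^ K ω) ≤ cK L) →
      (∀ ω, bad ω = 0 ∨ bad ω = 1) → (∀ v ∈ V, P.Dep (D.B v 1)ᶜ bad) →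
      (∀ v ∈ VD, P.Dep (D.B v 1)ᶜ bad) → P.E bad ≤ δ →
      ∀ (a : κ → Ω → ℝ) (f : Ω → ℝ) (R : Set ι) (K' : Ω → ℕ) (g : Ω → ℝ) (S : Set ι),
      (∀ v ∈ V, P.Dep (D.B v 0) (a v)) → (∀ v ∈ V, ∀ ω, 0 ≤ a v ω) →
      (∀ v ∈ V, ∀ ω, a v ω ≤ t v ^ D.N v 0 ω) → (∀ v ∈ V, a₀ * D.F v (t v) 0 ≤ P.E (a v)) →
      P.Dep R f → (∀ ω, 0 ≤ f ω) → (∀ v ∈ V, Disjoint R (D.B v 0)) → Disjoint R S →
      a₁ * ∏ v ∈ VD, D.F v (t v) 0 ≤ P.E f →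
      P.Dep Rᶜ K' → (∀ v ∈ V, P.Dep (D.B v 1)ᶜ K') → P.E (fun ω => 2 ^ K' ω) ≤ cK' →
      P.Dep S g → (∀ v ∈ V, Disjoint S (D.B v 0)) → (∀ ω, 0 ≤ g ω) → (∀ ω, g ω ≤ 1) →
      g₀ ≤ P.E g →
      (∀ ω, bad ω = 0 → f ω * ((∏ v ∈ V, a v ω) * (w ^ K' ω * g ω)) ≤ W ω) →
      (∀ ω, bad ω = 1 → g ω = 0) →
      c * ((∏ v ∈ V, D.F v (t v) 0) * ∏ v ∈ VD, D.F v (t v) 0) ≤ P.E W ∧
        c * (P.E f * ∏ v ∈ V, D.F v (t v) 0) ≤ P.E W := by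
  classical
  obtain ⟨c, hc0, hc⟩ := lower_own cM t₀ T A₀ cK' g₀ w a₀ nV ht₀ ht₁ hT hg₀ hw0 hw1 ha₀
  obtain ⟨C, hC1, hC⟩ := upper_signed cM cK t₀ T A₀ q 1 nV ht₀ ht₁ hT hq
  have hC0 : 0 < C := by linarith
  set δ : ℝ := (c * a₁ / 2 / C) ^ 2 with hδ
  have hδ0 : 0 < δ := by positivity
  refine ⟨min (c * a₁ / 2) (c / 2), δ, by positivity, hδ0, ?_⟩
  intro Ω ι κ P D t hG V VD hVV hVn W K bad hW hK1 hK2 hcK hb01 hbd1 hbd2 hbE a f R K' g S had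
    ha0 hat haE hfd hf0 hRB hRS hfE hKR hK' hcK' hgd hSB hg0 hg1 hgE hlow hgb
  have hFv : ∀ v, 0 ≤ D.F v (t v) 0 := fun v =>
    P.E_nonneg fun ω => pow_nonneg (hG.t_nonneg v) _
  set FV := ∏ v ∈ V, D.F v (t v) 0 with hFV
  set FD := ∏ v ∈ VD, D.F v (t v) 0 with hFD
  have hFV0 : 0 ≤ FV := Finset.prod_nonneg fun v _ => hFv v
  have hFD0 : 0 ≤ FD := Finset.prod_nonneg fun v _ => hFv v
  have hmain := hc Ω ι κ P D t hG V (by omega) a f R K' g S had ha0 hat haE hfd hf0 hRB hRS hKR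
    hK' hcK' hgd hSB hg0 hg1 hgE
  have hup := hC Ω ι κ P D t hG (V ∪ VD)
    ((Finset.card_union_le _ _).trans hVn) W K
    (fun ω => by rw [Finset.prod_union hVV]; exact hW ω)
    (fun v hv => by
      rcases Finset.mem_union.1 hv with h | h
      exacts [hK1 v h, hK2 v h]) hcK bad (fun _ => 1) hb01 (fun _ => zero_le_one)
    (fun v hv => by
      rcases Finset.mem_union.1 hv with h | h
      exacts [hbd1 v h, hbd2 v h]) (fun v _ => ExpSys.Dep.const _ _)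
  rw [Finset.prod_union hVV] at hup
  have e1 : (1 : ℝ) - (1 / 2 : ℝ) ^ 1 = 1 / 2 := by norm_num
  rw [e1] at hup
  simp only [mul_one, one_pow, P.one, Real.one_rpow] at hup
  have hb0 : 0 ≤ P.E bad := P.E_nonneg fun ω => by rcases hb01 ω with h | h <;> rw [h]; norm_num
  have hbs : P.E bad ^ (1 / 2 : ℝ) ≤ c * a₁ / 2 / C := by
    rw [← Real.sqrt_eq_rpow]
    refine (Real.sqrt_le_sqrt hbE).trans (le_of_eq ?_)
    rw [hδ]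
    exact Real.sqrt_sq (by positivity)
  have hup2 : P.E (fun ω => |W ω| * bad ω) ≤ (c * a₁ / 2) * (FV * FD) := by
    refine hup.trans ?_
    calc C * (FV * FD) * P.E bad ^ (1 / 2 : ℝ) ≤ C * (FV * FD) * (c * a₁ / 2 / C) :=
          mul_le_mul_of_nonneg_left hbs (by positivity)
      _ = _ := by field_simp
  have hpt : ∀ ω, f ω * ((∏ v ∈ V, a v ω) * (w ^ K' ω * g ω)) - |W ω| * bad ω ≤ W ω := by
    intro ω
    rcases hb01 ω with h | h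
    · rw [h, mul_zero, sub_zero]
      exact hlow ω h
    · rw [h, hgb ω h]
      have := neg_abs_le (W ω)
      simpa using this
  have hE := P.mono _ _ hpt
  rw [P.E_sub] at hE
  have h1 : c * (a₁ * FD * FV) ≤ c * (P.E f * FV) :=
    mul_le_mul_of_nonneg_left (mul_le_mul_of_nonneg_right hfE hFV0) hc0.le
  have h2 : c * (P.E f * FV) / 2 ≤ P.E W := by
    have h3 : (c * a₁ / 2) * (FV * FD) = c * (a₁ * FD * FV) / 2 := by ring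
    linarith
  have hfE0 : 0 ≤ P.E f := P.E_nonneg hf0
  refine ⟨?_, ?_⟩
  · have h4 : min (c * a₁ / 2) (c / 2) * (FV * FD) ≤ (c * a₁ / 2) * (FV * FD) :=
      mul_le_mul_of_nonneg_right (min_le_left _ _) (mul_nonneg hFV0 hFD0)
    have h5 : (c * a₁ / 2) * (FV * FD) = c * (a₁ * FD * FV) / 2 := by ring
    linarith
  · have h4 : min (c * a₁ / 2) (c / 2) * (P.E f * FV) ≤ (c / 2) * (P.E f * FV) :=
      mul_le_mul_of_nonneg_right (min_le_right _ _) (mul_nonneg hfE0 hFV0)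
    linarith

end Pool.Agent.SixB
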