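import Pool.Agent.Lib.SixB.S3Cell
import Pool.Agent.Lib.SixB.S0Bd

/-!
# 6BD, step 3: charts relative to a set of boundary sides, removed arcs

* `ChZ`: the structure `Charts` of `S3Loc` relative to a set `Z` of boundary sides: natural charts
  (`G i`, sides `H i` of the half chart) and special charts (big box `Bb`, small box `Bs`, sides `Hb` of the half
  box, walls `PA`, `PB`, weight `t`); only the sides of `Z` must be covered.
* `ChZ.prod_sub_le`: for every set `A` of arcs with an end in `Z` which contains the arcs over the special vertices in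
  the small boxes, `|∏ A| ≤ √3 ^ card A * ∏ t v ^ N v * (2/√3) ^ K`.
* `ChZ.abs_WZ_le`; `ChZ.prod_erase_le` (one arc removed), `ChZ.abs_WU1_le` (the arrow of `e` inserted).
* `ChZ.Exact`, `ChZ.prod_eq`, `ChZ.WZ_eq`: exact product if all strands stay in their charts.
-/

set_option autoImplicit false
set_option linter.unusedSectionVars false

namespace Pool.Agent.SixB

open Pool.Agent.Perc.Q Relation

noncomputable section

variable {V Φ : Type} [DecidableEq V] [DecidableEq Φ]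
variable {Q : QC V Φ} {F F' G G' G₀ : Finset Φ} {ω ω' : Φ → Bool} {a b c : V × V}
  {Z H P P' : Finset (V × V)}

/-- Charts of `F` with the phases `ψ` for the set `Z` of boundary sides. -/
structure ChZ (Q : QC V Φ) (F : Finset Φ) (ψ : V × V → ℝ) (Z : Finset (V × V)) (ι κ : Type) where
  I : Finset ι
  S : Finset κ
  /-- faces of the natural charts, sides of the half charts -/
  G : ι → Finset Φ
  H : ι → Finset (V × V)
  /-- special charts: big box, small box, sides of the half box, sides of the two walls -/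
  B : κ → Finset Φ
  Bs : κ → Finset Φ
  Hb : κ → Finset (V × V)
  PA : κ → Finset (V × V)
  PB : κ → Finset (V × V)
  t : κ → ℝ
  Z_F : Z ⊆ bS Q F
  G_sub : ∀ i ∈ I, G i ⊆ F
  H_Z : ∀ i ∈ I, H i ⊆ Z
  H_G : ∀ i ∈ I, H i ⊆ bS Q (G i)
  nat : ∀ i ∈ I, ∀ ω, ∀ a ∈ H i, mate Q (G i) ω a ∈ bS Q F → |wt Q (G i) ω ψ a| ≤ Real.sqrt 3
  Bs_sub : ∀ v ∈ S, Bs v ⊆ B v
  B_sub : ∀ v ∈ S, B v ⊆ F
  Hb_Z : ∀ v ∈ S, Hb v ⊆ Z
  Hb_B : ∀ v ∈ S, Hb v ⊆ bS Q (B v)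
  PA_Z : ∀ v ∈ S, PA v ⊆ Z
  PB_F : ∀ v ∈ S, PB v ⊆ bS Q F
  dAB : ∀ v ∈ S, ∀ v' ∈ S, Disjoint (PA v) (PB v')
  dAA : ∀ v ∈ S, ∀ v' ∈ S, v ≠ v' → Disjoint (PA v) (PA v')
  t_nonneg : ∀ v ∈ S, 0 ≤ t v
  spec : ∀ v ∈ S, ∀ ω, ∀ a ∈ Hb v, mate Q (B v) ω a ∈ bS Q F →
    (a ∈ PA v ∧ mate Q (B v) ω a ∈ PB v) ∨ (a ∈ PB v ∧ mate Q (B v) ω a ∈ PA v) ∨
      |wt Q (B v) ω ψ a| ≤ Real.sqrt 3
  ovw : ∀ v ∈ S, ∀ ω, ∀ a ∈ PA v, a ∈ bS Q (B v) → mate Q (B v) ω a ∈ PB v →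
    wt Q (B v) ω ψ a = Real.sqrt 3 * t v
  cover : ∀ a ∈ Z, (∃ i ∈ I, a ∈ H i) ∨ ∃ v ∈ S, a ∈ Hb v

namespace ChZ

variable {ψ : V × V → ℝ} {ι κ : Type} [DecidableEq ι] [DecidableEq κ]

/-- The number of the arcs over `v` in the small box. -/
def N (C : ChZ Q F ψ Z ι κ) (v : κ) (ω : Φ → Bool) : ℕ :=
  (ovr Q (C.Bs v) (C.PA v) (C.PB v) ω).card

/-- The number of the arcs over `v` in the big box. -/
def Nb (C : ChZ Q F ψ Z ι κ) (v : κ) (ω : Φ → Bool) : ℕ :=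
  (ovr Q (C.B v) (C.PA v) (C.PB v) ω).card

/-- The number of the sides whose strand leaves the chart. -/
def X (C : ChZ Q F ψ Z ι κ) (ω : Φ → Bool) : ℕ :=
  ∑ i ∈ C.I, (esc Q F (C.G i) (C.H i) ω).card + ∑ v ∈ C.S, (esc Q F (C.B v) (C.Hb v) ω).card

/-- The number of the exceptional arcs. -/
def K (C : ChZ Q F ψ Z ι κ) (ω : Φ → Bool) : ℕ :=
  C.X ω + ∑ v ∈ C.S, (C.Nb v ω - C.N v ω)

theorem ovr_sub (C : ChZ Q F ψ Z ι κ) {v : κ} (hv : v ∈ C.S) (ω : Φ → Bool) :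
    ovr Q (C.Bs v) (C.PA v) (C.PB v) ω ⊆ ovr Q (C.B v) (C.PA v) (C.PB v) ω := by
  intro a ha
  obtain ⟨h1, h2, h3⟩ := mem_ovr.mp ha
  have haF := (mem_bS.mp (C.Z_F (C.PA_Z v hv h1))).2
  have hbF := (mem_bS.mp (C.PB_F v hv h3)).2
  have hsub : ((C.B v : Finset Φ) : Set Φ) ⊆ (F : Set Φ) := by exact_mod_cast C.B_sub v hv
  have h4 := mate_loc' (C.Bs_sub v hv) h2 (Ini.anti hsub haF) (Ini.anti hsub hbF)
  refine mem_ovr.mpr ⟨h1, ?_, by rw [h4.1]; exact h3⟩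
  exact mem_bS.mpr ⟨mate_loc'.dE_mono (C.Bs_sub v hv) (mem_bS.mp h2).1, Ini.anti hsub haF⟩

theorem N_le_Nb (C : ChZ Q F ψ Z ι κ) {v : κ} (hv : v ∈ C.S) (ω : Φ → Bool) :
    C.N v ω ≤ C.Nb v ω := Finset.card_le_card (C.ovr_sub hv ω)

/-- Arcs over `v` in the box as arcs of `F`. -/
theorem over_F (C : ChZ Q F ψ Z ι κ) {v : κ} (hv : v ∈ C.S)
    (ha : a ∈ ovr Q (C.B v) (C.PA v) (C.PB v) ω) :
    a ∈ Z ∧ mate Q F ω a = mate Q (C.B v) ω a ∧ wt Q F ω ψ a = Real.sqrt 3 * C.t v := by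
  obtain ⟨h1, h2, h3⟩ := mem_ovr.mp ha
  have haZ := C.PA_Z v hv h1
  have haF := C.Z_F haZ
  have h4 := mate_loc (C.B_sub v hv) h2 (mem_bS.mp haF).2 (C.PB_F v hv h3)
  refine ⟨haZ, h4.1, ?_⟩
  rw [wt_loc ψ (C.B_sub v hv) h2 (mem_bS.mp haF).2 (C.PB_F v hv h3)]
  exact C.ovw v hv ω a h1 h2 h3

/-- The arcs over `v` in the face set `D`. -/
def A (C : ChZ Q F ψ Z ι κ) (D : κ → Finset Φ) (ω : Φ → Bool) (v : κ) : Finset (Sym2 (V × V)) :=
  (ovr Q (D v) (C.PA v) (C.PB v) ω).image fun a => s(a, mate Q F ω a)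

theorem card_A (C : ChZ Q F ψ Z ι κ) {D : κ → Finset Φ} {ω : Φ → Bool} {v : κ} (hv : v ∈ C.S)
    (hD : ovr Q (D v) (C.PA v) (C.PB v) ω ⊆ ovr Q (C.B v) (C.PA v) (C.PB v) ω) :
    (C.A D ω v).card = (ovr Q (D v) (C.PA v) (C.PB v) ω).card := by
  unfold A
  refine Finset.card_image_of_injOn fun a ha b hb h => ?_
  have ha' := C.over_F hv (hD (Finset.mem_coe.mp ha))
  have ha3 := (mem_ovr.mp (hD (Finset.mem_coe.mp ha))).2.2
  have hb1 := (mem_ovr.mp (Finset.mem_coe.mp hb)).1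
  have h' : s(a, mate Q F ω a) = s(b, mate Q F ω b) := h
  rw [Sym2.eq_iff] at h'
  rcases h' with ⟨h1, -⟩ | ⟨-, h1⟩
  · exact h1
  · exfalso
    rw [ha'.2.1] at h1
    rw [h1] at ha3
    exact Finset.disjoint_left.mp (C.dAB v hv v hv) hb1 ha3

theorem A_disj (C : ChZ Q F ψ Z ι κ) {D : κ → Finset Φ} {ω : Φ → Bool}
    (hD : ∀ v ∈ C.S, ovr Q (D v) (C.PA v) (C.PB v) ω ⊆ ovr Q (C.B v) (C.PA v) (C.PB v) ω) :
    ∀ v ∈ C.S, ∀ v' ∈ C.S, v ≠ v' → Disjoint (C.A D ω v) (C.A D ω v') := by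
  intro v hv v' hv' hne
  rw [Finset.disjoint_left]
  intro p hp hp'
  obtain ⟨a, ha, rfl⟩ := Finset.mem_image.mp hp
  obtain ⟨b, hb, hab⟩ := Finset.mem_image.mp hp'
  have h1 := (mem_ovr.mp ha).1
  have h2 := (mem_ovr.mp hb).1
  have h4 := C.over_F hv (hD v hv ha)
  have h5 := (mem_ovr.mp (hD v hv ha)).2.2
  rw [← h4.2.1] at h5
  have hab' : s(b, mate Q F ω b) = s(a, mate Q F ω a) := hab
  rw [Sym2.eq_iff] at hab'
  rcases hab' with ⟨h6, -⟩ | ⟨h6, -⟩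
  · rw [h6] at h2
    exact Finset.disjoint_left.mp (C.dAA v hv v' hv' hne) h1 h2
  · rw [h6] at h2
    exact Finset.disjoint_left.mp (C.dAB v' hv' v hv) h2 h5

/-- the product over the arcs over the special vertices -/
theorem prod_A (C : ChZ Q F ψ Z ι κ) {D : κ → Finset Φ} {ω : Φ → Bool}
    (hD : ∀ v ∈ C.S, ovr Q (D v) (C.PA v) (C.PB v) ω ⊆ ovr Q (C.B v) (C.PA v) (C.PB v) ω) :
    ∏ p ∈ C.S.biUnion (C.A D ω), wA Q F ω ψ p =
      Real.sqrt 3 ^ (C.S.biUnion (C.A D ω)).card *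
        ∏ v ∈ C.S, C.t v ^ (ovr Q (D v) (C.PA v) (C.PB v) ω).card := by
  have hdis := C.A_disj hD
  have e1 : ∏ p ∈ C.S.biUnion (C.A D ω), wA Q F ω ψ p = ∏ v ∈ C.S, ∏ p ∈ C.A D ω v, wA Q F ω ψ p :=
    Finset.prod_biUnion (fun v hv v' hv' hne => hdis v (Finset.mem_coe.mp hv) v'
      (Finset.mem_coe.mp hv') hne)
  have e2 : (C.S.biUnion (C.A D ω)).card = ∑ v ∈ C.S, (ovr Q (D v) (C.PA v) (C.PB v) ω).card := by
    rw [Finset.card_biUnion hdis]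
    exact Finset.sum_congr rfl fun v hv => C.card_A hv (hD v hv)
  rw [e1, e2, ← Finset.prod_pow_eq_pow_sum, ← Finset.prod_mul_distrib]
  refine Finset.prod_congr rfl fun v hv => ?_
  rw [← mul_pow, ← C.card_A hv (hD v hv)]
  refine Finset.prod_eq_pow_card fun p hp => ?_
  obtain ⟨a, ha, rfl⟩ := Finset.mem_image.mp hp
  have h4 := C.over_F hv (hD v hv ha)
  rw [wA_eq ψ (C.Z_F h4.1), h4.2.2]

/-- the sides whose strand does not stay in the chart, and the arcs over `v` outside of `D v` -/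
def bad (C : ChZ Q F ψ Z ι κ) (D : κ → Finset Φ) (ω : Φ → Bool) : Finset (V × V) := by
  classical
  exact (C.I.biUnion fun i => esc Q F (C.G i) (C.H i) ω) ∪
    C.S.biUnion fun v => esc Q F (C.B v) (C.Hb v) ω ∪
      (ovr Q (C.B v) (C.PA v) (C.PB v) ω \ ovr Q (D v) (C.PA v) (C.PB v) ω)

theorem card_bad (C : ChZ Q F ψ Z ι κ) {D : κ → Finset Φ} {ω : Φ → Bool}
    (hD : ∀ v ∈ C.S, ovr Q (D v) (C.PA v) (C.PB v) ω ⊆ ovr Q (C.B v) (C.PA v) (C.PB v) ω) :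
    (C.bad D ω).card ≤ C.X ω +
      ∑ v ∈ C.S, (C.Nb v ω - (ovr Q (D v) (C.PA v) (C.PB v) ω).card) := by
  classical
  unfold bad X
  refine (Finset.card_union_le _ _).trans ?_
  rw [add_assoc, ← Finset.sum_add_distrib]
  refine Nat.add_le_add Finset.card_biUnion_le
    (Finset.card_biUnion_le.trans (Finset.sum_le_sum fun v hv => ?_))
  refine (Finset.card_union_le _ _).trans (Nat.add_le_add le_rfl ?_)
  rw [Finset.card_sdiff_of_subset (hD v hv)]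
  exact le_rfl

/-- Every arc with an end in `Z` is over a special vertex inside `D`, or it stays in a chart, or it
has an end in `bad`. -/
theorem trichotomy (C : ChZ Q F ψ Z ι κ) {D : κ → Finset Φ} {ω : Φ → Bool}
    (ha : a ∈ Z) (hU : s(a, mate Q F ω a) ∉ C.S.biUnion (C.A D ω)) :
    (∃ c ∈ C.bad D ω, s(c, mate Q F ω c) = s(a, mate Q F ω a)) ∨
      (∃ i ∈ C.I, a ∈ C.H i ∧ mate Q (C.G i) ω a ∈ bS Q F ∧
        wt Q F ω ψ a = wt Q (C.G i) ω ψ a) ∨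
      ∃ v ∈ C.S, a ∈ C.Hb v ∧ mate Q (C.B v) ω a ∈ bS Q F ∧
        wt Q F ω ψ a = wt Q (C.B v) ω ψ a ∧
        ¬(a ∈ C.PA v ∧ mate Q (C.B v) ω a ∈ C.PB v) ∧
        ¬(a ∈ C.PB v ∧ mate Q (C.B v) ω a ∈ C.PA v) := by
  classical
  have haF := C.Z_F ha
  -- an arc over `v` in the box
  have key : ∀ v ∈ C.S, ∀ b, s(b, mate Q F ω b) = s(a, mate Q F ω a) →
      b ∈ ovr Q (C.B v) (C.PA v) (C.PB v) ω → b ∈ C.bad D ω := by
    intro v hv b hba hb
    unfold bad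
    refine Finset.mem_union_right _ (Finset.mem_biUnion.mpr ⟨v, hv, Finset.mem_union_right _ ?_⟩)
    rw [Finset.mem_sdiff]
    refine ⟨hb, fun hb' => hU ?_⟩
    rw [Finset.mem_biUnion]
    refine ⟨v, hv, ?_⟩
    rw [← hba]
    exact Finset.mem_image_of_mem _ hb'
  rcases C.cover a ha with ⟨i, hi, hai⟩ | ⟨v, hv, hav⟩
  · by_cases hm : mate Q (C.G i) ω a ∈ bS Q F
    · exact Or.inr (Or.inl ⟨i, hi, hai, hm,
        wt_loc ψ (C.G_sub i hi) (C.H_G i hi hai) (mem_bS.mp haF).2 hm⟩)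
    · refine Or.inl ⟨a, ?_, rfl⟩
      unfold bad
      exact Finset.mem_union_left _ (Finset.mem_biUnion.mpr ⟨i, hi, mem_esc.mpr ⟨hai, hm⟩⟩)
  · by_cases hm : mate Q (C.B v) ω a ∈ bS Q F
    · have hab := C.Hb_B v hv hav
      have hloc := mate_loc (C.B_sub v hv) hab (mem_bS.mp haF).2 hm
      by_cases h1 : a ∈ C.PA v ∧ mate Q (C.B v) ω a ∈ C.PB v
      · exact Or.inl ⟨a, key v hv a rfl (mem_ovr.mpr ⟨h1.1, hab, h1.2⟩), rfl⟩
      · by_cases h2 : a ∈ C.PB v ∧ mate Q (C.B v) ω a ∈ C.PA v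
        · have hmb : mate Q (C.B v) ω a ∈ bS Q (C.B v) := mate_mem hab
          have heq : s(mate Q (C.B v) ω a, mate Q F ω (mate Q (C.B v) ω a)) =
              s(a, mate Q F ω a) := by
            rw [← hloc.1, mate_mate haF, Sym2.eq_swap]
          exact Or.inl ⟨_, key v hv _ heq
            (mem_ovr.mpr ⟨h2.2, hmb, by rw [mate_mate hab]; exact h2.1⟩), heq⟩
        · exact Or.inr (Or.inr ⟨v, hv, hav, hm,
            wt_loc ψ (C.B_sub v hv) hab (mem_bS.mp haF).2 hm, h1, h2⟩)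
    · refine Or.inl ⟨a, ?_, rfl⟩
      unfold bad
      exact Finset.mem_union_right _ (Finset.mem_biUnion.mpr ⟨v, hv, Finset.mem_union_left _
        (mem_esc.mpr ⟨hav, hm⟩)⟩)

theorem biUnion_sub (C : ChZ Q F ψ Z ι κ) {D : κ → Finset Φ} {ω : Φ → Bool}
    (hD : ∀ v ∈ C.S, ovr Q (D v) (C.PA v) (C.PB v) ω ⊆ ovr Q (C.B v) (C.PA v) (C.PB v) ω) :
    C.S.biUnion (C.A D ω) ⊆ arcsZ Q F Z ω := by
  intro p hp
  obtain ⟨v, hv, hp⟩ := Finset.mem_biUnion.mp hp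
  obtain ⟨a, ha, rfl⟩ := Finset.mem_image.mp hp
  exact mem_arcsZ.mpr ⟨a, (C.over_F hv (hD v hv ha)).1, rfl⟩

/-- **Localisation of the product over a set of arcs with an end in `Z`**, which contains the arcs over the special
vertices in the small boxes. -/
theorem prod_sub_le (C : ChZ Q F ψ Z ι κ) (ω : Φ → Bool) {A : Finset (Sym2 (V × V))}
    (hA : A ⊆ arcsZ Q F Z ω) (hUA : C.S.biUnion (C.A C.Bs ω) ⊆ A) :
    |∏ p ∈ A, wA Q F ω ψ p| ≤
      Real.sqrt 3 ^ A.card * (∏ v ∈ C.S, C.t v ^ C.N v ω) * (2 / Real.sqrt 3) ^ C.K ω := by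
  classical
  have h3 : (0 : ℝ) < Real.sqrt 3 := Real.sqrt_pos.mpr (by norm_num)
  have h32 : Real.sqrt 3 ≤ 2 := by
    rw [Real.sqrt_le_left (by norm_num)]
    norm_num
  have hq : 1 ≤ 2 / Real.sqrt 3 := by rwa [le_div_iff₀ h3, one_mul]
  have hD : ∀ v ∈ C.S, ovr Q (C.Bs v) (C.PA v) (C.PB v) ω ⊆
      ovr Q (C.B v) (C.PA v) (C.PB v) ω := fun v hv => C.ovr_sub hv ω
  set U := C.S.biUnion (C.A C.Bs ω) with hU
  set B := (A \ U).filter fun p => Real.sqrt 3 < |wA Q F ω ψ p| with hB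
  have hprodU : ∏ p ∈ U, |wA Q F ω ψ p| =
      Real.sqrt 3 ^ U.card * ∏ v ∈ C.S, C.t v ^ C.N v ω := by
    rw [← Finset.abs_prod, C.prod_A hD, abs_of_nonneg]
    · rfl
    · exact mul_nonneg (by positivity)
        (Finset.prod_nonneg fun v hv => pow_nonneg (C.t_nonneg v hv) _)
  have hBcard : B.card ≤ C.K ω := by
    refine le_trans ?_ (C.card_bad hD)
    have hsub : B ⊆ (C.bad C.Bs ω).image fun a => s(a, mate Q F ω a) := by
      intro p hp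
      rw [hB, Finset.mem_filter, Finset.mem_sdiff] at hp
      obtain ⟨⟨hp1, hp2⟩, hp3⟩ := hp
      obtain ⟨a, ha, rfl⟩ := mem_arcsZ.mp (hA hp1)
      rw [wA_eq ψ (C.Z_F ha)] at hp3
      rw [Finset.mem_image]
      rcases C.trichotomy ha hp2 with h | ⟨i, hi, h1, h2, h4⟩ | ⟨v, hv, h1, h2, h4, h5, h6⟩
      · exact h
      · exfalso
        have := C.nat i hi ω a h1 h2
        rw [← h4] at this
        linarith
      · exfalso
        rcases C.spec v hv ω a h1 h2 with h | h | h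
        · exact h5 h
        · exact h6 h
        · rw [← h4] at h
          linarith
    exact (Finset.card_le_card hsub).trans Finset.card_image_le
  have hrest : ∏ p ∈ A \ U, |wA Q F ω ψ p| ≤
      Real.sqrt 3 ^ (A \ U).card * (2 / Real.sqrt 3) ^ C.K ω := by
    have e1 : ∀ p ∈ A \ U, |wA Q F ω ψ p| ≤
        Real.sqrt 3 * (if Real.sqrt 3 < |wA Q F ω ψ p| then 2 / Real.sqrt 3 else 1) := by
      intro p hp
      obtain ⟨a, ha, rfl⟩ := mem_arcsZ.mp (hA (Finset.mem_sdiff.mp hp).1)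
      rw [wA_eq ψ (C.Z_F ha)]
      split_ifs with h
      · rw [mul_div_cancel₀ _ h3.ne']
        exact abs_wt_le ψ
      · rw [mul_one]
        exact not_lt.mp h
    refine (Finset.prod_le_prod (fun p _ => abs_nonneg _) e1).trans ?_
    rw [Finset.prod_mul_distrib, Finset.prod_const]
    refine mul_le_mul_of_nonneg_left ?_ (by positivity)
    rw [Finset.prod_ite, Finset.prod_const, Finset.prod_const_one, mul_one]
    exact pow_le_pow_right₀ hq hBcard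
  rw [Finset.abs_prod, ← Finset.prod_sdiff hUA, hprodU]
  have hcard : A.card = (A \ U).card + U.card := by
    rw [Finset.card_sdiff_add_card_eq_card hUA]
  rw [hcard, pow_add]
  have hT : 0 ≤ ∏ v ∈ C.S, C.t v ^ C.N v ω :=
    Finset.prod_nonneg fun v hv => pow_nonneg (C.t_nonneg v hv) _
  calc (∏ p ∈ A \ U, |wA Q F ω ψ p|) *
        (Real.sqrt 3 ^ U.card * ∏ v ∈ C.S, C.t v ^ C.N v ω)
      ≤ (Real.sqrt 3 ^ (A \ U).card * (2 / Real.sqrt 3) ^ C.K ω) *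
          (Real.sqrt 3 ^ U.card * ∏ v ∈ C.S, C.t v ^ C.N v ω) :=
        mul_le_mul_of_nonneg_right hrest (by positivity)
    _ = _ := by ring

theorem prod_le (C : ChZ Q F ψ Z ι κ) (ω : Φ → Bool) :
    |∏ p ∈ arcsZ Q F Z ω, wA Q F ω ψ p| ≤
      Real.sqrt 3 ^ (arcsZ Q F Z ω).card * (∏ v ∈ C.S, C.t v ^ C.N v ω) *
        (2 / Real.sqrt 3) ^ C.K ω :=
  C.prod_sub_le ω (Finset.Subset.refl _) (C.biUnion_sub fun v hv => C.ovr_sub hv ω)

theorem prodT_nonneg (C : ChZ Q F ψ Z ι κ) (ω : Φ → Bool) : 0 ≤ ∏ v ∈ C.S, C.t v ^ C.N v ω :=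
  Finset.prod_nonneg fun v hv => pow_nonneg (C.t_nonneg v hv) _

theorem abs_WZ_le (C : ChZ Q F ψ Z ι κ) (ω : Φ → Bool) :
    |WZ Q F ψ Z ω| ≤ (∏ v ∈ C.S, C.t v ^ C.N v ω) * (2 / Real.sqrt 3) ^ C.K ω := by
  have hT := C.prodT_nonneg ω
  have h3 : (0 : ℝ) < Real.sqrt 3 := Real.sqrt_pos.mpr (by norm_num)
  by_cases h : ∀ a ∈ Z, mate Q F ω a ∈ Z
  · rw [WZ_of ψ h, abs_div, abs_of_pos (pow_pos h3 _), div_le_iff₀ (pow_pos h3 _)]
    refine (C.prod_le ω).trans (le_of_eq ?_)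
    ring
  · rw [WZ_not ψ h, abs_zero]
    exact mul_nonneg hT (by positivity)

/-- **One arc removed.** The arc of `a` is not over a special vertex inside its small box. -/
theorem prod_erase_le (C : ChZ Q F ψ Z ι κ) (ω : Φ → Bool)
    (ha : s(a, mate Q F ω a) ∉ C.S.biUnion (C.A C.Bs ω)) :
    |∏ p ∈ (arcsZ Q F Z ω).erase s(a, mate Q F ω a), wA Q F ω ψ p| ≤
      Real.sqrt 3 ^ ((arcsZ Q F Z ω).erase s(a, mate Q F ω a)).card *
        (∏ v ∈ C.S, C.t v ^ C.N v ω) * (2 / Real.sqrt 3) ^ C.K ω := by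
  refine C.prod_sub_le ω (Finset.erase_subset _ _) fun p hp => Finset.mem_erase.mpr ⟨?_, ?_⟩
  · rintro rfl
    exact ha hp
  · exact C.biUnion_sub (fun v hv => C.ovr_sub hv ω) hp

/-! ## The arrow of a unit edge inserted (all boundary sides) -/

/-- the strand of `e` is not an arc over a special vertex inside its small box -/
def Off (C : ChZ Q F ψ Z ι κ) (ω : Φ → Bool) (e : V × V) : Prop :=
  ∀ v ∈ C.S, ∀ a ∈ ovr Q (C.Bs v) (C.PA v) (C.PB v) ω, ¬ SRel Q F ω a e ∧ ¬ SRel Q F ω a e.swap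

/-- a strand which is not closed is the strand of a boundary side, in one of the two directions -/
theorem exists_side {e : V × V} (he : e ∈ dE Q F)
    (hc : ¬ ∀ a ∈ dst Q F ω e, ¬ Ini Q (F : Set Φ) a) :
    ∃ a ∈ bS Q F, SRel Q F ω a e := by
  push Not at hc
  obtain ⟨a, ha, ha'⟩ := hc
  obtain ⟨h1, h2⟩ := mem_dst.mp ha
  exact ⟨a, mem_bS.mpr ⟨h1, ha'⟩, EqvGen.symm _ _ h2⟩

/-- **The arrow of a unit edge inserted.** -/
theorem abs_WU1_le (C : ChZ Q F ψ (bS Q F) ι κ) (hQ : NoLoop Q) (ω : Φ → Bool)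
    (hL : ∀ X ∈ dstr Q F ω, (∀ a ∈ X, ¬ Ini Q (F : Set Φ) a) →
      tX Q F ω X = 4 ∨ tX Q F ω X = -4) {e : V × V} (he : e ∈ dE Q F)
    (hoff : C.Off ω e) :
    |WU1 Q F ψ e ω| ≤ 2 * Real.sqrt 3 ^ (arcs Q F ω).card * (∏ v ∈ C.S, C.t v ^ C.N v ω) *
      (2 / Real.sqrt 3) ^ C.K ω := by
  classical
  have h3 : (0 : ℝ) < Real.sqrt 3 := Real.sqrt_pos.mpr (by norm_num)
  have h31 : 1 ≤ Real.sqrt 3 := by
    rw [Real.one_le_sqrt]
    norm_num
  have h32 : Real.sqrt 3 ≤ 2 := by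
    rw [Real.sqrt_le_left (by norm_num)]
    norm_num
  have hT := C.prodT_nonneg ω
  have hq : 0 ≤ (2 / Real.sqrt 3) ^ C.K ω := by positivity
  by_cases hc : ∀ a ∈ dst Q F ω e, ¬ Ini Q (F : Set Φ) a
  · rw [WU1_closed hQ hL he hc, abs_mul, abs_mul]
    have h4 : |(turn Q F ω e : ℝ)| = 4 := by
      rcases hL _ (dst_mem_dstr (ω := ω) he) hc with h | h
      · unfold turn
        rw [h]
        norm_num
      · unfold turn
        rw [h]
        norm_num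
    have h5 : |Real.sqrt 3 / 4| = Real.sqrt 3 / 4 := abs_of_pos (by positivity)
    rw [h4, h5, WU_arcs hQ hL (wA Q F ω ψ) fun a ha => by rw [wA_eq ψ ha]; rfl]
    have h6 := C.prod_le ω
    rw [arcsZ_bS] at h6
    calc Real.sqrt 3 / 4 * 4 * |∏ p ∈ arcs Q F ω, wA Q F ω ψ p|
        = Real.sqrt 3 * |∏ p ∈ arcs Q F ω, wA Q F ω ψ p| := by ring
      _ ≤ 2 * (Real.sqrt 3 ^ (arcs Q F ω).card * (∏ v ∈ C.S, C.t v ^ C.N v ω) *
          (2 / Real.sqrt 3) ^ C.K ω) := mul_le_mul h32 h6 (abs_nonneg _) (by norm_num)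
      _ = _ := by ring
  · obtain ⟨a, ha, hae⟩ := exists_side he hc
    rw [← WU1_srel hae, WU1_arc hQ hL (wA Q F ω ψ) (fun b hb => by rw [wA_eq ψ hb]; rfl) ha, abs_mul]
    have hU : s(a, mate Q F ω a) ∉ C.S.biUnion (C.A C.Bs ω) := by
      intro hU
      obtain ⟨v, hv, hU⟩ := Finset.mem_biUnion.mp hU
      obtain ⟨b, hb, hba⟩ := Finset.mem_image.mp hU
      have hbZ := (C.over_F hv (C.ovr_sub hv ω hb)).1
      have hba' : s(b, mate Q F ω b) = s(a, mate Q F ω a) := hba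
      rw [Sym2.eq_iff] at hba'
      rcases hba' with ⟨h4, -⟩ | ⟨h4, h5⟩
      · exact (hoff v hv b hb).1 (by rw [h4]; exact hae)
      · refine (hoff v hv b hb).2 ?_
        have h6 := srel_mate (ω := ω) ha
        rw [← h4] at h6
        exact EqvGen.trans _ _ _ h6 (srel_swap hae)
    have h4 := C.prod_erase_le ω hU
    rw [arcsZ_bS] at h4
    have h5 : Real.sqrt 3 ^ ((arcs Q F ω).erase s(a, mate Q F ω a)).card ≤
        Real.sqrt 3 ^ (arcs Q F ω).card :=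
      pow_le_pow_right₀ h31 (Finset.card_le_card (Finset.erase_subset _ _))
    have h6 : |2 * Real.sin (ψ (mate Q F ω a) - ψ a + turn Q F ω a * (Real.pi / 12))| ≤ 2 := by
      rw [abs_mul, abs_two]
      have := Real.abs_sin_le_one (ψ (mate Q F ω a) - ψ a + turn Q F ω a * (Real.pi / 12))
      linarith
    calc |∏ p ∈ (arcs Q F ω).erase s(a, mate Q F ω a), wA Q F ω ψ p| *
          |2 * Real.sin (ψ (mate Q F ω a) - ψ a + turn Q F ω a * (Real.pi / 12))|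
        ≤ (Real.sqrt 3 ^ ((arcs Q F ω).erase s(a, mate Q F ω a)).card *
          (∏ v ∈ C.S, C.t v ^ C.N v ω) * (2 / Real.sqrt 3) ^ C.K ω) * 2 :=
          mul_le_mul h4 h6 (abs_nonneg _) (by positivity)
      _ ≤ (Real.sqrt 3 ^ (arcs Q F ω).card *
          (∏ v ∈ C.S, C.t v ^ C.N v ω) * (2 / Real.sqrt 3) ^ C.K ω) * 2 := by gcongr
      _ = _ := by ring

/-- the weight of all arcs -/
theorem abs_WU_le (C : ChZ Q F ψ (bS Q F) ι κ) (hQ : NoLoop Q) (ω : Φ → Bool)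
    (hL : ∀ X ∈ dstr Q F ω, (∀ a ∈ X, ¬ Ini Q (F : Set Φ) a) →
      tX Q F ω X = 4 ∨ tX Q F ω X = -4) :
    |WU Q F ψ ω| ≤ Real.sqrt 3 ^ (arcs Q F ω).card * (∏ v ∈ C.S, C.t v ^ C.N v ω) *
      (2 / Real.sqrt 3) ^ C.K ω := by
  rw [WU_arcs hQ hL (wA Q F ω ψ) fun a ha => by rw [wA_eq ψ ha]; rfl]
  have h6 := C.prod_le ω
  rw [arcsZ_bS] at h6
  exact h6

/-! ## Exact charts -/

/-- Exact charts: the weights of the arcs which stay in their chart are `√3`, or `√3 * t v` over `v`. The last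
alternative is for the marked side (`t v = 0`): arcs over the marked side. -/
structure Exact (C : ChZ Q F ψ Z ι κ) : Prop where
  nat : ∀ i ∈ C.I, ∀ ω, ∀ a ∈ C.H i, mate Q (C.G i) ω a ∈ bS Q F →
    wt Q (C.G i) ω ψ a = Real.sqrt 3
  spec : ∀ v ∈ C.S, ∀ ω, ∀ a ∈ C.Hb v, mate Q (C.B v) ω a ∈ bS Q F →
    (a ∈ C.PA v ∧ mate Q (C.B v) ω a ∈ C.PB v) ∨ (a ∈ C.PB v ∧ mate Q (C.B v) ω a ∈ C.PA v) ∨
      wt Q (C.B v) ω ψ a = Real.sqrt 3 ∨ (C.t v = 0 ∧ C.Nb v ω ≠ 0)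

/-- **No strand leaves its chart: the product is local.** -/
theorem prod_eq (C : ChZ Q F ψ Z ι κ) (hE : C.Exact) {ω : Φ → Bool} (hX : C.X ω = 0) :
    ∏ p ∈ arcsZ Q F Z ω, wA Q F ω ψ p =
      Real.sqrt 3 ^ (arcsZ Q F Z ω).card * ∏ v ∈ C.S, C.t v ^ C.Nb v ω := by
  classical
  have hD : ∀ v ∈ C.S, ovr Q (C.B v) (C.PA v) (C.PB v) ω ⊆
      ovr Q (C.B v) (C.PA v) (C.PB v) ω := fun v _ => Finset.Subset.refl _
  set U := C.S.biUnion (C.A C.B ω) with hU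
  have hUa : U ⊆ arcsZ Q F Z ω := C.biUnion_sub hD
  have hprodU : ∏ p ∈ U, wA Q F ω ψ p = Real.sqrt 3 ^ U.card * ∏ v ∈ C.S, C.t v ^ C.Nb v ω :=
    C.prod_A hD
  have hbad : C.bad C.B ω = ∅ := by
    have h1 := C.card_bad hD
    have h2 : ∑ v ∈ C.S, (C.Nb v ω - (ovr Q (C.B v) (C.PA v) (C.PB v) ω).card) = 0 :=
      Finset.sum_eq_zero fun v _ => Nat.sub_self _
    rw [hX, h2] at h1
    exact Finset.card_eq_zero.mp (Nat.le_zero.mp h1)
  rw [← Finset.prod_sdiff hUa, hprodU]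
  have hcard : (arcsZ Q F Z ω).card = (arcsZ Q F Z ω \ U).card + U.card := by
    rw [Finset.card_sdiff_add_card_eq_card hUa]
  by_cases h0 : ∃ v ∈ C.S, C.t v = 0 ∧ C.Nb v ω ≠ 0
  · obtain ⟨v, hv, h1, h2⟩ := h0
    have h3 : ∏ v ∈ C.S, C.t v ^ C.Nb v ω = 0 :=
      Finset.prod_eq_zero hv (by rw [h1, zero_pow h2])
    rw [h3, mul_zero, mul_zero, mul_zero]
  · have hrest : ∏ p ∈ arcsZ Q F Z ω \ U, wA Q F ω ψ p =
        Real.sqrt 3 ^ (arcsZ Q F Z ω \ U).card := by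
      refine Finset.prod_eq_pow_card fun p hp => ?_
      rw [Finset.mem_sdiff] at hp
      obtain ⟨hp1, hp2⟩ := hp
      obtain ⟨a, ha, rfl⟩ := mem_arcsZ.mp hp1
      rw [wA_eq ψ (C.Z_F ha)]
      rcases C.trichotomy ha hp2 with ⟨c, h, -⟩ | ⟨i, hi, h1, h2, h4⟩ | ⟨v, hv, h1, h2, h4, h5, h6⟩
      · rw [hbad] at h
        exact absurd h (Finset.notMem_empty c)
      · rw [h4]
        exact hE.nat i hi ω a h1 h2
      · rcases hE.spec v hv ω a h1 h2 with h | h | h | h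
        · exact absurd h h5
        · exact absurd h h6
        · rw [h4]
          exact h
        · exact absurd ⟨v, hv, h⟩ h0
    rw [hrest, hcard, pow_add]
    ring

/-- No strand from `Z` leaves its chart or leads to another side: the weight is local. -/
theorem WZ_eq (C : ChZ Q F ψ Z ι κ) (hE : C.Exact) {ω : Φ → Bool} (hX : C.X ω = 0)
    (h : ∀ a ∈ Z, mate Q F ω a ∈ Z) : WZ Q F ψ Z ω = ∏ v ∈ C.S, C.t v ^ C.Nb v ω := by
  have h3 : (0 : ℝ) < Real.sqrt 3 := Real.sqrt_pos.mpr (by norm_num)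
  rw [WZ_of ψ h, C.prod_eq hE hX, mul_div_cancel_left₀ _ (pow_pos h3 _).ne']

/-- No strand leaves its chart: the mates are those of the charts. -/
theorem stay (C : ChZ Q F ψ Z ι κ) {ω : Φ → Bool} (hX : C.X ω = 0) (ha : a ∈ Z) :
    (∃ i ∈ C.I, a ∈ C.H i ∧ mate Q (C.G i) ω a ∈ bS Q F ∧
        mate Q F ω a = mate Q (C.G i) ω a) ∨
      ∃ v ∈ C.S, a ∈ C.Hb v ∧ mate Q (C.B v) ω a ∈ bS Q F ∧
        mate Q F ω a = mate Q (C.B v) ω a := by
  classical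
  have hX' : (∑ i ∈ C.I, (esc Q F (C.G i) (C.H i) ω).card) = 0 ∧
      (∑ v ∈ C.S, (esc Q F (C.B v) (C.Hb v) ω).card) = 0 := by
    unfold X at hX
    omega
  rcases C.cover a ha with ⟨i, hi, hai⟩ | ⟨v, hv, hav⟩
  · have h2 : (esc Q F (C.G i) (C.H i) ω).card = 0 := (Finset.sum_eq_zero_iff.mp hX'.1) i hi
    have h4 : mate Q (C.G i) ω a ∈ bS Q F := by
      by_contra hm
      have h5 : a ∈ esc Q F (C.G i) (C.H i) ω := mem_esc.mpr ⟨hai, hm⟩
      rw [Finset.card_eq_zero.mp h2] at h5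
      exact Finset.notMem_empty _ h5
    exact Or.inl ⟨i, hi, hai, h4,
      (mate_loc (C.G_sub i hi) (C.H_G i hi hai) (mem_bS.mp (C.Z_F ha)).2 h4).1⟩
  · have h2 : (esc Q F (C.B v) (C.Hb v) ω).card = 0 := (Finset.sum_eq_zero_iff.mp hX'.2) v hv
    have h4 : mate Q (C.B v) ω a ∈ bS Q F := by
      by_contra hm
      have h5 : a ∈ esc Q F (C.B v) (C.Hb v) ω := mem_esc.mpr ⟨hav, hm⟩
      rw [Finset.card_eq_zero.mp h2] at h5
      exact Finset.notMem_empty _ h5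
    exact Or.inr ⟨v, hv, hav, h4,
      (mate_loc (C.B_sub v hv) (C.Hb_B v hv hav) (mem_bS.mp (C.Z_F ha)).2 h4).1⟩

end ChZ

end

end Pool.Agent.SixB
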