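import Pool.Agent.Lib.SixB.S3PolyFam
import Pool.Agent.Lib.SixB.S3AsmGeo
import Pool.Agent.Lib.SixB.S3Star

/-!
# 6BD step 3, row R23: census of the special positions of a polygon

* `sum_crs`: the total turning of the contour is `4`; `card_convex`: `#convex = 4 + #concave`.
* `cc L g`: number of the concave corners of `P`.
* `types_posS`: the types `(K x, mm G x)` of the special positions `posS` (S3PolyFam):
  `4 + cc` times `(ver 0, 1)`, `cc` times `(ver 0, 3)` and the types of the marks.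
* `fam_types`: `fam_spc` with the types, for the three families of marks. The multisets are literally `domV b X`,
  `Mk X` of S3Star.
-/

set_option autoImplicit false
set_option linter.unusedSectionVars false
set_option linter.unusedVariables false

namespace Pool.Agent.SixB.Cens

open Pool.Agent.Perc.Q Pool.Agent.Perc Filter Topology
open Pool.Agent.SixB.PolyAtl Pool.Agent.SixB.St

noncomputable section

variable {P D : Finset (ℤ × ℤ)} {L : ℕ} {g : ℤ → ℤ × ℤ}

/-! ## The total turning -/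

theorem sum_crs (hP : MPoly D) (hc : Cont D L g) : ∑ k ∈ Finset.range L, crs g k = 4 := by
  obtain ⟨ν, h1, h2, h3, -⟩ := hP.disc hc
  have e : ∀ k : ℕ, crs g k = ν k - ν ((k : ℤ) - 1) := fun k => Asm3.crs_eq h1 h3 k
  have key : ∀ m : ℕ, ∑ k ∈ Finset.range m, crs g k = ν ((m : ℤ) - 1) - ν (-1) := by
    intro m
    induction m with
    | zero => simp
    | succ m ih =>
      rw [Finset.sum_range_succ, ih, e]
      push_cast
      rw [add_sub_cancel_right]
      ring
  rw [key]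
  have := h2 (-1)
  rw [show (-1 : ℤ) + L = L - 1 by ring] at this
  omega

/-- number of the concave corners -/
def cc (L : ℕ) (g : ℤ → ℤ × ℤ) : ℕ := ((Finset.range L).filter fun a : ℕ => mm g a = 3).card

theorem card_convex (hP : MPoly D) (hc : Cont D L g) :
    ((Finset.range L).filter fun a : ℕ => mm g a = 1).card = 4 + cc L g := by
  have h1 := sum_crs hP hc
  have h2 : ∀ k ∈ Finset.range L, crs g k =
      (if mm g (k : ℤ) = 1 then 1 else 0) - (if mm g (k : ℤ) = 3 then 1 else 0) := by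
    intro k _
    rw [crs_eq hc]
    have h3 := mm_rng hc k
    have h4 : mm g (k : ℤ) = 1 ∨ mm g (k : ℤ) = 2 ∨ mm g (k : ℤ) = 3 := by omega
    rcases h4 with h4 | h4 | h4 <;> rw [h4] <;> simp
  rw [Finset.sum_congr rfl h2, Finset.sum_sub_distrib, Finset.sum_boole, Finset.sum_boole] at h1
  unfold cc
  omega

/-! ## Types -/

/-- the map of a set on which a function has the values `1` and `3` -/
theorem map_two {A B : Type} (s : Finset A) (f : A → ℕ) (K : B) (hf : ∀ a ∈ s, f a = 1 ∨ f a = 3) :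
    s.val.map (fun a => (K, f a)) = Multiset.replicate (s.filter fun a => f a = 1).card (K, 1) +
      Multiset.replicate (s.filter fun a => f a = 3).card (K, 3) := by
  classical
  have h1 : (s.filter fun a => ¬ f a = 1) = s.filter fun a => f a = 3 := by
    refine Finset.filter_congr fun a ha => ?_
    rcases hf a ha with h | h <;> rw [h] <;> simp
  have h2 : s.val = (s.filter fun a => f a = 1).val + (s.filter fun a => f a = 3).val := by
    rw [← h1, Finset.filter_val, Finset.filter_val, Multiset.filter_add_not]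
  have h3 : ∀ c : ℕ, ((s.filter fun a => f a = c).val.map fun a => (K, f a)) =
      Multiset.replicate (s.filter fun a => f a = c).card (K, c) := by
    intro c
    have e : ((s.filter fun a => f a = c).val.map fun a => (K, f a)) =
        ((s.filter fun a => f a = c).val.map fun _ => (K, c)) := by
      refine Multiset.map_congr rfl fun a ha => ?_
      rw [(Finset.mem_filter.mp (Finset.mem_val.mp ha)).2]
    rw [e, Multiset.map_const', Finset.card_val]
  rw [h2, Multiset.map_add, h3, h3]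

theorem mm_corner {n : ℕ} (hg : Cont P L g) (hn : 0 < n) (a : ℤ) : mm (gr n g) ((n : ℤ) * a) = mm g a := by
  have hn0 : (0 : ℤ) < n := by exact_mod_cast hn
  unfold mm
  rw [dd_gr hg hn, dd_gr hg hn, Int.mul_ediv_cancel_left _ hn0.ne',
    (CARf.div_eq_iff' hn (a := a - 1)).2 ⟨by nlinarith, by linarith⟩]

section types

variable {n m r : ℕ} {p : Fin m → ℤ} {j : ℤ → ℝ} {Ee Em : Finset ℤ}

theorem posA_inj (hr : 2 ≤ r)
    (hsep : ∀ a a' : CorI L g ⊕ Fin m, ∀ q : ℤ, a ≠ a' ∨ q ≠ 0 →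
      32 * (r : ℤ) ≤ |posA n L g p a - posA n L g p a' + q * ((n * L : ℕ) : ℤ)|) :
    Function.Injective (posA n L g p) := by
  intro a a' h
  by_contra hne
  have h1 := hsep a a' 0 (Or.inl hne)
  rw [h, sub_self, zero_mul, add_zero, abs_zero] at h1
  omega

/-- **The types of the special positions.** -/
theorem types_posS (hP : MPoly P) (hg : Cont P L g) (hn : 0 < n) (hr : 2 ≤ r)
    (hsep : ∀ a a' : CorI L g ⊕ Fin m, ∀ q : ℤ, a ≠ a' ∨ q ≠ 0 →
      32 * (r : ℤ) ≤ |posA n L g p a - posA n L g p a' + q * ((n * L : ℕ) : ℤ)|)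
    (hj : ∀ k, j k ≠ 0 → ∃ t, ∃ q : ℤ, k = p t + q * ((n * L : ℕ) : ℤ) ∨
      ((p t ∈ Ee ∨ p t ∈ Em) ∧ k = p t + 1 + q * ((n * L : ℕ) : ℤ)))
    (hE : ∀ x ∈ Ee, ∃ t, x = p t) (hM : ∀ x ∈ Em, ∃ t, x = p t) :
    (posS n L g p).val.map (fun x => (kd Ee Em j x, mm (gr n g) x)) =
      Multiset.replicate (4 + cc L g) (SK.ver 0, 1) + Multiset.replicate (cc L g) (SK.ver 0, 3) +
        (Finset.univ : Finset (Fin m)).val.map fun t => (kd Ee Em j (p t), 2) := by
  have hcor : ∀ t : Fin m, mm (gr n g) (p t) = 2 := by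
    intro t
    by_contra hh
    obtain ⟨a, h1, h2, q, h3⟩ := mm_gr hg hn hh
    have h4 := hsep (Sum.inr t) (Sum.inl ⟨a, Finset.mem_filter.2 ⟨Finset.mem_range.2 h1, h2⟩⟩) (-q)
      (Or.inl (by simp))
    simp only [posA, Sum.elim_inl, Sum.elim_inr] at h4
    rw [show p t - (n : ℤ) * a + -q * ((n * L : ℕ) : ℤ) = 0 by linarith, abs_zero] at h4
    omega
  have hj0 : ∀ a : CorI L g, j ((n : ℤ) * (a : ℕ)) = 0 := by
    intro a
    by_contra hh
    obtain ⟨t, q, h1⟩ := hj _ hh
    have h4 := hsep (Sum.inr t) (Sum.inl a) q (Or.inl (by simp))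
    simp only [posA, Sum.elim_inl, Sum.elim_inr] at h4
    rcases h1 with h1 | ⟨-, h1⟩
    · rw [show p t - (n : ℤ) * (a : ℕ) + q * ((n * L : ℕ) : ℤ) = 0 by linarith, abs_zero] at h4
      omega
    · rw [show p t - (n : ℤ) * (a : ℕ) + q * ((n * L : ℕ) : ℤ) = -1 by linarith, abs_neg,
        abs_one] at h4
      omega
  have hne : ∀ (a : CorI L g) (t : Fin m), (n : ℤ) * (a : ℕ) ≠ p t := by
    intro a t h
    have h4 := hsep (Sum.inr t) (Sum.inl a) 0 (Or.inl (by simp))
    simp only [posA, Sum.elim_inl, Sum.elim_inr] at h4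
    rw [h, sub_self, zero_mul, add_zero, abs_zero] at h4
    omega
  have hkd : ∀ a : CorI L g, kd Ee Em j ((n : ℤ) * (a : ℕ)) = SK.ver 0 := by
    intro a
    unfold kd
    rw [if_neg, if_neg, hj0]
    · intro h
      obtain ⟨t, ht⟩ := hM _ h
      exact hne a t ht
    · intro h
      obtain ⟨t, ht⟩ := hE _ h
      exact hne a t ht
  have hinj := posA_inj hr hsep
  unfold posS
  rw [Finset.image_val_of_injOn hinj.injOn, Multiset.map_map]
  have hsum : ∀ T : CorI L g ⊕ Fin m → SK × ℕ, (Finset.univ : Finset (CorI L g ⊕ Fin m)).val.map T =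
      (Finset.univ : Finset (CorI L g)).val.map (fun i => T (.inl i)) +
        (Finset.univ : Finset (Fin m)).val.map (fun i => T (.inr i)) := by
    intro T
    rw [← Finset.univ_disjSum_univ]
    show Multiset.map T (Multiset.disjSum _ _) = _
    rw [Multiset.disjSum, Multiset.map_add, Multiset.map_map, Multiset.map_map]
    rfl
  rw [hsum]
  congr 1
  · have e1 : (Finset.univ : Finset (CorI L g)).val.map
        (fun i => ((fun x => (kd Ee Em j x, mm (gr n g) x)) ∘ posA n L g p) (.inl i)) =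
        ((Finset.range L).filter fun a : ℕ => mm g a ≠ 2).val.map
          (fun a : ℕ => (SK.ver 0, mm g (a : ℤ))) := by
      have e2 : (fun i : CorI L g => ((fun x => (kd Ee Em j x, mm (gr n g) x)) ∘ posA n L g p)
          (.inl i)) = (fun a : ℕ => (SK.ver 0, mm g (a : ℤ))) ∘ fun i : CorI L g => (i : ℕ) := by
        funext a
        simp only [Function.comp, posA, Sum.elim_inl]
        rw [hkd a, mm_corner hg hn]
      rw [e2, ← Multiset.map_map]
      congr 1
      rw [Finset.univ_eq_attach]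
      exact Multiset.attach_map_val (((Finset.range L).filter fun a : ℕ => mm g a ≠ 2).val)
    rw [e1, map_two]
    · rw [Finset.filter_filter, Finset.filter_filter]
      congr 2
      · rw [← card_convex hP hg]
        congr 1
        refine Finset.filter_congr fun a _ => ?_
        constructor
        · rintro ⟨-, h⟩
          exact h
        · intro h
          exact ⟨by rw [h]; decide, h⟩
      · unfold cc
        congr 1
        refine Finset.filter_congr fun a _ => ?_
        constructor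
        · rintro ⟨-, h⟩
          exact h
        · intro h
          exact ⟨by rw [h]; decide, h⟩
    · intro a ha
      have h1 := (Finset.mem_filter.mp ha).2
      have h2 := mm_rng hg (a : ℤ)
      omega
  · refine Multiset.map_congr rfl fun t _ => ?_
    simp only [Function.comp, posA, Sum.elim_inr]
    rw [hcor t]

end types

/-! ## The families -/

variable {ι : Type} {l : Filter ι} {n : ι → ℕ}

theorem scale_ev (hn : Tendsto n l atTop) {κ : ℝ} (hκ : 0 < κ) : ∀ᶠ i in l, ((2 : ℕ) : ℝ) ≤ κ * n i := by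
  have h1 : Tendsto (fun i => κ * (n i : ℝ)) l atTop :=
    (tendsto_natCast_atTop_atTop.comp hn).const_mul_atTop hκ
  exact h1.eventually (eventually_ge_atTop _)

theorem kd_ver {j : ℤ → ℝ} {x : ℤ} {y : ℝ} (h : j x = y) : kd ∅ ∅ j x = .ver y := by
  unfold kd
  rw [if_neg (Finset.notMem_empty x), if_neg (Finset.notMem_empty x), h]

theorem kd_ver' {j : ℤ → ℝ} {x k : ℤ} {y : ℝ} (hk : x ≠ k) (h : j x = y) :
    kd {k} ∅ j x = .ver y := by
  unfold kd
  rw [if_neg (fun h => hk (Finset.mem_singleton.mp h)), if_neg (Finset.notMem_empty x), h]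

theorem swap3 {A : Type} (a b c : A) (M : Multiset A) :
    a ::ₘ b ::ₘ c ::ₘ M = b ::ₘ c ::ₘ a ::ₘ M := by
  rw [Multiset.cons_swap a b, Multiset.cons_swap a c]

theorem nat_ty (hP : MPoly P) (hg : Cont P L g) (hn : Tendsto n l atTop) {s : ℝ} {b : ι → ℤ}
    (hs : Fl g s) (hb : Tendsto (fun i => (b i : ℝ) / n i) l (𝓝 s)) :
    ∀ᶠ i in l, (posS (n i) L g ![b i]).val.map
      (fun x => (kd ∅ ∅ (jN (n i * L) (b i)) x, mm (gr (n i) g) x)) = domV (cc L g) mkNat := by
  have hL : (0 : ℝ) < L := by exact_mod_cast hg.pos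
  obtain ⟨κ, hκ, hev⟩ := fam_core hg hn (s := ![s]) (p := fun i => ![b i])
    (Function.injective_of_subsingleton _)
    (by intro t t'; rw [Subsingleton.elim t t']; linarith)
    (by intro t; fin_cases t; exact hs) (by intro t; fin_cases t; exact hb)
  filter_upwards [hev, scale_ev hn hκ] with i hi hi2
  obtain ⟨h1, h2⟩ := hi 2 le_rfl hi2
  have hpw : List.Pairwise (fun p q : ℤ × ℝ => ¬ ((n i * L : ℕ) : ℤ) ∣ p.1 - q.1)
      [(b i, Real.pi / 3)] := by simp
  rw [jN_jl]
  rw [types_posS hP hg (by omega) le_rfl h2 ?_ (by simp) (by simp)]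
  · have v := jl_mem hpw (p := (b i, Real.pi / 3)) (by simp)
    have e := kd_ver v
    unfold domV mkNat
    congr 1
    rw [Fin.univ_val_map]
    change (([(kd ∅ ∅ (jl ((n i * L : ℕ) : ℤ) [(b i, Real.pi / 3)]) (b i), 2)] : List VT) :
      Multiset VT) = _
    rw [e]
    rfl
  · intro k hk
    obtain ⟨p, hp, c, hc⟩ := jl_ne hk
    rw [List.mem_singleton] at hp
    subst hp
    refine ⟨0, c, Or.inl ?_⟩
    simp only at hc
    change k = b i + _
    linarith

theorem pair_ty (hP : MPoly P) (hg : Cont P L g) (hn : Tendsto n l atTop)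
    {α s s' : ℝ} {b b' : ι → ℤ} (hs : Fl g s) (hs' : Fl g s')
    (h1 : s < s') (h2 : s' < s + L) (hb : Tendsto (fun i => (b i : ℝ) / n i) l (𝓝 s))
    (hb' : Tendsto (fun i => (b' i : ℝ) / n i) l (𝓝 s')) :
    ∀ᶠ i in l, (posS (n i) L g ![b i, b' i]).val.map
      (fun x => (kd ∅ ∅ (jP (n i * L) α (b i) (b' i)) x, mm (gr (n i) g) x)) =
        domV (cc L g) (mkPair α) := by
  have hL : (0 : ℝ) < L := by exact_mod_cast hg.pos
  obtain ⟨κ, hκ, hev⟩ := fam_core hg hn (s := ![s, s']) (p := fun i => ![b i, b' i])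
    (by
      intro t t' h
      fin_cases t <;> fin_cases t' <;> simp at h ⊢ <;> linarith)
    (by
      intro t t'
      fin_cases t <;> fin_cases t' <;> simp <;> first | exact hg.pos | linarith)
    (by
      intro t
      fin_cases t
      · exact hs
      · exact hs')
    (by
      intro t
      fin_cases t
      · exact hb
      · exact hb')
  filter_upwards [hev, scale_ev hn hκ] with i hi hi2
  obtain ⟨h1, h2⟩ := hi 2 le_rfl hi2
  have hpw : List.Pairwise (fun p q : ℤ × ℝ => ¬ ((n i * L : ℕ) : ℤ) ∣ p.1 - q.1)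
      [(b i, (1 - α) * (Real.pi / 3)), (b' i, α * (Real.pi / 3))] := by
    have := not_dvd_of_sep le_rfl h2 (t := 0) (t' := 1) (by decide) (x := 0) (by simp)
    simpa using this
  rw [jP_jl]
  rw [types_posS hP hg (by omega) le_rfl h2 ?_ (by simp) (by simp)]
  · have v := jl_mem hpw (p := (b i, (1 - α) * (Real.pi / 3))) (by simp)
    have v' := jl_mem hpw (p := (b' i, α * (Real.pi / 3))) (by simp)
    have e := kd_ver v
    have e' := kd_ver v'
    unfold domV mkPair
    congr 1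
    rw [Fin.univ_val_map]
    change (([(kd ∅ ∅ (jl ((n i * L : ℕ) : ℤ) [(b i, (1 - α) * (Real.pi / 3)),
      (b' i, α * (Real.pi / 3))]) (b i), 2), (kd ∅ ∅ (jl ((n i * L : ℕ) : ℤ)
      [(b i, (1 - α) * (Real.pi / 3)), (b' i, α * (Real.pi / 3))]) (b' i), 2)] : List VT) :
      Multiset VT) = _
    rw [e, e']
    rfl
  · intro k hk
    obtain ⟨p, hp, c, hc⟩ := jl_ne hk
    simp only [List.mem_cons, List.not_mem_nil, or_false] at hp
    rcases hp with rfl | rfl
    · refine ⟨0, c, Or.inl ?_⟩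
      simp only at hc
      change k = b i + _
      linarith
    · refine ⟨1, c, Or.inl ?_⟩
      simp only at hc
      change k = b' i + _
      linarith

theorem full_ty (hP : MPoly P) (hg : Cont P L g) (hn : Tendsto n l atTop)
    {α t₁ t₂ t₂' t₃ t₄ : ℝ} {b₁ b₂ b₂' b₃ k : ι → ℤ}
    (hm : Marks5 L g t₁ t₂ t₂' t₃ t₄) (h₁ : Tendsto (fun i => (b₁ i : ℝ) / n i) l (𝓝 t₁))
    (h₂ : Tendsto (fun i => (b₂ i : ℝ) / n i) l (𝓝 t₂))
    (h₂' : Tendsto (fun i => (b₂' i : ℝ) / n i) l (𝓝 t₂'))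
    (h₃ : Tendsto (fun i => (b₃ i : ℝ) / n i) l (𝓝 t₃))
    (h₄ : Tendsto (fun i => (k i : ℝ) / n i) l (𝓝 t₄)) :
    ∀ᶠ i in l, (posS (n i) L g ![b₁ i, b₂ i, b₂' i, b₃ i, k i]).val.map
      (fun x => (kd {k i} ∅ (jX (n i * L) α (b₁ i) (b₂ i) (b₂' i) (b₃ i) (k i)) x,
        mm (gr (n i) g) x)) = domV (cc L g) (mkFull α) := by
  have hL : (0 : ℝ) < L := by exact_mod_cast hg.pos
  obtain ⟨m1, m2, m3, m4, m5, f1, f2, f3, f4, f5⟩ := hm
  obtain ⟨κ, hκ, hev⟩ := fam_core hg hn (s := ![t₁, t₂, t₂', t₃, t₄])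
    (p := fun i => ![b₁ i, b₂ i, b₂' i, b₃ i, k i])
    (by
      intro t t' h
      fin_cases t <;> fin_cases t' <;> simp at h ⊢ <;> linarith)
    (by
      intro t t'
      fin_cases t <;> fin_cases t' <;> simp <;> first | exact hg.pos | linarith)
    (by
      intro t
      fin_cases t
      · exact f1
      · exact f2
      · exact f3
      · exact f4
      · exact f5)
    (by
      intro t
      fin_cases t
      · exact h₁
      · exact h₂
      · exact h₂'
      · exact h₃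
      · exact h₄)
  filter_upwards [hev, scale_ev hn hκ] with i hi hi2
  obtain ⟨h1, h2⟩ := hi 2 le_rfl hi2
  have hd := fun (t t' : Fin 5) (h : t ≠ t') (x : ℤ) (hx : |x| ≤ 1) =>
    not_dvd_of_sep le_rfl h2 h hx
  rw [jX_jl]
  have hpw : List.Pairwise (fun p q : ℤ × ℝ => ¬ ((n i * L : ℕ) : ℤ) ∣ p.1 - q.1)
      (l6 α (b₁ i) (b₂ i) (b₂' i) (b₃ i) (k i)) := by
    simp only [l6, List.pairwise_cons, List.mem_cons, List.not_mem_nil, or_false,
      forall_eq_or_imp, forall_eq, List.Pairwise.nil, and_true, IsEmpty.forall_iff, implies_true]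
    refine ⟨⟨?_, ?_, ?_, ?_, ?_⟩, ⟨?_, ?_, ?_, ?_⟩, ⟨?_, ?_, ?_⟩, ⟨?_, ?_⟩, ?_⟩
    · simpa using hd 0 1 (by decide) 0 (by simp)
    · simpa using hd 0 2 (by decide) 0 (by simp)
    · simpa using hd 0 3 (by decide) 0 (by simp)
    · simpa using hd 0 4 (by decide) 0 (by simp)
    · simpa using hd 0 4 (by decide) 1 (by simp)
    · simpa using hd 1 2 (by decide) 0 (by simp)
    · simpa using hd 1 3 (by decide) 0 (by simp)
    · simpa using hd 1 4 (by decide) 0 (by simp)
    · simpa using hd 1 4 (by decide) 1 (by simp)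
    · simpa using hd 2 3 (by decide) 0 (by simp)
    · simpa using hd 2 4 (by decide) 0 (by simp)
    · simpa using hd 2 4 (by decide) 1 (by simp)
    · simpa using hd 3 4 (by decide) 0 (by simp)
    · simpa using hd 3 4 (by decide) 1 (by simp)
    · have := not_dvd_one le_rfl h2 4 (x := -1) (by simp) (by simp)
      rwa [show k i - (k i + 1) = -1 by ring]
  have v := fun p hp => jl_mem hpw (p := p) hp
  have hne : ∀ t : Fin 5, t ≠ 4 → ![b₁ i, b₂ i, b₂' i, b₃ i, k i] t ≠ k i := by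
    intro t ht h
    apply hd t 4 ht 0 (by simp)
    rw [add_zero, h]
    simp
  rw [types_posS hP hg (by omega) le_rfl h2 ?_ ?_ (by simp)]
  · have v1 := v (b₁ i, Real.pi / 3) (by simp)
    have v2 := v (b₂ i, (1 - α) * (Real.pi / 3)) (by simp)
    have v3 := v (b₂' i, α * (Real.pi / 3)) (by simp)
    have v4 := v (b₃ i, Real.pi / 3) (by simp)
    have u1 : b₁ i ≠ k i := hne 0 (by decide)
    have u2 : b₂ i ≠ k i := hne 1 (by decide)
    have u3 : b₂' i ≠ k i := hne 2 (by decide)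
    have u4 : b₃ i ≠ k i := hne 3 (by decide)
    have e1 := kd_ver' u1 v1
    have e2 := kd_ver' u2 v2
    have e3 := kd_ver' u3 v3
    have e4 := kd_ver' u4 v4
    have e5 : kd {k i} ∅ (jl ((n i * L : ℕ) : ℤ) (l6 α (b₁ i) (b₂ i) (b₂' i) (b₃ i) (k i))) (k i) =
        .e := by
      unfold kd
      rw [if_pos (Finset.mem_singleton_self _)]
    unfold domV mkFull mkPair
    congr 1
    rw [Fin.univ_val_map]
    change (([(kd {k i} ∅ (jl ((n i * L : ℕ) : ℤ) (l6 α (b₁ i) (b₂ i) (b₂' i) (b₃ i) (k i)))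
      (b₁ i), 2), (kd {k i} ∅ (jl ((n i * L : ℕ) : ℤ) (l6 α (b₁ i) (b₂ i) (b₂' i) (b₃ i) (k i)))
      (b₂ i), 2), (kd {k i} ∅ (jl ((n i * L : ℕ) : ℤ) (l6 α (b₁ i) (b₂ i) (b₂' i) (b₃ i) (k i)))
      (b₂' i), 2), (kd {k i} ∅ (jl ((n i * L : ℕ) : ℤ) (l6 α (b₁ i) (b₂ i) (b₂' i) (b₃ i) (k i)))
      (b₃ i), 2), (kd {k i} ∅ (jl ((n i * L : ℕ) : ℤ) (l6 α (b₁ i) (b₂ i) (b₂' i) (b₃ i) (k i)))
      (k i), 2)] : List VT) : Multiset VT) = _
    rw [e1, e2, e3, e4, e5]
    exact swap3 (SK.ver (Real.pi / 3), 2) (SK.ver ((1 - α) * (Real.pi / 3)), 2)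
      (SK.ver (α * (Real.pi / 3)), 2) {(SK.ver (Real.pi / 3), 2), (SK.e, 2)}
  · intro x hx
    obtain ⟨p, hp, c, hc⟩ := jl_ne hx
    simp only [List.mem_cons, List.not_mem_nil, or_false] at hp
    rcases hp with rfl | rfl | rfl | rfl | rfl | rfl
    · exact ⟨0, c, Or.inl (by simp only at hc; change x = b₁ i + _; linarith)⟩
    · exact ⟨1, c, Or.inl (by simp only at hc; change x = b₂ i + _; linarith)⟩
    · exact ⟨2, c, Or.inl (by simp only at hc; change x = b₂' i + _; linarith)⟩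
    · exact ⟨3, c, Or.inl (by simp only at hc; change x = b₃ i + _; linarith)⟩
    · exact ⟨4, c, Or.inl (by simp only at hc; change x = k i + _; linarith)⟩
    · refine ⟨4, c, Or.inr ⟨Or.inl (Finset.mem_singleton.2 rfl), ?_⟩⟩
      simp only at hc
      change x = k i + 1 + _
      linarith
  · intro x hx
    rw [Finset.mem_singleton] at hx
    subst hx
    exact ⟨4, rfl⟩

/-- **the special positions of the three families with their types** -/
theorem fam_types (hP : MPoly P) (hg : Cont P L g) (hn : Tendsto n l atTop)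
    {j : ι → ℤ → ℝ} (hj : MFam L g l n j) :
    ∃ X : Multiset VT, Mk X ∧ ∃ κ : ℝ, 0 < κ ∧ ∃ (S : ι → Finset ℤ) (K : ι → ℤ → SK),
      (∀ i, (S i).card ≤ L + 5) ∧ ∀ᶠ i in l,
        (S i).val.map (fun x => (K i x, mm (gr (n i) g) x)) = domV (cc L g) X ∧
        ∀ r : ℕ, ∀ ψ, 2 ≤ r → (r : ℝ) ≤ κ * n i → Jmps (gr (n i) g) (j i) ψ →
          Spc P (n i) (n i * L) (gr (n i) g) (j i) ψ (S i) (K i) r 1 := by
  cases hj with
  | nat s b hs hb =>
    obtain ⟨κ, hκ, h⟩ := nat_spc hg hn hs hb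
    exact ⟨_, Or.inl rfl, κ, hκ, _, _, fun i => (posS_card _ _ _ _).trans (by omega),
      (nat_ty hP hg hn hs hb).and h⟩
  | pair α s s' b b' hα hs hs' h1 h2 hb hb' =>
    obtain ⟨κ, hκ, h⟩ := pair_spc hg hn (Set.Ioo_subset_Icc_self hα) hs hs' h1 h2 hb hb'
    exact ⟨_, Or.inr ⟨α, hα.1.le, hα.2.le, Or.inl rfl⟩, κ, hκ, _, _,
      fun i => (posS_card _ _ _ _).trans (by omega), (pair_ty hP hg hn hs hs' h1 h2 hb hb').and h⟩
  | full α t₁ t₂ t₂' t₃ t₄ b₁ b₂ b₂' b₃ k hα hm h₁ h₂ h₂' h₃ h₄ =>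
    obtain ⟨κ, hκ, h⟩ := full_spc hg hn (Set.Ioo_subset_Icc_self hα) hm h₁ h₂ h₂' h₃ h₄
    exact ⟨_, Or.inr ⟨α, hα.1.le, hα.2.le, Or.inr rfl⟩, κ, hκ, _, _,
      fun i => (posS_card _ _ _ _).trans (by omega), (full_ty hP hg hn hm h₁ h₂ h₂' h₃ h₄).and h⟩

end

end Pool.Agent.SixB.Cens
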