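import Pool.Agent.Lib.MP_6bd702_zc.Y024
import Pool.Agent.Lib.SixB.S3Cell

/-!
# 6BD step 3: common definitions (captain helper95)

* `SQ B σ`: sheeted complex over the complex `B` (base plane `ZQ` or cylinder): vertices `(s, v)`, faces `(s, f)`,
  corner `k` of `(s, f)` = `(σ f k s, B.c f k)`, `σ f k` any permutation of the sheets.
* `Mouth`, `msig μ`: the gluing of the pocket sheets `some i` to the base sheet `none` along horizontal mouths.
* weights: `wt`, `wA` (S3Loc, `2 cos`), `WZ Q F ψ Z ω` (S3Cell, normalised, `Z` = island sides), averages `av` (S0Av),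
  `ExpSys` = `LH.avSys` (S6LHeavy).
* `dz k`: unit vectors; `Wdg m o v r`: wedge of `m` quadrants `o, o+1, ..` around `v`, radius `r`;
  `wIn e v r`, `wOut o v r`: its walls on the rays `e = o + m`, `o` (inward directed sides; contour: in along `wIn`,
  out along `wOut`, region on the left).
* `Nwd m o v r ω`: number of arcs of the wedge from `wIn` to `wOut`; `Fwd m t r = E t ^ Nwd`.
* `WChart Q F m o v r`: chart of a wedge in the surface `F`; `WChart.Jump c ψ J`.
-/

set_option autoImplicit false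
set_option linter.unusedSectionVars false

namespace Pool.Agent.SixB

open Pool.Agent.Perc.Q Pool.Agent.Perc

noncomputable section

/-! ## Sheeted complexes -/

/-- sheeted complex -/
def SQ {V Φ S : Type} (B : QC V Φ) (σ : Φ → ZMod 4 → Equiv.Perm S) : QC (S × V) (S × Φ) where
  c := fun f k => (σ f.2 k f.1, B.c f.2 k)
  inj := by
    rintro ⟨s, f⟩ k ⟨s', f'⟩ k' h1 h2
    obtain ⟨h3, rfl⟩ := B.inj (Prod.mk.inj h1).2 (Prod.mk.inj h2).2
    have h3' : f = f' := h3
    subst h3'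
    have h4 : s = s' := (σ f k).injective (Prod.mk.inj h1).1
    exact ⟨by rw [h4], rfl⟩

theorem SQ_c {V Φ S : Type} (B : QC V Φ) (σ : Φ → ZMod 4 → Equiv.Perm S) (f : S × Φ) (k : ZMod 4) :
    (SQ B σ).c f k = (σ f.2 k f.1, B.c f.2 k) := rfl

/-- a horizontal mouth `[x1, x2] × {y}`; `up`: the pocket lies above -/
structure Mouth where
  up : Bool
  x1 : ℤ
  x2 : ℤ
  y : ℤ

/-- the corners of the faces on the pocket side of the mouth which lie on the mouth -/
def Mouth.adj (M : Mouth) (f : ℤ × ℤ) (k : ZMod 4) : Prop :=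
  M.x1 ≤ f.1 ∧ f.1 < M.x2 ∧ ((M.up = true ∧ f.2 = M.y ∧ (k = 0 ∨ k = 1)) ∨
    (M.up = false ∧ f.2 + 1 = M.y ∧ (k = 2 ∨ k = 3)))

open Classical in
/-- gluing of the pocket sheets `some i` to the base sheet `none` -/
def msig {ι : Type} (μ : ι → Mouth) (f : ℤ × ℤ) (k : ZMod 4) : Equiv.Perm (Option ι) :=
  if h : ∃ i, (μ i).adj f k then Equiv.swap none (some h.choose) else 1

/-- plane with pockets -/
def SP {ι : Type} (μ : ι → Mouth) : QC (Option ι × (ℤ × ℤ)) (Option ι × (ℤ × ℤ)) := SQ ZQ (msig μ)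

/-! ## Planar wedges -/

/-- unit vectors -/
def dz (k : ZMod 4) : ℤ × ℤ :=
  if k = 0 then (1, 0) else if k = 1 then (0, 1) else if k = 2 then (-1, 0) else (0, -1)

/-- quadrant of the face `f` seen from the vertex `v` -/
def quad (v f : ℤ × ℤ) : ZMod 4 :=
  if v.1 ≤ f.1 then (if v.2 ≤ f.2 then 0 else 3) else (if v.2 ≤ f.2 then 1 else 2)

/-- box of faces -/
def Bx (v : ℤ × ℤ) (r : ℕ) : Finset (ℤ × ℤ) :=
  Finset.Ico (v.1 - r) (v.1 + r) ×ˢ Finset.Ico (v.2 - r) (v.2 + r)

/-- wedge of the `m` quadrants `o, o + 1, ...` -/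
def Wdg (m : ℕ) (o : ZMod 4) (v : ℤ × ℤ) (r : ℕ) : Finset (ℤ × ℤ) :=
  (Bx v r).filter fun f => (quad v f - o).val < m

/-- sides of the ray `o`, directed to the left of the ray -/
def wOut (o : ZMod 4) (v : ℤ × ℤ) (r : ℕ) : Finset ((ℤ × ℤ) × (ℤ × ℤ)) :=
  (Finset.range r).image fun t : ℕ => (v + (t : ℤ) • dz o, v + ((t : ℤ) + 1) • dz o)

/-- sides of the ray `e`, directed to the right of the ray -/
def wIn (e : ZMod 4) (v : ℤ × ℤ) (r : ℕ) : Finset ((ℤ × ℤ) × (ℤ × ℤ)) :=
  (Finset.range r).image fun t : ℕ => (v + ((t : ℤ) + 1) • dz e, v + (t : ℤ) • dz e)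

/-- number of arcs of the wedge over its vertex -/
def Nwd (m : ℕ) (o : ZMod 4) (v : ℤ × ℤ) (r : ℕ) (ω : ℤ × ℤ → Bool) : ℕ :=
  ((wIn (o + m) v r).filter fun a => mate ZQ (Wdg m o v r) ω a ∈ wOut o v r).card

/-- local factor -/
def Fwd (m : ℕ) (t : ℝ) (r : ℕ) : ℝ :=
  av (Wdg m 0 (0, 0) r) fun ω => t ^ Nwd m 0 (0, 0) r ω

/-! ## Charts -/

section charts

variable {V Φ : Type} [DecidableEq V] [DecidableEq Φ]

/-- a planar set of faces `R` inside the surface `F` (orientation preserving, labels not rotated) -/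
structure PChart (Q : QC V Φ) (F : Finset Φ) (R : Finset (ℤ × ℤ)) where
  φV : ℤ × ℤ → V
  φF : ℤ × ℤ → Φ
  cor : ∀ f ∈ R, ∀ k, Q.c (φF f) k = φV (ZQ.c f k)
  inj : ∀ f ∈ R, ∀ g ∈ R, ∀ k l, φV (ZQ.c f k) = φV (ZQ.c g l) → ZQ.c f k = ZQ.c g l
  sub : ∀ f ∈ R, φF f ∈ F

/-- image of a side -/
def PChart.side {Q : QC V Φ} {F : Finset Φ} {R : Finset (ℤ × ℤ)} (c : PChart Q F R)
    (a : (ℤ × ℤ) × (ℤ × ℤ)) : V × V := (c.φV a.1, c.φV a.2)

/-- chart of the wedge of `m` quadrants at `v`: the two walls are walls of the surface -/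
structure WChart (Q : QC V Φ) (F : Finset Φ) (m : ℕ) (o : ZMod 4) (v : ℤ × ℤ) (r : ℕ) extends
    PChart Q F (Wdg m o v r) where
  bIn : ∀ a ∈ wIn (o + m) v r, toPChart.side a ∈ bS Q F
  bOut : ∀ a ∈ wOut o v r, toPChart.side a ∈ bS Q F

/-- the phases are constant on the two walls and the jump at the vertex is `J` -/
def WChart.Jump {Q : QC V Φ} {F : Finset Φ} {m : ℕ} {o : ZMod 4} {v : ℤ × ℤ} {r : ℕ}
    (c : WChart Q F m o v r) (ψ : V × V → ℝ) (J : ℝ) : Prop :=
  ∃ p q : ℝ, (∀ a ∈ wIn (o + m) v r, ψ (c.side a) = p) ∧ (∀ a ∈ wOut o v r, ψ (c.side a) = q) ∧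
    q - p + ((2 : ℝ) - m) * (Real.pi / 12) = J

/-- half plane box with a thin horizontal tube attached: `left = true`: the box lies to the left of `v`, the tube
(half width `h`, length `l`) to the right; `left = false`: the mirror image -/
def Mth (left : Bool) (v : ℤ × ℤ) (r h l : ℕ) : Finset (ℤ × ℤ) :=
  if left then Wdg 2 1 v r ∪ Finset.Ico v.1 (v.1 + l) ×ˢ Finset.Ico (v.2 - h) (v.2 + h)
  else Wdg 2 3 v r ∪ Finset.Ico (v.1 - l) v.1 ×ˢ Finset.Ico (v.2 - h) (v.2 + h)

/-- the four walls of `Mth` in the order of the contour (region on the left): wall, tube side, tube side, wall -/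
def mthWall (left : Bool) (v : ℤ × ℤ) (r h l : ℕ) (i : Fin 4) : Finset ((ℤ × ℤ) × (ℤ × ℤ)) :=
  if left then
    ![wOut 1 (v.1, v.2 - r) (r - h), wOut 0 (v.1, v.2 - h) l, wOut 2 (v.1 + l, v.2 + h) l,
      wOut 1 (v.1, v.2 + h) (r - h)] i
  else
    ![wOut 3 (v.1, v.2 + r) (r - h), wOut 2 (v.1, v.2 + h) l, wOut 0 (v.1 - l, v.2 - h) l,
      wOut 3 (v.1, v.2 - h) (r - h)] i

/-- chart of a mouth -/
structure MChart (Q : QC V Φ) (F : Finset Φ) (left : Bool) (v : ℤ × ℤ) (r h l : ℕ) extends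
    PChart Q F (Mth left v r h l) where
  bd : ∀ i, ∀ a ∈ mthWall left v r h l i, toPChart.side a ∈ bS Q F

/-- natural phases at a mouth; `J` = jump over the open end of the tube (`0` or `π / 3`) -/
def MChart.Nat {Q : QC V Φ} {F : Finset Φ} {left : Bool} {v : ℤ × ℤ} {r h l : ℕ}
    (c : MChart Q F left v r h l) (ψ : V × V → ℝ) (J : ℝ) : Prop :=
  ∃ p : Fin 4 → ℝ, (∀ i, ∀ a ∈ mthWall left v r h l i, ψ (c.side a) = p i) ∧
    p 1 - p 0 = Real.pi / 12 ∧ p 2 - p 1 + 2 * (Real.pi / 12) = J ∧ p 3 - p 2 = Real.pi / 12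

end charts

/-! ## Blocks -/

/-- one block with its chambers (6bd_norms.md v3); the slab is `|y - yc| < a`, the ceilings of the chambers are at
the height `b`, the block ends at the height `c` (seen from `yc`), the mouth of the pocket is `[x1, x2]`, `k` = unit
of length of tubes and half chambers -/
structure BGeo where
  x1 : ℤ
  x2 : ℤ
  yc : ℤ
  k : ℕ
  a : ℕ
  b : ℕ
  c : ℕ

namespace BGeo

/-- the columns of the chambers B, A on the right and B, A on the left -/
def cham (g : BGeo) (x : ℤ) : Prop :=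
  (g.x2 + g.k ≤ x ∧ x < g.x2 + 3 * g.k) ∨ (g.x2 + 4 * g.k ≤ x ∧ x < g.x2 + 6 * g.k) ∨
    (g.x1 - 3 * g.k ≤ x ∧ x < g.x1 - g.k) ∨ (g.x1 - 6 * g.k ≤ x ∧ x < g.x1 - 4 * g.k)

instance (g : BGeo) (x : ℤ) : Decidable (g.cham x) := by unfold cham; infer_instance

/-- height of the face over the centre line, `up = false`: depth below it -/
def hgt (g : BGeo) (up : Bool) (f : ℤ × ℤ) : ℤ := if up then f.2 - g.yc else g.yc - 1 - f.2

/-- the faces of the block (removed from the plane) -/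
def solid (g : BGeo) (up : Bool) (f : ℤ × ℤ) : Prop :=
  g.a ≤ g.hgt up f ∧ g.hgt up f < g.c ∧ g.x1 - 7 * g.k ≤ f.1 ∧ f.1 < g.x2 + 7 * g.k ∧
    ¬ (g.cham f.1 ∧ g.hgt up f < g.b)

instance (g : BGeo) (up : Bool) (f : ℤ × ℤ) : Decidable (g.solid up f) := by
  unfold solid; infer_instance

/-- the mouth of the pocket -/
def mouth (g : BGeo) (up : Bool) : Mouth := ⟨up, g.x1, g.x2, if up then g.yc + g.a else g.yc - g.a⟩

/-- amplitude of the flats A: jump `- alpha` -/
def alpha (m : ℝ) : ℝ := Real.pi / 6 + 2 * (m - Real.pi / 6) / 15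

/-- amplitude of the flats B: jump `- sig` -/
def sig (m : ℝ) : ℝ := 4 * (m - Real.pi / 6) / 15

/-- total jump of the two outer corners -/
def out (m : ℝ) : ℝ := -(Real.pi / 6) - (m - Real.pi / 6) / 5

/-- phase on the lower horizontal sides of the upper block in the column `x` (`0` on the far right), `m` = sum
of the jumps of the pocket -/
def Hst (g : BGeo) (m : ℝ) (x : ℤ) : ℝ :=
  (if x < g.x2 + 5 * g.k then -alpha m else 0) + (if x < g.x2 + 2 * g.k then -sig m else 0) +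
    (if x < g.x2 then m else 0) + (if x < g.x1 - 2 * g.k then -sig m else 0) +
      (if x < g.x1 - 5 * g.k then -alpha m else 0)

/-- phases of the upper block, side `(p, q)` directed into the free region -/
def blkPh (g : BGeo) (m : ℝ) (s : (ℤ × ℤ) × (ℤ × ℤ)) : ℝ :=
  if s.2 = (s.1.1 - 1, s.1.2) then g.Hst m s.2.1
  else if s.2 = (s.1.1 + 1, s.1.2) then -2 * alpha m - 2 * sig m + m + Real.pi / 6 + out m / 2
  else if s.2 = (s.1.1, s.1.2 + 1) then g.Hst m (s.1.1 - 1) + Real.pi / 12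
  else g.Hst m s.1.1 - Real.pi / 12

/-- rotation by 180 degrees around the centre of the mouth -/
def rot (g : BGeo) (v : ℤ × ℤ) : ℤ × ℤ := (g.x1 + g.x2 - v.1, 2 * g.yc - v.2)

/-- phases of the upper (`up = true`) or lower block, `m` = sum of the jumps of its pocket, `ρ` = phase of the
wall of the pocket at the right (lower block: left) end of the mouth -/
def ph (g : BGeo) (up : Bool) (m ρ : ℝ) (s : (ℤ × ℤ) × (ℤ × ℤ)) : ℝ :=
  ρ + alpha m + sig m - Real.pi / 12 + g.blkPh m (if up then s else (g.rot s.1, g.rot s.2))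

end BGeo

/-- Environment: upper block `gu` with pocket `U`, lower block `gd` with pocket `L` (`gu`, `gd` may be shifted against
each other), `W` window of base faces. Sheets: `none` base, `some true` = `U`, `some false` = `L`. -/
structure SEnv where
  gu : BGeo
  gd : BGeo
  U : Finset (ℤ × ℤ)
  L : Finset (ℤ × ℤ)
  W : Finset (ℤ × ℤ)

namespace SEnv

/-- the complex -/
def Q (E : SEnv) : QC (Option Bool × (ℤ × ℤ)) (Option Bool × (ℤ × ℤ)) :=
  SP fun i : Bool => if i then E.gu.mouth true else E.gd.mouth false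

/-- the base faces -/
def base (E : SEnv) : Finset (ℤ × ℤ) := E.W.filter fun f => ¬ E.gu.solid true f ∧ ¬ E.gd.solid false f

/-- the faces of the environment -/
def F (E : SEnv) : Finset (Option Bool × (ℤ × ℤ)) :=
  E.base.image (fun f => (none, f)) ∪ E.U.image (fun f => (some true, f)) ∪
    E.L.image fun f => (some false, f)

/-- projection of a side to the plane -/
def pl (s : (Option Bool × (ℤ × ℤ)) × (Option Bool × (ℤ × ℤ))) : (ℤ × ℤ) × (ℤ × ℤ) := (s.1.2, s.2.2)

/-- the phases: `ψu`, `ψl` phases of the walls of the pockets, `mu`, `ρu`, `ml`, `ρl` parameters of the blocks -/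
def psi (E : SEnv) (mu ρu ml ρl : ℝ) (ψu ψl : (ℤ × ℤ) × (ℤ × ℤ) → ℝ)
    (s : (Option Bool × (ℤ × ℤ)) × (Option Bool × (ℤ × ℤ))) : ℝ :=
  if s.1.1 = some true ∨ s.2.1 = some true then ψu (pl s)
  else if s.1.1 = some false ∨ s.2.1 = some false then ψl (pl s)
  else if E.gu.yc ≤ s.1.2.2 ∧ E.gu.yc ≤ s.2.2.2 then E.gu.ph true mu ρu (pl s)
  else E.gd.ph false ml ρl (pl s)

/-- the island sides: all boundary sides except those of the outer boundary of the window -/
def Z (E : SEnv) : Finset ((Option Bool × (ℤ × ℤ)) × (Option Bool × (ℤ × ℤ))) := by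
  classical exact (bS E.Q E.F).filter fun s => s.1.1 ≠ none ∨ s.2.1 ≠ none ∨
    ∃ f, (E.gu.solid true f ∨ E.gd.solid false f) ∧ ∃ k, pl s = (sd ZQ f k).swap

end SEnv

end

end Pool.Agent.SixB
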