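import Pool.Agent.Lib.SixB.S3Chart
import Pool.Agent.Lib.SixB.S3Cross
import Pool.Agent.Lib.SixB.S3Large
import Pool.Agent.Lib.SixB.S3Defs
import Pool.Agent.Lib.SixB.S0Av

/-!
# 6BD step 3: counts in a mouth chart (row R3, part M)

`Mth lf v r h l`: half plane box of radius `r` with a thin tube (half width `h`, length `l`).
* `mem_Mth`, `mem_mthWall` (walls as sides of faces), `bS_Mth`: a boundary side of `Mth` is a wall side, or it is on
  the boundary of the box, or it is on the open end of the tube.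
* `mK lf v ρ R h l₀ l τ`: crossings of the annulus `ρ, R` plus lengthwise crossings of the outer part of the tube;
  `dep_mK` (faces of `Mth R h l`), `mK_moment` (all exponential moments, uniform).
* `card_esc_le`: for a mouth chart the number of the wall sides of the core `Mth ρ h l₀` whose strand does not end on
  the boundary of the surface inside the cell `Mth R h l` is at most `mK`.
* `av_chart`: averages over the surface of functions of the faces of one chart.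
* `mouth_moment`: the two together in the radii of an atlas.
-/

set_option autoImplicit false
set_option linter.unusedSectionVars false

namespace Pool.Agent.SixB.CM

open Pool.Agent.Perc Pool.Agent.PercD Pool.Agent.PercN Pool.Agent.Perc.Q Relation
open Pool.Agent.SixB Pool.Agent.SixB.Tilt
open Pool.Agent.SixB.Rel (QChart QMap)

noncomputable section

/-! ## Geometry -/

theorem mem_Bx {v f : ℤ × ℤ} {r : ℕ} : f ∈ Bx v r ↔
    (v.1 - r ≤ f.1 ∧ f.1 < v.1 + r) ∧ (v.2 - r ≤ f.2 ∧ f.2 < v.2 + r) := by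
  unfold Bx
  rw [Finset.mem_product, Finset.mem_Ico, Finset.mem_Ico]

theorem quad_left {v f : ℤ × ℤ} : (quad v f - 1).val < 2 ↔ f.1 < v.1 := by
  unfold quad
  have h1 : ((1 : ZMod 4) - 1).val = 0 := by decide
  have h2 : ((2 : ZMod 4) - 1).val = 1 := by decide
  have h3 : ((3 : ZMod 4) - 1).val = 2 := by decide
  have h0 : ((0 : ZMod 4) - 1).val = 3 := by decide
  split_ifs with ha hb hb <;> simp only [h0, h1, h2, h3] <;> omega

theorem quad_right {v f : ℤ × ℤ} : (quad v f - 3).val < 2 ↔ v.1 ≤ f.1 := by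
  unfold quad
  have h1 : ((1 : ZMod 4) - 3).val = 2 := by decide
  have h2 : ((2 : ZMod 4) - 3).val = 3 := by decide
  have h3 : ((3 : ZMod 4) - 3).val = 0 := by decide
  have h0 : ((0 : ZMod 4) - 3).val = 1 := by decide
  split_ifs with ha hb hb <;> simp only [h0, h1, h2, h3] <;> omega

theorem mem_Mth {lf : Bool} {v f : ℤ × ℤ} {r h l : ℕ} : f ∈ Mth lf v r h l ↔
    (lf = true ∧ ((v.1 - r ≤ f.1 ∧ f.1 < v.1 ∧ v.2 - r ≤ f.2 ∧ f.2 < v.2 + r) ∨
      (v.1 ≤ f.1 ∧ f.1 < v.1 + l ∧ v.2 - h ≤ f.2 ∧ f.2 < v.2 + h))) ∨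
    (lf = false ∧ ((v.1 ≤ f.1 ∧ f.1 < v.1 + r ∧ v.2 - r ≤ f.2 ∧ f.2 < v.2 + r) ∨
      (v.1 - l ≤ f.1 ∧ f.1 < v.1 ∧ v.2 - h ≤ f.2 ∧ f.2 < v.2 + h))) := by
  unfold Mth Wdg
  cases lf
  · simp only [Bool.false_eq_true, if_false, Finset.mem_union, Finset.mem_filter, mem_Bx, quad_right,
      Finset.mem_product, Finset.mem_Ico, false_and, true_and, false_or]
    constructor
    · rintro (h | h)
      · left; omega
      · right; omega
    · rintro (h | h)
      · left; omega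
      · right; omega
  · simp only [if_true, Finset.mem_union, Finset.mem_filter, mem_Bx, quad_left,
      Finset.mem_product, Finset.mem_Ico, true_and, Bool.true_eq_false, false_and, or_false]
    constructor
    · rintro (h | h)
      · left; omega
      · right; omega
    · rintro (h | h)
      · left; omega
      · right; omega

/-- the wall sides of the mouth: face and number of the side -/
def Wl (lf : Bool) (v : ℤ × ℤ) (r h l : ℕ) (f : ℤ × ℤ) (k : ZMod 4) : Prop :=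
  (lf = true ∧ ((k = 1 ∧ f.1 = v.1 - 1 ∧ ((v.2 - r ≤ f.2 ∧ f.2 < v.2 - h) ∨ (v.2 + h ≤ f.2 ∧ f.2 < v.2 + r))) ∨
      (k = 0 ∧ f.2 = v.2 - h ∧ v.1 ≤ f.1 ∧ f.1 < v.1 + l) ∨
      (k = 2 ∧ f.2 = v.2 + h - 1 ∧ v.1 ≤ f.1 ∧ f.1 < v.1 + l))) ∨
    (lf = false ∧ ((k = 3 ∧ f.1 = v.1 ∧ ((v.2 - r ≤ f.2 ∧ f.2 < v.2 - h) ∨ (v.2 + h ≤ f.2 ∧ f.2 < v.2 + r))) ∨
      (k = 0 ∧ f.2 = v.2 - h ∧ v.1 - l ≤ f.1 ∧ f.1 < v.1) ∨
      (k = 2 ∧ f.2 = v.2 + h - 1 ∧ v.1 - l ≤ f.1 ∧ f.1 < v.1)))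

theorem mem_wOut {o : ZMod 4} {v : ℤ × ℤ} {r : ℕ} {s : (ℤ × ℤ) × (ℤ × ℤ)} :
    s ∈ wOut o v r ↔ ∃ t : ℕ, t < r ∧ s = (v + (t : ℤ) • dz o, v + ((t : ℤ) + 1) • dz o) := by
  unfold wOut
  rw [Finset.mem_image]
  constructor
  · rintro ⟨t, ht, rfl⟩
    exact ⟨t, Finset.mem_range.mp ht, rfl⟩
  · rintro ⟨t, ht, rfl⟩
    exact ⟨t, Finset.mem_range.mpr ht, rfl⟩

theorem dz0 : dz 0 = (1, 0) := rfl
theorem dz1 : dz 1 = (0, 1) := by unfold dz; rw [if_neg (by decide), if_pos rfl]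
theorem dz2 : dz 2 = (-1, 0) := by
  unfold dz; rw [if_neg (by decide), if_neg (by decide), if_pos rfl]
theorem dz3 : dz 3 = (0, -1) := by
  unfold dz; rw [if_neg (by decide), if_neg (by decide), if_neg (by decide)]

theorem sd0 (f : ℤ × ℤ) : sd ZQ f 0 = (f, (f.1 + 1, f.2)) := rfl
theorem sd1 (f : ℤ × ℤ) : sd ZQ f 1 = ((f.1 + 1, f.2), (f.1 + 1, f.2 + 1)) := rfl
theorem sd2 (f : ℤ × ℤ) : sd ZQ f 2 = ((f.1 + 1, f.2 + 1), (f.1, f.2 + 1)) := rfl
theorem sd3 (f : ℤ × ℤ) : sd ZQ f 3 = ((f.1, f.2 + 1), f) := rfl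

theorem mem_out0 {v : ℤ × ℤ} {r : ℕ} {s : (ℤ × ℤ) × (ℤ × ℤ)} :
    s ∈ wOut 0 v r ↔ ∃ f : ℤ × ℤ, s = sd ZQ f 0 ∧ f.2 = v.2 ∧ v.1 ≤ f.1 ∧ f.1 < v.1 + r := by
  rw [mem_wOut]
  constructor
  · rintro ⟨t, ht, rfl⟩
    refine ⟨(v.1 + t, v.2), ?_, rfl, by simp only; omega, by simp only; omega⟩
    rw [sd0, dz0]
    ext <;> simp <;> ring
  · rintro ⟨f, rfl, h1, h2, h3⟩
    refine ⟨(f.1 - v.1).toNat, by omega, ?_⟩
    have e : (((f.1 - v.1).toNat : ℕ) : ℤ) = f.1 - v.1 := Int.toNat_of_nonneg (by omega)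
    rw [sd0, dz0, e]
    ext <;> simp <;> omega

theorem mem_out1 {v : ℤ × ℤ} {r : ℕ} {s : (ℤ × ℤ) × (ℤ × ℤ)} :
    s ∈ wOut 1 v r ↔ ∃ f : ℤ × ℤ, s = sd ZQ f 1 ∧ f.1 = v.1 - 1 ∧ v.2 ≤ f.2 ∧ f.2 < v.2 + r := by
  rw [mem_wOut]
  constructor
  · rintro ⟨t, ht, rfl⟩
    refine ⟨(v.1 - 1, v.2 + t), ?_, rfl, by simp only; omega, by simp only; omega⟩
    rw [sd1, dz1]
    ext <;> simp <;> ring
  · rintro ⟨f, rfl, h1, h2, h3⟩
    refine ⟨(f.2 - v.2).toNat, by omega, ?_⟩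
    have e : (((f.2 - v.2).toNat : ℕ) : ℤ) = f.2 - v.2 := Int.toNat_of_nonneg (by omega)
    rw [sd1, dz1, e]
    ext <;> simp <;> omega

theorem mem_out2 {v : ℤ × ℤ} {r : ℕ} {s : (ℤ × ℤ) × (ℤ × ℤ)} :
    s ∈ wOut 2 v r ↔ ∃ f : ℤ × ℤ, s = sd ZQ f 2 ∧ f.2 = v.2 - 1 ∧ v.1 - r ≤ f.1 ∧ f.1 < v.1 := by
  rw [mem_wOut]
  constructor
  · rintro ⟨t, ht, rfl⟩
    refine ⟨(v.1 - t - 1, v.2 - 1), ?_, rfl, by simp only; omega, by simp only; omega⟩
    rw [sd2, dz2]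
    ext <;> simp <;> ring
  · rintro ⟨f, rfl, h1, h2, h3⟩
    refine ⟨(v.1 - 1 - f.1).toNat, by omega, ?_⟩
    have e : (((v.1 - 1 - f.1).toNat : ℕ) : ℤ) = v.1 - 1 - f.1 := Int.toNat_of_nonneg (by omega)
    rw [sd2, dz2, e]
    ext <;> simp <;> omega

theorem mem_out3 {v : ℤ × ℤ} {r : ℕ} {s : (ℤ × ℤ) × (ℤ × ℤ)} :
    s ∈ wOut 3 v r ↔ ∃ f : ℤ × ℤ, s = sd ZQ f 3 ∧ f.1 = v.1 ∧ v.2 - r ≤ f.2 ∧ f.2 < v.2 := by
  rw [mem_wOut]
  constructor
  · rintro ⟨t, ht, rfl⟩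
    refine ⟨(v.1, v.2 - t - 1), ?_, rfl, by simp only; omega, by simp only; omega⟩
    rw [sd3, dz3]
    ext <;> simp <;> ring
  · rintro ⟨f, rfl, h1, h2, h3⟩
    refine ⟨(v.2 - 1 - f.2).toNat, by omega, ?_⟩
    have e : (((v.2 - 1 - f.2).toNat : ℕ) : ℤ) = v.2 - 1 - f.2 := Int.toNat_of_nonneg (by omega)
    rw [sd3, dz3, e]
    ext <;> simp <;> omega

/-- the walls as sides of faces -/
theorem mem_mthWall {lf : Bool} {v : ℤ × ℤ} {r h l : ℕ} {s : (ℤ × ℤ) × (ℤ × ℤ)} :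
    (∃ i, s ∈ mthWall lf v r h l i) ↔ ∃ f k, s = sd ZQ f k ∧ Wl lf v r h l f k := by
  unfold mthWall Wl
  cases lf
  · simp only [Bool.false_eq_true, if_false, false_and, true_and, false_or, Fin.exists_fin_succ,
      Matrix.cons_val_zero, Matrix.cons_val_succ, IsEmpty.exists_iff, or_false]
    rw [mem_out3, mem_out2, mem_out0, mem_out3]
    constructor
    · rintro (⟨f, rfl, h1, h2, h3⟩ | ⟨f, rfl, h1, h2, h3⟩ | ⟨f, rfl, h1, h2, h3⟩ | ⟨f, rfl, h1, h2, h3⟩) <;>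
        simp only at h1 h2 h3
      · exact ⟨f, 3, rfl, Or.inl ⟨rfl, h1, by omega⟩⟩
      · exact ⟨f, 2, rfl, Or.inr (Or.inr ⟨rfl, by omega, by omega, by omega⟩)⟩
      · exact ⟨f, 0, rfl, Or.inr (Or.inl ⟨rfl, by omega, by omega, by omega⟩)⟩
      · exact ⟨f, 3, rfl, Or.inl ⟨rfl, h1, by omega⟩⟩
    · rintro ⟨f, k, rfl, ⟨rfl, h1, h2 | h2⟩ | ⟨rfl, h1, h2, h3⟩ | ⟨rfl, h1, h2, h3⟩⟩
      · exact Or.inr (Or.inr (Or.inr ⟨f, rfl, h1, by simp only; omega, by simp only; omega⟩))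
      · exact Or.inl ⟨f, rfl, h1, by simp only; omega, by simp only; omega⟩
      · exact Or.inr (Or.inr (Or.inl ⟨f, rfl, h1, by simp only; omega, by simp only; omega⟩))
      · exact Or.inr (Or.inl ⟨f, rfl, by simp only; omega, by simp only; omega, by simp only; omega⟩)
  · simp only [if_true, true_and, Bool.true_eq_false, false_and, or_false, Fin.exists_fin_succ,
      Matrix.cons_val_zero, Matrix.cons_val_succ, IsEmpty.exists_iff]
    rw [mem_out1, mem_out0, mem_out2, mem_out1]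
    constructor
    · rintro (⟨f, rfl, h1, h2, h3⟩ | ⟨f, rfl, h1, h2, h3⟩ | ⟨f, rfl, h1, h2, h3⟩ | ⟨f, rfl, h1, h2, h3⟩) <;>
        simp only at h1 h2 h3
      · exact ⟨f, 1, rfl, Or.inl ⟨rfl, h1, by omega⟩⟩
      · exact ⟨f, 0, rfl, Or.inr (Or.inl ⟨rfl, by omega, by omega, by omega⟩)⟩
      · exact ⟨f, 2, rfl, Or.inr (Or.inr ⟨rfl, by omega, by omega, by omega⟩)⟩
      · exact ⟨f, 1, rfl, Or.inl ⟨rfl, h1, by omega⟩⟩
    · rintro ⟨f, k, rfl, ⟨rfl, h1, h2 | h2⟩ | ⟨rfl, h1, h2, h3⟩ | ⟨rfl, h1, h2, h3⟩⟩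
      · exact Or.inl ⟨f, rfl, h1, by simp only; omega, by simp only; omega⟩
      · exact Or.inr (Or.inr (Or.inr ⟨f, rfl, h1, by simp only; omega, by simp only; omega⟩))
      · exact Or.inr (Or.inl ⟨f, rfl, h1, by simp only; omega, by simp only; omega⟩)
      · exact Or.inr (Or.inr (Or.inl ⟨f, rfl, by simp only; omega, by simp only; omega, by simp only; omega⟩))

theorem Wl.mem {lf : Bool} {v : ℤ × ℤ} {r h l : ℕ} {f : ℤ × ℤ} {k : ZMod 4} (hh : 0 < h)
    (H : Wl lf v r h l f k) : f ∈ Mth lf v r h l := by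
  rw [mem_Mth]
  rcases H with ⟨rfl, ⟨rfl, h1, h2⟩ | ⟨rfl, h1, h2⟩ | ⟨rfl, h1, h2⟩⟩ |
    ⟨rfl, ⟨rfl, h1, h2⟩ | ⟨rfl, h1, h2⟩ | ⟨rfl, h1, h2⟩⟩
  · exact Or.inl ⟨rfl, Or.inl (by omega)⟩
  · exact Or.inl ⟨rfl, Or.inr (by omega)⟩
  · exact Or.inl ⟨rfl, Or.inr (by omega)⟩
  · exact Or.inr ⟨rfl, Or.inl (by omega)⟩
  · exact Or.inr ⟨rfl, Or.inr (by omega)⟩
  · exact Or.inr ⟨rfl, Or.inr (by omega)⟩

theorem Wl.mono {lf : Bool} {v : ℤ × ℤ} {r h l r' l' : ℕ} {f : ℤ × ℤ} {k : ZMod 4} (hr : r ≤ r')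
    (hl : l ≤ l') (H : Wl lf v r h l f k) : Wl lf v r' h l' f k := by
  unfold Wl at H ⊢
  rcases H with ⟨rfl, ⟨rfl, h1, h2⟩ | ⟨rfl, h1, h2⟩ | ⟨rfl, h1, h2⟩⟩ |
    ⟨rfl, ⟨rfl, h1, h2⟩ | ⟨rfl, h1, h2⟩ | ⟨rfl, h1, h2⟩⟩
  · exact Or.inl ⟨rfl, Or.inl ⟨rfl, h1, by omega⟩⟩
  · exact Or.inl ⟨rfl, Or.inr (Or.inl ⟨rfl, h1, by omega⟩)⟩
  · exact Or.inl ⟨rfl, Or.inr (Or.inr ⟨rfl, h1, by omega⟩)⟩
  · exact Or.inr ⟨rfl, Or.inl ⟨rfl, h1, by omega⟩⟩
  · exact Or.inr ⟨rfl, Or.inr (Or.inl ⟨rfl, h1, by omega⟩)⟩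
  · exact Or.inr ⟨rfl, Or.inr (Or.inr ⟨rfl, h1, by omega⟩)⟩

theorem su0 (f : ℤ × ℤ) : su f 0 = (f.1, f.2, false) := rfl
theorem su1 (f : ℤ × ℤ) : su f 1 = (f.1 + 1, f.2, true) := rfl
theorem su2 (f : ℤ × ℤ) : su f 2 = (f.1, f.2 + 1, false) := rfl
theorem su3 (f : ℤ × ℤ) : su f 3 = (f.1, f.2, true) := rfl

theorem Wl.bdF {lf : Bool} {v : ℤ × ℤ} {r h l : ℕ} {f : ℤ × ℤ} {k : ZMod 4}
    (H : Wl lf v r h l f k) : BdF (Mth lf v r h l : Set (ℤ × ℤ)) (su f k) := by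
  intro d h1 h2
  rw [Finset.mem_coe, mem_Mth] at h1 h2
  unfold Wl at H
  rcases H with ⟨rfl, ⟨rfl, h3, h4⟩ | ⟨rfl, h3, h4⟩ | ⟨rfl, h3, h4⟩⟩ |
    ⟨rfl, ⟨rfl, h3, h4⟩ | ⟨rfl, h3, h4⟩ | ⟨rfl, h3, h4⟩⟩ <;> cases d <;>
    simp only [su0, su1, su2, su3, Tips.ahead, Bool.not_true, Bool.not_false, Bool.true_eq_false,
      Bool.false_eq_true, false_and, true_and, false_or, or_false] at h1 h2 <;> omega

theorem wall_bS {lf : Bool} {v : ℤ × ℤ} {r h l : ℕ} (hh : 0 < h) {s : (ℤ × ℤ) × (ℤ × ℤ)} {i : Fin 4}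
    (hs : s ∈ mthWall lf v r h l i) : s ∈ bS ZQ (Mth lf v r h l) := by
  obtain ⟨f, k, rfl, H⟩ := mem_mthWall.mp ⟨i, hs⟩
  exact PC.bS_of_bdF (H.mem hh) k (Set.Subset.refl _) H.bdF

/-- the unit edges of the open end of the tube -/
def TEnd (lf : Bool) (v : ℤ × ℤ) (h l : ℕ) (c : UE) : Prop :=
  ∃ y, v.2 - h ≤ y ∧ y < v.2 + h ∧ c = (if lf then v.1 + l else v.1 - l, y, true)

/-- **The boundary sides of a mouth**: walls, boundary of the box, open end of the tube. -/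
theorem bS_Mth {lf : Bool} {v : ℤ × ℤ} {r h l : ℕ} {s : (ℤ × ℤ) × (ℤ × ℤ)} (hh : h ≤ r) (hl : 0 < l)
    (hs : s ∈ bS ZQ (Mth lf v r h l)) : (∃ i, s ∈ mthWall lf v r h l i) ∨
      (BdR v r (und s) ∧ ∃ f ∈ Mth lf v r h l, IsSide f (und s) ∧ (if lf then f.1 < v.1 else v.1 ≤ f.1)) ∨
      TEnd lf v h l (und s) := by
  obtain ⟨f, hf, k, rfl⟩ := bS_sd hs
  rw [mem_mthWall]
  have hbd := PC.bdF_of_bS hs
  rw [und_sd] at hbd
  rw [und_sd]
  have hside := su_isSide f k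
  have h1 := hbd true
  have h2 := hbd false
  rw [Finset.mem_coe, Finset.mem_coe, mem_Mth, mem_Mth] at h1 h2
  have hf' := mem_Mth.mp hf
  unfold TEnd BdR BdE
  rcases hf' with ⟨rfl, hf' | hf'⟩ | ⟨rfl, hf' | hf'⟩ <;> rcases k4 k with rfl | rfl | rfl | rfl <;>
    simp only [su0, su1, su2, su3, Tips.ahead, Bool.not_true, Bool.not_false, Bool.true_eq_false,
      Bool.false_eq_true, false_and, true_and, false_or, or_false, if_true, if_false] at h1 h2 hside ⊢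
  · right; left
    exact ⟨by omega, f, hf, hside, by omega⟩
  · by_cases hw : v.1 ≤ f.1 + 1
    · left
      refine ⟨f, 1, rfl, ?_⟩
      unfold Wl
      exact Or.inl ⟨rfl, Or.inl ⟨rfl, by omega, by omega⟩⟩
    · exfalso
      omega
  · right; left
    exact ⟨by omega, f, hf, hside, by omega⟩
  · right; left
    exact ⟨by omega, f, hf, hside, by omega⟩
  · left
    refine ⟨f, 0, rfl, ?_⟩
    unfold Wl
    exact Or.inl ⟨rfl, Or.inr (Or.inl ⟨rfl, by omega, by omega⟩)⟩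
  · right; right
    exact ⟨f.2, by omega, by omega, by
      have : f.1 + 1 = v.1 + l := by omega
      rw [this]⟩
  · left
    refine ⟨f, 2, rfl, ?_⟩
    unfold Wl
    exact Or.inl ⟨rfl, Or.inr (Or.inr ⟨rfl, by omega, by omega⟩)⟩
  · exfalso
    omega
  · right; left
    exact ⟨by omega, f, hf, hside, by omega⟩
  · right; left
    exact ⟨by omega, f, hf, hside, by omega⟩
  · right; left
    exact ⟨by omega, f, hf, hside, by omega⟩
  · by_cases hw : f.1 ≤ v.1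
    · left
      refine ⟨f, 3, rfl, ?_⟩
      unfold Wl
      exact Or.inr ⟨rfl, Or.inl ⟨rfl, by omega, by omega⟩⟩
    · exfalso
      omega
  · left
    refine ⟨f, 0, rfl, ?_⟩
    unfold Wl
    exact Or.inr ⟨rfl, Or.inr (Or.inl ⟨rfl, by omega, by omega⟩)⟩
  · exfalso
    omega
  · left
    refine ⟨f, 2, rfl, ?_⟩
    unfold Wl
    exact Or.inr ⟨rfl, Or.inr (Or.inr ⟨rfl, by omega, by omega⟩)⟩
  · right; right
    exact ⟨f.2, by omega, by omega, by
      have : f.1 = v.1 - l := by omega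
      rw [this]⟩

/-! ## Planar counts -/

/-- left end of the outer part of the tube -/
def X0 (lf : Bool) (v : ℤ × ℤ) (l₀ l : ℕ) : ℤ := if lf then v.1 + l₀ else v.1 - l

/-- right end of the outer part of the tube -/
def X1 (lf : Bool) (v : ℤ × ℤ) (l₀ l : ℕ) : ℤ := if lf then v.1 + l else v.1 - l₀

/-- Crossings of the annulus `ρ, R` plus lengthwise crossings of the outer part of the tube. -/
def mK (lf : Bool) (v : ℤ × ℤ) (ρ R h l₀ l : ℕ) (τ : Cfg) : ℕ :=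
  NF (Mth lf v R h l : Set (ℤ × ℤ)) v ρ R τ +
    (LT τ (X0 lf v l₀ l) (X1 lf v l₀ l) (v.2 - h) (v.2 + h)).card

open Classical in
/-- the wall sides of the core whose strand does not end on the walls -/
def mS (lf : Bool) (v : ℤ × ℤ) (ρ R h l₀ l : ℕ) (τ : Cfg) : Finset ((ℤ × ℤ) × (ℤ × ℤ)) :=
  (bS ZQ (Mth lf v R h l)).filter fun x => (∃ i, x ∈ mthWall lf v ρ h l₀ i) ∧
    ¬ ∃ i, mate ZQ (Mth lf v R h l) τ x ∈ mthWall lf v R h l i

section planar

variable {lf : Bool} {v : ℤ × ℤ} {ρ R h l₀ l : ℕ} {τ : Cfg}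

theorem wall_mono {ρ' l' : ℕ} (hρ : ρ ≤ ρ') (hl : l₀ ≤ l') {s : (ℤ × ℤ) × (ℤ × ℤ)}
    (hs : ∃ i, s ∈ mthWall lf v ρ h l₀ i) : ∃ i, s ∈ mthWall lf v ρ' h l' i := by
  rw [mem_mthWall] at hs ⊢
  obtain ⟨f, k, rfl, H⟩ := hs
  exact ⟨f, k, rfl, H.mono hρ hl⟩

theorem diff_mS (hρ : ρ ≤ R) (hl : l₀ ≤ l) :
    Diff τ (Mth lf v R h l : Set (ℤ × ℤ)) ((mS lf v ρ R h l₀ l τ).image und) := by
  classical
  intro c hc c' hc' hcc
  obtain ⟨x, hx, rfl⟩ := Finset.mem_image.mp hc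
  obtain ⟨y, hy, rfl⟩ := Finset.mem_image.mp hc'
  unfold mS at hx hy
  obtain ⟨hx1, hx2, hx3⟩ := Finset.mem_filter.mp hx
  obtain ⟨hy1, hy2, hy3⟩ := Finset.mem_filter.mp hy
  rcases PC.MM_cases hx1 hy1 hcc with h4 | h4
  · rw [h4]
  · exfalso
    rw [← h4] at hx3
    exact hx3 (wall_mono hρ hl hy2)

theorem card_mS : ((mS lf v ρ R h l₀ l τ).image und).card = (mS lf v ρ R h l₀ l τ).card := by
  classical
  refine Finset.card_image_of_injOn fun x hx y hy hxy => ?_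
  unfold mS at hx hy
  exact PC.und_bS_inj (Finset.mem_filter.mp (Finset.mem_coe.mp hx)).1
    (Finset.mem_filter.mp (Finset.mem_coe.mp hy)).1 hxy

theorem Diff.mono {S S' : Finset UE} {G : Set (ℤ × ℤ)} (hS : Diff τ G S) (h : S' ⊆ S) :
    Diff τ G S' := fun b hb b' hb' hbb => hS b (h hb) b' (h hb') hbb

/-- **The count in the plane.** -/
theorem card_mS_le (hh : 0 < h) (hhρ : h ≤ ρ) (hρR : ρ < R) (hl : l₀ < l) :
    (mS lf v ρ R h l₀ l τ).card ≤ mK lf v ρ R h l₀ l τ := by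
  classical
  rw [← card_mS]
  set S := (mS lf v ρ R h l₀ l τ).image und with hSd
  have hD : Diff τ (Mth lf v R h l : Set (ℤ × ℤ)) S := diff_mS hρR.le hl.le
  set S1 := S.filter fun c => ∃ c' ∈ MM τ (Mth lf v R h l : Set (ℤ × ℤ)) c, BdR v R c' ∧
    ∃ f ∈ Mth lf v R h l, IsSide f c' ∧ (if lf then f.1 < v.1 else v.1 ≤ f.1) with hS1
  set S2 := S.filter fun c => ∃ c' ∈ MM τ (Mth lf v R h l : Set (ℤ × ℤ)) c, TEnd lf v h l c' with hS2
  have hsub : S ⊆ S1 ∪ S2 := by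
    intro c hc
    rw [Finset.mem_union, hS1, hS2, Finset.mem_filter, Finset.mem_filter]
    obtain ⟨x, hx, rfl⟩ := Finset.mem_image.mp hc
    unfold mS at hx
    obtain ⟨hx1, hx2, hx3⟩ := Finset.mem_filter.mp hx
    rcases bS_Mth (hhρ.trans hρR.le) (by omega) (mate_mem (ω := τ) hx1) with h1 | ⟨h1, h2⟩ | h1
    · exact absurd h1 hx3
    · exact Or.inl ⟨hc, _, PC.mate_MM hx1 τ, h1, h2⟩
    · exact Or.inr ⟨hc, _, PC.mate_MM hx1 τ, h1⟩
  refine (Finset.card_le_card hsub).trans ((Finset.card_union_le _ _).trans ?_)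
  unfold mK
  refine Nat.add_le_add ?_ ?_
  · -- the annulus
    have := card_le_sum_NF (ι := ℕ) (G := (Mth lf v R h l : Set (ℤ × ℤ))) (r := (ρ : ℤ)) (R := (R : ℤ))
      (Diff.mono hD (Finset.filter_subset _ _)) {0} (fun _ => v) (by omega) (by exact_mod_cast hρR)
      (fun _ _ f hf => hf.1) (S := S1) (fun c hc => ?_)
    · simpa using this
    · refine ⟨0, Finset.mem_singleton_self _, ?_⟩
      rw [hS1, Finset.mem_filter] at hc
      obtain ⟨hc, c', hc', hbd, g, hg, hgs, hgx⟩ := hc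
      refine ⟨?_, c', hc', fun _ => hbd⟩
      obtain ⟨x, hx, rfl⟩ := Finset.mem_image.mp hc
      unfold mS at hx
      obtain ⟨hx1, hx2, hx3⟩ := Finset.mem_filter.mp hx
      obtain ⟨f, k, rfl, H⟩ := mem_mthWall.mp hx2
      rw [und_sd] at hc' ⊢
      by_cases hin : InE v ρ (su f k)
      · exact ⟨_, mem_MM_self, hin⟩
      · unfold IsSide at hgs
        unfold Wl at H
        rcases H with ⟨rfl, H⟩ | ⟨rfl, H⟩
        · simp only [if_true] at hgx
          have hua : (ua c').1 < v.1 + 1 := by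
            rcases hgs with rfl | rfl | rfl | rfl <;> simp only [bo, le', to', ri, ua_mk] <;> omega
          have hk : (su f k) = (f.1, v.2 - h, false) ∨ (su f k) = (f.1, v.2 + h, false) := by
            rcases H with ⟨rfl, h3, h4⟩ | ⟨rfl, h3, h4⟩ | ⟨rfl, h3, h4⟩
            · exfalso
              apply hin
              unfold InE InR
              rw [su1, ua_mk, ub_true]
              simp only
              omega
            · left; rw [su0, h3]
            · right; rw [su2, h3]; simp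
          have hfx : v.1 + ρ < f.1 + 1 := by
            by_contra hc
            apply hin
            unfold InE InR
            have hf1 : v.1 - ρ ≤ f.1 := by
              rcases H with ⟨rfl, h3, h4⟩ | ⟨rfl, h3, h4⟩ | ⟨rfl, h3, h4⟩ <;> omega
            rcases hk with hk | hk <;> rw [hk, ua_mk, ub_false] <;> simp only <;> omega
          have hua2 : v.1 + 1 ≤ (ua (su f k)).1 := by
            rcases hk with hk | hk <;> rw [hk, ua_mk] <;> simp only <;> omega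
          obtain ⟨f', hf', h5, h6⟩ := line_step hc' mem_MM_self hua hua2
          rw [Finset.mem_coe, mem_Mth] at hf'
          refine ⟨_, h6, ?_⟩
          unfold InE InR
          simp only [ri, ua_mk, ub_true]
          simp only [true_and, Bool.true_eq_false, false_and, or_false] at hf'
          omega
        · simp only [Bool.false_eq_true, if_false] at hgx
          have hua : v.1 ≤ (ua c').1 := by
            rcases hgs with rfl | rfl | rfl | rfl <;> simp only [bo, le', to', ri, ua_mk] <;> omega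
          have hk : (su f k) = (f.1, v.2 - h, false) ∨ (su f k) = (f.1, v.2 + h, false) := by
            rcases H with ⟨rfl, h3, h4⟩ | ⟨rfl, h3, h4⟩ | ⟨rfl, h3, h4⟩
            · exfalso
              apply hin
              unfold InE InR
              rw [su3, ua_mk, ub_true]
              simp only
              omega
            · left; rw [su0, h3]
            · right; rw [su2, h3]; simp
          have hfx : f.1 < v.1 - ρ := by
            by_contra hc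
            apply hin
            unfold InE InR
            have hf1 : f.1 + 1 ≤ v.1 + ρ := by
              rcases H with ⟨rfl, h3, h4⟩ | ⟨rfl, h3, h4⟩ | ⟨rfl, h3, h4⟩ <;> omega
            rcases hk with hk | hk <;> rw [hk, ua_mk, ub_false] <;> simp only <;> omega
          have hua2 : (ua (su f k)).1 < v.1 := by
            rcases hk with hk | hk <;> rw [hk, ua_mk] <;> simp only <;> omega
          obtain ⟨f', hf', h5, h6⟩ := line_step mem_MM_self hc' hua2 hua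
          rw [Finset.mem_coe, mem_Mth] at hf'
          refine ⟨_, h6, ?_⟩
          unfold InE InR
          simp only [ri, ua_mk, ub_true]
          simp only [true_and, Bool.false_eq_true, false_and, false_or] at hf'
          omega
  · -- the tube
    refine card_le_LT (F := (Mth lf v R h l : Set (ℤ × ℤ))) ?_ (Diff.mono hD (Finset.filter_subset _ _))
      ?_ ?_
    · unfold X0 X1
      cases lf <;> simp only [Bool.false_eq_true, if_true, if_false] <;> omega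
    · intro f hf h1 h2
      rw [Finset.mem_coe, mem_Mth] at hf
      unfold X0 at h1
      unfold X1 at h2
      cases lf <;> simp only [Bool.false_eq_true, Bool.true_eq_false, if_true, if_false, true_and,
        false_and, or_false, false_or] at h1 h2 hf <;> omega
    · intro c hc
      rw [Finset.mem_filter] at hc
      obtain ⟨hc, c', hc', y, hy1, hy2, rfl⟩ := hc
      obtain ⟨x, hx, rfl⟩ := Finset.mem_image.mp hc
      unfold mS at hx
      obtain ⟨hx1, hx2, hx3⟩ := Finset.mem_filter.mp hx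
      obtain ⟨f, k, rfl, H⟩ := mem_mthWall.mp hx2
      rw [und_sd] at hc' ⊢
      unfold Wl at H
      unfold CrossH X0 X1
      rcases H with ⟨rfl, H⟩ | ⟨rfl, H⟩
      · simp only [if_true] at hc' ⊢
        refine ⟨⟨_, mem_MM_self, ?_⟩, _, hc', ?_⟩
        · rcases H with ⟨rfl, h3, h4⟩ | ⟨rfl, h3, h4⟩ | ⟨rfl, h3, h4⟩
          · rw [su1, ub_true]; simp only; omega
          · rw [su0, ub_false]; simp only; omega
          · rw [su2, ub_false]; simp only; omega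
        · rw [ua_mk]
      · simp only [Bool.false_eq_true, if_false] at hc' ⊢
        refine ⟨⟨_, hc', ?_⟩, _, mem_MM_self, ?_⟩
        · rw [ub_true]
        · rcases H with ⟨rfl, h3, h4⟩ | ⟨rfl, h3, h4⟩ | ⟨rfl, h3, h4⟩
          · rw [su3, ua_mk]; simp only; omega
          · rw [su0, ua_mk]; simp only; omega
          · rw [su2, ua_mk]; simp only; omega

end planar

/-! ## Dependence and moments -/

section moments

variable {lf : Bool} {v : ℤ × ℤ} {ρ R h l₀ l : ℕ}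

theorem RF_sub : RF (X0 lf v l₀ l) (X1 lf v l₀ l) (v.2 - h) (v.2 + h) ⊆ Mth lf v R h l := by
  intro f hf
  rw [mem_RF] at hf
  rw [mem_Mth]
  unfold X0 X1 at hf
  cases lf
  · simp only [Bool.false_eq_true, if_false, false_and, true_and, false_or] at hf ⊢
    omega
  · simp only [if_true, Bool.true_eq_false, false_and, true_and, or_false] at hf ⊢
    omega

/-- `mK` depends only on the faces of the cell. -/
theorem dep_mK : Dep (Mth lf v R h l : Set (ℤ × ℤ)) (mK lf v ρ R h l₀ l) := by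
  intro ω ω' hω
  have h1 := depN_NF (Mth lf v R h l : Set (ℤ × ℤ)) v ρ R ω ω' fun f hf => hω f hf.1
  have h2 := depN_LT (X0 lf v l₀ l) (X1 lf v l₀ l) (v.2 - h) (v.2 + h) ω ω' fun f hf =>
    hω f (by exact_mod_cast RF_sub (R := R) (by exact_mod_cast hf))
  unfold mK
  rw [h1]
  exact congrArg _ h2

/-- **All exponential moments**, in the radii of an atlas (core `r + h`, box `2 r`, half of the tube). -/
theorem mK_moment {lam : ℝ} (hlam : 1 ≤ lam) : ∃ C : ℝ, 0 < C ∧ ∀ (lf : Bool) (v : ℤ × ℤ)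
    (r h l : ℕ), 0 < h → 2 * h ≤ r → 4 * h ≤ l → ∀ W : Finset (ℤ × ℤ), Mth lf v (2 * r) h l ⊆ W →
      av W (fun τ => lam ^ mK lf v (r + h) (2 * r) h (l / 2) l τ) ≤ C := by
  classical
  have hlam2 : (1 : ℝ) ≤ lam ^ 2 := one_le_pow₀ hlam
  obtain ⟨C1, hC1, h1⟩ := NF_moment 3 hlam2
  obtain ⟨C2, hC2, h2⟩ := LT_moment 1 hlam2
  refine ⟨C1 + C2, by positivity, fun lf v r h l hh hr hl W hW => ?_⟩
  set L := Mth lf v (2 * r) h l with hL
  set W' := W ∪ BR v ((2 * r : ℕ) : ℤ) with hW'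
  have hd : Dep (L : Set (ℤ × ℤ)) (fun τ => lam ^ mK lf v (r + h) (2 * r) h (l / 2) l τ) := by
    intro ω ω' hω
    simp only [dep_mK ω ω' hω]
  rw [av_dep hd hW, ← av_dep hd (show L ⊆ W' from hW.trans Finset.subset_union_left)]
  have e1 := h1 (L : Set (ℤ × ℤ)) v ((r + h : ℕ) : ℤ) ((2 * r : ℕ) : ℤ) W' (by push_cast; omega)
    (by push_cast; omega) (by push_cast; omega) Finset.subset_union_right
  have hX : X0 lf v (l / 2) l < X1 lf v (l / 2) l ∧
      (v.2 + h) - (v.2 - h) ≤ (1 : ℕ) * (X1 lf v (l / 2) l - X0 lf v (l / 2) l) := by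
    unfold X0 X1
    cases lf <;> simp only [Bool.false_eq_true, if_true, if_false] <;> push_cast <;> omega
  have e2 := h2 (X0 lf v (l / 2) l) (X1 lf v (l / 2) l) (v.2 - h) (v.2 + h) W' hX.1 hX.2
    ((RF_sub (R := 2 * r)).trans (hW.trans Finset.subset_union_left))
  have e3 : av W' (fun τ => lam ^ mK lf v (r + h) (2 * r) h (l / 2) l τ) ≤
      av W' (fun τ => (lam ^ 2) ^ NF (L : Set (ℤ × ℤ)) v ((r + h : ℕ) : ℤ) ((2 * r : ℕ) : ℤ) τ +
        (lam ^ 2) ^ (LT τ (X0 lf v (l / 2) l) (X1 lf v (l / 2) l) (v.2 - h) (v.2 + h)).card) := by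
    refine av_mono fun T _ => ?_
    unfold mK
    set a := NF (L : Set (ℤ × ℤ)) v ((r + h : ℕ) : ℤ) ((2 * r : ℕ) : ℤ) (ind T)
    set b := (LT (ind T) (X0 lf v (l / 2) l) (X1 lf v (l / 2) l) (v.2 - h) (v.2 + h)).card
    rw [pow_add, ← pow_mul, ← pow_mul, mul_comm 2 a, mul_comm 2 b, pow_mul, pow_mul]
    have ha : (0 : ℝ) ≤ lam ^ a := by positivity
    have hb : (0 : ℝ) ≤ lam ^ b := by positivity
    nlinarith [sq_nonneg (lam ^ a - lam ^ b)]
  refine e3.trans ?_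
  rw [av_add]
  exact add_le_add e1 e2

end moments

/-! ## The surface -/

section surface

variable {V Φ : Type} [DecidableEq V] [DecidableEq Φ] {Q : QC V Φ} {F : Finset Φ}
  {lf : Bool} {v : ℤ × ℤ} {r ρ R h l₀ l l' : ℕ}

/-- a chart of `S3Defs` as a chart of `S3PlaneC` -/
theorem toQ {L L' : Finset (ℤ × ℤ)} (c : PChart Q F L) (hL : L' ⊆ L) : QChart ZQ Q L' c.φV c.φF 0 where
  inj := fun f hf g hg => c.inj f (hL hf) g (hL hg)
  cor := fun f hf k => by rw [add_zero]; exact c.cor f (hL hf) k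

theorem injOn {L : Finset (ℤ × ℤ)} (c : PChart Q F L) : Set.InjOn c.φF (L : Set (ℤ × ℤ)) :=
  (toQ c (Finset.Subset.refl _)).injOn

/-- **Averages over the surface of functions of the faces of one chart.** -/
theorem av_chart {L L' : Finset (ℤ × ℤ)} (c : PChart Q F L) (hL : L' ⊆ L) {g : (ℤ × ℤ → Bool) → ℝ}
    (hg : Dep (L' : Set (ℤ × ℤ)) g) : av F (fun ω => g (fun f => ω (c.φF f))) = av L' g := by
  have hinj : Set.InjOn c.φF (L' : Set (ℤ × ℤ)) := (injOn c).mono (by exact_mod_cast hL)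
  rw [← av_image hinj hg]
  refine av_dep ?_ ?_
  · intro ω ω' hω
    exact hg _ _ fun f hf => hω _ (by
      rw [Finset.mem_coe]
      exact Finset.mem_image_of_mem _ (by exact_mod_cast hf))
  · intro f hf
    obtain ⟨g, hg, rfl⟩ := Finset.mem_image.mp hf
    exact c.sub g (hL hg)

theorem dep_chart {L L' : Finset (ℤ × ℤ)} {α : Type} (c : PChart Q F L) {g : (ℤ × ℤ → Bool) → α}
    (hg : Dep (L' : Set (ℤ × ℤ)) g) :
    Dep ((L'.image c.φF : Finset Φ) : Set Φ) (fun ω => g (fun f => ω (c.φF f))) := by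
  intro ω ω' hω
  exact hg _ _ fun f hf => hω _ (by
    rw [Finset.mem_coe]
    exact Finset.mem_image_of_mem _ (by exact_mod_cast hf))

theorem Mth_mono (hr : R ≤ r) (hl : l ≤ l') : Mth lf v R h l ⊆ Mth lf v r h l' := by
  intro f hf
  rw [mem_Mth] at hf ⊢
  rcases hf with ⟨rfl, hf⟩ | ⟨rfl, hf⟩
  · exact Or.inl ⟨rfl, by omega⟩
  · exact Or.inr ⟨rfl, by omega⟩

/-- the wall sides of the core -/
def core (c : MChart Q F lf v r h l') (ρ l₀ : ℕ) : Finset (V × V) :=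
  Finset.univ.biUnion fun i => (mthWall lf v ρ h l₀ i).image c.side

theorem mem_core {c : MChart Q F lf v r h l'} {a : V × V} :
    a ∈ core c ρ l₀ ↔ ∃ i, ∃ s ∈ mthWall lf v ρ h l₀ i, a = c.side s := by
  unfold core
  simp only [Finset.mem_biUnion, Finset.mem_univ, true_and, Finset.mem_image]
  constructor
  · rintro ⟨i, s, hs, rfl⟩
    exact ⟨i, s, hs, rfl⟩
  · rintro ⟨i, s, hs, rfl⟩
    exact ⟨i, s, hs, rfl⟩

theorem wall_F (c : MChart Q F lf v r h l') (hr : R ≤ r) (hl : l ≤ l') {s : (ℤ × ℤ) × (ℤ × ℤ)}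
    (hs : ∃ i, s ∈ mthWall lf v R h l i) : c.side s ∈ bS Q F := by
  obtain ⟨i, hi⟩ := wall_mono hr hl hs
  exact c.bd i s hi

/-- the sides of the core are boundary sides of the surface and of the cell -/
theorem core_F (c : MChart Q F lf v r h l') (hr : ρ ≤ r) (hl : l₀ ≤ l') :
    core c ρ l₀ ⊆ bS Q F := by
  intro a ha
  obtain ⟨i, s, hs, rfl⟩ := mem_core.mp ha
  exact wall_F c hr hl ⟨i, hs⟩

theorem core_G (c : MChart Q F lf v r h l') (hh : 0 < h) (hρ : ρ ≤ R) (h0 : l₀ ≤ l) (hr : R ≤ r)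
    (hl : l ≤ l') : core c ρ l₀ ⊆ bS Q ((Mth lf v R h l).image c.φF) := by
  intro a ha
  obtain ⟨i, s, hs, rfl⟩ := mem_core.mp ha
  rw [PC.bS_map (toQ c.toPChart (Mth_mono hr hl))]
  obtain ⟨j, hj⟩ := wall_mono hρ h0 ⟨i, hs⟩
  exact Finset.mem_image_of_mem _ (wall_bS hh hj)

theorem cell_F (c : MChart Q F lf v r h l') (hr : R ≤ r) (hl : l ≤ l') :
    (Mth lf v R h l).image c.φF ⊆ F := by
  intro f hf
  obtain ⟨g, hg, rfl⟩ := Finset.mem_image.mp hf
  exact c.sub g (Mth_mono hr hl hg)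

/-- **Row R3, part M.** -/
theorem card_esc_le (c : MChart Q F lf v r h l') (hh : 0 < h) (hhρ : h ≤ ρ) (hρR : ρ < R) (h0 : l₀ < l)
    (hr : R ≤ r) (hl : l ≤ l') (ω : Φ → Bool) :
    (esc Q F ((Mth lf v R h l).image c.φF) (core c ρ l₀) ω).card ≤
      mK lf v ρ R h l₀ l (fun f => ω (c.φF f)) := by
  classical
  refine le_trans ?_ (card_mS_le hh hhρ hρR h0)
  refine (Finset.card_le_card ?_).trans (Finset.card_image_le (f := PC.mv c.φV))
  intro a ha
  obtain ⟨h1, h2⟩ := mem_esc.mp ha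
  obtain ⟨i, s, hs, rfl⟩ := mem_core.mp h1
  obtain ⟨j, hj⟩ := wall_mono hρR.le h0.le ⟨i, hs⟩
  have hb := wall_bS hh hj
  refine Finset.mem_image.mpr ⟨s, ?_, rfl⟩
  unfold mS
  refine Finset.mem_filter.mpr ⟨hb, ⟨i, hs⟩, fun hm => h2 ?_⟩
  have h3 : mate Q ((Mth lf v R h l).image c.φF) ω (c.side s) =
      PC.mv c.φV (mate ZQ (Mth lf v R h l) (PC.pb c.φF ω) s) :=
    PC.mate_map (toQ c.toPChart (Mth_mono hr hl)) hb
  rw [h3]
  exact wall_F c hr hl hm

/-- `mK` on the surface: dependence -/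
theorem dep_mK_F (c : MChart Q F lf v r h l') :
    Dep (((Mth lf v R h l).image c.φF : Finset Φ) : Set Φ)
      (fun ω => mK lf v ρ R h l₀ l (fun f => ω (c.φF f))) := dep_chart c.toPChart dep_mK

end surface

/-- **Moments of the mouth counts of an atlas.** -/
theorem mouth_moment {lam : ℝ} (hlam : 1 ≤ lam) : ∃ C : ℝ, 0 < C ∧
    ∀ {V Φ : Type} [DecidableEq V] [DecidableEq Φ] (Q : QC V Φ) (F : Finset Φ) (lf : Bool) (v : ℤ × ℤ)
      (r h l : ℕ) (c : MChart Q F lf v (2 * r + 1) h (l + 1)), 0 < h → 2 * h ≤ r → 4 * h ≤ l →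
      av F (fun ω => lam ^ mK lf v (r + h) (2 * r) h (l / 2) l (fun f => ω (c.φF f))) ≤ C := by
  obtain ⟨C, hC, H⟩ := mK_moment hlam
  refine ⟨C, hC, ?_⟩
  intro V Φ _ _ Q F lf v r h l c hh hr hl
  have hd : Dep (Mth lf v (2 * r) h l : Set (ℤ × ℤ))
      (fun τ => lam ^ mK lf v (r + h) (2 * r) h (l / 2) l τ) := by
    intro ω ω' hω
    simp only [dep_mK ω ω' hω]
  rw [av_chart c.toPChart (Mth_mono (by omega) (by omega)) hd]
  exact H lf v r h l hh hr hl _ (Finset.Subset.refl _)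

/-- The escape count of a mouth of an atlas. -/
theorem mouth_esc {V Φ : Type} [DecidableEq V] [DecidableEq Φ] {Q : QC V Φ} {F : Finset Φ} {lf : Bool}
    {v : ℤ × ℤ} {r h l : ℕ} (c : MChart Q F lf v (2 * r + 1) h (l + 1)) (hh : 0 < h) (hr : 2 * h ≤ r)
    (hl : 4 * h ≤ l) (ω : Φ → Bool) :
    (esc Q F ((Mth lf v (2 * r) h l).image c.φF) (core c (r + h) (l / 2)) ω).card ≤
      mK lf v (r + h) (2 * r) h (l / 2) l (fun f => ω (c.φF f)) :=
  card_esc_le c hh (by omega) (by omega) (by omega) (by omega) (by omega) ω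

end

end Pool.Agent.SixB.CM
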