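import Pool.Agent.Lib.SixB.S3LowP

/-!
# 6BD step 3: charts of surfaces with a planar projection are translations

`PlQ Q π ρ`: the faces and vertices of `Q` have planar positions `π`, `ρ` (`ZQ`, planes with sheets such as `E.Q`).
* `shift_wdg`, `shift_mth`: in a chart of a wedge or of a mouth the face `f` has the position `f + t`,
  `t = ρ (φV v) - v`.
* `colr`, `col`: every atlas and every partial atlas has the colouring `fun x => !parD 0 (π x)`.
-/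

set_option autoImplicit false
set_option linter.unusedSectionVars false

namespace Pool.Agent.SixB.ColP

open Pool.Agent.Perc.Q Pool.Agent.Perc
open Pool.Agent.SixB hiding Zs_split

noncomputable section

variable {V Φ : Type} [DecidableEq V] [DecidableEq Φ]
variable {Q : QC V Φ} {F : Finset Φ} {π : Φ → ℤ × ℤ} {ρ : V → ℤ × ℤ} {R : Finset (ℤ × ℤ)}

/-- planar positions of the faces and vertices -/
def PlQ (Q : QC V Φ) (π : Φ → ℤ × ℤ) (ρ : V → ℤ × ℤ) : Prop := ∀ x k, ρ (Q.c x k) = ZQ.c (π x) k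

theorem plQ_ZQ : PlQ ZQ id id := fun _ _ => rfl

/-- corners are translated with the faces -/
theorem cor_shift (x f : ℤ × ℤ) (k : ZMod 4) : ZQ.c x k - ZQ.c f k = x - f := by
  rcases Emb.corner_cases x k with ⟨rfl, e⟩ | ⟨rfl, e⟩ | ⟨rfl, e⟩ | ⟨rfl, e⟩
  · rw [e, show ZQ.c f 0 = f from rfl]
  · rw [e, show ZQ.c f 1 = (f.1 + 1, f.2) from rfl]
    ext <;> simp
  · rw [e, show ZQ.c f 2 = (f.1 + 1, f.2 + 1) from rfl]
    ext <;> simp
  · rw [e, show ZQ.c f 3 = (f.1, f.2 + 1) from rfl]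
    ext <;> simp

/-- the translation vector of a face is that of any of its corners -/
theorem shift_cor (hQ : PlQ Q π ρ) (c : PChart Q F R) {f : ℤ × ℤ} (hf : f ∈ R) (k : ZMod 4) :
    π (c.φF f) - f = ρ (c.φV (ZQ.c f k)) - ZQ.c f k := by
  rw [← c.cor f hf k, hQ, cor_shift]

/-- faces with a common corner have the same translation vector -/
theorem shift_adj (hQ : PlQ Q π ρ) (c : PChart Q F R) {f g : ℤ × ℤ} (hf : f ∈ R) (hg : g ∈ R)
    {k l : ZMod 4} (h : ZQ.c f k = ZQ.c g l) : π (c.φF f) - f = π (c.φF g) - g := by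
  rw [shift_cor hQ c hf k, shift_cor hQ c hg l, h]

/-- rows -/
theorem shift_row (hQ : PlQ Q π ρ) (c : PChart Q F R) {y : ℤ} {x : ℤ} (n : ℕ)
    (h : ∀ t : ℕ, t ≤ n → (x + t, y) ∈ R) :
    π (c.φF (x + n, y)) - (x + n, y) = π (c.φF (x, y)) - (x, y) := by
  induction n with
  | zero => simp
  | succ n ih =>
    rw [← ih fun t ht => h t (by omega)]
    refine shift_adj hQ c (h (n + 1) le_rfl) (h n (by omega)) (k := 0) (l := 1) ?_
    show (x + ((n + 1 : ℕ) : ℤ), y) = (x + n + 1, y)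
    push_cast
    ring_nf

/-- columns -/
theorem shift_col (hQ : PlQ Q π ρ) (c : PChart Q F R) {y : ℤ} {x : ℤ} (n : ℕ)
    (h : ∀ t : ℕ, t ≤ n → (x, y + t) ∈ R) :
    π (c.φF (x, y + n)) - (x, y + n) = π (c.φF (x, y)) - (x, y) := by
  induction n with
  | zero => simp
  | succ n ih =>
    rw [← ih fun t ht => h t (by omega)]
    refine shift_adj hQ c (h (n + 1) le_rfl) (h n (by omega)) (k := 0) (l := 3) ?_
    show (x, y + ((n + 1 : ℕ) : ℤ)) = (x, y + n + 1)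
    push_cast
    ring_nf

/-- rectangles -/
theorem shift_rect (hQ : PlQ Q π ρ) (c : PChart Q F R) {x₀ x₁ y₀ y₁ : ℤ}
    (hR : ∀ f : ℤ × ℤ, x₀ ≤ f.1 → f.1 < x₁ → y₀ ≤ f.2 → f.2 < y₁ → f ∈ R) {f g : ℤ × ℤ}
    (hf : (x₀ ≤ f.1 ∧ f.1 < x₁) ∧ y₀ ≤ f.2 ∧ f.2 < y₁)
    (hg : (x₀ ≤ g.1 ∧ g.1 < x₁) ∧ y₀ ≤ g.2 ∧ g.2 < y₁) :
    π (c.φF f) - f = π (c.φF g) - g := by
  have key : ∀ f : ℤ × ℤ, (x₀ ≤ f.1 ∧ f.1 < x₁) ∧ y₀ ≤ f.2 ∧ f.2 < y₁ →
      π (c.φF f) - f = π (c.φF (x₀, y₀)) - (x₀, y₀) := by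
    rintro ⟨a, b⟩ ⟨⟨h1, h2⟩, h3, h4⟩
    simp only at h1 h2 h3 h4
    obtain ⟨s, rfl⟩ := Int.le.dest h1
    obtain ⟨t, rfl⟩ := Int.le.dest h3
    rw [shift_row hQ c s fun u hu => hR _ (by simp only; omega) (by simp only; omega)
      (by simp only; omega) (by simp only; omega)]
    exact shift_col hQ c t fun u hu => hR _ (by simp only; omega) (by simp only; omega)
      (by simp only; omega) (by simp only; omega)
  rw [key f hf, key g hg]

/-- a rectangle with a corner vertex `v` of the face `g` -/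
theorem shift_rectV (hQ : PlQ Q π ρ) (c : PChart Q F R) {x₀ x₁ y₀ y₁ : ℤ}
    (hR : ∀ f : ℤ × ℤ, x₀ ≤ f.1 → f.1 < x₁ → y₀ ≤ f.2 → f.2 < y₁ → f ∈ R) {f g v : ℤ × ℤ}
    (hf : (x₀ ≤ f.1 ∧ f.1 < x₁) ∧ y₀ ≤ f.2 ∧ f.2 < y₁)
    (hg : (x₀ ≤ g.1 ∧ g.1 < x₁) ∧ y₀ ≤ g.2 ∧ g.2 < y₁) {k : ZMod 4} (hv : ZQ.c g k = v) :
    π (c.φF f) = f + (ρ (c.φV v) - v) := by
  have h1 := shift_rect hQ c hR hf hg
  rw [shift_cor hQ c (hR g hg.1.1 hg.1.2 hg.2.1 hg.2.2) k, hv] at h1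
  rw [← h1]
  abel

/-- **Wedges.** -/
theorem shift_wdg (hQ : PlQ Q π ρ) {m r : ℕ} {o : ZMod 4} {v : ℤ × ℤ} (c : PChart Q F R)
    (hR : Wdg m o v r ⊆ R) {f : ℤ × ℤ} (hf : f ∈ Wdg m o v r) :
    π (c.φF f) = f + (ρ (c.φV v) - v) := by
  have hq : ∀ g : ℤ × ℤ, quad v g = quad v f → g ∈ Bx v r → g ∈ R := by
    intro g h1 h2
    refine hR (WG.mem_Wdg.2 ⟨h2, ?_⟩)
    rw [h1]
    exact (WG.mem_Wdg.1 hf).2
  have hb := WG.mem_Bx.1 (WG.mem_Wdg.1 hf).1
  by_cases h1 : v.1 ≤ f.1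
  · by_cases h2 : v.2 ≤ f.2
    · refine shift_rectV hQ c (x₀ := v.1) (x₁ := v.1 + r) (y₀ := v.2) (y₁ := v.2 + r) (g := v)
        (k := 0) ?_ ?_ ?_ rfl
      · intro g g1 g2 g3 g4
        exact hq g (by rw [WG.quad0 g1 g3, WG.quad0 h1 h2])
          (WG.mem_Bx.2 ⟨⟨by omega, by omega⟩, by omega, by omega⟩)
      · exact ⟨⟨h1, hb.1.2⟩, h2, hb.2.2⟩
      · exact ⟨⟨le_rfl, by omega⟩, le_rfl, by omega⟩
    · push Not at h2
      refine shift_rectV hQ c (x₀ := v.1) (x₁ := v.1 + r) (y₀ := v.2 - r) (y₁ := v.2)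
        (g := (v.1, v.2 - 1)) (k := 3) ?_ ?_ ?_ ?_
      · intro g g1 g2 g3 g4
        exact hq g (by rw [WG.quad3 g1 g4, WG.quad3 h1 h2])
          (WG.mem_Bx.2 ⟨⟨by omega, by omega⟩, by omega, by omega⟩)
      · exact ⟨⟨h1, hb.1.2⟩, hb.2.1, h2⟩
      · exact ⟨⟨le_rfl, by simp only; omega⟩, by simp only; omega, by simp only; omega⟩
      · show (v.1, v.2 - 1 + 1) = v
        rw [sub_add_cancel]
  · push Not at h1
    by_cases h2 : v.2 ≤ f.2
    · refine shift_rectV hQ c (x₀ := v.1 - r) (x₁ := v.1) (y₀ := v.2) (y₁ := v.2 + r)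
        (g := (v.1 - 1, v.2)) (k := 1) ?_ ?_ ?_ ?_
      · intro g g1 g2 g3 g4
        exact hq g (by rw [WG.quad1 g2 g3, WG.quad1 h1 h2])
          (WG.mem_Bx.2 ⟨⟨by omega, by omega⟩, by omega, by omega⟩)
      · exact ⟨⟨hb.1.1, h1⟩, h2, hb.2.2⟩
      · exact ⟨⟨by simp only; omega, by simp only; omega⟩, le_rfl, by simp only; omega⟩
      · show (v.1 - 1 + 1, v.2) = v
        rw [sub_add_cancel]
    · push Not at h2
      refine shift_rectV hQ c (x₀ := v.1 - r) (x₁ := v.1) (y₀ := v.2 - r) (y₁ := v.2)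
        (g := (v.1 - 1, v.2 - 1)) (k := 2) ?_ ?_ ?_ ?_
      · intro g g1 g2 g3 g4
        exact hq g (by rw [WG.quad2 g2 g4, WG.quad2 h1 h2])
          (WG.mem_Bx.2 ⟨⟨by omega, by omega⟩, by omega, by omega⟩)
      · exact ⟨⟨hb.1.1, h1⟩, hb.2.1, h2⟩
      · exact ⟨⟨by simp only; omega, by simp only; omega⟩, by simp only; omega, by simp only; omega⟩
      · show (v.1 - 1 + 1, v.2 - 1 + 1) = v
        rw [sub_add_cancel, sub_add_cancel]

/-- **Mouths.** -/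
theorem shift_mth (hQ : PlQ Q π ρ) {r h l : ℕ} {left : Bool} {v : ℤ × ℤ} (c : PChart Q F R)
    (hR : Mth left v r h l ⊆ R) {f : ℤ × ℤ} (hf : f ∈ Mth left v r h l) :
    π (c.φF f) = f + (ρ (c.φV v) - v) := by
  unfold Mth at hR hf
  cases left
  · rw [if_neg (by decide)] at hR hf
    rw [Finset.mem_union] at hf
    rcases hf with hf | hf
    · exact shift_wdg hQ c (Finset.union_subset_left hR) hf
    · rw [Finset.mem_product, Finset.mem_Ico, Finset.mem_Ico] at hf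
      refine shift_rectV hQ c (x₀ := v.1 - l) (x₁ := v.1) (y₀ := v.2 - h) (y₁ := v.2 + h)
        (g := (v.1 - 1, v.2)) (k := 1) ?_ hf ?_ ?_
      · intro g g1 g2 g3 g4
        refine hR (Finset.mem_union_right _ ?_)
        rw [Finset.mem_product, Finset.mem_Ico, Finset.mem_Ico]
        exact ⟨⟨g1, g2⟩, g3, g4⟩
      · exact ⟨⟨by simp only; omega, by simp only; omega⟩, by simp only; omega, by simp only; omega⟩
      · show (v.1 - 1 + 1, v.2) = v
        rw [sub_add_cancel]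
  · rw [if_pos rfl] at hR hf
    rw [Finset.mem_union] at hf
    rcases hf with hf | hf
    · exact shift_wdg hQ c (Finset.union_subset_left hR) hf
    · rw [Finset.mem_product, Finset.mem_Ico, Finset.mem_Ico] at hf
      refine shift_rectV hQ c (x₀ := v.1) (x₁ := v.1 + l) (y₀ := v.2 - h) (y₁ := v.2 + h)
        (g := v) (k := 0) ?_ hf ?_ rfl
      · intro g g1 g2 g3 g4
        refine hR (Finset.mem_union_right _ ?_)
        rw [Finset.mem_product, Finset.mem_Ico, Finset.mem_Ico]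
        exact ⟨⟨g1, g2⟩, g3, g4⟩
      · exact ⟨⟨le_rfl, by omega⟩, by omega, by omega⟩

/-! ## The colouring -/

/-- the colouring -/
def dcol (π : Φ → ℤ × ℤ) (x : Φ) : Bool := !Perc.parD 0 (π x)

theorem parD_add (f t : ℤ × ℤ) : Perc.parD 0 (f + t) = Perc.parD (-(t.1 + t.2)) f := by
  unfold Perc.parD
  have : (f + t).1 + (f + t).2 - 0 = f.1 + f.2 - -(t.1 + t.2) := by
    show f.1 + t.1 + (f.2 + t.2) - 0 = _
    ring
  rw [this]

theorem dcol_of {x : Φ} {f t : ℤ × ℤ} (h : π x = f + t) :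
    dcol π x = !Perc.parD (-(t.1 + t.2)) f := by
  unfold dcol
  rw [h, parD_add]

/-- the vector of a chart -/
def tv (ρ : V → ℤ × ℤ) (c : PChart Q F R) (v : ℤ × ℤ) : ℤ :=
  -((ρ (c.φV v) - v).1 + (ρ (c.φV v) - v).2)

variable {ψ : V × V → ℝ} {Z C : Finset (V × V)} {r nS nN : ℕ} {t₀ : ℝ}

/-- **Every atlas has the colouring of the projection.** -/
def colr (hQ : PlQ Q π ρ) (A : Atlas Q F ψ Z r nS nN t₀) : Bk.Colr A (dcol π) where
  cS i := tv ρ (A.ch i).toPChart (A.v i)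
  cN i := tv ρ (A.nch i).toPChart (A.v' i)
  cM i := tv ρ (A.mch i).toPChart (A.w i)
  hS _ _ hf := dcol_of (shift_wdg hQ _ (Finset.Subset.refl _) hf)
  hN _ _ hf := dcol_of (shift_wdg hQ _ (Finset.Subset.refl _) hf)
  hM _ _ hf := dcol_of (shift_mth hQ _ (Finset.Subset.refl _) hf)

/-- **Every partial atlas has the colouring of the projection.** -/
def col (hQ : PlQ Q π ρ) (A : PAtlas Q F ψ Z C r nS nN t₀) : LowP.Col A (dcol π) where
  cS i := tv ρ (A.ch i).toPChart (A.v i)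
  cN i := tv ρ (A.nch i).toPChart (A.v' i)
  cM i := tv ρ (A.mch i).toPChart (A.w i)
  hS _ _ hf := dcol_of (shift_wdg hQ _ (Finset.Subset.refl _) hf)
  hN _ _ hf := dcol_of (shift_wdg hQ _ (Finset.Subset.refl _) hf)
  hM _ _ hf := dcol_of (shift_mth hQ _ (Finset.Subset.refl _) hf)

/-! ## Planes with sheets -/

theorem plQ_SP {ι : Type} [DecidableEq ι] (m : ι → Mouth) :
    PlQ (SP m) Prod.snd Prod.snd := fun _ _ => rfl

theorem plQ_env (E : SEnv) : PlQ E.Q Prod.snd Prod.snd := fun _ _ => rfl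

end

end Pool.Agent.SixB.ColP
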