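import Pool.Agent.Lib.SixB.S3Loc

/-!
# 6BD step 3: confined strands

Any complex of quadrangles `Q`, any configuration `ω`.
* `Into Q A b`: the directed unit edge `b` is a side of a face of `A`, directed into the face.
* `NoX Q ω M A B`: no strand of the domain `M` leads from `A` to `B`, and `A`, `B` have no common side.
* `vis_conf`: `K ⊆ P`, `NoX (P \ K) K (F \ P)`: a strand of `F` which visits `K` stays in `P`.
* `NoX.union`: several middle parts without common sides.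
* `conf_mate`: mate, turning and weight of a confined arc are those of `P`.
* `vS Q F ω K S`: the sides in `S` whose strand visits `K`; `aP Q F ω ψ S`: normalised product of the
  weights of the arcs with an end in `S`.
* `aP_pieces`: product of the normalised weights of the arcs of `F` = product over the pieces.
-/

set_option autoImplicit false
set_option linter.unusedSectionVars false

namespace Pool.Agent.SixB.Conf

open Pool.Agent.Perc.Q Relation

noncomputable section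

section Sets

variable {V Φ : Type} {Q : QC V Φ} {ω : Φ → Bool} {F K P M M' A B : Set Φ} {a b c e : V × V} {f g : Φ}

/-- `b` is a side of a face of `A`, directed into the face. -/
def Into (Q : QC V Φ) (A : Set Φ) (b : V × V) : Prop := ∃ f ∈ A, ∃ k, b = sd Q f k

/-- No strand of the domain `M` leads from `A` to `B`; no common side of `A` and `B`. -/
def NoX (Q : QC V Φ) (ω : Φ → Bool) (M A B : Set Φ) : Prop :=
  ∀ c, Into Q A c.swap → ∀ b ∈ Orb Q ω M c, ¬ Into Q B b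

theorem Into.mono (h : Into Q A b) (hAB : A ⊆ B) : Into Q B b := by
  obtain ⟨f, hf, h⟩ := h
  exact ⟨f, hAB hf, h⟩

theorem Into.face (h : Into Q A b) {k : ZMod 4} (hf : b = sd Q f k) : f ∈ A := by
  obtain ⟨g, hg, l, hl⟩ := h
  rw [hf] at hl
  rwa [(sd_inj hl).1]

theorem into_of_nx (h : Nx Q ω F a b) : Into Q F a ∧ Into Q F b.swap := by
  obtain ⟨t, f, hf, k, rfl, rfl, -⟩ := nx_iff.mp h
  exact ⟨⟨f, hf, k, rfl⟩, ⟨f, hf, _, Prod.swap_swap _⟩⟩

/-- a step through the face ahead -/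
theorem nx_face (h : Nx Q ω F a b) : ∃ f ∈ F, ∃ k, a = sd Q f k ∧ b.swap = sd Q f (mt (ω f) k) := by
  obtain ⟨t, f, hf, k, rfl, rfl, -⟩ := nx_iff.mp h
  exact ⟨f, hf, k, rfl, Prod.swap_swap _⟩

theorem nx_of_into (h : Nx Q ω F a b) (hM : Into Q M a) : Nx Q ω M a b := by
  obtain ⟨f, hf, k, h1, h2⟩ := h
  exact ⟨f, hM.face (f := f) (k := k) h1, k, h1, h2⟩

theorem orb_rev (h : b ∈ Orb Q ω F a) : a.swap ∈ Orb Q ω F b.swap := by
  induction (show ReflTransGen (Nx Q ω F) a b from h) with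
  | refl => exact mem_Orb_self
  | tail hab hs ih => exact ReflTransGen.head hs.rev (ih hab)

theorem NoX.symm (h : NoX Q ω M A B) : NoX Q ω M B A := by
  intro c hc b hb hbA
  refine h b.swap ?_ c.swap (orb_rev hb) hc
  rwa [Prod.swap_swap]

theorem NoX.mono (h : NoX Q ω M A B) {A' B' : Set Φ} (hA : A' ⊆ A) (hB : B' ⊆ B) :
    NoX Q ω M A' B' :=
  fun c hc b hb hbB => h c (hc.mono hA) b hb (hbB.mono hB)

theorem NoX.congr {ω' : Φ → Bool} (h : NoX Q ω M A B) (hω : ∀ f ∈ M, ω f = ω' f) :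
    NoX Q ω' M A B := by
  intro c hc b hb hbB
  refine h c hc b ?_ hbB
  rw [← Orb_congr (ω := ω) (ω' := ω') (F := M) (e := c) (fun f hf => hω f hf.1)]
  exact hb

/-- The strand of an element which comes out of `A` stays out of `B`. -/
theorem orb_conf (h : NoX Q ω M A B) (hF : F ⊆ A ∪ M ∪ B) (hc : Into Q A c.swap)
    (hb : b ∈ Orb Q ω F c) :
    ¬ Into Q B b ∧ ∃ d, Into Q A d.swap ∧ b ∈ Orb Q ω M d := by
  induction (show ReflTransGen (Nx Q ω F) c b from hb) with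
  | refl => exact ⟨h c hc c mem_Orb_self, c, hc, mem_Orb_self⟩
  | tail hab hs ih =>
    rename_i x y
    obtain ⟨h1, d, h2, h3⟩ := ih hab
    obtain ⟨f, hf, k, h4, h5⟩ := nx_face hs
    rcases hF hf with (h6 | h6) | h6
    · have h7 : Into Q A y.swap := ⟨f, h6, _, h5⟩
      exact ⟨h y h7 y mem_Orb_self, y, h7, mem_Orb_self⟩
    · have h7 : Nx Q ω M x y := nx_of_into hs ⟨f, h6, k, h4⟩
      have h8 := Orb_step h3 h7
      exact ⟨h d h2 y h8, d, h2, h8⟩
    · exact absurd ⟨f, h6, k, h4⟩ h1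

/-- **Confinement.** A strand of `F` which visits `A` does not visit `B`. -/
theorem vis_disj (h : NoX Q ω M A B) (hF : F ⊆ A ∪ M ∪ B) (hfA : f ∈ A) (hf : f ∈ Vis Q ω F e)
    (hgB : g ∈ B) (hg : g ∈ Vis Q ω F e) (hAB : Disjoint A B) : False := by
  -- from a visited face of the first set to one of the second
  have key : ∀ {A B : Set Φ} {f g : Φ} {k l : ZMod 4}, NoX Q ω M A B → F ⊆ A ∪ M ∪ B →
      Disjoint A B → f ∈ A → g ∈ B → f ∈ F → sd Q g l ∈ Orb Q ω F (sd Q f k) → False := by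
    intro A B f g k l h hF hAB hfA hgB hfF ho
    rcases ReflTransGen.cases_head ho with h1 | ⟨x, h1, h2⟩
    · exact Set.disjoint_left.mp hAB hfA ((sd_inj h1).1 ▸ hgB)
    · obtain ⟨f', hf', k', h3, h4⟩ := nx_face h1
      obtain ⟨rfl, rfl⟩ := sd_inj h3
      exact (orb_conf h hF ⟨f, hfA, _, h4⟩ h2).1 ⟨g, hgB, l, rfl⟩
  obtain ⟨hfF, k, hk⟩ := hf
  obtain ⟨hgF, l, hl⟩ := hg
  have hu : Relator.RightUnique (Nx Q ω F) := fun _ _ _ h h' => Nx.unique h h'
  rcases ReflTransGen.total_of_right_unique hu hk hl with h1 | h1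
  · exact key h hF hAB hfA hgB hfF h1
  · refine key h.symm ?_ hAB.symm hgB hfA hgF h1
    intro x hx
    rcases hF hx with (h2 | h2) | h2
    · exact Or.inr h2
    · exact Or.inl (Or.inr h2)
    · exact Or.inl (Or.inl h2)

/-- **Confinement.** A strand of `F` which visits `K` stays in `P`. -/
theorem vis_conf (h : NoX Q ω (P \ K) K (F \ P)) (hK : K ⊆ P) (hfK : f ∈ K)
    (hf : f ∈ Vis Q ω F e) : Vis Q ω F e ⊆ P := by
  intro g hg
  by_contra hgP
  refine vis_disj h ?_ hfK hf (g := g) ⟨hg.1, hgP⟩ hg ?_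
  · intro x hx
    by_cases h1 : x ∈ P
    · by_cases h2 : x ∈ K
      · exact Or.inl (Or.inl h2)
      · exact Or.inl (Or.inr ⟨h1, h2⟩)
    · exact Or.inr ⟨hx, h1⟩
  · exact Set.disjoint_left.mpr fun x hx h1 => h1.2 (hK hx)

/-- An element which comes out of `A` stays in the part which it enters. -/
theorem orb_union (hs : ∀ b, Into Q M b → ¬ Into Q M' b.swap) (hb : b ∈ Orb Q ω (M ∪ M') c) :
    b ∈ Orb Q ω M c ∨ b ∈ Orb Q ω M' c := by
  have hs' : ∀ b, Into Q M' b → ¬ Into Q M b.swap := fun b h1 h2 =>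
    hs b.swap h2 (by rwa [Prod.swap_swap])
  induction (show ReflTransGen (Nx Q ω (M ∪ M')) c b from hb) with
  | refl => exact Or.inl mem_Orb_self
  | tail hab hst ih =>
    rename_i x y
    obtain ⟨f, hf, k, h4, h5⟩ := nx_face hst
    rcases ih hab with h1 | h1
    · rcases hf with hf | hf
      · exact Or.inl (Orb_step h1 (nx_of_into hst ⟨f, hf, k, h4⟩))
      · rcases ReflTransGen.cases_tail h1 with h2 | ⟨z, -, h2⟩
        · right
          rw [h2] at hst h4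
          exact ReflTransGen.single (nx_of_into hst ⟨f, hf, k, h4⟩)
        · exact absurd (into_of_nx h2).2 (hs' x ⟨f, hf, k, h4⟩)
    · rcases hf with hf | hf
      · rcases ReflTransGen.cases_tail h1 with h2 | ⟨z, -, h2⟩
        · left
          rw [h2] at hst h4
          exact ReflTransGen.single (nx_of_into hst ⟨f, hf, k, h4⟩)
        · exact absurd (into_of_nx h2).2 (hs x ⟨f, hf, k, h4⟩)
      · exact Or.inr (Orb_step h1 (nx_of_into hst ⟨f, hf, k, h4⟩))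

theorem NoX.union (hs : ∀ b, Into Q M b → ¬ Into Q M' b.swap) (h : NoX Q ω M A B)
    (h' : NoX Q ω M' A B) : NoX Q ω (M ∪ M') A B := by
  intro c hc b hb
  rcases orb_union hs hb with h1 | h1
  · exact h c hc b h1
  · exact h' c hc b h1

end Sets

variable {V Φ : Type} [DecidableEq V] [DecidableEq Φ]
variable {Q : QC V Φ} {F P K : Finset Φ} {ω : Φ → Bool} {a b c : V × V} {ψ ψ' : V × V → ℝ}
  {S : Finset (V × V)}

/-! ## Confined arcs -/

theorem vis_mate (ha : a ∈ bS Q F) :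
    Vis Q ω (F : Set Φ) (mate Q F ω a) = Vis Q ω (F : Set Φ) a := by
  have key : ∀ a ∈ bS Q F, Vis Q ω (F : Set Φ) a ⊆ Vis Q ω (F : Set Φ) (mate Q F ω a) := by
    intro a ha f hf
    obtain ⟨hfF, k, hk⟩ := hf
    have h1 := lst_spec (ω := ω) (mem_bS.mp ha).2
    have h2 : Nx Q ω (F : Set Φ) (sd Q f k) (sd Q f (mt (ω f) k)).swap :=
      nx_mt (by exact_mod_cast hfF) k
    have h3 : (sd Q f (mt (ω f) k)).swap ∈ Orb Q ω (F : Set Φ) a := Orb_step hk h2
    have hu : Relator.RightUnique (Nx Q ω (F : Set Φ)) := fun _ _ _ h h' => Nx.unique h h'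
    refine ⟨hfF, mt (ω f) k, ?_⟩
    show sd Q f (mt (ω f) k) ∈ Orb Q ω (F : Set Φ) (mate Q F ω a)
    rcases ReflTransGen.total_of_right_unique hu h3 h1.1 with h4 | h4
    · have := orb_rev (show lst Q F ω a ∈ Orb Q ω (F : Set Φ) (sd Q f (mt (ω f) k)).swap from h4)
      rwa [Prod.swap_swap] at this
    · rcases ReflTransGen.cases_head h4 with h5 | ⟨x, h5, -⟩
      · have h6 : sd Q f (mt (ω f) k) = mate Q F ω a := by
          unfold mate
          rw [h5, Prod.swap_swap]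
        rw [h6]
        exact mem_Orb_self
      · exact absurd h5 (ter_nx h1.2)
  refine Set.Subset.antisymm ?_ (key a ha)
  have h := key _ (mate_mem (ω := ω) ha)
  rwa [mate_mate ha] at h

theorem walk_orb {G : Set (V × V)} {n : ℕ} {t : ℤ} {F : Set Φ} (h : Walk Q ω F G n a b t) :
    b ∈ Orb Q ω F a := by
  induction h with
  | one h => exact ReflTransGen.single (nx_iff.mpr ⟨_, h⟩)
  | tail _ _ h' ih => exact Orb_step ih (nx_iff.mpr ⟨_, h'⟩)

theorem st_conf {t : ℤ} {F P : Set Φ} (hP : Vis Q ω F a ⊆ P) (hb : b ∈ Orb Q ω F a)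
    (h : St Q ω F b c t) : St Q ω P b c t := by
  obtain ⟨f, hf, k, h1, h2⟩ := h
  refine ⟨f, hP ⟨hf, k, ?_⟩, k, h1, h2⟩
  show sd Q f k ∈ _
  rw [← h1]
  exact hb

/-- a confined walk -/
theorem walk_conf {G : Set (V × V)} {n : ℕ} {t : ℤ} {F P : Set Φ} (hP : Vis Q ω F a ⊆ P)
    (h : Walk Q ω F G n a b t) : Walk Q ω P G n a b t := by
  induction h with
  | one h => exact Walk.one (st_conf hP mem_Orb_self h)
  | tail h hb h' ih => exact Walk.tail (ih hP) hb (st_conf hP (walk_orb h) h')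

/-- **Mate and turning of a confined arc.** -/
theorem conf_mate (hPF : P ⊆ F) (ha : a ∈ bS Q F) (hv : Vis Q ω (F : Set Φ) a ⊆ P) :
    a ∈ bS Q P ∧ mate Q P ω a = mate Q F ω a ∧ turn Q P ω a = turn Q F ω a := by
  have hsub : (P : Set Φ) ⊆ (F : Set Φ) := by exact_mod_cast hPF
  obtain ⟨f, hf, k, hk⟩ := bS_sd ha
  have hfP : f ∈ P := by
    have : f ∈ (P : Set Φ) := hv ⟨by exact_mod_cast hf, k, by rw [hk]; exact mem_Orb_self⟩
    exact_mod_cast this
  have h1 : a ∈ bS Q P := by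
    refine bS_anti hPF ha ?_
    rw [hk]
    exact sd_mem hfP k
  obtain ⟨n, hn⟩ := walk_mate (ω := ω) ha
  have h2 := (walk_conf hv hn).mate_turn (mem_bS.mp h1).2
    (Ter.anti hsub (ter_swap.mpr (mem_bS.mp (mate_mem ha)).2))
  rw [Prod.swap_swap] at h2
  exact ⟨h1, h2⟩

/-- **Weight of a confined arc.** -/
theorem conf_wt (hPF : P ⊆ F) (ha : a ∈ bS Q F) (hv : Vis Q ω (F : Set Φ) a ⊆ P)
    (h1 : ψ' a = ψ a) (h2 : ψ' (mate Q F ω a) = ψ (mate Q F ω a)) :
    wt Q P ω ψ' a = wt Q F ω ψ a := by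
  obtain ⟨-, h3, h4⟩ := conf_mate hPF ha hv
  unfold wt
  rw [h3, h4, h1, h2]

/-- The visited faces of a confined arc. -/
theorem vis_conf_eq {F P : Set Φ} (hPF : P ⊆ F) (hv : Vis Q ω F a ⊆ P) :
    Vis Q ω P a = Vis Q ω F a := by
  refine Set.Subset.antisymm (Vis_mono hPF) ?_
  have key : ∀ b ∈ Orb Q ω F a, b ∈ Orb Q ω P a := by
    intro b hb
    induction (show ReflTransGen (Nx Q ω F) a b from hb) with
    | refl => exact mem_Orb_self
    | tail hab hs ih =>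
      obtain ⟨f, hf, k, h1, h2⟩ := hs
      have h3 : f ∈ P := hv ⟨hf, k, by rw [← h1]; exact hab⟩
      exact Orb_step (ih hab) ⟨f, h3, k, h1, h2⟩
  intro f hf
  exact ⟨hv hf, hf.2.imp fun k hk => key _ hk⟩

/-! ## Products over the arcs of a set of sides -/

/-- Normalised product of the weights of the arcs with an end in `S`. -/
def aP (Q : QC V Φ) (F : Finset Φ) (ω : Φ → Bool) (ψ : V × V → ℝ) (S : Finset (V × V)) : ℝ :=
  ∏ p ∈ S.image (fun a => s(a, mate Q F ω a)), wA Q F ω ψ p / Real.sqrt 3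

/-- `S` is a set of boundary sides which contains the other ends of its arcs. -/
def MC (Q : QC V Φ) (F : Finset Φ) (ω : Φ → Bool) (S : Finset (V × V)) : Prop :=
  S ⊆ bS Q F ∧ ∀ a ∈ S, mate Q F ω a ∈ S

theorem mc_bS : MC Q F ω (bS Q F) := ⟨Finset.Subset.refl _, fun _ ha => mate_mem ha⟩

theorem MC.filter (h : MC Q F ω S) {p : V × V → Prop} [DecidablePred p]
    (hp : ∀ a ∈ S, p a → p (mate Q F ω a)) : MC Q F ω (S.filter p) := by
  refine ⟨(Finset.filter_subset _ _).trans h.1, fun a ha => ?_⟩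
  obtain ⟨h1, h2⟩ := Finset.mem_filter.mp ha
  exact Finset.mem_filter.mpr ⟨h.2 a h1, hp a h1 h2⟩

theorem aP_union {T : Finset (V × V)} (hS : MC Q F ω S) (hd : Disjoint S T) :
    aP Q F ω ψ (S ∪ T) = aP Q F ω ψ S * aP Q F ω ψ T := by
  unfold aP
  rw [Finset.image_union, Finset.prod_union]
  rw [Finset.disjoint_left]
  intro p hp hp'
  obtain ⟨a, ha, rfl⟩ := Finset.mem_image.mp hp
  obtain ⟨b, hb, hab⟩ := Finset.mem_image.mp hp'
  rw [Sym2.eq_iff] at hab
  rcases hab with ⟨h1, -⟩ | ⟨h1, -⟩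
  · exact Finset.disjoint_left.mp hd ha (h1 ▸ hb)
  · exact Finset.disjoint_left.mp hd (hS.2 a ha) (h1 ▸ hb)

theorem aP_nonneg (hS : S ⊆ bS Q F) (h : ∀ a ∈ S, 0 ≤ wt Q F ω ψ a) : 0 ≤ aP Q F ω ψ S := by
  unfold aP
  refine Finset.prod_nonneg fun p hp => ?_
  obtain ⟨a, ha, rfl⟩ := Finset.mem_image.mp hp
  rw [wA_eq ψ (hS ha)]
  exact div_nonneg (h a ha) (Real.sqrt_nonneg 3)

theorem aP_one (hS : S ⊆ bS Q F) (h : ∀ a ∈ S, wt Q F ω ψ a = Real.sqrt 3) :
    aP Q F ω ψ S = 1 := by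
  unfold aP
  refine Finset.prod_eq_one fun p hp => ?_
  obtain ⟨a, ha, rfl⟩ := Finset.mem_image.mp hp
  rw [wA_eq ψ (hS ha), h a ha]
  exact div_self (Real.sqrt_ne_zero'.mpr (by norm_num))

theorem aP_congr {F' : Finset Φ} (hS : S ⊆ bS Q F) (hS' : S ⊆ bS Q F')
    (h : ∀ a ∈ S, mate Q F' ω a = mate Q F ω a ∧ wt Q F' ω ψ' a = wt Q F ω ψ a) :
    aP Q F' ω ψ' S = aP Q F ω ψ S := by
  unfold aP
  have e : S.image (fun a => s(a, mate Q F' ω a)) = S.image (fun a => s(a, mate Q F ω a)) :=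
    Finset.image_congr fun a ha => by
      show s(a, mate Q F' ω a) = s(a, mate Q F ω a)
      rw [(h a (Finset.mem_coe.mp ha)).1]
  rw [e]
  refine Finset.prod_congr rfl fun p hp => ?_
  obtain ⟨a, ha, rfl⟩ := Finset.mem_image.mp hp
  rw [wA_eq ψ (hS ha), ← (h a ha).2, ← (h a ha).1, wA_eq ψ' (hS' ha)]

open Classical in
/-- The sides in `S` whose strand visits `K`. -/
def vS (Q : QC V Φ) (F : Finset Φ) (ω : Φ → Bool) (K : Finset Φ) (S : Finset (V × V)) :
    Finset (V × V) :=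
  S.filter fun a => ∃ f ∈ K, f ∈ Vis Q ω (F : Set Φ) a

theorem mem_vS : a ∈ vS Q F ω K S ↔ a ∈ S ∧ ∃ f ∈ K, f ∈ Vis Q ω (F : Set Φ) a := by
  classical
  unfold vS
  rw [Finset.mem_filter]

theorem mc_vS (h : MC Q F ω S) : MC Q F ω (vS Q F ω K S) := by
  classical
  unfold vS
  refine h.filter fun a ha hp => ?_
  rw [vis_mate (h.1 ha)]
  exact hp

theorem mc_nvS (h : MC Q F ω S) : MC Q F ω (S \ vS Q F ω K S) := by
  refine ⟨Finset.sdiff_subset.trans h.1, fun a ha => ?_⟩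
  obtain ⟨h1, h2⟩ := Finset.mem_sdiff.mp ha
  refine Finset.mem_sdiff.mpr ⟨h.2 a h1, fun h3 => h2 ?_⟩
  have h4 := (mc_vS (K := K) h).2 _ h3
  rwa [mate_mate (h.1 h1)] at h4

/-- Hypotheses on the core `K` of the piece `P` in `F`. -/
structure Core (Q : QC V Φ) (F P K : Finset Φ) (ω : Φ → Bool) : Prop where
  sub : K ⊆ P
  subF : P ⊆ F
  nox : NoX Q ω ((P : Set Φ) \ K) K ((F : Set Φ) \ P)

/-- The strands which visit the core. -/
theorem Core.conf (h : Core Q F P K ω) {f : Φ} (hf : f ∈ K) (hv : f ∈ Vis Q ω (F : Set Φ) a) :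
    Vis Q ω (F : Set Φ) a ⊆ P :=
  vis_conf h.nox (by exact_mod_cast h.sub) (by exact_mod_cast hf) hv

/-- The strands of the piece which visit the core have true ends. -/
theorem Core.ini (h : Core Q F P K ω) (ha : Ini Q (P : Set Φ) a) {f : Φ} (hf : f ∈ K)
    (hv : f ∈ Vis Q ω (P : Set Φ) a) : Ini Q (F : Set Φ) a := by
  intro g hg l hl
  have hgP : g ∉ (P : Set Φ) := fun h1 => ha g h1 l hl
  have h1 : Into Q ((F : Set Φ) \ P) a.swap := ⟨g, ⟨hg, hgP⟩, l, by rw [hl]; rfl⟩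
  obtain ⟨-, k, hk⟩ := hv
  refine (orb_conf h.nox.symm ?_ h1 hk).1 ⟨f, by exact_mod_cast hf, k, rfl⟩
  intro x hx
  by_cases h2 : x ∈ (K : Set Φ)
  · exact Or.inr h2
  · exact Or.inl (Or.inr ⟨hx, h2⟩)

theorem dE_sub' (hF : P ⊆ F) : dE Q P ⊆ dE Q F := by
  intro a ha
  obtain ⟨f, hf, k, h⟩ := mem_dE.mp ha
  exact mem_dE.mpr ⟨f, hF hf, k, h⟩

theorem Core.vS_eq (h : Core Q F P K ω) {S' : Finset (V × V)} (hS : S ⊆ bS Q F)
    (hS' : S' ⊆ bS Q P) (hSS : ∀ a ∈ bS Q F, a ∈ bS Q P →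
      (∃ f ∈ K, f ∈ Vis Q ω (F : Set Φ) a) → (a ∈ S ↔ a ∈ S')) :
    vS Q F ω K S = vS Q P ω K S' := by
  have hPF : (P : Set Φ) ⊆ (F : Set Φ) := by exact_mod_cast h.subF
  ext a
  rw [mem_vS, mem_vS]
  constructor
  · rintro ⟨h1, f, hf, hv⟩
    have h2 := h.conf hf hv
    have h3 := (conf_mate h.subF (hS h1) h2).1
    refine ⟨(hSS a (hS h1) h3 ⟨f, hf, hv⟩).mp h1, f, hf, ?_⟩
    rw [vis_conf_eq hPF h2]
    exact hv
  · rintro ⟨h1, f, hf, hv⟩
    have h2 := mem_bS.mp (hS' h1)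
    have h3 : a ∈ bS Q F := mem_bS.mpr ⟨dE_sub' h.subF h2.1, h.ini h2.2 hf hv⟩
    exact ⟨(hSS a h3 (hS' h1) ⟨f, hf, Vis_mono hPF hv⟩).mpr h1, f, hf, Vis_mono hPF hv⟩

/-- **The arcs which visit the core of one piece.** -/
theorem Core.aP_eq (h : Core Q F P K ω) {S' : Finset (V × V)} (hS : MC Q F ω S)
    (hS' : MC Q P ω S') (hSS : ∀ a ∈ bS Q F, a ∈ bS Q P →
      (∃ f ∈ K, f ∈ Vis Q ω (F : Set Φ) a) → (a ∈ S ↔ a ∈ S'))
    (hψ : ∀ a ∈ bS Q F, a ∈ bS Q P → ψ' a = ψ a)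
    (h1 : ∀ a ∈ S', (∀ f ∈ K, f ∉ Vis Q ω (P : Set Φ) a) → wt Q P ω ψ' a = Real.sqrt 3) :
    aP Q F ω ψ (vS Q F ω K S) = aP Q P ω ψ' S' := by
  have e1 := h.vS_eq hS.1 hS'.1 hSS
  have hvF : vS Q F ω K S ⊆ bS Q F := (mc_vS hS).1
  have hvP : vS Q F ω K S ⊆ bS Q P := by rw [e1]; exact (mc_vS hS').1
  have e2 : aP Q P ω ψ' (vS Q F ω K S) = aP Q F ω ψ (vS Q F ω K S) := by
    refine aP_congr hvF hvP fun a ha => ?_
    have ha' := ha
    obtain ⟨-, f, hf, hv⟩ := mem_vS.mp ha'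
    have h2 := h.conf hf hv
    have h3 := conf_mate h.subF (hvF ha) h2
    have hm := (mc_vS (K := K) hS).2 a ha
    exact ⟨h3.2.1, conf_wt h.subF (hvF ha) h2 (hψ a (hvF ha) (hvP ha)) (hψ _ (hvF hm) (hvP hm))⟩
  have e3 : S' = vS Q P ω K S' ∪ (S' \ vS Q P ω K S') := by
    rw [Finset.union_sdiff_of_subset]
    intro a ha
    exact (mem_vS.mp ha).1
  rw [← e2, e1, e3, aP_union (mc_vS hS') Finset.disjoint_sdiff, ← e3,
    aP_one (mc_nvS hS').1, mul_one]
  intro a ha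
  obtain ⟨h2, h3⟩ := Finset.mem_sdiff.mp ha
  exact h1 a h2 fun f hf hv => h3 (mem_vS.mpr ⟨h2, f, hf, hv⟩)

/-- **The product over the pieces.** -/
theorem aP_pieces {ι : Type} [DecidableEq ι] {P K : ι → Finset Φ} {ψ' : ι → V × V → ℝ}
    {S' : ι → Finset (V × V)} (I : Finset ι) :
    ∀ {S : Finset (V × V)}, MC Q F ω S → (∀ i ∈ I, Core Q F (P i) (K i) ω) →
      (∀ i ∈ I, ∀ j ∈ I, i ≠ j → Disjoint (P i) (K j)) →
      (∀ i ∈ I, MC Q (P i) ω (S' i)) →
      (∀ i ∈ I, ∀ a ∈ bS Q F, a ∈ bS Q (P i) → (∃ f ∈ K i, f ∈ Vis Q ω (F : Set Φ) a) →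
        (a ∈ S ↔ a ∈ S' i)) →
      (∀ i ∈ I, ∀ a ∈ bS Q F, a ∈ bS Q (P i) → ψ' i a = ψ a) →
      (∀ i ∈ I, ∀ a ∈ S' i, (∀ f ∈ K i, f ∉ Vis Q ω (P i : Set Φ) a) →
        wt Q (P i) ω (ψ' i) a = Real.sqrt 3) →
      (∀ a ∈ S, (∀ i ∈ I, ∀ f ∈ K i, f ∉ Vis Q ω (F : Set Φ) a) →
        wt Q F ω ψ a = Real.sqrt 3) →
      aP Q F ω ψ S = ∏ i ∈ I, aP Q (P i) ω (ψ' i) (S' i) := by
  induction I using Finset.induction_on with
  | empty =>
    intro S hS _ _ _ _ _ _ h1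
    rw [Finset.prod_empty]
    exact aP_one hS.1 fun a ha => h1 a ha fun i hi => absurd hi (Finset.notMem_empty i)
  | insert i I hi ih =>
    intro S hS hC hPK hS' hSS hψ h1 h2
    have hii := Finset.mem_insert_self i I
    have hC' : ∀ j ∈ I, Core Q F (P j) (K j) ω := fun j hj => hC j (Finset.mem_insert_of_mem hj)
    have e1 : S = vS Q F ω (K i) S ∪ (S \ vS Q F ω (K i) S) := by
      rw [Finset.union_sdiff_of_subset]
      intro a ha
      exact (mem_vS.mp ha).1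
    have e2 := (hC i hii).aP_eq hS (hS' i hii) (hSS i hii) (hψ i hii) (h1 i hii)
    have e3 := ih (mc_nvS (K := K i) hS) hC'
      (fun j hj l hl => hPK j (Finset.mem_insert_of_mem hj) l (Finset.mem_insert_of_mem hl))
      (fun j hj => hS' j (Finset.mem_insert_of_mem hj))
      (fun j hj a ha haP hv => ?_)
      (fun j hj => hψ j (Finset.mem_insert_of_mem hj))
      (fun j hj => h1 j (Finset.mem_insert_of_mem hj))
      (fun a ha hv => ?_)
    · rw [Finset.prod_insert hi, ← e2, ← e3, ← aP_union (mc_vS hS) Finset.disjoint_sdiff, ← e1]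
    · rw [← hSS j (Finset.mem_insert_of_mem hj) a ha haP hv, Finset.mem_sdiff]
      refine and_iff_left ?_
      intro h3
      obtain ⟨-, f, hf, hvf⟩ := mem_vS.mp h3
      obtain ⟨g, hg, hvg⟩ := hv
      have h4 : f ∈ (P j : Set Φ) := (hC' j hj).conf hg hvg hvf
      have hne : j ≠ i := fun h => hi (h ▸ hj)
      exact Finset.disjoint_left.mp (hPK j (Finset.mem_insert_of_mem hj) i hii hne)
        (by exact_mod_cast h4) hf
    · obtain ⟨h3, h4⟩ := Finset.mem_sdiff.mp ha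
      refine h2 a h3 fun l hl f hf hvf => ?_
      rcases Finset.mem_insert.mp hl with rfl | hl
      · exact h4 (mem_vS.mpr ⟨h3, f, hf, hvf⟩)
      · exact hv l hl f hf hvf

end

end Pool.Agent.SixB.Conf
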