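import Pool.Agent.Lib.SixB.S3PlaneE
import Pool.Agent.Lib.SixB.CylMom

/-!
# 6BD step 3: the cylinder sum of a surface which is the flat cylinder outside a box

`GlueC.limit`: `avc F Zs = r4 ^ (2 N) * xoC * (Zp + O(CP * thB ^ n))`, `1 / 2 ≤ xoC ≤ 2`, the factor `xoC`
depends only on the sizes.
-/

set_option autoImplicit false
set_option linter.unusedSectionVars false

namespace Pool.Agent.SixB.Rel

open Pool.Agent.Perc Pool.Agent.Perc.Q Relation Filter Topology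
open Pool.Agent.SixB hiding Zs_split dst_congr qt_congr dE_mono

noncomputable section

/-! ## The number of through strands under charts -/

section General

variable {V Φ V' Φ' : Type} [DecidableEq V] [DecidableEq Φ] [DecidableEq V'] [DecidableEq Φ']
variable {Q : QC V Φ} {Q' : QC V' Φ'} {F F' S R : Finset Φ} {ω : Φ → Bool} {ω' : Φ' → Bool}
  {a b : V × V} {P X Y : Finset (V × V)} {φ : V → V'} {ψ : Φ → Φ'} {r : ZMod 4}

theorem QMap.thr_map (H : QMap Q Q' F ω ω' φ ψ r) (hX : X ⊆ dE Q F) (hY : Y ⊆ dE Q F) :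
    thr Q' (F.image ψ) ω' (X.image (Prod.map φ φ)) (Y.image (Prod.map φ φ)) =
      (thr Q F ω X Y).image (Prod.map φ φ) := by
  ext t
  rw [mem_thr]
  constructor
  · rintro ⟨h1, a', ha', h2⟩
    obtain ⟨a, ha, rfl⟩ := Finset.mem_image.mp ha'
    obtain ⟨s, hs, h3⟩ := Finset.mem_image.mp h1
    obtain ⟨u, hu, h4⟩ := H.srel_inv (hX ha) h2
    refine Finset.mem_image.mpr ⟨u, mem_thr.mpr ⟨?_, a, ha, h4⟩, hu.symm⟩
    have hu2 : u ∈ dE Q F := by
      rcases srel_mem_dE h4 with h5 | h5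
      · exact h5 ▸ hX ha
      · exact h5.2
    have h5 : Prod.map φ φ s = Prod.map φ φ u.swap := by rw [h3, hu]; rfl
    rw [← H.inj_dE (hY hs) (swap_mem_dE.mpr hu2) h5]
    exact hs
  · intro h
    obtain ⟨u, hu, rfl⟩ := Finset.mem_image.mp h
    obtain ⟨h1, a, ha, h2⟩ := mem_thr.mp hu
    exact ⟨Finset.mem_image.mpr ⟨u.swap, h1, rfl⟩, _, Finset.mem_image_of_mem _ ha, H.srel h2⟩

theorem QMap.card_thr (H : QMap Q Q' F ω ω' φ ψ r) (hX : X ⊆ dE Q F) (hY : Y ⊆ dE Q F) :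
    (thr Q' (F.image ψ) ω' (X.image (Prod.map φ φ)) (Y.image (Prod.map φ φ))).card =
      (thr Q F ω X Y).card := by
  rw [H.thr_map hX hY, Finset.card_image_of_injOn]
  intro u hu v hv h
  have key : ∀ u ∈ thr Q F ω X Y, u ∈ dE Q F := by
    intro u hu
    have h1 := (mem_thr.mp hu).1
    rw [← Prod.swap_swap u]
    exact swap_mem_dE.mpr (hY h1)
  exact H.inj_dE (key u (by exact_mod_cast hu)) (key v (by exact_mod_cast hv)) h

theorem dep_thr (Eb Et : Finset (V × V)) :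
    Dep (F : Set Φ) (fun ω => c4 ^ (thr Q F ω Eb Et).card) := by
  intro ω ω' hω
  show c4 ^ (thr Q F ω Eb Et).card = c4 ^ (thr Q F ω' Eb Et).card
  rw [thr_congr fun f hf => hω f (by exact_mod_cast hf)]

variable {A R₁ B R₂ T : Finset Φ} {Eb Et Cut : Finset (V × V)}

theorem Dec.xout_le (H : Dec Q A R₁ B R₂ T P Eb Et Cut) :
    xout Q A R₁ B R₂ Eb Et ≤ av T (fun ω => c4 ^ (thr Q T ω Cut Et).card) := by
  set F := A ∪ R₁ ∪ (B ∪ R₂) with hF
  have hTF : T ⊆ F := H.T_sub.trans (Finset.subset_union_left.trans Finset.subset_union_right)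
  have hBF : B ∪ R₂ ⊆ F := Finset.subset_union_right
  unfold xout
  rw [← av_dep (S' := F) (dep_thr Cut Et) hTF, ← av_dep (S' := F) (S := B ∪ R₂) ?_ hBF]
  · refine av_mono fun S _ => ?_
    have c0 := c4_pos
    by_cases h2 : G2 Q A R₁ B R₂ (ind S)
    · rw [ic_of h2, mul_one, ← H.thr_eq h2]
      exact pow_le_pow_right₀ c4_ge H.thr_le
    · rw [ic_not h2, mul_zero]
      positivity
  · intro ω ω' hω
    have e1 : thr Q (B ∪ R₂) ω Eb Et = thr Q (B ∪ R₂) ω' Eb Et :=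
      thr_congr fun f hf => hω f (by exact_mod_cast hf)
    have e2 : G2 Q A R₁ B R₂ ω = G2 Q A R₁ B R₂ ω' :=
      dep_G2 ω ω' fun f hf => hω f (by
        have : f ∈ R₂ := by exact_mod_cast hf
        exact_mod_cast Finset.mem_union_right _ this)
    simp only [e1, e2]

theorem Dec.le_xout (_H : Dec Q A R₁ B R₂ T P Eb Et Cut) :
    1 - av R₂ (fun ω => ic (¬ G2 Q A R₁ B R₂ ω)) ≤
    xout Q A R₁ B R₂ Eb Et := by
  have e0 : (1 : ℝ) - av R₂ (fun ω => ic (¬ G2 Q A R₁ B R₂ ω)) =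
      av (B ∪ R₂) (fun ω => ic (G2 Q A R₁ B R₂ ω)) := by
    have h1 : Dep (R₂ : Set Φ) (fun ω => ic (¬ G2 Q A R₁ B R₂ ω)) := by
      intro ω ω' hω
      have e2 : G2 Q A R₁ B R₂ ω = G2 Q A R₁ B R₂ ω' := dep_G2 ω ω' hω
      simp only [e2]
    rw [← av_dep (S' := B ∪ R₂) h1 Finset.subset_union_right]
    have h2 : (fun ω => ic (G2 Q A R₁ B R₂ ω)) =
        fun ω => (1 : ℝ) + (-1) * ic (¬ G2 Q A R₁ B R₂ ω) := by
      funext ω
      by_cases h : G2 Q A R₁ B R₂ ω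
      · rw [ic_of h, ic_not (not_not.mpr h)]; ring
      · rw [ic_not h, ic_of h]; ring
    rw [h2, av_add, av_const, av_mul]
    ring
  rw [e0]
  unfold xout
  refine av_mono fun S _ => ?_
  have h1 : (1 : ℝ) ≤ c4 ^ (thr Q (B ∪ R₂) (ind S) Eb Et).card := one_le_pow₀ c4_ge
  have h2 := ic_nonneg (G2 Q A R₁ B R₂ (ind S))
  nlinarith

end General

/-! ## The cylinder -/

variable {N : ℕ} [hN : Fact (3 ≤ N)]

theorem pN_inj {L : ℤ} (hL : 2 * L < N) {u u' : ℤ × ℤ} (h1 : |u.1| ≤ L) (h2 : |u'.1| ≤ L)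
    (h : pN N u = pN N u') : u = u' := by
  obtain ⟨e1, e2⟩ := Prod.mk.inj h
  refine Prod.ext ?_ e2
  have e3 := (ZMod.intCast_eq_intCast_iff_dvd_sub _ _ _).mp e1
  rw [abs_le] at h1 h2
  obtain ⟨c, hc⟩ := e3
  have h3 : c = 0 := by
    by_contra hne
    rcases lt_or_gt_of_ne hne with h4 | h4
    · have : (N : ℤ) * c ≤ (N : ℤ) * (-1) := mul_le_mul_of_nonneg_left (by omega) (by positivity)
      omega
    · have : (N : ℤ) * 1 ≤ (N : ℤ) * c := mul_le_mul_of_nonneg_left (by omega) (by positivity)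
      omega
  rw [h3, mul_zero] at hc
  omega

theorem pN_chart {L : ℤ} (hL : 2 * L < N) :
    QChart ZQ (CQ N) (RFb (0, 0) L) (pN N) (pN N) 0 where
  inj f hf g hg k l h := pN_inj hL (cor0_le hf k).1 (cor0_le hg l).1 h
  cor f _ k := by
    rw [add_zero]
    exact corC_pN f k

theorem ann_image {M L₁ L₂ : ℤ} (h1 : L₁ ≤ L₂) (h2 : L₂ ≤ M) (h3 : 2 * L₂ < N) :
    (cylF N (-M) M ∩ bxC N L₂) \ bxC N L₁ = (RFb (0, 0) L₂ \ RFb (0, 0) L₁).image (pN N) := by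
  ext g
  rw [Finset.mem_sdiff, Finset.mem_inter, Finset.mem_image]
  constructor
  · rintro ⟨⟨_, h5⟩, h6⟩
    obtain ⟨u, hu, rfl⟩ := Finset.mem_image.mp h5
    exact ⟨u, Finset.mem_sdiff.mpr ⟨hu, fun h => h6 (Finset.mem_image_of_mem _ h)⟩, rfl⟩
  · rintro ⟨u, hu, rfl⟩
    obtain ⟨h4, h5⟩ := Finset.mem_sdiff.mp hu
    have h6 := mem_RF0.mp h4
    refine ⟨⟨?_, Finset.mem_image_of_mem _ h4⟩, fun h7 => ?_⟩
    · rw [mem_cylF]
      show -M ≤ u.2 ∧ u.2 < M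
      omega
    · obtain ⟨u', hu', e⟩ := Finset.mem_image.mp h7
      have h8 := mem_RF0.mp hu'
      have : u' = u := pN_inj h3 (by rw [abs_le]; omega) (by rw [abs_le]; omega) e
      rw [this] at hu'
      exact h5 hu'

/-- the factor of the outer part -/
def xoC (N : ℕ) [Fact (3 ≤ N)] (M L₁ L₂ : ℤ) : ℝ :=
  av (cylF N (-M) M \ bxC N L₁) (fun ω => c4 ^ (thr (CQ N) (cylF N (-M) M \ bxC N L₁) ω
    (botE N (-M)) (topE N M)).card * ic (Blk (CQ N) ((cylF N (-M) M ∩ bxC N L₂) \ bxC N L₁) ω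
      (dE (CQ N) (cylF N (-M) M \ bxC N L₂)) (dE (CQ N) (bxC N L₁))))

namespace GlueC

variable {V Φ : Type} [DecidableEq V] [DecidableEq Φ]
variable {M L : ℤ} {Q : QC V Φ} {A : Finset Φ} {φ : ZMod N × ℤ → V} {ψ : ZMod N × ℤ → Φ}
  {P : Finset (V × V)}

theorem planar (H : GlueC N M L Q A φ ψ P) {L₁ L₂ : ℤ} (h0 : L ≤ L₁) (h1 : L₁ ≤ L₂)
    (h2 : L₂ ≤ M) (h3 : 2 * L₂ < N) :
    QChart ZQ Q (RFb (0, 0) L₂ \ RFb (0, 0) L₁) (φ ∘ pN N) (ψ ∘ pN N) 0 := by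
  have h4 : (RFb (0, 0) L₂ \ RFb (0, 0) L₁).image (pN N) ⊆ cylF N (-M) M \ bxC N L := by
    rw [← ann_image h1 h2 h3]
    exact Finset.sdiff_subset_sdiff Finset.inter_subset_left (bxC_mono h0)
  have h5 := ((pN_chart h3).mono Finset.sdiff_subset).comp (H.chart.mono h4)
  rw [add_zero] at h5
  exact h5

/-- left ends in the core are in the box -/
theorem left_core (H : GlueC N M L Q A φ ψ P) {L₁ L₂ : ℤ} (h0 : L ≤ L₁) (h1 : L₁ ≤ L₂)
    (h2 : L₂ ≤ M) (h3 : 2 * L₂ < N) {b : (ℤ × ℤ) × (ℤ × ℤ)}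
    (hb : b ∈ dE ZQ (RFb (0, 0) L₂ \ RFb (0, 0) L₁))
    (h : Prod.map (φ ∘ pN N) (φ ∘ pN N) b ∈ dE Q A) : |b.1.1| ≤ L ∧ |b.1.2| ≤ L := by
  obtain ⟨⟨g, hg, l, e1⟩, -⟩ := dE_corner hb
  obtain ⟨⟨f, hf, k, e2⟩, -⟩ := dE_corner h
  have hg0 := (Finset.mem_sdiff.mp hg).1
  have h4 : pN N g ∈ cylF N (-M) M \ bxC N L := by
    have h5 : pN N g ∈ (RFb (0, 0) L₂ \ RFb (0, 0) L₁).image (pN N) :=
      Finset.mem_image_of_mem _ hg
    rw [← ann_image h1 h2 h3] at h5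
    exact Finset.sdiff_subset_sdiff Finset.inter_subset_left (bxC_mono h0) h5
  have e3 : (CQ N).c (pN N g) l = pN N b.1 := by
    rw [e1]
    exact corC_pN g l
  have h5 := H.nb f hf k _ h4 l (by rw [e3, ← e2]; rfl)
  rw [e3] at h5
  obtain ⟨u, hu1, hu2, hu⟩ := h5
  have h6 := (cor0_le hg0 l).1
  rw [← e1] at h6
  have h7 : b.1 = u := pN_inj h3 h6 (by omega) hu
  rw [h7]
  exact ⟨hu1, hu2⟩

/-- left ends in the outer part are outside the box -/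
theorem left_outer (H : GlueC N M L Q A φ ψ P) {L₁ L₂ : ℤ} (h0 : L ≤ L₁) (h1 : L₁ ≤ L₂)
    (h2 : L₂ ≤ M) (h3 : 2 * L₂ < N) {b : (ℤ × ℤ) × (ℤ × ℤ)}
    (hb : b ∈ dE ZQ (RFb (0, 0) L₂ \ RFb (0, 0) L₁))
    (h : Prod.map (φ ∘ pN N) (φ ∘ pN N) b ∈ dE Q ((cylF N (-M) M \ bxC N L₂).image ψ)) :
    L₂ ≤ |b.1.1| ∨ L₂ ≤ |b.1.2| := by
  have s2 : cylF N (-M) M \ bxC N L₂ ⊆ cylF N (-M) M \ bxC N L :=
    Finset.sdiff_subset_sdiff (Finset.Subset.refl _) (bxC_mono (h0.trans h1))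
  rw [H.chart.dE_map s2] at h
  obtain ⟨e, he, h4⟩ := Finset.mem_image.mp h
  have hsub : (RFb (0, 0) L₂ \ RFb (0, 0) L₁).image (pN N) ⊆ cylF N (-M) M \ bxC N L := by
    rw [← ann_image h1 h2 h3]
    exact Finset.sdiff_subset_sdiff Finset.inter_subset_left (bxC_mono h0)
  have hb2 : Prod.map (pN N) (pN N) b ∈ dE (CQ N) ((RFb (0, 0) L₂ \ RFb (0, 0) L₁).image (pN N)) := by
    rw [((pN_chart h3).mono Finset.sdiff_subset).dE_map (Finset.Subset.refl _)]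
    exact Finset.mem_image_of_mem _ hb
  have h5 : e = Prod.map (pN N) (pN N) b := H.chart.inj_dE (dE_mono s2 he) (dE_mono hsub hb2) h4
  subst h5
  obtain ⟨⟨g, hg, l, e1⟩, -⟩ := dE_corner he
  by_contra hcon
  push Not at hcon
  have h6 : (CQ N).c g l ∈ vb N (L₂ - 1) := by
    rw [← e1]
    exact ⟨b.1, by omega, by omega, rfl⟩
  exact (Finset.mem_sdiff.mp hg).2 (face_of_corner (by omega) h6)

/-- left ends in the core or in the first annulus are in the box -/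
theorem left_inner (H : GlueC N M L Q A φ ψ P) {L₁ L₂ : ℤ} (h0 : L ≤ L₁) (h1 : L₁ ≤ L₂)
    (h2 : L₂ ≤ M) (h3 : 2 * L₂ < N) {b : (ℤ × ℤ) × (ℤ × ℤ)}
    (hb : b ∈ dE ZQ (RFb (0, 0) L₂ \ RFb (0, 0) L₁))
    (h : Prod.map (φ ∘ pN N) (φ ∘ pN N) b ∈
      dE Q (A ∪ ((cylF N (-M) M ∩ bxC N L₁) \ bxC N L).image ψ)) :
    |b.1.1| ≤ L₁ ∧ |b.1.2| ≤ L₁ := by
  rw [dE_union'] at h
  rcases h with h | h
  · have h4 := H.left_core h0 h1 h2 h3 hb h
    omega
  · have s2 : (cylF N (-M) M ∩ bxC N L₁) \ bxC N L ⊆ cylF N (-M) M \ bxC N L :=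
      Finset.sdiff_subset_sdiff Finset.inter_subset_left (Finset.Subset.refl _)
    rw [H.chart.dE_map s2] at h
    obtain ⟨e, he, h4⟩ := Finset.mem_image.mp h
    have hsub : (RFb (0, 0) L₂ \ RFb (0, 0) L₁).image (pN N) ⊆ cylF N (-M) M \ bxC N L := by
      rw [← ann_image h1 h2 h3]
      exact Finset.sdiff_subset_sdiff Finset.inter_subset_left (bxC_mono h0)
    have hb2 : Prod.map (pN N) (pN N) b ∈
        dE (CQ N) ((RFb (0, 0) L₂ \ RFb (0, 0) L₁).image (pN N)) := by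
      rw [((pN_chart h3).mono Finset.sdiff_subset).dE_map (Finset.Subset.refl _)]
      exact Finset.mem_image_of_mem _ hb
    have h5 : e = Prod.map (pN N) (pN N) b :=
      H.chart.inj_dE (dE_mono s2 he) (dE_mono hsub hb2) h4
    subst h5
    obtain ⟨⟨g, hg, l, e1⟩, -⟩ := dE_corner he
    have h6 : pN N b.1 ∈ vb N L₁ := by
      have : pN N b.1 = (CQ N).c g l := e1
      rw [this]
      exact corner_bxC (Finset.mem_inter.mp (Finset.mem_sdiff.mp hg).1).2 l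
    obtain ⟨u, hu1, hu2, hu⟩ := h6
    obtain ⟨⟨g', hg', l', e2⟩, -⟩ := dE_corner hb
    have h7 := (cor0_le (Finset.mem_sdiff.mp hg').1 l').1
    rw [← e2] at h7
    have h8 : b.1 = u := pN_inj h3 h7 (by omega) hu
    rw [h8]
    exact ⟨hu1, hu2⟩

/-- **The first annulus blocks.** -/
theorem blk1 (H : GlueC N M L Q A φ ψ P) (hL : 0 < L) {n : ℕ} {L₂ : ℤ} (h1 : 4 ^ n * L ≤ L₂)
    (h2 : 4 ^ n * L ≤ M) (h3 : 2 * (4 ^ n * L) < N) :
    av (((cylF N (-M) M ∩ bxC N (4 ^ n * L)) \ bxC N L).image ψ)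
      (fun ω => ic (¬ G1 Q A (((cylF N (-M) M ∩ bxC N (4 ^ n * L)) \ bxC N L).image ψ)
        ((cylF N (-M) M \ bxC N L₂).image ψ)
          (((cylF N (-M) M ∩ bxC N L₂) \ bxC N (4 ^ n * L)).image ψ) ω)) ≤ 2 * thB ^ n := by
  have p0 : L ≤ 4 ^ n * L := by
    have : (1 : ℤ) ≤ 4 ^ n := one_le_pow₀ (by norm_num)
    nlinarith
  unfold G1
  rw [outer_eq h1, ann_image p0 h2 h3, Finset.image_image]
  have hX := H.planar le_rfl p0 h2 h3
  have e1 := av_blk_chart hX (dE Q A) (dE Q ((cylF N (-M) M \ bxC N (4 ^ n * L)).image ψ))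
  change av ((RFb (0, 0) (4 ^ n * L) \ RFb (0, 0) L).image (ψ ∘ pN N)) _ ≤ _
  rw [e1]
  apply blk_aZ hL
  · intro c hc
    obtain ⟨h4, h5⟩ := Finset.mem_filter.mp hc
    exact H.left_core le_rfl p0 h2 h3 h4 h5
  · intro d hd
    obtain ⟨h4, h5⟩ := Finset.mem_filter.mp hd
    exact H.left_outer le_rfl p0 h2 h3 h4 h5

/-- **The second annulus blocks.** -/
theorem blk2 (H : GlueC N M L Q A φ ψ P) {n : ℕ} {L₁ : ℤ} (hL : 0 < L₁) (h0 : L ≤ L₁)
    (h2 : 4 ^ n * L₁ ≤ M) (h3 : 2 * (4 ^ n * L₁) < N) :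
    av (((cylF N (-M) M ∩ bxC N (4 ^ n * L₁)) \ bxC N L₁).image ψ)
      (fun ω => ic (¬ G2 Q A (((cylF N (-M) M ∩ bxC N L₁) \ bxC N L).image ψ)
        ((cylF N (-M) M \ bxC N (4 ^ n * L₁)).image ψ)
          (((cylF N (-M) M ∩ bxC N (4 ^ n * L₁)) \ bxC N L₁).image ψ) ω)) ≤ 2 * thB ^ n := by
  have p0 : L₁ ≤ 4 ^ n * L₁ := by
    have : (1 : ℤ) ≤ 4 ^ n := one_le_pow₀ (by norm_num)
    nlinarith
  unfold G2
  rw [ann_image p0 h2 h3, Finset.image_image]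
  have hX := H.planar h0 p0 h2 h3
  have e1 := av_blk_chart hX (dE Q (A ∪ ((cylF N (-M) M ∩ bxC N L₁) \ bxC N L).image ψ))
    (dE Q ((cylF N (-M) M \ bxC N (4 ^ n * L₁)).image ψ))
  have e0 : (fun ω => ic (¬ Blk Q ((RFb (0, 0) (4 ^ n * L₁) \ RFb (0, 0) L₁).image (ψ ∘ pN N)) ω
      (dE Q ((cylF N (-M) M \ bxC N (4 ^ n * L₁)).image ψ))
      (dE Q (A ∪ ((cylF N (-M) M ∩ bxC N L₁) \ bxC N L).image ψ)))) =
      fun ω => ic (¬ Blk Q ((RFb (0, 0) (4 ^ n * L₁) \ RFb (0, 0) L₁).image (ψ ∘ pN N)) ω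
      (dE Q (A ∪ ((cylF N (-M) M ∩ bxC N L₁) \ bxC N L).image ψ))
      (dE Q ((cylF N (-M) M \ bxC N (4 ^ n * L₁)).image ψ))) := by
    funext ω
    exact ic_congr (not_congr blk_symm)
  change av ((RFb (0, 0) (4 ^ n * L₁) \ RFb (0, 0) L₁).image (ψ ∘ pN N)) _ ≤ _
  rw [e0, e1]
  apply blk_aZ hL
  · intro c hc
    obtain ⟨h4, h5⟩ := Finset.mem_filter.mp hc
    exact H.left_inner h0 p0 h2 h3 h4 h5
  · intro d hd
    obtain ⟨h4, h5⟩ := Finset.mem_filter.mp hd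
    exact H.left_outer h0 p0 h2 h3 h4 h5

theorem dE_inter_map {V' Φ' : Type} [DecidableEq V'] [DecidableEq Φ'] {Q' : QC V' Φ'}
    {F F₁ F₂ : Finset Φ} {φ : V → V'} {ψ : Φ → Φ'} {r : ZMod 4} (H : QChart Q Q' F φ ψ r)
    (h1 : F₁ ⊆ F) (h2 : F₂ ⊆ F) :
    dE Q' (F₁.image ψ) ∩ dE Q' (F₂.image ψ) = (dE Q F₁ ∩ dE Q F₂).image (Prod.map φ φ) := by
  rw [H.dE_map h1, H.dE_map h2]
  ext a
  rw [Finset.mem_inter]
  constructor
  · rintro ⟨h3, h4⟩
    obtain ⟨b, hb, rfl⟩ := Finset.mem_image.mp h3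
    obtain ⟨c, hc, e⟩ := Finset.mem_image.mp h4
    have h5 := H.inj_dE (dE_mono h2 hc) (dE_mono h1 hb) e
    rw [h5] at hc
    exact Finset.mem_image_of_mem _ (Finset.mem_inter.mpr ⟨hb, hc⟩)
  · intro h3
    obtain ⟨b, hb, rfl⟩ := Finset.mem_image.mp h3
    obtain ⟨h4, h5⟩ := Finset.mem_inter.mp hb
    exact ⟨Finset.mem_image_of_mem _ h4, Finset.mem_image_of_mem _ h5⟩

/-- the sides between the inner and the outer part of the cylinder -/
theorem inner_eq {M L L₁ L₂ : ℤ} (h1 : L < L₁) (h2 : L₁ ≤ M) :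
    dE (CQ N) ((cylF N (-M) M ∩ bxC N L₁) \ bxC N L) ∩
        dE (CQ N) ((cylF N (-M) M ∩ bxC N L₂) \ bxC N L₁) =
      dE (CQ N) (bxC N L₁) ∩ dE (CQ N) ((cylF N (-M) M ∩ bxC N L₂) \ bxC N L₁) := by
  ext a
  rw [Finset.mem_inter, Finset.mem_inter]
  constructor
  · rintro ⟨h3, h4⟩
    exact ⟨dE_mono (Finset.sdiff_subset.trans Finset.inter_subset_right) h3, h4⟩
  · rintro ⟨h3, h4⟩
    refine ⟨?_, h4⟩
    obtain ⟨f, hf, k, h5⟩ := mem_dE.mp h3
    by_cases h6 : f ∈ bxC N L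
    · exfalso
      obtain ⟨⟨g, hg, l, e1⟩, -⟩ := dE_corner h4
      have h7 : a.1 ∈ vb N L := by
        rcases h5 with h5 | h5
        · rw [h5]
          exact corner_bxC h6 k
        · rw [h5]
          exact corner_bxC h6 (k + 1)
      rw [e1] at h7
      exact (Finset.mem_sdiff.mp hg).2 (face_of_corner h1 h7)
    · exact mem_dE.mpr ⟨f, Finset.mem_sdiff.mpr ⟨Finset.mem_inter.mpr ⟨bxC_sub h2 hf, hf⟩, h6⟩, k, h5⟩

/-- The outer factor is universal. -/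
theorem xout_eq (H : GlueC N M L Q A φ ψ P) {L₁ L₂ : ℤ} (h0 : 0 ≤ L) (h1 : L < L₁) (h2 : L₁ ≤ L₂)
    (h4 : L₁ < M) :
    xout Q A (((cylF N (-M) M ∩ bxC N L₁) \ bxC N L).image ψ) ((cylF N (-M) M \ bxC N L₂).image ψ)
      (((cylF N (-M) M ∩ bxC N L₂) \ bxC N L₁).image ψ)
      ((botE N (-M)).image (Prod.map φ φ)) ((topE N M).image (Prod.map φ φ)) = xoC N M L₁ L₂ := by
  have s2 : (cylF N (-M) M ∩ bxC N L₂) \ bxC N L₁ ⊆ cylF N (-M) M \ bxC N L₁ :=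
    Finset.sdiff_subset_sdiff Finset.inter_subset_left (Finset.Subset.refl _)
  have s3 : cylF N (-M) M \ bxC N L₂ ⊆ cylF N (-M) M \ bxC N L₁ :=
    Finset.sdiff_subset_sdiff (Finset.Subset.refl _) (bxC_mono h2)
  have s4 : cylF N (-M) M \ bxC N L₁ ⊆ cylF N (-M) M \ bxC N L :=
    Finset.sdiff_subset_sdiff (Finset.Subset.refl _) (bxC_mono h1.le)
  have s1 : (cylF N (-M) M ∩ bxC N L₁) \ bxC N L ⊆ cylF N (-M) M \ bxC N L :=
    Finset.sdiff_subset_sdiff Finset.inter_subset_left (Finset.Subset.refl _)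
  have hX := H.chart.mono s4
  have hbot : botE N (-M) ⊆ dE (CQ N) (cylF N (-M) M \ bxC N L₁) := by
    intro a ha
    obtain ⟨x, rfl⟩ := mem_botE.mp ha
    refine sd_mem (Finset.mem_sdiff.mpr ⟨mem_cylF_mk.mpr ⟨le_rfl, by omega⟩, ?_⟩) 0
    intro h6
    obtain ⟨u, _, _, h7, _, h8⟩ := mem_bxC.mp h6
    have : -M = u.2 := congrArg (fun q : ZMod N × ℤ => q.2) h8
    omega
  have htop : topE N M ⊆ dE (CQ N) (cylF N (-M) M \ bxC N L₁) := by
    intro a ha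
    obtain ⟨x, rfl⟩ := mem_topE.mp ha
    have h5 : (x, M - 1) ∈ cylF N (-M) M \ bxC N L₁ := by
      refine Finset.mem_sdiff.mpr ⟨mem_cylF_mk.mpr ⟨by omega, by omega⟩, ?_⟩
      intro h6
      obtain ⟨u, _, _, _, h7, h8⟩ := mem_bxC.mp h6
      have : M - 1 = u.2 := congrArg (fun q : ZMod N × ℤ => q.2) h8
      omega
    have h6 := sd_mem (Q := CQ N) h5 2
    rw [← SixB.top_sd] at h6
    exact h6
  unfold xout xoC
  rw [outer_eq h2]
  refine av_map hX.injOn ?_ (!ev 0) ?_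
  · intro ω ω' hω
    have e1 : thr (CQ N) (cylF N (-M) M \ bxC N L₁) ω (botE N (-M)) (topE N M) =
        thr (CQ N) (cylF N (-M) M \ bxC N L₁) ω' (botE N (-M)) (topE N M) :=
      thr_congr fun f hf => hω f (by exact_mod_cast hf)
    have e2 : Blk (CQ N) ((cylF N (-M) M ∩ bxC N L₂) \ bxC N L₁) ω
        (dE (CQ N) (cylF N (-M) M \ bxC N L₂)) (dE (CQ N) (bxC N L₁)) =
        Blk (CQ N) ((cylF N (-M) M ∩ bxC N L₂) \ bxC N L₁) ω'
        (dE (CQ N) (cylF N (-M) M \ bxC N L₂)) (dE (CQ N) (bxC N L₁)) :=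
      propext (Blk.congr fun f hf => hω f (by exact_mod_cast s2 hf))
    simp only [e1, e2]
  · intro ω'
    have e0 : (fun f => xor (!ev 0) (ω' (ψ f))) = QChart.pull ψ 0 ω' := rfl
    rw [e0, (hX.toMap ω').card_thr hbot htop]
    congr 1
    apply ic_congr
    unfold G2
    rw [← blk_restrict, ← blk_restrict (C := dE (CQ N) (cylF N (-M) M \ bxC N L₂))]
    have ea : dE Q ((cylF N (-M) M \ bxC N L₂).image ψ) ∩
        dE Q (((cylF N (-M) M ∩ bxC N L₂) \ bxC N L₁).image ψ) =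
        (dE (CQ N) (cylF N (-M) M \ bxC N L₂) ∩
          dE (CQ N) ((cylF N (-M) M ∩ bxC N L₂) \ bxC N L₁)).image (Prod.map φ φ) :=
      dE_inter_map hX s3 s2
    have eb : dE Q (A ∪ ((cylF N (-M) M ∩ bxC N L₁) \ bxC N L).image ψ) ∩
        dE Q (((cylF N (-M) M ∩ bxC N L₂) \ bxC N L₁).image ψ) =
        (dE (CQ N) (bxC N L₁) ∩
          dE (CQ N) ((cylF N (-M) M ∩ bxC N L₂) \ bxC N L₁)).image (Prod.map φ φ) := by
      rw [← inner_eq h1 h4.le, ← dE_inter_map H.chart s1 (s2.trans s4)]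
      ext a
      rw [Finset.mem_inter, Finset.mem_inter, dE_union']
      constructor
      · rintro ⟨h5 | h5, h6⟩
        · exfalso
          have h7 := dE_mono (Finset.image_subset_image (f := ψ) s2) h6
          exact Finset.disjoint_left.mp (H.sep_core h1) h5 h7
        · exact ⟨h5, h6⟩
      · rintro ⟨h5, h6⟩
        exact ⟨Or.inr h5, h6⟩
    rw [ea, eb]
    exact hX.blk ω' s2 (Finset.inter_subset_left.trans (dE_mono s3))
      (Finset.inter_subset_right.trans (dE_mono s2))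

/-- through strands of the top section start at its bottom -/
theorem thr_cut {m M : ℤ} (hm : m < M) (ω : ZMod N × ℤ → Bool) :
    thr (CQ N) (cylF N m M) ω (botE N m ∪ topE N m) (topE N M) =
      thr (CQ N) (cylF N m M) ω (botE N m) (topE N M) := by
  ext t
  rw [mem_thr, mem_thr]
  refine and_congr_right fun h1 => ?_
  constructor
  · rintro ⟨a, ha, h2⟩
    rcases Finset.mem_union.mp ha with ha | ha
    · exact ⟨a, ha, h2⟩
    · exfalso
      obtain ⟨x, rfl⟩ := mem_topE.mp ha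
      obtain ⟨x', hx'⟩ := mem_topE.mp h1
      have ht : t = bE x' M := (Prod.swap_injective hx').symm
      subst ht
      have h3 := ter_uniq (bE_bot_ter (y₀ := m) (y₁ := M) x) (bE_top_ter (y₀ := m) (y₁ := M) x') h2
      have h4 : m = M := congrArg (fun q : (ZMod N × ℤ) × (ZMod N × ℤ) => q.1.2) h3
      omega
  · rintro ⟨a, ha, h2⟩
    exact ⟨a, Finset.mem_union_left _ ha, h2⟩

/-- the moment of the top section -/
theorem mom (H : GlueC N M L Q A φ ψ P) {m : ℤ} (h0 : 0 ≤ L) (h1 : L ≤ m) (hm : m < M)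
    (hmom : av (cylF N m M) (fun ω => c4 ^ (thr (CQ N) (cylF N m M) ω (botE N m)
      (topE N M)).card) ≤ 2) :
    av ((cylF N m M).image ψ) (fun ω => c4 ^ (thr Q ((cylF N m M).image ψ) ω
      ((botE N m ∪ topE N m).image (Prod.map φ φ)) ((topE N M).image (Prod.map φ φ))).card) ≤
      2 := by
  have sT : cylF N m M ⊆ cylF N (-M) M \ bxC N L := by
    intro g hg
    have h5 := mem_cylF.mp hg
    rw [Finset.mem_sdiff, mem_cylF]
    refine ⟨⟨by omega, h5.2⟩, ?_⟩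
    intro h6
    obtain ⟨u, _, _, _, h7, h8⟩ := mem_bxC.mp h6
    rw [h8] at h5
    have : m ≤ u.2 := h5.1
    omega
  have hX := H.chart.mono sT
  have hbot : botE N m ∪ topE N m ⊆ dE (CQ N) (cylF N m M) := by
    intro a ha
    rcases Finset.mem_union.mp ha with ha | ha
    · obtain ⟨x, rfl⟩ := mem_botE.mp ha
      exact bE_mem_bot hm x
    · obtain ⟨x, rfl⟩ := mem_topE.mp ha
      exact swap_mem_dE.mpr (bE_mem_bot hm x)
  have htop : topE N M ⊆ dE (CQ N) (cylF N m M) := by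
    intro a ha
    obtain ⟨x, rfl⟩ := mem_topE.mp ha
    exact swap_mem_dE.mpr (bE_mem_top hm x)
  refine le_trans (le_of_eq ?_) hmom
  refine av_map hX.injOn (dep_thr _ _) (!ev 0) ?_
  intro ω'
  have e0 : (fun f => xor (!ev 0) (ω' (ψ f))) = QChart.pull ψ 0 ω' := rfl
  rw [e0, (hX.toMap ω').card_thr hbot htop, thr_cut hm]

theorem card_botE (y : ℤ) : (botE N y).card = N := by
  unfold botE
  rw [Finset.card_image_of_injective _ (fun x x' h => (bE_inj h).1), Finset.card_univ, ZMod.card]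

theorem card_topE (y : ℤ) : (topE N y).card = N := by
  unfold topE
  rw [Finset.card_image_of_injective _ (fun x x' h => (bE_inj (Prod.swap_injective h)).1),
    Finset.card_univ, ZMod.card]

theorem card_ends (H : GlueC N M L Q A φ ψ P) (h0 : 0 ≤ L) (hM : L < M) :
    ((botE N (-M)).image (Prod.map φ φ) ∪ (topE N M).image (Prod.map φ φ)).card = 2 * N := by
  have hbot : ∀ a ∈ botE N (-M), a ∈ dE (CQ N) (cylF N (-M) M \ bxC N L) := by
    intro a ha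
    obtain ⟨x, rfl⟩ := mem_botE.mp ha
    refine sd_mem (Finset.mem_sdiff.mpr ⟨mem_cylF_mk.mpr ⟨le_rfl, by omega⟩, ?_⟩) 0
    intro h6
    obtain ⟨u, _, _, h7, _, h8⟩ := mem_bxC.mp h6
    have : -M = u.2 := congrArg (fun q : ZMod N × ℤ => q.2) h8
    omega
  have htop : ∀ a ∈ topE N M, a ∈ dE (CQ N) (cylF N (-M) M \ bxC N L) := by
    intro a ha
    obtain ⟨x, rfl⟩ := mem_topE.mp ha
    have h5 : (x, M - 1) ∈ cylF N (-M) M \ bxC N L := by
      refine Finset.mem_sdiff.mpr ⟨mem_cylF_mk.mpr ⟨by omega, by omega⟩, ?_⟩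
      intro h6
      obtain ⟨u, _, _, _, h7, h8⟩ := mem_bxC.mp h6
      have : M - 1 = u.2 := congrArg (fun q : ZMod N × ℤ => q.2) h8
      omega
    have h6 := sd_mem (Q := CQ N) h5 2
    rw [← SixB.top_sd] at h6
    exact h6
  have hdisj : Disjoint (botE N (-M)) (topE N M) := by
    rw [Finset.disjoint_left]
    intro a ha ha'
    obtain ⟨x, rfl⟩ := mem_botE.mp ha
    obtain ⟨x', hx'⟩ := mem_topE.mp ha'
    have : M = -M := congrArg (fun q : (ZMod N × ℤ) × (ZMod N × ℤ) => q.1.2) hx'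
    omega
  rw [← Finset.image_union, Finset.card_image_of_injOn, Finset.card_union_of_disjoint hdisj,
    card_botE, card_topE]
  · ring
  · have key : ∀ a ∈ botE N (-M) ∪ topE N M, a ∈ dE (CQ N) (cylF N (-M) M \ bxC N L) := by
      intro a ha
      rcases Finset.mem_union.mp ha with ha | ha
      · exact hbot a ha
      · exact htop a ha
    intro a ha b hb h
    exact H.chart.inj_dE (key a (by exact_mod_cast ha)) (key b (by exact_mod_cast hb)) h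

/-- **The cylinder sum.** -/
theorem sum_approx (hQ : NoLoop Q) (H : GlueC N M L Q A φ ψ P) (hL : 0 < L) {n : ℕ} (hn : 1 ≤ n)
    {m : ℤ} (h3 : 2 * (4 ^ n * (4 ^ n * L)) < N) (h4 : 4 ^ n * (4 ^ n * L) ≤ m) (hm : m < M)
    (hmom : av (cylF N m M) (fun ω => c4 ^ (thr (CQ N) (cylF N m M) ω (botE N m)
      (topE N M)).card) ≤ 2)
    (hT : ∀ ω, Turns Q (A ∪ (cylF N (-M) M \ bxC N L).image ψ) ω
      ((botE N (-M)).image (Prod.map φ φ)) ((topE N M).image (Prod.map φ φ)))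
    {h : V × V → ℂ} (hh : ∀ a, a ∉ P → a.swap ∉ P → h a = 1) :
    ‖avc (A ∪ (cylF N (-M) M \ bxC N L).image ψ)
        (fun ω => Zs Q (A ∪ (cylF N (-M) M \ bxC N L).image ψ) ω h) -
      ((r4 ^ (2 * N) * xoC N M (4 ^ n * L) (4 ^ n * (4 ^ n * L)) : ℝ) : ℂ) *
        zplO Q A ((aZ L n).image (ψ ∘ pN N)) ∅ h P‖ ≤ r4 ^ (2 * N) * (12 * CP h P * thB ^ n) ∧
      1 - 2 * thB ^ n ≤ xoC N M (4 ^ n * L) (4 ^ n * (4 ^ n * L)) ∧
      xoC N M (4 ^ n * L) (4 ^ n * (4 ^ n * L)) ≤ 2 := by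
  have q4 : (4 : ℤ) ^ 1 ≤ 4 ^ n := pow_le_pow_right₀ (by norm_num) hn
  set L₁ := 4 ^ n * L with hL₁
  set L₂ := 4 ^ n * L₁ with hL₂
  have p1 : L < L₁ := by nlinarith
  have p2 : L₁ < L₂ := by nlinarith
  have D := H.dec hL.le p1 p2 h4 hm
  have hb1 := H.blk1 (n := n) (L₂ := L₂) hL (by rw [← hL₁]; exact p2.le)
    (by rw [← hL₁]; omega) (by rw [← hL₁]; omega)
  have hb2 := H.blk2 (n := n) (L₁ := L₁) (by omega) p1.le (by rw [← hL₂]; omega)
    (by rw [← hL₂]; omega)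
  rw [← hL₁] at hb1
  rw [← hL₂] at hb2
  have hmm := H.mom (m := m) hL.le (by omega) hm hmom
  have ex := H.xout_eq (L₁ := L₁) (L₂ := L₂) hL.le p1 p2.le (by omega)
  have e1 := D.PL hQ (by rw [union_eq p1.le p2.le]; exact hT) hh
  rw [union_eq p1.le p2.le, H.card_ends hL.le (by omega), ex] at e1
  have hx2 := D.xout_le
  have hx1 := D.le_xout
  rw [ex] at hx2 hx1
  have hth := pow_pos thB_pos n
  have hc := CP_nonneg h P
  have hr : 0 < r4 ^ (2 * N) := pow_pos r4_pos _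
  have hxu : xoC N M L₁ L₂ ≤ 2 := hx2.trans hmm
  have hx0 : 0 ≤ xoC N M L₁ L₂ := by
    unfold xoC
    refine av_nonneg fun S _ => ?_
    exact mul_nonneg (pow_nonneg c4_pos.le _) (ic_nonneg _)
  refine ⟨?_, by linarith, hxu⟩
  -- replace the functional
  have e2 : ‖zpl Q A (((cylF N (-M) M ∩ bxC N L₁) \ bxC N L).image ψ)
      ((cylF N (-M) M \ bxC N L₂).image ψ)
      (((cylF N (-M) M ∩ bxC N L₂) \ bxC N L₁).image ψ) h P -
      zplO Q A ((aZ L n).image (ψ ∘ pN N)) ∅ h P‖ ≤ CP h P * (2 * thB ^ n) := by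
    have e3 : ((cylF N (-M) M ∩ bxC N L₁) \ bxC N L).image ψ = (aZ L n).image (ψ ∘ pN N) := by
      rw [ann_image p1.le (by omega) (by omega), Finset.image_image]
      rfl
    rw [zpl_eq, ← e3]
    refine (zplO_O hQ hh).trans ?_
    apply mul_le_mul_of_nonneg_left _ hc
    refine le_trans (le_of_eq ?_) hb1
    congr 1
    funext ω
    unfold G1
    rw [ic_congr (not_congr blk_inter)]
  have e4 : ∀ (X Z Z' : ℂ) (r x : ℝ) (E e E' : ℝ), 0 ≤ r → 0 ≤ x → x ≤ 2 →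
      ‖X - (r : ℂ) * (Z * (x : ℂ))‖ ≤ r * E → ‖Z - Z'‖ ≤ e → E + 2 * e ≤ E' → 0 ≤ e →
      ‖X - ((r * x : ℝ) : ℂ) * Z'‖ ≤ r * E' := by
    intro X Z Z' r x E e E' hr hx hx2 h1 h2 h3 he
    have h5 : X - ((r * x : ℝ) : ℂ) * Z' =
        (X - (r : ℂ) * (Z * (x : ℂ))) + ((r * x : ℝ) : ℂ) * (Z - Z') := by
      push_cast
      ring
    rw [h5]
    refine (norm_add_le _ _).trans ?_
    rw [norm_mul, Complex.norm_real, Real.norm_eq_abs, abs_of_nonneg (mul_nonneg hr hx)]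
    have h6 : r * x * ‖Z - Z'‖ ≤ r * 2 * e :=
      mul_le_mul (mul_le_mul_of_nonneg_left hx2 hr) h2 (norm_nonneg _) (by positivity)
    have h7 : r * (E + 2 * e) ≤ r * E' := mul_le_mul_of_nonneg_left h3 hr
    linarith
  have h8 : CP h P * (av ((cylF N m M).image ψ) (fun ω => c4 ^ (thr Q ((cylF N m M).image ψ) ω
      ((botE N m ∪ topE N m).image (Prod.map φ φ)) ((topE N M).image (Prod.map φ φ))).card) *
      (av (((cylF N (-M) M ∩ bxC N L₁) \ bxC N L).image ψ) (fun ω => ic (¬ G1 Q A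
        (((cylF N (-M) M ∩ bxC N L₁) \ bxC N L).image ψ) ((cylF N (-M) M \ bxC N L₂).image ψ)
        (((cylF N (-M) M ∩ bxC N L₂) \ bxC N L₁).image ψ) ω)) +
      av (((cylF N (-M) M ∩ bxC N L₂) \ bxC N L₁).image ψ) (fun ω => ic (¬ G2 Q A
        (((cylF N (-M) M ∩ bxC N L₁) \ bxC N L).image ψ) ((cylF N (-M) M \ bxC N L₂).image ψ)
        (((cylF N (-M) M ∩ bxC N L₂) \ bxC N L₁).image ψ) ω)))) ≤
      CP h P * (2 * (2 * thB ^ n + 2 * thB ^ n)) := by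
    apply mul_le_mul_of_nonneg_left _ hc
    apply mul_le_mul hmm (add_le_add hb1 hb2) _ (by norm_num)
    apply add_nonneg <;> exact av_nonneg fun S _ => ic_nonneg _
  refine e4 _ _ _ _ _ _ _ _ hr.le hx0 hxu (e1.trans (mul_le_mul_of_nonneg_left h8 hr.le)) e2 ?_
    (by positivity)
  exact le_of_eq (by ring)

/-- the pure cylinder -/
theorem pure {M L : ℤ} (h0 : 0 ≤ L) (h1 : L < M) : GlueC N M L (CQ N) (bxC N L) id id ∅ where
  chart := ⟨fun _ _ _ _ _ _ h => h, fun _ _ k => by rw [add_zero]; rfl⟩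
  dj g hg := (Finset.mem_sdiff.mp hg).2
  nb f hf k g _ l h := by
    have h2 : (CQ N).c g l = (CQ N).c f k := h.symm
    rw [h2]
    exact corner_bxC hf k
  P_sub := Finset.empty_subset _
  bnd a ha := by
    have e : bxC N L ∪ (cylF N (-M) M \ bxC N L).image id = cylF N (-M) M := by
      rw [Finset.image_id]
      exact Finset.union_sdiff_of_subset (bxC_sub h1.le)
    rw [e] at ha
    have h2 := (cyl_flat (N := N) (show -M < M by omega)).all a ha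
    rcases h2 with h2 | h2 | h2 | h2
    · left
      rw [Prod.map_id, Finset.image_id]
      exact h2
    · right; left
      rw [Prod.map_id, Finset.image_id]
      exact h2
    · exact absurd h2 (Finset.notMem_empty _)
    · exact absurd h2 (Finset.notMem_empty _)

theorem xoC_bounds {M L : ℤ} (hL : 0 < L) {n : ℕ} (hn : 1 ≤ n)
    {m : ℤ} (h3 : 2 * (4 ^ n * (4 ^ n * L)) < N) (h4 : 4 ^ n * (4 ^ n * L) ≤ m) (hm : m < M)
    (hmom : av (cylF N m M) (fun ω => c4 ^ (thr (CQ N) (cylF N m M) ω (botE N m)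
      (topE N M)).card) ≤ 2) (hodd : Odd N) :
    1 - 2 * thB ^ n ≤ xoC N M (4 ^ n * L) (4 ^ n * (4 ^ n * L)) ∧
      xoC N M (4 ^ n * L) (4 ^ n * (4 ^ n * L)) ≤ 2 := by
  have q4 : (1 : ℤ) ≤ 4 ^ n := one_le_pow₀ (by norm_num)
  have p1 : L ≤ 4 ^ n * L := by nlinarith
  have p2 : 4 ^ n * L ≤ 4 ^ n * (4 ^ n * L) := by nlinarith
  have H := pure (N := N) hL.le (show L < M by omega)
  refine (H.sum_approx noLoop_CQ hL hn h3 h4 hm hmom (h := fun _ => 1) ?_ (fun _ _ _ => rfl)).2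
  intro ω
  have e : bxC N L ∪ (cylF N (-M) M \ bxC N L).image id = cylF N (-M) M := by
    rw [Finset.image_id]
    exact Finset.union_sdiff_of_subset (bxC_sub (by omega))
  rw [e, Prod.map_id, Finset.image_id, Finset.image_id]
  exact cyl_turns hodd (by omega) ω

end GlueC

/-! ## Covering of the plane surface -/

section Cov

variable {V Φ V' Φ' : Type} [DecidableEq V] [DecidableEq Φ] [DecidableEq V'] [DecidableEq Φ']

/-- The cylinder surface looks like the plane surface in the window of radius `4 ^ n * L`. -/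
structure Cov (n : ℕ) (L : ℤ) (N : ℕ) (Q : QC V Φ) (A : Finset Φ) (ψ : ℤ × ℤ → Φ)
    (h : V × V → ℂ) (P : Finset (V × V)) (Q' : QC V' Φ') (A' : Finset Φ')
    (ψ' : ZMod N × ℤ → Φ') (h' : V' × V' → ℂ) (P' : Finset (V' × V')) (χv : V → V')
    (χf : Φ → Φ') (r : ZMod 4) : Prop where
  chart : QChart Q Q' (A ∪ (aZ L n).image ψ) χv χf r
  core : A.image χf = A'
  ann : ((aZ L n).image ψ).image χf = (aZ L n).image (ψ' ∘ pN N)
  eP : P.image (Prod.map χv χv) = P'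
  eh : ∀ a ∈ dE Q (A ∪ (aZ L n).image ψ), h' (Prod.map χv χv a) = h a

variable {n : ℕ} {L : ℤ} {Q : QC V Φ} {A : Finset Φ} {φ : ℤ × ℤ → V} {ψ : ℤ × ℤ → Φ}
    {h : V × V → ℂ} {P : Finset (V × V)} {Q' : QC V' Φ'} {A' : Finset Φ'}
    {φ' : ZMod N × ℤ → V'} {ψ' : ZMod N × ℤ → Φ'} {h' : V' × V' → ℂ} {P' : Finset (V' × V')}
    {χv : V → V'} {χf : Φ → Φ'} {r : ZMod 4} {M : ℤ}

theorem Cov.zn_eq (H : Cov n L N Q A ψ h P Q' A' ψ' h' P' χv χf r) (hP : P ⊆ dE Q A) :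
    zplO Q' A' ((aZ L n).image (ψ' ∘ pN N)) ∅ h' P' = zn L Q A ψ h P n := by
  unfold zn
  rw [← H.core, ← H.ann, ← H.eP,
    ← zplO_map H.chart (O := ∅) (Finset.empty_subset _) H.eh
      (hP.trans (dE_mono Finset.subset_union_left)), Finset.image_empty]

/-- **The limit theorem, one cylinder.** -/
theorem Cov.limit (hQ : NoLoop Q) (hQ' : NoLoop Q') (HZ : GlueZ L Q A φ ψ P)
    (H : GlueC N M L Q' A' φ' ψ' P') (C : Cov n L N Q A ψ h P Q' A' ψ' h' P' χv χf r)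
    (hL : 0 < L) (hn : 1 ≤ n) {m : ℤ} (h3 : 2 * (4 ^ n * (4 ^ n * L)) < N)
    (h4 : 4 ^ n * (4 ^ n * L) ≤ m) (hm : m < M)
    (hmom : av (cylF N m M) (fun ω => c4 ^ (thr (CQ N) (cylF N m M) ω (botE N m)
      (topE N M)).card) ≤ 2)
    (hT : ∀ ω, Turns Q' (A' ∪ (cylF N (-M) M \ bxC N L).image ψ') ω
      ((botE N (-M)).image (Prod.map φ' φ')) ((topE N M).image (Prod.map φ' φ')))
    (hh : ∀ a, a ∉ P → a.swap ∉ P → h a = 1) (hh' : ∀ a, a ∉ P' → a.swap ∉ P' → h' a = 1)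
    {K : ℝ} (hK : CP h P ≤ K) (hK' : CP h' P' ≤ K) :
    ‖avc (A' ∪ (cylF N (-M) M \ bxC N L).image ψ')
        (fun ω => Zs Q' (A' ∪ (cylF N (-M) M \ bxC N L).image ψ') ω h') -
      ((r4 ^ (2 * N) * xoC N M (4 ^ n * L) (4 ^ n * (4 ^ n * L)) : ℝ) : ℂ) *
        Zp L Q A ψ h P‖ ≤ r4 ^ (2 * N) * (20 * K * thB ^ n) := by
  obtain ⟨e1, -, hx⟩ := H.sum_approx hQ' hL hn h3 h4 hm hmom hT hh'
  rw [C.zn_eq HZ.P_sub] at e1
  have e2 := HZ.zn_Zp hQ hL hh hn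
  have hr : 0 < r4 ^ (2 * N) := pow_pos r4_pos _
  have hth := pow_pos thB_pos n
  have hx0 : 0 ≤ xoC N M (4 ^ n * L) (4 ^ n * (4 ^ n * L)) := by
    unfold xoC
    refine av_nonneg fun S _ => ?_
    exact mul_nonneg (pow_nonneg c4_pos.le _) (ic_nonneg _)
  set X := avc (A' ∪ (cylF N (-M) M \ bxC N L).image ψ')
        (fun ω => Zs Q' (A' ∪ (cylF N (-M) M \ bxC N L).image ψ') ω h') with hX
  set x := xoC N M (4 ^ n * L) (4 ^ n * (4 ^ n * L)) with hxd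
  set R := r4 ^ (2 * N) with hR
  have h5 : X - ((R * x : ℝ) : ℂ) * Zp L Q A ψ h P =
      (X - ((R * x : ℝ) : ℂ) * zn L Q A ψ h P n) -
        ((R * x : ℝ) : ℂ) * (Zp L Q A ψ h P - zn L Q A ψ h P n) := by ring
  rw [h5]
  refine (norm_sub_le _ _).trans ?_
  rw [norm_mul, Complex.norm_real, Real.norm_eq_abs, abs_of_nonneg (mul_nonneg hr.le hx0)]
  have h6 : R * x * ‖Zp L Q A ψ h P - zn L Q A ψ h P n‖ ≤ R * 2 * (4 * K * thB ^ n) := by
    apply mul_le_mul (mul_le_mul_of_nonneg_left hx hr.le) _ (norm_nonneg _) (by positivity)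
    refine e2.trans ?_
    apply mul_le_mul_of_nonneg_right _ hth.le
    linarith
  have h7 : R * (12 * CP h' P' * thB ^ n) ≤ R * (12 * K * thB ^ n) := by
    apply mul_le_mul_of_nonneg_left _ hr.le
    apply mul_le_mul_of_nonneg_right _ hth.le
    linarith
  calc _ ≤ R * (12 * CP h' P' * thB ^ n) + R * 2 * (4 * K * thB ^ n) := add_le_add e1 h6
    _ ≤ R * (12 * K * thB ^ n) + R * 2 * (4 * K * thB ^ n) := by linarith
    _ = R * (20 * K * thB ^ n) := by ring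

end Cov

/-- **The limit theorem for cylinders.**  The window and the factor `xoC` do not depend on the surface. -/
theorem cyl_limit {L : ℤ} (hL : 0 < L) {K ε : ℝ} (hε : 0 < ε) :
    ∃ n : ℕ, 1 ≤ n ∧ ∀ (N : ℕ) [Fact (3 ≤ N)], Odd N → 2 * (4 ^ n * (4 ^ n * L)) < N →
      ∃ M₀ : ℤ, L ≤ M₀ ∧ ∀ M, M₀ ≤ M → 1 / 2 ≤ xoC N M (4 ^ n * L) (4 ^ n * (4 ^ n * L)) ∧
        xoC N M (4 ^ n * L) (4 ^ n * (4 ^ n * L)) ≤ 2 ∧
        ∀ (V Φ V' Φ' : Type) [DecidableEq V] [DecidableEq Φ] [DecidableEq V'] [DecidableEq Φ']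
          (Q : QC V Φ) (A : Finset Φ) (φ : ℤ × ℤ → V) (ψ : ℤ × ℤ → Φ) (h : V × V → ℂ)
          (P : Finset (V × V)) (Q' : QC V' Φ') (A' : Finset Φ') (φ' : ZMod N × ℤ → V')
          (ψ' : ZMod N × ℤ → Φ') (h' : V' × V' → ℂ) (P' : Finset (V' × V')) (χv : V → V')
          (χf : Φ → Φ') (r : ZMod 4), NoLoop Q → NoLoop Q' → GlueZ L Q A φ ψ P →
          GlueC N M L Q' A' φ' ψ' P' → Cov n L N Q A ψ h P Q' A' ψ' h' P' χv χf r →
          (∀ ω, Turns Q' (A' ∪ (cylF N (-M) M \ bxC N L).image ψ') ω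
            ((botE N (-M)).image (Prod.map φ' φ')) ((topE N M).image (Prod.map φ' φ'))) →
          (∀ a, a ∉ P → a.swap ∉ P → h a = 1) → (∀ a, a ∉ P' → a.swap ∉ P' → h' a = 1) →
          CP h P ≤ K → CP h' P' ≤ K →
          ‖avc (A' ∪ (cylF N (-M) M \ bxC N L).image ψ')
              (fun ω => Zs Q' (A' ∪ (cylF N (-M) M \ bxC N L).image ψ') ω h') -
            ((r4 ^ (2 * N) * xoC N M (4 ^ n * L) (4 ^ n * (4 ^ n * L)) : ℝ) : ℂ) *
              Zp L Q A ψ h P‖ ≤ r4 ^ (2 * N) * ε := by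
  have ht : Tendsto (fun n : ℕ => 20 * |K| * thB ^ n) atTop (𝓝 0) := by
    have h1 := tendsto_pow_atTop_nhds_zero_of_lt_one thB_pos.le thB_lt
    simpa using h1.const_mul (20 * |K|)
  have ht2 : Tendsto (fun n : ℕ => 2 * thB ^ n) atTop (𝓝 0) := by
    have h1 := tendsto_pow_atTop_nhds_zero_of_lt_one thB_pos.le thB_lt
    simpa using h1.const_mul 2
  obtain ⟨n, ⟨hn1, hn2⟩, hn3⟩ := ((ht.eventually (gt_mem_nhds hε)).and
    (ht2.eventually (gt_mem_nhds (show (0 : ℝ) < 1 / 2 by norm_num))) |>.and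
      (eventually_ge_atTop 1)).exists
  refine ⟨n, hn3, ?_⟩
  intro N _ hodd hN
  obtain ⟨M₁, hM₁, hmom⟩ := thr_moment (N := N) hodd
  have q4 : (1 : ℤ) ≤ 4 ^ n := one_le_pow₀ (by norm_num)
  have p1 : L ≤ 4 ^ n * L := by nlinarith
  have p2 : 4 ^ n * L ≤ 4 ^ n * (4 ^ n * L) := by nlinarith
  refine ⟨4 ^ n * (4 ^ n * L) + M₁, by omega, fun M hM => ?_⟩
  have hm := hmom (4 ^ n * (4 ^ n * L)) M (by omega)
  have hb := GlueC.xoC_bounds hL hn3 hN le_rfl (show 4 ^ n * (4 ^ n * L) < M by omega) hm hodd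
  refine ⟨by linarith, hb.2, ?_⟩
  intro V Φ V' Φ' _ _ _ _ Q A φ ψ h P Q' A' φ' ψ' h' P' χv χf r hQ hQ' HZ H C hT hh hh' hK hK'
  refine (C.limit hQ hQ' HZ H hL hn3 hN le_rfl (by omega) hm hT hh hh'
    (hK.trans (le_abs_self K)) (hK'.trans (le_abs_self K))).trans ?_
  exact mul_le_mul_of_nonneg_left hn1.le (pow_pos r4_pos _).le


end

end Pool.Agent.SixB.Rel
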