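import Pool.Agent.Lib.SixB.S3DblS
import Pool.Agent.Lib.SixB.S3PlaneF

/-!
# 6BD: the double of a half of a cylinder surface is a cylinder surface

* `ptf_cyl`, `qtf_bxC`, `ptf_out'`: doubled coordinates on the cylinder.
* `faces_dbl`: the faces of the doubled surface = two copies of the faces of the half.
* `glueC_dbl`: `GlueC` for the double of a half; `wC_eq`: the faces `wC` of its core as images of `wZ`.
-/

set_option autoImplicit false
set_option linter.unusedSectionVars false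

namespace Pool.Agent.SixB.Dbl

open Pool.Agent.Perc Pool.Agent.Perc.Q Relation
open Pool.Agent.SixB.Rel (QChart GlueC bxC vb mem_bxC bxC_mono bxC_sub corner_bxC botE topE mem_botE
  mem_topE mem_RF0 pN_inj)

noncomputable section

variable {V Φ : Type} [DecidableEq V] [DecidableEq Φ] {ι : Type} {N : ℕ} [Fact (3 ≤ N)]
  {up : Bool} {g₀ L L' M : ℤ} {Q : QC V Φ} {A : Finset Φ} {φ : ZMod N × ℤ → V}
  {ψ : ZMod N × ℤ → Φ} {S S' : Set Φ} {m : ι → V × V} {P : Finset (V × V)}

/-- the half height of the doubled cylinder -/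
def dM (up : Bool) (M g₀ : ℤ) : ℤ := if up = true then M - g₀ else M + g₀

theorem ptf_cyl (h : |g₀| ≤ M) {g : ZMod N × ℤ} :
    ptf up g₀ g ∈ cylF N (-M) M ↔ g ∈ cylF N (-(dM up M g₀)) (dM up M g₀) := by
  rw [abs_le] at h
  rw [mem_cylF, mem_cylF]
  unfold ptf htf cc dM
  cases up <;> simp <;> split_ifs <;> omega

theorem qtf_bxC (hL : L + |g₀| ≤ L') {g : ZMod N × ℤ} (h : g ∈ bxC N L) (b : Bool) :
    qtf g₀ b g ∈ bxC N L' := by
  obtain ⟨u, h1, h2, h3, h4, rfl⟩ := mem_bxC.mp h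
  have h5 := abs_le.mp (le_refl |g₀|)
  have h6 := abs_nonneg g₀
  refine mem_bxC.mpr ⟨qtf g₀ b u, ?_, ?_, ?_, ?_, rfl⟩
  · show -L' ≤ u.1
    omega
  · show u.1 < L'
    omega
  · show -L' ≤ (if b = true then g₀ - 1 - u.2 else u.2 - g₀)
    split_ifs <;> omega
  · show (if b = true then g₀ - 1 - u.2 else u.2 - g₀) < L'
    split_ifs <;> omega

theorem ptf_bxC (hL : L + |g₀| ≤ L') {g : ZMod N × ℤ} (h : g ∉ bxC N L') :
    ptf up g₀ g ∉ bxC N L := by
  intro h1
  apply h
  rw [← qtf_ptf up g₀ g]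
  exact qtf_bxC hL h1 _

open Classical in
/-- the faces of the doubled box outside the box -/
def wC (N : ℕ) [Fact (3 ≤ N)] (up : Bool) (g₀ L L' : ℤ) : Finset (ZMod N × ℤ) :=
  (bxC N L').filter fun g => ptf up g₀ g ∉ bxC N L

theorem mem_wC {g : ZMod N × ℤ} : g ∈ wC N up g₀ L L' ↔ g ∈ bxC N L' ∧ ptf up g₀ g ∉ bxC N L := by
  classical
  unfold wC
  rw [Finset.mem_filter]

theorem exists_cylF (g : ZMod N × ℤ) (M₀ : ℤ) : ∃ M, M₀ < M ∧ g ∈ cylF N (-M) M := by
  refine ⟨|g.2| + |M₀| + 1, ?_, ?_⟩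
  · have := abs_nonneg g.2
    have := le_abs_self M₀
    omega
  · rw [mem_cylF]
    have h2 := abs_le.mp (le_refl |g.2|)
    have h5 := abs_nonneg M₀
    omega

/-- the face chart is injective outside the box -/
theorem psi_injC (HG : ∀ M, L < M → GlueC N M L Q A φ ψ P) {g g' : ZMod N × ℤ}
    (hg : g ∉ bxC N L) (hg' : g' ∉ bxC N L) (h : ψ g = ψ g') : g = g' := by
  obtain ⟨M₁, hM₁, h1⟩ := exists_cylF g L
  obtain ⟨M₂, hM₂, h2⟩ := exists_cylF g' M₁
  have h1' : g ∈ cylF N (-M₂) M₂ := by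
    rw [mem_cylF] at h1 ⊢
    omega
  exact (HG M₂ (by omega)).chart.injOn (Finset.mem_coe.mpr (Finset.mem_sdiff.mpr ⟨h1', hg⟩))
    (Finset.mem_coe.mpr (Finset.mem_sdiff.mpr ⟨h2, hg'⟩)) h

theorem psi_djC (HG : ∀ M, L < M → GlueC N M L Q A φ ψ P) {g : ZMod N × ℤ}
    (hg : g ∉ bxC N L) : ψ g ∉ A := by
  obtain ⟨M₁, hM₁, h1⟩ := exists_cylF g L
  exact (HG M₁ hM₁).dj g (Finset.mem_sdiff.mpr ⟨h1, hg⟩)

/-- a face of the half outside the core -/
theorem inH_ofC (HG : ∀ M, L < M → GlueC N M L Q A φ ψ P)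
    (H : HalfS up g₀ (CQ N) {g | g ∉ bxC N L} Q A φ ψ S m) {g : ZMod N × ℤ}
    (hg : g ∉ bxC N L) (h : ψ g ∈ S) : inH up g₀ g := by
  rcases H.mem _ h with h1 | ⟨g', hg', h1, h2⟩
  · exact absurd h1 (psi_djC HG hg)
  · rw [psi_injC HG hg hg' h2]
    exact h1

/-- **The faces of the doubled surface.** -/
theorem faces_dbl (HG : ∀ M, L < M → GlueC N M L Q A φ ψ P)
    (H : HalfS up g₀ (CQ N) {g | g ∉ bxC N L} Q A φ ψ S m) (hL : L + |g₀| ≤ L')
    (hM : L' + |g₀| ≤ M) (hL0 : 0 ≤ L) :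
    cor2 up g₀ A S ψ (wC N up g₀ L L') ∪
        (cylF N (-(dM up M g₀)) (dM up M g₀) \ bxC N L').image (dblψ up g₀ ψ) =
      cpy (corS (A ∪ (cylF N (-M) M \ bxC N L).image ψ) S) false ∪
        cpy (corS (A ∪ (cylF N (-M) M \ bxC N L).image ψ) S) true := by
  have hg0 := abs_nonneg g₀
  have hgM : |g₀| ≤ M := by omega
  ext ⟨f, b⟩
  rw [Finset.mem_union, mem_cor2, Finset.mem_image, Finset.mem_union, mem_cpy, mem_cpy, mem_corS,
    Finset.mem_union, Finset.mem_image]
  have hb : (∀ X : Prop, (X ∧ b = false) ∨ (X ∧ b = true) ↔ X) := by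
    intro X
    cases b <;> simp
  rw [hb]
  constructor
  · rintro ((⟨h1, h2⟩ | ⟨g, hg, h1⟩) | ⟨g, hg, h1⟩)
    · exact ⟨Or.inl h1, h2⟩
    · obtain ⟨h2, h3⟩ := mem_wC.mp hg
      have e : ψ (ptf up g₀ g) = f := congrArg Prod.fst h1
      have h4 : ptf up g₀ g ∈ cylF N (-M) M := by
        obtain ⟨u, a1, a2, a3, a4, rfl⟩ := mem_bxC.mp h2
        rw [mem_cylF]
        have h5 := abs_le.mp (le_refl |g₀|)
        show -M ≤ htf g₀ (cc up u.2) u.2 ∧ htf g₀ (cc up u.2) u.2 < M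
        unfold htf
        split_ifs <;> omega
      rw [← e]
      exact ⟨Or.inr ⟨_, Finset.mem_sdiff.mpr ⟨h4, h3⟩, rfl⟩, H.out _ h3 (inH_ptf up g₀ g)⟩
    · obtain ⟨h2, h3⟩ := Finset.mem_sdiff.mp hg
      have e : ψ (ptf up g₀ g) = f := congrArg Prod.fst h1
      have h4 := ptf_bxC (up := up) hL h3
      rw [← e]
      exact ⟨Or.inr ⟨_, Finset.mem_sdiff.mpr ⟨(ptf_cyl hgM).mpr h2, h4⟩, rfl⟩,
        H.out _ h4 (inH_ptf up g₀ g)⟩
  · rintro ⟨h1 | ⟨g, hg, rfl⟩, h2⟩
    · exact Or.inl (Or.inl ⟨h1, h2⟩)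
    · obtain ⟨h3, h4⟩ := Finset.mem_sdiff.mp hg
      have h5 := inH_ofC HG H h4 h2
      have e1 := ptf_qtf h5 b
      have e2 := cc_qtf h5 b
      have e3 : dblψ up g₀ ψ (qtf g₀ b g) = (ψ g, b) := by
        unfold dblψ
        rw [e1, e2]
      by_cases h6 : qtf g₀ b g ∈ bxC N L'
      · exact Or.inl (Or.inr ⟨_, mem_wC.mpr ⟨h6, by rw [e1]; exact h4⟩, e3⟩)
      · refine Or.inr ⟨_, Finset.mem_sdiff.mpr ⟨?_, h6⟩, e3⟩
        rw [← ptf_cyl hgM, e1]
        exact h3

/-- **The double of a half of a cylinder surface.** -/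
theorem glueC_dbl (HG : ∀ M, L < M → GlueC N M L Q A φ ψ P)
    (H : HalfS up g₀ (CQ N) {g | g ∉ bxC N L} Q A φ ψ S m)
    (hcov : ∀ f ∈ A, f ∈ S ∨ f ∈ S')
    (hout : ∀ g : ZMod N × ℤ, g ∉ bxC N L → ¬ inH up g₀ g → ψ g ∈ S')
    (sep : ∀ f ∈ S, ∀ f' ∈ S', ∀ k l, Q.c f k = Q.c f' l → onCut m (Q.c f k))
    (hL : L + |g₀| ≤ L') (hM : L' + |g₀| < M) (hL0 : 0 ≤ L) :
    GlueC N (dM up M g₀) L' (dblS Q S m H.os) (cor2 up g₀ A S ψ (wC N up g₀ L L'))
      (dblφ up g₀ φ m) (dblψ up g₀ ψ) (isl2 Q A S m P) := by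
  have hg0 := abs_nonneg g₀
  have hgM : |g₀| ≤ M := by omega
  have hLM : L < M := by omega
  have hW₀ : ∀ g ∈ cylF N (-M) M \ bxC N L, g ∈ {g : ZMod N × ℤ | g ∉ bxC N L} :=
    fun g hg => (Finset.mem_sdiff.mp hg).2
  have hptf : ∀ g ∈ cylF N (-(dM up M g₀)) (dM up M g₀) \ bxC N L',
      ptf up g₀ g ∈ cylF N (-M) M \ bxC N L := by
    intro g hg
    obtain ⟨h1, h2⟩ := Finset.mem_sdiff.mp hg
    exact Finset.mem_sdiff.mpr ⟨(ptf_cyl hgM).mpr h1, ptf_bxC hL h2⟩
  have hwC : ∀ g ∈ wC N up g₀ L L', ptf up g₀ g ∈ cylF N (-M) M \ bxC N L := by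
    intro g hg
    obtain ⟨h2, h3⟩ := mem_wC.mp hg
    refine Finset.mem_sdiff.mpr ⟨?_, h3⟩
    obtain ⟨u, a1, a2, a3, a4, rfl⟩ := mem_bxC.mp h2
    rw [mem_cylF]
    have h5 := abs_le.mp (le_refl |g₀|)
    show -M ≤ htf g₀ (cc up u.2) u.2 ∧ htf g₀ (cc up u.2) u.2 < M
    unfold htf
    split_ifs <;> omega
  have hchart := (HG M hLM).chart
  constructor
  · exact H.chart stdB_CQ hW₀ hchart hptf
  · intro g hg
    obtain ⟨h1, h2⟩ := Finset.mem_sdiff.mp hg
    refine HalfS.dj (W₀ := cylF N (-M) M \ bxC N L) ?_ hchart.injOn hwC (hptf g hg) ?_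
    · intro f hf
      exact (HG M hLM).dj f hf
    · exact fun h => h2 (mem_wC.mp h).1
  · intro p hp k g hg l h
    refine H.nb stdB_CQ (W₀ := cylF N (-M) M \ bxC N L) (W := wC N up g₀ L L') hW₀ hchart hwC
      (Vb := vb N L) (Vb' := vb N L') ?_ ?_ ?_ hp k (hptf g hg) l h
    · intro f hf k g hg l h
      exact (HG M hLM).nb f hf k g hg l h
    · rintro v ⟨u, h1, h2, h3⟩
      obtain ⟨h4, h5⟩ := Prod.mk.inj h3
      have h6 := abs_le.mp (le_refl |g₀|)
      refine ⟨(u.1, v.2), ?_, ?_, Prod.ext h4 rfl⟩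
      · show |u.1| ≤ L'
        omega
      · show |v.2| ≤ L'
        rw [← h5] at h2
        unfold htv at h2
        rw [abs_le] at h2 ⊢
        split_ifs at h2 <;> omega
    · intro g hg k
      exact corner_bxC (mem_wC.mp hg).1 k
  · exact isl2_sub H.os
  · intro a' ha'
    have hF := faces_dbl HG H hL hM.le hL0
    rw [hF] at ha'
    set FC : Finset Φ := A ∪ (cylF N (-M) M \ bxC N L).image ψ with hFC
    have hmem : ∀ (f : Φ) (b : Bool), f ∈ FC → f ∈ S →
        (f, b) ∈ ((cpy (corS FC S) false ∪ cpy (corS FC S) true : Finset (Φ × Bool)) :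
          Set (Φ × Bool)) := by
      intro f b h1 h2
      rw [Finset.mem_coe, Finset.mem_union, mem_cpy, mem_cpy]
      cases b
      · exact Or.inl ⟨mem_corS.mpr ⟨h1, h2⟩, rfl⟩
      · exact Or.inr ⟨mem_corS.mpr ⟨h1, h2⟩, rfl⟩
    obtain ⟨⟨f, b⟩, hp, k, hk⟩ := bS_sd ha'
    have hini := (mem_bS.mp ha').2
    have hf : f ∈ FC ∧ f ∈ S := by
      rcases Finset.mem_union.mp hp with h | h
      · exact mem_corS.mp (mem_cpy.mp h).1
      · exact mem_corS.mp (mem_cpy.mp h).1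
    obtain ⟨hfF, hfS⟩ := hf
    -- the side in the original half
    obtain ⟨k₀, hk₀, ha₀⟩ : ∃ k₀, k = (if b = true then 2 - k₀ else k₀) ∧
        a' = (if b = true then (dblA m true (sd Q f k₀)).swap else dblA m false (sd Q f k₀)) := by
      cases b
      · refine ⟨k, by simp, ?_⟩
        rw [if_neg (by simp), hk, dblS_sd_false hfS]
      · refine ⟨2 - k, ?_, ?_⟩
        · rw [if_pos rfl, two_sub_two_sub]
        · rw [if_pos rfl, hk, dblS_sd_true hfS]
          rfl
    -- the side is not on the cut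
    have hcut : ¬ (onCut m (Q.c f k₀) ∧ onCut m (Q.c f (k₀ + 1))) := by
      rintro ⟨h1, h2⟩
      obtain ⟨i, hi⟩ := H.os.only f hfS k₀ h1 h2
      rw [hi] at ha₀
      cases b
      · rw [if_neg (by simp)] at ha₀
        refine hini (f, true) (hmem f true hfF hfS) (2 - k₀) ?_
        show a' = (sd (dblS Q S m H.os) (f, true) (2 - k₀)).swap
        rw [dblS_sd_true hfS, two_sub_two_sub, hi, dblA_swap, Prod.swap_swap, dblA_cut, ha₀]
      · rw [if_pos rfl] at ha₀
        refine hini (f, false) (hmem f false hfF hfS) k₀ ?_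
        show a' = (sd (dblS Q S m H.os) (f, false) k₀).swap
        rw [dblS_sd_false hfS, hi, ← dblA_cut true, ha₀]
    -- the side is a boundary side of the surface
    have hbS : sd Q f k₀ ∈ bS Q FC := by
      refine mem_bS.mpr ⟨sd_mem hfF k₀, ?_⟩
      intro f' hf' l he
      have hf'F : f' ∈ FC := by exact_mod_cast hf'
      have he' : sd Q f k₀ = (sd Q f' l).swap := he
      have e1 : Q.c f k₀ = Q.c f' (l + 1) := congrArg Prod.fst he
      have e2 : Q.c f (k₀ + 1) = Q.c f' l := congrArg Prod.snd he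
      have hS : f' ∈ S ∨ f' ∈ S' := by
        rcases Finset.mem_union.mp hf'F with h | h
        · exact hcov f' h
        · obtain ⟨g, hg, rfl⟩ := Finset.mem_image.mp h
          have hg' := (Finset.mem_sdiff.mp hg).2
          by_cases h1 : inH up g₀ g
          · exact Or.inl (H.out g hg' h1)
          · exact Or.inr (hout g hg' h1)
      rcases hS with hS | hS
      · cases b
        · rw [if_neg (by simp)] at ha₀
          refine hini (f', false) (hmem f' false hf'F hS) l ?_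
          show a' = (sd (dblS Q S m H.os) (f', false) l).swap
          rw [dblS_sd_false hS, ← dblA_swap, ← he', ha₀]
        · rw [if_pos rfl] at ha₀
          refine hini (f', true) (hmem f' true hf'F hS) (2 - l) ?_
          show a' = (sd (dblS Q S m H.os) (f', true) (2 - l)).swap
          rw [dblS_sd_true hS, two_sub_two_sub, ← he', ha₀]
      · exact hcut ⟨sep f hfS f' hS _ _ e1, sep f hfS f' hS _ _ e2⟩
    -- outer faces in doubled coordinates
    have houter : ∀ g, g ∈ cylF N (-M) M \ bxC N L → f = ψ g → inH up g₀ g ∧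
        a' = Prod.map (dblφ up g₀ φ m) (dblφ up g₀ φ m) (sd (CQ N) (qtf g₀ b g) k) := by
      intro g hg hfg
      have hg' := (Finset.mem_sdiff.mp hg).2
      have h5 := inH_ofC HG H hg' (by rw [← hfg]; exact hfS)
      refine ⟨h5, ?_⟩
      have e1 := ptf_qtf h5 b
      have e2 := cc_qtf h5 b
      have e3 : dblψ up g₀ ψ (qtf g₀ b g) = (f, b) := by
        unfold dblψ
        rw [e1, e2, hfg]
      have c := fun j => H.corner stdB_CQ hW₀ hchart (g := qtf g₀ b g) (by rw [e1]; exact hg) j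
      rw [e3] at c
      rw [hk]
      exact Prod.ext (c k) (c (k + 1))
    have hbox : ∀ (x : ZMod N) (y : ℤ), (-M ≤ y ∧ y < M) → (y < -L ∨ L ≤ y) →
        (x, y) ∈ cylF N (-M) M \ bxC N L := by
      intro x y h1 h2
      refine Finset.mem_sdiff.mpr ⟨mem_cylF.mpr h1, fun h3 => ?_⟩
      obtain ⟨u, a1, a2, a3, a4, e⟩ := mem_bxC.mp h3
      have e2 : y = u.2 := (Prod.mk.inj e).2
      omega
    have hsd : ∀ g, g ∈ cylF N (-M) M \ bxC N L → ∀ j,
        Prod.map φ φ (sd (CQ N) g j) = sd Q (ψ g) j := by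
      intro g hg j
      have := (hchart.toMap (fun _ => false)).sd_eq hg j
      rw [add_zero] at this
      exact this.symm
    have hg1 := abs_le.mp (le_refl |g₀|)
    rcases (HG M hLM).bnd _ hbS with h | h | h
    · -- bottom
      obtain ⟨c, hc, e⟩ := Finset.mem_image.mp h
      obtain ⟨x, rfl⟩ := mem_botE.mp hc
      have hx := hbox x (-M) ⟨le_rfl, by omega⟩ (Or.inl (by omega))
      have e1 : sd Q (ψ (x, -M)) 0 = sd Q f k₀ := by
        rw [← hsd _ hx, ← e]
        rfl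
      obtain ⟨e2, e3⟩ := Q.inj (congrArg Prod.fst e1) (congrArg Prod.snd e1)
      obtain ⟨h5, h6⟩ := houter _ hx e2.symm
      have hup : up = false := by
        cases up
        · rfl
        · exfalso
          have := h5.mpr rfl
          simp only at this
          omega
      subst hup
      cases b
      · left
        rw [if_neg (by simp), ← e3] at hk₀
        rw [h6, hk₀]
        refine Finset.mem_image_of_mem _ (mem_botE.mpr ⟨x, ?_⟩)
        show sd (CQ N) (x, -(dM false M g₀)) 0 = sd (CQ N) (x, -M - g₀) 0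
        unfold dM
        rw [if_neg (by simp), neg_add']
      · right; left
        rw [if_pos rfl, ← e3] at hk₀
        rw [h6, hk₀]
        refine Finset.mem_image_of_mem _ (mem_topE.mpr ⟨x, ?_⟩)
        rw [SixB.top_sd]
        unfold dM
        rw [if_neg (by simp)]
        have e4 : qtf g₀ true ((x, -M) : ZMod N × ℤ) = (x, M + g₀ - 1) := by
          unfold qtf
          rw [if_pos rfl]
          refine Prod.ext rfl ?_
          simp only
          ring
        rw [e4]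
        rfl
    · -- top
      obtain ⟨c, hc, e⟩ := Finset.mem_image.mp h
      obtain ⟨x, rfl⟩ := mem_topE.mp hc
      have hx := hbox x (M - 1) ⟨by omega, by omega⟩ (Or.inr (by omega))
      have e1 : sd Q (ψ (x, M - 1)) 2 = sd Q f k₀ := by
        rw [← hsd _ hx, ← e, SixB.top_sd]
      obtain ⟨e2, e3⟩ := Q.inj (congrArg Prod.fst e1) (congrArg Prod.snd e1)
      obtain ⟨h5, h6⟩ := houter _ hx e2.symm
      have hup : up = true := h5.mp (by simp only; omega)
      subst hup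
      cases b
      · right; left
        rw [if_neg (by simp), ← e3] at hk₀
        rw [h6, hk₀]
        refine Finset.mem_image_of_mem _ (mem_topE.mpr ⟨x, ?_⟩)
        rw [SixB.top_sd]
        unfold dM
        rw [if_pos rfl]
        have e4 : qtf g₀ false ((x, M - 1) : ZMod N × ℤ) = (x, M - g₀ - 1) := by
          unfold qtf
          rw [if_neg (by simp)]
          refine Prod.ext rfl ?_
          simp only
          ring
        rw [e4]
      · left
        rw [if_pos rfl, ← e3] at hk₀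
        rw [h6, hk₀]
        refine Finset.mem_image_of_mem _ (mem_botE.mpr ⟨x, ?_⟩)
        have e4 : qtf g₀ true ((x, M - 1) : ZMod N × ℤ) = (x, -(dM true M g₀)) := by
          unfold qtf dM
          rw [if_pos rfl, if_pos rfl]
          refine Prod.ext rfl ?_
          simp only
          ring
        rw [e4]
        rfl
    · -- islands
      right; right
      have hfA : f ∈ A := by
        have h1 : sd Q f k₀ ∈ dE Q A := by
          rcases h with h | h
          · exact (HG M hLM).P_sub h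
          · exact swap_mem_dE.mp ((HG M hLM).P_sub h)
        obtain ⟨f', hf', l, h2 | h2⟩ := mem_dE.mp h1
        · rw [(Q.inj (congrArg Prod.fst h2) (congrArg Prod.snd h2)).1]
          exact hf'
        · exfalso
          exact (mem_bS.mp hbS).2 f' (by exact_mod_cast Finset.mem_union_left _ hf') l h2
      have h1 : sd Q f k₀ ∈ dE Q (corS A S) := sd_mem (mem_corS.mpr ⟨hfA, hfS⟩) k₀
      cases b
      · rw [if_neg (by simp)] at ha₀
        rcases h with h | h
        · exact Or.inl (mem_isl2.mpr ⟨false, _, h, h1, ha₀⟩)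
        · refine Or.inr (mem_isl2.mpr ⟨false, _, h, swap_mem_dE.mpr h1, ?_⟩)
          rw [ha₀, dblA_swap]
      · rw [if_pos rfl] at ha₀
        rcases h with h | h
        · refine Or.inr (mem_isl2.mpr ⟨true, _, h, h1, ?_⟩)
          rw [ha₀, Prod.swap_swap]
        · refine Or.inl (mem_isl2.mpr ⟨true, _, h, swap_mem_dE.mpr h1, ?_⟩)
          rw [ha₀, dblA_swap]

theorem wC_eq (hL : L + |g₀| ≤ L') (hN : 2 * L' < N) :
    wC N up g₀ L L' = (wZ up g₀ L L').image (pN N) := by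
  have hg0 := abs_nonneg g₀
  ext g
  rw [mem_wC, Finset.mem_image]
  constructor
  · rintro ⟨h1, h2⟩
    obtain ⟨u, a1, a2, a3, a4, rfl⟩ := mem_bxC.mp h1
    refine ⟨u, mem_wZ.mpr ⟨mem_RF0.mpr ⟨a1, a2, a3, a4⟩, fun h3 => h2 ?_⟩, rfl⟩
    obtain ⟨b1, b2, b3, b4⟩ := mem_RF0.mp h3
    exact mem_bxC.mpr ⟨_, b1, b2, b3, b4, rfl⟩
  · rintro ⟨u, hu, rfl⟩
    obtain ⟨h1, h2⟩ := mem_wZ.mp hu
    obtain ⟨a1, a2, a3, a4⟩ := mem_RF0.mp h1
    refine ⟨mem_bxC.mpr ⟨_, a1, a2, a3, a4, rfl⟩, fun h3 => h2 ?_⟩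
    obtain ⟨w, b1, b2, b3, b4, e⟩ := mem_bxC.mp h3
    have e' : pN N (ptf up g₀ u) = pN N w := e
    have e1 : ptf up g₀ u = w := by
      refine pN_inj hN ?_ ?_ e'
      · show |u.1| ≤ L'
        rw [abs_le]
        omega
      · rw [abs_le]
        omega
    rw [e1]
    exact mem_RF0.mpr ⟨b1, b2, b3, b4⟩

end

end Pool.Agent.SixB.Dbl
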