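import Pool.Agent.Lib.SixB.S3CylDblV
import Pool.Agent.Lib.SixB.S3CylDblG

/-!
# 6BD step 3: `Gd` of the two doubles of a cylindrification

* `glueC_up`, `glueC_lo`: `GlueC` of the doubles of the two halves of `cyQ`.
* `gd_up`, `gd_lo`: `Gd` from the turning numbers.
-/

set_option autoImplicit false
set_option linter.unusedSectionVars false

namespace Pool.Agent.SixB.Hcs

open Pool.Agent.Perc Pool.Agent.Perc.Q Relation Filter Topology ComplexConjugate
open Pool.Agent.SixB.Rel Pool.Agent.SixB.Dbl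
open Pool.Agent.SixB hiding Zs_split dst_congr qt_congr dE_mono

noncomputable section

variable {V Φ : Type} [DecidableEq V] [DecidableEq Φ] {Q : QC V Φ} {A : Finset Φ} {L g L' M : ℤ}
  {φ : ℤ × ℤ → V} {ψ : ℤ × ℤ → Φ} {P₀ : Finset (V × V)} {S₁ S₂ : Set Φ} {m : ℤ → V × V}
  {N : ℕ} [hN : Fact (3 ≤ N)]

/-- **The double of the upper half of the cylindrification.** -/
theorem glueC_up (C : Cyh.CutZ g L Q A φ ψ S₂ S₁ m) (H : GlueZ L Q A φ ψ P₀)
    (hF : Ful L Q A ψ P₀) (hL : 2 * (L + 1) < N) (hL0 : 0 ≤ L) (hL' : L + |g| ≤ L')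
    (hN' : 2 * L' < N) (hM : L' + |g| < M) :
    GlueC N (M - g) L' (dblS (cyQ N H hL) (Cyh.cyS A S₂ true g (outC N L))
        (Cyh.cyM Φ N L g φ true m) (cutC C H hL).up.os)
      (cor2 true g (A.image Sum.inl) (Cyh.cyS A S₂ true g (outC N L)) Sum.inr
        ((wZ true g L L').image (pN N)))
      (dblφ true g (glv Φ N L φ) (Cyh.cyM Φ N L g φ true m)) (dblψ true g Sum.inr)
      (isl2 (cyQ N H hL) (A.image Sum.inl) (Cyh.cyS A S₂ true g (outC N L))
        (Cyh.cyM Φ N L g φ true m) (P₀.image (icl V Φ N))) := by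
  have h1 := glueC_dbl (fun M hM => cy_glueC H hF hL hM) (cutC C H hL).up
    (S' := Cyh.cyS A S₁ false g (outC N L)) ?_ ?_ ?_ hL' hM hL0
  · rw [wC_eq hL' hN'] at h1
    have e : dM true M g = M - g := if_pos rfl
    rwa [e] at h1
  · intro F hF'
    obtain ⟨f, hf, rfl⟩ := Finset.mem_image.mp hF'
    exact C.cover_inl H hL hf
  · intro g' hg' h2
    refine Cyh.inr_cyS.mpr ⟨hg', ?_⟩
    unfold inH at h2 ⊢
    simp only [iff_true, Bool.false_eq_true, iff_false] at h2 ⊢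
    exact h2
  · intro F hF' F' hF'' k l h
    exact C.meet' H hL Cyh.outO_all hF' hF'' h

/-- **The double of the lower half of the cylindrification.** -/
theorem glueC_lo (C : Cyh.CutZ g L Q A φ ψ S₂ S₁ m) (H : GlueZ L Q A φ ψ P₀)
    (hF : Ful L Q A ψ P₀) (hL : 2 * (L + 1) < N) (hL0 : 0 ≤ L) (hL' : L + |g| ≤ L')
    (hN' : 2 * L' < N) (hM : L' + |g| < M) :
    GlueC N (M + g) L' (dblS (cyQ N H hL) (Cyh.cyS A S₁ false g (outC N L))
        (revFam (Cyh.cyM Φ N L g φ true m)) (cutC C H hL).lo.os)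
      (cor2 false g (A.image Sum.inl) (Cyh.cyS A S₁ false g (outC N L)) Sum.inr
        ((wZ false g L L').image (pN N)))
      (dblφ false g (glv Φ N L φ) (revFam (Cyh.cyM Φ N L g φ true m))) (dblψ false g Sum.inr)
      (isl2 (cyQ N H hL) (A.image Sum.inl) (Cyh.cyS A S₁ false g (outC N L))
        (revFam (Cyh.cyM Φ N L g φ true m)) (P₀.image (icl V Φ N))) := by
  have h1 := glueC_dbl (fun M hM => cy_glueC H hF hL hM) (cutC C H hL).lo
    (S' := Cyh.cyS A S₂ true g (outC N L)) ?_ ?_ ?_ hL' hM hL0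
  · rw [wC_eq hL' hN'] at h1
    have e : dM false M g = M + g := if_neg (by simp)
    rwa [e] at h1
  · intro F hF'
    obtain ⟨f, hf, rfl⟩ := Finset.mem_image.mp hF'
    exact (C.cover_inl H hL hf).symm
  · intro g' hg' h2
    refine Cyh.inr_cyS.mpr ⟨hg', ?_⟩
    unfold inH at h2 ⊢
    simp only [iff_true, Bool.false_eq_true, iff_false, not_not] at h2 ⊢
    exact h2
  · intro F hF' F' hF'' k l h
    rw [onCut_revFam, h]
    exact C.meet' H hL Cyh.outO_all hF'' hF' h.symm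

theorem gd_up (C : Cyh.CutZ g L Q A φ ψ S₂ S₁ m) (H : GlueZ L Q A φ ψ P₀)
    (hF : Ful L Q A ψ P₀) (hL : 2 * (L + 1) < N) (hL0 : 0 ≤ L) (hL' : L + |g| ≤ L')
    (hN' : 2 * L' < N) (hM : L' + |g| < M)
    (hT : ∀ ω, Turns (dblS (cyQ N H hL) (Cyh.cyS A S₂ true g (outC N L))
        (Cyh.cyM Φ N L g φ true m) (cutC C H hL).up.os)
      (FD N M L A (Cyh.cyS A S₂ true g (outC N L))) ω
      ((botE N (-(M - g))).image (Prod.map (dblφ true g (glv Φ N L φ) (Cyh.cyM Φ N L g φ true m))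
        (dblφ true g (glv Φ N L φ) (Cyh.cyM Φ N L g φ true m))))
      ((topE N (M - g)).image (Prod.map (dblφ true g (glv Φ N L φ) (Cyh.cyM Φ N L g φ true m))
        (dblφ true g (glv Φ N L φ) (Cyh.cyM Φ N L g φ true m))))) :
    Gd true g L' (M - g) H hL S₂ (Cyh.cyM Φ N L g φ true m) (cutC C H hL).up.os
      (FD N M L A (Cyh.cyS A S₂ true g (outC N L))) :=
  ⟨⟨_, glueC_up C H hF hL hL0 hL' hN' hM, hT⟩⟩

theorem gd_lo (C : Cyh.CutZ g L Q A φ ψ S₂ S₁ m) (H : GlueZ L Q A φ ψ P₀)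
    (hF : Ful L Q A ψ P₀) (hL : 2 * (L + 1) < N) (hL0 : 0 ≤ L) (hL' : L + |g| ≤ L')
    (hN' : 2 * L' < N) (hM : L' + |g| < M)
    (hT : ∀ ω, Turns (dblS (cyQ N H hL) (Cyh.cyS A S₁ false g (outC N L))
        (revFam (Cyh.cyM Φ N L g φ true m)) (cutC C H hL).lo.os)
      (FD N M L A (Cyh.cyS A S₁ false g (outC N L))) ω
      ((botE N (-(M + g))).image (Prod.map
        (dblφ false g (glv Φ N L φ) (revFam (Cyh.cyM Φ N L g φ true m)))
        (dblφ false g (glv Φ N L φ) (revFam (Cyh.cyM Φ N L g φ true m)))))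
      ((topE N (M + g)).image (Prod.map
        (dblφ false g (glv Φ N L φ) (revFam (Cyh.cyM Φ N L g φ true m)))
        (dblφ false g (glv Φ N L φ) (revFam (Cyh.cyM Φ N L g φ true m)))))) :
    Gd false g L' (M + g) H hL S₁ (revFam (Cyh.cyM Φ N L g φ true m)) (cutC C H hL).lo.os
      (FD N M L A (Cyh.cyS A S₁ false g (outC N L))) :=
  ⟨⟨_, glueC_lo C H hF hL hL0 hL' hN' hM, hT⟩⟩

end

end Pool.Agent.SixB.Hcs
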