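import Pool.Agent.Lib.SixB.S3PlaneC
import Pool.Agent.Lib.SixB.CylWind

/-!
# 6BD step 3: surfaces which are a flat cylinder outside a box

* `bxC N L`: the faces of the box of radius `L` around the origin of the cylinder; `vb N L`: its vertices.
* `GlueC`: a complex `Q` with a core `A` and a chart of the cylinder minus the box.
* `GlueC.dec`: the decomposition `Dec` needed for the factorisation `Dec.PL`.
-/

set_option autoImplicit false
set_option linter.unusedSectionVars false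

namespace Pool.Agent.SixB.Rel

open Pool.Agent.Perc Pool.Agent.Perc.Q Relation
open Pool.Agent.SixB hiding Zs_split dst_congr qt_congr dE_mono

noncomputable section

variable {N : ℕ} [hN : Fact (3 ≤ N)]

/-- the faces of the box of radius `L` -/
def bxC (N : ℕ) (L : ℤ) : Finset (ZMod N × ℤ) := (RFb (0, 0) L).image (pN N)

/-- the vertices of the closed box -/
def vb (N : ℕ) (L : ℤ) : Set (ZMod N × ℤ) :=
  {v | ∃ u : ℤ × ℤ, |u.1| ≤ L ∧ |u.2| ≤ L ∧ v = pN N u}

theorem mem_bxC {L : ℤ} {f : ZMod N × ℤ} :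
    f ∈ bxC N L ↔ ∃ u : ℤ × ℤ, -L ≤ u.1 ∧ u.1 < L ∧ -L ≤ u.2 ∧ u.2 < L ∧ f = pN N u := by
  unfold bxC
  rw [Finset.mem_image]
  constructor
  · rintro ⟨u, hu, rfl⟩
    rw [mem_RFb] at hu
    exact ⟨u, by simpa using hu.1, by simpa using hu.2.1, by simpa using hu.2.2.1,
      by simpa using hu.2.2.2, rfl⟩
  · rintro ⟨u, h1, h2, h3, h4, rfl⟩
    refine ⟨u, ?_, rfl⟩
    rw [mem_RFb]
    simp only [zero_sub, zero_add]
    exact ⟨h1, h2, h3, h4⟩

theorem bxC_mono {L L' : ℤ} (h : L ≤ L') : bxC N L ⊆ bxC N L' := by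
  intro f hf
  obtain ⟨u, h1, h2, h3, h4, rfl⟩ := mem_bxC.mp hf
  exact mem_bxC.mpr ⟨u, by omega, by omega, by omega, by omega, rfl⟩

theorem bxC_sub {L M : ℤ} (h : L ≤ M) : bxC N L ⊆ cylF N (-M) M := by
  intro f hf
  obtain ⟨u, h1, h2, h3, h4, rfl⟩ := mem_bxC.mp hf
  rw [mem_cylF]
  show -M ≤ u.2 ∧ u.2 < M
  omega

/-- corners of faces of the box are in the closed box -/
theorem corner_bxC {L : ℤ} {f : ZMod N × ℤ} (hf : f ∈ bxC N L) (k : ZMod 4) :
    (CQ N).c f k ∈ vb N L := by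
  obtain ⟨u, h1, h2, h3, h4, rfl⟩ := mem_bxC.mp hf
  refine ⟨cor0 u k, ?_, ?_, corC_pN u k⟩
  · rcases k4_cases k with rfl | rfl | rfl | rfl
    · rw [cor0_0, abs_le]; omega
    · rw [cor0_1, abs_le]; simp only; omega
    · rw [cor0_2, abs_le]; simp only; omega
    · rw [cor0_3, abs_le]; simp only; omega
  · rcases k4_cases k with rfl | rfl | rfl | rfl
    · rw [cor0_0, abs_le]; omega
    · rw [cor0_1, abs_le]; simp only; omega
    · rw [cor0_2, abs_le]; simp only; omega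
    · rw [cor0_3, abs_le]; simp only; omega

/-- a face with a corner in a smaller closed box is in the box -/
theorem face_of_corner {L L' : ℤ} (hL : L' < L) {f : ZMod N × ℤ} {k : ZMod 4}
    (h : (CQ N).c f k ∈ vb N L') : f ∈ bxC N L := by
  obtain ⟨u, h1, h2, h3⟩ := h
  rw [abs_le] at h1 h2
  rw [mem_bxC]
  change corC N f k = pN N u at h3
  rcases k4_cases k with rfl | rfl | rfl | rfl
  · rw [corC_0] at h3
    exact ⟨u, by omega, by omega, by omega, by omega, h3⟩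
  · rw [corC_1] at h3
    refine ⟨(u.1 - 1, u.2), by simp only; omega, by simp only; omega, by simp only; omega,
      by simp only; omega, ?_⟩
    unfold pN at h3 ⊢
    obtain ⟨e1, e2⟩ := Prod.mk.inj h3
    refine Prod.ext ?_ e2
    simp only
    push_cast
    rw [← e1]
    ring
  · rw [corC_2] at h3
    refine ⟨(u.1 - 1, u.2 - 1), by simp only; omega, by simp only; omega, by simp only; omega,
      by simp only; omega, ?_⟩
    unfold pN at h3 ⊢
    obtain ⟨e1, e2⟩ := Prod.mk.inj h3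
    refine Prod.ext ?_ ?_
    · simp only
      push_cast
      rw [← e1]
      ring
    · simp only
      omega
  · rw [corC_3] at h3
    refine ⟨(u.1, u.2 - 1), by simp only; omega, by simp only; omega, by simp only; omega,
      by simp only; omega, ?_⟩
    unfold pN at h3 ⊢
    obtain ⟨e1, e2⟩ := Prod.mk.inj h3
    refine Prod.ext e1 ?_
    simp only
    omega

/-- the sides of the flat ends: entering at the bottom -/
def botE (N : ℕ) [Fact (3 ≤ N)] (y : ℤ) : Finset ((ZMod N × ℤ) × (ZMod N × ℤ)) :=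
  Finset.univ.image fun x => bE x y

/-- entering at the top -/
def topE (N : ℕ) [Fact (3 ≤ N)] (y : ℤ) : Finset ((ZMod N × ℤ) × (ZMod N × ℤ)) :=
  Finset.univ.image fun x => (bE x y).swap

theorem mem_botE {y : ℤ} {a : (ZMod N × ℤ) × (ZMod N × ℤ)} : a ∈ botE N y ↔ ∃ x, bE x y = a := by
  unfold botE
  rw [Finset.mem_image]
  simp

theorem mem_topE {y : ℤ} {a : (ZMod N × ℤ) × (ZMod N × ℤ)} :
    a ∈ topE N y ↔ ∃ x, (bE x y).swap = a := by
  unfold topE
  rw [Finset.mem_image]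
  simp

variable {V Φ : Type} [DecidableEq V] [DecidableEq Φ]

/-- A complex which is the flat cylinder outside a box. -/
structure GlueC (N : ℕ) [Fact (3 ≤ N)] (M L : ℤ) (Q : QC V Φ) (A : Finset Φ)
    (φ : ZMod N × ℤ → V) (ψ : ZMod N × ℤ → Φ) (P : Finset (V × V)) : Prop where
  chart : QChart (CQ N) Q (cylF N (-M) M \ bxC N L) φ ψ 0
  dj : ∀ g ∈ cylF N (-M) M \ bxC N L, ψ g ∉ A
  nb : ∀ f ∈ A, ∀ k, ∀ g ∈ cylF N (-M) M \ bxC N L, ∀ l, Q.c f k = φ ((CQ N).c g l) →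
    (CQ N).c g l ∈ vb N L
  P_sub : P ⊆ dE Q A
  bnd : ∀ a ∈ bS Q (A ∪ (cylF N (-M) M \ bxC N L).image ψ),
    a ∈ (botE N (-M)).image (Prod.map φ φ) ∨ a ∈ (topE N M).image (Prod.map φ φ) ∨
      a ∈ P ∨ a.swap ∈ P

namespace GlueC

variable {M L : ℤ} {Q : QC V Φ} {A : Finset Φ} {φ : ZMod N × ℤ → V} {ψ : ZMod N × ℤ → Φ}
  {P : Finset (V × V)}

theorem dE_corner {V Φ : Type} [DecidableEq V] [DecidableEq Φ] {Q : QC V Φ} {F : Finset Φ}
    {a : V × V} (ha : a ∈ dE Q F) :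
    (∃ f ∈ F, ∃ k, a.1 = Q.c f k) ∧ ∃ f ∈ F, ∃ k, a.2 = Q.c f k :=
  QMap.corner_of ha

/-- the core does not meet the part of the cylinder outside a larger box -/
theorem sep_core (H : GlueC N M L Q A φ ψ P) {L₁ : ℤ} (h1 : L < L₁) :
    Disjoint (dE Q A) (dE Q ((cylF N (-M) M \ bxC N L₁).image ψ)) := by
  rw [Finset.disjoint_left]
  intro a ha ha'
  have hsub : cylF N (-M) M \ bxC N L₁ ⊆ cylF N (-M) M \ bxC N L :=
    Finset.sdiff_subset_sdiff (Finset.Subset.refl _) (bxC_mono h1.le)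
  rw [H.chart.dE_map hsub] at ha'
  obtain ⟨b, hb, rfl⟩ := Finset.mem_image.mp ha'
  obtain ⟨⟨g, hg, l, e1⟩, -⟩ := dE_corner hb
  obtain ⟨⟨f, hf, k, e2⟩, -⟩ := dE_corner ha
  have e3 : Q.c f k = φ ((CQ N).c g l) := by
    rw [← e2, ← e1]
    rfl
  have h2 := H.nb f hf k g (hsub hg) l e3
  exact (Finset.mem_sdiff.mp hg).2 (face_of_corner h1 h2)

/-- two parts of the cylinder which are separated by an annulus -/
theorem sep_outer (H : GlueC N M L Q A φ ψ P) {L₁ L₂ : ℤ} (h0 : L ≤ L₂) (h1 : L₁ < L₂) :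
    Disjoint (dE Q (((cylF N (-M) M ∩ bxC N L₁) \ bxC N L).image ψ))
      (dE Q ((cylF N (-M) M \ bxC N L₂).image ψ)) := by
  rw [Finset.disjoint_left]
  intro a ha ha'
  have hsub1 : (cylF N (-M) M ∩ bxC N L₁) \ bxC N L ⊆ cylF N (-M) M \ bxC N L :=
    Finset.sdiff_subset_sdiff Finset.inter_subset_left (Finset.Subset.refl _)
  have hsub2 : cylF N (-M) M \ bxC N L₂ ⊆ cylF N (-M) M \ bxC N L :=
    Finset.sdiff_subset_sdiff (Finset.Subset.refl _) (bxC_mono h0)
  rw [H.chart.dE_map hsub1] at ha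
  rw [H.chart.dE_map hsub2] at ha'
  obtain ⟨b, hb, e1⟩ := Finset.mem_image.mp ha
  obtain ⟨c, hc, e2⟩ := Finset.mem_image.mp ha'
  have e3 : b = c := H.chart.inj_dE (dE_mono hsub1 hb) (dE_mono hsub2 hc) (e1.trans e2.symm)
  subst e3
  obtain ⟨⟨g, hg, l, e4⟩, -⟩ := dE_corner hc
  obtain ⟨⟨f, hf, k, e5⟩, -⟩ := dE_corner hb
  have h2 : (CQ N).c g l ∈ vb N L₁ := by
    rw [← e4, e5]
    exact corner_bxC (Finset.mem_inter.mp (Finset.mem_sdiff.mp hf).1).2 k
  exact (Finset.mem_sdiff.mp hg).2 (face_of_corner h1 h2)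

theorem corner_y (g : ZMod N × ℤ) (l : ZMod 4) :
    ((CQ N).c g l).2 = g.2 ∨ ((CQ N).c g l).2 = g.2 + 1 := by
  change (corC N g l).2 = g.2 ∨ (corC N g l).2 = g.2 + 1
  rcases k4_cases l with rfl | rfl | rfl | rfl
  · exact Or.inl (by rw [corC_0])
  · exact Or.inl (by rw [corC_1])
  · exact Or.inr (by rw [corC_2])
  · exact Or.inr (by rw [corC_3])

theorem bE_mem_bot {y₀ y₁ : ℤ} (h : y₀ < y₁) (x : ZMod N) : bE x y₀ ∈ dE (CQ N) (cylF N y₀ y₁) :=
  sd_mem (mem_cylF_mk.mpr ⟨le_rfl, h⟩) 0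

theorem bE_mem_top {y₀ y₁ : ℤ} (h : y₀ < y₁) (x : ZMod N) : bE x y₁ ∈ dE (CQ N) (cylF N y₀ y₁) := by
  have h1 : (x, y₁ - 1) ∈ cylF N y₀ y₁ := mem_cylF_mk.mpr ⟨by omega, by omega⟩
  have h2 := swap_mem_dE.mpr (sd_mem (Q := CQ N) h1 2)
  rw [csd_swap_2, sub_add_cancel] at h2
  exact h2

theorem unit_y {a : (ZMod N × ℤ) × (ZMod N × ℤ)} {y₀ y₁ : ℤ} (h : a ∈ dE (CQ N) (cylF N y₀ y₁)) :
    y₀ ≤ a.1.2 ∧ a.1.2 ≤ y₁ ∧ y₀ ≤ a.2.2 ∧ a.2.2 ≤ y₁ := by
  obtain ⟨⟨g, hg, l, e1⟩, g', hg', l', e2⟩ := dE_corner h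
  have h1 := mem_cylF.mp hg
  have h2 := mem_cylF.mp hg'
  rw [e1, e2]
  rcases corner_y g l with h3 | h3 <;> rcases corner_y g' l' with h4 | h4 <;> rw [h3, h4] <;> omega

/-- a side with both ends at the level `y` is horizontal -/
theorem level_side {a : (ZMod N × ℤ) × (ZMod N × ℤ)} {F : Finset (ZMod N × ℤ)} {y : ℤ}
    (h : a ∈ dE (CQ N) F) (h1 : a.1.2 = y) (h2 : a.2.2 = y) : a ∈ botE N y ∪ topE N y := by
  rw [Finset.mem_union, mem_botE, mem_topE]
  obtain ⟨⟨x, z⟩, hf, k, h3⟩ := mem_dE.mp h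
  have key : ∀ b : (ZMod N × ℤ) × (ZMod N × ℤ), b = sd (CQ N) (x, z) k → b.1.2 = y → b.2.2 = y →
      (∃ x, bE x y = b) ∨ ∃ x, (bE x y).swap = b := by
    intro b hb e1 e2
    subst hb
    rcases k4_cases k with rfl | rfl | rfl | rfl
    · left
      refine ⟨x, ?_⟩
      have : z = y := e1
      rw [← this]
      rfl
    · exfalso
      have e3 : z = y := e1
      have e4 : z + 1 = y := e2
      omega
    · right
      refine ⟨x, ?_⟩
      have : z + 1 = y := e1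
      rw [← this, ← Prod.swap_swap (sd (CQ N) (x, z) 2), csd_swap_2]
      rfl
    · exfalso
      have e3 : z + 1 = y := e1
      have e4 : z = y := e2
      omega
  rcases h3 with h3 | h3
  · exact key a h3 h1 h2
  · have h4 : a.swap = sd (CQ N) (x, z) k := by rw [h3, Prod.swap_swap]
    rcases key a.swap h4 h2 h1 with ⟨x', h5⟩ | ⟨x', h5⟩
    · right
      exact ⟨x', by rw [h5, Prod.swap_swap]⟩
    · left
      refine ⟨x', ?_⟩
      rw [← Prod.swap_swap (bE x' y), h5, Prod.swap_swap]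

theorem not_vb_of_y {L : ℤ} {v : ZMod N × ℤ} (h : L < |v.2|) : v ∉ vb N L := by
  rintro ⟨u, _, h2, rfl⟩
  have h3 : L < |u.2| := h
  omega

theorem fs_aux {α β : Type} [DecidableEq α] [DecidableEq β] (A : Finset β) (ψ : α → β)
    (C X X₁ X₂ : Finset α) (h1 : X ⊆ X₁) (h2 : X₁ ⊆ X₂) :
    A ∪ ((C ∩ X₁) \ X).image ψ ∪ ((C \ X₂).image ψ ∪ ((C ∩ X₂) \ X₁).image ψ) =
      A ∪ (C \ X).image ψ := by
  have e : ((C ∩ X₁) \ X) ∪ ((C \ X₂) ∪ ((C ∩ X₂) \ X₁)) = C \ X := by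
    ext g
    have a1 : g ∈ X → g ∈ X₁ := fun h => h1 h
    have a2 : g ∈ X₁ → g ∈ X₂ := fun h => h2 h
    simp only [Finset.mem_union, Finset.mem_sdiff, Finset.mem_inter]
    by_cases b1 : g ∈ X <;> by_cases b2 : g ∈ X₁ <;> by_cases b3 : g ∈ X₂ <;>
      by_cases b4 : g ∈ C <;> simp_all
  rw [Finset.union_assoc, ← Finset.image_union, ← Finset.image_union, e]

theorem fs_aux2 {α β : Type} [DecidableEq α] [DecidableEq β] (ψ : α → β)
    (C X₁ X₂ : Finset α) (h2 : X₁ ⊆ X₂) :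
    (C \ X₂).image ψ ∪ ((C ∩ X₂) \ X₁).image ψ = (C \ X₁).image ψ := by
  have e : (C \ X₂) ∪ ((C ∩ X₂) \ X₁) = C \ X₁ := by
    ext g
    have a2 : g ∈ X₁ → g ∈ X₂ := fun h => h2 h
    simp only [Finset.mem_union, Finset.mem_sdiff, Finset.mem_inter]
    by_cases b2 : g ∈ X₁ <;> by_cases b3 : g ∈ X₂ <;>
      by_cases b4 : g ∈ C <;> simp_all
  rw [← Finset.image_union, e]

/-- the whole face set -/
theorem union_eq {M L L₁ L₂ : ℤ} (h1 : L ≤ L₁) (h2 : L₁ ≤ L₂)
    (A : Finset Φ) (ψ : ZMod N × ℤ → Φ) :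
    A ∪ ((cylF N (-M) M ∩ bxC N L₁) \ bxC N L).image ψ ∪
      ((cylF N (-M) M \ bxC N L₂).image ψ ∪ ((cylF N (-M) M ∩ bxC N L₂) \ bxC N L₁).image ψ) =
      A ∪ (cylF N (-M) M \ bxC N L).image ψ :=
  fs_aux A ψ _ _ _ _ (bxC_mono h1) (bxC_mono h2)

theorem outer_eq {M L₁ L₂ : ℤ} (h2 : L₁ ≤ L₂) (ψ : ZMod N × ℤ → Φ) :
    (cylF N (-M) M \ bxC N L₂).image ψ ∪ ((cylF N (-M) M ∩ bxC N L₂) \ bxC N L₁).image ψ =
      (cylF N (-M) M \ bxC N L₁).image ψ :=
  fs_aux2 ψ _ _ _ (bxC_mono h2)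

theorem dE_union' {V Φ : Type} [DecidableEq V] [DecidableEq Φ] (Q : QC V Φ) (F₁ F₂ : Finset Φ)
    {a : V × V} : a ∈ dE Q (F₁ ∪ F₂) ↔ a ∈ dE Q F₁ ∨ a ∈ dE Q F₂ := by
  simp only [mem_dE, Finset.mem_union]
  constructor
  · rintro ⟨f, hf | hf, h⟩
    · exact Or.inl ⟨f, hf, h⟩
    · exact Or.inr ⟨f, hf, h⟩
  · rintro (⟨f, hf, h⟩ | ⟨f, hf, h⟩)
    · exact ⟨f, Or.inl hf, h⟩
    · exact ⟨f, Or.inr hf, h⟩

theorem disj_image (H : GlueC N M L Q A φ ψ P) {S S' : Finset (ZMod N × ℤ)}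
    (hS : S ⊆ cylF N (-M) M \ bxC N L) (hS' : S' ⊆ cylF N (-M) M \ bxC N L)
    (h : Disjoint S S') : Disjoint (S.image ψ) (S'.image ψ) := by
  rw [Finset.disjoint_left]
  intro f hf hf'
  obtain ⟨g, hg, rfl⟩ := Finset.mem_image.mp hf
  obtain ⟨g', hg', e⟩ := Finset.mem_image.mp hf'
  have := H.chart.injOn (by exact_mod_cast hS' hg') (by exact_mod_cast hS hg) e
  rw [this] at hg'
  exact Finset.disjoint_left.mp h hg hg'

theorem disj_core (H : GlueC N M L Q A φ ψ P) {S : Finset (ZMod N × ℤ)}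
    (hS : S ⊆ cylF N (-M) M \ bxC N L) : Disjoint A (S.image ψ) := by
  rw [Finset.disjoint_left]
  intro f hf hf'
  obtain ⟨g, hg, rfl⟩ := Finset.mem_image.mp hf'
  exact H.dj g (hS hg) hf

/-- a vertex of the core is not at a level above the box -/
theorem core_not_level (H : GlueC N M L Q A φ ψ P) {a : V × V} (ha : a ∈ dE Q A)
    {b : (ZMod N × ℤ) × (ZMod N × ℤ)} (hb : b ∈ dE (CQ N) (cylF N (-M) M \ bxC N L))
    (hab : Prod.map φ φ b = a) (hy : L < |b.1.2|) : False := by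
  obtain ⟨⟨g, hg, l, e1⟩, -⟩ := dE_corner hb
  obtain ⟨⟨f, hf, k, e2⟩, -⟩ := dE_corner ha
  have e3 : Q.c f k = φ ((CQ N).c g l) := by
    rw [← e2, ← e1, ← hab]
    rfl
  have h2 := H.nb f hf k g hg l e3
  rw [← e1] at h2
  exact not_vb_of_y hy h2

/-- **The decomposition.** -/
theorem dec (H : GlueC N M L Q A φ ψ P) {L₁ L₂ m : ℤ} (h0 : 0 ≤ L) (h1 : L < L₁)
    (h2 : L₁ < L₂) (h3 : L₂ ≤ m) (h4 : m < M) :
    Dec Q A (((cylF N (-M) M ∩ bxC N L₁) \ bxC N L).image ψ)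
      ((cylF N (-M) M \ bxC N L₂).image ψ)
      (((cylF N (-M) M ∩ bxC N L₂) \ bxC N L₁).image ψ) ((cylF N m M).image ψ) P
      ((botE N (-M)).image (Prod.map φ φ)) ((topE N M).image (Prod.map φ φ))
      ((botE N m ∪ topE N m).image (Prod.map φ φ)) := by
  set C := cylF N (-M) M with hC
  have s1 : (C ∩ bxC N L₁) \ bxC N L ⊆ C \ bxC N L :=
    Finset.sdiff_subset_sdiff Finset.inter_subset_left (Finset.Subset.refl _)
  have s2 : (C ∩ bxC N L₂) \ bxC N L₁ ⊆ C \ bxC N L :=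
    Finset.sdiff_subset_sdiff Finset.inter_subset_left (bxC_mono h1.le)
  have s3 : C \ bxC N L₂ ⊆ C \ bxC N L :=
    Finset.sdiff_subset_sdiff (Finset.Subset.refl _) (bxC_mono (h1.trans h2).le)
  have s4 : C \ bxC N L₁ ⊆ C \ bxC N L :=
    Finset.sdiff_subset_sdiff (Finset.Subset.refl _) (bxC_mono h1.le)
  have sT : cylF N m M ⊆ C \ bxC N L₂ := by
    intro g hg
    have h5 := mem_cylF.mp hg
    rw [Finset.mem_sdiff, hC, mem_cylF]
    refine ⟨⟨by omega, h5.2⟩, ?_⟩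
    intro h6
    obtain ⟨u, _, _, _, h7, h8⟩ := mem_bxC.mp h6
    rw [h8] at h5
    have : m ≤ u.2 := h5.1
    omega
  -- the complement of the top section
  have hFT : (A ∪ ((C ∩ bxC N L₁) \ bxC N L).image ψ ∪
      ((C \ bxC N L₂).image ψ ∪ ((C ∩ bxC N L₂) \ bxC N L₁).image ψ)) \ (cylF N m M).image ψ =
      A ∪ (cylF N (-M) m \ bxC N L).image ψ := by
    rw [hC, union_eq h1.le h2.le, ← hC]
    ext f
    simp only [Finset.mem_sdiff, Finset.mem_union]
    constructor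
    · rintro ⟨h5 | h5, h6⟩
      · exact Or.inl h5
      · right
        obtain ⟨g, hg, rfl⟩ := Finset.mem_image.mp h5
        obtain ⟨h7, h8⟩ := Finset.mem_sdiff.mp hg
        refine Finset.mem_image_of_mem _ (Finset.mem_sdiff.mpr ⟨?_, h8⟩)
        rw [hC, mem_cylF] at h7
        rw [mem_cylF]
        refine ⟨h7.1, ?_⟩
        by_contra h9
        exact h6 (Finset.mem_image_of_mem _ (mem_cylF.mpr ⟨by omega, h7.2⟩))
    · rintro (h5 | h5)
      · refine ⟨Or.inl h5, fun h6 => ?_⟩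
        exact Finset.disjoint_left.mp (H.disj_core (sT.trans s3)) h5 h6
      · obtain ⟨g, hg, rfl⟩ := Finset.mem_image.mp h5
        obtain ⟨h7, h8⟩ := Finset.mem_sdiff.mp hg
        rw [mem_cylF] at h7
        have hgC : g ∈ C \ bxC N L :=
          Finset.mem_sdiff.mpr ⟨by rw [hC, mem_cylF]; omega, h8⟩
        refine ⟨Or.inr (Finset.mem_image_of_mem _ hgC), fun h6 => ?_⟩
        obtain ⟨g', hg', e⟩ := Finset.mem_image.mp h6
        have := H.chart.injOn (by exact_mod_cast (sT.trans s3) hg') (by exact_mod_cast hgC) e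
        rw [this] at hg'
        have := mem_cylF.mp hg'
        omega
  have hmsub : cylF N (-M) m \ bxC N L ⊆ C \ bxC N L := by
    intro g hg
    obtain ⟨h7, h8⟩ := Finset.mem_sdiff.mp hg
    rw [mem_cylF] at h7
    exact Finset.mem_sdiff.mpr ⟨by rw [hC, mem_cylF]; omega, h8⟩
  have hbotface : ∀ x : ZMod N, (x, -M) ∉ bxC N L₂ := by
    intro x h6
    obtain ⟨u, _, _, h7, _, h8⟩ := mem_bxC.mp h6
    have : -M = u.2 := congrArg (fun q : ZMod N × ℤ => q.2) h8
    omega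
  have htopface : ∀ x : ZMod N, (x, M - 1) ∉ bxC N L₂ := by
    intro x h6
    obtain ⟨u, _, _, _, h7, h8⟩ := mem_bxC.mp h6
    have : M - 1 = u.2 := congrArg (fun q : ZMod N × ℤ => q.2) h8
    omega
  have hbot : ∀ x : ZMod N, bE x (-M) ∈ dE (CQ N) (C \ bxC N L₂) := by
    intro x
    refine sd_mem (Finset.mem_sdiff.mpr ⟨?_, hbotface x⟩) 0
    rw [hC]
    exact mem_cylF_mk.mpr ⟨le_rfl, by omega⟩
  have htop : ∀ x : ZMod N, bE x M ∈ dE (CQ N) (C \ bxC N L₂) := by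
    intro x
    have h5 : (x, M - 1) ∈ C \ bxC N L₂ := by
      refine Finset.mem_sdiff.mpr ⟨?_, htopface x⟩
      rw [hC]
      exact mem_cylF_mk.mpr ⟨by omega, by omega⟩
    have h6 := swap_mem_dE.mpr (sd_mem (Q := CQ N) h5 2)
    rw [csd_swap_2, sub_add_cancel] at h6
    exact h6
  have hEbC : ∀ a ∈ botE N (-M), a ∈ dE (CQ N) (C \ bxC N L₂) := by
    intro a ha
    obtain ⟨x, rfl⟩ := mem_botE.mp ha
    exact hbot x
  have hEtC : ∀ a ∈ topE N M, a ∈ dE (CQ N) (C \ bxC N L₂) := by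
    intro a ha
    obtain ⟨x, rfl⟩ := mem_topE.mp ha
    exact swap_mem_dE.mpr (htop x)
  -- initial sides
  have hini : ∀ b : (ZMod N × ℤ) × (ZMod N × ℤ), b ∈ dE (CQ N) (C \ bxC N L₂) →
      Ini (CQ N) (C : Set (ZMod N × ℤ)) b → L < |b.1.2| → L < |b.2.2| →
      Prod.map φ φ b ∈ bS Q (A ∪ ((C ∩ bxC N L₁) \ bxC N L).image ψ ∪
      ((C \ bxC N L₂).image ψ ∪ ((C ∩ bxC N L₂) \ bxC N L₁).image ψ)) := by
    intro b hb hbi hy1 hy2
    rw [hC, union_eq h1.le h2.le, ← hC]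
    have hbL : b ∈ dE (CQ N) (C \ bxC N L) := dE_mono s3 hb
    rw [mem_bS]
    constructor
    · rw [dE_union', H.chart.dE_map (Finset.Subset.refl _)]
      exact Or.inr (Finset.mem_image_of_mem _ hbL)
    · intro f hf k he
      have hf' : f ∈ A ∪ (C \ bxC N L).image ψ := by exact_mod_cast hf
      rcases Finset.mem_union.mp hf' with h5 | h5
      · have h6 : (Prod.map φ φ b).swap ∈ dE Q A := by
          rw [he]
          exact sd_mem h5 k
        exact H.core_not_level (swap_mem_dE.mp h6) hbL rfl hy1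
      · obtain ⟨g, hg, rfl⟩ := Finset.mem_image.mp h5
        have h6 : (Prod.map φ φ b).swap = sd Q (ψ g) k := by
          rw [he]
          rfl
        have h7 := (H.chart.toMap (fun _ => false)).sd_eq hg k
        rw [add_zero] at h7
        rw [h7] at h6
        have h8 : b.swap = sd (CQ N) g k :=
          H.chart.inj_dE (swap_mem_dE.mpr hbL) (sd_mem hg k) h6
        have h9 : g ∈ (C : Set (ZMod N × ℤ)) := by
          exact_mod_cast (Finset.mem_sdiff.mp hg).1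
        exact hbi g h9 k (by rw [← Prod.swap_swap b, h8]; rfl)
  have hM : L < M := by omega
  refine
    { dj := ?_, dR := ?_, dA := ?_, sepA := ?_, sepB := ?_, P_sub := H.P_sub, flat := ?_,
      E_sub := ?_, T_sub := ?_, cut := ?_, top := ?_, bot := ?_ }
  · rw [Finset.disjoint_union_left, Finset.disjoint_union_right, Finset.disjoint_union_right]
    refine ⟨⟨H.disj_core s3, H.disj_core s2⟩, H.disj_image s1 s3 ?_, H.disj_image s1 s2 ?_⟩
    · rw [Finset.disjoint_left]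
      intro g hg hg'
      have a1 := (Finset.mem_inter.mp (Finset.mem_sdiff.mp hg).1).2
      exact (Finset.mem_sdiff.mp hg').2 (bxC_mono h2.le a1)
    · rw [Finset.disjoint_left]
      intro g hg hg'
      have a1 := (Finset.mem_inter.mp (Finset.mem_sdiff.mp hg).1).2
      exact (Finset.mem_sdiff.mp hg').2 a1
  · refine H.disj_image s3 s2 ?_
    rw [Finset.disjoint_left]
    intro g hg hg'
    exact (Finset.mem_sdiff.mp hg).2 (Finset.mem_inter.mp (Finset.mem_sdiff.mp hg').1).2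
  · exact H.disj_core s1
  · rw [hC, outer_eq h2.le]
    exact H.sep_core h1
  · rw [Finset.disjoint_left]
    intro a ha ha'
    rw [dE_union'] at ha'
    rcases ha' with h5 | h5
    · exact Finset.disjoint_left.mp (H.sep_core (h1.trans h2)) h5 ha
    · exact Finset.disjoint_left.mp (H.sep_outer (h1.trans h2).le h2) h5 ha
  · refine { bot := ?_, top := ?_, disj := ?_, all := ?_ }
    · intro a ha
      obtain ⟨b, hb, rfl⟩ := Finset.mem_image.mp ha
      obtain ⟨x, rfl⟩ := mem_botE.mp hb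
      refine hini _ (hbot x) (by rw [hC]; exact bE_ini x) ?_ ?_
      · show L < |(-M)|
        rw [abs_neg, abs_of_pos (by omega)]
        exact hM
      · show L < |(-M)|
        rw [abs_neg, abs_of_pos (by omega)]
        exact hM
    · intro a ha
      obtain ⟨b, hb, rfl⟩ := Finset.mem_image.mp ha
      obtain ⟨x, rfl⟩ := mem_topE.mp hb
      refine hini _ (swap_mem_dE.mpr (htop x)) ?_ ?_ ?_
      · rw [hC]
        exact ini_swap.mpr (bE_top_ter x)
      · show L < |M|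
        rw [abs_of_pos (by omega)]
        exact hM
      · show L < |M|
        rw [abs_of_pos (by omega)]
        exact hM
    · rw [Finset.disjoint_left]
      intro a ha ha'
      obtain ⟨b, hb, rfl⟩ := Finset.mem_image.mp ha
      obtain ⟨c, hc, e⟩ := Finset.mem_image.mp ha'
      have e1 := H.chart.inj_dE (dE_mono s3 (hEtC c hc)) (dE_mono s3 (hEbC b hb)) e
      obtain ⟨x, rfl⟩ := mem_botE.mp hb
      obtain ⟨x', rfl⟩ := mem_topE.mp hc
      have e2 : M = -M := congrArg (fun q : (ZMod N × ℤ) × (ZMod N × ℤ) => q.1.2) e1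
      omega
    · intro a ha
      rw [hC, union_eq h1.le h2.le] at ha
      exact H.bnd a ha
  · intro a ha
    rcases Finset.mem_union.mp ha with h5 | h5
    · obtain ⟨b, hb, rfl⟩ := Finset.mem_image.mp h5
      rw [H.chart.dE_map s3]
      exact Finset.mem_image_of_mem _ (hEbC b hb)
    · obtain ⟨b, hb, rfl⟩ := Finset.mem_image.mp h5
      rw [H.chart.dE_map s3]
      exact Finset.mem_image_of_mem _ (hEtC b hb)
  · exact Finset.image_subset_image sT
  · rw [hFT]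
    intro a ha
    obtain ⟨h5, h6⟩ := Finset.mem_inter.mp ha
    rw [H.chart.dE_map (sT.trans s3)] at h6
    obtain ⟨b, hb, rfl⟩ := Finset.mem_image.mp h6
    have hy := unit_y hb
    have hbL : b ∈ dE (CQ N) (C \ bxC N L) := dE_mono (sT.trans s3) hb
    rw [dE_union'] at h5
    rcases h5 with h5 | h5
    · exfalso
      apply H.core_not_level h5 hbL rfl
      rw [abs_of_nonneg (by omega)]
      omega
    · rw [H.chart.dE_map hmsub] at h5
      obtain ⟨c, hc, e⟩ := Finset.mem_image.mp h5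
      have e1 := H.chart.inj_dE (dE_mono hmsub hc) hbL e
      rw [e1] at hc
      have hy2 := unit_y (dE_mono (Finset.sdiff_subset) hc)
      refine Finset.mem_image_of_mem _ (level_side hb ?_ ?_)
      · omega
      · omega
  · intro a ha
    obtain ⟨b, hb, rfl⟩ := Finset.mem_image.mp ha
    obtain ⟨x, rfl⟩ := mem_topE.mp hb
    have hbT : (bE x M).swap ∈ dE (CQ N) (cylF N m M) := swap_mem_dE.mpr (bE_mem_top h4 x)
    have hbL := dE_mono s3 (swap_mem_dE.mpr (htop x))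
    constructor
    · rw [H.chart.dE_map (sT.trans s3)]
      exact Finset.mem_image_of_mem _ hbT
    · rw [hFT, dE_union']
      rintro (h5 | h5)
      · apply H.core_not_level h5 hbL rfl
        show L < |M|
        rw [abs_of_pos (by omega)]
        exact hM
      · rw [H.chart.dE_map hmsub] at h5
        obtain ⟨c, hc, e⟩ := Finset.mem_image.mp h5
        have e1 := H.chart.inj_dE (dE_mono hmsub hc) hbL e
        rw [e1] at hc
        have hy2 := (unit_y (dE_mono (Finset.sdiff_subset) hc)).2.1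
        have : M ≤ m := hy2
        omega
  · intro a ha
    obtain ⟨b, hb, rfl⟩ := Finset.mem_image.mp ha
    obtain ⟨x, rfl⟩ := mem_botE.mp hb
    rw [hFT, dE_union', H.chart.dE_map hmsub]
    right
    refine Finset.mem_image_of_mem _ (sd_mem (Finset.mem_sdiff.mpr ⟨?_, ?_⟩) 0)
    · exact mem_cylF_mk.mpr ⟨le_rfl, by omega⟩
    · intro h6
      exact hbotface x (bxC_mono (h1.trans h2).le h6)

end GlueC

end

end Pool.Agent.SixB.Rel
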