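import Pool.Agent.Lib.SixB.S3bCore
import Pool.Agent.Lib.SixB.S3PlaneD

/-!
# Turnings of a window of the cylinder with a simulated core

`SimG.window`: if the core of a surface which is a flat cylinder outside a box (`GlueC`) is simulated by the box of
the plane, then the window is simulated by the window of the cylinder. `SimG.turns`: `Rel.Turns` of the window.
-/

set_option autoImplicit false
set_option linter.unusedSectionVars false

namespace Pool.Agent.SixB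

open Pool.Agent.Perc Pool.Agent.Perc.Q
open Pool.Agent.SixB.Rel (bxC vb mem_RF0 GlueC botE topE)

namespace SimT

variable {N : ℕ} [hN : Fact (3 ≤ N)]

theorem pN_near {u v : ℤ × ℤ} (h1 : u.1 - v.1 < N) (h2 : v.1 - u.1 < N) (h : pN N u = pN N v) :
    u = v := by
  obtain ⟨h5, h6⟩ := Prod.mk.inj h
  refine Prod.ext ?_ h6
  obtain ⟨c, hc⟩ := (ZMod.intCast_eq_intCast_iff_dvd_sub _ _ _).mp h5
  have h8 : c = 0 := by
    by_contra hne
    rcases lt_or_gt_of_ne hne with h9 | h9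
    · have : (N : ℤ) * c ≤ (N : ℤ) * (-1) := mul_le_mul_of_nonneg_left (by omega) (by positivity)
      omega
    · have : (N : ℤ) * 1 ≤ (N : ℤ) * c := mul_le_mul_of_nonneg_left (by omega) (by positivity)
      omega
  rw [h8, mul_zero] at hc
  omega

/-- The face across a side of the plane. -/
theorem acrossZ {L : ℤ} {g : ℤ × ℤ} {k : ZMod 4} (h0 : 0 < L) (hg : g ∉ RFb (0, 0) L)
    (h1 : |(ZQ.c g k).1| ≤ L ∧ |(ZQ.c g k).2| ≤ L)
    (h2 : |(ZQ.c g (k + 1)).1| ≤ L ∧ |(ZQ.c g (k + 1)).2| ≤ L) :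
    ∃ g' ∈ RFb (0, 0) L, (sd ZQ g k).swap = sd ZQ g' (k + 2) := by
  obtain ⟨x, y⟩ := g
  rw [abs_le, abs_le] at h1 h2
  rw [mem_RF0] at hg
  change (-L ≤ (cor0 (x, y) k).1 ∧ (cor0 (x, y) k).1 ≤ L) ∧
    -L ≤ (cor0 (x, y) k).2 ∧ (cor0 (x, y) k).2 ≤ L at h1
  change (-L ≤ (cor0 (x, y) (k + 1)).1 ∧ (cor0 (x, y) (k + 1)).1 ≤ L) ∧
    -L ≤ (cor0 (x, y) (k + 1)).2 ∧ (cor0 (x, y) (k + 1)).2 ≤ L at h2
  rcases k4_cases k with rfl | rfl | rfl | rfl
  · rw [zero_add] at *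
    rw [cor0_0] at *
    rw [cor0_1] at *
    refine ⟨(x, y - 1), ?_, sd_swap_0 x y⟩
    rw [mem_RF0]; simp only at *; omega
  · rw [show (1 : ZMod 4) + 1 = 2 by decide] at *
    rw [cor0_1] at *
    rw [cor0_2] at *
    refine ⟨(x + 1, y), ?_, sd_swap_1 x y⟩
    rw [mem_RF0]; simp only at *; omega
  · rw [show (2 : ZMod 4) + 1 = 3 by decide] at *
    rw [cor0_2] at *
    rw [cor0_3] at *
    refine ⟨(x, y + 1), ?_, sd_swap_2 x y⟩
    rw [mem_RF0]; simp only at *; omega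
  · rw [show (3 : ZMod 4) + 1 = 0 by decide] at *
    rw [cor0_3] at *
    rw [cor0_0] at *
    refine ⟨(x - 1, y), ?_, sd_swap_3 x y⟩
    rw [mem_RF0]; simp only at *; omega

theorem cor_step (v : ℤ × ℤ) (k : ZMod 4) : (ZQ.c v (k + 1)).1 - (ZQ.c v k).1 ≤ 1 ∧
    (ZQ.c v k).1 - (ZQ.c v (k + 1)).1 ≤ 1 := by
  obtain ⟨x, y⟩ := v
  change (cor0 (x, y) (k + 1)).1 - (cor0 (x, y) k).1 ≤ 1 ∧ (cor0 (x, y) k).1 - (cor0 (x, y) (k + 1)).1 ≤ 1
  rcases k4_cases k with rfl | rfl | rfl | rfl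
  · rw [zero_add, cor0_0, cor0_1]; simp
  · rw [show (1 : ZMod 4) + 1 = 2 by decide, cor0_1, cor0_2]; simp
  · rw [show (2 : ZMod 4) + 1 = 3 by decide, cor0_2, cor0_3]; simp
  · rw [show (3 : ZMod 4) + 1 = 0 by decide, cor0_3, cor0_0]; simp

/-- **The face across a side of the cylinder** with both ends in the closed box. -/
theorem acrossC {L : ℤ} (h0 : 0 < L) (hL : 2 * L + 1 < N) {g : ZMod N × ℤ} {k : ZMod 4}
    (hg : g ∉ bxC N L) (h1 : (CQ N).c g k ∈ vb N L) (h2 : (CQ N).c g (k + 1) ∈ vb N L) :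
    ∃ v, v ∉ RFb (0, 0) L ∧ pN N v = g ∧ ∃ u ∈ RFb (0, 0) L, (sd ZQ v k).swap = sd ZQ u (k + 2) := by
  obtain ⟨w1, a1, a2, a3⟩ := h1
  obtain ⟨w2, b1, b2, b3⟩ := h2
  obtain ⟨x, hx⟩ := ZMod.intCast_surjective g.1
  have hg0 : pN N (x, g.2) = g := Prod.ext hx rfl
  have e1 : pN N (ZQ.c (x, g.2) k) = pN N w1 := by
    rw [← a3, ← hg0]
    exact (corC_pN _ k).symm
  have e3 : (((ZQ.c (x, g.2) k).1 : ℤ) : ZMod N) = ((w1.1 : ℤ) : ZMod N) := (Prod.mk.inj e1).1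
  rw [ZMod.intCast_eq_intCast_iff_dvd_sub] at e3
  obtain ⟨c, hc⟩ := e3
  set v : ℤ × ℤ := tau N c (x, g.2) with hv
  have hv1 : pN N v = g := by rw [hv, pN_tau, hg0]
  have hv2 : ZQ.c v k = w1 := by
    have h3 : ZQ.c v k = tau N c (ZQ.c (x, g.2) k) := cor0_tau c _ k
    rw [h3]
    unfold tau
    refine Prod.ext ?_ ?_
    · simp only
      omega
    · simp only
      exact (Prod.mk.inj e1).2
  have hv3 : ZQ.c v (k + 1) = w2 := by
    have h4 := cor_step v k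
    rw [hv2] at h4
    rw [abs_le] at a1 b1
    refine pN_near (N := N) (by omega) (by omega) ?_
    rw [← b3, ← hv1]
    exact (corC_pN _ (k + 1)).symm
  have hv4 : v ∉ RFb (0, 0) L := fun h3 => hg (by
    rw [← hv1]
    exact Finset.mem_image_of_mem _ h3)
  refine ⟨v, hv4, hv1, acrossZ h0 hv4 ?_ ?_⟩
  · rw [hv2]; exact ⟨a1, a2⟩
  · rw [hv3]; exact ⟨b1, b2⟩

end SimT

section Turns

variable {V Φ : Type} [DecidableEq V] [DecidableEq Φ] {N : ℕ} [hN : Fact (3 ≤ N)] {M L : ℤ}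
  {Q : QC V Φ} {A : Finset Φ} {φ : ZMod N × ℤ → V} {ψ : ZMod N × ℤ → Φ} {P : Finset (V × V)}

/-- the sides of the outer part, both directions -/
def SimT.Ko (N : ℕ) [Fact (3 ≤ N)] (M L : ℤ) : Set ((ZMod N × ℤ) × (ZMod N × ℤ)) :=
  {a | a ∈ Sides (CQ N) (cylF N (-M) M \ bxC N L : Finset (ZMod N × ℤ)) ∨
    a.swap ∈ Sides (CQ N) (cylF N (-M) M \ bxC N L : Finset (ZMod N × ℤ))}

/-- **A window of the cylinder with a simulated core is simulated by the window.** -/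
theorem SimG.window (H : GlueC N M L Q A φ ψ P)
    (hs : SimG Q (A : Set Φ) ZQ (fun v => φ (pN N v)) (RFb (0, 0) L : Set (ℤ × ℤ))
      (KbS ZQ (RFb (0, 0) L : Set (ℤ × ℤ))))
    (hodd : Odd N) (hL : 2 * L + 1 < N) (hL0 : 0 < L) (hM : L < M) :
    SimG Q ((A ∪ (cylF N (-M) M \ bxC N L).image ψ : Finset Φ) : Set Φ) (CQ N) φ
      (cylF N (-M) M : Set (ZMod N × ℤ)) (SimT.Ko N M L) := by
  classical
  set R : Finset (ZMod N × ℤ) := cylF N (-M) M \ bxC N L with hR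
  have hsd : ∀ g ∈ R, ∀ k, sd Q (ψ g) k = Prod.map φ φ (sd (CQ N) g k) := by
    intro g hg k
    have h1 := H.chart.cor g hg k
    have h2 := H.chart.cor g hg (k + 1)
    rw [add_zero] at h1 h2
    exact Prod.ext h1 h2
  -- the core over the cylinder
  have hface : ∀ g ∈ R, ∀ k, (Prod.map φ φ (sd (CQ N) g k)).swap ∈ Sides Q (A : Set Φ) →
      ∃ a ∈ Sides ZQ (RFb (0, 0) L : Set (ℤ × ℤ)), a.swap ∉ Sides ZQ (RFb (0, 0) L : Set (ℤ × ℤ)) ∧
        Prod.map (pN N) (pN N) a = (sd (CQ N) g k).swap := by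
    rintro g hg k ⟨f, hf, l, hl⟩
    have e1 : Q.c f l = φ ((CQ N).c g (k + 1)) := (congrArg Prod.fst hl).symm
    have e2 : Q.c f (l + 1) = φ ((CQ N).c g k) := (congrArg Prod.snd hl).symm
    have n1 := H.nb f hf l g hg (k + 1) e1
    have n2 := H.nb f hf (l + 1) g hg k e2
    obtain ⟨v, hv, rfl, u, hu, huv⟩ := SimT.acrossC hL0 hL (Finset.mem_sdiff.mp hg).2 n2 n1
    refine ⟨(sd ZQ v k).swap, ⟨u, Finset.mem_coe.2 hu, k + 2, huv⟩, ?_, ?_⟩
    · rw [Prod.swap_swap]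
      rintro ⟨g₁, hg₁, l', h5⟩
      obtain ⟨rfl, -⟩ := sd_inj h5
      exact hv (Finset.mem_coe.1 hg₁)
    · exact congrArg Prod.swap (pE_sd v k)
  have hnot : ∀ g ∈ R, ∀ k, sd Q (ψ g) k ∉ Sides Q (A : Set Φ) := by
    rintro g hg k ⟨f, hf, l, hl⟩
    obtain ⟨rfl, -⟩ := sd_inj hl
    exact H.dj g hg (Finset.mem_coe.1 hf)
  have hinjT : Set.InjOn (pN N) (RFb (0, 0) L : Set (ℤ × ℤ)) := by
    intro u hu v hv h
    have h1 := mem_RF0.mp (Finset.mem_coe.1 hu)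
    have h2 := mem_RF0.mp (Finset.mem_coe.1 hv)
    exact SimT.pN_near (by omega) (by omega) h
  have h1 : SimG Q (A : Set Φ) (CQ N) φ (pN N '' (RFb (0, 0) L : Set (ℤ × ℤ)))
      (Prod.map (pN N) (pN N) '' KbS ZQ (RFb (0, 0) L : Set (ℤ × ℤ))) := by
    refine hs.tgt (r := fun _ => 0) (p := pN N) ?_ hinjT ?_
    · intro g _ k
      rw [add_zero]
      exact corC_pN g k
    · rintro a' ⟨a, ha, rfl⟩
      exact ⟨a, ha, rfl, rfl⟩
  have h2 : SimG Q (A : Set Φ) (CQ N) φ (pN N '' (RFb (0, 0) L : Set (ℤ × ℤ))) (SimT.Ko N M L) := by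
    refine h1.extK ?_
    rintro a (⟨g, hg, k, rfl⟩ | ⟨g, hg, k, hk⟩) hb
    · have hg' := Finset.mem_coe.1 hg
      rcases hb with hb | hb
      · rw [← hsd g hg'] at hb
        exact absurd hb (hnot g hg' k)
      · obtain ⟨a, ha, ha', he⟩ := hface g hg' k hb
        refine ⟨a.swap, Or.inr ⟨by rw [Prod.swap_swap]; exact ha, ha'⟩, ?_⟩
        show (Prod.map (pN N) (pN N) a).swap = _
        rw [he, Prod.swap_swap]
    · have hg' := Finset.mem_coe.1 hg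
      have ha' : a = (sd (CQ N) g k).swap := by rw [← hk, Prod.swap_swap]
      subst ha'
      rcases hb with hb | hb
      · obtain ⟨a, ha, ha', he⟩ := hface g hg' k hb
        exact ⟨a, Or.inl ⟨ha, ha'⟩, he⟩
      · have hb' : Prod.map φ φ (sd (CQ N) g k) ∈ Sides Q (A : Set Φ) := hb
        rw [← hsd g hg'] at hb'
        exact absurd hb' (hnot g hg' k)
  have h3 : SimG Q (ψ '' (R : Set (ZMod N × ℤ))) (CQ N) φ (R : Set (ZMod N × ℤ)) (SimT.Ko N M L) := by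
    refine SimG.flat (X := {v | ∃ g ∈ R, ∃ k, v = (CQ N).c g k}) ?_ (fun g hg k => ⟨g, hg, k, rfl⟩) ?_ ?_
      (fun ω' => (t1_cyl hodd ω').mono (Set.subset_univ _))
    · intro g hg k
      have h4 := H.chart.cor g hg k
      rwa [add_zero] at h4
    · rintro a (⟨g, hg, k, rfl⟩ | ⟨g, hg, k, hk⟩)
      · exact ⟨⟨g, hg, k, rfl⟩, g, hg, k + 1, rfl⟩
      · have ha' : a = (sd (CQ N) g k).swap := by rw [← hk, Prod.swap_swap]
        subst ha'
        exact ⟨⟨g, hg, k + 1, rfl⟩, g, hg, k, rfl⟩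
    · rintro _ ⟨g, hg, k, rfl⟩ _ ⟨g', hg', k', rfl⟩ h
      exact H.chart.inj g hg g' hg' k k' h
  have hdj : Disjoint (pN N '' (RFb (0, 0) L : Set (ℤ × ℤ))) (R : Set (ZMod N × ℤ)) := by
    rw [Set.disjoint_left]
    rintro _ ⟨u, hu, rfl⟩ h
    exact (Finset.mem_sdiff.mp (Finset.mem_coe.1 h)).2 (Finset.mem_image_of_mem _ (Finset.mem_coe.1 hu))
  have h4 := SimG.union (I := Bool) (P := fun i => if i = true then (A : Set Φ) else ψ '' (R : Set (ZMod N × ℤ)))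
    (T := fun i => if i = true then pN N '' (RFb (0, 0) L : Set (ℤ × ℤ)) else (R : Set (ZMod N × ℤ)))
    (Q := Q) (B := CQ N) (φ := φ) (K := SimT.Ko N M L) (by
      intro i
      cases i
      · simpa using h3
      · simpa using h2) (by
      intro i j hij
      cases i <;> cases j
      · exact absurd rfl hij
      · simp only [Bool.false_eq_true, if_false, if_true]
        exact hdj.symm
      · simp only [Bool.false_eq_true, if_false, if_true]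
        exact hdj
      · exact absurd rfl hij) (by
      intro i j hij e he he'
      cases i <;> cases j
      · exact absurd rfl hij
      · simp only [Bool.false_eq_true, if_false, if_true] at he he' ⊢
        obtain ⟨_, ⟨g, hg, rfl⟩, k, rfl⟩ := he
        have hg' := Finset.mem_coe.1 hg
        rw [hsd g hg'] at he'
        obtain ⟨a, ⟨u, hu, l, rfl⟩, ha', he2⟩ := hface g hg' k he'
        refine ⟨sd (CQ N) g k, Or.inl ⟨g, hg, k, rfl⟩, hsd g hg' k, ⟨g, hg, k, rfl⟩, ?_⟩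
        rw [← he2]
        exact ⟨pN N u, ⟨u, hu, rfl⟩, l, pE_sd u l⟩
      · simp only [Bool.false_eq_true, if_false, if_true] at he he' ⊢
        obtain ⟨_, ⟨g, hg, rfl⟩, k, hk⟩ := he'
        have hg' := Finset.mem_coe.1 hg
        have he2 : e = (Prod.map φ φ (sd (CQ N) g k)).swap := by
          rw [← hsd g hg', ← hk, Prod.swap_swap]
        subst he2
        obtain ⟨a, ⟨u, hu, l, rfl⟩, ha', he2⟩ := hface g hg' k he
        refine ⟨(sd (CQ N) g k).swap, Or.inr ⟨g, hg, k, Prod.swap_swap _⟩, rfl, ?_, g, hg, k,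
          Prod.swap_swap _⟩
        rw [← he2]
        exact ⟨pN N u, ⟨u, hu, rfl⟩, l, pE_sd u l⟩
      · exact absurd rfl hij) (fun ω' => t1_cyl hodd ω')
  refine h4.mono ?_ ?_ subset_rfl
  · intro f hf
    rw [Finset.mem_coe, Finset.mem_union, Finset.mem_image] at hf
    rcases hf with hf | ⟨g, hg, rfl⟩
    · exact Set.mem_iUnion.2 ⟨true, by simpa using hf⟩
    · exact Set.mem_iUnion.2 ⟨false, by
        simp only [Bool.false_eq_true, if_false]
        exact ⟨g, Finset.mem_coe.2 hg, rfl⟩⟩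
  · intro g hg
    obtain ⟨i, hi⟩ := Set.mem_iUnion.1 hg
    cases i
    · simp only [Bool.false_eq_true, if_false] at hi
      exact Finset.mem_coe.2 (Finset.mem_sdiff.mp (Finset.mem_coe.1 hi)).1
    · simp only [if_true] at hi
      obtain ⟨u, hu, rfl⟩ := hi
      exact Finset.mem_coe.2 (Rel.bxC_sub hM.le (Finset.mem_image_of_mem _ (Finset.mem_coe.1 hu)))

/-- **TURNINGS OF A WINDOW WITH A SIMULATED CORE.** -/
theorem SimG.turns (H : GlueC N M L Q A φ ψ P)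
    (hs : SimG Q (A : Set Φ) ZQ (fun v => φ (pN N v)) (RFb (0, 0) L : Set (ℤ × ℤ))
      (KbS ZQ (RFb (0, 0) L : Set (ℤ × ℤ)))) (hQ : NoLoop Q)
    (hodd : Odd N) (hL : 2 * L + 1 < N) (hL0 : 0 < L) (hM : L < M) (ω : Φ → Bool) :
    Rel.Turns Q (A ∪ (cylF N (-M) M \ bxC N L).image ψ) ω
      ((botE N (-M)).image (Prod.map φ φ)) ((topE N M).image (Prod.map φ φ)) := by
  classical
  have hW := SimG.window H hs hodd hL hL0 hM
  set R : Finset (ZMod N × ℤ) := cylF N (-M) M \ bxC N L with hR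
  set F : Finset Φ := A ∪ R.image ψ with hF
  have hsd : ∀ g ∈ R, ∀ k, sd Q (ψ g) k = Prod.map φ φ (sd (CQ N) g k) := by
    intro g hg k
    have h1 := H.chart.cor g hg k
    have h2 := H.chart.cor g hg (k + 1)
    rw [add_zero] at h1 h2
    exact Prod.ext h1 h2
  obtain ⟨ω', hsim⟩ := hW.sim ω
  have hfar : ∀ x : ZMod N, ∀ y : ℤ, -M ≤ y → y < M → (y < -L ∨ L ≤ y) → (x, y) ∈ R := by
    intro x y h1 h2 h3
    refine Finset.mem_sdiff.mpr ⟨mem_cylF_mk.mpr ⟨h1, h2⟩, fun h4 => ?_⟩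
    obtain ⟨u, -, -, h5, h6, h7⟩ := Rel.mem_bxC.mp h4
    have h8 : y = u.2 := congrArg Prod.snd h7
    omega
  have hvb : ∀ v : ZMod N × ℤ, v ∈ vb N L → -L ≤ v.2 ∧ v.2 ≤ L := by
    rintro v ⟨u, -, h2, rfl⟩
    exact abs_le.mp h2
  have hcyl : ∀ g ∈ R, -M ≤ g.2 ∧ g.2 < M := fun g hg =>
    mem_cylF.mp (Finset.mem_sdiff.mp hg).1
  have hbd : ∀ g₀ ∈ R, ∀ k₀, (CQ N).c g₀ k₀ ∉ vb N L →
      (∀ g ∈ R, ∀ k, (sd (CQ N) g₀ k₀).swap ≠ sd (CQ N) g k) →
      Prod.map φ φ (sd (CQ N) g₀ k₀) ∈ bS Q F := by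
    intro g₀ hg₀ k₀ h1 h2
    refine mem_bS_of ⟨ψ g₀, ?_, k₀, (hsd g₀ hg₀ k₀).symm⟩ ?_
    · exact Finset.mem_coe.2 (Finset.mem_union_right _ (Finset.mem_image_of_mem _ hg₀))
    · rintro ⟨f, hf, k, hk⟩
      have e1 : φ ((CQ N).c g₀ (k₀ + 1)) = Q.c f k := congrArg Prod.fst hk
      have e2 : φ ((CQ N).c g₀ k₀) = Q.c f (k + 1) := congrArg Prod.snd hk
      rcases Finset.mem_union.mp (Finset.mem_coe.1 hf) with hf | hf
      · exact h1 (H.nb f hf (k + 1) g₀ hg₀ k₀ e2.symm)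
      · obtain ⟨g, hg, rfl⟩ := Finset.mem_image.mp hf
        have c1 := H.chart.cor g hg k
        have c2 := H.chart.cor g hg (k + 1)
        rw [add_zero] at c1 c2
        refine h2 g hg k (Prod.ext ?_ ?_)
        · exact H.chart.inj g₀ hg₀ g hg (k₀ + 1) k (e1.trans c1)
        · exact H.chart.inj g₀ hg₀ g hg k₀ (k + 1) (e2.trans c2)
  -- the ends
  have hbR : ∀ x : ZMod N, ((x, -M) : ZMod N × ℤ) ∈ R := fun x =>
    hfar x (-M) le_rfl (by omega) (Or.inl (by omega))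
  have htR : ∀ x : ZMod N, ((x, M - 1) : ZMod N × ℤ) ∈ R := fun x =>
    hfar x (M - 1) (by omega) (by omega) (Or.inr (by omega))
  have hb0 : ∀ x : ZMod N, bE x (-M) ∈ SimT.Ko N M L := fun x =>
    Or.inl ⟨(x, -M), Finset.mem_coe.2 (hbR x), 0, rfl⟩
  have hb0' : ∀ x : ZMod N, (bE x (-M)).swap ∈ SimT.Ko N M L := fun x =>
    Or.inr ⟨(x, -M), Finset.mem_coe.2 (hbR x), 0, Prod.swap_swap _⟩
  have ht0 : ∀ x : ZMod N, (bE x M).swap ∈ SimT.Ko N M L := fun x =>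
    Or.inl ⟨(x, M - 1), Finset.mem_coe.2 (htR x), 2, csd_swap_0 x M⟩
  have ht0' : ∀ x : ZMod N, bE x M ∈ SimT.Ko N M L := fun x =>
    Or.inr ⟨(x, M - 1), Finset.mem_coe.2 (htR x), 2, csd_swap_0 x M⟩
  have hbS : ∀ x : ZMod N, Prod.map φ φ (bE x (-M)) ∈ bS Q F := by
    intro x
    refine hbd (x, -M) (hbR x) 0 ?_ ?_
    · intro h1
      have h2 := (hvb _ h1).1
      change -L ≤ -M at h2
      omega
    · intro g hg k h1
      rw [csd_swap_0] at h1
      obtain ⟨rfl, -⟩ := sd_inj h1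
      have h2 := (hcyl _ hg).1
      simp only at h2
      omega
  have htS : ∀ x : ZMod N, Prod.map φ φ (bE x M).swap ∈ bS Q F := by
    intro x
    have e1 : (bE x M).swap = sd (CQ N) (x, M - 1) 2 := csd_swap_0 x M
    rw [e1]
    refine hbd (x, M - 1) (htR x) 2 ?_ ?_
    · intro h1
      have h2 := (hvb _ h1).2
      change corC N (x, M - 1) 2 ∈ vb N L at h1
      rw [corC_2] at h1
      have h3 := (hvb _ h1).2
      simp only at h3
      omega
    · intro g hg k h1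
      rw [← e1, Prod.swap_swap] at h1
      have h4 : sd (CQ N) (x, M) 0 = sd (CQ N) g k := h1
      obtain ⟨rfl, -⟩ := sd_inj h4
      have h2 := (hcyl _ hg).2
      simp only at h2
      omega
  have hyM : -M < M := by omega
  refine ⟨fun X hX hX' => (hW.t1 ω).tX hX hX', ?_, ?_, ?_⟩
  · intro a ha hm
    obtain ⟨_, ha1, rfl⟩ := Finset.mem_image.mp ha
    obtain ⟨x, rfl⟩ := Rel.mem_botE.mp ha1
    obtain ⟨_, hm1, hm2⟩ := Finset.mem_image.mp hm
    obtain ⟨x', rfl⟩ := Rel.mem_botE.mp hm1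
    obtain ⟨n, hw⟩ := arc_walk (ω := ω) (hbS x)
    rw [← hm2] at hw
    obtain ⟨n', h5⟩ := hsim _ (hb0 x) _ (hb0' x') n _ hw
    refine cyl_bb subset_rfl hyM ?_ h5
    rintro rfl
    exact mate_ne hQ (hbS x) hm2.symm
  · intro a ha hm
    obtain ⟨_, ha1, rfl⟩ := Finset.mem_image.mp ha
    obtain ⟨x, rfl⟩ := Rel.mem_topE.mp ha1
    obtain ⟨_, hm1, hm2⟩ := Finset.mem_image.mp hm
    obtain ⟨x', rfl⟩ := Rel.mem_topE.mp hm1
    obtain ⟨n, hw⟩ := arc_walk (ω := ω) (htS x)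
    rw [← hm2] at hw
    obtain ⟨n', h5⟩ := hsim _ (ht0 x) _ (ht0' x') n _ hw
    refine cyl_tt subset_rfl hyM ?_ h5
    rintro rfl
    exact mate_ne hQ (htS x) hm2.symm
  · intro a ha hm
    obtain ⟨_, ha1, rfl⟩ := Finset.mem_image.mp ha
    obtain ⟨x, rfl⟩ := Rel.mem_botE.mp ha1
    obtain ⟨_, hm1, hm2⟩ := Finset.mem_image.mp hm
    obtain ⟨x', rfl⟩ := Rel.mem_topE.mp hm1
    obtain ⟨n, hw⟩ := arc_walk (ω := ω) (hbS x)
    rw [← hm2] at hw
    obtain ⟨n', h5⟩ := hsim _ (hb0 x) _ (ht0' x') n _ hw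
    exact cyl_bt subset_rfl hyM h5

end Turns

end Pool.Agent.SixB
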