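import Pool.Agent.Lib.SixB.S3bCoreR
import Pool.Agent.Lib.SixB.S3bCoreT
import Pool.Agent.Lib.SixB.S3CylDblW

/-!
# Turnings of the cylindrified environments and of their doubles

* `turnsC_of`, `dblUp_of_sim`, `dblLo_of_sim`: `TurnsC`, `DblUp`, `DblLo` for every simulated surface;
* `turnsC_E`, `dblUp_E`, `dblLo_E`: for the rotated environments.
-/

set_option autoImplicit false
set_option linter.unusedSectionVars false

namespace Pool.Agent.SixB

open Pool.Agent.Perc Pool.Agent.Perc.Q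
open Pool.Agent.SixB.Dbl Pool.Agent.SixB.Rel Pool.Agent.SixB.Hcs

noncomputable section

section Gen

variable {V Φ : Type} [DecidableEq V] [DecidableEq Φ] {Q : QC V Φ} {A : Finset Φ} {L g L' : ℤ}
  {φ : ℤ × ℤ → V} {ψ : ℤ × ℤ → Φ} {P₀ : Finset (V × V)} {S₁ S₂ : Set Φ} {m : ℤ → V × V}

/-- **Turnings of the cylindrifications.** -/
theorem turnsC_of (H : GlueZ L Q A φ ψ P₀) (hF : Ful L Q A ψ P₀) (hQ : NoLoop Q) (h0 : 0 < L)
    (hs : SimG Q (A : Set Φ) ZQ φ (RFb (0, 0) L : Set (ℤ × ℤ))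
      (KbS ZQ (RFb (0, 0) L : Set (ℤ × ℤ)))) : TurnsC H := by
  refine ⟨0, fun N _ hL hodd _ => ⟨L + 1, fun M hM ω => ?_⟩⟩
  have h1 := hs.cy (N := N) H hL (fun f hf => Finset.mem_coe.1 hf)
    (fun a ha => kb_box (fun f hf => Finset.mem_coe.1 hf) ha)
  rw [← Finset.coe_image] at h1
  exact SimG.turns (cy_glueC H hF hL (by omega)) h1 (cy_noLoop H hL hQ) hodd (by omega) h0
    (by omega) ω

variable {N : ℕ} [hN : Fact (3 ≤ N)]

/-- **Turnings of the double of the upper half.** -/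
theorem turns_up (C : Cyh.CutZ g L Q A φ ψ S₂ S₁ m) (H : GlueZ L Q A φ ψ P₀)
    (hF : Ful L Q A ψ P₀) (hQ : NoLoop Q) (hL : 2 * (L + 1) < N) (hL' : L + |g| ≤ L')
    (hodd : Odd N) (hN' : 2 * (L' + |g|) + 1 < N) {M : ℤ} (hM : L' + |g| + |g| < M)
    (hφ : Set.InjOn φ {v | |v.1| ≤ L ∧ |v.2| ≤ L})
    (hm : ∀ x : ℤ, -L ≤ x → x < L → m x = (φ (x, g), φ (x + 1, g)))
    (hs : SimG Q {f | f ∈ A ∧ f ∈ S₂} ZQ φ (hbox true g L) (KbS ZQ (hbox true g L)))
    (ω : CF Φ N × Bool → Bool) :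
    Turns (dblS (cyQ N H hL) (Cyh.cyS A S₂ true g (outC N L))
        (Cyh.cyM Φ N L g φ true m) (cutC C H hL).up.os)
      (FD N M L A (Cyh.cyS A S₂ true g (outC N L))) ω
      ((botE N (-(M - g))).image (Prod.map (dblφ true g (glv Φ N L φ) (Cyh.cyM Φ N L g φ true m))
        (dblφ true g (glv Φ N L φ) (Cyh.cyM Φ N L g φ true m))))
      ((topE N (M - g)).image (Prod.map (dblφ true g (glv Φ N L φ) (Cyh.cyM Φ N L g φ true m))
        (dblφ true g (glv Φ N L φ) (Cyh.cyM Φ N L g φ true m)))) := by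
  have hg := C.hi.hg
  have hg0 := abs_nonneg g
  have hg1 := le_abs_self g
  have hg2 := neg_abs_le g
  have hG := glueC_up C H hF hL (by omega) hL' (by omega) (M := M) (by omega)
  have h1 := SimG.dblC (up := true) (L' := L') H hL (m' := Cyh.cyM Φ N L g φ true m)
    (cyM_eq (by omega) hg.le hm) (cutC C H hL).up.os (fun u _ h _ => h) hs hφ hg hL' hN'
    (W := (wZ true g L L').image (pN N)) (fun w hw => by
      obtain ⟨u, hu, rfl⟩ := Finset.mem_image.mp hw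
      exact ⟨u, hu, rfl⟩)
  have h2 := SimG.turns hG h1 (dblS_noLoop (cy_noLoop H hL hQ)) hodd (by omega) (by omega)
    (by omega) ω
  have h3 := Cyh.faces_dblS C.hi H hL (L' := L') (M := M) (M' := M - g) (O := outC N L)
    (by rw [if_pos rfl]) hL' (by omega) (by omega) (by omega)
    (fun v hv => (Finset.mem_sdiff.mp hv).2)
  rw [← h3] at h2
  exact h2

/-- **Turnings of the double of the lower half.** -/
theorem turns_lo (C : Cyh.CutZ g L Q A φ ψ S₂ S₁ m) (H : GlueZ L Q A φ ψ P₀)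
    (hF : Ful L Q A ψ P₀) (hQ : NoLoop Q) (hL : 2 * (L + 1) < N) (hL' : L + |g| ≤ L')
    (hodd : Odd N) (hN' : 2 * (L' + |g|) + 1 < N) {M : ℤ} (hM : L' + |g| + |g| < M)
    (hφ : Set.InjOn φ {v | |v.1| ≤ L ∧ |v.2| ≤ L})
    (hm : ∀ x : ℤ, -L ≤ x → x < L → m x = (φ (x, g), φ (x + 1, g)))
    (hs : SimG Q {f | f ∈ A ∧ f ∈ S₁} ZQ φ (hbox false g L) (KbS ZQ (hbox false g L)))
    (ω : CF Φ N × Bool → Bool) :
    Turns (dblS (cyQ N H hL) (Cyh.cyS A S₁ false g (outC N L))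
        (revFam (Cyh.cyM Φ N L g φ true m)) (cutC C H hL).lo.os)
      (FD N M L A (Cyh.cyS A S₁ false g (outC N L))) ω
      ((botE N (-(M + g))).image (Prod.map
        (dblφ false g (glv Φ N L φ) (revFam (Cyh.cyM Φ N L g φ true m)))
        (dblφ false g (glv Φ N L φ) (revFam (Cyh.cyM Φ N L g φ true m)))))
      ((topE N (M + g)).image (Prod.map
        (dblφ false g (glv Φ N L φ) (revFam (Cyh.cyM Φ N L g φ true m)))
        (dblφ false g (glv Φ N L φ) (revFam (Cyh.cyM Φ N L g φ true m))))) := by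
  have hg := C.hi.hg
  have hg0 := abs_nonneg g
  have hg1 := le_abs_self g
  have hg2 := neg_abs_le g
  have hG := glueC_lo C H hF hL (by omega) hL' (by omega) (M := M) (by omega)
  have hm' : ∀ x, revFam (Cyh.cyM Φ N L g φ true m) x =
      Cyh.ori false (glv Φ N L φ (x, g), glv Φ N L φ (x + 1, g)) := by
    intro x
    unfold revFam
    rw [cyM_eq (by omega) hg.le hm]
    rfl
  have h1 := SimG.dblC (up := false) (L' := L') H hL (m' := revFam (Cyh.cyM Φ N L g φ true m))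
    hm' (cutC C H hL).lo.os (fun u _ h _ => h) hs hφ hg hL' hN'
    (W := (wZ false g L L').image (pN N)) (fun w hw => by
      obtain ⟨u, hu, rfl⟩ := Finset.mem_image.mp hw
      exact ⟨u, hu, rfl⟩)
  have h2 := SimG.turns hG h1 (dblS_noLoop (cy_noLoop H hL hQ)) hodd (by omega) (by omega)
    (by omega) ω
  have h3 := Cyh.faces_dblS C.lo H hL (L' := L') (M := M) (M' := M + g) (O := outC N L)
    (by rw [if_neg (by simp)]) hL' (by omega) (by omega) (by omega)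
    (fun v hv => (Finset.mem_sdiff.mp hv).2)
  rw [← h3] at h2
  exact h2

end Gen

section Dbl

variable {V Φ : Type} [DecidableEq V] [DecidableEq Φ] {Q : QC V Φ} {A : Finset Φ} {L g L' : ℤ}
  {φ : ℤ × ℤ → V} {ψ : ℤ × ℤ → Φ} {P₀ : Finset (V × V)} {S₁ S₂ : Set Φ} {m : ℤ → V × V}

/-- **`DblUp` for simulated surfaces.** -/
theorem dblUp_of_sim (C : Cyh.CutZ g L Q A φ ψ S₂ S₁ m) (H : GlueZ L Q A φ ψ P₀)
    (hF : Ful L Q A ψ P₀) (hQ : NoLoop Q) (hoff : Off m P₀) (hL' : L + |g| ≤ L')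
    (hφ : Set.InjOn φ {v | |v.1| ≤ L ∧ |v.2| ≤ L})
    (hm : ∀ x : ℤ, -L ≤ x → x < L → m x = (φ (x, g), φ (x + 1, g)))
    (hs : SimG Q {f | f ∈ A ∧ f ∈ S₂} ZQ φ (hbox true g L) (KbS ZQ (hbox true g L))) :
    DblUp L' C H := by
  have hg := C.hi.hg
  have hg0 := abs_nonneg g
  refine dblUp_of (by omega) hL' C H hoff ⟨(2 * (L' + |g|) + 2).toNat, ?_⟩
  intro N _ hL hodd hN
  have t1 := Int.self_le_toNat (2 * (L' + |g|) + 2)
  have t2 : 2 * (L' + |g|) + 1 < N := by omega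
  refine ⟨L' + |g| + |g| + 1, fun M hM => ?_⟩
  exact gd_up C H hF hL (by omega) hL' (by omega) (by omega)
    (fun ω => turns_up C H hF hQ hL hL' hodd t2 (by omega) hφ hm hs ω)

/-- **`DblLo` for simulated surfaces.** -/
theorem dblLo_of_sim (C : Cyh.CutZ g L Q A φ ψ S₂ S₁ m) (H : GlueZ L Q A φ ψ P₀)
    (hF : Ful L Q A ψ P₀) (hQ : NoLoop Q) (hoff : Off m P₀) (hL' : L + |g| ≤ L')
    (hφ : Set.InjOn φ {v | |v.1| ≤ L ∧ |v.2| ≤ L})
    (hm : ∀ x : ℤ, -L ≤ x → x < L → m x = (φ (x, g), φ (x + 1, g)))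
    (hs : SimG Q {f | f ∈ A ∧ f ∈ S₁} ZQ φ (hbox false g L) (KbS ZQ (hbox false g L))) :
    DblLo L' C H := by
  have hg := C.hi.hg
  have hg0 := abs_nonneg g
  refine dblLo_of (by omega) hL' C H hoff ⟨(2 * (L' + |g|) + 2).toNat, ?_⟩
  intro N _ hL hodd hN
  have t1 := Int.self_le_toNat (2 * (L' + |g|) + 2)
  have t2 : 2 * (L' + |g|) + 1 < N := by omega
  refine ⟨L' + |g| + |g| + 1, fun M hM => ?_⟩
  exact gd_lo C H hF hL (by omega) hL' (by omega) (by omega)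
    (fun ω => turns_lo C H hF hQ hL hL' hodd t2 (by omega) hφ hm hs ω)

end Dbl

/-! ## Environments -/

section Env

variable {E : SEnv} {L L' X : ℤ}

theorem noLoop_E : NoLoop E.Q := nl_ZQ.sheets _

theorem noLoop_RQ : NoLoop (RQ E) := by
  intro f k
  rw [RQ_c, RQ_c, show k + 1 + 3 = k + 3 + 1 by ring]
  exact noLoop_E f (k + 3)

variable {P₀ : Finset (VE × VE)} (h : E.TopOK) (hE : EnvB.Thk E) (hB : InBx E L)
  (hP : (Rel.win E L).Z ⊆ P₀) (H : GlueZ L (RQ E) (Rel.win E L).F cv cf P₀)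

include h hE hB hP

theorem ful_RQ : Ful L (RQ E) (Rel.win E L).F cf P₀ := ((ful_env hE hB).mono hP).rot

/-- **`TurnsC` for the rotated environments.** -/
theorem turnsC_E (h0 : 0 < L) : TurnsC H :=
  turnsC_of H (ful_RQ h hE hB hP) noLoop_RQ h0 (h.simRQ hB)

/-- **`DblUp` for the rotated environments.** -/
theorem dblUp_E (HL : LeftOf E X) (hX : |X| < L) (hL' : L + |X| ≤ L')
    (hoff : Off (colF X) P₀) : DblUp L' (cutZE HL hB hX) H :=
  dblUp_of_sim _ H (ful_RQ h hE hB hP) noLoop_RQ hoff hL' cv_inj.injOn (fun x _ _ => out_col X x)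
    (h.simR HL hB)

/-- **`DblLo` for the rotated environments.** -/
theorem dblLo_E (HL : LeftOf E X) (hX : |X| < L) (hL' : L + |X| ≤ L')
    (hoff : Off (colF X) P₀) : DblLo L' (cutZE HL hB hX) H :=
  dblLo_of_sim _ H (ful_RQ h hE hB hP) noLoop_RQ hoff hL' cv_inj.injOn (fun x _ _ => out_col X x)
    (h.simL HL hB)

end Env

end

end Pool.Agent.SixB
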