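import Pool.Agent.Lib.SixB.S3HcsJ
import Pool.Agent.Lib.SixB.S3AsmD
import Pool.Agent.Lib.SixB.S3bCoreF

/-!
# 6BD step 3: the premise `CsIn` (vertical reflection)

`csIn : CsIn` from `Hcs.hcs_of` for the rotated environments.
-/

set_option autoImplicit false
set_option linter.unusedSectionVars false

namespace Pool.Agent.SixB.Hcs

open Pool.Agent.Perc Pool.Agent.Perc.Q Relation Filter Topology ComplexConjugate
open Pool.Agent.SixB.Rel Pool.Agent.SixB.Dbl Pool.Agent.SixB.Asm3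
open Pool.Agent.SixB hiding Zs_split dst_congr qt_congr dE_mono

noncomputable section

variable {E : SEnv} {X L : ℤ} {R : Finset (ℤ × ℤ)}

/-- the left half does not see the insertion -/
theorem isl2_left (H : LeftOf E X) (hg : Rgt X L R) :
    isl2 (RQ E) (win E L).F (hL E X) (revFam (colF X)) (P0 E L R) =
      isl2 (RQ E) (win E L).F (hL E X) (revFam (colF X)) (win E L).Z := by
  ext a'
  rw [mem_isl2, mem_isl2]
  constructor
  · rintro ⟨b, a, ha, ha2, rfl⟩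
    rcases Finset.mem_union.mp ha with h1 | h1
    · exact ⟨b, a, h1, ha2, rfl⟩
    · exfalso
      obtain ⟨a₀, h2, rfl⟩ := Finset.mem_image.mp h1
      obtain ⟨⟨f₁, hf₁, k₁, e₁⟩, -⟩ := GlueC.dE_corner ha2
      obtain ⟨⟨f₂, hf₂, k₂, e₂⟩, -⟩ := GlueC.dE_corner (sd0_mem H hg h2)
      have h3 := sep_E H (mem_corS.mp hf₁).2 (mem_corS.mp hf₂).2 (k := k₁) (l := k₂)
        (by rw [← e₁, ← e₂])
      rw [← e₂, onCut_col] at h3
      have h4 : a₀.1.1 = X := h3.2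
      have := (hg.x h2).1
      omega
  · rintro ⟨b, a, ha, ha2, rfl⟩
    exact ⟨b, a, Finset.mem_union_left _ ha, ha2, rfl⟩

/-! ## Side conditions -/

theorem P0_sub (H : LeftOf E X) (hE : EnvB.Thk E) (hB : InBx E L) (hg : Rgt X L R) :
    P0 E L R ⊆ dE (RQ E) (win E L).F := by
  refine Finset.union_subset ?_ ?_
  · have h1 := (glueZ_env hE hB).rot.P_sub
    exact h1
  · intro a ha
    obtain ⟨a₀, h, rfl⟩ := Finset.mem_image.mp ha
    refine dE_mono ?_ (sd0_mem H hg h)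
    exact fun f hf => (mem_corS.mp hf).1

/-- the rotated environment with the relevant sides `P0` -/
theorem glueZ_RQ (H : LeftOf E X) (hE : EnvB.Thk E) (hB : InBx E L) (hg : Rgt X L R) :
    GlueZ L (RQ E) (win E L).F cv cf (P0 E L R) where
  chart := (glueZ_env hE hB).rot.chart
  dj := (glueZ_env hE hB).rot.dj
  nb := (glueZ_env hE hB).rot.nb
  P_sub := P0_sub H hE hB hg

theorem off_P0 (H : LeftOf E X) (hg : Rgt X L R) : Off (colF X) (P0 E L R) := by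
  have key : ∀ a : VE × VE, a.1.1 = none → a.2.1 = none → a.1.2.1 = X → a ∉ P0 E L R := by
    intro a h1 h2 h3 h4
    rcases Finset.mem_union.mp h4 with h5 | h5
    · have := (Z_left H h5 h1 h2).1
      omega
    · obtain ⟨a₀, h6, rfl⟩ := Finset.mem_image.mp h5
      have h7 : a₀.1.1 = X := h3
      have := (hg.x h6).1
      omega
  intro i
  exact ⟨key _ rfl rfl rfl, key _ rfl rfl rfl⟩

/-- the coefficients of the insertion -/
def cF (R : Finset (ℤ × ℤ)) (f : ℤ × ℤ → ℝ) (b : VE × VE) : ℝ :=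
  if b.1.1 = none ∧ b.2.1 = none ∧ (b.1.2, b.2.2) ∈ dE ZQ R then f b.2.2 - f b.1.2 else 0

theorem cF_sd0 {f : ℤ × ℤ → ℝ} {a : (ℤ × ℤ) × (ℤ × ℤ)} (ha : a ∈ dE ZQ R) :
    cF R f (sd0 a) = f a.2 - f a.1 := if_pos ⟨rfl, rfl, ha⟩

theorem EP_anti {a : (ℤ × ℤ) × (ℤ × ℤ)} (h : a ∈ Ins.EP R) : a.swap ∉ Ins.EP R := by
  intro h'
  unfold Ins.EP at h h'
  have h1 := (Finset.mem_filter.mp h).2
  have h2 := (Finset.mem_filter.mp h').2
  obtain ⟨⟨x, y⟩, ⟨x', y'⟩⟩ := a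
  simp only [Prod.mk.injEq, Prod.fst_swap, Prod.snd_swap] at h1 h2
  omega

theorem EP_or {a : (ℤ × ℤ) × (ℤ × ℤ)} (h : a ∈ dE ZQ R) : a ∈ Ins.EP R ∨ a.swap ∈ Ins.EP R := by
  unfold Ins.EP
  rw [Finset.mem_filter, Finset.mem_filter]
  have hs := swap_mem_dE.mpr h
  have key : ∀ f k, (ZQ.c f (k + 1) = ((ZQ.c f k).1 + 1, (ZQ.c f k).2) ∨
      ZQ.c f (k + 1) = ((ZQ.c f k).1, (ZQ.c f k).2 + 1)) ∨
      (ZQ.c f k = ((ZQ.c f (k + 1)).1 + 1, (ZQ.c f (k + 1)).2) ∨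
      ZQ.c f k = ((ZQ.c f (k + 1)).1, (ZQ.c f (k + 1)).2 + 1)) := by
    intro f k
    have e0 : (0 : ZMod 4) + 1 = 1 := rfl
    have e1 : (1 : ZMod 4) + 1 = 2 := rfl
    have e2 : (2 : ZMod 4) + 1 = 3 := rfl
    have e3 : (3 : ZMod 4) + 1 = 0 := rfl
    have c : ∀ l, ZQ.c f l = cor0 f l := fun _ => rfl
    rcases k4_cases k with rfl | rfl | rfl | rfl
    · rw [e0, c, c, cor0_0, cor0_1]
      simp
    · rw [e1, c, c, cor0_1, cor0_2]
      simp
    · rw [e2, c, c, cor0_2, cor0_3]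
      simp
    · rw [e3, c, c, cor0_3, cor0_0]
      simp
  obtain ⟨f, hf, k, hk⟩ := mem_dE.mp h
  rcases hk with rfl | rfl
  · rcases key f k with h1 | h1
    · exact Or.inl ⟨h, h1⟩
    · exact Or.inr ⟨hs, h1⟩
  · rcases key f k with h1 | h1
    · refine Or.inr ⟨hs, ?_⟩
      rw [Prod.swap_swap]
      exact h1
    · exact Or.inl ⟨h, h1⟩

theorem sup_F (R : Finset (ℤ × ℤ)) (f : ℤ × ℤ → ℝ) : Sup (cF R f) ((Ins.EP R).image sd0) where
  anti a := by
    unfold cF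
    have h1 : (a.swap.1.2, a.swap.2.2) ∈ dE ZQ R ↔ (a.1.2, a.2.2) ∈ dE ZQ R := by
      have h2 : (a.swap.1.2, a.swap.2.2) = (a.1.2, a.2.2).swap := rfl
      rw [h2]
      exact ⟨fun h => swap_mem_dE.mp h, fun h => swap_mem_dE.mpr h⟩
    by_cases h3 : a.1.1 = none ∧ a.2.1 = none ∧ (a.1.2, a.2.2) ∈ dE ZQ R
    · rw [if_pos h3, if_pos ⟨h3.2.1, h3.1, h1.mpr h3.2.2⟩]
      simp
    · rw [if_neg h3, if_neg fun h4 => h3 ⟨h4.2.1, h4.1, h1.mp h4.2.2⟩]
      simp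
  one a ha ha' := by
    obtain ⟨b, hb, rfl⟩ := Finset.mem_image.mp ha
    obtain ⟨b', hb', e⟩ := Finset.mem_image.mp ha'
    have h1 : b' = b.swap := sd0_inj e
    rw [h1] at hb'
    exact EP_anti hb hb'
  all a ha := by
    unfold cF at ha
    by_cases h3 : a.1.1 = none ∧ a.2.1 = none ∧ (a.1.2, a.2.2) ∈ dE ZQ R
    · obtain ⟨⟨s, p⟩, ⟨t, q⟩⟩ := a
      obtain ⟨h4, h5, h6⟩ := h3
      simp only at h4 h5 h6
      subst h4 h5
      rcases EP_or h6 with h7 | h7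
      · exact Or.inl (Finset.mem_image_of_mem sd0 h7)
      · exact Or.inr (Finset.mem_image_of_mem sd0 h7)
    · exact absurd (if_neg h3) ha

theorem EP_sub : Ins.EP R ⊆ dE ZQ R := Finset.filter_subset _ _

theorem hz_one {ψ : VE × VE → ℝ} {Z : Finset (VE × VE)} (a : VE × VE) (h1 : a ∉ Z)
    (h2 : a.swap ∉ Z) : hz ψ Z a = 1 := by
  unfold hz
  rw [if_neg h1, if_neg h2]

theorem Zp_rotE (h : VE × VE → ℂ) (P : Finset (VE × VE)) :
    Zp L (RQ E) (win E L).F cf h P =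
      Zp L E.Q (win E L).F (fun f => ((none : Option Bool), f)) h P := by
  have h1 := Zp_rot (L := L) (Q := E.Q) (win E L).F (fun f => ((none : Option Bool), f)) h P
  have h2 : (fun f => ((none : Option Bool), f)) ∘ rf0 = cf := rfl
  rw [h2] at h1
  exact h1

/-- **The vertical reflection for one environment.** -/
theorem cs_env (H : LeftOf E X) (hT : E.TopOK) (hE : EnvB.Thk E) (hB : InBx E L) (h0 : 0 < L)
    (hX : |X| < L) (hg : Rgt X L R) (ψ : VE × VE → ℝ) (f : ℤ × ℤ → ℝ) :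
    ‖∑ a ∈ Ins.EP R, ((f a.2 - f a.1 : ℝ) : ℂ) *
        Zp L E.Q (win E L).F (fun f => ((none : Option Bool), f))
          (fun b => hz ψ (win E L).Z b * sgE (sd0 a) b) (P0 E L R)‖ ^ 2 ≤
      16 * ((Zp (L + |X|) (dblS (RQ E) (hL E X) (revFam (colF X)) (os_L H))
        (cor2 false X (win E L).F (hL E X) cf (wZ false X L (L + |X|))) (dblψ false X cf)
        (dw (hz ψ (win E L).Z) (hz ψ (win E L).Z))
        (isl2 (RQ E) (win E L).F (hL E X) (revFam (colF X)) (win E L).Z)).re *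
        zJJ X (Ins.EP R) (fun a => f a.2 - f a.1)) ∧
    0 ≤ zJJ X (Ins.EP R) (fun a => f a.2 - f a.1) := by
  have hPZ : (win E L).Z ⊆ P0 E L R := Finset.subset_union_left
  have HZ := glueZ_RQ H hE hB hg
  have hoff := off_P0 H hg
  have hh : ∀ a, a ∉ P0 E L R → a.swap ∉ P0 E L R → hz ψ (win E L).Z a = 1 := fun a h1 h2 =>
    hz_one a (fun h => h1 (hPZ h)) fun h => h2 (hPZ h)
  have hsub : (Ins.EP R).image sd0 ⊆ (dE ZQ R).image sd0 := Finset.image_subset_image EP_sub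
  have key := hcs_of h0 (le_refl (L + |X|)) (cutZE H hB hX) HZ (ful_RQ hT hE hB hPZ) noLoop_RQ
    hoff (turnsC_E hT hE hB hPZ HZ h0) (dblLo_E hT hE hB hPZ HZ H hX le_rfl hoff)
    (dblUp_E hT hE hB hPZ HZ H hX le_rfl hoff) hh (sup_F R f)
    (hsub.trans Finset.subset_union_right) (by
      intro a ha
      obtain ⟨a₀, h, rfl⟩ := Finset.mem_image.mp ha
      exact sd0_mem H hg (EP_sub h))
  have hinj : ∀ a ∈ Ins.EP R, ∀ b ∈ Ins.EP R, sd0 a = sd0 b → a = b := fun a _ b _ h => sd0_inj h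
  rw [Finset.sum_image hinj, Finset.sum_image hinj] at key
  simp_rw [Finset.sum_image hinj] at key
  have e1 : ∀ a ∈ Ins.EP R, ((cF R f (sd0 a) : ℝ) : ℂ) *
      Zp L (RQ E) (win E L).F cf (fun b => hz ψ (win E L).Z b * sgE (sd0 a) b) (P0 E L R) =
      ((f a.2 - f a.1 : ℝ) : ℂ) * Zp L E.Q (win E L).F (fun f => ((none : Option Bool), f))
          (fun b => hz ψ (win E L).Z b * sgE (sd0 a) b) (P0 E L R) := by
    intro a ha
    rw [cF_sd0 (EP_sub ha), Zp_rotE]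
  rw [Finset.sum_congr rfl e1] at key
  have e2 : ∀ a ∈ Ins.EP R, ∀ a' ∈ Ins.EP R, ((cF R f (sd0 a) : ℝ) : ℂ) * ((cF R f (sd0 a') : ℝ) : ℂ) *
      Zp (L + |X|) (dblS (RQ E) (hR X) (colF X) (cutZE H hB hX).hi.half.os)
        (cor2 true X (win E L).F (hR X) cf (wZ true X L (L + |X|))) (dblψ true X cf)
        (dw (fun b => hz ψ (win E L).Z b * sgE (sd0 a) b)
          (fun b => hz ψ (win E L).Z b * sgE (sd0 a') b))
        (isl2 (RQ E) (win E L).F (hR X) (colF X) (P0 E L R)) =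
      (((f a.2 - f a.1) * (f a'.2 - f a'.1) * Kp a (Prod.map (mirX X) (mirX X) a') : ℝ) : ℂ) := by
    intro a ha a' ha'
    rw [cF_sd0 (EP_sub ha), cF_sd0 (EP_sub ha')]
    have h1 := right_zJJ H h0 hg (fun a h1 h2 => hz_one (ψ := ψ) a h1 h2) (EP_sub ha) (EP_sub ha')
    rw [h1]
    push_cast
    ring
  rw [Finset.sum_congr rfl fun a ha => Finset.sum_congr rfl fun a' ha' => e2 a ha a' ha',
    isl2_left H hg] at key
  have e3 : (∑ a ∈ Ins.EP R, ∑ a' ∈ Ins.EP R,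
      (((f a.2 - f a.1) * (f a'.2 - f a'.1) * Kp a (Prod.map (mirX X) (mirX X) a') : ℝ) : ℂ)).re =
      zJJ X (Ins.EP R) (fun a => f a.2 - f a.1) := by
    unfold zJJ
    rw [Complex.re_sum]
    refine Finset.sum_congr rfl fun a _ => ?_
    rw [Complex.re_sum]
    exact Finset.sum_congr rfl fun a' _ => Complex.ofReal_re _
  rw [e3] at key
  exact ⟨key.1, key.2.2⟩

end

end Pool.Agent.SixB.Hcs

namespace Pool.Agent.SixB.Asm3

open Complex Filter Topology Metric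
open Pool.Agent.Perc Pool.Agent.Perc.Q
open scoped ComplexConjugate

noncomputable section

variable {P : Finset (ℤ × ℤ)} {L : ℕ} {g : ℤ → ℤ × ℤ} {ι : Type} {l : Filter ι} {n : ι → ℕ}
  {j : ι → ℤ → ℝ} {z0 : ℂ}

/-- the insertion is strictly on the right of the cut column and inside the box -/
theorem SFam.rgt (D : SFam P L g l n j z0) {z : ℂ} {r : ℝ} {i : ι} (hn : 0 < n i)
    (hz : z ∈ ball z0 (D.κ / 4)) (hr : 0 < r) (hr' : r < D.κ / 10 ^ 5) (X Y : ℤ) :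
    Hcs.Rgt (D.X0 i) (bx (D.slb z r i) X Y) (D.rc z r i) := by
  have hκ := D.hκ
  have hκ' := D.hκ'
  have h1 := D.hX₁
  have h2 := D.hX₂
  have hn0 : (0 : ℝ) < n i := by exact_mod_cast hn
  have hn1 : (1 : ℝ) ≤ n i := by exact_mod_cast hn
  have e1 : |z.re - z0.re| < D.κ / 4 := by
    have h3 := mem_ball.mp hz
    rw [dist_eq] at h3
    have h4 := abs_re_le_norm (z - z0)
    rw [sub_re] at h4
    linarith
  rw [abs_lt] at e1
  -- columns
  have a1 : (n i : ℝ) * D.X₁ ≤ n i * z.re := mul_le_mul_of_nonneg_left (by linarith) hn0.le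
  have a2 : (n i : ℝ) * z.re < n i * D.X₂ := mul_lt_mul_of_pos_left (by linarith) hn0
  have b1 : (n i : ℤ) * D.X₁ ≤ ⌊(n i : ℝ) * z.re⌋ := by
    rw [Int.le_floor]
    push_cast
    exact a1
  have b2 : ⌊(n i : ℝ) * z.re⌋ < (n i : ℤ) * D.X₂ := by
    rw [Int.floor_lt]
    push_cast
    exact a2
  -- the radius
  have c0 : 32 * r * n i ≤ n i := by nlinarith
  have c1 : D.rR r i ≤ n i := by
    unfold SFam.rR
    rw [Int.ceil_le]
    exact_mod_cast c0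
  have c2 : D.rR r i ≤ ((⌈100 * r * n i⌉₊ : ℕ) : ℤ) := by
    unfold SFam.rR
    rw [Int.ceil_le]
    have := Nat.le_ceil (100 * r * n i)
    have h3 : 32 * r * n i ≤ 100 * r * n i := by
      have : 0 < r * n i := by positivity
      nlinarith
    push_cast
    linarith
  have hnz : (0 : ℤ) < n i := by exact_mod_cast hn
  intro f hf
  have hf' : (⌊(n i : ℝ) * z.re⌋ - D.rR r i ≤ f.1 ∧ f.1 < ⌊(n i : ℝ) * z.re⌋ + D.rR r i) ∧
      ⌊(n i : ℝ) * z.im⌋ - D.rR r i ≤ f.2 ∧ f.2 < ⌊(n i : ℝ) * z.im⌋ + D.rR r i := by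
    unfold SFam.rc RF at hf
    rw [Finset.mem_product, Finset.mem_Ico, Finset.mem_Ico] at hf
    exact hf
  obtain ⟨⟨k1, k2⟩, k3, k4⟩ := hf'
  have q1 := abs_le.mp (le_refl |(n i : ℤ) * D.X₁|)
  have q2 := abs_le.mp (le_refl |(n i : ℤ) * D.X₂|)
  have q3 := abs_le.mp (le_refl |⌊(n i : ℝ) * z.im⌋|)
  have q4 := abs_nonneg X
  have q5 := abs_nonneg Y
  constructor
  · show (n i : ℤ) * (D.X₁ - 4) < f.1
    have : (n i : ℤ) * (D.X₁ - 4) = n i * D.X₁ - 4 * n i := by ring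
    rw [this]
    omega
  · rw [Rel.mem_RF0]
    have hb : bx (D.slb z r i) X Y = |(n i : ℤ) * D.X₁| + |(n i : ℤ) * D.X₂| +
        |⌊(n i : ℝ) * z.im⌋| + 2 * |X| + 2 * |Y| + 10 * ((⌊D.κ * n i / 2⌋₊ : ℕ) : ℤ) +
        ((⌈100 * r * n i⌉₊ : ℕ) : ℤ) + (((n i : ℤ) * D.X₂ - n i * D.X₁).toNat : ℤ) + 2 := rfl
    rw [hb]
    have q6 := abs_nonneg ((n i : ℤ) * D.X₁)
    have q7 := abs_nonneg ((n i : ℤ) * D.X₂)
    have q8 := abs_nonneg (⌊(n i : ℝ) * z.im⌋)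
    omega

/-- **The premise `CsIn`.** -/
theorem csIn : CsIn := by
  intro P L g hP hg ι l n hn j hj z0 hz0 D
  have hκ := D.hκ
  refine ⟨D.κ / 10 ^ 5, by positivity, fun z hz r hr hr' => ?_⟩
  filter_upwards [D.slb_ok hn hz hr hr', hn.eventually_gt_atTop 0] with i hok hn0
  intro x y hxy
  have HL := D.leftOf (z := z) (r := r) hn0 hxy
  have hX := D.X0_lt (z := z) (r := r) hn0 hxy
  have hg' := D.rgt hn0 hz hr hr' (-2 * y) (-2 * x)
  have key := Hcs.cs_env HL (hok.topOK ∅ (-2 * y) (-2 * x)) (BlkS.thk hok)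
    (inBx (D.slb z r i) (-2 * y) (-2 * x)) (bx_pos (D.slb z r i) (-2 * y) (-2 * x)) hX hg'
    ((D.slb z r i).ph ∅ (-2 * y) (-2 * x)) (D.ins z r i)
  have e1 : zEE (D.slb z r i) (D.X0 i) (-2 * y) (-2 * x) = _ := zEE_hcs HL (sameU_refl _)
  rw [abs_of_nonneg key.2, e1]
  refine le_trans (le_of_eq ?_) (key.1.trans (le_of_eq ?_))
  · rfl
  · rw [mul_assoc]
    rfl

end

end Pool.Agent.SixB.Asm3
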