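import Pool.Agent.Lib.SixB.S3Cyln
import Pool.Agent.Lib.SixB.S3PlaneH
import Pool.Agent.Lib.SixB.S3ZplE

/-!
# 6BD: cylindrification: chart of the core, the condition `Ful`

* `glv_pN`, `cy_chartA`: the core of the plane surface in the cylindrification.
* `IslM.ful`: `Ful` from `IslM` (island sides = boundary sides of all windows not on the outer boundary); `ful_env`.
* `Ful.rot`: `Ful` for the rotated surface.
* `Ful.mono`; `IslM.ring_bd`, `ring_env`: condition `ful` of `Surf.glueC`.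
-/

set_option autoImplicit false
set_option linter.unusedSectionVars false

namespace Pool.Agent.SixB.Rel

open Pool.Agent.Perc Pool.Agent.Perc.Q Relation Filter Topology
open Pool.Agent.SixB hiding Zs_split dst_congr qt_congr dE_mono

noncomputable section

variable {V Φ : Type} [DecidableEq V] [DecidableEq Φ]
variable {Q : QC V Φ} {A : Finset Φ} {L : ℤ} {φ : ℤ × ℤ → V} {ψ : ℤ × ℤ → Φ}
  {P P' : Finset (V × V)} {N : ℕ} [hN : Fact (3 ≤ N)]

/-- the vertices of the closed box in the cylindrification -/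
theorem glv_pN (hL : 2 * L < N) {u : ℤ × ℤ} (h1 : |u.1| ≤ L) (h2 : |u.2| ≤ L) :
    glv Φ N L φ (pN N u) = Sum.inl (φ u) := by
  rw [glv_in ⟨u, h1, h2, rfl⟩, lft_pN hL h1 h2]

/-- the core in the cylindrification -/
theorem cy_chartA (H : GlueZ L Q A φ ψ P) (hL : 2 * (L + 1) < N) :
    QChart Q (cyQ N H hL) A Sum.inl Sum.inl 0 where
  inj _ _ _ _ _ _ h := Sum.inl.inj h
  cor f hf k := by
    rw [add_zero]
    exact cyc_A (L := L) (φ := φ) hf k

/-! ## `Ful` -/

theorem Ful.mono (h : Ful L Q A ψ P) (hP : P ⊆ P') : Ful L Q A ψ P' := by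
  intro f hf k hk
  rcases h f hf k hk with h1 | h1
  · exact Or.inl (hP h1)
  · exact Or.inr (hP h1)

theorem exists_win {f : Φ} (hf : f ∈ FZ L A ψ) : ∃ M, L ≤ M ∧ f ∈ FM L A ψ M := by
  rcases hf with hf | ⟨g, hg, rfl⟩
  · exact ⟨L, le_rfl, Finset.mem_union_left _ hf⟩
  · refine ⟨|g.1| + |g.2| + |L| + 1, ?_, ?_⟩
    · have := abs_nonneg g.1
      have := abs_nonneg g.2
      have := le_abs_self L
      omega
    · refine Finset.mem_union_right _ (Finset.mem_image_of_mem _ (Finset.mem_sdiff.mpr ⟨?_, hg⟩))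
      rw [mem_RF0]
      have h1 := abs_le.mp (le_refl |g.1|)
      have h2 := abs_le.mp (le_refl |g.2|)
      have h3 := abs_nonneg g.1
      have h4 := abs_nonneg g.2
      have h5 := abs_nonneg L
      omega

theorem FM_FZ {M : ℤ} {f : Φ} (hf : f ∈ FM L A ψ M) : f ∈ FZ L A ψ := by
  rcases Finset.mem_union.mp hf with h | h
  · exact Or.inl h
  · obtain ⟨g, hg, rfl⟩ := Finset.mem_image.mp h
    exact Or.inr ⟨g, (Finset.mem_sdiff.mp hg).2, rfl⟩

/-- **`Ful` from the island sides.** -/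
theorem IslM.ful (H : IslM L Q A ψ P) : Ful L Q A ψ P := by
  intro f hf k hk
  obtain ⟨M, hM, hfM⟩ := exists_win hf
  left
  by_contra h1
  have key : ∀ M', L ≤ M' → M ≤ M' → sd Q f k ∈ bS Q (FM L A ψ M') := by
    intro M' h2 h3
    have h4 : f ∈ FM L A ψ M' := by
      rw [FM_split hM h3]
      exact Finset.mem_union_left _ hfM
    refine mem_bS.mpr ⟨sd_mem h4 k, ?_⟩
    intro g hg l h5
    exact hk g (FM_FZ (by exact_mod_cast hg)) l h5
  exact H.out M (M + 1) hM le_rfl _ (key M hM le_rfl) h1 (key (M + 1) (by omega) (by omega))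

/-- boundary sides of the core and the first ring which are sides of the core are island sides
(condition `ful` of `Surf.glueC`) -/
theorem IslM.ring_bd (H : IslM L Q A ψ P) {a : V × V}
    (ha : a ∈ bS Q (A ∪ (RFb (0, 0) (L + 1) \ RFb (0, 0) L).image ψ)) (h : a ∈ dE Q A) : a ∈ P := by
  by_contra h1
  refine H.out L (L + 1) le_rfl le_rfl a ?_ h1 ha
  refine mem_bS.mpr ⟨?_, fun f hf k => (mem_bS.mp ha).2 f ?_ k⟩
  · exact dE_mono Finset.subset_union_left h
  · have h2 : f ∈ FM L A ψ L := by exact_mod_cast hf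
    unfold FM at h2
    rw [Finset.sdiff_self, Finset.image_empty, Finset.union_empty] at h2
    exact_mod_cast Finset.mem_union_left _ h2

theorem ring_env {E : SEnv} (hE : EnvB.Thk E) (hL : InBx E L)
    {a : (Option Bool × (ℤ × ℤ)) × (Option Bool × (ℤ × ℤ))}
    (ha : a ∈ bS E.Q ((win E L).F ∪ (RFb (0, 0) (L + 1) \ RFb (0, 0) L).image
      (fun f => ((none : Option Bool), f)))) (h : a ∈ dE E.Q (win E L).F) : a ∈ (win E L).Z :=
  (islM_env hE hL).ring_bd ha h

theorem ful_env {E : SEnv} (hE : EnvB.Thk E) (hL : InBx E L) :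
    Ful L E.Q (win E L).F (fun f => ((none : Option Bool), f)) (win E L).Z :=
  (islM_env hE hL).ful

/-- `Ful` for the rotated surface -/
theorem Ful.rot (h : Ful L Q A ψ P) : Ful L (relQ Q fun _ => 3) A (ψ ∘ rf0) P := by
  have e : FZ L A (ψ ∘ rf0) = FZ L A ψ := by
    ext f
    constructor
    · rintro (h1 | ⟨g, hg, rfl⟩)
      · exact Or.inl h1
      · exact Or.inr ⟨rf0 g, fun h2 => hg (mem_rf0.mp h2), rfl⟩
    · rintro (h1 | ⟨g, hg, rfl⟩)
      · exact Or.inl h1
      · refine Or.inr ⟨(-g.2 - 1, g.1), fun h2 => hg ?_, ?_⟩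
        · rw [← rf0_surj g]
          exact mem_rf0.mpr h2
        · show ψ g = ψ (rf0 (-g.2 - 1, g.1))
          rw [rf0_surj]
  intro f hf k hk
  rw [e] at hf hk
  rw [sd_relQ] at hk ⊢
  exact h f hf _ (ini_relQ.mp hk)

end

end Pool.Agent.SixB.Rel
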