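import Pool.Agent.Lib.SixB.S3SlabSurf
import Pool.Agent.Lib.SixB.S3CylnC
import Pool.Agent.Lib.SixB.S3EnvN

/-!
# 6BD step 3: the environment of a slab as a surface with a slab (row R17)

* `Slb.solF g up`: the finset of the solid faces of a block; `Slb.slabS S : SlabS (Option Bool)`.
* `Slb.sf_Q`: `(S.slabS.sf X Y).Q = (S.env W X Y).Q` (by `rfl`); `Slb.slabS_ok`; `Slb.exists_in`; `Slb.core_env`.
* `Slb.Z_sub`, `Slb.ful`: boundary sides.
* `Slb.shc_u`, `Slb.shc_l`: the corners, `Slb.ph_u`, `Slb.ph_l`: the phases, `Slb.Z_u`, `Slb.Z_l`: the island sides are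
  shift covariant on the upper and on the lower part.
-/

set_option autoImplicit false
set_option linter.unusedSectionVars false

namespace Pool.Agent.SixB

open Pool.Agent.Perc Pool.Agent.Perc.Q
open Pool.Agent.SixB.Rel (mem_RF0 RF0_mono)

namespace Slb

noncomputable section

/-! ## The solid faces -/

/-- the solid faces of a block -/
def solF (g : BGeo) (up : Bool) : Finset (ℤ × ℤ) :=
  (Finset.Ico (g.x1 - 7 * g.k) (g.x2 + 7 * g.k) ×ˢ Finset.Ico (g.yc - g.c) (g.yc + g.c)).filter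
    fun f => g.solid up f

theorem mem_solF {g : BGeo} {up : Bool} {f : ℤ × ℤ} : f ∈ solF g up ↔ g.solid up f := by
  unfold solF
  rw [Finset.mem_filter, Finset.mem_product, Finset.mem_Ico, Finset.mem_Ico]
  refine ⟨fun h => h.2, fun h => ⟨?_, h⟩⟩
  obtain ⟨h1, h2, h3, h4, -⟩ := h
  unfold BGeo.hgt at h1 h2
  cases up
  · rw [if_neg (by simp)] at h1 h2
    omega
  · rw [if_pos rfl] at h1 h2
    omega

variable (S : Slb)

theorem geo_a (X : ℤ) : (S.geo X).a = S.a := rfl

/-- shifted blocks -/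
theorem solid_shv {X : ℤ} {up : Bool} {f : ℤ × ℤ} :
    (S.geo X).solid up (shv X f) ↔ (S.geo 0).solid up f := by
  unfold BGeo.solid BGeo.cham BGeo.hgt geo shv
  simp only
  have e1 : S.x1 + X - 7 * (S.k : ℤ) ≤ f.1 + X ↔ S.x1 + 0 - 7 * (S.k : ℤ) ≤ f.1 := by omega
  cases up <;> simp only [if_true, Bool.false_eq_true, if_false] <;> omega

theorem mem_shF {X : ℤ} {A : Finset (ℤ × ℤ)} {f : ℤ × ℤ} : f ∈ shF X A ↔ shv (-X) f ∈ A := by
  unfold shF
  rw [Finset.mem_image]
  constructor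
  · rintro ⟨g, hg, rfl⟩
    have : shv (-X) (shv X g) = g := by
      unfold shv
      simp
    rwa [this]
  · intro h
    refine ⟨_, h, ?_⟩
    unfold shv
    simp

theorem mem_shF_solF {X : ℤ} {up : Bool} {f : ℤ × ℤ} :
    f ∈ shF X (solF (S.geo 0) up) ↔ (S.geo X).solid up f := by
  rw [mem_shF, mem_solF, ← solid_shv (X := X)]
  have : shv X (shv (-X) f) = f := by
    unfold shv
    simp
  rw [this]

/-! ## The surface -/

/-- the environment as a surface with a slab -/
def slabS : SlabS (Option Bool) where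
  s0 := none
  σ X Y := msig fun i : Bool => if i then (S.geo X).mouth true else (S.geo Y).mouth false
  Hu := solF (S.geo 0) true
  Hl := solF (S.geo 0) false
  Ku := S.Up.image (Prod.mk (some true))
  Kl := S.Lo.image (Prod.mk (some false))

theorem sf_Q (W : Finset (ℤ × ℤ)) (X Y : ℤ) : (S.slabS.sf X Y).Q = (S.env W X Y).Q := rfl

variable {S} {W W' : Finset (ℤ × ℤ)} {X Y X' Y' t : ℤ} {f g : ℤ × ℤ} {k l : ZMod 4}

theorem adj_u : (EnvB.mu (S.env W X Y) true).adj f k ↔
    (S.x1 + X ≤ f.1 ∧ f.1 < S.x2 + X) ∧ f.2 = S.yc + S.a ∧ (k = 0 ∨ k = 1) := EnvB.adj_up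

theorem adj_l : (EnvB.mu (S.env W X Y) false).adj f k ↔
    (S.x1 + Y ≤ f.1 ∧ f.1 < S.x2 + Y) ∧ f.2 + 1 = S.yc - S.a ∧ (k = 2 ∨ k = 3) := EnvB.adj_lo

open Classical in
theorem sig_some (i : Bool) : msig (EnvB.mu (S.env W X Y)) f k (some i) =
    if (EnvB.mu (S.env W X Y) i).adj f k then none else some i :=
  congrArg Prod.fst (EnvB.cor_pk (E := S.env W X Y) i f k)

open Classical in
theorem sig_none : msig (EnvB.mu (S.env W X Y)) f k none =
    if (EnvB.mu (S.env W X Y) true).adj f k then some true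
    else if (EnvB.mu (S.env W X Y) false).adj f k then some false else none := by
  by_cases h1 : (EnvB.mu (S.env W X Y) true).adj f k
  · rw [if_pos h1, EnvB.msig_of h1, Equiv.swap_apply_left]
  · rw [if_neg h1]
    by_cases h2 : (EnvB.mu (S.env W X Y) false).adj f k
    · rw [if_pos h2, EnvB.msig_of h2, Equiv.swap_apply_left]
    · rw [if_neg h2, EnvB.msig_not (fun i => by cases i <;> assumption)]
      rfl

theorem env_c (s : Option Bool) : (S.env W X Y).Q.c (s, f) k =
    (msig (EnvB.mu (S.env W X Y)) f k s, ZQ.c f k) := rfl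

theorem zc_shv : ZQ.c (shv t f) k = shv t (ZQ.c f k) := by
  obtain ⟨x, y⟩ := f
  rcases EnvB.k4 k with rfl | rfl | rfl | rfl
  · rfl
  · show (x + t + 1, y) = (x + 1 + t, y)
    rw [add_right_comm]
  · show (x + t + 1, y + 1) = (x + 1 + t, y + 1)
    rw [add_right_comm]
  · rfl

theorem adj_u_shv : (EnvB.mu (S.env W' (X + t) Y') true).adj (shv t f) k ↔
    (EnvB.mu (S.env W X Y) true).adj f k := by
  rw [adj_u, adj_u]
  unfold shv
  simp only
  have e1 : S.x1 + (X + t) ≤ f.1 + t ↔ S.x1 + X ≤ f.1 := by omega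
  have e2 : f.1 + t < S.x2 + (X + t) ↔ f.1 < S.x2 + X := by omega
  rw [e1, e2]

theorem adj_l_shv : (EnvB.mu (S.env W' X' (Y + t)) false).adj (shv t f) k ↔
    (EnvB.mu (S.env W X Y) false).adj f k := by
  rw [adj_l, adj_l]
  unfold shv
  simp only
  have e1 : S.x1 + (Y + t) ≤ f.1 + t ↔ S.x1 + Y ≤ f.1 := by omega
  have e2 : f.1 + t < S.x2 + (Y + t) ↔ f.1 < S.x2 + Y := by omega
  rw [e1, e2]

/-- the corners of the upper part are shift covariant -/
theorem shc_u {s : Option Bool} (h : s = some true ∨ (s = none ∧ S.yc - S.a ≤ f.2)) :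
    (S.env W' (X + t) Y').Q.c (s, shv t f) k =
      Prod.map id (shv t) ((S.env W X Y).Q.c (s, f) k) := by
  classical
  rw [env_c, env_c]
  refine Prod.ext ?_ zc_shv
  show msig _ _ k s = msig _ _ k s
  rcases h with rfl | ⟨rfl, h⟩
  · rw [sig_some, sig_some]
    exact if_congr adj_u_shv rfl rfl
  · have h1 : ¬ (EnvB.mu (S.env W X Y) false).adj f k := by
      rw [adj_l]
      omega
    have h2 : ¬ (EnvB.mu (S.env W' (X + t) Y') false).adj (shv t f) k := by
      rw [adj_l]
      unfold shv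
      simp only
      omega
    rw [sig_none, sig_none, if_neg h1, if_neg h2]
    exact if_congr adj_u_shv rfl rfl

/-- the corners of the lower part are shift covariant -/
theorem shc_l {s : Option Bool} (h : s = some false ∨ (s = none ∧ f.2 < S.yc + S.a)) :
    (S.env W' X' (Y + t)).Q.c (s, shv t f) k =
      Prod.map id (shv t) ((S.env W X Y).Q.c (s, f) k) := by
  classical
  rw [env_c, env_c]
  refine Prod.ext ?_ zc_shv
  show msig _ _ k s = msig _ _ k s
  rcases h with rfl | ⟨rfl, h⟩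
  · rw [sig_some, sig_some]
    exact if_congr adj_l_shv rfl rfl
  · have h1 : ¬ (EnvB.mu (S.env W X Y) true).adj f k := by
      rw [adj_u]
      omega
    have h2 : ¬ (EnvB.mu (S.env W' X' (Y + t)) true).adj (shv t f) k := by
      rw [adj_u]
      unfold shv
      simp only
      omega
    rw [sig_none, sig_none, if_neg h1, if_neg h2]
    exact if_congr adj_l_shv rfl rfl

/-! ## The conditions -/

theorem k_pos (h : S.Ok) : 0 < S.k := by
  have h1 := h.ha
  have h2 := h.hak
  omega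

theorem thk (h : S.Ok) : EnvB.Thk (S.env W X Y) := by
  have h1 := h.ha
  have h2 := h.hak
  refine ⟨?_, ?_⟩
  · show S.a < 3 * S.k + (S.x2 - S.x1).toNat
    omega
  · show S.a < 3 * S.k + (S.x2 - S.x1).toNat
    omega

/-- the faces at the upper mouth are solid -/
theorem adj_solid_u (h : S.Ok) (ha : (EnvB.mu (S.env W X Y) true).adj f k) :
    (S.geo X).solid true f := by
  rw [adj_u] at ha
  have h1 := h.ha
  have h2 := h.hak
  unfold BGeo.solid BGeo.cham BGeo.hgt geo
  simp only [if_true]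
  omega

theorem adj_solid_l (h : S.Ok) (ha : (EnvB.mu (S.env W X Y) false).adj f k) :
    (S.geo Y).solid false f := by
  rw [adj_l] at ha
  have h1 := h.ha
  have h2 := h.hak
  unfold BGeo.solid BGeo.cham BGeo.hgt geo
  simp only [Bool.false_eq_true, if_false]
  omega

theorem σ_eq : S.slabS.σ X Y = msig (EnvB.mu (S.env W X Y)) := rfl

/-- the rows `y₀ ≤ y < y₁` are full -/
theorem slabS_ok (h : S.Ok) {y₀ y₁ : ℤ} (h0 : S.yc - S.a < y₀) (hlt : y₀ < y₁)
    (h1 : y₁ < S.yc + S.a) : S.slabS.Ok y₀ y₁ where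
  hlt := hlt
  Hu g hg := by
    obtain ⟨h2, -⟩ := mem_solF.mp hg
    unfold BGeo.hgt geo at h2
    simp only [if_true] at h2
    omega
  Hl g hg := by
    obtain ⟨h2, -⟩ := mem_solF.mp hg
    unfold BGeo.hgt geo at h2
    simp only [Bool.false_eq_true, if_false] at h2
    omega
  K0u f hf := by
    obtain ⟨g, -, rfl⟩ := Finset.mem_image.mp hf
    exact Option.some_ne_none _
  K0l f hf := by
    obtain ⟨g, -, rfl⟩ := Finset.mem_image.mp hf
    exact Option.some_ne_none _
  base X Y g k hu hl := by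
    rw [σ_eq (W := ∅)]
    show msig _ g k none = none
    rw [sig_none, if_neg, if_neg]
    · exact fun ha => hl ((mem_shF_solF S).mpr (adj_solid_l h ha))
    · exact fun ha => hu ((mem_shF_solF S).mpr (adj_solid_u h ha))
  mu f hf X Y k := by
    obtain ⟨g, -, rfl⟩ := Finset.mem_image.mp hf
    rw [σ_eq (W := ∅), σ_eq (W := ∅)]
    have h2 := congrArg Prod.fst (shc_u (S := S) (W := ∅) (W' := ∅) (X := 0) (Y := 0) (Y' := Y)
      (t := X) (f := g) (k := k) (s := some true) (Or.inl rfl))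
    rw [zero_add] at h2
    exact h2
  ml f hf X Y k := by
    obtain ⟨g, -, rfl⟩ := Finset.mem_image.mp hf
    rw [σ_eq (W := ∅), σ_eq (W := ∅)]
    have h2 := congrArg Prod.fst (shc_l (S := S) (W := ∅) (W' := ∅) (X := 0) (Y := 0) (X' := X)
      (t := Y) (f := g) (k := k) (s := some false) (Or.inl rfl))
    rw [zero_add] at h2
    exact h2
  cu f hf k hk := by
    obtain ⟨g, -, rfl⟩ := Finset.mem_image.mp hf
    rw [σ_eq (W := ∅)] at hk
    change msig _ g k (some true) = none at hk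
    rw [sig_some] at hk
    by_cases ha : (EnvB.mu (S.env ∅ 0 0) true).adj g k
    · rw [adj_u] at ha
      obtain ⟨-, h2, h3⟩ := ha
      show y₁ < (ZQ.c g k).2
      have : (ZQ.c g k).2 = g.2 := by rcases h3 with rfl | rfl <;> rfl
      omega
    · rw [if_neg ha] at hk
      exact absurd hk (Option.some_ne_none _)
  cl f hf k hk := by
    obtain ⟨g, -, rfl⟩ := Finset.mem_image.mp hf
    rw [σ_eq (W := ∅)] at hk
    change msig _ g k (some false) = none at hk
    rw [sig_some] at hk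
    by_cases ha : (EnvB.mu (S.env ∅ 0 0) false).adj g k
    · rw [adj_l] at ha
      obtain ⟨-, h2, h3⟩ := ha
      show (ZQ.c g k).2 < y₀
      have : (ZQ.c g k).2 = g.2 + 1 := by rcases h3 with rfl | rfl <;> rfl
      omega
    · rw [if_neg ha] at hk
      exact absurd hk (Option.some_ne_none _)
  sep f hf f' hf' k l he := by
    obtain ⟨g, -, rfl⟩ := Finset.mem_image.mp hf
    obtain ⟨g', -, rfl⟩ := Finset.mem_image.mp hf'
    rw [σ_eq (W := ∅)] at he ⊢
    change msig _ g k (some true) = msig _ g' l (some false) at he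
    show msig _ g k (some true) = none
    rw [sig_some] at he ⊢
    rw [sig_some] at he
    by_cases ha : (EnvB.mu (S.env ∅ 0 0) true).adj g k
    · rw [if_pos ha]
    · rw [if_neg ha] at he
      split_ifs at he
      exact absurd he (by simp)

/-! ## The core -/

theorem mem_K {f : Option Bool × (ℤ × ℤ)} : f ∈ (S.slabS.sf X Y).K ↔
    (f.1 = some true ∧ f.2 ∈ shF X S.Up) ∨ (f.1 = some false ∧ f.2 ∈ shF Y S.Lo) := by
  show f ∈ shK X (S.Up.image (Prod.mk (some true))) ∪ shK Y (S.Lo.image (Prod.mk (some false))) ↔ _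
  unfold shK shF
  rw [Finset.mem_union, Finset.mem_image, Finset.mem_image, Finset.mem_image, Finset.mem_image]
  constructor
  · rintro (⟨g, hg, rfl⟩ | ⟨g, hg, rfl⟩)
    · obtain ⟨u, hu, rfl⟩ := Finset.mem_image.mp hg
      exact Or.inl ⟨rfl, u, hu, rfl⟩
    · obtain ⟨u, hu, rfl⟩ := Finset.mem_image.mp hg
      exact Or.inr ⟨rfl, u, hu, rfl⟩
  · rintro (⟨h1, u, hu, h2⟩ | ⟨h1, u, hu, h2⟩)
    · exact Or.inl ⟨_, Finset.mem_image_of_mem _ hu, Prod.ext h1.symm h2⟩
    · exact Or.inr ⟨_, Finset.mem_image_of_mem _ hu, Prod.ext h1.symm h2⟩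

theorem mem_H : f ∈ (S.slabS.sf X Y).H ↔ (S.geo X).solid true f ∨ (S.geo Y).solid false f := by
  show f ∈ shF X (solF (S.geo 0) true) ∪ shF Y (solF (S.geo 0) false) ↔ _
  rw [Finset.mem_union, mem_shF_solF, mem_shF_solF]

/-- the core is the environment in its box -/
theorem core_env (L : ℤ) : (S.slabS.sf X Y).core L = (S.env (RFb (0, 0) L) X Y).F := by
  ext f
  rw [Surf.mem_core, mem_H, mem_K, EnvB.mem_F, EnvB.mem_base]
  constructor
  · rintro (⟨h1, h2, h3⟩ | h | h)
    · exact Or.inl ⟨h1, h2, fun h => h3 (Or.inl h), fun h => h3 (Or.inr h)⟩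
    · exact Or.inr (Or.inl h)
    · exact Or.inr (Or.inr h)
  · rintro (⟨h1, h2, h3, h4⟩ | h | h)
    · exact Or.inl ⟨h1, h2, fun h => h.elim h3 h4⟩
    · exact Or.inr (Or.inl h)
    · exact Or.inr (Or.inr h)

/-- everything is in a large box -/
theorem in_of (h : S.Ok) {L B : ℤ} (hB : ∀ f ∈ S.D, |f.1| ≤ B ∧ |f.2| ≤ B)
    (h1 : |S.x1| + |S.x2| + |S.yc| + |X| + |Y| + 10 * (S.k : ℤ) + (S.x2 - S.x1).toNat + 2 ≤ L)
    (h2 : B + |X| + 1 ≤ L) (h3 : B + |Y| + 1 ≤ L) : (S.slabS.sf X Y).In L := by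
  have hX1 := neg_abs_le X
  have hX2 := le_abs_self X
  have hY1 := neg_abs_le Y
  have hY2 := le_abs_self Y
  have a1 := neg_abs_le S.x1
  have a2 := le_abs_self S.x1
  have a3 := neg_abs_le S.x2
  have a4 := le_abs_self S.x2
  have a5 := neg_abs_le S.yc
  have a6 := le_abs_self S.yc
  have hH : ∀ g ∈ (S.slabS.sf X Y).H, g ∈ RFb (0, 0) (L - 1) := by
    intro g hg
    rw [mem_RF0]
    rw [mem_H] at hg
    rcases hg with ⟨b1, b2, b3, b4, -⟩ | ⟨b1, b2, b3, b4, -⟩
    · unfold BGeo.hgt geo at b1 b2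
      unfold geo at b3 b4
      simp only [if_true] at b1 b2 b3 b4
      push_cast at b2
      omega
    · unfold BGeo.hgt geo at b1 b2
      unfold geo at b3 b4
      simp only [Bool.false_eq_true, if_false] at b1 b2 b3 b4
      push_cast at b2
      omega
  refine ⟨?_, hH, ?_, ?_, ?_, ?_⟩
  · have := abs_nonneg S.x1
    have := abs_nonneg S.x2
    have := abs_nonneg S.yc
    omega
  · intro f hf
    rw [mem_RF0]
    rcases mem_K.mp hf with ⟨-, h4⟩ | ⟨-, h4⟩
    · rw [mem_shF] at h4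
      have h5 := hB _ (up_sub h4)
      unfold shv at h5
      simp only [abs_le] at h5
      omega
    · rw [mem_shF] at h4
      have h5 := hB _ (lo_sub h4)
      unfold shv at h5
      simp only [abs_le] at h5
      omega
  · intro f hf
    show f.1 ≠ none
    rcases mem_K.mp hf with ⟨h4, -⟩ | ⟨h4, -⟩ <;> rw [h4] <;> exact Option.some_ne_none _
  · intro g k hg
    refine RF0_mono (by omega) (hH g (mem_H.mpr ?_))
    by_contra hcon
    push Not at hcon
    apply hg
    show msig (EnvB.mu (S.env ∅ X Y)) g k = 1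
    refine EnvB.msig_not fun i => ?_
    cases i
    · exact fun ha => hcon.2 (adj_solid_l h ha)
    · exact fun ha => hcon.1 (adj_solid_u h ha)
  · intro g hg k
    rw [mem_H] at hg
    push Not at hg
    show msig (EnvB.mu (S.env ∅ X Y)) g k none = none
    rw [EnvB.msig_not fun i => ?_]
    · rfl
    · cases i
      · exact fun ha => hg.2 (adj_solid_l h ha)
      · exact fun ha => hg.1 (adj_solid_u h ha)

theorem exists_in (h : S.Ok) (T : ℤ) : ∃ L₀ : ℤ, ∀ L, L₀ ≤ L → ∀ X Y : ℤ, |X| ≤ T → |Y| ≤ T →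
    (S.slabS.sf X Y).In L := by
  obtain ⟨B, hB⟩ : ∃ B : ℤ, ∀ f ∈ S.D, |f.1| ≤ B ∧ |f.2| ≤ B := by
    refine ⟨∑ f ∈ S.D, (|f.1| + |f.2|), fun f hf => ?_⟩
    have h1 := Finset.single_le_sum (f := fun f : ℤ × ℤ => |f.1| + |f.2|)
      (fun f _ => add_nonneg (abs_nonneg f.1) (abs_nonneg f.2)) hf
    have h2 := abs_nonneg f.1
    have h3 := abs_nonneg f.2
    constructor <;> omega
  refine ⟨|S.x1| + |S.x2| + |S.yc| + 2 * T + 10 * (S.k : ℤ) + (S.x2 - S.x1).toNat + 2 + |B| + T + 1,
    fun L hL X Y hX hY => ?_⟩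
  have h1 := abs_nonneg S.x1
  have h2 := abs_nonneg S.x2
  have h3 := abs_nonneg S.yc
  have h4 := abs_nonneg X
  have h5 := abs_nonneg B
  have h6 := le_abs_self B
  exact in_of h hB (by omega) (by omega) (by omega)

/-- the faces of the blocks are in the box -/
theorem inBx_of_in {L : ℤ} (h : (S.slabS.sf X Y).In L) : Rel.InBx (S.env W X Y) L :=
  fun _ hf => h.H _ (mem_H.mpr hf)

theorem Z_sub (h : S.Ok) {L : ℤ} (hL : (S.slabS.sf X Y).In L) :
    (S.env (RFb (0, 0) L) X Y).Z ⊆ dE (S.slabS.sf X Y).Q ((S.slabS.sf X Y).core L) := by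
  rw [core_env]
  exact (Rel.glueZ_env (E := S.env ∅ X Y) (thk h) (inBx_of_in hL)).P_sub

/-- the boundary sides of the core and of the ring which are sides of the core are island sides -/
theorem ful (h : S.Ok) {L : ℤ} (hL : (S.slabS.sf X Y).In L) :
    ∀ a ∈ bS (S.slabS.sf X Y).Q ((S.slabS.sf X Y).core L ∪ (S.slabS.sf X Y).ring L),
      a ∈ dE (S.slabS.sf X Y).Q ((S.slabS.sf X Y).core L) →
        a ∈ (S.env (RFb (0, 0) L) X Y).Z ∨ a.swap ∈ (S.env (RFb (0, 0) L) X Y).Z := by
  rw [core_env]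
  intro a ha ha'
  exact Or.inl (Rel.ring_env (E := S.env ∅ X Y) (thk h) (inBx_of_in hL) ha ha')

end

end Slb

end Pool.Agent.SixB
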