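import Pool.Agent.Lib.SixB.S3AsmD
import Pool.Agent.Lib.SixB.S3SlbSurf

/-!
# 6BD step 3: numbers of the sandwich of the cylinders (row R17, premise `CylIn`)

`S = D.slb z r i`: centre row `yc`, half height `a = ⌈100 r n⌉`, rectangle of the insertion with half side `rR`.
* `SFam.cA`: rows on each side of the insertion, `SFam.cR`: rows of the insertion, `SFam.y0`, `SFam.y1`: the cut rows.
* `SFam.CylNum`, `SFam.cyl_num`: all relations between these numbers, for large `i`.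
* `SFam.Wd`, `SFam.shift_le`: bound of the shifts; `SFam.mesh_row`: the insertion is inside the middle rows.
-/

set_option autoImplicit false
set_option linter.unusedSectionVars false

namespace Pool.Agent.SixB.Asm3

open Complex Filter Topology Metric
open Pool.Agent.Perc Pool.Agent.Perc.Q

noncomputable section

variable {P : Finset (ℤ × ℤ)} {L : ℕ} {g : ℤ → ℤ × ℤ} {ι : Type} {l : Filter ι} {n : ι → ℕ}
  {j : ι → ℤ → ℝ} {z0 : ℂ}

namespace SFam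

variable (D : SFam P L g l n j z0)

/-- rows on each side of the insertion -/
def cA (r : ℝ) (i : ι) : ℕ := ⌈100 * r * n i⌉₊ / 2 - (D.rR r i + 1).toNat

/-- rows of the insertion -/
def cR (r : ℝ) (i : ι) : ℕ := 2 * (D.rR r i + 1).toNat

/-- the lower cut row -/
def y0 (z : ℂ) (r : ℝ) (i : ι) : ℤ := (D.slb z r i).yc - ((D.slb z r i).a / 2 : ℕ)

/-- the upper cut row -/
def y1 (z : ℂ) (r : ℝ) (i : ι) : ℤ := (D.slb z r i).yc + ((D.slb z r i).a / 2 : ℕ)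

/-- the bound of the shifts -/
def Wd (i : ι) : ℤ := ⌈2 * (D.T + 1) * n i⌉

/-- the relations between the numbers of the sandwich -/
structure CylNum (z : ℂ) (r : ℝ) (i : ι) : Prop where
  ok : (D.slb z r i).Ok
  nn : 0 < n i
  rR : 0 < D.rR r i
  ha : 1 ≤ D.cA r i
  hr : 1 ≤ D.cR r i
  sum : D.y0 z r i + D.cA r i + D.cR r i + D.cA r i = D.y1 z r i
  lo : D.y0 z r i + D.cA r i = ⌊(n i : ℝ) * z.im⌋ - D.rR r i - 1
  hi : D.y0 z r i + D.cA r i + D.cR r i = ⌊(n i : ℝ) * z.im⌋ + D.rR r i + 1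
  big : 15 * r * n i ≤ D.cA r i
  r0 : (D.slb z r i).yc - (D.slb z r i).a < D.y0 z r i
  lt : D.y0 z r i < D.y1 z r i
  r1 : D.y1 z r i < (D.slb z r i).yc + (D.slb z r i).a
  surf : (D.slb z r i).slabS.Ok (D.y0 z r i) (D.y1 z r i)

/-- **The numbers of the sandwich.** -/
theorem cyl_num (hn : Tendsto n l atTop) {z : ℂ} (hz : z ∈ ball z0 (D.κ / 4)) {r : ℝ} (hr : 0 < r)
    (hr' : r < D.κ / 10 ^ 5) : ∀ᶠ i in l, D.CylNum z r i := by
  have hnR : Tendsto (fun i => (n i : ℝ)) l atTop := tendsto_natCast_atTop_atTop.comp hn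
  filter_upwards [D.slb_ok hn hz hr hr', hnR.eventually_ge_atTop (2 / r),
    hn.eventually_gt_atTop 0] with i hok h1 h0
  have hn0 : (0 : ℝ) < n i := by exact_mod_cast h0
  have h2 : 2 ≤ r * n i := by
    have := (div_le_iff₀ hr).mp h1
    linarith
  have ea : (D.slb z r i).a = ⌈100 * r * n i⌉₊ := rfl
  have ey : (D.slb z r i).yc = ⌊(n i : ℝ) * z.im⌋ := rfl
  have hR : D.rR r i = ⌈32 * r * n i⌉ := rfl
  have hR0 : 0 < D.rR r i := by
    rw [hR]
    exact Int.ceil_pos.mpr (by positivity)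
  -- the main inequality in natural numbers
  have hc1 := Nat.le_ceil (100 * r * n i)
  have hc2 := Int.ceil_lt_add_one (32 * r * n i)
  have hd : 2 * (⌈100 * r * n i⌉₊ / 2) + 1 ≥ ⌈100 * r * n i⌉₊ := by omega
  have hdR : (2 : ℝ) * ((⌈100 * r * n i⌉₊ / 2 : ℕ) : ℝ) + 1 ≥ 100 * r * n i := by
    have : ((⌈100 * r * n i⌉₊ : ℕ) : ℝ) ≤ 2 * ((⌈100 * r * n i⌉₊ / 2 : ℕ) : ℝ) + 1 := by
      exact_mod_cast hd
    linarith
  have hT : (((D.rR r i + 1).toNat : ℕ) : ℤ) = D.rR r i + 1 := Int.toNat_of_nonneg (by omega)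
  have hTR : (((D.rR r i + 1).toNat : ℕ) : ℝ) = ((D.rR r i : ℤ) : ℝ) + 1 := by exact_mod_cast hT
  have hm : 15 * r * n i + (((D.rR r i + 1).toNat : ℕ) : ℝ) ≤ ((⌈100 * r * n i⌉₊ / 2 : ℕ) : ℝ) := by
    rw [hTR, hR]
    nlinarith
  have hle : (D.rR r i + 1).toNat ≤ ⌈100 * r * n i⌉₊ / 2 := by
    have h3 : (((D.rR r i + 1).toNat : ℕ) : ℝ) ≤ ((⌈100 * r * n i⌉₊ / 2 : ℕ) : ℝ) := by nlinarith
    exact_mod_cast h3
  have hA : (D.cA r i : ℤ) = ((⌈100 * r * n i⌉₊ / 2 : ℕ) : ℤ) - (D.rR r i + 1) := by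
    unfold cA
    rw [Nat.cast_sub hle, hT]
  have hAR : (D.cA r i : ℝ) = ((⌈100 * r * n i⌉₊ / 2 : ℕ) : ℝ) - (((D.rR r i + 1).toNat : ℕ) : ℝ) := by
    unfold cA
    rw [Nat.cast_sub hle]
  have hRc : (D.cR r i : ℤ) = 2 * (D.rR r i + 1) := by
    unfold cR
    push_cast
    rw [hT]
  have hbig : 15 * r * n i ≤ D.cA r i := by
    rw [hAR]
    linarith
  have hA1 : 1 ≤ D.cA r i := by
    have : (1 : ℝ) ≤ D.cA r i := by nlinarith
    exact_mod_cast this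
  have y0e : D.y0 z r i = ⌊(n i : ℝ) * z.im⌋ - ((⌈100 * r * n i⌉₊ / 2 : ℕ) : ℤ) := rfl
  have y1e : D.y1 z r i = ⌊(n i : ℝ) * z.im⌋ + ((⌈100 * r * n i⌉₊ / 2 : ℕ) : ℤ) := rfl
  have hap : 0 < ⌈100 * r * n i⌉₊ := hok.ha
  have b0 : (D.slb z r i).yc - (D.slb z r i).a < D.y0 z r i := by
    rw [ea, ey, y0e]
    omega
  have b1 : D.y0 z r i < D.y1 z r i := by
    rw [y0e, y1e]
    omega
  have b2 : D.y1 z r i < (D.slb z r i).yc + (D.slb z r i).a := by
    rw [ea, ey, y1e]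
    omega
  exact ⟨hok, h0, hR0, hA1, by omega, by omega, by omega, by omega, hbig, b0, b1, b2,
    Slb.slabS_ok hok b0 b1 b2⟩

theorem Wd_nonneg (i : ι) : 0 ≤ D.Wd i := by
  have := D.T_nonneg
  exact Int.ceil_nonneg (by positivity)

/-- the shifts are bounded -/
theorem shift_le {i : ι} {x y : ℕ} (h : Shifts D.T 1 (n i) x y) :
    |(-2 * (x : ℤ))| ≤ D.Wd i ∧ |(-2 * (y : ℤ))| ≤ D.Wd i := by
  have key : ∀ t : ℕ, (t : ℝ) ≤ (D.T + 1) * n i → |(-2 * (t : ℤ))| ≤ D.Wd i := by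
    intro t ht
    have e : |(-2 * (t : ℤ))| = 2 * t := by
      rw [abs_mul, abs_of_nonneg (show (0 : ℤ) ≤ t by positivity)]
      rfl
    rw [e]
    have h1 : (2 * (t : ℤ) : ℝ) ≤ 2 * (D.T + 1) * n i := by
      push_cast
      nlinarith
    have h2 := h1.trans (Int.le_ceil _)
    exact_mod_cast h2
  rcases h with ⟨rfl, rfl⟩ | ⟨-, h1, -, h2⟩
  · simp [D.Wd_nonneg]
  · exact ⟨key x h1, key y h2⟩

/-- the shifts are in a finite set -/
theorem shift_mem {i : ι} {x y : ℕ} (h : Shifts D.T 1 (n i) x y) :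
    (x, y) ∈ Finset.range ((D.Wd i).toNat + 1) ×ˢ Finset.range ((D.Wd i).toNat + 1) := by
  obtain ⟨h1, h2⟩ := D.shift_le h
  have h3 := D.Wd_nonneg i
  rw [abs_mul, abs_of_nonneg (show (0 : ℤ) ≤ x by positivity), show |(-2 : ℤ)| = 2 from rfl] at h1
  rw [abs_mul, abs_of_nonneg (show (0 : ℤ) ≤ y by positivity), show |(-2 : ℤ)| = 2 from rfl] at h2
  rw [Finset.mem_product, Finset.mem_range, Finset.mem_range]
  have h4 := Int.toNat_of_nonneg h3
  simp only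
  omega

/-- the sides of the rectangle of the insertion are inside the middle rows -/
theorem mesh_row {z : ℂ} {r : ℝ} {i : ι} (h : D.CylNum z r i) {f : ℤ × ℤ}
    (hf : f ∈ D.rc z r i) (k : ZMod 4) :
    D.y0 z r i + D.cA r i < (ZQ.c f k).2 ∧ (ZQ.c f k).2 < D.y0 z r i + D.cA r i + D.cR r i := by
  have h1 := (Ins.mem_RF.mp hf).2
  have h2 : f.2 ≤ (ZQ.c f k).2 ∧ (ZQ.c f k).2 ≤ f.2 + 1 := by
    rcases k4_cases k with rfl | rfl | rfl | rfl
    · exact ⟨le_refl f.2, by show f.2 ≤ f.2 + 1; omega⟩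
    · exact ⟨le_refl f.2, by show f.2 ≤ f.2 + 1; omega⟩
    · exact ⟨by show f.2 ≤ f.2 + 1; omega, le_refl (f.2 + 1)⟩
    · exact ⟨by show f.2 ≤ f.2 + 1; omega, le_refl (f.2 + 1)⟩
  have h3 := h.lo
  have h4 := h.hi
  omega

end SFam

end

end Pool.Agent.SixB.Asm3
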