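import Pool.Agent.Lib.SixB.S3SlbSurfB

/-!
# 6BD step 3: the weights over the cylinder (row R17, `CylIn`)

* `Slb.hN S N L X Y`: the weight of the island sides of `E(X, Y)` pushed to the cylinder of circumference `N`;
* `hN_u`, `hN_l`: shift covariance on the sides of the upper and of the lower part;
* `hN_slab`: it is `1` on the sides of the slab.
-/

set_option autoImplicit false
set_option linter.unusedSectionVars false

namespace Pool.Agent.SixB

open Pool.Agent.Perc Pool.Agent.Perc.Q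
open Pool.Agent.SixB.Rel (mem_RF0 RF0_mono QChart)

namespace Slb

noncomputable section

variable {S : Slb} {X Y X' Y' t L M y₀ y₁ : ℤ} {N : ℕ} [hN3 : Fact (3 ≤ N)] {k : ZMod 4}
  {f : Option Bool × (ℤ × ℤ)} {b : (Option Bool × (ℤ × ℤ)) × (Option Bool × (ℤ × ℤ))}
  {a : (Option Bool × (ZMod N × ℤ)) × (Option Bool × (ZMod N × ℤ))}

open Classical in
/-- the weight over the cylinder -/
def hN (S : Slb) (N : ℕ) (L X Y : ℤ) :
    (Option Bool × (ZMod N × ℤ)) × (Option Bool × (ZMod N × ℤ)) → ℂ :=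
  Surf.pushW (Surf.chi (Option Bool) N) (S.env (RFb (0, 0) L) X Y).Z
    (Rel.hz (S.ph ∅ X Y) (S.env (RFb (0, 0) L) X Y).Z)

/-- `b` or its reverse is an island side -/
def IsZ (S : Slb) (L X Y : ℤ) (b : (Option Bool × (ℤ × ℤ)) × (Option Bool × (ℤ × ℤ))) : Prop :=
  b ∈ (S.env (RFb (0, 0) L) X Y).Z ∨ b.swap ∈ (S.env (RFb (0, 0) L) X Y).Z

theorem IsZ.mem (h : S.Ok) (hI : (S.slabS.sf X Y).In L) (hb : IsZ S L X Y b) :
    b ∈ dE (S.slabS.sf X Y).Q ((S.slabS.sf X Y).core L) := by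
  rcases hb with hb | hb
  · exact Z_sub h hI hb
  · exact swap_mem_dE.mp (Z_sub h hI hb)

/-- the chart of the core -/
theorem core_chart (hI : (S.slabS.sf X Y).In L) (hN' : 2 * L < N) :
    QChart (S.slabS.sf X Y).Q ((S.slabS.sf X Y).QN N) ((S.slabS.sf X Y).core L)
      (Surf.chi (Option Bool) N) (Surf.chi (Option Bool) N) 0 :=
  Surf.chi_chart hI le_rfl hN' fun _ hf => Surf.core_box hI hf

theorem hN_chi (h : S.Ok) (hI : (S.slabS.sf X Y).In L) (hN' : 2 * L < N) (hb : IsZ S L X Y b) :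
    hN S N L X Y (Prod.map (Surf.chi (Option Bool) N) (Surf.chi (Option Bool) N) b) =
      Rel.hz (S.ph ∅ X Y) (S.env (RFb (0, 0) L) X Y).Z b := by
  have hc := core_chart (N := N) hI hN'
  exact Surf.pushW_mem (D := dE (S.slabS.sf X Y).Q ((S.slabS.sf X Y).core L))
    (fun a ha b hb e => hc.inj_dE ha hb e) (fun a ha => IsZ.mem h hI ha) hb

theorem hN_one (hx : ¬ ∃ b, IsZ S L X Y b ∧
    Prod.map (Surf.chi (Option Bool) N) (Surf.chi (Option Bool) N) b = a) : hN S N L X Y a = 1 := by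
  unfold hN Surf.pushW
  exact dif_neg hx

/-! ## The upper part -/

theorem up_of (h : S.Ok) (hE : S.slabS.Ok y₀ y₁) (hy : S.yc < y₁) (hI : (S.slabS.sf X Y).In L)
    (hN' : 2 * L < N) (hb : IsZ S L X Y b)
    (hU : Prod.map (Surf.chi (Option Bool) N) (Surf.chi (Option Bool) N) b ∈
      dE ((S.slabS.sf X Y).QN N) (S.slabS.UN N X y₁ M)) :
    ∃ f ∈ Fi S X Y, UpF S.yc f ∧ ∃ k, b = sd (S.env ∅ X Y).Q f k ∨
      b = (sd (S.env ∅ X Y).Q f k).swap := by
  obtain ⟨f, hf, k, hk⟩ := mem_dE.mp (hb.mem h hI)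
  have hc := core_chart (N := N) hI hN'
  have hF : f ∈ Fi S X Y := by
    rw [core_env] at hf
    exact F_Fi hf
  refine ⟨f, hF, ?_, k, hk⟩
  rcases mem_Fi.mp hF with ⟨h1, h2, h3⟩ | ⟨h1, h2⟩ | ⟨h1, h2⟩
  · right
    refine ⟨h1, ?_⟩
    obtain ⟨s, p⟩ := f
    simp only at h1 h2 h3
    subst h1
    have e1 : ∀ k, (S.slabS.sf X Y).Q.c ((none : Option Bool), p) k = (none, ZQ.c p k) :=
      fun k => c_none (W := ∅) h h2 h3 k
    have e2 : sd (S.slabS.sf X Y).Q ((none : Option Bool), p) k =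
        ((none, ZQ.c p k), (none, ZQ.c p (k + 1))) := by
      unfold sd
      rw [e1, e1]
    have hp := c_hgt p k
    have key : y₁ ≤ (ZQ.c p k).2 := by
      rcases hk with rfl | rfl
      · rw [e2] at hU
        have h4 := SlabS.dE_U (b := (pN N (ZQ.c p k), pN N (ZQ.c p (k + 1)))) hE hI hN' hU
        exact h4.1
      · rw [e2] at hU
        have h4 := SlabS.dE_U (b := (pN N (ZQ.c p (k + 1)), pN N (ZQ.c p k))) hE hI hN' hU
        exact h4.2
    show S.yc ≤ p.2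
    omega
  · exact Or.inl h1
  · exfalso
    have h4 : Surf.chi (Option Bool) N f ∈ S.slabS.LN N Y M y₀ := by
      refine SlabS.mem_LN.mpr (Or.inr ⟨(some false, shv (-Y) f.2), ?_, ?_⟩)
      · exact Finset.mem_image_of_mem _ (mem_shF.mp h2)
      · have e1 : shv Y (shv (-Y) f.2) = f.2 := by
          unfold shv
          simp
        show Surf.chi (Option Bool) N (some false, shv Y (shv (-Y) f.2)) = _
        rw [e1, ← h1]
    have h5 : Prod.map (Surf.chi (Option Bool) N) (Surf.chi (Option Bool) N) b ∈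
        dE ((S.slabS.sf X Y).QN N) (S.slabS.LN N Y M y₀) := by
      have h6 : ({f} : Finset _) ⊆ (S.slabS.sf X Y).core L := Finset.singleton_subset_iff.mpr hf
      have h7 := hc.dE_map h6
      rw [Finset.image_singleton] at h7
      refine dE_mono (Finset.singleton_subset_iff.mpr h4) ?_
      rw [h7]
      exact Finset.mem_image_of_mem _ (mem_dE.mpr ⟨f, Finset.mem_singleton_self f, k, hk⟩)
    exact Finset.disjoint_left.mp (SlabS.dE_LU hE hI hN') h5 hU

theorem chi_sh (t : ℤ) (b : (Option Bool × (ℤ × ℤ)) × (Option Bool × (ℤ × ℤ))) :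
    Prod.map (Surf.chi (Option Bool) N) (Surf.chi (Option Bool) N) (sh t b) =
      Prod.map (SlabS.shN (Option Bool) N t) (SlabS.shN (Option Bool) N t)
        (Prod.map (Surf.chi (Option Bool) N) (Surf.chi (Option Bool) N) b) := by
  obtain ⟨⟨s, v⟩, s', v'⟩ := b
  refine Prod.ext ?_ ?_
  · exact (SlabS.shN_chi t s v).symm
  · exact (SlabS.shN_chi t s' v').symm

/-- island sides of the upper part, shifted -/
theorem push_u (h : S.Ok) (hE : S.slabS.Ok y₀ y₁) (hy : S.yc < y₁) (ht : X' = X + t)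
    (hI : (S.slabS.sf X Y).In L) (hI' : (S.slabS.sf X' Y').In L) (hN' : 2 * L < N)
    (hb : IsZ S L X Y b)
    (hU : Prod.map (Surf.chi (Option Bool) N) (Surf.chi (Option Bool) N) b ∈
      dE ((S.slabS.sf X Y).QN N) (S.slabS.UN N X y₁ M)) :
    IsZ S L X' Y' (sh t b) ∧ Rel.hz (S.ph ∅ X' Y') (S.env (RFb (0, 0) L) X' Y').Z (sh t b) =
      Rel.hz (S.ph ∅ X Y) (S.env (RFb (0, 0) L) X Y).Z b := by
  subst ht
  obtain ⟨f, hF, hu, k, hk⟩ := up_of h hE hy hI hN' hb hU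
  have h0 := h.ha
  have hu' := hu.mono (show S.yc - S.a + 1 ≤ S.yc by omega)
  have b1 : Rel.InBx (S.env ∅ X Y) L := inBx_of_in hI
  have b2 : Rel.InBx (S.env ∅ (X + t) Y') L := inBx_of_in hI'
  have hk' : b.swap = sd (S.env ∅ X Y).Q f k ∨ b.swap = (sd (S.env ∅ X Y).Q f k).swap := by
    rcases hk with rfl | rfl
    · exact Or.inr rfl
    · exact Or.inl (Prod.swap_swap _)
  constructor
  · rcases hb with hb | hb
    · exact Or.inl ((Z_u (W := ∅) h b1 b2 hF hu' hk).mpr hb)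
    · exact Or.inr ((Z_u (W := ∅) h b1 b2 hF hu' hk').mpr hb)
  · refine hz_u (W := ∅) (W' := ∅) (A := {f}) h b1 b2 ?_ ?_
    · intro g hg
      rw [Finset.mem_singleton] at hg
      subst hg
      exact ⟨hF, hu⟩
    · exact mem_dE.mpr ⟨f, Finset.mem_singleton_self f, k, hk⟩

/-- **The weights of the upper part over the cylinder.** -/
theorem hN_u (h : S.Ok) (hE : S.slabS.Ok y₀ y₁) (hy : S.yc < y₁) (hI0 : (S.slabS.sf 0 0).In L)
    (hI : (S.slabS.sf X Y).In L) (hN' : 2 * L < N)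
    (ha : a ∈ dE ((S.slabS.sf 0 0).QN N) (S.slabS.UN N 0 y₁ M)) :
    hN S N L X Y (Prod.map (SlabS.shN (Option Bool) N X) (SlabS.shN (Option Bool) N X) a) =
      hN S N L 0 0 a := by
  by_cases hx : ∃ b, IsZ S L 0 0 b ∧
      Prod.map (Surf.chi (Option Bool) N) (Surf.chi (Option Bool) N) b = a
  · obtain ⟨b, hb, rfl⟩ := hx
    obtain ⟨h1, h2⟩ := push_u (t := X) h hE hy (zero_add X).symm hI0 hI hN' hb ha
    rw [← chi_sh, hN_chi h hI hN' h1, hN_chi h hI0 hN' hb, h2]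
  · rw [hN_one hx]
    apply hN_one
    rintro ⟨b, hb, e⟩
    have h1 : Prod.map (SlabS.shN (Option Bool) N X) (SlabS.shN (Option Bool) N X) a ∈
        dE ((S.slabS.sf X Y).QN N) (S.slabS.UN N X y₁ M) := by
      have h2 := (SlabS.U_chart (M := M) hE hI0 hI hN').dE_map (Finset.Subset.refl _)
      rw [SlabS.UN_shift] at h2
      rw [h2]
      exact Finset.mem_image_of_mem _ ha
    rw [← e] at h1
    obtain ⟨h3, -⟩ := push_u (t := -X) (X' := 0) (Y' := 0) h hE hy (by ring) hI hI0 hN' hb h1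
    refine hx ⟨_, h3, ?_⟩
    rw [chi_sh, e]
    obtain ⟨⟨s, v⟩, s', v'⟩ := a
    have key : ∀ p : Option Bool × (ZMod N × ℤ), SlabS.shN (Option Bool) N (-X)
        (SlabS.shN (Option Bool) N X p) = p := by
      intro p
      refine Prod.ext rfl (Prod.ext ?_ rfl)
      show p.2.1 + (X : ZMod N) + ((-X : ℤ) : ZMod N) = p.2.1
      push_cast
      ring
    exact Prod.ext (key _) (key _)

/-! ## The lower part -/

theorem lo_of (h : S.Ok) (hE : S.slabS.Ok y₀ y₁) (hy : y₀ + 1 < S.yc) (hI : (S.slabS.sf X Y).In L)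
    (hN' : 2 * L < N) (hb : IsZ S L X Y b)
    (hU : Prod.map (Surf.chi (Option Bool) N) (Surf.chi (Option Bool) N) b ∈
      dE ((S.slabS.sf X Y).QN N) (S.slabS.LN N Y M y₀)) :
    ∃ f ∈ Fi S X Y, LoF (S.yc - 1) f ∧ ∃ k, b = sd (S.env ∅ X Y).Q f k ∨
      b = (sd (S.env ∅ X Y).Q f k).swap := by
  obtain ⟨f, hf, k, hk⟩ := mem_dE.mp (hb.mem h hI)
  have hc := core_chart (N := N) hI hN'
  have hF : f ∈ Fi S X Y := by
    rw [core_env] at hf
    exact F_Fi hf
  refine ⟨f, hF, ?_, k, hk⟩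
  rcases mem_Fi.mp hF with ⟨h1, h2, h3⟩ | ⟨h1, h2⟩ | ⟨h1, h2⟩
  · right
    refine ⟨h1, ?_⟩
    obtain ⟨s, p⟩ := f
    simp only at h1 h2 h3
    subst h1
    have e1 : ∀ k, (S.slabS.sf X Y).Q.c ((none : Option Bool), p) k = (none, ZQ.c p k) :=
      fun k => c_none (W := ∅) h h2 h3 k
    have e2 : sd (S.slabS.sf X Y).Q ((none : Option Bool), p) k =
        ((none, ZQ.c p k), (none, ZQ.c p (k + 1))) := by
      unfold sd
      rw [e1, e1]
    have hp := c_hgt p k
    have key : (ZQ.c p k).2 ≤ y₀ := by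
      rcases hk with rfl | rfl
      · rw [e2] at hU
        have h4 := SlabS.dE_L (b := (pN N (ZQ.c p k), pN N (ZQ.c p (k + 1)))) hE hI hN' hU
        exact h4.1
      · rw [e2] at hU
        have h4 := SlabS.dE_L (b := (pN N (ZQ.c p (k + 1)), pN N (ZQ.c p k))) hE hI hN' hU
        exact h4.2
    show p.2 < S.yc - 1
    omega
  · exfalso
    have h4 : Surf.chi (Option Bool) N f ∈ S.slabS.UN N X y₁ M := by
      refine SlabS.mem_UN.mpr (Or.inr ⟨(some true, shv (-X) f.2), ?_, ?_⟩)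
      · exact Finset.mem_image_of_mem _ (mem_shF.mp h2)
      · have e1 : shv X (shv (-X) f.2) = f.2 := by
          unfold shv
          simp
        show Surf.chi (Option Bool) N (some true, shv X (shv (-X) f.2)) = _
        rw [e1, ← h1]
    have h5 : Prod.map (Surf.chi (Option Bool) N) (Surf.chi (Option Bool) N) b ∈
        dE ((S.slabS.sf X Y).QN N) (S.slabS.UN N X y₁ M) := by
      have h6 : ({f} : Finset _) ⊆ (S.slabS.sf X Y).core L := Finset.singleton_subset_iff.mpr hf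
      have h7 := hc.dE_map h6
      rw [Finset.image_singleton] at h7
      refine dE_mono (Finset.singleton_subset_iff.mpr h4) ?_
      rw [h7]
      exact Finset.mem_image_of_mem _ (mem_dE.mpr ⟨f, Finset.mem_singleton_self f, k, hk⟩)
    exact Finset.disjoint_left.mp (SlabS.dE_LU hE hI hN') hU h5
  · exact Or.inl h1

/-- island sides of the lower part, shifted -/
theorem push_l (h : S.Ok) (hE : S.slabS.Ok y₀ y₁) (hy : y₀ + 1 < S.yc) (ht : Y' = Y + t)
    (hI : (S.slabS.sf X Y).In L) (hI' : (S.slabS.sf X' Y').In L) (hN' : 2 * L < N)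
    (hb : IsZ S L X Y b)
    (hU : Prod.map (Surf.chi (Option Bool) N) (Surf.chi (Option Bool) N) b ∈
      dE ((S.slabS.sf X Y).QN N) (S.slabS.LN N Y M y₀)) :
    IsZ S L X' Y' (sh t b) ∧ Rel.hz (S.ph ∅ X' Y') (S.env (RFb (0, 0) L) X' Y').Z (sh t b) =
      Rel.hz (S.ph ∅ X Y) (S.env (RFb (0, 0) L) X Y).Z b := by
  subst ht
  obtain ⟨f, hF, hu, k, hk⟩ := lo_of h hE hy hI hN' hb hU
  have h0 := h.ha
  have hu' := hu.mono (show S.yc - 1 ≤ S.yc + S.a - 1 by omega)
  have b1 : Rel.InBx (S.env ∅ X Y) L := inBx_of_in hI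
  have b2 : Rel.InBx (S.env ∅ X' (Y + t)) L := inBx_of_in hI'
  have hk' : b.swap = sd (S.env ∅ X Y).Q f k ∨ b.swap = (sd (S.env ∅ X Y).Q f k).swap := by
    rcases hk with rfl | rfl
    · exact Or.inr rfl
    · exact Or.inl (Prod.swap_swap _)
  constructor
  · rcases hb with hb | hb
    · exact Or.inl ((Z_l (W := ∅) h b1 b2 hF hu' hk).mpr hb)
    · exact Or.inr ((Z_l (W := ∅) h b1 b2 hF hu' hk').mpr hb)
  · refine hz_l (W := ∅) (W' := ∅) (A := {f}) h b1 b2 ?_ ?_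
    · intro g hg
      rw [Finset.mem_singleton] at hg
      subst hg
      exact ⟨hF, hu⟩
    · exact mem_dE.mpr ⟨f, Finset.mem_singleton_self f, k, hk⟩

/-- **The weights of the lower part over the cylinder.** -/
theorem hN_l (h : S.Ok) (hE : S.slabS.Ok y₀ y₁) (hy : y₀ + 1 < S.yc)
    (hI0 : (S.slabS.sf 0 0).In L) (hI : (S.slabS.sf X Y).In L) (hN' : 2 * L < N)
    (ha : a ∈ dE ((S.slabS.sf 0 0).QN N) (S.slabS.LN N 0 M y₀)) :
    hN S N L X Y (Prod.map (SlabS.shN (Option Bool) N Y) (SlabS.shN (Option Bool) N Y) a) =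
      hN S N L 0 0 a := by
  by_cases hx : ∃ b, IsZ S L 0 0 b ∧
      Prod.map (Surf.chi (Option Bool) N) (Surf.chi (Option Bool) N) b = a
  · obtain ⟨b, hb, rfl⟩ := hx
    obtain ⟨h1, h2⟩ := push_l (t := Y) h hE hy (zero_add Y).symm hI0 hI hN' hb ha
    rw [← chi_sh, hN_chi h hI hN' h1, hN_chi h hI0 hN' hb, h2]
  · rw [hN_one hx]
    apply hN_one
    rintro ⟨b, hb, e⟩
    have h1 : Prod.map (SlabS.shN (Option Bool) N Y) (SlabS.shN (Option Bool) N Y) a ∈
        dE ((S.slabS.sf X Y).QN N) (S.slabS.LN N Y M y₀) := by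
      have h2 := (SlabS.L_chart (M := M) hE hI0 hI hN').dE_map (Finset.Subset.refl _)
      rw [SlabS.LN_shift] at h2
      rw [h2]
      exact Finset.mem_image_of_mem _ ha
    rw [← e] at h1
    obtain ⟨h3, -⟩ := push_l (t := -Y) (X' := 0) (Y' := 0) h hE hy (by ring) hI hI0 hN' hb h1
    refine hx ⟨_, h3, ?_⟩
    rw [chi_sh, e]
    obtain ⟨⟨s, v⟩, s', v'⟩ := a
    have key : ∀ p : Option Bool × (ZMod N × ℤ), SlabS.shN (Option Bool) N (-Y)
        (SlabS.shN (Option Bool) N Y p) = p := by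
      intro p
      refine Prod.ext rfl (Prod.ext ?_ rfl)
      show p.2.1 + (Y : ZMod N) + ((-Y : ℤ) : ZMod N) = p.2.1
      push_cast
      ring
    exact Prod.ext (key _) (key _)

/-! ## The slab -/

theorem cor_solid {g : BGeo} {up : Bool} {p : ℤ × ℤ} (hp : g.solid up p) (k : ZMod 4) :
    g.yc + g.a ≤ (ZQ.c p k).2 ∨ (ZQ.c p k).2 ≤ g.yc - g.a := by
  have hc := c_hgt p k
  have h1 := hp.1
  unfold BGeo.hgt at h1
  cases up
  · simp only [Bool.false_eq_true, if_false] at h1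
    right
    omega
  · simp only [if_true] at h1
    left
    omega

/-- island sides are not in the slab -/
theorem isZ_slab (hb : IsZ S L X Y b) (h0 : S.yc - S.a < y₀) (h1 : y₁ < S.yc + S.a)
    (h2 : b.1.1 = none) (h3 : b.2.1 = none) : ¬ (y₀ ≤ b.1.2.2 ∧ b.1.2.2 ≤ y₁) := by
  have key : ∀ c : (Option Bool × (ℤ × ℤ)) × (Option Bool × (ℤ × ℤ)),
      c ∈ (S.env (RFb (0, 0) L) X Y).Z → c.1.1 = none → c.2.1 = none →
      (S.yc + S.a ≤ c.1.2.2 ∨ c.1.2.2 ≤ S.yc - S.a) ∧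
        (S.yc + S.a ≤ c.2.2.2 ∨ c.2.2.2 ≤ S.yc - S.a) := by
    intro c hc h4 h5
    rcases (EnvB.mem_Z.mp hc).2 with h6 | h6 | ⟨p, hp, k, h6⟩
    · exact absurd h4 h6
    · exact absurd h5 h6
    · have e1 : (c.1.2, c.2.2) = (sd ZQ p k).swap := h6
      have e2 : c.1.2 = ZQ.c p (k + 1) := (Prod.mk.inj e1).1
      have e3 : c.2.2 = ZQ.c p k := (Prod.mk.inj e1).2
      rw [e2, e3]
      rcases hp with hp | hp
      · exact ⟨cor_solid hp _, cor_solid hp _⟩
      · exact ⟨cor_solid hp _, cor_solid hp _⟩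
  rintro ⟨h4, h5⟩
  rcases hb with hb | hb
  · have := (key b hb h2 h3).1
    omega
  · have := (key b.swap hb h3 h2).2
    have e : b.swap.2.2.2 = b.1.2.2 := rfl
    omega

/-- **The weight is `1` on the sides of the slab.** -/
theorem hN_slab (hE : S.slabS.Ok y₀ y₁) (h0 : S.yc - S.a < y₀) (h1 : y₁ < S.yc + S.a)
    (hI : (S.slabS.sf X Y).In L) (ha : a ∈ dE ((S.slabS.sf X Y).QN N) (S.slabS.SN N y₀ y₁)) :
    hN S N L X Y a = 1 := by
  apply hN_one
  rintro ⟨b, hb, e⟩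
  rw [SlabS.dE_S hE hI] at ha
  obtain ⟨c, hc, rfl⟩ := Finset.mem_image.mp ha
  have e1 : (Surf.chi (Option Bool) N b.1) = (none, c.1) := congrArg Prod.fst e
  have e2 : (Surf.chi (Option Bool) N b.2) = (none, c.2) := congrArg Prod.snd e
  have e3 : b.1.1 = none := congrArg Prod.fst e1
  have e4 : b.2.1 = none := congrArg Prod.fst e2
  have e5 : pN N b.1.2 = c.1 := congrArg Prod.snd e1
  have e6 : b.1.2.2 = c.1.2 := congrArg Prod.snd e5
  refine isZ_slab hb h0 h1 e3 e4 ?_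
  rw [e6]
  obtain ⟨g, hg, k, hk⟩ := mem_dE.mp hc
  have h2 := mem_cylF.mp hg
  have key : ∀ k : ZMod 4, y₀ ≤ ((CQ N).c g k).2 ∧ ((CQ N).c g k).2 ≤ y₁ := by
    intro k
    rcases Rel.GlueC.corner_y g k with h3 | h3 <;> rw [h3] <;> omega
  rcases hk with rfl | rfl
  · exact key k
  · exact key (k + 1)

end

end Slb

end Pool.Agent.SixB
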