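import Pool.Agent.Lib.SixB.S3CylBdd
import Pool.Agent.Lib.SixB.S3CylWt
import Pool.Agent.Lib.SixB.S3CylNum

/-!
# 6BD step 3: from the joint limit to the data of the cylinder (row R17, `CylIn`)

* `Slb.elt_eq`: the matrix element of the insertion between the shifted vectors is `Ins.zJ` of the values over the cylinder.
* `Slb.cylData`: the values over the cylinder close to the plane values give `CylData`.
* `SFam.cylData`: the same for a family of slabs; `SFam.cylIn_of`: `CylIn` from the joint limit.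
-/

set_option autoImplicit false
set_option linter.unusedSectionVars false

namespace Pool.Agent.SixB

open Pool.Agent.Perc Pool.Agent.Perc.Q Relation Pool.Agent.SixV Pool.Agent.PercD ComplexConjugate
open Pool.Agent.SixB.Op (Inside)
open Pool.Agent.SixB.Ins (cN cS)
open Pool.Agent.SixB.Sand (zvec dvec lvF jL)
open scoped Real InnerProductSpace Matrix

noncomputable section

namespace Slb

section elt

variable (S : Slb) {m : ℕ} [hm : Fact (3 ≤ m + 1)]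

/-- the vector of the upper part -/
def uV (m : ℕ) [Fact (3 ≤ m + 1)] (L M y₁ : ℤ) : HN (m + 1) :=
  zvec ((S.slabS.sf 0 0).QN (m + 1)) (S.slabS.UN (m + 1) 0 y₁ M) (hN S (m + 1) L 0 0)
    fun j => Prod.map (Prod.mk none) (Prod.mk none) (lvF m y₁ j)

/-- the vector of the lower part -/
def dV (m : ℕ) [Fact (3 ≤ m + 1)] (L M y₀ : ℤ) : HN (m + 1) :=
  dvec ((S.slabS.sf 0 0).QN (m + 1)) (S.slabS.LN (m + 1) 0 M y₀) (hN S (m + 1) L 0 0)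
    fun j => Prod.map (Prod.mk none) (Prod.mk none) (lvF m y₀ j)

/-- the value over the cylinder with the sign of the side `a` inserted -/
def zN (N : ℕ) [Fact (3 ≤ N)] (L M X Y : ℤ) (a : (ℤ × ℤ) × (ℤ × ℤ)) : ℂ :=
  Z6 ((S.slabS.sf X Y).QN N) ((S.slabS.sf X Y).FN N M) fun b =>
    hN S N L X Y b * sgE (Prod.map (Ins.sN none N) (Ins.sN none N) a) b

variable {S} {L M y₀ : ℤ} {a r x y : ℕ} {v : ℤ × ℤ} {R : ℤ} {f : ℤ × ℤ → ℝ}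

/-- **The matrix element of the insertion.** -/
theorem elt_eq (h : S.Ok) (hE : S.slabS.Ok y₀ (y₀ + a + r + a)) (hyl : y₀ + 1 < S.yc)
    (hyu : S.yc < y₀ + a + r + a) (g0 : S.yc - S.a < y₀) (g1 : y₀ + a + r + a < S.yc + S.a)
    (hI0 : (S.slabS.sf 0 0).In L) (hI : (S.slabS.sf (-(2 * y)) (-(2 * x))).In L)
    (hN' : 2 * L < ((m + 1 : ℕ) : ℤ)) (h0 : -M < y₀) (h1 : y₀ + a + r + a < M) (ha : 1 ≤ a)
    (hr : 1 ≤ r) (hRN : 2 * R < ((m + 1 : ℕ) : ℤ)) (hv0 : y₀ + a ≤ v.2 - R)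
    (hv1 : v.2 + R ≤ y₀ + a + r)
    (hf : Inside (v.1 - R) (v.1 + R) (v.2 - R) (v.2 + R) f) :
    ⟪(tL (m + 1) (π / 6) ^ a) ((W2 (m + 1) ^ x) (dV S m L M y₀)),
        jL m (y₀ + a) r (cN (m + 1) (BR v R) f) ((tL (m + 1) (π / 6) ^ a)
          ((W2 (m + 1) ^ y) (uV S m L M (y₀ + a + r + a))))⟫_ℂ =
      ((2 : ℂ) ^ ((m + 1) * (2 * a + r)))⁻¹ *
        Ins.zJ (v.1 - R) (v.1 + R) (v.2 - R) (v.2 + R) f
          (zN S (m + 1) L M (-(2 * y)) (-(2 * x))) := by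
  have hE' := SlabS.swe (M := M) (a := a) (r := r) hE hI hN' h0 h1
    (h := hN S (m + 1) L (-(2 * y)) (-(2 * x))) fun e he => hN_slab hE g0 g1 hI he
  have hd := SlabS.d_move (M := M) hE hI0 x hI hN' h0 (h := hN S (m + 1) L 0 0)
    (h' := hN S (m + 1) L (-(2 * y)) (-(2 * x))) fun e he => hN_l h hE hyl hI0 hI hN' he
  have hu := SlabS.u_move (M := M) hE hI0 y hI hN' h1 (h := hN S (m + 1) L 0 0)
    (h' := hN S (m + 1) L (-(2 * y)) (-(2 * x))) fun e he => hN_u h hE hyu hI0 hI hN' he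
  have hc : ∀ e, cN (m + 1) (BR v R) f e ≠ 0 →
      e ∈ dE (CQ (m + 1)) (cylF (m + 1) (y₀ + a) (y₀ + a + r)) ∧ y₀ + a < e.1.2 ∧
        e.1.2 < y₀ + a + r := fun e he => Ins.cN_rows hRN hf hv0 hv1 he
  have hc2 : ∀ e, cN (m + 1) (BR v R) f e ≠ 0 →
      e ∈ dE (CQ (m + 1)) (cylF (m + 1) y₀ (y₀ + a + r + a)) := by
    intro e he
    refine dE_mono ?_ (hc e he).1
    intro g hg
    rw [mem_cylF] at hg ⊢
    omega
  have key := hE'.elt ha hr (c := cN (m + 1) (BR v R) f)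
    (c' := cS S.slabS.s0 (cN (m + 1) (BR v R) f)) (fun e _ => Ins.cS_mk _ _ e)
    (fun e he => Ins.cS_mem hE hI hc2 he) hc hd hu
  refine key.trans ?_
  congr 1
  have hS : S.slabS.SN (m + 1) y₀ (y₀ + a + r + a) ⊆
      (S.slabS.sf (-(2 * y)) (-(2 * x))).FN (m + 1) M := by
    rw [SlabS.FN_split hE h0.le h1.le]
    exact fun g hg => Finset.mem_union_left _ (Finset.mem_union_right _ hg)
  have e1 := Ins.Z6D_cS (f := f) hE hI hRN (show y₀ ≤ v.2 - R by omega)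
    (show v.2 + R ≤ y₀ + a + r + a by omega) hS (h := hN S (m + 1) L (-(2 * y)) (-(2 * x)))
  rw [SlabS.FN_split hE h0.le h1.le] at e1
  refine e1.trans ?_
  unfold zN
  rw [SlabS.FN_split hE h0.le h1.le]
  rfl

/-- the number of the faces -/
theorem card_FN (hE : S.slabS.Ok y₀ (y₀ + a + r + a)) {X Y : ℤ} (hI : (S.slabS.sf X Y).In L)
    (hN' : 2 * L < ((m + 1 : ℕ) : ℤ)) (h0 : -M < y₀) (h1 : y₀ + a + r + a < M) :
    ((S.slabS.sf X Y).FN (m + 1) M).card = (S.slabS.LN (m + 1) 0 M y₀).card +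
      (m + 1) * (2 * a + r) + (S.slabS.UN (m + 1) 0 (y₀ + a + r + a) M).card := by
  rw [SlabS.FN_split hE h0.le h1.le, Finset.card_union_of_disjoint
    (Finset.disjoint_union_left.mpr ⟨SlabS.disj_LU hE hI hN', SlabS.disj_SU hE⟩),
    Finset.card_union_of_disjoint (SlabS.disj_LS hE), ← SlabS.LN_shift Y, ← SlabS.UN_shift X,
    Finset.card_image_of_injective _ fun _ _ e => SlabS.shN_inj e,
    Finset.card_image_of_injective _ fun _ _ e => SlabS.shN_inj e]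
  congr 2
  unfold SlabS.SN
  rw [Finset.card_image_of_injective _ (Prod.mk_right_injective _)]
  have h2 := Op.card_cylF (N := m + 1) (y₀ := y₀) (y₁ := y₀ + a + r + a) (by omega)
  have e1 : y₀ + a + r + a - y₀ = ((2 * a + r : ℕ) : ℤ) := by
    push_cast
    ring
  rw [e1] at h2
  exact_mod_cast h2

end elt

section data

/-- the normalisation of the upper part -/
def nU (S : Slb) (m : ℕ) [Fact (3 ≤ m + 1)] (M y₁ : ℤ) : ℝ :=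
  (2 ^ (S.slabS.UN (m + 1) 0 y₁ M).card * Rel.r4 ^ (m + 1))⁻¹

/-- the normalisation of the lower part -/
def nL (S : Slb) (m : ℕ) [Fact (3 ≤ m + 1)] (M y₀ : ℤ) : ℝ :=
  (2 ^ (S.slabS.LN (m + 1) 0 M y₀).card * Rel.r4 ^ (m + 1))⁻¹

/-- the normalisation of the surface -/
def nF (S : Slb) (m : ℕ) [Fact (3 ≤ m + 1)] (M X Y : ℤ) : ℝ :=
  2 ^ ((S.slabS.sf X Y).FN (m + 1) M).card * Rel.r4 ^ (2 * (m + 1))

theorem nF_pos (S : Slb) (m : ℕ) [Fact (3 ≤ m + 1)] (M X Y : ℤ) : 0 < nF S m M X Y := by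
  unfold nF
  have := Rel.r4_pos
  positivity

/-- the values over the cylinder are close to the values of the plane -/
def Close (S : Slb) (m : ℕ) [Fact (3 ≤ m + 1)] (L M X Y : ℤ) (R : Finset (ℤ × ℤ)) (X0 ε : ℝ) : Prop :=
  ∀ e ∈ Ins.EP R, ‖zN S (m + 1) L M X Y e -
    ((nF S m M X Y * X0 : ℝ) : ℂ) * Asm3.zS S X Y R e‖ ≤ nF S m M X Y * ε

variable {S : Slb} {m : ℕ} [hm : Fact (3 ≤ m + 1)] {L M y₀ : ℤ} {a r x y : ℕ} {v : ℤ × ℤ} {R : ℤ}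
  {f : ℤ × ℤ → ℝ} {X0 ε : ℝ}

theorem nrm (hE : S.slabS.Ok y₀ (y₀ + a + r + a)) {X Y : ℤ} (hI : (S.slabS.sf X Y).In L)
    (hN' : 2 * L < ((m + 1 : ℕ) : ℤ)) (h0 : -M < y₀) (h1 : y₀ + a + r + a < M) :
    nL S m M y₀ * nU S m M (y₀ + a + r + a) * ((2 : ℝ) ^ ((m + 1) * (2 * a + r)))⁻¹ =
      (nF S m M X Y)⁻¹ := by
  unfold nL nU nF
  rw [card_FN hE hI hN' h0 h1, ← mul_inv, ← mul_inv]
  congr 1
  rw [pow_add, pow_add, two_mul (m + 1), pow_add]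
  ring

theorem aux_alg {ν F X0 : ℝ} {k : ℕ} {z w : ℂ} (hF : 0 < F) (hn : ν * ((2 : ℝ) ^ k)⁻¹ = F⁻¹) :
    (ν : ℂ) * (((2 : ℂ) ^ k)⁻¹ * z) - X0 * w = ((F⁻¹ : ℝ) : ℂ) * (z - ((F * X0 : ℝ) : ℂ) * w) := by
  have e1 : (ν : ℂ) * ((2 : ℂ) ^ k)⁻¹ = ((F⁻¹ : ℝ) : ℂ) := by
    rw [← hn]
    push_cast
    rfl
  have hF' : (F : ℂ) ≠ 0 := by exact_mod_cast hF.ne'
  rw [← mul_assoc, e1]
  push_cast
  field_simp

/-- the normalised matrix element -/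
theorem elt_close (h : S.Ok) (hE : S.slabS.Ok y₀ (y₀ + a + r + a)) (hyl : y₀ + 1 < S.yc)
    (hyu : S.yc < y₀ + a + r + a) (g0 : S.yc - S.a < y₀) (g1 : y₀ + a + r + a < S.yc + S.a)
    (hI0 : (S.slabS.sf 0 0).In L) (hI : (S.slabS.sf (-2 * y) (-2 * x)).In L)
    (hN' : 2 * L < ((m + 1 : ℕ) : ℤ)) (h0 : -M < y₀) (h1 : y₀ + a + r + a < M) (ha : 1 ≤ a)
    (hr : 1 ≤ r) (hRN : 2 * R < ((m + 1 : ℕ) : ℤ)) (hv0 : y₀ + a ≤ v.2 - R)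
    (hv1 : v.2 + R ≤ y₀ + a + r)
    (hf : Inside (v.1 - R) (v.1 + R) (v.2 - R) (v.2 + R) f)
    (hc : Close S m L M (-2 * y) (-2 * x) (BR v R) X0 ε) :
    ‖((nL S m M y₀ * nU S m M (y₀ + a + r + a) : ℝ) : ℂ) *
      ⟪(tL (m + 1) (π / 6) ^ a) ((W2 (m + 1) ^ x) (dV S m L M y₀)),
        jL m (y₀ + a) r (cN (m + 1) (BR v R) f) ((tL (m + 1) (π / 6) ^ a)
          ((W2 (m + 1) ^ y) (uV S m L M (y₀ + a + r + a))))⟫_ℂ -
      X0 * Ins.zJ (v.1 - R) (v.1 + R) (v.2 - R) (v.2 + R) f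
        (Asm3.zS S (-2 * y) (-2 * x) (BR v R))‖ ≤
      (∑ e ∈ Ins.EP (BR v R), |f e.2 - f e.1|) * ε := by
  have ex : (-2 * (x : ℤ)) = -(2 * x) := by ring
  have ey : (-2 * (y : ℤ)) = -(2 * y) := by ring
  rw [ex, ey] at hI hc ⊢
  rw [elt_eq h hE hyl hyu g0 g1 hI0 hI hN' h0 h1 ha hr hRN hv0 hv1 hf]
  have hF := nF_pos S m M (-(2 * (y : ℤ))) (-(2 * (x : ℤ)))
  have hn := nrm hE hI hN' h0 h1
  have key := Ins.zJ_close (f := f) (zs := zN S (m + 1) L M (-(2 * (y : ℤ))) (-(2 * (x : ℤ)))) hc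
  rw [aux_alg hF hn, norm_mul, Complex.norm_real, Real.norm_eq_abs, abs_of_pos (inv_pos.mpr hF),
    inv_mul_le_iff₀ hF]
  exact key.trans (le_of_eq (mul_left_comm _ _ _))

/-- **The data of the cylinder.** -/
theorem cylData {B C tol L₀ X1 X2 : ℝ} {P : ℕ → ℕ → Prop} (h : S.Ok)
    (hE : S.slabS.Ok y₀ (y₀ + a + r + a)) (hyl : y₀ + 1 < S.yc)
    (hyu : S.yc < y₀ + a + r + a) (g0 : S.yc - S.a < y₀) (g1 : y₀ + a + r + a < S.yc + S.a)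
    (hI0 : (S.slabS.sf 0 0).In L) (hI : ∀ x y, P x y → (S.slabS.sf (-2 * y) (-2 * x)).In L)
    (hN' : 2 * L < ((m + 1 : ℕ) : ℤ)) (h0 : -M < y₀) (h1 : y₀ + a + r + a < M) (ha : 1 ≤ a)
    (hr : 1 ≤ r) (hRN : 2 * R < ((m + 1 : ℕ) : ℤ)) (hv0 : y₀ + a ≤ v.2 - R)
    (hv1 : v.2 + R ≤ y₀ + a + r)
    (hf : Inside (v.1 - R) (v.1 + R) (v.2 - R) (v.2 + R) f)
    (hbdd : ∀ w, ‖jL m (y₀ + a) r (cN (m + 1) (BR v R) f) w‖ ≤ B * ‖w‖) (haN : a ≤ m + 1)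
    (hL₀ : L₀ ≤ a) (hX0 : 1 / 2 ≤ X0) (hX0' : X0 ≤ C) (hX1 : 1 / 2 ≤ X1) (hX1' : X1 ≤ C)
    (hX2 : 1 / 2 ≤ X2) (hX2' : X2 ≤ C)
    (hd : nL S m M y₀ ^ 2 * ‖dV S m L M y₀‖ ^ 2 ≤ X1 * Asm3.zD S + tol)
    (hu : nU S m M (y₀ + a + r + a) ^ 2 * ‖uV S m L M (y₀ + a + r + a)‖ ^ 2 ≤
      X2 * Asm3.zU S + tol)
    (hc : ∀ x y, P x y → Close S m L M (-2 * y) (-2 * x) (BR v R) X0 ε)
    (hε : (∑ e ∈ Ins.EP (BR v R), |f e.2 - f e.1|) * ε ≤ tol) :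
    Nonempty (CylData (m + 1) B C tol L₀ P (Asm3.zU S) (Asm3.zD S) fun x y =>
      Ins.zJ (v.1 - R) (v.1 + R) (v.2 - R) (v.2 + R) f
        (Asm3.zS S (-2 * y) (-2 * x) (BR v R))) :=
  Sand.cylData (y₀ + a) (cN (m + 1) (BR v R) f) hbdd haN hL₀ hX0 hX0' hX1 hX1' hX2 hX2'
    (dV S m L M y₀) (uV S m L M (y₀ + a + r + a)) (nL S m M y₀) (nU S m M (y₀ + a + r + a)) hd hu
    fun x y hP => (elt_close h hE hyl hyu g0 g1 hI0 (hI x y hP) hN' h0 h1 ha hr hRN hv0 hv1 hf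
      (hc x y hP)).trans hε

end data

/-! ## The limits of the odd cylinders -/

/-- the surfaces over odd cylinders, one factor for all shifts -/
def LimF : Prop := ∀ S : Slb, S.Ok → 2 ≤ S.a → ∀ (W : ℤ) (R : Finset (ℤ × ℤ)),
  (∀ g ∈ R, S.x1 ≤ g.1 ∧ g.1 < S.x2 ∧ S.yc - S.a ≤ g.2 ∧ g.2 < S.yc + S.a) →
  ∃ L₀ : ℤ, ∀ L, L₀ ≤ L → ∀ ε : ℝ, 0 < ε →
    ∃ N₀ : ℕ, ∀ (m : ℕ) [Fact (3 ≤ m + 1)], Odd (m + 1) → N₀ ≤ m + 1 → ∃ M₀ : ℤ, ∀ M, M₀ ≤ M →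
      ∃ X0 : ℝ, 1 / 2 ≤ X0 ∧ X0 ≤ 2 ∧ ∀ X Y : ℤ, |X| ≤ W → |Y| ≤ W → Close S m L M X Y R X0 ε

/-- the norm of the upper vector -/
def LimU : Prop := ∀ S : Slb, S.Ok → 2 ≤ S.a → ∃ L₀ : ℤ, ∀ L, L₀ ≤ L → ∀ ε : ℝ, 0 < ε →
    ∃ N₀ : ℕ, ∀ (m : ℕ) [Fact (3 ≤ m + 1)], Odd (m + 1) → N₀ ≤ m + 1 → ∃ M₀ : ℤ, ∀ M, M₀ ≤ M →
      ∃ X2 : ℝ, 1 / 2 ≤ X2 ∧ X2 ≤ 2 ∧ |nU S m M (S.yc + (S.a / 2 : ℕ)) ^ 2 *
        ‖uV S m L M (S.yc + (S.a / 2 : ℕ))‖ ^ 2 - X2 * Asm3.zU S| ≤ ε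

/-- the norm of the lower vector -/
def LimL : Prop := ∀ S : Slb, S.Ok → 2 ≤ S.a → ∃ L₀ : ℤ, ∀ L, L₀ ≤ L → ∀ ε : ℝ, 0 < ε →
    ∃ N₀ : ℕ, ∀ (m : ℕ) [Fact (3 ≤ m + 1)], Odd (m + 1) → N₀ ≤ m + 1 → ∃ M₀ : ℤ, ∀ M, M₀ ≤ M →
      ∃ X1 : ℝ, 1 / 2 ≤ X1 ∧ X1 ≤ 2 ∧ |nL S m M (S.yc - (S.a / 2 : ℕ)) ^ 2 *
        ‖dV S m L M (S.yc - (S.a / 2 : ℕ))‖ ^ 2 - X1 * Asm3.zD S| ≤ ε

end Slb

end

end Pool.Agent.SixB

namespace Pool.Agent.SixB.Asm3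

open Complex Filter Topology Metric
open Pool.Agent.Perc Pool.Agent.Perc.Q Pool.Agent.PercD

/-- the columns of the rectangle of the insertion -/
theorem SFam.rc_col {P : Finset (ℤ × ℤ)} {L : ℕ} {g : ℤ → ℤ × ℤ} {ι : Type} {l : Filter ι} {n : ι → ℕ}
    {j : ι → ℤ → ℝ} {z0 : ℂ} (D : SFam P L g l n j z0) (hn : Tendsto n l atTop) {z : ℂ}
    (hz : z ∈ ball z0 (D.κ / 4)) {r : ℝ} (hr' : r < D.κ / 10 ^ 5) :
    ∀ᶠ i in l, ∀ g ∈ D.rc z r i, (D.slb z r i).x1 ≤ g.1 ∧ g.1 < (D.slb z r i).x2 := by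
  have hκ := D.hκ
  have hnR : Tendsto (fun i => (n i : ℝ)) l atTop := tendsto_natCast_atTop_atTop.comp hn
  have h1 : |z.re - z0.re| < D.κ / 4 := by
    have h2 := mem_ball.mp hz
    rw [dist_eq] at h2
    have h3 := abs_re_le_norm (z - z0)
    rw [sub_re] at h3
    linarith
  obtain ⟨h2, h3⟩ := abs_lt.mp h1
  filter_upwards [hnR.eventually_ge_atTop (6 / D.κ)] with i h4
  have h5 : 6 ≤ D.κ * n i := by
    have := (div_le_iff₀ hκ).mp h4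
    linarith
  have hn0 : (0 : ℝ) ≤ n i := Nat.cast_nonneg _
  have b2 := Int.ceil_lt_add_one (32 * r * (n i : ℝ))
  have c1 := Int.floor_le ((n i : ℝ) * z.re)
  have c2 := Int.lt_floor_add_one ((n i : ℝ) * z.re)
  have k1 := D.hX₁
  have k2 := D.hX₂
  have m1 : r * n i ≤ D.κ / 10 ^ 5 * n i := mul_le_mul_of_nonneg_right hr'.le hn0
  have m2 : (n i : ℝ) * (D.X₁ + D.κ - D.κ / 4) ≤ n i * z.re :=
    mul_le_mul_of_nonneg_left (by linarith) hn0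
  have m3 : (n i : ℝ) * z.re ≤ n i * (D.X₂ - D.κ + D.κ / 4) :=
    mul_le_mul_of_nonneg_left (by linarith) hn0
  have e1 : (n i : ℤ) * D.X₁ ≤ ⌊(n i : ℝ) * z.re⌋ - D.rR r i := by
    have h6 : ((n i : ℤ) * D.X₁ : ℝ) ≤ ((⌊(n i : ℝ) * z.re⌋ - ⌈32 * r * (n i : ℝ)⌉ : ℤ) : ℝ) := by
      push_cast
      nlinarith
    unfold SFam.rR
    exact_mod_cast h6
  have e2 : ⌊(n i : ℝ) * z.re⌋ + D.rR r i ≤ (n i : ℤ) * D.X₂ := by
    have h6 : ((⌊(n i : ℝ) * z.re⌋ + ⌈32 * r * (n i : ℝ)⌉ : ℤ) : ℝ) ≤ ((n i : ℤ) * D.X₂ : ℝ) := by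
      push_cast
      nlinarith
    unfold SFam.rR
    exact_mod_cast h6
  intro g hg
  have h6 := (Ins.mem_RF.mp hg).1
  have s1 : (D.slb z r i).x1 = n i * D.X₁ := rfl
  have s2 : (D.slb z r i).x2 = n i * D.X₂ := rfl
  rw [s1, s2]
  constructor <;> omega

/-- **The premise `CylIn` from the limits of the odd cylinders.** -/
theorem cylIn_of (hF : Slb.LimF) (hU : Slb.LimU) (hL : Slb.LimL) : CylIn := by
  obtain ⟨B, hB, hJ⟩ := jL_bdd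
  intro P Λ g hP hg ι l n hn j hj z0 hz0 D
  refine ⟨D.κ / 10 ^ 5, div_pos D.hκ (by norm_num), ?_⟩
  intro z hz r hr hr'
  refine ⟨B, 2, hB, ?_⟩
  filter_upwards [D.cyl_num hn hz hr hr', D.inside hn z hr, hJ D hn z hr, D.rc_col hn hz hr'] with
    i hc hin hb hcol
  intro tol htol
  set S := D.slb z r i with hS
  set K : ℝ := ∑ e ∈ Ins.EP (D.rc z r i), |D.ins z r i e.2 - D.ins z r i e.1| with hK
  have hK0 : 0 ≤ K := Finset.sum_nonneg fun _ _ => abs_nonneg _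
  set ε : ℝ := tol / (K + 1) with hε
  have hε0 : 0 < ε := by positivity
  have hKε : K * ε ≤ tol := by
    rw [hε, mul_div_assoc', div_le_iff₀ (by positivity)]
    nlinarith
  have hrow : ∀ g ∈ D.rc z r i, S.x1 ≤ g.1 ∧ g.1 < S.x2 ∧ S.yc - S.a ≤ g.2 ∧ g.2 < S.yc + S.a := by
    intro g hg
    refine ⟨(hcol g hg).1, (hcol g hg).2, ?_⟩
    have h1 := D.mesh_row hc hg 0
    have h2 := hc.r0
    have h3 := hc.r1
    have h4 := hc.sum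
    have h5 : (ZQ.c g 0).2 = g.2 := rfl
    rw [h5] at h1
    show (D.slb z r i).yc - (D.slb z r i).a ≤ g.2 ∧ g.2 < (D.slb z r i).yc + (D.slb z r i).a
    constructor <;> omega
  have ha2 : 2 ≤ S.a := by
    have h1 := hc.lt
    have h2 : D.y0 z r i = S.yc - ((S.a / 2 : ℕ) : ℤ) := rfl
    have h3 : D.y1 z r i = S.yc + ((S.a / 2 : ℕ) : ℤ) := rfl
    rw [h2, h3] at h1
    omega
  obtain ⟨L₁, hL₁⟩ := hF S hc.ok ha2 (D.Wd i) (D.rc z r i) hrow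
  obtain ⟨L₂, hL₂⟩ := hU S hc.ok ha2
  obtain ⟨L₃, hL₃⟩ := hL S hc.ok ha2
  obtain ⟨L₄, hL₄⟩ := Slb.exists_in hc.ok (D.Wd i)
  have hW := D.Wd_nonneg i
  obtain ⟨L, l1, l2, l3, l4⟩ : ∃ L : ℤ, L₁ ≤ L ∧ L₂ ≤ L ∧ L₃ ≤ L ∧ L₄ ≤ L :=
    ⟨max (max L₁ L₂) (max L₃ L₄), by omega, by omega, by omega, by omega⟩
  obtain ⟨N₁, hN₁⟩ := hL₁ L l1 ε hε0
  obtain ⟨N₂, hN₂⟩ := hL₂ L l2 tol htol
  obtain ⟨N₃, hN₃⟩ := hL₃ L l3 tol htol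
  obtain ⟨m, m0, m1, m2, m3, m4, m5, m6, m7⟩ : ∃ m : ℕ, 3 ≤ m + 1 ∧ Odd (m + 1) ∧ N₁ ≤ m + 1 ∧
      N₂ ≤ m + 1 ∧ N₃ ≤ m + 1 ∧ 2 * L < ((m + 1 : ℕ) : ℤ) ∧ 2 * D.rR r i < ((m + 1 : ℕ) : ℤ) ∧
        D.cA r i ≤ m + 1 := by
    refine ⟨2 * (N₁ + N₂ + N₃ + L.toNat + (D.rR r i).toNat + D.cA r i + 1), by omega,
      ⟨N₁ + N₂ + N₃ + L.toNat + (D.rR r i).toNat + D.cA r i + 1, rfl⟩, by omega, by omega,
      by omega, ?_, ?_, by omega⟩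
    · have := Int.self_le_toNat L
      push_cast
      omega
    · have := Int.self_le_toNat (D.rR r i)
      push_cast
      omega
  have : Fact (3 ≤ m + 1) := ⟨m0⟩
  obtain ⟨M₁, hM₁⟩ := hN₁ m m1 m2
  obtain ⟨M₂, hM₂⟩ := hN₂ m m1 m3
  obtain ⟨M₃, hM₃⟩ := hN₃ m m1 m4
  obtain ⟨M, k1, k2, k3, k4, k5⟩ : ∃ M : ℤ, M₁ ≤ M ∧ M₂ ≤ M ∧ M₃ ≤ M ∧ -M < D.y0 z r i ∧
      D.y1 z r i < M :=
    ⟨max (max M₁ M₂) (max M₃ (max (1 - D.y0 z r i) (D.y1 z r i + 1))), by omega, by omega, by omega,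
      by omega, by omega⟩
  obtain ⟨X0, x01, x02, hcl⟩ := hM₁ M k1
  obtain ⟨X2, x21, x22, hu⟩ := hM₂ M k2
  obtain ⟨X1, x11, x12, hd⟩ := hM₃ M k3
  have hlo := hc.lo
  have hhi := hc.hi
  have hsum := hc.sum
  have hrR := hc.rR
  have hcA := hc.ha
  have hcR := hc.hr
  have hyc : S.yc = ⌊(n i : ℝ) * z.im⌋ := rfl
  have hE : S.slabS.Ok (D.y0 z r i) (D.y0 z r i + D.cA r i + D.cR r i + D.cA r i) := by
    rw [hsum]
    exact hc.surf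
  have hI : ∀ x y : ℕ, Shifts D.T 1 (n i) x y → (S.slabS.sf (-2 * y) (-2 * x)).In L := by
    intro x y hs
    obtain ⟨s1, s2⟩ := D.shift_le hs
    exact hL₄ L l4 _ _ s2 s1
  refine ⟨m + 1, by omega, ?_⟩
  refine Slb.cylData (S := S) (L := L) (M := M) (y₀ := D.y0 z r i) (a := D.cA r i) (r := D.cR r i)
    (v := (⌊(n i : ℝ) * z.re⌋, ⌊(n i : ℝ) * z.im⌋)) (R := D.rR r i) (f := D.ins z r i) (X0 := X0)
    (X1 := X1) (X2 := X2) (ε := ε) hc.ok hE ?_ ?_ hc.r0 ?_ (hL₄ L l4 0 0 (by simpa using hW)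
      (by simpa using hW)) hI m5 k4 ?_ hc.ha hc.hr m6 ?_ ?_ hin ?_ m7 hc.big x01 x02 x11 x12 x21 x22
    ?_ ?_ ?_ hKε
  · rw [hyc]
    omega
  · rw [hyc]
    omega
  · rw [hsum]
    exact hc.r1
  · rw [hsum]
    exact k5
  · show D.y0 z r i + D.cA r i ≤ ⌊(n i : ℝ) * z.im⌋ - D.rR r i
    omega
  · show ⌊(n i : ℝ) * z.im⌋ + D.rR r i ≤ D.y0 z r i + D.cA r i + D.cR r i
    omega
  · intro w
    exact hb m m1 m6 _ _ (by omega) (by omega) w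
  · have h1 := (abs_le.mp hd).2
    have h2 : D.y0 z r i = S.yc - ((S.a / 2 : ℕ) : ℤ) := rfl
    rw [h2]
    linarith
  · have h1 := (abs_le.mp hu).2
    have h2 : D.y1 z r i = S.yc + ((S.a / 2 : ℕ) : ℤ) := rfl
    rw [hsum, h2]
    linarith
  · intro x y hs
    obtain ⟨s1, s2⟩ := D.shift_le hs
    exact hcl _ _ s2 s1

end Pool.Agent.SixB.Asm3
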