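import Pool.Agent.Lib.SixB.S3AsmC
import Pool.Agent.Lib.SixB.S3CylWt

/-!
# 6BD step 3: the push of a weight with an inserted sign (row R17)

* `Surf.pushW_sgE`: the push forward of `h * sgE e` is `(push forward of h) * sgE (image of e)`.
* `Slb.sd0_sub`, `Slb.PS_sub`, `Slb.PS_ful`, `Slb.hs_one`: the relevant sides of the surface of a slab with the sides of a
  rectangle, the premises of `GlueZ`, `GlueC`, `Cov` for them.
* `Slb.push_ins`: the weight of the cylinder with the sign of a side of the rectangle.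
-/

set_option autoImplicit false
set_option linter.unusedSectionVars false

namespace Pool.Agent.SixB

open Pool.Agent.Perc Pool.Agent.Perc.Q
open Pool.Agent.SixB.Rel (mem_RF0 RF0_mono)

noncomputable section

namespace Surf

variable {V V' : Type} [DecidableEq V] [DecidableEq V'] {χ : V → V'} {P A D : Finset (V × V)}
  {h : V × V → ℂ}

theorem pushW_none {a : V' × V'} (ha : ¬ ∃ b : V × V, (b ∈ P ∨ b.swap ∈ P) ∧ Prod.map χ χ b = a) :
    pushW χ P h a = 1 := by
  classical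
  unfold pushW
  rw [dif_neg ha]

/-- **The push forward of a weight with an inserted sign.** -/
theorem pushW_sgE (hD : ∀ a ∈ D, ∀ b ∈ D, Prod.map χ χ a = Prod.map χ χ b → a = b)
    (hP : ∀ a, a ∈ P ∨ a.swap ∈ P → a ∈ D) (hA : ∀ a, a ∈ A ∨ a.swap ∈ A → a ∈ D)
    (hh : ∀ a, a ∉ P → a.swap ∉ P → h a = 1) {e : V × V} (he : e ∈ A) (a : V' × V') :
    pushW χ (P ∪ A) (fun b => h b * sgE e b) a = pushW χ P h a * sgE (Prod.map χ χ e) a := by
  classical
  have hPA : ∀ a, a ∈ P ∪ A ∨ a.swap ∈ P ∪ A → a ∈ D := by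
    intro a ha
    rcases ha with ha | ha <;> rcases Finset.mem_union.mp ha with h1 | h1
    · exact hP a (Or.inl h1)
    · exact hA a (Or.inl h1)
    · exact hP a (Or.inr h1)
    · exact hA a (Or.inr h1)
  have hes : e.swap ∈ D := hA _ (Or.inr (by rwa [Prod.swap_swap]))
  have hse : (Prod.map χ χ e).swap = Prod.map χ χ e.swap := rfl
  have hh' : ∀ a, a ∉ P ∪ A → a.swap ∉ P ∪ A → h a * sgE e a = 1 := by
    intro a h1 h2
    rw [hh a (fun h => h1 (Finset.mem_union_left _ h)) fun h => h2 (Finset.mem_union_left _ h)]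
    unfold sgE
    rw [if_neg, mul_one]
    rintro rfl
    exact h2 (Finset.mem_union_right _ (by rwa [Prod.swap_swap]))
  by_cases hx : ∃ b ∈ D, Prod.map χ χ b = a
  · obtain ⟨b, hb, rfl⟩ := hx
    rw [pushW_eq hD hPA hh' hb, pushW_eq hD hP hh hb]
    congr 1
    unfold sgE
    rw [hse]
    have h1 : Prod.map χ χ b = Prod.map χ χ e.swap ↔ b = e.swap :=
      ⟨fun h => hD b hb _ hes h, fun h => by rw [h]⟩
    exact if_congr h1.symm rfl rfl
  · rw [pushW_none, pushW_none, one_mul]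
    · unfold sgE
      rw [if_neg]
      rintro rfl
      exact hx ⟨e.swap, hes, rfl⟩
    · rintro ⟨b, h1, h2⟩
      exact hx ⟨b, hP b h1, h2⟩
    · rintro ⟨b, h1, h2⟩
      exact hx ⟨b, hPA b h1, h2⟩

end Surf

namespace Slb

open Asm3 (sd0)

variable {S : Slb} {X Y L : ℤ} {R : Finset (ℤ × ℤ)}

/-- the faces of the rows between the blocks are not solid -/
theorem row_H {g : ℤ × ℤ} (h0 : S.yc - S.a ≤ g.2) (h1 : g.2 < S.yc + S.a) :
    g ∉ (S.slabS.sf X Y).H := by
  rw [mem_H]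
  rintro (⟨b1, -⟩ | ⟨b1, -⟩)
  · unfold BGeo.hgt geo at b1
    simp only [if_true] at b1
    omega
  · unfold BGeo.hgt geo at b1
    simp only [Bool.false_eq_true, if_false] at b1
    omega

/-- the sides of the rectangle are sides of the core -/
theorem sd0_sub (hI : (S.slabS.sf X Y).In L) (hR : R ⊆ RFb (0, 0) L)
    (hH : ∀ g ∈ R, g ∉ (S.slabS.sf X Y).H) :
    (dE ZQ R).image sd0 ⊆ dE (S.slabS.sf X Y).Q ((S.slabS.sf X Y).core L) := by
  have hc := Surf.base_chart (E := S.slabS.sf X Y) hI hH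
  have h1 : (dE ZQ R).image sd0 = dE (S.slabS.sf X Y).Q (R.image (Prod.mk (S.slabS.sf X Y).s0)) := by
    rw [hc.dE_map (Finset.Subset.refl _)]
    rfl
  rw [h1]
  refine dE_mono fun f hf => ?_
  obtain ⟨g, hg, rfl⟩ := Finset.mem_image.mp hf
  exact Surf.mem_core.mpr (Or.inl ⟨rfl, hR hg, hH g hg⟩)

theorem hz_off {V : Type} [DecidableEq V] {ψ : V × V → ℝ} {Z : Finset (V × V)} (a : V × V)
    (h1 : a ∉ Z) (h2 : a.swap ∉ Z) : Rel.hz ψ Z a = 1 := by
  unfold Rel.hz
  rw [if_neg h1, if_neg h2]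

/-- the island sides do not depend on the box -/
theorem Z_box (h : S.Ok) (hL : Asm3.bx S X Y ≤ L) :
    (S.env (RFb (0, 0) L) X Y).Z = (Asm3.eB S X Y).Z := by
  have h1 := Rel.Z_win (E := S.env ∅ X Y) (thk h) (Asm3.inBx S X Y) hL
  exact h1

/-- the weight of the island sides does not depend on the box -/
theorem hB_box (h : S.Ok) (hL : Asm3.bx S X Y ≤ L) :
    Rel.hz (S.ph ∅ X Y) (S.env (RFb (0, 0) L) X Y).Z = Asm3.hB S X Y := by
  rw [Z_box h hL]
  rfl

/-- the relevant sides with the sides of the rectangle -/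
theorem PS_sub (h : S.Ok) (hI : (S.slabS.sf X Y).In L) (hR : R ⊆ RFb (0, 0) L)
    (hH : ∀ g ∈ R, g ∉ (S.slabS.sf X Y).H) :
    (S.env (RFb (0, 0) L) X Y).Z ∪ (dE ZQ R).image sd0 ⊆
      dE (S.slabS.sf X Y).Q ((S.slabS.sf X Y).core L) :=
  Finset.union_subset (Z_sub h hI) (sd0_sub hI hR hH)

theorem PS_ful (h : S.Ok) (hI : (S.slabS.sf X Y).In L) :
    ∀ a ∈ bS (S.slabS.sf X Y).Q ((S.slabS.sf X Y).core L ∪ (S.slabS.sf X Y).ring L),
      a ∈ dE (S.slabS.sf X Y).Q ((S.slabS.sf X Y).core L) →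
        a ∈ (S.env (RFb (0, 0) L) X Y).Z ∪ (dE ZQ R).image sd0 ∨
          a.swap ∈ (S.env (RFb (0, 0) L) X Y).Z ∪ (dE ZQ R).image sd0 := by
  intro a ha ha'
  exact (ful h hI a ha ha').imp (Finset.mem_union_left _) (Finset.mem_union_left _)

/-- the weight with the sign is one off the relevant sides -/
theorem hs_one {ψ : (Option Bool × (ℤ × ℤ)) × (Option Bool × (ℤ × ℤ)) → ℝ}
    {Z : Finset ((Option Bool × (ℤ × ℤ)) × (Option Bool × (ℤ × ℤ)))} {e : (ℤ × ℤ) × (ℤ × ℤ)}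
    (he : e ∈ dE ZQ R) (a : (Option Bool × (ℤ × ℤ)) × (Option Bool × (ℤ × ℤ)))
    (h1 : a ∉ Z ∪ (dE ZQ R).image sd0) (h2 : a.swap ∉ Z ∪ (dE ZQ R).image sd0) :
    Rel.hz ψ Z a * sgE (sd0 e) a = 1 := by
  rw [hz_off a (fun h => h1 (Finset.mem_union_left _ h)) fun h => h2 (Finset.mem_union_left _ h)]
  unfold sgE
  rw [if_neg, mul_one]
  rintro rfl
  refine h2 (Finset.mem_union_right _ ?_)
  rw [Prod.swap_swap]
  exact Finset.mem_image_of_mem _ he

/-- **The weight of the cylinder with the sign of a side of the rectangle.** -/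
theorem push_ins (h : S.Ok) (hI : (S.slabS.sf X Y).In L) {N : ℕ} [Fact (3 ≤ N)] (hN' : 2 * L < N)
    (hR : R ⊆ RFb (0, 0) L) (hH : ∀ g ∈ R, g ∉ (S.slabS.sf X Y).H) {e : (ℤ × ℤ) × (ℤ × ℤ)}
    (he : e ∈ dE ZQ R) (a : (Option Bool × (ZMod N × ℤ)) × (Option Bool × (ZMod N × ℤ))) :
    Surf.pushW (Surf.chi (Option Bool) N)
        ((S.env (RFb (0, 0) L) X Y).Z ∪ (dE ZQ R).image sd0)
        (fun b => Rel.hz (S.ph ∅ X Y) (S.env (RFb (0, 0) L) X Y).Z b * sgE (sd0 e) b) a =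
      hN S N L X Y a *
        sgE (Prod.map (Surf.chi (Option Bool) N) (Surf.chi (Option Bool) N) (sd0 e)) a := by
  show _ = Surf.pushW (Surf.chi (Option Bool) N) (S.env (RFb (0, 0) L) X Y).Z
      (Rel.hz (S.ph ∅ X Y) (S.env (RFb (0, 0) L) X Y).Z) a * _
  have hc := Surf.chi_chart (N := N) hI le_rfl hN' (fun f hf => Surf.core_box hI hf)
  refine Surf.pushW_sgE (D := dE (S.slabS.sf X Y).Q ((S.slabS.sf X Y).core L))
    (fun a ha b hb e => hc.inj_dE ha hb e) ?_ ?_ hz_off (Finset.mem_image_of_mem _ he) a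
  · intro a ha
    rcases ha with ha | ha
    · exact Z_sub h hI ha
    · exact swap_mem_dE.mp (Z_sub h hI ha)
  · intro a ha
    rcases ha with ha | ha
    · exact sd0_sub hI hR hH ha
    · exact swap_mem_dE.mp (sd0_sub hI hR hH ha)

end Slb

end

end Pool.Agent.SixB
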