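import Pool.Agent.Lib.SixB.S3CylNrm
import Pool.Agent.Lib.SixB.S3CylWs
import Pool.Agent.Lib.SixB.S3CylElt

/-!
# 6BD step 3: the joint limit of the surfaces over odd cylinders (row R17, `CylIn`)

* `Slb.cyl_one`: the surface over the cylinder with the sign of a side inserted covers the plane surface.
* `Slb.zS_boxc`: the plane value does not depend on the box.
* `Slb.limFc`: the Prop `LimF`.
-/

set_option autoImplicit false
set_option linter.unusedSectionVars false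

namespace Pool.Agent.SixB

open Pool.Agent.Perc Pool.Agent.Perc.Q Relation Filter Topology ComplexConjugate
open Pool.Agent.SixB.Rel Pool.Agent.SixB.Dbl
open Pool.Agent.SixB hiding Zs_split dst_congr qt_congr dE_mono

noncomputable section

namespace Slb

open _root_.Pool.Agent.SixB.Asm3 (sd0 eB)

variable {S : Slb} {X Y L M : ℤ} {N : ℕ} [hN3 : Fact (3 ≤ N)] {R : Finset (ℤ × ℤ)}
  {e : (ℤ × ℤ) × (ℤ × ℤ)}

/-- **The surface over the cylinder with the sign of a side inserted.** -/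
theorem cyl_one (h : S.Ok) (hI : (S.slabS.sf X Y).In L) {n : ℕ} (hn : 2 * (4 ^ n * L) < N)
    (hL : 2 * (L + 1) < N) (hM : L < M) (hodd : Odd N) (hR : R ⊆ RFb (0, 0) L)
    (hH : ∀ g ∈ R, g ∉ (S.slabS.sf X Y).H) (he : e ∈ dE ZQ R) :
    Hcs.Cyl n N M L (S.env ∅ X Y).Q (win (S.env ∅ X Y) L).F (fun f => ((none : Option Bool), f))
      (fun b => hz (S.ph ∅ X Y) (win (S.env ∅ X Y) L).Z b * sgE (sd0 e) b)
      ((win (S.env ∅ X Y) L).Z ∪ (dE ZQ R).image sd0) ((S.slabS.sf X Y).QN N)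
      ((S.slabS.sf X Y).FN N M)
      (fun b => hN S N L X Y b * sgE (Prod.map (Ins.sN none N) (Ins.sN none N) e) b) where
  ex := by
    have hP := PS_sub h hI hR hH
    have hc := Surf.cov hI hn hP
      (h := fun b => hz (S.ph ∅ X Y) (S.env (RFb (0, 0) L) X Y).Z b * sgE (sd0 e) b)
      (fun a h1 h2 => hs_one he a h1 h2)
    rw [core_env] at hc
    refine ⟨(S.slabS.sf X Y).coreN N L, Prod.mk none, Prod.mk none, _, _, _, 0, _,
      glueN h hI hP Finset.subset_union_left hL hM, hc, Surf.FN_eq hI hM.le (by omega),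
      fun ω => turnsFN h hI hodd hL hM ω, fun a h1 h2 => Surf.pushW_one h1 h2, fun a _ => ?_⟩
    exact (push_ins h hI (by omega) hR hH he a).symm

/-- the sides of the rectangle are sides of the window -/
theorem sd0_env (h : S.Ok) (hR : R ⊆ RFb (0, 0) L) (hH : ∀ g ∈ R, g ∉ (S.slabS.sf X Y).H) :
    (dE ZQ R).image sd0 ⊆ dE (S.env ∅ X Y).Q (win (S.env ∅ X Y) L).F := by
  intro a ha
  obtain ⟨b, hb, rfl⟩ := Finset.mem_image.mp ha
  obtain ⟨g, hg, k, hk⟩ := mem_dE.mp hb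
  have h1 := hH g hg
  rw [mem_H] at h1
  push Not at h1
  refine mem_dE.mpr ⟨(none, g), EnvB.mem_F_none.mpr (mem_base_win.mpr ⟨hR hg, h1.1, h1.2⟩), k, ?_⟩
  have e1 : sd (S.env ∅ X Y).Q ((none : Option Bool), g) k = sd0 (sd ZQ g k) := by
    unfold sd sd0
    rw [c_none h h1.1 h1.2, c_none h h1.1 h1.2]
  rcases hk with rfl | rfl
  · exact Or.inl e1.symm
  · right
    rw [e1]
    rfl

/-- **The plane value does not depend on the box.** -/
theorem zS_boxc (h : S.Ok) (hbx : Asm3.bx S X Y ≤ L) (hR : R ⊆ RFb (0, 0) (Asm3.bx S X Y))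
    (hH : ∀ g ∈ R, g ∉ (S.slabS.sf X Y).H) (he : e ∈ dE ZQ R) :
    Zp L (S.env ∅ X Y).Q (win (S.env ∅ X Y) L).F (fun f => ((none : Option Bool), f))
      (fun b => hz (S.ph ∅ X Y) (win (S.env ∅ X Y) L).Z b * sgE (sd0 e) b)
      ((win (S.env ∅ X Y) L).Z ∪ (dE ZQ R).image sd0) = Asm3.zS S X Y R e := by
  have hB := Asm3.inBx S X Y
  have hg := glueZ_env (thk (W := ∅) (X := X) (Y := Y) h) hB
  have H : GlueZ (Asm3.bx S X Y) (S.env ∅ X Y).Q (eB S X Y).F (fun v => ((none : Option Bool), v))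
      (fun f => ((none : Option Bool), f)) ((eB S X Y).Z ∪ (dE ZQ R).image sd0) :=
    ⟨hg.chart, hg.dj, hg.nb, Finset.union_subset hg.P_sub (sd0_env h hR hH)⟩
  rw [Rel.Z_win (thk h) hB hbx, Rel.F_win hB hbx]
  exact GlueZ.Zp_box (noLoop_env _) H (Asm3.bx_pos S X Y) hbx fun a h1 h2 => hs_one he a h1 h2

/-- the rectangle is in the box -/
theorem rect_box (hR : ∀ g ∈ R, S.x1 ≤ g.1 ∧ g.1 < S.x2 ∧ S.yc - S.a ≤ g.2 ∧ g.2 < S.yc + S.a) :
    R ⊆ RFb (0, 0) (Asm3.bx S X Y) := by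
  intro g hg
  obtain ⟨h1, h2, h3, h4⟩ := hR g hg
  rw [mem_RF0]
  have a1 := neg_abs_le S.x1
  have a2 := le_abs_self S.x1
  have a3 := neg_abs_le S.x2
  have a4 := le_abs_self S.x2
  have a5 := neg_abs_le S.yc
  have a6 := le_abs_self S.yc
  have a7 := abs_nonneg X
  have a8 := abs_nonneg Y
  have a9 := abs_nonneg S.x1
  have a10 := abs_nonneg S.x2
  have a11 := abs_nonneg S.yc
  unfold Asm3.bx
  omega

theorem bx_lec {W : ℤ} (hX : |X| ≤ W) (hY : |Y| ≤ W) : Asm3.bx S X Y ≤ Asm3.bx S W W := by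
  have h1 := le_abs_self W
  unfold Asm3.bx
  omega

/-- **The joint limit.** -/
theorem limFc : LimF := by
  intro S h ha W R hR
  obtain ⟨L₁, hL₁⟩ := exists_in h W
  refine ⟨max L₁ (Asm3.bx S W W), fun L hL ε hε => ?_⟩
  have l1 : L₁ ≤ L := by omega
  have l2 : Asm3.bx S W W ≤ L := by omega
  have hL0 : 0 < L := lt_of_lt_of_le (Asm3.bx_pos S W W) l2
  obtain ⟨K, hK⟩ := (((Finset.Icc (-W) W ×ˢ Finset.Icc (-W) W) ×ˢ dE ZQ R).image
    fun t : (ℤ × ℤ) × ((ℤ × ℤ) × (ℤ × ℤ)) =>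
      CP (fun b => hz (S.ph ∅ t.1.1 t.1.2) (win (S.env ∅ t.1.1 t.1.2) L).Z b * sgE (sd0 t.2) b)
        ((win (S.env ∅ t.1.1 t.1.2) L).Z ∪ (dE ZQ R).image sd0)).exists_le
  obtain ⟨k, hk, H⟩ := Hcs.Cyl.lim hL0 K (ε := ε / 2) (by positivity)
  have q4 : (1 : ℤ) ≤ 4 ^ k := one_le_pow₀ (by norm_num)
  have p1 : 4 ^ k * L ≤ 4 ^ k * (4 ^ k * L) := le_mul_of_one_le_left (by positivity) q4
  refine ⟨(2 * (4 ^ k * (4 ^ k * L))).toNat + (2 * (L + 1)).toNat + 1, ?_⟩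
  intro m _ hodd hm
  have t1 := Int.self_le_toNat (2 * (4 ^ k * (4 ^ k * L)))
  have t2 := Int.self_le_toNat (2 * (L + 1))
  have hN1 : 2 * (4 ^ k * (4 ^ k * L)) < ((m + 1 : ℕ) : ℤ) := by
    push_cast
    omega
  have hN2 : 2 * (L + 1) < ((m + 1 : ℕ) : ℤ) := by
    push_cast
    omega
  obtain ⟨M₀, HM⟩ := H (m + 1) hodd hN1
  refine ⟨max M₀ (L + 1), fun M hM => ?_⟩
  have hM1 : M₀ ≤ M := by omega
  have hM2 : L < M := by omega
  obtain ⟨x, x1, x2, HX⟩ := HM M hM1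
  refine ⟨x, x1, x2, ?_⟩
  intro X Y hX hY e he
  have he' : e ∈ dE ZQ R := (Ins.mem_EP.mp he).1
  have hI := hL₁ L l1 X Y hX hY
  have hbx : Asm3.bx S X Y ≤ L := (bx_lec hX hY).trans l2
  have hRb := rect_box (X := X) (Y := Y) hR
  have hRL : R ⊆ RFb (0, 0) L := fun g hg => RF0_mono hbx (hRb hg)
  have hH : ∀ g ∈ R, g ∉ (S.slabS.sf X Y).H := fun g hg => row_H (hR g hg).2.2.1 (hR g hg).2.2.2
  have hg := glueZ_env (thk (W := ∅) (X := X) (Y := Y) h) (inBx_of_in hI)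
  have HZ : GlueZ L (S.env ∅ X Y).Q (win (S.env ∅ X Y) L).F (fun v => ((none : Option Bool), v))
      (fun f => ((none : Option Bool), f)) ((win (S.env ∅ X Y) L).Z ∪ (dE ZQ R).image sd0) :=
    ⟨hg.chart, hg.dj, hg.nb, Finset.union_subset hg.P_sub (sd0_env h hRL hH)⟩
  have hKX : CP (fun b => hz (S.ph ∅ X Y) (win (S.env ∅ X Y) L).Z b * sgE (sd0 e) b)
      ((win (S.env ∅ X Y) L).Z ∪ (dE ZQ R).image sd0) ≤ K := by
    refine hK _ (Finset.mem_image.mpr ⟨((X, Y), e), ?_, rfl⟩)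
    rw [Finset.mem_product, Finset.mem_product, Finset.mem_Icc, Finset.mem_Icc]
    exact ⟨⟨abs_le.mp hX, abs_le.mp hY⟩, he'⟩
  have key := HX _ _ _ _ _ _ _ _ _ _ _ _ _ (noLoop_env _) Surf.noLoop_QN HZ
    (fun a h1 h2 => hs_one he' a h1 h2) hKX
    (cyl_one (N := m + 1) (n := k) (M := M) h hI (by omega) hN2 hM2 hodd hRL hH he')
  rw [zS_boxc h hbx hRb hH he'] at key
  have hr : (0 : ℝ) < r4 ^ (2 * (m + 1)) := pow_pos r4_pos _
  have e1 : zN S (m + 1) L M X Y e =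
      ((2 ^ ((S.slabS.sf X Y).FN (m + 1) M).card : ℝ) : ℂ) *
        avc ((S.slabS.sf X Y).FN (m + 1) M) (fun ω => Zs ((S.slabS.sf X Y).QN (m + 1))
          ((S.slabS.sf X Y).FN (m + 1) M) ω fun b =>
            hN S (m + 1) L X Y b * sgE (Prod.map (Ins.sN none (m + 1)) (Ins.sN none (m + 1)) e) b) := by
    unfold zN
    rw [Z6_avc Surf.noLoop_QN]
    push_cast
    rfl
  have e2 : ((nF S m M X Y * x : ℝ) : ℂ) * Asm3.zS S X Y R e =
      ((2 ^ ((S.slabS.sf X Y).FN (m + 1) M).card : ℝ) : ℂ) *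
        (((r4 ^ (2 * (m + 1)) * x : ℝ) : ℂ) * Asm3.zS S X Y R e) := by
    unfold nF
    push_cast
    ring
  rw [e1, e2, ← mul_sub, norm_mul, Complex.norm_real, Real.norm_eq_abs, abs_of_pos (by positivity)]
  unfold nF
  rw [mul_assoc]
  refine mul_le_mul_of_nonneg_left (key.trans ?_) (by positivity)
  have h5 : r4 ^ (2 * (m + 1)) * x * (ε / 2) ≤ r4 ^ (2 * (m + 1)) * 2 * (ε / 2) :=
    mul_le_mul_of_nonneg_right (mul_le_mul_of_nonneg_left x2 hr.le) (by positivity)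
  linarith

end Slb

end

end Pool.Agent.SixB
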