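import Pool.Agent.Lib.SixB.S3CylLim
import Pool.Agent.Lib.SixB.S3CylLimF

/-!
# 6BD step 3: the premise `CylIn`

* `Asm3.cylIn`: the finite odd cylinders (row R17).
-/

set_option autoImplicit false

namespace Pool.Agent.SixB.Asm3

/-- **The finite odd cylinders.** -/
theorem cylIn : CylIn := cylIn_of Slb.limFc Slb.limU Slb.limL

end Pool.Agent.SixB.Asm3
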