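import Pool.Agent.Lib.SixB.S3WZ1
import Pool.Agent.Lib.SixB.S3Conf

/-!
# 6BD step 3.8 (R18): splitting of `WZ`, `WZ1` into two disjoint pieces

`F₁ ⊆ F`, `F₂ = F \ F₁`, cores `K₀ ⊆ F₁`, `K₁ ⊆ F₂` (the faces off the tubes).
* `Z₂`: the island sides of `F₂` and the closing sides.
* `Cut2`: the fields which do not depend on the configuration; `CutW`: no strand crosses the tubes, the arcs in the
  tubes have weight `√3`.
* `wz_split`: `WZ F Z = WZ F₁ (bS F₁) * WZ F₂ Z₂`; `wz1_split`: the same with an arrow on a side of `K₀` inserted.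
-/

set_option autoImplicit false
set_option linter.unusedSectionVars false

namespace Pool.Agent.SixB.Spl

open Pool.Agent.Perc.Q Relation
open Pool.Agent.SixB.Rel (touch touch_iff WZ1 WZ1_of WZ1_not WZ1_swap WZ1_srel WZ1_free WZ1_arc wB WZ_wB)
open Pool.Agent.SixB.Conf

noncomputable section

variable {V Φ : Type} [DecidableEq V] [DecidableEq Φ]
variable {Q : QC V Φ} {F F₁ K₀ K₁ K : Finset Φ} {ω : Φ → Bool} {a b c e m : V × V}
  {Z S S₁ S₂ : Finset (V × V)} {ψ ψ₁ ψ₂ : V × V → ℝ}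

/-! ## The strands through the core -/

theorem out_core (C : Conf.Core Q F F₁ K₀ ω) (hc : Into Q (K₀ : Set Φ) c.swap)
    (hb : b ∈ Orb Q ω (F₁ : Set Φ) c) : b ∉ dE Q (F \ F₁) := by
  have hsub : (F₁ : Set Φ) ⊆ (K₀ : Set Φ) ∪ ((F₁ : Set Φ) \ K₀) ∪ ((F : Set Φ) \ F₁) := by
    intro x hx
    by_cases h : x ∈ (K₀ : Set Φ)
    · exact Or.inl (Or.inl h)
    · exact Or.inl (Or.inr ⟨hx, h⟩)
  have h1 := (orb_conf C.nox hsub hc hb).1
  intro hbd
  obtain ⟨g, hg, l, h | h⟩ := mem_dE.mp hbd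
  · refine h1 ⟨g, ?_, l, h⟩
    obtain ⟨h2, h3⟩ := Finset.mem_sdiff.mp hg
    exact ⟨by exact_mod_cast h2, fun h4 => h3 (by exact_mod_cast h4)⟩
  · -- `b` comes out of `g`
    have hgF : g ∉ F₁ := (Finset.mem_sdiff.mp hg).2
    rcases ReflTransGen.cases_tail hb with h2 | ⟨x, -, h2⟩
    · obtain ⟨f, hf, k, h3⟩ := hc
      rw [← h2, h] at h3
      have h4 := (sd_inj h3).1
      rw [h4] at hgF
      exact hgF (C.sub (by exact_mod_cast hf))
    · obtain ⟨f, hf, k, -, h3⟩ := nx_face h2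
      rw [h] at h3
      have h4 := (sd_inj h3).1
      rw [h4] at hgF
      exact hgF (by exact_mod_cast hf)

/-- **The strand of a side of the core stays in the piece.** -/
theorem off_core (C : Conf.Core Q F F₁ K₀ ω) (he : e ∈ dE Q K₀) :
    Off Q (F \ F₁) (dst Q F₁ ω e) := by
  -- forward part, for both directions
  have fwd : ∀ {e b : V × V}, e ∈ dE Q K₀ → b ∈ Orb Q ω (F₁ : Set Φ) e → b ∉ dE Q (F \ F₁) := by
    intro e b he hb
    obtain ⟨f, hf, k, h | h⟩ := mem_dE.mp he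
    · rcases ReflTransGen.cases_head hb with h1 | ⟨y, h1, h2⟩
      · subst h1
        -- `e` is a side into `K₀`
        have h2 : Into Q (K₀ : Set Φ) e.swap.swap := by
          rw [Prod.swap_swap]
          exact ⟨f, by exact_mod_cast hf, k, h⟩
        have h3 := out_core C h2 (mem_Orb_self : e.swap ∈ Orb Q ω (F₁ : Set Φ) e.swap)
        exact fun h4 => h3 (swap_mem_dE.mpr h4)
      · obtain ⟨g, -, l, h3, h4⟩ := nx_face h1
        have h5 : f = g := (sd_inj (h.symm.trans h3)).1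
        subst h5
        exact out_core C ⟨f, by exact_mod_cast hf, _, h4⟩ h2
    · exact out_core C ⟨f, by exact_mod_cast hf, k, by rw [h, Prod.swap_swap]⟩ hb
  intro b hb
  rcases srel_iff.mp (mem_dst.mp hb).2 with h | h
  · exact fwd he h
  · have h2 := fwd (swap_mem_dE.mpr he) (orb_rev (show e ∈ Orb Q ω (F₁ : Set Φ) b from h))
    exact fun h3 => h2 (swap_mem_dE.mpr h3)

/-- the strand of an arc contains a side of the core: the arc visits the core -/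
theorem vis_of_dE (ha : a ∈ bS Q F) (he : e ∈ dst Q F ω a) (hK : K ⊆ F) (heK : e ∈ dE Q K) :
    ∃ f ∈ K, f ∈ Vis Q ω (F : Set Φ) a := by
  have hai := (mem_bS.mp ha).2
  have h1 : e ∈ Orb Q ω (F : Set Φ) a := by
    rcases srel_iff.mp (mem_dst.mp he).2 with h | h
    · exact h
    · rcases ReflTransGen.cases_tail h with h2 | ⟨x, -, h2⟩
      · rw [h2]
        exact mem_Orb_self
      · exact absurd h2 (ini_nx hai)
  obtain ⟨f, hf, k, h | h⟩ := mem_dE.mp heK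
  · refine ⟨f, hf, by exact_mod_cast hK hf, k, ?_⟩
    show sd Q f k ∈ _
    rw [← h]
    exact h1
  · rcases ReflTransGen.cases_tail h1 with h2 | ⟨x, hx, h2⟩
    · rw [h2] at h
      exact absurd h (hai f (by exact_mod_cast hK hf) k)
    · obtain ⟨g, -, l, h3, h4⟩ := nx_face h2
      rw [h, Prod.swap_swap] at h4
      have h5 : f = g := (sd_inj h4).1
      subst h5
      refine ⟨f, hf, by exact_mod_cast hK hf, l, ?_⟩
      show sd Q f l ∈ _
      rw [← h3]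
      exact hx

/-! ## Two pieces -/

open Classical in
/-- the sides of `F \ F₁` in `Z` and the closing sides -/
def Z₂ (Q : QC V Φ) (F F₁ : Finset Φ) (Z : Finset (V × V)) : Finset (V × V) :=
  (bS Q (F \ F₁)).filter fun a => a ∈ Z ∨ a ∉ bS Q F

theorem mem_Z₂ : a ∈ Z₂ Q F F₁ Z ↔ a ∈ bS Q (F \ F₁) ∧ (a ∈ Z ∨ a ∉ bS Q F) := by
  classical
  unfold Z₂
  rw [Finset.mem_filter]

theorem Z₂_sub : Z₂ Q F F₁ Z ⊆ bS Q (F \ F₁) := fun _ ha => (mem_Z₂.mp ha).1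

/-- the fields which do not depend on the configuration -/
structure Cut2 (Q : QC V Φ) (F F₁ K₀ K₁ : Finset Φ) (Z : Finset (V × V)) (ψ ψ₁ ψ₂ : V × V → ℝ) :
    Prop where
  sub : F₁ ⊆ F
  K0 : K₀ ⊆ F₁
  K1 : K₁ ⊆ F \ F₁
  ZF : Z ⊆ bS Q F
  /-- the boundary sides of `F` on `F₁` are in `Z` -/
  Z1 : ∀ a ∈ bS Q F, a ∈ dE Q F₁ → a ∈ Z
  /-- the boundary sides of `F` on the second tube are in `Z` -/
  Z2 : ∀ a ∈ bS Q F, a ∈ dE Q ((F \ F₁) \ K₁) → a ∈ Z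
  ps1 : ∀ a ∈ bS Q F, a ∈ dE Q F₁ → ψ₁ a = ψ a
  ps2 : ∀ a ∈ bS Q F, a ∈ dE Q (F \ F₁) → ψ₂ a = ψ a

/-- the fields for a configuration `ω` for which the tubes are not crossed -/
structure CutW (Q : QC V Φ) (F F₁ K₀ K₁ : Finset Φ) (Z : Finset (V × V)) (ψ ψ₁ ψ₂ : V × V → ℝ)
    (ω : Φ → Bool) : Prop where
  C0 : Conf.Core Q F F₁ K₀ ω
  C1 : Conf.Core Q F (F \ F₁) K₁ ω
  /-- arcs of `F` in the tubes -/
  n : ∀ a ∈ Z, (∀ f ∈ K₀, f ∉ Vis Q ω (F : Set Φ) a) → (∀ f ∈ K₁, f ∉ Vis Q ω (F : Set Φ) a) →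
    wt Q F ω ψ a = Real.sqrt 3
  /-- arcs of `F₁` in the first tube, with the closed end -/
  n1 : ∀ a ∈ bS Q F₁, (∀ f ∈ K₀, f ∉ Vis Q ω (F₁ : Set Φ) a) → wt Q F₁ ω ψ₁ a = Real.sqrt 3
  /-- arcs of `F \ F₁` in the second tube, with the closed end -/
  n2 : ∀ a ∈ Z₂ Q F F₁ Z, (∀ f ∈ K₁, f ∉ Vis Q ω ((F \ F₁ : Finset Φ) : Set Φ) a) →
    wt Q (F \ F₁) ω ψ₂ a = Real.sqrt 3

theorem face_vis (ha : a ∈ bS Q F) : ∃ f ∈ F, f ∈ Vis Q ω (F : Set Φ) a ∧ ∃ k, a = sd Q f k := by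
  obtain ⟨f, hf, k, hk⟩ := bS_sd ha
  exact ⟨f, hf, ⟨by exact_mod_cast hf, k, by rw [hk]; exact mem_Orb_self⟩, k, hk⟩

variable (D : Cut2 Q F F₁ K₀ K₁ Z ψ ψ₁ ψ₂) (E : CutW Q F F₁ K₀ K₁ Z ψ ψ₁ ψ₂ ω)
include D E

/-- a side of `F` whose arc does not visit the second core is in `Z` -/
theorem mem_Z_of (ha : a ∈ bS Q F)
    (h1 : ∀ f ∈ K₁, f ∉ Vis Q ω (F : Set Φ) a) : a ∈ Z := by
  obtain ⟨f, hf, hv, k, hk⟩ := face_vis (ω := ω) ha
  by_cases h2 : f ∈ F₁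
  · exact D.Z1 a ha (hk ▸ sd_mem h2 k)
  · refine D.Z2 a ha (hk ▸ sd_mem (Finset.mem_sdiff.mpr ⟨Finset.mem_sdiff.mpr ⟨hf, h2⟩, ?_⟩) k)
    exact fun h3 => h1 f h3 hv

theorem mc_iff : (∀ a ∈ Z, mate Q F ω a ∈ Z) ↔
    ∀ a ∈ Z₂ Q F F₁ Z, mate Q (F \ F₁) ω a ∈ Z₂ Q F F₁ Z := by
  constructor
  · intro hm a ha
    obtain ⟨h1, h2⟩ := mem_Z₂.mp ha
    have h3 := mate_mem (ω := ω) h1
    refine mem_Z₂.mpr ⟨h3, ?_⟩
    by_cases hmF : mate Q (F \ F₁) ω a ∈ bS Q F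
    · left
      by_cases hv : ∃ f ∈ K₁, f ∈ Vis Q ω ((F \ F₁ : Finset Φ) : Set Φ) a
      · obtain ⟨f, hf, hv⟩ := hv
        have h4 : a ∈ bS Q F := mem_bS.mpr ⟨dE_sub' E.C1.subF (mem_bS.mp h1).1,
          E.C1.ini (mem_bS.mp h1).2 hf hv⟩
        have h5 : a ∈ Z := h2.resolve_right (fun h => h h4)
        have h6 : f ∈ Vis Q ω (F : Set Φ) a :=
          Vis_mono (by exact_mod_cast E.C1.subF) hv
        have h7 := conf_mate E.C1.subF h4 (E.C1.conf hf h6)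
        rw [h7.2.1]
        exact hm a h5
      · push Not at hv
        set m := mate Q (F \ F₁) ω a with hmd
        obtain ⟨g, hg, hvg, k, hk⟩ := face_vis (ω := ω) h3
        have h5 : Vis Q ω ((F \ F₁ : Finset Φ) : Set Φ) m = Vis Q ω ((F \ F₁ : Finset Φ) : Set Φ) a :=
          vis_mate h1
        rw [h5] at hvg
        refine D.Z2 m hmF (hk ▸ sd_mem (Finset.mem_sdiff.mpr ⟨hg, fun h6 => hv g h6 hvg⟩) k)
    · exact Or.inr hmF
  · intro hm a ha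
    have haF := D.ZF ha
    have hmF := mate_mem (ω := ω) haF
    by_cases hv0 : ∃ f ∈ K₀, f ∈ Vis Q ω (F : Set Φ) a
    · obtain ⟨f, hf, hv⟩ := hv0
      have h7 := conf_mate E.C0.subF haF (E.C0.conf hf hv)
      refine D.Z1 _ hmF ?_
      rw [← h7.2.1]
      exact (mem_bS.mp (mate_mem h7.1)).1
    by_cases hv1 : ∃ f ∈ K₁, f ∈ Vis Q ω (F : Set Φ) a
    · obtain ⟨f, hf, hv⟩ := hv1
      have h7 := conf_mate E.C1.subF haF (E.C1.conf hf hv)
      have h8 := hm a (mem_Z₂.mpr ⟨h7.1, Or.inl ha⟩)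
      rw [h7.2.1] at h8
      exact (mem_Z₂.mp h8).2.resolve_right fun h => h hmF
    push Not at hv0 hv1
    have h5 : Vis Q ω (F : Set Φ) (mate Q F ω a) = Vis Q ω (F : Set Φ) a := vis_mate haF
    exact mem_Z_of D E hmF (by rw [h5]; exact hv1)

/-- the product over a set of sides -/
theorem aP2 (hS : MC Q F ω S) (hSZ : S ⊆ Z) (hS1 : MC Q F₁ ω S₁) (hS2 : MC Q (F \ F₁) ω S₂)
    (hS2Z : S₂ ⊆ Z₂ Q F F₁ Z)
    (h0 : ∀ a ∈ bS Q F, a ∈ bS Q F₁ → (∃ f ∈ K₀, f ∈ Vis Q ω (F : Set Φ) a) → (a ∈ S ↔ a ∈ S₁))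
    (h1 : ∀ a ∈ bS Q F, a ∈ bS Q (F \ F₁) → (∃ f ∈ K₁, f ∈ Vis Q ω (F : Set Φ) a) →
      (a ∈ S ↔ a ∈ S₂)) :
    aP Q F ω ψ S = aP Q F₁ ω ψ₁ S₁ * aP Q (F \ F₁) ω ψ₂ S₂ := by
  have key := aP_pieces (Q := Q) (F := F) (ω := ω) (ψ := ψ) (P := fun i : Bool => bif i then F₁ else F \ F₁)
    (K := fun i : Bool => bif i then K₀ else K₁) (ψ' := fun i : Bool => bif i then ψ₁ else ψ₂)
    (S' := fun i : Bool => bif i then S₁ else S₂) Finset.univ hS
    (by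
      intro i _
      cases i
      · exact E.C1
      · exact E.C0)
    (by
      intro i _ j _ hij
      cases i <;> cases j
      · exact absurd rfl hij
      · exact Finset.disjoint_left.mpr fun x hx hx' => (Finset.mem_sdiff.mp hx).2 (D.K0 hx')
      · exact Finset.disjoint_left.mpr fun x hx hx' => (Finset.mem_sdiff.mp (D.K1 hx')).2 hx
      · exact absurd rfl hij)
    (by
      intro i _
      cases i
      · exact hS2
      · exact hS1)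
    (by
      intro i _
      cases i
      · exact h1
      · exact h0)
    (by
      intro i _
      cases i
      · exact fun a ha ha' => D.ps2 a ha (mem_bS.mp ha').1
      · exact fun a ha ha' => D.ps1 a ha (mem_bS.mp ha').1)
    (by
      intro i _
      cases i
      · exact fun a ha h => E.n2 a (hS2Z ha) h
      · exact fun a ha h => E.n1 a (hS1.1 ha) h)
    (by
      intro a ha h
      exact E.n a (hSZ ha) (h true (Finset.mem_univ _)) (h false (Finset.mem_univ _)))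
  rw [Fintype.prod_bool] at key
  exact key

omit D E in
theorem WZ_aP (hm : ∀ a ∈ Z, mate Q F ω a ∈ Z) : WZ Q F ψ Z ω = aP Q F ω ψ Z := by
  unfold WZ aP arcsZ
  rw [if_pos hm]

/-- **Splitting of `WZ`.** -/
theorem wz_split : WZ Q F ψ Z ω = WZ Q F₁ ψ₁ (bS Q F₁) ω * WZ Q (F \ F₁) ψ₂ (Z₂ Q F F₁ Z) ω := by
  by_cases hm : ∀ a ∈ Z, mate Q F ω a ∈ Z
  · have hm2 := (mc_iff D E).mp hm
    have hm1 : ∀ a ∈ bS Q F₁, mate Q F₁ ω a ∈ bS Q F₁ := fun a ha => mate_mem ha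
    rw [WZ_aP hm, WZ_aP hm1, WZ_aP hm2]
    refine aP2 D E ⟨D.ZF, hm⟩ (Finset.Subset.refl _) ⟨Finset.Subset.refl _, hm1⟩ ⟨Z₂_sub, hm2⟩
      (Finset.Subset.refl _) ?_ ?_
    · exact fun a ha ha' _ => iff_of_true (D.Z1 a ha (mem_bS.mp ha').1) ha'
    · intro a ha ha' _
      rw [mem_Z₂]
      exact ⟨fun h => ⟨ha', Or.inl h⟩, fun h => h.2.resolve_right fun h' => h' ha⟩
  · have hm2 := fun h => hm ((mc_iff D E).mpr h)
    rw [WZ_not ψ hm, WZ_not ψ₂ hm2, mul_zero]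

/-! ## With an arrow inserted -/

omit D E in
theorem mc_erase (h : MC Q F ω S) (ha : a ∈ S) : MC Q F ω (S \ {a, mate Q F ω a}) := by
  refine ⟨Finset.sdiff_subset.trans h.1, fun b hb => ?_⟩
  obtain ⟨h1, h2⟩ := Finset.mem_sdiff.mp hb
  rw [Finset.mem_insert, Finset.mem_singleton, not_or] at h2
  refine Finset.mem_sdiff.mpr ⟨h.2 b h1, ?_⟩
  rw [Finset.mem_insert, Finset.mem_singleton, not_or]
  constructor
  · intro h3
    exact h2.2 (by rw [← h3, mate_mate (h.1 h1)])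
  · intro h3
    exact h2.1 (by rw [← mate_mate (ω := ω) (h.1 h1), h3, mate_mate (h.1 ha)])

omit D E in
theorem erase_aP (h : MC Q F ω S) (ha : a ∈ S) :
    ∏ p ∈ (arcsZ Q F S ω).erase s(a, mate Q F ω a), wB Q F ω ψ p =
      aP Q F ω ψ (S \ {a, mate Q F ω a}) := by
  unfold aP wB
  refine Finset.prod_congr ?_ fun _ _ => rfl
  ext p
  rw [Finset.mem_erase, mem_arcsZ, Finset.mem_image]
  constructor
  · rintro ⟨h1, b, hb, rfl⟩
    refine ⟨b, Finset.mem_sdiff.mpr ⟨hb, ?_⟩, rfl⟩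
    rw [Finset.mem_insert, Finset.mem_singleton, not_or]
    constructor
    · rintro rfl
      exact h1 rfl
    · rintro rfl
      exact h1 (by rw [mate_mate (h.1 ha), Sym2.eq_swap])
  · rintro ⟨b, hb, rfl⟩
    obtain ⟨h1, h2⟩ := Finset.mem_sdiff.mp hb
    rw [Finset.mem_insert, Finset.mem_singleton, not_or] at h2
    refine ⟨?_, b, h1, rfl⟩
    rw [Ne, Sym2.eq_iff]
    rintro (⟨h3, -⟩ | ⟨h3, -⟩)
    · exact h2.1 h3
    · exact h2.2 h3

theorem wz1_arc (hQ : NoLoop Q) (hm : ∀ a ∈ Z, mate Q F ω a ∈ Z) (he : e ∈ dE Q K₀) (ha : a ∈ Z)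
    (hea : e ∈ dst Q F ω a) : WZ1 Q F ψ Z e ω =
      WZ1 Q F₁ ψ₁ (bS Q F₁) e ω * WZ Q (F \ F₁) ψ₂ (Z₂ Q F F₁ Z) ω := by
  have haF := D.ZF ha
  have hm2 := (mc_iff D E).mp hm
  have hm1 : ∀ a ∈ bS Q F₁, mate Q F₁ ω a ∈ bS Q F₁ := fun a ha => mate_mem ha
  obtain ⟨f, hf, hv⟩ := vis_of_dE haF hea (D.K0.trans D.sub) he
  have hvP := E.C0.conf hf hv
  obtain ⟨h1, h2, h3⟩ := conf_mate E.C0.subF haF hvP
  have hoff := off_core E.C0 he
  have heF : e ∈ dE Q F₁ := dE_sub' D.K0 he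
  have hd := dst_of_off D.sub (Finset.Subset.refl _) hoff heF
  have hae : a ∈ dst Q F ω e := mem_dst.mpr ⟨(mem_bS.mp haF).1, EqvGen.symm _ _ (mem_dst.mp hea).2⟩
  rw [hd] at hae
  have hea1 : e ∈ dst Q F₁ ω a := mem_dst.mpr ⟨heF, EqvGen.symm _ _ (mem_dst.mp hae).2⟩
  have hmF := mate_mem (ω := ω) haF
  have hmE : mate Q F ω a ∈ dE Q F₁ := by
    rw [← h2]
    exact (mem_bS.mp (mate_mem h1)).1
  have e1 : agl Q F₁ ω ψ₁ (dst Q F₁ ω a) = agl Q F ω ψ (dst Q F ω a) := by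
    rw [agl_arc h1, agl_arc haF, h2, h3, D.ps1 a haF (mem_bS.mp h1).1, D.ps1 _ hmF hmE]
  rw [WZ1_arc hQ D.ZF hm ha hea, WZ1_arc hQ (Finset.Subset.refl _) hm1 h1 hea1,
    erase_aP ⟨D.ZF, hm⟩ ha, erase_aP ⟨Finset.Subset.refl _, hm1⟩ h1, WZ_aP hm2, e1]
  have key := aP2 D E (S := Z \ {a, mate Q F ω a}) (S₁ := bS Q F₁ \ {a, mate Q F₁ ω a})
    (S₂ := Z₂ Q F F₁ Z) (mc_erase ⟨D.ZF, hm⟩ ha) Finset.sdiff_subset
    (mc_erase ⟨Finset.Subset.refl _, hm1⟩ h1) ⟨Z₂_sub, hm2⟩ (Finset.Subset.refl _) ?_ ?_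
  · rw [key]
    ring
  · intro b hb hb1 _
    rw [Finset.mem_sdiff, Finset.mem_sdiff, h2]
    exact and_congr_left fun _ => iff_of_true (D.Z1 b hb (mem_bS.mp hb1).1) hb1
  · rintro b hb hb2 ⟨g, hg, hvg⟩
    rw [Finset.mem_sdiff, mem_Z₂]
    constructor
    · rintro ⟨h4, -⟩
      exact ⟨hb2, Or.inl h4⟩
    · rintro ⟨-, h4⟩
      refine ⟨h4.resolve_right fun h => h hb, ?_⟩
      -- `b` visits `K₁`, `a` stays in `F₁`
      have hgK : ∀ c, Vis Q ω (F : Set Φ) c = Vis Q ω (F : Set Φ) a → b ≠ c := by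
        rintro c hc rfl
        rw [hc] at hvg
        have h5 : g ∈ (F₁ : Set Φ) := hvP hvg
        exact (Finset.mem_sdiff.mp (D.K1 hg)).2 (by exact_mod_cast h5)
      rw [Finset.mem_insert, Finset.mem_singleton, not_or]
      exact ⟨hgK a rfl, hgK _ (vis_mate haF)⟩

/-- **Splitting of `WZ1`**, the arrow on a side of the core of the first piece. -/
theorem wz1_split (hQ : NoLoop Q) (he : e ∈ dE Q K₀) : WZ1 Q F ψ Z e ω =
      WZ1 Q F₁ ψ₁ (bS Q F₁) e ω * WZ Q (F \ F₁) ψ₂ (Z₂ Q F F₁ Z) ω := by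
  by_cases hm : ∀ a ∈ Z, mate Q F ω a ∈ Z
  · have hoff := off_core E.C0 he
    have heF1 : e ∈ dE Q F₁ := dE_sub' D.K0 he
    have heF : e ∈ dE Q F := dE_sub' D.sub heF1
    by_cases ht : touch Z (dst Q F ω e)
    · obtain ⟨a, ha, haZ⟩ := touch_iff.mp ht
      have hs := (mem_dst.mp ha).2
      rcases haZ with haZ | haZ
      · exact wz1_arc D E hQ hm he haZ (mem_dst.mpr ⟨heF, EqvGen.symm _ _ hs⟩)
      · have h1 := wz1_arc D E hQ hm (swap_mem_dE.mpr he) haZ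
          (mem_dst.mpr ⟨swap_mem_dE.mpr heF, srel_swap (EqvGen.symm _ _ hs)⟩)
        rw [WZ1_swap, WZ1_swap, neg_mul] at h1
        exact neg_injective h1
    · have hd := dst_of_off D.sub (Finset.Subset.refl _) hoff heF1
      have ht1 : ¬ touch (bS Q F₁) (dst Q F₁ ω e) := by
        intro h
        obtain ⟨b, hb, hbZ⟩ := touch_iff.mp h
        refine ht (touch_iff.mpr ⟨b, hd ▸ hb, ?_⟩)
        have key : ∀ c, c ∈ bS Q F₁ → c ∉ dE Q (F \ F₁) → c ∈ Z := by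
          intro c hc hcR
          obtain ⟨h1, h2⟩ := mem_bS.mp hc
          exact D.Z1 c (mem_bS.mpr ⟨dE_sub' D.sub h1,
            (ini_of_off D.sub (Finset.Subset.refl _) hcR).mpr h2⟩) h1
        have hbR := hoff b hb
        rcases hbZ with h1 | h1
        · exact Or.inl (key b h1 hbR)
        · exact Or.inr (key _ h1 fun h2 => hbR (swap_mem_dE.mp h2))
      have hX : tX Q F ω (dst Q F ω e) = tX Q F₁ ω (dst Q F₁ ω e) := by
        rw [hd]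
        exact tX_of_off D.sub (Finset.Subset.refl _) hoff
      rw [WZ1_free hQ D.ZF heF ht, WZ1_free hQ (Finset.Subset.refl _) heF1 ht1, wz_split D E, hX]
      ring
  · have hm2 := fun h => hm ((mc_iff D E).mpr h)
    rw [WZ1_not hm, WZ_not ψ₂ hm2, mul_zero]

end

end Pool.Agent.SixB.Spl
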