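import Pool.Agent.Lib.SixB.S3LowC

/-!
# 6BD step 3, R13: LOWER(E) for the environment of a slab, final form

* `mdC`: the D-mouths as cells; `exists_mth`: the event that they are blocked.
* `low_env`: LOWER(E).
-/

set_option autoImplicit false
set_option linter.unusedSectionVars false

namespace Pool.Agent.SixB.LowP

open Pool.Agent.Perc.Q Pool.Agent.Perc
open Pool.Agent.SixB hiding Zs_split
open Pool.Agent.SixB.MthD (em)
open Pool.Agent.SixB.LwD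

noncomputable section

variable {S : Slb} {W : Finset (ℤ × ℤ)} {r ρ R l₀ l : ℕ}

/-- the D-mouths as cells -/
def mdC (h : S.Ok) (hW : MthD.Win S W) (q : Rad S ρ R l₀ l) (h1 : R ≤ 8 * (R - ρ)) (h2 : 0 < l₀)
    (h3 : 2 * S.a ≤ l - l₀) (s : Bool) :
    MCell (S.env W 0 0).Q (S.env W 0 0).F (ColP.dcol Prod.snd) where
  lf := s
  w := LwD.dv S s
  R' := R + 1
  h := S.a
  l' := l + 1
  c := LwD.mD h hW q s
  ρ := ρ
  R := R
  l₀ := l₀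
  l := l
  cc := 0
  h1 := q.a2
  h2 := Nat.le_succ R
  h3 := h1
  h4 := h.ha
  h5 := (Nat.le_succ _).trans q.a1
  h6 := h2
  h7 := q.l1
  h8 := Nat.le_succ l
  h9 := h3
  hD := fun f _ => by
    rw [LwD.mD_face]
    rfl

theorem mdC_cell (h : S.Ok) (hW : MthD.Win S W) (q : Rad S ρ R l₀ l) (h1 : R ≤ 8 * (R - ρ)) (h2 : 0 < l₀)
    (h3 : 2 * S.a ≤ l - l₀) (s : Bool) : (mdC h hW q h1 h2 h3 s).cell = LwD.Pd S R l s := by
  unfold MCell.cell mim LwD.Pd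
  refine Finset.image_congr fun f _ => ?_
  exact LwD.mD_face h hW q s f

theorem mdC_core (h : S.Ok) (hW : MthD.Win S W) (q : Rad S ρ R l₀ l) (h1 : R ≤ 8 * (R - ρ)) (h2 : 0 < l₀)
    (h3 : 2 * S.a ≤ l - l₀) (s : Bool) : (mdC h hW q h1 h2 h3 s).core = LwD.Kd S ρ l₀ s := by
  unfold MCell.core mim LwD.Kd
  refine Finset.image_congr fun f _ => ?_
  exact LwD.mD_face h hW q s f

theorem Pd_off (h : S.Ok) (hK : BlkW.Kap (S.env W 0 0) r) (q : Rad S ρ R l₀ l) {s : Bool}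
    {x : Option Bool × (ℤ × ℤ)} (hx : x ∈ LwD.Pd S R l s) (hx' : x ∈ BlkW.Spb (S.env W 0 0) r) : False := by
  obtain ⟨-, ⟨b, j⟩, hj⟩ := hx'
  have h1 := hK.ar
  have h2 := hK.rk
  have h3 := hK.Hc_ge j
  have h4 := (LwD.mem_Pd.mp hx).1
  have h5 := q.a3
  have h6 := h.hak
  have e1 : (S.env W 0 0).gu.k = S.k := rfl
  have e2 : (S.env W 0 0).gu.yc = S.yc := rfl
  rw [e1] at h2 h3
  have e4 : ((S.env W 0 0).gu.a : ℤ) = S.a := rfl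
  have h7 : S.yc - R ≤ x.2.2 ∧ x.2.2 < S.yc + R := by
    have h8 : (S.a : ℤ) + 1 ≤ R := by
      have := q.a1
      have := q.a2
      omega
    cases s
    · rw [LwD.mem_mth_f] at h4
      omega
    · rw [LwD.mem_mth_t] at h4
      omega
  rw [CM.mem_Bx] at hj
  cases b
  · rw [hK.vt_false, e2] at hj
    simp only at hj
    omega
  · rw [BlkW.vt_true, e2] at hj
    simp only at hj
    omega

open Classical in
/-- **The D-mouths are not crossed with positive probability.** -/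
theorem exists_mth : ∃ x₀ : ℝ, 0 < x₀ ∧ ∀ (S : Slb) (h : S.Ok) (W : Finset (ℤ × ℤ)) (r ρ R l₀ l : ℕ)
    (hW : BlkW.OWin S r W), BlkW.Kap (S.env W 0 0) r → Rad S ρ R l₀ l → R ≤ 8 * (R - ρ) → 0 < l₀ →
      2 * S.a ≤ l - l₀ → ∀ {nS' nN' : ℕ} {t₁ : ℝ} {CO}
      (A : PAtlas (S.env W 0 0).Q (S.env W 0 0).F (S.ph W 0 0) (S.env W 0 0).Z CO r nS' nN' t₁),
      (∀ i, ∀ x ∈ (A.ch i).box r, x ∈ BlkW.Spb (S.env W 0 0) r) →
      ∃ x : (Option Bool × (ℤ × ℤ) → Bool) → Prop, Ext A (ColP.dcol Prod.snd) x ∧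
        x₀ ≤ av (S.env W 0 0).F (fun ω => if x ω then (1 : ℝ) else 0) ∧
          ∀ ω, x ω → MthX S W ρ R l₀ l ω := by
  obtain ⟨x₀, hx₀, H⟩ := two_mouths
  refine ⟨x₀, hx₀, ?_⟩
  intro S h W r ρ R l₀ l hW hK q h1 h2 h3 nS' nN' t₁ CO A hA
  have hd : ∀ s i, Disjoint (mdC h (hW.win h) q h1 h2 h3 s).cell ((A.ch i).box r) := by
    intro s i
    rw [mdC_cell]
    exact Finset.disjoint_left.mpr fun f hf hf' => Pd_off h hK q hf (hA i f hf')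
  obtain ⟨k1, k2⟩ := H A (ColP.dcol Prod.snd) (mdC h (hW.win h) q h1 h2 h3 true)
    (mdC h (hW.win h) q h1 h2 h3 false) (hd true) (hd false)
  refine ⟨_, k1, by convert k2, ?_⟩
  rintro ω ⟨k3, k4⟩ s
  rw [← mdC_core h (hW.win h) q h1 h2 h3 s, ← mdC_cell h (hW.win h) q h1 h2 h3 s]
  cases s
  · exact MCell.xc k4
  · exact MCell.xc k3

open Classical in
/-- **LOWER(E) for the environment of a slab.** -/
theorem low_env (nS nN N : ℕ) (t₀ cD : ℝ) (h0 : 0 < t₀) (h1 : t₀ ≤ 1) (hcD : 0 < cD) :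
    ∃ c : ℝ, 0 < c ∧ ∃ M : ℕ, 0 < M ∧ ∀ (S : Slb) (h : S.Ok) (W : Finset (ℤ × ℤ)) (r : ℕ)
      (hW : BlkW.OWin S r W), 2 * (S.a + 1) ≤ r → 64 * r ≤ S.k → M * S.a ≤ S.k →
      38 * BlkW.Ln (S.env W 0 0) r + 10 ≤ N →
      ∀ {ZD CD : Finset ((ℤ × ℤ) × (ℤ × ℤ))} (AD : PAtlas ZQ S.D S.ψ ZD CD r nS nN t₀), AD.Flat →
      bS ZQ S.D ⊆ CD →
      (∀ i, ¬ nearS S.x1 S.x2 (S.yc - S.a) (S.yc + S.a) (8 * r) (AD.v i)) →
      (∀ f ∈ S.D, S.yc - S.k ≤ f.2 → f.2 < S.yc + S.k →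
        ¬ (S.x1 - (8 * r + 2) ≤ f.1 ∧ f.1 < S.x1) ∧ ¬ (S.x2 ≤ f.1 ∧ f.1 < S.x2 + (8 * r + 2))) →
      (∀ ω, Gd.good (S.geo 0) ω → 0 ≤ WZ (S.env W 0 0).Q (S.env W 0 0).F (S.ph W 0 0) (S.env W 0 0).Z ω) →
      (∀ τ, 0 ≤ WZ ZQ S.D S.ψ (bS ZQ S.D) τ) →
      cD * FP r (St.pvts AD) ≤ av S.D (fun τ => WZ ZQ S.D S.ψ (bS ZQ S.D) τ *
        if RgD S (S.k / 16) (4 * (S.k / 16)) τ then 1 else 0) →
      c * ((∏ i : Bool × Fin 14, sF (.ver (BlkW.Jt S.mu S.ml i)) (BlkW.mt i) r) * FP r (St.pvts AD)) ≤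
        av (S.env W 0 0).F (WZ (S.env W 0 0).Q (S.env W 0 0).F (S.ph W 0 0) (S.env W 0 0).Z) := by
  obtain ⟨x₀, hx₀, hm⟩ := exists_mth
  obtain ⟨c, hc, M, hM, H⟩ := low_env0 nS nN N t₀ x₀ cD h0 h1 hx₀ hcD
  refine ⟨c, hc, M, hM, ?_⟩
  intro S h W r hW k1 k2 k3 k4 ZD CD AD hF hCD hcen hth hpos hpD hLD
  have ha := h.ha
  have q : Rad S (S.k / 16) (4 * (S.k / 16)) ((S.k - 1) / 2 + 1) (S.k - 1) :=
    ⟨by omega, by omega, by omega, by omega, by omega⟩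
  refine H S h W r hW _ _ _ _ q le_rfl k1 k2 k3 k4 AD hF hCD hcen hth hpos hpD hLD ?_
  intro nS' nN' t₁ CO A hA
  exact hm S h W r _ _ _ _ hW (BlkW.kap_of h hW k1 k2) q (by omega) (by omega) (by omega) A hA

end

end Pool.Agent.SixB.LowP
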