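import Pool.Agent.Lib.SixB.S3MthD

/-!
# 6BD step 3, row R10: the polygon next to the slab (2): partial atlases

* `PA_mth`: one mouth chart as a `PA`; `paR`, `paL`: the two D-mouths; `segR`, `segL`: natural segments.
* `paD`: all charts next to the slab: covers `dC S r` (walls within `4 r` of the slab, the halves of the tubes).
* `near_side`: the boundary sides of `D` near the slab; `pocket_side`: the boundary sides of the pockets;
  `near_cov`: an island side of a pocket within `3 r + 1` of the slab is in `dC S r`.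
-/

set_option autoImplicit false
set_option linter.unusedSectionVars false
set_option linter.unusedVariables false

namespace Pool.Agent.SixB.MthD

open Pool.Agent.Perc.Q Pool.Agent.Perc Pool.Agent.SixB
open Pool.Agent.SixB.EnvB (Thk nb upM loM)

noncomputable section

variable {S : Slb} {W : Finset (ℤ × ℤ)} {R l : ℕ} {f v : ℤ × ℤ} {x y : ℤ}

/-! ## Partial atlases -/

section pa

variable {V Φ : Type} [DecidableEq V] [DecidableEq Φ] {Q : QC V Φ} {F : Finset Φ} {ψ : V × V → ℝ}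
  {Z C C' : Finset (V × V)} {r nN nN' : ℕ} {t₀ : ℝ} {N2 : Set Φ} {left : Bool} {w : ℤ × ℤ} {a₀ : ℕ}

/-- one mouth chart as a partial atlas -/
theorem PA_mth (c : MChart Q F left w (2 * r + 1) a₀ (l + 1)) (hh : 0 < a₀ ∧ 2 * (a₀ + 1) ≤ r ∧ 8 * a₀ ≤ l)
    (hn : c.Nat ψ 0 ∨ c.Nat ψ (Real.pi / 3))
    (hZ : ∀ j, (mthWall left w (2 * r) a₀ l j).image c.side ⊆ Z)
    (h2 : ∀ f ∈ Mth left w (2 * r) a₀ l, c.φF f ∈ N2) :
    PA Q F ψ Z (Finset.univ.biUnion fun j => (mthWall left w (r + a₀ + 1) a₀ (l / 2 + 1) j).image c.side)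
      r 0 1 t₀ ∅ ∅ N2 :=
  ⟨{  κ := Empty
      K := fun i => i.elim
      m := fun i => i.elim
      o := fun i => i.elim
      v := fun i => i.elim
      ch := fun i => i.elim
      m_rng := fun i => i.elim
      jmp := fun i => i.elim
      tpos := fun i => i.elim
      disj := fun i => i.elim
      cardS := by simp
      chZ := fun i => i.elim
      ι := Empty
      m' := fun i => i.elim
      o' := fun i => i.elim
      v' := fun i => i.elim
      nch := fun i => i.elim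
      m'_rng := fun i => i.elim
      njmp := fun i => i.elim
      nZ := fun i => i.elim
      ndisj := fun i => i.elim
      cardN := by simp
      μ := Unit
      lf := fun _ => left
      w := fun _ => w
      h := fun _ => a₀
      l := fun _ => l
      mch := fun _ => c
      h_lt := fun _ => hh
      mnat := fun _ => hn
      mZ := fun _ j => hZ j
      mdisj := fun _ j => j.elim
      cardM := by simp
      cover := fun a ha => by
        obtain ⟨j, -, hj⟩ := Finset.mem_biUnion.mp ha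
        obtain ⟨s, hs, rfl⟩ := Finset.mem_image.mp hj
        exact Or.inr (Or.inr ⟨(), j, s, hs, rfl⟩) }, fun i => i.elim, fun i => i.elim,
      fun i => i.elim, fun _ f hf => by
        obtain ⟨g, hg, rfl⟩ := Finset.mem_image.mp hf
        exact h2 g hg⟩

theorem PA_union0 (h : PA Q F ψ Z C r 0 nN t₀ ∅ ∅ N2) (h' : PA Q F ψ Z C' r 0 nN' t₀ ∅ ∅ N2) :
    PA Q F ψ Z (C ∪ C') r 0 (nN + nN') t₀ ∅ ∅ N2 :=
  (h.union h' (Set.disjoint_empty _) (Set.disjoint_empty _) (Set.disjoint_empty _)).mono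
    (Finset.Subset.refl _) (by omega) le_rfl (by simp) (by simp) (by simp)

end pa

variable {r : ℕ} {t₀ : ℝ}

/-- the faces of the charts next to the slab -/
def N2 (S : Slb) (r : ℕ) : Set (Option Bool × (ℤ × ℤ)) :=
  {x | (x.1 ≠ none → S.x1 ≤ x.2.1 ∧ x.2.1 < S.x2) ∧ S.yc - S.a - (5 * r + 1) ≤ x.2.2 ∧
    x.2.2 ≤ S.yc + S.a + (5 * r + 1)}

theorem sh_N2 (hf : Reg S f) (h : S.Ok) (hW : Win S W) (h1 : S.yc - S.a - (5 * r + 1) ≤ f.2)
    (h2 : f.2 ≤ S.yc + S.a + (5 * r + 1)) : (sh S f, f) ∈ N2 S r := by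
  refine ⟨fun hn => ?_, h1, h2⟩
  rcases reg_cases h hW hf with h3 | h3 | h3
  · exact ⟨h3.2.2.1, h3.2.2.2.1⟩
  · exact ⟨h3.2.2.1, h3.2.2.2.1⟩
  · exact absurd h3.1 hn

theorem mR_Z (h : S.Ok) (hW : Win S W) (hR : R ≤ S.k) (hl : l ≤ S.k) (j : Fin 4) :
    (mthWall true (S.x2, S.yc) R S.a l j).image (sd2 S) ⊆ (S.env W 0 0).Z := by
  intro a ha
  obtain ⟨s, hs, rfl⟩ := Finset.mem_image.mp ha
  exact (wallR h hW hR hl j hs).1

theorem mL_Z (h : S.Ok) (hW : Win S W) (hR : R ≤ S.k) (hl : l ≤ S.k) (j : Fin 4) :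
    (mthWall false (S.x1, S.yc) R S.a l j).image (sd2 S) ⊆ (S.env W 0 0).Z := by
  intro a ha
  obtain ⟨s, hs, rfl⟩ := Finset.mem_image.mp ha
  exact (wallL h hW hR hl j hs).1

/-- the right mouth as a partial atlas -/
theorem paR (h : S.Ok) (hW : Win S W) (h1 : 2 * (S.a + 1) ≤ r) (h2 : 64 * r ≤ S.k) :
    PA (S.env W 0 0).Q (S.env W 0 0).F (S.ph W 0 0) (S.env W 0 0).Z
      (Finset.univ.biUnion fun j =>
        (mthWall true (S.x2, S.yc) (r + S.a + 1) S.a ((S.k - 1) / 2 + 1) j).image (sd2 S))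
      r 0 1 t₀ ∅ ∅ (N2 S r) := by
  have ha := h.ha
  have hak := h.hak
  refine PA_mth (l := S.k - 1) (mR h hW (R := 2 * r + 1) (l := S.k - 1 + 1) (by omega) (by omega))
    ⟨ha, h1, by omega⟩ (Or.inl (mR_nat h hW _ _)) (fun j => mR_Z h hW (by omega) (by omega) j) ?_
  intro f hf
  have hreg := regR h (R := 2 * r) (l := S.k - 1) (by omega) (by omega) f hf
  rw [mem_Mth_left] at hf
  simp only at hf
  exact sh_N2 hreg h hW (by omega) (by omega)

/-- the left mouth as a partial atlas -/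
theorem paL (h : S.Ok) (hW : Win S W) (h1 : 2 * (S.a + 1) ≤ r) (h2 : 64 * r ≤ S.k) :
    PA (S.env W 0 0).Q (S.env W 0 0).F (S.ph W 0 0) (S.env W 0 0).Z
      (Finset.univ.biUnion fun j =>
        (mthWall false (S.x1, S.yc) (r + S.a + 1) S.a ((S.k - 1) / 2 + 1) j).image (sd2 S))
      r 0 1 t₀ ∅ ∅ (N2 S r) := by
  have ha := h.ha
  have hak := h.hak
  refine PA_mth (l := S.k - 1) (mL h hW (R := 2 * r + 1) (l := S.k - 1 + 1) (by omega) (by omega))
    ⟨ha, h1, by omega⟩ (Or.inl (mL_nat h hW _ _)) (fun j => mL_Z h hW (by omega) (by omega) j) ?_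
  intro f hf
  have hreg := regL h (R := 2 * r) (l := S.k - 1) (by omega) (by omega) f hf
  rw [mem_Mth_right] at hf
  simp only at hf
  exact sh_N2 hreg h hW (by omega) (by omega)

theorem lside1 (x u : ℤ) : lside 1 ((x, 0) : ℤ × ℤ) u = sd ZQ (x - 1, u) 1 := by
  unfold lside
  rw [sdz1, dz1]
  refine Prod.ext (Prod.ext ?_ ?_) (Prod.ext ?_ ?_) <;> simp

theorem lside3 (x u : ℤ) : lside 3 ((x, 0) : ℤ × ℤ) u = sd ZQ (x, -u - 1) 3 := by
  unfold lside
  rw [sdz3, dz3]
  refine Prod.ext (Prod.ext ?_ ?_) (Prod.ext ?_ ?_) <;> simp; ring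

/-- natural segment at the right wall, centres in `[lo, hi]` -/
theorem segR (h : S.Ok) (hW : Win S W) (hr : 0 < r) (h2 : 64 * r ≤ S.k) {lo hi : ℤ} (hlh : lo ≤ hi)
    (hrow : ∀ y, lo ≤ y → y ≤ hi → Rows S y (2 * r + 1)) (hd : hi - lo < 2 * r)
    (hN : S.yc - S.a - (3 * r + 1) ≤ lo ∧ hi ≤ S.yc + S.a + (3 * r + 1)) :
    PA (S.env W 0 0).Q (S.env W 0 0).F (S.ph W 0 0) (S.env W 0 0).Z
      ((Finset.Ico (lo - r) (hi + r)).image fun y => (em h hW).side (sd ZQ (S.x2 - 1, y) 1))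
      r 0 2 t₀ ∅ ∅ (N2 S r) := by
  have hv : ∀ t : ℤ, (((S.x2, 0) : ℤ × ℤ) + t • dz 1).1 = S.x2 ∧
      (((S.x2, 0) : ℤ × ℤ) + t • dz 1).2 = t := by
    intro t
    rw [dz1]
    constructor <;> simp
  have hR : 2 * r + 1 ≤ S.k := by omega
  have key := PA.segment (Q := (S.env W 0 0).Q) (F := (S.env W 0 0).F) (ψ := S.ph W 0 0)
    (Z := (S.env W 0 0).Z) (t₀ := t₀) (N2 := N2 S r) hr (o := 1) (p := (S.x2, 0)) hlh (sd2 S)
    (fun t a1 a2 => flR h hW hR (hv t).1 (by rw [(hv t).2]; exact hrow t a1 a2))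
    (fun t a1 a2 u a3 a4 => rfl) (fun t a1 a2 => Or.inl (flR_jump h hW hR _ _))
    (fun t a1 a2 => flR_Z h hW hR _ _ (by omega)) (fun t a1 a2 f hf => by
      unfold WChart.box at hf
      obtain ⟨g, hg, rfl⟩ := Finset.mem_image.mp hf
      have hreg := flR_reg h hR (hv t).1 (by rw [(hv t).2]; exact hrow t a1 a2) g
        (Wdg_mono (by omega) hg)
      rw [mem_w21, (hv t).2] at hg
      exact sh_N2 hreg h hW (by push_cast at hg; omega) (by push_cast at hg; omega))
  have e : (hi - lo).toNat / (2 * r) + 2 = 2 := by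
    rw [Nat.div_eq_of_lt (by omega)]
  rw [e] at key
  refine key.mono ?_ le_rfl le_rfl (Set.Subset.refl _) (Set.Subset.refl _) (Set.Subset.refl _)
  intro a ha
  obtain ⟨y, hy, rfl⟩ := Finset.mem_image.mp ha
  rw [Finset.mem_image]
  refine ⟨y, hy, ?_⟩
  rw [Finset.mem_Ico] at hy
  have hak := h.hak
  rw [lside1, right_sd2 h hW (by omega) (by omega)]

/-- natural segment at the left wall, centres in `[lo, hi]` -/
theorem segL (h : S.Ok) (hW : Win S W) (hr : 0 < r) (h2 : 64 * r ≤ S.k) {lo hi : ℤ} (hlh : lo ≤ hi)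
    (hrow : ∀ y, lo ≤ y → y ≤ hi → Rows S y (2 * r + 1)) (hd : hi - lo < 2 * r)
    (hN : S.yc - S.a - (3 * r + 1) ≤ lo ∧ hi ≤ S.yc + S.a + (3 * r + 1)) :
    PA (S.env W 0 0).Q (S.env W 0 0).F (S.ph W 0 0) (S.env W 0 0).Z
      ((Finset.Ico (lo - r) (hi + r)).image fun y => (em h hW).side (sd ZQ (S.x1, y) 3))
      r 0 2 t₀ ∅ ∅ (N2 S r) := by
  have hv : ∀ t : ℤ, (((S.x1, 0) : ℤ × ℤ) + t • dz 3).1 = S.x1 ∧
      (((S.x1, 0) : ℤ × ℤ) + t • dz 3).2 = -t := by
    intro t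
    rw [dz3]
    constructor <;> simp
  have hR : 2 * r + 1 ≤ S.k := by omega
  have key := PA.segment (Q := (S.env W 0 0).Q) (F := (S.env W 0 0).F) (ψ := S.ph W 0 0)
    (Z := (S.env W 0 0).Z) (t₀ := t₀) (N2 := N2 S r) hr (o := 3) (p := (S.x1, 0)) (lo := -hi)
    (hi := -lo) (by omega) (sd2 S)
    (fun t a1 a2 => flL h hW hR (hv t).1 (by rw [(hv t).2]; exact hrow _ (by omega) (by omega)))
    (fun t a1 a2 u a3 a4 => rfl) (fun t a1 a2 => Or.inl (flL_jump h hW hR _ _))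
    (fun t a1 a2 => flL_Z h hW hR _ _ (by omega)) (fun t a1 a2 f hf => by
      unfold WChart.box at hf
      obtain ⟨g, hg, rfl⟩ := Finset.mem_image.mp hf
      have hreg := flL_reg h hR (hv t).1 (by rw [(hv t).2]; exact hrow _ (by omega) (by omega)) g
        (Wdg_mono (by omega) hg)
      rw [mem_w23, (hv t).2] at hg
      exact sh_N2 hreg h hW (by push_cast at hg; omega) (by push_cast at hg; omega))
  have e : (-lo - -hi).toNat / (2 * r) + 2 = 2 := by
    rw [Nat.div_eq_of_lt (by omega)]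
  rw [e] at key
  refine key.mono ?_ le_rfl le_rfl (Set.Subset.refl _) (Set.Subset.refl _) (Set.Subset.refl _)
  intro a ha
  obtain ⟨y, hy, rfl⟩ := Finset.mem_image.mp ha
  rw [Finset.mem_image]
  rw [Finset.mem_Ico] at hy
  refine ⟨-y - 1, Finset.mem_Ico.mpr ⟨by omega, by omega⟩, ?_⟩
  have hak := h.hak
  rw [lside3, show - (-y - 1) - 1 = y by ring, left_sd2 h hW (by omega) (by omega)]

/-! ## All charts next to the slab -/

/-- the rows within `4 r` of the slab, off the slab -/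
def rws (S : Slb) (r : ℕ) : Finset ℤ :=
  Finset.Ico (S.yc - S.a - 4 * r) (S.yc - S.a) ∪ Finset.Ico (S.yc + S.a) (S.yc + S.a + 4 * r)

/-- the columns of the halves of the tubes next to the polygon -/
def cls (S : Slb) : Finset ℤ :=
  Finset.Ico (S.x1 - ((S.k - 1) / 2 + 1 : ℕ)) S.x1 ∪ Finset.Ico S.x2 (S.x2 + ((S.k - 1) / 2 + 1 : ℕ))

/-- the sides covered by the charts next to the slab -/
def dC (h : S.Ok) (hW : Win S W) (r : ℕ) : Finset ((Option Bool × (ℤ × ℤ)) × (Option Bool × (ℤ × ℤ))) :=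
  ((rws S r).image fun y => (em h hW).side (sd ZQ (S.x2 - 1, y) 1)) ∪
    (((rws S r).image fun y => (em h hW).side (sd ZQ (S.x1, y) 3)) ∪
      (((cls S).image fun x => sd (S.env W 0 0).Q (none, (x, S.yc - S.a)) 0) ∪
        ((cls S).image fun x => sd (S.env W 0 0).Q (none, (x, S.yc + S.a - 1)) 2)))

theorem cov_R (h : S.Ok) (hW : Win S W) {r : ℕ} (h2 : 64 * r ≤ S.k)
    (hy : (S.yc - S.a - r - 1 ≤ y ∧ y < S.yc - S.a) ∨ (S.yc + S.a ≤ y ∧ y < S.yc + S.a + r + 1)) :
    (em h hW).side (sd ZQ (S.x2 - 1, y) 1) ∈ Finset.univ.biUnion fun j =>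
      (mthWall true (S.x2, S.yc) (r + S.a + 1) S.a ((S.k - 1) / 2 + 1) j).image (sd2 S) := by
  have hak := h.hak
  have ha := h.ha
  rw [Finset.mem_biUnion]
  rcases hy with hy | hy
  · refine ⟨0, Finset.mem_univ _, Finset.mem_image.mpr ⟨sd ZQ (S.x2 - 1, y) 1, ?_,
      right_sd2 h hW (by omega) (by omega)⟩⟩
    unfold mthWall
    rw [if_pos rfl]
    exact mem_wOut1.mpr ⟨y, by simp only; omega, by simp only; omega, rfl⟩
  · refine ⟨3, Finset.mem_univ _, Finset.mem_image.mpr ⟨sd ZQ (S.x2 - 1, y) 1, ?_,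
      right_sd2 h hW (by omega) (by omega)⟩⟩
    unfold mthWall
    rw [if_pos rfl]
    exact mem_wOut1.mpr ⟨y, by simp only; omega, by simp only; omega, rfl⟩

theorem cov_L (h : S.Ok) (hW : Win S W) {r : ℕ} (h2 : 64 * r ≤ S.k)
    (hy : (S.yc - S.a - r - 1 ≤ y ∧ y < S.yc - S.a) ∨ (S.yc + S.a ≤ y ∧ y < S.yc + S.a + r + 1)) :
    (em h hW).side (sd ZQ (S.x1, y) 3) ∈ Finset.univ.biUnion fun j =>
      (mthWall false (S.x1, S.yc) (r + S.a + 1) S.a ((S.k - 1) / 2 + 1) j).image (sd2 S) := by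
  have hak := h.hak
  have ha := h.ha
  rw [Finset.mem_biUnion]
  rcases hy with hy | hy
  · refine ⟨3, Finset.mem_univ _, Finset.mem_image.mpr ⟨sd ZQ (S.x1, y) 3, ?_,
      left_sd2 h hW (by omega) (by omega)⟩⟩
    unfold mthWall
    rw [if_neg (by decide)]
    exact mem_wOut3.mpr ⟨y, by simp only; omega, by simp only; omega, rfl⟩
  · refine ⟨0, Finset.mem_univ _, Finset.mem_image.mpr ⟨sd ZQ (S.x1, y) 3, ?_,
      left_sd2 h hW (by omega) (by omega)⟩⟩
    unfold mthWall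
    rw [if_neg (by decide)]
    exact mem_wOut3.mpr ⟨y, by simp only; omega, by simp only; omega, rfl⟩

theorem cov_tube (h : S.Ok) (hW : Win S W) {r : ℕ} (hx : x ∈ cls S) :
    (sd (S.env W 0 0).Q (none, (x, S.yc - S.a)) 0 ∈
      (Finset.univ.biUnion fun j =>
        (mthWall true (S.x2, S.yc) (r + S.a + 1) S.a ((S.k - 1) / 2 + 1) j).image (sd2 S)) ∪
      (Finset.univ.biUnion fun j =>
        (mthWall false (S.x1, S.yc) (r + S.a + 1) S.a ((S.k - 1) / 2 + 1) j).image (sd2 S))) ∧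
    (sd (S.env W 0 0).Q (none, (x, S.yc + S.a - 1)) 2 ∈
      (Finset.univ.biUnion fun j =>
        (mthWall true (S.x2, S.yc) (r + S.a + 1) S.a ((S.k - 1) / 2 + 1) j).image (sd2 S)) ∪
      (Finset.univ.biUnion fun j =>
        (mthWall false (S.x1, S.yc) (r + S.a + 1) S.a ((S.k - 1) / 2 + 1) j).image (sd2 S))) := by
  have hak := h.hak
  have ha := h.ha
  unfold cls at hx
  rw [Finset.mem_union, Finset.mem_Ico, Finset.mem_Ico] at hx
  have hc : Col S x := by
    unfold Col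
    omega
  rw [← bot_sd2 h hW hc, ← top_sd2 h hW hc]
  rcases hx with hx | hx
  · constructor
    · refine Finset.mem_union_right _ (Finset.mem_biUnion.mpr ⟨2, Finset.mem_univ _,
        Finset.mem_image_of_mem _ ?_⟩)
      unfold mthWall
      rw [if_neg (by decide)]
      exact mem_wOut0.mpr ⟨x, by simp only; omega, by simp only; omega, rfl⟩
    · refine Finset.mem_union_right _ (Finset.mem_biUnion.mpr ⟨1, Finset.mem_univ _,
        Finset.mem_image_of_mem _ ?_⟩)
      unfold mthWall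
      rw [if_neg (by decide)]
      exact mem_wOut2.mpr ⟨x, by simp only; omega, by simp only; omega, rfl⟩
  · constructor
    · refine Finset.mem_union_left _ (Finset.mem_biUnion.mpr ⟨1, Finset.mem_univ _,
        Finset.mem_image_of_mem _ ?_⟩)
      unfold mthWall
      rw [if_pos rfl]
      exact mem_wOut0.mpr ⟨x, by simp only; omega, by simp only; omega, rfl⟩
    · refine Finset.mem_union_left _ (Finset.mem_biUnion.mpr ⟨2, Finset.mem_univ _,
        Finset.mem_image_of_mem _ ?_⟩)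
      unfold mthWall
      rw [if_pos rfl]
      exact mem_wOut2.mpr ⟨x, by simp only; omega, by simp only; omega, rfl⟩

/-- **all charts next to the slab** -/
theorem paD (h : S.Ok) (hW : Win S W) (h1 : 2 * (S.a + 1) ≤ r) (h2 : 64 * r ≤ S.k) :
    PA (S.env W 0 0).Q (S.env W 0 0).F (S.ph W 0 0) (S.env W 0 0).Z (dC h hW r) r 0 10 t₀ ∅ ∅
      (N2 S r) := by
  have ha := h.ha
  have hak := h.hak
  have hr : 0 < r := by omega
  have a1 := paR (t₀ := t₀) h hW h1 h2
  have a2 := paL (t₀ := t₀) h hW h1 h2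
  have b1 := segR (t₀ := t₀) h hW hr h2 (lo := S.yc + S.a + (2 * r + 1)) (hi := S.yc + S.a + 3 * r)
    (by omega) (fun y c1 c2 => Or.inl ⟨by push_cast; omega, by push_cast; omega⟩) (by omega)
    ⟨by omega, by omega⟩
  have b2 := segR (t₀ := t₀) h hW hr h2 (lo := S.yc - S.a - 3 * r) (hi := S.yc - S.a - (2 * r + 1))
    (by omega) (fun y c1 c2 => Or.inr ⟨by push_cast; omega, by push_cast; omega⟩) (by omega)
    ⟨by omega, by omega⟩
  have b3 := segL (t₀ := t₀) h hW hr h2 (lo := S.yc + S.a + (2 * r + 1)) (hi := S.yc + S.a + 3 * r)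
    (by omega) (fun y c1 c2 => Or.inl ⟨by push_cast; omega, by push_cast; omega⟩) (by omega)
    ⟨by omega, by omega⟩
  have b4 := segL (t₀ := t₀) h hW hr h2 (lo := S.yc - S.a - 3 * r) (hi := S.yc - S.a - (2 * r + 1))
    (by omega) (fun y c1 c2 => Or.inr ⟨by push_cast; omega, by push_cast; omega⟩) (by omega)
    ⟨by omega, by omega⟩
  refine (PA_union0 (PA_union0 a1 a2) (PA_union0 (PA_union0 b1 b2) (PA_union0 b3 b4))).mono ?_ le_rfl
    le_rfl (Set.Subset.refl _) (Set.Subset.refl _) (Set.Subset.refl _)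
  have hrws : ∀ y ∈ rws S r, ((S.yc - S.a - r - 1 ≤ y ∧ y < S.yc - S.a) ∨
      (S.yc + S.a ≤ y ∧ y < S.yc + S.a + r + 1)) ∨
      y ∈ Finset.Ico (S.yc + S.a + (2 * r + 1) - r) (S.yc + S.a + 3 * r + r) ∨
      y ∈ Finset.Ico (S.yc - S.a - 3 * r - r) (S.yc - S.a - (2 * r + 1) + r) := by
    intro y hy
    unfold rws at hy
    rw [Finset.mem_union, Finset.mem_Ico, Finset.mem_Ico] at hy
    rw [Finset.mem_Ico, Finset.mem_Ico]
    omega
  intro s hs
  unfold dC at hs
  rw [Finset.mem_union, Finset.mem_union, Finset.mem_union] at hs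
  rcases hs with hs | hs | hs | hs
  · obtain ⟨y, hy, rfl⟩ := Finset.mem_image.mp hs
    rcases hrws y hy with h3 | h3 | h3
    · exact Finset.mem_union_left _ (Finset.mem_union_left _ (cov_R h hW h2 h3))
    · exact Finset.mem_union_right _ (Finset.mem_union_left _ (Finset.mem_union_left _
        (Finset.mem_image_of_mem _ h3)))
    · exact Finset.mem_union_right _ (Finset.mem_union_left _ (Finset.mem_union_right _
        (Finset.mem_image_of_mem _ h3)))
  · obtain ⟨y, hy, rfl⟩ := Finset.mem_image.mp hs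
    rcases hrws y hy with h3 | h3 | h3
    · exact Finset.mem_union_left _ (Finset.mem_union_right _ (cov_L h hW h2 h3))
    · exact Finset.mem_union_right _ (Finset.mem_union_right _ (Finset.mem_union_left _
        (Finset.mem_image_of_mem _ h3)))
    · exact Finset.mem_union_right _ (Finset.mem_union_right _ (Finset.mem_union_right _
        (Finset.mem_image_of_mem _ h3)))
  · obtain ⟨x, hx, rfl⟩ := Finset.mem_image.mp hs
    exact Finset.mem_union_left _ (cov_tube h hW hx).1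
  · obtain ⟨x, hx, rfl⟩ := Finset.mem_image.mp hs
    exact Finset.mem_union_left _ (cov_tube h hW hx).2

/-! ## The sides of the polygon near the slab -/

/-- **the boundary sides of the polygon near the slab** -/
theorem near_side (h : S.Ok) (h1 : 2 * (S.a + 1) ≤ r) (h2 : 64 * r ≤ S.k)
    (th : ∀ f ∈ S.D, S.yc - S.k ≤ f.2 → f.2 < S.yc + S.k →
      ¬ (S.x1 - (8 * r + 2) ≤ f.1 ∧ f.1 < S.x1) ∧ ¬ (S.x2 ≤ f.1 ∧ f.1 < S.x2 + (8 * r + 2)))
    {a : (ℤ × ℤ) × (ℤ × ℤ)} (ha : a ∈ bS ZQ S.D)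
    (hn : nearS S.x1 S.x2 (S.yc - S.a) (S.yc + S.a) (3 * r + 1) a.1) :
    ∃ y : ℤ, S.yc - S.a - (3 * r + 2) ≤ y ∧ y ≤ S.yc + S.a + (3 * r + 1) ∧
      (a = sd ZQ (S.x2 - 1, y) 1 ∨ a = sd ZQ (S.x1, y) 3) := by
  have h0 := h.ha
  have hak := h.hak
  obtain ⟨⟨fx, fy⟩, hf, k, rfl⟩ := exists_sd_of_bS ha
  have hI := (mem_bS.mp ha).2
  have hnb : nb (fx, fy) k ∉ S.D := by
    intro hg
    exact hI _ (by exact_mod_cast hg) (k + 2) (EnvB.swap_inj_iff.mpr ⟨rfl, rfl⟩)
  unfold nearS at hn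
  push_cast at hn
  have hc := Emb.corner_cases (fx, fy) k
  have hsd : (sd ZQ (fx, fy) k).1 = ZQ.c (fx, fy) k := rfl
  rw [hsd] at hn
  have hb : S.x1 - (3 * r + 2) ≤ fx ∧ fx ≤ S.x2 + (3 * r + 1) ∧ S.yc - S.a - (3 * r + 2) ≤ fy ∧
      fy ≤ S.yc + S.a + (3 * r + 1) := by
    rcases hc with ⟨-, e⟩ | ⟨-, e⟩ | ⟨-, e⟩ | ⟨-, e⟩ <;> rw [e] at hn <;> (try simp only at hn) <;>
      omega
  have ht := th (fx, fy) hf (by simp only; omega) (by simp only; omega)
  simp only at ht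
  have hx1 : S.x1 ≤ fx := by omega
  have hx2 : fx < S.x2 := by omega
  rcases EnvB.k4 k with rfl | rfl | rfl | rfl
  · exfalso
    refine hnb ?_
    rw [EnvB.nb0]
    exact h.slab.sub _ _ hx1 hx2 (by omega) (by omega)
  · refine ⟨fy, hb.2.2.1, hb.2.2.2, Or.inl ?_⟩
    have : fx = S.x2 - 1 := by
      by_contra hne
      refine hnb ?_
      rw [EnvB.nb1]
      exact h.slab.sub _ _ (by omega) (by omega) (by omega) (by omega)
    rw [this]
  · exfalso
    refine hnb ?_
    rw [EnvB.nb2]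
    exact h.slab.sub _ _ hx1 hx2 (by omega) (by omega)
  · refine ⟨fy, hb.2.2.1, hb.2.2.2, Or.inr ?_⟩
    have : fx = S.x1 := by
      by_contra hne
      refine hnb ?_
      rw [EnvB.nb3]
      exact h.slab.sub _ _ (by omega) (by omega) (by omega) (by omega)
    rw [this]

/-- **the boundary sides of the pockets** are boundary sides of the polygon off the slab -/
theorem pocket_side (h : S.Ok) (hW : Win S W) {i : Bool} {k : ZMod 4}
    (hf : (some i, f) ∈ (S.env W 0 0).F) (hb : sd (S.env W 0 0).Q (some i, f) k ∈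
      bS (S.env W 0 0).Q (S.env W 0 0).F) :
    sd ZQ f k ∈ bS ZQ S.D ∧ OffS S.x1 S.x2 (S.yc - S.a) (S.yc + S.a) (sd ZQ f k) ∧
      sd (S.env W 0 0).Q (some i, f) k = (em h hW).side (sd ZQ f k) := by
  have d := h.eData hW.slab
  have hfD : f ∈ S.D ∧ f ∉ SixB.slab S.x1 S.x2 (S.yc - S.a) (S.yc + S.a) ∧
      Emb.shF (S.env W 0 0) f = some i := by
    cases i
    · have h1 := EnvB.mem_F_lo.mp hf
      have hD := Emb.sub_L d h1
      rcases Emb.mem_cases d hD with h2 | h2 | h2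
      · exact absurd h1 h2.2.1
      · refine ⟨hD, h2.2.2, ?_⟩
        unfold Emb.shF
        rw [if_neg h2.2.1, if_pos h1]
      · exact absurd h1 h2.2.2
    · have h1 := EnvB.mem_F_up.mp hf
      have hD := Emb.sub_U d h1
      rcases Emb.mem_cases d hD with h2 | h2 | h2
      · refine ⟨hD, h2.2.2, ?_⟩
        unfold Emb.shF
        rw [if_pos h1]
      · exact absurd h1 h2.2.1
      · exact absurd h1 h2.2.1
  obtain ⟨hD, hS, hs⟩ := hfD
  have e : sd (S.env W 0 0).Q (some i, f) k = (em h hW).side (sd ZQ f k) := by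
    rw [(em h hW).side_sd hD]
    show _ = sd (S.env W 0 0).Q (Emb.shF (S.env W 0 0) f, f) k
    rw [hs]
  refine ⟨?_, ?_, e⟩
  · rw [sd_mem_bS hD]
    intro g hg l hl
    rw [e, mem_bS] at hb
    refine hb.2 ((em h hW).φF g) (by exact_mod_cast (em h hW).sub g hg) l ?_
    show (em h hW).side (sd ZQ f k) = (sd (S.env W 0 0).Q ((em h hW).φF g) l).swap
    rw [hl, ← (em h hW).side_sd hg]
    rfl
  · intro g hg l hl
    obtain ⟨h1, -⟩ := sd_inj hl
    exact hS (h1 ▸ hg)

/-- an island side of the polygon off the slab which is near the slab is covered -/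
theorem near_cov (h : S.Ok) (hW : Win S W) (h1 : 2 * (S.a + 1) ≤ r) (h2 : 64 * r ≤ S.k)
    (th : ∀ f ∈ S.D, S.yc - S.k ≤ f.2 → f.2 < S.yc + S.k →
      ¬ (S.x1 - (8 * r + 2) ≤ f.1 ∧ f.1 < S.x1) ∧ ¬ (S.x2 ≤ f.1 ∧ f.1 < S.x2 + (8 * r + 2)))
    {a : (ℤ × ℤ) × (ℤ × ℤ)} (ha : a ∈ bS ZQ S.D) (ho : OffS S.x1 S.x2 (S.yc - S.a) (S.yc + S.a) a)
    (hn : nearS S.x1 S.x2 (S.yc - S.a) (S.yc + S.a) (3 * r + 1) a.1) :
    (em h hW).side a ∈ dC h hW r := by
  have h0 := h.ha
  have hx := h.hx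
  obtain ⟨y, b1, b2, hy⟩ := near_side h h1 h2 th ha hn
  have hrow : y ∈ rws S r := by
    unfold rws
    rw [Finset.mem_union, Finset.mem_Ico, Finset.mem_Ico]
    by_contra hne
    have hy' : S.yc - S.a ≤ y ∧ y < S.yc + S.a := by omega
    rcases hy with rfl | rfl
    · refine ho (S.x2 - 1, y) ?_ 1 rfl
      rw [mem_RF]
      simp only
      have := h.slab.hx
      omega
    · refine ho (S.x1, y) ?_ 3 rfl
      rw [mem_RF]
      simp only
      have := h.slab.hx
      omega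
  unfold dC
  rcases hy with rfl | rfl
  · exact Finset.mem_union_left _ (Finset.mem_image_of_mem _ hrow)
  · exact Finset.mem_union_right _ (Finset.mem_union_left _ (Finset.mem_image_of_mem _ hrow))

end

end Pool.Agent.SixB.MthD
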