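import Pool.Agent.Lib.SixB.S3OutA

/-!
# 6BD step 3, R10: the special vertices of the two blocks

`Kap E r`: the hypotheses (`gu = gd`, `2 (a + 1) ≤ r`, `64 r ≤ k`, `b = k`, window).
* `vt`, `mt`, `ot`, `Jt`: the 28 special vertices off the mouths, index `Bool × Fin 14` (`true` = upper block, columns
  from the right to the left).
* `Kap.lt`, `Kap.jt`: their charts and jumps; `Kap.sep`: they are far from each other; `Jt_pos`.
* `Kap.spP`: the partial atlas of the special charts.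
-/

set_option autoImplicit false
set_option linter.unusedSectionVars false

namespace Pool.Agent.SixB.BlkW

open Pool.Agent.Perc.Q Pool.Agent.Perc Pool.Agent.SixB.EnvB

noncomputable section

variable {E : SEnv} {r R : ℕ} {mu ρu ml ρl : ℝ} {ψu ψl : (ℤ × ℤ) × (ℤ × ℤ) → ℝ}

/-- hypotheses of the atlas at the scale of the blocks -/
structure Kap (E : SEnv) (r : ℕ) : Prop where
  g : E.gd = E.gu
  a0 : 0 < E.gu.a
  hx : E.gu.x1 < E.gu.x2
  ar : 2 * (E.gu.a + 1) ≤ r
  rk : 64 * r ≤ E.gu.k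
  hb : E.gu.b = E.gu.k
  hc : 3 * E.gu.k ≤ E.gu.c
  win : ∀ f : ℤ × ℤ, E.gu.x1 - 7 * E.gu.k - (4 * r + 1) ≤ f.1 →
    f.1 < E.gu.x2 + 7 * E.gu.k + (4 * r + 1) → E.gu.yc - E.gu.c - (4 * r + 1) ≤ f.2 →
      f.2 < E.gu.yc + E.gu.c + (4 * r + 1) → f ∈ E.W

theorem Kap.thk (h : Kap E r) : Thk E := by
  have h1 := h.ar
  have h2 := h.rk
  have h3 := h.hc
  refine ⟨by omega, ?_⟩
  rw [h.g]
  omega

theorem Kap.up (h : Kap E r) (h0 : 0 < R) (hR : R ≤ 4 * r + 1) : UpB E R := by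
  have h1 := h.ar
  have h2 := h.rk
  have h3 := h.hc
  have h4 := h.hb
  have h5 := h.a0
  have h6 := h.hx
  refine ⟨h.thk, by rw [h.g], h5, by rw [h.g]; exact h5, h6.le, h0, by omega, by omega, by omega,
    fun f h7 h8 h9 h10 => h.win f (by omega) (by omega) (by omega) (by omega)⟩

theorem Kap.lo (h : Kap E r) (h0 : 0 < R) (hR : R ≤ 4 * r + 1) : LoB E R := by
  have h1 := h.ar
  have h2 := h.rk
  have h3 := h.hc
  have h4 := h.hb
  have h5 := h.a0
  have h6 := h.hx
  have h7 := h.g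
  refine ⟨h.thk, by rw [h7], h5, by rw [h7]; exact h5, ?_, h0, ?_, ?_, ?_, ?_⟩ <;> rw [h7]
  · exact h6.le
  · omega
  · omega
  · omega
  · exact fun f h7 h8 h9 h10 => h.win f (by omega) (by omega) (by omega) (by omega)

theorem Kap.mtb (h : Kap E r) (h0 : E.gu.a ≤ R) (hR : R ≤ 4 * r + 1) : MtB E R := by
  have h1 := h.ar
  have h2 := h.rk
  have h3 := h.hc
  have h4 := h.hb
  exact ⟨h.thk, h.g, h.a0, h0, h.hx, by omega, by omega, by omega,
    fun f h7 h8 h9 h10 => h.win f (by omega) (by omega) (by omega) (by omega)⟩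

/-! ## Tables -/

/-- columns of the vertices -/
def Xc (G : BGeo) : Fin 14 → ℤ :=
  ![G.x2 + 7 * G.k, G.x2 + 6 * G.k, G.x2 + 5 * G.k, G.x2 + 4 * G.k, G.x2 + 3 * G.k, G.x2 + 2 * G.k,
    G.x2 + G.k, G.x1 - G.k, G.x1 - 2 * G.k, G.x1 - 3 * G.k, G.x1 - 4 * G.k, G.x1 - 5 * G.k,
    G.x1 - 6 * G.k, G.x1 - 7 * G.k]

/-- heights of the vertices -/
def Hc (G : BGeo) : Fin 14 → ℕ :=
  ![G.c, G.b, G.b, G.b, G.b, G.b, G.b, G.b, G.b, G.b, G.b, G.b, G.b, G.c]

/-- the special vertices -/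
def vt (E : SEnv) (i : Bool × Fin 14) : ℤ × ℤ :=
  match i with
  | (true, j) => (Xc E.gu j, E.gu.yc + Hc E.gu j)
  | (false, j) => (Xc E.gd j, E.gd.yc - Hc E.gd j)

/-- numbers of quadrants -/
def mt (i : Bool × Fin 14) : ℕ := ![3, 1, 2, 1, 1, 2, 1, 1, 2, 1, 1, 2, 1, 3] i.2

/-- first quadrants -/
def ot (i : Bool × Fin 14) : ZMod 4 :=
  match i with
  | (true, j) => ![3, 2, 2, 3, 2, 2, 3, 2, 2, 3, 2, 2, 3, 0] j
  | (false, j) => ![2, 1, 0, 0, 1, 0, 0, 1, 0, 0, 1, 0, 0, 1] j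

/-- jumps of one block, `m` = parameter -/
def Jm (m : ℝ) : Fin 14 → ℝ :=
  ![BGeo.out m / 2, 0, -BGeo.alpha m, 0, 0, -BGeo.sig m, 0, 0, -BGeo.sig m, 0, 0, -BGeo.alpha m, 0,
    BGeo.out m / 2]

/-- jumps -/
def Jt (mu ml : ℝ) (i : Bool × Fin 14) : ℝ :=
  match i with
  | (true, j) => Jm mu j
  | (false, j) => Jm ml j

theorem mt_rng (i : Bool × Fin 14) : 1 ≤ mt i ∧ mt i ≤ 3 := by
  obtain ⟨b, j⟩ := i
  fin_cases j <;> simp [mt]

/-- the charts of the special vertices -/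
theorem Kap.lt (h : Kap E r) (h0 : 0 < R) (hR : R ≤ 4 * r + 1) (i : Bool × Fin 14) :
    LocW E (mt i) (ot i) (vt E i) R := by
  obtain ⟨b, j⟩ := i
  have hu := h.up h0 hR
  have hl := h.lo h0 hR
  cases b
  · fin_cases j
    · exact hl.l26
    · exact hl.l23
    · exact hl.l22
    · exact hl.l21
    · exact hl.l18
    · exact hl.l17
    · exact hl.l16
    · exact hl.l11
    · exact hl.l10
    · exact hl.l9
    · exact hl.l6
    · exact hl.l5
    · exact hl.l4
    · exact hl.l1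
  · fin_cases j
    · exact hu.l1
    · exact hu.l4
    · exact hu.l5
    · exact hu.l6
    · exact hu.l9
    · exact hu.l10
    · exact hu.l11
    · exact hu.l16
    · exact hu.l17
    · exact hu.l18
    · exact hu.l21
    · exact hu.l22
    · exact hu.l23
    · exact hu.l26

/-- the jumps of the special vertices -/
theorem Kap.jt (h : Kap E r) (h0 : 0 < R) (hR : R ≤ 4 * r + 1) (i : Bool × Fin 14) :
    (h.lt h0 hR i).chart.Jump (E.psi mu ρu ml ρl ψu ψl) (Jt mu ml i) := by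
  obtain ⟨b, j⟩ := i
  have hu := h.up h0 hR
  have hl := h.lo h0 hR
  cases b
  · fin_cases j
    · exact hl.j26
    · exact hl.j23
    · exact hl.j22
    · exact hl.j21
    · exact hl.j18
    · exact hl.j17
    · exact hl.j16
    · exact hl.j11
    · exact hl.j10
    · exact hl.j9
    · exact hl.j6
    · exact hl.j5
    · exact hl.j4
    · exact hl.j1
  · fin_cases j
    · exact hu.j1
    · exact hu.j4
    · exact hu.j5
    · exact hu.j6
    · exact hu.j9
    · exact hu.j10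
    · exact hu.j11
    · exact hu.j16
    · exact hu.j17
    · exact hu.j18
    · exact hu.j21
    · exact hu.j22
    · exact hu.j23
    · exact hu.j26

/-! ## Distances -/

theorem Xc_sep {G : BGeo} (hG : G.x1 ≤ G.x2) {i j : Fin 14} (hij : i ≠ j) :
    Xc G i + G.k ≤ Xc G j ∨ Xc G j + G.k ≤ Xc G i := by
  unfold Xc
  fin_cases i <;> fin_cases j <;> first | exact absurd rfl hij | (simp only []; simp; omega)

theorem Kap.Xc_gd (h : Kap E r) (j : Fin 14) : Xc E.gd j = Xc E.gu j := by rw [h.g]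

theorem Kap.Hc_gd (h : Kap E r) (j : Fin 14) : Hc E.gd j = Hc E.gu j := by rw [h.g]

theorem Kap.Hc_ge (h : Kap E r) (j : Fin 14) : E.gu.k ≤ Hc E.gu j := by
  have h1 := h.hb
  have h2 := h.hc
  unfold Hc
  fin_cases j <;> simp <;> omega

theorem vt_true (j : Fin 14) : vt E (true, j) = (Xc E.gu j, E.gu.yc + Hc E.gu j) := rfl

theorem Kap.vt_false (h : Kap E r) (j : Fin 14) :
    vt E (false, j) = (Xc E.gu j, E.gu.yc - Hc E.gu j) := by
  change (Xc E.gd j, E.gd.yc - Hc E.gd j) = _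
  rw [h.g]

/-- the special vertices are far from each other -/
theorem Kap.sep (h : Kap E r) {i j : Bool × Fin 14} (hij : i ≠ j) :
    (8 * r : ℤ) ≤ |(vt E i).1 - (vt E j).1| ∨ (8 * r : ℤ) ≤ |(vt E i).2 - (vt E j).2| := by
  obtain ⟨b, i⟩ := i
  obtain ⟨c, j⟩ := j
  have hk := h.rk
  have hx : ∀ b i, (vt E (b, i)).1 = Xc E.gu i := by
    intro b i
    cases b
    · rw [h.vt_false]
    · rfl
  by_cases h1 : i = j
  · right
    subst h1
    have h2 := h.Hc_ge i
    cases b <;> cases c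
    · exact absurd rfl hij
    · rw [h.vt_false, vt_true]
      simp only
      rw [le_abs]
      omega
    · rw [h.vt_false, vt_true]
      simp only
      rw [le_abs]
      omega
    · exact absurd rfl hij
  · left
    rw [hx, hx, le_abs]
    rcases Xc_sep h.hx.le h1 with h2 | h2 <;> omega

/-! ## The weights are bounded below -/

theorem tJ_ge {J : ℝ} (h1 : -(5 * Real.pi / 18) ≤ J) (h2 : J ≤ Real.pi / 3 + 5 * Real.pi / 18) :
    1 / 9 ≤ tJ J := by
  have hpi := Real.pi_pos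
  have h3 : 1 / 9 ≤ Real.cos (J - Real.pi / 6) := by
    rw [← Real.cos_abs, ← Real.sin_pi_div_two_sub]
    have h4 : |J - Real.pi / 6| ≤ 4 * Real.pi / 9 := by
      rw [abs_le]
      constructor <;> linarith
    have h5 : 0 ≤ |J - Real.pi / 6| := abs_nonneg _
    have h6 := Real.mul_le_sin (x := Real.pi / 2 - |J - Real.pi / 6|) (by linarith) (by linarith)
    refine le_trans ?_ h6
    rw [div_mul_eq_mul_div, le_div_iff₀ hpi]
    linarith
  have h4 : Real.cos (Real.pi / 6) ≤ 1 := Real.cos_le_one _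
  unfold tJ
  rw [le_div_iff₀ cos_sixth_pos]
  have h5 := cos_sixth_pos
  nlinarith

theorem Jm_rng {m : ℝ} (h1 : -(2 * (Real.pi / 3)) ≤ m) (h2 : m ≤ Real.pi) (j : Fin 14) :
    -(5 * Real.pi / 18) ≤ Jm m j ∧ Jm m j ≤ Real.pi / 3 + 5 * Real.pi / 18 := by
  have hpi := Real.pi_pos
  unfold Jm BGeo.out BGeo.alpha BGeo.sig
  fin_cases j <;> simp <;> constructor <;> linarith

theorem Jt_pos (h1 : -(2 * (Real.pi / 3)) ≤ mu) (h2 : mu ≤ Real.pi) (h3 : mu + ml = Real.pi / 3)
    (i : Bool × Fin 14) : 1 / 9 ≤ tJ (Jt mu ml i) := by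
  have hpi := Real.pi_pos
  obtain ⟨b, j⟩ := i
  cases b
  · have h4 := Jm_rng (m := ml) (by linarith) (by linarith) j
    exact tJ_ge h4.1 h4.2
  · have h4 := Jm_rng h1 h2 j
    exact tJ_ge h4.1 h4.2

/-! ## The special charts -/

/-- the partial atlas of the special charts of the two blocks -/
def Kap.spP (h : Kap E r) {t₀ : ℝ} (ht : ∀ i, t₀ ≤ tJ (Jt mu ml i)) :
    PAtlas E.Q E.F (E.psi mu ρu ml ρl ψu ψl) E.Z
      (Finset.univ.biUnion fun i : Bool × Fin 14 =>
        (h.lt (R := 4 * r + 1) (by omega) le_rfl i).chart.walls (2 * r)) r 28 0 t₀ where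
  κ := Bool × Fin 14
  K i := .ver (Jt mu ml i)
  m := mt
  o := ot
  v := vt E
  ch i := (h.lt (R := 4 * r + 1) (by omega) le_rfl i).chart
  m_rng := mt_rng
  jmp i := h.jt (by omega) le_rfl i
  tpos i J hJ := by
    have h1 : Jt mu ml i = J := SK.ver.inj hJ
    rw [← h1]
    exact Or.inl (ht i)
  disj i j hij := by
    rw [LocW.box, LocW.box, Finset.disjoint_image (fun a b hab => (Prod.mk.inj hab).2)]
    refine disj_Wdg ?_
    have := h.sep hij
    push_cast
    omega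
  cardS := by simp
  chZ i := LocW.walls_Z _ (by omega)
  ι := Empty
  m' := fun i => i.elim
  o' := fun i => i.elim
  v' := fun i => i.elim
  nch := fun i => i.elim
  m'_rng := fun i => i.elim
  njmp := fun i => i.elim
  nZ := fun i => i.elim
  ndisj := fun i => i.elim
  cardN := by simp
  μ := Empty
  lf := fun i => i.elim
  w := fun i => i.elim
  h := fun i => i.elim
  l := fun i => i.elim
  mch := fun i => i.elim
  h_lt := fun i => i.elim
  mnat := fun i => i.elim
  mZ := fun i => i.elim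
  mdisj := fun i => i.elim
  cardM := by simp
  cover a ha := by
    rw [Finset.mem_biUnion] at ha
    obtain ⟨i, -, hi⟩ := ha
    exact Or.inl ⟨i, hi⟩

end

end Pool.Agent.SixB.BlkW
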