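import Pool.Agent.Lib.SixB.S3EmbH
import Pool.Agent.Lib.SixB.S3ZplE

/-!
# 6BD step 3, row R23: the number of island sides

* `ZCard.Nbd E`: the window of `E` contains all neighbours of the faces of the blocks; `nbd_win`.
* `ZCard.code S`: a set which does not depend on the shifts and on the window; `Z_eq`: the island sides of
  `S.env W X Y` are the image of `code S` under an injective map.
* `card_env`: the number of island sides of `S.env W X Y` does not depend on `W`, `X`, `Y`.
* `card_parts`: disjoint parts of the surface have together at most `card Z` island sides.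
-/

set_option autoImplicit false
set_option linter.unusedSectionVars false

namespace Pool.Agent.SixB.ZCard

open Pool.Agent.Perc Pool.Agent.Perc.Q Pool.Agent.SixB.EnvB
open Pool.Agent.SixB.Tilt (mem_bS_ah Ah)
open Pool.Agent.SixB.Rel (win InBx nb_box win_thk)

noncomputable section

/-- the window contains the neighbours of the blocks -/
def Nbd (E : SEnv) : Prop :=
  ∀ f, E.gu.solid true f ∨ E.gd.solid false f → ∀ k, nb f k ∈ E.W

theorem nbd_win {E : SEnv} {L M : ℤ} (hL : InBx E L) (hM : L ≤ M) : Nbd (win E M) := by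
  intro f hf k
  have h1 := nb_box (k := k) (hL f hf)
  rw [sub_add_cancel] at h1
  exact Rel.RF0_mono hM h1

variable {S : Slb} {W W' : Finset (ℤ × ℤ)} {X Y X' Y' : ℤ}

theorem nb_shv (X : ℤ) (f : ℤ × ℤ) (k : ZMod 4) : nb (shv X f) k = shv X (nb f k) := by
  rcases k4 k with rfl | rfl | rfl | rfl
  · rfl
  · simp only [nb1, shv, Prod.mk.injEq, and_true]; ring
  · rfl
  · simp only [nb3, shv, Prod.mk.injEq, and_true]; ring

theorem shv_neg (X : ℤ) (f : ℤ × ℤ) : shv X (shv (-X) f) = f := by
  unfold shv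
  ext
  · simp
  · rfl

theorem solid_up (S : Slb) (X : ℤ) (f : ℤ × ℤ) :
    (S.geo X).solid true (shv X f) ↔ (S.geo 0).solid true f := by
  unfold BGeo.solid BGeo.hgt BGeo.cham Slb.geo shv
  simp only [if_true, add_zero]
  omega

theorem solid_lo (S : Slb) (X : ℤ) (f : ℤ × ℤ) :
    (S.geo X).solid false (shv X f) ↔ (S.geo 0).solid false f := by
  unfold BGeo.solid BGeo.hgt BGeo.cham Slb.geo shv
  simp only [Bool.false_eq_true, if_false, add_zero]
  omega

/-- the codes of the island sides: part (`true` = upper), pocket or base, face, corner -/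
def code (S : Slb) : Set (Bool × Bool × (ℤ × ℤ) × ZMod 4) :=
  {c | if c.1 = true then
      (if c.2.1 = true then c.2.2.1 ∈ S.Up ∧ sd ZQ c.2.2.1 c.2.2.2 ∈ bS ZQ S.Up ∧
          ¬ (S.x1 ≤ c.2.2.1.1 ∧ c.2.2.1.1 < S.x2 ∧ c.2.2.1.2 = S.yc + S.a ∧ c.2.2.2 = 0)
        else ¬ (S.geo 0).solid true c.2.2.1 ∧ (S.geo 0).solid true (nb c.2.2.1 c.2.2.2) ∧
          ¬ (S.x1 ≤ c.2.2.1.1 ∧ c.2.2.1.1 < S.x2 ∧ c.2.2.1.2 + 1 = S.yc + S.a ∧ c.2.2.2 = 2))
      else
      (if c.2.1 = true then c.2.2.1 ∈ S.Lo ∧ sd ZQ c.2.2.1 c.2.2.2 ∈ bS ZQ S.Lo ∧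
          ¬ (S.x1 ≤ c.2.2.1.1 ∧ c.2.2.1.1 < S.x2 ∧ c.2.2.1.2 + 1 = S.yc - S.a ∧ c.2.2.2 = 2)
        else ¬ (S.geo 0).solid false c.2.2.1 ∧ (S.geo 0).solid false (nb c.2.2.1 c.2.2.2) ∧
          ¬ (S.x1 ≤ c.2.2.1.1 ∧ c.2.2.1.1 < S.x2 ∧ c.2.2.1.2 = S.yc - S.a ∧ c.2.2.2 = 0))}

/-- the side of a code -/
def dec (S : Slb) (W : Finset (ℤ × ℤ)) (X Y : ℤ) (c : Bool × Bool × (ℤ × ℤ) × ZMod 4) :
    (Option Bool × (ℤ × ℤ)) × (Option Bool × (ℤ × ℤ)) :=
  sd (S.env W X Y).Q (if c.2.1 = true then some c.1 else none, shv (if c.1 = true then X else Y) c.2.2.1)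
    c.2.2.2

theorem thk (h : S.Ok) (W : Finset (ℤ × ℤ)) (X Y : ℤ) : Thk (S.env W X Y) := ⟨h.uac X, h.uac Y⟩

/-- rows of the upper block -/
theorem row_up {G : BGeo} {f : ℤ × ℤ} (h : G.solid true f) : G.yc + G.a ≤ f.2 := by
  have h1 := h.1
  unfold BGeo.hgt at h1
  rw [if_pos rfl] at h1
  linarith

theorem row_lo {G : BGeo} {f : ℤ × ℤ} (h : G.solid false f) : f.2 + 1 ≤ G.yc - G.a := by
  have h1 := h.1
  unfold BGeo.hgt at h1
  rw [if_neg (by simp)] at h1
  linarith

theorem nb_row (f : ℤ × ℤ) (k : ZMod 4) : (nb f k).2 ≤ f.2 + 1 ∧ f.2 ≤ (nb f k).2 + 1 := by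
  rcases k4 k with rfl | rfl | rfl | rfl
  · rw [nb0]; simp only; omega
  · rw [nb1]; simp only; omega
  · rw [nb2]; simp only; omega
  · rw [nb3]; simp only; omega

theorem dec_inj (h : S.Ok) : Set.InjOn (dec S W X Y) (code S) := by
  have ha := h.ha
  rintro ⟨u, p, f, k⟩ hc ⟨u', p', f', k'⟩ hc' he
  obtain ⟨h1, h2⟩ := (S.env W X Y).Q.inj (Prod.mk.inj he).1 (Prod.mk.inj he).2
  obtain ⟨h3, h4⟩ := Prod.mk.inj h1
  simp only at h2 h3 h4
  subst h2
  have hu : u = u' := by
    cases p <;> cases p'
    · cases u <;> cases u'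
      · rfl
      · exfalso
        obtain ⟨-, c2, -⟩ : _ ∧ _ ∧ _ := hc
        obtain ⟨-, c2', -⟩ : _ ∧ _ ∧ _ := hc'
        have a1 := row_lo c2
        have a2 := row_up c2'
        have a3 := nb_row f k
        have a4 := nb_row f' k
        have a5 := congrArg Prod.snd h4
        simp only [shv, Slb.geo] at a1 a2 a3 a4 a5
        omega
      · exfalso
        obtain ⟨-, c2, -⟩ : _ ∧ _ ∧ _ := hc
        obtain ⟨-, c2', -⟩ : _ ∧ _ ∧ _ := hc'
        have a1 := row_up c2
        have a2 := row_lo c2'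
        have a3 := nb_row f k
        have a4 := nb_row f' k
        have a5 := congrArg Prod.snd h4
        simp only [shv, Slb.geo] at a1 a2 a3 a4 a5
        omega
      · rfl
    · simp at h3
    · simp at h3
    · simpa using h3
  subst hu
  have hp : p = p' := by
    cases p <;> cases p' <;> simp at h3 ⊢
  subst hp
  have hf : f = f' := EmbH.shv_inj h4
  subst hf
  rfl

theorem Z_eq (h : S.Ok) (hN : Nbd (S.env W X Y)) :
    ((S.env W X Y).Z : Set _) = dec S W X Y '' code S := by
  have ha := h.ha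
  have hE := thk h W X Y
  ext s
  rw [Finset.mem_coe, Set.mem_image]
  constructor
  · intro hs
    rcases Z_cases hs with ⟨f, hf, k, rfl⟩ | ⟨f, hf, k, rfl⟩ | ⟨f, hf, k, rfl⟩
    · obtain ⟨h1, h2, h3⟩ := (base_Z hE hf k).mp hs
      have hb := mem_base.mp hf
      rcases h1 with h1 | h1
      · refine ⟨(true, false, shv (-X) f, k), ⟨?_, ?_, ?_⟩, ?_⟩
        · intro h4
          apply hb.2.1
          rw [← shv_neg X f]
          exact (solid_up S X _).mpr h4
        · show (S.geo 0).solid true (nb (shv (-X) f) k)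
          rw [nb_shv]
          refine (solid_up S X _).mp ?_
          rw [shv_neg]
          exact h1
        · rintro ⟨h4, h5, h6, h7⟩
          simp only at h4 h5 h6 h7
          subst h7
          refine h2 ⟨⟨rfl, ⟨?_, ?_⟩, h6⟩, ?_⟩
          · show S.x1 + X ≤ f.1
            unfold shv at h4; simp only at h4; omega
          · show f.1 < S.x2 + X
            unfold shv at h5; simp only at h5; omega
          · show nb f 2 ∈ shF X S.Up
            have h8 : nb f 2 = shv X (nb (shv (-X) f) 2) := by rw [nb_shv, shv_neg]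
            rw [h8, EmbH.mem_shF, nb2]
            have h9 : (shv (-X) f).2 + 1 = S.yc + S.a := h6
            exact up_window h.slab h.w1 h.w2 h4 h5 h9.ge (h9.trans_lt h.w3)
        · show sd _ (none, shv X (shv (-X) f)) k = _
          rw [shv_neg]
      · refine ⟨(false, false, shv (-Y) f, k), ⟨?_, ?_, ?_⟩, ?_⟩
        · intro h4
          apply hb.2.2
          rw [← shv_neg Y f]
          exact (solid_lo S Y _).mpr h4
        · show (S.geo 0).solid false (nb (shv (-Y) f) k)
          rw [nb_shv]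
          refine (solid_lo S Y _).mp ?_
          rw [shv_neg]
          exact h1
        · rintro ⟨h4, h5, h6, h7⟩
          simp only at h4 h5 h6 h7
          subst h7
          refine h3 ⟨⟨rfl, ⟨?_, ?_⟩, h6⟩, ?_⟩
          · show S.x1 + Y ≤ f.1
            unfold shv at h4; simp only at h4; omega
          · show f.1 < S.x2 + Y
            unfold shv at h5; simp only at h5; omega
          · show nb f 0 ∈ shF Y S.Lo
            have h8 : nb f 0 = shv Y (nb (shv (-Y) f) 0) := by rw [nb_shv, shv_neg]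
            rw [h8, EmbH.mem_shF, nb0]
            have h9 : (shv (-Y) f).2 = S.yc - S.a := h6
            have w1 := h.w1
            exact lo_window h.slab h.w2 h.w3 h4 h5 (by omega) (by omega)
        · show sd _ (none, shv Y (shv (-Y) f)) k = _
          rw [shv_neg]
    · -- upper pocket
      obtain ⟨g, hg, rfl⟩ := Finset.mem_image.mp hf
      have hmou : ¬ (S.x1 ≤ g.1 ∧ g.1 < S.x2 ∧ g.2 = S.yc + S.a ∧ k = 0) := by
        rintro ⟨h1, h2, h3, rfl⟩
        have hb : nb (shv X g) 0 ∈ (S.env W X Y).base := by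
          refine mem_base.mpr ⟨?_, ?_, ?_⟩
          · refine hN (shv X g) (Or.inl ?_) 0
            refine (solid_up S X g).mpr ?_
            have h4 := h.uac 0
            refine ⟨?_, ?_, ?_, ?_, ?_⟩
            · unfold BGeo.hgt; rw [if_pos rfl]; simp only [Slb.geo]; omega
            · unfold BGeo.hgt; rw [if_pos rfl]
              simp only [Slb.geo] at h4 ⊢
              omega
            · simp only [Slb.geo]; omega
            · simp only [Slb.geo]; omega
            · rintro ⟨h5, -⟩
              exact EmbH.not_cham (G := S.geo 0) (by simp only [Slb.geo]; omega)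
                (by simp only [Slb.geo]; omega) h5
          · intro h4
            have := row_up h4
            rw [nb0] at this
            simp only [shv, Slb.env, Slb.geo] at this
            omega
          · intro h4
            have := row_lo h4
            rw [nb0] at this
            simp only [shv, Slb.env, Slb.geo] at this
            omega
        refine ((mem_bS_ah.mp (mem_Z.mp hs).1).2) ⟨(none, nb (shv X g) 0), mem_F_none.mpr hb, 2, ?_⟩
        have h5 : nb (nb (shv X g) 0) 2 = shv X g := by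
          rw [nb0, nb2]
          simp
        have h6 := (swap_base (k := 2) (g := shv X g) (l := 0) (s := some true) hE hb).mpr ⟨h5.symm,
          by decide, Or.inr (Or.inl ⟨rfl, rfl, ⟨by
            show S.x1 + X ≤ g.1 + X
            omega, by
            show g.1 + X < S.x2 + X
            omega⟩, by
            rw [nb0]
            show g.2 - 1 + 1 = S.yc + S.a
            omega⟩)⟩
        rw [← h6, Prod.swap_swap]
      refine ⟨(true, true, g, k), ⟨hg, ?_, hmou⟩, rfl⟩
      refine mem_bS_ah.mpr ⟨⟨g, hg, k, rfl⟩, ?_⟩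
      rintro ⟨g', hg', l, he⟩
      refine ((mem_bS_ah.mp (mem_Z.mp hs).1).2) ⟨(some true, shv X g'), Slb.Ok.mem_F_U hg', l, ?_⟩
      have e1 := (Prod.mk.inj he).1
      have e2 := (Prod.mk.inj he).2
      refine Prod.ext ?_ ?_
      · show (S.env W X Y).Q.c (some true, shv X g) (k + 1) = (S.env W X Y).Q.c (some true, shv X g') l
        rw [h.cor_U hg, h.cor_U hg']
        exact congrArg _ e1
      · show (S.env W X Y).Q.c (some true, shv X g) k = (S.env W X Y).Q.c (some true, shv X g') (l + 1)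
        rw [h.cor_U hg, h.cor_U hg']
        exact congrArg _ e2
    · -- lower pocket
      obtain ⟨g, hg, rfl⟩ := Finset.mem_image.mp hf
      have hmou : ¬ (S.x1 ≤ g.1 ∧ g.1 < S.x2 ∧ g.2 + 1 = S.yc - S.a ∧ k = 2) := by
        rintro ⟨h1, h2, h3, rfl⟩
        have hb : nb (shv Y g) 2 ∈ (S.env W X Y).base := by
          refine mem_base.mpr ⟨?_, ?_, ?_⟩
          · refine hN (shv Y g) (Or.inr ?_) 2
            refine (solid_lo S Y g).mpr ?_
            have h4 := h.uac 0
            refine ⟨?_, ?_, ?_, ?_, ?_⟩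
            · unfold BGeo.hgt; rw [if_neg (by simp)]; simp only [Slb.geo]; omega
            · unfold BGeo.hgt; rw [if_neg (by simp)]
              simp only [Slb.geo] at h4 ⊢
              omega
            · simp only [Slb.geo]; omega
            · simp only [Slb.geo]; omega
            · rintro ⟨h5, -⟩
              exact EmbH.not_cham (G := S.geo 0) (by simp only [Slb.geo]; omega)
                (by simp only [Slb.geo]; omega) h5
          · intro h4
            have := row_up h4
            rw [nb2] at this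
            simp only [shv, Slb.env, Slb.geo] at this
            omega
          · intro h4
            have := row_lo h4
            rw [nb2] at this
            simp only [shv, Slb.env, Slb.geo] at this
            omega
        refine ((mem_bS_ah.mp (mem_Z.mp hs).1).2) ⟨(none, nb (shv Y g) 2), mem_F_none.mpr hb, 0, ?_⟩
        have h5 : nb (nb (shv Y g) 2) 0 = shv Y g := by
          rw [nb2, nb0]
          simp
        have h6 := (swap_base (k := 0) (g := shv Y g) (l := 2) (s := some false) hE hb).mpr ⟨h5.symm,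
          by decide, Or.inr (Or.inr ⟨rfl, rfl, ⟨by
            show S.x1 + Y ≤ g.1 + Y
            omega, by
            show g.1 + Y < S.x2 + Y
            omega⟩, by
            rw [nb2]
            show g.2 + 1 = S.yc - S.a
            omega⟩)⟩
        rw [← h6, Prod.swap_swap]
      refine ⟨(false, true, g, k), ⟨hg, ?_, hmou⟩, rfl⟩
      refine mem_bS_ah.mpr ⟨⟨g, hg, k, rfl⟩, ?_⟩
      rintro ⟨g', hg', l, he⟩
      refine ((mem_bS_ah.mp (mem_Z.mp hs).1).2) ⟨(some false, shv Y g'), Slb.Ok.mem_F_L hg', l, ?_⟩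
      have e1 := (Prod.mk.inj he).1
      have e2 := (Prod.mk.inj he).2
      refine Prod.ext ?_ ?_
      · show (S.env W X Y).Q.c (some false, shv Y g) (k + 1) = (S.env W X Y).Q.c (some false, shv Y g') l
        rw [h.cor_L hg, h.cor_L hg']
        exact congrArg _ e1
      · show (S.env W X Y).Q.c (some false, shv Y g) k = (S.env W X Y).Q.c (some false, shv Y g') (l + 1)
        rw [h.cor_L hg, h.cor_L hg']
        exact congrArg _ e2
  · rintro ⟨⟨u, p, f, k⟩, hc, rfl⟩
    cases u <;> cases p
    · -- lower block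
      obtain ⟨h1, h2, h3⟩ : ¬ (S.geo 0).solid false f ∧ (S.geo 0).solid false (nb f k) ∧
        ¬ (S.x1 ≤ f.1 ∧ f.1 < S.x2 ∧ f.2 = S.yc - S.a ∧ k = 0) := hc
      have hs2 : (S.env W X Y).gd.solid false (nb (shv Y f) k) := by
        rw [nb_shv]
        exact (solid_lo S Y _).mpr h2
      have a1 := row_lo h2
      have a2 := nb_row f k
      simp only [Slb.geo] at a1
      have hb : shv Y f ∈ (S.env W X Y).base := by
        refine mem_base.mpr ⟨?_, ?_, ?_⟩
        · have h4 := hN _ (Or.inr hs2) (k + 2)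
          have h5 := Rel.nb_nb (shv Y f) k
          rw [h5] at h4
          exact h4
        · intro h4
          have := row_up h4
          simp only [shv, Slb.env, Slb.geo] at this
          omega
        · intro h4
          exact h1 ((solid_lo S Y f).mp h4)
      show sd (S.env W X Y).Q (none, shv Y f) k ∈ _
      refine (base_Z hE hb k).mpr ⟨Or.inr hs2, ?_, ?_⟩
      · rintro ⟨⟨-, -, h4⟩, -⟩
        simp only [shv, Slb.env, Slb.geo] at h4
        omega
      · rintro ⟨⟨h4, ⟨h5, h6⟩, h7⟩, -⟩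
        simp only [shv, Slb.env, Slb.geo] at h5 h6 h7
        exact h3 ⟨by omega, by omega, h7, h4⟩
    · -- lower pocket
      obtain ⟨h1, h2, h3⟩ : f ∈ S.Lo ∧ sd ZQ f k ∈ bS ZQ S.Lo ∧
        ¬ (S.x1 ≤ f.1 ∧ f.1 < S.x2 ∧ f.2 + 1 = S.yc - S.a ∧ k = 2) := hc
      have h4 : ¬ ((S.env W X Y).gd.x1 ≤ (shv Y f).1 ∧ (shv Y f).1 < (S.env W X Y).gd.x2 ∧
          (shv Y f).2 + 1 = (S.env W X Y).gd.yc - (S.env W X Y).gd.a ∧ k = 2) := by
        rintro ⟨h5, h6, h7, h8⟩
        simp only [shv, Slb.env, Slb.geo] at h5 h6 h7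
        exact h3 ⟨by omega, by omega, h7, h8⟩
      show sd (S.env W X Y).Q (some false, shv Y f) k ∈ _
      refine EmbH.Z_L ?_ h4
      exact EmbH.bS_L hE.au hE.ad (EmbH.bS_shF h1 h2) (EmbH.mem_shF.mpr h1) h4
    · -- upper block
      obtain ⟨h1, h2, h3⟩ : ¬ (S.geo 0).solid true f ∧ (S.geo 0).solid true (nb f k) ∧
        ¬ (S.x1 ≤ f.1 ∧ f.1 < S.x2 ∧ f.2 + 1 = S.yc + S.a ∧ k = 2) := hc
      have hs2 : (S.env W X Y).gu.solid true (nb (shv X f) k) := by
        rw [nb_shv]
        exact (solid_up S X _).mpr h2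
      have a1 := row_up h2
      have a2 := nb_row f k
      simp only [Slb.geo] at a1
      have hb : shv X f ∈ (S.env W X Y).base := by
        refine mem_base.mpr ⟨?_, ?_, ?_⟩
        · have h4 := hN _ (Or.inl hs2) (k + 2)
          have h5 := Rel.nb_nb (shv X f) k
          rw [h5] at h4
          exact h4
        · intro h4
          exact h1 ((solid_up S X f).mp h4)
        · intro h4
          have := row_lo h4
          simp only [shv, Slb.env, Slb.geo] at this
          omega
      show sd (S.env W X Y).Q (none, shv X f) k ∈ _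
      refine (base_Z hE hb k).mpr ⟨Or.inl hs2, ?_, ?_⟩
      · rintro ⟨⟨h4, ⟨h5, h6⟩, h7⟩, -⟩
        simp only [shv, Slb.env, Slb.geo] at h5 h6 h7
        exact h3 ⟨by omega, by omega, h7, h4⟩
      · rintro ⟨⟨-, -, h4⟩, -⟩
        simp only [shv, Slb.env, Slb.geo] at h4
        omega
    · -- upper pocket
      obtain ⟨h1, h2, h3⟩ : f ∈ S.Up ∧ sd ZQ f k ∈ bS ZQ S.Up ∧
        ¬ (S.x1 ≤ f.1 ∧ f.1 < S.x2 ∧ f.2 = S.yc + S.a ∧ k = 0) := hc
      have h4 : ¬ ((S.env W X Y).gu.x1 ≤ (shv X f).1 ∧ (shv X f).1 < (S.env W X Y).gu.x2 ∧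
          (shv X f).2 = (S.env W X Y).gu.yc + (S.env W X Y).gu.a ∧ k = 0) := by
        rintro ⟨h5, h6, h7, h8⟩
        simp only [shv, Slb.env, Slb.geo] at h5 h6 h7
        exact h3 ⟨by omega, by omega, h7, h8⟩
      show sd (S.env W X Y).Q (some true, shv X f) k ∈ _
      refine EmbH.Z_U ?_ h4
      exact EmbH.bS_U hE.au hE.ad (EmbH.bS_shF h1 h2) (EmbH.mem_shF.mpr h1) h4

/-- **The number of island sides depends neither on the shifts nor on the window.** -/
theorem card_env (h : S.Ok) (hN : Nbd (S.env W X Y)) (hN' : Nbd (S.env W' X' Y')) :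
    (S.env W X Y).Z.card = (S.env W' X' Y').Z.card := by
  rw [← Set.ncard_coe_finset, ← Set.ncard_coe_finset, Z_eq h hN, Z_eq h hN',
    (dec_inj h).ncard_image, (dec_inj h).ncard_image]

/-- disjoint parts of a surface have disjoint sets of boundary sides -/
theorem card_parts {V Φ : Type} [DecidableEq V] [DecidableEq Φ] {Q : QC V Φ} {F₁ F₂ : Finset Φ}
    {Z : Finset (V × V)} (hd : Disjoint F₁ F₂) :
    (Z.filter fun s => s ∈ bS Q F₁).card + (Z.filter fun s => s ∈ bS Q F₂).card ≤ Z.card := by
  have hdj : Disjoint (Z.filter fun s => s ∈ bS Q F₁) (Z.filter fun s => s ∈ bS Q F₂) := by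
    rw [Finset.disjoint_left]
    intro s h1 h2
    obtain ⟨⟨f, hf, k, rfl⟩, -⟩ := mem_bS_ah.mp (Finset.mem_filter.mp h1).2
    obtain ⟨⟨g, hg, l, he⟩, -⟩ := mem_bS_ah.mp (Finset.mem_filter.mp h2).2
    have h3 := (Q.inj (Prod.mk.inj he).1 (Prod.mk.inj he).2).1
    subst h3
    exact Finset.disjoint_left.mp hd hf hg
  rw [← Finset.card_union_of_disjoint hdj]
  exact Finset.card_le_card (Finset.union_subset (Finset.filter_subset _ _) (Finset.filter_subset _ _))

/-- the two halves of an environment are disjoint -/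
theorem hi_lo (E : SEnv) {y y' : ℤ} (hy : y' ≤ y) : Disjoint (E.hi y) (E.lo y') := by
  rw [Finset.disjoint_left]
  intro f h1 h2
  have h3 := (Finset.mem_filter.mp h1).2
  have h4 := (Finset.mem_filter.mp h2).2
  rcases h3 with h3 | ⟨h3, h5⟩ <;> rcases h4 with h4 | ⟨h4, h6⟩
  · rw [h3] at h4; simp at h4
  · rw [h3] at h4; simp at h4
  · rw [h3] at h4; simp at h4
  · omega

end

end Pool.Agent.SixB.ZCard
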