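import Pool.Agent.Lib.SixB.S3NormD
import Pool.Agent.Lib.SixB.S3ZCard
import Pool.Agent.Lib.SixB.S3OutB

/-!
# 6BD step 3, row R23: `NormIn` from LOWER, UPPER and (N*)

* `adm_envV`: the types of an environment are admissible.
* `norm_numbers`: the inequalities between the numbers.
* `normIn_of`: the three premises give `NormIn`.
-/

set_option autoImplicit false
set_option linter.unusedSectionVars false

namespace Pool.Agent.SixB.Asm3

open Complex Filter Topology Metric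
open Pool.Agent.Perc Pool.Agent.Perc.Q Pool.Agent.SixB.St
open Pool.Agent.SixB.PolyAtl (mm Jmps Spc)

noncomputable section

/-! ## Admissible types -/

theorem adm_ver {J : ℝ} {m : ℕ} (h1 : -(5 * Real.pi / 18) ≤ J)
    (h2 : J ≤ Real.pi / 3 + 5 * Real.pi / 18) (hm : 1 ≤ m) (hm' : m ≤ 3) :
    Adm (1 / 9) (.ver J, m) := ⟨hm, hm', Or.inl (BlkW.tJ_ge h1 h2)⟩

theorem adm_blkV {μ : ℝ} (h1 : -(2 * (Real.pi / 3)) ≤ μ) (h2 : μ ≤ Real.pi) :
    ∀ p ∈ blkV μ, Adm (1 / 9) p := by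
  have hpi := Real.pi_pos
  have o1 : -(5 * Real.pi / 18) ≤ BGeo.out μ / 2 := by unfold BGeo.out; linarith
  have o2 : BGeo.out μ / 2 ≤ Real.pi / 3 + 5 * Real.pi / 18 := by unfold BGeo.out; linarith
  have a1 : -(5 * Real.pi / 18) ≤ -BGeo.alpha μ := by unfold BGeo.alpha; linarith
  have a2 : -BGeo.alpha μ ≤ Real.pi / 3 + 5 * Real.pi / 18 := by unfold BGeo.alpha; linarith
  have s1 : -(5 * Real.pi / 18) ≤ -BGeo.sig μ := by unfold BGeo.sig; linarith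
  have s2 : -BGeo.sig μ ≤ Real.pi / 3 + 5 * Real.pi / 18 := by unfold BGeo.sig; linarith
  have z1 : -(5 * Real.pi / 18) ≤ (0 : ℝ) := by linarith
  have z2 : (0 : ℝ) ≤ Real.pi / 3 + 5 * Real.pi / 18 := by linarith
  intro p hp
  unfold blkV blkL at hp
  simp only [Multiset.mem_coe, List.mem_cons, List.not_mem_nil, or_false] at hp
  rcases hp with rfl | rfl | rfl | rfl | rfl | rfl | rfl | rfl | rfl | rfl | rfl | rfl | rfl | rfl |
    rfl | rfl | rfl | rfl | rfl | rfl | rfl | rfl | rfl | rfl | rfl | rfl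
  all_goals first
    | exact adm_ver z1 z2 (by norm_num) (by norm_num)
    | exact adm_ver o1 o2 (by norm_num) (by norm_num)
    | exact adm_ver a1 a2 (by norm_num) (by norm_num)
    | exact adm_ver s1 s2 (by norm_num) (by norm_num)

theorem adm_marks {X : Multiset VT} (hX : Mk1 X) : ∀ p ∈ X, Adm (1 / 9) p := by
  have hpi := Real.pi_pos
  have key : ∀ α ∈ Set.Ioo (0 : ℝ) 1, ∀ p ∈ mkPair α, Adm (1 / 9) p := by
    intro α hα p hp
    unfold mkPair at hp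
    simp only [Multiset.insert_eq_cons, Multiset.mem_cons, Multiset.mem_singleton] at hp
    have b1 : 0 ≤ α * (Real.pi / 3) := mul_nonneg hα.1.le (by positivity)
    have b2 : 0 ≤ (1 - α) * (Real.pi / 3) := mul_nonneg (by linarith [hα.2]) (by positivity)
    have b3 : (1 - α) * (Real.pi / 3) + α * (Real.pi / 3) = Real.pi / 3 := by ring
    rcases hp with rfl | rfl
    · exact adm_ver (by linarith) (by linarith) (by norm_num) (by norm_num)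
    · exact adm_ver (by linarith) (by linarith) (by norm_num) (by norm_num)
  intro p hp
  rcases hX with rfl | ⟨α, hα, rfl | rfl⟩
  · unfold mkNat at hp
    rw [Multiset.mem_singleton] at hp
    subst hp
    exact adm_ver (by linarith) (by linarith) (by norm_num) (by norm_num)
  · exact key α hα p hp
  · unfold mkFull at hp
    rw [Multiset.mem_add] at hp
    rcases hp with hp | hp
    · exact key α hα p hp
    · simp only [Multiset.insert_eq_cons, Multiset.mem_cons, Multiset.mem_singleton] at hp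
      rcases hp with rfl | rfl | rfl
      · exact adm_ver (by linarith) (by linarith) (by norm_num) (by norm_num)
      · exact adm_ver (by linarith) (by linarith) (by norm_num) (by norm_num)
      · exact ⟨by norm_num, by norm_num, Or.inr ⟨rfl, rfl⟩⟩

theorem adm_envV {μ : ℝ} (h1 : -(2 * (Real.pi / 3)) ≤ μ) (h2 : μ ≤ Real.pi) (b : ℕ)
    {X : Multiset VT} (hX : Mk1 X) : ∀ p ∈ envV μ b X, Adm (1 / 9) p := by
  have hpi := Real.pi_pos
  have z1 : -(5 * Real.pi / 18) ≤ (0 : ℝ) := by linarith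
  have z2 : (0 : ℝ) ≤ Real.pi / 3 + 5 * Real.pi / 18 := by linarith
  intro p hp
  unfold envV domV at hp
  simp only [Multiset.mem_add] at hp
  rcases hp with (hp | hp) | (hp | hp) | hp
  · exact adm_blkV h1 h2 p hp
  · exact adm_blkV (by linarith) (by linarith) p hp
  · rw [Multiset.eq_of_mem_replicate hp]
    exact adm_ver z1 z2 (by norm_num) (by norm_num)
  · rw [Multiset.eq_of_mem_replicate hp]
    exact adm_ver z1 z2 (by norm_num) (by norm_num)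
  · exact adm_marks hX p hp

/-! ## The numbers -/

theorem norm_aux {c C₁ C₂ : ℝ} (hc : 0 < c) (hC₁ : 0 ≤ C₁) (hC₂ : 0 ≤ C₂)
    {R ρ : ℕ} {M : Multiset VT} (h0 : 0 ≤ FP ρ M) (hsc : FP ρ M ≤ C₂ * FP R M) {zc : ℕ}
    {zE : ℝ} (hlow : Real.sqrt 3 ^ (zc / 2) * (c * FP R M) ≤ zE) :
    Real.sqrt 3 ^ zc * (C₁ * FP ρ M ^ 2) ≤ (Real.sqrt 3 * C₁ * C₂ ^ 2 / c ^ 2) * zE ^ 2 := by
  have h3 : (1 : ℝ) ≤ Real.sqrt 3 := Real.one_le_sqrt.mpr (by norm_num)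
  have h30 : (0 : ℝ) ≤ Real.sqrt 3 := zero_le_one.trans h3
  have e1 : 0 ≤ Real.sqrt 3 ^ (zc / 2) * FP ρ M := mul_nonneg (pow_nonneg h30 _) h0
  have e2 : Real.sqrt 3 ^ (zc / 2) * FP ρ M ≤ C₂ / c * zE := by
    rw [div_mul_eq_mul_div, le_div_iff₀ hc]
    calc Real.sqrt 3 ^ (zc / 2) * FP ρ M * c
        ≤ Real.sqrt 3 ^ (zc / 2) * (C₂ * FP R M) * c := by
          refine mul_le_mul_of_nonneg_right ?_ hc.le
          exact mul_le_mul_of_nonneg_left hsc (pow_nonneg h30 _)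
      _ = C₂ * (Real.sqrt 3 ^ (zc / 2) * (c * FP R M)) := by ring
      _ ≤ C₂ * zE := mul_le_mul_of_nonneg_left hlow hC₂
  have e3 : (Real.sqrt 3 ^ (zc / 2) * FP ρ M) ^ 2 ≤ (C₂ / c * zE) ^ 2 :=
    pow_le_pow_left₀ e1 e2 2
  have e4 : Real.sqrt 3 ^ zc ≤ Real.sqrt 3 * (Real.sqrt 3 ^ (zc / 2)) ^ 2 := by
    rw [← pow_mul, ← pow_succ']
    exact pow_le_pow_right₀ h3 (by omega)
  calc Real.sqrt 3 ^ zc * (C₁ * FP ρ M ^ 2)
      ≤ (Real.sqrt 3 * (Real.sqrt 3 ^ (zc / 2)) ^ 2) * (C₁ * FP ρ M ^ 2) :=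
        mul_le_mul_of_nonneg_right e4 (mul_nonneg hC₁ (sq_nonneg _))
    _ = Real.sqrt 3 * C₁ * (Real.sqrt 3 ^ (zc / 2) * FP ρ M) ^ 2 := by ring
    _ ≤ Real.sqrt 3 * C₁ * (C₂ / c * zE) ^ 2 :=
        mul_le_mul_of_nonneg_left e3 (mul_nonneg h30 hC₁)
    _ = _ := by field_simp

/-- **The norm inequality for `zU`, `zD`.** -/
theorem norm_UD {C C₁ K E : ℝ} (hC : 0 ≤ C) (hC₁ : 0 ≤ C₁) {ρ : ℕ} {MU MD M : Multiset VT}
    (hM : MU + MD = M) (h0 : 0 ≤ FP ρ M) (hst : FP ρ (mst M) ≤ C₁ * FP ρ M) {zc cu cd : ℕ}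
    (hcc : cu + cd ≤ zc) (hK : Real.sqrt 3 ^ zc * (C₁ * FP ρ M ^ 2) ≤ K * E ^ 2) {zU zD : ℝ}
    (hU : |zU| ≤ Real.sqrt 3 ^ cu * (C * (FP ρ MU * FP ρ (mst MU))))
    (hD : |zD| ≤ Real.sqrt 3 ^ cd * (C * (FP ρ MD * FP ρ (mst MD)))) :
    zU * zD ≤ (C + 1) ^ 2 * K * E ^ 2 := by
  have h3 : (1 : ℝ) ≤ Real.sqrt 3 := Real.one_le_sqrt.mpr (by norm_num)
  have h30 : (0 : ℝ) ≤ Real.sqrt 3 := zero_le_one.trans h3
  have hB : FP ρ M * FP ρ (mst M) ≤ C₁ * FP ρ M ^ 2 := by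
    have := mul_le_mul_of_nonneg_left hst h0
    calc _ ≤ FP ρ M * (C₁ * FP ρ M) := this
      _ = _ := by ring
  have hW : 0 ≤ C₁ * FP ρ M ^ 2 := mul_nonneg hC₁ (sq_nonneg _)
  have hX : 0 ≤ Real.sqrt 3 ^ zc * (C₁ * FP ρ M ^ 2) := mul_nonneg (pow_nonneg h30 _) hW
  have e1 : zU * zD ≤ |zU| * |zD| := by
    rw [← abs_mul]
    exact le_abs_self _
  have e2 : |zU| * |zD| ≤ (Real.sqrt 3 ^ cu * (C * (FP ρ MU * FP ρ (mst MU)))) *
      (Real.sqrt 3 ^ cd * (C * (FP ρ MD * FP ρ (mst MD)))) :=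
    mul_le_mul hU hD (abs_nonneg _) ((abs_nonneg _).trans hU)
  have e3 : (Real.sqrt 3 ^ cu * (C * (FP ρ MU * FP ρ (mst MU)))) *
      (Real.sqrt 3 ^ cd * (C * (FP ρ MD * FP ρ (mst MD)))) =
      C ^ 2 * (Real.sqrt 3 ^ (cu + cd) * (FP ρ M * FP ρ (mst M))) := by
    rw [← hM, FP_add, mst_add, FP_add, pow_add]
    ring
  rw [e3] at e2
  have e4 : Real.sqrt 3 ^ (cu + cd) * (FP ρ M * FP ρ (mst M)) ≤
      Real.sqrt 3 ^ zc * (C₁ * FP ρ M ^ 2) := by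
    calc _ ≤ Real.sqrt 3 ^ (cu + cd) * (C₁ * FP ρ M ^ 2) :=
          mul_le_mul_of_nonneg_left hB (pow_nonneg h30 _)
      _ ≤ _ := mul_le_mul_of_nonneg_right (pow_le_pow_right₀ h3 hcc) hW
  calc zU * zD ≤ C ^ 2 * (Real.sqrt 3 ^ zc * (C₁ * FP ρ M ^ 2)) :=
        (e1.trans e2).trans (mul_le_mul_of_nonneg_left e4 (sq_nonneg _))
    _ ≤ (C + 1) ^ 2 * (Real.sqrt 3 ^ zc * (C₁ * FP ρ M ^ 2)) := by
        refine mul_le_mul_of_nonneg_right ?_ hX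
        nlinarith
    _ ≤ (C + 1) ^ 2 * (K * E ^ 2) := mul_le_mul_of_nonneg_left hK (sq_nonneg _)
    _ = _ := by ring

/-- **The norm inequality for `zEE`.** -/
theorem norm_EE {C C₁ K E : ℝ} (hC : 0 ≤ C) (hC₁ : 0 ≤ C₁) {ρ : ℕ} {M : Multiset VT}
    (h0 : 0 ≤ FP ρ M) (hst : FP ρ (mst M) ≤ C₁ * FP ρ M) {zc ce : ℕ}
    (hce : ce ≤ zc) (hK : Real.sqrt 3 ^ zc * (C₁ * FP ρ M ^ 2) ≤ K * E ^ 2) {zEE : ℝ}
    (hEE : |zEE| ≤ Real.sqrt 3 ^ ce * (C * (FP ρ M * FP ρ (mst M)))) :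
    zEE ≤ (C + 1) ^ 2 * K * E ^ 2 := by
  have h3 : (1 : ℝ) ≤ Real.sqrt 3 := Real.one_le_sqrt.mpr (by norm_num)
  have h30 : (0 : ℝ) ≤ Real.sqrt 3 := zero_le_one.trans h3
  have hB : FP ρ M * FP ρ (mst M) ≤ C₁ * FP ρ M ^ 2 := by
    have := mul_le_mul_of_nonneg_left hst h0
    calc _ ≤ FP ρ M * (C₁ * FP ρ M) := this
      _ = _ := by ring
  have hW : 0 ≤ C₁ * FP ρ M ^ 2 := mul_nonneg hC₁ (sq_nonneg _)
  have hX : 0 ≤ Real.sqrt 3 ^ zc * (C₁ * FP ρ M ^ 2) := mul_nonneg (pow_nonneg h30 _) hW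
  calc zEE ≤ |zEE| := le_abs_self _
    _ ≤ Real.sqrt 3 ^ ce * (C * (FP ρ M * FP ρ (mst M))) := hEE
    _ ≤ Real.sqrt 3 ^ ce * (C * (C₁ * FP ρ M ^ 2)) :=
        mul_le_mul_of_nonneg_left (mul_le_mul_of_nonneg_left hB hC) (pow_nonneg h30 _)
    _ ≤ Real.sqrt 3 ^ zc * (C * (C₁ * FP ρ M ^ 2)) :=
        mul_le_mul_of_nonneg_right (pow_le_pow_right₀ h3 hce) (mul_nonneg hC hW)
    _ = C * (Real.sqrt 3 ^ zc * (C₁ * FP ρ M ^ 2)) := by ring
    _ ≤ (C + 1) ^ 2 * (Real.sqrt 3 ^ zc * (C₁ * FP ρ M ^ 2)) := by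
        refine mul_le_mul_of_nonneg_right ?_ hX
        nlinarith
    _ ≤ (C + 1) ^ 2 * (K * E ^ 2) := mul_le_mul_of_nonneg_left hK (sq_nonneg _)
    _ = _ := by ring

/-! ## The islands -/

section isl

variable {S : Slb} {X Y X0 : ℤ}

theorem nbd_eB (S : Slb) (X Y : ℤ) : ZCard.Nbd (S.env (RFb (0, 0) (bx S X Y)) X Y) :=
  ZCard.nbd_win (inBx S X Y) le_rfl

/-- the number of island sides does not depend on the shifts -/
theorem card_eB (h : S.Ok) (X Y : ℤ) : (eB S X Y).Z.card = (eB S 0 0).Z.card :=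
  ZCard.card_env h (nbd_eB S X Y) (nbd_eB S 0 0)

theorem card_hi_lo (S : Slb) : (UpE.zh (eB S 0 0) ((eB S 0 0).hi (S.yc + (S.a / 2 : ℕ)))).card +
    (UpE.zh (eB S 0 0) ((eB S 0 0).lo (S.yc - (S.a / 2 : ℕ)))).card ≤ (eB S 0 0).Z.card :=
  ZCard.card_parts (ZCard.hi_lo _ (by omega))

theorem card_lf (h : S.Ok) : (UpE.zh (eB S X Y) ((eB S X Y).lf X0)).card ≤ (eB S 0 0).Z.card := by
  rw [← card_eB h X Y]
  exact Finset.card_le_card (Finset.filter_subset _ _)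

end isl

/-! ## The theorem -/

/-- the types of a family and its marks -/
def FamIn : Prop := ∀ (P : Finset (ℤ × ℤ)) (L : ℕ) (g : ℤ → ℤ × ℤ), MPoly P → Cont P L g →
  ∀ {ι : Type} (l : Filter ι) (n : ι → ℕ), Tendsto n l atTop → ∀ j : ι → ℤ → ℝ, MFam L g l n j →
  ∃ X : Multiset VT, Mk1 X ∧ ∃ κ T K, FamTy P L g l n j X κ T K

/-- **`NormIn` from LOWER, UPPER and (N*).** -/
theorem normIn_of (hF : FamIn) (hL : LowFam) (hU : UpFam) (hS : StarIn) : NormIn := by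
  intro P L g hP hg ι l n hn j hj z0 hz0 D
  obtain ⟨X, hX, κ, T, K, hF⟩ := hF P L g hP hg l n hn j hj
  obtain ⟨c, hc, N, r1, hr1, hlow⟩ := hL P L g hP hg l n hn j hj X κ T K hX hF z0 hz0 D
  obtain ⟨r2, hr2, hup⟩ := hU P L g hP hg l n hn j hj X κ T K hX hF z0 hz0 D
  obtain ⟨C₁, hC₁, hst⟩ := hS (Cens.cc L g) X hX
  have hκ := D.hκ
  refine ⟨min (min r1 r2) (D.κ / 10 ^ 5), by positivity, fun z hz r hr hr' => ?_⟩
  obtain ⟨C, hC, N', hup⟩ := hup z hz r hr (hr'.trans_le ((min_le_left _ _).trans (min_le_right _ _)))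
  have hlow := hlow z hz r hr (hr'.trans_le ((min_le_left _ _).trans (min_le_left _ _)))
  have hok := D.slb_ok hn hz hr (hr'.trans_le (min_le_right _ _))
  obtain ⟨C₂, hC₂, hcmp⟩ := FP_cmp (t₀ := 1 / 9) (by norm_num) (by norm_num) (N + N')
    (52 + (4 + 2 * Cens.cc L g + X.card))
  refine ⟨(C + 1) ^ 2 * (Real.sqrt 3 * C₁ * C₂ ^ 2 / c ^ 2), ?_⟩
  filter_upwards [hlow, hup, hok] with i hi hui hoki
  obtain ⟨R, hR0, hRn, hRN, hlo⟩ := hi
  obtain ⟨ρ, hρ0, hρn, hρN, MU, MD, hM, hB⟩ := hui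
  set S := D.slb z r i with hSdef
  set M := envV S.mu (Cens.cc L g) X with hMdef
  have hadm : ∀ p ∈ M, Adm (1 / 9) p := adm_envV hoki.mu1 hoki.mu2 (Cens.cc L g) hX
  have hcard : M.card ≤ 52 + (4 + 2 * Cens.cc L g + X.card) := by
    rw [hMdef]
    unfold envV domV blkV blkL
    simp only [Multiset.card_add, Multiset.card_replicate, Multiset.coe_card, List.length_cons,
      List.length_nil]
    omega
  have hsc : FP ρ M ≤ C₂ * FP R M := by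
    refine hcmp M ρ R hcard hadm ?_ ?_
    · calc ρ ≤ n i := hρn
        _ ≤ N * R := hRN
        _ ≤ (N + N') * R := Nat.mul_le_mul_right _ (by omega)
    · calc R ≤ n i := hRn
        _ ≤ N' * ρ := hρN
        _ ≤ (N + N') * ρ := Nat.mul_le_mul_right _ (by omega)
  have h0 : 0 < FP R M := FP_pos (by norm_num) hadm R
  have h0' : 0 ≤ FP ρ M := FP_nonneg (by norm_num) hadm ρ
  have hlow' : Real.sqrt 3 ^ ((eB S 0 0).Z.card / 2) * (c * FP R M) ≤ zE S 0 0 :=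
    Rel.le_zE (ZCard.thk hoki ∅ 0 0) (inBx S 0 0) (bx_pos S 0 0) hlo
  have h3 : (0 : ℝ) < Real.sqrt 3 := Real.sqrt_pos.mpr (by norm_num)
  have hpos : 0 < zE S 0 0 :=
    lt_of_lt_of_le (mul_pos (pow_pos h3 _) (mul_pos hc h0)) hlow'
  have hst' : FP ρ (mst M) ≤ C₁ * FP ρ M := hst ρ hρ0 S.mu hoki.mu1 hoki.mu2
  have hK := norm_aux (C₁ := C₁) hc hC₁ (zero_le_one.trans hC₂) h0' hsc hlow'
  exact ⟨hpos, norm_UD hC hC₁ hM h0' hst' (card_hi_lo S) hK hB.u hB.d, fun x y hxy =>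
    norm_EE hC hC₁ h0' hst' (card_lf hoki) hK (hB.e x y hxy)⟩

end

end Pool.Agent.SixB.Asm3
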