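import Pool.Agent.Lib.SixB.S3PAtl
import Pool.Agent.Lib.SixB.S3EnvN

/-!
# 6BD step 3: the atlas of the polygon in the environment

* `PAtlas.Flat A`: all charts of a planar partial atlas are inclusions, there are no mouth charts.
* `Slb.Ok.eData`: the data of the embedding of `S.D` in `S.env W 0 0`.
* `farS`: sides at distance more than `ρ` from the closed slab; `EData.pushFlat`: a flat atlas of `D` covers in `E`
  the images of the sides at distance more than `3 r + 2` from the closed slab.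
-/

set_option autoImplicit false
set_option linter.unusedSectionVars false

namespace Pool.Agent.SixB

open Pool.Agent.Perc.Q Pool.Agent.Perc

noncomputable section

/-- planar partial atlas by inclusions, without mouths -/
structure PAtlas.Flat {D : Finset (ℤ × ℤ)} {ψ : (ℤ × ℤ) × (ℤ × ℤ) → ℝ}
    {Z C : Finset ((ℤ × ℤ) × (ℤ × ℤ))} {r nS nN : ℕ} {t₀ : ℝ}
    (A : PAtlas ZQ D ψ Z C r nS nN t₀) : Prop where
  s : ∀ i a, (A.ch i).side a = a
  n : ∀ i a, (A.nch i).side a = a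
  sF : ∀ i f, (A.ch i).φF f = f
  nF : ∀ i f, (A.nch i).φF f = f
  mu : IsEmpty A.μ

/-- vertex at sup distance at most `ρ` from the closed slab -/
def nearS (x₁ x₂ s₁ s₂ : ℤ) (ρ : ℕ) (v : ℤ × ℤ) : Prop :=
  x₁ - ρ ≤ v.1 ∧ v.1 ≤ x₂ + ρ ∧ s₁ - ρ ≤ v.2 ∧ v.2 ≤ s₂ + ρ

instance (x₁ x₂ s₁ s₂ : ℤ) (ρ : ℕ) (v : ℤ × ℤ) : Decidable (nearS x₁ x₂ s₁ s₂ ρ v) := by
  unfold nearS; infer_instance

theorem dz_cases (o : ZMod 4) : dz o = (1, 0) ∨ dz o = (0, 1) ∨ dz o = (-1, 0) ∨ dz o = (0, -1) := by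
  rcases zm4_cases o with rfl | rfl | rfl | rfl
  · exact Or.inl dz0
  · exact Or.inr (Or.inl dz1)
  · exact Or.inr (Or.inr (Or.inl dz2))
  · exact Or.inr (Or.inr (Or.inr dz3))

/-- the ends of the sides of a wall of length `r` are within `r` of the centre -/
theorem wall_near {o e : ZMod 4} {v : ℤ × ℤ} {r : ℕ} {a : (ℤ × ℤ) × (ℤ × ℤ)}
    (ha : a ∈ wIn e v r ∪ wOut o v r) :
    v.1 - r ≤ a.1.1 ∧ a.1.1 ≤ v.1 + r ∧ v.2 - r ≤ a.1.2 ∧ a.1.2 ≤ v.2 + r := by
  rw [Finset.mem_union, mem_wIn, mem_wOut] at ha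
  rcases ha with ⟨t, ht, rfl⟩ | ⟨t, ht, rfl⟩
  · rcases dz_cases e with h | h | h | h <;> rw [h] <;> simp <;> omega
  · rcases dz_cases o with h | h | h | h <;> rw [h] <;> simp <;> omega

theorem offS_of_far {x₁ x₂ s₁ s₂ : ℤ} {a : (ℤ × ℤ) × (ℤ × ℤ)} (h : ¬ nearS x₁ x₂ s₁ s₂ 0 a.1) :
    OffS x₁ x₂ s₁ s₂ a := by
  refine offS_of (fun h1 => h ?_)
  unfold nearS
  simp only [Nat.cast_zero, sub_zero, add_zero]
  exact ⟨h1.1, h1.2.1, h1.2.2.1, h1.2.2.2.1⟩

section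

variable {E : SEnv} {D : Finset (ℤ × ℤ)} {x₁ x₂ w₁ w₂ s₁ s₂ : ℤ} {ψ : (ℤ × ℤ) × (ℤ × ℤ) → ℝ}
  {ZD CD : Finset ((ℤ × ℤ) × (ℤ × ℤ))} {r nS nN : ℕ} {t₀ : ℝ}

open Classical in
/-- the covered sides -/
def farC (x₁ x₂ s₁ s₂ : ℤ) (ρ : ℕ) (CD : Finset ((ℤ × ℤ) × (ℤ × ℤ))) : Finset ((ℤ × ℤ) × (ℤ × ℤ)) :=
  CD.filter fun a => ¬ nearS x₁ x₂ s₁ s₂ ρ a.1

/-- **the flat atlas of `D` in the environment**: natural charts near the slab are dropped -/
def EData.pushFlat (h : EData E D x₁ x₂ w₁ w₂ s₁ s₂) (A : PAtlas ZQ D ψ ZD CD r nS nN t₀) (hA : A.Flat)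
    (hS : ∀ i, ¬ nearS x₁ x₂ s₁ s₂ (4 * r + 1) (A.v i)) (mu ρu ml ρl : ℝ) :
    PAtlas E.Q E.F (E.psi mu ρu ml ρl ψ ψ) E.Z
      ((farC x₁ x₂ s₁ s₂ (3 * r + 1) CD).image h.emb.side) r nS nN t₀ :=
  PAtlas.push A (h.keeps mu ρu ml ρl ψ) (fun f _ g _ hfg => h.emb_injF hfg) (fun _ => True)
    (fun i => ¬ nearS x₁ x₂ s₁ s₂ (2 * r + 1) (A.v' i)) (fun _ => True)
    (by
      intro i _ a ha
      rw [hA.s]
      have h1 := wall_near ha
      have h2 := hS i
      refine offS_of_far (fun h3 => h2 ?_)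
      unfold nearS at h3 ⊢
      push_cast at *
      omega)
    (by
      intro i hi a ha
      rw [hA.n]
      have h1 := wall_near ha
      refine offS_of_far (fun h3 => hi ?_)
      unfold nearS at h3 ⊢
      push_cast at *
      omega)
    (by
      intro i _
      exact hA.mu.elim i)
    (by
      classical
      intro a ha
      rw [Finset.mem_image] at ha
      obtain ⟨b, hb, rfl⟩ := ha
      unfold farC at hb
      rw [Finset.mem_filter] at hb
      obtain ⟨hb1, hb2⟩ := hb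
      rcases A.cover b hb1 with ⟨i, h1⟩ | ⟨i, h1⟩ | ⟨i, _⟩
      · exact Or.inl ⟨i, trivial, b, h1, rfl⟩
      · refine Or.inr (Or.inl ⟨i, ?_, b, h1, rfl⟩)
        intro h2
        refine hb2 ?_
        unfold WChart.walls at h1
        rw [Finset.mem_image] at h1
        obtain ⟨s, hs, h3⟩ := h1
        rw [hA.n] at h3
        subst h3
        have h4 := wall_near hs
        unfold nearS at h2 ⊢
        push_cast at *
        omega
      · exact hA.mu.elim i)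

end

/-! ## The environments of a slab -/

theorem shF_zero (S : Finset (ℤ × ℤ)) : shF 0 S = S := by
  unfold shF
  have h : shv 0 = id := by
    funext v
    unfold shv
    simp
  rw [h, Finset.image_id]

theorem shP_zero (ψ : (ℤ × ℤ) × (ℤ × ℤ) → ℝ) : shP 0 ψ = ψ := by
  funext s
  unfold shP shv
  simp

variable {S : Slb} {W : Finset (ℤ × ℤ)}

/-- the embedding of the polygon of a slab in its environment -/
theorem Slb.Ok.eData (h : S.Ok) (hW : SixB.slab S.x1 S.x2 (S.yc - S.a) (S.yc + S.a) ⊆ W) :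
    EData (S.env W 0 0) S.D S.x1 S.x2 (S.yc - S.k) (S.yc + S.k) (S.yc - S.a) (S.yc + S.a) := by
  have h1 := h.ha
  have h2 := h.hak
  refine ⟨h.poly, h.slab, by omega, by omega, by omega, ?_, ?_, ?_, ?_, ?_, ?_, ?_, ?_, ?_, ?_, hW⟩
  · show shF 0 S.Up = _
    rw [shF_zero]; rfl
  · show shF 0 S.Lo = _
    rw [shF_zero]; rfl
  · show S.x1 + 0 = S.x1
    ring
  · show S.x2 + 0 = S.x2
    ring
  · rfl
  · show S.a < 3 * S.k + (S.x2 - S.x1).toNat
    omega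
  · show S.x1 + 0 = S.x1
    ring
  · show S.x2 + 0 = S.x2
    ring
  · rfl
  · show S.a < 3 * S.k + (S.x2 - S.x1).toNat
    omega

theorem Slb.ph_zero : S.ph W 0 0 = (S.env W 0 0).psi S.mu S.ρr S.ml S.ρl S.ψ S.ψ := by
  unfold Slb.ph
  rw [shP_zero]

end

end Pool.Agent.SixB
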