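import Pool.Agent.Lib.SixB.S3PolyFam
import Pool.Agent.Lib.SixB.S3EmbD

/-!
# 6BD step 3, row R8, part 5: flat partial atlases of a polygon

* `polyAtlas_flat`: `polyAtlas` is flat.
* For the mirrored half (row R6): `polyM`: partial atlas without the marked kinds, its natural charts leave room for the
  charts `Spc.che` (radius `4 r + 1`, centre `G (x + 1)` = other end of the marked side); it covers all sides except
  the `2 r` walls of the charts `che`; `che_e`, `che_em`: phases; `che_sdisj`, `che_ndisj`, `che_cdisj`: disjointness.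
* `wl G y t`: the `t` walls at the contour vertex `y`.
-/

set_option autoImplicit false
set_option linter.unusedSectionVars false

namespace Pool.Agent.SixB.PolyAtl

open Pool.Agent.Perc.Q Pool.Agent.Perc

noncomputable section

variable {P : Finset (ℤ × ℤ)} {N n : ℕ} {G : ℤ → ℤ × ℤ} {j : ℤ → ℝ}
  {ψ : (ℤ × ℤ) × (ℤ × ℤ) → ℝ} {S : Finset ℤ} {K : ℤ → SK} {r : ℕ} {t₀ : ℝ}

theorem polyAtlas_flat (h : Spc P n N G j ψ S K r t₀) {nS nN : ℕ} (h1 : S.card ≤ nS)
    (h2 : N / r + 1 + 2 * S.card ≤ nN) : (polyAtlas h h1 h2).toP.Flat where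
  s := fun _ _ => rfl
  n := fun _ _ => rfl
  sF := fun _ _ => rfl
  nF := fun _ _ => rfl
  mu := inferInstanceAs (IsEmpty Empty)

/-- marked kinds -/
def mkb : SK → Bool
  | .ver _ => false
  | .e => true
  | .em => true

theorem mkb_iff {K : SK} : mkb K = true ↔ SK.mk' K := by
  cases K <;> simp [mkb, SK.mk']

/-- centre of the chart in the mirrored half -/
def ctr (K : ℤ → SK) (x : ℤ) : ℤ := if mkb (K x) then x + 1 else x

theorem ctr_cases (K : ℤ → SK) (x : ℤ) : (mkb (K x) = true ∧ ctr K x = x + 1) ∨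
    (mkb (K x) = false ∧ ctr K x = x) := by
  unfold ctr
  cases h : mkb (K x)
  · right; simp
  · left; simp

/-- walls at a contour vertex -/
def wl (G : ℤ → ℤ × ℤ) (y : ℤ) (t : ℕ) : Finset ((ℤ × ℤ) × (ℤ × ℤ)) :=
  wIn (dd G y + mm G y) (G y) t ∪ wOut (dd G y) (G y) t

theorem ct_wl (hc : Cont (rf n P) N G) (hn : 0 < n) (k : ℤ) (ρ : ℕ) (hρ : ρ ≤ n)
    (hs : Stt G k ρ) (t : ℕ) : (ctChart hc hn k ρ hρ hs).walls t = wl G k t := Finset.image_id

theorem mem_wl (hc : Cont (rf n P) N G) (hn : 0 < n) {k : ℤ} {ρ : ℕ} (hρ : ρ ≤ n)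
    (hs : Stt G k ρ) {t : ℕ} (ht : t ≤ ρ) {a : (ℤ × ℤ) × (ℤ × ℤ)} :
    a ∈ wl G k t ↔ ∃ i : ℤ, k - t ≤ i ∧ i < k + t ∧ a = (G i, G (i + 1)) := by
  rw [← ct_wl hc hn k ρ hρ hs]
  exact ct_walls hc hn k ρ hρ hs t ht

namespace Spc

/-- the centres -/
def Sc (S : Finset ℤ) (K : ℤ → SK) : Finset ℤ := S.image (ctr K)

theorem sepc (h : Spc P n N G j ψ S K r t₀) {y y' : ℤ} (hy : y ∈ Sc S K) (hy' : y' ∈ Sc S K) {q : ℤ}
    (hq : y ≠ y' ∨ q ≠ 0) : 31 * (r : ℤ) ≤ |y - y' + q * N| := by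
  unfold Sc at hy hy'
  rw [Finset.mem_image] at hy hy'
  obtain ⟨x, hx, rfl⟩ := hy
  obtain ⟨x', hx', rfl⟩ := hy'
  have hr := h.hr
  have h1 : x ≠ x' ∨ q ≠ 0 := by
    rcases hq with hq | hq
    · exact Or.inl fun h2 => hq (by rw [h2])
    · exact Or.inr hq
  have h2 := h.sep x hx x' hx' q h1
  rw [le_abs] at h2 ⊢
  rcases ctr_cases K x with ⟨-, h3⟩ | ⟨-, h3⟩ <;> rcases ctr_cases K x' with ⟨-, h4⟩ | ⟨-, h4⟩ <;>
    rw [h3, h4] <;> omega

theorem farM (h : Spc P n N G j ψ S K r t₀) {c k : ℤ} (hc : Far N (Sc S K) r c)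
    (h1 : c - (2 * r + 1 : ℤ) < k) (h2 : k < c + (2 * r + 1 : ℤ)) : mm G k = 2 ∧ j k = 0 := by
  by_contra hh
  obtain ⟨x, hx, q, h5⟩ := h.spec k (by tauto)
  have hr := h.hr
  have h7 := hc (ctr K x) (Finset.mem_image_of_mem _ hx) (-q)
  rw [le_abs, neg_mul] at h7
  rcases ctr_cases K x with ⟨h3, h4⟩ | ⟨h3, h4⟩
  · rw [h4] at h7
    rcases h5 with h5 | ⟨-, h5⟩ <;> omega
  · rw [h4] at h7
    rcases h5 with h5 | ⟨h6, h5⟩
    · omega
    · rw [← mkb_iff, h3] at h6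
      cases h6

theorem fsttM (h : Spc P n N G j ψ S K r t₀) {c : ℤ} (hc : Far N (Sc S K) r c) :
    Stt G c (2 * r + 1) :=
  fun i h1 h2 _ => mm_two.1 (h.farM hc (by push_cast at h1; omega) (by push_cast at h2; omega)).1

/-- natural chart of the mirrored half -/
def natcM (h : Spc P n N G j ψ S K r t₀) {c : ℤ} (hc : Far N (Sc S K) r c) :
    WChart ZQ (rf n P) (mm G c) (dd G c) (G c) (2 * r + 1) :=
  ctChart h.hc h.n0 c (2 * r + 1) (by have := h.hr; have := h.hn; omega) (h.fsttM hc)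

theorem njumpM (h : Spc P n N G j ψ S K r t₀) {c : ℤ} (hc : Far N (Sc S K) r c) :
    (h.natcM hc).Jump ψ 0 := by
  have h1 := h.farM hc (k := c) (by have := h.hr; omega) (by have := h.hr; omega)
  have h2 := ctJump h.hc h.n0 h.hψ c (2 * r + 1) (by have := h.hr; have := h.hn; omega)
    (h.fsttM hc) (fun i h3 h4 _ => (h.farM hc (by push_cast at h3; omega)
      (by push_cast at h4; omega)).2)
  rw [h1.2] at h2
  exact h2

theorem mm_farM (h : Spc P n N G j ψ S K r t₀) {c : ℤ} (hc : Far N (Sc S K) r c) : mm G c = 2 :=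
  (h.farM hc (by have := h.hr; omega) (by have := h.hr; omega)).1

theorem cenM_far (h : Spc P n N G j ψ S K r t₀) {c : ℤ} (hc : c ∈ cen N (Sc S K) r) :
    Far N (Sc S K) r c := by
  have hr := h.hr
  have key : ∀ x ∈ Sc S K, ∀ s : ℤ, |s| = 3 * r → Far N (Sc S K) r (x + s) := by
    intro x hx s hs y hy q
    by_cases h1 : x ≠ y ∨ q ≠ 0
    · have h2 := h.sepc hx hy h1
      rw [le_abs] at h2 ⊢
      have h3 := neg_abs_le s
      have h4 := le_abs_self s
      rw [hs] at h3 h4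
      omega
    · push Not at h1
      obtain ⟨rfl, rfl⟩ := h1
      rw [zero_mul, add_zero, add_sub_cancel_left, hs]
  unfold cen at hc
  rw [Finset.mem_union, Finset.mem_union] at hc
  rcases hc with hc | hc | hc
  · exact (Finset.mem_filter.1 hc).2
  · obtain ⟨x, hx, rfl⟩ := Finset.mem_image.1 hc
    exact key x hx _ (by rw [abs_of_nonneg (by positivity)])
  · obtain ⟨x, hx, rfl⟩ := Finset.mem_image.1 hc
    rw [sub_eq_add_neg]
    exact key x hx _ (by rw [abs_neg, abs_of_nonneg (by positivity)])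

/-- the arms at the centre are straight -/
theorem sttc (h : Spc P n N G j ψ S K r t₀) {x : ℤ} (hx : x ∈ S) {ρ : ℕ} (hρ : ρ ≤ 31 * r) :
    Stt G (ctr K x) ρ := by
  have hr := h.hr
  rcases ctr_cases K x with ⟨h3, h4⟩ | ⟨h3, h4⟩
  · rw [h4]
    rw [mkb_iff] at h3
    intro i h1 h2 h5
    refine mm_two.1 ?_
    by_cases h6 : i = x
    · subst h6
      rcases h3 with h3 | h3
      · exact (h.ke i hx h3).1
      · exact (h.kem i hx h3).1
    · exact (h.near hx (by omega) (by omega) h6 (fun _ => h5)).1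
  · rw [h4]
    exact h.stt hx (by omega)

/-- disjointness from a natural chart -/
theorem ndisj1 (h : Spc P n N G j ψ S K r t₀) {c y : ℤ} (h4 : Stt G y (6 * r))
    (hc : ∀ q : ℤ, 3 * (r : ℤ) ≤ |c - y + q * N|) :
    Disjoint (Wdg (mm G c) (dd G c) (G c) (2 * r)) (Wdg (mm G y) (dd G y) (G y) r) := by
  rw [Finset.disjoint_left]
  intro f h1 h2
  rw [PolyAtl.mem_Wdg] at h1 h2
  have hr := h.hr
  have hn := h.hn
  obtain ⟨⟨a1, a2, a3, a4⟩, -⟩ := h1
  obtain ⟨⟨b1, b2, b3, b4⟩, -⟩ := h2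
  push_cast at a1 a2 a3 a4 b1 b2 b3 b4
  obtain ⟨q, hq⟩ := h.hch y c (3 * r) (by omega) (by rw [abs_le]; omega) (by rw [abs_le]; omega)
  have h3 := hc (-q)
  rw [neg_mul, ← sub_eq_add_neg] at h3
  have h5 : G (c - q * N) = G c := by
    rw [sub_eq_add_neg, ← neg_mul]
    exact h.hc.per_mul _ _
  rw [abs_le] at hq
  rcases le_total 0 (c - y - q * N) with h6 | h6
  · obtain ⟨t, ht⟩ := Int.eq_ofNat_of_zero_le h6
    rw [ht, abs_of_nonneg (by omega)] at h3
    have h7 := arm_out h.hc h4 t (by omega)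
    rw [show y + (t : ℤ) = c - q * N by omega, h5] at h7
    rw [h7] at a1 a2 a3 a4
    rcases c4 (dd G y) with e | e | e | e <;> rw [e] at a1 a2 a3 a4 <;>
      first
      | (rw [PolyAtl.dz0] at a1 a2 a3 a4; simp at a1 a2 a3 a4; omega)
      | (rw [PolyAtl.dz1] at a1 a2 a3 a4; simp at a1 a2 a3 a4; omega)
      | (rw [PolyAtl.dz2] at a1 a2 a3 a4; simp at a1 a2 a3 a4; omega)
      | (rw [PolyAtl.dz3] at a1 a2 a3 a4; simp at a1 a2 a3 a4; omega)
  · obtain ⟨t, ht⟩ := Int.eq_ofNat_of_zero_le (by omega : 0 ≤ -(c - y - q * N))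
    rw [abs_of_nonpos (by omega), ht] at h3
    have h7 := arm_in h.hc h4 t (by omega)
    rw [show y - (t : ℤ) = c - q * N by omega, h5] at h7
    rw [h7] at a1 a2 a3 a4
    rcases c4 (dd G (y - 1)) with e | e | e | e <;> rw [e] at a1 a2 a3 a4 <;>
      first
      | (rw [PolyAtl.dz0] at a1 a2 a3 a4; simp at a1 a2 a3 a4; omega)
      | (rw [PolyAtl.dz1] at a1 a2 a3 a4; simp at a1 a2 a3 a4; omega)
      | (rw [PolyAtl.dz2] at a1 a2 a3 a4; simp at a1 a2 a3 a4; omega)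
      | (rw [PolyAtl.dz3] at a1 a2 a3 a4; simp at a1 a2 a3 a4; omega)

/-- disjointness of two special boxes -/
theorem sdisj1 (h : Spc P n N G j ψ S K r t₀) {x y : ℤ}
    (hxy : ∀ q : ℤ, 17 * (r : ℤ) ≤ |x - y + q * N|) :
    Disjoint (Wdg (mm G x) (dd G x) (G x) (4 * r)) (Wdg (mm G y) (dd G y) (G y) (4 * r)) := by
  rw [Finset.disjoint_left]
  intro f h1 h2
  rw [PolyAtl.mem_Wdg] at h1 h2
  have hr := h.hr
  have hn := h.hn
  obtain ⟨⟨a1, a2, a3, a4⟩, -⟩ := h1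
  obtain ⟨⟨b1, b2, b3, b4⟩, -⟩ := h2
  push_cast at a1 a2 a3 a4 b1 b2 b3 b4
  obtain ⟨q, hq⟩ := h.hch y x (8 * r) (by omega) (by rw [abs_le]; omega) (by rw [abs_le]; omega)
  have h3 := hxy (-q)
  rw [neg_mul, ← sub_eq_add_neg] at h3
  omega

/-- **chart of a marked side centred at its other end** -/
def che (h : Spc P n N G j ψ S K r t₀) {x : ℤ} (hx : x ∈ S) (hK : mkb (K x) = true) :
    WChart ZQ (rf n P) (mm G (x + 1)) (dd G (x + 1)) (G (x + 1)) (4 * r + 1) :=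
  ctChart h.hc h.n0 (x + 1) (4 * r + 1) (by have := h.hr; have := h.hn; omega)
    (by
      have h1 := h.sttc hx (ρ := 4 * r + 1) (by have := h.hr; omega)
      unfold ctr at h1
      rwa [if_pos hK] at h1)

theorem che_walls (h : Spc P n N G j ψ S K r t₀) {x : ℤ} (hx : x ∈ S) (hK : mkb (K x) = true)
    (t : ℕ) : (h.che hx hK).walls t = wl G (x + 1) t := Finset.image_id

theorem che_box (h : Spc P n N G j ψ S K r t₀) {x : ℤ} (hx : x ∈ S) (hK : mkb (K x) = true)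
    (t : ℕ) : (h.che hx hK).box t = Wdg (mm G (x + 1)) (dd G (x + 1)) (G (x + 1)) t :=
  Finset.image_id

theorem mem_wl_che (h : Spc P n N G j ψ S K r t₀) {x : ℤ} (hx : x ∈ S) (hK : mkb (K x) = true)
    {t : ℕ} (ht : t ≤ 4 * r + 1) {a : (ℤ × ℤ) × (ℤ × ℤ)} : a ∈ wl G (x + 1) t ↔
      ∃ i : ℤ, x + 1 - t ≤ i ∧ i < x + 1 + t ∧ a = (G i, G (i + 1)) := by
  have h1 := h.sttc hx (ρ := 4 * r + 1) (by have := h.hr; omega)
  unfold ctr at h1
  rw [if_pos hK] at h1
  exact mem_wl h.hc h.n0 (by have := h.hr; have := h.hn; omega) h1 ht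

/-- phases of `che`, common part -/
theorem che_ph (h : Spc P n N G j ψ S K r t₀) {x : ℤ} (hx : x ∈ S) (hK : mkb (K x) = true)
    (h2 : mm G x = 2) (h3 : mm G (x + 1) = 2) :
    (∀ a ∈ (wIn (dd G (x + 1) + mm G (x + 1)) (G (x + 1)) (4 * r + 1)).erase (G x, G (x + 1)),
      ψ a = ψ (G (x - 1), G x)) ∧
    ψ (G x, G (x + 1)) = ψ (G (x - 1), G x) + j x ∧
    ∀ a ∈ wOut (dd G (x + 1)) (G (x + 1)) (4 * r + 1),
      ψ a = ψ (G (x - 1), G x) + j x + j (x + 1) := by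
  have hr := h.hr
  have hs := h.sttc hx (ρ := 4 * r + 1) (by omega)
  unfold ctr at hs
  rw [if_pos hK] at hs
  have hm : ∀ i, x + 1 - (4 * r + 1 : ℤ) < i → i < x + 1 + (4 * r + 1 : ℤ) → i ≠ x → i ≠ x + 1 →
      mm G i = 2 ∧ j i = 0 := fun i h4 h5 h6 h7 => h.near hx (by omega) (by omega) h6 (fun _ => h7)
  have e2 := h.hψ x
  have e3 := h.hψ (x + 1)
  rw [PolyAtl.crs_eq h.hc, h2] at e2
  rw [PolyAtl.crs_eq h.hc, h3, add_sub_cancel_right] at e3
  push_cast at e2 e3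
  refine ⟨?_, by linarith, ?_⟩
  · intro a ha
    rw [Finset.mem_erase, wIn_eq h.hc hs] at ha
    obtain ⟨hne, t, ht, rfl⟩ := ha
    have ht0 : t ≠ 0 := by
      rintro rfl
      apply hne
      simp
    have := ph_const h.hc h.hψ (a := x + 1 - t - 1) (b := x - 1) (by omega)
      (fun i h4 h5 => hm i (by omega) (by omega) (by omega) (by omega))
    rw [sub_add_cancel, sub_add_cancel] at this
    exact this.symm
  · intro a ha
    rw [wOut_eq h.hc hs] at ha
    obtain ⟨t, ht, rfl⟩ := ha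
    have := ph_const h.hc h.hψ (a := x + 1) (b := x + 1 + t) (by omega)
      (fun i h4 h5 => hm i (by omega) (by omega) (by omega) (by omega))
    rw [this]
    linarith

/-- the marked side is the first side of the wall `wIn` of `che` -/
theorem che_side (h : Spc P n N G j ψ S K r t₀) (x : ℤ) :
    (G x, G (x + 1)) = (G (x + 1) + dz (dd G (x + 1) + mm G (x + 1)), G (x + 1)) := by
  have h1 := dd_spec' h.hc (x + 1)
  rw [add_sub_cancel_right] at h1
  rw [dm, dz_two, add_sub_cancel_right, ← sub_eq_add_neg, ← h1]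

theorem che_e (h : Spc P n N G j ψ S K r t₀) {x : ℤ} (hx : x ∈ S) (hK : K x = .e) :
    mm G (x + 1) = 2 ∧ ∃ p : ℝ,
      (∀ a ∈ (wIn (dd G (x + 1) + mm G (x + 1)) (G (x + 1)) (4 * r + 1)).erase (G x, G (x + 1)),
        ψ a = p) ∧ ψ (G x, G (x + 1)) = p - Real.pi / 3 ∧
      ∀ a ∈ wOut (dd G (x + 1)) (G (x + 1)) (4 * r + 1), ψ a = p - 2 * (Real.pi / 3) := by
  obtain ⟨h1, h2, h3, h4⟩ := h.ke x hx hK
  obtain ⟨h5, h6, h7⟩ := h.che_ph hx (by rw [hK]; rfl) h1 h2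
  refine ⟨h2, _, h5, ?_, ?_⟩
  · rw [h6, h3]; ring
  · intro a ha
    rw [h7 a ha, h3, h4]; ring

theorem che_em (h : Spc P n N G j ψ S K r t₀) {x : ℤ} (hx : x ∈ S) (hK : K x = .em) :
    mm G (x + 1) = 2 ∧ ∃ p : ℝ,
      (∀ a ∈ (wIn (dd G (x + 1) + mm G (x + 1)) (G (x + 1)) (4 * r + 1)).erase (G x, G (x + 1)),
        ψ a = p) ∧ ψ (G x, G (x + 1)) = p + Real.pi / 3 ∧
      ∀ a ∈ wOut (dd G (x + 1)) (G (x + 1)) (4 * r + 1), ψ a = p + 2 * (Real.pi / 3) := by
  obtain ⟨h1, h2, h3, h4⟩ := h.kem x hx hK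
  obtain ⟨h5, h6, h7⟩ := h.che_ph hx (by rw [hK]; rfl) h1 h2
  refine ⟨h2, _, h5, ?_, ?_⟩
  · rw [h6, h3]
  · intro a ha
    rw [h7 a ha, h3, h4]; ring

/-- the sides covered by `polyM` -/
def CM (P : Finset (ℤ × ℤ)) (n : ℕ) (G : ℤ → ℤ × ℤ) (S : Finset ℤ) (K : ℤ → SK) (r : ℕ) :
    Finset ((ℤ × ℤ) × (ℤ × ℤ)) :=
  (bS ZQ (rf n P)).filter fun a => ∀ x ∈ S, mkb (K x) = true → a ∉ wl G (x + 1) (2 * r)

theorem Sc_card (S : Finset ℤ) (K : ℤ → SK) : (Sc S K).card ≤ S.card := Finset.card_image_le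

end Spc

open Spc

/-- **partial atlas without the marked sides, for the mirrored half** -/
def polyM (h : Spc P n N G j ψ S K r t₀) {nS nN : ℕ}
    (h1 : (S.filter fun x => mkb (K x) = false).card ≤ nS)
    (h2 : N / r + 1 + 2 * S.card ≤ nN) :
    PAtlas ZQ (rf n P) ψ (bS ZQ (rf n P)) (CM P n G S K r) r nS nN t₀ where
  κ := {x // x ∈ S.filter fun x => mkb (K x) = false}
  K := fun x => K x
  m := fun x => mm G x
  o := fun x => dd G x
  v := fun x => G x
  ch := fun x => h.sch (Finset.mem_filter.1 x.2).1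
  m_rng := fun x => mm_rng h.hc x
  jmp := fun x => h.sjump (Finset.mem_filter.1 x.2).1
  tpos := fun x J hJ => (h.ver x (Finset.mem_filter.1 x.2).1 J hJ).2
  disj := fun x y hxy => by
    rw [Spc.sch, Spc.sch, ct_box, ct_box]
    exact h.sdisj (Finset.mem_filter.1 x.2).1 (Finset.mem_filter.1 y.2).1
      (fun h3 => hxy (Subtype.ext h3))
  cardS := by rw [Fintype.card_coe]; exact h1
  chZ := fun x => (h.sch (Finset.mem_filter.1 x.2).1).walls_bS (by omega)
  ι := {c // c ∈ cen N (Sc S K) r}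
  m' := fun c => mm G c
  o' := fun c => dd G c
  v' := fun c => G c
  nch := fun c => h.natcM (h.cenM_far c.2)
  m'_rng := fun c => mm_rng h.hc c
  njmp := fun c => Or.inl (h.njumpM (h.cenM_far c.2))
  nZ := fun c => (h.natcM (h.cenM_far c.2)).walls_bS (by omega)
  ndisj := fun c x => by
    rw [Spc.sch, Spc.natcM, ct_box, ct_box]
    have hx := Finset.mem_filter.1 x.2
    refine h.ndisj1 (h.stt hx.1 (by have := h.hr; omega)) (fun q => ?_)
    have h3 := h.cenM_far c.2 (ctr K x) (Finset.mem_image_of_mem _ hx.1) q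
    unfold ctr at h3
    rwa [hx.2, if_neg (by simp)] at h3
  cardN := by
    rw [Fintype.card_coe]
    refine (cen_card N (Sc S K) r).trans ?_
    have := Sc_card S K
    omega
  μ := Empty
  lf := fun i => i.elim
  w := fun i => i.elim
  h := fun i => i.elim
  l := fun i => i.elim
  mch := fun i => i.elim
  h_lt := fun i => i.elim
  mnat := fun i => i.elim
  mZ := fun i => i.elim
  mdisj := fun i => i.elim
  cardM := by simp
  cover := by
    rintro ⟨p, q⟩ ha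
    unfold CM at ha
    rw [Finset.mem_filter, bS_iff_lside] at ha
    obtain ⟨ha, hne⟩ := ha
    obtain ⟨k, hk, hk'⟩ := h.hc.all _ _ ha
    have hk1 : (p, q) = (G k, G (k + 1)) := by rw [hk, hk']
    have hp : ∀ s : ℤ, (G (k + s * N), G (k + s * N + 1)) = (p, q) := by
      intro s
      rw [hk1, show k + s * N + 1 = k + 1 + s * N by ring, h.hc.per_mul, h.hc.per_mul]
    rcases cover_gen h.hc.pos (by have := h.hr; omega : 0 < r) (Sc S K) k with
      ⟨y, hy, s, h3, h4⟩ | ⟨c, hc, s, h3, h4⟩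
    · obtain ⟨x, hx, rfl⟩ := Finset.mem_image.1 hy
      rcases ctr_cases K x with ⟨h5, h6⟩ | ⟨h5, h6⟩
      · exfalso
        rw [h6] at h3 h4
        apply hne x hx h5
        rw [h.mem_wl_che hx h5 (by omega)]
        exact ⟨k + s * N, by push_cast; linarith, by push_cast; linarith, (hp s).symm⟩
      · rw [h6] at h3 h4
        refine Or.inl ⟨⟨x, Finset.mem_filter.2 ⟨hx, h5⟩⟩, ?_⟩
        rw [Spc.sch, ct_walls _ _ _ _ _ _ _ (by omega)]
        exact ⟨k + s * N, by push_cast; linarith, by push_cast; linarith, (hp s).symm⟩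
    · refine Or.inr (Or.inl ⟨⟨c, hc⟩, ?_⟩)
      rw [Spc.natcM, ct_walls _ _ _ _ _ _ _ (by omega)]
      exact ⟨k + s * N, by linarith, by linarith, (hp s).symm⟩

end

end Pool.Agent.SixB.PolyAtl
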