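import Pool.Agent.Lib.SixB.S3PolyFlat
import Pool.Agent.Lib.SixB.S3Star
import Pool.Agent.Lib.SixB.S3AsmGeo

/-!
# 6BD step 3, row R8, part 6: the types of the special vertices of a polygon

* `vts_polyAtlas`, `pvts_polyM`: the types are `(K x, mm G x)`, `x ∈ S`.
* `nConc L g`: number of concave corners; `corners_count`: the number of convex corners is `4 + nConc L g`.
* `types_of`: for `posS` they are `domV (nConc L g) marks`.
* `fam_types`: the three families, with `Mk X`.
-/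

set_option autoImplicit false
set_option linter.unusedSectionVars false

namespace Pool.Agent.SixB.PolyAtl

open Pool.Agent.Perc.Q Pool.Agent.Perc Filter Topology Pool.Agent.SixB.St

noncomputable section

/-- types of a set of positions -/
def typS (G : ℤ → ℤ × ℤ) (S : Finset ℤ) (K : ℤ → SK) : Multiset VT :=
  S.val.map fun x => (K x, mm G x)

theorem tys_sub {S : Finset ℤ} (K : ℤ → SK) (m : ℤ → ℕ) :
    tys (fun x : {x // x ∈ S} => K x) (fun x => m x) = S.val.map fun x => (K x, m x) := by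
  unfold tys
  have h : Multiset.map (Subtype.val : {x // x ∈ S} → ℤ) (Finset.univ : Finset {x // x ∈ S}).val =
      S.val := by
    rw [Finset.univ_eq_attach, Finset.attach_val, Multiset.attach_map_val]
  conv_rhs => rw [← h, Multiset.map_map]
  rfl

section

variable {P : Finset (ℤ × ℤ)} {N n : ℕ} {G : ℤ → ℤ × ℤ} {j : ℤ → ℝ}
  {ψ : (ℤ × ℤ) × (ℤ × ℤ) → ℝ} {S : Finset ℤ} {K : ℤ → SK} {r : ℕ} {t₀ : ℝ}

theorem vts_polyAtlas (h : Spc P n N G j ψ S K r t₀) {nS nN : ℕ} (h1 : S.card ≤ nS)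
    (h2 : N / r + 1 + 2 * S.card ≤ nN) : vts (polyAtlas h h1 h2) = typS G S K :=
  tys_sub K (mm G)

theorem pvts_polyM (h : Spc P n N G j ψ S K r t₀) {nS nN : ℕ}
    (h1 : (S.filter fun x => mkb (K x) = false).card ≤ nS)
    (h2 : N / r + 1 + 2 * S.card ≤ nN) :
    pvts (polyM h h1 h2) = typS G (S.filter fun x => mkb (K x) = false) K :=
  tys_sub K (mm G)

end

variable {P : Finset (ℤ × ℤ)} {L n : ℕ} {g : ℤ → ℤ × ℤ}

/-- number of concave corners -/
def nConc (L : ℕ) (g : ℤ → ℤ × ℤ) : ℕ := ((Finset.range L).filter fun a : ℕ => mm g a = 3).card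

theorem corners_count (hP : MPoly P) (hg : Cont P L g) :
    ((Finset.range L).filter fun a : ℕ => mm g a = 1).card = 4 + nConc L g := by
  obtain ⟨ν, h1, h2, h3, -⟩ := hP.disc hg
  have h4 : ∀ M : ℕ, ∑ a ∈ Finset.range M, crs g a = ν ((M : ℤ) - 1) - ν (-1) := by
    intro M
    induction M with
    | zero => simp
    | succ M ih =>
      rw [Finset.sum_range_succ, ih, Asm3.crs_eq h1 h3]
      push_cast
      rw [add_sub_cancel_right]
      ring
  have h5 : ∑ a ∈ Finset.range L, crs g a = 4 := by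
    rw [h4, show (L : ℤ) - 1 = -1 + L by ring, h2]
    ring
  have h6 : ∀ a : ℕ, crs g a = (if mm g a = 1 then 1 else 0) - if mm g a = 3 then 1 else 0 := by
    intro a
    rw [PolyAtl.crs_eq hg]
    have := mm_rng hg a
    obtain ⟨m, hm⟩ : ∃ m, mm g a = m := ⟨_, rfl⟩
    rw [hm] at this ⊢
    obtain ⟨h7, h8⟩ := this
    interval_cases m <;> simp
  have h7 : ∑ a ∈ Finset.range L, crs g a =
      (((Finset.range L).filter fun a : ℕ => mm g a = 1).card : ℤ) - nConc L g := by
    rw [Finset.sum_congr rfl fun a _ => h6 a, Finset.sum_sub_distrib, Finset.sum_boole,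
      Finset.sum_boole]
    rfl
  rw [h5] at h7
  omega

theorem mm_mul (hg : Cont P L g) (hn : 0 < n) (a : ℤ) : mm (gr n g) (n * a) = mm g a := by
  have hn0 : (0 : ℤ) < n := by exact_mod_cast hn
  unfold mm
  rw [dd_gr hg hn, dd_gr hg hn, Int.mul_ediv_cancel_left _ hn0.ne',
    (CARf.div_eq_iff' hn (a := a - 1)).2 ⟨by nlinarith, by linarith⟩]

theorem cor_types (hP : MPoly P) (hg : Cont P L g) :
    Multiset.map (fun a : CorI L g => ((SK.ver 0, mm g ((a : ℕ) : ℤ)) : VT))
      (Finset.univ : Finset (CorI L g)).val =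
      Multiset.replicate (4 + nConc L g) (.ver 0, 1) + Multiset.replicate (nConc L g) (.ver 0, 3) := by
  have h0 : Multiset.map (Subtype.val : CorI L g → ℕ) (Finset.univ : Finset (CorI L g)).val =
      ((Finset.range L).filter fun a : ℕ => mm g a ≠ 2).val := by
    rw [Finset.univ_eq_attach, Finset.attach_val, Multiset.attach_map_val]
  have h1 : Multiset.map (fun a : CorI L g => ((SK.ver 0, mm g ((a : ℕ) : ℤ)) : VT))
      (Finset.univ : Finset (CorI L g)).val = ((Finset.range L).filter fun a : ℕ => mm g a ≠ 2).val.map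
        (fun a : ℕ => ((SK.ver 0, mm g a) : VT)) := by
    rw [← h0, Multiset.map_map]
    rfl
  have h2 : (Finset.range L).filter (fun a : ℕ => mm g a ≠ 2) =
      Finset.disjUnion ((Finset.range L).filter fun a : ℕ => mm g a = 1)
        ((Finset.range L).filter fun a : ℕ => mm g a = 3) (by
          rw [Finset.disjoint_left]
          intro a ha hb
          have h3 := (Finset.mem_filter.1 ha).2
          have h4 := (Finset.mem_filter.1 hb).2
          omega) := by
    ext a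
    rw [Finset.mem_disjUnion, Finset.mem_filter, Finset.mem_filter, Finset.mem_filter]
    have := mm_rng hg a
    constructor
    · rintro ⟨h3, h4⟩
      rcases (by omega : mm g a = 1 ∨ mm g a = 3) with h5 | h5
      · exact Or.inl ⟨h3, h5⟩
      · exact Or.inr ⟨h3, h5⟩
    · rintro (⟨h3, h4⟩ | ⟨h3, h4⟩)
      · exact ⟨h3, by omega⟩
      · exact ⟨h3, by omega⟩
  have h3 : ∀ c : ℕ, ((Finset.range L).filter fun a : ℕ => mm g a = c).val.map
      (fun a : ℕ => ((SK.ver 0, mm g a) : VT)) =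
      Multiset.replicate ((Finset.range L).filter fun a : ℕ => mm g a = c).card (.ver 0, c) := by
    intro c
    rw [Multiset.map_congr rfl (g := fun _ => ((SK.ver 0, c) : VT))]
    · rw [Multiset.map_const']
      rfl
    · intro a ha
      have ha' : a ∈ (Finset.range L).filter fun a : ℕ => mm g a = c := ha
      rw [(Finset.mem_filter.1 ha').2]
  rw [h1, h2, Finset.disjUnion_val, Multiset.map_add, h3, h3, corners_count hP hg]
  rfl

theorem types_of (hP : MPoly P) (hg : Cont P L g) {m r : ℕ} {p : Fin m → ℤ} {j : ℤ → ℝ}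
    {Ee Em : Finset ℤ} (hr : 2 ≤ r) (hrn : 16 * r ≤ n)
    (hsep : ∀ a a' : CorI L g ⊕ Fin m, ∀ q : ℤ, a ≠ a' ∨ q ≠ 0 →
      32 * (r : ℤ) ≤ |posA n L g p a - posA n L g p a' + q * ((n * L : ℕ) : ℤ)|)
    (hj : ∀ k, j k ≠ 0 → ∃ t, ∃ q : ℤ, k = p t + q * ((n * L : ℕ) : ℤ) ∨
      ((p t ∈ Ee ∨ p t ∈ Em) ∧ k = p t + 1 + q * ((n * L : ℕ) : ℤ)))
    (hE : ∀ x ∈ Ee ∪ Em, ∃ t, x = p t) :
    typS (gr n g) (posS n L g p) (kd Ee Em j) =
      domV (nConc L g) ((Finset.univ : Finset (Fin m)).val.map fun t => (kd Ee Em j (p t), 2)) := by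
  have hn : 0 < n := by omega
  have hinj : Function.Injective (posA n L g p) := by
    intro a a' h
    by_contra hne
    have h1 := hsep a a' 0 (Or.inl hne)
    rw [h, sub_self, zero_mul, add_zero, abs_zero] at h1
    omega
  have hcor : ∀ t : Fin m, mm (gr n g) (p t) = 2 := by
    intro t
    by_contra hh
    obtain ⟨a, h1, h2, q, h3⟩ := mm_gr hg hn hh
    have h4 := hsep (Sum.inr t) (Sum.inl ⟨a, Finset.mem_filter.2 ⟨Finset.mem_range.2 h1, h2⟩⟩) (-q)
      (Or.inl (by simp))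
    simp only [posA, Sum.elim_inl, Sum.elim_inr] at h4
    rw [show p t - (n : ℤ) * a + -q * ((n * L : ℕ) : ℤ) = 0 by linarith, abs_zero] at h4
    omega
  have hk : ∀ a : CorI L g, kd Ee Em j ((n : ℤ) * (a : ℕ)) = .ver 0 := by
    intro a
    have h1 : (n : ℤ) * (a : ℕ) ∉ Ee ∪ Em := by
      intro h2
      obtain ⟨t, ht⟩ := hE _ h2
      have := hinj (a₁ := Sum.inl a) (a₂ := Sum.inr t) ht
      cases this
    rw [Finset.mem_union, not_or] at h1
    unfold kd
    rw [if_neg h1.1, if_neg h1.2]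
    congr 1
    by_contra hh
    obtain ⟨t, q, h1⟩ := hj _ hh
    have h4 := hsep (Sum.inr t) (Sum.inl a) q (Or.inl (by simp))
    simp only [posA, Sum.elim_inl, Sum.elim_inr] at h4
    rcases h1 with h1 | ⟨-, h1⟩
    · rw [show p t - (n : ℤ) * (a : ℕ) + q * ((n * L : ℕ) : ℤ) = 0 by linarith, abs_zero] at h4
      omega
    · rw [show p t - (n : ℤ) * (a : ℕ) + q * ((n * L : ℕ) : ℤ) = -1 by linarith, abs_neg,
        abs_one] at h4
      omega
  unfold typS posS domV
  rw [Finset.image_val_of_injOn hinj.injOn, Multiset.map_map, ← Finset.univ_disjSum_univ]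
  simp only [Finset.disjSum, Multiset.disjSum, Multiset.map_add, Multiset.map_map]
  rw [← cor_types hP hg]
  congr 1
  · refine Multiset.map_congr rfl fun a _ => ?_
    simp only [Function.comp, posA, Sum.elim_inl]
    rw [hk, mm_mul hg hn]
  · refine Multiset.map_congr rfl fun t _ => ?_
    simp only [Function.comp, posA, Sum.elim_inr]
    rw [hcor]

/-! ## The three families -/

theorem core_ev (hg : Cont P L g) {ι : Type} {l : Filter ι} {n : ι → ℕ} (hn : Tendsto n l atTop)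
    {m : ℕ} {s : Fin m → ℝ} (h1 : Function.Injective s)
    (h2 : ∀ t t', s t < s t' + L) (h3 : ∀ t, Fl g (s t)) {p : ι → Fin m → ℤ}
    (hp : ∀ t, Tendsto (fun i => (p i t : ℝ) / n i) l (𝓝 (s t))) :
    ∀ᶠ i in l, 16 * 2 ≤ n i ∧ ∀ a a' : CorI L g ⊕ Fin m, ∀ q : ℤ, a ≠ a' ∨ q ≠ 0 →
        32 * ((2 : ℕ) : ℤ) ≤ |posA (n i) L g (p i) a - posA (n i) L g (p i) a' +
          q * ((n i * L : ℕ) : ℤ)| := by
  obtain ⟨κ, hκ, hev⟩ := fam_core hg hn h1 h2 h3 hp
  filter_upwards [hev, hn.eventually (eventually_ge_atTop ⌈2 / κ⌉₊)] with i hi hni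
  refine hi 2 le_rfl ?_
  have h4 := Nat.ceil_le.1 hni
  rw [div_le_iff₀ hκ] at h4
  push_cast
  linarith

theorem nat_types (hP : MPoly P) (hg : Cont P L g) {ι : Type} {l : Filter ι} {n : ι → ℕ}
    (hn : Tendsto n l atTop) {s : ℝ} {b : ι → ℤ} (hs : Fl g s)
    (hb : Tendsto (fun i => (b i : ℝ) / n i) l (𝓝 s)) :
    ∀ᶠ i in l, typS (gr (n i) g) (posS (n i) L g ![b i]) (kd ∅ ∅ (jN (n i * L) (b i))) =
      domV (nConc L g) mkNat := by
  have hL : (0 : ℝ) < L := by exact_mod_cast hg.pos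
  filter_upwards [core_ev hg hn (s := ![s]) (p := fun i => ![b i])
    (Function.injective_of_subsingleton _)
    (by intro t t'; rw [Subsingleton.elim t t']; linarith)
    (by intro t; fin_cases t; exact hs) (by intro t; fin_cases t; exact hb)] with i hi
  obtain ⟨h1, h2⟩ := hi
  have hpw : List.Pairwise (fun p q : ℤ × ℝ => ¬ ((n i * L : ℕ) : ℤ) ∣ p.1 - q.1)
      [(b i, Real.pi / 3)] := by simp
  rw [jN_jl]
  rw [types_of hP hg le_rfl h1 h2 _ (by simp)]
  · congr 1
    rw [Fin.univ_val_map]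
    have := jl_mem hpw (p := (b i, Real.pi / 3)) (by simp)
    simp only at this
    push_cast at this
    simp [kd, mkNat, this]
  · intro k hk
    obtain ⟨p, hp, c, hc⟩ := jl_ne hk
    rw [List.mem_singleton] at hp
    subst hp
    refine ⟨0, c, Or.inl ?_⟩
    simp only at hc
    change k = b i + _
    linarith

theorem pair_types (hP : MPoly P) (hg : Cont P L g) {ι : Type} {l : Filter ι} {n : ι → ℕ}
    (hn : Tendsto n l atTop) {α s s' : ℝ} {b b' : ι → ℤ} (hs : Fl g s) (hs' : Fl g s')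
    (h1 : s < s') (h2 : s' < s + L) (hb : Tendsto (fun i => (b i : ℝ) / n i) l (𝓝 s))
    (hb' : Tendsto (fun i => (b' i : ℝ) / n i) l (𝓝 s')) :
    ∀ᶠ i in l, typS (gr (n i) g) (posS (n i) L g ![b i, b' i])
      (kd ∅ ∅ (jP (n i * L) α (b i) (b' i))) = domV (nConc L g) (mkPair α) := by
  have hL : (0 : ℝ) < L := by exact_mod_cast hg.pos
  filter_upwards [core_ev hg hn (s := ![s, s']) (p := fun i => ![b i, b' i])
    (by
      intro t t' h
      fin_cases t <;> fin_cases t' <;> simp at h ⊢ <;> linarith)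
    (by
      intro t t'
      fin_cases t <;> fin_cases t' <;> simp <;> first | exact hg.pos | linarith)
    (by
      intro t
      fin_cases t
      · exact hs
      · exact hs')
    (by
      intro t
      fin_cases t
      · exact hb
      · exact hb')] with i hi
  obtain ⟨h1, h2⟩ := hi
  have hpw : List.Pairwise (fun p q : ℤ × ℝ => ¬ ((n i * L : ℕ) : ℤ) ∣ p.1 - q.1)
      [(b i, (1 - α) * (Real.pi / 3)), (b' i, α * (Real.pi / 3))] := by
    have := not_dvd_of_sep le_rfl h2 (t := 0) (t' := 1) (by decide) (x := 0) (by simp)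
    simpa using this
  rw [jP_jl]
  rw [types_of hP hg le_rfl h1 h2 _ (by simp)]
  · congr 1
    rw [Fin.univ_val_map]
    have e1 := jl_mem hpw (p := (b i, (1 - α) * (Real.pi / 3))) (by simp)
    have e2 := jl_mem hpw (p := (b' i, α * (Real.pi / 3))) (by simp)
    simp only at e1 e2
    simp only [List.ofFn_succ, List.ofFn_zero, kd, mkPair, Finset.notMem_empty, if_false]
    change ((_, _) ::ₘ {(_, _)} : Multiset VT) = _
    simp only [Matrix.cons_val_zero, Matrix.cons_val_succ, Matrix.cons_val_fin_one, e1, e2]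
    rfl
  · intro k hk
    obtain ⟨p, hp, c, hc⟩ := jl_ne hk
    simp only [List.mem_cons, List.not_mem_nil, or_false] at hp
    rcases hp with rfl | rfl
    · refine ⟨0, c, Or.inl ?_⟩
      simp only at hc
      change k = b i + _
      linarith
    · refine ⟨1, c, Or.inl ?_⟩
      simp only at hc
      change k = b' i + _
      linarith

theorem full_types (hP : MPoly P) (hg : Cont P L g) {ι : Type} {l : Filter ι} {n : ι → ℕ}
    (hn : Tendsto n l atTop) {α t₁ t₂ t₂' t₃ t₄ : ℝ} {b₁ b₂ b₂' b₃ k : ι → ℤ}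
    (hm : Marks5 L g t₁ t₂ t₂' t₃ t₄) (h₁ : Tendsto (fun i => (b₁ i : ℝ) / n i) l (𝓝 t₁))
    (h₂ : Tendsto (fun i => (b₂ i : ℝ) / n i) l (𝓝 t₂))
    (h₂' : Tendsto (fun i => (b₂' i : ℝ) / n i) l (𝓝 t₂'))
    (h₃ : Tendsto (fun i => (b₃ i : ℝ) / n i) l (𝓝 t₃))
    (h₄ : Tendsto (fun i => (k i : ℝ) / n i) l (𝓝 t₄)) :
    ∀ᶠ i in l, typS (gr (n i) g) (posS (n i) L g ![b₁ i, b₂ i, b₂' i, b₃ i, k i])
      (kd {k i} ∅ (jX (n i * L) α (b₁ i) (b₂ i) (b₂' i) (b₃ i) (k i))) =
        domV (nConc L g) (mkFull α) := by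
  have hL : (0 : ℝ) < L := by exact_mod_cast hg.pos
  obtain ⟨m1, m2, m3, m4, m5, f1, f2, f3, f4, f5⟩ := hm
  filter_upwards [core_ev hg hn (s := ![t₁, t₂, t₂', t₃, t₄])
    (p := fun i => ![b₁ i, b₂ i, b₂' i, b₃ i, k i])
    (by
      intro t t' h
      fin_cases t <;> fin_cases t' <;> simp at h ⊢ <;> linarith)
    (by
      intro t t'
      fin_cases t <;> fin_cases t' <;> simp <;> first | exact hg.pos | linarith)
    (by
      intro t
      fin_cases t
      · exact f1
      · exact f2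
      · exact f3
      · exact f4
      · exact f5)
    (by
      intro t
      fin_cases t
      · exact h₁
      · exact h₂
      · exact h₂'
      · exact h₃
      · exact h₄)] with i hi
  obtain ⟨h1, h2⟩ := hi
  have hd := fun (t t' : Fin 5) (h : t ≠ t') (x : ℤ) (hx : |x| ≤ 1) =>
    not_dvd_of_sep le_rfl h2 h hx
  have d1 : b₁ i ≠ k i := by
    intro h
    apply hd 0 4 (by decide) 0 (by simp)
    simp [h]
  have d2 : b₂ i ≠ k i := by
    intro h
    apply hd 1 4 (by decide) 0 (by simp)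
    simp [h]
  have d3 : b₂' i ≠ k i := by
    intro h
    apply hd 2 4 (by decide) 0 (by simp)
    simp [h]
  have d4 : b₃ i ≠ k i := by
    intro h
    apply hd 3 4 (by decide) 0 (by simp)
    simp [h]
  rw [jX_jl]
  have hpw : List.Pairwise (fun p q : ℤ × ℝ => ¬ ((n i * L : ℕ) : ℤ) ∣ p.1 - q.1)
      (l6 α (b₁ i) (b₂ i) (b₂' i) (b₃ i) (k i)) := by
    simp only [l6, List.pairwise_cons, List.mem_cons, List.not_mem_nil, or_false,
      forall_eq_or_imp, forall_eq, List.Pairwise.nil, and_true, IsEmpty.forall_iff, implies_true]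
    refine ⟨⟨?_, ?_, ?_, ?_, ?_⟩, ⟨?_, ?_, ?_, ?_⟩, ⟨?_, ?_, ?_⟩, ⟨?_, ?_⟩, ?_⟩
    · simpa using hd 0 1 (by decide) 0 (by simp)
    · simpa using hd 0 2 (by decide) 0 (by simp)
    · simpa using hd 0 3 (by decide) 0 (by simp)
    · simpa using hd 0 4 (by decide) 0 (by simp)
    · simpa using hd 0 4 (by decide) 1 (by simp)
    · simpa using hd 1 2 (by decide) 0 (by simp)
    · simpa using hd 1 3 (by decide) 0 (by simp)
    · simpa using hd 1 4 (by decide) 0 (by simp)
    · simpa using hd 1 4 (by decide) 1 (by simp)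
    · simpa using hd 2 3 (by decide) 0 (by simp)
    · simpa using hd 2 4 (by decide) 0 (by simp)
    · simpa using hd 2 4 (by decide) 1 (by simp)
    · simpa using hd 3 4 (by decide) 0 (by simp)
    · simpa using hd 3 4 (by decide) 1 (by simp)
    · have := not_dvd_one le_rfl h2 4 (x := -1) (by simp) (by simp)
      rwa [show k i - (k i + 1) = -1 by ring]
  rw [types_of hP hg le_rfl h1 h2]
  · congr 1
    rw [Fin.univ_val_map]
    have e1 := jl_mem hpw (p := (b₁ i, Real.pi / 3)) (by simp)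
    have e2 := jl_mem hpw (p := (b₂ i, (1 - α) * (Real.pi / 3))) (by simp)
    have e3 := jl_mem hpw (p := (b₂' i, α * (Real.pi / 3))) (by simp)
    have e4 := jl_mem hpw (p := (b₃ i, Real.pi / 3)) (by simp)
    simp only [l6] at e1 e2 e3 e4
    have hl : List.ofFn (fun t : Fin 5 => ((kd {k i} ∅ (jl ((n i * L : ℕ) : ℤ)
        [(b₁ i, Real.pi / 3), (b₂ i, (1 - α) * (Real.pi / 3)), (b₂' i, α * (Real.pi / 3)),
          (b₃ i, Real.pi / 3), (k i, -(Real.pi / 3)), (k i + 1, -(Real.pi / 3))])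
        ((![b₁ i, b₂ i, b₂' i, b₃ i, k i] : Fin 5 → ℤ) t), 2) : VT)) =
        [(.ver (Real.pi / 3), 2), (.ver ((1 - α) * (Real.pi / 3)), 2),
          (.ver (α * (Real.pi / 3)), 2), (.ver (Real.pi / 3), 2), (.e, 2)] := by
      push_cast at e1 e2 e3 e4
      simp [List.ofFn_succ, kd, e1, e2, e3, e4, d1, d2, d3, d4]
    rw [hl]
    exact Multiset.coe_eq_coe.2 (List.perm_middle (l₁ := [(SK.ver ((1 - α) * (Real.pi / 3)), 2),
      (SK.ver (α * (Real.pi / 3)), 2)]) (a := (SK.ver (Real.pi / 3), 2))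
      (l₂ := [(SK.ver (Real.pi / 3), 2), (SK.e, 2)])).symm
  · intro x hx
    obtain ⟨p, hp, c, hc⟩ := jl_ne hx
    simp only [List.mem_cons, List.not_mem_nil, or_false] at hp
    rcases hp with rfl | rfl | rfl | rfl | rfl | rfl
    · exact ⟨0, c, Or.inl (by simp only at hc; change x = b₁ i + _; linarith)⟩
    · exact ⟨1, c, Or.inl (by simp only at hc; change x = b₂ i + _; linarith)⟩
    · exact ⟨2, c, Or.inl (by simp only at hc; change x = b₂' i + _; linarith)⟩
    · exact ⟨3, c, Or.inl (by simp only at hc; change x = b₃ i + _; linarith)⟩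
    · exact ⟨4, c, Or.inl (by simp only at hc; change x = k i + _; linarith)⟩
    · refine ⟨4, c, Or.inr ⟨Or.inl (Finset.mem_singleton.2 rfl), ?_⟩⟩
      simp only at hc
      change x = k i + 1 + _
      linarith
  · intro x hx
    rw [Finset.union_empty, Finset.mem_singleton] at hx
    exact ⟨4, hx⟩

/-- **special positions and types of the three families** -/
theorem fam_types (hP : MPoly P) (hg : Cont P L g) {ι : Type} {l : Filter ι} {n : ι → ℕ}
    (hn : Tendsto n l atTop) {j : ι → ℤ → ℝ} (hj : MFam L g l n j) :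
    ∃ κ : ℝ, 0 < κ ∧ ∃ (S : ι → Finset ℤ) (K : ι → ℤ → SK) (X : Multiset VT), Mk X ∧
      (∀ i, (S i).card ≤ L + 5) ∧ ∀ᶠ i in l,
        typS (gr (n i) g) (S i) (K i) = domV (nConc L g) X ∧
        ∀ r : ℕ, ∀ ψ, 2 ≤ r → (r : ℝ) ≤ κ * n i → Jmps (gr (n i) g) (j i) ψ →
          Spc P (n i) (n i * L) (gr (n i) g) (j i) ψ (S i) (K i) r 1 := by
  cases hj with
  | nat s b hs hb =>
    obtain ⟨κ, hκ, h⟩ := nat_spc hg hn hs hb
    exact ⟨κ, hκ, _, _, _, Or.inl rfl, fun i => (posS_card _ _ _ _).trans (by omega),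
      (nat_types hP hg hn hs hb).and h⟩
  | pair α s s' b b' hα hs hs' h1 h2 hb hb' =>
    obtain ⟨κ, hκ, h⟩ := pair_spc hg hn (Set.Ioo_subset_Icc_self hα) hs hs' h1 h2 hb hb'
    exact ⟨κ, hκ, _, _, _, Or.inr ⟨α, hα.1.le, hα.2.le, Or.inl rfl⟩,
      fun i => (posS_card _ _ _ _).trans (by omega),
      (pair_types hP hg hn hs hs' h1 h2 hb hb').and h⟩
  | full α t₁ t₂ t₂' t₃ t₄ b₁ b₂ b₂' b₃ k hα hm h₁ h₂ h₂' h₃ h₄ =>
    obtain ⟨κ, hκ, h⟩ := full_spc hg hn (Set.Ioo_subset_Icc_self hα) hm h₁ h₂ h₂' h₃ h₄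
    exact ⟨κ, hκ, _, _, _, Or.inr ⟨α, hα.1.le, hα.2.le, Or.inr rfl⟩,
      fun i => (posS_card _ _ _ _).trans (by omega),
      (full_types hP hg hn hm h₁ h₂ h₂' h₃ h₄).and h⟩

end

end Pool.Agent.SixB.PolyAtl
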