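import Pool.Agent.Lib.SixB.S3OutE
import Pool.Agent.Lib.SixB.S3MthDP

/-!
# 6BD step 3, R10: the outer atlas of an environment

* `Kap.base_cases`: the island sides of the base faces: covered by the outer atlas, or at the height of the slab
  between the halves of the two tubes next to the polygon.
* `OWin`, `kap_of`: the hypotheses for the environment of a slab.
* `Zsplit`: the island sides. `outer`: the outer atlas.
-/

set_option autoImplicit false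
set_option linter.unusedSectionVars false
set_option maxRecDepth 4000

namespace Pool.Agent.SixB.BlkW

open Pool.Agent.Perc.Q Pool.Agent.Perc Pool.Agent.SixB.EnvB

noncomputable section

variable {E : SEnv} {r R : ℕ} {mu ρu ml ρl t₀ : ℝ} {ψu ψl : (ℤ × ℤ) × (ℤ × ℤ) → ℝ} {f : ℤ × ℤ}
  {x y : ℤ} {k : ZMod 4}

/-- the walls to the right of a face -/
theorem Kap.case1 (h : Kap E r) (hf : (x, y) ∈ E.base)
    (hz : E.gu.solid true (x + 1, y) ∨ E.gd.solid false (x + 1, y)) : bsd (x, y) 1 ∈ Cout E r := by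
  have h1 := h.ar
  have h2 := h.rk
  have h3 := h.hb
  have h4 := h.hc
  have h5 := h.a0
  have h6 := h.hx
  rw [solid_iff h.g] at hz
  rw [base_iff h.g] at hf
  unfold BGeo.cham at hf hz
  simp only at hf hz
  have key : ((x = E.gu.x2 + 6 * E.gu.k - 1 ∨ x = E.gu.x2 + 3 * E.gu.k - 1 ∨ x = E.gu.x1 - E.gu.k - 1 ∨
      x = E.gu.x1 - 4 * E.gu.k - 1) ∧ ((E.gu.yc + E.gu.a ≤ y ∧ y < E.gu.yc + E.gu.b) ∨
        (E.gu.yc - E.gu.b ≤ y ∧ y < E.gu.yc - E.gu.a))) ∨ (x = E.gu.x1 - 7 * E.gu.k - 1 ∧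
      ((E.gu.yc + E.gu.a ≤ y ∧ y < E.gu.yc + E.gu.c) ∨
        (E.gu.yc - E.gu.c ≤ y ∧ y < E.gu.yc - E.gu.a))) := by
    omega
  rcases key with ⟨rfl | rfl | rfl | rfl, h7 | h7⟩ | ⟨rfl, h7 | h7⟩
  · exact h.cu1 y h7.1 h7.2
  · exact h.cl1 y h7.1 h7.2
  · exact h.cu4 y h7.1 h7.2
  · exact h.cl4 y h7.1 h7.2
  · exact h.cu7 y h7.1 h7.2
  · exact h.cl7 y h7.1 h7.2
  · exact h.cu10 y h7.1 h7.2
  · exact h.cl10 y h7.1 h7.2
  · exact h.cu13 y h7.1 h7.2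
  · exact h.cl13 y h7.1 h7.2

/-- the walls to the left of a face -/
theorem Kap.case3 (h : Kap E r) (hf : (x, y) ∈ E.base)
    (hz : E.gu.solid true (x - 1, y) ∨ E.gd.solid false (x - 1, y)) : bsd (x, y) 3 ∈ Cout E r := by
  have h1 := h.ar
  have h2 := h.rk
  have h3 := h.hb
  have h4 := h.hc
  have h5 := h.a0
  have h6 := h.hx
  rw [solid_iff h.g] at hz
  rw [base_iff h.g] at hf
  unfold BGeo.cham at hf hz
  simp only at hf hz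
  have key : ((x = E.gu.x2 + 4 * E.gu.k ∨ x = E.gu.x2 + E.gu.k ∨ x = E.gu.x1 - 3 * E.gu.k ∨
      x = E.gu.x1 - 6 * E.gu.k) ∧ ((E.gu.yc + E.gu.a ≤ y ∧ y < E.gu.yc + E.gu.b) ∨
        (E.gu.yc - E.gu.b ≤ y ∧ y < E.gu.yc - E.gu.a))) ∨ (x = E.gu.x2 + 7 * E.gu.k ∧
      ((E.gu.yc + E.gu.a ≤ y ∧ y < E.gu.yc + E.gu.c) ∨
        (E.gu.yc - E.gu.c ≤ y ∧ y < E.gu.yc - E.gu.a))) := by
    omega
  rcases key with ⟨rfl | rfl | rfl | rfl, h7 | h7⟩ | ⟨rfl, h7 | h7⟩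
  · exact h.cu3 y h7.1 h7.2
  · exact h.cl3 y h7.1 h7.2
  · exact h.cu6 y h7.1 h7.2
  · exact h.cl6 y h7.1 h7.2
  · exact h.cu9 y h7.1 h7.2
  · exact h.cl9 y h7.1 h7.2
  · exact h.cu12 y h7.1 h7.2
  · exact h.cl12 y h7.1 h7.2
  · exact h.cu0 y h7.1 h7.2
  · exact h.cl0 y h7.1 h7.2

/-- the ceilings -/
theorem Kap.case2 (h : Kap E r) (hf : (x, y) ∈ E.base)
    (hz : E.gu.solid true (x, y + 1) ∨ E.gd.solid false (x, y + 1)) : bsd (x, y) 2 ∈ Cout E r ∨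
      (y = E.gu.yc + E.gu.a - 1 ∧ E.gu.x1 - BlkW.hf E ≤ x ∧ x < E.gu.x2 + BlkW.hf E) := by
  have h1 := h.ar
  have h2 := h.rk
  have h3 := h.hb
  have h4 := h.hc
  have h5 := h.a0
  have h6 := h.hx
  have h8 := two_hf (E := E) (by omega)
  rw [solid_iff h.g] at hz
  rw [base_iff h.g] at hf
  unfold BGeo.cham at hf hz
  simp only at hf hz
  have key : (y = E.gu.yc - E.gu.c - 1 ∧ E.gu.x1 - 7 * E.gu.k ≤ x ∧ x < E.gu.x2 + 7 * E.gu.k) ∨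
      (y = E.gu.yc + E.gu.b - 1 ∧
        ((E.gu.x2 + E.gu.k ≤ x ∧ x < E.gu.x2 + 2 * E.gu.k) ∨
        (E.gu.x2 + 2 * E.gu.k ≤ x ∧ x < E.gu.x2 + 3 * E.gu.k) ∨
        (E.gu.x2 + 4 * E.gu.k ≤ x ∧ x < E.gu.x2 + 5 * E.gu.k) ∨
        (E.gu.x2 + 5 * E.gu.k ≤ x ∧ x < E.gu.x2 + 6 * E.gu.k) ∨
        (E.gu.x1 - 3 * E.gu.k ≤ x ∧ x < E.gu.x1 - 2 * E.gu.k) ∨
        (E.gu.x1 - 2 * E.gu.k ≤ x ∧ x < E.gu.x1 - E.gu.k) ∨
        (E.gu.x1 - 6 * E.gu.k ≤ x ∧ x < E.gu.x1 - 5 * E.gu.k) ∨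
        (E.gu.x1 - 5 * E.gu.k ≤ x ∧ x < E.gu.x1 - 4 * E.gu.k))) ∨
      (y = E.gu.yc + E.gu.a - 1 ∧
        ((E.gu.x2 + 6 * E.gu.k ≤ x ∧ x < E.gu.x2 + 7 * E.gu.k) ∨
        (E.gu.x2 + 3 * E.gu.k ≤ x ∧ x < E.gu.x2 + 4 * E.gu.k) ∨
        (E.gu.x1 - 4 * E.gu.k ≤ x ∧ x < E.gu.x1 - 3 * E.gu.k) ∨
        (E.gu.x1 - 7 * E.gu.k ≤ x ∧ x < E.gu.x1 - 6 * E.gu.k) ∨
        (E.gu.x1 - E.gu.k ≤ x ∧ x < E.gu.x2 + E.gu.k))) := by
    omega
  rcases key with ⟨rfl, h7⟩ | ⟨rfl, h7 | h7 | h7 | h7 | h7 | h7 | h7 | h7⟩ |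
    ⟨rfl, h7 | h7 | h7 | h7 | h7⟩
  · exact Or.inl (h.crl x h7.1 h7.2)
  · exact Or.inl (h.cc5 x h7.1 h7.2)
  · exact Or.inl (h.cc4 x h7.1 h7.2)
  · exact Or.inl (h.cc2 x h7.1 h7.2)
  · exact Or.inl (h.cc1 x h7.1 h7.2)
  · exact Or.inl (h.cc8 x h7.1 h7.2)
  · exact Or.inl (h.cc7 x h7.1 h7.2)
  · exact Or.inl (h.cc11 x h7.1 h7.2)
  · exact Or.inl (h.cc10 x h7.1 h7.2)
  · exact Or.inl (h.ctA2 x h7.1 h7.2)
  · exact Or.inl (h.ctB2 x h7.1 h7.2)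
  · exact Or.inl (h.ctC2 x h7.1 h7.2)
  · exact Or.inl (h.ctD2 x h7.1 h7.2)
  · rcases lt_or_ge x (E.gu.x1 - BlkW.hf E) with h9 | h9
    · exact Or.inl (Kap.ctL2 x h7.1 (by omega))
    · rcases lt_or_ge x (E.gu.x2 + BlkW.hf E) with h10 | h10
      · exact Or.inr ⟨rfl, h9, h10⟩
      · exact Or.inl (Kap.ctR2 x (by omega) h7.2)

/-- the floors -/
theorem Kap.case0 (h : Kap E r) (hf : (x, y) ∈ E.base)
    (hz : E.gu.solid true (x, y - 1) ∨ E.gd.solid false (x, y - 1)) : bsd (x, y) 0 ∈ Cout E r ∨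
      (y = E.gu.yc - E.gu.a ∧ E.gu.x1 - BlkW.hf E ≤ x ∧ x < E.gu.x2 + BlkW.hf E) := by
  have h1 := h.ar
  have h2 := h.rk
  have h3 := h.hb
  have h4 := h.hc
  have h5 := h.a0
  have h6 := h.hx
  have h8 := two_hf (E := E) (by omega)
  rw [solid_iff h.g] at hz
  rw [base_iff h.g] at hf
  unfold BGeo.cham at hf hz
  simp only at hf hz
  have key : (y = E.gu.yc + E.gu.c ∧ E.gu.x1 - 7 * E.gu.k ≤ x ∧ x < E.gu.x2 + 7 * E.gu.k) ∨
      (y = E.gu.yc - E.gu.b ∧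
        ((E.gu.x2 + E.gu.k ≤ x ∧ x < E.gu.x2 + 2 * E.gu.k) ∨
        (E.gu.x2 + 2 * E.gu.k ≤ x ∧ x < E.gu.x2 + 3 * E.gu.k) ∨
        (E.gu.x2 + 4 * E.gu.k ≤ x ∧ x < E.gu.x2 + 5 * E.gu.k) ∨
        (E.gu.x2 + 5 * E.gu.k ≤ x ∧ x < E.gu.x2 + 6 * E.gu.k) ∨
        (E.gu.x1 - 3 * E.gu.k ≤ x ∧ x < E.gu.x1 - 2 * E.gu.k) ∨
        (E.gu.x1 - 2 * E.gu.k ≤ x ∧ x < E.gu.x1 - E.gu.k) ∨
        (E.gu.x1 - 6 * E.gu.k ≤ x ∧ x < E.gu.x1 - 5 * E.gu.k) ∨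
        (E.gu.x1 - 5 * E.gu.k ≤ x ∧ x < E.gu.x1 - 4 * E.gu.k))) ∨
      (y = E.gu.yc - E.gu.a ∧
        ((E.gu.x2 + 6 * E.gu.k ≤ x ∧ x < E.gu.x2 + 7 * E.gu.k) ∨
        (E.gu.x2 + 3 * E.gu.k ≤ x ∧ x < E.gu.x2 + 4 * E.gu.k) ∨
        (E.gu.x1 - 4 * E.gu.k ≤ x ∧ x < E.gu.x1 - 3 * E.gu.k) ∨
        (E.gu.x1 - 7 * E.gu.k ≤ x ∧ x < E.gu.x1 - 6 * E.gu.k) ∨
        (E.gu.x1 - E.gu.k ≤ x ∧ x < E.gu.x2 + E.gu.k))) := by
    omega
  rcases key with ⟨rfl, h7⟩ | ⟨rfl, h7 | h7 | h7 | h7 | h7 | h7 | h7 | h7⟩ |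
    ⟨rfl, h7 | h7 | h7 | h7 | h7⟩
  · exact Or.inl (h.cru x h7.1 h7.2)
  · exact Or.inl (h.cd5 x h7.1 h7.2)
  · exact Or.inl (h.cd4 x h7.1 h7.2)
  · exact Or.inl (h.cd2 x h7.1 h7.2)
  · exact Or.inl (h.cd1 x h7.1 h7.2)
  · exact Or.inl (h.cd8 x h7.1 h7.2)
  · exact Or.inl (h.cd7 x h7.1 h7.2)
  · exact Or.inl (h.cd11 x h7.1 h7.2)
  · exact Or.inl (h.cd10 x h7.1 h7.2)
  · exact Or.inl (h.ctA0 x h7.1 h7.2)
  · exact Or.inl (h.ctB0 x h7.1 h7.2)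
  · exact Or.inl (h.ctC0 x h7.1 h7.2)
  · exact Or.inl (h.ctD0 x h7.1 h7.2)
  · rcases lt_or_ge x (E.gu.x1 - BlkW.hf E) with h9 | h9
    · exact Or.inl (Kap.ctL0 x h7.1 (by omega))
    · rcases lt_or_ge x (E.gu.x2 + BlkW.hf E) with h10 | h10
      · exact Or.inr ⟨rfl, h9, h10⟩
      · exact Or.inl (Kap.ctR0 x (by omega) h7.2)

/-- **The island sides of the base.** -/
theorem Kap.base_cases (h : Kap E r) (hf : f ∈ E.base) (hz : sd E.Q (none, f) k ∈ E.Z) :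
    sd E.Q (none, f) k ∈ Cout E r ∨
      (((k = 2 ∧ f.2 = E.gu.yc + E.gu.a - 1) ∨ (k = 0 ∧ f.2 = E.gu.yc - E.gu.a)) ∧
        E.gu.x1 - BlkW.hf E ≤ f.1 ∧ f.1 < E.gu.x2 + BlkW.hf E) := by
  rw [base_Z h.thk hf] at hz
  rw [sd_base h.thk hf]
  obtain ⟨x, y⟩ := f
  rcases k4 k with rfl | rfl | rfl | rfl
  · rcases h.case0 hf hz.1 with h1 | h1
    · exact Or.inl h1
    · exact Or.inr ⟨Or.inr ⟨rfl, h1.1⟩, h1.2⟩
  · exact Or.inl (h.case1 hf hz.1)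
  · rcases h.case2 hf hz.1 with h1 | h1
    · exact Or.inl h1
    · exact Or.inr ⟨Or.inl ⟨rfl, h1.1⟩, h1.2⟩
  · exact Or.inl (h.case3 hf hz.1)

/-! ## The outer atlas -/

/-- off the slab, in the base sheet -/
def Off0 (E : SEnv) : Set (Option Bool × (ℤ × ℤ)) :=
  {x | x.1 = none ∧ ¬ ((E.gu.x1 ≤ x.2.1 ∧ x.2.1 < E.gu.x2) ∧
    E.gu.yc - E.gu.a ≤ x.2.2 ∧ x.2.2 < E.gu.yc + E.gu.a)}

/-- near a special vertex, in the base sheet -/
def Spb (E : SEnv) (ρ : ℕ) : Set (Option Bool × (ℤ × ℤ)) :=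
  {x | x.1 = none ∧ ∃ j, x.2 ∈ Bx (vt E j) ρ}

theorem Nb_off : Nb E r ⊆ Off0 E := fun _ hx => ⟨hx.1, hx.2.2⟩

theorem Nb_sp : Disjoint (Nb E r) (Spb E r) := by
  rw [Set.disjoint_left]
  rintro x hx ⟨-, j, hj⟩
  exact hx.2.1 j hj

theorem Kap.Spb_off (h : Kap E r) : Spb E (4 * r) ⊆ Off0 E := by
  rintro x ⟨hx, ⟨b, j⟩, hj⟩
  refine ⟨hx, fun h7 => ?_⟩
  have h1 := h.ar
  have h2 := h.rk
  have h3 := h.Hc_ge j
  rw [mem_Bx] at hj
  cases b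
  · rw [h.vt_false] at hj
    simp only at hj
    push_cast at hj
    omega
  · rw [vt_true] at hj
    simp only at hj
    push_cast at hj
    omega

theorem Kap.spP_box (h : Kap E r) (ht : ∀ i, t₀ ≤ tJ (Jt mu ml i)) (ρ : ℕ)
    (i : Bool × Fin 14) {x : Option Bool × (ℤ × ℤ)}
    (hx : x ∈ ((h.spP (ρu := ρu) (ρl := ρl) (ψu := ψu) (ψl := ψl) ht).ch i).box ρ) : x ∈ Spb E ρ := by
  have h1 : x ∈ (h.lt (R := 4 * r + 1) (by omega) le_rfl i).chart.box ρ := hx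
  rw [LocW.box, Finset.mem_image] at h1
  obtain ⟨f, hf, rfl⟩ := h1
  exact ⟨rfl, i, Wdg_sub_Bx hf⟩

/-- **The outer atlas**, general form. -/
theorem Kap.out (h : Kap E r) (hmu : mu = ρl - ρu + Real.pi / 6) (hml : ml = ρu - ρl + Real.pi / 6)
    (ht : ∀ i, t₀ ≤ tJ (Jt mu ml i)) :
    ∃ A : PAtlas E.Q E.F (E.psi mu ρu ml ρl ψu ψl) E.Z (Cout E r) r 28 (38 * Ln E r + 10) t₀,
      (∀ i, ∀ x ∈ (A.ch i).box (4 * r), x ∈ Spb E (4 * r)) ∧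
      (∀ i, ∀ x ∈ (A.ch i).box r, x ∈ Spb E r) ∧
      (∀ i, ∀ x ∈ (A.nch i).box (2 * r), x ∈ Nb E r) ∧
      (∀ i, ∀ x ∈ (Mth (A.lf i) (A.w i) (2 * r) (A.h i) (A.l i)).image (A.mch i).φF, x ∈ Nb E r) ∧
      ∀ g : SK → ℕ → ℝ, ∏ i, g (A.K i) (A.m i) =
        ∏ i : Bool × Fin 14, g (.ver (Jt mu ml i)) (mt i) := by
  have hr : 0 < r := by
    have := h.ar
    omega
  have h0 := (h.nat (mu := mu) (ρu := ρu) (ml := ml) (ρl := ρl) (t₀ := t₀) (ψu := ψu)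
    (ψl := ψl)).nunion (h.mouths (t₀ := t₀) (ψu := ψu) (ψl := ψl) hmu hml)
  obtain ⟨B, hB, b3, b4⟩ := h0.noSp hr
  set A := h.spP (ρu := ρu) (ρl := ρl) (ψu := ψu) (ψl := ψl) ht with hA
  have hbox : ∀ ρ, ∀ i : Bool × Fin 14, ∀ x ∈ (A.ch i).box ρ, x ∈ Spb E ρ := fun ρ i x hx =>
    h.spP_box (ρu := ρu) (ρl := ρl) (ψu := ψu) (ψl := ψl) ht ρ i hx
  have e : (Finset.univ.biUnion fun i : Bool × Fin 14 =>
      (h.lt (R := 4 * r + 1) (by omega) le_rfl i).chart.walls (2 * r)) = Csp E r := rfl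
  have d0 : ∀ i, ∀ f ∈ (B.nch i).box (2 * r), ∀ j, f ∉ (A.ch j).box r := fun i f hf j hj =>
    Set.disjoint_left.mp Nb_sp (b3 i f hf) (hbox r j f hj)
  have d1 : ∀ i, ∀ f ∈ (Mth (B.lf i) (B.w i) (2 * r) (B.h i) (B.l i)).image (B.mch i).φF,
      ∀ j, f ∉ (A.ch j).box r := fun i f hf j hj =>
    Set.disjoint_left.mp Nb_sp (b4 i f hf) (hbox r j f hj)
  refine ⟨(A.union B (fun i j => hB.elim j) (fun i => i.elim) (fun i j => ?_) (fun i => i.elim)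
    (fun i j => ?_)).mono (Finset.Subset.refl _) (le_of_eq ?_) le_rfl (by omega), ?_, ?_, ?_, ?_, ?_⟩
  · rw [Finset.disjoint_left]
    exact fun f hf hj => d0 i f hf j hj
  · rw [Finset.disjoint_left]
    exact fun f hf hj => d1 i f hf j hj
  · rw [e]
    rfl
  · rintro (i | i) x hx
    · exact hbox _ i x hx
    · exact hB.elim i
  · rintro (i | i) x hx
    · exact hbox _ i x hx
    · exact hB.elim i
  · rintro (i | i) x hx
    · exact i.elim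
    · exact b3 i x hx
  · rintro (i | i) x hx
    · exact i.elim
    · exact b4 i x hx
  · intro g
    change ∏ i : A.κ ⊕ B.κ, g (Sum.elim A.K B.K i) (Sum.elim A.m B.m i) = _
    rw [Fintype.prod_sum_type]
    simp only [Sum.elim_inl, Sum.elim_inr]
    rw [Finset.univ_eq_empty (α := B.κ), Finset.prod_empty, mul_one]
    rfl

/-! ## The environment of a slab -/

section slb

open Pool.Agent.SixB.MthD (Win em cls)

variable {S : Slb} {W : Finset (ℤ × ℤ)}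

/-- the window contains the two blocks and a margin -/
def OWin (S : Slb) (r : ℕ) (W : Finset (ℤ × ℤ)) : Prop :=
  ∀ f : ℤ × ℤ, S.x1 - 7 * S.k - (4 * r + 1) ≤ f.1 → f.1 < S.x2 + 7 * S.k + (4 * r + 1) →
    S.yc - ((3 * S.k + (S.x2 - S.x1).toNat : ℕ) : ℤ) - (4 * r + 1) ≤ f.2 →
      f.2 < S.yc + ((3 * S.k + (S.x2 - S.x1).toNat : ℕ) : ℤ) + (4 * r + 1) → f ∈ W

theorem OWin.win (hW : OWin S r W) (h : S.Ok) : Win S W := by
  intro f h1 h2 h3 h4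
  have h5 := h.hak
  exact hW f (by omega) (by omega) (by push_cast; omega) (by push_cast; omega)

theorem kap_of (h : S.Ok) (hW : OWin S r W) (h1 : 2 * (S.a + 1) ≤ r) (h2 : 64 * r ≤ S.k) :
    Kap (S.env W 0 0) r := by
  have hx := h.hx
  have hk := h.hak
  have ha := h.ha
  have e1 : (S.env W 0 0).gu.x1 = S.x1 := add_zero _
  have e2 : (S.env W 0 0).gu.x2 = S.x2 := add_zero _
  have e3 : (S.env W 0 0).gu.k = S.k := rfl
  have e4 : (S.env W 0 0).gu.yc = S.yc := rfl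
  have e5 : (S.env W 0 0).gu.c = 3 * S.k + (S.x2 - S.x1).toNat := rfl
  refine ⟨rfl, ha, ?_, h1, h2, rfl, ?_, ?_⟩
  · rw [e1, e2]
    omega
  · rw [e3, e5]
    omega
  · rw [e1, e2, e3, e4, e5]
    exact hW

/-- **The island sides of the environment.** -/
theorem Zsplit (h : S.Ok) (hW : OWin S r W) (h1 : 2 * (S.a + 1) ≤ r) (h2 : 64 * r ≤ S.k)
    {a : (Option Bool × (ℤ × ℤ)) × (Option Bool × (ℤ × ℤ))} (ha : a ∈ (S.env W 0 0).Z) :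
    a ∈ Cout (S.env W 0 0) r ∨
      (∃ x ∈ cls S, a = sd (S.env W 0 0).Q (none, (x, S.yc - S.a)) 0 ∨
        a = sd (S.env W 0 0).Q (none, (x, S.yc + S.a - 1)) 2) ∨
      ∃ b ∈ bS ZQ S.D, OffS S.x1 S.x2 (S.yc - S.a) (S.yc + S.a) b ∧
        a = (em h (hW.win h)).side b := by
  have hK := kap_of h hW h1 h2
  have e1 : (S.env W 0 0).gu.x1 = S.x1 := add_zero _
  have e2 : (S.env W 0 0).gu.x2 = S.x2 := add_zero _
  have e4 : (S.env W 0 0).gu.yc = S.yc := rfl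
  have e5 : (S.env W 0 0).gu.a = S.a := rfl
  have e6 : BlkW.hf (S.env W 0 0) = (S.k - 1) / 2 + 1 := rfl
  have hx := h.hx
  have hk := h.hak
  have ha0 := h.ha
  rcases Z_cases ha with ⟨f, hf, k, rfl⟩ | ⟨f, hf, k, rfl⟩ | ⟨f, hf, k, rfl⟩
  · rcases hK.base_cases hf ha with h3 | ⟨h3, h4, h5⟩
    · exact Or.inl h3
    · right
      left
      rw [e1, e6] at h4
      rw [e2, e6] at h5
      rw [e4, e5] at h3
      have hin : ¬ (S.x1 ≤ f.1 ∧ f.1 < S.x2) := by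
        intro h6
        obtain ⟨-, h7, h8⟩ := (base_Z hK.thk hf k).mp ha
        rcases h3 with ⟨rfl, h3⟩ | ⟨rfl, h3⟩
        · refine h7 ⟨⟨rfl, ?_, ?_⟩, ?_⟩
          · rw [e1, e2]
            exact h6
          · rw [e4, e5]
            omega
          · have h9 : MthD.Reg S (nb f 2) := by
              rw [nb2]
              exact Or.inl (by simp only; omega)
            rcases MthD.reg_cases h (hW.win h) h9 with h10 | h10 | h10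
            · exact h10.2.1
            · rw [nb2] at h10
              simp only at h10
              omega
            · rw [nb2] at h10
              simp only at h10
              omega
        · refine h8 ⟨⟨rfl, ?_, ?_⟩, ?_⟩
          · change (S.env W 0 0).gu.x1 ≤ f.1 ∧ f.1 < (S.env W 0 0).gu.x2
            rw [e1, e2]
            exact h6
          · change f.2 = (S.env W 0 0).gu.yc - (S.env W 0 0).gu.a
            rw [e4, e5]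
            omega
          · have h9 : MthD.Reg S (nb f 0) := by
              rw [nb0]
              exact Or.inl (by simp only; omega)
            rcases MthD.reg_cases h (hW.win h) h9 with h10 | h10 | h10
            · rw [nb0] at h10
              simp only at h10
              omega
            · exact h10.2.1
            · rw [nb0] at h10
              simp only at h10
              omega
      refine ⟨f.1, ?_, ?_⟩
      · unfold cls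
        rw [Finset.mem_union, Finset.mem_Ico, Finset.mem_Ico]
        omega
      · rcases h3 with ⟨rfl, h3⟩ | ⟨rfl, h3⟩
        · right
          rw [← h3]
        · left
          rw [← h3]
  · right
    right
    have h3 := MthD.pocket_side h (hW.win h) (i := true) (EnvB.mem_F_up.mpr hf) (mem_Z.mp ha).1
    exact ⟨_, h3.1, h3.2.1, h3.2.2⟩
  · right
    right
    have h3 := MthD.pocket_side h (hW.win h) (i := false) (EnvB.mem_F_lo.mpr hf) (mem_Z.mp ha).1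
    exact ⟨_, h3.1, h3.2.1, h3.2.2⟩

/-- **The outer atlas of the environment of a slab.** -/
theorem outer (h : S.Ok) (hW : OWin S r W) (h1 : 2 * (S.a + 1) ≤ r) (h2 : 64 * r ≤ S.k) :
    ∃ A : PAtlas (S.env W 0 0).Q (S.env W 0 0).F (S.ph W 0 0) (S.env W 0 0).Z
        (Cout (S.env W 0 0) r) r 28 (38 * Ln (S.env W 0 0) r + 10) (1 / 9),
      (∀ i, ∀ x ∈ (A.ch i).box (4 * r), x ∈ Spb (S.env W 0 0) (4 * r)) ∧
      (∀ i, ∀ x ∈ (A.ch i).box r, x ∈ Spb (S.env W 0 0) r) ∧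
      (∀ i, ∀ x ∈ (A.nch i).box (2 * r), x ∈ Nb (S.env W 0 0) r) ∧
      (∀ i, ∀ x ∈ (Mth (A.lf i) (A.w i) (2 * r) (A.h i) (A.l i)).image (A.mch i).φF,
        x ∈ Nb (S.env W 0 0) r) ∧
      ∀ g : SK → ℕ → ℝ, ∏ i, g (A.K i) (A.m i) =
        ∏ i : Bool × Fin 14, g (.ver (Jt S.mu S.ml i)) (mt i) := by
  have hs : S.mu + S.ml = Real.pi / 3 := by
    unfold Slb.mu Slb.ml
    ring
  exact (kap_of h hW h1 h2).out (mu := S.mu) (ρu := S.ρr) (ml := S.ml) (ρl := S.ρl) (t₀ := 1 / 9)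
    (ψu := shP 0 S.ψ) (ψl := shP 0 S.ψ) rfl rfl (Jt_pos h.mu1 h.mu2 hs)

/-- the allowed regions are off the slab -/
theorem off_slab {x : Option Bool × (ℤ × ℤ)} (hx : x ∈ Off0 (S.env W 0 0)) : x.1 = none ∧
    x.2 ∉ SixB.slab S.x1 S.x2 (S.yc - S.a) (S.yc + S.a) := by
  have e1 : (S.env W 0 0).gu.x1 = S.x1 := add_zero _
  have e2 : (S.env W 0 0).gu.x2 = S.x2 := add_zero _
  have e4 : (S.env W 0 0).gu.yc = S.yc := rfl
  have e5 : (S.env W 0 0).gu.a = S.a := rfl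
  obtain ⟨h1, h2⟩ := hx
  refine ⟨h1, fun h3 => h2 ?_⟩
  rw [mem_RF] at h3
  rw [e1, e2, e4, e5]
  omega

end slb

end

end Pool.Agent.SixB.BlkW
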