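import Pool.Agent.Lib.SixB.S3PosW
import Pool.Agent.Lib.SixB.S3AsmW

/-!
# 6BD step 3: the word of a slab polygon and the three families of marks (helper53 for helper94)

* `WallsW x₁ x₂ yc a w`: the two walls of the slab are consecutive pieces of the word `w`.
* `wall_jump_r`, `wall_jump_l`: no mark on the walls of an admissible slab.
* `cword_add`, `cword_segm`: cutting of contour words, straight pieces.
* `th_cword`: the values of a contour word are the sums of the jumps.
* `FamJ L j`: the sums of the jumps from some mark `k₀` follow one of the patterns `Fam`; `famJ_nat`, `famJ_pair`,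
  `famJ_full`, `famJ_eventually`.
* `fam_word`: the word of the polygon of an admissible slab.
-/

set_option autoImplicit false
set_option linter.unusedSectionVars false

namespace Pool.Agent.SixB.Pos

open Pool.Agent.SixB Pool.Agent.Perc Pool.Agent.Perc.Q Relation TW Filter Topology

noncomputable section

/-! ## Words -/

/-- the two walls of the slab are consecutive pieces of the word -/
def WallsW (x₁ x₂ yc : ℤ) (a : ℕ) (w : List (((ℤ × ℤ) × (ℤ × ℤ)) × ℤ)) : Prop :=
  ∃ (u m v : List (((ℤ × ℤ) × (ℤ × ℤ)) × ℤ)) (lr ll : ℤ), lr % 4 = 1 ∧ ll % 4 = 3 ∧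
    (w = u ++ (segm id (x₂, yc - a) lr (2 * a) ++ (m ++ (segm id (x₁, yc + a) ll (2 * a) ++ v))) ∨
      w = u ++ (segm id (x₁, yc + a) ll (2 * a) ++ (m ++ (segm id (x₂, yc - a) lr (2 * a) ++ v))))

variable {g : ℤ → ℤ × ℤ} {ν : ℤ → ℤ} {j : ℤ → ℝ} {L M : ℕ}

theorem cword_add (g : ℤ → ℤ × ℤ) (ν : ℤ → ℤ) (m n : ℕ) (k : ℤ) :
    cword g ν (m + n) k = cword g ν m k ++ cword g ν n (k + m) := by
  unfold cword
  rw [List.range_add, List.map_append, List.map_map]
  congr 1
  apply List.map_congr_left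
  intro i _
  simp only [Function.comp]
  push_cast
  simp only [add_assoc]

theorem cword_segm (h1 : ∀ i, g (i + 1) = g i + dv (ν i)) {a : ℤ} : ∀ (n : ℕ) (k : ℤ),
    (∀ t : ℕ, t < n → ν (k + t) = a) → cword g ν n k = segm id (g k) a n
  | 0, _, _ => rfl
  | n + 1, k, h => by
    have e0 := h 0 (by omega)
    rw [Nat.cast_zero, add_zero] at e0
    rw [show n + 1 = 1 + n by ring, cword_add, show 1 + n = n + 1 by ring, segm_succ]
    have e1 : cword g ν 1 k = [((g k, g (k + 1)), ν k)] := by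
      unfold cword
      simp
    rw [e1, List.singleton_append, Nat.cast_one]
    have e2 : cword g ν n (k + 1) = segm id (g (k + 1)) a n := cword_segm h1 n (k + 1) (fun t ht => by
      have h2 := h (t + 1) (by omega)
      have h3 : k + 1 + (t : ℤ) = k + ((t + 1 : ℕ) : ℤ) := by push_cast; ring
      rw [h3, h2])
    rw [e2, h1 k, e0]
    rfl

theorem cword_cut {k k₁ k₂ : ℤ} (h1 : k ≤ k₁) (h2 : k₁ ≤ k₂) :
    cword g ν (k₂ - k).toNat k = cword g ν (k₁ - k).toNat k ++ cword g ν (k₂ - k₁).toNat k₁ := by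
  have e : (k₂ - k).toNat = (k₁ - k).toNat + (k₂ - k₁).toNat := by omega
  rw [e, cword_add]
  congr 2
  omega

/-- the direction is constant along a straight piece -/
theorem nu_const (h1 : ∀ i, g (i + 1) = g i + dv (ν i))
    (h2 : ∀ i, ν (i + 1) = ν i + 1 ∨ ν (i + 1) = ν i ∨ ν (i + 1) = ν i - 1) {k : ℤ} {p : ℤ × ℤ}
    {d : ℤ} {T : ℕ} (hg : ∀ t : ℕ, t ≤ T → g (k + t) = p + (t : ℤ) • dv d) (hT : 0 < T) :
    ν k % 4 = d % 4 ∧ ∀ t : ℕ, t < T → ν (k + t) = ν k := by
  have key : ∀ t : ℕ, t < T → ν (k + t) % 4 = d % 4 := by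
    intro t ht
    have e1 := hg t ht.le
    have e2 := hg (t + 1) ht
    have e3 := h1 (k + t)
    rw [← dv_eq_iff]
    have e4 : k + ((t + 1 : ℕ) : ℤ) = k + t + 1 := by push_cast; ring
    rw [e4, e3, e1] at e2
    have e5 : p + (t : ℤ) • dv d + dv (ν (k + t)) = p + (t : ℤ) • dv d + dv d := by
      rw [e2]
      push_cast
      rw [add_smul, one_smul]
      abel
    exact add_left_cancel e5
  refine ⟨by simpa using key 0 hT, fun t => ?_⟩
  induction t with
  | zero => intro _; simp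
  | succ t ih =>
    intro ht
    have e1 := ih (by omega)
    have e2 := key t (by omega)
    have e3 := key (t + 1) ht
    have e4 : k + ((t + 1 : ℕ) : ℤ) = k + t + 1 := by push_cast; ring
    rw [e4] at e3 ⊢
    rcases h2 (k + t) with h | h | h <;> omega

/-! ## No marks on the walls -/

section Walls

variable {S : Slb}

theorem wall_jump_r (h : S.Ok) (hp : PhC S.D L g j S.ψ) {v y : ℤ} (hv : g v = (S.x2, y))
    (h1 : S.yc - S.k < y) (h2 : y < S.yc + S.k) : j v = 0 := by
  have hc := hp.cont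
  obtain ⟨k', e1, e2⟩ := hc.all _ _ (Asm3.side_right h.slab (y := y - 1) (by omega) (by omega))
  rw [sub_add_cancel] at e2
  obtain ⟨c, hc'⟩ := hc.inj (k' + 1) v (by rw [e2, hv])
  have e3 : g (v - 1) = (S.x2, y - 1) := by
    have h3 : k' = v - 1 + c * L := by linarith
    rw [← hc.per_zmul (v - 1) c, ← h3, e1]
  have e4 : g (v + 1) = (S.x2, y + 1) :=
    Asm3.succ_side hc (Asm3.side_right h.slab (y := y) (by omega) (by omega)) hv
  have h3 := hp.jump v
  have h4 := h.right y (by omega) (by omega)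
  have h5 := h.right (y - 1) (by omega) (by omega)
  rw [sub_add_cancel] at h5
  have hcr : crs g v = 0 := by
    unfold crs
    rw [hv, e3, e4]
    simp
  rw [hcr, hv, e3, e4, h4, h5] at h3
  rw [← h3]
  simp

theorem wall_jump_l (h : S.Ok) (hp : PhC S.D L g j S.ψ) {v y : ℤ} (hv : g v = (S.x1, y))
    (h1 : S.yc - S.k < y) (h2 : y < S.yc + S.k) : j v = 0 := by
  have hc := hp.cont
  obtain ⟨k', e1, e2⟩ := hc.all _ _ (Asm3.side_left h.slab (y := y) (by omega) (by omega))
  obtain ⟨c, hc'⟩ := hc.inj (k' + 1) v (by rw [e2, hv])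
  have e3 : g (v - 1) = (S.x1, y + 1) := by
    have h3 : k' = v - 1 + c * L := by linarith
    rw [← hc.per_zmul (v - 1) c, ← h3, e1]
  have hs := Asm3.side_left h.slab (y := y - 1) (by omega) (by omega)
  rw [sub_add_cancel] at hs
  have e4 : g (v + 1) = (S.x1, y - 1) := Asm3.succ_side hc hs hv
  have h3 := hp.jump v
  have h4 := h.left y (by omega) (by omega)
  have h5 := h.left (y - 1) (by omega) (by omega)
  rw [sub_add_cancel] at h5
  have hcr : crs g v = 0 := by
    unfold crs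
    rw [hv, e3, e4]
    simp
  rw [hcr, hv, e3, e4, h4, h5] at h3
  rw [← h3]
  simp

/-- position of a straight piece without marks after the mark `k₀` -/
theorem block_pos (hc : Cont S.D L g) (hj : ∀ k, j (k + L) = j k) {k₀ k' : ℤ} (h0 : j k₀ ≠ 0)
    {T : ℕ} (hT : ∀ v : ℤ, k' < v → v < k' + T → j v = 0) :
    ∃ k : ℤ, k₀ ≤ k ∧ k + T ≤ k₀ + L ∧ ∃ q : ℤ, k = k' + q * L := by
  have hL : (0 : ℤ) < L := by exact_mod_cast hc.pos
  have h1 := Int.emod_nonneg (k' - k₀) hL.ne'
  have h2 := Int.emod_lt_of_pos (k' - k₀) hL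
  have h3 := Int.mul_ediv_add_emod (k' - k₀) L
  have hper : ∀ (q v : ℤ), j (v + q * L) = j v := by
    intro q v
    have h1 : Function.Periodic j (L : ℤ) := hj
    exact h1.int_mul q v
  refine ⟨k₀ + (k' - k₀) % L, by omega, ?_, -((k' - k₀) / L), by linarith⟩
  by_contra hcon
  push Not at hcon
  apply h0
  have h4 := hT (k₀ + L + ((k' - k₀) / L) * L) (by linarith) (by linarith)
  rw [hper, hj] at h4
  exact h4

/-- **the walls are consecutive in the word** -/
theorem walls_word (h : S.Ok) (hp : PhC S.D L g j S.ψ) (hν1 : ∀ i, g (i + 1) = g i + dv (ν i))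
    (hν2 : ∀ i, ν (i + 1) = ν i + 1 ∨ ν (i + 1) = ν i ∨ ν (i + 1) = ν i - 1) {k₀ : ℤ}
    (h0 : j k₀ ≠ 0) : WallsW S.x1 S.x2 S.yc S.a (cword g ν L k₀) := by
  have hc := hp.cont
  have hL : (0 : ℤ) < L := by exact_mod_cast hc.pos
  have ha := h.ha
  have hak := h.hak
  have hx := h.slab.hx
  -- right wall
  obtain ⟨kr', er, -⟩ := hc.all _ _ (Asm3.side_right h.slab (y := S.yc - S.a) (by omega) (by omega))
  have hr' := Asm3.right_wall hc h.slab (by omega) er
  obtain ⟨kr, r1, r2, qr, r3⟩ := block_pos (k₀ := k₀) (T := 2 * S.a) hc hp.per h0 (k' := kr')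
    (fun v hv1 hv2 => by
      obtain ⟨t, rfl⟩ : ∃ t : ℕ, v = kr' + t := ⟨(v - kr').toNat, by omega⟩
      exact wall_jump_r h hp (hr' t (by push_cast at hv2; omega)) (by omega) (by push_cast at hv2; omega))
  have hr : ∀ t : ℕ, t ≤ 2 * S.a → g (kr + t) = (S.x2, S.yc - S.a) + (t : ℤ) • dv 1 := by
    intro t ht
    have e1 : kr + t = kr' + t + qr * L := by rw [r3]; ring
    rw [e1, hc.per_zmul, hr' t (by omega), dv1]
    ext <;> simp
  -- left wall
  have hsl := Asm3.side_left h.slab (y := S.yc + S.a - 1) (by omega) (by omega)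
  rw [sub_add_cancel] at hsl
  obtain ⟨kl', el, -⟩ := hc.all _ _ hsl
  have hl' := Asm3.left_wall hc h.slab (by omega) el
  obtain ⟨kl, l1, l2, ql, l3⟩ := block_pos (k₀ := k₀) (T := 2 * S.a) hc hp.per h0 (k' := kl')
    (fun v hv1 hv2 => by
      obtain ⟨t, rfl⟩ : ∃ t : ℕ, v = kl' + t := ⟨(v - kl').toNat, by omega⟩
      exact wall_jump_l h hp (hl' t (by push_cast at hv2; omega)) (by push_cast at hv2; omega)
        (by omega))
  have hl : ∀ t : ℕ, t ≤ 2 * S.a → g (kl + t) = (S.x1, S.yc + S.a) + (t : ℤ) • dv 3 := by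
    intro t ht
    have e1 : kl + t = kl' + t + ql * L := by rw [l3]; ring
    rw [e1, hc.per_zmul, hl' t (by omega), dv3]
    ext
    · simp
    · simp; ring
  obtain ⟨dr1, dr2⟩ := nu_const hν1 hν2 hr (by omega)
  obtain ⟨dl1, dl2⟩ := nu_const hν1 hν2 hl (by omega)
  have wr : cword g ν (2 * S.a) kr = segm id (S.x2, S.yc - S.a) (ν kr) (2 * S.a) := by
    rw [cword_segm hν1 _ _ dr2]
    have := hr 0 (by omega)
    simp only [Nat.cast_zero, add_zero, zero_smul] at this
    rw [this]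
  have wl : cword g ν (2 * S.a) kl = segm id (S.x1, S.yc + S.a) (ν kl) (2 * S.a) := by
    rw [cword_segm hν1 _ _ dl2]
    have := hl 0 (by omega)
    simp only [Nat.cast_zero, add_zero, zero_smul] at this
    rw [this]
  have hne1 : ¬ (kr ≤ kl ∧ kl < kr + 2 * S.a) := by
    rintro ⟨h1, h2⟩
    have e1 := hr (kl - kr).toNat (by omega)
    have e2 := hl 0 (by omega)
    rw [Int.toNat_of_nonneg (by omega)] at e1
    rw [show kr + (kl - kr) = kl by ring] at e1
    simp only [Nat.cast_zero, add_zero, zero_smul] at e2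
    rw [e2, dv1] at e1
    have := congrArg Prod.fst e1
    simp at this
    omega
  have hne2 : ¬ (kl ≤ kr ∧ kr < kl + 2 * S.a) := by
    rintro ⟨h1, h2⟩
    have e1 := hl (kr - kl).toNat (by omega)
    have e2 := hr 0 (by omega)
    rw [Int.toNat_of_nonneg (by omega)] at e1
    rw [show kl + (kr - kl) = kr by ring] at e1
    simp only [Nat.cast_zero, add_zero, zero_smul] at e2
    rw [e2, dv3] at e1
    have := congrArg Prod.fst e1
    simp at this
    omega
  push_cast at r2 l2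
  have eL : cword g ν L k₀ = cword g ν ((k₀ + L) - k₀).toNat k₀ := by
    congr 1
    omega
  have eR : cword g ν ((kr + 2 * S.a) - kr).toNat kr = cword g ν (2 * S.a) kr := by
    congr 1
    omega
  have eLl : cword g ν ((kl + 2 * S.a) - kl).toNat kl = cword g ν (2 * S.a) kl := by
    congr 1
    omega
  rcases lt_or_ge kr kl with hlt | hge
  · have h3 : kr + 2 * S.a ≤ kl := by
      by_contra h4
      exact hne1 ⟨hlt.le, by omega⟩
    refine ⟨cword g ν (kr - k₀).toNat k₀, cword g ν (kl - (kr + 2 * S.a)).toNat (kr + 2 * S.a),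
      cword g ν (k₀ + L - (kl + 2 * S.a)).toNat (kl + 2 * S.a), ν kr, ν kl, ?_, ?_, Or.inl ?_⟩
    · rw [dr1]; rfl
    · rw [dl1]; rfl
    · rw [eL, cword_cut r1 (show kr ≤ k₀ + L by omega),
        cword_cut (show kr ≤ kr + 2 * S.a by omega) (show kr + 2 * S.a ≤ k₀ + L by omega),
        cword_cut (show kr + 2 * S.a ≤ kl by omega) (show kl ≤ k₀ + L by omega),
        cword_cut (show kl ≤ kl + 2 * S.a by omega) (show kl + 2 * S.a ≤ k₀ + L by omega),
        eR, eLl, wr, wl]
  · have h3 : kl + 2 * S.a ≤ kr := by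
      by_contra h4
      exact hne2 ⟨hge, by omega⟩
    refine ⟨cword g ν (kl - k₀).toNat k₀, cword g ν (kr - (kl + 2 * S.a)).toNat (kl + 2 * S.a),
      cword g ν (k₀ + L - (kr + 2 * S.a)).toNat (kr + 2 * S.a), ν kr, ν kl, ?_, ?_, Or.inr ?_⟩
    · rw [dr1]; rfl
    · rw [dl1]; rfl
    · rw [eL, cword_cut l1 (show kl ≤ k₀ + L by omega),
        cword_cut (show kl ≤ kl + 2 * S.a by omega) (show kl + 2 * S.a ≤ k₀ + L by omega),
        cword_cut (show kl + 2 * S.a ≤ kr by omega) (show kr ≤ k₀ + L by omega),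
        cword_cut (show kr ≤ kr + 2 * S.a by omega) (show kr + 2 * S.a ≤ k₀ + L by omega),
        eR, eLl, wr, wl]

end Walls

/-! ## Values -/

/-- **the values of a contour word are the sums of the jumps** -/
theorem th_cword {D : Finset (ℤ × ℤ)} {ψ : (ℤ × ℤ) × (ℤ × ℤ) → ℝ} (hp : PhC D L g j ψ)
    (hν1 : ∀ i, g (i + 1) = g i + dv (ν i))
    (hν2 : ∀ i, ν (i + 1) = ν i + 1 ∨ ν (i + 1) = ν i ∨ ν (i + 1) = ν i - 1) (k₀ : ℤ) {i : ℕ}
    (hi : i < L) : th (cword g ν L k₀) ψ i = th (cword g ν L k₀) ψ 0 + csum j k₀ (k₀ + i) := by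
  have hval : ∀ {i : ℕ}, i < L → th (cword g ν L k₀) ψ i =
      ψ (g (k₀ + i), g (k₀ + i + 1)) + (ν (k₀ + i) : ℝ) * (Real.pi / 12) := by
    intro i hi
    have hi' : i < (cword g ν L k₀).length := by rw [cword_length]; exact hi
    have e1 := cword_getElem? g ν k₀ hi
    rw [List.getElem?_eq_getElem hi'] at e1
    have e2 := Option.some.inj e1
    rw [th_lt ψ hi', e2]
  induction i with
  | zero => simp [csum_self]
  | succ i ih =>
    have e1 := ih (by omega)
    have e2 := hval (show i < L by omega)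
    have e3 := hval hi
    have e4 := hp.jump (k₀ + i + 1)
    rw [Asm3.crs_eq hν1 hν2, add_sub_cancel_right] at e4
    have e5 : k₀ + ((i + 1 : ℕ) : ℤ) = k₀ + i + 1 := by push_cast; ring
    rw [e5] at e3 ⊢
    rw [csum_succ j (show k₀ ≤ k₀ + (i : ℤ) by omega)]
    push_cast at e4
    linarith

theorem Fam.add {m : ℕ} {V : ℕ → ℝ} (h : Fam m V) (c : ℝ) : Fam m fun i => c + V i := by
  rcases h with h | ⟨c', k, n1, n2, n3, n4, α, o, h0, h1, h2⟩
  · left
    intro i j hij hj
    have := h i j hij hj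
    constructor <;> linarith
  · right
    refine ⟨c + c', k, n1, n2, n3, n4, α, o, h0, h1, fun i hi => ?_⟩
    simp only
    rw [h2 i hi]
    ring

/-- the sums of the jumps from some mark follow one of the patterns -/
def FamJ (L : ℕ) (j : ℤ → ℝ) : Prop :=
  ∃ k₀ : ℤ, j k₀ ≠ 0 ∧ Fam L fun i => csum j k₀ (k₀ + i)

/-- **the word of the polygon of an admissible slab** -/
theorem fam_word {S : Slb} (h : S.Ok) (hp : PhC S.D L g j S.ψ) (hF : FamJ L j) :
    ∃ w, Disc ZQ (S.D : Set (ℤ × ℤ)) (Glued ZQ S.D) w ∧ Fam w.length (th w S.ψ) ∧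
      WallsW S.x1 S.x2 S.yc S.a w := by
  obtain ⟨ν, hν1, -, hν3, hd⟩ := h.poly.disc hp.cont
  obtain ⟨k₀, h0, hF⟩ := hF
  refine ⟨cword g ν L k₀, hd k₀, ?_, walls_word h hp hν1 hν3 h0⟩
  rw [cword_length]
  exact (hF.add (th (cword g ν L k₀) S.ψ 0)).congr fun i hi => th_cword hp hν1 hν3 k₀ hi

/-! ## The three families -/

theorem csum_jN_Hv (hM : 0 < M) {b c : ℤ} {n : ℕ} (h : ∃ s : ℤ, c + s * M = b + n) (h1 : 1 ≤ n)
    (h2 : n ≤ M) {i : ℕ} (hi : i < M) : csum (jN M c) b (b + i) = Real.pi / 3 * Hv n i := by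
  have hm : (0 : ℤ) < M := by exact_mod_cast hM
  obtain ⟨s, hs⟩ := h
  rw [csum_jN_cases hM c (show b + (i : ℤ) < b + M by omega)]
  unfold Hv
  by_cases hni : n ≤ i
  · rw [if_pos ⟨s, by omega, by omega⟩, if_pos hni, mul_one]
  · rw [if_neg, if_neg hni, mul_zero]
    rintro ⟨q, h3, h4⟩
    have e1 : c + q * M = b + n + (q - s) * M := by linarith
    rw [e1] at h3 h4
    rcases lt_trichotomy (q - s) 0 with h5 | h5 | h5
    · have : (q - s) * M ≤ -M := by nlinarith
      omega
    · rw [h5] at h4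
      omega
    · have : (M : ℤ) ≤ (q - s) * M := by nlinarith
      omega

theorem Hv_self_lt {n i : ℕ} (h : i < n) : Hv n i = 0 := by
  unfold Hv; rw [if_neg (by omega)]

theorem jN_self (M : ℕ) (b : ℤ) : jN M b b = Real.pi / 3 := by
  unfold jN; rw [if_pos (by simp)]

theorem jN_nonneg (M : ℕ) (b v : ℤ) : 0 ≤ jN M b v := by
  unfold jN
  have := Real.pi_pos
  split_ifs <;> positivity

/-- a representative in `[1, M]` -/
theorem exists_rep (hM : 0 < M) (b c : ℤ) : ∃ n : ℕ, 1 ≤ n ∧ n ≤ M ∧ ∃ s : ℤ, c + s * M = b + n := by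
  have hm : (0 : ℤ) < M := by exact_mod_cast hM
  have h1 := Int.emod_nonneg (c - b - 1) hm.ne'
  have h2 := Int.emod_lt_of_pos (c - b - 1) hm
  have h3 := Int.mul_ediv_add_emod (c - b - 1) M
  refine ⟨((c - b - 1) % M + 1).toNat, by omega, by omega, -((c - b - 1) / M), ?_⟩
  rw [Int.toNat_of_nonneg (by omega)]
  linarith

theorem famJ_nat (hM : 0 < M) (b : ℤ) : FamJ M (jN M b) := by
  have hpi := Real.pi_pos
  refine ⟨b, by rw [jN_self]; positivity, Or.inl fun i j hij hj => ?_⟩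
  have key : ∀ i : ℕ, i < M → csum (jN M b) b (b + i) = 0 := by
    intro i hi
    rw [csum_jN_Hv hM ⟨1, by ring⟩ hM le_rfl hi, Hv_self_lt hi, mul_zero]
  simp only
  rw [key i (by omega), key j hj, sub_zero]
  exact ⟨le_rfl, by positivity⟩

theorem famJ_pair (hM : 0 < M) {α : ℝ} (h0 : 0 ≤ α) (h1 : α < 1) (b b' : ℤ) :
    FamJ M (jP M α b b') := by
  have hpi := Real.pi_pos
  obtain ⟨n, hn1, hn2, hs⟩ := exists_rep hM b b'
  refine ⟨b, ?_, Or.inl fun i j hij hj => ?_⟩
  · have h2 : 0 < jP M α b b' b := by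
      unfold jP
      rw [jN_self]
      have h3 : 0 < (1 - α) * (Real.pi / 3) := mul_pos (by linarith) (by positivity)
      have h4 : 0 ≤ α * jN M b' b := mul_nonneg h0 (jN_nonneg _ _ _)
      linarith
    exact h2.ne'
  · have key : ∀ i : ℕ, i < M → csum (jP M α b b') b (b + i) = α * (Real.pi / 3 * Hv n i) := by
      intro i hi
      have h2 : csum (jP M α b b') b (b + i) =
          (1 - α) * csum (jN M b) b (b + i) + α * csum (jN M b') b (b + i) :=
        csum_lin _ _ _ _ _ _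
      rw [h2, csum_jN_Hv hM ⟨1, by ring⟩ hM le_rfl hi, Hv_self_lt hi,
        csum_jN_Hv hM hs hn1 hn2 hi]
      ring
    simp only
    rw [key i (by omega), key j hj]
    have h3 : 0 ≤ Hv n j - Hv n i ∧ Hv n j - Hv n i ≤ 1 := by
      unfold Hv
      split_ifs
      · norm_num
      · norm_num
      · omega
      · norm_num
    have e : α * (Real.pi / 3 * Hv n j) - α * (Real.pi / 3 * Hv n i) =
        α * (Real.pi / 3) * (Hv n j - Hv n i) := by ring
    rw [e]
    have h4 : 0 ≤ α * (Real.pi / 3) := by positivity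
    constructor
    · exact mul_nonneg h4 h3.1
    · calc α * (Real.pi / 3) * (Hv n j - Hv n i) ≤ α * (Real.pi / 3) * 1 :=
          mul_le_mul_of_nonneg_left h3.2 h4
        _ ≤ 1 * (Real.pi / 3) * 1 := by nlinarith
        _ = Real.pi / 3 := by ring

theorem famJ_full {α : ℝ} (h0 : 0 ≤ α) (h1 : α ≤ 1) {b₁ b₂ b₂' b₃ k : ℤ} (o1 : k < b₁ + M)
    (o2 : b₁ ≤ b₂) (o3 : b₂ ≤ b₂') (o4 : b₂' ≤ b₃) (o5 : b₃ < k) :
    FamJ M (jX M α b₁ b₂ b₂' b₃ k) := by
  have hpi := Real.pi_pos
  have hM : 0 < M := by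
    rcases Nat.eq_zero_or_pos M with rfl | h
    · simp at o1; omega
    · exact h
  have hM2 : 2 ≤ M := by omega
  have hnz : ∀ b : ℤ, k < b + M → b < k → jN M b k = 0 := by
    intro b hb1 hb2
    unfold jN
    rw [if_neg]
    rintro ⟨c, hc⟩
    have hm : (0 : ℤ) < M := by exact_mod_cast hM
    rcases le_or_gt c 0 with h | h
    · have : (M : ℤ) * c ≤ 0 := by nlinarith
      omega
    · have : (M : ℤ) * 1 ≤ M * c := by
        apply mul_le_mul_of_nonneg_left _ hm.le
        omega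
      omega
  refine ⟨k, ?_, Or.inr ⟨Real.pi / 3, 0, (b₁ + M - k).toNat, (b₂ + M - k).toNat,
    (b₂' + M - k).toNat, (b₃ + M - k).toNat, α, ⟨by omega, by omega, by omega, by omega, by omega⟩,
    h0, h1, fun i hi => ?_⟩⟩
  · have h2 : jN M (k + 1) k = 0 := by
      unfold jN
      rw [if_neg]
      rintro ⟨c, hc⟩
      have hm : (2 : ℤ) ≤ M := by exact_mod_cast hM2
      have e : (M : ℤ) * c = -1 := by omega
      rcases lt_trichotomy c 0 with h | h | h
      · have : (M : ℤ) * c ≤ M * (-1) := by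
          apply mul_le_mul_of_nonneg_left _ (by omega)
          omega
        omega
      · rw [h] at e; omega
      · have : 0 < (M : ℤ) * c := by positivity
        omega
    have h3 : jX M α b₁ b₂ b₂' b₃ k k = -(Real.pi / 3) := by
      unfold jX
      rw [hnz b₁ (by omega) (by omega), hnz b₂ (by omega) (by omega),
        hnz b₂' (by omega) (by omega), hnz b₃ (by omega) (by omega), h2, jN_self]
      ring
    rw [h3]
    have : 0 < Real.pi / 3 := by positivity
    linarith
  · have h4 : csum (jX M α b₁ b₂ b₂' b₃ k) k (k + i) =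
        csum (jN M b₁) k (k + i) + ((1 - α) * csum (jN M b₂) k (k + i) +
          α * csum (jN M b₂') k (k + i)) + csum (jN M b₃) k (k + i) -
          csum (jN M k) k (k + i) - csum (jN M (k + 1)) k (k + i) := by
      unfold csum jX
      rw [Finset.sum_sub_distrib, Finset.sum_sub_distrib, Finset.sum_add_distrib,
        Finset.sum_add_distrib, Finset.sum_add_distrib, ← Finset.mul_sum, ← Finset.mul_sum]
    simp only
    rw [h4, csum_jN_Hv hM (n := (b₁ + M - k).toNat) ⟨1, by omega⟩ (by omega) (by omega) hi,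
      csum_jN_Hv hM (n := (b₂ + M - k).toNat) ⟨1, by omega⟩ (by omega) (by omega) hi,
      csum_jN_Hv hM (n := (b₂' + M - k).toNat) ⟨1, by omega⟩ (by omega) (by omega) hi,
      csum_jN_Hv hM (n := (b₃ + M - k).toNat) ⟨1, by omega⟩ (by omega) (by omega) hi,
      csum_jN_Hv hM (n := M) ⟨1, by ring⟩ hM le_rfl hi,
      csum_jN_Hv hM (n := 1) ⟨0, by push_cast; ring⟩ le_rfl hM hi, Hv_self_lt hi]
    unfold phA
    have e : Hv 0 i = 1 := by unfold Hv; rw [if_pos (by omega)]
    rw [e]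
    ring

/-- **the three families along the filter** -/
theorem famJ_eventually {ι : Type} {l : Filter ι} {n : ι → ℕ} {j : ι → ℤ → ℝ} (hL : 0 < L)
    (hn : Tendsto n l atTop) (h : MFam L g l n j) : ∀ᶠ i in l, FamJ (n i * L) (j i) := by
  cases h with
  | nat s b hs hb =>
    filter_upwards [hn.eventually_gt_atTop 0] with i hi
    exact famJ_nat (Nat.mul_pos hi hL) _
  | pair α s s' b b' hα hs hs' h1 h2 hb hb' =>
    filter_upwards [hn.eventually_gt_atTop 0] with i hi
    exact famJ_pair (Nat.mul_pos hi hL) hα.1.le hα.2 _ _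
  | full α t₁ t₂ t₂' t₃ t₄ b₁ b₂ b₂' b₃ k' hα hm h₁ h₂ h₂' h₃ h₄ =>
    have hcmp : ∀ {a b : ι → ℤ} {s t : ℝ}, Tendsto (fun i => (a i : ℝ) / n i) l (𝓝 s) →
        Tendsto (fun i => (b i : ℝ) / n i) l (𝓝 t) → s < t → ∀ᶠ i in l, a i < b i := by
      intro a b s t ha hb hst
      filter_upwards [ha.eventually_lt hb hst, hn.eventually_gt_atTop 0] with i h1 h2
      have h3 : (0 : ℝ) < n i := by exact_mod_cast h2
      rw [div_lt_div_iff_of_pos_right h3] at h1
      exact_mod_cast h1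
    have h₅ : Tendsto (fun i => ((b₁ i + (n i * L : ℕ) : ℤ) : ℝ) / n i) l (𝓝 (t₁ + L)) := by
      have h6 : Tendsto (fun i => (b₁ i : ℝ) / n i + (L : ℝ)) l (𝓝 (t₁ + L)) := h₁.add_const _
      refine h6.congr' ?_
      filter_upwards [hn.eventually_gt_atTop 0] with i h2
      have h3 : (0 : ℝ) < n i := by exact_mod_cast h2
      push_cast
      field_simp
    filter_upwards [hcmp h₄ h₅ hm.h5, hcmp h₁ h₂ hm.h1, hcmp h₂ h₂' hm.h2, hcmp h₂' h₃ hm.h3,
      hcmp h₃ h₄ hm.h4] with i o1 o2 o3 o4 o5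
    exact famJ_full hα.1.le hα.2.le o1 o2.le o3.le o4.le o5

end

end Pool.Agent.SixB.Pos
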