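import Pool.Agent.Lib.SixB.S3PosCh
import Pool.Agent.Lib.SixB.S3PosFam

/-!
# 6BD step 3: the piece of the polygon (helper53 for helper94)

* `pasteR`, `pasteL`: pasting of rectangles in any complex.
* `PE.pz0`: the piece of the zone `0` consists of the polygon and of two rectangles.
* `wR`, `wL`: the new parts of the boundary word, `PE.val_R`, `PE.val_L`: their values are constant.
* `PE.D_nonneg`: its arcs have a nonnegative weight.
-/

set_option autoImplicit false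
set_option linter.unusedSectionVars false

namespace Pool.Agent.SixB.Pos

open Pool.Agent.SixB Pool.Agent.SixB.Gd Pool.Agent.Perc Pool.Agent.Perc.Q Relation

noncomputable section

/-! ## Pasting of rectangles -/

section Paste

variable {V Φ : Type} {Q : QC V Φ} {F : Set Φ} {G : Set (V × V)} {φ : ℤ × ℤ → Φ} {pos : ℤ × ℤ → V}
  {u v : List ((V × V) × ℤ)} {x₀ x₁ y₁ y₂ xl xr a c : ℤ}

theorem dv_m0 (h : a % 4 = 0) : dv a = (1, 0) := by
  rw [← dv0]; exact dv_congr (by rw [h]; rfl)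

theorem dv_m1 (h : a % 4 = 1) : dv a = (0, 1) := by
  rw [← dv1]; exact dv_congr (by rw [h]; rfl)

theorem dv_m2 (h : a % 4 = 2) : dv a = (-1, 0) := by
  rw [← dv2]; exact dv_congr (by rw [h]; rfl)

theorem dv_m3 (h : a % 4 = 3) : dv a = (0, -1) := by
  rw [← dv3]; exact dv_congr (by rw [h]; rfl)

theorem segm_map (pos : ℤ × ℤ → V) (a : ℤ) : ∀ (n : ℕ) (p : ℤ × ℤ),
    (segm id p a n).map (Prod.map (mp pos) id) = segm pos p a n
  | 0, _ => rfl
  | n + 1, p => by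
    rw [segm_succ, segm_succ, List.map_cons, segm_map pos a n (p + dv a)]
    rfl

theorem segm_lftc (pos : ℤ × ℤ → V) (hc : c % 4 = 0) : ∀ (n : ℕ) (p : ℤ × ℤ),
    SixB.lft c (segm pos p a n) = segm pos p (a + c) n
  | 0, _ => rfl
  | n + 1, p => by
    rw [segm_succ, segm_succ, lft_cons, segm_lftc pos hc n (p + dv a)]
    have e : dv (a + c) = dv a := dv_congr (by omega)
    rw [e]

theorem pasteR (hc : Chart Q φ pos (RS x₁ xr y₁ y₂))
    (h : Disc Q F G (u ++ (segm pos (x₁, y₁) a (y₂ - y₁).toNat ++ v))) (ha : a % 4 = 1)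
    (hd : Disjoint F (φ '' RS x₁ xr y₁ y₂)) (hx : x₁ < xr) (hy : y₁ < y₂) :
    ∃ G', Disc Q (F ∪ φ '' RS x₁ xr y₁ y₂) G' (u ++ ((segm pos (x₁, y₁) (a - 1) (xr - x₁).toNat ++
      (segm pos (xr, y₁) a (y₂ - y₁).toNat ++ segm pos (xr, y₂) (a + 1) (xr - x₁).toNat)) ++ v)) := by
  have h1 := disc_chart hc (disc_RS hx hy) subset_rfl
  have e1 : (rectW x₁ xr y₁ y₂).map (Prod.map (mp pos) id) =
      (segm pos (x₁, y₁) 0 (xr - x₁).toNat ++ (segm pos (xr, y₁) 1 (y₂ - y₁).toNat ++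
        segm pos (xr, y₂) 2 (xr - x₁).toNat)) ++ segm pos (x₁, y₂) 3 (y₂ - y₁).toNat := by
    unfold rectW
    simp only [List.map_append, segm_map, List.append_assoc]
  have h2 := Disc.rots (h1.cast rfl rfl e1)
  have h3 := h2.lft (a - 5)
  obtain ⟨m, hm⟩ : ∃ m : ℕ, (y₂ - y₁).toNat = m + 1 := ⟨(y₂ - y₁).toNat - 1, by omega⟩
  rw [hm] at h h3 ⊢
  have e2 : ((x₁, y₁) : ℤ × ℤ) + ((m + 1 : ℕ) : ℤ) • dv a = (x₁, y₂) := by
    rw [dv_m1 ha]
    ext
    · simp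
    · simp; omega
  have ec : (a - 5) % 4 = 0 := by omega
  obtain ⟨G', hG⟩ := Disc.seg_paste (u' := []) (v' := segm pos (x₁, y₁) (a - 1) (xr - x₁).toNat ++
      (segm pos (xr, y₁) a (m + 1) ++ segm pos (xr, y₂) (a + 1) (xr - x₁).toNat)) h
    (h3.cast rfl rfl (by
      have q1 : 3 + (a - 5) = a - 2 := by ring
      have q2 : 0 + (4 + (a - 5)) = a - 1 := by ring
      have q3 : 1 + (4 + (a - 5)) = a := by ring
      have q4 : 2 + (4 + (a - 5)) = a + 1 := by ring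
      rw [e2, lft_append, lft_lft, segm_lftc pos ec]
      have ec' : (4 + (a - 5)) % 4 = 0 := by omega
      rw [lft_append, lft_append, segm_lftc pos ec', segm_lftc pos ec', segm_lftc pos ec', q1, q2,
        q3, q4, List.nil_append])) hd
  exact ⟨G', hG.cast rfl rfl (by rw [lft_nil, List.nil_append])⟩

theorem pasteL (hc : Chart Q φ pos (RS xl x₀ y₁ y₂))
    (h : Disc Q F G (u ++ (segm pos (x₀, y₂) a (y₂ - y₁).toNat ++ v))) (ha : a % 4 = 3)
    (hd : Disjoint F (φ '' RS xl x₀ y₁ y₂)) (hx : xl < x₀) (hy : y₁ < y₂) :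
    ∃ G', Disc Q (F ∪ φ '' RS xl x₀ y₁ y₂) G' (u ++ ((segm pos (x₀, y₂) (a - 1) (x₀ - xl).toNat ++
      (segm pos (xl, y₂) a (y₂ - y₁).toNat ++ segm pos (xl, y₁) (a + 1) (x₀ - xl).toNat)) ++ v)) := by
  have h1 := disc_chart hc (disc_RS hx hy) subset_rfl
  have e1 : (rectW xl x₀ y₁ y₂).map (Prod.map (mp pos) id) =
      segm pos (xl, y₁) 0 (x₀ - xl).toNat ++ (segm pos (x₀, y₁) 1 (y₂ - y₁).toNat ++
        (segm pos (x₀, y₂) 2 (x₀ - xl).toNat ++ segm pos (xl, y₂) 3 (y₂ - y₁).toNat)) := by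
    unfold rectW
    simp only [List.map_append, segm_map]
  have h2 := Disc.rots (h1.cast rfl rfl e1)
  have h3 := h2.lft (a - 3)
  obtain ⟨m, hm⟩ : ∃ m : ℕ, (y₂ - y₁).toNat = m + 1 := ⟨(y₂ - y₁).toNat - 1, by omega⟩
  rw [hm] at h h3 ⊢
  have e2 : ((x₀, y₂) : ℤ × ℤ) + ((m + 1 : ℕ) : ℤ) • dv a = (x₀, y₁) := by
    rw [dv_m3 ha]
    ext
    · simp
    · simp; omega
  have ec : (a - 3) % 4 = 0 := by omega
  obtain ⟨G', hG⟩ := Disc.seg_paste (u' := []) (v' := segm pos (x₀, y₂) (a - 1) (x₀ - xl).toNat ++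
      (segm pos (xl, y₂) a (m + 1) ++ segm pos (xl, y₁) (a + 1) (x₀ - xl).toNat)) h
    (h3.cast rfl rfl (by
      have q1 : 1 + (a - 3) = a - 2 := by ring
      have q2 : 2 + (a - 3) = a - 1 := by ring
      have q3 : 3 + (a - 3) = a := by ring
      have q4 : 0 + (4 + (a - 3)) = a + 1 := by ring
      rw [e2, lft_append, lft_lft]
      have ec' : (4 + (a - 3)) % 4 = 0 := by omega
      rw [lft_append, lft_append, segm_lftc pos ec, segm_lftc pos ec, segm_lftc pos ec,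
        segm_lftc pos ec', q1, q2, q3, q4, List.nil_append]
      simp only [List.append_assoc])) hd
  exact ⟨G', hG.cast rfl rfl (by rw [lft_nil, List.nil_append])⟩

end Paste

/-! ## The piece of the zone `0` -/

section Piece

variable {E : SEnv} {g : BGeo} {ω : Option Bool × (ℤ × ℤ) → Bool} {mu ρu ml ρl : ℝ}
  {D : Finset (ℤ × ℤ)} {x₁ x₂ w₁ w₂ s₁ s₂ : ℤ} {ψ : (ℤ × ℤ) × (ℤ × ℤ) → ℝ}

theorem PE.eqs (H : PE E g) (hE : EData E D x₁ x₂ w₁ w₂ s₁ s₂) :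
    x₁ = g.x1 ∧ x₂ = g.x2 ∧ s₁ = g.yc - g.a ∧ s₂ = g.yc + g.a := by
  have h1 := hE.gu1
  have h2 := hE.gu2
  have h3 := hE.gus
  have h4 := hE.gds
  rw [H.hu] at h1 h2 h3
  rw [H.hd] at h4
  exact ⟨h1.symm, h2.symm, h4.symm, h3.symm⟩

/-- faces of the slab between the cuts -/
theorem PE.mid_base (H : PE E g) {f : ℤ × ℤ} (h1 : g.x1 - 2 * (g.k / 4 : ℕ) ≤ f.1)
    (h2 : f.1 < g.x2 + 2 * (g.k / 4 : ℕ)) (h3 : g.yc - g.a ≤ f.2) (h4 : f.2 < g.yc + g.a) :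
    f ∈ E.base := by
  have hab := H.ab
  have hbc := H.bc
  have h5 : 4 * (g.k / 4) ≤ g.k := by omega
  rw [H.mem_base]
  refine ⟨H.W ?_, ?_, ?_⟩
  · rw [mem_RF]
    omega
  · rintro ⟨e1, e2, e3, e4, e5⟩
    simp only [BGeo.hgt, if_true] at e1
    omega
  · rintro ⟨e1, e2, e3, e4, e5⟩
    simp only [BGeo.hgt, Bool.false_eq_true, if_false] at e1
    omega

theorem PE.mid_col (H : PE E g) (x : ℤ) : (zc g x = 0 ∨ zc g x = 1 ∨ zc g x = 17) ↔
    g.x1 - 2 * (g.k / 4 : ℕ) ≤ x ∧ x < g.x2 + 2 * (g.k / 4 : ℕ) := by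
  have h1 := zc_iff g x
  have hk := H.k4
  have hx := H.x_lt
  have h3 : 1 ≤ g.k / 4 := by omega
  have h4 : 4 * (g.k / 4) ≤ g.k := by omega
  generalize g.k / 4 = q at h1 h3 h4 ⊢
  generalize zc g x = z at h1 ⊢
  rcases h1 with h1 | h1 | h1 | h1 | h1 | h1 | h1 | h1 | h1 | h1 | h1 | h1 | h1 | h1 | h1 | h1 | h1 | h1 | h1 <;>
    (rw [h1.1]; omega)

theorem shF_U {f : ℤ × ℤ} (hf : f ∈ E.U) : Emb.shF E f = some true := by
  unfold Emb.shF; rw [if_pos hf]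

theorem shF_cases (hE : EData E D x₁ x₂ w₁ w₂ s₁ s₂) {f : ℤ × ℤ} (hf : f ∈ D) :
    (f ∈ E.U ∧ Emb.shF E f = some true) ∨ (f ∈ E.L ∧ Emb.shF E f = some false) ∨
      (f ∈ slab x₁ x₂ s₁ s₂ ∧ Emb.shF E f = none) := by
  rcases Emb.mem_cases hE hf with ⟨h1, -⟩ | ⟨h1, h2, -⟩ | ⟨h1, h2, h3⟩
  · exact Or.inl ⟨h1, shF_U h1⟩
  · refine Or.inr (Or.inl ⟨h1, ?_⟩)
    unfold Emb.shF; rw [if_neg h2, if_pos h1]
  · refine Or.inr (Or.inr ⟨h1, ?_⟩)
    unfold Emb.shF; rw [if_neg h2, if_neg h3]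

/-- **The piece of the zone `0`.** -/
theorem PE.pz0 (H : PE E g) (hE : EData E D x₁ x₂ w₁ w₂ s₁ s₂) : pz E g 0 =
    (D.image (fun f => (Emb.shF E f, f)) ∪
      (RF g.x2 (g.x2 + 2 * (g.k / 4 : ℕ)) (g.yc - g.a) (g.yc + g.a)).image tn) ∪
      (RF (g.x1 - 2 * (g.k / 4 : ℕ)) g.x1 (g.yc - g.a) (g.yc + g.a)).image tn := by
  obtain ⟨rfl, rfl, rfl, rfl⟩ := H.eqs hE
  have hab := H.ab
  have hbc := H.bc
  have hap := H.a_pos
  have hx := H.x_lt
  have h5 : 4 * (g.k / 4) ≤ g.k := by omega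
  have hp : ∀ z, (z == 0 || z == zp 0 || z == zm 0) = true ↔ (z = 0 ∨ z = 1 ∨ z = 17) := by
    intro z
    simp only [Bool.or_eq_true, beq_iff_eq, or_assoc]
    rfl
  ext ⟨σ, f⟩
  rw [pz, mem_zF, hp, Finset.mem_union, Finset.mem_union, Finset.mem_image, Finset.mem_image,
    Finset.mem_image]
  constructor
  · rintro ⟨h1, h2⟩
    rcases mem_EF.mp h1 with ⟨h4, h6⟩ | ⟨h4, h6⟩ | ⟨h4, h6⟩
    · simp only at h4 h6
      subst h4
      unfold zone at h2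
      simp only [ne_eq, not_true_eq_false, if_false] at h2
      by_cases h7 : f.2 < g.yc - g.c ∨ g.yc + g.c ≤ f.2
      · rw [if_pos h7] at h2
        omega
      · rw [if_neg h7] at h2
        have h8 := (H.mid_col f.1).mp h2
        rw [H.mem_base] at h6
        obtain ⟨-, s1, s2⟩ := h6
        have hnc : ¬ g.cham f.1 := by
          unfold BGeo.cham
          omega
        have h12 : g.yc - g.a ≤ f.2 := by
          by_contra hcon
          apply s2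
          unfold BGeo.solid BGeo.hgt
          simp only [Bool.false_eq_true, if_false]
          exact ⟨by omega, by omega, by omega, by omega, fun h => hnc h.1⟩
        have h13 : f.2 < g.yc + g.a := by
          by_contra hcon
          apply s1
          unfold BGeo.solid BGeo.hgt
          simp only [if_true]
          exact ⟨by omega, by omega, by omega, by omega, fun h => hnc h.1⟩
        rcases lt_or_ge f.1 g.x1 with h14 | h14
        · right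
          exact ⟨f, by rw [mem_RF]; omega, rfl⟩
        rcases lt_or_ge f.1 g.x2 with h15 | h15
        · left
          left
          have hs : f ∈ slab g.x1 g.x2 (g.yc - g.a) (g.yc + g.a) := by rw [mem_RF]; omega
          have hfD : f ∈ D := slab_sub hE.win hE.h1 hE.h3 hs
          refine ⟨f, hfD, ?_⟩
          rcases Emb.mem_cases hE hfD with ⟨-, -, h16⟩ | ⟨-, -, h16⟩ | ⟨-, h16, h17⟩
          · exact absurd hs h16
          · exact absurd hs h16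
          · unfold Emb.shF; rw [if_neg h16, if_neg h17]
        · left
          right
          exact ⟨f, by rw [mem_RF]; omega, rfl⟩
    · simp only at h4 h6
      subst h4
      left
      left
      exact ⟨f, Emb.sub_U hE h6, by rw [shF_U h6]⟩
    · simp only at h4 h6
      subst h4
      left
      left
      refine ⟨f, Emb.sub_L hE h6, ?_⟩
      rcases Emb.mem_cases hE (Emb.sub_L hE h6) with ⟨-, h7, -⟩ | ⟨h1, h2, -⟩ | ⟨-, -, h7⟩
      · exact absurd h6 h7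
      · unfold Emb.shF; rw [if_neg h2, if_pos h1]
      · exact absurd h6 h7
  · have rect : ∀ f' : ℤ × ℤ, g.x1 - 2 * (g.k / 4 : ℕ) ≤ f'.1 → f'.1 < g.x2 + 2 * (g.k / 4 : ℕ) →
        g.yc - g.a ≤ f'.2 → f'.2 < g.yc + g.a →
        ((none, f') : Option Bool × (ℤ × ℤ)) ∈ E.F ∧
          (zone g (none, f') = 0 ∨ zone g (none, f') = 1 ∨ zone g (none, f') = 17) := by
      intro f' a1 a2 a3 a4
      refine ⟨mem_EF.mpr (Or.inl ⟨rfl, H.mid_base a1 a2 a3 a4⟩), ?_⟩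
      unfold zone
      simp only [ne_eq, not_true_eq_false, if_false]
      rw [if_neg (by omega)]
      exact (H.mid_col f'.1).mpr ⟨a1, a2⟩
    rintro ((⟨f', hf, he⟩ | ⟨f', hf, he⟩) | ⟨f', hf, he⟩)
    · obtain ⟨rfl, rfl⟩ := Prod.mk.inj he
      refine ⟨Emb.mem_F hE hf, ?_⟩
      rcases shF_cases hE hf with ⟨-, h7⟩ | ⟨-, h7⟩ | ⟨h6, h7⟩
      · left
        unfold zone
        rw [if_pos (by rw [h7]; simp)]
      · left
        unfold zone
        rw [if_pos (by rw [h7]; simp)]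
      · rw [h7]
        rw [mem_RF] at h6
        exact (rect f' (by omega) (by omega) (by omega) (by omega)).2
    · obtain ⟨rfl, rfl⟩ := Prod.mk.inj he
      rw [mem_RF] at hf
      exact rect f' (by omega) (by omega) (by omega) (by omega)
    · obtain ⟨rfl, rfl⟩ := Prod.mk.inj he
      rw [mem_RF] at hf
      exact rect f' (by omega) (by omega) (by omega) (by omega)

end Piece

section Piece2

variable {E : SEnv} {g : BGeo} {ω : Option Bool × (ℤ × ℤ) → Bool} {mu ρu ml ρl : ℝ}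
  {D : Finset (ℤ × ℤ)} {x₁ x₂ w₁ w₂ s₁ s₂ : ℤ} {ψD : (ℤ × ℤ) × (ℤ × ℤ) → ℝ}

/-- sides of the base sheet at the rectangle of the piece -/
theorem PE.ini_base (H : PE E g) (hE : EData E D x₁ x₂ w₁ w₂ s₁ s₂) {e₀ : (ℤ × ℤ) × (ℤ × ℤ)}
    (h1 : e₀.swap ∉ Sides ZQ (RS (g.x1 - 2 * (g.k / 4 : ℕ)) (g.x2 + 2 * (g.k / 4 : ℕ)) (g.yc - g.a)
      (g.yc + g.a)))
    (h2 : e₀.1.1 < g.x1 ∨ g.x2 < e₀.1.1 ∨ e₀.2.1 < g.x1 ∨ g.x2 < e₀.2.1) :
    Ini E.Q (pz E g 0 : Set (Option Bool × (ℤ × ℤ))) (mp tn e₀) := by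
  have hp := H.pz0 hE
  obtain ⟨rfl, rfl, rfl, rfl⟩ := H.eqs hE
  have hx := H.x_lt
  rintro ⟨σ, f⟩ hf k hk
  rw [Finset.mem_coe, hp, Finset.mem_union, Finset.mem_union, Finset.mem_image, Finset.mem_image,
    Finset.mem_image] at hf
  have rect : ∀ f' : ℤ × ℤ, (tn f' : Option Bool × (ℤ × ℤ)) = (σ, f) →
      g.x1 - 2 * (g.k / 4 : ℕ) ≤ f'.1 → f'.1 < g.x2 + 2 * (g.k / 4 : ℕ) →
      g.yc - g.a ≤ f'.2 → f'.2 < g.yc + g.a → False := by
    intro f' he a1 a2 a3 a4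
    obtain ⟨rfl, rfl⟩ := Prod.mk.inj he
    rw [H.c_base (H.mid_base a1 a2 a3 a4), H.c_base (H.mid_base a1 a2 a3 a4)] at hk
    apply h1
    refine ⟨f', ⟨a1, a2, a3, a4⟩, k, ?_⟩
    have e1 : e₀.1 = ZQ.c f' (k + 1) := congrArg (fun s => s.1.2) hk
    have e2 : e₀.2 = ZQ.c f' k := congrArg (fun s => s.2.2) hk
    show (e₀.2, e₀.1) = _
    rw [e1, e2]
    rfl
  rcases hf with (⟨f', hf, he⟩ | ⟨f', hf, he⟩) | ⟨f', hf, he⟩
  · rcases shF_cases hE hf with ⟨h6, h7⟩ | ⟨h6, h7⟩ | ⟨h6, h7⟩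
    · obtain ⟨rfl, rfl⟩ := Prod.mk.inj he
      rw [Emb.cor_D hE hf, Emb.cor_D hE hf] at hk
      have e1 : e₀.1 = ZQ.c f' (k + 1) := congrArg (fun s => s.1.2) hk
      have e2 : e₀.2 = ZQ.c f' k := congrArg (fun s => s.2.2) hk
      have e3 : none = Emb.shV E g.x1 g.x2 (g.yc - g.a) (g.yc + g.a) (ZQ.c f' (k + 1)) :=
        congrArg (fun s => s.1.1) hk
      have e4 : none = Emb.shV E g.x1 g.x2 (g.yc - g.a) (g.yc + g.a) (ZQ.c f' k) :=
        congrArg (fun s => s.2.1) hk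
      have c1 : g.x1 ≤ (ZQ.c f' (k + 1)).1 ∧ (ZQ.c f' (k + 1)).1 ≤ g.x2 ∧
          g.yc - g.a ≤ (ZQ.c f' (k + 1)).2 ∧ (ZQ.c f' (k + 1)).2 ≤ g.yc + g.a := by
        by_contra h8
        rw [(Emb.shV_U hE h6).2 h8] at e3
        exact absurd e3 (by simp)
      have c2 : g.x1 ≤ (ZQ.c f' k).1 ∧ (ZQ.c f' k).1 ≤ g.x2 ∧
          g.yc - g.a ≤ (ZQ.c f' k).2 ∧ (ZQ.c f' k).2 ≤ g.yc + g.a := by
        by_contra h8
        rw [(Emb.shV_U hE h6).2 h8] at e4
        exact absurd e4 (by simp)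
      rw [← e1] at c1
      rw [← e2] at c2
      omega
    · obtain ⟨rfl, rfl⟩ := Prod.mk.inj he
      rw [Emb.cor_D hE hf, Emb.cor_D hE hf] at hk
      have e1 : e₀.1 = ZQ.c f' (k + 1) := congrArg (fun s => s.1.2) hk
      have e2 : e₀.2 = ZQ.c f' k := congrArg (fun s => s.2.2) hk
      have e3 : none = Emb.shV E g.x1 g.x2 (g.yc - g.a) (g.yc + g.a) (ZQ.c f' (k + 1)) :=
        congrArg (fun s => s.1.1) hk
      have e4 : none = Emb.shV E g.x1 g.x2 (g.yc - g.a) (g.yc + g.a) (ZQ.c f' k) :=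
        congrArg (fun s => s.2.1) hk
      have c1 : g.x1 ≤ (ZQ.c f' (k + 1)).1 ∧ (ZQ.c f' (k + 1)).1 ≤ g.x2 ∧
          g.yc - g.a ≤ (ZQ.c f' (k + 1)).2 ∧ (ZQ.c f' (k + 1)).2 ≤ g.yc + g.a := by
        by_contra h8
        rw [(Emb.shV_L hE h6).2 h8] at e3
        exact absurd e3 (by simp)
      have c2 : g.x1 ≤ (ZQ.c f' k).1 ∧ (ZQ.c f' k).1 ≤ g.x2 ∧
          g.yc - g.a ≤ (ZQ.c f' k).2 ∧ (ZQ.c f' k).2 ≤ g.yc + g.a := by
        by_contra h8
        rw [(Emb.shV_L hE h6).2 h8] at e4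
        exact absurd e4 (by simp)
      rw [← e1] at c1
      rw [← e2] at c2
      omega
    · rw [h7] at he
      rw [mem_RF] at h6
      exact rect f' he (by omega) (by omega) (by omega) (by omega)
  · rw [mem_RF] at hf
    exact rect f' he (by omega) (by omega) (by omega) (by omega)
  · rw [mem_RF] at hf
    exact rect f' he (by omega) (by omega) (by omega) (by omega)

/-! ### The three straight pieces around a rectangle -/

/-- the new part of the word on the right -/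
def wR (g : BGeo) (l : ℤ) : List (((Option Bool × (ℤ × ℤ)) × (Option Bool × (ℤ × ℤ))) × ℤ) :=
  segm tn (g.x2, g.yc - g.a) (l - 1) (2 * (g.k / 4)) ++
    (segm tn (g.x2 + 2 * (g.k / 4 : ℕ), g.yc - g.a) l (2 * g.a) ++
      segm tn (g.x2 + 2 * (g.k / 4 : ℕ), g.yc + g.a) (l + 1) (2 * (g.k / 4)))

/-- the new part of the word on the left -/
def wL (g : BGeo) (l : ℤ) : List (((Option Bool × (ℤ × ℤ)) × (Option Bool × (ℤ × ℤ))) × ℤ) :=
  segm tn (g.x1, g.yc + g.a) (l - 1) (2 * (g.k / 4)) ++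
    (segm tn (g.x1 - 2 * (g.k / 4 : ℕ), g.yc + g.a) l (2 * g.a) ++
      segm tn (g.x1 - 2 * (g.k / 4 : ℕ), g.yc - g.a) (l + 1) (2 * (g.k / 4)))

theorem mem_wR {l : ℤ} (hl : l % 4 = 1)
    {z : ((Option Bool × (ℤ × ℤ)) × (Option Bool × (ℤ × ℤ))) × ℤ} (hz : z ∈ wR g l) :
    (∃ x, g.x2 ≤ x ∧ x < g.x2 + 2 * (g.k / 4 : ℕ) ∧
      z = (mp tn ((x, g.yc - g.a), (x + 1, g.yc - g.a)), l - 1)) ∨
    (∃ y, g.yc - g.a ≤ y ∧ y < g.yc + g.a ∧
      z = (mp tn ((g.x2 + 2 * (g.k / 4 : ℕ), y), (g.x2 + 2 * (g.k / 4 : ℕ), y + 1)), l)) ∨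
    (∃ x, g.x2 ≤ x ∧ x < g.x2 + 2 * (g.k / 4 : ℕ) ∧
      z = (mp tn ((x + 1, g.yc + g.a), (x, g.yc + g.a)), l + 1)) := by
  unfold wR at hz
  rw [List.mem_append, List.mem_append] at hz
  rcases hz with h | h | h
  · obtain ⟨i, hi, rfl⟩ := mem_segmP h
    refine Or.inl ⟨g.x2 + i, by omega, by push_cast at hi ⊢; omega, ?_⟩
    rw [dv_m0 (show (l - 1) % 4 = 0 by omega)]
    simp [mp, tn]
  · obtain ⟨i, hi, rfl⟩ := mem_segmP h
    refine Or.inr (Or.inl ⟨g.yc - g.a + i, by omega, by omega, ?_⟩)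
    rw [dv_m1 hl]
    simp [mp, tn]
  · obtain ⟨i, hi, rfl⟩ := mem_segmP h
    refine Or.inr (Or.inr ⟨g.x2 + 2 * (g.k / 4 : ℕ) - i - 1, by omega, by omega, ?_⟩)
    rw [dv_m2 (show (l + 1) % 4 = 2 by omega)]
    ext <;> simp [mp, tn] <;> ring

theorem mem_wL {l : ℤ} (hl : l % 4 = 3)
    {z : ((Option Bool × (ℤ × ℤ)) × (Option Bool × (ℤ × ℤ))) × ℤ} (hz : z ∈ wL g l) :
    (∃ x, g.x1 - 2 * (g.k / 4 : ℕ) ≤ x ∧ x < g.x1 ∧
      z = (mp tn ((x + 1, g.yc + g.a), (x, g.yc + g.a)), l - 1)) ∨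
    (∃ y, g.yc - g.a ≤ y ∧ y < g.yc + g.a ∧
      z = (mp tn ((g.x1 - 2 * (g.k / 4 : ℕ), y + 1), (g.x1 - 2 * (g.k / 4 : ℕ), y)), l)) ∨
    (∃ x, g.x1 - 2 * (g.k / 4 : ℕ) ≤ x ∧ x < g.x1 ∧
      z = (mp tn ((x, g.yc - g.a), (x + 1, g.yc - g.a)), l + 1)) := by
  unfold wL at hz
  rw [List.mem_append, List.mem_append] at hz
  rcases hz with h | h | h
  · obtain ⟨i, hi, rfl⟩ := mem_segmP h
    refine Or.inl ⟨g.x1 - i - 1, by omega, by omega, ?_⟩
    rw [dv_m2 (show (l - 1) % 4 = 2 by omega)]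
    ext <;> simp [mp, tn] <;> ring
  · obtain ⟨i, hi, rfl⟩ := mem_segmP h
    refine Or.inr (Or.inl ⟨g.yc + g.a - i - 1, by omega, by omega, ?_⟩)
    rw [dv_m3 hl]
    ext <;> simp [mp, tn] <;> ring
  · obtain ⟨i, hi, rfl⟩ := mem_segmP h
    refine Or.inr (Or.inr ⟨g.x1 - 2 * (g.k / 4 : ℕ) + i, by omega, by omega, ?_⟩)
    rw [dv_m0 (show (l + 1) % 4 = 0 by omega)]
    simp [mp, tn]

/-! ### Values -/

theorem cutP_ne {ψ : (Option Bool × (ℤ × ℤ)) × (Option Bool × (ℤ × ℤ)) → ℝ}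
    {s : (Option Bool × (ℤ × ℤ)) × (Option Bool × (ℤ × ℤ))} (h : s.1.1 ≠ none ∨ s.2.1 ≠ none) :
    cutP g ml ρl ψ s = ψ s := by
  unfold cutP
  rw [if_neg, if_neg]
  · rintro ⟨x, y, -, -, rfl⟩
    rcases h with h | h <;> exact h rfl
  · rintro ⟨x, y, -, -, rfl⟩
    rcases h with h | h <;> exact h rfl

theorem PE.val_R (H : PE E g) (hP : Par mu ρu ml ρl) {l : ℤ} (hl : l % 4 = 1)
    {z : ((Option Bool × (ℤ × ℤ)) × (Option Bool × (ℤ × ℤ))) × ℤ} (hz : z ∈ wR g l) :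
    val (cutP g ml ρl (E.psi mu ρu ml ρl ψD ψD)) z = ρu + (l : ℝ) * (Real.pi / 12) := by
  have ha := H.a_pos
  have hx := H.x_lt
  have hk := H.k4
  have h1 : 4 * (g.k / 4) ≤ g.k := by omega
  have e1 := hP.rho
  have e2 := hP.sum
  unfold val
  rcases mem_wR hl hz with ⟨x, a1, a2, rfl⟩ | ⟨y, a1, a2, rfl⟩ | ⟨x, a1, a2, rfl⟩
  · simp only
    rw [cutP_n (Or.inl rfl), H.psi_lo0 (by omega), dl_r0 (by omega) hx.le (by omega)]
    push_cast
    linarith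
  · simp only
    rw [cutP_r a1 a2, dl_r0 (by omega) hx.le (by omega)]
    linarith
  · simp only
    rw [cutP_n (Or.inl rfl), H.psi_up2 (by omega), du_r0 (by omega) hx.le (by omega)]
    push_cast
    linarith

theorem PE.val_L (H : PE E g) (hP : Par mu ρu ml ρl) {l : ℤ} (hl : l % 4 = 3)
    {z : ((Option Bool × (ℤ × ℤ)) × (Option Bool × (ℤ × ℤ))) × ℤ} (hz : z ∈ wL g l) :
    val (cutP g ml ρl (E.psi mu ρu ml ρl ψD ψD)) z = ρl + (l : ℝ) * (Real.pi / 12) := by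
  have ha := H.a_pos
  have hx := H.x_lt
  have hk := H.k4
  have h1 : 4 * (g.k / 4) ≤ g.k := by omega
  have e1 := hP.rho
  have e2 := hP.sum
  unfold val
  rcases mem_wL hl hz with ⟨x, a1, a2, rfl⟩ | ⟨y, a1, a2, rfl⟩ | ⟨x, a1, a2, rfl⟩
  · simp only
    rw [cutP_n (Or.inl rfl), H.psi_up2 (by omega), du_l0 (by omega) hx.le (by omega)]
    push_cast
    linarith
  · simp only
    rw [cutP_l a1 a2, dl_l0 (by omega) hx.le (by omega)]
    linarith
  · simp only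
    rw [cutP_n (Or.inl rfl), H.psi_lo0 (by omega), dl_l0 (by omega) hx.le (by omega)]
    push_cast
    linarith

open Classical in
/-- the phases with the value `ρl` on the left wall -/
def psiM (g : BGeo) (ρl : ℝ) (Ψ : (Option Bool × (ℤ × ℤ)) × (Option Bool × (ℤ × ℤ)) → ℝ)
    (s : (Option Bool × (ℤ × ℤ)) × (Option Bool × (ℤ × ℤ))) : ℝ :=
  if ∃ y : ℤ, s = mp tn ((g.x1, y + 1), (g.x1, y)) then ρl else Ψ s

theorem psiM_ne {Ψ : (Option Bool × (ℤ × ℤ)) × (Option Bool × (ℤ × ℤ)) → ℝ}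
    {s : (Option Bool × (ℤ × ℤ)) × (Option Bool × (ℤ × ℤ))} (h : s.1.1 ≠ none ∨ s.2.1 ≠ none) :
    psiM g ρl Ψ s = Ψ s := by
  unfold psiM
  rw [if_neg]
  rintro ⟨y, rfl⟩
  rcases h with h | h <;> exact h rfl

theorem psiM_R {Ψ : (Option Bool × (ℤ × ℤ)) × (Option Bool × (ℤ × ℤ)) → ℝ} (hx : g.x1 < g.x2)
    {l : ℤ} (hl : l % 4 = 1)
    {z : ((Option Bool × (ℤ × ℤ)) × (Option Bool × (ℤ × ℤ))) × ℤ} (hz : z ∈ wR g l) :
    psiM g ρl Ψ z.1 = Ψ z.1 := by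
  unfold psiM
  rw [if_neg]
  rintro ⟨y', hy⟩
  have k1 : z.1.1.2.1 = g.x1 := by rw [hy]; rfl
  have k2 : z.1.2.2.1 = g.x1 := by rw [hy]; rfl
  rcases mem_wR hl hz with ⟨x, a1, a2, rfl⟩ | ⟨y, a1, a2, rfl⟩ | ⟨x, a1, a2, rfl⟩ <;>
    simp only [mp, tn, Prod.map] at k1 k2 <;> omega

/-- entries of the left wall -/
theorem mem_L {l : ℤ} (hl : l % 4 = 3)
    {z : ((Option Bool × (ℤ × ℤ)) × (Option Bool × (ℤ × ℤ))) × ℤ}
    (hz : z ∈ segm tn (g.x1, g.yc + g.a) l (2 * g.a)) :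
    ∃ y, g.yc - g.a ≤ y ∧ y < g.yc + g.a ∧ z = (mp tn ((g.x1, y + 1), (g.x1, y)), l) := by
  obtain ⟨i, hi, rfl⟩ := mem_segmP hz
  refine ⟨g.yc + g.a - i - 1, by omega, by omega, ?_⟩
  rw [dv_m3 hl]
  ext <;> simp [mp, tn] <;> ring

/-- entries of the right wall -/
theorem mem_R {l : ℤ} (hl : l % 4 = 1)
    {z : ((Option Bool × (ℤ × ℤ)) × (Option Bool × (ℤ × ℤ))) × ℤ}
    (hz : z ∈ segm tn (g.x2, g.yc - g.a) l (2 * g.a)) :
    ∃ y, g.yc - g.a ≤ y ∧ y < g.yc + g.a ∧ z = (mp tn ((g.x2, y), (g.x2, y + 1)), l) := by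
  obtain ⟨i, hi, rfl⟩ := mem_segmP hz
  refine ⟨g.yc - g.a + i, by omega, by omega, ?_⟩
  rw [dv_m1 hl]
  simp [mp, tn]

/-! ### Pasting -/

theorem PE.sht_RF (H : PE E g) {a b : ℤ} (h1 : g.x1 - 2 * (g.k / 4 : ℕ) ≤ a)
    (h2 : b ≤ g.x2 + 2 * (g.k / 4 : ℕ)) : Sht E.Q tn tn (RF a b (g.yc - g.a) (g.yc + g.a)) := by
  refine ⟨fun _ _ h => congrArg Prod.snd h, fun _ _ h => congrArg Prod.snd h, fun f hf k => ?_⟩
  rw [mem_RF] at hf
  exact H.c_base (H.mid_base (by omega) (by omega) (by omega) (by omega)) k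

theorem PE.D_core (H : PE E g) (hE : EData E D g.x1 g.x2 w₁ w₂ (g.yc - g.a) (g.yc + g.a))
    (hP : Par mu ρu ml ρl)
    {A B A' B' : List (((Option Bool × (ℤ × ℤ)) × (Option Bool × (ℤ × ℤ))) × ℤ)}
    {G : Set ((Option Bool × (ℤ × ℤ)) × (Option Bool × (ℤ × ℤ)))} {lr ll : ℤ} (hlr : lr % 4 = 1)
    (hll : ll % 4 = 3)
    {ψ0 : (Option Bool × (ℤ × ℤ)) × (Option Bool × (ℤ × ℤ)) → ℝ}
    (hd : Disc E.Q ((D.image (fun f => (Emb.shF E f, f)) : Finset _) : Set (Option Bool × (ℤ × ℤ))) G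
      (A ++ (segm tn (g.x2, g.yc - g.a) lr (2 * g.a) ++ B)))
    (he : A ++ (wR g lr ++ B) = A' ++ (segm tn (g.x1, g.yc + g.a) ll (2 * g.a) ++ B'))
    (hF : Fam (A ++ (segm tn (g.x2, g.yc - g.a) lr (2 * g.a) ++ B)).length
      (th (A ++ (segm tn (g.x2, g.yc - g.a) lr (2 * g.a) ++ B)) ψ0))
    (hR : ∀ x ∈ segm tn (g.x2, g.yc - g.a) lr (2 * g.a), val ψ0 x = ρu + (lr : ℝ) * (Real.pi / 12))
    (hA : ∀ x, x ∈ A ∨ x ∈ B →
      psiM g ρl (cutP g ml ρl (E.psi mu ρu ml ρl ψD ψD)) x.1 = ψ0 x.1)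
    (hA' : ∀ x, x ∈ A' ∨ x ∈ B' → cutP g ml ρl (E.psi mu ρu ml ρl ψD ψD) x.1 =
      psiM g ρl (cutP g ml ρl (E.psi mu ρu ml ρl ψD ψD)) x.1)
    (hI : ∀ x, x ∈ A' ∨ x ∈ B' → Ini E.Q (pz E g 0 : Set (Option Bool × (ℤ × ℤ))) x.1) :
    0 ≤ Conf.aP E.Q (pz E g 0) ω (cutP g ml ρl (E.psi mu ρu ml ρl ψD ψD)) (bS E.Q (pz E g 0)) := by
  have ha := H.a_pos
  have hx := H.x_lt
  have hk := H.k4
  have hq : 1 ≤ g.k / 4 := by omega
  have hp0 := H.pz0 hE
  have t1 : (g.yc + g.a - (g.yc - g.a)).toNat = 2 * g.a := by omega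
  have t2 : (g.x2 + 2 * (g.k / 4 : ℕ) - g.x2).toNat = 2 * (g.k / 4) := by omega
  have t3 : (g.x1 - (g.x1 - 2 * (g.k / 4 : ℕ))).toNat = 2 * (g.k / 4) := by omega
  -- the right rectangle
  have c1 := (H.sht_RF (a := g.x2) (b := g.x2 + 2 * (g.k / 4 : ℕ)) (by omega) le_rfl).chart
  rw [coe_RF] at c1
  have hd1 : Disjoint ((D.image (fun f => (Emb.shF E f, f)) : Finset _) : Set (Option Bool × (ℤ × ℤ)))
      (tn '' RS g.x2 (g.x2 + 2 * (g.k / 4 : ℕ)) (g.yc - g.a) (g.yc + g.a)) := by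
    rw [Set.disjoint_left]
    rintro x h1 ⟨f, hf, rfl⟩
    rw [Finset.mem_coe, Finset.mem_image] at h1
    obtain ⟨f', h2, h3⟩ := h1
    obtain ⟨h4, rfl⟩ := Prod.mk.inj h3
    rcases shF_cases hE h2 with ⟨-, h7⟩ | ⟨-, h7⟩ | ⟨h6, h7⟩
    · rw [h7] at h4; exact absurd h4 (by simp)
    · rw [h7] at h4; exact absurd h4 (by simp)
    · rw [mem_RF] at h6
      have h8 := hf.1
      omega
  obtain ⟨G1, p1⟩ := pasteR c1 (u := A) (v := B) (a := lr) (by rw [t1]; exact hd) hlr hd1 (by omega)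
    (by omega)
  rw [t1, t2] at p1
  have p2 := p1.cast rfl rfl he
  -- the left rectangle
  have c2 := (H.sht_RF (a := g.x1 - 2 * (g.k / 4 : ℕ)) (b := g.x1) le_rfl (by omega)).chart
  rw [coe_RF] at c2
  have hd2 : Disjoint (((D.image (fun f => (Emb.shF E f, f)) : Finset _) : Set (Option Bool × (ℤ × ℤ))) ∪
      tn '' RS g.x2 (g.x2 + 2 * (g.k / 4 : ℕ)) (g.yc - g.a) (g.yc + g.a))
      (tn '' RS (g.x1 - 2 * (g.k / 4 : ℕ)) g.x1 (g.yc - g.a) (g.yc + g.a)) := by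
    rw [Set.disjoint_left]
    rintro x (h1 | ⟨f', hf', h3⟩) ⟨f, hf, rfl⟩
    · rw [Finset.mem_coe, Finset.mem_image] at h1
      obtain ⟨f', h2, h3⟩ := h1
      obtain ⟨h4, rfl⟩ := Prod.mk.inj h3
      rcases shF_cases hE h2 with ⟨-, h7⟩ | ⟨-, h7⟩ | ⟨h6, h7⟩
      · rw [h7] at h4; exact absurd h4 (by simp)
      · rw [h7] at h4; exact absurd h4 (by simp)
      · rw [mem_RF] at h6
        have h8 := hf.2.1
        omega
    · obtain ⟨-, rfl⟩ := Prod.mk.inj h3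
      have h8 := hf.2.1
      have h9 := hf'.1
      omega
  obtain ⟨G2, p3⟩ := pasteL c2 (u := A') (v := B') (a := ll) (by rw [t1]; exact p2) hll hd2
    (by omega) (by omega)
  rw [t1, t3] at p3
  have hset : (((D.image (fun f => (Emb.shF E f, f)) : Finset _) : Set (Option Bool × (ℤ × ℤ))) ∪
      tn '' RS g.x2 (g.x2 + 2 * (g.k / 4 : ℕ)) (g.yc - g.a) (g.yc + g.a)) ∪
      tn '' RS (g.x1 - 2 * (g.k / 4 : ℕ)) g.x1 (g.yc - g.a) (g.yc + g.a) =
      ((pz E g 0 : Finset _) : Set (Option Bool × (ℤ × ℤ))) := by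
    rw [hp0, Finset.coe_union, Finset.coe_union, Finset.coe_image (s := RF _ _ _ _),
      Finset.coe_image (s := RF _ _ _ _), coe_RF, coe_RF]
  have p4 : Disc E.Q ((pz E g 0 : Finset _) : Set (Option Bool × (ℤ × ℤ))) G2
      (A' ++ (wL g ll ++ B')) := p3.cast hset rfl rfl
  -- values
  have l1 : (segm (tn : ℤ × ℤ → Option Bool × (ℤ × ℤ)) (g.x2, g.yc - g.a) lr (2 * g.a)).length =
      2 * g.a := segm_length _ _ _ _
  have l2 : (segm (tn : ℤ × ℤ → Option Bool × (ℤ × ℤ)) (g.x1, g.yc + g.a) ll (2 * g.a)).length =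
      2 * g.a := segm_length _ _ _ _
  have l3 : (wR g lr).length = 2 * (g.k / 4) + (2 * g.a + 2 * (g.k / 4)) := by
    unfold wR
    simp only [List.length_append, segm_length]
  have l4 : (wL g ll).length = 2 * (g.k / 4) + (2 * g.a + 2 * (g.k / 4)) := by
    unfold wL
    simp only [List.length_append, segm_length]
  have f1 := fam_long (ψ' := psiM g ρl (cutP g ml ρl (E.psi mu ρu ml ρl ψD ψD))) (s' := wR g lr) hF hR
    (fun x hx' => by
      have h1 := H.val_R (ψD := ψD) hP hlr hx'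
      unfold val at h1 ⊢
      rw [psiM_R hx hlr hx', h1])
    (by omega) (by omega) (fun x hx' => by unfold val; rw [hA x (Or.inl hx')])
    (fun x hx' => by unfold val; rw [hA x (Or.inr hx')])
  rw [he] at f1
  have f2 := fam_long (ψ' := cutP g ml ρl (E.psi mu ρu ml ρl ψD ψD)) (s' := wL g ll)
    (c := ρl + (ll : ℝ) * (Real.pi / 12)) f1
    (fun x hx' => by
      obtain ⟨y, h1, h2, rfl⟩ := mem_L hll hx'
      unfold val psiM
      rw [if_pos ⟨y, rfl⟩])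
    (fun x hx' => H.val_L hP hll hx') (by omega) (by omega)
    (fun x hx' => by unfold val; rw [hA' x (Or.inl hx')])
    (fun x hx' => by unfold val; rw [hA' x (Or.inr hx')])
  refine aP_disc_nonneg p4 ?_ ω f2.pos
  intro e he'
  obtain ⟨x, hx', rfl⟩ := List.mem_map.mp he'
  rw [List.mem_append, List.mem_append] at hx'
  rcases hx' with h | h | h
  · exact hI x (Or.inl h)
  · rcases mem_wL hll h with ⟨x, a1, a2, rfl⟩ | ⟨y, a1, a2, rfl⟩ | ⟨x, a1, a2, rfl⟩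
    · refine H.ini_base hE (e₀ := ((x + 1, g.yc + g.a), (x, g.yc + g.a))) ?_ ?_
      · show ((x, g.yc + g.a), (x + 1, g.yc + g.a)) ∉ _
        rw [sw0]
        rintro ⟨-, -, -, h⟩
        exact absurd h (by simp)
      · simp only; omega
    · refine H.ini_base hE
        (e₀ := ((g.x1 - 2 * (g.k / 4 : ℕ), y + 1), (g.x1 - 2 * (g.k / 4 : ℕ), y))) ?_ ?_
      · show ((g.x1 - 2 * (g.k / 4 : ℕ), y), (g.x1 - 2 * (g.k / 4 : ℕ), y + 1)) ∉ _
        rw [sw1]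
        rintro ⟨h, -⟩
        simp only at h
        omega
      · simp only; omega
    · refine H.ini_base hE (e₀ := ((x, g.yc - g.a), (x + 1, g.yc - g.a))) ?_ ?_
      · show ((x + 1, g.yc - g.a), (x, g.yc - g.a)) ∉ _
        rw [sw2]
        rintro ⟨-, -, h, -⟩
        simp only at h
        omega
      · simp only; omega
  · exact hI x (Or.inr h)

theorem PE.ini_R (H : PE E g) (hE : EData E D x₁ x₂ w₁ w₂ s₁ s₂) {l : ℤ} (hl : l % 4 = 1)
    {z : ((Option Bool × (ℤ × ℤ)) × (Option Bool × (ℤ × ℤ))) × ℤ} (hz : z ∈ wR g l) :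
    Ini E.Q (pz E g 0 : Set (Option Bool × (ℤ × ℤ))) z.1 := by
  have hx := H.x_lt
  have hk := H.k4
  have hq : 1 ≤ g.k / 4 := by omega
  rcases mem_wR hl hz with ⟨x, a1, a2, rfl⟩ | ⟨y, a1, a2, rfl⟩ | ⟨x, a1, a2, rfl⟩
  · refine H.ini_base hE (e₀ := ((x, g.yc - g.a), (x + 1, g.yc - g.a))) ?_ ?_
    · show ((x + 1, g.yc - g.a), (x, g.yc - g.a)) ∉ _
      rw [sw2]
      rintro ⟨-, -, h, -⟩
      simp only at h
      omega
    · simp only; omega
  · refine H.ini_base hE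
      (e₀ := ((g.x2 + 2 * (g.k / 4 : ℕ), y), (g.x2 + 2 * (g.k / 4 : ℕ), y + 1))) ?_ ?_
    · show ((g.x2 + 2 * (g.k / 4 : ℕ), y + 1), (g.x2 + 2 * (g.k / 4 : ℕ), y)) ∉ _
      rw [sw3]
      rintro ⟨-, h, -⟩
      exact absurd h (by simp)
    · simp only; omega
  · refine H.ini_base hE (e₀ := ((x + 1, g.yc + g.a), (x, g.yc + g.a))) ?_ ?_
    · show ((x, g.yc + g.a), (x + 1, g.yc + g.a)) ∉ _
      rw [sw0]
      rintro ⟨-, -, -, h⟩
      exact absurd h (by simp)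
    · simp only; omega

/-! ### The word of the polygon -/

theorem segm_congr {V : Type} {pos pos' : ℤ × ℤ → V} {a : ℤ} : ∀ (n : ℕ) (p : ℤ × ℤ),
    (∀ i : ℕ, i ≤ n → pos (p + (i : ℤ) • dv a) = pos' (p + (i : ℤ) • dv a)) →
    segm pos p a n = segm pos' p a n
  | 0, _, _ => rfl
  | n + 1, p, h => by
    have h0 := h 0 (by omega)
    have h1 := h 1 (by omega)
    simp only [Nat.cast_zero, zero_smul, add_zero, Nat.cast_one, one_smul] at h0 h1
    have h3 := segm_congr (pos := pos) (pos' := pos') n (p + dv a) (fun i hi => by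
      have h2 := h (i + 1) (by omega)
      have e : p + ((i + 1 : ℕ) : ℤ) • dv a = p + dv a + (i : ℤ) • dv a := by
        push_cast
        rw [add_smul, one_smul]
        abel
      rw [e] at h2
      exact h2)
    rw [segm_succ, segm_succ, h0, h1, h3]

theorem segm_mem_of {V : Type} (pos : ℤ × ℤ → V) (a : ℤ) : ∀ (n : ℕ) (p : ℤ × ℤ) (i : ℕ), i < n →
    ((pos (p + (i : ℤ) • dv a), pos (p + (i : ℤ) • dv a + dv a)), a) ∈ segm pos p a n
  | 0, _, i, h => absurd h (Nat.not_lt_zero i)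
  | n + 1, p, 0, _ => by
    rw [segm_succ]
    simp
  | n + 1, p, i + 1, h => by
    rw [segm_succ]
    refine List.mem_cons_of_mem _ ?_
    have h1 := segm_mem_of pos a n (p + dv a) i (by omega)
    have e : p + ((i + 1 : ℕ) : ℤ) • dv a = p + dv a + (i : ℤ) • dv a := by
      push_cast
      rw [add_smul, one_smul]
      abel
    rw [e]
    exact h1

theorem nd_out {α β : Type} {a b c : List (α × β)} (h : ((a ++ (b ++ c)).map Prod.fst).Nodup)
    {x y : α × β} (hx : x ∈ a ∨ x ∈ c) (hy : y ∈ b) : x.1 ≠ y.1 := by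
  rw [List.map_append, List.map_append, List.nodup_append, List.nodup_append] at h
  obtain ⟨-, ⟨-, -, h1⟩, h2⟩ := h
  rcases hx with hx | hx
  · exact h2 _ (List.mem_map_of_mem hx) _ (List.mem_append_left _ (List.mem_map_of_mem hy))
  · exact (h1 _ (List.mem_map_of_mem hy) _ (List.mem_map_of_mem hx)).symm

/-- the vertices of the polygon in the environment -/
def pD (E : SEnv) (g : BGeo) (v : ℤ × ℤ) : Option Bool × (ℤ × ℤ) :=
  (Emb.shV E g.x1 g.x2 (g.yc - g.a) (g.yc + g.a) v, v)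

theorem pD_slab {v : ℤ × ℤ} (h : g.x1 ≤ v.1 ∧ v.1 ≤ g.x2 ∧ g.yc - g.a ≤ v.2 ∧ v.2 ≤ g.yc + g.a) :
    pD E g v = tn v := by
  unfold pD Emb.shV
  rw [if_pos h]

/-- entries of the word off the walls -/
theorem oth (hE : EData E D g.x1 g.x2 w₁ w₂ (g.yc - g.a) (g.yc + g.a))
    {w : List (((ℤ × ℤ) × (ℤ × ℤ)) × ℤ)} (hD : Disc ZQ (D : Set (ℤ × ℤ)) (Glued ZQ D) w)
    {x : ((ℤ × ℤ) × (ℤ × ℤ)) × ℤ} (hx : x ∈ w)
    (hr : ∀ y, g.yc - g.a ≤ y → y < g.yc + g.a → x.1 ≠ ((g.x2, y), (g.x2, y + 1)))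
    (hl : ∀ y, g.yc - g.a ≤ y → y < g.yc + g.a → x.1 ≠ ((g.x1, y + 1), (g.x1, y))) :
    ((mp (pD E g) x.1).1.1 ≠ none ∨ (mp (pD E g) x.1).2.1 ≠ none) ∧
      Ini E.Q (E.F : Set (Option Bool × (ℤ × ℤ))) (mp (pD E g) x.1) ∧
      E.psi mu ρu ml ρl ψD ψD (mp (pD E g) x.1) = ψD x.1 := by
  obtain ⟨⟨f, hf, k, hk⟩, h2⟩ := hD.bd hx
  have hf' : f ∈ D := Finset.mem_coe.mp hf
  have hb : Ini ZQ (D : Set (ℤ × ℤ)) (sd ZQ f k) := by
    rw [← hk]; exact ini_of_bd h2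
  have h1 := hE.h1
  have h12 := hE.h2
  have h3 := hE.h3
  have hfS : f ∉ slab g.x1 g.x2 (g.yc - g.a) (g.yc + g.a) := by
    intro hS
    rw [mem_RF] at hS
    obtain ⟨fx, fy⟩ := f
    simp only at hS
    rcases k4_cases k with rfl | rfl | rfl | rfl
    · rw [sd_ZQ0] at hk
      refine h2 ?_
      rw [hk]
      show ((fx + 1, fy), (fx, fy)) ∈ _
      rw [sw2]
      exact hE.win.sub _ _ (by omega) (by omega) (by omega) (by omega)
    · rw [sd_ZQ1] at hk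
      by_cases h5 : fx + 1 = g.x2
      · rw [h5] at hk
        exact hr fy (by omega) (by omega) hk
      · refine h2 ?_
        rw [hk]
        show ((fx + 1, fy + 1), (fx + 1, fy)) ∈ _
        rw [sw3]
        exact hE.win.sub _ _ (by omega) (by omega) (by omega) (by omega)
    · rw [sd_ZQ2] at hk
      refine h2 ?_
      rw [hk]
      show ((fx, fy + 1), (fx + 1, fy + 1)) ∈ _
      rw [sw0]
      exact hE.win.sub _ _ (by omega) (by omega) (by omega) (by omega)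
    · rw [sd_ZQ3] at hk
      by_cases h5 : fx = g.x1
      · rw [h5] at hk
        exact hl fy (by omega) (by omega) hk
      · refine h2 ?_
        rw [hk]
        show ((fx, fy), (fx, fy + 1)) ∈ _
        rw [sw1]
        exact hE.win.sub _ _ (by omega) (by omega) (by omega) (by omega)
  have e1 : mp (pD E g) x.1 = hE.emb.side (sd ZQ f k) := by
    rw [hk]
    rfl
  refine ⟨?_, ?_, ?_⟩
  · rw [hk]
    show Emb.shV E g.x1 g.x2 (g.yc - g.a) (g.yc + g.a) (ZQ.c f k) ≠ none ∨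
      Emb.shV E g.x1 g.x2 (g.yc - g.a) (g.yc + g.a) (ZQ.c f (k + 1)) ≠ none
    rcases Emb.ends hE hf' hfS hb with (h | h) | ⟨h | h, -⟩
    · exact Or.inl (by rw [h]; simp)
    · exact Or.inr (by rw [h]; simp)
    · exact Or.inl (by rw [h]; simp)
    · exact Or.inr (by rw [h]; simp)
  · rw [e1]
    exact (SixB.mem_bS.mp (hE.emb_bS hf' hfS hb)).2
  · rw [e1, hE.emb_psi hf' hfS hb, hk]

/-- **The piece of the polygon.** -/
theorem PE.D_nonneg (H : PE E g) (hE : EData E D x₁ x₂ w₁ w₂ s₁ s₂) (hP : Par mu ρu ml ρl)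
    {w : List (((ℤ × ℤ) × (ℤ × ℤ)) × ℤ)} (hD : Disc ZQ (D : Set (ℤ × ℤ)) (Glued ZQ D) w)
    (hF : Fam w.length (th w ψD)) (hW : WallsW x₁ x₂ g.yc g.a w)
    (hr : ∀ y, g.yc - g.a ≤ y → y < g.yc + g.a → ψD ((x₂, y), (x₂, y + 1)) = ρu)
    (hl : ∀ y, g.yc - g.a ≤ y → y < g.yc + g.a → ψD ((x₁, y + 1), (x₁, y)) = ρl)
    (ω : Option Bool × (ℤ × ℤ) → Bool) :
    0 ≤ Conf.aP E.Q (pz E g 0) ω (cutP g ml ρl (E.psi mu ρu ml ρl ψD ψD)) (bS E.Q (pz E g 0)) := by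
  obtain ⟨rfl, rfl, rfl, rfl⟩ := H.eqs hE
  have ha := H.a_pos
  have hx := H.x_lt
  have hS : Sht E.Q (fun f => (Emb.shF E f, f)) (pD E g) D :=
    ⟨fun _ _ h => (Prod.mk.inj h).2, fun _ _ h => (Prod.mk.inj h).2, fun f hf k => Emb.cor_D hE hf k⟩
  have hd := hS.disc hD
  have hnd := hD.inv.nodup
  have hpzF : ∀ {s : (Option Bool × (ℤ × ℤ)) × (Option Bool × (ℤ × ℤ))},
      Ini E.Q (E.F : Set (Option Bool × (ℤ × ℤ))) s →
        Ini E.Q (pz E g 0 : Set (Option Bool × (ℤ × ℤ))) s := by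
    intro s hs f hf k
    exact hs f (Finset.mem_coe.mpr (mem_zF.mp (Finset.mem_coe.mp hf)).1) k
  -- the phases
  let ψ0 : (Option Bool × (ℤ × ℤ)) × (Option Bool × (ℤ × ℤ)) → ℝ := fun s => ψD (s.1.2, s.2.2)
  have hval : ∀ x : ((ℤ × ℤ) × (ℤ × ℤ)) × ℤ, ψ0 (mp (pD E g) x.1) = ψD x.1 := fun x => rfl
  have hF0 : Fam (w.map (Prod.map (mp (pD E g)) id)).length
      (th (w.map (Prod.map (mp (pD E g)) id)) ψ0) := by
    rw [List.length_map]
    refine hF.congr fun i hi => ?_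
    rw [th_lt ψD hi, th_lt ψ0 (by rw [List.length_map]; exact hi), List.getElem_map]
    rfl
  -- the walls
  have hwR : ∀ l : ℤ, l % 4 = 1 → (segm id ((g.x2, g.yc - g.a) : ℤ × ℤ) l (2 * g.a)).map
      (Prod.map (mp (pD E g)) id) = segm tn (g.x2, g.yc - g.a) l (2 * g.a) := by
    intro l hl'
    rw [segm_map]
    refine segm_congr _ _ fun i hi => pD_slab ?_
    rw [dv_m1 hl']
    simp
    omega
  have hwL : ∀ l : ℤ, l % 4 = 3 → (segm id ((g.x1, g.yc + g.a) : ℤ × ℤ) l (2 * g.a)).map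
      (Prod.map (mp (pD E g)) id) = segm tn (g.x1, g.yc + g.a) l (2 * g.a) := by
    intro l hl'
    rw [segm_map]
    refine segm_congr _ _ fun i hi => pD_slab ?_
    rw [dv_m3 hl']
    simp
    omega
  have hmR : ∀ {l y : ℤ}, l % 4 = 1 → g.yc - g.a ≤ y → y < g.yc + g.a →
      (((g.x2, y), (g.x2, y + 1)), l) ∈ segm id ((g.x2, g.yc - g.a) : ℤ × ℤ) l (2 * g.a) := by
    intro l y h1 h2 h3
    have h4 := segm_mem_of id l (2 * g.a) (g.x2, g.yc - g.a) (y - (g.yc - g.a)).toNat (by omega)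
    rw [dv_m1 h1, Int.toNat_of_nonneg (by omega)] at h4
    simpa using h4
  have hmL : ∀ {l y : ℤ}, l % 4 = 3 → g.yc - g.a ≤ y → y < g.yc + g.a →
      (((g.x1, y + 1), (g.x1, y)), l) ∈ segm id ((g.x1, g.yc + g.a) : ℤ × ℤ) l (2 * g.a) := by
    intro l y h1 h2 h3
    have h4 := segm_mem_of id l (2 * g.a) (g.x1, g.yc + g.a) (g.yc + g.a - y - 1).toNat (by omega)
    rw [dv_m3 h1, Int.toNat_of_nonneg (by omega)] at h4
    have e1 : ((g.x1, g.yc + g.a) : ℤ × ℤ) + (g.yc + g.a - y - 1) • ((0, -1) : ℤ × ℤ) =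
        (g.x1, y + 1) := by
      ext
      · simp
      · simp; ring
    rw [e1] at h4
    have e2 : ((g.x1, y + 1) : ℤ × ℤ) + (0, -1) = (g.x1, y) := by
      ext <;> simp
    rw [e2] at h4
    exact h4
  -- entries off the walls
  have key : ∀ {a b c d : List (((ℤ × ℤ) × (ℤ × ℤ)) × ℤ)} {lr ll : ℤ} {x : ((ℤ × ℤ) × (ℤ × ℤ)) × ℤ},
      lr % 4 = 1 → ll % 4 = 3 →
      w = a ++ (segm id ((g.x2, g.yc - g.a) : ℤ × ℤ) lr (2 * g.a) ++ b) →
      w = c ++ (segm id ((g.x1, g.yc + g.a) : ℤ × ℤ) ll (2 * g.a) ++ d) →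
      (x ∈ a ∨ x ∈ b) → (x ∈ c ∨ x ∈ d) →
      ((mp (pD E g) x.1).1.1 ≠ none ∨ (mp (pD E g) x.1).2.1 ≠ none) ∧
        Ini E.Q (E.F : Set (Option Bool × (ℤ × ℤ))) (mp (pD E g) x.1) ∧
        E.psi mu ρu ml ρl ψD ψD (mp (pD E g) x.1) = ψD x.1 := by
    intro a b c d lr ll x h1 h2 h3 h4 h5 h6
    refine oth hE hD ?_ ?_ ?_
    · rw [h3, List.mem_append, List.mem_append]
      tauto
    · intro y h7 h8 h9
      have h10 := hnd
      rw [h3] at h10
      exact nd_out h10 h5 (hmR h1 h7 h8) h9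
    · intro y h7 h8 h9
      have h10 := hnd
      rw [h4] at h10
      exact nd_out h10 h6 (hmL h2 h7 h8) h9
  -- the three facts
  let P : ((Option Bool × (ℤ × ℤ)) × (Option Bool × (ℤ × ℤ))) × ℤ → Prop := fun x =>
    (x.1.1.1 ≠ none ∨ x.1.2.1 ≠ none) ∧ Ini E.Q (E.F : Set (Option Bool × (ℤ × ℤ))) x.1 ∧
      E.psi mu ρu ml ρl ψD ψD x.1 = ψ0 x.1
  have P1 : ∀ {x : ((Option Bool × (ℤ × ℤ)) × (Option Bool × (ℤ × ℤ))) × ℤ}, P x →
      psiM g ρl (cutP g ml ρl (E.psi mu ρu ml ρl ψD ψD)) x.1 = ψ0 x.1 := by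
    intro x hx'
    rw [psiM_ne hx'.1, cutP_ne hx'.1, hx'.2.2]
  have P2 : ∀ {x : ((Option Bool × (ℤ × ℤ)) × (Option Bool × (ℤ × ℤ))) × ℤ}, P x →
      cutP g ml ρl (E.psi mu ρu ml ρl ψD ψD) x.1 =
        psiM g ρl (cutP g ml ρl (E.psi mu ρu ml ρl ψD ψD)) x.1 := by
    intro x hx'
    rw [psiM_ne hx'.1]
  have P3 : ∀ {x : ((Option Bool × (ℤ × ℤ)) × (Option Bool × (ℤ × ℤ))) × ℤ}, P x →
      Ini E.Q (pz E g 0 : Set (Option Bool × (ℤ × ℤ))) x.1 := fun hx' => hpzF hx'.2.1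
  have L1 : ∀ {l : ℤ} {x : ((Option Bool × (ℤ × ℤ)) × (Option Bool × (ℤ × ℤ))) × ℤ}, l % 4 = 3 →
      x ∈ segm tn (g.x1, g.yc + g.a) l (2 * g.a) →
      psiM g ρl (cutP g ml ρl (E.psi mu ρu ml ρl ψD ψD)) x.1 = ψ0 x.1 := by
    intro l x h1 h2
    obtain ⟨y, h3, h4, rfl⟩ := mem_L h1 h2
    unfold psiM
    rw [if_pos ⟨y, rfl⟩]
    exact (hl y h3 h4).symm
  have R1 : ∀ {l : ℤ}, l % 4 = 1 → ∀ x ∈ segm tn (g.x2, g.yc - g.a) l (2 * g.a),
      val ψ0 x = ρu + (l : ℝ) * (Real.pi / 12) := by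
    intro l h1 x h2
    obtain ⟨y, h3, h4, rfl⟩ := mem_R h1 h2
    unfold val
    have h5 := hr y h3 h4
    show ψD ((g.x2, y), (g.x2, y + 1)) + _ = _
    rw [h5]
  obtain ⟨u, m, v, lr, ll, hlr, hll, hw | hw⟩ := hW
  · have hw' : w = (u ++ (segm id ((g.x2, g.yc - g.a) : ℤ × ℤ) lr (2 * g.a) ++ m)) ++
        (segm id ((g.x1, g.yc + g.a) : ℤ × ℤ) ll (2 * g.a) ++ v) := by
      rw [hw]; simp only [List.append_assoc]
    have Pu : ∀ x ∈ u.map (Prod.map (mp (pD E g)) id), P x := by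
      intro x hx'
      obtain ⟨z, hz, rfl⟩ := List.mem_map.mp hx'
      exact key hlr hll hw hw' (Or.inl hz) (Or.inl (List.mem_append_left _ hz))
    have Pm : ∀ x ∈ m.map (Prod.map (mp (pD E g)) id), P x := by
      intro x hx'
      obtain ⟨z, hz, rfl⟩ := List.mem_map.mp hx'
      exact key hlr hll hw hw' (Or.inr (List.mem_append_left _ hz))
        (Or.inl (List.mem_append_right _ (List.mem_append_right _ hz)))
    have Pv : ∀ x ∈ v.map (Prod.map (mp (pD E g)) id), P x := by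
      intro x hx'
      obtain ⟨z, hz, rfl⟩ := List.mem_map.mp hx'
      exact key hlr hll hw hw' (Or.inr (List.mem_append_right _ (List.mem_append_right _ hz)))
        (Or.inr hz)
    have hW0 : w.map (Prod.map (mp (pD E g)) id) = u.map (Prod.map (mp (pD E g)) id) ++
        (segm tn (g.x2, g.yc - g.a) lr (2 * g.a) ++ (m.map (Prod.map (mp (pD E g)) id) ++
          (segm tn (g.x1, g.yc + g.a) ll (2 * g.a) ++ v.map (Prod.map (mp (pD E g)) id)))) := by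
      rw [hw]
      simp only [List.map_append]
      rw [hwR lr hlr, hwL ll hll]
    rw [hW0] at hd hF0
    refine H.D_core hE hP hlr hll hd
      (A' := u.map (Prod.map (mp (pD E g)) id) ++ (wR g lr ++ m.map (Prod.map (mp (pD E g)) id)))
      (B' := v.map (Prod.map (mp (pD E g)) id)) (by simp only [List.append_assoc]) hF0 (R1 hlr)
      ?_ ?_ ?_
    · intro x hx'
      simp only [List.mem_append] at hx'
      rcases hx' with h | h | h | h
      · exact P1 (Pu x h)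
      · exact P1 (Pm x h)
      · exact L1 hll h
      · exact P1 (Pv x h)
    · intro x hx'
      simp only [List.mem_append] at hx'
      rcases hx' with (h | h | h) | h
      · exact P2 (Pu x h)
      · exact (psiM_R hx hlr h).symm
      · exact P2 (Pm x h)
      · exact P2 (Pv x h)
    · intro x hx'
      simp only [List.mem_append] at hx'
      rcases hx' with (h | h | h) | h
      · exact P3 (Pu x h)
      · exact H.ini_R hE hlr h
      · exact P3 (Pm x h)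
      · exact P3 (Pv x h)
  · have hw' : w = (u ++ (segm id ((g.x1, g.yc + g.a) : ℤ × ℤ) ll (2 * g.a) ++ m)) ++
        (segm id ((g.x2, g.yc - g.a) : ℤ × ℤ) lr (2 * g.a) ++ v) := by
      rw [hw]; simp only [List.append_assoc]
    have Pu : ∀ x ∈ u.map (Prod.map (mp (pD E g)) id), P x := by
      intro x hx'
      obtain ⟨z, hz, rfl⟩ := List.mem_map.mp hx'
      exact key hlr hll hw' hw (Or.inl (List.mem_append_left _ hz)) (Or.inl hz)
    have Pm : ∀ x ∈ m.map (Prod.map (mp (pD E g)) id), P x := by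
      intro x hx'
      obtain ⟨z, hz, rfl⟩ := List.mem_map.mp hx'
      exact key hlr hll hw' hw (Or.inl (List.mem_append_right _ (List.mem_append_right _ hz)))
        (Or.inr (List.mem_append_left _ hz))
    have Pv : ∀ x ∈ v.map (Prod.map (mp (pD E g)) id), P x := by
      intro x hx'
      obtain ⟨z, hz, rfl⟩ := List.mem_map.mp hx'
      exact key hlr hll hw' hw (Or.inr hz)
        (Or.inr (List.mem_append_right _ (List.mem_append_right _ hz)))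
    have hW0 : w.map (Prod.map (mp (pD E g)) id) = (u.map (Prod.map (mp (pD E g)) id) ++
        (segm tn (g.x1, g.yc + g.a) ll (2 * g.a) ++ m.map (Prod.map (mp (pD E g)) id))) ++
          (segm tn (g.x2, g.yc - g.a) lr (2 * g.a) ++ v.map (Prod.map (mp (pD E g)) id)) := by
      rw [hw']
      simp only [List.map_append]
      rw [hwR lr hlr, hwL ll hll]
    rw [hW0] at hd hF0
    refine H.D_core hE hP hlr hll hd
      (A' := u.map (Prod.map (mp (pD E g)) id))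
      (B' := m.map (Prod.map (mp (pD E g)) id) ++ (wR g lr ++ v.map (Prod.map (mp (pD E g)) id)))
      (by simp only [List.append_assoc]) hF0 (R1 hlr) ?_ ?_ ?_
    · intro x hx'
      simp only [List.mem_append] at hx'
      rcases hx' with (h | h | h) | h
      · exact P1 (Pu x h)
      · exact L1 hll h
      · exact P1 (Pm x h)
      · exact P1 (Pv x h)
    · intro x hx'
      simp only [List.mem_append] at hx'
      rcases hx' with h | h | h | h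
      · exact P2 (Pu x h)
      · exact P2 (Pm x h)
      · exact (psiM_R hx hlr h).symm
      · exact P2 (Pv x h)
    · intro x hx'
      simp only [List.mem_append] at hx'
      rcases hx' with h | h | h | h
      · exact P3 (Pu x h)
      · exact P3 (Pm x h)
      · exact H.ini_R hE hlr h
      · exact P3 (Pv x h)

end Piece2

end

end Pool.Agent.SixB.Pos
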