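import Pool.Agent.Lib.SixB.S3PosCh

/-!
# 6BD step 3: strands which avoid the cores

* `col_val`: the values of the two blocks over a column of a tube differ by `0` or `π / 3`.
* `PE.tube`: weight `√3` for the arcs of a part of a tube.
* `PE.wt_free`: a strand of the environment without cores has the weight `√3`.
* `PE.wt_pz`: a strand of a piece which avoids its core has the weight `√3`.
* `PE.cutP_Z`: the cut sides are not island sides.
-/

set_option autoImplicit false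
set_option linter.unusedSectionVars false

namespace Pool.Agent.SixB.Pos

open Pool.Agent.SixB Pool.Agent.SixB.Gd Pool.Agent.Perc Pool.Agent.Perc.Q Relation

noncomputable section

variable {E : SEnv} {g : BGeo} {ω : Option Bool × (ℤ × ℤ) → Bool} {mu ρu ml ρl : ℝ}
  {ψu ψl : (ℤ × ℤ) × (ℤ × ℤ) → ℝ}

/-- columns of the tube `i` on the side `s` -/
def tcol (g : BGeo) (s : Bool) (i : ℕ) (x : ℤ) : Prop :=
  if s then g.x2 + 3 * i * g.k ≤ x ∧ x < g.x2 + 3 * i * g.k + g.k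
  else g.x1 - 3 * i * g.k - g.k ≤ x ∧ x < g.x1 - 3 * i * g.k

/-- **Values of the blocks over a tube.** -/
theorem col_val (hP : Par mu ρu ml ρl) (hk : 0 < g.k) (hx : g.x1 ≤ g.x2) {s : Bool} {i : ℕ} (hi : i < 3) :
    ∃ β δ : ℝ, (δ = 0 ∨ δ = Real.pi / 3) ∧
      ∀ x, tcol g s i x → dl g ml ρl x = β ∧ du g mu ρu x = β + δ := by
  have e1 := hP.sig_l
  have e2 := sig_alpha mu
  have e3 := sig_alpha ml
  have e4 := hP.rho
  have e5 := hP.sum
  have hi' : i = 0 ∨ i = 1 ∨ i = 2 := by omega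
  unfold tcol
  cases s
  · rcases hi' with rfl | rfl | rfl
    · refine ⟨ρl - Real.pi / 12, Real.pi / 3, Or.inr rfl, fun x h => ?_⟩
      simp only [Bool.false_eq_true, if_false] at h
      push_cast at h
      rw [dl_l0 hk hx ⟨by omega, by omega⟩, du_l0 hk hx ⟨by omega, by omega⟩]
      exact ⟨rfl, by linarith⟩
    · refine ⟨ρl - Real.pi / 12 + BGeo.sig ml, Real.pi / 3, Or.inr rfl, fun x h => ?_⟩
      simp only [Bool.false_eq_true, if_false] at h
      push_cast at h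
      rw [dl_l1 hk hx ⟨by omega, by omega⟩, du_l1 hk hx ⟨by omega, by omega⟩]
      exact ⟨rfl, by linarith⟩
    · refine ⟨ρl - Real.pi / 12 + BGeo.sig ml + BGeo.alpha ml, 0, Or.inl rfl, fun x h => ?_⟩
      simp only [Bool.false_eq_true, if_false] at h
      push_cast at h
      rw [dl_l2 hk hx (by omega), du_l2 hk hx (by omega)]
      exact ⟨rfl, by linarith⟩
  · rcases hi' with rfl | rfl | rfl
    · refine ⟨ρl + ml - Real.pi / 12, 0, Or.inl rfl, fun x h => ?_⟩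
      simp only [if_true] at h
      push_cast at h
      rw [dl_r0 hk hx ⟨by omega, by omega⟩, du_r0 hk hx ⟨by omega, by omega⟩]
      exact ⟨rfl, by linarith⟩
    · refine ⟨ρl + ml - Real.pi / 12 - BGeo.sig ml, 0, Or.inl rfl, fun x h => ?_⟩
      simp only [if_true] at h
      push_cast at h
      rw [dl_r1 hk hx ⟨by omega, by omega⟩, du_r1 hk hx ⟨by omega, by omega⟩]
      exact ⟨rfl, by linarith⟩
    · refine ⟨ρl + ml - Real.pi / 12 - BGeo.sig ml - BGeo.alpha ml, Real.pi / 3, Or.inr rfl, fun x h => ?_⟩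
      simp only [if_true] at h
      push_cast at h
      rw [dl_r2 hk hx (by omega), du_r2 hk hx (by omega)]
      exact ⟨rfl, by linarith⟩

/-- the sheet of base faces -/
theorem PE.sht (H : PE E g) {T : Finset (ℤ × ℤ)} (hT : T.image tn ⊆ E.F) : Sht E.Q tn tn T := by
  refine ⟨fun _ _ h => congrArg Prod.snd h, fun _ _ h => congrArg Prod.snd h, fun f hf k => ?_⟩
  rcases mem_EF.mp (hT (Finset.mem_image_of_mem tn hf)) with h2 | h2 | h2
  · exact H.c_base h2.2 k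
  · exact absurd h2.1 (by simp)
  · exact absurd h2.1 (by simp)

variable {G : Finset (Option Bool × (ℤ × ℤ))} {a : (Option Bool × (ℤ × ℤ)) × (Option Bool × (ℤ × ℤ))}
  {ψ : (Option Bool × (ℤ × ℤ)) × (Option Bool × (ℤ × ℤ)) → ℝ}

/-- **Arcs of a part of a tube.** -/
theorem PE.tube (H : PE E g) (hP : Par mu ρu ml ρl) {s : Bool} {i : ℕ} (hi : i < 3) {X₀ X₁ : ℤ}
    (hX : X₀ < X₁) (h0 : tcol g s i X₀) (h1 : tcol g s i (X₁ - 1)) (hG : G ⊆ E.F)
    (hR : (RF X₀ X₁ (g.yc - g.a) (g.yc + g.a)).image tn ⊆ G) (ha : a ∈ bS E.Q G)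
    (hv : Vis E.Q ω (G : Set (Option Bool × (ℤ × ℤ))) a ⊆
      (((RF X₀ X₁ (g.yc - g.a) (g.yc + g.a)).image tn : Finset _) : Set _))
    (h2 : ∀ x, X₀ ≤ x → x < X₁ → ψ (mp tn ((x, g.yc - g.a), (x + 1, g.yc - g.a))) =
      E.psi mu ρu ml ρl ψu ψl (mp tn ((x, g.yc - g.a), (x + 1, g.yc - g.a))))
    (h3 : ∀ x, X₀ ≤ x → x < X₁ → ψ (mp tn ((x + 1, g.yc + g.a), (x, g.yc + g.a))) =
      E.psi mu ρu ml ρl ψu ψl (mp tn ((x + 1, g.yc + g.a), (x, g.yc + g.a))))
    (h4 : ∀ y, g.yc - g.a ≤ y → y < g.yc + g.a → mp tn ((X₁, y), (X₁, y + 1)) ∈ bS E.Q G →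
      ψ (mp tn ((X₁, y), (X₁, y + 1))) = dl g ml ρl (X₁ - 1) - Real.pi / 12)
    (h5 : ∀ y, g.yc - g.a ≤ y → y < g.yc + g.a → mp tn ((X₀, y + 1), (X₀, y)) ∈ bS E.Q G →
      ψ (mp tn ((X₀, y + 1), (X₀, y))) = dl g ml ρl X₀ + Real.pi / 12) :
    wt E.Q G ω ψ a = Real.sqrt 3 := by
  have hk : 0 < g.k := by have := H.k4; omega
  have hx := H.x_lt.le
  have hap := H.a_pos
  obtain ⟨β, δ, hδ, hc⟩ := col_val (g := g) hP hk hx (s := s) hi
  have hcol : ∀ x, X₀ ≤ x → x < X₁ → tcol g s i x := by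
    intro x h6 h7
    unfold tcol at h0 h1 ⊢
    split_ifs at h0 h1 ⊢ <;> constructor <;> omega
  refine tube_wt hX (by omega) (H.sht (hR.trans hG)) hR ha hv (β := β) hδ ?_ ?_ ?_ ?_
  · intro x h6 h7 _
    rw [h2 x h6 h7, H.psi_lo0 (by omega), (hc x (hcol x h6 h7)).1]
  · intro y h6 h7 h8
    rw [h4 y h6 h7 h8, (hc _ h1).1]
  · intro x h6 h7 _
    rw [h3 x h6 h7, H.psi_up2 (by omega), (hc x (hcol x h6 h7)).2]
  · intro y h6 h7 h8
    rw [h5 y h6 h7 h8, (hc _ h0).1]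

/-! ## Strands in the environment -/

/-- the tube of a zone which is not a core -/
theorem zone_tube : ∀ z < 18, z ∉ crz → ∃ s : Bool, ∃ i < 3, z = zi s i 0 ∨ z = zi s i 1 := by
  decide

/-- neighbours of the zones of a tube -/
theorem zone_nb {s : Bool} {i z z' : ℕ} (hi : i < 3) (hz' : z' < 18) (hz : z' ∉ crz) (ha : adjZ z z')
    (h : z = zi s i 0 ∨ z = zi s i 1) : z' = zi s i 0 ∨ z' = zi s i 1 := by
  have hi' : i = 0 ∨ i = 1 ∨ i = 2 := by omega
  simp only [crz, Finset.mem_insert, Finset.mem_singleton] at hz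
  unfold adjZ at ha
  unfold zi at h ⊢
  cases s <;> simp only [Bool.false_eq_true, if_false, if_true] at h ⊢ <;>
    rcases hi' with rfl | rfl | rfl <;> omega

/-- left end of the tube -/
def tl (g : BGeo) (s : Bool) (i : ℕ) : ℤ := if s then tx g true i 0 else tx g false i 1

/-- right end of the tube -/
def tr (g : BGeo) (s : Bool) (i : ℕ) : ℤ := if s then tx' g true i 1 else tx' g false i 0

theorem tl_col {s : Bool} {i : ℕ} (hk : 4 ≤ g.k) (hi : i < 3) :
    tl g s i < tr g s i ∧ tcol g s i (tl g s i - 1) ∧ tcol g s i (tr g s i) := by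
  have h3 : 1 ≤ g.k / 4 := by omega
  have h4 : 4 * (g.k / 4) ≤ g.k := by omega
  have hi' : i = 0 ∨ i = 1 ∨ i = 2 := by omega
  unfold tl tr tcol tx' tx
  generalize g.k / 4 = q at h3 h4 ⊢
  cases s <;> simp only [Bool.false_eq_true, if_false, if_true] <;>
    rcases hi' with rfl | rfl | rfl <;> push_cast <;> refine ⟨by omega, ⟨by omega, by omega⟩, by omega, by omega⟩

/-- the two rectangles of a tube -/
theorem mem_tube {s : Bool} {i : ℕ} {f : ℤ × ℤ} :
    f ∈ RF (tl g s i) (tr g s i) (g.yc - g.a) (g.yc + g.a) ↔ f ∈ tR g s i 0 ∨ f ∈ tR g s i 1 := by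
  rw [mem_RF, mem_tR, mem_tR]
  unfold tl tr tx' tx
  cases s <;> simp only [Bool.false_eq_true, if_false, if_true] <;> push_cast <;> omega

theorem tube_EF {s : Bool} {i : ℕ} :
    (RF (tl g s i) (tr g s i) (g.yc - g.a) (g.yc + g.a)).image tn = tF g s i 0 ∪ tF g s i 1 := by
  ext f
  unfold tF
  rw [Finset.mem_union, Finset.mem_image, Finset.mem_image, Finset.mem_image]
  constructor
  · rintro ⟨x, hx, rfl⟩
    rcases mem_tube.mp hx with h | h
    · exact Or.inl ⟨x, h, rfl⟩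
    · exact Or.inr ⟨x, h, rfl⟩
  · rintro (⟨x, hx, rfl⟩ | ⟨x, hx, rfl⟩)
    · exact ⟨x, mem_tube.mpr (Or.inl hx), rfl⟩
    · exact ⟨x, mem_tube.mpr (Or.inr hx), rfl⟩

/-- the faces of the slab over the columns of a tube -/
theorem PE.col_EF (H : PE E g) {s : Bool} {i : ℕ} (hi : i < 3) {x y : ℤ} (hx : tcol g s i x)
    (h1 : g.yc - g.a ≤ y) (h2 : y < g.yc + g.a) : tn (x, y) ∈ E.F := by
  have hab := H.ab
  have hbc := H.bc
  have hxl := H.x_lt
  have hi' : i = 0 ∨ i = 1 ∨ i = 2 := by omega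
  have hr : g.x1 - 7 * g.k ≤ x ∧ x < g.x2 + 7 * g.k := by
    unfold tcol at hx
    rcases hi' with rfl | rfl | rfl <;> split_ifs at hx <;> push_cast at hx <;> omega
  refine mem_EF.mpr (Or.inl ⟨rfl, ?_⟩)
  rw [H.mem_base]
  refine ⟨H.W ?_, ?_, ?_⟩
  · rw [mem_RF]
    simp only
    omega
  · rintro ⟨e1, -⟩
    simp only [BGeo.hgt, if_true] at e1
    omega
  · rintro ⟨e1, -⟩
    simp only [BGeo.hgt, Bool.false_eq_true, if_false] at e1
    omega

/-- the ends of a tube are not sides of the boundary -/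
theorem PE.end_r (H : PE E g) {s : Bool} {i : ℕ} (hi : i < 3) {x y : ℤ} (hx : tcol g s i x)
    (h1 : g.yc - g.a ≤ y) (h2 : y < g.yc + g.a) : mp tn ((x, y), (x, y + 1)) ∉ bS E.Q E.F := by
  intro h
  have h3 := H.col_EF hi hx h1 h2
  refine (SixB.mem_bS.mp h).2 (tn (x, y)) (by exact_mod_cast h3) 3 ?_
  have hb : (x, y) ∈ E.base := by
    rcases mem_EF.mp h3 with h4 | h4 | h4
    · exact h4.2
    · exact absurd h4.1 (by simp)
    · exact absurd h4.1 (by simp)
  show mp tn ((x, y), (x, y + 1)) = _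
  rw [H.c_base hb, H.c_base hb]
  rfl

theorem PE.end_l (H : PE E g) {s : Bool} {i : ℕ} (hi : i < 3) {x y : ℤ} (hx : tcol g s i (x - 1))
    (h1 : g.yc - g.a ≤ y) (h2 : y < g.yc + g.a) : mp tn ((x, y + 1), (x, y)) ∉ bS E.Q E.F := by
  intro h
  have h3 := H.col_EF hi hx h1 h2
  refine (SixB.mem_bS.mp h).2 (tn (x - 1, y)) (by exact_mod_cast h3) 1 ?_
  have hb : (x - 1, y) ∈ E.base := by
    rcases mem_EF.mp h3 with h4 | h4 | h4
    · exact h4.2
    · exact absurd h4.1 (by simp)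
    · exact absurd h4.1 (by simp)
  have e1 : ZQ.c (x - 1, y) 1 = (x, y) := by
    show (x - 1 + 1, y) = (x, y)
    rw [sub_add_cancel]
  have e2 : ZQ.c (x - 1, y) (1 + 1) = (x, y + 1) := by
    show (x - 1 + 1, y + 1) = (x, y + 1)
    rw [sub_add_cancel]
  show mp tn ((x, y + 1), (x, y)) = _
  rw [H.c_base hb, H.c_base hb, e1, e2]
  rfl

theorem tcol_sub {s : Bool} {i : ℕ} {x y z : ℤ} (h0 : tcol g s i x) (h1 : tcol g s i z) (h2 : x ≤ y) (h3 : y ≤ z) :
    tcol g s i y := by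
  unfold tcol at h0 h1 ⊢
  split_ifs at h0 h1 ⊢ <;> constructor <;> omega

/-- **Strands without cores.** -/
theorem PE.wt_free (H : PE E g) (hP : Par mu ρu ml ρl) (ha : a ∈ bS E.Q E.F)
    (hn : ∀ c ∈ crz, ∀ f ∈ kz E g c, f ∉ Vis E.Q ω (E.F : Set (Option Bool × (ℤ × ℤ))) a) :
    wt E.Q E.F ω (E.psi mu ρu ml ρl ψu ψl) a = Real.sqrt 3 := by
  have hk := H.k4
  -- zones of the visited faces
  have hz : ∀ f ∈ Vis E.Q ω (E.F : Set (Option Bool × (ℤ × ℤ))) a, zone g f ∉ crz := by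
    intro f hf hc
    exact hn _ hc f (mem_zF.mpr ⟨by exact_mod_cast hf.1, by simp⟩) hf
  obtain ⟨f₀, hf₀, k₀, hk₀⟩ := bS_sd ha
  have hv0 : f₀ ∈ Vis E.Q ω (E.F : Set (Option Bool × (ℤ × ℤ))) a :=
    ⟨by exact_mod_cast hf₀, k₀, by rw [hk₀]; exact mem_Orb_self⟩
  obtain ⟨s, i, hi, hzi⟩ := zone_tube _ (zone_lt g f₀) (hz f₀ hv0)
  obtain ⟨t1, t2, t3⟩ := tl_col (g := g) (s := s) (i := i) hk hi
  have hv : Vis E.Q ω (E.F : Set (Option Bool × (ℤ × ℤ))) a ⊆
      (((RF (tl g s i) (tr g s i) (g.yc - g.a) (g.yc + g.a)).image tn : Finset _) : Set _) := by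
    rw [tube_EF]
    have hmem : ∀ f, f ∈ E.F → (zone g f = zi s i 0 ∨ zone g f = zi s i 1) →
        f ∈ ((tF g s i 0 ∪ tF g s i 1 : Finset _) : Set _) := by
      intro f h1 h2
      rw [Finset.mem_coe, Finset.mem_union]
      rcases h2 with h2 | h2
      · exact Or.inl ((H.mem_tF hi (by omega)).mpr ⟨h1, h2⟩)
      · exact Or.inr ((H.mem_tF hi (by omega)).mpr ⟨h1, h2⟩)
    refine vis_conn ?_ ?_
    · intro f hf k he
      rw [hk₀] at he
      obtain ⟨rfl, rfl⟩ := sd_inj he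
      exact hmem _ hf₀ hzi
    · intro f hf hfA f' hf' k l hs
      rw [Finset.mem_coe, Finset.mem_union, H.mem_tF hi (by omega), H.mem_tF hi (by omega)] at hfA
      have h1 : zone g f = zi s i 0 ∨ zone g f = zi s i 1 := by
        rcases hfA with h | h
        · exact Or.inl h.2
        · exact Or.inr h.2
      have h2 := H.adj (by exact_mod_cast hf.1) (by exact_mod_cast hf'.1) hs
      exact hmem _ (by exact_mod_cast hf'.1)
        (zone_nb hi (zone_lt g f') (hz f' hf') h2 h1)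
  refine H.tube hP hi t1 (tcol_sub t2 t3 (by omega) (by omega)) (tcol_sub t2 t3 (by omega) (by omega))
    (Finset.Subset.refl _) ?_ ha hv (fun _ _ _ => rfl) (fun _ _ _ => rfl) ?_ ?_
  · rw [tube_EF]
    intro f hf
    rcases Finset.mem_union.mp hf with h | h
    · exact ((H.mem_tF hi (by omega)).mp h).1
    · exact ((H.mem_tF hi (by omega)).mp h).1
  · intro y h1 h2 h3
    exact absurd h3 (H.end_r hi t3 h1 h2)
  · intro y h1 h2 h3
    exact absurd h3 (H.end_l hi t2 h1 h2)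

/-! ## Strands in a piece -/

theorem rect_col {s : Bool} {i j : ℕ} (hk : 4 ≤ g.k) (hi : i < 3) (hj : j < 2) :
    tx g s i j < tx' g s i j ∧ tcol g s i (tx g s i j) ∧ tcol g s i (tx' g s i j - 1) := by
  have h3 : 1 ≤ g.k / 4 := by omega
  have h4 : 4 * (g.k / 4) ≤ g.k := by omega
  have hi' : i = 0 ∨ i = 1 ∨ i = 2 := by omega
  have hj' : j = 0 ∨ j = 1 := by omega
  unfold tcol tx' tx
  generalize g.k / 4 = q at h3 h4 ⊢
  cases s <;> simp only [Bool.false_eq_true, if_false, if_true] <;>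
    rcases hi' with rfl | rfl | rfl <;> rcases hj' with rfl | rfl <;> push_cast <;>
    refine ⟨by omega, ⟨by omega, by omega⟩, by omega, by omega⟩

/-- **Strands of a rectangle in a piece.** -/
theorem PE.wt_rect (H : PE E g) (hP : Par mu ρu ml ρl) {s : Bool} {i j : ℕ} (hi : i < 3) (hj : j < 2)
    (hG : G ⊆ E.F) (hR : tF g s i j ⊆ G) (ha : a ∈ bS E.Q G)
    (hv : Vis E.Q ω (G : Set (Option Bool × (ℤ × ℤ))) a ⊆ (tF g s i j : Set (Option Bool × (ℤ × ℤ)))) :
    wt E.Q G ω (cutP g ml ρl (E.psi mu ρu ml ρl ψu ψl)) a = Real.sqrt 3 := by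
  obtain ⟨t1, t2, t3⟩ := rect_col (g := g) (s := s) H.k4 hi hj
  have e : (RF (tx g s i j) (tx' g s i j) (g.yc - g.a) (g.yc + g.a)).image tn = tF g s i j := by
    unfold tF Gd.tR
    rw [show g.yc - (g.a : ℤ) + 2 * g.a = g.yc + g.a by ring]
  refine H.tube (ψu := ψu) (ψl := ψl) hP hi t1 t2 t3 hG (by rw [e]; exact hR) ha (by rw [e]; exact hv)
    ?_ ?_ ?_ ?_
  · intro x _ _
    exact cutP_n (Or.inl rfl)
  · intro x _ _
    exact cutP_n (Or.inl rfl)
  · intro y h1 h2 _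
    exact cutP_r h1 h2
  · intro y h1 h2 _
    exact cutP_l h1 h2

/-- **Strands of a piece without its core.** -/
theorem PE.wt_pz (H : PE E g) (hP : Par mu ρu ml ρl) {c : ℕ} (hc : c ∈ crz)
    (ha : a ∈ bS E.Q (pz E g c))
    (hn : ∀ f ∈ kz E g c, f ∉ Vis E.Q ω (pz E g c : Set (Option Bool × (ℤ × ℤ))) a) :
    wt E.Q (pz E g c) ω (cutP g ml ρl (E.psi mu ρu ml ρl ψu ψl)) a = Real.sqrt 3 := by
  obtain ⟨a1, a2, a3⟩ := rR_spec c hc
  obtain ⟨b1, b2, b3⟩ := rL_spec c hc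
  have hzz : ∀ f ∈ Vis E.Q ω (pz E g c : Set (Option Bool × (ℤ × ℤ))) a, f ∈ E.F ∧
      (zone g f = zp c ∨ zone g f = zm c) := by
    intro f hf
    have h1 := mem_zF.mp (show f ∈ pz E g c by exact_mod_cast hf.1)
    refine ⟨h1.1, ?_⟩
    have h2 := h1.2
    simp only [Bool.or_eq_true, beq_iff_eq] at h2
    rcases h2 with (h2 | h2) | h2
    · exact absurd hf (hn f (mem_zF.mpr ⟨h1.1, by simp [h2]⟩))
    · exact Or.inl h2
    · exact Or.inr h2
  have hadj : ∀ c ∈ crz, ¬ adjZ (zp c) (zm c) := by decide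
  have hG : pz E g c ⊆ E.F := Finset.filter_subset _ _
  have hRR : tF g (rR c).1 (rR c).2.1 (rR c).2.2 ⊆ pz E g c := by
    intro f hf
    obtain ⟨h1, h2⟩ := (H.mem_tF a1 a2).mp hf
    exact mem_zF.mpr ⟨h1, by rw [h2, a3]; simp⟩
  have hRL : tF g (rL c).1 (rL c).2.1 (rL c).2.2 ⊆ pz E g c := by
    intro f hf
    obtain ⟨h1, h2⟩ := (H.mem_tF b1 b2).mp hf
    exact mem_zF.mpr ⟨h1, by rw [h2, b3]; simp⟩
  obtain ⟨f₀, hf₀, k₀, hk₀⟩ := bS_sd ha
  have hv0 : f₀ ∈ Vis E.Q ω (pz E g c : Set (Option Bool × (ℤ × ℤ))) a :=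
    ⟨by exact_mod_cast hf₀, k₀, by rw [hk₀]; exact mem_Orb_self⟩
  rcases (hzz f₀ hv0).2 with hz0 | hz0
  · refine H.wt_rect hP a1 a2 hG hRR ha ?_
    refine vis_conn ?_ ?_
    · intro f hf k he
      rw [hk₀] at he
      obtain ⟨rfl, rfl⟩ := sd_inj he
      exact_mod_cast (H.mem_tF a1 a2).mpr ⟨(hzz _ hv0).1, by rw [hz0, a3]⟩
    · intro f hf hfA f' hf' k l hs
      have h1 := (H.mem_tF a1 a2).mp (by exact_mod_cast hfA)
      have h2 := H.adj (hzz f hf).1 (hzz f' hf').1 hs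
      rcases (hzz f' hf').2 with h3 | h3
      · exact_mod_cast (H.mem_tF a1 a2).mpr ⟨(hzz f' hf').1, by rw [h3, a3]⟩
      · rw [h1.2, a3, h3] at h2
        exact absurd h2 (hadj c hc)
  · refine H.wt_rect hP b1 b2 hG hRL ha ?_
    refine vis_conn ?_ ?_
    · intro f hf k he
      rw [hk₀] at he
      obtain ⟨rfl, rfl⟩ := sd_inj he
      exact_mod_cast (H.mem_tF b1 b2).mpr ⟨(hzz _ hv0).1, by rw [hz0, b3]⟩
    · intro f hf hfA f' hf' k l hs
      have h1 := (H.mem_tF b1 b2).mp (by exact_mod_cast hfA)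
      have h2 := H.adj (hzz f hf).1 (hzz f' hf').1 hs
      rcases (hzz f' hf').2 with h3 | h3
      · rw [h1.2, b3, h3] at h2
        exact absurd h2.symm (hadj c hc)
      · exact_mod_cast (H.mem_tF b1 b2).mpr ⟨(hzz f' hf').1, by rw [h3, b3]⟩

/-! ## Cut sides are not island sides -/

/-- **The cut sides are not island sides.** -/
theorem PE.cutP_Z (H : PE E g) (ha : a ∈ E.Z) : cutP g ml ρl ψ a = ψ a := by
  classical
  unfold SEnv.Z at ha
  have ha := Finset.mem_filter.mp ha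
  have hns : ∀ f k, (E.gu.solid true f ∨ E.gd.solid false f) → SEnv.pl a = (sd ZQ f k).swap →
      f.2 < g.yc + g.a → g.yc - g.a ≤ f.2 → False := by
    intro f k h1 _ h3 h4
    rw [H.hu, H.hd] at h1
    rcases h1 with ⟨e1, -⟩ | ⟨e1, -⟩
    · simp only [BGeo.hgt, if_true] at e1
      omega
    · simp only [BGeo.hgt, Bool.false_eq_true, if_false] at e1
      omega
  unfold cutP
  rw [if_neg, if_neg]
  · rintro ⟨x, y, h1, h2, rfl⟩
    rcases ha.2 with h | h | ⟨f, hf, k, hk⟩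
    · exact h rfl
    · exact h rfl
    · have h3 : ((x, y + 1), (x, y)) = (sd ZQ f k).swap := hk
      obtain ⟨u, v⟩ := f
      refine hns _ k hf hk ?_ ?_ <;> rcases k4_cases k with rfl | rfl | rfl | rfl
      all_goals first
        | rw [sd_ZQ0] at h3
        | rw [sd_ZQ1] at h3
        | rw [sd_ZQ2] at h3
        | rw [sd_ZQ3] at h3
      all_goals
        simp only [Prod.swap, Prod.mk.injEq] at h3 ⊢
        omega
  · rintro ⟨x, y, h1, h2, rfl⟩
    rcases ha.2 with h | h | ⟨f, hf, k, hk⟩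
    · exact h rfl
    · exact h rfl
    · have h3 : ((x, y), (x, y + 1)) = (sd ZQ f k).swap := hk
      obtain ⟨u, v⟩ := f
      refine hns _ k hf hk ?_ ?_ <;> rcases k4_cases k with rfl | rfl | rfl | rfl
      all_goals first
        | rw [sd_ZQ0] at h3
        | rw [sd_ZQ1] at h3
        | rw [sd_ZQ2] at h3
        | rw [sd_ZQ3] at h3
      all_goals
        simp only [Prod.swap, Prod.mk.injEq] at h3 ⊢
        omega

end

end Pool.Agent.SixB.Pos
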