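import Pool.Agent.Lib.SixB.S3PosY
import Pool.Agent.Lib.SixB.S3PosD
import Pool.Agent.Lib.SixB.S3PosT
import Pool.Agent.Lib.SixB.S3PosFam
import Pool.Agent.Lib.SixB.S3OutZ
import Pool.Agent.Lib.SixB.S3EmbD

/-!
# 6BD step 3, R11: positivity of the weights of an environment on the good event (Theorem P)

* `Slb.PWin`: the window contains the two blocks with margin one (`pWin_of_oWin`).
* `Slb.Ok.pe`, `Slb.Ok.par`: the environment `S.env W 0 0` of a slab.
* `Slb.Ok.WZD_nonneg`: the weights of the polygon `S.D` are nonnegative.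
* `Slb.Ok.WZ_nonneg`: on the good event `0 ≤ WZ` (`Slb.Ok.WZ_nonneg'` for `OWin`).
-/

set_option autoImplicit false
set_option linter.unusedSectionVars false

namespace Pool.Agent.SixB

open Pool.Agent.SixB.Pos Pool.Agent.Perc Pool.Agent.Perc.Q

noncomputable section

variable {S : Slb} {W : Finset (ℤ × ℤ)} {L r : ℕ} {g : ℤ → ℤ × ℤ} {j : ℤ → ℝ}
  {ω : Option Bool × (ℤ × ℤ) → Bool}

/-- the window contains a neighbourhood of the blocks -/
def Slb.PWin (S : Slb) (W : Finset (ℤ × ℤ)) : Prop :=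
  ∀ f : ℤ × ℤ, S.x1 - 7 * S.k - 1 ≤ f.1 → f.1 < S.x2 + 7 * S.k + 1 →
    S.yc - ((3 * S.k + (S.x2 - S.x1).toNat : ℕ) : ℤ) - 1 ≤ f.2 →
      f.2 < S.yc + ((3 * S.k + (S.x2 - S.x1).toNat : ℕ) : ℤ) + 1 → f ∈ W

theorem pWin_of_oWin (hW : BlkW.OWin S r W) : S.PWin W := by
  intro f h1 h2 h3 h4
  exact hW f (by omega) (by omega) (by push_cast at h3 ⊢; omega) (by push_cast at h4 ⊢; omega)

theorem Slb.PWin.slab (h : S.Ok) (hW : S.PWin W) :
    SixB.slab S.x1 S.x2 (S.yc - S.a) (S.yc + S.a) ⊆ W := by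
  intro f hf
  have h5 := h.hak
  rw [mem_RF] at hf
  exact hW f (by omega) (by omega) (by push_cast; omega) (by push_cast; omega)

theorem Slb.Ok.pe (h : S.Ok) (hW : S.PWin W) : PE (S.env W 0 0) (S.geo 0) where
  hu := rfl
  hd := rfl
  a_pos := h.ha
  ab := by
    have := h.hak
    show S.a ≤ S.k
    omega
  bc := by
    have := h.hak
    have := h.ha
    show S.k + 2 ≤ 3 * S.k + (S.x2 - S.x1).toNat
    omega
  k4 := by
    have := h.hak
    have := h.ha
    show 4 ≤ S.k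
    omega
  x_lt := by
    have := h.hx
    have := h.hak
    have := h.ha
    show S.x1 + 0 < S.x2 + 0
    omega
  W := by
    intro f hf
    rw [mem_RF] at hf
    simp only [Slb.geo] at hf
    exact hW f (by omega) (by omega) (by omega) (by omega)

theorem Slb.Ok.par (h : S.Ok) : Par S.mu S.ρr S.ml S.ρl where
  rho := by unfold Slb.mu; ring
  sum := by unfold Slb.mu Slb.ml; ring
  lo := h.mu1
  hi := h.mu2

/-- **Theorem P: positivity on the good event.** -/
theorem Slb.Ok.WZ_nonneg (h : S.Ok) (hp : PhC S.D L g j S.ψ) (hF : FamJ L j) (hW : S.PWin W)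
    (hg : Gd.good (S.geo 0) ω) :
    0 ≤ WZ (S.env W 0 0).Q (S.env W 0 0).F (S.ph W 0 0) (S.env W 0 0).Z ω := by
  obtain ⟨w, hD, hw, hWa⟩ := fam_word h hp hF
  have H := h.pe hW
  have hP := h.par
  have hak := h.hak
  rw [Slb.ph_zero]
  refine H.WZ_nonneg_of hP hg ?_ ?_ ?_ ?_
  · refine H.D_nonneg (h.eData (hW.slab h)) hP hD hw hWa ?_ ?_ ω
    · intro y h1 h2
      have h1' : S.yc - (S.a : ℤ) ≤ y := h1
      have h2' : y < S.yc + (S.a : ℤ) := h2
      exact h.right y (by omega) (by omega)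
    · intro y h1 h2
      have h1' : S.yc - (S.a : ℤ) ≤ y := h1
      have h2' : y < S.yc + (S.a : ℤ) := h2
      exact h.left y (by omega) (by omega)
  · intro a ha hn
    exact H.wt_free hP ha hn
  · intro c hc a ha hn
    exact H.wt_pz hP hc ha hn
  · intro a ha
    exact H.cutP_Z ha

/-- **Theorem P** for the windows of `S3OutZ`. -/
theorem Slb.Ok.WZ_nonneg' (h : S.Ok) (hp : PhC S.D L g j S.ψ) (hF : FamJ L j)
    (hW : BlkW.OWin S r W) (hg : Gd.good (S.geo 0) ω) :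
    0 ≤ WZ (S.env W 0 0).Q (S.env W 0 0).F (S.ph W 0 0) (S.env W 0 0).Z ω :=
  h.WZ_nonneg hp hF (pWin_of_oWin hW) hg

/-- **Positivity of the weights of the polygon of an admissible slab.** -/
theorem Slb.Ok.WZD_nonneg (h : S.Ok) (hp : PhC S.D L g j S.ψ) (hF : FamJ L j) (τ : ℤ × ℤ → Bool) :
    0 ≤ WZ ZQ S.D S.ψ (bS ZQ S.D) τ := by
  obtain ⟨ν, hν1, -, hν3, hd⟩ := h.poly.disc hp.cont
  obtain ⟨k₀, -, hF⟩ := hF
  have e : WZ ZQ S.D S.ψ (bS ZQ S.D) τ = Conf.aP ZQ S.D τ S.ψ (bS ZQ S.D) := by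
    unfold WZ
    rw [if_pos fun a ha => mate_mem ha]
    rfl
  rw [e]
  refine aP_disc_nonneg (hd k₀) (cword_ini hp.cont) τ (Fam.pos ?_)
  rw [cword_length]
  exact (hF.add (th (cword g ν L k₀) S.ψ 0)).congr fun i hi => Pos.th_cword hp hν1 hν3 k₀ hi

end

end Pool.Agent.SixB
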