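import Pool.Agent.Lib.SixB.S3PosDisc
import Pool.Agent.Lib.SixB.S6W2

/-!
# 6BD step 3: weights of discs and non crossing matchings

* `WV V μ = ∏ arcs, tt (V (M i) - V i)` for a sequence of values `V` (`TW.NM m`); `W_eq_WV` for jumps;
  `Disc.nm`: the matching of the boundary word of a disc; `aP_disc`: the normalised product of the weights of all arcs
  of a disc is `WV (th w ψ)`.
* `PosV m V`: `0 ≤ WV V μ` for all matchings. `Fam m V`: values which increase by at most `π / 3` (marks of the
  families nat, pair), or the pattern `phA` with ordered marks; `Fam.pos`.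
* `cmap p N`: lengthening of a constant block by `N` entries after the position `p`; `Fam.long`.
-/

set_option autoImplicit false
set_option linter.unusedSectionVars false

namespace Pool.Agent.SixB.Pos

open Pool.Agent.SixB Pool.Agent.Perc.Q Relation TW

noncomputable section

/-! ## Values -/

/-- The weight of a matching for the values `V`. -/
def WV {m : ℕ} (V : ℕ → ℝ) (μ : NM m) : ℝ := ∏ i ∈ μ.opn, tt (V (μ.M i) - V i)

theorem WV_congr {m : ℕ} {V V' : ℕ → ℝ} (μ : NM m) (c : ℝ) (h : ∀ i < m, V' i = c + V i) :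
    WV V' μ = WV V μ := by
  unfold WV
  refine Finset.prod_congr rfl fun i hi => ?_
  rw [μ.mem_opn] at hi
  rw [h i hi.1, h _ (μ.lt hi.1)]
  congr 1
  ring

theorem WV_eq_W {m : ℕ} {V : ℕ → ℝ} {j : ℕ → ℝ} (μ : NM m)
    (h : ∀ a b, a ≤ b → b < m → V b - V a = J j a b) : WV V μ = W j μ := by
  unfold WV W
  refine Finset.prod_congr rfl fun i hi => ?_
  rw [μ.mem_opn] at hi
  rw [h i _ hi.2.le (μ.lt hi.1)]

theorem WV_jA {m : ℕ} (μ : NM m) (k n1 n2 n3 n4 : ℕ) (α : ℝ) :
    WV (fun i => phA k n1 n2 n3 n4 α i * (Real.pi / 3)) μ = W (jA k n1 n2 n3 n4 α) μ := by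
  refine WV_eq_W μ fun a b hab _ => ?_
  rw [J_jA k n1 n2 n3 n4 α hab]
  ring

/-- All matchings have a nonnegative weight. -/
def PosV (m : ℕ) (V : ℕ → ℝ) : Prop := ∀ μ : NM m, 0 ≤ WV V μ

/-- Values of the families of marks: natural and pair marks (`V` increases by at most `π / 3`), full family. -/
def Fam (m : ℕ) (V : ℕ → ℝ) : Prop :=
  (∀ i j, i < j → j < m → 0 ≤ V j - V i ∧ V j - V i ≤ Real.pi / 3) ∨
    ∃ (c : ℝ) (k n1 n2 n3 n4 : ℕ) (α : ℝ), Ord k n1 n2 n3 n4 m ∧ 0 ≤ α ∧ α ≤ 1 ∧
      ∀ i < m, V i = c + phA k n1 n2 n3 n4 α i * (Real.pi / 3)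

theorem PosV.of_range {m : ℕ} {V : ℕ → ℝ}
    (h : ∀ i j, i < j → j < m → -(Real.pi / 3) ≤ V j - V i ∧ V j - V i ≤ 2 * (Real.pi / 3)) :
    PosV m V := by
  intro μ
  unfold WV
  refine Finset.prod_nonneg fun i hi => ?_
  rw [μ.mem_opn] at hi
  obtain ⟨h1, h2⟩ := h i _ hi.2 (μ.lt hi.1)
  exact tt_nonneg h1 h2

theorem Fam.pos {m : ℕ} {V : ℕ → ℝ} (h : Fam m V) : PosV m V := by
  have hpi := Real.pi_pos
  rcases h with h | ⟨c, k, n1, n2, n3, n4, α, o, h0, h1, h2⟩
  · refine PosV.of_range fun i j hij hj => ?_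
    obtain ⟨h1, h2⟩ := h i j hij hj
    exact ⟨by linarith, by linarith⟩
  · intro μ
    rw [WV_congr (V := fun i => phA k n1 n2 n3 n4 α i * (Real.pi / 3)) μ c h2, WV_jA]
    exact WA_nonneg o μ h0 h1

/-! ## Lengthening of a constant block -/

/-- old position of the new position `i`: `N` entries are inserted after the position `p + 1` -/
def cmap (p N i : ℕ) : ℕ := if i ≤ p then i else if i ≤ p + N + 1 then p + 1 else i - N

/-- new position of the vertex `n` -/
def smap (p N n : ℕ) : ℕ := if n ≤ p + 1 then n else n + N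

theorem cmap_mono {p N i j : ℕ} (h : i ≤ j) : cmap p N i ≤ cmap p N j := by
  unfold cmap
  split_ifs <;> omega

theorem cmap_lt {p N m i : ℕ} (hp : p + 1 < m) (h : i < m + N) : cmap p N i < m := by
  unfold cmap
  split_ifs <;> omega

theorem Hv_cmap (p N n i : ℕ) : Hv n (cmap p N i) = Hv (smap p N n) i := by
  unfold Hv cmap smap
  have : ((n ≤ if i ≤ p then i else if i ≤ p + N + 1 then p + 1 else i - N) ↔
      (if n ≤ p + 1 then n else n + N) ≤ i) := by
    split_ifs <;> omega
  by_cases h : n ≤ if i ≤ p then i else if i ≤ p + N + 1 then p + 1 else i - N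
  · rw [if_pos h, if_pos (this.mp h)]
  · rw [if_neg h, if_neg (fun h' => h (this.mpr h'))]

/-- **Lengthening of a constant block.** -/
theorem Fam.long {m : ℕ} {V : ℕ → ℝ} (h : Fam m V) {p : ℕ} (N : ℕ) (hp : p + 1 < m)
    (hV : V p = V (p + 1)) : Fam (m + N) (fun i => V (cmap p N i)) := by
  have hpi := Real.pi_pos
  rcases h with h | ⟨c, k, n1, n2, n3, n4, α, o, h0, h1, h2⟩
  · left
    intro i j hij hj
    rcases Nat.lt_or_ge (cmap p N i) (cmap p N j) with h1 | h1
    · exact h _ _ h1 (cmap_lt hp hj)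
    · have h2 : cmap p N i = cmap p N j := le_antisymm (cmap_mono hij.le) h1
      have h3 : (0 : ℝ) ≤ V (cmap p N j) - V (cmap p N i) ∧
          V (cmap p N j) - V (cmap p N i) ≤ Real.pi / 3 := by
        rw [h2, sub_self]
        exact ⟨le_rfl, by linarith⟩
      exact h3
  · right
    have hk : k ≠ p + 1 := by
      rintro rfl
      have e1 := h2 p (by omega)
      have e2 := h2 (p + 1) hp
      rw [ph_0 o α (Nat.lt_succ_self p)] at e1
      rw [ph_e o α rfl] at e2
      rw [e1, e2] at hV
      nlinarith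
    obtain ⟨o1, o2, o3, o4, o5⟩ := o
    refine ⟨c, smap p N k, smap p N n1, smap p N n2, smap p N n3, smap p N n4, α, ?_, h0, h1, ?_⟩
    · constructor
      all_goals (unfold smap; split_ifs <;> omega)
    · intro i hi
      show V (cmap p N i) = _
      rw [h2 _ (cmap_lt hp hi)]
      unfold phA
      rw [Hv_cmap, Hv_cmap, Hv_cmap, Hv_cmap, Hv_cmap, Hv_cmap]
      have e : smap p N (k + 1) = smap p N k + 1 := by
        unfold smap
        split_ifs <;> omega
      rw [e]

/-! ## Discs -/

section Discs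

variable {V Φ : Type} [DecidableEq V] [DecidableEq Φ]
variable {Q : QC V Φ} {F : Finset Φ} {ω : Φ → Bool} {a b : V × V} {ψ : V × V → ℝ}
  {G : Set (V × V)} {w : List ((V × V) × ℤ)}

/-- The matching of the boundary word. -/
def _root_.Pool.Agent.SixB.Disc.nm (h : Disc Q (F : Set Φ) G w)
    (hw : ∀ e ∈ w.map Prod.fst, Ini Q (F : Set Φ) e) (ω : Φ → Bool) : NM w.length where
  M := cM Q F w ω
  spec := (h.cM_all hw ω).1
  nc := (h.cM_all hw ω).2.1

/-- **The product of the weights of all arcs of a disc.** -/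
theorem aP_disc (h : Disc Q (F : Set Φ) G w) (hw : ∀ e ∈ w.map Prod.fst, Ini Q (F : Set Φ) e)
    (ω : Φ → Bool) (ψ : V × V → ℝ) :
    Conf.aP Q F ω ψ (bS Q F) = WV (th w ψ) (h.nm hw ω) := by
  obtain ⟨h1, h2, h3⟩ := h.cM_all hw ω
  unfold Conf.aP WV
  symm
  have hM : (h.nm hw ω).M = cM Q F w ω := rfl
  have hlt : ∀ i ∈ (h.nm hw ω).opn, i < w.length := fun i hi => ((h.nm hw ω).mem_opn.mp hi).1
  have hop : ∀ i ∈ (h.nm hw ω).opn, i < cM Q F w ω i := fun i hi => ((h.nm hw ω).mem_opn.mp hi).2
  refine Finset.prod_bij (fun i hi => s((w[i]'(hlt i hi)).1, mate Q F ω (w[i]'(hlt i hi)).1))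
    ?_ ?_ ?_ ?_
  · intro i hi
    exact Finset.mem_image_of_mem _ (side_mem h hw (hlt i hi))
  · intro i hi j hj he
    have hi' := hlt i hi
    have hj' := hlt j hj
    rcases Sym2.eq_iff.mp he with h4 | h4
    · exact nodup_inj h hi' hj' h4.1
    · exfalso
      have h5 := (h3 j hj' (h1 j hj').1).1
      have h6 := (h3 i hi' (h1 i hi').1).1
      have h7 := h4.1
      have h8 := h4.2
      rw [h5] at h7
      rw [h6] at h8
      have h9 := nodup_inj h hi' (h1 j hj').1 h7
      have h10 := nodup_inj h (h1 i hi').1 hj' h8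
      have h11 := hop i hi
      have h12 := hop j hj
      omega
  · intro p hp
    obtain ⟨a, ha, rfl⟩ := Finset.mem_image.mp hp
    obtain ⟨x, hx, hxa⟩ := List.mem_map.mp ((h.mem_bS hw).mp ha)
    obtain ⟨i, hi, hix⟩ := List.getElem_of_mem hx
    have hia : w[i].1 = a := by rw [hix, hxa]
    obtain ⟨h4, h5, h6⟩ := h1 i hi
    have h7 := (h3 i hi h4).1
    rcases Nat.lt_or_gt_of_ne h5 with h8 | h8
    · refine ⟨cM Q F w ω i, (h.nm hw ω).mem_opn.mpr ⟨h4, by rw [hM, h6]; exact h8⟩, ?_⟩
      rw [← h7, hia, mate_mate ha, Sym2.eq_swap]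
    · refine ⟨i, (h.nm hw ω).mem_opn.mpr ⟨hi, h8⟩, ?_⟩
      rw [hia]
  · intro i hi
    have hi' := hlt i hi
    have h4 := (h1 i hi').1
    obtain ⟨h5, h6⟩ := h3 i hi' h4
    rw [if_pos (hop i hi)] at h6
    rw [wA_eq ψ (side_mem h hw hi'), hM]
    unfold wt tt
    rw [h5, h6, th_lt ψ hi', th_lt ψ h4]
    have e1 : Real.sqrt 3 = 2 * Real.cos (Real.pi / 6) := by
      rw [Real.cos_pi_div_six]; ring
    rw [e1, mul_div_mul_left _ _ (two_ne_zero)]
    congr 2
    push_cast
    ring

theorem aP_disc_nonneg (h : Disc Q (F : Set Φ) G w) (hw : ∀ e ∈ w.map Prod.fst, Ini Q (F : Set Φ) e)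
    (ω : Φ → Bool) (hp : PosV w.length (th w ψ)) : 0 ≤ Conf.aP Q F ω ψ (bS Q F) := by
  rw [aP_disc h hw]
  exact hp _

end Discs

/-! ## Lists -/

section Lists

variable {V : Type} [DecidableEq V] {u s s' v : List ((V × V) × ℤ)} {ψ ψ' : V × V → ℝ} {c : ℝ}

theorem th_getElem {w : List ((V × V) × ℤ)} {i : ℕ} (hi : i < w.length) :
    th w ψ i = val ψ w[i] := th_lt ψ hi

/-- a block of a word is replaced by a longer block with the same constant value -/
theorem th_long (hs : ∀ x ∈ s, val ψ x = c) (hs' : ∀ x ∈ s', val ψ' x = c) (h2 : 2 ≤ s.length)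
    (hl : s.length ≤ s'.length) (hu : ∀ x ∈ u, val ψ' x = val ψ x) (hv : ∀ x ∈ v, val ψ' x = val ψ x)
    {i : ℕ} (hi : i < (u ++ (s' ++ v)).length) :
    th (u ++ (s' ++ v)) ψ' i = th (u ++ (s ++ v)) ψ (cmap u.length (s'.length - s.length) i) := by
  have hi' : i < u.length + (s'.length + v.length) := by
    simpa [List.length_append] using hi
  have hj : cmap u.length (s'.length - s.length) i < (u ++ (s ++ v)).length := by
    rw [List.length_append, List.length_append]
    unfold cmap
    split_ifs <;> omega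
  rw [th_getElem hi, th_getElem hj]
  -- values of the new word
  rcases Nat.lt_or_ge i u.length with h | h
  · have e : cmap u.length (s'.length - s.length) i = i := by
      unfold cmap; rw [if_pos h.le]
    simp only [e]
    rw [List.getElem_append_left h, List.getElem_append_left h]
    exact hu _ (List.getElem_mem h)
  rcases Nat.lt_or_ge i (u.length + s'.length) with h3 | h3
  · have e1 : (u ++ (s' ++ v))[i] = s'[i - u.length]'(by omega) := by
      rw [List.getElem_append_right h, List.getElem_append_left]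
    rw [e1, hs' _ (List.getElem_mem _)]
    have h5 : u.length ≤ cmap u.length (s'.length - s.length) i ∧
        cmap u.length (s'.length - s.length) i < u.length + s.length := by
      unfold cmap
      split_ifs <;> omega
    rw [List.getElem_append_right h5.1, List.getElem_append_left (by omega)]
    exact (hs _ (List.getElem_mem _)).symm
  · have e : cmap u.length (s'.length - s.length) i = i - (s'.length - s.length) := by
      unfold cmap
      split_ifs <;> omega
    simp only [e]
    rw [List.getElem_append_right h, List.getElem_append_right (by omega),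
      List.getElem_append_right (by omega), List.getElem_append_right (by omega), hv _ (List.getElem_mem _)]
    congr 2
    omega

theorem _root_.Pool.Agent.SixB.Pos.Fam.congr {m : ℕ} {U U' : ℕ → ℝ} (h : Fam m U)
    (he : ∀ i < m, U' i = U i) : Fam m U' := by
  rcases h with h | ⟨c, k, n1, n2, n3, n4, α, o, h0, h1, h2⟩
  · left
    intro i j hij hj
    rw [he i (by omega), he j hj]
    exact h i j hij hj
  · right
    exact ⟨c, k, n1, n2, n3, n4, α, o, h0, h1, fun i hi => by rw [he i hi, h2 i hi]⟩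

/-- **Lengthening of a block of a word.** -/
theorem fam_long (h : Fam (u ++ (s ++ v)).length (th (u ++ (s ++ v)) ψ))
    (hs : ∀ x ∈ s, val ψ x = c) (hs' : ∀ x ∈ s', val ψ' x = c) (h2 : 2 ≤ s.length)
    (hl : s.length ≤ s'.length) (hu : ∀ x ∈ u, val ψ' x = val ψ x)
    (hv : ∀ x ∈ v, val ψ' x = val ψ x) :
    Fam (u ++ (s' ++ v)).length (th (u ++ (s' ++ v)) ψ') := by
  have hlen : (u ++ (s ++ v)).length = u.length + (s.length + v.length) := by
    simp [List.length_append]
  have hlen' : (u ++ (s' ++ v)).length = (u ++ (s ++ v)).length + (s'.length - s.length) := by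
    simp only [List.length_append]
    omega
  have h3 : ∀ i, u.length ≤ i → i < u.length + s.length → th (u ++ (s ++ v)) ψ i = c := by
    intro i h3 h4
    have hi : i < (u ++ (s ++ v)).length := by rw [hlen]; omega
    rw [th_getElem hi, List.getElem_append_right h3, List.getElem_append_left (by omega)]
    exact hs _ (List.getElem_mem _)
  have h4 := h.long (p := u.length) (s'.length - s.length) (by rw [hlen]; omega)
    (by rw [h3 _ le_rfl (by omega), h3 _ (by omega) (by omega)])
  rw [← hlen'] at h4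
  exact h4.congr fun i hi => th_long hs hs' h2 hl hu hv hi

end Lists

end

end Pool.Agent.SixB.Pos
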