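import Pool.Agent.Lib.SixB.S3Census
import Pool.Agent.Lib.SixB.S3PolyFlat
import Pool.Agent.Lib.SixB.S3PolyTy
import Pool.Agent.Lib.SixB.S3MthDP
import Pool.Agent.Lib.SixB.S3HSpl
import Pool.Agent.Lib.SixB.S3PosFam
import Pool.Agent.Lib.SixB.S3PosW
import Pool.Agent.Lib.SixB.S3OutB
import Pool.Agent.Lib.SixB.S3NormE
import Pool.Agent.Lib.SixB.S3LowSlb
import Pool.Agent.Lib.SixB.S3Pos

/-!
# 6BD step 3, row R23: the slabs of the three families

* `fam_types1`: `Cens.fam_types` with `Mk1`.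
* `special`: every special position is a corner or has a jump; `far`: it is far from the slab.
* `famIn`: `FamIn`.
* `thick`: next to the walls of the slab there are no faces of the polygon.
* `prod_blk`: the product over the special vertices of the two blocks.
* `numbers`: the numbers of the slabs of a family at the scale `⌊c₀ n⌋`.
* `LowD`: LOWER for the polygons with the two rings; `pack`: the package of the slabs of a family (positivity, LOWER in
  all large windows, atlas of the polygon); `lowFam_of`: `LowFam` from `LowD`.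
-/

set_option autoImplicit false
set_option linter.unusedSectionVars false
set_option linter.unusedVariables false

namespace Pool.Agent.SixB.FamE

open Pool.Agent.Perc.Q Pool.Agent.Perc Filter Topology
open Pool.Agent.SixB.PolyAtl Pool.Agent.SixB.St Pool.Agent.SixB.Cens
open Pool.Agent.SixB.Asm3 (Mk1 FamTy)

noncomputable section

variable {P D : Finset (ℤ × ℤ)} {L : ℕ} {g : ℤ → ℤ × ℤ}

/-! ## The marks -/

/-- **the special positions of the three families with their types** -/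
theorem fam_types1 (hP : MPoly P) (hg : Cont P L g) {ι : Type} {l : Filter ι} {n : ι → ℕ}
    (hn : Tendsto n l atTop) {j : ι → ℤ → ℝ} (hj : MFam L g l n j) :
    ∃ X : Multiset VT, Mk1 X ∧ ∃ κ : ℝ, 0 < κ ∧ ∃ (S : ι → Finset ℤ) (K : ι → ℤ → SK),
      (∀ i, (S i).card ≤ L + 5) ∧ ∀ᶠ i in l,
        (S i).val.map (fun x => (K i x, mm (gr (n i) g) x)) = domV (cc L g) X ∧
        ∀ r : ℕ, ∀ ψ, 2 ≤ r → (r : ℝ) ≤ κ * n i → Jmps (gr (n i) g) (j i) ψ →
          Spc P (n i) (n i * L) (gr (n i) g) (j i) ψ (S i) (K i) r 1 := by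
  cases hj with
  | nat s b hs hb =>
    obtain ⟨κ, hκ, h⟩ := nat_spc hg hn hs hb
    exact ⟨_, Or.inl rfl, κ, hκ, _, _, fun i => (posS_card _ _ _ _).trans (by omega),
      (nat_ty hP hg hn hs hb).and h⟩
  | pair α s s' b b' hα hs hs' h1 h2 hb hb' =>
    obtain ⟨κ, hκ, h⟩ := pair_spc hg hn (Set.Ioo_subset_Icc_self hα) hs hs' h1 h2 hb hb'
    exact ⟨_, Or.inr ⟨α, hα, Or.inl rfl⟩, κ, hκ, _, _,
      fun i => (posS_card _ _ _ _).trans (by omega), (pair_ty hP hg hn hs hs' h1 h2 hb hb').and h⟩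
  | full α t₁ t₂ t₂' t₃ t₄ b₁ b₂ b₂' b₃ k hα hm h₁ h₂ h₂' h₃ h₄ =>
    obtain ⟨κ, hκ, h⟩ := full_spc hg hn (Set.Ioo_subset_Icc_self hα) hm h₁ h₂ h₂' h₃ h₄
    exact ⟨_, Or.inr ⟨α, hα, Or.inr rfl⟩, κ, hκ, _, _,
      fun i => (posS_card _ _ _ _).trans (by omega), (full_ty hP hg hn hm h₁ h₂ h₂' h₃ h₄).and h⟩

/-- **every special position is a corner or has a jump** -/
theorem special {n N : ℕ} {G : ℤ → ℤ × ℤ} {j : ℤ → ℝ} {ψ : (ℤ × ℤ) × (ℤ × ℤ) → ℝ} {T : Finset ℤ}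
    {K : ℤ → SK} {r b : ℕ} {t₀ : ℝ} {X : Multiset VT} (h : Spc P n N G j ψ T K r t₀)
    (hty : T.val.map (fun x => (K x, mm G x)) = domV b X) (hX : Mk1 X) {x : ℤ} (hx : x ∈ T) :
    mm G x ≠ 2 ∨ j x ≠ 0 := by
  have hπ := Real.pi_pos
  by_cases hm : mm G x = 2
  · right
    have h1 : (K x, mm G x) ∈ domV b X := by
      rw [← hty]
      exact Multiset.mem_map_of_mem (fun x => (K x, mm G x)) hx
    rw [hm] at h1
    unfold domV at h1
    rw [Multiset.mem_add, Multiset.mem_add] at h1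
    have key : ∀ J : ℝ, J ≠ 0 → K x = .ver J → j x ≠ 0 := by
      intro J hJ hK
      rw [(h.ver x hx J hK).1]
      exact hJ
    have keyE : K x = .e → j x ≠ 0 := by
      intro hK
      rw [(h.ke x hx hK).2.2.1]
      have : Real.pi / 3 ≠ 0 := by positivity
      exact neg_ne_zero.mpr this
    rcases h1 with (h1 | h1) | h1
    · have := (Prod.mk.inj (Multiset.eq_of_mem_replicate h1)).2
      omega
    · have := (Prod.mk.inj (Multiset.eq_of_mem_replicate h1)).2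
      omega
    · have h3 : Real.pi / 3 ≠ 0 := by positivity
      rcases hX with rfl | ⟨α, ⟨a0, a1⟩, rfl | rfl⟩
      · unfold mkNat at h1
        rw [Multiset.mem_singleton] at h1
        exact key _ h3 (Prod.mk.inj h1).1
      · unfold mkPair at h1
        simp only [Multiset.insert_eq_cons, Multiset.mem_cons, Multiset.mem_singleton, Prod.mk.injEq,
          and_true] at h1
        rcases h1 with h1 | h1
        · exact key _ (mul_ne_zero (by linarith) h3) h1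
        · exact key _ (mul_ne_zero a0.ne' h3) h1
      · unfold mkFull mkPair at h1
        simp only [Multiset.insert_eq_cons, Multiset.mem_cons, Multiset.mem_singleton, Prod.mk.injEq,
          and_true, Multiset.mem_add] at h1
        rcases h1 with (h1 | h1) | h1 | h1 | h1
        · exact key _ (mul_ne_zero (by linarith) h3) h1
        · exact key _ (mul_ne_zero a0.ne' h3) h1
        · exact key _ h3 h1
        · exact key _ h3 h1
        · exact keyE h1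
  · exact Or.inl hm

/-! ## Far from the slab -/

variable {S : Slb} {N : ℕ} {G : ℤ → ℤ × ℤ} {j : ℤ → ℝ} {r : ℕ}

/-- **a corner or a jump is far from the slab** -/
theorem far (h : S.Ok) (hc : Cont S.D N G) (hJ : Jmps G j S.ψ) (h1 : 2 * (S.a + 1) ≤ r)
    (h2 : 64 * r ≤ S.k)
    (th : ∀ f ∈ S.D, S.yc - S.k ≤ f.2 → f.2 < S.yc + S.k →
      ¬ (S.x1 - (8 * r + 2) ≤ f.1 ∧ f.1 < S.x1) ∧ ¬ (S.x2 ≤ f.1 ∧ f.1 < S.x2 + (8 * r + 2)))
    {x : ℤ} (hx : mm G x ≠ 2 ∨ j x ≠ 0) :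
    ¬ nearS S.x1 S.x2 (S.yc - S.a) (S.yc + S.a) (3 * r) (G x) := by
  intro hn
  have hxx := h.slab.hx
  have b1 : (G x, G (x + 1)) ∈ bS ZQ S.D := bS_iff_lside.mpr (hc.side x)
  have b2 : (G (x - 1), G x) ∈ bS ZQ S.D := by
    have h3 := hc.side (x - 1)
    rw [sub_add_cancel] at h3
    exact bS_iff_lside.mpr h3
  have n1 : nearS S.x1 S.x2 (S.yc - S.a) (S.yc + S.a) (3 * r + 1) (G x, G (x + 1)).1 := by
    unfold nearS at hn ⊢
    push_cast at *
    omega
  have hd := dd_spec' hc x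
  have n2 : nearS S.x1 S.x2 (S.yc - S.a) (S.yc + S.a) (3 * r + 1) (G (x - 1), G x).1 := by
    unfold nearS at hn ⊢
    simp only
    rw [hd]
    rcases dz_cases (PolyAtl.dd G (x - 1)) with e | e | e | e <;> rw [e] <;> push_cast at * <;>
      simp only [Prod.fst_sub, Prod.snd_sub] <;> omega
  obtain ⟨y1, c1, c2, e1⟩ := MthD.near_side h h1 h2 th b1 n1
  obtain ⟨y2, c3, c4, e2⟩ := MthD.near_side h h1 h2 th b2 n2
  have s1 : ∀ y : ℤ, sd ZQ (S.x2 - 1, y) 1 = ((S.x2, y), (S.x2, y + 1)) := by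
    intro y
    rw [sdz1]
    simp
  have s3 : ∀ y : ℤ, sd ZQ (S.x1, y) 3 = ((S.x1, y + 1), (S.x1, y)) := by
    intro y
    rw [sdz3]
  rw [s1, s3] at e1 e2
  have ha := h.ha
  have hak := h.hak
  have hj := hJ x
  have fin : ∀ o : ZMod 4, G x = G (x - 1) + dz o → G (x + 1) = G x + dz o →
      S.ψ (G x, G (x + 1)) = S.ψ (G (x - 1), G x) → False := by
    intro o g1 g2 g3
    have d1 : PolyAtl.dd G x = o := dz_inj (by
      have := dd_spec hc x
      rw [this] at g2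
      exact add_left_cancel g2)
    have d2 : PolyAtl.dd G (x - 1) = o := dz_inj (by
      have := dd_spec hc (x - 1)
      rw [sub_add_cancel] at this
      rw [this] at g1
      exact add_left_cancel g1)
    have hm : mm G x = 2 := by
      unfold mm
      rw [d1, d2, add_sub_cancel_left]
      rfl
    have hcr : crs G x = 0 := by
      have := crs_eq hc (k := x)
      rw [hm] at this
      simpa using this
    rcases hx with hx | hx
    · exact hx hm
    · refine hx ?_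
      rw [← hj, g3, hcr]
      simp
  rcases e1 with e1 | e1 <;> rcases e2 with e2 | e2
  · obtain ⟨p1, p2⟩ := Prod.mk.inj e1
    obtain ⟨p3, p4⟩ := Prod.mk.inj e2
    have hy : y2 + 1 = y1 := by
      have := (Prod.mk.inj (p4.symm.trans p1)).2
      exact this
    refine fin 1 ?_ ?_ ?_
    · rw [p3, p4, dz1]
      simp
    · rw [p2, p1, dz1]
      simp
    · rw [p3, p4, p2, ← hy, h.right (y2 + 1) (by omega) (by omega), h.right y2 (by omega) (by omega)]
  · have q1 := (Prod.mk.inj e1).1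
    have q2 := (Prod.mk.inj e2).2
    have := (Prod.mk.inj (q1.symm.trans q2)).1
    omega
  · have q1 := (Prod.mk.inj e1).1
    have q2 := (Prod.mk.inj e2).2
    have := (Prod.mk.inj (q1.symm.trans q2)).1
    omega
  · obtain ⟨p1, p2⟩ := Prod.mk.inj e1
    obtain ⟨p3, p4⟩ := Prod.mk.inj e2
    have hy : y1 + 1 = y2 := by
      have := (Prod.mk.inj (p4.symm.trans p1)).2
      exact this.symm
    refine fin 3 ?_ ?_ ?_
    · rw [p3, p4, dz3]
      simp
    · rw [p2, p1, dz3]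
      simp
    · rw [p3, p4, p2, ← hy, h.left (y1 + 1) (by omega) (by omega), h.left y1 (by omega) (by omega)]

/-! ## The walls -/

/-- **next to the walls of the slab there are no faces of the polygon** -/
theorem thick {n t : ℕ} {X₁ X₂ Y y₁ y₂ : ℤ} (h : SlabIn (P : Set (ℤ × ℤ)) X₁ X₂ Y (Y + 1)) (hn : 0 < n)
    (ht : t ≤ n) (h1 : n * Y ≤ y₁) (h2 : y₂ ≤ n * (Y + 1)) {f : ℤ × ℤ} (hf : f ∈ rf n P)
    (h3 : y₁ ≤ f.2) (h4 : f.2 < y₂) :
    ¬ ((n : ℤ) * X₁ - t ≤ f.1 ∧ f.1 < n * X₁) ∧ ¬ ((n : ℤ) * X₂ ≤ f.1 ∧ f.1 < n * X₂ + t) := by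
  have hn' : (0 : ℤ) < n := by exact_mod_cast hn
  have ht' : (t : ℤ) ≤ n := by exact_mod_cast ht
  have h5 := (CARf.mem_rf hn).mp hf
  have h6 : f.2 / (n : ℤ) = Y := by
    rw [Int.ediv_eq_iff_of_pos hn']
    constructor <;> linarith
  rw [h6] at h5
  constructor
  · rintro ⟨h7, h8⟩
    have h9 : f.1 / (n : ℤ) = X₁ - 1 := by
      rw [Int.ediv_eq_iff_of_pos hn']
      constructor <;> nlinarith
    rw [h9] at h5
    exact h.left Y le_rfl (by omega) (by exact_mod_cast h5)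
  · rintro ⟨h7, h8⟩
    have h9 : f.1 / (n : ℤ) = X₂ := by
      rw [Int.ediv_eq_iff_of_pos hn']
      constructor <;> nlinarith
    rw [h9] at h5
    exact h.right Y le_rfl (by omega) (by exact_mod_cast h5)

/-! ## The product over the blocks -/

theorem prod_Jm (m : ℝ) (r : ℕ) :
    ∏ i : Fin 14, sF (.ver (BlkW.Jm m i)) ((![3, 1, 2, 1, 1, 2, 1, 1, 2, 1, 1, 2, 1, 3] : Fin 14 → ℕ) i) r =
      FP r (blkV m) := by
  rw [FP_blkV]
  unfold fF
  simp [BlkW.Jm, Fin.prod_univ_succ, sF_ver_zero]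
  ring

/-- **the product over the special vertices of the two blocks** -/
theorem prod_blk (mu ml : ℝ) (r : ℕ) :
    ∏ i : Bool × Fin 14, sF (.ver (BlkW.Jt mu ml i)) (BlkW.mt i) r = FP r (blkV mu) * FP r (blkV ml) := by
  rw [Fintype.prod_prod_type, Fintype.prod_bool]
  exact congrArg₂ (· * ·) (prod_Jm mu r) (prod_Jm ml r)

/-! ## The types of the families -/

/-- **`FamIn`** -/
theorem famIn : Asm3.FamIn := by
  intro P L g hP hg ι l n hn j hj
  obtain ⟨X, hX, κ, hκ, T, K, hT, h⟩ := fam_types1 hP hg hn hj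
  refine ⟨X, hX, κ, T, K, hκ, hT, ?_, h.mono fun i hi => hi.1, h.mono fun i hi => hi.2⟩
  have hnR : Tendsto (fun i => (n i : ℝ)) l atTop := tendsto_natCast_atTop_atTop.comp hn
  filter_upwards [h, hnR.eventually_ge_atTop (2 / κ), hn.eventually_gt_atTop 0] with i hi h1 h0 x hx
  have h2 : ((2 : ℕ) : ℝ) ≤ κ * n i := by
    have := (div_le_iff₀ hκ).mp h1
    push_cast
    linarith
  obtain ⟨ψ, hψ⟩ := Asm3.exists_phC hP hg hj h0
  exact special (hi.2 2 ψ le_rfl h2 hψ.jump) hi.1 hX hx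

/-! ## The numbers of the slabs -/

open Classical in
/-- LOWER for the polygon with the two rings, for the family of slabs -/
def LowD : Prop := ∀ (P : Finset (ℤ × ℤ)) (L : ℕ) (g : ℤ → ℤ × ℤ), MPoly P → Cont P L g →
  ∀ {ι : Type} (l : Filter ι) (n : ι → ℕ), Tendsto n l atTop → ∀ j : ι → ℤ → ℝ, MFam L g l n j →
  ∀ (X : Multiset VT) (κ : ℝ) (T : ι → Finset ℤ) (K : ι → ℤ → SK), Mk1 X →
    FamTy P L g l n j X κ T K → ∀ z0 ∈ Om P, ∀ D : Asm3.SFam P L g l n j z0,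
  ∀ c0 : ℝ, 0 < c0 → ∃ cD : ℝ, 0 < cD ∧ ∃ r0 : ℝ, 0 < r0 ∧ ∀ z ∈ Metric.ball z0 (D.κ / 4), ∀ r : ℝ,
    0 < r → r < r0 → ∀ᶠ i in l, ∀ R : ℕ, 2 ≤ R → c0 * n i ≤ R → (R : ℝ) ≤ κ * n i → R ≤ n i →
      cD * FP R (domV (cc L g) X) ≤ av (D.slb z r i).D fun τ =>
        WZ ZQ (D.slb z r i).D (D.slb z r i).ψ (bS ZQ (D.slb z r i).D) τ *
          if LowP.RgD (D.slb z r i) ((D.slb z r i).k / 16) (4 * ((D.slb z r i).k / 16)) τ then 1 else 0

/-- the numbers of one slab at the scale `R` -/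
structure Nums (S : Slb) (n L N M R : ℕ) : Prop where
  ok : S.Ok
  r2 : 2 ≤ R
  rn : 24 * R + 2 ≤ n
  nr : n ≤ N * R
  ar : 2 * (S.a + 1) ≤ R
  rk : 192 * R ≤ S.k
  ak : M * S.a ≤ S.k
  ln : ∀ W, 38 * BlkW.Ln (S.env W 0 0) R + 10 ≤ N
  nN : n * L / R + 1 + 2 * (L + 5) ≤ N
  th : ∀ f ∈ S.D, S.yc - S.k ≤ f.2 → f.2 < S.yc + S.k →
    ¬ (S.x1 - (24 * R + 2) ≤ f.1 ∧ f.1 < S.x1) ∧ ¬ (S.x2 ≤ f.1 ∧ f.1 < S.x2 + (24 * R + 2))

section numbers

variable {ι : Type} {l : Filter ι} {n : ι → ℕ} {j : ι → ℤ → ℝ} {z0 : ℂ}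

/-- **the numbers of the slabs of a family at the scale `⌊c₀ n⌋`** -/
theorem numbers (D : Asm3.SFam P L g l n j z0) (hn : Tendsto n l atTop) {c0 : ℝ} (h0 : 0 < c0)
    (h1 : 1024 * c0 ≤ D.κ) : ∃ N : ℕ, ∀ M : ℕ, ∃ r0 : ℝ, 0 < r0 ∧ ∀ z ∈ Metric.ball z0 (D.κ / 4), ∀ r : ℝ,
      0 < r → r < r0 → ∀ᶠ i in l, Nums (D.slb z r i) (n i) L N M ⌊c0 * n i⌋₊ ∧
        c0 / 2 * n i ≤ (⌊c0 * n i⌋₊ : ℕ) := by
  have hκ := D.hκ
  have hκ' := D.hκ'
  have hnR : Tendsto (fun i => (n i : ℝ)) l atTop := tendsto_natCast_atTop_atTop.comp hn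
  set N0 : ℕ := ⌈2 / c0⌉₊ with hN0
  set dX : ℕ := (D.X₂ - D.X₁).toNat with hdX
  refine ⟨38 * (N0 * (2 * dX + 17) + 2) + 10 + N0 * L + 1 + 2 * (L + 5) + N0, fun M => ?_⟩
  refine ⟨min (D.κ / 10 ^ 5) (min (c0 / 1000) (D.κ / (1000 * (M + 1)))), by positivity,
    fun z hz r hr hr' => ?_⟩
  have hr1 := hr'.trans_le (min_le_left _ _)
  have hr2 := (hr'.trans_le (min_le_right _ _)).trans_le (min_le_left _ _)
  have hr3 := (hr'.trans_le (min_le_right _ _)).trans_le (min_le_right _ _)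
  filter_upwards [D.slb_ok hn hz hr hr1, hnR.eventually_ge_atTop (100 / c0),
    hnR.eventually_ge_atTop (1000 * (M + 1) / D.κ), hn.eventually_gt_atTop 0] with i hok g1 g2 g0
  have hn0 : (0 : ℝ) < n i := by exact_mod_cast g0
  have hM0 : (0 : ℝ) ≤ M := by positivity
  have a1 : 100 ≤ c0 * n i := by
    have := (div_le_iff₀ h0).mp g1
    linarith
  have a2 : 1000 * ((M : ℝ) + 1) ≤ D.κ * n i := by
    have := (div_le_iff₀ hκ).mp g2
    linarith
  have a3 : 1024 * (c0 * n i) ≤ D.κ * n i := by nlinarith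
  have a4 : D.κ * n i ≤ n i / 4 := by nlinarith
  have a5 : r * n i ≤ c0 / 1000 * n i := mul_le_mul_of_nonneg_right hr2.le hn0.le
  have a6 : (M + 1) * (r * n i) ≤ D.κ * n i / 1000 := by
    have h3 : r * (1000 * ((M : ℝ) + 1)) ≤ D.κ := by
      have := (lt_div_iff₀ (by positivity)).mp hr3
      linarith
    nlinarith
  have e1 := Nat.floor_le (show 0 ≤ c0 * n i by positivity)
  have e2 := Nat.lt_floor_add_one (c0 * n i)
  have e3 := Nat.floor_le (show 0 ≤ D.κ * n i / 2 by positivity)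
  have e4 := Nat.lt_floor_add_one (D.κ * n i / 2)
  have e5 := Nat.ceil_lt_add_one (show 0 ≤ 100 * r * n i by positivity)
  have e6 : 2 / c0 ≤ (N0 : ℝ) := Nat.le_ceil _
  set R : ℕ := ⌊c0 * n i⌋₊ with hR
  set k : ℕ := ⌊D.κ * n i / 2⌋₊ with hk
  set a : ℕ := ⌈100 * r * n i⌉₊ with ha
  have hSk : (D.slb z r i).k = k := rfl
  have hSa : (D.slb z r i).a = a := rfl
  have b1 : c0 / 2 * n i ≤ R := by linarith
  have b2 : n i ≤ N0 * R := by
    have h3 : 2 ≤ N0 * c0 := (div_le_iff₀ h0).mp e6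
    have h4 : (n i : ℝ) ≤ N0 * R := by
      calc (n i : ℝ) ≤ N0 * c0 / 2 * n i := by nlinarith
        _ = N0 * (c0 / 2 * n i) := by ring
        _ ≤ N0 * R := mul_le_mul_of_nonneg_left b1 (by positivity)
    exact_mod_cast h4
  have b3 : 24 * R + 2 ≤ n i := by
    have h4 : ((24 * R + 2 : ℕ) : ℝ) ≤ n i := by
      push_cast
      linarith
    exact_mod_cast h4
  have b4 : k ≤ n i := by
    have h4 : (k : ℝ) ≤ n i := by linarith
    exact_mod_cast h4
  have b5 : 0 < R := by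
    have h4 : (0 : ℝ) < R := by linarith
    exact_mod_cast h4
  refine ⟨⟨hok, ?_, b3, ?_, ?_, ?_, ?_, ?_, ?_, ?_⟩, b1⟩
  · have h4 : ((2 : ℕ) : ℝ) ≤ R := by
      push_cast
      linarith
    exact_mod_cast h4
  · exact b2.trans (Nat.mul_le_mul_right _ (by omega))
  · rw [hSa]
    have h4 : ((2 * (a + 1) : ℕ) : ℝ) ≤ R := by
      push_cast
      linarith
    exact_mod_cast h4
  · rw [hSk]
    have h4 : ((192 * R : ℕ) : ℝ) ≤ k := by
      push_cast
      linarith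
    exact_mod_cast h4
  · rw [hSa, hSk]
    have h4 : ((M * a : ℕ) : ℝ) ≤ k := by
      push_cast
      have h5 : (M : ℝ) * a ≤ M * (100 * r * n i + 1) := mul_le_mul_of_nonneg_left e5.le hM0
      have h6 : (0 : ℝ) ≤ r * n i := by positivity
      nlinarith
    exact_mod_cast h4
  · intro W
    have h4 : BlkW.Ln ((D.slb z r i).env W 0 0) R ≤ N0 * (2 * dX + 17) + 2 := by
      have e7 : BlkW.Ln ((D.slb z r i).env W 0 0) R = (((n i : ℤ) * D.X₂ + 0 - (n i * D.X₁ + 0)).toNat +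
        14 * k + (3 * k + ((n i : ℤ) * D.X₂ - n i * D.X₁).toNat)) / (2 * R) + 2 := rfl
      have e8 : ((n i : ℤ) * D.X₂ - n i * D.X₁).toNat = n i * dX := by
        rw [← mul_sub, Int.toNat_mul (by positivity) (by
          have h6 := D.slab.hx
          omega)]
        simp [hdX]
      rw [e7, add_zero, add_zero, e8]
      refine Nat.add_le_add_right (Nat.div_le_of_le_mul ?_) 2
      calc n i * dX + 14 * k + (3 * k + n i * dX) ≤ n i * (2 * dX + 17) := by nlinarith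
        _ ≤ N0 * R * (2 * dX + 17) := Nat.mul_le_mul_right _ b2
        _ ≤ 2 * R * (N0 * (2 * dX + 17)) := by nlinarith
    omega
  · have h4 : n i * L / R ≤ N0 * L := by
      refine Nat.div_le_of_le_mul ?_
      calc n i * L ≤ N0 * R * L := Nat.mul_le_mul_right _ b2
        _ = R * (N0 * L) := by ring
    omega
  · intro f hf h5 h6
    have c1 : |z.im - z0.im| < D.κ / 4 := by
      have h3 := Metric.mem_ball.mp hz
      rw [Complex.dist_eq] at h3
      have h4 := Complex.abs_im_le_norm (z - z0)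
      rw [Complex.sub_im] at h4
      linarith
    have f1 := Int.floor_le ((n i : ℝ) * z.im)
    have f2 := Int.lt_floor_add_one ((n i : ℝ) * z.im)
    rw [abs_lt] at c1
    have c2 : (n i : ℝ) * (z.im - z0.im) ≤ n i * (D.κ / 4) :=
      mul_le_mul_of_nonneg_left c1.2.le hn0.le
    have c3 : (n i : ℝ) * (-(D.κ / 4)) ≤ n i * (z.im - z0.im) :=
      mul_le_mul_of_nonneg_left c1.1.le hn0.le
    have c4 : (n i : ℝ) * ((⌊z0.im⌋ : ℤ) + D.κ) ≤ n i * z0.im :=
      mul_le_mul_of_nonneg_left D.hY₁.le hn0.le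
    have c5 : (n i : ℝ) * z0.im ≤ n i * ((⌊z0.im⌋ : ℤ) + 1 - D.κ) :=
      mul_le_mul_of_nonneg_left D.hY₂.le hn0.le
    have d1 : (n i : ℤ) * ⌊z0.im⌋ ≤ (D.slb z r i).yc - (D.slb z r i).k := by
      have h7 : ((n i : ℤ) : ℝ) * ((⌊z0.im⌋ : ℤ) : ℝ) ≤ (⌊(n i : ℝ) * z.im⌋ : ℤ) - ((k : ℕ) : ℝ) := by
        push_cast
        nlinarith
      have h8 : (n i : ℤ) * ⌊z0.im⌋ ≤ ⌊(n i : ℝ) * z.im⌋ - ((k : ℕ) : ℤ) := by exact_mod_cast h7
      exact h8
    have d2 : (D.slb z r i).yc + (D.slb z r i).k ≤ (n i : ℤ) * (⌊z0.im⌋ + 1) := by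
      have h7 : (⌊(n i : ℝ) * z.im⌋ : ℤ) + ((k : ℕ) : ℝ) ≤ ((n i : ℤ) : ℝ) * (((⌊z0.im⌋ : ℤ) : ℝ) + 1) := by
        push_cast
        nlinarith
      have h8 : ⌊(n i : ℝ) * z.im⌋ + ((k : ℕ) : ℤ) ≤ (n i : ℤ) * (⌊z0.im⌋ + 1) := by exact_mod_cast h7
      exact h8
    have d3 := thick (t := 24 * R + 2) D.slab g0 b3 d1 d2 hf h5 h6
    push_cast at d3
    exact d3

end numbers

/-! ## LOWER for the families -/

/-- large windows contain the blocks -/
theorem oWin_large (S : Slb) (r : ℕ) {M : ℤ} (hM : |S.x1| + |S.x2| + |S.yc| + 10 * S.k +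
    (S.x2 - S.x1).toNat + (4 * r + 1) ≤ M) : BlkW.OWin S r (RFb (0, 0) M) := by
  intro f h1 h2 h3 h4
  push_cast at h3 h4
  rw [mem_RFb]
  have := neg_abs_le S.x1
  have := le_abs_self S.x2
  have := neg_abs_le S.yc
  have := le_abs_self S.yc
  have := abs_nonneg S.x1
  have := abs_nonneg S.x2
  simp only
  omega

/-- the package of one slab at the scale `R`: the numbers, the atlas of the polygon with the types `V`, positivity and
LOWER (constants `c` for the environment, `cD` for the polygon) -/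
structure Pack (S : Slb) (n L N M R : ℕ) (c cD : ℝ) (V : Multiset VT) : Prop extends
    Nums S n L N M R where
  pos : ∀ τ, 0 ≤ WZ ZQ S.D S.ψ (bS ZQ S.D) τ
  posE : ∀ W, BlkW.OWin S R W → ∀ ω, Gd.good (S.geo 0) ω →
    0 ≤ WZ (S.env W 0 0).Q (S.env W 0 0).F (S.ph W 0 0) (S.env W 0 0).Z ω
  lowD : cD * FP R V ≤ av S.D (WZ ZQ S.D S.ψ (bS ZQ S.D))
  low : ∀ W, BlkW.OWin S R W → c * (FP R (blkV S.mu) * FP R (blkV S.ml) * FP R V) ≤
    av (S.env W 0 0).F (WZ (S.env W 0 0).Q (S.env W 0 0).F (S.ph W 0 0) (S.env W 0 0).Z)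
  atl : ∃ AD : PAtlas ZQ S.D S.ψ (bS ZQ S.D) (bS ZQ S.D) R (L + 5) N 1, AD.Flat ∧ St.pvts AD = V ∧
    (∀ i J, AD.K i = .ver J → AD.m i ≠ 2 ∨ J ≠ 0) ∧
    ∀ i, ¬ nearS S.x1 S.x2 (S.yc - S.a) (S.yc + S.a) (8 * R) (AD.v i)

/-- **The package of the slabs of a family** (scales `⌊c₀ n⌋`). -/
theorem pack (hD : LowD) (hP : MPoly P) (hg : Cont P L g) {ι : Type} {l : Filter ι} {n : ι → ℕ}
    (hn : Tendsto n l atTop) {j : ι → ℤ → ℝ} (hj : MFam L g l n j) {X : Multiset VT} {κ : ℝ}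
    {T : ι → Finset ℤ} {K : ι → ℤ → SK} (hX : Mk1 X) (hF : FamTy P L g l n j X κ T K) {z0 : ℂ}
    (hz0 : z0 ∈ Om P) (D : Asm3.SFam P L g l n j z0) {c0 : ℝ} (h0 : 0 < c0) (h1 : c0 ≤ κ)
    (h2 : 1024 * c0 ≤ D.κ) : ∃ c : ℝ, 0 < c ∧ ∃ cD : ℝ, 0 < cD ∧ ∃ N : ℕ, ∀ M : ℕ, ∃ r0 : ℝ, 0 < r0 ∧
      ∀ z ∈ Metric.ball z0 (D.κ / 4), ∀ r : ℝ, 0 < r → r < r0 → ∀ᶠ i in l,
        Pack (D.slb z r i) (n i) L N M ⌊c0 * n i⌋₊ c cD (domV (cc L g) X) := by
  have hκ := D.hκ
  obtain ⟨N, hN⟩ := numbers D hn h0 h2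
  obtain ⟨cD, hcD, r1, hr1, hLD⟩ := hD P L g hP hg l n hn j hj X κ T K hX hF z0 hz0 D (c0 / 2)
    (by positivity)
  obtain ⟨c, hc, M0, -, hlow⟩ := LowP.low_env (L + 5) N N 1 cD one_pos le_rfl hcD
  refine ⟨c, hc, cD, hcD, N, fun M => ?_⟩
  obtain ⟨r2, hr2, hnum⟩ := hN (max M0 M)
  refine ⟨min r1 r2, lt_min hr1 hr2, fun z hz r hr hr' => ?_⟩
  have q1 := hr'.trans_le (min_le_left _ _)
  have q2 := hr'.trans_le (min_le_right _ _)
  filter_upwards [hnum z hz r hr q2, hLD z hz r hr q1, hF.cor, hF.ty, hF.spc, D.ph,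
    Pos.famJ_eventually hg.pos hn hj, hn.eventually_gt_atTop 0] with i hi hLi hcor hty hspc hph hJ hni
  obtain ⟨hI, hI2⟩ := hi
  set R : ℕ := ⌊c0 * n i⌋₊ with hR
  set S : Slb := D.slb z r i with hS
  have hRκ : (R : ℝ) ≤ κ * n i := by
    have e1 := Nat.floor_le (show 0 ≤ c0 * n i by positivity)
    have e2 : c0 * n i ≤ κ * n i := mul_le_mul_of_nonneg_right h1 (by positivity)
    exact e1.trans e2
  have hRn : R ≤ n i := by
    have := hI.rn
    omega
  have hsp := hspc R (D.ψ i) hI.r2 hRκ hph.jump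
  have hnN : n i * L / R + 1 + 2 * (T i).card ≤ N := by
    have := hF.card i
    have := hI.nN
    omega
  have hpD := hI.ok.WZD_nonneg hph hJ
  have hk := hI.rk
  have hLR := hLi R hI.r2 hI2 hRκ hRn
  have hcen : ∀ x ∈ T i, ¬ nearS S.x1 S.x2 (S.yc - S.a) (S.yc + S.a) (8 * R) (gr (n i) g x) := by
    intro x hx hnear
    refine far (r := 3 * R) hI.ok hph.cont hph.jump (by have := hI.ar; omega) (by omega) ?_
      (hcor x hx) ?_
    · intro f hf h5 h6
      have := hI.th f hf h5 h6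
      push_cast
      constructor
      · intro h7
        exact this.1 ⟨by linarith [h7.1], h7.2⟩
      · intro h7
        exact this.2 ⟨h7.1, by linarith [h7.2]⟩
    · unfold nearS at hnear ⊢
      push_cast at hnear ⊢
      omega
  have hatl : ∃ AD : PAtlas ZQ S.D S.ψ (bS ZQ S.D) (bS ZQ S.D) R (L + 5) N 1, AD.Flat ∧
      St.pvts AD = domV (cc L g) X ∧ (∀ i J, AD.K i = .ver J → AD.m i ≠ 2 ∨ J ≠ 0) ∧
      ∀ i, ¬ nearS S.x1 S.x2 (S.yc - S.a) (S.yc + S.a) (8 * R) (AD.v i) := by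
    refine ⟨(PolyAtl.polyAtlas hsp (hF.card i) hnN).toP, PolyAtl.polyAtlas_flat hsp _ _, ?_, ?_, ?_⟩
    · rw [← hty]
      exact PolyAtl.vts_polyAtlas hsp (hF.card i) hnN
    · rintro ⟨x, hx⟩ J hJ'
      have e1 := (hsp.ver x hx J hJ').1
      rcases hcor x hx with h3 | h3
      · exact Or.inl h3
      · rw [e1] at h3
        exact Or.inr h3
    · rintro ⟨x, hx⟩
      exact hcen x hx
  have hI' : Nums S (n i) L N M R := ⟨hI.ok, hI.r2, hI.rn, hI.nr, hI.ar, hI.rk,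
    (Nat.mul_le_mul_right _ (le_max_right _ _)).trans hI.ak, hI.ln, hI.nN, hI.th⟩
  refine ⟨hI', hpD, fun W hO ω hω => hI.ok.WZ_nonneg' hph hJ hO hω, ?_, fun W hO => ?_, hatl⟩
  · refine hLR.trans (av_mono fun τ _ => ?_)
    have h3 := hpD (ind τ)
    split_ifs
    · rw [mul_one]
    · rw [mul_zero]
      exact h3
  · obtain ⟨AD, hfl, hty', -, hcA⟩ := hatl
    have key := hlow S hI.ok W R hO hI.ar (by omega)
      ((Nat.mul_le_mul_right _ (le_max_left _ _)).trans hI.ak) (hI.ln _) AD hfl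
      (Finset.Subset.refl _) hcA ?_ ?_ hpD ?_
    · rw [prod_blk, hty'] at key
      exact key
    · intro f hf h5 h6
      have := hI.th f hf h5 h6
      constructor
      · intro h7
        exact this.1 ⟨by have := h7.1; omega, h7.2⟩
      · intro h7
        exact this.2 ⟨h7.1, by have := h7.2; omega⟩
    · intro ω hω
      exact hI.ok.WZ_nonneg' hph hJ hO hω
    · rw [hty']
      exact hLR

/-- **LOWER for the environments of the families, from LOWER for the polygons.** -/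
theorem lowFam_of (hD : LowD) : Asm3.LowFam := by
  intro P L g hP hg ι l n hn j hj X κ T K hX hF z0 hz0 D
  have hκ := D.hκ
  have hκF := hF.pos
  have h2 : 1024 * min κ (D.κ / 1024) ≤ D.κ := by
    have := min_le_right κ (D.κ / 1024)
    linarith
  obtain ⟨c, hc, cD, -, N, h⟩ := pack hD hP hg hn hj hX hF hz0 D (c0 := min κ (D.κ / 1024))
    (by positivity) (min_le_left _ _) h2
  obtain ⟨r0, hr0, h⟩ := h 0
  refine ⟨c, hc, N, r0, hr0, fun z hz r hr hr' => ?_⟩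
  filter_upwards [h z hz r hr hr'] with i hi
  set R : ℕ := ⌊min κ (D.κ / 1024) * n i⌋₊ with hR
  set S : Slb := D.slb z r i with hS
  refine ⟨R, by have := hi.r2; omega, by have := hi.rn; omega, hi.nr, Eventually.frequently ?_⟩
  filter_upwards [eventually_ge_atTop (|S.x1| + |S.x2| + |S.yc| + 10 * S.k +
    (S.x2 - S.x1).toNat + (4 * R + 1) : ℤ)] with W hW
  have key := hi.low (RFb (0, 0) W) (oWin_large S R hW)
  rw [← FP_add, ← FP_add] at key
  have e : S.ml = Real.pi / 3 - S.mu := by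
    unfold Slb.ml Slb.mu
    ring
  rw [e] at key
  exact key

end

end Pool.Agent.SixB.FamE
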