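import Pool.Agent.Lib.SixB.S3HPkE
import Pool.Agent.Lib.SixB.S3FamE

/-!
# 6BD step 3.8 (R18): the input of the package of the environment for the families

* `PkE.eslb_of_pack`: the package of one slab gives `PkE.ESlb`.
* `PkE.famEIn_of`: `FamE.LowD → PkE.FamEIn`.
-/

set_option autoImplicit false
set_option linter.unusedSectionVars false

namespace Pool.Agent.SixB.PkE

open Pool.Agent.Perc Pool.Agent.Perc.Q Pool.Agent.PercD Pool.Agent.PercN Pool.Agent.SixB
open Filter Topology Metric Asm3

noncomputable section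

/-- **The package of one slab gives the input of the package of the environment.** -/
theorem eslb_of_pack {S : Slb} {n L N M R : ℕ} {c cD : ℝ} {V : Multiset VT}
    (h : FamE.Pack S n L N M R c cD V) : ESlb S (L + 5) N N 1 c := by
  obtain ⟨AD, hfl, hty, hK, hcen⟩ := h.atl
  refine ⟨R, bS ZQ S.D, bS ZQ S.D, AD, hfl, Finset.Subset.refl _, hK, hcen, h.ar,
    le_trans (by omega) h.rk, h.ln ∅, ?_, Eventually.frequently ?_⟩
  · intro f hf h5 h6
    have := h.th f hf h5 h6
    constructor
    · intro h7
      exact this.1 ⟨by have := h7.1; omega, h7.2⟩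
    · intro h7
      exact this.2 ⟨h7.1, by have := h7.2; omega⟩
  · filter_upwards [eventually_ge_atTop (|S.x1| + |S.x2| + |S.yc| + 10 * S.k +
      (S.x2 - S.x1).toNat + (4 * R + 1) : ℤ)] with W hW
    have key := h.low (RFb (0, 0) W) (FamE.oWin_large S R hW)
    have e : PrE S AD = FP R (St.blkV S.mu) * FP R (St.blkV S.ml) * FP R V := by
      unfold PrE
      rw [FamE.prod_blk, hty]
    rw [e]
    exact key

/-- **The input of the package of the environment, from LOWER for the polygons.** -/
theorem famEIn_of (hD : FamE.LowD) : FamEIn := by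
  intro P L g hP hg ι l n hn j hj z0 hz0 D
  obtain ⟨X, hX, κ, T, K, hF⟩ := FamE.famIn P L g hP hg l n hn j hj
  have hκ := D.hκ
  have hκF := hF.pos
  have h2 : 1024 * min κ (D.κ / 1024) ≤ D.κ := by
    have := min_le_right κ (D.κ / 1024)
    linarith
  obtain ⟨c, hc, cD, -, N, h⟩ := FamE.pack hD hP hg hn hj hX hF hz0 D (c0 := min κ (D.κ / 1024))
    (by positivity) (min_le_left _ _) h2
  obtain ⟨r0, hr0, h⟩ := h 0
  refine ⟨r0, hr0, L + 5, N, N, 1, c, one_pos, le_rfl, hc, fun z hz r hr hr' => ?_⟩
  filter_upwards [h z hz r hr hr'] with i hi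
  exact ⟨hi.ok, eslb_of_pack hi⟩

end

end Pool.Agent.SixB.PkE
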