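import Pool.Agent.Lib.SixB.S3PlaneB

/-!
# 6BD step 3: invariance and window independence of the plane functional

* `avc_flip`, `avc_map`: averages are invariant under flips and injective maps of faces.
* `QChart`: a chart (`QMap` for all configurations).
* `zplO Q A R O h P`: average over `A ∪ R` of `Zr` on the event that no strand of `R` joins `A` to `O`;
  `zplO_map` (charts, in particular rotations and the covering of the cylinder), `zplO_window`.
-/

set_option autoImplicit false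
set_option linter.unusedSectionVars false

namespace Pool.Agent.SixB.Rel

open Pool.Agent.Perc.Q Relation
open Pool.Agent.SixB hiding Zs_split

noncomputable section

variable {V Φ V' Φ' : Type} [DecidableEq V] [DecidableEq Φ] [DecidableEq V'] [DecidableEq Φ']
variable {Q : QC V Φ} {Q' : QC V' Φ'} {F F' : Finset Φ} {ω ω' : Φ → Bool} {a b : V × V}
  {P X Y : Finset (V × V)} {S : Finset Φ}

/-! ## Flips and maps -/

theorem ind_symmDiff (D : Φ → Bool) (T : Finset Φ) {f : Φ} (hf : f ∈ S) :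
    ind (symmDiff (S.filter fun f => D f = true) T) f = xor (D f) (ind T f) := by
  unfold ind
  simp only [Finset.mem_symmDiff, Finset.mem_filter, hf, true_and]
  by_cases h1 : f ∈ T <;> cases h2 : D f <;> simp [h1]

theorem avc_flip {g : (Φ → Bool) → ℂ} (hg : Dep (S : Set Φ) g) (D : Φ → Bool) :
    avc S (fun ω => g (fun f => xor (D f) (ω f))) = avc S g := by
  unfold avc
  congr 1
  set E := S.filter fun f => D f = true with hE
  have hES : E ⊆ S := Finset.filter_subset _ _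
  have hmem : ∀ T ∈ S.powerset, symmDiff E T ∈ S.powerset := by
    intro T hT
    rw [Finset.mem_powerset] at hT ⊢
    intro f hf
    rcases Finset.mem_symmDiff.mp hf with h | h
    · exact hES h.1
    · exact hT h.1
  refine Finset.sum_nbij' (fun T => symmDiff E T) (fun T => symmDiff E T) hmem hmem ?_ ?_ ?_
  · intro T _
    exact symmDiff_symmDiff_cancel_left E T
  · intro T _
    exact symmDiff_symmDiff_cancel_left E T
  · intro T _
    refine hg _ _ fun f hf => ?_
    exact (ind_symmDiff D T (by exact_mod_cast hf)).symm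

theorem avc_image {φ : Φ → Φ'} (hφ : Set.InjOn φ (S : Set Φ)) {g : (Φ → Bool) → ℂ}
    (hg : Dep (S : Set Φ) g) : avc (S.image φ) (fun ω => g (fun f => ω (φ f))) = avc S g := by
  rw [avc_eq, avc_eq g]
  have h1 : Dep (S : Set Φ) (fun ω => (g ω).re) := fun ω ω' h => by simp only [hg ω ω' h]
  have h2 : Dep (S : Set Φ) (fun ω => (g ω).im) := fun ω ω' h => by simp only [hg ω ω' h]
  rw [← av_image hφ h1, ← av_image hφ h2]

/-- Transport of averages, with flips. -/
theorem avc_map {ψ : Φ → Φ'} (hψ : Set.InjOn ψ (S : Set Φ)) {g : (Φ → Bool) → ℂ}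
    (hg : Dep (S : Set Φ) g) (c : Bool) {g' : (Φ' → Bool) → ℂ}
    (h : ∀ ω', g' ω' = g (fun f => xor c (ω' (ψ f)))) : avc (S.image ψ) g' = avc S g := by
  have hg2 : Dep (S : Set Φ) (fun ω => g (fun f => xor c (ω f))) := by
    intro ω ω' hω
    exact hg _ _ fun f hf => by rw [hω f hf]
  rw [← avc_flip hg (fun _ => c), ← avc_image hψ hg2]
  unfold avc
  congr 1
  exact Finset.sum_congr rfl fun T _ => h _

/-! ## Charts -/

/-- `φ`, `ψ` map the faces of `F` in `Q` to faces of `Q'`, label shift `r`. -/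
structure QChart (Q : QC V Φ) (Q' : QC V' Φ') (F : Finset Φ) (φ : V → V') (ψ : Φ → Φ')
    (r : ZMod 4) : Prop where
  inj : ∀ f ∈ F, ∀ g ∈ F, ∀ k l, φ (Q.c f k) = φ (Q.c g l) → Q.c f k = Q.c g l
  cor : ∀ f ∈ F, ∀ k, Q'.c (ψ f) (k + r) = φ (Q.c f k)

namespace QChart

variable {φ : V → V'} {ψ : Φ → Φ'} {r : ZMod 4}

theorem mono (H : QChart Q Q' F φ ψ r) (h : F' ⊆ F) : QChart Q Q' F' φ ψ r :=
  ⟨fun f hf g hg => H.inj f (h hf) g (h hg), fun f hf => H.cor f (h hf)⟩

theorem ev_shift (k r : ZMod 4) : ev (k + r) = xor (!ev r) (ev k) := by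
  revert k r
  decide

/-- the configuration of the source -/
def pull (ψ : Φ → Φ') (r : ZMod 4) (ω' : Φ' → Bool) : Φ → Bool := fun f => xor (!ev r) (ω' (ψ f))

theorem toMap (H : QChart Q Q' F φ ψ r) (ω' : Φ' → Bool) :
    QMap Q Q' F (pull ψ r ω') ω' φ ψ r where
  inj := H.inj
  cor := H.cor
  cfg := by
    intro f hf k
    unfold pull
    rw [ev_shift]
    cases ω' (ψ f) <;> cases ev r <;> cases ev k <;> decide

theorem injOn (H : QChart Q Q' F φ ψ r) : Set.InjOn ψ (F : Set Φ) :=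
  (H.toMap (fun _ => false)).inj_face

theorem dE_map (H : QChart Q Q' F φ ψ r) (h : F' ⊆ F) :
    dE Q' (F'.image ψ) = (dE Q F').image (Prod.map φ φ) :=
  ((H.mono h).toMap (fun _ => false)).dE_map

theorem inj_dE (H : QChart Q Q' F φ ψ r) (ha : a ∈ dE Q F) (hb : b ∈ dE Q F)
    (h : Prod.map φ φ a = Prod.map φ φ b) : a = b :=
  (H.toMap (fun _ => false)).inj_dE ha hb h

/-- blocking is invariant -/
theorem blk (H : QChart Q Q' F φ ψ r) (ω' : Φ' → Bool) {R : Finset Φ} (hR : R ⊆ F)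
    {C D : Finset (V × V)} (hC : C ⊆ dE Q F) (hD : D ⊆ dE Q F) :
    Blk Q' (R.image ψ) ω' (C.image (Prod.map φ φ)) (D.image (Prod.map φ φ)) ↔
      Blk Q R (pull ψ r ω') C D := by
  have H' := (H.mono hR).toMap ω'
  unfold Blk
  constructor
  · intro h c hc d hd hc1 hd1 hcd
    refine h _ (Finset.mem_image_of_mem _ hc) _ (Finset.mem_image_of_mem _ hd) ?_ ?_ (H'.srel hcd)
    · rw [H'.dE_map]
      exact Finset.mem_image_of_mem _ hc1
    · rw [H'.dE_map]
      exact Finset.mem_image_of_mem _ hd1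
  · intro h c' hc' d' hd' hc1 hd1 hcd
    obtain ⟨c, hc, rfl⟩ := Finset.mem_image.mp hc'
    obtain ⟨d, hd, rfl⟩ := Finset.mem_image.mp hd'
    rw [H'.dE_map] at hc1 hd1
    obtain ⟨c2, hc2, e1⟩ := Finset.mem_image.mp hc1
    obtain ⟨d2, hd2, e2⟩ := Finset.mem_image.mp hd1
    have e3 : c2 = c := H.inj_dE (dE_mono hR hc2) (hC hc) e1
    have e4 : d2 = d := H.inj_dE (dE_mono hR hd2) (hD hd) e2
    rw [e3] at hc2
    rw [e4] at hd2
    obtain ⟨d3, e5, hd3⟩ := H'.srel_inv hc2 hcd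
    have e6 : d3 = d := by
      apply H.inj_dE (dE_mono hR _) (hD hd) e5.symm
      exact srel_dE hd3 hc2
    rw [e6] at hd3
    exact h c hc d hd hc2 hd2 hd3

end QChart

/-! ## The functional -/

/-- the plane functional in the window `A ∪ R`, `O` = the outer sides -/
def zplO (Q : QC V Φ) (A R : Finset Φ) (O : Finset (V × V)) (h : V × V → ℂ)
    (P : Finset (V × V)) : ℂ :=
  avc (A ∪ R) (fun ω => Zr Q (A ∪ R) ω h P * ((ic (Blk Q R ω (dE Q A) O) : ℝ) : ℂ))

theorem blk_inter {R : Finset Φ} {C D : Finset (V × V)} :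
    Blk Q R ω C (D ∩ dE Q R) ↔ Blk Q R ω C D := by
  unfold Blk
  constructor
  · intro h c hc d hd hc1 hd1
    exact h c hc d (Finset.mem_inter.mpr ⟨hd, hd1⟩) hc1 hd1
  · intro h c hc d hd hc1 hd1
    exact h c hc d (Finset.mem_inter.mp hd).1 hc1 hd1

theorem ic_congr {p q : Prop} (h : p ↔ q) : ic p = ic q := by rw [propext h]

theorem zpl_eq (A R₁ B R₂ : Finset Φ) (h : V × V → ℂ) (P : Finset (V × V)) :
    zpl Q A R₁ B R₂ h P = zplO Q A R₁ (dE Q (B ∪ R₂) ∩ dE Q R₁) h P := by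
  unfold zpl zplO G1
  congr 1
  funext ω
  rw [ic_congr blk_inter]

theorem dep_zr (A R : Finset Φ) (O : Finset (V × V)) (h : V × V → ℂ) (P : Finset (V × V)) :
    Dep ((A ∪ R : Finset Φ) : Set Φ)
      (fun ω => Zr Q (A ∪ R) ω h P * ((ic (Blk Q R ω (dE Q A) O) : ℝ) : ℂ)) := by
  intro ω ω' hω
  have e1 : Zr Q (A ∪ R) ω h P = Zr Q (A ∪ R) ω' h P :=
    Zr_congr_cfg fun f hf => hω f (by exact_mod_cast hf)
  have e2 : Blk Q R ω (dE Q A) O = Blk Q R ω' (dE Q A) O :=
    propext (Blk.congr fun f hf => hω f (by exact_mod_cast Finset.mem_union_right _ hf))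
  simp only [e1, e2]

/-- **Invariance under charts.** -/
theorem zplO_map {φ : V → V'} {ψ : Φ → Φ'} {r : ZMod 4} {A R : Finset Φ}
    (H : QChart Q Q' (A ∪ R) φ ψ r) {O : Finset (V × V)} (hO : O ⊆ dE Q (A ∪ R))
    {h : V × V → ℂ} {h' : V' × V' → ℂ} (hh : ∀ a ∈ dE Q (A ∪ R), h' (Prod.map φ φ a) = h a)
    (hP : P ⊆ dE Q (A ∪ R)) :
    zplO Q' (A.image ψ) (R.image ψ) (O.image (Prod.map φ φ)) h' (P.image (Prod.map φ φ)) =
      zplO Q A R O h P := by
  unfold zplO
  rw [← Finset.image_union]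
  refine avc_map H.injOn (dep_zr A R O h P) (!ev r) ?_
  intro ω'
  have e0 : (fun f => xor (!ev r) (ω' (ψ f))) = QChart.pull ψ r ω' := rfl
  rw [e0]
  have e1 := (H.toMap ω').Zr_map hh hP
  have e2 : Blk Q' (R.image ψ) ω' (dE Q' (A.image ψ)) (O.image (Prod.map φ φ)) ↔
      Blk Q R (QChart.pull ψ r ω') (dE Q A) O := by
    rw [H.dE_map Finset.subset_union_left]
    exact H.blk ω' Finset.subset_union_right (dE_mono Finset.subset_union_left) hO
  rw [e1, ic_congr e2]

theorem ic_mul (p q : Prop) : ic p * ic q = ic (p ∧ q) := by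
  unfold ic
  by_cases h1 : p <;> by_cases h2 : q <;> simp [h1, h2]

/-- **Independence of the window.** -/
theorem zplO_window (hQ : NoLoop Q) {A R D : Finset Φ} (hAD : Disjoint (dE Q A) (dE Q D))
    {O : Finset (V × V)} (hP : P ⊆ dE Q A) (hO : dE Q D ∩ dE Q R ⊆ O) {h : V × V → ℂ}
    (hh : ∀ a, a ∉ P → a.swap ∉ P → h a = 1) {O' : Finset (V × V)} :
    ‖zplO Q A (R ∪ D) O' h P - zplO Q A R O h P‖ ≤ CP h P *
      (av R (fun ω => ic (¬ Blk Q R ω (dE Q A) O)) +
        av (R ∪ D) (fun ω => ic (¬ Blk Q (R ∪ D) ω (dE Q A) O'))) := by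
  set F := A ∪ (R ∪ D) with hF
  have hF' : F = A ∪ R ∪ D := by rw [hF, Finset.union_assoc]
  have hsub : A ∪ R ⊆ F := by
    rw [hF']
    exact Finset.subset_union_left
  have e1 : zplO Q A R O h P = avc F (fun ω => Zr Q (A ∪ R) ω h P *
      ((ic (Blk Q R ω (dE Q A) O) : ℝ) : ℂ)) := (avc_dep (dep_zr A R O h P) hsub).symm
  rw [e1]
  unfold zplO
  rw [← avc_sub]
  have hR : R ⊆ F := Finset.subset_union_left.trans Finset.subset_union_right
  have hRD' : R ∪ D ⊆ F := Finset.subset_union_right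
  have dep1 : Dep (R : Set Φ) (fun ω => ic (¬ Blk Q R ω (dE Q A) O)) := by
    intro ω ω' hω
    have e2 : Blk Q R ω (dE Q A) O = Blk Q R ω' (dE Q A) O :=
      propext (Blk.congr fun f hf => hω f (by exact_mod_cast hf))
    simp only [e2]
  have dep2 : Dep ((R ∪ D : Finset Φ) : Set Φ)
      (fun ω => ic (¬ Blk Q (R ∪ D) ω (dE Q A) O')) := by
    intro ω ω' hω
    have e2 : Blk Q (R ∪ D) ω (dE Q A) O' = Blk Q (R ∪ D) ω' (dE Q A) O' :=
      propext (Blk.congr fun f hf => hω f (by exact_mod_cast hf))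
    simp only [e2]
  have hb : ∀ ω, ‖Zr Q F ω h P * ((ic (Blk Q (R ∪ D) ω (dE Q A) O') : ℝ) : ℂ) -
      Zr Q (A ∪ R) ω h P * ((ic (Blk Q R ω (dE Q A) O) : ℝ) : ℂ)‖ ≤
      CP h P * (ic (¬ Blk Q R ω (dE Q A) O) + ic (¬ Blk Q (R ∪ D) ω (dE Q A) O')) := by
    intro ω
    have n1 := norm_Zr_le (Q := Q) (F := F) (ω := ω) hQ hh
    have n2 := norm_Zr_le (Q := Q) (F := A ∪ R) (ω := ω) hQ hh
    have c0 := CP_nonneg h P
    by_cases h1 : Blk Q R ω (dE Q A) O
    · have e3 : Zr Q F ω h P = Zr Q (A ∪ R) ω h P := by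
        rw [hF']
        apply Zr_sub h Finset.subset_union_left (hP.trans (dE_mono Finset.subset_union_left))
        apply conf_of_blk hAD hP
        intro c hc d hd hc1 hd1
        exact h1 c hc d (hO (Finset.mem_inter.mpr ⟨hd, hd1⟩)) hc1 hd1
      by_cases h2 : Blk Q (R ∪ D) ω (dE Q A) O'
      · rw [e3, ic_of h1, ic_of h2, sub_self, norm_zero]
        have a1 := ic_nonneg (¬ Blk Q R ω (dE Q A) O)
        have a2 := ic_nonneg (¬ Blk Q (R ∪ D) ω (dE Q A) O')
        positivity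
      · rw [ic_of h1, ic_not h2, ic_of h2, ic_not (not_not.mpr h1), Complex.ofReal_zero, mul_zero,
          zero_sub, norm_neg, Complex.ofReal_one, mul_one, zero_add, mul_one]
        exact n2
    · by_cases h2 : Blk Q (R ∪ D) ω (dE Q A) O'
      · rw [ic_not h1, ic_of h2, ic_of h1, ic_not (not_not.mpr h2), Complex.ofReal_zero, mul_zero,
          sub_zero, Complex.ofReal_one, mul_one, add_zero, mul_one]
        exact n1
      · rw [ic_not h1, ic_not h2, Complex.ofReal_zero, mul_zero, mul_zero, sub_self, norm_zero]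
        have a1 := ic_nonneg (¬ Blk Q R ω (dE Q A) O)
        have a2 := ic_nonneg (¬ Blk Q (R ∪ D) ω (dE Q A) O')
        positivity
  refine (norm_avc_le (f := fun ω => CP h P * (ic (¬ Blk Q R ω (dE Q A) O) +
    ic (¬ Blk Q (R ∪ D) ω (dE Q A) O'))) fun T _ => hb _).trans ?_
  rw [av_mul, av_add, av_dep dep1 hR, av_dep dep2 hRD']

theorem norm_zplO_le (hQ : NoLoop Q) {A R : Finset Φ} {O : Finset (V × V)} {h : V × V → ℂ}
    (hh : ∀ a, a ∉ P → a.swap ∉ P → h a = 1) : ‖zplO Q A R O h P‖ ≤ CP h P := by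
  unfold zplO
  refine (norm_avc_le (f := fun _ => CP h P) fun T _ => ?_).trans (le_of_eq (av_const _))
  rw [norm_mul, Complex.norm_real, Real.norm_eq_abs, abs_of_nonneg (ic_nonneg _)]
  calc _ ≤ CP h P * 1 := mul_le_mul (norm_Zr_le hQ hh) (ic_le _) (ic_nonneg _) (CP_nonneg _ _)
    _ = CP h P := mul_one _

end

end Pool.Agent.SixB.Rel
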