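import Pool.Agent.Lib.SixB.S3Defs
import Pool.Agent.Lib.SixB.S3Conf
import Pool.Agent.Lib.SixB.S3PlaneC
import Pool.Agent.Lib.SixB.S4Long
import Pool.Agent.Lib.SixB.S4Plane

/-!
# 6BD step 3, R12: thin tubes are not crossed lengthwise

* `pr_LT`: `P` (some strand crosses the rectangle `[x₀, x₁] × [y₀, y₀ + u]` from left to right) `≤ q ^ n`, `n u ≤ x₁ - x₀`.
* `av_LT`: the same in a surface with a chart of the rectangle.
* `noX_of_LT`: no such strand: the rectangle separates its two sides (`Conf.NoX`).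
* `tx`, `tR`, `tF`: the two adjacent rectangles of the middle of each of the six tubes of an environment; `good`: none
  of them is crossed lengthwise; `good_pr`: `P (not good) ≤ 12 q ^ (k / (8 a))`; `noX_tube`.
-/

set_option autoImplicit false
set_option linter.unusedSectionVars false

namespace Pool.Agent.SixB.Gd

open Pool.Agent.SixB Pool.Agent.Perc Pool.Agent.PercD Pool.Agent.PercN Pool.Agent.Perc.Q
  Pool.Agent.Perc6 Relation

noncomputable section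

variable {x₀ x₁ y₀ y₁ : ℤ}

/-! ### The rectangle -/

theorem LR_of_LT {ω : Cfg} {h : ℤ} (H : h ∈ LT ω x₀ x₁ y₀ y₁) (c : ℤ) : ω ∈ LR c x₀ x₁ y₀ y₁ := by
  obtain ⟨⟨k1, k2⟩, g, g1, g2, hg⟩ := mem_LT.1 H
  obtain ⟨q, hq⟩ := cend_joins c x₀ h
  obtain ⟨p, p', hj, hp, hc⟩ := MM_conn hq hg
  have hp1 : p.1 = x₁ := by
    rcases hj with ⟨rfl, -⟩ | ⟨rfl, -⟩ <;> simp [ua, ub]
  have hc' : Conn ω (RF x₀ x₁ y₀ y₁) (cend c x₀ h) p := hc.mono SS_sub
  have h0 : (cend c x₀ h).1 = x₀ ∧ y₀ ≤ (cend c x₀ h).2 ∧ (cend c x₀ h).2 ≤ y₁ := by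
    rcases cend_cases c x₀ h with e | e
    · rw [e]; exact ⟨rfl, k1, k2.le⟩
    · rw [e]; exact ⟨rfl, by simp only; omega, by simp only; omega⟩
  exact ⟨cend c x₀ h, p, h0.1, h0.2.1, h0.2.2, hp1, cend_par c x₀ h, hc'⟩

/-- the event that some strand crosses the rectangle from left to right -/
def Crs (x₀ x₁ y₀ y₁ : ℤ) : Set Cfg := {ω | (LT ω x₀ x₁ y₀ y₁).Nonempty}

theorem depOn_Crs : DepOn (RF x₀ x₁ y₀ y₁ : Set (ℤ × ℤ)) (Crs x₀ x₁ y₀ y₁) := by
  intro ω ω' h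
  have : LT ω' x₀ x₁ y₀ y₁ = LT ω x₀ x₁ y₀ y₁ := by
    ext j
    rw [mem_LT, mem_LT, MM_congr' h]
  unfold Crs
  rw [Set.mem_ofPred_eq, Set.mem_ofPred_eq, this]

theorem pr_LT : ∃ q : ℝ, 0 < q ∧ q < 1 ∧ ∀ (n : ℕ) (x₀ x₁ y₀ u : ℤ) (W : Finset (ℤ × ℤ)),
    0 < u → n * u ≤ x₁ - x₀ → RF x₀ x₁ y₀ (y₀ + u) ⊆ W → x₀ < x₁ →
      pr W (Crs x₀ x₁ y₀ (y₀ + u)) ≤ q ^ n := by
  obtain ⟨q, h0, h1, h⟩ := long_LR
  refine ⟨q, h0, h1, fun n x₀ x₁ y₀ u W hu hn hW hx => ?_⟩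
  refine le_trans (pr_mono W ?_) (h n 0 x₀ x₁ y₀ u W hu hn hW hx)
  rintro ω ⟨j, hj⟩
  exact LR_of_LT hj 0

/-! ### Charts -/

section Charts

variable {V Φ : Type} [DecidableEq V] [DecidableEq Φ] {Q : QC V Φ} {F : Finset Φ}
  {R : Finset (ℤ × ℤ)}

theorem c0_ZQ (f : ℤ × ℤ) : ZQ.c f 0 = f := rfl

theorem inj_face (c : PChart Q F R) : Set.InjOn c.φF (R : Set (ℤ × ℤ)) := by
  intro f hf g hg h
  have hf' : f ∈ R := by exact_mod_cast hf
  have hg' : g ∈ R := by exact_mod_cast hg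
  have h1 : c.φV (ZQ.c f 0) = c.φV (ZQ.c g 0) := by
    rw [← c.cor f hf', ← c.cor g hg', h]
  exact c.inj f hf' g hg' 0 0 h1

theorem toQChart (c : PChart Q F R) : Rel.QChart ZQ Q R c.φV c.φF 0 where
  inj := c.inj
  cor := fun f hf k => by rw [add_zero]; exact c.cor f hf k

/-- the mean of a function of the faces of a chart -/
theorem av_chart (c : PChart Q F R) {g : (ℤ × ℤ → Bool) → ℝ} (hg : Dep (R : Set (ℤ × ℤ)) g) :
    av F (fun ω => g (fun f => ω (c.φF f))) = av R g := by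
  rw [← av_image (inj_face c) hg]
  refine av_dep ?_ ?_
  · intro ω ω' h
    refine hg _ _ fun f hf => h _ ?_
    exact_mod_cast Finset.mem_image_of_mem c.φF (by exact_mod_cast hf)
  · intro x hx
    obtain ⟨f, hf, rfl⟩ := Finset.mem_image.mp hx
    exact c.sub f hf

open Classical in
/-- **A thin tube is not crossed lengthwise by a strand.** -/
theorem av_LT : ∃ q : ℝ, 0 < q ∧ q < 1 ∧ ∀ {V Φ : Type} [DecidableEq V] [DecidableEq Φ]
    (Q : QC V Φ) (F : Finset Φ) (n : ℕ) (x₀ x₁ y₀ u : ℤ) (c : PChart Q F (RF x₀ x₁ y₀ (y₀ + u))),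
    0 < u → n * u ≤ x₁ - x₀ → x₀ < x₁ →
      av F (fun ω => if (fun f => ω (c.φF f)) ∈ Crs x₀ x₁ y₀ (y₀ + u) then 1 else 0) ≤ q ^ n := by
  obtain ⟨q, h0, h1, h⟩ := pr_LT
  refine ⟨q, h0, h1, ?_⟩
  intro V Φ _ _ Q F n x₀ x₁ y₀ u c hu hn hx
  have h2 := av_chart c (g := fun ω => if ω ∈ Crs x₀ x₁ y₀ (y₀ + u) then 1 else 0) (by
    intro ω ω' hω
    have h3 := depOn_Crs (x₀ := x₀) (x₁ := x₁) (y₀ := y₀) (y₁ := y₀ + u) ω ω' hω
    simp only [h3])
  rw [h2, ← pr_eq_av]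
  exact h n x₀ x₁ y₀ u _ hu hn (Finset.Subset.refl _) hx

/-- **No crossing strand: the rectangle separates its two sides.** -/
theorem noX_of_LT (c : PChart Q F (RF x₀ x₁ y₀ y₁)) {ω : Φ → Bool} {A B : Set Φ}
    (hA : ∀ f ∈ RF x₀ x₁ y₀ y₁, ∀ k, Conf.Into Q A (sd Q (c.φF f) k).swap → f.1 = x₀ ∧ k = 3)
    (hB : ∀ f ∈ RF x₀ x₁ y₀ y₁, ∀ k, Conf.Into Q B (sd Q (c.φF f) k).swap → f.1 + 1 = x₁ ∧ k = 1)
    (hAB : ∀ b, Conf.Into Q A b.swap → ¬ Conf.Into Q B b)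
    (h : (fun f => ω (c.φF f)) ∉ Crs x₀ x₁ y₀ y₁) :
    Conf.NoX Q ω (c.φF '' (RF x₀ x₁ y₀ y₁ : Set (ℤ × ℤ))) A B := by
  classical
  intro a ha b hb hbB
  have hb' : ReflTransGen (Nx Q ω (c.φF '' (RF x₀ x₁ y₀ y₁ : Set (ℤ × ℤ)))) a b := hb
  have himg : (((RF x₀ x₁ y₀ y₁).image c.φF : Finset Φ) : Set Φ) =
      c.φF '' (RF x₀ x₁ y₀ y₁ : Set (ℤ × ℤ)) := by
    rw [Finset.coe_image]
  rw [← himg] at hb'
  rcases ReflTransGen.cases_head hb' with rfl | ⟨d, h1, -⟩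
  · exact hAB _ ha hbB
  rcases ReflTransGen.cases_tail hb' with h2 | ⟨d', -, h2⟩
  · exact hAB _ ha (h2 ▸ hbB)
  obtain ⟨f', hf', k, h3, -⟩ := h1
  obtain ⟨f, hf, rfl⟩ := Finset.mem_image.mp (Finset.mem_coe.mp hf')
  obtain ⟨g', hg', l, h4, -⟩ := h2.rev
  obtain ⟨g, hg, rfl⟩ := Finset.mem_image.mp (Finset.mem_coe.mp hg')
  have h3' : a = sd Q (c.φF f) k := h3
  have h4' : b.swap = sd Q (c.φF g) l := h4
  obtain ⟨k1, rfl⟩ := hA f hf k (by rw [← h3']; exact ha)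
  obtain ⟨l1, rfl⟩ := hB g hg l (by rw [← h4', Prod.swap_swap]; exact hbB)
  have H := (toQChart c).toMap ω
  have hsd : ∀ f ∈ RF x₀ x₁ y₀ y₁, ∀ k, sd Q (c.φF f) k = Prod.map c.φV c.φV (sd ZQ f k) := by
    intro f hf k
    have := H.sd_eq hf k
    rwa [add_zero] at this
  have hs : SRel Q ((RF x₀ x₁ y₀ y₁).image c.φF) ω a b := srel_iff.mpr (Or.inl hb')
  rw [h3', hsd f hf] at hs
  have hfE : sd ZQ f 3 ∈ dE ZQ (RF x₀ x₁ y₀ y₁) := sd_mem hf 3
  obtain ⟨b₀, hb0, hs0⟩ := H.srel_inv hfE hs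
  have hb0E : b₀ ∈ dE ZQ (RF x₀ x₁ y₀ y₁) := srel_dE hs0 hfE
  have hgE : (sd ZQ g 1).swap ∈ dE ZQ (RF x₀ x₁ y₀ y₁) := swap_mem_dE.mpr (sd_mem hg 1)
  have h5 : b = Prod.map c.φV c.φV (sd ZQ g 1).swap := by
    rw [← Prod.swap_swap b, h4', hsd g hg]
    rfl
  have h6 : b₀ = (sd ZQ g 1).swap := H.inj_dE hb0E hgE (hb0.symm.trans h5)
  subst h6
  have h7 := Tilt.MM_of_srel hs0
  rw [Tilt.und_sd, Tilt.und_sd_swap] at h7
  apply h
  rw [mem_RF] at hf hg
  have hpull : Rel.QChart.pull c.φF 0 ω = fun f => ω (c.φF f) := by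
    funext f
    unfold Rel.QChart.pull
    have : ev (0 : ZMod 4) = true := by decide
    rw [this]
    simp
  rw [hpull] at h7
  refine ⟨f.2, mem_LT.2 ⟨⟨hf.2.2.1, hf.2.2.2⟩, g.2, hg.2.2.1, hg.2.2.2, ?_⟩⟩
  have e1 : Tilt.su f 3 = (x₀, f.2, true) := by
    rw [← k1]; rfl
  have e2 : Tilt.su g 1 = (x₁, g.2, true) := by
    rw [← l1]; rfl
  rw [e1, e2] at h7
  exact h7

end Charts

/-! ### The tubes of an environment -/

section Env

/-- left end of a rectangle in the middle of a tube; `s = true`: right side, `i < 3` number of the tube (seen from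
the pockets), `j = 0` on the side of the pockets, `j = 1` behind it -/
def tx (g : BGeo) (s : Bool) (i j : ℕ) : ℤ :=
  if s then g.x2 + 3 * i * g.k + (j + 1) * (g.k / 4 : ℕ) else g.x1 - 3 * i * g.k - (j + 2) * (g.k / 4 : ℕ)

/-- right end of the rectangle -/
def tx' (g : BGeo) (s : Bool) (i j : ℕ) : ℤ := tx g s i j + (g.k / 4 : ℕ)

/-- the rectangle -/
def tR (g : BGeo) (s : Bool) (i j : ℕ) : Finset (ℤ × ℤ) :=
  RF (tx g s i j) (tx' g s i j) (g.yc - g.a) (g.yc - g.a + 2 * g.a)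

/-- its faces in the environment -/
def tF (g : BGeo) (s : Bool) (i j : ℕ) : Finset (Option Bool × (ℤ × ℤ)) :=
  (tR g s i j).image fun f => (none, f)

/-- the environment is not shifted: both blocks have the geometry `g`, the window contains the tubes -/
structure Uns (E : SEnv) (g : BGeo) : Prop where
  hu : E.gu = g
  hd : E.gd = g
  a_pos : 0 < g.a
  a_lt : g.a < g.c
  k_le : 4 ≤ g.k
  x_le : g.x1 ≤ g.x2
  win : ∀ s, ∀ i < 3, ∀ j < 2, tR g s i j ⊆ E.W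

variable {E : SEnv} {g : BGeo} {s : Bool} {i j : ℕ}

theorem tx_rng (hk : 4 ≤ g.k) (hj : j < 2) :
    (s = true ∧ g.x2 + 3 * i * g.k < tx g s i j ∧ tx' g s i j < g.x2 + 3 * i * g.k + g.k) ∨
    (s = false ∧ g.x1 - 3 * i * g.k - g.k < tx g s i j ∧ tx' g s i j < g.x1 - 3 * i * g.k) := by
  have h1 : 1 ≤ g.k / 4 := by omega
  have h2 : 4 * (g.k / 4) ≤ g.k := by omega
  generalize hq : g.k / 4 = q at h1 h2
  unfold tx' tx
  rw [hq]
  have hj' : j = 0 ∨ j = 1 := by omega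
  cases s
  · right
    refine ⟨rfl, ?_, ?_⟩ <;> rcases hj' with rfl | rfl <;> simp only [Bool.false_eq_true, if_false] <;>
      push_cast <;> generalize (3 * (i : ℤ) * g.k) = w <;> omega
  · left
    refine ⟨rfl, ?_, ?_⟩ <;> rcases hj' with rfl | rfl <;> simp only [if_true] <;>
      push_cast <;> generalize (3 * (i : ℤ) * g.k) = w <;> omega

theorem mem_tR {f : ℤ × ℤ} : f ∈ tR g s i j ↔
    tx g s i j ≤ f.1 ∧ f.1 < tx' g s i j ∧ g.yc - g.a ≤ f.2 ∧ f.2 < g.yc + g.a := by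
  unfold tR
  rw [mem_RF]
  omega

/-- the columns of a tube do not belong to the chambers and to the mouths of the pockets -/
theorem tube_col (hk : 4 ≤ g.k) (hi : i < 3) (hj : j < 2) {x : ℤ} (h1 : tx g s i j - 1 ≤ x)
    (h2 : x ≤ tx' g s i j) (hx : g.x1 ≤ g.x2) : ¬ g.cham x ∧ ¬ (g.x1 ≤ x ∧ x < g.x2) ∧
      g.x1 - 7 * g.k ≤ x ∧ x < g.x2 + 7 * g.k := by
  have h3 := tx_rng (g := g) (s := s) (i := i) hk hj
  have hi' : i = 0 ∨ i = 1 ∨ i = 2 := by omega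
  unfold BGeo.cham
  rcases h3 with ⟨-, h3, h4⟩ | ⟨-, h3, h4⟩ <;> rcases hi' with rfl | rfl | rfl <;>
    push_cast at h3 h4 <;> omega

theorem msig_none {f : ℤ × ℤ} {k : ZMod 4} {μ : Bool → Mouth}
    (h : ∀ b, ¬ ((μ b).x1 ≤ f.1 ∧ f.1 < (μ b).x2)) : msig μ f k = 1 := by
  unfold msig
  rw [dif_neg]
  rintro ⟨b, h1, h2, -⟩
  exact h b ⟨h1, h2⟩

theorem Uns.msig (H : Uns E g) {f : ℤ × ℤ} (k : ZMod 4) (h : ¬ (g.x1 ≤ f.1 ∧ f.1 < g.x2)) :
    SixB.msig (fun i : Bool => if i then E.gu.mouth true else E.gd.mouth false) f k = 1 := by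
  refine msig_none fun b => ?_
  cases b
  · simp only [Bool.false_eq_true, if_false, H.hd]
    exact h
  · simp only [if_true, H.hu]
    exact h

theorem Uns.c_none (H : Uns E g) {f : ℤ × ℤ} (k : ZMod 4) (h : ¬ (g.x1 ≤ f.1 ∧ f.1 < g.x2))
    (σ : Option Bool) : E.Q.c (σ, f) k = (σ, ZQ.c f k) := by
  change (SixB.msig (fun i : Bool => if i then E.gu.mouth true else E.gd.mouth false) f k σ, ZQ.c f k) = _
  rw [H.msig k h]
  rfl

/-- the chart of the rectangle -/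
def tCh (H : Uns E g) (hi : i < 3) (hj : j < 2) : PChart E.Q E.F (tR g s i j) where
  φV := fun v => (none, v)
  φF := fun f => (none, f)
  cor := fun f hf k => by
    rw [mem_tR] at hf
    exact H.c_none k (tube_col (s := s) (x := f.1) H.k_le hi hj (by omega) (by omega) H.x_le).2.1 none
  inj := fun f _ g' _ k l h => (Prod.mk.inj h).2
  sub := fun f hf => by
    have hf' := mem_tR.mp hf
    unfold SEnv.F
    refine Finset.mem_union_left _ (Finset.mem_union_left _ (Finset.mem_image_of_mem _ ?_))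
    unfold SEnv.base
    rw [Finset.mem_filter]
    refine ⟨H.win s i hi j hj hf, ?_, ?_⟩
    · rw [H.hu]
      unfold BGeo.solid BGeo.hgt
      simp only [if_true]
      omega
    · rw [H.hd]
      unfold BGeo.solid BGeo.hgt
      simp only [Bool.false_eq_true, if_false]
      omega

/-- no tube rectangle is crossed lengthwise -/
def good (g : BGeo) (ω : Option Bool × (ℤ × ℤ) → Bool) : Prop :=
  ∀ s, ∀ i < 3, ∀ j < 2, (fun f => ω (none, f)) ∉
    Crs (tx g s i j) (tx' g s i j) (g.yc - g.a) (g.yc - g.a + 2 * g.a)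

/-- the neighbours of a face of the rectangle -/
theorem Uns.nb (H : Uns E g) (hi : i < 3) (hj : j < 2) {f : ℤ × ℤ} (hf : f ∈ tR g s i j) {k : ZMod 4}
    {A : Set (Option Bool × (ℤ × ℤ))} (hA : A ⊆ (E.F : Set (Option Bool × (ℤ × ℤ))))
    (h : Conf.Into E.Q A (sd E.Q (none, f) k).swap) :
    (k = 3 ∧ (none, (f.1 - 1, f.2)) ∈ A) ∨ (k = 1 ∧ (none, (f.1 + 1, f.2)) ∈ A) ∨
      (∃ f' ∈ tR g s i j, (none, f') ∈ A) := by
  obtain ⟨⟨σ, f'⟩, hf', l, hl⟩ := h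
  have hf1 := mem_tR.mp hf
  have hcol := tube_col (s := s) (x := f.1) H.k_le hi hj (by omega) (by omega) H.x_le
  have hk : ∀ k, E.Q.c (none, f) k = (none, ZQ.c f k) := fun k => H.c_none k hcol.2.1 none
  -- the plane level
  have hl1 : (E.Q.c (none, f) (k + 1)) = E.Q.c (σ, f') l := congrArg Prod.fst hl
  have hl2 : (E.Q.c (none, f) k) = E.Q.c (σ, f') (l + 1) := congrArg Prod.snd hl
  rw [hk] at hl1 hl2
  have p1 : ZQ.c f (k + 1) = ZQ.c f' l := congrArg Prod.snd hl1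
  have p2 : ZQ.c f k = ZQ.c f' (l + 1) := congrArg Prod.snd hl2
  have hnb : (k = 0 ∧ f' = (f.1, f.2 - 1)) ∨ (k = 1 ∧ f' = (f.1 + 1, f.2)) ∨
      (k = 2 ∧ f' = (f.1, f.2 + 1)) ∨ (k = 3 ∧ f' = (f.1 - 1, f.2)) := by
    obtain ⟨u, v⟩ := f
    obtain ⟨u', v'⟩ := f'
    have c0 : ∀ a b : ℤ, ZQ.c (a, b) 0 = (a, b) := fun _ _ => rfl
    have c1 : ∀ a b : ℤ, ZQ.c (a, b) 1 = (a + 1, b) := fun _ _ => rfl
    have c2 : ∀ a b : ℤ, ZQ.c (a, b) 2 = (a + 1, b + 1) := fun _ _ => rfl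
    have c3 : ∀ a b : ℤ, ZQ.c (a, b) 3 = (a, b + 1) := fun _ _ => rfl
    have e1 : (0 : ZMod 4) + 1 = 1 := rfl
    have e2 : (1 : ZMod 4) + 1 = 2 := rfl
    have e3 : (2 : ZMod 4) + 1 = 3 := rfl
    have e4 : (3 : ZMod 4) + 1 = 0 := rfl
    rcases Tilt.k4 k with rfl | rfl | rfl | rfl <;> rcases Tilt.k4 l with rfl | rfl | rfl | rfl <;>
      simp only [e1, e2, e3, e4, c0, c1, c2, c3, Prod.mk.injEq] at p1 p2 <;>
      first
      | (exfalso; omega)
      | (left; exact ⟨rfl, by rw [Prod.mk.injEq]; simp only; omega⟩)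
      | (right; left; exact ⟨rfl, by rw [Prod.mk.injEq]; simp only; omega⟩)
      | (right; right; left; exact ⟨rfl, by rw [Prod.mk.injEq]; simp only; omega⟩)
      | (right; right; right; exact ⟨rfl, by rw [Prod.mk.injEq]; simp only; omega⟩)
  have hcol' : ¬ g.cham f'.1 ∧ ¬ (g.x1 ≤ f'.1 ∧ f'.1 < g.x2) ∧ g.x1 - 7 * g.k ≤ f'.1 ∧
      f'.1 < g.x2 + 7 * g.k := by
    refine tube_col (s := s) (x := f'.1) H.k_le hi hj ?_ ?_ H.x_le <;>
      rcases hnb with ⟨-, rfl⟩ | ⟨-, rfl⟩ | ⟨-, rfl⟩ | ⟨-, rfl⟩ <;> simp only <;> omega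
  have hσ : σ = none := by
    rw [H.c_none l hcol'.2.1 σ] at hl1
    exact (congrArg Prod.fst hl1).symm
  subst hσ
  have hF : ((none : Option Bool), f') ∈ E.F := by exact_mod_cast hA hf'
  have hb : f' ∈ E.base := by
    unfold SEnv.F at hF
    rw [Finset.mem_union, Finset.mem_union, Finset.mem_image, Finset.mem_image, Finset.mem_image] at hF
    rcases hF with (⟨x, hx, he⟩ | ⟨x, hx, he⟩) | ⟨x, hx, he⟩
    · rw [← (Prod.mk.inj he).2]; exact hx
    · exact absurd (Prod.mk.inj he).1 (by simp)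
    · exact absurd (Prod.mk.inj he).1 (by simp)
  unfold SEnv.base at hb
  rw [Finset.mem_filter, H.hu, H.hd] at hb
  obtain ⟨-, hs1, hs2⟩ := hb
  have hac := H.a_lt
  rcases hnb with ⟨rfl, h1⟩ | ⟨rfl, h1⟩ | ⟨rfl, h1⟩ | ⟨rfl, h1⟩
  · refine Or.inr (Or.inr ⟨f', ?_, hf'⟩)
    rw [mem_tR]
    by_contra hcon
    apply hs2
    unfold BGeo.solid BGeo.hgt
    simp only [Bool.false_eq_true, if_false]
    rw [h1] at hcon hcol' ⊢
    simp only at hcon hcol' ⊢
    refine ⟨by omega, by omega, by omega, by omega, fun h => hcol'.1 h.1⟩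
  · exact Or.inr (Or.inl ⟨rfl, by rw [← h1]; exact hf'⟩)
  · refine Or.inr (Or.inr ⟨f', ?_, hf'⟩)
    rw [mem_tR]
    by_contra hcon
    apply hs1
    unfold BGeo.solid BGeo.hgt
    simp only [if_true]
    rw [h1] at hcon hcol' ⊢
    simp only at hcon hcol' ⊢
    refine ⟨by omega, by omega, by omega, by omega, fun h => hcol'.1 h.1⟩
  · exact Or.inl ⟨rfl, by rw [← h1]; exact hf'⟩

theorem coe_tF : ((tF g s i j : Finset _) : Set (Option Bool × (ℤ × ℤ))) =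
    (fun f => ((none : Option Bool), f)) '' (tR g s i j : Set (ℤ × ℤ)) := by
  unfold tF
  rw [Finset.coe_image]

/-- **On the good event the rectangle separates its left side `A` from its right side `B`.** -/
theorem Uns.noX (H : Uns E g) (hi : i < 3) (hj : j < 2) {ω : Option Bool × (ℤ × ℤ) → Bool}
    (hg : good g ω) {A B : Set (Option Bool × (ℤ × ℤ))}
    (hA : A ⊆ (E.F : Set (Option Bool × (ℤ × ℤ)))) (hB : B ⊆ (E.F : Set (Option Bool × (ℤ × ℤ))))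
    (hAR : ∀ f ∈ tR g s i j, (none, f) ∉ A) (hBR : ∀ f ∈ tR g s i j, (none, f) ∉ B)
    (hA1 : ∀ y, g.yc - g.a ≤ y → y < g.yc + g.a → (none, (tx' g s i j, y)) ∉ A)
    (hB1 : ∀ y, g.yc - g.a ≤ y → y < g.yc + g.a → (none, (tx g s i j - 1, y)) ∉ B)
    (hAB : ∀ b, Conf.Into E.Q A b.swap → ¬ Conf.Into E.Q B b) :
    Conf.NoX E.Q ω (tF g s i j : Set (Option Bool × (ℤ × ℤ))) A B := by
  rw [coe_tF]
  refine noX_of_LT (tCh H hi hj) ?_ ?_ hAB (hg s i hi j hj)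
  · intro f hf k hk
    have hf' : f ∈ tR g s i j := hf
    have hf1 := mem_tR.mp hf'
    rcases H.nb hi hj hf' hA hk with ⟨h1, h2⟩ | ⟨h1, h2⟩ | ⟨f', h1, h2⟩
    · refine ⟨?_, h1⟩
      by_contra hne
      refine hAR (f.1 - 1, f.2) ?_ h2
      rw [mem_tR]
      simp only
      omega
    · exfalso
      by_cases hx : f.1 + 1 = tx' g s i j
      · rw [hx] at h2
        exact hA1 _ hf1.2.2.1 hf1.2.2.2 h2
      · refine hAR (f.1 + 1, f.2) ?_ h2
        rw [mem_tR]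
        simp only
        omega
    · exact absurd h2 (hAR f' h1)
  · intro f hf k hk
    have hf' : f ∈ tR g s i j := hf
    have hf1 := mem_tR.mp hf'
    rcases H.nb hi hj hf' hB hk with ⟨h1, h2⟩ | ⟨h1, h2⟩ | ⟨f', h1, h2⟩
    · exfalso
      by_cases hx : f.1 = tx g s i j
      · rw [hx] at h2
        exact hB1 _ hf1.2.2.1 hf1.2.2.2 h2
      · refine hBR (f.1 - 1, f.2) ?_ h2
        rw [mem_tR]
        simp only
        omega
    · refine ⟨?_, h1⟩
      by_contra hne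
      refine hBR (f.1 + 1, f.2) ?_ h2
      rw [mem_tR]
      simp only
      omega
    · exact absurd h2 (hBR f' h1)

/-- `good` is a function of the faces of the tubes -/
theorem good_dep {ω ω' : Option Bool × (ℤ × ℤ) → Bool}
    (h : ∀ s, ∀ i < 3, ∀ j < 2, ∀ f ∈ tR g s i j, ω (none, f) = ω' (none, f)) :
    good g ω ↔ good g ω' := by
  unfold good
  refine forall_congr' fun s => forall_congr' fun i => forall_congr' fun hi => forall_congr' fun j =>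
    forall_congr' fun hj => not_congr ?_
  exact depOn_Crs _ _ fun f hf => h s i hi j hj f (by exact_mod_cast hf)

theorem av_le_sum {Φ : Type} [DecidableEq Φ] {F : Finset Φ} {ι : Type} (I : Finset ι)
    (P : (Φ → Bool) → Prop) (A : ι → (Φ → Bool) → Prop) [DecidablePred P] [∀ i, DecidablePred (A i)]
    (h : ∀ ω, ¬ P ω → ∃ i ∈ I, A i ω) {c : ℝ}
    (hA : ∀ i ∈ I, av F (fun ω => if A i ω then 1 else 0) ≤ c) :
    av F (fun ω => if P ω then 0 else 1) ≤ I.card * c := by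
  have h1 : av F (fun ω => if P ω then 0 else 1) ≤
      av F (fun ω => ∑ i ∈ I, if A i ω then (1 : ℝ) else 0) := by
    refine av_mono fun T _ => ?_
    by_cases hP : P (ind T)
    · rw [if_pos hP]
      exact Finset.sum_nonneg fun i _ => by split_ifs <;> norm_num
    · rw [if_neg hP]
      obtain ⟨i, hi, hAi⟩ := h _ hP
      refine le_trans (le_of_eq ?_) (Finset.single_le_sum
        (f := fun i => if A i (ind T) then (1 : ℝ) else 0) (fun i _ => by split_ifs <;> norm_num) hi)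
      simp only [if_pos hAi]
  refine h1.trans ?_
  rw [av_sum]
  refine (Finset.sum_le_card_nsmul I _ c hA).trans (le_of_eq ?_)
  rw [nsmul_eq_mul]

open Classical in
/-- **(R12)** the tubes are not crossed lengthwise, up to an exponentially small probability -/
theorem good_pr : ∃ q : ℝ, 0 < q ∧ q < 1 ∧ ∀ (E : SEnv) (g : BGeo), Uns E g →
    av E.F (fun ω => if good g ω then 0 else 1) ≤ 12 * q ^ (g.k / (8 * g.a)) := by
  obtain ⟨q, h0, h1, h⟩ := av_LT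
  refine ⟨q, h0, h1, fun E g H => ?_⟩
  have ha := H.a_pos
  have hk := H.k_le
  refine (av_le_sum (Finset.univ ×ˢ (Finset.range 3 ×ˢ Finset.range 2) : Finset (Bool × ℕ × ℕ))
    (fun ω => good g ω) (fun p ω => (fun f => ω (none, f)) ∈
      Crs (tx g p.1 p.2.1 p.2.2) (tx' g p.1 p.2.1 p.2.2) (g.yc - g.a) (g.yc - g.a + 2 * g.a))
    ?_ (c := q ^ (g.k / (8 * g.a))) ?_).trans (le_of_eq ?_)
  · intro ω hω
    unfold good at hω
    push Not at hω
    obtain ⟨s, i, hi, j, hj, hc⟩ := hω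
    exact ⟨(s, i, j), by simp only [Finset.mem_product, Finset.mem_univ, Finset.mem_range, true_and]; exact ⟨hi, hj⟩, hc⟩
  · rintro ⟨s, i, j⟩ hp
    simp only [Finset.mem_product, Finset.mem_univ, Finset.mem_range, true_and] at hp
    have hn : (g.k / (8 * g.a)) * (2 * g.a) ≤ g.k / 4 := by
      have h2 : g.k / (8 * g.a) = g.k / 4 / (2 * g.a) := by
        rw [Nat.div_div_eq_div_mul]
        congr 1
        ring
      rw [h2]
      exact Nat.div_mul_le_self _ _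
    have hlen : tx' g s i j - tx g s i j = (g.k / 4 : ℕ) := by
      unfold tx'
      ring
    have h4 : 1 ≤ g.k / 4 := by omega
    exact h E.Q E.F (g.k / (8 * g.a)) (tx g s i j) (tx' g s i j) (g.yc - g.a) (2 * g.a)
      (tCh (s := s) H hp.1 hp.2) (by omega) (by rw [hlen]; exact_mod_cast hn) (by omega)
  · simp

/-- smallness -/
theorem good_small {δ : ℝ} (hδ : 0 < δ) : ∃ M : ℕ, 0 < M ∧ ∀ (E : SEnv) (g : BGeo), Uns E g →
    M * g.a ≤ g.k → (open Classical in av E.F (fun ω => if good g ω then 0 else 1)) ≤ δ := by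
  obtain ⟨q, h0, h1, h⟩ := good_pr
  obtain ⟨n, hn⟩ := exists_pow_lt_of_lt_one (show (0 : ℝ) < δ / 12 by positivity) h1
  refine ⟨8 * n + 1, by omega, fun E g H hM => (h E g H).trans ?_⟩
  have h2 : n ≤ g.k / (8 * g.a) := by
    have ha := H.a_pos
    rw [Nat.le_div_iff_mul_le (by omega)]
    nlinarith
  have h3 : q ^ (g.k / (8 * g.a)) ≤ q ^ n := pow_le_pow_of_le_one h0.le h1.le h2
  linarith

end Env

end

end Pool.Agent.SixB.Gd
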