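import Pool.Agent.Lib.SixB.S3EnvN
import Pool.Agent.Lib.SixB.S3Good

/-!
# 6BD step 3.8 (R18): the slab with closed tubes inside the environment

`S : Slb`, environment `E = S.env W 0 0` (not shifted), `S.q` = quarter of the unit `k`.
* `S.strip c`: the rows of the slab, columns between `x1 - c` and `x2 + c`; `S.G c`: these faces of the base sheet and
  the two pockets. `S.G 0` = the polygon `D`, `S.G q`, `S.G (2q)`, `S.G (3q)`: with pieces of the two tubes.
* `S.phG c`: phases of `S.G c` (natural at the closed ends of the tubes); `S.phO c`: phases of the complement.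
* `S.bd j` (`j = 0, 1`): indicator of the event that one of the two tube rectangles `Gd.tR g s 0 j` is crossed lengthwise.
-/

set_option autoImplicit false
set_option linter.unusedSectionVars false

namespace Pool.Agent.SixB

open Pool.Agent.Perc.Q Pool.Agent.Perc

noncomputable section

namespace Slb

variable (S : Slb)

/-- a quarter of the unit -/
def q : ℕ := S.k / 4

/-- the rows of the slab, columns from `x1 - c` to `x2 + c` -/
def strip (c : ℕ) : Finset (ℤ × ℤ) :=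
  Finset.Ico (S.x1 - c) (S.x2 + c) ×ˢ Finset.Ico (S.yc - S.a) (S.yc + S.a)

/-- the polygon with tubes of length `c`, in the environment -/
def G (c : ℕ) : Finset (Option Bool × (ℤ × ℤ)) :=
  (S.strip c).image (fun f => (none, f)) ∪ S.Up.image (fun f => (some true, f)) ∪
    S.Lo.image fun f => (some false, f)

/-- phases of the environment (they do not depend on the window) -/
def phE : (Option Bool × (ℤ × ℤ)) × (Option Bool × (ℤ × ℤ)) → ℝ := S.ph ∅ 0 0

/-- phases of `S.G c` -/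
def phG (c : ℕ) (s : (Option Bool × (ℤ × ℤ)) × (Option Bool × (ℤ × ℤ))) : ℝ :=
  if s.1.1 = none ∧ s.2.1 = none ∧ s.1.2.1 = S.x2 + c ∧ s.2.2 = (S.x2 + c, s.1.2.2 + 1) then S.ρr
  else if s.1.1 = none ∧ s.2.1 = none ∧ s.1.2.1 = S.x1 - c ∧ s.2.2 = (S.x1 - c, s.1.2.2 - 1) then S.ρl
  else S.phE s

/-- phases of the complement of `S.G c` -/
def phO (c : ℕ) (s : (Option Bool × (ℤ × ℤ)) × (Option Bool × (ℤ × ℤ))) : ℝ :=
  if s.1.1 = none ∧ s.2.1 = none ∧ s.1.2.1 = S.x2 + c ∧ s.2.2 = (S.x2 + c, s.1.2.2 - 1) then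
    S.ρr - Real.pi / 6
  else if s.1.1 = none ∧ s.2.1 = none ∧ s.1.2.1 = S.x1 - c ∧ s.2.2 = (S.x1 - c, s.1.2.2 + 1) then
    S.ρl - Real.pi / 6
  else S.phE s

open Classical in
/-- indicator of a lengthwise crossing of one of the two rectangles number `j` of the first tubes -/
def bd (j : ℕ) (ω : Option Bool × (ℤ × ℤ) → Bool) : ℝ :=
  if ∃ s : Bool, (fun f => ω (none, f)) ∈ Gd.Crs (Gd.tx (S.geo 0) s 0 j) (Gd.tx' (S.geo 0) s 0 j)
    (S.yc - S.a) (S.yc - S.a + 2 * S.a) then 1 else 0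

variable {S}

theorem mem_strip {c : ℕ} {f : ℤ × ℤ} :
    f ∈ S.strip c ↔ S.x1 - c ≤ f.1 ∧ f.1 < S.x2 + c ∧ S.yc - S.a ≤ f.2 ∧ f.2 < S.yc + S.a := by
  unfold strip
  rw [Finset.mem_product, Finset.mem_Ico, Finset.mem_Ico]
  tauto

theorem mem_G {c : ℕ} {f : Option Bool × (ℤ × ℤ)} :
    f ∈ S.G c ↔ (f.1 = none ∧ f.2 ∈ S.strip c) ∨ (f.1 = some true ∧ f.2 ∈ S.Up) ∨
      (f.1 = some false ∧ f.2 ∈ S.Lo) := by
  obtain ⟨s, f⟩ := f
  unfold G
  rw [Finset.mem_union, Finset.mem_union, Finset.mem_image, Finset.mem_image, Finset.mem_image]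
  constructor
  · rintro ((⟨g, hg, h⟩ | ⟨g, hg, h⟩) | ⟨g, hg, h⟩)
    · obtain ⟨rfl, rfl⟩ := Prod.mk.inj h
      exact Or.inl ⟨rfl, hg⟩
    · obtain ⟨rfl, rfl⟩ := Prod.mk.inj h
      exact Or.inr (Or.inl ⟨rfl, hg⟩)
    · obtain ⟨rfl, rfl⟩ := Prod.mk.inj h
      exact Or.inr (Or.inr ⟨rfl, hg⟩)
  · rintro (⟨h, hg⟩ | ⟨h, hg⟩ | ⟨h, hg⟩)
    · simp only at h
      subst h
      exact Or.inl (Or.inl ⟨f, hg, rfl⟩)
    · simp only at h
      subst h
      exact Or.inl (Or.inr ⟨f, hg, rfl⟩)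
    · simp only at h
      subst h
      exact Or.inr ⟨f, hg, rfl⟩

theorem strip_mono {c c' : ℕ} (h : c ≤ c') : S.strip c ⊆ S.strip c' := by
  intro f hf
  rw [mem_strip] at hf ⊢
  omega

theorem G_mono {c c' : ℕ} (h : c ≤ c') : S.G c ⊆ S.G c' := by
  intro f hf
  rw [mem_G] at hf ⊢
  rcases hf with ⟨h1, h2⟩ | h1 | h1
  · exact Or.inl ⟨h1, strip_mono h h2⟩
  · exact Or.inr (Or.inl h1)
  · exact Or.inr (Or.inr h1)

theorem bd_01 (j : ℕ) (ω : Option Bool × (ℤ × ℤ) → Bool) : S.bd j ω = 0 ∨ S.bd j ω = 1 := by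
  unfold bd
  split_ifs
  · exact Or.inr rfl
  · exact Or.inl rfl

theorem bd_zero {j : ℕ} {ω : Option Bool × (ℤ × ℤ) → Bool} (h : S.bd j ω = 0) (s : Bool) :
    (fun f => ω (none, f)) ∉ Gd.Crs (Gd.tx (S.geo 0) s 0 j) (Gd.tx' (S.geo 0) s 0 j)
      (S.yc - S.a) (S.yc - S.a + 2 * S.a) := by
  unfold bd at h
  intro hs
  rw [if_pos ⟨s, hs⟩] at h
  exact one_ne_zero h

/-- the phases do not depend on the window -/
theorem ph_eq (W : Finset (ℤ × ℤ)) : S.ph W 0 0 = S.phE := rfl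

end Slb

end

end Pool.Agent.SixB
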