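import Pool.Agent.Lib.SixB.S3MouthC
import Pool.Agent.Lib.SixB.S0One

/-!
# SixB, step 3.8: attaching natural pockets at several mouths

`nW`, `nW1`: the weight of a smoothing and the weight with one arrow inserted, divided by `√3` for
every arc.  `MData`: `F₁ ⊆ F`, the rest is the union of the pockets `R i`.  `good_eq`: if the strands
of `F` and of `F₁` which touch the pockets are natural, except that of one side `a₀`, whose angle in
`F` is that in `F₁`, then the normalised products are equal, also with an arrow inserted whose strand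
does not touch the pockets or is that of `a₀` (`nW_good`, `nW1_good`).
-/

set_option autoImplicit false
set_option linter.unusedSectionVars false

namespace Pool.Agent.SixB

open Pool.Agent.Perc.Q Relation

noncomputable section

variable {V Φ : Type} [DecidableEq V] [DecidableEq Φ]
variable {Q : QC V Φ} {F F₁ : Finset Φ} {ω : Φ → Bool} {a b c e : V × V} {X : Finset (V × V)}

/-! ## Normalised weights -/

/-- weight of a smoothing, divided by `√3` for every arc -/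
def nW (Q : QC V Φ) (F : Finset Φ) (ψ : V × V → ℝ) (ω : Φ → Bool) : ℝ :=
  WU Q F ψ ω / Real.sqrt 3 ^ ((bS Q F).card / 2)

/-- the same with the arrow `e` inserted -/
def nW1 (Q : QC V Φ) (F : Finset Φ) (ψ : V × V → ℝ) (e : V × V) (ω : Φ → Bool) : ℝ :=
  WU1 Q F ψ e ω / Real.sqrt 3 ^ ((bS Q F).card / 2)

theorem Zs_Zn (hQ : NoLoop Q) (h : V × V → ℂ) :
    Zs Q F ω h = Zn Q F ω h * (Real.sqrt 3 : ℂ) ^ ((bS Q F).card / 2) := by
  classical
  have hc : (bS Q F).card / 2 = (arcs Q F ω).card := by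
    have := card_arcs (Q := Q) (F := F) (ω := ω) hQ
    omega
  have h1 : ∏ U ∈ ust Q F ω, (if ∃ X ∈ U, ∃ b ∈ X, Ini Q (F : Set Φ) b then (Real.sqrt 3 : ℂ) else 1) =
      (Real.sqrt 3 : ℂ) ^ (arcs Q F ω).card := by
    rw [ust_split, Finset.prod_union lps_arcs_disj, Finset.prod_image uarc_inj,
      Finset.prod_eq_one, one_mul, Finset.prod_congr rfl (g := fun _ => (Real.sqrt 3 : ℂ)),
      Finset.prod_const]
    · intro p hp
      obtain ⟨a, ha, rfl⟩ := mem_arcs.mp hp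
      rw [if_pos]
      rw [uarc_eq ha]
      exact ⟨_, Finset.mem_insert_self _ _, a, self_mem_dst (mem_bS.mp ha).1, (mem_bS.mp ha).2⟩
    · intro U hU
      unfold lps at hU
      obtain ⟨X, hX, rfl⟩ := Finset.mem_image.mp hU
      obtain ⟨hX1, hX2⟩ := Finset.mem_filter.mp hX
      rw [if_neg]
      rintro ⟨Y, hY, b, hb, hb'⟩
      rw [Finset.mem_insert, Finset.mem_singleton] at hY
      rcases hY with rfl | rfl
      · exact hX2 b hb hb'
      · obtain ⟨c, hc, hc'⟩ := ini_of_ter hX1 (mem_rv.mp hb) (ter_swap.mpr hb')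
        exact hX2 c hc hc'
  rw [hc, ← h1]
  unfold Zs Zn
  rw [← Finset.prod_mul_distrib]
  refine Finset.prod_congr rfl fun U _ => ?_
  unfold nw
  rw [div_mul_cancel₀]
  split_ifs
  · exact sqrt3_ne
  · exact one_ne_zero

theorem Zn_nW (hQ : NoLoop Q) (ψ : V × V → ℝ) : Zn Q F ω (bph Q F ψ) = ((nW Q F ψ ω : ℝ) : ℂ) := by
  have h := Zs_Zn (F := F) (ω := ω) hQ (bph Q F ψ)
  rw [Zs_WU hQ] at h
  unfold nW
  push_cast
  rw [h, mul_div_cancel_right₀]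
  exact pow_ne_zero _ sqrt3_ne

theorem Zn_nW1 (hQ : NoLoop Q) (ψ : V × V → ℝ) (he : e ∈ dE Q F) :
    Zn Q F ω (fun a => bph Q F ψ a * sgE e a) = ((nW1 Q F ψ e ω : ℝ) : ℂ) * Complex.I := by
  have h := Zs_Zn (F := F) (ω := ω) hQ (fun a => bph Q F ψ a * sgE e a)
  rw [Zs_WU1 hQ he] at h
  unfold nW1
  push_cast
  rw [div_mul_eq_mul_div, h, mul_div_cancel_right₀]
  exact pow_ne_zero _ sqrt3_ne

theorem ang6_agl (ψ : V × V → ℝ) (ha : a ∈ bS Q F) :
    agl Q F ω ψ (dst Q F ω a) = ang6 Q F ω ψ a := by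
  rw [agl_arc ha]
  rfl

/-! ## Pockets -/

variable {ι : Type} {R : ι → Finset Φ} {a₀ : V × V} {i j : ι}

/-- pockets `R i` attached to `F₁` -/
structure MData (Q : QC V Φ) (F F₁ : Finset Φ) (R : ι → Finset Φ) : Prop where
  sub : F₁ ⊆ F
  cov : ∀ f ∈ F, f ∉ F₁ → ∃ i, f ∈ R i
  R_F : ∀ i, R i ⊆ F \ F₁
  Rd : ∀ i j, i ≠ j → ∀ b ∈ dE Q (R i), b ∉ dE Q (R j)

/-- no arc of `F₁` from one mouth to another one -/
structure MGood (Q : QC V Φ) (F F₁ : Finset Φ) (R : ι → Finset Φ) (a₀ : V × V) (ω : Φ → Bool) :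
    Prop where
  a0 : a₀ ∈ bS Q F₁
  a0R : a₀ ∉ dE Q (F \ F₁)
  nij : ∀ i j, i ≠ j → ∀ a ∈ bS Q F₁, a ∈ dE Q (R i) → mate Q F₁ ω a ∉ dE Q (R j)

/-- sides of `F` on strands which belong to the mouth `i` -/
def MInv (Q : QC V Φ) (F₁ Ri : Finset Φ) (ω : Φ → Bool) (b : V × V) : Prop :=
  b ∈ dE Q Ri ∨ (b ∈ dE Q F₁ ∧ ¬ Off Q Ri (dst Q F₁ ω b))

/-- angles and phases -/
structure MAng (Q : QC V Φ) (F F₁ : Finset Φ) (R : ι → Finset Φ)
    (a₀ : V × V) (ψ ψ₁ : V × V → ℝ) (ω : Φ → Bool) : Prop where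
  hψ : ∀ a ∈ bS Q F₁, a ∉ dE Q (F \ F₁) → ψ a = ψ₁ a
  hL : ∀ a ∈ dE Q F, (∀ b ∈ dst Q F ω a, ¬ Ini Q (F : Set Φ) b) →
    (∃ b ∈ dst Q F ω a, b ∈ dE Q (F \ F₁)) →
    tX Q F ω (dst Q F ω a) = 4 ∨ tX Q F ω (dst Q F ω a) = -4
  angF : ∀ i, ∀ a ∈ bS Q F, MInv Q F₁ (R i) ω a → a ≠ a₀ → mate Q F ω a ≠ a₀ →
    Real.cos (ang6 Q F ω ψ a) = Real.sqrt 3 / 2
  angD : ∀ i, ∀ a ∈ bS Q F₁, a ∈ dE Q (R i) → mate Q F₁ ω a ≠ a₀ →
    Real.cos (ang6 Q F₁ ω ψ₁ a) = Real.sqrt 3 / 2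
  ang0 : ∀ i, mate Q F₁ ω a₀ ∈ dE Q (R i) → ang6 Q F ω ψ a₀ = ang6 Q F₁ ω ψ₁ a₀

theorem MData.dj (D : MData Q F F₁ R) (i : ι) : Disjoint F₁ (R i) := by
  rw [Finset.disjoint_left]
  intro f hf hf'
  exact (Finset.mem_sdiff.mp (D.R_F i hf')).2 hf

theorem MData.dE_R (D : MData Q F F₁ R) : b ∈ dE Q (F \ F₁) ↔ ∃ i, b ∈ dE Q (R i) := by
  constructor
  · intro h
    obtain ⟨f, hf, k, h⟩ := mem_dE.mp h
    obtain ⟨h1, h2⟩ := Finset.mem_sdiff.mp hf
    obtain ⟨i, hi⟩ := D.cov f h1 h2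
    exact ⟨i, mem_dE.mpr ⟨f, hi, k, h⟩⟩
  · rintro ⟨i, h⟩
    exact dE_sub (D.R_F i) h

/-- the end of an arc of `F₁` at the mouth -/
theorem exists_mouth (D : MData Q F F₁ R) (h : ¬ Off Q (R i) (dst Q F₁ ω b)) :
    ∃ m ∈ bS Q F₁, m ∈ dE Q (R i) ∧ (m ∈ dst Q F₁ ω b ∨ m.swap ∈ dst Q F₁ ω b) := by
  unfold Off at h
  push Not at h
  obtain ⟨c, hc, hcR⟩ := h
  obtain ⟨h1, h2⟩ := mem_dst.mp hc
  rcases end_of_common (D.dj i) h1 hcR with h3 | h3
  · exact ⟨c, mem_bS.mpr ⟨h1, h3⟩, hcR, Or.inl hc⟩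
  · refine ⟨c.swap, mem_bS.mpr ⟨swap_mem_dE.mpr h1, ini_swap.mpr h3⟩, swap_mem_dE.mpr hcR, Or.inr ?_⟩
    rw [Prod.swap_swap]
    exact hc

/-- an arc of `F₁` whose strand touches the pocket `i` has one of its ends at the mouth `i` -/
theorem end_mouth (D : MData Q F F₁ R) (ha : a ∈ bS Q F₁) (h : ¬ Off Q (R i) (dst Q F₁ ω a)) :
    a ∈ dE Q (R i) ∨ mate Q F₁ ω a ∈ dE Q (R i) := by
  obtain ⟨m, hm, hmR, hm'⟩ := exists_mouth D h
  rcases hm' with hm' | hm'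
  · have : a = m := ini_unique (mem_bS.mp ha).2 (mem_bS.mp hm).2 (mem_dst.mp hm').2
    exact Or.inl (this ▸ hmR)
  · right
    rw [mate_unique (mem_bS.mp ha).2 (ter_swap.mpr (mem_bS.mp hm).2) (mem_dst.mp hm').2,
      Prod.swap_swap]
    exact hmR

theorem no_ij (D : MData Q F F₁ R) (G : MGood Q F F₁ R a₀ ω) (hij : i ≠ j)
    (hb : b ∈ dE Q (R j)) : ¬ MInv Q F₁ (R i) ω b := by
  rintro (h | ⟨h1, h2⟩)
  · exact D.Rd i j hij b h hb
  · obtain ⟨m, hm, hmR, hm'⟩ := exists_mouth D h2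
    -- the end `x` of the strand of `b` in `R j`
    have hx : ∃ x ∈ bS Q F₁, x ∈ dE Q (R j) ∧ (SRel Q F₁ ω x m ∨ SRel Q F₁ ω x m.swap) := by
      have hm2 : SRel Q F₁ ω b m ∨ SRel Q F₁ ω b m.swap :=
        hm'.imp (fun h => (mem_dst.mp h).2) (fun h => (mem_dst.mp h).2)
      rcases end_of_common (D.dj j) h1 hb with h3 | h3
      · exact ⟨b, mem_bS.mpr ⟨h1, h3⟩, hb, hm2⟩
      · refine ⟨b.swap, mem_bS.mpr ⟨swap_mem_dE.mpr h1, ini_swap.mpr h3⟩, swap_mem_dE.mpr hb, ?_⟩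
        rcases hm2 with h4 | h4
        · exact Or.inr (srel_swap h4)
        · have := srel_swap h4
          rw [Prod.swap_swap] at this
          exact Or.inl this
    obtain ⟨x, hx1, hx2, hx3⟩ := hx
    rcases hx3 with hx3 | hx3
    · have : x = m := ini_unique (mem_bS.mp hx1).2 (mem_bS.mp hm).2 hx3
      rw [this] at hx2
      exact D.Rd i j hij m hmR hx2
    · have h5 : mate Q F₁ ω x = m := by
        rw [mate_unique (mem_bS.mp hx1).2 (ter_swap.mpr (mem_bS.mp hm).2) hx3, Prod.swap_swap]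
      exact G.nij j i hij.symm x hx1 hx2 (h5 ▸ hmR)

theorem inv_F₁ (hb : b ∈ dE Q F₁) :
    MInv Q F₁ (R i) ω b ↔ ¬ Off Q (R i) (dst Q F₁ ω b) := by
  constructor
  · rintro (h | ⟨-, h⟩)
    · exact fun h' => h' b (self_mem_dst hb) h
    · exact h
  · exact fun h => Or.inr ⟨hb, h⟩

theorem inv_step (D : MData Q F F₁ R) (G : MGood Q F F₁ R a₀ ω)
    (h : Nx Q ω (F : Set Φ) b c) : MInv Q F₁ (R i) ω b ↔ MInv Q F₁ (R i) ω c := by
  obtain ⟨f, hf, k, h1, h2⟩ := h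
  have hf' : f ∈ F := by exact_mod_cast hf
  by_cases hf1 : f ∈ F₁
  · have hn : Nx Q ω (F₁ : Set Φ) b c := ⟨f, by exact_mod_cast hf1, k, h1, h2⟩
    rw [inv_F₁ (Nx.left_mem hn), inv_F₁ (Nx.right_mem hn), dst_eq (EqvGen.rel _ _ hn)]
  · obtain ⟨j, hj⟩ := D.cov f hf' hf1
    have hn : Nx Q ω (R j : Set Φ) b c := ⟨f, by exact_mod_cast hj, k, h1, h2⟩
    by_cases hij : i = j
    · subst hij
      exact ⟨fun _ => Or.inl (Nx.right_mem hn), fun _ => Or.inl (Nx.left_mem hn)⟩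
    · exact ⟨fun h3 => absurd h3 (no_ij D G hij (Nx.left_mem hn)),
        fun h3 => absurd h3 (no_ij D G hij (Nx.right_mem hn))⟩

theorem inv_srel (D : MData Q F F₁ R) (G : MGood Q F F₁ R a₀ ω)
    (h : SRel Q F ω b c) : MInv Q F₁ (R i) ω b ↔ MInv Q F₁ (R i) ω c := by
  induction h with
  | rel x y h => exact inv_step D G h
  | refl x => exact Iff.rfl
  | symm x y _ ih => exact ih.symm
  | trans x y z _ _ ih1 ih2 => exact ih1.trans ih2

theorem inv_swap : MInv Q F₁ (R i) ω b.swap ↔ MInv Q F₁ (R i) ω b := by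
  have key : ∀ b : V × V, MInv Q F₁ (R i) ω b → MInv Q F₁ (R i) ω b.swap := by
    rintro b (h | ⟨h1, h2⟩)
    · exact Or.inl (swap_mem_dE.mpr h)
    · refine Or.inr ⟨swap_mem_dE.mpr h1, fun h => h2 ?_⟩
      have := h.rv
      rwa [rv_dst, Prod.swap_swap] at this
  refine ⟨fun h => ?_, key b⟩
  have := key _ h
  rwa [Prod.swap_swap] at this

theorem inv_mate (D : MData Q F F₁ R) (G : MGood Q F F₁ R a₀ ω) (ha : a ∈ bS Q F)
    (h : MInv Q F₁ (R i) ω a) : MInv Q F₁ (R i) ω (mate Q F ω a) := by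
  have h1 := (inv_srel D G (srel_lst (ω := ω) (mem_bS.mp ha).2)).mp h
  unfold mate
  exact inv_swap.mpr h1

theorem exists_R (D : MData Q F F₁ R) {X : Finset (V × V)} (h : ¬ Off Q (F \ F₁) X) :
    ∃ i, ¬ Off Q (R i) X := by
  unfold Off at h
  push Not at h
  obtain ⟨c, hc, hcR⟩ := h
  obtain ⟨i, hi⟩ := D.dE_R.mp hcR
  exact ⟨i, fun h => h c hc hi⟩

/-- **The products of `F` and of `F₁` agree on the good event.** -/
theorem good_eq (hQ : NoLoop Q) (D : MData Q F F₁ R) (G : MGood Q F F₁ R a₀ ω)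
    {ψ ψ₁ : V × V → ℝ} (A : MAng Q F F₁ R a₀ ψ ψ₁ ω) {s : V × V → ℂ}
    (hs1 : ∀ b ∈ dE Q (F \ F₁), s b = 1)
    (hs2 : ∀ b ∈ dE Q F₁, ¬ Off Q (F \ F₁) (dst Q F₁ ω b) → b ∉ dst Q F₁ ω a₀ →
      b.swap ∉ dst Q F₁ ω a₀ → s b = 1) :
    Zn Q F ω (fun b => bph Q F ψ b * s b) = Zn Q F₁ ω (fun b => bph Q F₁ ψ₁ b * s b) := by
  classical
  have hrefl : F \ F₁ ⊆ F \ F₁ := Finset.Subset.refl _
  have hR2 : F \ (F \ F₁) ⊆ F₁ := by rw [Finset.sdiff_sdiff_eq_self D.sub]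
  have ha0F : a₀ ∈ bS Q F := bS_of_off D.sub hrefl G.a0 G.a0R
  have hinv : ∀ b ∈ dE Q (F \ F₁), ∃ i, MInv Q F₁ (R i) ω b := fun b hb => by
    obtain ⟨i, hi⟩ := D.dE_R.mp hb
    exact ⟨i, Or.inl hi⟩
  -- the angle of the exceptional arc
  have h0 : ang6 Q F ω ψ a₀ = ang6 Q F₁ ω ψ₁ a₀ := by
    by_cases ho : Off Q (F \ F₁) (dst Q F₁ ω a₀)
    · unfold ang6
      have e1 := mate_of_off D.sub hrefl G.a0 ho
      have e2 := turn_of_off D.sub hrefl (mem_bS.mp G.a0).1 ho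
      have e3 : mate Q F₁ ω a₀ ∉ dE Q (F \ F₁) := by
        have h2 := srel_lst (ω := ω) (mem_bS.mp G.a0).2
        intro h3
        have h4 := ho (lst Q F₁ ω a₀) (mem_dst.mpr ⟨srel_dE h2 (mem_bS.mp G.a0).1, h2⟩)
        exact h4 (swap_mem_dE.mp (by unfold mate at h3; exact h3))
      rw [e1, e2, A.hψ a₀ G.a0 G.a0R, A.hψ _ (mate_mem G.a0) e3]
    · obtain ⟨i, hi⟩ := exists_R D ho
      rcases end_mouth D G.a0 hi with h4 | h4
      · exact absurd (D.dE_R.mpr ⟨i, h4⟩) G.a0R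
      · exact A.ang0 i h4
  have key := attach hQ D.sub (ψ := ψ) (ψ₁ := ψ₁) (s := s) (a₀ := a₀) A.hψ A.hL G.a0 G.a0R h0 ?_ ?_
    hs1 hs2
  · rw [key]
    have hZ : Zu Q (F \ F₁) F₁ ω (fun b => bph Q F ψ b * s b) = 1 := by
      unfold Zu
      refine Finset.prod_eq_one fun U hU => ?_
      have hU' := hU
      obtain ⟨x, hx, rfl, hx2⟩ := mem_unt.mp hU'
      have h2 : ∀ X ∈ ({dst Q (F \ F₁) ω x, dst Q (F \ F₁) ω x.swap} : Finset (Finset (V × V))),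
          Off Q F₁ X := by
        unfold unt at hU
        exact (Finset.mem_filter.mp hU).2
      rw [← nw_of_off (F := F) (h := fun b => bph Q F ψ b * s b) Finset.sdiff_subset hR2 h2
        fun X hX b hb => rfl]
      have hx3 : Off Q F₁ (dst Q (F \ F₁) ω x.swap) := by
        rw [← rv_dst]
        exact hx2.rv
      have e1 := dst_of_off Finset.sdiff_subset hR2 hx2 hx
      have e2 := dst_of_off Finset.sdiff_subset hR2 hx3 (swap_mem_dE.mpr hx)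
      rw [← e1, ← e2]
      rw [← e1] at hx2
      rw [← e2] at hx3
      have hxF : x ∈ dE Q F := dE_sub Finset.sdiff_subset hx
      have hsub : ∀ y, (y = x ∨ y = x.swap) → ∀ b ∈ dst Q F ω y, s b = 1 := by
        intro y hy b hb
        refine hs1 b ?_
        have hb' : b ∉ dE Q F₁ := by
          rcases hy with rfl | rfl
          · exact hx2 b hb
          · exact hx3 b hb
        obtain ⟨f, hf, k, h⟩ := mem_dE.mp (mem_dst.mp hb).1
        by_cases hf1 : f ∈ F₁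
        · exact absurd (mem_dE.mpr ⟨f, hf1, k, h⟩) hb'
        · exact mem_dE.mpr ⟨f, Finset.mem_sdiff.mpr ⟨hf, hf1⟩, k, h⟩
      by_cases hcl : ∀ b ∈ dst Q F ω x, ¬ Ini Q (F : Set Φ) b
      · exact nw_closed hQ ψ s hxF hcl (A.hL x hxF hcl ⟨x, self_mem_dst hxF, hx⟩)
          (hsub x (Or.inl rfl)) (hsub _ (Or.inr rfl))
      · push Not at hcl
        obtain ⟨y, hy, hyi⟩ := hcl
        obtain ⟨hy1, hy2⟩ := mem_dst.mp hy
        have hyb : y ∈ bS Q F := mem_bS.mpr ⟨hy1, hyi⟩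
        have e3 : dst Q F ω x = dst Q F ω y := dst_eq hy2
        have e4 : dst Q F ω x.swap = dst Q F ω y.swap := dst_eq (srel_swap hy2)
        rw [e3] at hx2
        have hs3 := hsub x (Or.inl rfl)
        have hs4 := hsub _ (Or.inr rfl)
        rw [e3] at hs3
        rw [e4] at hs4
        rw [e3, e4]
        refine nw_one hQ ψ s hyb ?_ hs3 hs4
        obtain ⟨i, hi⟩ := hinv x hx
        have hIy : MInv Q F₁ (R i) ω y := (inv_srel D G hy2).mp hi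
        have ha0E := (mem_bS.mp G.a0).1
        refine A.angF i y hyb hIy ?_ ?_
        · rintro rfl
          exact hx2 y (self_mem_dst hy1) ha0E
        · intro h5
          have h6 : lst Q F ω y ∈ dst Q F ω y := by
            have h7 := srel_lst (ω := ω) hyi
            exact mem_dst.mpr ⟨srel_dE h7 hy1, h7⟩
          refine hx2 _ h6 ?_
          rw [← Prod.swap_swap (lst Q F ω y)]
          refine swap_mem_dE.mpr ?_
          unfold mate at h5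
          rw [h5]
          exact ha0E
    rw [hZ, mul_one]
  · -- strands of `F`
    rintro a ha - ⟨b, hb, hbR⟩ hne1 hne2
    obtain ⟨i, hi⟩ := hinv b hbR
    have hIa : MInv Q F₁ (R i) ω a := (inv_srel D G (mem_dst.mp hb).2).mpr hi
    refine A.angF i a ha hIa hne1 fun h => hne2 ?_
    rw [← h, mate_mate ha]
  · -- arcs of `F₁`
    intro a ha ho hne1 hne2
    obtain ⟨i, hi⟩ := exists_R D ho
    rcases end_mouth D ha hi with h4 | h4
    · refine A.angD i a ha h4 fun h => hne2 ?_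
      rw [← h, mate_mate ha]
    · have h8 := A.angD i _ (mate_mem ha) h4 (by rw [mate_mate ha]; exact hne1)
      rwa [ang6_mate ψ₁ ha, Real.cos_neg] at h8

theorem nW_good (hQ : NoLoop Q) (D : MData Q F F₁ R) (G : MGood Q F F₁ R a₀ ω)
    {ψ ψ₁ : V × V → ℝ} (A : MAng Q F F₁ R a₀ ψ ψ₁ ω) : nW Q F ψ ω = nW Q F₁ ψ₁ ω := by
  have h := good_eq hQ D G A (s := fun _ => 1) (fun _ _ => rfl) (fun _ _ _ _ _ => rfl)
  simp only [mul_one] at h
  have h1 := Zn_nW (F := F) (ω := ω) hQ ψ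
  have h2 := Zn_nW (F := F₁) (ω := ω) hQ ψ₁
  have e1 : (fun b => bph Q F ψ b) = bph Q F ψ := rfl
  have e2 : (fun b => bph Q F₁ ψ₁ b) = bph Q F₁ ψ₁ := rfl
  rw [e1, e2, h1, h2] at h
  exact_mod_cast h

theorem nW1_good (hQ : NoLoop Q) (D : MData Q F F₁ R) (G : MGood Q F F₁ R a₀ ω)
    {ψ ψ₁ : V × V → ℝ} (A : MAng Q F F₁ R a₀ ψ ψ₁ ω) (he : e ∈ dE Q F₁)
    (heR : e ∉ dE Q (F \ F₁))
    (h : Off Q (F \ F₁) (dst Q F₁ ω e) ∨ e ∈ dst Q F₁ ω a₀ ∨ e.swap ∈ dst Q F₁ ω a₀) :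
    nW1 Q F ψ e ω = nW1 Q F₁ ψ₁ e ω := by
  have h := good_eq hQ D G A (s := sgE e) (fun b hb => by
      unfold sgE
      rw [if_neg]
      rintro rfl
      exact heR (swap_mem_dE.mp hb)) (fun b hb ho h3 h4 => by
      unfold sgE
      rw [if_neg]
      rintro rfl
      rw [Prod.swap_swap] at h4
      rcases h with h | h | h
      · apply ho
        rw [← rv_dst]
        exact h.rv
      · exact h4 h
      · exact h3 h)
  rw [Zn_nW1 hQ ψ (dE_sub D.sub he), Zn_nW1 hQ ψ₁ he] at h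
  have h2 := mul_right_cancel₀ Complex.I_ne_zero h
  exact_mod_cast h2

end

end Pool.Agent.SixB
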