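import Pool.Agent.Lib.SixB.S4Move
import Pool.Agent.Lib.SixB.S4W1
import Pool.Agent.Lib.SixB.S4Strands

/-!
# 6BD, block CA-L, row L6: heights by scale, part 1 (deterministic)

* `InF Q F A X`: every face of `F` which is visited by the directed strand `X` of `F` belongs to `A`.
  Such strands depend only on the faces of `A` (`dst_inF`), and so do `Clo`, `trn`, `stt`, `mate` on them.
* `sum_lft_inc`: every odd function of the directed strands has increments (left indicator).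
* `WEnv.kap`: local mean arrow of a strand; `WEnv.num_eq_kap`: `num = kap * W` if the weight of the arc is not `0`.
* `WEnv.HS`: height numerator (sum over the strands), `HS_inc`: its increments are `num`; `WEnv.u0`: mean
  height, `u0_inc`: increments `mA`.
* `WEnv.cls E B z z'`: sum over the strands in `B` of `(L z - L z') * kap`: a function of the faces of `B`
  (`cls_dep`); `WEnv.far`: the sum over the strands which are not in `B`; `HS_split`.
-/

set_option autoImplicit false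
set_option linter.unusedSectionVars false

namespace Pool.Agent.SixB

open Pool.Agent.Perc Pool.Agent.Perc.Q Relation Tilt

noncomputable section

namespace HG

section General

variable {V Φ : Type} [DecidableEq V] [DecidableEq Φ]
variable {Q : QC V Φ} {F A B : Finset Φ} {ω ω' : Φ → Bool} {a b c e x y : V × V}
  {X : Finset (V × V)}

/-- every face of `F` which is visited by the strand `X` belongs to `A` -/
def InF (Q : QC V Φ) (F A : Finset Φ) (X : Finset (V × V)) : Prop :=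
  ∀ f ∈ F, ∀ k, (sd Q f k ∈ X ∨ (sd Q f k).swap ∈ X) → f ∈ A

theorem InF.mono (h : InF Q F A X) (hAB : A ⊆ B) : InF Q F B X := fun f hf k hk => hAB (h f hf k hk)

theorem inF_rv : InF Q F A (rv X) ↔ InF Q F A X := by
  unfold InF
  simp only [mem_rv, Prod.swap_swap]
  constructor <;> intro h f hf k hk <;> exact h f hf k hk.symm

theorem inF_self : InF Q F F X := fun _ hf _ _ => hf

theorem inF_inter : InF Q F (A ∩ B) X ↔ InF Q F A X ∧ InF Q F B X := by
  constructor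
  · intro h
    exact ⟨h.mono Finset.inter_subset_left, h.mono Finset.inter_subset_right⟩
  · rintro ⟨h1, h2⟩ f hf k hk
    exact Finset.mem_inter.mpr ⟨h1 f hf k hk, h2 f hf k hk⟩

theorem nx_l (hX : InF Q F A X) (hω : ∀ f ∈ A, ω f = ω' f) (hx : x ∈ X)
    (h : Nx Q ω (F : Set Φ) x y) : Nx Q ω' (F : Set Φ) x y := by
  obtain ⟨f, hf, k, rfl, h⟩ := h
  have h1 : ω f = ω' f := hω f (hX f (by exact_mod_cast hf) k (Or.inl hx))
  rw [h1] at h
  exact ⟨f, hf, k, rfl, h⟩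

theorem nx_r (hX : InF Q F A X) (hω : ∀ f ∈ A, ω f = ω' f) (hy : y ∈ X)
    (h : Nx Q ω (F : Set Φ) x y) : Nx Q ω' (F : Set Φ) x y := by
  obtain ⟨f, hf, k, rfl, h⟩ := h
  have h0 : f ∈ A := by
    rcases h with ⟨-, rfl⟩ | ⟨-, rfl⟩
    · refine hX f (by exact_mod_cast hf) (k + 1) (Or.inr ?_)
      unfold sd
      rw [z1]
      exact hy
    · refine hX f (by exact_mod_cast hf) (k + 3) (Or.inr ?_)
      unfold sd
      rw [z5]
      exact hy
  have h1 : ω f = ω' f := hω f h0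
  rw [h1] at h
  exact ⟨f, hf, k, rfl, h⟩

/-- the path forward from an element of `X` -/
theorem rtg_f (hd : X ∈ dstr Q F ω) (hX : InF Q F A X) (hω : ∀ f ∈ A, ω f = ω' f) (hx : x ∈ X)
    (h : ReflTransGen (Nx Q ω' (F : Set Φ)) x y) :
    y ∈ X ∧ ReflTransGen (Nx Q ω (F : Set Φ)) x y := by
  induction h with
  | refl => exact ⟨hx, ReflTransGen.refl⟩
  | tail _ h ih =>
    have h1 := nx_l (ω := ω') (ω' := ω) hX (fun f hf => (hω f hf).symm) ih.1 h
    exact ⟨(mem_step hd h1).mp ih.1, ih.2.tail h1⟩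

theorem rtg_f' (hd : X ∈ dstr Q F ω) (hX : InF Q F A X) (hω : ∀ f ∈ A, ω f = ω' f) (hx : x ∈ X)
    (h : ReflTransGen (Nx Q ω (F : Set Φ)) x y) :
    y ∈ X ∧ ReflTransGen (Nx Q ω' (F : Set Φ)) x y := by
  induction h with
  | refl => exact ⟨hx, ReflTransGen.refl⟩
  | tail _ h ih =>
    exact ⟨(mem_step hd h).mp ih.1, ih.2.tail (nx_l hX hω ih.1 h)⟩

/-- the path backward from an element of `X` -/
theorem rtg_b (hd : X ∈ dstr Q F ω) (hX : InF Q F A X) (hω : ∀ f ∈ A, ω f = ω' f) (hx : x ∈ X)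
    (h : ReflTransGen (Nx Q ω' (F : Set Φ)) y x) :
    y ∈ X ∧ ReflTransGen (Nx Q ω (F : Set Φ)) y x := by
  induction h using ReflTransGen.head_induction_on with
  | refl => exact ⟨hx, ReflTransGen.refl⟩
  | head h _ ih =>
    have h1 := nx_r (ω := ω') (ω' := ω) hX (fun f hf => (hω f hf).symm) ih.1 h
    exact ⟨(mem_step hd h1).mpr ih.1, ReflTransGen.head h1 ih.2⟩

theorem rtg_b' (hd : X ∈ dstr Q F ω) (hX : InF Q F A X) (hω : ∀ f ∈ A, ω f = ω' f) (hx : x ∈ X)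
    (h : ReflTransGen (Nx Q ω (F : Set Φ)) y x) :
    y ∈ X ∧ ReflTransGen (Nx Q ω' (F : Set Φ)) y x := by
  induction h using ReflTransGen.head_induction_on with
  | refl => exact ⟨hx, ReflTransGen.refl⟩
  | head h _ ih =>
    exact ⟨(mem_step hd h).mpr ih.1, ReflTransGen.head (nx_r hX hω ih.1 h) ih.2⟩

/-- a strand with all its faces in `A` depends only on the faces of `A` -/
theorem dst_inF (hc : c ∈ dE Q F) (hX : InF Q F A (dst Q F ω c)) (hω : ∀ f ∈ A, ω f = ω' f) :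
    dst Q F ω' c = dst Q F ω c := by
  have hd : dst Q F ω c ∈ dstr Q F ω := mem_dstr.mpr ⟨c, hc, rfl⟩
  have hcc : c ∈ dst Q F ω c := self_mem_dst hc
  ext b
  rw [mem_dst, mem_dst]
  constructor
  · rintro ⟨h1, h2⟩
    refine ⟨h1, ?_⟩
    rcases srel_iff.mp h2 with h | h
    · exact srel_iff.mpr (Or.inl (rtg_f hd hX hω hcc h).2)
    · exact srel_iff.mpr (Or.inr (rtg_b hd hX hω hcc h).2)
  · rintro ⟨h1, h2⟩
    refine ⟨h1, ?_⟩
    rcases srel_iff.mp h2 with h | h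
    · exact srel_iff.mpr (Or.inl (rtg_f' hd hX hω hcc h).2)
    · exact srel_iff.mpr (Or.inr (rtg_b' hd hX hω hcc h).2)

theorem dstr_inF (hd : X ∈ dstr Q F ω) (hX : InF Q F A X) (hω : ∀ f ∈ A, ω f = ω' f) :
    X ∈ dstr Q F ω' := by
  obtain ⟨c, hc, rfl⟩ := mem_dstr.mp hd
  rw [← dst_inF hc hX hω]
  exact mem_dstr.mpr ⟨c, hc, rfl⟩

theorem clo_inF (hd : X ∈ dstr Q F ω) (hX : InF Q F A X) (hω : ∀ f ∈ A, ω f = ω' f) (he : e ∈ X) :
    Clo Q F ω' e ↔ Clo Q F ω e := by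
  unfold Clo
  constructor
  · intro h
    obtain ⟨y, h1, h2⟩ := TransGen.tail'_iff.mp h
    obtain ⟨h3, h4⟩ := rtg_f hd hX hω he h1
    exact TransGen.tail'_iff.mpr ⟨y, h4, nx_l (ω := ω') (ω' := ω) hX
      (fun f hf => (hω f hf).symm) h3 h2⟩
  · intro h
    obtain ⟨y, h1, h2⟩ := TransGen.tail'_iff.mp h
    obtain ⟨h3, h4⟩ := rtg_f' hd hX hω he h1
    exact TransGen.tail'_iff.mpr ⟨y, h4, nx_l hX hω h3 h2⟩

theorem lst_inF (hd : X ∈ dstr Q F ω) (hX : InF Q F A X) (hω : ∀ f ∈ A, ω f = ω' f) (he : e ∈ X)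
    (hc : ¬ Clo Q F ω e) : lst Q F ω' e = lst Q F ω e := by
  obtain ⟨h1, h2⟩ := lst_spec' hc
  exact lst_eq (rtg_f' hd hX hω he h1).2 h2

theorem trn_inF (hd : X ∈ dstr Q F ω) (hX : InF Q F A X) (hω : ∀ f ∈ A, ω f = ω' f) (he : e ∈ X) :
    trn Q F ω' e = trn Q F ω e := by
  obtain ⟨-, h2⟩ := dstr_of_mem hd he
  have he' : e ∈ dE Q F := (dstr_of_mem hd he).1
  have hX' : InF Q F A (dst Q F ω e) := h2 ▸ hX
  unfold trn
  rw [dst_inF he' hX' hω]
  refine Finset.sum_congr rfl fun b hb => ?_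
  unfold qt
  refine Finset.sum_congr rfl fun f hf => Finset.sum_congr rfl fun k _ => ?_
  by_cases h : sd Q f k = b
  · have : f ∈ A := hX' f hf k (Or.inl (h ▸ hb))
    rw [hω f this]
  · rw [if_neg h, if_neg h]

/-- the undirected strands in `A` -/
def uIn (Q : QC V Φ) (F A : Finset Φ) (ω : Φ → Bool) : Finset (Finset (Finset (V × V))) := by
  classical exact (ust Q F ω).filter fun U => InF Q F A (rep U)

theorem mem_uIn {U : Finset (Finset (V × V))} :
    U ∈ uIn Q F A ω ↔ U ∈ ust Q F ω ∧ InF Q F A (rep U) := by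
  classical
  unfold uIn
  rw [Finset.mem_filter]

theorem rep_dstr {U : Finset (Finset (V × V))} (hU : U ∈ ust Q F ω) : rep U ∈ dstr Q F ω :=
  (ust_eq hU (rep_mem hU)).1

theorem uIn_congr (hω : ∀ f ∈ A, ω f = ω' f) : uIn Q F A ω = uIn Q F A ω' := by
  have key : ∀ {ω ω' : Φ → Bool}, (∀ f ∈ A, ω f = ω' f) → ∀ U, U ∈ uIn Q F A ω → U ∈ uIn Q F A ω' := by
    intro ω ω' hω U hU
    obtain ⟨h1, h2⟩ := mem_uIn.mp hU
    obtain ⟨h3, h4⟩ := ust_eq h1 (rep_mem h1)
    refine mem_uIn.mpr ⟨?_, h2⟩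
    have h5 := dstr_inF h3 h2 hω
    obtain ⟨c, hc, h6⟩ := mem_dstr.mp h5
    rw [mem_ust]
    refine ⟨c, hc, ?_⟩
    rw [h4, ← h6, rv_dst]
  ext U
  exact ⟨key hω U, key (fun f hf => (hω f hf).symm) U⟩

theorem uIn_self : uIn Q F F ω = ust Q F ω := by
  ext U
  rw [mem_uIn]
  exact ⟨fun h => h.1, fun h => ⟨h, inF_self⟩⟩

theorem uIn_mono (h : A ⊆ B) : uIn Q F A ω ⊆ uIn Q F B ω := by
  intro U hU
  obtain ⟨h1, h2⟩ := mem_uIn.mp hU
  exact mem_uIn.mpr ⟨h1, h2.mono h⟩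

/-- every odd function of the directed strands has the increments of the left indicators -/
theorem sum_lft_inc (hQ : NoLoop Q) (hP : HasPotQ Q F) (ν : Finset (V × V) → ℝ)
    (hν : ∀ X ∈ dstr Q F ω, ν (rv X) = -ν X) (he : e ∈ dE Q F) :
    ∑ U ∈ ust Q F ω, ((lft Q F (rep U) e.1 - lft Q F (rep U) e.2 : ℤ) : ℝ) * ν (rep U) =
      ν (dst Q F ω e) := by
  rw [Finset.sum_eq_single (usE Q F ω e)]
  · have hU := usE_mem (ω := ω) he
    have hX : dst Q F ω e ∈ usE Q F ω e := by unfold usE; simp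
    obtain ⟨h1, h2⟩ := ust_eq hU (rep_mem hU)
    have hs := lft_spec hP h1
    rw [hs.inc e he]
    have hX' := hX
    rw [h2, Finset.mem_insert, Finset.mem_singleton] at hX'
    rcases hX' with h3 | h3
    · rw [← h3, if_pos (self_mem_dst he), if_neg]
      · push_cast
        ring
      · intro h4
        exact not_srel_swap hQ he (mem_dst.mp h4).2
    · have h4 : rep (usE Q F ω e) = rv (dst Q F ω e) := by rw [h3, rv_rv]
      rw [h4, hν _ (mem_dstr.mpr ⟨e, he, rfl⟩), if_neg, if_pos]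
      · push_cast
        ring
      · rw [mem_rv, Prod.swap_swap]
        exact self_mem_dst he
      · rw [mem_rv]
        intro h5
        exact not_srel_swap hQ he (mem_dst.mp h5).2
  · intro U hU hne
    obtain ⟨h1, h2⟩ := ust_eq hU (rep_mem hU)
    have hs := lft_spec hP h1
    have h3 : e ∉ rep U := by
      intro h3
      apply hne
      have h4 := (dstr_of_mem h1 h3).2
      rw [h2, h4, rv_dst]
      rfl
    have h5 : e.swap ∉ rep U := by
      intro h5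
      apply hne
      have h4 := (dstr_of_mem h1 h5).2
      rw [h2, h4, rv_dst, Prod.swap_swap, Finset.pair_comm]
      rfl
    rw [hs.inc e he, if_neg h3, if_neg h5]
    push_cast
    ring
  · intro hU
    exact absurd (usE_mem he) hU

end General

section Plane

variable {F A B : Finset (ℤ × ℤ)} {ω ω' : Cfg} {a b e : DZ} {X : Finset DZ}

theorem stt_srel (ha : ¬ Clo ZQ F ω a) (h : SRel ZQ F ω a b) : stt F ω a = stt F ω b := by
  have key : ∀ {a b : DZ}, ¬ Clo ZQ F ω a → ReflTransGen (Nx ZQ ω (F : Set (ℤ × ℤ))) a b →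
      stt F ω b = stt F ω a := by
    intro a b ha hab
    obtain ⟨h1, h2⟩ := stt_spec ha
    exact stt_eq h2 (ReflTransGen.trans h1 hab)
  have hb : ¬ Clo ZQ F ω b := fun hb => ha ((clo_srel h).mpr hb)
  rcases srel_iff.mp h with h1 | h1
  · exact (key ha h1).symm
  · exact key hb h1

theorem stt_swap (ha : ¬ Clo ZQ F ω a) : stt F ω a.swap = mate ZQ F ω (stt F ω a) := by
  have h1 := stt_last ha
  obtain ⟨h2, h3⟩ := stt_spec ha
  have h4 := rtg_rev h1
  rw [Prod.swap_swap] at h4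
  refine stt_eq ?_ h4
  unfold mate
  exact ini_swap.mpr (lst_spec (Q := ZQ) (ω := ω) h3).2

theorem num_srel (E : WEnv) (h : SRel ZQ E.F ω a b) : E.num ω a = E.num ω b := by
  unfold WEnv.num
  by_cases ha : Clo ZQ E.F ω a
  · rw [if_pos ha, if_pos ((clo_srel h).mp ha), trn_eq h]
  · have hb : ¬ Clo ZQ E.F ω b := fun hb => ha ((clo_srel h).mpr hb)
    rw [if_neg ha, if_neg hb]
    unfold arcE
    rw [stt_srel ha h]

theorem num_swap (E : WEnv) (ha : a ∈ dE ZQ E.F) : E.num ω a.swap = -E.num ω a := by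
  unfold WEnv.num
  by_cases h : Clo ZQ E.F ω a
  · rw [if_pos h, if_pos (clo_swap.mpr h), trn_swap]
    push_cast
    ring
  · have h' : ¬ Clo ZQ E.F ω a.swap := fun hh => h (clo_swap.mp hh)
    rw [if_neg h, if_neg h']
    unfold arcE
    rw [stt_swap h, mate_mate (stt_mem h ha), E.s_anti, Sym2.eq_swap]
    ring

open Classical in
/-- local mean arrow of the strand of `e` -/
def kap (E : WEnv) (ω : Cfg) (e : DZ) : ℝ :=
  if Clo ZQ E.F ω e then Real.sqrt 3 / 4 * (trn ZQ E.F ω e : ℝ)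
  else E.s (stt E.F ω e) (mate ZQ E.F ω (stt E.F ω e)) /
    E.t (stt E.F ω e) (mate ZQ E.F ω (stt E.F ω e))

theorem num_eq_kap (E : WEnv) (he : e ∈ dE ZQ E.F)
    (ht : ¬ Clo ZQ E.F ω e → E.t (stt E.F ω e) (mate ZQ E.F ω (stt E.F ω e)) ≠ 0) :
    E.num ω e = kap E ω e * E.W ω := by
  unfold WEnv.num kap
  by_cases h : Clo ZQ E.F ω e
  · rw [if_pos h, if_pos h]
  · rw [if_neg h, if_neg h]
    have h1 : arcE E.F ω e ∈ arcs ZQ E.F ω := mem_arcs.mpr ⟨_, stt_mem h he, rfl⟩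
    have h2 : E.T (arcE E.F ω e) = E.t (stt E.F ω e) (mate ZQ E.F ω (stt E.F ω e)) := rfl
    have h3 : E.W ω = E.T (arcE E.F ω e) * ∏ p ∈ (arcs ZQ E.F ω).erase (arcE E.F ω e), E.T p :=
      (Finset.mul_prod_erase _ _ h1).symm
    rw [h3, h2]
    have := ht h
    field_simp

open Classical in
/-- a function of directed unit edges as a function of directed strands -/
def onX (g : DZ → ℝ) (X : Finset DZ) : ℝ := if h : X.Nonempty then g h.choose else 0

theorem onX_eq {g : DZ → ℝ} (hg : ∀ a b, SRel ZQ F ω a b → g a = g b) (hX : X ∈ dstr ZQ F ω)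
    (he : e ∈ X) : onX g X = g e := by
  have hne : X.Nonempty := ⟨e, he⟩
  unfold onX
  rw [dif_pos hne]
  have h1 := hne.choose_spec
  obtain ⟨h2, h3⟩ := dstr_of_mem hX h1
  rw [h3] at he
  exact hg _ _ (mem_dst.mp he).2

theorem onX_rv {g : DZ → ℝ} (hg : ∀ a b, SRel ZQ F ω a b → g a = g b)
    (hs : ∀ a ∈ dE ZQ F, g a.swap = -g a) (hX : X ∈ dstr ZQ F ω) : onX g (rv X) = -onX g X := by
  obtain ⟨c, hc, h⟩ := mem_dstr.mp hX
  have hcX : c ∈ X := h ▸ self_mem_dst hc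
  rw [onX_eq hg hX hcX, onX_eq hg (rv_mem_dstr hX) (e := c.swap) (by rw [mem_rv, Prod.swap_swap]; exact hcX),
    hs c hc]

theorem kap_srel (E : WEnv) (h : SRel ZQ E.F ω a b) : kap E ω a = kap E ω b := by
  unfold kap
  by_cases ha : Clo ZQ E.F ω a
  · rw [if_pos ha, if_pos ((clo_srel h).mp ha), trn_eq h]
  · have hb : ¬ Clo ZQ E.F ω b := fun hb => ha ((clo_srel h).mpr hb)
    rw [if_neg ha, if_neg hb, stt_srel ha h]

theorem kap_swap (E : WEnv) (ha : a ∈ dE ZQ E.F) : kap E ω a.swap = -kap E ω a := by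
  unfold kap
  by_cases h : Clo ZQ E.F ω a
  · rw [if_pos h, if_pos (clo_swap.mpr h), trn_swap]
    push_cast
    ring
  · have h' : ¬ Clo ZQ E.F ω a.swap := fun hh => h (clo_swap.mp hh)
    rw [if_neg h, if_neg h', stt_swap h, mate_mate (stt_mem h ha), E.s_anti, E.t_symm]
    ring

/-- `kap` on a strand in `A` depends only on the faces of `A` -/
theorem kap_inF (E : WEnv) (hd : X ∈ dstr ZQ E.F ω) (hX : InF ZQ E.F A X)
    (hω : ∀ f ∈ A, ω f = ω' f) (he : e ∈ X) : kap E ω' e = kap E ω e := by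
  unfold kap
  have h1 := clo_inF hd hX hω he
  by_cases h : Clo ZQ E.F ω e
  · rw [if_pos (h1.mpr h), if_pos h, trn_inF hd hX hω he]
  · have h' : ¬ Clo ZQ E.F ω' e := fun hh => h (h1.mp hh)
    rw [if_neg h', if_neg h]
    have hrX : rv X ∈ dstr ZQ E.F ω := rv_mem_dstr hd
    have hrI : InF ZQ E.F A (rv X) := inF_rv.mpr hX
    have hes : e.swap ∈ rv X := by rw [mem_rv, Prod.swap_swap]; exact he
    have h2 : stt E.F ω' e = stt E.F ω e := by
      unfold stt
      rw [lst_inF hrX hrI hω hes (fun hh => h (clo_swap.mp hh))]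
    have h3 : stt E.F ω e ∈ X := by
      obtain ⟨h4, -⟩ := stt_spec h
      exact (rtg_b' hd hX hω he h4).1
    have hc : ¬ Clo ZQ E.F ω (stt E.F ω e) := by
      intro hh
      have h5 : SRel ZQ E.F ω (stt E.F ω e) e := srel_iff.mpr (Or.inl (stt_spec h).1)
      exact h ((clo_srel h5).mp hh)
    have h4 : mate ZQ E.F ω' (stt E.F ω e) = mate ZQ E.F ω (stt E.F ω e) := by
      unfold mate
      rw [lst_inF hd hX hω h3 hc]
    rw [h2, h4]

/-! ## Heights -/

/-- height numerator -/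
def HS (E : WEnv) (ω : Cfg) (z : VZ) : ℝ :=
  ∑ U ∈ ust ZQ E.F ω, (lft ZQ E.F (rep U) z : ℝ) * onX (E.num ω) (rep U)

theorem HS_sub (E : WEnv) (ω : Cfg) (z z' : VZ) : HS E ω z - HS E ω z' =
    ∑ U ∈ ust ZQ E.F ω, ((lft ZQ E.F (rep U) z - lft ZQ E.F (rep U) z' : ℤ) : ℝ) *
      onX (E.num ω) (rep U) := by
  unfold HS
  rw [← Finset.sum_sub_distrib]
  refine Finset.sum_congr rfl fun U _ => ?_
  push_cast
  ring

theorem HS_inc (E : WEnv) (hP : HasPotQ ZQ E.F) (he : e ∈ dE ZQ E.F) :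
    HS E ω e.1 - HS E ω e.2 = E.num ω e := by
  rw [HS_sub, sum_lft_inc zq_noLoop hP (onX (E.num ω))
    (fun X hX => onX_rv (fun a b h => num_srel E h) (fun a ha => num_swap E ha) hX) he]
  exact onX_eq (fun a b h => num_srel E h) (mem_dstr.mpr ⟨e, he, rfl⟩) (self_mem_dst he)

/-- mean height -/
def u0 (E : WEnv) (z : VZ) : ℝ := av E.F (fun ω => HS E ω z) / E.Z

theorem u0_inc (E : WEnv) (hP : HasPotQ ZQ E.F) (he : e ∈ dE ZQ E.F) :
    u0 E e.1 - u0 E e.2 = E.mA e := by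
  unfold u0 WEnv.mA
  rw [← sub_div, ← av_sub]
  congr 1
  exact av_congr fun T _ => HS_inc E hP he

/-- every function with the increments `mA` has the differences of `u0` -/
theorem sub_eq_u0 {E : WEnv} {u : VZ → ℝ} (hP : HasPotQ ZQ E.F)
    (hu : ∀ e ∈ dE ZQ E.F, u e.1 - u e.2 = E.mA e) {z z' : VZ} (hz : ConnE ZQ E.F z z') :
    u z - u z' = u0 E z - u0 E z' :=
  sub_eq_of_inc (fun a ha => by rw [hu a ha, u0_inc E hP ha]) hz

/-- the strands in `B`: a function of the faces of `B` -/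
def cls (E : WEnv) (B : Finset (ℤ × ℤ)) (z z' : VZ) (ω : Cfg) : ℝ :=
  ∑ U ∈ uIn ZQ E.F B ω, ((lft ZQ E.F (rep U) z - lft ZQ E.F (rep U) z' : ℤ) : ℝ) *
    onX (kap E ω) (rep U)

/-- the strands which are not in `B` -/
def far (E : WEnv) (B : Finset (ℤ × ℤ)) (z z' : VZ) (ω : Cfg) : ℝ :=
  ∑ U ∈ ust ZQ E.F ω \ uIn ZQ E.F B ω, ((lft ZQ E.F (rep U) z - lft ZQ E.F (rep U) z' : ℤ) : ℝ) *
    onX (E.num ω) (rep U)

theorem cls_dep (E : WEnv) (B : Finset (ℤ × ℤ)) (z z' : VZ) :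
    Dep (B : Set (ℤ × ℤ)) (cls E B z z') := by
  intro ω ω' h
  unfold cls
  rw [uIn_congr (A := B) (ω := ω) (ω' := ω') fun f hf => h f (by exact_mod_cast hf)]
  refine Finset.sum_congr rfl fun U hU => ?_
  obtain ⟨h1, h2⟩ := mem_uIn.mp hU
  congr 1
  have hd' := rep_dstr h1
  have hω : ∀ f ∈ B, ω' f = ω f := fun f hf => (h f (by exact_mod_cast hf)).symm
  have hd := dstr_inF hd' h2 hω
  obtain ⟨c, hc, h3⟩ := mem_dstr.mp hd'
  have hcX : c ∈ rep U := h3 ▸ self_mem_dst hc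
  rw [onX_eq (fun a b h => kap_srel E h) hd hcX, onX_eq (fun a b h => kap_srel E h) hd' hcX]
  exact kap_inF E hd' h2 hω hcX

/-- the weights of the arcs which are contained in `B` do not vanish -/
def Pos (E : WEnv) (B : Finset (ℤ × ℤ)) : Prop :=
  ∀ a ∈ bS ZQ E.F, ∀ b ∈ bS ZQ E.F, Ah ZQ B a → Ah ZQ B b → E.t a b ≠ 0

theorem num_cls {E : WEnv} {B : Finset (ℤ × ℤ)} (hB : Pos E B) {U : Finset (Finset DZ)}
    (hU : U ∈ uIn ZQ E.F B ω) : onX (E.num ω) (rep U) = onX (kap E ω) (rep U) * E.W ω := by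
  obtain ⟨h1, h2⟩ := mem_uIn.mp hU
  have hd := rep_dstr h1
  obtain ⟨c, hc, h3⟩ := mem_dstr.mp hd
  have hcX : c ∈ rep U := h3 ▸ self_mem_dst hc
  rw [onX_eq (fun a b h => num_srel E h) hd hcX, onX_eq (fun a b h => kap_srel E h) hd hcX]
  refine num_eq_kap E hc fun hcl => ?_
  have hs := stt_mem hcl hc
  have hsX : stt E.F ω c ∈ rep U :=
    (rtg_b' (ω' := ω) hd h2 (fun _ _ => rfl) hcX (stt_spec hcl).1).1
  have hm : mate ZQ E.F ω (stt E.F ω c) ∈ bS ZQ E.F := mate_mem hs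
  have hmX : (mate ZQ E.F ω (stt E.F ω c)).swap ∈ rep U :=
    (rtg_f' (ω' := ω) hd h2 (fun _ _ => rfl) hcX (stt_last hcl)).1
  refine hB _ hs _ hm ?_ ?_
  · obtain ⟨f, hf, k, h4⟩ := bS_sd hs
    exact ⟨f, h2 f hf k (Or.inl (h4 ▸ hsX)), k, h4⟩
  · obtain ⟨f, hf, k, h4⟩ := bS_sd hm
    exact ⟨f, h2 f hf k (Or.inr (h4 ▸ hmX)), k, h4⟩

/-- **splitting** -/
theorem HS_split {E : WEnv} {B : Finset (ℤ × ℤ)} (hB : Pos E B) (z z' : VZ) :
    HS E ω z - HS E ω z' = cls E B z z' ω * E.W ω + far E B z z' ω := by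
  rw [HS_sub]
  unfold cls far
  have hsub : uIn ZQ E.F B ω ⊆ ust ZQ E.F ω := fun U hU => (mem_uIn.mp hU).1
  rw [← Finset.sum_sdiff hsub, add_comm, Finset.sum_mul]
  congr 1
  refine Finset.sum_congr rfl fun U hU => ?_
  rw [num_cls hB hU]
  ring

end Plane

end HG

end

end Pool.Agent.SixB
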