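import Pool.Agent.Lib.SixB.S3Chart
import Pool.Agent.Lib.SixB.S6LHgt
import Pool.Agent.Lib.SixB.S3MouthD
import Pool.Agent.Lib.SixB.S3PlaneBlk
import Pool.Agent.Lib.SixB.PlaneU
import Pool.Agent.Lib.SixB.S3Cell

/-!
# 6BD step 3.8 (R18), deterministic part: the height of a complex in a planar disc

`H : QChart ZQ Q L₀ ν φ 0`, `φ f ∈ F` for `f ∈ L₀`: a planar disc `L₀` in the complex `F`.
* `Ins Q F W τ`: weight `W` and numerator `τ e` of the mean arrow: `τ` is odd, constant along strands, `± √3 W` on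
  closed strands of turning `± 4`, and `W` does not see a core all of whose strands are such (`Core`).
  `ins_nW`: the weight `nW`, `nW1`; `WZ_core`: the last property for `WZ`.
* `hg τ ν φ L₀ z ω`: height numerator in the disc, a sum over the strands of `L₀`; `hg_inc`: its increments are
  `τ`; `mean_diff`: every function with the mean increments.
* `e0 L₀`: the environment with faces `L₀`, `t = 1`, `s = 0`; `HG.cls (e0 L₀) A z z'`: sum over the closed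
  strands contained in `A`.
* `hg_split`: `hg z - hg z' = cls (e0 L₀) L₀ z z' * W + rest`, the rest is at most `B * NR`.
* `clo_core`, `W_local`: `W` does not depend on the faces of the core of an annulus which is not crossed.
* `arcs_core`: mates and turnings of the boundary sides do not depend on the core.
-/

set_option autoImplicit false
set_option linter.unusedSectionVars false

namespace Pool.Agent.SixB.HDet

open Pool.Agent.Perc Pool.Agent.Perc.Q Relation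
open Pool.Agent.SixB Pool.Agent.SixB.Tilt Pool.Agent.SixB.PC
open Pool.Agent.SixB.Rel (QChart QMap)

noncomputable section

variable {V Φ : Type} [DecidableEq V] [DecidableEq Φ]
variable {Q : QC V Φ} {F : Finset Φ} {ψ : V × V → ℝ} {ν : ℤ × ℤ → V} {φ : ℤ × ℤ → Φ}
  {L L₀ A : Finset (ℤ × ℤ)} {ω ω' : Φ → Bool} {a b e : DZ} {z z' : VZ} {X : Finset DZ}

/-! ## Transport of strands -/

theorem image_sub (hF : ∀ f ∈ L₀, φ f ∈ F) : L₀.image φ ⊆ F := by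
  intro g hg
  obtain ⟨f, hf, rfl⟩ := Finset.mem_image.mp hg
  exact hF f hf

theorem mv_dE (H : QChart ZQ Q L₀ ν φ 0) (hF : ∀ f ∈ L₀, φ f ∈ F) (he : e ∈ dE ZQ L₀) :
    mv ν e ∈ dE Q F := by
  refine SixB.dE_mono (image_sub hF) ?_
  rw [dE_map H]
  exact Finset.mem_image_of_mem _ he

theorem srel_mv (H : QChart ZQ Q L₀ ν φ 0) (hF : ∀ f ∈ L₀, φ f ∈ F)
    (h : SRel ZQ L₀ (pb φ ω) a b) : SRel Q F ω (mv ν a) (mv ν b) :=
  SRel.mono (image_sub hF) ((toMap H ω).srel h)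

theorem clo_mv_image (H : QChart ZQ Q L₀ ν φ 0) (h : Clo ZQ L₀ (pb φ ω) e) :
    Clo Q (L₀.image φ) ω (mv ν e) := by
  have key : ∀ {x y : DZ}, TransGen (Nx ZQ (pb φ ω) (L₀ : Set (ℤ × ℤ))) x y →
      TransGen (Nx Q ω ((L₀.image φ : Finset Φ) : Set Φ)) (mv ν x) (mv ν y) := by
    intro x y hxy
    induction hxy with
    | single h1 => exact TransGen.single ((toMap H ω).nx h1)
    | tail _ h1 ih => exact TransGen.tail ih ((toMap H ω).nx h1)
  exact key h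

theorem clo_mv (H : QChart ZQ Q L₀ ν φ 0) (hF : ∀ f ∈ L₀, φ f ∈ F) (h : Clo ZQ L₀ (pb φ ω) e) :
    Clo Q F ω (mv ν e) := (clo_mv_image H h).mono (image_sub hF)

theorem trn_mv (H : QChart ZQ Q L₀ ν φ 0) (hF : ∀ f ∈ L₀, φ f ∈ F) (h : Clo ZQ L₀ (pb φ ω) e) :
    trn Q F ω (mv ν e) = trn ZQ L₀ (pb φ ω) e := by
  rw [(clo_mv_image H h).trn_eq (image_sub hF)]
  exact turn_map H h.mem

/-- a closed strand has no first side -/
theorem clo_no_ini {G : Finset Φ} {c : V × V} (h : Clo Q G ω c) :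
    ∀ b ∈ dst Q G ω c, ¬ Ini Q (G : Set Φ) b := by
  intro b hb hi
  have h1 : Clo Q G ω b := h.of_srel (mem_dst.mp hb).2
  obtain ⟨d, -, h2⟩ := TransGen.tail'_iff.mp (show TransGen (Nx Q ω (G : Set Φ)) b b from h1)
  exact ini_nx hi h2

/-- the weight with an arrow on a closed strand inserted -/
theorem nW1_clo (hQ : NoLoop Q) {G : Finset Φ} {c : V × V} (h : Clo Q G ω c)
    (ht : trn Q G ω c = 4 ∨ trn Q G ω c = -4) :
    nW1 Q G ψ c ω = Real.sqrt 3 / 4 * (trn Q G ω c : ℝ) * nW Q G ψ ω := by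
  have hm := h.mem
  have hag : agl Q G ω ψ (dst Q G ω c) = (trn Q G ω c : ℝ) * (Real.pi / 12) :=
    agl_loop (dst_mem_dstr hm) (clo_no_ini h)
  have h4 : Real.cos (4 * (Real.pi / 12)) = 1 / 2 := by
    rw [show 4 * (Real.pi / 12) = Real.pi / 3 by ring, Real.cos_pi_div_three]
  have h5 : Real.tan (4 * (Real.pi / 12)) = Real.sqrt 3 := by
    rw [show 4 * (Real.pi / 12) = Real.pi / 3 by ring, Real.tan_pi_div_three]
  have hcos : Real.cos (agl Q G ω ψ (dst Q G ω c)) ≠ 0 := by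
    rw [hag]
    rcases ht with ht | ht
    · rw [ht]; push_cast; rw [h4]; norm_num
    · rw [ht]; push_cast
      rw [show (-4 : ℝ) * (Real.pi / 12) = -(4 * (Real.pi / 12)) by ring, Real.cos_neg, h4]; norm_num
  have htan : Real.tan (agl Q G ω ψ (dst Q G ω c)) = Real.sqrt 3 / 4 * (trn Q G ω c : ℝ) := by
    rw [hag]
    rcases ht with ht | ht
    · rw [ht]; push_cast; rw [h5]; ring
    · rw [ht]; push_cast
      rw [show (-4 : ℝ) * (Real.pi / 12) = -(4 * (Real.pi / 12)) by ring, Real.tan_neg, h5]; ring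
  unfold nW1 nW
  rw [WU1_tan hQ hm hcos, htan]
  ring

/-! ## Weights with insertions -/

/-- all strands which touch `A` are closed of turning `± 4` -/
def Core (Q : QC V Φ) (F A : Finset Φ) (ω : Φ → Bool) : Prop :=
  ∀ a ∈ dE Q A, (∀ b ∈ dst Q F ω a, ¬ Ini Q (F : Set Φ) b) ∧
    (tX Q F ω (dst Q F ω a) = 4 ∨ tX Q F ω (dst Q F ω a) = -4)

/-- weight and numerator of the mean arrow -/
structure Ins (Q : QC V Φ) (F : Finset Φ) (W : (Φ → Bool) → ℝ) (τ : V × V → (Φ → Bool) → ℝ) : Prop where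
  srel : ∀ ω a b, SRel Q F ω a b → τ a ω = τ b ω
  swap : ∀ ω, ∀ a ∈ dE Q F, τ a.swap ω = -τ a ω
  clo : ∀ ω a, Clo Q F ω a → (trn Q F ω a = 4 ∨ trn Q F ω a = -4) →
    τ a ω = Real.sqrt 3 / 4 * (trn Q F ω a : ℝ) * W ω
  loc : ∀ A, A ⊆ F → ∀ ω ω', (∀ f ∈ F, f ∉ A → ω f = ω' f) → Core Q F A ω → Core Q F A ω' → W ω = W ω'

variable {W : (Φ → Bool) → ℝ} {τ : V × V → (Φ → Bool) → ℝ}

/-! ## The height in the disc -/

theorem tau_srel (I : Ins Q F W τ) (H : QChart ZQ Q L₀ ν φ 0) (hF : ∀ f ∈ L₀, φ f ∈ F)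
    (h : SRel ZQ L₀ (pb φ ω) a b) : τ (mv ν a) ω = τ (mv ν b) ω := I.srel _ _ _ (srel_mv H hF h)

theorem tau_swap (I : Ins Q F W τ) (H : QChart ZQ Q L₀ ν φ 0) (hF : ∀ f ∈ L₀, φ f ∈ F)
    (ha : a ∈ dE ZQ L₀) : τ (mv ν a.swap) ω = -τ (mv ν a) ω := by
  rw [mv_swap, I.swap _ _ (mv_dE H hF ha)]

/-- the height numerator in the disc -/
def hg (τ : V × V → (Φ → Bool) → ℝ) (ν : ℤ × ℤ → V) (φ : ℤ × ℤ → Φ)
    (L₀ : Finset (ℤ × ℤ)) (z : VZ) (ω : Φ → Bool) : ℝ :=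
  ∑ U ∈ ust ZQ L₀ (pb φ ω), (Tilt.lft ZQ L₀ (rep U) z : ℝ) * HG.onX (fun e => τ (mv ν e) ω) (rep U)

theorem hg_sub (z z' : VZ) (ω : Φ → Bool) : hg τ ν φ L₀ z ω - hg τ ν φ L₀ z' ω =
    ∑ U ∈ ust ZQ L₀ (pb φ ω), ((Tilt.lft ZQ L₀ (rep U) z - Tilt.lft ZQ L₀ (rep U) z' : ℤ) : ℝ) *
      HG.onX (fun e => τ (mv ν e) ω) (rep U) := by
  unfold hg
  rw [← Finset.sum_sub_distrib]
  refine Finset.sum_congr rfl fun U _ => ?_
  push_cast
  ring

/-- **the increments of the height numerator** -/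
theorem hg_inc (I : Ins Q F W τ) (H : QChart ZQ Q L₀ ν φ 0) (hF : ∀ f ∈ L₀, φ f ∈ F)
    (hP : HasPotQ ZQ L₀) (he : e ∈ dE ZQ L₀) (ω : Φ → Bool) :
    hg τ ν φ L₀ e.1 ω - hg τ ν φ L₀ e.2 ω = τ (mv ν e) ω := by
  rw [hg_sub, HG.sum_lft_inc zq_noLoop hP (HG.onX (fun e => τ (mv ν e) ω))
    (fun X hX => HG.onX_rv (fun a b h => tau_srel I H hF h) (fun a ha => tau_swap I H hF ha) hX) he]
  exact HG.onX_eq (fun a b h => tau_srel I H hF h) (mem_dstr.mpr ⟨e, he, rfl⟩) (self_mem_dst he)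

/-- a function with the mean increments; `S` the window, `g` a factor -/
theorem mean_diff (I : Ins Q F W τ) (H : QChart ZQ Q L₀ ν φ 0) (hF : ∀ f ∈ L₀, φ f ∈ F)
    (hP : HasPotQ ZQ L₀) (S : Finset Φ) (g : (Φ → Bool) → ℝ) {G : Finset (ℤ × ℤ)} (hG : G ⊆ L₀)
    {u : VZ → ℝ} {N : ℝ}
    (hu : ∀ a ∈ dE ZQ G, u a.1 - u a.2 = av S (fun ω => g ω * τ (mv ν a) ω) / N)
    (hz : ConnE ZQ G z z') :
    u z - u z' = av S (fun ω => g ω * (hg τ ν φ L₀ z ω - hg τ ν φ L₀ z' ω)) / N := by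
  have h1 : u z - u z' = av S (fun ω => g ω * hg τ ν φ L₀ z ω) / N -
      av S (fun ω => g ω * hg τ ν φ L₀ z' ω) / N := by
    refine sub_eq_of_inc (v := fun w => av S (fun ω => g ω * hg τ ν φ L₀ w ω) / N)
      (fun a ha => ?_) hz
    rw [hu a ha, ← sub_div, ← av_sub]
    congr 1
    refine av_congr fun T _ => ?_
    rw [← mul_sub, hg_inc I H hF hP (SixB.dE_mono hG ha)]
  rw [h1, ← sub_div, ← av_sub]
  congr 1
  exact av_congr fun T _ => by ring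

/-! ## Closed strands -/

/-- the disc as an environment: only the closed strands count -/
def e0 (L₀ : Finset (ℤ × ℤ)) : WEnv where
  F := L₀
  t := fun _ _ => 1
  s := fun _ _ => 0
  t_symm := fun _ _ => rfl
  s_anti := fun _ _ => by simp

theorem kap_e0 (c : ℤ × ℤ → Bool) (e : DZ) : HG.kap (e0 L₀) c e =
    (open Classical in if Clo ZQ L₀ c e then Real.sqrt 3 / 4 * (trn ZQ L₀ c e : ℝ) else 0) := by
  classical
  unfold HG.kap
  have h1 : (e0 L₀).F = L₀ := rfl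
  have h2 : ∀ a b : DZ, (e0 L₀).s a b = 0 := fun _ _ => rfl
  simp only [h1, h2, zero_div]

/-- the strands of the disc which are not closed and separate two vertices -/
def NR (L₀ : Finset (ℤ × ℤ)) (z z' : VZ) (c : ℤ × ℤ → Bool) : Finset (Finset (Finset DZ)) := by
  classical exact (ust ZQ L₀ c).filter fun U =>
    (∀ e ∈ rep U, ¬ Clo ZQ L₀ c e) ∧ Tilt.lft ZQ L₀ (rep U) z ≠ Tilt.lft ZQ L₀ (rep U) z'

theorem mem_NR {c : ℤ × ℤ → Bool} {U : Finset (Finset DZ)} : U ∈ NR L₀ z z' c ↔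
    U ∈ ust ZQ L₀ c ∧ (∀ e ∈ rep U, ¬ Clo ZQ L₀ c e) ∧
      Tilt.lft ZQ L₀ (rep U) z ≠ Tilt.lft ZQ L₀ (rep U) z' := by
  classical
  unfold NR
  rw [Finset.mem_filter]

theorem dep_NR : Dep (L₀ : Set (ℤ × ℤ)) (NR L₀ z z') := by
  intro c c' h
  have h' : ∀ f ∈ L₀, c f = c' f := fun f hf => h f (by exact_mod_cast hf)
  have hu : ust ZQ L₀ c = ust ZQ L₀ c' := by
    rw [← HG.uIn_self, ← HG.uIn_self (ω := c')]
    exact HG.uIn_congr h'
  ext U
  rw [mem_NR, mem_NR, hu]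
  simp only [clo_congr h']

/-- the term of one strand -/
theorem term_clo (I : Ins Q F W τ) (H : QChart ZQ Q L₀ ν φ 0) (hF : ∀ f ∈ L₀, φ f ∈ F)
    {U : Finset (Finset DZ)} (hU : U ∈ ust ZQ L₀ (pb φ ω)) {e : DZ} (he : e ∈ rep U)
    (hc : Clo ZQ L₀ (pb φ ω) e) : HG.onX (fun e => τ (mv ν e) ω) (rep U) =
      HG.onX (HG.kap (e0 L₀) (pb φ ω)) (rep U) * W ω := by
  have hd := HG.rep_dstr hU
  rw [HG.onX_eq (g := fun e => τ (mv ν e) ω) (fun a b h => tau_srel I H hF h) hd he,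
    HG.onX_eq (F := L₀) (fun a b h => HG.kap_srel (e0 L₀) h) hd he, kap_e0, if_pos hc]
  have ht : trn Q F ω (mv ν e) = 4 ∨ trn Q F ω (mv ν e) = -4 := by
    rw [trn_mv H hF hc]
    exact uml_ZQ L₀ (pb φ ω) e hc
  rw [I.clo _ _ (clo_mv H hF hc) ht, trn_mv H hF hc]

theorem abs_lft_le (z z' : VZ) : |Tilt.lft ZQ L₀ X z - Tilt.lft ZQ L₀ X z'| ≤ 1 := by
  unfold Tilt.lft
  split_ifs with h
  · exact h.choose_spec.abs_le z z'
  · simp

/-- **Splitting: closed strands of the disc and the rest.** -/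
theorem hg_split (I : Ins Q F W τ) (H : QChart ZQ Q L₀ ν φ 0) (hF : ∀ f ∈ L₀, φ f ∈ F)
    (z z' : VZ) {B : ℝ}
    (hB : ∀ e ∈ dE ZQ L₀, ¬ Clo ZQ L₀ (pb φ ω) e → |τ (mv ν e) ω| ≤ B) :
    |hg τ ν φ L₀ z ω - hg τ ν φ L₀ z' ω -
      HG.cls (e0 L₀) L₀ z z' (pb φ ω) * W ω| ≤ B * (NR L₀ z z' (pb φ ω)).card := by
  classical
  rw [hg_sub]
  have h1 : HG.cls (e0 L₀) L₀ z z' (pb φ ω) =
      ∑ U ∈ ust ZQ L₀ (pb φ ω), ((Tilt.lft ZQ L₀ (rep U) z - Tilt.lft ZQ L₀ (rep U) z' : ℤ) : ℝ) *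
        HG.onX (HG.kap (e0 L₀) (pb φ ω)) (rep U) := by
    unfold HG.cls
    have : (e0 L₀).F = L₀ := rfl
    rw [this, HG.uIn_self]
  rw [h1, Finset.sum_mul, ← Finset.sum_sub_distrib]
  have h2 : ∑ U ∈ ust ZQ L₀ (pb φ ω),
      (((Tilt.lft ZQ L₀ (rep U) z - Tilt.lft ZQ L₀ (rep U) z' : ℤ) : ℝ) * HG.onX (fun e => τ (mv ν e) ω) (rep U) -
        ((Tilt.lft ZQ L₀ (rep U) z - Tilt.lft ZQ L₀ (rep U) z' : ℤ) : ℝ) *
          HG.onX (HG.kap (e0 L₀) (pb φ ω)) (rep U) * W ω) =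
      ∑ U ∈ NR L₀ z z' (pb φ ω),
      (((Tilt.lft ZQ L₀ (rep U) z - Tilt.lft ZQ L₀ (rep U) z' : ℤ) : ℝ) * HG.onX (fun e => τ (mv ν e) ω) (rep U) -
        ((Tilt.lft ZQ L₀ (rep U) z - Tilt.lft ZQ L₀ (rep U) z' : ℤ) : ℝ) *
          HG.onX (HG.kap (e0 L₀) (pb φ ω)) (rep U) * W ω) := by
    symm
    refine Finset.sum_subset (fun U hU => (mem_NR.mp hU).1) fun U hU hn => ?_
    by_cases hl : Tilt.lft ZQ L₀ (rep U) z = Tilt.lft ZQ L₀ (rep U) z'
    · rw [hl]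
      simp
    · have h3 : ∃ e ∈ rep U, Clo ZQ L₀ (pb φ ω) e := by
        by_contra hcon
        push Not at hcon
        exact hn (mem_NR.mpr ⟨hU, hcon, hl⟩)
      obtain ⟨e, he, hc⟩ := h3
      rw [term_clo I H hF hU he hc]
      ring
  rw [h2]
  refine (Finset.abs_sum_le_sum_abs _ _).trans ?_
  rw [mul_comm, ← nsmul_eq_mul, ← Finset.sum_const]
  refine Finset.sum_le_sum fun U hU => ?_
  obtain ⟨hU1, hU2, -⟩ := mem_NR.mp hU
  have hd := HG.rep_dstr hU1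
  obtain ⟨c, hc, h3⟩ := mem_dstr.mp hd
  have hcX : c ∈ rep U := h3 ▸ self_mem_dst hc
  rw [HG.onX_eq (g := fun e => τ (mv ν e) ω) (fun a b h => tau_srel I H hF h) hd hcX,
    HG.onX_eq (F := L₀) (fun a b h => HG.kap_srel (e0 L₀) h) hd hcX, kap_e0, if_neg (hU2 c hcX),
    mul_zero, zero_mul, sub_zero, abs_mul]
  have hP1 : |((Tilt.lft ZQ L₀ (rep U) z - Tilt.lft ZQ L₀ (rep U) z' : ℤ) : ℝ)| ≤ 1 := by
    have := abs_lft_le (L₀ := L₀) (X := rep U) z z'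
    exact_mod_cast this
  calc |((Tilt.lft ZQ L₀ (rep U) z - Tilt.lft ZQ L₀ (rep U) z' : ℤ) : ℝ)| * |τ (mv ν c) ω|
      ≤ 1 * B := mul_le_mul hP1 (hB c hc (hU2 c hcX)) (abs_nonneg _) zero_le_one
    _ = B := one_mul B

/-! ## The weight does not see the core of an annulus which is not crossed -/

theorem sd_face {f g : Φ} {k l : ZMod 4} (h : sd Q f k = sd Q g l) : f = g ∧ k = l := by
  unfold sd at h
  rw [Prod.mk.injEq] at h
  exact Q.inj h.1 h.2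

theorem ust_of_mem {U : Finset (Finset (V × V))} {Y : Finset (V × V)} {c : V × V}
    (hU : U ∈ ust Q F ω) (hY : Y ∈ U) (hc : c ∈ Y) : c ∈ dE Q F ∧
      U = {dst Q F ω c, dst Q F ω c.swap} := by
  obtain ⟨h1, h2⟩ := ust_eq hU hY
  obtain ⟨h3, h4⟩ := dstr_of_mem h1 hc
  refine ⟨h3, ?_⟩
  rw [h2, h4, rv_dst]

/-- the strands which touch `A` have weight one: the product over the strands off `A` -/
theorem Zn_core {A : Finset Φ} (hAF : A ⊆ F) {h : V × V → ℂ}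
    (h1 : ∀ a ∈ dE Q A, nw Q F ω h {dst Q F ω a, dst Q F ω a.swap} = 1) :
    Zn Q F ω h = Zu Q (F \ A) A ω h := by
  classical
  have hF1 : F \ A ⊆ F := Finset.sdiff_subset
  have hA : F \ (F \ A) = A := Finset.sdiff_sdiff_eq_self hAF
  unfold Zn
  rw [prod_ust_cut hF1, hA]
  have e2 : ∏ U ∈ unt Q A (F \ A) ω, nw Q F ω h U = 1 := by
    refine Finset.prod_eq_one fun U hU => ?_
    have hR : F \ A ⊆ F \ A := Finset.Subset.refl _
    have hU1 := unt_sub_ust hAF hR hU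
    obtain ⟨a, ha, rfl, h3⟩ := mem_unt.mp hU
    obtain ⟨-, h4⟩ := ust_of_mem hU1 (Finset.mem_insert_self _ _) (self_mem_dst ha)
    rw [h4]
    exact h1 a ha
  have e3 : ∏ U ∈ tch Q F (F \ A) ω, nw Q F ω h U = 1 := by
    refine Finset.prod_eq_one fun U hU => ?_
    unfold tch at hU
    obtain ⟨hU1, Y, hY, b, hb, c, hc, h3, h4⟩ := Finset.mem_filter.mp hU
    rw [hA] at h4
    obtain ⟨-, h5⟩ := ust_of_mem hU1 hY hc
    rw [h5]
    exact h1 c h4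
  rw [e2, e3, mul_one, mul_one]
  unfold Zu
  refine Finset.prod_congr rfl fun U hU => ?_
  have h2 : ∀ X ∈ U, Off Q A X := by
    unfold unt at hU
    exact (Finset.mem_filter.mp hU).2
  exact nw_of_off hF1 (by rw [hA]) h2 fun _ _ _ _ => rfl

theorem Zu_congr {F₁ R : Finset Φ} {h : V × V → ℂ} (hω : ∀ f ∈ F₁, ω f = ω' f) :
    Zu Q F₁ R ω h = Zu Q F₁ R ω' h := by
  classical
  have hu : ust Q F₁ ω = ust Q F₁ ω' := by
    rw [← HG.uIn_self, ← HG.uIn_self (ω := ω')]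
    exact HG.uIn_congr hω
  unfold Zu unt
  rw [hu]
  refine Finset.prod_congr rfl fun U _ => ?_
  unfold nw
  congr 1
  refine Finset.sum_congr rfl fun X _ => ?_
  unfold sw
  exact Finset.prod_congr rfl fun a _ => by rw [qt_congr hω]

/-- closed strands of turning `± 4` around `A` for both configurations -/
theorem nW_core (hQ : NoLoop Q) {A : Finset Φ} (hAF : A ⊆ F) (hω : ∀ f ∈ F, f ∉ A → ω f = ω' f)
    (h1 : Core Q F A ω) (h2 : Core Q F A ω') : nW Q F ψ ω = nW Q F ψ ω' := by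
  have key : ∀ {c : Φ → Bool}, Core Q F A c →
      ((nW Q F ψ c : ℝ) : ℂ) = Zu Q (F \ A) A c (bph Q F ψ) := by
    intro c hc
    rw [← Zn_nW hQ ψ]
    refine Zn_core hAF fun a ha => ?_
    have h3 := nw_closed hQ ψ (fun _ => (1 : ℂ)) (SixB.dE_mono hAF ha) (hc a ha).1 (hc a ha).2
      (fun _ _ => rfl) (fun _ _ => rfl)
    simp only [mul_one] at h3
    exact h3
  have h3 := key h1
  have h4 := key h2
  rw [Zu_congr (ω' := ω') fun f hf => hω f (Finset.mem_sdiff.mp hf).1 (Finset.mem_sdiff.mp hf).2,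
    ← h4] at h3
  exact_mod_cast h3

theorem ins_nW (hQ : NoLoop Q) (F : Finset Φ) (ψ : V × V → ℝ) :
    Ins Q F (nW Q F ψ) (nW1 Q F ψ) where
  srel ω a b h := by
    unfold nW1
    rw [WU1_srel h]
  swap ω a ha := by
    unfold nW1
    rw [WU1_swap ha]
    ring
  clo ω a h ht := nW1_clo hQ h ht
  loc A hA ω ω' hω h1 h2 := nW_core hQ hA hω h1 h2

/-- **The arcs do not see the core.** -/
theorem arcs_core {A : Finset Φ} (hAF : A ⊆ F) (hω : ∀ f ∈ F, f ∉ A → ω f = ω' f)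
    (h1 : Core Q F A ω) (h2 : Core Q F A ω') {a : V × V} (ha : a ∈ bS Q F) :
    dst Q F ω a = dst Q F ω' a ∧ mate Q F ω a = mate Q F ω' a ∧
      tX Q F ω (dst Q F ω a) = tX Q F ω' (dst Q F ω' a) := by
  classical
  have hF1 : F \ A ⊆ F := Finset.sdiff_subset
  have hA : F \ (F \ A) = A := Finset.sdiff_sdiff_eq_self hAF
  obtain ⟨haF, hai⟩ := mem_bS.mp ha
  have off : ∀ {c : Φ → Bool}, Core Q F A c → ∀ b ∈ dst Q F c a, b ∉ dE Q A := by
    intro c hc b hb hbA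
    have h3 : a ∈ dst Q F c b :=
      mem_dst.mpr ⟨haF, EqvGen.symm _ _ (mem_dst.mp hb).2⟩
    exact (hc b hbA).1 a h3 hai
  have ha1 : a ∈ dE Q (F \ A) := by
    obtain ⟨f, hf, k, h⟩ := mem_dE.mp haF
    by_cases hfA : f ∈ A
    · exact absurd (mem_dE.mpr ⟨f, hfA, k, h⟩) (off h1 a (self_mem_dst haF))
    · exact mem_dE.mpr ⟨f, Finset.mem_sdiff.mpr ⟨hf, hfA⟩, k, h⟩
  have key : ∀ {c : Φ → Bool}, Core Q F A c → dst Q F c a = dst Q (F \ A) c a ∧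
      Off Q A (dst Q (F \ A) c a) := by
    intro c hc
    have h3 : Off Q A (dst Q (F \ A) c a) := fun b hb => off hc b (dst_mono hF1 hb)
    exact ⟨dst_of_off hF1 (by rw [hA]) h3 ha1, h3⟩
  obtain ⟨k1, k2⟩ := key h1
  obtain ⟨k3, k4⟩ := key h2
  have hω' : ∀ f ∈ F \ A, ω f = ω' f := fun f hf =>
    hω f (Finset.mem_sdiff.mp hf).1 (Finset.mem_sdiff.mp hf).2
  have hd : dst Q F ω a = dst Q F ω' a := by rw [k1, k3, dst_congr hω']
  refine ⟨hd, ?_, ?_⟩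
  · have h3 : (mate Q F ω a).swap ∈ dst Q F ω' a := by
      rw [← hd]
      unfold mate
      rw [Prod.swap_swap]
      exact mem_dst.mpr ⟨srel_dE (srel_lst hai) haF, srel_lst hai⟩
    have h4 : Ter Q (F : Set Φ) (mate Q F ω a).swap := by
      unfold mate
      rw [Prod.swap_swap]
      exact (lst_spec (ω := ω) hai).2
    have h5 := mate_unique (ω := ω') hai h4 (mem_dst.mp h3).2
    rw [h5, Prod.swap_swap]
  · rw [k1, tX_of_off hF1 (by rw [hA]) k2, k3, tX_of_off hF1 (by rw [hA]) k4]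
    unfold tX
    rw [dst_congr hω']
    exact Finset.sum_congr rfl fun b _ => qt_congr hω'

/-- `WZ` does not see the core -/
theorem WZ_core {A : Finset Φ} {Z : Finset (V × V)} (hZ : Z ⊆ bS Q F) (hAF : A ⊆ F)
    (hω : ∀ f ∈ F, f ∉ A → ω f = ω' f) (h1 : Core Q F A ω) (h2 : Core Q F A ω') :
    WZ Q F ψ Z ω = WZ Q F ψ Z ω' := by
  have hm : ∀ a ∈ Z, mate Q F ω a = mate Q F ω' a := fun a ha =>
    (arcs_core hAF hω h1 h2 (hZ ha)).2.1
  have hz : arcsZ Q F Z ω = arcsZ Q F Z ω' := by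
    unfold arcsZ
    exact Finset.image_congr fun a ha => by
      show s(_, _) = s(_, _)
      rw [hm a (by exact_mod_cast ha)]
  by_cases h3 : ∀ a ∈ Z, mate Q F ω a ∈ Z
  · have h4 : ∀ a ∈ Z, mate Q F ω' a ∈ Z := fun a ha => by rw [← hm a ha]; exact h3 a ha
    rw [WZ_of ψ h3, WZ_of ψ h4, ← hz]
    congr 1
    refine Finset.prod_congr rfl fun p hp => ?_
    obtain ⟨a, ha, rfl⟩ := mem_arcsZ.mp hp
    rw [wA_eq ψ (hZ ha)]
    have h5 := wA_eq (ω := ω') ψ (hZ ha)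
    rw [← hm a ha] at h5
    rw [h5]
    unfold wt turn
    rw [(arcs_core hAF hω h1 h2 (hZ ha)).2.2, hm a ha]
  · have h4 : ¬ ∀ a ∈ Z, mate Q F ω' a ∈ Z := by
      intro h4
      exact h3 fun a ha => by rw [hm a ha]; exact h4 a ha
    rw [WZ_not ψ h3, WZ_not ψ h4]

/-- every directed side of a face of `S` is the positive side of a face of `L` -/
def Inn (S L : Finset (ℤ × ℤ)) : Prop := ∀ d ∈ dE ZQ S, ∃ f ∈ L, ∃ k, d = sd ZQ f k

variable {S : Finset (ℤ × ℤ)}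

/-- the face of the complex at a side in the disc -/
theorem face_of (H : QChart ZQ Q L ν φ 0) (hI : Inn S L) {d : DZ} (hd : d ∈ dE ZQ S) {g : Φ}
    {l : ZMod 4} (h : mv ν d = sd Q g l) : ∃ f ∈ L, (∃ k, d = sd ZQ f k) ∧ g = φ f := by
  obtain ⟨f, hf, k, rfl⟩ := hI d hd
  refine ⟨f, hf, ⟨k, rfl⟩, ?_⟩
  have h1 := (toMap H (fun _ => false)).sd_eq hf k
  have h2 : sd Q g l = sd Q (φ f) (k + 0) := by
    rw [← h, h1]
    rfl
  exact (sd_face h2).1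

theorem no_ini (H : QChart ZQ Q L ν φ 0) (hF : ∀ f ∈ L, φ f ∈ F) (hI : Inn S L) {d : DZ}
    (hd : d ∈ dE ZQ S) : ¬ Ini Q (F : Set Φ) (mv ν d) := by
  intro hi
  obtain ⟨f, hf, k, h⟩ := hI d.swap (swap_mem_dE.mpr hd)
  have h1 := (toMap H (fun _ => false)).sd_eq hf k
  refine hi (φ f) (by exact_mod_cast hF f hf) (k + 0) ?_
  change mv ν d = (sd Q (φ f) (k + 0)).swap
  rw [h1, ← h]
  rfl

theorem off_disj (H : QChart ZQ Q L ν φ 0) (hSL : S ⊆ L) {A : Finset (ℤ × ℤ)} (hAS : A ⊆ S)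
    (hI : Inn A S) : Disjoint (dE Q (A.image φ)) (dE Q (F \ S.image φ)) := by
  have HA := H.mono (hAS.trans hSL)
  have HS := H.mono hSL
  rw [Finset.disjoint_left]
  intro c hc hc'
  rw [dE_map HA] at hc
  obtain ⟨d, hd, rfl⟩ := Finset.mem_image.mp hc
  obtain ⟨g, hg, l, h⟩ := mem_dE.mp hc'
  obtain ⟨hg1, hg2⟩ := Finset.mem_sdiff.mp hg
  have key : ∃ d' ∈ dE ZQ A, mv ν d' = sd Q g l := by
    rcases h with h | h
    · exact ⟨d, hd, h⟩
    · refine ⟨d.swap, swap_mem_dE.mpr hd, ?_⟩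
      rw [mv_swap, h, Prod.swap_swap]
  obtain ⟨d', hd', h1⟩ := key
  obtain ⟨f, hf, -, rfl⟩ := face_of HS hI hd' h1
  exact hg2 (Finset.mem_image_of_mem _ hf)

theorem blk_mv (H : QChart ZQ Q L ν φ 0) (hAS : A ⊆ S) (hSL : S ⊆ L) (hI : Inn S L)
    (hb : Rel.Blk ZQ (S \ A) (pb φ ω) (dE ZQ A) (dE ZQ (L \ S))) :
    Rel.Blk Q ((S \ A).image φ) ω (dE Q (A.image φ)) (dE Q (F \ S.image φ)) := by
  have hRL : S \ A ⊆ L := Finset.sdiff_subset.trans hSL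
  have HA := H.mono (hAS.trans hSL)
  have HR := H.mono hRL
  intro c hc d hd hcR hdR hs
  rw [dE_map HA] at hc
  obtain ⟨c1, hc1, rfl⟩ := Finset.mem_image.mp hc
  rw [dE_map HR] at hcR hdR
  obtain ⟨c2, hc2, h2⟩ := Finset.mem_image.mp hcR
  have e1 : c2 = c1 := mv_inj H (SixB.dE_mono hRL hc2) (SixB.dE_mono (hAS.trans hSL) hc1) h2
  subst e1
  obtain ⟨d1, hd1, rfl⟩ := Finset.mem_image.mp hdR
  obtain ⟨d2, h3, h4⟩ := (toMap HR ω).srel_inv hc2 hs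
  have hd2 : d2 ∈ dE ZQ (S \ A) := srel_dE h4 hc2
  have e2 : d2 = d1 := mv_inj H (SixB.dE_mono hRL hd2) (SixB.dE_mono hRL hd1) h3.symm
  subst e2
  refine hb c2 hc1 d2 ?_ hc2 hd2 h4
  have hdS : d2 ∈ dE ZQ S := SixB.dE_mono Finset.sdiff_subset hd2
  obtain ⟨g, hg, l, h⟩ := mem_dE.mp hd
  obtain ⟨hg1, hg2⟩ := Finset.mem_sdiff.mp hg
  rcases h with h | h
  · obtain ⟨f, hf, ⟨k, rfl⟩, rfl⟩ := face_of H hI hdS h
    have hfS : f ∉ S := fun hfS => hg2 (Finset.mem_image_of_mem _ hfS)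
    exact sd_mem (Finset.mem_sdiff.mpr ⟨hf, hfS⟩) k
  · have h5 : mv ν d2.swap = sd Q g l := by rw [mv_swap, h, Prod.swap_swap]
    obtain ⟨f, hf, ⟨k, h6⟩, rfl⟩ := face_of H hI (swap_mem_dE.mpr hdS) h5
    have hfS : f ∉ S := fun hfS => hg2 (Finset.mem_image_of_mem _ hfS)
    rw [← swap_mem_dE, h6]
    exact sd_mem (Finset.mem_sdiff.mpr ⟨hf, hfS⟩) k

/-- the strands which touch the core are closed and stay in `S` -/
theorem clo_core (H : QChart ZQ Q L ν φ 0) (hF : ∀ f ∈ L, φ f ∈ F) (hAS : A ⊆ S) (hSL : S ⊆ L)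
    (hIA : Inn A S) (hIS : Inn S L)
    (hb : Rel.Blk ZQ (S \ A) (pb φ ω) (dE ZQ A) (dE ZQ (L \ S))) {c : V × V}
    (hc : c ∈ dE Q (A.image φ)) : (∀ b ∈ dst Q F ω c, ¬ Ini Q (F : Set Φ) b) ∧
      (tX Q F ω (dst Q F ω c) = 4 ∨ tX Q F ω (dst Q F ω c) = -4) ∧
      dst Q F ω c ⊆ dE Q (S.image φ) := by
  have HA := H.mono (hAS.trans hSL)
  have HS := H.mono hSL
  have hSF : S.image φ ⊆ F := image_sub fun f hf => hF f (hSL hf)
  have hun : A.image φ ∪ (S \ A).image φ = S.image φ := by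
    rw [← Finset.image_union, Finset.union_sdiff_of_subset hAS]
  have hcS : c ∈ dE Q (S.image φ) := SixB.dE_mono (Finset.image_subset_image hAS) hc
  have h1 : Off Q (F \ S.image φ) (dst Q (S.image φ) ω c) := by
    intro b hb1 hb2
    have h2 := (mem_dst.mp hb1).2
    rw [← hun] at h2
    exact Rel.no_cross (fun d hd => swap_mem_dE.mpr hd) (off_disj H hSL hAS hIA)
      (blk_mv H hAS hSL hIS hb) h2 hc hb2
  have h2 : dst Q F ω c = dst Q (S.image φ) ω c :=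
    dst_of_off hSF (Finset.Subset.refl _) h1 hcS
  have h3 : ∀ b ∈ dst Q (S.image φ) ω c, ¬ Ini Q (F : Set Φ) b := by
    intro b hb1
    have h4 := (mem_dst.mp hb1).1
    rw [dE_map HS] at h4
    obtain ⟨b', hb', rfl⟩ := Finset.mem_image.mp h4
    exact no_ini H hF hIS hb'
  refine ⟨by rw [h2]; exact h3, ?_, by rw [h2]; exact fun b hb1 => (mem_dst.mp hb1).1⟩
  rw [h2, tX_of_off hSF (Finset.Subset.refl _) h1]
  rw [dE_map HA] at hc
  obtain ⟨c', hc', rfl⟩ := Finset.mem_image.mp hc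
  have hcS' : c' ∈ dE ZQ S := SixB.dE_mono hAS hc'
  have h4 := turn_map HS (ω := ω) hcS'
  unfold turn at h4
  rw [h4]
  have hcl : Clo ZQ S (pb φ ω) c' := by
    by_contra hn
    obtain ⟨h5, h6⟩ := stt_spec hn
    have h7 : SRel ZQ S (pb φ ω) c' (stt S (pb φ ω) c') :=
      EqvGen.symm _ _ (srel_iff.mpr (Or.inl h5))
    have h8 : stt S (pb φ ω) c' ∈ dE ZQ S := srel_dE h7 hcS'
    have h9 : mv ν (stt S (pb φ ω) c') ∈ dst Q (S.image φ) ω (mv ν c') := by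
      refine mem_dst.mpr ⟨?_, (toMap HS ω).srel h7⟩
      rw [dE_map HS]
      exact Finset.mem_image_of_mem _ h8
    refine h3 _ h9 ((ini_of_off hSF (Finset.Subset.refl _) (h1 _ h9)).mpr ?_)
    exact (ini_map HS h8).mpr h6
  exact uml_ZQ S (pb φ ω) c' hcl

/-- the core of an annulus which is not crossed, for two configurations equal off the core -/
theorem core_two (H : QChart ZQ Q L ν φ 0) (hF : ∀ f ∈ L, φ f ∈ F) (hAS : A ⊆ S)
    (hSL : S ⊆ L) (hIA : Inn A S) (hIS : Inn S L)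
    (hb : Rel.Blk ZQ (S \ A) (pb φ ω) (dE ZQ A) (dE ZQ (L \ S)))
    (hω : ∀ f ∈ F, f ∉ A.image φ → ω f = ω' f) :
    Core Q F (A.image φ) ω ∧ Core Q F (A.image φ) ω' := by
  have hinj : ∀ f ∈ L, ∀ g ∈ L, φ f = φ g → f = g := by
    intro f hf g hg h
    exact (toMap H (fun _ => false)).inj_face (by exact_mod_cast hf) (by exact_mod_cast hg) h
  have hb' : Rel.Blk ZQ (S \ A) (pb φ ω') (dE ZQ A) (dE ZQ (L \ S)) := by
    refine (Rel.Blk.congr fun f hf => ?_).mp hb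
    obtain ⟨h1, h2⟩ := Finset.mem_sdiff.mp hf
    refine hω (φ f) (hF f (hSL h1)) fun h3 => ?_
    obtain ⟨g, hg, h4⟩ := Finset.mem_image.mp h3
    have := hinj g (hSL (hAS hg)) f (hSL h1) h4
    subst this
    exact h2 hg
  constructor
  · intro a ha
    obtain ⟨h1, h2, -⟩ := clo_core H hF hAS hSL hIA hIS hb ha
    exact ⟨h1, h2⟩
  · intro a ha
    obtain ⟨h1, h2, -⟩ := clo_core H hF hAS hSL hIA hIS hb' ha
    exact ⟨h1, h2⟩

/-- **The weight does not see the core of an annulus which is not crossed.** -/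
theorem W_local (I : Ins Q F W τ) (H : QChart ZQ Q L ν φ 0) (hF : ∀ f ∈ L, φ f ∈ F) (hAS : A ⊆ S)
    (hSL : S ⊆ L) (hIA : Inn A S) (hIS : Inn S L)
    (hb : Rel.Blk ZQ (S \ A) (pb φ ω) (dE ZQ A) (dE ZQ (L \ S)))
    (hω : ∀ f ∈ F, f ∉ A.image φ → ω f = ω' f) : W ω = W ω' := by
  obtain ⟨h1, h2⟩ := core_two H hF hAS hSL hIA hIS hb hω
  exact I.loc _ (image_sub fun f hf => hF f (hSL (hAS hf))) ω ω' hω h1 h2

open Classical in
/-- indicator of a crossing of `S \ A` from `A` to `L \ S` -/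
def nB (φ : ℤ × ℤ → Φ) (A S L : Finset (ℤ × ℤ)) (ω : Φ → Bool) : ℝ :=
  if Rel.Blk ZQ (S \ A) (pb φ ω) (dE ZQ A) (dE ZQ (L \ S)) then 0 else 1

theorem nB_zero_or (φ : ℤ × ℤ → Φ) (A S L : Finset (ℤ × ℤ)) (ω : Φ → Bool) :
    nB φ A S L ω = 0 ∨ nB φ A S L ω = 1 := by
  unfold nB
  split_ifs
  · exact Or.inl rfl
  · exact Or.inr rfl

theorem dep_nB (φ : ℤ × ℤ → Φ) (A S L : Finset (ℤ × ℤ)) :
    Dep (((S \ A).image φ : Finset Φ) : Set Φ) (nB φ A S L) := by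
  intro ω ω' h
  unfold nB
  have h1 : Rel.Blk ZQ (S \ A) (pb φ ω) (dE ZQ A) (dE ZQ (L \ S)) ↔
      Rel.Blk ZQ (S \ A) (pb φ ω') (dE ZQ A) (dE ZQ (L \ S)) :=
    Rel.Blk.congr fun f hf => h _ (by exact_mod_cast Finset.mem_image_of_mem φ hf)
  by_cases hb : Rel.Blk ZQ (S \ A) (pb φ ω) (dE ZQ A) (dE ZQ (L \ S))
  · rw [if_pos hb, if_pos (h1.mp hb)]
  · rw [if_neg hb, if_neg fun h' => hb (h1.mpr h')]

/-- with a factor `c` which depends on the faces off the disc -/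
theorem dep_W (I : Ins Q F W τ) (H : QChart ZQ Q L ν φ 0) (hF : ∀ f ∈ L, φ f ∈ F) (hAS : A ⊆ S)
    (hSL : S ⊆ L) (hIA : Inn A S) (hIS : Inn S L) {c : (Φ → Bool) → ℝ}
    (hc : Dep ((A.image φ : Finset Φ) : Set Φ)ᶜ c) :
    Dep ((A.image φ : Finset Φ) : Set Φ)ᶜ (fun ω => c ω * W ω * (1 - nB φ A S L ω)) := by
  intro ω ω' h
  have hinj : ∀ f ∈ L, ∀ g ∈ L, φ f = φ g → f = g := by
    intro f hf g hg h
    exact (toMap H (fun _ => false)).inj_face (by exact_mod_cast hf) (by exact_mod_cast hg) h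
  have e1 : nB φ A S L ω = nB φ A S L ω' := by
    refine dep_nB φ A S L ω ω' fun f hf => h f ?_
    intro hf'
    have hf1 : f ∈ (S \ A).image φ := by exact_mod_cast hf
    obtain ⟨g, hg, rfl⟩ := Finset.mem_image.mp hf1
    have hf2 : φ g ∈ A.image φ := by exact_mod_cast hf'
    obtain ⟨g', hg', h2⟩ := Finset.mem_image.mp hf2
    obtain ⟨h3, h4⟩ := Finset.mem_sdiff.mp hg
    have := hinj g' (hSL (hAS hg')) g (hSL h3) h2
    subst this
    exact h4 hg'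
  show c ω * W ω * (1 - nB φ A S L ω) = c ω' * W ω' * (1 - nB φ A S L ω')
  rw [hc ω ω' h, ← e1]
  by_cases hb : Rel.Blk ZQ (S \ A) (pb φ ω) (dE ZQ A) (dE ZQ (L \ S))
  · rw [W_local I H hF hAS hSL hIA hIS hb fun f _ hf => h f (by
      intro hf'
      exact hf (by exact_mod_cast hf'))]
  · unfold nB
    rw [if_neg hb, sub_self, mul_zero, mul_zero]

end

end Pool.Agent.SixB.HDet
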