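import Pool.Agent.Lib.SixB.S3WZ2
import Pool.Agent.Lib.SixB.S3HDet

/-!
# 6BD, U3: `WZ1`: insertion structure, bound by cells, all boundary sides

* `ins_WZ : HDet.Ins Q F (WZ Q F ψ Z) (WZ1 Q F ψ Z)`;
* `mem_of_mate`: an arc which ends on the boundary of `F` inside `G` stays in `G`;
* `cells_abs_WZ1_le`: the bound of `WZ` by cells, for `WZ1` with an arrow `e` off all cells;
* `nW_WZ`, `nW1_WZ1`: `nW = WZ`, `nW1 = WZ1` if `Z` = all boundary sides and all closed strands have turning `±4`;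
  `cells_abs_nW1_le`.
-/

set_option autoImplicit false
set_option linter.unusedSectionVars false

namespace Pool.Agent.SixB.Rel

open Pool.Agent.Perc Pool.Agent.Perc.Q Relation Filter Topology
open Pool.Agent.SixB hiding Zs_split dst_congr qt_congr dE_mono

noncomputable section

variable {V Φ : Type} [DecidableEq V] [DecidableEq Φ]
variable {Q : QC V Φ} {F G : Finset Φ} {ω ω' : Φ → Bool} {a b c e : V × V} {Z P : Finset (V × V)}
  {h : V × V → ℂ} {ψ : V × V → ℝ}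

/-! ## Insertion structure -/

theorem closed_free (hZ : Z ⊆ bS Q F) (ha : a ∈ dE Q F)
    (hc : ∀ b ∈ dst Q F ω a, ¬ Ini Q (F : Set Φ) b) : ¬ touch Z (dst Q F ω a) := by
  intro ht
  obtain ⟨b, hb, h1⟩ := touch_iff.mp ht
  rcases h1 with h1 | h1
  · exact hc b hb (mem_bS.mp (hZ h1)).2
  · exact closed_no_ter (dst_mem_dstr ha) hc b hb (ini_swap.mp (mem_bS.mp (hZ h1)).2)

theorem sin_pm (t : ℤ) (ht : t = 4 ∨ t = -4) :
    2 * Real.sin ((t : ℝ) * (Real.pi / 12)) = Real.sqrt 3 / 4 * (t : ℝ) := by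
  have h1 : Real.sin (4 * (Real.pi / 12)) = Real.sqrt 3 / 2 := by
    rw [show 4 * (Real.pi / 12) = Real.pi / 3 by ring, Real.sin_pi_div_three]
  rcases ht with rfl | rfl
  · rw [Int.cast_ofNat, h1]
    ring
  · rw [Int.cast_neg, Int.cast_ofNat, show (-4 : ℝ) * (Real.pi / 12) = -(4 * (Real.pi / 12)) by ring,
      Real.sin_neg, h1]
    ring

/-- **The weight of the island sides with an arrow inserted.** -/
theorem ins_WZ (hQ : NoLoop Q) (hZ : Z ⊆ bS Q F) (ψ : V × V → ℝ) :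
    HDet.Ins Q F (WZ Q F ψ Z) (WZ1 Q F ψ Z) where
  srel _ _ _ hs := WZ1_srel hs
  swap _ _ _ := WZ1_swap
  clo ω a hc ht := by
    have ha := hc.mem
    rw [WZ1_free hQ hZ ha (closed_free hZ ha (HDet.clo_no_ini hc))]
    have h1 := sin_pm (trn Q F ω a) ht
    have h2 : (tX Q F ω (dst Q F ω a) : ℝ) = (trn Q F ω a : ℝ) := rfl
    rw [h2, h1]
    ring
  loc _ hA _ _ hω h1 h2 := HDet.WZ_core hZ hA hω h1 h2

/-! ## Arcs which stay in a cell -/

theorem rtg_loc (hGF : G ⊆ F) (h : ReflTransGen (Nx Q ω (G : Set Φ)) a b)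
    (hb : Ter Q (F : Set Φ) b) : ∀ e, ReflTransGen (Nx Q ω (F : Set Φ)) a e →
      ReflTransGen (Nx Q ω (G : Set Φ)) a e := by
  induction h using ReflTransGen.head_induction_on with
  | refl =>
    intro e he
    rcases ReflTransGen.cases_head he with rfl | ⟨c, hc, -⟩
    · exact ReflTransGen.refl
    · exact absurd hc (ter_nx hb)
  | head h1 _ ih =>
    intro e he
    rcases ReflTransGen.cases_head he with rfl | ⟨c, hc, h2⟩
    · exact ReflTransGen.refl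
    · have h3 : Nx Q ω (F : Set Φ) _ _ := Nx.mono (by exact_mod_cast hGF) h1
      rw [← h3.unique hc] at h2
      exact ReflTransGen.head h1 (ih e h2)

/-- an arc with both ends on the boundary of `F` inside `G` stays in `G` -/
theorem mem_of_mate (hGF : G ⊆ F) (ha : a ∈ bS Q G) (haF : Ini Q (F : Set Φ) a)
    (hb : mate Q G ω a ∈ bS Q F) (he : e ∈ dst Q F ω a) : e ∈ dE Q G := by
  have h1 := lst_spec (ω := ω) (mem_bS.mp ha).2
  have h2 : Ter Q (F : Set Φ) (lst Q G ω a) := ini_swap.mp (mem_bS.mp hb).2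
  have h3 : ReflTransGen (Nx Q ω (F : Set Φ)) a e := by
    rcases srel_iff.mp (mem_dst.mp he).2 with h4 | h4
    · exact h4
    · rcases ReflTransGen.cases_tail h4 with h5 | ⟨c, -, h5⟩
      · rw [h5]
      · exact absurd h5 (ini_nx haF)
  have h4 := rtg_loc hGF h1.1 h2 e h3
  exact srel_dE (srel_iff.mpr (Or.inl h4)) (mem_bS.mp ha).1

/-- the side `e` or its reverse on the other description of an arc -/
theorem mem_of_arc (ha : a ∈ bS Q F) (hb : b ∈ bS Q F) (hp : s(b, mate Q F ω b) = s(a, mate Q F ω a))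
    (he : e ∈ dst Q F ω a) : e ∈ dst Q F ω b ∨ e.swap ∈ dst Q F ω b := by
  rw [Sym2.eq_iff] at hp
  rcases hp with ⟨h1, -⟩ | ⟨h1, -⟩
  · rw [h1]
    exact Or.inl he
  · right
    rw [h1, ← rv_dst_mate ha, mem_rv, Prod.swap_swap]
    exact he

section Cells

variable {ι κ : Type} [DecidableEq ι] [DecidableEq κ]

/-- the product without one arc, which leaves all cells -/
theorem cells_prod_le (C : Cells Q F ψ Z ι κ) (ω : Φ → Bool) {a₀ : V × V} (ha₀ : a₀ ∈ Z)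
    (he : e ∈ dst Q F ω a₀) (h1 : ∀ i ∈ C.I, e ∉ dE Q (C.G i)) (h2 : ∀ v ∈ C.S, e ∉ dE Q (C.B v)) :
    (∏ p ∈ (arcsZ Q F Z ω).erase s(a₀, mate Q F ω a₀), |SixB.wA Q F ω ψ p|) * 2 ≤
      Real.sqrt 3 ^ (arcsZ Q F Z ω).card * (∏ v ∈ C.S, C.t v ^ C.N v ω) *
        (2 / Real.sqrt 3) ^ C.K ω := by
  classical
  have h3 : (0 : ℝ) < Real.sqrt 3 := Real.sqrt_pos.mpr (by norm_num)
  have h32 : Real.sqrt 3 ≤ 2 := by
    rw [Real.sqrt_le_left (by norm_num)]
    norm_num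
  have hq : 1 ≤ 2 / Real.sqrt 3 := by rwa [le_div_iff₀ h3, one_mul]
  have hD : ∀ v ∈ C.S, ovr Q (C.B₀ v) (C.PA v) (C.PB v) ω ⊆
      ovr Q (C.B v) (C.PA v) (C.PB v) ω := fun v hv => C.ovr_sub hv ω
  have hq0 : s(a₀, mate Q F ω a₀) ∈ arcsZ Q F Z ω := mem_arcsZ.mpr ⟨a₀, ha₀, rfl⟩
  set p₀ : Sym2 (V × V) := s(a₀, mate Q F ω a₀) with hp₀
  set w : Sym2 (V × V) → ℝ := fun p => if p = p₀ then 2 else |SixB.wA Q F ω ψ p| with hw
  have hw0 : ∀ p, 0 ≤ w p := by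
    intro p
    rw [hw]
    simp only
    split_ifs
    · norm_num
    · exact abs_nonneg _
  have hwp : ∀ p, p ≠ p₀ → w p = |SixB.wA Q F ω ψ p| := by
    intro p hp
    rw [hw]
    simp only
    rw [if_neg hp]
  have e0 : (∏ p ∈ (arcsZ Q F Z ω).erase p₀, |SixB.wA Q F ω ψ p|) * 2 = ∏ p ∈ arcsZ Q F Z ω, w p := by
    rw [← Finset.mul_prod_erase _ _ hq0, mul_comm]
    congr 1
    · simp [hw]
    · exact Finset.prod_congr rfl fun p hp => (hwp p (Finset.ne_of_mem_erase hp)).symm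
  -- the arc `p₀` does not stay in a cell
  have hG : ∀ a ∈ Z, s(a, mate Q F ω a) = p₀ → ∀ i ∈ C.I, a ∈ dE Q (C.G₀ i) →
      mate Q (C.G i) ω a ∉ bS Q F := by
    intro a ha hap i hi hai hm
    rcases mem_of_arc (C.Z_F ha₀) (C.Z_F ha) hap he with h4 | h4
    · exact h1 i hi (mem_of_mate (C.G_sub i hi) (C.bS_G hi ha hai) (mem_bS.mp (C.Z_F ha)).2 hm h4)
    · exact h1 i hi (swap_mem_dE.mp
        (mem_of_mate (C.G_sub i hi) (C.bS_G hi ha hai) (mem_bS.mp (C.Z_F ha)).2 hm h4))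
  have hB : ∀ a ∈ Z, s(a, mate Q F ω a) = p₀ → ∀ v ∈ C.S, a ∈ bS Q (C.B v) →
      mate Q (C.B v) ω a ∉ bS Q F := by
    intro a ha hap v hv hav hm
    rcases mem_of_arc (C.Z_F ha₀) (C.Z_F ha) hap he with h4 | h4
    · exact h2 v hv (mem_of_mate (C.B_sub v hv) hav (mem_bS.mp (C.Z_F ha)).2 hm h4)
    · exact h2 v hv (swap_mem_dE.mp (mem_of_mate (C.B_sub v hv) hav (mem_bS.mp (C.Z_F ha)).2 hm h4))
  set U := C.S.biUnion (C.A C.B₀ ω) with hU
  have hUa : U ⊆ arcsZ Q F Z ω := C.biUnion_sub hD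
  have hp0U : p₀ ∉ U := by
    intro hp
    obtain ⟨v, hv, hp⟩ := Finset.mem_biUnion.mp hp
    obtain ⟨a, ha, hap⟩ := Finset.mem_image.mp hp
    have h4 := C.over_F hv (hD v hv ha)
    obtain ⟨-, h5, h6⟩ := mem_ovr.mp (hD v hv ha)
    exact hB a h4.1 hap v hv h5 (C.PB_F v hv h6)
  have hprodU : ∏ p ∈ U, w p = Real.sqrt 3 ^ U.card * ∏ v ∈ C.S, C.t v ^ C.N v ω := by
    rw [Finset.prod_congr rfl fun p hp => hwp p fun h => hp0U (h ▸ hp), ← Finset.abs_prod,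
      C.prod_A hD, abs_of_nonneg]
    · rfl
    · exact mul_nonneg (by positivity)
        (Finset.prod_nonneg fun v hv => pow_nonneg (C.t_nonneg v hv) _)
  set B := (arcsZ Q F Z ω \ U).filter fun p => Real.sqrt 3 < w p with hBdef
  have hBcard : B.card ≤ C.K ω := by
    refine le_trans ?_ (C.card_bad hD)
    have hsub : B ⊆ (C.bad C.B₀ ω).image fun a => s(a, mate Q F ω a) := by
      intro p hp
      rw [hBdef, Finset.mem_filter, Finset.mem_sdiff] at hp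
      obtain ⟨⟨hp1, hp2⟩, hp3⟩ := hp
      obtain ⟨a, ha, rfl⟩ := mem_arcsZ.mp hp1
      rw [Finset.mem_image]
      rcases C.trichotomy ha hp2 with h | ⟨i, hi, g1, g2, g4⟩ | ⟨v, hv, g1, g2, g4, g5, g6⟩
      · exact h
      · exfalso
        have hne : s(a, mate Q F ω a) ≠ p₀ := fun hh => hG a ha hh i hi g1 g2
        rw [hwp _ hne, wA_eq ψ (C.Z_F ha)] at hp3
        have := C.nat i hi ω a ha g1 g2
        rw [← g4] at this
        linarith
      · exfalso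
        have hne : s(a, mate Q F ω a) ≠ p₀ := fun hh => hB a ha hh v hv (C.bS_B hv ha g1) g2
        rw [hwp _ hne, wA_eq ψ (C.Z_F ha)] at hp3
        rcases C.spec v hv ω a ha g1 g2 with h | h | h
        · exact g5 h
        · exact g6 h
        · rw [← g4] at h
          linarith
    exact (Finset.card_le_card hsub).trans Finset.card_image_le
  have hrest : ∏ p ∈ arcsZ Q F Z ω \ U, w p ≤
      Real.sqrt 3 ^ (arcsZ Q F Z ω \ U).card * (2 / Real.sqrt 3) ^ C.K ω := by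
    have e1 : ∀ p ∈ arcsZ Q F Z ω \ U, w p ≤
        Real.sqrt 3 * (if Real.sqrt 3 < w p then 2 / Real.sqrt 3 else 1) := by
      intro p hp
      obtain ⟨a, ha, rfl⟩ := mem_arcsZ.mp (Finset.mem_sdiff.mp hp).1
      split_ifs with h
      · rw [mul_div_cancel₀ _ h3.ne']
        by_cases hne : s(a, mate Q F ω a) = p₀
        · rw [hw]
          simp only
          rw [if_pos hne]
        · rw [hwp _ hne, wA_eq ψ (C.Z_F ha)]
          exact abs_wt_le ψ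
      · rw [mul_one]
        exact not_lt.mp h
    refine (Finset.prod_le_prod (fun p _ => hw0 p) e1).trans ?_
    rw [Finset.prod_mul_distrib, Finset.prod_const]
    refine mul_le_mul_of_nonneg_left ?_ (by positivity)
    rw [Finset.prod_ite, Finset.prod_const, Finset.prod_const_one, mul_one]
    exact pow_le_pow_right₀ hq hBcard
  rw [e0, ← Finset.prod_sdiff hUa, hprodU]
  have hcard : (arcsZ Q F Z ω).card = (arcsZ Q F Z ω \ U).card + U.card := by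
    rw [Finset.card_sdiff_add_card_eq_card hUa]
  rw [hcard, pow_add]
  have hT : 0 ≤ ∏ v ∈ C.S, C.t v ^ C.N v ω :=
    Finset.prod_nonneg fun v hv => pow_nonneg (C.t_nonneg v hv) _
  calc (∏ p ∈ arcsZ Q F Z ω \ U, w p) *
        (Real.sqrt 3 ^ U.card * ∏ v ∈ C.S, C.t v ^ C.N v ω)
      ≤ (Real.sqrt 3 ^ (arcsZ Q F Z ω \ U).card * (2 / Real.sqrt 3) ^ C.K ω) *
          (Real.sqrt 3 ^ U.card * ∏ v ∈ C.S, C.t v ^ C.N v ω) :=
        mul_le_mul_of_nonneg_right hrest (by positivity)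
    _ = _ := by ring

/-- **The bound of the inserted weight by cells**, for an arrow off all cells. -/
theorem cells_abs_WZ1_le (hQ : NoLoop Q) (C : Cells Q F ψ Z ι κ) (ω : Φ → Bool) (heF : e ∈ dE Q F)
    (h1 : ∀ i ∈ C.I, e ∉ dE Q (C.G i)) (h2 : ∀ v ∈ C.S, e ∉ dE Q (C.B v)) :
    |WZ1 Q F ψ Z e ω| ≤ 2 * ((∏ v ∈ C.S, C.t v ^ C.N v ω) * (2 / Real.sqrt 3) ^ C.K ω) := by
  have hT : 0 ≤ ∏ v ∈ C.S, C.t v ^ C.N v ω :=
    Finset.prod_nonneg fun v hv => pow_nonneg (C.t_nonneg v hv) _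
  have hB0 : 0 ≤ (∏ v ∈ C.S, C.t v ^ C.N v ω) * (2 / Real.sqrt 3) ^ C.K ω := by positivity
  by_cases hm : ∀ a ∈ Z, mate Q F ω a ∈ Z
  · -- the arc of `e`
    have key : ∀ e', (∀ i ∈ C.I, e' ∉ dE Q (C.G i)) → (∀ v ∈ C.S, e' ∉ dE Q (C.B v)) →
        ∀ a ∈ Z, e' ∈ dst Q F ω a → |WZ1 Q F ψ Z e' ω| ≤
          (∏ v ∈ C.S, C.t v ^ C.N v ω) * (2 / Real.sqrt 3) ^ C.K ω := by
      intro e' g1 g2 a ha hea
      rw [WZ1_arc hQ C.Z_F hm ha hea, abs_mul, abs_div, abs_of_pos sqrt3_pos, Finset.abs_prod]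
      have h5 := cells_prod_le C ω ha hea g1 g2
      have hcard : (arcsZ Q F Z ω).card = ((arcsZ Q F Z ω).erase s(a, mate Q F ω a)).card + 1 := by
        have hp : s(a, mate Q F ω a) ∈ arcsZ Q F Z ω := mem_arcsZ.mpr ⟨a, ha, rfl⟩
        rw [Finset.card_erase_of_mem hp]
        have : 0 < (arcsZ Q F Z ω).card := Finset.card_pos.mpr ⟨_, hp⟩
        omega
      have h6 : ∏ p ∈ (arcsZ Q F Z ω).erase s(a, mate Q F ω a), |wB Q F ω ψ p| =
          (∏ p ∈ (arcsZ Q F Z ω).erase s(a, mate Q F ω a), |SixB.wA Q F ω ψ p|) /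
            Real.sqrt 3 ^ ((arcsZ Q F Z ω).erase s(a, mate Q F ω a)).card := by
        rw [← Finset.prod_const, ← Finset.prod_div_distrib]
        refine Finset.prod_congr rfl fun p _ => ?_
        unfold wB
        rw [abs_div, abs_of_pos sqrt3_pos]
      have h7 : |2 * Real.sin (agl Q F ω ψ (dst Q F ω a))| ≤ 2 := by
        rw [abs_mul, abs_two]
        have := Real.abs_sin_le_one (agl Q F ω ψ (dst Q F ω a))
        linarith
      have h8 : 0 ≤ ∏ p ∈ (arcsZ Q F Z ω).erase s(a, mate Q F ω a), |SixB.wA Q F ω ψ p| :=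
        Finset.prod_nonneg fun _ _ => abs_nonneg _
      rw [h6, div_mul_div_comm, ← pow_succ, ← hcard, div_le_iff₀ (pow_pos sqrt3_pos _)]
      refine (mul_le_mul_of_nonneg_left h7 h8).trans (h5.trans (le_of_eq ?_))
      ring
    by_cases ht : touch Z (dst Q F ω e)
    · obtain ⟨c, hc, h3⟩ := touch_iff.mp ht
      obtain ⟨hc1, hc2⟩ := mem_dst.mp hc
      rcases h3 with h3 | h3
      · have h4 : e ∈ dst Q F ω c := mem_dst.mpr ⟨heF, EqvGen.symm _ _ hc2⟩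
        have := key e h1 h2 c h3 h4
        linarith
      · have h4 : e.swap ∈ dst Q F ω c.swap :=
          mem_dst.mpr ⟨swap_mem_dE.mpr heF, srel_swap (EqvGen.symm _ _ hc2)⟩
        have h5 := key e.swap (fun i hi hh => h1 i hi (swap_mem_dE.mp hh))
          (fun v hv hh => h2 v hv (swap_mem_dE.mp hh)) c.swap h3 h4
        rw [WZ1_swap, abs_neg] at h5
        linarith
    · rw [WZ1_free hQ C.Z_F heF ht, abs_mul]
      have h7 : |2 * Real.sin ((tX Q F ω (dst Q F ω e) : ℝ) * (Real.pi / 12))| ≤ 2 := by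
        rw [abs_mul, abs_two]
        have := Real.abs_sin_le_one ((tX Q F ω (dst Q F ω e) : ℝ) * (Real.pi / 12))
        linarith
      calc _ ≤ ((∏ v ∈ C.S, C.t v ^ C.N v ω) * (2 / Real.sqrt 3) ^ C.K ω) * 2 :=
            mul_le_mul (C.abs_WZ_le ω) h7 (abs_nonneg _) hB0
        _ = _ := by ring
  · rw [WZ1_not hm, abs_zero]
    positivity

end Cells

/-! ## All boundary sides -/

theorem hz_bph (hc : c ∈ dE Q F) : hz ψ (bS Q F) c = bph Q F ψ c := by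
  have hs : ∀ a ∈ bS Q F, a.swap ∉ bS Q F := swap_Z (Finset.Subset.refl _)
  have hp := phZ_hz ψ hs
  by_cases h1 : Ini Q (F : Set Φ) c
  · rw [hp.inw c (mem_bS.mpr ⟨hc, h1⟩), bph_ini ψ h1]
  · by_cases h2 : Ter Q (F : Set Φ) c
    · have h3 := hp.outw c.swap (mem_bS.mpr ⟨swap_mem_dE.mpr hc, ini_swap.mpr h2⟩)
      rw [Prod.swap_swap] at h3
      rw [h3, bph_ter ψ hc h2]
    · rw [hp.one c (fun h => h1 (mem_bS.mp h).2) fun h => h2 (ini_swap.mp (mem_bS.mp h).2),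
        bph_in ψ h1 h2]

theorem sw_hz_bph {X : Finset (V × V)} (hX : X ∈ dstr Q F ω) :
    sw Q F ω (hz ψ (bS Q F)) X = sw Q F ω (bph Q F ψ) X :=
  sw_congr fun _ hc => hz_bph (dstr_sub hX hc)

theorem nW_WZ (hQ : NoLoop Q) (hL : ∀ X ∈ dstr Q F ω, (∀ a ∈ X, ¬ Ini Q (F : Set Φ) a) →
      tX Q F ω X = 4 ∨ tX Q F ω X = -4) : nW Q F ψ ω = WZ Q F ψ (bS Q F) ω := by
  have h1 := Zs_WU (ω := ω) (F := F) (ψ := ψ) hQ
  rw [Zs_WZ hQ ψ hL] at h1
  have h2 : WU Q F ψ ω = Real.sqrt 3 ^ (arcs Q F ω).card * WZ Q F ψ (bS Q F) ω := by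
    exact_mod_cast h1.symm
  have h3 := card_arcs (Q := Q) (F := F) (ω := ω) hQ
  have h4 : (bS Q F).card / 2 = (arcs Q F ω).card := by omega
  unfold nW
  rw [h2, h4, mul_div_cancel_left₀ _ (pow_pos sqrt3_pos _).ne']

theorem nW1_WZ1 (hQ : NoLoop Q) (he : e ∈ dE Q F)
    (hL : ∀ X ∈ dstr Q F ω, (∀ a ∈ X, ¬ Ini Q (F : Set Φ) a) →
      tX Q F ω X = 4 ∨ tX Q F ω X = -4) : nW1 Q F ψ e ω = WZ1 Q F ψ (bS Q F) e ω := by
  have hm : ∀ a ∈ bS Q F, mate Q F ω a ∈ bS Q F := fun a ha => mate_mem ha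
  have hs : ∀ a ∈ bS Q F, a.swap ∉ bS Q F := swap_Z (Finset.Subset.refl _)
  have h1 : Zr1 Q F ω (hz ψ (bS Q F)) (bS Q F) e = ((WU1 Q F ψ e ω : ℝ) : ℂ) * Complex.I := by
    rw [← Zs_WU1 hQ he, Zs_one hQ _ he]
    unfold Zr1
    congr 1
    · have h2 : ∏ U ∈ (RU Q F ω (bS Q F)).erase (usE Q F ω e),
          ∑ X ∈ U, sw Q F ω (hz ψ (bS Q F)) X =
          ∏ U ∈ (RU Q F ω (bS Q F)).erase (usE Q F ω e), ∑ X ∈ U, sw Q F ω (bph Q F ψ) X := by
        refine Finset.prod_congr rfl fun U hU => Finset.sum_congr rfl fun X hX => ?_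
        obtain ⟨a, ha, -, rfl⟩ := mem_RU (Finset.mem_of_mem_erase hU)
        refine sw_hz_bph ?_
        unfold usE at hX
        rw [Finset.mem_insert, Finset.mem_singleton] at hX
        rcases hX with rfl | rfl
        · exact dst_mem_dstr ha
        · exact dst_mem_dstr (swap_mem_dE.mpr ha)
      rw [h2]
      apply Finset.prod_subset (Finset.erase_subset_erase _ RU_sub)
      intro U hU hU'
      obtain ⟨h3, h4⟩ := Finset.mem_erase.mp hU
      obtain ⟨a, ha, rfl⟩ := mem_ust.mp h4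
      have ht : ¬ touch (bS Q F) (dst Q F ω a) := fun ht =>
        hU' (Finset.mem_erase.mpr ⟨h3, usE_mem_RU ha ht⟩)
      have hcl : ∀ b ∈ dst Q F ω a, ¬ Ini Q (F : Set Φ) b := fun b hb hb' =>
        ht (touch_iff.mpr ⟨b, hb, Or.inl (mem_bS.mpr ⟨(mem_dst.mp hb).1, hb'⟩)⟩)
      have h5 := sum_one (ω := ω) hQ (phZ_hz ψ hs) ha ht (hL _ (dst_mem_dstr ha) hcl)
      unfold usE at h5
      rw [← h5]
      refine Finset.sum_congr rfl fun X hX => ?_
      rw [Finset.mem_insert, Finset.mem_singleton] at hX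
      rcases hX with rfl | rfl
      · exact (sw_hz_bph (dst_mem_dstr ha)).symm
      · exact (sw_hz_bph (dst_mem_dstr (swap_mem_dE.mpr ha))).symm
    · unfold swm
      rw [sw_hz_bph (dst_mem_dstr he), sw_hz_bph (dst_mem_dstr (swap_mem_dE.mpr he))]
  rw [WZ1_of hm, h1, Complex.mul_I_im, Complex.ofReal_re]
  rfl

section Cells

variable {ι κ : Type} [DecidableEq ι] [DecidableEq κ]

theorem cells_abs_nW1_le (hQ : NoLoop Q) (C : Cells Q F ψ (bS Q F) ι κ) (ω : Φ → Bool)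
    (hL : ∀ X ∈ dstr Q F ω, (∀ a ∈ X, ¬ Ini Q (F : Set Φ) a) →
      tX Q F ω X = 4 ∨ tX Q F ω X = -4) (heF : e ∈ dE Q F)
    (h1 : ∀ i ∈ C.I, e ∉ dE Q (C.G i)) (h2 : ∀ v ∈ C.S, e ∉ dE Q (C.B v)) :
    |nW1 Q F ψ e ω| ≤ 2 * ((∏ v ∈ C.S, C.t v ^ C.N v ω) * (2 / Real.sqrt 3) ^ C.K ω) := by
  rw [nW1_WZ1 hQ heF hL]
  exact cells_abs_WZ1_le hQ C ω heF h1 h2

theorem cells_abs_nW_le (hQ : NoLoop Q) (C : Cells Q F ψ (bS Q F) ι κ) (ω : Φ → Bool)
    (hL : ∀ X ∈ dstr Q F ω, (∀ a ∈ X, ¬ Ini Q (F : Set Φ) a) →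
      tX Q F ω X = 4 ∨ tX Q F ω X = -4) :
    |nW Q F ψ ω| ≤ (∏ v ∈ C.S, C.t v ^ C.N v ω) * (2 / Real.sqrt 3) ^ C.K ω := by
  rw [nW_WZ hQ hL]
  exact C.abs_WZ_le ω

end Cells

end

end Pool.Agent.SixB.Rel
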