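import Pool.Agent.Lib.SixB.S3WZMap
import Pool.Agent.Lib.SixB.S3WZ3
import Pool.Agent.Lib.SixB.S3EmbD
import Pool.Agent.Lib.SixB.S3HDp
import Pool.Agent.Lib.SixB.S3Good

/-!
# 6BD step 3.8 (R18): the polygon of a slab inside its environment

* `WM.WZ1_map`, `WM.av_WZ1`: the weight with one arrow inserted under a map of complexes (`S3WZMap` for `WZ`).
* `S.nuD`, `S.phD`: vertex map and face map of the polygon `S.D` into the environment; `Slb.Ok.chartD`:
  `QChart ZQ (S.env W 0 0).Q S.D S.nuD S.phD 0`; `Slb.Ok.imageD`: the image is `S.G 0`.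
* `Slb.Ok.bS_G0`, `Slb.Ok.phG_map`: boundary sides and phases; `Slb.Ok.av_WZ_D`, `Slb.Ok.av_WZ1_D`: the means over
  `S.G 0` with the phases `S.phG 0` are the means over `S.D` with the phases `S.ψ`.
* `mv_nuD`: sides in the rows of the slab are base sides.
-/

set_option autoImplicit false
set_option linter.unusedSectionVars false

namespace Pool.Agent.SixB

open Pool.Agent.Perc.Q Pool.Agent.Perc Relation Finset
open Pool.Agent.SixB.Rel (QChart QMap WZ1 Zr Zr1 RU touch prs hz)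

noncomputable section

namespace WM

variable {V Φ V' Φ' : Type} [DecidableEq V] [DecidableEq Φ] [DecidableEq V'] [DecidableEq Φ']
variable {Q : QC V Φ} {Q' : QC V' Φ'} {F : Finset Φ} {ν : V → V'} {φ : Φ → Φ'} {ω : Φ' → Bool}
  {a b e : V × V} {Z P : Finset (V × V)}

/-- the side `e` may be added to the relevant sides -/
theorem Zr1_insert {ω : Φ → Bool} {h : V × V → ℂ} (he : e ∈ dE Q F) :
    Zr1 Q F ω h (insert e P) e = Zr1 Q F ω h P e := by
  unfold Zr1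
  congr 1
  have key : (RU Q F ω (insert e P)).erase (usE Q F ω e) = (RU Q F ω P).erase (usE Q F ω e) := by
    ext U
    rw [Finset.mem_erase, Finset.mem_erase]
    constructor
    · rintro ⟨h1, h2⟩
      refine ⟨h1, ?_⟩
      obtain ⟨X, hX, rfl⟩ := Finset.mem_image.mp h2
      obtain ⟨h3, h4⟩ := Finset.mem_filter.mp hX
      refine Finset.mem_image_of_mem _ (Finset.mem_filter.mpr ⟨h3, ?_⟩)
      obtain ⟨a, ha, h5⟩ := Rel.touch_iff.mp h4
      obtain ⟨c, hc, rfl⟩ := mem_dstr.mp h3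
      have hac : dst Q F ω c = dst Q F ω a := dst_eq (mem_dst.mp ha).2
      rcases h5 with h5 | h5
      · rcases Finset.mem_insert.mp h5 with rfl | h6
        · exfalso
          apply h1
          rw [Rel.prs_dst]
          unfold usE
          rw [hac, dst_eq (srel_swap (mem_dst.mp ha).2)]
        · exact Rel.touch_iff.mpr ⟨a, ha, Or.inl h6⟩
      · rcases Finset.mem_insert.mp h5 with h6 | h6
        · exfalso
          apply h1
          rw [Rel.prs_dst]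
          have h7 : a = e.swap := by rw [← h6, Prod.swap_swap]
          have h8 : usE Q F ω c = usE Q F ω a := by
            unfold usE
            rw [hac, dst_eq (srel_swap (mem_dst.mp ha).2)]
          rw [h8, h7, usE_swap]
        · exact Rel.touch_iff.mpr ⟨a, ha, Or.inr h6⟩
    · rintro ⟨h1, h2⟩
      exact ⟨h1, Rel.RU_mono (Finset.subset_insert _ _) h2⟩
  rw [key]

theorem Zr1_map (hQ : NoLoop Q) (hQ' : NoLoop Q') (H : QChart Q Q' F ν φ 0) {h : V × V → ℂ}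
    {h' : V' × V' → ℂ} (hh : ∀ a ∈ dE Q F, h' (Prod.map ν ν a) = h a) (hP : P ⊆ dE Q F)
    (he : e ∈ dE Q F) :
    Zr1 Q' (F.image φ) ω h' (P.image (Prod.map ν ν)) (Prod.map ν ν e) =
      Zr1 Q F (fun f => ω (φ f)) h P e := by
  have he' : Prod.map ν ν e ∈ dE Q' (F.image φ) := by
    rw [dE_map H]
    exact Finset.mem_image_of_mem _ he
  rw [← Zr1_insert he, ← Zr1_insert he',
    ← Rel.Zr_one hQ h he (Rel.touch_of_mem he (Or.inl (Finset.mem_insert_self _ _))),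
    ← Rel.Zr_one hQ' h' he' (Rel.touch_of_mem he' (Or.inl (Finset.mem_insert_self _ _))),
    ← Finset.image_insert]
  refine (toMap H ω).Zr_map (fun a ha => ?_) ?_
  · rw [hh a ha]
    congr 1
    unfold sgE
    by_cases h1 : a = e.swap
    · rw [if_pos h1, if_pos (by rw [h1]; rfl)]
    · rw [if_neg h1, if_neg]
      intro h2
      exact h1 (side_inj H ha (swap_mem_dE.mpr he) h2)
  · intro c hc
    rcases Finset.mem_insert.mp hc with rfl | hc
    · exact he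
    · exact hP hc

theorem hz_map (H : QChart Q Q' F ν φ 0) (hZ : Z ⊆ bS Q F) {ψ : V × V → ℝ} {ψ' : V' × V' → ℝ}
    (hψ : ∀ a ∈ Z, ψ' (Prod.map ν ν a) = ψ a) (ha : a ∈ dE Q F) :
    hz ψ' (Z.image (Prod.map ν ν)) (Prod.map ν ν a) = hz ψ Z a := by
  have key : ∀ {b : V × V}, b ∈ dE Q F → (Prod.map ν ν b ∈ Z.image (Prod.map ν ν) ↔ b ∈ Z) := by
    intro b hb
    rw [Finset.mem_image]
    constructor
    · rintro ⟨c, hc, h1⟩
      exact side_inj H (mem_bS.mp (hZ hc)).1 hb h1 ▸ hc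
    · intro h1
      exact ⟨b, h1, rfl⟩
  have hs : (Prod.map ν ν a).swap = Prod.map ν ν a.swap := rfl
  unfold hz
  by_cases h1 : a ∈ Z
  · rw [if_pos h1, if_pos ((key ha).mpr h1), hψ a h1]
  · rw [if_neg h1, if_neg fun h2 => h1 ((key ha).mp h2), hs]
    by_cases h2 : a.swap ∈ Z
    · rw [if_pos h2, if_pos ((key (swap_mem_dE.mpr ha)).mpr h2), hψ _ h2]
    · rw [if_neg h2, if_neg fun h3 => h2 ((key (swap_mem_dE.mpr ha)).mp h3)]

/-- **The weight with one arrow inserted.** -/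
theorem WZ1_map (hQ : NoLoop Q) (hQ' : NoLoop Q') (H : QChart Q Q' F ν φ 0) (hZ : Z ⊆ bS Q F)
    {ψ : V × V → ℝ} {ψ' : V' × V' → ℝ} (hψ : ∀ a ∈ Z, ψ' (Prod.map ν ν a) = ψ a)
    (he : e ∈ dE Q F) :
    WZ1 Q' (F.image φ) ψ' (Z.image (Prod.map ν ν)) (Prod.map ν ν e) ω =
      WZ1 Q F ψ Z e (fun f => ω (φ f)) := by
  by_cases hm : ∀ a ∈ Z, mate Q F (fun f => ω (φ f)) a ∈ Z
  · rw [Rel.WZ1_of ((mates_map (ω := ω) H hZ).mpr hm), Rel.WZ1_of hm,
      Zr1_map hQ hQ' H (fun a ha => hz_map H hZ hψ ha) (fun a ha => (mem_bS.mp (hZ ha)).1) he,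
      Finset.card_image_of_injOn]
    intro x hx y hy hxy
    exact side_inj H (mem_bS.mp (hZ (by exact_mod_cast hx))).1
      (mem_bS.mp (hZ (by exact_mod_cast hy))).1 hxy
  · rw [Rel.WZ1_not fun h => hm ((mates_map (ω := ω) H hZ).mp h), Rel.WZ1_not hm]

theorem av_WZ1 (hQ : NoLoop Q) (hQ' : NoLoop Q') (H : QChart Q Q' F ν φ 0) (hZ : Z ⊆ bS Q F)
    {ψ : V × V → ℝ} {ψ' : V' × V' → ℝ} (hψ : ∀ a ∈ Z, ψ' (Prod.map ν ν a) = ψ a)
    (he : e ∈ dE Q F) :
    av (F.image φ) (WZ1 Q' (F.image φ) ψ' (Z.image (Prod.map ν ν)) (Prod.map ν ν e)) =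
      av F (WZ1 Q F ψ Z e) :=
  av_map H (fun _ => WZ1_map hQ hQ' H hZ hψ he) Rel.dep_WZ1

end WM

/-! ## The polygon of a slab -/

namespace Slb

variable (S : Slb)

/-- vertex map of the polygon into the environment -/
def nuD (v : ℤ × ℤ) : Option Bool × (ℤ × ℤ) :=
  (Emb.shV (S.env ∅ 0 0) S.x1 S.x2 (S.yc - S.a) (S.yc + S.a) v, v)

/-- face map of the polygon into the environment -/
def phD (f : ℤ × ℤ) : Option Bool × (ℤ × ℤ) := (Emb.shF (S.env ∅ 0 0) f, f)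

variable {S} {W : Finset (ℤ × ℤ)}

/-- the chart of the polygon in the environment with a large window -/
theorem Ok.chartF (h : S.Ok) (hW : SixB.slab S.x1 S.x2 (S.yc - S.a) (S.yc + S.a) ⊆ W) :
    ∀ f ∈ S.D, S.phD f ∈ (S.env W 0 0).F := fun _ hf => Emb.mem_F (h.eData hW) hf

/-- **The chart of the polygon in the environment.** -/
theorem Ok.chartD (h : S.Ok) (W : Finset (ℤ × ℤ)) : QChart ZQ (S.env W 0 0).Q S.D S.nuD S.phD 0 where
  inj := fun _ _ _ _ _ _ h => (Prod.mk.inj h).2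
  cor := fun f hf k => by
    have h1 := Emb.cor_D (h.eData (W := SixB.slab S.x1 S.x2 (S.yc - S.a) (S.yc + S.a))
      (Finset.Subset.refl _)) hf k
    rw [add_zero]
    exact h1

/-- **The image of the polygon.** -/
theorem Ok.imageD (h : S.Ok) : S.D.image S.phD = S.G 0 := by
  have hE := h.eData (W := SixB.slab S.x1 S.x2 (S.yc - S.a) (S.yc + S.a)) (Finset.Subset.refl _)
  have hU : (S.env (SixB.slab S.x1 S.x2 (S.yc - S.a) (S.yc + S.a)) 0 0).U = S.Up := shF_zero _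
  have hL : (S.env (SixB.slab S.x1 S.x2 (S.yc - S.a) (S.yc + S.a)) 0 0).L = S.Lo := shF_zero _
  have hx := h.hx
  have hS : ∀ f : ℤ × ℤ, f ∈ S.strip 0 ↔ f ∈ SixB.slab S.x1 S.x2 (S.yc - S.a) (S.yc + S.a) := by
    intro f
    rw [mem_strip, mem_RF]
    push_cast
    rw [sub_zero, add_zero]
  have hsh : ∀ f, Emb.shF (S.env ∅ 0 0) f =
      Emb.shF (S.env (SixB.slab S.x1 S.x2 (S.yc - S.a) (S.yc + S.a)) 0 0) f := fun f => rfl
  ext ⟨s, f⟩
  rw [Finset.mem_image, mem_G]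
  constructor
  · rintro ⟨g, hg, h1⟩
    obtain ⟨h2, rfl⟩ := Prod.mk.inj h1
    rw [hsh] at h2
    simp only
    rcases Emb.mem_cases hE hg with ⟨a1, -⟩ | ⟨a1, a2, -⟩ | ⟨a1, a2, a3⟩
    · refine Or.inr (Or.inl ⟨?_, hU ▸ a1⟩)
      rw [← h2]
      unfold Emb.shF
      rw [if_pos a1]
    · refine Or.inr (Or.inr ⟨?_, hL ▸ a1⟩)
      rw [← h2]
      unfold Emb.shF
      rw [if_neg a2, if_pos a1]
    · refine Or.inl ⟨?_, (hS _).mpr a1⟩
      rw [← h2]
      unfold Emb.shF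
      rw [if_neg a2, if_neg a3]
  · have hsub := slab_sub hE.win hE.h1 hE.h3
    rintro (⟨h1, h2⟩ | ⟨h1, h2⟩ | ⟨h1, h2⟩)
    · simp only at h1 h2
      subst h1
      have h3 := (hS _).mp h2
      refine ⟨f, hsub h3, Prod.ext ?_ rfl⟩
      show Emb.shF (S.env ∅ 0 0) f = none
      rw [hsh]
      rcases Emb.mem_cases hE (hsub h3) with ⟨a1, a2, a3⟩ | ⟨a1, a2, a3⟩ | ⟨a1, a2, a3⟩
      · exact absurd h3 a3
      · exact absurd h3 a3
      · unfold Emb.shF
        rw [if_neg a2, if_neg a3]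
    · simp only at h1 h2
      subst h1
      rw [← hU] at h2
      refine ⟨f, Emb.sub_U hE h2, Prod.ext ?_ rfl⟩
      show Emb.shF (S.env ∅ 0 0) f = some true
      rw [hsh]
      unfold Emb.shF
      rw [if_pos h2]
    · simp only at h1 h2
      subst h1
      rw [← hL] at h2
      refine ⟨f, Emb.sub_L hE h2, Prod.ext ?_ rfl⟩
      show Emb.shF (S.env ∅ 0 0) f = some false
      rw [hsh]
      rcases Emb.mem_cases hE (Emb.sub_L hE h2) with ⟨a1, a2, -⟩ | ⟨a1, a2, a3⟩ | ⟨a1, a2, a3⟩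
      · exact absurd h2 a2
      · unfold Emb.shF
        rw [if_neg a2, if_pos a1]
      · exact absurd h2 a3

/-- the boundary sides of `S.G 0` -/
theorem Ok.bS_G0 (h : S.Ok) (W : Finset (ℤ × ℤ)) :
    bS (S.env W 0 0).Q (S.G 0) = (bS ZQ S.D).image (Prod.map S.nuD S.nuD) := by
  rw [← h.imageD]
  exact WM.bS_map (h.chartD W)

/-- the vertices of the closed slab are base vertices -/
theorem nuD_slab {v : ℤ × ℤ} (h1 : S.x1 ≤ v.1) (h2 : v.1 ≤ S.x2) (h3 : S.yc - S.a ≤ v.2)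
    (h4 : v.2 ≤ S.yc + S.a) : S.nuD v = (none, v) := by
  unfold nuD Emb.shV
  rw [if_pos ⟨h1, h2, h3, h4⟩]

/-- **The phases.** -/
theorem Ok.phG_map (h : S.Ok) {a : (ℤ × ℤ) × (ℤ × ℤ)} (ha : a ∈ bS ZQ S.D) :
    S.phG 0 (Prod.map S.nuD S.nuD a) = S.ψ a := by
  have hE := h.eData (W := SixB.slab S.x1 S.x2 (S.yc - S.a) (S.yc + S.a)) (Finset.Subset.refl _)
  have hs := h.slab
  have hk := h.hak
  have hapos := h.ha
  obtain ⟨f, hf, k, rfl⟩ := exists_sd_of_bS ha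
  have hi := (mem_bS.mp ha).2
  by_cases hfS : f ∈ SixB.slab S.x1 S.x2 (S.yc - S.a) (S.yc + S.a)
  · obtain ⟨fx, fy⟩ := f
    rw [mem_RF] at hfS
    simp only at hfS
    rcases Emb.corner_cases (fx, fy) k with ⟨rfl, -⟩ | ⟨rfl, -⟩ | ⟨rfl, -⟩ | ⟨rfl, -⟩
    · exfalso
      refine hi (fx, fy - 1) (hs.sub _ _ (by omega) (by omega) (by omega) (by omega)) 2 ?_
      rw [sd_ZQ0]
      show _ = (ZQ.c (fx, fy - 1) (2 + 1), ZQ.c (fx, fy - 1) 2)
      have e1 : ZQ.c (fx, fy - 1) (2 + 1) = (fx, fy - 1 + 1) := rfl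
      have e2 : ZQ.c (fx, fy - 1) 2 = (fx + 1, fy - 1 + 1) := rfl
      rw [e1, e2, sub_add_cancel]
    · have hx : fx + 1 = S.x2 := by
        by_contra hne
        refine hi (fx + 1, fy) (hs.sub _ _ (by omega) (by omega) (by omega) (by omega)) 3 ?_
        rfl
      have e : sd ZQ (fx, fy) 1 = ((S.x2, fy), (S.x2, fy + 1)) := by
        show ((fx + 1, fy), (fx + 1, fy + 1)) = _
        rw [hx]
      rw [e, h.right fy (by omega) (by omega)]
      have hxx := hs.hx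
      have n1 : S.nuD (S.x2, fy) = (none, (S.x2, fy)) :=
        nuD_slab (by simp only; omega) le_rfl (by simp only; omega) (by simp only; omega)
      have n2 : S.nuD (S.x2, fy + 1) = (none, (S.x2, fy + 1)) :=
        nuD_slab (by simp only; omega) le_rfl (by simp only; omega) (by simp only; omega)
      unfold phG
      rw [Prod.map_apply, n1, n2]
      simp
    · exfalso
      refine hi (fx, fy + 1) (hs.sub _ _ (by omega) (by omega) (by omega) (by omega)) 0 ?_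
      rw [sd_ZQ2]
      rfl
    · have hx : fx = S.x1 := by
        by_contra hne
        refine hi (fx - 1, fy) (hs.sub _ _ (by omega) (by omega) (by omega) (by omega)) 1 ?_
        show ((fx, fy + 1), (fx, fy)) = ((fx - 1 + 1, fy + 1), (fx - 1 + 1, fy))
        rw [sub_add_cancel]
      have e : sd ZQ (fx, fy) 3 = ((S.x1, fy + 1), (S.x1, fy)) := by
        show ((fx, fy + 1), (fx, fy)) = _
        rw [hx]
      rw [e, h.left fy (by omega) (by omega)]
      have hxx := hs.hx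
      have n1 : S.nuD (S.x1, fy) = (none, (S.x1, fy)) :=
        nuD_slab le_rfl (by simp only; omega) (by simp only; omega) (by simp only; omega)
      have n2 : S.nuD (S.x1, fy + 1) = (none, (S.x1, fy + 1)) :=
        nuD_slab le_rfl (by simp only; omega) (by simp only; omega) (by simp only; omega)
      unfold phG
      rw [Prod.map_apply, n1, n2]
      have hne : ¬ S.x1 = S.x2 := by omega
      simp [hne]
  · have h1 := Emb.ends hE hf hfS hi
    have h2 := hE.emb_psi hf hfS hi S.mu S.ρr S.ml S.ρl S.ψ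
    have e : hE.emb.side (sd ZQ f k) = Prod.map S.nuD S.nuD (sd ZQ f k) := rfl
    rw [e] at h2
    have h3 : S.phE (Prod.map S.nuD S.nuD (sd ZQ f k)) = S.ψ (sd ZQ f k) := by
      unfold phE
      rw [ph_zero]
      exact h2
    have g1 : (Prod.map S.nuD S.nuD (sd ZQ f k)).1.1 =
      Emb.shV (S.env (SixB.slab S.x1 S.x2 (S.yc - S.a) (S.yc + S.a)) 0 0) S.x1 S.x2 (S.yc - S.a)
        (S.yc + S.a) (ZQ.c f k) := rfl
    have g2 : (Prod.map S.nuD S.nuD (sd ZQ f k)).2.1 =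
      Emb.shV (S.env (SixB.slab S.x1 S.x2 (S.yc - S.a) (S.yc + S.a)) 0 0) S.x1 S.x2 (S.yc - S.a)
        (S.yc + S.a) (ZQ.c f (k + 1)) := rfl
    have hno : ¬ ((Prod.map S.nuD S.nuD (sd ZQ f k)).1.1 = none ∧
        (Prod.map S.nuD S.nuD (sd ZQ f k)).2.1 = none) := by
      rw [g1, g2]
      rintro ⟨b1, b2⟩
      rw [b1, b2] at h1
      simp at h1
    unfold phG
    rw [if_neg fun c => hno ⟨c.1, c.2.1⟩, if_neg fun c => hno ⟨c.1, c.2.1⟩, h3]

theorem Ok.phD_G (h : S.Ok) {f : ℤ × ℤ} (hf : f ∈ S.D) : S.phD f ∈ S.G 0 := by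
  rw [← h.imageD]
  exact Finset.mem_image_of_mem _ hf

/-- sides in the rows of the slab are base sides -/
theorem mv_nuD {x₀ x₁ y₀ y₁ : ℤ} (hx₀ : S.x1 ≤ x₀) (hx₁ : x₁ ≤ S.x2) (hy₀ : S.yc - S.a ≤ y₀)
    (hy₁ : y₁ ≤ S.yc + S.a) {a : (ℤ × ℤ) × (ℤ × ℤ)} (ha : a ∈ dE ZQ (RF x₀ x₁ y₀ y₁)) :
    PC.mv S.nuD a = ((none, a.1), (none, a.2)) := by
  have key : ∀ f ∈ RF x₀ x₁ y₀ y₁, ∀ k, S.nuD (ZQ.c f k) = (none, ZQ.c f k) := by
    intro f hf k
    rw [mem_RF] at hf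
    rcases Emb.corner_cases f k with ⟨-, h6⟩ | ⟨-, h6⟩ | ⟨-, h6⟩ | ⟨-, h6⟩ <;> rw [h6] <;>
      refine nuD_slab ?_ ?_ ?_ ?_ <;> (try simp only) <;> omega
  obtain ⟨f, hf, k, h | h⟩ := mem_dE.mp ha
  · rw [h]
    exact Prod.ext (key f hf k) (key f hf (k + 1))
  · rw [h]
    exact Prod.ext (key f hf (k + 1)) (key f hf k)

/-- the mean of the weight -/
theorem Ok.av_WZ_D (h : S.Ok) (W : Finset (ℤ × ℤ)) :
    av (S.G 0) (WZ (S.env W 0 0).Q (S.G 0) (S.phG 0) (bS (S.env W 0 0).Q (S.G 0))) =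
      av S.D (WZ ZQ S.D S.ψ (bS ZQ S.D)) := by
  rw [h.bS_G0, ← h.imageD]
  exact WM.av_WZ (h.chartD W) (Finset.Subset.refl _) fun a ha => h.phG_map ha

/-- the mean of the numerator -/
theorem Ok.av_WZ1_D (h : S.Ok) (W : Finset (ℤ × ℤ)) {e : (ℤ × ℤ) × (ℤ × ℤ)} (he : e ∈ dE ZQ S.D) :
    av (S.G 0) (WZ1 (S.env W 0 0).Q (S.G 0) (S.phG 0) (bS (S.env W 0 0).Q (S.G 0))
      (PC.mv S.nuD e)) = av S.D (WZ1 ZQ S.D S.ψ (bS ZQ S.D) e) := by
  rw [h.bS_G0, ← h.imageD]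
  exact WM.av_WZ1 Tilt.zq_noLoop (Rel.noLoop_env _) (h.chartD W) (Finset.Subset.refl _)
    (fun a ha => h.phG_map ha) he

end Slb

end

end Pool.Agent.SixB
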