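import Pool.Agent.Lib.SixB.S3HCmp
import Pool.Agent.Lib.SixB.S3HSpl

/-!
# 6BD step 3.8 (R18): packages for the comparison, the exact step from the environment to the slab with closed tubes

* `Up`, `Pk`: weight and insertion in a disc with the upper (and the lower) bound.
* `hg_mul`, `dep_hg`, `av_mul_split`.
* `exact_step`: on the event that the tubes are not crossed the environment and the slab with closed tubes have the same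
  mean height increments (`Spl.wz_split`, `Spl.wz1_split`, independence).
-/

set_option autoImplicit false
set_option linter.unusedSectionVars false

namespace Pool.Agent.SixB.HCmp

open Pool.Agent.Perc Pool.Agent.Perc.Q Relation
open Pool.Agent.SixB Pool.Agent.SixB.Tilt Pool.Agent.SixB.PC Pool.Agent.SixB.HDet
open Pool.Agent.SixB.Rel (QChart QMap WZ1 dep_WZ1)

noncomputable section

variable {V Φ : Type} [DecidableEq V] [DecidableEq Φ]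
variable {Q : QC V Φ} {F F₁ K₀ K₁ : Finset Φ} {ν : ℤ × ℤ → V} {φ : ℤ × ℤ → Φ} {L : Finset (ℤ × ℤ)}
  {ω ω' : Φ → Bool} {a b e : DZ} {z z' : VZ} {W Wp : (Φ → Bool) → ℝ} {τ τp : V × V → (Φ → Bool) → ℝ}
  {Bd Bd' : (Φ → Bool) → ℝ} {A A' : ℝ} {s : ℕ} {Dm : Set Φ}

/-! ## Packages -/

/-- weight and insertion in the disc `L` with the upper bound -/
structure Up (ν : ℤ × ℤ → V) (φ : ℤ × ℤ → Φ) (L : Finset (ℤ × ℤ)) (F : Finset Φ)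
    (W : (Φ → Bool) → ℝ) (τ : V × V → (Φ → Bool) → ℝ) (s : ℕ) (Dm : Set Φ) (A : ℝ)
    (Bd : (Φ → Bool) → ℝ) : Prop where
  dsk : DskI ν φ L W τ
  up : HSum.HUpper (LH.avSys F) s Dm Bd A
  hW : ∀ ω, |W ω| ≤ Bd ω
  hτ : ∀ ω, ∀ e ∈ dE ZQ L, ¬ Clo ZQ L (pb φ ω) e → |τ (mv ν e) ω| ≤ 2 * Bd ω

/-- weight and insertion in the disc `L` with the upper and the lower bound -/
structure Pk (ν : ℤ × ℤ → V) (φ : ℤ × ℤ → Φ) (L : Finset (ℤ × ℤ)) (F : Finset Φ)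
    (W : (Φ → Bool) → ℝ) (τ : V × V → (Φ → Bool) → ℝ) (s : ℕ) (Dm : Set Φ) (C0 c Pr : ℝ)
    (Bd : (Φ → Bool) → ℝ) : Prop extends Up ν φ L F W τ s Dm (C0 * Pr) Bd where
  low : c * Pr ≤ av F W
  c_pos : 0 < c
  Pr_pos : 0 < Pr
  C0_nonneg : 0 ≤ C0

theorem Up.nonneg (U : Up ν φ L F W τ s Dm A Bd) (ω : Φ → Bool) : 0 ≤ Bd ω :=
  (abs_nonneg _).trans (U.hW ω)

/-- another upper bound -/
theorem Up.mono (U : Up ν φ L F W τ s Dm A Bd) (hB : ∀ ω, Bd ω ≤ Bd' ω)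
    (hU : HSum.HUpper (LH.avSys F) s Dm Bd' A') : Up ν φ L F W τ s Dm A' Bd' where
  dsk := U.dsk
  up := hU
  hW ω := (U.hW ω).trans (hB ω)
  hτ ω e he hc := (U.hτ ω e he hc).trans (by linarith [hB ω])

/-- a factor between `0` and `1` which depends on the faces off the disc -/
theorem Up.mul (U : Up ν φ L F W τ s Dm A Bd) {c : (Φ → Bool) → ℝ}
    (hc : Dep ((L.image φ : Finset Φ) : Set Φ)ᶜ c) (h0 : ∀ ω, 0 ≤ c ω) (h1 : ∀ ω, c ω ≤ 1) :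
    Up ν φ L F (fun ω => c ω * W ω) (fun e ω => c ω * τ e ω) s Dm A Bd where
  dsk := U.dsk.mul hc
  up := U.up
  hW ω := by
    rw [abs_mul, abs_of_nonneg (h0 ω)]
    exact (mul_le_of_le_one_left (abs_nonneg _) (h1 ω)).trans (U.hW ω)
  hτ ω e he hcl := by
    show |c ω * τ (mv ν e) ω| ≤ _
    rw [abs_mul, abs_of_nonneg (h0 ω)]
    exact (mul_le_of_le_one_left (abs_nonneg _) (h1 ω)).trans (U.hτ ω e he hcl)

/-! ## Heights -/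

/-- a factor -/
theorem hg_mul (c : (Φ → Bool) → ℝ) (z : VZ) (ω : Φ → Bool) :
    hg (fun e ω => c ω * τ e ω) ν φ L z ω = c ω * hg τ ν φ L z ω := by
  unfold hg
  rw [Finset.mul_sum]
  refine Finset.sum_congr rfl fun U _ => ?_
  have h : HG.onX (fun e => c ω * τ (mv ν e) ω) (rep U) = c ω * HG.onX (fun e => τ (mv ν e) ω) (rep U) := by
    unfold HG.onX
    split_ifs
    · rfl
    · rw [mul_zero]
  rw [h]
  ring

theorem dep_hg {S : Set Φ} (hτ : ∀ e ∈ dE ZQ L, Dep S (τ (mv ν e)))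
    (hL : ((L.image φ : Finset Φ) : Set Φ) ⊆ S) (z : VZ) : Dep S (hg τ ν φ L z) := by
  intro ω ω' h
  have h' : ∀ f ∈ L, pb φ ω f = pb φ ω' f := fun f hf =>
    h (φ f) (hL (by exact_mod_cast Finset.mem_image_of_mem φ hf))
  have hu : ust ZQ L (pb φ ω) = ust ZQ L (pb φ ω') := by
    rw [← HG.uIn_self, ← HG.uIn_self (ω := pb φ ω')]
    exact HG.uIn_congr h'
  unfold hg
  rw [hu]
  refine Finset.sum_congr rfl fun U hU => ?_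
  congr 1
  unfold HG.onX
  by_cases hne : (rep U).Nonempty
  · rw [dif_pos hne, dif_pos hne]
    have hd := HG.rep_dstr hU
    exact hτ _ (dstr_of_mem hd hne.choose_spec).1 ω ω' h
  · rw [dif_neg hne, dif_neg hne]

/-- independence of two disjoint pieces -/
theorem av_mul_split (hF₁ : F₁ ⊆ F) {X Y : (Φ → Bool) → ℝ} (hX : Dep (F₁ : Set Φ) X)
    (hY : Dep ((F \ F₁ : Finset Φ) : Set Φ) Y) :
    av F (fun ω => X ω * Y ω) = av F₁ X * av (F \ F₁) Y := by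
  rw [av_indep' (S₁ := F₁) (S₂ := F \ F₁) Finset.disjoint_sdiff hX hY hF₁ Finset.sdiff_subset,
    av_dep hX hF₁, av_dep hY Finset.sdiff_subset]

/-! ## The exact step -/

section Exact

variable {Z : Finset (V × V)} {ψ ψ₁ ψ₂ : V × V → ℝ} {b0 b1 : (Φ → Bool) → ℝ}

/-- the weights on the event that the tubes are not crossed -/
theorem cut_W (D : Spl.Cut2 Q F F₁ K₀ K₁ Z ψ ψ₁ ψ₂) (h0 : ∀ ω, b0 ω = 0 ∨ b0 ω = 1)
    (h1 : ∀ ω, b1 ω = 0 ∨ b1 ω = 1)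
    (hE : ∀ ω, b0 ω = 0 → b1 ω = 0 → Spl.CutW Q F F₁ K₀ K₁ Z ψ ψ₁ ψ₂ ω) (ω : Φ → Bool) :
    ((1 - b0 ω) * (1 - b1 ω)) * WZ Q F ψ Z ω =
      ((1 - b0 ω) * WZ Q F₁ ψ₁ (bS Q F₁) ω) *
        ((1 - b1 ω) * WZ Q (F \ F₁) ψ₂ (Spl.Z₂ Q F F₁ Z) ω) := by
  rcases h0 ω with h | h
  · rcases h1 ω with h' | h'
    · rw [Spl.wz_split D (hE ω h h')]
      ring
    · rw [h']
      ring
  · rw [h]
    ring

theorem cut_W1 (hQ : NoLoop Q) (D : Spl.Cut2 Q F F₁ K₀ K₁ Z ψ ψ₁ ψ₂)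
    (h0 : ∀ ω, b0 ω = 0 ∨ b0 ω = 1) (h1 : ∀ ω, b1 ω = 0 ∨ b1 ω = 1)
    (hE : ∀ ω, b0 ω = 0 → b1 ω = 0 → Spl.CutW Q F F₁ K₀ K₁ Z ψ ψ₁ ψ₂ ω) {c : V × V}
    (hc : c ∈ dE Q K₀) (ω : Φ → Bool) :
    ((1 - b0 ω) * (1 - b1 ω)) * WZ1 Q F ψ Z c ω =
      ((1 - b1 ω) * WZ Q (F \ F₁) ψ₂ (Spl.Z₂ Q F F₁ Z) ω) *
        ((1 - b0 ω) * WZ1 Q F₁ ψ₁ (bS Q F₁) c ω) := by
  rcases h0 ω with h | h
  · rcases h1 ω with h' | h'
    · rw [Spl.wz1_split D (hE ω h h') hQ hc]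
      ring
    · rw [h']
      ring
  · rw [h]
    ring

/-- **The exact step.** -/
theorem exact_step (hQ : NoLoop Q) (D : Spl.Cut2 Q F F₁ K₀ K₁ Z ψ ψ₁ ψ₂)
    (h0 : ∀ ω, b0 ω = 0 ∨ b0 ω = 1) (h1 : ∀ ω, b1 ω = 0 ∨ b1 ω = 1)
    (d0 : Dep (F₁ : Set Φ) b0) (d1 : Dep ((F \ F₁ : Finset Φ) : Set Φ) b1)
    (hE : ∀ ω, b0 ω = 0 → b1 ω = 0 → Spl.CutW Q F F₁ K₀ K₁ Z ψ ψ₁ ψ₂ ω)
    (hL : ∀ e ∈ dE ZQ L, mv ν e ∈ dE Q K₀) (hLF : L.image φ ⊆ F₁)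
    (hne : av F (fun ω => ((1 - b0 ω) * (1 - b1 ω)) * WZ Q F ψ Z ω) ≠ 0) (z z' : VZ) :
    av F (fun ω => hg (fun e ω => ((1 - b0 ω) * (1 - b1 ω)) * WZ1 Q F ψ Z e ω) ν φ L z ω -
        hg (fun e ω => ((1 - b0 ω) * (1 - b1 ω)) * WZ1 Q F ψ Z e ω) ν φ L z' ω) /
      av F (fun ω => ((1 - b0 ω) * (1 - b1 ω)) * WZ Q F ψ Z ω) =
    av F₁ (fun ω => hg (fun e ω => (1 - b0 ω) * WZ1 Q F₁ ψ₁ (bS Q F₁) e ω) ν φ L z ω -
        hg (fun e ω => (1 - b0 ω) * WZ1 Q F₁ ψ₁ (bS Q F₁) e ω) ν φ L z' ω) /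
      av F₁ (fun ω => (1 - b0 ω) * WZ Q F₁ ψ₁ (bS Q F₁) ω) := by
  set Y₂ : (Φ → Bool) → ℝ := fun ω => (1 - b1 ω) * WZ Q (F \ F₁) ψ₂ (Spl.Z₂ Q F F₁ Z) ω with hY2
  have dY : Dep ((F \ F₁ : Finset Φ) : Set Φ) Y₂ := by
    intro ω ω' h
    rw [hY2]
    show (1 - b1 ω) * _ = (1 - b1 ω') * _
    rw [d1 ω ω' h, dep_WZ Spl.Z₂_sub ψ₂ ω ω' h]
  have dX : Dep (F₁ : Set Φ) (fun ω => (1 - b0 ω) * WZ Q F₁ ψ₁ (bS Q F₁) ω) := by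
    intro ω ω' h
    show (1 - b0 ω) * _ = (1 - b0 ω') * _
    rw [d0 ω ω' h, dep_WZ (Finset.Subset.refl _) ψ₁ ω ω' h]
  have dT : ∀ w : VZ, Dep (F₁ : Set Φ)
      (hg (fun e ω => (1 - b0 ω) * WZ1 Q F₁ ψ₁ (bS Q F₁) e ω) ν φ L w) := by
    intro w
    refine dep_hg (fun e _ => ?_) (by exact_mod_cast hLF) w
    intro ω ω' h
    show (1 - b0 ω) * _ = (1 - b0 ω') * _
    rw [d0 ω ω' h, dep_WZ1 ω ω' h]
  have eW : av F (fun ω => ((1 - b0 ω) * (1 - b1 ω)) * WZ Q F ψ Z ω) =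
      av F₁ (fun ω => (1 - b0 ω) * WZ Q F₁ ψ₁ (bS Q F₁) ω) * av (F \ F₁) Y₂ := by
    rw [← av_mul_split D.sub dX dY]
    exact av_congr fun T _ => cut_W D h0 h1 hE _
  have eT : ∀ (w : VZ) (ω : Φ → Bool),
      hg (fun e ω => ((1 - b0 ω) * (1 - b1 ω)) * WZ1 Q F ψ Z e ω) ν φ L w ω =
        hg (fun e ω => (1 - b0 ω) * WZ1 Q F₁ ψ₁ (bS Q F₁) e ω) ν φ L w ω * Y₂ ω := by
    intro w ω
    rw [mul_comm, ← hg_mul Y₂ w ω]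
    refine hg_congr (fun e he => ?_) w
    exact cut_W1 hQ D h0 h1 hE (hL e he) ω
  have eY : av F (fun ω => hg (fun e ω => ((1 - b0 ω) * (1 - b1 ω)) * WZ1 Q F ψ Z e ω) ν φ L z ω -
        hg (fun e ω => ((1 - b0 ω) * (1 - b1 ω)) * WZ1 Q F ψ Z e ω) ν φ L z' ω) =
      av F₁ (fun ω => hg (fun e ω => (1 - b0 ω) * WZ1 Q F₁ ψ₁ (bS Q F₁) e ω) ν φ L z ω -
        hg (fun e ω => (1 - b0 ω) * WZ1 Q F₁ ψ₁ (bS Q F₁) e ω) ν φ L z' ω) * av (F \ F₁) Y₂ := by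
    have dd : Dep (F₁ : Set Φ) (fun ω =>
        hg (fun e ω => (1 - b0 ω) * WZ1 Q F₁ ψ₁ (bS Q F₁) e ω) ν φ L z ω -
          hg (fun e ω => (1 - b0 ω) * WZ1 Q F₁ ψ₁ (bS Q F₁) e ω) ν φ L z' ω) := by
      intro ω ω' h
      show _ - _ = _ - _
      rw [dT z ω ω' h, dT z' ω ω' h]
    rw [← av_mul_split D.sub dd dY]
    refine av_congr fun T _ => ?_
    rw [eT, eT]
    ring
  have hY0 : av (F \ F₁) Y₂ ≠ 0 := by
    intro h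
    rw [eW, h, mul_zero] at hne
    exact hne rfl
  rw [eW, eY, mul_div_mul_right _ _ hY0]

end Exact

end

end Pool.Agent.SixB.HCmp
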