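import Pool.Agent.Lib.SixB.S3SlbG
import Pool.Agent.Lib.SixB.S3DChart
import Pool.Agent.Lib.SixB.S3HStp

/-!
# 6BD step 3.8 (R18): packages of the polygon in the plane as packages of the polygon inside the environment

* `av_inj`, `hupper_image`: averages and `HUpper` under an injective map of the faces.
* `up_push`, `pk_push`: the packages `HCmp.Up`, `HCmp.Pk` of a planar face set `D` in a disc `L` give the packages of
  its image under a chart, with the same constants.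
* `up_slab`, `pk_slab`: the case of the polygon `S.D` of a slab and `(E.Q, S.G 0, S.phG 0)`; `nuS`, `phS`: the chart of
  the window of the slab.
-/

set_option autoImplicit false
set_option linter.unusedSectionVars false
set_option linter.unusedVariables false

namespace Pool.Agent.SixB.SlbD

open Pool.Agent.Perc.Q Pool.Agent.Perc Pool.Agent.SixB
open Pool.Agent.SixB.MthD
open Pool.Agent.SixB.PC (mv pb)
open Pool.Agent.SixB.HCmp (Up Pk DskI)
open Pool.Agent.SixB.Rel (QChart Clo4 WZ1)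

noncomputable section

/-! ## Injective maps of the faces -/

section inj

variable {Φ Ψ : Type} [DecidableEq Φ] [DecidableEq Ψ] {S : Finset Φ} {φ : Φ → Ψ}

/-- averages under an injective map, any function -/
theorem av_inj (hφ : Function.Injective φ) (g : (Φ → Bool) → ℝ) :
    av (S.image φ) (fun ω => g (fun f => ω (φ f))) = av S g := by
  unfold av
  rw [Finset.card_image_of_injective _ hφ]
  congr 1
  rw [Finset.powerset_image, Finset.sum_image]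
  · refine Finset.sum_congr rfl fun T _ => ?_
    show g (fun f => ind (Finset.image φ T) (φ f)) = g (ind T)
    refine congrArg g ?_
    funext f
    unfold ind
    rw [decide_eq_decide, Finset.mem_image]
    constructor
    · rintro ⟨x, hx, hxf⟩
      rwa [← hφ hxf]
    · intro h
      exact ⟨f, h, rfl⟩
  · intro T _ T' _ h
    exact Finset.image_injective hφ h

open Classical in
/-- a configuration of `S` as a configuration of the image -/
def psh (S : Finset Φ) (φ : Φ → Ψ) (ω : Φ → Bool) (g : Ψ) : Bool :=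
  decide (∃ f ∈ S, φ f = g ∧ ω f = true)

theorem psh_ind (hφ : Function.Injective φ) {T : Finset Ψ} (hT : T ⊆ S.image φ) :
    psh S φ (fun f => ind T (φ f)) = ind T := by
  funext g
  unfold psh ind
  rw [decide_eq_decide]
  constructor
  · rintro ⟨f, -, rfl, h⟩
    exact of_decide_eq_true h
  · intro h
    obtain ⟨f, hf, rfl⟩ := Finset.mem_image.mp (hT h)
    exact ⟨f, hf, rfl, decide_eq_true h⟩

theorem dep_psh {α : Type} {Dm : Set Φ} {Dm' : Set Ψ} (hD : ∀ f ∈ S, φ f ∈ Dm' → f ∈ Dm)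
    {x : (Ψ → Bool) → α} (hx : Dep Dm' x) : Dep Dm (fun ω => x (psh S φ ω)) := by
  intro ω ω' h
  refine hx _ _ fun g hg => ?_
  unfold psh
  rw [decide_eq_decide]
  constructor
  · rintro ⟨f, hf, rfl, h1⟩
    exact ⟨f, hf, rfl, by rw [← h f (hD f hf hg)]; exact h1⟩
  · rintro ⟨f, hf, rfl, h1⟩
    exact ⟨f, hf, rfl, by rw [h f (hD f hf hg)]; exact h1⟩

/-- averages in the image, any function -/
theorem av_psh (hφ : Function.Injective φ) (g : (Ψ → Bool) → ℝ) :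
    av (S.image φ) g = av S (fun ω => g (psh S φ ω)) := by
  rw [← av_inj hφ]
  exact av_congr fun T hT => by rw [psh_ind hφ hT]

theorem pull_psh (hφ : Function.Injective φ) {ω : Φ → Bool} (hω : ∀ f, f ∉ S → ω f = false) :
    (fun f => psh S φ ω (φ f)) = ω := by
  funext f
  unfold psh
  by_cases h : ω f = true
  · rw [h, decide_eq_true_eq]
    refine ⟨f, ?_, rfl, h⟩
    by_contra hf
    rw [hω f hf] at h
    exact absurd h (by decide)
  · rw [Bool.not_eq_true] at h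
    rw [h, decide_eq_false_iff_not]
    rintro ⟨f', -, h1, h2⟩
    rw [hφ h1, h] at h2
    exact absurd h2 (by decide)

/-- **`HUpper` in the image.** -/
theorem hupper_image (hφ : Function.Injective φ) {s : ℕ} {Dm : Set Φ} {Dm' : Set Ψ}
    (hD : ∀ f ∈ S, φ f ∈ Dm' → f ∈ Dm) {Bd : (Φ → Bool) → ℝ} {A : ℝ}
    (h : HSum.HUpper (LH.avSys S) s Dm Bd A) :
    HSum.HUpper (LH.avSys (S.image φ)) s Dm' (fun ω => Bd (fun f => ω (φ f))) A := by
  intro x Z hx hZ hxD hZD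
  have h1 := h (fun ω => x (psh S φ ω)) (fun ω => Z (psh S φ ω)) (fun ω => hx _) (fun ω => hZ _)
    (dep_psh hD hxD) (dep_psh hD hZD)
  rw [LH.avSys_E, LH.avSys_E, LH.avSys_E] at h1 ⊢
  rw [av_psh hφ, av_psh hφ x, av_psh hφ (fun ω => Z ω ^ _)]
  refine le_trans (le_of_eq (av_congr fun T hT => ?_)) h1
  show Bd (fun f => psh S φ (ind T) (φ f)) * _ = Bd (ind T) * _
  rw [pull_psh hφ]
  intro f hf
  unfold ind
  rw [decide_eq_false_iff_not]
  exact fun h2 => hf (hT h2)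

end inj

/-! ## Transport of the packages -/

section push

variable {V Φ : Type} [DecidableEq V] [DecidableEq Φ] {Q : QC V Φ} {D L : Finset (ℤ × ℤ)}
  {ν ν' : ℤ × ℤ → V} {φ φ' : ℤ × ℤ → Φ} {ψ : (ℤ × ℤ) × (ℤ × ℤ) → ℝ} {ψ' : V × V → ℝ} {s : ℕ}
  {Dm : Set (ℤ × ℤ)} {Dm' : Set Φ} {A C0 c Pr : ℝ} {Bd : (ℤ × ℤ → Bool) → ℝ} {ω : Φ → Bool}

theorem WZ_push (H : QChart ZQ Q D ν φ 0) (hψ : ∀ a ∈ bS ZQ D, ψ' (Prod.map ν ν a) = ψ a) :
    WZ Q (D.image φ) ψ' (bS Q (D.image φ)) ω = WZ ZQ D ψ (bS ZQ D) (fun f => ω (φ f)) := by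
  rw [WM.bS_map H]
  exact WM.WZ_map H (Finset.Subset.refl _) hψ

theorem WZ1_push (hQ : NoLoop Q) (H : QChart ZQ Q D ν φ 0)
    (hψ : ∀ a ∈ bS ZQ D, ψ' (Prod.map ν ν a) = ψ a) {e : (ℤ × ℤ) × (ℤ × ℤ)} (he : e ∈ dE ZQ D) :
    WZ1 Q (D.image φ) ψ' (bS Q (D.image φ)) (mv ν e) ω =
      WZ1 ZQ D ψ (bS ZQ D) e (fun f => ω (φ f)) := by
  rw [WM.bS_map H]
  exact WM.WZ1_map Tilt.zq_noLoop hQ H (Finset.Subset.refl _) hψ he

/-- **The upper package under a chart.** -/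
theorem up_push (hQ : NoLoop Q) (H : QChart ZQ Q D ν φ 0) (hφ : Function.Injective φ)
    (hψ : ∀ a ∈ bS ZQ D, ψ' (Prod.map ν ν a) = ψ a) (hL : L ⊆ D) (H' : QChart ZQ Q L ν' φ' 0)
    (hν' : ∀ e ∈ dE ZQ L, mv ν' e = mv ν e) (hφ' : ∀ f ∈ L, φ' f = φ f)
    (hD : ∀ f ∈ D, φ f ∈ Dm' → f ∈ Dm)
    (U : Up (fun v => v) (fun f => f) L D (WZ ZQ D ψ (bS ZQ D)) (WZ1 ZQ D ψ (bS ZQ D)) s Dm A Bd) :
    Up ν' φ' L (D.image φ) (WZ Q (D.image φ) ψ' (bS Q (D.image φ)))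
      (WZ1 Q (D.image φ) ψ' (bS Q (D.image φ))) s Dm' A (fun ω => Bd (fun f => ω (φ f))) where
  dsk := DskI.of_ins (Rel.ins_WZ hQ (Finset.Subset.refl _) _) H' fun f hf => by
    rw [hφ' f hf]
    exact Finset.mem_image_of_mem _ (hL hf)
  up := hupper_image hφ hD U.up
  hW ω := by
    rw [WZ_push H hψ]
    exact U.hW _
  hτ ω e he hc := by
    rw [hν' e he, WZ1_push hQ H hψ (dE_sub hL he)]
    refine U.hτ _ e he fun h2 => hc ?_
    refine (clo_congr fun f hf => ?_).mp h2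
    show ω (φ f) = ω (φ' f)
    rw [hφ' f hf]

/-- **The package under a chart.** -/
theorem pk_push (hQ : NoLoop Q) (H : QChart ZQ Q D ν φ 0) (hφ : Function.Injective φ)
    (hψ : ∀ a ∈ bS ZQ D, ψ' (Prod.map ν ν a) = ψ a) (hL : L ⊆ D) (H' : QChart ZQ Q L ν' φ' 0)
    (hν' : ∀ e ∈ dE ZQ L, mv ν' e = mv ν e) (hφ' : ∀ f ∈ L, φ' f = φ f)
    (hD : ∀ f ∈ D, φ f ∈ Dm' → f ∈ Dm)
    (U : Pk (fun v => v) (fun f => f) L D (WZ ZQ D ψ (bS ZQ D)) (WZ1 ZQ D ψ (bS ZQ D)) s Dm C0 c Pr Bd) :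
    Pk ν' φ' L (D.image φ) (WZ Q (D.image φ) ψ' (bS Q (D.image φ)))
      (WZ1 Q (D.image φ) ψ' (bS Q (D.image φ))) s Dm' C0 c Pr (fun ω => Bd (fun f => ω (φ f))) where
  toUp := up_push hQ H hφ hψ hL H' hν' hφ' hD U.toUp
  low := by
    have h1 : av (D.image φ) (WZ Q (D.image φ) ψ' (bS Q (D.image φ))) = av D (WZ ZQ D ψ (bS ZQ D)) := by
      rw [← av_inj hφ]
      exact av_congr fun T _ => WZ_push H hψ
    rw [h1]
    exact U.low
  c_pos := U.c_pos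
  Pr_pos := U.Pr_pos
  C0_nonneg := U.C0_nonneg

end push

/-! ## The polygon inside the environment -/

variable {S : Slb} {W : Finset (ℤ × ℤ)} {L : Finset (ℤ × ℤ)}

/-- the chart of the window of the slab -/
def nuS (S : Slb) (v : ℤ × ℤ) : Option Bool × (ℤ × ℤ) := (vh S v, v)

def phS (S : Slb) (f : ℤ × ℤ) : Option Bool × (ℤ × ℤ) := (sh S f, f)

theorem mv_nuS (e : (ℤ × ℤ) × (ℤ × ℤ)) : mv (nuS S) e = sd2 S e := rfl

/-- the faces of the window -/
def InW (S : Slb) (L : Finset (ℤ × ℤ)) : Prop :=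
  ∀ f ∈ L, S.x1 ≤ f.1 ∧ f.1 < S.x2 ∧ S.yc - S.k ≤ f.2 ∧ f.2 < S.yc + S.k

theorem InW.subD (h : S.Ok) (hL : InW S L) : L ⊆ S.D := by
  intro f hf
  obtain ⟨h3, h4, h5, h6⟩ := hL f hf
  exact_mod_cast h.slab.sub _ _ h3 h4 h5 h6

theorem phD_inj : Function.Injective S.phD := fun _ _ h1 => congrArg Prod.snd h1

theorem nuD_em (h : S.Ok) (hW : Win S W) (v : ℤ × ℤ) : (em h hW).φV v = S.nuD v := rfl

theorem phD_em (h : S.Ok) (hW : Win S W) (f : ℤ × ℤ) : (em h hW).φF f = S.phD f := rfl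

theorem InW.face (h : S.Ok) (hL : InW S L) {f : ℤ × ℤ} (hf : f ∈ L) : S.phD f = phS S f := by
  obtain ⟨h3, h4, h5, h6⟩ := hL f hf
  exact em_face h win_bigW h3 h4 h5 h6

theorem InW.side (h : S.Ok) (hL : InW S L) {e : (ℤ × ℤ) × (ℤ × ℤ)} (he : e ∈ dE ZQ L) :
    mv S.nuD e = sd2 S e := em_sd2 h win_bigW hL he

theorem chS (h : S.Ok) (hL : InW S L) : QChart ZQ (S.env W 0 0).Q L (nuS S) (phS S) 0 := by
  have h1 : ∀ f ∈ L, Reg S f := fun f hf => Or.inl (hL f hf)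
  exact CM.toQ (chD h win_bigW L h1) (Finset.Subset.refl _)

section slab

variable {s : ℕ} {Dm : Set (ℤ × ℤ)} {Dm' : Set (Option Bool × (ℤ × ℤ))} {A C0 c Pr : ℝ}
  {Bd : (ℤ × ℤ → Bool) → ℝ} {ν : ℤ × ℤ → Option Bool × (ℤ × ℤ)} {φ : ℤ × ℤ → Option Bool × (ℤ × ℤ)}

/-- **The upper package of the polygon inside the environment.** -/
theorem up_slab (h : S.Ok) (hL : InW S L) (H' : QChart ZQ (S.env W 0 0).Q L ν φ 0)
    (hν : ∀ e ∈ dE ZQ L, mv ν e = sd2 S e) (hφ : ∀ f ∈ L, φ f = (sh S f, f))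
    (hD : ∀ f ∈ S.D, S.phD f ∈ Dm' → f ∈ Dm)
    (U : Up (fun v => v) (fun f => f) L S.D (WZ ZQ S.D S.ψ (bS ZQ S.D)) (WZ1 ZQ S.D S.ψ (bS ZQ S.D))
      s Dm A Bd) :
    Up ν φ L (S.G 0) (WZ (S.env W 0 0).Q (S.G 0) (S.phG 0) (bS (S.env W 0 0).Q (S.G 0)))
      (WZ1 (S.env W 0 0).Q (S.G 0) (S.phG 0) (bS (S.env W 0 0).Q (S.G 0))) s Dm' A
      (fun ω => Bd (fun f => ω (S.phD f))) := by
  have h1 := up_push (Rel.noLoop_env _) (h.chartD W) phD_inj (fun a ha => h.phG_map ha) (hL.subD h) H'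
    (fun e he => (hν e he).trans (hL.side h he).symm) (fun f hf => (hφ f hf).trans (hL.face h hf).symm)
    hD U
  rw [h.imageD] at h1
  exact h1

/-- **The package of the polygon inside the environment.** -/
theorem pk_slab (h : S.Ok) (hL : InW S L) (H' : QChart ZQ (S.env W 0 0).Q L ν φ 0)
    (hν : ∀ e ∈ dE ZQ L, mv ν e = sd2 S e) (hφ : ∀ f ∈ L, φ f = (sh S f, f))
    (hD : ∀ f ∈ S.D, S.phD f ∈ Dm' → f ∈ Dm)
    (U : Pk (fun v => v) (fun f => f) L S.D (WZ ZQ S.D S.ψ (bS ZQ S.D)) (WZ1 ZQ S.D S.ψ (bS ZQ S.D))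
      s Dm C0 c Pr Bd) :
    Pk ν φ L (S.G 0) (WZ (S.env W 0 0).Q (S.G 0) (S.phG 0) (bS (S.env W 0 0).Q (S.G 0)))
      (WZ1 (S.env W 0 0).Q (S.G 0) (S.phG 0) (bS (S.env W 0 0).Q (S.G 0))) s Dm' C0 c Pr
      (fun ω => Bd (fun f => ω (S.phD f))) := by
  have h1 := pk_push (Rel.noLoop_env _) (h.chartD W) phD_inj (fun a ha => h.phG_map ha) (hL.subD h) H'
    (fun e he => (hν e he).trans (hL.side h he).symm) (fun f hf => (hφ f hf).trans (hL.face h hf).symm)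
    hD U
  rw [h.imageD] at h1
  exact h1

end slab

end

end Pool.Agent.SixB.SlbD
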