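import Pool.Agent.Lib.SixB.S3HCls

/-!
# SixB, step 3.8: the sum over the scales (R18)

* `Pl P cf φ L`: a planar piece `L` of an expectation system.
* `Num`: the numerical sums over the scales.
* `height_scale`: two weights `W`, `Wp` which agree off a rare event `g`; the normalised height differences of two
  points at distance `2 ^ j` in the disc `BR z (2 ^ K)` differ by `C P(g) ^ θ (2 ^ j / 2 ^ K) ^ (θ / 8)`.
-/

set_option autoImplicit false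

namespace Pool.Agent.SixB.HC

open Pool.Agent.SixB Pool.Agent.SixB.Tilt Pool.Agent.SixB.HG Pool.Agent.Perc Pool.Agent.PercD
  Pool.Agent.PercN Pool.Agent.Perc.Q Pool.Agent.Perc6 Relation Pool.Agent.SixB.W3.B

noncomputable section

/-! ### Sums over scales -/

theorem geo_sum {r : ℝ} (h0 : 0 ≤ r) (h1 : r < 1) (n : ℕ) : ∑ k ∈ Finset.range (n + 1), r ^ (n - k) ≤ 1 / (1 - r) := by
  have e : ∑ k ∈ Finset.range (n + 1), r ^ (n - k) = ∑ k ∈ Finset.range (n + 1), r ^ k := by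
    have h := Finset.sum_range_reflect (fun k => r ^ k) (n + 1)
    rw [← h]
    refine Finset.sum_congr rfl fun k hk => ?_
    congr 1
  rw [e, one_div, ← tsum_geometric_of_lt_one h0 h1]
  exact Summable.sum_le_tsum _ (fun k _ => pow_nonneg h0 k) (summable_geometric_of_lt_one h0 h1)

/-- `∑_{k ≤ n} (2 ^ k / 2 ^ K) ^ t ≤ C (2 ^ n / 2 ^ K) ^ t` -/
theorem sum_scales {t : ℝ} (ht : 0 < t) : ∃ C : ℝ, 0 < C ∧ ∀ n K : ℕ,
    ∑ k ∈ Finset.range (n + 1), ((2 : ℝ) ^ k / 2 ^ K) ^ t ≤ C * ((2 : ℝ) ^ n / 2 ^ K) ^ t := by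
  set r : ℝ := (1 / 2 : ℝ) ^ t with hr
  have hr0 : 0 < r := Real.rpow_pos_of_pos (by norm_num) _
  have hr1 : r < 1 := Real.rpow_lt_one (by norm_num) (by norm_num) ht
  refine ⟨1 / (1 - r), by have := sub_pos.mpr hr1; positivity, fun n K => ?_⟩
  have e : ∀ k ∈ Finset.range (n + 1), ((2 : ℝ) ^ k / 2 ^ K) ^ t = ((2 : ℝ) ^ n / 2 ^ K) ^ t * r ^ (n - k) := by
    intro k hk
    rw [Finset.mem_range] at hk
    have h1 : r ^ (n - k) = ((1 / 2 : ℝ) ^ (n - k)) ^ t := by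
      rw [hr, ← Real.rpow_natCast, ← Real.rpow_natCast, ← Real.rpow_mul (by norm_num),
        ← Real.rpow_mul (by norm_num), mul_comm]
    rw [h1, ← Real.mul_rpow (by positivity) (by positivity)]
    congr 1
    have h2 : (2 : ℝ) ^ n = 2 ^ k * 2 ^ (n - k) := by
      rw [← pow_add]
      congr 1
      omega
    rw [h2, one_div, inv_pow]
    field_simp
  rw [Finset.sum_congr rfl e, ← Finset.mul_sum, mul_comm]
  exact mul_le_mul_of_nonneg_right (geo_sum hr0.le hr1 n) (by positivity)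

/-- `x (1 / 2) ^ (x t) ≤ C (1 / 2) ^ (x t / 2)` -/
theorem lin_exp {t : ℝ} (ht : 0 < t) : ∃ C : ℝ, 0 < C ∧ ∀ j K : ℕ, j + 1 ≤ K →
    ((K - (j + 1) : ℕ) : ℝ) * ((2 : ℝ) ^ (j + 1) / 2 ^ K) ^ t ≤ C * ((2 : ℝ) ^ j / 2 ^ K) ^ (t / 2) := by
  have hl : 0 < Real.log 2 := Real.log_pos (by norm_num)
  refine ⟨2 / (t * Real.log 2) * 2 ^ t, by positivity, fun j K hjK => ?_⟩
  set x : ℕ := K - (j + 1) with hx
  have hK : K = j + 1 + x := by omega
  have e1 : (2 : ℝ) ^ (j + 1) / 2 ^ K = (1 / 2 : ℝ) ^ x := by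
    rw [hK, one_div, inv_pow]
    field_simp
    ring
  have e2 : (2 : ℝ) ^ j / 2 ^ K = (1 / 2 : ℝ) ^ (x + 1) := by
    rw [hK, one_div, inv_pow]
    field_simp
    ring
  rw [e1, e2]
  have h2 : ((1 / 2 : ℝ) ^ x) ^ t = ((1 / 2 : ℝ) ^ x) ^ (t / 2) * ((1 / 2 : ℝ) ^ x) ^ (t / 2) := by
    rw [← Real.rpow_add (by positivity)]
    congr 1
    ring
  have h3 : (x : ℝ) * ((1 / 2 : ℝ) ^ x) ^ (t / 2) ≤ 2 / (t * Real.log 2) := by
    have h4 : ((1 / 2 : ℝ) ^ x) ^ (t / 2) = Real.exp (-(x * (t / 2) * Real.log 2)) := by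
      rw [Real.rpow_def_of_pos (by positivity), Real.log_pow, one_div, Real.log_inv]
      congr 1
      ring
    have h5 : (x : ℝ) * (t / 2) * Real.log 2 ≤ Real.exp (x * (t / 2) * Real.log 2) := by
      have := Real.add_one_le_exp ((x : ℝ) * (t / 2) * Real.log 2)
      linarith
    rw [h4, Real.exp_neg, ← div_eq_mul_inv, div_le_div_iff₀ (Real.exp_pos _) (by positivity)]
    nlinarith [h5]
  have h6 : ((1 / 2 : ℝ) ^ x) ^ (t / 2) ≤ 2 ^ t * ((1 / 2 : ℝ) ^ (x + 1)) ^ (t / 2) := by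
    rw [pow_succ, Real.mul_rpow (by positivity) (by positivity)]
    have h7 : (1 : ℝ) ≤ 2 ^ t * (1 / 2 : ℝ) ^ (t / 2) := by
      have h8 : (1 / 2 : ℝ) ^ (t / 2) = 2 ^ (-(t / 2)) := by
        rw [one_div, Real.inv_rpow (by norm_num), Real.rpow_neg (by norm_num)]
      rw [h8, ← Real.rpow_add (by norm_num)]
      exact Real.one_le_rpow (by norm_num) (by linarith)
    have h9 : 0 ≤ ((1 / 2 : ℝ) ^ x) ^ (t / 2) := by positivity
    calc ((1 / 2 : ℝ) ^ x) ^ (t / 2) = ((1 / 2 : ℝ) ^ x) ^ (t / 2) * 1 := (mul_one _).symm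
      _ ≤ ((1 / 2 : ℝ) ^ x) ^ (t / 2) * (2 ^ t * (1 / 2 : ℝ) ^ (t / 2)) := mul_le_mul_of_nonneg_left h7 h9
      _ = _ := by ring
  calc (x : ℝ) * ((1 / 2 : ℝ) ^ x) ^ t = (x : ℝ) * ((1 / 2 : ℝ) ^ x) ^ (t / 2) * ((1 / 2 : ℝ) ^ x) ^ (t / 2) := by
        rw [h2]
        ring
    _ ≤ 2 / (t * Real.log 2) * (2 ^ t * ((1 / 2 : ℝ) ^ (x + 1)) ^ (t / 2)) :=
        mul_le_mul h3 h6 (by positivity) (by positivity)
    _ = _ := by ring

/-! ### The decomposition -/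

variable {F A A' : Finset (ℤ × ℤ)} {z z' w q : ℤ × ℤ} {j K : ℕ}

theorem cls_empty (E : WEnv) (z z' : VZ) (ω : Cfg) : cls E ∅ z z' ω = 0 := by
  unfold cls
  have h : uIn ZQ E.F ∅ ω = ∅ := by
    rw [Finset.eq_empty_iff_forall_notMem]
    intro U hU
    obtain ⟨h1, h2⟩ := mem_uIn.mp hU
    obtain ⟨c, hc, h3⟩ := mem_dstr.mp (rep_dstr h1)
    have hcX : c ∈ rep U := h3 ▸ self_mem_dst hc
    obtain ⟨f, hf, k, h4 | h4⟩ := mem_dE.mp hc
    · exact absurd (h2 f hf k (Or.inl (h4 ▸ hcX))) (Finset.notMem_empty _)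
    · exact absurd (h2 f hf k (Or.inr (h4 ▸ hcX))) (Finset.notMem_empty _)
  rw [h, Finset.sum_empty]

theorem cls_add (E : WEnv) (A : Finset (ℤ × ℤ)) (z z' q : VZ) (ω : Cfg) :
    cls E A z z' ω = cls E A z q ω - cls E A z' q ω := by
  unfold cls
  rw [← Finset.sum_sub_distrib]
  refine Finset.sum_congr rfl fun U _ => ?_
  push_cast
  ring

/-- the boxes around a point -/
def bx (z : ℤ × ℤ) : ℕ → Finset (ℤ × ℤ)
  | 0 => ∅
  | k + 1 => BR z (2 ^ k)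

/-- the boxes around the other point -/
def bx' (z z' : ℤ × ℤ) (j : ℕ) : ℕ → Finset (ℤ × ℤ)
  | 0 => ∅
  | k + 1 => if k ≤ j then BR z' (2 ^ k) else BR z (2 ^ (j + 1))

/-- the corner of the box of radius `2 ^ (j + 1)` -/
def cor (z : ℤ × ℤ) (j : ℕ) : ℤ × ℤ := (z.1 - 2 ^ (j + 1), z.2 - 2 ^ (j + 1))

theorem decomp (E : WEnv) (hjK : j + 1 ≤ K) (ω : Cfg) :
    cls E (BR z (2 ^ K)) z z' ω =
      ∑ k ∈ Finset.Ico (j + 1) K, (cls E (BR z (2 ^ (k + 1))) z z' ω - cls E (BR z (2 ^ k)) z z' ω) +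
      (∑ k ∈ Finset.range (j + 2), (cls E (bx z (k + 1)) z (cor z j) ω - cls E (bx z k) z (cor z j) ω) -
        ∑ k ∈ Finset.range (j + 2),
          (cls E (bx' z z' j (k + 1)) z' (cor z j) ω - cls E (bx' z z' j k) z' (cor z j) ω)) := by
  rw [Finset.sum_Ico_sub (fun k => cls E (BR z (2 ^ k)) z z' ω) hjK,
    Finset.sum_range_sub (fun k => cls E (bx z k) z (cor z j) ω),
    Finset.sum_range_sub (fun k => cls E (bx' z z' j k) z' (cor z j) ω)]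
  have e1 : bx z (j + 2) = BR z (2 ^ (j + 1)) := rfl
  have e2 : bx' z z' j (j + 2) = BR z (2 ^ (j + 1)) := by
    show (if j + 1 ≤ j then _ else _) = _
    rw [if_neg (by omega)]
  have e3 : bx z 0 = ∅ := rfl
  have e4 : bx' z z' j 0 = ∅ := rfl
  rw [e1, e2, e3, e4, cls_empty, cls_empty, cls_add E (BR z (2 ^ (j + 1))) z z' (cor z j)]
  ring

/-! ### The classes in a planar piece of an expectation system -/

/-- the crossing indicator, `1` on a degenerate annulus -/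
def nY (v : ℤ × ℤ) (r R : ℤ) (ω : Cfg) : ℝ := if r < R then nX v r R ω else 1

theorem nY01 (v : ℤ × ℤ) (r R : ℤ) (ω : Cfg) : nY v r R ω = 0 ∨ nY v r R ω = 1 := by
  unfold nY
  split_ifs
  · exact nX01 v r R ω
  · exact Or.inr rfl

theorem dep_nY (v : ℤ × ℤ) (r R : ℤ) : Dep (An v r R : Set (ℤ × ℤ)) (nY v r R) := by
  intro ω ω' h
  unfold nY
  rw [dep_nX v r R ω ω' h]

theorem an_sub (v : ℤ × ℤ) (r R : ℤ) : An v r R ⊆ BR v R := fun _ hf => (mem_An.mp hf).1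

theorem dep_nY' (v : ℤ × ℤ) (r R : ℤ) : Dep (BR v R : Set (ℤ × ℤ)) (nY v r R) := fun ω ω' h =>
  dep_nY v r R ω ω' fun f hf => h f (by exact_mod_cast an_sub v r R (by exact_mod_cast hf))

theorem av_nY : ∃ C : ℝ, 1 ≤ C ∧ ∀ (v : ℤ × ℤ) (r R : ℕ) (S : Finset (ℤ × ℤ)), 1 ≤ r → r ≤ R →
    BR v (R : ℤ) ⊆ S → av S (nY v r R) ≤ C * ((r : ℝ) / R) ^ (1 / 4 : ℝ) := by
  obtain ⟨C, hC, h⟩ := pr_nX
  refine ⟨C, hC, fun v r R S hr hrR hS => ?_⟩
  rcases hrR.lt_or_eq with h1 | h1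
  · have e : nY v r R = nX v r R := by
      funext ω
      unfold nY
      rw [if_pos (by exact_mod_cast h1)]
    rw [e]
    exact h v r R S hr hrR hS
  · subst h1
    have e : nY v r r = fun _ => (1 : ℝ) := by
      funext ω
      unfold nY
      rw [if_neg (lt_irrefl _)]
    have hr' : (r : ℝ) ≠ 0 := by exact_mod_cast (by omega : r ≠ 0)
    rw [e, av_const, div_self hr', Real.one_rpow, mul_one]
    exact hC

/-- a planar piece `L` of an expectation system, with two weights which do not see the core of an annulus which is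
not crossed -/
structure Setup {Ω ι : Type} (P : ExpSys Ω ι) (cf : Ω → Cfg) (φ : ℤ × ℤ → ι) (L : Finset (ℤ × ℤ))
    (D G : Set ι) (W Wp : Ω → ℝ) : Prop where
  dep : ∀ (S : Finset (ℤ × ℤ)) (f : Cfg → ℝ), S ⊆ L → Dep (S : Set (ℤ × ℤ)) f →
    P.Dep (φ '' (S : Set (ℤ × ℤ))) (fun ω => f (cf ω))
  E : ∀ f : Cfg → ℝ, Dep (L : Set (ℤ × ℤ)) f → P.E (fun ω => f (cf ω)) = av L f
  sub : φ '' (L : Set (ℤ × ℤ)) ⊆ D ∩ G
  W : ∀ (v : ℤ × ℤ) (r R : ℤ), 1 ≤ r → r < R → BR v R ⊆ L →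
    P.Dep (φ '' (BR v r : Set (ℤ × ℤ)))ᶜ (fun ω => W ω * (1 - nX v r R (cf ω)))
  Wp : ∀ (v : ℤ × ℤ) (r R : ℤ), 1 ≤ r → r < R → BR v R ⊆ L →
    P.Dep (φ '' (BR v r : Set (ℤ × ℤ)))ᶜ (fun ω => Wp ω * (1 - nX v r R (cf ω)))

section

variable {Ω ι : Type} {P : ExpSys Ω ι} {cf : Ω → Cfg} {φ : ℤ × ℤ → ι} {L : Finset (ℤ × ℤ)} {D G : Set ι}
  {W Wp : Ω → ℝ} {s : ℕ}

theorem Setup.depDG (h : Setup P cf φ L D G W Wp) {S : Finset (ℤ × ℤ)} {f : Cfg → ℝ} (hS : S ⊆ L)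
    (hf : Dep (S : Set (ℤ × ℤ)) f) : P.Dep (D ∩ G) (fun ω => f (cf ω)) :=
  (h.dep S f hS hf).mono ((Set.image_mono (by exact_mod_cast hS)).trans h.sub)

theorem Setup.nW (h : Setup P cf φ L D G W Wp) {v : ℤ × ℤ} {r R : ℤ} (hr : 1 ≤ r) (hrR : r ≤ R)
    (hL : BR v R ⊆ L) : P.Dep (φ '' (BR v r : Set (ℤ × ℤ)))ᶜ (fun ω => W ω * (1 - nY v r R (cf ω))) := by
  rcases hrR.lt_or_eq with h1 | h1
  · have e : (fun ω => W ω * (1 - nY v r R (cf ω))) = fun ω => W ω * (1 - nX v r R (cf ω)) := by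
      funext ω
      unfold nY
      rw [if_pos h1]
    rw [e]
    exact h.W v r R hr h1 hL
  · have e : (fun ω => W ω * (1 - nY v r R (cf ω))) = fun _ => (0 : ℝ) := by
      funext ω
      unfold nY
      rw [if_neg (by omega), sub_self, mul_zero]
    rw [e]
    exact ExpSys.Dep.const _ _

theorem Setup.nWp (h : Setup P cf φ L D G W Wp) {v : ℤ × ℤ} {r R : ℤ} (hr : 1 ≤ r) (hrR : r ≤ R)
    (hL : BR v R ⊆ L) : P.Dep (φ '' (BR v r : Set (ℤ × ℤ)))ᶜ (fun ω => Wp ω * (1 - nY v r R (cf ω))) := by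
  rcases hrR.lt_or_eq with h1 | h1
  · have e : (fun ω => Wp ω * (1 - nY v r R (cf ω))) = fun ω => Wp ω * (1 - nX v r R (cf ω)) := by
      funext ω
      unfold nY
      rw [if_pos h1]
    rw [e]
    exact h.Wp v r R hr h1 hL
  · have e : (fun ω => Wp ω * (1 - nY v r R (cf ω))) = fun _ => (0 : ℝ) := by
      funext ω
      unfold nY
      rw [if_neg (by omega), sub_self, mul_zero]
    rw [e]
    exact ExpSys.Dep.const _ _

theorem neg_cls {y a n : Ω → ℝ} {B : Set ι} {m q : ℝ} (h : HSum.Cls P s D G W Wp y a n B m q) :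
    HSum.Cls P s D G W Wp (fun ω => - y ω) a n B m q where
  a01 := h.a01
  n01 := h.n01
  aD := h.aD
  nD := h.nD
  yD := h.yD.comp fun x => -x
  yB := h.yB.comp fun x => -x
  ya ω := by rw [mul_neg, ← h.ya ω]
  W := h.W
  Wp := h.Wp
  hq := h.hq
  hq' := h.hq'
  hm := by
    simp only [abs_neg]
    exact h.hm

/-- a class around a point -/
theorem cls_of_pt (h : Setup P cf φ L D G W Wp) {v : ℤ × ℤ} {r R : ℕ} (hr : 1 ≤ r) (hrR : r ≤ R)
    (hL : BR v (R : ℤ) ⊆ L) {g : Cfg → ℝ} (hg : Dep (BR v (r : ℤ) : Set (ℤ × ℤ)) g) {C Cp : ℝ}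
    (hm : av L (fun ω => |g ω| ^ (2 ^ (s + 1))) ≤ C)
    (hq : av L (nY v r R) ≤ Cp * ((r : ℝ) / R) ^ (1 / 4 : ℝ)) :
    HSum.Cls P s D G W Wp (fun ω => g (cf ω)) (fun _ => 1) (fun ω => nY v r R (cf ω))
      (φ '' (BR v (r : ℤ) : Set (ℤ × ℤ))) (C ^ ((1 / 2 : ℝ) ^ (s + 1))) (Cp * ((r : ℝ) / R) ^ (1 / 4 : ℝ)) where
  a01 _ := Or.inr rfl
  n01 ω := nY01 v r R _
  aD := ExpSys.Dep.const _ _
  nD := h.depDG hL (dep_nY' v r R)
  yD := h.depDG ((br_sub (by exact_mod_cast hrR)).trans hL) hg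
  yB := h.dep _ g ((br_sub (by exact_mod_cast hrR)).trans hL) hg
  ya ω := (one_mul _).symm
  W := h.nW (by exact_mod_cast hr) (by exact_mod_cast hrR) hL
  Wp := h.nWp (by exact_mod_cast hr) (by exact_mod_cast hrR) hL
  hq := by
    simp only [one_mul]
    rw [h.E (nY v r R) fun ω ω' hω => dep_nY' v r R ω ω' fun f hf => hω f (by
      exact_mod_cast hL (by exact_mod_cast hf))]
    exact hq
  hq' := by
    rw [P.one, one_mul, h.E (nY v r R) fun ω ω' hω => dep_nY' v r R ω ω' fun f hf => hω f (by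
      exact_mod_cast hL (by exact_mod_cast hf))]
    exact hq
  hm := by
    have hd : Dep (L : Set (ℤ × ℤ)) (fun ω => |g ω| ^ (2 ^ (s + 1))) := by
      intro ω ω' hω
      simp only
      rw [hg ω ω' fun f hf => hω f (by
        exact_mod_cast ((br_sub (by exact_mod_cast hrR : (r : ℤ) ≤ R)).trans hL) (by exact_mod_cast hf))]
    rw [h.E (fun ω => |g ω| ^ (2 ^ (s + 1))) hd]
    exact Real.rpow_le_rpow (av_nonneg fun T _ => pow_nonneg (abs_nonneg _) _) hm (by positivity)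

/-- a class of strands which separate two points of a box -/
theorem cls_of_pair (h : Setup P cf φ L D G W Wp) {v : ℤ × ℤ} {r₀ r₁ r R : ℕ} (hr01 : r₁ ≤ r) (hr : 1 ≤ r)
    (hrR : r ≤ R) (hL : BR v (R : ℤ) ⊆ L) {g : Cfg → ℝ} (hg : Dep (BR v (r : ℤ) : Set (ℤ × ℤ)) g) {C Cp : ℝ}
    (hgn : ∀ ω, nX v r₀ r₁ ω = 0 → g ω = 0)
    (hm : av L (fun ω => |g ω| ^ (2 ^ (s + 1))) ≤ C) (hCp : 0 ≤ Cp)
    (hq0 : av L (nX v r₀ r₁) ≤ Cp * ((r₀ : ℝ) / r₁) ^ (1 / 4 : ℝ))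
    (hq : av L (nY v r R) ≤ Cp * ((r : ℝ) / R) ^ (1 / 4 : ℝ)) :
    HSum.Cls P s D G W Wp (fun ω => g (cf ω)) (fun ω => nX v r₀ r₁ (cf ω)) (fun ω => nY v r R (cf ω))
      (φ '' (BR v (r : ℤ) : Set (ℤ × ℤ))) (C ^ ((1 / 2 : ℝ) ^ (s + 1)))
      (Cp ^ 2 * (((r₀ : ℝ) / r₁) ^ (1 / 4 : ℝ) * ((r : ℝ) / R) ^ (1 / 4 : ℝ))) := by
  have hsub : BR v (r : ℤ) ⊆ L := (br_sub (by exact_mod_cast hrR)).trans hL
  have hsub1 : An v (r₀ : ℤ) (r₁ : ℤ) ⊆ L := (an_sub _ _ _).trans ((br_sub (by exact_mod_cast hr01)).trans hsub)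
  have hsub2 : An v (r : ℤ) (R : ℤ) ⊆ L := (an_sub _ _ _).trans hL
  have hdL1 : Dep (L : Set (ℤ × ℤ)) (nX v r₀ r₁) := fun ω ω' hω => dep_nX v r₀ r₁ ω ω' fun f hf => hω f (by
    exact_mod_cast hsub1 (by exact_mod_cast hf))
  have hdL2 : Dep (L : Set (ℤ × ℤ)) (nY v r R) := fun ω ω' hω => dep_nY v r R ω ω' fun f hf => hω f (by
    exact_mod_cast hsub2 (by exact_mod_cast hf))
  have hind : av L (fun ω => nX v r₀ r₁ ω * nY v r R ω) = av L (nX v r₀ r₁) * av L (nY v r R) := by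
    refine av_indep' ?_ (dep_nX v r₀ r₁) (dep_nY v r R) hsub1 hsub2
    rw [Finset.disjoint_left]
    intro f hf hf'
    have h1 := (mem_An.mp hf).1
    have h2 := (mem_An.mp hf').2
    exact h2 (br_sub (by exact_mod_cast hr01) h1)
  have hn1 : 0 ≤ av L (nX v r₀ r₁) := av_nonneg fun T _ => by rcases nX01 v r₀ r₁ (ind T) with h | h <;> rw [h]; norm_num
  have hn2 : 0 ≤ av L (nY v r R) := av_nonneg fun T _ => by rcases nY01 v r R (ind T) with h | h <;> rw [h]; norm_num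
  have hqq : av L (nX v r₀ r₁) * av L (nY v r R) ≤
      Cp ^ 2 * (((r₀ : ℝ) / r₁) ^ (1 / 4 : ℝ) * ((r : ℝ) / R) ^ (1 / 4 : ℝ)) := by
    calc _ ≤ (Cp * ((r₀ : ℝ) / r₁) ^ (1 / 4 : ℝ)) * (Cp * ((r : ℝ) / R) ^ (1 / 4 : ℝ)) :=
          mul_le_mul hq0 hq hn2 (by positivity)
      _ = _ := by ring
  refine
    { a01 := fun ω => nX01 v r₀ r₁ _
      n01 := fun ω => nY01 v r R _
      aD := h.depDG hsub1 (dep_nX v r₀ r₁)
      nD := h.depDG hsub2 (dep_nY v r R)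
      yD := h.depDG hsub hg
      yB := h.dep _ g hsub hg
      ya := fun ω => ?_
      W := h.nW (by exact_mod_cast hr) (by exact_mod_cast hrR) hL
      Wp := h.nWp (by exact_mod_cast hr) (by exact_mod_cast hrR) hL
      hq := ?_
      hq' := ?_
      hm := ?_ }
  · rcases nX01 v r₀ r₁ (cf ω) with h1 | h1
    · rw [h1, hgn _ h1]
      ring
    · rw [h1, one_mul]
  · rw [h.E (fun ω => nX v r₀ r₁ ω * nY v r R ω) fun ω ω' hω => by
      simp only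
      rw [hdL1 ω ω' hω, hdL2 ω ω' hω], hind]
    exact hqq
  · rw [h.E (nX v r₀ r₁) hdL1, h.E (nY v r R) hdL2]
    exact hqq
  · have hd : Dep (L : Set (ℤ × ℤ)) (fun ω => |g ω| ^ (2 ^ (s + 1))) := by
      intro ω ω' hω
      simp only
      rw [hg ω ω' fun f hf => hω f (by exact_mod_cast hsub (by exact_mod_cast hf))]
    rw [h.E (fun ω => |g ω| ^ (2 ^ (s + 1))) hd]
    exact Real.rpow_le_rpow (av_nonneg fun T _ => pow_nonneg (abs_nonneg _) _) hm (by positivity)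

theorem cls_mono_q {y a n : Ω → ℝ} {B : Set ι} {m q q' : ℝ} (h : HSum.Cls P s D G W Wp y a n B m q)
    (hq : q ≤ q') : HSum.Cls P s D G W Wp y a n B m q' where
  a01 := h.a01
  n01 := h.n01
  aD := h.aD
  nD := h.nD
  yD := h.yD
  yB := h.yB
  ya := h.ya
  W := h.W
  Wp := h.Wp
  hq := h.hq.trans hq
  hq' := h.hq'.trans hq
  hm := h.hm

end

/-! ### Connections in a box -/

section

variable {x₀ x₁ y₀ y₁ : ℤ}

theorem edge_h {i y : ℤ} (hy : y₀ < y₁) (h1 : x₀ ≤ i) (h2 : i < x₁) (h3 : y₀ ≤ y) (h4 : y ≤ y₁) :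
    (((i, y), (i + 1, y)) : DZ) ∈ dE ZQ (RF x₀ x₁ y₀ y₁) := by
  rcases h4.lt_or_eq with h | h
  · exact sd_mem (Q := ZQ) (f := (i, y)) (mem_RF.mpr ⟨h1, h2, h3, h⟩) 0
  · have h5 := sd_mem (Q := ZQ) (f := (i, y - 1)) (F := RF x₀ x₁ y₀ y₁)
      (mem_RF.mpr ⟨h1, h2, by simp only; omega, by simp only; omega⟩) 2
    have h6 : sd ZQ (i, y - 1) 2 = ((i + 1, y - 1 + 1), (i, y - 1 + 1)) := rfl
    rw [h6, sub_add_cancel] at h5
    have h7 := swap_mem_dE.mpr h5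
    exact h7

theorem edge_v {x i : ℤ} (hx : x₀ < x₁) (h1 : y₀ ≤ i) (h2 : i < y₁) (h3 : x₀ ≤ x) (h4 : x ≤ x₁) :
    (((x, i), (x, i + 1)) : DZ) ∈ dE ZQ (RF x₀ x₁ y₀ y₁) := by
  rcases h4.lt_or_eq with h | h
  · have h5 := sd_mem (Q := ZQ) (f := (x, i)) (F := RF x₀ x₁ y₀ y₁) (mem_RF.mpr ⟨h3, h, h1, h2⟩) 3
    have h6 : sd ZQ (x, i) 3 = ((x, i + 1), (x, i)) := rfl
    rw [h6] at h5
    exact swap_mem_dE.mpr h5
  · have h5 := sd_mem (Q := ZQ) (f := (x - 1, i)) (F := RF x₀ x₁ y₀ y₁)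
      (mem_RF.mpr ⟨by simp only; omega, by simp only; omega, h1, h2⟩) 1
    have h6 : sd ZQ (x - 1, i) 1 = ((x - 1 + 1, i), (x - 1 + 1, i + 1)) := rfl
    rw [h6, sub_add_cancel] at h5
    exact h5

theorem conn_box (hx : x₀ < x₁) (hy : y₀ < y₁) {p q : ℤ × ℤ} (hp : InR x₀ x₁ y₀ y₁ p)
    (hq : InR x₀ x₁ y₀ y₁ q) : ConnE ZQ (RF x₀ x₁ y₀ y₁) p q := by
  obtain ⟨p1, p2⟩ := p
  obtain ⟨q1, q2⟩ := q
  obtain ⟨a1, a2, a3, a4⟩ := hp
  obtain ⟨b1, b2, b3, b4⟩ := hq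
  simp only at a1 a2 a3 a4 b1 b2 b3 b4
  have hor : ∀ y, y₀ ≤ y → y ≤ y₁ → ∀ i i', x₀ ≤ i → i ≤ i' → i' ≤ x₁ →
      ConnE ZQ (RF x₀ x₁ y₀ y₁) (i, y) (i', y) := by
    intro y h1 h2 i i' h3 h4 h5
    induction i', h4 using Int.leInduction with
    | base => exact ReflTransGen.refl
    | succ n hn ih => exact ReflTransGen.tail (ih (by omega)) (edge_h hy (by omega) (by omega) h1 h2)
  have ver : ∀ x, x₀ ≤ x → x ≤ x₁ → ∀ i i', y₀ ≤ i → i ≤ i' → i' ≤ y₁ →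
      ConnE ZQ (RF x₀ x₁ y₀ y₁) (x, i) (x, i') := by
    intro x h1 h2 i i' h3 h4 h5
    induction i', h4 using Int.leInduction with
    | base => exact ReflTransGen.refl
    | succ n hn ih => exact ReflTransGen.tail (ih (by omega)) (edge_v hx (by omega) (by omega) h1 h2)
  have c1 : ConnE ZQ (RF x₀ x₁ y₀ y₁) (p1, p2) (q1, p2) := by
    rcases le_total p1 q1 with h | h
    · exact hor p2 a3 a4 p1 q1 a1 h b2
    · exact (hor p2 a3 a4 q1 p1 b1 h a2).symm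
  have c2 : ConnE ZQ (RF x₀ x₁ y₀ y₁) (q1, p2) (q1, q2) := by
    rcases le_total p2 q2 with h | h
    · exact ver q1 b1 b2 p2 q2 a3 h b4
    · exact (ver q1 b1 b2 q2 p2 b3 h a4).symm
  exact c1.trans c2

end

/-! ### The numerical sum -/

theorem rpow_le_a {a x t : ℝ} (ha : 1 ≤ a) (hx0 : 0 ≤ x) (hx1 : x ≤ 1) (ht0 : 0 < t) (ht1 : t ≤ 1) :
    (a * x) ^ t ≤ a * x ^ (t / 2) := by
  rw [Real.mul_rpow (by linarith) hx0]
  refine mul_le_mul ?_ ?_ (by positivity) (by linarith)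
  · calc a ^ t ≤ a ^ (1 : ℝ) := Real.rpow_le_rpow_of_exponent_le ha ht1
      _ = a := Real.rpow_one a
  · rcases hx0.eq_or_lt with h | h
    · rw [← h, Real.zero_rpow ht0.ne', Real.zero_rpow (by positivity)]
    · exact Real.rpow_le_rpow_of_exponent_ge h hx1 (by linarith)

theorem num_sum {θ Cp m₁ m₂ mR : ℝ} (hθ : 0 < θ) (hθ1 : θ ≤ 1) (hCp : 1 ≤ Cp) (hm₁ : 0 ≤ m₁) (hm₂ : 0 ≤ m₂)
    (hmR : 0 ≤ mR) : ∃ C : ℝ, 0 < C ∧ ∀ j K : ℕ, j + 1 ≤ K →
    ∑ k ∈ Finset.Ico (j + 1) K, m₂ * (Cp ^ 2 * (((2 : ℝ) ^ j / 2 ^ k) ^ (1 / 4 : ℝ) *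
      ((2 : ℝ) ^ (k + 1) / 2 ^ K) ^ (1 / 4 : ℝ))) ^ θ +
    (∑ k ∈ Finset.range (j + 2), m₁ * (Cp * ((2 : ℝ) ^ k / 2 ^ K) ^ (1 / 4 : ℝ)) ^ θ +
      ∑ k ∈ Finset.range (j + 2), m₁ * (Cp * ((2 : ℝ) ^ k / 2 ^ (K - 1)) ^ (1 / 4 : ℝ)) ^ θ) +
    mR * (Cp * ((2 : ℝ) ^ j / 2 ^ K) ^ (1 / 4 : ℝ)) ^ θ ≤ C * ((2 : ℝ) ^ j / 2 ^ K) ^ (θ / 8) := by
  have ht : 0 < θ / 4 := by positivity
  obtain ⟨Cl, hCl, hl⟩ := lin_exp ht
  obtain ⟨Cs, hCs, hs⟩ := sum_scales ht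
  have hCp0 : 0 < Cp := by linarith
  have hpw : ∀ x : ℝ, 0 ≤ x → (x ^ (1 / 4 : ℝ)) ^ θ = x ^ (θ / 4) := by
    intro x hx
    rw [← Real.rpow_mul hx]
    congr 1
    ring
  refine ⟨m₂ * (Cp ^ 2) ^ θ * Cl + (m₁ * Cp ^ θ * Cs * 2 + m₁ * Cp ^ θ * Cs * 4) + mR * Cp ^ θ + 1,
    by positivity, fun j K hjK => ?_⟩
  set X : ℝ := (2 : ℝ) ^ j / 2 ^ K with hX
  have hX0 : 0 < X := by positivity
  have hX1 : X ≤ 1 := by
    rw [hX, div_le_one (by positivity)]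
    exact pow_le_pow_right₀ (by norm_num) (by omega)
  have e8 : θ / 4 / 2 = θ / 8 := by ring
  -- large scales
  have b1 : ∑ k ∈ Finset.Ico (j + 1) K, m₂ * (Cp ^ 2 * (((2 : ℝ) ^ j / 2 ^ k) ^ (1 / 4 : ℝ) *
      ((2 : ℝ) ^ (k + 1) / 2 ^ K) ^ (1 / 4 : ℝ))) ^ θ ≤ m₂ * (Cp ^ 2) ^ θ * Cl * X ^ (θ / 8) := by
    have e : ∀ k ∈ Finset.Ico (j + 1) K, m₂ * (Cp ^ 2 * (((2 : ℝ) ^ j / 2 ^ k) ^ (1 / 4 : ℝ) *
        ((2 : ℝ) ^ (k + 1) / 2 ^ K) ^ (1 / 4 : ℝ))) ^ θ =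
        m₂ * (Cp ^ 2) ^ θ * ((2 : ℝ) ^ (j + 1) / 2 ^ K) ^ (θ / 4) := by
      intro k hk
      rw [← Real.mul_rpow (by positivity) (by positivity), Real.mul_rpow (by positivity) (by positivity),
        hpw _ (by positivity)]
      have e2 : (2 : ℝ) ^ j / 2 ^ k * (2 ^ (k + 1) / 2 ^ K) = 2 ^ (j + 1) / 2 ^ K := by
        rw [pow_succ, pow_succ]
        field_simp
      rw [e2]
      ring
    rw [Finset.sum_congr rfl e, Finset.sum_const, Nat.card_Ico, nsmul_eq_mul]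
    have h1 := hl j K hjK
    rw [e8] at h1
    calc _ = m₂ * (Cp ^ 2) ^ θ * (((K - (j + 1) : ℕ) : ℝ) * ((2 : ℝ) ^ (j + 1) / 2 ^ K) ^ (θ / 4)) := by ring
      _ ≤ m₂ * (Cp ^ 2) ^ θ * (Cl * X ^ (θ / 8)) := mul_le_mul_of_nonneg_left h1 (by positivity)
      _ = _ := by ring
  -- points
  have pt : ∀ (K' : ℕ) (a : ℝ), 1 ≤ a → (2 : ℝ) ^ (j + 1) / 2 ^ K' = a * X →
      ∑ k ∈ Finset.range (j + 2), m₁ * (Cp * ((2 : ℝ) ^ k / 2 ^ K') ^ (1 / 4 : ℝ)) ^ θ ≤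
        m₁ * Cp ^ θ * Cs * a * X ^ (θ / 8) := by
    intro K' a ha haX
    have e : ∀ k ∈ Finset.range (j + 2), m₁ * (Cp * ((2 : ℝ) ^ k / 2 ^ K') ^ (1 / 4 : ℝ)) ^ θ =
        m₁ * Cp ^ θ * ((2 : ℝ) ^ k / 2 ^ K') ^ (θ / 4) := by
      intro k hk
      rw [Real.mul_rpow (by positivity) (by positivity), hpw _ (by positivity)]
      ring
    rw [Finset.sum_congr rfl e, ← Finset.mul_sum]
    have h1 := hs (j + 1) K'
    rw [haX] at h1
    have h2 := rpow_le_a ha hX0.le hX1 ht (by linarith)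
    rw [e8] at h2
    calc m₁ * Cp ^ θ * ∑ k ∈ Finset.range (j + 2), ((2 : ℝ) ^ k / 2 ^ K') ^ (θ / 4)
        ≤ m₁ * Cp ^ θ * (Cs * (a * X ^ (θ / 8))) :=
          mul_le_mul_of_nonneg_left (h1.trans (mul_le_mul_of_nonneg_left h2 hCs.le)) (by positivity)
      _ = _ := by ring
  have b2 := pt K 2 (by norm_num) (by rw [hX, pow_succ]; ring)
  have b3 := pt (K - 1) 4 (by norm_num) (by
    have h3 : (2 : ℝ) ^ K = 2 ^ (K - 1) * 2 := by
      rw [← pow_succ]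
      congr 1
      omega
    rw [hX, h3, pow_succ]
    field_simp
    norm_num)
  have b4 : mR * (Cp * X ^ (1 / 4 : ℝ)) ^ θ ≤ mR * Cp ^ θ * X ^ (θ / 8) := by
    rw [Real.mul_rpow (by positivity) (by positivity), hpw _ hX0.le, ← mul_assoc]
    refine mul_le_mul_of_nonneg_left ?_ (by positivity)
    exact Real.rpow_le_rpow_of_exponent_ge hX0 hX1 (by linarith)
  have b5 : 0 ≤ X ^ (θ / 8) := by positivity
  nlinarith [b1, b2, b3, b4, b5]

/-! ### The main theorem -/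

section

theorem hasPotQ_BR (v : ℤ × ℤ) (r : ℤ) : HasPotQ ZQ (BR v r) := hasPotQ_of_hasPot (hasPot_RF _ _ _ _)

theorem pw1 (n : ℕ) : (1 : ℤ) ≤ 2 ^ n := one_le_pow₀ (by norm_num)

theorem pw_mono {m n : ℕ} (h : m ≤ n) : (2 : ℤ) ^ m ≤ 2 ^ n := pow_le_pow_right₀ (by norm_num) h

/-- **the sum over the scales** -/
theorem height_scale (s : ℕ) (hs1 : 1 ≤ s) : ∃ C : ℝ, 0 < C ∧ ∀ (Ω ι : Type) (P : ExpSys Ω ι)
    (cf : Ω → Cfg) (φ : ℤ × ℤ → ι) (D G : Set ι) (W Wp Bd g Y Yp Mr Mrp : Ω → ℝ) (c C0 Pr : ℝ)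
    (z z' : ℤ × ℤ) (j K : ℕ) (E : WEnv), (∀ a b, E.s a b = 0) → E.F = BR z (2 ^ K) →
    |z'.1 - z.1| ≤ 2 ^ j → |z'.2 - z.2| ≤ 2 ^ j → j + 1 ≤ K →
    Setup P cf φ (BR z (2 ^ K)) D G W Wp →
    HSum.HUpper P s D Bd (C0 * Pr) → (∀ ω, |W ω| ≤ Bd ω) → (∀ ω, |Wp ω| ≤ Bd ω) →
    (∀ ω, g ω = 0 ∨ g ω = 1) → P.Dep D g → P.Dep Gᶜ g → (∀ ω, g ω = 0 → Wp ω = W ω) →
    0 < c → 0 < Pr → 0 ≤ C0 → c * Pr ≤ P.E Wp → 2 * C0 * P.E g ^ (1 - (1 / 2 : ℝ) ^ s) ≤ c / 2 →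
    (∀ ω, Y ω = cls E (BR z (2 ^ K)) z z' (cf ω) * W ω + Mr ω) →
    (∀ ω, Yp ω = cls E (BR z (2 ^ K)) z z' (cf ω) * Wp ω + Mrp ω) →
    (∀ ω, g ω = 0 → Mrp ω = Mr ω) →
    (∀ ω, |Mr ω| ≤ Bd ω * (2 * NF Set.univ z (2 ^ j) (2 ^ K) (cf ω))) →
    (∀ ω, |Mrp ω| ≤ Bd ω * (2 * NF Set.univ z (2 ^ j) (2 ^ K) (cf ω))) →
    c / 2 * Pr ≤ P.E W ∧ |P.E Yp / P.E Wp - P.E Y / P.E W| ≤
      (4 * C0 / c + 8 * C0 ^ 2 / c ^ 2) * P.E g ^ (1 - (1 / 2 : ℝ) ^ s) *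
        (C * ((2 : ℝ) ^ j / 2 ^ K) ^ ((1 - (1 / 2 : ℝ) ^ s) / 8)) := by
  set p : ℕ := 2 ^ (s + 1) with hp
  obtain ⟨C₁, hC₁, hpt⟩ := mom_pt p
  obtain ⟨C₂, hC₂, hNF⟩ := mom_NF p
  obtain ⟨Ca, hCa, haY⟩ := av_nY
  obtain ⟨Cb, hCb, haX⟩ := pr_nX
  set Cp : ℝ := max Ca Cb with hCpdef
  have hCp1 : 1 ≤ Cp := hCa.trans (le_max_left _ _)
  have haY' : ∀ (v : ℤ × ℤ) (r R : ℕ) (S : Finset (ℤ × ℤ)), 1 ≤ r → r ≤ R →
      BR v (R : ℤ) ⊆ S → av S (nY v r R) ≤ Cp * ((r : ℝ) / R) ^ (1 / 4 : ℝ) := fun v r R S h1 h2 h3 =>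
    (haY v r R S h1 h2 h3).trans (mul_le_mul_of_nonneg_right (le_max_left _ _) (by positivity))
  have haX' : ∀ (v : ℤ × ℤ) (r R : ℕ) (S : Finset (ℤ × ℤ)), 1 ≤ r → r ≤ R →
      BR v (R : ℤ) ⊆ S → av S (nX v r R) ≤ Cp * ((r : ℝ) / R) ^ (1 / 4 : ℝ) := fun v r R S h1 h2 h3 =>
    (haX v r R S h1 h2 h3).trans (mul_le_mul_of_nonneg_right (le_max_right _ _) (by positivity))
  set θ : ℝ := 1 - (1 / 2 : ℝ) ^ s with hθ
  have hθ1 : θ ≤ 1 := by
    have : (0 : ℝ) ≤ (1 / 2) ^ s := by positivity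
    linarith
  have hθ0 : 0 < θ := by
    have : (1 / 2 : ℝ) ^ s ≤ (1 / 2) ^ 1 := pow_le_pow_of_le_one (by norm_num) (by norm_num) hs1
    have h2 : (1 / 2 : ℝ) ^ 1 = 1 / 2 := pow_one _
    linarith
  set e : ℝ := (1 / 2 : ℝ) ^ (s + 1) with he
  set m₁ : ℝ := C₁ ^ e with hm₁
  set m₂ : ℝ := (Real.sqrt 3 ^ p * C₂) ^ e with hm₂
  set mR : ℝ := (2 ^ p * C₂) ^ e with hmR
  obtain ⟨C, hC, hnum⟩ := num_sum (θ := θ) (Cp := Cp) (m₁ := m₁) (m₂ := m₂) (mR := mR) hθ0 hθ1 hCp1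
    (by positivity) (by positivity) (by positivity)
  refine ⟨C, hC, fun Ω ι P cf φ D G W Wp Bd g Y Yp Mr Mrp c C0 Pr z z' j K E hs hF hz1 hz2 hjK hset hU
    hWB hWpB hg hgD hgG hsame hc hPr hC0 hZ hsm hY hYp hsameM hMr hMrp => ?_⟩
  have h3 : (0 : ℝ) ≤ Real.sqrt 3 := Real.sqrt_nonneg 3
  rw [abs_le] at hz1 hz2
  have j1 := pw1 j
  have jK := pw_mono hjK
  have js : (2 : ℤ) ^ (j + 1) = 2 * 2 ^ j := by rw [pow_succ]; ring
  have hPL : HasPotQ ZQ (BR z (2 ^ K)) := hasPotQ_BR _ _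
  have hPE : HasPotQ ZQ E.F := hF ▸ hPL
  set q := cor z j with hq
  have hq1 : q.1 = z.1 - 2 ^ (j + 1) := rfl
  have hq2 : q.2 = z.2 - 2 ^ (j + 1) := rfl
  have hqL : InR (z.1 - 2 ^ K) (z.1 + 2 ^ K) (z.2 - 2 ^ K) (z.2 + 2 ^ K) q := by
    unfold InR
    rw [hq1, hq2]
    omega
  -- large scales
  have hL : ∀ k ∈ Finset.Ico (j + 1) K, HSum.Cls P s D G W Wp
      (fun ω => cls E (BR z (2 ^ (k + 1))) z z' (cf ω) - cls E (BR z (2 ^ k)) z z' (cf ω))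
      (fun ω => nX z (2 ^ j) (2 ^ k) (cf ω)) (fun ω => nY z (2 ^ (k + 1)) (2 ^ K) (cf ω))
      (φ '' (BR z (2 ^ (k + 1)) : Set (ℤ × ℤ))) m₂
      (Cp ^ 2 * (((2 : ℝ) ^ j / 2 ^ k) ^ (1 / 4 : ℝ) * ((2 : ℝ) ^ (k + 1) / 2 ^ K) ^ (1 / 4 : ℝ))) := by
    intro k hk
    rw [Finset.mem_Ico] at hk
    have hjk : j ≤ k := by omega
    have k1 := pw_mono (show k ≤ k + 1 by omega)
    have kK := pw_mono (show k + 1 ≤ K by omega)
    have jk := pw_mono hjk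
    have j1k := pw_mono hk.1
    have hBk : BR z ((2 ^ k : ℕ) : ℤ) ⊆ BR z (2 ^ K) := by
      push_cast
      exact br_sub (by omega)
    have hcardle : ∀ ω, |cls E (BR z (2 ^ (k + 1))) z z' ω - cls E (BR z (2 ^ k)) z z' ω| ≤
        Real.sqrt 3 * NF Set.univ z (2 ^ j) (2 ^ k) ω := by
      intro ω
      refine (cls_sub_le hs (br_sub k1) z z' ω).trans (mul_le_mul_of_nonneg_left ?_ h3)
      have h4 := card_le_NF (A' := BR z (2 ^ (k + 1))) (ω := ω) hPE (z := z) (z' := z') (p := z) (r := 2 ^ j)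
        (R := 2 ^ k) (A := BR z (2 ^ k)) (by omega) (by omega) (hF ▸ br_sub (by omega)) (by
          refine conn_box (by omega) (by omega) ?_ ?_
          · unfold InR; omega
          · unfold InR; omega) (Finset.Subset.refl _)
      exact_mod_cast h4
    have h5 := cls_of_pair (s := s) hset (v := z) (r₀ := 2 ^ j) (r₁ := 2 ^ k) (r := 2 ^ (k + 1)) (R := 2 ^ K)
      (g := fun ω => cls E (BR z (2 ^ (k + 1))) z z' ω - cls E (BR z (2 ^ k)) z z' ω)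
      (C := Real.sqrt 3 ^ p * C₂) (Cp := Cp)
      (Nat.pow_le_pow_right (by norm_num) (by omega)) Nat.one_le_two_pow
      (Nat.pow_le_pow_right (by norm_num) (by omega)) (by push_cast; exact Finset.Subset.refl _)
      (by
        push_cast
        exact dep_cls_sub E (br_sub k1) z z')
      (fun ω hω => by
        have h6 := hcardle ω
        have h7 : NF Set.univ z (2 ^ j) (2 ^ k) ω = 0 := by
          unfold nX at hω
          push_cast at hω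
          split_ifs at hω with h8
          · exact absurd hω one_ne_zero
          · omega
        rw [h7] at h6
        push_cast at h6
        rw [mul_zero] at h6
        exact abs_eq_zero.mp (le_antisymm h6 (abs_nonneg _)))
      (by
        refine le_trans (av_mono (g' := fun ω => Real.sqrt 3 ^ p * (NF Set.univ z (2 ^ j) (2 ^ k) ω : ℝ) ^ p)
          fun T _ => ?_) ?_
        · rw [← mul_pow]
          exact pow_le_pow_left₀ (abs_nonneg _) (hcardle _) _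
        · rw [av_mul]
          refine mul_le_mul_of_nonneg_left (hNF z (2 ^ j) (2 ^ k) _ j1 (by omega) (br_sub (by omega)))
            (by positivity)) (by linarith)
      (haX' z (2 ^ j) (2 ^ k) _ Nat.one_le_two_pow (Nat.pow_le_pow_right (by norm_num) hjk) hBk)
      (haY' z (2 ^ (k + 1)) (2 ^ K) _ Nat.one_le_two_pow (Nat.pow_le_pow_right (by norm_num) (by omega))
        (by push_cast; exact Finset.Subset.refl _))
    push_cast at h5
    exact h5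
  -- points: the moments
  have hm1 : ∀ (A A' : Finset (ℤ × ℤ)) (v w : ℤ × ℤ) (ρ σ : ℤ), A' = BR v ρ → 1 ≤ ρ → BR v ρ ⊆ BR z (2 ^ K) →
      v.1 - ρ ≤ w.1 ∧ w.1 ≤ v.1 + ρ ∧ v.2 - ρ ≤ w.2 ∧ w.2 ≤ v.2 + ρ → q.1 ≤ v.1 - ρ →
      (A = BR w σ ∧ 1 ≤ σ ∨ A = ∅ ∧ σ = 0) → 2 * ρ ≤ 8 * max σ 1 → A ⊆ A' →
      av (BR z (2 ^ K)) (fun ω => |cls E A' w q ω - cls E A w q ω| ^ p) ≤ C₁ := by
    intro A A' v w ρ σ hA' hρ hsub hw hqv hσ h8 hAA
    subst hA'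
    have hc1 : z.1 - 2 ^ K ≤ v.1 - ρ ∧ v.1 + ρ ≤ z.1 + 2 ^ K ∧ z.2 - 2 ^ K ≤ v.2 - ρ ∧
        v.2 + ρ ≤ z.2 + 2 ^ K := by
      have f1 : (v.1 - ρ, v.2 - ρ) ∈ BR z (2 ^ K) := hsub (by rw [mem_BR]; simp only; omega)
      have f2 : (v.1 + ρ - 1, v.2 + ρ - 1) ∈ BR z (2 ^ K) := hsub (by rw [mem_BR]; simp only; omega)
      rw [mem_BR] at f1 f2
      simp only at f1 f2
      omega
    exact hpt E (z.1 - 2 ^ K) (z.1 + 2 ^ K) (z.2 - 2 ^ K) (z.2 + 2 ^ K) (v.1 - ρ) (v.1 + ρ) (v.2 - ρ) (v.2 + ρ)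
      σ w q A (BR z (2 ^ K)) hs hF hPE (by omega) (by omega) hc1.1 hc1.2.1 hc1.2.2.1 hc1.2.2.2
      hw hqL (Or.inl hqv) hσ (by omega) (by omega) hAA hsub
  -- the classes around the first point
  have hP1 : ∀ k ∈ Finset.range (j + 2), HSum.Cls P s D G W Wp
      (fun ω => cls E (bx z (k + 1)) z q (cf ω) - cls E (bx z k) z q (cf ω))
      (fun _ => 1) (fun ω => nY z (2 ^ k) (2 ^ K) (cf ω))
      (φ '' (BR z (2 ^ k) : Set (ℤ × ℤ))) m₁ (Cp * ((2 : ℝ) ^ k / 2 ^ K) ^ (1 / 4 : ℝ)) := by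
    intro k hk
    rw [Finset.mem_range] at hk
    have kK := pw_mono (show k ≤ K by omega)
    have kj := pw_mono (show k ≤ j + 1 by omega)
    have k1 := pw1 k
    have hsubk : bx z k ⊆ bx z (k + 1) := by
      rcases k with _ | k
      · exact Finset.empty_subset _
      · exact br_sub (pw_mono (by omega))
    have h5 := cls_of_pt (s := s) hset (v := z) (r := 2 ^ k) (R := 2 ^ K)
      (g := fun ω => cls E (bx z (k + 1)) z q ω - cls E (bx z k) z q ω) (C := C₁) (Cp := Cp)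
      Nat.one_le_two_pow (Nat.pow_le_pow_right (by norm_num) (by omega))
      (by push_cast; exact Finset.Subset.refl _)
      (by
        push_cast
        exact dep_cls_sub E hsubk z q)
      (by
        refine hm1 (bx z k) (bx z (k + 1)) z z (2 ^ k) (if k = 0 then 0 else 2 ^ (k - 1)) rfl k1 (br_sub kK)
          (by omega) (by rw [hq1]; omega) ?_ ?_ hsubk
        · rcases k with _ | k
          · exact Or.inr ⟨rfl, rfl⟩
          · exact Or.inl ⟨rfl, pw1 _⟩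
        · rcases k with _ | k
          · norm_num
          · rw [if_neg (by omega), Nat.add_sub_cancel]
            have := pw1 k
            have e2 : (2 : ℤ) ^ (k + 1) = 2 * 2 ^ k := by rw [pow_succ]; ring
            omega)
      (haY' z (2 ^ k) (2 ^ K) _ Nat.one_le_two_pow (Nat.pow_le_pow_right (by norm_num) (by omega))
        (by push_cast; exact Finset.Subset.refl _))
    push_cast at h5
    exact h5
  -- the classes around the second point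
  have hP2 : ∀ k ∈ Finset.range (j + 2), HSum.Cls P s D G W Wp
      (fun ω => -(cls E (bx' z z' j (k + 1)) z' q (cf ω) - cls E (bx' z z' j k) z' q (cf ω)))
      (fun _ => 1) (fun ω => if k ≤ j then nY z' (2 ^ k) (2 ^ (K - 1)) (cf ω) else nY z (2 ^ k) (2 ^ K) (cf ω))
      (φ '' (bx' z z' j (k + 1) : Set (ℤ × ℤ))) m₁ (Cp * ((2 : ℝ) ^ k / 2 ^ (K - 1)) ^ (1 / 4 : ℝ)) := by
    intro k hk
    rw [Finset.mem_range] at hk
    refine neg_cls ?_
    have kK := pw_mono (show k ≤ K by omega)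
    have kj := pw_mono (show k ≤ j + 1 by omega)
    have k1 := pw1 k
    have K1 : (2 : ℤ) ^ K = 2 * 2 ^ (K - 1) := by
      rw [← pow_succ']
      congr 1
      omega
    have jK1 := pw_mono (show j ≤ K - 1 by omega)
    have hbz : BR z' (2 ^ (K - 1)) ⊆ BR z (2 ^ K) := by
      intro f hf
      rw [mem_BR] at hf ⊢
      omega
    have hbe : ∀ i, i ≤ j → bx' z z' j (i + 1) = BR z' (2 ^ i) := fun i hi => if_pos hi
    by_cases hkj : k ≤ j
    · have hsubk : bx' z z' j k ⊆ bx' z z' j (k + 1) := by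
        rcases k with _ | k
        · exact Finset.empty_subset _
        · rw [hbe k (by omega), hbe (k + 1) hkj]
          exact br_sub (pw_mono (by omega))
      have kj2 := pw_mono hkj
      have h5 := cls_of_pt (s := s) hset (v := z') (r := 2 ^ k) (R := 2 ^ (K - 1))
        (g := fun ω => cls E (bx' z z' j (k + 1)) z' q ω - cls E (bx' z z' j k) z' q ω) (C := C₁) (Cp := Cp)
        Nat.one_le_two_pow (Nat.pow_le_pow_right (by norm_num) (by omega))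
        (by push_cast; exact hbz)
        (by
          push_cast
          have h6 := dep_cls_sub E hsubk z' q
          rw [hbe k hkj] at h6
          rw [hbe k hkj]
          exact h6)
        (by
          refine hm1 (bx' z z' j k) (bx' z z' j (k + 1)) z' z' (2 ^ k) (if k = 0 then 0 else 2 ^ (k - 1))
            (hbe k hkj) k1 ((br_sub (pw_mono (by omega))).trans hbz) (by omega) (by rw [hq1]; omega) ?_ ?_ hsubk
          · rcases k with _ | k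
            · exact Or.inr ⟨rfl, rfl⟩
            · exact Or.inl ⟨hbe k (by omega), pw1 _⟩
          · rcases k with _ | k
            · norm_num
            · rw [if_neg (by omega), Nat.add_sub_cancel]
              have := pw1 k
              have e2 : (2 : ℤ) ^ (k + 1) = 2 * 2 ^ k := by rw [pow_succ]; ring
              omega)
        (haY' z' (2 ^ k) (2 ^ (K - 1)) _ Nat.one_le_two_pow (Nat.pow_le_pow_right (by norm_num) (by omega))
          (by push_cast; exact hbz))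
      push_cast at h5
      simp only [if_pos hkj]
      rw [hbe k hkj] at h5 ⊢
      exact h5
    · obtain rfl : k = j + 1 := by omega
      have e1 : bx' z z' j (j + 1 + 1) = BR z (2 ^ (j + 1)) := if_neg (by omega)
      have e2 : bx' z z' j (j + 1) = BR z' (2 ^ j) := hbe j le_rfl
      have hsubk : BR z' (2 ^ j) ⊆ BR z (2 ^ (j + 1)) := by
        intro f hf
        rw [mem_BR] at hf ⊢
        omega
      have h5 := cls_of_pt (s := s) hset (v := z) (r := 2 ^ (j + 1)) (R := 2 ^ K)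
        (g := fun ω => cls E (BR z (2 ^ (j + 1))) z' q ω - cls E (BR z' (2 ^ j)) z' q ω) (C := C₁) (Cp := Cp)
        Nat.one_le_two_pow (Nat.pow_le_pow_right (by norm_num) (by omega))
        (by push_cast; exact Finset.Subset.refl _)
        (by
          push_cast
          exact dep_cls_sub E hsubk z' q)
        (by
          refine hm1 (BR z' (2 ^ j)) (BR z (2 ^ (j + 1))) z z' (2 ^ (j + 1)) (2 ^ j) rfl (by omega)
            (br_sub (by omega)) (by omega) (by rw [hq1]) (Or.inl ⟨rfl, j1⟩) (by omega) hsubk)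
        (haY' z (2 ^ (j + 1)) (2 ^ K) _ Nat.one_le_two_pow (Nat.pow_le_pow_right (by norm_num) (by omega))
          (by push_cast; exact Finset.Subset.refl _))
      push_cast at h5
      have h7 := cls_mono_q h5 (q' := Cp * ((2 : ℝ) ^ (j + 1) / 2 ^ (K - 1)) ^ (1 / 4 : ℝ)) (by
        refine mul_le_mul_of_nonneg_left (Real.rpow_le_rpow (by positivity) ?_ (by norm_num)) (by linarith)
        refine div_le_div_of_nonneg_left (by positivity) (by positivity) ?_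
        exact pow_le_pow_right₀ (by norm_num) (by omega))
      simp only [if_neg hkj]
      rw [e1, e2]
      exact h7
  have hNFd : Dep (BR z (2 ^ K) : Set (ℤ × ℤ)) (NF Set.univ z (2 ^ j) (2 ^ K)) := fun ω ω' h =>
    dep_NF' z (2 ^ j) (2 ^ K) ω ω' fun f hf => h f (by exact_mod_cast an_sub _ _ _ (by exact_mod_cast hf))
  have hNXd : Dep (BR z (2 ^ K) : Set (ℤ × ℤ)) (nX z (2 ^ j) (2 ^ K)) := fun ω ω' h =>
    dep_nX z (2 ^ j) (2 ^ K) ω ω' fun f hf => h f (by exact_mod_cast an_sub _ _ _ (by exact_mod_cast hf))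
  have hNn : ∀ ω : Cfg, (2 * NF Set.univ z (2 ^ j) (2 ^ K) ω : ℝ) =
      nX z (2 ^ j) (2 ^ K) ω * (2 * NF Set.univ z (2 ^ j) (2 ^ K) ω) := by
    intro ω
    unfold nX
    split_ifs with h
    · rw [one_mul]
    · have h0 : NF Set.univ z (2 ^ j) (2 ^ K) ω = 0 := by omega
      rw [h0]
      simp
  have hfin := HSum.height_compare (P := P) (s := s) (D := D) (G := G) (W := W) (Wp := Wp) (Bd := Bd) (g := g)
    (c := c) (C0 := C0) (Pr := Pr)
    (K := (Finset.Ico (j + 1) K).disjSum ((Finset.range (j + 2)).disjSum (Finset.range (j + 2))))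
    (Y := Y) (Yp := Yp) (Mr := Mr) (Mrp := Mrp) (nR := fun ω => nX z (2 ^ j) (2 ^ K) (cf ω))
    (NR := fun ω => 2 * (NF Set.univ z (2 ^ j) (2 ^ K) (cf ω) : ℝ))
    (y := Sum.elim (fun k ω => cls E (BR z (2 ^ (k + 1))) z z' (cf ω) - cls E (BR z (2 ^ k)) z z' (cf ω))
      (Sum.elim (fun k ω => cls E (bx z (k + 1)) z q (cf ω) - cls E (bx z k) z q (cf ω))
        (fun k ω => -(cls E (bx' z z' j (k + 1)) z' q (cf ω) - cls E (bx' z z' j k) z' q (cf ω)))))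
    (a := Sum.elim (fun k ω => nX z (2 ^ j) (2 ^ k) (cf ω)) (Sum.elim (fun _ _ => 1) (fun _ _ => 1)))
    (n := Sum.elim (fun k ω => nY z (2 ^ (k + 1)) (2 ^ K) (cf ω))
      (Sum.elim (fun k ω => nY z (2 ^ k) (2 ^ K) (cf ω))
        (fun k ω => if k ≤ j then nY z' (2 ^ k) (2 ^ (K - 1)) (cf ω) else nY z (2 ^ k) (2 ^ K) (cf ω))))
    (B := Sum.elim (fun k => φ '' (BR z (2 ^ (k + 1)) : Set (ℤ × ℤ)))
      (Sum.elim (fun k => φ '' (BR z (2 ^ k) : Set (ℤ × ℤ)))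
        (fun k => φ '' (bx' z z' j (k + 1) : Set (ℤ × ℤ)))))
    (m := Sum.elim (fun _ => m₂) (Sum.elim (fun _ => m₁) (fun _ => m₁)))
    (q := Sum.elim (fun k => Cp ^ 2 * (((2 : ℝ) ^ j / 2 ^ k) ^ (1 / 4 : ℝ) * ((2 : ℝ) ^ (k + 1) / 2 ^ K) ^ (1 / 4 : ℝ)))
      (Sum.elim (fun k => Cp * ((2 : ℝ) ^ k / 2 ^ K) ^ (1 / 4 : ℝ))
        (fun k => Cp * ((2 : ℝ) ^ k / 2 ^ (K - 1)) ^ (1 / 4 : ℝ))))
    (mR := mR) (qR := Cp * ((2 : ℝ) ^ j / 2 ^ K) ^ (1 / 4 : ℝ))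
    hU hWB hWpB hg hgD hgG hsame hc hPr hC0 hZ hsm
    (by
      rintro (k | k | k) hk
      · exact hL k (by simpa using hk)
      · exact hP1 k (by simpa using hk)
      · exact hP2 k (by simpa using hk))
    (by
      intro ω
      rw [hY ω, Finset.sum_disjSum, Finset.sum_disjSum, decomp E hjK (cf ω)]
      simp only [Sum.elim_inl, Sum.elim_inr, ← Finset.sum_mul, Finset.sum_neg_distrib]
      ring)
    (by
      intro ω
      rw [hYp ω, Finset.sum_disjSum, Finset.sum_disjSum, decomp E hjK (cf ω)]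
      simp only [Sum.elim_inl, Sum.elim_inr, ← Finset.sum_mul, Finset.sum_neg_distrib]
      ring)
    hsameM (fun ω => nX01 _ _ _ _) (fun ω => by positivity)
    (hset.depDG (Finset.Subset.refl _) hNXd)
    (hset.depDG (Finset.Subset.refl _) (f := fun ω => 2 * (NF Set.univ z (2 ^ j) (2 ^ K) ω : ℝ))
      fun ω ω' h => by simp only; rw [hNFd ω ω' h])
    (fun ω => (hMr ω).trans (le_of_eq (by rw [← hNn])))
    (fun ω => (hMrp ω).trans (le_of_eq (by rw [← hNn])))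
    (by
      rw [hset.E _ hNXd]
      have := haX' z (2 ^ j) (2 ^ K) (BR z (2 ^ K)) Nat.one_le_two_pow
        (Nat.pow_le_pow_right (by norm_num) (by omega)) (by push_cast; exact Finset.Subset.refl _)
      push_cast at this
      exact this)
    (by
      rw [hset.E (fun ω => (2 * (NF Set.univ z (2 ^ j) (2 ^ K) ω : ℝ)) ^ (2 ^ (s + 1)))
        fun ω ω' h => by simp only; rw [hNFd ω ω' h]]
      refine Real.rpow_le_rpow (av_nonneg fun T _ => by positivity) ?_ (by positivity)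
      have e1 : (fun ω : Cfg => (2 * (NF Set.univ z (2 ^ j) (2 ^ K) ω : ℝ)) ^ (2 ^ (s + 1))) =
          fun ω => 2 ^ p * (NF Set.univ z (2 ^ j) (2 ^ K) ω : ℝ) ^ p := by
        funext ω
        rw [mul_pow]
      rw [e1, av_mul]
      exact mul_le_mul_of_nonneg_left (hNF z (2 ^ j) (2 ^ K) _ j1 (by omega) (Finset.Subset.refl _))
        (by positivity))
  refine ⟨hfin.1, hfin.2.trans (mul_le_mul_of_nonneg_left ?_ ?_)⟩
  · rw [Finset.sum_disjSum, Finset.sum_disjSum]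
    simp only [Sum.elim_inl, Sum.elim_inr]
    exact hnum j K hjK
  · have hg0 := HSum.E01 P hg
    have : 0 ≤ P.E g ^ θ := Real.rpow_nonneg hg0.1 _
    positivity

end

end

end Pool.Agent.SixB.HC
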