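import Pool.Agent.Lib.SixB.S3HCmp
import Pool.Agent.Lib.SixB.S3HClsB

/-!
# 6BD step 3.8 (R18): comparison of the mean heights of two complexes, with the sum over the scales

* `inn_of`, `inn_BR`; `nx_of_not_blk`: no blocking of an annulus gives a crossing strand; `card_NR_le`.
* `DskI.restr`: restriction of `HCmp.DskI` to a smaller disc.
* `setup_of`: `HC.Setup` from two `HCmp.DskI`.
* `hcmp2`: `|dV - dV'| ≤ C P(g) ^ θ (2 ^ j / 2 ^ K) ^ (θ / 8)`.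
-/

set_option autoImplicit false
set_option linter.unusedSectionVars false

namespace Pool.Agent.SixB.HC

open Pool.Agent.Perc Pool.Agent.Perc.Q Pool.Agent.PercD Pool.Agent.PercN Pool.Agent.Perc6 Relation
open Pool.Agent.SixB Pool.Agent.SixB.Tilt Pool.Agent.SixB.PC Pool.Agent.SixB.HDet
open Pool.Agent.SixB.HCmp (DskI)
open Pool.Agent.SixB.Rel (QChart QMap)

noncomputable section

variable {V Φ : Type} [DecidableEq V] [DecidableEq Φ]
variable {Q : QC V Φ} {F : Finset Φ} {ν : ℤ × ℤ → V} {φ : ℤ × ℤ → Φ} {L L' A S : Finset (ℤ × ℤ)}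
  {ω ω' : Φ → Bool} {a b e : DZ} {z z' : VZ} {W Wp : (Φ → Bool) → ℝ} {τ τp : V × V → (Φ → Bool) → ℝ}

/-! ### Planar facts -/

theorem inn_of (h : ∀ f ∈ S, f ∈ L ∧ (f.1, f.2 - 1) ∈ L ∧ (f.1 + 1, f.2) ∈ L ∧ (f.1, f.2 + 1) ∈ L ∧
    (f.1 - 1, f.2) ∈ L) : Inn S L := by
  intro d hd
  obtain ⟨f, hf, k, rfl | rfl⟩ := mem_dE.mp hd
  · exact ⟨f, (h f hf).1, k, rfl⟩
  · obtain ⟨h0, h1, h2, h3, h4⟩ := h f hf
    obtain ⟨x, y⟩ := f
    rcases k4 k with rfl | rfl | rfl | rfl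
    · refine ⟨_, h1, 2, ?_⟩
      change (((x + 1, y), (x, y)) : DZ) = ((x + 1, y - 1 + 1), (x, y - 1 + 1))
      rw [sub_add_cancel]
    · refine ⟨_, h2, 3, ?_⟩
      rfl
    · refine ⟨_, h3, 0, ?_⟩
      rfl
    · refine ⟨_, h4, 1, ?_⟩
      change (((x, y), (x, y + 1)) : DZ) = ((x - 1 + 1, y), (x - 1 + 1, y + 1))
      rw [sub_add_cancel]

/-- the face on the other side -/
theorem exists_nb (f : ℤ × ℤ) (k : ZMod 4) : ∃ (g : ℤ × ℤ) (l : ZMod 4), (sd ZQ f k).swap = sd ZQ g l := by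
  obtain ⟨x, y⟩ := f
  rcases k4 k with rfl | rfl | rfl | rfl
  · refine ⟨(x, y - 1), 2, ?_⟩
    change (((x + 1, y), (x, y)) : DZ) = ((x + 1, y - 1 + 1), (x, y - 1 + 1))
    rw [sub_add_cancel]
  · exact ⟨(x + 1, y), 3, rfl⟩
  · exact ⟨(x, y + 1), 0, rfl⟩
  · refine ⟨(x - 1, y), 1, ?_⟩
    change (((x, y), (x, y + 1)) : DZ) = ((x - 1 + 1, y), (x - 1 + 1, y + 1))
    rw [sub_add_cancel]

theorem inn_BR {v : ℤ × ℤ} {s t : ℤ} (h : s < t) : Inn (BR v s) (BR v t) := by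
  refine inn_of fun f hf => ?_
  simp only [mem_BR] at hf ⊢
  omega

theorem inn_mono (h : Inn S L) (hL : L ⊆ L') : Inn S L' := fun d hd => by
  obtain ⟨f, hf, k, hk⟩ := h d hd
  exact ⟨f, hL hf, k, hk⟩

/-- an annulus which is not blocked is crossed -/
theorem nx_of_not_blk {v : ℤ × ℤ} {s t : ℤ} (hs : 0 ≤ s) (c : Cfg)
    (h : ¬ Rel.Blk ZQ (BR v t \ BR v s) c (dE ZQ (BR v s)) (dE ZQ (L \ BR v t))) :
    1 ≤ NF Set.univ v s t c := by
  classical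
  unfold Rel.Blk at h
  push Not at h
  obtain ⟨x, hx, y, hy, hx', hy', hxy⟩ := h
  have hm : und y ∈ MM c (Set.univ ∩ (An v s t : Set (ℤ × ℤ))) (und x) := by
    refine MM_mono ?_ (MM_of_srel hxy)
    intro f hf
    have hf' : f ∈ BR v t \ BR v s := by exact_mod_cast hf
    refine ⟨trivial, ?_⟩
    rw [Finset.mem_coe, mem_An]
    exact Finset.mem_sdiff.mp hf'
  have hbx : BdR v s (und x) := by
    obtain ⟨f, hf, hsf⟩ := und_side hx
    obtain ⟨g, hg, hsg⟩ := und_side hx'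
    exact bd_of_side (inE_of_side (by exact_mod_cast hf) hsf) hsg fun hh =>
      (Finset.mem_sdiff.mp hg).2 (by exact_mod_cast hh)
  have hby : BdR v t (und y) := by
    obtain ⟨f, hf, hsf⟩ := und_side hy
    obtain ⟨g, hg, hsg⟩ := und_side hy'
    exact bd_of_side (inE_of_side (by exact_mod_cast (Finset.mem_sdiff.mp hg).1) hsg) hsf fun hh =>
      (Finset.mem_sdiff.mp hf).2 (by exact_mod_cast hh)
  unfold NF
  refine Finset.card_pos.mpr ⟨und x, ?_⟩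
  rw [Finset.mem_filter]
  exact ⟨(hbx.inE hs).mem_UB, hbx, und y, hm, hby⟩

/-- the strands of a box which are not closed and separate two vertices of a smaller box -/
theorem card_NR_le {p : ℤ × ℤ} {r R : ℤ} (hr : 0 ≤ r) (hrR : r < R) (hz : ConnE ZQ (BR p r) z z') (c : Cfg) :
    (NR (BR p R) z z' c).card ≤ NF Set.univ p r R c := by
  classical
  have hP : HasPotQ ZQ (BR p R) := hasPotQ_BR _ _
  obtain ⟨T, hT, hD, hT'⟩ := exists_reps (F := BR p R) (ω := c) (NR (BR p R) z z' c)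
    (fun U hU => (mem_NR.mp hU).1)
  rw [← hT]
  have h1 := card_le_sum_NF (ι := Unit) (G := Set.univ) hD {()} (fun _ => p) hr hrR
    (fun _ _ => Set.subset_univ _) (fun b hb => by
      obtain ⟨U, hU, e, he, rfl⟩ := hT' b hb
      obtain ⟨k1, k2, k4⟩ := mem_NR.mp hU
      have hd := HG.rep_dstr k1
      have hL := lft_spec hP hd
      obtain ⟨he', hXe⟩ := dstr_of_mem hd he
      refine ⟨(), Finset.mem_singleton_self _, ?_, ?_⟩
      · obtain ⟨a, ha, ha'⟩ := hL.visits (W3.B.br_sub hrR.le) hz k4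
        refine ⟨und a, ?_, ?_⟩
        · rw [MM_iff_dst he' (SixB.dE_mono (W3.B.br_sub hrR.le) ha), ← hXe]
          exact ha'
        · obtain ⟨f, hf, hs⟩ := und_side ha
          exact inE_of_side (by exact_mod_cast hf) hs
      · have hnc := k2 e he
        have h3 : stt (BR p R) c e ∈ bS ZQ (BR p R) := stt_mem hnc he'
        have h4 := (stt_spec hnc).1
        have h5 : und (stt (BR p R) c e) ∈ MM c (BR p R : Set (ℤ × ℤ)) (und e) := by
          refine MM_of_srel (srel_iff.mpr (Or.inr h4))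
        refine ⟨_, h5, fun hi => ?_⟩
        obtain ⟨f, hf, k, hk⟩ := bS_sd h3
        obtain ⟨g, l, hg⟩ := exists_nb f k
        have hgF : g ∉ BR p R := by
          intro hgF
          have h6 := (mem_bS.mp h3).2 g (by exact_mod_cast hgF) l
          apply h6
          rw [hk]
          have h7 := congrArg Prod.swap hg
          rwa [Prod.swap_swap] at h7
        have hs : IsSide g (und (stt (BR p R) c e)) := by
          rw [hk, und_sd, ← und_sd_swap, hg, und_sd]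
          exact su_isSide g l
        exact bd_of_side hi hs fun hh => hgF (by exact_mod_cast hh))
  simpa using h1

/-! ### Restriction to a smaller disc -/

theorem nB_restr (hL : L ⊆ L') (hI : Inn S L) (ω : Φ → Bool) :
    nB φ A S L ω = nB φ A S L' ω := by
  classical
  have h : Rel.Blk ZQ (S \ A) (pb φ ω) (dE ZQ A) (dE ZQ (L \ S)) ↔
      Rel.Blk ZQ (S \ A) (pb φ ω) (dE ZQ A) (dE ZQ (L' \ S)) := by
    constructor
    · intro hb c hc d hd hc' hd' hs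
      refine hb c hc d ?_ hc' hd' hs
      have hdS : d ∈ dE ZQ S := SixB.dE_mono Finset.sdiff_subset hd'
      have key : ∀ (x : DZ), x ∈ dE ZQ S → ∀ (g : ℤ × ℤ) (k : ZMod 4), x = sd ZQ g k → g ∈ L := by
        intro x hx g k hxk
        obtain ⟨f, hf, l, hl⟩ := hI x hx
        rw [hxk] at hl
        rw [(sd_inj hl).1]
        exact hf
      obtain ⟨g, hg, k, hk | hk⟩ := mem_dE.mp hd
      · have hgL := key d hdS g k hk
        exact mem_dE.mpr ⟨g, Finset.mem_sdiff.mpr ⟨hgL, (Finset.mem_sdiff.mp hg).2⟩, k, Or.inl hk⟩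
      · have hk' : d.swap = sd ZQ g k := by rw [hk, Prod.swap_swap]
        have hgL := key d.swap (swap_mem_dE.mpr hdS) g k hk'
        exact mem_dE.mpr ⟨g, Finset.mem_sdiff.mpr ⟨hgL, (Finset.mem_sdiff.mp hg).2⟩, k, Or.inr hk⟩
    · intro hb
      exact hb.mono (Finset.Subset.refl _) (SixB.dE_mono (Finset.sdiff_subset_sdiff hL (Finset.Subset.refl _)))
  unfold nB
  by_cases hb : Rel.Blk ZQ (S \ A) (pb φ ω) (dE ZQ A) (dE ZQ (L \ S))
  · rw [if_pos hb, if_pos (h.mp hb)]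
  · rw [if_neg hb, if_neg fun h' => hb (h.mpr h')]

theorem DskI.restr (D : DskI ν φ L' W τ) (hL : L ⊆ L') : DskI ν φ L W τ where
  srel ω a b h := D.srel ω a b (SRel.mono hL h)
  swap ω a ha := D.swap ω a (SixB.dE_mono hL ha)
  clo ω e h := by
    rw [D.clo ω e (h.mono hL), h.trn_eq hL]
  loc A S h1 h2 h3 h4 := by
    have h5 := D.loc A S h1 (h2.trans hL) h3 (inn_mono h4 hL)
    have e : (fun ω => W ω * (1 - nB φ A S L ω)) = fun ω => W ω * (1 - nB φ A S L' ω) := by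
      funext ω
      rw [nB_restr hL h4]
    rw [e]
    exact h5

/-! ### The setup -/

theorem dep_WnX (D : DskI ν φ L' W τ) (hinj : Set.InjOn φ (L' : Set (ℤ × ℤ))) {v : ℤ × ℤ} {r R : ℤ}
    (hr : 0 ≤ r) (hrR : r < R) (hI : Inn (BR v R) L') (hL : BR v R ⊆ L') :
    Dep (φ '' (BR v r : Set (ℤ × ℤ)))ᶜ (fun ω : Φ → Bool => W ω * (1 - nX v r R (pb φ ω))) := by
  have hsub := W3.B.br_sub (v := v) hrR.le
  have h1 := D.loc (BR v r) (BR v R) hsub hL (inn_BR hrR) hI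
  have hnb : ∀ ω, nB φ (BR v r) (BR v R) L' ω = 1 → nX v r R (pb φ ω) = 1 := by
    intro ω h
    unfold nX
    rw [if_pos]
    refine nx_of_not_blk (L := L') hr _ fun hb => ?_
    unfold nB at h
    rw [if_pos hb] at h
    exact zero_ne_one h
  have e : (fun ω : Φ → Bool => W ω * (1 - nX v r R (pb φ ω))) =
      fun ω => W ω * (1 - nB φ (BR v r) (BR v R) L' ω) * (1 - nX v r R (pb φ ω)) := by
    funext ω
    rcases nB_zero_or φ (BR v r) (BR v R) L' ω with h | h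
    · rw [h]
      ring
    · rw [hnb ω h]
      ring
  rw [e]
  intro ω ω' h
  have h2 := h1 ω ω' fun f hf => h f (by
    intro hf'
    obtain ⟨g, hg, rfl⟩ := hf'
    exact hf (by
      have hg' : g ∈ BR v r := by exact_mod_cast hg
      exact_mod_cast Finset.mem_image_of_mem φ hg'))
  have h3 : nX v r R (pb φ ω) = nX v r R (pb φ ω') := by
    refine dep_nX v r R _ _ fun f hf => h (φ f) ?_
    rintro ⟨g, hg, hgf⟩
    have hf' : f ∈ An v r R := by exact_mod_cast hf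
    have hg' : g ∈ BR v r := by exact_mod_cast hg
    have h4 := hinj (by exact_mod_cast hL (hsub hg')) (by exact_mod_cast hL (mem_An.mp hf').1) hgf
    subst h4
    exact (mem_An.mp hf').2 hg'
  have h2' : W ω * (1 - nB φ (BR v r) (BR v R) L' ω) = W ω' * (1 - nB φ (BR v r) (BR v R) L' ω') := h2
  show _ * _ = _ * _
  rw [h2', h3]

theorem setup_of {v : ℤ × ℤ} {R₀ : ℤ} (H : QChart ZQ Q L' ν φ 0) (hF : ∀ f ∈ L', φ f ∈ F)
    (hvL : BR v (R₀ + 1) ⊆ L') (D1 : DskI ν φ L' W τ) (D2 : DskI ν φ L' Wp τp) {D G : Set Φ}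
    (hDG : ((((BR v R₀).image φ : Finset Φ)) : Set Φ) ⊆ D ∩ G) :
    Setup (LH.avSys F) (pb φ) φ (BR v R₀) D G W Wp := by
  have hvL' : BR v R₀ ⊆ L' := (W3.B.br_sub (by omega)).trans hvL
  have hinj := HCmp.injOn_chart H
  have hIn : ∀ (w : ℤ × ℤ) (R : ℤ), 1 ≤ R → BR w R ⊆ BR v R₀ → Inn (BR w R) L' := by
    intro w R hR h
    have f1 : (w.1 - R, w.2 - R) ∈ BR v R₀ := h (by rw [mem_BR]; simp only; omega)
    have f2 : (w.1 + R - 1, w.2 + R - 1) ∈ BR v R₀ := h (by rw [mem_BR]; simp only; omega)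
    rw [mem_BR] at f1 f2
    simp only at f1 f2
    refine inn_of fun f hf => ?_
    rw [mem_BR] at hf
    refine ⟨hvL ?_, hvL ?_, hvL ?_, hvL ?_, hvL ?_⟩ <;> rw [mem_BR] <;>
      refine ⟨?_, ?_, ?_, ?_⟩ <;> omega
  refine ⟨fun S f hS hf => ?_, fun f hf => ?_, ?_, fun w r R hr hrR hL => ?_, fun w r R hr hrR hL => ?_⟩
  · have h1 := HCmp.dep_pull hf φ
    rw [Finset.coe_image] at h1
    exact h1
  · refine HCmp.av_pull (L := BR v R₀) (ν := ν) (Q := Q) (H.mono hvL') ?_ hf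
    intro x hx
    obtain ⟨f, hf, rfl⟩ := Finset.mem_image.mp hx
    exact hF f (hvL' hf)
  · rw [← Finset.coe_image]
    exact hDG
  · exact dep_WnX D1 hinj (by omega) hrR (hIn w R (by omega) hL) (hL.trans hvL')
  · exact dep_WnX D2 hinj (by omega) hrR (hIn w R (by omega) hL) (hL.trans hvL')

/-! ### The comparison -/

/-- the height differences do not depend on the disc -/
theorem hg_disc (D : DskI ν φ L' W τ) (hL : L ⊆ L') (hP : HasPotQ ZQ L) (hP' : HasPotQ ZQ L')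
    (hz : ConnE ZQ L z z') (ω : Φ → Bool) :
    hg τ ν φ L' z ω - hg τ ν φ L' z' ω = hg τ ν φ L z ω - hg τ ν φ L z' ω :=
  sub_eq_of_inc (u := fun w => hg τ ν φ L' w ω) (v := fun w => hg τ ν φ L w ω) (G := L) (Q := ZQ)
    (fun a ha => by rw [D.inc hP' (SixB.dE_mono hL ha), (DskI.restr D hL).inc hP ha]) hz

/-- **Comparison of the mean heights of two weights in a common disc `L'`**, with the factor of the scales. -/
theorem hcmp2 (s : ℕ) (hs1 : 1 ≤ s) : ∃ C : ℝ, 0 < C ∧ ∀ (V Φ : Type) [DecidableEq V] [DecidableEq Φ]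
    (Q : QC V Φ) (F : Finset Φ) (ν : ℤ × ℤ → V) (φ : ℤ × ℤ → Φ) (L' : Finset (ℤ × ℤ))
    (W Wp : (Φ → Bool) → ℝ) (τ τp : V × V → (Φ → Bool) → ℝ) (D G : Set Φ) (Bd g : (Φ → Bool) → ℝ)
    (c C0 Pr : ℝ) (z z' : ℤ × ℤ) (j K : ℕ), QChart ZQ Q L' ν φ 0 → (∀ f ∈ L', φ f ∈ F) → HasPotQ ZQ L' →
    BR z (2 ^ K + 1) ⊆ L' → |z'.1 - z.1| ≤ 2 ^ j → |z'.2 - z.2| ≤ 2 ^ j → j + 1 ≤ K →
    DskI ν φ L' W τ → DskI ν φ L' Wp τp →
    ((((BR z (2 ^ K)).image φ : Finset Φ)) : Set Φ) ⊆ D ∩ G →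
    HSum.HUpper (LH.avSys F) s D Bd (C0 * Pr) → (∀ ω, |W ω| ≤ Bd ω) → (∀ ω, |Wp ω| ≤ Bd ω) →
    (∀ ω, ∀ e ∈ dE ZQ L', |τ (mv ν e) ω| ≤ 2 * Bd ω) → (∀ ω, ∀ e ∈ dE ZQ L', |τp (mv ν e) ω| ≤ 2 * Bd ω) →
    (∀ ω, g ω = 0 ∨ g ω = 1) → Dep D g → Dep Gᶜ g →
    (∀ ω, g ω = 0 → Wp ω = W ω ∧ ∀ e ∈ dE ZQ L', τp (mv ν e) ω = τ (mv ν e) ω) →
    0 < c → 0 < Pr → 0 ≤ C0 → c * Pr ≤ av F Wp → 2 * C0 * av F g ^ (1 - (1 / 2 : ℝ) ^ s) ≤ c / 2 →
    c / 2 * Pr ≤ av F W ∧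
      |av F (fun ω => hg τp ν φ L' z ω - hg τp ν φ L' z' ω) / av F Wp -
        av F (fun ω => hg τ ν φ L' z ω - hg τ ν φ L' z' ω) / av F W| ≤
      (4 * C0 / c + 8 * C0 ^ 2 / c ^ 2) * av F g ^ (1 - (1 / 2 : ℝ) ^ s) *
        (C * ((2 : ℝ) ^ j / 2 ^ K) ^ ((1 - (1 / 2 : ℝ) ^ s) / 8)) := by
  obtain ⟨C, hC, hmain⟩ := height_scale s hs1
  refine ⟨C, hC, fun V Φ _ _ Q F ν φ L' W Wp τ τp D G Bd g c C0 Pr z z' j K H hF hP' hzL hz1 hz2 hjK D1 D2
    hDG hU hWB hWpB hτB hτpB hg1 hgD hgG hsame hc hPr hC0 hZ hsm => ?_⟩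
  have hL : BR z (2 ^ K) ⊆ L' := (W3.B.br_sub (by omega)).trans hzL
  have hP : HasPotQ ZQ (BR z (2 ^ K)) := hasPotQ_BR _ _
  have jK := pw_mono hjK
  have js : (2 : ℤ) ^ (j + 1) = 2 * 2 ^ j := by rw [pow_succ]; ring
  have j1 := pw1 j
  have hz1' := abs_le.mp hz1
  have hz2' := abs_le.mp hz2
  have hcon : ∀ R : ℤ, 2 ^ j ≤ R → ConnE ZQ (BR z R) z z' := by
    intro R hR
    refine conn_box (by omega) (by omega) ?_ ?_
    · unfold InR; omega
    · unfold InR; omega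
  have hE1 := fun ω => hg_disc (ω := ω) D1 hL hP hP' (hcon _ (by omega))
  have hE2 := fun ω => hg_disc (ω := ω) D2 hL hP hP' (hcon _ (by omega))
  have D1' := DskI.restr D1 hL
  have D2' := DskI.restr D2 hL
  have bound : ∀ {W' : (Φ → Bool) → ℝ} {τ' : V × V → (Φ → Bool) → ℝ}, DskI ν φ (BR z (2 ^ K)) W' τ' →
      (∀ ω, |W' ω| ≤ Bd ω) → (∀ ω, ∀ e ∈ dE ZQ L', |τ' (mv ν e) ω| ≤ 2 * Bd ω) →
      ∀ ω, |hg τ' ν φ (BR z (2 ^ K)) z ω - hg τ' ν φ (BR z (2 ^ K)) z' ω -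
        HG.cls (e0 (BR z (2 ^ K))) (BR z (2 ^ K)) z z' (pb φ ω) * W' ω| ≤
        Bd ω * (2 * NF Set.univ z (2 ^ j) (2 ^ K) (pb φ ω)) := by
    intro W' τ' D' hW' hτ' ω
    refine (D'.split z z' fun e he _ => hτ' ω e (SixB.dE_mono hL he)).trans ?_
    have h0 : (NR (BR z (2 ^ K)) z z' (pb φ ω)).card ≤ NF Set.univ z (2 ^ j) (2 ^ K) (pb φ ω) :=
      card_NR_le (p := z) (r := 2 ^ j) (R := 2 ^ K) (by omega) (by omega) (hcon _ le_rfl) (pb φ ω)
    have h1 : ((NR (BR z (2 ^ K)) z z' (pb φ ω)).card : ℝ) ≤ NF Set.univ z (2 ^ j) (2 ^ K) (pb φ ω) := by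
      exact_mod_cast h0
    have hBd : 0 ≤ Bd ω := (abs_nonneg _).trans (hW' ω)
    nlinarith
  have h := hmain (Φ → Bool) Φ (LH.avSys F) (pb φ) φ D G W Wp Bd g
    (fun ω => hg τ ν φ (BR z (2 ^ K)) z ω - hg τ ν φ (BR z (2 ^ K)) z' ω)
    (fun ω => hg τp ν φ (BR z (2 ^ K)) z ω - hg τp ν φ (BR z (2 ^ K)) z' ω)
    (fun ω => hg τ ν φ (BR z (2 ^ K)) z ω - hg τ ν φ (BR z (2 ^ K)) z' ω -
      HG.cls (e0 (BR z (2 ^ K))) (BR z (2 ^ K)) z z' (pb φ ω) * W ω)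
    (fun ω => hg τp ν φ (BR z (2 ^ K)) z ω - hg τp ν φ (BR z (2 ^ K)) z' ω -
      HG.cls (e0 (BR z (2 ^ K))) (BR z (2 ^ K)) z z' (pb φ ω) * Wp ω)
    c C0 Pr z z' j K (e0 (BR z (2 ^ K))) (fun _ _ => rfl) rfl hz1 hz2 hjK
    (setup_of H hF hzL D1 D2 hDG) hU hWB hWpB hg1 hgD hgG (fun ω h => (hsame ω h).1) hc hPr hC0 hZ hsm
    (fun ω => by ring) (fun ω => by ring)
    (fun ω h => by
      have h1 : ∀ e ∈ dE ZQ (BR z (2 ^ K)), τp (mv ν e) ω = τ (mv ν e) ω := fun e he =>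
        (hsame ω h).2 e (SixB.dE_mono hL he)
      rw [HCmp.hg_congr h1, HCmp.hg_congr h1, (hsame ω h).1])
    (bound D1' hWB hτB) (bound D2' hWpB hτpB)
  simp only [hE1, hE2]
  exact h

end

end Pool.Agent.SixB.HC
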