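import Pool.Agent.Lib.SixB.S3HFin
import Pool.Agent.Lib.SixB.S3HSet

/-!
# 6BD step 3.8 (R18): the comparison `Cmp s C` of S3HFin from `hcmp2` of S3HSet

The disc of `hcmp2` is `BR z (2 ^ K)` with a margin; the comparison in the disc `BR z (2 ^ (K + 1))` is `hcmp2` with
`K`, the factor of the scales changes by at most `2`.
-/

set_option autoImplicit false
set_option linter.unusedSectionVars false

namespace Pool.Agent.SixB.HCmp

open Pool.Agent.Perc Pool.Agent.Perc.Q Relation Pool.Agent.PercD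
open Pool.Agent.SixB Pool.Agent.SixB.Tilt Pool.Agent.SixB.PC Pool.Agent.SixB.HDet
open Pool.Agent.SixB.Rel (QChart)

noncomputable section

/-- **Comparison of two weights in the disc `BR z (2 ^ K)`**, points at distance `2 ^ j`, `j + 2 ≤ K`. -/
def CmpR (s : ℕ) (C : ℝ) : Prop :=
  ∀ {V Φ : Type} [DecidableEq V] [DecidableEq Φ] (Q : QC V Φ) (F : Finset Φ) (ν : ℤ × ℤ → V)
    (φ : ℤ × ℤ → Φ) (z z' : VZ) (j K : ℕ) (W Wp : (Φ → Bool) → ℝ) (τ τp : V × V → (Φ → Bool) → ℝ)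
    (Dm G : Set Φ) (Bd g : (Φ → Bool) → ℝ) (c C0 Pr : ℝ),
    QChart ZQ Q (BR z (2 ^ K)) ν φ 0 → (BR z (2 ^ K)).image φ ⊆ F →
    (((BR z (2 ^ K)).image φ : Finset Φ) : Set Φ) ⊆ Dm ∩ G →
    |z'.1 - z.1| ≤ 2 ^ j → |z'.2 - z.2| ≤ 2 ^ j → j + 2 ≤ K →
    Up ν φ (BR z (2 ^ K)) F W τ s Dm (C0 * Pr) Bd → Up ν φ (BR z (2 ^ K)) F Wp τp s Dm (C0 * Pr) Bd →
    (∀ ω, g ω = 0 ∨ g ω = 1) → Dep Dm g → Dep Gᶜ g →
    (∀ ω, g ω = 0 → Wp ω = W ω ∧ ∀ e ∈ dE ZQ (BR z (2 ^ K)), τp (mv ν e) ω = τ (mv ν e) ω) →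
    0 < c → 0 < Pr → 0 ≤ C0 → c * Pr ≤ av F Wp → 2 * C0 * av F g ^ th s ≤ c / 2 →
    c / 2 * Pr ≤ av F W ∧
      |dH ν φ (BR z (2 ^ K)) F Wp τp z z' - dH ν φ (BR z (2 ^ K)) F W τ z z'| ≤
        kc C0 c * av F g ^ th s * (C * sc s j K)

theorem th_nonneg (s : ℕ) : 0 ≤ th s := by
  unfold th
  have : (1 / 2 : ℝ) ^ s ≤ 1 := pow_le_one₀ (by norm_num) (by norm_num)
  linarith

theorem th_le_one (s : ℕ) : th s ≤ 1 := by
  unfold th
  have : (0 : ℝ) ≤ (1 / 2 : ℝ) ^ s := by positivity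
  linarith

/-- the factor of the scales with `K` and `K + 1` -/
theorem sc_succ (s j K : ℕ) : sc s j K ≤ 2 * sc s j (K + 1) := by
  unfold sc
  have h0 := th_nonneg s
  have h1 := th_le_one s
  have e : (2 : ℝ) ^ j / 2 ^ K = 2 * (2 ^ j / 2 ^ (K + 1)) := by
    rw [pow_succ]
    field_simp
  rw [e, Real.mul_rpow (by norm_num) (by positivity)]
  refine mul_le_mul_of_nonneg_right ?_ (by positivity)
  calc (2 : ℝ) ^ (th s / 8) ≤ 2 ^ (1 : ℝ) :=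
        Real.rpow_le_rpow_of_exponent_le (by norm_num) (by linarith)
    _ = 2 := Real.rpow_one 2

section

variable {V Φ : Type} [DecidableEq V] [DecidableEq Φ]
variable {F : Finset Φ} {ν : ℤ × ℤ → V} {φ : ℤ × ℤ → Φ} {L : Finset (ℤ × ℤ)}
  {W : (Φ → Bool) → ℝ} {τ : V × V → (Φ → Bool) → ℝ} {Bd : (Φ → Bool) → ℝ} {s : ℕ} {Dm : Set Φ} {A : ℝ}

/-- the insertion is bounded on the closed strands, too -/
theorem Up.hτ_all (U : Up ν φ L F W τ s Dm A Bd) (ω : Φ → Bool) {e : DZ} (he : e ∈ dE ZQ L) :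
    |τ (mv ν e) ω| ≤ 2 * Bd ω := by
  by_cases hc : Clo ZQ L (pb φ ω) e
  · have h1 := U.dsk.clo ω e hc
    have h2 := U.hW ω
    have h3 : Real.sqrt 3 ≤ 2 := by
      rw [Real.sqrt_le_left (by norm_num)]
      norm_num
    have h4 : |(trn ZQ L (pb φ ω) e : ℝ)| = 4 := by
      rcases uml_ZQ L (pb φ ω) e hc with h | h <;> rw [h] <;> norm_num
    rw [h1, abs_mul, abs_mul, h4, abs_of_nonneg (by positivity : (0 : ℝ) ≤ Real.sqrt 3 / 4)]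
    have h5 := abs_nonneg (W ω)
    have h6 := Real.sqrt_nonneg 3
    nlinarith
  · exact U.hτ ω e he hc

end

/-- **The comparison.** -/
theorem cmpR (s : ℕ) (hs : 1 ≤ s) : ∃ C : ℝ, 0 < C ∧ CmpR s C := by
  obtain ⟨C, hC, h⟩ := HC.hcmp2 s hs
  refine ⟨2 * C, by positivity, ?_⟩
  intro V Φ _ _ Q F ν φ z z' j K W Wp τ τp Dm G Bd g c C0 Pr H hF hDG h1 h2 hjK U P hg hgD hgG hsame
    hc hPr hC0 hZ hsm
  obtain ⟨K, rfl⟩ : ∃ k, K = k + 1 := ⟨K - 1, by omega⟩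
  have hK1 : (1 : ℤ) ≤ 2 ^ K := one_le_pow₀ (by norm_num)
  have hsub : BR z (2 ^ K + 1) ⊆ BR z (2 ^ (K + 1)) := by
    intro f hf
    rw [mem_BR] at hf ⊢
    have : (2 : ℤ) ^ (K + 1) = 2 * 2 ^ K := by ring
    omega
  have hsub' : BR z (2 ^ K) ⊆ BR z (2 ^ (K + 1)) := by
    intro f hf
    rw [mem_BR] at hf ⊢
    have : (2 : ℤ) ^ (K + 1) = 2 * 2 ^ K := by ring
    omega
  have hD' : ((((BR z (2 ^ K)).image φ : Finset Φ)) : Set Φ) ⊆ Dm ∩ G := by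
    intro x hx
    refine hDG ?_
    have hx' : x ∈ (BR z (2 ^ K)).image φ := by exact_mod_cast hx
    exact_mod_cast Finset.image_subset_image hsub' hx'
  have hF' : ∀ f ∈ BR z (2 ^ (K + 1)), φ f ∈ F := fun f hf => hF (Finset.mem_image_of_mem _ hf)
  obtain ⟨k1, k2⟩ := h V Φ Q F ν φ (BR z (2 ^ (K + 1))) W Wp τ τp Dm G Bd g c C0 Pr z z' j K H hF'
    (HC.hasPotQ_BR _ _) hsub h1 h2 (by omega) U.dsk P.dsk hD' U.up U.hW P.hW (fun ω e he => U.hτ_all ω he)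
    (fun ω e he => P.hτ_all ω he) hg hgD hgG hsame hc hPr hC0 hZ hsm
  refine ⟨k1, ?_⟩
  have k3 : |dH ν φ (BR z (2 ^ (K + 1))) F Wp τp z z' - dH ν φ (BR z (2 ^ (K + 1))) F W τ z z'| ≤
      kc C0 c * av F g ^ th s * (C * sc s j K) := k2
  refine k3.trans ?_
  have h01 : 0 ≤ av F g := E_nonneg01 F hg
  have h3 : 0 ≤ kc C0 c := by
    unfold kc
    positivity
  have h4 := sc_succ s j K
  have h5 : C * sc s j K ≤ 2 * C * sc s j (K + 1) := by nlinarith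
  refine mul_le_mul_of_nonneg_left h5 ?_
  positivity

/-- **The comparison `Cmp` of S3HFin.** -/
theorem cmp_s (s : ℕ) (hs : 1 ≤ s) : ∃ C : ℝ, 0 < C ∧ Cmp s C := cmpR s hs

end

end Pool.Agent.SixB.HCmp
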