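import Pool.Agent.Lib.SixB.S3EmbD
import Pool.Agent.Lib.SixB.S3EnvB
import Pool.Agent.Lib.SixB.S3Path

/-!
# 6BD step 3, row R10: the polygon next to the slab

`S : Slb`, `h : S.Ok`, `E = S.env W 0 0`, `Win S W`: the window contains the slab and the tubes next to it.
* `chD h hW R hR`: chart of any set `R` of faces in the window of the polygon and the two tubes (`Reg`).
* `Z_right`, `Z_left`, `Z_bot`, `Z_top`: wall sides and tube sides are island sides; `ph_right`, .. their phases.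
* `mR h hW`, `mL h hW`: the two D-mouths, `mR_nat`, `mL_nat`, `mR_Z`, `mL_Z`, `mR_face`, `mL_face`.
* `fR4`, `fL4`: flat charts at the walls off the slab; `segR_up`, `segR_dn`, `segL_up`, `segL_dn`: natural segments.
* `near_side`: the boundary sides of `D` near the slab; `pocket_side`: the island sides of the pockets.
-/

set_option autoImplicit false
set_option linter.unusedSectionVars false
set_option linter.unusedVariables false

namespace Pool.Agent.SixB.MthD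

open Pool.Agent.Perc.Q Pool.Agent.Perc Pool.Agent.SixB
open Pool.Agent.SixB.EnvB (Thk nb upM loM)

noncomputable section

variable {S : Slb} {W : Finset (ℤ × ℤ)} {R l : ℕ} {f v : ℤ × ℤ} {x y : ℤ}

/-! ## The region next to the slab -/

/-- the window contains the slab and the two tubes next to it -/
def Win (S : Slb) (W : Finset (ℤ × ℤ)) : Prop := ∀ f : ℤ × ℤ, S.x1 - S.k ≤ f.1 → f.1 < S.x2 + S.k →
  S.yc - S.a ≤ f.2 → f.2 < S.yc + S.a → f ∈ W

theorem Win.slab (hW : Win S W) : SixB.slab S.x1 S.x2 (S.yc - S.a) (S.yc + S.a) ⊆ W := by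
  intro f hf
  rw [mem_RF] at hf
  exact hW f (by omega) (by omega) (by omega) (by omega)

/-- the embedding of the polygon -/
abbrev em (h : S.Ok) (hW : Win S W) := (h.eData hW.slab).emb

theorem thk (S : Slb) (h : S.Ok) : Thk (S.env W 0 0) := by
  have h1 := h.ha
  have h2 := h.hak
  constructor
  · show S.a < 3 * S.k + (S.x2 - S.x1).toNat
    omega
  · show S.a < 3 * S.k + (S.x2 - S.x1).toNat
    omega

theorem solid_up : (S.env W 0 0).gu.solid true f ↔ (S.a : ℤ) ≤ f.2 - S.yc ∧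
    f.2 - S.yc < ((3 * S.k + (S.x2 - S.x1).toNat : ℕ) : ℤ) ∧ S.x1 - 7 * S.k ≤ f.1 ∧
      f.1 < S.x2 + 7 * S.k ∧ ¬ (((S.x2 + S.k ≤ f.1 ∧ f.1 < S.x2 + 3 * S.k) ∨
        (S.x2 + 4 * S.k ≤ f.1 ∧ f.1 < S.x2 + 6 * S.k) ∨ (S.x1 - 3 * S.k ≤ f.1 ∧ f.1 < S.x1 - S.k) ∨
          (S.x1 - 6 * S.k ≤ f.1 ∧ f.1 < S.x1 - 4 * S.k)) ∧ f.2 - S.yc < S.k) := by
  have e1 : (S.geo 0).x1 = S.x1 := add_zero _
  have e2 : (S.geo 0).x2 = S.x2 := add_zero _
  show (S.geo 0).solid true f ↔ _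
  unfold BGeo.solid BGeo.hgt BGeo.cham
  rw [if_pos rfl, e1, e2]
  rfl

theorem solid_dn : (S.env W 0 0).gd.solid false f ↔ (S.a : ℤ) ≤ S.yc - 1 - f.2 ∧
    S.yc - 1 - f.2 < ((3 * S.k + (S.x2 - S.x1).toNat : ℕ) : ℤ) ∧ S.x1 - 7 * S.k ≤ f.1 ∧
      f.1 < S.x2 + 7 * S.k ∧ ¬ (((S.x2 + S.k ≤ f.1 ∧ f.1 < S.x2 + 3 * S.k) ∨
        (S.x2 + 4 * S.k ≤ f.1 ∧ f.1 < S.x2 + 6 * S.k) ∨ (S.x1 - 3 * S.k ≤ f.1 ∧ f.1 < S.x1 - S.k) ∨
          (S.x1 - 6 * S.k ≤ f.1 ∧ f.1 < S.x1 - 4 * S.k)) ∧ S.yc - 1 - f.2 < S.k) := by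
  have e1 : (S.geo 0).x1 = S.x1 := add_zero _
  have e2 : (S.geo 0).x2 = S.x2 := add_zero _
  show (S.geo 0).solid false f ↔ _
  unfold BGeo.solid BGeo.hgt BGeo.cham
  rw [if_neg (by decide), e1, e2]
  rfl

/-- the faces of the slab rows next to the polygon are base faces -/
theorem tube_base (hW : Win S W) (h1 : S.x1 - S.k ≤ f.1) (h2 : f.1 < S.x2 + S.k)
    (h3 : S.yc - S.a ≤ f.2) (h4 : f.2 < S.yc + S.a) : f ∈ (S.env W 0 0).base := by
  rw [EnvB.mem_base]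
  refine ⟨hW f h1 h2 h3 h4, ?_, ?_⟩
  · rw [solid_up]
    omega
  · rw [solid_dn]
    omega

/-- sheets of the faces -/
def sh (S : Slb) (f : ℤ × ℤ) : Option Bool :=
  if S.yc + S.a ≤ f.2 then some true else if f.2 < S.yc - S.a then some false else none

/-- sheets of the vertices -/
def vh (S : Slb) (v : ℤ × ℤ) : Option Bool :=
  if S.yc + S.a < v.2 then some true else if v.2 < S.yc - S.a then some false else none

/-- the window of the polygon and the two tubes -/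
def Reg (S : Slb) (f : ℤ × ℤ) : Prop :=
  (S.x1 ≤ f.1 ∧ f.1 < S.x2 ∧ S.yc - S.k ≤ f.2 ∧ f.2 < S.yc + S.k) ∨
    (S.x1 - S.k ≤ f.1 ∧ f.1 < S.x2 + S.k ∧ S.yc - S.a ≤ f.2 ∧ f.2 < S.yc + S.a)

theorem reg_cases (h : S.Ok) (hW : Win S W) (hf : Reg S f) :
    (sh S f = some true ∧ f ∈ (S.env W 0 0).U ∧ S.x1 ≤ f.1 ∧ f.1 < S.x2 ∧ S.yc + S.a ≤ f.2 ∧
      f.2 < S.yc + S.k) ∨
    (sh S f = some false ∧ f ∈ (S.env W 0 0).L ∧ S.x1 ≤ f.1 ∧ f.1 < S.x2 ∧ S.yc - S.k ≤ f.2 ∧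
      f.2 < S.yc - S.a) ∨
    (sh S f = none ∧ f ∈ (S.env W 0 0).base ∧ S.yc - S.a ≤ f.2 ∧ f.2 < S.yc + S.a) := by
  have ha := h.ha
  have hak := h.hak
  have hsl := h.slab
  have d := h.eData hW.slab
  by_cases h1 : S.yc + S.a ≤ f.2
  · left
    have h2 : S.x1 ≤ f.1 ∧ f.1 < S.x2 ∧ f.2 < S.yc + S.k := by
      rcases hf with hf | hf
      · exact ⟨hf.1, hf.2.1, hf.2.2.2⟩
      · exfalso; omega
    refine ⟨if_pos h1, ?_, h2.1, h2.2.1, h1, h2.2.2⟩
    rw [d.hU]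
    exact up_window hsl (by omega) (by omega) h2.1 h2.2.1 h1 h2.2.2
  · by_cases h3 : f.2 < S.yc - S.a
    · right; left
      have h2 : S.x1 ≤ f.1 ∧ f.1 < S.x2 ∧ S.yc - S.k ≤ f.2 := by
        rcases hf with hf | hf
        · exact ⟨hf.1, hf.2.1, hf.2.2.1⟩
        · exfalso; omega
      refine ⟨?_, ?_, h2.1, h2.2.1, h2.2.2, h3⟩
      · unfold sh
        rw [if_neg h1, if_pos h3]
      rw [d.hL]
      exact lo_window hsl (by omega) (by omega) h2.1 h2.2.1 h2.2.2 h3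
    · right; right
      refine ⟨?_, ?_, by omega, by omega⟩
      · unfold sh
        rw [if_neg h1, if_neg h3]
      · rcases hf with hf | hf
        · exact tube_base hW (by omega) (by omega) (by omega) (by omega)
        · exact tube_base hW (by omega) (by omega) (by omega) (by omega)

theorem reg_mem (h : S.Ok) (hW : Win S W) (hf : Reg S f) : (sh S f, f) ∈ (S.env W 0 0).F := by
  rcases reg_cases h hW hf with h1 | h1 | h1
  · rw [h1.1]; exact EnvB.mem_F_up.mpr h1.2.1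
  · rw [h1.1]; exact EnvB.mem_F_lo.mpr h1.2.1
  · rw [h1.1]; exact EnvB.mem_F_none.mpr h1.2.1

theorem reg_cor (h : S.Ok) (hW : Win S W) (hf : Reg S f) (k : ZMod 4) :
    (S.env W 0 0).Q.c (sh S f, f) k = (vh S (ZQ.c f k), ZQ.c f k) := by
  have ha := h.ha
  have e1 : (S.env W 0 0).gu.x1 = S.x1 := add_zero _
  have e2 : (S.env W 0 0).gu.x2 = S.x2 := add_zero _
  have e3 : (S.env W 0 0).gd.x1 = S.x1 := add_zero _
  have e4 : (S.env W 0 0).gd.x2 = S.x2 := add_zero _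
  have e5 : (S.env W 0 0).gu.yc + ((S.env W 0 0).gu.a : ℤ) = S.yc + S.a := rfl
  have e6 : (S.env W 0 0).gd.yc - ((S.env W 0 0).gd.a : ℤ) = S.yc - S.a := rfl
  have hc := Emb.corner_cases f k
  rcases reg_cases h hW hf with ⟨g1, g2, g3, g4, g5, g6⟩ | ⟨g1, g2, g3, g4, g5, g6⟩ | ⟨g1, g2, g3, g4⟩
  · rw [g1, EnvB.cor_pk]
    refine Prod.ext ?_ rfl
    simp only
    rw [EnvB.adj_up, e1, e2, e5]
    unfold vh
    rcases hc with ⟨rfl, e⟩ | ⟨rfl, e⟩ | ⟨rfl, e⟩ | ⟨rfl, e⟩ <;> rw [e] <;> (try dsimp only)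
    · by_cases h3 : f.2 = S.yc + S.a
      · rw [if_pos ⟨⟨g3, g4⟩, h3, Or.inl rfl⟩, if_neg (by omega), if_neg (by omega)]
      · rw [if_neg (fun hh => h3 hh.2.1), if_pos (by omega)]
    · by_cases h3 : f.2 = S.yc + S.a
      · rw [if_pos ⟨⟨g3, g4⟩, h3, Or.inr rfl⟩, if_neg (by omega), if_neg (by omega)]
      · rw [if_neg (fun hh => h3 hh.2.1), if_pos (by omega)]
    · rw [if_neg (fun hh => absurd hh.2.2 (by decide)), if_pos (by omega)]
    · rw [if_neg (fun hh => absurd hh.2.2 (by decide)), if_pos (by omega)]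
  · rw [g1, EnvB.cor_pk]
    refine Prod.ext ?_ rfl
    simp only
    rw [EnvB.adj_lo, e3, e4, e6]
    unfold vh
    rcases hc with ⟨rfl, e⟩ | ⟨rfl, e⟩ | ⟨rfl, e⟩ | ⟨rfl, e⟩ <;> rw [e] <;> (try dsimp only)
    · rw [if_neg (fun hh => absurd hh.2.2 (by decide)), if_neg (by omega), if_pos (by omega)]
    · rw [if_neg (fun hh => absurd hh.2.2 (by decide)), if_neg (by omega), if_pos (by omega)]
    · by_cases h3 : f.2 + 1 = S.yc - S.a
      · rw [if_pos ⟨⟨g3, g4⟩, h3, Or.inl rfl⟩, if_neg (by omega), if_neg (by omega)]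
      · rw [if_neg (fun hh => h3 hh.2.1), if_neg (by omega), if_pos (by omega)]
    · by_cases h3 : f.2 + 1 = S.yc - S.a
      · rw [if_pos ⟨⟨g3, g4⟩, h3, Or.inr rfl⟩, if_neg (by omega), if_neg (by omega)]
      · rw [if_neg (fun hh => h3 hh.2.1), if_neg (by omega), if_pos (by omega)]
  · rw [g1, EnvB.cor_base (thk S h) g2]
    refine Prod.ext ?_ rfl
    simp only
    unfold vh
    rcases hc with ⟨rfl, e⟩ | ⟨rfl, e⟩ | ⟨rfl, e⟩ | ⟨rfl, e⟩ <;> rw [e] <;> (try dsimp only) <;>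
      rw [if_neg (by omega), if_neg (by omega)]

/-- **chart of a set of faces next to the slab** -/
def chD (h : S.Ok) (hW : Win S W) (R : Finset (ℤ × ℤ)) (hR : ∀ f ∈ R, Reg S f) :
    PChart (S.env W 0 0).Q (S.env W 0 0).F R where
  φV := fun v => (vh S v, v)
  φF := fun f => (sh S f, f)
  cor := fun f hf k => reg_cor h hW (hR f hf) k
  inj := fun _ _ _ _ _ _ h => (Prod.mk.inj h).2
  sub := fun f hf => reg_mem h hW (hR f hf)

/-! ## The sides -/

theorem shF_eq (h : S.Ok) (hW : Win S W) (hf : Reg S f) (hx1 : S.x1 ≤ f.1) (hx2 : f.1 < S.x2) :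
    Emb.shF (S.env W 0 0) f = sh S f := by
  have hak := h.hak
  have ha := h.ha
  have d := h.eData hW.slab
  have hD : f ∈ S.D := by
    have := h.slab.sub f.1 f.2 hx1 hx2
    rcases hf with hf | hf
    · exact this (by omega) (by omega)
    · exact this (by omega) (by omega)
  unfold Emb.shF
  rcases reg_cases h hW hf with h1 | h1 | h1
  · rw [if_pos h1.2.1, h1.1]
  · rcases Emb.mem_cases d hD with h2 | h2 | h2
    · exact absurd h1.2.1 h2.2.1
    · rw [if_neg h2.2.1, if_pos h1.2.1, h1.1]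
    · exact absurd h1.2.1 h2.2.2
  · have h3 : f ∈ SixB.slab S.x1 S.x2 (S.yc - S.a) (S.yc + S.a) := by
      rw [mem_RF]
      exact ⟨hx1, hx2, h1.2.2.1, h1.2.2.2⟩
    rcases Emb.mem_cases d hD with h2 | h2 | h2
    · exact absurd h3 h2.2.2
    · exact absurd h3 h2.2.2
    · rw [if_neg h2.2.1, if_neg h2.2.2, h1.1]

theorem win_reg (h : S.Ok) (hx1 : S.x1 ≤ f.1) (hx2 : f.1 < S.x2) (hy1 : S.yc - S.k ≤ f.2)
    (hy2 : f.2 < S.yc + S.k) : Reg S f ∧ f ∈ S.D :=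
  ⟨Or.inl ⟨hx1, hx2, hy1, hy2⟩, h.slab.sub f.1 f.2 hx1 hx2 hy1 hy2⟩

/-- the sides of the faces of the polygon in the window -/
theorem em_side (h : S.Ok) (hW : Win S W) (hx1 : S.x1 ≤ f.1) (hx2 : f.1 < S.x2)
    (hy1 : S.yc - S.k ≤ f.2) (hy2 : f.2 < S.yc + S.k) (k : ZMod 4) :
    (em h hW).side (sd ZQ f k) = ((vh S (sd ZQ f k).1, (sd ZQ f k).1), (vh S (sd ZQ f k).2, (sd ZQ f k).2)) := by
  obtain ⟨hr, hD⟩ := win_reg h hx1 hx2 hy1 hy2
  rw [(em h hW).side_sd hD]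
  show sd (S.env W 0 0).Q (Emb.shF (S.env W 0 0) f, f) k = _
  rw [shF_eq h hW hr hx1 hx2]
  unfold sd
  rw [reg_cor h hW hr, reg_cor h hW hr]

/-- the right wall off the slab -/
theorem Z_right (h : S.Ok) (hW : Win S W)
    (hy : (S.yc - S.k ≤ y ∧ y < S.yc - S.a) ∨ (S.yc + S.a ≤ y ∧ y < S.yc + S.k)) :
    (em h hW).side (sd ZQ (S.x2 - 1, y) 1) ∈ (S.env W 0 0).Z ∧
      S.ph W 0 0 ((em h hW).side (sd ZQ (S.x2 - 1, y) 1)) = S.ρr := by
  have hak := h.hak
  have ha := h.ha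
  have hx := h.hx
  have hD : (S.x2 - 1, y) ∈ S.D := h.slab.sub _ _ (by omega) (by omega) (by omega) (by omega)
  have hS : (S.x2 - 1, y) ∉ SixB.slab S.x1 S.x2 (S.yc - S.a) (S.yc + S.a) := by
    rw [mem_RF]; simp only; omega
  have hI : Ini ZQ (S.D : Set (ℤ × ℤ)) (sd ZQ (S.x2 - 1, y) 1) := by
    intro g hg l hl
    have h1 : sd ZQ (S.x2 - 1, y) 1 = (sd ZQ g l).swap := hl
    obtain ⟨rfl, -⟩ := EnvB.swap_inj_iff.mp h1
    rw [EnvB.nb1] at hg
    simp only [sub_add_cancel] at hg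
    exact h.slab.right y (by omega) (by omega) hg
  refine ⟨(h.eData hW.slab).emb_Z hD hS hI, ?_⟩
  rw [Slb.ph_zero, (h.eData hW.slab).emb_psi hD hS hI, sdz1, sub_add_cancel]
  exact h.right y (by omega) (by omega)

/-- the left wall off the slab -/
theorem Z_left (h : S.Ok) (hW : Win S W)
    (hy : (S.yc - S.k ≤ y ∧ y < S.yc - S.a) ∨ (S.yc + S.a ≤ y ∧ y < S.yc + S.k)) :
    (em h hW).side (sd ZQ (S.x1, y) 3) ∈ (S.env W 0 0).Z ∧
      S.ph W 0 0 ((em h hW).side (sd ZQ (S.x1, y) 3)) = S.ρl := by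
  have hak := h.hak
  have ha := h.ha
  have hx := h.hx
  have hD : (S.x1, y) ∈ S.D := h.slab.sub _ _ (by omega) (by omega) (by omega) (by omega)
  have hS : (S.x1, y) ∉ SixB.slab S.x1 S.x2 (S.yc - S.a) (S.yc + S.a) := by
    rw [mem_RF]; simp only; omega
  have hI : Ini ZQ (S.D : Set (ℤ × ℤ)) (sd ZQ (S.x1, y) 3) := by
    intro g hg l hl
    have h1 : sd ZQ (S.x1, y) 3 = (sd ZQ g l).swap := hl
    obtain ⟨rfl, -⟩ := EnvB.swap_inj_iff.mp h1
    rw [EnvB.nb3] at hg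
    exact h.slab.left y (by omega) (by omega) hg
  refine ⟨(h.eData hW.slab).emb_Z hD hS hI, ?_⟩
  rw [Slb.ph_zero, (h.eData hW.slab).emb_psi hD hS hI, sdz3]
  exact h.left y (by omega) (by omega)

/-- `x` is a column of one of the two tubes next to the polygon -/
def Col (S : Slb) (x : ℤ) : Prop := (S.x1 - S.k ≤ x ∧ x < S.x1) ∨ (S.x2 ≤ x ∧ x < S.x2 + S.k)

/-- the lower sides of the tubes -/
theorem Z_bot (h : S.Ok) (hW : Win S W) (hx : Col S x) :
    sd (S.env W 0 0).Q (none, (x, S.yc - S.a)) 0 ∈ (S.env W 0 0).Z := by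
  have hak := h.hak
  have ha := h.ha
  have hxx := h.hx
  have hb : ((x, S.yc - S.a) : ℤ × ℤ) ∈ (S.env W 0 0).base := by
    unfold Col at hx
    exact tube_base hW (by simp only; omega) (by simp only; omega) (by simp only; omega)
      (by simp only; omega)
  rw [EnvB.base_Z (thk S h) hb]
  refine ⟨Or.inr ?_, ?_, ?_⟩
  · rw [EnvB.nb0, solid_dn]
    unfold Col at hx
    simp only
    omega
  · rintro ⟨⟨hk, -⟩, -⟩
    exact absurd hk (by decide)
  · rintro ⟨⟨-, h1, -⟩, -⟩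
    have e3 : (S.env W 0 0).gd.x1 = S.x1 := add_zero _
    have e4 : (S.env W 0 0).gd.x2 = S.x2 := add_zero _
    rw [e3, e4] at h1
    unfold Col at hx
    simp only at h1
    omega

/-- the upper sides of the tubes -/
theorem Z_top (h : S.Ok) (hW : Win S W) (hx : Col S x) :
    sd (S.env W 0 0).Q (none, (x, S.yc + S.a - 1)) 2 ∈ (S.env W 0 0).Z := by
  have hak := h.hak
  have ha := h.ha
  have hxx := h.hx
  have hb : ((x, S.yc + S.a - 1) : ℤ × ℤ) ∈ (S.env W 0 0).base := by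
    unfold Col at hx
    exact tube_base hW (by simp only; omega) (by simp only; omega) (by simp only; omega)
      (by simp only; omega)
  rw [EnvB.base_Z (thk S h) hb]
  refine ⟨Or.inl ?_, ?_, ?_⟩
  · rw [EnvB.nb2, solid_up]
    unfold Col at hx
    simp only
    omega
  · rintro ⟨⟨-, h1, -⟩, -⟩
    have e3 : (S.env W 0 0).gu.x1 = S.x1 := add_zero _
    have e4 : (S.env W 0 0).gu.x2 = S.x2 := add_zero _
    rw [e3, e4] at h1
    unfold Col at hx
    simp only at h1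
    omega
  · rintro ⟨⟨hk, -⟩, -⟩
    exact absurd hk (by decide)

/-- phases of the lower sides of the tubes -/
theorem ph_bot (h : S.Ok) (hW : Win S W) (hx : Col S x) :
    S.ph W 0 0 (sd (S.env W 0 0).Q (none, (x, S.yc - S.a)) 0) =
      if x < S.x1 then S.ρl - Real.pi / 12 else S.ρr + Real.pi / 12 := by
  have hak := h.hak
  have ha := h.ha
  have hxx := h.hx
  have hb : ((x, S.yc - S.a) : ℤ × ℤ) ∈ (S.env W 0 0).base := by
    unfold Col at hx
    exact tube_base hW (by simp only; omega) (by simp only; omega) (by simp only; omega)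
      (by simp only; omega)
  have e3 : (S.env W 0 0).gd.x1 = S.x1 := add_zero _
  have e4 : (S.env W 0 0).gd.x2 = S.x2 := add_zero _
  have e5 : (S.env W 0 0).gd.k = S.k := rfl
  have hyc : (S.env W 0 0).gu.yc = S.yc := rfl
  rw [Slb.ph_zero, EnvB.psi_lo (thk S h) hb (by rw [hyc]; simp only; omega) (by decide), EnvB.ph_lo0]
  unfold Col at hx
  have hrx : EnvB.rx (S.env W 0 0).gd x = S.x1 + S.x2 - 1 - x := by
    unfold EnvB.rx
    rw [e3, e4]
  simp only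
  rw [hrx]
  by_cases h1 : x < S.x1
  · rw [if_pos h1, EnvB.Hst2 (by rw [e4]; omega) (by rw [e4, e5]; omega) (by rw [e3, e4]; omega)]
    unfold EnvB.cst
    ring
  · rw [if_neg h1, EnvB.Hst3 (by rw [e3, e5]; omega) (by rw [e4]; omega)]
    unfold EnvB.cst Slb.ml
    ring

/-- phases of the upper sides of the tubes -/
theorem ph_top (h : S.Ok) (hW : Win S W) (hx : Col S x) :
    S.ph W 0 0 (sd (S.env W 0 0).Q (none, (x, S.yc + S.a - 1)) 2) =
      if x < S.x1 then S.ρl + Real.pi / 12 else S.ρr - Real.pi / 12 := by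
  have hak := h.hak
  have ha := h.ha
  have hxx := h.hx
  have hb : ((x, S.yc + S.a - 1) : ℤ × ℤ) ∈ (S.env W 0 0).base := by
    unfold Col at hx
    exact tube_base hW (by simp only; omega) (by simp only; omega) (by simp only; omega)
      (by simp only; omega)
  have e3 : (S.env W 0 0).gu.x1 = S.x1 := add_zero _
  have e4 : (S.env W 0 0).gu.x2 = S.x2 := add_zero _
  have e5 : (S.env W 0 0).gu.k = S.k := rfl
  have hyc : (S.env W 0 0).gu.yc = S.yc := rfl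
  rw [Slb.ph_zero, EnvB.psi_up (thk S h) hb (by rw [hyc]; simp only; omega), EnvB.ph_up2]
  unfold Col at hx
  simp only
  by_cases h1 : x < S.x1
  · rw [if_pos h1, EnvB.Hst3 (by rw [e3, e5]; omega) (by rw [e4]; omega)]
    unfold EnvB.cst Slb.mu
    ring
  · rw [if_neg h1, EnvB.Hst2 (by rw [e4]; omega) (by rw [e4, e5]; omega) (by rw [e3, e4]; omega)]
    unfold EnvB.cst
    ring

/-- the sides of the base faces of the tubes -/
theorem base_side (h : S.Ok) (hb : f ∈ (S.env W 0 0).base) (hy1 : S.yc - S.a ≤ f.2)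
    (hy2 : f.2 < S.yc + S.a) (k : ZMod 4) : sd (S.env W 0 0).Q (none, f) k =
      ((vh S (sd ZQ f k).1, (sd ZQ f k).1), (vh S (sd ZQ f k).2, (sd ZQ f k).2)) := by
  rw [EnvB.sd_base (thk S h) hb]
  have key : ∀ l, vh S (ZQ.c f l) = none := by
    intro l
    unfold vh
    rcases Emb.corner_cases f l with ⟨rfl, e⟩ | ⟨rfl, e⟩ | ⟨rfl, e⟩ | ⟨rfl, e⟩ <;> rw [e] <;>
      (try dsimp only) <;> rw [if_neg (by omega), if_neg (by omega)]
  unfold sd
  simp only
  rw [key, key]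

/-- the side of the charts next to the slab -/
def sd2 (S : Slb) (a : (ℤ × ℤ) × (ℤ × ℤ)) :
    (Option Bool × (ℤ × ℤ)) × (Option Bool × (ℤ × ℤ)) := ((vh S a.1, a.1), (vh S a.2, a.2))

theorem chD_side (h : S.Ok) (hW : Win S W) (R : Finset (ℤ × ℤ)) (hR : ∀ f ∈ R, Reg S f)
    (a : (ℤ × ℤ) × (ℤ × ℤ)) : (chD h hW R hR).side a = sd2 S a := rfl

theorem chD_face (h : S.Ok) (hW : Win S W) (R : Finset (ℤ × ℤ)) (hR : ∀ f ∈ R, Reg S f)
    (f : ℤ × ℤ) : (chD h hW R hR).φF f = (sh S f, f) := rfl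

/-- the right wall in the form of the charts -/
theorem right_sd2 (h : S.Ok) (hW : Win S W) (hy1 : S.yc - S.k ≤ y) (hy2 : y < S.yc + S.k) :
    sd2 S (sd ZQ (S.x2 - 1, y) 1) = (em h hW).side (sd ZQ (S.x2 - 1, y) 1) := by
  have hx := h.hx
  exact (em_side h hW (by simp only; omega) (by simp only; omega) hy1 hy2 1).symm

/-- the left wall in the form of the charts -/
theorem left_sd2 (h : S.Ok) (hW : Win S W) (hy1 : S.yc - S.k ≤ y) (hy2 : y < S.yc + S.k) :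
    sd2 S (sd ZQ (S.x1, y) 3) = (em h hW).side (sd ZQ (S.x1, y) 3) := by
  have hx := h.hx
  have ha := h.ha
  have hak := h.hak
  exact (em_side h hW (by simp only; omega) (by simp only; omega) hy1 hy2 3).symm

theorem col_base (h : S.Ok) (hW : Win S W) (hx : Col S x) (hy1 : S.yc - S.a ≤ y)
    (hy2 : y < S.yc + S.a) : ((x, y) : ℤ × ℤ) ∈ (S.env W 0 0).base := by
  have hxx := h.hx
  have hak := h.hak
  have ha := h.ha
  unfold Col at hx
  exact tube_base hW (by simp only; omega) (by simp only; omega) (by simp only; omega)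
    (by simp only; omega)

theorem bot_sd2 (h : S.Ok) (hW : Win S W) (hx : Col S x) :
    sd2 S (sd ZQ (x, S.yc - S.a) 0) = sd (S.env W 0 0).Q (none, (x, S.yc - S.a)) 0 := by
  have ha := h.ha
  exact (base_side h (col_base h hW hx le_rfl (by omega)) (by simp only; omega)
    (by simp only; omega) 0).symm

theorem top_sd2 (h : S.Ok) (hW : Win S W) (hx : Col S x) :
    sd2 S (sd ZQ (x, S.yc + S.a - 1) 2) = sd (S.env W 0 0).Q (none, (x, S.yc + S.a - 1)) 2 := by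
  have ha := h.ha
  exact (base_side h (col_base h hW hx (by omega) (by omega)) (by simp only; omega)
    (by simp only; omega) 2).symm

/-! ## The two D-mouths -/

theorem regR (h : S.Ok) (hR : R ≤ S.k) (hl : l ≤ S.k) :
    ∀ f ∈ Mth true (S.x2, S.yc) R S.a l, Reg S f := by
  have hx := h.hx
  have ha := h.ha
  have hak := h.hak
  intro f hf
  rw [mem_Mth_left] at hf
  unfold Reg
  simp only at hf
  omega

theorem regL (h : S.Ok) (hR : R ≤ S.k) (hl : l ≤ S.k) :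
    ∀ f ∈ Mth false (S.x1, S.yc) R S.a l, Reg S f := by
  have hx := h.hx
  have ha := h.ha
  have hak := h.hak
  intro f hf
  rw [mem_Mth_right] at hf
  unfold Reg
  simp only at hf
  omega

/-- the walls of the right mouth -/
theorem wallR (h : S.Ok) (hW : Win S W) (hR : R ≤ S.k) (hl : l ≤ S.k) (i : Fin 4)
    {a : (ℤ × ℤ) × (ℤ × ℤ)} (ha : a ∈ mthWall true (S.x2, S.yc) R S.a l i) :
    sd2 S a ∈ (S.env W 0 0).Z ∧ S.ph W 0 0 (sd2 S a) =
      ![S.ρr, S.ρr + Real.pi / 12, S.ρr - Real.pi / 12, S.ρr] i := by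
  have hx := h.hx
  have h0 := h.ha
  have hak := h.hak
  unfold mthWall at ha
  rw [if_pos rfl] at ha
  fin_cases i
  · obtain ⟨y, h1, h2, rfl⟩ := mem_wOut1.mp ha
    simp only at h1 h2 ⊢
    rw [right_sd2 h hW (by omega) (by omega)]
    exact Z_right h hW (Or.inl ⟨by omega, by omega⟩)
  · obtain ⟨x, h1, h2, rfl⟩ := mem_wOut0.mp ha
    simp only at h1 h2 ⊢
    have hc : Col S x := Or.inr ⟨by omega, by omega⟩
    rw [bot_sd2 h hW hc, ph_bot h hW hc, if_neg (by omega)]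
    exact ⟨Z_bot h hW hc, rfl⟩
  · obtain ⟨x, h1, h2, rfl⟩ := mem_wOut2.mp ha
    simp only at h1 h2 ⊢
    have hc : Col S x := Or.inr ⟨by omega, by omega⟩
    rw [top_sd2 h hW hc, ph_top h hW hc, if_neg (by omega)]
    exact ⟨Z_top h hW hc, rfl⟩
  · obtain ⟨y, h1, h2, rfl⟩ := mem_wOut1.mp ha
    simp only at h1 h2 ⊢
    rw [right_sd2 h hW (by omega) (by omega)]
    exact Z_right h hW (Or.inr ⟨by omega, by omega⟩)

/-- the walls of the left mouth -/
theorem wallL (h : S.Ok) (hW : Win S W) (hR : R ≤ S.k) (hl : l ≤ S.k) (i : Fin 4)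
    {a : (ℤ × ℤ) × (ℤ × ℤ)} (ha : a ∈ mthWall false (S.x1, S.yc) R S.a l i) :
    sd2 S a ∈ (S.env W 0 0).Z ∧ S.ph W 0 0 (sd2 S a) =
      ![S.ρl, S.ρl + Real.pi / 12, S.ρl - Real.pi / 12, S.ρl] i := by
  have hx := h.hx
  have h0 := h.ha
  have hak := h.hak
  unfold mthWall at ha
  rw [if_neg (by decide)] at ha
  fin_cases i
  · obtain ⟨y, h1, h2, rfl⟩ := mem_wOut3.mp ha
    simp only at h1 h2 ⊢
    rw [left_sd2 h hW (by omega) (by omega)]
    exact Z_left h hW (Or.inr ⟨by omega, by omega⟩)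
  · obtain ⟨x, h1, h2, rfl⟩ := mem_wOut2.mp ha
    simp only at h1 h2 ⊢
    have hc : Col S x := Or.inl ⟨by omega, by omega⟩
    rw [top_sd2 h hW hc, ph_top h hW hc, if_pos (by omega)]
    exact ⟨Z_top h hW hc, rfl⟩
  · obtain ⟨x, h1, h2, rfl⟩ := mem_wOut0.mp ha
    simp only at h1 h2 ⊢
    have hc : Col S x := Or.inl ⟨by omega, by omega⟩
    rw [bot_sd2 h hW hc, ph_bot h hW hc, if_pos (by omega)]
    exact ⟨Z_bot h hW hc, rfl⟩
  · obtain ⟨y, h1, h2, rfl⟩ := mem_wOut3.mp ha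
    simp only at h1 h2 ⊢
    rw [left_sd2 h hW (by omega) (by omega)]
    exact Z_left h hW (Or.inl ⟨by omega, by omega⟩)

/-- **the mouth of the polygon at the right wall** -/
def mR (h : S.Ok) (hW : Win S W) (hR : R ≤ S.k) (hl : l ≤ S.k) :
    MChart (S.env W 0 0).Q (S.env W 0 0).F true (S.x2, S.yc) R S.a l where
  toPChart := chD h hW _ (regR h hR hl)
  bd i _ ha := (EnvB.mem_Z.mp (wallR h hW hR hl i ha).1).1

/-- **the mouth of the polygon at the left wall** -/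
def mL (h : S.Ok) (hW : Win S W) (hR : R ≤ S.k) (hl : l ≤ S.k) :
    MChart (S.env W 0 0).Q (S.env W 0 0).F false (S.x1, S.yc) R S.a l where
  toPChart := chD h hW _ (regL h hR hl)
  bd i _ ha := (EnvB.mem_Z.mp (wallL h hW hR hl i ha).1).1

theorem mR_side (h : S.Ok) (hW : Win S W) (hR : R ≤ S.k) (hl : l ≤ S.k)
    (a : (ℤ × ℤ) × (ℤ × ℤ)) : (mR h hW hR hl).side a = sd2 S a := rfl

theorem mL_side (h : S.Ok) (hW : Win S W) (hR : R ≤ S.k) (hl : l ≤ S.k)
    (a : (ℤ × ℤ) × (ℤ × ℤ)) : (mL h hW hR hl).side a = sd2 S a := rfl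

theorem mR_face (h : S.Ok) (hW : Win S W) (hR : R ≤ S.k) (hl : l ≤ S.k) (f : ℤ × ℤ) :
    (mR h hW hR hl).φF f = (sh S f, f) := rfl

theorem mL_face (h : S.Ok) (hW : Win S W) (hR : R ≤ S.k) (hl : l ≤ S.k) (f : ℤ × ℤ) :
    (mL h hW hR hl).φF f = (sh S f, f) := rfl

/-- the faces of the box part are those of the embedding -/
theorem em_face (h : S.Ok) (hW : Win S W) (hx1 : S.x1 ≤ f.1) (hx2 : f.1 < S.x2)
    (hy1 : S.yc - S.k ≤ f.2) (hy2 : f.2 < S.yc + S.k) : (em h hW).φF f = (sh S f, f) := by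
  show (Emb.shF (S.env W 0 0) f, f) = _
  rw [shF_eq h hW (win_reg h hx1 hx2 hy1 hy2).1 hx1 hx2]

theorem mR_nat (h : S.Ok) (hW : Win S W) (hR : R ≤ S.k) (hl : l ≤ S.k) :
    (mR h hW hR hl).Nat (S.ph W 0 0) 0 := by
  refine ⟨![S.ρr, S.ρr + Real.pi / 12, S.ρr - Real.pi / 12, S.ρr],
    fun i a ha => (wallR h hW hR hl i ha).2, ?_, ?_, ?_⟩
  · show S.ρr + Real.pi / 12 - S.ρr = _
    ring
  · show S.ρr - Real.pi / 12 - (S.ρr + Real.pi / 12) + 2 * (Real.pi / 12) = 0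
    ring
  · show S.ρr - (S.ρr - Real.pi / 12) = _
    ring

theorem mL_nat (h : S.Ok) (hW : Win S W) (hR : R ≤ S.k) (hl : l ≤ S.k) :
    (mL h hW hR hl).Nat (S.ph W 0 0) 0 := by
  refine ⟨![S.ρl, S.ρl + Real.pi / 12, S.ρl - Real.pi / 12, S.ρl],
    fun i a ha => (wallL h hW hR hl i ha).2, ?_, ?_, ?_⟩
  · show S.ρl + Real.pi / 12 - S.ρl = _
    ring
  · show S.ρl - Real.pi / 12 - (S.ρl + Real.pi / 12) + 2 * (Real.pi / 12) = 0
    ring
  · show S.ρl - (S.ρl - Real.pi / 12) = _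
    ring

/-! ## Flat charts of the walls off the slab -/

/-- the rows of the window within `R` of `y` on one side of the slab -/
def Rows (S : Slb) (y : ℤ) (R : ℕ) : Prop :=
  (S.yc + S.a + R ≤ y ∧ y + R ≤ S.yc + S.k) ∨ (S.yc - S.k + R ≤ y ∧ y + R ≤ S.yc - S.a)

theorem flR_reg (h : S.Ok) (hR : R ≤ S.k) (hv : v.1 = S.x2) (hy : Rows S v.2 R) :
    ∀ f ∈ Wdg 2 1 v R, Reg S f := by
  have hx := h.hx
  have ha := h.ha
  have hak := h.hak
  intro f hf
  rw [mem_w21] at hf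
  unfold Rows at hy
  left
  omega

theorem flL_reg (h : S.Ok) (hR : R ≤ S.k) (hv : v.1 = S.x1) (hy : Rows S v.2 R) :
    ∀ f ∈ Wdg 2 3 v R, Reg S f := by
  have hx := h.hx
  have ha := h.ha
  have hak := h.hak
  intro f hf
  rw [mem_w23] at hf
  unfold Rows at hy
  left
  omega

theorem flR_wall (h : S.Ok) (hW : Win S W) (hv : v.1 = S.x2) (hy : Rows S v.2 R)
    {a : (ℤ × ℤ) × (ℤ × ℤ)} (ha : a ∈ wIn (1 + ((2 : ℕ) : ZMod 4)) v R ∪ wOut 1 v R) :
    sd2 S a ∈ (S.env W 0 0).Z ∧ S.ph W 0 0 (sd2 S a) = S.ρr := by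
  have hx := h.hx
  have h0 := h.ha
  have hak := h.hak
  unfold Rows at hy
  rw [show (1 : ZMod 4) + ((2 : ℕ) : ZMod 4) = 3 from rfl, Finset.mem_union] at ha
  rcases ha with ha | ha
  · obtain ⟨y, h1, h2, rfl⟩ := mem_wIn3.mp ha
    rw [hv, right_sd2 h hW (by omega) (by omega)]
    exact Z_right h hW (by omega)
  · obtain ⟨y, h1, h2, rfl⟩ := mem_wOut1.mp ha
    rw [hv, right_sd2 h hW (by omega) (by omega)]
    exact Z_right h hW (by omega)

theorem flL_wall (h : S.Ok) (hW : Win S W) (hv : v.1 = S.x1) (hy : Rows S v.2 R)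
    {a : (ℤ × ℤ) × (ℤ × ℤ)} (ha : a ∈ wIn (3 + ((2 : ℕ) : ZMod 4)) v R ∪ wOut 3 v R) :
    sd2 S a ∈ (S.env W 0 0).Z ∧ S.ph W 0 0 (sd2 S a) = S.ρl := by
  have hx := h.hx
  have h0 := h.ha
  have hak := h.hak
  unfold Rows at hy
  rw [show (3 : ZMod 4) + ((2 : ℕ) : ZMod 4) = 1 from rfl, Finset.mem_union] at ha
  rcases ha with ha | ha
  · obtain ⟨y, h1, h2, rfl⟩ := mem_wIn1.mp ha
    rw [hv, left_sd2 h hW (by omega) (by omega)]
    exact Z_left h hW (by omega)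
  · obtain ⟨y, h1, h2, rfl⟩ := mem_wOut3.mp ha
    rw [hv, left_sd2 h hW (by omega) (by omega)]
    exact Z_left h hW (by omega)

/-- flat chart at the right wall -/
def flR (h : S.Ok) (hW : Win S W) (hR : R ≤ S.k) (hv : v.1 = S.x2) (hy : Rows S v.2 R) :
    WChart (S.env W 0 0).Q (S.env W 0 0).F 2 1 v R where
  toPChart := chD h hW _ (flR_reg h hR hv hy)
  bIn _ ha := (EnvB.mem_Z.mp (flR_wall h hW hv hy (Finset.mem_union_left _ ha)).1).1
  bOut _ ha := (EnvB.mem_Z.mp (flR_wall h hW hv hy (Finset.mem_union_right _ ha)).1).1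

/-- flat chart at the left wall -/
def flL (h : S.Ok) (hW : Win S W) (hR : R ≤ S.k) (hv : v.1 = S.x1) (hy : Rows S v.2 R) :
    WChart (S.env W 0 0).Q (S.env W 0 0).F 2 3 v R where
  toPChart := chD h hW _ (flL_reg h hR hv hy)
  bIn _ ha := (EnvB.mem_Z.mp (flL_wall h hW hv hy (Finset.mem_union_left _ ha)).1).1
  bOut _ ha := (EnvB.mem_Z.mp (flL_wall h hW hv hy (Finset.mem_union_right _ ha)).1).1

theorem flR_jump (h : S.Ok) (hW : Win S W) (hR : R ≤ S.k) (hv : v.1 = S.x2) (hy : Rows S v.2 R) :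
    (flR h hW hR hv hy).Jump (S.ph W 0 0) 0 :=
  ⟨S.ρr, S.ρr, fun _ ha => (flR_wall h hW hv hy (Finset.mem_union_left _ ha)).2,
    fun _ ha => (flR_wall h hW hv hy (Finset.mem_union_right _ ha)).2, by push_cast; ring⟩

theorem flL_jump (h : S.Ok) (hW : Win S W) (hR : R ≤ S.k) (hv : v.1 = S.x1) (hy : Rows S v.2 R) :
    (flL h hW hR hv hy).Jump (S.ph W 0 0) 0 :=
  ⟨S.ρl, S.ρl, fun _ ha => (flL_wall h hW hv hy (Finset.mem_union_left _ ha)).2,
    fun _ ha => (flL_wall h hW hv hy (Finset.mem_union_right _ ha)).2, by push_cast; ring⟩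

theorem flR_Z (h : S.Ok) (hW : Win S W) (hR : R ≤ S.k) (hv : v.1 = S.x2) (hy : Rows S v.2 R)
    {ρ : ℕ} (hρ : ρ ≤ R) : (flR h hW hR hv hy).walls ρ ⊆ (S.env W 0 0).Z := by
  intro a ha
  unfold WChart.walls at ha
  obtain ⟨s, hs, rfl⟩ := Finset.mem_image.mp ha
  exact (flR_wall h hW hv hy
    (Finset.union_subset_union (wIn_mono hρ) (wOut_mono hρ) hs)).1

theorem flL_Z (h : S.Ok) (hW : Win S W) (hR : R ≤ S.k) (hv : v.1 = S.x1) (hy : Rows S v.2 R)
    {ρ : ℕ} (hρ : ρ ≤ R) : (flL h hW hR hv hy).walls ρ ⊆ (S.env W 0 0).Z := by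
  intro a ha
  unfold WChart.walls at ha
  obtain ⟨s, hs, rfl⟩ := Finset.mem_image.mp ha
  exact (flL_wall h hW hv hy
    (Finset.union_subset_union (wIn_mono hρ) (wOut_mono hρ) hs)).1

end

end Pool.Agent.SixB.MthD
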