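import Pool.Agent.Lib.SixB.S3HFin
import Pool.Agent.Lib.SixB.S3HDp
import Pool.Agent.Lib.SixB.S3DChart
import Pool.Agent.Lib.SixB.S3MthD
import Pool.Agent.Lib.SixB.S3AsmC

/-!
# 6BD step 3.8 (R18): the two packages of `CmpIn`

* `Slb.DscC S v K`: the discs `BR v (2 ^ K)` of the comparison; `Slb.DmE`, `Slb.DmD`: faces off the special boxes (the
  discs, the two tubes up to the column `3 q`, the window of the polygon around the slab).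
* `PkEIn s`: package of the environment in the windows; `PkDIn s`: package of the polygon.
-/

set_option autoImplicit false
set_option linter.unusedSectionVars false

namespace Pool.Agent.SixB

open Pool.Agent.Perc Pool.Agent.Perc.Q Pool.Agent.PercD Pool.Agent.PercN
open Pool.Agent.SixB.Tilt Pool.Agent.SixB.PC

namespace Slb

/-- the discs of the comparison -/
def DscC (S : Slb) (v : ℤ × ℤ) (K : ℕ) : Prop :=
  4 * 2 ^ K ≤ (S.k : ℤ) ∧ 4 * |v.2 - S.yc| ≤ (S.k : ℤ) ∧ S.x1 + S.k ≤ v.1 - 2 ^ K ∧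
    v.1 + 2 ^ K ≤ S.x2 - S.k

/-- faces of the polygon off the special boxes -/
def DmD (S : Slb) : Set (ℤ × ℤ) :=
  {f | S.x1 ≤ f.1 ∧ f.1 < S.x2 ∧ S.yc - (S.k / 2 : ℕ) ≤ f.2 ∧ f.2 < S.yc + (S.k / 2 : ℕ)}

/-- faces of the environment off the special boxes -/
def DmE (S : Slb) : Set (Option Bool × (ℤ × ℤ)) :=
  {g | g.1 = MthD.sh S g.2 ∧ (g.2 ∈ S.DmD ∨ (S.x1 - 3 * S.q ≤ g.2.1 ∧ g.2.1 < S.x2 + 3 * S.q ∧
    S.yc - S.a ≤ g.2.2 ∧ g.2.2 < S.yc + S.a))}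

end Slb

namespace HCmp

open Filter Topology Metric Asm3

noncomputable section

/-- **Package of the environment**, in the windows `M`; constants before `z`, `r`. -/
def PkEIn (s : ℕ) : Prop := ∀ (P : Finset (ℤ × ℤ)) (L : ℕ) (g : ℤ → ℤ × ℤ), MPoly P → Cont P L g →
  ∀ {ι : Type} (l : Filter ι) (n : ι → ℕ), Tendsto n l atTop → ∀ j : ι → ℤ → ℝ, MFam L g l n j →
  ∀ z0 ∈ Om P, ∀ D : SFam P L g l n j z0, ∃ r0 > 0, ∃ C0 c : ℝ,
    ∀ z ∈ ball z0 (D.κ / 4), ∀ r : ℝ, 0 < r → r < r0 → ∀ᶠ i in l, ∃ᶠ M : ℤ in atTop,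
      ∃ (Pr : ℝ) (Bd : (Option Bool × (ℤ × ℤ) → Bool) → ℝ), ∀ (v : ℤ × ℤ) (K : ℕ),
        (D.slb z r i).DscC v K →
          Pk (D.slb z r i).nuD (D.slb z r i).phD (BR v (2 ^ K)) (Rel.win ((D.slb z r i).env ∅ 0 0) M).F
            (WZ ((D.slb z r i).env ∅ 0 0).Q (Rel.win ((D.slb z r i).env ∅ 0 0) M).F (D.slb z r i).phE
              (Rel.win ((D.slb z r i).env ∅ 0 0) M).Z)
            (Rel.WZ1 ((D.slb z r i).env ∅ 0 0).Q (Rel.win ((D.slb z r i).env ∅ 0 0) M).F (D.slb z r i).phE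
              (Rel.win ((D.slb z r i).env ∅ 0 0) M).Z)
            s (D.slb z r i).DmE C0 c Pr Bd

/-- **Package of the polygon**; constants before `z`, `r`. -/
def PkDIn (s : ℕ) : Prop := ∀ (P : Finset (ℤ × ℤ)) (L : ℕ) (g : ℤ → ℤ × ℤ), MPoly P → Cont P L g →
  ∀ {ι : Type} (l : Filter ι) (n : ι → ℕ), Tendsto n l atTop → ∀ j : ι → ℤ → ℝ, MFam L g l n j →
  ∀ z0 ∈ Om P, ∀ D : SFam P L g l n j z0, ∃ r0 > 0, ∃ C0 c : ℝ,
    ∀ z ∈ ball z0 (D.κ / 4), ∀ r : ℝ, 0 < r → r < r0 → ∀ᶠ i in l,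
      ∃ (Pr : ℝ) (Bd : (ℤ × ℤ → Bool) → ℝ), ∀ (v : ℤ × ℤ) (K : ℕ), (D.slb z r i).DscC v K →
        Pk id id (BR v (2 ^ K)) (rf (n i) P) (WZ ZQ (rf (n i) P) (D.ψ i) (bS ZQ (rf (n i) P)))
          (Rel.WZ1 ZQ (rf (n i) P) (D.ψ i) (bS ZQ (rf (n i) P))) s (D.slb z r i).DmD C0 c Pr Bd

end

end HCmp

end Pool.Agent.SixB
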