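import Pool.Agent.Lib.SixB.S3WZ6
import Pool.Agent.Lib.SixB.S3HClsB
import Pool.Agent.Lib.SixB.S3HPkI

/-!
# 6BD step 3.8 (R18): the discs of the comparison in the slabs of a family

`SFam.GeoOK`: for two vertices `v`, `w` of the ball of radius `2 r` and the scales `2 ^ J` (of order `r n`), `2 ^ K` (of order
`κ n`) the rectangle of the insertion is in the disc `BR v (2 ^ K)`, which is in the free part of the slab; `SFam.geo_ok`.
-/

set_option autoImplicit false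
set_option linter.unusedSectionVars false

namespace Pool.Agent.SixB.Asm3

open Complex Filter Topology Metric
open Pool.Agent.Perc Pool.Agent.Perc.Q
open Pool.Agent.PercD (BR mem_BR)
open Pool.Agent.SixB.Tilt (ConnE)

noncomputable section

namespace SFam

variable {P : Finset (ℤ × ℤ)} {L : ℕ} {g : ℤ → ℤ × ℤ} {ι : Type} {l : Filter ι} {n : ι → ℕ}
  {j : ι → ℤ → ℝ} {z0 : ℂ} (D : SFam P L g l n j z0)

/-- `v` is a vertex of the rectangle of the insertion -/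
def InRc (z : ℂ) (r : ℝ) (i : ι) (v : ℤ × ℤ) : Prop :=
  InR (⌊(n i : ℝ) * z.re⌋ - D.rR r i) (⌊(n i : ℝ) * z.re⌋ + D.rR r i)
    (⌊(n i : ℝ) * z.im⌋ - D.rR r i) (⌊(n i : ℝ) * z.im⌋ + D.rR r i) v

/-- the discs of the comparison -/
structure GeoOK (z : ℂ) (r : ℝ) (i : ι) (v w : ℤ × ℤ) (J K : ℕ) : Prop where
  d1 : |w.1 - v.1| ≤ 2 ^ J
  d2 : |w.2 - v.2| ≤ 2 ^ J
  sub : D.rc z r i ⊆ BR v (2 ^ K)
  hv : D.InRc z r i v
  hw : D.InRc z r i w
  con : ConnE ZQ (D.rc z r i) v w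
  x1 : ∀ f ∈ BR v (2 ^ K), (D.slb z r i).x1 + (D.slb z r i).k ≤ f.1
  x2 : ∀ f ∈ BR v (2 ^ K), f.1 < (D.slb z r i).x2 - (D.slb z r i).k
  y1 : ∀ f ∈ BR v (2 ^ K), (D.slb z r i).yc - (D.slb z r i).k ≤ f.2
  y2 : ∀ f ∈ BR v (2 ^ K), f.2 < (D.slb z r i).yc + (D.slb z r i).k
  dom : ∀ f ∈ BR v (2 ^ K), f ∈ (D.slb z r i).D
  dsc : (D.slb z r i).DscC v K

theorem geo_ok (hn : Tendsto n l atTop) {z : ℂ} (hz : z ∈ ball z0 (D.κ / 4)) {r : ℝ} (hr : 0 < r)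
    (hr' : r < D.κ / 10 ^ 5) : ∀ᶠ i in l, ∀ v w, dist (DC.mesh (n i) v) z ≤ 2 * r →
      dist (DC.mesh (n i) w) z ≤ 2 * r → ∀ J K : ℕ, 32 * r * n i ≤ 2 ^ J →
      64 * 2 ^ K ≤ (D.slb z r i).k → J + 2 ≤ K → D.GeoOK z r i v w J K := by
  have hκ := D.hκ
  have hnR : Tendsto (fun i => (n i : ℝ)) l atTop := tendsto_natCast_atTop_atTop.comp hn
  filter_upwards [hnR.eventually_ge_atTop (10 / r), hn.eventually_gt_atTop 0, D.slb_ok hn hz hr hr',
    D.box_ok hn hz hr] with i h1 h0 hS hB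
  intro v w hv hw J K hJ hK hJK
  have hn0 : (0 : ℝ) < n i := by exact_mod_cast h0
  have h2 : 10 ≤ r * n i := by
    have := (div_le_iff₀ hr).mp h1
    linarith
  have hsl := hS.slab
  have e1 := Int.floor_le ((n i : ℝ) * z.re)
  have e2 := Int.lt_floor_add_one ((n i : ℝ) * z.re)
  have e3 := Int.floor_le ((n i : ℝ) * z.im)
  have e4 := Int.lt_floor_add_one ((n i : ℝ) * z.im)
  have hk : (D.slb z r i).k = ⌊D.κ * n i / 2⌋₊ := rfl
  have hx1 : (D.slb z r i).x1 = n i * D.X₁ := rfl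
  have hx2 : (D.slb z r i).x2 = n i * D.X₂ := rfl
  have hyc : (D.slb z r i).yc = ⌊(n i : ℝ) * z.im⌋ := rfl
  have hk1 := Nat.floor_le (show 0 ≤ D.κ * n i / 2 by positivity)
  rw [← hk] at hk1
  set k : ℕ := (D.slb z r i).k with hkk
  -- the centre
  have hzre : |z.re - z0.re| < D.κ / 4 := by
    have h3 := mem_ball.mp hz
    rw [dist_eq] at h3
    have h4 := abs_re_le_norm (z - z0)
    rw [sub_re] at h4
    linarith
  rw [abs_lt] at hzre
  have hX1 : ((n i : ℝ) * (D.X₁ + 3 / 4 * D.κ)) ≤ n i * z.re := by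
    apply mul_le_mul_of_nonneg_left _ hn0.le
    have := D.hX₁
    linarith
  have hX2 : ((n i : ℝ) * z.re) ≤ n i * (D.X₂ - 3 / 4 * D.κ) := by
    apply mul_le_mul_of_nonneg_left _ hn0.le
    have := D.hX₂
    linarith
  have hrκ : r * n i ≤ D.κ / 10 ^ 5 * n i := mul_le_mul_of_nonneg_right hr'.le hn0.le
  -- the vertices
  have near : ∀ u, dist (DC.mesh (n i) u) z ≤ 2 * r →
      |(u.1 : ℝ) - n i * z.re| ≤ 2 * r * n i ∧ |(u.2 : ℝ) - n i * z.im| ≤ 2 * r * n i := by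
    intro u hu
    rw [dist_eq] at hu
    have h3 := abs_re_le_norm (DC.mesh (n i) u - z)
    have h4 := abs_im_le_norm (DC.mesh (n i) u - z)
    rw [sub_re] at h3
    rw [sub_im] at h4
    have e5 : (DC.mesh (n i) u).re = (u.1 : ℝ) / n i := rfl
    have e6 : (DC.mesh (n i) u).im = (u.2 : ℝ) / n i := rfl
    rw [e5] at h3
    rw [e6] at h4
    have k1 : (u.1 : ℝ) - n i * z.re = n i * ((u.1 : ℝ) / n i - z.re) := by field_simp
    have k2 : (u.2 : ℝ) - n i * z.im = n i * ((u.2 : ℝ) / n i - z.im) := by field_simp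
    rw [k1, k2, abs_mul, abs_mul, abs_of_pos hn0]
    constructor
    · have := mul_le_mul_of_nonneg_left (h3.trans hu) hn0.le
      linarith
    · have := mul_le_mul_of_nonneg_left (h4.trans hu) hn0.le
      linarith
  obtain ⟨v1, v2⟩ := near v hv
  obtain ⟨w1, w2⟩ := near w hw
  rw [abs_le] at v1 v2 w1 w2
  -- the scales
  have q1 : (4 : ℝ) * 2 ^ J ≤ 2 ^ K := by
    have h3 : (2 : ℝ) ^ (J + 2) ≤ 2 ^ K := pow_le_pow_right₀ (by norm_num) hJK
    rw [pow_add] at h3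
    linarith
  have q2 : (64 : ℝ) * 2 ^ K ≤ k := by exact_mod_cast hK
  have q3 : (0 : ℝ) < 2 ^ K := by positivity
  have q4 : (4 : ℝ) * 2 ^ K ≤ k := by linarith
  have hk2 : D.κ * n i / 2 < (k : ℝ) + 1 := by
    have h3 := Nat.lt_floor_add_one (D.κ * n i / 2)
    rw [← hk] at h3
    exact h3
  -- the disc
  have disc : ∀ f ∈ BR v (2 ^ K), ((D.slb z r i).x1 + k ≤ f.1 ∧ f.1 < (D.slb z r i).x2 - k) ∧
      (D.slb z r i).yc - k ≤ f.2 ∧ f.2 < (D.slb z r i).yc + k := by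
    intro f hf
    obtain ⟨f1, f2, f3, f4⟩ := mem_BR.mp hf
    have g1 : ((v.1 : ℝ) - 2 ^ K) ≤ f.1 := by exact_mod_cast f1
    have g2 : (f.1 : ℝ) < v.1 + 2 ^ K := by exact_mod_cast f2
    have g3 : ((v.2 : ℝ) - 2 ^ K) ≤ f.2 := by exact_mod_cast f3
    have g4 : (f.2 : ℝ) < v.2 + 2 ^ K := by exact_mod_cast f4
    rw [hx1, hx2, hyc]
    refine ⟨⟨?_, ?_⟩, ?_, ?_⟩
    · have : (((n i * D.X₁ + k : ℤ)) : ℝ) ≤ f.1 := by
        push_cast
        nlinarith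
      exact_mod_cast this
    · have : (f.1 : ℝ) < ((n i * D.X₂ - k : ℤ) : ℝ) := by
        push_cast
        nlinarith
      exact_mod_cast this
    · have : ((⌊(n i : ℝ) * z.im⌋ - k : ℤ) : ℝ) ≤ f.2 := by
        push_cast
        nlinarith
      exact_mod_cast this
    · have : (f.2 : ℝ) < ((⌊(n i : ℝ) * z.im⌋ + k : ℤ) : ℝ) := by
        push_cast
        nlinarith
      exact_mod_cast this
  have hrc : D.rc z r i = RF (⌊(n i : ℝ) * z.re⌋ - D.rR r i) (⌊(n i : ℝ) * z.re⌋ + D.rR r i)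
    (⌊(n i : ℝ) * z.im⌋ - D.rR r i) (⌊(n i : ℝ) * z.im⌋ + D.rR r i) := rfl
  have hpos := hB.pos
  have hR : (D.rR r i : ℝ) < 32 * r * n i + 1 := Int.ceil_lt_add_one _
  refine ⟨?_, ?_, ?_, hB.mem v hv, hB.mem w hw, ?_, fun f hf => (disc f hf).1.1,
    fun f hf => (disc f hf).1.2, fun f hf => (disc f hf).2.1, fun f hf => (disc f hf).2.2, ?_,
    ⟨?_, ?_, ?_, ?_⟩⟩
  · have : ((|w.1 - v.1| : ℤ) : ℝ) ≤ ((2 ^ J : ℤ) : ℝ) := by
      push_cast
      rw [abs_le]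
      constructor <;> linarith
    exact_mod_cast this
  · have : ((|w.2 - v.2| : ℤ) : ℝ) ≤ ((2 ^ J : ℤ) : ℝ) := by
      push_cast
      rw [abs_le]
      constructor <;> linarith
    exact_mod_cast this
  · intro f hf
    rw [hrc] at hf
    obtain ⟨f1, f2, f3, f4⟩ := mem_RF.mp hf
    have g1 : ((⌊(n i : ℝ) * z.re⌋ : ℤ) : ℝ) - (D.rR r i : ℤ) ≤ (f.1 : ℤ) := by exact_mod_cast f1
    have g2 : ((f.1 : ℤ) : ℝ) < (⌊(n i : ℝ) * z.re⌋ : ℤ) + (D.rR r i : ℤ) := by exact_mod_cast f2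
    have g3 : ((⌊(n i : ℝ) * z.im⌋ : ℤ) : ℝ) - (D.rR r i : ℤ) ≤ (f.2 : ℤ) := by exact_mod_cast f3
    have g4 : ((f.2 : ℤ) : ℝ) < (⌊(n i : ℝ) * z.im⌋ : ℤ) + (D.rR r i : ℤ) := by exact_mod_cast f4
    refine mem_BR.mpr ⟨?_, ?_, ?_, ?_⟩
    · have : ((v.1 - 2 ^ K : ℤ) : ℝ) ≤ f.1 := by
        push_cast
        linarith
      exact_mod_cast this
    · have : (f.1 : ℝ) < ((v.1 + 2 ^ K : ℤ) : ℝ) := by
        push_cast
        linarith
      exact_mod_cast this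
    · have : ((v.2 - 2 ^ K : ℤ) : ℝ) ≤ f.2 := by
        push_cast
        linarith
      exact_mod_cast this
    · have : (f.2 : ℝ) < ((v.2 + 2 ^ K : ℤ) : ℝ) := by
        push_cast
        linarith
      exact_mod_cast this
  · rw [hrc]
    exact HC.conn_box (by omega) (by omega) (hB.mem v hv) (hB.mem w hw)
  · intro f hf
    obtain ⟨⟨f1, f2⟩, f3, f4⟩ := disc f hf
    have hf' : f = (f.1, f.2) := rfl
    rw [hf']
    have h5 := hsl.sub f.1 f.2 (by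
      have : (0 : ℤ) ≤ k := Int.natCast_nonneg _
      omega) (by
      have : (0 : ℤ) ≤ k := Int.natCast_nonneg _
      omega) f3 f4
    exact h5
  · exact_mod_cast q4
  · have : ((4 * |v.2 - (D.slb z r i).yc| : ℤ) : ℝ) ≤ ((k : ℤ) : ℝ) := by
      rw [hyc]
      push_cast
      have h6 : |(v.2 : ℝ) - (⌊(n i : ℝ) * z.im⌋ : ℝ)| ≤ 2 * r * n i + 1 := by
        rw [abs_le]
        constructor <;> linarith
      linarith
    exact_mod_cast this
  · have : (((D.slb z r i).x1 + k : ℤ) : ℝ) ≤ ((v.1 - 2 ^ K : ℤ) : ℝ) := by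
      rw [hx1]
      push_cast
      nlinarith
    exact_mod_cast this
  · have : ((v.1 + 2 ^ K : ℤ) : ℝ) ≤ (((D.slb z r i).x2 - k : ℤ) : ℝ) := by
      rw [hx2]
      push_cast
      nlinarith
    exact_mod_cast this

end SFam

end

end Pool.Agent.SixB.Asm3
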