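import Pool.Agent.Lib.SixB.S3WZ3
import Pool.Agent.Lib.SixB.S3AsmGeo
import Pool.Agent.Lib.SixB.CAEnvF

/-!
# 6BD step 3: the heights of the contour environments as quotients of means (joint of R18 and `envJ`)

`hP : MPoly P`, `hψ : PhC P m g j ψ` (phases with the jumps `j` along the contour).
* `isPh_of_phC`: the phases in the form `IsPh` of CAEnvE; `card_bS`: the contour has `m` boundary sides.
* `HJ.W_nW`, `HJ.num_nW1`, `HJ.Z_nW`, `HJ.mA_nW`: weight, numerator, `Z`, mean arrow of `cenv P g m j` are `nW`,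
  `nW1`, their means; the same with `WZ`, `WZ1` (`Z` = all boundary sides): `HJ.W_WZ`, `HJ.num_WZ1`.
* `HJ.edge`: `hU a.1 v - hU a.2 v = av nW1 a / av nW`; `HJ.pot`: every function on a part of `P` with these increments
  has the differences of `hU`.
* `HJ.envJ_edge`, `HJ.envJ_pot`: the same for `envJ P L g n j` on `rf n P`.
-/

set_option autoImplicit false
set_option linter.unusedSectionVars false

namespace Pool.Agent.SixB

open Pool.Agent.Perc Pool.Agent.Perc.Q Relation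

noncomputable section

variable {P : Finset (ℤ × ℤ)} {ω : Cfg} {a e : DZ} {z z' : VZ} {g : ℤ → VZ} {ν : ℤ → ℤ}
  {m : ℕ} {j : ℤ → ℝ} {ψ : DZ → ℝ}

theorem isPh_of_phC (h1 : ∀ i, g (i + 1) = g i + dv (ν i))
    (h2 : ∀ i, ν (i + 1) = ν i + 1 ∨ ν (i + 1) = ν i ∨ ν (i + 1) = ν i - 1)
    (hψ : PhC P m g j ψ) : IsPh g ν j ψ := by
  intro v
  have h3 := hψ.jump v
  rw [Asm3.crs_eq h1 h2] at h3
  unfold csd
  rw [sub_add_cancel]
  exact h3

/-- the total of the jumps -/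
theorem PhC.csum_tot (hψ : PhC P m g j ψ) : csum j 0 m = Real.pi / 3 := by
  rw [← Asm3.csum_range hψ.per]
  exact hψ.tot

theorem card_bS (hP : MPoly P) (hc : Cont P m g) : (bS ZQ P).card = m := by
  obtain ⟨ν, -, -, -, hD⟩ := hP.disc hc
  have h := hD 0
  have h5 : bS ZQ P = ((cword g ν m 0).map Prod.fst).toFinset := by
    ext e
    rw [h.mem_bS (cword_ini hc), List.mem_toFinset]
  rw [h5, List.toFinset_card_of_nodup h.inv.nodup, List.length_map, cword_length]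

/-- closed strands of a polygon -/
theorem MPoly.clo4 (hP : MPoly P) (hc : Cont P m g) : Rel.Clo4 ZQ P := by
  obtain ⟨ν, -, -, -, hD⟩ := hP.disc hc
  intro ω X hX hX'
  exact (hD 0).closed (cword_ini hc) hX hX'

namespace HJ

theorem W_nW (hP : MPoly P) (hψ : PhC P m g j ψ) (ω : Cfg) :
    (cenv P g m j).W ω = nW ZQ P ψ ω := by
  obtain ⟨ν, h1, h2, h3, hD⟩ := hP.disc hψ.cont
  unfold nW
  rw [card_bS hP hψ.cont]
  exact cenv_W hψ.cont (hD 0) hψ.per hψ.csum_tot (isPh_of_phC h1 h3 hψ) ω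

theorem num_nW1 (hP : MPoly P) (hψ : PhC P m g j ψ) (he : e ∈ dE ZQ P) (ω : Cfg) :
    (cenv P g m j).num ω e = nW1 ZQ P ψ e ω := by
  obtain ⟨ν, h1, h2, h3, hD⟩ := hP.disc hψ.cont
  unfold nW1
  rw [card_bS hP hψ.cont]
  exact cenv_num hψ.cont (hD 0) hψ.per hψ.csum_tot (isPh_of_phC h1 h3 hψ) he ω

theorem Z_nW (hP : MPoly P) (hψ : PhC P m g j ψ) : (cenv P g m j).Z = av P (nW ZQ P ψ) := by
  unfold WEnv.Z
  exact av_congr (g := (cenv P g m j).W) (g' := nW ZQ P ψ) fun T _ => W_nW hP hψ (ind T)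

theorem mA_nW (hP : MPoly P) (hψ : PhC P m g j ψ) (he : e ∈ dE ZQ P) :
    (cenv P g m j).mA e = av P (nW1 ZQ P ψ e) / av P (nW ZQ P ψ) := by
  unfold WEnv.mA
  rw [← Z_nW hP hψ]
  congr 1
  exact av_congr (g := fun ω => (cenv P g m j).num ω e) (g' := nW1 ZQ P ψ e)
    fun T _ => num_nW1 hP hψ he (ind T)

theorem W_WZ (hP : MPoly P) (hψ : PhC P m g j ψ) (ω : Cfg) :
    (cenv P g m j).W ω = WZ ZQ P ψ (bS ZQ P) ω := by
  rw [W_nW hP hψ, Rel.nW_WZ Tilt.zq_noLoop fun X hX hX' => hP.clo4 hψ.cont ω X hX hX']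

theorem num_WZ1 (hP : MPoly P) (hψ : PhC P m g j ψ) (he : e ∈ dE ZQ P) (ω : Cfg) :
    (cenv P g m j).num ω e = Rel.WZ1 ZQ P ψ (bS ZQ P) e ω := by
  rw [num_nW1 hP hψ he,
    Rel.nW1_WZ1 Tilt.zq_noLoop he fun X hX hX' => hP.clo4 hψ.cont ω X hX hX']

theorem Z_WZ (hP : MPoly P) (hψ : PhC P m g j ψ) :
    (cenv P g m j).Z = av P (WZ ZQ P ψ (bS ZQ P)) := by
  unfold WEnv.Z
  exact av_congr (g := (cenv P g m j).W) (g' := WZ ZQ P ψ (bS ZQ P))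
    fun T _ => W_WZ hP hψ (ind T)

theorem mA_WZ (hP : MPoly P) (hψ : PhC P m g j ψ) (he : e ∈ dE ZQ P) :
    (cenv P g m j).mA e =
      av P (Rel.WZ1 ZQ P ψ (bS ZQ P) e) / av P (WZ ZQ P ψ (bS ZQ P)) := by
  unfold WEnv.mA
  rw [← Z_WZ hP hψ]
  congr 1
  exact av_congr (g := fun ω => (cenv P g m j).num ω e) (g' := Rel.WZ1 ZQ P ψ (bS ZQ P) e)
    fun T _ => num_WZ1 hP hψ he (ind T)

/-- **Increments of the height.** -/
theorem edge (hP : MPoly P) (hψ : PhC P m g j ψ) (he : e ∈ dE ZQ P) (v : VZ) :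
    (cenv P g m j).hU e.1 v - (cenv P g m j).hU e.2 v =
      av P (nW1 ZQ P ψ e) / av P (nW ZQ P ψ) := by
  rw [(cenv P g m j).hU_sub, hP.hU_edge he, mA_nW hP hψ he]

theorem edge_WZ (hP : MPoly P) (hψ : PhC P m g j ψ) (he : e ∈ dE ZQ P) (v : VZ) :
    (cenv P g m j).hU e.1 v - (cenv P g m j).hU e.2 v =
      av P (Rel.WZ1 ZQ P ψ (bS ZQ P) e) / av P (WZ ZQ P ψ (bS ZQ P)) := by
  rw [(cenv P g m j).hU_sub, hP.hU_edge he, mA_WZ hP hψ he]

/-- **Uniqueness**: a function with these increments on a part `G` of `P` -/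
theorem pot (hP : MPoly P) (hψ : PhC P m g j ψ) {G : Finset (ℤ × ℤ)} (hG : G ⊆ P) {u : VZ → ℝ}
    (hu : ∀ a ∈ dE ZQ G, u a.1 - u a.2 = av P (nW1 ZQ P ψ a) / av P (nW ZQ P ψ))
    (hz : Tilt.ConnE ZQ G z z') (v : VZ) :
    (cenv P g m j).hU z v - (cenv P g m j).hU z' v = u z - u z' := by
  refine Tilt.sub_eq_of_inc (G := G) (u := fun w => (cenv P g m j).hU w v) (v := u) (z := z)
    (z' := z') (fun a ha => ?_) hz
  show (cenv P g m j).hU a.1 v - (cenv P g m j).hU a.2 v = u a.1 - u a.2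
  rw [hu a ha]
  exact edge hP hψ (SixB.dE_mono hG ha) v

theorem pot_WZ (hP : MPoly P) (hψ : PhC P m g j ψ) {G : Finset (ℤ × ℤ)} (hG : G ⊆ P) {u : VZ → ℝ}
    (hu : ∀ a ∈ dE ZQ G, u a.1 - u a.2 =
      av P (Rel.WZ1 ZQ P ψ (bS ZQ P) a) / av P (WZ ZQ P ψ (bS ZQ P)))
    (hz : Tilt.ConnE ZQ G z z') (v : VZ) :
    (cenv P g m j).hU z v - (cenv P g m j).hU z' v = u z - u z' := by
  refine Tilt.sub_eq_of_inc (G := G) (u := fun w => (cenv P g m j).hU w v) (v := u) (z := z)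
    (z' := z') (fun a ha => ?_) hz
  show (cenv P g m j).hU a.1 v - (cenv P g m j).hU a.2 v = u a.1 - u a.2
  rw [hu a ha]
  exact edge_WZ hP hψ (SixB.dE_mono hG ha) v

/-! ## The refined polygon -/

variable {L n : ℕ}

theorem envJ_edge (hP : MPoly P) (hn : 0 < n) (hψ : PhC (rf n P) (n * L) (gr n g) j ψ)
    (he : e ∈ dE ZQ (rf n P)) (v : VZ) :
    (envJ P L g n j).hU e.1 v - (envJ P L g n j).hU e.2 v =
      av (rf n P) (nW1 ZQ (rf n P) ψ e) / av (rf n P) (nW ZQ (rf n P) ψ) :=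
  edge (CARf.mpoly_rf hP hn) hψ he v

theorem envJ_edge_WZ (hP : MPoly P) (hn : 0 < n) (hψ : PhC (rf n P) (n * L) (gr n g) j ψ)
    (he : e ∈ dE ZQ (rf n P)) (v : VZ) :
    (envJ P L g n j).hU e.1 v - (envJ P L g n j).hU e.2 v =
      av (rf n P) (Rel.WZ1 ZQ (rf n P) ψ (bS ZQ (rf n P)) e) /
        av (rf n P) (WZ ZQ (rf n P) ψ (bS ZQ (rf n P))) :=
  edge_WZ (CARf.mpoly_rf hP hn) hψ he v

theorem envJ_pot (hP : MPoly P) (hn : 0 < n) (hψ : PhC (rf n P) (n * L) (gr n g) j ψ)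
    {G : Finset (ℤ × ℤ)} (hG : G ⊆ rf n P) {u : VZ → ℝ}
    (hu : ∀ a ∈ dE ZQ G, u a.1 - u a.2 =
      av (rf n P) (nW1 ZQ (rf n P) ψ a) / av (rf n P) (nW ZQ (rf n P) ψ))
    (hz : Tilt.ConnE ZQ G z z') (v : VZ) :
    (envJ P L g n j).hU z v - (envJ P L g n j).hU z' v = u z - u z' :=
  pot (CARf.mpoly_rf hP hn) hψ hG hu hz v

theorem envJ_pot_WZ (hP : MPoly P) (hn : 0 < n) (hψ : PhC (rf n P) (n * L) (gr n g) j ψ)
    {G : Finset (ℤ × ℤ)} (hG : G ⊆ rf n P) {u : VZ → ℝ}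
    (hu : ∀ a ∈ dE ZQ G, u a.1 - u a.2 = av (rf n P) (Rel.WZ1 ZQ (rf n P) ψ (bS ZQ (rf n P)) a) /
      av (rf n P) (WZ ZQ (rf n P) ψ (bS ZQ (rf n P))))
    (hz : Tilt.ConnE ZQ G z z') (v : VZ) :
    (envJ P L g n j).hU z v - (envJ P L g n j).hU z' v = u z - u z' :=
  pot_WZ (CARf.mpoly_rf hP hn) hψ hG hu hz v

theorem envJ_Z (hP : MPoly P) (hn : 0 < n) (hψ : PhC (rf n P) (n * L) (gr n g) j ψ) :
    (envJ P L g n j).Z = av (rf n P) (nW ZQ (rf n P) ψ) := Z_nW (CARf.mpoly_rf hP hn) hψ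

theorem envJ_Z_WZ (hP : MPoly P) (hn : 0 < n) (hψ : PhC (rf n P) (n * L) (gr n g) j ψ) :
    (envJ P L g n j).Z = av (rf n P) (WZ ZQ (rf n P) ψ (bS ZQ (rf n P))) :=
  Z_WZ (CARf.mpoly_rf hP hn) hψ

/-- every family of jumps has phases -/
theorem exists_phC (hP : MPoly P) (hc : Cont P L g) (hn : 0 < n)
    (hj : ∀ v, j (v + (n * L : ℕ)) = j v) (h0 : csum j 0 (n * L : ℕ) = Real.pi / 3) :
    ∃ ψ : DZ → ℝ, PhC (rf n P) (n * L) (gr n g) j ψ := by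
  have hc' := CARf.cont_rf hc hn
  obtain ⟨ν, h1, h2, h3, -⟩ := (CARf.mpoly_rf hP hn).disc hc'
  exact ⟨_, Asm3.phC_of hc' h1 h3 hj h0 (exists_ph hc' h2 hj h0)⟩

end HJ

end

end Pool.Agent.SixB
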