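import Mathlib

/-!
# 6BD step 3.8 (R18): the numbers at the end of the comparison

For `a = ⌈100 r n⌉`, `k = ⌊κ n / 2⌋` there are scales `2 ^ J` about `r n`, `2 ^ K` about `κ n` and `2 ^ N` about `κ / r`
such that the error of the comparison is `≤ C r ^ (2 + c)`.
-/

set_option autoImplicit false

namespace Pool.Agent.SixB.HNum

open Filter Topology

/-- a power of two between two numbers -/
theorem exists_pow_le {x : ℝ} (hx : 1 ≤ x) : ∃ N : ℕ, (2 : ℝ) ^ N ≤ x ∧ x < 2 ^ (N + 1) := by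
  obtain ⟨N, h1, h2⟩ := exists_nat_pow_near hx (by norm_num : (1 : ℝ) < 2)
  exact ⟨N, h1, h2⟩

/-- the linear factor against a small power -/
theorem lin_le {δ : ℝ} (hδ : 0 < δ) : ∃ C : ℝ, 0 < C ∧ ∀ N : ℕ, (N : ℝ) ≤ C * (2 : ℝ) ^ (δ * N) := by
  have hl : 0 < Real.log 2 := Real.log_pos (by norm_num)
  refine ⟨1 / (δ * Real.log 2), by positivity, fun N => ?_⟩
  have h1 : δ * N * Real.log 2 + 1 ≤ Real.exp (δ * N * Real.log 2) := Real.add_one_le_exp _
  have h2 : (2 : ℝ) ^ (δ * N) = Real.exp (δ * N * Real.log 2) := by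
    rw [Real.rpow_def_of_pos (by norm_num)]
    congr 1
    ring
  rw [h2, div_mul_eq_mul_div, one_mul, le_div_iff₀ (by positivity)]
  nlinarith

/-- powers of `q` beyond `1 / r` -/
theorem pow_small {q b : ℝ} (hq : 0 < q) (hq1 : q < 1) (hb : 0 < b) : ∃ C : ℝ, 0 < C ∧
    ∀ (r : ℝ) (m : ℕ), 0 < r → b / r ≤ m + 1 → q ^ m ≤ C * r ^ 2 := by
  have hl : 0 < -Real.log q := by
    have := Real.log_neg hq hq1
    linarith
  refine ⟨2 / (q * (b * -Real.log q) ^ 2), by positivity, fun r m hr hm => ?_⟩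
  set y : ℝ := (b / r) * -Real.log q with hy
  have hy0 : 0 < y := by positivity
  have h1 : q ^ (m + 1) = Real.exp (-(((m : ℝ) + 1) * -Real.log q)) := by
    rw [show -(((m : ℝ) + 1) * -Real.log q) = ((m + 1 : ℕ) : ℝ) * Real.log q by push_cast; ring,
      Real.exp_nat_mul, Real.exp_log hq]
  have h2 : q ^ (m + 1) ≤ Real.exp (-y) := by
    rw [h1]
    refine Real.exp_le_exp.mpr (neg_le_neg ?_)
    exact mul_le_mul_of_nonneg_right hm hl.le
  have h3 : y ^ 2 / 2 ≤ Real.exp y := by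
    have := Real.quadratic_le_exp_of_nonneg hy0.le
    linarith
  have h4 : Real.exp (-y) ≤ 2 / y ^ 2 := by
    rw [Real.exp_neg, inv_le_comm₀ (Real.exp_pos _) (by positivity)]
    rw [inv_div]
    exact h3
  have h5 : q * q ^ m ≤ 2 / y ^ 2 := by
    rw [← pow_succ']
    exact h2.trans h4
  have h6 : (2 : ℝ) / y ^ 2 = q * (2 / (q * (b * -Real.log q) ^ 2) * r ^ 2) := by
    rw [hy]
    have hl' : -Real.log q ≠ 0 := hl.ne'
    field_simp
  rw [h6] at h5
  exact le_of_mul_le_mul_left h5 hq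

/-- exponent `1 - 2 ^ (- s)` -/
theorem th_ge {s : ℕ} (hs : 5 ≤ s) : (31 / 32 : ℝ) ≤ 1 - (1 / 2 : ℝ) ^ s := by
  have h : (1 / 2 : ℝ) ^ s ≤ (1 / 2) ^ 5 := pow_le_pow_of_le_one (by norm_num) (by norm_num) hs
  norm_num at h ⊢
  linarith

theorem th_le (s : ℕ) : 1 - (1 / 2 : ℝ) ^ s ≤ 1 := by
  have : (0 : ℝ) < (1 / 2) ^ s := by positivity
  linarith

/-- **The numbers.** -/
theorem num_end {κ : ℝ} (hκ : 0 < κ) {s : ℕ} (hs : 5 ≤ s) {q : ℝ} (hq : 0 < q) (hq1 : q < 1)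
    {A₁ A₂ ε : ℝ} (hA₁ : 0 ≤ A₁) (hA₂ : 0 ≤ A₂) (hε : 0 < ε) :
    ∃ r₀ : ℝ, 0 < r₀ ∧ ∃ C : ℝ, 0 ≤ C ∧ ∃ c : ℝ, 0 < c ∧ ∀ r : ℝ, 0 < r → r < r₀ → ∃ N : ℕ, 1 < N ∧
      ∀ᶠ n : ℕ in atTop, ∃ J K : ℕ, J + 2 ≤ K ∧ 32 * r * n ≤ 2 ^ J ∧ (2 : ℝ) ^ J ≤ 128 * r * n ∧
        64 * 2 ^ K ≤ ⌊κ * n / 2⌋₊ ∧ 64 * ⌈100 * r * n⌉₊ * 2 ^ N ≤ ⌊κ * n / 2⌋₊ ∧
        ∀ p : ℝ, 0 ≤ p →
          p ≤ A₁ * q ^ (⌊κ * n / 2⌋₊ / (8 * ⌈100 * r * n⌉₊)) + A₂ * (N / 4 ^ N) →
          p ^ (1 - (1 / 2 : ℝ) ^ s) ≤ ε ∧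
          p ^ (1 - (1 / 2 : ℝ) ^ s) * ((2 : ℝ) ^ J / 2 ^ K) ^ ((1 - (1 / 2 : ℝ) ^ s) / 8) ≤
            C * r ^ (2 + c) := by
  set θ : ℝ := 1 - (1 / 2 : ℝ) ^ s with hθ
  have t1 : (31 / 32 : ℝ) ≤ θ := th_ge hs
  have t2 : θ ≤ 1 := th_le s
  have t0 : 0 < θ := by linarith
  set c : ℝ := (17 * θ / 8 - 2) / 2 with hc
  have c0 : 0 < c := by rw [hc]; linarith
  have c1 : c ≤ 1 / 16 := by rw [hc]; linarith
  set δ : ℝ := c / θ with hδ
  have δ0 : 0 < δ := by positivity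
  have δ1 : δ < 1 := by
    rw [hδ, div_lt_one t0]
    linarith
  obtain ⟨B₁, hB₁, b1⟩ := lin_le δ0
  obtain ⟨B₂, hB₂, b2⟩ := pow_small hq hq1 (b := κ / 3232) (by positivity)
  -- bound of the probability
  set M : ℝ := A₁ * B₂ + A₂ * (B₁ * (65536 / κ) ^ (2 - δ)) with hM
  have hM0 : 0 ≤ M := by positivity
  have key : ∃ r₁ : ℝ, 0 < r₁ ∧ ∀ r : ℝ, 0 < r → r < r₁ → (M * r ^ (2 - δ)) ^ θ ≤ ε := by
    have h1 : Tendsto (fun r : ℝ => (M * r ^ (2 - δ)) ^ θ) (𝓝[>] 0) (𝓝 0) := by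
      have h2 : Tendsto (fun r : ℝ => r ^ (2 - δ)) (𝓝 0) (𝓝 0) := by
        have h3 : ContinuousAt (fun r : ℝ => r ^ (2 - δ)) 0 :=
          Real.continuousAt_rpow_const _ _ (Or.inr (by linarith))
        have h4 := h3.tendsto
        simp only [Real.zero_rpow (by linarith : (2 - δ) ≠ 0)] at h4
        exact h4
      have h5 : Tendsto (fun r : ℝ => M * r ^ (2 - δ)) (𝓝 0) (𝓝 0) := by
        simpa using h2.const_mul M
      have h6 : ContinuousAt (fun x : ℝ => x ^ θ) 0 := Real.continuousAt_rpow_const _ _ (Or.inr t0.le)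
      have h7 := h6.tendsto
      simp only [Real.zero_rpow t0.ne'] at h7
      exact (h7.comp h5).mono_left nhdsWithin_le_nhds
    have h2 := (h1.eventually (eventually_le_nhds hε))
    rw [eventually_nhdsWithin_iff, Metric.eventually_nhds_iff] at h2
    obtain ⟨r₁, h3, h4⟩ := h2
    refine ⟨r₁, h3, fun r hr hr1 => h4 ?_ hr⟩
    rw [Real.dist_eq, sub_zero, abs_of_pos hr]
    exact hr1
  obtain ⟨r₁, hr₁, g1⟩ := key
  refine ⟨min (min r₁ 1) (κ / 2 ^ 18), lt_min (lt_min hr₁ one_pos) (by positivity),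
    M ^ θ * (65536 / κ) ^ (θ / 8), by positivity, c, c0, fun r hr hr0 => ?_⟩
  have q1 : r < r₁ := hr0.trans_le ((min_le_left _ _).trans (min_le_left _ _))
  have q2 : r < 1 := hr0.trans_le ((min_le_left _ _).trans (min_le_right _ _))
  have q3 : r < κ / 2 ^ 18 := hr0.trans_le (min_le_right _ _)
  have q3' : 262144 * r < κ := by
    rw [lt_div_iff₀ (by norm_num)] at q3
    norm_num at q3
    linarith
  -- the number N
  have hx : 1 ≤ κ / (32768 * r) := by
    rw [le_div_iff₀ (by positivity)]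
    linarith
  obtain ⟨N, n1, n2⟩ := exists_pow_le hx
  have n1' : 32768 * r * 2 ^ N ≤ κ := by
    rw [le_div_iff₀ (by positivity)] at n1
    linarith
  have n2' : κ < 65536 * r * 2 ^ N := by
    rw [div_lt_iff₀ (by positivity), pow_succ] at n2
    linarith
  have hN1 : 1 < N := by
    by_contra h
    have h1 : (2 : ℝ) ^ N ≤ 2 ^ 1 := pow_le_pow_right₀ (by norm_num) (by omega)
    nlinarith
  refine ⟨N, hN1, ?_⟩
  have e1 : ∀ᶠ n : ℕ in atTop, (1 : ℝ) / r ≤ n := by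
    filter_upwards [eventually_ge_atTop ⌈(1 : ℝ) / r⌉₊] with n hn
    exact (Nat.le_ceil _).trans (by exact_mod_cast hn)
  have e2 : ∀ᶠ n : ℕ in atTop, (256 : ℝ) / κ ≤ n := by
    filter_upwards [eventually_ge_atTop ⌈(256 : ℝ) / κ⌉₊] with n hn
    exact (Nat.le_ceil _).trans (by exact_mod_cast hn)
  filter_upwards [e1, e2] with n m1 m2
  have m1' : 1 ≤ r * n := by
    rw [div_le_iff₀ hr] at m1
    linarith
  have m2' : 256 ≤ κ * n := by
    rw [div_le_iff₀ hκ] at m2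
    linarith
  have hn0 : (0 : ℝ) ≤ n := Nat.cast_nonneg n
  set a : ℕ := ⌈100 * r * n⌉₊ with ha
  set k : ℕ := ⌊κ * n / 2⌋₊ with hk
  have a1 : (a : ℝ) ≤ 101 * (r * n) := by
    have := (Nat.ceil_lt_add_one (by positivity : 0 ≤ 100 * r * n)).le
    linarith
  have a0 : 100 * (r * n) ≤ a := by
    have := Nat.le_ceil (100 * r * n)
    linarith
  have k0 : (k : ℝ) ≤ κ * n / 2 := Nat.floor_le (by positivity)
  have k1 : κ * n / 4 ≤ k := by
    have := Nat.lt_floor_add_one (κ * n / 2)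
    have h : (κ * n / 2 : ℝ) < k + 1 := this
    linarith
  -- the number J
  obtain ⟨J', j1, j2⟩ := exists_pow_le (x := 32 * (r * n)) (by linarith)
  -- the number K
  obtain ⟨K, i1, i2⟩ := exists_pow_le (x := (k : ℝ) / 64) (by linarith)
  have i2' : κ * n < 512 * 2 ^ K := by
    rw [pow_succ] at i2
    linarith
  have j2' : 32 * r * n ≤ 2 ^ (J' + 1) := by linarith
  have j3 : (2 : ℝ) ^ (J' + 1) ≤ 64 * (r * n) := by
    rw [pow_succ]
    linarith
  have rn : 262144 * (r * n) ≤ κ * n := by nlinarith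
  have hJK : J' + 1 + 2 ≤ K := by
    by_contra h
    have h1 : (2 : ℝ) ^ K ≤ 2 ^ (J' + 1 + 1) := pow_le_pow_right₀ (by norm_num) (by omega)
    rw [pow_succ] at h1
    linarith
  refine ⟨J' + 1, K, hJK, j2', by linarith, ?_, ?_, fun p hp hpP => ?_⟩
  · have h1 : (64 * 2 ^ K : ℝ) ≤ k := by linarith
    exact_mod_cast h1
  · have h0 : (0 : ℝ) < 2 ^ N := by positivity
    have h1 : (64 * a * 2 ^ N : ℝ) ≤ k := by
      have h2 : (64 * a * 2 ^ N : ℝ) ≤ 64 * (101 * (r * n)) * 2 ^ N := by gcongr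
      have h3 : 32768 * r * 2 ^ N * n ≤ κ * n := mul_le_mul_of_nonneg_right n1' hn0
      nlinarith [mul_pos h0 (lt_of_lt_of_le one_pos m1')]
    exact_mod_cast h1
  · -- the bound of p
    have hp1 : p ≤ M * r ^ (2 - δ) := by
      refine hpP.trans ?_
      rw [hM, add_mul]
      refine add_le_add ?_ ?_
      · rw [mul_assoc]
        refine mul_le_mul_of_nonneg_left ?_ hA₁
        have ha0 : (0 : ℝ) < a := by linarith
        have h1 : κ / 3232 / r ≤ ((k / (8 * a) : ℕ) : ℝ) + 1 := by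
          have h2 : (k : ℝ) / (8 * a) ≤ ((k / (8 * a) : ℕ) : ℝ) + 1 := by
            have h3 := Nat.lt_div_mul_add (a := k) (b := 8 * a) (by
              have : 0 < a := by exact_mod_cast ha0
              omega)
            have h4 : (k : ℝ) < ((k / (8 * a) : ℕ) : ℝ) * (8 * a) + 8 * a := by exact_mod_cast h3
            rw [div_le_iff₀ (by positivity)]
            linarith
          refine le_trans ?_ h2
          rw [div_div, div_le_div_iff₀ (by positivity) (by positivity)]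
          have h5 : κ * (8 * a) ≤ κ * (8 * (101 * (r * n))) := by gcongr
          have h6 : κ * n / 4 * (3232 * r) ≤ k * (3232 * r) := by gcongr
          nlinarith
        have h2 := b2 r _ hr h1
        refine h2.trans (mul_le_mul_of_nonneg_left ?_ hB₂.le)
        rw [← Real.rpow_natCast]
        exact Real.rpow_le_rpow_of_exponent_ge hr q2.le (by push_cast; linarith)
      · rw [mul_assoc, mul_assoc]
        refine mul_le_mul_of_nonneg_left ?_ hA₂
        have h1 := b1 N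
        have h4 : (4 : ℝ) ^ N = (2 : ℝ) ^ (2 * (N : ℝ)) := by
          rw [show (4 : ℝ) = 2 ^ (2 : ℝ) by norm_num, ← Real.rpow_natCast, ← Real.rpow_mul (by norm_num)]
        have h5 : (N : ℝ) / 4 ^ N ≤ B₁ * ((2 : ℝ) ^ N)⁻¹ ^ (2 - δ) := by
          rw [h4, ← Real.rpow_natCast 2 N, ← Real.rpow_neg (by norm_num), ← Real.rpow_mul (by norm_num),
            div_le_iff₀ (by positivity), mul_assoc, ← Real.rpow_add (by norm_num)]
          refine h1.trans (le_of_eq ?_)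
          congr 2
          ring
        refine h5.trans (mul_le_mul_of_nonneg_left ?_ hB₁.le)
        rw [← Real.mul_rpow (by positivity) hr.le]
        refine Real.rpow_le_rpow (by positivity) ?_ (by linarith)
        rw [inv_le_iff_one_le_mul₀ (by positivity), div_mul_eq_mul_div, div_mul_eq_mul_div,
          le_div_iff₀ hκ]
        linarith
    have hp2 : p ^ θ ≤ (M * r ^ (2 - δ)) ^ θ := Real.rpow_le_rpow hp hp1 t0.le
    refine ⟨hp2.trans (g1 r hr q1), ?_⟩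
    have h1 : ((2 : ℝ) ^ (J' + 1) / 2 ^ K) ^ (θ / 8) ≤ (65536 / κ * r) ^ (θ / 8) := by
      refine Real.rpow_le_rpow (by positivity) ?_ (by positivity)
      rw [div_le_iff₀ (by positivity), div_mul_eq_mul_div, div_mul_eq_mul_div, le_div_iff₀ hκ]
      have hκn : 0 < κ * n := by linarith
      have hn : (0 : ℝ) < n := by
        by_contra h
        have : (n : ℝ) = 0 := le_antisymm (not_lt.mp h) hn0
        rw [this] at m2'
        linarith
      have h2 : (2 : ℝ) ^ (J' + 1) * κ ≤ 64 * (r * n) * κ := by gcongr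
      have h3 : 64 * r * (κ * n) ≤ 64 * r * (512 * 2 ^ K) := by gcongr
      have h4 : 0 < r * 2 ^ K := by positivity
      nlinarith
    calc p ^ θ * ((2 : ℝ) ^ (J' + 1) / 2 ^ K) ^ (θ / 8)
        ≤ (M * r ^ (2 - δ)) ^ θ * (65536 / κ * r) ^ (θ / 8) :=
          mul_le_mul hp2 h1 (by positivity) (by positivity)
      _ = M ^ θ * (65536 / κ) ^ (θ / 8) * (r ^ ((2 - δ) * θ) * r ^ (θ / 8)) := by
          rw [Real.mul_rpow hM0 (by positivity), Real.mul_rpow (by positivity) hr.le,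
            ← Real.rpow_mul hr.le]
          ring
      _ = M ^ θ * (65536 / κ) ^ (θ / 8) * r ^ (2 + c) := by
          rw [← Real.rpow_add hr]
          congr 2
          have : δ * θ = c := by rw [hδ]; field_simp
          rw [sub_mul, this, hc]
          ring

end Pool.Agent.SixB.HNum
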