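import Pool.Agent.Lib.SixB.S3WZ5
import Pool.Agent.Lib.SixB.S3AsmC

/-!
# 6BD step 3: the premises `PotIn` and `CmpIn` (row R24, with S3AsmC)

* `SFam.box_ok`: the rectangle of the insertion is in the slab and in the box of the environment, and contains the
  vertices at distance `≤ 2 r`;
* `potIn : NormIn → PotIn`;
* `CmpWin`: the comparison of the height of the polygon with the heights of arbitrarily large windows of the
  environment; `cmpIn_of : NormIn → CmpWin → CmpIn`.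
-/

set_option autoImplicit false
set_option linter.unusedSectionVars false

namespace Pool.Agent.SixB.Asm3

open Complex Filter Topology Metric
open Pool.Agent.Perc Pool.Agent.Perc.Q

noncomputable section

theorem zS_eq (S : Slb) (X Y x₀ x₁ y₀ y₁ : ℤ) (a : (ℤ × ℤ) × (ℤ × ℤ)) :
    zS S X Y (RF x₀ x₁ y₀ y₁) a =
      Rel.zS (S.env ∅ X Y) (bx S X Y) x₀ x₁ y₀ y₁ (S.ph ∅ X Y) a := rfl

theorem slbBx (S : Slb) : Rel.SlbBx S 0 0 (bx S 0 0) := by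
  unfold Rel.SlbBx bx
  rw [abs_zero]
  push_cast
  omega

namespace SFam

variable {P : Finset (ℤ × ℤ)} {L : ℕ} {g : ℤ → ℤ × ℤ} {ι : Type} {l : Filter ι} {n : ι → ℕ}
  {j : ι → ℤ → ℝ} {z0 : ℂ} (D : SFam P L g l n j z0)

/-- the rectangle of the insertion -/
structure BoxOK (z : ℂ) (r : ℝ) (i : ι) : Prop where
  rb : Rel.RB ((D.slb z r i).env ∅ 0 0) (bx (D.slb z r i) 0 0)
    (⌊(n i : ℝ) * z.re⌋ - D.rR r i) (⌊(n i : ℝ) * z.re⌋ + D.rR r i)
    (⌊(n i : ℝ) * z.im⌋ - D.rR r i) (⌊(n i : ℝ) * z.im⌋ + D.rR r i)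
  pos : 0 < D.rR r i
  mem : ∀ v, dist (DC.mesh (n i) v) z ≤ 2 * r →
    ⌊(n i : ℝ) * z.re⌋ - D.rR r i ≤ v.1 ∧ v.1 ≤ ⌊(n i : ℝ) * z.re⌋ + D.rR r i ∧
      ⌊(n i : ℝ) * z.im⌋ - D.rR r i ≤ v.2 ∧ v.2 ≤ ⌊(n i : ℝ) * z.im⌋ + D.rR r i

theorem box_ok (hn : Tendsto n l atTop) {z : ℂ} (hz : z ∈ ball z0 (D.κ / 4)) {r : ℝ} (hr : 0 < r) :
    ∀ᶠ i in l, D.BoxOK z r i := by
  have hκ := D.hκ
  have hnR : Tendsto (fun i => (n i : ℝ)) l atTop := tendsto_natCast_atTop_atTop.comp hn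
  filter_upwards [hnR.eventually_ge_atTop (1 / r), hn.eventually_gt_atTop 0] with i h1 h0
  have hn0 : (0 : ℝ) < n i := by exact_mod_cast h0
  have h2 : 1 ≤ r * n i := by
    have := (div_le_iff₀ hr).mp h1
    linarith
  have hc1 := Int.le_ceil (32 * r * n i)
  have hc2 := Int.ceil_lt_add_one (32 * r * n i)
  have hR : D.rR r i = ⌈32 * r * n i⌉ := rfl
  have e1 := Int.floor_le ((n i : ℝ) * z.re)
  have e2 := Int.lt_floor_add_one ((n i : ℝ) * z.re)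
  have e3 := Int.floor_le ((n i : ℝ) * z.im)
  have e4 := Int.lt_floor_add_one ((n i : ℝ) * z.im)
  have hzre : |z.re - z0.re| < D.κ / 4 := by
    have h3 := mem_ball.mp hz
    rw [dist_eq] at h3
    have h4 := abs_re_le_norm (z - z0)
    rw [sub_re] at h4
    linarith
  rw [abs_lt] at hzre
  have hX1 : ((n i : ℝ) * D.X₁) < n i * z.re := by
    apply mul_lt_mul_of_pos_left _ hn0
    have := D.hX₁
    linarith
  have hX2 : ((n i : ℝ) * z.re) < n i * D.X₂ := by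
    apply mul_lt_mul_of_pos_left _ hn0
    have := D.hX₂
    linarith
  have hRa : (D.rR r i : ℤ) ≤ (⌈100 * r * n i⌉₊ : ℤ) := by
    have h3 : ((⌈32 * r * n i⌉ : ℤ) : ℝ) ≤ ((⌈100 * r * n i⌉₊ : ℕ) : ℝ) := by
      have h4 := Nat.le_ceil (100 * r * n i)
      nlinarith
    rw [hR]
    exact_mod_cast h3
  have hR0 : 0 < D.rR r i := by
    rw [hR]
    have : (0 : ℝ) < (⌈32 * r * n i⌉ : ℤ) := by nlinarith
    exact_mod_cast this
  -- columns
  have f1 : (n i : ℤ) * D.X₁ ≤ ⌊(n i : ℝ) * z.re⌋ := by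
    rw [Int.le_floor]
    push_cast
    exact hX1.le
  have f2 : ⌊(n i : ℝ) * z.re⌋ ≤ (n i : ℤ) * D.X₂ := by
    have h3 : ((⌊(n i : ℝ) * z.re⌋ : ℤ) : ℝ) ≤ ((n i : ℤ) * D.X₂ : ℤ) := by
      push_cast
      linarith
    exact_mod_cast h3
  refine ⟨?_, hR0, ?_⟩
  · have b0 : bx (D.slb z r i) 0 0 = |(n i : ℤ) * D.X₁| + |(n i : ℤ) * D.X₂| +
        |⌊(n i : ℝ) * z.im⌋| + 2 * |(0 : ℤ)| + 2 * |(0 : ℤ)| + 10 * (⌊D.κ * n i / 2⌋₊ : ℕ) +
          (⌈100 * r * n i⌉₊ : ℕ) + ((n i : ℤ) * D.X₂ - (n i : ℤ) * D.X₁).toNat + 2 := rfl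
    have a1 := le_abs_self ((n i : ℤ) * D.X₁)
    have a2 := neg_abs_le ((n i : ℤ) * D.X₁)
    have a3 := le_abs_self ((n i : ℤ) * D.X₂)
    have a4 := neg_abs_le ((n i : ℤ) * D.X₂)
    have a5 := le_abs_self ⌊(n i : ℝ) * z.im⌋
    have a6 := neg_abs_le ⌊(n i : ℝ) * z.im⌋
    rw [abs_zero] at b0
    apply Rel.rb_slb
    · rw [b0]
      omega
    · rw [b0]
      omega
    · rw [b0]
      omega
    · rw [b0]
      omega
    · show ⌊(n i : ℝ) * z.im⌋ - (⌈100 * r * n i⌉₊ : ℤ) ≤ _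
      omega
    · show _ ≤ ⌊(n i : ℝ) * z.im⌋ + (⌈100 * r * n i⌉₊ : ℤ)
      omega
  · intro v hv
    rw [dist_eq] at hv
    have h3 := abs_re_le_norm (DC.mesh (n i) v - z)
    have h4 := abs_im_le_norm (DC.mesh (n i) v - z)
    rw [sub_re] at h3
    rw [sub_im] at h4
    have e5 : (DC.mesh (n i) v).re = (v.1 : ℝ) / n i := rfl
    have e6 : (DC.mesh (n i) v).im = (v.2 : ℝ) / n i := rfl
    rw [e5] at h3
    rw [e6] at h4
    have h5 := abs_le.mp (h3.trans hv)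
    have h6 := abs_le.mp (h4.trans hv)
    have k1 : (v.1 : ℝ) = n i * ((v.1 : ℝ) / n i) := by field_simp
    have k2 : (v.2 : ℝ) = n i * ((v.2 : ℝ) / n i) := by field_simp
    have m1 : (v.1 : ℝ) - n i * z.re ≤ 2 * r * n i := by
      have := mul_le_mul_of_nonneg_left h5.2 hn0.le
      nlinarith
    have m2 : -(2 * r * n i) ≤ (v.1 : ℝ) - n i * z.re := by
      have := mul_le_mul_of_nonneg_left h5.1 hn0.le
      nlinarith
    have m3 : (v.2 : ℝ) - n i * z.im ≤ 2 * r * n i := by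
      have := mul_le_mul_of_nonneg_left h6.2 hn0.le
      nlinarith
    have m4 : -(2 * r * n i) ≤ (v.2 : ℝ) - n i * z.im := by
      have := mul_le_mul_of_nonneg_left h6.1 hn0.le
      nlinarith
    rw [hR]
    refine ⟨?_, ?_, ?_, ?_⟩
    · have : ((⌊(n i : ℝ) * z.re⌋ - ⌈32 * r * n i⌉ : ℤ) : ℝ) ≤ v.1 := by
        push_cast
        nlinarith
      exact_mod_cast this
    · have : (v.1 : ℝ) ≤ ((⌊(n i : ℝ) * z.re⌋ + ⌈32 * r * n i⌉ : ℤ) : ℝ) := by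
        push_cast
        nlinarith
      exact_mod_cast this
    · have : ((⌊(n i : ℝ) * z.im⌋ - ⌈32 * r * n i⌉ : ℤ) : ℝ) ≤ v.2 := by
        push_cast
        nlinarith
      exact_mod_cast this
    · have : (v.2 : ℝ) ≤ ((⌊(n i : ℝ) * z.im⌋ + ⌈32 * r * n i⌉ : ℤ) : ℝ) := by
        push_cast
        nlinarith
      exact_mod_cast this

end SFam

/-- a slab with a positive functional -/
theorem isHt_of {S : Slb} (h : S.Ok) {x₀ x₁ y₀ y₁ : ℤ}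
    (hR : Rel.RB (S.env ∅ 0 0) (bx S 0 0) x₀ x₁ y₀ y₁) (h0 : 0 < zE S 0 0) :
    ∃ V : ℤ × ℤ → ℝ, IsHt S (RF x₀ x₁ y₀ y₁) V ∧ ∀ a ∈ dE ZQ (RF x₀ x₁ y₀ y₁),
      Tendsto (fun M => Rel.qW (S.env ∅ 0 0) (S.ph ∅ 0 0) M a) atTop (𝓝 (V a.1 - V a.2)) := by
  have h1 : Rel.zE (S.env ∅ 0 0) (bx S 0 0) (S.ph ∅ 0 0) ≠ 0 := by
    intro h2
    have h3 : zE S 0 0 = 0 := by
      unfold zE
      rw [h2]
      rfl
    linarith
  obtain ⟨V, h2, h3⟩ := Rel.slb_pot h (slbBx S) hR h1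
  exact ⟨V, fun a ha => h2 a ha, h3⟩

/-- the increments of a height of the environment are determined -/
theorem IsHt.inc_eq {S : Slb} {R : Finset (ℤ × ℤ)} {V V' : ℤ × ℤ → ℝ} (h : IsHt S R V) (h' : IsHt S R V')
    {a : (ℤ × ℤ) × (ℤ × ℤ)} (ha : a ∈ dE ZQ R) : V a.1 - V a.2 = V' a.1 - V' a.2 := by
  have h1 := (h a ha).symm.trans (h' a ha)
  have h2 := mul_right_cancel₀ I_ne_zero h1
  exact_mod_cast h2

/-- **`PotIn`: the height of the environment exists.** -/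
theorem potIn (hN : NormIn) : PotIn := by
  intro P L g hP hg ι l n hn j hj z0 hz0 D
  obtain ⟨r1, hr1, g1⟩ := hN P L g hP hg l n hn j hj z0 hz0 D
  have hκ := D.hκ
  refine ⟨min r1 (D.κ / 10 ^ 5), lt_min hr1 (by positivity), fun z hz r hr hr' => ?_⟩
  obtain ⟨C, h1⟩ := g1 z hz r hr (hr'.trans_le (min_le_left _ _))
  filter_upwards [h1, D.slb_ok hn hz hr (hr'.trans_le (min_le_right _ _)), D.box_ok hn hz hr]
    with i h2 h3 h4
  obtain ⟨V, h5, -⟩ := isHt_of h3 h4.rb h2.1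
  exact ⟨V, h5⟩

/-- the window estimate: comparison of the height of the polygon with the heights of arbitrarily large windows of
the environment -/
def CmpWin : Prop := ∀ (P : Finset (ℤ × ℤ)) (L : ℕ) (g : ℤ → ℤ × ℤ), MPoly P → Cont P L g →
  ∀ {ι : Type} (l : Filter ι) (n : ι → ℕ), Tendsto n l atTop → ∀ j : ι → ℤ → ℝ, MFam L g l n j →
  ∀ z0 ∈ Om P, ∀ D : SFam P L g l n j z0, ∃ r0 > 0, ∃ C c : ℝ, 0 < c ∧
    ∀ z ∈ ball z0 (D.κ / 4), ∀ r : ℝ, 0 < r → r < r0 → ∀ᶠ i in l, ∃ᶠ M : ℤ in atTop,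
      ∀ W : ℤ × ℤ → ℝ, (∀ a ∈ dE ZQ (D.rc z r i),
          W a.1 - W a.2 = Rel.qW ((D.slb z r i).env ∅ 0 0) ((D.slb z r i).ph ∅ 0 0) M a) →
        ∀ v w, dist (DC.mesh (n i) v) z ≤ 2 * r → dist (DC.mesh (n i) w) z ≤ 2 * r →
          |((envJ P L g (n i) (j i)).hU v (gr (n i) g 0) - (envJ P L g (n i) (j i)).hU w (gr (n i) g 0)) -
            (W v - W w)| ≤ C * r ^ (2 + c)

/-- **`CmpIn` from the window estimate.** -/
theorem cmpIn_of (hN : NormIn) (hW : CmpWin) : CmpIn := by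
  intro P L g hP hg ι l n hn j hj z0 hz0 D
  obtain ⟨r1, hr1, g1⟩ := hN P L g hP hg l n hn j hj z0 hz0 D
  obtain ⟨r2, hr2, C, c, hc, g2⟩ := hW P L g hP hg l n hn j hj z0 hz0 D
  have hκ := D.hκ
  refine ⟨min (min r1 r2) (D.κ / 10 ^ 5), lt_min (lt_min hr1 hr2) (by positivity), C, c, hc,
    fun z hz r hr hr' => ?_⟩
  have q1 := hr'.trans_le ((min_le_left _ _).trans (min_le_left _ _))
  have q2 := hr'.trans_le ((min_le_left _ _).trans (min_le_right _ _))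
  obtain ⟨C', h1⟩ := g1 z hz r hr q1
  filter_upwards [h1, g2 z hz r hr q2, D.slb_ok hn hz hr (hr'.trans_le (min_le_right _ _)),
    D.box_ok hn hz hr] with i h2 h3 h4 h5
  intro V hV
  obtain ⟨V', h6, h7⟩ := isHt_of h4 h5.rb h2.1
  have hpos := h5.pos
  have h8 : ∀ a ∈ dE ZQ (D.rc z r i), Tendsto (fun M => Rel.qW ((D.slb z r i).env ∅ 0 0)
      ((D.slb z r i).ph ∅ 0 0) M a) atTop (𝓝 (V a.1 - V a.2)) := by
    intro a ha
    rw [hV.inc_eq h6 ha]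
    exact h7 a ha
  obtain ⟨a, h9⟩ := Rel.slb_cmp (S := D.slb z r i) (W := ∅) (X := 0) (Y := 0) h4 h5.rb
    (by omega) (by omega) (V := fun v => (envJ P L g (n i) (j i)).hU v (gr (n i) g 0)) (V' := V) h8
    (K := {v | dist (DC.mesh (n i) v) z ≤ 2 * r}) (fun v hv => h5.mem v hv) (B := C * r ^ (2 + c))
    (h3.mono fun M hM W hWM v hv w hw => hM W hWM v w hv hw)
  exact ⟨a, fun v hv => h9 v hv⟩

end

end Pool.Agent.SixB.Asm3
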