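import Pool.Agent.Lib.SixB.S3SlbH
import Pool.Agent.Lib.SixB.S3DpA
import Pool.Agent.Lib.SixB.S3HPkI
import Pool.Agent.Lib.SixB.S3HCmpS
import Pool.Agent.Lib.SixB.S3HNum
import Pool.Agent.Lib.SixB.S3HJoin
import Pool.Agent.Lib.SixB.S3WZ6
import Pool.Agent.Lib.SixB.S3HGeo

/-!
# 6BD step 3.8 (R18), the end: the window estimate from the packages

`S : Slb`, `E = S.env ∅ 0 0`, window `M`.
* `inW`, `disc_DmE`, `tub_DmE`, `box_DmE`: the discs are in the window of the slab; discs, tube rectangles and mouth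
  boxes are in `S.DmE`. `winR`: large windows.
* `slb_disc`: one slab, one window, one disc: the increments of the heights of the window of `E` and of the polygon.
* `cmpWin_of : PkEIn 5 → PkDIn 5 → CmpWin`.
-/

set_option autoImplicit false
set_option linter.unusedSectionVars false

namespace Pool.Agent.SixB.HEnd

open Pool.Agent.Perc Pool.Agent.Perc.Q Pool.Agent.PercD Pool.Agent.PercN
open Pool.Agent.SixB Pool.Agent.SixB.Tilt Pool.Agent.SixB.PC Pool.Agent.SixB.HDet Pool.Agent.SixB.HCmp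
open Pool.Agent.SixB.Rel (QChart QMap WZ1 qW bs)
open Pool.Agent.SixB.SlbD (InW)

noncomputable section

variable {S : Slb} {v w : ℤ × ℤ} {J K N : ℕ} {M : ℤ}

/-! ## Discs -/

theorem inW (h : S.DscC v K) : InW S (BR v (2 ^ K)) := by
  intro f hf
  obtain ⟨h1, h2, h3, h4⟩ := h
  rw [mem_BR] at hf
  have h5 : (0 : ℤ) < 2 ^ K := by positivity
  have h6 := abs_le.mp (show |v.2 - S.yc| ≤ |v.2 - S.yc| from le_rfl)
  set A := |v.2 - S.yc|
  refine ⟨by omega, by omega, by omega, by omega⟩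

theorem disc_DmE (hS : S.Ok) (h : S.DscC v K) :
    (((BR v (2 ^ K)).image S.phD : Finset _) : Set _) ⊆ S.DmE := by
  intro g hg
  have hg' : g ∈ (BR v (2 ^ K)).image S.phD := by exact_mod_cast hg
  obtain ⟨f, hf, rfl⟩ := Finset.mem_image.mp hg'
  have h0 := inW h
  rw [h0.face hS hf]
  refine ⟨rfl, Or.inl ?_⟩
  have h7 := h0 f hf
  obtain ⟨h1, h2, h3, h4⟩ := h
  rw [mem_BR] at hf
  have h5 : (0 : ℤ) < 2 ^ K := by positivity
  have h6 := abs_le.mp (show |v.2 - S.yc| ≤ |v.2 - S.yc| from le_rfl)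
  set A := |v.2 - S.yc|
  show S.x1 ≤ f.1 ∧ f.1 < S.x2 ∧ S.yc - (S.k / 2 : ℕ) ≤ f.2 ∧ f.2 < S.yc + (S.k / 2 : ℕ)
  refine ⟨h7.1, h7.2.1, by omega, by omega⟩

theorem DmE_DmD (hS : S.Ok) {f : ℤ × ℤ} (hf : f ∈ S.D) (h : S.phD f ∈ S.DmE) : f ∈ S.DmD := by
  obtain ⟨h1, h2⟩ := h
  have h1' : (S.phD f).1 = MthD.sh S f := h1
  rcases h2 with h2 | ⟨h3, h4, h5, h6⟩
  · exact h2
  · have h3' : S.x1 - 3 * S.q ≤ f.1 := h3
    have h4' : f.1 < S.x2 + 3 * S.q := h4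
    have h5' : S.yc - S.a ≤ f.2 := h5
    have h6' : f.2 < S.yc + S.a := h6
    have hE := hS.eData (W := SixB.slab S.x1 S.x2 (S.yc - S.a) (S.yc + S.a)) (Finset.Subset.refl _)
    have hsh : (S.phD f).1 =
      Emb.shF (S.env (SixB.slab S.x1 S.x2 (S.yc - S.a) (S.yc + S.a)) 0 0) f := rfl
    have h7 : MthD.sh S f = none := by
      unfold MthD.sh
      rw [if_neg (by omega), if_neg (by omega)]
    rw [h7, hsh] at h1'
    have hak := hS.hak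
    rcases Emb.mem_cases hE hf with ⟨a1, -⟩ | ⟨a1, a2, -⟩ | ⟨a1, a2, a3⟩
    · unfold Emb.shF at h1'
      rw [if_pos a1] at h1'
      exact absurd h1' (by simp)
    · unfold Emb.shF at h1'
      rw [if_neg a2, if_pos a1] at h1'
      exact absurd h1' (by simp)
    · rw [mem_RF] at a1
      exact ⟨a1.1, a1.2.1, by omega, by omega⟩

theorem tub_DmE (hS : S.Ok) {j : ℕ} (hj : j < 2) : ((SlbD.tubF S j : Finset _) : Set _) ⊆ S.DmE := by
  intro g hg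
  have hg' : g ∈ SlbD.tubF S j := by exact_mod_cast hg
  obtain ⟨h1, ⟨h2, h3⟩, h4⟩ := SlbD.mem_tubF.mp hg'
  have hx := hS.hx
  refine ⟨?_, Or.inr ⟨?_, ?_, h2, h3⟩⟩
  · rw [h1]
    unfold MthD.sh
    rw [if_neg (by omega), if_neg (by omega)]
  · have hq : (0 : ℤ) ≤ S.q := Int.natCast_nonneg _
    rcases h4 with ⟨h4, -⟩ | ⟨h4, -⟩ <;> interval_cases j <;> push_cast at h4 ⊢ <;> nlinarith
  · have hq : (0 : ℤ) ≤ S.q := Int.natCast_nonneg _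
    rcases h4 with ⟨-, h4⟩ | ⟨-, h4⟩ <;> interval_cases j <;> push_cast at h4 ⊢ <;> nlinarith

theorem box_DmE (hS : S.Ok) (N : ℕ) (i : Bool) : ((SlbD.bxT S i N : Finset _) : Set _) ⊆ S.DmE := by
  intro g hg
  have hg' : g ∈ SlbD.bxT S i N := by exact_mod_cast hg
  obtain ⟨h1, h2, -⟩ := SlbD.mem_bxT hg'
  have hx := hS.hx
  refine ⟨h1, Or.inl ?_⟩
  rw [MT.mem_HBx] at h2
  show S.x1 ≤ g.2.1 ∧ g.2.1 < S.x2 ∧ S.yc - (S.k / 2 : ℕ) ≤ g.2.2 ∧ g.2.2 < S.yc + (S.k / 2 : ℕ)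
  cases i <;> simp only [SlbD.tv, cond_false, cond_true, Bool.false_eq_true, false_and, true_and,
    false_or, or_false, Bool.true_eq_false] at h2 <;> omega

/-! ## Windows -/

theorem win_env (M : ℤ) : Rel.win (S.env ∅ 0 0) M = S.env (RFb (0, 0) M) 0 0 := rfl

theorem winR (hM : Asm3.bx S 0 0 ≤ M) : Tub.WinR S (RFb (0, 0) M) where
  sub := by
    have h0 : Asm3.bx S 0 0 = |S.x1| + |S.x2| + |S.yc| + 2 * |(0 : ℤ)| + 2 * |(0 : ℤ)| + 10 * S.k + S.a +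
      (S.x2 - S.x1).toNat + 2 := rfl
    have a1 := le_abs_self S.x1
    have a2 := neg_abs_le S.x1
    have a3 := le_abs_self S.x2
    have a4 := neg_abs_le S.x2
    have a5 := le_abs_self S.yc
    have a6 := neg_abs_le S.yc
    rw [abs_zero] at h0
    intro f hf
    rw [mem_RF] at hf
    have hf' : S.x1 + 0 - 7 * (S.k : ℤ) - 1 ≤ f.1 ∧ f.1 < S.x2 + 0 + 7 * (S.k : ℤ) + 1 ∧
      S.yc - ((3 * S.k + (S.x2 - S.x1).toNat : ℕ) : ℤ) - 1 ≤ f.2 ∧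
      f.2 < S.yc + ((3 * S.k + (S.x2 - S.x1).toNat : ℕ) : ℤ) + 1 := hf
    push_cast at hf'
    unfold RFb
    rw [mem_RF]
    simp only
    refine ⟨by omega, by omega, by omega, by omega⟩
  rect := ⟨_, _, _, _, rfl⟩

/-! ## One slab -/

theorem kc_nonneg {C0 c : ℝ} (h0 : 0 ≤ C0) (hc : 0 < c) : 0 ≤ kc C0 c := by
  unfold kc
  positivity

/-- **One slab, one window, one disc.** -/
theorem slb_disc {C : ℝ} (hC : HCmp.Cmp 5 C) (hC0 : 0 ≤ C) (h : S.Ok) (hM : Asm3.bx S 0 0 ≤ M) (hd : S.DscC v K)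
    (hJK : J + 2 ≤ K) (hN : S.a * 2 ^ N < S.k / 2) (h1 : |w.1 - v.1| ≤ 2 ^ J) (h2 : |w.2 - v.2| ≤ 2 ^ J)
    (tE : ∀ j < 2, ((SlbD.tubF S j : Finset _) : Set _) ⊆ S.DmE)
    (bE : ∀ i : Bool, ((SlbD.bxT S i N : Finset _) : Set _) ⊆ S.DmE)
    {C0E cE PrE : ℝ} {BdE : (Option Bool × (ℤ × ℤ) → Bool) → ℝ}
    (PE : HCmp.Pk S.nuD S.phD (BR v (2 ^ K)) (Rel.win (S.env ∅ 0 0) M).F
      (WZ (S.env ∅ 0 0).Q (Rel.win (S.env ∅ 0 0) M).F S.phE (Rel.win (S.env ∅ 0 0) M).Z)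
      (WZ1 (S.env ∅ 0 0).Q (Rel.win (S.env ∅ 0 0) M).F S.phE (Rel.win (S.env ∅ 0 0) M).Z)
      5 S.DmE C0E cE PrE BdE)
    {C0 c Pr : ℝ} {Bd : (ℤ × ℤ → Bool) → ℝ}
    (P0 : HCmp.Pk id id (BR v (2 ^ K)) S.D (WZ ZQ S.D S.ψ (bS ZQ S.D)) (WZ1 ZQ S.D S.ψ (bS ZQ S.D))
      5 S.DmD C0 c Pr Bd)
    {p : ℝ} (hpE : av (S.env (RFb (0, 0) M) 0 0).F (orr (orr (S.bd 0) (S.bd 1)) (SlbD.bdT S N)) ≤ p)
    (hp0 : av (S.G 0) (SlbD.bdT S N) ≤ p)
    (hsE : 2 * C0E * p ^ HCmp.th 5 ≤ cE / 2) (hs0 : 2 * C0 * p ^ HCmp.th 5 ≤ c / 2)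
    {x₀ x₁ y₀ y₁ : ℤ} (hR : RF x₀ x₁ y₀ y₁ ⊆ BR v (2 ^ K)) (hx₀ : S.x1 ≤ x₀) (hx₁ : x₁ ≤ S.x2)
    (hy₀ : S.yc - S.a ≤ y₀) (hy₁ : y₁ ≤ S.yc + S.a) (hcon : ConnE ZQ (RF x₀ x₁ y₀ y₁) v w)
    {W u : ℤ × ℤ → ℝ} (hW : ∀ a ∈ dE ZQ (RF x₀ x₁ y₀ y₁), W a.1 - W a.2 = qW (S.env ∅ 0 0) S.phE M a)
    (hu : ∀ a ∈ dE ZQ (RF x₀ x₁ y₀ y₁), u a.1 - u a.2 =
      av S.D (WZ1 ZQ S.D S.ψ (bS ZQ S.D) a) / av S.D (WZ ZQ S.D S.ψ (bS ZQ S.D))) :
    |(u v - u w) - (W v - W w)| ≤ (kc C0E cE + kc C0 c) * C * (p ^ HCmp.th 5 * sc 5 J K) := by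
  have hL := inW hd
  have hLD := hL.subD h
  have H : QChart ZQ (S.env (RFb (0, 0) M) 0 0).Q (BR v (2 ^ K)) S.nuD S.phD 0 :=
    (h.chartD (RFb (0, 0) M)).mono hLD
  have hν : ∀ e ∈ dE ZQ (BR v (2 ^ K)), mv S.nuD e = MthD.sd2 S e := fun e he => hL.side h he
  have hφ : ∀ f ∈ BR v (2 ^ K), S.phD f = (MthD.sh S f, f) := fun f hf => hL.face h hf
  have hB : ∀ f ∈ BR v (2 ^ K), S.x1 + S.k ≤ f.1 ∧ f.1 < S.x2 - S.k ∧ S.yc - S.k ≤ f.2 ∧
      f.2 < S.yc + S.k := by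
    intro f hf
    have h3 := hL f hf
    obtain ⟨-, -, h6, h7⟩ := hd
    rw [mem_BR] at hf
    omega
  have hcE := PE.c_pos
  have hc := P0.c_pos
  have hC0E := PE.C0_nonneg
  have hC00 := P0.C0_nonneg
  have hd1 := disc_DmE h hd
  have P1 := SlbD.pk_slab (W := RFb (0, 0) M) h hL H hν hφ (Dm' := S.DmE)
    (fun f hf hf' => DmE_DmD h hf hf') P0
  -- probabilities
  have ge0 : ∀ (F : Finset (Option Bool × (ℤ × ℤ))) (g : (Option Bool × (ℤ × ℤ) → Bool) → ℝ),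
      (∀ ω, g ω = 0 ∨ g ω = 1) → 0 ≤ av F g := fun F g hg => E_nonneg01 F hg
  have g1 : ∀ ω, orr (orr (S.bd 0) (S.bd 1)) (SlbD.bdT S N) ω = 0 ∨
      orr (orr (S.bd 0) (S.bd 1)) (SlbD.bdT S N) ω = 1 :=
    orr_01 (orr_01 (Slb.bd_01 0) (Slb.bd_01 1)) (SlbD.bdT_01 N)
  have g2 := SlbD.bdT_01 (S := S) N
  have hth : 0 ≤ HCmp.th 5 := by
    unfold HCmp.th
    norm_num
  have pE : av (S.env (RFb (0, 0) M) 0 0).F (orr (orr (S.bd 0) (S.bd 1)) (SlbD.bdT S N)) ^ HCmp.th 5 ≤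
      p ^ HCmp.th 5 := Real.rpow_le_rpow (ge0 _ _ g1) hpE hth
  have p0 : av (S.G 0) (SlbD.bdT S N) ^ HCmp.th 5 ≤ p ^ HCmp.th 5 := Real.rpow_le_rpow (ge0 _ _ g2) hp0 hth
  have hch := SlbD.chain_E (Dm0 := S.DmE) hC h (winR hM) hN H hν hφ hB hd1 hd1 tE bE bE h1 h2 hJK PE P1
    ((mul_le_mul_of_nonneg_left pE (by positivity)).trans hsE)
    ((mul_le_mul_of_nonneg_left p0 (by positivity)).trans hs0)
  -- the height of the window
  have hmv : ∀ a ∈ dE ZQ (RF x₀ x₁ y₀ y₁), mv S.nuD a = bs a := fun a ha =>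
    Slb.mv_nuD hx₀ hx₁ hy₀ hy₁ ha
  have hWd := PE.dsk.mean (HC.hasPotQ_BR v (2 ^ K)) (Rel.win (S.env ∅ 0 0) M).F hR (u := W)
    (N := av (Rel.win (S.env ∅ 0 0) M).F
      (WZ (S.env ∅ 0 0).Q (Rel.win (S.env ∅ 0 0) M).F S.phE (Rel.win (S.env ∅ 0 0) M).Z))
    (fun a ha => by
      rw [hW a ha, hmv a ha]
      rfl) hcon
  -- the height of the polygon
  have hud := P1.dsk.mean (HC.hasPotQ_BR v (2 ^ K)) (S.G 0) hR (u := u)
    (N := av (S.G 0) (WZ (S.env (RFb (0, 0) M) 0 0).Q (S.G 0) (S.phG 0)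
      (bS (S.env (RFb (0, 0) M) 0 0).Q (S.G 0))))
    (fun a ha => by
      rw [hu a ha, h.av_WZ_D (RFb (0, 0) M)]
      congr 1
      exact (h.av_WZ1_D (RFb (0, 0) M) (SixB.dE_mono (hR.trans hLD) ha)).symm) hcon
  have e1 : W v - W w = dH S.nuD S.phD (BR v (2 ^ K)) (S.env (RFb (0, 0) M) 0 0).F
      (WZ (S.env (RFb (0, 0) M) 0 0).Q (S.env (RFb (0, 0) M) 0 0).F S.phE
        (S.env (RFb (0, 0) M) 0 0).Z)
      (WZ1 (S.env (RFb (0, 0) M) 0 0).Q (S.env (RFb (0, 0) M) 0 0).F S.phE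
        (S.env (RFb (0, 0) M) 0 0).Z) v w := hWd
  have e2 : u v - u w = dH S.nuD S.phD (BR v (2 ^ K)) (S.G 0)
      (WZ (S.env (RFb (0, 0) M) 0 0).Q (S.G 0) (S.phG 0) (bS (S.env (RFb (0, 0) M) 0 0).Q (S.G 0)))
      (WZ1 (S.env (RFb (0, 0) M) 0 0).Q (S.G 0) (S.phG 0)
        (bS (S.env (RFb (0, 0) M) 0 0).Q (S.G 0))) v w := hud
  rw [← e1, ← e2] at hch
  rw [abs_sub_comm]
  refine hch.trans ?_
  have hsc : 0 ≤ sc 5 J K := by
    unfold sc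
    positivity
  have k1 := kc_nonneg hC0E hcE
  have k2 := kc_nonneg hC00 hc
  calc _ ≤ kc C0E cE * p ^ HCmp.th 5 * (C * sc 5 J K) + kc C0 c * p ^ HCmp.th 5 * (C * sc 5 J K) := by
        refine add_le_add ?_ ?_
        · exact mul_le_mul_of_nonneg_right (mul_le_mul_of_nonneg_left pE k1) (by positivity)
        · exact mul_le_mul_of_nonneg_right (mul_le_mul_of_nonneg_left p0 k2) (by positivity)
    _ = _ := by ring

/-! ## The window estimate -/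

open Filter Topology Metric Asm3

/-- **The window estimate from the packages.** -/
theorem cmpWin_of (hE : PkEIn 5) (hD : PkDIn 5) : CmpWin := by
  intro P L g hP hg ι l n hn j hj z0 hz0 D
  obtain ⟨r1, hr1, C0E, cE, g1⟩ := hE P L g hP hg l n hn j hj z0 hz0 D
  obtain ⟨r2, hr2, C0, c, g2⟩ := hD P L g hP hg l n hn j hj z0 hz0 D
  obtain ⟨C, hC, hCmp⟩ := cmp_s 5 (by norm_num)
  obtain ⟨q, A, q0, q1, hA, hbad⟩ := SlbD.av_bad
  have hκ := D.hκ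
  -- the small number
  obtain ⟨ε, hε, hε1⟩ : ∃ ε : ℝ, 0 < ε ∧ (0 < cE → 0 < c → 2 * |C0E| * ε ≤ cE / 2 ∧ 2 * |C0| * ε ≤ c / 2) := by
    by_cases h : 0 < cE ∧ 0 < c
    · have hp1 : 0 < |C0E| + 1 := by positivity
      have hp2 : 0 < |C0| + 1 := by positivity
      have hc1 := h.1
      have hc2 := h.2
      refine ⟨min (cE / (4 * (|C0E| + 1))) (c / (4 * (|C0| + 1))), by positivity, fun _ _ => ⟨?_, ?_⟩⟩
      · calc 2 * |C0E| * min (cE / (4 * (|C0E| + 1))) (c / (4 * (|C0| + 1)))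
            ≤ 2 * (|C0E| + 1) * (cE / (4 * (|C0E| + 1))) := by
              refine mul_le_mul (by linarith) (min_le_left _ _) (by positivity) (by positivity)
          _ = cE / 2 := by
              field_simp
              ring
      · calc 2 * |C0| * min (cE / (4 * (|C0E| + 1))) (c / (4 * (|C0| + 1)))
            ≤ 2 * (|C0| + 1) * (c / (4 * (|C0| + 1))) := by
              refine mul_le_mul (by linarith) (min_le_right _ _) (by positivity) (by positivity)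
          _ = c / 2 := by
              field_simp
              ring
    · exact ⟨1, one_pos, fun h1 h2 => absurd ⟨h1, h2⟩ h⟩
  obtain ⟨r3, hr3, C', hC', c', hc', g3⟩ := HNum.num_end hκ (s := 5) le_rfl q0 q1 (A₁ := 12) (A₂ := A)
    (ε := ε) (by norm_num) hA.le hε
  refine ⟨min (min r1 r2) (min r3 (D.κ / 10 ^ 5)), lt_min (lt_min hr1 hr2) (lt_min hr3 (by positivity)),
    |kc C0E cE + kc C0 c| * C * C', c', hc', fun z hz r hr hr' => ?_⟩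
  have k1 := hr'.trans_le ((min_le_left _ _).trans (min_le_left _ _))
  have k2 := hr'.trans_le ((min_le_left _ _).trans (min_le_right _ _))
  have k3 := hr'.trans_le ((min_le_right _ _).trans (min_le_left _ _))
  have k4 := hr'.trans_le ((min_le_right _ _).trans (min_le_right _ _))
  obtain ⟨N, hN1, g4⟩ := g3 r hr k3
  filter_upwards [g1 z hz r hr k1, g2 z hz r hr k2, hn.eventually g4, D.slb_ok hn hz hr k4,
    D.geo_ok hn hz hr k4, D.ph, hn.eventually_gt_atTop 0] with i h1 h2 h3 hS h5 hph h0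
  obtain ⟨PrD, BdD, hPD⟩ := h2
  obtain ⟨J, K, j1, j2, -, j4, j5, j6⟩ := h3
  refine (h1.and_eventually (eventually_ge_atTop (Asm3.bx (D.slb z r i) 0 0))).mono fun M hM => ?_
  obtain ⟨⟨PrE, BdE, hPE⟩, hMb⟩ := hM
  intro W hW v w hv hw
  have G := h5 v w hv hw J K j2 j4 j1
  have PE := hPE v K G.dsc
  have PD := hPD v K G.dsc
  have hcE := PE.c_pos
  have hc := PD.c_pos
  have hC0E := PE.C0_nonneg
  have hC0 := PD.C0_nonneg
  obtain ⟨e1, e2⟩ := hε1 hcE hc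
  rw [abs_of_nonneg hC0E] at e1
  rw [abs_of_nonneg hC0] at e2
  -- the rectangle
  have hn0 : (0 : ℝ) < n i := by exact_mod_cast h0
  have hk : (D.slb z r i).k = ⌊D.κ * n i / 2⌋₊ := rfl
  have ha : (D.slb z r i).a = ⌈100 * r * n i⌉₊ := rfl
  have hapos := hS.ha
  have hR0 : 0 < D.rR r i := by
    have h6 : (0 : ℝ) < (⌈32 * r * n i⌉ : ℤ) := lt_of_lt_of_le (by positivity) (Int.le_ceil _)
    have h7 : (0 : ℤ) < ⌈32 * r * n i⌉ := by exact_mod_cast h6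
    exact h7
  have hRa : D.rR r i ≤ ((D.slb z r i).a : ℤ) := by
    have h6 : ⌈32 * r * n i⌉ ≤ ((⌈100 * r * n i⌉₊ : ℕ) : ℤ) := by
      rw [Int.ceil_le]
      have h7 := Nat.le_ceil (100 * r * n i)
      have h8 : 32 * r * n i ≤ 100 * r * n i := by
        have : 0 ≤ r * n i := by positivity
        nlinarith
      exact_mod_cast h8.trans h7
    exact h6
  have hcor : ∀ f ∈ D.rc z r i, (D.slb z r i).x1 + (D.slb z r i).k ≤ f.1 ∧
      f.1 < (D.slb z r i).x2 - (D.slb z r i).k := fun f hf => ⟨G.x1 f (G.sub hf), G.x2 f (G.sub hf)⟩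
  have c1 := hcor (⌊(n i : ℝ) * z.re⌋ - D.rR r i, ⌊(n i : ℝ) * z.im⌋ - D.rR r i) (by
    unfold SFam.rc
    rw [mem_RF]
    simp only
    omega)
  have c2 := hcor (⌊(n i : ℝ) * z.re⌋ + D.rR r i - 1, ⌊(n i : ℝ) * z.im⌋ - D.rR r i) (by
    unfold SFam.rc
    rw [mem_RF]
    simp only
    omega)
  simp only at c1 c2
  have hyc : (D.slb z r i).yc = ⌊(n i : ℝ) * z.im⌋ := rfl
  -- the numbers
  have hN2 : (D.slb z r i).a * 2 ^ N < (D.slb z r i).k / 2 := by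
    have h6 : 64 * (D.slb z r i).a * 2 ^ N ≤ (D.slb z r i).k := j5
    have h7 : 0 < (D.slb z r i).a * 2 ^ N := by positivity
    have h8 : 64 * ((D.slb z r i).a * 2 ^ N) ≤ (D.slb z r i).k := by
      rw [← mul_assoc]
      exact h6
    omega
  obtain ⟨b1, b2⟩ := hbad (S := D.slb z r i) (W := RFb (0, 0) M) hS (winR hMb).sub hN1 hN2.le
  set p : ℝ := 12 * q ^ ((D.slb z r i).k / (8 * (D.slb z r i).a)) + A * (N / 4 ^ N) with hp
  have hpos1 : 0 ≤ 12 * q ^ ((D.slb z r i).k / (8 * (D.slb z r i).a)) := by positivity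
  have b1' : av ((D.slb z r i).env (RFb (0, 0) M) 0 0).F
      (orr (orr ((D.slb z r i).bd 0) ((D.slb z r i).bd 1)) (SlbD.bdT (D.slb z r i) N)) ≤ p := by
    refine b1.trans (le_of_eq ?_)
    rw [hp]
    ring
  have b2' : av ((D.slb z r i).G 0) (SlbD.bdT (D.slb z r i) N) ≤ p := by
    refine b2.trans ?_
    rw [hp, mul_div_assoc]
    linarith
  obtain ⟨s1, s2⟩ := j6 p (by positivity) le_rfl
  have t5 : HCmp.th 5 = 1 - (1 / 2 : ℝ) ^ 5 := rfl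
  have hfin := slb_disc (S := D.slb z r i) (M := M) (v := v) (w := w) (J := J) (K := K) (N := N) hCmp hC.le
    hS hMb G.dsc j1 hN2 G.d1 G.d2 (fun j hj => tub_DmE hS hj) (fun i => box_DmE hS N i) PE PD b1' b2'
    (by
      rw [t5]
      exact (mul_le_mul_of_nonneg_left s1 (by positivity)).trans e1)
    (by
      rw [t5]
      exact (mul_le_mul_of_nonneg_left s1 (by positivity)).trans e2)
    (x₀ := ⌊(n i : ℝ) * z.re⌋ - D.rR r i) (x₁ := ⌊(n i : ℝ) * z.re⌋ + D.rR r i)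
    (y₀ := ⌊(n i : ℝ) * z.im⌋ - D.rR r i) (y₁ := ⌊(n i : ℝ) * z.im⌋ + D.rR r i) G.sub
    (by omega) (by omega) (by omega) (by omega) G.con (W := W)
    (u := fun x => (envJ P L g (n i) (j i)).hU x (gr (n i) g 0)) hW
    (fun a ha => HJ.envJ_edge_WZ hP h0 hph (SixB.dE_mono (G.sub.trans fun f hf => G.dom f hf) ha) _)
  refine hfin.trans ?_
  have hsc : sc 5 J K = ((2 : ℝ) ^ J / 2 ^ K) ^ ((1 - (1 / 2 : ℝ) ^ 5) / 8) := rfl
  rw [t5, hsc]
  calc _ ≤ |kc C0E cE + kc C0 c| * C * (p ^ (1 - (1 / 2 : ℝ) ^ 5) *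
        ((2 : ℝ) ^ J / 2 ^ K) ^ ((1 - (1 / 2 : ℝ) ^ 5) / 8)) := by
        refine mul_le_mul_of_nonneg_right (mul_le_mul_of_nonneg_right (le_abs_self _) hC.le) ?_
        have : 0 ≤ p := by positivity
        positivity
    _ ≤ |kc C0E cE + kc C0 c| * C * (C' * r ^ (2 + c')) :=
        mul_le_mul_of_nonneg_left s2 (by positivity)
    _ = _ := by ring

end

end Pool.Agent.SixB.HEnd
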