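import Pool.Agent.Lib.SixB.S3OwnZ
import Pool.Agent.Lib.SixB.S3Wdg
import Pool.Agent.Lib.SixB.S3AtlDefs
import Pool.Agent.Lib.SixB.S3Chart

/-!
# 6BD, step 3: the local factors of the marked side (kinds `e`, `em`)

* `sF_e`: `sF .e 2 r` is the probability that the strand of the marked side leaves the half box;
  `sF_e_le`, `sF_e_ge`: it is of order `1 / r`.
* `sF_em`: `sF .em 2 r` is the probability that no strand of the half box joins the two sides of the
  wall around the marked side; `sF_em_le`, `sF_em_ge`: it is of order `r ^ (-1 / 3)`.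
* `sF_e_scale`, `sF_em_scale`: comparison of `r / 2` and `r`.
-/

set_option autoImplicit false

namespace Pool.Agent.SixB.OwnE

open Finset Pool.Agent.Perc Pool.Agent.PercD Pool.Agent.PercN Pool.Agent.Perc6 Pool.Agent.SixB.A1
open Pool.Agent.SixB Pool.Agent.Perc.Q Pool.Agent.SixB.Tilt

variable {ω : Cfg} {v : ℤ × ℤ} {r : ℕ}

/-- The flat wedge is the half box. -/
theorem wdg_eq (v : ℤ × ℤ) (r : ℕ) : Wdg 2 0 v r = HB v r := by
  ext f
  rw [mem_w20, ← mem_coe (s := HB v r), mem_HB]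
  omega

theorem su0 (x y : ℤ) : su (x, y) 0 = (x, y, false) := by
  simp [su, bo]

theorem eS_eq (v : ℤ × ℤ) : eS 0 v = sd ZQ v 0 := by
  obtain ⟨x, y⟩ := v
  rw [sdz0]
  unfold eS
  rw [dz0]
  simp

theorem side_bS {x : ℤ} (h1 : v.1 - r ≤ x) (h2 : x < v.1 + r) :
    sd ZQ (x, v.2) 0 ∈ bS ZQ (HB v r) := by
  have hf : (x, v.2) ∈ HB v r := by
    rw [← mem_coe (s := HB v r), mem_HB]
    simp only
    omega
  refine PC.bS_of_bdF hf 0 (Set.Subset.refl _) ?_
  rw [su0]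
  intro d h3 h4
  rw [mem_HB] at h3 h4
  cases d <;> simp only [Tips.ahead, Bool.not_true, Bool.not_false] at h3 h4 <;> omega

theorem not_bdR {x : ℤ} (h1 : v.1 - r ≤ x) (h2 : x < v.1 + r) : ¬ BdR v r (x, v.2, false) := by
  unfold BdR BdE
  rintro (⟨h3, h4, h5, h6 | h6⟩ | ⟨h3, h4, h5, h6 | h6⟩) <;> simp at h3 h4 h5 h6 <;> omega

theorem walls_iff {a : (ℤ × ℤ) × (ℤ × ℤ)} (ha : a ∈ bS ZQ (HB v r)) :
    a ∈ wIn (0 + 2) v r ∪ wOut 0 v r ↔ ¬ BdR v r (und a) := by
  rw [mem_union, zero_add, mem_wIn2, mem_wOut0]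
  constructor
  · rintro (⟨x, h1, h2, rfl⟩ | ⟨x, h1, h2, rfl⟩)
    · rw [und_sd, su0]
      exact not_bdR h1 (by omega)
    · rw [und_sd, su0]
      exact not_bdR (by omega) h2
  · intro h
    have hb := PC.bdF_of_bS ha
    obtain ⟨⟨x, y⟩, hf, k, rfl⟩ := bS_sd ha
    have hf' := mem_HB.1 (mem_coe.2 hf)
    simp only at hf'
    rw [und_sd] at h hb
    unfold BdR BdE at h
    have hb' := hb true
    rcases k4 k with rfl | rfl | rfl | rfl
    · have hy : y = v.2 := by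
        by_contra hne
        refine hb' ?_ ?_
        · exact mem_HB.2 hf'
        · refine mem_HB.2 ?_
          simp only [Bool.not_true]
          change v.1 - r ≤ x ∧ x < v.1 + r ∧ v.2 ≤ y - 1 ∧ y - 1 < v.2 + r
          omega
      subst hy
      rcases lt_or_ge x v.1 with h1 | h1
      · exact Or.inl ⟨x, hf'.1, h1, rfl⟩
      · exact Or.inr ⟨x, h1, hf'.2.1, rfl⟩
    all_goals exfalso
    · refine hb' (mem_HB.2 ?_) (mem_HB.2 ?_)
      · change v.1 - r ≤ x + 1 ∧ x + 1 < v.1 + r ∧ v.2 ≤ y ∧ y < v.2 + r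
        by_contra hne
        refine h (Or.inr ⟨rfl, ?_, ?_, Or.inr ?_⟩)
        · change v.2 - r ≤ y
          omega
        · change y < v.2 + r
          omega
        · change x + 1 = v.1 + r
          omega
      · change v.1 - r ≤ x + 1 - 1 ∧ x + 1 - 1 < v.1 + r ∧ v.2 ≤ y ∧ y < v.2 + r
        omega
    · refine hb' (mem_HB.2 ?_) (mem_HB.2 ?_)
      · change v.1 - r ≤ x ∧ x < v.1 + r ∧ v.2 ≤ y + 1 ∧ y + 1 < v.2 + r
        by_contra hne
        refine h (Or.inl ⟨rfl, ?_, ?_, Or.inr ?_⟩)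
        · change v.1 - r ≤ x
          omega
        · change x < v.1 + r
          omega
        · change y + 1 = v.2 + r
          omega
      · change v.1 - r ≤ x ∧ x < v.1 + r ∧ v.2 ≤ y + 1 - 1 ∧ y + 1 - 1 < v.2 + r
        omega
    · refine hb' (mem_HB.2 ?_) (mem_HB.2 ?_)
      · change v.1 - r ≤ x ∧ x < v.1 + r ∧ v.2 ≤ y ∧ y < v.2 + r
        omega
      · change v.1 - r ≤ x - 1 ∧ x - 1 < v.1 + r ∧ v.2 ≤ y ∧ y < v.2 + r
        by_contra hne
        refine h (Or.inr ⟨rfl, ?_, ?_, Or.inl ?_⟩)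
        · change v.2 - r ≤ y
          omega
        · change y < v.2 + r
          omega
        · change x = v.1 - r
          omega

/-- A unit edge of the half box on the boundary of the box is a boundary side. -/
theorem exists_bdR {a : UE} (ha : BdR v r a) {f : ℤ × ℤ} (hf : f ∈ (HB v r : Set (ℤ × ℤ)))
    (hs : IsSide f a) : ∃ x ∈ bS ZQ (HB v r), und x = a := by
  refine PC.exists_bS (mem_coe.1 hf) hs (Set.Subset.refl _) ?_
  obtain ⟨x, y, b⟩ := a
  have hf' := mem_HB.1 hf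
  intro d h1 h2
  rw [mem_HB] at h1 h2
  unfold BdR BdE at ha
  rcases ha with ⟨h3, h4, h5, h6⟩ | ⟨h3, h4, h5, h6⟩ <;> simp only at h3 h4 h5 h6 <;> subst h3 <;>
    cases d <;> simp only [Tips.ahead, Bool.not_true, Bool.not_false] at h1 h2 <;> omega

open Classical in
/-- The strand of the marked side. -/
theorem sN_e (hr : 0 < r) (ω : Cfg) : sN .e 2 0 v r ω = if ω ∈ WE v r then 0 else 1 := by
  have he : eS 0 v ∈ bS ZQ (HB v r) := by
    rw [eS_eq]
    exact side_bS (by omega) (by omega)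
  have hu : und (eS 0 v) = (v.1, v.2, false) := by
    rw [eS_eq, und_sd]
    exact su0 _ _
  have key : mate ZQ (Wdg 2 0 v r) ω (eS 0 v) ∈ wIn (0 + 2) v r ∪ wOut 0 v r ↔ ω ∉ WE v r := by
    rw [wdg_eq, walls_iff (mate_mem he), not_iff_not]
    constructor
    · intro h
      refine ⟨_, ?_, h⟩
      rw [← hu]
      exact PC.mate_MM he ω
    · rintro ⟨a, ha, hb⟩
      rcases Relation.ReflTransGen.cases_tail ha with h1 | ⟨b, -, f, hf, hm⟩
      · rw [h1] at hb
        exact absurd hb (not_bdR (by omega) (by omega))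
      · obtain ⟨x, hx, rfl⟩ := exists_bdR hb hf hm.right
        rw [← hu] at ha
        rcases PC.MM_cases he hx ha with h2 | h2
        · rw [h2, hu] at hb
          exact absurd hb (not_bdR (by omega) (by omega))
        · rwa [← h2]
  unfold sN
  simp only [Nat.cast_ofNat]
  by_cases h : ω ∈ WE v r
  · rw [if_pos h, if_neg fun h' => key.1 h' h]
  · rw [if_neg h, if_pos (key.2 h)]

/-- The strands over the marked side. -/
theorem sN_em (hr : 0 < r) (ω : Cfg) : sN .em 2 0 v r ω = 0 ↔ ω ∉ ArcOverE v r := by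
  have hR : (0 : ℤ) < r := by exact_mod_cast hr
  unfold sN
  simp only [Nat.cast_ofNat]
  rw [card_eq_zero, filter_eq_empty_iff, wdg_eq, zero_add]
  constructor
  · rintro h ⟨x, y, h1, h2, h3⟩
    obtain ⟨hy, hx⟩ := wall_of_MM hR (by omega) h3
    obtain ⟨⟨f, hf, hfs⟩, -⟩ := hy
    obtain ⟨⟨g, hg, hgs⟩, -⟩ := hx
    have ky := isSide_wall hf hfs
    have kx := isSide_wall hg hgs
    have ha : sd ZQ (x, v.2) 0 ∈ bS ZQ (HB v r) := side_bS (by omega) (by omega)
    have hb : sd ZQ (y, v.2) 0 ∈ bS ZQ (HB v r) := side_bS (by omega) (by omega)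
    have e1 : und (sd ZQ (x, v.2) 0) = (x, v.2, false) := (und_sd _ _).trans (su0 _ _)
    have e2 : und (sd ZQ (y, v.2) 0) = (y, v.2, false) := (und_sd _ _).trans (su0 _ _)
    rw [← e1, ← e2] at h3
    refine h (mem_wIn2.2 ⟨x, by omega, h1, rfl⟩) ?_
    rcases PC.MM_cases ha hb h3 with h4 | h4
    · rw [h4, e1] at e2
      simp only [Prod.mk.injEq, and_true] at e2
      omega
    · rw [← h4, mem_erase, mem_wOut0]
      refine ⟨fun h5 => ?_, y, by omega, by omega, rfl⟩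
      rw [h5, eS_eq, und_sd, su0 v.1 v.2] at e2
      simp only [Prod.mk.injEq, and_true] at e2
      omega
  · intro h a ha hm
    rw [mem_erase, mem_wOut0] at hm
    obtain ⟨x, h1, h2, rfl⟩ := mem_wIn2.1 ha
    obtain ⟨hne, y, h3, h4, h5⟩ := hm
    have hb : sd ZQ (x, v.2) 0 ∈ bS ZQ (HB v r) := side_bS (by omega) (by omega)
    have h6 := PC.mate_MM hb ω
    rw [h5, und_sd, und_sd, su0, su0] at h6
    refine h ⟨x, y, h2, ?_, h6⟩
    by_contra h7
    refine hne ?_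
    rw [h5, eS_eq]
    have : y = v.1 := by omega
    rw [this]

theorem av_zero_pow {W : Finset (ℤ × ℤ)} {n : Cfg → ℕ} {A : Set Cfg} (h : ∀ ω, n ω = 0 ↔ ω ∈ A) :
    av W (fun ω => (0 : ℝ) ^ n ω) = pr W A := by
  classical
  rw [pr_eq_av]
  refine av_congr fun T _ => ?_
  rw [OwnZ.zpow_ind]
  by_cases h1 : n (ind T) = 0
  · rw [if_pos h1, if_pos ((h _).1 h1)]
  · rw [if_neg h1, if_neg fun h2 => h1 ((h _).2 h2)]

noncomputable section

theorem sF_e (hr : 0 < r) : sF .e 2 r = pr (HB (0, 0) r) (WE (0, 0) r) := by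
  classical
  unfold sF sT
  rw [wdg_eq]
  refine av_zero_pow fun ω => ?_
  rw [sN_e hr]
  by_cases h : ω ∈ WE (0, 0) r
  · simp [h]
  · simp [h]

theorem sF_em (hr : 0 < r) : sF .em 2 r = pr (HB (0, 0) r) (ArcOverE (0, 0) r)ᶜ := by
  unfold sF sT
  rw [wdg_eq]
  exact av_zero_pow fun ω => sN_em hr ω

theorem sF_e_zero : sF .e 2 0 = 1 := by
  have e : sN .e 2 0 (0, 0) 0 = fun _ => 0 := by
    funext ω
    simp [sN, wIn, wOut]
  unfold sF
  rw [e]
  simp only [pow_zero]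
  exact av_const _

theorem sF_em_zero : sF .em 2 0 = 1 := by
  have e : sN .em 2 0 (0, 0) 0 = fun _ => 0 := by
    funext ω
    simp [sN, wIn]
  unfold sF
  rw [e]
  simp only [pow_zero]
  exact av_const _

theorem sF_e_ge : ∃ c : ℝ, 0 < c ∧ ∀ r : ℕ, 0 < r → c / r ≤ sF .e 2 r := by
  obtain ⟨c, hc, h⟩ := we_lower
  refine ⟨c, hc, fun r hr => ?_⟩
  rw [sF_e hr]
  exact_mod_cast h (0, 0) r _ (by exact_mod_cast hr) subset_rfl

theorem sF_e_le : ∃ C : ℝ, 0 < C ∧ ∀ r : ℕ, 0 < r → sF .e 2 r ≤ C / r := by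
  obtain ⟨C, hC, h⟩ := pr_unit
  refine ⟨C, hC, fun r hr => ?_⟩
  rw [sF_e hr]
  exact_mod_cast h (0, 0) r _ (by exact_mod_cast hr) subset_rfl

theorem sF_em_le : ∃ C : ℝ, 0 < C ∧ ∀ r : ℕ, 0 < r →
    sF .em 2 r ≤ C * (r : ℝ) ^ (-(1 / 3 : ℝ)) := by
  obtain ⟨C, hC, h⟩ := noArcE_le
  refine ⟨C, hC, fun r hr => ?_⟩
  rw [sF_em hr]
  exact_mod_cast h (0, 0) r _ (by exact_mod_cast hr) subset_rfl

theorem sF_em_ge : ∃ c : ℝ, 0 < c ∧ ∀ r : ℕ, 0 < r →
    c * (r : ℝ) ^ (-(1 / 3 : ℝ)) ≤ sF .em 2 r := by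
  refine ⟨(1 / 12 : ℝ) ^ (1 / 3 : ℝ), Real.rpow_pos_of_pos (by norm_num) _, fun r hr => ?_⟩
  refine (OwnZ.Fw_zero_ge 0 hr).trans ?_
  rw [OwnZ.Fw_zero_eq_pr 0 r (0, 0) subset_rfl, sF_em hr]
  refine pr_mono _ (Set.compl_subset_compl.2 ?_)
  rintro ω ⟨x, y, h1, h2, h3⟩
  exact ⟨x, y, h1, by omega, h3⟩

/-- Comparison of the scales from a two sided power law. -/
theorem scale_of {a : ℕ → ℝ} {p c C : ℝ} (hp : 0 ≤ p) (hp1 : p ≤ 1) (hc : 0 < c) (hC : 0 < C)
    (h0 : a 0 = 1) (hlo : ∀ r : ℕ, 0 < r → c * (r : ℝ) ^ (-p) ≤ a r)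
    (hhi : ∀ r : ℕ, 0 < r → a r ≤ C * (r : ℝ) ^ (-p)) :
    ∃ A₀ : ℝ, 1 ≤ A₀ ∧ ∀ r : ℕ, a (r / 2) ≤ A₀ * a r := by
  refine ⟨max (3 * C / c) (1 / c + 1), ?_, fun r => ?_⟩
  · refine le_trans ?_ (le_max_right _ _)
    have : 0 ≤ 1 / c := by positivity
    linarith
  rcases Nat.lt_or_ge r 2 with hr | hr
  · have e : r / 2 = 0 := by omega
    rw [e, h0]
    rcases Nat.eq_zero_or_pos r with h1 | h1
    · rw [h1, h0, mul_one]
      refine le_trans ?_ (le_max_right _ _)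
      have : 0 ≤ 1 / c := by positivity
      linarith
    · have h2 : r = 1 := by omega
      have h3 := hlo r h1
      rw [h2] at h3 ⊢
      rw [Nat.cast_one, Real.one_rpow, mul_one] at h3
      calc (1 : ℝ) = 1 / c * c := by field_simp
        _ ≤ max (3 * C / c) (1 / c + 1) * a 1 := by
          refine mul_le_mul ?_ h3 hc.le (by positivity)
          exact le_trans (by linarith) (le_max_right _ _)
  · have h1 := hhi (r / 2) (by omega)
    have h2 := hlo r (by omega)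
    have hr0 : (0 : ℝ) < r := by exact_mod_cast (by omega : 0 < r)
    have h3 : (r : ℝ) / 3 ≤ ((r / 2 : ℕ) : ℝ) := by
      have h4 : r ≤ 3 * (r / 2) := by omega
      have h5 : (r : ℝ) ≤ 3 * ((r / 2 : ℕ) : ℝ) := by exact_mod_cast h4
      linarith
    have h4 : ((r / 2 : ℕ) : ℝ) ^ (-p) ≤ 3 * (r : ℝ) ^ (-p) := by
      calc ((r / 2 : ℕ) : ℝ) ^ (-p) ≤ ((r : ℝ) / 3) ^ (-p) :=
            Real.rpow_le_rpow_of_nonpos (by positivity) h3 (by linarith)
        _ = (1 / 3 : ℝ) ^ (-p) * (r : ℝ) ^ (-p) := by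
            rw [← Real.mul_rpow (by norm_num) hr0.le]
            congr 1
            ring
        _ ≤ 3 * (r : ℝ) ^ (-p) := by
            have e3 : (1 / 3 : ℝ) ^ (-p) = (3 : ℝ) ^ p := by
              rw [Real.rpow_neg (by norm_num), ← Real.inv_rpow (by norm_num)]
              norm_num
            have e4 : (3 : ℝ) ^ p ≤ (3 : ℝ) ^ (1 : ℝ) :=
              Real.rpow_le_rpow_of_exponent_le (by norm_num) hp1
            rw [Real.rpow_one] at e4
            rw [e3]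
            exact mul_le_mul_of_nonneg_right e4 (by positivity)
    have hx : 0 < (r : ℝ) ^ (-p) := Real.rpow_pos_of_pos hr0 _
    calc a (r / 2) ≤ C * (3 * (r : ℝ) ^ (-p)) :=
          h1.trans (mul_le_mul_of_nonneg_left h4 hC.le)
      _ = 3 * C / c * (c * (r : ℝ) ^ (-p)) := by
          field_simp
      _ ≤ max (3 * C / c) (1 / c + 1) * a r :=
          mul_le_mul (le_max_left _ _) h2 (by positivity) (by positivity)

/-- **Comparison of the scales** for the kind `e`. -/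
theorem sF_e_scale : ∃ A₀ : ℝ, 1 ≤ A₀ ∧ ∀ r : ℕ, sF .e 2 (r / 2) ≤ A₀ * sF .e 2 r := by
  obtain ⟨c, hc, h1⟩ := sF_e_ge
  obtain ⟨C, hC, h2⟩ := sF_e_le
  refine scale_of (p := 1) zero_le_one le_rfl hc hC sF_e_zero (fun r hr => ?_) fun r hr => ?_
  · have := h1 r hr
    rwa [Real.rpow_neg_one, ← div_eq_mul_inv]
  · have := h2 r hr
    rwa [Real.rpow_neg_one, ← div_eq_mul_inv]

/-- **Comparison of the scales** for the kind `em`. -/
theorem sF_em_scale : ∃ A₀ : ℝ, 1 ≤ A₀ ∧ ∀ r : ℕ, sF .em 2 (r / 2) ≤ A₀ * sF .em 2 r := by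
  obtain ⟨c, hc, h1⟩ := sF_em_ge
  obtain ⟨C, hC, h2⟩ := sF_em_le
  exact scale_of (p := 1 / 3) (by norm_num) (by norm_num) hc hC sF_em_zero h1 h2

theorem we_anti {s R : ℤ} (hs : 0 < s) (h : s ≤ R) : WE v R ⊆ WE v s := by
  rintro ω ⟨a, ha, hb⟩
  rcases h.lt_or_eq with h' | rfl
  swap
  · exact ⟨a, ha, hb⟩
  have hine : InE v s (v.1, v.2, false) := by
    unfold InE InR
    simp only [ua_mk, ub_false]
    omega
  have hnot : ¬ InE v s a := by
    intro hc
    unfold InE at hc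
    obtain ⟨x, y, d⟩ := a
    unfold InR at hc
    unfold BdR BdE at hb
    cases d <;> simp only [ua_mk, ub_false, ub_true] at hc hb <;> omega
  rcases Perc6.N1Aux.first_exitF hine ha with h1 | ⟨b, h1, h2⟩
  · exact absurd (MM_inE hine (MM_mono Set.inter_subset_right h1)) hnot
  · refine ⟨b, MM_mono ?_ h1, h2⟩
    rintro g ⟨hg, hg'⟩
    rw [mem_HB] at hg ⊢
    rw [mem_BR'] at hg'
    omega

/-- The factor of `e` decreases with the radius. -/
theorem sF_e_anti {r r' : ℕ} (h : r' ≤ r) : sF .e 2 r ≤ sF .e 2 r' := by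
  rcases Nat.eq_zero_or_pos r' with h0 | h0
  · rw [h0, sF_e_zero]
    rcases Nat.eq_zero_or_pos r with h1 | h1
    · rw [h1, sF_e_zero]
    · rw [sF_e h1]
      exact pr_le_one _ _
  · rw [sF_e h0, sF_e (by omega)]
    have hsub : HB (0, 0) r' ⊆ HB (0, 0) r := by
      intro f hf
      have := mem_HB.1 (mem_coe.2 hf)
      refine mem_coe.1 (mem_HB.2 ?_)
      omega
    rw [← pr_eq_of_depOn (depOn_WE (0, 0) r') hsub]
    exact pr_mono _ (we_anti (by exact_mod_cast h0) (by exact_mod_cast h))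

/-- The factor of `em` decreases with the radius. -/
theorem sF_em_anti {r r' : ℕ} (h : r' ≤ r) : sF .em 2 r ≤ sF .em 2 r' := by
  rcases Nat.eq_zero_or_pos r' with h0 | h0
  · rw [h0, sF_em_zero]
    rcases Nat.eq_zero_or_pos r with h1 | h1
    · rw [h1, sF_em_zero]
    · rw [sF_em h1]
      exact pr_le_one _ _
  · rw [sF_em h0, sF_em (by omega)]
    have hsub : HB (0, 0) r' ⊆ HB (0, 0) r := by
      intro f hf
      have := mem_HB.1 (mem_coe.2 hf)
      refine mem_coe.1 (mem_HB.2 ?_)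
      omega
    have hd : DepOn (HB (0, 0) r' : Set (ℤ × ℤ)) (ArcOverE (0, 0) r')ᶜ := by
      intro ω ω' h'
      simp only [ArcOverE, Set.mem_compl_iff, Set.mem_ofPred_eq,
        MM_congr' (ω := ω) (ω' := ω') h']
    rw [← pr_eq_of_depOn hd hsub]
    refine pr_mono _ (Set.compl_subset_compl.2 ?_)
    rintro ω ⟨x, y, h1, h2, h3⟩
    exact ⟨x, y, h1, h2, MM_mono (coe_subset.2 hsub) h3⟩

end

end Pool.Agent.SixB.OwnE
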