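import Pool.Agent.Lib.SixB.CADomLowF
import Pool.Agent.Lib.SixB.CADomLowP
import Pool.Agent.Lib.SixB.S3PolyTy
import Pool.Agent.Lib.SixB.S3HJoin
import Pool.Agent.Lib.SixB.S3OwnE

/-!
# 6BD step 3: LOWER for a polygon, the three families of marks

`hj : MFam L g l n j`, `Spc` as in `fam_types` (same special positions `S i`, kinds `K i`).
* `fac_ge`: the local factor `fac` of block CA at a flat vertex is at least `sF (.ver q) 2 r`, `tau = tJ q`.
* `fam_low`: one package: `Spc`, types, and for every `ε > 0` a constant `c > 0` with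
  `c * ∏ x ∈ S i, sF (K i x) (mm G x) r ≤ av (rf (n i) P) (nW ZQ (rf (n i) P) ψ)` for `ε n ≤ r ≤ κ n`.
-/

set_option autoImplicit false

namespace Pool.Agent.SixB.LowDF

open Filter Topology Pool.Agent.Perc Pool.Agent.Perc.Q Pool.Agent.PercD Pool.Agent.PercN
  Pool.Agent.SixB.PolyAtl Pool.Agent.SixB.DomPr Pool.Agent.SixB.DomMk Pool.Agent.SixB.Tilt

noncomputable section

variable {P : Finset (ℤ × ℤ)} {L n N : ℕ} {g : ℤ → ℤ × ℤ}

/-! ## The local factor -/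

theorem ua_und_mem {v : ℤ × ℤ} {R : ℤ} {a : (ℤ × ℤ) × (ℤ × ℤ)} (h1 : |a.1.1 - v.1| ≤ R)
    (h2 : |a.1.2 - v.2| ≤ R) (h3 : |a.2.1 - v.1| ≤ R) (h4 : |a.2.2 - v.2| ≤ R) :
    und a ∈ UB v R := by
  rw [abs_le] at h1 h2 h3 h4
  rw [mem_UB]
  unfold und
  split_ifs with h
  · unfold InR ua
    simp only
    rcases le_total a.1.2 a.2.2 with h5 | h5
    · rw [min_eq_left h5]
      omega
    · rw [min_eq_right h5]
      omega
  · unfold InR ua
    simp only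
    rcases le_total a.1.1 a.2.1 with h5 | h5
    · rw [min_eq_left h5]
      omega
    · rw [min_eq_right h5]
      omega

theorem abs_smul_dz (t : ℤ) (a : ZMod 4) : |(t • dz a).1| ≤ |t| ∧ |(t • dz a).2| ≤ |t| := by
  rcases c4 a with rfl | rfl | rfl | rfl
  · rw [dz0]; simp
  · rw [dz1]; simp
  · rw [dz2]; simp
  · rw [dz3]; simp

/-- the number of arcs in the wedge is at most the number of strands -/
theorem Nwd_le_NA {x R : ℤ} {r : ℕ} (hc : Cont (rf n P) N (gr n g)) (hn : 0 < n) (hrn : r ≤ n)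
    (hs : Stt (gr n g) x r) (hR : (r : ℤ) ≤ R) (ω : Cfg) :
    Nwd (mm (gr n g) x) (dd (gr n g) x) (gr n g x) r ω ≤
      NA (rf n P : Set (ℤ × ℤ)) (MA n g x R) (MB n g x R) (gr n g x) R ω := by
  classical
  have hm := mm_rng hc x
  have hsub : (Wdg (mm (gr n g) x) (dd (gr n g) x) (gr n g x) r : Set (ℤ × ℤ)) ⊆
      (rf n P : Set (ℤ × ℤ)) ∩ (BR (gr n g x) R : Set (ℤ × ℤ)) := by
    intro f hf
    rw [Finset.mem_coe] at hf
    refine ⟨(ctChart hc hn x r hrn hs).sub f hf, ?_⟩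
    rw [PolyAtl.mem_Wdg] at hf
    rw [Finset.mem_coe]
    unfold BR
    rw [← Finset.mem_coe, mem_RF']
    omega
  unfold Nwd NA NS
  refine Finset.card_le_card_of_injOn und ?_ ?_
  · intro a ha
    rw [Finset.mem_coe, Finset.mem_filter] at ha
    obtain ⟨ha, hb⟩ := ha
    obtain ⟨t, ht, rfl⟩ := (wIn_eq hc hs).1 ha
    have hbS := Kd.wIn_sub hm.1 hm.2 ha
    have hMM := MM_mono hsub (PC.mate_MM hbS ω)
    obtain ⟨s, hs', hs''⟩ := (wOut_eq hc hs).1 hb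
    rw [Finset.mem_coe, Finset.mem_filter]
    refine ⟨?_, ⟨x - t - 1, by omega, by omega, ?_⟩, _, hMM, ⟨x + s, by omega, by omega, ?_⟩⟩
    · have e1 := arm_in hc hs (t + 1) ht
      have e2 := arm_in hc hs t ht.le
      have e3 := abs_smul_dz ((t + 1 : ℕ) : ℤ) (dd (gr n g) (x - 1))
      have e4 := abs_smul_dz ((t : ℕ) : ℤ) (dd (gr n g) (x - 1))
      rw [show x - ((t + 1 : ℕ) : ℤ) = x - t - 1 by push_cast; ring] at e1
      rw [e1, e2]
      rw [abs_of_nonneg (by omega : (0 : ℤ) ≤ ((t + 1 : ℕ) : ℤ))] at e3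
      rw [abs_of_nonneg (by omega : (0 : ℤ) ≤ ((t : ℕ) : ℤ))] at e4
      obtain ⟨k1, k2⟩ := e3
      obtain ⟨k3, k4⟩ := e4
      rw [abs_le] at k1 k2 k3 k4
      refine ua_und_mem ?_ ?_ ?_ ?_ <;> simp only [Prod.fst_sub, Prod.snd_sub] <;> rw [abs_le] <;>
        omega
    · rw [show x - (t : ℤ) - 1 + 1 = x - t by ring]
    · rw [hs'']
  · intro a ha b hb h
    rw [Finset.mem_coe, Finset.mem_filter] at ha hb
    exact PC.und_bS_inj (Kd.wIn_sub hm.1 hm.2 ha.1) (Kd.wIn_sub hm.1 hm.2 hb.1) h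

/-- **the local factor at a flat vertex** -/
theorem fac_ge {x R : ℤ} {r : ℕ} (hc : Cont (rf n P) N (gr n g)) (hn : 0 < n) (hrn : r ≤ n)
    (hs : Stt (gr n g) x r) (h2 : mm (gr n g) x = 2) (hR : (r : ℤ) ≤ R) {q τ : ℝ} (hq : tJ q = τ)
    (h1 : 1 ≤ τ) :
    sF (.ver q) 2 r ≤ fac (rf n P) (MA n g x R) (MB n g x R) (gr n g x) R τ := by
  have hsub : Wdg 2 (dd (gr n g) x) (gr n g x) r ⊆ rf n P := by
    intro f hf
    rw [← h2] at hf
    exact (ctChart hc hn x r hrn hs).sub f hf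
  rw [← Kd.sF_eq (.ver q) 2 (dd (gr n g) x) (gr n g x) r hsub]
  unfold fac
  refine av_mono fun T _ => ?_
  have h3 := Nwd_le_NA hc hn hrn hs hR (ind T)
  rw [h2] at h3
  unfold sT sN
  simp only
  rw [hq]
  exact pow_le_pow_right₀ h1 h3

/-! ## Positions -/

/-- near a mark the contour is straight -/
theorem flat_near (hg : Cont P L g) {m r : ℕ} {p : Fin m → ℤ} (hn : 0 < n)
    (hsep : ∀ a a' : CorI L g ⊕ Fin m, ∀ q : ℤ, a ≠ a' ∨ q ≠ 0 →
      32 * (r : ℤ) ≤ |posA n L g p a - posA n L g p a' + q * ((n * L : ℕ) : ℤ)|)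
    (t : Fin m) {s : ℤ} (hs : |s| < 32 * r) : mm (gr n g) (p t + s) = 2 := by
  by_contra hh
  obtain ⟨a, h1, h2, q, h3⟩ := mm_gr hg hn hh
  have h4 := hsep (Sum.inr t) (Sum.inl ⟨a, Finset.mem_filter.2 ⟨Finset.mem_range.2 h1, h2⟩⟩) (-q)
    (Or.inl (by simp))
  simp only [posA, Sum.elim_inl, Sum.elim_inr] at h4
  rw [show p t - (n : ℤ) * a + -q * ((n * L : ℕ) : ℤ) = -s by linarith, abs_neg] at h4
  omega

theorem stt_mark (hg : Cont P L g) {m r ρ : ℕ} {p : Fin m → ℤ} (hn : 0 < n)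
    (hsep : ∀ a a' : CorI L g ⊕ Fin m, ∀ q : ℤ, a ≠ a' ∨ q ≠ 0 →
      32 * (r : ℤ) ≤ |posA n L g p a - posA n L g p a' + q * ((n * L : ℕ) : ℤ)|)
    (t : Fin m) (hρ : ρ ≤ 32 * r) : Stt (gr n g) (p t) ρ := by
  intro i h1 h2 _
  have h3 := flat_near hg hn hsep t (s := i - p t) (by rw [abs_lt]; omega)
  rw [add_sub_cancel] at h3
  exact mm_two.1 h3

/-- the distance of two marks -/
theorem sep_mark {m r : ℕ} {p : Fin m → ℤ}
    (hsep : ∀ a a' : CorI L g ⊕ Fin m, ∀ q : ℤ, a ≠ a' ∨ q ≠ 0 →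
      32 * (r : ℤ) ≤ |posA n L g p a - posA n L g p a' + q * ((n * L : ℕ) : ℤ)|)
    {t t' : Fin m} (h : t ≠ t') (q : ℤ) : 32 * (r : ℤ) ≤ |p t - p t' + q * ((n * L : ℕ) : ℤ)| := by
  have h4 := hsep (Sum.inr t) (Sum.inr t') q (Or.inl (by simpa using h))
  simpa only [posA, Sum.elim_inr] using h4

/-- the boxes of two marks -/
theorem disj_mark (hg : Cont P L g) {r : ℕ} {R : ℤ} (hn : 0 < n) {x y : ℤ} (hrn : 16 * r ≤ n) (hr : 2 ≤ r)
    (hR : R ≤ r) (h : ∀ q : ℤ, 32 * (r : ℤ) ≤ |x - y + q * ((n * L : ℕ) : ℤ)|) :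
    Disjoint (BR (gr n g x) R) (BR (gr n g y) R) := by
  rw [Finset.disjoint_left]
  intro f h1 h2
  unfold BR at h1 h2
  rw [← Finset.mem_coe, mem_RF'] at h1 h2
  obtain ⟨q, hq⟩ := gr_chord hg hn (a := y) (b := x) (D := 2 * r) (by omega)
    (by rw [abs_le]; omega) (by rw [abs_le]; omega)
  have h3 := h (-q)
  rw [show x - y + -q * ((n * L : ℕ) : ℤ) = x - y - q * (n * L) by push_cast; ring] at h3
  omega

theorem tJ_tau (α : ℝ) : tJ (α * (Real.pi / 3)) = TW.tau α := rfl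

theorem tJ_tau' (α : ℝ) : tJ ((1 - α) * (Real.pi / 3)) = TW.tau α := by
  rw [← tJ_tau, ← tJ_refl (α * (Real.pi / 3))]
  congr 1
  ring

/-- limits and order -/
theorem ev_lt {ι : Type} {l : Filter ι} {n : ι → ℕ} (hn : Tendsto n l atTop) {s s' : ℝ} {b b' : ι → ℤ}
    (hb : Tendsto (fun i => (b i : ℝ) / n i) l (𝓝 s))
    (hb' : Tendsto (fun i => (b' i : ℝ) / n i) l (𝓝 s')) (h : s < s') : ∀ᶠ i in l, b i < b' i := by
  filter_upwards [hb.eventually_lt hb' h, hn.eventually (eventually_gt_atTop 0)] with i hi h0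
  have h1 : (0 : ℝ) < n i := by exact_mod_cast h0
  rw [div_lt_div_iff_of_pos_right h1] at hi
  exact_mod_cast hi

theorem tend_add {ι : Type} {l : Filter ι} {n : ι → ℕ} (hn : Tendsto n l atTop) {s : ℝ} {b : ι → ℤ}
    (hb : Tendsto (fun i => (b i : ℝ) / n i) l (𝓝 s)) (L : ℕ) :
    Tendsto (fun i => ((b i + (n i * L : ℕ) : ℤ) : ℝ) / n i) l (𝓝 (s + L)) := by
  refine (hb.add_const (L : ℝ)).congr' ?_
  filter_upwards [hn.eventually (eventually_gt_atTop 0)] with i h0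
  have h1 : (0 : ℝ) < n i := by exact_mod_cast h0
  push_cast
  field_simp

/-! ## Two marks -/

theorem pair_low (hP : MPoly P) (hg : Cont P L g) {ι : Type} {l : Filter ι} {n : ι → ℕ}
    (hn : Tendsto n l atTop) {α s s' : ℝ} {b b' : ι → ℤ} (hα : α ∈ Set.Icc (0 : ℝ) 1) (hs : Fl g s)
    (hs' : Fl g s') (h1 : s < s') (h2 : s' < s + L) (hb : Tendsto (fun i => (b i : ℝ) / n i) l (𝓝 s))
    (hb' : Tendsto (fun i => (b' i : ℝ) / n i) l (𝓝 s')) :
    ∃ κ : ℝ, 0 < κ ∧ ∀ᶠ i in l, ∀ r : ℕ, 2 ≤ r → (r : ℝ) ≤ κ * n i →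
      FP r (St.mkPair α) ≤ (envJ P L g (n i) (jP (n i * L) α (b i) (b' i))).Z := by
  have hL : (0 : ℝ) < L := by exact_mod_cast hg.pos
  obtain ⟨κ, hκ, hev⟩ := fam_core hg hn (s := ![s, s']) (p := fun i => ![b i, b' i])
    (by
      intro t t' h
      fin_cases t <;> fin_cases t' <;> simp at h ⊢ <;> linarith)
    (by
      intro t t'
      fin_cases t <;> fin_cases t' <;> simp <;> first | exact hg.pos | linarith)
    (by
      intro t
      fin_cases t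
      · exact hs
      · exact hs')
    (by
      intro t
      fin_cases t
      · exact hb
      · exact hb')
  refine ⟨κ, hκ, ?_⟩
  filter_upwards [hev, ev_lt hn hb hb' h1, ev_lt hn hb' (tend_add hn hb L) h2] with i hi hlt hlt'
  intro r hr hrn
  obtain ⟨h3, h4⟩ := hi r hr hrn
  have hn0 : 0 < n i := by omega
  have hc := CARf.cont_rf hg hn0
  have s1 := sep_mark h4 (t := 0) (t' := 1) (by decide) 0
  have s2 := sep_mark h4 (t := 0) (t' := 1) (by decide) 1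
  simp only [Matrix.cons_val_zero, Matrix.cons_val_one, zero_mul, one_mul, add_zero] at s1 s2
  have f0 := stt_mark (ρ := r) hg hn0 h4 0 (by omega)
  have f1 := stt_mark (ρ := r) hg hn0 h4 1 (by omega)
  have g0 := flat_near hg hn0 h4 0 (s := 0) (by simp; omega)
  have g1 := flat_near hg hn0 h4 1 (s := 0) (by simp; omega)
  simp only [Matrix.cons_val_zero, Matrix.cons_val_one, add_zero] at f0 f1 g0 g1
  have hd : Disjoint (BR (gr (n i) g (b i)) r) (BR (gr (n i) g (b' i)) r) := by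
    refine disj_mark hg hn0 h3 hr le_rfl fun q => ?_
    have := sep_mark h4 (t := 0) (t' := 1) (by decide) q
    simpa only [Matrix.cons_val_zero, Matrix.cons_val_one] using this
  rw [abs_of_nonpos (by omega)] at s1
  rw [abs_of_nonneg (by omega)] at s2
  have key := LowZ.Z_lowP (i2 := b i) (i2' := b' i) (R := r) (R' := r) hP hg hn0 hα.1 hα.2
    (by omega) (by omega) (by omega) (by omega) (by omega) (by omega) hd
  have ht := LowZ.one_le_tau hα.1 hα.2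
  rw [St.FP_mkPair]
  refine le_trans ?_ key
  refine mul_le_mul ?_ ?_ ?_ ?_
  · exact fac_ge hc hn0 (by omega) f0 g0 le_rfl (tJ_tau' α) ht
  · exact fac_ge hc hn0 (by omega) f1 g1 le_rfl (tJ_tau α) ht
  · refine Kd.sF_nonneg ?_ _ _
    show 0 ≤ tJ _
    rw [tJ_tau]
    linarith
  · exact av_nonneg fun ω _ => pow_nonneg (by linarith) _

/-! ## Five marks -/

theorem near_ev {ι : Type} {l : Filter ι} {n : ι → ℕ} {s ρ : ℝ} (hρ : 0 < ρ) {b : ι → ℤ}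
    (hb : Tendsto (fun i => (b i : ℝ) / n i) l (𝓝 s)) : ∀ᶠ i in l, |(b i : ℝ) / n i - s| < ρ := by
  have := hb.eventually (Metric.ball_mem_nhds s hρ)
  filter_upwards [this] with i hi
  rwa [Real.dist_eq] at hi

theorem tend_succ {ι : Type} {l : Filter ι} {n : ι → ℕ} (hn : Tendsto n l atTop) {s : ℝ} {b : ι → ℤ}
    (hb : Tendsto (fun i => (b i : ℝ) / n i) l (𝓝 s)) :
    Tendsto (fun i => ((b i + 1 : ℤ) : ℝ) / n i) l (𝓝 s) := by
  have h6 : Tendsto (fun i => 1 / ((n i : ℕ) : ℝ)) l (𝓝 0) :=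
    tendsto_one_div_atTop_nhds_zero_nat.comp hn
  have h7 := hb.add h6
  rw [add_zero] at h7
  refine h7.congr fun i => ?_
  push_cast
  rw [add_div]

/-- a radius for the local factors -/
theorem rad_ev {ι : Type} {l : Filter ι} {n : ι → ℕ} (hn : Tendsto n l atTop) {κ ρ : ℝ} (hρ : 0 < ρ) :
    ∃ k : ℕ, ∀ᶠ i in l, ∀ r : ℕ, 2 ≤ r → (r : ℝ) ≤ κ * n i → ∃ R : ℕ, R ≤ r ∧ (R : ℝ) ≤ ρ * n i ∧
      r ≤ 2 ^ k * R ∧ R ≤ 2 ^ k * r := by
  obtain ⟨k, hk⟩ := pow_unbounded_of_one_lt (max 1 (2 * κ / ρ)) (one_lt_two)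
  refine ⟨k, ?_⟩
  have h1 : Tendsto (fun i => ρ * (n i : ℝ)) l atTop :=
    (tendsto_natCast_atTop_atTop.comp hn).const_mul_atTop hρ
  filter_upwards [h1.eventually (eventually_ge_atTop 2)] with i hi r hr hrn
  refine ⟨min r ⌊ρ * n i⌋₊, min_le_left _ _, ?_, ?_, ?_⟩
  · refine le_trans ?_ (Nat.floor_le (by linarith : (0 : ℝ) ≤ ρ * n i))
    exact_mod_cast min_le_right _ _
  · rcases le_total r ⌊ρ * n i⌋₊ with h2 | h2
    · rw [min_eq_left h2]
      exact Nat.le_mul_of_pos_left r (by positivity)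
    · rw [min_eq_right h2]
      have h3 : ρ * n i < ⌊ρ * n i⌋₊ + 1 := Nat.lt_floor_add_one _
      have h4 : ρ * n i ≤ 2 * ⌊ρ * n i⌋₊ := by linarith
      have h5 : (2 * κ / ρ : ℝ) < 2 ^ k := (le_max_right _ _).trans_lt hk
      have h6 : (0 : ℝ) ≤ ⌊ρ * n i⌋₊ := by positivity
      have h7 : κ * n i ≤ 2 ^ k * (⌊ρ * n i⌋₊ : ℝ) := by
        have h8 : κ * n i = 2 * κ / ρ * (ρ * n i / 2) := by field_simp
        rw [h8]
        rcases le_or_gt 0 (2 * κ / ρ) with h9 | h9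
        · exact mul_le_mul h5.le (by linarith) (by linarith) (by positivity)
        · refine le_trans (mul_nonpos_of_nonpos_of_nonneg h9.le (by linarith)) (by positivity)
      have h9 : (r : ℝ) ≤ ((2 ^ k * ⌊ρ * n i⌋₊ : ℕ) : ℝ) := by
        push_cast
        exact hrn.trans h7
      exact_mod_cast h9
  · refine (min_le_left _ _).trans (Nat.le_mul_of_pos_left r (by positivity))

theorem full_low (hP : MPoly P) (hg : Cont P L g) {ι : Type} {l : Filter ι} {n : ι → ℕ}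
    (hn : Tendsto n l atTop) {α t₁ t₂ t₂' t₃ t₄ : ℝ} {b₁ b₂ b₂' b₃ k : ι → ℤ}
    (hα : α ∈ Set.Icc (0 : ℝ) 1)
    (hm : Marks5 L g t₁ t₂ t₂' t₃ t₄) (h₁ : Tendsto (fun i => (b₁ i : ℝ) / n i) l (𝓝 t₁))
    (h₂ : Tendsto (fun i => (b₂ i : ℝ) / n i) l (𝓝 t₂))
    (h₂' : Tendsto (fun i => (b₂' i : ℝ) / n i) l (𝓝 t₂'))
    (h₃ : Tendsto (fun i => (b₃ i : ℝ) / n i) l (𝓝 t₃))
    (h₄ : Tendsto (fun i => (k i : ℝ) / n i) l (𝓝 t₄)) :
    ∃ κ : ℝ, 0 < κ ∧ ∀ ε : ℝ, 0 < ε → ∃ c : ℝ, 0 < c ∧ ∀ᶠ i in l, ∀ r : ℕ, 2 ≤ r → ε * n i ≤ r →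
      (r : ℝ) ≤ κ * n i → c * FP r (St.mkFull α) ≤
        (envJ P L g (n i) (jX (n i * L) α (b₁ i) (b₂ i) (b₂' i) (b₃ i) (k i))).Z := by
  have hL : (0 : ℝ) < L := by exact_mod_cast hg.pos
  obtain ⟨ρ, c₀, hρ, hc₀, n0, -, hE⟩ := Low.exists_lowEv hP hg hm
  obtain ⟨m1, m2, m3, m4, m5, f1, f2, f3, f4, f5⟩ := hm
  obtain ⟨κ, hκ, hev⟩ := fam_core hg hn (s := ![t₁, t₂, t₂', t₃, t₄])
    (p := fun i => ![b₁ i, b₂ i, b₂' i, b₃ i, k i])
    (by
      intro t t' h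
      fin_cases t <;> fin_cases t' <;> simp at h ⊢ <;> linarith)
    (by
      intro t t'
      fin_cases t <;> fin_cases t' <;> simp <;> first | exact hg.pos | linarith)
    (by
      intro t
      fin_cases t
      · exact f1
      · exact f2
      · exact f3
      · exact f4
      · exact f5)
    (by
      intro t
      fin_cases t
      · exact h₁
      · exact h₂
      · exact h₂'
      · exact h₃
      · exact h₄)
  refine ⟨κ, hκ, fun ε hε => ?_⟩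
  obtain ⟨e, hrad⟩ := rad_ev hn (κ := κ) hρ
  obtain ⟨C, hC, hcmp⟩ := Kd.sF_cmp 1 one_pos le_rfl e
  obtain ⟨C₁, hC₁, hFe⟩ := OwnE.sF_e_le
  refine ⟨c₀ * ε / C₁ / (C * C), by positivity, ?_⟩
  filter_upwards [hev, hrad, ev_lt hn h₁ h₂ m1, ev_lt hn h₂ h₂' m2, ev_lt hn h₂' h₃ m3,
    ev_lt hn h₃ h₄ m4, ev_lt hn h₄ (tend_add hn h₁ L) m5, near_ev hρ h₁, near_ev hρ h₂,
    near_ev hρ h₂', near_ev hρ h₃, near_ev hρ (tend_succ hn h₄),
    hn.eventually (eventually_ge_atTop n0)] with i hi hR l1 l2 l3 l4 l5 q1 q2 q2' q3 q4 hin0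
  intro r hr hεr hrn
  obtain ⟨h3, h4⟩ := hi r hr hrn
  obtain ⟨R, hRr, hRρ, hR1, hR2⟩ := hR r hr hrn
  have hn0 : 0 < n i := by omega
  have hnr : (0 : ℝ) < n i := by exact_mod_cast hn0
  have hc := CARf.cont_rf hg hn0
  obtain ⟨E, hdep, hconn, hpr⟩ := hE (n i) hin0 (k i + 1) (b₁ i) (b₂ i) (b₂' i) (b₃ i) q4 q1 q2 q2' q3
  have s01 := sep_mark h4 (t := 0) (t' := 1) (by decide) 0
  have s12 := sep_mark h4 (t := 1) (t' := 2) (by decide) 0
  have s23 := sep_mark h4 (t := 2) (t' := 3) (by decide) 0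
  have s34 := sep_mark h4 (t := 3) (t' := 4) (by decide) 0
  have s40 := sep_mark h4 (t := 4) (t' := 0) (by decide) (-1)
  simp only [Matrix.cons_val, zero_mul, add_zero, neg_mul, one_mul] at s01 s12 s23 s34 s40
  rw [abs_of_nonpos (by omega)] at s01 s12 s23 s34 s40
  have g1 := stt_mark (ρ := R) hg hn0 h4 1 (by omega)
  have g2 := stt_mark (ρ := R) hg hn0 h4 2 (by omega)
  have w1 := flat_near hg hn0 h4 1 (s := 0) (by simp; omega)
  have w2 := flat_near hg hn0 h4 2 (s := 0) (by simp; omega)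
  simp only [Matrix.cons_val, add_zero] at g1 g2 w1 w2
  have hd : Disjoint (BR (gr (n i) g (b₂ i)) R) (BR (gr (n i) g (b₂' i)) R) := by
    refine disj_mark hg hn0 h3 hr (by exact_mod_cast hRr) fun q => ?_
    have := sep_mark h4 (t := 1) (t' := 2) (by decide) q
    simpa only [Matrix.cons_val] using this
  have key := LowZ.Z_low (k := k i) (i1 := b₁ i) (i2 := b₂ i) (i2' := b₂' i) (i3 := b₃ i) (R := R)
    (R' := R) hP hg hn0 hα.1 hα.2 (by omega) (by omega) (by omega) (by omega) (by omega) (by omega)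
    (by omega) (by omega) hdep (fun f hf => hf.2 R (by exact_mod_cast hRρ)) hd
    (fun ω hω => (hconn ω hω).1) (fun ω hω => by
      have := (hconn ω hω).2
      rwa [add_sub_cancel_right] at this)
  have ht := LowZ.one_le_tau hα.1 hα.2
  have hF1 : sF (.ver ((1 - α) * (Real.pi / 3))) 2 r ≤ C * fac (rf (n i) P) (MA (n i) g (b₂ i) R)
      (MB (n i) g (b₂ i) R) (gr (n i) g (b₂ i)) R (TW.tau α) := by
    refine (hcmp _ 2 r R (by omega) (by omega) (Or.inl ?_) hR1 hR2).trans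
      (mul_le_mul_of_nonneg_left (fac_ge hc hn0 (by omega) g1 w1 le_rfl (tJ_tau' α) ht)
        (by linarith))
    show 1 ≤ tJ _
    rwa [tJ_tau']
  have hF2 : sF (.ver (α * (Real.pi / 3))) 2 r ≤ C * fac (rf (n i) P) (MA (n i) g (b₂' i) R)
      (MB (n i) g (b₂' i) R) (gr (n i) g (b₂' i)) R (TW.tau α) := by
    refine (hcmp _ 2 r R (by omega) (by omega) (Or.inl ?_) hR1 hR2).trans
      (mul_le_mul_of_nonneg_left (fac_ge hc hn0 (by omega) g2 w2 le_rfl (tJ_tau α) ht)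
        (by linarith))
    show 1 ≤ tJ _
    rwa [tJ_tau]
  have hFe' : sF .e 2 r ≤ C₁ / (ε * n i) :=
    (hFe r (by omega)).trans (div_le_div_of_nonneg_left hC₁.le (by positivity) hεr)
  have hn1 : ∀ q : ℝ, 0 ≤ sT (.ver q) → 0 ≤ sF (.ver q) 2 r := fun q hq => Kd.sF_nonneg hq _ _
  have a1 := hn1 ((1 - α) * (Real.pi / 3)) (by
    show 0 ≤ tJ _
    rw [tJ_tau']
    linarith)
  have a2 := hn1 (α * (Real.pi / 3)) (by
    show 0 ≤ tJ _
    rw [tJ_tau]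
    linarith)
  have ae : 0 ≤ sF .e 2 r := Kd.sF_nonneg (K := .e) (le_refl (0 : ℝ)) _ _
  have b1 : 0 ≤ fac (rf (n i) P) (MA (n i) g (b₂ i) R) (MB (n i) g (b₂ i) R) (gr (n i) g (b₂ i)) R
    (TW.tau α) := av_nonneg fun ω _ => pow_nonneg (by linarith) _
  have b2 : 0 ≤ fac (rf (n i) P) (MA (n i) g (b₂' i) R) (MB (n i) g (b₂' i) R) (gr (n i) g (b₂' i)) R
    (TW.tau α) := av_nonneg fun ω _ => pow_nonneg (by linarith) _
  rw [St.FP_mkFull]
  unfold St.fF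
  refine le_trans ?_ key
  have hC0 : 0 < C := by linarith
  have k1 : c₀ * ε / C₁ * sF .e 2 r ≤ pr (rf (n i) P) E := by
    refine le_trans ?_ hpr
    refine (mul_le_mul_of_nonneg_left hFe' (by positivity)).trans (le_of_eq ?_)
    field_simp
  have k2 := mul_le_mul hF1 hF2 a2 (mul_nonneg hC0.le b1)
  have k3 := mul_le_mul k1 k2 (mul_nonneg a1 a2) (pr_nonneg _ _)
  refine le_of_mul_le_mul_left ?_ (mul_pos hC0 hC0)
  refine le_trans (le_of_eq ?_) (k3.trans (le_of_eq ?_))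
  · field_simp
  · ring

/-! ## The families -/

theorem phC_of_fam (hg : Cont P L g) {ι : Type} {l : Filter ι} {n : ι → ℕ} {j : ι → ℤ → ℝ}
    (hj : MFam L g l n j) {i : ι} (hn : 0 < n i) {ψ : (ℤ × ℤ) × (ℤ × ℤ) → ℝ}
    (hψ : Jmps (gr (n i) g) (j i) ψ) :
    PhC (rf (n i) P) (n i * L) (gr (n i) g) (j i) ψ where
  cont := CARf.cont_rf hg hn
  per := Asm3.MFam.per hj i
  tot := by
    rw [Asm3.csum_range (Asm3.MFam.per hj i)]
    exact Asm3.MFam.tot hj i (Nat.mul_pos hn hg.pos)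
  jump := hψ

theorem prod_typS (G : ℤ → ℤ × ℤ) (S : Finset ℤ) (K : ℤ → SK) (r : ℕ) :
    ∏ x ∈ S, sF (K x) (mm G x) r = FP r (typS G S K) := by
  unfold FP typS
  rw [Multiset.map_map]
  rfl

/-- the lower bound in the form `FP` -/
theorem fam_low' (hP : MPoly P) (hg : Cont P L g) {ι : Type} {l : Filter ι} {n : ι → ℕ}
    (hn : Tendsto n l atTop) {j : ι → ℤ → ℝ} (hj : MFam L g l n j) :
    ∃ κ : ℝ, 0 < κ ∧ ∃ (S : ι → Finset ℤ) (K : ι → ℤ → SK) (X : Multiset VT), St.Mk X ∧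
      (∀ i, (S i).card ≤ L + 5) ∧
      (∀ᶠ i in l, typS (gr (n i) g) (S i) (K i) = St.domV (nConc L g) X ∧
        ∀ r : ℕ, ∀ ψ, 2 ≤ r → (r : ℝ) ≤ κ * n i → Jmps (gr (n i) g) (j i) ψ →
          Spc P (n i) (n i * L) (gr (n i) g) (j i) ψ (S i) (K i) r 1) ∧
      ∀ ε : ℝ, 0 < ε → ∃ c : ℝ, 0 < c ∧ ∀ᶠ i in l, ∀ r : ℕ, 2 ≤ r → ε * n i ≤ r →
        (r : ℝ) ≤ κ * n i → c * FP r X ≤ (envJ P L g (n i) (j i)).Z := by
  cases hj with
  | nat s b hs hb =>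
    obtain ⟨κ, hκ, h⟩ := nat_spc hg hn hs hb
    refine ⟨κ, hκ, _, _, _, Or.inl rfl, fun i => (posS_card _ _ _ _).trans (by omega),
      (nat_types hP hg hn hs hb).and h, fun ε hε => ⟨1, one_pos, ?_⟩⟩
    filter_upwards [hn.eventually (eventually_gt_atTop 0)] with i hi r _ _ _
    rw [one_mul, St.FP_mkNat]
    exact (nat_Z (CARf.cont_rf hg hi) (CARf.mpoly_rf hP hi) (b i)).ge
  | pair α s s' b b' hα hs hs' h1 h2 hb hb' =>
    obtain ⟨κ, hκ, h⟩ := pair_spc hg hn (Set.Ioo_subset_Icc_self hα) hs hs' h1 h2 hb hb'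
    obtain ⟨κ', hκ', h'⟩ := pair_low hP hg hn (Set.Ioo_subset_Icc_self hα) hs hs' h1 h2 hb hb'
    refine ⟨min κ κ', lt_min hκ hκ', _, _, _, Or.inr ⟨α, hα.1.le, hα.2.le, Or.inl rfl⟩,
      fun i => (posS_card _ _ _ _).trans (by omega), (pair_types hP hg hn hs hs' h1 h2 hb hb').and ?_,
      fun ε hε => ⟨1, one_pos, ?_⟩⟩
    · filter_upwards [h] with i hi r ψ hr hrn hψ
      exact hi r ψ hr (hrn.trans (mul_le_mul_of_nonneg_right (min_le_left _ _) (by positivity))) hψ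
    · filter_upwards [h'] with i hi r hr _ hrn
      rw [one_mul]
      exact hi r hr (hrn.trans (mul_le_mul_of_nonneg_right (min_le_right _ _) (by positivity)))
  | full α t₁ t₂ t₂' t₃ t₄ b₁ b₂ b₂' b₃ k hα hm h₁ h₂ h₂' h₃ h₄ =>
    obtain ⟨κ, hκ, h⟩ := full_spc hg hn (Set.Ioo_subset_Icc_self hα) hm h₁ h₂ h₂' h₃ h₄
    obtain ⟨κ', hκ', h'⟩ := full_low hP hg hn (Set.Ioo_subset_Icc_self hα) hm h₁ h₂ h₂' h₃ h₄
    refine ⟨min κ κ', lt_min hκ hκ', _, _, _, Or.inr ⟨α, hα.1.le, hα.2.le, Or.inr rfl⟩,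
      fun i => (posS_card _ _ _ _).trans (by omega), (full_types hP hg hn hm h₁ h₂ h₂' h₃ h₄).and ?_,
      fun ε hε => ?_⟩
    · filter_upwards [h] with i hi r ψ hr hrn hψ
      exact hi r ψ hr (hrn.trans (mul_le_mul_of_nonneg_right (min_le_left _ _) (by positivity))) hψ
    · obtain ⟨c, hc, h''⟩ := h' ε hε
      refine ⟨c, hc, ?_⟩
      filter_upwards [h''] with i hi r hr hε' hrn
      exact hi r hr hε' (hrn.trans (mul_le_mul_of_nonneg_right (min_le_right _ _) (by positivity)))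

/-- **LOWER for a polygon, the three families.** -/
theorem fam_low (hP : MPoly P) (hg : Cont P L g) {ι : Type} {l : Filter ι} {n : ι → ℕ}
    (hn : Tendsto n l atTop) {j : ι → ℤ → ℝ} (hj : MFam L g l n j) :
    ∃ κ : ℝ, 0 < κ ∧ ∃ (S : ι → Finset ℤ) (K : ι → ℤ → SK) (X : Multiset VT), St.Mk X ∧
      (∀ i, (S i).card ≤ L + 5) ∧
      (∀ᶠ i in l, typS (gr (n i) g) (S i) (K i) = St.domV (nConc L g) X ∧
        ∀ r : ℕ, ∀ ψ, 2 ≤ r → (r : ℝ) ≤ κ * n i → Jmps (gr (n i) g) (j i) ψ →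
          Spc P (n i) (n i * L) (gr (n i) g) (j i) ψ (S i) (K i) r 1) ∧
      ∀ ε : ℝ, 0 < ε → ∃ c : ℝ, 0 < c ∧ ∀ᶠ i in l, ∀ r : ℕ, ∀ ψ, 2 ≤ r → ε * n i ≤ r →
        (r : ℝ) ≤ κ * n i → Jmps (gr (n i) g) (j i) ψ →
        c * ∏ x ∈ S i, sF (K i x) (mm (gr (n i) g) x) r ≤
          av (rf (n i) P) (nW ZQ (rf (n i) P) ψ) := by
  obtain ⟨κ, hκ, S, K, X, hX, hS, h1, h2⟩ := fam_low' hP hg hn hj
  refine ⟨κ, hκ, S, K, X, hX, hS, h1, fun ε hε => ?_⟩
  obtain ⟨c, hc, h3⟩ := h2 ε hε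
  refine ⟨c, hc, ?_⟩
  filter_upwards [h1, h3, hn.eventually (eventually_gt_atTop 0)] with i hi h4 hi0 r ψ hr hε' hrn hψ
  rw [prod_typS, hi.1, St.FP_domV, ← HJ.envJ_Z hP hi0 (phC_of_fam hg hj hi0 hψ)]
  exact h4 r hr hε' hrn

end

end Pool.Agent.SixB.LowDF
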