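import Pool.Agent.Lib.SixB.S3HPkG
import Pool.Agent.Lib.SixB.S3LowDF

/-!
# 6BD step 3.8 (R18): the package of the polygon

* `lowDF : LowDF` from `LowDF.fam_low`; `pkDIn : ∀ s, HCmp.PkDIn s`.
-/

set_option autoImplicit false
set_option linter.unusedSectionVars false

namespace Pool.Agent.SixB.PkD

open Pool.Agent.Perc Pool.Agent.Perc.Q
open Pool.Agent.SixB Pool.Agent.SixB.PolyAtl
open Filter Topology

noncomputable section

theorem lowDF : PkD.LowDF := by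
  intro P L g hP hg ι l n hn j hj
  obtain ⟨κ, hκ, S, K, X, -, hcard, h1, h2⟩ := Pool.Agent.SixB.LowDF.fam_low hP hg hn hj
  refine ⟨κ, hκ, S, K, hcard, fun ε hε => ?_⟩
  obtain ⟨c, hc, h3⟩ := h2 ε hε
  refine ⟨c, hc, ?_⟩
  filter_upwards [h1, h3, hn.eventually_gt_atTop 0] with i hi1 hi3 hi0 r ψ hr hr1 hr2 hψ
  refine ⟨hi1.2 r ψ hr hr2 hψ.jump, (hi3 r ψ hr hr1 hr2 hψ.jump).trans (le_of_eq ?_)⟩
  refine av_congr (g := nW ZQ (rf (n i) P) ψ)
    (g' := WZ ZQ (rf (n i) P) ψ (bS ZQ (rf (n i) P))) fun T _ => ?_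
  exact Rel.nW_WZ Tilt.zq_noLoop fun X hX hX' =>
    (CARf.mpoly_rf hP hi0).clo4 hψ.cont _ X hX hX'

/-- **The package of the polygon.** -/
theorem pkDIn (s : ℕ) : HCmp.PkDIn s := pkDIn_of lowDF s

end

end Pool.Agent.SixB.PkD
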