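import Pool.Agent.Lib.SixB.S2Final
import Pool.Agent.Lib.SixB.AN6b

/-!
# 6BD step 3 (R22): the two point function of the insertion and its mirror image

* `S2_unif`: Theorem S2 of the plane, uniform over test functions (`JJ1`);
* `exists_nice`, `Nice.refl`: smooth functions with compact support;
* `thX X`: reflection of the plane in the vertical line `x = X`; `OneDir P f`: one direction of every side near
  the support of `f`;
* `zJJ X P f = ∑ e ∈ P, ∑ e' ∈ P, (f e.2 - f e.1) * (f e'.2 - f e'.1) * Kp e (θ e')`;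
* `JJ_null`: `zJJ → 0` if the support is at distance `≥ δ n` from the line.
-/

set_option autoImplicit false
set_option linter.unusedSectionVars false

namespace Pool.Agent.SixB.JJ

open Pool.Agent.Perc Pool.Agent.PercD Pool.Agent.Perc.Q Relation Filter Topology
open scoped ContDiff

noncomputable section

/-! ## Uniformity in Theorem S2 -/

/-- the double sum of Theorem S2 -/
def dsum (ψ₁ ψ₂ : ℝ × ℝ → ℝ) (n : ℕ) (S : Finset Edge) : ℝ :=
  ∑ e ∈ S, ∑ e' ∈ S, (lat ψ₁ n (ehd e) - lat ψ₁ n (etl e)) *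
    (lat ψ₂ n (ehd e') - lat ψ₂ n (etl e')) * KE e e'

/-- **Theorem S2 of the plane, uniform in the test functions.** -/
theorem S2_unif (B R δ ε : ℝ) (hδ : 0 < δ) (hε : 0 < ε) :
    ∃ n₀ : ℕ, ∀ n, n₀ ≤ n → ∀ ψ₁ ψ₂ : ℝ × ℝ → ℝ, Nice B R ψ₁ → Nice B R ψ₂ →
      (∀ p q : ℝ × ℝ, ψ₁ p ≠ 0 → ψ₂ q ≠ 0 → δ ≤ |p.1 - q.1| ∨ δ ≤ |p.2 - q.2|) →
      ∀ S : Finset Edge, ebx (rad R n) ⊆ S → |dsum ψ₁ ψ₂ n S| ≤ ε := by
  classical
  by_contra hcon
  push Not at hcon
  let Good : ℕ → (ℝ × ℝ → ℝ) × (ℝ × ℝ → ℝ) × Finset Edge → Prop := fun n x =>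
    Nice B R x.1 ∧ Nice B R x.2.1 ∧
      (∀ p q : ℝ × ℝ, x.1 p ≠ 0 → x.2.1 q ≠ 0 → δ ≤ |p.1 - q.1| ∨ δ ≤ |p.2 - q.2|) ∧
      ebx (rad R n) ⊆ x.2.2
  let Bad : ℕ → (ℝ × ℝ → ℝ) × (ℝ × ℝ → ℝ) × Finset Edge → Prop := fun n x =>
    Good n x ∧ ε < |dsum x.1 x.2.1 n x.2.2|
  have hbad : ∀ n₀ : ℕ, ∃ n, n₀ ≤ n ∧ ∃ x, Bad n x := by
    intro n₀
    obtain ⟨n, hn, ψ₁, ψ₂, h1, h2, h3, S, h4, h5⟩ := hcon n₀
    exact ⟨n, hn, (ψ₁, ψ₂, S), ⟨h1, h2, h3, h4⟩, h5⟩
  obtain ⟨n₁, -, y, hy, -⟩ := hbad 0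
  let c : ℕ → (ℝ × ℝ → ℝ) × (ℝ × ℝ → ℝ) × Finset Edge := fun n =>
    if h : ∃ x, Bad n x then h.choose else (y.1, y.2.1, ebx (rad R n))
  have hgood : ∀ n, Good n (c n) := by
    intro n
    by_cases h : ∃ x, Bad n x
    · have e1 : c n = h.choose := dif_pos h
      rw [e1]
      exact h.choose_spec.1
    · have e1 : c n = (y.1, y.2.1, ebx (rad R n)) := dif_neg h
      rw [e1]
      exact ⟨hy.1, hy.2.1, hy.2.2.1, Finset.Subset.refl _⟩
  have key := S2_plane B R δ hδ (fun n => (c n).1) (fun n => (c n).2.1) (fun n => (hgood n).1)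
    (fun n => (hgood n).2.1) (fun n => (hgood n).2.2.1) (fun n => (c n).2.2)
    (fun n => (hgood n).2.2.2)
  have h1 := key.abs
  rw [abs_zero] at h1
  obtain ⟨N, hN⟩ := eventually_atTop.mp (h1.eventually (gt_mem_nhds hε))
  obtain ⟨n, hn, x, hx⟩ := hbad N
  have h2 := hN n hn
  have h : ∃ x, Bad n x := ⟨x, hx⟩
  have e1 : c n = h.choose := dif_pos h
  have h3 := h.choose_spec.2
  rw [← e1] at h3
  unfold dsum at h3
  exact absurd h2 (not_lt.mpr h3.le)

/-! ## Test functions -/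

theorem nice_mono {B B' R R' : ℝ} {ψ : ℝ × ℝ → ℝ} (h : Nice B R ψ) (hB : B ≤ B') (hR : R ≤ R') :
    Nice B' R' ψ where
  smooth := h.smooth
  supp p hp := ⟨(h.supp p hp).1.trans hR, (h.supp p hp).2.trans hR⟩
  b0 p := (h.b0 p).trans hB
  bx2 x y := (h.bx2 x y).trans hB
  bx4 x y := (h.bx4 x y).trans hB
  by2 x y := (h.by2 x y).trans hB
  by4 x y := (h.by4 x y).trans hB

theorem deriv2_sub (φ : ℝ → ℝ) (c x : ℝ) :
    deriv (deriv (fun t => φ (c - t))) x = deriv (deriv φ) (c - x) := by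
  have e1 : deriv (fun t => φ (c - t)) = fun t => -deriv φ (c - t) := by
    funext t
    exact deriv_comp_const_sub φ c t
  rw [e1]
  have e2 : deriv (fun t => -deriv φ (c - t)) x = -deriv (fun t => deriv φ (c - t)) x := by
    exact deriv.fun_neg
  rw [e2, deriv_comp_const_sub (deriv φ) c x, neg_neg]

theorem deriv4_sub (φ : ℝ → ℝ) (c x : ℝ) :
    deriv (deriv (deriv (deriv (fun t => φ (c - t))))) x =
      deriv (deriv (deriv (deriv φ))) (c - x) := by
  have e1 : deriv (deriv (fun t => φ (c - t))) = fun t => deriv (deriv φ) (c - t) := by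
    funext t
    exact deriv2_sub φ c t
  rw [e1]
  exact deriv2_sub _ c x

/-- reflection of a test function -/
theorem nice_refl {B R c : ℝ} {ψ : ℝ × ℝ → ℝ} (h : Nice B R ψ) :
    Nice B (R + |c|) (fun p => ψ (c - p.1, p.2)) where
  smooth := by
    have h1 := h.smooth
    exact h1.comp (contDiff_const.sub contDiff_fst |>.prodMk contDiff_snd)
  supp p hp := by
    have h1 := h.supp _ hp
    refine ⟨?_, ?_⟩
    · have h2 : |p.1| ≤ |c - p.1| + |c| := by
        have h3 : p.1 = c - (c - p.1) := by ring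
        calc |p.1| = |c - (c - p.1)| := by rw [← h3]
          _ ≤ |c| + |c - p.1| := abs_sub _ _
          _ = _ := add_comm _ _
      exact h2.trans (add_le_add h1.1 le_rfl)
    · exact h1.2.trans (le_add_of_nonneg_right (abs_nonneg c))
  b0 p := h.b0 _
  bx2 x y := by
    have := deriv2_sub (fun t => ψ (t, y)) c x
    simp only at this ⊢
    rw [this]
    exact h.bx2 _ _
  bx4 x y := by
    have := deriv4_sub (fun t => ψ (t, y)) c x
    simp only at this ⊢
    rw [this]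
    exact h.bx4 _ _
  by2 x y := h.by2 (c - x) y
  by4 x y := h.by4 (c - x) y

theorem exists_px {ψ : ℝ × ℝ → ℝ} (h : ContDiff ℝ ∞ ψ) (hc : HasCompactSupport ψ) (v : ℝ × ℝ) :
    ContDiff ℝ ∞ (fun p => fderiv ℝ ψ p v) ∧ HasCompactSupport (fun p => fderiv ℝ ψ p v) := by
  constructor
  · exact (h.fderiv_right (m := ∞) (by simp)).clm_apply contDiff_const
  · exact hc.fderiv_apply (𝕜 := ℝ) v

theorem deriv_x {ψ : ℝ × ℝ → ℝ} (h : ContDiff ℝ ∞ ψ) (y : ℝ) :
    deriv (fun t => ψ (t, y)) = fun x => fderiv ℝ ψ (x, y) (1, 0) := by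
  funext x
  have h1 : HasFDerivAt ψ (fderiv ℝ ψ (x, y)) (x, y) :=
    (h.differentiable (by simp) (x, y)).hasFDerivAt
  have h2 : HasDerivAt (fun t : ℝ => (t, y)) ((1 : ℝ), (0 : ℝ)) x :=
    (hasDerivAt_id x).prodMk (hasDerivAt_const x y)
  exact (h1.comp_hasDerivAt x h2).deriv

theorem deriv_y {ψ : ℝ × ℝ → ℝ} (h : ContDiff ℝ ∞ ψ) (x : ℝ) :
    deriv (fun t => ψ (x, t)) = fun y => fderiv ℝ ψ (x, y) (0, 1) := by
  funext y
  have h1 : HasFDerivAt ψ (fderiv ℝ ψ (x, y)) (x, y) :=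
    (h.differentiable (by simp) (x, y)).hasFDerivAt
  have h2 : HasDerivAt (fun t : ℝ => (x, t)) ((0 : ℝ), (1 : ℝ)) y :=
    (hasDerivAt_const y x).prodMk (hasDerivAt_id y)
  exact (h1.comp_hasDerivAt y h2).deriv

theorem bound2 {ψ : ℝ × ℝ → ℝ} (h : ContDiff ℝ ∞ ψ) (hc : HasCompactSupport ψ) :
    ∃ B : ℝ, (∀ x y, |deriv (deriv (fun t => ψ (t, y))) x| ≤ B) ∧
      (∀ x y, |deriv (deriv (deriv (deriv (fun t => ψ (t, y))))) x| ≤ B) ∧
      (∀ x y, |deriv (deriv (fun t => ψ (x, t))) y| ≤ B) ∧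
      ∀ x y, |deriv (deriv (deriv (deriv (fun t => ψ (x, t))))) y| ≤ B := by
  have hb : ∀ {φ : ℝ × ℝ → ℝ}, ContDiff ℝ ∞ φ → HasCompactSupport φ → ∃ B, ∀ p, |φ p| ≤ B := by
    intro φ h1 h2
    obtain ⟨B, hB⟩ := h2.exists_bound_of_continuous h1.continuous
    exact ⟨B, fun p => by simpa using hB p⟩
  have dir : ∀ v : ℝ × ℝ, ∃ φ1 φ2 φ3 φ4 : ℝ × ℝ → ℝ, (∀ p, φ1 p = fderiv ℝ ψ p v) ∧
      (∀ p, φ2 p = fderiv ℝ φ1 p v) ∧ (∀ p, φ3 p = fderiv ℝ φ2 p v) ∧
      (∀ p, φ4 p = fderiv ℝ φ3 p v) ∧ ContDiff ℝ ∞ φ1 ∧ ContDiff ℝ ∞ φ2 ∧ ContDiff ℝ ∞ φ3 ∧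
      ContDiff ℝ ∞ φ4 ∧ HasCompactSupport φ2 ∧ HasCompactSupport φ4 := by
    intro v
    obtain ⟨a1, b1⟩ := exists_px h hc v
    obtain ⟨a2, b2⟩ := exists_px a1 b1 v
    obtain ⟨a3, b3⟩ := exists_px a2 b2 v
    obtain ⟨a4, b4⟩ := exists_px a3 b3 v
    exact ⟨_, _, _, _, fun _ => rfl, fun _ => rfl, fun _ => rfl, fun _ => rfl, a1, a2, a3, a4,
      b2, b4⟩
  obtain ⟨f1, f2, f3, f4, e1, e2, e3, e4, s1, s2, s3, s4, c2, c4⟩ := dir (1, 0)
  obtain ⟨g1, g2, g3, g4, k1, k2, k3, k4, t1, t2, t3, t4, d2, d4⟩ := dir (0, 1)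
  obtain ⟨B1, h1⟩ := hb s2 c2
  obtain ⟨B2, h2⟩ := hb s4 c4
  obtain ⟨B3, h3⟩ := hb t2 d2
  obtain ⟨B4, h4⟩ := hb t4 d4
  have x1 : ∀ y, deriv (fun t => ψ (t, y)) = fun x => f1 (x, y) := by
    intro y
    rw [deriv_x h]
    funext x
    rw [e1]
  have x2 : ∀ y, deriv (fun t => f1 (t, y)) = fun x => f2 (x, y) := by
    intro y
    rw [deriv_x s1]
    funext x
    rw [e2]
  have x3 : ∀ y, deriv (fun t => f2 (t, y)) = fun x => f3 (x, y) := by
    intro y
    rw [deriv_x s2]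
    funext x
    rw [e3]
  have x4 : ∀ y, deriv (fun t => f3 (t, y)) = fun x => f4 (x, y) := by
    intro y
    rw [deriv_x s3]
    funext x
    rw [e4]
  have y1 : ∀ x, deriv (fun t => ψ (x, t)) = fun y => g1 (x, y) := by
    intro x
    rw [deriv_y h]
    funext y
    rw [k1]
  have y2 : ∀ x, deriv (fun t => g1 (x, t)) = fun y => g2 (x, y) := by
    intro x
    rw [deriv_y t1]
    funext y
    rw [k2]
  have y3 : ∀ x, deriv (fun t => g2 (x, t)) = fun y => g3 (x, y) := by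
    intro x
    rw [deriv_y t2]
    funext y
    rw [k3]
  have y4 : ∀ x, deriv (fun t => g3 (x, t)) = fun y => g4 (x, y) := by
    intro x
    rw [deriv_y t3]
    funext y
    rw [k4]
  refine ⟨max (max B1 B2) (max B3 B4), fun x y => ?_, fun x y => ?_, fun x y => ?_, fun x y => ?_⟩
  · rw [x1, x2]
    exact (h1 _).trans ((le_max_left _ _).trans (le_max_left _ _))
  · rw [x1, x2, x3, x4]
    exact (h2 _).trans ((le_max_right _ _).trans (le_max_left _ _))
  · rw [y1, y2]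
    exact (h3 _).trans ((le_max_left _ _).trans (le_max_right _ _))
  · rw [y1, y2, y3, y4]
    exact (h4 _).trans ((le_max_right _ _).trans (le_max_right _ _))

/-- Smooth functions with compact support are test functions. -/
theorem exists_nice {ψ : ℝ × ℝ → ℝ} (h : ContDiff ℝ ∞ ψ) (hc : HasCompactSupport ψ) :
    ∃ B R : ℝ, 0 ≤ R ∧ Nice B R ψ := by
  obtain ⟨B1, h1, h2, h3, h4⟩ := bound2 h hc
  obtain ⟨B0, h0⟩ := hc.exists_bound_of_continuous h.continuous
  obtain ⟨R, hR⟩ := hc.isCompact.isBounded.subset_closedBall (0 : ℝ × ℝ)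
  refine ⟨max B0 B1, |R|, abs_nonneg _, ?_, ?_, ?_, ?_, ?_, ?_, ?_⟩
  · exact h.of_le (WithTop.coe_le_coe.mpr (le_top : ((4 : ℕ∞)) ≤ ⊤))
  · intro p hp
    have h5 : p ∈ tsupport ψ := subset_tsupport _ hp
    have h6 := hR h5
    rw [mem_closedBall_zero_iff, Prod.norm_def] at h6
    have h7 := le_abs_self R
    exact ⟨((le_max_left _ _).trans h6).trans h7, ((le_max_right _ _).trans h6).trans h7⟩
  · intro p
    have := h0 p
    rw [Real.norm_eq_abs] at this
    exact this.trans (le_max_left _ _)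
  · exact fun x y => (h1 x y).trans (le_max_right _ _)
  · exact fun x y => (h2 x y).trans (le_max_right _ _)
  · exact fun x y => (h3 x y).trans (le_max_right _ _)
  · exact fun x y => (h4 x y).trans (le_max_right _ _)

/-! ## Undirected edges -/

/-- the edge of a side -/
def un (a : DE) : Edge :=
  if a.2 = a.1 + (1, 0) then (a.1, false)
  else if a.2 = a.1 + (0, 1) then (a.1, true)
  else if a.1 = a.2 + (1, 0) then (a.2, false)
  else (a.2, true)

theorem un_de (E : Edge) : un (de E) = E := by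
  obtain ⟨⟨x, y⟩, b⟩ := E
  unfold un de
  cases b
  · simp
  · simp

theorem un_de_swap (E : Edge) : un (de E).swap = E := by
  obtain ⟨⟨x, y⟩, b⟩ := E
  unfold un de
  cases b
  · simp only [Prod.fst_swap, Prod.snd_swap, Prod.mk_add_mk, Bool.false_eq_true, if_false]
    rw [if_neg (by simp only [Prod.mk.injEq]; omega), if_neg (by simp only [Prod.mk.injEq]; omega)]
    simp
  · simp only [Prod.fst_swap, Prod.snd_swap, Prod.mk_add_mk, if_true]
    rw [if_neg (by simp only [Prod.mk.injEq]; omega), if_neg (by simp only [Prod.mk.injEq]; omega),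
      if_neg (by simp only [Prod.mk.injEq]; omega)]

/-- every side is an edge in one of its two directions -/
theorem ue_cases {a : DE} (h : Ue a) : a = de (un a) ∨ a = (de (un a)).swap := by
  obtain ⟨f, k, rfl⟩ := h
  rcases k4_cases k with rfl | rfl | rfl | rfl
  · left
    rw [← de_false, un_de]
  · left
    rw [← de_right, un_de]
  · right
    rw [← de_top, un_de_swap]
  · right
    rw [← de_left, un_de_swap]

/-- one direction of every side near the support of `f` -/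
structure OneDir (P : Finset DE) (f : ℤ × ℤ → ℝ) : Prop where
  ue : ∀ a ∈ P, Ue a
  one : ∀ a ∈ P, a.swap ∉ P
  all : ∀ a, Ue a → (f a.1 ≠ 0 ∨ f a.2 ≠ 0) → a ∈ P ∨ a.swap ∈ P

theorem OneDir.inj {P : Finset DE} {f : ℤ × ℤ → ℝ} (H : OneDir P f) :
    Set.InjOn un (P : Set DE) := by
  intro a ha b hb hab
  have ha' : a ∈ P := ha
  have hb' : b ∈ P := hb
  rcases ue_cases (H.ue a ha') with h1 | h1 <;> rcases ue_cases (H.ue b hb') with h2 | h2
  · rw [h1, h2, hab]
  · exfalso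
    apply H.one a ha'
    have : a.swap = b := by rw [h1, h2, hab]
    rw [this]
    exact hb'
  · exfalso
    apply H.one b hb'
    have : b.swap = a := by rw [h1, h2, hab]
    rw [this]
    exact ha'
  · rw [h1, h2, hab]

theorem OneDir.sum {P : Finset DE} {f : ℤ × ℤ → ℝ} (H : OneDir P f) {T : DE → ℝ}
    (hT : ∀ a, Ue a → T a.swap = T a) (h0 : ∀ a, Ue a → f a.1 = 0 → f a.2 = 0 → T a = 0)
    {S : Finset Edge} (hS : P.image un ⊆ S) : ∑ a ∈ P, T a = ∑ E ∈ S, T (de E) := by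
  classical
  have e1 : ∑ a ∈ P, T a = ∑ E ∈ P.image un, T (de E) := by
    rw [Finset.sum_image H.inj]
    refine Finset.sum_congr rfl fun a ha => ?_
    rcases ue_cases (H.ue a ha) with h1 | h1
    · rw [← h1]
    · have h2 : (de (un a)) = a.swap := by
        conv_rhs => rw [h1]
        rw [Prod.swap_swap]
      rw [h2, hT a (H.ue a ha)]
  rw [e1]
  refine Finset.sum_subset hS fun E _ hE => ?_
  have hu := Ue_de E
  by_contra hne
  have h1 : f (de E).1 ≠ 0 ∨ f (de E).2 ≠ 0 := by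
    by_contra hcon
    push Not at hcon
    exact hne (h0 _ hu hcon.1 hcon.2)
  apply hE
  rcases H.all _ hu h1 with h2 | h2
  · exact Finset.mem_image.mpr ⟨_, h2, un_de E⟩
  · exact Finset.mem_image.mpr ⟨_, h2, un_de_swap E⟩

/-! ## The reflection -/

/-- reflection in the vertical line `x = X` -/
def thX (X : ℤ) (v : ℤ × ℤ) : ℤ × ℤ := (2 * X - v.1, v.2)

theorem thX_thX (X : ℤ) (v : ℤ × ℤ) : thX X (thX X v) = v := by
  unfold thX
  exact Prod.ext (by simp only; ring) rfl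

/-- reflection of sides -/
def thA (X : ℤ) (a : DE) : DE := Prod.map (thX X) (thX X) a

theorem thA_swap (X : ℤ) (a : DE) : thA X a.swap = (thA X a).swap := rfl

/-- reflection of edges -/
def thE (X : ℤ) (E : Edge) : Edge :=
  if E.2 then ((2 * X - E.1.1, E.1.2), true) else ((2 * X - 1 - E.1.1, E.1.2), false)

theorem thE_thE (X : ℤ) (E : Edge) : thE X (thE X E) = E := by
  obtain ⟨⟨x, y⟩, b⟩ := E
  unfold thE
  cases b
  · simp
  · simp

theorem thE_inj (X : ℤ) : Function.Injective (thE X) := fun E E' h => by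
  rw [← thE_thE X E, h, thE_thE]

/-- reflection of the directed edge -/
theorem thA_de (X : ℤ) (E : Edge) :
    thA X (de E) = if E.2 then de (thE X E) else (de (thE X E)).swap := by
  obtain ⟨⟨x, y⟩, b⟩ := E
  unfold thA thX thE de
  cases b
  · simp only [Prod.map, Prod.mk_add_mk, Bool.false_eq_true, if_false, Prod.swap_prod_mk, Prod.mk.injEq]
    refine ⟨⟨by ring, by ring⟩, by ring, by ring⟩
  · simp only [Prod.map, Prod.mk_add_mk, if_true]
    refine Prod.ext (Prod.ext rfl rfl) (Prod.ext ?_ rfl)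
    simp only [add_zero]

theorem ue_thA {X : ℤ} {a : DE} (h : Ue a) : Ue (thA X a) := by
  have key : ∀ E : Edge, Ue (thA X (de E)) := by
    intro E
    rw [thA_de]
    split_ifs
    · exact Ue_de _
    · exact (Ue_de _).swap
  rcases ue_cases h with h1 | h1
  · rw [h1]
    exact key _
  · rw [h1, thA_swap]
    exact (key _).swap

/-- the two point function of the insertion and its mirror image -/
def zJJ (X : ℤ) (P : Finset DE) (f : ℤ × ℤ → ℝ) : ℝ :=
  ∑ e ∈ P, ∑ e' ∈ P, (f e.2 - f e.1) * (f e'.2 - f e'.1) * Kp e (thA X e')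

theorem de_ends (E : Edge) : (de E).1 = etl E ∧ (de E).2 = ehd E := by
  obtain ⟨v, b⟩ := E
  unfold de etl ehd
  exact ⟨rfl, rfl⟩

theorem grad_refl (X : ℤ) (f : ℤ × ℤ → ℝ) (e : DE) (he : Ue e) (E : Edge) :
    (f (ehd E) - f (etl E)) * Kp e (thA X (de E)) =
      (f (thX X (ehd (thE X E))) - f (thX X (etl (thE X E)))) * Kp e (de (thE X E)) := by
  have h2 : thA X (de (thE X E)) = if E.2 then de E else (de E).swap := by
    rw [thA_de, thE_thE]
    have h3 : (thE X E).2 = E.2 := by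
      unfold thE
      cases E.2 <;> simp
    rw [h3]
  have hd := de_ends (thE X E)
  have hd' := de_ends E
  have h4 : thX X (etl (thE X E)) = (thA X (de (thE X E))).1 := by
    unfold thA
    rw [← hd.1]
    rfl
  have h5 : thX X (ehd (thE X E)) = (thA X (de (thE X E))).2 := by
    unfold thA
    rw [← hd.2]
    rfl
  rw [h4, h5, h2, thA_de]
  by_cases hE : E.2 = true
  · rw [if_pos hE, if_pos hE, hd'.1, hd'.2]
  · rw [if_neg hE, if_neg hE, Prod.fst_swap, Prod.snd_swap, hd'.1, hd'.2,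
      Kp_swap' he (Ue_de _)]
    ring

/-- **The double sum over edges.** -/
theorem zJJ_eq {X : ℤ} {P : Finset DE} {f : ℤ × ℤ → ℝ} (H : OneDir P f) {S : Finset Edge}
    (hS : P.image un ⊆ S) (hS' : (P.image un).image (thE X) ⊆ S) :
    zJJ X P f = ∑ E ∈ S, ∑ E' ∈ S, (f (ehd E) - f (etl E)) *
      (f (thX X (ehd E')) - f (thX X (etl E'))) * KE E E' := by
  classical
  have inner : ∀ e, Ue e → ∑ e' ∈ P, (f e'.2 - f e'.1) * Kp e (thA X e') =
      ∑ E' ∈ S, (f (thX X (ehd E')) - f (thX X (etl E'))) * Kp e (de E') := by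
    intro e he
    rw [H.sum (T := fun e' => (f e'.2 - f e'.1) * Kp e (thA X e')) ?_ ?_ (Finset.Subset.refl _)]
    · have e1 : ∀ E ∈ P.image un, (f (de E).2 - f (de E).1) * Kp e (thA X (de E)) =
          (fun E' => (f (thX X (ehd E')) - f (thX X (etl E'))) * Kp e (de E')) (thE X E) := by
        intro E _
        have h1 := grad_refl X f e he E
        rw [(de_ends E).1, (de_ends E).2]
        exact h1
      rw [Finset.sum_congr rfl e1, ← Finset.sum_image (f := fun E' =>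
        (f (thX X (ehd E')) - f (thX X (etl E'))) * Kp e (de E')) (fun _ _ _ _ h => thE_inj X h)]
      refine Finset.sum_subset hS' fun E _ hE => ?_
      have hE' : thE X E ∉ P.image un := fun h => hE (Finset.mem_image.mpr ⟨_, h, thE_thE X E⟩)
      have hz : f (etl (thE X E)) = 0 ∧ f (ehd (thE X E)) = 0 := by
        by_contra hcon
        have h1 : f (de (thE X E)).1 ≠ 0 ∨ f (de (thE X E)).2 ≠ 0 := by
          rw [(de_ends _).1, (de_ends _).2]
          by_contra h2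
          push Not at h2
          exact hcon h2
        rcases H.all _ (Ue_de _) h1 with h2 | h2
        · exact hE' (Finset.mem_image.mpr ⟨_, h2, un_de _⟩)
        · exact hE' (Finset.mem_image.mpr ⟨_, h2, un_de_swap _⟩)
      have h3 := grad_refl X f e he (thE X E)
      rw [thE_thE, hz.1, hz.2, sub_self, zero_mul] at h3
      exact h3.symm
    · intro a ha
      simp only [Prod.fst_swap, Prod.snd_swap]
      rw [thA_swap, Kp_swap' he (ue_thA ha)]
      ring
    · intro a _ h1 h2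
      simp only [h1, h2, sub_self, zero_mul]
  unfold zJJ
  have e2 : ∀ e ∈ P, ∑ e' ∈ P, (f e.2 - f e.1) * (f e'.2 - f e'.1) * Kp e (thA X e') =
      (fun e => (f e.2 - f e.1) *
        ∑ E' ∈ S, (f (thX X (ehd E')) - f (thX X (etl E'))) * Kp e (de E')) e := by
    intro e he
    simp only
    rw [← inner e (H.ue e he), Finset.mul_sum]
    exact Finset.sum_congr rfl fun _ _ => by ring
  rw [Finset.sum_congr rfl e2, H.sum (T := fun e => (f e.2 - f e.1) *
    ∑ E' ∈ S, (f (thX X (ehd E')) - f (thX X (etl E'))) * Kp e (de E')) ?_ ?_ hS]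
  · refine Finset.sum_congr rfl fun E _ => ?_
    rw [(de_ends E).1, (de_ends E).2, Finset.mul_sum]
    refine Finset.sum_congr rfl fun E' _ => ?_
    unfold KE
    ring
  · intro a ha
    simp only [Prod.fst_swap, Prod.snd_swap]
    have e3 : ∑ E' ∈ S, (f (thX X (ehd E')) - f (thX X (etl E'))) * Kp a.swap (de E') =
        -∑ E' ∈ S, (f (thX X (ehd E')) - f (thX X (etl E'))) * Kp a (de E') := by
      rw [← Finset.sum_neg_distrib]
      refine Finset.sum_congr rfl fun E' _ => ?_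
      rw [Kp_swap ha (Ue_de _)]
      ring
    rw [e3]
    ring
  · intro a _ h1 h2
    simp only [h1, h2, sub_self, zero_mul]

/-! ## The limit -/

theorem lat_refl (ψ : ℝ × ℝ → ℝ) {n : ℕ} (hn : 0 < n) (X : ℤ) (v : ℤ × ℤ) :
    lat (fun p => ψ (2 * X / n - p.1, p.2)) n v = lat ψ n (thX X v) := by
  unfold lat thX
  have hn' : (n : ℝ) ≠ 0 := by exact_mod_cast hn.ne'
  simp only
  congr 2
  push_cast
  field_simp

/-- **The mirror two point function is small**, uniformly in the test function and the line. -/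
theorem zJJ_small (B R K δ ε : ℝ) (hδ : 0 < δ) (hε : 0 < ε) :
    ∃ n₀ : ℕ, ∀ n, n₀ ≤ n → ∀ ψ : ℝ × ℝ → ℝ, Nice B R ψ → ∀ X : ℤ, |2 * (X : ℝ) / n| ≤ K →
      ((∀ p : ℝ × ℝ, ψ p ≠ 0 → p.1 + δ ≤ X / n) ∨ (∀ p : ℝ × ℝ, ψ p ≠ 0 → X / n + δ ≤ p.1)) →
      ∀ P : Finset DE, OneDir P (lat ψ n) → |zJJ X P (lat ψ n)| ≤ ε := by
  classical
  obtain ⟨n₀, hn₀⟩ := S2_unif B (R + K) δ ε hδ hε
  refine ⟨max n₀ 1, fun n hn ψ hψ X hX hs P hP => ?_⟩
  have hn1 : 0 < n := lt_of_lt_of_le one_pos ((le_max_right _ _).trans hn)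
  have hK : 0 ≤ K := (abs_nonneg _).trans hX
  have h1 : Nice B (R + K) ψ := nice_mono hψ le_rfl (le_add_of_nonneg_right hK)
  have h2 : Nice B (R + K) (fun p => ψ (2 * X / n - p.1, p.2)) :=
    nice_mono (nice_refl hψ) le_rfl (by linarith)
  set S : Finset Edge := (ebx (rad (R + K) n) ∪ P.image un) ∪ (P.image un).image (thE X) with hS
  have s0 : ebx (rad (R + K) n) ⊆ S := Finset.subset_union_left.trans Finset.subset_union_left
  have s1 : P.image un ⊆ S := Finset.subset_union_right.trans Finset.subset_union_left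
  have s2 : (P.image un).image (thE X) ⊆ S := Finset.subset_union_right
  have key := hn₀ n ((le_max_left _ _).trans hn) ψ (fun p => ψ (2 * X / n - p.1, p.2)) h1 h2 ?_ S s0
  · rw [zJJ_eq hP s1 s2]
    unfold dsum at key
    simp only [lat_refl ψ hn1 X] at key
    exact key
  · intro p q hp hq
    left
    rcases hs with hs | hs
    · have a1 := hs p hp
      have a2 := hs _ hq
      simp only at a2
      rw [le_abs]
      right
      have e1 : 2 * (X : ℝ) / n = X / n + X / n := by ring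
      rw [e1] at a2
      linarith
    · have a1 := hs p hp
      have a2 := hs _ hq
      simp only at a2
      rw [le_abs]
      left
      have e1 : 2 * (X : ℝ) / n = X / n + X / n := by ring
      rw [e1] at a2
      linarith

/-- **The mirror two point function is null.** -/
theorem zJJ_null {ι : Type*} {l : Filter ι} {n : ι → ℕ} (hn : Tendsto n l atTop) {B R K δ : ℝ}
    (hδ : 0 < δ) {ψ : ι → ℝ × ℝ → ℝ} (hψ : ∀ i, Nice B R (ψ i)) {X : ι → ℤ}
    (hX : ∀ᶠ i in l, |2 * (X i : ℝ) / n i| ≤ K)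
    (hs : ∀ᶠ i in l, (∀ p : ℝ × ℝ, ψ i p ≠ 0 → p.1 + δ ≤ X i / n i) ∨
      (∀ p : ℝ × ℝ, ψ i p ≠ 0 → X i / n i + δ ≤ p.1)) {P : ι → Finset DE}
    (hP : ∀ᶠ i in l, OneDir (P i) (lat (ψ i) (n i))) :
    Tendsto (fun i => zJJ (X i) (P i) (lat (ψ i) (n i))) l (𝓝 0) := by
  rw [Metric.tendsto_nhds]
  intro ε hε
  obtain ⟨n₀, hn₀⟩ := zJJ_small B R K δ (ε / 2) hδ (by positivity)
  filter_upwards [hX, hs, hn.eventually_ge_atTop n₀, hP] with i h1 h2 h3 hPi
  have h4 := hn₀ (n i) h3 (ψ i) (hψ i) (X i) h1 h2 (P i) hPi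
  rw [Real.dist_eq, sub_zero]
  linarith

/-- the test function `χ ((x - z) / r)` -/
def tst (χ : ℂ → ℝ) (z : ℂ) (r : ℝ) (p : ℝ × ℝ) : ℝ := χ (((⟨p.1, p.2⟩ : ℂ) - z) / r)

theorem lat_tst (χ : ℂ → ℝ) (z : ℂ) (r : ℝ) (n : ℕ) (v : ℤ × ℤ) :
    lat (tst χ z r) n v = χ ((DC.mesh n v - z) / r) := rfl

theorem tst_smooth {χ : ℂ → ℝ} (h : ContDiff ℝ ∞ χ) (z : ℂ) (r : ℝ) : ContDiff ℝ ∞ (tst χ z r) := by
  have h1 : ContDiff ℝ ∞ (fun p : ℝ × ℝ => ((⟨p.1, p.2⟩ : ℂ) - z) / r) := by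
    have h2 : (fun p : ℝ × ℝ => ((⟨p.1, p.2⟩ : ℂ) - z) / r) =
        fun p : ℝ × ℝ => (Complex.equivRealProdCLM.symm p - z) / r := rfl
    rw [h2]
    exact (Complex.equivRealProdCLM.symm.contDiff.sub contDiff_const).div_const _
  exact h.comp h1

theorem tst_supp {χ : ℂ → ℝ} {R₀ : ℝ} (hR : ∀ x, χ x ≠ 0 → ‖x‖ ≤ R₀) (z : ℂ) {r : ℝ} (hr : 0 < r)
    {p : ℝ × ℝ} (hp : tst χ z r p ≠ 0) : |p.1 - z.re| ≤ R₀ * r ∧ |p.2 - z.im| ≤ R₀ * r := by
  have h1 := hR _ hp
  rw [norm_div, Complex.norm_real, Real.norm_eq_abs, abs_of_pos hr, div_le_iff₀ hr] at h1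
  exact ⟨(Complex.abs_re_le_norm ((⟨p.1, p.2⟩ : ℂ) - z)).trans h1,
    (Complex.abs_im_le_norm ((⟨p.1, p.2⟩ : ℂ) - z)).trans h1⟩

theorem tst_compact {χ : ℂ → ℝ} (hc : HasCompactSupport χ) (z : ℂ) {r : ℝ} (hr : 0 < r) :
    HasCompactSupport (tst χ z r) := by
  obtain ⟨R₀, hR⟩ := hc.isCompact.isBounded.subset_closedBall (0 : ℂ)
  have h1 : ∀ x, χ x ≠ 0 → ‖x‖ ≤ R₀ := fun x hx => by
    have := hR (subset_tsupport _ hx)
    rwa [mem_closedBall_zero_iff] at this
  refine HasCompactSupport.of_support_subset_isCompact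
    (isCompact_closedBall (⟨z.re, z.im⟩ : ℝ × ℝ) (R₀ * r)) ?_
  intro p hp
  have h2 := tst_supp h1 z hr hp
  rw [Metric.mem_closedBall, Prod.dist_eq, Real.dist_eq, Real.dist_eq]
  exact max_le h2.1 h2.2

/-- **The mirror two point function of the profile `χ ((DC.mesh n v - z) / r)` is null.** -/
theorem JJ_null {ι : Type*} {l : Filter ι} {n : ι → ℕ} (hn : Tendsto n l atTop) {χ : ℂ → ℝ}
    (h : ContDiff ℝ ∞ χ) (hc : HasCompactSupport χ) {R₀ : ℝ} (hR : ∀ x, χ x ≠ 0 → ‖x‖ ≤ R₀)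
    (z : ℂ) {r δ K : ℝ} (hr : 0 < r) (hδ : 0 < δ) {X : ι → ℤ}
    (hX : ∀ᶠ i in l, |(X i : ℝ)| ≤ K * n i)
    (hs : ∀ᶠ i in l, (z.re + R₀ * r + δ) * n i ≤ X i ∨ X i ≤ (z.re - R₀ * r - δ) * n i)
    {P : ι → Finset DE}
    (hP : ∀ᶠ i in l, OneDir (P i) (fun v => χ ((DC.mesh (n i) v - z) / r))) :
    Tendsto (fun i => zJJ (X i) (P i) (fun v => χ ((DC.mesh (n i) v - z) / r))) l (𝓝 0) := by
  obtain ⟨B, R, -, hN⟩ := exists_nice (tst_smooth h z r) (tst_compact hc z hr)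
  have e : ∀ i, lat (tst χ z r) (n i) = fun v => χ ((DC.mesh (n i) v - z) / r) :=
    fun i => funext fun v => lat_tst χ z r (n i) v
  have hP' : ∀ᶠ i in l, OneDir (P i) (lat (tst χ z r) (n i)) := by
    filter_upwards [hP] with i hi
    rw [e i]
    exact hi
  have e' : (fun i => zJJ (X i) (P i) (fun v => χ ((DC.mesh (n i) v - z) / r))) =
      fun i => zJJ (X i) (P i) (lat (tst χ z r) (n i)) := by
    funext i
    rw [e i]
  rw [e']
  refine zJJ_null (B := B) (R := R) (K := 2 * K) (δ := δ) (ψ := fun _ => tst χ z r) hn hδ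
    (fun _ => hN) ?_ ?_ hP'
  · filter_upwards [hX, hn.eventually_gt_atTop 0] with i h1 h2
    have h3 : (0 : ℝ) < n i := by exact_mod_cast h2
    rw [abs_div, abs_mul, abs_of_pos (by norm_num : (0 : ℝ) < 2), Nat.abs_cast, div_le_iff₀ h3]
    linarith
  · filter_upwards [hs, hn.eventually_gt_atTop 0] with i h1 h2
    have h3 : (0 : ℝ) < n i := by exact_mod_cast h2
    rcases h1 with h1 | h1
    · left
      intro p hp
      have h4 := (abs_le.mp (tst_supp hR z hr hp).1).2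
      rw [le_div_iff₀ h3]
      refine le_trans ?_ h1
      exact mul_le_mul_of_nonneg_right (by linarith) h3.le
    · right
      intro p hp
      have h4 := (abs_le.mp (tst_supp hR z hr hp).1).1
      have h5 : (X i : ℝ) / n i ≤ z.re - R₀ * r - δ := by
        rw [div_le_iff₀ h3]
        exact h1
      linarith

end

end Pool.Agent.SixB.JJ
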