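import Pool.Agent.Lib.SixB.S3AsmC
import Pool.Agent.Lib.SixB.S3JJ

/-!
# 6BD step 3: the premise `JJIn`

The two point function of the insertion of a slab and its mirror image in the column `n (X₁ - 4)` tends to zero
(Theorem S2 of the plane, `S3JJ`).
-/

set_option autoImplicit false
set_option linter.unusedSectionVars false

namespace Pool.Agent.SixB.Asm3

open Complex Filter Topology Metric
open Pool.Agent.Perc Pool.Agent.Perc.Q

noncomputable section

/-- the sides of a rectangle, one direction of every side -/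
theorem oneDir_EP {x₀ x₁ y₀ y₁ : ℤ} {f : ℤ × ℤ → ℝ} (hf : Op.Inside x₀ x₁ y₀ y₁ f) :
    JJ.OneDir (Ins.EP (RF x₀ x₁ y₀ y₁)) f where
  ue a ha := by
    obtain ⟨h1, -⟩ := Ins.mem_EP.mp ha
    obtain ⟨g, -, k, rfl | rfl⟩ := mem_dE.mp h1
    · exact ⟨g, k, rfl⟩
    · exact Ue.swap ⟨g, k, rfl⟩
  one a ha ha' := by
    obtain ⟨-, b, h1⟩ := Ins.mem_EP.mp ha
    obtain ⟨-, c, h2⟩ := Ins.mem_EP.mp ha'
    obtain ⟨⟨x, y⟩, v⟩ := a
    simp only [Prod.swap_prod_mk] at h1 h2
    subst h1
    cases b <;> cases c <;> simp only [Ins.stp, Bool.false_eq_true, if_false, if_true,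
      Prod.mk.injEq] at h2 <;> omega
  all a ha h := by
    have key : ∀ E : Edge, (f (de E).1 ≠ 0 ∨ f (de E).2 ≠ 0) → de E ∈ Ins.EP (RF x₀ x₁ y₀ y₁) := by
      rintro ⟨⟨x, y⟩, b⟩ hE
      have hin : ∀ p : ℤ × ℤ, f p ≠ 0 → x₀ + 1 < p.1 ∧ p.1 < x₁ - 1 ∧ y₀ + 1 < p.2 ∧ p.2 < y₁ - 1 := by
        intro p hp
        by_contra hcon
        exact hp (hf p hcon)
      cases b
      · have e1 : de ((x, y), false) = ((x, y), (x + 1, y)) := by
          unfold de
          simp
        rw [e1] at hE ⊢
        refine Ins.mem_EP.mpr ⟨?_, false, rfl⟩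
        rcases hE with h1 | h1
        · have h2 := hin _ h1
          simp only at h2
          exact Ins.hor_mem (by omega) (by omega) (by omega) (by omega) (by omega)
        · have h2 := hin _ h1
          simp only at h2
          exact Ins.hor_mem (by omega) (by omega) (by omega) (by omega) (by omega)
      · have e1 : de ((x, y), true) = ((x, y), (x, y + 1)) := by
          unfold de
          simp
        rw [e1] at hE ⊢
        refine Ins.mem_EP.mpr ⟨?_, true, rfl⟩
        rcases hE with h1 | h1
        · have h2 := hin _ h1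
          simp only at h2
          exact Ins.ver_mem (by omega) (by omega) (by omega) (by omega) (by omega)
        · have h2 := hin _ h1
          simp only at h2
          exact Ins.ver_mem (by omega) (by omega) (by omega) (by omega) (by omega)
    rcases JJ.ue_cases ha with h1 | h1
    · left
      rw [h1] at h ⊢
      exact key _ h
    · right
      have h2 : a.swap = de (JJ.un a) := by
        conv_lhs => rw [h1]
        rw [Prod.swap_swap]
      rw [h2]
      refine key _ ?_
      rw [← h2]
      exact h.symm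

/-- **The premise `JJIn`.** -/
theorem jjIn : JJIn := by
  intro P L g hP hg ι l n hn j hj z0 hz0 D
  refine ⟨1, one_pos, fun z hz r hr hr1 => ?_⟩
  have hκ := D.hκ
  have hκ' := D.hκ'
  have e1 : |z.re - z0.re| < D.κ / 4 := by
    have h3 := mem_ball.mp hz
    rw [dist_eq] at h3
    have h4 := abs_re_le_norm (z - z0)
    rw [sub_re] at h4
    linarith
  have hX := D.hX₁
  have hz1 : (D.X₁ : ℝ) < z.re := by
    have := (abs_lt.mp e1).1
    linarith
  have hR : ∀ x, prof x ≠ 0 → ‖x‖ ≤ 1 := by
    intro x hx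
    have := prof_tsupport (subset_tsupport _ hx)
    rwa [mem_closedBall_zero_iff] at this
  have hP' : ∀ᶠ i in l, JJ.OneDir (Ins.EP (D.rc z r i))
      (fun v => prof ((DC.mesh (n i) v - z) / r)) := by
    filter_upwards [D.inside hn z hr] with i hi
    exact oneDir_EP hi
  have key := JJ.JJ_null (X := D.X0) (K := |(D.X₁ : ℝ) - 4|) hn prof_smooth prof_supp hR z hr one_pos
    ?_ ?_ hP'
  · exact key
  · refine Eventually.of_forall fun i => ?_
    have e2 : ((D.X0 i : ℤ) : ℝ) = n i * ((D.X₁ : ℝ) - 4) := by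
      unfold SFam.X0
      push_cast
      ring
    rw [e2, abs_mul, Nat.abs_cast, mul_comm]
  · refine Eventually.of_forall fun i => Or.inr ?_
    have e2 : ((D.X0 i : ℤ) : ℝ) = ((D.X₁ : ℝ) - 4) * n i := by
      unfold SFam.X0
      push_cast
      ring
    rw [e2]
    refine mul_le_mul_of_nonneg_right ?_ (Nat.cast_nonneg _)
    linarith

end

end Pool.Agent.SixB.Asm3
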