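import Pool.Agent.Lib.SixB.S3Path

/-!
# 6BD step 3, rows R7, R21: assembling atlases with their types

* `PAV Q F ψ Z C r nN t₀ S4 S1 N2 G M`: there is a partial atlas whose special boxes of radius `4 r` (radius `r`)
  lie in `S4` (`S1`), whose natural boxes lie in `N2`, all faces of all charts lie in `G`, the natural charts are
  flat (`m' = 2`, jump `0`), there are no mouths, and `M` is the multiset of the types `(K i, m i)` of the special
  charts (`nS = card M`).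
* `PAV.toPA`, `PAV.of`, `PAV.mono`, `PAV.zmono`, `PAV.empty`, `PAV.union`, `PAV.fam`, `PAV.one`, `PAV.nfam`,
  `PAV.segment`, `PAV.restr`, `PAV.atlas`.
-/

set_option autoImplicit false
set_option linter.unusedSectionVars false

namespace Pool.Agent.SixB

open Pool.Agent.Perc.Q Pool.Agent.Perc

noncomputable section

variable {V Φ : Type} [DecidableEq V] [DecidableEq Φ]

/-- a partial atlas with types, flat natural charts, without mouths, boxes in given regions -/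
def PAV (Q : QC V Φ) (F : Finset Φ) (ψ : V × V → ℝ) (Z C : Finset (V × V)) (r nN : ℕ) (t₀ : ℝ)
    (S4 S1 N2 G : Set Φ) (M : Multiset (SK × ℕ)) : Prop :=
  ∃ A : PAtlas Q F ψ Z C r (Multiset.card M) nN t₀, (∀ i, ∀ f ∈ (A.ch i).box (4 * r), f ∈ S4) ∧
    (∀ i, ∀ f ∈ (A.ch i).box r, f ∈ S1) ∧ (∀ i, ∀ f ∈ (A.nch i).box (2 * r), f ∈ N2) ∧
    (∀ i, ∀ f ∈ Wdg (A.m i) (A.o i) (A.v i) (4 * r + 1), (A.ch i).φF f ∈ G) ∧
    (∀ i, ∀ f ∈ Wdg (A.m' i) (A.o' i) (A.v' i) (2 * r + 1), (A.nch i).φF f ∈ G) ∧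
    (∀ i, A.m' i = 2 ∧ (A.nch i).Jump ψ 0) ∧ IsEmpty A.μ ∧
    (Finset.univ : Finset A.κ).val.map (fun i => (A.K i, A.m i)) = M

variable {Q : QC V Φ} {F F' : Finset Φ} {ψ : V × V → ℝ} {Z Z' C C' : Finset (V × V)}
  {r nS nN nN' : ℕ} {t₀ : ℝ} {S4 S1 N2 G S4' S1' N2' G' : Set Φ} {M M' : Multiset (SK × ℕ)}

theorem PAV.toPA (h : PAV Q F ψ Z C r nN t₀ S4 S1 N2 G M) :
    PA Q F ψ Z C r (Multiset.card M) nN t₀ S4 S1 N2 := by
  obtain ⟨A, a1, a2, a3, -, -, -, a7, -⟩ := h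
  exact ⟨A, a1, a2, a3, fun i => a7.elim i⟩

/-- from an atlas with any bound of the number of special charts -/
theorem PAV.of (A : PAtlas Q F ψ Z C r nS nN t₀) (a1 : ∀ i, ∀ f ∈ (A.ch i).box (4 * r), f ∈ S4)
    (a2 : ∀ i, ∀ f ∈ (A.ch i).box r, f ∈ S1) (a3 : ∀ i, ∀ f ∈ (A.nch i).box (2 * r), f ∈ N2)
    (a4 : ∀ i, ∀ f ∈ Wdg (A.m i) (A.o i) (A.v i) (4 * r + 1), (A.ch i).φF f ∈ G)
    (a5 : ∀ i, ∀ f ∈ Wdg (A.m' i) (A.o' i) (A.v' i) (2 * r + 1), (A.nch i).φF f ∈ G)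
    (a6 : ∀ i, A.m' i = 2 ∧ (A.nch i).Jump ψ 0) (a7 : IsEmpty A.μ)
    (a8 : (Finset.univ : Finset A.κ).val.map (fun i => (A.K i, A.m i)) = M) :
    PAV Q F ψ Z C r nN t₀ S4 S1 N2 G M :=
  ⟨{ A with cardS := (by rw [← a8, Multiset.card_map]; exact le_of_eq rfl) },
    a1, a2, a3, a4, a5, a6, a7, a8⟩

theorem PAV.mono (h : PAV Q F ψ Z C r nN t₀ S4 S1 N2 G M) (hC : C' ⊆ C) (hN : nN ≤ nN')
    (h4 : S4 ⊆ S4') (h1 : S1 ⊆ S1') (h2 : N2 ⊆ N2') (hG : G ⊆ G') :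
    PAV Q F ψ Z C' r nN' t₀ S4' S1' N2' G' M := by
  obtain ⟨A, a1, a2, a3, a4, a5, a6, a7, a8⟩ := h
  exact ⟨A.mono (Finset.Subset.refl _) hC le_rfl hN, fun i f hf => h4 (a1 i f hf),
    fun i f hf => h1 (a2 i f hf), fun i f hf => h2 (a3 i f hf), fun i f hf => hG (a4 i f hf),
    fun i f hf => hG (a5 i f hf), a6, a7, a8⟩

theorem PAV.zmono (h : PAV Q F ψ Z C r nN t₀ S4 S1 N2 G M) (hZ : Z ⊆ Z') :
    PAV Q F ψ Z' C r nN t₀ S4 S1 N2 G M := by
  obtain ⟨A, a1, a2, a3, a4, a5, a6, a7, a8⟩ := h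
  exact ⟨A.mono hZ (Finset.Subset.refl _) le_rfl le_rfl, a1, a2, a3, a4, a5, a6, a7, a8⟩

/-- no chart -/
theorem PAV.empty : PAV Q F ψ Z ∅ r 0 t₀ ∅ ∅ ∅ ∅ 0 :=
  ⟨PAtlas.empty Q F ψ Z r t₀, fun i => i.elim, fun i => i.elim, fun i => i.elim,
    fun i => i.elim, fun i => i.elim, fun i => i.elim, ⟨fun i => Empty.elim i⟩, rfl⟩

theorem PAV.sum_map {α β γ : Type} [Fintype α] [Fintype β] (f : α ⊕ β → γ) :
    (Finset.univ : Finset (α ⊕ β)).val.map f =
      (Finset.univ : Finset α).val.map (fun i => f (.inl i)) +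
        (Finset.univ : Finset β).val.map (fun i => f (.inr i)) := by
  rw [← Finset.univ_disjSum_univ]
  show Multiset.map f (Multiset.disjSum _ _) = _
  rw [Multiset.disjSum, Multiset.map_add, Multiset.map_map, Multiset.map_map]
  rfl

/-- union of two partial atlases -/
theorem PAV.union (h : PAV Q F ψ Z C r nN t₀ S4 S1 N2 G M)
    (h' : PAV Q F ψ Z C' r nN' t₀ S4' S1' N2' G' M')
    (d4 : Disjoint S4 S4') (d1 : Disjoint N2 S1') (d2 : Disjoint N2' S1) :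
    PAV Q F ψ Z (C ∪ C') r (nN + nN') t₀ (S4 ∪ S4') (S1 ∪ S1') (N2 ∪ N2') (G ∪ G') (M + M') := by
  obtain ⟨A, a1, a2, a3, a4, a5, a6, a7, a8⟩ := h
  obtain ⟨B, b1, b2, b3, b4, b5, b6, b7, b8⟩ := h'
  refine PAV.of (A.union B (fun i j => ?_) (fun i j => ?_) (fun i j => ?_) (fun i => a7.elim i)
    (fun i => b7.elim i)) ?_ ?_ ?_ ?_ ?_ ?_ ?_ ?_
  · rw [Finset.disjoint_left]
    exact fun f hf hf' => Set.disjoint_left.1 d4 (a1 i f hf) (b1 j f hf')
  · rw [Finset.disjoint_left]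
    exact fun f hf hf' => Set.disjoint_left.1 d1 (a3 i f hf) (b2 j f hf')
  · rw [Finset.disjoint_left]
    exact fun f hf hf' => Set.disjoint_left.1 d2 (b3 i f hf) (a2 j f hf')
  · rintro (i | i) f hf
    · exact Or.inl (a1 i f hf)
    · exact Or.inr (b1 i f hf)
  · rintro (i | i) f hf
    · exact Or.inl (a2 i f hf)
    · exact Or.inr (b2 i f hf)
  · rintro (i | i) f hf
    · exact Or.inl (a3 i f hf)
    · exact Or.inr (b3 i f hf)
  · rintro (i | i) f hf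
    · exact Or.inl (a4 i f hf)
    · exact Or.inr (b4 i f hf)
  · rintro (i | i) f hf
    · exact Or.inl (a5 i f hf)
    · exact Or.inr (b5 i f hf)
  · rintro (i | i)
    · exact a6 i
    · exact b6 i
  · exact ⟨fun i => i.elim a7.elim b7.elim⟩
  · exact (PAV.sum_map _).trans (congrArg₂ (· + ·) a8 b8)

/-- an atlas -/
theorem PAV.atlas (h : PAV Q F ψ Z C r nN t₀ S4 S1 N2 G M) (hZ : Z ⊆ bS Q F) (hC : Z ⊆ C) :
    ∃ A : Atlas Q F ψ Z r (Multiset.card M) nN t₀, (∀ i, ∀ f ∈ (A.ch i).box (4 * r), f ∈ S4) ∧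
      (∀ i, ∀ f ∈ Wdg (A.m i) (A.o i) (A.v i) (4 * r + 1), (A.ch i).φF f ∈ G) ∧
      (∀ i, ∀ f ∈ Wdg (A.m' i) (A.o' i) (A.v' i) (2 * r + 1), (A.nch i).φF f ∈ G) ∧
      (∀ i, A.m' i = 2 ∧ (A.nch i).Jump ψ 0) ∧ IsEmpty A.μ ∧
      A.fκ.elems.val.map (fun i => (A.K i, A.m i)) = M := by
  obtain ⟨A, a1, a2, a3, a4, a5, a6, a7, a8⟩ := h
  exact ⟨A.toAtlas hZ hC, a1, a4, a5, a6, a7, a8⟩

/-- **a finite family of special charts** -/
theorem PAV.fam {κ : Type} [Fintype κ] [DecidableEq κ] (K : κ → SK) (m : κ → ℕ) (o : κ → ZMod 4)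
    (v : κ → ℤ × ℤ) (ch : ∀ i, WChart Q F (m i) (o i) (v i) (4 * r + 1))
    (hm : ∀ i, 1 ≤ m i ∧ m i ≤ 3) (hj : ∀ i, SJump (ch i) (K i) ψ)
    (ht : ∀ i J, K i = .ver J → t₀ ≤ tJ J ∨ (J = -(Real.pi / 3) ∧ m i = 2))
    (hd : ∀ i j, i ≠ j → Disjoint ((ch i).box (4 * r)) ((ch j).box (4 * r)))
    (hZ : ∀ i, (ch i).walls (4 * r) ⊆ Z)
    (hC : ∀ a ∈ C, ∃ i, a ∈ (ch i).walls (2 * r))
    (h4 : ∀ i, ∀ f ∈ (ch i).box (4 * r), f ∈ S4) (h1 : ∀ i, ∀ f ∈ (ch i).box r, f ∈ S1)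
    (hG : ∀ i, ∀ f ∈ Wdg (m i) (o i) (v i) (4 * r + 1), (ch i).φF f ∈ G)
    (hM : (Finset.univ : Finset κ).val.map (fun i => (K i, m i)) = M) :
    PAV Q F ψ Z C r 0 t₀ S4 S1 ∅ G M :=
  PAV.of (nS := Fintype.card κ)
   {  κ := κ
      K := K
      m := m
      o := o
      v := v
      ch := ch
      m_rng := hm
      jmp := hj
      tpos := ht
      disj := hd
      cardS := le_rfl
      chZ := hZ
      ι := Empty
      m' := fun i => i.elim
      o' := fun i => i.elim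
      v' := fun i => i.elim
      nch := fun i => i.elim
      m'_rng := fun i => i.elim
      njmp := fun i => i.elim
      nZ := fun i => i.elim
      ndisj := fun i => i.elim
      cardN := by simp
      μ := Empty
      lf := fun i => i.elim
      w := fun i => i.elim
      h := fun i => i.elim
      l := fun i => i.elim
      mch := fun i => i.elim
      h_lt := fun i => i.elim
      mnat := fun i => i.elim
      mZ := fun i => i.elim
      mdisj := fun i => i.elim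
      cardM := by simp
      cover := fun a ha => Or.inl (hC a ha) } h4 h1 (fun i => i.elim) hG (fun i => i.elim)
      (fun i => i.elim) ⟨fun i => Empty.elim i⟩ hM

/-- one special chart -/
theorem PAV.one {K : SK} {m : ℕ} {o : ZMod 4} {v : ℤ × ℤ} (ch : WChart Q F m o v (4 * r + 1))
    (hm : 1 ≤ m ∧ m ≤ 3) (hj : SJump ch K ψ)
    (ht : ∀ J, K = .ver J → t₀ ≤ tJ J ∨ (J = -(Real.pi / 3) ∧ m = 2))
    (hZ : ch.walls (4 * r) ⊆ Z) :
    PAV Q F ψ Z (ch.walls (2 * r)) r 0 t₀ (ch.box (4 * r) : Set Φ) (ch.box r : Set Φ) ∅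
      (ch.box (4 * r + 1) : Set Φ) {(K, m)} :=
  PAV.fam (κ := Unit) (fun _ => K) (fun _ => m) (fun _ => o) (fun _ => v) (fun _ => ch) (fun _ => hm)
    (fun _ => hj) (fun _ => ht) (fun _ _ h => absurd rfl h) (fun _ => hZ)
    (fun _ ha => ⟨(), ha⟩) (fun _ _ hf => hf) (fun _ _ hf => hf)
    (fun _ _ hf => Finset.mem_coe.2 (Finset.mem_image_of_mem _ hf)) rfl

/-- a finite family of natural charts -/
theorem PAV.nfam {ι : Type} [Fintype ι] (o : ι → ZMod 4)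
    (v : ι → ℤ × ℤ) (nch : ∀ i, WChart Q F 2 (o i) (v i) (2 * r + 1))
    (hj : ∀ i, (nch i).Jump ψ 0)
    (hZ : ∀ i, (nch i).walls (2 * r) ⊆ Z) (hcard : Fintype.card ι ≤ nN)
    (hC : ∀ a ∈ C, ∃ i, a ∈ (nch i).walls r)
    (h2 : ∀ i, ∀ f ∈ (nch i).box (2 * r), f ∈ N2)
    (hG : ∀ i, ∀ f ∈ Wdg 2 (o i) (v i) (2 * r + 1), (nch i).φF f ∈ G) :
    PAV Q F ψ Z C r nN t₀ ∅ ∅ N2 G 0 :=
  PAV.of (nS := 0)
   {  κ := Empty
      K := fun i => i.elim
      m := fun i => i.elim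
      o := fun i => i.elim
      v := fun i => i.elim
      ch := fun i => i.elim
      m_rng := fun i => i.elim
      jmp := fun i => i.elim
      tpos := fun i => i.elim
      disj := fun i => i.elim
      cardS := by simp
      chZ := fun i => i.elim
      ι := ι
      m' := fun _ => 2
      o' := o
      v' := v
      nch := nch
      m'_rng := fun _ => ⟨by norm_num, by norm_num⟩
      njmp := fun i => Or.inl (hj i)
      nZ := hZ
      ndisj := fun _ j => j.elim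
      cardN := hcard
      μ := Empty
      lf := fun i => i.elim
      w := fun i => i.elim
      h := fun i => i.elim
      l := fun i => i.elim
      mch := fun i => i.elim
      h_lt := fun i => i.elim
      mnat := fun i => i.elim
      mZ := fun i => i.elim
      mdisj := fun i => i.elim
      cardM := by simp
      cover := fun a ha => Or.inr (Or.inl (hC a ha)) } (fun i => i.elim) (fun i => i.elim) h2
      (fun i => i.elim) hG (fun i => ⟨rfl, hj i⟩) ⟨fun i => Empty.elim i⟩ rfl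

/-- **natural charts along the segment `lo ≤ t ≤ hi` of the line through `p` in the direction `o`** -/
theorem PAV.segment (hr : 0 < r) {o : ZMod 4} {p : ℤ × ℤ} {lo hi : ℤ} (hlh : lo ≤ hi)
    (S : (ℤ × ℤ) × (ℤ × ℤ) → V × V)
    (nch : ∀ t : ℤ, lo ≤ t → t ≤ hi → WChart Q F 2 o (p + t • dz o) (2 * r + 1))
    (hS : ∀ t h h', ∀ u : ℤ, t - r ≤ u → u < t + r → (nch t h h').side (lside o p u) = S (lside o p u))
    (hj : ∀ t h h', (nch t h h').Jump ψ 0)
    (hZ : ∀ t h h', (nch t h h').walls (2 * r) ⊆ Z)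
    (h2 : ∀ t h h', ∀ f ∈ (nch t h h').box (2 * r), f ∈ N2)
    (hG : ∀ t h h', ∀ f ∈ Wdg 2 o (p + t • dz o) (2 * r + 1), (nch t h h').φF f ∈ G) :
    PAV Q F ψ Z ((Finset.Ico (lo - r) (hi + r)).image fun u => S (lside o p u)) r
      ((hi - lo).toNat / (2 * r) + 2) t₀ ∅ ∅ N2 G 0 := by
  have hr' : (0 : ℤ) < r := by exact_mod_cast hr
  have c1 : ∀ j : Fin ((hi - lo).toNat / (2 * r) + 2), lo ≤ min (lo + 2 * r * ((j : ℕ) : ℤ)) hi :=
    fun j => le_min (by nlinarith [Int.natCast_nonneg (j : ℕ)]) hlh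
  have c2 : ∀ j : Fin ((hi - lo).toNat / (2 * r) + 2), min (lo + 2 * r * ((j : ℕ) : ℤ)) hi ≤ hi :=
    fun j => min_le_right _ _
  refine PAV.nfam (ι := Fin ((hi - lo).toNat / (2 * r) + 2)) (fun _ => o)
    (fun j => p + (min (lo + 2 * r * ((j : ℕ) : ℤ)) hi) • dz o) (fun j => nch _ (c1 j) (c2 j))
    (fun j => hj _ _ _) (fun j => hZ _ _ _) (by simp) ?_
    (fun j => h2 _ _ _) (fun j => hG _ _ _)
  intro a ha
  rw [Finset.mem_image] at ha
  obtain ⟨u, hu, rfl⟩ := ha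
  rw [Finset.mem_Ico] at hu
  obtain ⟨hu1, hu2⟩ := hu
  have e1 : (((u - lo + r).toNat : ℕ) : ℤ) = u - lo + r := Int.toNat_of_nonneg (by omega)
  have e2 : (((hi - lo).toNat : ℕ) : ℤ) = hi - lo := Int.toNat_of_nonneg (by omega)
  have hb : (u - lo + r).toNat / (2 * r) < (hi - lo).toNat / (2 * r) + 2 := by
    have h3 : (u - lo + r).toNat < (hi - lo).toNat + 2 * r := by omega
    have h4 : (u - lo + r).toNat / (2 * r) ≤ ((hi - lo).toNat + 2 * r) / (2 * r) :=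
      Nat.div_le_div_right h3.le
    rw [Nat.add_div_right _ (by omega)] at h4
    omega
  set q : ℕ := (u - lo + r).toNat / (2 * r) with hq
  have q1 : 2 * r * q ≤ (u - lo + r).toNat := Nat.mul_div_le _ _
  have q2 : (u - lo + r).toNat < 2 * r * (q + 1) := by
    have := Nat.lt_mul_div_succ (u - lo + r).toNat (show 0 < 2 * r by omega)
    simpa [hq] using this
  have q3 : (2 : ℤ) * r * q ≤ u - lo + r := by
    rw [← e1]; exact_mod_cast q1
  have q4 : u - lo + r < (2 : ℤ) * r * q + 2 * r := by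
    have h5 : (((u - lo + r).toNat : ℕ) : ℤ) < ((2 * r * (q + 1) : ℕ) : ℤ) := by exact_mod_cast q2
    rw [e1] at h5
    push_cast at h5
    linarith
  have k1 : min (lo + 2 * r * (q : ℤ)) hi - r ≤ u := by
    have := min_le_left (lo + 2 * r * (q : ℤ)) hi
    linarith
  have k2 : u < min (lo + 2 * r * (q : ℤ)) hi + r := by
    rcases min_choice (lo + 2 * r * (q : ℤ)) hi with h | h <;> rw [h] <;> linarith
  refine ⟨⟨q, hb⟩, ?_⟩
  have h6 := hS _ (c1 ⟨q, hb⟩) (c2 ⟨q, hb⟩) u k1 k2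
  rw [← h6]
  unfold WChart.walls
  exact Finset.mem_image_of_mem _ (mem_flat_line.2 ⟨u, k1, k2, rfl⟩)

/-- **restriction to a smaller surface which contains all charts** -/
theorem PAV.restrF (h : PAV Q F ψ Z C r nN t₀ S4 S1 N2 G M) (hF : F' ⊆ F) (hG : ∀ x ∈ F, x ∈ G → x ∈ F')
    (hZ : ∀ f ∈ F', ∀ k, sd Q f k ∈ Z → sd Q f k ∈ Z') :
    PAV Q F' ψ Z' C r nN t₀ S4 S1 N2 G M := by
  classical
  obtain ⟨A, a1, a2, a3, a4, a5, a6, a7, a8⟩ := h
  refine PAV.of (A.restr hF (fun _ => True) (fun _ => True) (fun _ => True)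
    (fun i _ f hf => hG _ ((A.ch i).sub f hf) (a4 i f hf))
    (fun i _ f hf => hG _ ((A.nch i).sub f hf) (a5 i f hf)) (fun i => a7.elim i) hZ ?_)
    (fun i => a1 i.1) (fun i => a2 i.1) (fun i => a3 i.1) (fun i => a4 i.1) (fun i => a5 i.1)
    (fun i => a6 i.1) ⟨fun i => a7.elim i.1⟩ ?_
  · intro a ha
    rcases A.cover a ha with ⟨i, h1⟩ | ⟨i, h1⟩ | ⟨i, _⟩
    · exact Or.inl ⟨i, trivial, h1⟩
    · exact Or.inr (Or.inl ⟨i, trivial, h1⟩)
    · exact a7.elim i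
  · refine Eq.trans ?_ a8
    have e : ∀ (i2 : Fintype {i : A.κ // True}), (@Finset.univ _ i2).val.map
        (fun i : {i : A.κ // True} => (A.K i.1, A.m i.1)) =
          (Finset.univ : Finset A.κ).val.map (fun i => (A.K i, A.m i)) := by
      intro i2
      have h2 : (Finset.univ : Finset A.κ) = (@Finset.univ _ i2).map
          ⟨Subtype.val, Subtype.val_injective⟩ := by
        ext i
        simp
      rw [h2, Finset.map_val, Multiset.map_map]
      rfl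
    exact e _

/-- restriction to a smaller surface, simple form -/
theorem PAV.restr (h : PAV Q F ψ Z C r nN t₀ S4 S1 N2 G M) (hF : F' ⊆ F) (hG : G ⊆ (F' : Set Φ))
    (hZ : ∀ f ∈ F', ∀ k, sd Q f k ∈ Z → sd Q f k ∈ Z') :
    PAV Q F' ψ Z' C r nN t₀ S4 S1 N2 G M :=
  h.restrF hF (fun _ _ hx => Finset.mem_coe.1 (hG hx)) hZ

/-- the types may be written in another way -/
theorem PAV.tps (h : PAV Q F ψ Z C r nN t₀ S4 S1 N2 G M) (e : M = M') :
    PAV Q F ψ Z C r nN t₀ S4 S1 N2 G M' := e ▸ h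

end

end Pool.Agent.SixB
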