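import Pool.Agent.Lib.SixB.S3DblV
import Pool.Agent.Lib.SixB.S3PathV

/-!
# 6BD step 3: the atlas of a double from typed partial atlases (R6, R21)

* `offCut_of_G`: `OffCut` for an atlas without mouths whose chart faces have no side on the cut line.
* `PAV.dbl`: typed partial atlases of the half and of its mirror image give an atlas of the double, with types.
-/

set_option autoImplicit false
set_option linter.unusedSectionVars false

namespace Pool.Agent.SixB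

open Pool.Agent.Perc.Q Pool.Agent.Perc Pool.Agent.SixB.St

noncomputable section

variable {V Φ : Type} [DecidableEq V] [DecidableEq Φ]

namespace Dbl

section

variable {Q : QC V Φ} {F : Finset Φ} {m R : ℕ} {o : ZMod 4} {v : ℤ × ℤ}

theorem wall_side (hm : 1 ≤ m ∧ m ≤ 3) (c : WChart Q F m o v R) {a : (ℤ × ℤ) × (ℤ × ℤ)}
    (ha : a ∈ wIn (o + m) v R ∪ wOut o v R) : ∃ f ∈ Wdg m o v R, ∃ k, c.side a = sd Q (c.φF f) k := by
  rcases Finset.mem_union.mp ha with h | h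
  · obtain ⟨f, hf, rfl⟩ := wIn_face hm.1 (by omega) h
    exact ⟨f, hf, _, c.toPChart.side_sdR hf _⟩
  · obtain ⟨f, hf, rfl⟩ := wOut_face hm.1 h
    exact ⟨f, hf, _, c.toPChart.side_sdR hf _⟩

theorem walls_side (hm : 1 ≤ m ∧ m ≤ 3) (c : WChart Q F m o v R) {ρ : ℕ} (hρ : ρ ≤ R) {x : V × V}
    (hx : x ∈ c.walls ρ) : ∃ f ∈ Wdg m o v R, ∃ k, x = sd Q (c.φF f) k := by
  obtain ⟨a, ha, rfl⟩ := Finset.mem_image.mp hx
  refine wall_side hm c ?_
  rcases Finset.mem_union.mp ha with h | h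
  · exact Finset.mem_union_left _ (wIn_mono hρ h)
  · exact Finset.mem_union_right _ (wOut_mono hρ h)

end

section

variable {ι : Type} [Fintype ι] {Q : QC V Φ} {F : Finset Φ} {l : ι → V × V}
  {ψ : V × V → ℝ} {Z Z' : Finset (V × V)} {r nS nN nS' nN' : ℕ} {t₀ : ℝ}

theorem offCut_of_G (A : Atlas Q F ψ Z r nS nN t₀) (G : Set Φ)
    (h4 : ∀ i, ∀ f ∈ Wdg (A.m i) (A.o i) (A.v i) (4 * r + 1), (A.ch i).φF f ∈ G)
    (h5 : ∀ i, ∀ f ∈ Wdg (A.m' i) (A.o' i) (A.v' i) (2 * r + 1), (A.nch i).φF f ∈ G)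
    (h6 : IsEmpty A.μ) (hG : ∀ f ∈ F, f ∈ G → ∀ k, sd Q f k ∉ eds l) : OffCut l A where
  sp := fun i a ha => by
    obtain ⟨f, hf, k, e⟩ := wall_side (A.m_rng i) (A.ch i) ha
    rw [e]
    exact hG _ ((A.ch i).sub f hf) (h4 i f hf) k
  na := fun i a ha => by
    obtain ⟨f, hf, k, e⟩ := wall_side (A.m'_rng i) (A.nch i) ha
    rw [e]
    exact hG _ ((A.nch i).sub f hf) (h5 i f hf) k
  mo := fun i => h6.elim i
  z := fun a ha => by
    rcases A.cover a ha with ⟨i, h⟩ | ⟨i, h⟩ | ⟨i, _⟩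
    · obtain ⟨f, hf, k, rfl⟩ := walls_side (A.m_rng i) (A.ch i) (by omega) h
      exact hG _ ((A.ch i).sub f hf) (h4 i f hf) k
    · obtain ⟨f, hf, k, rfl⟩ := walls_side (A.m'_rng i) (A.nch i) (by omega) h
      exact hG _ ((A.nch i).sub f hf) (h5 i f hf) k
    · exact h6.elim i

end

end Dbl

open Dbl

variable {ι : Type} [Fintype ι] {Q : QC V Φ} {F : Finset Φ} {l : ι → V × V} (hl : OneSided Q F l)
  {ψ : V × V → ℝ} {Z Z' C C' : Finset (V × V)} {r nN nN' : ℕ} {t₀ : ℝ}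
  {S4 S1 N2 G S4' S1' N2' G' : Set Φ} {M M' : Multiset (SK × ℕ)}

/-- the sides which are covered by a typed partial atlas are off the cut line -/
theorem PAV.off_cut (h : PAV Q F ψ Z C r nN t₀ S4 S1 N2 G M)
    (hG : ∀ f ∈ F, f ∈ G → ∀ k, sd Q f k ∉ eds l) {a : V × V} (ha : a ∈ C) : a ∉ eds l := by
  obtain ⟨A, -, -, -, a4, a5, -, a7, -⟩ := h
  rcases A.cover a ha with ⟨i, h⟩ | ⟨i, h⟩ | ⟨i, _⟩
  · obtain ⟨f, hf, k, rfl⟩ := walls_side (A.m_rng i) (A.ch i) (by omega) h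
    exact hG _ ((A.ch i).sub f hf) (a4 i f hf) k
  · obtain ⟨f, hf, k, rfl⟩ := walls_side (A.m'_rng i) (A.nch i) (by omega) h
    exact hG _ ((A.nch i).sub f hf) (a5 i f hf) k
  · exact a7.elim i

/-- **ATLAS OF THE DOUBLE** from typed partial atlases of the half and of its mirror image. -/
theorem PAV.dbl (h : PAV Q F ψ Z C r nN t₀ S4 S1 N2 G M)
    (h' : PAV (mir Q) F (mps ψ) Z' C' r nN' t₀ S4' S1' N2' G' M') (hZ : Z ⊆ bS Q F)
    (hC : Z ⊆ C) (hZ' : Z' ⊆ bS (mir Q) F) (hC' : Z' ⊆ C')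
    (hG : ∀ f ∈ F, (f ∈ G ∨ f ∈ G') → ∀ k, sd Q f k ∉ eds l) :
    ∃ A : Atlas (dbl Q F l hl) (dblFs F) (dps ψ (mps ψ)) (dZ l Z Z') r
      (Multiset.card M + Multiset.card M') (nN + nN') t₀, vts A = M + M' ∧
      (∀ i, A.m' i = 2 ∧ (A.nch i).Jump (dps ψ (mps ψ)) 0) ∧ IsEmpty A.μ := by
  have hG' : ∀ f ∈ F, f ∈ G' → ∀ k, sd (mir Q) f k ∉ eds l := by
    intro f hf h1 k h2
    rw [sd_mir, swap_mem_eds] at h2
    exact hG f hf (Or.inr h1) _ h2
  obtain ⟨A, -, -, -, a4, a5, a6, a7, a8⟩ := h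
  obtain ⟨B, -, -, -, b4, b5, b6, b7, b8⟩ := h'
  have hA : OffCut l (A.toAtlas hZ hC) :=
    offCut_of_G (A.toAtlas hZ hC) G a4 a5 a7 fun f hf h1 => hG f hf (Or.inl h1)
  have hB : OffCut l (B.toAtlas hZ' hC') := offCut_of_G (B.toAtlas hZ' hC') G' b4 b5 b7 hG'
  refine ⟨dblAtlas hl (A.toAtlas hZ hC) hA (B.toAtlas hZ' hC') hB, ?_, ?_, ?_⟩
  · rw [vts_dblAtlas, vts_toAtlas, vts_toAtlas]
    exact congrArg₂ (· + ·) a8 b8
  · rintro (i | i)
    · refine ⟨(a6 i).1, ?_⟩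
      refine jump_congr (fun a ha => ?_) (a6 i).2
      have h1 := hA.na i a ha
      have h2 : (A.nch i).side a ∈ dE Q F := by
        rcases Finset.mem_union.mp ha with h | h
        · exact (mem_bS.mp ((A.nch i).bIn a h)).1
        · exact (mem_bS.mp ((A.nch i).bOut a h)).1
      exact dps_copy hl ψ (mps ψ) (b := false) h2 h1
    · refine ⟨(b6 i).1, ?_⟩
      refine jump_congr (fun a ha => ?_) (b6 i).2
      have h1 := hB.na i a ha
      have h2 : (B.nch i).side a ∈ dE Q F := by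
        rw [← dE_mir]
        rcases Finset.mem_union.mp ha with h | h
        · exact (mem_bS.mp ((B.nch i).bIn a h)).1
        · exact (mem_bS.mp ((B.nch i).bOut a h)).1
      exact dps_copy hl ψ (mps ψ) (b := true) h2 h1
  · exact ⟨fun i => i.elim a7.elim b7.elim⟩

end

end Pool.Agent.SixB
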