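import Pool.Agent.Lib.SixB.S3DblA
import Pool.Agent.Lib.SixB.S3PAtl

/-!
# 6BD step 3: atlases of the doubled complex (R6)

* `Dbl.cpP`, `cpW`, `cpM`, `cpA`: charts and atlases of the copy `b` as charts and atlases of the double (the sides `Z`
  are off the cut line).
* `Dbl.unA`: union of two atlases with disjoint boxes.
* `Dbl.mirW`: mirror image of a wedge chart: wedge `-(o + m)`, vertex `rV v`; jump `(2 - m) π / 6 - J`.
* `AtlasR`: atlas whose marked sides `e`, `em` lie before the centre (on the wall `wIn`), with flat natural charts of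
  jump `0` and no mouths; `AtlasR.mir`: its mirror image is an atlas; `Atlas.toR`: an atlas without marked sides.
* `dblAtlas`: atlas of the double, `dblAtlas_prod`: product of its local factors.
-/

set_option autoImplicit false
set_option linter.unusedSectionVars false

namespace Pool.Agent.SixB.Dbl

open Pool.Agent.Perc.Q Pool.Agent.Perc Relation

noncomputable section

variable {V Φ : Type} [DecidableEq V] [DecidableEq Φ]

/-! ## Comparison of phases of two charts -/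

section congr

variable {V' Φ' : Type} [DecidableEq V'] [DecidableEq Φ'] {Q : QC V Φ} {F : Finset Φ} {Q' : QC V' Φ'}
  {F' : Finset Φ'} {ψ : V × V → ℝ} {ψ' : V' × V' → ℝ}

theorem jump_congr {m : ℕ} {o : ZMod 4} {v : ℤ × ℤ} {r : ℕ} {c : WChart Q F m o v r}
    {c' : WChart Q' F' m o v r} {J : ℝ}
    (h : ∀ a ∈ wIn (o + m) v r ∪ wOut o v r, ψ' (c'.side a) = ψ (c.side a)) (hJ : c.Jump ψ J) :
    c'.Jump ψ' J := by
  obtain ⟨p, q, h1, h2, h3⟩ := hJ
  refine ⟨p, q, fun a ha => ?_, fun a ha => ?_, h3⟩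
  · rw [h a (Finset.mem_union_left _ ha)]
    exact h1 a ha
  · rw [h a (Finset.mem_union_right _ ha)]
    exact h2 a ha

theorem eS_mem {o : ZMod 4} {v : ℤ × ℤ} {r : ℕ} (hr : 0 < r) : eS o v ∈ wOut o v r := by
  unfold wOut eS
  rw [Finset.mem_image]
  exact ⟨0, Finset.mem_range.mpr hr, by simp⟩

theorem sjump_congr {m : ℕ} {o : ZMod 4} {v : ℤ × ℤ} {r : ℕ} {c : WChart Q F m o v r}
    {c' : WChart Q' F' m o v r} {K : SK} (hr : 0 < r)
    (h : ∀ a ∈ wIn (o + m) v r ∪ wOut o v r, ψ' (c'.side a) = ψ (c.side a)) (hJ : SJump c K ψ) :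
    SJump c' K ψ' := by
  have he : ψ' (c'.side (eS o v)) = ψ (c.side (eS o v)) := h _ (Finset.mem_union_right _ (eS_mem hr))
  cases K with
  | ver J => exact jump_congr h hJ
  | e =>
    obtain ⟨hm, p, h1, h2, h3⟩ := hJ
    refine ⟨hm, p, fun a ha => ?_, ?_, fun a ha => ?_⟩
    · rw [h a (Finset.mem_union_left _ ha)]
      exact h1 a ha
    · rw [he]
      exact h2
    · rw [h a (Finset.mem_union_right _ (Finset.mem_of_mem_erase ha))]
      exact h3 a ha
  | em =>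
    obtain ⟨hm, p, h1, h2, h3⟩ := hJ
    refine ⟨hm, p, fun a ha => ?_, ?_, fun a ha => ?_⟩
    · rw [h a (Finset.mem_union_left _ ha)]
      exact h1 a ha
    · rw [he]
      exact h2
    · rw [h a (Finset.mem_union_right _ (Finset.mem_of_mem_erase ha))]
      exact h3 a ha

theorem nat_congr {left : Bool} {v : ℤ × ℤ} {r h l : ℕ} {c : MChart Q F left v r h l}
    {c' : MChart Q' F' left v r h l} {J : ℝ}
    (hs : ∀ i, ∀ a ∈ mthWall left v r h l i, ψ' (c'.side a) = ψ (c.side a)) (hJ : c.Nat ψ J) :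
    c'.Nat ψ' J := by
  obtain ⟨p, h1, h2⟩ := hJ
  refine ⟨p, fun i a ha => ?_, h2⟩
  rw [hs i a ha]
  exact h1 i a ha

end congr

/-! ## Charts of a copy -/

section copy

variable {ι : Type} [Fintype ι] {Q : QC V Φ} {F : Finset Φ} {l : ι → V × V} (hl : OneSided Q F l)

/-- a planar chart of the copy `b` -/
def cpP (b : Bool) {R : Finset (ℤ × ℤ)} (c : PChart (cpQ Q b) F R) : PChart (dbl Q F l hl) (dblFs F) R where
  φV := fun v => dblV l b (c.φV v)
  φF := fun f => (c.φF f, b)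
  cor := fun f hf k => by rw [dbl_c (c.sub f hf), c.cor f hf k]
  inj := fun f hf g hg k k' h => c.inj f hf g hg k k' (dblV_inj h)
  sub := fun f hf => mem_dblFs.mpr (c.sub f hf)

/-- a wedge chart of the copy `b` -/
def cpW (b : Bool) {m : ℕ} {o : ZMod 4} {v : ℤ × ℤ} {r : ℕ} (c : WChart (cpQ Q b) F m o v r)
    (h : ∀ a ∈ wIn (o + m) v r ∪ wOut o v r, c.side a ∉ eds l) :
    WChart (dbl Q F l hl) (dblFs F) m o v r where
  toPChart := cpP hl b c.toPChart
  bIn := fun a ha => bS_copy (c.bIn a ha) (h a (Finset.mem_union_left _ ha))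
  bOut := fun a ha => bS_copy (c.bOut a ha) (h a (Finset.mem_union_right _ ha))

/-- a mouth chart of the copy `b` -/
def cpM (b : Bool) {left : Bool} {v : ℤ × ℤ} {r h k : ℕ} (c : MChart (cpQ Q b) F left v r h k)
    (hc : ∀ i, ∀ a ∈ mthWall left v r h k i, c.side a ∉ eds l) :
    MChart (dbl Q F l hl) (dblFs F) left v r h k where
  toPChart := cpP hl b c.toPChart
  bd := fun i a ha => bS_copy (c.bd i a ha) (hc i a ha)

/-- inclusion of the faces of the copy `b` -/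
def iF (b : Bool) (f : Φ) : Φ × Bool := (f, b)

theorem image_iF {R : Finset (ℤ × ℤ)} (b : Bool) (g : ℤ × ℤ → Φ) :
    R.image (fun f => (g f, b)) = (R.image g).image (iF b) := by
  rw [Finset.image_image]
  rfl

theorem disj_iF {b : Bool} {S T : Finset Φ} (h : Disjoint S T) :
    Disjoint (S.image (iF b)) (T.image (iF b)) := by
  rw [Finset.disjoint_left] at h ⊢
  intro x hx hy
  obtain ⟨f, hf, rfl⟩ := Finset.mem_image.mp hx
  obtain ⟨g, hg, e⟩ := Finset.mem_image.mp hy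
  exact h hf (by rw [← show g = f from congrArg Prod.fst e]; exact hg)

theorem disj_iF' {b c : Bool} (hbc : b ≠ c) (S T : Finset Φ) :
    Disjoint (S.image (iF b)) (T.image (iF c)) := by
  rw [Finset.disjoint_left]
  intro x hx hy
  obtain ⟨f, hf, rfl⟩ := Finset.mem_image.mp hx
  obtain ⟨g, hg, e⟩ := Finset.mem_image.mp hy
  exact hbc (congrArg Prod.snd e).symm

/-- all walls of the charts of the atlas are off the cut line -/
structure OffCut (l : ι → V × V) {Q' : QC V Φ} {F : Finset Φ} {ψ : V × V → ℝ} {Z : Finset (V × V)} {r nS nN : ℕ}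
    {t₀ : ℝ} (A : Atlas Q' F ψ Z r nS nN t₀) : Prop where
  sp : ∀ i, ∀ a ∈ wIn (A.o i + A.m i) (A.v i) (4 * r + 1) ∪ wOut (A.o i) (A.v i) (4 * r + 1),
    (A.ch i).side a ∉ eds l
  na : ∀ i, ∀ a ∈ wIn (A.o' i + A.m' i) (A.v' i) (2 * r + 1) ∪ wOut (A.o' i) (A.v' i) (2 * r + 1),
    (A.nch i).side a ∉ eds l
  mo : ∀ i, ∀ j, ∀ a ∈ mthWall (A.lf i) (A.w i) (2 * r + 1) (A.h i) (A.l i + 1) j,
    (A.mch i).side a ∉ eds l
  z : ∀ a ∈ Z, a ∉ eds l

/-- **Atlas of a copy.** -/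
def cpA (b : Bool) {ψ : V × V → ℝ} {Z : Finset (V × V)} {r nS nN : ℕ} {t₀ : ℝ}
    (A : Atlas (cpQ Q b) F ψ Z r nS nN t₀) (hA : OffCut l A)
    (Ψ : (V × Bool × Bool) × (V × Bool × Bool) → ℝ)
    (hΨ : ∀ a ∈ dE Q F, a ∉ eds l → Ψ (dblA l b a) = ψ a) :
    Atlas (dbl Q F l hl) (dblFs F) Ψ (Z.image (dblA l b)) r nS nN t₀ :=
  have hw : ∀ i, ∀ a ∈ wIn (A.o i + A.m i) (A.v i) (4 * r + 1) ∪ wOut (A.o i) (A.v i) (4 * r + 1),
      Ψ (dblA l b ((A.ch i).side a)) = ψ ((A.ch i).side a) := fun i a ha => by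
    refine hΨ _ ?_ (hA.sp i a ha)
    rw [← dE_cpQ Q F b]
    rcases Finset.mem_union.mp ha with h | h
    · exact (mem_bS.mp ((A.ch i).bIn a h)).1
    · exact (mem_bS.mp ((A.ch i).bOut a h)).1
  have hn : ∀ i, ∀ a ∈ wIn (A.o' i + A.m' i) (A.v' i) (2 * r + 1) ∪ wOut (A.o' i) (A.v' i) (2 * r + 1),
      Ψ (dblA l b ((A.nch i).side a)) = ψ ((A.nch i).side a) := fun i a ha => by
    refine hΨ _ ?_ (hA.na i a ha)
    rw [← dE_cpQ Q F b]
    rcases Finset.mem_union.mp ha with h | h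
    · exact (mem_bS.mp ((A.nch i).bIn a h)).1
    · exact (mem_bS.mp ((A.nch i).bOut a h)).1
  have hm : ∀ i, ∀ j, ∀ a ∈ mthWall (A.lf i) (A.w i) (2 * r + 1) (A.h i) (A.l i + 1) j,
      Ψ (dblA l b ((A.mch i).side a)) = ψ ((A.mch i).side a) := fun i j a ha => by
    refine hΨ _ ?_ (hA.mo i j a ha)
    rw [← dE_cpQ Q F b]
    exact (mem_bS.mp ((A.mch i).bd j a ha)).1
  { Z_sub := by
      intro x hx
      obtain ⟨a, ha, rfl⟩ := Finset.mem_image.mp hx
      exact bS_copy (A.Z_sub ha) (hA.z a ha)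
    κ := A.κ
    fκ := A.fκ
    dκ := A.dκ
    K := A.K
    m := A.m
    o := A.o
    v := A.v
    ch := fun i => cpW hl b (A.ch i) (hA.sp i)
    m_rng := A.m_rng
    jmp := fun i => sjump_congr (by omega) (hw i) (A.jmp i)
    tpos := A.tpos
    disj := fun i j hij => by
      show Disjoint ((Wdg _ _ _ _).image fun f => ((A.ch i).φF f, b))
        ((Wdg _ _ _ _).image fun f => ((A.ch j).φF f, b))
      rw [image_iF, image_iF]
      exact disj_iF (A.disj i j hij)
    cardS := A.cardS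
    chZ := fun i x hx => by
      obtain ⟨a, ha, rfl⟩ := Finset.mem_image.mp hx
      exact Finset.mem_image_of_mem _ (A.chZ i (Finset.mem_image_of_mem _ ha))
    ι := A.ι
    fι := A.fι
    m' := A.m'
    o' := A.o'
    v' := A.v'
    nch := fun i => cpW hl b (A.nch i) (hA.na i)
    m'_rng := A.m'_rng
    njmp := fun i => (A.njmp i).imp (jump_congr (hn i)) (jump_congr (hn i))
    nZ := fun i x hx => by
      obtain ⟨a, ha, rfl⟩ := Finset.mem_image.mp hx
      exact Finset.mem_image_of_mem _ (A.nZ i (Finset.mem_image_of_mem _ ha))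
    ndisj := fun i j => by
      show Disjoint ((Wdg _ _ _ _).image fun f => ((A.nch i).φF f, b))
        ((Wdg _ _ _ _).image fun f => ((A.ch j).φF f, b))
      rw [image_iF, image_iF]
      exact disj_iF (A.ndisj i j)
    cardN := A.cardN
    μ := A.μ
    fμ := A.fμ
    lf := A.lf
    w := A.w
    h := A.h
    l := A.l
    mch := fun i => cpM hl b (A.mch i) (hA.mo i)
    h_lt := A.h_lt
    mnat := fun i => (A.mnat i).imp (nat_congr (hm i)) (nat_congr (hm i))
    mZ := fun i j x hx => by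
      obtain ⟨a, ha, rfl⟩ := Finset.mem_image.mp hx
      exact Finset.mem_image_of_mem _ (A.mZ i j (Finset.mem_image_of_mem _ ha))
    mdisj := fun i j => by
      show Disjoint ((Mth _ _ _ _ _).image fun f => ((A.mch i).φF f, b))
        ((Wdg _ _ _ _).image fun f => ((A.ch j).φF f, b))
      rw [image_iF, image_iF]
      exact disj_iF (A.mdisj i j)
    cardM := A.cardM
    cover := by
      intro x hx
      obtain ⟨a, ha, rfl⟩ := Finset.mem_image.mp hx
      rcases A.cover a ha with ⟨i, h⟩ | ⟨i, h⟩ | ⟨i, j, s, hs, h1⟩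
      · obtain ⟨s, hs, rfl⟩ := Finset.mem_image.mp h
        exact Or.inl ⟨i, Finset.mem_image.mpr ⟨s, hs, rfl⟩⟩
      · obtain ⟨s, hs, rfl⟩ := Finset.mem_image.mp h
        exact Or.inr (Or.inl ⟨i, Finset.mem_image.mpr ⟨s, hs, rfl⟩⟩)
      · exact Or.inr (Or.inr ⟨i, j, s, hs, by rw [h1]; rfl⟩) }

end copy

/-! ## Union of two atlases -/

section union

variable {Q : QC V Φ} {F : Finset Φ} {ψ : V × V → ℝ} {Z Z' : Finset (V × V)} {r nS nN nS' nN' : ℕ} {t₀ : ℝ}

/-- **Union of two atlases.** -/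
def unA (A : Atlas Q F ψ Z r nS nN t₀) (B : Atlas Q F ψ Z' r nS' nN' t₀)
    (h1 : ∀ i j, Disjoint ((A.ch i).box (4 * r)) ((B.ch j).box (4 * r)))
    (h2 : ∀ i j, Disjoint ((A.nch i).box (2 * r)) ((B.ch j).box r))
    (h3 : ∀ i j, Disjoint ((B.nch i).box (2 * r)) ((A.ch j).box r))
    (h4 : ∀ i j, Disjoint ((Mth (A.lf i) (A.w i) (2 * r) (A.h i) (A.l i)).image (A.mch i).φF)
      ((B.ch j).box r))
    (h5 : ∀ i j, Disjoint ((Mth (B.lf i) (B.w i) (2 * r) (B.h i) (B.l i)).image (B.mch i).φF)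
      ((A.ch j).box r)) :
    Atlas Q F ψ (Z ∪ Z') r (nS + nS') (nN + nN') t₀ :=
  letI := A.fκ
  letI := A.dκ
  letI := A.fι
  letI := A.fμ
  letI := B.fκ
  letI := B.dκ
  letI := B.fι
  letI := B.fμ
  { Z_sub := Finset.union_subset A.Z_sub B.Z_sub
    κ := A.κ ⊕ B.κ
    K := Sum.elim A.K B.K
    m := Sum.elim A.m B.m
    o := Sum.elim A.o B.o
    v := Sum.elim A.v B.v
    ch := fun i => match i with
      | .inl i => A.ch i
      | .inr i => B.ch i
    m_rng := by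
      rintro (i | i)
      · exact A.m_rng i
      · exact B.m_rng i
    jmp := by
      rintro (i | i)
      · exact A.jmp i
      · exact B.jmp i
    tpos := by
      rintro (i | i)
      · exact A.tpos i
      · exact B.tpos i
    disj := by
      rintro (i | i) (j | j) hij
      · exact A.disj i j (fun h => hij (by rw [h]))
      · exact h1 i j
      · exact (h1 j i).symm
      · exact B.disj i j (fun h => hij (by rw [h]))
    cardS := by
      rw [Fintype.card_sum]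
      exact Nat.add_le_add A.cardS B.cardS
    chZ := by
      rintro (i | i)
      · exact (A.chZ i).trans Finset.subset_union_left
      · exact (B.chZ i).trans Finset.subset_union_right
    ι := A.ι ⊕ B.ι
    m' := Sum.elim A.m' B.m'
    o' := Sum.elim A.o' B.o'
    v' := Sum.elim A.v' B.v'
    nch := fun i => match i with
      | .inl i => A.nch i
      | .inr i => B.nch i
    m'_rng := by
      rintro (i | i)
      · exact A.m'_rng i
      · exact B.m'_rng i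
    njmp := by
      rintro (i | i)
      · exact A.njmp i
      · exact B.njmp i
    nZ := by
      rintro (i | i)
      · exact (A.nZ i).trans Finset.subset_union_left
      · exact (B.nZ i).trans Finset.subset_union_right
    ndisj := by
      rintro (i | i) (j | j)
      · exact A.ndisj i j
      · exact h2 i j
      · exact h3 i j
      · exact B.ndisj i j
    cardN := by
      rw [Fintype.card_sum]
      exact Nat.add_le_add A.cardN B.cardN
    μ := A.μ ⊕ B.μ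
    lf := Sum.elim A.lf B.lf
    w := Sum.elim A.w B.w
    h := Sum.elim A.h B.h
    l := Sum.elim A.l B.l
    mch := fun i => match i with
      | .inl i => A.mch i
      | .inr i => B.mch i
    h_lt := by
      rintro (i | i)
      · exact A.h_lt i
      · exact B.h_lt i
    mnat := by
      rintro (i | i)
      · exact A.mnat i
      · exact B.mnat i
    mZ := by
      rintro (i | i) j
      · exact (A.mZ i j).trans Finset.subset_union_left
      · exact (B.mZ i j).trans Finset.subset_union_right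
    mdisj := by
      rintro (i | i) (j | j)
      · exact A.mdisj i j
      · exact h4 i j
      · exact h5 i j
      · exact B.mdisj i j
    cardM := by
      rw [Fintype.card_sum]
      exact Nat.add_le_add A.cardM B.cardM
    cover := by
      intro a ha
      rcases Finset.mem_union.mp ha with ha | ha
      · rcases A.cover a ha with ⟨i, h⟩ | ⟨i, h⟩ | ⟨i, j, s, hs⟩
        · exact Or.inl ⟨.inl i, h⟩
        · exact Or.inr (Or.inl ⟨.inl i, h⟩)
        · exact Or.inr (Or.inr ⟨.inl i, j, s, hs⟩)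
      · rcases B.cover a ha with ⟨i, h⟩ | ⟨i, h⟩ | ⟨i, j, s, hs⟩
        · exact Or.inl ⟨.inr i, h⟩
        · exact Or.inr (Or.inl ⟨.inr i, h⟩)
        · exact Or.inr (Or.inr ⟨.inr i, j, s, hs⟩) }

end union

/-! ## Reflection of the plane -/

section plane

theorem three_sub_three_sub (k : ZMod 4) : 3 - (3 - k) = k := by ring

/-- reflection of the vertices -/
def rV (v : ℤ × ℤ) : ℤ × ℤ := (v.1, -v.2)

/-- reflection of the faces -/
def rF (f : ℤ × ℤ) : ℤ × ℤ := (f.1, -f.2 - 1)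

/-- reflection and reversal of the sides -/
def rS (a : (ℤ × ℤ) × (ℤ × ℤ)) : (ℤ × ℤ) × (ℤ × ℤ) := (rV a.2, rV a.1)

theorem rV_rV (v : ℤ × ℤ) : rV (rV v) = v := by
  unfold rV
  simp

theorem rF_rF (f : ℤ × ℤ) : rF (rF f) = f := by
  unfold rF
  ext <;> simp

theorem rS_rS (a : (ℤ × ℤ) × (ℤ × ℤ)) : rS (rS a) = a := by
  unfold rS
  simp only [rV_rV]

theorem rV_inj {v w : ℤ × ℤ} (h : rV v = rV w) : v = w := by
  rw [← rV_rV v, h, rV_rV]

theorem ZQ_rF (f : ℤ × ℤ) (k : ZMod 4) : ZQ.c (rF f) k = rV (ZQ.c f (3 - k)) := by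
  have e0 : (3 : ZMod 4) - 0 = 3 := by decide
  have e1 : (3 : ZMod 4) - 1 = 2 := by decide
  have e2 : (3 : ZMod 4) - 2 = 1 := by decide
  have e3 : (3 : ZMod 4) - 3 = 0 := by decide
  rcases k4_cases k with rfl | rfl | rfl | rfl
  · rw [e0]
    show ((rF f).1, (rF f).2) = rV (f.1, f.2 + 1)
    unfold rF rV
    ext <;> simp
    ring
  · rw [e1]
    show ((rF f).1 + 1, (rF f).2) = rV (f.1 + 1, f.2 + 1)
    unfold rF rV
    ext <;> simp
    ring
  · rw [e2]
    show ((rF f).1 + 1, (rF f).2 + 1) = rV (f.1 + 1, f.2)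
    unfold rF rV
    ext <;> simp
  · rw [e3]
    show ((rF f).1, (rF f).2 + 1) = rV (f.1, f.2)
    unfold rF rV
    ext <;> simp

theorem quad_r (v f : ℤ × ℤ) : quad (rV v) (rF f) = 3 - quad v f := by
  unfold quad rV rF
  by_cases h1 : v.1 ≤ f.1 <;> by_cases h2 : v.2 ≤ f.2
  · have h3 : ¬ (-v.2 ≤ -f.2 - 1) := by omega
    simp only [h1, h2, h3, if_true, if_false]
    decide
  · have h3 : -v.2 ≤ -f.2 - 1 := by omega
    simp only [h1, h2, h3, if_true, if_false]
    decide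
  · have h3 : ¬ (-v.2 ≤ -f.2 - 1) := by omega
    simp only [h1, h2, h3, if_true, if_false]
    decide
  · have h3 : -v.2 ≤ -f.2 - 1 := by omega
    simp only [h1, h2, h3, if_true, if_false]
    decide

theorem val_r {m : ℕ} (hm : 1 ≤ m ∧ m ≤ 3) (o q : ZMod 4) :
    (3 - q - -(o + m)).val < m ↔ (q - o).val < m := by
  obtain ⟨h1, h2⟩ := hm
  interval_cases m <;> revert o q <;> decide

theorem Wdg_r {m : ℕ} (hm : 1 ≤ m ∧ m ≤ 3) {o : ZMod 4} {v f : ℤ × ℤ} {r : ℕ} :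
    rF f ∈ Wdg m (-(o + m)) (rV v) r ↔ f ∈ Wdg m o v r := by
  unfold Wdg
  rw [Finset.mem_filter, Finset.mem_filter, quad_r, val_r hm]
  refine and_congr_left fun _ => ?_
  unfold Bx rV rF
  simp only [Finset.mem_product, Finset.mem_Ico]
  omega

theorem Wdg_r' {m : ℕ} (hm : 1 ≤ m ∧ m ≤ 3) {o : ZMod 4} {v f : ℤ × ℤ} {r : ℕ} :
    f ∈ Wdg m (-(o + m)) (rV v) r ↔ rF f ∈ Wdg m o v r := by
  have h := Wdg_r hm (o := o) (v := v) (f := rF f) (r := r)
  rwa [rF_rF] at h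

theorem dz_r (o : ZMod 4) : rV (dz o) = dz (-o) := by
  unfold dz rV
  rcases k4_cases o with rfl | rfl | rfl | rfl
  · simp
  · have h1 : (-1 : ZMod 4) ≠ 0 := by decide
    have h2 : (-1 : ZMod 4) ≠ 1 := by decide
    have h3 : (-1 : ZMod 4) ≠ 2 := by decide
    have h4 : (1 : ZMod 4) ≠ 0 := by decide
    simp [h1, h2, h3, h4]
  · have h1 : (-2 : ZMod 4) = 2 := by decide
    have h2 : (2 : ZMod 4) ≠ 0 := by decide
    have h3 : (2 : ZMod 4) ≠ 1 := by decide
    simp [h1, h2, h3]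
  · have h1 : (-3 : ZMod 4) = 1 := by decide
    have h2 : (3 : ZMod 4) ≠ 0 := by decide
    have h3 : (3 : ZMod 4) ≠ 1 := by decide
    have h4 : (3 : ZMod 4) ≠ 2 := by decide
    have h5 : (1 : ZMod 4) ≠ 0 := by decide
    simp [h1, h2, h3, h4, h5]

theorem rV_add (v w : ℤ × ℤ) : rV (v + w) = rV v + rV w := by
  unfold rV
  ext
  · simp
  · simp
    ring

theorem rV_smul (t : ℤ) (v : ℤ × ℤ) : rV (t • v) = t • rV v := by
  unfold rV
  ext <;> simp

theorem rS_wOut {o : ZMod 4} {v : ℤ × ℤ} {r : ℕ} {a : (ℤ × ℤ) × (ℤ × ℤ)} (h : a ∈ wOut o v r) :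
    rS a ∈ wIn (-o) (rV v) r := by
  unfold wOut at h
  unfold wIn
  obtain ⟨t, ht, rfl⟩ := Finset.mem_image.mp h
  refine Finset.mem_image.mpr ⟨t, ht, ?_⟩
  unfold rS
  simp only [rV_add, rV_smul, dz_r]

theorem rS_wIn {e : ZMod 4} {v : ℤ × ℤ} {r : ℕ} {a : (ℤ × ℤ) × (ℤ × ℤ)} (h : a ∈ wIn e v r) :
    rS a ∈ wOut (-e) (rV v) r := by
  unfold wIn at h
  unfold wOut
  obtain ⟨t, ht, rfl⟩ := Finset.mem_image.mp h
  refine Finset.mem_image.mpr ⟨t, ht, ?_⟩
  unfold rS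
  simp only [rV_add, rV_smul, dz_r]

theorem neg_add_r (o : ZMod 4) (m : ℕ) : -(-(o + m) + m) = o := by ring

theorem rS_wIn' {m : ℕ} {o : ZMod 4} {v : ℤ × ℤ} {r : ℕ} {a : (ℤ × ℤ) × (ℤ × ℤ)}
    (h : a ∈ wIn (-(o + m) + m) (rV v) r) : rS a ∈ wOut o v r := by
  have h1 := rS_wIn h
  rwa [neg_add_r, rV_rV] at h1

theorem rS_wOut' {m : ℕ} {o : ZMod 4} {v : ℤ × ℤ} {r : ℕ} {a : (ℤ × ℤ) × (ℤ × ℤ)}
    (h : a ∈ wOut (-(o + m)) (rV v) r) : rS a ∈ wIn (o + m) v r := by
  have h1 := rS_wOut h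
  rwa [neg_neg, rV_rV] at h1

end plane

/-! ## Mirror images of charts -/

section mirror

variable {Q : QC V Φ} {F : Finset Φ} {ψ : V × V → ℝ} {m : ℕ} {o : ZMod 4} {v : ℤ × ℤ} {r : ℕ}

/-- **Mirror image of a wedge chart.** -/
def mirW (hm : 1 ≤ m ∧ m ≤ 3) (c : WChart Q F m o v r) : WChart (mir Q) F m (-(o + m)) (rV v) r where
  φV := fun w => c.φV (rV w)
  φF := fun f => c.φF (rF f)
  cor := fun f hf k => by
    show Q.c (c.φF (rF f)) (3 - k) = c.φV (rV (ZQ.c f k))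
    rw [c.cor _ ((Wdg_r' hm).mp hf), ZQ_rF, three_sub_three_sub]
  inj := fun f hf g hg k k' h => by
    have h1 : ∀ (f : ℤ × ℤ) (k : ZMod 4), rV (ZQ.c f k) = ZQ.c (rF f) (3 - k) := fun f k => by
      rw [ZQ_rF, three_sub_three_sub]
    rw [h1, h1] at h
    have h2 := c.inj _ ((Wdg_r' hm).mp hf) _ ((Wdg_r' hm).mp hg) _ _ h
    rw [← h1, ← h1] at h2
    exact rV_inj h2
  sub := fun f hf => c.sub _ ((Wdg_r' hm).mp hf)
  bIn := fun a ha => mem_bS_mir.mpr (c.bOut _ (rS_wIn' ha))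
  bOut := fun a ha => mem_bS_mir.mpr (c.bIn _ (rS_wOut' ha))

theorem mirW_side (hm : 1 ≤ m ∧ m ≤ 3) (c : WChart Q F m o v r) (a : (ℤ × ℤ) × (ℤ × ℤ)) :
    (mirW hm c).side a = (c.side (rS a)).swap := rfl

theorem mps_side (hm : 1 ≤ m ∧ m ≤ 3) (c : WChart Q F m o v r) (a : (ℤ × ℤ) × (ℤ × ℤ)) :
    mps ψ ((mirW hm c).side a) = ψ (c.side (rS a)) := rfl

theorem mirW_box (hm : 1 ≤ m ∧ m ≤ 3) (c : WChart Q F m o v r) (ρ : ℕ) :
    (mirW hm c).box ρ = c.box ρ := by
  unfold WChart.box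
  ext f
  constructor
  · intro h
    obtain ⟨g, hg, rfl⟩ := Finset.mem_image.mp h
    exact Finset.mem_image.mpr ⟨rF g, (Wdg_r' hm).mp hg, rfl⟩
  · intro h
    obtain ⟨g, hg, rfl⟩ := Finset.mem_image.mp h
    refine Finset.mem_image.mpr ⟨rF g, (Wdg_r hm).mpr hg, ?_⟩
    show c.φF (rF (rF g)) = c.φF g
    rw [rF_rF]

theorem mirW_walls (hm : 1 ≤ m ∧ m ≤ 3) (c : WChart Q F m o v r) (ρ : ℕ) :
    (mirW hm c).walls ρ = (c.walls ρ).image Prod.swap := by
  unfold WChart.walls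
  ext x
  simp only [Finset.mem_image, Finset.mem_union]
  constructor
  · rintro ⟨a, ha, rfl⟩
    refine ⟨c.side (rS a), ⟨rS a, ?_, rfl⟩, rfl⟩
    rcases ha with ha | ha
    · exact Or.inr (rS_wIn' ha)
    · exact Or.inl (rS_wOut' ha)
  · rintro ⟨_, ⟨a, ha, rfl⟩, rfl⟩
    refine ⟨rS a, ?_, ?_⟩
    · rcases ha with ha | ha
      · exact Or.inr (rS_wIn ha)
      · refine Or.inl ?_
        have h1 := rS_wOut ha
        have h2 : -(o + (m : ZMod 4)) + m = -o := by ring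
        rw [h2]
        exact h1
    · rw [mirW_side, rS_rS]

/-- the jump in the mirror image -/
def Jm (m : ℕ) (J : ℝ) : ℝ := (2 - m) * (Real.pi / 6) - J

theorem mirW_jump (hm : 1 ≤ m ∧ m ≤ 3) {c : WChart Q F m o v r} {J : ℝ} (h : c.Jump ψ J) :
    (mirW hm c).Jump (mps ψ) (Jm m J) := by
  obtain ⟨p, q, h1, h2, h3⟩ := h
  refine ⟨q, p, fun a ha => ?_, fun a ha => ?_, ?_⟩
  · rw [mps_side]
    exact h2 _ (rS_wIn' ha)
  · rw [mps_side]
    exact h1 _ (rS_wOut' ha)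
  · rw [← h3]
    unfold Jm
    ring

/-- the first side of `wIn` -/
def eI (e : ZMod 4) (v : ℤ × ℤ) : (ℤ × ℤ) × (ℤ × ℤ) := (v + dz e, v)

/-- phases at a special vertex, the marked side of the kinds `e`, `em` is the first side of `wIn` -/
def SJumpR (c : WChart Q F m o v r) (K : SK) (ψ : V × V → ℝ) : Prop :=
  match K with
  | .ver J => c.Jump ψ J
  | .e => m = 2 ∧ ∃ p : ℝ, (∀ a ∈ (wIn (o + m) v r).erase (eI (o + m) v), ψ (c.side a) = p) ∧
      ψ (c.side (eI (o + m) v)) = p - Real.pi / 3 ∧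
      ∀ a ∈ wOut o v r, ψ (c.side a) = p - 2 * (Real.pi / 3)
  | .em => m = 2 ∧ ∃ p : ℝ, (∀ a ∈ (wIn (o + m) v r).erase (eI (o + m) v), ψ (c.side a) = p) ∧
      ψ (c.side (eI (o + m) v)) = p + Real.pi / 3 ∧
      ∀ a ∈ wOut o v r, ψ (c.side a) = p + 2 * (Real.pi / 3)

/-- the kind of the mirror image -/
def mK (m : ℕ) : SK → SK
  | .ver J => .ver (Jm m J)
  | .e => .em
  | .em => .e

theorem rS_eS : rS (eS (-(o + m)) (rV v)) = eI (o + m) v := by
  unfold rS eS eI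
  rw [rV_rV, rV_add, rV_rV, dz_r, neg_neg]

theorem mirW_sjump (hm : 1 ≤ m ∧ m ≤ 3) {c : WChart Q F m o v r} {K : SK} (h : SJumpR c K ψ) :
    SJump (mirW hm c) (mK m K) (mps ψ) := by
  have hE : ∀ a ∈ (wOut (-(o + m)) (rV v) r).erase (eS (-(o + m)) (rV v)),
      rS a ∈ (wIn (o + m) v r).erase (eI (o + m) v) := by
    intro a ha
    obtain ⟨h1, h2⟩ := Finset.mem_erase.mp ha
    refine Finset.mem_erase.mpr ⟨fun h3 => h1 ?_, rS_wOut' h2⟩
    rw [← rS_rS a, h3, ← rS_eS, rS_rS]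
  cases K with
  | ver J => exact mirW_jump hm h
  | e =>
    obtain ⟨h0, p, h1, h2, h3⟩ := h
    refine ⟨h0, p - 2 * (Real.pi / 3), fun a ha => ?_, ?_, fun a ha => ?_⟩
    · rw [mps_side]
      exact h3 _ (rS_wIn' ha)
    · rw [mps_side, rS_eS, h2]
      ring
    · rw [mps_side, h1 _ (hE a ha)]
      ring
  | em =>
    obtain ⟨h0, p, h1, h2, h3⟩ := h
    refine ⟨h0, p + 2 * (Real.pi / 3), fun a ha => ?_, ?_, fun a ha => ?_⟩
    · rw [mps_side]
      exact h3 _ (rS_wIn' ha)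
    · rw [mps_side, rS_eS, h2]
      ring
    · rw [mps_side, h1 _ (hE a ha)]
      ring

end mirror

/-! ## Mirror images of atlases -/

section

variable {Q : QC V Φ} {F : Finset Φ} {ψ : V × V → ℝ} {Z C : Finset (V × V)} {r nS nN : ℕ} {t₀ : ℝ}

/-- **Mirror image of a partial atlas** whose special vertices are of the kinds `ver J` and whose natural charts are
flat with jump `0`. -/
def mirP (A : PAtlas Q F ψ Z C r nS nN t₀) {t₁ : ℝ} (hK : ∀ i, ∃ J, A.K i = .ver J)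
    (ht : ∀ i J, A.K i = .ver J → t₁ ≤ tJ (Jm (A.m i) J) ∨ (Jm (A.m i) J = -(Real.pi / 3) ∧ A.m i = 2))
    (hn : ∀ i, A.m' i = 2) (hJ : ∀ i, (A.nch i).Jump ψ 0) (hμ : IsEmpty A.μ) :
    PAtlas (mir Q) F (mps ψ) (Z.image Prod.swap) (C.image Prod.swap) r nS nN t₁ where
  κ := A.κ
  fκ := A.fκ
  dκ := A.dκ
  K := fun i => mK (A.m i) (A.K i)
  m := A.m
  o := fun i => -(A.o i + A.m i)
  v := fun i => rV (A.v i)
  ch := fun i => mirW (A.m_rng i) (A.ch i)
  m_rng := A.m_rng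
  jmp := fun i => mirW_sjump (A.m_rng i) (by
    obtain ⟨J, h⟩ := hK i
    have h1 := A.jmp i
    rw [h] at h1 ⊢
    exact h1)
  tpos := fun i J h => by
    obtain ⟨J', hK⟩ := hK i
    rw [hK] at h
    have h1 : Jm (A.m i) J' = J := SK.ver.inj h
    rw [← h1]
    exact ht i J' hK
  disj := fun i j hij => by
    rw [mirW_box, mirW_box]
    exact A.disj i j hij
  cardS := A.cardS
  chZ := fun i => by
    rw [mirW_walls]
    exact Finset.image_subset_image (A.chZ i)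
  ι := A.ι
  fι := A.fι
  m' := A.m'
  o' := fun i => -(A.o' i + A.m' i)
  v' := fun i => rV (A.v' i)
  nch := fun i => mirW (A.m'_rng i) (A.nch i)
  m'_rng := A.m'_rng
  njmp := fun i => by
    left
    have h1 := mirW_jump (A.m'_rng i) (hJ i)
    have h2 : Jm (A.m' i) 0 = 0 := by
      rw [hn i]
      unfold Jm
      push_cast
      ring
    rwa [h2] at h1
  nZ := fun i => by
    rw [mirW_walls]
    exact Finset.image_subset_image (A.nZ i)
  ndisj := fun i j => by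
    rw [mirW_box, mirW_box]
    exact A.ndisj i j
  cardN := A.cardN
  μ := Empty
  lf := fun i => i.elim
  w := fun i => i.elim
  h := fun i => i.elim
  l := fun i => i.elim
  mch := fun i => i.elim
  h_lt := fun i => i.elim
  mnat := fun i => i.elim
  mZ := fun i => i.elim
  mdisj := fun i => i.elim
  cardM := by simp
  cover := fun x hx => by
    obtain ⟨a, ha, rfl⟩ := Finset.mem_image.mp hx
    rcases A.cover a ha with ⟨i, h⟩ | ⟨i, h⟩ | ⟨i, _⟩
    · refine Or.inl ⟨i, ?_⟩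
      rw [mirW_walls]
      exact Finset.mem_image_of_mem _ h
    · refine Or.inr (Or.inl ⟨i, ?_⟩)
      rw [mirW_walls]
      exact Finset.mem_image_of_mem _ h
    · exact hμ.elim i

/-- **Mirror image of one special chart** of the kind `e` or `em`, the marked side is the first side of `wIn`. -/
def mirE {o : ZMod 4} {v : ℤ × ℤ} {K : SK} (c : WChart Q F 2 o v (4 * r + 1)) (hc : SJumpR c K ψ)
    (hK : K = .e ∨ K = .em) (hZ : c.walls (4 * r) ⊆ Z) (t₁ : ℝ) :
    PAtlas (mir Q) F (mps ψ) (Z.image Prod.swap) ((c.walls (2 * r)).image Prod.swap) r 1 0 t₁ where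
  κ := Unit
  K := fun _ => mK 2 K
  m := fun _ => 2
  o := fun _ => -(o + (2 : ℕ))
  v := fun _ => rV v
  ch := fun _ => mirW (by omega) c
  m_rng := fun _ => by omega
  jmp := fun _ => mirW_sjump (by omega) hc
  tpos := fun _ J h => by
    rcases hK with rfl | rfl
    · exact absurd h (by simp [mK])
    · exact absurd h (by simp [mK])
  disj := fun i j hij => absurd (Subsingleton.elim i j) hij
  cardS := by simp
  chZ := fun _ => by
    rw [mirW_walls]
    exact Finset.image_subset_image hZ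
  ι := Empty
  m' := fun i => i.elim
  o' := fun i => i.elim
  v' := fun i => i.elim
  nch := fun i => i.elim
  m'_rng := fun i => i.elim
  njmp := fun i => i.elim
  nZ := fun i => i.elim
  ndisj := fun i => i.elim
  cardN := by simp
  μ := Empty
  lf := fun i => i.elim
  w := fun i => i.elim
  h := fun i => i.elim
  l := fun i => i.elim
  mch := fun i => i.elim
  h_lt := fun i => i.elim
  mnat := fun i => i.elim
  mZ := fun i => i.elim
  mdisj := fun i => i.elim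
  cardM := by simp
  cover := fun x hx => by
    refine Or.inl ⟨(), ?_⟩
    rw [mirW_walls]
    exact hx

end

/-! ## The atlas of the double -/

section double

variable {ι : Type} [Fintype ι] {Q : QC V Φ} {F : Finset Φ} {l : ι → V × V} (hl : OneSided Q F l)
  {ψ : V × V → ℝ} {Z Z' : Finset (V × V)} {r nS nN nS' nN' : ℕ} {t₀ : ℝ}

/-- the island sides of the double -/
def dZ (l : ι → V × V) (Z Z' : Finset (V × V)) : Finset ((V × Bool × Bool) × (V × Bool × Bool)) :=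
  Z.image (dblA l false) ∪ Z'.image (dblA l true)

theorem mem_dZ {x : (V × Bool × Bool) × (V × Bool × Bool)} : x ∈ dZ l Z Z' ↔
    (∃ a ∈ Z, x = dblA l false a) ∨ ∃ a ∈ Z', x = dblA l true a := by
  unfold dZ
  rw [Finset.mem_union, Finset.mem_image, Finset.mem_image]
  exact or_congr ⟨fun ⟨a, h, e⟩ => ⟨a, h, e.symm⟩, fun ⟨a, h, e⟩ => ⟨a, h, e.symm⟩⟩
    ⟨fun ⟨a, h, e⟩ => ⟨a, h, e.symm⟩, fun ⟨a, h, e⟩ => ⟨a, h, e.symm⟩⟩

theorem card_dZ (hZ : Z ⊆ dE Q F) (hc : ∀ a ∈ Z, a ∉ eds l) (hl : OneSided Q F l) :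
    (dZ l Z Z').card = Z.card + Z'.card := by
  unfold dZ
  rw [Finset.card_union_of_disjoint, Finset.card_image_of_injective _ (fun _ _ h => dblA_inj h),
    Finset.card_image_of_injective _ (fun _ _ h => dblA_inj h)]
  rw [Finset.disjoint_left]
  intro x hx hx'
  obtain ⟨a, ha, rfl⟩ := Finset.mem_image.mp hx
  obtain ⟨b, hb, e⟩ := Finset.mem_image.mp hx'
  exact hc a ha (dblA_cross hl (by simp) (hZ ha) e.symm).1

theorem disj_cp {b c : Bool} (hbc : b ≠ c) {R S : Finset (ℤ × ℤ)} {g h : ℤ × ℤ → Φ} :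
    Disjoint (R.image fun f => (g f, b)) (S.image fun f => (h f, c)) := by
  rw [image_iF, image_iF]
  exact disj_iF' hbc _ _

/-- **ATLAS OF THE DOUBLE.** -/
def dblAtlas (A : Atlas Q F ψ Z r nS nN t₀) (hA : OffCut l A)
    (B : Atlas (mir Q) F (mps ψ) Z' r nS' nN' t₀) (hB : OffCut l B) :
    Atlas (dbl Q F l hl) (dblFs F) (dps ψ (mps ψ)) (dZ l Z Z') r (nS + nS') (nN + nN') t₀ :=
  unA (cpA hl false A hA (dps ψ (mps ψ)) fun a ha hc => dps_copy hl ψ (mps ψ) (b := false) ha hc)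
    (cpA hl true (Q := Q) B hB (dps ψ (mps ψ)) fun a ha hc =>
      dps_copy hl ψ (mps ψ) (b := true) ha hc)
    (fun _ _ => disj_cp (by simp)) (fun _ _ => disj_cp (by simp)) (fun _ _ => disj_cp (by simp))
    (fun _ _ => disj_cp (by simp)) (fun _ _ => disj_cp (by simp))

/-- product of the local factors -/
def prS (A : Atlas Q F ψ Z r nS nN t₀) : ℝ :=
  letI := A.fκ
  ∏ i, sF (A.K i) (A.m i) r

theorem prS_unA {A : Atlas Q F ψ Z r nS nN t₀} {B : Atlas Q F ψ Z' r nS' nN' t₀}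
    (h1 : ∀ i j, Disjoint ((A.ch i).box (4 * r)) ((B.ch j).box (4 * r)))
    (h2 : ∀ i j, Disjoint ((A.nch i).box (2 * r)) ((B.ch j).box r))
    (h3 : ∀ i j, Disjoint ((B.nch i).box (2 * r)) ((A.ch j).box r))
    (h4 : ∀ i j, Disjoint ((Mth (A.lf i) (A.w i) (2 * r) (A.h i) (A.l i)).image (A.mch i).φF)
      ((B.ch j).box r))
    (h5 : ∀ i j, Disjoint ((Mth (B.lf i) (B.w i) (2 * r) (B.h i) (B.l i)).image (B.mch i).φF)
      ((A.ch j).box r)) :
    prS (unA A B h1 h2 h3 h4 h5) = prS A * prS B := by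
  let _ := A.fκ
  let _ := B.fκ
  exact Fintype.prod_sum_type _

theorem prS_cpA (b : Bool) (A : Atlas (cpQ Q b) F ψ Z r nS nN t₀) (hA : OffCut l A)
    (Ψ : (V × Bool × Bool) × (V × Bool × Bool) → ℝ)
    (hΨ : ∀ a ∈ dE Q F, a ∉ eds l → Ψ (dblA l b a) = ψ a) :
    prS (cpA hl b A hA Ψ hΨ) = prS A := rfl

theorem dblAtlas_prS (A : Atlas Q F ψ Z r nS nN t₀) (hA : OffCut l A)
    (B : Atlas (mir Q) F (mps ψ) Z' r nS' nN' t₀) (hB : OffCut l B) :
    prS (dblAtlas hl A hA B hB) = prS A * prS B := prS_unA _ _ _ _ _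

/-- The hypothesis `OffCut` from a property of the vertices of the walls. -/
theorem offCut_of (A : Atlas Q F ψ Z r nS nN t₀) (P : V → Prop) (hP : ∀ v, onCut l v → ¬ P v)
    (h1 : ∀ i, ∀ a ∈ wIn (A.o i + A.m i) (A.v i) (4 * r + 1) ∪ wOut (A.o i) (A.v i) (4 * r + 1),
      P ((A.ch i).side a).1)
    (h2 : ∀ i, ∀ a ∈ wIn (A.o' i + A.m' i) (A.v' i) (2 * r + 1) ∪ wOut (A.o' i) (A.v' i) (2 * r + 1),
      P ((A.nch i).side a).1)
    (h3 : ∀ i, ∀ j, ∀ a ∈ mthWall (A.lf i) (A.w i) (2 * r + 1) (A.h i) (A.l i + 1) j,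
      P ((A.mch i).side a).1)
    (h4 : ∀ a ∈ Z, P a.1) : OffCut l A := by
  have key : ∀ a ∈ eds l, onCut l a.1 := by
    intro a ha
    obtain ⟨j, h | h⟩ := mem_eds.mp ha
    · exact ⟨j, Or.inl (by rw [h])⟩
    · exact ⟨j, Or.inr (by rw [h]; rfl)⟩
  exact ⟨fun i a ha hc => hP _ (key _ hc) (h1 i a ha), fun i a ha hc => hP _ (key _ hc) (h2 i a ha),
    fun i j a ha hc => hP _ (key _ hc) (h3 i j a ha), fun a ha hc => hP _ (key _ hc) (h4 a ha)⟩

/-- The hypothesis `OffCut` for the mirror image of a partial atlas. -/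
theorem offCut_mirP (A : PAtlas Q F ψ Z Z r nS nN t₀) {t₁ : ℝ} (hK : ∀ i, ∃ J, A.K i = .ver J)
    (ht : ∀ i J, A.K i = .ver J → t₁ ≤ tJ (Jm (A.m i) J) ∨ (Jm (A.m i) J = -(Real.pi / 3) ∧ A.m i = 2))
    (hn : ∀ i, A.m' i = 2) (hJ : ∀ i, (A.nch i).Jump ψ 0) (hμ : IsEmpty A.μ)
    (hZ : Z.image Prod.swap ⊆ bS (mir Q) F)
    (h1 : ∀ i, ∀ a ∈ wIn (A.o i + A.m i) (A.v i) (4 * r + 1) ∪ wOut (A.o i) (A.v i) (4 * r + 1),
      (A.ch i).side a ∉ eds l)
    (h2 : ∀ i, ∀ a ∈ wIn (A.o' i + A.m' i) (A.v' i) (2 * r + 1) ∪ wOut (A.o' i) (A.v' i) (2 * r + 1),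
      (A.nch i).side a ∉ eds l)
    (h3 : ∀ a ∈ Z, a ∉ eds l) : OffCut l ((mirP A hK ht hn hJ hμ).toAtlas hZ (subset_refl _)) where
  sp := fun i a ha h => by
    have e : ((((mirP A hK ht hn hJ hμ).toAtlas hZ (subset_refl _)).ch i).side a) =
        ((A.ch i).side (rS a)).swap := rfl
    rw [e, swap_mem_eds] at h
    refine h1 i (rS a) ?_ h
    rcases Finset.mem_union.mp ha with ha | ha
    · exact Finset.mem_union_right _ (rS_wIn' ha)
    · exact Finset.mem_union_left _ (rS_wOut' ha)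
  na := fun i a ha h => by
    have e : ((((mirP A hK ht hn hJ hμ).toAtlas hZ (subset_refl _)).nch i).side a) =
        ((A.nch i).side (rS a)).swap := rfl
    rw [e, swap_mem_eds] at h
    refine h2 i (rS a) ?_ h
    rcases Finset.mem_union.mp ha with ha | ha
    · exact Finset.mem_union_right _ (rS_wIn' ha)
    · exact Finset.mem_union_left _ (rS_wOut' ha)
  mo := fun i => i.elim
  z := fun a ha h => by
    obtain ⟨b, hb, rfl⟩ := Finset.mem_image.mp ha
    exact h3 b hb (swap_mem_eds.mp h)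

theorem image_swap_bS (hZ : Z ⊆ bS Q F) : Z.image Prod.swap ⊆ bS (mir Q) F := by
  rw [bS_mir]
  exact Finset.image_subset_image hZ

/-- **ATLAS OF THE DOUBLE** of a half without marked sides and mouths, with flat natural charts of jump `0`. -/
def dblAtlas0 (A : Atlas Q F ψ Z r nS nN t₀) (hA : OffCut l A) (hK : ∀ i, ∃ J, A.K i = .ver J)
    (ht : ∀ i J, A.K i = .ver J → t₀ ≤ tJ (Jm (A.m i) J) ∨ (Jm (A.m i) J = -(Real.pi / 3) ∧ A.m i = 2))
    (hn : ∀ i, A.m' i = 2) (hJ : ∀ i, (A.nch i).Jump ψ 0) (hμ : IsEmpty A.μ) :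
    Atlas (dbl Q F l hl) (dblFs F) (dps ψ (mps ψ)) (dZ l Z (Z.image Prod.swap)) r (nS + nS) (nN + nN) t₀ :=
  dblAtlas hl A hA ((mirP A.toP hK ht hn hJ hμ).toAtlas (image_swap_bS A.Z_sub) (subset_refl _))
    (offCut_mirP A.toP hK ht hn hJ hμ _ hA.sp hA.na hA.z)

/-- Change of the lower bound `t₀` and of the numbers of charts. -/
def monoA (A : Atlas Q F ψ Z r nS nN t₀) {t₁ : ℝ} (ht : t₁ ≤ t₀) (hS : nS ≤ nS') (hN : nN ≤ nN') :
    Atlas Q F ψ Z r nS' nN' t₁ :=
  { A with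
    tpos := fun i J h => (A.tpos i J h).imp_left ht.trans
    cardS := A.cardS.trans hS
    cardN := A.cardN.trans hN
    cardM := A.cardM.trans hN }

theorem prS_monoA (A : Atlas Q F ψ Z r nS nN t₀) {t₁ : ℝ} (ht : t₁ ≤ t₀) (hS : nS ≤ nS')
    (hN : nN ≤ nN') : prS (monoA A ht hS hN) = prS A := rfl

/-! ## Colours -/

/-- colours of the faces along the charts of an atlas -/
structure ColA (D : Φ → Bool) (A : Atlas Q F ψ Z r nS nN t₀) : Prop where
  sp : ∀ i, ∃ cc : ℤ, ∀ f ∈ Wdg (A.m i) (A.o i) (A.v i) (4 * r + 1), D ((A.ch i).φF f) = !Perc.parD cc f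
  na : ∀ i, ∃ cc : ℤ, ∀ f ∈ Wdg (A.m' i) (A.o' i) (A.v' i) (2 * r + 1),
    D ((A.nch i).φF f) = !Perc.parD cc f
  mo : ∀ i, ∃ cc : ℤ, ∀ f ∈ Mth (A.lf i) (A.w i) (2 * r + 1) (A.h i) (A.l i + 1),
    D ((A.mch i).φF f) = !Perc.parD cc f

/-- colours of the double -/
def dD (D : Φ → Bool) (x : Φ × Bool) : Bool := D x.1

theorem parD_rF (cc : ℤ) (f : ℤ × ℤ) : Perc.parD cc (rF f) = Perc.parD (cc + 1) f := by
  unfold Perc.parD rF
  simp only [decide_eq_decide]
  omega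

theorem ColA.dbl {D : Φ → Bool} {A : Atlas Q F ψ Z r nS nN t₀} {hA : OffCut l A}
    {B : Atlas (mir Q) F (mps ψ) Z' r nS' nN' t₀} {hB : OffCut l B} (h1 : ColA D A) (h2 : ColA D B) :
    ColA (dD D) (dblAtlas hl A hA B hB) where
  sp := by
    rintro (i | i)
    · exact h1.sp i
    · exact h2.sp i
  na := by
    rintro (i | i)
    · exact h1.na i
    · exact h2.na i
  mo := by
    rintro (i | i)
    · exact h1.mo i
    · exact h2.mo i

/-- colours along the mirror image of a chart -/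
theorem mirW_col {D : Φ → Bool} {m : ℕ} {o : ZMod 4} {v : ℤ × ℤ} {R : ℕ} (hm : 1 ≤ m ∧ m ≤ 3)
    (c : WChart Q F m o v R) (h : ∃ cc : ℤ, ∀ f ∈ Wdg m o v R, D (c.φF f) = !Perc.parD cc f) :
    ∃ cc : ℤ, ∀ f ∈ Wdg m (-(o + m)) (rV v) R, D ((mirW hm c).φF f) = !Perc.parD cc f := by
  obtain ⟨cc, h⟩ := h
  refine ⟨cc + 1, fun f hf => ?_⟩
  rw [← parD_rF]
  exact h _ ((Wdg_r' hm).mp hf)

end double

end

end Pool.Agent.SixB.Dbl
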