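import Pool.Agent.Lib.SixB.S3PathV
import Pool.Agent.Lib.SixB.S3DblAtl
import Pool.Agent.Lib.SixB.S3Star

/-!
# 6BD step 3, row R21: mirror images of typed partial atlases

* `Dbl.mK_star`: the kind of the mirror image is `SK.star`.
* `PAV.mir`: mirror image of a typed partial atlas whose types are all `ver J`; its types are `mst M`, its regions
  are unchanged.
* `PAV.mirE`: mirror image of one special chart of the kind `e` or `em` (marked side before the centre).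
* `PAV.mirEs`: the same for a finite family of such charts.
-/

set_option autoImplicit false
set_option linter.unusedSectionVars false

namespace Pool.Agent.SixB

open Pool.Agent.Perc.Q Pool.Agent.Perc

noncomputable section

theorem Dbl.mK_star (m : ℕ) (K : SK) : Dbl.mK m K = K.star m := by
  cases K <;> rfl

variable {V Φ : Type} [DecidableEq V] [DecidableEq Φ]

variable {Q : QC V Φ} {F : Finset Φ} {ψ : V × V → ℝ} {Z C C' : Finset (V × V)}
  {r nN : ℕ} {t₀ t₁ : ℝ} {S4 S1 N2 G : Set Φ} {M : Multiset (SK × ℕ)}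

/-- types without marks whose mirror images are admissible -/
def MirOk (t₁ : ℝ) (M : Multiset (SK × ℕ)) : Prop :=
  ∀ p ∈ M, ∃ J, p.1 = .ver J ∧ (t₁ ≤ tJ (Dbl.Jm p.2 J) ∨ (Dbl.Jm p.2 J = -(Real.pi / 3) ∧ p.2 = 2))

theorem MirOk.add {M N : Multiset (SK × ℕ)} (h : MirOk t₁ M) (h' : MirOk t₁ N) : MirOk t₁ (M + N) := by
  intro p hp
  rcases Multiset.mem_add.1 hp with hp | hp
  · exact h p hp
  · exact h' p hp

theorem MirOk.le {M N : Multiset (SK × ℕ)} (h : MirOk t₁ M) (hN : N ≤ M) : MirOk t₁ N :=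
  fun p hp => h p (Multiset.mem_of_le hN hp)

/-- **mirror image of a typed partial atlas without marks** -/
theorem PAV.mir (h : PAV Q F ψ Z C r nN t₀ S4 S1 N2 G M) (hM : MirOk t₁ M) :
    PAV (Dbl.mir Q) F (Dbl.mps ψ) (Z.image Prod.swap) (C.image Prod.swap) r nN t₁ S4 S1 N2 G
      (mst M) := by
  obtain ⟨A, a1, a2, a3, a4, a5, a6, a7, a8⟩ := h
  have hK : ∀ i, ∃ J, A.K i = .ver J ∧
      (t₁ ≤ tJ (Dbl.Jm (A.m i) J) ∨ (Dbl.Jm (A.m i) J = -(Real.pi / 3) ∧ A.m i = 2)) := by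
    intro i
    have h1 : (A.K i, A.m i) ∈ (Finset.univ : Finset A.κ).val.map (fun i => (A.K i, A.m i)) :=
      Multiset.mem_map.2 ⟨i, Finset.mem_univ_val i, rfl⟩
    rw [a8] at h1
    exact hM _ h1
  have hK1 : ∀ i, ∃ J, A.K i = .ver J := fun i => ⟨_, (hK i).choose_spec.1⟩
  have hK2 : ∀ i J, A.K i = .ver J →
      t₁ ≤ tJ (Dbl.Jm (A.m i) J) ∨ (Dbl.Jm (A.m i) J = -(Real.pi / 3) ∧ A.m i = 2) := by
    intro i J hJ
    obtain ⟨J', h1, h2⟩ := hK i
    rw [hJ] at h1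
    rw [SK.ver.inj h1]
    exact h2
  refine PAV.of (Dbl.mirP A hK1 hK2 (fun i => (a6 i).1) (fun i => (a6 i).2) a7) ?_ ?_ ?_ ?_ ?_ ?_ ?_ ?_
  · intro i f hf
    have h1 : f ∈ (Dbl.mirW (A.m_rng i) (A.ch i)).box (4 * r) := hf
    rw [Dbl.mirW_box] at h1
    exact a1 i f h1
  · intro i f hf
    have h1 : f ∈ (Dbl.mirW (A.m_rng i) (A.ch i)).box r := hf
    rw [Dbl.mirW_box] at h1
    exact a2 i f h1
  · intro i f hf
    have h1 : f ∈ (Dbl.mirW (A.m'_rng i) (A.nch i)).box (2 * r) := hf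
    rw [Dbl.mirW_box] at h1
    exact a3 i f h1
  · intro i f hf
    exact a4 i (Dbl.rF f) ((Dbl.Wdg_r' (A.m_rng i)).1 hf)
  · intro i f hf
    exact a5 i (Dbl.rF f) ((Dbl.Wdg_r' (A.m'_rng i)).1 hf)
  · intro i
    refine ⟨(a6 i).1, ?_⟩
    have h1 := Dbl.mirW_jump (A.m'_rng i) (a6 i).2
    have h2 : Dbl.Jm (A.m' i) 0 = 0 := by
      rw [(a6 i).1]
      unfold Dbl.Jm
      push_cast
      ring
    rwa [h2] at h1
  · exact ⟨fun i => Empty.elim i⟩
  · refine Eq.trans ?_ (congrArg mst a8)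
    unfold mst
    rw [Multiset.map_map]
    refine Multiset.map_congr rfl fun i _ => ?_
    show (Dbl.mK (A.m i) (A.K i), A.m i) = VT.star (A.K i, A.m i)
    rw [Dbl.mK_star]
    rfl

/-- **mirror image of one special chart** of the kind `e` or `em`, the marked side before the centre -/
theorem PAV.mirE {o : ZMod 4} {v : ℤ × ℤ} {K : SK} (c : WChart Q F 2 o v (4 * r + 1))
    (hc : Dbl.SJumpR c K ψ) (hK : K = .e ∨ K = .em) (hZ : c.walls (4 * r) ⊆ Z) (t₁ : ℝ) :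
    PAV (Dbl.mir Q) F (Dbl.mps ψ) (Z.image Prod.swap) ((c.walls (2 * r)).image Prod.swap) r 0 t₁
      (c.box (4 * r) : Set Φ) (c.box r : Set Φ) ∅ (c.box (4 * r + 1) : Set Φ) (mst {(K, 2)}) := by
  refine PAV.of (Dbl.mirE c hc hK hZ t₁) ?_ ?_ ?_ ?_ ?_ ?_ ?_ ?_
  · intro i f hf
    have h1 : f ∈ (Dbl.mirW (by omega) c).box (4 * r) := hf
    rw [Dbl.mirW_box] at h1
    exact Finset.mem_coe.2 h1
  · intro i f hf
    have h1 : f ∈ (Dbl.mirW (by omega) c).box r := hf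
    rw [Dbl.mirW_box] at h1
    exact Finset.mem_coe.2 h1
  · intro i
    exact Empty.elim i
  · intro i f hf
    exact Finset.mem_coe.2 (Finset.mem_image_of_mem _ ((Dbl.Wdg_r' (by omega)).1 hf))
  · intro i
    exact Empty.elim i
  · intro i
    exact Empty.elim i
  · exact ⟨fun i => Empty.elim i⟩
  · show Multiset.map (fun _ => (Dbl.mK 2 K, 2)) (Finset.univ : Finset Unit).val = _
    rw [Dbl.mK_star]
    rfl

/-- **mirror images of a finite family of special charts** of the kinds `e`, `em`, the marked side before the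
centre -/
theorem PAV.mirEs {κ : Type} [Fintype κ] [DecidableEq κ] (K : κ → SK) (m : κ → ℕ) (o : κ → ZMod 4)
    (v : κ → ℤ × ℤ) (c : ∀ i, WChart Q F (m i) (o i) (v i) (4 * r + 1))
    (hm : ∀ i, 1 ≤ m i ∧ m i ≤ 3) (hc : ∀ i, Dbl.SJumpR (c i) (K i) ψ)
    (hK : ∀ i, K i = .e ∨ K i = .em)
    (hd : ∀ i j, i ≠ j → Disjoint ((c i).box (4 * r)) ((c j).box (4 * r)))
    (hZ : ∀ i, (c i).walls (4 * r) ⊆ Z)
    (hC : ∀ a ∈ C, ∃ i, a ∈ (c i).walls (2 * r))
    (h4 : ∀ i, ∀ f ∈ (c i).box (4 * r), f ∈ S4) (h1 : ∀ i, ∀ f ∈ (c i).box r, f ∈ S1)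
    (hG : ∀ i, ∀ f ∈ Wdg (m i) (o i) (v i) (4 * r + 1), (c i).φF f ∈ G)
    (hM : (Finset.univ : Finset κ).val.map (fun i => (K i, m i)) = M) (t₁ : ℝ) :
    PAV (Dbl.mir Q) F (Dbl.mps ψ) (Z.image Prod.swap) (C.image Prod.swap) r 0 t₁ S4 S1 ∅ G
      (mst M) := by
  refine PAV.fam (κ := κ) (fun i => Dbl.mK (m i) (K i)) m (fun i => -(o i + m i))
    (fun i => Dbl.rV (v i)) (fun i => Dbl.mirW (hm i) (c i)) hm
    (fun i => Dbl.mirW_sjump (hm i) (hc i)) ?_ ?_ ?_ ?_ ?_ ?_ ?_ ?_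
  · intro i J h
    rcases hK i with h2 | h2
    · rw [h2] at h
      exact absurd h (by simp [Dbl.mK])
    · rw [h2] at h
      exact absurd h (by simp [Dbl.mK])
  · intro i j hij
    rw [Dbl.mirW_box, Dbl.mirW_box]
    exact hd i j hij
  · intro i
    rw [Dbl.mirW_walls]
    exact Finset.image_subset_image (hZ i)
  · intro a ha
    obtain ⟨b, hb, rfl⟩ := Finset.mem_image.1 ha
    obtain ⟨i, hi⟩ := hC b hb
    refine ⟨i, ?_⟩
    rw [Dbl.mirW_walls]
    exact Finset.mem_image_of_mem _ hi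
  · intro i f hf
    rw [Dbl.mirW_box] at hf
    exact h4 i f hf
  · intro i f hf
    rw [Dbl.mirW_box] at hf
    exact h1 i f hf
  · intro i f hf
    exact hG i (Dbl.rF f) ((Dbl.Wdg_r' (hm i)).1 hf)
  · refine Eq.trans ?_ (congrArg mst hM)
    unfold mst
    rw [Multiset.map_map]
    refine Multiset.map_congr rfl fun i _ => ?_
    show (Dbl.mK (m i) (K i), m i) = VT.star (K i, m i)
    rw [Dbl.mK_star]
    rfl

end

end Pool.Agent.SixB
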