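import Pool.Agent.Lib.SixB.S3UpD
import Pool.Agent.Lib.SixB.S3DblPAV
import Pool.Agent.Lib.SixB.S3MirV

/-!
# 6BD step 3, row R21: the atlases of the doubled halves

* `UpE.tyP_parts`: the special positions are in the upper or in the lower part.
* `UpE.MirA`: the mirrored half.
* `UpE.dblHi`, `UpE.dblLo`: the atlases of the doubled halves, types `M + mst M`.
-/

set_option autoImplicit false
set_option linter.unusedSectionVars false

namespace Pool.Agent.SixB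

open Pool.Agent.Perc.Q Pool.Agent.Perc EmbH EnvB

noncomputable section

/-- smaller lower bound of the weights -/
theorem PAV.tmono {V Φ : Type} [DecidableEq V] [DecidableEq Φ] {Q : QC V Φ} {F : Finset Φ}
    {ψ : V × V → ℝ} {Z C : Finset (V × V)} {r nN : ℕ} {t₀ t₁ : ℝ} {S4 S1 N2 G : Set Φ}
    {M : Multiset (SK × ℕ)} (h : PAV Q F ψ Z C r nN t₀ S4 S1 N2 G M) (ht : t₁ ≤ t₀) :
    PAV Q F ψ Z C r nN t₁ S4 S1 N2 G M := by
  obtain ⟨A, a1, a2, a3, a4, a5, a6, a7, a8⟩ := h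
  exact ⟨{ A with tpos := fun i J hJ => (A.tpos i J hJ).imp (fun h => ht.trans h) id },
    a1, a2, a3, a4, a5, a6, a7, a8⟩

namespace UpE

variable {S : Slb} {W : Finset (ℤ × ℤ)} {X Y : ℤ} {B : ℤ × ℤ → Prop} {r : ℕ} {t₀ t₁ : ℝ}
  {P : Finset (ℤ × ℤ)} {n N : ℕ} {G : ℤ → ℤ × ℤ} {j : ℤ → ℝ} {T : Finset ℤ} {K : ℤ → SK}
  {F' : Finset (Option Bool × (ℤ × ℤ))}

/-- the charts of the special positions are off the slab -/
theorem pos_off (h : S.Ok) (hD : S.D = rf n P) (hs : PolyAtl.Spc P n N G j S.ψ T K r t₀)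
    (hT : ∀ x ∈ T, PolyAtl.mm G x ≠ 2 ∨ j x ≠ 0) (hra : 16 * r ≤ S.a) {x : ℤ} (hx : x ∈ T)
    {f : ℤ × ℤ} (hf : f ∈ Wdg (PolyAtl.mm G x) (PolyAtl.dd G x) (G x) (4 * r + 1)) :
    f ∈ S.D \ S.slb := by
  rw [Finset.mem_sdiff]
  refine ⟨?_, off_box (fun h6 => far_of_spc' h hD hs hT hra x hx (near_mono h6 (by omega)))
    (Wdg_sub_Bx hf)⟩
  rw [hD]
  exact (hs.sch hx).sub f hf

/-- **every special position is in exactly one of the two parts** -/
theorem prt_parts (h : S.Ok) (hD : S.D = rf n P) (hs : PolyAtl.Spc P n N G j S.ψ T K r t₀)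
    (hT : ∀ x ∈ T, PolyAtl.mm G x ≠ 2 ∨ j x ≠ 0) (hra : 16 * r ≤ S.a) :
    prt G r (fun f => f ∈ S.Up) T ∪ prt G r (fun f => f ∈ S.Lo) T = T ∧
      Disjoint (prt G r (fun f => f ∈ S.Up) T) (prt G r (fun f => f ∈ S.Lo) T) := by
  have hne : ∀ x ∈ T, lf4 (PolyAtl.dd G x) (G x) ∈
      Wdg (PolyAtl.mm G x) (PolyAtl.dd G x) (G x) (4 * r + 1) := by
    intro x _
    rw [mem_Wdg]
    refine ⟨mem_Bx.1 (lf4_box (by omega) _ _), ?_⟩
    rw [lf4_quad, sub_self]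
    have := (PolyAtl.mm_rng hs.hc x).1
    simp only [ZMod.val_zero]
    omega
  constructor
  · ext x
    rw [Finset.mem_union, mem_prt, mem_prt]
    constructor
    · rintro (h1 | h1)
      · exact h1.1
      · exact h1.1
    · intro hx
      have hm : PolyAtl.mm G x ≤ 4 := by have := (PolyAtl.mm_rng hs.hc x).2; omega
      have hoff := fun f hf => pos_off (f := f) h hD hs hT hra hx hf
      rcases h.cases (hoff _ (hne x hx)) with h5 | h5
      · exact Or.inl ⟨hx, fun g hg => S.comp_up.wdg hm hoff (hne x hx) h5.1 hg⟩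
      · exact Or.inr ⟨hx, fun g hg => S.comp_lo.wdg hm hoff (hne x hx) h5.1 hg⟩
  · rw [Finset.disjoint_left]
    intro x h1 h2
    rw [mem_prt] at h1 h2
    have h3 := h1.2 _ (hne x h1.1)
    have h4 := h2.2 _ (hne x h1.1)
    exact not_up h (pos_off h hD hs hT hra h1.1 (hne x h1.1)) h4 h3

/-- **census**: the types of the two parts -/
theorem tyP_parts (h : S.Ok) (hD : S.D = rf n P) (hs : PolyAtl.Spc P n N G j S.ψ T K r t₀)
    (hT : ∀ x ∈ T, PolyAtl.mm G x ≠ 2 ∨ j x ≠ 0) (hra : 16 * r ≤ S.a) :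
    tyP G K r (fun f => f ∈ S.Up) T + tyP G K r (fun f => f ∈ S.Lo) T =
      T.val.map fun x => (K x, PolyAtl.mm G x) := by
  obtain ⟨h1, h2⟩ := prt_parts h hD hs hT hra
  have h3 : T.val = (prt G r (fun f => f ∈ S.Up) T).val + (prt G r (fun f => f ∈ S.Lo) T).val := by
    have h4 := congrArg Finset.val h1
    rw [← Finset.disjUnion_eq_union _ _ h2] at h4
    exact h4.symm
  rw [h3, Multiset.map_add]
  rfl

theorem tyP_all : tyP G K r (fun _ => True) T = T.val.map fun x => (K x, PolyAtl.mm G x) := by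
  unfold tyP
  rw [prt_all]

/-- **the mirrored part**: its island sides are covered, the types are the mirrored types -/
def MirA (S : Slb) (W : Finset (ℤ × ℤ)) (X Y : ℤ) (F' : Finset (Option Bool × (ℤ × ℤ)))
    (r nM : ℕ) (t₀ : ℝ) (G : Set (Option Bool × (ℤ × ℤ))) (M : Multiset VT) : Prop :=
  ∃ C S4 S1 N2, PAV (Dbl.mir (S.env W X Y).Q) F' (Dbl.mps (S.ph W X Y))
    ((zh (S.env W X Y) F').image Prod.swap) C r nM t₀ S4 S1 N2 G (mst M) ∧
      (zh (S.env W X Y) F').image Prod.swap ⊆ C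

variable {ι : Type} [Fintype ι]
  {l : ι → (Option Bool × (ℤ × ℤ)) × (Option Bool × (ℤ × ℤ))} {x : ι → ℤ}

theorem zh_swap_bS : (zh (S.env W X Y) F').image Prod.swap ⊆ bS (Dbl.mir (S.env W X Y).Q) F' :=
  Dbl.image_swap_bS zh_bS

theorem card_blkV (μ : ℝ) : Multiset.card (St.blkV μ) = 26 := rfl

theorem card_tyP : Multiset.card (tyP G K r B T) ≤ T.card := by
  unfold tyP
  rw [Multiset.card_map]
  exact Finset.card_le_card fun x hx => (mem_prt.1 hx).1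

theorem card_two {μ : ℝ} {c : ℕ} {M : Multiset VT} (h : Multiset.card M ≤ c) :
    Multiset.card (St.blkV μ + M) + Multiset.card (mst (St.blkV μ + M)) ≤ 2 * (26 + c) := by
  unfold mst
  rw [Multiset.card_map, Multiset.card_add, card_blkV]
  omega

/-- **the atlas of the doubled upper half** -/
theorem dblHi (h : S.Ok) (hD : S.D = rf n P) (hs : PolyAtl.Spc P n N G j S.ψ T K r t₀)
    (hT : ∀ x ∈ T, PolyAtl.mm G x ≠ 2 ∨ j x ≠ 0) (hra : 16 * r ≤ S.a) {y : ℤ}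
    (hy1 : S.yc - S.a < y) (hy2 : y + (4 * r + 1) < S.yc + S.a) {nB nM : ℕ}
    (hb : BlkU S W X Y r nB t₀)
    (hm : MirA S W X Y ((S.env W X Y).hi y) r nM t₀ (gU S (4 * r + 1))
      (St.blkV S.mu + tyP G K r (fun f => f ∈ S.Up) T))
    (hl : ∀ i, l i = SEnv.cutH y (x i)) (ho : OneSided (S.env W X Y).Q ((S.env W X Y).hi y) l) :
    ∃ A : Atlas (dbl (S.env W X Y).Q ((S.env W X Y).hi y) l ho) (Dbl.dblFs ((S.env W X Y).hi y))
      (Dbl.dps (S.ph W X Y) (Dbl.mps (S.ph W X Y)))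
      (Dbl.dZ l (zh (S.env W X Y) ((S.env W X Y).hi y))
        ((zh (S.env W X Y) ((S.env W X Y).hi y)).image Prod.swap)) r
      (2 * (26 + T.card)) (nB + (12 + (N / r + 1 + 2 * T.card)) + nM) t₀,
      St.vts A = (St.blkV S.mu + tyP G K r (fun f => f ∈ S.Up) T) +
        mst (St.blkV S.mu + tyP G K r (fun f => f ∈ S.Up) T) ∧
      (∀ i, A.m' i = 2 ∧ (A.nch i).Jump (Dbl.dps (S.ph W X Y) (Dbl.mps (S.ph W X Y))) 0) ∧
      IsEmpty A.μ := by
  obtain ⟨C, h1, h2⟩ := hiSpc h hD hs hT hra hy1 hy2.le hb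
  obtain ⟨C', S4, S1, N2, h3, h4⟩ := hm
  obtain ⟨A, a1, a2, a3⟩ := PAV.dbl (hl := ho) h1 h3 zh_bS h2 zh_swap_bS h4
    (fun f hf hG k => off_hi h hy2 hl hf (hG.elim id id) k)
  exact ⟨Dbl.monoA A le_rfl (card_two card_tyP) le_rfl, a1, a2, a3⟩

/-- **the atlas of the doubled lower half** -/
theorem dblLo (h : S.Ok) (hD : S.D = rf n P) (hs : PolyAtl.Spc P n N G j S.ψ T K r t₀)
    (hT : ∀ x ∈ T, PolyAtl.mm G x ≠ 2 ∨ j x ≠ 0) (hra : 16 * r ≤ S.a) {y : ℤ}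
    (hy1 : S.yc - S.a + (4 * r + 1) < y) (hy2 : y < S.yc + S.a) {nB nM : ℕ}
    (hb : BlkL S W X Y r nB t₀)
    (hm : MirA S W X Y ((S.env W X Y).lo y) r nM t₀ (gL S (4 * r + 1))
      (St.blkV S.ml + tyP G K r (fun f => f ∈ S.Lo) T))
    (hl : ∀ i, l i = (SEnv.cutH y (x i)).swap)
    (ho : OneSided (S.env W X Y).Q ((S.env W X Y).lo y) l) :
    ∃ A : Atlas (dbl (S.env W X Y).Q ((S.env W X Y).lo y) l ho) (Dbl.dblFs ((S.env W X Y).lo y))
      (Dbl.dps (S.ph W X Y) (Dbl.mps (S.ph W X Y)))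
      (Dbl.dZ l (zh (S.env W X Y) ((S.env W X Y).lo y))
        ((zh (S.env W X Y) ((S.env W X Y).lo y)).image Prod.swap)) r
      (2 * (26 + T.card)) (nB + (12 + (N / r + 1 + 2 * T.card)) + nM) t₀,
      St.vts A = (St.blkV S.ml + tyP G K r (fun f => f ∈ S.Lo) T) +
        mst (St.blkV S.ml + tyP G K r (fun f => f ∈ S.Lo) T) ∧
      (∀ i, A.m' i = 2 ∧ (A.nch i).Jump (Dbl.dps (S.ph W X Y) (Dbl.mps (S.ph W X Y))) 0) ∧
      IsEmpty A.μ := by
  obtain ⟨C, h1, h2⟩ := loSpc h hD hs hT hra hy1.le hy2 hb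
  obtain ⟨C', S4, S1, N2, h3, h4⟩ := hm
  obtain ⟨A, a1, a2, a3⟩ := PAV.dbl (hl := ho) h1 h3 zh_bS h2 zh_swap_bS h4
    (fun f hf hG k => off_lo h hy1 hl hf (hG.elim id id) k)
  exact ⟨Dbl.monoA A le_rfl (card_two card_tyP) le_rfl, a1, a2, a3⟩

end UpE

end

end Pool.Agent.SixB
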