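import Pool.Agent.Lib.SixB.S3MirV
import Pool.Agent.Lib.SixB.S3BlkFin
import Pool.Agent.Lib.SixB.S3UpE
import Pool.Agent.Lib.SixB.S3Census

/-!
# 6BD step 3, row R21: the types whose mirror images are admissible

`MirOk t₁ M` (S3MirV): all types of `M` are `ver J` and the jump of the mirror image has a weight `≥ t₁`, or is
`-(π / 3)` at a flat position.
* `mirOk_blkV`, `mirOk_blkU`, `mirOk_blkL`: the types of the blocks, `t₁ ≤ BlkT.tB`.
* `nmk M`: the types of `M` without marks; `mirOk_mk`: the marks of the three families (`St.Mk`);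
  `mirOk_domV`: the special positions of a polygon.
* `mirOk_tyP_of`: the types `tyP G K r B (T.filter fun x => mkb (K x) = false)` from those of `T`;
  `mirOk_tyP`: from the structure `Spc` and the condition on the marks;
  `mirOk_fam`: for the census of the three families (`Cens.fam_types`).
-/

set_option autoImplicit false
set_option linter.unusedSectionVars false

namespace Pool.Agent.SixB

open Pool.Agent.Perc.Q Pool.Agent.Perc

noncomputable section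

variable {t₁ t₂ : ℝ} {M N : Multiset (SK × ℕ)}

theorem MirOk.mono (h : MirOk t₁ M) (ht : t₂ ≤ t₁) : MirOk t₂ M := by
  intro p hp
  obtain ⟨J, h1, h2⟩ := h p hp
  exact ⟨J, h1, h2.imp (fun h3 => ht.trans h3) id⟩

theorem MirOk.zero : MirOk t₁ 0 := fun p hp => absurd hp (Multiset.notMem_zero p)

/-- weights of the jumps near `π / 6` -/
theorem BlkT.tJ_ge' {J : ℝ} (h1 : -(5 * (Real.pi / 18)) ≤ J) (h2 : J ≤ 11 * (Real.pi / 18)) :
    BlkT.tB ≤ tJ J := by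
  have hπ := Real.pi_pos
  unfold BlkT.tB tJ
  refine div_le_div_of_nonneg_right ?_ cos_sixth_pos.le
  rw [← Real.cos_abs (J - Real.pi / 6)]
  refine Real.cos_le_cos_of_nonneg_of_le_pi (abs_nonneg _) (by linarith) ?_
  rw [abs_le]
  constructor <;> linarith

/-- **the types of a block** -/
theorem mirOk_blkV {m : ℝ} (h1 : -(2 * (Real.pi / 3)) ≤ m) (h2 : m ≤ Real.pi) (ht : t₁ ≤ BlkT.tB) :
    MirOk t₁ (St.blkV m) := by
  have hπ := Real.pi_pos
  have a1 : t₁ ≤ tJ (Dbl.Jm 1 0) := by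
    refine ht.trans (BlkT.tJ_ge' ?_ ?_) <;> unfold Dbl.Jm <;> push_cast <;> linarith
  have a3 : t₁ ≤ tJ (Dbl.Jm 3 0) := by
    refine ht.trans (BlkT.tJ_ge' ?_ ?_) <;> unfold Dbl.Jm <;> push_cast <;> linarith
  have b1 : t₁ ≤ tJ (Dbl.Jm 3 (BGeo.out m / 2)) := by
    refine ht.trans (BlkT.tJ_ge' ?_ ?_) <;> unfold Dbl.Jm BGeo.out <;> push_cast <;> linarith
  have b2 : t₁ ≤ tJ (Dbl.Jm 2 (-BGeo.alpha m)) := by
    refine ht.trans (BlkT.tJ_ge' ?_ ?_) <;> unfold Dbl.Jm BGeo.alpha <;> push_cast <;> linarith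
  have b3 : t₁ ≤ tJ (Dbl.Jm 2 (-BGeo.sig m)) := by
    refine ht.trans (BlkT.tJ_ge' ?_ ?_) <;> unfold Dbl.Jm BGeo.sig <;> push_cast <;> linarith
  intro p hp
  unfold St.blkV St.blkL at hp
  rw [Multiset.mem_coe] at hp
  simp only [List.mem_cons, List.not_mem_nil, or_false] at hp
  have key : (p = (.ver 0, 1) ∨ p = (.ver 0, 3)) ∨ p = (.ver (BGeo.out m / 2), 3) ∨
      p = (.ver (-BGeo.alpha m), 2) ∨ p = (.ver (-BGeo.sig m), 2) := by tauto
  rcases key with (rfl | rfl) | rfl | rfl | rfl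
  · exact ⟨0, rfl, Or.inl a1⟩
  · exact ⟨0, rfl, Or.inl a3⟩
  · exact ⟨_, rfl, Or.inl b1⟩
  · exact ⟨_, rfl, Or.inl b2⟩
  · exact ⟨_, rfl, Or.inl b3⟩

/-- **the types of the upper block of a slab** -/
theorem mirOk_blkU {S : Slb} (h : S.Ok) (ht : t₁ ≤ BlkT.tB) : MirOk t₁ (St.blkV S.mu) :=
  mirOk_blkV h.mu1 h.mu2 ht

/-- **the types of the lower block of a slab** -/
theorem mirOk_blkL {S : Slb} (h : S.Ok) (ht : t₁ ≤ BlkT.tB) : MirOk t₁ (St.blkV S.ml) := by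
  have hπ := Real.pi_pos
  have h1 := h.mu1
  have h2 := h.mu2
  unfold Slb.mu at h1 h2
  refine mirOk_blkV ?_ ?_ ht <;> unfold Slb.ml <;> linarith

/-! ## Types without marks -/

/-- the types without marks -/
def nmk (M : Multiset (SK × ℕ)) : Multiset (SK × ℕ) := M.filter fun p => PolyAtl.mkb p.1 = false

theorem nmk_add : nmk (M + N) = nmk M + nmk N := Multiset.filter_add _ _ _

theorem mem_nmk {p : SK × ℕ} : p ∈ nmk M ↔ p ∈ M ∧ PolyAtl.mkb p.1 = false := Multiset.mem_filter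

theorem mirOk_nmk_le (h : MirOk t₁ (nmk M)) (hN : ∀ p ∈ N, p ∈ M ∧ PolyAtl.mkb p.1 = false) :
    MirOk t₁ N := fun p hp => h p (mem_nmk.2 (hN p hp))

/-- the corners of a polygon -/
theorem mirOk_domV {b : ℕ} {X : Multiset VT} (hX : MirOk t₁ (nmk X)) (ht : t₁ ≤ BlkT.tB) :
    MirOk t₁ (nmk (St.domV b X)) := by
  have hπ := Real.pi_pos
  intro p hp
  obtain ⟨h1, h2⟩ := mem_nmk.1 hp
  unfold St.domV at h1
  rcases Multiset.mem_add.1 h1 with h3 | h3
  · rcases Multiset.mem_add.1 h3 with h4 | h4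
    · rw [Multiset.eq_of_mem_replicate h4]
      refine ⟨0, rfl, Or.inl (ht.trans (BlkT.tJ_ge' ?_ ?_))⟩ <;> unfold Dbl.Jm <;> push_cast <;> linarith
    · rw [Multiset.eq_of_mem_replicate h4]
      refine ⟨0, rfl, Or.inl (ht.trans (BlkT.tJ_ge' ?_ ?_))⟩ <;> unfold Dbl.Jm <;> push_cast <;> linarith
  · exact hX p (mem_nmk.2 ⟨h3, h2⟩)

/-- a flat mark with a jump between `0` and `π / 3` -/
theorem tJ_mark {J : ℝ} (h1 : 0 ≤ J) (h2 : J ≤ Real.pi / 3) : ∃ t : ℝ, 0 < t ∧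
    (t ≤ tJ (Dbl.Jm 2 J) ∨ (Dbl.Jm 2 J = -(Real.pi / 3) ∧ (2 : ℕ) = 2)) := by
  have hπ := Real.pi_pos
  have e : Dbl.Jm 2 J = -J := by
    unfold Dbl.Jm
    push_cast
    ring
  rw [e]
  rcases h2.eq_or_lt with rfl | h3
  · exact ⟨1, one_pos, Or.inr ⟨rfl, rfl⟩⟩
  · refine ⟨tJ (-J), ?_, Or.inl le_rfl⟩
    unfold tJ
    refine div_pos (Real.cos_pos_of_mem_Ioo ⟨?_, ?_⟩) cos_sixth_pos <;> linarith

/-- **the marks of the three families** -/
theorem mirOk_mk {X : Multiset VT} (hX : St.Mk X) :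
    ∃ t : ℝ, 0 < t ∧ t ≤ BlkT.tB ∧ MirOk t (nmk X) := by
  have hπ := Real.pi_pos
  have third : ∀ t : ℝ, ∃ J, SK.ver (Real.pi / 3) = .ver J ∧
      (t ≤ tJ (Dbl.Jm 2 J) ∨ (Dbl.Jm 2 J = -(Real.pi / 3) ∧ (2 : ℕ) = 2)) := by
    intro t
    refine ⟨_, rfl, Or.inr ⟨?_, rfl⟩⟩
    unfold Dbl.Jm
    push_cast
    ring
  rcases hX with rfl | ⟨α, h0, h1, hX⟩
  · refine ⟨BlkT.tB, BlkT.tB_pos, le_rfl, ?_⟩
    intro p hp
    obtain ⟨h1, -⟩ := mem_nmk.1 hp
    unfold St.mkNat at h1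
    rw [Multiset.mem_singleton.1 h1]
    exact third _
  · obtain ⟨s, hs, hs'⟩ := tJ_mark (J := (1 - α) * (Real.pi / 3)) (by nlinarith) (by nlinarith)
    obtain ⟨u, hu, hu'⟩ := tJ_mark (J := α * (Real.pi / 3)) (by nlinarith) (by nlinarith)
    refine ⟨min BlkT.tB (min s u), lt_min BlkT.tB_pos (lt_min hs hu), min_le_left _ _, ?_⟩
    have k1 : min BlkT.tB (min s u) ≤ s := (min_le_right _ _).trans (min_le_left _ _)
    have k2 : min BlkT.tB (min s u) ≤ u := (min_le_right _ _).trans (min_le_right _ _)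
    have hpair : ∀ p ∈ St.mkPair α, ∃ J, p.1 = .ver J ∧ (min BlkT.tB (min s u) ≤ tJ (Dbl.Jm p.2 J) ∨
        (Dbl.Jm p.2 J = -(Real.pi / 3) ∧ p.2 = 2)) := by
      intro p hp
      unfold St.mkPair at hp
      rw [Multiset.insert_eq_cons, Multiset.mem_cons, Multiset.mem_singleton] at hp
      rcases hp with rfl | rfl
      · exact ⟨_, rfl, hs'.imp (fun h => k1.trans h) id⟩
      · exact ⟨_, rfl, hu'.imp (fun h => k2.trans h) id⟩
    intro p hp
    obtain ⟨h1, h2⟩ := mem_nmk.1 hp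
    rcases hX with rfl | rfl
    · exact hpair p h1
    · unfold St.mkFull at h1
      rcases Multiset.mem_add.1 h1 with h3 | h3
      · exact hpair p h3
      · simp only [Multiset.insert_eq_cons, Multiset.mem_cons, Multiset.mem_singleton] at h3
        rcases h3 with rfl | rfl | rfl
        · exact third _
        · exact third _
        · simp [PolyAtl.mkb] at h2

/-! ## The special positions of a slab -/

section tyP

variable {P : Finset (ℤ × ℤ)} {n L r b : ℕ} {G : ℤ → ℤ × ℤ} {j : ℤ → ℝ} {B : ℤ × ℤ → Prop}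
  {ψ : (ℤ × ℤ) × (ℤ × ℤ) → ℝ} {T : Finset ℤ} {K : ℤ → SK} {t₀ : ℝ}

/-- **the special positions in a part of the polygon, without marks, from the census** -/
theorem mirOk_tyP_of (hT : T.val.map (fun x => (K x, PolyAtl.mm G x)) = M) (h : MirOk t₁ (nmk M)) :
    MirOk t₁ (UpE.tyP G K r B (T.filter fun x => PolyAtl.mkb (K x) = false)) := by
  refine mirOk_nmk_le h fun p hp => ?_
  unfold UpE.tyP at hp
  obtain ⟨x, hx, rfl⟩ := Multiset.mem_map.1 hp
  obtain ⟨h1, -⟩ := UpE.mem_prt.1 (Finset.mem_def.2 hx)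
  obtain ⟨h2, h3⟩ := Finset.mem_filter.1 h1
  refine ⟨?_, h3⟩
  rw [← hT]
  exact Multiset.mem_map.2 ⟨x, h2, rfl⟩

/-- **the special positions in a part of the polygon, without marks, from `Spc`** -/
theorem mirOk_tyP (hs : PolyAtl.Spc P n L G j ψ T K r t₀) (ht : t₁ ≤ BlkT.tB)
    (hc : ∀ x ∈ T, PolyAtl.mm G x ≠ 2 → j x = 0)
    (hm : ∀ x ∈ T, PolyAtl.mm G x = 2 → PolyAtl.mkb (K x) = false →
      t₁ ≤ tJ (-(j x)) ∨ j x = Real.pi / 3) :
    MirOk t₁ (UpE.tyP G K r B (T.filter fun x => PolyAtl.mkb (K x) = false)) := by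
  have hπ := Real.pi_pos
  intro p hp
  unfold UpE.tyP at hp
  obtain ⟨x, hx, rfl⟩ := Multiset.mem_map.1 hp
  obtain ⟨h1, -⟩ := UpE.mem_prt.1 (Finset.mem_def.2 hx)
  obtain ⟨h2, h3⟩ := Finset.mem_filter.1 h1
  show ∃ J, K x = .ver J ∧ (t₁ ≤ tJ (Dbl.Jm (PolyAtl.mm G x) J) ∨
    (Dbl.Jm (PolyAtl.mm G x) J = -(Real.pi / 3) ∧ PolyAtl.mm G x = 2))
  rcases hK : K x with J | _ | _
  · refine ⟨J, rfl, ?_⟩
    obtain ⟨hJ, -⟩ := hs.ver x h2 J hK
    by_cases h4 : PolyAtl.mm G x = 2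
    · rw [h4]
      have e : Dbl.Jm 2 J = -J := by
        unfold Dbl.Jm
        push_cast
        ring
      rw [e, ← hJ]
      rcases hm x h2 h4 h3 with h5 | h5
      · exact Or.inl h5
      · exact Or.inr ⟨by rw [h5], rfl⟩
    · left
      have h5 := hc x h2 h4
      rw [hJ] at h5
      subst h5
      obtain ⟨h6, h7⟩ := PolyAtl.mm_rng hs.hc x
      have h8 : PolyAtl.mm G x = 1 ∨ PolyAtl.mm G x = 3 := by omega
      refine ht.trans ?_
      rcases h8 with h8 | h8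
      · rw [h8]
        refine BlkT.tJ_ge' ?_ ?_ <;> unfold Dbl.Jm <;> push_cast <;> linarith
      · rw [h8]
        refine BlkT.tJ_ge' ?_ ?_ <;> unfold Dbl.Jm <;> push_cast <;> linarith
  · rw [hK] at h3
    simp [PolyAtl.mkb] at h3
  · rw [hK] at h3
    simp [PolyAtl.mkb] at h3

/-- **the special positions of the three families** (`Cens.fam_types`), uniformly in the polygon -/
theorem mirOk_fam {X : Multiset VT} (hX : St.Mk X) : ∃ t : ℝ, 0 < t ∧ t ≤ BlkT.tB ∧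
    ∀ (b r : ℕ) (G : ℤ → ℤ × ℤ) (K : ℤ → SK) (T : Finset ℤ),
      T.val.map (fun x => (K x, PolyAtl.mm G x)) = St.domV b X → ∀ B : ℤ × ℤ → Prop,
      MirOk t (UpE.tyP G K r B (T.filter fun x => PolyAtl.mkb (K x) = false)) := by
  obtain ⟨t, h1, h2, h3⟩ := mirOk_mk hX
  exact ⟨t, h1, h2, fun b r G K T hT B => mirOk_tyP_of hT (mirOk_domV h3 h2)⟩

end tyP

end

end Pool.Agent.SixB
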