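import Pool.Agent.Lib.SixB.S3UpHi

/-!
# 6BD step 3, row R21 b: the atlas of the left half

* `PAV.cap`, `PAV.capF`: the regions may be intersected with the region `G` of the charts, `G` with the surface.
* `UpE.allPAV`: the atlas of the whole environment `S.env W X Y` (both blocks and both pockets).
* `UpE.Z_win`, `Z_winUL`: the island sides do not depend on the window.
* `UpE.wlf W x0`: the window left of the column `x0`; `lf_eq`: `(S.env W X Y).lf x0 = (S.env (wlf W x0) X Y).F`;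
  `zh_lf`: the island sides of the left half.
* `UpE.lfPAV`: the atlas of the left half.
-/

set_option autoImplicit false
set_option linter.unusedSectionVars false

namespace Pool.Agent.SixB

open Pool.Agent.Perc.Q Pool.Agent.Perc EmbH EnvB

noncomputable section

/-- the regions of the boxes may be intersected with the region of the charts -/
theorem PAV.cap {V Φ : Type} [DecidableEq V] [DecidableEq Φ] {Q : QC V Φ} {F : Finset Φ}
    {ψ : V × V → ℝ} {Z C : Finset (V × V)} {r nN : ℕ} {t₀ : ℝ} {S4 S1 N2 G : Set Φ}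
    {M : Multiset (SK × ℕ)} (h : PAV Q F ψ Z C r nN t₀ S4 S1 N2 G M) :
    PAV Q F ψ Z C r nN t₀ (S4 ∩ G) (S1 ∩ G) (N2 ∩ G) G M := by
  obtain ⟨A, a1, a2, a3, a4, a5, a6, a7, a8⟩ := h
  have hm : ∀ {m : ℕ} {o : ZMod 4} {v : ℤ × ℤ} {R ρ : ℕ} (c : WChart Q F m o v R), ρ ≤ R →
      (∀ f ∈ Wdg m o v R, c.φF f ∈ G) → ∀ f ∈ c.box ρ, f ∈ G := by
    intro m o v R ρ c hρ hc f hf
    unfold WChart.box at hf
    rw [Finset.mem_image] at hf
    obtain ⟨g, hg, rfl⟩ := hf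
    exact hc g (Wdg_mono hρ hg)
  exact ⟨A, fun i f hf => ⟨a1 i f hf, hm (A.ch i) (by omega) (a4 i) f hf⟩,
    fun i f hf => ⟨a2 i f hf, hm (A.ch i) (by omega) (a4 i) f hf⟩,
    fun i f hf => ⟨a3 i f hf, hm (A.nch i) (by omega) (a5 i) f hf⟩, a4, a5, a6, a7, a8⟩

/-- the faces of the charts lie in the surface -/
theorem PAV.capF {V Φ : Type} [DecidableEq V] [DecidableEq Φ] {Q : QC V Φ} {F : Finset Φ}
    {ψ : V × V → ℝ} {Z C : Finset (V × V)} {r nN : ℕ} {t₀ : ℝ} {S4 S1 N2 G : Set Φ}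
    {M : Multiset (SK × ℕ)} (h : PAV Q F ψ Z C r nN t₀ S4 S1 N2 G M) :
    PAV Q F ψ Z C r nN t₀ S4 S1 N2 (G ∩ {x | x ∈ F}) M := by
  obtain ⟨A, a1, a2, a3, a4, a5, a6, a7, a8⟩ := h
  exact ⟨A, a1, a2, a3, fun i f hf => ⟨a4 i f hf, (A.ch i).sub f hf⟩,
    fun i f hf => ⟨a5 i f hf, (A.nch i).sub f hf⟩, a6, a7, a8⟩

namespace UpE

variable {S : Slb} {W W' : Finset (ℤ × ℤ)} {X Y : ℤ} {B : ℤ × ℤ → Prop} {E : SEnv}
  {F' : Finset (Option Bool × (ℤ × ℤ))} {r nS nN : ℕ} {t₀ : ℝ}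
  {ZD CD : Finset ((ℤ × ℤ) × (ℤ × ℤ))}

theorem disj_U' (h : S.Ok) (X Y : ℤ) {ρ ρ' : ℕ} (hρ : ρ ≤ ρ') :
    Disjoint (nU S X ρ) (reg S X Y (fun _ => True) ρ') := by
  rw [Set.disjoint_left]
  rintro x hx ⟨f, h1, h2, h3, rfl⟩
  rcases h.cases h1 with h4 | h4
  · exact Set.disjoint_left.1 (disj_U (S := S) X Y hρ) hx ⟨f, h1, h4.1, h3, rfl⟩
  · rw [Slb.Ok.shrF_L h4.2] at hx
    rcases hx with hx | ⟨hx, -⟩ <;> exact absurd hx (by simp)

theorem disj_L' (h : S.Ok) (X Y : ℤ) {ρ ρ' : ℕ} (hρ : ρ ≤ ρ') :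
    Disjoint (nL S Y ρ) (reg S X Y (fun _ => True) ρ') := by
  rw [Set.disjoint_left]
  rintro x hx ⟨f, h1, h2, h3, rfl⟩
  rcases h.cases h1 with h4 | h4
  · rw [Slb.Ok.shrF_U h4.1] at hx
    rcases hx with hx | ⟨hx, -⟩ <;> exact absurd hx (by simp)
  · exact Set.disjoint_left.1 (disj_L h X Y hρ) hx ⟨f, h1, h4.1, h3, rfl⟩

theorem disj_gg {ρ : ℕ} (h : ρ ≤ S.a) : Disjoint (gU S ρ) (gL S ρ) := by
  rw [Set.disjoint_left]
  rintro x (⟨h1, h2⟩ | h1) (⟨h3, h4⟩ | h3)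
  · omega
  · rw [h1] at h3
    exact absurd h3 (by simp)
  · rw [h1] at h3
    exact absurd h3 (by simp)
  · rw [h1] at h3
    exact absurd h3 (by simp)

/-- **the atlas of the whole environment** -/
theorem allPAV (h : S.Ok) (hr : 0 < r) (hra : 16 * r ≤ S.a) (hth : Thick S (4 * r + 2)) {nB nB' : ℕ}
    (hbU : BlkU S W X Y r nB t₀) (hbL : BlkL S W X Y r nB' t₀)
    (A : PAtlas ZQ S.D S.ψ ZD CD r nS nN t₀) (hCD : CD ⊆ bS ZQ S.D)
    (hA : A.Flat) (hS : ∀ i, ¬ S.near (8 * r + 2) (A.v i))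
    (hfl : ∀ i, A.m' i = 2 ∧ (A.nch i).Jump S.ψ 0) :
    ∃ C, PAV (S.env W X Y).Q (S.env W X Y).F (S.ph W X Y) (S.env W X Y).Z C r
      (nB + nB' + (12 + nN)) t₀
      (nU S X (4 * r) ∪ nL S Y (4 * r) ∪ reg S X Y (fun _ => True) (4 * r + 1))
      (nU S X r ∪ nL S Y r ∪ reg S X Y (fun _ => True) (7 * r + 1))
      (nO ∪ reg S X Y (fun _ => True) r)
      (gU S (4 * r + 1) ∪ gL S (4 * r + 1))
      (St.blkV S.mu + St.blkV S.ml + (Finset.univ : Finset A.κ).val.map fun i => (A.K i, A.m i)) ∧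
      ∀ a ∈ (S.env W X Y).Z, a ∈ C ∨ Miss h W X Y (fun _ => True) CD a := by
  obtain ⟨CU, hPU, hCU⟩ := hbU
  obtain ⟨CL, hPL, hCL⟩ := hbL
  have hQ := pocket (t₀ := t₀) h (half_all (S := S) (X := X) (Y := Y) (W := W) h) hr hra hth A hCD hA
    hS hfl
  rw [S.selK_all] at hQ
  have d0 : Disjoint (gU S (4 * r + 1)) (gL S (4 * r + 1)) := disj_gg (by omega)
  have hd : ∀ A B : Set (Option Bool × (ℤ × ℤ)),
      Disjoint (A ∩ gU S (4 * r + 1)) (B ∩ gL S (4 * r + 1)) := fun A B =>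
    d0.mono Set.inter_subset_right Set.inter_subset_right
  have hUL := hPU.cap.union hPL.cap (hd _ _) (hd _ _) (hd _ _).symm
  have hdr : ∀ ρ ρ' : ℕ, ρ ≤ ρ' → Disjoint (nU S X ρ ∩ gU S (4 * r + 1) ∪ nL S Y ρ ∩ gL S (4 * r + 1))
      (reg S X Y (fun _ => True) ρ') := by
    intro ρ ρ' hρ
    rw [Set.disjoint_union_left]
    exact ⟨(disj_U' h X Y hρ).mono_left Set.inter_subset_left,
      (disj_L' h X Y hρ).mono_left Set.inter_subset_left⟩
  have hdo : Disjoint (nO ∩ gU S (4 * r + 1) ∪ nO ∩ gL S (4 * r + 1))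
      (reg S X Y (fun _ => True) (7 * r + 1)) := by
    rw [Set.disjoint_union_left]
    exact ⟨(disj_O X Y).mono_left Set.inter_subset_left, (disj_O X Y).mono_left Set.inter_subset_left⟩
  refine ⟨_, (hUL.union hQ (hdr _ _ (by omega)) hdo (hdr _ _ (by omega)).symm).mono
    (Finset.Subset.refl _) le_rfl ?_ ?_ ?_ ?_, ?_⟩
  · exact Set.union_subset_union_left _ (Set.union_subset_union Set.inter_subset_left
      Set.inter_subset_left)
  · exact Set.union_subset_union_left _ (Set.union_subset_union Set.inter_subset_left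
      Set.inter_subset_left)
  · exact Set.union_subset_union_left _ (Set.union_subset Set.inter_subset_left
      Set.inter_subset_left)
  · rintro x (hx | ⟨hx, hx'⟩)
    · exact hx
    · rcases EnvB.mem_F.1 hx with h1 | h1 | h1
      · exact absurd h1.1 hx'
      · exact Or.inl (Or.inr h1.1)
      · exact Or.inr (Or.inr h1.1)
  · intro a ha
    have hb := (EnvB.mem_Z.1 ha).1
    obtain ⟨x, hx, k, rfl⟩ := exists_sd_of_bS hb
    obtain ⟨s, f⟩ := x
    rcases EnvB.mem_F.1 hx with ⟨h1, h2⟩ | ⟨h1, h2⟩ | ⟨h1, h2⟩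
    · simp only at h1 h2
      subst h1
      left
      refine Finset.mem_union_left _ ?_
      rcases ((base_Z (BlkS.thk h) h2 k).1 ha).1 with h4 | h4
      · exact Finset.mem_union_left _ (hCU.base f h2 k h4 ha)
      · exact Finset.mem_union_right _ (hCL.base f h2 k h4 ha)
    · simp only at h1 h2
      subst h1
      rcases cov_U (CD := CD) (B := fun _ => True) h (by omega) hCU h2 ha (fun _ _ => trivial) with
        h3 | h3
      · left
        rcases Finset.mem_union.1 h3 with h3 | h3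
        · exact Finset.mem_union_left _ (Finset.mem_union_left _ h3)
        · exact Finset.mem_union_right _ h3
      · exact Or.inr h3
    · simp only at h1 h2
      subst h1
      rcases cov_L (CD := CD) (B := fun _ => True) h (by omega) hCL h2 ha (fun _ _ => trivial) with
        h3 | h3
      · left
        rcases Finset.mem_union.1 h3 with h3 | h3
        · exact Finset.mem_union_left _ (Finset.mem_union_right _ h3)
        · exact Finset.mem_union_right _ h3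
      · exact Or.inr h3

/-! ## The island sides do not depend on the window -/

theorem Z_sub (h : S.Ok)
    (hw : ∀ f k, ((S.env W X Y).gu.solid true (nb f k) ∨ (S.env W X Y).gd.solid false (nb f k)) →
      (f ∈ W ↔ f ∈ W')) : (S.env W X Y).Z ⊆ (S.env W' X Y).Z := by
  have hE : Thk (S.env W X Y) := BlkS.thk h
  have hE' : Thk (S.env W' X Y) := BlkS.thk h
  intro a ha
  obtain ⟨hb, hc⟩ := EnvB.mem_Z.1 ha
  obtain ⟨x, hx, k, rfl⟩ := exists_sd_of_bS hb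
  obtain ⟨s, f⟩ := x
  rcases EnvB.mem_F.1 hx with ⟨h1, h2⟩ | ⟨h1, h2⟩ | ⟨h1, h2⟩
  · simp only at h1 h2
    subst h1
    obtain ⟨h3, h4, h5⟩ := (base_Z hE h2 k).1 ha
    have h6 : f ∈ (S.env W' X Y).base :=
      EnvB.mem_base.2 ⟨(hw f k h3).1 (EnvB.mem_base.1 h2).1, (EnvB.mem_base.1 h2).2⟩
    exact (base_Z hE' h6 k).2 ⟨h3, h4, h5⟩
  · simp only at h1 h2
    subst h1
    have hF : (some true, f) ∈ (S.env W' X Y).F := EnvB.mem_F_up.2 h2
    refine EnvB.mem_Z.2 ⟨mem_bS.2 ⟨sd_mem (Q := (S.env W' X Y).Q) hF k, ?_⟩, hc⟩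
    rintro ⟨t, g⟩ hg l hl
    rw [Finset.mem_coe] at hg
    rcases EnvB.mem_F.1 hg with ⟨h3, h4⟩ | ⟨h3, h4⟩ | ⟨h3, h4⟩
    · simp only at h3 h4
      subst h3
      have h5 : (sd (S.env W' X Y).Q (none, g) l).swap = sd (S.env W' X Y).Q (some true, f) k :=
        hl.symm
      obtain ⟨h6, -, h7⟩ := (swap_base hE' h4).1 h5
      have h8 : upM (S.env W' X Y) g l := by
        rcases h7 with ⟨h7, -⟩ | ⟨-, h7⟩ | ⟨h7, -⟩
        · exact absurd h7 (by simp)
        · exact h7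
        · exact absurd h7 (by simp)
      have h9 : (S.env W X Y).gu.solid true (nb g l) :=
        by
          have ha := h.ha
          have hk := h.hak
          obtain ⟨h10, h11, h12⟩ := h8
          subst h10
          have h13 : S.x1 + X ≤ g.1 ∧ g.1 < S.x2 + X := h11
          have h14 : g.2 + 1 = S.yc + (S.a : ℤ) := h12
          refine ⟨?_, ?_, ?_, ?_, ?_⟩
          · show (S.a : ℤ) ≤ g.2 + 1 - S.yc
            omega
          · show g.2 + 1 - S.yc < ((3 * S.k + (S.x2 - S.x1).toNat : ℕ) : ℤ)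
            push_cast
            omega
          · show S.x1 + X - 7 * (S.k : ℤ) ≤ g.1
            omega
          · show g.1 < S.x2 + X + 7 * (S.k : ℤ)
            omega
          · rintro ⟨h15, -⟩
            exact not_cham (G := (S.env W X Y).gu) (x := g.1) h13.1 h13.2 h15
      have h10 : g ∈ (S.env W X Y).base :=
        EnvB.mem_base.2 ⟨(hw g l (Or.inl h9)).2 (EnvB.mem_base.1 h4).1, (EnvB.mem_base.1 h4).2⟩
      exact (mem_bS.1 hb).2 _ (Finset.mem_coe.2 (EnvB.mem_F_none.2 h10)) l hl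
    · simp only at h3 h4
      subst h3
      exact (mem_bS.1 hb).2 _ (Finset.mem_coe.2 (EnvB.mem_F_up.2 h4)) l hl
    · simp only at h3 h4
      subst h3
      exact (mem_bS.1 hb).2 _ (Finset.mem_coe.2 (EnvB.mem_F_lo.2 h4)) l hl
  · simp only at h1 h2
    subst h1
    have hF : (some false, f) ∈ (S.env W' X Y).F := EnvB.mem_F_lo.2 h2
    refine EnvB.mem_Z.2 ⟨mem_bS.2 ⟨sd_mem (Q := (S.env W' X Y).Q) hF k, ?_⟩, hc⟩
    rintro ⟨t, g⟩ hg l hl
    rw [Finset.mem_coe] at hg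
    rcases EnvB.mem_F.1 hg with ⟨h3, h4⟩ | ⟨h3, h4⟩ | ⟨h3, h4⟩
    · simp only at h3 h4
      subst h3
      have h5 : (sd (S.env W' X Y).Q (none, g) l).swap = sd (S.env W' X Y).Q (some false, f) k :=
        hl.symm
      obtain ⟨h6, -, h7⟩ := (swap_base hE' h4).1 h5
      have h8 : loM (S.env W' X Y) g l := by
        rcases h7 with ⟨h7, -⟩ | ⟨h7, -⟩ | ⟨-, h7⟩
        · exact absurd h7 (by simp)
        · exact absurd h7 (by simp)
        · exact h7
      have h9 : (S.env W X Y).gd.solid false (nb g l) :=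
        by
          have ha := h.ha
          have hk := h.hak
          obtain ⟨h10, h11, h12⟩ := h8
          subst h10
          have h13 : S.x1 + Y ≤ g.1 ∧ g.1 < S.x2 + Y := h11
          have h14 : g.2 = S.yc - (S.a : ℤ) := h12
          refine ⟨?_, ?_, ?_, ?_, ?_⟩
          · show (S.a : ℤ) ≤ S.yc - 1 - (g.2 - 1)
            omega
          · show S.yc - 1 - (g.2 - 1) < ((3 * S.k + (S.x2 - S.x1).toNat : ℕ) : ℤ)
            push_cast
            omega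
          · show S.x1 + Y - 7 * (S.k : ℤ) ≤ g.1
            omega
          · show g.1 < S.x2 + Y + 7 * (S.k : ℤ)
            omega
          · rintro ⟨h15, -⟩
            exact not_cham (G := (S.env W X Y).gd) (x := g.1) h13.1 h13.2 h15
      have h10 : g ∈ (S.env W X Y).base :=
        EnvB.mem_base.2 ⟨(hw g l (Or.inr h9)).2 (EnvB.mem_base.1 h4).1, (EnvB.mem_base.1 h4).2⟩
      exact (mem_bS.1 hb).2 _ (Finset.mem_coe.2 (EnvB.mem_F_none.2 h10)) l hl
    · simp only at h3 h4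
      subst h3
      exact (mem_bS.1 hb).2 _ (Finset.mem_coe.2 (EnvB.mem_F_up.2 h4)) l hl
    · simp only at h3 h4
      subst h3
      exact (mem_bS.1 hb).2 _ (Finset.mem_coe.2 (EnvB.mem_F_lo.2 h4)) l hl

/-- **the island sides do not depend on the window** -/
theorem Z_win (h : S.Ok)
    (hw : ∀ f k, ((S.env W X Y).gu.solid true (nb f k) ∨ (S.env W X Y).gd.solid false (nb f k)) →
      (f ∈ W ↔ f ∈ W')) : (S.env W X Y).Z = (S.env W' X Y).Z :=
  Finset.Subset.antisymm (Z_sub h hw) (Z_sub (W := W') (W' := W) h fun f k hf => (hw f k hf).symm)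

/-- the faces next to the blocks are in the window -/
theorem next_mem (h : S.Ok) (hU : BlkS.WinU S W X 1) (hL : BlkS.WinL S W Y 1) {f : ℤ × ℤ}
    {k : ZMod 4} (hs : (S.env W X Y).gu.solid true (nb f k) ∨ (S.env W X Y).gd.solid false (nb f k)) :
    f ∈ W := by
  have ha := h.ha
  have hk := h.hak
  have hx := h.hx
  have h1 : f.1 - 1 ≤ (nb f k).1 ∧ (nb f k).1 ≤ f.1 + 1 ∧ f.2 - 1 ≤ (nb f k).2 ∧
      (nb f k).2 ≤ f.2 + 1 := by
    rcases k4_cases k with rfl | rfl | rfl | rfl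
    · show f.1 - 1 ≤ f.1 ∧ f.1 ≤ f.1 + 1 ∧ f.2 - 1 ≤ f.2 - 1 ∧ f.2 - 1 ≤ f.2 + 1
      omega
    · show f.1 - 1 ≤ f.1 + 1 ∧ f.1 + 1 ≤ f.1 + 1 ∧ f.2 - 1 ≤ f.2 ∧ f.2 ≤ f.2 + 1
      omega
    · show f.1 - 1 ≤ f.1 ∧ f.1 ≤ f.1 + 1 ∧ f.2 - 1 ≤ f.2 + 1 ∧ f.2 + 1 ≤ f.2 + 1
      omega
    · show f.1 - 1 ≤ f.1 - 1 ∧ f.1 - 1 ≤ f.1 + 1 ∧ f.2 - 1 ≤ f.2 ∧ f.2 ≤ f.2 + 1
      omega
  have hN : ((3 * S.k + (S.x2 - S.x1).toNat : ℕ) : ℤ) = 3 * S.k + (S.x2 - S.x1) := by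
    push_cast
    omega
  rcases hs with ⟨h2, h3, h4, h5, -⟩ | ⟨h2, h3, h4, h5, -⟩
  · have h2' : (S.a : ℤ) ≤ (nb f k).2 - S.yc := h2
    have h3' : (nb f k).2 - S.yc < ((3 * S.k + (S.x2 - S.x1).toNat : ℕ) : ℤ) := h3
    have h4' : S.x1 + X - 7 * (S.k : ℤ) ≤ (nb f k).1 := h4
    have h5' : (nb f k).1 < S.x2 + X + 7 * (S.k : ℤ) := h5
    exact hU f.1 f.2 (by push_cast; omega) (by push_cast; omega) (by omega) (by push_cast; omega)
  · have h2' : (S.a : ℤ) ≤ S.yc - 1 - (nb f k).2 := h2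
    have h3' : S.yc - 1 - (nb f k).2 < ((3 * S.k + (S.x2 - S.x1).toNat : ℕ) : ℤ) := h3
    have h4' : S.x1 + Y - 7 * (S.k : ℤ) ≤ (nb f k).1 := h4
    have h5' : (nb f k).1 < S.x2 + Y + 7 * (S.k : ℤ) := h5
    exact hL f.1 f.2 (by push_cast; omega) (by push_cast; omega) (by omega) (by push_cast; omega)

/-- **the island sides**, windows which contain the faces next to the blocks -/
theorem Z_winUL (h : S.Ok) (hU : BlkS.WinU S W X 1) (hL : BlkS.WinL S W Y 1)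
    (hU' : BlkS.WinU S W' X 1) (hL' : BlkS.WinL S W' Y 1) : (S.env W X Y).Z = (S.env W' X Y).Z :=
  Z_win h fun _ _ hf => ⟨fun _ => next_mem h hU' hL' hf, fun _ => next_mem h hU hL hf⟩

/-! ## The left half -/

/-- the part of the window on the left of the column `x0` -/
def wlf (W : Finset (ℤ × ℤ)) (x0 : ℤ) : Finset (ℤ × ℤ) := W.filter fun f => f.1 < x0

theorem mem_wlf {x0 : ℤ} {f : ℤ × ℤ} : f ∈ wlf W x0 ↔ f ∈ W ∧ f.1 < x0 := Finset.mem_filter

/-- the left half is the environment in the left part of the window -/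
theorem lf_eq {x0 : ℤ} : (S.env W X Y).lf x0 = (S.env (wlf W x0) X Y).F := by
  ext ⟨s, f⟩
  unfold SEnv.lf
  rw [Finset.mem_filter, EnvB.mem_F, EnvB.mem_F, EnvB.mem_base, EnvB.mem_base]
  show ((s = none ∧ f ∈ W ∧ _) ∨ _) ∧ _ ↔ (s = none ∧ f ∈ wlf W x0 ∧ _) ∨ _
  rw [mem_wlf]
  constructor
  · rintro ⟨⟨h1, h2, h3⟩ | h1, h4⟩
    · refine Or.inl ⟨h1, ⟨h2, ?_⟩, h3⟩
      rcases h4 with h4 | h4
      · exact absurd h1 h4
      · exact h4
    · exact Or.inr h1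
  · rintro (⟨h1, ⟨h2, h3⟩, h4⟩ | h1)
    · exact ⟨Or.inl ⟨h1, h2, h4⟩, Or.inr h3⟩
    · refine ⟨Or.inr h1, Or.inl ?_⟩
      rcases h1 with h1 | h1
      · show s ≠ none
        rw [show s = some true from h1.1]
        simp
      · show s ≠ none
        rw [show s = some false from h1.1]
        simp

/-- the window left of the column `x0` contains the neighbourhood of the upper block -/
theorem winU_lf {x0 : ℤ} {ρ : ℕ} (h : BlkS.WinU S W X ρ) (h0 : S.x2 + X + 7 * S.k + ρ ≤ x0) :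
    BlkS.WinU S (wlf W x0) X ρ := fun x y h1 h2 h3 h4 =>
  mem_wlf.2 ⟨h x y h1 h2 h3 h4, by simp only; omega⟩

/-- the window left of the column `x0` contains the neighbourhood of the lower block -/
theorem winL_lf {x0 : ℤ} {ρ : ℕ} (h : BlkS.WinL S W Y ρ) (h0 : S.x2 + Y + 7 * S.k + ρ ≤ x0) :
    BlkS.WinL S (wlf W x0) Y ρ := fun x y h1 h2 h3 h4 =>
  mem_wlf.2 ⟨h x y h1 h2 h3 h4, by simp only; omega⟩

/-- the island sides of the left half -/
theorem zh_lf (h : S.Ok) (hU : BlkS.WinU S W X 1) (hL : BlkS.WinL S W Y 1) {x0 : ℤ}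
    (h0 : S.x2 + X + 7 * S.k + 1 ≤ x0) (h1 : S.x2 + Y + 7 * S.k + 1 ≤ x0) :
    zh (S.env W X Y) ((S.env W X Y).lf x0) = (S.env (wlf W x0) X Y).Z ∧
      (S.env W X Y).Z = (S.env (wlf W x0) X Y).Z := by
  have e := Z_winUL h hU hL (winU_lf hU (by push_cast; omega)) (winL_lf hL (by push_cast; omega))
  refine ⟨?_, e⟩
  rw [lf_eq, ← e]
  ext a
  rw [mem_zh]
  constructor
  · exact fun h2 => h2.1
  · intro h2
    refine ⟨h2, ?_⟩
    rw [e] at h2
    exact (EnvB.mem_Z.1 h2).1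

/-- **the atlas of the left half** -/
theorem lfPAV (h : S.Ok) (hr : 0 < r) (hra : 16 * r ≤ S.a) (hth : Thick S (4 * r + 2)) {x0 : ℤ}
    (hU : BlkS.WinU S W X 1) (hL : BlkS.WinL S W Y 1)
    (h0 : S.x2 + X + 7 * S.k + 1 ≤ x0) (h1 : S.x2 + Y + 7 * S.k + 1 ≤ x0) {nB nB' : ℕ}
    (hbU : BlkU S (wlf W x0) X Y r nB t₀) (hbL : BlkL S (wlf W x0) X Y r nB' t₀)
    (A : PAtlas ZQ S.D S.ψ ZD CD r nS nN t₀) (hCD : CD ⊆ bS ZQ S.D)
    (hA : A.Flat) (hS : ∀ i, ¬ S.near (8 * r + 2) (A.v i))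
    (hfl : ∀ i, A.m' i = 2 ∧ (A.nch i).Jump S.ψ 0) :
    ∃ C, PAV (S.env W X Y).Q ((S.env W X Y).lf x0) (S.ph W X Y)
      (zh (S.env W X Y) ((S.env W X Y).lf x0)) C r (nB + nB' + (12 + nN)) t₀
      (nU S X (4 * r) ∪ nL S Y (4 * r) ∪ reg S X Y (fun _ => True) (4 * r + 1))
      (nU S X r ∪ nL S Y r ∪ reg S X Y (fun _ => True) (7 * r + 1))
      (nO ∪ reg S X Y (fun _ => True) r)
      ((gU S (4 * r + 1) ∪ gL S (4 * r + 1)) ∩ {x | x ∈ (S.env W X Y).lf x0})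
      (St.blkV S.mu + St.blkV S.ml + (Finset.univ : Finset A.κ).val.map fun i => (A.K i, A.m i)) ∧
      ∀ a ∈ zh (S.env W X Y) ((S.env W X Y).lf x0), a ∈ C ∨ Miss h W X Y (fun _ => True) CD a := by
  obtain ⟨C, hP, hC⟩ := allPAV h hr hra hth hbU hbL A hCD hA hS hfl
  rw [(zh_lf h hU hL h0 h1).1]
  refine ⟨C, ?_, hC⟩
  rw [lf_eq]
  exact hP.capF

end UpE

end

end Pool.Agent.SixB
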