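import Pool.Agent.Lib.SixB.S3UpM
import Pool.Agent.Lib.SixB.S3UpE
import Pool.Agent.Lib.SixB.S3UpLf

/-!
# 6BD step 3, row R21 (B): the mirrored halves

* `UpE.halfM`: the mirror image of a part of the environment: any block part, the pockets, the marks.
* `UpE.planarC`: `polyM` and the charts `che` of the marks, with their types.
* `UpE.mirHi`, `UpE.mirLo`, `UpE.mirAll`, `UpE.mirLf`: the form `MirA` for the halves.
-/

set_option autoImplicit false
set_option linter.unusedSectionVars false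

namespace Pool.Agent.SixB

open Pool.Agent.Perc.Q Pool.Agent.Perc EmbH EnvB

noncomputable section

namespace UpE

variable {S : Slb} {W : Finset (ℤ × ℤ)} {X Y : ℤ} {B : ℤ × ℤ → Prop}
  {F' : Finset (Option Bool × (ℤ × ℤ))}
  {Z' : Finset ((Option Bool × (ℤ × ℤ)) × (Option Bool × (ℤ × ℤ)))} {r nS nN : ℕ} {t₀ t₁ : ℝ}
  {ZD CD : Finset ((ℤ × ℤ) × (ℤ × ℤ))}

/-- **the mirror image of a part**: blocks, pockets and marks -/
theorem halfM (h : S.Ok) (H : Half S W X Y B F' Z') (hr : 0 < r) (hra : 16 * r ≤ S.a)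
    (hth : Thick S (4 * r + 2)) (A : PAtlas ZQ S.D S.ψ ZD CD r nS nN t₀) (hCD : CD ⊆ bS ZQ S.D)
    (hA : A.Flat) (hS : ∀ i, ¬ S.near (8 * r + 2) (A.v i))
    (hfl : ∀ i, A.m' i = 2 ∧ (A.nch i).Jump S.ψ 0) (C : Che S A)
    {Cb : Finset ((Option Bool × (ℤ × ℤ)) × (Option Bool × (ℤ × ℤ)))} {nB : ℕ}
    {S4 S1 N2 G : Set (Option Bool × (ℤ × ℤ))} {Mb : Multiset (SK × ℕ)}
    (hP : PAV (S.env W X Y).Q F' (S.ph W X Y) Z' Cb r nB t₀ S4 S1 N2 G Mb)
    (d4 : Disjoint S4 (reg S X Y B (4 * r + 1))) (d1 : Disjoint N2 (reg S X Y B (7 * r + 1)))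
    (d2 : Disjoint S1 (reg S X Y B r)) (hMb : MirOk t₁ Mb)
    (hMA : MirOk t₁ ((S.selK B A).val.map fun i => (A.K i, A.m i)))
    (hcov : ∀ a ∈ Z', a ∈ Cb ∪ (selC (fun f => B f ∧ off2 S r f) CD).image (h.shr W X Y).side ∨
      Miss h W X Y B CD a)
    (hmiss : ∀ a ∈ bS ZQ S.D, a ∉ CD → ∃ i, a ∈ C.wl i (2 * r)) :
    ∃ C', PAV (Dbl.mir (S.env W X Y).Q) F' (Dbl.mps (S.ph W X Y)) (Z'.image Prod.swap) C' r
      (nB + (12 + nN)) t₁ (S4 ∪ reg S X Y B (4 * r + 1)) (S1 ∪ reg S X Y B (7 * r + 1))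
      (N2 ∪ reg S X Y B r) (G ∪ pks F')
      (mst (Mb + (((S.selK B A).val.map fun i => (A.K i, A.m i)) + C.tp B))) ∧
      Z'.image Prod.swap ⊆ C' := by
  classical
  have h1 := hP.mir hMb
  have h2 := pocketM h H hr hra hth A hCD hA hS hfl C hMA
  refine ⟨_, (h1.union h2 d4 d1 d2.symm).tps (by simp [mst]), ?_⟩
  intro x hx
  obtain ⟨a, ha, rfl⟩ := Finset.mem_image.1 hx
  rcases hcov a ha with h3 | ⟨f, k, h3, h4, h5, h6, h7, rfl⟩
  · rcases Finset.mem_union.1 h3 with h3 | h3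
    · exact Finset.mem_union_left _ (Finset.mem_image_of_mem _ h3)
    · exact Finset.mem_union_right _ (Finset.mem_image_of_mem _ (Finset.mem_union_left _ h3))
  · obtain ⟨i, hi⟩ := hmiss _ h6 h7
    obtain ⟨g, hg, l, hl⟩ := C.wl_face hi
    have hfg : f = g := (Q_inj_sd hl).1
    subst hfg
    have hg' := Wdg_mono (show 2 * r ≤ 4 * r + 1 by omega) hg
    refine Finset.mem_union_right _ (Finset.mem_image_of_mem _ (Finset.mem_union_right _ ?_))
    unfold Che.cov
    rw [Finset.mem_biUnion]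
    refine ⟨i, C.mem_sel.2 fun g' hg'' => ?_, Finset.mem_image_of_mem _ hi⟩
    exact H.hB.wdg (by have := (C.rng i).2; omega) (fun f' hf' => C.off hf') hg' h4 hg''

/-! ## The marks of the special positions of the contour -/

open PolyAtl PolyAtl.Spc

section

variable {P : Finset (ℤ × ℤ)} {n N : ℕ} {G : ℤ → ℤ × ℤ} {j : ℤ → ℝ} {T : Finset ℤ} {K : ℤ → SK}
  {ψ : (ℤ × ℤ) × (ℤ × ℤ) → ℝ} {D : Finset (ℤ × ℤ)}

/-- the marked positions -/
abbrev mkT (K : ℤ → SK) (T : Finset ℤ) : Type := {x // x ∈ T.filter fun x => mkb (K x) = true}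

theorem mkT_mem (x : mkT K T) : x.1 ∈ T := (Finset.mem_filter.1 x.2).1

theorem mkT_mk (x : mkT K T) : mkb (K x.1) = true := (Finset.mem_filter.1 x.2).2

theorem mkT_ctr (x : mkT K T) : PolyAtl.ctr K x.1 = x.1 + 1 := by
  unfold PolyAtl.ctr
  rw [if_pos (mkT_mk x)]

theorem mkT_mm (hs : Spc P n N G j ψ T K r t₀) (x : mkT K T) :
    mm G x.1 = 2 ∧ mm G (x.1 + 1) = 2 ∧ j (x.1 + 1) ≠ 0 := by
  have hpi := Real.pi_pos
  rcases mkb_iff.1 (mkT_mk x) with h | h
  · obtain ⟨h1, h2, -, h4⟩ := hs.ke x.1 (mkT_mem x) h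
    exact ⟨h1, h2, by rw [h4]; intro h5; linarith⟩
  · obtain ⟨h1, h2, -, h4⟩ := hs.kem x.1 (mkT_mem x) h
    exact ⟨h1, h2, by rw [h4]; intro h5; linarith⟩

open Classical in
/-- **`polyM` and the charts of the marks** -/
theorem planarC0 (hD : D = rf n P) (hs : Spc P n N G j ψ T K r t₀) :
    ∃ A : PAtlas ZQ D ψ (bS ZQ D) (CM P n G T K r) r
        (T.filter fun x => mkb (K x) = false).card (N / r + 1 + 2 * T.card) t₀,
      A.Flat ∧ (∀ i, ∃ x ∈ T, A.v i = G x) ∧ (∀ i, A.m' i = 2 ∧ (A.nch i).Jump ψ 0) ∧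
      (∀ B : ℤ × ℤ → Prop, (((Finset.univ : Finset A.κ).filter fun i =>
        ∀ f ∈ Wdg (A.m i) (A.o i) (A.v i) (4 * r + 1), B f).val.map fun i => (A.K i, A.m i)) =
          tyP G K r B (T.filter fun x => mkb (K x) = false)) ∧
      (∀ i, ∀ y : mkT K T, Disjoint (Wdg (A.m i) (A.o i) (A.v i) (4 * r))
        (Wdg (mm G (y.1 + 1)) (dd G (y.1 + 1)) (G (y.1 + 1)) (4 * r))) ∧
      (∀ i, ∀ y : mkT K T, Disjoint (Wdg (A.m' i) (A.o' i) (A.v' i) (2 * r))
        (Wdg (mm G (y.1 + 1)) (dd G (y.1 + 1)) (G (y.1 + 1)) r)) ∧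
      ∃ c : ∀ x : mkT K T, WChart ZQ D (mm G (x.1 + 1)) (dd G (x.1 + 1)) (G (x.1 + 1)) (4 * r + 1),
        (∀ x a, (c x).side a = a) ∧ (∀ x f, (c x).φF f = f) ∧
        (∀ x, Dbl.SJumpR (c x) (K x.1) ψ) ∧
        ∀ x y : mkT K T, x ≠ y →
          Disjoint (Wdg (mm G (x.1 + 1)) (dd G (x.1 + 1)) (G (x.1 + 1)) (4 * r))
            (Wdg (mm G (y.1 + 1)) (dd G (y.1 + 1)) (G (y.1 + 1)) (4 * r)) := by
  subst hD
  have hr := hs.hr
  have hcm : ∀ y : mkT K T, y.1 + 1 ∈ Sc T K := fun y => by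
    rw [← mkT_ctr y]
    exact Finset.mem_image_of_mem _ (mkT_mem y)
  refine ⟨polyM hs le_rfl le_rfl, ⟨fun _ _ => rfl, fun _ _ => rfl, fun _ _ => rfl, fun _ _ => rfl,
      ⟨fun i => Empty.elim i⟩⟩, fun i => ⟨i.1, (Finset.mem_filter.1 i.2).1, rfl⟩,
    fun i => ⟨hs.mm_farM (hs.cenM_far i.2), hs.njumpM (hs.cenM_far i.2)⟩, ?_, ?_, ?_,
    fun x => hs.che (mkT_mem x) (mkT_mk x), fun _ _ => rfl, fun _ _ => rfl, ?_, ?_⟩
  · intro B
    unfold tyP prt
    refine Eq.trans ?_ (ty_sub (fun x => ∀ f ∈ Wdg (mm G x) (dd G x) (G x) (4 * r + 1), B f)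
      (T.filter fun x => mkb (K x) = false) (fun x => (K x, mm G x)))
    rfl
  · intro i y
    obtain ⟨i, hi0⟩ := i
    have hi := Finset.mem_filter.1 hi0
    have hci : PolyAtl.ctr K i = i := by
      unfold PolyAtl.ctr
      rw [hi.2]
      simp
    have h1 : i ∈ Sc T K := by
      rw [← hci]
      exact Finset.mem_image_of_mem _ hi.1
    have hne : i ≠ y.1 + 1 := by
      intro h2
      have h3 : i ≠ y.1 := by omega
      have h4 := hs.sep _ hi.1 _ (mkT_mem y) 0 (Or.inl h3)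
      rw [h2] at h4
      simp only [zero_mul, add_zero, add_sub_cancel_left, abs_one] at h4
      omega
    exact hs.sdisj1 fun q => by
      have h5 := hs.sepc h1 (hcm y) (q := q) (Or.inl hne)
      linarith
  · intro i y
    have hst := hs.sttc (mkT_mem y) (ρ := 6 * r) (by omega)
    rw [mkT_ctr] at hst
    exact hs.ndisj1 hst fun q => hs.cenM_far i.2 _ (hcm y) q
  · intro x
    have h2 := (mkT_mm hs x).2.1
    have he : Dbl.eI (dd G (x.1 + 1) + mm G (x.1 + 1)) (G (x.1 + 1)) = (G x.1, G (x.1 + 1)) := by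
      rw [hs.che_side x.1]
      rfl
    rcases mkb_iff.1 (mkT_mk x) with h | h
    · rw [h]
      obtain ⟨h3, p, h4, h5, h6⟩ := hs.che_e (mkT_mem x) h
      refine ⟨h3, p, ?_, ?_, h6⟩
      · rw [he]
        exact h4
      · rw [he]
        exact h5
    · rw [h]
      obtain ⟨h3, p, h4, h5, h6⟩ := hs.che_em (mkT_mem x) h
      refine ⟨h3, p, ?_, ?_, h6⟩
      · rw [he]
        exact h4
      · rw [he]
        exact h5
  · intro x y hxy
    have hne : x.1 + 1 ≠ y.1 + 1 := fun h => hxy (Subtype.ext (by omega))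
    exact hs.sdisj1 fun q => by
      have h5 := hs.sepc (hcm x) (hcm y) (q := q) (Or.inl hne)
      linarith

/-- the other end of a marked side is not near the slab -/
theorem far_mark (h : S.Ok) (hD : S.D = rf n P) (hs : Spc P n N G j S.ψ T K r t₀)
    (hra : 16 * r ≤ S.a) (x : mkT K T) : ¬ S.near (8 * r + 2) (G (x.1 + 1)) := by
  intro hnear
  have hr := hs.hr
  have hn := hs.hn
  have hk := h.hak
  have hc : Cont S.D N G := by
    rw [hD]
    exact hs.hc
  have hth : Thick S (8 * r + 4) := thick_of_rf hs.n0 h hD (by omega)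
  have e1 := near_crs h hth (ρ := 8 * r + 2) (by omega) (by omega) hc hnear
  have e2 := (near_str h hth (ρ := 8 * r + 2) (by omega) (by omega) hc hnear).2
  have e3 := hs.hψ (x.1 + 1)
  rw [e1, e2] at e3
  exact (mkT_mm hs x).2.2 (by rw [← e3]; simp)

/-- the types split into the unmarked and the marked ones -/
theorem tyP_split : tyP G K r B (T.filter fun x => mkb (K x) = false) +
    tyP G K r B (T.filter fun x => mkb (K x) = true) = tyP G K r B T := by
  classical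
  have h1 : prt G r B (T.filter fun x => mkb (K x) = false) =
      (prt G r B T).filter fun x => ¬ mkb (K x) = true := by
    ext x
    rw [mem_prt, Finset.mem_filter, Finset.mem_filter, mem_prt, Bool.not_eq_true]
    tauto
  have h2 : prt G r B (T.filter fun x => mkb (K x) = true) =
      (prt G r B T).filter fun x => mkb (K x) = true := by
    ext x
    rw [mem_prt, Finset.mem_filter, Finset.mem_filter, mem_prt]
    tauto
  unfold tyP
  rw [h1, h2, ← Multiset.map_add, Finset.filter_val, Finset.filter_val, add_comm,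
    Multiset.filter_add_not]

/-- the two charts of a marked side lie in the same component -/
theorem mark_iff (h : S.Ok) (hD : S.D = rf n P) (hs : Spc P n N G j S.ψ T K r t₀)
    (hT : ∀ x ∈ T, mm G x ≠ 2 ∨ j x ≠ 0) (hra : 16 * r ≤ S.a) (hB : S.Comp B) (x : mkT K T)
    (c : WChart ZQ S.D (mm G (x.1 + 1)) (dd G (x.1 + 1)) (G (x.1 + 1)) (4 * r + 1))
    (hcF : ∀ f, c.φF f = f) :
    (∀ f ∈ Wdg (mm G (x.1 + 1)) (dd G (x.1 + 1)) (G (x.1 + 1)) (4 * r + 1), B f) ↔
      ∀ f ∈ Wdg (mm G x.1) (dd G x.1) (G x.1) (4 * r + 1), B f := by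
  obtain ⟨m1, m2, -⟩ := mkT_mm hs x
  have hc := hs.hc
  have hoff : ∀ f ∈ Wdg (mm G x.1) (dd G x.1) (G x.1) (4 * r + 1), f ∈ S.D \ S.slb :=
    fun f hf => pos_off h hD hs hT hra (mkT_mem x) hf
  have hoff' : ∀ f ∈ Wdg (mm G (x.1 + 1)) (dd G (x.1 + 1)) (G (x.1 + 1)) (4 * r + 1),
      f ∈ S.D \ S.slb := by
    intro f hf
    rw [Finset.mem_sdiff]
    have h1 := c.sub f hf
    rw [hcF] at h1
    exact ⟨h1, off_box (fun h2 => far_mark h hD hs hra x (near_mono h2 (by omega)))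
      (Wdg_sub_Bx hf)⟩
  -- the common face
  have hmem1 : (G x.1, G (x.1 + 1)) ∈ wOut (dd G x.1) (G x.1) (4 * r + 1) := by
    unfold wOut
    rw [Finset.mem_image]
    refine ⟨0, Finset.mem_range.2 (by omega), ?_⟩
    rw [dd_spec hc x.1]
    simp
  obtain ⟨f, hf, hf'⟩ := wOut_face (m := mm G x.1) (by omega) hmem1
  have hmem2 : (G x.1, G (x.1 + 1)) ∈
      wIn (dd G (x.1 + 1) + mm G (x.1 + 1)) (G (x.1 + 1)) (4 * r + 1) := by
    rw [hs.che_side x.1]
    unfold wIn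
    rw [Finset.mem_image]
    exact ⟨0, Finset.mem_range.2 (by omega), by simp⟩
  obtain ⟨g, hg, hg'⟩ := wIn_face (m := mm G (x.1 + 1)) (by omega) (by omega) hmem2
  have hfg : f = g := (Q_inj_sd (hf'.symm.trans hg')).1
  constructor
  · intro h1 f' hf''
    exact hB.wdg (by omega) hoff hf (by rw [hfg]; exact h1 g hg) hf''
  · intro h1 f' hf''
    exact hB.wdg (by omega) hoff' hg (by rw [← hfg]; exact h1 f hf) hf''

/-- **`polyM` and the charts of the marks of `S.D`** -/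
theorem planarC (h : S.Ok) (hD : S.D = rf n P) (hs : Spc P n N G j S.ψ T K r t₀)
    (hT : ∀ x ∈ T, mm G x ≠ 2 ∨ j x ≠ 0) (hra : 16 * r ≤ S.a) :
    ∃ A : PAtlas ZQ S.D S.ψ (bS ZQ S.D) (CM P n G T K r) r
        (T.filter fun x => mkb (K x) = false).card (N / r + 1 + 2 * T.card) t₀, ∃ C : Che S A,
      A.Flat ∧ (∀ i, ¬ S.near (8 * r + 2) (A.v i)) ∧ (∀ i, A.m' i = 2 ∧ (A.nch i).Jump S.ψ 0) ∧
      (CM P n G T K r ⊆ bS ZQ S.D) ∧
      (∀ a ∈ bS ZQ S.D, a ∉ CM P n G T K r → ∃ i, a ∈ C.wl i (2 * r)) ∧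
      (∀ B : ℤ × ℤ → Prop, ((S.selK B A).val.map fun i => (A.K i, A.m i)) =
        tyP G K r B (T.filter fun x => mkb (K x) = false)) ∧
      ∀ B : ℤ × ℤ → Prop, S.Comp B →
        ((S.selK B A).val.map fun i => (A.K i, A.m i)) + C.tp B = tyP G K r B T := by
  classical
  obtain ⟨A, a1, a2, a3, a4, a5, a6, c, c1, c2, c3, c4⟩ := planarC0 hD hs
  have hfar := far_of_spc' h hD hs hT hra
  let C : Che S A :=
    { κ := mkT K T
      K := fun x => K x.1
      m := fun x => mm G (x.1 + 1)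
      o := fun x => dd G (x.1 + 1)
      v := fun x => G (x.1 + 1)
      c := c
      m2 := fun x => (mkT_mm hs x).2.1
      s := c1
      F := c2
      J := c3
      ke := fun x => mkb_iff.1 (mkT_mk x)
      far := far_mark h hD hs hra
      disj := c4
      dA := a5
      dN := a6 }
  have hA4 : ∀ B : ℤ × ℤ → Prop, ((S.selK B A).val.map fun i => (A.K i, A.m i)) =
      tyP G K r B (T.filter fun x => mkb (K x) = false) := by
    intro B
    rw [← a4 B]
    unfold Slb.selK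
    congr!
  refine ⟨A, C, a1, fun i => ?_, a3, ?_, ?_, hA4, fun B hB => ?_⟩
  · obtain ⟨x, hx, e⟩ := a2 i
    rw [e]
    exact hfar x hx
  · rw [hD]
    exact Finset.filter_subset _ _
  · intro a ha hna
    unfold CM at hna
    rw [Finset.mem_filter] at hna
    push Not at hna
    rw [hD] at ha
    obtain ⟨x, hx, h1, h2⟩ := hna ha
    exact ⟨⟨x, Finset.mem_filter.2 ⟨hx, h1⟩⟩, h2⟩
  · rw [hA4 B, ← tyP_split (T := T)]
    congr 1
    unfold Che.tp tyP
    have e1 : (C.sel B).val.map (fun i => (C.K i, C.m i)) =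
        ((Finset.univ : Finset (mkT K T)).filter fun i =>
          ∀ f ∈ Wdg (mm G i.1) (dd G i.1) (G i.1) (4 * r + 1), B f).val.map
            fun i => (K i.1, mm G i.1) := by
      have e2 : C.sel B = (Finset.univ : Finset (mkT K T)).filter fun i =>
          ∀ f ∈ Wdg (mm G i.1) (dd G i.1) (G i.1) (4 * r + 1), B f := by
        ext i
        simp only [C.mem_sel, Finset.mem_filter, Finset.mem_univ, true_and]
        exact mark_iff h hD hs hT hra hB i (c i) (c2 i)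
      rw [e2]
      refine Multiset.map_congr rfl fun i _ => ?_
      obtain ⟨m1, m2, -⟩ := mkT_mm hs i
      show (K i.1, mm G (i.1 + 1)) = (K i.1, mm G i.1)
      rw [m1, m2]
    rw [e1]
    unfold prt
    exact ty_sub (fun x => ∀ f ∈ Wdg (mm G x) (dd G x) (G x) (4 * r + 1), B f)
      (T.filter fun x => mkb (K x) = true) (fun x => (K x, mm G x))

/-- **the mirror image of the upper half** -/
theorem mirHi (h : S.Ok) (hD : S.D = rf n P) (hs : Spc P n N G j S.ψ T K r t₀)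
    (hT : ∀ x ∈ T, mm G x ≠ 2 ∨ j x ≠ 0) (hra : 16 * r ≤ S.a) {y : ℤ}
    (hy1 : S.yc - S.a < y) (hy2 : y + (4 * r + 1) ≤ S.yc + S.a) {nB : ℕ}
    (hb : BlkU S W X Y r nB t₀) (hM1 : MirOk t₁ (St.blkV S.mu))
    (hM2 : MirOk t₁ (tyP G K r (fun f => f ∈ S.Up) (T.filter fun x => mkb (K x) = false))) :
    MirA S W X Y ((S.env W X Y).hi y) r (nB + (12 + (N / r + 1 + 2 * T.card))) t₁
      (gU S (4 * r + 1)) (St.blkV S.mu + tyP G K r (fun f => f ∈ S.Up) T) := by
  obtain ⟨Cb, hP, hC⟩ := hb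
  have hr := hs.hr
  obtain ⟨A, C, a1, a2, a3, a4, a5, a6, a7⟩ := planarC h hD hs hT hra
  have hP' : PAV (S.env W X Y).Q ((S.env W X Y).hi y) (S.ph W X Y)
      (zh (S.env W X Y) ((S.env W X Y).hi y)) Cb r nB t₀
      (nU S X (4 * r)) (nU S X r) nO (gU S (4 * r + 1)) (St.blkV S.mu) := by
    refine hP.restrF (Finset.filter_subset _ _) ?_ (half_hi (S := S) (X := X) (Y := Y) (W := W) y).hZ
    rintro ⟨s, f⟩ hx hG
    rw [mem_hiE]
    rcases EmbH.mem_F.1 hx with ⟨rfl, h1⟩ | ⟨rfl, h1⟩ | ⟨rfl, h1⟩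
    · rcases hG with ⟨-, h2⟩ | h2
      · refine Or.inl ⟨rfl, h1, ?_⟩
        simp only at h2
        push_cast at h2
        simp only
        omega
      · exact absurd h2 (by simp)
    · exact Or.inr ⟨rfl, h1⟩
    · rcases hG with ⟨h2, -⟩ | h2
      · exact absurd h2 (by simp)
      · exact absurd h2 (by simp)
  have hcov : ∀ a ∈ zh (S.env W X Y) ((S.env W X Y).hi y),
      a ∈ Cb ∪ (selC (fun f => f ∈ S.Up ∧ off2 S r f) (CM P n G T K r)).image (h.shr W X Y).side ∨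
        Miss h W X Y (fun f => f ∈ S.Up) (CM P n G T K r) a := by
    intro a ha
    obtain ⟨hz, hb⟩ := mem_zh.1 ha
    obtain ⟨x, hx, k, rfl⟩ := exists_sd_of_bS hb
    obtain ⟨s, f⟩ := x
    rcases mem_hiE.1 hx with ⟨h1, h2, h3⟩ | ⟨h1, h2⟩
    · simp only at h1 h2 h3
      subst h1
      left
      refine Finset.mem_union_left _ (hC.base f h2 k ?_ hz)
      rcases ((base_Z (BlkS.thk h) h2 k).1 hz).1 with h4 | h4
      · exact h4
      · exfalso
        have h5 : (S.a : ℤ) ≤ S.yc - 1 - (nb f k).2 := h4.1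
        have h6 : f.2 - 1 ≤ (nb f k).2 := by
          rcases k4_cases k with rfl | rfl | rfl | rfl
          · show f.2 - 1 ≤ f.2 - 1
            exact le_rfl
          · show f.2 - 1 ≤ f.2
            omega
          · show f.2 - 1 ≤ f.2 + 1
            omega
          · show f.2 - 1 ≤ f.2
            omega
        omega
    · simp only at h1 h2
      subst h1
      exact cov_U h (by omega) hC h2 hz (fun f hf => hf)
  obtain ⟨C', h1, h2⟩ := halfM h (half_hi (S := S) (X := X) (Y := Y) (W := W) y) (by omega) hra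
    (thick_of_spc h hD hs) A a4 a1 a2 a3 C hP' (disj_U X Y (by omega)) (disj_O X Y)
    (disj_U X Y (by omega)) hM1 (by rw [a6]; exact hM2) hcov a5
  refine ⟨C', _, _, _, (h1.mono (Finset.Subset.refl _) le_rfl (Set.Subset.refl _)
    (Set.Subset.refl _) (Set.Subset.refl _) ?_).tps ?_, h2⟩
  · rintro x (hx | ⟨hx, hx'⟩)
    · exact hx
    · rcases mem_hiE.1 hx with h1 | h1
      · exact absurd h1.1 hx'
      · exact Or.inr h1.1
  · rw [a7 _ S.comp_up]

/-- **the mirror image of the lower half** -/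
theorem mirLo (h : S.Ok) (hD : S.D = rf n P) (hs : Spc P n N G j S.ψ T K r t₀)
    (hT : ∀ x ∈ T, mm G x ≠ 2 ∨ j x ≠ 0) (hra : 16 * r ≤ S.a) {y : ℤ}
    (hy1 : S.yc - S.a + (4 * r + 1) ≤ y) (hy2 : y < S.yc + S.a) {nB : ℕ}
    (hb : BlkL S W X Y r nB t₀) (hM1 : MirOk t₁ (St.blkV S.ml))
    (hM2 : MirOk t₁ (tyP G K r (fun f => f ∈ S.Lo) (T.filter fun x => mkb (K x) = false))) :
    MirA S W X Y ((S.env W X Y).lo y) r (nB + (12 + (N / r + 1 + 2 * T.card))) t₁
      (gL S (4 * r + 1)) (St.blkV S.ml + tyP G K r (fun f => f ∈ S.Lo) T) := by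
  obtain ⟨Cb, hP, hC⟩ := hb
  have hr := hs.hr
  obtain ⟨A, C, a1, a2, a3, a4, a5, a6, a7⟩ := planarC h hD hs hT hra
  have hP' : PAV (S.env W X Y).Q ((S.env W X Y).lo y) (S.ph W X Y)
      (zh (S.env W X Y) ((S.env W X Y).lo y)) Cb r nB t₀
      (nL S Y (4 * r)) (nL S Y r) nO (gL S (4 * r + 1)) (St.blkV S.ml) := by
    refine hP.restrF (Finset.filter_subset _ _) ?_
      (half_lo (S := S) (X := X) (Y := Y) (W := W) h y).hZ
    rintro ⟨s, f⟩ hx hG
    rw [mem_loE]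
    rcases EmbH.mem_F.1 hx with ⟨rfl, h1⟩ | ⟨rfl, h1⟩ | ⟨rfl, h1⟩
    · rcases hG with ⟨-, h2⟩ | h2
      · refine Or.inl ⟨rfl, h1, ?_⟩
        simp only at h2
        push_cast at h2
        simp only
        omega
      · exact absurd h2 (by simp)
    · rcases hG with ⟨h2, -⟩ | h2
      · exact absurd h2 (by simp)
      · exact absurd h2 (by simp)
    · exact Or.inr ⟨rfl, h1⟩
  have hcov : ∀ a ∈ zh (S.env W X Y) ((S.env W X Y).lo y),
      a ∈ Cb ∪ (selC (fun f => f ∈ S.Lo ∧ off2 S r f) (CM P n G T K r)).image (h.shr W X Y).side ∨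
        Miss h W X Y (fun f => f ∈ S.Lo) (CM P n G T K r) a := by
    intro a ha
    obtain ⟨hz, hb⟩ := mem_zh.1 ha
    obtain ⟨x, hx, k, rfl⟩ := exists_sd_of_bS hb
    obtain ⟨s, f⟩ := x
    rcases mem_loE.1 hx with ⟨h1, h2, h3⟩ | ⟨h1, h2⟩
    · simp only at h1 h2 h3
      subst h1
      left
      refine Finset.mem_union_left _ (hC.base f h2 k ?_ hz)
      rcases ((base_Z (BlkS.thk h) h2 k).1 hz).1 with h4 | h4
      · exfalso
        have h5 : (S.a : ℤ) ≤ (nb f k).2 - S.yc := h4.1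
        have h6 : (nb f k).2 ≤ f.2 + 1 := by
          rcases k4_cases k with rfl | rfl | rfl | rfl
          · show f.2 - 1 ≤ f.2 + 1
            omega
          · show f.2 ≤ f.2 + 1
            omega
          · show f.2 + 1 ≤ f.2 + 1
            exact le_rfl
          · show f.2 ≤ f.2 + 1
            omega
        omega
      · exact h4
    · simp only at h1 h2
      subst h1
      exact cov_L h (by omega) hC h2 hz (fun f hf => hf)
  obtain ⟨C', h1, h2⟩ := halfM h (half_lo (S := S) (X := X) (Y := Y) (W := W) h y) (by omega) hra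
    (thick_of_spc h hD hs) A a4 a1 a2 a3 C hP' (disj_L h X Y (by omega)) (disj_O X Y)
    (disj_L h X Y (by omega)) hM1 (by rw [a6]; exact hM2) hcov a5
  refine ⟨C', _, _, _, (h1.mono (Finset.Subset.refl _) le_rfl (Set.Subset.refl _)
    (Set.Subset.refl _) (Set.Subset.refl _) ?_).tps ?_, h2⟩
  · rintro x (hx | ⟨hx, hx'⟩)
    · exact hx
    · rcases mem_loE.1 hx with h1 | h1
      · exact absurd h1.1 hx'
      · exact Or.inr h1.1
  · rw [a7 _ S.comp_lo]

end

end UpE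

end

end Pool.Agent.SixB
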