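import Pool.Agent.Lib.SixB.S3Relab
import Pool.Agent.Lib.SixB.S3Mirror
import Pool.Agent.Lib.SixB.S3WZMap

/-!
# 6BD step 3: rotated labels and the double

`relQ Q s`: the corner labels of the face `f` are shifted by `s f`.
* `WZ_relQ`, `av_WZ_relQ`, `av_abs_WZ_relQ`: the weight of the arcs and its means.
* `OneSided.relQ`: a cut line stays a cut line.
* `dbl_relQ`: the double of `relQ Q s` is the double of `Q` with shifted labels.
* `av_WZ_dbl_relQ`, `av_abs_WZ_dbl_relQ`: the means of `WZ` and `|WZ|` of the double do not change.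
-/

set_option autoImplicit false
set_option linter.unusedSectionVars false

namespace Pool.Agent.SixB.Rel

open Pool.Agent.Perc Pool.Agent.Perc.Q

noncomputable section

variable {V Φ : Type} [DecidableEq V] [DecidableEq Φ] {Q : QC V Φ} {F : Finset Φ} {s : Φ → ZMod 4}
  {ψ : V × V → ℝ} {Z : Finset (V × V)} {ω : Φ → Bool}

/-! ## The weight of the arcs -/

theorem arcsZ_relQ : arcsZ (relQ Q s) F Z ω = arcsZ Q F Z (flp s ω) := by
  unfold arcsZ
  simp only [mate_relQ]

theorem wt_relQ (a : V × V) : wt (relQ Q s) F ω ψ a = wt Q F (flp s ω) ψ a := by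
  unfold wt
  rw [mate_relQ, turn_relQ]

theorem wA_relQ (p : Sym2 (V × V)) : wA (relQ Q s) F ω ψ p = wA Q F (flp s ω) ψ p := by
  by_cases h : ∃ a ∈ bS Q F, s(a, mate Q F (flp s ω) a) = p
  · obtain ⟨a, ha, rfl⟩ := h
    have ha' : a ∈ bS (relQ Q s) F := by
      rw [bS_relQ]
      exact ha
    rw [wA_eq _ ha, ← wt_relQ, ← wA_eq _ ha', mate_relQ]
  · have h' : ¬ ∃ a ∈ bS (relQ Q s) F, s(a, mate (relQ Q s) F ω a) = p := by
      rintro ⟨a, ha, h1⟩
      rw [bS_relQ] at ha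
      rw [mate_relQ] at h1
      exact h ⟨a, ha, h1⟩
    unfold wA
    rw [dif_neg h, dif_neg h']

theorem WZ_relQ : WZ (relQ Q s) F ψ Z ω = WZ Q F ψ Z (flp s ω) := by
  unfold WZ
  simp only [mate_relQ, arcsZ_relQ, wA_relQ]

theorem av_flp {g : (Φ → Bool) → ℝ} (hg : Dep (F : Set Φ) g) :
    av F (fun ω => g (flp s ω)) = av F g := by
  have h1 : avc F (fun ω => ((g (flp s ω) : ℝ) : ℂ)) = avc F (fun ω => ((g ω : ℝ) : ℂ)) :=
    avc_flp (g := fun ω => ((g ω : ℝ) : ℂ)) fun ω ω' h => congrArg _ (hg ω ω' h)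
  rw [avc_ofReal, avc_ofReal] at h1
  exact_mod_cast h1

theorem av_WZ_relQ (hZ : Z ⊆ bS Q F) :
    av F (WZ (relQ Q s) F ψ Z) = av F (WZ Q F ψ Z) := by
  rw [← av_flp (s := s) (dep_WZ hZ ψ)]
  congr 1
  funext ω
  exact WZ_relQ

theorem av_abs_WZ_relQ (hZ : Z ⊆ bS Q F) :
    av F (fun ω => |WZ (relQ Q s) F ψ Z ω|) = av F (fun ω => |WZ Q F ψ Z ω|) := by
  rw [← av_flp (s := s) (g := fun ω => |WZ Q F ψ Z ω|)
    (fun ω ω' h => congrArg abs (dep_WZ hZ ψ ω ω' h))]
  simp only [WZ_relQ]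

/-! ## The double -/

section dbl

variable {ι : Type} {l : ι → V × V}

theorem _root_.Pool.Agent.SixB.OneSided.relQ (hl : OneSided Q F l) : OneSided (relQ Q s) F l where
  fam := hl.fam
  into i := by
    obtain ⟨f, hf, k, hk⟩ := hl.into i
    refine ⟨f, hf, k - s f, ?_⟩
    rw [sd_relQ, sub_add_cancel]
    exact hk
  only f hf k h1 h2 := by
    rw [relQ_c] at h1 h2
    rw [show k + 1 + s f = k + s f + 1 by ring] at h2
    obtain ⟨i, hi⟩ := hl.only f hf (k + s f) h1 h2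
    exact ⟨i, by rw [sd_relQ]; exact hi⟩

/-- the label shift of the double -/
def s2 (s : Φ → ZMod 4) (f : Φ × Bool) : ZMod 4 := if f.2 = true then -s f.1 else s f.1

theorem dbl_relQ (hl : OneSided Q F l) :
    QChart (dbl (relQ Q s) F l hl.relQ) (relQ (dbl Q F l hl) (s2 s)) (cpy F false ∪ cpy F true)
      id id 0 where
  inj f _ g _ k k' h := h
  cor f hf k := by
    obtain ⟨g, b⟩ := f
    have hg : g ∈ F := by
      rcases Finset.mem_union.mp hf with h | h <;>
      · obtain ⟨x, hx, e⟩ := Finset.mem_image.mp h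
        have e1 : x = g := congrArg Prod.fst e
        exact e1 ▸ hx
    rw [relQ_c, add_zero]
    unfold dbl s2
    simp only [id_eq, hg, if_true, relQ_c]
    cases b
    · simp
    · simp only [if_true]
      congr 2
      ring

theorem bS_dbl_relQ (hl : OneSided Q F l) :
    bS (dbl (relQ Q s) F l hl.relQ) (cpy F false ∪ cpy F true) =
      bS (dbl Q F l hl) (cpy F false ∪ cpy F true) := by
  have h := WM.bS_map (dbl_relQ (s := s) hl)
  rw [Finset.image_id, bS_relQ, Prod.map_id, Finset.image_id] at h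
  exact h.symm

variable {ψ' : (V × Bool × Bool) × (V × Bool × Bool) → ℝ}
  {Z' : Finset ((V × Bool × Bool) × (V × Bool × Bool))}

theorem av_WZ_dbl_relQ (hl : OneSided Q F l)
    (hZ : Z' ⊆ bS (dbl Q F l hl) (cpy F false ∪ cpy F true)) :
    av (cpy F false ∪ cpy F true)
      (WZ (dbl (relQ Q s) F l hl.relQ) (cpy F false ∪ cpy F true) ψ' Z') =
    av (cpy F false ∪ cpy F true) (WZ (dbl Q F l hl) (cpy F false ∪ cpy F true) ψ' Z') := by
  have hZ' : Z' ⊆ bS (dbl (relQ Q s) F l hl.relQ) (cpy F false ∪ cpy F true) := by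
    rw [bS_dbl_relQ]
    exact hZ
  have h := WM.av_WZ (dbl_relQ (s := s) hl) hZ' (ψ := ψ') (ψ' := ψ') (fun _ _ => rfl)
  rw [Finset.image_id, Prod.map_id, Finset.image_id, av_WZ_relQ hZ] at h
  exact h.symm

theorem av_abs_WZ_dbl_relQ (hl : OneSided Q F l)
    (hZ : Z' ⊆ bS (dbl Q F l hl) (cpy F false ∪ cpy F true)) :
    av (cpy F false ∪ cpy F true)
      (fun ω => |WZ (dbl (relQ Q s) F l hl.relQ) (cpy F false ∪ cpy F true) ψ' Z' ω|) =
    av (cpy F false ∪ cpy F true)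
      (fun ω => |WZ (dbl Q F l hl) (cpy F false ∪ cpy F true) ψ' Z' ω|) := by
  have hZ' : Z' ⊆ bS (dbl (relQ Q s) F l hl.relQ) (cpy F false ∪ cpy F true) := by
    rw [bS_dbl_relQ]
    exact hZ
  have h := WM.av_abs_WZ (dbl_relQ (s := s) hl) hZ' (ψ := ψ') (ψ' := ψ') (fun _ _ => rfl)
  rw [Finset.image_id, Prod.map_id, Finset.image_id, av_abs_WZ_relQ hZ] at h
  exact h.symm

end dbl

end

end Pool.Agent.SixB.Rel
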