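import Pool.Agent.Lib.SixB.S3AsmC
import Pool.Agent.Lib.SixB.S3UpHi
import Pool.Agent.Lib.SixB.S3DblPAV
import Pool.Agent.Lib.SixB.S3RelDbl

/-!
# 6BD step 3, row R21 (b): the cut line of the left part of an environment

`E : SEnv` any environment with the blocks on the left of the column `x`.
* `rowsV W x`, `cutVf W x`: the rows of the faces of the window in the column `x - 1`, the finite cut family
  (= `Asm3.cutV x` on these rows).
* `os_lf`, `os_lf_rel`: `OneSided` for `E.lf x` and for the relabelled complex.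
* `onCut_lf`: on the corners of the faces of `E.lf x` the finite family has the same vertices as `Asm3.cutV x`.
* `off_lf`: faces of `E.lf x` which are not base faces of the column `x - 1` have no side on the cut line.
* `ColM Q`: the columns of corners are kept (`E.Q` and `mir E.Q`); `chart_col`: a chart of a wedge is a translation of
  the columns; `chart_near`: a chart of a wedge which has an island side at its vertex stays near the blocks.
* `PAV.colG`, `PAV.colG_mir`: for typed partial atlases of a part of `E` the region `G` may be intersected with the columns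
  near the blocks.
* `dbl_lf`: the atlas of the double of `E.lf x` from the typed partial atlases of the half and of its mirror image.
-/

set_option autoImplicit false
set_option linter.unusedSectionVars false

namespace Pool.Agent.SixB

open Pool.Agent.Perc.Q Pool.Agent.Perc EmbH EnvB Dbl

noncomputable section

namespace UpE

variable {E : SEnv} {W : Finset (ℤ × ℤ)} {x : ℤ}

/-! ## The finite cut line -/

/-- the rows of the faces of the window in the column `x - 1` -/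
def rowsV (W : Finset (ℤ × ℤ)) (x : ℤ) : Finset ℤ := (W.filter fun f => f.1 = x - 1).image Prod.snd

theorem mem_rowsV {y : ℤ} : y ∈ rowsV W x ↔ (x - 1, y) ∈ W := by
  unfold rowsV
  rw [Finset.mem_image]
  constructor
  · rintro ⟨f, hf, rfl⟩
    obtain ⟨h1, h2⟩ := Finset.mem_filter.mp hf
    rw [← h2]
    exact h1
  · intro h
    exact ⟨(x - 1, y), Finset.mem_filter.mpr ⟨h, rfl⟩, rfl⟩

/-- the finite cut family -/
def cutVf (W : Finset (ℤ × ℤ)) (x : ℤ) (y : {y // y ∈ rowsV W x}) :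
    (Option Bool × (ℤ × ℤ)) × (Option Bool × (ℤ × ℤ)) := Asm3.cutV x y.1

theorem cutV_eq (x y : ℤ) : Asm3.cutV x y = ((none, (x, y)), (none, (x, y + 1))) := rfl

theorem onCut_cutV {v : Option Bool × (ℤ × ℤ)} :
    onCut (Asm3.cutV x) v ↔ v.1 = none ∧ v.2.1 = x := by
  obtain ⟨s, a, b⟩ := v
  unfold onCut
  constructor
  · rintro ⟨y, h | h⟩
    · rw [cutV_eq] at h
      obtain ⟨h1, h2⟩ := Prod.mk.inj h
      exact ⟨h1, (Prod.mk.inj h2).1⟩
    · rw [cutV_eq] at h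
      obtain ⟨h1, h2⟩ := Prod.mk.inj h
      exact ⟨h1, (Prod.mk.inj h2).1⟩
  · rintro ⟨h1, h2⟩
    simp only at h1 h2
    subst h1 h2
    exact ⟨b, Or.inl rfl⟩

theorem onCut_cutVf {v : Option Bool × (ℤ × ℤ)} :
    onCut (cutVf W x) v ↔ v.1 = none ∧ v.2.1 = x ∧ ((x - 1, v.2.2) ∈ W ∨ (x - 1, v.2.2 - 1) ∈ W) := by
  obtain ⟨s, a, b⟩ := v
  unfold onCut
  constructor
  · rintro ⟨⟨y, hy⟩, h | h⟩
    · unfold cutVf at h
      rw [cutV_eq] at h
      obtain ⟨h1, h2⟩ := Prod.mk.inj h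
      obtain ⟨h3, h4⟩ := Prod.mk.inj h2
      refine ⟨h1, h3, Or.inl ?_⟩
      simp only at h4 ⊢
      rw [h4]
      exact mem_rowsV.mp hy
    · unfold cutVf at h
      rw [cutV_eq] at h
      obtain ⟨h1, h2⟩ := Prod.mk.inj h
      obtain ⟨h3, h4⟩ := Prod.mk.inj h2
      refine ⟨h1, h3, Or.inr ?_⟩
      simp only at h4 ⊢
      rw [h4, add_sub_cancel_right]
      exact mem_rowsV.mp hy
  · rintro ⟨h1, h2, h3⟩
    simp only at h1 h2 h3
    subst h1 h2
    rcases h3 with h3 | h3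
    · exact ⟨⟨b, mem_rowsV.mpr h3⟩, Or.inl rfl⟩
    · refine ⟨⟨b - 1, mem_rowsV.mpr h3⟩, Or.inr ?_⟩
      unfold cutVf
      rw [cutV_eq, sub_add_cancel]

theorem onCut_cutVf_col {v : Option Bool × (ℤ × ℤ)} (h : onCut (cutVf W x) v) :
    v.1 = none ∧ v.2.1 = x := by
  obtain ⟨h1, h2, -⟩ := onCut_cutVf.mp h
  exact ⟨h1, h2⟩

/-- the blocks are on the left of the column `x` -/
structure LeftV (E : SEnv) (x : ℤ) : Prop where
  thk : Thk E
  up : E.gu.x2 + 7 * (E.gu.k : ℤ) < x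
  lo : E.gd.x2 + 7 * (E.gd.k : ℤ) < x

theorem leftV_env {S : Slb} {X Y : ℤ} (h : S.Ok) (h1 : S.x2 + X + 7 * (S.k : ℤ) < x)
    (h2 : S.x2 + Y + 7 * (S.k : ℤ) < x) : LeftV (S.env W X Y) x := ⟨BlkS.thk h, h1, h2⟩

theorem LeftV.not_solid (h : LeftV E x) (y : ℤ) :
    ¬ E.gu.solid true (x - 1, y) ∧ ¬ E.gd.solid false (x - 1, y) := by
  have h1 := h.up
  have h2 := h.lo
  unfold BGeo.solid
  simp only
  constructor
  · rintro ⟨-, -, -, h3, -⟩
    omega
  · rintro ⟨-, -, -, h3, -⟩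
    omega

theorem mem_lfE {y : Option Bool × (ℤ × ℤ)} : y ∈ E.lf x ↔
    (y.1 = none ∧ y.2 ∈ E.base ∧ y.2.1 < x) ∨ (y.1 = some true ∧ y.2 ∈ E.U) ∨
      (y.1 = some false ∧ y.2 ∈ E.L) := by
  obtain ⟨s, f⟩ := y
  unfold SEnv.lf
  rw [Finset.mem_filter, EnvB.mem_F]
  constructor
  · rintro ⟨⟨h1, h2⟩ | ⟨h1, h2⟩ | ⟨h1, h2⟩, h3⟩
    · simp only at h1
      subst h1
      rcases h3 with h3 | h3
      · exact absurd rfl h3
      · exact Or.inl ⟨rfl, h2, h3⟩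
    · exact Or.inr (Or.inl ⟨h1, h2⟩)
    · exact Or.inr (Or.inr ⟨h1, h2⟩)
  · rintro (⟨h1, h2, h3⟩ | ⟨h1, h2⟩ | ⟨h1, h2⟩)
    · exact ⟨Or.inl ⟨h1, h2⟩, Or.inr h3⟩
    · refine ⟨Or.inr (Or.inl ⟨h1, h2⟩), Or.inl ?_⟩
      simp only at h1
      rw [h1]
      simp
    · refine ⟨Or.inr (Or.inr ⟨h1, h2⟩), Or.inl ?_⟩
      simp only at h1
      rw [h1]
      simp

theorem c_col (f : ℤ × ℤ) (k : ZMod 4) : (ZQ.c f k).1 = f.1 ∨ (ZQ.c f k).1 = f.1 + 1 := by
  rcases EnvB.k4 k with rfl | rfl | rfl | rfl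
  · exact Or.inl rfl
  · exact Or.inr rfl
  · exact Or.inr rfl
  · exact Or.inl rfl

/-- a corner of a pocket face in the base sheet lies in the columns of the mouth -/
theorem pk_none {i : Bool} {f : ℤ × ℤ} {k : ZMod 4} (h : (E.Q.c (some i, f) k).1 = none) :
    (mu E i).adj f k := by
  classical
  rw [cor_pk] at h
  by_contra h1
  rw [if_neg h1] at h
  simp at h

/-- the columns of the faces of the pockets at the mouths -/
theorem adj_col {i : Bool} {f : ℤ × ℤ} {k : ZMod 4} (h : (mu E i).adj f k) :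
    f.1 < E.gu.x2 ∨ f.1 < E.gd.x2 := by
  cases i
  · rw [adj_lo] at h
    exact Or.inr h.1.2
  · rw [adj_up] at h
    exact Or.inl h.1.2

/-- a corner in the base sheet on the cut line belongs to a base face of the last column -/
theorem LeftV.corner (h : LeftV E x) {f : Option Bool × (ℤ × ℤ)} (hf : f ∈ E.lf x) {k : ZMod 4}
    (h1 : (E.Q.c f k).1 = none) (h2 : (E.Q.c f k).2.1 = x) :
    f.1 = none ∧ f.2 ∈ E.base ∧ f.2.1 = x - 1 ∧ (k = 1 ∨ k = 2) := by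
  obtain ⟨s, f⟩ := f
  have hpk : ∀ i : Bool, s = some i → False := by
    rintro i rfl
    have h3 := adj_col (pk_none h1)
    have h4 : (E.Q.c (some i, f) k).2 = ZQ.c f k := rfl
    rw [h4] at h2
    have h5 := c_col f k
    have h6 := h.up
    have h7 := h.lo
    omega
  rcases mem_lfE.mp hf with ⟨h3, h4, h5⟩ | ⟨h3, -⟩ | ⟨h3, -⟩
  · simp only at h3 h4 h5
    subst h3
    have h6 : (E.Q.c (none, f) k).2 = ZQ.c f k := rfl
    rw [h6] at h2
    rcases EnvB.k4 k with rfl | rfl | rfl | rfl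
    · have h7 : f.1 = x := h2
      omega
    · have h7 : f.1 + 1 = x := h2
      exact ⟨rfl, h4, by simp only; omega, Or.inl rfl⟩
    · have h7 : f.1 + 1 = x := h2
      exact ⟨rfl, h4, by simp only; omega, Or.inr rfl⟩
    · have h7 : f.1 = x := h2
      omega
  · exact (hpk _ h3).elim
  · exact (hpk _ h3).elim

theorem sd_last (hE : Thk E) {y : ℤ} (hy : (x - 1, y) ∈ E.base) :
    sd E.Q (none, (x - 1, y)) 1 = Asm3.cutV x y := by
  rw [sd_base hE hy, sd1, cutV_eq]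
  simp only [sub_add_cancel]

/-- **the finite cut line of the left part** -/
theorem os_lf (h : LeftV E x) : OneSided E.Q (E.lf x) (cutVf E.W x) where
  fam := by
    constructor
    · rintro ⟨y, hy⟩ ⟨z, hz⟩ e
      unfold cutVf at e
      rw [cutV_eq, cutV_eq] at e
      have h1 := (Prod.mk.inj e).1
      exact Subtype.ext (Prod.mk.inj (Prod.mk.inj h1).2).2
    · rintro ⟨y, hy⟩ ⟨z, hz⟩ e
      unfold cutVf at e
      rw [cutV_eq, cutV_eq] at e
      have h1 := (Prod.mk.inj (Prod.mk.inj (Prod.mk.inj e).1).2).2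
      have h2 := (Prod.mk.inj (Prod.mk.inj (Prod.mk.inj e).2).2).2
      simp only at h1 h2
      omega
  into := by
    rintro ⟨y, hy⟩
    have h1 : (x - 1, y) ∈ E.base := EnvB.mem_base.mpr ⟨mem_rowsV.mp hy, h.not_solid y⟩
    exact ⟨(none, (x - 1, y)), mem_lfE.mpr (Or.inl ⟨rfl, h1, by simp only; omega⟩), 1,
      sd_last h.thk h1⟩
  only := by
    rintro ⟨s, a, b⟩ hf k h1 h2
    obtain ⟨h3, h4⟩ := onCut_cutVf_col h1
    obtain ⟨h5, h6⟩ := onCut_cutVf_col h2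
    obtain ⟨e1, e2, e3, e4⟩ := h.corner hf h3 h4
    obtain ⟨-, -, -, e5⟩ := h.corner hf h5 h6
    simp only at e1 e2 e3
    subst e1 e3
    have hk : k = 1 := by
      rcases e4 with rfl | rfl
      · rfl
      · rcases e5 with e5 | e5
        · exact absurd e5 (by decide)
        · exact absurd e5 (by decide)
    subst hk
    exact ⟨⟨b, mem_rowsV.mpr (EnvB.mem_base.mp e2).1⟩, sd_last h.thk e2⟩

theorem os_lf_rel (h : LeftV E x) (s : Option Bool × (ℤ × ℤ) → ZMod 4) :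
    OneSided (Rel.relQ E.Q s) (E.lf x) (cutVf E.W x) := (os_lf h).relQ

/-- **the finite cut line has the same vertices as the infinite one** -/
theorem onCut_lf (h : LeftV E x) {f : Option Bool × (ℤ × ℤ)} (hf : f ∈ E.lf x) (k : ZMod 4) :
    onCut (cutVf E.W x) (E.Q.c f k) ↔ onCut (Asm3.cutV x) (E.Q.c f k) := by
  rw [onCut_cutV]
  constructor
  · exact onCut_cutVf_col
  · rintro ⟨h1, h2⟩
    obtain ⟨e1, e2, e3, e4⟩ := h.corner hf h1 h2
    obtain ⟨s, a, b⟩ := f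
    simp only at e1 e2 e3
    subst e1 e3
    refine onCut_cutVf.mpr ⟨h1, h2, ?_⟩
    have h5 := (EnvB.mem_base.mp e2).1
    rcases e4 with rfl | rfl
    · left
      exact h5
    · right
      have h6 : (E.Q.c (none, (x - 1, b)) 2).2.2 = b + 1 := rfl
      rw [h6, add_sub_cancel_right]
      exact h5

theorem onCut_lf_rel (h : LeftV E x) (s : Option Bool × (ℤ × ℤ) → ZMod 4) {f : Option Bool × (ℤ × ℤ)}
    (hf : f ∈ E.lf x) (k : ZMod 4) :
    onCut (cutVf E.W x) ((Rel.relQ E.Q s).c f k) ↔ onCut (Asm3.cutV x) ((Rel.relQ E.Q s).c f k) :=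
  onCut_lf h hf _

/-- faces which are not base faces of the last column have no side on the cut line -/
theorem off_lf (h : LeftV E x) {f : Option Bool × (ℤ × ℤ)} (hf : f ∈ E.lf x)
    (hc : f.1 = none → f.2.1 < x - 1) (k : ZMod 4) : sd E.Q f k ∉ eds (cutVf E.W x) := by
  intro h1
  obtain ⟨i, h2⟩ := mem_eds.mp h1
  have h3 : onCut (cutVf E.W x) (E.Q.c f k) := by
    rcases h2 with h2 | h2
    · exact ⟨i, Or.inl (congrArg Prod.fst h2)⟩
    · exact ⟨i, Or.inr (congrArg Prod.fst h2)⟩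
  obtain ⟨h4, h5⟩ := onCut_cutVf_col h3
  obtain ⟨e1, -, e3, -⟩ := h.corner hf h4 h5
  have h6 := hc e1
  omega

/-! ## The columns of the charts -/

/-- the columns of the corners are kept -/
def ColM {A : Type} (Q : QC (A × (ℤ × ℤ)) (A × (ℤ × ℤ))) : Prop :=
  ∀ f k, (Q.c f k).2.1 = (ZQ.c f.2 k).1

theorem colM_E : ColM E.Q := fun _ _ => rfl

theorem colM_mir : ColM (mir E.Q) := by
  intro f k
  have h1 : ((mir E.Q).c f k).2 = ZQ.c f.2 (3 - k) := rfl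
  rw [h1]
  rcases EnvB.k4 k with rfl | rfl | rfl | rfl
  · rfl
  · rfl
  · rfl
  · rfl

theorem exists_cor {f g : ℤ × ℤ} (h : EAdj f g) : ∃ k l, ZQ.c f k = ZQ.c g l := by
  obtain ⟨a, b⟩ := f
  rcases h with rfl | rfl | rfl | rfl
  · exact ⟨1, 0, rfl⟩
  · refine ⟨0, 1, ?_⟩
    show ((a, b) : ℤ × ℤ) = (a - 1 + 1, b)
    rw [sub_add_cancel]
  · exact ⟨3, 0, rfl⟩
  · refine ⟨0, 3, ?_⟩
    show ((a, b) : ℤ × ℤ) = (a, b - 1 + 1)
    rw [sub_add_cancel]

section chart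

variable {A : Type} [DecidableEq A] {Q : QC (A × (ℤ × ℤ)) (A × (ℤ × ℤ))} {F : Finset (A × (ℤ × ℤ))}
  {R : Finset (ℤ × ℤ)} {f g : ℤ × ℤ}

theorem chart_step (hQ : ColM Q) (c : PChart Q F R) (hf : f ∈ R) (hg : g ∈ R) {k l : ZMod 4}
    (h : ZQ.c f k = ZQ.c g l) : (c.φF g).2.1 - g.1 = (c.φF f).2.1 - f.1 := by
  have h1 := c.cor f hf k
  have h2 := c.cor g hg l
  rw [h, ← h2] at h1
  have h3 := hQ (c.φF f) k
  have h4 := hQ (c.φF g) l
  rw [h1, h4] at h3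
  have h5 : (ZQ.c f k).1 = (ZQ.c g l).1 := by rw [h]
  have key : ∀ (p q : ℤ × ℤ) (k : ZMod 4), (ZQ.c p k).1 - (ZQ.c q k).1 = p.1 - q.1 := by
    intro p q k
    rcases EnvB.k4 k with rfl | rfl | rfl | rfl
    · rfl
    · show p.1 + 1 - (q.1 + 1) = p.1 - q.1
      ring
    · show p.1 + 1 - (q.1 + 1) = p.1 - q.1
      ring
    · rfl
  have h6 := key (c.φF f).2 f k
  have h7 := key (c.φF g).2 g l
  omega

theorem chart_col (hQ : ColM Q) {m : ℕ} {o : ZMod 4} {v : ℤ × ℤ} {ρ : ℕ}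
    (c : PChart Q F (Wdg m o v ρ)) (hm : m ≤ 4) (hf : f ∈ Wdg m o v ρ) (hg : g ∈ Wdg m o v ρ) :
    (c.φF g).2.1 - g.1 = (c.φF f).2.1 - f.1 := by
  have h := wdg_conn hm hf hg
  clear hg
  have key : g ∈ Wdg m o v ρ ∧ (c.φF g).2.1 - g.1 = (c.φF f).2.1 - f.1 := by
    induction h with
    | refl => exact ⟨hf, rfl⟩
    | @tail b d _ h2 ih =>
      have hd : d ∈ Wdg m o v ρ := Finset.mem_coe.1 h2.1
      obtain ⟨k, l, h3⟩ := exists_cor h2.2
      exact ⟨hd, (chart_step hQ c ih.1 hd h3).trans ih.2⟩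
  exact key.2

end chart

section near

variable {Q : QC (Option Bool × (ℤ × ℤ)) (Option Bool × (ℤ × ℤ))}
  {F : Finset (Option Bool × (ℤ × ℤ))} {Z C : Finset ((Option Bool × (ℤ × ℤ)) × (Option Bool × (ℤ × ℤ)))}
  {ψ : (Option Bool × (ℤ × ℤ)) × (Option Bool × (ℤ × ℤ)) → ℝ}

/-- a chart with faces in the base sheet and in a pocket passes a mouth -/
theorem chart_mouth (hE : Thk E) (hF : F ⊆ E.F) (hc : ∀ y k, ∃ k', Q.c y k = E.Q.c y k')
    {m : ℕ} {o : ZMod 4} {v : ℤ × ℤ} {ρ : ℕ} (c : PChart Q F (Wdg m o v ρ)) (hm : m ≤ 4) {f g : ℤ × ℤ}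
    (hf : f ∈ Wdg m o v ρ) (hg : g ∈ Wdg m o v ρ) (h0 : (c.φF f).1 = none) :
    (c.φF g).1 = none ∨ ∃ d ∈ Wdg m o v ρ, (c.φF d).2.1 < E.gu.x2 ∨ (c.φF d).2.1 < E.gd.x2 := by
  have h := wdg_conn hm hf hg
  clear hg
  have key : g ∈ Wdg m o v ρ ∧ ((c.φF g).1 = none ∨ ∃ d ∈ Wdg m o v ρ,
      (c.φF d).2.1 < E.gu.x2 ∨ (c.φF d).2.1 < E.gd.x2) := by
    induction h with
    | refl => exact ⟨hf, Or.inl h0⟩
    | @tail b d _ h2 ih =>
      have hd : d ∈ Wdg m o v ρ := Finset.mem_coe.1 h2.1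
      refine ⟨hd, ?_⟩
      rcases ih.2 with ih2 | ih2
      · by_cases h4 : (c.φF d).1 = none
        · exact Or.inl h4
        · right
          refine ⟨d, hd, ?_⟩
          obtain ⟨k, l, h3⟩ := exists_cor h2.2
          have h5 := c.cor b ih.1 k
          have h6 := c.cor d hd l
          rw [h3, ← h6] at h5
          obtain ⟨k', hk'⟩ := hc (c.φF b) k
          obtain ⟨l', hl'⟩ := hc (c.φF d) l
          rw [hk', hl'] at h5
          have hb := hF (c.sub b ih.1)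
          generalize c.φF b = p at *
          generalize c.φF d = q at *
          obtain ⟨s, p⟩ := p
          obtain ⟨t, q⟩ := q
          simp only at ih2 h4
          subst ih2
          obtain ⟨i, rfl⟩ := Option.ne_none_iff_exists'.mp h4
          rw [cor_base hE (mem_F_none.mp hb)] at h5
          exact adj_col (pk_none (congrArg Prod.fst h5.symm))
      · exact Or.inr ih2
  exact key.2

/-- **a chart of a wedge with island walls stays near the blocks** -/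
theorem chart_near (hE : Thk E) (hF : F ⊆ E.F) (hQ : ColM Q) (hc : ∀ y k, ∃ k', Q.c y k = E.Q.c y k')
    (hz : ∀ f ∈ F, ∀ k, sd Q f k ∈ Z → ∃ k', sd E.Q f k' ∈ E.Z)
    {m : ℕ} {o : ZMod 4} {v : ℤ × ℤ} {R ρ : ℕ} (hm : 1 ≤ m ∧ m ≤ 3) (c : WChart Q F m o v R)
    (hρ : 0 < ρ) (hρR : ρ ≤ R) (hw : c.walls ρ ⊆ Z) {b : ℤ}
    (hb1 : E.gu.x2 + 7 * (E.gu.k : ℤ) + 2 * R ≤ b) (hb2 : E.gd.x2 + 7 * (E.gd.k : ℤ) + 2 * R ≤ b)
    {f : ℤ × ℤ} (hf : f ∈ Wdg m o v R) (h0 : (c.φF f).1 = none) : (c.φF f).2.1 < b := by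
  -- the first wall side
  have ha : (v + (0 : ℤ) • dz o, v + ((0 : ℤ) + 1) • dz o) ∈ wOut o v ρ := by
    unfold wOut
    rw [Finset.mem_image]
    exact ⟨0, Finset.mem_range.mpr hρ, by simp⟩
  obtain ⟨f0, hf0, h1⟩ := wOut_face hm.1 ha
  have hf0' : f0 ∈ Wdg m o v R := SixB.Wdg_mono hρR hf0
  have h2 : sd Q (c.φF f0) o ∈ Z := by
    refine hw ?_
    unfold WChart.walls
    rw [Finset.mem_image]
    refine ⟨_, Finset.mem_union_right _ ha, ?_⟩
    rw [h1]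
    exact c.toPChart.side_sd hf0' o
  have box : ∀ g ∈ Wdg m o v R, v.1 - R ≤ g.1 ∧ g.1 < v.1 + R := by
    intro g hg
    have h3 := (SixB.mem_Wdg.mp hg).1
    omega
  have hfb := box f hf
  rcases chart_mouth hE hF hc c.toPChart (by omega) hf hf0' h0 with h3 | ⟨d, hd, h3⟩
  · obtain ⟨k', hk'⟩ := hz _ (c.sub f0 hf0') o h2
    have hcol := chart_col hQ c.toPChart (by omega) hf hf0'
    have hb := hF (c.sub f0 hf0')
    have hfb0 := box f0 hf0'
    generalize c.φF f0 = p at *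
    obtain ⟨s, p⟩ := p
    simp only at h3 hcol
    subst h3
    have h4 := ((base_Z hE (mem_F_none.mp hb) k').mp hk').1
    have h5 : p.1 ≤ (nb p k').1 + 1 := by
      rcases EnvB.k4 k' with rfl | rfl | rfl | rfl
      · show p.1 ≤ p.1 + 1
        omega
      · show p.1 ≤ p.1 + 1 + 1
        omega
      · show p.1 ≤ p.1 + 1
        omega
      · show p.1 ≤ p.1 - 1 + 1
        omega
    have h6 : (nb p k').1 < E.gu.x2 + 7 * (E.gu.k : ℤ) ∨ (nb p k').1 < E.gd.x2 + 7 * (E.gd.k : ℤ) := by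
      rcases h4 with h4 | h4
      · exact Or.inl h4.2.2.2.1
      · exact Or.inr h4.2.2.2.1
    omega
  · have hcol := chart_col hQ c.toPChart (by omega) hf hd
    have hfb0 := box d hd
    have h5 : (0 : ℤ) ≤ E.gu.k := Int.natCast_nonneg _
    have h6 : (0 : ℤ) ≤ E.gd.k := Int.natCast_nonneg _
    omega

/-- the columns near the blocks -/
def colR (b : ℤ) : Set (Option Bool × (ℤ × ℤ)) := {y | y.1 = none → y.2.1 < b}

end near

end UpE

open UpE

section pav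

variable {E : SEnv} {Q : QC (Option Bool × (ℤ × ℤ)) (Option Bool × (ℤ × ℤ))}
  {F : Finset (Option Bool × (ℤ × ℤ))}
  {Z Z' C C' : Finset ((Option Bool × (ℤ × ℤ)) × (Option Bool × (ℤ × ℤ)))}
  {ψ : (Option Bool × (ℤ × ℤ)) × (Option Bool × (ℤ × ℤ)) → ℝ} {r nN nN' : ℕ} {t₀ : ℝ}
  {S4 S1 N2 G S4' S1' N2' G' : Set (Option Bool × (ℤ × ℤ))} {M M' : Multiset (SK × ℕ)} {b x : ℤ}

/-- **typed partial atlases stay near the blocks** -/
theorem PAV.col (hE : Thk E) (hF : F ⊆ E.F) (hQ : ColM Q) (hc : ∀ y k, ∃ k', Q.c y k = E.Q.c y k')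
    (hz : ∀ f ∈ F, ∀ k, sd Q f k ∈ Z → ∃ k', sd E.Q f k' ∈ E.Z) (hr : 0 < r)
    (h : PAV Q F ψ Z C r nN t₀ S4 S1 N2 G M)
    (hb1 : E.gu.x2 + 7 * (E.gu.k : ℤ) + (8 * r + 2) ≤ b)
    (hb2 : E.gd.x2 + 7 * (E.gd.k : ℤ) + (8 * r + 2) ≤ b) :
    PAV Q F ψ Z C r nN t₀ S4 S1 N2 (G ∩ colR b) M := by
  obtain ⟨A, a1, a2, a3, a4, a5, a6, a7, a8⟩ := h
  refine ⟨A, a1, a2, a3, fun i f hf => ⟨a4 i f hf, ?_⟩, fun i f hf => ⟨a5 i f hf, ?_⟩, a6, a7, a8⟩
  · exact chart_near hE hF hQ hc hz (A.m_rng i) (A.ch i) (show 0 < 4 * r by omega) (by omega)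
      (A.chZ i) (by push_cast; omega) (by push_cast; omega) hf
  · exact chart_near hE hF hQ hc hz (A.m'_rng i) (A.nch i) (show 0 < 2 * r by omega) (by omega)
      (A.nZ i) (by push_cast; omega) (by push_cast; omega) hf

theorem PAV.colG (hE : Thk E) (hF : F ⊆ E.F) (hZ : Z ⊆ E.Z) (hr : 0 < r)
    (h : PAV E.Q F ψ Z C r nN t₀ S4 S1 N2 G M)
    (hb1 : E.gu.x2 + 7 * (E.gu.k : ℤ) + (8 * r + 2) ≤ b)
    (hb2 : E.gd.x2 + 7 * (E.gd.k : ℤ) + (8 * r + 2) ≤ b) :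
    PAV E.Q F ψ Z C r nN t₀ S4 S1 N2 (G ∩ colR b) M :=
  PAV.col hE hF colM_E (fun _ k => ⟨k, rfl⟩) (fun _ _ k hk => ⟨k, hZ hk⟩) hr h hb1 hb2

theorem PAV.colG_mir (hE : Thk E) (hF : F ⊆ E.F) (hZ : Z ⊆ E.Z.image Prod.swap) (hr : 0 < r)
    (h : PAV (mir E.Q) F ψ Z C r nN t₀ S4 S1 N2 G M)
    (hb1 : E.gu.x2 + 7 * (E.gu.k : ℤ) + (8 * r + 2) ≤ b)
    (hb2 : E.gd.x2 + 7 * (E.gd.k : ℤ) + (8 * r + 2) ≤ b) :
    PAV (mir E.Q) F ψ Z C r nN t₀ S4 S1 N2 (G ∩ colR b) M := by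
  refine PAV.col hE hF colM_mir (fun _ k => ⟨3 - k, rfl⟩) (fun f _ k hk => ⟨2 - k, ?_⟩) hr h hb1 hb2
  obtain ⟨a, ha, e⟩ := Finset.mem_image.mp (hZ hk)
  rw [sd_mir] at e
  rw [← Prod.swap_injective e]
  exact ha

/-- **the atlas of the double of the left part** from typed partial atlases of the half and of its mirror image -/
theorem UpE.dbl_lf (h : LeftV E x) (hr : 0 < r)
    (hx1 : E.gu.x2 + 7 * (E.gu.k : ℤ) + (8 * r + 2) < x)
    (hx2 : E.gd.x2 + 7 * (E.gd.k : ℤ) + (8 * r + 2) < x)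
    (hP : PAV E.Q (E.lf x) ψ Z C r nN t₀ S4 S1 N2 G M)
    (hP' : PAV (mir E.Q) (E.lf x) (mps ψ) Z' C' r nN' t₀ S4' S1' N2' G' M')
    (hZ : Z ⊆ bS E.Q (E.lf x)) (hC : Z ⊆ C) (hZE : Z ⊆ E.Z)
    (hZ' : Z' ⊆ bS (mir E.Q) (E.lf x)) (hC' : Z' ⊆ C') (hZE' : Z' ⊆ E.Z.image Prod.swap) :
    ∃ A : Atlas (dbl E.Q (E.lf x) (cutVf E.W x) (os_lf h)) (dblFs (E.lf x)) (dps ψ (mps ψ))
      (Dbl.dZ (cutVf E.W x) Z Z') r (Multiset.card M + Multiset.card M') (nN + nN') t₀, St.vts A = M + M' ∧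
      (∀ i, A.m' i = 2 ∧ (A.nch i).Jump (dps ψ (mps ψ)) 0) ∧ IsEmpty A.μ := by
  have hF : E.lf x ⊆ E.F := Finset.filter_subset _ _
  refine (hP.colG h.thk hF hZE hr (b := x - 1) (by omega) (by omega)).dbl (os_lf h)
    (hP'.colG_mir h.thk hF hZE' hr (b := x - 1) (by omega) (by omega)) hZ hC hZ' hC' ?_
  intro f hf hG k
  exact off_lf h hf (by rcases hG with hG | hG <;> exact hG.2) k

end pav

end

end Pool.Agent.SixB
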