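import Pool.Agent.Lib.SixB.S3UpLfD
import Pool.Agent.Lib.SixB.S3UpMB
import Pool.Agent.Lib.SixB.S3UpE
import Pool.Agent.Lib.SixB.S3UpOsV
import Pool.Agent.Lib.SixB.S3BlkAtlL
import Pool.Agent.Lib.SixB.S3BlkFin
import Pool.Agent.Lib.SixB.S3MirOk

/-!
# 6BD step 3, row R21 b: the mirrored left half and the double of the left half

* `UpE.blkUL`: the atlas of both blocks.
* `UpE.mirLf`: `MirA` for the left half (from `halfM`, `planarC` of S3UpMB).
* `UpE.dblLf`: the atlas of the doubled left half (from `dbl_lf` of S3UpOsV), types `M + mst M`.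
* `UpE.dblLf_ex`: closed form, with a finite cut of the column `x0` which has the same points as `Asm3.cutV x0`.
-/

set_option autoImplicit false
set_option linter.unusedSectionVars false

namespace Pool.Agent.SixB

open Pool.Agent.Perc.Q Pool.Agent.Perc EmbH EnvB

noncomputable section

namespace UpE

variable {S : Slb} {W : Finset (ℤ × ℤ)} {X Y : ℤ} {r : ℕ} {t₀ t₁ : ℝ}
  {CD : Finset ((ℤ × ℤ) × (ℤ × ℤ))}
  {P : Finset (ℤ × ℤ)} {n N : ℕ} {G : ℤ → ℤ × ℤ} {j : ℤ → ℝ} {T : Finset ℤ} {K : ℤ → SK}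

/-- **the atlas of both blocks** -/
theorem blkUL (hr : 0 < r) (hra : 16 * r ≤ S.a) {nB nB' : ℕ}
    (hbU : BlkU S W X Y r nB t₀) (hbL : BlkL S W X Y r nB' t₀) :
    ∃ C, PAV (S.env W X Y).Q (S.env W X Y).F (S.ph W X Y) (S.env W X Y).Z C r (nB + nB') t₀
      (nU S X (4 * r) ∪ nL S Y (4 * r)) (nU S X r ∪ nL S Y r) nO
      (gU S (4 * r + 1) ∪ gL S (4 * r + 1))
      (St.blkV S.mu + St.blkV S.ml) ∧ CovU S W X Y r C ∧ CovL S W X Y r C := by
  obtain ⟨CU, hPU, hCU⟩ := hbU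
  obtain ⟨CL, hPL, hCL⟩ := hbL
  have d0 : Disjoint (gU S (4 * r + 1)) (gL S (4 * r + 1)) := disj_gg (by omega)
  have hd : ∀ A B : Set (Option Bool × (ℤ × ℤ)),
      Disjoint (A ∩ gU S (4 * r + 1)) (B ∩ gL S (4 * r + 1)) := fun A B =>
    d0.mono Set.inter_subset_right Set.inter_subset_right
  refine ⟨CU ∪ CL, (hPU.cap.union hPL.cap (hd _ _) (hd _ _) (hd _ _).symm).mono
    (Finset.Subset.refl _) le_rfl (Set.union_subset_union Set.inter_subset_left
      Set.inter_subset_left) (Set.union_subset_union Set.inter_subset_left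
      Set.inter_subset_left) (Set.union_subset Set.inter_subset_left
      Set.inter_subset_left) (Set.Subset.refl _), ?_, ?_⟩
  · exact ⟨fun f hf k a1 a2 => Finset.mem_union_left _ (hCU.base f hf k a1 a2),
      fun g hg k a1 a2 a3 a4 a5 => Finset.mem_union_left _ (hCU.pk g hg k a1 a2 a3 a4 a5)⟩
  · exact ⟨fun f hf k a1 a2 => Finset.mem_union_right _ (hCL.base f hf k a1 a2),
      fun g hg k a1 a2 a3 a4 a5 => Finset.mem_union_right _ (hCL.pk g hg k a1 a2 a3 a4 a5)⟩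

theorem disj_UL (h : S.Ok) (X Y : ℤ) {ρ ρ' : ℕ} (hρ : ρ ≤ ρ') :
    Disjoint (nU S X ρ ∪ nL S Y ρ) (reg S X Y (fun _ => True) ρ') := by
  rw [Set.disjoint_union_left]
  exact ⟨disj_U' h X Y hρ, disj_L' h X Y hρ⟩

/-- the island sides are covered or missing -/
theorem cov_all (h : S.Ok) (hra : 2 * r ≤ S.a)
    {C : Finset ((Option Bool × (ℤ × ℤ)) × (Option Bool × (ℤ × ℤ)))}
    (hU : CovU S W X Y r C) (hL : CovL S W X Y r C) :
    ∀ a ∈ (S.env W X Y).Z, a ∈ C ∪ (selC (fun f => True ∧ off2 S r f) CD).image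
      (h.shr W X Y).side ∨ Miss h W X Y (fun _ => True) CD a := by
  intro a ha
  have hb := (EnvB.mem_Z.1 ha).1
  obtain ⟨x, hx, k, rfl⟩ := exists_sd_of_bS hb
  obtain ⟨s, f⟩ := x
  rcases EnvB.mem_F.1 hx with ⟨h1, h2⟩ | ⟨h1, h2⟩ | ⟨h1, h2⟩
  · simp only at h1 h2
    subst h1
    left
    refine Finset.mem_union_left _ ?_
    rcases ((base_Z (BlkS.thk h) h2 k).1 ha).1 with h4 | h4
    · exact hU.base f h2 k h4 ha
    · exact hL.base f h2 k h4 ha
  · simp only at h1 h2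
    subst h1
    exact cov_U (CD := CD) (B := fun _ => True) h hra hU h2 ha (fun _ _ => trivial)
  · simp only at h1 h2
    subst h1
    exact cov_L (CD := CD) (B := fun _ => True) h hra hL h2 ha (fun _ _ => trivial)

/-- **the mirror image of the left half** -/
theorem mirLf (h : S.Ok) (hD : S.D = rf n P) (hs : PolyAtl.Spc P n N G j S.ψ T K r t₀)
    (hT : ∀ x ∈ T, PolyAtl.mm G x ≠ 2 ∨ j x ≠ 0) (hra : 16 * r ≤ S.a) {x0 : ℤ}
    (hU : BlkS.WinU S W X 1) (hL : BlkS.WinL S W Y 1)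
    (h0 : S.x2 + X + 7 * S.k + 1 ≤ x0) (h1 : S.x2 + Y + 7 * S.k + 1 ≤ x0) {nB nB' : ℕ}
    (hbU : BlkU S (wlf W x0) X Y r nB t₀) (hbL : BlkL S (wlf W x0) X Y r nB' t₀)
    (hMb : MirOk t₁ (St.blkV S.mu + St.blkV S.ml))
    (hMA : MirOk t₁ (tyP G K r (fun _ => True) (T.filter fun x => PolyAtl.mkb (K x) = false))) :
    MirA S W X Y ((S.env W X Y).lf x0) r (nB + nB' + (12 + (N / r + 1 + 2 * T.card))) t₁
      (gU S (4 * r + 1) ∪ gL S (4 * r + 1))
      (St.blkV S.mu + St.blkV S.ml + T.val.map fun x => (K x, PolyAtl.mm G x)) := by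
  have hr := hs.hr
  obtain ⟨A, Ch, a1, a2, a3, a4, a5, a6, a7⟩ := planarC h hD hs hT hra
  obtain ⟨C, hP, hCU, hCL⟩ := blkUL (by omega) hra hbU hbL
  have ez := (zh_lf h hU hL h0 h1).1
  have hP' : PAV (S.env W X Y).Q ((S.env W X Y).lf x0) (S.ph W X Y)
      (zh (S.env W X Y) ((S.env W X Y).lf x0)) C r (nB + nB') t₀
      (nU S X (4 * r) ∪ nL S Y (4 * r)) (nU S X r ∪ nL S Y r) nO
      (gU S (4 * r + 1) ∪ gL S (4 * r + 1)) (St.blkV S.mu + St.blkV S.ml) := by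
    rw [ez, lf_eq]
    exact hP
  have hcov : ∀ a ∈ zh (S.env W X Y) ((S.env W X Y).lf x0),
      a ∈ C ∪ (selC (fun f => True ∧ off2 S r f) (PolyAtl.Spc.CM P n G T K r)).image
        (h.shr W X Y).side ∨ Miss h W X Y (fun _ => True) (PolyAtl.Spc.CM P n G T K r) a := by
    rw [ez]
    exact cov_all h (by omega) hCU hCL
  obtain ⟨C', b1, b2⟩ := halfM h (half_lf (S := S) (X := X) (Y := Y) (W := W) h x0) (by omega) hra
    (thick_of_spc h hD hs) A a4 a1 a2 a3 Ch hP' (disj_UL h X Y (by omega)) (disj_O X Y)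
    (disj_UL h X Y (by omega)) hMb (by rw [a6]; exact hMA) hcov a5
  refine ⟨C', _, _, _, (b1.mono (Finset.Subset.refl _) le_rfl (Set.Subset.refl _)
    (Set.Subset.refl _) (Set.Subset.refl _) ?_).tps ?_, b2⟩
  · rintro x (hx | ⟨hx, hx'⟩)
    · exact hx
    · rcases EnvB.mem_F.1 ((Finset.mem_filter.1 hx).1) with h2 | h2 | h2
      · exact absurd h2.1 hx'
      · exact Or.inl (Or.inr h2.1)
      · exact Or.inr (Or.inr h2.1)
  · rw [a7 _ S.comp_all, tyP_all]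

theorem card_two2 {μ ν : ℝ} {M : Multiset VT} {c : ℕ} (hM : Multiset.card M ≤ c) :
    Multiset.card (St.blkV μ + St.blkV ν + M) + Multiset.card (mst (St.blkV μ + St.blkV ν + M)) ≤
      2 * (52 + c) := by
  unfold mst
  rw [Multiset.card_map, Multiset.card_add, Multiset.card_add, card_blkV, card_blkV]
  omega

/-- **the atlas of the doubled left half** -/
theorem dblLf (h : S.Ok) (hD : S.D = rf n P) (hs : PolyAtl.Spc P n N G j S.ψ T K r t₀)
    (hT : ∀ x ∈ T, PolyAtl.mm G x ≠ 2 ∨ j x ≠ 0) (hra : 16 * r ≤ S.a) {x0 : ℤ}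
    (hU : BlkS.WinU S W X 1) (hL : BlkS.WinL S W Y 1)
    (h0 : S.x2 + X + 7 * S.k + (8 * r + 3) ≤ x0) (h1 : S.x2 + Y + 7 * S.k + (8 * r + 3) ≤ x0)
    (hx : LeftV (S.env W X Y) x0) {nB nB' nM : ℕ}
    (hbU : BlkU S (wlf W x0) X Y r nB t₀) (hbL : BlkL S (wlf W x0) X Y r nB' t₀)
    {G' : Set (Option Bool × (ℤ × ℤ))}
    (hm : MirA S W X Y ((S.env W X Y).lf x0) r nM t₀ G'
      (St.blkV S.mu + St.blkV S.ml + T.val.map fun x => (K x, PolyAtl.mm G x))) :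
    ∃ A : Atlas (dbl (S.env W X Y).Q ((S.env W X Y).lf x0) (cutVf W x0) (os_lf hx))
      (Dbl.dblFs ((S.env W X Y).lf x0))
      (Dbl.dps (S.ph W X Y) (Dbl.mps (S.ph W X Y)))
      (Dbl.dZ (cutVf W x0) (zh (S.env W X Y) ((S.env W X Y).lf x0))
        ((zh (S.env W X Y) ((S.env W X Y).lf x0)).image Prod.swap)) r
      (2 * (52 + T.card)) (nB + nB' + (12 + (N / r + 1 + 2 * T.card)) + nM) t₀,
      St.vts A = (St.blkV S.mu + St.blkV S.ml + T.val.map fun x => (K x, PolyAtl.mm G x)) +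
        mst (St.blkV S.mu + St.blkV S.ml + T.val.map fun x => (K x, PolyAtl.mm G x)) ∧
      (∀ i, A.m' i = 2 ∧ (A.nch i).Jump (Dbl.dps (S.ph W X Y) (Dbl.mps (S.ph W X Y))) 0) ∧
      IsEmpty A.μ := by
  have hr := hs.hr
  obtain ⟨C, p1, p2⟩ := lfSpc h hD hs hT hra hU hL (by omega) (by omega) hbU hbL
  obtain ⟨C', S4, S1, N2, p3, p4⟩ := hm
  have e1 : (S.env W X Y).gu.x2 = S.x2 + X := rfl
  have e2 : (S.env W X Y).gd.x2 = S.x2 + Y := rfl
  have e3 : (S.env W X Y).gu.k = S.k := rfl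
  have e4 : (S.env W X Y).gd.k = S.k := rfl
  have hz : zh (S.env W X Y) ((S.env W X Y).lf x0) ⊆ (S.env W X Y).Z := Finset.filter_subset _ _
  obtain ⟨A, a1, a2, a3⟩ := UpE.dbl_lf hx (by omega) (by rw [e1, e3]; omega) (by rw [e2, e4]; omega)
    p1 p3 zh_bS p2 hz zh_swap_bS p4 (Finset.image_subset_image hz)
  exact ⟨Dbl.monoA A le_rfl (card_two2 (by rw [Multiset.card_map]; exact le_rfl)) le_rfl, a1, a2, a3⟩

/-- **closed form of `dblLf`** with a finite cut of the window -/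
theorem dblLf_ex (h : S.Ok) (hD : S.D = rf n P) (hs : PolyAtl.Spc P n N G j S.ψ T K r t₀)
    (hT : ∀ x ∈ T, PolyAtl.mm G x ≠ 2 ∨ j x ≠ 0) (hra : 16 * r ≤ S.a) {x0 : ℤ}
    (hU : BlkS.WinU S W X (4 * r + 1)) (hL : BlkS.WinL S W Y (4 * r + 1))
    (h0 : S.x2 + X + 7 * S.k + (8 * r + 3) ≤ x0) (h1 : S.x2 + Y + 7 * S.k + (8 * r + 3) ≤ x0)
    (ht : t₀ ≤ BlkT.tB) {nB : ℕ} (hn : BlkT.nBS S r ≤ nB)
    (hMA : MirOk t₀ (tyP G K r (fun _ => True) (T.filter fun x => PolyAtl.mkb (K x) = false))) :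
    ∃ (ι : Type) (_ : Fintype ι) (l : ι → (Option Bool × (ℤ × ℤ)) × (Option Bool × (ℤ × ℤ)))
      (ho : OneSided (S.env W X Y).Q ((S.env W X Y).lf x0) l),
      (∀ f ∈ (S.env W X Y).lf x0, ∀ k,
        onCut l ((S.env W X Y).Q.c f k) ↔ onCut (Asm3.cutV x0) ((S.env W X Y).Q.c f k)) ∧
      ∃ A : Atlas (dbl (S.env W X Y).Q ((S.env W X Y).lf x0) l ho)
        (Dbl.dblFs ((S.env W X Y).lf x0))
        (Dbl.dps (S.ph W X Y) (Dbl.mps (S.ph W X Y)))
        (Dbl.dZ l (zh (S.env W X Y) ((S.env W X Y).lf x0))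
          ((zh (S.env W X Y) ((S.env W X Y).lf x0)).image Prod.swap)) r
        (2 * (52 + T.card)) (2 * (nB + nB + (12 + (N / r + 1 + 2 * T.card)))) t₀,
        St.vts A = (St.blkV S.mu + St.blkV S.ml + T.val.map fun x => (K x, PolyAtl.mm G x)) +
          mst (St.blkV S.mu + St.blkV S.ml + T.val.map fun x => (K x, PolyAtl.mm G x)) ∧
        (∀ i, A.m' i = 2 ∧ (A.nch i).Jump (Dbl.dps (S.ph W X Y) (Dbl.mps (S.ph W X Y))) 0) ∧
        IsEmpty A.μ := by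
  have hr := hs.hr
  have hx : LeftV (S.env W X Y) x0 := leftV_env h (by omega) (by omega)
  have hU1 : BlkS.WinU S W X 1 := hU.mono (by omega)
  have hL1 : BlkS.WinL S W Y 1 := hL.mono (by omega)
  have bU : BlkU S (wlf W x0) X Y r nB t₀ :=
    BlkT.blkU h (by omega) hra (winU_lf hU (by push_cast; omega)) ht hn
  have bL : BlkL S (wlf W x0) X Y r nB t₀ :=
    BlkT.blkL h (by omega) hra (winL_lf hL (by push_cast; omega)) ht hn
  have hMb : MirOk t₀ (St.blkV S.mu + St.blkV S.ml) := by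
    intro p hp
    rcases Multiset.mem_add.1 hp with h2 | h2
    · exact mirOk_blkU h ht p h2
    · exact mirOk_blkL h ht p h2
  have hm := mirLf (t₁ := t₀) h hD hs hT hra hU1 hL1 (x0 := x0) (by omega) (by omega) bU bL hMb hMA
  obtain ⟨A, a1, a2, a3⟩ := dblLf h hD hs hT hra hU1 hL1 h0 h1 hx bU bL hm
  exact ⟨_, inferInstance, _, os_lf hx, fun f hf k => onCut_lf hx hf k,
    Dbl.monoA A le_rfl le_rfl (by omega), a1, a2, a3⟩

end UpE

end

end Pool.Agent.SixB
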