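import Pool.Agent.Lib.SixB.S3UpX
import Pool.Agent.Lib.SixB.S3UpMB
import Pool.Agent.Lib.SixB.S3BlkAtlL
import Pool.Agent.Lib.SixB.S3BlkFin
import Pool.Agent.Lib.SixB.S3MirOk

/-!
# 6BD step 3, row R21: the doubled halves, without open inputs

* `PolyAtl.Spc.tmono`: smaller lower bound of the weights.
* `UpE.dblHi_env`, `UpE.dblLo_env`: atlases of the doubled upper and lower half in any window which contains
  the neighbourhood of the block.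
-/

set_option autoImplicit false
set_option linter.unusedSectionVars false

namespace Pool.Agent.SixB

open Pool.Agent.Perc.Q Pool.Agent.Perc EmbH EnvB

noncomputable section

variable {S : Slb} {W : Finset (ℤ × ℤ)} {X Y : ℤ} {r : ℕ} {t₀ t₁ : ℝ}
  {P : Finset (ℤ × ℤ)} {n N : ℕ} {G : ℤ → ℤ × ℤ} {j : ℤ → ℝ} {T : Finset ℤ} {K : ℤ → SK}
  {ψ : (ℤ × ℤ) × (ℤ × ℤ) → ℝ}

/-- smaller lower bound of the weights -/
theorem PolyAtl.Spc.tmono (h : PolyAtl.Spc P n N G j ψ T K r t₀) (ht : t₁ ≤ t₀) :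
    PolyAtl.Spc P n N G j ψ T K r t₁ :=
  { h with ver := fun x hx J hJ => ⟨(h.ver x hx J hJ).1, (h.ver x hx J hJ).2.imp_left ht.trans⟩ }

namespace UpE

/-- **the atlas of the doubled upper half** of the environment of a slab -/
theorem dblHi_env (h : S.Ok) (hD : S.D = rf n P) (hs : PolyAtl.Spc P n N G j S.ψ T K r t₀)
    (hT : ∀ x ∈ T, PolyAtl.mm G x ≠ 2 ∨ j x ≠ 0) (hra : 16 * r ≤ S.a)
    (hW : BlkS.WinU S W X (4 * r + 1)) {y : ℤ}
    (hy1 : S.yc - S.a < y) (hy2 : y + (4 * r + 1) < S.yc + S.a)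
    (ht : t₀ ≤ BlkT.tB) {nB : ℕ} (hn : BlkT.nBS S r ≤ nB)
    (hM : MirOk t₀ (tyP G K r (fun f => f ∈ S.Up) (T.filter fun x => PolyAtl.mkb (K x) = false))) :
    ∃ (ι : Type) (_ : Fintype ι) (l : ι → (Option Bool × (ℤ × ℤ)) × (Option Bool × (ℤ × ℤ)))
      (ho : OneSided (S.env W X Y).Q ((S.env W X Y).hi y) l),
      (∀ f ∈ (S.env W X Y).hi y, ∀ k,
        onCut l ((S.env W X Y).Q.c f k) ↔ onCut (SEnv.cutH y) ((S.env W X Y).Q.c f k)) ∧
      ∃ A : Atlas (dbl (S.env W X Y).Q ((S.env W X Y).hi y) l ho) (Dbl.dblFs ((S.env W X Y).hi y))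
        (Dbl.dps (S.ph W X Y) (Dbl.mps (S.ph W X Y)))
        (Dbl.dZ l (zh (S.env W X Y) ((S.env W X Y).hi y))
          ((zh (S.env W X Y) ((S.env W X Y).hi y)).image Prod.swap)) r
        (2 * (26 + T.card)) (2 * (nB + (12 + (N / r + 1 + 2 * T.card)))) t₀,
        St.vts A = (St.blkV S.mu + tyP G K r (fun f => f ∈ S.Up) T) +
          mst (St.blkV S.mu + tyP G K r (fun f => f ∈ S.Up) T) ∧
        (∀ i, A.m' i = 2 ∧ (A.nch i).Jump (Dbl.dps (S.ph W X Y) (Dbl.mps (S.ph W X Y))) 0) ∧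
        IsEmpty A.μ := by
  have hb : BlkU S W X Y r nB t₀ := BlkT.blkU h (by have := hs.hr; omega) hra hW ht hn
  obtain ⟨ι, i1, l, ho, h1, A, h2, h3, h4⟩ := dblHi_ex h hD hs hT hra hy1 hy2 hb
    (mirHi h hD hs hT hra hy1 hy2.le hb (mirOk_blkU h ht) hM)
  exact ⟨ι, i1, l, ho, h1, Dbl.monoA A le_rfl le_rfl (by omega), h2, h3, h4⟩

/-- **the atlas of the doubled lower half** of the environment of a slab -/
theorem dblLo_env (h : S.Ok) (hD : S.D = rf n P) (hs : PolyAtl.Spc P n N G j S.ψ T K r t₀)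
    (hT : ∀ x ∈ T, PolyAtl.mm G x ≠ 2 ∨ j x ≠ 0) (hra : 16 * r ≤ S.a)
    (hW : BlkS.WinL S W Y (4 * r + 1)) {y : ℤ}
    (hy1 : S.yc - S.a + (4 * r + 1) < y) (hy2 : y < S.yc + S.a)
    (ht : t₀ ≤ BlkT.tB) {nB : ℕ} (hn : BlkT.nBS S r ≤ nB)
    (hM : MirOk t₀ (tyP G K r (fun f => f ∈ S.Lo) (T.filter fun x => PolyAtl.mkb (K x) = false))) :
    ∃ (ι : Type) (_ : Fintype ι) (l : ι → (Option Bool × (ℤ × ℤ)) × (Option Bool × (ℤ × ℤ)))
      (ho : OneSided (S.env W X Y).Q ((S.env W X Y).lo y) l),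
      (∀ f ∈ (S.env W X Y).lo y, ∀ k,
        onCut l ((S.env W X Y).Q.c f k) ↔ onCut (revFam (SEnv.cutH y)) ((S.env W X Y).Q.c f k)) ∧
      ∃ A : Atlas (dbl (S.env W X Y).Q ((S.env W X Y).lo y) l ho) (Dbl.dblFs ((S.env W X Y).lo y))
        (Dbl.dps (S.ph W X Y) (Dbl.mps (S.ph W X Y)))
        (Dbl.dZ l (zh (S.env W X Y) ((S.env W X Y).lo y))
          ((zh (S.env W X Y) ((S.env W X Y).lo y)).image Prod.swap)) r
        (2 * (26 + T.card)) (2 * (nB + (12 + (N / r + 1 + 2 * T.card)))) t₀,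
        St.vts A = (St.blkV S.ml + tyP G K r (fun f => f ∈ S.Lo) T) +
          mst (St.blkV S.ml + tyP G K r (fun f => f ∈ S.Lo) T) ∧
        (∀ i, A.m' i = 2 ∧ (A.nch i).Jump (Dbl.dps (S.ph W X Y) (Dbl.mps (S.ph W X Y))) 0) ∧
        IsEmpty A.μ := by
  have hb : BlkL S W X Y r nB t₀ := BlkT.blkL h (by have := hs.hr; omega) hra hW ht hn
  obtain ⟨ι, i1, l, ho, h1, A, h2, h3, h4⟩ := dblLo_ex h hD hs hT hra hy1 hy2 hb
    (mirLo h hD hs hT hra hy1.le hy2 hb (mirOk_blkL h ht) hM)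
  exact ⟨ι, i1, l, ho, h1, Dbl.monoA A le_rfl le_rfl (by omega), h2, h3, h4⟩

end UpE

end

end Pool.Agent.SixB
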