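import Pool.Agent.Lib.SixB.S3UpZH
import Pool.Agent.Lib.SixB.S3RelDbl

/-!
# 6BD step 3, row R21: the number `zEE` of a slab

* `UpZ.islM_rot`: island sides in the rotated chart.
* `UpZ.halfF_lf`, `UpZ.isH_lf`: the windows and the island sides of the left half.
* `UpZ.zEE_le`: UPPER for `zEE` from atlases of the finite doubles (of `E.Q`) in arbitrarily large windows.
-/

set_option autoImplicit false
set_option linter.unusedSectionVars false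

namespace Pool.Agent.SixB.UpZ

open Pool.Agent.Perc Pool.Agent.Perc.Q Filter Topology
open Pool.Agent.SixB.Rel Pool.Agent.SixB.Dbl
open Pool.Agent.SixB.Asm3 (hiS loS lfS cutV zDbl zDbl_eq eB hB bx_pos inBx zU zD zEE)

noncomputable section

section rot

variable {V Φ : Type} [DecidableEq V] [DecidableEq Φ] {L M : ℤ} {Q : QC V Φ}
  {A : Finset Φ} {ψ : ℤ × ℤ → Φ} {H : Set Φ} {Z : Finset (V × V)} {s : Φ → ZMod 4}

/-- the windows in the rotated chart -/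
theorem FM_rot : FM L A (ψ ∘ rf0) M = FM L A ψ M := by
  unfold FM
  congr 1
  rw [← Finset.image_image]
  congr 1
  ext f
  rw [Finset.mem_image]
  constructor
  · rintro ⟨g, hg, rfl⟩
    rw [Finset.mem_sdiff] at hg ⊢
    rw [mem_rf0, mem_rf0]
    exact hg
  · intro hf
    refine ⟨_, ?_, rf0_surj f⟩
    rw [Finset.mem_sdiff] at hf ⊢
    rw [← mem_rf0, ← mem_rf0 (L := L), rf0_surj]
    exact hf

theorem islM_rot (hI : IslM L Q A ψ Z) : IslM L (relQ Q fun _ => 3) A (ψ ∘ rf0) Z where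
  sub M hM := by
    rw [FM_rot, bS_relQ]
    exact hI.sub M hM
  out M M' hM hM' := by
    rw [FM_rot, FM_rot, bS_relQ, bS_relQ]
    exact hI.out M M' hM hM'

theorem isH_relQ : isH (relQ Q s) A H Z = isH Q A H Z := by
  ext a
  rw [mem_isH, mem_isH, dE_relQ]

end rot

variable {E : SEnv} {W : Finset (ℤ × ℤ)} {L M x : ℤ}

theorem mem_lfE {f : Option Bool × (ℤ × ℤ)} : f ∈ E.lf x ↔
    (f.1 = none ∧ f.2 ∈ E.base ∧ f.2.1 < x) ∨ (f.1 = some true ∧ f.2 ∈ E.U) ∨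
      (f.1 = some false ∧ f.2 ∈ E.L) := by
  unfold SEnv.lf
  rw [Finset.mem_filter]
  obtain ⟨s, f⟩ := f
  rw [EmbH.mem_F]
  constructor
  · rintro ⟨(⟨rfl, h1⟩ | ⟨rfl, h1⟩ | ⟨rfl, h1⟩), h2⟩
    · rcases h2 with h2 | h2
      · exact absurd rfl h2
      · exact Or.inl ⟨rfl, h1, h2⟩
    · exact Or.inr (Or.inl ⟨rfl, h1⟩)
    · exact Or.inr (Or.inr ⟨rfl, h1⟩)
  · rintro (⟨h1, h2, h3⟩ | ⟨h1, h2⟩ | ⟨h1, h2⟩)
    · simp only at h1
      subst h1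
      exact ⟨Or.inl ⟨rfl, h2⟩, Or.inr h3⟩
    · simp only at h1
      subst h1
      exact ⟨Or.inr (Or.inl ⟨rfl, h2⟩), Or.inl (by simp)⟩
    · simp only at h1
      subst h1
      exact ⟨Or.inr (Or.inr ⟨rfl, h2⟩), Or.inl (by simp)⟩

theorem mem_lfS {f : Option Bool × (ℤ × ℤ)} : f ∈ lfS E x ↔
    (f.1 = none ∧ (¬ E.gu.solid true f.2 ∧ ¬ E.gd.solid false f.2) ∧ f.2.1 < x) ∨
      (f.1 = some true ∧ f.2 ∈ E.U) ∨ (f.1 = some false ∧ f.2 ∈ E.L) := by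
  unfold lfS
  rw [Set.mem_ofPred_eq]
  simp only [mem_lfE, mem_base_win]
  constructor
  · rintro ⟨M, ⟨h1, ⟨-, h2⟩, h3⟩ | h⟩
    · exact Or.inl ⟨h1, h2, h3⟩
    · exact Or.inr h
  · rintro (⟨h1, h2, h3⟩ | h)
    · obtain ⟨M, -, hM⟩ := exists_RFb f.2 0
      exact ⟨M, Or.inl ⟨h1, ⟨hM, h2⟩, h3⟩⟩
    · exact ⟨0, Or.inr h⟩

/-- the window `W` is the rotated half window on the left of the column `x` -/
def WinL (x M : ℤ) (W : Finset (ℤ × ℤ)) : Prop :=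
  ∀ g : ℤ × ℤ, g.1 < x → (g ∈ W ↔ g ∈ (hW false x M).image rf0)

theorem box_hWL (hM : L + |x| ≤ M) {g : ℤ × ℤ} (hg : g ∈ RFb (0, 0) L) (h : g.1 < x) :
    g ∈ (hW false x M).image rf0 := by
  refine Finset.mem_image.mpr ⟨(-g.2 - 1, g.1), ?_, rf0_surj g⟩
  refine box_hW hM ?_ (inHd.mpr h)
  rw [← mem_rf0, rf0_surj]
  exact hg

theorem halfF_lf (hL : InBx E L) (hM : L + |x| ≤ M) (hW : WinL x M W) :
    halfF false x L (win E L).F (lfS E x) ((fun f => ((none : Option Bool), f)) ∘ rf0) M =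
      (setW E W).lf x := by
  ext ⟨t, g⟩
  rw [mem_halfF, mem_lfS, mem_lfE, EnvB.mem_base]
  constructor
  · rintro (⟨h1, ⟨h2, h3, h4⟩ | h2⟩ | ⟨p, h1, h2, h3⟩)
    · simp only at h2 h3 h4
      subst h2
      have h5 := mem_base_win.mp (EnvB.mem_F_none.mp h1)
      exact Or.inl ⟨rfl, ⟨(hW g h4).mpr (box_hWL hM h5.1 h4), h3⟩, h4⟩
    · exact Or.inr h2
    · obtain ⟨e1, e2⟩ := Prod.mk.inj h3
      subst e1
      subst e2
      have h4 : (rf0 p).1 < x := inHd.mp (mem_hW.mp h1).2.1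
      refine Or.inl ⟨rfl, ⟨(hW _ h4).mpr (Finset.mem_image_of_mem _ h1), not_sol hL ?_⟩, h4⟩
      rw [mem_rf0]
      exact h2
  · rintro (⟨h1, ⟨h2, h3⟩, h4⟩ | h1)
    · simp only at h1 h2 h3 h4
      subst h1
      by_cases h5 : g ∈ RFb (0, 0) L
      · exact Or.inl ⟨EnvB.mem_F_none.mpr (mem_base_win.mpr ⟨h5, h3⟩), Or.inl ⟨rfl, h3, h4⟩⟩
      · obtain ⟨p, hp, rfl⟩ := Finset.mem_image.mp ((hW g h4).mp h2)
        refine Or.inr ⟨p, hp, ?_, rfl⟩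
        rwa [mem_rf0] at h5
    · refine Or.inl ⟨?_, Or.inr h1⟩
      rcases h1 with ⟨h1, h2⟩ | ⟨h1, h2⟩
      · simp only at h1 h2
        subst h1
        exact EnvB.mem_F_up.mpr h2
      · simp only at h1 h2
        subst h1
        exact EnvB.mem_F_lo.mpr h2

theorem isH_lf (hE : EnvB.Thk E) (hL : InBx E L) (hW : ∀ g ∈ RFb (0, 0) L, g.1 < x → g ∈ W) :
    isH E.Q (win E L).F (lfS E x) (win E L).Z = UpE.zh (setW E W) ((setW E W).lf x) := by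
  refine isH_eq hE (Finset.filter_subset _ _) ?_ ?_
  · rintro ⟨t, g⟩ h1 h2
    rw [mem_lfE, EnvB.mem_base]
    rcases mem_lfS.mp h2 with ⟨h3, h4, h5⟩ | h3
    · simp only at h3 h4 h5
      subst h3
      exact Or.inl ⟨rfl, ⟨hW g (mem_base_win.mp (EnvB.mem_F_none.mp h1)).1 h5, h4⟩, h5⟩
    · exact Or.inr h3
  · intro f hf k hs
    refine ⟨sol_face hE hL (Finset.filter_subset _ _ hf) hs, mem_lfS.mpr ?_⟩
    rw [mem_lfE, EnvB.mem_base] at hf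
    rcases hf with ⟨h1, ⟨-, h2⟩, h3⟩ | h1
    · exact Or.inl ⟨h1, h2, h3⟩
    · exact Or.inr h1

/-- **UPPER for `zEE`.** -/
theorem zEE_le (nS nN : ℕ) (t₀ : ℝ) (h0 : 0 < t₀) (h1 : t₀ ≤ 1) : ∃ K₀ : ℝ, 0 < K₀ ∧
    ∀ {S : Slb} (_ : S.Ok) {X0 X Y : ℤ} (_ : Hcs.LeftOf (S.env ∅ X Y) X0) {r : ℕ} {T : Multiset VT},
      0 < r →
      (∃ᶠ M : ℤ in atTop, ∃ W : Finset (ℤ × ℤ), WinL X0 M W ∧
        AtlH (S.env W X Y) ((S.env W X Y).lf X0) (cutV X0) (S.ph W X Y) nS nN t₀ r T) →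
      |zEE S X0 X Y| ≤ 16 * (Real.sqrt 3 ^ (UpE.zh (eB S X Y) ((eB S X Y).lf X0)).card *
        (K₀ * FP r T)) := by
  obtain ⟨K₀, hK, hA⟩ := atlas_upper_le nS nN t₀ h0 h1
  refine ⟨K₀, hK, ?_⟩
  intro S h X0 X Y hlf r T hr hfr
  have hE : EnvB.Thk (S.env ∅ X Y) := BlkS.thk h
  have hL := inBx S X Y
  have hz : isH (relQ (S.env ∅ X Y).Q fun _ => 3) (eB S X Y).F
      (lfS (S.env ∅ X Y) X0) (eB S X Y).Z =
      UpE.zh (eB S X Y) ((eB S X Y).lf X0) :=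
    isH_relQ.trans (isH_lf (W := RFb (0, 0) (Asm3.bx S X Y)) hE hL fun g hg _ => hg)
  have key := zDbl_le (P := (eB S X Y).Z) (ψ := S.ph ∅ X Y) (B := K₀ * FP r T)
    (noLoop_relQ (noLoop_env (S.env ∅ X Y)) _) (GlueZ.rot (glueZ_env hE hL)) (Asm3.half_EE hlf)
    (bx_pos S X Y) (islM_rot (islM_env hE hL))
    (Asm3.hcl_lf hE hL hlf.mu.le hlf.md.le) (Asm3.hcut_lf' hlf) ?_
  · unfold zEE
    rw [abs_mul, abs_of_pos (by norm_num : (0 : ℝ) < 16), ← hz]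
    exact mul_le_mul_of_nonneg_left key (by norm_num)
  · refine (hfr.and_eventually (eventually_ge_atTop (Asm3.bx S X Y + |X0|))).mono ?_
    rintro M ⟨⟨W, hW, ι', hι, l, hl, hc, nS', nN', t₁, A, a1, a2, a3, a4⟩, hM⟩
    have e1 : halfF false X0 (Asm3.bx S X Y) (win (S.env ∅ X Y) (Asm3.bx S X Y)).F
        (lfS (S.env ∅ X Y) X0) ((fun f => ((none : Option Bool), f)) ∘ rf0) M =
        (S.env W X Y).lf X0 := halfF_lf hL hM hW
    have e2 : isH (relQ (S.env ∅ X Y).Q fun _ => 3) (win (S.env ∅ X Y) (Asm3.bx S X Y)).F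
        (lfS (S.env ∅ X Y) X0) (win (S.env ∅ X Y) (Asm3.bx S X Y)).Z =
        UpE.zh (S.env W X Y) ((S.env W X Y).lf X0) :=
      isH_relQ.trans
        (isH_lf (W := W) hE hL fun g hg hy => (hW g hy).mpr (box_hWL hM hg hy))
    rw [e1, e2]
    refine ⟨ι', hι, l, hl.relQ, fun f hf k => hc f hf _, ?_⟩
    have e4 := av_abs_WZ_dbl_relQ (s := fun _ => (3 : ZMod 4)) (ψ' := dps (S.ph ∅ X Y) (mps (S.ph ∅ X Y)))
      hl A.Z_sub
    rw [← a4]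
    exact e4.le.trans (hA A a1 a2 a3 hr)

end

end Pool.Agent.SixB.UpZ
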