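import Pool.Agent.Lib.SixB.S3NormD
import Pool.Agent.Lib.SixB.S3UpZL
import Pool.Agent.Lib.SixB.S3UpXc
import Pool.Agent.Lib.SixB.S3UpLfM

/-!
# 6BD step 3, `NormIn`: the upper bounds of the three doubles for the families of slabs

* `rhoU S = S.a / 64`: the scale of the upper bounds; `UpSc`, `up_scale`: the inequalities for the family of slabs.
* `wH`, `wV`: the windows; they contain the neighbourhoods of the blocks if they are large.
* `SlF`: the data of one slab of the family; `SlF.u`, `SlF.d`, `SlF.e`: the three bounds for one slab.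
* `upFam`: `UpFam` of S3NormD.
-/

set_option autoImplicit false
set_option linter.unusedSectionVars false

namespace Pool.Agent.SixB.Asm3

open Complex Filter Topology Metric
open Pool.Agent.Perc Pool.Agent.Perc.Q Pool.Agent.SixB.St
open Pool.Agent.SixB.PolyAtl (mm Jmps Spc)

noncomputable section

/-- the scale of the upper bounds -/
def rhoU (S : Slb) : ℕ := S.a / 64

/-- the inequalities between the scale, the size of the slab and `n` -/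
structure UpSc (S : Slb) (n N : ℕ) (X₁ X₂ : ℤ) (κ : ℝ) : Prop where
  ok : S.Ok
  r2 : 2 ≤ rhoU S
  nN : n ≤ N * rhoU S
  rn : 16 * rhoU S ≤ n
  rk : (rhoU S : ℝ) ≤ κ * n
  k8 : 8 * S.k ≤ n
  x1 : S.x1 = n * X₁
  x2 : S.x2 = n * X₂

section scale

variable {P : Finset (ℤ × ℤ)} {L : ℕ} {g : ℤ → ℤ × ℤ} {ι : Type} {l : Filter ι} {n : ι → ℕ}
  {j : ι → ℤ → ℝ} {z0 : ℂ}

/-- **the scale of the upper bounds** -/
theorem up_scale (D : SFam P L g l n j z0) (hn : Tendsto n l atTop) {z : ℂ}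
    (hz : z ∈ ball z0 (D.κ / 4)) {r κ : ℝ} (hr : 0 < r) (hr' : r < D.κ / 10 ^ 5) (hκ : 0 < κ)
    (hrκ : r < κ / 2) :
    ∃ N : ℕ, 0 < N ∧ ∀ᶠ i in l, 0 < n i ∧ UpSc (D.slb z r i) (n i) N D.X₁ D.X₂ κ := by
  have hnR : Tendsto (fun i => (n i : ℝ)) l atTop := tendsto_natCast_atTop_atTop.comp hn
  have hDκ := D.hκ
  have hDκ' := D.hκ'
  refine ⟨⌈2 / r⌉₊, Nat.ceil_pos.mpr (by positivity), ?_⟩
  filter_upwards [D.slb_ok hn hz hr hr', hnR.eventually_ge_atTop (2 / r),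
    hnR.eventually_ge_atTop (1 / κ), hn.eventually_gt_atTop 0] with i hok h1 h2 h0
  have hn0 : (0 : ℝ) < n i := by exact_mod_cast h0
  have hn1 : (1 : ℝ) ≤ n i := by exact_mod_cast h0
  have e1 : 2 ≤ r * n i := by
    have := (div_le_iff₀ hr).mp h1
    linarith
  have e2 : 1 ≤ κ * n i := by
    have := (div_le_iff₀ hκ).mp h2
    linarith
  have ha1 : 100 * r * n i ≤ ((D.slb z r i).a : ℝ) := Nat.le_ceil _
  have ha2 : ((D.slb z r i).a : ℝ) < 100 * r * n i + 1 := Nat.ceil_lt_add_one (by positivity)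
  have hρ1 : 64 * rhoU (D.slb z r i) ≤ (D.slb z r i).a := by unfold rhoU; omega
  have hρ2 : (D.slb z r i).a ≤ 64 * rhoU (D.slb z r i) + 63 := by unfold rhoU; omega
  have f1 : 64 * (rhoU (D.slb z r i) : ℝ) ≤ ((D.slb z r i).a : ℝ) := by exact_mod_cast hρ1
  have f2 : ((D.slb z r i).a : ℝ) ≤ 64 * (rhoU (D.slb z r i) : ℝ) + 63 := by exact_mod_cast hρ2
  have hrn : r * n i ≤ 1 / 400000 * n i := by
    refine mul_le_mul_of_nonneg_right ?_ hn0.le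
    nlinarith
  refine ⟨h0, hok, ?_, ?_, ?_, ?_, ?_, rfl, rfl⟩
  · have : (1 : ℝ) < rhoU (D.slb z r i) := by nlinarith
    have h3 : 1 < rhoU (D.slb z r i) := by exact_mod_cast this
    omega
  · have h3 : (2 : ℝ) / r ≤ (⌈2 / r⌉₊ : ℕ) := Nat.le_ceil _
    have h4 : (0 : ℝ) ≤ rhoU (D.slb z r i) := Nat.cast_nonneg _
    have h5 : (2 : ℝ) / r * rhoU (D.slb z r i) ≤ (⌈2 / r⌉₊ : ℕ) * rhoU (D.slb z r i) :=
      mul_le_mul_of_nonneg_right h3 h4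
    have h6 : (n i : ℝ) ≤ 2 / r * rhoU (D.slb z r i) := by
      rw [div_mul_eq_mul_div, le_div_iff₀ hr]
      nlinarith
    exact_mod_cast h6.trans h5
  · have h3 : 16 * (rhoU (D.slb z r i) : ℝ) ≤ n i := by nlinarith
    exact_mod_cast h3
  · have h3 : r * n i ≤ κ / 2 * n i := mul_le_mul_of_nonneg_right hrκ.le hn0.le
    nlinarith
  · have h3 : ((D.slb z r i).k : ℝ) ≤ D.κ * n i / 2 := Nat.floor_le (by positivity)
    have h4 : 8 * ((D.slb z r i).k : ℝ) ≤ n i := by nlinarith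
    exact_mod_cast h4

end scale

/-! ## Numbers -/

section numbers

variable {S : Slb} {n N L : ℕ} {X₁ X₂ : ℤ} {κ : ℝ}

/-- the number of the natural charts of a block -/
def nBU (N : ℕ) (X₁ X₂ : ℤ) : ℕ := 25 * ((17 + 2 * (X₂ - X₁).toNat) * N + 2)

theorem UpSc.nB (h : UpSc S n N X₁ X₂ κ) : BlkT.nBS S (rhoU S) ≤ nBU N X₁ X₂ := by
  unfold BlkT.nBS nBU
  refine Nat.mul_le_mul_left _ (Nat.add_le_add_right ?_ _)
  have h1 := h.k8
  have h2 := h.nN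
  have h3 := h.r2
  have e1 : (S.x2 - S.x1).toNat ≤ n * (X₂ - X₁).toNat := by
    rw [h.x1, h.x2, ← mul_sub]
    have h4 : (n : ℤ) * (X₂ - X₁) ≤ ((n * (X₂ - X₁).toNat : ℕ) : ℤ) := by
      push_cast
      exact mul_le_mul_of_nonneg_left (Int.self_le_toNat _) (Int.natCast_nonneg n)
    omega
  have e2 : 17 * S.k + 2 * (S.x2 - S.x1).toNat ≤ n * (17 + 2 * (X₂ - X₁).toNat) := by
    have : 17 * S.k ≤ n * 17 := by omega
    nlinarith
  refine (Nat.div_le_div_right e2).trans ?_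
  refine Nat.div_le_of_le_mul ?_
  calc n * (17 + 2 * (X₂ - X₁).toNat) ≤ N * rhoU S * (17 + 2 * (X₂ - X₁).toNat) :=
        Nat.mul_le_mul_right _ h2
    _ ≤ 2 * rhoU S * ((17 + 2 * (X₂ - X₁).toNat) * N) := by nlinarith

theorem UpSc.nr (h : UpSc S n N X₁ X₂ κ) : n * L / rhoU S ≤ N * L := by
  have h2 := h.nN
  have h3 := h.r2
  refine Nat.div_le_of_le_mul ?_
  calc n * L ≤ N * rhoU S * L := Nat.mul_le_mul_right _ h2
    _ = rhoU S * (N * L) := by ring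

theorem UpSc.ra (h : UpSc S n N X₁ X₂ κ) : 16 * rhoU S ≤ S.a ∧ 64 * rhoU S ≤ S.a ∧ 128 ≤ S.a := by
  have h3 := h.r2
  unfold rhoU at *
  omega

/-- bound of the numbers of special charts -/
def nSU (L : ℕ) : ℕ := 2 * (52 + (L + 5))

/-- bound of the numbers of natural charts -/
def nNU (N L : ℕ) (X₁ X₂ : ℤ) : ℕ := 2 * (2 * nBU N X₁ X₂ + (12 + (N * L + 1 + 2 * (L + 5))))

end numbers

/-! ## Windows -/

/-- the window centred in the row `y` -/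
def wH (y M : ℤ) : Finset (ℤ × ℤ) := Finset.Ico (-M) M ×ˢ Finset.Ico (y - M) (y + M)

/-- the window centred in the column `x` -/
def wV (x M : ℤ) : Finset (ℤ × ℤ) := Finset.Ico (x - M) (x + M) ×ˢ Finset.Ico (-M) M

theorem mem_wH {y M : ℤ} {g : ℤ × ℤ} :
    g ∈ wH y M ↔ (-M ≤ g.1 ∧ g.1 < M) ∧ y - M ≤ g.2 ∧ g.2 < y + M := by
  unfold wH
  rw [Finset.mem_product, Finset.mem_Ico, Finset.mem_Ico]

theorem mem_wV {x M : ℤ} {g : ℤ × ℤ} :
    g ∈ wV x M ↔ (x - M ≤ g.1 ∧ g.1 < x + M) ∧ -M ≤ g.2 ∧ g.2 < M := by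
  unfold wV
  rw [Finset.mem_product, Finset.mem_Ico, Finset.mem_Ico]

theorem winU_wH (y M : ℤ) : UpZ.WinU y M (wH y M) := by
  intro g hg
  rw [mem_wH, Dbl.mem_hW, UpZ.inHu]
  constructor
  · rintro ⟨h1, h2, h3⟩
    exact ⟨h1, hg, h2, h3⟩
  · rintro ⟨h1, -, h2, h3⟩
    exact ⟨h1, h2, h3⟩

theorem winD_wH (y M : ℤ) : UpZ.WinD y M (wH y M) := by
  intro g hg
  rw [mem_wH, Dbl.mem_hW, UpZ.inHd]
  constructor
  · rintro ⟨h1, h2, h3⟩
    exact ⟨h1, hg, h2, h3⟩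
  · rintro ⟨h1, -, h2, h3⟩
    exact ⟨h1, h2, h3⟩

theorem winL_wV (x M : ℤ) : UpZ.WinL x M (wV x M) := by
  intro g hg
  rw [mem_wV, Finset.mem_image]
  constructor
  · rintro ⟨⟨h1, h2⟩, h3, h4⟩
    refine ⟨(-g.2 - 1, g.1), ?_, Rel.rf0_surj g⟩
    rw [Dbl.mem_hW, UpZ.inHd]
    refine ⟨⟨?_, ?_⟩, hg, ?_, ?_⟩ <;> simp only <;> omega
  · rintro ⟨p, hp, rfl⟩
    rw [Dbl.mem_hW, UpZ.inHd] at hp
    obtain ⟨⟨h1, h2⟩, h3, h4, h5⟩ := hp
    refine ⟨⟨?_, ?_⟩, ?_, ?_⟩ <;> unfold Rel.rf0 <;> simp only <;> omega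

/-- a number larger than all coordinates of the neighbourhoods of the blocks -/
def bigM (S : Slb) (X Y y : ℤ) : ℤ :=
  |S.x1| + |S.x2| + |X| + |Y| + |S.yc| + |y| + 12 * S.k + S.a + |S.x2 - S.x1| + 1

theorem blk_wH {S : Slb} (h : S.Ok) {X Y y M : ℤ} {ρ : ℕ} (hρ : 16 * ρ ≤ S.a) (hM : bigM S X Y y ≤ M) :
    BlkS.WinU S (wH y M) X (4 * ρ + 1) ∧ BlkS.WinL S (wH y M) Y (4 * ρ + 1) := by
  have h1 := neg_abs_le S.x1
  have h2 := le_abs_self S.x2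
  have h3 := neg_abs_le X
  have h3' := le_abs_self X
  have h4 := neg_abs_le Y
  have h4' := le_abs_self Y
  have h5 := neg_abs_le S.yc
  have h5' := le_abs_self S.yc
  have h6 := neg_abs_le y
  have h6' := le_abs_self y
  have h7 := le_abs_self (S.x2 - S.x1)
  have p1 := abs_nonneg S.x1
  have p2 := abs_nonneg S.x2
  have hk := h.hak
  have ha := h.ha
  unfold bigM at hM
  constructor
  · intro u v a1 a2 a3 a4
    rw [mem_wH]
    push_cast at a1 a2 a4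
    simp only
    refine ⟨⟨?_, ?_⟩, ?_, ?_⟩ <;> omega
  · intro u v a1 a2 a3 a4
    rw [mem_wH]
    push_cast at a1 a2 a4
    simp only
    refine ⟨⟨?_, ?_⟩, ?_, ?_⟩ <;> omega

theorem blk_wV {S : Slb} (h : S.Ok) {X Y x M : ℤ} {ρ : ℕ} (hρ : 16 * ρ ≤ S.a) (hM : bigM S X Y x ≤ M) :
    BlkS.WinU S (wV x M) X (4 * ρ + 1) ∧ BlkS.WinL S (wV x M) Y (4 * ρ + 1) := by
  have h1 := neg_abs_le S.x1
  have h2 := le_abs_self S.x2
  have h3 := neg_abs_le X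
  have h3' := le_abs_self X
  have h4 := neg_abs_le Y
  have h4' := le_abs_self Y
  have h5 := neg_abs_le S.yc
  have h5' := le_abs_self S.yc
  have h6 := neg_abs_le x
  have h6' := le_abs_self x
  have h7 := le_abs_self (S.x2 - S.x1)
  have p1 := abs_nonneg S.x1
  have p2 := abs_nonneg S.x2
  have hk := h.hak
  have ha := h.ha
  unfold bigM at hM
  constructor
  · intro u v a1 a2 a3 a4
    rw [mem_wV]
    push_cast at a1 a2 a4
    simp only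
    refine ⟨⟨?_, ?_⟩, ?_, ?_⟩ <;> omega
  · intro u v a1 a2 a3 a4
    rw [mem_wV]
    push_cast at a1 a2 a4
    simp only
    refine ⟨⟨?_, ?_⟩, ?_, ?_⟩ <;> omega

/-! ## One slab -/

/-- the data of one slab of the family -/
structure SlF (S : Slb) (P : Finset (ℤ × ℤ)) (n N L : ℕ) (X₁ X₂ : ℤ) (κ t : ℝ) (b : ℕ) (G : ℤ → ℤ × ℤ)
    (j : ℤ → ℝ) (T : Finset ℤ) (K : ℤ → SK) (X : Multiset VT) : Prop where
  sc : UpSc S n N X₁ X₂ κ
  D : S.D = rf n P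
  spc : Spc P n (n * L) G j S.ψ T K (rhoU S) 1
  cor : ∀ x ∈ T, mm G x ≠ 2 ∨ j x ≠ 0
  card : T.card ≤ L + 5
  ty : T.val.map (fun x => (K x, mm G x)) = domV b X
  t1 : t ≤ 1
  tB : t ≤ BlkT.tB
  mir : ∀ B : ℤ × ℤ → Prop,
    MirOk t (UpE.tyP G K (rhoU S) B (T.filter fun x => PolyAtl.mkb (K x) = false))

section one

variable {S : Slb} {P : Finset (ℤ × ℤ)} {n N L b : ℕ} {X₁ X₂ : ℤ} {κ t K₀ : ℝ} {G : ℤ → ℤ × ℤ}
  {j : ℤ → ℝ} {T : Finset ℤ} {K : ℤ → SK} {X : Multiset VT}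

/-- the types of the upper half -/
def tU (S : Slb) (G : ℤ → ℤ × ℤ) (K : ℤ → SK) (T : Finset ℤ) : Multiset VT :=
  blkV S.mu + UpE.tyP G K (rhoU S) (fun f => f ∈ S.Up) T

/-- the types of the lower half -/
def tD (S : Slb) (G : ℤ → ℤ × ℤ) (K : ℤ → SK) (T : Finset ℤ) : Multiset VT :=
  blkV S.ml + UpE.tyP G K (rhoU S) (fun f => f ∈ S.Lo) T

theorem mu_add_ml (S : Slb) : S.ml = Real.pi / 3 - S.mu := by
  unfold Slb.ml Slb.mu
  ring

theorem SlF.types (h : SlF S P n N L X₁ X₂ κ t b G j T K X) :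
    tU S G K T + tD S G K T = envV S.mu b X := by
  have h1 := UpE.tyP_parts h.sc.ok h.D h.spc h.cor h.sc.ra.1
  unfold tU tD envV
  rw [mu_add_ml, ← h.ty, ← h1]
  abel

theorem SlF.all (h : SlF S P n N L X₁ X₂ κ t b G j T K X) :
    blkV S.mu + blkV S.ml + T.val.map (fun x => (K x, mm G x)) = envV S.mu b X := by
  unfold envV
  rw [mu_add_ml, ← h.ty]

theorem SlF.u (h : SlF S P n N L X₁ X₂ κ t b G j T K X)
    (hK : ∀ {S : Slb} (_ : S.Ok) {r : ℕ} {T : Multiset VT}, 0 < r →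
      (∃ᶠ M : ℤ in atTop, ∃ W : Finset (ℤ × ℤ), UpZ.WinU (S.yc + (S.a / 2 : ℕ)) M W ∧
        UpZ.AtlH (S.env W 0 0) ((S.env W 0 0).hi (S.yc + (S.a / 2 : ℕ)))
          (SEnv.cutH (S.yc + (S.a / 2 : ℕ))) (S.ph W 0 0) (nSU L) (nNU N L X₁ X₂) t r T) →
      |zU S| ≤ Real.sqrt 3 ^ (UpE.zh (eB S 0 0) ((eB S 0 0).hi (S.yc + (S.a / 2 : ℕ)))).card *
        (K₀ * FP r T)) :
    |zU S| ≤ Real.sqrt 3 ^ (UpE.zh (eB S 0 0) ((eB S 0 0).hi (S.yc + (S.a / 2 : ℕ)))).card *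
      (K₀ * (FP (rhoU S) (tU S G K T) * FP (rhoU S) (mst (tU S G K T)))) := by
  have hr := h.sc.r2
  obtain ⟨ra1, ra2, ra3⟩ := h.sc.ra
  have hN := h.sc.nr (L := L)
  have hc := h.card
  rw [← FP_add]
  refine hK h.sc.ok (by omega) (((eventually_ge_atTop
    (bigM S 0 0 (S.yc + (S.a / 2 : ℕ)))).mono fun M hM => ?_).frequently)
  refine ⟨wH _ M, winU_wH _ M, ?_⟩
  obtain ⟨ι, i1, l, ho, h1, A, a1, -, -⟩ := UpE.dblHi_env (Y := 0) h.sc.ok h.D (h.spc.tmono h.t1) h.cor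
    ra1 (blk_wH h.sc.ok (Y := 0) ra1 hM).1 (y := S.yc + (S.a / 2 : ℕ)) (by omega) (by omega) h.tB h.sc.nB
    (h.mir _)
  refine ⟨ι, i1, l, ho, h1, _, _, t, A, ?_, ?_, le_rfl, a1⟩
  · unfold nSU
    omega
  · unfold nNU
    omega

theorem SlF.d (h : SlF S P n N L X₁ X₂ κ t b G j T K X)
    (hK : ∀ {S : Slb} (_ : S.Ok) {r : ℕ} {T : Multiset VT}, 0 < r →
      (∃ᶠ M : ℤ in atTop, ∃ W : Finset (ℤ × ℤ), UpZ.WinD (S.yc - (S.a / 2 : ℕ)) M W ∧
        UpZ.AtlH (S.env W 0 0) ((S.env W 0 0).lo (S.yc - (S.a / 2 : ℕ)))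
          (revFam (SEnv.cutH (S.yc - (S.a / 2 : ℕ)))) (S.ph W 0 0) (nSU L) (nNU N L X₁ X₂) t r T) →
      |zD S| ≤ Real.sqrt 3 ^ (UpE.zh (eB S 0 0) ((eB S 0 0).lo (S.yc - (S.a / 2 : ℕ)))).card *
        (K₀ * FP r T)) :
    |zD S| ≤ Real.sqrt 3 ^ (UpE.zh (eB S 0 0) ((eB S 0 0).lo (S.yc - (S.a / 2 : ℕ)))).card *
      (K₀ * (FP (rhoU S) (tD S G K T) * FP (rhoU S) (mst (tD S G K T)))) := by
  have hr := h.sc.r2
  obtain ⟨ra1, ra2, ra3⟩ := h.sc.ra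
  have hN := h.sc.nr (L := L)
  have hc := h.card
  rw [← FP_add]
  refine hK h.sc.ok (by omega) (((eventually_ge_atTop
    (bigM S 0 0 (S.yc - (S.a / 2 : ℕ)))).mono fun M hM => ?_).frequently)
  refine ⟨wH _ M, winD_wH _ M, ?_⟩
  obtain ⟨ι, i1, l, ho, h1, A, a1, -, -⟩ := UpE.dblLo_env (X := 0) h.sc.ok h.D (h.spc.tmono h.t1) h.cor
    ra1 (blk_wH h.sc.ok (X := 0) ra1 hM).2 (y := S.yc - (S.a / 2 : ℕ)) (by omega) (by omega) h.tB h.sc.nB
    (h.mir _)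
  refine ⟨ι, i1, l, ho, h1, _, _, t, A, ?_, ?_, le_rfl, a1⟩
  · unfold nSU
    omega
  · unfold nNU
    omega

theorem SlF.e (h : SlF S P n N L X₁ X₂ κ t b G j T K X)
    (hK : ∀ {S : Slb} (_ : S.Ok) {X0 X Y : ℤ} (_ : Hcs.LeftOf (S.env ∅ X Y) X0) {r : ℕ}
      {T : Multiset VT}, 0 < r →
      (∃ᶠ M : ℤ in atTop, ∃ W : Finset (ℤ × ℤ), UpZ.WinL X0 M W ∧
        UpZ.AtlH (S.env W X Y) ((S.env W X Y).lf X0) (cutV X0) (S.ph W X Y) (nSU L) (nNU N L X₁ X₂) t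
          r T) →
      |zEE S X0 X Y| ≤ 16 * (Real.sqrt 3 ^ (UpE.zh (eB S X Y) ((eB S X Y).lf X0)).card *
        (K₀ * FP r T)))
    {X0 Y Y' : ℤ} (h1 : S.x2 + Y + 7 * S.k + (8 * rhoU S + 3) ≤ X0)
    (h2 : S.x2 + Y' + 7 * S.k + (8 * rhoU S + 3) ≤ X0) :
    |zEE S X0 Y Y'| ≤ Real.sqrt 3 ^ (UpE.zh (eB S Y Y') ((eB S Y Y').lf X0)).card *
      (16 * K₀ * (FP (rhoU S) (envV S.mu b X) * FP (rhoU S) (mst (envV S.mu b X)))) := by
  have hr := h.sc.r2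
  obtain ⟨ra1, ra2, ra3⟩ := h.sc.ra
  have hN := h.sc.nr (L := L)
  have hc := h.card
  rw [← FP_add, ← h.all]
  have hl : Hcs.LeftOf (S.env ∅ Y Y') X0 := by
    refine leftOf_of ?_ ?_
    · show S.x2 + Y + 7 * (S.k : ℤ) < X0
      omega
    · show S.x2 + Y' + 7 * (S.k : ℤ) < X0
      omega
  have key := hK h.sc.ok hl (r := rhoU S) (by omega) (((eventually_ge_atTop
    (bigM S Y Y' X0)).mono fun M hM => ?_).frequently)
      (T := blkV S.mu + blkV S.ml + T.val.map (fun x => (K x, mm G x)) +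
        mst (blkV S.mu + blkV S.ml + T.val.map (fun x => (K x, mm G x))))
  · refine key.trans (le_of_eq ?_)
    ring
  · refine ⟨wV _ M, winL_wV _ M, ?_⟩
    have hw := blk_wV h.sc.ok (X := Y) (Y := Y') ra1 hM
    obtain ⟨ι, i1, l, ho, h3, A, a1, -, -⟩ := UpE.dblLf_ex h.sc.ok h.D (h.spc.tmono h.t1) h.cor
      ra1 hw.1 hw.2 h1 h2 h.tB h.sc.nB (h.mir _)
    refine ⟨ι, i1, l, ho, h3, _, _, t, A, ?_, ?_, le_rfl, a1⟩
    · unfold nSU
      omega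
    · unfold nNU
      omega

end one

/-! ## The family -/

theorem bound_mono {x s K C F : ℝ} (hx : 0 ≤ x) (hs : 0 < s) (hK : 0 < K) (hKC : K ≤ C)
    (h : x ≤ s * (K * F)) : x ≤ s * (C * F) := by
  have hF : 0 ≤ F := by
    by_contra hF
    push Not at hF
    have h1 : s * (K * F) < 0 := mul_neg_of_pos_of_neg hs (mul_neg_of_pos_of_neg hK hF)
    linarith
  exact h.trans (mul_le_mul_of_nonneg_left (mul_le_mul_of_nonneg_right hKC hF) hs.le)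

/-- the shifted blocks are far on the left of the cut column -/
theorem far_left {n k ρ t : ℕ} {X₁ X₂ : ℤ} {T : ℝ} (hX : X₁ < X₂) (hT : T = (X₂ - X₁ : ℝ) + 6)
    (h1 : T * n ≤ t) (hk : 8 * k ≤ n) (hρ : 16 * ρ ≤ n) (h2 : 2 ≤ ρ) :
    (n : ℤ) * X₂ + -2 * (t : ℤ) + 7 * (k : ℤ) + (8 * (ρ : ℤ) + 3) ≤ n * (X₁ - 4) := by
  have h3 : ((X₂ - X₁ : ℤ) + 6) * (n : ℤ) ≤ t := by
    have : (((X₂ - X₁ : ℤ) : ℝ) + 6) * n ≤ t := by
      rw [hT] at h1
      push_cast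
      exact h1
    exact_mod_cast this
  have h4 : (n : ℤ) * (X₁ + 1) ≤ n * X₂ := mul_le_mul_of_nonneg_left hX (Int.natCast_nonneg n)
  have h5 : (8 : ℤ) * k ≤ n := by exact_mod_cast hk
  have h6 : (16 : ℤ) * ρ ≤ n := by exact_mod_cast hρ
  have h7 : (2 : ℤ) ≤ ρ := by exact_mod_cast h2
  nlinarith

/-- **UPPER for the families of slabs.** -/
theorem upFam : UpFam := by
  intro P L g hP hg ι l n hn j hj X κ T K hX hT z0 hz0 D
  obtain ⟨t', ht', htB, hmir⟩ := mirOk_fam hX.mk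
  have hDκ := D.hκ
  have hκ := hT.pos
  refine ⟨min (D.κ / 10 ^ 5) (κ / 2), lt_min (by positivity) (by positivity), fun z hz r hr hr' => ?_⟩
  obtain ⟨N, hN, hsc⟩ := up_scale D hn hz hr (hr'.trans_le (min_le_left _ _)) hκ
    (hr'.trans_le (min_le_right _ _))
  have ht : 0 < min t' 1 := lt_min ht' one_pos
  obtain ⟨KU, hKU, hU⟩ := UpZ.zU_le (nSU L) (nNU N L D.X₁ D.X₂) (min t' 1) ht (min_le_right _ _)
  obtain ⟨KD, hKD, hD⟩ := UpZ.zD_le (nSU L) (nNU N L D.X₁ D.X₂) (min t' 1) ht (min_le_right _ _)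
  obtain ⟨KE, hKE, hE⟩ := UpZ.zEE_le (nSU L) (nNU N L D.X₁ D.X₂) (min t' 1) ht (min_le_right _ _)
  refine ⟨max KU (max KD (16 * KE)), hKU.le.trans (le_max_left _ _), N, ?_⟩
  filter_upwards [hsc, hT.cor, hT.ty, hT.spc, D.ph] with i h1 h2 h3 h4 h5
  have hs : SlF (D.slb z r i) P (n i) N L D.X₁ D.X₂ κ (min t' 1) (Cens.cc L g) (gr (n i) g) (j i)
      (T i) (K i) X :=
    { sc := h1.2
      D := rfl
      spc := h4 _ _ h1.2.r2 h1.2.rk h5.jump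
      cor := h2
      card := hT.card i
      ty := h3
      t1 := min_le_right _ _
      tB := (min_le_left _ _).trans htB
      mir := fun B => (hmir _ _ _ _ _ h3 B).mono (min_le_left _ _) }
  have hr2 := h1.2.r2
  have hrn := h1.2.rn
  have h3s : ∀ c : ℕ, 0 < Real.sqrt 3 ^ c := fun c => by positivity
  refine ⟨rhoU (D.slb z r i), by omega, by omega, h1.2.nN, tU (D.slb z r i) (gr (n i) g) (K i) (T i),
    tD (D.slb z r i) (gr (n i) g) (K i) (T i), hs.types, ?_, ?_, ?_⟩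
  · exact bound_mono (abs_nonneg _) (h3s _) hKU (le_max_left _ _) (hs.u hU)
  · exact bound_mono (abs_nonneg _) (h3s _) hKD ((le_max_left _ _).trans (le_max_right _ _)) (hs.d hD)
  · intro x y hxy
    obtain ⟨w1, -, w3, -⟩ := hxy
    have hX12 : D.X₁ < D.X₂ := by
      have : (D.X₁ : ℝ) < D.X₂ := by linarith [D.hX₁, D.hX₂]
      exact_mod_cast this
    have e1 := far_left (k := (D.slb z r i).k) (ρ := rhoU (D.slb z r i)) hX12 rfl w3 h1.2.k8 hrn hr2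
    have e2 := far_left (k := (D.slb z r i).k) (ρ := rhoU (D.slb z r i)) hX12 rfl w1 h1.2.k8 hrn hr2
    exact bound_mono (abs_nonneg _) (h3s _) (by positivity)
      ((le_max_right _ _).trans (le_max_right _ _)) (hs.e hE e1 e2)

end

end Pool.Agent.SixB.Asm3
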