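import Pool.Agent.Lib.SixB.S3AsmC
import Pool.Agent.Lib.SixB.S3Census
import Pool.Agent.Lib.SixB.S3UpHi

/-!
# 6BD step 3, row R23: the premises of `NormIn` (definitions)

* `Mk1`: the marks of the three families (`0 < α < 1`).
* `FamTy`: the special positions of a family of marks, their kinds and types.
* `LowFam`: LOWER for `E(0, 0)` in arbitrarily large windows at a scale comparable with `n`.
* `UpB`, `UpFam`: UPPER for the doubles `zU`, `zD`, `zEE` at a scale comparable with `n`.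
* `StarIn`: the inequality (N*) for the types of an environment.
-/

set_option autoImplicit false
set_option linter.unusedSectionVars false

namespace Pool.Agent.SixB.Asm3

open Complex Filter Topology Metric
open Pool.Agent.Perc Pool.Agent.Perc.Q Pool.Agent.SixB.St
open Pool.Agent.SixB.PolyAtl (mm Jmps Spc)

noncomputable section

/-- the marks of the three families -/
def Mk1 (X : Multiset VT) : Prop :=
  X = mkNat ∨ ∃ α ∈ Set.Ioo (0 : ℝ) 1, X = mkPair α ∨ X = mkFull α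

theorem Mk1.mk {X : Multiset VT} (h : Mk1 X) : Mk X := by
  rcases h with h | ⟨α, h1, h2⟩
  · exact Or.inl h
  · exact Or.inr ⟨α, h1.1.le, h1.2.le, h2⟩

/-- the special positions `T i` (corners or marks) of the family, their kinds `K i`, their types; the scales are
bounded by `κ n` -/
structure FamTy (P : Finset (ℤ × ℤ)) (L : ℕ) (g : ℤ → ℤ × ℤ) {ι : Type} (l : Filter ι) (n : ι → ℕ)
    (j : ι → ℤ → ℝ) (X : Multiset VT) (κ : ℝ) (T : ι → Finset ℤ) (K : ι → ℤ → SK) : Prop where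
  pos : 0 < κ
  card : ∀ i, (T i).card ≤ L + 5
  cor : ∀ᶠ i in l, ∀ x ∈ T i, mm (gr (n i) g) x ≠ 2 ∨ j i x ≠ 0
  ty : ∀ᶠ i in l, (T i).val.map (fun x => (K i x, mm (gr (n i) g) x)) = domV (Cens.cc L g) X
  spc : ∀ᶠ i in l, ∀ r : ℕ, ∀ ψ, 2 ≤ r → (r : ℝ) ≤ κ * n i → Jmps (gr (n i) g) (j i) ψ →
    Spc P (n i) (n i * L) (gr (n i) g) (j i) ψ (T i) (K i) r 1

/-- LOWER for the family of slabs -/
def LowFam : Prop := ∀ (P : Finset (ℤ × ℤ)) (L : ℕ) (g : ℤ → ℤ × ℤ), MPoly P → Cont P L g →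
  ∀ {ι : Type} (l : Filter ι) (n : ι → ℕ), Tendsto n l atTop → ∀ j : ι → ℤ → ℝ, MFam L g l n j →
  ∀ (X : Multiset VT) (κ : ℝ) (T : ι → Finset ℤ) (K : ι → ℤ → SK), Mk1 X →
    FamTy P L g l n j X κ T K → ∀ z0 ∈ Om P, ∀ D : SFam P L g l n j z0,
  ∃ c > 0, ∃ N : ℕ, ∃ r0 > 0, ∀ z ∈ ball z0 (D.κ / 4), ∀ r : ℝ, 0 < r → r < r0 →
    ∀ᶠ i in l, ∃ R : ℕ, 0 < R ∧ R ≤ n i ∧ n i ≤ N * R ∧ ∃ᶠ M : ℤ in atTop,
      c * FP R (envV (D.slb z r i).mu (Cens.cc L g) X) ≤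
        av (Rel.win ((D.slb z r i).env ∅ 0 0) M).F
          (WZ ((D.slb z r i).env ∅ 0 0).Q (Rel.win ((D.slb z r i).env ∅ 0 0) M).F
            ((D.slb z r i).ph ∅ 0 0) (Rel.win ((D.slb z r i).env ∅ 0 0) M).Z)

/-- the bounds of UPPER for the doubles of one slab at the scale `ρ`; `MU`, `MD` = types of the upper and the lower
half, `M` = all types, `sh` = the shifts -/
structure UpB (S : Slb) (X0 : ℤ) (sh : ℕ → ℕ → Prop) (C : ℝ) (ρ : ℕ) (MU MD M : Multiset VT) :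
    Prop where
  u : |zU S| ≤ Real.sqrt 3 ^ (UpE.zh (eB S 0 0) ((eB S 0 0).hi (S.yc + (S.a / 2 : ℕ)))).card *
    (C * (FP ρ MU * FP ρ (mst MU)))
  d : |zD S| ≤ Real.sqrt 3 ^ (UpE.zh (eB S 0 0) ((eB S 0 0).lo (S.yc - (S.a / 2 : ℕ)))).card *
    (C * (FP ρ MD * FP ρ (mst MD)))
  e : ∀ x y : ℕ, sh x y → |zEE S X0 (-2 * y) (-2 * x)| ≤
    Real.sqrt 3 ^ (UpE.zh (eB S (-2 * y) (-2 * x)) ((eB S (-2 * y) (-2 * x)).lf X0)).card *
      (C * (FP ρ M * FP ρ (mst M)))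

/-- UPPER for the family of slabs -/
def UpFam : Prop := ∀ (P : Finset (ℤ × ℤ)) (L : ℕ) (g : ℤ → ℤ × ℤ), MPoly P → Cont P L g →
  ∀ {ι : Type} (l : Filter ι) (n : ι → ℕ), Tendsto n l atTop → ∀ j : ι → ℤ → ℝ, MFam L g l n j →
  ∀ (X : Multiset VT) (κ : ℝ) (T : ι → Finset ℤ) (K : ι → ℤ → SK), Mk1 X →
    FamTy P L g l n j X κ T K → ∀ z0 ∈ Om P, ∀ D : SFam P L g l n j z0,
  ∃ r0 > 0, ∀ z ∈ ball z0 (D.κ / 4), ∀ r : ℝ, 0 < r → r < r0 → ∃ C : ℝ, 0 ≤ C ∧ ∃ N : ℕ,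
    ∀ᶠ i in l, ∃ ρ : ℕ, 0 < ρ ∧ ρ ≤ n i ∧ n i ≤ N * ρ ∧ ∃ MU MD : Multiset VT,
      MU + MD = envV (D.slb z r i).mu (Cens.cc L g) X ∧
      UpB (D.slb z r i) (D.X0 i) (Win D.T 1 (n i)) C ρ MU MD
        (envV (D.slb z r i).mu (Cens.cc L g) X)

/-- (N*) -/
def StarIn : Prop := ∀ (b : ℕ) (X : Multiset VT), Mk1 X → ∃ C' : ℝ, 0 ≤ C' ∧ ∀ r : ℕ, 0 < r →
  ∀ μ : ℝ, -(2 * (Real.pi / 3)) ≤ μ → μ ≤ Real.pi →
    FP r (mst (envV μ b X)) ≤ C' * FP r (envV μ b X)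

end

end Pool.Agent.SixB.Asm3
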