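import Pool.Agent.Lib.SixB.S3TestPoly
import Pool.Agent.Lib.SixB.S3NormD

/-!
# 6BD step 3, row R23: the premise `StarIn` of `NormIn`

* `nstarO`: (N*) from the inequalities of the test polygons for a set `Ok` of parameters.
* `Asm3.starIn : StarIn`, from `TP.poly_ineq`.
-/

set_option autoImplicit false

namespace Pool.Agent.SixB.StarIn

open Pool.Agent.Perc.Q Pool.Agent.Perc Real Pool.Agent.SixB.St

noncomputable section

/-- the inequalities of the test polygons at the scale `r` for the parameters with `Ok` -/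
structure PolyO (Ok : ℝ → Prop) (C : ℝ) (r : ℕ) : Prop where
  r1 : ∀ q : ℝ, Ok q → fF q r * fF (π / 3 - q) r ≤
    C * (cA r ^ 4 * (fF (-q) r * fF (-(π / 3 - q)) r))
  r1' : ∀ q : ℝ, Ok q → cA r ^ 4 * (fF (-q) r * fF (-(π / 3 - q)) r) ≤
    C * (fF q r * fF (π / 3 - q) r)
  l : cA r * cB r ≤ C

/-- marks with `Ok` -/
def MkO (Ok : ℝ → Prop) (X : Multiset VT) : Prop :=
  (Ok 0 ∧ X = mkNat) ∨ ∃ α : ℝ, 0 ≤ α ∧ α ≤ 1 ∧ Ok ((1 - α) * (π / 3)) ∧ (X = mkPair α ∨ X = mkFull α)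

theorem pair_nonneg {α : ℝ} (h0 : 0 ≤ α) (h1 : α ≤ 1) (r : ℕ) :
    0 ≤ fF ((1 - α) * (π / 3)) r * fF (α * (π / 3)) r ∧
      0 ≤ fF (-((1 - α) * (π / 3))) r * fF (-(α * (π / 3))) r := by
  have hπ : 0 < π / 3 := by linarith [pi_pos]
  have a1 : 0 ≤ α * (π / 3) := mul_nonneg h0 hπ.le
  have a2 : α * (π / 3) ≤ π / 3 := by nlinarith
  have b1 : 0 ≤ (1 - α) * (π / 3) := mul_nonneg (by linarith) hπ.le
  have b2 : (1 - α) * (π / 3) ≤ π / 3 := by nlinarith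
  exact ⟨mul_nonneg (fF_nonneg (by linarith) (by linarith) r) (fF_nonneg (by linarith) (by linarith) r),
    mul_nonneg (fF_nonneg (by linarith) (by linarith) r) (fF_nonneg (by linarith) (by linarith) r)⟩

theorem e_nonneg (r : ℕ) : 0 ≤ sF .e 2 r := Kd.sF_nonneg (K := .e) le_rfl _ _

theorem em_nonneg (r : ℕ) : 0 ≤ sF .em 2 r := Kd.sF_nonneg (K := .em) le_rfl _ _

/-- the marks -/
theorem marksO {Ok : ℝ → Prop} {C : ℝ} (hC : 0 ≤ C) : ∃ C₂ : ℝ, 0 ≤ C₂ ∧ ∀ r : ℕ, 0 < r →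
    PolyO Ok C r → ∀ X, MkO Ok X → cA r ^ 4 * FP r (mst X) ≤ C₂ * FP r X := by
  obtain ⟨K, hK, hk⟩ := e_le
  have hCK : 0 ≤ C * K := mul_nonneg hC hK.le
  refine ⟨C + C * K, add_nonneg hC hCK, fun r hr hP X hX => ?_⟩
  rcases hX with ⟨hO, rfl⟩ | ⟨α, h0, h1, hO, rfl | rfl⟩
  · have h := hP.r1' 0 hO
    rw [neg_zero, sub_zero, fF_zero, fF_third, one_mul, mul_one, mul_one] at h
    rw [FP_mst_mkNat, FP_mkNat, mul_one]
    linarith
  · have h := hP.r1' ((1 - α) * (π / 3)) hO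
    have e : π / 3 - (1 - α) * (π / 3) = α * (π / 3) := by ring
    rw [e] at h
    rw [FP_mst_mkPair, FP_mkPair]
    refine h.trans (mul_le_mul_of_nonneg_right ?_ (pair_nonneg h0 h1 r).1)
    linarith
  · have h := hP.r1' ((1 - α) * (π / 3)) hO
    have e : π / 3 - (1 - α) * (π / 3) = α * (π / 3) := by ring
    rw [e] at h
    rw [FP_mst_mkFull, FP_mkFull]
    have h2 := (pair_nonneg h0 h1 r).1
    have h3 := hk r hr
    have h4 : 0 ≤ sF .em 2 r * fF (-(π / 3)) r ^ 2 := mul_nonneg (em_nonneg r) (sq_nonneg _)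
    calc cA r ^ 4 * (fF (-((1 - α) * (π / 3))) r * fF (-(α * (π / 3))) r *
          (sF .em 2 r * fF (-(π / 3)) r ^ 2))
        = cA r ^ 4 * (fF (-((1 - α) * (π / 3))) r * fF (-(α * (π / 3))) r) *
          (sF .em 2 r * fF (-(π / 3)) r ^ 2) := by ring
      _ ≤ (C * (fF ((1 - α) * (π / 3)) r * fF (α * (π / 3)) r)) * (K * sF .e 2 r) :=
          mul_le_mul h h3 h4 (mul_nonneg hC h2)
      _ = C * K * (fF ((1 - α) * (π / 3)) r * fF (α * (π / 3)) r * sF .e 2 r) := by ring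
      _ ≤ (C + C * K) * (fF ((1 - α) * (π / 3)) r * fF (α * (π / 3)) r * sF .e 2 r) :=
          mul_le_mul_of_nonneg_right (by linarith) (mul_nonneg h2 (e_nonneg r))

theorem FP_marks_nonneg {Ok : ℝ → Prop} {X : Multiset VT} (hX : MkO Ok X) (r : ℕ) :
    0 ≤ FP r (mst X) ∧ 0 ≤ FP r X := by
  have hπ := pi_pos
  rcases hX with ⟨-, rfl⟩ | ⟨α, h0, h1, -, rfl | rfl⟩
  · rw [FP_mst_mkNat, FP_mkNat]
    exact ⟨fF_nonneg (by linarith) (by linarith) r, zero_le_one⟩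
  · rw [FP_mst_mkPair, FP_mkPair]
    exact ⟨(pair_nonneg h0 h1 r).2, (pair_nonneg h0 h1 r).1⟩
  · rw [FP_mst_mkFull, FP_mkFull]
    exact ⟨mul_nonneg (pair_nonneg h0 h1 r).2 (mul_nonneg (em_nonneg r) (sq_nonneg _)),
      mul_nonneg (pair_nonneg h0 h1 r).1 (e_nonneg r)⟩

/-- **(N\*)** from the inequalities for the parameters with `Ok`. -/
theorem nstarO {Ok : ℝ → Prop} {C : ℝ} (hC : 0 ≤ C) (b : ℕ)
    (hOk : ∀ μ : ℝ, -(2 * (π / 3)) ≤ μ → μ ≤ π → Ok (BGeo.alpha μ)) : ∃ C' : ℝ, 0 ≤ C' ∧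
    ∀ r : ℕ, 0 < r → PolyO Ok C r → ∀ μ : ℝ, -(2 * (π / 3)) ≤ μ → μ ≤ π → ∀ X, MkO Ok X →
      FP r (mst (envV μ b X)) ≤ C' * FP r (envV μ b X) := by
  obtain ⟨C₂, hC₂, h2⟩ := marksO (Ok := Ok) hC
  refine ⟨C ^ 2 * C₂ * C ^ (20 + b + 4), by positivity, fun r hr hP μ hμ1 hμ2 X hX => ?_⟩
  have hπ := pi_pos
  obtain ⟨ha1, ha2⟩ := alpha_range hμ1 hμ2
  have ea : BGeo.alpha (π / 3 - μ) = π / 3 - BGeo.alpha μ := by unfold BGeo.alpha; ring
  have es : BGeo.sig (π / 3 - μ) = -BGeo.sig μ := by unfold BGeo.sig; ring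
  have ep : π / 3 - (π / 3 - μ) = μ := by ring
  obtain ⟨T, hT⟩ : ∃ T : ℝ, T = sF (.ver (BGeo.out μ / 2)) 3 r ^ 2 *
    sF (.ver (BGeo.out (π / 3 - μ) / 2)) 3 r ^ 2 *
      (fF (BGeo.sig μ) r ^ 2 * fF (-BGeo.sig μ) r ^ 2) := ⟨_, rfl⟩
  have hT0 : 0 ≤ T := by
    rw [hT]
    exact mul_nonneg (mul_nonneg (sq_nonneg _) (sq_nonneg _)) (mul_nonneg (sq_nonneg _) (sq_nonneg _))
  have e1 : FP r (envV μ b X) =
      (fF (-BGeo.alpha μ) r * fF (-(π / 3 - BGeo.alpha μ)) r) ^ 2 * (T * FP r X) := by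
    unfold envV
    rw [FP_add, FP_add, FP_blkV, FP_blkV, FP_domV, ea, es, neg_neg, hT]
    ring
  have e2 : FP r (mst (envV μ b X)) = cA r ^ (20 + b) * cB r ^ (20 + b + 4) *
      (fF (BGeo.alpha μ) r * fF (π / 3 - BGeo.alpha μ) r) ^ 2 * (T * FP r (mst X)) := by
    unfold envV
    rw [mst_add, mst_add, FP_add, FP_add, FP_mst_blkV, FP_mst_blkV, FP_mst_domV, ea, es, ep, hT]
    ring
  rw [e1, e2]
  have hX0 := FP_marks_nonneg hX r
  have h3 := h2 r hr hP X hX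
  have h4 : cA r ^ 4 * (T * FP r (mst X)) ≤ C₂ * (T * FP r X) := by
    calc cA r ^ 4 * (T * FP r (mst X)) = T * (cA r ^ 4 * FP r (mst X)) := by ring
      _ ≤ T * (C₂ * FP r X) := mul_le_mul_of_nonneg_left h3 hT0
      _ = C₂ * (T * FP r X) := by ring
  exact nstar_core (20 + b) (cA_nonneg r) (cB_nonneg r)
    (mul_nonneg (fF_nonneg (by linarith) (by linarith) r) (fF_nonneg (by linarith) (by linarith) r))
    (mul_nonneg hT0 hX0.1) (mul_nonneg hT0 hX0.2) hC hC₂ (hP.r1 _ (hOk μ hμ1 hμ2)) h4 hP.l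

/-- the lower bound of the weights outside of the domain -/
def tw : ℝ := sin (1 / 6 * (π / 3))

theorem tw_pos : 0 < tw := sin_eighteenth_pos

theorem okQ_alpha {μ : ℝ} (h1 : -(2 * (π / 3)) ≤ μ) (h2 : μ ≤ π) : TP.OkQ tw (BGeo.alpha μ) := by
  have hπ := pi_pos
  have a1 : π / 18 ≤ BGeo.alpha μ := by unfold BGeo.alpha; linarith
  have a2 : BGeo.alpha μ ≤ 5 * (π / 18) := by unfold BGeo.alpha; linarith
  refine ⟨by linarith, by linarith, Or.inl ?_, Or.inl ?_⟩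
  · exact tJ_ge (by linarith) (by linarith) (by linarith) (by linarith)
  · exact tJ_ge (by linarith) (by linarith) (by linarith) (by linarith)

theorem star_of {t : ℝ} (h0 : 0 < t) (h1 : t ≤ tw) (b : ℕ) {X : Multiset VT}
    (hX : MkO (TP.OkQ t) X) : ∃ C' : ℝ, 0 ≤ C' ∧ ∀ r : ℕ, 0 < r →
      ∀ μ : ℝ, -(2 * (π / 3)) ≤ μ → μ ≤ π →
        FP r (mst (envV μ b X)) ≤ C' * FP r (envV μ b X) := by
  obtain ⟨C, hC, h⟩ := TP.poly_ineq h0 (h1.trans (sin_le_one _))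
  obtain ⟨C', hC', h'⟩ := nstarO (Ok := TP.OkQ t) hC b fun μ hμ1 hμ2 => (okQ_alpha hμ1 hμ2).mono h1
  exact ⟨C', hC', fun r hr μ hμ1 hμ2 =>
    h' r hr ⟨(h r hr).1, (h r hr).2.1, (h r hr).2.2⟩ μ hμ1 hμ2 X hX⟩

end

end Pool.Agent.SixB.StarIn

namespace Pool.Agent.SixB.Asm3

open Pool.Agent.SixB.St Pool.Agent.SixB.StarIn

/-- **(N\*)** for the three families of marks. -/
theorem starIn : StarIn := by
  intro b X hX
  have hπ : 0 < Real.pi / 3 := by linarith [Real.pi_pos]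
  rcases hX with rfl | ⟨α, hα, hX⟩
  · exact star_of tw_pos le_rfl b (Or.inl ⟨TP.okQ_zero (Real.sin_le_one _), rfl⟩)
  · obtain ⟨h0, h1⟩ := hα
    obtain ⟨t, ht0, -, hO⟩ := TP.exists_okQ (q := (1 - α) * (Real.pi / 3))
      (mul_pos (by linarith) hπ) (by nlinarith)
    exact star_of (lt_min tw_pos ht0) (min_le_left _ _) b
      (Or.inr ⟨α, h0.le, h1.le, hO.mono (min_le_right _ _), hX⟩)

end Pool.Agent.SixB.Asm3
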