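import Pool.Agent.Lib.SixB.S3LowN
import Pool.Agent.Lib.SixB.S3NormU
import Pool.Agent.Lib.SixB.S3StarIn
import Pool.Agent.Lib.SixB.S3HPkT
import Pool.Agent.Lib.SixB.S3FamEIn
import Pool.Agent.Lib.SixB.S3HEnd
import Pool.Agent.Lib.SixB.S3JJIn
import Pool.Agent.Lib.SixB.S3CsIn
import Pool.Agent.Lib.SixB.S3WZ6
import Pool.Agent.Lib.SixB.S3CylIn
import Pool.Agent.Lib.SixB.CAOutThm

/-!
# 6BD step 3: the premises of `coreFam_of` are theorems; `CoreFam`, `CAOut`
-/

set_option autoImplicit false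

namespace Pool.Agent.SixB

/-- `NormIn`: LOWER and the norm inequalities -/
theorem Asm3.normIn : Asm3.NormIn :=
  Asm3.normIn_of FamE.famIn (FamE.lowFam_of LowN.lowD_all) Asm3.upFam Asm3.starIn

/-- `CmpIn`: comparison with the height of the polygon -/
theorem Asm3.cmpIn : Asm3.CmpIn :=
  Asm3.cmpIn_of Asm3.normIn
    (HEnd.cmpWin_of (PkE.pkEIn_of 5 (PkE.famEIn_of LowN.lowD_all)) (PkD.pkDIn 5))

/-- **Step 3.** -/
theorem coreFam : CoreFam :=
  Asm3.coreFam_of Asm3.normIn Asm3.cylIn Asm3.csIn Asm3.jjIn (Asm3.potIn Asm3.normIn) Asm3.cmpIn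

/-- **Block CA: the crossing probabilities converge.** -/
theorem caOut : CAOut := caOut_of_core coreFam

end Pool.Agent.SixB

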