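import Pool.Agent.Lib.SixB.S3HcsC
import Pool.Agent.Lib.SixB.S3CylnH
import Pool.Agent.Lib.SixB.S3CylnC

/-!
# 6BD step 3: the reflection inequality for a plane surface, limit over cylinders

* `Cyl`: a cylinder surface which covers a plane surface (all hypotheses of `Rel.cyl_limit`).
* `Cyl.lim`: `cyl_limit` for `Cyl`.
* `hcs_of`: the inequality for a plane surface with a cut row, from `Cyl` for the two doubles.
-/

set_option autoImplicit false
set_option linter.unusedSectionVars false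

namespace Pool.Agent.SixB.Hcs

open Pool.Agent.Perc Pool.Agent.Perc.Q Relation Filter Topology ComplexConjugate
open Pool.Agent.SixB.Rel Pool.Agent.SixB.Dbl
open Pool.Agent.SixB hiding Zs_split dst_congr qt_congr dE_mono

noncomputable section

/-- the cylinder surface with the faces `F'` covers the plane surface -/
structure Cyl {V Φ V' Φ' : Type} [DecidableEq V] [DecidableEq Φ] [DecidableEq V'] [DecidableEq Φ']
    (n N : ℕ) [Fact (3 ≤ N)] (M L : ℤ) (Q : QC V Φ) (A : Finset Φ) (ψ : ℤ × ℤ → Φ)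
    (h : V × V → ℂ) (P : Finset (V × V)) (Q' : QC V' Φ') (F' : Finset Φ') (h' : V' × V' → ℂ) :
    Prop where
  ex : ∃ (A' : Finset Φ') (φ' : ZMod N × ℤ → V') (ψ' : ZMod N × ℤ → Φ') (P' : Finset (V' × V'))
    (χv : V → V') (χf : Φ → Φ') (r : ZMod 4) (h'' : V' × V' → ℂ), GlueC N M L Q' A' φ' ψ' P' ∧
    Cov n L N Q A ψ h P Q' A' ψ' h'' P' χv χf r ∧
    A' ∪ (cylF N (-M) M \ bxC N L).image ψ' = F' ∧
    (∀ ω, Turns Q' F' ω ((botE N (-M)).image (Prod.map φ' φ'))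
      ((topE N M).image (Prod.map φ' φ'))) ∧
    (∀ a, a ∉ P' → a.swap ∉ P' → h'' a = 1) ∧ ∀ a ∈ dE Q' F', h' a = h'' a

section

variable {V Φ V' Φ' : Type} [DecidableEq V] [DecidableEq Φ] [DecidableEq V'] [DecidableEq Φ']

/-- the bound of the weights is invariant -/
theorem CP_map {P : Finset (V × V)} {χ : V → V'} {h : V × V → ℂ} {h' : V' × V' → ℂ}
    (hinj : Set.InjOn (Prod.map χ χ) ((P ∪ rv P : Finset (V × V)) : Set (V × V)))
    (hh : ∀ a ∈ P ∪ rv P, h' (Prod.map χ χ a) = h a) :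
    CP h' (P.image (Prod.map χ χ)) = CP h P := by
  unfold CP
  have e1 : (P.image (Prod.map χ χ)).card = P.card :=
    Finset.card_image_of_injOn (hinj.mono (by
      intro a ha
      exact_mod_cast Finset.mem_union_left _ (by exact_mod_cast ha)))
  have e2 : P.image (Prod.map χ χ) ∪ rv (P.image (Prod.map χ χ)) =
      (P ∪ rv P).image (Prod.map χ χ) := by
    unfold rv
    rw [Finset.image_union, Finset.image_image, Finset.image_image]
    rfl
  rw [e1, e2, Finset.prod_image fun a ha b hb hab => hinj ha hb hab]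
  congr 1
  exact Finset.prod_congr rfl fun a ha => by rw [hh a ha]

theorem rv_sub {Q : QC V Φ} {F : Finset Φ} {P : Finset (V × V)} (h : P ⊆ dE Q F) :
    P ∪ rv P ⊆ dE Q F := by
  refine Finset.union_subset h ?_
  intro a ha
  unfold rv at ha
  obtain ⟨b, hb, rfl⟩ := Finset.mem_image.mp ha
  exact swap_mem_dE.mpr (h hb)

theorem cov_CP {n N : ℕ} [Fact (3 ≤ N)] {L : ℤ} {Q : QC V Φ} {A : Finset Φ} {ψ : ℤ × ℤ → Φ}
    {h : V × V → ℂ} {P : Finset (V × V)} {Q' : QC V' Φ'} {A' : Finset Φ'}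
    {ψ' : ZMod N × ℤ → Φ'} {h' : V' × V' → ℂ} {P' : Finset (V' × V')} {χv : V → V'}
    {χf : Φ → Φ'} {r : ZMod 4} (C : Cov n L N Q A ψ h P Q' A' ψ' h' P' χv χf r)
    (hP : P ⊆ dE Q A) : CP h' P' = CP h P := by
  have h1 : P ∪ rv P ⊆ dE Q (A ∪ (aZ L n).image ψ) :=
    (rv_sub hP).trans (dE_mono Finset.subset_union_left)
  rw [← C.eP]
  refine CP_map (fun a ha b hb hab => ?_) fun a ha => C.eh a (h1 ha)
  exact C.chart.inj_dE (h1 (by exact_mod_cast ha)) (h1 (by exact_mod_cast hb)) hab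

end

/-- **The limit theorem in the form used here.** -/
theorem Cyl.lim {L : ℤ} (hL : 0 < L) (K : ℝ) {ε : ℝ} (hε : 0 < ε) :
    ∃ n : ℕ, 1 ≤ n ∧ ∀ (N : ℕ) [Fact (3 ≤ N)], Odd N → 2 * (4 ^ n * (4 ^ n * L)) < N →
      ∃ M₀ : ℤ, ∀ M, M₀ ≤ M → ∃ x : ℝ, 1 / 2 ≤ x ∧ x ≤ 2 ∧
        ∀ (V Φ V' Φ' : Type) [DecidableEq V] [DecidableEq Φ] [DecidableEq V'] [DecidableEq Φ']
          (Q : QC V Φ) (A : Finset Φ) (φ : ℤ × ℤ → V) (ψ : ℤ × ℤ → Φ) (h : V × V → ℂ)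
          (P : Finset (V × V)) (Q' : QC V' Φ') (F' : Finset Φ') (h' : V' × V' → ℂ),
          NoLoop Q → NoLoop Q' → GlueZ L Q A φ ψ P → (∀ a, a ∉ P → a.swap ∉ P → h a = 1) →
          CP h P ≤ K → Cyl n N M L Q A ψ h P Q' F' h' →
          ‖avc F' (fun ω => Zs Q' F' ω h') - ((r4 ^ (2 * N) * x : ℝ) : ℂ) * Zp L Q A ψ h P‖ ≤
            (r4 ^ (2 * N) * x) * ε := by
  obtain ⟨n, hn, H⟩ := cyl_limit hL (K := K) (ε := ε / 2) (by positivity)
  refine ⟨n, hn, ?_⟩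
  intro N _ hodd hN
  obtain ⟨M₀, -, HM⟩ := H N hodd hN
  refine ⟨M₀, fun M hM => ?_⟩
  obtain ⟨h1, h2, h3⟩ := HM M hM
  refine ⟨_, h1, h2, ?_⟩
  intro V Φ V' Φ' _ _ _ _ Q A φ ψ h P Q' F' h' hQ hQ' HZ hh hK C
  obtain ⟨A', φ', ψ', P', χv, χf, r, h'', HC, CV, rfl, hT, hh', he⟩ := C.ex
  have h4 := h3 V Φ V' Φ' Q A φ ψ h P Q' A' φ' ψ' h'' P' χv χf r hQ hQ' HZ HC CV hT hh hh' hK
    (by rw [cov_CP CV HZ.P_sub]; exact hK)
  rw [avc_Zs_congr (Q := Q') (Q' := Q') (fun _ _ _ => rfl) he]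
  refine h4.trans ?_
  have hr : 0 < r4 ^ (2 * N) := pow_pos r4_pos _
  have h5 : r4 ^ (2 * N) * (ε / 2) = r4 ^ (2 * N) * (1 / 2) * ε := by ring
  rw [h5]
  apply mul_le_mul_of_nonneg_right _ hε.le
  exact mul_le_mul_of_nonneg_left h1 hr.le

/-! ## The assembly -/

section assembly

variable {V Φ : Type} [DecidableEq V] [DecidableEq Φ] {Q : QC V Φ} {A : Finset Φ} {L g L' : ℤ}
  {φ : ℤ × ℤ → V} {ψ : ℤ × ℤ → Φ} {P₀ P : Finset (V × V)} {S₁ S₂ : Set Φ} {m : ℤ → V × V}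
  {h : V × V → ℂ} {c : V × V → ℝ} {N : ℕ} [hN : Fact (3 ≤ N)]

/-- the coefficients on the cylindrification -/
def cyc' (Φ : Type) (N : ℕ) (c : V × V → ℝ) (a : CV V Φ N × CV V Φ N) : ℝ :=
  match a with
  | (Sum.inl p, Sum.inl q) => c (p, q)
  | _ => 0

theorem cyc'_icl (c : V × V → ℝ) (a : V × V) : cyc' Φ N c (icl V Φ N a) = c a := rfl

theorem sup_cy (H : Sup c P) : Sup (cyc' Φ N c) (P.image (icl V Φ N)) where
  anti a := by
    obtain ⟨p, q⟩ := a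
    rcases p with p | p <;> rcases q with q | q
    · exact H.anti (p, q)
    · show (0 : ℝ) = -0
      simp
    · show (0 : ℝ) = -0
      simp
    · show (0 : ℝ) = -0
      simp
  one a ha := by
    obtain ⟨b, hb, rfl⟩ := Finset.mem_image.mp ha
    intro h1
    obtain ⟨b', hb', h2⟩ := Finset.mem_image.mp h1
    have h3 : b' = b.swap := icl_inj h2
    rw [h3] at hb'
    exact H.one b hb hb'
  all a ha := by
    obtain ⟨p, q⟩ := a
    rcases p with p | p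
    · rcases q with q | q
      · rcases H.all (p, q) ha with h1 | h1
        · exact Or.inl (Finset.mem_image_of_mem (icl V Φ N) h1)
        · exact Or.inr (Finset.mem_image_of_mem (icl V Φ N) h1)
      · exact absurd rfl ha
    · exact absurd rfl ha

/-- the weight with one inserted sign on the cylindrification -/
theorem cyh_sgE (h : V × V → ℂ) (e : V × V) :
    cyh Φ N (fun a => h a * sgE e a) = fun a => cyh Φ N h a * sgE (icl V Φ N e) a := by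
  funext a
  obtain ⟨p, q⟩ := a
  rcases p with p | p
  · rcases q with q | q
    · show h (p, q) * sgE e (p, q) = h (p, q) * sgE (icl V Φ N e) (Sum.inl p, Sum.inl q)
      congr 1
      unfold sgE
      have : ((p, q) = e.swap) ↔
          (((Sum.inl p, Sum.inl q) : CV V Φ N × CV V Φ N) = (icl V Φ N e).swap) := by
        constructor
        · intro h1
          rw [show (icl V Φ N e).swap = icl V Φ N e.swap from rfl, ← h1]
        · intro h1
          exact icl_inj (Φ := Φ) (N := N) h1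
      by_cases h1 : (p, q) = e.swap
      · rw [if_pos h1, if_pos (this.mp h1)]
      · rw [if_neg h1, if_neg fun h2 => h1 (this.mpr h2)]
    · show (1 : ℂ) = 1 * sgE (icl V Φ N e) (Sum.inl p, Sum.inr q)
      unfold sgE
      rw [if_neg, mul_one]
      intro h1
      exact absurd (congrArg Prod.snd h1) (by simp [icl])
  · show (1 : ℂ) = 1 * sgE (icl V Φ N e) (Sum.inr p, q)
    unfold sgE
    rw [if_neg, mul_one]
    intro h1
    exact absurd (congrArg Prod.fst h1) (by simp [icl])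

/-- the outer faces of the cylinder -/
def outC (N : ℕ) [Fact (3 ≤ N)] (L : ℤ) : Set (ZMod N × ℤ) := {g | g ∉ bxC N L}

/-- the cut of the cylindrification -/
theorem cutC (C : Cyh.CutZ g L Q A φ ψ S₂ S₁ m) (H : GlueZ L Q A φ ψ P₀)
    (hL : 2 * (L + 1) < N) :
    CutS g (CQ N) (outC N L) (cyQ N H hL) (A.image Sum.inl) (glv Φ N L φ) Sum.inr
      (Cyh.cyS A S₁ false g (outC N L)) (Cyh.cyS A S₂ true g (outC N L))
      (Cyh.cyM Φ N L g φ true m) where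
  lo := C.lo' H hL Cyh.outO_all
  up := C.up' H hL Cyh.outO_all
  disj := by
    rw [Set.disjoint_left]
    intro F h1 h2
    exact C.disj H hL F h2 h1
  cov F hF := by
    obtain ⟨f, hf, rfl⟩ := Finset.mem_image.mp hF
    exact (C.cover_inl H hL hf).symm
  sep F₁ h1 F₂ h2 k l h := C.meet' H hL Cyh.outO_all h2 h1 (k := l) (l := k) h.symm

/-- the faces of the cylinder surface of height `M` -/
def FC (N : ℕ) [Fact (3 ≤ N)] (M L : ℤ) (A : Finset Φ) : Finset (CF Φ N) :=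
  A.image Sum.inl ∪ (cylF N (-M) M \ bxC N L).image Sum.inr

/-- the faces of the double of one half -/
def FD (N : ℕ) [Fact (3 ≤ N)] (M L : ℤ) (A : Finset Φ) (S : Set (CF Φ N)) :
    Finset (CF Φ N × Bool) :=
  cpy (corS (FC N M L A) S) false ∪ cpy (corS (FC N M L A) S) true

/-! ### Weights of the doubles -/

/-- the weight `h` on `P`, `1` elsewhere -/
def clp {W : Type} [DecidableEq W] (P : Finset (W × W)) (h : W × W → ℂ) (a : W × W) : ℂ :=
  if a ∈ P ∨ a.swap ∈ P then h a else 1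

theorem clp_one {W : Type} [DecidableEq W] {P : Finset (W × W)} {h : W × W → ℂ} (a : W × W)
    (h1 : a ∉ P) (h2 : a.swap ∉ P) : clp P h a = 1 := by
  unfold clp
  rw [if_neg (by tauto)]

theorem dw_dblA {ι : Type} {m' : ι → V × V} {h₁ h₂ : V × V → ℂ} {b : Bool} {a : V × V}
    (e1 : h₁ a = 1) (e2 : h₂ a = 1) : dw h₁ h₂ (dblA m' b a) = 1 := by
  unfold dw
  have e : ((dblA m' b a).1.1, (dblA m' b a).2.1) = a := rfl
  rw [e, e1, e2, map_one]
  split_ifs <;> rfl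

/-- the sides of the faces of a double -/
theorem side_dbl {ι : Type} {m' : ι → V × V} {S : Set Φ} (hm : OneSidedS Q S m')
    {G : Finset (Φ × Bool)} (hG : ∀ p ∈ G, p.1 ∈ S) {a : (V × Bool × Bool) × (V × Bool × Bool)}
    (ha : a ∈ dE (dblS Q S m' hm) G) :
    ∃ p ∈ G, ∃ b, ∃ a₀, (∃ k, a₀ = sd Q p.1 k ∨ a₀ = (sd Q p.1 k).swap) ∧ a = dblA m' b a₀ := by
  obtain ⟨⟨f, b⟩, hf, k, h1⟩ := mem_dE.mp ha
  have hS := hG _ hf
  cases b
  · rw [dblS_sd_false hS] at h1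
    rcases h1 with rfl | rfl
    · exact ⟨_, hf, false, _, ⟨k, Or.inl rfl⟩, rfl⟩
    · exact ⟨_, hf, false, _, ⟨k, Or.inr rfl⟩, rfl⟩
  · rw [dblS_sd_true hS] at h1
    rcases h1 with rfl | rfl
    · exact ⟨_, hf, true, _, ⟨2 - k, Or.inr rfl⟩, rfl⟩
    · refine ⟨_, hf, true, _, ⟨2 - k, Or.inl rfl⟩, ?_⟩
      rw [← dblA_swap, Prod.swap_swap]

/-- the clipped weight of the double agrees with `dw` on all sides -/
theorem clp_dw {ι : Type} {m' : ι → V × V} {S : Set Φ} (hm : OneSidedS Q S m')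
    {G : Finset (Φ × Bool)} (hG : ∀ p ∈ G, p.1 ∈ S)
    (hoff : ∀ p ∈ G, ∀ k, sd Q p.1 k ∈ P₀ ∨ (sd Q p.1 k).swap ∈ P₀ → sd Q p.1 k ∈ dE Q (corS A S))
    {h₁ h₂ : V × V → ℂ} (e1 : ∀ a, a ∉ P₀ → a.swap ∉ P₀ → h₁ a = 1)
    (e2 : ∀ a, a ∉ P₀ → a.swap ∉ P₀ → h₂ a = 1) {a : (V × Bool × Bool) × (V × Bool × Bool)}
    (ha : a ∈ dE (dblS Q S m' hm) G) :
    dw h₁ h₂ a = clp (isl2 Q A S m' P₀) (dw h₁ h₂) a := by
  obtain ⟨p, hp, b, a₀, ⟨k, hk⟩, rfl⟩ := side_dbl hm hG ha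
  by_cases h1 : a₀ ∈ P₀ ∨ a₀.swap ∈ P₀
  · have h2 : a₀ ∈ dE Q (corS A S) := by
      rcases hk with rfl | rfl
      · exact hoff p hp k h1
      · refine swap_mem_dE.mpr (hoff p hp k ?_)
        rw [Prod.swap_swap] at h1
        exact h1.symm
    unfold clp
    rw [if_pos]
    rcases h1 with h1 | h1
    · exact Or.inl (mem_isl2.mpr ⟨b, a₀, h1, h2, rfl⟩)
    · exact Or.inr (mem_isl2.mpr ⟨b, a₀.swap, h1, swap_mem_dE.mpr h2, (dblA_swap b a₀).symm⟩)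
  · have h2 : a₀ ∉ P₀ := fun h => h1 (Or.inl h)
    have h3 : a₀.swap ∉ P₀ := fun h => h1 (Or.inr h)
    have h4 : dw h₁ h₂ (dblA m' b a₀) = 1 := dw_dblA (e1 _ h2 h3) (e2 _ h2 h3)
    unfold clp
    split_ifs
    · rfl
    · exact h4

/-- the plane functional depends only on the weights of the sides -/
theorem Zp_congr {h h' : V × V → ℂ}
    (hh : ∀ n, ∀ a ∈ dE Q (A ∪ (aZ L n).image ψ), h' a = h a) :
    Zp L Q A ψ h' P = Zp L Q A ψ h P := by
  have e : zn L Q A ψ h' P = zn L Q A ψ h P := by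
    funext n
    unfold zn zplO
    congr 1
    funext ω
    rw [Zr_congr (hh n)]
  unfold Zp
  rw [e]

/-! ### The cut does not meet the island sides -/

/-- no cut side is an island side -/
def Off {ι : Type} (m' : ι → V × V) (P₀ : Finset (V × V)) : Prop :=
  ∀ i, m' i ∉ P₀ ∧ (m' i).swap ∉ P₀

theorem Off.eds {ι : Type} [Fintype ι] {m' : ι → V × V} (H : Off m' P₀) {a : V × V}
    (ha : a ∈ eds m') : a ∉ P₀ ∧ a.swap ∉ P₀ := by
  obtain ⟨i, rfl | rfl⟩ := mem_eds.mp ha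
  · exact H i
  · rw [Prod.swap_swap]
    exact (H i).symm

/-- an island side on the cut -/
theorem off_cut {ι : Type} {m' : ι → V × V} {S : Set Φ} (hm : OneSidedS Q S m') (H : Off m' P₀)
    {f : Φ} (hf : f ∈ S) {k : ZMod 4} (h1 : onCut m' (Q.c f k)) (h2 : onCut m' (Q.c f (k + 1)))
    (h3 : sd Q f k ∈ P₀ ∨ (sd Q f k).swap ∈ P₀) : False := by
  obtain ⟨i, hi⟩ := hm.only f hf k h1 h2
  rw [hi] at h3
  rcases h3 with h3 | h3
  · exact (H i).1 h3
  · exact (H i).2 h3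

theorem Off.rev {ι : Type} {m' : ι → V × V} (H : Off m' P₀) : Off (revFam m') P₀ := by
  intro i
  unfold revFam
  rw [Prod.swap_swap]
  exact (H i).symm

/-- island sides of the faces of one half are sides of the core of this half -/
theorem off_core {ι : Type} {m' : ι → V × V} {S S' : Set Φ} (hm : OneSidedS Q S m')
    (H : Off m' P₀) (hP : P₀ ⊆ dE Q A) (hcov : ∀ f ∈ A, f ∈ S ∨ f ∈ S')
    (hsep : ∀ f ∈ S, ∀ f' ∈ S', ∀ k l, Q.c f k = Q.c f' l → onCut m' (Q.c f k)) {f : Φ}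
    (hf : f ∈ S) {k : ZMod 4} (h : sd Q f k ∈ P₀ ∨ (sd Q f k).swap ∈ P₀) :
    sd Q f k ∈ dE Q (corS A S) := by
  have h1 : sd Q f k ∈ dE Q A := by
    rcases h with h | h
    · exact hP h
    · exact swap_mem_dE.mp (hP h)
  obtain ⟨f', hf', l, hl⟩ := mem_dE.mp h1
  rcases hcov f' hf' with hS | hS
  · exact mem_dE.mpr ⟨f', mem_corS.mpr ⟨hf', hS⟩, l, hl⟩
  · exfalso
    rcases hl with hl | hl
    · refine off_cut hm H hf (k := k) ?_ ?_ h
      · exact hsep f hf f' hS k l (congrArg Prod.fst hl)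
      · exact hsep f hf f' hS (k + 1) (l + 1) (congrArg Prod.snd hl)
    · refine off_cut hm H hf (k := k) ?_ ?_ h
      · exact hsep f hf f' hS k (l + 1) (congrArg Prod.fst hl)
      · exact hsep f hf f' hS (k + 1) l (congrArg Prod.snd hl)

/-- no island side has both ends on the cut -/
theorem off_ends {S S' : Set Φ} {ι : Type} {m' : ι → V × V} (hm : OneSidedS Q S m')
    (hm' : OneSidedS Q S' (revFam m')) (H : Off m' P₀) (hP : P₀ ⊆ dE Q A)
    (hcov : ∀ f ∈ A, f ∈ S ∨ f ∈ S') {a : V × V} (ha : a ∈ P₀) (h1 : onCut m' a.1)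
    (h2 : onCut m' a.2) : False := by
  obtain ⟨f, hf, k, hk⟩ := mem_dE.mp (hP ha)
  rcases hk with rfl | rfl
  · rcases hcov f hf with hS | hS
    · exact off_cut hm H hS (k := k) h1 h2 (Or.inl ha)
    · exact off_cut hm' H.rev hS (k := k) (onCut_revFam.mpr h1) (onCut_revFam.mpr h2) (Or.inl ha)
  · rcases hcov f hf with hS | hS
    · exact off_cut hm H hS (k := k) h2 h1 (Or.inr ha)
    · exact off_cut hm' H.rev hS (k := k) (onCut_revFam.mpr h2) (onCut_revFam.mpr h1) (Or.inr ha)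

theorem off_cy (C : Cyh.CutZ g L Q A φ ψ S₂ S₁ m) (H : GlueZ L Q A φ ψ P₀)
    (hL : 2 * (L + 1) < N) (hoff : Off m P₀) :
    Off (Cyh.cyM Φ N L g φ true m) (P₀.image (icl V Φ N)) := by
  have key : ∀ a ∈ P₀, onCut (Cyh.cyM Φ N L g φ true m) (Sum.inl a.1 : CV V Φ N) →
      onCut (Cyh.cyM Φ N L g φ true m) (Sum.inl a.2 : CV V Φ N) → False := by
    intro a ha h1 h2
    obtain ⟨f, hf, k, hk⟩ := mem_dE.mp (H.P_sub ha)
    refine off_ends C.hi.half.os C.lo.half.os hoff H.P_sub C.cov ha ?_ ?_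
    · rcases hk with rfl | rfl
      · exact (C.hi.onCut_inl H hL hf k).mp h1
      · exact (C.hi.onCut_inl H hL hf (k + 1)).mp h1
    · rcases hk with rfl | rfl
      · exact (C.hi.onCut_inl H hL hf (k + 1)).mp h2
      · exact (C.hi.onCut_inl H hL hf k).mp h2
  intro x
  constructor
  · intro h1
    obtain ⟨a, ha, e⟩ := Finset.mem_image.mp h1
    refine key a ha ⟨x, Or.inl ?_⟩ ⟨x, Or.inr ?_⟩
    · rw [← e]
    · rw [← e]
  · intro h1
    obtain ⟨a, ha, e⟩ := Finset.mem_image.mp h1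
    have e' : Cyh.cyM Φ N L g φ true m x = (icl V Φ N a).swap := by
      rw [e, Prod.swap_swap]
    refine key a ha ⟨x, Or.inr ?_⟩ ⟨x, Or.inl ?_⟩
    · rw [e']
      rfl
    · rw [e']
      rfl

/-- the finite inequality for the cylindrification -/
theorem fin_cy (C : Cyh.CutZ g L Q A φ ψ S₂ S₁ m) (H : GlueZ L Q A φ ψ P₀) (hQ : NoLoop Q)
    (hL : 2 * (L + 1) < N) (hoff : Off m P₀) {M : ℤ} (hM : |g| + 1 < M)
    (hh : ∀ a, a ∉ P₀ → a.swap ∉ P₀ → h a = 1) (HS : Sup c P) (hP : P ⊆ P₀)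
    (hP' : P ⊆ dE Q (corS A S₂)) :
    ‖∑ e ∈ P, (c e : ℂ) * avc (FC N M L A)
        (fun ω => Zs (cyQ N H hL) (FC N M L A) ω (cyh Φ N fun a => h a * sgE e a))‖ ^ 2 ≤
      (avc (FD N M L A (Cyh.cyS A S₁ false g (outC N L)))
        (fun ω => Zs (dblS (cyQ N H hL) (Cyh.cyS A S₁ false g (outC N L))
          (revFam (Cyh.cyM Φ N L g φ true m)) (cutC C H hL).lo.os)
          (FD N M L A (Cyh.cyS A S₁ false g (outC N L))) ω (dw (cyh Φ N h) (cyh Φ N h)))).re *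
        (∑ e ∈ P, ∑ e' ∈ P, (c e : ℂ) * (c e' : ℂ) *
          avc (FD N M L A (Cyh.cyS A S₂ true g (outC N L)))
        (fun ω => Zs (dblS (cyQ N H hL) (Cyh.cyS A S₂ true g (outC N L))
          (Cyh.cyM Φ N L g φ true m) (cutC C H hL).up.os)
          (FD N M L A (Cyh.cyS A S₂ true g (outC N L))) ω
          (dw (cyh Φ N fun a => h a * sgE e a) (cyh Φ N fun a => h a * sgE e' a)))).re ∧
    0 ≤ (avc (FD N M L A (Cyh.cyS A S₁ false g (outC N L)))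
        (fun ω => Zs (dblS (cyQ N H hL) (Cyh.cyS A S₁ false g (outC N L))
          (revFam (Cyh.cyM Φ N L g φ true m)) (cutC C H hL).lo.os)
          (FD N M L A (Cyh.cyS A S₁ false g (outC N L))) ω (dw (cyh Φ N h) (cyh Φ N h)))).re ∧
    0 ≤ (∑ e ∈ P, ∑ e' ∈ P, (c e : ℂ) * (c e' : ℂ) *
          avc (FD N M L A (Cyh.cyS A S₂ true g (outC N L)))
        (fun ω => Zs (dblS (cyQ N H hL) (Cyh.cyS A S₂ true g (outC N L))
          (Cyh.cyM Φ N L g φ true m) (cutC C H hL).up.os)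
          (FD N M L A (Cyh.cyS A S₂ true g (outC N L))) ω
          (dw (cyh Φ N fun a => h a * sgE e a) (cyh Φ N fun a => h a * sgE e' a)))).re := by
  have hcut := cutC C H hL
  have hoff' := off_cy C H hL hoff
  have hcor : ∀ g' ∈ outC N L, ∀ k, (cyQ N H hL).c (Sum.inr g') k =
      glv Φ N L φ ((CQ N).c g' k) := fun g' hg k => cyc_C (Q := Q) (A := A) hg k
  have hW : ∀ g' ∈ outC N L, (∃ k, ((CQ N).c g' k).2 = g) → g' ∈ cylF N (-M) M \ bxC N L := by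
    rintro g' hg ⟨k, hk⟩
    refine Finset.mem_sdiff.mpr ⟨?_, hg⟩
    have h1 := stdB_CQ.y (B := CQ N) g' k
    have h2 := abs_le.mp (le_refl |g|)
    rw [mem_cylF]
    omega
  have hP2 : ∀ e' ∈ P.image (icl V Φ N),
      e' ∈ dE (cyQ N H hL) (corS (A.image Sum.inl ∪ (cylF N (-M) M \ bxC N L).image Sum.inr)
        (Cyh.cyS A S₂ true g (outC N L))) ∧
      e' ∉ dE (cyQ N H hL) (corS (A.image Sum.inl ∪ (cylF N (-M) M \ bxC N L).image Sum.inr)
        (Cyh.cyS A S₁ false g (outC N L))) := by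
    intro e' he'
    obtain ⟨e, he, rfl⟩ := Finset.mem_image.mp he'
    have h1 : icl V Φ N e ∈ dE (cyQ N H hL) (corS (A.image Sum.inl ∪
        (cylF N (-M) M \ bxC N L).image Sum.inr) (Cyh.cyS A S₂ true g (outC N L))) := by
      obtain ⟨f, hf, k, hk⟩ := mem_dE.mp (hP' he)
      obtain ⟨hfA, hfS⟩ := mem_corS.mp hf
      have h2 : (Sum.inl f : CF Φ N) ∈ corS (A.image Sum.inl ∪
          (cylF N (-M) M \ bxC N L).image Sum.inr) (Cyh.cyS A S₂ true g (outC N L)) :=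
        mem_corS.mpr ⟨Finset.mem_union_left _ (Finset.mem_image_of_mem _ hfA),
          Cyh.inl_cyS.mpr ⟨hfA, hfS⟩⟩
      refine mem_dE.mpr ⟨_, h2, k, ?_⟩
      rw [sd_cyA H hL hfA]
      rcases hk with rfl | rfl
      · exact Or.inl rfl
      · exact Or.inr rfl
    refine ⟨h1, fun h2 => ?_⟩
    have h3 : icl V Φ N e ∈ eds (Cyh.cyM Φ N L g φ true m) := by
      rw [← hcut.cE_eq hcor hW]
      unfold cE
      exact Finset.mem_inter.mpr ⟨h2, h1⟩
    exact (hoff'.eds h3).1 (Finset.mem_image_of_mem _ (hP he))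
  have key := hcut.fin (cy_noLoop H hL hQ) hcor hW (fun g' hg => (Finset.mem_sdiff.mp hg).2)
    (h := cyh Φ N h) (fun a ha => cyh_one hh a (hoff'.eds ha).1 (hoff'.eds ha).2)
    (sup_cy HS) hP2
  have hinj : ∀ a ∈ P, ∀ b ∈ P, icl V Φ N a = icl V Φ N b → a = b := fun a _ b _ h => icl_inj h
  rw [Finset.sum_image hinj, Finset.sum_image hinj] at key
  simp_rw [Finset.sum_image hinj, cyc'_icl, ← cyh_sgE] at key
  exact key

/-- turning numbers of the cylindrifications -/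
def TurnsC (H : GlueZ L Q A φ ψ P₀) : Prop :=
  ∃ N₀ : ℕ, ∀ (N : ℕ) [Fact (3 ≤ N)] (hL : 2 * (L + 1) < N), Odd N → N₀ ≤ N →
    ∃ M₀ : ℤ, ∀ M, M₀ ≤ M → ∀ ω, Turns (cyQ N H hL) (FC N M L A) ω
      ((botE N (-M)).image (Prod.map (glv Φ N L φ) (glv Φ N L φ)))
      ((topE N M).image (Prod.map (glv Φ N L φ) (glv Φ N L φ)))

/-- cylinders for the double of the lower half -/
def DblLo (L' : ℤ) (C : Cyh.CutZ g L Q A φ ψ S₂ S₁ m) (H : GlueZ L Q A φ ψ P₀) : Prop :=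
  ∀ n : ℕ, ∃ N₀ : ℕ, ∀ (N : ℕ) [Fact (3 ≤ N)] (hL : 2 * (L + 1) < N), Odd N → N₀ ≤ N →
    ∃ M₀ : ℤ, ∀ M, M₀ ≤ M → ∀ h₁ h₂ : V × V → ℂ, (∀ a, a ∉ P₀ → a.swap ∉ P₀ → h₁ a = 1) →
      (∀ a, a ∉ P₀ → a.swap ∉ P₀ → h₂ a = 1) →
      Cyl n N (M + g) L' (dblS Q S₁ (revFam m) C.lo.half.os) (cor2 false g A S₁ ψ (wZ false g L L'))
        (dblψ false g ψ) (clp (isl2 Q A S₁ (revFam m) P₀) (dw h₁ h₂)) (isl2 Q A S₁ (revFam m) P₀)
        (dblS (cyQ N H hL) (Cyh.cyS A S₁ false g (outC N L))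
          (revFam (Cyh.cyM Φ N L g φ true m)) (cutC C H hL).lo.os)
        (FD N M L A (Cyh.cyS A S₁ false g (outC N L))) (dw (cyh Φ N h₁) (cyh Φ N h₂))

/-- cylinders for the double of the upper half -/
def DblUp (L' : ℤ) (C : Cyh.CutZ g L Q A φ ψ S₂ S₁ m) (H : GlueZ L Q A φ ψ P₀) : Prop :=
  ∀ n : ℕ, ∃ N₀ : ℕ, ∀ (N : ℕ) [Fact (3 ≤ N)] (hL : 2 * (L + 1) < N), Odd N → N₀ ≤ N →
    ∃ M₀ : ℤ, ∀ M, M₀ ≤ M → ∀ h₁ h₂ : V × V → ℂ, (∀ a, a ∉ P₀ → a.swap ∉ P₀ → h₁ a = 1) →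
      (∀ a, a ∉ P₀ → a.swap ∉ P₀ → h₂ a = 1) →
      Cyl n N (M - g) L' (dblS Q S₂ m C.hi.half.os) (cor2 true g A S₂ ψ (wZ true g L L'))
        (dblψ true g ψ) (clp (isl2 Q A S₂ m P₀) (dw h₁ h₂)) (isl2 Q A S₂ m P₀)
        (dblS (cyQ N H hL) (Cyh.cyS A S₂ true g (outC N L))
          (Cyh.cyM Φ N L g φ true m) (cutC C H hL).up.os)
        (FD N M L A (Cyh.cyS A S₂ true g (outC N L))) (dw (cyh Φ N h₁) (cyh Φ N h₂))

/-- the cylindrification in the form `Cyl` -/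
theorem cyl_base (H : GlueZ L Q A φ ψ P₀) (hF : Ful L Q A ψ P₀) (h0 : 0 < L)
    (hL : 2 * (L + 1) < N) {M : ℤ} (hM : L < M) {n : ℕ} (hn : 2 * (4 ^ n * L) < N)
    (hT : ∀ ω, Turns (cyQ N H hL) (FC N M L A) ω
      ((botE N (-M)).image (Prod.map (glv Φ N L φ) (glv Φ N L φ)))
      ((topE N M).image (Prod.map (glv Φ N L φ) (glv Φ N L φ))))
    (hh : ∀ a, a ∉ P₀ → a.swap ∉ P₀ → h a = 1) :
    Cyl n N M L Q A ψ h P₀ (cyQ N H hL) (FC N M L A) (cyh Φ N h) where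
  ex := ⟨A.image Sum.inl, glv Φ N L φ, Sum.inr, P₀.image (icl V Φ N), cyv N L φ, cyf N L A ψ, 0,
    cyh Φ N h, cy_glueC H hF hL hM, cy_cov H hL h0 hn hh, rfl, hT, cyh_one hh, fun _ _ => rfl⟩

/-- sides of the doubled window -/
theorem win_dbl {up : Bool} {S : Set Φ} {m' : ℤ → V × V}
    (HS : HalfS up g ZQ (outZ L) Q A φ ψ S m') (hL' : L + |g| ≤ L') (n : ℕ) :
    ∀ p ∈ cor2 up g A S ψ (wZ up g L L') ∪ (aZ L' n).image (dblψ up g ψ), p.1 ∈ S := by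
  intro p hp
  rcases Finset.mem_union.mp hp with hp | hp
  · rcases mem_cor2.mp hp with h1 | ⟨g', hg', rfl⟩
    · exact h1.2
    · exact HS.out _ (mem_wZ.mp hg').2 (inH_ptf up g g')
  · obtain ⟨g', hg', rfl⟩ := Finset.mem_image.mp hp
    exact HS.out _ (ptf_out hL' (mem_aZ.mp hg').2) (inH_ptf up g g')

/-- **The reflection inequality for a plane surface with a cut row.** -/
theorem hcs_of (h0 : 0 < L) (hL' : L + |g| ≤ L') (C : Cyh.CutZ g L Q A φ ψ S₂ S₁ m)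
    (H : GlueZ L Q A φ ψ P₀) (hF : Ful L Q A ψ P₀) (hQ : NoLoop Q) (hoff : Off m P₀)
    (hT : TurnsC H) (hlo : DblLo L' C H) (hup : DblUp L' C H)
    (hh : ∀ a, a ∉ P₀ → a.swap ∉ P₀ → h a = 1) (HS : Sup c P) (hP : P ⊆ P₀)
    (hP' : P ⊆ dE Q (corS A S₂)) :
    ‖∑ e ∈ P, (c e : ℂ) * Zp L Q A ψ (fun a => h a * sgE e a) P₀‖ ^ 2 ≤
      16 * ((Zp L' (dblS Q S₁ (revFam m) C.lo.half.os) (cor2 false g A S₁ ψ (wZ false g L L'))
        (dblψ false g ψ) (dw h h) (isl2 Q A S₁ (revFam m) P₀)).re *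
        (∑ e ∈ P, ∑ e' ∈ P, (c e : ℂ) * (c e' : ℂ) *
          Zp L' (dblS Q S₂ m C.hi.half.os) (cor2 true g A S₂ ψ (wZ true g L L'))
        (dblψ true g ψ) (dw (fun a => h a * sgE e a) (fun a => h a * sgE e' a))
        (isl2 Q A S₂ m P₀)).re) ∧
    0 ≤ (Zp L' (dblS Q S₁ (revFam m) C.lo.half.os) (cor2 false g A S₁ ψ (wZ false g L L'))
        (dblψ false g ψ) (dw h h) (isl2 Q A S₁ (revFam m) P₀)).re ∧
    0 ≤ (∑ e ∈ P, ∑ e' ∈ P, (c e : ℂ) * (c e' : ℂ) *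
          Zp L' (dblS Q S₂ m C.hi.half.os) (cor2 true g A S₂ ψ (wZ true g L L'))
        (dblψ true g ψ) (dw (fun a => h a * sgE e a) (fun a => h a * sgE e' a))
        (isl2 Q A S₂ m P₀)).re := by
  have hL0 : 0 < L' := by
    have := abs_nonneg g
    omega
  -- weights
  have hs : ∀ e ∈ P, ∀ a, a ∉ P₀ → a.swap ∉ P₀ → h a * sgE e a = 1 := by
    intro e he a h1 h2
    have h3 : a ≠ e.swap := by
      rintro rfl
      rw [Prod.swap_swap] at h2
      exact h2 (hP he)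
    unfold sgE
    rw [if_neg h3, mul_one]
    exact hh a h1 h2
  -- the plane doubles with clipped weights
  have z1 : Zp L' (dblS Q S₁ (revFam m) C.lo.half.os) (cor2 false g A S₁ ψ (wZ false g L L'))
      (dblψ false g ψ) (dw h h) (isl2 Q A S₁ (revFam m) P₀) =
      Zp L' (dblS Q S₁ (revFam m) C.lo.half.os) (cor2 false g A S₁ ψ (wZ false g L L'))
      (dblψ false g ψ) (clp (isl2 Q A S₁ (revFam m) P₀) (dw h h)) (isl2 Q A S₁ (revFam m) P₀) := by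
    refine Zp_congr fun n a ha => ?_
    refine clp_dw C.lo.half.os (win_dbl C.lo.half hL' n) (fun p hp k hk => ?_) hh hh ha
    exact off_core C.lo.half.os hoff.rev H.P_sub (fun f hf => (C.cov f hf).symm)
      (fun f hf f' hf' k l h => onCut_revFam.mpr (by
        rw [h]
        exact C.meet f' hf' f hf l k h.symm)) (win_dbl C.lo.half hL' n p hp) hk
  have z2 : ∀ e ∈ P, ∀ e' ∈ P, Zp L' (dblS Q S₂ m C.hi.half.os)
      (cor2 true g A S₂ ψ (wZ true g L L')) (dblψ true g ψ)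
      (dw (fun a => h a * sgE e a) (fun a => h a * sgE e' a)) (isl2 Q A S₂ m P₀) =
      Zp L' (dblS Q S₂ m C.hi.half.os) (cor2 true g A S₂ ψ (wZ true g L L')) (dblψ true g ψ)
      (clp (isl2 Q A S₂ m P₀) (dw (fun a => h a * sgE e a) (fun a => h a * sgE e' a)))
      (isl2 Q A S₂ m P₀) := by
    intro e he e' he'
    refine Zp_congr fun n a ha => ?_
    refine clp_dw C.hi.half.os (win_dbl C.hi.half hL' n) (fun p hp k hk => ?_) (hs e he)
      (hs e' he') ha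
    exact off_core C.hi.half.os hoff H.P_sub C.cov
      (fun f hf f' hf' k l h => C.meet f hf f' hf' k l h) (win_dbl C.hi.half hL' n p hp) hk
  rw [z1]
  rw [Finset.sum_congr rfl fun e he => Finset.sum_congr rfl fun e' he' => by rw [z2 e he e' he']]
  refine lim (by norm_num) fun ε hε => ?_
  -- constants
  set K : ℝ := CP (clp (isl2 Q A S₁ (revFam m) P₀) (dw h h)) (isl2 Q A S₁ (revFam m) P₀) +
    (∑ e ∈ P, CP (fun a => h a * sgE e a) P₀ + ∑ e ∈ P, ∑ e' ∈ P,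
      CP (clp (isl2 Q A S₂ m P₀) (dw (fun a => h a * sgE e a) (fun a => h a * sgE e' a)))
        (isl2 Q A S₂ m P₀)) with hK
  have k1 : CP (clp (isl2 Q A S₁ (revFam m) P₀) (dw h h)) (isl2 Q A S₁ (revFam m) P₀) ≤ K := by
    rw [hK]
    refine le_add_of_nonneg_right (add_nonneg ?_ ?_)
    · exact Finset.sum_nonneg fun _ _ => CP_nonneg _ _
    · exact Finset.sum_nonneg fun _ _ => Finset.sum_nonneg fun _ _ => CP_nonneg _ _
  have k0 : ∀ e ∈ P, CP (fun a => h a * sgE e a) P₀ ≤ K := by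
    intro e he
    have h1 := Finset.single_le_sum (f := fun e => CP (fun a => h a * sgE e a) P₀)
      (fun _ _ => CP_nonneg _ _) he
    have h2 := CP_nonneg (clp (isl2 Q A S₁ (revFam m) P₀) (dw h h)) (isl2 Q A S₁ (revFam m) P₀)
    have h3 : 0 ≤ ∑ e ∈ P, ∑ e' ∈ P,
      CP (clp (isl2 Q A S₂ m P₀) (dw (fun a => h a * sgE e a) (fun a => h a * sgE e' a)))
        (isl2 Q A S₂ m P₀) := Finset.sum_nonneg fun _ _ => Finset.sum_nonneg fun _ _ => CP_nonneg _ _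
    rw [hK]
    linarith
  have k2 : ∀ e ∈ P, ∀ e' ∈ P, CP (clp (isl2 Q A S₂ m P₀)
      (dw (fun a => h a * sgE e a) (fun a => h a * sgE e' a))) (isl2 Q A S₂ m P₀) ≤ K := by
    intro e he e' he'
    have h1 := Finset.single_le_sum (f := fun e' => CP (clp (isl2 Q A S₂ m P₀)
      (dw (fun a => h a * sgE e a) (fun a => h a * sgE e' a))) (isl2 Q A S₂ m P₀))
      (fun _ _ => CP_nonneg _ _) he'
    have h2 := Finset.single_le_sum (f := fun e => ∑ e' ∈ P, CP (clp (isl2 Q A S₂ m P₀)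
      (dw (fun a => h a * sgE e a) (fun a => h a * sgE e' a))) (isl2 Q A S₂ m P₀))
      (fun _ _ => Finset.sum_nonneg fun _ _ => CP_nonneg _ _) he
    have h3 := CP_nonneg (clp (isl2 Q A S₁ (revFam m) P₀) (dw h h)) (isl2 Q A S₁ (revFam m) P₀)
    have h4 : 0 ≤ ∑ e ∈ P, CP (fun a => h a * sgE e a) P₀ :=
      Finset.sum_nonneg fun _ _ => CP_nonneg _ _
    rw [hK]
    linarith
  obtain ⟨n₀, -, A0⟩ := Cyl.lim h0 K hε
  obtain ⟨n₁, -, A1⟩ := Cyl.lim hL0 K hε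
  obtain ⟨N₀, B0⟩ := hT
  obtain ⟨N₁, B1⟩ := hlo n₁
  obtain ⟨N₂, B2⟩ := hup n₁
  -- the cylinder
  obtain ⟨N, hodd, b3, b4, b5, b6, b7, b8⟩ : ∃ N : ℕ, Odd N ∧ 3 ≤ N ∧
      2 * (4 ^ n₀ * (4 ^ n₀ * L)) < N ∧ 2 * (4 ^ n₁ * (4 ^ n₁ * L')) < N ∧ N₀ ≤ N ∧ N₁ ≤ N ∧
      N₂ ≤ N ∧ 2 * (L + 1) < N := by
    refine ⟨2 * ((4 ^ n₀ * (4 ^ n₀ * L)).toNat + (4 ^ n₁ * (4 ^ n₁ * L')).toNat + N₀ + N₁ + N₂ +
      (L + 1).toNat + 1) + 1, ⟨_, rfl⟩, by omega, ?_, ?_, by omega, by omega, by omega, ?_⟩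
    · have := Int.self_le_toNat (4 ^ n₀ * (4 ^ n₀ * L))
      push_cast
      omega
    · have := Int.self_le_toNat (4 ^ n₁ * (4 ^ n₁ * L'))
      push_cast
      omega
    · have := Int.self_le_toNat (L + 1)
      push_cast
      omega
  haveI : Fact (3 ≤ N) := ⟨b3⟩
  obtain ⟨M₀, A0⟩ := A0 N hodd b4
  obtain ⟨M₁, A1⟩ := A1 N hodd b5
  obtain ⟨M₂, B0⟩ := B0 N b8.2 hodd b6
  obtain ⟨M₃, B1⟩ := B1 N b8.2 hodd b7
  obtain ⟨M₄, B2⟩ := B2 N b8.2 hodd b8.1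
  set M : ℤ := |M₀| + |M₁| + |M₂| + |M₃| + |M₄| + |g| + L + 2 with hM
  have a0 := le_abs_self M₀
  have a1 := le_abs_self M₁
  have a2 := le_abs_self M₂
  have a3 := le_abs_self M₃
  have a4 := le_abs_self M₄
  have c0 := abs_nonneg M₀
  have c1 := abs_nonneg M₁
  have c2 := abs_nonneg M₂
  have c3 := abs_nonneg M₃
  have c4 := abs_nonneg M₄
  have cg := abs_le.mp (le_refl |g|)
  have ag := abs_nonneg g
  obtain ⟨x0, x0l, x0u, A0⟩ := A0 M (by omega)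
  obtain ⟨x1, x1l, x1u, A1a⟩ := A1 (M + g) (by omega)
  obtain ⟨x2, x2l, x2u, A1b⟩ := A1 (M - g) (by omega)
  have B0 := B0 M (by omega)
  have B1 := B1 M (by omega)
  have B2 := B2 M (by omega)
  have hr : 0 < r4 ^ (2 * N) := pow_pos r4_pos _
  have hcQ := cy_noLoop H b8.2 hQ
  have q4 : (1 : ℤ) ≤ 4 ^ n₀ := one_le_pow₀ (by norm_num)
  have q5 : 2 * (4 ^ n₀ * L) < N := by nlinarith
  obtain ⟨f1, f2, f3⟩ := fin_cy C H hQ b8.2 hoff (M := M) (by omega) hh HS hP hP'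
  exact ⟨{
    RE := r4 ^ (2 * N) * x0
    R1 := r4 ^ (2 * N) * x1
    R2 := r4 ^ (2 * N) * x2
    w := _
    w1 := _
    w2 := _
    hE := by positivity
    h1 := by positivity
    h2 := by positivity
    hR := by
      have h1 : x1 * x2 ≤ 4 := by nlinarith
      have h2 : 1 / 4 ≤ x0 ^ 2 := by nlinarith
      have h3 : 0 < (r4 ^ (2 * N)) ^ 2 := by positivity
      nlinarith
    ineq := f1
    pos1 := f2
    pos2 := f3
    a0 := fun e he => A0 V Φ _ _ Q A φ ψ _ P₀ _ _ _ hQ hcQ H (hs e he) (k0 e he)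
      (cyl_base H hF h0 b8.2 (by omega) q5 B0 (hs e he))
    a1 := A1a _ _ _ _ _ _ _ _ _ _ _ _ _ (dblS_noLoop hQ) (dblS_noLoop hcQ)
      (Dbl.glueZ H C.lo.half hL') (fun a h1 h2 => clp_one a h1 h2) k1 (B1 h h hh hh)
    a2 := fun e he e' he' => A1b _ _ _ _ _ _ _ _ _ _ _ _ _ (dblS_noLoop hQ) (dblS_noLoop hcQ)
      (Dbl.glueZ H C.hi.half hL') (fun a h1 h2 => clp_one a h1 h2) (k2 e he e' he')
      (B2 _ _ (hs e he) (hs e' he')) }⟩

end assembly

end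

end Pool.Agent.SixB.Hcs
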