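import Pool.Agent.Lib.SixB.S3AsmD
import Pool.Agent.Lib.SixB.S3HcsG
import Pool.Agent.Lib.SixB.S3CylnC
import Pool.Agent.Lib.SixB.S3WZ6

/-!
# 6BD step 3: the reflection inequality, hypotheses on the side of the environment (row R21)

* `P0`: the island sides and the sides of the rectangle `R` of the insertion, `P1`: one direction of each side of `R`,
  `cI`: the coefficients.
* `zJ_sum`, `SFam.zJ_def`: `zJ` as a sum of plane functionals of the rotated environment.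
* `glueZ_P0`, `ful_P0`, `noLoop_RQ`, `off_P0`, `sup_P1`, `P1_sub`, `P1_right`, `hB_one`: the hypotheses of
  `Hcs.hcs_of`.
* `cs_slab`: the reflection inequality for the environment of a slab, left factor `zEE`, right factor `rgt`.
* `SFam.rb_shift`, `SFam.X0_left`: the rectangle of the insertion is in the box and on the right of the cut column.
-/

set_option autoImplicit false
set_option linter.unusedSectionVars false

namespace Pool.Agent.SixB.Asm3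

open Complex Filter Topology Metric
open Pool.Agent.Perc Pool.Agent.Perc.Q
open scoped ComplexConjugate

noncomputable section

/-- the island sides and the sides of `R` in the base sheet -/
def P0 (S : Slb) (X Y : ℤ) (R : Finset (ℤ × ℤ)) :
    Finset ((Option Bool × (ℤ × ℤ)) × (Option Bool × (ℤ × ℤ))) :=
  (eB S X Y).Z ∪ (dE ZQ R).image sd0

/-- one direction of each side of `R` -/
def P1 (R : Finset (ℤ × ℤ)) : Finset ((Option Bool × (ℤ × ℤ)) × (Option Bool × (ℤ × ℤ))) :=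
  (Ins.EP R).image sd0

/-- the coefficients of the insertion -/
def cI (R : Finset (ℤ × ℤ)) (f : ℤ × ℤ → ℝ)
    (b : (Option Bool × (ℤ × ℤ)) × (Option Bool × (ℤ × ℤ))) : ℝ :=
  if b = sd0 (b.1.2, b.2.2) ∧ (b.1.2, b.2.2) ∈ dE ZQ R then f b.2.2 - f b.1.2 else 0

section

variable {S : Slb} {X Y X0 x₀ x₁ y₀ y₁ : ℤ} {R : Finset (ℤ × ℤ)} {f : ℤ × ℤ → ℝ}

theorem sd0_inj {a b : (ℤ × ℤ) × (ℤ × ℤ)} (h : sd0 a = sd0 b) : a = b := by
  unfold sd0 at h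
  obtain ⟨h1, h2⟩ := Prod.mk.inj h
  exact Prod.ext (Prod.mk.inj h1).2 (Prod.mk.inj h2).2

theorem sd0_swap (a : (ℤ × ℤ) × (ℤ × ℤ)) : sd0 a.swap = (sd0 a).swap := rfl

theorem mem_sd0 {A : Finset ((ℤ × ℤ) × (ℤ × ℤ))} {a : (ℤ × ℤ) × (ℤ × ℤ)} :
    sd0 a ∈ A.image sd0 ↔ a ∈ A := by
  rw [Finset.mem_image]
  constructor
  · rintro ⟨b, hb, h⟩
    rw [← sd0_inj h]
    exact hb
  · exact fun h => ⟨a, h, rfl⟩

theorem cI_sd0 {a : (ℤ × ℤ) × (ℤ × ℤ)} (ha : a ∈ dE ZQ R) : cI R f (sd0 a) = f a.2 - f a.1 :=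
  if_pos ⟨rfl, ha⟩

theorem zS_rot (R : Finset (ℤ × ℤ)) (a : (ℤ × ℤ) × (ℤ × ℤ)) :
    zS S X Y R a = Rel.Zp (bx S X Y) (Hcs.RQ (S.env ∅ X Y)) (eB S X Y).F Hcs.cf
      (fun c => hB S X Y c * sgE (sd0 a) c) (P0 S X Y R) := by
  have h := Rel.Zp_rot (Q := (S.env ∅ X Y).Q) (L := bx S X Y) (eB S X Y).F
    (fun f => ((none : Option Bool), f)) (fun c => hB S X Y c * sgE (sd0 a) c) (P0 S X Y R)
  unfold zS
  exact h.symm

/-- **The insertion as a sum of plane functionals of the rotated environment.** -/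
theorem zJ_sum :
    Ins.zJ x₀ x₁ y₀ y₁ f (zS S X Y (RF x₀ x₁ y₀ y₁)) =
      ∑ b ∈ P1 (RF x₀ x₁ y₀ y₁), (cI (RF x₀ x₁ y₀ y₁) f b : ℂ) *
        Rel.Zp (bx S X Y) (Hcs.RQ (S.env ∅ X Y)) (eB S X Y).F Hcs.cf
          (fun a => hB S X Y a * sgE b a) (P0 S X Y (RF x₀ x₁ y₀ y₁)) := by
  unfold Ins.zJ P1
  rw [Finset.sum_image fun a _ b _ h => sd0_inj h]
  refine Finset.sum_congr rfl fun a ha => ?_
  rw [cI_sd0 (Ins.mem_EP.mp ha).1, zS_rot]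

/-! ## The hypotheses of the reflection inequality -/

theorem bx_pos' : 0 < bx S X Y := bx_pos S X Y

theorem glueZ_P0 (h : S.Ok) (hR : Rel.RB (S.env ∅ X Y) (bx S X Y) x₀ x₁ y₀ y₁) :
    Rel.GlueZ (bx S X Y) (Hcs.RQ (S.env ∅ X Y)) (eB S X Y).F Hcs.cv Hcs.cf
      (P0 S X Y (RF x₀ x₁ y₀ y₁)) :=
  (Rel.glueZ_PE (BlkS.thk h) (inBx S X Y) hR).rot

theorem ful_P0 (h : S.Ok) (R : Finset (ℤ × ℤ)) :
    Rel.Ful (bx S X Y) (Hcs.RQ (S.env ∅ X Y)) (eB S X Y).F Hcs.cf (P0 S X Y R) :=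
  ((Rel.ful_env (BlkS.thk h) (inBx S X Y)).mono Finset.subset_union_left).rot

theorem noLoop_RQ (E : SEnv) : NoLoop (Hcs.RQ E) := Rel.noLoop_relQ (Rel.noLoop_env E) _

/-- no cut side is an island side or a side of `R` -/
theorem off_P0 (H : Hcs.LeftOf (S.env ∅ X Y) X0) (hR : ∀ f ∈ R, X0 < f.1) :
    Hcs.Off (Hcs.colF X0) (P0 S X Y R) := by
  have key : ∀ i : ℤ, ∀ s, (s = Hcs.colF X0 i ∨ s = (Hcs.colF X0 i).swap) → s ∉ P0 S X Y R := by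
    intro i s hs hm
    have e1 : s.1.1 = none ∧ s.2.1 = none ∧ s.1.2.1 = X0 := by
      rcases hs with rfl | rfl
      · exact ⟨rfl, rfl, rfl⟩
      · exact ⟨rfl, rfl, rfl⟩
    rcases Finset.mem_union.mp hm with h1 | h1
    · rcases (Rel.mem_Z_win.mp h1).2 with h2 | h2 | ⟨f, hf, k, hk⟩
      · exact h2 e1.1
      · exact h2 e1.2.1
      · have h3 := H.sol f hf
        have h4 : s.1.2 = ZQ.c f (k + 1) := congrArg Prod.fst hk
        have h5 := (Hcs.corner_le (g := f) (k := k + 1)).2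
        rw [← h4, e1.2.2] at h5
        omega
    · obtain ⟨a, ha, rfl⟩ := Finset.mem_image.mp h1
      obtain ⟨f, hf, k, hk⟩ := mem_dE.mp ha
      have h3 := hR f hf
      have h4 : a.1 = ZQ.c f k ∨ a.1 = ZQ.c f (k + 1) := by
        rcases hk with rfl | rfl
        · exact Or.inl rfl
        · exact Or.inr rfl
      have h5 : a.1.1 = X0 := e1.2.2
      rcases h4 with h4 | h4
      · have h6 := (Hcs.corner_le (g := f) (k := k)).1
        rw [← h4] at h6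
        omega
      · have h6 := (Hcs.corner_le (g := f) (k := k + 1)).1
        rw [← h4] at h6
        omega
  exact fun i => ⟨key i _ (Or.inl rfl), key i _ (Or.inr rfl)⟩

theorem stp_ne {b c : Bool} {p : ℤ × ℤ} : Ins.stp b (Ins.stp c p) ≠ p := by
  intro h
  obtain ⟨x, y⟩ := p
  have h1 := congrArg Prod.fst h
  have h2 := congrArg Prod.snd h
  cases b <;> cases c <;> simp [Ins.stp] at h1 h2 <;> omega

theorem EP_swap {a : (ℤ × ℤ) × (ℤ × ℤ)} (ha : a ∈ Ins.EP R) : a.swap ∉ Ins.EP R := by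
  intro h
  obtain ⟨-, b, hb⟩ := Ins.mem_EP.mp ha
  obtain ⟨-, c, hc⟩ := Ins.mem_EP.mp h
  have h1 : a.1 = Ins.stp c a.2 := hc
  rw [hb] at h1
  exact stp_ne h1.symm

theorem EP_or {a : (ℤ × ℤ) × (ℤ × ℤ)} (ha : a ∈ dE ZQ R) : a ∈ Ins.EP R ∨ a.swap ∈ Ins.EP R := by
  have hs : a.swap ∈ dE ZQ R := swap_mem_dE.mpr ha
  obtain ⟨f, -, k, hk⟩ := mem_dE.mp ha
  have key : ∀ c : (ℤ × ℤ) × (ℤ × ℤ), c = sd ZQ f k → (∃ b, c.2 = Ins.stp b c.1) ∨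
      ∃ b, c.1 = Ins.stp b c.2 := by
    rintro c rfl
    rcases k4_cases k with rfl | rfl | rfl | rfl
    · exact Or.inl ⟨false, rfl⟩
    · exact Or.inl ⟨true, rfl⟩
    · exact Or.inr ⟨false, rfl⟩
    · exact Or.inr ⟨true, rfl⟩
  rcases hk with hk | hk
  · rcases key a hk with h | h
    · exact Or.inl (Ins.mem_EP.mpr ⟨ha, h⟩)
    · exact Or.inr (Ins.mem_EP.mpr ⟨hs, h⟩)
  · rcases key a.swap (by rw [hk, Prod.swap_swap]) with h | h
    · exact Or.inr (Ins.mem_EP.mpr ⟨hs, h⟩)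
    · exact Or.inl (Ins.mem_EP.mpr ⟨ha, h⟩)

theorem sup_P1 (R : Finset (ℤ × ℤ)) (f : ℤ × ℤ → ℝ) : Hcs.Sup (cI R f) (P1 R) where
  anti b := by
    unfold cI
    have e : (b.swap = sd0 (b.swap.1.2, b.swap.2.2) ∧ (b.swap.1.2, b.swap.2.2) ∈ dE ZQ R) ↔
        (b = sd0 (b.1.2, b.2.2) ∧ (b.1.2, b.2.2) ∈ dE ZQ R) := by
      constructor
      · rintro ⟨h1, h2⟩
        refine ⟨?_, ?_⟩
        · have h3 := congrArg Prod.swap h1
          rw [Prod.swap_swap] at h3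
          exact h3
        · have h3 := swap_mem_dE.mpr h2
          exact h3
      · rintro ⟨h1, h2⟩
        refine ⟨?_, ?_⟩
        · have h3 := congrArg Prod.swap h1
          exact h3
        · have h3 := swap_mem_dE.mpr h2
          exact h3
    by_cases h : b = sd0 (b.1.2, b.2.2) ∧ (b.1.2, b.2.2) ∈ dE ZQ R
    · rw [if_pos h, if_pos (e.mpr h)]
      show f b.1.2 - f b.2.2 = -(f b.2.2 - f b.1.2)
      ring
    · rw [if_neg h, if_neg fun h' => h (e.mp h'), neg_zero]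
  one b hb h := by
    obtain ⟨a, ha, rfl⟩ := Finset.mem_image.mp hb
    rw [← sd0_swap] at h
    exact EP_swap ha (mem_sd0.mp h)
  all b hb := by
    unfold cI at hb
    by_cases h : b = sd0 (b.1.2, b.2.2) ∧ (b.1.2, b.2.2) ∈ dE ZQ R
    · rcases EP_or h.2 with h1 | h1
      · left
        rw [h.1]
        exact mem_sd0.mpr h1
      · right
        rw [h.1]
        exact mem_sd0.mpr h1
    · exact absurd (if_neg h) hb

theorem P1_sub : P1 R ⊆ P0 S X Y R := by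
  intro b hb
  obtain ⟨a, ha, rfl⟩ := Finset.mem_image.mp hb
  exact Finset.mem_union_right _ (Finset.mem_image_of_mem _ (Ins.mem_EP.mp ha).1)

theorem P1_right (h : S.Ok) (hR : Rel.RB (S.env ∅ X Y) (bx S X Y) x₀ x₁ y₀ y₁) (hx : X0 ≤ x₀) :
    P1 (RF x₀ x₁ y₀ y₁) ⊆ dE (Hcs.RQ (S.env ∅ X Y)) (Dbl.corS (eB S X Y).F (Hcs.hR X0)) := by
  intro b hb
  obtain ⟨a, ha, rfl⟩ := Finset.mem_image.mp hb
  obtain ⟨f, hf, k, hk⟩ := mem_dE.mp (Ins.mem_EP.mp ha).1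
  have hb := hR f hf
  have e : sd (S.env ∅ X Y).Q (none, f) k = sd0 (sd ZQ f k) :=
    EnvB.sd_base (Rel.win_thk (M := bx S X Y) (BlkS.thk h)) hb k
  rw [Rel.dE_relQ]
  refine mem_dE.mpr ⟨(none, f), Dbl.mem_corS.mpr ⟨EnvB.mem_F_none.mpr hb, rfl, ?_⟩, k, ?_⟩
  · have := (Ins.mem_RF.mp hf).1.1
    show X0 ≤ f.1
    omega
  · rcases hk with hk | hk
    · left
      rw [e, hk]
    · right
      rw [e, hk]
      rfl

theorem hB_one (R : Finset (ℤ × ℤ)) : ∀ a, a ∉ P0 S X Y R → a.swap ∉ P0 S X Y R → hB S X Y a = 1 := by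
  intro a h1 h2
  have h3 : a ∉ (eB S X Y).Z := fun h => h1 (Finset.mem_union_left _ h)
  have h4 : a.swap ∉ (eB S X Y).Z := fun h => h2 (Finset.mem_union_left _ h)
  unfold hB Rel.hz
  rw [if_neg h3, if_neg h4]

/-! ## The left factor -/

/-- sides of `R` are not sides of the left half -/
theorem not_left (h : S.Ok) (H : Hcs.LeftOf (S.env ∅ X Y) X0)
    (hR : Rel.RB (S.env ∅ X Y) (bx S X Y) x₀ x₁ y₀ y₁) (hx : X0 < x₀)
    {a : (ℤ × ℤ) × (ℤ × ℤ)} (ha : a ∈ dE ZQ (RF x₀ x₁ y₀ y₁)) :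
    sd0 a ∉ dE (Hcs.RQ (S.env ∅ X Y)) (Dbl.corS (eB S X Y).F (Hcs.hL (S.env ∅ X Y) X0)) := by
  intro h1
  obtain ⟨F, hF, l, hl⟩ := mem_dE.mp h1
  obtain ⟨f, hf, k, hk⟩ := mem_dE.mp ha
  have hb := hR f hf
  have hf1 : x₀ ≤ f.1 := (Ins.mem_RF.mp hf).1.1
  have hS := (Dbl.mem_corS.mp hF).2
  -- the first vertex of the side of `f`
  have e : ∀ j : ZMod 4, (Hcs.RQ (S.env ∅ X Y)).c (none, f) (j + 1) = (none, ZQ.c f j) := by
    intro j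
    rw [Hcs.RQ_c, add_assoc, show (1 : ZMod 4) + 3 = 0 by decide, add_zero]
    exact EnvB.cor_base (E := Rel.win (S.env ∅ X Y) (bx S X Y)) (BlkS.thk h) hb j
  have hr : ((none : Option Bool), f) ∈ Hcs.hR X0 := ⟨rfl, by show X0 ≤ f.1; omega⟩
  have hc : ∀ v : ℤ × ℤ, (∃ j, v = ZQ.c f j) →
      (∃ j, (Hcs.RQ (S.env ∅ X Y)).c F j = ((none : Option Bool), v)) → False := by
    rintro v ⟨j, rfl⟩ ⟨j', hj'⟩
    have h2 := Hcs.sep_E H hS hr (k := j') (l := j + 1) (by rw [hj', e])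
    rw [e] at h2
    have h3 := (Hcs.onCut_col.mp h2).2
    have h4 := (Hcs.corner_le (g := f) (k := j)).1
    simp only at h3
    omega
  have ha1 : ∃ j, a.1 = ZQ.c f j := by
    rcases hk with rfl | rfl
    · exact ⟨k, rfl⟩
    · exact ⟨k + 1, rfl⟩
  refine hc a.1 ha1 ?_
  rcases hl with hl | hl
  · exact ⟨l, (congrArg Prod.fst hl).symm⟩
  · exact ⟨l + 1, (congrArg Prod.fst hl).symm⟩

theorem isl2_P0 (h : S.Ok) (H : Hcs.LeftOf (S.env ∅ X Y) X0)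
    (hR : Rel.RB (S.env ∅ X Y) (bx S X Y) x₀ x₁ y₀ y₁) (hx : X0 < x₀) :
    Dbl.isl2 (Hcs.RQ (S.env ∅ X Y)) (eB S X Y).F (Hcs.hL (S.env ∅ X Y) X0)
      (revFam (Hcs.colF X0)) (P0 S X Y (RF x₀ x₁ y₀ y₁)) =
    Dbl.isl2 (Hcs.RQ (S.env ∅ X Y)) (eB S X Y).F (Hcs.hL (S.env ∅ X Y) X0)
      (revFam (Hcs.colF X0)) (eB S X Y).Z := by
  ext b
  rw [Dbl.mem_isl2, Dbl.mem_isl2]
  constructor
  · rintro ⟨c, a, h1, h2, h3⟩
    refine ⟨c, a, ?_, h2, h3⟩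
    rcases Finset.mem_union.mp h1 with h4 | h4
    · exact h4
    · obtain ⟨a, ha, rfl⟩ := Finset.mem_image.mp h4
      exact absurd h2 (not_left h H hR hx ha)
  · rintro ⟨c, a, h1, h2, h3⟩
    exact ⟨c, a, Finset.mem_union_left _ h1, h2, h3⟩

/-- the sum on the right half -/
def rgt (H : Hcs.LeftOf (S.env ∅ X Y) X0) (R : Finset (ℤ × ℤ)) (f : ℤ × ℤ → ℝ) : ℂ :=
  ∑ e ∈ P1 R, ∑ e' ∈ P1 R, (cI R f e : ℂ) * (cI R f e' : ℂ) *
    Rel.Zp (bx S X Y + |X0|) (Dbl.dblS (Hcs.RQ (S.env ∅ X Y)) (Hcs.hR X0) (Hcs.colF X0) (Hcs.os_R H))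
      (Dbl.cor2 true X0 (eB S X Y).F (Hcs.hR X0) Hcs.cf (Dbl.wZ true X0 (bx S X Y) (bx S X Y + |X0|)))
      (Dbl.dblψ true X0 Hcs.cf)
      (Hcs.dw (fun a => hB S X Y a * sgE e a) (fun a => hB S X Y a * sgE e' a))
      (Dbl.isl2 (Hcs.RQ (S.env ∅ X Y)) (eB S X Y).F (Hcs.hR X0) (Hcs.colF X0) (P0 S X Y R))

theorem cutZ_slab (H : Hcs.LeftOf (S.env ∅ X Y) X0) (hX : |X0| < bx S X Y) :
    Cyh.CutZ X0 (bx S X Y) (Hcs.RQ (S.env ∅ X Y)) (eB S X Y).F Hcs.cv Hcs.cf (Hcs.hR X0)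
      (Hcs.hL (S.env ∅ X Y) X0) (Hcs.colF X0) := Hcs.cutZE H (inBx S X Y) hX

/-- **The reflection inequality for the environment of a slab.** -/
theorem cs_slab (h : S.Ok) (H : Hcs.LeftOf (S.env ∅ X Y) X0) (hX : |X0| < bx S X Y)
    (hR : Rel.RB (S.env ∅ X Y) (bx S X Y) x₀ x₁ y₀ y₁) (hx : X0 < x₀)
    (hT : Hcs.TurnsC (glueZ_P0 h hR))
    (hlo : Hcs.DblLo (bx S X Y + |X0|) (cutZ_slab H hX) (glueZ_P0 h hR))
    (hup : Hcs.DblUp (bx S X Y + |X0|) (cutZ_slab H hX) (glueZ_P0 h hR)) :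
    ‖Ins.zJ x₀ x₁ y₀ y₁ f (zS S X Y (RF x₀ x₁ y₀ y₁))‖ ^ 2 ≤
      zEE S X0 X Y * (rgt H (RF x₀ x₁ y₀ y₁) f).re ∧
    0 ≤ zEE S X0 X Y ∧ 0 ≤ (rgt H (RF x₀ x₁ y₀ y₁) f).re := by
  have key := Hcs.hcs_of (bx_pos S X Y) le_rfl (cutZ_slab H hX) (glueZ_P0 h hR)
    (ful_P0 h _) (noLoop_RQ _) (off_P0 H fun g hg => hx.trans_le (Ins.mem_RF.mp hg).1.1) hT hlo hup
    (hB_one _) (sup_P1 (RF x₀ x₁ y₀ y₁) f) P1_sub (P1_right h hR hx.le)
  rw [← zJ_sum, isl2_P0 h H hR hx] at key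
  rw [zEE_hcs H (sameU_refl _)]
  obtain ⟨k1, k2, k3⟩ := key
  refine ⟨?_, by positivity, k3⟩
  rw [mul_assoc]
  exact k1

end

/-! ## The rectangle of the family -/

section fam

variable {P : Finset (ℤ × ℤ)} {L : ℕ} {g : ℤ → ℤ × ℤ} {ι : Type} {l : Filter ι} {n : ι → ℕ}
  {j : ι → ℤ → ℝ} {z0 : ℂ}

theorem bx_mono (S : Slb) (X Y : ℤ) : bx S 0 0 ≤ bx S X Y := by
  have h5 := abs_nonneg X
  have h6 := abs_nonneg Y
  unfold bx
  rw [abs_zero]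
  omega

namespace SFam

variable (D : SFam P L g l n j z0)

theorem rR_le {r : ℝ} (hr : 0 < r) (i : ι) : D.rR r i ≤ (⌈100 * r * n i⌉₊ : ℕ) := by
  have h0 : 0 ≤ r * n i := by positivity
  have h3 : D.rR r i ≤ ⌈100 * r * n i⌉ := by
    unfold rR
    exact Int.ceil_le_ceil (by nlinarith)
  have h4 : ⌈100 * r * n i⌉ ≤ ((⌈100 * r * n i⌉₊ : ℕ) : ℤ) := by
    rw [Int.ceil_le]
    exact_mod_cast Nat.le_ceil _
  exact h3.trans h4

/-- the rectangle is in the box of every shift -/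
theorem rb_shift {z : ℂ} {r : ℝ} {i : ι} (hr : 0 < r) (hS : (D.slb z r i).Ok) (h : D.BoxOK z r i)
    (X Y : ℤ) :
    Rel.RB ((D.slb z r i).env ∅ X Y) (bx (D.slb z r i) X Y)
      (⌊(n i : ℝ) * z.re⌋ - D.rR r i) (⌊(n i : ℝ) * z.re⌋ + D.rR r i)
      (⌊(n i : ℝ) * z.im⌋ - D.rR r i) (⌊(n i : ℝ) * z.im⌋ + D.rR r i) := by
  intro f hf
  have h1 := Rel.mem_base_win.mp (h.rb f hf)
  have h2 := D.rR_le hr i
  have h3 := (Ins.mem_RF.mp hf).2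
  refine Rel.mem_base_win.mpr ⟨Rel.RF0_mono (bx_mono _ X Y) h1.1, ?_⟩
  refine free_row hS ?_ ?_
  · show ⌊(n i : ℝ) * z.im⌋ - ((⌈100 * r * n i⌉₊ : ℕ) : ℤ) ≤ f.2
    omega
  · show f.2 < ⌊(n i : ℝ) * z.im⌋ + ((⌈100 * r * n i⌉₊ : ℕ) : ℤ)
    omega

/-- the rectangle is on the right of the cut column -/
theorem X0_left {z : ℂ} (hz : z ∈ ball z0 (D.κ / 4)) {r : ℝ} (hr : 0 < r) (hr' : r < D.κ / 10 ^ 5)
    {i : ι} (hn : 0 < n i) : D.X0 i < ⌊(n i : ℝ) * z.re⌋ - D.rR r i := by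
  have hκ := D.hκ
  have hκ' := D.hκ'
  have hn0 : (1 : ℝ) ≤ n i := by exact_mod_cast hn
  have hzre : |z.re - z0.re| < D.κ / 4 := by
    have h3 := mem_ball.mp hz
    rw [dist_eq] at h3
    have h4 := abs_re_le_norm (z - z0)
    rw [sub_re] at h4
    linarith
  rw [abs_lt] at hzre
  have hX1 := D.hX₁
  have e2 := Int.lt_floor_add_one ((n i : ℝ) * z.re)
  have hc2 := Int.ceil_lt_add_one (32 * r * n i)
  have h5 : (n i : ℝ) * D.X₁ ≤ n i * z.re := mul_le_mul_of_nonneg_left (by linarith) (by linarith)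
  have h6 : r * n i ≤ D.κ / 10 ^ 5 * n i := mul_le_mul_of_nonneg_right hr'.le (by linarith)
  have h7 : D.κ * n i ≤ n i := by nlinarith
  have key : (((n i : ℤ) * (D.X₁ - 4) : ℤ) : ℝ) < ((⌊(n i : ℝ) * z.re⌋ - ⌈32 * r * n i⌉ : ℤ) : ℝ) := by
    push_cast
    nlinarith
  exact_mod_cast key

theorem zJ_def (z : ℂ) (r : ℝ) (i : ι) (x y : ℕ) : D.zJ z r i x y =
    Ins.zJ (⌊(n i : ℝ) * z.re⌋ - D.rR r i) (⌊(n i : ℝ) * z.re⌋ + D.rR r i)
      (⌊(n i : ℝ) * z.im⌋ - D.rR r i) (⌊(n i : ℝ) * z.im⌋ + D.rR r i) (D.ins z r i)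
      (zS (D.slb z r i) (-2 * y) (-2 * x) (RF (⌊(n i : ℝ) * z.re⌋ - D.rR r i)
        (⌊(n i : ℝ) * z.re⌋ + D.rR r i) (⌊(n i : ℝ) * z.im⌋ - D.rR r i)
        (⌊(n i : ℝ) * z.im⌋ + D.rR r i))) := rfl

end SFam

end fam

end

end Pool.Agent.SixB.Asm3
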