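import Pool.Agent.Lib.SixB.S0Glue

/-!
# 6BD: prescribed arrows and matrices of arrow sums

`m : ι → V × V` a family of directed unit edges (for rows: all directed upwards), `s : ι → Bool`.
* `pin m s a = 0` if the arrow `a` contradicts `s` on the family `m`, else `1`.
* `Fam m`: the edges `m i` and `(m i).swap` are pairwise different.
* `Z6_cut`: if the common sides of `F₁`, `F₂` are the edges of `m` then `Z6 (F₁ ∪ F₂)` is the sum over `s`
  of the products of the two arrow sums with `pin m s`.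
* `Mx Q F h b t s' s`: arrow sum of `F` with the arrows `s` on the family `b` and `s'` on the family `t`;
  `Mx_mul`: composition is the product of matrices.
-/

set_option autoImplicit false
set_option linter.unusedSectionVars false

namespace Pool.Agent.SixB

open Pool.Agent.Perc.Q Relation

noncomputable section

variable {V Φ : Type} [DecidableEq V] [DecidableEq Φ]

/-- the edges of the family and their reversals are pairwise different -/
def Fam {ι : Type} (m : ι → V × V) : Prop :=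
  (∀ i j, m i = m j → i = j) ∧ ∀ i j, m i ≠ (m j).swap

/-- the edges of the family, both directions -/
def eds {ι : Type} [Fintype ι] (m : ι → V × V) : Finset (V × V) :=
  Finset.univ.biUnion fun i => {m i, (m i).swap}

theorem mem_eds {ι : Type} [Fintype ι] {m : ι → V × V} {a : V × V} :
    a ∈ eds m ↔ ∃ i, a = m i ∨ a = (m i).swap := by
  simp [eds]

open Classical in
/-- weight `0` for the arrows which contradict `s` on the family `m` -/
def pin {ι : Type} (m : ι → V × V) (s : ι → Bool) (a : V × V) : ℂ :=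
  if ∃ i, (a = m i ∧ s i = false) ∨ (a = (m i).swap ∧ s i = true) then 0 else 1

theorem pin_off {ι : Type} [Fintype ι] {m : ι → V × V} (s : ι → Bool) {a : V × V}
    (h : a ∉ eds m) : pin m s a = 1 := by
  unfold pin
  rw [if_neg]
  rintro ⟨i, ⟨h1, _⟩ | ⟨h1, _⟩⟩
  · exact h (mem_eds.mpr ⟨i, Or.inl h1⟩)
  · exact h (mem_eds.mpr ⟨i, Or.inr h1⟩)

theorem pin_self {ι : Type} {m : ι → V × V} (hm : Fam m) (s : ι → Bool) (i : ι) :
    pin m s (m i) = if s i = true then 1 else 0 := by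
  unfold pin
  by_cases h : s i = true
  · rw [if_pos h, if_neg]
    rintro ⟨j, ⟨h1, h2⟩ | ⟨h1, _⟩⟩
    · rw [← hm.1 _ _ h1, h] at h2
      exact Bool.noConfusion h2
    · exact hm.2 _ _ h1
  · rw [if_neg h, if_pos]
    exact ⟨i, Or.inl ⟨rfl, by simpa using h⟩⟩

theorem pin_swap {ι : Type} {m : ι → V × V} (hm : Fam m) (s : ι → Bool) (i : ι) :
    pin m s (m i).swap = if s i = true then 0 else 1 := by
  unfold pin
  by_cases h : s i = true
  · rw [if_pos h, if_pos]
    exact ⟨i, Or.inr ⟨rfl, h⟩⟩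
  · rw [if_neg h, if_neg]
    rintro ⟨j, ⟨h1, _⟩ | ⟨h1, h2⟩⟩
    · exact hm.2 _ _ h1.symm
    · have : i = j := hm.1 _ _ (by simpa using congrArg Prod.swap h1)
      rw [← this] at h2
      exact h h2

/-- the arrow configuration of the family given by `s` -/
def kapS {ι : Type} [Fintype ι] (m : ι → V × V) (s : ι → Bool) : Finset (V × V) :=
  Finset.univ.image fun i => if s i = true then m i else (m i).swap

theorem mem_kapS {ι : Type} [Fintype ι] {m : ι → V × V} {s : ι → Bool} {a : V × V} :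
    a ∈ kapS m s ↔ ∃ i, (s i = true ∧ a = m i) ∨ (s i = false ∧ a = (m i).swap) := by
  unfold kapS
  simp only [Finset.mem_image, Finset.mem_univ, true_and]
  constructor
  · rintro ⟨i, rfl⟩
    by_cases h : s i = true
    · exact ⟨i, Or.inl ⟨h, by rw [if_pos h]⟩⟩
    · exact ⟨i, Or.inr ⟨by simpa using h, by rw [if_neg h]⟩⟩
  · rintro ⟨i, ⟨h, rfl⟩ | ⟨h, rfl⟩⟩
    · exact ⟨i, by rw [if_pos h]⟩
    · exact ⟨i, by rw [if_neg (by rw [h]; exact Bool.noConfusion)]⟩

theorem kapS_mem {ι : Type} [Fintype ι] {m : ι → V × V} (hm : Fam m) (s : ι → Bool) :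
    kapS m s ∈ KArr (eds m) := by
  refine Finset.mem_filter.mpr ⟨Finset.mem_powerset.mpr ?_, ?_⟩
  · intro a ha
    obtain ⟨i, ⟨_, h⟩ | ⟨_, h⟩⟩ := mem_kapS.mp ha
    · exact mem_eds.mpr ⟨i, Or.inl h⟩
    · exact mem_eds.mpr ⟨i, Or.inr h⟩
  · intro a ha
    obtain ⟨i, rfl | rfl⟩ := mem_eds.mp ha
    · rw [mem_kapS, mem_kapS]
      constructor
      · rintro ⟨j, ⟨h1, h2⟩ | ⟨h1, h2⟩⟩
        · have := hm.1 _ _ h2
          subst this
          rintro ⟨l, ⟨h3, h4⟩ | ⟨h3, h4⟩⟩
          · exact hm.2 _ _ h4.symm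
          · have : i = l := hm.1 _ _ (by simpa using congrArg Prod.swap h4)
            subst this
            rw [h1] at h3
            exact Bool.noConfusion h3
        · exact absurd h2 (hm.2 _ _)
      · intro h
        refine ⟨i, Or.inl ⟨?_, rfl⟩⟩
        by_contra h1
        exact h ⟨i, Or.inr ⟨by simpa using h1, rfl⟩⟩
    · rw [mem_kapS, mem_kapS]
      constructor
      · rintro ⟨j, ⟨h1, h2⟩ | ⟨h1, h2⟩⟩
        · exact absurd h2.symm (hm.2 _ _)
        · have : i = j := hm.1 _ _ (by simpa using congrArg Prod.swap h2)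
          subst this
          rintro ⟨l, ⟨h3, h4⟩ | ⟨h3, h4⟩⟩
          · have : i = l := hm.1 _ _ (by simpa using h4)
            subst this
            rw [h1] at h3
            exact Bool.noConfusion h3
          · exact hm.2 _ _ (by simpa using h4)
      · intro h
        refine ⟨i, Or.inr ⟨?_, rfl⟩⟩
        by_contra h1
        exact h ⟨i, Or.inl ⟨by simpa using h1, by simp⟩⟩

theorem kapS_of {ι : Type} [Fintype ι] {m : ι → V × V} (hm : Fam m) {κ : Finset (V × V)}
    (hκ : κ ∈ KArr (eds m)) : kapS m (fun i => decide (m i ∈ κ)) = κ := by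
  apply karr_sub_eq (kapS_mem hm _) hκ
  intro a ha
  obtain ⟨i, ⟨h1, h2⟩ | ⟨h1, h2⟩⟩ := mem_kapS.mp ha
  · rw [h2]
    exact of_decide_eq_true h1
  · have h3 : m i ∉ κ := of_decide_eq_false h1
    have h4 := (Finset.mem_filter.mp hκ).2 (m i) (mem_eds.mpr ⟨i, Or.inl rfl⟩)
    rw [h2]
    by_contra h5
    exact h3 (h4.mpr h5)

theorem kapS_inj {ι : Type} [Fintype ι] {m : ι → V × V} (hm : Fam m) {s s' : ι → Bool}
    (h : kapS m s = kapS m s') : s = s' := by
  funext i
  have key : ∀ s : ι → Bool, (m i ∈ kapS m s ↔ s i = true) := by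
    intro s
    rw [mem_kapS]
    constructor
    · rintro ⟨j, ⟨h1, h2⟩ | ⟨_, h2⟩⟩
      · rw [hm.1 _ _ h2]
        exact h1
      · exact absurd h2 (hm.2 _ _)
    · intro h1
      exact ⟨i, Or.inl ⟨h1, rfl⟩⟩
  have h1 := key s
  have h2 := key s'
  rw [h] at h1
  have h3 := h1.symm.trans h2
  cases hs : s i <;> cases hs' : s' i <;> simp_all

theorem dlt_kapS {ι : Type} [Fintype ι] {m : ι → V × V} (hm : Fam m) (s : ι → Bool) (a : V × V) :
    dlt (eds m) (kapS m s) a = pin m s a := by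
  by_cases ha : a ∈ eds m
  · obtain ⟨i, h | h⟩ := mem_eds.mp ha
    · rw [h, pin_self hm]
      unfold dlt
      by_cases h1 : s i = true
      · rw [if_pos h1, if_neg]
        rintro ⟨_, h2⟩
        exact h2 (mem_kapS.mpr ⟨i, Or.inl ⟨h1, rfl⟩⟩)
      · rw [if_neg h1, if_pos]
        refine ⟨h ▸ ha, ?_⟩
        intro h2
        obtain ⟨j, ⟨h3, h4⟩ | ⟨_, h4⟩⟩ := mem_kapS.mp h2
        · rw [← hm.1 _ _ h4] at h3
          exact h1 h3
        · exact hm.2 _ _ h4
    · rw [h, pin_swap hm]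
      unfold dlt
      by_cases h1 : s i = true
      · rw [if_pos h1, if_pos]
        refine ⟨h ▸ ha, ?_⟩
        intro h2
        obtain ⟨j, ⟨_, h4⟩ | ⟨h3, h4⟩⟩ := mem_kapS.mp h2
        · exact hm.2 _ _ h4.symm
        · have : i = j := hm.1 _ _ (by simpa using congrArg Prod.swap h4)
          rw [← this, h1] at h3
          exact Bool.noConfusion h3
      · rw [if_neg h1, if_neg]
        rintro ⟨_, h2⟩
        exact h2 (mem_kapS.mpr ⟨i, Or.inr ⟨by simpa using h1, rfl⟩⟩)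
  · rw [pin_off s ha]
    unfold dlt
    rw [if_neg]
    exact fun h => ha h.1

/-- sums over the arrow configurations of a family -/
theorem sum_karr_fam {ι : Type} [Fintype ι] [DecidableEq ι] {m : ι → V × V} (hm : Fam m)
    (g : Finset (V × V) → ℂ) : ∑ κ ∈ KArr (eds m), g κ = ∑ s : ι → Bool, g (kapS m s) := by
  symm
  refine Finset.sum_bij (fun s _ => kapS m s) ?_ ?_ ?_ ?_
  · intro s _
    exact kapS_mem hm s
  · intro s _ s' _ h
    exact kapS_inj hm h
  · intro κ hκ
    exact ⟨_, Finset.mem_univ _, kapS_of hm hκ⟩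
  · intro s _
    rfl

/-- **Cutting along a family of common sides.** -/
theorem Z6_cut {ι : Type} [Fintype ι] [DecidableEq ι] (Q : QC V Φ) (F₁ F₂ : Finset Φ)
    (hd : Disjoint F₁ F₂) {m : ι → V × V} (hm : Fam m) (hc : cE Q F₁ F₂ = eds m)
    (h h₁ h₂ : V × V → ℂ)
    (e0 : ∀ a ∈ eds m, h a = h₁ a * h₂ a)
    (e1 : ∀ a ∈ dE Q F₁, a ∉ eds m → h₁ a = h a)
    (e2 : ∀ a ∈ dE Q F₂, a ∉ eds m → h₂ a = h a) :
    Z6 Q (F₁ ∪ F₂) h = ∑ s : ι → Bool,
      Z6 Q F₁ (fun a => h₁ a * pin m s a) * Z6 Q F₂ (fun a => h₂ a * pin m s a) := by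
  rw [Z6_glue Q F₁ F₂ hd h h₁ h₂ (by rwa [hc]) (by rwa [hc]) (by rwa [hc]), hc, sum_karr_fam hm]
  simp only [dlt_kapS hm]

/-- only the weights of the sides of `F` matter -/
theorem Z6_congr {Q : QC V Φ} {F : Finset Φ} {h h' : V × V → ℂ} (e : ∀ a ∈ dE Q F, h a = h' a) :
    Z6 Q F h = Z6 Q F h' := by
  unfold Z6
  refine Finset.sum_congr rfl fun α hα => ?_
  congr 1
  refine Finset.prod_congr rfl fun a ha => e a ?_
  exact Finset.mem_powerset.mp (Finset.mem_filter.mp hα).1 ha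

/-- arrow sum of `F` with the arrows `s` on the family `b` and `s'` on the family `t` -/
def Mx {ι κ : Type} (Q : QC V Φ) (F : Finset Φ) (h : V × V → ℂ) (b : ι → V × V) (t : κ → V × V) :
    Matrix (κ → Bool) (ι → Bool) ℂ :=
  fun s' s => Z6 Q F (fun a => h a * pin b s a * pin t s' a)

/-- **Composition of two layers.** -/
theorem Mx_mul {ι κ μ : Type} [Fintype ι] [Fintype κ] [Fintype μ] [DecidableEq μ]
    (Q : QC V Φ) (F₁ F₂ : Finset Φ) (hd : Disjoint F₁ F₂)
    {b : ι → V × V} {m : μ → V × V} {t : κ → V × V} (hm : Fam m) (hc : cE Q F₁ F₂ = eds m)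
    (h h₁ h₂ : V × V → ℂ)
    (hb : Disjoint (eds b) (dE Q F₂)) (ht : Disjoint (eds t) (dE Q F₁))
    (e0 : ∀ a ∈ eds m, h a = h₁ a * h₂ a)
    (e1 : ∀ a ∈ dE Q F₁, a ∉ eds m → h₁ a = h a)
    (e2 : ∀ a ∈ dE Q F₂, a ∉ eds m → h₂ a = h a) :
    Mx Q (F₁ ∪ F₂) h b t = Mx Q F₂ h₂ m t * Mx Q F₁ h₁ b m := by
  have hb1 : ∀ (s : ι → Bool), ∀ a ∈ dE Q F₂, pin b s a = 1 := fun s a ha =>
    pin_off s (fun hh => (Finset.disjoint_left.mp hb hh ha))
  have ht1 : ∀ (s : κ → Bool), ∀ a ∈ dE Q F₁, pin t s a = 1 := fun s a ha =>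
    pin_off s (fun hh => (Finset.disjoint_left.mp ht hh ha))
  have hm1 : ∀ a ∈ eds m, a ∈ dE Q F₁ ∧ a ∈ dE Q F₂ := by
    intro a ha
    rw [← hc] at ha
    exact Finset.mem_inter.mp ha
  ext s' s
  rw [Matrix.mul_apply]
  unfold Mx
  rw [Z6_cut Q F₁ F₂ hd hm hc _ (fun a => h₁ a * pin b s a) (fun a => h₂ a * pin t s' a)]
  · refine Finset.sum_congr rfl fun r _ => ?_
    rw [mul_comm]
    congr 1
    refine Z6_congr fun a _ => ?_
    ring
  · intro a ha
    rw [e0 a ha, hb1 s a (hm1 a ha).2, ht1 s' a (hm1 a ha).1]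
    ring
  · intro a ha ham
    rw [e1 a ha ham, ht1 s' a ha]
    ring
  · intro a ha ham
    rw [e2 a ha ham, hb1 s a ha]
    ring

end

end Pool.Agent.SixB
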