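import Pool.Agent.Lib.SixB.S3Polar
import Pool.Agent.Lib.SixB.CylPsi
import Pool.Agent.Lib.SixB.S3Slab
import Pool.Agent.Lib.SixB.S3PlaneC

/-!
# 6BD step 3: the sandwich (row R17)

Circumference `N = n + 1`.
* `lvF n y`: the sides of the level `y` (directed up), indexed by `Fin (n + 1)`.
* `Mx_rows`: `m ≥ 1` rows of the cylinder are `(2 ^ N • T) ^ m`, `T = T N (π / 6)`.
* `MxD_slab`: the slab with the insertion in the middle rows.
* `jL`: the insertion as an operator; `zvec`, `dvec`: the vectors of the upper and the lower part.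
* `SWE.sandwich`: `Z6D (L ∪ S ∪ U) = 2 ^ (N * rows) * ⟪T ^ a d, J (T ^ a u)⟫`.
* `zvec_shift`: shifts are powers of `tL N 0`.
-/

set_option autoImplicit false
set_option linter.unusedSectionVars false

namespace Pool.Agent.SixB

open Pool.Agent.Perc Pool.Agent.Perc.Q Relation Pool.Agent.SixV ComplexConjugate
open scoped Real InnerProductSpace Matrix

noncomputable section

namespace Sand

/-! ## Rows of the cylinder -/

section rows

variable {n : ℕ} [hn : Fact (3 ≤ n + 1)]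

/-- the sides of the level `y`, directed up -/
def lvF (n : ℕ) [Fact (3 ≤ n + 1)] (y : ℤ) (j : Fin (n + 1)) :
    (ZMod (n + 1) × ℤ) × (ZMod (n + 1) × ℤ) := bE (N := n + 1) j y

theorem fam_lvF (y : ℤ) : Fam (lvF n y) := by
  have h := isFam_lvl (N := n + 1) y
  exact ⟨fun i j e => h.inj e, fun i j => h.ne i j⟩

theorem eds_lvF (y : ℤ) : eds (lvF n y) = lvl (n + 1) y := by
  ext a
  rw [mem_eds, mem_lvl]
  rfl

theorem pin_lvF (y : ℤ) (s : Fin (n + 1) → Bool)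
    (a : (ZMod (n + 1) × ℤ) × (ZMod (n + 1) × ℤ)) : pin (lvF n y) s a = ldl (N := n + 1) y s a := by
  have h := isFam_lvl (N := n + 1) y
  by_cases ha : a ∈ eds (lvF n y)
  · obtain ⟨i, rfl | rfl⟩ := mem_eds.mp ha
    · rw [pin_self (fam_lvF y)]
      unfold ldl dlt
      by_cases hs : s i = true
      · rw [if_pos hs, if_neg]
        rintro ⟨-, h2⟩
        exact h2 ((h.mem_iff (σ := s) (i := i)).mpr hs)
      · rw [if_neg hs, if_pos]
        refine ⟨mem_Ed.mpr ⟨i, Or.inl rfl⟩, fun h2 => hs ((h.mem_iff (σ := s) (i := i)).mp h2)⟩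
    · rw [pin_swap (fam_lvF y)]
      unfold ldl dlt
      by_cases hs : s i = true
      · rw [if_pos hs, if_pos]
        refine ⟨mem_Ed.mpr ⟨i, Or.inr rfl⟩, fun h2 => ?_⟩
        have := (h.swap_mem_iff (σ := s) (i := i)).mp h2
        rw [this] at hs
        exact Bool.noConfusion hs
      · rw [if_neg hs, if_neg]
        rintro ⟨-, h2⟩
        refine h2 ((h.swap_mem_iff (σ := s) (i := i)).mpr ?_)
        simpa using hs
  · rw [pin_off s ha]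
    unfold ldl dlt
    rw [if_neg]
    rintro ⟨h1, -⟩
    rw [eds_lvF] at ha
    exact ha h1

/-- the row matrix without normalisation -/
def rT (n : ℕ) : Matrix (Fin (n + 1) → Bool) (Fin (n + 1) → Bool) ℂ :=
  (2 : ℂ) ^ (n + 1) • T (n + 1) (π / 6)

/-- one row -/
theorem Mx_row (y : ℤ) : Mx (CQ (n + 1)) (cylF (n + 1) y (y + 1)) (fun _ => 1) (lvF n y)
    (lvF n (y + 1)) = rT n := by
  ext s' s
  unfold rT
  rw [Matrix.smul_apply, smul_eq_mul]
  have e1 := Z6_row_ldl (N := n + 1) y s s'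
  have e2 := rowM_eq (n := n) s' s
  have e3 : T (n + 1) ((Real.pi : ℂ) / 6) s' s = T (n + 1) (π / 6) s' s := rfl
  rw [e2] at e1
  rw [← e1]
  unfold Mx
  refine Z6_congr fun a _ => ?_
  rw [pin_lvF, pin_lvF]
  ring

theorem cE_level {y₀ y y₁ : ℤ} (h0 : y₀ < y) (h1 : y < y₁) :
    cE (CQ (n + 1)) (cylF (n + 1) y₀ y) (cylF (n + 1) y y₁) = eds (lvF n y) := by
  rw [eds_lvF]
  apply Finset.Subset.antisymm
  · exact cE_sub_lvl below_cylF above_cylF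
  · intro a ha
    exact Finset.mem_inter.mpr ⟨lvl_sub_top h0 ha, lvl_sub_bot h1 ha⟩

theorem disj_level {y₀ y y₁ : ℤ} : Disjoint (cylF (n + 1) y₀ y) (cylF (n + 1) y y₁) :=
  disj_of below_cylF above_cylF

/-- the level `z` does not meet the sides of faces above a higher level -/
theorem level_above {z y y₁ : ℤ} (h : z < y) :
    Disjoint (eds (lvF n z)) (dE (CQ (n + 1)) (cylF (n + 1) y y₁)) := by
  rw [Finset.disjoint_left]
  intro a ha ha'
  rw [eds_lvF] at ha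
  have h1 := lvl_height ha
  have h2 := (above_cylF (N := n + 1) (y := y) (y₁ := y₁)).height ha'
  omega

theorem level_below {z y₀ y : ℤ} (h : y < z) :
    Disjoint (eds (lvF n z)) (dE (CQ (n + 1)) (cylF (n + 1) y₀ y)) := by
  rw [Finset.disjoint_left]
  intro a ha ha'
  rw [eds_lvF] at ha
  have h1 := lvl_height ha
  have h2 := (below_cylF (N := n + 1) (y := y) (y₀ := y₀)).height ha'
  omega

theorem cylF_union {y₀ y y₁ : ℤ} (h0 : y₀ ≤ y) (h1 : y ≤ y₁) :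
    cylF (n + 1) y₀ y ∪ cylF (n + 1) y y₁ = cylF (n + 1) y₀ y₁ := by
  ext f
  rw [Finset.mem_union, mem_cylF, mem_cylF, mem_cylF]
  omega

/-- **Stacked rows.** -/
theorem Mx_rows (y : ℤ) (m : ℕ) (hm : 1 ≤ m) :
    Mx (CQ (n + 1)) (cylF (n + 1) y (y + m)) (fun _ => 1) (lvF n y) (lvF n (y + m)) =
      rT n ^ m := by
  induction m, hm using Nat.le_induction with
  | base =>
    rw [pow_one]
    exact_mod_cast Mx_row y
  | succ m hm ih =>
    have e0 : y + ((m + 1 : ℕ) : ℤ) = y + m + 1 := by push_cast; ring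
    rw [e0, ← cylF_union (y := y + m) (by omega) (by omega),
      Mx_mul (CQ (n + 1)) (cylF (n + 1) y (y + m)) (cylF (n + 1) (y + m) (y + m + 1)) disj_level
        (fam_lvF (y + m)) (cE_level (by omega) (by omega)) (fun _ => 1) (fun _ => 1) (fun _ => 1)
        (level_above (by omega)) (level_below (by omega)) (fun _ _ => by ring) (fun _ _ _ => rfl)
        (fun _ _ _ => rfl), ih, Mx_row, pow_succ' (rT n) m]

/-- **The slab with an insertion in the middle rows.** -/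
theorem MxD_slab (y : ℤ) (a r : ℕ) (ha : 1 ≤ a) (hr : 1 ≤ r)
    {c : (ZMod (n + 1) × ℤ) × (ZMod (n + 1) × ℤ) → ℝ}
    (hc : ∀ e, c e ≠ 0 → e ∈ dE (CQ (n + 1)) (cylF (n + 1) (y + a) (y + a + r)) ∧
      y + a < e.1.2 ∧ e.1.2 < y + a + r) :
    MxD (CQ (n + 1)) (cylF (n + 1) y (y + a + r + a)) (fun _ => 1) c (lvF n y)
        (lvF n (y + a + r + a)) =
      rT n ^ a *
        MxD (CQ (n + 1)) (cylF (n + 1) (y + a) (y + a + r)) (fun _ => 1) c (lvF n (y + a))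
          (lvF n (y + a + r)) *
        rT n ^ a := by
  have e1 := Mx_rows (n := n) (y + a + r) a ha
  have e2 := Mx_rows (n := n) y a ha
  rw [show rT n ^ a * MxD (CQ (n + 1)) (cylF (n + 1) (y + a) (y + a + r)) (fun _ => 1) c
      (lvF n (y + a)) (lvF n (y + a + r)) * rT n ^ a =
    Mx (CQ (n + 1)) (cylF (n + 1) (y + a + r) (y + a + r + a)) (fun _ => 1) (lvF n (y + a + r))
      (lvF n (y + a + r + a)) * MxD (CQ (n + 1)) (cylF (n + 1) (y + a) (y + a + r)) (fun _ => 1) c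
      (lvF n (y + a)) (lvF n (y + a + r)) *
      Mx (CQ (n + 1)) (cylF (n + 1) y (y + a)) (fun _ => 1) (lvF n y) (lvF n (y + a)) by
        rw [e1, e2],
    ← cylF_union (y := y + a + r) (y₁ := y + a + r + a) (by omega) (by omega),
    ← cylF_union (y₀ := y) (y := y + a) (y₁ := y + a + r) (by omega) (by omega)]
  have hcm : cE (CQ (n + 1)) (cylF (n + 1) y (y + a) ∪ cylF (n + 1) (y + a) (y + a + r))
      (cylF (n + 1) (y + a + r) (y + a + r + a)) = eds (lvF n (y + a + r)) := by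
    rw [cylF_union (by omega) (by omega)]
    exact cE_level (by omega) (by omega)
  refine MxD_three disj_level ?_ (fam_lvF _) (fam_lvF _) (cE_level (by omega) (by omega)) hcm
    (level_above (by omega)) (level_above (by omega)) (level_below (by omega)) ?_ ?_
  · rw [cylF_union (by omega) (by omega)]
    exact disj_level
  · rw [cylF_union (by omega) (by omega)]
    exact level_below (by omega)
  · intro e he
    obtain ⟨h1, h2, h3⟩ := hc e he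
    refine ⟨h1, fun h4 => ?_, fun h4 => ?_⟩
    · have h5 := (below_cylF (N := n + 1) (y := y + a) (y₀ := y)).height h4
      omega
    · have h5 := (above_cylF (N := n + 1) (y := y + a + r) (y₁ := y + a + r + a)).height h4
      omega

end rows

/-! ## Operators -/

theorem toL_mul {N : ℕ} (A B : Matrix (Fin N → Bool) (Fin N → Bool) ℂ) :
    (Matrix.toEuclideanLin (A * B) : HN N →ₗ[ℂ] HN N) =
      Matrix.toEuclideanLin A * Matrix.toEuclideanLin B := by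
  ext v i
  simp only [Module.End.mul_apply]
  simp [Matrix.toLpLin_apply, Matrix.mulVec_mulVec]

theorem toL_one {N : ℕ} :
    (Matrix.toEuclideanLin (1 : Matrix (Fin N → Bool) (Fin N → Bool) ℂ) : HN N →ₗ[ℂ] HN N) = 1 := by
  ext v i
  simp

theorem toL_pow {N : ℕ} (A : Matrix (Fin N → Bool) (Fin N → Bool) ℂ) (m : ℕ) :
    (Matrix.toEuclideanLin (A ^ m) : HN N →ₗ[ℂ] HN N) = Matrix.toEuclideanLin A ^ m := by
  induction m with
  | zero => rw [pow_zero, pow_zero, toL_one]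
  | succ m ih => rw [pow_succ, pow_succ, toL_mul, ih]

theorem toL_smul {N : ℕ} (z : ℂ) (A : Matrix (Fin N → Bool) (Fin N → Bool) ℂ) :
    (Matrix.toEuclideanLin (z • A) : HN N →ₗ[ℂ] HN N) = z • Matrix.toEuclideanLin A := by
  rw [map_smul]

section ops

variable {n : ℕ} [hn : Fact (3 ≤ n + 1)]

/-- the insertion in `r` rows as an operator (it maps the upper vector to the lower one) -/
def jL (n : ℕ) [Fact (3 ≤ n + 1)] (y : ℤ) (r : ℕ)
    (c : (ZMod (n + 1) × ℤ) × (ZMod (n + 1) × ℤ) → ℝ) : HN (n + 1) →ₗ[ℂ] HN (n + 1) :=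
  Matrix.toEuclideanLin ((((2 : ℂ) ^ ((n + 1) * r))⁻¹) •
    (MxD (CQ (n + 1)) (cylF (n + 1) y (y + r)) (fun _ => 1) c (lvF n y) (lvF n (y + r)))ᵀ)

theorem T_symm (N : ℕ) : (T N ((π : ℂ) / 6))ᵀ = T N (π / 6) := by
  rw [T_transpose]
  congr 1
  ring

theorem rT_transpose : (rT n)ᵀ = rT n := by
  unfold rT
  rw [Matrix.transpose_smul, T_symm]

theorem toL_rT_pow (a : ℕ) : (Matrix.toEuclideanLin (rT n ^ a) : HN (n + 1) →ₗ[ℂ] HN (n + 1)) =
    ((2 : ℂ) ^ ((n + 1) * a)) • tL (n + 1) (π / 6) ^ a := by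
  rw [toL_pow]
  unfold rT tL
  rw [toL_smul, smul_pow, ← pow_mul]

/-- **The slab as an operator.** -/
theorem slab_op (y : ℤ) (a r : ℕ) (ha : 1 ≤ a) (hr : 1 ≤ r)
    {c : (ZMod (n + 1) × ℤ) × (ZMod (n + 1) × ℤ) → ℝ}
    (hc : ∀ e, c e ≠ 0 → e ∈ dE (CQ (n + 1)) (cylF (n + 1) (y + a) (y + a + r)) ∧
      y + a < e.1.2 ∧ e.1.2 < y + a + r) :
    (Matrix.toEuclideanLin (MxD (CQ (n + 1)) (cylF (n + 1) y (y + a + r + a)) (fun _ => 1) c
      (lvF n y) (lvF n (y + a + r + a)))ᵀ : HN (n + 1) →ₗ[ℂ] HN (n + 1)) =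
      ((2 : ℂ) ^ ((n + 1) * (2 * a + r))) •
        (tL (n + 1) (π / 6) ^ a * jL n (y + a) r c * tL (n + 1) (π / 6) ^ a) := by
  rw [MxD_slab y a r ha hr hc, Matrix.transpose_mul, Matrix.transpose_mul, Matrix.transpose_pow,
    rT_transpose, toL_mul, toL_mul, toL_rT_pow]
  unfold jL
  rw [toL_smul]
  simp only [smul_mul_assoc, mul_smul_comm, smul_smul]
  rw [← mul_assoc]
  congr 1
  have h2 : (2 : ℂ) ^ ((n + 1) * r) ≠ 0 := pow_ne_zero _ two_ne_zero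
  have e1 : (2 : ℂ) ^ ((n + 1) * (2 * a + r)) =
      2 ^ ((n + 1) * a) * 2 ^ ((n + 1) * a) * 2 ^ ((n + 1) * r) := by
    rw [← pow_add, ← pow_add]
    congr 1
    ring
  rw [e1]
  field_simp

end ops

/-! ## The vectors -/

section vectors

variable {V Φ : Type} [DecidableEq V] [DecidableEq Φ]

/-- the vector of the upper part -/
def zvec (Q : QC V Φ) (F : Finset Φ) (h : V × V → ℂ) {N : ℕ} (m : Fin N → V × V) : HN N :=
  WithLp.toLp 2 fun s => Z6 Q F (fun a => h a * pin m s a)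

/-- the vector of the lower part -/
def dvec (Q : QC V Φ) (F : Finset Φ) (h : V × V → ℂ) {N : ℕ} (m : Fin N → V × V) : HN N :=
  WithLp.toLp 2 fun s => conj (Z6 Q F (fun a => h a * pin m s a))

theorem zvec_apply (Q : QC V Φ) (F : Finset Φ) (h : V × V → ℂ) {N : ℕ} (m : Fin N → V × V)
    (s : Fin N → Bool) : zvec Q F h m s = Z6 Q F (fun a => h a * pin m s a) := rfl

theorem dvec_apply (Q : QC V Φ) (F : Finset Φ) (h : V × V → ℂ) {N : ℕ} (m : Fin N → V × V)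
    (s : Fin N → Bool) : dvec Q F h m s = conj (Z6 Q F (fun a => h a * pin m s a)) := rfl

theorem dvec_eq (Q : QC V Φ) (F : Finset Φ) (h : V × V → ℂ) {N : ℕ} (m : Fin N → V × V) :
    dvec Q F h m = zvec Q F (fun a => conj (h a)) m := by
  ext s
  rw [zvec_apply, dvec_apply, conj_Z6]
  congr 1
  funext a
  rw [map_mul, conj_pin]

/-- **Shifts.** -/
theorem zvec_shift (Q : QC V Φ) (F : Finset Φ) (h : V × V → ℂ) {n : ℕ} (m : Fin (n + 1) → V × V)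
    (k : ℕ) : zvec Q F h (fun j => m (j + Fin.ofNat (n + 1) k)) =
      (tL (n + 1) 0 ^ k) (zvec Q F h m) := by
  ext s
  rw [tL_zero_pow_apply, zvec_apply, zvec_apply]
  congr 1
  funext a
  congr 1
  unfold pin
  congr 1
  apply propext
  constructor
  · rintro ⟨i, h1⟩
    refine ⟨i + Fin.ofNat (n + 1) k, ?_⟩
    simpa using h1
  · rintro ⟨i, h1⟩
    refine ⟨i - Fin.ofNat (n + 1) k, ?_⟩
    simpa using h1

theorem dvec_shift (Q : QC V Φ) (F : Finset Φ) (h : V × V → ℂ) {n : ℕ} (m : Fin (n + 1) → V × V)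
    (k : ℕ) : dvec Q F h (fun j => m (j + Fin.ofNat (n + 1) k)) =
      (tL (n + 1) 0 ^ k) (dvec Q F h m) := by
  rw [dvec_eq, dvec_eq, zvec_shift]

/-- matrix element -/
theorem inner_toL {N : ℕ} (Q Q' : QC V Φ) (L U : Finset Φ) (h h' : V × V → ℂ)
    (b t : Fin N → V × V) (M : Matrix (Fin N → Bool) (Fin N → Bool) ℂ) :
    ⟪dvec Q L h b, Matrix.toEuclideanLin Mᵀ (zvec Q' U h' t)⟫_ℂ =
      ∑ s', ∑ s, Z6 Q L (fun a => h a * pin b s a) * M s' s * Z6 Q' U (fun a => h' a * pin t s' a) := by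
  rw [PiLp.inner_apply, Finset.sum_comm]
  refine Finset.sum_congr rfl fun s _ => ?_
  have e1 : (Matrix.toEuclideanLin Mᵀ (zvec Q' U h' t) : HN N) s =
      ∑ s', M s' s * Z6 Q' U (fun a => h' a * pin t s' a) := rfl
  rw [e1, dvec_apply]
  simp only [RCLike.inner_apply, Complex.conj_conj]
  rw [Finset.sum_mul]
  refine Finset.sum_congr rfl fun s' _ => ?_
  ring

/-- norm of the upper vector -/
theorem norm_zvec (Q : QC V Φ) (U : Finset Φ) (h : V × V → ℂ) {N : ℕ} (m : Fin N → V × V)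
    (hm : OneSided Q U m) :
    ‖zvec Q U h m‖ ^ 2 = (Z6 (dbl Q U m hm) (cpy U false ∪ cpy U true) (dblH m h)).re := by
  rw [sum_normSq_re hm, EuclideanSpace.norm_sq_eq]
  rfl

/-- norm of the lower vector -/
theorem norm_dvec (Q : QC V Φ) (L : Finset Φ) (h : V × V → ℂ) {N : ℕ} (m : Fin N → V × V)
    (hm' : Fam m) (hm : OneSided Q L (revFam m)) :
    ‖dvec Q L h m‖ ^ 2 =
      (Z6 (dbl Q L (revFam m) hm) (cpy L false ∪ cpy L true) (dblH (revFam m) h)).re := by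
  rw [sum_normSq_re hm, EuclideanSpace.norm_sq_eq]
  have e1 := sum_norm_revFam hm' (fun g => Z6 Q L (fun a => h a * g a))
  rw [e1]
  refine Finset.sum_congr rfl fun s _ => ?_
  rw [dvec_apply, RCLike.norm_conj]

end vectors

/-! ## Charts -/

section charts

open _root_.Pool.Agent.SixB.Rel (QChart)

variable {V Φ V' Φ' : Type} [DecidableEq V] [DecidableEq Φ] [DecidableEq V'] [DecidableEq Φ']
variable {Q : QC V Φ} {Q' : QC V' Φ'} {F : Finset Φ} {φ : V → V'} {ψ : Φ → Φ'}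

theorem Z6_chart (H : QChart Q Q' F φ ψ 0) {h : V × V → ℂ} {h' : V' × V' → ℂ}
    (hh : ∀ a ∈ dE Q F, h' (Prod.map φ φ a) = h a) : Z6 Q' (F.image ψ) h' = Z6 Q F h := by
  have hinj : Set.InjOn (Prod.map φ φ) (dE Q F : Set (V × V)) := fun a ha b hb e =>
    H.inj_dE (by exact_mod_cast ha) (by exact_mod_cast hb) e
  refine Z6_transport ψ H.injOn (Prod.map φ φ) hinj (fun _ => rfl) (H.dE_map (Finset.Subset.refl _))
    h h' ?_ hh
  intro f hf α hα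
  congr 1
  funext k
  have e1 : sd Q' (ψ f) k = Prod.map φ φ (sd Q f k) := by
    have h0 := H.cor f hf k
    have h1 := H.cor f hf (k + 1)
    rw [add_zero] at h0 h1
    exact Prod.ext h0 h1
  rw [e1]
  have h2 := Finset.mem_powerset.mp (Finset.mem_filter.mp hα).1
  apply decide_eq_decide.mpr
  rw [Finset.mem_image]
  constructor
  · rintro ⟨b, hb, e⟩
    rw [← H.inj_dE (h2 hb) (sd_mem hf k) e]
    exact hb
  · intro h3
    exact ⟨_, h3, rfl⟩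

theorem pin_chart (H : QChart Q Q' F φ ψ 0) {ι : Type} {m : ι → V × V} (hm : ∀ i, m i ∈ dE Q F)
    (s : ι → Bool) {a : V × V} (ha : a ∈ dE Q F) :
    pin (fun i => Prod.map φ φ (m i)) s (Prod.map φ φ a) = pin m s a := by
  unfold pin
  congr 1
  apply propext
  constructor
  · rintro ⟨i, ⟨e, h⟩ | ⟨e, h⟩⟩
    · exact ⟨i, Or.inl ⟨H.inj_dE ha (hm i) e, h⟩⟩
    · exact ⟨i, Or.inr ⟨H.inj_dE ha (swap_mem_dE.mpr (hm i)) e, h⟩⟩
  · rintro ⟨i, ⟨rfl, h⟩ | ⟨rfl, h⟩⟩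
    · exact ⟨i, Or.inl ⟨rfl, h⟩⟩
    · exact ⟨i, Or.inr ⟨rfl, h⟩⟩

theorem Z6D_chart (H : QChart Q Q' F φ ψ 0) {h : V × V → ℂ} {h' : V' × V' → ℂ}
    (hh : ∀ a ∈ dE Q F, h' (Prod.map φ φ a) = h a) {c : V × V → ℝ} {c' : V' × V' → ℝ}
    (hc : ∀ a ∈ dE Q F, c' (Prod.map φ φ a) = c a) :
    Z6D Q' (F.image ψ) h' c' = Z6D Q F h c := by
  rw [Z6D_eq, Z6D_eq, H.dE_map (Finset.Subset.refl _), Finset.sum_image (fun a ha b hb e =>
    H.inj_dE ha hb e)]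
  refine Finset.sum_congr rfl fun e he => ?_
  rw [hc e he, Z6_chart H (h := fun a => h a * kil e a)]
  intro a ha
  rw [hh a ha]
  congr 1
  unfold kil
  have h1 : (Prod.map φ φ a = (Prod.map φ φ e).swap) ↔ a = e.swap := by
    constructor
    · intro h2
      exact H.inj_dE ha (swap_mem_dE.mpr he) h2
    · rintro rfl
      rfl
  rw [if_congr h1 rfl rfl]

theorem MxD_chart (H : QChart Q Q' F φ ψ 0) {ι κ : Type} {b : ι → V × V} {t : κ → V × V}
    (hb : ∀ i, b i ∈ dE Q F) (ht : ∀ i, t i ∈ dE Q F) {c : V × V → ℝ} {c' : V' × V' → ℝ}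
    (hc : ∀ a ∈ dE Q F, c' (Prod.map φ φ a) = c a) :
    MxD Q' (F.image ψ) (fun _ => 1) c' (fun i => Prod.map φ φ (b i))
      (fun i => Prod.map φ φ (t i)) = MxD Q F (fun _ => 1) c b t := by
  ext s' s
  unfold MxD
  refine Z6D_chart H (fun a ha => ?_) hc
  rw [pin_chart H hb s ha, pin_chart H ht s' ha]

/-- transport of an upper vector by an isomorphism of the pieces -/
theorem zvec_chart (H : QChart Q Q' F φ ψ 0) {h : V × V → ℂ} {h' : V' × V' → ℂ}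
    (hh : ∀ a ∈ dE Q F, h' (Prod.map φ φ a) = h a) {N : ℕ} {m : Fin N → V × V}
    (hm : ∀ i, m i ∈ dE Q F) :
    zvec Q' (F.image ψ) h' (fun i => Prod.map φ φ (m i)) = zvec Q F h m := by
  ext s
  rw [zvec_apply, zvec_apply]
  refine Z6_chart H fun a ha => ?_
  rw [hh a ha, pin_chart H hm s ha]

theorem dvec_chart (H : QChart Q Q' F φ ψ 0) {h : V × V → ℂ} {h' : V' × V' → ℂ}
    (hh : ∀ a ∈ dE Q F, h' (Prod.map φ φ a) = h a) {N : ℕ} {m : Fin N → V × V}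
    (hm : ∀ i, m i ∈ dE Q F) :
    dvec Q' (F.image ψ) h' (fun i => Prod.map φ φ (m i)) = dvec Q F h m := by
  rw [dvec_eq, dvec_eq]
  exact zvec_chart H (fun a ha => by rw [hh a ha]) hm

end charts

/-! ## The sandwich -/

section env

variable {V Φ : Type} [DecidableEq V] [DecidableEq Φ] {n : ℕ} [hn : Fact (3 ≤ n + 1)]

/-- A surface `L ∪ S ∪ U` with a slab `S` of `2 a + r` full rows of the cylinder. -/
structure SWE (Q : QC V Φ) (L U : Finset Φ) (φ : ZMod (n + 1) × ℤ → V) (ψ : ZMod (n + 1) × ℤ → Φ)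
    (y₀ : ℤ) (a r : ℕ) (h : V × V → ℂ) : Prop where
  ch : Rel.QChart (CQ (n + 1)) Q (cylF (n + 1) y₀ (y₀ + a + r + a)) φ ψ 0
  dLS : Disjoint L ((cylF (n + 1) y₀ (y₀ + a + r + a)).image ψ)
  dU : Disjoint (L ∪ (cylF (n + 1) y₀ (y₀ + a + r + a)).image ψ) U
  cb : cE Q L ((cylF (n + 1) y₀ (y₀ + a + r + a)).image ψ) =
    eds fun j => Prod.map φ φ (lvF n y₀ j)
  ct : cE Q (L ∪ (cylF (n + 1) y₀ (y₀ + a + r + a)).image ψ) U =
    eds fun j => Prod.map φ φ (lvF n (y₀ + a + r + a) j)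
  sep : Disjoint (eds fun j => Prod.map φ φ (lvF n (y₀ + a + r + a) j)) (dE Q L)
  h1 : ∀ e ∈ dE Q ((cylF (n + 1) y₀ (y₀ + a + r + a)).image ψ), h e = 1

theorem lvF_mem_bot {y₀ y₁ : ℤ} (h : y₀ < y₁) (j : Fin (n + 1)) :
    lvF n y₀ j ∈ dE (CQ (n + 1)) (cylF (n + 1) y₀ y₁) := by
  apply lvl_sub_bot h
  rw [← eds_lvF]
  exact mem_eds.mpr ⟨j, Or.inl rfl⟩

theorem lvF_mem_top {y₀ y₁ : ℤ} (h : y₀ < y₁) (j : Fin (n + 1)) :
    lvF n y₁ j ∈ dE (CQ (n + 1)) (cylF (n + 1) y₀ y₁) := by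
  apply lvl_sub_top h
  rw [← eds_lvF]
  exact mem_eds.mpr ⟨j, Or.inl rfl⟩

theorem fam_chart {y₀ y₁ y : ℤ} {Q : QC V Φ} {φ : ZMod (n + 1) × ℤ → V} {ψ : ZMod (n + 1) × ℤ → Φ}
    (H : Rel.QChart (CQ (n + 1)) Q (cylF (n + 1) y₀ y₁) φ ψ 0)
    (hy : ∀ j, lvF n y j ∈ dE (CQ (n + 1)) (cylF (n + 1) y₀ y₁)) :
    Fam fun j => Prod.map φ φ (lvF n y j) := by
  have hf := fam_lvF (n := n) y
  refine ⟨fun i j e => hf.1 i j (H.inj_dE (hy i) (hy j) e), fun i j e => ?_⟩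
  exact hf.2 i j (H.inj_dE (hy i) (swap_mem_dE.mpr (hy j)) e)

theorem tL_pow_adj (N a : ℕ) (x y : HN N) :
    ⟪x, (tL N (π / 6) ^ a) y⟫_ℂ = ⟪(tL N (π / 6) ^ a) x, y⟫_ℂ := by
  induction a generalizing x with
  | zero => rfl
  | succ a ih =>
    have e1 : (π : ℂ) / 3 - conj ((π : ℂ) / 6) = π / 6 := by
      have : conj ((π : ℂ) / 6) = π / 6 := by
        rw [map_div₀, Complex.conj_ofReal, map_ofNat]
      rw [this]
      ring
    have h2 := tL_adj N (π / 6) x ((tL N (π / 6) ^ a) y)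
    rw [e1] at h2
    rw [pow_succ', Module.End.mul_apply, ← h2, ih]
    congr 1
    rw [← Module.End.mul_apply, ← pow_succ, ← pow_succ']

variable {Q : QC V Φ} {L U : Finset Φ} {φ : ZMod (n + 1) × ℤ → V} {ψ : ZMod (n + 1) × ℤ → Φ}
  {y₀ : ℤ} {a r : ℕ} {h : V × V → ℂ}

/-- **The sandwich.** -/
theorem SWE.sandwich (E : SWE Q L U φ ψ y₀ a r h) (ha : 1 ≤ a) (hr : 1 ≤ r)
    {c : (ZMod (n + 1) × ℤ) × (ZMod (n + 1) × ℤ) → ℝ} {c' : V × V → ℝ}
    (hcc : ∀ e ∈ dE (CQ (n + 1)) (cylF (n + 1) y₀ (y₀ + a + r + a)), c' (Prod.map φ φ e) = c e)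
    (hc' : ∀ e, c' e ≠ 0 → e ∈ dE Q ((cylF (n + 1) y₀ (y₀ + a + r + a)).image ψ))
    (hc : ∀ e, c e ≠ 0 → e ∈ dE (CQ (n + 1)) (cylF (n + 1) (y₀ + a) (y₀ + a + r)) ∧
      y₀ + a < e.1.2 ∧ e.1.2 < y₀ + a + r) :
    Z6D Q (L ∪ (cylF (n + 1) y₀ (y₀ + a + r + a)).image ψ ∪ U) h c' =
      (2 : ℂ) ^ ((n + 1) * (2 * a + r)) *
        ⟪(tL (n + 1) (π / 6) ^ a) (dvec Q L h fun j => Prod.map φ φ (lvF n y₀ j)),
          jL n (y₀ + a) r c ((tL (n + 1) (π / 6) ^ a)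
            (zvec Q U h fun j => Prod.map φ φ (lvF n (y₀ + a + r + a) j)))⟫_ℂ := by
  have hlt : y₀ < y₀ + a + r + a := by omega
  have hb := lvF_mem_bot (n := n) hlt
  have ht := lvF_mem_top (n := n) hlt
  have key : ∀ e, c' e ≠ 0 → ∃ e₀ ∈ dE (CQ (n + 1)) (cylF (n + 1) y₀ (y₀ + a + r + a)),
      Prod.map φ φ e₀ = e ∧ y₀ < e₀.1.2 ∧ e₀.1.2 < y₀ + a + r + a := by
    intro e he
    have h2 := hc' e he
    rw [E.ch.dE_map (Finset.Subset.refl _)] at h2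
    obtain ⟨e₀, h3, rfl⟩ := Finset.mem_image.mp h2
    rw [hcc e₀ h3] at he
    obtain ⟨-, h4, h5⟩ := hc e₀ he
    exact ⟨e₀, h3, rfl, by omega, by omega⟩
  have lev : ∀ (y : ℤ) (e₀ : (ZMod (n + 1) × ℤ) × (ZMod (n + 1) × ℤ)),
      e₀ ∈ dE (CQ (n + 1)) (cylF (n + 1) y₀ (y₀ + a + r + a)) →
      (∀ j, lvF n y j ∈ dE (CQ (n + 1)) (cylF (n + 1) y₀ (y₀ + a + r + a))) →
      Prod.map φ φ e₀ ∈ (eds fun j => Prod.map φ φ (lvF n y j)) → e₀.1.2 = y := by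
    intro y e₀ h3 hy h4
    obtain ⟨j, h5 | h5⟩ := mem_eds.mp h4
    · rw [E.ch.inj_dE h3 (hy j) h5]
      rfl
    · have h6 : e₀ = (lvF n y j).swap := E.ch.inj_dE h3 (swap_mem_dE.mpr (hy j)) h5
      rw [h6]
      rfl
  rw [Z6D_three E.dLS E.dU (fam_chart E.ch hb) (fam_chart E.ch ht) E.cb E.ct E.sep E.h1,
    MxD_chart E.ch hb ht hcc, ← inner_toL, slab_op y₀ a r ha hr hc, ← tL_pow_adj]
  · rw [LinearMap.smul_apply, inner_smul_right]
    rfl
  · intro e he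
    obtain ⟨e₀, h3, rfl, h4, h5⟩ := key e he
    have hS := hc' _ he
    refine ⟨hS, fun h6 => ?_, fun h6 => ?_⟩
    · have h7 : Prod.map φ φ e₀ ∈ cE Q L ((cylF (n + 1) y₀ (y₀ + a + r + a)).image ψ) :=
        Finset.mem_inter.mpr ⟨h6, hS⟩
      rw [E.cb] at h7
      have := lev y₀ e₀ h3 hb h7
      omega
    · have h7 : Prod.map φ φ e₀ ∈ cE Q (L ∪ (cylF (n + 1) y₀ (y₀ + a + r + a)).image ψ) U :=
        Finset.mem_inter.mpr ⟨dE_sub_right hS, h6⟩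
      rw [E.ct] at h7
      have := lev (y₀ + a + r + a) e₀ h3 ht h7
      omega

/-- matrix element of a shifted environment -/
theorem SWE.elt (E : SWE Q L U φ ψ y₀ a r h) (ha : 1 ≤ a) (hr : 1 ≤ r)
    {c : (ZMod (n + 1) × ℤ) × (ZMod (n + 1) × ℤ) → ℝ} {c' : V × V → ℝ}
    (hcc : ∀ e ∈ dE (CQ (n + 1)) (cylF (n + 1) y₀ (y₀ + a + r + a)), c' (Prod.map φ φ e) = c e)
    (hc' : ∀ e, c' e ≠ 0 → e ∈ dE Q ((cylF (n + 1) y₀ (y₀ + a + r + a)).image ψ))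
    (hc : ∀ e, c e ≠ 0 → e ∈ dE (CQ (n + 1)) (cylF (n + 1) (y₀ + a) (y₀ + a + r)) ∧
      y₀ + a < e.1.2 ∧ e.1.2 < y₀ + a + r) {x y : ℕ} {d u : HN (n + 1)}
    (hd : (dvec Q L h fun j => Prod.map φ φ (lvF n y₀ j)) = (W2 (n + 1) ^ x) d)
    (hu : (zvec Q U h fun j => Prod.map φ φ (lvF n (y₀ + a + r + a) j)) = (W2 (n + 1) ^ y) u) :
    ⟪(tL (n + 1) (π / 6) ^ a) ((W2 (n + 1) ^ x) d),
        jL n (y₀ + a) r c ((tL (n + 1) (π / 6) ^ a) ((W2 (n + 1) ^ y) u))⟫_ℂ =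
      ((2 : ℂ) ^ ((n + 1) * (2 * a + r)))⁻¹ *
        Z6D Q (L ∪ (cylF (n + 1) y₀ (y₀ + a + r + a)).image ψ ∪ U) h c' := by
  rw [E.sandwich ha hr hcc hc' hc, hd, hu, ← mul_assoc, inv_mul_cancel₀, one_mul]
  exact pow_ne_zero _ two_ne_zero

open _root_.Pool.Agent.SixB.Rel (QChart)

variable {V' Φ' : Type} [DecidableEq V'] [DecidableEq Φ'] {Q' : QC V' Φ'}

/-- the vector of an upper part which is moved by `2 y` sides against the slab -/
theorem zvec_move {φ' : V → V'} {ψ' : Φ → Φ'} (H : QChart Q Q' U φ' ψ' 0) {h' : V' × V' → ℂ}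
    (hh : ∀ a ∈ dE Q U, h' (Prod.map φ' φ' a) = h a) {top : Fin (n + 1) → V × V}
    {top' : Fin (n + 1) → V' × V'} (hm : ∀ i, top i ∈ dE Q U) (y : ℕ)
    (htop : ∀ j, top' j = Prod.map φ' φ' (top (j + Fin.ofNat (n + 1) (2 * y)))) :
    zvec Q' (U.image ψ') h' top' = (W2 (n + 1) ^ y) (zvec Q U h top) := by
  have e1 : top' = fun j => Prod.map φ' φ' (top (j + Fin.ofNat (n + 1) (2 * y))) := funext htop
  rw [e1, zvec_chart H hh (m := fun j => top (j + Fin.ofNat (n + 1) (2 * y))) (fun i => hm _),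
    zvec_shift, pow_mul]

theorem dvec_move {φ' : V → V'} {ψ' : Φ → Φ'} (H : QChart Q Q' L φ' ψ' 0) {h' : V' × V' → ℂ}
    (hh : ∀ a ∈ dE Q L, h' (Prod.map φ' φ' a) = h a) {bot : Fin (n + 1) → V × V}
    {bot' : Fin (n + 1) → V' × V'} (hm : ∀ i, bot i ∈ dE Q L) (x : ℕ)
    (hbot : ∀ j, bot' j = Prod.map φ' φ' (bot (j + Fin.ofNat (n + 1) (2 * x)))) :
    dvec Q' (L.image ψ') h' bot' = (W2 (n + 1) ^ x) (dvec Q L h bot) := by
  have e1 : bot' = fun j => Prod.map φ' φ' (bot (j + Fin.ofNat (n + 1) (2 * x))) := funext hbot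
  rw [e1, dvec_chart H hh (m := fun j => bot (j + Fin.ofNat (n + 1) (2 * x))) (fun i => hm _),
    dvec_shift, pow_mul]

/-- the adjoint of the insertion -/
def jL' (n : ℕ) [Fact (3 ≤ n + 1)] (y : ℤ) (r : ℕ)
    (c : (ZMod (n + 1) × ℤ) × (ZMod (n + 1) × ℤ) → ℝ) : HN (n + 1) →ₗ[ℂ] HN (n + 1) :=
  Matrix.toEuclideanLin ((((2 : ℂ) ^ ((n + 1) * r))⁻¹) •
    (MxD (CQ (n + 1)) (cylF (n + 1) y (y + r)) (fun _ => 1) c (lvF n y) (lvF n (y + r)))ᵀ)ᴴ

theorem jL_adj (y : ℤ) (r : ℕ) (c : (ZMod (n + 1) × ℤ) × (ZMod (n + 1) × ℤ) → ℝ)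
    (u v : HN (n + 1)) : ⟪jL' n y r c u, v⟫_ℂ = ⟪u, jL n y r c v⟫_ℂ := by
  unfold jL' jL
  rw [Matrix.toEuclideanLin_conjTranspose_eq_adjoint, LinearMap.adjoint_inner_left]

/-- **Construction of `CylData`.** -/
theorem cylData {B C tol L₀ : ℝ} {P : ℕ → ℕ → Prop} {zU zD : ℝ} {zJ : ℕ → ℕ → ℂ}
    (y₁ : ℤ) (c : (ZMod (n + 1) × ℤ) × (ZMod (n + 1) × ℤ) → ℝ)
    (hbdd : ∀ x, ‖jL n y₁ r c x‖ ≤ B * ‖x‖) (haN : a ≤ n + 1) (hL₀ : L₀ ≤ a)
    {X0 X1 X2 : ℝ} (hX0 : 1 / 2 ≤ X0) (hX0' : X0 ≤ C) (hX1 : 1 / 2 ≤ X1) (hX1' : X1 ≤ C)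
    (hX2 : 1 / 2 ≤ X2) (hX2' : X2 ≤ C) (d u : HN (n + 1)) (νd νu : ℝ)
    (hd : νd ^ 2 * ‖d‖ ^ 2 ≤ X1 * zD + tol) (hu : νu ^ 2 * ‖u‖ ^ 2 ≤ X2 * zU + tol)
    (helt : ∀ x y, P x y → ‖((νd * νu : ℝ) : ℂ) *
      ⟪(tL (n + 1) (π / 6) ^ a) ((W2 (n + 1) ^ x) d),
        jL n y₁ r c ((tL (n + 1) (π / 6) ^ a) ((W2 (n + 1) ^ y) u))⟫_ℂ - X0 * zJ x y‖ ≤ tol) :
    Nonempty (CylData (n + 1) B C tol L₀ P zU zD zJ) := by
  refine ⟨{
    d := (νd : ℂ) • d
    u := (νu : ℂ) • u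
    J := jL n y₁ r c
    J' := jL' n y₁ r c
    a := a
    X0 := X0
    X1 := X1
    X2 := X2
    adj := fun x y => jL_adj y₁ r c x y
    bdd := hbdd
    haN := haN
    ha := hL₀
    hX0 := hX0
    hX0' := hX0'
    hX1 := hX1
    hX1' := hX1'
    hX2 := hX2
    hX2' := hX2'
    hd := ?_
    hu := ?_
    elt := ?_ }⟩
  · rw [norm_smul, mul_pow, Complex.norm_real, Real.norm_eq_abs, sq_abs]
    exact hd
  · rw [norm_smul, mul_pow, Complex.norm_real, Real.norm_eq_abs, sq_abs]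
    exact hu
  · intro x y hP
    have h1 := helt x y hP
    simp only [map_smul, inner_smul_left, inner_smul_right, Complex.conj_ofReal]
    rw [← mul_assoc]
    push_cast at h1
    rw [mul_comm (νu : ℂ) (νd : ℂ)]
    exact h1

end env

end Sand

end

end Pool.Agent.SixB
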