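import Pool.Agent.Lib.SixB.S3CylSurf
import Pool.Agent.Lib.SixB.S3EnvN
import Pool.Agent.Lib.SixB.S3Sandwich

/-!
# 6BD step 3: surfaces with a slab of full rows, parts shifted against each other (row R17)

* `SlabS S`: base sheet `s0`, gluing `σ X Y`, holes `Hu`, `Hl` and faces of the other sheets `Ku`, `Kl` of the upper and
  of the lower part; `E.sf X Y : Surf S`: the upper part shifted by `X` columns, the lower part by `Y`.
* `E.Ok y₀ y₁`: the rows `y₀ ≤ y < y₁` are full and separate the two parts.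
* over the cylinder: `E.UN`, `E.SN`, `E.LN`; `FN_split`, `swe`, `u_move`, `d_move`.
-/

set_option autoImplicit false
set_option linter.unusedSectionVars false

namespace Pool.Agent.SixB

open Pool.Agent.Perc Pool.Agent.Perc.Q Relation
open Pool.Agent.SixB.Rel (QChart GlueZ GlueC Cov bxC vb aZ mem_bxC mem_RF0 cor0_le mem_aZ RF0_mono
  face_of_cor0 botE topE mem_botE mem_topE pN_inj)

noncomputable section

/-- faces of the other sheets shifted by `X` columns -/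
def shK {S : Type} [DecidableEq S] (X : ℤ) (K : Finset (S × (ℤ × ℤ))) : Finset (S × (ℤ × ℤ)) :=
  K.image (Prod.map id (shv X))

/-- a surface with a slab -/
structure SlabS (S : Type) where
  s0 : S
  σ : ℤ → ℤ → ℤ × ℤ → ZMod 4 → Equiv.Perm S
  Hu : Finset (ℤ × ℤ)
  Hl : Finset (ℤ × ℤ)
  Ku : Finset (S × (ℤ × ℤ))
  Kl : Finset (S × (ℤ × ℤ))

namespace SlabS

variable {S : Type} [DecidableEq S]

/-- the upper part shifted by `X` columns, the lower part by `Y` -/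
def sf (E : SlabS S) (X Y : ℤ) : Surf S :=
  ⟨E.s0, E.σ X Y, shF X E.Hu ∪ shF Y E.Hl, shK X E.Ku ∪ shK Y E.Kl⟩

/-- the rows `y₀ ≤ y < y₁` are full and separate the parts -/
structure Ok (E : SlabS S) (y₀ y₁ : ℤ) : Prop where
  hlt : y₀ < y₁
  Hu : ∀ g ∈ E.Hu, y₁ < g.2
  Hl : ∀ g ∈ E.Hl, g.2 < y₀ - 1
  K0u : ∀ f ∈ E.Ku, f.1 ≠ E.s0
  K0l : ∀ f ∈ E.Kl, f.1 ≠ E.s0
  base : ∀ X Y g k, g ∉ shF X E.Hu → g ∉ shF Y E.Hl → E.σ X Y g k E.s0 = E.s0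
  mu : ∀ f ∈ E.Ku, ∀ X Y k, E.σ X Y (shv X f.2) k f.1 = E.σ 0 0 f.2 k f.1
  ml : ∀ f ∈ E.Kl, ∀ X Y k, E.σ X Y (shv Y f.2) k f.1 = E.σ 0 0 f.2 k f.1
  cu : ∀ f ∈ E.Ku, ∀ k, E.σ 0 0 f.2 k f.1 = E.s0 → y₁ < (ZQ.c f.2 k).2
  cl : ∀ f ∈ E.Kl, ∀ k, E.σ 0 0 f.2 k f.1 = E.s0 → (ZQ.c f.2 k).2 < y₀
  sep : ∀ f ∈ E.Ku, ∀ f' ∈ E.Kl, ∀ k l, E.σ 0 0 f.2 k f.1 = E.σ 0 0 f'.2 l f'.1 →
    E.σ 0 0 f.2 k f.1 = E.s0

variable {E : SlabS S} {y₀ y₁ L X Y M : ℤ}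

theorem c_shv (X : ℤ) (f : ℤ × ℤ) (k : ZMod 4) : ZQ.c (shv X f) k = shv X (ZQ.c f k) := by
  rcases k4_cases k with rfl | rfl | rfl | rfl
  · rfl
  · exact Prod.ext (by show f.1 + X + 1 = f.1 + 1 + X; ring) rfl
  · exact Prod.ext (by show f.1 + X + 1 = f.1 + 1 + X; ring) rfl
  · rfl

/-! ## Over the cylinder -/

section Cyl

variable {N : ℕ} [hN : Fact (3 ≤ N)] (E)

/-- the upper part -/
def UN (N : ℕ) [Fact (3 ≤ N)] (X y₁ M : ℤ) : Finset (S × (ZMod N × ℤ)) :=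
  ((cylF N y₁ M \ (shF X E.Hu).image (pN N)).image (Prod.mk E.s0)) ∪
    (shK X E.Ku).image (Surf.chi S N)

/-- the lower part -/
def LN (N : ℕ) [Fact (3 ≤ N)] (Y M y₀ : ℤ) : Finset (S × (ZMod N × ℤ)) :=
  ((cylF N (-M) y₀ \ (shF Y E.Hl).image (pN N)).image (Prod.mk E.s0)) ∪
    (shK Y E.Kl).image (Surf.chi S N)

/-- the slab -/
def SN (N : ℕ) [Fact (3 ≤ N)] (y₀ y₁ : ℤ) : Finset (S × (ZMod N × ℤ)) :=
  (cylF N y₀ y₁).image (Prod.mk E.s0)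

variable {E}

theorem mem_part {s0 : S} {F : Finset (ZMod N × ℤ)} {H : Finset (ℤ × ℤ)} {K : Finset (S × (ℤ × ℤ))}
    {f : S × (ZMod N × ℤ)} : f ∈ ((F \ (shF X H).image (pN N)).image (Prod.mk s0)) ∪
      (shK X K).image (Surf.chi S N) ↔
    (f.1 = s0 ∧ f.2 ∈ F ∧ ∀ g ∈ H, pN N (shv X g) ≠ f.2) ∨
      ∃ f' ∈ K, Surf.chi S N (f'.1, shv X f'.2) = f := by
  rw [Finset.mem_union, Finset.mem_image, Finset.mem_image]
  constructor
  · rintro (⟨g, hg, rfl⟩ | ⟨f', hf', rfl⟩)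
    · obtain ⟨h1, h2⟩ := Finset.mem_sdiff.mp hg
      exact Or.inl ⟨rfl, h1, fun g' hg' e => h2 (Finset.mem_image.mpr
        ⟨_, Finset.mem_image_of_mem _ hg', e⟩)⟩
    · obtain ⟨f'', hf'', rfl⟩ := Finset.mem_image.mp hf'
      exact Or.inr ⟨f'', hf'', rfl⟩
  · rintro (⟨h1, h2, h3⟩ | ⟨f', hf', rfl⟩)
    · refine Or.inl ⟨f.2, Finset.mem_sdiff.mpr ⟨h2, fun h4 => ?_⟩, by rw [← h1]⟩
      obtain ⟨g', hg', e⟩ := Finset.mem_image.mp h4
      obtain ⟨g, hg, rfl⟩ := Finset.mem_image.mp hg'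
      exact h3 g hg e
    · exact Or.inr ⟨_, Finset.mem_image_of_mem _ hf', rfl⟩

theorem mem_UN {f : S × (ZMod N × ℤ)} : f ∈ E.UN N X y₁ M ↔
    (f.1 = E.s0 ∧ f.2 ∈ cylF N y₁ M ∧ ∀ g ∈ E.Hu, pN N (shv X g) ≠ f.2) ∨
      ∃ f' ∈ E.Ku, Surf.chi S N (f'.1, shv X f'.2) = f := mem_part

theorem mem_LN {f : S × (ZMod N × ℤ)} : f ∈ E.LN N Y M y₀ ↔
    (f.1 = E.s0 ∧ f.2 ∈ cylF N (-M) y₀ ∧ ∀ g ∈ E.Hl, pN N (shv Y g) ≠ f.2) ∨
      ∃ f' ∈ E.Kl, Surf.chi S N (f'.1, shv Y f'.2) = f := mem_part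

theorem mem_SN {f : S × (ZMod N × ℤ)} : f ∈ E.SN N y₀ y₁ ↔ f.1 = E.s0 ∧ f.2 ∈ cylF N y₀ y₁ := by
  unfold SN
  rw [Finset.mem_image]
  constructor
  · rintro ⟨g, hg, rfl⟩
    exact ⟨rfl, hg⟩
  · rintro ⟨h1, h2⟩
    exact ⟨f.2, h2, by rw [← h1]⟩

/-- **The three parts.** -/
theorem FN_split (hE : E.Ok y₀ y₁) (h0 : -M ≤ y₀) (h1 : y₁ ≤ M) (X Y : ℤ) :
    (E.sf X Y).FN N M = E.LN N Y M y₀ ∪ E.SN N y₀ y₁ ∪ E.UN N X y₁ M := by
  have hlt := hE.hlt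
  ext f
  rw [Surf.mem_FN, Finset.mem_union, Finset.mem_union, mem_LN, mem_UN, mem_SN, mem_cylF, mem_cylF,
    mem_cylF, mem_cylF]
  constructor
  · rintro (⟨h2, h3, h4⟩ | ⟨f', hf', rfl⟩)
    · have hu : ∀ g ∈ E.Hu, pN N (shv X g) ≠ f.2 := fun g hg =>
        h4 _ (Finset.mem_union_left _ (Finset.mem_image_of_mem _ hg))
      have hl : ∀ g ∈ E.Hl, pN N (shv Y g) ≠ f.2 := fun g hg =>
        h4 _ (Finset.mem_union_right _ (Finset.mem_image_of_mem _ hg))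
      rcases lt_or_ge f.2.2 y₀ with h5 | h5
      · exact Or.inl (Or.inl (Or.inl ⟨h2, ⟨h3.1, h5⟩, hl⟩))
      · rcases lt_or_ge f.2.2 y₁ with h6 | h6
        · exact Or.inl (Or.inr ⟨h2, h5, h6⟩)
        · exact Or.inr (Or.inl ⟨h2, ⟨h6, h3.2⟩, hu⟩)
    · rcases Finset.mem_union.mp hf' with h | h
      · obtain ⟨f'', hf'', rfl⟩ := Finset.mem_image.mp h
        exact Or.inr (Or.inr ⟨f'', hf'', rfl⟩)
      · obtain ⟨f'', hf'', rfl⟩ := Finset.mem_image.mp h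
        exact Or.inl (Or.inl (Or.inr ⟨f'', hf'', rfl⟩))
  · have key : ∀ g ∈ shF X E.Hu ∪ shF Y E.Hl, (f.2.2 < y₁ ∨ ∀ g ∈ E.Hu, pN N (shv X g) ≠ f.2) →
        (y₀ ≤ f.2.2 + 1 ∨ ∀ g ∈ E.Hl, pN N (shv Y g) ≠ f.2) → pN N g ≠ f.2 := by
      intro g hg hu hl e
      rcases Finset.mem_union.mp hg with h | h
      · obtain ⟨g', hg', rfl⟩ := Finset.mem_image.mp h
        rcases hu with hu | hu
        · have h5 := hE.Hu _ hg'
          have h6 : g'.2 = f.2.2 := (congrArg Prod.snd e)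
          omega
        · exact hu _ hg' e
      · obtain ⟨g', hg', rfl⟩ := Finset.mem_image.mp h
        rcases hl with hl | hl
        · have h5 := hE.Hl _ hg'
          have h6 : g'.2 = f.2.2 := (congrArg Prod.snd e)
          omega
        · exact hl _ hg' e
    rintro (((⟨h2, h3, h4⟩ | ⟨f', hf', rfl⟩) | ⟨h2, h3⟩) | (⟨h2, h3, h4⟩ | ⟨f', hf', rfl⟩))
    · exact Or.inl ⟨h2, by omega, fun g hg => key g hg (Or.inl (by omega)) (Or.inr h4)⟩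
    · exact Or.inr ⟨_, Finset.mem_union_right _ (Finset.mem_image_of_mem _ hf'), rfl⟩
    · exact Or.inl ⟨h2, by omega, fun g hg => key g hg (Or.inl (by omega)) (Or.inl (by omega))⟩
    · exact Or.inl ⟨h2, by omega, fun g hg => key g hg (Or.inr h4) (Or.inl (by omega))⟩
    · exact Or.inr ⟨_, Finset.mem_union_left _ (Finset.mem_image_of_mem _ hf'), rfl⟩

/-! ## Corners of the parts -/

theorem c_Ku (hE : E.Ok y₀ y₁) (hI : (E.sf X Y).In L) (hN' : 2 * L < N) {f : S × (ℤ × ℤ)}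
    (hf : f ∈ E.Ku) (k : ZMod 4) :
    ((E.sf X Y).QN N).c (Surf.chi S N (f.1, shv X f.2)) k =
      (E.σ 0 0 f.2 k f.1, pN N (shv X (ZQ.c f.2 k))) := by
  have h1 : (f.1, shv X f.2) ∈ (E.sf X Y).K :=
    Finset.mem_union_left _ (Finset.mem_image_of_mem (Prod.map id (shv X)) hf)
  have h2 := mem_RF0.mp (hI.K _ h1)
  rw [Surf.QN_c]
  have h3 : (Surf.chi S N (f.1, shv X f.2)).2 = pN N (shv X f.2) := rfl
  rw [h3, Surf.σN_eq hI le_rfl hN' (by rw [abs_le]; exact ⟨h2.1, h2.2.1.le⟩) k, Surf.corC_chi, c_shv]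
  refine Prod.ext ?_ rfl
  exact hE.mu f hf X Y k

theorem c_Kl (hE : E.Ok y₀ y₁) (hI : (E.sf X Y).In L) (hN' : 2 * L < N) {f : S × (ℤ × ℤ)}
    (hf : f ∈ E.Kl) (k : ZMod 4) :
    ((E.sf X Y).QN N).c (Surf.chi S N (f.1, shv Y f.2)) k =
      (E.σ 0 0 f.2 k f.1, pN N (shv Y (ZQ.c f.2 k))) := by
  have h1 : (f.1, shv Y f.2) ∈ (E.sf X Y).K :=
    Finset.mem_union_right _ (Finset.mem_image_of_mem (Prod.map id (shv Y)) hf)
  have h2 := mem_RF0.mp (hI.K _ h1)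
  rw [Surf.QN_c]
  have h3 : (Surf.chi S N (f.1, shv Y f.2)).2 = pN N (shv Y f.2) := rfl
  rw [h3, Surf.σN_eq hI le_rfl hN' (by rw [abs_le]; exact ⟨h2.1, h2.2.1.le⟩) k, Surf.corC_chi, c_shv]
  refine Prod.ext ?_ rfl
  exact hE.ml f hf X Y k

theorem c_base (hI : (E.sf X Y).In L) {f : S × (ZMod N × ℤ)} (h1 : f.1 = E.s0)
    (h2 : ∀ g ∈ E.Hu, pN N (shv X g) ≠ f.2) (h3 : ∀ g ∈ E.Hl, pN N (shv Y g) ≠ f.2) (k : ZMod 4) :
    ((E.sf X Y).QN N).c f k = (E.s0, (CQ N).c f.2 k) := by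
  rw [Surf.QN_c, h1]
  refine Prod.ext ?_ rfl
  refine Surf.σN_base hI (fun g hg => ?_) k
  rcases Finset.mem_union.mp hg with h | h
  · obtain ⟨g', hg', rfl⟩ := Finset.mem_image.mp h
    exact h2 _ hg'
  · obtain ⟨g', hg', rfl⟩ := Finset.mem_image.mp h
    exact h3 _ hg'

/-- corners of the upper part: in the base sheet at least at the height `y₁`, otherwise of `Ku` -/
theorem cor_U (hE : E.Ok y₀ y₁) (hI : (E.sf X Y).In L) (hN' : 2 * L < N) {f : S × (ZMod N × ℤ)}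
    (hf : f ∈ E.UN N X y₁ M) (k : ZMod 4) :
    ((((E.sf X Y).QN N).c f k).1 = E.s0 → y₁ ≤ (((E.sf X Y).QN N).c f k).2.2) ∧
      ((((E.sf X Y).QN N).c f k).1 = E.s0 ∨ ∃ f' ∈ E.Ku,
        (((E.sf X Y).QN N).c f k).1 = E.σ 0 0 f'.2 k f'.1) := by
  have hlt := hE.hlt
  rcases mem_UN.mp hf with ⟨h1, h2, h3⟩ | ⟨f', hf', rfl⟩
  · have h4 := mem_cylF.mp h2
    rw [c_base hI h1 h3 (fun g hg e => by
      have h5 := hE.Hl _ hg
      have h6 : g.2 = f.2.2 := congrArg Prod.snd e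
      omega) k]
    refine ⟨fun _ => ?_, Or.inl rfl⟩
    show y₁ ≤ ((CQ N).c f.2 k).2
    rcases Rel.GlueC.corner_y f.2 k with h5 | h5 <;> rw [h5] <;> omega
  · rw [c_Ku hE hI hN' hf']
    exact ⟨fun h => (hE.cu f' hf' k h).le, Or.inr ⟨f', hf', rfl⟩⟩

theorem cor_L (hE : E.Ok y₀ y₁) (hI : (E.sf X Y).In L) (hN' : 2 * L < N) {f : S × (ZMod N × ℤ)}
    (hf : f ∈ E.LN N Y M y₀) (k : ZMod 4) :
    ((((E.sf X Y).QN N).c f k).1 = E.s0 → (((E.sf X Y).QN N).c f k).2.2 ≤ y₀) ∧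
      ((((E.sf X Y).QN N).c f k).1 = E.s0 ∨ ∃ f' ∈ E.Kl,
        (((E.sf X Y).QN N).c f k).1 = E.σ 0 0 f'.2 k f'.1) := by
  have hlt := hE.hlt
  rcases mem_LN.mp hf with ⟨h1, h2, h3⟩ | ⟨f', hf', rfl⟩
  · have h4 := mem_cylF.mp h2
    rw [c_base hI h1 (fun g hg e => by
      have h5 := hE.Hu _ hg
      have h6 : g.2 = f.2.2 := congrArg Prod.snd e
      omega) h3 k]
    refine ⟨fun _ => ?_, Or.inl rfl⟩
    show ((CQ N).c f.2 k).2 ≤ y₀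
    rcases Rel.GlueC.corner_y f.2 k with h5 | h5 <;> rw [h5] <;> omega
  · rw [c_Kl hE hI hN' hf']
    exact ⟨fun h => (hE.cl f' hf' k h).le, Or.inr ⟨f', hf', rfl⟩⟩

/-- the two parts have no common corner -/
theorem cor_LU (hE : E.Ok y₀ y₁) (hI : (E.sf X Y).In L) (hN' : 2 * L < N)
    {f f' : S × (ZMod N × ℤ)} (hf : f ∈ E.LN N Y M y₀) (hf' : f' ∈ E.UN N X y₁ M) (k l : ZMod 4)
    (h : ((E.sf X Y).QN N).c f k = ((E.sf X Y).QN N).c f' l) : False := by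
  have hlt := hE.hlt
  obtain ⟨h1, h2⟩ := cor_L hE hI hN' hf k
  obtain ⟨h3, h4⟩ := cor_U hE hI hN' hf' l
  rw [← h] at h3 h4
  have key : (((E.sf X Y).QN N).c f k).1 = E.s0 → False := by
    intro h5
    have := h1 h5
    have := h3 h5
    omega
  rcases h2 with h2 | ⟨g, hg, h2⟩
  · exact key h2
  · rcases h4 with h4 | ⟨g', hg', h4⟩
    · exact key h4
    · exact key (h4.trans (hE.sep g' hg' g hg l k (h4.symm.trans h2)))

/-- the chart of the slab -/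
theorem ch_S (hE : E.Ok y₀ y₁) (hI : (E.sf X Y).In L) :
    QChart (CQ N) ((E.sf X Y).QN N) (cylF N y₀ y₁) (Prod.mk E.s0) (Prod.mk E.s0) 0 := by
  refine Surf.baseN_chart (E := E.sf X Y) hI ?_
  intro f hf g hg e
  have h1 := mem_cylF.mp hf
  have h2 : g.2 = f.2 := congrArg Prod.snd e
  rcases Finset.mem_union.mp hg with h | h
  · obtain ⟨g', hg', rfl⟩ := Finset.mem_image.mp h
    have h3 := hE.Hu _ hg'
    have h4 : g'.2 = f.2 := h2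
    omega
  · obtain ⟨g', hg', rfl⟩ := Finset.mem_image.mp h
    have h3 := hE.Hl _ hg'
    have h4 : g'.2 = f.2 := h2
    omega

theorem dE_S (hE : E.Ok y₀ y₁) (hI : (E.sf X Y).In L) :
    dE ((E.sf X Y).QN N) (E.SN N y₀ y₁) =
      (dE (CQ N) (cylF N y₀ y₁)).image (Prod.map (Prod.mk E.s0) (Prod.mk E.s0)) :=
  (ch_S hE hI).dE_map (Finset.Subset.refl _)

/-- heights of base sheet sides of the parts -/
theorem dE_U (hE : E.Ok y₀ y₁) (hI : (E.sf X Y).In L) (hN' : 2 * L < N)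
    {b : (ZMod N × ℤ) × (ZMod N × ℤ)}
    (h : Prod.map (Prod.mk E.s0) (Prod.mk E.s0) b ∈ dE ((E.sf X Y).QN N) (E.UN N X y₁ M)) :
    y₁ ≤ b.1.2 ∧ y₁ ≤ b.2.2 := by
  obtain ⟨⟨g, hg, l, e1⟩, g', hg', l', e2⟩ := Rel.GlueC.dE_corner h
  have h1 := (cor_U hE hI hN' hg l).1
  have h2 := (cor_U hE hI hN' hg' l').1
  rw [← e1] at h1
  rw [← e2] at h2
  exact ⟨h1 rfl, h2 rfl⟩

theorem dE_L (hE : E.Ok y₀ y₁) (hI : (E.sf X Y).In L) (hN' : 2 * L < N)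
    {b : (ZMod N × ℤ) × (ZMod N × ℤ)}
    (h : Prod.map (Prod.mk E.s0) (Prod.mk E.s0) b ∈ dE ((E.sf X Y).QN N) (E.LN N Y M y₀)) :
    b.1.2 ≤ y₀ ∧ b.2.2 ≤ y₀ := by
  obtain ⟨⟨g, hg, l, e1⟩, g', hg', l', e2⟩ := Rel.GlueC.dE_corner h
  have h1 := (cor_L hE hI hN' hg l).1
  have h2 := (cor_L hE hI hN' hg' l').1
  rw [← e1] at h1
  rw [← e2] at h2
  exact ⟨h1 rfl, h2 rfl⟩

theorem dE_LU (hE : E.Ok y₀ y₁) (hI : (E.sf X Y).In L) (hN' : 2 * L < N) :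
    Disjoint (dE ((E.sf X Y).QN N) (E.LN N Y M y₀)) (dE ((E.sf X Y).QN N) (E.UN N X y₁ M)) := by
  rw [Finset.disjoint_left]
  intro a ha ha'
  obtain ⟨⟨g, hg, l, e1⟩, -⟩ := Rel.GlueC.dE_corner ha
  obtain ⟨⟨g', hg', l', e2⟩, -⟩ := Rel.GlueC.dE_corner ha'
  exact cor_LU hE hI hN' hg hg' l l' (e1.symm.trans e2)

theorem disj_LU (hE : E.Ok y₀ y₁) (hI : (E.sf X Y).In L) (hN' : 2 * L < N) :
    Disjoint (E.LN N Y M y₀) (E.UN N X y₁ M) := by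
  rw [Finset.disjoint_left]
  intro f hf hf'
  exact cor_LU hE hI hN' hf hf' 0 0 rfl

theorem disj_LS (hE : E.Ok y₀ y₁) : Disjoint (E.LN N Y M y₀) (E.SN N y₀ y₁) := by
  rw [Finset.disjoint_left]
  intro f hf hf'
  obtain ⟨h1, h2⟩ := mem_SN.mp hf'
  have h3 := mem_cylF.mp h2
  rcases mem_LN.mp hf with ⟨-, h4, -⟩ | ⟨f'', hf'', rfl⟩
  · have h5 := mem_cylF.mp h4
    omega
  · exact hE.K0l _ hf'' h1

theorem disj_SU (hE : E.Ok y₀ y₁) : Disjoint (E.SN N y₀ y₁) (E.UN N X y₁ M) := by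
  rw [Finset.disjoint_left]
  intro f hf' hf
  obtain ⟨h1, h2⟩ := mem_SN.mp hf'
  have h3 := mem_cylF.mp h2
  rcases mem_UN.mp hf with ⟨-, h4, -⟩ | ⟨f'', hf'', rfl⟩
  · have h5 := mem_cylF.mp h4
    omega
  · exact hE.K0u _ hf'' h1

/-! ## The levels -/

/-- a base face over the cylinder -/
theorem sd_base (hI : (E.sf X Y).In L) {g : ZMod N × ℤ}
    (h2 : ∀ g' ∈ E.Hu, pN N (shv X g') ≠ g) (h3 : ∀ g' ∈ E.Hl, pN N (shv Y g') ≠ g) (k : ZMod 4) :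
    sd ((E.sf X Y).QN N) (E.s0, g) k = Prod.map (Prod.mk E.s0) (Prod.mk E.s0) (sd (CQ N) g k) := by
  unfold sd
  rw [c_base hI (f := (E.s0, g)) rfl h2 h3, c_base hI (f := (E.s0, g)) rfl h2 h3]
  rfl

theorem lvl_sub_L (hE : E.Ok y₀ y₁) (hI : (E.sf X Y).In L) (h0 : -M < y₀)
    {b : (ZMod N × ℤ) × (ZMod N × ℤ)} (hb : b ∈ lvl N y₀) :
    Prod.map (Prod.mk E.s0) (Prod.mk E.s0) b ∈ dE ((E.sf X Y).QN N) (E.LN N Y M y₀) := by
  have hlt := hE.hlt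
  obtain ⟨x, hx⟩ := mem_lvl.mp hb
  have h1 : ∀ g' ∈ E.Hu, pN N (shv X g') ≠ (x, y₀ - 1) := by
    intro g hg e
    have h5 := hE.Hu _ hg
    have h6 : g.2 = y₀ - 1 := congrArg Prod.snd e
    omega
  have h2 : ∀ g' ∈ E.Hl, pN N (shv Y g') ≠ (x, y₀ - 1) := by
    intro g hg e
    have h5 := hE.Hl _ hg
    have h6 : g.2 = y₀ - 1 := congrArg Prod.snd e
    omega
  have h3 : (E.s0, (x, y₀ - 1)) ∈ E.LN N Y M y₀ :=
    mem_LN.mpr (Or.inl ⟨rfl, mem_cylF_mk.mpr ⟨by omega, by omega⟩, h2⟩)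
  have h4 := sd_mem (Q := (E.sf X Y).QN N) h3 2
  rw [sd_base hI h1 h2] at h4
  have h5 : (sd (CQ N) (x, y₀ - 1) 2).swap = bE x y₀ := by
    have := csd_swap_2 (N := N) x (y₀ - 1)
    rw [this, sub_add_cancel]
    rfl
  rcases hx with rfl | rfl
  · rw [← h5]
    exact swap_mem_dE.mpr h4
  · rw [← h5, Prod.swap_swap]
    exact h4

theorem lvl_sub_U (hE : E.Ok y₀ y₁) (hI : (E.sf X Y).In L) (h1 : y₁ < M)
    {b : (ZMod N × ℤ) × (ZMod N × ℤ)} (hb : b ∈ lvl N y₁) :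
    Prod.map (Prod.mk E.s0) (Prod.mk E.s0) b ∈ dE ((E.sf X Y).QN N) (E.UN N X y₁ M) := by
  have hlt := hE.hlt
  obtain ⟨x, hx⟩ := mem_lvl.mp hb
  have h1' : ∀ g' ∈ E.Hu, pN N (shv X g') ≠ (x, y₁) := by
    intro g hg e
    have h5 := hE.Hu _ hg
    have h6 : g.2 = y₁ := congrArg Prod.snd e
    omega
  have h2 : ∀ g' ∈ E.Hl, pN N (shv Y g') ≠ (x, y₁) := by
    intro g hg e
    have h5 := hE.Hl _ hg
    have h6 : g.2 = y₁ := congrArg Prod.snd e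
    omega
  have h3 : (E.s0, (x, y₁)) ∈ E.UN N X y₁ M :=
    mem_UN.mpr (Or.inl ⟨rfl, mem_cylF_mk.mpr ⟨le_rfl, h1⟩, h1'⟩)
  have h4 := sd_mem (Q := (E.sf X Y).QN N) h3 0
  rw [sd_base hI h1' h2] at h4
  rcases hx with rfl | rfl
  · exact h4
  · exact swap_mem_dE.mpr h4

theorem cE_LS (hE : E.Ok y₀ y₁) (hI : (E.sf X Y).In L) (hN' : 2 * L < N) (h0 : -M < y₀) :
    cE ((E.sf X Y).QN N) (E.LN N Y M y₀) (E.SN N y₀ y₁) =
      (lvl N y₀).image (Prod.map (Prod.mk E.s0) (Prod.mk E.s0)) := by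
  apply Finset.Subset.antisymm
  · intro a ha
    obtain ⟨h1, h2⟩ := Finset.mem_inter.mp ha
    rw [dE_S hE hI] at h2
    obtain ⟨b, hb, rfl⟩ := Finset.mem_image.mp h2
    have h3 := dE_L hE hI hN' h1
    have h4 := Rel.GlueC.unit_y hb
    exact Finset.mem_image_of_mem _ (mem_lvl_of_height hb (by omega) (by omega))
  · intro a ha
    obtain ⟨b, hb, rfl⟩ := Finset.mem_image.mp ha
    refine Finset.mem_inter.mpr ⟨lvl_sub_L hE hI h0 hb, ?_⟩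
    rw [dE_S hE hI]
    exact Finset.mem_image_of_mem _ (lvl_sub_bot hE.hlt hb)

theorem cE_SU (hE : E.Ok y₀ y₁) (hI : (E.sf X Y).In L) (hN' : 2 * L < N) (h1 : y₁ < M) :
    cE ((E.sf X Y).QN N) (E.LN N Y M y₀ ∪ E.SN N y₀ y₁) (E.UN N X y₁ M) =
      (lvl N y₁).image (Prod.map (Prod.mk E.s0) (Prod.mk E.s0)) := by
  apply Finset.Subset.antisymm
  · intro a ha
    obtain ⟨h1, h2⟩ := Finset.mem_inter.mp ha
    rw [Rel.GlueC.dE_union'] at h1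
    rcases h1 with h1 | h1
    · exact absurd h2 (Finset.disjoint_left.mp (dE_LU hE hI hN') h1)
    · rw [dE_S hE hI] at h1
      obtain ⟨b, hb, rfl⟩ := Finset.mem_image.mp h1
      have h3 := dE_U hE hI hN' h2
      have h4 := Rel.GlueC.unit_y hb
      exact Finset.mem_image_of_mem _ (mem_lvl_of_height hb (by omega) (by omega))
  · intro a ha
    obtain ⟨b, hb, rfl⟩ := Finset.mem_image.mp ha
    refine Finset.mem_inter.mpr ⟨?_, lvl_sub_U hE hI h1 hb⟩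
    apply dE_mono Finset.subset_union_right
    rw [dE_S hE hI]
    exact Finset.mem_image_of_mem _ (lvl_sub_top hE.hlt hb)

theorem sep_L (hE : E.Ok y₀ y₁) (hI : (E.sf X Y).In L) (hN' : 2 * L < N) :
    Disjoint ((lvl N y₁).image (Prod.map (Prod.mk E.s0) (Prod.mk E.s0)))
      (dE ((E.sf X Y).QN N) (E.LN N Y M y₀)) := by
  rw [Finset.disjoint_left]
  intro a ha ha'
  obtain ⟨b, hb, rfl⟩ := Finset.mem_image.mp ha
  have h1 := dE_L hE hI hN' ha'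
  have h2 := lvl_height hb
  have h3 := hE.hlt
  omega

/-! ## Shifts of the parts -/

/-- translation over the cylinder -/
def shN (S : Type) (N : ℕ) (X : ℤ) (f : S × (ZMod N × ℤ)) : S × (ZMod N × ℤ) :=
  (f.1, (f.2.1 + (X : ZMod N), f.2.2))

theorem shN_inj {X : ℤ} {f g : S × (ZMod N × ℤ)} (h : shN S N X f = shN S N X g) : f = g := by
  have h1 := Prod.mk.inj h
  have h2 := Prod.mk.inj h1.2
  exact Prod.ext h1.1 (Prod.ext (add_right_cancel h2.1) h2.2)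

theorem shN_chi (X : ℤ) (s : S) (v : ℤ × ℤ) :
    shN S N X (s, pN N v) = (s, pN N (shv X v)) := by
  refine Prod.ext rfl (Prod.ext ?_ rfl)
  show ((v.1 : ℤ) : ZMod N) + (X : ZMod N) = ((v.1 + X : ℤ) : ZMod N)
  push_cast
  rfl

theorem cC_sh (X : ℤ) (g : ZMod N × ℤ) (k : ZMod 4) :
    (CQ N).c (g.1 + (X : ZMod N), g.2) k = (((CQ N).c g k).1 + (X : ZMod N), ((CQ N).c g k).2) := by
  change corC N _ k = ((corC N g k).1 + (X : ZMod N), (corC N g k).2)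
  rcases k4_cases k with rfl | rfl | rfl | rfl
  · rw [corC_0, corC_0]
  · rw [corC_1, corC_1]
    exact Prod.ext (by show g.1 + (X : ZMod N) + 1 = g.1 + 1 + (X : ZMod N); ring) rfl
  · rw [corC_2, corC_2]
    exact Prod.ext (by show g.1 + (X : ZMod N) + 1 = g.1 + 1 + (X : ZMod N); ring) rfl
  · rw [corC_3, corC_3]

theorem part_shift (s0 : S) (a b : ℤ) (H : Finset (ℤ × ℤ)) (K : Finset (S × (ℤ × ℤ))) (X : ℤ) :
    (((cylF N a b \ (shF 0 H).image (pN N)).image (Prod.mk s0)) ∪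
      (shK 0 K).image (Surf.chi S N)).image (shN S N X) =
    ((cylF N a b \ (shF X H).image (pN N)).image (Prod.mk s0)) ∪
      (shK X K).image (Surf.chi S N) := by
  have e0 : ∀ v : ℤ × ℤ, shv 0 v = v := fun v => Prod.ext (add_zero _) rfl
  ext f
  rw [Finset.mem_image]
  constructor
  · rintro ⟨f', hf', rfl⟩
    rcases mem_part.mp hf' with ⟨h1, h2, h3⟩ | ⟨g, hg, rfl⟩
    · refine mem_part.mpr (Or.inl ⟨h1, ?_, fun g hg e => ?_⟩)
      · rw [mem_cylF] at h2 ⊢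
        exact h2
      · refine h3 g hg ?_
        rw [e0]
        have h4 := Prod.mk.inj e
        refine Prod.ext ?_ h4.2
        have h5 : ((g.1 + X : ℤ) : ZMod N) = f'.2.1 + (X : ZMod N) := h4.1
        push_cast at h5
        exact add_right_cancel h5
    · refine mem_part.mpr (Or.inr ⟨g, hg, ?_⟩)
      have e1 : Surf.chi S N (g.1, shv 0 g.2) = (g.1, pN N g.2) := by rw [e0]; rfl
      rw [e1, shN_chi]
      rfl
  · intro hf
    rcases mem_part.mp hf with ⟨h1, h2, h3⟩ | ⟨g, hg, rfl⟩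
    · refine ⟨(f.1, (f.2.1 - (X : ZMod N), f.2.2)), mem_part.mpr (Or.inl ⟨h1, ?_, fun g hg e => ?_⟩), ?_⟩
      · rw [mem_cylF] at h2 ⊢
        exact h2
      · refine h3 g hg ?_
        rw [e0] at e
        have h4 := Prod.mk.inj e
        refine Prod.ext ?_ h4.2
        have h5 : ((g.1 : ℤ) : ZMod N) = f.2.1 - (X : ZMod N) := h4.1
        show ((g.1 + X : ℤ) : ZMod N) = f.2.1
        push_cast
        rw [h5]
        ring
      · exact Prod.ext rfl (Prod.ext (by show f.2.1 - (X : ZMod N) + X = f.2.1; ring) rfl)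
    · refine ⟨(g.1, pN N g.2), mem_part.mpr (Or.inr ⟨g, hg, by rw [e0]; rfl⟩), ?_⟩
      rw [shN_chi]
      rfl

theorem UN_shift (X y₁ M : ℤ) : (E.UN N 0 y₁ M).image (shN S N X) = E.UN N X y₁ M :=
  part_shift _ _ _ _ _ _

theorem LN_shift (Y M y₀ : ℤ) : (E.LN N 0 M y₀).image (shN S N Y) = E.LN N Y M y₀ :=
  part_shift _ _ _ _ _ _

/-- the chart of the shifted upper part -/
theorem U_chart (hE : E.Ok y₀ y₁) (hI0 : (E.sf 0 0).In L) (hI : (E.sf X Y).In L) (hN' : 2 * L < N) :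
    QChart ((E.sf 0 0).QN N) ((E.sf X Y).QN N) (E.UN N 0 y₁ M) (shN S N X) (shN S N X) 0 where
  inj f _ g _ k l h := shN_inj h
  cor f hf k := by
    rw [add_zero]
    have hlt := hE.hlt
    have hf' : shN S N X f ∈ E.UN N X y₁ M := by
      rw [← UN_shift]
      exact Finset.mem_image_of_mem _ hf
    have lo : ∀ (Z : ℤ) (g : ZMod N × ℤ), y₁ ≤ g.2 → ∀ g' ∈ E.Hl, pN N (shv Z g') ≠ g := by
      intro Z g h g' hg' e
      have h5 := hE.Hl _ hg'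
      have h6 : g'.2 = g.2 := congrArg Prod.snd e
      omega
    rcases mem_UN.mp hf with ⟨h1, h2, h3⟩ | ⟨g, hg, rfl⟩
    · rcases mem_UN.mp hf' with ⟨h4, h5, h6⟩ | ⟨g, hg, h4⟩
      · have h7 := mem_cylF.mp h2
        rw [c_base hI0 h1 h3 (lo 0 _ h7.1), c_base hI h4 h6 (lo Y _ h7.1)]
        exact Prod.ext rfl (cC_sh X f.2 k)
      · exfalso
        have h5 : g.1 = f.1 := congrArg Prod.fst h4
        exact hE.K0u _ hg (h5.trans h1)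
    · have e0 : shN S N X (Surf.chi S N (g.1, shv 0 g.2)) = Surf.chi S N (g.1, shv X g.2) := by
        have e1 : shv 0 g.2 = g.2 := Prod.ext (add_zero _) rfl
        rw [e1]
        exact shN_chi X g.1 g.2
      rw [e0, c_Ku hE hI hN' hg, c_Ku hE hI0 hN' hg, shN_chi]
      have e1 : shv 0 (ZQ.c g.2 k) = ZQ.c g.2 k := Prod.ext (add_zero _) rfl
      rw [e1]

/-- the chart of the shifted lower part -/
theorem L_chart (hE : E.Ok y₀ y₁) (hI0 : (E.sf 0 0).In L) (hI : (E.sf X Y).In L) (hN' : 2 * L < N) :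
    QChart ((E.sf 0 0).QN N) ((E.sf X Y).QN N) (E.LN N 0 M y₀) (shN S N Y) (shN S N Y) 0 where
  inj f _ g _ k l h := shN_inj h
  cor f hf k := by
    rw [add_zero]
    have hlt := hE.hlt
    have hf' : shN S N Y f ∈ E.LN N Y M y₀ := by
      rw [← LN_shift]
      exact Finset.mem_image_of_mem _ hf
    have up : ∀ (Z : ℤ) (g : ZMod N × ℤ), g.2 < y₀ → ∀ g' ∈ E.Hu, pN N (shv Z g') ≠ g := by
      intro Z g h g' hg' e
      have h5 := hE.Hu _ hg'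
      have h6 : g'.2 = g.2 := congrArg Prod.snd e
      omega
    rcases mem_LN.mp hf with ⟨h1, h2, h3⟩ | ⟨g, hg, rfl⟩
    · rcases mem_LN.mp hf' with ⟨h4, h5, h6⟩ | ⟨g, hg, h4⟩
      · have h7 := mem_cylF.mp h2
        rw [c_base hI0 h1 (up 0 _ h7.2) h3, c_base hI h4 (up X _ h7.2) h6]
        exact Prod.ext rfl (cC_sh Y f.2 k)
      · exfalso
        have h5 : g.1 = f.1 := congrArg Prod.fst h4
        exact hE.K0l _ hg (h5.trans h1)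
    · have e0 : shN S N Y (Surf.chi S N (g.1, shv 0 g.2)) = Surf.chi S N (g.1, shv Y g.2) := by
        have e1 : shv 0 g.2 = g.2 := Prod.ext (add_zero _) rfl
        rw [e1]
        exact shN_chi Y g.1 g.2
      rw [e0, c_Kl hE hI hN' hg, c_Kl hE hI0 hN' hg, shN_chi]
      have e1 : shv 0 (ZQ.c g.2 k) = ZQ.c g.2 k := Prod.ext (add_zero _) rfl
      rw [e1]

end Cyl

/-! ## The sandwich -/

section swe

open Sand

variable {n : ℕ} [hn : Fact (3 ≤ n + 1)]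

theorem eds_lv {V : Type} [DecidableEq V] (y : ℤ) (φ : ZMod (n + 1) × ℤ → V) :
    (eds fun j => Prod.map φ φ (lvF n y j)) = (lvl (n + 1) y).image (Prod.map φ φ) := by
  rw [← eds_lvF]
  ext a
  rw [mem_eds, Finset.mem_image]
  constructor
  · rintro ⟨j, rfl | rfl⟩
    · exact ⟨_, mem_eds.mpr ⟨j, Or.inl rfl⟩, rfl⟩
    · exact ⟨_, mem_eds.mpr ⟨j, Or.inr rfl⟩, rfl⟩
  · rintro ⟨b, hb, rfl⟩
    obtain ⟨j, rfl | rfl⟩ := mem_eds.mp hb
    · exact ⟨j, Or.inl rfl⟩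
    · exact ⟨j, Or.inr rfl⟩

/-- **The slab of the surface.** -/
theorem swe {a r : ℕ} (hE : E.Ok y₀ (y₀ + a + r + a)) (hI : (E.sf X Y).In L)
    (hN' : 2 * L < ((n + 1 : ℕ) : ℤ)) (h0 : -M < y₀) (h1 : y₀ + a + r + a < M)
    {h : (S × (ZMod (n + 1) × ℤ)) × (S × (ZMod (n + 1) × ℤ)) → ℂ}
    (hh : ∀ e ∈ dE ((E.sf X Y).QN (n + 1)) (E.SN (n + 1) y₀ (y₀ + a + r + a)), h e = 1) :
    SWE ((E.sf X Y).QN (n + 1)) (E.LN (n + 1) Y M y₀) (E.UN (n + 1) X (y₀ + a + r + a) M)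
      (Prod.mk E.s0) (Prod.mk E.s0) y₀ a r h where
  ch := ch_S hE hI
  dLS := disj_LS hE
  dU := Finset.disjoint_union_left.mpr ⟨disj_LU hE hI hN', disj_SU hE⟩
  cb := by
    rw [eds_lv]
    exact cE_LS hE hI hN' h0
  ct := by
    rw [eds_lv]
    exact cE_SU hE hI hN' h1
  sep := by
    rw [eds_lv]
    exact sep_L hE hI hN'
  h1 := hh

theorem lv_move (y : ℤ) (x : ℕ) (j : Fin (n + 1)) :
    (Prod.map (Prod.mk E.s0) (Prod.mk E.s0) (lvF n y j) :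
      (S × (ZMod (n + 1) × ℤ)) × (S × (ZMod (n + 1) × ℤ))) =
    Prod.map (shN S (n + 1) (-(2 * x))) (shN S (n + 1) (-(2 * x)))
      (Prod.map (Prod.mk E.s0) (Prod.mk E.s0) (lvF n y (j + Fin.ofNat (n + 1) (2 * x)))) := by
  have key : ∀ j k : ZMod (n + 1), k = ((2 * x : ℕ) : ZMod (n + 1)) →
      (Prod.map (Prod.mk E.s0) (Prod.mk E.s0) (bE (N := n + 1) j y) :
        (S × (ZMod (n + 1) × ℤ)) × (S × (ZMod (n + 1) × ℤ))) =
      Prod.map (shN S (n + 1) (-(2 * x))) (shN S (n + 1) (-(2 * x)))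
        (Prod.map (Prod.mk E.s0) (Prod.mk E.s0) (bE (N := n + 1) (j + k) y)) := by
    intro j k hk
    have e1 : j = j + k + ((-(2 * x) : ℤ) : ZMod (n + 1)) := by
      rw [hk]
      push_cast
      ring
    refine Prod.ext (Prod.ext rfl (Prod.ext e1 rfl)) (Prod.ext rfl (Prod.ext ?_ rfl))
    show j + 1 = j + k + 1 + ((-(2 * x) : ℤ) : ZMod (n + 1))
    rw [add_right_comm, ← e1]
  exact key j (Fin.ofNat (n + 1) (2 * x)) rfl

/-- **The vector of the shifted upper part.** -/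
theorem u_move (hE : E.Ok y₀ y₁) (hI0 : (E.sf 0 0).In L) (y : ℕ)
    (hI : (E.sf (-(2 * y)) Y).In L) (hN' : 2 * L < ((n + 1 : ℕ) : ℤ)) (h1 : y₁ < M)
    {h h' : (S × (ZMod (n + 1) × ℤ)) × (S × (ZMod (n + 1) × ℤ)) → ℂ}
    (hh : ∀ a ∈ dE ((E.sf 0 0).QN (n + 1)) (E.UN (n + 1) 0 y₁ M),
      h' (Prod.map (shN S (n + 1) (-(2 * y))) (shN S (n + 1) (-(2 * y))) a) = h a) :
    zvec ((E.sf (-(2 * y)) Y).QN (n + 1)) (E.UN (n + 1) (-(2 * y)) y₁ M) h'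
        (fun j => Prod.map (Prod.mk E.s0) (Prod.mk E.s0) (lvF n y₁ j)) =
      (W2 (n + 1) ^ y) (zvec ((E.sf 0 0).QN (n + 1)) (E.UN (n + 1) 0 y₁ M) h
        (fun j => Prod.map (Prod.mk E.s0) (Prod.mk E.s0) (lvF n y₁ j))) := by
  rw [← UN_shift]
  refine zvec_move (U_chart hE hI0 hI hN') hh (fun i => ?_) y (fun j => lv_move y₁ y j)
  exact lvl_sub_U hE hI0 h1 (by rw [← eds_lvF]; exact mem_eds.mpr ⟨i, Or.inl rfl⟩)

/-- **The vector of the shifted lower part.** -/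
theorem d_move (hE : E.Ok y₀ y₁) (hI0 : (E.sf 0 0).In L) (x : ℕ)
    (hI : (E.sf X (-(2 * x))).In L) (hN' : 2 * L < ((n + 1 : ℕ) : ℤ)) (h0 : -M < y₀)
    {h h' : (S × (ZMod (n + 1) × ℤ)) × (S × (ZMod (n + 1) × ℤ)) → ℂ}
    (hh : ∀ a ∈ dE ((E.sf 0 0).QN (n + 1)) (E.LN (n + 1) 0 M y₀),
      h' (Prod.map (shN S (n + 1) (-(2 * x))) (shN S (n + 1) (-(2 * x))) a) = h a) :
    dvec ((E.sf X (-(2 * x))).QN (n + 1)) (E.LN (n + 1) (-(2 * x)) M y₀) h'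
        (fun j => Prod.map (Prod.mk E.s0) (Prod.mk E.s0) (lvF n y₀ j)) =
      (W2 (n + 1) ^ x) (dvec ((E.sf 0 0).QN (n + 1)) (E.LN (n + 1) 0 M y₀) h
        (fun j => Prod.map (Prod.mk E.s0) (Prod.mk E.s0) (lvF n y₀ j))) := by
  rw [← LN_shift]
  refine dvec_move (L_chart hE hI0 hI hN') hh (fun i => ?_) x (fun j => lv_move y₀ x j)
  exact lvl_sub_L hE hI0 h0 (by rw [← eds_lvF]; exact mem_eds.mpr ⟨i, Or.inl rfl⟩)

end swe

end SlabS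

end

end Pool.Agent.SixB
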