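import Pool.Agent.Lib.SixB.S3OpCylG
import Pool.Agent.Lib.SixB.S3AsmC
import Pool.Agent.Lib.SixB.S3SlabSurf

/-!
# 6BD step 3: the insertion on the cylinder (row R17)

* `cN N R f`: the gradient of `f` on the sides of the rectangle `R` of the plane, pushed to the cylinder of
  circumference `N`; `cN_map`, `cN_zero`, `cN_swap`, `cN_rows`.
* `jL_bdd`: the operator bound of the insertion.
* `SFam.jL_bdd`: the same for the insertion of a family of slabs (one constant for all radii).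
* `cS s0 c`: the one-form on the base sheet of a surface; `cS_mk`, `cS_mem` are the premises `hcc`, `hc'` of `SWE.elt`.
* `Z6D_cS`: `Z6D` of the surface with the insertion is the sum over `EP R`.
-/

set_option autoImplicit false
set_option linter.unusedSectionVars false

namespace Pool.Agent.SixB.Ins

open Pool.Agent.Perc Pool.Agent.Perc.Q Relation Pool.Agent.PercD
open Pool.Agent.SixB.Op (Inside BoxD)

noncomputable section

/-! ## The one-form on the cylinder -/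

/-- the gradient of `f` on the sides of `R`, pushed to the cylinder -/
def cN (N : ℕ) (R : Finset (ℤ × ℤ)) (f : ℤ × ℤ → ℝ) (a : (ZMod N × ℤ) × (ZMod N × ℤ)) : ℝ := by
  classical
  exact if h : ∃ b ∈ dE ZQ R, Prod.map (pN N) (pN N) b = a then f h.choose.2 - f h.choose.1 else 0

section cyl

variable {N : ℕ} [hN : Fact (3 ≤ N)] {v : ℤ × ℤ} {R : ℤ} {f : ℤ × ℤ → ℝ}

theorem map_inj (hRN : 2 * R < N) {b b' : (ℤ × ℤ) × (ℤ × ℤ)} (hb : b ∈ dE ZQ (BR v R))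
    (hb' : b' ∈ dE ZQ (BR v R)) (h : Prod.map (pN N) (pN N) b = Prod.map (pN N) (pN N) b') :
    b = b' := by
  have hω : ∀ g ∈ BR v R, (lc N (fun _ => true)) g = (fun _ => true) (pN N g) := fun _ _ => rfl
  exact (Op.chart_qmap hRN (ω := lc N (fun _ => true)) (ω' := fun _ => true) hω).inj_dE hb hb' h

theorem cN_map (hRN : 2 * R < N) {b : (ℤ × ℤ) × (ℤ × ℤ)} (hb : b ∈ dE ZQ (BR v R)) :
    cN N (BR v R) f (Prod.map (pN N) (pN N) b) = f b.2 - f b.1 := by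
  classical
  unfold cN
  have hx : ∃ b' ∈ dE ZQ (BR v R), Prod.map (pN N) (pN N) b' = Prod.map (pN N) (pN N) b :=
    ⟨b, hb, rfl⟩
  rw [dif_pos hx]
  obtain ⟨h1, h2⟩ := hx.choose_spec
  rw [map_inj hRN h1 hb h2]

theorem cN_zero {A : Finset (ℤ × ℤ)} {a : (ZMod N × ℤ) × (ZMod N × ℤ)}
    (h : ∀ b ∈ dE ZQ A, Prod.map (pN N) (pN N) b ≠ a) : cN N A f a = 0 := by
  classical
  unfold cN
  rw [dif_neg]
  rintro ⟨b, h1, h2⟩
  exact h b h1 h2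

theorem cN_supp (hRN : 2 * R < N) {a : (ZMod N × ℤ) × (ZMod N × ℤ)} (h : cN N (BR v R) f a ≠ 0) :
    ∃ b ∈ dE ZQ (BR v R), Prod.map (pN N) (pN N) b = a ∧ f b.2 ≠ f b.1 := by
  by_contra hcon
  push Not at hcon
  apply h
  by_cases hx : ∃ b ∈ dE ZQ (BR v R), Prod.map (pN N) (pN N) b = a
  · obtain ⟨b, h1, rfl⟩ := hx
    rw [cN_map hRN h1, hcon b h1 rfl, sub_self]
  · push Not at hx
    exact cN_zero hx

theorem cN_swap (hRN : 2 * R < N) (a : (ZMod N × ℤ) × (ZMod N × ℤ)) :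
    cN N (BR v R) f a.swap = -cN N (BR v R) f a := by
  by_cases hx : ∃ b ∈ dE ZQ (BR v R), Prod.map (pN N) (pN N) b = a
  · obtain ⟨b, h1, rfl⟩ := hx
    have e1 : (Prod.map (pN N) (pN N) b).swap = Prod.map (pN N) (pN N) b.swap := rfl
    rw [e1, cN_map hRN (swap_mem_dE.mpr h1), cN_map hRN h1]
    simp only [Prod.fst_swap, Prod.snd_swap]
    ring
  · push Not at hx
    rw [cN_zero hx, cN_zero, neg_zero]
    intro b hb h
    refine hx b.swap (swap_mem_dE.mpr hb) ?_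
    have e1 : Prod.map (pN N) (pN N) b.swap = (Prod.map (pN N) (pN N) b).swap := rfl
    rw [e1, h, Prod.swap_swap]

/-- the sides of the box in full rows -/
theorem map_mem (hRN : 2 * R < N) {y₀ y₁ : ℤ} (h0 : y₀ ≤ v.2 - R) (h1 : v.2 + R ≤ y₁)
    {b : (ℤ × ℤ) × (ℤ × ℤ)} (hb : b ∈ dE ZQ (BR v R)) :
    Prod.map (pN N) (pN N) b ∈ dE (CQ N) (cylF N y₀ y₁) := by
  have hω : ∀ g ∈ BR v R, (lc N (fun _ => true)) g = (fun _ => true) (pN N g) := fun _ _ => rfl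
  refine dE_mono (Op.image_sub h0 h1) ?_
  rw [(Op.chart_qmap hRN (ω := lc N (fun _ => true)) (ω' := fun _ => true) hω).dE_map]
  exact Finset.mem_image_of_mem _ hb

/-- **The insertion is in the interior of the rows**: premise `hc` of `SWE.elt`. -/
theorem cN_rows (hRN : 2 * R < N) (hf : Inside (v.1 - R) (v.1 + R) (v.2 - R) (v.2 + R) f) {y₀ y₁ : ℤ}
    (h0 : y₀ ≤ v.2 - R) (h1 : v.2 + R ≤ y₁) {e : (ZMod N × ℤ) × (ZMod N × ℤ)}
    (he : cN N (BR v R) f e ≠ 0) :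
    e ∈ dE (CQ N) (cylF N y₀ y₁) ∧ y₀ < e.1.2 ∧ e.1.2 < y₁ := by
  obtain ⟨b, h2, rfl, h3⟩ := cN_supp hRN he
  refine ⟨map_mem hRN h0 h1 h2, ?_⟩
  obtain ⟨-, -, i, hi⟩ := Op.dE_nbd (x₀ := v.1 - R) (x₁ := v.1 + R) (y₀ := v.2 - R) (y₁ := v.2 + R) h2
  have e2 : (Prod.map (pN N) (pN N) b).1.2 = b.1.2 := rfl
  rw [e2]
  by_contra h4
  have h5 : ¬ (v.1 - R < b.1.1 ∧ b.1.1 < v.1 + R ∧ v.2 - R < b.1.2 ∧ b.1.2 < v.2 + R) := by omega
  obtain ⟨h6, h7⟩ := Op.inside_nbd hf h5 i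
  apply h3
  have e3 : b.2 = Op.nbd i b.1 := congrArg Prod.snd hi
  rw [e3, h6, h7]

end cyl

/-! ## The operator bound -/

/-- **The insertion is bounded.** -/
theorem jL_bdd (K₀ : ℝ) (hK₀ : 0 ≤ K₀) : ∃ C : ℝ, 0 < C ∧ ∀ (n : ℕ) [Fact (3 ≤ n + 1)],
    Odd (n + 1) → ∀ (v : ℤ × ℤ) (K : ℕ) (R y : ℤ) (h : ℕ) (f : ℤ × ℤ → ℝ), BoxD v K R f K₀ →
      2 * R < ((n + 1 : ℕ) : ℤ) → y ≤ v.2 - R → v.2 + R ≤ y + h →
        ∀ x : HN (n + 1), ‖Sand.jL n y h (cN (n + 1) (BR v R) f) x‖ ≤ C * ‖x‖ := by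
  obtain ⟨C, hC, hJ⟩ := Op.MxD_bdd K₀ hK₀
  refine ⟨C, hC, ?_⟩
  intro n hn hodd v K R y h f hb hRN h0 h1 x
  have h2 := hJ n hodd v K R y (y + h) f hb hRN h0 h1 (cN (n + 1) (BR v R) f) (fun a ha => by
    rw [cN_map hRN ha]
    unfold Op.cB
    rw [if_pos ha]) (fun a _ ha => cN_zero ha) _ (Or.inr rfl) x
  have h3 : (cylF (n + 1) y (y + h)).card = (n + 1) * h := by
    have := Op.card_cylF (N := n + 1) (y₀ := y) (y₁ := y + h) (by omega)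
    have e1 : y + (h : ℤ) - y = h := by ring
    rw [e1] at this
    exact_mod_cast this
  rw [h3] at h2
  exact h2

/-! ## One direction of every side -/

theorem EP_swap {A : Finset (ℤ × ℤ)} {a : (ℤ × ℤ) × (ℤ × ℤ)} (h : a ∈ EP A) : a.swap ∉ EP A := by
  intro h'
  obtain ⟨-, b, hb⟩ := mem_EP.mp h
  obtain ⟨-, b', hb'⟩ := mem_EP.mp h'
  simp only [Prod.fst_swap, Prod.snd_swap] at hb'
  rw [hb] at hb'
  cases b <;> cases b' <;> simp [stp, Prod.ext_iff] at hb' <;> omega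

theorem EP_or {A : Finset (ℤ × ℤ)} {a : (ℤ × ℤ) × (ℤ × ℤ)} (h : a ∈ dE ZQ A) :
    a ∈ EP A ∨ a.swap ∈ EP A := by
  obtain ⟨⟨x, y⟩, hg, k, h1⟩ := mem_dE.mp h
  have h' := swap_mem_dE.mpr h
  rcases h1 with rfl | rfl <;> rcases k4_cases k with rfl | rfl | rfl | rfl
  · exact Or.inl (mem_EP.mpr ⟨h, false, rfl⟩)
  · exact Or.inl (mem_EP.mpr ⟨h, true, rfl⟩)
  · exact Or.inr (mem_EP.mpr ⟨h', false, rfl⟩)
  · exact Or.inr (mem_EP.mpr ⟨h', true, rfl⟩)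
  · exact Or.inr (mem_EP.mpr ⟨h', false, rfl⟩)
  · exact Or.inr (mem_EP.mpr ⟨h', true, rfl⟩)
  · exact Or.inl (mem_EP.mpr ⟨h, false, rfl⟩)
  · exact Or.inl (mem_EP.mpr ⟨h, true, rfl⟩)

section Z6D

variable {V Φ : Type} [DecidableEq V] [DecidableEq Φ]

/-- a one-form which is supported on the sides `P` (one direction) -/
theorem Z6D_supp {Q : QC V Φ} {F : Finset Φ} {h : V × V → ℂ} {c : V × V → ℝ}
    (hc : ∀ a, c a.swap = -c a) {P : Finset (V × V)} (hP : P ⊆ dE Q F)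
    (hP' : ∀ a ∈ P, a.swap ∉ P) (h0 : ∀ a ∈ dE Q F, a ∉ P → a.swap ∉ P → c a = 0) :
    Z6D Q F h c = ∑ e ∈ P, (c e : ℂ) * Z6 Q F (fun a => h a * sgE e a) := by
  rw [Z6D_sgE hc]
  have hi : Set.InjOn (Prod.swap : V × V → V × V) P := fun a _ b _ e => Prod.swap_injective e
  have hd : Disjoint P (P.image Prod.swap) := by
    rw [Finset.disjoint_left]
    intro a ha ha'
    obtain ⟨b, hb, rfl⟩ := Finset.mem_image.mp ha'
    exact hP' b hb ha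
  have hsub : P ∪ P.image Prod.swap ⊆ dE Q F := by
    intro a ha
    rcases Finset.mem_union.mp ha with h1 | h1
    · exact hP h1
    · obtain ⟨b, hb, rfl⟩ := Finset.mem_image.mp h1
      exact swap_mem_dE.mpr (hP hb)
  rw [← Finset.sum_subset hsub, Finset.sum_union hd, Finset.sum_image hi]
  · have e1 : ∀ e ∈ P, (c e.swap : ℂ) * Z6 Q F (fun a => h a * sgE e.swap a) =
        (c e : ℂ) * Z6 Q F (fun a => h a * sgE e a) := by
      intro e he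
      rw [hc e, Z6_sgE_swap (hP he)]
      push_cast
      ring
    rw [Finset.sum_congr rfl e1]
    ring
  · intro a ha h1
    rw [h0 a ha, Complex.ofReal_zero, zero_mul]
    · exact fun h2 => h1 (Finset.mem_union_left _ h2)
    · exact fun h2 => h1 (Finset.mem_union_right _ (Finset.mem_image.mpr ⟨_, h2, a.swap_swap⟩))

/-- **The insertion of a rectangle of the plane in a surface.** -/
theorem Z6D_EP {Q : QC V Φ} {F : Finset Φ} {h : V × V → ℂ} {c : V × V → ℝ} {φ : ℤ × ℤ → V}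
    {x₀ x₁ y₀ y₁ : ℤ} {f : ℤ × ℤ → ℝ}
    (hm : ∀ a ∈ dE ZQ (RF x₀ x₁ y₀ y₁), Prod.map φ φ a ∈ dE Q F)
    (hi : ∀ a ∈ dE ZQ (RF x₀ x₁ y₀ y₁), ∀ b ∈ dE ZQ (RF x₀ x₁ y₀ y₁),
      Prod.map φ φ a = Prod.map φ φ b → a = b)
    (hs : ∀ a, c a.swap = -c a)
    (hv : ∀ a ∈ dE ZQ (RF x₀ x₁ y₀ y₁), c (Prod.map φ φ a) = f a.2 - f a.1)
    (h0 : ∀ a ∈ dE Q F, (∀ b ∈ dE ZQ (RF x₀ x₁ y₀ y₁), Prod.map φ φ b ≠ a) → c a = 0) :
    Z6D Q F h c = zJ x₀ x₁ y₀ y₁ f fun a => Z6 Q F fun b => h b * sgE (Prod.map φ φ a) b := by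
  have hE : ∀ a ∈ EP (RF x₀ x₁ y₀ y₁), a ∈ dE ZQ (RF x₀ x₁ y₀ y₁) := fun a ha => (mem_EP.mp ha).1
  have hsw : ∀ a : (ℤ × ℤ) × (ℤ × ℤ), (Prod.map φ φ a).swap = Prod.map φ φ a.swap := fun a => rfl
  rw [Z6D_supp hs (P := (EP (RF x₀ x₁ y₀ y₁)).image (Prod.map φ φ))]
  · rw [Finset.sum_image fun a ha b hb e => hi a (hE a ha) b (hE b hb) e]
    unfold zJ
    refine Finset.sum_congr rfl fun a ha => ?_
    rw [hv a (hE a ha)]
  · intro a ha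
    obtain ⟨b, hb, rfl⟩ := Finset.mem_image.mp ha
    exact hm b (hE b hb)
  · intro a ha ha'
    obtain ⟨b, hb, rfl⟩ := Finset.mem_image.mp ha
    obtain ⟨b', hb', e⟩ := Finset.mem_image.mp ha'
    rw [hsw] at e
    have e1 := hi b' (hE b' hb') b.swap (swap_mem_dE.mpr (hE b hb)) e
    rw [e1] at hb'
    exact EP_swap hb hb'
  · intro a ha h1 h2
    refine h0 a ha fun b hb e => ?_
    rcases EP_or hb with h3 | h3
    · exact h1 (Finset.mem_image.mpr ⟨b, h3, e⟩)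
    · exact h2 (Finset.mem_image.mpr ⟨b.swap, h3, by rw [← hsw, e]⟩)

end Z6D

/-- the value of the insertion is Lipschitz in the values of the sides -/
theorem zJ_close {x₀ x₁ y₀ y₁ : ℤ} {f : ℤ × ℤ → ℝ} {zs zs' : (ℤ × ℤ) × (ℤ × ℤ) → ℂ} {μ : ℂ} {δ : ℝ}
    (h : ∀ a ∈ EP (RF x₀ x₁ y₀ y₁), ‖zs a - μ * zs' a‖ ≤ δ) :
    ‖zJ x₀ x₁ y₀ y₁ f zs - μ * zJ x₀ x₁ y₀ y₁ f zs'‖ ≤
      (∑ a ∈ EP (RF x₀ x₁ y₀ y₁), |f a.2 - f a.1|) * δ := by
  unfold zJ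
  rw [Finset.mul_sum, ← Finset.sum_sub_distrib, Finset.sum_mul]
  refine (norm_sum_le _ _).trans (Finset.sum_le_sum fun a ha => ?_)
  have e1 : ((f a.2 - f a.1 : ℝ) : ℂ) * zs a - μ * (((f a.2 - f a.1 : ℝ) : ℂ) * zs' a) =
      ((f a.2 - f a.1 : ℝ) : ℂ) * (zs a - μ * zs' a) := by ring
  rw [e1, norm_mul, Complex.norm_real, Real.norm_eq_abs]
  exact mul_le_mul_of_nonneg_left (h a ha) (abs_nonneg _)

theorem zJ_smul {x₀ x₁ y₀ y₁ : ℤ} {f : ℤ × ℤ → ℝ} {zs : (ℤ × ℤ) × (ℤ × ℤ) → ℂ} (μ : ℂ) :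
    (zJ x₀ x₁ y₀ y₁ f fun a => μ * zs a) = μ * zJ x₀ x₁ y₀ y₁ f zs := by
  unfold zJ
  rw [Finset.mul_sum]
  exact Finset.sum_congr rfl fun a _ => by ring

/-! ## The insertion on the base sheet -/

section sheet

variable {S W : Type} [DecidableEq S]

/-- a one-form on the base sheet -/
def cS (s0 : S) (c : W × W → ℝ) (a : (S × W) × (S × W)) : ℝ :=
  if a.1.1 = s0 ∧ a.2.1 = s0 then c (a.1.2, a.2.2) else 0

/-- premise `hcc` of `SWE.elt` -/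
theorem cS_mk (s0 : S) (c : W × W → ℝ) (e : W × W) :
    cS s0 c (Prod.map (Prod.mk s0) (Prod.mk s0) e) = c e := by
  unfold cS
  exact if_pos ⟨rfl, rfl⟩

theorem cS_ne {s0 : S} {c : W × W → ℝ} {a : (S × W) × (S × W)} (h : cS s0 c a ≠ 0) :
    ∃ e, c e ≠ 0 ∧ Prod.map (Prod.mk s0) (Prod.mk s0) e = a := by
  unfold cS at h
  by_cases h1 : a.1.1 = s0 ∧ a.2.1 = s0
  · rw [if_pos h1] at h
    exact ⟨_, h, Prod.ext (Prod.ext h1.1.symm rfl) (Prod.ext h1.2.symm rfl)⟩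
  · rw [if_neg h1] at h
    exact absurd rfl h

theorem cS_swap {s0 : S} {c : W × W → ℝ} (hc : ∀ a, c a.swap = -c a) (a : (S × W) × (S × W)) :
    cS s0 c a.swap = -cS s0 c a := by
  unfold cS
  have e1 : (a.swap.1.1 = s0 ∧ a.swap.2.1 = s0) ↔ (a.1.1 = s0 ∧ a.2.1 = s0) := by
    simp only [Prod.fst_swap, Prod.snd_swap]
    tauto
  by_cases h1 : a.1.1 = s0 ∧ a.2.1 = s0
  · rw [if_pos h1, if_pos (e1.mpr h1)]
    exact hc (a.1.2, a.2.2)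
  · rw [if_neg h1, if_neg fun h => h1 (e1.mp h), neg_zero]

end sheet

section surf

variable {S : Type} [DecidableEq S] {E : SlabS S} {N : ℕ} [hN : Fact (3 ≤ N)] {X Y L y₀ y₁ : ℤ}
  {v : ℤ × ℤ} {R : ℤ} {f : ℤ × ℤ → ℝ}

/-- premise `hc'` of `SWE.elt` -/
theorem cS_mem (hE : E.Ok y₀ y₁) (hI : (E.sf X Y).In L) {c : (ZMod N × ℤ) × (ZMod N × ℤ) → ℝ}
    (hc : ∀ e, c e ≠ 0 → e ∈ dE (CQ N) (cylF N y₀ y₁))
    {e : (S × (ZMod N × ℤ)) × (S × (ZMod N × ℤ))} (he : cS E.s0 c e ≠ 0) :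
    e ∈ dE ((E.sf X Y).QN N) ((cylF N y₀ y₁).image (Prod.mk E.s0)) := by
  obtain ⟨b, hb, rfl⟩ := cS_ne he
  have h1 := SlabS.dE_S (N := N) hE hI
  unfold SlabS.SN at h1
  rw [h1]
  exact Finset.mem_image_of_mem _ (hc b hb)

/-- a side of the plane in the base sheet over the cylinder -/
def sN (s0 : S) (N : ℕ) (v : ℤ × ℤ) : S × (ZMod N × ℤ) := (s0, pN N v)

theorem sN_mem (hE : E.Ok y₀ y₁) (hI : (E.sf X Y).In L) (hRN : 2 * R < N) (h0 : y₀ ≤ v.2 - R)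
    (h1 : v.2 + R ≤ y₁) {a : (ℤ × ℤ) × (ℤ × ℤ)} (ha : a ∈ dE ZQ (BR v R)) :
    Prod.map (sN E.s0 N) (sN E.s0 N) a ∈ dE ((E.sf X Y).QN N) (E.SN N y₀ y₁) := by
  rw [SlabS.dE_S hE hI]
  exact Finset.mem_image.mpr ⟨_, map_mem hRN h0 h1 ha, rfl⟩

/-- **The surface with the insertion.** -/
theorem Z6D_cS (hE : E.Ok y₀ y₁) (hI : (E.sf X Y).In L) (hRN : 2 * R < N) (h0 : y₀ ≤ v.2 - R)
    (h1 : v.2 + R ≤ y₁) {F : Finset (S × (ZMod N × ℤ))} (hF : E.SN N y₀ y₁ ⊆ F)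
    {h : (S × (ZMod N × ℤ)) × (S × (ZMod N × ℤ)) → ℂ} :
    Z6D ((E.sf X Y).QN N) F h (cS E.s0 (cN N (BR v R) f)) =
      zJ (v.1 - R) (v.1 + R) (v.2 - R) (v.2 + R) f fun a => Z6 ((E.sf X Y).QN N) F fun b =>
        h b * sgE (Prod.map (sN E.s0 N) (sN E.s0 N) a) b := by
  refine Z6D_EP (fun a ha => dE_mono hF (sN_mem hE hI hRN h0 h1 ha)) ?_ (cS_swap (cN_swap hRN)) ?_ ?_
  · intro a ha b hb e
    refine map_inj hRN ha hb ?_
    have e1 : pN N a.1 = pN N b.1 := congrArg (fun w => w.1.2) e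
    have e2 : pN N a.2 = pN N b.2 := congrArg (fun w => w.2.2) e
    exact Prod.ext e1 e2
  · intro a ha
    have e1 : Prod.map (sN E.s0 N) (sN E.s0 N) a =
        Prod.map (Prod.mk E.s0) (Prod.mk E.s0) (Prod.map (pN N) (pN N) a) := rfl
    rw [e1, cS_mk, cN_map hRN ha]
  · intro a _ h2
    by_contra h3
    obtain ⟨e, he, rfl⟩ := cS_ne h3
    obtain ⟨b, hb, rfl, -⟩ := cN_supp hRN he
    exact h2 b hb rfl

end surf

end

end Pool.Agent.SixB.Ins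

namespace Pool.Agent.SixB.Asm3

open Filter Topology Pool.Agent.Perc Pool.Agent.Perc.Q Pool.Agent.PercD

/-- the rectangle of the insertion is a box -/
theorem SFam.rc_eq {P : Finset (ℤ × ℤ)} {L : ℕ} {g : ℤ → ℤ × ℤ} {ι : Type} {l : Filter ι} {n : ι → ℕ}
    {j : ι → ℤ → ℝ} {z0 : ℂ} (D : SFam P L g l n j z0) (z : ℂ) (r : ℝ) (i : ι) :
    D.rc z r i = BR (⌊(n i : ℝ) * z.re⌋, ⌊(n i : ℝ) * z.im⌋) (D.rR r i) := rfl

/-- **The operator bound of the insertion of a family**, the constant is absolute. -/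
theorem jL_bdd : ∃ B : ℝ, 0 < B ∧ ∀ {P : Finset (ℤ × ℤ)} {L : ℕ} {g : ℤ → ℤ × ℤ} {ι : Type}
    {l : Filter ι} {n : ι → ℕ} {j : ι → ℤ → ℝ} {z0 : ℂ} (D : SFam P L g l n j z0),
    Tendsto n l atTop → ∀ (z : ℂ) {r : ℝ}, 0 < r → ∀ᶠ i in l, ∀ (m : ℕ) [Fact (3 ≤ m + 1)],
      Odd (m + 1) → 2 * D.rR r i < ((m + 1 : ℕ) : ℤ) → ∀ (y : ℤ) (h : ℕ),
        y ≤ ⌊(n i : ℝ) * z.im⌋ - D.rR r i → ⌊(n i : ℝ) * z.im⌋ + D.rR r i ≤ y + h →
          ∀ x : HN (m + 1),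
            ‖Sand.jL m y h (Ins.cN (m + 1) (D.rc z r i) (D.ins z r i)) x‖ ≤ B * ‖x‖ := by
  obtain ⟨K₀, hK₀, hb⟩ := Op.boxD_chi prof_smooth prof_supp one_pos prof_tsupport
  obtain ⟨B, hB, hJ⟩ := Ins.jL_bdd K₀ hK₀
  refine ⟨B, hB, ?_⟩
  intro P L g ι l n j z0 D hn z r hr
  have hnR : Tendsto (fun i => (n i : ℝ)) l atTop := tendsto_natCast_atTop_atTop.comp hn
  filter_upwards [hnR.eventually_ge_atTop (1 / r), hn.eventually_gt_atTop 0] with i h1 h0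
  obtain ⟨K, -, -, h2⟩ := hb (n i) z r h0 hr (by
    have := (div_le_iff₀ hr).mp h1
    linarith)
  have h3 := h2 (D.rR r i) (by
    unfold SFam.rR
    have := Int.le_ceil (32 * r * n i)
    linarith)
  intro m hm hodd hRN y h h4 h5 x
  exact hJ m hodd (⌊(n i : ℝ) * z.re⌋, ⌊(n i : ℝ) * z.im⌋) K (D.rR r i) y h (D.ins z r i) h3 hRN h4 h5 x

end Pool.Agent.SixB.Asm3
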