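import Pool.Agent.Lib.SixB.S3CylnI

/-!
# 6BD step 3: the double of a cut surface: covering and face sets

* `Xv χv`, `Xf χf`: the chart of the doubles; `chart_dbl`: a chart of a window gives a chart of the doubled window.
* `cov_dbl`: `Cov` for the surfaces (with pointwise annulus) gives `Cov` for the doubles of the halves, for all weights
  `h2`, `h2'` with `h2' (map Xv Xv a) = h2 a` on the window.
* `faces_dbl`: the faces of the doubled cylinder surface: `cpy F false ∪ cpy F true` = core and outer faces.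
* `CutH.cov_dblS`: the covering of the double of a half of a plane surface by the double of a half of `cyQ`.
* `CutH.faces_dblS`: the face set for `cyQ`.
-/

set_option autoImplicit false
set_option linter.unusedSectionVars false

namespace Pool.Agent.SixB.Cyh

open Pool.Agent.Perc Pool.Agent.Perc.Q Relation Filter Topology
open Pool.Agent.SixB.Rel Pool.Agent.SixB.Dbl Pool.Agent.SixB.Hcs
open Pool.Agent.SixB hiding Zs_split dst_congr qt_congr dE_mono

noncomputable section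

variable {V Φ V' Φ' : Type} [DecidableEq V] [DecidableEq Φ] [DecidableEq V'] [DecidableEq Φ']
variable {Q : QC V Φ} {A : Finset Φ} {L L' g M : ℤ} {φ : ℤ × ℤ → V} {ψ : ℤ × ℤ → Φ}
  {P : Finset (V × V)} {N : ℕ} [hN : Fact (3 ≤ N)] {up : Bool} {S : Set Φ}
  {Q' : QC V' Φ'} {A' : Finset Φ'} {ψ' : ZMod N × ℤ → Φ'} {P' : Finset (V' × V')} {S' : Set Φ'}
  {ι ι' : Type} {m : ι → V × V} {m' : ι' → V' × V'} {χv : V → V'} {χf : Φ → Φ'}
  {h : V × V → ℂ} {h' : V' × V' → ℂ} {n n' : ℕ}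

/-! ## The chart of the doubles -/

/-- vertices of the doubles -/
def Xv (χv : V → V') (v : V × Bool × Bool) : V' × Bool × Bool := (χv v.1, v.2.1, v.2.2)

/-- faces of the doubles -/
def Xf (χf : Φ → Φ') (f : Φ × Bool) : Φ' × Bool := (χf f.1, f.2)

theorem Xv_dblV {v : V} (hv : onCut m' (χv v) ↔ onCut m v) (b : Bool) :
    Xv χv (dblV m b v) = dblV m' b (χv v) := by
  classical
  unfold Xv dblV
  by_cases h1 : onCut m v
  · rw [decide_eq_true h1, decide_eq_true (hv.mpr h1)]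
  · rw [decide_eq_false h1, decide_eq_false fun h2 => h1 (hv.mp h2)]

/-- **A chart of a window gives a chart of the doubled window.** -/
theorem chart_dbl {W : Finset Φ} (C : QChart Q Q' W χv χf 0) (hm : OneSidedS Q S m)
    (hm' : OneSidedS Q' S' m') (hS : ∀ f ∈ W, f ∈ S → χf f ∈ S')
    (hM : ∀ f ∈ W, f ∈ S → ∀ k, (onCut m' (χv (Q.c f k)) ↔ onCut m (Q.c f k)))
    {W2 : Finset (Φ × Bool)} (hW2 : ∀ p ∈ W2, p.1 ∈ W ∧ p.1 ∈ S) :
    QChart (dblS Q S m hm) (dblS Q' S' m' hm') W2 (Xv χv) (Xf χf) 0 where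
  inj p hp q hq k l e := by
    obtain ⟨f, b⟩ := p
    obtain ⟨f', b'⟩ := q
    obtain ⟨h1, h2⟩ := hW2 _ hp
    obtain ⟨h3, h4⟩ := hW2 _ hq
    rw [dblS_c h2, dblS_c h4] at e ⊢
    have e1 : χv (Q.c f (if b = true then 3 - k else k)) =
        χv (Q.c f' (if b' = true then 3 - l else l)) := congrArg Prod.fst e
    have e2 := C.inj f h1 f' h3 _ _ e1
    have e3 := congrArg (fun x : V' × Bool × Bool => x.2) e
    refine Prod.ext e2 ?_
    exact e3
  cor p hp k := by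
    obtain ⟨f, b⟩ := p
    obtain ⟨h1, h2⟩ := hW2 _ hp
    rw [add_zero]
    show (dblS Q' S' m' hm').c (χf f, b) k = _
    have h5 : f ∈ W := h1
    have h6 : f ∈ S := h2
    rw [dblS_c h6, dblS_c (hS f h5 h6), Xv_dblV (hM f h5 h6 _)]
    have e := C.cor f h5 (if b = true then 3 - k else k)
    rw [add_zero] at e
    rw [e]

theorem ptf_pN (up : Bool) (g : ℤ) (u : ℤ × ℤ) : ptf up g (pN N u) = pN N (ptf up g u) := rfl

theorem qtf_pN (g : ℤ) (b : Bool) (u : ℤ × ℤ) : qtf g b (pN N u) = pN N (qtf g b u) := rfl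

theorem Xf_dblψ {u : ℤ × ℤ} (hu : χf (ψ (ptf up g u)) = ψ' (pN N (ptf up g u))) :
    Xf χf (dblψ up g ψ u) = dblψ up g ψ' (pN N u) := by
  unfold Xf dblψ
  rw [ptf_pN]
  exact Prod.ext hu rfl

/-! ## The covering -/

section cov

variable (C : Cov n L N Q A ψ h P Q' A' ψ' h' P' χv χf 0)
  (hm : OneSidedS Q S m) (hm' : OneSidedS Q' S' m')
  (pt : ∀ u ∈ aZ L n, χf (ψ u) = ψ' (pN N u))
  (hA : ∀ f ∈ A, (χf f ∈ S' ↔ f ∈ S))
  (hS : ∀ f ∈ A ∪ (aZ L n).image ψ, f ∈ S → χf f ∈ S')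
  (hO : ∀ u ∈ aZ L n, inH up g u → ψ u ∈ S)
  (hM : ∀ f ∈ A ∪ (aZ L n).image ψ, f ∈ S → ∀ k, (onCut m' (χv (Q.c f k)) ↔ onCut m (Q.c f k)))
  (hL' : L + |g| ≤ L') (hn : 4 ^ n' * L' + |g| ≤ 4 ^ n * L) (hL0 : 0 ≤ L)

include hL' hn hL0 in
theorem le_win : L' + |g| ≤ 4 ^ n * L := by
  have h1 : (1 : ℤ) ≤ 4 ^ n' := one_le_pow₀ (by norm_num)
  have h2 := abs_nonneg g
  nlinarith

include C hA in
theorem isl2_image (hP : P ⊆ dE Q A) (hM : ∀ f ∈ A, f ∈ S → ∀ k,
    (onCut m' (χv (Q.c f k)) ↔ onCut m (Q.c f k))) :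
    (isl2 Q A S m P).image (Prod.map (Xv χv) (Xv χv)) = isl2 Q' A' S' m' P' := by
  have hAW : A ⊆ A ∪ (aZ L n).image ψ := Finset.subset_union_left
  -- sides of the core
  have key : ∀ (b : Bool) (a : V × V), a ∈ dE Q (corS A S) →
      Prod.map (Xv χv) (Xv χv) (dblA m b a) = dblA m' b (Prod.map χv χv a) := by
    intro b a ha
    obtain ⟨⟨f, hf, k, e1⟩, f', hf', k', e2⟩ := GlueC.dE_corner ha
    obtain ⟨h1, h2⟩ := mem_corS.mp hf
    obtain ⟨h3, h4⟩ := mem_corS.mp hf'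
    unfold dblA
    refine Prod.ext ?_ ?_
    · show Xv χv (dblV m b a.1) = dblV m' b (χv a.1)
      rw [e1]
      exact Xv_dblV (hM f h1 h2 k) b
    · show Xv χv (dblV m b a.2) = dblV m' b (χv a.2)
      rw [e2]
      exact Xv_dblV (hM f' h3 h4 k') b
  have fwd : ∀ a ∈ dE Q (corS A S), Prod.map χv χv a ∈ dE Q' (corS A' S') := by
    intro a ha
    obtain ⟨f, hf, k, hk⟩ := mem_dE.mp ha
    obtain ⟨h1, h2⟩ := mem_corS.mp hf
    have h3 : χf f ∈ corS A' S' := by
      refine mem_corS.mpr ⟨?_, (hA f h1).mpr h2⟩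
      rw [← C.core]
      exact Finset.mem_image_of_mem _ h1
    have h4 : sd Q' (χf f) k = Prod.map χv χv (sd Q f k) := by
      have c1 := C.chart.cor f (hAW h1) k
      have c2 := C.chart.cor f (hAW h1) (k + 1)
      rw [add_zero] at c1 c2
      exact Prod.ext c1 c2
    refine mem_dE.mpr ⟨χf f, h3, k, ?_⟩
    rcases hk with rfl | rfl
    · exact Or.inl h4.symm
    · right
      rw [h4]
      rfl
  have bwd : ∀ a ∈ P, Prod.map χv χv a ∈ dE Q' (corS A' S') → a ∈ dE Q (corS A S) := by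
    intro a ha ha'
    obtain ⟨⟨f1, hf1, k1, e1⟩, f2, hf2, k2, e2⟩ := GlueC.dE_corner (hP ha)
    obtain ⟨F, hF, k, hk⟩ := mem_dE.mp ha'
    obtain ⟨h1, h2⟩ := mem_corS.mp hF
    rw [← C.core] at h1
    obtain ⟨f, hf, rfl⟩ := Finset.mem_image.mp h1
    have h3 : f ∈ S := (hA f hf).mp h2
    have h4 : sd Q' (χf f) k = Prod.map χv χv (sd Q f k) := by
      have c1 := C.chart.cor f (hAW hf) k
      have c2 := C.chart.cor f (hAW hf) (k + 1)
      rw [add_zero] at c1 c2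
      exact Prod.ext c1 c2
    rw [h4] at hk
    refine mem_dE.mpr ⟨f, mem_corS.mpr ⟨hf, h3⟩, k, ?_⟩
    rcases hk with hk | hk
    · left
      have a1 : χv a.1 = χv (Q.c f k) := congrArg Prod.fst hk
      have a2 : χv a.2 = χv (Q.c f (k + 1)) := congrArg Prod.snd hk
      rw [e1] at a1
      rw [e2] at a2
      refine Prod.ext ?_ ?_
      · rw [e1]
        exact C.chart.inj f1 (hAW hf1) f (hAW hf) _ _ a1
      · rw [e2]
        exact C.chart.inj f2 (hAW hf2) f (hAW hf) _ _ a2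
    · right
      have a1 : χv a.1 = χv (Q.c f (k + 1)) := congrArg Prod.fst hk
      have a2 : χv a.2 = χv (Q.c f k) := congrArg Prod.snd hk
      rw [e1] at a1
      rw [e2] at a2
      refine Prod.ext ?_ ?_
      · rw [e1]
        exact C.chart.inj f1 (hAW hf1) f (hAW hf) _ _ a1
      · rw [e2]
        exact C.chart.inj f2 (hAW hf2) f (hAW hf) _ _ a2
  ext a'
  rw [Finset.mem_image, mem_isl2]
  constructor
  · rintro ⟨x, hx, rfl⟩
    obtain ⟨b, a, h1, h2, rfl⟩ := mem_isl2.mp hx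
    refine ⟨b, Prod.map χv χv a, ?_, fwd a h2, key b a h2⟩
    rw [← C.eP]
    exact Finset.mem_image_of_mem _ h1
  · rintro ⟨b, a1, h1, h2, rfl⟩
    rw [← C.eP] at h1
    obtain ⟨a, ha, rfl⟩ := Finset.mem_image.mp h1
    have h3 := bwd a ha h2
    exact ⟨dblA m b a, mem_isl2.mpr ⟨b, a, ha, h3, rfl⟩, key b a h3⟩

include C pt hA hS hO hM hL' hn hL0 in
/-- **The double of a covering.** -/
theorem cov_dbl (hP : P ⊆ dE Q A)
    {h2 : (V × Bool × Bool) × (V × Bool × Bool) → ℂ}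
    {h2' : (V' × Bool × Bool) × (V' × Bool × Bool) → ℂ}
    (hh : ∀ a ∈ dE (dblS Q S m hm)
      (cor2 up g A S ψ (wZ up g L L') ∪ (aZ L' n').image (dblψ up g ψ)),
      h2' (Prod.map (Xv χv) (Xv χv) a) = h2 a) :
    Cov n' L' N (dblS Q S m hm) (cor2 up g A S ψ (wZ up g L L')) (dblψ up g ψ) h2
      (isl2 Q A S m P) (dblS Q' S' m' hm') (cor2 up g A' S' ψ' ((wZ up g L L').image (pN N)))
      (dblψ up g ψ') h2' (isl2 Q' A' S' m' P') (Xv χv) (Xf χf) 0 := by
  have hw := le_win (L := L) (L' := L') (g := g) (n := n) (n' := n') hL' hn hL0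
  have hg0 := abs_nonneg g
  have k4 : (1 : ℤ) ≤ 4 ^ n' := one_le_pow₀ (by norm_num)
  -- faces of the doubled window
  have w1 : ∀ u ∈ wZ up g L L', ptf up g u ∈ aZ L n := by
    intro u hu
    obtain ⟨h1, h2⟩ := mem_wZ.mp hu
    exact mem_aZ.mpr ⟨RF0_mono hw (ptf_box h1), h2⟩
  have w2 : ∀ u ∈ aZ L' n', ptf up g u ∈ aZ L n := by
    intro u hu
    obtain ⟨h1, h2⟩ := mem_aZ.mp hu
    exact mem_aZ.mpr ⟨RF0_mono hn (ptf_box h1), ptf_out hL' h2⟩
  have hwin : ∀ p ∈ cor2 up g A S ψ (wZ up g L L') ∪ (aZ L' n').image (dblψ up g ψ),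
      p.1 ∈ A ∪ (aZ L n).image ψ ∧ p.1 ∈ S := by
    intro p hp
    have aux : ∀ u : ℤ × ℤ, ptf up g u ∈ aZ L n → dblψ up g ψ u = p →
        p.1 ∈ A ∪ (aZ L n).image ψ ∧ p.1 ∈ S := by
      intro u hu e
      rw [← e]
      exact ⟨Finset.mem_union_right _ (Finset.mem_image_of_mem _ hu), hO _ hu (inH_ptf up g u)⟩
    rcases Finset.mem_union.mp hp with hp | hp
    · rcases mem_cor2.mp hp with ⟨h1, h2⟩ | ⟨u, hu, e⟩
      · exact ⟨Finset.mem_union_left _ h1, h2⟩
      · exact aux u (w1 u hu) e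
    · obtain ⟨u, hu, e⟩ := Finset.mem_image.mp hp
      exact aux u (w2 u hu) e
  refine ⟨chart_dbl C.chart hm hm' hS hM hwin, ?_, ?_, ?_, hh⟩
  · ext p
    rw [Finset.mem_image, mem_cor2]
    constructor
    · rintro ⟨q, hq, rfl⟩
      rcases mem_cor2.mp hq with ⟨h1, h2⟩ | ⟨u, hu, rfl⟩
      · left
        refine ⟨?_, (hA q.1 h1).mpr h2⟩
        rw [← C.core]
        exact Finset.mem_image_of_mem _ h1
      · right
        exact ⟨pN N u, Finset.mem_image_of_mem _ hu, (Xf_dblψ (pt _ (w1 u hu))).symm⟩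
    · rintro (⟨h1, h2⟩ | ⟨u', hu', e⟩)
      · rw [← C.core] at h1
        obtain ⟨f, hf, e⟩ := Finset.mem_image.mp h1
        rw [← e] at h2
        refine ⟨(f, p.2), mem_cor2.mpr (Or.inl ⟨hf, (hA f hf).mp h2⟩), ?_⟩
        exact Prod.ext e rfl
      · obtain ⟨u, hu, rfl⟩ := Finset.mem_image.mp hu'
        refine ⟨dblψ up g ψ u, mem_cor2.mpr (Or.inr ⟨u, hu, rfl⟩), ?_⟩
        rw [Xf_dblψ (pt _ (w1 u hu)), e]
  · rw [Finset.image_image]
    refine Finset.image_congr fun u hu => ?_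
    exact Xf_dblψ (pt _ (w2 u (by exact_mod_cast hu)))
  · exact isl2_image C hA hP fun f hf => hM f (Finset.mem_union_left _ hf)

end cov

/-! ## The faces of the doubled cylinder surface -/

theorem ptf_rows {X : Type} [AddGroupWithOne X] {u : X × ℤ} {M' : ℤ}
    (hM' : M' = if up = true then M - g else M + g) (hgM : |g| ≤ M) (h1 : -M' ≤ u.2) (h2 : u.2 < M') :
    -M ≤ (ptf up g u).2 ∧ (ptf up g u).2 < M := by
  rw [abs_le] at hgM
  unfold ptf htf cc
  cases up
  · simp only [Bool.false_eq_true, if_false] at hM'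
    by_cases h3 : u.2 < 0
    · simp only [Bool.not_false, h3, decide_true, Bool.xor_self, Bool.false_eq_true, if_false]
      omega
    · simp only [Bool.not_false, h3, decide_false, Bool.xor_false, if_true]
      omega
  · simp only [if_true] at hM'
    by_cases h3 : u.2 < 0
    · simp only [Bool.not_true, h3, decide_true, Bool.false_xor, if_true]
      omega
    · simp only [Bool.not_true, h3, decide_false, Bool.xor_self, Bool.false_eq_true, if_false]
      omega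

theorem qtf_rows {X : Type} [AddGroupWithOne X] {u : X × ℤ} {M' : ℤ}
    (hM' : M' = if up = true then M - g else M + g) (hu : inH up g u) (h1 : -M ≤ u.2) (h2 : u.2 < M)
    (b : Bool) : -M' ≤ (qtf g b u).2 ∧ (qtf g b u).2 < M' := by
  unfold inH at hu
  unfold qtf
  cases up
  · simp only [Bool.false_eq_true, if_false] at hM'
    simp only [Bool.false_eq_true, iff_false, not_le] at hu
    cases b
    · simp only [Bool.false_eq_true, if_false]
      omega
    · simp only [if_true]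
      omega
  · simp only [if_true] at hM'
    simp only [iff_true] at hu
    cases b
    · simp only [Bool.false_eq_true, if_false]
      omega
    · simp only [if_true]
      omega

/-- **The faces of the doubled cylinder surface.** -/
theorem faces_dbl {M' : ℤ} (hM' : M' = if up = true then M - g else M + g) (hL' : L + |g| ≤ L')
    (hN : 2 * (L' + |g|) < N) (hLM : L' + |g| ≤ M) (hL0 : 0 ≤ L)
    (hout : ∀ v ∈ cylF N (-M) M \ bxC N L, inH up g v → ψ' v ∈ S')
    (hin : ∀ v ∈ cylF N (-M) M \ bxC N L, ψ' v ∈ S' → inH up g v) :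
    cpy (corS (A' ∪ (cylF N (-M) M \ bxC N L).image ψ') S') false ∪
        cpy (corS (A' ∪ (cylF N (-M) M \ bxC N L).image ψ') S') true =
      cor2 up g A' S' ψ' ((wZ up g L L').image (pN N)) ∪
        (cylF N (-M') M' \ bxC N L').image (dblψ up g ψ') := by
  have hg0 := abs_nonneg g
  ext p
  rw [cpy_mem, mem_corS, Finset.mem_union, Finset.mem_union, mem_cor2, Finset.mem_image,
    Finset.mem_image]
  -- a face outside the box
  have hptf : ∀ v : ZMod N × ℤ, v ∈ cylF N (-M') M' → ptf up g v ∉ bxC N L →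
      ptf up g v ∈ cylF N (-M) M \ bxC N L := by
    intro v hv h1
    refine Finset.mem_sdiff.mpr ⟨?_, h1⟩
    rw [mem_cylF] at hv ⊢
    exact ptf_rows hM' (by omega) hv.1 hv.2
  constructor
  · rintro ⟨h1 | ⟨v, hv, hvp⟩, h2⟩
    · exact Or.inl (Or.inl ⟨h1, h2⟩)
    · have hu : inH up g v := hin v hv (by rw [hvp]; exact h2)
      obtain ⟨hv1, hv2⟩ := Finset.mem_sdiff.mp hv
      rw [mem_cylF] at hv1
      have e : dblψ up g ψ' (qtf g p.2 v) = p := by
        unfold dblψ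
        rw [ptf_qtf hu, cc_qtf hu, hvp]
      by_cases h3 : qtf g p.2 v ∈ bxC N L'
      · left; right
        obtain ⟨u, hu', hqu⟩ := Finset.mem_image.mp h3
        refine ⟨qtf g p.2 v, ?_, e⟩
        rw [← hqu]
        refine Finset.mem_image_of_mem _ (mem_wZ.mpr ⟨hu', fun h4 => hv2 ?_⟩)
        have h5 : pN N (ptf up g u) = v := by
          rw [← ptf_pN, hqu, ptf_qtf hu]
        rw [← h5]
        exact Finset.mem_image_of_mem _ h4
      · right
        refine ⟨qtf g p.2 v, Finset.mem_sdiff.mpr ⟨?_, h3⟩, e⟩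
        rw [mem_cylF]
        exact qtf_rows hM' hu hv1.1 hv1.2 p.2
  · rintro ((⟨h1, h2⟩ | ⟨v, hv, rfl⟩) | ⟨v, hv, rfl⟩)
    · exact ⟨Or.inl h1, h2⟩
    · obtain ⟨u, hu, rfl⟩ := Finset.mem_image.mp hv
      obtain ⟨a1, a2⟩ := mem_wZ.mp hu
      have a3 := mem_RF0.mp (ptf_box (up := up) (g₀ := g) a1)
      have a4 : ptf up g (pN N u) ∈ cylF N (-M) M \ bxC N L := by
        rw [ptf_pN]
        refine Finset.mem_sdiff.mpr ⟨?_, pN_notMem hN (by omega) a2 (by omega) (by omega)⟩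
        rw [mem_cylF]
        show -M ≤ (ptf up g u).2 ∧ (ptf up g u).2 < M
        omega
      exact ⟨Or.inr ⟨_, a4, rfl⟩, hout _ a4 (inH_ptf up g _)⟩
    · obtain ⟨a1, a2⟩ := Finset.mem_sdiff.mp hv
      have a3 : ptf up g v ∉ bxC N L := by
        intro h1
        obtain ⟨u, hu, e⟩ := Finset.mem_image.mp h1
        apply a2
        rw [← qtf_ptf up g v, ← e, qtf_pN]
        exact Finset.mem_image_of_mem _ (qtf_box hL' hu _)
      have a4 := hptf v a1 a3
      exact ⟨Or.inr ⟨_, a4, rfl⟩, hout _ a4 (inH_ptf up g v)⟩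

/-! ## The cylindrification -/

section cyq

variable {m : ℤ → V × V} (D : CutH up g L Q A φ ψ S m) (H : GlueZ L Q A φ ψ P)
  (hL : 2 * (L + 1) < N) {O : Set (ZMod N × ℤ)}

include D H hL

theorem mem_S_out {u : ℤ × ℤ} (hu : u ∉ RFb (0, 0) L) (h1 : ψ u ∈ S) : inH up g u := by
  rcases D.half.mem _ h1 with h2 | ⟨u', hu', h2, h3⟩
  · exact absurd h2 (H.dj u hu)
  · rw [face_inj H hu hu' h3]
    exact h2

/-- the cut vertices of the window -/
theorem cut_win {K : ℤ} (hK : 2 * K < N) (hLK : L ≤ K) {f : Φ}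
    (hf : f ∈ A ∪ (RFb (0, 0) K \ RFb (0, 0) L).image ψ) (hfS : f ∈ S) (k : ZMod 4) :
    onCut (cyM Φ N L g φ up m) (cyv (Φ := Φ) N L φ (Q.c f k)) ↔ onCut m (Q.c f k) := by
  rcases Finset.mem_union.mp hf with hf | hf
  · rw [cyv_A H hf k]
    exact D.onCut_inl H hL hf k
  · obtain ⟨u, hu, rfl⟩ := Finset.mem_image.mp hf
    obtain ⟨h1, h2⟩ := Finset.mem_sdiff.mp hu
    have h3 := mem_S_out D H hL h2 hfS
    have h4 : pN N u ∉ bxC N L := by
      have := mem_RF0.mp h1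
      exact pN_notMem hK hLK h2 (by omega) (by omega)
    rw [chart_cor H h2, cyv_glv H hK hLK h2 (cor0_le h1 k).1, D.onCut_glv H hL h4 h3 k,
      D.half.cut u h2 h3 k]
    have e : (CQ N).c (pN N u) k = pN N (ZQ.c u k) := corC_pN u k
    rw [e]
    rfl

/-- **The double of a half of the cylindrification covers the double of the half.** -/
theorem cov_dblS (hO : OutO N L g O) (hL0 : 0 < L) {n n' : ℕ} (hn : 2 * (4 ^ n * L) < N)
    (hwO : ∀ u ∈ aZ L n, pN N u ∈ O)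
    (hL' : L + |g| ≤ L') (hn' : 4 ^ n' * L' + |g| ≤ 4 ^ n * L)
    {h2 : (V × Bool × Bool) × (V × Bool × Bool) → ℂ}
    {h2' : (CV V Φ N × Bool × Bool) × (CV V Φ N × Bool × Bool) → ℂ}
    (hh : ∀ a ∈ dE (dblS Q S m D.half.os)
      (cor2 up g A S ψ (wZ up g L L') ∪ (aZ L' n').image (dblψ up g ψ)),
      h2' (Prod.map (Xv (cyv (Φ := Φ) N L φ)) (Xv (cyv (Φ := Φ) N L φ)) a) = h2 a) :
    Cov n' L' N (dblS Q S m D.half.os) (cor2 up g A S ψ (wZ up g L L')) (dblψ up g ψ) h2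
      (isl2 Q A S m P) (dblS (cyQ N H hL) (cyS A S up g O) (cyM Φ N L g φ up m) (D.halfS H hL hO).os)
      (cor2 up g (A.image Sum.inl) (cyS A S up g O) Sum.inr ((wZ up g L L').image (pN N)))
      (dblψ up g Sum.inr) h2'
      (isl2 (cyQ N H hL) (A.image Sum.inl) (cyS A S up g O) (cyM Φ N L g φ up m)
        (P.image (icl V Φ N))) (Xv (cyv (Φ := Φ) N L φ)) (Xf (cyf N L A ψ)) 0 := by
  have p0 : L ≤ 4 ^ n * L := by
    have : (1 : ℤ) ≤ 4 ^ n := one_le_pow₀ (by norm_num)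
    nlinarith
  have pt : ∀ u ∈ aZ L n, cyf N L A ψ (ψ u) = Sum.inr (pN N u) := fun u hu => cyf_C H (mem_aZ.mp hu).2
  refine cov_dbl (h := fun _ => 1) (h' := cyh Φ N fun _ => 1)
    (cy_cov H hL hL0 hn (h := fun _ => 1) fun _ _ _ => rfl) D.half.os (D.halfS H hL hO).os pt ?_ ?_ ?_
    ?_ hL' hn' hL0.le H.P_sub hh
  · intro f hf
    rw [cyf_A hf, inl_cyS]
    exact ⟨fun h => h.2, fun h => ⟨hf, h⟩⟩
  · intro f hf hfS
    rcases Finset.mem_union.mp hf with hf | hf
    · rw [cyf_A hf, inl_cyS]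
      exact ⟨hf, hfS⟩
    · obtain ⟨u, hu, rfl⟩ := Finset.mem_image.mp hf
      rw [pt u hu, inr_cyS]
      exact ⟨hwO u hu, mem_S_out D H hL (mem_aZ.mp hu).2 hfS⟩
  · intro u hu h1
    exact D.half.out u (mem_aZ.mp hu).2 h1
  · intro f hf hfS k
    exact cut_win D H hL hn p0 hf hfS k

/-- **The faces of the doubled half of the cylindrification.** -/
theorem faces_dblS {M' : ℤ} (hM' : M' = if up = true then M - g else M + g) (hL' : L + |g| ≤ L')
    (hN : 2 * (L' + |g|) < N) (hLM : L' + |g| ≤ M) (hL0 : 0 ≤ L)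
    (hwO : ∀ v ∈ cylF N (-M) M \ bxC N L, v ∈ O) :
    cpy (corS (A.image Sum.inl ∪ (cylF N (-M) M \ bxC N L).image Sum.inr)
          (cyS A S up g O)) false ∪
        cpy (corS (A.image Sum.inl ∪ (cylF N (-M) M \ bxC N L).image Sum.inr)
          (cyS A S up g O)) true =
      cor2 up g (A.image Sum.inl) (cyS A S up g O) Sum.inr ((wZ up g L L').image (pN N)) ∪
        (cylF N (-M') M' \ bxC N L').image (dblψ up g Sum.inr) :=
  faces_dbl hM' hL' hN hLM hL0 (fun v hv hu => inr_cyS.mpr ⟨hwO v hv, hu⟩)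
    fun _ _ h1 => (inr_cyS.mp h1).2

end cyq

end

end Pool.Agent.SixB.Cyh
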