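import Pool.Agent.Lib.SixB.S3CylDblW

/-!
# 6BD step 3: the cylinders of the doubles from the turning numbers

* `TurnsUp`, `TurnsLo`: turning numbers of the doubles.
* `dblUp_turns`, `dblLo_turns`: `DblUp`, `DblLo` from the turning numbers.
-/

set_option autoImplicit false
set_option linter.unusedSectionVars false

namespace Pool.Agent.SixB.Hcs

open Pool.Agent.Perc Pool.Agent.Perc.Q Relation Filter Topology ComplexConjugate
open Pool.Agent.SixB.Rel Pool.Agent.SixB.Dbl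
open Pool.Agent.SixB hiding Zs_split dst_congr qt_congr dE_mono

noncomputable section

variable {V Φ : Type} [DecidableEq V] [DecidableEq Φ] {Q : QC V Φ} {A : Finset Φ} {L g L' : ℤ}
  {φ : ℤ × ℤ → V} {ψ : ℤ × ℤ → Φ} {P₀ : Finset (V × V)} {S₁ S₂ S : Set Φ} {m : ℤ → V × V}
  {h : V × V → ℂ} {N : ℕ} [hN : Fact (3 ≤ N)] {up : Bool}

/-- turning numbers of the doubles of the upper halves -/
def TurnsUp (C : Cyh.CutZ g L Q A φ ψ S₂ S₁ m) (H : GlueZ L Q A φ ψ P₀) : Prop :=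
  ∃ N₀ : ℕ, ∀ (N : ℕ) [Fact (3 ≤ N)] (hL : 2 * (L + 1) < N), Odd N → N₀ ≤ N →
    ∃ M₀ : ℤ, ∀ M, M₀ ≤ M → ∀ ω, Turns (dblS (cyQ N H hL) (Cyh.cyS A S₂ true g (outC N L))
        (Cyh.cyM Φ N L g φ true m) (cutC C H hL).up.os)
      (FD N M L A (Cyh.cyS A S₂ true g (outC N L))) ω
      ((botE N (-(M - g))).image (Prod.map (dblφ true g (glv Φ N L φ) (Cyh.cyM Φ N L g φ true m))
        (dblφ true g (glv Φ N L φ) (Cyh.cyM Φ N L g φ true m))))
      ((topE N (M - g)).image (Prod.map (dblφ true g (glv Φ N L φ) (Cyh.cyM Φ N L g φ true m))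
        (dblφ true g (glv Φ N L φ) (Cyh.cyM Φ N L g φ true m))))

/-- turning numbers of the doubles of the lower halves -/
def TurnsLo (C : Cyh.CutZ g L Q A φ ψ S₂ S₁ m) (H : GlueZ L Q A φ ψ P₀) : Prop :=
  ∃ N₀ : ℕ, ∀ (N : ℕ) [Fact (3 ≤ N)] (hL : 2 * (L + 1) < N), Odd N → N₀ ≤ N →
    ∃ M₀ : ℤ, ∀ M, M₀ ≤ M → ∀ ω, Turns (dblS (cyQ N H hL) (Cyh.cyS A S₁ false g (outC N L))
        (revFam (Cyh.cyM Φ N L g φ true m)) (cutC C H hL).lo.os)
      (FD N M L A (Cyh.cyS A S₁ false g (outC N L))) ω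
      ((botE N (-(M + g))).image (Prod.map
        (dblφ false g (glv Φ N L φ) (revFam (Cyh.cyM Φ N L g φ true m)))
        (dblφ false g (glv Φ N L φ) (revFam (Cyh.cyM Φ N L g φ true m)))))
      ((topE N (M + g)).image (Prod.map
        (dblφ false g (glv Φ N L φ) (revFam (Cyh.cyM Φ N L g φ true m)))
        (dblφ false g (glv Φ N L φ) (revFam (Cyh.cyM Φ N L g φ true m)))))

/-- **`DblUp` from the turning numbers.** -/
theorem dblUp_turns (h0 : 0 < L) (hL' : L + |g| ≤ L') (C : Cyh.CutZ g L Q A φ ψ S₂ S₁ m)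
    (H : GlueZ L Q A φ ψ P₀) (hF : Ful L Q A ψ P₀) (hoff : Off m P₀) (T : TurnsUp C H) :
    DblUp L' C H := by
  refine dblUp_of h0 hL' C H hoff ?_
  obtain ⟨N₀, T⟩ := T
  refine ⟨max N₀ ((2 * L').toNat + 1), ?_⟩
  intro N _ hL hodd hN
  obtain ⟨M₀, T⟩ := T N hL hodd ((le_max_left _ _).trans hN)
  have hN2 := (le_max_right _ _).trans hN
  have t1 := Int.self_le_toNat (2 * L')
  refine ⟨max M₀ (L' + |g| + 1), ?_⟩
  intro M hM
  have hM2 := (le_max_right _ _).trans hM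
  exact gd_up C H hF hL h0.le hL' (by omega) (by omega) (T M ((le_max_left _ _).trans hM))

/-- **`DblLo` from the turning numbers.** -/
theorem dblLo_turns (h0 : 0 < L) (hL' : L + |g| ≤ L') (C : Cyh.CutZ g L Q A φ ψ S₂ S₁ m)
    (H : GlueZ L Q A φ ψ P₀) (hF : Ful L Q A ψ P₀) (hoff : Off m P₀) (T : TurnsLo C H) :
    DblLo L' C H := by
  refine dblLo_of h0 hL' C H hoff ?_
  obtain ⟨N₀, T⟩ := T
  refine ⟨max N₀ ((2 * L').toNat + 1), ?_⟩
  intro N _ hL hodd hN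
  obtain ⟨M₀, T⟩ := T N hL hodd ((le_max_left _ _).trans hN)
  have hN2 := (le_max_right _ _).trans hN
  have t1 := Int.self_le_toNat (2 * L')
  refine ⟨max M₀ (L' + |g| + 1), ?_⟩
  intro M hM
  have hM2 := (le_max_right _ _).trans hM
  exact gd_lo C H hF hL h0.le hL' (by omega) (by omega) (T M ((le_max_left _ _).trans hM))

/-- **The reflection inequality for a plane surface from the turning numbers.** -/
theorem hcs_turns {c : V × V → ℝ} {P : Finset (V × V)} (h0 : 0 < L) (hL' : L + |g| ≤ L')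
    (C : Cyh.CutZ g L Q A φ ψ S₂ S₁ m)
    (H : GlueZ L Q A φ ψ P₀) (hF : Ful L Q A ψ P₀) (hQ : NoLoop Q) (hoff : Off m P₀)
    (hT : TurnsC H) (hlo : TurnsLo C H) (hup : TurnsUp C H)
    (hh : ∀ a, a ∉ P₀ → a.swap ∉ P₀ → h a = 1) (HS : Sup c P) (hP : P ⊆ P₀)
    (hP' : P ⊆ dE Q (corS A S₂)) :
    ‖∑ e ∈ P, (c e : ℂ) * Zp L Q A ψ (fun a => h a * sgE e a) P₀‖ ^ 2 ≤
      16 * ((Zp L' (dblS Q S₁ (revFam m) C.lo.half.os) (cor2 false g A S₁ ψ (wZ false g L L'))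
        (dblψ false g ψ) (dw h h) (isl2 Q A S₁ (revFam m) P₀)).re *
        (∑ e ∈ P, ∑ e' ∈ P, (c e : ℂ) * (c e' : ℂ) *
          Zp L' (dblS Q S₂ m C.hi.half.os) (cor2 true g A S₂ ψ (wZ true g L L'))
        (dblψ true g ψ) (dw (fun a => h a * sgE e a) (fun a => h a * sgE e' a))
        (isl2 Q A S₂ m P₀)).re) ∧
    0 ≤ (Zp L' (dblS Q S₁ (revFam m) C.lo.half.os) (cor2 false g A S₁ ψ (wZ false g L L'))
        (dblψ false g ψ) (dw h h) (isl2 Q A S₁ (revFam m) P₀)).re ∧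
    0 ≤ (∑ e ∈ P, ∑ e' ∈ P, (c e : ℂ) * (c e' : ℂ) *
          Zp L' (dblS Q S₂ m C.hi.half.os) (cor2 true g A S₂ ψ (wZ true g L L'))
        (dblψ true g ψ) (dw (fun a => h a * sgE e a) (fun a => h a * sgE e' a))
        (isl2 Q A S₂ m P₀)).re :=
  hcs_of h0 hL' C H hF hQ hoff hT (dblLo_turns h0 hL' C H hF hoff hlo)
    (dblUp_turns h0 hL' C H hF hoff hup) hh HS hP hP'

end

end Pool.Agent.SixB.Hcs
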