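import Pool.Agent.Lib.SixB.S3CylDblC
import Pool.Agent.Lib.SixB.S3HcsG

/-!
# 6BD step 3: the cylinders of the doubles

* `Gd`: the doubled cylinder surface is a `GlueC` with good turning numbers.
* `cyl_dbl`: `Cyl` for the double of a half from `Gd`.
* `dblUp_of`, `dblLo_of`: `DblUp`, `DblLo` from `Gd`.
-/

set_option autoImplicit false
set_option linter.unusedSectionVars false

namespace Pool.Agent.SixB.Hcs

open Pool.Agent.Perc Pool.Agent.Perc.Q Relation Filter Topology ComplexConjugate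
open Pool.Agent.SixB.Rel Pool.Agent.SixB.Dbl
open Pool.Agent.SixB hiding Zs_split dst_congr qt_congr dE_mono

noncomputable section

variable {V Φ : Type} [DecidableEq V] [DecidableEq Φ] {Q : QC V Φ} {A : Finset Φ} {L g L' : ℤ}
  {φ : ℤ × ℤ → V} {ψ : ℤ × ℤ → Φ} {P₀ : Finset (V × V)} {S₁ S₂ S : Set Φ} {m : ℤ → V × V}
  {h : V × V → ℂ} {N : ℕ} [hN : Fact (3 ≤ N)] {up : Bool}

/-- the doubled cylinder surface is glued from the doubled core and a cylinder of height `M'`,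
with good turning numbers -/
structure Gd (up : Bool) (g L' M' : ℤ) (H : GlueZ L Q A φ ψ P₀) (hL : 2 * (L + 1) < N)
    (S : Set Φ) (mm : ZMod N → CV V Φ N × CV V Φ N)
    (os : OneSidedS (cyQ N H hL) (Cyh.cyS A S up g (outC N L)) mm)
    (F : Finset (CF Φ N × Bool)) : Prop where
  ex : ∃ φ' : ZMod N × ℤ → CV V Φ N × Bool × Bool,
    GlueC N M' L' (dblS (cyQ N H hL) (Cyh.cyS A S up g (outC N L)) mm os)
      (cor2 up g (A.image Sum.inl) (Cyh.cyS A S up g (outC N L)) Sum.inr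
        ((wZ up g L L').image (pN N))) φ' (dblψ up g Sum.inr)
      (isl2 (cyQ N H hL) (A.image Sum.inl) (Cyh.cyS A S up g (outC N L)) mm
        (P₀.image (icl V Φ N))) ∧
    ∀ ω, Turns (dblS (cyQ N H hL) (Cyh.cyS A S up g (outC N L)) mm os) F ω
      ((botE N (-M')).image (Prod.map φ' φ')) ((topE N M').image (Prod.map φ' φ'))

/-- the weights on corresponding island sides -/
theorem dw_map (H : GlueZ L Q A φ ψ P₀) {h₁ h₂ : V × V → ℂ}
    {a : (V × Bool × Bool) × (V × Bool × Bool)}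
    (h1 : ∃ f ∈ A, ∃ k, a.1.1 = Q.c f k) (h2 : ∃ f ∈ A, ∃ k, a.2.1 = Q.c f k) :
    dw (cyh Φ N h₁) (cyh Φ N h₂) (Prod.map (Cyh.Xv (cyv (Φ := Φ) N L φ))
      (Cyh.Xv (cyv (Φ := Φ) N L φ)) a) = dw h₁ h₂ a := by
  obtain ⟨f, hf, k, e1⟩ := h1
  obtain ⟨f', hf', k', e2⟩ := h2
  have e3 : cyv (Φ := Φ) N L φ a.1.1 = Sum.inl a.1.1 := by
    rw [e1]
    exact cyv_A H hf k
  have e4 : cyv (Φ := Φ) N L φ a.2.1 = Sum.inl a.2.1 := by
    rw [e2]
    exact cyv_A H hf' k'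
  unfold dw
  show (if (a.1.2.1 || a.2.2.1) = true then
      conj (cyh Φ N h₂ (cyv (Φ := Φ) N L φ a.1.1, cyv (Φ := Φ) N L φ a.2.1))
    else cyh Φ N h₁ (cyv (Φ := Φ) N L φ a.1.1, cyv (Φ := Φ) N L φ a.2.1)) = _
  rw [e3, e4]
  rfl

/-- clipped weights under a covering -/
theorem clp_map {V' Φ' : Type} [DecidableEq V'] [DecidableEq Φ'] {n : ℕ} {L : ℤ} {Q : QC V Φ}
    {A : Finset Φ} {ψ : ℤ × ℤ → Φ} {h : V × V → ℂ} {P : Finset (V × V)} {Q' : QC V' Φ'}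
    {A' : Finset Φ'} {ψ' : ZMod N × ℤ → Φ'} {h' : V' × V' → ℂ} {P' : Finset (V' × V')}
    {χv : V → V'} {χf : Φ → Φ'} {r : ZMod 4} (C : Cov n L N Q A ψ h P Q' A' ψ' h' P' χv χf r)
    (hP : P ⊆ dE Q A) {k : V × V → ℂ} {k' : V' × V' → ℂ}
    (hk : ∀ a, a ∈ P ∨ a.swap ∈ P → k' (Prod.map χv χv a) = k a) {a : V × V}
    (ha : a ∈ dE Q (A ∪ (aZ L n).image ψ)) :
    clp P' k' (Prod.map χv χv a) = clp P k a := by
  have key : ∀ a ∈ dE Q (A ∪ (aZ L n).image ψ), (Prod.map χv χv a ∈ P' ↔ a ∈ P) := by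
    intro a ha
    constructor
    · intro h1
      rw [← C.eP] at h1
      obtain ⟨b, hb, e⟩ := Finset.mem_image.mp h1
      have h2 : b ∈ dE Q (A ∪ (aZ L n).image ψ) := dE_mono Finset.subset_union_left (hP hb)
      rw [← C.chart.inj_dE h2 ha e]
      exact hb
    · intro h1
      rw [← C.eP]
      exact Finset.mem_image_of_mem _ h1
  have k1 := key a ha
  have k2 := key a.swap (swap_mem_dE.mpr ha)
  unfold clp
  by_cases h1 : a ∈ P ∨ a.swap ∈ P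
  · rw [if_pos h1, if_pos (by
      rcases h1 with h1 | h1
      · exact Or.inl (k1.mpr h1)
      · exact Or.inr (k2.mpr h1))]
    exact hk a h1
  · rw [if_neg h1, if_neg fun h2 => h1 (by
      rcases h2 with h2 | h2
      · exact Or.inl (k1.mp h2)
      · exact Or.inr (k2.mp h2))]

/-- **The cylinder of the double of one half.** -/
theorem cyl_dbl (D : Cyh.CutH up g L Q A φ ψ S m) (H : GlueZ L Q A φ ψ P₀)
    (hL : 2 * (L + 1) < N) (hL0 : 0 < L) {n n' : ℕ} (hn : 2 * (4 ^ n * L) < N)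
    (hL' : L + |g| ≤ L') (hn' : 4 ^ n' * L' + |g| ≤ 4 ^ n * L)
    {mm : ZMod N → CV V Φ N × CV V Φ N} (hmm : mm = Cyh.cyM Φ N L g φ up m)
    (os : OneSidedS (cyQ N H hL) (Cyh.cyS A S up g (outC N L)) mm) {M M' : ℤ}
    (hM' : M' = if up = true then M - g else M + g) (hLM : L' + |g| ≤ M)
    (hN' : 2 * (L' + |g|) < N)
    (G : Gd up g L' M' H hL S mm os (FD N M L A (Cyh.cyS A S up g (outC N L))))
    (off : ∀ f ∈ Cyh.cyS A S up g (outC N L), ∀ k, sd (cyQ N H hL) f k ∈ P₀.image (icl V Φ N) ∨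
      (sd (cyQ N H hL) f k).swap ∈ P₀.image (icl V Φ N) →
      sd (cyQ N H hL) f k ∈ dE (cyQ N H hL)
        (corS (A.image Sum.inl) (Cyh.cyS A S up g (outC N L))))
    {h₁ h₂ : V × V → ℂ} (e1 : ∀ a, a ∉ P₀ → a.swap ∉ P₀ → h₁ a = 1)
    (e2 : ∀ a, a ∉ P₀ → a.swap ∉ P₀ → h₂ a = 1) :
    Cyl n' N M' L' (dblS Q S m D.half.os) (cor2 up g A S ψ (wZ up g L L')) (dblψ up g ψ)
      (clp (isl2 Q A S m P₀) (dw h₁ h₂)) (isl2 Q A S m P₀)
      (dblS (cyQ N H hL) (Cyh.cyS A S up g (outC N L)) mm os)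
      (FD N M L A (Cyh.cyS A S up g (outC N L))) (dw (cyh Φ N h₁) (cyh Φ N h₂)) := by
  subst hmm
  obtain ⟨φ', G1, G2⟩ := G.ex
  have hwO : ∀ u ∈ aZ L n, pN N u ∈ outC N L := by
    intro u hu
    obtain ⟨h1, h2⟩ := mem_aZ.mp hu
    have h3 := mem_RF0.mp h1
    have q4 : (1 : ℤ) ≤ 4 ^ n := one_le_pow₀ (by norm_num)
    have q5 : L ≤ 4 ^ n * L := by nlinarith
    exact pN_notMem hn q5 h2 (by omega) (by omega)
  have hcov := fun (k : (V × Bool × Bool) × (V × Bool × Bool) → ℂ)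
    (k' : (CV V Φ N × Bool × Bool) × (CV V Φ N × Bool × Bool) → ℂ) => Cyh.cov_dblS D H hL
    (O := outC N L) Cyh.outO_all hL0 hn hwO hL' hn' (h2 := k) (h2' := k')
  have C1 := hcov (fun _ => 1) (fun _ => 1) fun _ _ => rfl
  have hPs : isl2 Q A S m P₀ ⊆ dE (dblS Q S m D.half.os) (cor2 up g A S ψ (wZ up g L L')) :=
    isl2_sub D.half.os
  -- ends of island sides
  have hend : ∀ a, a ∈ isl2 Q A S m P₀ → (∃ f ∈ A, ∃ k, a.1.1 = Q.c f k) ∧
      ∃ f ∈ A, ∃ k, a.2.1 = Q.c f k := by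
    intro a ha
    obtain ⟨b, a0, h1, -, rfl⟩ := mem_isl2.mp ha
    exact GlueC.dE_corner (H.P_sub h1)
  have hk : ∀ a, a ∈ isl2 Q A S m P₀ ∨ a.swap ∈ isl2 Q A S m P₀ →
      dw (cyh Φ N h₁) (cyh Φ N h₂) (Prod.map (Cyh.Xv (cyv (Φ := Φ) N L φ))
        (Cyh.Xv (cyv (Φ := Φ) N L φ)) a) = dw h₁ h₂ a := by
    rintro a (ha | ha)
    · exact dw_map H (hend a ha).1 (hend a ha).2
    · exact dw_map H (hend _ ha).2 (hend _ ha).1
  have C2 := hcov (clp (isl2 Q A S m P₀) (dw h₁ h₂))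
    (clp (isl2 (cyQ N H hL) (A.image Sum.inl) (Cyh.cyS A S up g (outC N L))
      (Cyh.cyM Φ N L g φ up m) (P₀.image (icl V Φ N))) (dw (cyh Φ N h₁) (cyh Φ N h₂)))
    fun a ha => clp_map C1 hPs hk ha
  refine ⟨_, φ', _, _, _, _, 0, _, G1, C2, ?_, G2, fun a h1 h2 => clp_one a h1 h2, ?_⟩
  · exact (Cyh.faces_dblS D H hL (O := outC N L) hM' hL' hN' hLM hL0.le
      fun v hv => (Finset.mem_sdiff.mp hv).2).symm
  · intro a ha
    have hG : ∀ p ∈ FD N M L A (Cyh.cyS A S up g (outC N L)), p.1 ∈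
        Cyh.cyS A S up g (outC N L) := by
      intro p hp
      exact (mem_corS.mp (cpy_mem.mp hp)).2
    exact clp_dw os hG (fun p hp k hpk => off _ (hG p hp) k hpk) (fun a => cyh_one e1 a)
      (fun a => cyh_one e2 a) ha

/-- island sides of the cylindrification -/
theorem icl_sub (H : GlueZ L Q A φ ψ P₀) (hL : 2 * (L + 1) < N) :
    P₀.image (icl V Φ N) ⊆ dE (cyQ N H hL) (A.image Sum.inl) := by
  intro a ha
  obtain ⟨b, hb, rfl⟩ := Finset.mem_image.mp ha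
  obtain ⟨f, hf, k, hk⟩ := mem_dE.mp (H.P_sub hb)
  refine mem_dE.mpr ⟨_, Finset.mem_image_of_mem _ hf, k, ?_⟩
  rw [sd_cyA H hL hf]
  rcases hk with rfl | rfl
  · exact Or.inl rfl
  · exact Or.inr rfl

/-- a window large enough -/
theorem ex_pow {L : ℤ} (h0 : 0 < L) (K : ℤ) : ∃ n : ℕ, K ≤ 4 ^ n * L := by
  refine ⟨K.toNat, ?_⟩
  have h1 := Int.self_le_toNat K
  have h2 : ((K.toNat : ℕ) : ℤ) ≤ 4 ^ K.toNat := by
    have := (Nat.lt_pow_self (by norm_num : 1 < 4) (n := K.toNat)).le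
    exact_mod_cast this
  have h3 : (0 : ℤ) < 4 ^ K.toNat := by positivity
  nlinarith

/-- **Cylinders for the double of the upper half.** -/
theorem dblUp_of (h0 : 0 < L) (hL' : L + |g| ≤ L') (C : Cyh.CutZ g L Q A φ ψ S₂ S₁ m)
    (H : GlueZ L Q A φ ψ P₀) (hoff : Off m P₀)
    (hG : ∃ N₀ : ℕ, ∀ (N : ℕ) [Fact (3 ≤ N)] (hL : 2 * (L + 1) < N), Odd N → N₀ ≤ N →
      ∃ M₀ : ℤ, ∀ M, M₀ ≤ M → Gd true g L' (M - g) H hL S₂ (Cyh.cyM Φ N L g φ true m)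
        (cutC C H hL).up.os (FD N M L A (Cyh.cyS A S₂ true g (outC N L)))) :
    DblUp L' C H := by
  intro n'
  obtain ⟨N₀, hG⟩ := hG
  obtain ⟨n, hn⟩ := ex_pow h0 (4 ^ n' * L' + |g|)
  refine ⟨max N₀ ((2 * (4 ^ n * L)).toNat + (2 * (L' + |g|)).toNat + 1), ?_⟩
  intro N _ hL hodd hN
  obtain ⟨M₀, hG⟩ := hG N hL hodd ((le_max_left _ _).trans hN)
  have hN2 := (le_max_right _ _).trans hN
  have t1 := Int.self_le_toNat (2 * (4 ^ n * L))
  have t2 := Int.self_le_toNat (2 * (L' + |g|))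
  refine ⟨max M₀ (L' + |g|), ?_⟩
  intro M hM h₁ h₂ e1 e2
  have hcut := cutC C H hL
  exact cyl_dbl C.hi H hL h0 (by omega) hL' hn rfl hcut.up.os (by rw [if_pos rfl])
    ((le_max_right _ _).trans hM) (by omega) (hG M ((le_max_left _ _).trans hM))
    (fun f hf k hk => off_core hcut.up.os (off_cy C H hL hoff) (P₀ := P₀.image (icl V Φ N))
      (icl_sub H hL) (fun f hf => (hcut.cov f hf).symm)
      (fun f hf f' hf' k l h => hcut.sep f' hf' f hf l k h.symm) hf hk) e1 e2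

/-- **Cylinders for the double of the lower half.** -/
theorem dblLo_of (h0 : 0 < L) (hL' : L + |g| ≤ L') (C : Cyh.CutZ g L Q A φ ψ S₂ S₁ m)
    (H : GlueZ L Q A φ ψ P₀) (hoff : Off m P₀)
    (hG : ∃ N₀ : ℕ, ∀ (N : ℕ) [Fact (3 ≤ N)] (hL : 2 * (L + 1) < N), Odd N → N₀ ≤ N →
      ∃ M₀ : ℤ, ∀ M, M₀ ≤ M → Gd false g L' (M + g) H hL S₁
        (revFam (Cyh.cyM Φ N L g φ true m))
        (cutC C H hL).lo.os (FD N M L A (Cyh.cyS A S₁ false g (outC N L)))) :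
    DblLo L' C H := by
  intro n'
  obtain ⟨N₀, hG⟩ := hG
  obtain ⟨n, hn⟩ := ex_pow h0 (4 ^ n' * L' + |g|)
  refine ⟨max N₀ ((2 * (4 ^ n * L)).toNat + (2 * (L' + |g|)).toNat + 1), ?_⟩
  intro N _ hL hodd hN
  obtain ⟨M₀, hG⟩ := hG N hL hodd ((le_max_left _ _).trans hN)
  have hN2 := (le_max_right _ _).trans hN
  have t1 := Int.self_le_toNat (2 * (4 ^ n * L))
  have t2 := Int.self_le_toNat (2 * (L' + |g|))
  refine ⟨max M₀ (L' + |g|), ?_⟩
  intro M hM h₁ h₂ e1 e2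
  have hcut := cutC C H hL
  exact cyl_dbl C.lo H hL h0 (by omega) hL' hn Cyh.rev_cyM hcut.lo.os
    (by rw [if_neg (by simp)])
    ((le_max_right _ _).trans hM) (by omega) (hG M ((le_max_left _ _).trans hM))
    (fun f hf k hk => off_core hcut.lo.os (off_cy C H hL hoff).rev
      (P₀ := P₀.image (icl V Φ N)) (icl_sub H hL) (fun f hf => hcut.cov f hf)
      (fun f hf f' hf' k l h => onCut_revFam.mpr (by
        rw [h]
        exact hcut.sep f hf f' hf' k l h)) hf hk) e1 e2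

end

end Pool.Agent.SixB.Hcs
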