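import Pool.Agent.Lib.SixB.S3SlbSurf

/-!
# 6BD step 3: the environment of a slab as a surface with a slab, part 2: shift covariance (row R17)

* `Slb.ph_u`, `Slb.ph_l`: the phases, `Slb.Z_u`, `Slb.Z_l`: the island sides, `Slb.hz_u`, `Slb.hz_l`: the weights are shift
  covariant on the sides of the upper and of the lower part.
-/

set_option autoImplicit false
set_option linter.unusedSectionVars false

namespace Pool.Agent.SixB

open Pool.Agent.Perc Pool.Agent.Perc.Q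
open Pool.Agent.SixB.Rel (mem_RF0 RF0_mono)

namespace Slb

noncomputable section

variable {S : Slb} {W W' : Finset (ℤ × ℤ)} {X Y X' Y' t L L' : ℤ} {k l : ZMod 4}
  {f g : Option Bool × (ℤ × ℤ)} {a : (Option Bool × (ℤ × ℤ)) × (Option Bool × (ℤ × ℤ))}

/-! ## Phases -/

/-- the shifted side -/
abbrev sh (t : ℤ) (a : (Option Bool × (ℤ × ℤ)) × (Option Bool × (ℤ × ℤ))) :
    (Option Bool × (ℤ × ℤ)) × (Option Bool × (ℤ × ℤ)) :=
  Prod.map (Prod.map id (shv t)) (Prod.map id (shv t)) a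

theorem shv_neg (t : ℤ) (p : ℤ × ℤ) : shv (-t) (shv t p) = p := by
  unfold shv
  simp

theorem shv_inj {t : ℤ} {p q : ℤ × ℤ} (h : shv t p = shv t q) : p = q := by
  have := congrArg (shv (-t)) h
  rwa [shv_neg, shv_neg] at this

theorem Hst_shv (m : ℝ) (x : ℤ) : (S.geo (X + t)).Hst m (x + t) = (S.geo X).Hst m x := by
  unfold BGeo.Hst geo
  simp only
  have e1 : (x + t < S.x2 + (X + t) + 5 * (S.k : ℤ)) = (x < S.x2 + X + 5 * (S.k : ℤ)) :=
    propext (by omega)
  have e2 : (x + t < S.x2 + (X + t) + 2 * (S.k : ℤ)) = (x < S.x2 + X + 2 * (S.k : ℤ)) :=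
    propext (by omega)
  have e3 : (x + t < S.x2 + (X + t)) = (x < S.x2 + X) := propext (by omega)
  have e4 : (x + t < S.x1 + (X + t) - 2 * (S.k : ℤ)) = (x < S.x1 + X - 2 * (S.k : ℤ)) :=
    propext (by omega)
  have e5 : (x + t < S.x1 + (X + t) - 5 * (S.k : ℤ)) = (x < S.x1 + X - 5 * (S.k : ℤ)) :=
    propext (by omega)
  simp only [e1, e2, e3, e4, e5]

theorem blkPh_shv (m : ℝ) (p q : ℤ × ℤ) :
    (S.geo (X + t)).blkPh m (shv t p, shv t q) = (S.geo X).blkPh m (p, q) := by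
  obtain ⟨p1, p2⟩ := p
  obtain ⟨q1, q2⟩ := q
  unfold BGeo.blkPh shv
  simp only [Prod.mk.injEq]
  have e1 : (q1 + t = p1 + t - 1 ∧ q2 = p2) = (q1 = p1 - 1 ∧ q2 = p2) := propext (by omega)
  have e2 : (q1 + t = p1 + t + 1 ∧ q2 = p2) = (q1 = p1 + 1 ∧ q2 = p2) := propext (by omega)
  have e3 : (q1 + t = p1 + t ∧ q2 = p2 + 1) = (q1 = p1 ∧ q2 = p2 + 1) := propext (by omega)
  have e4 : p1 + t - 1 = p1 - 1 + t := by ring
  simp only [e1, e2, e3]
  rw [e4, Hst_shv, Hst_shv, Hst_shv]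

theorem rot_shv (v : ℤ × ℤ) : (S.geo (X + t)).rot (shv t v) = shv t ((S.geo X).rot v) := by
  unfold BGeo.rot geo shv
  simp only [Prod.mk.injEq, and_true]
  ring

theorem gph_shv (up : Bool) (m ρ : ℝ) (p q : ℤ × ℤ) :
    (S.geo (X + t)).ph up m ρ (shv t p, shv t q) = (S.geo X).ph up m ρ (p, q) := by
  unfold BGeo.ph
  cases up
  · simp only [Bool.false_eq_true, if_false]
    rw [rot_shv, rot_shv, blkPh_shv]
  · simp only [if_true]
    rw [blkPh_shv]

theorem shP_shv (ψ : (ℤ × ℤ) × (ℤ × ℤ) → ℝ) (p q : ℤ × ℤ) :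
    shP (X + t) ψ (shv t p, shv t q) = shP X ψ (p, q) := by
  have key : ∀ p : ℤ × ℤ, shv (-(X + t)) (shv t p) = shv (-X) p := by
    intro p
    unfold shv
    simp only [Prod.mk.injEq, and_true]
    ring
  unfold shP
  simp only [key]

/-- the phases of the upper part are shift covariant -/
theorem ph_u (h1 : a.1.1 ≠ some false) (h2 : a.2.1 ≠ some false)
    (h3 : (a.1.1 = some true ∨ a.2.1 = some true) ∨ (S.yc ≤ a.1.2.2 ∧ S.yc ≤ a.2.2.2)) :
    S.ph W' (X + t) Y' (sh t a) = S.ph W X Y a := by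
  obtain ⟨⟨s, p⟩, ⟨s', q⟩⟩ := a
  simp only at h1 h2 h3
  unfold ph SEnv.psi SEnv.pl
  simp only [Prod.map_apply, id_eq]
  by_cases h4 : s = some true ∨ s' = some true
  · rw [if_pos h4, if_pos h4]
    exact shP_shv _ _ _
  · have h5 := h3.resolve_left h4
    have h6 : ¬ (s = some false ∨ s' = some false) := fun h => h.elim h1 h2
    rw [if_neg h4, if_neg h4, if_neg h6, if_neg h6, if_pos, if_pos]
    · exact gph_shv _ _ _ _ _
    · exact h5
    · exact h5

/-- the phases of the lower part are shift covariant -/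
theorem ph_l (h1 : a.1.1 ≠ some true) (h2 : a.2.1 ≠ some true)
    (h3 : (a.1.1 = some false ∨ a.2.1 = some false) ∨ ¬ (S.yc ≤ a.1.2.2 ∧ S.yc ≤ a.2.2.2)) :
    S.ph W' X' (Y + t) (sh t a) = S.ph W X Y a := by
  obtain ⟨⟨s, p⟩, ⟨s', q⟩⟩ := a
  simp only at h1 h2 h3
  unfold ph SEnv.psi SEnv.pl
  simp only [Prod.map_apply, id_eq]
  have h6 : ¬ (s = some true ∨ s' = some true) := fun h => h.elim h1 h2
  rw [if_neg h6, if_neg h6]
  by_cases h4 : s = some false ∨ s' = some false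
  · rw [if_pos h4, if_pos h4]
    exact shP_shv _ _ _
  · have h5 := h3.resolve_left h4
    rw [if_neg h4, if_neg h4, if_neg, if_neg]
    · exact gph_shv _ _ _ _ _
    · exact h5
    · exact h5

/-! ## The infinite surface -/

/-- the faces of the infinite surface -/
def Fi (S : Slb) (X Y : ℤ) : Set (Option Bool × (ℤ × ℤ)) :=
  {f | (f.1 = none ∧ ¬ (S.geo X).solid true f.2 ∧ ¬ (S.geo Y).solid false f.2) ∨
    (f.1 = some true ∧ f.2 ∈ shF X S.Up) ∨ (f.1 = some false ∧ f.2 ∈ shF Y S.Lo)}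

theorem mem_Fi : f ∈ Fi S X Y ↔
    (f.1 = none ∧ ¬ (S.geo X).solid true f.2 ∧ ¬ (S.geo Y).solid false f.2) ∨
      (f.1 = some true ∧ f.2 ∈ shF X S.Up) ∨ (f.1 = some false ∧ f.2 ∈ shF Y S.Lo) := Iff.rfl

theorem F_Fi (hf : f ∈ (S.env W X Y).F) : f ∈ Fi S X Y := by
  rcases EnvB.mem_F.mp hf with ⟨h1, h2⟩ | h | h
  · exact Or.inl ⟨h1, (EnvB.mem_base.mp h2).2⟩
  · exact Or.inr (Or.inl h)
  · exact Or.inr (Or.inr h)

theorem FZ_eq (hL : Rel.InBx (S.env ∅ X Y) L) : Rel.FZ L (S.env (RFb (0, 0) L) X Y).F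
    (fun f => ((none : Option Bool), f)) = Fi S X Y := by
  ext f
  constructor
  · rintro (h | ⟨g, hg, rfl⟩)
    · exact F_Fi h
    · exact Or.inl ⟨rfl, fun h => hg (RF0_mono (by omega) (hL g (Or.inl h))),
        fun h => hg (RF0_mono (by omega) (hL g (Or.inr h)))⟩
  · rintro (⟨h1, h2⟩ | h | h)
    · by_cases h3 : f.2 ∈ RFb (0, 0) L
      · exact Or.inl (EnvB.mem_F.mpr (Or.inl ⟨h1, EnvB.mem_base.mpr ⟨h3, h2⟩⟩))
      · exact Or.inr ⟨f.2, h3, Prod.ext h1 rfl⟩
    · exact Or.inl (EnvB.mem_F.mpr (Or.inr (Or.inl h)))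
    · exact Or.inl (EnvB.mem_F.mpr (Or.inr (Or.inr h)))

/-- **The island sides are the boundary sides of the infinite surface.** -/
theorem mem_Z_iff (h : S.Ok) (hL : Rel.InBx (S.env ∅ X Y) L) :
    a ∈ (S.env (RFb (0, 0) L) X Y).Z ↔ ∃ f ∈ Fi S X Y, ∃ k, a = sd (S.env ∅ X Y).Q f k ∧
      Ini (S.env ∅ X Y).Q (Fi S X Y) a := by
  have hT : EnvB.Thk (S.env ∅ X Y) := thk h
  constructor
  · intro ha
    have h1 := (EnvB.mem_Z.mp ha).1
    obtain ⟨f, hf, k, e⟩ := bS_sd h1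
    refine ⟨f, F_Fi hf, k, e, fun g hg l h2 => ?_⟩
    rw [← FZ_eq hL] at hg
    obtain ⟨M, hM, h3⟩ := Rel.exists_win hg
    rw [show (S.env (RFb (0, 0) L) X Y).F = (Rel.win (S.env ∅ X Y) L).F from rfl,
      Rel.FM_env hL hM] at h3
    have h4 : a ∈ (Rel.win (S.env ∅ X Y) M).Z := by
      rw [Rel.Z_win hT hL hM]
      exact ha
    exact (mem_bS.mp (Rel.mem_Z_win.mp h4).1).2 g (by exact_mod_cast h3) l h2
  · rintro ⟨f, hf, k, rfl, hI⟩
    have h1 := Rel.ful_env hT hL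
    have h2 : Rel.FZ L (Rel.win (S.env ∅ X Y) L).F (fun f => ((none : Option Bool), f)) =
        Fi S X Y := FZ_eq hL
    rcases h1 f (by rw [h2]; exact hf) k (by rw [h2]; exact hI) with h3 | h3
    · exact h3
    · exfalso
      obtain ⟨g, hg, l, e⟩ := bS_sd (Rel.mem_Z_win.mp h3).1
      have e' : sd (S.env ∅ X Y).Q f k = (sd (S.env ∅ X Y).Q g l).swap := by
        rw [← Prod.swap_swap (sd (S.env ∅ X Y).Q f k)]
        exact congrArg Prod.swap e
      exact hI g (F_Fi hg) l e'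

/-! ## The corners -/

/-- heights of the corners -/
theorem c_hgt (f : ℤ × ℤ) (k : ZMod 4) : f.2 ≤ (ZQ.c f k).2 ∧ (ZQ.c f k).2 ≤ f.2 + 1 := by
  obtain ⟨x, y⟩ := f
  rcases EnvB.k4 k with rfl | rfl | rfl | rfl
  · exact ⟨le_rfl, by show y ≤ y + 1; omega⟩
  · exact ⟨le_rfl, by show y ≤ y + 1; omega⟩
  · exact ⟨by show y ≤ y + 1; omega, le_rfl⟩
  · exact ⟨by show y ≤ y + 1; omega, le_rfl⟩

/-- the corners of a base face -/
theorem c_none (h : S.Ok) {p : ℤ × ℤ} (h1 : ¬ (S.geo X).solid true p)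
    (h2 : ¬ (S.geo Y).solid false p) (k : ZMod 4) :
    (S.env W X Y).Q.c (none, p) k = (none, ZQ.c p k) := by
  rw [env_c, EnvB.msig_not fun i => ?_]
  · rfl
  · cases i
    · exact fun ha => h2 (adj_solid_l h ha)
    · exact fun ha => h1 (adj_solid_u h ha)

/-- the corners of a face of the upper pocket -/
theorem c_up (p : ℤ × ℤ) (k : ZMod 4) : (S.env W X Y).Q.c (some true, p) k = (some true, ZQ.c p k) ∨
    ((S.env W X Y).Q.c (some true, p) k = (none, ZQ.c p k) ∧ (ZQ.c p k).2 = S.yc + S.a) := by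
  classical
  rw [env_c, sig_some]
  by_cases ha : (EnvB.mu (S.env W X Y) true).adj p k
  · right
    rw [if_pos ha]
    rw [adj_u] at ha
    obtain ⟨-, h2, h3⟩ := ha
    refine ⟨rfl, ?_⟩
    rw [← h2]
    rcases h3 with rfl | rfl <;> rfl
  · left
    rw [if_neg ha]

/-- the corners of a face of the lower pocket -/
theorem c_lo (p : ℤ × ℤ) (k : ZMod 4) : (S.env W X Y).Q.c (some false, p) k = (some false, ZQ.c p k) ∨
    ((S.env W X Y).Q.c (some false, p) k = (none, ZQ.c p k) ∧ (ZQ.c p k).2 = S.yc - S.a) := by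
  classical
  rw [env_c, sig_some]
  by_cases ha : (EnvB.mu (S.env W X Y) false).adj p k
  · right
    rw [if_pos ha]
    rw [adj_l] at ha
    obtain ⟨-, h2, h3⟩ := ha
    refine ⟨rfl, ?_⟩
    rw [← h2]
    rcases h3 with rfl | rfl <;> rfl
  · left
    rw [if_neg ha]

/-- faces of the upper part, above the height `y` -/
def UpF (y : ℤ) (f : Option Bool × (ℤ × ℤ)) : Prop := f.1 = some true ∨ (f.1 = none ∧ y ≤ f.2.2)

/-- faces of the lower part, below the height `y` -/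
def LoF (y : ℤ) (f : Option Bool × (ℤ × ℤ)) : Prop := f.1 = some false ∨ (f.1 = none ∧ f.2.2 < y)

/-- neighbours of faces of the upper part -/
theorem nbr_u (h : S.Ok) (hf : f ∈ Fi S X Y) (hu : UpF (S.yc - S.a + 1) f) (hg : g ∈ Fi S X Y)
    (he : (S.env W X Y).Q.c f k = (S.env W X Y).Q.c g l) : UpF (S.yc - S.a) g := by
  have h0 := h.ha
  obtain ⟨s, p⟩ := f
  obtain ⟨s', q⟩ := g
  have hp := c_hgt p k
  have hq := c_hgt q l
  rcases mem_Fi.mp hg with ⟨h1, h2, h3⟩ | ⟨h1, -⟩ | ⟨h1, -⟩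
  · simp only at h1 h2 h3
    subst h1
    rw [c_none h h2 h3] at he
    right
    refine ⟨rfl, ?_⟩
    show S.yc - S.a ≤ q.2
    rcases hu with h4 | ⟨h4, h5⟩
    · simp only at h4
      subst h4
      rcases c_up (S := S) (W := W) (X := X) (Y := Y) p k with h6 | ⟨h6, h7⟩
      · rw [h6] at he
        exact absurd (congrArg Prod.fst he) (Option.some_ne_none _)
      · rw [h6] at he
        have h8 : (ZQ.c p k).2 = (ZQ.c q l).2 := congrArg (fun z => z.2.2) he
        omega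
    · simp only at h4 h5
      subst h4
      have h8 : (ZQ.c p k).2 = (ZQ.c q l).2 := congrArg (fun z => z.2.2) he
      omega
  · exact Or.inl h1
  · exfalso
    simp only at h1
    subst h1
    have h9 : ((S.env W X Y).Q.c (s, p) k).1 ≠ some false ∧
        (((S.env W X Y).Q.c (s, p) k).1 = none → S.yc - S.a < (ZQ.c p k).2) := by
      rcases hu with h4 | ⟨h4, h5⟩
      · simp only at h4
        subst h4
        rcases c_up (S := S) (W := W) (X := X) (Y := Y) p k with h6 | ⟨h6, h7⟩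
        · rw [h6]
          exact ⟨by simp, fun h => absurd h (Option.some_ne_none _)⟩
        · rw [h6]
          exact ⟨by simp, fun _ => by omega⟩
      · simp only at h4 h5
        subst h4
        rcases mem_Fi.mp hf with ⟨-, h2, h3⟩ | ⟨h2, -⟩ | ⟨h2, -⟩
        · rw [c_none h h2 h3]
          exact ⟨by simp, fun _ => by omega⟩
        · exact absurd h2 (by simp)
        · exact absurd h2 (by simp)
    rw [he] at h9
    have h8 : (ZQ.c p k).2 = (ZQ.c q l).2 := congrArg (fun z => z.2.2) he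
    rcases c_lo (S := S) (W := W) (X := X) (Y := Y) q l with h6 | ⟨h6, h7⟩
    · rw [h6] at h9
      exact h9.1 rfl
    · rw [h6] at h9
      have := h9.2 rfl
      omega

/-- neighbours of faces of the lower part -/
theorem nbr_l (h : S.Ok) (hf : f ∈ Fi S X Y) (hu : LoF (S.yc + S.a - 1) f) (hg : g ∈ Fi S X Y)
    (he : (S.env W X Y).Q.c f k = (S.env W X Y).Q.c g l) : LoF (S.yc + S.a) g := by
  have h0 := h.ha
  obtain ⟨s, p⟩ := f
  obtain ⟨s', q⟩ := g
  have hp := c_hgt p k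
  have hq := c_hgt q l
  rcases mem_Fi.mp hg with ⟨h1, h2, h3⟩ | ⟨h1, -⟩ | ⟨h1, -⟩
  · simp only at h1 h2 h3
    subst h1
    rw [c_none h h2 h3] at he
    right
    refine ⟨rfl, ?_⟩
    show q.2 < S.yc + S.a
    rcases hu with h4 | ⟨h4, h5⟩
    · simp only at h4
      subst h4
      rcases c_lo (S := S) (W := W) (X := X) (Y := Y) p k with h6 | ⟨h6, h7⟩
      · rw [h6] at he
        exact absurd (congrArg Prod.fst he) (Option.some_ne_none _)
      · rw [h6] at he
        have h8 : (ZQ.c p k).2 = (ZQ.c q l).2 := congrArg (fun z => z.2.2) he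
        omega
    · simp only at h4 h5
      subst h4
      have h8 : (ZQ.c p k).2 = (ZQ.c q l).2 := congrArg (fun z => z.2.2) he
      omega
  · exfalso
    simp only at h1
    subst h1
    have h9 : ((S.env W X Y).Q.c (s, p) k).1 ≠ some true ∧
        (((S.env W X Y).Q.c (s, p) k).1 = none → (ZQ.c p k).2 < S.yc + S.a) := by
      rcases hu with h4 | ⟨h4, h5⟩
      · simp only at h4
        subst h4
        rcases c_lo (S := S) (W := W) (X := X) (Y := Y) p k with h6 | ⟨h6, h7⟩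
        · rw [h6]
          exact ⟨by simp, fun h => absurd h (Option.some_ne_none _)⟩
        · rw [h6]
          exact ⟨by simp, fun _ => by omega⟩
      · simp only at h4 h5
        subst h4
        rcases mem_Fi.mp hf with ⟨-, h2, h3⟩ | ⟨h2, -⟩ | ⟨h2, -⟩
        · rw [c_none h h2 h3]
          exact ⟨by simp, fun _ => by omega⟩
        · exact absurd h2 (by simp)
        · exact absurd h2 (by simp)
    rw [he] at h9
    have h8 : (ZQ.c p k).2 = (ZQ.c q l).2 := congrArg (fun z => z.2.2) he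
    rcases c_up (S := S) (W := W) (X := X) (Y := Y) q l with h6 | ⟨h6, h7⟩
    · rw [h6] at h9
      exact h9.1 rfl
    · rw [h6] at h9
      have := h9.2 rfl
      omega
  · exact Or.inl h1

/-! ## Shifts of the faces -/

theorem solid_add {up : Bool} {p : ℤ × ℤ} :
    (S.geo (X + t)).solid up (shv t p) ↔ (S.geo X).solid up p := by
  unfold BGeo.solid BGeo.cham BGeo.hgt geo shv
  simp only
  cases up <;> simp only [if_true, Bool.false_eq_true, if_false] <;> omega

theorem shF_add {A : Finset (ℤ × ℤ)} {p : ℤ × ℤ} : shv t p ∈ shF (X + t) A ↔ p ∈ shF X A := by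
  rw [mem_shF, mem_shF]
  have : shv (-(X + t)) (shv t p) = shv (-X) p := by
    unfold shv
    simp only [Prod.mk.injEq, and_true]
    ring
  rw [this]

theorem Fi_u (hf : f ∈ Fi S X Y) (hu : UpF (S.yc - S.a) f) :
    Prod.map id (shv t) f ∈ Fi S (X + t) Y' := by
  obtain ⟨s, p⟩ := f
  rcases mem_Fi.mp hf with ⟨h1, h2, h3⟩ | ⟨h1, h2⟩ | ⟨h1, -⟩
  · simp only at h1 h2
    subst h1
    refine Or.inl ⟨rfl, fun h => h2 (solid_add.mp h), fun h => ?_⟩
    rcases hu with h4 | ⟨-, h4⟩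
    · exact absurd h4 (by simp)
    · obtain ⟨h5, -⟩ := h
      unfold BGeo.hgt geo at h5
      simp only [Bool.false_eq_true, if_false, Prod.map_apply, id_eq] at h4 h5
      unfold shv at h5
      simp only at h5
      omega
  · exact Or.inr (Or.inl ⟨h1, shF_add.mpr h2⟩)
  · simp only at h1
    subst h1
    rcases hu with h4 | ⟨h4, -⟩ <;> exact absurd h4 (by simp)

theorem Fi_l (hf : f ∈ Fi S X Y) (hu : LoF (S.yc + S.a) f) :
    Prod.map id (shv t) f ∈ Fi S X' (Y + t) := by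
  obtain ⟨s, p⟩ := f
  rcases mem_Fi.mp hf with ⟨h1, h2, h3⟩ | ⟨h1, -⟩ | ⟨h1, h2⟩
  · simp only at h1 h3
    subst h1
    refine Or.inl ⟨rfl, fun h => ?_, fun h => h3 (solid_add.mp h)⟩
    rcases hu with h4 | ⟨-, h4⟩
    · exact absurd h4 (by simp)
    · obtain ⟨h5, -⟩ := h
      unfold BGeo.hgt geo at h5
      simp only [if_true, Prod.map_apply, id_eq] at h4 h5
      unfold shv at h5
      simp only at h5
      omega
  · simp only at h1
    subst h1
    rcases hu with h4 | ⟨h4, -⟩ <;> exact absurd h4 (by simp)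
  · exact Or.inr (Or.inr ⟨h1, shF_add.mpr h2⟩)

theorem sd_u (hu : UpF (S.yc - S.a) f) : sd (S.env W' (X + t) Y').Q (Prod.map id (shv t) f) k =
    sh t (sd (S.env W X Y).Q f k) := by
  obtain ⟨s, p⟩ := f
  exact Prod.ext (shc_u hu) (shc_u hu)

theorem sd_l (hu : LoF (S.yc + S.a) f) : sd (S.env W' X' (Y + t)).Q (Prod.map id (shv t) f) k =
    sh t (sd (S.env W X Y).Q f k) := by
  obtain ⟨s, p⟩ := f
  exact Prod.ext (shc_l hu) (shc_l hu)

theorem mv_neg (t : ℤ) (f : Option Bool × (ℤ × ℤ)) :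
    Prod.map id (shv t) (Prod.map id (shv (-t)) f) = f := by
  obtain ⟨s, p⟩ := f
  have := shv_neg (-t) p
  rw [neg_neg] at this
  exact Prod.ext rfl this

theorem mv_neg' (t : ℤ) (f : Option Bool × (ℤ × ℤ)) :
    Prod.map id (shv (-t)) (Prod.map id (shv t) f) = f := by
  obtain ⟨s, p⟩ := f
  exact Prod.ext rfl (shv_neg t p)

theorem mv_inj {t : ℤ} {f g : Option Bool × (ℤ × ℤ)}
    (h : Prod.map id (shv t) f = Prod.map id (shv t) g) : f = g := by
  have := congrArg (Prod.map id (shv (-t))) h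
  rwa [mv_neg', mv_neg'] at this

theorem sh_inj {t : ℤ} {a b : (Option Bool × (ℤ × ℤ)) × (Option Bool × (ℤ × ℤ))}
    (h : sh t a = sh t b) : a = b :=
  Prod.ext (mv_inj (congrArg Prod.fst h)) (mv_inj (congrArg Prod.snd h))

theorem UpF_mv {y : ℤ} (hu : UpF y f) : UpF y (Prod.map id (shv t) f) := hu

theorem LoF_mv {y : ℤ} (hu : LoF y f) : LoF y (Prod.map id (shv t) f) := hu

theorem UpF.mono {y y' : ℤ} (hu : UpF y f) (h : y' ≤ y) : UpF y' f :=
  hu.imp_right fun h1 => ⟨h1.1, h.trans h1.2⟩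

theorem LoF.mono {y y' : ℤ} (hu : LoF y f) (h : y ≤ y') : LoF y' f :=
  hu.imp_right fun h1 => ⟨h1.1, h1.2.trans_le h⟩

/-- `X + t - t = X` for the faces -/
theorem Fi_back {t : ℤ} (h : f ∈ Fi S (X + t + -t) Y) : f ∈ Fi S X Y := by
  rwa [add_neg_cancel_right] at h

theorem Fi_back' {t : ℤ} (h : f ∈ Fi S X (Y + t + -t)) : f ∈ Fi S X Y := by
  rwa [add_neg_cancel_right] at h

/-! ## Island sides -/

theorem ini_u (h : S.Ok) (hf : f ∈ Fi S X Y) (hu : UpF (S.yc - S.a + 1) f)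
    (hI : Ini (S.env W X Y).Q (Fi S X Y) (sd (S.env W X Y).Q f k)) :
    Ini (S.env W' (X + t) Y').Q (Fi S (X + t) Y') (sh t (sd (S.env W X Y).Q f k)) := by
  intro g' hg' l he
  have hu0 := hu.mono (show S.yc - S.a ≤ S.yc - S.a + 1 by omega)
  have e1 : sd (S.env W' (X + t) Y').Q (Prod.map id (shv t) f) k = _ :=
    sd_u (S := S) (W := W) (W' := W') (X := X) (Y := Y) (Y' := Y') (t := t) (k := k) hu0
  rw [← e1] at he
  have h1 := nbr_u (k := k) (l := l + 1) h (Fi_u (t := t) (Y' := Y') hf hu0) (UpF_mv hu) hg'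
    (congrArg Prod.fst he)
  have h2 : Prod.map id (shv (-t)) g' ∈ Fi S X Y := Fi_back (Fi_u (t := -t) (Y' := Y) hg' h1)
  have h3 : UpF (S.yc - S.a) (Prod.map id (shv (-t)) g') := UpF_mv h1
  have e2 : sd (S.env W' (X + t) Y').Q (Prod.map id (shv t) (Prod.map id (shv (-t)) g')) l = _ :=
    sd_u (S := S) (W := W) (W' := W') (X := X) (Y := Y) (Y' := Y') (t := t) (k := l) h3
  rw [mv_neg] at e2
  refine hI _ h2 l (sh_inj (t := t) ?_)
  rw [← e1, he]
  exact congrArg Prod.swap e2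

theorem ini_l (h : S.Ok) (hf : f ∈ Fi S X Y) (hu : LoF (S.yc + S.a - 1) f)
    (hI : Ini (S.env W X Y).Q (Fi S X Y) (sd (S.env W X Y).Q f k)) :
    Ini (S.env W' X' (Y + t)).Q (Fi S X' (Y + t)) (sh t (sd (S.env W X Y).Q f k)) := by
  intro g' hg' l he
  have hu0 := hu.mono (show S.yc + S.a - 1 ≤ S.yc + S.a by omega)
  have e1 : sd (S.env W' X' (Y + t)).Q (Prod.map id (shv t) f) k = _ :=
    sd_l (S := S) (W := W) (W' := W') (X := X) (Y := Y) (X' := X') (t := t) (k := k) hu0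
  rw [← e1] at he
  have h1 := nbr_l (k := k) (l := l + 1) h (Fi_l (t := t) (X' := X') hf hu0) (LoF_mv hu) hg'
    (congrArg Prod.fst he)
  have h2 : Prod.map id (shv (-t)) g' ∈ Fi S X Y := Fi_back' (Fi_l (t := -t) (X' := X) hg' h1)
  have h3 : LoF (S.yc + S.a) (Prod.map id (shv (-t)) g') := LoF_mv h1
  have e2 : sd (S.env W' X' (Y + t)).Q (Prod.map id (shv t) (Prod.map id (shv (-t)) g')) l = _ :=
    sd_l (S := S) (W := W) (W' := W') (X := X) (Y := Y) (X' := X') (t := t) (k := l) h3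
  rw [mv_neg] at e2
  refine hI _ h2 l (sh_inj (t := t) ?_)
  rw [← e1, he]
  exact congrArg Prod.swap e2

theorem Z_side (h : S.Ok) (hL : Rel.InBx (S.env ∅ X Y) L) (hf : f ∈ Fi S X Y) :
    sd (S.env W X Y).Q f k ∈ (S.env (RFb (0, 0) L) X Y).Z ↔
      Ini (S.env W X Y).Q (Fi S X Y) (sd (S.env W X Y).Q f k) := by
  rw [mem_Z_iff h hL]
  constructor
  · rintro ⟨g, -, l, -, hI⟩
    exact hI
  · intro hI
    exact ⟨f, hf, k, rfl, hI⟩

theorem Z_swap (h : S.Ok) (hL : Rel.InBx (S.env ∅ X Y) L) (hf : f ∈ Fi S X Y) :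
    (sd (S.env W X Y).Q f k).swap ∉ (S.env (RFb (0, 0) L) X Y).Z := by
  rw [mem_Z_iff h hL]
  rintro ⟨g, -, l, -, hI⟩
  exact hI f hf k rfl

/-- **The island sides of the upper part are shift covariant.** -/
theorem Z_u (h : S.Ok) (hL : Rel.InBx (S.env ∅ X Y) L) (hL' : Rel.InBx (S.env ∅ (X + t) Y') L')
    (hf : f ∈ Fi S X Y) (hu : UpF (S.yc - S.a + 1) f)
    (ha : a = sd (S.env W X Y).Q f k ∨ a = (sd (S.env W X Y).Q f k).swap) :
    sh t a ∈ (S.env (RFb (0, 0) L') (X + t) Y').Z ↔ a ∈ (S.env (RFb (0, 0) L) X Y).Z := by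
  have hu0 := hu.mono (show S.yc - S.a ≤ S.yc - S.a + 1 by omega)
  have e1 : sd (S.env ∅ (X + t) Y').Q (Prod.map id (shv t) f) k = sh t (sd (S.env W X Y).Q f k) :=
    sd_u hu0
  have hf' : Prod.map id (shv t) f ∈ Fi S (X + t) Y' := Fi_u hf hu0
  rcases ha with rfl | rfl
  · rw [← e1, Z_side h hL' hf', Z_side h hL hf]
    constructor
    · intro hI
      have h1 := ini_u (W' := W) (t := -t) (Y' := Y) h hf' (UpF_mv hu) hI
      rw [add_neg_cancel_right, e1] at h1
      have e2 : sh (-t) (sh t (sd (S.env W X Y).Q f k)) = sd (S.env W X Y).Q f k :=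
        Prod.ext (mv_neg' t _) (mv_neg' t _)
      rwa [e2] at h1
    · intro hI
      rw [e1]
      exact ini_u h hf hu hI
  · have e3 : sh t (sd (S.env W X Y).Q f k).swap =
        (sd (S.env ∅ (X + t) Y').Q (Prod.map id (shv t) f) k).swap := by
      rw [e1]
      rfl
    rw [e3]
    exact iff_of_false (Z_swap h hL' hf') (Z_swap h hL hf)

/-- **The island sides of the lower part are shift covariant.** -/
theorem Z_l (h : S.Ok) (hL : Rel.InBx (S.env ∅ X Y) L) (hL' : Rel.InBx (S.env ∅ X' (Y + t)) L')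
    (hf : f ∈ Fi S X Y) (hu : LoF (S.yc + S.a - 1) f)
    (ha : a = sd (S.env W X Y).Q f k ∨ a = (sd (S.env W X Y).Q f k).swap) :
    sh t a ∈ (S.env (RFb (0, 0) L') X' (Y + t)).Z ↔ a ∈ (S.env (RFb (0, 0) L) X Y).Z := by
  have hu0 := hu.mono (show S.yc + S.a - 1 ≤ S.yc + S.a by omega)
  have e1 : sd (S.env ∅ X' (Y + t)).Q (Prod.map id (shv t) f) k = sh t (sd (S.env W X Y).Q f k) :=
    sd_l hu0
  have hf' : Prod.map id (shv t) f ∈ Fi S X' (Y + t) := Fi_l hf hu0
  rcases ha with rfl | rfl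
  · rw [← e1, Z_side h hL' hf', Z_side h hL hf]
    constructor
    · intro hI
      have h1 := ini_l (W' := W) (t := -t) (X' := X) h hf' (LoF_mv hu) hI
      rw [add_neg_cancel_right, e1] at h1
      have e2 : sh (-t) (sh t (sd (S.env W X Y).Q f k)) = sd (S.env W X Y).Q f k :=
        Prod.ext (mv_neg' t _) (mv_neg' t _)
      rwa [e2] at h1
    · intro hI
      rw [e1]
      exact ini_l h hf hu hI
  · have e3 : sh t (sd (S.env W X Y).Q f k).swap =
        (sd (S.env ∅ X' (Y + t)).Q (Prod.map id (shv t) f) k).swap := by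
      rw [e1]
      rfl
    rw [e3]
    exact iff_of_false (Z_swap h hL' hf') (Z_swap h hL hf)

/-! ## Weights -/

theorem vert_u (h : S.Ok) (hf : f ∈ Fi S X Y) (hu : UpF S.yc f) (k : ZMod 4) :
    ((S.env W X Y).Q.c f k).1 ≠ some false ∧
      (((S.env W X Y).Q.c f k).1 = none → S.yc ≤ ((S.env W X Y).Q.c f k).2.2) := by
  have h0 := h.ha
  obtain ⟨s, p⟩ := f
  have hp := c_hgt p k
  rcases hu with h4 | ⟨h4, h5⟩
  · simp only at h4
    subst h4
    rcases c_up (S := S) (W := W) (X := X) (Y := Y) p k with h6 | ⟨h6, h7⟩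
    · rw [h6]
      exact ⟨by simp, fun h => absurd h (Option.some_ne_none _)⟩
    · rw [h6]
      exact ⟨by simp, fun _ => by show S.yc ≤ (ZQ.c p k).2; omega⟩
  · simp only at h4 h5
    subst h4
    rcases mem_Fi.mp hf with ⟨-, h2, h3⟩ | ⟨h2, -⟩ | ⟨h2, -⟩
    · rw [c_none h h2 h3]
      exact ⟨by simp, fun _ => by show S.yc ≤ (ZQ.c p k).2; omega⟩
    · exact absurd h2 (by simp)
    · exact absurd h2 (by simp)

theorem vert_l (h : S.Ok) (hf : f ∈ Fi S X Y) (hu : LoF (S.yc - 1) f) (k : ZMod 4) :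
    ((S.env W X Y).Q.c f k).1 ≠ some true ∧
      (((S.env W X Y).Q.c f k).1 = none → ((S.env W X Y).Q.c f k).2.2 < S.yc) := by
  have h0 := h.ha
  obtain ⟨s, p⟩ := f
  have hp := c_hgt p k
  rcases hu with h4 | ⟨h4, h5⟩
  · simp only at h4
    subst h4
    rcases c_lo (S := S) (W := W) (X := X) (Y := Y) p k with h6 | ⟨h6, h7⟩
    · rw [h6]
      exact ⟨by simp, fun h => absurd h (Option.some_ne_none _)⟩
    · rw [h6]
      exact ⟨by simp, fun _ => by show (ZQ.c p k).2 < S.yc; omega⟩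
  · simp only at h4 h5
    subst h4
    rcases mem_Fi.mp hf with ⟨-, h2, h3⟩ | ⟨h2, -⟩ | ⟨h2, -⟩
    · rw [c_none h h2 h3]
      exact ⟨by simp, fun _ => by show (ZQ.c p k).2 < S.yc; omega⟩
    · exact absurd h2 (by simp)
    · exact absurd h2 (by simp)

theorem ph_sd_u (h : S.Ok) (hf : f ∈ Fi S X Y) (hu : UpF S.yc f) (k : ZMod 4) :
    S.ph W' (X + t) Y' (sh t (sd (S.env W X Y).Q f k)) = S.ph W X Y (sd (S.env W X Y).Q f k) := by
  obtain ⟨a1, a2⟩ := vert_u (W := W) h hf hu k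
  obtain ⟨b1, b2⟩ := vert_u (W := W) h hf hu (k + 1)
  refine ph_u a1 b1 ?_
  have key : ∀ s : Option Bool, s ≠ some false → s = some true ∨ s = none := by
    intro s hs
    rcases s with _ | s
    · exact Or.inr rfl
    · cases s
      · exact absurd rfl hs
      · exact Or.inl rfl
  rcases key _ a1 with h1 | h1
  · exact Or.inl (Or.inl h1)
  · rcases key _ b1 with h2 | h2
    · exact Or.inl (Or.inr h2)
    · exact Or.inr ⟨a2 h1, b2 h2⟩

theorem ph_sd_l (h : S.Ok) (hf : f ∈ Fi S X Y) (hu : LoF (S.yc - 1) f) (k : ZMod 4) :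
    S.ph W' X' (Y + t) (sh t (sd (S.env W X Y).Q f k)) = S.ph W X Y (sd (S.env W X Y).Q f k) := by
  obtain ⟨a1, a2⟩ := vert_l (W := W) h hf hu k
  obtain ⟨b1, b2⟩ := vert_l (W := W) h hf hu (k + 1)
  refine ph_l a1 b1 ?_
  have key : ∀ s : Option Bool, s ≠ some true → s = some false ∨ s = none := by
    intro s hs
    rcases s with _ | s
    · exact Or.inr rfl
    · cases s
      · exact Or.inl rfl
      · exact absurd rfl hs
  rcases key _ a1 with h1 | h1
  · exact Or.inl (Or.inl h1)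
  · rcases key _ b1 with h2 | h2
    · exact Or.inl (Or.inr h2)
    · exact Or.inr fun h3 => absurd (a2 h1) (not_lt.mpr h3.1)

open Classical in
/-- **The weights of the upper part are shift covariant.** -/
theorem hz_u (h : S.Ok) (hL : Rel.InBx (S.env ∅ X Y) L) (hL' : Rel.InBx (S.env ∅ (X + t) Y') L')
    {A : Finset (Option Bool × (ℤ × ℤ))} (hA : ∀ f ∈ A, f ∈ Fi S X Y ∧ UpF S.yc f)
    (ha : a ∈ dE (S.env W X Y).Q A) :
    Rel.hz (S.ph W' (X + t) Y') (S.env (RFb (0, 0) L') (X + t) Y').Z (sh t a) =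
      Rel.hz (S.ph W X Y) (S.env (RFb (0, 0) L) X Y).Z a := by
  have h0 := h.ha
  obtain ⟨f, hf, k, hk⟩ := mem_dE.mp ha
  obtain ⟨h1, h2⟩ := hA f hf
  have h3 := h2.mono (show S.yc - S.a + 1 ≤ S.yc by omega)
  have z1 := Z_u (W := W) h hL hL' h1 h3 hk
  have hk' : a.swap = sd (S.env W X Y).Q f k ∨ a.swap = (sd (S.env W X Y).Q f k).swap := by
    rcases hk with rfl | rfl
    · exact Or.inr rfl
    · exact Or.inl (Prod.swap_swap _)
  have z2 := Z_u (W := W) h hL hL' h1 h3 hk'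
  have z3 : (sh t a).swap = sh t a.swap := rfl
  unfold Rel.hz
  rw [z3]
  rcases hk with rfl | rfl
  · have hn := Z_swap (W := W) (k := k) h hL h1
    rw [if_neg (fun hh => hn (z2.mp hh)), if_neg hn, ph_sd_u h h1 h2]
    exact if_congr z1 rfl rfl
  · have hn := Z_swap (W := W) (k := k) h hL h1
    rw [if_neg (fun hh => hn (z1.mp hh)), if_neg hn]
    rw [Prod.swap_swap] at z2 ⊢
    rw [ph_sd_u h h1 h2]
    exact if_congr z2 rfl rfl

open Classical in
/-- **The weights of the lower part are shift covariant.** -/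
theorem hz_l (h : S.Ok) (hL : Rel.InBx (S.env ∅ X Y) L) (hL' : Rel.InBx (S.env ∅ X' (Y + t)) L')
    {A : Finset (Option Bool × (ℤ × ℤ))} (hA : ∀ f ∈ A, f ∈ Fi S X Y ∧ LoF (S.yc - 1) f)
    (ha : a ∈ dE (S.env W X Y).Q A) :
    Rel.hz (S.ph W' X' (Y + t)) (S.env (RFb (0, 0) L') X' (Y + t)).Z (sh t a) =
      Rel.hz (S.ph W X Y) (S.env (RFb (0, 0) L) X Y).Z a := by
  have h0 := h.ha
  obtain ⟨f, hf, k, hk⟩ := mem_dE.mp ha
  obtain ⟨h1, h2⟩ := hA f hf
  have h3 := h2.mono (show S.yc - 1 ≤ S.yc + S.a - 1 by omega)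
  have z1 := Z_l (W := W) h hL hL' h1 h3 hk
  have hk' : a.swap = sd (S.env W X Y).Q f k ∨ a.swap = (sd (S.env W X Y).Q f k).swap := by
    rcases hk with rfl | rfl
    · exact Or.inr rfl
    · exact Or.inl (Prod.swap_swap _)
  have z2 := Z_l (W := W) h hL hL' h1 h3 hk'
  have z3 : (sh t a).swap = sh t a.swap := rfl
  unfold Rel.hz
  rw [z3]
  rcases hk with rfl | rfl
  · have hn := Z_swap (W := W) (k := k) h hL h1
    rw [if_neg (fun hh => hn (z2.mp hh)), if_neg hn, ph_sd_l h h1 h2]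
    exact if_congr z1 rfl rfl
  · have hn := Z_swap (W := W) (k := k) h hL h1
    rw [if_neg (fun hh => hn (z1.mp hh)), if_neg hn]
    rw [Prod.swap_swap] at z2 ⊢
    rw [ph_sd_l h h1 h2]
    exact if_congr z2 rfl rfl

end

end Slb

end Pool.Agent.SixB
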