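import Pool.Agent.Lib.SixB.S3AsmC
import Pool.Agent.Lib.SixB.S3SlbSurfB
import Pool.Agent.Lib.SixB.S3Sandwich

/-!
# 6BD step 3: the pieces of `CylIn` (statements)

Circumference `N = n + 1`, `S : Slb`, `E(X, Y)` over the cylinder = `(S.slabS.sf X Y).QN N`, faces `FN N M`.
* `CyT.hC S N L X Y`: the weight of `E(X, Y)` over the cylinder (box `L`).
* `CyT.lv n y`: the sides of the row `y` of the base sheet; `CyT.sC N a`: the image of the side `a` of the plane.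
* `CyT.JL`: the joint limit for all shifts, one box, one circumference, one height.
* `CyT.MV`: the weights of the shifted parts.
* `CyT.InsC`: the insertion over the cylinder and its bound; `CyT.InsIn`: they exist.
* `CyT.SlabCyl`: `CylData` for one slab (from `JL`, `MV`).
-/

set_option autoImplicit false
set_option linter.unusedSectionVars false

namespace Pool.Agent.SixB.CyT

open Filter Topology Metric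
open Pool.Agent.Perc Pool.Agent.Perc.Q
open Pool.Agent.SixB.Asm3 Pool.Agent.SixB.Sand

noncomputable section

/-- vertices and faces over the cylinder -/
abbrev OC (N : ℕ) : Type := Option Bool × (ZMod N × ℤ)

/-- the weight of `E(X, Y)` over the cylinder -/
def hC (S : Slb) (N : ℕ) (L X Y : ℤ) : OC N × OC N → ℂ :=
  Surf.pushW (Surf.chi (Option Bool) N) (Rel.win (S.env ∅ X Y) L).Z
    (Rel.hz (S.ph ∅ X Y) (Rel.win (S.env ∅ X Y) L).Z)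

/-- the sides of the row `y` of the base sheet, directed up -/
def lv (n : ℕ) [Fact (3 ≤ n + 1)] (y : ℤ) (j : Fin (n + 1)) : OC (n + 1) × OC (n + 1) :=
  Prod.map (Prod.mk (none : Option Bool)) (Prod.mk (none : Option Bool)) (lvF n y j)

/-- the image of a side of the plane -/
def sC (N : ℕ) (a : (ℤ × ℤ) × (ℤ × ℤ)) : OC N × OC N :=
  Prod.map (Surf.chi (Option Bool) N) (Surf.chi (Option Bool) N) (sd0 a)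

/-- the faces of `R` are in the slab -/
def InSl (S : Slb) (R : Finset (ℤ × ℤ)) : Prop :=
  ∀ f ∈ R, S.x1 ≤ f.1 ∧ f.1 < S.x2 ∧ S.yc - S.a ≤ f.2 ∧ f.2 < S.yc + S.a

/-- the vectors -/
def uV (S : Slb) (n : ℕ) [Fact (3 ≤ n + 1)] (L M : ℤ) : HN (n + 1) :=
  zvec ((S.slabS.sf 0 0).QN (n + 1)) (S.slabS.UN (n + 1) 0 (S.yc + (S.a / 2 : ℕ)) M)
    (hC S (n + 1) L 0 0) (lv n (S.yc + (S.a / 2 : ℕ)))

def dV (S : Slb) (n : ℕ) [Fact (3 ≤ n + 1)] (L M : ℤ) : HN (n + 1) :=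
  dvec ((S.slabS.sf 0 0).QN (n + 1)) (S.slabS.LN (n + 1) 0 M (S.yc - (S.a / 2 : ℕ)))
    (hC S (n + 1) L 0 0) (lv n (S.yc - (S.a / 2 : ℕ)))

/-- **the joint limit**: `Wd` bound of the shifts, `R` faces of the insertion -/
def JL : Prop := ∀ (S : Slb), S.Ok → 2 ≤ S.a → ∀ (g : ℤ → ℤ × ℤ) (j : ℤ → ℝ) (K : ℕ),
  PhC S.D K g j S.ψ → ∀ (Wd : ℤ) (R : Finset (ℤ × ℤ)), InSl S R → ∀ ε : ℝ, 0 < ε →
  ∃ L : ℤ, (∀ X Y : ℤ, |X| ≤ Wd → |Y| ≤ Wd → (S.slabS.sf X Y).In L ∧ Asm3.bx S X Y ≤ L) ∧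
    ∃ N₀ : ℕ, ∀ (n : ℕ) [Fact (3 ≤ n + 1)], Odd (n + 1) → N₀ ≤ n + 1 →
      ∃ M₀ : ℤ, ∀ M, M₀ ≤ M → ∃ x0 x1 x2 : ℝ, (1 / 2 ≤ x0 ∧ x0 ≤ 2) ∧ (1 / 2 ≤ x1 ∧ x1 ≤ 2) ∧
        (1 / 2 ≤ x2 ∧ x2 ≤ 2) ∧
        (∀ X Y : ℤ, |X| ≤ Wd → |Y| ≤ Wd → ∀ e ∈ dE ZQ R,
          ‖Rel.avc ((S.slabS.sf X Y).FN (n + 1) M) (fun ω =>
              Zs ((S.slabS.sf X Y).QN (n + 1)) ((S.slabS.sf X Y).FN (n + 1) M) ω
                (fun b => hC S (n + 1) L X Y b * sgE (sC (n + 1) e) b)) -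
            ((Rel.r4 ^ (2 * (n + 1)) * x0 : ℝ) : ℂ) * zS S X Y R e‖ ≤ Rel.r4 ^ (2 * (n + 1)) * ε) ∧
        ‖dV S n L M‖ ^ 2 ≤ 2 ^ (2 * (S.slabS.LN (n + 1) 0 M (S.yc - (S.a / 2 : ℕ))).card) *
          Rel.r4 ^ (2 * (n + 1)) * (x1 * zD S + ε) ∧
        ‖uV S n L M‖ ^ 2 ≤ 2 ^ (2 * (S.slabS.UN (n + 1) 0 (S.yc + (S.a / 2 : ℕ)) M).card) *
          Rel.r4 ^ (2 * (n + 1)) * (x2 * zU S + ε)

/-- **the weights of the shifted parts** -/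
def MV : Prop := ∀ (S : Slb), S.Ok → 2 ≤ S.a → ∀ (L X Y : ℤ), (S.slabS.sf 0 0).In L →
  (S.slabS.sf X Y).In L → Asm3.bx S 0 0 ≤ L → Asm3.bx S X Y ≤ L → ∀ (N : ℕ) [Fact (3 ≤ N)], 2 * (L + 1) < N →
  ∀ M : ℤ,
    (∀ a ∈ dE ((S.slabS.sf 0 0).QN N) (S.slabS.UN N 0 (S.yc + (S.a / 2 : ℕ)) M),
      hC S N L X Y (Prod.map (SlabS.shN (Option Bool) N X) (SlabS.shN (Option Bool) N X) a) =
        hC S N L 0 0 a) ∧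
    (∀ a ∈ dE ((S.slabS.sf 0 0).QN N) (S.slabS.LN N 0 M (S.yc - (S.a / 2 : ℕ))),
      hC S N L X Y (Prod.map (SlabS.shN (Option Bool) N Y) (SlabS.shN (Option Bool) N Y) a) =
        hC S N L 0 0 a) ∧
    ∀ a ∈ dE ((S.slabS.sf X Y).QN N) (S.slabS.SN N (S.yc - (S.a / 2 : ℕ)) (S.yc + (S.a / 2 : ℕ))),
      hC S N L X Y a = 1

/-- **the insertion over the cylinder**: `c` on the cylinder, bounded; `f` = the function in the rectangle -/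
structure InsC (n : ℕ) [Fact (3 ≤ n + 1)] (B : ℝ) (x₀ x₁ y₀ y₁ : ℤ) (f : ℤ × ℤ → ℝ)
    (c : (ZMod (n + 1) × ℤ) × (ZMod (n + 1) × ℤ) → ℝ) : Prop where
  bdd : ∀ x, ‖jL n y₀ (y₁ - y₀).toNat c x‖ ≤ B * ‖x‖
  anti : ∀ e, c e.swap = -c e
  val : ∀ e ∈ Ins.EP (RF x₀ x₁ y₀ y₁), c (Prod.map (pN (n + 1)) (pN (n + 1)) e) = f e.2 - f e.1
  supp : ∀ e, c e ≠ 0 → ∃ e₀ ∈ Ins.EP (RF x₀ x₁ y₀ y₁), y₀ < e₀.1.2 ∧ e₀.1.2 < y₁ ∧ y₀ < e₀.2.2 ∧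
    e₀.2.2 < y₁ ∧ (e = Prod.map (pN (n + 1)) (pN (n + 1)) e₀ ∨
      e = (Prod.map (pN (n + 1)) (pN (n + 1)) e₀).swap)

/-- the insertions exist -/
def InsIn : Prop := ∀ (P : Finset (ℤ × ℤ)) (L : ℕ) (g : ℤ → ℤ × ℤ) {ι : Type} (l : Filter ι)
  (n : ι → ℕ), Tendsto n l atTop → ∀ (j : ι → ℤ → ℝ) (z0 : ℂ) (D : SFam P L g l n j z0) (z : ℂ)
  (r : ℝ), 0 < r → ∃ B > 0, ∀ᶠ i in l, ∃ N₀ : ℕ, ∀ (m : ℕ) [Fact (3 ≤ m + 1)], Odd (m + 1) →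
    N₀ ≤ m + 1 → ∃ c, InsC m B (⌊(n i : ℝ) * z.re⌋ - D.rR r i) (⌊(n i : ℝ) * z.re⌋ + D.rR r i)
      (⌊(n i : ℝ) * z.im⌋ - D.rR r i) (⌊(n i : ℝ) * z.im⌋ + D.rR r i) (D.ins z r i) c

/-- **`CylData` for one slab**: half height `rho` of the rectangle of the insertion, `Wd` bound of the shifts -/
def SlabCyl : Prop := ∀ (S : Slb), S.Ok → 2 ≤ S.a → ∀ (g : ℤ → ℤ × ℤ) (j : ℤ → ℝ) (K : ℕ),
  PhC S.D K g j S.ψ → ∀ (x₀ x₁ : ℤ) (rho : ℕ), 0 < rho → rho < S.a / 2 →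
  InSl S (RF x₀ x₁ (S.yc - rho) (S.yc + rho)) → ∀ (f : ℤ × ℤ → ℝ),
  Op.Inside x₀ x₁ (S.yc - rho) (S.yc + rho) f → ∀ B : ℝ, 0 < B →
  (∃ N₀ : ℕ, ∀ (m : ℕ) [Fact (3 ≤ m + 1)], Odd (m + 1) → N₀ ≤ m + 1 →
    ∃ c, InsC m B x₀ x₁ (S.yc - rho) (S.yc + rho) f c) →
  ∀ (Wd : ℕ) (L₀ : ℝ), L₀ ≤ ((S.a / 2 - rho : ℕ) : ℝ) → ∀ tol : ℝ, 0 < tol →
  ∃ N : ℕ, 1 ≤ N ∧ Nonempty (CylData N B 2 tol L₀ (fun x y => x ≤ Wd ∧ y ≤ Wd) (zU S) (zD S)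
    (fun x y => Ins.zJ x₀ x₁ (S.yc - rho) (S.yc + rho) f
      (zS S (-2 * y) (-2 * x) (RF x₀ x₁ (S.yc - rho) (S.yc + rho)))))

end

end Pool.Agent.SixB.CyT
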