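import Pool.Agent.Lib.SixB.S3bCoreS

/-!
# 6BD step 3: the finite doubles of the halves of a cylinder surface (rows R16, R17)

`E : SlabS S`, `E.Ok y₀ y₁`, the surface `(E.sf X Y).QN N` over the cylinder; `upS`, `loS`, `cutN` of S3bCoreS.
* `Z6_dblS`: the double of a finite part `F` in the double of the whole half, every weight.
* `os_UN`, `os_LN`: `OneSided` for the finite parts.
* `norm_up`, `norm_lo`: the norms of the vectors as `Z6` of `dblS`.
-/

set_option autoImplicit false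
set_option linter.unusedSectionVars false

namespace Pool.Agent.SixB

open Pool.Agent.Perc Pool.Agent.Perc.Q Relation
open Pool.Agent.SixB.Dbl (OneSidedS)

noncomputable section

/-! ## The finite double -/

section dbl

variable {V Φ ι : Type} [DecidableEq V] [DecidableEq Φ]

/-- **The double of a finite part in the double of the whole half.** -/
theorem Z6_dblS {Q : QC V Φ} {S : Set Φ} {F : Finset Φ} {m : ι → V × V} (hm : OneSided Q F m)
    (hm' : OneSidedS Q S m) (hF : ∀ f ∈ F, f ∈ S)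
    (h : (V × Bool × Bool) × (V × Bool × Bool) → ℂ) :
    Z6 (Dbl.dblS Q S m hm') (cpy F false ∪ cpy F true) h =
      Z6 (dbl Q F m hm) (cpy F false ∪ cpy F true) h := by
  classical
  have H := Dbl.dblS_chart (m := m) (m' := m) (hm := hm') (hm' := hm) hF (fun _ _ _ => Iff.rfl)
  have key : ∀ (b : Bool) (v : V), dblV m (dblV m b v).2.1 (dblV m b v).1 = dblV m b v := by
    intro b v
    unfold dblV
    by_cases h1 : onCut m v
    · rw [decide_eq_true h1]
      simp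
    · rw [decide_eq_false h1]
      simp
  have mem : ∀ p ∈ cpy F false ∪ cpy F true, p.1 ∈ F := by
    intro p hp
    rcases Finset.mem_union.mp hp with h1 | h1
    · obtain ⟨f, hf, rfl⟩ := Finset.mem_image.mp h1
      exact hf
    · obtain ⟨f, hf, rfl⟩ := Finset.mem_image.mp h1
      exact hf
  have cor : ∀ p : Φ × Bool, p.1 ∈ F → ∀ k, (dbl Q F m hm).c p k =
      dblV m p.2 (Q.c p.1 (if p.2 = true then 3 - k else k)) := by
    intro p hp k
    unfold dbl
    simp only [hp, if_true]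
  have h1 := Sand.Z6_chart H (h := h) (h' := h) ?_
  · rw [Finset.image_id] at h1
    exact h1
  · intro a ha
    obtain ⟨⟨p, hp, k, e1⟩, p', hp', k', e2⟩ := Rel.GlueC.dE_corner ha
    rw [cor p (mem p hp)] at e1
    rw [cor p' (mem p' hp')] at e2
    congr 1
    refine Prod.ext ?_ ?_
    · show dblV m a.1.2.1 a.1.1 = a.1
      rw [e1]
      exact key _ _
    · show dblV m a.2.2.1 a.2.1 = a.2
      rw [e2]
      exact key _ _

end dbl

namespace SlabS

section parts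

variable {S : Type} [DecidableEq S] {E : SlabS S} {y₀ y₁ L X Y M : ℤ} {N : ℕ} [hN : Fact (3 ≤ N)]

theorem UN_sub (f : S × (ZMod N × ℤ)) (hf : f ∈ E.UN N X y₁ M) : f ∈ E.upS N X y₁ := ⟨M, hf⟩

theorem LN_sub (f : S × (ZMod N × ℤ)) (hf : f ∈ E.LN N Y M y₀) : f ∈ E.loS N Y y₀ := ⟨M, hf⟩

/-- the row of faces above the cut -/
theorem row_UN (hE : E.Ok y₀ y₁) (hM : y₁ < M) (x : ZMod N) : (E.s0, (x, y₁)) ∈ E.UN N X y₁ M := by
  refine mem_UN.mpr (Or.inl ⟨rfl, mem_cylF_mk.mpr ⟨le_rfl, hM⟩, fun g hg e => ?_⟩)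
  have h5 := hE.Hu _ hg
  have h6 : g.2 = y₁ := congrArg Prod.snd e
  omega

/-- the row of faces below the cut -/
theorem row_LN (hE : E.Ok y₀ y₁) (hM : -M < y₀) (x : ZMod N) :
    (E.s0, (x, y₀ - 1)) ∈ E.LN N Y M y₀ := by
  refine mem_LN.mpr (Or.inl ⟨rfl, mem_cylF_mk.mpr ⟨by omega, by omega⟩, fun g hg e => ?_⟩)
  have h5 := hE.Hl _ hg
  have h6 : g.2 = y₀ - 1 := congrArg Prod.snd e
  omega

/-- **The cut line of the finite upper part.** -/
theorem os_UN (hE : E.Ok y₀ y₁) (hI : (E.sf X Y).In L) (hN' : 2 * L < N) (hM : y₁ < M) :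
    OneSided ((E.sf X Y).QN N) (E.UN N X y₁ M) (E.cutN N y₁) where
  fam := fam_cutN y₁
  into x := by
    have hlt := hE.hlt
    refine ⟨_, row_UN hE hM x, 0, ?_⟩
    unfold sd
    rw [cN_row hE hI (by simp only; omega) le_rfl, cN_row hE hI (by simp only; omega) le_rfl]
    rfl
  only f hf := (os_up hE hI hN').only f (UN_sub f hf)

/-- **The cut line of the finite lower part.** -/
theorem os_LN (hE : E.Ok y₀ y₁) (hI : (E.sf X Y).In L) (hN' : 2 * L < N) (hM : -M < y₀) :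
    OneSided ((E.sf X Y).QN N) (E.LN N Y M y₀) (revFam (E.cutN N y₀)) where
  fam := (os_lo hE hI hN').fam
  into x := by
    have hlt := hE.hlt
    refine ⟨_, row_LN hE hM x, 2, ?_⟩
    unfold sd
    rw [cN_row hE hI (by simp only; omega) (by simp only; omega),
      cN_row hE hI (by simp only; omega) (by simp only; omega)]
    have e1 : sd (CQ N) (x, y₀ - 1) 2 = (bE x y₀).swap := by
      rw [← Prod.swap_swap (sd (CQ N) (x, y₀ - 1) 2), csd_swap_2, sub_add_cancel]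
      rfl
    have e2 := (Prod.mk.inj e1)
    exact Prod.ext (Prod.ext rfl e2.1) (Prod.ext rfl e2.2)
  only f hf := (os_lo hE hI hN').only f (LN_sub f hf)

end parts

section norms

open Sand

variable {S : Type} [DecidableEq S] {E : SlabS S} {y₀ y₁ L X Y M : ℤ} {n : ℕ}
  [hn : Fact (3 ≤ n + 1)]

/-- **Norm of the upper vector.** -/
theorem norm_up (hE : E.Ok y₀ y₁) (hI : (E.sf X Y).In L) (hN' : 2 * L < ((n + 1 : ℕ) : ℤ))
    (hM : y₁ < M) (h : (S × (ZMod (n + 1) × ℤ)) × (S × (ZMod (n + 1) × ℤ)) → ℂ) :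
    ‖zvec ((E.sf X Y).QN (n + 1)) (E.UN (n + 1) X y₁ M) h
        (fun j => Prod.map (Prod.mk E.s0) (Prod.mk E.s0) (lvF n y₁ j))‖ ^ 2 =
      (Z6 (Dbl.dblS ((E.sf X Y).QN (n + 1)) (E.upS (n + 1) X y₁) (E.cutN (n + 1) y₁)
        (os_up hE hI hN')) (cpy (E.UN (n + 1) X y₁ M) false ∪ cpy (E.UN (n + 1) X y₁ M) true)
        (dblH (E.cutN (n + 1) y₁) h)).re := by
  rw [Z6_dblS (os_UN hE hI hN' hM) (os_up hE hI hN') UN_sub]
  exact norm_zvec _ _ _ _ (os_UN hE hI hN' hM)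

/-- **Norm of the lower vector.** -/
theorem norm_lo (hE : E.Ok y₀ y₁) (hI : (E.sf X Y).In L) (hN' : 2 * L < ((n + 1 : ℕ) : ℤ))
    (hM : -M < y₀) (h : (S × (ZMod (n + 1) × ℤ)) × (S × (ZMod (n + 1) × ℤ)) → ℂ) :
    ‖dvec ((E.sf X Y).QN (n + 1)) (E.LN (n + 1) Y M y₀) h
        (fun j => Prod.map (Prod.mk E.s0) (Prod.mk E.s0) (lvF n y₀ j))‖ ^ 2 =
      (Z6 (Dbl.dblS ((E.sf X Y).QN (n + 1)) (E.loS (n + 1) Y y₀) (revFam (E.cutN (n + 1) y₀))
        (os_lo hE hI hN')) (cpy (E.LN (n + 1) Y M y₀) false ∪ cpy (E.LN (n + 1) Y M y₀) true)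
        (dblH (revFam (E.cutN (n + 1) y₀)) h)).re := by
  rw [Z6_dblS (os_LN hE hI hN' hM) (os_lo hE hI hN') LN_sub]
  exact norm_dvec _ _ _ _ (fam_cutN y₀) (os_LN hE hI hN' hM)

end norms

end SlabS

end

end Pool.Agent.SixB
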