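import Pool.Agent.Lib.SixB.S3CylDef
import Pool.Agent.Lib.SixB.S3CylBdd

/-!
# 6BD step 3: the insertion over the cylinder exists and is bounded (row R17)

* `CyT.insC_cN`: `Ins.cN` is an insertion over the cylinder.
* `CyT.insIn`: the Prop `CyT.InsIn`.
-/

set_option autoImplicit false
set_option linter.unusedSectionVars false

namespace Pool.Agent.SixB.CyT

open Filter Topology Metric
open Pool.Agent.Perc Pool.Agent.Perc.Q Pool.Agent.PercD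
open Pool.Agent.SixB.Asm3 Pool.Agent.SixB.Sand

/-- the ends of a side with nonzero gradient are in the interior rows -/
theorem ends_row {v : ℤ × ℤ} {R : ℤ} {f : ℤ × ℤ → ℝ}
    (hf : Op.Inside (v.1 - R) (v.1 + R) (v.2 - R) (v.2 + R) f) {b : (ℤ × ℤ) × (ℤ × ℤ)}
    (hb : b ∈ dE ZQ (BR v R)) (h : f b.2 ≠ f b.1) : v.2 - R < b.1.2 ∧ b.1.2 < v.2 + R := by
  obtain ⟨-, -, i, hi⟩ := Op.dE_nbd (x₀ := v.1 - R) (x₁ := v.1 + R) (y₀ := v.2 - R) (y₁ := v.2 + R) hb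
  by_contra h4
  have h5 : ¬ (v.1 - R < b.1.1 ∧ b.1.1 < v.1 + R ∧ v.2 - R < b.1.2 ∧ b.1.2 < v.2 + R) := by tauto
  obtain ⟨h6, h7⟩ := Op.inside_nbd hf h5 i
  apply h
  have e3 : b.2 = Op.nbd i b.1 := congrArg Prod.snd hi
  rw [e3, h6, h7]

theorem insC_cN {m : ℕ} [Fact (3 ≤ m + 1)] {B : ℝ} {v : ℤ × ℤ} {R : ℤ} {f : ℤ × ℤ → ℝ}
    (hRN : 2 * R < ((m + 1 : ℕ) : ℤ)) (hf : Op.Inside (v.1 - R) (v.1 + R) (v.2 - R) (v.2 + R) f)
    (hB : ∀ x, ‖jL m (v.2 - R) (v.2 + R - (v.2 - R)).toNat (Ins.cN (m + 1) (BR v R) f) x‖ ≤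
      B * ‖x‖) :
    InsC m B (v.1 - R) (v.1 + R) (v.2 - R) (v.2 + R) f (Ins.cN (m + 1) (BR v R) f) where
  bdd := hB
  anti := Ins.cN_swap hRN
  val := fun e he => Ins.cN_map hRN (Ins.mem_EP.mp he).1
  supp := by
    intro e he
    obtain ⟨b, h1, h2, h3⟩ := Ins.cN_supp hRN he
    have h4 := ends_row hf h1 h3
    have h1' : b.swap ∈ dE ZQ (BR v R) := swap_mem_dE.mpr h1
    have h5 := ends_row hf h1' (show f b.swap.2 ≠ f b.swap.1 from fun h => h3 h.symm)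
    rcases Ins.EP_or h1 with h6 | h6
    · exact ⟨b, h6, h4.1, h4.2, h5.1, h5.2, Or.inl h2.symm⟩
    · refine ⟨b.swap, h6, h5.1, h5.2, h4.1, h4.2, Or.inr ?_⟩
      rw [← h2]
      rfl

/-- **The insertions exist and are bounded.** -/
theorem insIn : InsIn := by
  intro P L g ι l n hn j z0 D z r hr
  obtain ⟨B, hB, hJ⟩ := Asm3.jL_bdd
  refine ⟨B, hB, ?_⟩
  filter_upwards [hJ D hn z hr, D.inside hn z hr] with i h1 h2
  refine ⟨(2 * D.rR r i + 1).toNat, fun m hm hodd hN => ?_⟩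
  have hRN : 2 * D.rR r i < ((m + 1 : ℕ) : ℤ) := by omega
  refine ⟨Ins.cN (m + 1) (D.rc z r i) (D.ins z r i), ?_⟩
  exact insC_cN (v := (⌊(n i : ℝ) * z.re⌋, ⌊(n i : ℝ) * z.im⌋)) hRN h2
    (h1 m hodd hRN _ _ le_rfl (by simp only; omega))

end Pool.Agent.SixB.CyT
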