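import Pool.Agent.Lib.SixB.S3SlbSurfB
import Pool.Agent.Lib.SixB.S3AsmC

/-!
# 6BD step 3: the joint limit for the environments of a slab over the cylinder, definitions (`CylIn`)

* `y0 S`, `y1 S`: the rows of the cuts; `hN`: the phases over the cylinder; `uN`, `dN`: the vectors of the upper and of
  the lower part (shifts `0`).
* `Joint S B R ε n M X0 X1 X2`: on the cylinder of circumference `n + 1` and half height `M`, for all shifts `|X|, |Y| ≤ B`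
  and all sides `a` of `R`, the functional with the sign of `a` inserted is `r4 ^ (2 N) * X0 * zS` up to `ε`, and the
  squares of the norms of the vectors are at most `r4 ^ (2 N) * (X2 * zU + ε)`, `r4 ^ (2 N) * (X1 * zD + ε)` (all after
  division by powers of `2`).
* `JointLim S`: `Joint` for all large odd circumferences and all large heights.
-/

set_option autoImplicit false
set_option linter.unusedSectionVars false

namespace Pool.Agent.SixB.CylA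

open Pool.Agent.Perc Pool.Agent.Perc.Q Pool.Agent.SixB.Asm3 Pool.Agent.SixB.Sand

noncomputable section

/-- the upper cut row -/
def y1 (S : Slb) : ℤ := S.yc + (S.a / 2 : ℕ)

/-- the lower cut row -/
def y0 (S : Slb) : ℤ := S.yc - (S.a / 2 : ℕ)

/-- a side of the plane as a base side over the cylinder -/
def sdN (N : ℕ) (a : (ℤ × ℤ) × (ℤ × ℤ)) :
    (Option Bool × (ZMod N × ℤ)) × (Option Bool × (ZMod N × ℤ)) :=
  Prod.map (Surf.chi (Option Bool) N) (Surf.chi (Option Bool) N) (sd0 a)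

/-- the phases over the cylinder -/
def hN (S : Slb) (N : ℕ) (X Y : ℤ) :
    (Option Bool × (ZMod N × ℤ)) × (Option Bool × (ZMod N × ℤ)) → ℂ :=
  Surf.pushW (Surf.chi (Option Bool) N) (Asm3.eB S X Y).Z (Asm3.hB S X Y)

/-- the vector of the upper part -/
def uN (S : Slb) (n : ℕ) [Fact (3 ≤ n + 1)] (M : ℤ) : HN (n + 1) :=
  zvec ((S.slabS.sf 0 0).QN (n + 1)) (S.slabS.UN (n + 1) 0 (y1 S) M) (hN S (n + 1) 0 0)
    fun j => Prod.map (Prod.mk S.slabS.s0) (Prod.mk S.slabS.s0) (lvF n (y1 S) j)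

/-- the vector of the lower part -/
def dN (S : Slb) (n : ℕ) [Fact (3 ≤ n + 1)] (M : ℤ) : HN (n + 1) :=
  dvec ((S.slabS.sf 0 0).QN (n + 1)) (S.slabS.LN (n + 1) 0 M (y0 S)) (hN S (n + 1) 0 0)
    fun j => Prod.map (Prod.mk S.slabS.s0) (Prod.mk S.slabS.s0) (lvF n (y0 S) j)

/-- the joint approximation on the cylinder of circumference `n + 1` and half height `M`, shifts at most `B` -/
structure Joint (S : Slb) (B : ℤ) (R : Finset (ℤ × ℤ)) (ε : ℝ) (n : ℕ) [Fact (3 ≤ n + 1)] (M : ℤ)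
    (X0 X1 X2 : ℝ) : Prop where
  hX0 : 1 / 2 ≤ X0 ∧ X0 ≤ 2
  hX1 : 1 / 2 ≤ X1 ∧ X1 ≤ 2
  hX2 : 1 / 2 ≤ X2 ∧ X2 ≤ 2
  box : ∃ L : ℤ, 0 < L ∧ 2 * L < ((n + 1 : ℕ) : ℤ) ∧ L < M ∧ (∀ f ∈ R, f ∈ RFb (0, 0) L) ∧
    |y0 S| < L ∧ |y1 S| < L ∧
    ∀ X Y : ℤ, |X| ≤ B → |Y| ≤ B → (S.slabS.sf X Y).In L
  elt : ∀ X Y : ℤ, |X| ≤ B → |Y| ≤ B → ∀ a ∈ dE ZQ R,
    ‖Z6 ((S.slabS.sf X Y).QN (n + 1)) ((S.slabS.sf X Y).FN (n + 1) M)
        (fun b => hN S (n + 1) X Y b * sgE (sdN (n + 1) a) b) -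
      ((2 ^ ((S.slabS.sf X Y).FN (n + 1) M).card * (Rel.r4 ^ (2 * (n + 1)) * X0) : ℝ) : ℂ) *
        Asm3.zS S X Y R a‖ ≤ 2 ^ ((S.slabS.sf X Y).FN (n + 1) M).card * (Rel.r4 ^ (2 * (n + 1)) * ε)
  up : ‖uN S n M‖ ^ 2 ≤
    2 ^ (2 * (S.slabS.UN (n + 1) 0 (y1 S) M).card) * (Rel.r4 ^ (2 * (n + 1)) * (X2 * Asm3.zU S + ε))
  lo : ‖dN S n M‖ ^ 2 ≤
    2 ^ (2 * (S.slabS.LN (n + 1) 0 M (y0 S)).card) * (Rel.r4 ^ (2 * (n + 1)) * (X1 * Asm3.zD S + ε))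

/-- **The joint limit.** -/
def JointLim (S : Slb) : Prop := ∀ (B : ℤ) (R : Finset (ℤ × ℤ)),
  (∀ f ∈ R, S.yc - S.a ≤ f.2 ∧ f.2 < S.yc + S.a) → ∀ ε : ℝ, 0 < ε →
    ∃ n₀ : ℕ, ∀ n : ℕ, n₀ ≤ n → ∀ [Fact (3 ≤ n + 1)], Odd (n + 1) → ∃ M₀ : ℤ, ∀ M, M₀ ≤ M →
      ∃ X0 X1 X2 : ℝ, Joint S B R ε n M X0 X1 X2

end

end Pool.Agent.SixB.CylA
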