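import Pool.Agent.Lib.SixB.S3CylNrm
import Pool.Agent.Lib.SixB.S3CylElt

/-!
# 6BD step 3: the norms of the vectors of the cylinder, in the form of `CylIn` (row R17)

* `Slb.lim_uV`, `Slb.lim_dV`: the limits of the norms for a slab with at least two rows.
* `Slb.limU`, `Slb.limL`: the premises `LimU`, `LimL` of S3CylElt.
-/

set_option autoImplicit false
set_option linter.unusedSectionVars false

namespace Pool.Agent.SixB.Slb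

open Pool.Agent.Perc Pool.Agent.Perc.Q

noncomputable section

theorem lim_uV (S : Slb) (h : S.Ok) (ha : 2 ≤ S.a) : ∃ L₀ : ℤ, ∀ L, L₀ ≤ L → ∀ ε : ℝ, 0 < ε →
    ∃ N₀ : ℕ, ∀ (m : ℕ) [Fact (3 ≤ m + 1)], Odd (m + 1) → N₀ ≤ m + 1 → ∃ M₀ : ℤ, ∀ M, M₀ ≤ M →
      ∃ X2 : ℝ, 1 / 2 ≤ X2 ∧ X2 ≤ 2 ∧ |nU S m M (S.yc + (S.a / 2 : ℕ)) ^ 2 *
        ‖uV S m L M (S.yc + (S.a / 2 : ℕ))‖ ^ 2 - X2 * Asm3.zU S| ≤ ε := by
  obtain ⟨L₁, hL₁⟩ := exists_in h 0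
  refine ⟨max L₁ (Asm3.bx S 0 0), fun L hL ε hε => ?_⟩
  have hI : (S.slabS.sf 0 0).In L :=
    hL₁ L ((le_max_left _ _).trans hL) 0 0 (by simp) (by simp)
  have hbx : Asm3.bx S 0 0 ≤ L := (le_max_right _ _).trans hL
  have hy := Asm3.rowU_lt (X := 0) (Y := 0) h
  exact norm_U (y₀ := S.yc) h (by omega) (by omega) (by omega) hI hbx (by omega) hε

theorem lim_dV (S : Slb) (h : S.Ok) (ha : 2 ≤ S.a) : ∃ L₀ : ℤ, ∀ L, L₀ ≤ L → ∀ ε : ℝ, 0 < ε →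
    ∃ N₀ : ℕ, ∀ (m : ℕ) [Fact (3 ≤ m + 1)], Odd (m + 1) → N₀ ≤ m + 1 → ∃ M₀ : ℤ, ∀ M, M₀ ≤ M →
      ∃ X1 : ℝ, 1 / 2 ≤ X1 ∧ X1 ≤ 2 ∧ |nL S m M (S.yc - (S.a / 2 : ℕ)) ^ 2 *
        ‖dV S m L M (S.yc - (S.a / 2 : ℕ))‖ ^ 2 - X1 * Asm3.zD S| ≤ ε := by
  obtain ⟨L₁, hL₁⟩ := exists_in h 0
  refine ⟨max L₁ (Asm3.bx S 0 0), fun L hL ε hε => ?_⟩
  have hI : (S.slabS.sf 0 0).In L :=
    hL₁ L ((le_max_left _ _).trans hL) 0 0 (by simp) (by simp)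
  have hbx : Asm3.bx S 0 0 ≤ L := (le_max_right _ _).trans hL
  have hy := Asm3.rowD_lt (X := 0) (Y := 0) h
  exact norm_D (y₁ := S.yc) h (by omega) (by omega) (by omega) hI hbx (by omega) hε

/-- **The premise `LimU`.** -/
theorem limU : LimU := lim_uV

/-- **The premise `LimL`.** -/
theorem limL : LimL := lim_dV

end

end Pool.Agent.SixB.Slb
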