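import Pool.Agent.Lib.SixB.S3ZpBox
import Pool.Agent.Lib.SixB.S3DblIsl

/-!
# 6BD step 3: the plane functional of a double does not depend on the box

* `cor2_box`: the core of the double for a larger box.
* `isl2_box`: the island sides of the double for a larger box.
* `Zp_dbl_box`: the plane functional of the double for a larger box.
-/

set_option autoImplicit false
set_option linter.unusedSectionVars false

namespace Pool.Agent.SixB.Dbl

open Pool.Agent.Perc Pool.Agent.Perc.Q Relation Filter Topology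
open Pool.Agent.SixB.Rel (QChart GlueZ Zp mem_RF0 RF0_mono)

noncomputable section

variable {V Φ : Type} [DecidableEq V] [DecidableEq Φ] {ι : Type}
  {up : Bool} {g₀ L L' K K' : ℤ} {Q : QC V Φ} {A : Finset Φ} {φ : ℤ × ℤ → V}
  {ψ : ℤ × ℤ → Φ} {S : Set Φ} {m : ι → V × V} {P : Finset (V × V)}

/-- the core of the double for a larger box -/
theorem cor2_box (HZ : GlueZ L Q A φ ψ P) (H : HalfS up g₀ ZQ (outZ L) Q A φ ψ S m)
    (hL : L + |g₀| ≤ L') (hLK : L ≤ K) (hK : K + |g₀| ≤ K') (hLK' : L' ≤ K') :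
    cor2 up g₀ (A ∪ (RFb (0, 0) K \ RFb (0, 0) L).image ψ) S ψ (wZ up g₀ K K') =
      cor2 up g₀ A S ψ (wZ up g₀ L L') ∪
        (RFb (0, 0) K' \ RFb (0, 0) L').image (dblψ up g₀ ψ) := by
  have key : ∀ v : ℤ × ℤ, v ∈ RFb (0, 0) K' → ptf up g₀ v ∉ RFb (0, 0) L →
      dblψ up g₀ ψ v ∈ cor2 up g₀ A S ψ (wZ up g₀ L L') ∪
        (RFb (0, 0) K' \ RFb (0, 0) L').image (dblψ up g₀ ψ) := by
    intro v hv h1
    by_cases h2 : v ∈ RFb (0, 0) L'
    · exact Finset.mem_union_left _ (mem_cor2.mpr (Or.inr ⟨v, mem_wZ.mpr ⟨h2, h1⟩, rfl⟩))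
    · exact Finset.mem_union_right _ (Finset.mem_image_of_mem _ (Finset.mem_sdiff.mpr ⟨hv, h2⟩))
  ext p
  constructor
  · intro hp
    rcases mem_cor2.mp hp with ⟨h1, h2⟩ | ⟨v, hv, rfl⟩
    · rcases Finset.mem_union.mp h1 with h3 | h3
      · exact Finset.mem_union_left _ (mem_cor2.mpr (Or.inl ⟨h3, h2⟩))
      · obtain ⟨u, hu, e⟩ := Finset.mem_image.mp h3
        obtain ⟨h4, h5⟩ := Finset.mem_sdiff.mp hu
        rw [← e] at h2
        have h6 := inH_of HZ H h5 h2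
        have h7 : dblψ up g₀ ψ (qtf g₀ p.2 u) = p := by
          unfold dblψ
          rw [ptf_qtf h6, cc_qtf h6, e]
        rw [← h7]
        refine key _ (qtf_box hK h4 _) ?_
        rw [ptf_qtf h6]
        exact h5
    · obtain ⟨h1, h2⟩ := mem_wZ.mp hv
      exact key v h1 fun h3 => h2 (RF0_mono hLK h3)
  · intro hp
    have key2 : ∀ v : ℤ × ℤ, v ∈ RFb (0, 0) K' → ptf up g₀ v ∉ RFb (0, 0) L →
        dblψ up g₀ ψ v ∈
          cor2 up g₀ (A ∪ (RFb (0, 0) K \ RFb (0, 0) L).image ψ) S ψ (wZ up g₀ K K') := by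
      intro v hv h1
      by_cases h2 : ptf up g₀ v ∈ RFb (0, 0) K
      · refine mem_cor2.mpr (Or.inl ⟨?_, H.out _ h1 (inH_ptf up g₀ v)⟩)
        exact Finset.mem_union_right _ (Finset.mem_image_of_mem _ (Finset.mem_sdiff.mpr ⟨h2, h1⟩))
      · exact mem_cor2.mpr (Or.inr ⟨v, mem_wZ.mpr ⟨hv, h2⟩, rfl⟩)
    rcases Finset.mem_union.mp hp with h | h
    · rcases mem_cor2.mp h with ⟨h1, h2⟩ | ⟨v, hv, rfl⟩
      · exact mem_cor2.mpr (Or.inl ⟨Finset.mem_union_left _ h1, h2⟩)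
      · obtain ⟨h1, h2⟩ := mem_wZ.mp hv
        exact key2 v (RF0_mono hLK' h1) h2
    · obtain ⟨v, hv, rfl⟩ := Finset.mem_image.mp h
      obtain ⟨h1, h2⟩ := Finset.mem_sdiff.mp hv
      exact key2 v h1 (ptf_out hL h2)

/-- the island sides of the double for a larger box: sides of exactly one face -/
theorem isl2_box {B : Finset Φ} (hAB : A ⊆ B)
    (hP : ∀ a ∈ P, ∀ f ∈ B, ∀ k, (a = sd Q f k ∨ a.swap = sd Q f k) → f ∈ A) :
    isl2 Q B S m P = isl2 Q A S m P := by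
  ext a'
  rw [mem_isl2, mem_isl2]
  constructor
  · rintro ⟨b, a, h1, h2, h3⟩
    refine ⟨b, a, h1, ?_, h3⟩
    obtain ⟨f, hf, k, h⟩ := mem_dE.mp h2
    obtain ⟨h4, h5⟩ := mem_corS.mp hf
    refine mem_dE.mpr ⟨f, mem_corS.mpr ⟨?_, h5⟩, k, h⟩
    rcases h with h | h
    · exact hP a h1 f h4 k (Or.inl h)
    · exact hP a h1 f h4 k (Or.inr (by rw [h, Prod.swap_swap]))
  · rintro ⟨b, a, h1, h2, h3⟩
    refine ⟨b, a, h1, dE_mono ?_ h2, h3⟩
    intro f hf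
    obtain ⟨h4, h5⟩ := mem_corS.mp hf
    exact mem_corS.mpr ⟨hAB h4, h5⟩

/-- **The plane functional of a double does not depend on the box.** -/
theorem Zp_dbl_box (HZ : GlueZ L Q A φ ψ P) (H : HalfS up g₀ ZQ (outZ L) Q A φ ψ S m)
    (hQ : NoLoop (dblS Q S m H.os)) (hL0 : 0 < L) (hL : L + |g₀| ≤ L') (hLK : L ≤ K)
    (hK : K + |g₀| ≤ K') (hLK' : L' ≤ K')
    {h : (V × Bool × Bool) × (V × Bool × Bool) → ℂ}
    {P₂ : Finset ((V × Bool × Bool) × (V × Bool × Bool))}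
    (hP₂ : P₂ ⊆ dE (dblS Q S m H.os) (cor2 up g₀ A S ψ (wZ up g₀ L L')))
    (hh : ∀ a, a ∉ P₂ → a.swap ∉ P₂ → h a = 1) :
    Zp K' (dblS Q S m H.os)
        (cor2 up g₀ (A ∪ (RFb (0, 0) K \ RFb (0, 0) L).image ψ) S ψ (wZ up g₀ K K'))
        (dblψ up g₀ ψ) h P₂ =
      Zp L' (dblS Q S m H.os) (cor2 up g₀ A S ψ (wZ up g₀ L L')) (dblψ up g₀ ψ) h P₂ := by
  have h1 : GlueZ L' (dblS Q S m H.os) (cor2 up g₀ A S ψ (wZ up g₀ L L')) (dblφ up g₀ φ m)
      (dblψ up g₀ ψ) P₂ := { glueZ HZ H hL with P_sub := hP₂ }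
  have h0 := abs_nonneg g₀
  rw [cor2_box HZ H hL hLK hK hLK']
  exact h1.Zp_box hQ (by omega) hLK' hh

end

end Pool.Agent.SixB.Dbl
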