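import Pool.Agent.Lib.SixB.S3bCoreS
import Pool.Agent.Lib.SixB.S3CylWt
import Pool.Agent.Lib.SixB.S3CylHalf
import Pool.Agent.Lib.SixB.S3CylDblV
import Pool.Agent.Lib.SixB.S3AsmD
import Pool.Agent.Lib.SixB.S3ZpBoxD

/-!
# 6BD step 3: the norms of the vectors of the cylinder (row R17, `CylIn`)

* `Hcs.cyl_dblG`: `Cyl` for the double of a half of any cylinder surface which covers a plane surface.
* `Hcs.lim_dblG`: the limit of the double of a half.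
* `Slb.lim_U`, `Slb.lim_D`: the doubles of the upper and the lower part over the cylinder converge to `zU`, `zD`.
* `Slb.norm_U`, `Slb.norm_D`: the same for the norms of `zvec`, `dvec`.
-/

set_option autoImplicit false
set_option linter.unusedSectionVars false

namespace Pool.Agent.SixB

open Pool.Agent.Perc Pool.Agent.Perc.Q Relation Filter Topology ComplexConjugate
open Pool.Agent.SixB.Rel Pool.Agent.SixB.Dbl
open Pool.Agent.SixB hiding Zs_split dst_congr qt_congr dE_mono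

noncomputable section

namespace Hcs

section gen

variable {V Φ V' Φ' : Type} [DecidableEq V] [DecidableEq Φ] [DecidableEq V'] [DecidableEq Φ']
variable {Q : QC V Φ} {A : Finset Φ} {L L' g M' : ℤ} {φ : ℤ × ℤ → V} {ψ : ℤ × ℤ → Φ}
  {P P₀ : Finset (V × V)} {N : ℕ} [hN : Fact (3 ≤ N)] {up : Bool} {S : Set Φ}
  {Q' : QC V' Φ'} {A' : Finset Φ'} {ψ' : ZMod N × ℤ → Φ'} {P' : Finset (V' × V')} {S' : Set Φ'}
  {ι ι' : Type} {m : ι → V × V} {m' : ι' → V' × V'} {χv : V → V'} {χf : Φ → Φ'}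
  {h : V × V → ℂ} {h' : V' × V' → ℂ} {n n' : ℕ}

/-- **The cylinder of the double of one half, any cylinder surface.** -/
theorem cyl_dblG (C : Cov n L N Q A ψ h P Q' A' ψ' h' P' χv χf 0)
    (hP : P ⊆ dE Q A) (hm : OneSidedS Q S m) (hm' : OneSidedS Q' S' m')
    (pt : ∀ u ∈ aZ L n, χf (ψ u) = ψ' (pN N u))
    (hA : ∀ f ∈ A, (χf f ∈ S' ↔ f ∈ S))
    (hS : ∀ f ∈ A ∪ (aZ L n).image ψ, f ∈ S → χf f ∈ S')
    (hO : ∀ u ∈ aZ L n, inH up g u → ψ u ∈ S)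
    (hM : ∀ f ∈ A ∪ (aZ L n).image ψ, f ∈ S → ∀ k, (onCut m' (χv (Q.c f k)) ↔ onCut m (Q.c f k)))
    (hL' : L + |g| ≤ L') (hn : 4 ^ n' * L' + |g| ≤ 4 ^ n * L) (hL0 : 0 ≤ L)
    {φ' : ZMod N × ℤ → V' × Bool × Bool} {F' : Finset (Φ' × Bool)}
    (G : GlueC N M' L' (dblS Q' S' m' hm') (cor2 up g A' S' ψ' ((wZ up g L L').image (pN N)))
      φ' (dblψ up g ψ') (isl2 Q' A' S' m' P'))
    (hF : cor2 up g A' S' ψ' ((wZ up g L L').image (pN N)) ∪
      (cylF N (-M') M' \ bxC N L').image (dblψ up g ψ') = F')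
    (T : ∀ ω, Turns (dblS Q' S' m' hm') F' ω
      ((botE N (-M')).image (Prod.map φ' φ')) ((topE N M').image (Prod.map φ' φ')))
    (hFS : ∀ p ∈ F', p.1 ∈ S')
    (off : ∀ f ∈ S', ∀ k, sd Q' f k ∈ P' ∨ (sd Q' f k).swap ∈ P' →
      sd Q' f k ∈ dE Q' (corS A' S'))
    (e1 : ∀ a, a ∉ P' → a.swap ∉ P' → h' a = 1) :
    Cyl n' N M' L' (dblS Q S m hm) (cor2 up g A S ψ (wZ up g L L')) (dblψ up g ψ)
      (clp (isl2 Q A S m P) (dw h h)) (isl2 Q A S m P) (dblS Q' S' m' hm') F' (dw h' h') := by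
  have hcov := fun (k : (V × Bool × Bool) × (V × Bool × Bool) → ℂ)
    (k' : (V' × Bool × Bool) × (V' × Bool × Bool) → ℂ) => Cyh.cov_dbl C hm hm' pt hA hS hO hM hL'
      hn hL0 hP (h2 := k) (h2' := k')
  have C1 := hcov (fun _ => 1) (fun _ => 1) fun _ _ => rfl
  have hk0 : ∀ a, a ∈ isl2 Q A S m P → dw h' h' (Prod.map (Cyh.Xv χv) (Cyh.Xv χv) a) = dw h h a ∧
      dw h' h' (Prod.map (Cyh.Xv χv) (Cyh.Xv χv) a.swap) = dw h h a.swap := by
    intro a ha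
    obtain ⟨b, a0, h1, -, rfl⟩ := mem_isl2.mp ha
    have h2 : a0 ∈ dE Q (A ∪ (aZ L n).image ψ) := dE_mono Finset.subset_union_left (hP h1)
    have h3 := C.eh a0 h2
    have h4 := C.eh a0.swap (swap_mem_dE.mpr h2)
    constructor
    · show (if ((dblA m b a0).1.2.1 || (dblA m b a0).2.2.1) = true then
        conj (h' (Prod.map χv χv a0)) else h' (Prod.map χv χv a0)) = _
      rw [h3]
      rfl
    · show (if ((dblA m b a0).swap.1.2.1 || (dblA m b a0).swap.2.2.1) = true then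
        conj (h' (Prod.map χv χv a0.swap)) else h' (Prod.map χv χv a0.swap)) = _
      rw [h4]
      rfl
  have hk : ∀ a, a ∈ isl2 Q A S m P ∨ a.swap ∈ isl2 Q A S m P →
      dw h' h' (Prod.map (Cyh.Xv χv) (Cyh.Xv χv) a) = dw h h a := by
    rintro a (ha | ha)
    · exact (hk0 a ha).1
    · have := (hk0 _ ha).2
      rwa [Prod.swap_swap] at this
  have C2 := hcov (clp (isl2 Q A S m P) (dw h h)) (clp (isl2 Q' A' S' m' P') (dw h' h'))
    fun a ha => clp_map C1 (isl2_sub hm) hk ha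
  exact ⟨_, φ', _, _, _, _, 0, _, G, C2, hF, T, fun a h1 h2 => clp_one a h1 h2,
    fun a ha => clp_dw hm' hFS (fun p hp k hpk => off _ (hFS p hp) k hpk) e1 e1 ha⟩

/-- clipped weights of the double of a half of a plane surface -/
theorem clp_plane (H : HalfS up g ZQ (outZ L) Q A φ ψ S m) (hL' : L + |g| ≤ L')
    (e0 : ∀ a, a ∉ P → a.swap ∉ P → h a = 1)
    (off0 : ∀ f ∈ S, ∀ k, sd Q f k ∈ P ∨ (sd Q f k).swap ∈ P → sd Q f k ∈ dE Q (corS A S)) :
    Zp L' (dblS Q S m H.os) (cor2 up g A S ψ (wZ up g L L')) (dblψ up g ψ) (dw h h)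
      (isl2 Q A S m P) =
    Zp L' (dblS Q S m H.os) (cor2 up g A S ψ (wZ up g L L')) (dblψ up g ψ)
      (clp (isl2 Q A S m P) (dw h h)) (isl2 Q A S m P) := by
  have hw : ∀ n : ℕ, ∀ p ∈ cor2 up g A S ψ (wZ up g L L') ∪ (aZ L' n).image (dblψ up g ψ),
      p.1 ∈ S := by
    intro n p hp
    rcases Finset.mem_union.mp hp with hp | hp
    · rcases mem_cor2.mp hp with h1 | ⟨g', hg', rfl⟩
      · exact h1.2
      · exact H.out _ (mem_wZ.mp hg').2 (inH_ptf up g g')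
    · obtain ⟨g', hg', rfl⟩ := Finset.mem_image.mp hp
      exact H.out _ (ptf_out hL' (mem_aZ.mp hg').2) (inH_ptf up g g')
  exact Zp_congr fun n a ha => clp_dw H.os (hw n)
    (fun p hp k hk => off0 _ (hw n p hp) k hk) e0 e0 ha

/-- **The limit of the double of a half.** -/
theorem lim_dblG (hL0 : 0 < L) (HZ : GlueZ L Q A φ ψ P)
    (H : HalfS up g ZQ (outZ L) Q A φ ψ S m) (hQ : NoLoop Q) (hL' : L + |g| ≤ L')
    (e0 : ∀ a, a ∉ P → a.swap ∉ P → h a = 1)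
    (off0 : ∀ f ∈ S, ∀ k, sd Q f k ∈ P ∨ (sd Q f k).swap ∈ P → sd Q f k ∈ dE Q (corS A S))
    {ε : ℝ} (hε : 0 < ε) :
    ∃ n : ℕ, ∃ N₀ : ℕ, ∀ (N : ℕ) [Fact (3 ≤ N)], Odd N → N₀ ≤ N → ∃ M₀ : ℤ, ∀ M', M₀ ≤ M' →
      ∃ x : ℝ, 1 / 2 ≤ x ∧ x ≤ 2 ∧
        ∀ (V' Φ' : Type) [DecidableEq V'] [DecidableEq Φ'] (Q' : QC V' Φ') (F' : Finset Φ')
          (h' : V' × V' → ℂ), NoLoop Q' →
          Cyl n N M' L' (dblS Q S m H.os) (cor2 up g A S ψ (wZ up g L L')) (dblψ up g ψ)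
            (clp (isl2 Q A S m P) (dw h h)) (isl2 Q A S m P) Q' F' h' →
          |(avc F' (fun ω => Zs Q' F' ω h')).re - r4 ^ (2 * N) * x *
            (Zp L' (dblS Q S m H.os) (cor2 up g A S ψ (wZ up g L L')) (dblψ up g ψ) (dw h h)
              (isl2 Q A S m P)).re| ≤ r4 ^ (2 * N) * ε := by
  have hL'0 : 0 < L' := by
    have := abs_nonneg g
    omega
  obtain ⟨n, -, H1⟩ := Cyl.lim hL'0 (CP (clp (isl2 Q A S m P) (dw h h)) (isl2 Q A S m P))
    (ε := ε / 2) (by positivity)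
  refine ⟨n, (2 * (4 ^ n * (4 ^ n * L'))).toNat + 1, ?_⟩
  intro N _ hodd hN
  have t1 := Int.self_le_toNat (2 * (4 ^ n * (4 ^ n * L')))
  obtain ⟨M₀, H2⟩ := H1 N hodd (by omega)
  refine ⟨M₀, fun M' hM' => ?_⟩
  obtain ⟨x, hx1, hx2, H3⟩ := H2 M' hM'
  refine ⟨x, hx1, hx2, ?_⟩
  intro V' Φ' _ _ Q' F' h' hQ' C
  have H4 := H3 _ _ _ _ _ _ _ _ _ _ _ _ _ (dblS_noLoop hQ) hQ' (Dbl.glueZ HZ H hL')
    (fun a h1 h2 => clp_one a h1 h2) le_rfl C
  rw [clp_plane H hL' e0 off0]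
  have H5 := (Complex.abs_re_le_norm _).trans H4
  rw [Complex.sub_re, Complex.re_ofReal_mul] at H5
  refine H5.trans ?_
  have hr : 0 < r4 ^ (2 * N) := pow_pos r4_pos _
  have h6 : r4 ^ (2 * N) * x * (ε / 2) = r4 ^ (2 * N) * (x * (ε / 2)) := by ring
  rw [h6]
  apply mul_le_mul_of_nonneg_left _ hr.le
  nlinarith

/-- the finite double as an average -/
theorem Z6_dbl_avc [Fintype ι] {F : Finset Φ} (hQ : NoLoop Q) (hm : OneSided Q F m)
    (hs : OneSidedS Q S m) (hFS : ∀ f ∈ F, f ∈ S) (h1 : ∀ a ∈ eds m, h a = 1) :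
    (Z6 (dbl Q F m hm) (cpy F false ∪ cpy F true) (dblH m h)).re =
      2 ^ (2 * F.card) * (avc (cpy F false ∪ cpy F true)
        (fun ω => Zs (dblS Q S m hs) (cpy F false ∪ cpy F true) ω (dw h h))).re := by
  rw [Z6_avc (noLoop_dbl hm hQ), card_cpy, ← two_mul]
  have e : ∀ a, dblH m h a = dw h h a := fun a => by
    rw [← dblH2_self]
    exact dw_eq h1 h1 a
  rw [avc_dbl hm hs hFS e]
  have e2 : ((2 : ℂ) ^ (2 * F.card)) = ((2 ^ (2 * F.card) : ℝ) : ℂ) := by push_cast; rfl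
  rw [e2, Complex.re_ofReal_mul]

end gen

end Hcs

namespace Slb

open Asm3 Hcs

variable {S : Slb} {X Y L L' M y y₀ y₁ : ℤ} {N : ℕ} [hN3 : Fact (3 ≤ N)]

theorem hz_eq_one {V : Type} [DecidableEq V] {ψ : V × V → ℝ} {Z : Finset (V × V)} (a : V × V)
    (h1 : a ∉ Z) (h2 : a.swap ∉ Z) : hz ψ Z a = 1 := by
  unfold hz
  rw [if_neg h1, if_neg h2]

/-! ## The plane side -/

/-- faces of the halves are faces of the infinite surface -/
theorem hiS_Fi {f : Option Bool × (ℤ × ℤ)} (hf : f ∈ hiS (S.env ∅ X Y) y) : f ∈ Fi S X Y := by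
  rcases mem_hiS.mp hf with ⟨h1, -, h2, h3⟩ | ⟨h1, h2⟩
  · exact Or.inl ⟨h1, h2, h3⟩
  · exact Or.inr (Or.inl ⟨h1, h2⟩)

theorem loS_Fi {f : Option Bool × (ℤ × ℤ)} (hf : f ∈ loS (S.env ∅ X Y) y) : f ∈ Fi S X Y := by
  rcases mem_loS.mp hf with ⟨h1, -, h2, h3⟩ | ⟨h1, h2⟩
  · exact Or.inl ⟨h1, h2, h3⟩
  · exact Or.inr (Or.inr ⟨h1, h2⟩)

/-- island sides of a face are sides of the core -/
theorem off_pl (h : S.Ok) (hB : InBx (S.env ∅ X Y) L) {T : Set (Option Bool × (ℤ × ℤ))}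
    (hT : ∀ f ∈ T, f ∈ Fi S X Y) {f : Option Bool × (ℤ × ℤ)} (hf : f ∈ T) (k : ZMod 4)
    (hk : sd (S.env ∅ X Y).Q f k ∈ (win (S.env ∅ X Y) L).Z ∨
      (sd (S.env ∅ X Y).Q f k).swap ∈ (win (S.env ∅ X Y) L).Z) :
    sd (S.env ∅ X Y).Q f k ∈ dE (S.env ∅ X Y).Q (corS (win (S.env ∅ X Y) L).F T) := by
  rcases hk with hk | hk
  · obtain ⟨g, hg, l, e⟩ := bS_sd (Rel.mem_Z_win.mp hk).1
    obtain ⟨rfl, -⟩ := (S.env ∅ X Y).Q.inj (congrArg Prod.fst e) (congrArg Prod.snd e)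
    exact sd_mem (mem_corS.mpr ⟨hg, hf⟩) k
  · exact absurd hk (Z_swap (W := ∅) h hB (hT f hf))

/-- the number of a half in a larger box -/
theorem zDbl_box (h : S.Ok) {up : Bool} {T : Set (Option Bool × (ℤ × ℤ))}
    {m : ℤ → (Option Bool × (ℤ × ℤ)) × (Option Bool × (ℤ × ℤ))}
    (H : HalfS up y ZQ (outZ (Asm3.bx S X Y)) (S.env ∅ X Y).Q (eB S X Y).F
      (fun v => ((none : Option Bool), v)) (fun f => ((none : Option Bool), f)) T m)
    (H' : HalfS up y ZQ (outZ L) (S.env ∅ X Y).Q (win (S.env ∅ X Y) L).F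
      (fun v => ((none : Option Bool), v)) (fun f => ((none : Option Bool), f)) T m)
    (hT : ∀ f ∈ T, f ∈ Fi S X Y) (hL : Asm3.bx S X Y ≤ L) :
    zDbl up y (Asm3.bx S X Y) (S.env ∅ X Y).Q (eB S X Y).F (fun f => ((none : Option Bool), f))
        (Asm3.hB S X Y) (eB S X Y).Z T m =
      (Zp (L + |y|) (dblS (S.env ∅ X Y).Q T m H'.os)
        (cor2 up y (win (S.env ∅ X Y) L).F T (fun f => ((none : Option Bool), f))
          (wZ up y L (L + |y|)))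
        (dblψ up y (fun f => ((none : Option Bool), f)))
        (dw (hz (S.ph ∅ X Y) (win (S.env ∅ X Y) L).Z) (hz (S.ph ∅ X Y) (win (S.env ∅ X Y) L).Z))
        (isl2 (S.env ∅ X Y).Q (win (S.env ∅ X Y) L).F T m (win (S.env ∅ X Y) L).Z)).re := by
  have hB0 : InBx (S.env ∅ X Y) (Asm3.bx S X Y) := inBx S X Y
  have hBL : InBx (S.env ∅ X Y) L := fun f hf => RF0_mono (by omega) (hB0 f hf)
  have eZ : (win (S.env ∅ X Y) L).Z = (eB S X Y).Z := Z_win (thk h) hB0 hL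
  have eF : (win (S.env ∅ X Y) L).F = (eB S X Y).F ∪
      (RFb (0, 0) L \ RFb (0, 0) (Asm3.bx S X Y)).image (fun f => ((none : Option Bool), f)) :=
    (FM_env hB0 hL).symm
  have e0 : ∀ a, a ∉ (eB S X Y).Z → a.swap ∉ (eB S X Y).Z → Asm3.hB S X Y a = 1 :=
    fun a h1 h2 => hz_eq_one a h1 h2
  have c1 := clp_plane (L' := Asm3.bx S X Y + |y|) H le_rfl e0
    (fun f hf k hk => off_pl h hB0 hT hf k hk)
  have c2 := clp_plane (L' := L + |y|) H' le_rfl (h := hz (S.ph ∅ X Y) (win (S.env ∅ X Y) L).Z)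
    (P := (win (S.env ∅ X Y) L).Z) (fun a h1 h2 => hz_eq_one a h1 h2)
    (fun f hf k hk => off_pl h hBL hT hf k hk)
  have hG : GlueZ (Asm3.bx S X Y) (S.env ∅ X Y).Q (eB S X Y).F (fun v => ((none : Option Bool), v))
      (fun f => ((none : Option Bool), f)) (eB S X Y).Z := glueZ_env (thk h) hB0
  have c3 := Zp_dbl_box hG H (dblS_noLoop (noLoop_env _)) (bx_pos S X Y)
    (L' := Asm3.bx S X Y + |y|) (K := L) (K' := L + |y|) le_rfl hL le_rfl (by omega)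
    (h := clp (isl2 (S.env ∅ X Y).Q (eB S X Y).F T m (eB S X Y).Z) (dw (Asm3.hB S X Y) (Asm3.hB S X Y)))
    (isl2_sub H.os) (fun a h1 h2 => clp_one a h1 h2)
  have c4 : isl2 (S.env ∅ X Y).Q (win (S.env ∅ X Y) L).F T m (eB S X Y).Z =
      isl2 (S.env ∅ X Y).Q (eB S X Y).F T m (eB S X Y).Z := by
    refine isl2_box ?_ ?_
    · rw [eF]
      exact Finset.subset_union_left
    · intro a ha f hf k hk
      obtain ⟨g, hg, l, e⟩ := bS_sd (Rel.mem_Z_win.mp ha).1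
      rcases hk with hk | hk
      · rw [hk] at e
        obtain ⟨rfl, -⟩ := (S.env ∅ X Y).Q.inj (congrArg Prod.fst e) (congrArg Prod.snd e)
        exact hg
      · exfalso
        have h1 : a = (sd (S.env ∅ X Y).Q f k).swap := by rw [← hk, Prod.swap_swap]
        rw [h1] at ha
        exact Z_swap (W := ∅) h hB0 (F_Fi hf) ha
  rw [zDbl_eq H.os, dblW_eq, c1, c2, ← c3, eZ, ← eF, c4]
  rfl

/-! ## The cylinder side -/

/-- faces over the cylinder in the upper half -/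
theorem chi_up (hI : (S.slabS.sf X Y).In L) {L₁ : ℤ} (hL1 : L ≤ L₁) (hN : 2 * L₁ < N)
    {f : Option Bool × (ℤ × ℤ)} (hf : f ∈ Fi S X Y) (hb : f.2 ∈ RFb (0, 0) L₁) :
    Surf.chi (Option Bool) N f ∈ S.slabS.upS N X y ↔ f ∈ hiS (S.env ∅ X Y) y := by
  rw [SlabS.mem_upS, mem_hiS]
  constructor
  · rintro (⟨h1, h2, -⟩ | ⟨f', hf', e⟩)
    · left
      change f.1 = none at h1
      rcases hf with ⟨-, h3⟩ | ⟨h3, -⟩ | ⟨h3, -⟩
      · exact ⟨h1, h2, h3⟩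
      · rw [h1] at h3
        exact absurd h3 (by simp)
      · rw [h1] at h3
        exact absurd h3 (by simp)
    · right
      obtain ⟨u, hu, rfl⟩ := Finset.mem_image.mp hf'
      have h1 : some true = f.1 := congrArg Prod.fst e
      rcases hf with ⟨h3, -⟩ | ⟨h3, h4⟩ | ⟨h3, -⟩
      · rw [h3] at h1
        exact absurd h1 (by simp)
      · exact ⟨h3, h4⟩
      · rw [h3] at h1
        exact absurd h1 (by simp)
  · rintro (⟨h1, h2, h3, h4⟩ | ⟨h1, h2⟩)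
    · left
      refine ⟨h1, h2, fun g hg e => ?_⟩
      have h5 : shv X g ∈ (S.slabS.sf X Y).H :=
        Finset.mem_union_left _ (Finset.mem_image_of_mem _ hg)
      have h6 : shv X g ∈ RFb (0, 0) L₁ := RF0_mono (by omega) (hI.H _ h5)
      have h7 : shv X g = f.2 := Surf.box_inj hN h6 hb e
      refine h3 ?_
      rw [← h7]
      exact (mem_shF_solF S).mp (Finset.mem_image_of_mem _ hg)
    · right
      have h3 : f.2 ∈ shF X S.Up := h2
      obtain ⟨u, hu, e⟩ := Finset.mem_image.mp h3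
      refine ⟨(some true, u), Finset.mem_image_of_mem _ hu, ?_⟩
      show Surf.chi (Option Bool) N (some true, shv X u) = _
      rw [e, ← h1]

/-- faces over the cylinder in the lower half -/
theorem chi_lo (hI : (S.slabS.sf X Y).In L) {L₁ : ℤ} (hL1 : L ≤ L₁) (hN : 2 * L₁ < N)
    {f : Option Bool × (ℤ × ℤ)} (hf : f ∈ Fi S X Y) (hb : f.2 ∈ RFb (0, 0) L₁) :
    Surf.chi (Option Bool) N f ∈ S.slabS.loS N Y y ↔ f ∈ loS (S.env ∅ X Y) y := by
  rw [SlabS.mem_loS, mem_loS]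
  constructor
  · rintro (⟨h1, h2, -⟩ | ⟨f', hf', e⟩)
    · left
      change f.1 = none at h1
      rcases hf with ⟨-, h3⟩ | ⟨h3, -⟩ | ⟨h3, -⟩
      · exact ⟨h1, h2, h3⟩
      · rw [h1] at h3
        exact absurd h3 (by simp)
      · rw [h1] at h3
        exact absurd h3 (by simp)
    · right
      obtain ⟨u, hu, rfl⟩ := Finset.mem_image.mp hf'
      have h1 : some false = f.1 := congrArg Prod.fst e
      rcases hf with ⟨h3, -⟩ | ⟨h3, h4⟩ | ⟨h3, h4⟩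
      · rw [h3] at h1
        exact absurd h1 (by simp)
      · rw [h3] at h1
        exact absurd h1 (by simp)
      · exact ⟨h3, h4⟩
  · rintro (⟨h1, h2, h3, h4⟩ | ⟨h1, h2⟩)
    · left
      refine ⟨h1, h2, fun g hg e => ?_⟩
      have h5 : shv Y g ∈ (S.slabS.sf X Y).H :=
        Finset.mem_union_right _ (Finset.mem_image_of_mem _ hg)
      have h6 : shv Y g ∈ RFb (0, 0) L₁ := RF0_mono (by omega) (hI.H _ h5)
      have h7 : shv Y g = f.2 := Surf.box_inj hN h6 hb e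
      refine h4 ?_
      rw [← h7]
      exact (mem_shF_solF S).mp (Finset.mem_image_of_mem _ hg)
    · right
      have h3 : f.2 ∈ shF Y S.Lo := h2
      obtain ⟨u, hu, e⟩ := Finset.mem_image.mp h3
      refine ⟨(some false, u), Finset.mem_image_of_mem _ hu, ?_⟩
      show Surf.chi (Option Bool) N (some false, shv Y u) = _
      rw [e, ← h1]

/-- the covering of the surface of the slab -/
theorem cov_slb (h : S.Ok) (hI : (S.slabS.sf X Y).In L) {n : ℕ} (hn : 2 * (4 ^ n * L) < N) :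
    Cov n L N (S.env ∅ X Y).Q (win (S.env ∅ X Y) L).F (fun f => ((none : Option Bool), f))
      (hz (S.ph ∅ X Y) (win (S.env ∅ X Y) L).Z) (win (S.env ∅ X Y) L).Z
      ((S.slabS.sf X Y).QN N) ((S.slabS.sf X Y).coreN N L) (Prod.mk none) (hN S N L X Y)
      ((win (S.env ∅ X Y) L).Z.image (Prod.map (Surf.chi _ N) (Surf.chi _ N)))
      (Surf.chi (Option Bool) N) (Surf.chi (Option Bool) N) 0 := by
  have h1 := Surf.cov hI hn (Z_sub h hI) (h := hz (S.ph ∅ X Y) (S.env (RFb (0, 0) L) X Y).Z)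
    (fun a h1 h2 => hz_eq_one a h1 h2)
  rw [core_env] at h1
  exact h1

/-- the sides of a row are no island sides over the cylinder -/
theorem off_cutN (h0 : S.yc - S.a < y) (h1 : y < S.yc + S.a) :
    Hcs.Off (S.slabS.cutN N y)
      ((win (S.env ∅ X Y) L).Z.image (Prod.map (Surf.chi _ N) (Surf.chi _ N))) := by
  have key : ∀ (b : (Option Bool × (ℤ × ℤ)) × (Option Bool × (ℤ × ℤ))) (x : ZMod N),
      IsZ S L X Y b → Prod.map (Surf.chi (Option Bool) N) (Surf.chi (Option Bool) N) b =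
        S.slabS.cutN N y x → False := by
    intro b x hb e
    have e1 : Surf.chi (Option Bool) N b.1 = (none, (x, y)) := congrArg Prod.fst e
    have e2 : Surf.chi (Option Bool) N b.2 = (none, (x + 1, y)) := congrArg Prod.snd e
    have e3 : b.1.1 = none := congrArg Prod.fst e1
    have e4 : b.2.1 = none := congrArg Prod.fst e2
    have e5 : b.1.2.2 = y := congrArg (fun p => p.2.2) e1
    exact isZ_slab hb h0 h1 e3 e4 ⟨e5.ge, e5.le⟩
  intro x
  constructor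
  · intro hx
    obtain ⟨b, hb, e⟩ := Finset.mem_image.mp hx
    exact key b x (Or.inl hb) e
  · intro hx
    obtain ⟨b, hb, e⟩ := Finset.mem_image.mp hx
    refine key b.swap x (Or.inr (by rw [Prod.swap_swap]; exact hb)) ?_
    have e1 : Prod.map (Surf.chi (Option Bool) N) (Surf.chi (Option Bool) N) b.swap =
        (Prod.map (Surf.chi (Option Bool) N) (Surf.chi (Option Bool) N) b).swap := rfl
    rw [e1, e, Prod.swap_swap]

/-- island sides of the faces of the upper half over the cylinder -/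
theorem off_upN (h : S.Ok) (hE : S.slabS.Ok y₀ y) (hI : (S.slabS.sf X Y).In L)
    (hN : 2 * (L + 1) < N) (h0 : S.yc - S.a < y) (h1 : y < S.yc + S.a)
    {f : Option Bool × (ZMod N × ℤ)} (hf : f ∈ S.slabS.upS N X y) (k : ZMod 4)
    (hk : sd ((S.slabS.sf X Y).QN N) f k ∈
        (win (S.env ∅ X Y) L).Z.image (Prod.map (Surf.chi _ N) (Surf.chi _ N)) ∨
      (sd ((S.slabS.sf X Y).QN N) f k).swap ∈
        (win (S.env ∅ X Y) L).Z.image (Prod.map (Surf.chi _ N) (Surf.chi _ N))) :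
    sd ((S.slabS.sf X Y).QN N) f k ∈ dE ((S.slabS.sf X Y).QN N)
      (corS ((S.slabS.sf X Y).coreN N L) (S.slabS.upS N X y)) :=
  off_core (S' := S.slabS.loS N Y y₀ ∪ S.slabS.midS N y₀ y) (SlabS.os_up hE hI (by omega))
    (off_cutN h0 h1) (glueN h hI (Z_sub h hI) subset_rfl hN (M := L + 1) (by omega)).P_sub
    (fun f hf => by
      rcases SlabS.core_cov hE hI (by omega) hf with h | h | h
      · exact Or.inr (Or.inl h)
      · exact Or.inr (Or.inr h)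
      · exact Or.inl h)
    (SlabS.sep_up hE hI (by omega)) hf hk

/-- island sides of the faces of the lower half over the cylinder -/
theorem off_loN (h : S.Ok) (hE : S.slabS.Ok y y₁) (hI : (S.slabS.sf X Y).In L)
    (hN : 2 * (L + 1) < N) (h0 : S.yc - S.a < y) (h1 : y < S.yc + S.a)
    {f : Option Bool × (ZMod N × ℤ)} (hf : f ∈ S.slabS.loS N Y y) (k : ZMod 4)
    (hk : sd ((S.slabS.sf X Y).QN N) f k ∈
        (win (S.env ∅ X Y) L).Z.image (Prod.map (Surf.chi _ N) (Surf.chi _ N)) ∨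
      (sd ((S.slabS.sf X Y).QN N) f k).swap ∈
        (win (S.env ∅ X Y) L).Z.image (Prod.map (Surf.chi _ N) (Surf.chi _ N))) :
    sd ((S.slabS.sf X Y).QN N) f k ∈ dE ((S.slabS.sf X Y).QN N)
      (corS ((S.slabS.sf X Y).coreN N L) (S.slabS.loS N Y y)) :=
  off_core (S' := S.slabS.midS N y y₁ ∪ S.slabS.upS N X y₁) (SlabS.os_lo hE hI (by omega))
    (off_cutN h0 h1).rev (glueN h hI (Z_sub h hI) subset_rfl hN (M := L + 1) (by omega)).P_sub
    (fun f hf => by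
      rcases SlabS.core_cov hE hI (by omega) hf with h | h | h
      · exact Or.inl h
      · exact Or.inr (Or.inl h)
      · exact Or.inr (Or.inr h))
    (SlabS.sep_lo hE hI (by omega)) hf hk

/-- the weight over the cylinder is one off the island sides -/
theorem hN_off (a : (Option Bool × (ZMod N × ℤ)) × (Option Bool × (ZMod N × ℤ)))
    (h1 : a ∉ (win (S.env ∅ X Y) L).Z.image (Prod.map (Surf.chi _ N) (Surf.chi _ N)))
    (h2 : a.swap ∉ (win (S.env ∅ X Y) L).Z.image (Prod.map (Surf.chi _ N) (Surf.chi _ N))) :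
    hN S N L X Y a = 1 := Surf.pushW_one h1 h2

/-- the faces of the window -/
theorem win_Fi (hI : (S.slabS.sf X Y).In L) {n : ℕ} {f : Option Bool × (ℤ × ℤ)}
    (hf : f ∈ (win (S.env ∅ X Y) L).F ∪ (aZ L n).image (fun f => ((none : Option Bool), f))) :
    f ∈ Fi S X Y ∧ f.2 ∈ RFb (0, 0) (4 ^ n * L) := by
  constructor
  · rcases Finset.mem_union.mp hf with h1 | h1
    · exact F_Fi h1
    · obtain ⟨g, hg, rfl⟩ := Finset.mem_image.mp h1
      have h2 := (mem_aZ.mp hg).2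
      have h3 := inBx_of_in (W := ∅) hI
      exact Or.inl ⟨rfl, fun h4 => h2 (RF0_mono (by omega) (h3 g (Or.inl h4))),
        fun h4 => h2 (RF0_mono (by omega) (h3 g (Or.inr h4)))⟩
  · have h1 := Surf.win_box (n := n) hI f
    rw [core_env] at h1
    exact h1 hf

/-- **The cylinder of the double of the upper half of a slab.** -/
theorem cyl_U (h : S.Ok) (h0 : S.yc - S.a < y₀) (hlt : y₀ < y₁) (h1 : y₁ < S.yc + S.a)
    (hI : (S.slabS.sf X Y).In L) (hy : |y₁| < L) (hodd : Odd N) (hL' : L + |y₁| ≤ L')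
    {n n' : ℕ} (hn : 2 * (4 ^ n * L) < N) (hn' : 4 ^ n' * L' + |y₁| ≤ 4 ^ n * L)
    (hN' : 2 * (L' + |y₁| + 1) < N) (hM : L' + |y₁| < M) (h2 : -M ≤ y₀) :
    Cyl n' N (dM true M y₁) L'
      (dblS (S.env ∅ X Y).Q (hiS (S.env ∅ X Y) y₁) (SEnv.cutH y₁)
        (os_hi h (by omega) h1))
      (cor2 true y₁ (win (S.env ∅ X Y) L).F (hiS (S.env ∅ X Y) y₁)
        (fun f => ((none : Option Bool), f)) (wZ true y₁ L L'))
      (dblψ true y₁ (fun f => ((none : Option Bool), f)))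
      (clp (isl2 (S.env ∅ X Y).Q (win (S.env ∅ X Y) L).F (hiS (S.env ∅ X Y) y₁) (SEnv.cutH y₁)
        (win (S.env ∅ X Y) L).Z)
        (dw (hz (S.ph ∅ X Y) (win (S.env ∅ X Y) L).Z) (hz (S.ph ∅ X Y) (win (S.env ∅ X Y) L).Z)))
      (isl2 (S.env ∅ X Y).Q (win (S.env ∅ X Y) L).F (hiS (S.env ∅ X Y) y₁) (SEnv.cutH y₁)
        (win (S.env ∅ X Y) L).Z)
      (dblS ((S.slabS.sf X Y).QN N) (S.slabS.upS N X y₁) (S.slabS.cutN N y₁)
        (SlabS.os_up (slabS_ok h h0 hlt h1) hI (by have := abs_nonneg y₁; omega)))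
      (cpy (S.slabS.UN N X y₁ M) false ∪ cpy (S.slabS.UN N X y₁ M) true)
      (dw (hN S N L X Y) (hN S N L X Y)) := by
  have hg := abs_nonneg y₁
  have hE := slabS_ok h h0 hlt h1
  have hpos := hI.pos
  have q4 : (1 : ℤ) ≤ 4 ^ n := one_le_pow₀ (by norm_num)
  have q5 : L ≤ 4 ^ n * L := by nlinarith
  have hZ : (win (S.env ∅ X Y) L).Z ⊆ dE (S.env ∅ X Y).Q (win (S.env ∅ X Y) L).F := by
    have := Z_sub h hI
    rw [core_env] at this
    exact this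
  have hH := half_hi (y := y₁) h (by omega) h1 (inBx_of_in (W := ∅) hI)
  have G := glueU h h0 hlt h1 hI (Z_sub h hI) subset_rfl (N := N) (by omega) hL' hM
  have F : cor2 true y₁ ((S.slabS.sf X Y).coreN N L) (S.slabS.upS N X y₁) (Prod.mk none)
      (wC N true y₁ L L') ∪ (cylF N (-(dM true M y₁)) (dM true M y₁) \ bxC N L').image
        (dblψ true y₁ (Prod.mk none)) =
      cpy (S.slabS.UN N X y₁ M) false ∪ cpy (S.slabS.UN N X y₁ M) true :=
    SlabS.faces_up hE hI (N := N) (by omega) (fun M hM => glueN h hI (Z_sub h hI) subset_rfl (by omega) hM) hL' hM.le h2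
  have T := turns_dblU h h0 hlt h1 hI hy hodd hL' hN' hM
  have F' := F
  rw [F] at T
  rw [wC_eq hL' (by omega)] at G F'
  refine cyl_dblG (cov_slb h hI hn) hZ _ _ (fun _ _ => rfl) ?_ ?_ ?_ ?_ hL' hn' hpos.le G F' T ?_
    (fun f hf k hk => off_upN h hE hI (by omega) (by omega) h1 hf k hk) hN_off
  · intro f hf
    obtain ⟨h3, h4⟩ := win_Fi (n := n) hI (Finset.mem_union_left _ hf)
    exact chi_up hI q5 hn h3 h4
  · intro f hf hf'
    obtain ⟨h3, h4⟩ := win_Fi hI hf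
    exact (chi_up hI q5 hn h3 h4).mpr hf'
  · intro u hu h3
    exact hH.out u (mem_aZ.mp hu).2 h3
  · intro f hf hf' k
    rw [SlabS.onCut_cutN, onCut_cutH]
    exact Iff.rfl
  · intro p hp
    exact ⟨M, cpy_mem.mp hp⟩

/-- **The cylinder of the double of the lower half of a slab.** -/
theorem cyl_D (h : S.Ok) (h0 : S.yc - S.a < y₀) (hlt : y₀ < y₁) (h1 : y₁ < S.yc + S.a)
    (hI : (S.slabS.sf X Y).In L) (hy : |y₀| < L) (hodd : Odd N) (hL' : L + |y₀| ≤ L')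
    {n n' : ℕ} (hn : 2 * (4 ^ n * L) < N) (hn' : 4 ^ n' * L' + |y₀| ≤ 4 ^ n * L)
    (hN' : 2 * (L' + |y₀| + 1) < N) (hM : L' + |y₀| < M) (h2 : y₁ ≤ M) :
    Cyl n' N (dM false M y₀) L'
      (dblS (S.env ∅ X Y).Q (loS (S.env ∅ X Y) y₀) (revFam (SEnv.cutH y₀))
        (os_lo h h0 (by omega)))
      (cor2 false y₀ (win (S.env ∅ X Y) L).F (loS (S.env ∅ X Y) y₀)
        (fun f => ((none : Option Bool), f)) (wZ false y₀ L L'))
      (dblψ false y₀ (fun f => ((none : Option Bool), f)))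
      (clp (isl2 (S.env ∅ X Y).Q (win (S.env ∅ X Y) L).F (loS (S.env ∅ X Y) y₀)
        (revFam (SEnv.cutH y₀)) (win (S.env ∅ X Y) L).Z)
        (dw (hz (S.ph ∅ X Y) (win (S.env ∅ X Y) L).Z) (hz (S.ph ∅ X Y) (win (S.env ∅ X Y) L).Z)))
      (isl2 (S.env ∅ X Y).Q (win (S.env ∅ X Y) L).F (loS (S.env ∅ X Y) y₀) (revFam (SEnv.cutH y₀))
        (win (S.env ∅ X Y) L).Z)
      (dblS ((S.slabS.sf X Y).QN N) (S.slabS.loS N Y y₀) (revFam (S.slabS.cutN N y₀))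
        (SlabS.os_lo (slabS_ok h h0 hlt h1) hI (by have := abs_nonneg y₀; omega)))
      (cpy (S.slabS.LN N Y M y₀) false ∪ cpy (S.slabS.LN N Y M y₀) true)
      (dw (hN S N L X Y) (hN S N L X Y)) := by
  have hg := abs_nonneg y₀
  have hE := slabS_ok h h0 hlt h1
  have hpos := hI.pos
  have q4 : (1 : ℤ) ≤ 4 ^ n := one_le_pow₀ (by norm_num)
  have q5 : L ≤ 4 ^ n * L := by nlinarith
  have hZ : (win (S.env ∅ X Y) L).Z ⊆ dE (S.env ∅ X Y).Q (win (S.env ∅ X Y) L).F := by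
    have := Z_sub h hI
    rw [core_env] at this
    exact this
  have hH := half_lo (y := y₀) h h0 (by omega) (inBx_of_in (W := ∅) hI)
  have G := glueD h h0 hlt h1 hI (Z_sub h hI) subset_rfl (N := N) (by omega) hL' hM
  have F : cor2 false y₀ ((S.slabS.sf X Y).coreN N L) (S.slabS.loS N Y y₀) (Prod.mk none)
      (wC N false y₀ L L') ∪ (cylF N (-(dM false M y₀)) (dM false M y₀) \ bxC N L').image
        (dblψ false y₀ (Prod.mk none)) =
      cpy (S.slabS.LN N Y M y₀) false ∪ cpy (S.slabS.LN N Y M y₀) true :=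
    SlabS.faces_lo hE hI (N := N) (by omega) (fun M hM => glueN h hI (Z_sub h hI) subset_rfl (by omega) hM) hL' hM.le h2
  have T := turns_dblD h h0 hlt h1 hI hy hodd hL' hN' hM
  have F' := F
  rw [F] at T
  rw [wC_eq hL' (by omega)] at G F'
  refine cyl_dblG (cov_slb h hI hn) hZ _ _ (fun _ _ => rfl) ?_ ?_ ?_ ?_ hL' hn' hpos.le G F' T ?_
    (fun f hf k hk => off_loN h hE hI (by omega) h0 (by omega) hf k hk) hN_off
  · intro f hf
    obtain ⟨h3, h4⟩ := win_Fi (n := n) hI (Finset.mem_union_left _ hf)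
    exact chi_lo hI q5 hn h3 h4
  · intro f hf hf'
    obtain ⟨h3, h4⟩ := win_Fi hI hf
    exact (chi_lo hI q5 hn h3 h4).mpr hf'
  · intro u hu h3
    exact hH.out u (mem_aZ.mp hu).2 h3
  · intro f hf hf' k
    rw [Hcs.onCut_rev, Hcs.onCut_rev, SlabS.onCut_cutN, onCut_cutH]
    exact Iff.rfl
  · intro p hp
    exact ⟨M, cpy_mem.mp hp⟩

/-! ## The limits -/

/-- the number of the upper half, cut along the row `y` -/
def zUy (S : Slb) (y : ℤ) : ℝ :=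
  zDbl true y (Asm3.bx S 0 0) (S.env ∅ 0 0).Q (eB S 0 0).F (fun f => ((none : Option Bool), f))
    (Asm3.hB S 0 0) (eB S 0 0).Z (hiS (S.env ∅ 0 0) y) (SEnv.cutH y)

/-- the number of the lower half, cut along the row `y` -/
def zDy (S : Slb) (y : ℤ) : ℝ :=
  zDbl false y (Asm3.bx S 0 0) (S.env ∅ 0 0).Q (eB S 0 0).F (fun f => ((none : Option Bool), f))
    (Asm3.hB S 0 0) (eB S 0 0).Z (loS (S.env ∅ 0 0) y) (revFam (SEnv.cutH y))

theorem zU_eq (S : Slb) : zU S = zUy S (S.yc + (S.a / 2 : ℕ)) := rfl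

theorem zD_eq (S : Slb) : zD S = zDy S (S.yc - (S.a / 2 : ℕ)) := rfl

open Sand

/-- the weight is one on a row -/
theorem hN_row (h0 : S.yc - S.a < y) (h1 : y < S.yc + S.a)
    {a : (Option Bool × (ZMod N × ℤ)) × (Option Bool × (ZMod N × ℤ))}
    (ha : ∃ x, a = S.slabS.cutN N y x ∨ a = (S.slabS.cutN N y x).swap) :
    hN S N L X Y a = 1 := by
  obtain ⟨x, rfl | rfl⟩ := ha
  · obtain ⟨h2, h3⟩ := off_cutN (N := N) (L := L) (X := X) (Y := Y) h0 h1 x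
    exact hN_off _ h2 h3
  · obtain ⟨h2, h3⟩ := off_cutN (N := N) (L := L) (X := X) (Y := Y) h0 h1 x
    exact hN_off _ h3 (by rw [Prod.swap_swap]; exact h2)

/-- **The double of the upper part converges to `zU`.** -/
theorem lim_U (h : S.Ok) (h0 : S.yc - S.a < y₀) (hlt : y₀ < y₁) (h1 : y₁ < S.yc + S.a)
    (hI : (S.slabS.sf 0 0).In L) (hbx : Asm3.bx S 0 0 ≤ L) (hy : |y₁| < L) {ε : ℝ} (hε : 0 < ε) :
    ∃ N₀ : ℕ, ∀ (n : ℕ) [Fact (3 ≤ n + 1)], Odd (n + 1) → N₀ ≤ n + 1 → ∃ M₀ : ℤ, ∀ M, M₀ ≤ M →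
      ∃ x : ℝ, 1 / 2 ≤ x ∧ x ≤ 2 ∧
        ∀ hm : OneSided ((S.slabS.sf 0 0).QN (n + 1)) (S.slabS.UN (n + 1) 0 y₁ M)
          (fun j => Prod.map (Prod.mk none) (Prod.mk none) (lvF n y₁ j)),
        |(Z6 (dbl ((S.slabS.sf 0 0).QN (n + 1)) (S.slabS.UN (n + 1) 0 y₁ M)
            (fun j => Prod.map (Prod.mk none) (Prod.mk none) (lvF n y₁ j)) hm)
            (cpy (S.slabS.UN (n + 1) 0 y₁ M) false ∪ cpy (S.slabS.UN (n + 1) 0 y₁ M) true)
            (dblH (fun j => Prod.map (Prod.mk none) (Prod.mk none) (lvF n y₁ j))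
              (hN S (n + 1) L 0 0))).re -
          2 ^ (2 * (S.slabS.UN (n + 1) 0 y₁ M).card) * (r4 ^ (2 * (n + 1)) * x * zUy S y₁)| ≤
        2 ^ (2 * (S.slabS.UN (n + 1) 0 y₁ M).card) * (r4 ^ (2 * (n + 1)) * ε) := by
  have hg := abs_nonneg y₁
  have hB := inBx_of_in (W := ∅) hI
  have hE := slabS_ok h h0 hlt h1
  have HZ := glueZ_env (thk (W := ∅) (X := 0) (Y := 0) h) hB
  have H0 := half_hi (y := y₁) (X := 0) (Y := 0) h (by omega) h1 (inBx S 0 0)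
  have HH := half_hi (y := y₁) h (by omega) h1 hB
  obtain ⟨n', N₀, K⟩ := lim_dblG hI.pos HZ HH (noLoop_env _) (L' := L + |y₁|) le_rfl
    (h := hz (S.ph ∅ 0 0) (win (S.env ∅ 0 0) L).Z) (fun a h1 h2 => hz_eq_one a h1 h2)
    (fun f hf k hk => off_pl h hB (fun f hf => hiS_Fi hf) hf k hk) hε
  obtain ⟨k, hk⟩ := ex_pow hI.pos (4 ^ n' * (L + |y₁|) + |y₁|)
  have t1 := Int.self_le_toNat (2 * (4 ^ k * L))
  have t2 := Int.self_le_toNat (2 * (L + |y₁| + |y₁| + 1))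
  refine ⟨N₀ + (2 * (4 ^ k * L)).toNat + (2 * (L + |y₁| + |y₁| + 1)).toNat + 1, ?_⟩
  intro n _ hodd hN2
  obtain ⟨M₀, K⟩ := K (n + 1) hodd (by omega)
  refine ⟨|M₀| + L + |y₁| + |y₁| + |y₀| + 1, fun M hM => ?_⟩
  have a0 := le_abs_self M₀
  have a1 := abs_nonneg M₀
  have a2 := abs_nonneg y₀
  have a3 := neg_abs_le y₀
  have a4 := le_abs_self y₁
  have hpos := hI.pos
  have hM1 : M₀ ≤ dM true M y₁ := by
    unfold dM
    rw [if_pos rfl]
    omega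
  obtain ⟨x, x1, x2, K⟩ := K (dM true M y₁) hM1
  refine ⟨x, x1, x2, fun hm => ?_⟩
  have C := cyl_U (N := n + 1) (M := M) h h0 hlt h1 hI hy hodd (L' := L + |y₁|) le_rfl
    (n := k) (n' := n') (by push_cast at *; omega) hk (by push_cast at *; omega) (by omega)
    (by omega)
  have K1 := K _ _ _ _ _ (dblS_noLoop Surf.noLoop_QN) C
  have e1 := zDbl_box h H0 HH (fun f hf => hiS_Fi hf) hbx
  have hs : OneSidedS ((S.slabS.sf 0 0).QN (n + 1)) (S.slabS.upS (n + 1) 0 y₁)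
      (fun j : Fin (n + 1) => Prod.map (Prod.mk none) (Prod.mk none) (lvF n y₁ j)) :=
    SlabS.os_up hE hI (by push_cast at *; omega)
  have e2 := Z6_dbl_avc (h := hN S (n + 1) L 0 0) Surf.noLoop_QN hm hs
    (fun f hf => ⟨M, hf⟩) (fun a ha => by
      obtain ⟨i, hi⟩ := mem_eds.mp ha
      have h2 : ∃ x : ZMod (n + 1), a = S.slabS.cutN (n + 1) y₁ x ∨
          a = (S.slabS.cutN (n + 1) y₁ x).swap := ⟨i, hi⟩
      exact hN_row (by omega) h1 h2)
  rw [e2]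
  have e3 : zUy S y₁ = _ := e1
  rw [e3, ← mul_sub, abs_mul, abs_of_pos (show (0 : ℝ) < 2 ^ (2 * (S.slabS.UN (n + 1) 0 y₁ M).card)
    by positivity)]
  exact mul_le_mul_of_nonneg_left K1 (by positivity)

/-- **The double of the lower part converges to `zD`.** -/
theorem lim_D (h : S.Ok) (h0 : S.yc - S.a < y₀) (hlt : y₀ < y₁) (h1 : y₁ < S.yc + S.a)
    (hI : (S.slabS.sf 0 0).In L) (hbx : Asm3.bx S 0 0 ≤ L) (hy : |y₀| < L) {ε : ℝ} (hε : 0 < ε) :
    ∃ N₀ : ℕ, ∀ (n : ℕ) [Fact (3 ≤ n + 1)], Odd (n + 1) → N₀ ≤ n + 1 → ∃ M₀ : ℤ, ∀ M, M₀ ≤ M →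
      ∃ x : ℝ, 1 / 2 ≤ x ∧ x ≤ 2 ∧
        ∀ hm : OneSided ((S.slabS.sf 0 0).QN (n + 1)) (S.slabS.LN (n + 1) 0 M y₀)
          (revFam fun j => Prod.map (Prod.mk none) (Prod.mk none) (lvF n y₀ j)),
        |(Z6 (dbl ((S.slabS.sf 0 0).QN (n + 1)) (S.slabS.LN (n + 1) 0 M y₀)
            (revFam fun j => Prod.map (Prod.mk none) (Prod.mk none) (lvF n y₀ j)) hm)
            (cpy (S.slabS.LN (n + 1) 0 M y₀) false ∪ cpy (S.slabS.LN (n + 1) 0 M y₀) true)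
            (dblH (revFam fun j => Prod.map (Prod.mk none) (Prod.mk none) (lvF n y₀ j))
              (hN S (n + 1) L 0 0))).re -
          2 ^ (2 * (S.slabS.LN (n + 1) 0 M y₀).card) * (r4 ^ (2 * (n + 1)) * x * zDy S y₀)| ≤
        2 ^ (2 * (S.slabS.LN (n + 1) 0 M y₀).card) * (r4 ^ (2 * (n + 1)) * ε) := by
  have hg := abs_nonneg y₀
  have hB := inBx_of_in (W := ∅) hI
  have hE := slabS_ok h h0 hlt h1
  have HZ := glueZ_env (thk (W := ∅) (X := 0) (Y := 0) h) hB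
  have H0 := half_lo (y := y₀) (X := 0) (Y := 0) h h0 (by omega) (inBx S 0 0)
  have HH := half_lo (y := y₀) h h0 (by omega) hB
  obtain ⟨n', N₀, K⟩ := lim_dblG hI.pos HZ HH (noLoop_env _) (L' := L + |y₀|) le_rfl
    (h := hz (S.ph ∅ 0 0) (win (S.env ∅ 0 0) L).Z) (fun a h1 h2 => hz_eq_one a h1 h2)
    (fun f hf k hk => off_pl h hB (fun f hf => loS_Fi hf) hf k hk) hε
  obtain ⟨k, hk⟩ := ex_pow hI.pos (4 ^ n' * (L + |y₀|) + |y₀|)
  have t1 := Int.self_le_toNat (2 * (4 ^ k * L))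
  have t2 := Int.self_le_toNat (2 * (L + |y₀| + |y₀| + 1))
  refine ⟨N₀ + (2 * (4 ^ k * L)).toNat + (2 * (L + |y₀| + |y₀| + 1)).toNat + 1, ?_⟩
  intro n _ hodd hN2
  obtain ⟨M₀, K⟩ := K (n + 1) hodd (by omega)
  refine ⟨|M₀| + L + |y₀| + |y₀| + |y₁| + 1, fun M hM => ?_⟩
  have a0 := le_abs_self M₀
  have a1 := abs_nonneg M₀
  have a2 := abs_nonneg y₁
  have a3 := neg_abs_le y₀
  have a4 := le_abs_self y₁
  have hpos := hI.pos
  have hM1 : M₀ ≤ dM false M y₀ := by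
    unfold dM
    rw [if_neg (by simp)]
    omega
  obtain ⟨x, x1, x2, K⟩ := K (dM false M y₀) hM1
  refine ⟨x, x1, x2, fun hm => ?_⟩
  have C := cyl_D (N := n + 1) (M := M) h h0 hlt h1 hI hy hodd (L' := L + |y₀|) le_rfl
    (n := k) (n' := n') (by push_cast at *; omega) hk (by push_cast at *; omega) (by omega)
    (by omega)
  have K1 := K _ _ _ _ _ (dblS_noLoop Surf.noLoop_QN) C
  have e1 := zDbl_box h H0 HH (fun f hf => loS_Fi hf) hbx
  have hs : OneSidedS ((S.slabS.sf 0 0).QN (n + 1)) (S.slabS.loS (n + 1) 0 y₀)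
      (revFam fun j : Fin (n + 1) => Prod.map (Prod.mk none) (Prod.mk none) (lvF n y₀ j)) :=
    SlabS.os_lo hE hI (by push_cast at *; omega)
  have e2 := Z6_dbl_avc (h := hN S (n + 1) L 0 0) Surf.noLoop_QN hm hs
    (fun f hf => ⟨M, hf⟩) (fun a ha => by
      rw [eds_revFam] at ha
      obtain ⟨i, hi⟩ := mem_eds.mp ha
      have h2 : ∃ x : ZMod (n + 1), a = S.slabS.cutN (n + 1) y₀ x ∨
          a = (S.slabS.cutN (n + 1) y₀ x).swap := ⟨i, hi⟩
      exact hN_row h0 (by omega) h2)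
  rw [e2]
  have e3 : zDy S y₀ = _ := e1
  rw [e3, ← mul_sub, abs_mul, abs_of_pos (show (0 : ℝ) < 2 ^ (2 * (S.slabS.LN (n + 1) 0 M y₀).card)
    by positivity)]
  exact mul_le_mul_of_nonneg_left K1 (by positivity)

/-! ## The norms -/

theorem scale_nrm {c k : ℕ} {Z x z ε : ℝ}
    (h : |Z - 2 ^ (2 * c) * (r4 ^ (2 * k) * x * z)| ≤ 2 ^ (2 * c) * (r4 ^ (2 * k) * ε)) :
    |((2 ^ c * r4 ^ k)⁻¹) ^ 2 * Z - x * z| ≤ ε := by
  have hr : 0 < r4 ^ (2 * k) := pow_pos r4_pos _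
  have hW : 0 < (2 : ℝ) ^ (2 * c) * r4 ^ (2 * k) := by positivity
  have e1 : ((2 ^ c * r4 ^ k)⁻¹) ^ 2 = ((2 : ℝ) ^ (2 * c) * r4 ^ (2 * k))⁻¹ := by
    rw [inv_pow, mul_pow, ← pow_mul, ← pow_mul, mul_comm c, mul_comm k]
  have e2 : ((2 : ℝ) ^ (2 * c) * r4 ^ (2 * k))⁻¹ * Z - x * z =
      ((2 : ℝ) ^ (2 * c) * r4 ^ (2 * k))⁻¹ * (Z - 2 ^ (2 * c) * (r4 ^ (2 * k) * x * z)) := by
    rw [mul_sub]
    congr 1
    field_simp
  rw [e1, e2, abs_mul, abs_of_pos (inv_pos.mpr hW), inv_mul_le_iff₀ hW]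
  refine h.trans (le_of_eq ?_)
  ring

/-- **The norm of the upper vector.** -/
theorem norm_U (h : S.Ok) (h0 : S.yc - S.a < y₀) (hlt : y₀ < y₁) (h1 : y₁ < S.yc + S.a)
    (hI : (S.slabS.sf 0 0).In L) (hbx : Asm3.bx S 0 0 ≤ L) (hy : |y₁| < L) {ε : ℝ} (hε : 0 < ε) :
    ∃ N₀ : ℕ, ∀ (n : ℕ) [Fact (3 ≤ n + 1)], Odd (n + 1) → N₀ ≤ n + 1 → ∃ M₀ : ℤ, ∀ M, M₀ ≤ M →
      ∃ x : ℝ, 1 / 2 ≤ x ∧ x ≤ 2 ∧
        |((2 ^ (S.slabS.UN (n + 1) 0 y₁ M).card * r4 ^ (n + 1))⁻¹) ^ 2 *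
            ‖zvec ((S.slabS.sf 0 0).QN (n + 1)) (S.slabS.UN (n + 1) 0 y₁ M) (hN S (n + 1) L 0 0)
              (fun j => Prod.map (Prod.mk none) (Prod.mk none) (lvF n y₁ j))‖ ^ 2 -
          x * zUy S y₁| ≤ ε := by
  obtain ⟨N₀, K⟩ := lim_U h h0 hlt h1 hI hbx hy hε
  have t1 := Int.self_le_toNat (2 * L)
  refine ⟨N₀ + (2 * L).toNat + 1, ?_⟩
  intro n _ hodd hN2
  obtain ⟨M₀, K⟩ := K n hodd (by omega)
  refine ⟨|M₀| + |y₁| + 1, fun M hM => ?_⟩
  have a0 := le_abs_self M₀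
  have a1 := abs_nonneg M₀
  have a2 := abs_nonneg y₁
  have a4 := le_abs_self y₁
  obtain ⟨x, x1, x2, K⟩ := K M (by omega)
  refine ⟨x, x1, x2, ?_⟩
  have hm : OneSided ((S.slabS.sf 0 0).QN (n + 1)) (S.slabS.UN (n + 1) 0 y₁ M)
      (fun j : Fin (n + 1) => Prod.map (Prod.mk none) (Prod.mk none) (lvF n y₁ j)) :=
    SlabS.os_UN (slabS_ok h h0 hlt h1) hI (by push_cast at *; omega) (by omega)
  rw [norm_zvec _ _ _ _ hm]
  exact scale_nrm (K hm)

/-- **The norm of the lower vector.** -/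
theorem norm_D (h : S.Ok) (h0 : S.yc - S.a < y₀) (hlt : y₀ < y₁) (h1 : y₁ < S.yc + S.a)
    (hI : (S.slabS.sf 0 0).In L) (hbx : Asm3.bx S 0 0 ≤ L) (hy : |y₀| < L) {ε : ℝ} (hε : 0 < ε) :
    ∃ N₀ : ℕ, ∀ (n : ℕ) [Fact (3 ≤ n + 1)], Odd (n + 1) → N₀ ≤ n + 1 → ∃ M₀ : ℤ, ∀ M, M₀ ≤ M →
      ∃ x : ℝ, 1 / 2 ≤ x ∧ x ≤ 2 ∧
        |((2 ^ (S.slabS.LN (n + 1) 0 M y₀).card * r4 ^ (n + 1))⁻¹) ^ 2 *
            ‖dvec ((S.slabS.sf 0 0).QN (n + 1)) (S.slabS.LN (n + 1) 0 M y₀) (hN S (n + 1) L 0 0)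
              (fun j => Prod.map (Prod.mk none) (Prod.mk none) (lvF n y₀ j))‖ ^ 2 -
          x * zDy S y₀| ≤ ε := by
  obtain ⟨N₀, K⟩ := lim_D h h0 hlt h1 hI hbx hy hε
  have t1 := Int.self_le_toNat (2 * L)
  refine ⟨N₀ + (2 * L).toNat + 1, ?_⟩
  intro n _ hodd hN2
  obtain ⟨M₀, K⟩ := K n hodd (by omega)
  refine ⟨|M₀| + |y₀| + 1, fun M hM => ?_⟩
  have a0 := le_abs_self M₀
  have a1 := abs_nonneg M₀
  have a2 := abs_nonneg y₀
  have a4 := neg_abs_le y₀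
  obtain ⟨x, x1, x2, K⟩ := K M (by omega)
  refine ⟨x, x1, x2, ?_⟩
  have hm : OneSided ((S.slabS.sf 0 0).QN (n + 1)) (S.slabS.LN (n + 1) 0 M y₀)
      (revFam fun j : Fin (n + 1) => Prod.map (Prod.mk none) (Prod.mk none) (lvF n y₀ j)) :=
    SlabS.os_LN (slabS_ok h h0 hlt h1) hI (by push_cast at *; omega) (by omega)
  have hf : Fam (fun j : Fin (n + 1) => (Prod.map (Prod.mk none) (Prod.mk none) (lvF n y₀ j) :
      (Option Bool × (ZMod (n + 1) × ℤ)) × (Option Bool × (ZMod (n + 1) × ℤ)))) :=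
    SlabS.fam_cutN (E := S.slabS) (N := n + 1) y₀
  rw [norm_dvec _ _ _ _ hf hm]
  exact scale_nrm (K hm)

end Slb

end

end Pool.Agent.SixB
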