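import Pool.Agent.Lib.SixB.S3CylNrm
import Pool.Agent.Lib.SixB.S3CylElt
import Pool.Agent.Lib.SixB.S3CylWs

/-!
# 6BD step 3: the joint limit with the sign inserted (row R17, `CylIn`)

* `Slb.cyl_ins`: the cylinder surface of `E(X, Y)` with the sign of a side inserted covers the plane surface.
* `Slb.zS_box1`: the number `zS` in a larger box.
* `Slb.limF1`: the joint limit for all shifts `|X|, |Y| ≤ W` and all sides of `R`.
-/

set_option autoImplicit false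
set_option linter.unusedSectionVars false

namespace Pool.Agent.SixB

open Pool.Agent.Perc Pool.Agent.Perc.Q Relation Filter Topology ComplexConjugate
open Pool.Agent.SixB.Rel
open Pool.Agent.SixB hiding Zs_split dst_congr qt_congr dE_mono
open Pool.Agent.SixB.Asm3 (sd0)

noncomputable section

namespace Slb

variable {S : Slb} {X Y L M : ℤ} {N : ℕ} [hN3 : Fact (3 ≤ N)] {R : Finset (ℤ × ℤ)}
  {e : (ℤ × ℤ) × (ℤ × ℤ)}

/-- **The cylinder surface with the sign of a side inserted.** -/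
theorem cyl_ins (h : S.Ok) (hI : (S.slabS.sf X Y).In L) (hR : R ⊆ RFb (0, 0) L)
    (hH : ∀ g ∈ R, g ∉ (S.slabS.sf X Y).H) (he : e ∈ dE ZQ R) (hodd : Odd N) {n : ℕ}
    (hn : 2 * (4 ^ n * L) < N) (hL : 2 * (L + 1) < N) (hM : L < M) :
    Hcs.Cyl n N M L (S.env ∅ X Y).Q (win (S.env ∅ X Y) L).F (fun f => ((none : Option Bool), f))
      (fun b => hz (S.ph ∅ X Y) (win (S.env ∅ X Y) L).Z b * sgE (sd0 e) b)
      ((win (S.env ∅ X Y) L).Z ∪ (dE ZQ R).image sd0) ((S.slabS.sf X Y).QN N)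
      ((S.slabS.sf X Y).FN N M)
      (fun b => hN S N L X Y b *
        sgE (Prod.map (Surf.chi (Option Bool) N) (Surf.chi (Option Bool) N) (sd0 e)) b) := by
  have hP := PS_sub h hI hR hH
  have G := glueN (N := N) h hI hP Finset.subset_union_left hL hM
  have C := Surf.cov hI hn hP (h := fun b => hz (S.ph ∅ X Y) (S.env (RFb (0, 0) L) X Y).Z b *
    sgE (sd0 e) b) (fun a h1 h2 => hs_one he a h1 h2)
  rw [core_env] at C
  refine ⟨_, _, _, _, _, _, 0, _, G, C, ?_, ?_, fun a h1 h2 => Surf.pushW_one h1 h2, ?_⟩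
  · exact Surf.FN_eq hI hM.le (by omega)
  · intro ω
    exact turnsFN h hI hodd hL hM ω
  · intro a _
    exact (push_ins h hI (by omega) hR hH he a).symm

/-- the sides of the rectangle are sides of the small core -/
theorem sd0_bx (hI : (S.slabS.sf X Y).In L) (hR : R ⊆ RFb (0, 0) (Asm3.bx S X Y))
    (hH : ∀ g ∈ R, g ∉ (S.slabS.sf X Y).H) :
    (dE ZQ R).image sd0 ⊆ dE (S.env ∅ X Y).Q (Asm3.eB S X Y).F := by
  have hc := Surf.base_chart (E := S.slabS.sf X Y) hI hH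
  have h1 : (dE ZQ R).image sd0 = dE (S.env ∅ X Y).Q (R.image (Prod.mk (S.slabS.sf X Y).s0)) :=
    (hc.dE_map (Finset.Subset.refl _)).symm
  rw [h1]
  refine dE_mono fun f hf => ?_
  obtain ⟨g, hg, rfl⟩ := Finset.mem_image.mp hf
  have h2 := hH g hg
  rw [mem_H] at h2
  push Not at h2
  exact (EnvB.mem_F_none (E := Rel.win (S.env ∅ X Y) (Asm3.bx S X Y))).mpr
    (Rel.mem_base_win.mpr ⟨hR hg, h2⟩)

/-- **The number `zS` in a larger box.** -/
theorem zS_box1 (h : S.Ok) (hb : Asm3.bx S X Y ≤ L) (hI : (S.slabS.sf X Y).In L)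
    (hR : R ⊆ RFb (0, 0) (Asm3.bx S X Y)) (hH : ∀ g ∈ R, g ∉ (S.slabS.sf X Y).H)
    (he : e ∈ dE ZQ R) :
    Zp L (S.env ∅ X Y).Q (win (S.env ∅ X Y) L).F (fun f => ((none : Option Bool), f))
        (fun b => hz (S.ph ∅ X Y) (win (S.env ∅ X Y) L).Z b * sgE (sd0 e) b)
        ((win (S.env ∅ X Y) L).Z ∪ (dE ZQ R).image sd0) =
      Asm3.zS S X Y R e := by
  have hB0 := Asm3.inBx S X Y
  have eZ : (win (S.env ∅ X Y) L).Z = (Asm3.eB S X Y).Z := Z_win (thk h) hB0 hb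
  have eF : (Asm3.eB S X Y).F ∪ (RFb (0, 0) L \ RFb (0, 0) (Asm3.bx S X Y)).image
      (fun f => ((none : Option Bool), f)) = (win (S.env ∅ X Y) L).F := FM_env hB0 hb
  have hG0 : GlueZ (Asm3.bx S X Y) (S.env ∅ X Y).Q (Asm3.eB S X Y).F
      (fun v => ((none : Option Bool), v)) (fun f => ((none : Option Bool), f))
      (Asm3.eB S X Y).Z := glueZ_env (thk h) hB0
  have hG : GlueZ (Asm3.bx S X Y) (S.env ∅ X Y).Q (Asm3.eB S X Y).F
      (fun v => ((none : Option Bool), v)) (fun f => ((none : Option Bool), f))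
      ((Asm3.eB S X Y).Z ∪ (dE ZQ R).image sd0) :=
    { hG0 with P_sub := Finset.union_subset hG0.P_sub (sd0_bx hI hR hH) }
  have h1 := hG.Zp_box (noLoop_env _) (Asm3.bx_pos S X Y) hb
    (h := fun b => Asm3.hB S X Y b * sgE (sd0 e) b) (fun a h1 h2 => hs_one he a h1 h2)
  rw [eF] at h1
  rw [eZ]
  exact h1

/-- one environment: the values over the cylinder are close to the values of the plane -/
theorem close_one (h : S.Ok) (hb : Asm3.bx S X Y ≤ L) (hI : (S.slabS.sf X Y).In L)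
    (hR : R ⊆ RFb (0, 0) (Asm3.bx S X Y)) (hH : ∀ g ∈ R, g ∉ (S.slabS.sf X Y).H) {m : ℕ}
    [Fact (3 ≤ m + 1)] {x ε : ℝ} (hx : x ≤ 2) (hε : 0 ≤ ε)
    (K : ∀ e ∈ Ins.EP R, ‖avc ((S.slabS.sf X Y).FN (m + 1) M) (fun ω =>
        Zs ((S.slabS.sf X Y).QN (m + 1)) ((S.slabS.sf X Y).FN (m + 1) M) ω
          (fun b => hN S (m + 1) L X Y b * sgE (Prod.map (Surf.chi (Option Bool) (m + 1))
            (Surf.chi (Option Bool) (m + 1)) (sd0 e)) b)) -
        ((r4 ^ (2 * (m + 1)) * x : ℝ) : ℂ) * Zp L (S.env ∅ X Y).Q (win (S.env ∅ X Y) L).F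
          (fun f => ((none : Option Bool), f))
          (fun b => hz (S.ph ∅ X Y) (win (S.env ∅ X Y) L).Z b * sgE (sd0 e) b)
          ((win (S.env ∅ X Y) L).Z ∪ (dE ZQ R).image sd0)‖ ≤ (r4 ^ (2 * (m + 1)) * x) * ε) :
    Close S m L M X Y R x (2 * ε) := by
  intro e he
  have he' : e ∈ dE ZQ R := (Ins.mem_EP.mp he).1
  have h1 := K e he
  rw [zS_box1 h hb hI hR hH he'] at h1
  have e1 : zN S (m + 1) L M X Y e = (2 : ℂ) ^ ((S.slabS.sf X Y).FN (m + 1) M).card *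
      avc ((S.slabS.sf X Y).FN (m + 1) M) (fun ω =>
        Zs ((S.slabS.sf X Y).QN (m + 1)) ((S.slabS.sf X Y).FN (m + 1) M) ω
          (fun b => hN S (m + 1) L X Y b * sgE (Prod.map (Surf.chi (Option Bool) (m + 1))
            (Surf.chi (Option Bool) (m + 1)) (sd0 e)) b)) :=
    Z6_avc Surf.noLoop_QN _ _
  have e2 : ((nF S m M X Y * x : ℝ) : ℂ) = (2 : ℂ) ^ ((S.slabS.sf X Y).FN (m + 1) M).card *
      ((r4 ^ (2 * (m + 1)) * x : ℝ) : ℂ) := by
    unfold nF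
    push_cast
    ring
  rw [e1, e2, mul_assoc, ← mul_sub, norm_mul]
  have e3 : ‖(2 : ℂ) ^ ((S.slabS.sf X Y).FN (m + 1) M).card‖ =
      2 ^ ((S.slabS.sf X Y).FN (m + 1) M).card := by
    rw [norm_pow]
    norm_num
  rw [e3]
  unfold nF
  rw [mul_assoc]
  refine mul_le_mul_of_nonneg_left (h1.trans ?_) (by positivity)
  have hr : 0 < r4 ^ (2 * (m + 1)) := pow_pos r4_pos _
  rw [mul_assoc]
  exact mul_le_mul_of_nonneg_left (mul_le_mul_of_nonneg_right hx hε) hr.le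

theorem bx_le1 {W : ℤ} (hX : |X| ≤ W) (hY : |Y| ≤ W) : Asm3.bx S X Y ≤ Asm3.bx S 0 0 + 4 * |W| := by
  have h1 := le_abs_self W
  unfold Asm3.bx
  rw [abs_zero]
  omega

theorem R_bx (hR : ∀ g ∈ R, S.x1 ≤ g.1 ∧ g.1 < S.x2 ∧ S.yc - S.a ≤ g.2 ∧ g.2 < S.yc + S.a) :
    R ⊆ RFb (0, 0) (Asm3.bx S X Y) := by
  intro g hg
  obtain ⟨h1, h2, h3, h4⟩ := hR g hg
  rw [mem_RF0]
  have a1 := neg_abs_le S.x1
  have a2 := le_abs_self S.x1
  have a3 := neg_abs_le S.x2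
  have a4 := le_abs_self S.x2
  have a5 := neg_abs_le S.yc
  have a6 := le_abs_self S.yc
  have a7 := abs_nonneg X
  have a8 := abs_nonneg Y
  unfold Asm3.bx
  omega

/-- **The premise `LimF`: the joint limit.** -/
theorem limF1 : LimF := by
  intro S h ha W R hR
  obtain ⟨L₁, hL₁⟩ := exists_in h W
  refine ⟨|L₁| + Asm3.bx S 0 0 + 4 * |W|, fun L hL ε hε => ?_⟩
  have b0 := Asm3.bx_pos S 0 0
  have b1 := le_abs_self L₁
  have b2 := abs_nonneg L₁
  have b3 := abs_nonneg W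
  have hpos : 0 < L := by omega
  -- constants
  set hh : ℤ → ℤ → (ℤ × ℤ) × (ℤ × ℤ) →
      (Option Bool × (ℤ × ℤ)) × (Option Bool × (ℤ × ℤ)) → ℂ := fun X Y e b =>
    hz (S.ph ∅ X Y) (win (S.env ∅ X Y) L).Z b * sgE (sd0 e) b with hhh
  set K : ℝ := ∑ X ∈ Finset.Icc (-W) W, ∑ Y ∈ Finset.Icc (-W) W, ∑ e ∈ Ins.EP R,
    CP (hh X Y e) ((win (S.env ∅ X Y) L).Z ∪ (dE ZQ R).image sd0) with hK
  have hKe : ∀ X Y, |X| ≤ W → |Y| ≤ W → ∀ e ∈ Ins.EP R,
      CP (hh X Y e) ((win (S.env ∅ X Y) L).Z ∪ (dE ZQ R).image sd0) ≤ K := by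
    intro X Y hX hY e he
    have m1 : X ∈ Finset.Icc (-W) W := Finset.mem_Icc.mpr (abs_le.mp hX)
    have m2 : Y ∈ Finset.Icc (-W) W := Finset.mem_Icc.mpr (abs_le.mp hY)
    have s1 := Finset.single_le_sum (f := fun e => CP (hh X Y e)
      ((win (S.env ∅ X Y) L).Z ∪ (dE ZQ R).image sd0)) (fun _ _ => CP_nonneg _ _) he
    have s2 := Finset.single_le_sum (f := fun Y => ∑ e ∈ Ins.EP R, CP (hh X Y e)
      ((win (S.env ∅ X Y) L).Z ∪ (dE ZQ R).image sd0))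
      (fun _ _ => Finset.sum_nonneg fun _ _ => CP_nonneg _ _) m2
    have s3 := Finset.single_le_sum (f := fun X => ∑ Y ∈ Finset.Icc (-W) W, ∑ e ∈ Ins.EP R,
      CP (hh X Y e) ((win (S.env ∅ X Y) L).Z ∪ (dE ZQ R).image sd0))
      (fun _ _ => Finset.sum_nonneg fun _ _ => Finset.sum_nonneg fun _ _ => CP_nonneg _ _) m1
    exact (s1.trans s2).trans s3
  obtain ⟨n, -, A⟩ := Hcs.Cyl.lim hpos K (ε := ε / 2) (by positivity)
  have t1 := Int.self_le_toNat (2 * (4 ^ n * (4 ^ n * L)))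
  have t2 := Int.self_le_toNat (2 * (L + 1))
  refine ⟨(2 * (4 ^ n * (4 ^ n * L))).toNat + (2 * (L + 1)).toNat + 1, ?_⟩
  intro m _ hodd hm
  obtain ⟨M₀, A⟩ := A (m + 1) hodd (by omega)
  refine ⟨|M₀| + L + 1, fun M hM => ?_⟩
  have c0 := le_abs_self M₀
  have c1 := abs_nonneg M₀
  obtain ⟨x, x1, x2, A⟩ := A M (by omega)
  refine ⟨x, x1, x2, fun X Y hX hY => ?_⟩
  have hI := hL₁ L (by omega) X Y hX hY
  have hb := bx_le1 (S := S) hX hY
  have hRb := R_bx (X := X) (Y := Y) hR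
  have hRL : R ⊆ RFb (0, 0) L := fun g hg => RF0_mono (by omega) (hRb hg)
  have hH : ∀ g ∈ R, g ∉ (S.slabS.sf X Y).H := fun g hg =>
    row_H (hR g hg).2.2.1 (hR g hg).2.2.2
  have q4 : (1 : ℤ) ≤ 4 ^ n := one_le_pow₀ (by norm_num)
  have q5 : 4 ^ n * L ≤ 4 ^ n * (4 ^ n * L) := by
    have : 0 < 4 ^ n * L := by positivity
    nlinarith
  have e2 : 2 * (ε / 2) = ε := by ring
  rw [← e2]
  refine close_one h (by omega) hI hRb hH x2 (by positivity) fun e he => ?_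
  have he' : e ∈ dE ZQ R := (Ins.mem_EP.mp he).1
  have hPs := PS_sub h hI hRL hH
  rw [core_env] at hPs
  have hG : GlueZ L (S.env ∅ X Y).Q (win (S.env ∅ X Y) L).F
      (fun v => ((none : Option Bool), v)) (fun f => ((none : Option Bool), f))
      ((win (S.env ∅ X Y) L).Z ∪ (dE ZQ R).image sd0) :=
    { glueZ_env (thk (W := ∅) h) (inBx_of_in hI) with P_sub := hPs }
  exact A _ _ _ _ _ _ _ _ _ _ _ _ _ (noLoop_env _) Surf.noLoop_QN hG
    (fun a h1 h2 => hs_one he' a h1 h2) (hKe X Y hX hY e he)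
    (cyl_ins h hI hRL hH he' hodd (by push_cast at *; omega) (by push_cast at *; omega)
      (by omega))

end Slb

end

end Pool.Agent.SixB
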