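import Pool.Agent.Lib.SixB.S3Sandwich
import Pool.Agent.Lib.SixB.S3PlaneF
import Pool.Agent.Lib.SixB.S3Defs

/-!
# 6BD step 3: glued surfaces over the plane and over the cylinder (row R17)

* `Surf S`: sheets `S`, base sheet `s0`, gluing `σ`, holes `H` of the base sheet, faces `K` of the other sheets.
* `Surf.In E L`: everything is in the box of radius `L`.
* plane: `E.Q`, `E.core L`; `glueZ`.
* cylinder: `E.QN N`, `E.coreN N L`, `E.FN N M`, the covering map `chi N`; `glueC`, `cov`.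
-/

set_option autoImplicit false
set_option linter.unusedSectionVars false

namespace Pool.Agent.SixB

open Pool.Agent.Perc Pool.Agent.Perc.Q Relation
open Pool.Agent.SixB.Rel (QChart GlueZ GlueC Cov bxC vb aZ mem_bxC mem_RF0 cor0_le mem_aZ RF0_mono
  face_of_cor0 botE topE mem_botE mem_topE pN_inj)

noncomputable section

/-- a glued surface over the plane -/
structure Surf (S : Type) where
  s0 : S
  σ : ℤ × ℤ → ZMod 4 → Equiv.Perm S
  H : Finset (ℤ × ℤ)
  K : Finset (S × (ℤ × ℤ))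

namespace Surf

variable {S : Type} [DecidableEq S] (E : Surf S)

/-- the plane complex -/
def Q : QC (S × (ℤ × ℤ)) (S × (ℤ × ℤ)) := SQ ZQ E.σ

/-- the faces in the box of radius `L` and the other sheets -/
def core (L : ℤ) : Finset (S × (ℤ × ℤ)) := ((RFb (0, 0) L \ E.H).image (Prod.mk E.s0)) ∪ E.K

/-- everything is in the box -/
structure In (L : ℤ) : Prop where
  pos : 0 < L
  H : ∀ g ∈ E.H, g ∈ RFb (0, 0) (L - 1)
  K : ∀ f ∈ E.K, f.2 ∈ RFb (0, 0) L
  K0 : ∀ f ∈ E.K, f.1 ≠ E.s0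
  sup : ∀ g k, E.σ g k ≠ 1 → g ∈ RFb (0, 0) L
  base : ∀ g, g ∉ E.H → ∀ k, E.σ g k E.s0 = E.s0

/-- the gluing over the cylinder -/
def σN (N : ℕ) (f : ZMod N × ℤ) (k : ZMod 4) : Equiv.Perm S := by
  classical
  exact if h : ∃ g : ℤ × ℤ, pN N g = f ∧ E.σ g k ≠ 1 then E.σ h.choose k else 1

/-- the covering map on vertices and faces -/
def chi (S : Type) (N : ℕ) : S × (ℤ × ℤ) → S × (ZMod N × ℤ) := Prod.map id (pN N)

variable {E} {L : ℤ}

theorem mem_core {f : S × (ℤ × ℤ)} :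
    f ∈ E.core L ↔ (f.1 = E.s0 ∧ f.2 ∈ RFb (0, 0) L ∧ f.2 ∉ E.H) ∨ f ∈ E.K := by
  unfold core
  rw [Finset.mem_union, Finset.mem_image]
  constructor
  · rintro (⟨g, hg, rfl⟩ | h)
    · exact Or.inl ⟨rfl, (Finset.mem_sdiff.mp hg).1, (Finset.mem_sdiff.mp hg).2⟩
    · exact Or.inr h
  · rintro (⟨h1, h2, h3⟩ | h)
    · exact Or.inl ⟨f.2, Finset.mem_sdiff.mpr ⟨h2, h3⟩, by rw [← h1]⟩
    · exact Or.inr h

theorem core_box (hE : E.In L) {f : S × (ℤ × ℤ)} (hf : f ∈ E.core L) : f.2 ∈ RFb (0, 0) L := by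
  rcases mem_core.mp hf with ⟨-, h, -⟩ | h
  · exact h
  · exact hE.K f h

theorem In.mono {L' : ℤ} (hE : E.In L) (h : L ≤ L') : E.In L' where
  pos := lt_of_lt_of_le hE.pos h
  H g hg := RF0_mono (by omega) (hE.H g hg)
  K f hf := RF0_mono h (hE.K f hf)
  K0 := hE.K0
  sup g k hg := RF0_mono h (hE.sup g k hg)
  base := hE.base

/-- the gluing over the cylinder is the one of the plane -/
theorem σN_eq (hE : E.In L) {N : ℕ} [Fact (3 ≤ N)] {L' : ℤ} (hL : L ≤ L') (hN : 2 * L' < N) {g : ℤ × ℤ}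
    (hg : |g.1| ≤ L') (k : ZMod 4) : E.σN N (pN N g) k = E.σ g k := by
  classical
  unfold σN
  by_cases h : ∃ g' : ℤ × ℤ, pN N g' = pN N g ∧ E.σ g' k ≠ 1
  · rw [dif_pos h]
    obtain ⟨h1, h2⟩ := h.choose_spec
    have h3 := mem_RF0.mp (hE.sup _ _ h2)
    have h4 : h.choose = g := pN_inj hN (by rw [abs_le]; omega) hg h1
    rw [h4]
  · rw [dif_neg h]
    by_contra h1
    exact h ⟨g, rfl, fun h2 => h1 h2.symm⟩

theorem σN_base (hE : E.In L) {N : ℕ} {f : ZMod N × ℤ} (hf : ∀ g ∈ E.H, pN N g ≠ f) (k : ZMod 4) :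
    E.σN N f k E.s0 = E.s0 := by
  classical
  unfold σN
  by_cases h : ∃ g' : ℤ × ℤ, pN N g' = f ∧ E.σ g' k ≠ 1
  · rw [dif_pos h]
    obtain ⟨h1, -⟩ := h.choose_spec
    exact hE.base _ (fun h3 => hf _ h3 h1) k
  · rw [dif_neg h]
    rfl

theorem Q_c (f : S × (ℤ × ℤ)) (k : ZMod 4) : E.Q.c f k = (E.σ f.2 k f.1, ZQ.c f.2 k) := rfl

/-! ## The plane -/

theorem base_chart (hE : E.In L) {F : Finset (ℤ × ℤ)} (hF : ∀ g ∈ F, g ∉ E.H) :
    QChart ZQ E.Q F (Prod.mk E.s0) (Prod.mk E.s0) 0 where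
  inj f _ g _ k l h := (Prod.mk.inj h).2
  cor f hf k := by
    rw [add_zero, Q_c, hE.base f (hF f hf) k]

theorem glueZ (hE : E.In L) {P : Finset ((S × (ℤ × ℤ)) × (S × (ℤ × ℤ)))}
    (hP : P ⊆ dE E.Q (E.core L)) : GlueZ L E.Q (E.core L) (Prod.mk E.s0) (Prod.mk E.s0) P where
  chart M := base_chart hE fun g hg h =>
    (Finset.mem_sdiff.mp hg).2 (RF0_mono (by omega) (hE.H g h))
  dj g hg h := by
    rcases mem_core.mp h with ⟨-, h1, -⟩ | h1
    · exact hg h1
    · exact hE.K0 _ h1 rfl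
  nb f hf k g hg l h := by
    have h1 : ZQ.c f.2 k = ZQ.c g l := (Prod.mk.inj h).2
    rw [← h1]
    exact cor0_le (core_box hE hf) k
  P_sub := hP

theorem noLoop_Q : NoLoop E.Q := by
  intro f k h
  exact noLoop_ZQ f.2 k (Prod.mk.inj h).2

/-! ## The cylinder -/

section Cyl

variable {N : ℕ} [hN : Fact (3 ≤ N)] (E)

/-- the complex over the cylinder -/
def QN (N : ℕ) [Fact (3 ≤ N)] : QC (S × (ZMod N × ℤ)) (S × (ZMod N × ℤ)) := SQ (CQ N) (E.σN N)

/-- the core over the cylinder -/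
def coreN (N : ℕ) [Fact (3 ≤ N)] (L : ℤ) : Finset (S × (ZMod N × ℤ)) := (E.core L).image (chi S N)

/-- the faces over the cylinder -/
def FN (N : ℕ) [Fact (3 ≤ N)] (M : ℤ) : Finset (S × (ZMod N × ℤ)) :=
  ((cylF N (-M) M \ E.H.image (pN N)).image (Prod.mk E.s0)) ∪ E.K.image (chi S N)

variable {E}

theorem QN_c (f : S × (ZMod N × ℤ)) (k : ZMod 4) :
    (E.QN N).c f k = (E.σN N f.2 k f.1, (CQ N).c f.2 k) := rfl

theorem noLoop_QN : NoLoop (E.QN N) := by
  intro f k h
  exact noLoop_CQ f.2 k (Prod.mk.inj h).2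

theorem corC_chi (g : ℤ × ℤ) (k : ZMod 4) : (CQ N).c (pN N g) k = pN N (ZQ.c g k) := corC_pN g k

theorem mem_FN {M : ℤ} {f : S × (ZMod N × ℤ)} : f ∈ E.FN N M ↔
    (f.1 = E.s0 ∧ f.2 ∈ cylF N (-M) M ∧ ∀ g ∈ E.H, pN N g ≠ f.2) ∨ ∃ f' ∈ E.K, chi S N f' = f := by
  unfold FN
  rw [Finset.mem_union, Finset.mem_image, Finset.mem_image]
  constructor
  · rintro (⟨g, hg, rfl⟩ | h)
    · obtain ⟨h1, h2⟩ := Finset.mem_sdiff.mp hg
      exact Or.inl ⟨rfl, h1, fun g' hg' e => h2 (Finset.mem_image.mpr ⟨g', hg', e⟩)⟩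
    · exact Or.inr h
  · rintro (⟨h1, h2, h3⟩ | h)
    · refine Or.inl ⟨f.2, Finset.mem_sdiff.mpr ⟨h2, fun h4 => ?_⟩, by rw [← h1]⟩
      obtain ⟨g', hg', e⟩ := Finset.mem_image.mp h4
      exact h3 g' hg' e
    · exact Or.inr h

/-- faces of the box, with the same projection -/
theorem box_inj {L' : ℤ} (hN' : 2 * L' < N) {g g' : ℤ × ℤ} (h : g ∈ RFb (0, 0) L')
    (h' : g' ∈ RFb (0, 0) L') (e : pN N g = pN N g') : g = g' := by
  rw [mem_RF0] at h h'
  exact pN_inj hN' (by rw [abs_le]; omega) (by rw [abs_le]; omega) e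

theorem not_bxC {L' : ℤ} (hL : L ≤ L') (hN' : 2 * L' < N) {g : ℤ × ℤ} (h : g ∈ RFb (0, 0) L')
    (h' : g ∉ RFb (0, 0) L) : pN N g ∉ bxC N L := by
  intro h1
  obtain ⟨u, h2, h3, h4, h5, h6⟩ := mem_bxC.mp h1
  have h7 : u ∈ RFb (0, 0) L := mem_RF0.mpr ⟨h2, h3, h4, h5⟩
  exact h' (box_inj hN' h (RF0_mono hL h7) h6 ▸ h7)

/-- the decomposition into the core and the flat part -/
theorem FN_eq (hE : E.In L) {M : ℤ} (hM : L ≤ M) (hN' : 2 * L < N) :
    E.coreN N L ∪ (cylF N (-M) M \ bxC N L).image (Prod.mk E.s0) = E.FN N M := by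
  ext f
  rw [mem_FN, Finset.mem_union]
  unfold coreN
  rw [Finset.mem_image, Finset.mem_image]
  constructor
  · rintro (⟨f', hf', rfl⟩ | ⟨g, hg, rfl⟩)
    · rcases mem_core.mp hf' with ⟨h1, h2, h3⟩ | h1
      · refine Or.inl ⟨h1, ?_, fun g hg e => ?_⟩
        · have h4 := mem_RF0.mp h2
          rw [mem_cylF]
          show -M ≤ f'.2.2 ∧ f'.2.2 < M
          omega
        · have h4 : g = f'.2 := box_inj hN' (RF0_mono (by omega) (hE.H g hg)) h2 e
          exact h3 (h4 ▸ hg)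
      · exact Or.inr ⟨f', h1, rfl⟩
    · obtain ⟨h1, h2⟩ := Finset.mem_sdiff.mp hg
      refine Or.inl ⟨rfl, h1, fun g' hg' e => h2 ?_⟩
      have e' : pN N g' = g := e
      rw [← e']
      exact Finset.mem_image_of_mem _ (RF0_mono (by omega) (hE.H g' hg'))
  · rintro (⟨h1, h2, h3⟩ | ⟨f', hf', rfl⟩)
    · by_cases h4 : f.2 ∈ bxC N L
      · obtain ⟨u, hu, e⟩ := Finset.mem_image.mp h4
        left
        refine ⟨(E.s0, u), mem_core.mpr (Or.inl ⟨rfl, hu, fun h5 => h3 u h5 e⟩), ?_⟩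
        exact Prod.ext h1.symm e
      · right
        exact ⟨f.2, Finset.mem_sdiff.mpr ⟨h2, h4⟩, Prod.ext h1.symm rfl⟩
    · exact Or.inl ⟨f', mem_core.mpr (Or.inr hf'), rfl⟩

/-- a set of base faces over the cylinder -/
theorem baseN_chart (hE : E.In L) {F : Finset (ZMod N × ℤ)} (hF : ∀ f ∈ F, ∀ g ∈ E.H, pN N g ≠ f) :
    QChart (CQ N) (E.QN N) F (Prod.mk E.s0) (Prod.mk E.s0) 0 where
  inj f _ g _ k l h := (Prod.mk.inj h).2
  cor f hf k := by
    rw [add_zero, QN_c, σN_base hE (hF f hf) k]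

theorem flat_H (hE : E.In L) {M : ℤ} : ∀ f ∈ cylF N (-M) M \ bxC N L, ∀ g ∈ E.H, pN N g ≠ f := by
  intro f hf g hg e
  refine (Finset.mem_sdiff.mp hf).2 ?_
  rw [← e]
  exact Finset.mem_image_of_mem _ (RF0_mono (by omega) (hE.H g hg))

/-- **The covering chart.** -/
theorem chi_chart (hE : E.In L) {L' : ℤ} (hL : L ≤ L') (hN' : 2 * L' < N)
    {F : Finset (S × (ℤ × ℤ))} (hF : ∀ f ∈ F, f.2 ∈ RFb (0, 0) L') :
    QChart E.Q (E.QN N) F (chi S N) (chi S N) 0 where
  inj f hf g hg k l h := by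
    have h1 := Prod.mk.inj h
    have h2 : ZQ.c f.2 k = ZQ.c g.2 l :=
      pN_inj hN' (cor0_le (hF f hf) k).1 (cor0_le (hF g hg) l).1 h1.2
    exact Prod.ext h1.1 h2
  cor f hf k := by
    rw [add_zero, QN_c, Q_c]
    have h1 := mem_RF0.mp (hF f hf)
    have h2 : (chi S N f).2 = pN N f.2 := rfl
    rw [h2, σN_eq hE hL hN' (by rw [abs_le]; omega) k, corC_chi]
    rfl

/-- the neighbour across the side `k` -/
def nbC (g : ZMod N × ℤ) (k : ZMod 4) : ZMod N × ℤ :=
  if k = 0 then (g.1, g.2 - 1) else if k = 1 then (g.1 + 1, g.2) else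
    if k = 2 then (g.1, g.2 + 1) else (g.1 - 1, g.2)

theorem nbC_c (g : ZMod N × ℤ) (k : ZMod 4) :
    (CQ N).c (nbC g k) (k + 2) = (CQ N).c g (k + 1) ∧
      (CQ N).c (nbC g k) (k + 2 + 1) = (CQ N).c g k := by
  have e1 : (1 : ZMod 4) ≠ 0 := by decide
  have e2 : (2 : ZMod 4) ≠ 0 := by decide
  have e3 : (3 : ZMod 4) ≠ 0 := by decide
  have e4 : (2 : ZMod 4) ≠ 1 := by decide
  have e5 : (3 : ZMod 4) ≠ 1 := by decide
  have e6 : (3 : ZMod 4) ≠ 2 := by decide
  rcases k4_cases k with rfl | rfl | rfl | rfl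
  · have a1 : (0 : ZMod 4) + 2 = 2 := rfl
    have a2 : (0 : ZMod 4) + 1 = 1 := rfl
    have a3 : (2 : ZMod 4) + 1 = 3 := rfl
    rw [a1, a2, a3]
    unfold nbC
    rw [if_pos rfl]
    change corC N _ 2 = corC N _ 1 ∧ corC N _ 3 = corC N _ 0
    rw [corC_2, corC_1, corC_3, corC_0]
    exact ⟨Prod.ext rfl (by simp), Prod.ext rfl (by show g.2 - 1 + 1 = g.2; ring)⟩
  · have a1 : (1 : ZMod 4) + 2 = 3 := rfl
    have a2 : (1 : ZMod 4) + 1 = 2 := rfl
    have a3 : (3 : ZMod 4) + 1 = 0 := rfl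
    rw [a1, a2, a3]
    unfold nbC
    rw [if_neg e1, if_pos rfl]
    change corC N _ 3 = corC N _ 2 ∧ corC N _ 0 = corC N _ 1
    rw [corC_2, corC_1, corC_3, corC_0]
    exact ⟨rfl, rfl⟩
  · have a1 : (2 : ZMod 4) + 2 = 0 := rfl
    have a2 : (2 : ZMod 4) + 1 = 3 := rfl
    have a3 : (0 : ZMod 4) + 1 = 1 := rfl
    rw [a1, a2, a3]
    unfold nbC
    rw [if_neg e2, if_neg e4, if_pos rfl]
    change corC N _ 0 = corC N _ 3 ∧ corC N _ 1 = corC N _ 2
    rw [corC_2, corC_1, corC_3, corC_0]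
    exact ⟨rfl, rfl⟩
  · have a1 : (3 : ZMod 4) + 2 = 1 := rfl
    have a2 : (3 : ZMod 4) + 1 = 0 := rfl
    have a3 : (1 : ZMod 4) + 1 = 2 := rfl
    rw [a1, a2, a3]
    unfold nbC
    rw [if_neg e3, if_neg e5, if_neg e6]
    change corC N _ 1 = corC N _ 0 ∧ corC N _ 2 = corC N _ 3
    rw [corC_2, corC_1, corC_3, corC_0]
    exact ⟨Prod.ext (by show g.1 - 1 + 1 = g.1; ring) rfl, Prod.ext (by simp) rfl⟩

/-- a neighbour of a face of a smaller box is in the box -/
theorem nbC_box {g : ZMod N × ℤ} {k : ZMod 4} (h : nbC g k ∈ bxC N (L - 1)) : g ∈ bxC N L := by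
  obtain ⟨u, h1, h2, h3, h4, h5⟩ := mem_bxC.mp h
  have e1 : (1 : ZMod 4) ≠ 0 := by decide
  have e2 : (2 : ZMod 4) ≠ 0 := by decide
  have e3 : (3 : ZMod 4) ≠ 0 := by decide
  have e4 : (2 : ZMod 4) ≠ 1 := by decide
  have e5 : (3 : ZMod 4) ≠ 1 := by decide
  have e6 : (3 : ZMod 4) ≠ 2 := by decide
  rw [mem_bxC]
  rcases k4_cases k with rfl | rfl | rfl | rfl
  · unfold nbC at h5
    rw [if_pos rfl] at h5
    have h6 := Prod.mk.inj h5
    refine ⟨(u.1, u.2 + 1), by omega, by simp only; omega, by simp only; omega,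
      by simp only; omega, Prod.ext h6.1 ?_⟩
    show g.2 = u.2 + 1
    omega
  · unfold nbC at h5
    rw [if_neg e1, if_pos rfl] at h5
    have h6 := Prod.mk.inj h5
    refine ⟨(u.1 - 1, u.2), by simp only; omega, by simp only; omega, by omega, by omega,
      Prod.ext ?_ h6.2⟩
    show g.1 = ((u.1 - 1 : ℤ) : ZMod N)
    push_cast
    rw [← h6.1]
    ring
  · unfold nbC at h5
    rw [if_neg e2, if_neg e4, if_pos rfl] at h5
    have h6 := Prod.mk.inj h5
    refine ⟨(u.1, u.2 - 1), by omega, by simp only; omega, by simp only; omega,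
      by simp only; omega, Prod.ext h6.1 ?_⟩
    show g.2 = u.2 - 1
    omega
  · unfold nbC at h5
    rw [if_neg e3, if_neg e5, if_neg e6] at h5
    have h6 := Prod.mk.inj h5
    refine ⟨(u.1 + 1, u.2), by simp only; omega, by simp only; omega, by omega, by omega,
      Prod.ext ?_ h6.2⟩
    show g.1 = ((u.1 + 1 : ℤ) : ZMod N)
    push_cast
    rw [← h6.1]
    ring

/-- the first ring of flat faces in the plane -/
def ring (E : Surf S) (L : ℤ) : Finset (S × (ℤ × ℤ)) :=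
  (RFb (0, 0) (L + 1) \ RFb (0, 0) L).image (Prod.mk E.s0)

/-- **The cylinder surface.** -/
theorem glueC (hE : E.In L) {M : ℤ} (hM : L + 1 ≤ M) (hN' : 2 * (L + 1) < N)
    {P : Finset ((S × (ℤ × ℤ)) × (S × (ℤ × ℤ)))} (hP : P ⊆ dE E.Q (E.core L))
    (hP' : ∀ a ∈ bS E.Q (E.core L ∪ E.ring L), a ∈ dE E.Q (E.core L) → a ∈ P ∨ a.swap ∈ P) :
    GlueC N M L (E.QN N) (E.coreN N L) (Prod.mk E.s0) (Prod.mk E.s0)
      (P.image (Prod.map (chi S N) (chi S N))) where
  chart := baseN_chart hE (flat_H hE)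
  dj g hg h := by
    obtain ⟨f, hf, e⟩ := Finset.mem_image.mp h
    have e1 := Prod.mk.inj e
    rcases mem_core.mp hf with ⟨-, h1, -⟩ | h1
    · refine (Finset.mem_sdiff.mp hg).2 ?_
      rw [← e1.2]
      exact Finset.mem_image_of_mem _ h1
    · exact hE.K0 _ h1 e1.1
  nb f hf k g hg l h := by
    obtain ⟨f', hf', rfl⟩ := Finset.mem_image.mp hf
    have h1 : (CQ N).c (pN N f'.2) k = (CQ N).c g l := (Prod.mk.inj h).2
    rw [← h1, corC_chi]
    exact ⟨_, (cor0_le (core_box hE hf') k).1, (cor0_le (core_box hE hf') k).2, rfl⟩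
  P_sub := by
    have h1 := chi_chart (N := N) (L' := L) hE le_rfl (by omega) (fun f hf => core_box hE hf)
    unfold coreN
    rw [h1.dE_map (Finset.Subset.refl _)]
    exact Finset.image_subset_image hP
  bnd a ha := by
    obtain ⟨f, hf, k, rfl⟩ := bS_sd ha
    have hini := (mem_bS.mp ha).2
    rcases Finset.mem_union.mp hf with h1 | h1
    · -- a side of the core
      right; right
      have hX : ∀ f ∈ E.core L ∪ E.ring L, f.2 ∈ RFb (0, 0) (L + 1) := by
        intro f hf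
        rcases Finset.mem_union.mp hf with h2 | h2
        · exact RF0_mono (by omega) (core_box hE h2)
        · obtain ⟨g, hg, rfl⟩ := Finset.mem_image.mp h2
          exact (Finset.mem_sdiff.mp hg).1
      have h2 := chi_chart (N := N) (L' := L + 1) hE (by omega) hN' hX
      obtain ⟨f', hf', rfl⟩ := Finset.mem_image.mp h1
      have hf'' : f' ∈ E.core L ∪ E.ring L := Finset.mem_union_left _ hf'
      have e1 : sd (E.QN N) (chi S N f') k = Prod.map (chi S N) (chi S N) (sd E.Q f' k) := by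
        have := (h2.toMap (fun _ => false)).sd_eq hf'' k
        rw [add_zero] at this
        exact this
      have h3 : sd E.Q f' k ∈ bS E.Q (E.core L ∪ E.ring L) := by
        refine mem_bS.mpr ⟨sd_mem hf'' k, ?_⟩
        intro g hg l h4
        have hg' : g ∈ E.core L ∪ E.ring L := by exact_mod_cast hg
        have h5 : chi S N g ∈ (E.coreN N L ∪ (cylF N (-M) M \ bxC N L).image (Prod.mk E.s0)) := by
          rcases Finset.mem_union.mp hg' with h6 | h6
          · exact Finset.mem_union_left _ (Finset.mem_image_of_mem _ h6)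
          · obtain ⟨u, hu, rfl⟩ := Finset.mem_image.mp h6
            obtain ⟨h7, h8⟩ := Finset.mem_sdiff.mp hu
            refine Finset.mem_union_right _ (Finset.mem_image.mpr ⟨pN N u, ?_, rfl⟩)
            refine Finset.mem_sdiff.mpr ⟨?_, not_bxC (by omega) hN' h7 h8⟩
            have h9 := mem_RF0.mp h7
            rw [mem_cylF]
            show -M ≤ u.2 ∧ u.2 < M
            omega
        refine hini (chi S N g) (by exact_mod_cast h5) l ?_
        rw [e1, h4]
        have c0 := h2.cor g hg' l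
        have c1 := h2.cor g hg' (l + 1)
        rw [add_zero] at c0 c1
        exact Prod.ext c1.symm c0.symm
      rw [e1]
      rcases hP' _ h3 (sd_mem hf' k) with h4 | h4
      · exact Or.inl (Finset.mem_image_of_mem _ h4)
      · exact Or.inr (Finset.mem_image_of_mem _ h4)
    · -- a side of the flat part
      obtain ⟨g, hg, rfl⟩ := Finset.mem_image.mp h1
      obtain ⟨h2, h3⟩ := Finset.mem_sdiff.mp hg
      have h2' := mem_cylF.mp h2
      have e1 : sd (E.QN N) (E.s0, g) k = Prod.map (Prod.mk E.s0) (Prod.mk E.s0) (sd (CQ N) g k) := by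
        have hc := baseN_chart (N := N) hE (flat_H (M := M) hE)
        have := (hc.toMap (fun _ => false)).sd_eq hg k
        rw [add_zero] at this
        exact this
      by_cases h4 : nbC g k ∈ cylF N (-M) M
      · exfalso
        have h5 : ∀ u ∈ E.H, pN N u ≠ nbC g k := by
          intro u hu e
          apply h3
          apply nbC_box (k := k)
          rw [← e]
          exact Finset.mem_image_of_mem _ (hE.H u hu)
        have h6 : (E.s0, nbC g k) ∈ E.FN N M := mem_FN.mpr (Or.inl ⟨rfl, h4, h5⟩)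
        rw [← FN_eq hE (by omega) (by omega)] at h6
        refine hini _ (by exact_mod_cast h6) (k + 2) ?_
        have hb := σN_base (N := N) hE h5
        rw [e1, QN_c, QN_c, hb, hb, (nbC_c g k).1, (nbC_c g k).2]
        rfl
      · rw [e1]
        rw [mem_cylF] at h4
        have hk : (k = 0 ∧ g.2 = -M) ∨ (k = 2 ∧ g.2 = M - 1) := by
          have d1 : (1 : ZMod 4) ≠ 0 := by decide
          have d2 : (2 : ZMod 4) ≠ 0 := by decide
          have d3 : (3 : ZMod 4) ≠ 0 := by decide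
          have d4 : (2 : ZMod 4) ≠ 1 := by decide
          have d5 : (3 : ZMod 4) ≠ 1 := by decide
          have d6 : (3 : ZMod 4) ≠ 2 := by decide
          rcases k4_cases k with rfl | rfl | rfl | rfl
          · left
            unfold nbC at h4
            rw [if_pos rfl] at h4
            refine ⟨rfl, ?_⟩
            simp only at h4
            omega
          · exfalso
            unfold nbC at h4
            rw [if_neg d1, if_pos rfl] at h4
            exact h4 h2'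
          · right
            unfold nbC at h4
            rw [if_neg d2, if_neg d4, if_pos rfl] at h4
            refine ⟨rfl, ?_⟩
            simp only at h4
            omega
          · exfalso
            unfold nbC at h4
            rw [if_neg d3, if_neg d5, if_neg d6] at h4
            exact h4 h2'
        rcases hk with ⟨rfl, h5⟩ | ⟨rfl, h5⟩
        · left
          refine Finset.mem_image_of_mem _ (mem_botE.mpr ⟨g.1, ?_⟩)
          show sd (CQ N) (g.1, -M) 0 = sd (CQ N) g 0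
          rw [← h5]
        · right; left
          refine Finset.mem_image_of_mem _ (mem_topE.mpr ⟨g.1, ?_⟩)
          have h6 := csd_swap_2 (N := N) g.1 g.2
          have h7 : M = g.2 + 1 := by omega
          rw [h7]
          show (sd (CQ N) (g.1, g.2 + 1) 0).swap = sd (CQ N) g 2
          rw [← h6, Prod.swap_swap]

/-! ## The covering -/

/-- push forward of weights -/
def pushW {V V' : Type} (χ : V → V') (P : Finset (V × V)) (h : V × V → ℂ) (a : V' × V') : ℂ := by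
  classical
  exact if hx : ∃ b : V × V, (b ∈ P ∨ b.swap ∈ P) ∧ Prod.map χ χ b = a then h hx.choose else 1

section push

variable {V V' : Type} [DecidableEq V] [DecidableEq V'] {χ : V → V'} {P D : Finset (V × V)}
  {h : V × V → ℂ}

theorem pushW_mem (hD : ∀ a ∈ D, ∀ b ∈ D, Prod.map χ χ a = Prod.map χ χ b → a = b)
    (hP : ∀ a, a ∈ P ∨ a.swap ∈ P → a ∈ D) {a : V × V} (ha : a ∈ P ∨ a.swap ∈ P) :
    pushW χ P h (Prod.map χ χ a) = h a := by
  classical
  unfold pushW
  have hx : ∃ b : V × V, (b ∈ P ∨ b.swap ∈ P) ∧ Prod.map χ χ b = Prod.map χ χ a := ⟨a, ha, rfl⟩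
  rw [dif_pos hx]
  obtain ⟨h1, h2⟩ := hx.choose_spec
  rw [hD _ (hP _ h1) _ (hP _ ha) h2]

theorem pushW_eq (hD : ∀ a ∈ D, ∀ b ∈ D, Prod.map χ χ a = Prod.map χ χ b → a = b)
    (hP : ∀ a, a ∈ P ∨ a.swap ∈ P → a ∈ D) (hh : ∀ a, a ∉ P → a.swap ∉ P → h a = 1)
    {a : V × V} (ha : a ∈ D) : pushW χ P h (Prod.map χ χ a) = h a := by
  classical
  by_cases h1 : a ∈ P ∨ a.swap ∈ P
  · exact pushW_mem hD hP h1
  · unfold pushW
    rw [dif_neg]
    · exact (hh a (fun h2 => h1 (Or.inl h2)) fun h2 => h1 (Or.inr h2)).symm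
    · rintro ⟨b, h2, h3⟩
      rw [hD _ (hP _ h2) _ ha h3] at h2
      exact h1 h2

theorem pushW_one {a : V' × V'} (h1 : a ∉ P.image (Prod.map χ χ))
    (h2 : a.swap ∉ P.image (Prod.map χ χ)) : pushW χ P h a = 1 := by
  classical
  unfold pushW
  rw [dif_neg]
  rintro ⟨b, h3 | h3, rfl⟩
  · exact h1 (Finset.mem_image_of_mem _ h3)
  · exact h2 (Finset.mem_image.mpr ⟨_, h3, rfl⟩)

theorem CP_pushW (hD : ∀ a ∈ D, ∀ b ∈ D, Prod.map χ χ a = Prod.map χ χ b → a = b)
    (hP : ∀ a, a ∈ P ∨ a.swap ∈ P → a ∈ D) :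
    Rel.CP (pushW χ P h) (P.image (Prod.map χ χ)) = Rel.CP h P := by
  have hi : Set.InjOn (Prod.map χ χ) (P ∪ rv P : Finset (V × V)) := by
    intro a ha b hb e
    have h1 : ∀ c : V × V, c ∈ (P ∪ rv P : Finset (V × V)) → c ∈ P ∨ c.swap ∈ P := by
      intro c hc
      rcases Finset.mem_union.mp hc with h2 | h2
      · exact Or.inl h2
      · exact Or.inr (mem_rv.mp h2)
    exact hD a (hP a (h1 a (by exact_mod_cast ha))) b (hP b (h1 b (by exact_mod_cast hb))) e
  have e1 : P.image (Prod.map χ χ) ∪ rv (P.image (Prod.map χ χ)) =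
      (P ∪ rv P).image (Prod.map χ χ) := by
    rw [Finset.image_union]
    congr 1
    ext a
    rw [mem_rv, Finset.mem_image, Finset.mem_image]
    constructor
    · rintro ⟨b, hb, e⟩
      refine ⟨b.swap, mem_rv.mpr (by rwa [Prod.swap_swap]), ?_⟩
      have e2 : Prod.map χ χ b.swap = (Prod.map χ χ b).swap := rfl
      rw [e2, e, Prod.swap_swap]
    · rintro ⟨b, hb, rfl⟩
      exact ⟨b.swap, mem_rv.mp hb, rfl⟩
  unfold Rel.CP
  rw [e1, Finset.prod_image hi, Finset.card_image_of_injOn (hi.mono (by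
    intro a ha
    have : a ∈ P := by exact_mod_cast ha
    exact_mod_cast Finset.mem_union_left _ this))]
  congr 1
  refine Finset.prod_congr rfl fun a ha => ?_
  rw [pushW_mem hD hP]
  rcases Finset.mem_union.mp ha with h2 | h2
  · exact Or.inl h2
  · exact Or.inr (mem_rv.mp h2)

end push

/-- the faces of the window of the plane -/
theorem win_box (hE : E.In L) {n : ℕ} : ∀ f ∈ E.core L ∪ (aZ L n).image (Prod.mk E.s0),
    f.2 ∈ RFb (0, 0) (4 ^ n * L) := by
  intro f hf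
  have h1 : (1 : ℤ) ≤ 4 ^ n := one_le_pow₀ (by norm_num)
  have h2 : L ≤ 4 ^ n * L := by nlinarith [hE.pos]
  rcases Finset.mem_union.mp hf with h | h
  · exact RF0_mono h2 (core_box hE h)
  · obtain ⟨g, hg, rfl⟩ := Finset.mem_image.mp h
    exact (Rel.mem_aZ.mp hg).1

/-- **The covering of the cylinder surface.** -/
theorem cov (hE : E.In L) {n : ℕ} (hN' : 2 * (4 ^ n * L) < N)
    {P : Finset ((S × (ℤ × ℤ)) × (S × (ℤ × ℤ)))} (hP : P ⊆ dE E.Q (E.core L))
    {h : (S × (ℤ × ℤ)) × (S × (ℤ × ℤ)) → ℂ} (hh : ∀ a, a ∉ P → a.swap ∉ P → h a = 1) :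
    Cov n L N E.Q (E.core L) (Prod.mk E.s0) h P (E.QN N) (E.coreN N L) (Prod.mk E.s0)
      (pushW (chi S N) P h) (P.image (Prod.map (chi S N) (chi S N))) (chi S N) (chi S N) 0 where
  chart := by
    have h1 : (1 : ℤ) ≤ 4 ^ n := one_le_pow₀ (by norm_num)
    have h2 : L ≤ 4 ^ n * L := by nlinarith [hE.pos]
    exact chi_chart hE h2 hN' (win_box hE)
  core := rfl
  ann := by
    rw [Finset.image_image]
    rfl
  eP := rfl
  eh := by
    have h1 : (1 : ℤ) ≤ 4 ^ n := one_le_pow₀ (by norm_num)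
    have h2 : L ≤ 4 ^ n * L := by nlinarith [hE.pos]
    have hc := chi_chart (N := N) hE h2 hN' (win_box (n := n) hE)
    intro a ha
    refine pushW_eq (D := dE E.Q (E.core L ∪ (aZ L n).image (Prod.mk E.s0)))
      (fun a ha b hb e => hc.inj_dE ha hb e) ?_ hh ha
    intro a ha
    apply dE_mono Finset.subset_union_left
    rcases ha with ha | ha
    · exact hP ha
    · exact swap_mem_dE.mp (hP ha)

theorem CP_cov (hE : E.In L) (hN' : 2 * L < N)
    {P : Finset ((S × (ℤ × ℤ)) × (S × (ℤ × ℤ)))} (hP : P ⊆ dE E.Q (E.core L))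
    {h : (S × (ℤ × ℤ)) × (S × (ℤ × ℤ)) → ℂ} :
    Rel.CP (pushW (chi S N) P h) (P.image (Prod.map (chi S N) (chi S N))) = Rel.CP h P := by
  have hc := chi_chart (N := N) hE le_rfl hN' (fun f hf => core_box hE hf)
  refine CP_pushW (D := dE E.Q (E.core L)) (fun a ha b hb e => hc.inj_dE ha hb e) ?_
  intro a ha
  rcases ha with ha | ha
  · exact hP ha
  · exact swap_mem_dE.mp (hP ha)

end Cyl

end Surf

end

end Pool.Agent.SixB
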