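import Pool.Agent.Lib.SixB.S3CylDef

/-!
# 6BD step 3: `CylIn` from the pieces

* `CyT.cylIn_of`: `CylIn` from `SlabCyl` (one slab) and `InsIn` (the insertions).
-/

set_option autoImplicit false
set_option linter.unusedSectionVars false

namespace Pool.Agent.SixB.CyT

open Filter Topology Metric Complex
open Pool.Agent.Perc Pool.Agent.Perc.Q
open Pool.Agent.SixB.Asm3 Pool.Agent.SixB.Sand

noncomputable section

theorem cylData_mono {N : ℕ} {B C tol L₀ : ℝ} {P P' : ℕ → ℕ → Prop} {zU zD : ℝ} {zJ : ℕ → ℕ → ℂ}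
    (hP : ∀ x y, P x y → P' x y) (h : Nonempty (CylData N B C tol L₀ P' zU zD zJ)) :
    Nonempty (CylData N B C tol L₀ P zU zD zJ) := by
  obtain ⟨E⟩ := h
  exact ⟨{ E with elt := fun x y h => E.elt x y (hP x y h) }⟩

/-- the numbers of the slab -/
theorem numbers {κ X₁ X₂ zr z0r r : ℝ} {n : ℕ} (hr : 0 < r) (hr' : r < κ / 10 ^ 5)
    (h1 : X₁ + κ < z0r) (h2 : z0r < X₂ - κ) (h3 : |zr - z0r| < κ / 4) (hn : 10 ≤ κ * n)
    (hrn : 4 ≤ r * n) :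
    (2 : ℕ) ≤ ⌈100 * r * n⌉₊ ∧ 0 < ⌈32 * r * n⌉.toNat ∧ ⌈32 * r * n⌉.toNat < ⌈100 * r * n⌉₊ / 2 ∧
      ((⌈32 * r * n⌉.toNat : ℤ) = ⌈32 * r * n⌉) ∧
      15 * r * n ≤ ((⌈100 * r * n⌉₊ / 2 - ⌈32 * r * n⌉.toNat : ℕ) : ℝ) ∧
      (n : ℝ) * X₁ ≤ ((⌊(n : ℝ) * zr⌋ - ⌈32 * r * n⌉ : ℤ) : ℝ) ∧
      ((⌊(n : ℝ) * zr⌋ + ⌈32 * r * n⌉ : ℤ) : ℝ) ≤ n * X₂ := by
  have hn0 : (0 : ℝ) ≤ n := Nat.cast_nonneg n
  have a1 := Nat.le_ceil (100 * r * n)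
  have a2 := Nat.ceil_lt_add_one (show 0 ≤ 100 * r * n by positivity)
  have b1 := Int.le_ceil (32 * r * n)
  have b2 := Int.ceil_lt_add_one (32 * r * (n : ℝ))
  have c1 := Int.floor_le ((n : ℝ) * zr)
  have c2 := Int.lt_floor_add_one ((n : ℝ) * zr)
  have hb0 : (0 : ℤ) < ⌈32 * r * n⌉ := by
    have : (0 : ℝ) < ((⌈32 * r * n⌉ : ℤ) : ℝ) := by nlinarith
    exact_mod_cast this
  have e1 : (⌈32 * r * n⌉.toNat : ℤ) = ⌈32 * r * n⌉ := Int.toNat_of_nonneg hb0.le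
  have e2 : ((⌈32 * r * n⌉.toNat : ℕ) : ℝ) = ((⌈32 * r * n⌉ : ℤ) : ℝ) := by
    exact_mod_cast congrArg (fun t : ℤ => (t : ℝ)) e1
  set A := ⌈100 * r * n⌉₊ with hA
  set ρ := ⌈32 * r * n⌉.toNat with hρ
  have h5 : (2 * ρ + 30 : ℝ) ≤ A := by rw [e2]; nlinarith
  have h5' : 2 * ρ + 30 ≤ A := by exact_mod_cast h5
  have h6 : ((A / 2 - ρ : ℕ) : ℝ) = ((A / 2 : ℕ) : ℝ) - ρ := by
    rw [Nat.cast_sub (by omega)]
  have h7 : (A : ℝ) ≤ 2 * ((A / 2 : ℕ) : ℝ) + 1 := by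
    have : A ≤ 2 * (A / 2) + 1 := by omega
    exact_mod_cast this
  have hx := abs_lt.mp h3
  refine ⟨by omega, by omega, by omega, e1, ?_, ?_, ?_⟩
  · rw [h6, e2]
    nlinarith
  · push_cast
    have g1 : (n : ℝ) * (X₁ + κ - κ / 4) ≤ n * zr := mul_le_mul_of_nonneg_left (by linarith) hn0
    have g2 : r * n ≤ κ / 10 ^ 5 * n := mul_le_mul_of_nonneg_right hr'.le hn0
    nlinarith
  · push_cast
    have g1 : (n : ℝ) * zr ≤ n * (X₂ - κ + κ / 4) := mul_le_mul_of_nonneg_left (by linarith) hn0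
    have g2 : r * n ≤ κ / 10 ^ 5 * n := mul_le_mul_of_nonneg_right hr'.le hn0
    nlinarith

/-- **`CylIn` from the pieces.** -/
theorem cylIn_of (h1 : SlabCyl) (h2 : InsIn) : CylIn := by
  intro P L g hP hg ι l n hn j hj z0 hz0 D
  have hκ := D.hκ
  refine ⟨D.κ / 10 ^ 5, by positivity, fun z hz r hr hr' => ?_⟩
  obtain ⟨B, hB, k1⟩ := h2 P L g l n hn j z0 D z r hr
  refine ⟨B, 2, hB, ?_⟩
  have hnR : Tendsto (fun i => (n i : ℝ)) l atTop := tendsto_natCast_atTop_atTop.comp hn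
  filter_upwards [k1, D.slb_ok hn hz hr hr', D.inside hn z hr, D.ph,
    hnR.eventually_ge_atTop (10 / D.κ), hnR.eventually_ge_atTop (4 / r)] with i i1 i2 i3 i4 i5 i6
  have e5 : 10 ≤ D.κ * n i := by
    have := (div_le_iff₀ hκ).mp i5
    linarith
  have e6 : 4 ≤ r * n i := by
    have := (div_le_iff₀ hr).mp i6
    linarith
  have hre : |z.re - z0.re| < D.κ / 4 := by
    have h3 := mem_ball.mp hz
    rw [dist_eq] at h3
    have h4 := abs_re_le_norm (z - z0)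
    rw [sub_re] at h4
    linarith
  obtain ⟨q1, q2, q3, q4, q5, q6, q7⟩ := numbers hr hr' D.hX₁ D.hX₂ hre e5 e6
  have q4' : (((D.rR r i).toNat : ℕ) : ℤ) = D.rR r i := q4
  intro tol htol
  have hyc : (D.slb z r i).yc = ⌊(n i : ℝ) * z.im⌋ := rfl
  have hsl : InSl (D.slb z r i) (RF (⌊(n i : ℝ) * z.re⌋ - D.rR r i) (⌊(n i : ℝ) * z.re⌋ + D.rR r i)
      ((D.slb z r i).yc - ((D.rR r i).toNat : ℕ)) ((D.slb z r i).yc + ((D.rR r i).toNat : ℕ))) := by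
    intro f hf
    rw [Ins.mem_RF] at hf
    have g1 : (n i : ℤ) * D.X₁ ≤ ⌊(n i : ℝ) * z.re⌋ - D.rR r i := by exact_mod_cast q6
    have g2 : ⌊(n i : ℝ) * z.re⌋ + D.rR r i ≤ (n i : ℤ) * D.X₂ := by exact_mod_cast q7
    have g3 : (D.rR r i).toNat < (D.slb z r i).a / 2 := q3
    have s1 : (D.slb z r i).x1 = n i * D.X₁ := rfl
    have s2 : (D.slb z r i).x2 = n i * D.X₂ := rfl
    refine ⟨by omega, by omega, by omega, by omega⟩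
  have hin : Op.Inside (⌊(n i : ℝ) * z.re⌋ - D.rR r i) (⌊(n i : ℝ) * z.re⌋ + D.rR r i)
      ((D.slb z r i).yc - ((D.rR r i).toNat : ℕ)) ((D.slb z r i).yc + ((D.rR r i).toNat : ℕ))
      (D.ins z r i) := by
    rw [q4', hyc]
    exact i3
  have hic : ∃ N₀ : ℕ, ∀ (m : ℕ) [Fact (3 ≤ m + 1)], Odd (m + 1) → N₀ ≤ m + 1 →
      ∃ c, InsC m B (⌊(n i : ℝ) * z.re⌋ - D.rR r i) (⌊(n i : ℝ) * z.re⌋ + D.rR r i)
        ((D.slb z r i).yc - ((D.rR r i).toNat : ℕ)) ((D.slb z r i).yc + ((D.rR r i).toNat : ℕ))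
        (D.ins z r i) c := by
    rw [q4', hyc]
    exact i1
  obtain ⟨N, hN1, hN2⟩ := h1 (D.slb z r i) i2 q1 (gr (n i) g) (j i) (n i * L) i4
    (⌊(n i : ℝ) * z.re⌋ - D.rR r i) (⌊(n i : ℝ) * z.re⌋ + D.rR r i) (D.rR r i).toNat q2 q3 hsl
    (D.ins z r i) hin B hB hic ⌈(D.T + 1) * n i⌉₊ (15 * r * n i) q5 tol htol
  refine ⟨N, hN1, ?_⟩
  have hzJ : (fun x y : ℕ => Ins.zJ (⌊(n i : ℝ) * z.re⌋ - D.rR r i) (⌊(n i : ℝ) * z.re⌋ + D.rR r i)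
      ((D.slb z r i).yc - ((D.rR r i).toNat : ℕ)) ((D.slb z r i).yc + ((D.rR r i).toNat : ℕ))
      (D.ins z r i) (zS (D.slb z r i) (-2 * y) (-2 * x)
        (RF (⌊(n i : ℝ) * z.re⌋ - D.rR r i) (⌊(n i : ℝ) * z.re⌋ + D.rR r i)
          ((D.slb z r i).yc - ((D.rR r i).toNat : ℕ))
          ((D.slb z r i).yc + ((D.rR r i).toNat : ℕ))))) = D.zJ z r i := by
    rw [q4', hyc]
    rfl
  rw [hzJ] at hN2
  refine cylData_mono ?_ hN2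
  have hT := D.T_nonneg
  have hn0 : (0 : ℝ) ≤ n i := Nat.cast_nonneg _
  have hc := Nat.le_ceil ((D.T + 1) * n i)
  rintro x y (⟨rfl, rfl⟩ | ⟨-, s2, -, s4⟩)
  · exact ⟨Nat.zero_le _, Nat.zero_le _⟩
  · exact ⟨by exact_mod_cast s2.trans hc, by exact_mod_cast s4.trans hc⟩

end

end Pool.Agent.SixB.CyT
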