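import Pool.Agent.Lib.SixB.S3PlaneF

/-!
# 6BD: cylindrification of a plane surface

`cyQ`: the core of a plane surface (`GlueZ`) glued into the cylinder `CQ N`.
* `GlueZ.Ful`: all boundary sides of the plane surface are in `P`;
* `cy_glueC`: `cyQ` is a `GlueC` surface; `cy_cov`: it covers the plane surface; `cy_noLoop`.
-/

set_option autoImplicit false
set_option linter.unusedSectionVars false

namespace Pool.Agent.SixB.Rel

open Pool.Agent.Perc Pool.Agent.Perc.Q Relation Filter Topology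
open Pool.Agent.SixB hiding Zs_split dst_congr qt_congr dE_mono

noncomputable section

variable {V Φ : Type} [DecidableEq V] [DecidableEq Φ]
variable {Q : QC V Φ} {A : Finset Φ} {L : ℤ} {φ : ℤ × ℤ → V} {ψ : ℤ × ℤ → Φ}
  {P : Finset (V × V)} {N : ℕ} [hN : Fact (3 ≤ N)]

/-- the faces of the plane surface -/
def FZ (L : ℤ) (A : Finset Φ) (ψ : ℤ × ℤ → Φ) : Set Φ :=
  {f | f ∈ A ∨ ∃ g, g ∉ RFb (0, 0) L ∧ f = ψ g}

/-- all boundary sides of the plane surface are in `P` -/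
def Ful (L : ℤ) (Q : QC V Φ) (A : Finset Φ) (ψ : ℤ × ℤ → Φ) (P : Finset (V × V)) : Prop :=
  ∀ f ∈ FZ L A ψ, ∀ k, Ini Q (FZ L A ψ) (sd Q f k) → sd Q f k ∈ P ∨ (sd Q f k).swap ∈ P

/-- vertices of the cylindrification -/
abbrev CV (V Φ : Type) (N : ℕ) : Type :=
  V ⊕ ((ZMod N × ℤ) ⊕ ((Φ × ZMod 4) ⊕ ((ZMod N × ℤ) × ZMod 4)))

/-- faces of the cylindrification -/
abbrev CF (Φ : Type) (N : ℕ) : Type := Φ ⊕ (ZMod N × ℤ)

instance instDCV : DecidableEq (CV V Φ N) := inferInstance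

instance instDCF : DecidableEq (CF Φ N) := inferInstance

open Classical in
/-- the lift of a vertex of the box -/
def lft (N : ℕ) [Fact (3 ≤ N)] (L : ℤ) (v : ZMod N × ℤ) : ℤ × ℤ :=
  if h : v ∈ vb N L then h.choose else (0, 0)

theorem lft_spec {v : ZMod N × ℤ} (h : v ∈ vb N L) :
    |(lft N L v).1| ≤ L ∧ |(lft N L v).2| ≤ L ∧ v = pN N (lft N L v) := by
  unfold lft
  rw [dif_pos h]
  exact h.choose_spec

theorem lft_pN (hL : 2 * L < N) {u : ℤ × ℤ} (h1 : |u.1| ≤ L) (h2 : |u.2| ≤ L) :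
    lft N L (pN N u) = u := by
  have h3 := lft_spec (N := N) (L := L) (v := pN N u) ⟨u, h1, h2, rfl⟩
  exact (pN_inj hL h1 h3.1 h3.2.2).symm

open Classical in
/-- the vertices of the cylinder in the cylindrification -/
def glv (Φ : Type) (N : ℕ) [Fact (3 ≤ N)] (L : ℤ) (φ : ℤ × ℤ → V) (v : ZMod N × ℤ) : CV V Φ N :=
  if v ∈ vb N L then Sum.inl (φ (lft N L v)) else Sum.inr (Sum.inl v)

theorem glv_in {v : ZMod N × ℤ} (h : v ∈ vb N L) :
    glv Φ N L φ v = Sum.inl (φ (lft N L v)) := if_pos h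

theorem glv_out {v : ZMod N × ℤ} (h : v ∉ vb N L) : glv Φ N L φ v = Sum.inr (Sum.inl v) := if_neg h

theorem vb_iff {v : ZMod N × ℤ} {w : V} (h : glv Φ N L φ v = Sum.inl w) :
    v ∈ vb N L ∧ φ (lft N L v) = w := by
  by_cases h1 : v ∈ vb N L
  · rw [glv_in h1] at h
    exact ⟨h1, Sum.inl.inj h⟩
  · rw [glv_out h1] at h
    exact absurd h (by simp)

open Classical in
/-- corners of the cylindrification -/
def cyc (N : ℕ) [Fact (3 ≤ N)] (L : ℤ) (Q : QC V Φ) (A : Finset Φ) (φ : ℤ × ℤ → V)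
    (F : CF Φ N) (k : ZMod 4) : CV V Φ N :=
  match F with
  | Sum.inl f => if f ∈ A then Sum.inl (Q.c f k) else Sum.inr (Sum.inr (Sum.inl (f, k)))
  | Sum.inr g => if g ∈ bxC N L then Sum.inr (Sum.inr (Sum.inr (g, k)))
      else glv Φ N L φ ((CQ N).c g k)

theorem cyc_A {f : Φ} (hf : f ∈ A) (k : ZMod 4) :
    cyc N L Q A φ (Sum.inl f) k = Sum.inl (Q.c f k) := if_pos hf

theorem cyc_nA {f : Φ} (hf : f ∉ A) (k : ZMod 4) :
    cyc N L Q A φ (Sum.inl f) k = Sum.inr (Sum.inr (Sum.inl (f, k))) := if_neg hf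

theorem cyc_B {g : ZMod N × ℤ} (hg : g ∈ bxC N L) (k : ZMod 4) :
    cyc N L Q A φ (Sum.inr g) k = Sum.inr (Sum.inr (Sum.inr (g, k))) := if_pos hg

theorem cyc_C {g : ZMod N × ℤ} (hg : g ∉ bxC N L) (k : ZMod 4) :
    cyc N L Q A φ (Sum.inr g) k = glv Φ N L φ ((CQ N).c g k) := if_neg hg

/-- every face of the cylinder with a corner `pN u` has a lift with the corner `u` -/
theorem lift_face {g : ZMod N × ℤ} {k : ZMod 4} {u : ℤ × ℤ} (h : (CQ N).c g k = pN N u) :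
    ∃ g₀ : ℤ × ℤ, pN N g₀ = g ∧ ZQ.c g₀ k = u := by
  change corC N g k = pN N u at h
  rcases k4_cases k with rfl | rfl | rfl | rfl
  · rw [corC_0] at h
    exact ⟨u, h.symm, by change cor0 u 0 = u; rw [cor0_0]⟩
  · rw [corC_1] at h
    refine ⟨(u.1 - 1, u.2), ?_, ?_⟩
    · unfold pN at h ⊢
      obtain ⟨e1, e2⟩ := Prod.mk.inj h
      refine Prod.ext ?_ e2.symm
      simp only
      push_cast
      rw [← e1]
      ring
    · change cor0 (u.1 - 1, u.2) 1 = u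
      rw [cor0_1]
      ext <;> simp
  · rw [corC_2] at h
    refine ⟨(u.1 - 1, u.2 - 1), ?_, ?_⟩
    · unfold pN at h ⊢
      obtain ⟨e1, e2⟩ := Prod.mk.inj h
      refine Prod.ext ?_ ?_
      · simp only
        push_cast
        rw [← e1]
        ring
      · simp only
        omega
    · change cor0 (u.1 - 1, u.2 - 1) 2 = u
      rw [cor0_2]
      ext <;> simp
  · rw [corC_3] at h
    refine ⟨(u.1, u.2 - 1), ?_, ?_⟩
    · unfold pN at h ⊢
      obtain ⟨e1, e2⟩ := Prod.mk.inj h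
      refine Prod.ext e1.symm ?_
      simp only
      omega
    · change cor0 (u.1, u.2 - 1) 3 = u
      rw [cor0_3]
      ext <;> simp

theorem cor_near {f : ℤ × ℤ} {k l : ZMod 4} {L : ℤ} (h1 : |(ZQ.c f k).1| ≤ L)
    (h2 : |(ZQ.c f k).2| ≤ L) : |(ZQ.c f l).1| ≤ L + 1 ∧ |(ZQ.c f l).2| ≤ L + 1 := by
  have key : ∀ k : ZMod 4, (f.1 ≤ (ZQ.c f k).1 ∧ (ZQ.c f k).1 ≤ f.1 + 1) ∧
      (f.2 ≤ (ZQ.c f k).2 ∧ (ZQ.c f k).2 ≤ f.2 + 1) := by
    intro k
    rcases k4_cases k with rfl | rfl | rfl | rfl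
    · change (f.1 ≤ (cor0 f 0).1 ∧ (cor0 f 0).1 ≤ f.1 + 1) ∧ f.2 ≤ (cor0 f 0).2 ∧ (cor0 f 0).2 ≤ f.2 + 1
      rw [cor0_0]; omega
    · change (f.1 ≤ (cor0 f 1).1 ∧ (cor0 f 1).1 ≤ f.1 + 1) ∧ f.2 ≤ (cor0 f 1).2 ∧ (cor0 f 1).2 ≤ f.2 + 1
      rw [cor0_1]; simp only; omega
    · change (f.1 ≤ (cor0 f 2).1 ∧ (cor0 f 2).1 ≤ f.1 + 1) ∧ f.2 ≤ (cor0 f 2).2 ∧ (cor0 f 2).2 ≤ f.2 + 1
      rw [cor0_2]; simp only; omega
    · change (f.1 ≤ (cor0 f 3).1 ∧ (cor0 f 3).1 ≤ f.1 + 1) ∧ f.2 ≤ (cor0 f 3).2 ∧ (cor0 f 3).2 ≤ f.2 + 1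
      rw [cor0_3]; simp only; omega
  have hk := key k
  have hl := key l
  rw [abs_le] at h1 h2 ⊢
  rw [abs_le]
  omega

theorem pN_notMem {L M : ℤ} (hM : 2 * M < N) (hLM : L ≤ M) {g : ℤ × ℤ} (hg : g ∉ RFb (0, 0) L)
    (h1 : -M ≤ g.1) (h2 : g.1 ≤ M) : pN N g ∉ bxC N L := by
  intro h
  obtain ⟨u, a1, a2, a3, a4, e⟩ := mem_bxC.mp h
  have : g = u := pN_inj hM (by rw [abs_le]; omega) (by rw [abs_le]; omega) e
  apply hg
  rw [this, mem_RF0]
  exact ⟨a1, a2, a3, a4⟩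

theorem near_face {L : ℤ} {g : ℤ × ℤ} {k : ZMod 4} (h1 : |(ZQ.c g k).1| ≤ L)
    (h2 : |(ZQ.c g k).2| ≤ L) : (-(L + 1) ≤ g.1 ∧ g.1 ≤ L + 1) ∧ -(L + 1) ≤ g.2 ∧ g.2 ≤ L + 1 := by
  have h := cor_near (l := 0) h1 h2
  have e : ZQ.c g 0 = g := by change cor0 g 0 = g; rw [cor0_0]
  rw [e, abs_le, abs_le] at h
  omega

/-- a face outside the box with a corner on the box -/
theorem out_face {g : ZMod N × ℤ} (hg : g ∉ bxC N L) {k : ZMod 4}
    (h : (CQ N).c g k ∈ vb N L) : ∃ g₀ : ℤ × ℤ, g₀ ∉ RFb (0, 0) L ∧ pN N g₀ = g ∧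
      ZQ.c g₀ k = lft N L ((CQ N).c g k) := by
  obtain ⟨h1, h2, h3⟩ := lft_spec h
  obtain ⟨g₀, e1, e2⟩ := lift_face h3
  refine ⟨g₀, fun h4 => hg ?_, e1, e2⟩
  rw [← e1]
  exact Finset.mem_image_of_mem _ h4

/-- corners of the face `g₀` in the cylindrification -/
theorem glv_cor (hL : 2 * (L + 1) < N) {g₀ : ℤ × ℤ} {k l : ZMod 4} (h1 : |(ZQ.c g₀ k).1| ≤ L)
    (h2 : |(ZQ.c g₀ k).2| ≤ L) (h : (CQ N).c (pN N g₀) l ∈ vb N L) :
    lft N L ((CQ N).c (pN N g₀) l) = ZQ.c g₀ l := by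
  obtain ⟨h3, h4, h5⟩ := lft_spec h
  have e : (CQ N).c (pN N g₀) l = pN N (ZQ.c g₀ l) := corC_pN g₀ l
  have h6 := cor_near (l := l) h1 h2
  exact pN_inj hL (by omega) h6.1 (h5.symm.trans e)

theorem chart_inj (H : GlueZ L Q A φ ψ P) {g g' : ℤ × ℤ} (hg : g ∉ RFb (0, 0) L)
    (hg' : g' ∉ RFb (0, 0) L) {k l : ZMod 4} (h : φ (ZQ.c g k) = φ (ZQ.c g' l)) :
    ZQ.c g k = ZQ.c g' l := by
  obtain ⟨M, hM, hM'⟩ : ∃ M : ℤ, g ∈ RFb (0, 0) M ∧ g' ∈ RFb (0, 0) M := by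
    refine ⟨|g.1| + |g.2| + |g'.1| + |g'.2| + 1, ?_, ?_⟩ <;> rw [mem_RF0]
    · have a1 := neg_abs_le g.1; have a2 := le_abs_self g.1
      have a3 := neg_abs_le g.2; have a4 := le_abs_self g.2
      have a5 := abs_nonneg g'.1; have a6 := abs_nonneg g'.2
      have a7 := abs_nonneg g.1; have a8 := abs_nonneg g.2
      omega
    · have a1 := neg_abs_le g'.1; have a2 := le_abs_self g'.1
      have a3 := neg_abs_le g'.2; have a4 := le_abs_self g'.2
      have a5 := abs_nonneg g.1; have a6 := abs_nonneg g.2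
      have a7 := abs_nonneg g'.1; have a8 := abs_nonneg g'.2
      omega
  exact (H.chart M).inj g (Finset.mem_sdiff.mpr ⟨hM, hg⟩) g' (Finset.mem_sdiff.mpr ⟨hM', hg'⟩) k l h

theorem chart_cor (H : GlueZ L Q A φ ψ P) {g : ℤ × ℤ} (hg : g ∉ RFb (0, 0) L) (k : ZMod 4) :
    Q.c (ψ g) k = φ (ZQ.c g k) := by
  obtain ⟨M, hM⟩ : ∃ M : ℤ, g ∈ RFb (0, 0) M := by
    refine ⟨|g.1| + |g.2| + 1, ?_⟩
    rw [mem_RF0]
    have a1 := neg_abs_le g.1; have a2 := le_abs_self g.1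
    have a3 := neg_abs_le g.2; have a4 := le_abs_self g.2
    have a7 := abs_nonneg g.1; have a8 := abs_nonneg g.2
    omega
  have h := (H.chart M).cor g (Finset.mem_sdiff.mpr ⟨hM, hg⟩) k
  rwa [add_zero] at h

/-- vertices of outer faces are different in the cylindrification -/
theorem glv_inj (H : GlueZ L Q A φ ψ P) {g g' : ZMod N × ℤ}
    (hg : g ∉ bxC N L) (hg' : g' ∉ bxC N L) {k l : ZMod 4}
    (h : glv Φ N L φ ((CQ N).c g k) = glv Φ N L φ ((CQ N).c g' l)) :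
    (CQ N).c g k = (CQ N).c g' l := by
  by_cases h1 : (CQ N).c g k ∈ vb N L
  · rw [glv_in h1] at h
    obtain ⟨h2, h3⟩ := vb_iff h.symm
    obtain ⟨g₀, a1, a2, a3⟩ := out_face hg h1
    obtain ⟨g₁, b1, b2, b3⟩ := out_face hg' h2
    rw [← a3, ← b3] at h3
    have h4 := chart_inj H b1 a1 h3
    rw [a3, b3] at h4
    rw [(lft_spec h1).2.2, (lft_spec h2).2.2, h4]
  · rw [glv_out h1] at h
    by_cases h2 : (CQ N).c g' l ∈ vb N L
    · rw [glv_in h2] at h
      exact absurd h (by simp)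
    · rw [glv_out h2] at h
      exact Sum.inl.inj (Sum.inr.inj h)

/-- a core side is not an outer side with the same direction -/
theorem core_outer (H : GlueZ L Q A φ ψ P) (hL : 2 * (L + 1) < N) {f : Φ} (hf : f ∈ A)
    {g : ZMod N × ℤ} (hg : g ∉ bxC N L) {k l : ZMod 4}
    (h1 : glv Φ N L φ ((CQ N).c g l) = Sum.inl (Q.c f k))
    (h2 : glv Φ N L φ ((CQ N).c g (l + 1)) = Sum.inl (Q.c f (k + 1))) : False := by
  obtain ⟨a1, a2⟩ := vb_iff h1
  obtain ⟨b1, b2⟩ := vb_iff h2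
  obtain ⟨g₀, c1, c2, c3⟩ := out_face hg a1
  subst c2
  have e3 : |(ZQ.c g₀ l).1| ≤ L ∧ |(ZQ.c g₀ l).2| ≤ L := by
    rw [c3]
    exact ⟨(lft_spec a1).1, (lft_spec a1).2.1⟩
  have e4 := glv_cor hL e3.1 e3.2 b1
  rw [e4] at b2
  rw [← c3] at a2
  have e5 := chart_cor H c1 l
  have e6 := chart_cor H c1 (l + 1)
  rw [a2] at e5
  rw [b2] at e6
  have e7 := (Q.inj e5 e6).1
  exact H.dj _ c1 (by rw [e7]; exact hf)

/-- **The cylindrification.** -/
def cyQ (N : ℕ) [Fact (3 ≤ N)] (H : GlueZ L Q A φ ψ P) (hL : 2 * (L + 1) < N) :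
    QC (CV V Φ N) (CF Φ N) where
  c := cyc N L Q A φ
  inj := by
    intro F k F' k' h1 h2
    rcases F with f | g <;> rcases F' with f' | g'
    · by_cases hf : f ∈ A
      · rw [cyc_A hf] at h1 h2
        by_cases hf' : f' ∈ A
        · rw [cyc_A hf'] at h1 h2
          obtain ⟨e1, e2⟩ := Q.inj (Sum.inl.inj h1) (Sum.inl.inj h2)
          exact ⟨by rw [e1], e2⟩
        · rw [cyc_nA hf'] at h1
          exact absurd h1 (by simp)
      · rw [cyc_nA hf] at h1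
        by_cases hf' : f' ∈ A
        · rw [cyc_A hf'] at h1
          exact absurd h1 (by simp)
        · rw [cyc_nA hf'] at h1
          have e := Sum.inl.inj (Sum.inr.inj (Sum.inr.inj h1))
          obtain ⟨e1, e2⟩ := Prod.mk.inj e
          exact ⟨by rw [e1], e2⟩
    · exfalso
      by_cases hf : f ∈ A
      · rw [cyc_A hf] at h1 h2
        by_cases hg : g' ∈ bxC N L
        · rw [cyc_B hg] at h1
          exact absurd h1 (by simp)
        · rw [cyc_C hg] at h1 h2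
          exact core_outer H hL hf hg h1.symm h2.symm
      · rw [cyc_nA hf] at h1
        by_cases hg : g' ∈ bxC N L
        · rw [cyc_B hg] at h1
          exact absurd h1 (by simp)
        · rw [cyc_C hg] at h1
          by_cases h3 : (CQ N).c g' k' ∈ vb N L
          · rw [glv_in h3] at h1
            exact absurd h1 (by simp)
          · rw [glv_out h3] at h1
            exact absurd h1 (by simp)
    · exfalso
      by_cases hf : f' ∈ A
      · rw [cyc_A hf] at h1 h2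
        by_cases hg : g ∈ bxC N L
        · rw [cyc_B hg] at h1
          exact absurd h1 (by simp)
        · rw [cyc_C hg] at h1 h2
          exact core_outer H hL hf hg h1 h2
      · rw [cyc_nA hf] at h1
        by_cases hg : g ∈ bxC N L
        · rw [cyc_B hg] at h1
          exact absurd h1 (by simp)
        · rw [cyc_C hg] at h1
          by_cases h3 : (CQ N).c g k ∈ vb N L
          · rw [glv_in h3] at h1
            exact absurd h1 (by simp)
          · rw [glv_out h3] at h1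
            exact absurd h1 (by simp)
    · by_cases hg : g ∈ bxC N L
      · rw [cyc_B hg] at h1
        by_cases hg' : g' ∈ bxC N L
        · rw [cyc_B hg'] at h1
          have e := Sum.inr.inj (Sum.inr.inj (Sum.inr.inj h1))
          obtain ⟨e1, e2⟩ := Prod.mk.inj e
          exact ⟨by rw [e1], e2⟩
        · exfalso
          rw [cyc_C hg'] at h1
          by_cases h3 : (CQ N).c g' k' ∈ vb N L
          · rw [glv_in h3] at h1
            exact absurd h1 (by simp)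
          · rw [glv_out h3] at h1
            exact absurd h1 (by simp)
      · rw [cyc_C hg] at h1 h2
        by_cases hg' : g' ∈ bxC N L
        · exfalso
          rw [cyc_B hg'] at h1
          by_cases h3 : (CQ N).c g k ∈ vb N L
          · rw [glv_in h3] at h1
            exact absurd h1 (by simp)
          · rw [glv_out h3] at h1
            exact absurd h1 (by simp)
        · rw [cyc_C hg'] at h1 h2
          obtain ⟨e1, e2⟩ := (CQ N).inj (glv_inj H hg hg' h1) (glv_inj H hg hg' h2)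
          exact ⟨by rw [e1], e2⟩

theorem cy_noLoop (H : GlueZ L Q A φ ψ P) (hL : 2 * (L + 1) < N) (hQ : NoLoop Q) :
    NoLoop (cyQ N H hL) := by
  have h01 : ∀ k : ZMod 4, k ≠ k + 1 := by decide
  intro F k
  change cyc N L Q A φ F k ≠ cyc N L Q A φ F (k + 1)
  rcases F with f | g
  · by_cases hf : f ∈ A
    · rw [cyc_A hf, cyc_A hf]
      intro h
      exact hQ f k (Sum.inl.inj h)
    · rw [cyc_nA hf, cyc_nA hf]
      intro h
      exact h01 k (Prod.mk.inj (Sum.inl.inj (Sum.inr.inj (Sum.inr.inj h)))).2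
  · by_cases hg : g ∈ bxC N L
    · rw [cyc_B hg, cyc_B hg]
      intro h
      exact h01 k (Prod.mk.inj (Sum.inr.inj (Sum.inr.inj (Sum.inr.inj h)))).2
    · rw [cyc_C hg, cyc_C hg]
      intro h
      exact noLoop_CQ g k (glv_inj H hg hg h)

/-- the sides of `P` in the cylindrification -/
abbrev icl (V Φ : Type) (N : ℕ) (a : V × V) : CV V Φ N × CV V Φ N := (Sum.inl a.1, Sum.inl a.2)

theorem icl_inj {a b : V × V} (h : icl V Φ N a = icl V Φ N b) : a = b := by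
  obtain ⟨h1, h2⟩ := Prod.mk.inj h
  exact Prod.ext (Sum.inl.inj h1) (Sum.inl.inj h2)

theorem sd_cyA (H : GlueZ L Q A φ ψ P) (hL : 2 * (L + 1) < N) {f : Φ} (hf : f ∈ A) (k : ZMod 4) :
    sd (cyQ N H hL) (Sum.inl f) k = icl V Φ N (sd Q f k) := by
  show (cyc N L Q A φ (Sum.inl f) k, cyc N L Q A φ (Sum.inl f) (k + 1)) = _
  rw [cyc_A hf, cyc_A hf]
  rfl

theorem sd_cyC (H : GlueZ L Q A φ ψ P) (hL : 2 * (L + 1) < N) {g : ZMod N × ℤ}
    (hg : g ∉ bxC N L) (k : ZMod 4) :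
    sd (cyQ N H hL) (Sum.inr g) k = Prod.map (glv Φ N L φ) (glv Φ N L φ) (sd (CQ N) g k) := by
  show (cyc N L Q A φ (Sum.inr g) k, cyc N L Q A φ (Sum.inr g) (k + 1)) = _
  rw [cyc_C hg, cyc_C hg]
  rfl

/-- an outer face with two corners on the box: the side is the image of a plane side -/
theorem sd_near (H : GlueZ L Q A φ ψ P) (hL : 2 * (L + 1) < N) {g₀ : ℤ × ℤ}
    (hg : g₀ ∉ RFb (0, 0) L) {k : ZMod 4} (h1 : |(ZQ.c g₀ k).1| ≤ L ∧ |(ZQ.c g₀ k).2| ≤ L)
    (h2 : |(ZQ.c g₀ (k + 1)).1| ≤ L ∧ |(ZQ.c g₀ (k + 1)).2| ≤ L) :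
    pN N g₀ ∉ bxC N L ∧ sd (cyQ N H hL) (Sum.inr (pN N g₀)) k = icl V Φ N (sd Q (ψ g₀) k) := by
  have hn := near_face h1.1 h1.2
  have hg' : pN N g₀ ∉ bxC N L := pN_notMem hL (by omega) hg (by omega) (by omega)
  refine ⟨hg', ?_⟩
  rw [sd_cyC H hL hg']
  have e1 : (CQ N).c (pN N g₀) k = pN N (ZQ.c g₀ k) := corC_pN g₀ k
  have e2 : (CQ N).c (pN N g₀) (k + 1) = pN N (ZQ.c g₀ (k + 1)) := corC_pN g₀ (k + 1)
  have v1 : (CQ N).c (pN N g₀) k ∈ vb N L := ⟨_, h1.1, h1.2, e1⟩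
  have v2 : (CQ N).c (pN N g₀) (k + 1) ∈ vb N L := ⟨_, h2.1, h2.2, e2⟩
  have e3 : glv Φ N L φ ((CQ N).c (pN N g₀) k) = (Sum.inl (Q.c (ψ g₀) k) : CV V Φ N) := by
    rw [glv_in v1, glv_cor hL h1.1 h1.2 v1, chart_cor H hg]
  have e4 : glv Φ N L φ ((CQ N).c (pN N g₀) (k + 1)) =
      (Sum.inl (Q.c (ψ g₀) (k + 1)) : CV V Φ N) := by
    rw [glv_in v2, glv_cor hL h1.1 h1.2 v2, chart_cor H hg]
  exact Prod.ext e3 e4

/-- the other face at a side of the cylinder -/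
theorem other_face (g : ZMod N × ℤ) (k : ZMod 4) : ∃ g' : ZMod N × ℤ, ∃ l,
    (sd (CQ N) g k).swap = sd (CQ N) g' l ∧
      ((k = 0 ∧ g'.2 = g.2 - 1) ∨ (k = 2 ∧ g'.2 = g.2 + 1) ∨ g'.2 = g.2) := by
  obtain ⟨x, y⟩ := g
  rcases k4_cases k with rfl | rfl | rfl | rfl
  · exact ⟨_, _, csd_swap_0 x y, Or.inl ⟨rfl, rfl⟩⟩
  · exact ⟨_, _, csd_swap_1 x y, Or.inr (Or.inr rfl)⟩
  · exact ⟨_, _, csd_swap_2 x y, Or.inr (Or.inl ⟨rfl, rfl⟩)⟩
  · exact ⟨_, _, csd_swap_3 x y, Or.inr (Or.inr rfl)⟩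

/-- **The cylindrification is a glued surface.** -/
theorem cy_glueC (H : GlueZ L Q A φ ψ P) (hF : Ful L Q A ψ P) (hL : 2 * (L + 1) < N)
    {M : ℤ} (hM : L < M) :
    GlueC N M L (cyQ N H hL) (A.image Sum.inl) (glv Φ N L φ) Sum.inr
      (P.image (icl V Φ N)) where
  chart := by
    refine ⟨?_, ?_⟩
    · intro f hf g hg k l h
      exact glv_inj H (Finset.mem_sdiff.mp hf).2 (Finset.mem_sdiff.mp hg).2 h
    · intro f hf k
      rw [add_zero]
      exact cyc_C (Q := Q) (A := A) (Finset.mem_sdiff.mp hf).2 k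
  dj := by
    intro g _ h
    obtain ⟨f, _, e⟩ := Finset.mem_image.mp h
    exact absurd e (by simp)
  nb := by
    intro F hF k g hg l h
    obtain ⟨f, hf, rfl⟩ := Finset.mem_image.mp hF
    have h1 : (Sum.inl (Q.c f k) : CV V Φ N) = glv Φ N L φ ((CQ N).c g l) := by
      rw [← h]
      exact (cyc_A (L := L) (φ := φ) hf k).symm
    exact (vb_iff h1.symm).1
  P_sub := by
    intro a ha
    obtain ⟨b, hb, rfl⟩ := Finset.mem_image.mp ha
    obtain ⟨f, hf, k, h | h⟩ := mem_dE.mp (H.P_sub hb)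
    · refine mem_dE.mpr ⟨Sum.inl f, Finset.mem_image_of_mem _ hf, k, Or.inl ?_⟩
      rw [sd_cyA H hL hf, h]
    · refine mem_dE.mpr ⟨Sum.inl f, Finset.mem_image_of_mem _ hf, k, Or.inr ?_⟩
      rw [sd_cyA H hL hf, h]
      rfl
  bnd := by
    intro a ha
    set S : Finset (CF Φ N) := A.image Sum.inl ∪ (cylF N (-M) M \ bxC N L).image Sum.inr with hS
    have hini := (mem_bS.mp ha).2
    have hinA : ∀ f ∈ A, (Sum.inl f : CF Φ N) ∈ (S : Set (CF Φ N)) := by
      intro f hf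
      rw [hS]
      exact_mod_cast Finset.mem_union_left _ (Finset.mem_image_of_mem _ hf)
    have hinC : ∀ g ∈ cylF N (-M) M \ bxC N L, (Sum.inr g : CF Φ N) ∈ (S : Set (CF Φ N)) := by
      intro g hg
      rw [hS]
      exact_mod_cast Finset.mem_union_right _ (Finset.mem_image_of_mem _ hg)
    -- the plane side is initial
    have key : ∀ b : V × V, icl V Φ N b = a → Ini Q (FZ L A ψ) b := by
      intro b hb f hf k he
      rcases hf with hf | ⟨g₀, hg₀, rfl⟩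
      · apply hini _ (hinA f hf) k
        rw [← hb, he]
        show _ = (cyc N L Q A φ (Sum.inl f) (k + 1), cyc N L Q A φ (Sum.inl f) k)
        rw [cyc_A hf, cyc_A hf]
      · -- an outer face; the vertices of `a` are on the box
        have e1 : b.1 = φ (ZQ.c g₀ (k + 1)) := by rw [he, ← chart_cor H hg₀]
        have e2 : b.2 = φ (ZQ.c g₀ k) := by rw [he, ← chart_cor H hg₀]
        obtain ⟨F, hF', l, hl⟩ := bS_sd ha
        have near : (|(ZQ.c g₀ k).1| ≤ L ∧ |(ZQ.c g₀ k).2| ≤ L) ∧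
            |(ZQ.c g₀ (k + 1)).1| ≤ L ∧ |(ZQ.c g₀ (k + 1)).2| ≤ L := by
          rcases Finset.mem_union.mp hF' with hF'' | hF''
          · obtain ⟨f, hf, rfl⟩ := Finset.mem_image.mp hF''
            rw [sd_cyA H hL hf, ← hb] at hl
            have hb' := icl_inj hl
            have a1 : Q.c f l = φ (ZQ.c g₀ (k + 1)) := by
              rw [← e1, hb']
              rfl
            have a2 : Q.c f (l + 1) = φ (ZQ.c g₀ k) := by
              rw [← e2, hb']
              rfl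
            exact ⟨H.nb f hf _ g₀ hg₀ k a2, H.nb f hf _ g₀ hg₀ (k + 1) a1⟩
          · obtain ⟨g, hg, rfl⟩ := Finset.mem_image.mp hF''
            have hgb := (Finset.mem_sdiff.mp hg).2
            rw [sd_cyC H hL hgb, ← hb] at hl
            have a1 : glv Φ N L φ ((CQ N).c g l) = (Sum.inl b.1 : CV V Φ N) :=
              (congrArg Prod.fst hl).symm
            have a2 : glv Φ N L φ ((CQ N).c g (l + 1)) = (Sum.inl b.2 : CV V Φ N) :=
              (congrArg Prod.snd hl).symm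
            obtain ⟨b1, b2⟩ := vb_iff a1
            obtain ⟨b3, b4⟩ := vb_iff a2
            obtain ⟨g₁, c1, c2, c3⟩ := out_face hgb b1
            subst c2
            have c4 : |(ZQ.c g₁ l).1| ≤ L ∧ |(ZQ.c g₁ l).2| ≤ L := by
              rw [c3]
              exact ⟨(lft_spec b1).1, (lft_spec b1).2.1⟩
            have c5 := glv_cor hL c4.1 c4.2 b3
            have c6 : |(ZQ.c g₁ (l + 1)).1| ≤ L ∧ |(ZQ.c g₁ (l + 1)).2| ≤ L := by
              rw [← c5]
              exact ⟨(lft_spec b3).1, (lft_spec b3).2.1⟩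
            rw [← c3, e1] at b2
            rw [c5, e2] at b4
            have d1 := chart_inj H c1 hg₀ b2
            have d2 := chart_inj H c1 hg₀ b4
            rw [← d1, ← d2]
            exact ⟨c6, c4⟩
        have h3 := near_face near.1.1 near.1.2
        obtain ⟨n1, n2⟩ := sd_near H hL hg₀ near.1 near.2
        have hg1 : pN N g₀ ∈ cylF N (-M) M \ bxC N L := by
          refine Finset.mem_sdiff.mpr ⟨?_, n1⟩
          rw [mem_cylF]
          show -M ≤ g₀.2 ∧ g₀.2 < M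
          have n3 := near.1.2
          have n4 := near.2.2
          rw [abs_le] at n3 n4
          constructor
          · by_contra hcon
            have h5 : g₀.2 = -(L + 1) := by omega
            have h6 := near.1.2
            have h7 := near.2.2
            omega
          · by_contra hcon
            have := h3
            rcases k4_cases k with rfl | rfl | rfl | rfl
            all_goals
              first
              | (change -L ≤ (cor0 g₀ 0).2 ∧ (cor0 g₀ 0).2 ≤ L at n3; rw [cor0_0] at n3; omega)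
              | (change -L ≤ (cor0 g₀ 2).2 ∧ (cor0 g₀ 2).2 ≤ L at n3; rw [cor0_2] at n3
                 simp only at n3; omega)
        apply hini _ (hinC _ hg1) k
        have n5 : a.swap = sd (cyQ N H hL) (Sum.inr (pN N g₀)) k := by
          rw [n2, ← hb, he]
          rfl
        have n6 : a = (sd (cyQ N H hL) (Sum.inr (pN N g₀)) k).swap := by
          rw [← n5, Prod.swap_swap]
        exact n6
    have fin : ∀ b : V × V, icl V Φ N b = a → (b ∈ P ∨ b.swap ∈ P) →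
        a ∈ (P.image (icl V Φ N)) ∨ a.swap ∈ (P.image (icl V Φ N)) := by
      intro b hb h
      rcases h with h | h
      · left
        rw [← hb]
        exact Finset.mem_image_of_mem _ h
      · right
        rw [← hb]
        exact Finset.mem_image_of_mem (icl V Φ N) h
    obtain ⟨F, hF', k, hk⟩ := bS_sd ha
    rcases Finset.mem_union.mp hF' with hF'' | hF''
    · obtain ⟨f, hf, rfl⟩ := Finset.mem_image.mp hF''
      rw [sd_cyA H hL hf] at hk
      have h1 := key _ hk.symm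
      have h2 := hF f (Or.inl hf) k h1
      right; right
      exact fin _ hk.symm h2
    · obtain ⟨g, hg, rfl⟩ := Finset.mem_image.mp hF''
      obtain ⟨hgc, hgb⟩ := Finset.mem_sdiff.mp hg
      obtain ⟨g', l, e1, e2⟩ := other_face g k
      have hgc' := mem_cylF.mp hgc
      by_cases hc : g' ∈ cylF N (-M) M
      · by_cases hb : g' ∈ bxC N L
        · -- the other face is in the box
          have v1 : (CQ N).c g k ∈ vb N L := by
            have h5 : (CQ N).c g k = (CQ N).c g' (l + 1) := congrArg Prod.snd e1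
            rw [h5]
            exact corner_bxC hb _
          have v2 : (CQ N).c g (k + 1) ∈ vb N L := by
            have h5 : (CQ N).c g (k + 1) = (CQ N).c g' l := congrArg Prod.fst e1
            rw [h5]
            exact corner_bxC hb _
          obtain ⟨g₁, c1, c2, c3⟩ := out_face hgb v1
          subst c2
          have c4 : |(ZQ.c g₁ k).1| ≤ L ∧ |(ZQ.c g₁ k).2| ≤ L := by
            rw [c3]
            exact ⟨(lft_spec v1).1, (lft_spec v1).2.1⟩
          have c5 := glv_cor hL c4.1 c4.2 v2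
          have c6 : |(ZQ.c g₁ (k + 1)).1| ≤ L ∧ |(ZQ.c g₁ (k + 1)).2| ≤ L := by
            rw [← c5]
            exact ⟨(lft_spec v2).1, (lft_spec v2).2.1⟩
          obtain ⟨-, n2⟩ := sd_near H hL c1 c4 c6
          rw [n2] at hk
          have h1 := key _ hk.symm
          have h2 := hF (ψ g₁) (Or.inr ⟨g₁, c1, rfl⟩) k h1
          right; right
          exact fin _ hk.symm h2
        · -- not initial
          exfalso
          have hg2 : g' ∈ cylF N (-M) M \ bxC N L := Finset.mem_sdiff.mpr ⟨hc, hb⟩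
          apply hini _ (hinC _ hg2) l
          have h5 : a.swap = sd (cyQ N H hL) (Sum.inr g') l := by
            rw [sd_cyC H hL hb, ← e1, hk, sd_cyC H hL hgb]
            rfl
          have h6 : a = (sd (cyQ N H hL) (Sum.inr g') l).swap := by rw [← h5, Prod.swap_swap]
          exact h6
      · rw [mem_cylF] at hc
        obtain ⟨x, y⟩ := g
        rcases e2 with ⟨rfl, e2⟩ | ⟨rfl, e2⟩ | e2
        · left
          have hy : y = -M := by
            simp only at e2 hgc'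
            omega
          refine Finset.mem_image.mpr ⟨bE x (-M), mem_botE.mpr ⟨x, rfl⟩, ?_⟩
          rw [hk, sd_cyC H hL hgb, hy]
          rfl
        · right; left
          have hy : y = M - 1 := by
            simp only at e2 hgc'
            omega
          refine Finset.mem_image.mpr ⟨(bE x M).swap, mem_topE.mpr ⟨x, rfl⟩, ?_⟩
          rw [hk, sd_cyC H hL hgb, hy, SixB.top_sd]
        · exfalso
          simp only at e2 hgc'
          omega

/-! ## The covering -/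

open Classical in
/-- faces of the plane surface to faces of the cylindrification -/
def cyf (N : ℕ) (L : ℤ) (A : Finset Φ) (ψ : ℤ × ℤ → Φ) (f : Φ) : CF Φ N :=
  if f ∈ A then Sum.inl f
  else if h : ∃ g, g ∉ RFb (0, 0) L ∧ ψ g = f then Sum.inr (pN N h.choose) else Sum.inl f

open Classical in
/-- vertices of the plane surface to vertices of the cylindrification -/
def cyv (N : ℕ) (L : ℤ) (φ : ℤ × ℤ → V) (v : V) : CV V Φ N :=
  if h : ∃ u : ℤ × ℤ, (∃ g, g ∉ RFb (0, 0) L ∧ ∃ l, ZQ.c g l = u) ∧ φ u = v ∧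
    ¬ (|u.1| ≤ L ∧ |u.2| ≤ L) then Sum.inr (Sum.inl (pN N h.choose)) else Sum.inl v

theorem cyf_A {f : Φ} (hf : f ∈ A) : cyf N L A ψ f = Sum.inl f := if_pos hf

theorem face_inj (H : GlueZ L Q A φ ψ P) {g g' : ℤ × ℤ} (hg : g ∉ RFb (0, 0) L)
    (hg' : g' ∉ RFb (0, 0) L) (h : ψ g = ψ g') : g = g' := by
  have h1 := chart_cor H hg 0
  have h2 := chart_cor H hg' 0
  rw [h] at h1
  have h3 := chart_inj H hg hg' (h1.symm.trans h2)
  have e : ∀ f : ℤ × ℤ, ZQ.c f 0 = f := fun f => by change cor0 f 0 = f; rw [cor0_0]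
  rwa [e, e] at h3

theorem cyf_C (H : GlueZ L Q A φ ψ P) {g : ℤ × ℤ} (hg : g ∉ RFb (0, 0) L) :
    cyf N L A ψ (ψ g) = Sum.inr (pN N g) := by
  unfold cyf
  have h : ∃ g', g' ∉ RFb (0, 0) L ∧ ψ g' = ψ g := ⟨g, hg, rfl⟩
  rw [if_neg (H.dj g hg), dif_pos h]
  rw [face_inj H h.choose_spec.1 hg h.choose_spec.2]

theorem cyv_A (H : GlueZ L Q A φ ψ P) {f : Φ} (hf : f ∈ A) (k : ZMod 4) :
    cyv (Φ := Φ) N L φ (Q.c f k) = Sum.inl (Q.c f k) := by
  unfold cyv
  rw [dif_neg]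
  rintro ⟨u, ⟨g, hg, l, e⟩, h2, h3⟩
  apply h3
  rw [← e]
  exact H.nb f hf k g hg l (by rw [e, h2])

theorem cyv_in (H : GlueZ L Q A φ ψ P) {g : ℤ × ℤ} (hg : g ∉ RFb (0, 0) L) {k : ZMod 4}
    (h : |(ZQ.c g k).1| ≤ L ∧ |(ZQ.c g k).2| ≤ L) :
    cyv (Φ := Φ) N L φ (φ (ZQ.c g k)) = Sum.inl (φ (ZQ.c g k)) := by
  unfold cyv
  rw [dif_neg]
  rintro ⟨u, ⟨g', hg', l, e⟩, h2, h3⟩
  apply h3
  rw [← e] at h2 ⊢
  rw [chart_inj H hg' hg h2]
  exact h

theorem cyv_out (H : GlueZ L Q A φ ψ P) {g : ℤ × ℤ} (hg : g ∉ RFb (0, 0) L) {k : ZMod 4}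
    (h : ¬ (|(ZQ.c g k).1| ≤ L ∧ |(ZQ.c g k).2| ≤ L)) :
    cyv (Φ := Φ) N L φ (φ (ZQ.c g k)) = Sum.inr (Sum.inl (pN N (ZQ.c g k))) := by
  unfold cyv
  have h1 : ∃ u : ℤ × ℤ, (∃ g, g ∉ RFb (0, 0) L ∧ ∃ l, ZQ.c g l = u) ∧ φ u = φ (ZQ.c g k) ∧
      ¬ (|u.1| ≤ L ∧ |u.2| ≤ L) := ⟨_, ⟨g, hg, k, rfl⟩, rfl, h⟩
  rw [dif_pos h1]
  obtain ⟨⟨g', hg', l, e⟩, h2, h3⟩ := h1.choose_spec
  rw [← e] at h2 ⊢
  rw [chart_inj H hg' hg h2]

theorem cyv_glv (H : GlueZ L Q A φ ψ P) {K : ℤ} (hK : 2 * K < N) (hLK : L ≤ K)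
    {g : ℤ × ℤ} (hg : g ∉ RFb (0, 0) L) {k : ZMod 4} (hk : |(ZQ.c g k).1| ≤ K) :
    cyv N L φ (φ (ZQ.c g k)) = glv Φ N L φ ((CQ N).c (pN N g) k) := by
  have e : (CQ N).c (pN N g) k = pN N (ZQ.c g k) := corC_pN g k
  rw [e]
  by_cases h : |(ZQ.c g k).1| ≤ L ∧ |(ZQ.c g k).2| ≤ L
  · have h1 : pN N (ZQ.c g k) ∈ vb N L := ⟨_, h.1, h.2, rfl⟩
    rw [cyv_in H hg h, glv_in h1, lft_pN (by omega) h.1 h.2]
  · have h1 : pN N (ZQ.c g k) ∉ vb N L := by
      rintro ⟨u, h2, h3, h4⟩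
      apply h
      rw [pN_inj hK hk (by omega) h4]
      exact ⟨h2, h3⟩
    rw [cyv_out H hg h, glv_out h1]

/-- the weights of the cylindrification -/
def cyh (Φ : Type) (N : ℕ) (h : V × V → ℂ) (a : CV V Φ N × CV V Φ N) : ℂ :=
  match a with
  | (Sum.inl p, Sum.inl q) => h (p, q)
  | _ => 1

theorem cyh_icl (h : V × V → ℂ) (a : V × V) : cyh Φ N h (icl V Φ N a) = h a := rfl

/-- **The cylindrification covers the plane surface.** -/
theorem cy_cov (H : GlueZ L Q A φ ψ P) (hL : 2 * (L + 1) < N) (h0 : 0 < L) {n : ℕ}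
    (hn : 2 * (4 ^ n * L) < N) {h : V × V → ℂ} (hh : ∀ a, a ∉ P → a.swap ∉ P → h a = 1) :
    Cov n L N Q A ψ h P (cyQ N H hL) (A.image Sum.inl) Sum.inr (cyh Φ N h)
      (P.image (icl V Φ N)) (cyv N L φ) (cyf N L A ψ) 0 := by
  have p0 : L ≤ 4 ^ n * L := by
    have : (1 : ℤ) ≤ 4 ^ n := one_le_pow₀ (by norm_num)
    nlinarith
  -- corners of the window
  have hcor : ∀ f ∈ A ∪ (aZ L n).image ψ, ∀ k,
      (cyQ N H hL).c (cyf N L A ψ f) k = cyv N L φ (Q.c f k) := by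
    intro f hf k
    rcases Finset.mem_union.mp hf with hf | hf
    · rw [cyf_A hf, cyv_A H hf]
      exact cyc_A (L := L) (φ := φ) hf k
    · obtain ⟨g, hg, rfl⟩ := Finset.mem_image.mp hf
      obtain ⟨hg1, hg2⟩ := mem_aZ.mp hg
      have hb : pN N g ∉ bxC N L := by
        have := mem_RF0.mp hg1
        exact pN_notMem hn p0 hg2 (by omega) (by omega)
      rw [cyf_C H hg2, chart_cor H hg2, cyv_glv H hn p0 hg2 (cor0_le hg1 k).1]
      exact cyc_C (Q := Q) (A := A) hb k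
  have hvert : ∀ f ∈ A ∪ (aZ L n).image ψ, ∀ k, (∃ f' ∈ A, ∃ l, Q.c f k = Q.c f' l ∧ True) ∨
      ∃ g, g ∉ RFb (0, 0) L ∧ ∃ l, Q.c f k = φ (ZQ.c g l) ∧ |(ZQ.c g l).1| ≤ 4 ^ n * L := by
    intro f hf k
    rcases Finset.mem_union.mp hf with hf | hf
    · exact Or.inl ⟨f, hf, k, rfl, trivial⟩
    · obtain ⟨g, hg, rfl⟩ := Finset.mem_image.mp hf
      obtain ⟨hg1, hg2⟩ := mem_aZ.mp hg
      exact Or.inr ⟨g, hg2, k, chart_cor H hg2 k, (cor0_le hg1 k).1⟩
  have hv2 : ∀ f ∈ A ∪ (aZ L n).image ψ, ∀ k, cyv (Φ := Φ) N L φ (Q.c f k) = Sum.inl (Q.c f k) ∨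
      ∃ g, g ∉ RFb (0, 0) L ∧ ∃ l, Q.c f k = φ (ZQ.c g l) ∧ |(ZQ.c g l).1| ≤ 4 ^ n * L ∧
        cyv (Φ := Φ) N L φ (Q.c f k) = Sum.inr (Sum.inl (pN N (ZQ.c g l))) := by
    intro f hf k
    rcases hvert f hf k with ⟨f', hf', l, e, _⟩ | ⟨g, hg, l, e, e2⟩
    · left
      rw [e]
      exact cyv_A H hf' l
    · by_cases h1 : |(ZQ.c g l).1| ≤ L ∧ |(ZQ.c g l).2| ≤ L
      · left
        rw [e]
        exact cyv_in H hg h1
      · right
        refine ⟨g, hg, l, e, e2, ?_⟩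
        rw [e]
        exact cyv_out H hg h1
  refine ⟨⟨?_, ?_⟩, ?_, ?_, ?_, ?_⟩
  · intro f hf g hg k l he
    rcases hv2 f hf k with h1 | ⟨g1, b1, l1, c1, d1, h1⟩ <;>
      rcases hv2 g hg l with h2 | ⟨g2, b2, l2, c2, d2, h2⟩
    · rw [h1, h2] at he
      exact Sum.inl.inj he
    · rw [h1, h2] at he
      exact absurd he (by simp)
    · rw [h1, h2] at he
      exact absurd he (by simp)
    · rw [h1, h2] at he
      have e := pN_inj hn d1 d2 (Sum.inl.inj (Sum.inr.inj he))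
      rw [c1, c2, e]
  · intro f hf k
    rw [add_zero]
    exact hcor f hf k
  · ext F
    rw [Finset.mem_image, Finset.mem_image]
    constructor
    · rintro ⟨f, hf, rfl⟩
      exact ⟨f, hf, (cyf_A hf).symm⟩
    · rintro ⟨f, hf, rfl⟩
      exact ⟨f, hf, cyf_A hf⟩
  · rw [Finset.image_image]
    ext F
    rw [Finset.mem_image, Finset.mem_image]
    constructor
    · rintro ⟨g, hg, rfl⟩
      exact ⟨g, hg, (cyf_C H (mem_aZ.mp hg).2).symm⟩
    · rintro ⟨g, hg, rfl⟩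
      exact ⟨g, hg, cyf_C H (mem_aZ.mp hg).2⟩
  · ext a
    rw [Finset.mem_image, Finset.mem_image]
    have key : ∀ b ∈ P, Prod.map (cyv (Φ := Φ) N L φ) (cyv (Φ := Φ) N L φ) b = icl V Φ N b := by
      intro b hb
      obtain ⟨⟨f, hf, k, e1⟩, f', hf', k', e2⟩ := GlueC.dE_corner (H.P_sub hb)
      have e3 : cyv (Φ := Φ) N L φ b.1 = Sum.inl b.1 := by rw [e1]; exact cyv_A H hf k
      have e4 : cyv (Φ := Φ) N L φ b.2 = Sum.inl b.2 := by rw [e2]; exact cyv_A H hf' k'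
      exact Prod.ext e3 e4
    constructor
    · rintro ⟨b, hb, rfl⟩
      exact ⟨b, hb, (key b hb).symm⟩
    · rintro ⟨b, hb, rfl⟩
      exact ⟨b, hb, key b hb⟩
  · intro a ha
    obtain ⟨⟨f, hf, k, e1⟩, f', hf', k', e2⟩ := GlueC.dE_corner ha
    have hout : ∀ v : V, (∃ u : ℤ × ℤ, (∃ g, g ∉ RFb (0, 0) L ∧ ∃ l, ZQ.c g l = u) ∧ φ u = v ∧
        ¬ (|u.1| ≤ L ∧ |u.2| ≤ L)) → ∀ b : V × V, (b.1 = v ∨ b.2 = v) → b ∉ P := by
      rintro v ⟨u, ⟨g, hg, l, e⟩, h2, h3⟩ b hb hP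
      obtain ⟨⟨f, hf, k, e1⟩, f', hf', k', e2⟩ := GlueC.dE_corner (H.P_sub hP)
      apply h3
      rw [← e]
      rcases hb with hb | hb
      · exact H.nb f hf k g hg l (by rw [← e1, hb, ← h2, e])
      · exact H.nb f' hf' k' g hg l (by rw [← e2, hb, ← h2, e])
    by_cases h1 : ∃ u : ℤ × ℤ, (∃ g, g ∉ RFb (0, 0) L ∧ ∃ l, ZQ.c g l = u) ∧ φ u = a.1 ∧
        ¬ (|u.1| ≤ L ∧ |u.2| ≤ L)
    · have h5 : h a = 1 := hh a (hout _ h1 a (Or.inl rfl)) (hout _ h1 a.swap (Or.inr rfl))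
      rw [h5]
      have h6 : cyv (Φ := Φ) N L φ a.1 = Sum.inr (Sum.inl (pN N h1.choose)) := by
        unfold cyv
        rw [dif_pos h1]
      have h7 : Prod.map (cyv (Φ := Φ) N L φ) (cyv (Φ := Φ) N L φ) a =
          (Sum.inr (Sum.inl (pN N h1.choose)), cyv (Φ := Φ) N L φ a.2) := Prod.ext h6 rfl
      rw [h7]
      rfl
    · by_cases h2 : ∃ u : ℤ × ℤ, (∃ g, g ∉ RFb (0, 0) L ∧ ∃ l, ZQ.c g l = u) ∧ φ u = a.2 ∧
          ¬ (|u.1| ≤ L ∧ |u.2| ≤ L)
      · have h5 : h a = 1 := hh a (hout _ h2 a (Or.inr rfl)) (hout _ h2 a.swap (Or.inl rfl))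
        rw [h5]
        have h6 : cyv (Φ := Φ) N L φ a.2 = Sum.inr (Sum.inl (pN N h2.choose)) := by
          unfold cyv
          rw [dif_pos h2]
        have h8 : cyv (Φ := Φ) N L φ a.1 = Sum.inl a.1 := by
          unfold cyv
          rw [dif_neg h1]
        have h7 : Prod.map (cyv (Φ := Φ) N L φ) (cyv (Φ := Φ) N L φ) a =
            (Sum.inl a.1, Sum.inr (Sum.inl (pN N h2.choose))) := Prod.ext h8 h6
        rw [h7]
        rfl
      · have h8 : cyv (Φ := Φ) N L φ a.1 = Sum.inl a.1 := by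
          unfold cyv
          rw [dif_neg h1]
        have h9 : cyv (Φ := Φ) N L φ a.2 = Sum.inl a.2 := by
          unfold cyv
          rw [dif_neg h2]
        have h7 : Prod.map (cyv (Φ := Φ) N L φ) (cyv (Φ := Φ) N L φ) a = icl V Φ N a :=
          Prod.ext h8 h9
        rw [h7, cyh_icl]

theorem cyh_one {h : V × V → ℂ} (hh : ∀ a, a ∉ P → a.swap ∉ P → h a = 1)
    (a : CV V Φ N × CV V Φ N) (h1 : a ∉ P.image (icl V Φ N))
    (h2 : a.swap ∉ P.image (icl V Φ N)) : cyh Φ N h a = 1 := by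
  obtain ⟨p, q⟩ := a
  rcases p with p | p
  · rcases q with q | q
    · show h (p, q) = 1
      refine hh (p, q) (fun h3 => h1 ?_) (fun h3 => h2 ?_)
      · exact Finset.mem_image_of_mem (icl V Φ N) h3
      · exact Finset.mem_image_of_mem (icl V Φ N) h3
    · rfl
  · rfl

theorem cyh_CP (h : V × V → ℂ) (P : Finset (V × V)) :
    CP (cyh Φ N h) (P.image (icl V Φ N)) = CP h P := by
  unfold CP
  have e1 : (P.image (icl V Φ N)).card = P.card :=
    Finset.card_image_of_injective _ fun a b h => icl_inj h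
  have e2 : P.image (icl V Φ N) ∪ rv (P.image (icl V Φ N)) = (P ∪ rv P).image (icl V Φ N) := by
    unfold rv
    rw [Finset.image_union, Finset.image_image, Finset.image_image]
    rfl
  rw [e1, e2, Finset.prod_image fun a _ b _ h => icl_inj h]
  rfl

end

end Pool.Agent.SixB.Rel
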