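import Pool.Agent.Lib.SixB.S3CylnH
import Pool.Agent.Lib.SixB.S3HcsC

/-!
# 6BD step 3: `CutS` of the cylindrification

* `cutH_of`: `CutH` from `HalfS`, `|g| < L` and the form of the outer cut sides (`out`).
* `cutZ_of`: `CutZ` from the plane `CutS` of S3HcsC.
* `cutS_cy`: **plane `CutS` ==> `CutS` over `CQ N` on `cyQ`**, for all admissible sets `O` of outer faces.
-/

set_option autoImplicit false
set_option linter.unusedSectionVars false

namespace Pool.Agent.SixB.Cyh

open Pool.Agent.Perc Pool.Agent.Perc.Q Relation Filter Topology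
open Pool.Agent.SixB.Rel Pool.Agent.SixB.Dbl Pool.Agent.SixB.Hcs
open Pool.Agent.SixB hiding Zs_split dst_congr qt_congr dE_mono

noncomputable section

variable {V Φ : Type} [DecidableEq V] [DecidableEq Φ]
variable {Q : QC V Φ} {A : Finset Φ} {L g : ℤ} {φ : ℤ × ℤ → V} {ψ : ℤ × ℤ → Φ}
  {P : Finset (V × V)} {N : ℕ} [hN : Fact (3 ≤ N)] {up : Bool} {S S₁ S₂ : Set Φ} {m : ℤ → V × V}

theorem c2 (i y : ℤ) : ZQ.c (i, y) 2 = (i + 1, y + 1) := by change cor0 (i, y) 2 = _; rw [cor0_2]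

theorem c3 (i y : ℤ) : ZQ.c (i, y) 3 = (i, y + 1) := by change cor0 (i, y) 3 = _; rw [cor0_3]

/-- a side of a face on the row `g` -/
theorem row_side {h : ℤ × ℤ} (hu : inH up g h) {k : ZMod 4} (h1 : (ZQ.c h k).2 = g)
    (h2 : (ZQ.c h (k + 1)).2 = g) : (h.2 = g ∨ h.2 = g - 1) ∧
      (φ (ZQ.c h k), φ (ZQ.c h (k + 1))) = ori up (φ (h.1, g), φ (h.1 + 1, g)) := by
  obtain ⟨x, y⟩ := h
  have hu' : g ≤ y ↔ up = true := hu
  have e1 : (1 : ZMod 4) + 1 = 2 := by decide
  have e2 : (2 : ZMod 4) + 1 = 3 := by decide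
  have e3 : (3 : ZMod 4) + 1 = 0 := by decide
  have e0 : (0 : ZMod 4) + 1 = 1 := by decide
  rcases k4_cases k with rfl | rfl | rfl | rfl
  · rw [c0] at h1
    have hy : y = g := h1
    subst hy
    have hup : up = true := hu'.mp le_rfl
    refine ⟨Or.inl rfl, ?_⟩
    rw [e0, c0, c1]
    unfold ori
    rw [if_pos hup]
  · rw [c1] at h1
    rw [e1, c2] at h2
    simp only at h1 h2
    omega
  · rw [c2] at h1
    have hy : y + 1 = g := h1
    have hup : up = false := by
      cases up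
      · rfl
      · have := hu'.mpr rfl
        omega
    refine ⟨Or.inr (by simp only; omega), ?_⟩
    rw [e2, c2, c3]
    unfold ori
    rw [if_neg (by rw [hup]; simp), hy]
    rfl
  · rw [c3] at h1
    rw [e3, c0] at h2
    simp only at h1 h2
    omega

/-- `core` is automatic -/
theorem cutH_of (H : GlueZ L Q A φ ψ P) (half : HalfS up g ZQ (outZ L) Q A φ ψ S m) (hg : |g| < L)
    (out : ∀ x : ℤ, x < -L ∨ L ≤ x → m x = ori up (φ (x, g), φ (x + 1, g))) :
    CutH up g L Q A φ ψ S m where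
  half := half
  hg := hg
  out := out
  core x h1 h2 := by
    obtain ⟨f, hf, k, hk⟩ := half.os.into x
    rcases half.mem f hf with hA | ⟨h, hh, hu, rfl⟩
    · exact ⟨f, hA, hf, k, hk⟩
    · exfalso
      have b1 : (ZQ.c h k).2 = g := by
        rw [← half.cut h hh hu k, ← chart_cor H hh k]
        refine ⟨x, Or.inl ?_⟩
        rw [← hk]
        rfl
      have b2 : (ZQ.c h (k + 1)).2 = g := by
        rw [← half.cut h hh hu (k + 1), ← chart_cor H hh (k + 1)]
        refine ⟨x, Or.inr ?_⟩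
        rw [← hk]
        rfl
      obtain ⟨h3, h4⟩ := row_side (φ := φ) hu b1 b2
      have h5 : h.1 < -L ∨ L ≤ h.1 := by
        by_contra hcon
        apply hh
        rw [mem_RF0]
        rw [abs_lt] at hg
        omega
      have h6 : m x = m h.1 := by
        rw [out _ h5, ← h4, ← hk]
        unfold sd
        rw [chart_cor H hh k, chart_cor H hh (k + 1)]
      have h7 := half.os.fam.1 _ _ h6
      omega

/-- the cut row of `S3HcsC` -/
theorem cutZ_of (H : GlueZ L Q A φ ψ P) (C : CutS g ZQ (outZ L) Q A φ ψ S₁ S₂ m) (hg : |g| < L)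
    (out : ∀ x : ℤ, x < -L ∨ L ≤ x → m x = (φ (x, g), φ (x + 1, g))) :
    CutZ g L Q A φ ψ S₂ S₁ m where
  hi := cutH_of H C.up hg fun x hx => by rw [out x hx]; rfl
  lo := cutH_of H C.lo hg fun x hx => by
    unfold revFam
    rw [out x hx]
    rfl
  dj f _ h1 h2 := Set.disjoint_left.mp C.disj h2 h1
  cov f hf := (C.cov f hf).symm
  meet f hf f' hf' k l h := C.sep f' hf' f hf l k h.symm

/-- **The cut row of the cylindrification.** -/
theorem cutS_cy (H : GlueZ L Q A φ ψ P) (hL : 2 * (L + 1) < N)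
    (C : CutS g ZQ (outZ L) Q A φ ψ S₁ S₂ m) (hg : |g| < L)
    (out : ∀ x : ℤ, x < -L ∨ L ≤ x → m x = (φ (x, g), φ (x + 1, g)))
    {O : Set (ZMod N × ℤ)} (hO : OutO N L g O) :
    CutS g (CQ N) O (cyQ N H hL) (A.image Sum.inl) (glv Φ N L φ) Sum.inr
      (cyS A S₁ false g O) (cyS A S₂ true g O) (cyM Φ N L g φ true m) where
  lo := (cutZ_of H C hg out).lo' H hL hO
  up := (cutZ_of H C hg out).up' H hL hO
  disj := by
    rw [Set.disjoint_left]
    intro F h1 h2
    exact (cutZ_of H C hg out).disj H hL F h2 h1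
  cov F hF := by
    obtain ⟨f, hf, rfl⟩ := Finset.mem_image.mp hF
    exact ((cutZ_of H C hg out).cover_inl H hL hf).symm
  sep F₁ h1 F₂ h2 k l h := (cutZ_of H C hg out).meet' H hL hO h2 h1 h.symm

/-- the same for all faces off the box -/
theorem cutS_cy_all (H : GlueZ L Q A φ ψ P) (hL : 2 * (L + 1) < N)
    (C : CutS g ZQ (outZ L) Q A φ ψ S₁ S₂ m) (hg : |g| < L)
    (out : ∀ x : ℤ, x < -L ∨ L ≤ x → m x = (φ (x, g), φ (x + 1, g))) :
    CutS g (CQ N) {h | h ∉ bxC N L} (cyQ N H hL) (A.image Sum.inl) (glv Φ N L φ) Sum.inr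
      (cyS A S₁ false g {h | h ∉ bxC N L}) (cyS A S₂ true g {h | h ∉ bxC N L})
      (cyM Φ N L g φ true m) := cutS_cy H hL C hg out outO_all

end

end Pool.Agent.SixB.Cyh
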