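import Pool.Agent.Lib.SixB.S3AtlDefs
import Pool.Agent.Lib.SixB.S3Mirror

/-!
# 6BD step 3: the doubled complex, basic facts

* `Dbl.mir Q`: mirror image of a complex of quadrangles (corner `k` of `f` is the old corner `3 - k`).
* `Dbl.cpQ Q b`: the copy `b` of `Q` in the doubled complex, `Q` or `mir Q`; `dbl_c`, `sd_dbl`.
* `Dbl.bS_copy`: boundary sides of the copies which are not on the cut line are boundary sides of the double, with
  converse `mem_bS_dbl`.
* `Dbl.dps ψ₀ ψ₁`: phases `ψ₀` on the first copy, `ψ₁` on the second one; `dps ψ (mps ψ)` belongs to the weight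
  `dblH l (bph Q F ψ)` (`dblH_bph`).
* `Dbl.noLoop`.
-/

set_option autoImplicit false
set_option linter.unusedSectionVars false

namespace Pool.Agent.SixB.Dbl

open Pool.Agent.Perc.Q Pool.Agent.Perc Relation ComplexConjugate

noncomputable section

section

variable {V Φ : Type}

/-- mirror image of a complex -/
def mir (Q : QC V Φ) : QC V Φ where
  c := fun f k => Q.c f (3 - k)
  inj := by
    intro f k f' k' h1 h2
    rw [three_sub, three_sub] at h2
    have h3 : Q.c f (2 - k + 1) = Q.c f' (2 - k' + 1) := by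
      rw [two_sub_add, two_sub_add]; exact h1
    obtain ⟨e1, e2⟩ := Q.inj h2 h3
    exact ⟨e1, by simpa using e2⟩

theorem mir_c (Q : QC V Φ) (f : Φ) (k : ZMod 4) : (mir Q).c f k = Q.c f (3 - k) := rfl

theorem sd_mir (Q : QC V Φ) (f : Φ) (k : ZMod 4) : sd (mir Q) f k = (sd Q f (2 - k)).swap := by
  unfold sd
  rw [mir_c, mir_c, three_sub, two_sub_add]
  rfl

theorem sd_mir' (Q : QC V Φ) (f : Φ) (k : ZMod 4) : sd (mir Q) f (2 - k) = (sd Q f k).swap := by
  rw [sd_mir, two_sub_two_sub]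

theorem ini_mir {Q : QC V Φ} {F : Set Φ} {a : V × V} : Ini (mir Q) F a ↔ Ter Q F a := by
  unfold Ini Ter
  constructor
  · intro h f hf k e
    apply h f hf (2 - k)
    have h1 := sd_mir' Q f k
    unfold sd at h1
    rw [e]
    have h2 := congrArg Prod.swap h1
    rw [Prod.swap_swap] at h2
    exact h2.symm
  · intro h f hf k e
    apply h f hf (2 - k)
    have h1 := sd_mir Q f k
    unfold sd at h1
    rw [e]
    have h2 := congrArg Prod.swap h1
    rw [Prod.swap_swap] at h2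
    exact h2

theorem noLoop_mir {Q : QC V Φ} (h : NoLoop Q) : NoLoop (mir Q) := by
  intro f k e
  rw [mir_c, mir_c, three_sub] at e
  apply h f (2 - k)
  rw [two_sub_add]
  exact e.symm

end

variable {V Φ : Type} [DecidableEq V] [DecidableEq Φ]

theorem dE_mir (Q : QC V Φ) (F : Finset Φ) : dE (mir Q) F = dE Q F := by
  ext a
  rw [mem_dE, mem_dE]
  constructor
  · rintro ⟨f, hf, k, h⟩
    refine ⟨f, hf, 2 - k, ?_⟩
    rw [sd_mir, Prod.swap_swap] at h
    exact h.symm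
  · rintro ⟨f, hf, k, h⟩
    refine ⟨f, hf, 2 - k, ?_⟩
    rw [sd_mir', Prod.swap_swap]
    exact h.symm

theorem mem_bS_mir {Q : QC V Φ} {F : Finset Φ} {a : V × V} : a ∈ bS (mir Q) F ↔ a.swap ∈ bS Q F := by
  rw [mem_bS, mem_bS, dE_mir, ini_mir, ini_swap]
  constructor
  · rintro ⟨h1, h2⟩
    exact ⟨swap_mem_dE.mpr h1, h2⟩
  · rintro ⟨h1, h2⟩
    refine ⟨?_, h2⟩
    have := swap_mem_dE.mpr h1
    rwa [Prod.swap_swap] at this

theorem bS_mir (Q : QC V Φ) (F : Finset Φ) : bS (mir Q) F = (bS Q F).image Prod.swap := by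
  ext a
  rw [mem_bS_mir, Finset.mem_image]
  constructor
  · intro h
    exact ⟨_, h, Prod.swap_swap a⟩
  · rintro ⟨b, hb, rfl⟩
    rw [Prod.swap_swap]
    exact hb

/-- the copy `b` -/
def cpQ (Q : QC V Φ) : Bool → QC V Φ
  | false => Q
  | true => mir Q

theorem dE_cpQ (Q : QC V Φ) (F : Finset Φ) (b : Bool) : dE (cpQ Q b) F = dE Q F := by
  cases b
  · rfl
  · exact dE_mir Q F

section

variable {ι : Type} [Fintype ι] {Q : QC V Φ} {F : Finset Φ} {l : ι → V × V} {hl : OneSided Q F l}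

theorem dbl_c {f : Φ} (hf : f ∈ F) (b : Bool) (k : ZMod 4) :
    (dbl Q F l hl).c (f, b) k = dblV l b ((cpQ Q b).c f k) := by
  unfold dbl
  simp only [hf, if_true]
  cases b <;> rfl

theorem sd_dbl {f : Φ} (hf : f ∈ F) (b : Bool) (k : ZMod 4) :
    sd (dbl Q F l hl) (f, b) k = dblA l b (sd (cpQ Q b) f k) := by
  unfold sd dblA
  rw [dbl_c hf, dbl_c hf]

/-- the faces of the double -/
abbrev dblFs (F : Finset Φ) : Finset (Φ × Bool) := cpy F false ∪ cpy F true

theorem mem_cpyF {b : Bool} {x : Φ × Bool} : x ∈ cpy F b ↔ x.1 ∈ F ∧ x.2 = b := by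
  unfold cpy
  rw [Finset.mem_image]
  constructor
  · rintro ⟨f, hf, rfl⟩
    exact ⟨hf, rfl⟩
  · rintro ⟨h1, h2⟩
    exact ⟨x.1, h1, by rw [← h2]⟩

theorem mem_dblFs {x : Φ × Bool} : x ∈ dblFs F ↔ x.1 ∈ F := by
  unfold dblFs
  rw [Finset.mem_union, mem_cpyF, mem_cpyF]
  constructor
  · rintro (h | h) <;> exact h.1
  · intro h
    rcases x with ⟨f, _ | _⟩
    · exact Or.inl ⟨h, rfl⟩
    · exact Or.inr ⟨h, rfl⟩

theorem mem_dE_dbl {x : (V × Bool × Bool) × (V × Bool × Bool)} :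
    x ∈ dE (dbl Q F l hl) (dblFs F) ↔ ∃ b, ∃ a ∈ dE Q F, x = dblA l b a := by
  constructor
  · intro h
    obtain ⟨⟨f, b⟩, hf, k, h1⟩ := mem_dE.mp h
    have hf' : f ∈ F := mem_dblFs.mp hf
    rw [sd_dbl hf'] at h1
    have h2 : sd (cpQ Q b) f k ∈ dE Q F := by
      rw [← dE_cpQ Q F b]
      exact sd_mem hf' k
    rcases h1 with rfl | rfl
    · exact ⟨b, _, h2, rfl⟩
    · exact ⟨b, _, swap_mem_dE.mpr h2, by rw [dblA_swap]⟩
  · rintro ⟨b, a, ha, rfl⟩
    rw [← dE_cpQ Q F b] at ha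
    obtain ⟨f, hf, k, h1⟩ := mem_dE.mp ha
    refine mem_dE.mpr ⟨(f, b), mem_dblFs.mpr hf, k, ?_⟩
    rw [sd_dbl hf]
    rcases h1 with rfl | rfl
    · exact Or.inl rfl
    · exact Or.inr rfl

/-- a side of both copies is on the cut line -/
theorem dblA_cross (hl : OneSided Q F l) {b c : Bool} (hbc : b ≠ c) {a a' : V × V} (ha : a ∈ dE Q F)
    (h : dblA l b a = dblA l c a') : a ∈ eds l ∧ a = a' := by
  have key : ∀ {a a' : V × V}, dblA l false a = dblA l true a' → a = a' ∧ onCut l a.1 ∧ onCut l a.2 := by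
    intro a a' h
    have h1 := dblV_cross (congrArg Prod.fst h)
    have h2 := dblV_cross (congrArg Prod.snd h)
    exact ⟨Prod.ext h1.1 h2.1, h1.2, h2.2⟩
  cases b <;> cases c
  · exact absurd rfl hbc
  · obtain ⟨h1, h2, h3⟩ := key h
    exact ⟨mem_eds_of_onCut ha hl h2 h3, h1⟩
  · obtain ⟨h1, h2, h3⟩ := key h.symm
    subst h1
    exact ⟨mem_eds_of_onCut ha hl h2 h3, rfl⟩
  · exact absurd rfl hbc

/-- a boundary side of a copy off the cut line is a boundary side of the double -/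
theorem ini_copy {b : Bool} {a : V × V} (ha : a ∈ dE Q F) (h : Ini (cpQ Q b) (F : Set Φ) a)
    (hc : a ∉ eds l) : Ini (dbl Q F l hl) ((dblFs F : Finset (Φ × Bool)) : Set (Φ × Bool)) (dblA l b a) := by
  rintro ⟨g, c⟩ hg k e
  have hg' : g ∈ F := mem_dblFs.mp (by exact_mod_cast hg)
  have h1 : dblA l b a = (sd (dbl Q F l hl) (g, c) k).swap := e
  rw [sd_dbl hg', ← dblA_swap] at h1
  by_cases hbc : b = c
  · subst hbc
    exact h g (by exact_mod_cast hg') k (dblA_inj h1)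
  · exact hc (dblA_cross hl hbc ha h1).1

theorem bS_copy {b : Bool} {a : V × V} (ha : a ∈ bS (cpQ Q b) F) (hc : a ∉ eds l) :
    dblA l b a ∈ bS (dbl Q F l hl) (dblFs F) := by
  obtain ⟨h1, h2⟩ := mem_bS.mp ha
  rw [dE_cpQ] at h1
  exact mem_bS.mpr ⟨mem_dE_dbl.mpr ⟨b, a, h1, rfl⟩, ini_copy h1 h2 hc⟩

theorem swap_mem_eds {a : V × V} : a.swap ∈ eds l ↔ a ∈ eds l := by
  constructor
  · intro h
    obtain ⟨i, h1 | h1⟩ := mem_eds.mp h
    · exact mem_eds.mpr ⟨i, Or.inr (by rw [← h1, Prod.swap_swap])⟩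
    · exact mem_eds.mpr ⟨i, Or.inl (by rw [← Prod.swap_swap a, h1, Prod.swap_swap])⟩
  · intro h
    obtain ⟨i, h1 | h1⟩ := mem_eds.mp h
    · exact mem_eds.mpr ⟨i, Or.inr (by rw [h1])⟩
    · exact mem_eds.mpr ⟨i, Or.inl (by rw [h1, Prod.swap_swap])⟩

/-- a side of the cut line has faces on both sides in the double -/
theorem not_ini_cut {b : Bool} {a : V × V} (h : a ∈ eds l) :
    ¬ Ini (dbl Q F l hl) ((dblFs F : Finset (Φ × Bool)) : Set (Φ × Bool)) (dblA l b a) := by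
  have key : ∀ i, ∀ c : Bool, ∃ f ∈ F, ∃ k, sd (dbl Q F l hl) (f, c) k =
      if c = true then (dblA l false (l i)).swap else dblA l false (l i) := by
    intro i c
    obtain ⟨f, hf, k, hk⟩ := hl.into i
    cases c
    · refine ⟨f, hf, k, ?_⟩
      rw [sd_dbl hf]
      show dblA l false (sd Q f k) = _
      rw [hk]
      simp
    · refine ⟨f, hf, 2 - k, ?_⟩
      rw [sd_dbl hf]
      show dblA l true (sd (mir Q) f (2 - k)) = _
      rw [sd_mir', hk, dblA_swap, dblA_cut]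
      simp
  intro hI
  obtain ⟨i, h1 | h1⟩ := mem_eds.mp h
  · obtain ⟨f, hf, k, hk⟩ := key i true
    rw [if_pos rfl] at hk
    apply hI (f, true) (by exact_mod_cast mem_dblFs.mpr hf) k
    show dblA l b a = (sd (dbl Q F l hl) (f, true) k).swap
    rw [hk, h1, dblA_cut, Prod.swap_swap]
  · obtain ⟨f, hf, k, hk⟩ := key i false
    rw [if_neg (by simp)] at hk
    apply hI (f, false) (by exact_mod_cast mem_dblFs.mpr hf) k
    show dblA l b a = (sd (dbl Q F l hl) (f, false) k).swap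
    rw [hk, h1, dblA_swap, dblA_cut]

theorem ini_dbl {b : Bool} {a : V × V} (ha : a ∈ dE Q F) (hc : a ∉ eds l) :
    Ini (dbl Q F l hl) ((dblFs F : Finset (Φ × Bool)) : Set (Φ × Bool)) (dblA l b a) ↔
      Ini (cpQ Q b) (F : Set Φ) a := by
  refine ⟨fun h f hf k e => ?_, fun h => ini_copy ha h hc⟩
  have hf' : f ∈ F := by exact_mod_cast hf
  apply h (f, b) (by exact_mod_cast mem_dblFs.mpr hf') k
  show dblA l b a = (sd (dbl Q F l hl) (f, b) k).swap
  rw [sd_dbl hf', ← dblA_swap]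
  exact congrArg _ e

theorem ter_dbl {b : Bool} {a : V × V} (ha : a ∈ dE Q F) (hc : a ∉ eds l) :
    Ter (dbl Q F l hl) ((dblFs F : Finset (Φ × Bool)) : Set (Φ × Bool)) (dblA l b a) ↔
      Ter (cpQ Q b) (F : Set Φ) a := by
  rw [← ini_swap, ← ini_swap, ← dblA_swap]
  exact ini_dbl (swap_mem_dE.mpr ha) (fun h => hc (swap_mem_eds.mp h))

theorem mem_bS_dbl {x : (V × Bool × Bool) × (V × Bool × Bool)} :
    x ∈ bS (dbl Q F l hl) (dblFs F) ↔ ∃ b, ∃ a ∈ bS (cpQ Q b) F, a ∉ eds l ∧ x = dblA l b a := by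
  constructor
  · intro h
    obtain ⟨h1, h2⟩ := mem_bS.mp h
    obtain ⟨b, a, ha, rfl⟩ := mem_dE_dbl.mp h1
    have hc : a ∉ eds l := fun hc => not_ini_cut hc h2
    refine ⟨b, a, mem_bS.mpr ⟨?_, (ini_dbl ha hc).mp h2⟩, hc, rfl⟩
    rw [dE_cpQ]
    exact ha
  · rintro ⟨b, a, ha, hc, rfl⟩
    exact bS_copy ha hc

theorem bS_dbl : bS (dbl Q F l hl) (dblFs F) =
    (bS Q F \ eds l).image (dblA l false) ∪ (bS (mir Q) F \ eds l).image (dblA l true) := by
  ext x
  rw [mem_bS_dbl]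
  simp only [Finset.mem_union, Finset.mem_image, Finset.mem_sdiff]
  constructor
  · rintro ⟨b, a, ha, hc, rfl⟩
    cases b
    · exact Or.inl ⟨a, ⟨ha, hc⟩, rfl⟩
    · exact Or.inr ⟨a, ⟨ha, hc⟩, rfl⟩
  · rintro (⟨a, ⟨ha, hc⟩, rfl⟩ | ⟨a, ⟨ha, hc⟩, rfl⟩)
    · exact ⟨false, a, ha, hc, rfl⟩
    · exact ⟨true, a, ha, hc, rfl⟩

/-! ## Phases -/

/-- the phases of the mirror image -/
def mps (ψ : V × V → ℝ) (a : V × V) : ℝ := ψ a.swap

/-- phases `ψ₀` on the first copy, `ψ₁` on the second copy -/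
def dps (ψ₀ ψ₁ : V × V → ℝ) (x : (V × Bool × Bool) × (V × Bool × Bool)) : ℝ :=
  if (x.1.2.1 || x.2.2.1) = true then ψ₁ (x.1.1, x.2.1) else ψ₀ (x.1.1, x.2.1)

/-- the phases of the copy `b` -/
def cps (ψ₀ ψ₁ : V × V → ℝ) : Bool → V × V → ℝ
  | false => ψ₀
  | true => ψ₁

theorem dps_copy (hl : OneSided Q F l) (ψ₀ ψ₁ : V × V → ℝ) {b : Bool} {a : V × V} (ha : a ∈ dE Q F)
    (hc : a ∉ eds l) : dps ψ₀ ψ₁ (dblA l b a) = cps ψ₀ ψ₁ b a := by
  unfold dps dblA dblV
  cases b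
  · simp [cps]
  · have h1 : ¬ (onCut l a.1 ∧ onCut l a.2) := fun hh => hc (mem_eds_of_onCut ha hl hh.1 hh.2)
    by_cases h2 : onCut l a.1
    · have h3 : ¬ onCut l a.2 := fun hh => h1 ⟨h2, hh⟩
      simp [h2, h3, cps]
    · simp [h2, cps]

theorem norm_bph (ψ : V × V → ℝ) (a : V × V) : ‖bph Q F ψ a‖ = 1 := by
  unfold bph
  split_ifs
  · rw [show -(ψ a : ℂ) * Complex.I = ((-ψ a : ℝ) : ℂ) * Complex.I by push_cast; ring,
      Complex.norm_exp_ofReal_mul_I]
  · rw [Complex.norm_exp_ofReal_mul_I]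
  · simp

/-- **The weight of the double.** -/
theorem dblH_bph (hl : OneSided Q F l) (ψ : V × V → ℝ) {x : (V × Bool × Bool) × (V × Bool × Bool)}
    (hx : x ∈ dE (dbl Q F l hl) (dblFs F)) :
    dblH l (bph Q F ψ) x = bph (dbl Q F l hl) (dblFs F) (dps ψ (mps ψ)) x := by
  obtain ⟨b, a, ha, rfl⟩ := mem_dE_dbl.mp hx
  by_cases hc : a ∈ eds l
  · rw [dblH_cut _ hc, Complex.mul_conj, Complex.normSq_eq_norm_sq, norm_bph]
    rw [bph_in _ (not_ini_cut hc)]
    · simp
    · intro h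
      rw [← ini_swap, ← dblA_swap] at h
      exact not_ini_cut (swap_mem_eds.mpr hc) h
  · have hcs : a.swap ∉ eds l := fun h => hc (swap_mem_eds.mp h)
    have has := swap_mem_dE.mpr ha
    cases b
    · rw [dblH_false _ hc]
      by_cases h1 : Ini Q (F : Set Φ) a
      · rw [bph_ini _ h1, bph_ini _ ((ini_dbl (b := false) ha hc).mpr h1), dps_copy hl _ _ ha hc]
        rfl
      · have h1' := fun h => h1 ((ini_dbl (hl := hl) (b := false) ha hc).mp h)
        by_cases h2 : Ter Q (F : Set Φ) a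
        · rw [bph_ter _ ha h2, bph_ter _ hx ((ter_dbl (b := false) ha hc).mpr h2), ← dblA_swap,
            dps_copy hl _ _ has hcs]
          rfl
        · have h2' := fun h => h2 ((ter_dbl (hl := hl) (b := false) ha hc).mp h)
          rw [bph_in _ h1 h2, bph_in _ h1' h2']
    · rw [dblH_true hl _ ha hc]
      have i1 : Ini (cpQ Q true) (F : Set Φ) a ↔ Ter Q (F : Set Φ) a := ini_mir
      have i2 : Ter (cpQ Q true) (F : Set Φ) a ↔ Ini Q (F : Set Φ) a :=
        (ini_swap.symm.trans ini_mir).trans ter_swap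
      by_cases h1 : Ini Q (F : Set Φ) a
      · have h3 := i2.mpr h1
        rw [bph_ini _ h1, bph_ter _ hx ((ter_dbl (b := true) ha hc).mpr h3), ← dblA_swap,
          dps_copy hl _ _ has hcs, ← Complex.exp_conj]
        congr 1
        simp [cps, mps]
      · have h1' := fun h => h1 (i2.mp ((ter_dbl (hl := hl) (b := true) ha hc).mp h))
        by_cases h2 : Ter Q (F : Set Φ) a
        · have h3 := i1.mpr h2
          rw [bph_ter _ ha h2, bph_ini _ ((ini_dbl (b := true) ha hc).mpr h3),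
            dps_copy hl _ _ ha hc, ← Complex.exp_conj]
          congr 1
          simp [cps, mps]
        · have h2' := fun h => h2 (i1.mp ((ini_dbl (hl := hl) (b := true) ha hc).mp h))
          rw [bph_in _ h1 h2, bph_in _ h2' h1', map_one]

/-- arrow sums of the double in terms of phases -/
theorem Z6_dbl (hl : OneSided Q F l) (ψ : V × V → ℝ) :
    Z6 (dbl Q F l hl) (dblFs F) (dblH l (bph Q F ψ)) =
      Z6 (dbl Q F l hl) (dblFs F) (bph (dbl Q F l hl) (dblFs F) (dps ψ (mps ψ))) := by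
  unfold Z6
  refine Finset.sum_congr rfl fun α hα => ?_
  congr 1
  refine Finset.prod_congr rfl fun x hx => dblH_bph hl ψ ?_
  exact Finset.mem_powerset.mp (Finset.mem_filter.mp hα).1 hx

/-- the double has no degenerate side -/
theorem noLoop (h : NoLoop Q) : NoLoop (dbl Q F l hl) := by
  rintro ⟨f, b⟩ k e
  by_cases hf : f ∈ F
  · rw [dbl_c hf, dbl_c hf] at e
    have e1 := dblV_inj e
    cases b
    · exact h f k e1
    · exact noLoop_mir h f k e1
  · unfold dbl at e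
    simp only [hf, if_false] at e
    exact h f k (congrArg Prod.fst e)

end

end

end Pool.Agent.SixB.Dbl
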