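import Pool.Agent.Lib.SixB.S3DpA
import Pool.Agent.Lib.SixB.S3HPkI

/-!
# 6BD step 3.8 (R18): the package of the polygon in the form of `SlbD.chain_E`

* `DscC.inW`, `DscC.chart`, `DscC.side`, `DscC.face`: the disc of the comparison in the window of the slab.
* `pk_G0`: the plane package of `PkDIn` gives the package `P0` of `SlbD.chain_E` with the faces `DmG S`.
-/

set_option autoImplicit false
set_option linter.unusedSectionVars false

namespace Pool.Agent.SixB.SlbD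

open Pool.Agent.Perc.Q Pool.Agent.Perc Pool.Agent.SixB
open Pool.Agent.PercD (BR mem_BR)
open Pool.Agent.SixB.MthD (sd2 sh)
open Pool.Agent.SixB.PC (mv)
open Pool.Agent.SixB.Rel (QChart WZ1)

noncomputable section

variable {S : Slb} {W : Finset (ℤ × ℤ)} {v : ℤ × ℤ} {K : ℕ}

/-- the disc lies in the window -/
theorem _root_.Pool.Agent.SixB.Slb.DscC.bds (h : S.DscC v K) {f : ℤ × ℤ} (hf : f ∈ BR v (2 ^ K)) :
    S.x1 + S.k ≤ f.1 ∧ f.1 < S.x2 - S.k ∧ S.yc - (S.k / 2 : ℕ) ≤ f.2 ∧ f.2 < S.yc + (S.k / 2 : ℕ) := by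
  obtain ⟨h1, h2, h3, h4⟩ := h
  rw [mem_BR] at hf
  have h5 := abs_le.mp (show |v.2 - S.yc| ≤ |v.2 - S.yc| from le_rfl)
  obtain ⟨h6, h7⟩ := h5
  push_cast
  refine ⟨by omega, by omega, by omega, by omega⟩

theorem _root_.Pool.Agent.SixB.Slb.DscC.inW (h : S.DscC v K) : InW S (BR v (2 ^ K)) := by
  intro f hf
  have h1 := h.bds hf
  push_cast at h1
  omega

theorem _root_.Pool.Agent.SixB.Slb.DscC.chart (hS : S.Ok) (h : S.DscC v K) :
    QChart ZQ (S.env W 0 0).Q (BR v (2 ^ K)) S.nuD S.phD 0 :=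
  (hS.chartD W).mono (h.inW.subD hS)

theorem _root_.Pool.Agent.SixB.Slb.DscC.side (hS : S.Ok) (h : S.DscC v K) {e : (ℤ × ℤ) × (ℤ × ℤ)}
    (he : e ∈ dE ZQ (BR v (2 ^ K))) : mv S.nuD e = sd2 S e := h.inW.side hS he

theorem _root_.Pool.Agent.SixB.Slb.DscC.face (hS : S.Ok) (h : S.DscC v K) {f : ℤ × ℤ}
    (hf : f ∈ BR v (2 ^ K)) : S.phD f = (sh S f, f) := h.inW.face hS hf

/-- the faces of the package of `S.G 0` -/
def DmG (S : Slb) : Set (Option Bool × (ℤ × ℤ)) := {g | g.2 ∈ S.DmD}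

/-- the disc -/
theorem disc_DmG (h : S.DscC v K) : (((BR v (2 ^ K)).image S.phD : Finset _) : Set _) ⊆ DmG S := by
  intro g hg
  obtain ⟨f, hf, rfl⟩ := Finset.mem_image.mp (Finset.mem_coe.mp hg)
  have h1 := h.bds hf
  show f ∈ S.DmD
  exact ⟨by omega, by omega, h1.2.2.1, h1.2.2.2⟩

/-- **The package of `S.G 0` from the package in the plane.** -/
theorem pk_G0 (hS : S.Ok) (h : S.DscC v K) {s : ℕ} {C0 c Pr : ℝ} {Bd : (ℤ × ℤ → Bool) → ℝ}
    (U : HCmp.Pk id id (BR v (2 ^ K)) S.D (WZ ZQ S.D S.ψ (bS ZQ S.D)) (WZ1 ZQ S.D S.ψ (bS ZQ S.D))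
      s S.DmD C0 c Pr Bd) :
    HCmp.Pk S.nuD S.phD (BR v (2 ^ K)) (S.G 0)
      (WZ (S.env W 0 0).Q (S.G 0) (S.phG 0) (bS (S.env W 0 0).Q (S.G 0)))
      (WZ1 (S.env W 0 0).Q (S.G 0) (S.phG 0) (bS (S.env W 0 0).Q (S.G 0))) s (DmG S) C0 c Pr
      (fun ω => Bd (fun f => ω (S.phD f))) :=
  pk_slab hS h.inW (h.chart hS) (fun _ he => h.side hS he) (fun _ hf => h.face hS hf)
    (fun _ _ h1 => h1) U

end

end Pool.Agent.SixB.SlbD
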