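import Pool.Agent.Lib.SixB.S3AtlDefs
import Pool.Agent.Lib.SixB.S3CutD
import Pool.Agent.Lib.SixB.S0Plane

/-!
# 6BD step 3: composition of charts, the embedding of a cut domain into the environment

* `PChart.comp`, `WChart.comp`, `MChart.comp`, transfer of `Jump`, `SJump`, `Nat`.
* `PChart.Keeps P Z ψ ψ'`: the chart keeps the boundary sides with property `P` and their phases; `Keeps.wch`,
  `Keeps.mch`: wedge and mouth charts of `R` become charts of `F` with the same jumps.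
* `spChart`: charts of the plane with pockets from sheet functions.
* `EData E D x₁ x₂ w₁ w₂ s₁ s₂`: the pockets of `E` are the two parts of the polygon `D` cut along the slab
  `[x₁, x₂) × [s₁, s₂)`. `EData.emb`: the chart of `D` in `E`; boundary sides of `D` off the slab are
  island sides of `E` (`emb_bS`, `emb_Z`) and the phases are those of `D` (`emb_psi`).
-/

set_option autoImplicit false
set_option linter.unusedSectionVars false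

namespace Pool.Agent.SixB

open Pool.Agent.Perc.Q Pool.Agent.Perc

noncomputable section

/-! ## Composition -/

section comp

variable {V Φ : Type} [DecidableEq V] [DecidableEq Φ] {Q : QC V Φ} {F F' : Finset Φ}
  {R R' : Finset (ℤ × ℤ)} {m : ℕ} {o : ZMod 4} {v : ℤ × ℤ} {r h l : ℕ} {left : Bool}

/-- composition of charts -/
def PChart.comp (c : PChart Q F R) (d : PChart ZQ R R') : PChart Q F R' where
  φV := fun v => c.φV (d.φV v)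
  φF := fun f => c.φF (d.φF f)
  cor := fun f hf k => by rw [c.cor _ (d.sub f hf), d.cor f hf]
  inj := fun f hf g hg k l h => by
    refine d.inj f hf g hg k l ?_
    rw [← d.cor f hf, ← d.cor g hg] at h ⊢
    exact c.inj _ (d.sub f hf) _ (d.sub g hg) k l h
  sub := fun f hf => c.sub _ (d.sub f hf)

theorem PChart.comp_side (c : PChart Q F R) (d : PChart ZQ R R') (a : (ℤ × ℤ) × (ℤ × ℤ)) :
    (c.comp d).side a = c.side (d.side a) := rfl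

/-- restriction of a chart -/
def PChart.mono (c : PChart Q F R) (h : R' ⊆ R) : PChart Q F R' where
  φV := c.φV
  φF := c.φF
  cor := fun f hf => c.cor f (h hf)
  inj := fun f hf g hg => c.inj f (h hf) g (h hg)
  sub := fun f hf => c.sub f (h hf)

/-- enlargement of the surface -/
def PChart.monoF (c : PChart Q F R) (h : F ⊆ F') : PChart Q F' R where
  φV := c.φV
  φF := c.φF
  cor := c.cor
  inj := c.inj
  sub := fun f hf => h (c.sub f hf)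

/-- the inclusion of a set of faces of the plane -/
def PChart.incl (h : R' ⊆ R) : PChart ZQ R R' where
  φV := id
  φF := id
  cor := fun _ _ _ => rfl
  inj := fun _ _ _ _ _ _ h => h
  sub := fun _ hf => h hf

/-- image of the side `k` of a face -/
theorem PChart.side_sd (c : PChart Q F R) {f : ℤ × ℤ} (hf : f ∈ R) (k : ZMod 4) :
    c.side (sd ZQ f k) = sd Q (c.φF f) k := by
  unfold PChart.side sd
  rw [c.cor f hf, c.cor f hf]

/-- composition with the chart of a wedge -/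
def WChart.comp (c : PChart Q F R) (d : WChart ZQ R m o v r)
    (hIn : ∀ a ∈ wIn (o + m) v r, c.side (d.side a) ∈ bS Q F)
    (hOut : ∀ a ∈ wOut o v r, c.side (d.side a) ∈ bS Q F) : WChart Q F m o v r where
  toPChart := c.comp d.toPChart
  bIn := hIn
  bOut := hOut

theorem WChart.Jump.comp {c : PChart Q F R} {d : WChart ZQ R m o v r}
    {hIn : ∀ a ∈ wIn (o + m) v r, c.side (d.side a) ∈ bS Q F}
    {hOut : ∀ a ∈ wOut o v r, c.side (d.side a) ∈ bS Q F} {ψ : V × V → ℝ}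
    {ψ' : (ℤ × ℤ) × (ℤ × ℤ) → ℝ} {J : ℝ} (hJ : d.Jump ψ' J)
    (h1 : ∀ a ∈ wIn (o + m) v r, ψ (c.side (d.side a)) = ψ' (d.side a))
    (h2 : ∀ a ∈ wOut o v r, ψ (c.side (d.side a)) = ψ' (d.side a)) :
    (WChart.comp c d hIn hOut).Jump ψ J := by
  obtain ⟨p, q, hp, hq, h⟩ := hJ
  exact ⟨p, q, fun a ha => (h1 a ha).trans (hp a ha), fun a ha => (h2 a ha).trans (hq a ha), h⟩

theorem eS_mem_wOut (hr : 0 < r) : eS o v ∈ wOut o v r := by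
  unfold eS wOut
  rw [Finset.mem_image]
  exact ⟨0, Finset.mem_range.2 hr, by simp⟩

theorem SJump.comp {c : PChart Q F R} {d : WChart ZQ R m o v r}
    {hIn : ∀ a ∈ wIn (o + m) v r, c.side (d.side a) ∈ bS Q F}
    {hOut : ∀ a ∈ wOut o v r, c.side (d.side a) ∈ bS Q F} {ψ : V × V → ℝ}
    {ψ' : (ℤ × ℤ) × (ℤ × ℤ) → ℝ} {K : SK} (hr : 0 < r) (hJ : SJump d K ψ')
    (h1 : ∀ a ∈ wIn (o + m) v r, ψ (c.side (d.side a)) = ψ' (d.side a))
    (h2 : ∀ a ∈ wOut o v r, ψ (c.side (d.side a)) = ψ' (d.side a)) :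
    SJump (WChart.comp c d hIn hOut) K ψ := by
  cases K with
  | ver J => exact WChart.Jump.comp hJ h1 h2
  | e =>
    obtain ⟨hm, p, h3, h4, h5⟩ := hJ
    exact ⟨hm, p, fun a ha => (h1 a ha).trans (h3 a ha), (h2 _ (eS_mem_wOut hr)).trans h4,
      fun a ha => (h2 a (Finset.mem_of_mem_erase ha)).trans (h5 a ha)⟩
  | em =>
    obtain ⟨hm, p, h3, h4, h5⟩ := hJ
    exact ⟨hm, p, fun a ha => (h1 a ha).trans (h3 a ha), (h2 _ (eS_mem_wOut hr)).trans h4,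
      fun a ha => (h2 a (Finset.mem_of_mem_erase ha)).trans (h5 a ha)⟩

/-- composition with the chart of a mouth -/
def MChart.comp (c : PChart Q F R) (d : MChart ZQ R left v r h l)
    (hb : ∀ i, ∀ a ∈ mthWall left v r h l i, c.side (d.side a) ∈ bS Q F) :
    MChart Q F left v r h l where
  toPChart := c.comp d.toPChart
  bd := hb

theorem WChart.box_comp {c : PChart Q F R} {d : WChart ZQ R m o v r}
    {hIn : ∀ a ∈ wIn (o + m) v r, c.side (d.side a) ∈ bS Q F}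
    {hOut : ∀ a ∈ wOut o v r, c.side (d.side a) ∈ bS Q F} (ρ : ℕ) :
    (WChart.comp c d hIn hOut).box ρ = (d.box ρ).image c.φF := by
  unfold WChart.box
  rw [Finset.image_image]
  rfl

theorem WChart.walls_comp {c : PChart Q F R} {d : WChart ZQ R m o v r}
    {hIn : ∀ a ∈ wIn (o + m) v r, c.side (d.side a) ∈ bS Q F}
    {hOut : ∀ a ∈ wOut o v r, c.side (d.side a) ∈ bS Q F} (ρ : ℕ) :
    (WChart.comp c d hIn hOut).walls ρ = (d.walls ρ).image c.side := by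
  unfold WChart.walls
  rw [Finset.image_image]
  rfl

/-- a boundary side is a side of a face -/
theorem exists_sd_of_bS {a : V × V} (ha : a ∈ bS Q F) : ∃ f ∈ F, ∃ k, a = sd Q f k := by
  rw [mem_bS] at ha
  obtain ⟨h1, h2⟩ := ha
  unfold dE at h1
  rw [Finset.mem_biUnion] at h1
  obtain ⟨f, hf, h1⟩ := h1
  rw [Finset.mem_biUnion] at h1
  obtain ⟨k, -, h1⟩ := h1
  rw [Finset.mem_insert, Finset.mem_singleton] at h1
  rcases h1 with h1 | h1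
  · exact ⟨f, hf, k, h1⟩
  · exact absurd h1 (h2 f hf k)

/-- the chart `c` keeps the boundary sides with the property `P`, their phases, and they are in `Z` -/
structure PChart.Keeps (c : PChart Q F R) (P : (ℤ × ℤ) × (ℤ × ℤ) → Prop) (Z : Finset (V × V))
    (ψ : V × V → ℝ) (ψ' : (ℤ × ℤ) × (ℤ × ℤ) → ℝ) : Prop where
  bd : ∀ a ∈ bS ZQ R, P a → c.side a ∈ bS Q F
  ph : ∀ a ∈ bS ZQ R, P a → ψ (c.side a) = ψ' a
  z : ∀ a ∈ bS ZQ R, P a → c.side a ∈ Z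

variable {c : PChart Q F R} {P : (ℤ × ℤ) × (ℤ × ℤ) → Prop} {Z : Finset (V × V)} {ψ : V × V → ℝ}
  {ψ' : (ℤ × ℤ) × (ℤ × ℤ) → ℝ}

/-- the chart of a wedge of `R` as a chart of `F` -/
def PChart.Keeps.wch (hc : c.Keeps P Z ψ ψ') (d : WChart ZQ R m o v r)
    (hd : ∀ a ∈ wIn (o + m) v r ∪ wOut o v r, P (d.side a)) : WChart Q F m o v r :=
  WChart.comp c d (fun a ha => hc.bd _ (d.bIn a ha) (hd a (Finset.mem_union_left _ ha)))
    (fun a ha => hc.bd _ (d.bOut a ha) (hd a (Finset.mem_union_right _ ha)))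

theorem PChart.Keeps.wch_jump (hc : c.Keeps P Z ψ ψ') {d : WChart ZQ R m o v r}
    (hd : ∀ a ∈ wIn (o + m) v r ∪ wOut o v r, P (d.side a)) {J : ℝ} (hJ : d.Jump ψ' J) :
    (hc.wch d hd).Jump ψ J :=
  WChart.Jump.comp hJ (fun a ha => hc.ph _ (d.bIn a ha) (hd a (Finset.mem_union_left _ ha)))
    (fun a ha => hc.ph _ (d.bOut a ha) (hd a (Finset.mem_union_right _ ha)))

theorem PChart.Keeps.wch_sjump (hc : c.Keeps P Z ψ ψ') (hr : 0 < r) {d : WChart ZQ R m o v r}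
    (hd : ∀ a ∈ wIn (o + m) v r ∪ wOut o v r, P (d.side a)) {K : SK} (hJ : SJump d K ψ') :
    SJump (hc.wch d hd) K ψ :=
  SJump.comp hr hJ (fun a ha => hc.ph _ (d.bIn a ha) (hd a (Finset.mem_union_left _ ha)))
    (fun a ha => hc.ph _ (d.bOut a ha) (hd a (Finset.mem_union_right _ ha)))

theorem PChart.Keeps.wch_box (hc : c.Keeps P Z ψ ψ') {d : WChart ZQ R m o v r}
    (hd : ∀ a ∈ wIn (o + m) v r ∪ wOut o v r, P (d.side a)) (ρ : ℕ) :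
    (hc.wch d hd).box ρ = (d.box ρ).image c.φF := WChart.box_comp ρ

theorem PChart.Keeps.wch_walls (hc : c.Keeps P Z ψ ψ') {d : WChart ZQ R m o v r}
    (hd : ∀ a ∈ wIn (o + m) v r ∪ wOut o v r, P (d.side a)) (ρ : ℕ) :
    (hc.wch d hd).walls ρ = (d.walls ρ).image c.side := WChart.walls_comp ρ

/-- the chart of a mouth of `R` as a chart of `F` -/
def PChart.Keeps.mch (hc : c.Keeps P Z ψ ψ') (d : MChart ZQ R left v r h l)
    (hd : ∀ i, ∀ a ∈ mthWall left v r h l i, P (d.side a)) : MChart Q F left v r h l :=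
  MChart.comp c d fun i a ha => hc.bd _ (d.bd i a ha) (hd i a ha)

theorem PChart.Keeps.mch_nat (hc : c.Keeps P Z ψ ψ') {d : MChart ZQ R left v r h l}
    (hd : ∀ i, ∀ a ∈ mthWall left v r h l i, P (d.side a)) {J : ℝ} (hJ : d.Nat ψ' J) :
    (hc.mch d hd).Nat ψ J := by
  obtain ⟨p, hp, h1⟩ := hJ
  exact ⟨p, fun i a ha => (hc.ph _ (d.bd i a ha) (hd i a ha)).trans (hp i a ha), h1⟩

end comp

/-! ## Charts of the plane with pockets -/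

/-- chart of the plane with pockets, `s` = sheet of the faces, `t` = sheet of the vertices -/
def spChart {ι : Type} [DecidableEq ι] (μ : ι → Mouth) {F : Finset (Option ι × (ℤ × ℤ))} {R : Finset (ℤ × ℤ)}
    (s t : ℤ × ℤ → Option ι) (hc : ∀ f ∈ R, ∀ k, msig μ f k (s f) = t (ZQ.c f k))
    (hF : ∀ f ∈ R, (s f, f) ∈ F) : PChart (SP μ) F R where
  φV := fun v => (t v, v)
  φF := fun f => (s f, f)
  cor := fun f hf k => Prod.ext (hc f hf k) rfl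
  inj := fun _ _ _ _ _ _ h => (Prod.mk.inj h).2
  sub := hF

theorem msig_eq_one {ι : Type} {μ : ι → Mouth} {f : ℤ × ℤ} {k : ZMod 4} (h : ∀ i, ¬ (μ i).adj f k)
    (s : Option ι) : msig μ f k s = s := by
  unfold msig
  rw [dif_neg (fun ⟨i, hi⟩ => h i hi)]
  rfl

open Classical in
theorem msig_swap {ι : Type} {μ : ι → Mouth} {f : ℤ × ℤ} {k : ZMod 4} {i : ι}
    (h : (μ i).adj f k) (hu : ∀ j, (μ j).adj f k → j = i) : msig μ f k (some i) = none := by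
  unfold msig
  have hex : ∃ j, (μ j).adj f k := ⟨i, h⟩
  rw [dif_pos hex, hu _ hex.choose_spec]
  exact Equiv.swap_apply_right _ _

/-! ## The embedding of a cut polygon -/

/-- the pockets of `E` are the parts of the polygon `D` cut along the slab `[x₁, x₂) × [s₁, s₂)` -/
structure EData (E : SEnv) (D : Finset (ℤ × ℤ)) (x₁ x₂ w₁ w₂ s₁ s₂ : ℤ) : Prop where
  hD : MPoly D
  win : SlabIn (D : Set (ℤ × ℤ)) x₁ x₂ w₁ w₂
  h1 : w₁ < s₁
  h2 : s₁ < s₂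
  h3 : s₂ < w₂
  hU : E.U = CUp D x₁ x₂ s₁ s₂
  hL : E.L = CLo D x₁ x₂ s₁ s₂
  gu1 : E.gu.x1 = x₁
  gu2 : E.gu.x2 = x₂
  gus : E.gu.yc + E.gu.a = s₂
  guc : E.gu.a < E.gu.c
  gd1 : E.gd.x1 = x₁
  gd2 : E.gd.x2 = x₂
  gds : E.gd.yc - E.gd.a = s₁
  gdc : E.gd.a < E.gd.c
  W : slab x₁ x₂ s₁ s₂ ⊆ E.W

namespace Emb

open Classical in
/-- the sheet of a face -/
def shF (E : SEnv) (f : ℤ × ℤ) : Option Bool :=
  if f ∈ E.U then some true else if f ∈ E.L then some false else none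

open Classical in
/-- the sheet of a vertex, `[x₁, x₂] × [s₁, s₂]` the closed slab -/
def shV (E : SEnv) (x₁ x₂ s₁ s₂ : ℤ) (v : ℤ × ℤ) : Option Bool :=
  if x₁ ≤ v.1 ∧ v.1 ≤ x₂ ∧ s₁ ≤ v.2 ∧ v.2 ≤ s₂ then none
  else if ∃ f ∈ E.U, ∃ k, ZQ.c f k = v then some true
  else if ∃ f ∈ E.L, ∃ k, ZQ.c f k = v then some false else none

theorem adj_up (E : SEnv) (f : ℤ × ℤ) (k : ZMod 4) :
    ((if true = true then E.gu.mouth true else E.gd.mouth false) : Mouth).adj f k ↔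
      E.gu.x1 ≤ f.1 ∧ f.1 < E.gu.x2 ∧ f.2 = E.gu.yc + E.gu.a ∧ (k = 0 ∨ k = 1) := by
  simp [Mouth.adj, BGeo.mouth]

theorem adj_dn (E : SEnv) (f : ℤ × ℤ) (k : ZMod 4) :
    ((if false = true then E.gu.mouth true else E.gd.mouth false) : Mouth).adj f k ↔
      E.gd.x1 ≤ f.1 ∧ f.1 < E.gd.x2 ∧ f.2 + 1 = E.gd.yc - E.gd.a ∧ (k = 2 ∨ k = 3) := by
  simp [Mouth.adj, BGeo.mouth]

theorem corner_cases (f : ℤ × ℤ) (k : ZMod 4) :
    (k = 0 ∧ ZQ.c f k = f) ∨ (k = 1 ∧ ZQ.c f k = (f.1 + 1, f.2)) ∨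
      (k = 2 ∧ ZQ.c f k = (f.1 + 1, f.2 + 1)) ∨ (k = 3 ∧ ZQ.c f k = (f.1, f.2 + 1)) := by
  rcases k4_cases k with rfl | rfl | rfl | rfl
  · exact Or.inl ⟨rfl, rfl⟩
  · exact Or.inr (Or.inl ⟨rfl, rfl⟩)
  · exact Or.inr (Or.inr (Or.inl ⟨rfl, rfl⟩))
  · exact Or.inr (Or.inr (Or.inr ⟨rfl, rfl⟩))

variable {E : SEnv} {D : Finset (ℤ × ℤ)} {x₁ x₂ w₁ w₂ s₁ s₂ : ℤ}

/-- base faces are not glued: their corners are in the base sheet -/
theorem base_sig (E : SEnv) (hu : E.gu.a < E.gu.c) (hd : E.gd.a < E.gd.c) {f : ℤ × ℤ}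
    (hf : f ∈ E.base) (k : ZMod 4) : (E.Q.c (none, f) k) = (none, ZQ.c f k) := by
  unfold SEnv.base at hf
  rw [Finset.mem_filter] at hf
  obtain ⟨-, h1, h2⟩ := hf
  refine Prod.ext ?_ rfl
  show msig _ f k none = none
  refine msig_eq_one ?_ none
  rintro (_ | _) h
  · rw [adj_dn] at h
    refine h2 ⟨?_, ?_, ?_, ?_, ?_⟩
    · simp only [BGeo.hgt]; simp; omega
    · simp only [BGeo.hgt]; simp; omega
    · omega
    · omega
    · rintro ⟨h3, -⟩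
      unfold BGeo.cham at h3
      omega
  · rw [adj_up] at h
    refine h1 ⟨?_, ?_, ?_, ?_, ?_⟩
    · simp only [BGeo.hgt]; simp; omega
    · simp only [BGeo.hgt]; simp; omega
    · omega
    · omega
    · rintro ⟨h3, -⟩
      unfold BGeo.cham at h3
      omega

/-- the slab faces are base faces -/
theorem slab_base (h : EData E D x₁ x₂ w₁ w₂ s₁ s₂) {f : ℤ × ℤ} (hf : f ∈ slab x₁ x₂ s₁ s₂) :
    f ∈ E.base := by
  have h0 := h.W hf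
  rw [mem_RF] at hf
  have h1 := h.gus
  have h2 := h.gds
  unfold SEnv.base
  rw [Finset.mem_filter]
  refine ⟨h0, ?_, ?_⟩
  · rintro ⟨h3, -⟩
    simp only [BGeo.hgt, if_true] at h3
    omega
  · rintro ⟨h3, -⟩
    simp [BGeo.hgt] at h3
    omega

/-- a face of `D` off the slab with a corner in the closed slab -/
theorem touch (h : EData E D x₁ x₂ w₁ w₂ s₁ s₂) {f : ℤ × ℤ} {k : ZMod 4} (hf : f ∈ D)
    (hfS : f ∉ slab x₁ x₂ s₁ s₂)
    (hv : x₁ ≤ (ZQ.c f k).1 ∧ (ZQ.c f k).1 ≤ x₂ ∧ s₁ ≤ (ZQ.c f k).2 ∧ (ZQ.c f k).2 ≤ s₂) :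
    (f ∈ E.U ∧ x₁ ≤ f.1 ∧ f.1 < x₂ ∧ f.2 = s₂ ∧ (k = 0 ∨ k = 1)) ∨
      (f ∈ E.L ∧ x₁ ≤ f.1 ∧ f.1 < x₂ ∧ f.2 = s₁ - 1 ∧ (k = 2 ∨ k = 3)) := by
  have hx := h.win.hx
  have h2 := h.h2
  have hc := corner_cases f k
  rw [mem_RF] at hfS
  have h1 := h.h1
  have h3 := h.h3
  obtain ⟨fx, fy⟩ := f
  simp only at hc hfS ⊢
  generalize ZQ.c (fx, fy) k = v at hv hc
  obtain ⟨vx, vy⟩ := v
  simp only at hv
  have hcc : (k = 0 ∧ vx = fx ∧ vy = fy) ∨ (k = 1 ∧ vx = fx + 1 ∧ vy = fy) ∨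
      (k = 2 ∧ vx = fx + 1 ∧ vy = fy + 1) ∨ (k = 3 ∧ vx = fx ∧ vy = fy + 1) := by
    rcases hc with ⟨h5, h6⟩ | ⟨h5, h6⟩ | ⟨h5, h6⟩ | ⟨h5, h6⟩ <;> rw [Prod.mk.injEq] at h6 <;>
      simp [h5, h6]
  have h4 : x₁ ≤ fx := by
    by_contra h5
    have h6 : fx = x₁ - 1 := by omega
    rw [h6] at hf
    exact h.win.left fy (by omega) (by omega) hf
  have h5 : fx < x₂ := by
    by_contra h5
    have h6 : fx = x₂ := by omega
    rw [h6] at hf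
    exact h.win.right fy (by omega) (by omega) hf
  rcases (by omega : fy = s₂ ∨ fy = s₁ - 1) with h6 | h6
  · left
    refine ⟨?_, h4, h5, h6, ?_⟩
    · rw [h.hU, h6]
      exact up_window h.win h1 h2 h4 h5 le_rfl h3
    · rcases hcc with h7 | h7 | h7 | h7
      · exact Or.inl h7.1
      · exact Or.inr h7.1
      · exfalso; omega
      · exfalso; omega
  · right
    refine ⟨?_, h4, h5, h6, ?_⟩
    · rw [h.hL, h6]
      exact lo_window h.win h2 h3 h4 h5 (by omega) (by omega)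
    · rcases hcc with h7 | h7 | h7 | h7
      · exfalso; omega
      · exfalso; omega
      · exact Or.inl h7.1
      · exact Or.inr h7.1

theorem mem_cases (h : EData E D x₁ x₂ w₁ w₂ s₁ s₂) {f : ℤ × ℤ} (hf : f ∈ D) :
    (f ∈ E.U ∧ f ∉ E.L ∧ f ∉ slab x₁ x₂ s₁ s₂) ∨ (f ∈ E.L ∧ f ∉ E.U ∧ f ∉ slab x₁ x₂ s₁ s₂) ∨
      (f ∈ slab x₁ x₂ s₁ s₂ ∧ f ∉ E.U ∧ f ∉ E.L) := by
  have h1 : f ∈ CUp D x₁ x₂ s₁ s₂ ∪ slab x₁ x₂ s₁ s₂ ∪ CLo D x₁ x₂ s₁ s₂ := by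
    rw [up_slab_lo h.hD.conn h.win h.h1 h.h2 h.h3]; exact hf
  have h2 := Finset.disjoint_left.1 (up_slab (D := D) (x₁ := x₁) (x₂ := x₂) (s₁ := s₁) (s₂ := s₂))
  have h3 := Finset.disjoint_left.1 (lo_slab (D := D) (x₁ := x₁) (x₂ := x₂) (s₁ := s₁) (s₂ := s₂))
  have h4 := Finset.disjoint_left.1 (up_lo h.hD.compl h.win h.h1 h.h2 h.h3)
  rw [← h.hU] at h1 h2 h4
  rw [← h.hL] at h1 h3 h4
  rw [Finset.mem_union, Finset.mem_union] at h1
  rcases h1 with (h1 | h1) | h1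
  · exact Or.inl ⟨h1, h4 h1, h2 h1⟩
  · exact Or.inr (Or.inr ⟨h1, fun h5 => h2 h5 h1, fun h5 => h3 h5 h1⟩)
  · exact Or.inr (Or.inl ⟨h1, fun h5 => h4 h5 h1, h3 h1⟩)

theorem sub_U (h : EData E D x₁ x₂ w₁ w₂ s₁ s₂) {f : ℤ × ℤ} (hf : f ∈ E.U) : f ∈ D := by
  rw [h.hU] at hf; exact up_sub hf

theorem sub_L (h : EData E D x₁ x₂ w₁ w₂ s₁ s₂) {f : ℤ × ℤ} (hf : f ∈ E.L) : f ∈ D := by
  rw [h.hL] at hf; exact lo_sub hf

/-- sheets of the corners -/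
theorem sig_U (h : EData E D x₁ x₂ w₁ w₂ s₁ s₂) {f : ℤ × ℤ} (hf : f ∈ E.U) (k : ZMod 4) :
    E.Q.c (some true, f) k = (shV E x₁ x₂ s₁ s₂ (ZQ.c f k), ZQ.c f k) := by
  have hfD := sub_U h hf
  have hm : f ∉ E.L ∧ f ∉ slab x₁ x₂ s₁ s₂ := by
    rcases mem_cases h hfD with h1 | h1 | h1
    · exact h1.2
    · exact absurd hf h1.2.1
    · exact absurd hf h1.2.1
  refine Prod.ext ?_ rfl
  show msig _ f k (some true) = shV E x₁ x₂ s₁ s₂ (ZQ.c f k)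
  by_cases hv : x₁ ≤ (ZQ.c f k).1 ∧ (ZQ.c f k).1 ≤ x₂ ∧ s₁ ≤ (ZQ.c f k).2 ∧ (ZQ.c f k).2 ≤ s₂
  · unfold shV
    rw [if_pos hv]
    rcases touch h hfD hm.2 hv with h1 | h1
    · refine msig_swap (i := true) ?_ ?_
      · rw [adj_up, h.gu1, h.gu2, h.gus]
        exact h1.2
      · rintro (_ | _) h2
        · rw [adj_dn, h.gds] at h2
          have := h.h2
          omega
        · rfl
    · exact absurd h1.1 hm.1
  · unfold shV
    rw [if_neg hv, if_pos ⟨f, hf, k, rfl⟩]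
    refine msig_eq_one ?_ _
    have hc := corner_cases f k
    have h2 := h.h2
    rintro (_ | _) h1
    · rw [adj_dn, h.gds, h.gd1, h.gd2] at h1
      refine hm.1 ?_
      rw [h.hL]
      have h5 := lo_window h.win h.h2 h.h3 h1.1 h1.2.1 (y := f.2) (by have := h.h1; omega)
        (by omega)
      exact h5
    · rw [adj_up, h.gus, h.gu1, h.gu2] at h1
      refine hv ?_
      rcases hc with ⟨h5, h6⟩ | ⟨h5, h6⟩ | ⟨h5, h6⟩ | ⟨h5, h6⟩ <;> rw [h6] <;> subst h5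
      · omega
      · simp only; omega
      · exact absurd h1.2.2.2 (by decide)
      · exact absurd h1.2.2.2 (by decide)

theorem no_U (h : EData E D x₁ x₂ w₁ w₂ s₁ s₂) {f : ℤ × ℤ} (hf : f ∈ E.L) (k : ZMod 4) :
    ¬ ∃ g ∈ E.U, ∃ l, ZQ.c g l = ZQ.c f k := by
  have hc := corner_cases f k
  rintro ⟨g, hg, l, h1⟩
  have hc' := corner_cases g l
  rw [h1] at hc'
  refine up_lo_touch h.hD h.win h.h1 h.h2 h.h3 (f := g) (g := f) (by rw [← h.hU]; exact hg)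
    (by rw [← h.hL]; exact hf) ?_ ?_
  · rw [abs_le]
    rcases hc with ⟨-, h6⟩ | ⟨-, h6⟩ | ⟨-, h6⟩ | ⟨-, h6⟩ <;>
      rcases hc' with ⟨-, h7⟩ | ⟨-, h7⟩ | ⟨-, h7⟩ | ⟨-, h7⟩ <;>
      rw [h6, Prod.ext_iff] at h7 <;> (try simp only at h7) <;> omega
  · rw [abs_le]
    rcases hc with ⟨-, h6⟩ | ⟨-, h6⟩ | ⟨-, h6⟩ | ⟨-, h6⟩ <;>
      rcases hc' with ⟨-, h7⟩ | ⟨-, h7⟩ | ⟨-, h7⟩ | ⟨-, h7⟩ <;>
      rw [h6, Prod.ext_iff] at h7 <;> (try simp only at h7) <;> omega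

theorem sig_L (h : EData E D x₁ x₂ w₁ w₂ s₁ s₂) {f : ℤ × ℤ} (hf : f ∈ E.L) (k : ZMod 4) :
    E.Q.c (some false, f) k = (shV E x₁ x₂ s₁ s₂ (ZQ.c f k), ZQ.c f k) := by
  have hfD := sub_L h hf
  have hm : f ∉ E.U ∧ f ∉ slab x₁ x₂ s₁ s₂ := by
    rcases mem_cases h hfD with h1 | h1 | h1
    · exact absurd hf h1.2.1
    · exact h1.2
    · exact absurd hf h1.2.2
  refine Prod.ext ?_ rfl
  show msig _ f k (some false) = shV E x₁ x₂ s₁ s₂ (ZQ.c f k)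
  have hc := corner_cases f k
  by_cases hv : x₁ ≤ (ZQ.c f k).1 ∧ (ZQ.c f k).1 ≤ x₂ ∧ s₁ ≤ (ZQ.c f k).2 ∧ (ZQ.c f k).2 ≤ s₂
  · unfold shV
    rw [if_pos hv]
    rcases touch h hfD hm.2 hv with h1 | h1
    · exact absurd h1.1 hm.1
    · refine msig_swap (i := false) ?_ ?_
      · rw [adj_dn, h.gd1, h.gd2, h.gds]
        exact ⟨h1.2.1, h1.2.2.1, by omega, h1.2.2.2.2⟩
      · rintro (_ | _) h2
        · rfl
        · rw [adj_up, h.gus] at h2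
          have := h.h2
          omega
  · have hnU := no_U h hf k
    unfold shV
    rw [if_neg hv, if_neg hnU, if_pos ⟨f, hf, k, rfl⟩]
    refine msig_eq_one ?_ _
    have h2 := h.h2
    rintro (_ | _) h1
    · rw [adj_dn, h.gds, h.gd1, h.gd2] at h1
      refine hv ?_
      rcases hc with ⟨h5, h6⟩ | ⟨h5, h6⟩ | ⟨h5, h6⟩ | ⟨h5, h6⟩ <;> rw [h6] <;> subst h5
      · exact absurd h1.2.2.2 (by decide)
      · exact absurd h1.2.2.2 (by decide)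
      · simp only; omega
      · simp only; omega
    · rw [adj_up, h.gus, h.gu1, h.gu2] at h1
      refine hm.1 ?_
      rw [h.hU]
      exact up_window h.win h.h1 h.h2 h1.1 h1.2.1 (y := f.2) (by omega) (by have := h.h3; omega)

theorem sig_S (h : EData E D x₁ x₂ w₁ w₂ s₁ s₂) {f : ℤ × ℤ} (hf : f ∈ slab x₁ x₂ s₁ s₂)
    (k : ZMod 4) : E.Q.c (none, f) k = (shV E x₁ x₂ s₁ s₂ (ZQ.c f k), ZQ.c f k) := by
  rw [base_sig E h.guc h.gdc (slab_base h hf)]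
  refine Prod.ext ?_ rfl
  show none = shV E x₁ x₂ s₁ s₂ (ZQ.c f k)
  unfold shV
  rw [if_pos]
  rw [mem_RF] at hf
  rcases corner_cases f k with ⟨-, h6⟩ | ⟨-, h6⟩ | ⟨-, h6⟩ | ⟨-, h6⟩ <;> rw [h6] <;>
    (try simp only) <;> omega

end Emb

open Emb

variable {E : SEnv} {D : Finset (ℤ × ℤ)} {x₁ x₂ w₁ w₂ s₁ s₂ : ℤ}

theorem Emb.cor_D (h : EData E D x₁ x₂ w₁ w₂ s₁ s₂) {f : ℤ × ℤ} (hf : f ∈ D) (k : ZMod 4) :
    E.Q.c (shF E f, f) k = (shV E x₁ x₂ s₁ s₂ (ZQ.c f k), ZQ.c f k) := by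
  rcases mem_cases h hf with ⟨h1, -⟩ | ⟨h1, h2, -⟩ | ⟨h1, h2, h3⟩
  · have e : shF E f = some true := by unfold shF; rw [if_pos h1]
    rw [e]; exact sig_U h h1 k
  · have e : shF E f = some false := by unfold shF; rw [if_neg h2, if_pos h1]
    rw [e]; exact sig_L h h1 k
  · have e : shF E f = none := by unfold shF; rw [if_neg h2, if_neg h3]
    rw [e]; exact sig_S h h1 k

theorem Emb.mem_F (h : EData E D x₁ x₂ w₁ w₂ s₁ s₂) {f : ℤ × ℤ} (hf : f ∈ D) :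
    (shF E f, f) ∈ E.F := by
  unfold SEnv.F
  rw [Finset.mem_union, Finset.mem_union, Finset.mem_image, Finset.mem_image, Finset.mem_image]
  rcases mem_cases h hf with ⟨h1, -⟩ | ⟨h1, h2, -⟩ | ⟨h1, h2, h3⟩
  · have e : shF E f = some true := by unfold shF; rw [if_pos h1]
    rw [e]; exact Or.inl (Or.inr ⟨f, h1, rfl⟩)
  · have e : shF E f = some false := by unfold shF; rw [if_neg h2, if_pos h1]
    rw [e]; exact Or.inr ⟨f, h1, rfl⟩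
  · have e : shF E f = none := by unfold shF; rw [if_neg h2, if_neg h3]
    rw [e]; exact Or.inl (Or.inl ⟨f, slab_base h h1, rfl⟩)

/-- **the chart of the polygon in the environment** -/
def EData.emb (h : EData E D x₁ x₂ w₁ w₂ s₁ s₂) : PChart E.Q E.F D where
  φV := fun v => (shV E x₁ x₂ s₁ s₂ v, v)
  φF := fun f => (shF E f, f)
  cor := fun _ hf k => cor_D h hf k
  inj := fun _ _ _ _ _ _ h => (Prod.mk.inj h).2
  sub := fun _ hf => mem_F h hf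

/-- a boundary side of `D` which is not a side of the slab has an end off the closed slab -/
theorem Emb.off_slab (h : EData E D x₁ x₂ w₁ w₂ s₁ s₂) {f : ℤ × ℤ} {k : ZMod 4} (hf : f ∈ D)
    (hfS : f ∉ slab x₁ x₂ s₁ s₂) (hb : Ini ZQ (D : Set (ℤ × ℤ)) (sd ZQ f k)) :
    ¬ ((x₁ ≤ (ZQ.c f k).1 ∧ (ZQ.c f k).1 ≤ x₂ ∧ s₁ ≤ (ZQ.c f k).2 ∧ (ZQ.c f k).2 ≤ s₂) ∧
      (x₁ ≤ (ZQ.c f (k + 1)).1 ∧ (ZQ.c f (k + 1)).1 ≤ x₂ ∧ s₁ ≤ (ZQ.c f (k + 1)).2 ∧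
        (ZQ.c f (k + 1)).2 ≤ s₂)) := by
  rintro ⟨h1, h2⟩
  have hS := slab_sub h.win h.h1 h.h3
  have hx := h.win.hx
  have h12 := h.h2
  rcases touch h hf hfS h1 with ⟨a1, a2, a3, a4, a5⟩ | ⟨a1, a2, a3, a4, a5⟩ <;>
    rcases touch h hf hfS h2 with ⟨b1, b2, b3, b4, b5⟩ | ⟨b1, b2, b3, b4, b5⟩
  · obtain rfl : k = 0 := by
      rcases a5 with rfl | rfl
      · rfl
      · exact absurd b5 (by decide)
    obtain ⟨fx, fy⟩ := f
    simp only at a2 a3 a4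
    have hg : (fx, fy - 1) ∈ slab x₁ x₂ s₁ s₂ := by rw [mem_RF]; simp only; omega
    refine hb (fx, fy - 1) (hS hg) 2 ?_
    rw [sd_ZQ0]
    show _ = (ZQ.c (fx, fy - 1) (2 + 1), ZQ.c (fx, fy - 1) 2)
    have e1 : ZQ.c (fx, fy - 1) (2 + 1) = (fx, fy - 1 + 1) := rfl
    have e2 : ZQ.c (fx, fy - 1) 2 = (fx + 1, fy - 1 + 1) := rfl
    rw [e1, e2, sub_add_cancel]
  · omega
  · omega
  · obtain rfl : k = 2 := by
      rcases a5 with rfl | rfl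
      · rfl
      · exact absurd b5 (by decide)
    obtain ⟨fx, fy⟩ := f
    simp only at a2 a3 a4
    have hg : (fx, fy + 1) ∈ slab x₁ x₂ s₁ s₂ := by rw [mem_RF]; simp only; omega
    refine hb (fx, fy + 1) (hS hg) 0 ?_
    rw [sd_ZQ2]
    rfl

theorem Emb.shV_U (_ : EData E D x₁ x₂ w₁ w₂ s₁ s₂) {f : ℤ × ℤ} {k : ZMod 4} (hf : f ∈ E.U) :
    shV E x₁ x₂ s₁ s₂ (ZQ.c f k) ≠ some false ∧
      (¬ (x₁ ≤ (ZQ.c f k).1 ∧ (ZQ.c f k).1 ≤ x₂ ∧ s₁ ≤ (ZQ.c f k).2 ∧ (ZQ.c f k).2 ≤ s₂) →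
        shV E x₁ x₂ s₁ s₂ (ZQ.c f k) = some true) := by
  by_cases hv : x₁ ≤ (ZQ.c f k).1 ∧ (ZQ.c f k).1 ≤ x₂ ∧ s₁ ≤ (ZQ.c f k).2 ∧ (ZQ.c f k).2 ≤ s₂
  · refine ⟨?_, fun h1 => absurd hv h1⟩
    unfold shV
    rw [if_pos hv]
    simp
  · have e : shV E x₁ x₂ s₁ s₂ (ZQ.c f k) = some true := by
      unfold shV
      rw [if_neg hv, if_pos ⟨f, hf, k, rfl⟩]
    rw [e]
    exact ⟨by simp, fun _ => rfl⟩

theorem Emb.shV_L (h : EData E D x₁ x₂ w₁ w₂ s₁ s₂) {f : ℤ × ℤ} {k : ZMod 4} (hf : f ∈ E.L) :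
    shV E x₁ x₂ s₁ s₂ (ZQ.c f k) ≠ some true ∧
      (¬ (x₁ ≤ (ZQ.c f k).1 ∧ (ZQ.c f k).1 ≤ x₂ ∧ s₁ ≤ (ZQ.c f k).2 ∧ (ZQ.c f k).2 ≤ s₂) →
        shV E x₁ x₂ s₁ s₂ (ZQ.c f k) = some false) := by
  by_cases hv : x₁ ≤ (ZQ.c f k).1 ∧ (ZQ.c f k).1 ≤ x₂ ∧ s₁ ≤ (ZQ.c f k).2 ∧ (ZQ.c f k).2 ≤ s₂
  · refine ⟨?_, fun h1 => absurd hv h1⟩
    unfold shV
    rw [if_pos hv]
    simp
  · have e : shV E x₁ x₂ s₁ s₂ (ZQ.c f k) = some false := by
      unfold shV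
      rw [if_neg hv, if_neg (no_U h hf k), if_pos ⟨f, hf, k, rfl⟩]
    rw [e]
    exact ⟨by simp, fun _ => rfl⟩

/-- the image of a boundary side of `D` off the slab -/
theorem EData.emb_bS (h : EData E D x₁ x₂ w₁ w₂ s₁ s₂) {f : ℤ × ℤ} {k : ZMod 4} (hf : f ∈ D)
    (hfS : f ∉ slab x₁ x₂ s₁ s₂) (hb : Ini ZQ (D : Set (ℤ × ℤ)) (sd ZQ f k)) :
    h.emb.side (sd ZQ f k) ∈ bS E.Q E.F := by
  rw [mem_bS]
  constructor
  · rw [h.emb.side_sd hf]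
    unfold dE
    rw [Finset.mem_biUnion]
    refine ⟨_, h.emb.sub f hf, ?_⟩
    rw [Finset.mem_biUnion]
    exact ⟨k, Finset.mem_univ _, by simp⟩
  · rintro ⟨s, g⟩ hg l hl
    have h1 : sd ZQ f k = (ZQ.c g (l + 1), ZQ.c g l) := by
      have h2 := congrArg (fun a => ((a.1.2, a.2.2) : (ℤ × ℤ) × (ℤ × ℤ))) hl
      exact h2
    have hgD : g ∉ D := fun h2 => hb g h2 l h1
    rw [Finset.mem_coe] at hg
    unfold SEnv.F at hg
    simp only [Finset.mem_union, Finset.mem_image, Prod.mk.injEq] at hg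
    rcases hg with (⟨g', hg1, rfl, rfl⟩ | ⟨g', hg1, rfl, rfl⟩) | ⟨g', hg1, rfl, rfl⟩
    · rw [base_sig E h.guc h.gdc hg1, base_sig E h.guc h.gdc hg1] at hl
      have h3 : shV E x₁ x₂ s₁ s₂ (ZQ.c f k) = none := (congrArg (fun a => a.1.1) hl)
      have h4 : shV E x₁ x₂ s₁ s₂ (ZQ.c f (k + 1)) = none := (congrArg (fun a => a.2.1) hl)
      refine off_slab h hf hfS hb ?_
      rcases mem_cases h hf with ⟨a1, -⟩ | ⟨a1, -⟩ | ⟨a1, -⟩
      · constructor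
        · by_contra h5
          rw [(shV_U h a1).2 h5] at h3
          exact absurd h3 (by simp)
        · by_contra h5
          rw [(shV_U h a1).2 h5] at h4
          exact absurd h4 (by simp)
      · constructor
        · by_contra h5
          rw [(shV_L h a1).2 h5] at h3
          exact absurd h3 (by simp)
        · by_contra h5
          rw [(shV_L h a1).2 h5] at h4
          exact absurd h4 (by simp)
      · exact absurd a1 hfS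
    · exact hgD (sub_U h hg1)
    · exact hgD (sub_L h hg1)

/-- the sheets of the ends of a boundary side of `D` off the slab -/
theorem Emb.ends (h : EData E D x₁ x₂ w₁ w₂ s₁ s₂) {f : ℤ × ℤ} {k : ZMod 4} (hf : f ∈ D)
    (hfS : f ∉ slab x₁ x₂ s₁ s₂) (hb : Ini ZQ (D : Set (ℤ × ℤ)) (sd ZQ f k)) :
    ((shV E x₁ x₂ s₁ s₂ (ZQ.c f k) = some true ∨ shV E x₁ x₂ s₁ s₂ (ZQ.c f (k + 1)) = some true)) ∨
    ((shV E x₁ x₂ s₁ s₂ (ZQ.c f k) = some false ∨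
      shV E x₁ x₂ s₁ s₂ (ZQ.c f (k + 1)) = some false) ∧
      shV E x₁ x₂ s₁ s₂ (ZQ.c f k) ≠ some true ∧ shV E x₁ x₂ s₁ s₂ (ZQ.c f (k + 1)) ≠ some true) := by
  have h1 := off_slab h hf hfS hb
  rw [not_and_or] at h1
  rcases mem_cases h hf with ⟨a1, -⟩ | ⟨a1, -⟩ | ⟨a1, -⟩
  · left
    rcases h1 with h1 | h1
    · exact Or.inl ((shV_U h a1).2 h1)
    · exact Or.inr ((shV_U h a1).2 h1)
  · right
    refine ⟨?_, (shV_L h a1).1, (shV_L h a1).1⟩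
    rcases h1 with h1 | h1
    · exact Or.inl ((shV_L h a1).2 h1)
    · exact Or.inr ((shV_L h a1).2 h1)
  · exact absurd a1 hfS

/-- the image is an island side -/
theorem EData.emb_Z (h : EData E D x₁ x₂ w₁ w₂ s₁ s₂) {f : ℤ × ℤ} {k : ZMod 4} (hf : f ∈ D)
    (hfS : f ∉ slab x₁ x₂ s₁ s₂) (hb : Ini ZQ (D : Set (ℤ × ℤ)) (sd ZQ f k)) :
    h.emb.side (sd ZQ f k) ∈ E.Z := by
  classical
  unfold SEnv.Z
  rw [Finset.mem_filter]
  refine ⟨h.emb_bS hf hfS hb, ?_⟩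
  have h1 : (h.emb.side (sd ZQ f k)).1.1 = shV E x₁ x₂ s₁ s₂ (ZQ.c f k) := rfl
  have h2 : (h.emb.side (sd ZQ f k)).2.1 = shV E x₁ x₂ s₁ s₂ (ZQ.c f (k + 1)) := rfl
  rw [h1, h2]
  rcases ends h hf hfS hb with (h3 | h3) | ⟨h3 | h3, -⟩ <;> rw [h3] <;> simp

/-- the phase of the image -/
theorem EData.emb_psi (h : EData E D x₁ x₂ w₁ w₂ s₁ s₂) {f : ℤ × ℤ} {k : ZMod 4} (hf : f ∈ D)
    (hfS : f ∉ slab x₁ x₂ s₁ s₂) (hb : Ini ZQ (D : Set (ℤ × ℤ)) (sd ZQ f k)) (mu ρu ml ρl : ℝ)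
    (ψ : (ℤ × ℤ) × (ℤ × ℤ) → ℝ) :
    E.psi mu ρu ml ρl ψ ψ (h.emb.side (sd ZQ f k)) = ψ (sd ZQ f k) := by
  have h1 : (h.emb.side (sd ZQ f k)).1.1 = shV E x₁ x₂ s₁ s₂ (ZQ.c f k) := rfl
  have h2 : (h.emb.side (sd ZQ f k)).2.1 = shV E x₁ x₂ s₁ s₂ (ZQ.c f (k + 1)) := rfl
  have h3 : SEnv.pl (h.emb.side (sd ZQ f k)) = sd ZQ f k := rfl
  unfold SEnv.psi
  rw [h1, h2, h3]
  rcases ends h hf hfS hb with h4 | ⟨h4, h5, h6⟩
  · rw [if_pos h4]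
  · rw [if_neg (by tauto), if_pos h4]

/-- not a side of the slab -/
def OffS (x₁ x₂ s₁ s₂ : ℤ) (a : (ℤ × ℤ) × (ℤ × ℤ)) : Prop :=
  ∀ f ∈ slab x₁ x₂ s₁ s₂, ∀ k, a ≠ sd ZQ f k

theorem offS_of {a : (ℤ × ℤ) × (ℤ × ℤ)} (h : ¬ (x₁ ≤ a.1.1 ∧ a.1.1 ≤ x₂ ∧ s₁ ≤ a.1.2 ∧ a.1.2 ≤ s₂ ∧
    x₁ ≤ a.2.1 ∧ a.2.1 ≤ x₂ ∧ s₁ ≤ a.2.2 ∧ a.2.2 ≤ s₂)) : OffS x₁ x₂ s₁ s₂ a := by
  rintro f hf k rfl
  refine h ?_
  rw [mem_RF] at hf
  unfold sd
  simp only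
  rcases corner_cases f k with ⟨-, h6⟩ | ⟨-, h6⟩ | ⟨-, h6⟩ | ⟨-, h6⟩ <;>
    rcases corner_cases f (k + 1) with ⟨-, h7⟩ | ⟨-, h7⟩ | ⟨-, h7⟩ | ⟨-, h7⟩ <;>
    rw [h6, h7] <;> (try simp only) <;> omega

/-- **the embedding keeps the boundary sides off the slab, their phases; they are island sides** -/
theorem EData.keeps (h : EData E D x₁ x₂ w₁ w₂ s₁ s₂) (mu ρu ml ρl : ℝ)
    (ψ : (ℤ × ℤ) × (ℤ × ℤ) → ℝ) :
    h.emb.Keeps (OffS x₁ x₂ s₁ s₂) E.Z (E.psi mu ρu ml ρl ψ ψ) ψ := by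
  have key : ∀ a ∈ bS ZQ D, OffS x₁ x₂ s₁ s₂ a → ∃ f ∈ D, ∃ k, a = sd ZQ f k ∧
      f ∉ slab x₁ x₂ s₁ s₂ ∧ Ini ZQ (D : Set (ℤ × ℤ)) (sd ZQ f k) := by
    intro a ha hP
    obtain ⟨f, hf, k, rfl⟩ := exists_sd_of_bS ha
    exact ⟨f, hf, k, rfl, fun hfS => hP f hfS k rfl, (mem_bS.1 ha).2⟩
  refine ⟨?_, ?_, ?_⟩
  · intro a ha hP
    obtain ⟨f, hf, k, rfl, hfS, hb⟩ := key a ha hP
    exact h.emb_bS hf hfS hb
  · intro a ha hP
    obtain ⟨f, hf, k, rfl, hfS, hb⟩ := key a ha hP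
    exact h.emb_psi hf hfS hb _ _ _ _ _
  · intro a ha hP
    obtain ⟨f, hf, k, rfl, hfS, hb⟩ := key a ha hP
    exact h.emb_Z hf hfS hb

/-- the images of different faces are different -/
theorem EData.emb_injF (h : EData E D x₁ x₂ w₁ w₂ s₁ s₂) {f g : ℤ × ℤ}
    (hfg : h.emb.φF f = h.emb.φF g) : f = g := congrArg Prod.snd hfg

end

end Pool.Agent.SixB
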