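import Pool.Agent.Lib.SixB.S3EmbD

/-!
# 6BD step 3, row R9 (E4): halves and shifted blocks

* `EmbH`: sheets of the corners of the faces of an environment, without hypotheses on the relative position of
  the two blocks; `bS_U`, `bS_L`, `Z_U`, `Z_L`, `psi_U`, `psi_L`: the walls of the pockets.
* `Slb.Ok.shr`: the chart of `D` minus the slab in `S.env W X Y` (upper part shifted by `X`, lower part by `Y`),
  `Slb.Ok.keepsShr`.
* `Slb.Ok.pushShr`: a flat atlas of `D` covers in `S.env W X Y` the images of the sides at distance more than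
  `3 r + 2` from the closed slab; `pushHi`, `pushLo`, `pushLf`: the same in the halves `hi`, `lo`, `lf`.
-/

set_option autoImplicit false
set_option linter.unusedSectionVars false

namespace Pool.Agent.SixB

open Pool.Agent.Perc.Q Pool.Agent.Perc

noncomputable section

namespace EmbH

theorem k_aux1 : ∀ k : ZMod 4, (k = 0 ∨ k = 1) → (k + 1 = 0 ∨ k + 1 = 1) → k = 0 := by decide

theorem k_aux2 : ∀ k : ZMod 4, (k = 2 ∨ k = 3) → (k + 1 = 2 ∨ k + 1 = 3) → k = 2 := by decide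

variable {E : SEnv} {f g : ℤ × ℤ} {k l : ZMod 4} {s : Option Bool}

/-- the sheet of the corner `k` of the face `(s, f)` -/
def shf (E : SEnv) (f : ℤ × ℤ) (k : ZMod 4) (s : Option Bool) : Option Bool :=
  (msig (fun i : Bool => if i then E.gu.mouth true else E.gd.mouth false) f k) s

theorem Q_c (E : SEnv) (s : Option Bool) (f : ℤ × ℤ) (k : ZMod 4) :
    E.Q.c (s, f) k = (shf E f k s, ZQ.c f k) := rfl

theorem adj_not (M N : Mouth) (hM : M.up = true) (hN : N.up = false) (h : M.adj f k) :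
    ¬ N.adj f k := by
  rintro ⟨-, -, ⟨h1, -⟩ | ⟨-, -, h1⟩⟩
  · rw [hN] at h1; exact absurd h1 (by decide)
  · obtain ⟨-, -, ⟨-, -, h2⟩ | ⟨h2, -⟩⟩ := h
    · revert h1 h2; revert k; decide
    · rw [hM] at h2; exact absurd h2 (by decide)

theorem shf_up (h : (E.gu.mouth true).adj f k) : shf E f k s = Equiv.swap none (some true) s := by
  unfold shf msig
  have hex : ∃ i : Bool, ((fun i : Bool => if i then E.gu.mouth true else E.gd.mouth false) i).adj f k :=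
    ⟨true, by simpa using h⟩
  rw [dif_pos hex]
  have h1 : hex.choose = true := by
    by_contra h2
    have h3 : hex.choose = false := by simpa using h2
    have h4 := hex.choose_spec
    rw [h3] at h4
    exact adj_not (E.gu.mouth true) (E.gd.mouth false) rfl rfl h (by simpa using h4)
  rw [h1]
  congr
  exact Subsingleton.elim _ _

theorem shf_dn (h : (E.gd.mouth false).adj f k) : shf E f k s = Equiv.swap none (some false) s := by
  unfold shf msig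
  have hex : ∃ i : Bool, ((fun i : Bool => if i then E.gu.mouth true else E.gd.mouth false) i).adj f k :=
    ⟨false, by simpa using h⟩
  rw [dif_pos hex]
  have h1 : hex.choose = false := by
    by_contra h2
    have h3 : hex.choose = true := by simpa using h2
    have h4 := hex.choose_spec
    rw [h3] at h4
    exact adj_not (E.gu.mouth true) (E.gd.mouth false) rfl rfl (by simpa using h4) h
  rw [h1]
  congr
  exact Subsingleton.elim _ _

theorem shf_of_not (h : ¬ (E.gu.mouth true).adj f k) (h' : ¬ (E.gd.mouth false).adj f k) :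
    shf E f k s = s := by
  unfold shf msig
  rw [dif_neg]
  · rfl
  · rintro ⟨i, hi⟩
    cases i
    · exact h' (by simpa using hi)
    · exact h (by simpa using hi)

theorem shf_true_of_not (h : ¬ (E.gu.mouth true).adj f k) : shf E f k (some true) = some true := by
  by_cases h' : (E.gd.mouth false).adj f k
  · rw [shf_dn h']
    exact Equiv.swap_apply_of_ne_of_ne (by simp) (by simp)
  · exact shf_of_not h h'

theorem shf_false_of_not (h : ¬ (E.gd.mouth false).adj f k) :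
    shf E f k (some false) = some false := by
  by_cases h' : (E.gu.mouth true).adj f k
  · rw [shf_up h']
    exact Equiv.swap_apply_of_ne_of_ne (by simp) (by simp)
  · exact shf_of_not h' h

theorem shf_true (h : shf E f k (some true) ≠ some true) :
    (E.gu.mouth true).adj f k ∧ shf E f k (some true) = none := by
  by_cases h' : (E.gu.mouth true).adj f k
  · exact ⟨h', by rw [shf_up h', Equiv.swap_apply_right]⟩
  · exact absurd (shf_true_of_not h') h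

theorem shf_false (h : shf E f k (some false) ≠ some false) :
    (E.gd.mouth false).adj f k ∧ shf E f k (some false) = none := by
  by_cases h' : (E.gd.mouth false).adj f k
  · exact ⟨h', by rw [shf_dn h', Equiv.swap_apply_right]⟩
  · exact absurd (shf_false_of_not h') h

theorem adj_up_iff : (E.gu.mouth true).adj f k ↔
    E.gu.x1 ≤ f.1 ∧ f.1 < E.gu.x2 ∧ f.2 = E.gu.yc + E.gu.a ∧ (k = 0 ∨ k = 1) := by
  unfold Mouth.adj BGeo.mouth
  simp

theorem adj_dn_iff : (E.gd.mouth false).adj f k ↔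
    E.gd.x1 ≤ f.1 ∧ f.1 < E.gd.x2 ∧ f.2 + 1 = E.gd.yc - E.gd.a ∧ (k = 2 ∨ k = 3) := by
  unfold Mouth.adj BGeo.mouth
  simp

theorem mem_F : (s, f) ∈ E.F ↔ (s = none ∧ f ∈ E.base) ∨ (s = some true ∧ f ∈ E.U) ∨
    (s = some false ∧ f ∈ E.L) := by
  unfold SEnv.F
  simp only [Finset.mem_union, Finset.mem_image, Prod.mk.injEq]
  constructor
  · rintro ((⟨f', h, rfl, rfl⟩ | ⟨f', h, rfl, rfl⟩) | ⟨f', h, rfl, rfl⟩)
    · exact Or.inl ⟨rfl, h⟩
    · exact Or.inr (Or.inl ⟨rfl, h⟩)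
    · exact Or.inr (Or.inr ⟨rfl, h⟩)
  · rintro (⟨rfl, h⟩ | ⟨rfl, h⟩ | ⟨rfl, h⟩)
    · exact Or.inl (Or.inl ⟨f, h, rfl, rfl⟩)
    · exact Or.inl (Or.inr ⟨f, h, rfl, rfl⟩)
    · exact Or.inr ⟨f, h, rfl, rfl⟩

theorem mem_base : f ∈ E.base ↔ f ∈ E.W ∧ ¬ E.gu.solid true f ∧ ¬ E.gd.solid false f := by
  unfold SEnv.base
  rw [Finset.mem_filter]

theorem not_cham {G : BGeo} {x : ℤ} (h1 : G.x1 ≤ x) (h2 : x < G.x2) : ¬ G.cham x := by
  unfold BGeo.cham
  omega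

theorem base_not_up (hu : E.gu.a < E.gu.c) (h : f ∈ E.base) : ¬ (E.gu.mouth true).adj f k := by
  rw [adj_up_iff]
  rintro ⟨h1, h2, h3, -⟩
  refine (mem_base.1 h).2.1 ⟨?_, ?_, ?_, ?_, fun h4 => not_cham h1 h2 h4.1⟩
  · unfold BGeo.hgt; simp only [if_true]; omega
  · unfold BGeo.hgt; simp only [if_true]; omega
  · omega
  · omega

theorem base_not_dn (hd : E.gd.a < E.gd.c) (h : f ∈ E.base) : ¬ (E.gd.mouth false).adj f k := by
  rw [adj_dn_iff]
  rintro ⟨h1, h2, h3, -⟩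
  refine (mem_base.1 h).2.2 ⟨?_, ?_, ?_, ?_, fun h4 => not_cham h1 h2 h4.1⟩
  · unfold BGeo.hgt; simp only [Bool.false_eq_true, if_false]; omega
  · unfold BGeo.hgt; simp only [Bool.false_eq_true, if_false]; omega
  · omega
  · omega

theorem shf_base (hu : E.gu.a < E.gu.c) (hd : E.gd.a < E.gd.c) (h : f ∈ E.base) :
    shf E f k s = s := shf_of_not (base_not_up hu h) (base_not_dn hd h)

/-- the mouth side of a face of the upper pocket -/
theorem up_mouth (h1 : shf E f k (some true) = none) (h2 : shf E f (k + 1) (some true) = none) :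
    E.gu.x1 ≤ f.1 ∧ f.1 < E.gu.x2 ∧ f.2 = E.gu.yc + E.gu.a ∧ k = 0 := by
  have h3 := (shf_true (E := E) (f := f) (k := k) (by rw [h1]; simp)).1
  have h4 := (shf_true (E := E) (f := f) (k := k + 1) (by rw [h2]; simp)).1
  rw [adj_up_iff] at h3 h4
  refine ⟨h3.1, h3.2.1, h3.2.2.1, ?_⟩
  exact k_aux1 k h3.2.2.2 h4.2.2.2

/-- the mouth side of a face of the lower pocket -/
theorem dn_mouth (h1 : shf E f k (some false) = none) (h2 : shf E f (k + 1) (some false) = none) :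
    E.gd.x1 ≤ f.1 ∧ f.1 < E.gd.x2 ∧ f.2 + 1 = E.gd.yc - E.gd.a ∧ k = 2 := by
  have h3 := (shf_false (E := E) (f := f) (k := k) (by rw [h1]; simp)).1
  have h4 := (shf_false (E := E) (f := f) (k := k + 1) (by rw [h2]; simp)).1
  rw [adj_dn_iff] at h3 h4
  refine ⟨h3.1, h3.2.1, h3.2.2.1, ?_⟩
  exact k_aux2 k h3.2.2.2 h4.2.2.2

/-- **The walls of the upper pocket are boundary sides of the environment.** -/
theorem bS_U (hu : E.gu.a < E.gu.c) (hd : E.gd.a < E.gd.c) (hb : sd ZQ f k ∈ bS ZQ E.U)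
    (hf : f ∈ E.U) (hm : ¬ (E.gu.x1 ≤ f.1 ∧ f.1 < E.gu.x2 ∧ f.2 = E.gu.yc + E.gu.a ∧ k = 0)) :
    sd E.Q (some true, f) k ∈ bS E.Q E.F := by
  have hF : (some true, f) ∈ E.F := mem_F.2 (Or.inr (Or.inl ⟨rfl, hf⟩))
  refine mem_bS.mpr ⟨sd_mem hF k, ?_⟩
  rintro ⟨s, g⟩ hg l he
  rw [Finset.mem_coe, mem_F] at hg
  unfold sd at he
  rw [Q_c, Q_c, Q_c, Q_c] at he
  obtain ⟨h1, h2⟩ := Prod.mk.inj he
  obtain ⟨h3, h4⟩ := Prod.mk.inj h1
  obtain ⟨h5, h6⟩ := Prod.mk.inj h2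
  rcases hg with ⟨rfl, hg⟩ | ⟨rfl, hg⟩ | ⟨rfl, hg⟩
  · rw [shf_base hu hd hg] at h3 h5
    exact hm (up_mouth h3 h5)
  · refine (mem_bS.mp hb).2 g (Finset.mem_coe.2 hg) l ?_
    unfold sd
    rw [h4, h6]
  · have key : ∀ k l, shf E f k (some true) = shf E g l (some false) →
        shf E f k (some true) = none := by
      intro k l h
      by_contra h7
      by_cases h8 : shf E f k (some true) = some true
      · rw [h8] at h
        by_cases h9 : shf E g l (some false) = some false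
        · rw [h9] at h; simp at h
        · rw [(shf_false h9).2] at h; simp at h
      · exact h7 (shf_true h8).2
    exact hm (up_mouth (key _ _ h3) (key _ _ h5))

/-- **The walls of the lower pocket are boundary sides of the environment.** -/
theorem bS_L (hu : E.gu.a < E.gu.c) (hd : E.gd.a < E.gd.c) (hb : sd ZQ f k ∈ bS ZQ E.L)
    (hf : f ∈ E.L) (hm : ¬ (E.gd.x1 ≤ f.1 ∧ f.1 < E.gd.x2 ∧ f.2 + 1 = E.gd.yc - E.gd.a ∧ k = 2)) :
    sd E.Q (some false, f) k ∈ bS E.Q E.F := by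
  have hF : (some false, f) ∈ E.F := mem_F.2 (Or.inr (Or.inr ⟨rfl, hf⟩))
  refine mem_bS.mpr ⟨sd_mem hF k, ?_⟩
  rintro ⟨s, g⟩ hg l he
  rw [Finset.mem_coe, mem_F] at hg
  unfold sd at he
  rw [Q_c, Q_c, Q_c, Q_c] at he
  obtain ⟨h1, h2⟩ := Prod.mk.inj he
  obtain ⟨h3, h4⟩ := Prod.mk.inj h1
  obtain ⟨h5, h6⟩ := Prod.mk.inj h2
  rcases hg with ⟨rfl, hg⟩ | ⟨rfl, hg⟩ | ⟨rfl, hg⟩
  · rw [shf_base hu hd hg] at h3 h5
    exact hm (dn_mouth h3 h5)
  · have key : ∀ k l, shf E f k (some false) = shf E g l (some true) →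
        shf E f k (some false) = none := by
      intro k l h
      by_contra h7
      by_cases h8 : shf E f k (some false) = some false
      · rw [h8] at h
        by_cases h9 : shf E g l (some true) = some true
        · rw [h9] at h; simp at h
        · rw [(shf_true h9).2] at h; simp at h
      · exact h7 (shf_false h8).2
    exact hm (dn_mouth (key _ _ h3) (key _ _ h5))
  · refine (mem_bS.mp hb).2 g (Finset.mem_coe.2 hg) l ?_
    unfold sd
    rw [h4, h6]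

theorem mem_Z {a : (Option Bool × (ℤ × ℤ)) × (Option Bool × (ℤ × ℤ))} (h : a ∈ bS E.Q E.F)
    (h' : a.1.1 ≠ none ∨ a.2.1 ≠ none) : a ∈ E.Z := by
  classical
  unfold SEnv.Z
  rw [Finset.mem_filter]
  refine ⟨h, ?_⟩
  rcases h' with h' | h'
  · exact Or.inl h'
  · exact Or.inr (Or.inl h')

theorem Z_U (h : sd E.Q (some true, f) k ∈ bS E.Q E.F)
    (hm : ¬ (E.gu.x1 ≤ f.1 ∧ f.1 < E.gu.x2 ∧ f.2 = E.gu.yc + E.gu.a ∧ k = 0)) :
    sd E.Q (some true, f) k ∈ E.Z := by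
  refine mem_Z h ?_
  by_contra h1
  push Not at h1
  exact hm (up_mouth h1.1 h1.2)

theorem Z_L (h : sd E.Q (some false, f) k ∈ bS E.Q E.F)
    (hm : ¬ (E.gd.x1 ≤ f.1 ∧ f.1 < E.gd.x2 ∧ f.2 + 1 = E.gd.yc - E.gd.a ∧ k = 2)) :
    sd E.Q (some false, f) k ∈ E.Z := by
  refine mem_Z h ?_
  by_contra h1
  push Not at h1
  exact hm (dn_mouth h1.1 h1.2)

/-- the phases of the walls of the upper pocket -/
theorem psi_U {mu ρu ml ρl : ℝ} {ψu ψl : (ℤ × ℤ) × (ℤ × ℤ) → ℝ}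
    (hm : ¬ (E.gu.x1 ≤ f.1 ∧ f.1 < E.gu.x2 ∧ f.2 = E.gu.yc + E.gu.a ∧ k = 0)) :
    E.psi mu ρu ml ρl ψu ψl (sd E.Q (some true, f) k) = ψu (sd ZQ f k) := by
  unfold SEnv.psi
  rw [if_pos]
  · rfl
  · by_contra h1
    push Not at h1
    exact hm (up_mouth (shf_true h1.1).2 (shf_true h1.2).2)

/-- the phases of the walls of the lower pocket -/
theorem psi_L {mu ρu ml ρl : ℝ} {ψu ψl : (ℤ × ℤ) × (ℤ × ℤ) → ℝ}
    (hm : ¬ (E.gd.x1 ≤ f.1 ∧ f.1 < E.gd.x2 ∧ f.2 + 1 = E.gd.yc - E.gd.a ∧ k = 2)) :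
    E.psi mu ρu ml ρl ψu ψl (sd E.Q (some false, f) k) = ψl (sd ZQ f k) := by
  have hne : ∀ k, shf E f k (some false) ≠ some true := by
    intro k h
    by_cases h8 : shf E f k (some false) = some false
    · rw [h8] at h; simp at h
    · rw [(shf_false h8).2] at h; simp at h
  unfold SEnv.psi
  rw [if_neg, if_pos]
  · rfl
  · by_contra h1
    push Not at h1
    exact hm (dn_mouth (shf_false h1.1).2 (shf_false h1.2).2)
  · rintro (h | h)
    · exact hne _ h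
    · exact hne _ h

/-! ### The parts of a cut polygon -/

theorem Q_inj_sd {V Φ : Type} {Q : QC V Φ} {f g : Φ} {k l : ZMod 4} (h : sd Q f k = sd Q g l) :
    f = g ∧ k = l := Q.inj (Prod.mk.inj h).1 (Prod.mk.inj h).2

/-- the corners of a face -/
theorem corc (f : ℤ × ℤ) (k : ZMod 4) : (k = 0 ∧ ZQ.c f k = (f.1, f.2)) ∨
    (k = 1 ∧ ZQ.c f k = (f.1 + 1, f.2)) ∨ (k = 2 ∧ ZQ.c f k = (f.1 + 1, f.2 + 1)) ∨
      (k = 3 ∧ ZQ.c f k = (f.1, f.2 + 1)) := by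
  rcases k4_cases k with rfl | rfl | rfl | rfl
  · exact Or.inl ⟨rfl, rfl⟩
  · exact Or.inr (Or.inl ⟨rfl, rfl⟩)
  · exact Or.inr (Or.inr (Or.inl ⟨rfl, rfl⟩))
  · exact Or.inr (Or.inr (Or.inr ⟨rfl, rfl⟩))

variable {D : Finset (ℤ × ℤ)} {x₁ x₂ w₁ w₂ s₁ s₂ : ℤ}

/-- corners of the upper part in the closed slab lie on the mouth -/
theorem touchU (hD : MPoly D) (h : SlabIn (D : Set (ℤ × ℤ)) x₁ x₂ w₁ w₂) (h1 : w₁ < s₁)
    (h2 : s₁ < s₂) (h3 : s₂ < w₂) (hf : f ∈ CUp D x₁ x₂ s₁ s₂) (hx1 : x₁ ≤ (ZQ.c f k).1)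
    (hx2 : (ZQ.c f k).1 ≤ x₂) (hy1 : s₁ ≤ (ZQ.c f k).2) (hy2 : (ZQ.c f k).2 ≤ s₂) :
    x₁ ≤ f.1 ∧ f.1 < x₂ ∧ f.2 = s₂ ∧ (k = 0 ∨ k = 1) := by
  have hfD : f ∈ D := up_sub hf
  obtain ⟨fx, fy⟩ := f
  have h4 : x₁ - 1 ≤ fx ∧ fx ≤ x₂ ∧ s₁ - 1 ≤ fy ∧ fy ≤ s₂ := by
    rcases corc (fx, fy) k with ⟨-, e⟩ | ⟨-, e⟩ | ⟨-, e⟩ | ⟨-, e⟩ <;> rw [e] at hx1 hx2 hy1 hy2 <;>
      simp only at hx1 hx2 hy1 hy2 <;> omega
  have h5 : x₁ ≤ fx := by
    by_contra h6
    have h7 : fx = x₁ - 1 := by omega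
    rw [h7] at hfD
    exact h.left fy (by omega) (by omega) hfD
  have h6 : fx < x₂ := by
    by_contra h6
    have h7 : fx = x₂ := by omega
    rw [h7] at hfD
    exact h.right fy (by omega) (by omega) hfD
  have h7 : fy = s₂ := by
    by_contra h8
    by_cases h9 : fy = s₁ - 1
    · refine Finset.disjoint_left.1 (up_lo hD.compl h h1 h2 h3) hf ?_
      rw [h9]
      exact lo_window h h2 h3 h5 h6 (by omega) (by omega)
    · refine Finset.disjoint_left.1 up_slab hf ?_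
      rw [mem_RF]; simp only; omega
  refine ⟨h5, h6, h7, ?_⟩
  rcases corc (fx, fy) k with ⟨e, -⟩ | ⟨e, -⟩ | ⟨-, e⟩ | ⟨-, e⟩
  · exact Or.inl e
  · exact Or.inr e
  · rw [e] at hy2; simp only at hy2; omega
  · rw [e] at hy2; simp only at hy2; omega

/-- corners of the lower part in the closed slab lie on the mouth -/
theorem touchL (hD : MPoly D) (h : SlabIn (D : Set (ℤ × ℤ)) x₁ x₂ w₁ w₂) (h1 : w₁ < s₁)
    (h2 : s₁ < s₂) (h3 : s₂ < w₂) (hf : f ∈ CLo D x₁ x₂ s₁ s₂) (hx1 : x₁ ≤ (ZQ.c f k).1)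
    (hx2 : (ZQ.c f k).1 ≤ x₂) (hy1 : s₁ ≤ (ZQ.c f k).2) (hy2 : (ZQ.c f k).2 ≤ s₂) :
    x₁ ≤ f.1 ∧ f.1 < x₂ ∧ f.2 + 1 = s₁ ∧ (k = 2 ∨ k = 3) := by
  have hfD : f ∈ D := lo_sub hf
  obtain ⟨fx, fy⟩ := f
  have h4 : x₁ - 1 ≤ fx ∧ fx ≤ x₂ ∧ s₁ - 1 ≤ fy ∧ fy ≤ s₂ := by
    rcases corc (fx, fy) k with ⟨-, e⟩ | ⟨-, e⟩ | ⟨-, e⟩ | ⟨-, e⟩ <;> rw [e] at hx1 hx2 hy1 hy2 <;>
      simp only at hx1 hx2 hy1 hy2 <;> omega
  have h5 : x₁ ≤ fx := by
    by_contra h6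
    have h7 : fx = x₁ - 1 := by omega
    rw [h7] at hfD
    exact h.left fy (by omega) (by omega) hfD
  have h6 : fx < x₂ := by
    by_contra h6
    have h7 : fx = x₂ := by omega
    rw [h7] at hfD
    exact h.right fy (by omega) (by omega) hfD
  have h7 : fy + 1 = s₁ := by
    by_contra h8
    by_cases h9 : fy = s₂
    · refine Finset.disjoint_left.1 (up_lo hD.compl h h1 h2 h3) ?_ hf
      rw [h9]
      exact up_window h h1 h2 h5 h6 (by omega) (by omega)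
    · refine Finset.disjoint_left.1 lo_slab hf ?_
      rw [mem_RF]; simp only; omega
  refine ⟨h5, h6, h7, ?_⟩
  rcases corc (fx, fy) k with ⟨-, e⟩ | ⟨-, e⟩ | ⟨e, -⟩ | ⟨e, -⟩
  · rw [e] at hy1; simp only at hy1; omega
  · rw [e] at hy1; simp only at hy1; omega
  · exact Or.inl e
  · exact Or.inr e

/-- the two parts have no common corner -/
theorem touchUL (hD : MPoly D) (h : SlabIn (D : Set (ℤ × ℤ)) x₁ x₂ w₁ w₂) (h1 : w₁ < s₁)
    (h2 : s₁ < s₂) (h3 : s₂ < w₂) (hf : f ∈ CUp D x₁ x₂ s₁ s₂) (hg : g ∈ CLo D x₁ x₂ s₁ s₂) :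
    ZQ.c f k ≠ ZQ.c g l := by
  intro he
  have h4 := congrArg Prod.fst he
  have h5 := congrArg Prod.snd he
  refine up_lo_touch hD h h1 h2 h3 hf hg ?_ ?_
  · rw [abs_le]
    rcases corc f k with ⟨-, e⟩ | ⟨-, e⟩ | ⟨-, e⟩ | ⟨-, e⟩ <;>
      rcases corc g l with ⟨-, e'⟩ | ⟨-, e'⟩ | ⟨-, e'⟩ | ⟨-, e'⟩ <;>
      rw [e, e'] at h4 <;> simp only at h4 <;> omega
  · rw [abs_le]
    rcases corc f k with ⟨-, e⟩ | ⟨-, e⟩ | ⟨-, e⟩ | ⟨-, e⟩ <;>
      rcases corc g l with ⟨-, e'⟩ | ⟨-, e'⟩ | ⟨-, e'⟩ | ⟨-, e'⟩ <;>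
      rw [e, e'] at h5 <;> simp only at h5 <;> omega

/-- a boundary side of `D` at the upper part is a boundary side of the upper part and not on the mouth -/
theorem bS_up (h : SlabIn (D : Set (ℤ × ℤ)) x₁ x₂ w₁ w₂) (h1 : w₁ < s₁)
    (h2 : s₁ < s₂) (h3 : s₂ < w₂) (hf : f ∈ CUp D x₁ x₂ s₁ s₂) (hb : sd ZQ f k ∈ bS ZQ D) :
    sd ZQ f k ∈ bS ZQ (CUp D x₁ x₂ s₁ s₂) ∧ ¬ (x₁ ≤ f.1 ∧ f.1 < x₂ ∧ f.2 = s₂ ∧ k = 0) := by
  refine ⟨SixB.bS_anti up_sub hb (sd_mem hf k), ?_⟩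
  rintro ⟨h4, h5, h6, rfl⟩
  have h7 : (f.1, f.2 - 1) ∈ D := by
    refine slab_sub h h1 h3 ?_
    rw [mem_RF]; simp only; omega
  refine (mem_bS.mp hb).2 _ (Finset.mem_coe.2 h7) 2 ?_
  obtain ⟨fx, fy⟩ := f
  change ((fx, fy), (fx + 1, fy)) = ((fx, fy - 1 + 1), (fx + 1, fy - 1 + 1))
  rw [sub_add_cancel]

/-- a boundary side of `D` at the lower part is a boundary side of the lower part and not on the mouth -/
theorem bS_lo (h : SlabIn (D : Set (ℤ × ℤ)) x₁ x₂ w₁ w₂) (h1 : w₁ < s₁)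
    (h2 : s₁ < s₂) (h3 : s₂ < w₂) (hf : f ∈ CLo D x₁ x₂ s₁ s₂) (hb : sd ZQ f k ∈ bS ZQ D) :
    sd ZQ f k ∈ bS ZQ (CLo D x₁ x₂ s₁ s₂) ∧ ¬ (x₁ ≤ f.1 ∧ f.1 < x₂ ∧ f.2 + 1 = s₁ ∧ k = 2) := by
  refine ⟨SixB.bS_anti lo_sub hb (sd_mem hf k), ?_⟩
  rintro ⟨h4, h5, h6, rfl⟩
  have h7 : (f.1, f.2 + 1) ∈ D := by
    refine slab_sub h h1 h3 ?_
    rw [mem_RF]; simp only; omega
  refine (mem_bS.mp hb).2 _ (Finset.mem_coe.2 h7) 0 ?_
  obtain ⟨fx, fy⟩ := f
  rfl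

/-! ### Translations -/

variable {X Y : ℤ} {S : Finset (ℤ × ℤ)}

theorem ZQ_shv (X : ℤ) (f : ℤ × ℤ) (k : ZMod 4) : ZQ.c (shv X f) k = shv X (ZQ.c f k) := by
  obtain ⟨x, y⟩ := f
  rcases k4_cases k with rfl | rfl | rfl | rfl
  · rfl
  · change (x + X + 1, y) = (x + 1 + X, y)
    rw [add_right_comm]
  · change (x + X + 1, y + 1) = (x + 1 + X, y + 1)
    rw [add_right_comm]
  · rfl

theorem shv_inj {u v : ℤ × ℤ} (h : shv X u = shv X v) : u = v := by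
  unfold shv at h
  rw [Prod.mk.injEq] at h
  exact Prod.ext (by omega) h.2

theorem sd_shv (X : ℤ) (f : ℤ × ℤ) (k : ZMod 4) :
    sd ZQ (shv X f) k = (shv X (sd ZQ f k).1, shv X (sd ZQ f k).2) := by
  unfold sd
  rw [ZQ_shv, ZQ_shv]

theorem mem_shF : shv X f ∈ shF X S ↔ f ∈ S := by
  unfold shF
  rw [Finset.mem_image]
  constructor
  · rintro ⟨g, hg, h⟩
    rw [← shv_inj h]
    exact hg
  · exact fun h => ⟨f, h, rfl⟩

theorem bS_shF (hf : f ∈ S) (h : sd ZQ f k ∈ bS ZQ S) : sd ZQ (shv X f) k ∈ bS ZQ (shF X S) := by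
  refine mem_bS.mpr ⟨sd_mem (mem_shF.2 hf) k, ?_⟩
  intro g hg l he
  rw [Finset.mem_coe] at hg
  unfold shF at hg
  rw [Finset.mem_image] at hg
  obtain ⟨g', hg', rfl⟩ := hg
  refine (mem_bS.mp h).2 g' (Finset.mem_coe.2 hg') l ?_
  unfold sd at he ⊢
  rw [ZQ_shv, ZQ_shv, ZQ_shv, ZQ_shv, Prod.mk.injEq] at he
  exact Prod.ext (shv_inj he.1) (shv_inj he.2)

theorem shP_sd (X : ℤ) (ψ : (ℤ × ℤ) × (ℤ × ℤ) → ℝ) (f : ℤ × ℤ) (k : ZMod 4) :
    shP X ψ (sd ZQ (shv X f) k) = ψ (sd ZQ f k) := by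
  rw [sd_shv]
  unfold shP
  congr 1
  unfold shv
  ext <;> simp

end EmbH

open EmbH

/-! ## The sheared chart -/

section

variable {S : Slb} {W : Finset (ℤ × ℤ)} {X Y : ℤ}

/-- the closed slab faces of `S` -/
abbrev Slb.slb (S : Slb) : Finset (ℤ × ℤ) := SixB.slab S.x1 S.x2 (S.yc - S.a) (S.yc + S.a)

open Classical in
/-- faces of `D` minus the slab in `S.env W X Y` -/
def Slb.shrF (S : Slb) (X Y : ℤ) (f : ℤ × ℤ) : Option Bool × (ℤ × ℤ) :=
  if f ∈ S.Up then (some true, shv X f) else (some false, shv Y f)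

open Classical in
/-- vertices of `D` minus the slab in `S.env W X Y` -/
def Slb.shrV (S : Slb) (X Y : ℤ) (v : ℤ × ℤ) : Option Bool × (ℤ × ℤ) :=
  if ∃ f ∈ S.Up, ∃ k, ZQ.c f k = v then
    (if S.x1 ≤ v.1 ∧ v.1 ≤ S.x2 ∧ v.2 = S.yc + S.a then none else some true, shv X v)
  else (if S.x1 ≤ v.1 ∧ v.1 ≤ S.x2 ∧ v.2 = S.yc - S.a then none else some false, shv Y v)

namespace Slb.Ok

theorem w1 (h : S.Ok) : S.yc - S.k < S.yc - S.a := by
  have := h.ha; have := h.hak; omega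

theorem w2 (h : S.Ok) : S.yc - S.a < S.yc + S.a := by
  have := h.ha; omega

theorem w3 (h : S.Ok) : S.yc + S.a < S.yc + S.k := by
  have := h.ha; have := h.hak; omega

theorem cases (h : S.Ok) {f : ℤ × ℤ} (hf : f ∈ S.D \ S.slb) :
    (f ∈ S.Up ∧ f ∉ S.Lo) ∨ (f ∈ S.Lo ∧ f ∉ S.Up) := by
  rw [Finset.mem_sdiff] at hf
  have h1 : f ∈ CUp S.D S.x1 S.x2 (S.yc - S.a) (S.yc + S.a) ∪ S.slb ∪
      CLo S.D S.x1 S.x2 (S.yc - S.a) (S.yc + S.a) := by
    rw [up_slab_lo h.poly.conn h.slab h.w1 h.w2 h.w3]; exact hf.1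
  have h4 := Finset.disjoint_left.1 (up_lo h.poly.compl h.slab h.w1 h.w2 h.w3)
  rw [Finset.mem_union, Finset.mem_union] at h1
  rcases h1 with (h1 | h1) | h1
  · exact Or.inl ⟨h1, h4 h1⟩
  · exact absurd h1 hf.2
  · exact Or.inr ⟨h1, fun h5 => h4 h5 h1⟩

theorem uac (h : S.Ok) (X : ℤ) : (S.geo X).a < (S.geo X).c := by
  have h1 := h.ha
  have h2 := h.hak
  show S.a < 3 * S.k + (S.x2 - S.x1).toNat
  omega

theorem adjU (S : Slb) (W : Finset (ℤ × ℤ)) (X Y : ℤ) (f : ℤ × ℤ) (k : ZMod 4) :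
    ((S.env W X Y).gu.mouth true).adj (shv X f) k ↔
      S.x1 ≤ f.1 ∧ f.1 < S.x2 ∧ f.2 = S.yc + S.a ∧ (k = 0 ∨ k = 1) := by
  rw [adj_up_iff]
  show S.x1 + X ≤ f.1 + X ∧ f.1 + X < S.x2 + X ∧ f.2 = S.yc + S.a ∧ (k = 0 ∨ k = 1) ↔ _
  constructor
  · rintro ⟨h1, h2, h3, h4⟩
    exact ⟨by omega, by omega, h3, h4⟩
  · rintro ⟨h1, h2, h3, h4⟩
    exact ⟨by omega, by omega, h3, h4⟩

theorem adjL (S : Slb) (W : Finset (ℤ × ℤ)) (X Y : ℤ) (f : ℤ × ℤ) (k : ZMod 4) :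
    ((S.env W X Y).gd.mouth false).adj (shv Y f) k ↔
      S.x1 ≤ f.1 ∧ f.1 < S.x2 ∧ f.2 + 1 = S.yc - S.a ∧ (k = 2 ∨ k = 3) := by
  rw [adj_dn_iff]
  show S.x1 + Y ≤ f.1 + Y ∧ f.1 + Y < S.x2 + Y ∧ f.2 + 1 = S.yc - S.a ∧ (k = 2 ∨ k = 3) ↔ _
  constructor
  · rintro ⟨h1, h2, h3, h4⟩
    exact ⟨by omega, by omega, h3, h4⟩
  · rintro ⟨h1, h2, h3, h4⟩
    exact ⟨by omega, by omega, h3, h4⟩

theorem shrF_U {f : ℤ × ℤ} (hf : f ∈ S.Up) : S.shrF X Y f = (some true, shv X f) := by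
  unfold Slb.shrF; rw [if_pos hf]

theorem shrF_L {f : ℤ × ℤ} (hf : f ∉ S.Up) : S.shrF X Y f = (some false, shv Y f) := by
  unfold Slb.shrF; rw [if_neg hf]

theorem cor_U (h : S.Ok) {f : ℤ × ℤ} (hf : f ∈ S.Up) (k : ZMod 4) :
    (S.env W X Y).Q.c (some true, shv X f) k = S.shrV X Y (ZQ.c f k) := by
  unfold Slb.shrV
  rw [if_pos ⟨f, hf, k, rfl⟩, EmbH.Q_c, ZQ_shv]
  congr 1
  by_cases ha : ((S.env W X Y).gu.mouth true).adj (shv X f) k
  · rw [shf_up ha, Equiv.swap_apply_right]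
    rw [adjU] at ha
    rw [if_pos]
    rcases corc f k with ⟨e, e'⟩ | ⟨e, e'⟩ | ⟨e, e'⟩ | ⟨e, e'⟩
    · rw [e']; simp only; omega
    · rw [e']; simp only; omega
    · rw [e] at ha; exact absurd ha.2.2.2 (by decide)
    · rw [e] at ha; exact absurd ha.2.2.2 (by decide)
  · rw [shf_true_of_not ha, if_neg]
    rintro ⟨h4, h5, h6⟩
    apply ha
    rw [adjU]
    have := h.w2
    exact touchU h.poly h.slab h.w1 h.w2 h.w3 hf h4 h5 (by omega) (by omega)

theorem cor_L (h : S.Ok) {f : ℤ × ℤ} (hf : f ∈ S.Lo) (k : ZMod 4) :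
    (S.env W X Y).Q.c (some false, shv Y f) k = S.shrV X Y (ZQ.c f k) := by
  unfold Slb.shrV
  rw [if_neg, EmbH.Q_c, ZQ_shv]
  · congr 1
    by_cases ha : ((S.env W X Y).gd.mouth false).adj (shv Y f) k
    · rw [shf_dn ha, Equiv.swap_apply_right]
      rw [adjL] at ha
      rw [if_pos]
      rcases corc f k with ⟨e, e'⟩ | ⟨e, e'⟩ | ⟨e, e'⟩ | ⟨e, e'⟩
      · rw [e] at ha; exact absurd ha.2.2.2 (by decide)
      · rw [e] at ha; exact absurd ha.2.2.2 (by decide)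
      · rw [e']; simp only; omega
      · rw [e']; simp only; omega
    · rw [shf_false_of_not ha, if_neg]
      rintro ⟨h4, h5, h6⟩
      apply ha
      rw [adjL]
      have := h.w2
      exact touchL h.poly h.slab h.w1 h.w2 h.w3 hf h4 h5 (by omega) (by omega)
  · rintro ⟨g, hg, l, he⟩
    exact touchUL h.poly h.slab h.w1 h.w2 h.w3 hg hf he

theorem cor_D (h : S.Ok) {f : ℤ × ℤ} (hf : f ∈ S.D \ S.slb) (k : ZMod 4) :
    (S.env W X Y).Q.c (S.shrF X Y f) k = S.shrV X Y (ZQ.c f k) := by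
  rcases h.cases hf with ⟨h1, h2⟩ | ⟨h1, h2⟩
  · rw [shrF_U h1]; exact h.cor_U h1 k
  · rw [shrF_L h2]; exact h.cor_L h1 k

theorem shrV_inj (h : S.Ok) {f g : ℤ × ℤ} {k l : ZMod 4} (he : S.shrV X Y (ZQ.c f k) = S.shrV X Y (ZQ.c g l)) :
    ZQ.c f k = ZQ.c g l := by
  have hw := h.w2
  have key : ∀ u v : ℤ × ℤ, (∃ f ∈ S.Up, ∃ k, ZQ.c f k = u) → ¬ (∃ f ∈ S.Up, ∃ k, ZQ.c f k = v) →
      S.shrV X Y u ≠ S.shrV X Y v := by
    intro u v hu hv he
    unfold Slb.shrV at he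
    rw [if_pos hu, if_neg hv] at he
    obtain ⟨h1, h2⟩ := Prod.mk.inj he
    have h3 := congrArg Prod.snd h2
    unfold shv at h3
    simp only at h3
    split_ifs at h1 with h4 h5
    · omega
    · simp at h1
  by_cases hu : ∃ f' ∈ S.Up, ∃ k', ZQ.c f' k' = ZQ.c f k
  · by_cases hv : ∃ f' ∈ S.Up, ∃ k', ZQ.c f' k' = ZQ.c g l
    · unfold Slb.shrV at he
      rw [if_pos hu, if_pos hv] at he
      exact shv_inj (Prod.mk.inj he).2
    · exact absurd he (key _ _ hu hv)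
  · by_cases hv : ∃ f' ∈ S.Up, ∃ k', ZQ.c f' k' = ZQ.c g l
    · exact absurd he.symm (key _ _ hv hu)
    · unfold Slb.shrV at he
      rw [if_neg hu, if_neg hv] at he
      exact shv_inj (Prod.mk.inj he).2

theorem mem_F_U {f : ℤ × ℤ} (hf : f ∈ S.Up) : (some true, shv X f) ∈ (S.env W X Y).F :=
  EmbH.mem_F.2 (Or.inr (Or.inl ⟨rfl, mem_shF.2 hf⟩))

theorem mem_F_L {f : ℤ × ℤ} (hf : f ∈ S.Lo) : (some false, shv Y f) ∈ (S.env W X Y).F :=
  EmbH.mem_F.2 (Or.inr (Or.inr ⟨rfl, mem_shF.2 hf⟩))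

/-- **The sheared chart**: `D` minus the slab, the upper part shifted by `X`, the lower part by `Y`. -/
def shr (h : S.Ok) (W : Finset (ℤ × ℤ)) (X Y : ℤ) :
    PChart (S.env W X Y).Q (S.env W X Y).F (S.D \ S.slb) where
  φV := S.shrV X Y
  φF := S.shrF X Y
  cor := fun _ hf k => h.cor_D hf k
  inj := fun _ _ _ _ _ _ he => h.shrV_inj he
  sub := fun f hf => by
    rcases h.cases hf with ⟨h1, h2⟩ | ⟨h1, h2⟩
    · rw [shrF_U h1]; exact mem_F_U h1
    · rw [shrF_L h2]; exact mem_F_L h1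

theorem shr_F (h : S.Ok) (f : ℤ × ℤ) : (h.shr W X Y).φF f = S.shrF X Y f := rfl

theorem shr_injF (h : S.Ok) {f g : ℤ × ℤ} (he : (h.shr W X Y).φF f = (h.shr W X Y).φF g) :
    f = g := by
  rw [shr_F, shr_F] at he
  unfold Slb.shrF at he
  split_ifs at he with h1 h2 h2
  · exact shv_inj (Prod.mk.inj he).2
  · simp at he
  · simp at he
  · exact shv_inj (Prod.mk.inj he).2

/-- **walls of `D` off the slab in the sheared environment** -/
theorem lift (h : S.Ok) {f : ℤ × ℤ} {k : ZMod 4} (hf : f ∈ S.D \ S.slb)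
    (hb : sd ZQ f k ∈ bS ZQ S.D) :
    (h.shr W X Y).side (sd ZQ f k) ∈ bS (S.env W X Y).Q (S.env W X Y).F ∧
      (h.shr W X Y).side (sd ZQ f k) ∈ (S.env W X Y).Z ∧
      S.ph W X Y ((h.shr W X Y).side (sd ZQ f k)) = S.ψ (sd ZQ f k) := by
  rw [(h.shr W X Y).side_sd hf k, shr_F]
  unfold Slb.ph
  rcases h.cases hf with ⟨h1, h2⟩ | ⟨h1, h2⟩
  · rw [shrF_U h1]
    obtain ⟨h4, h5⟩ := bS_up h.slab h.w1 h.w2 h.w3 h1 hb
    have h4' := bS_shF (X := X) h1 h4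
    have h6 : ¬ ((S.env W X Y).gu.x1 ≤ (shv X f).1 ∧ (shv X f).1 < (S.env W X Y).gu.x2 ∧
        (shv X f).2 = (S.env W X Y).gu.yc + (S.env W X Y).gu.a ∧ k = 0) := by
      rintro ⟨a1, a2, a3, a4⟩
      refine h5 ⟨?_, ?_, a3, a4⟩
      · have a1' : S.x1 + X ≤ f.1 + X := a1
        omega
      · have a2' : f.1 + X < S.x2 + X := a2
        omega
    have h7 := bS_U (E := S.env W X Y) (h.uac X) (h.uac Y) h4' (mem_shF.2 h1) h6
    refine ⟨h7, Z_U h7 h6, ?_⟩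
    rw [psi_U h6]
    exact shP_sd X S.ψ f k
  · rw [shrF_L h2]
    obtain ⟨h4, h5⟩ := bS_lo h.slab h.w1 h.w2 h.w3 h1 hb
    have h4' := bS_shF (X := Y) h1 h4
    have h6 : ¬ ((S.env W X Y).gd.x1 ≤ (shv Y f).1 ∧ (shv Y f).1 < (S.env W X Y).gd.x2 ∧
        (shv Y f).2 + 1 = (S.env W X Y).gd.yc - (S.env W X Y).gd.a ∧ k = 2) := by
      rintro ⟨a1, a2, a3, a4⟩
      refine h5 ⟨?_, ?_, a3, a4⟩
      · have a1' : S.x1 + Y ≤ f.1 + Y := a1
        omega
      · have a2' : f.1 + Y < S.x2 + Y := a2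
        omega
    have h7 := bS_L (E := S.env W X Y) (h.uac X) (h.uac Y) h4' (mem_shF.2 h1) h6
    refine ⟨h7, Z_L h7 h6, ?_⟩
    rw [psi_L h6]
    exact shP_sd Y S.ψ f k

/-- **the sheared chart keeps the walls of `D`** -/
theorem keepsShr (h : S.Ok) : (h.shr W X Y).Keeps (fun a => a ∈ bS ZQ S.D) (S.env W X Y).Z
    (S.ph W X Y) S.ψ := by
  refine ⟨?_, ?_, ?_⟩ <;> intro a ha hP <;> obtain ⟨f, hf, k, rfl⟩ := exists_sd_of_bS ha
  · exact (h.lift hf hP).1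
  · exact (h.lift hf hP).2.2
  · exact (h.lift hf hP).2.1

end Slb.Ok

end

/-! ## Wedges are connected -/

namespace EmbH

theorem rect_chain {T : Set (ℤ × ℤ)} {x₀ x₁ y₀ y₁ : ℤ} (hT : ∀ f ∈ RF x₀ x₁ y₀ y₁, f ∈ T)
    {f g : ℤ × ℤ} (hf : f ∈ RF x₀ x₁ y₀ y₁) (hg : g ∈ RF x₀ x₁ y₀ y₁) : ECh T f g := by
  have hb : (x₀, y₀) ∈ RF x₀ x₁ y₀ y₁ := by
    rw [mem_RF] at hf ⊢
    simp only
    omega
  exact (ECh.symm (hT _ hb) (slab_chain hT hf)).trans (slab_chain hT hg)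

variable {m : ℕ} {o q : ZMod 4} {v f g : ℤ × ℤ} {r : ℕ}

/-- the face of the quadrant `q` at the vertex -/
theorem lf4_quad (v : ℤ × ℤ) (q : ZMod 4) : quad v (lf4 q v) = q := by
  obtain ⟨x, y⟩ := v
  rcases zm4_cases q with rfl | rfl | rfl | rfl
  · rw [lf40]; unfold quad; simp
  · rw [lf41]; unfold quad
    rw [if_neg (by simp only; omega), if_pos (by simp only; omega)]
  · rw [lf42]; unfold quad
    rw [if_neg (by simp only; omega), if_neg (by simp only; omega)]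
  · rw [lf43]; unfold quad
    rw [if_pos (by simp only; omega), if_neg (by simp only; omega)]

theorem lf4_box (hr : 0 < r) (v : ℤ × ℤ) (q : ZMod 4) : lf4 q v ∈ Bx v r := by
  rw [mem_Bx]
  rcases zm4_cases q with rfl | rfl | rfl | rfl
  · rw [lf40]; omega
  · rw [lf41]; simp only; omega
  · rw [lf42]; simp only; omega
  · rw [lf43]; simp only; omega

/-- a face of the box is joined to the face at the vertex inside its quadrant -/
theorem quad_chain {T : Set (ℤ × ℤ)} (hf : f ∈ Bx v r) (hq : quad v f = q)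
    (hT : ∀ g ∈ Bx v r, quad v g = q → g ∈ T) : ECh T (lf4 q v) f := by
  rw [mem_Bx] at hf
  have hc := quad_cases v f
  rw [hq] at hc
  have hT' : ∀ g, v.1 - r ≤ g.1 → g.1 < v.1 + r → v.2 - r ≤ g.2 → g.2 < v.2 + r →
      quad v g = q → g ∈ T := fun g h1 h2 h3 h4 h5 => hT g (mem_Bx.2 ⟨h1, h2, h3, h4⟩) h5
  have d01 : (0 : ZMod 4) ≠ 1 := by decide
  have d02 : (0 : ZMod 4) ≠ 2 := by decide
  have d03 : (0 : ZMod 4) ≠ 3 := by decide
  have d12 : (1 : ZMod 4) ≠ 2 := by decide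
  have d13 : (1 : ZMod 4) ≠ 3 := by decide
  have d23 : (2 : ZMod 4) ≠ 3 := by decide
  rcases zm4_cases q with rfl | rfl | rfl | rfl
  · rcases hc with ⟨h1, h2, -⟩ | ⟨-, -, h3⟩ | ⟨-, -, h3⟩ | ⟨-, -, h3⟩
    · refine rect_chain (x₀ := v.1) (x₁ := v.1 + r) (y₀ := v.2) (y₁ := v.2 + r) ?_ ?_ ?_
      · intro g hg
        rw [mem_RF] at hg
        refine hT' g (by omega) (by omega) (by omega) (by omega) ?_
        unfold quad
        rw [if_pos (by omega), if_pos (by omega)]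
      · rw [lf40, mem_RF]; omega
      · rw [mem_RF]; omega
    · exact absurd h3 d01
    · exact absurd h3 d02
    · exact absurd h3 d03
  · rcases hc with ⟨-, -, h3⟩ | ⟨h1, h2, -⟩ | ⟨-, -, h3⟩ | ⟨-, -, h3⟩
    · exact absurd h3.symm d01
    · refine rect_chain (x₀ := v.1 - r) (x₁ := v.1) (y₀ := v.2) (y₁ := v.2 + r) ?_ ?_ ?_
      · intro g hg
        rw [mem_RF] at hg
        refine hT' g (by omega) (by omega) (by omega) (by omega) ?_
        unfold quad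
        rw [if_neg (by omega), if_pos (by omega)]
      · rw [lf41, mem_RF]; simp only; omega
      · rw [mem_RF]; omega
    · exact absurd h3 d12
    · exact absurd h3 d13
  · rcases hc with ⟨-, -, h3⟩ | ⟨-, -, h3⟩ | ⟨h1, h2, -⟩ | ⟨-, -, h3⟩
    · exact absurd h3.symm d02
    · exact absurd h3.symm d12
    · refine rect_chain (x₀ := v.1 - r) (x₁ := v.1) (y₀ := v.2 - r) (y₁ := v.2) ?_ ?_ ?_
      · intro g hg
        rw [mem_RF] at hg
        refine hT' g (by omega) (by omega) (by omega) (by omega) ?_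
        unfold quad
        rw [if_neg (by omega), if_neg (by omega)]
      · rw [lf42, mem_RF]; simp only; omega
      · rw [mem_RF]; omega
    · exact absurd h3 d23
  · rcases hc with ⟨-, -, h3⟩ | ⟨-, -, h3⟩ | ⟨-, -, h3⟩ | ⟨h1, h2, -⟩
    · exact absurd h3.symm d03
    · exact absurd h3.symm d13
    · exact absurd h3.symm d23
    · refine rect_chain (x₀ := v.1) (x₁ := v.1 + r) (y₀ := v.2 - r) (y₁ := v.2) ?_ ?_ ?_
      · intro g hg
        rw [mem_RF] at hg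
        refine hT' g (by omega) (by omega) (by omega) (by omega) ?_
        unfold quad
        rw [if_pos (by omega), if_neg (by omega)]
      · rw [lf43, mem_RF]; simp only; omega
      · rw [mem_RF]; omega

theorem lf4_adj (v : ℤ × ℤ) (q : ZMod 4) : EAdj (lf4 q v) (lf4 (q + 1) v) := by
  obtain ⟨x, y⟩ := v
  rcases zm4_cases q with rfl | rfl | rfl | rfl
  · right; left
    show lf4 1 (x, y) = _
    rw [lf41, lf40]
  · right; right; right
    show lf4 2 (x, y) = _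
    rw [lf41, lf42]
  · left
    show lf4 3 (x, y) = _
    rw [lf43, lf42]; simp
  · right; right; left
    show lf4 0 (x, y) = _
    rw [lf40, lf43]; simp

/-- **wedges are edge connected** -/
theorem wdg_conn (hm : m ≤ 4) (hf : f ∈ Wdg m o v r) (hg : g ∈ Wdg m o v r) :
    ECh (Wdg m o v r : Set (ℤ × ℤ)) f g := by
  have hr : 0 < r := by
    rw [mem_Wdg] at hf
    omega
  have key : ∀ j : ℕ, j < m → ECh (Wdg m o v r : Set (ℤ × ℤ)) (lf4 o v) (lf4 (o + (j : ZMod 4)) v) := by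
    intro j
    induction j with
    | zero => intro _; simpa [ECh] using Relation.ReflTransGen.refl
    | succ j ih =>
      intro hj
      refine (ih (by omega)).tail ⟨?_, ?_⟩
      · rw [Finset.mem_coe, mem_Wdg]
        refine ⟨mem_Bx.1 (lf4_box hr v _), ?_⟩
        rw [lf4_quad]
        have e : o + ((j + 1 : ℕ) : ZMod 4) - o = ((j + 1 : ℕ) : ZMod 4) := by ring
        rw [e, ZMod.val_natCast, Nat.mod_eq_of_lt (by omega)]
        exact hj
      · have e : o + ((j + 1 : ℕ) : ZMod 4) = o + (j : ZMod 4) + 1 := by push_cast; ring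
        rw [e]
        exact lf4_adj v _
  have key2 : ∀ f ∈ Wdg m o v r, ECh (Wdg m o v r : Set (ℤ × ℤ)) (lf4 o v) f := by
    intro f hf
    have hf' := hf
    rw [mem_Wdg] at hf'
    have e : o + (((quad v f - o).val : ℕ) : ZMod 4) = quad v f := by
      rw [ZMod.natCast_val, ZMod.cast_id]; ring
    have h1 := key _ hf'.2
    rw [e] at h1
    refine h1.trans (quad_chain (mem_Bx.2 hf'.1) rfl ?_)
    intro g hg hq
    rw [Finset.mem_coe, mem_Wdg]
    exact ⟨mem_Bx.1 hg, by rw [hq]; exact hf'.2⟩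
  have hb : lf4 o v ∈ (Wdg m o v r : Set (ℤ × ℤ)) := by
    rw [Finset.mem_coe, mem_Wdg]
    refine ⟨mem_Bx.1 (lf4_box hr v _), ?_⟩
    rw [lf4_quad, sub_self]
    rw [mem_Wdg] at hf
    have := hf.2
    simp only [ZMod.val_zero]
    omega
  exact (ECh.symm hb (key2 f hf)).trans (key2 g hg)

end EmbH

/-! ## Atlases -/

section

variable {S : Slb} {W : Finset (ℤ × ℤ)} {X Y : ℤ} {ZD CD : Finset ((ℤ × ℤ) × (ℤ × ℤ))}
  {r nS nN : ℕ} {t₀ : ℝ} {B : ℤ × ℤ → Prop}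

/-- the box of a vertex far from the slab avoids it -/
theorem EmbH.off_box {x₁ x₂ s₁ s₂ : ℤ} {ρ : ℕ} {v f : ℤ × ℤ} (h : ¬ nearS x₁ x₂ s₁ s₂ ρ v)
    (hf : f ∈ Bx v ρ) : f ∉ SixB.slab x₁ x₂ s₁ s₂ := by
  intro hs
  rw [mem_Bx] at hf
  rw [mem_RF] at hs
  refine h ⟨?_, ?_, ?_, ?_⟩ <;> omega

/-- a union of edge components of `D` minus the slab -/
def Slb.Comp (S : Slb) (B : ℤ × ℤ → Prop) : Prop :=
  ∀ f ∈ S.D \ S.slb, ∀ g ∈ S.D \ S.slb, EAdj f g → B f → B g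

theorem Slb.comp_up (S : Slb) : S.Comp (fun f => f ∈ S.Up) := by
  intro f _ g hg hfg hB
  rw [Finset.mem_sdiff] at hg
  exact part_adj hB hfg hg.1 hg.2

theorem Slb.comp_lo (S : Slb) : S.Comp (fun f => f ∈ S.Lo) := by
  intro f _ g hg hfg hB
  rw [Finset.mem_sdiff] at hg
  exact part_adj hB hfg hg.1 hg.2

theorem Slb.comp_all (S : Slb) : S.Comp (fun _ => True) := fun _ _ _ _ _ _ => trivial

/-- a wedge in `D` minus the slab with one face in `B` lies in `B` -/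
theorem Slb.Comp.wdg (hB : S.Comp B) {m : ℕ} {o : ZMod 4} {v : ℤ × ℤ} {ρ : ℕ} (hm : m ≤ 4)
    (hs : ∀ f ∈ Wdg m o v ρ, f ∈ S.D \ S.slb) {f : ℤ × ℤ} (hf : f ∈ Wdg m o v ρ) (hfB : B f)
    {g : ℤ × ℤ} (hg : g ∈ Wdg m o v ρ) : B g := by
  have h := wdg_conn hm hf hg
  clear hg
  have key : g ∈ Wdg m o v ρ ∧ B g := by
    induction h with
    | refl => exact ⟨hf, hfB⟩
    | @tail b c _ h2 ih =>
      have hc : c ∈ Wdg m o v ρ := Finset.mem_coe.1 h2.1
      exact ⟨hc, hB b (hs b ih.1) c (hs c hc) h2.2 ih.2⟩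
  exact key.2

open Classical in
/-- the sides whose face satisfies `B` -/
def selC (B : ℤ × ℤ → Prop) (C : Finset ((ℤ × ℤ) × (ℤ × ℤ))) : Finset ((ℤ × ℤ) × (ℤ × ℤ)) :=
  C.filter fun a => ∃ f k, a = sd ZQ f k ∧ B f

/-- the covered sides of a slab environment (planar) -/
def Slb.far (S : Slb) (r : ℕ) (C : Finset ((ℤ × ℤ) × (ℤ × ℤ))) : Finset ((ℤ × ℤ) × (ℤ × ℤ)) :=
  farC S.x1 S.x2 (S.yc - S.a) (S.yc + S.a) (3 * r + 1) C

/-- near the slab -/
def Slb.near (S : Slb) (ρ : ℕ) (v : ℤ × ℤ) : Prop := nearS S.x1 S.x2 (S.yc - S.a) (S.yc + S.a) ρ v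

/-- **the flat atlas on the components `B` of `D` minus the slab** -/
def Slb.selA (S : Slb) (hB : S.Comp B) (A : PAtlas ZQ S.D S.ψ ZD CD r nS nN t₀) (hA : A.Flat)
    (hS : ∀ i, ¬ S.near (4 * r + 1) (A.v i)) :
    PAtlas ZQ (S.D \ S.slb) S.ψ ZD (selC B (S.far r CD)) r nS nN t₀ :=
  A.restr Finset.sdiff_subset
    (fun i => ∀ f ∈ Wdg (A.m i) (A.o i) (A.v i) (4 * r + 1), B f)
    (fun i => ¬ S.near (2 * r + 1) (A.v' i) ∧
      ∀ f ∈ Wdg (A.m' i) (A.o' i) (A.v' i) (2 * r + 1), B f)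
    (fun _ => True)
    (by
      intro i _ f hf
      rw [Finset.mem_sdiff]
      exact ⟨(A.ch i).sub f hf, by rw [hA.sF]; exact off_box (hS i) (Wdg_sub_Bx hf)⟩)
    (by
      intro i hi f hf
      rw [Finset.mem_sdiff]
      exact ⟨(A.nch i).sub f hf, by rw [hA.nF]; exact off_box hi.1 (Wdg_sub_Bx hf)⟩)
    (fun i => hA.mu.elim i)
    (fun _ _ _ h => h)
    (by
      classical
      intro a ha
      unfold selC at ha
      rw [Finset.mem_filter] at ha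
      obtain ⟨ha, f, k, rfl, hfB⟩ := ha
      unfold Slb.far farC at ha
      rw [Finset.mem_filter] at ha
      obtain ⟨ha1, ha2⟩ := ha
      rcases A.cover _ ha1 with ⟨i, h1⟩ | ⟨i, h1⟩ | ⟨i, _⟩
      · refine Or.inl ⟨i, ?_, h1⟩
        unfold WChart.walls at h1
        rw [Finset.mem_image] at h1
        obtain ⟨s, hs, h3⟩ := h1
        rw [hA.s] at h3
        subst h3
        have hf : f ∈ Wdg (A.m i) (A.o i) (A.v i) (4 * r + 1) := by
          rcases Finset.mem_union.1 hs with hs | hs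
          · obtain ⟨f', hf', h4⟩ := wIn_face (A.m_rng i).1 (by have := (A.m_rng i).2; omega) hs
            rw [(Q_inj_sd h4).1]
            exact Wdg_mono (by omega) hf'
          · obtain ⟨f', hf', h4⟩ := wOut_face (A.m_rng i).1 hs
            rw [(Q_inj_sd h4).1]
            exact Wdg_mono (by omega) hf'
        intro g hg
        refine hB.wdg (by have := (A.m_rng i).2; omega) ?_ hf hfB hg
        intro f' hf'
        rw [Finset.mem_sdiff]
        have h5 := (A.ch i).sub f' hf'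
        rw [hA.sF] at h5
        exact ⟨h5, off_box (hS i) (Wdg_sub_Bx hf')⟩
      · refine Or.inr (Or.inl ⟨i, ?_, h1⟩)
        unfold WChart.walls at h1
        rw [Finset.mem_image] at h1
        obtain ⟨s, hs, h3⟩ := h1
        rw [hA.n] at h3
        subst h3
        have hnear : ¬ S.near (2 * r + 1) (A.v' i) := by
          intro h2
          refine ha2 ?_
          have h4 := wall_near hs
          unfold Slb.near nearS at h2
          unfold nearS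
          push_cast at *
          omega
        refine ⟨hnear, ?_⟩
        have hf : f ∈ Wdg (A.m' i) (A.o' i) (A.v' i) (2 * r + 1) := by
          rcases Finset.mem_union.1 hs with hs | hs
          · obtain ⟨f', hf', h4⟩ := wIn_face (A.m'_rng i).1 (by have := (A.m'_rng i).2; omega) hs
            rw [(Q_inj_sd h4).1]
            exact Wdg_mono (by omega) hf'
          · obtain ⟨f', hf', h4⟩ := wOut_face (A.m'_rng i).1 hs
            rw [(Q_inj_sd h4).1]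
            exact Wdg_mono (by omega) hf'
        intro g hg
        refine hB.wdg (by have := (A.m'_rng i).2; omega) ?_ hf hfB hg
        intro f' hf'
        rw [Finset.mem_sdiff]
        have h5 := (A.nch i).sub f' hf'
        rw [hA.nF] at h5
        exact ⟨h5, off_box hnear (Wdg_sub_Bx hf')⟩
      · exact hA.mu.elim i)

theorem Slb.selA_far (S : Slb) (hB : S.Comp B) (A : PAtlas ZQ S.D S.ψ ZD CD r nS nN t₀) (hA : A.Flat)
    (hS : ∀ i, ¬ S.near (4 * r + 1) (A.v i)) : (S.selA hB A hA hS).Flat where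
  s i a := hA.s i.1 a
  n i a := hA.n i.1 a
  sF i f := hA.sF i.1 f
  nF i f := hA.nF i.1 f
  mu := ⟨fun i => hA.mu.elim i.1⟩

/-- **the flat atlas in the sheared environment**, components `B` -/
def Slb.Ok.pushSel (h : S.Ok) (W : Finset (ℤ × ℤ)) (X Y : ℤ) (hB : S.Comp B)
    (A : PAtlas ZQ S.D S.ψ ZD CD r nS nN t₀) (hA : A.Flat)
    (hS : ∀ i, ¬ S.near (4 * r + 1) (A.v i)) :
    PAtlas (S.env W X Y).Q (S.env W X Y).F (S.ph W X Y) (S.env W X Y).Z
      ((selC B (S.far r CD)).image (h.shr W X Y).side) r nS nN t₀ :=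
  PAtlas.push (S.selA hB A hA hS) h.keepsShr (fun _ _ _ _ he => h.shr_injF he) (fun _ => True)
    (fun _ => True) (fun _ => True)
    (by
      intro i _ a ha
      rcases Finset.mem_union.1 ha with ha | ha
      · exact (A.ch i.1).bIn a ha
      · exact (A.ch i.1).bOut a ha)
    (by
      intro i _ a ha
      rcases Finset.mem_union.1 ha with ha | ha
      · exact (A.nch i.1).bIn a ha
      · exact (A.nch i.1).bOut a ha)
    (fun i => hA.mu.elim i.1)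
    (by
      intro a ha
      rw [Finset.mem_image] at ha
      obtain ⟨b, hb, rfl⟩ := ha
      rcases (S.selA hB A hA hS).cover b hb with ⟨i, h1⟩ | ⟨i, h1⟩ | ⟨i, _⟩
      · exact Or.inl ⟨i, trivial, b, h1, rfl⟩
      · exact Or.inr (Or.inl ⟨i, trivial, b, h1, rfl⟩)
      · exact hA.mu.elim i.1)

/-- the same in a part `F'` of the surface which contains the image of `B` -/
def Slb.Ok.pushIn (h : S.Ok) (W : Finset (ℤ × ℤ)) (X Y : ℤ) (hB : S.Comp B)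
    (A : PAtlas ZQ S.D S.ψ ZD CD r nS nN t₀) (hA : A.Flat)
    (hS : ∀ i, ¬ S.near (4 * r + 1) (A.v i)) {F' : Finset (Option Bool × (ℤ × ℤ))}
    (hF : F' ⊆ (S.env W X Y).F) (hFB : ∀ f ∈ S.D \ S.slb, B f → S.shrF X Y f ∈ F')
    {Z' : Finset ((Option Bool × (ℤ × ℤ)) × (Option Bool × (ℤ × ℤ)))}
    (hZ : ∀ f ∈ F', ∀ k, sd (S.env W X Y).Q f k ∈ (S.env W X Y).Z → sd (S.env W X Y).Q f k ∈ Z') :
    PAtlas (S.env W X Y).Q F' (S.ph W X Y) Z'
      ((selC B (S.far r CD)).image (h.shr W X Y).side) r nS nN t₀ :=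
  (h.pushSel W X Y hB A hA hS).restr hF (fun _ => True) (fun _ => True) (fun _ => True)
    (by
      intro i _ f hf
      have e : ((h.pushSel W X Y hB A hA hS).ch i).φF f = S.shrF X Y ((A.ch i.1.1).φF f) := rfl
      rw [e, hA.sF]
      refine hFB f ?_ (i.1.2 f hf)
      rw [Finset.mem_sdiff]
      have h5 := (A.ch i.1.1).sub f hf
      rw [hA.sF] at h5
      exact ⟨h5, off_box (hS i.1.1) (Wdg_sub_Bx hf)⟩)
    (by
      intro i _ f hf
      have e : ((h.pushSel W X Y hB A hA hS).nch i).φF f = S.shrF X Y ((A.nch i.1.1).φF f) := rfl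
      rw [e, hA.nF]
      refine hFB f ?_ (i.1.2.2 f hf)
      rw [Finset.mem_sdiff]
      have h5 := (A.nch i.1.1).sub f hf
      rw [hA.nF] at h5
      exact ⟨h5, off_box i.1.2.1 (Wdg_sub_Bx hf)⟩)
    (fun i => hA.mu.elim i.1.1)
    hZ
    (by
      intro a ha
      rcases (h.pushSel W X Y hB A hA hS).cover a ha with ⟨i, h1⟩ | ⟨i, h1⟩ | ⟨i, _⟩
      · exact Or.inl ⟨i, trivial, h1⟩
      · exact Or.inr (Or.inl ⟨i, trivial, h1⟩)
      · exact hA.mu.elim i.1.1)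

/-- **the atlas of the pockets in the whole sheared environment** -/
def Slb.Ok.pushAll (h : S.Ok) (W : Finset (ℤ × ℤ)) (X Y : ℤ)
    (A : PAtlas ZQ S.D S.ψ ZD CD r nS nN t₀) (hA : A.Flat)
    (hS : ∀ i, ¬ S.near (4 * r + 1) (A.v i)) :=
  h.pushSel W X Y S.comp_all A hA hS

/-- the upper half -/
def Slb.Ok.pushHi (h : S.Ok) (W : Finset (ℤ × ℤ)) (X Y y : ℤ)
    (A : PAtlas ZQ S.D S.ψ ZD CD r nS nN t₀) (hA : A.Flat)
    (hS : ∀ i, ¬ S.near (4 * r + 1) (A.v i))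
    {Z' : Finset ((Option Bool × (ℤ × ℤ)) × (Option Bool × (ℤ × ℤ)))}
    (hZ : ∀ f ∈ (S.env W X Y).hi y, ∀ k, sd (S.env W X Y).Q f k ∈ (S.env W X Y).Z →
      sd (S.env W X Y).Q f k ∈ Z') :
    PAtlas (S.env W X Y).Q ((S.env W X Y).hi y) (S.ph W X Y) Z'
      ((selC (fun f => f ∈ S.Up) (S.far r CD)).image (h.shr W X Y).side) r nS nN t₀ :=
  h.pushIn W X Y S.comp_up A hA hS (Finset.filter_subset _ _)
    (fun f _ hf => Finset.mem_filter.2 ⟨by rw [Slb.Ok.shrF_U hf]; exact Slb.Ok.mem_F_U hf,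
      by rw [Slb.Ok.shrF_U hf]; exact Or.inl rfl⟩) hZ

/-- the lower half -/
def Slb.Ok.pushLo (h : S.Ok) (W : Finset (ℤ × ℤ)) (X Y y : ℤ)
    (A : PAtlas ZQ S.D S.ψ ZD CD r nS nN t₀) (hA : A.Flat)
    (hS : ∀ i, ¬ S.near (4 * r + 1) (A.v i))
    {Z' : Finset ((Option Bool × (ℤ × ℤ)) × (Option Bool × (ℤ × ℤ)))}
    (hZ : ∀ f ∈ (S.env W X Y).lo y, ∀ k, sd (S.env W X Y).Q f k ∈ (S.env W X Y).Z →
      sd (S.env W X Y).Q f k ∈ Z') :
    PAtlas (S.env W X Y).Q ((S.env W X Y).lo y) (S.ph W X Y) Z'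
      ((selC (fun f => f ∈ S.Lo) (S.far r CD)).image (h.shr W X Y).side) r nS nN t₀ :=
  h.pushIn W X Y S.comp_lo A hA hS (Finset.filter_subset _ _)
    (fun f hf0 hf => by
      have hnU : f ∉ S.Up := by
        rcases h.cases hf0 with h1 | h1
        · exact absurd hf h1.2
        · exact h1.2
      exact Finset.mem_filter.2 ⟨by rw [Slb.Ok.shrF_L hnU]; exact Slb.Ok.mem_F_L hf,
        by rw [Slb.Ok.shrF_L hnU]; exact Or.inl rfl⟩) hZ

/-- the left half (cut along the column `x` outside of the pockets) -/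
def Slb.Ok.pushLf (h : S.Ok) (W : Finset (ℤ × ℤ)) (X Y x : ℤ)
    (A : PAtlas ZQ S.D S.ψ ZD CD r nS nN t₀) (hA : A.Flat)
    (hS : ∀ i, ¬ S.near (4 * r + 1) (A.v i))
    {Z' : Finset ((Option Bool × (ℤ × ℤ)) × (Option Bool × (ℤ × ℤ)))}
    (hZ : ∀ f ∈ (S.env W X Y).lf x, ∀ k, sd (S.env W X Y).Q f k ∈ (S.env W X Y).Z →
      sd (S.env W X Y).Q f k ∈ Z') :
    PAtlas (S.env W X Y).Q ((S.env W X Y).lf x) (S.ph W X Y) Z'
      ((selC (fun _ => True) (S.far r CD)).image (h.shr W X Y).side) r nS nN t₀ :=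
  h.pushIn W X Y S.comp_all A hA hS (Finset.filter_subset _ _)
    (fun f hf0 _ => by
      rcases h.cases hf0 with h1 | h1
      · exact Finset.mem_filter.2 ⟨by rw [Slb.Ok.shrF_U h1.1]; exact Slb.Ok.mem_F_U h1.1,
          by rw [Slb.Ok.shrF_U h1.1]; exact Or.inl (by simp)⟩
      · exact Finset.mem_filter.2 ⟨by rw [Slb.Ok.shrF_L h1.2]; exact Slb.Ok.mem_F_L h1.1,
          by rw [Slb.Ok.shrF_L h1.2]; exact Or.inl (by simp)⟩) hZ

/-! ### Products over the special charts, covered sides -/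

open Classical in
/-- the special charts of `A` in the components `B` -/
def Slb.selK (S : Slb) (B : ℤ × ℤ → Prop) (A : PAtlas ZQ S.D S.ψ ZD CD r nS nN t₀) : Finset A.κ :=
  Finset.univ.filter fun i => ∀ f ∈ Wdg (A.m i) (A.o i) (A.v i) (4 * r + 1), B f

theorem Slb.mem_selK {A : PAtlas ZQ S.D S.ψ ZD CD r nS nN t₀} {i : A.κ} :
    i ∈ S.selK B A ↔ ∀ f ∈ Wdg (A.m i) (A.o i) (A.v i) (4 * r + 1), B f := by
  unfold Slb.selK
  simp

theorem Slb.Ok.pushSel_prod (h : S.Ok) (W : Finset (ℤ × ℤ)) (X Y : ℤ) (hB : S.Comp B)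
    (A : PAtlas ZQ S.D S.ψ ZD CD r nS nN t₀) (hA : A.Flat)
    (hS : ∀ i, ¬ S.near (4 * r + 1) (A.v i)) (g : SK → ℕ → ℝ) :
    ∏ i, g ((h.pushSel W X Y hB A hA hS).K i) ((h.pushSel W X Y hB A hA hS).m i) =
      ∏ i ∈ S.selK B A, g (A.K i) (A.m i) := by
  classical
  refine Finset.prod_nbij (fun i => i.1.1) ?_ ?_ ?_ ?_
  · intro i _
    exact Slb.mem_selK.2 i.1.2
  · intro i _ j _ hij
    exact Subtype.ext (Subtype.ext hij)
  · intro i hi
    rw [Finset.mem_coe, Slb.mem_selK] at hi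
    exact ⟨⟨⟨i, hi⟩, trivial⟩, Finset.mem_coe.2 (Finset.mem_univ _), rfl⟩
  · intro i _
    rfl

theorem Slb.Ok.pushIn_prod (h : S.Ok) (W : Finset (ℤ × ℤ)) (X Y : ℤ) (hB : S.Comp B)
    (A : PAtlas ZQ S.D S.ψ ZD CD r nS nN t₀) (hA : A.Flat)
    (hS : ∀ i, ¬ S.near (4 * r + 1) (A.v i)) {F' : Finset (Option Bool × (ℤ × ℤ))}
    (hF : F' ⊆ (S.env W X Y).F) (hFB : ∀ f ∈ S.D \ S.slb, B f → S.shrF X Y f ∈ F')
    {Z' : Finset ((Option Bool × (ℤ × ℤ)) × (Option Bool × (ℤ × ℤ)))}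
    (hZ : ∀ f ∈ F', ∀ k, sd (S.env W X Y).Q f k ∈ (S.env W X Y).Z → sd (S.env W X Y).Q f k ∈ Z')
    (g : SK → ℕ → ℝ) :
    ∏ i, g ((h.pushIn W X Y hB A hA hS hF hFB hZ).K i) ((h.pushIn W X Y hB A hA hS hF hFB hZ).m i) =
      ∏ i ∈ S.selK B A, g (A.K i) (A.m i) := by
  classical
  refine Finset.prod_nbij (fun i => i.1.1.1) ?_ ?_ ?_ ?_
  · intro i _
    exact Slb.mem_selK.2 i.1.1.2
  · intro i _ j _ hij
    exact Subtype.ext (Subtype.ext (Subtype.ext hij))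
  · intro i hi
    rw [Finset.mem_coe, Slb.mem_selK] at hi
    exact ⟨⟨⟨⟨i, hi⟩, trivial⟩, trivial⟩, Finset.mem_coe.2 (Finset.mem_univ _), rfl⟩
  · intro i _
    rfl

theorem Slb.selK_all (S : Slb) (A : PAtlas ZQ S.D S.ψ ZD CD r nS nN t₀) :
    S.selK (fun _ => True) A = Finset.univ := by
  ext i
  rw [Slb.mem_selK]
  simp

/-- **every special chart lies in exactly one of the two parts** -/
theorem Slb.Ok.selK_parts (h : S.Ok) (A : PAtlas ZQ S.D S.ψ ZD CD r nS nN t₀) (hA : A.Flat)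
    (hS : ∀ i, ¬ S.near (4 * r + 1) (A.v i)) :
    Disjoint (S.selK (fun f => f ∈ S.Up) A) (S.selK (fun f => f ∈ S.Lo) A) ∧
      ∀ i, i ∈ S.selK (fun f => f ∈ S.Up) A ∨ i ∈ S.selK (fun f => f ∈ S.Lo) A := by
  have hD : ∀ i, ∀ f ∈ Wdg (A.m i) (A.o i) (A.v i) (4 * r + 1), f ∈ S.D \ S.slb := by
    intro i f hf
    rw [Finset.mem_sdiff]
    have h5 := (A.ch i).sub f hf
    rw [hA.sF] at h5
    exact ⟨h5, off_box (hS i) (Wdg_sub_Bx hf)⟩
  have hne : ∀ i, lf4 (A.o i) (A.v i) ∈ Wdg (A.m i) (A.o i) (A.v i) (4 * r + 1) := by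
    intro i
    rw [mem_Wdg]
    refine ⟨mem_Bx.1 (lf4_box (by omega) _ _), ?_⟩
    rw [lf4_quad, sub_self]
    have := (A.m_rng i).1
    simp only [ZMod.val_zero]
    omega
  constructor
  · rw [Finset.disjoint_left]
    intro i h1 h2
    rw [Slb.mem_selK] at h1 h2
    have h3 := h1 _ (hne i)
    have h4 := h2 _ (hne i)
    rcases h.cases (hD i _ (hne i)) with h5 | h5
    · exact h5.2 h4
    · exact h5.2 h3
  · intro i
    rw [Slb.mem_selK, Slb.mem_selK]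
    have hm : A.m i ≤ 4 := by have := (A.m_rng i).2; omega
    rcases h.cases (hD i _ (hne i)) with h5 | h5
    · exact Or.inl (fun g hg => S.comp_up.wdg hm (hD i) (hne i) h5.1 hg)
    · exact Or.inr (fun g hg => S.comp_lo.wdg hm (hD i) (hne i) h5.1 hg)

theorem Slb.Ok.prod_parts (h : S.Ok) (A : PAtlas ZQ S.D S.ψ ZD CD r nS nN t₀) (hA : A.Flat)
    (hS : ∀ i, ¬ S.near (4 * r + 1) (A.v i)) (g : SK → ℕ → ℝ) :
    (∏ i ∈ S.selK (fun f => f ∈ S.Up) A, g (A.K i) (A.m i)) *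
      (∏ i ∈ S.selK (fun f => f ∈ S.Lo) A, g (A.K i) (A.m i)) = ∏ i, g (A.K i) (A.m i) := by
  classical
  obtain ⟨h1, h2⟩ := h.selK_parts A hA hS
  rw [← Finset.prod_union h1]
  refine Finset.prod_congr ?_ fun _ _ => rfl
  ext i
  simp only [Finset.mem_univ, iff_true]
  rw [Finset.mem_union]
  exact h2 i

/-- the types of the special charts of the two parts -/
theorem Slb.Ok.types_parts (h : S.Ok) (A : PAtlas ZQ S.D S.ψ ZD CD r nS nN t₀) (hA : A.Flat)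
    (hS : ∀ i, ¬ S.near (4 * r + 1) (A.v i)) :
    (S.selK (fun f => f ∈ S.Up) A).val.map (fun i => (A.K i, A.m i)) +
      (S.selK (fun f => f ∈ S.Lo) A).val.map (fun i => (A.K i, A.m i)) =
        (Finset.univ : Finset A.κ).val.map (fun i => (A.K i, A.m i)) := by
  classical
  obtain ⟨h1, h2⟩ := h.selK_parts A hA hS
  rw [← Multiset.map_add]
  congr 1
  have e : (Finset.univ : Finset A.κ) =
      (S.selK (fun f => f ∈ S.Up) A).disjUnion (S.selK (fun f => f ∈ S.Lo) A) h1 := by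
    ext i
    simp only [Finset.mem_univ, true_iff]
    rw [Finset.mem_disjUnion]
    exact h2 i
  rw [e]
  rfl

theorem Slb.Ok.pushIn_types (h : S.Ok) (W : Finset (ℤ × ℤ)) (X Y : ℤ) (hB : S.Comp B)
    (A : PAtlas ZQ S.D S.ψ ZD CD r nS nN t₀) (hA : A.Flat)
    (hS : ∀ i, ¬ S.near (4 * r + 1) (A.v i)) {F' : Finset (Option Bool × (ℤ × ℤ))}
    (hF : F' ⊆ (S.env W X Y).F) (hFB : ∀ f ∈ S.D \ S.slb, B f → S.shrF X Y f ∈ F')
    {Z' : Finset ((Option Bool × (ℤ × ℤ)) × (Option Bool × (ℤ × ℤ)))}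
    (hZ : ∀ f ∈ F', ∀ k, sd (S.env W X Y).Q f k ∈ (S.env W X Y).Z → sd (S.env W X Y).Q f k ∈ Z') :
    (Finset.univ : Finset (h.pushIn W X Y hB A hA hS hF hFB hZ).κ).val.map
      (fun i => ((h.pushIn W X Y hB A hA hS hF hFB hZ).K i,
        (h.pushIn W X Y hB A hA hS hF hFB hZ).m i)) =
      (S.selK B A).val.map (fun i => (A.K i, A.m i)) := by
  have hinj : Function.Injective
      (fun i : (h.pushIn W X Y hB A hA hS hF hFB hZ).κ => (i.1.1.1 : A.κ)) :=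
    fun i j hij => Subtype.ext (Subtype.ext (Subtype.ext hij))
  have e : S.selK B A = (Finset.univ : Finset (h.pushIn W X Y hB A hA hS hF hFB hZ).κ).map
      ⟨fun i => i.1.1.1, hinj⟩ := by
    ext i
    rw [Slb.mem_selK, Finset.mem_map]
    constructor
    · intro hi
      exact ⟨⟨⟨⟨i, hi⟩, trivial⟩, trivial⟩, Finset.mem_univ _, rfl⟩
    · rintro ⟨j, -, rfl⟩
      exact j.1.1.2
  rw [e, Finset.map_val, Multiset.map_map]
  rfl

theorem mem_selC {a : (ℤ × ℤ) × (ℤ × ℤ)} {C : Finset ((ℤ × ℤ) × (ℤ × ℤ))} :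
    a ∈ selC B C ↔ a ∈ C ∧ ∃ f k, a = sd ZQ f k ∧ B f := by
  classical
  unfold selC
  rw [Finset.mem_filter]

theorem selC_all {C : Finset ((ℤ × ℤ) × (ℤ × ℤ))} {D : Finset (ℤ × ℤ)} (hC : C ⊆ bS ZQ D) :
    selC (fun _ => True) C = C := by
  ext a
  rw [mem_selC]
  constructor
  · exact fun h => h.1
  · intro h
    obtain ⟨f, _, k, he⟩ := bS_sd (hC h)
    exact ⟨h, f, k, he, trivial⟩

/-- the far sides of `D` belong to the upper or to the lower part -/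
theorem Slb.Ok.selC_parts (h : S.Ok) {C : Finset ((ℤ × ℤ) × (ℤ × ℤ))} (hC : C ⊆ bS ZQ S.D) :
    selC (fun f => f ∈ S.Up) (S.far r C) ∪ selC (fun f => f ∈ S.Lo) (S.far r C) = S.far r C := by
  classical
  ext a
  rw [Finset.mem_union, mem_selC, mem_selC]
  constructor
  · rintro (h1 | h1)
    · exact h1.1
    · exact h1.1
  · intro ha
    have ha' := ha
    unfold Slb.far farC at ha
    rw [Finset.mem_filter] at ha
    obtain ⟨f, hf, k, rfl⟩ := bS_sd (hC ha.1)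
    have hs : f ∉ S.slb := by
      intro hs
      refine ha.2 ?_
      rw [mem_RF] at hs
      unfold nearS sd
      rcases corc f k with ⟨-, e⟩ | ⟨-, e⟩ | ⟨-, e⟩ | ⟨-, e⟩ <;> rw [e] <;> simp only <;>
        push_cast <;> omega
    rcases h.cases (Finset.mem_sdiff.2 ⟨hf, hs⟩) with h5 | h5
    · exact Or.inl ⟨ha', f, k, rfl, h5.1⟩
    · exact Or.inr ⟨ha', f, k, rfl, h5.1⟩

end

end

end Pool.Agent.SixB
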