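import Pool.Agent.Lib.SixB.S7Defs

/-!
# Step 7, planar core: the strands match the boundary unit edges, (Du) and (NC)
-/

set_option autoImplicit false

namespace Pool.Agent.SixB

open Finset Pool.Agent.Perc Pool.Agent.Perc6

variable {ω ω' : Cfg} {e a : UE} {p q u v : ℤ × ℤ}

theorem Joins.uniq {e e' : UE} (h : Joins e p q) (h' : Joins e' p q) : e = e' := by
  obtain ⟨x, y, b⟩ := e
  obtain ⟨x', y', b'⟩ := e'
  obtain ⟨p1, p2⟩ := p
  obtain ⟨q1, q2⟩ := q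
  cases b <;> cases b' <;> simp [Joins, ua, ub] at h h' ⊢ <;> omega

theorem two_faces (x y : ℤ) (f : ℤ × ℤ) :
    IsSide f (x, y, false) ↔ f = (x, y) ∨ f = (x, y - 1) := by
  obtain ⟨f1, f2⟩ := f
  simp [IsSide, bo, le', to', ri]
  omega

theorem two_faces' (x y : ℤ) (f : ℤ × ℤ) :
    IsSide f (x, y, true) ↔ f = (x, y) ∨ f = (x - 1, y) := by
  obtain ⟨f1, f2⟩ := f
  simp [IsSide, bo, le', to', ri]
  omega

/-- One direction of the double count. -/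
theorem sum_shift (F : Finset (ℤ × ℤ)) (χ : UE → ZMod 2) (φ : ℤ × ℤ → ℤ × ℤ)
    (hφ : Function.Injective φ) (s : ℤ × ℤ → UE) :
    ∑ f ∈ F, χ (s f) + ∑ f ∈ F, χ (s (φ f)) =
      ∑ f ∈ F \ F.image φ, χ (s f) + ∑ f ∈ F.image φ \ F, χ (s f) := by
  classical
  have h1 : ∑ f ∈ F, χ (s (φ f)) = ∑ f ∈ F.image φ, χ (s f) := by
    rw [Finset.sum_image fun a _ b _ h => hφ h]
  rw [h1, ← Finset.sum_inter_add_sum_sdiff F (F.image φ),
    ← Finset.sum_inter_add_sum_sdiff (F.image φ) F]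
  rw [Finset.inter_comm (F.image φ) F]
  have h2 : ∀ x : ZMod 2, x + x = 0 := z2_add_self
  have h3 := h2 (∑ f ∈ F ∩ F.image φ, χ (s f))
  linear_combination h3

theorem exists_other {F : Finset (ℤ × ℤ)} (he : BdU (F : Set (ℤ × ℤ)) e) :
    ∃ t ∈ MM ω F e, BdU (F : Set (ℤ × ℤ)) t ∧ t ≠ e := by
  classical
  by_contra hno
  push Not at hno
  set M := MM ω (F : Set (ℤ × ℤ)) e with hM
  set χ : UE → ZMod 2 := fun a => if a ∈ M then 1 else 0 with hχ
  have h0 : ∑ f ∈ F, (χ (bo f) + χ (to' f) + (χ (le' f) + χ (ri f))) = 0 := by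
    apply Finset.sum_eq_zero
    intro f hf
    have h := MM_even (ω := ω) (e := e) (F := (F : Set (ℤ × ℤ))) (Finset.mem_coe.2 hf)
    rw [← hM] at h
    simp only [hχ]
    rcases h with ⟨h1, h2, -⟩ | ⟨h1, h2, -⟩ <;>
      by_cases k1 : bo f ∈ M <;> by_cases k2 : to' f ∈ M <;> by_cases k3 : le' f ∈ M <;>
      by_cases k4 : ri f ∈ M <;> simp_all <;> decide
  have hbo : ∀ f : ℤ × ℤ, to' f = bo (f.1, f.2 + 1) := fun f => rfl
  have hri : ∀ f : ℤ × ℤ, ri f = le' (f.1 + 1, f.2) := fun f => rfl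
  rw [Finset.sum_add_distrib, Finset.sum_add_distrib, Finset.sum_add_distrib] at h0
  have i1 : Function.Injective fun f : ℤ × ℤ => (f.1, f.2 + 1) := by
    rintro ⟨a, b⟩ ⟨c, d⟩ h; simp at h; simp [h]
  have i2 : Function.Injective fun f : ℤ × ℤ => (f.1 + 1, f.2) := by
    rintro ⟨a, b⟩ ⟨c, d⟩ h; simp at h; simp [h]
  have s1 := sum_shift F χ _ i1 bo
  have s2 := sum_shift F χ _ i2 le'
  simp only [hbo, hri] at h0
  rw [s1, s2] at h0
  have m1 : ∀ f : ℤ × ℤ, f ∈ F.image (fun f : ℤ × ℤ => (f.1, f.2 + 1)) ↔ (f.1, f.2 - 1) ∈ F := by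
    rintro ⟨x, y⟩
    rw [Finset.mem_image]
    constructor
    · rintro ⟨⟨a, b⟩, h, h'⟩
      simp only [Prod.mk.injEq] at h'
      obtain ⟨rfl, rfl⟩ := h'
      simpa using h
    · intro h
      exact ⟨_, h, by simp⟩
  have m2 : ∀ f : ℤ × ℤ, f ∈ F.image (fun f : ℤ × ℤ => (f.1 + 1, f.2)) ↔ (f.1 - 1, f.2) ∈ F := by
    rintro ⟨x, y⟩
    rw [Finset.mem_image]
    constructor
    · rintro ⟨⟨a, b⟩, h, h'⟩
      simp only [Prod.mk.injEq] at h'
      obtain ⟨rfl, rfl⟩ := h'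
      simpa using h
    · intro h
      exact ⟨_, h, by simp⟩
  -- a boundary unit edge in the component is `e`
  have key : ∀ t : UE, BdU (F : Set (ℤ × ℤ)) t → χ t = if t = e then 1 else 0 := by
    intro t ht
    simp only [hχ]
    by_cases h : t = e
    · rw [if_pos h, if_pos (by rw [h]; exact mem_MM_self)]
    · rw [if_neg h, if_neg fun hm => h (hno t hm ht)]
  have bdb : ∀ f : ℤ × ℤ, ((f ∈ F ∧ (f.1, f.2 - 1) ∉ F) ∨ (f ∉ F ∧ (f.1, f.2 - 1) ∈ F)) →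
      BdU (F : Set (ℤ × ℤ)) (bo f) := by
    rintro ⟨x, y⟩ h
    have j1 : IsSide (x, y) (bo (x, y)) := Or.inl rfl
    have j2 : IsSide (x, y - 1) (bo (x, y)) := (two_faces x y _).2 (Or.inr rfl)
    rcases h with ⟨h1, h2⟩ | ⟨h1, h2⟩
    · exact ⟨⟨_, h1, j1⟩, _, h2, j2⟩
    · exact ⟨⟨_, h2, j2⟩, _, h1, j1⟩
  have bdl : ∀ f : ℤ × ℤ, ((f ∈ F ∧ (f.1 - 1, f.2) ∉ F) ∨ (f ∉ F ∧ (f.1 - 1, f.2) ∈ F)) →
      BdU (F : Set (ℤ × ℤ)) (le' f) := by
    rintro ⟨x, y⟩ h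
    have j1 : IsSide (x, y) (le' (x, y)) := Or.inr (Or.inl rfl)
    have j2 : IsSide (x - 1, y) (le' (x, y)) := (two_faces' x y _).2 (Or.inr rfl)
    rcases h with ⟨h1, h2⟩ | ⟨h1, h2⟩
    · exact ⟨⟨_, h1, j1⟩, _, h2, j2⟩
    · exact ⟨⟨_, h2, j2⟩, _, h1, j1⟩
  obtain ⟨x, y, b⟩ := e
  obtain ⟨⟨f, hf, hs⟩, f', hf', hs'⟩ := he
  cases b with
  | false =>
    rw [two_faces] at hs hs'
    have hx : (((x, y) : ℤ × ℤ) ∈ F ∧ (x, y - 1) ∉ F) ∨ ((x, y) ∉ F ∧ (x, y - 1) ∈ F) := by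
      rcases hs with rfl | rfl <;> rcases hs' with rfl | rfl
      · exact absurd hf hf'
      · exact Or.inl ⟨hf, hf'⟩
      · exact Or.inr ⟨hf', hf⟩
      · exact absurd hf hf'
    have z2 : ∑ f ∈ F \ F.image (fun f : ℤ × ℤ => (f.1 + 1, f.2)), χ (le' f) = 0 := by
      apply Finset.sum_eq_zero
      intro f hf
      rw [Finset.mem_sdiff, m2] at hf
      rw [key _ (bdl f (Or.inl hf)), if_neg (by simp [le'])]
    have z3 : ∑ f ∈ F.image (fun f : ℤ × ℤ => (f.1 + 1, f.2)) \ F, χ (le' f) = 0 := by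
      apply Finset.sum_eq_zero
      intro f hf
      rw [Finset.mem_sdiff, m2] at hf
      rw [key _ (bdl f (Or.inr ⟨hf.2, hf.1⟩)), if_neg (by simp [le'])]
    have z1 : ∑ f ∈ F \ F.image (fun f : ℤ × ℤ => (f.1, f.2 + 1)), χ (bo f) +
        ∑ f ∈ F.image (fun f : ℤ × ℤ => (f.1, f.2 + 1)) \ F, χ (bo f) = 1 := by
      have r1 : ∀ f ∈ F \ F.image (fun f : ℤ × ℤ => (f.1, f.2 + 1)),
          χ (bo f) = if f = (x, y) then 1 else 0 := by
        intro f hf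
        rw [Finset.mem_sdiff, m1] at hf
        rw [key _ (bdb f (Or.inl hf))]
        simp [bo, Prod.ext_iff]
      have r2 : ∀ f ∈ F.image (fun f : ℤ × ℤ => (f.1, f.2 + 1)) \ F,
          χ (bo f) = if f = (x, y) then 1 else 0 := by
        intro f hf
        rw [Finset.mem_sdiff, m1] at hf
        rw [key _ (bdb f (Or.inr ⟨hf.2, hf.1⟩))]
        simp [bo, Prod.ext_iff]
      rw [Finset.sum_congr rfl r1, Finset.sum_congr rfl r2, Finset.sum_ite_eq', Finset.sum_ite_eq']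
      simp only [Finset.mem_sdiff, m1]
      rcases hx with ⟨h1, h2⟩ | ⟨h1, h2⟩ <;> simp [h1, h2]
    rw [z1, z2, z3] at h0
    exact absurd h0 (by decide)
  | true =>
    rw [two_faces'] at hs hs'
    have hx : (((x, y) : ℤ × ℤ) ∈ F ∧ (x - 1, y) ∉ F) ∨ ((x, y) ∉ F ∧ (x - 1, y) ∈ F) := by
      rcases hs with rfl | rfl <;> rcases hs' with rfl | rfl
      · exact absurd hf hf'
      · exact Or.inl ⟨hf, hf'⟩
      · exact Or.inr ⟨hf', hf⟩
      · exact absurd hf hf'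
    have z2 : ∑ f ∈ F \ F.image (fun f : ℤ × ℤ => (f.1, f.2 + 1)), χ (bo f) = 0 := by
      apply Finset.sum_eq_zero
      intro f hf
      rw [Finset.mem_sdiff, m1] at hf
      rw [key _ (bdb f (Or.inl hf)), if_neg (by simp [bo])]
    have z3 : ∑ f ∈ F.image (fun f : ℤ × ℤ => (f.1, f.2 + 1)) \ F, χ (bo f) = 0 := by
      apply Finset.sum_eq_zero
      intro f hf
      rw [Finset.mem_sdiff, m1] at hf
      rw [key _ (bdb f (Or.inr ⟨hf.2, hf.1⟩)), if_neg (by simp [bo])]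
    have z1 : ∑ f ∈ F \ F.image (fun f : ℤ × ℤ => (f.1 + 1, f.2)), χ (le' f) +
        ∑ f ∈ F.image (fun f : ℤ × ℤ => (f.1 + 1, f.2)) \ F, χ (le' f) = 1 := by
      have r1 : ∀ f ∈ F \ F.image (fun f : ℤ × ℤ => (f.1 + 1, f.2)),
          χ (le' f) = if f = (x, y) then 1 else 0 := by
        intro f hf
        rw [Finset.mem_sdiff, m2] at hf
        rw [key _ (bdl f (Or.inl hf))]
        simp [le', Prod.ext_iff]
      have r2 : ∀ f ∈ F.image (fun f : ℤ × ℤ => (f.1 + 1, f.2)) \ F,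
          χ (le' f) = if f = (x, y) then 1 else 0 := by
        intro f hf
        rw [Finset.mem_sdiff, m2] at hf
        rw [key _ (bdl f (Or.inr ⟨hf.2, hf.1⟩))]
        simp [le', Prod.ext_iff]
      rw [Finset.sum_congr rfl r1, Finset.sum_congr rfl r2, Finset.sum_ite_eq', Finset.sum_ite_eq']
      simp only [Finset.mem_sdiff, m2]
      rcases hx with ⟨h1, h2⟩ | ⟨h1, h2⟩ <;> simp [h1, h2]
    rw [z1, z2, z3] at h0
    exact absurd h0 (by decide)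

end Pool.Agent.SixB
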