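import Pool.Agent.Lib.SixB.S3Fe
import Pool.Agent.Lib.SixB.S7TopA
import Pool.Agent.Lib.MP_6bd702_z.HPFinal

/-!
# 6BD, step 3: no arc over a wall vertex

`arm_of_no_arc`: if no strand of the half box of radius `R` around the wall vertex `v` joins the wall
on the left of `v` to the wall on the right of `v`, then `v` is joined to the left, right or top side
of the half box. So the probability of this event (the local factor `b(R)` of a base mark seen in the
mirror) is at most `C R ^ (-1 / 3)` by the landed half plane arm (`noArc_le`).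

`fe_le`: if no strand of the half box joins the two sides of the wall around the unit edge on the
right of `v` (a strand which starts on the left of `v` and ends on the right of the unit edge), then
`v` or its right neighbour has an arm, so this probability is at most `2 C R ^ (-1 / 3)` and
`fe_mul_sq_le` (times `R ^ (-2 / 3)` it is at most a constant times the probability that the strand
of the unit edge leaves the half box).
-/

set_option autoImplicit false

namespace Pool.Agent.SixB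

open Finset Pool.Agent.Perc Pool.Agent.PercD Pool.Agent.PercN Pool.Agent.Perc6 Pool.Agent.SixB.A1

variable {ω : Cfg} {v : ℤ × ℤ} {R : ℤ} {a : UE}

/-- A strand of the half box which joins the wall on the left of `v` to the wall on the right. -/
def ArcOver (v : ℤ × ℤ) (R : ℤ) : Set Cfg :=
  {ω | ∃ x y, x < v.1 ∧ v.1 ≤ y ∧ ((y, v.2, false) : UE) ∈ MM ω (HB v R) (x, v.2, false)}

/-- The arm of `v` in the half box. -/
def HArm (v : ℤ × ℤ) (R : ℤ) : Set Cfg :=
  {ω | ∃ w, Conn ω (HB v R) v w ∧ (w.1 = v.1 - R ∨ w.1 = v.1 + R ∨ w.2 = v.2 + R)}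

theorem bdU_wall {x : ℤ} (hR : 0 < R) (h1 : v.1 - R ≤ x) (h2 : x < v.1 + R) :
    BdU (HB v R : Set (ℤ × ℤ)) (x, v.2, false) := by
  refine ⟨⟨(x, v.2), ?_, Or.inl rfl⟩, ⟨(x, v.2 - 1), ?_, Or.inr (Or.inr (Or.inl ?_))⟩⟩
  · rw [mem_HB]
    simp only
    omega
  · rw [mem_HB]
    simp only
    omega
  · simp [to']

/-- The boundary unit edges of the half box. -/
theorem bdU_HB (h : BdU (HB v R : Set (ℤ × ℤ)) a) :
    (∃ x, a = (x, v.2, false) ∧ v.1 - R ≤ x ∧ x < v.1 + R) ∨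
      ((ua a).1 = v.1 - R ∧ (ub a).1 = v.1 - R) ∨ ((ua a).1 = v.1 + R ∧ (ub a).1 = v.1 + R) ∨
      ((ua a).2 = v.2 + R ∧ (ub a).2 = v.2 + R) := by
  obtain ⟨⟨⟨f1, f2⟩, hf, hs⟩, ⟨g1, g2⟩, hg, hs'⟩ := h
  rw [mem_HB] at hf hg
  simp only at hf hg
  obtain ⟨x, y, b⟩ := a
  unfold IsSide bo le' to' ri at hs hs'
  cases b
  · simp only [Prod.mk.injEq, Bool.false_eq_true, and_false, or_false, false_or,
      and_true] at hs hs'
    simp only [ua_mk, ub_false]
    by_cases h3 : y = v.2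
    · left
      exact ⟨x, by rw [h3], by omega, by omega⟩
    · right; right; right
      omega
  · simp only [Prod.mk.injEq, Bool.true_eq_false, and_false, false_or,
      and_true] at hs hs'
    simp only [ua_mk, ub_true]
    omega

/-- Without an arc over `v` there is an arm. -/
theorem arm_of_no_arc (hR : 0 < R) (h : ω ∉ ArcOver v R) : ω ∈ HArm v R := by
  by_contra hno
  have hno' : ∀ w, Conn ω (HB v R) v w → w.1 ≠ v.1 - R ∧ w.1 ≠ v.1 + R ∧ w.2 ≠ v.2 + R := by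
    intro w hw
    refine ⟨fun h1 => hno ⟨w, hw, Or.inl h1⟩, fun h1 => hno ⟨w, hw, Or.inr (Or.inl h1)⟩,
      fun h1 => hno ⟨w, hw, Or.inr (Or.inr h1)⟩⟩
  -- the leftmost wall vertex of the cluster of `v`
  obtain ⟨p, ⟨hp1, hp2⟩, hpmin⟩ : ∃ p : ℤ, (v.1 - R ≤ p ∧ Conn ω (HB v R) v (p, v.2)) ∧
      ∀ q : ℤ, v.1 - R ≤ q → Conn ω (HB v R) v (q, v.2) → p ≤ q := by
    obtain ⟨p, h1, h2⟩ := Int.exists_least_of_bdd
      (P := fun q : ℤ => v.1 - R ≤ q ∧ Conn ω (HB v R) v (q, v.2))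
      ⟨v.1 - R, fun z hz => hz.1⟩ ⟨v.1, by omega, Relation.ReflTransGen.refl⟩
    exact ⟨p, h1, fun q h3 h4 => h2 q ⟨h3, h4⟩⟩
  have hpv : p ≤ v.1 := hpmin v.1 (by omega) Relation.ReflTransGen.refl
  have hpR : p ≠ v.1 - R := (hno' _ hp2).1
  have hbe : BdU (HB v R : Set (ℤ × ℤ)) (p - 1, v.2, false) := bdU_wall hR (by omega) (by omega)
  obtain ⟨t, ht, hbt, hte⟩ := exists_other (ω := ω) hbe
  have hj : Joins ((p - 1, v.2, false) : UE) (p, v.2) (p - 1, v.2) := by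
    right
    simp [ua, ub]
  obtain ⟨c, d, hcj, -, hcc⟩ := MM_conn hj ht
  have hcc' : Conn ω (HB v R : Set (ℤ × ℤ)) v c :=
    hp2.trans (Conn.mono (fun f hf => hf.1) hcc)
  have hcu : c = ua t ∨ c = ub t := by
    rcases hcj with ⟨h1, -⟩ | ⟨h1, -⟩
    · exact Or.inl h1
    · exact Or.inr h1
  have h3 := hno' c hcc'
  rcases bdU_HB hbt with ⟨x, rfl, hx1, hx2⟩ | ⟨h1, h2⟩ | ⟨h1, h2⟩ | ⟨h1, h2⟩
  · by_cases hxv : v.1 ≤ x
    · exact h ⟨p - 1, x, by omega, hxv, ht⟩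
    · have hxp : p - 1 ≤ x := by
        rcases hcu with rfl | rfl
        · have := hpmin x hx1 hcc'
          omega
        · rw [ub_false] at hcc'
          have := hpmin (x + 1) (by omega) hcc'
          omega
      have hxp' : x ≠ p - 1 := fun h4 => hte (by rw [h4])
      obtain ⟨Φ, hP⟩ := (show HasPot (HB v R : Set (ℤ × ℤ)) from hasPot_RF _ _ _ _)
        (MM ω (HB v R) (p - 1, v.2, false)) fun f hf => evenAt_MM hf
      have hw : ∀ s t : ℤ, p ≤ s → s ≤ t → t ≤ v.1 → (∀ i, s ≤ i → i < t → i ≠ x) →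
          Φ (s, v.2) = Φ (t, v.2) := by
        intro s t h1 h2 h3 h4
        refine pot_segH hP h2 fun i hi hi' => ⟨(bdU_wall hR (by omega) (by omega)).1, ?_⟩
        intro hm
        have := bdU_unique hbe hm ht (bdU_wall hR (by omega) (by omega)) hbt
          (by simp; omega) hte
        simp only [Prod.mk.injEq, and_true] at this
        exact h4 i hi hi' this
      have e1 := hw p x le_rfl (by omega) (by omega) (by intro i _ _; omega)
      have e2 := hw (x + 1) v.1 (by omega) (by omega) le_rfl (by intro i _ _; omega)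
      have e3 : Φ (x, v.2) ≠ Φ (x + 1, v.2) := by
        obtain ⟨f, hf, hs⟩ := hbt.1
        have := (hP f hf _ hs).1 ht
        simpa [ua, ub] using this
      have e4 := hP.conn hp2
      rw [← e1] at e3
      rw [e2] at e3
      exact e3 e4.symm
  · rcases hcu with rfl | rfl
    · exact h3.1 h1
    · exact h3.1 h2
  · rcases hcu with rfl | rfl
    · exact h3.2.1 h1
    · exact h3.2.1 h2
  · rcases hcu with rfl | rfl
    · exact h3.2.2 h1
    · exact h3.2.2 h2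

theorem depOn_ArcOver (v : ℤ × ℤ) (R : ℤ) : DepOn (HB v R : Set (ℤ × ℤ)) (ArcOver v R) := by
  intro ω ω' h
  have key : ∀ e, MM ω' (HB v R : Set (ℤ × ℤ)) e = MM ω (HB v R : Set (ℤ × ℤ)) e := fun e =>
    MM_congr' h
  unfold ArcOver
  rw [Set.mem_ofPred_eq, Set.mem_ofPred_eq]
  simp only [key]

theorem depOn_HArm (v : ℤ × ℤ) (R : ℤ) : DepOn (HB v R : Set (ℤ × ℤ)) (HArm v R) := by
  intro ω ω' h
  simp only [HArm, Set.mem_ofPred_eq, GridA.conn_iff _ h]

theorem pr_HArm (v : ℤ × ℤ) (R : ℤ) : pr (HB v R) (HArm v R) = pArm R := by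
  have M := Sym.maps_S v.1 v.2 (-R) R 0 R
  have e1 : -R + v.1 = v.1 - R := by ring
  have e2 : R + v.1 = v.1 + R := by ring
  have e3 : R + v.2 = v.2 + R := by ring
  rw [e1, e2, zero_add, e3] at M
  have h1 : (RF (-R) R 0 R).image (symS v.1 v.2).f = HB v R := M.image_RF
  have h2 := Sym.pr_act (symS v.1 v.2) (S := RF (-R) R 0 R) (A := HArm v R)
    (by rw [h1]; exact depOn_HArm _ _)
  rw [h1] at h2
  rw [← h2]
  unfold pArm
  congr 1
  ext ω
  unfold HArm hpArm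
  rw [Set.mem_ofPred_eq, Set.mem_ofPred_eq, Set.mem_ofPred_eq]
  have hv : (symS v.1 v.2).v (0, 0) = v := by
    simp [symS, hsymS]
  constructor
  · rintro ⟨w, hw, h3⟩
    obtain ⟨w, rfl⟩ := (symS v.1 v.2).v.surjective w
    refine ⟨w, ?_, ?_⟩
    · have := M.conn_iff (ω := ω) (u := (0, 0)) (v := w)
      rw [hv] at this
      exact this.1 hw
    · simp only [symS, hsymS, Equiv.coe_fn_mk] at h3
      omega
  · rintro ⟨w, hw, h3⟩
    refine ⟨(symS v.1 v.2).v w, ?_, ?_⟩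
    · have := M.conn_iff (ω := ω) (u := (0, 0)) (v := w)
      rw [hv] at this
      exact this.2 hw
    · simp only [symS, hsymS, Equiv.coe_fn_mk]
      omega

/-- **No arc over a wall vertex**: probability at most `C R ^ (-1 / 3)`. -/
theorem noArc_le : ∃ C : ℝ, 0 < C ∧ ∀ (v : ℤ × ℤ) (R : ℤ) (W : Finset (ℤ × ℤ)), 0 < R →
    HB v R ⊆ W → pr W (ArcOver v R)ᶜ ≤ C * (R : ℝ) ^ (-(1 / 3 : ℝ)) := by
  obtain ⟨C, hC⟩ := pArm_le rswF rswF'
  refine ⟨max C 1, by positivity, fun v R W hR hW => ?_⟩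
  obtain ⟨n, rfl⟩ := Int.eq_ofNat_of_zero_le hR.le
  have h1 : pr W (ArcOver v n)ᶜ ≤ pr W (HArm v n) := pr_mono _ fun ω hω => arm_of_no_arc hR hω
  rw [pr_eq_of_depOn (depOn_HArm v n) hW, pr_HArm] at h1
  have h2 := hC n (by omega)
  have h3 : (0 : ℝ) ≤ (n : ℝ) ^ (-(1 / 3 : ℝ)) := by positivity
  push_cast
  calc pr W (ArcOver v n)ᶜ ≤ C * (n : ℝ) ^ (-(1 / 3 : ℝ)) := h1.trans h2
    _ ≤ max C 1 * (n : ℝ) ^ (-(1 / 3 : ℝ)) := by gcongr; exact le_max_left _ _

/-! ### The unit edge -/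

/-- A strand of the half box which joins the wall on the left of `v` to the wall on the right of the
unit edge on the right of `v`. -/
def ArcOverE (v : ℤ × ℤ) (R : ℤ) : Set Cfg :=
  {ω | ∃ x y, x < v.1 ∧ v.1 + 1 ≤ y ∧ ((y, v.2, false) : UE) ∈ MM ω (HB v R) (x, v.2, false)}

theorem isSide_wall {f : ℤ × ℤ} {x : ℤ} (hf : f ∈ (HB v R : Set (ℤ × ℤ)))
    (hs : IsSide f (x, v.2, false)) : v.1 - R ≤ x ∧ x < v.1 + R := by
  rw [mem_HB] at hf
  unfold IsSide bo le' to' ri at hs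
  simp only [Prod.mk.injEq, Bool.false_eq_true, and_false, or_false, false_or, and_true] at hs
  omega

/-- The two ends of a strand from the wall to the wall. -/
theorem wall_of_MM (hR : 0 < R) {x y : ℤ} (hne : y ≠ x)
    (h : ((y, v.2, false) : UE) ∈ MM ω (HB v R) (x, v.2, false)) :
    BdU (HB v R : Set (ℤ × ℤ)) (y, v.2, false) ∧ BdU (HB v R : Set (ℤ × ℤ)) (x, v.2, false) := by
  constructor
  · rcases Relation.ReflTransGen.cases_tail h with h1 | ⟨b, -, f, hf, hm⟩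
    · simp only [Prod.mk.injEq, and_true] at h1
      exact absurd h1 hne
    · have := isSide_wall hf hm.right
      exact bdU_wall hR this.1 this.2
  · rcases Relation.ReflTransGen.cases_head h with h1 | ⟨b, ⟨f, hf, hm⟩, -⟩
    · simp only [Prod.mk.injEq, and_true] at h1
      exact absurd h1.symm hne
    · have := isSide_wall hf hm.left
      exact bdU_wall hR this.1 this.2

/-- Without an arc over the unit edge on the right of `v`, there is no arc over `v` or no arc over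
its right neighbour. -/
theorem noArcE_sub (hR : 0 < R) : (ArcOverE v R)ᶜ ⊆
    (ArcOver v R)ᶜ ∪ (ArcOver (v.1 + 1, v.2) (R - 1))ᶜ := by
  intro ω hω
  by_contra hcon
  rw [Set.mem_union, not_or, Set.mem_compl_iff, Set.mem_compl_iff, not_not, not_not] at hcon
  obtain ⟨⟨x, y, h1, h2, h3⟩, ⟨x', y', h1', h2', h3'⟩⟩ := hcon
  have hsub : (HB (v.1 + 1, v.2) (R - 1) : Set (ℤ × ℤ)) ⊆ (HB v R : Set (ℤ × ℤ)) := by
    intro f hf
    rw [mem_HB] at hf ⊢
    simp only at hf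
    omega
  simp only at h1' h2' h3'
  have h4 : ((y', v.2, false) : UE) ∈ MM ω (HB v R) (x', v.2, false) := MM_mono hsub h3'
  by_cases hy : v.1 + 1 ≤ y
  · exact hω ⟨x, y, h1, hy, h3⟩
  · have hyv : y = v.1 := by omega
    by_cases hx : x' < v.1
    · exact hω ⟨x', y', hx, by omega, h4⟩
    · have hxv : x' = v.1 := by omega
      subst hyv
      subst hxv
      have h5 := MM_symm h3
      -- three boundary unit edges of one strand
      have hb3 := wall_of_MM hR (by omega) h3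
      have hb4 := wall_of_MM hR (by omega) h4
      have := bdU_unique hb4.2 h4 h5 hb4.1 hb3.2 (by simp; omega) (by simp; omega)
      simp only [Prod.mk.injEq, and_true] at this
      omega

/-- **No arc over a unit edge of the wall**: probability at most `C R ^ (-1 / 3)`. -/
theorem noArcE_le : ∃ C : ℝ, 0 < C ∧ ∀ (v : ℤ × ℤ) (R : ℤ) (W : Finset (ℤ × ℤ)), 0 < R →
    HB v R ⊆ W → pr W (ArcOverE v R)ᶜ ≤ C * (R : ℝ) ^ (-(1 / 3 : ℝ)) := by
  obtain ⟨C, hC, h⟩ := noArc_le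
  refine ⟨3 * C + 1, by positivity, fun v R W hR hW => ?_⟩
  have hRr : (0 : ℝ) < R := by exact_mod_cast hR
  have hRp : 0 < (R : ℝ) ^ (-(1 / 3 : ℝ)) := Real.rpow_pos_of_pos hRr _
  by_cases h1 : R = 1
  · subst h1
    simp only [Int.cast_one, Real.one_rpow, mul_one]
    exact (pr_le_one _ _).trans (by linarith)
  · have hW' : HB (v.1 + 1, v.2) (R - 1) ⊆ W := by
      intro f hf
      refine hW ?_
      rw [← mem_coe, mem_HB] at hf ⊢
      simp only at hf
      omega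
    have hk : ((R - 1 : ℤ) : ℝ) ^ (-(1 / 3 : ℝ)) ≤ 2 * (R : ℝ) ^ (-(1 / 3 : ℝ)) := by
      have hR1 : (R : ℝ) / 2 ≤ ((R - 1 : ℤ) : ℝ) := by
        push_cast
        have : (2 : ℝ) ≤ R := by exact_mod_cast (by omega : 2 ≤ R)
        linarith
      calc ((R - 1 : ℤ) : ℝ) ^ (-(1 / 3 : ℝ)) ≤ ((R : ℝ) / 2) ^ (-(1 / 3 : ℝ)) :=
            Real.rpow_le_rpow_of_nonpos (by positivity) hR1 (by norm_num)
        _ = (R : ℝ) ^ (-(1 / 3 : ℝ)) * (1 / 2 : ℝ) ^ (-(1 / 3 : ℝ)) := by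
            rw [div_eq_mul_one_div, Real.mul_rpow hRr.le (by norm_num)]
        _ ≤ (R : ℝ) ^ (-(1 / 3 : ℝ)) * 2 := by
            gcongr
            rw [one_div, Real.inv_rpow (by norm_num), Real.rpow_neg (by norm_num), inv_inv]
            calc (2 : ℝ) ^ (1 / 3 : ℝ) ≤ (2 : ℝ) ^ (1 : ℝ) :=
                  Real.rpow_le_rpow_of_exponent_le (by norm_num) (by norm_num)
              _ = 2 := Real.rpow_one _
        _ = 2 * (R : ℝ) ^ (-(1 / 3 : ℝ)) := by ring
    have a1 := h v R W hR hW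
    have a2 := h (v.1 + 1, v.2) (R - 1) W (by omega) hW'
    calc pr W (ArcOverE v R)ᶜ ≤ pr W ((ArcOver v R)ᶜ ∪ (ArcOver (v.1 + 1, v.2) (R - 1))ᶜ) :=
          pr_mono _ (noArcE_sub hR)
      _ ≤ pr W (ArcOver v R)ᶜ + pr W (ArcOver (v.1 + 1, v.2) (R - 1))ᶜ := pr_union_le _ _ _
      _ ≤ C * (R : ℝ) ^ (-(1 / 3 : ℝ)) + C * (2 * (R : ℝ) ^ (-(1 / 3 : ℝ))) := by
          refine add_le_add a1 (a2.trans ?_)
          gcongr
      _ ≤ (3 * C + 1) * (R : ℝ) ^ (-(1 / 3 : ℝ)) := by nlinarith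

/-- The mirrored factor of the marked side times two base factors is at most a constant times the
factor of the marked side. -/
theorem fe_mul_sq_le : ∃ C : ℝ, 0 < C ∧ ∀ (v v₁ v₂ : ℤ × ℤ) (R : ℤ) (W W₁ W₂ : Finset (ℤ × ℤ)),
    0 < R → HB v R ⊆ W → HB v₁ R ⊆ W₁ → HB v₂ R ⊆ W₂ →
    pr W (ArcOverE v R)ᶜ * (pr W₁ (ArcOver v₁ R)ᶜ * pr W₂ (ArcOver v₂ R)ᶜ) ≤
      C * pr W (WE v R) := by
  obtain ⟨C₁, hC₁, h₁⟩ := noArc_le
  obtain ⟨C₂, hC₂, h₂⟩ := noArcE_le
  obtain ⟨c, hc, h₃⟩ := we_lower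
  refine ⟨C₂ * (C₁ * C₁) / c, by positivity, fun v v₁ v₂ R W W₁ W₂ hR hW hW₁ hW₂ => ?_⟩
  have hRr : (0 : ℝ) < R := by exact_mod_cast hR
  set x : ℝ := (R : ℝ) ^ (-(1 / 3 : ℝ)) with hx
  have hx0 : 0 ≤ x := Real.rpow_nonneg hRr.le _
  have hx3 : x * (x * x) = 1 / R := by
    rw [hx, ← Real.rpow_add hRr, ← Real.rpow_add hRr]
    norm_num
    rw [Real.rpow_neg_one]
  have b1 := h₁ v₁ R W₁ hR hW₁
  have b2 := h₁ v₂ R W₂ hR hW₂
  have b3 := h₂ v R W hR hW
  have b4 := h₃ v R W hR hW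
  calc pr W (ArcOverE v R)ᶜ * (pr W₁ (ArcOver v₁ R)ᶜ * pr W₂ (ArcOver v₂ R)ᶜ)
      ≤ (C₂ * x) * ((C₁ * x) * (C₁ * x)) := by
        refine mul_le_mul b3 (mul_le_mul b1 b2 (pr_nonneg _ _) (by positivity)) ?_ (by positivity)
        exact mul_nonneg (pr_nonneg _ _) (pr_nonneg _ _)
    _ = C₂ * (C₁ * C₁) * (x * (x * x)) := by ring
    _ = C₂ * (C₁ * C₁) / c * (c / R) := by
        rw [hx3]
        field_simp
    _ ≤ C₂ * (C₁ * C₁) / c * pr W (WE v R) := by gcongr

end Pool.Agent.SixB
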