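import Pool.Agent.Lib.SixB.S6LHgt
import Pool.Agent.Lib.SixB.S4W3b
import Pool.Agent.Lib.SixB.S6LPerc
import Pool.Agent.Lib.SixB.S3HSum

/-!
# SixB, step 3.8: classes of closed strands by scales (planar bounds)

`HG.cls E A z z'` with `E.s = 0`: the closed strands of `E.F` in `A` which separate `z` and `z'`, weight `± √3`.
* `sepU E A' A z z' ω`: the closed strands in `A'` and not in `A` which separate `z` and `z'`; `cls_sub_le`.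
* `exists_reps`: representatives in different strands.
* `out_const`: a closed strand in a rectangle has constant potential outside of the rectangle.
* `large_of`: strands around `w`, not in `BR w σ`, are large. `card_le_NF`: strands which separate points of a box
  and are not inside a bigger box cross the annulus.
-/

set_option autoImplicit false

namespace Pool.Agent.SixB.HC

open Pool.Agent.SixB Pool.Agent.SixB.Tilt Pool.Agent.SixB.HG Pool.Agent.Perc Pool.Agent.PercD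
  Pool.Agent.PercN Pool.Agent.Perc.Q Pool.Agent.Perc6 Relation Pool.Agent.SixB.W3.B

noncomputable section

variable {F A A' : Finset (ℤ × ℤ)} {ω : Cfg} {e : DZ} {X : Finset DZ} {a b : UE} {f z z' w q : ℤ × ℤ}

/-! ### Faces of a strand -/

theorem inF_side (hd : X ∈ dstr ZQ F ω) (hX : InF ZQ F A X) (he : e ∈ X) (hf : f ∈ F)
    (ha : a ∈ MM ω (F : Set (ℤ × ℤ)) (und e)) (hs : IsSide f a) : f ∈ A := by
  obtain ⟨he', hXe⟩ := dstr_of_mem hd he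
  obtain ⟨k, rfl⟩ := isSide_iff.mp hs
  rw [← und_sd, MM_iff_dst he' (sd_mem hf k), ← hXe] at ha
  exact hX f hf k ha

theorem clo_of_inF (hd : X ∈ dstr ZQ F ω) (hX : InF ZQ F A X) (he : e ∈ X) (h : Clo ZQ F ω e) :
    Clo ZQ A ω e := by
  by_contra hn
  obtain ⟨f, hf, hfA, a, ha, hs⟩ := exists_outside h hn
  exact hfA (inF_side hd hX he hf ha hs)

theorem inF_of_clo (hAF : A ⊆ F) (hd : X ∈ dstr ZQ F ω) (he : e ∈ X) (h : Clo ZQ A ω e) :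
    InF ZQ F A X := by
  obtain ⟨he', hXe⟩ := dstr_of_mem hd he
  have hdst := h.dst_eq hAF
  have key : ∀ (f : ℤ × ℤ) (k : ZMod 4), Clo ZQ A ω (sd ZQ f k) → f ∈ A := by
    intro f k hc
    obtain ⟨b, ⟨g, hg, l, h1, -⟩, -⟩ := hc.exists_nx
    have h1' : sd ZQ f k = sd ZQ g l := h1
    rw [(sd_inj h1').1]
    exact_mod_cast hg
  intro f hf k hk
  rw [hXe, hdst] at hk
  rcases hk with hk | hk
  · exact key f k (h.of_srel (mem_dst.mp hk).2)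
  · have h2 := (h.of_srel (mem_dst.mp hk).2).swap
    rw [Prod.swap_swap] at h2
    exact key f k h2

theorem mm_eq (hAF : A ⊆ F) (hd : X ∈ dstr ZQ F ω) (hX : InF ZQ F A X) (he : e ∈ X) :
    MM ω (A : Set (ℤ × ℤ)) (und e) = MM ω (F : Set (ℤ × ℤ)) (und e) := by
  refine Set.Subset.antisymm (fun a ha => MM_mono (by exact_mod_cast hAF) ha) fun a ha => ?_
  change ReflTransGen _ (und e) a at ha
  induction ha with
  | refl => exact mem_MM_self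
  | @tail b c hb hs ih =>
    obtain ⟨f, hf, hm⟩ := hs
    have hf' : f ∈ F := by exact_mod_cast hf
    have hfA := inF_side hd hX he hf' hb hm.left
    exact ReflTransGen.tail ih ⟨f, by exact_mod_cast hfA, hm⟩

/-! ### The potential of the left indicator -/

theorem cast_ne {L : ℤ × ℤ → ℤ} (hL : ∀ z, L z = 0 ∨ L z = 1) (z z' : ℤ × ℤ) :
    ((L z : ℤ) : ZMod 2) ≠ ((L z' : ℤ) : ZMod 2) ↔ L z ≠ L z' := by
  rcases hL z with h | h <;> rcases hL z' with h' | h' <;> rw [h, h'] <;> simp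

theorem isPot_lft {L : ℤ × ℤ → ℤ} (hd : X ∈ dstr ZQ F ω) (hL : IsLft ZQ F X L) (he : e ∈ X) :
    IsPot (F : Set (ℤ × ℤ)) (MM ω (F : Set (ℤ × ℤ)) (und e)) (fun z => ((L z : ℤ) : ZMod 2)) := by
  intro f hf a hs
  have hf' : f ∈ F := by exact_mod_cast hf
  obtain ⟨he', hXe⟩ := dstr_of_mem hd he
  obtain ⟨k, rfl⟩ := isSide_iff.mp hs
  have hx := sd_mem (Q := ZQ) hf' k
  have h1 := hL.inc _ hx
  have hnot : ¬ (sd ZQ f k ∈ X ∧ (sd ZQ f k).swap ∈ X) := by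
    rintro ⟨h2, h3⟩
    obtain ⟨-, h4⟩ := dstr_of_mem hd h2
    rw [h4] at h3
    exact not_srel_swap zq_noLoop hx (mem_dst.mp h3).2
  have h2 : (su f k ∈ MM ω (F : Set (ℤ × ℤ)) (und e)) ↔ L (sd ZQ f k).1 ≠ L (sd ZQ f k).2 := by
    rw [← und_sd, MM_iff_dst he' hx, ← hXe]
    by_cases h3 : sd ZQ f k ∈ X <;> by_cases h4 : (sd ZQ f k).swap ∈ X
    · exact absurd ⟨h3, h4⟩ hnot
    · rw [if_pos h3, if_neg h4] at h1
      exact ⟨fun _ h => by rw [h] at h1; omega, fun _ => Or.inl h3⟩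
    · rw [if_neg h3, if_pos h4] at h1
      exact ⟨fun _ h => by rw [h] at h1; omega, fun _ => Or.inr h4⟩
    · rw [if_neg h3, if_neg h4] at h1
      exact ⟨fun h => absurd h (by tauto), fun h => absurd (by omega) h⟩
  rw [h2]
  show _ ↔ ((L (ua (su f k)) : ℤ) : ZMod 2) ≠ ((L (ub (su f k)) : ℤ) : ZMod 2)
  rw [cast_ne hL.val]
  rcases sd_dir f k with h3 | h3
  · rw [h3]
    rfl
  · rw [h3]
    exact ⟨fun h => h.symm, fun h => h.symm⟩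

/-! ### Outside of a rectangle -/

/-- `p` is not in the open rectangle -/
def Out (x₀ x₁ y₀ y₁ : ℤ) (p : ℤ × ℤ) : Prop := p.1 ≤ x₀ ∨ x₁ ≤ p.1 ∨ p.2 ≤ y₀ ∨ y₁ ≤ p.2

section

variable {X₀ X₁ Y₀ Y₁ x₀ x₁ y₀ y₁ : ℤ} {Φ : ℤ × ℤ → ZMod 2}

theorem out_edge (hx : x₀ + 2 ≤ x₁) (hy : y₀ + 2 ≤ y₁) (hd : X ∈ dstr ZQ (RF X₀ X₁ Y₀ Y₁) ω)
    (hX : InF ZQ (RF X₀ X₁ Y₀ Y₁) (RF x₀ x₁ y₀ y₁) X) (he : e ∈ X) (hc : Clo ZQ (RF X₀ X₁ Y₀ Y₁) ω e)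
    (ha : a ∈ MM ω (RF X₀ X₁ Y₀ Y₁ : Set (ℤ × ℤ)) (und e)) :
    ¬ (Out x₀ x₁ y₀ y₁ (ua a) ∧ Out x₀ x₁ y₀ y₁ (ub a)) := by
  obtain ⟨f, hf, g, hg, hfg, hs, hs'⟩ := two_faces hc ha
  have h1 := inF_side hd hX he hf ha hs
  have h2 := inF_side hd hX he hg ha hs'
  rw [mem_RF] at h1 h2
  obtain ⟨x, y, d⟩ := a
  obtain ⟨f1, f2⟩ := f
  obtain ⟨g1, g2⟩ := g
  have hfg' : ¬ (f1 = g1 ∧ f2 = g2) := fun h => hfg (by rw [h.1, h.2])
  simp only [IsSide, bo, le', to', ri, Prod.mk.injEq] at hs hs'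
  simp only at h1 h2
  unfold Out
  cases d
  · simp only [Bool.false_eq_true, and_false, or_false, false_or, and_true] at hs hs'
    rw [ub_false, ua_mk]
    simp only
    omega
  · simp only [Bool.true_eq_false, and_false, false_or, and_true] at hs hs'
    rw [ub_true, ua_mk]
    simp only
    omega

theorem out_hor (hx : x₀ + 2 ≤ x₁) (hy : y₀ + 2 ≤ y₁) (hd : X ∈ dstr ZQ (RF X₀ X₁ Y₀ Y₁) ω)
    (hX : InF ZQ (RF X₀ X₁ Y₀ Y₁) (RF x₀ x₁ y₀ y₁) X) (he : e ∈ X) (hc : Clo ZQ (RF X₀ X₁ Y₀ Y₁) ω e)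
    (hΦ : IsPot (RF X₀ X₁ Y₀ Y₁ : Set (ℤ × ℤ)) (MM ω (RF X₀ X₁ Y₀ Y₁ : Set (ℤ × ℤ)) (und e)) Φ)
    (hY : Y₀ < Y₁) {y i i' : ℤ} (h1 : Y₀ ≤ y) (h2 : y ≤ Y₁) (h3 : X₀ ≤ i) (h4 : i ≤ X₁) (h3' : X₀ ≤ i')
    (h4' : i' ≤ X₁) (ho : ∀ x, (i ≤ x ∧ x ≤ i' ∨ i' ≤ x ∧ x ≤ i) → Out x₀ x₁ y₀ y₁ (x, y)) :
    Φ (i, y) = Φ (i', y) := by
  have key : ∀ i i', X₀ ≤ i → i' ≤ X₁ → i ≤ i' → (∀ x, i ≤ x → x ≤ i' → Out x₀ x₁ y₀ y₁ (x, y)) →
      Φ (i, y) = Φ (i', y) := by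
    intro i i' h5 h6 h7 ho
    by_contra hne
    obtain ⟨j, j1, j2, j3⟩ := step_exists (g := fun x => Φ (x, y)) h7 hne
    have h8 := (pot_hor' hΦ hY (by omega : X₀ ≤ j) (by omega) h1 h2).mpr j3
    refine out_edge hx hy hd hX he hc h8 ⟨ho j j1 (by omega), ?_⟩
    rw [ub_false]
    exact ho (j + 1) (by omega) (by omega)
  rcases le_total i i' with h | h
  · exact key i i' h3 h4' h fun x hx1 hx2 => ho x (Or.inl ⟨hx1, hx2⟩)
  · exact (key i' i h3' h4 h fun x hx1 hx2 => ho x (Or.inr ⟨hx1, hx2⟩)).symm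

theorem out_ver (hx : x₀ + 2 ≤ x₁) (hy : y₀ + 2 ≤ y₁) (hd : X ∈ dstr ZQ (RF X₀ X₁ Y₀ Y₁) ω)
    (hX : InF ZQ (RF X₀ X₁ Y₀ Y₁) (RF x₀ x₁ y₀ y₁) X) (he : e ∈ X) (hc : Clo ZQ (RF X₀ X₁ Y₀ Y₁) ω e)
    (hΦ : IsPot (RF X₀ X₁ Y₀ Y₁ : Set (ℤ × ℤ)) (MM ω (RF X₀ X₁ Y₀ Y₁ : Set (ℤ × ℤ)) (und e)) Φ)
    (hX' : X₀ < X₁) {x i i' : ℤ} (h1 : X₀ ≤ x) (h2 : x ≤ X₁) (h3 : Y₀ ≤ i) (h4 : i ≤ Y₁) (h3' : Y₀ ≤ i')
    (h4' : i' ≤ Y₁) (ho : ∀ y, (i ≤ y ∧ y ≤ i' ∨ i' ≤ y ∧ y ≤ i) → Out x₀ x₁ y₀ y₁ (x, y)) :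
    Φ (x, i) = Φ (x, i') := by
  have key : ∀ i i', Y₀ ≤ i → i' ≤ Y₁ → i ≤ i' → (∀ y, i ≤ y → y ≤ i' → Out x₀ x₁ y₀ y₁ (x, y)) →
      Φ (x, i) = Φ (x, i') := by
    intro i i' h5 h6 h7 ho
    by_contra hne
    obtain ⟨j, j1, j2, j3⟩ := step_exists (g := fun y => Φ (x, y)) h7 hne
    have h8 := (pot_ver' hΦ hX' (by omega : Y₀ ≤ j) (by omega) h1 h2).mpr j3
    refine out_edge hx hy hd hX he hc h8 ⟨ho j j1 (by omega), ?_⟩
    rw [ub_true]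
    exact ho (j + 1) (by omega) (by omega)
  rcases le_total i i' with h | h
  · exact key i i' h3 h4' h fun y hy1 hy2 => ho y (Or.inl ⟨hy1, hy2⟩)
  · exact (key i' i h3' h4 h fun y hy1 hy2 => ho y (Or.inr ⟨hy1, hy2⟩)).symm

/-- a closed strand in a rectangle has constant potential outside of the open rectangle -/
theorem out_const (hx : x₀ + 2 ≤ x₁) (hy : y₀ + 2 ≤ y₁) (hx0 : X₀ ≤ x₀) (hx1 : x₁ ≤ X₁) (hy0 : Y₀ ≤ y₀)
    (hy1 : y₁ ≤ Y₁) (hd : X ∈ dstr ZQ (RF X₀ X₁ Y₀ Y₁) ω)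
    (hX : InF ZQ (RF X₀ X₁ Y₀ Y₁) (RF x₀ x₁ y₀ y₁) X) (he : e ∈ X) (hc : Clo ZQ (RF X₀ X₁ Y₀ Y₁) ω e)
    (hΦ : IsPot (RF X₀ X₁ Y₀ Y₁ : Set (ℤ × ℤ)) (MM ω (RF X₀ X₁ Y₀ Y₁ : Set (ℤ × ℤ)) (und e)) Φ)
    {p : ℤ × ℤ} (hp : InR X₀ X₁ Y₀ Y₁ p) (ho : Out x₀ x₁ y₀ y₁ p) : Φ p = Φ (x₀, y₀) := by
  obtain ⟨p1, p2⟩ := p
  obtain ⟨k1, k2, k3, k4⟩ := hp
  simp only at k1 k2 k3 k4
  rcases ho with h | h | h | h <;> simp only at h
  · rw [out_ver hx hy hd hX he hc hΦ (by omega) k1 k2 k3 k4 (i' := y₀) hy0 (by omega)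
      (fun y _ => Or.inl h)]
    exact out_hor hx hy hd hX he hc hΦ (by omega) hy0 (by omega) k1 k2 hx0 (by omega)
      (fun x _ => Or.inr (Or.inr (Or.inl le_rfl)))
  · rw [out_ver hx hy hd hX he hc hΦ (by omega) k1 k2 k3 k4 (i' := y₀) hy0 (by omega)
      (fun y _ => Or.inr (Or.inl h))]
    exact out_hor hx hy hd hX he hc hΦ (by omega) hy0 (by omega) k1 k2 hx0 (by omega)
      (fun x _ => Or.inr (Or.inr (Or.inl le_rfl)))
  · rw [out_hor hx hy hd hX he hc hΦ (by omega) k3 k4 k1 k2 (i' := x₀) hx0 (by omega)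
      (fun x _ => Or.inr (Or.inr (Or.inl h)))]
    exact out_ver hx hy hd hX he hc hΦ (by omega) hx0 (by omega) k3 k4 hy0 (by omega)
      (fun y _ => Or.inl le_rfl)
  · rw [out_hor hx hy hd hX he hc hΦ (by omega) k3 k4 k1 k2 (i' := x₀) hx0 (by omega)
      (fun x _ => Or.inr (Or.inr (Or.inr h)))]
    exact out_ver hx hy hd hX he hc hΦ (by omega) hx0 (by omega) k3 k4 hy0 (by omega)
      (fun y _ => Or.inl le_rfl)

end

/-! ### The closed strands of one class -/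

/-- the closed strands in `A'` and not in `A` which separate `z` and `z'` -/
def sepU (F A' A : Finset (ℤ × ℤ)) (z z' : ℤ × ℤ) (ω : Cfg) : Finset (Finset (Finset DZ)) := by
  classical exact (uIn ZQ F A' ω).filter fun U => U ∉ uIn ZQ F A ω ∧
    Tilt.lft ZQ F (rep U) z ≠ Tilt.lft ZQ F (rep U) z' ∧ ∀ e ∈ rep U, Clo ZQ F ω e

theorem mem_sepU {U : Finset (Finset DZ)} : U ∈ sepU F A' A z z' ω ↔
    U ∈ ust ZQ F ω ∧ InF ZQ F A' (rep U) ∧ ¬ InF ZQ F A (rep U) ∧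
      Tilt.lft ZQ F (rep U) z ≠ Tilt.lft ZQ F (rep U) z' ∧ ∀ e ∈ rep U, Clo ZQ F ω e := by
  classical
  unfold sepU
  rw [Finset.mem_filter, mem_uIn, mem_uIn]
  tauto

theorem abs_lft_le (z z' : VZ) : |Tilt.lft ZQ F X z - Tilt.lft ZQ F X z'| ≤ 1 := by
  unfold Tilt.lft
  split_ifs with h
  · exact h.choose_spec.abs_le z z'
  · simp

/-- the difference of two classes is bounded by the number of the strands -/
theorem cls_sub_le {E : WEnv} (hs : ∀ a b, E.s a b = 0) (hA : A ⊆ A') (z z' : VZ) (ω : Cfg) :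
    |cls E A' z z' ω - cls E A z z' ω| ≤ Real.sqrt 3 * (sepU E.F A' A z z' ω).card := by
  classical
  have hsub : uIn ZQ E.F A ω ⊆ uIn ZQ E.F A' ω := uIn_mono hA
  have h1 : cls E A' z z' ω - cls E A z z' ω =
      ∑ U ∈ uIn ZQ E.F A' ω \ uIn ZQ E.F A ω,
        ((Tilt.lft ZQ E.F (rep U) z - Tilt.lft ZQ E.F (rep U) z' : ℤ) : ℝ) * onX (kap E ω) (rep U) := by
    unfold cls
    rw [← Finset.sum_sdiff hsub]
    ring
  have h2 : ∑ U ∈ sepU E.F A' A z z' ω,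
        ((Tilt.lft ZQ E.F (rep U) z - Tilt.lft ZQ E.F (rep U) z' : ℤ) : ℝ) * onX (kap E ω) (rep U) =
      ∑ U ∈ uIn ZQ E.F A' ω \ uIn ZQ E.F A ω,
        ((Tilt.lft ZQ E.F (rep U) z - Tilt.lft ZQ E.F (rep U) z' : ℤ) : ℝ) * onX (kap E ω) (rep U) := by
    refine Finset.sum_subset (fun U hU => ?_) fun U hU hn => ?_
    · obtain ⟨k1, k2, k3, -⟩ := mem_sepU.mp hU
      exact Finset.mem_sdiff.mpr ⟨mem_uIn.mpr ⟨k1, k2⟩, fun h => k3 (mem_uIn.mp h).2⟩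
    · obtain ⟨k1, k2⟩ := Finset.mem_sdiff.mp hU
      obtain ⟨k3, k4⟩ := mem_uIn.mp k1
      have k5 : ¬ InF ZQ E.F A (rep U) := fun h => k2 (mem_uIn.mpr ⟨k3, h⟩)
      by_cases hl : Tilt.lft ZQ E.F (rep U) z = Tilt.lft ZQ E.F (rep U) z'
      · rw [hl]
        simp
      · have h3 : ¬ ∀ e ∈ rep U, Clo ZQ E.F ω e := fun h => hn (mem_sepU.mpr ⟨k3, k4, k5, hl, h⟩)
        push Not at h3
        obtain ⟨e, he, hc⟩ := h3
        have hd := rep_dstr k3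
        rw [onX_eq (fun a b h => kap_srel E h) hd he]
        unfold kap
        rw [if_neg hc, hs, zero_div, mul_zero]
  rw [h1, ← h2]
  refine (Finset.abs_sum_le_sum_abs _ _).trans ?_
  rw [mul_comm, ← nsmul_eq_mul, ← Finset.sum_const]
  refine Finset.sum_le_sum fun U hU => ?_
  obtain ⟨k1, -, -, -, k5⟩ := mem_sepU.mp hU
  have hd := rep_dstr k1
  obtain ⟨c, hc, h3⟩ := mem_dstr.mp hd
  have hcX : c ∈ rep U := h3 ▸ self_mem_dst hc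
  rw [onX_eq (fun a b h => kap_srel E h) hd hcX, abs_mul]
  have hP1 : |((Tilt.lft ZQ E.F (rep U) z - Tilt.lft ZQ E.F (rep U) z' : ℤ) : ℝ)| ≤ 1 := by
    have := abs_lft_le (F := E.F) (X := rep U) z z'
    exact_mod_cast this
  have h4 : |kap E ω c| ≤ Real.sqrt 3 := by
    unfold kap
    rw [if_pos (k5 c hcX)]
    exact abs_loop _ _ _ (k5 c hcX)
  calc _ ≤ 1 * Real.sqrt 3 := mul_le_mul hP1 h4 (abs_nonneg _) zero_le_one
    _ = Real.sqrt 3 := one_mul _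

/-- representatives of strands -/
theorem exists_reps (𝒰 : Finset (Finset (Finset DZ))) (h : 𝒰 ⊆ ust ZQ F ω) :
    ∃ T : Finset UE, T.card = 𝒰.card ∧ Diff ω (F : Set (ℤ × ℤ)) T ∧
      ∀ b ∈ T, ∃ U ∈ 𝒰, ∃ e ∈ rep U, b = und e := by
  classical
  have hex : ∀ U ∈ 𝒰, ∃ e, e ∈ rep U := by
    intro U hU
    obtain ⟨c, hc, h3⟩ := mem_dstr.mp (rep_dstr (h hU))
    exact ⟨c, h3 ▸ self_mem_dst hc⟩
  choose! p hp using hex
  have key : ∀ U ∈ 𝒰, ∀ U' ∈ 𝒰, und (p U') ∈ MM ω (F : Set (ℤ × ℤ)) (und (p U)) → U = U' := by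
    intro U hU U' hU' hm
    obtain ⟨h1, h2⟩ := ust_eq (h hU) (rep_mem (h hU))
    obtain ⟨h1', h2'⟩ := ust_eq (h hU') (rep_mem (h hU'))
    obtain ⟨h3, h4⟩ := dstr_of_mem h1 (hp U hU)
    obtain ⟨h3', h4'⟩ := dstr_of_mem h1' (hp U' hU')
    rw [MM_iff_dst h3 h3', ← h4] at hm
    rcases hm with hm | hm
    · obtain ⟨-, h5⟩ := dstr_of_mem h1 hm
      rw [h2, h2', h5, ← h4']
    · obtain ⟨-, h5⟩ := dstr_of_mem h1 hm
      rw [← rv_dst, ← h4'] at h5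
      rw [h2, h2', h5, rv_rv, Finset.pair_comm]
  refine ⟨𝒰.image fun U => und (p U), ?_, ?_, ?_⟩
  · refine Finset.card_image_of_injOn fun U hU U' hU' hh => ?_
    refine key U hU U' hU' ?_
    have hh' : und (p U) = und (p U') := hh
    rw [hh']
    exact mem_MM_self
  · intro b hb b' hb' hbb
    obtain ⟨U, hU, rfl⟩ := Finset.mem_image.mp hb
    obtain ⟨U', hU', rfl⟩ := Finset.mem_image.mp hb'
    rw [key U hU U' hU' hbb]
  · intro b hb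
    obtain ⟨U, hU, rfl⟩ := Finset.mem_image.mp hb
    exact ⟨U, hU, p U, hp U hU, rfl⟩

theorem Diff.anti {G G' : Set (ℤ × ℤ)} {T : Finset UE} (h : Diff ω G' T) (hG : G ⊆ G') : Diff ω G T :=
  fun b hb b' hb' hm => h b hb b' hb' (MM_mono hG hm)

/-! ### Strands around a point -/

section

variable {X₀ X₁ Y₀ Y₁ x₀ x₁ y₀ y₁ : ℤ}

/-- **the strands of a class around `w` are large** -/
theorem large_of (hP : HasPotQ ZQ (RF X₀ X₁ Y₀ Y₁)) (hx : x₀ + 2 ≤ x₁) (hy : y₀ + 2 ≤ y₁)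
    (hx0 : X₀ ≤ x₀) (hx1 : x₁ ≤ X₁) (hy0 : Y₀ ≤ y₀) (hy1 : y₁ ≤ Y₁) (hw : InR x₀ x₁ y₀ y₁ w)
    (hq : InR X₀ X₁ Y₀ Y₁ q) (ho : Out x₀ x₁ y₀ y₁ q) {σ n : ℤ} (hn : 2 * n ≤ σ)
    (hσ : A = BR w σ ∨ A = ∅ ∧ σ = 0) (hAF : A ⊆ RF X₀ X₁ Y₀ Y₁)
    {U : Finset (Finset DZ)} (hU : U ∈ sepU (RF X₀ X₁ Y₀ Y₁) (RF x₀ x₁ y₀ y₁) A w q ω) (he : e ∈ rep U) :
    Large ω (RF x₀ x₁ y₀ y₁ : Set (ℤ × ℤ)) n (und e) := by
  obtain ⟨k1, k2, k3, k4, k5⟩ := mem_sepU.mp hU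
  have hd := rep_dstr k1
  have hL := lft_spec hP hd
  have hsub : RF x₀ x₁ y₀ y₁ ⊆ RF X₀ X₁ Y₀ Y₁ := by
    intro f hf
    rw [mem_RF] at hf ⊢
    omega
  have hm := mm_eq hsub hd k2 he
  have hpot := isPot_lft hd hL he
  have hc : Clo ZQ (RF x₀ x₁ y₀ y₁) ω e := clo_of_inF hd k2 he (k5 e he)
  have hpot' : IsPot (RF x₀ x₁ y₀ y₁ : Set (ℤ × ℤ)) (MM ω (RF x₀ x₁ y₀ y₁ : Set (ℤ × ℤ)) (und e))
      (fun z => ((Tilt.lft ZQ (RF X₀ X₁ Y₀ Y₁) (rep U) z : ℤ) : ZMod 2)) := by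
    rw [hm]
    exact fun f hf => hpot f (by exact_mod_cast hsub (by exact_mod_cast hf))
  have hne : ((Tilt.lft ZQ (RF X₀ X₁ Y₀ Y₁) (rep U) w : ℤ) : ZMod 2) ≠
      ((Tilt.lft ZQ (RF X₀ X₁ Y₀ Y₁) (rep U) (x₀, y₀) : ℤ) : ZMod 2) := by
    have h1 := out_const hx hy hx0 hx1 hy0 hy1 hd k2 he (k5 e he) hpot hq ho
    have h2 := (cast_ne hL.val w q).mpr k4
    rwa [h1] at h2
  refine large_clo (z := w) (s := σ) (by omega) (by omega) hw hn hc ?_ hpot' hne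
  rcases hσ with rfl | ⟨rfl, rfl⟩
  · intro h
    exact k3 (inF_of_clo hAF hd he h)
  · intro h
    obtain ⟨b, ⟨g, hg, -⟩, -⟩ := h.exists_nx
    have hg' : g ∈ BR w 0 := by exact_mod_cast hg
    rw [mem_BR] at hg'
    omega

end

/-! ### Strands which separate two points of a box -/

/-- the closed strands which separate two points of `BR p r` and are not inside `BR p R` cross the annulus -/
theorem card_le_NF (hP : HasPotQ ZQ F) {p : ℤ × ℤ} {r R : ℤ} (hr : 0 ≤ r) (hrR : r < R)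
    (hpF : BR p R ⊆ F) (hz : ConnE ZQ (BR p r) z z') (hA : BR p R ⊆ A) :
    (sepU F A' A z z' ω).card ≤ NF Set.univ p r R ω := by
  classical
  obtain ⟨T, hT, hD, hT'⟩ := exists_reps (F := F) (ω := ω) (sepU F A' A z z' ω)
    (fun U hU => (mem_sepU.mp hU).1)
  rw [← hT]
  have h1 := card_le_sum_NF (ι := Unit) (G := Set.univ) hD {()} (fun _ => p) hr hrR
    (fun _ _ => Set.subset_univ _) (fun b hb => by
      obtain ⟨U, hU, e, he, rfl⟩ := hT' b hb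
      obtain ⟨k1, k2, k3, k4, k5⟩ := mem_sepU.mp hU
      have hd := rep_dstr k1
      have hL := lft_spec hP hd
      obtain ⟨he', hXe⟩ := dstr_of_mem hd he
      refine ⟨(), Finset.mem_singleton_self _, ?_, ?_⟩
      · obtain ⟨a, ha, ha'⟩ := hL.visits (fun f hf => hpF (br_sub hrR.le hf)) hz k4
        refine ⟨und a, ?_, ?_⟩
        · rw [MM_iff_dst he' (SixB.dE_mono (fun f hf => hpF (br_sub hrR.le hf)) ha), ← hXe]
          exact ha'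
        · obtain ⟨f, hf, hs⟩ := und_side ha
          exact inE_of_side (by exact_mod_cast hf) hs
      · have h2 : ∃ f ∈ F, f ∉ A ∧ ∃ k, sd ZQ f k ∈ rep U ∨ (sd ZQ f k).swap ∈ rep U := by
          by_contra hcon
          push Not at hcon
          refine k3 fun f hf k hk => ?_
          by_contra hfA
          obtain ⟨h3, h4⟩ := hcon f hf hfA k
          rcases hk with hk | hk
          · exact h3 hk
          · exact h4 hk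
        obtain ⟨f, hf, hfA, k, hk⟩ := h2
        refine ⟨su f k, ?_, fun hi => ?_⟩
        · rw [← und_sd, MM_iff_dst he' (sd_mem hf k), ← hXe]
          exact hk
        · refine bd_of_side hi (su_isSide f k) fun h => hfA (hA (by exact_mod_cast h)))
  simpa using h1

/-! ### Moments -/

theorem pow_le_two_pow (p k : ℕ) : (k : ℝ) ^ p ≤ ((2 : ℝ) ^ p) ^ k := by
  have h1 : (k : ℝ) ≤ 2 ^ k := by exact_mod_cast (Nat.lt_two_pow_self (n := k)).le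
  calc (k : ℝ) ^ p ≤ (2 ^ k) ^ p := pow_le_pow_left₀ (by positivity) h1 p
    _ = (2 ^ p) ^ k := by rw [← pow_mul, ← pow_mul, mul_comm]

theorem mom_large (p L : ℕ) : ∃ C : ℝ, 0 < C ∧ ∀ (x₀ x₁ y₀ y₁ n : ℤ) (S : Finset (ℤ × ℤ)) (g : Cfg → ℝ)
    (c : ℝ), 0 < n → x₁ - x₀ ≤ n * L → y₁ - y₀ ≤ n * L → RF x₀ x₁ y₀ y₁ ⊆ S → 0 ≤ c →
    Dep (RF x₀ x₁ y₀ y₁ : Set (ℤ × ℤ)) g →
    (∀ ω, ∃ T : Finset UE, Diff ω (RF x₀ x₁ y₀ y₁ : Set (ℤ × ℤ)) T ∧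
      (∀ b ∈ T, Large ω (RF x₀ x₁ y₀ y₁ : Set (ℤ × ℤ)) n b) ∧ |g ω| ≤ c * T.card) →
    av S (fun ω => |g ω| ^ p) ≤ c ^ p * C := by
  obtain ⟨C, hC, hK⟩ := KB_moment L (lam := 2 ^ p) (one_le_pow₀ (by norm_num))
  refine ⟨C, hC, fun x₀ x₁ y₀ y₁ n S g c hn hx hy hS hc hg hT => ?_⟩
  have hFW : RF x₀ x₁ y₀ y₁ ⊆ RF x₀ (x₀ + n * L) y₀ (y₀ + n * L) := by
    intro f hf
    rw [mem_RF] at hf ⊢
    omega
  have hg' : Dep (RF x₀ x₁ y₀ y₁ : Set (ℤ × ℤ)) (fun ω => |g ω| ^ p) := fun ω ω' h => by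
    simp only; rw [hg ω ω' h]
  rw [av_dep hg' hS, ← av_dep hg' hFW]
  refine le_trans (av_mono (g' := fun ω => c ^ p * (2 ^ p : ℝ) ^ KB ω x₀ y₀ n L) fun T _ => ?_) ?_
  · obtain ⟨U, hU, hL, hb⟩ := hT (ind T)
    have h1 : U.card ≤ KB (ind T) x₀ y₀ n L :=
      card_le_KB hn hU (by exact_mod_cast hFW) hL
    calc |g (ind T)| ^ p ≤ (c * U.card) ^ p := pow_le_pow_left₀ (abs_nonneg _) hb p
      _ ≤ (c * KB (ind T) x₀ y₀ n L) ^ p := by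
          refine pow_le_pow_left₀ (by positivity) (mul_le_mul_of_nonneg_left ?_ hc) p
          exact_mod_cast h1
      _ = c ^ p * (KB (ind T) x₀ y₀ n L : ℝ) ^ p := mul_pow _ _ _
      _ ≤ _ := mul_le_mul_of_nonneg_left (pow_le_two_pow p _) (by positivity)
  · rw [av_mul]
    refine mul_le_mul_of_nonneg_left ?_ (by positivity)
    refine le_trans (le_of_eq ?_) (hK x₀ y₀ n _ hn (Finset.Subset.refl _))
    unfold av
    simp only [cfg_eq_ind]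

/-- few strands in a small rectangle -/
theorem card_small {x₀ x₁ y₀ y₁ : ℤ} {T : Finset UE}
    (hT : ∀ b ∈ T, ∃ f ∈ RF x₀ x₁ y₀ y₁, IsSide f b) (hx : x₁ - x₀ ≤ 8) (hy : y₁ - y₀ ≤ 8) :
    T.card ≤ 256 := by
  classical
  have h1 : T ⊆ (RF x₀ x₁ y₀ y₁).biUnion fun f => {bo f, le' f, to' f, ri f} := by
    intro b hb
    obtain ⟨f, hf, hs⟩ := hT b hb
    refine Finset.mem_biUnion.mpr ⟨f, hf, ?_⟩
    simp only [Finset.mem_insert, Finset.mem_singleton]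
    exact hs
  have h2 : (RF x₀ x₁ y₀ y₁).card ≤ 64 := by
    unfold RF
    rw [Finset.card_product, Int.card_Ico, Int.card_Ico]
    have h3 : (x₁ - x₀).toNat ≤ 8 := by omega
    have h4 : (y₁ - y₀).toNat ≤ 8 := by omega
    nlinarith
  refine (Finset.card_le_card h1).trans ((Finset.card_biUnion_le_card_mul _ _ 4 fun f _ => ?_).trans ?_)
  · exact (Finset.card_le_four)
  · omega

/-- dependence of a class -/
theorem dep_cls_sub (E : WEnv) (hA : A ⊆ A') (z z' : VZ) :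
    Dep (A' : Set (ℤ × ℤ)) (fun ω => cls E A' z z' ω - cls E A z z' ω) := by
  intro ω ω' h
  have e1 := cls_dep E A' z z' ω ω' h
  have e2 := cls_dep E A z z' ω ω' fun f hf => h f (by exact_mod_cast hA (by exact_mod_cast hf))
  simp only [e1, e2]

/-- **moments of the classes around a point** -/
theorem mom_pt (p : ℕ) : ∃ C : ℝ, 0 < C ∧ ∀ (E : WEnv) (X₀ X₁ Y₀ Y₁ x₀ x₁ y₀ y₁ σ : ℤ) (w q : ℤ × ℤ)
    (A S : Finset (ℤ × ℤ)), (∀ a b, E.s a b = 0) → E.F = RF X₀ X₁ Y₀ Y₁ → HasPotQ ZQ E.F →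
    x₀ + 2 ≤ x₁ → y₀ + 2 ≤ y₁ → X₀ ≤ x₀ → x₁ ≤ X₁ → Y₀ ≤ y₀ → y₁ ≤ Y₁ →
    InR x₀ x₁ y₀ y₁ w → InR X₀ X₁ Y₀ Y₁ q → Out x₀ x₁ y₀ y₁ q →
    (A = BR w σ ∧ 1 ≤ σ ∨ A = ∅ ∧ σ = 0) → x₁ - x₀ ≤ 8 * max σ 1 → y₁ - y₀ ≤ 8 * max σ 1 →
    A ⊆ RF x₀ x₁ y₀ y₁ → RF x₀ x₁ y₀ y₁ ⊆ S →
    av S (fun ω => |cls E (RF x₀ x₁ y₀ y₁) w q ω - cls E A w q ω| ^ p) ≤ C := by
  obtain ⟨C, hC, hL⟩ := mom_large p 24
  have h3 : (0 : ℝ) ≤ Real.sqrt 3 := Real.sqrt_nonneg 3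
  refine ⟨Real.sqrt 3 ^ p * C + (Real.sqrt 3 * 256) ^ p + 1, by positivity,
    fun E X₀ X₁ Y₀ Y₁ x₀ x₁ y₀ y₁ σ w q A S hs hF hP hx hy hx0 hx1 hy0 hy1 hw hq ho hσ hx8 hy8 hA hS => ?_⟩
  have hsub : RF x₀ x₁ y₀ y₁ ⊆ E.F := by
    rw [hF]
    intro f hf
    rw [mem_RF] at hf ⊢
    omega
  have hP' : HasPotQ ZQ (RF X₀ X₁ Y₀ Y₁) := hF ▸ hP
  -- the representatives
  have hrep : ∀ ω, ∃ T : Finset UE, Diff ω (RF x₀ x₁ y₀ y₁ : Set (ℤ × ℤ)) T ∧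
      (∀ b ∈ T, ∀ n, 2 * n ≤ σ → Large ω (RF x₀ x₁ y₀ y₁ : Set (ℤ × ℤ)) n b) ∧
      (∀ b ∈ T, ∃ f ∈ RF x₀ x₁ y₀ y₁, IsSide f b) ∧
      |cls E (RF x₀ x₁ y₀ y₁) w q ω - cls E A w q ω| ≤ Real.sqrt 3 * T.card := by
    intro ω
    obtain ⟨T, hT, hD, hT'⟩ := exists_reps (F := E.F) (ω := ω) (sepU E.F (RF x₀ x₁ y₀ y₁) A w q ω)
      (fun U hU => (mem_sepU.mp hU).1)
    refine ⟨T, Diff.anti hD (by exact_mod_cast hsub), ?_, ?_, ?_⟩
    · intro b hb n hn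
      obtain ⟨U, hU, e, he, rfl⟩ := hT' b hb
      rw [hF] at hU
      refine large_of hP' hx hy hx0 hx1 hy0 hy1 hw hq ho hn ?_ ?_ hU he
      · rcases hσ with ⟨h, -⟩ | h
        · exact Or.inl h
        · exact Or.inr h
      · exact fun f hf => by rw [← hF]; exact hsub (hA hf)
    · intro b hb
      obtain ⟨U, hU, e, he, rfl⟩ := hT' b hb
      obtain ⟨k1, k2, k3, k4, k5⟩ := mem_sepU.mp hU
      exact und_side (clo_of_inF (rep_dstr k1) k2 he (k5 e he)).mem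
    · rw [hT]
      exact cls_sub_le hs hA w q ω
  by_cases h2 : 2 ≤ σ
  · have h4 := hL x₀ x₁ y₀ y₁ (σ / 2) S (fun ω => cls E (RF x₀ x₁ y₀ y₁) w q ω - cls E A w q ω)
      (Real.sqrt 3) (by omega) (by push_cast; omega) (by push_cast; omega) hS h3
      (dep_cls_sub E hA w q) (fun ω => by
        obtain ⟨T, t1, t2, -, t4⟩ := hrep ω
        exact ⟨T, t1, fun b hb => t2 b hb _ (by omega), t4⟩)
    have h5 : 0 ≤ (Real.sqrt 3 * 256) ^ p := by positivity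
    linarith
  · have hx8' : x₁ - x₀ ≤ 8 := by
      rcases hσ with ⟨-, h⟩ | ⟨-, h⟩ <;> omega
    have hy8' : y₁ - y₀ ≤ 8 := by
      rcases hσ with ⟨-, h⟩ | ⟨-, h⟩ <;> omega
    refine le_trans (av_mono (g' := fun _ => (Real.sqrt 3 * 256) ^ p) fun T _ => ?_) ?_
    · obtain ⟨U, -, -, u3, u4⟩ := hrep (ind T)
      refine pow_le_pow_left₀ (abs_nonneg _) (u4.trans (mul_le_mul_of_nonneg_left ?_ h3)) p
      exact_mod_cast card_small u3 hx8' hy8'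
    · rw [av_const]
      have : 0 ≤ Real.sqrt 3 ^ p * C := by positivity
      linarith

/-- moments of the number of crossing strands of an annulus of ratio at least `2` -/
theorem mom_NF (p : ℕ) : ∃ C : ℝ, 0 < C ∧ ∀ (v : ℤ × ℤ) (r R : ℤ) (S : Finset (ℤ × ℤ)), 1 ≤ r →
    2 * r ≤ R → BR v R ⊆ S → av S (fun ω => (NF Set.univ v r R ω : ℝ) ^ p) ≤ C := by
  obtain ⟨C, hC, h⟩ := NF_moment 2 (lam := 2 ^ p) (one_le_pow₀ (by norm_num))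
  refine ⟨C, hC, fun v r R S hr hrR hS => ?_⟩
  refine le_trans (av_mono (g' := fun ω => ((2 : ℝ) ^ p) ^ NF Set.univ v (R / 2) R ω) fun T _ => ?_) ?_
  · have h1 : NF Set.univ v r R (ind T) ≤ NF Set.univ v (R / 2) R (ind T) :=
      NF_annulus Set.univ (by omega) (by omega) (Sub.refl' (by omega)) (Sub.refl' le_rfl) (by omega) _
    calc (NF Set.univ v r R (ind T) : ℝ) ^ p ≤ (NF Set.univ v (R / 2) R (ind T) : ℝ) ^ p :=
          pow_le_pow_left₀ (by positivity) (by exact_mod_cast h1) p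
      _ ≤ _ := pow_le_two_pow p _
  · refine le_trans (le_of_eq ?_) (h Set.univ v (R / 2) R S (by omega) (by omega) (by push_cast; omega) hS)
    unfold av
    simp only [cfg_eq_ind]

/-- indicator of a crossing strand -/
def nX (v : ℤ × ℤ) (r R : ℤ) (ω : Cfg) : ℝ := if 1 ≤ NF Set.univ v r R ω then 1 else 0

theorem nX01 (v : ℤ × ℤ) (r R : ℤ) (ω : Cfg) : nX v r R ω = 0 ∨ nX v r R ω = 1 := by
  unfold nX
  split_ifs
  · exact Or.inr rfl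
  · exact Or.inl rfl

theorem dep_NF' (v : ℤ × ℤ) (r R : ℤ) : Dep (An v r R : Set (ℤ × ℤ)) (NF Set.univ v r R) := by
  intro ω ω' h
  exact depN_NF Set.univ v r R ω ω' fun f hf => h f hf.2

theorem dep_nX (v : ℤ × ℤ) (r R : ℤ) : Dep (An v r R : Set (ℤ × ℤ)) (nX v r R) := by
  intro ω ω' h
  unfold nX
  rw [dep_NF' v r R ω ω' h]

theorem av_nX_eq (S : Finset (ℤ × ℤ)) (v : ℤ × ℤ) (r R : ℤ) :
    av S (nX v r R) = pr S {ω | 1 ≤ NF Set.univ v r R ω} := by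
  rw [ProbA.pr_eq_sum]
  unfold av nX
  simp only [cfg_eq_ind, Set.mem_ofPred_eq]

theorem pr_nX : ∃ C : ℝ, 1 ≤ C ∧ ∀ (v : ℤ × ℤ) (r R : ℕ) (S : Finset (ℤ × ℤ)), 1 ≤ r → r ≤ R →
    BR v (R : ℤ) ⊆ S → av S (nX v r R) ≤ C * ((r : ℝ) / R) ^ (1 / 4 : ℝ) := by
  obtain ⟨C, hC, h⟩ := pr_NF_pos
  refine ⟨max C 1, le_max_right _ _, fun v r R S hr hrR hS => ?_⟩
  rw [av_nX_eq]
  exact (h Set.univ v r R S hr hrR hS).trans (mul_le_mul_of_nonneg_right (le_max_left _ _) (by positivity))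

end

end Pool.Agent.SixB.HC
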