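import Pool.Agent.Lib.SixB.S3HDet
import Pool.Agent.Lib.SixB.S3HSum
import Pool.Agent.Lib.SixB.S6LHeavy

/-!
# 6BD step 3.8 (R18): comparison of the heights of two complexes in a common planar disc

* `DskI ν φ L W τ`: weight `W` and numerator `τ e` of the mean arrow in the disc `L` with the chart `ν`, `φ`;
  `DskI.of_ins`: from `HDet.Ins`; `DskI.mul`: a factor which depends on the faces off the disc.
* `PCls`: a class of closed strands of the disc; `PCls.pull`: the class `HSum.Cls` of the complex.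
* `PErr s L z z' x`: the closed strands of `L` between `z` and `z'` are a sum of classes and a remainder,
  with the total error `x`.
* `hcmp`: the comparison of the mean height increments.
-/

set_option autoImplicit false
set_option linter.unusedSectionVars false

namespace Pool.Agent.SixB.HCmp

open Pool.Agent.Perc Pool.Agent.Perc.Q Relation
open Pool.Agent.SixB Pool.Agent.SixB.Tilt Pool.Agent.SixB.PC Pool.Agent.SixB.HDet
open Pool.Agent.SixB.Rel (QChart QMap)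

noncomputable section

variable {V Φ : Type} [DecidableEq V] [DecidableEq Φ]
variable {Q : QC V Φ} {F F₁ : Finset Φ} {ν : ℤ × ℤ → V} {φ : ℤ × ℤ → Φ} {L A S : Finset (ℤ × ℤ)}
  {ω ω' : Φ → Bool} {a b e : DZ} {z z' : VZ} {W Wp : (Φ → Bool) → ℝ} {τ τp : V × V → (Φ → Bool) → ℝ}

/-! ## Weights in a disc -/

/-- weight `W` and numerator `τ e` of the mean arrow in the disc `L` -/
structure DskI (ν : ℤ × ℤ → V) (φ : ℤ × ℤ → Φ) (L : Finset (ℤ × ℤ)) (W : (Φ → Bool) → ℝ)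
    (τ : V × V → (Φ → Bool) → ℝ) : Prop where
  srel : ∀ ω a b, SRel ZQ L (pb φ ω) a b → τ (mv ν a) ω = τ (mv ν b) ω
  swap : ∀ ω, ∀ a ∈ dE ZQ L, τ (mv ν a.swap) ω = -τ (mv ν a) ω
  clo : ∀ ω e, Clo ZQ L (pb φ ω) e →
    τ (mv ν e) ω = Real.sqrt 3 / 4 * (trn ZQ L (pb φ ω) e : ℝ) * W ω
  loc : ∀ A S, A ⊆ S → S ⊆ L → Inn A S → Inn S L →
    Dep ((A.image φ : Finset Φ) : Set Φ)ᶜ (fun ω => W ω * (1 - nB φ A S L ω))

theorem DskI.of_ins (I : Ins Q F W τ) (H : QChart ZQ Q L ν φ 0) (hF : ∀ f ∈ L, φ f ∈ F) :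
    DskI ν φ L W τ where
  srel ω a b h := tau_srel I H hF h
  swap ω a ha := tau_swap I H hF ha
  clo ω e h := by
    have ht : trn Q F ω (mv ν e) = 4 ∨ trn Q F ω (mv ν e) = -4 := by
      rw [trn_mv H hF h]
      exact uml_ZQ L (pb φ ω) e h
    rw [I.clo _ _ (clo_mv H hF h) ht, trn_mv H hF h]
  loc A S h1 h2 h3 h4 := by
    have h5 := dep_W I H hF h1 h2 h3 h4 (c := fun _ => 1) (fun _ _ _ => rfl)
    intro ω ω' h
    have h6 := h5 ω ω' h
    simpa only [one_mul] using h6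

theorem DskI.mul (D : DskI ν φ L W τ) {c : (Φ → Bool) → ℝ}
    (hc : Dep ((L.image φ : Finset Φ) : Set Φ)ᶜ c) :
    DskI ν φ L (fun ω => c ω * W ω) (fun e ω => c ω * τ e ω) where
  srel ω a b h := by
    show c ω * _ = c ω * _
    rw [D.srel ω a b h]
  swap ω a ha := by
    show c ω * _ = -(c ω * _)
    rw [D.swap ω a ha]
    ring
  clo ω e h := by
    show c ω * _ = _
    rw [D.clo ω e h]
    ring
  loc A S h1 h2 h3 h4 := by
    intro ω ω' h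
    have h5 : c ω = c ω' := hc ω ω' fun f hf => h f fun hf' => hf (by
      have h6 : f ∈ A.image φ := by exact_mod_cast hf'
      exact_mod_cast Finset.image_subset_image (h1.trans h2) h6)
    have h6 := D.loc A S h1 h2 h3 h4 ω ω' h
    show c ω * W ω * (1 - nB φ A S L ω) = c ω' * W ω' * (1 - nB φ A S L ω')
    have h7 : W ω * (1 - nB φ A S L ω) = W ω' * (1 - nB φ A S L ω') := h6
    rw [mul_assoc, h7, h5, mul_assoc]

/-! ## The height in the disc -/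

/-- **the increments of the height numerator** -/
theorem DskI.inc (D : DskI ν φ L W τ) (hP : HasPotQ ZQ L) (he : e ∈ dE ZQ L) (ω : Φ → Bool) :
    hg τ ν φ L e.1 ω - hg τ ν φ L e.2 ω = τ (mv ν e) ω := by
  rw [hg_sub, HG.sum_lft_inc zq_noLoop hP (HG.onX (fun e => τ (mv ν e) ω))
    (fun X hX => HG.onX_rv (fun a b h => D.srel ω a b h) (fun a ha => D.swap ω a ha) hX) he]
  exact HG.onX_eq (fun a b h => D.srel ω a b h) (mem_dstr.mpr ⟨e, he, rfl⟩) (self_mem_dst he)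

/-- a function with the mean increments -/
theorem DskI.mean (D : DskI ν φ L W τ) (hP : HasPotQ ZQ L) (S : Finset Φ)
    {G : Finset (ℤ × ℤ)} (hG : G ⊆ L) {u : VZ → ℝ} {N : ℝ}
    (hu : ∀ a ∈ dE ZQ G, u a.1 - u a.2 = av S (τ (mv ν a)) / N) (hz : ConnE ZQ G z z') :
    u z - u z' = av S (fun ω => hg τ ν φ L z ω - hg τ ν φ L z' ω) / N := by
  have h1 : u z - u z' = av S (fun ω => hg τ ν φ L z ω) / N - av S (fun ω => hg τ ν φ L z' ω) / N := by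
    refine sub_eq_of_inc (v := fun w => av S (fun ω => hg τ ν φ L w ω) / N) (fun a ha => ?_) hz
    rw [hu a ha, ← sub_div, ← av_sub]
    congr 1
    exact av_congr fun T _ => (D.inc hP (SixB.dE_mono hG ha) _).symm
  rw [h1, ← sub_div, ← av_sub]

/-- the term of one closed strand -/
theorem DskI.term (D : DskI ν φ L W τ) {U : Finset (Finset DZ)} (hU : U ∈ ust ZQ L (pb φ ω))
    (he : e ∈ rep U) (hc : Clo ZQ L (pb φ ω) e) :
    HG.onX (fun e => τ (mv ν e) ω) (rep U) = HG.onX (HG.kap (e0 L) (pb φ ω)) (rep U) * W ω := by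
  have hd := HG.rep_dstr hU
  rw [HG.onX_eq (g := fun e => τ (mv ν e) ω) (fun a b h => D.srel ω a b h) hd he,
    HG.onX_eq (F := L) (fun a b h => HG.kap_srel (e0 L) h) hd he, kap_e0, if_pos hc, D.clo ω e hc]

/-- **Splitting: closed strands of the disc and the rest.** -/
theorem DskI.split (D : DskI ν φ L W τ) (z z' : VZ) {B : ℝ}
    (hB : ∀ e ∈ dE ZQ L, ¬ Clo ZQ L (pb φ ω) e → |τ (mv ν e) ω| ≤ B) :
    |hg τ ν φ L z ω - hg τ ν φ L z' ω - HG.cls (e0 L) L z z' (pb φ ω) * W ω| ≤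
      B * (NR L z z' (pb φ ω)).card := by
  classical
  rw [hg_sub]
  have h1 : HG.cls (e0 L) L z z' (pb φ ω) =
      ∑ U ∈ ust ZQ L (pb φ ω), ((Tilt.lft ZQ L (rep U) z - Tilt.lft ZQ L (rep U) z' : ℤ) : ℝ) *
        HG.onX (HG.kap (e0 L) (pb φ ω)) (rep U) := by
    unfold HG.cls
    have : (e0 L).F = L := rfl
    rw [this, HG.uIn_self]
  rw [h1, Finset.sum_mul, ← Finset.sum_sub_distrib]
  set tm : Finset (Finset DZ) → ℝ := fun U =>
    ((Tilt.lft ZQ L (rep U) z - Tilt.lft ZQ L (rep U) z' : ℤ) : ℝ) * HG.onX (fun e => τ (mv ν e) ω) (rep U) -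
        ((Tilt.lft ZQ L (rep U) z - Tilt.lft ZQ L (rep U) z' : ℤ) : ℝ) *
          HG.onX (HG.kap (e0 L) (pb φ ω)) (rep U) * W ω with htm
  have h2 : ∑ U ∈ ust ZQ L (pb φ ω), tm U = ∑ U ∈ NR L z z' (pb φ ω), tm U := by
    symm
    refine Finset.sum_subset (fun U hU => (mem_NR.mp hU).1) fun U hU hn => ?_
    rw [htm]
    dsimp only
    by_cases hl : Tilt.lft ZQ L (rep U) z = Tilt.lft ZQ L (rep U) z'
    · rw [hl]
      simp
    · have h3 : ∃ e ∈ rep U, Clo ZQ L (pb φ ω) e := by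
        by_contra hcon
        push Not at hcon
        exact hn (mem_NR.mpr ⟨hU, hcon, hl⟩)
      obtain ⟨e, he, hc⟩ := h3
      rw [D.term hU he hc]
      ring
  rw [h2]
  refine (Finset.abs_sum_le_sum_abs _ _).trans ?_
  rw [mul_comm, ← nsmul_eq_mul, ← Finset.sum_const]
  refine Finset.sum_le_sum fun U hU => ?_
  obtain ⟨hU1, hU2, -⟩ := mem_NR.mp hU
  have hd := HG.rep_dstr hU1
  obtain ⟨c, hc, h3⟩ := mem_dstr.mp hd
  have hcX : c ∈ rep U := h3 ▸ self_mem_dst hc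
  rw [htm]
  dsimp only
  rw [HG.onX_eq (g := fun e => τ (mv ν e) ω) (fun a b h => D.srel ω a b h) hd hcX,
    HG.onX_eq (F := L) (fun a b h => HG.kap_srel (e0 L) h) hd hcX, kap_e0, if_neg (hU2 c hcX),
    mul_zero, zero_mul, sub_zero, abs_mul]
  have hP1 : |((Tilt.lft ZQ L (rep U) z - Tilt.lft ZQ L (rep U) z' : ℤ) : ℝ)| ≤ 1 := by
    have := abs_lft_le (L₀ := L) (X := rep U) z z'
    exact_mod_cast this
  calc |((Tilt.lft ZQ L (rep U) z - Tilt.lft ZQ L (rep U) z' : ℤ) : ℝ)| * |τ (mv ν c) ω|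
      ≤ 1 * B := mul_le_mul hP1 (hB c hc (hU2 c hcX)) (abs_nonneg _) zero_le_one
    _ = B := one_mul B

/-- equal numerators give equal heights -/
theorem hg_congr (h : ∀ e ∈ dE ZQ L, τp (mv ν e) ω = τ (mv ν e) ω) (z : VZ) :
    hg τp ν φ L z ω = hg τ ν φ L z ω := by
  unfold hg
  refine Finset.sum_congr rfl fun U hU => ?_
  congr 1
  unfold HG.onX
  by_cases hne : (rep U).Nonempty
  · rw [dif_pos hne, dif_pos hne]
    have hd := HG.rep_dstr hU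
    exact h _ (dstr_of_mem hd hne.choose_spec).1
  · rw [dif_neg hne, dif_neg hne]

/-! ## Pull-back of planar functions -/

theorem dep_pull {α : Type} {g : (ℤ × ℤ → Bool) → α} (hg : Dep (A : Set (ℤ × ℤ)) g) (φ : ℤ × ℤ → Φ) :
    Dep ((A.image φ : Finset Φ) : Set Φ) (fun ω => g (pb φ ω)) := fun ω ω' h =>
  hg _ _ fun f hf => h (φ f) (by
    have hf' : f ∈ A := by exact_mod_cast hf
    exact_mod_cast Finset.mem_image_of_mem φ hf')

theorem injOn_chart (H : QChart ZQ Q L ν φ 0) : Set.InjOn φ (L : Set (ℤ × ℤ)) := by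
  intro f hf g hg h
  exact (toMap H (fun _ => false)).inj_face hf hg h

theorem av_pull (H : QChart ZQ Q L ν φ 0) (hF : L.image φ ⊆ F) {g : (ℤ × ℤ → Bool) → ℝ}
    (hg : Dep (L : Set (ℤ × ℤ)) g) : av F (fun ω => g (pb φ ω)) = av L g := by
  rw [← av_image (injOn_chart H) hg]
  exact av_dep (dep_pull hg φ) hF

theorem nB_pb (φ : ℤ × ℤ → Φ) (A S L : Finset (ℤ × ℤ)) (ω : Φ → Bool) :
    nB φ A S L ω = nB (fun f : ℤ × ℤ => f) A S L (pb φ ω) := rfl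

theorem dep_nBL (hSL : S ⊆ L) : Dep (L : Set (ℤ × ℤ)) (nB (fun f : ℤ × ℤ => f) A S L) := by
  intro c c' h
  refine dep_nB (fun f : ℤ × ℤ => f) A S L c c' fun f hf => h f ?_
  have hf' : f ∈ (S \ A).image (fun f : ℤ × ℤ => f) := by exact_mod_cast hf
  obtain ⟨g, hg, rfl⟩ := Finset.mem_image.mp hf'
  exact_mod_cast hSL (Finset.mem_sdiff.mp hg).1

/-! ## Planar classes -/

/-- a class of closed strands: function `y` of the faces of `A`, support event `a`; `S \ A` crossed with probability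
`≤ q / P(a)`, moment `m` of `y` -/
structure PCls (s : ℕ) (A S L : Finset (ℤ × ℤ)) (y a : (ℤ × ℤ → Bool) → ℝ) (m q : ℝ) : Prop where
  AS : A ⊆ S
  SL : S ⊆ L
  IA : Inn A S
  IS : Inn S L
  a01 : ∀ c, a c = 0 ∨ a c = 1
  aL : Dep (L : Set (ℤ × ℤ)) a
  yA : Dep (A : Set (ℤ × ℤ)) y
  ya : ∀ c, y c = a c * y c
  hq : av L (fun c => a c * nB (fun f : ℤ × ℤ => f) A S L c) ≤ q
  hq' : av L a * av L (nB (fun f : ℤ × ℤ => f) A S L) ≤ q
  hm : av L (fun c => |y c| ^ (2 ^ (s + 1))) ^ ((1 / 2 : ℝ) ^ (s + 1)) ≤ m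

/-- **The class in the complex.** -/
theorem PCls.pull {s : ℕ} {y a : (ℤ × ℤ → Bool) → ℝ} {m q : ℝ} (h : PCls s A S L y a m q)
    (H : QChart ZQ Q L ν φ 0) (hF : L.image φ ⊆ F) (D1 : DskI ν φ L W τ) (D2 : DskI ν φ L Wp τp)
    {D G : Set Φ} (hDG : ((L.image φ : Finset Φ) : Set Φ) ⊆ D ∩ G) :
    HSum.Cls (LH.avSys F) s D G W Wp (fun ω => y (pb φ ω)) (fun ω => a (pb φ ω)) (nB φ A S L)
      ((A.image φ : Finset Φ) : Set Φ) m q := by
  have hAL : A ⊆ L := h.AS.trans h.SL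
  have hyL : Dep (L : Set (ℤ × ℤ)) y := fun c c' hc => h.yA c c' fun f hf => hc f (by
    exact_mod_cast hAL (by exact_mod_cast hf))
  have hnL := dep_nBL (A := A) (S := S) (L := L) h.SL
  have hLD : ∀ {α : Type} {g : (ℤ × ℤ → Bool) → α}, Dep (L : Set (ℤ × ℤ)) g →
      (LH.avSys F).Dep (D ∩ G) (fun ω : Φ → Bool => g (pb φ ω)) := by
    intro α g hg
    exact ExpSys.Dep.mono (P := LH.avSys F) (dep_pull hg φ) hDG
  refine ⟨fun ω => h.a01 _, fun ω => nB_zero_or φ A S L ω, hLD h.aL, hLD hnL, hLD hyL,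
    dep_pull h.yA φ, fun ω => h.ya _, D1.loc A S h.AS h.SL h.IA h.IS, D2.loc A S h.AS h.SL h.IA h.IS,
    ?_, ?_, ?_⟩
  · refine le_trans (le_of_eq ?_) h.hq
    have h1 : Dep (L : Set (ℤ × ℤ)) (fun c => a c * nB (fun f : ℤ × ℤ => f) A S L c) := by
      intro c c' hc
      show a c * _ = a c' * _
      rw [h.aL c c' hc, hnL c c' hc]
    exact av_pull H hF h1
  · refine le_trans (le_of_eq ?_) h.hq'
    rw [← av_pull H hF h.aL, ← av_pull H hF hnL]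
    rfl
  · refine le_trans (le_of_eq ?_) h.hm
    have h1 : Dep (L : Set (ℤ × ℤ)) (fun c => |y c| ^ (2 ^ (s + 1))) := by
      intro c c' hc
      show |y c| ^ _ = |y c'| ^ _
      rw [hyL c c' hc]
    rw [← av_pull H hF h1]
    rfl

/-- the closed strands of `L` between `z` and `z'` and the other strands: classes and a remainder, total error
`x` -/
def PErr (s : ℕ) (L : Finset (ℤ × ℤ)) (z z' : VZ) (x : ℝ) : Prop :=
  ∃ (κ : Type) (K : Finset κ) (A S : κ → Finset (ℤ × ℤ)) (y a : κ → (ℤ × ℤ → Bool) → ℝ) (m q : κ → ℝ)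
    (nR N : (ℤ × ℤ → Bool) → ℝ) (mR qR : ℝ),
    (∀ k ∈ K, PCls s (A k) (S k) L (y k) (a k) (m k) (q k)) ∧
    (∀ c, |HG.cls (e0 L) L z z' c - ∑ k ∈ K, y k c| + 2 * (NR L z z' c).card ≤ nR c * N c) ∧
    (∀ c, nR c = 0 ∨ nR c = 1) ∧ (∀ c, 0 ≤ N c) ∧ Dep (L : Set (ℤ × ℤ)) nR ∧
    Dep (L : Set (ℤ × ℤ)) N ∧ av L nR ≤ qR ∧
    av L (fun c => N c ^ (2 ^ (s + 1))) ^ ((1 / 2 : ℝ) ^ (s + 1)) ≤ mR ∧
    ∑ k ∈ K, m k * q k ^ (1 - (1 / 2 : ℝ) ^ s) + mR * qR ^ (1 - (1 / 2 : ℝ) ^ s) ≤ x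

/-- **Comparison of the mean height increments of two weights in a common disc.** -/
theorem hcmp {s : ℕ} {x : ℝ} (hE : PErr s L z z' x) (H : QChart ZQ Q L ν φ 0) (hF : L.image φ ⊆ F)
    (D1 : DskI ν φ L W τ) (D2 : DskI ν φ L Wp τp) {D G : Set Φ}
    (hDG : ((L.image φ : Finset Φ) : Set Φ) ⊆ D ∩ G) {Bd g : (Φ → Bool) → ℝ} {c C0 Pr : ℝ}
    (hU : HSum.HUpper (LH.avSys F) s D Bd (C0 * Pr)) (hWB : ∀ ω, |W ω| ≤ Bd ω)
    (hWpB : ∀ ω, |Wp ω| ≤ Bd ω)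
    (hτB : ∀ ω, ∀ e ∈ dE ZQ L, ¬ Clo ZQ L (pb φ ω) e → |τ (mv ν e) ω| ≤ 2 * Bd ω)
    (hτpB : ∀ ω, ∀ e ∈ dE ZQ L, ¬ Clo ZQ L (pb φ ω) e → |τp (mv ν e) ω| ≤ 2 * Bd ω)
    (hg1 : ∀ ω, g ω = 0 ∨ g ω = 1) (hgD : Dep D g) (hgG : Dep Gᶜ g)
    (hsame : ∀ ω, g ω = 0 → Wp ω = W ω ∧ ∀ e ∈ dE ZQ L, τp (mv ν e) ω = τ (mv ν e) ω)
    (hc : 0 < c) (hPr : 0 < Pr) (hC0 : 0 ≤ C0) (hZ : c * Pr ≤ av F Wp)
    (hsm : 2 * C0 * av F g ^ (1 - (1 / 2 : ℝ) ^ s) ≤ c / 2) :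
    c / 2 * Pr ≤ av F W ∧
      |av F (fun ω => hg τp ν φ L z ω - hg τp ν φ L z' ω) / av F Wp -
        av F (fun ω => hg τ ν φ L z ω - hg τ ν φ L z' ω) / av F W| ≤
      (4 * C0 / c + 8 * C0 ^ 2 / c ^ 2) * av F g ^ (1 - (1 / 2 : ℝ) ^ s) * x := by
  obtain ⟨κ, K, A, S, y, a, m, q, nR, N, mR, qR, hK, hrem, hnR, hN, hnRL, hNL, hqR, hmR, hx⟩ := hE
  have hLD : ∀ {α : Type} {g : (ℤ × ℤ → Bool) → α}, Dep (L : Set (ℤ × ℤ)) g →
      (LH.avSys F).Dep (D ∩ G) (fun ω : Φ → Bool => g (pb φ ω)) := by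
    intro α g hg
    exact ExpSys.Dep.mono (P := LH.avSys F) (dep_pull hg φ) hDG
  have bound : ∀ {W' : (Φ → Bool) → ℝ} {τ' : V × V → (Φ → Bool) → ℝ}, DskI ν φ L W' τ' →
      (∀ ω, |W' ω| ≤ Bd ω) →
      (∀ ω, ∀ e ∈ dE ZQ L, ¬ Clo ZQ L (pb φ ω) e → |τ' (mv ν e) ω| ≤ 2 * Bd ω) →
      ∀ ω, |hg τ' ν φ L z ω - hg τ' ν φ L z' ω - ∑ k ∈ K, y k (pb φ ω) * W' ω| ≤
        Bd ω * (nR (pb φ ω) * N (pb φ ω)) := by
    intro W' τ' D' hW' hτ' ω
    have h1 := D'.split z z' (hτ' ω)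
    have h2 := hrem (pb φ ω)
    have h3 : hg τ' ν φ L z ω - hg τ' ν φ L z' ω - ∑ k ∈ K, y k (pb φ ω) * W' ω =
        (hg τ' ν φ L z ω - hg τ' ν φ L z' ω - HG.cls (e0 L) L z z' (pb φ ω) * W' ω) +
          (HG.cls (e0 L) L z z' (pb φ ω) - ∑ k ∈ K, y k (pb φ ω)) * W' ω := by
      rw [← Finset.sum_mul]
      ring
    have hBd : 0 ≤ Bd ω := (abs_nonneg _).trans (hW' ω)
    rw [h3]
    refine (abs_add_le _ _).trans ?_
    rw [abs_mul]
    have h4 := mul_le_mul_of_nonneg_left (hW' ω)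
      (abs_nonneg (HG.cls (e0 L) L z z' (pb φ ω) - ∑ k ∈ K, y k (pb φ ω)))
    have h5 := mul_le_mul_of_nonneg_left h2 hBd
    nlinarith
  have hmain := HSum.height_compare (P := LH.avSys F) (s := s) (D := D) (G := G) (W := W) (Wp := Wp)
    (Bd := Bd) (g := g) (c := c) (C0 := C0) (Pr := Pr) (K := K)
    (Y := fun ω => hg τ ν φ L z ω - hg τ ν φ L z' ω)
    (Yp := fun ω => hg τp ν φ L z ω - hg τp ν φ L z' ω)
    (Mr := fun ω => hg τ ν φ L z ω - hg τ ν φ L z' ω - ∑ k ∈ K, y k (pb φ ω) * W ω)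
    (Mrp := fun ω => hg τp ν φ L z ω - hg τp ν φ L z' ω - ∑ k ∈ K, y k (pb φ ω) * Wp ω)
    (nR := fun ω => nR (pb φ ω)) (NR := fun ω => N (pb φ ω))
    (y := fun k ω => y k (pb φ ω)) (a := fun k ω => a k (pb φ ω)) (n := fun k => nB φ (A k) (S k) L)
    (B := fun k => (((A k).image φ : Finset Φ) : Set Φ)) (m := m) (q := q) (mR := mR) (qR := qR)
    hU hWB hWpB hg1 hgD hgG (fun ω h => (hsame ω h).1) hc hPr hC0 hZ hsm
    (fun k hk => (hK k hk).pull H hF D1 D2 hDG) (fun ω => by ring) (fun ω => by ring)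
    (fun ω h => by
      rw [hg_congr (hsame ω h).2, hg_congr (hsame ω h).2, (hsame ω h).1])
    (fun ω => hnR _) (fun ω => hN _) (hLD hnRL) (hLD hNL) (bound D1 hWB hτB) (bound D2 hWpB hτpB)
    (by
      rw [LH.avSys_E, av_pull H hF hnRL]
      exact hqR)
    (by
      have h1 : Dep (L : Set (ℤ × ℤ)) (fun c => N c ^ (2 ^ (s + 1))) := by
        intro c c' hc
        show N c ^ _ = N c' ^ _
        rw [hNL c c' hc]
      rw [LH.avSys_E, av_pull H hF h1]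
      exact hmR)
  refine ⟨hmain.1, hmain.2.trans ?_⟩
  refine mul_le_mul_of_nonneg_left hx ?_
  have h1 : 0 ≤ av F g ^ (1 - (1 / 2 : ℝ) ^ s) :=
    Real.rpow_nonneg (ExpSys.E_nonneg (LH.avSys F) fun ω => by rcases hg1 ω with h | h <;> rw [h]; norm_num) _
  positivity

end

end Pool.Agent.SixB.HCmp
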