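import Pool.Agent.Lib.SixB.S3HStp

/-!
# 6BD step 3.8 (R18): composition of the three steps for one slab, abstract part

* `dH`: mean height increment in a disc; `Cmp s C`: comparison of two weights in the disc `BR z (2 ^ K)`, points at
  distance `2 ^ j` (a theorem of S3HSet).
* `Cmp.cut`: removing a rare event; `Cmp.two`: two packages with different bounds.
* `Cmp.env`: environment against the slab with closed tubes; `Cmp.chain`: environment against the polygon.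
-/

set_option autoImplicit false
set_option linter.unusedSectionVars false

namespace Pool.Agent.SixB.HCmp

open Pool.Agent.Perc Pool.Agent.Perc.Q Relation Pool.Agent.PercD Pool.Agent.PercN
open Pool.Agent.SixB Pool.Agent.SixB.Tilt Pool.Agent.SixB.PC Pool.Agent.SixB.HDet
open Pool.Agent.SixB.Rel (QChart QMap WZ1 dep_WZ1)

noncomputable section

/-- mean height increment in the disc `L` -/
def dH {V Φ : Type} [DecidableEq V] [DecidableEq Φ] (ν : ℤ × ℤ → V) (φ : ℤ × ℤ → Φ)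
    (L : Finset (ℤ × ℤ)) (F : Finset Φ) (W : (Φ → Bool) → ℝ) (τ : V × V → (Φ → Bool) → ℝ)
    (z z' : VZ) : ℝ :=
  av F (fun ω => hg τ ν φ L z ω - hg τ ν φ L z' ω) / av F W

/-- exponent -/
def th (s : ℕ) : ℝ := 1 - (1 / 2 : ℝ) ^ s

/-- factor of the scales -/
def sc (s j K : ℕ) : ℝ := ((2 : ℝ) ^ j / 2 ^ K) ^ (th s / 8)

/-- constant -/
def kc (C0 c : ℝ) : ℝ := 4 * C0 / c + 8 * C0 ^ 2 / c ^ 2

/-- **Comparison of two weights in the disc `BR z (2 ^ K)`.** -/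
def Cmp (s : ℕ) (C : ℝ) : Prop :=
  ∀ {V Φ : Type} [DecidableEq V] [DecidableEq Φ] (Q : QC V Φ) (F : Finset Φ) (ν : ℤ × ℤ → V)
    (φ : ℤ × ℤ → Φ) (z z' : VZ) (j K : ℕ) (W Wp : (Φ → Bool) → ℝ) (τ τp : V × V → (Φ → Bool) → ℝ)
    (Dm G : Set Φ) (Bd g : (Φ → Bool) → ℝ) (c C0 Pr : ℝ),
    QChart ZQ Q (BR z (2 ^ K)) ν φ 0 → (BR z (2 ^ K)).image φ ⊆ F →
    (((BR z (2 ^ K)).image φ : Finset Φ) : Set Φ) ⊆ Dm ∩ G →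
    |z'.1 - z.1| ≤ 2 ^ j → |z'.2 - z.2| ≤ 2 ^ j → j + 2 ≤ K →
    Up ν φ (BR z (2 ^ K)) F W τ s Dm (C0 * Pr) Bd → Up ν φ (BR z (2 ^ K)) F Wp τp s Dm (C0 * Pr) Bd →
    (∀ ω, g ω = 0 ∨ g ω = 1) → Dep Dm g → Dep Gᶜ g →
    (∀ ω, g ω = 0 → Wp ω = W ω ∧ ∀ e ∈ dE ZQ (BR z (2 ^ K)), τp (mv ν e) ω = τ (mv ν e) ω) →
    0 < c → 0 < Pr → 0 ≤ C0 → c * Pr ≤ av F Wp → 2 * C0 * av F g ^ th s ≤ c / 2 →
    c / 2 * Pr ≤ av F W ∧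
      |dH ν φ (BR z (2 ^ K)) F Wp τp z z' - dH ν φ (BR z (2 ^ K)) F W τ z z'| ≤
        kc C0 c * av F g ^ th s * (C * sc s j K)

section

variable {V Φ : Type} [DecidableEq V] [DecidableEq Φ]
variable {Q : QC V Φ} {F F₁ K₀ K₁ : Finset Φ} {ν : ℤ × ℤ → V} {φ : ℤ × ℤ → Φ}
  {z z' : VZ} {j K : ℕ} {W Wp : (Φ → Bool) → ℝ} {τ τp : V × V → (Φ → Bool) → ℝ}
  {Bd Bd' g : (Φ → Bool) → ℝ} {s : ℕ} {Dm : Set Φ} {C C0 C1 c Pr : ℝ}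

theorem hup_add {Ω ι : Type*} {P : ExpSys Ω ι} {s : ℕ} {Dm : Set ι} {Bd Bd' : Ω → ℝ} {A A' : ℝ}
    (h : HSum.HUpper P s Dm Bd A) (h' : HSum.HUpper P s Dm Bd' A') :
    HSum.HUpper P s Dm (fun ω => Bd ω + Bd' ω) (A + A') := by
  intro x Z hx hZ hxD hZD
  have e : (fun ω => (Bd ω + Bd' ω) * (x ω * Z ω)) =
      fun ω => Bd ω * (x ω * Z ω) + Bd' ω * (x ω * Z ω) := by
    funext ω
    ring
  rw [e, P.add, add_mul]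
  exact add_le_add (h x Z hx hZ hxD hZD) (h' x Z hx hZ hxD hZD)

theorem E_nonneg01 (F : Finset Φ) {g : (Φ → Bool) → ℝ} (hg : ∀ ω, g ω = 0 ∨ g ω = 1) :
    0 ≤ av F g := (HSum.E01 (LH.avSys F) hg).1

/-- **Removing a rare event.** -/
theorem Cmp.cut (hC : Cmp s C) (H : QChart ZQ Q (BR z (2 ^ K)) ν φ 0)
    (hF : (BR z (2 ^ K)).image φ ⊆ F) (hD : (((BR z (2 ^ K)).image φ : Finset Φ) : Set Φ) ⊆ Dm)
    (h1 : |z'.1 - z.1| ≤ 2 ^ j) (h2 : |z'.2 - z.2| ≤ 2 ^ j) (hjK : j + 2 ≤ K)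
    (P : Pk ν φ (BR z (2 ^ K)) F W τ s Dm C0 c Pr Bd) (hg : ∀ ω, g ω = 0 ∨ g ω = 1)
    (hgD : Dep Dm g) (hgG : Dep (((BR z (2 ^ K)).image φ : Finset Φ) : Set Φ)ᶜ g)
    (hsm : 2 * C0 * av F g ^ th s ≤ c / 2) :
    c / 2 * Pr ≤ av F (fun ω => (1 - g ω) * W ω) ∧
      |dH ν φ (BR z (2 ^ K)) F W τ z z' - dH ν φ (BR z (2 ^ K)) F (fun ω => (1 - g ω) * W ω)
        (fun e ω => (1 - g ω) * τ e ω) z z'| ≤ kc C0 c * av F g ^ th s * (C * sc s j K) := by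
  have hU : Up ν φ (BR z (2 ^ K)) F (fun ω => (1 - g ω) * W ω) (fun e ω => (1 - g ω) * τ e ω) s Dm
      (C0 * Pr) Bd := by
    refine P.toUp.mul (c := fun ω => 1 - g ω) ?_ ?_ ?_
    · intro ω ω' h
      show 1 - g ω = 1 - g ω'
      rw [hgG ω ω' h]
    · intro ω
      rcases hg ω with h | h <;> rw [h] <;> norm_num
    · intro ω
      rcases hg ω with h | h <;> rw [h] <;> norm_num
  exact hC Q F ν φ z z' j K (fun ω => (1 - g ω) * W ω) W (fun e ω => (1 - g ω) * τ e ω) τ Dm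
    (((BR z (2 ^ K)).image φ : Finset Φ) : Set Φ) Bd g c C0 Pr H hF (fun x hx => ⟨hD hx, hx⟩) h1 h2 hjK
    hU P.toUp hg hgD hgG (fun ω h => ⟨by show W ω = (1 - g ω) * W ω; rw [h]; ring,
      fun e _ => by show τ (mv ν e) ω = (1 - g ω) * τ (mv ν e) ω; rw [h]; ring⟩)
    P.c_pos P.Pr_pos P.C0_nonneg P.low hsm

/-- **Two packages.** The first one inherits the lower bound. -/
theorem Cmp.two (hC : Cmp s C) (H : QChart ZQ Q (BR z (2 ^ K)) ν φ 0)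
    (hF : (BR z (2 ^ K)).image φ ⊆ F) (hD : (((BR z (2 ^ K)).image φ : Finset Φ) : Set Φ) ⊆ Dm)
    (h1 : |z'.1 - z.1| ≤ 2 ^ j) (h2 : |z'.2 - z.2| ≤ 2 ^ j) (hjK : j + 2 ≤ K)
    (U : Up ν φ (BR z (2 ^ K)) F W τ s Dm (C1 * Pr) Bd) (hC1 : 0 ≤ C1)
    (P : Pk ν φ (BR z (2 ^ K)) F Wp τp s Dm C0 c Pr Bd') (hg : ∀ ω, g ω = 0 ∨ g ω = 1)
    (hgD : Dep Dm g) (hgG : Dep (((BR z (2 ^ K)).image φ : Finset Φ) : Set Φ)ᶜ g)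
    (hsame : ∀ ω, g ω = 0 → Wp ω = W ω ∧
      ∀ e ∈ dE ZQ (BR z (2 ^ K)), τp (mv ν e) ω = τ (mv ν e) ω)
    (hsm : 2 * (C1 + C0) * av F g ^ th s ≤ c / 2) :
    Pk ν φ (BR z (2 ^ K)) F W τ s Dm C1 (c / 2) Pr Bd ∧
      |dH ν φ (BR z (2 ^ K)) F Wp τp z z' - dH ν φ (BR z (2 ^ K)) F W τ z z'| ≤
        kc (C1 + C0) c * av F g ^ th s * (C * sc s j K) := by
  have hU : HSum.HUpper (LH.avSys F) s Dm (fun ω => Bd ω + Bd' ω) ((C1 + C0) * Pr) := by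
    rw [add_mul]
    exact hup_add U.up P.up
  have h := hC Q F ν φ z z' j K W Wp τ τp Dm (((BR z (2 ^ K)).image φ : Finset Φ) : Set Φ)
    (fun ω => Bd ω + Bd' ω) g c (C1 + C0) Pr H hF (fun x hx => ⟨hD hx, hx⟩) h1 h2 hjK
    (U.mono (fun ω => by have := P.toUp.nonneg ω; linarith) hU)
    (P.toUp.mono (fun ω => by have := U.nonneg ω; linarith) hU) hg hgD hgG hsame P.c_pos P.Pr_pos
    (add_nonneg hC1 P.C0_nonneg) P.low hsm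
  exact ⟨⟨U, h.1, half_pos P.c_pos, P.Pr_pos, hC1⟩, h.2⟩

/-! ## Environment and slab with closed tubes -/

variable {Z : Finset (V × V)} {ψ ψ₁ ψ₂ : V × V → ℝ} {b0 b1 : (Φ → Bool) → ℝ} {T0 T1 : Set Φ}

/-- the union of two events -/
def orr (b0 b1 : (Φ → Bool) → ℝ) (ω : Φ → Bool) : ℝ := 1 - (1 - b0 ω) * (1 - b1 ω)

theorem orr_01 (h0 : ∀ ω, b0 ω = 0 ∨ b0 ω = 1) (h1 : ∀ ω, b1 ω = 0 ∨ b1 ω = 1) (ω : Φ → Bool) :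
    orr b0 b1 ω = 0 ∨ orr b0 b1 ω = 1 := by
  unfold orr
  rcases h0 ω with h | h <;> rcases h1 ω with h' | h' <;> rw [h, h'] <;> norm_num

theorem av_orr_le (F : Finset Φ) (h0 : ∀ ω, b0 ω = 0 ∨ b0 ω = 1) (h1 : ∀ ω, b1 ω = 0 ∨ b1 ω = 1) :
    av F (orr b0 b1) ≤ av F b0 + av F b1 := by
  rw [← av_add]
  refine av_mono fun T _ => ?_
  unfold orr
  rcases h0 (ind T) with h | h <;> rcases h1 (ind T) with h' | h' <;> rw [h, h'] <;> norm_num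

theorem dep_orr {S : Set Φ} (d0 : Dep S b0) (d1 : Dep S b1) : Dep S (orr b0 b1) := by
  intro ω ω' h
  unfold orr
  rw [d0 ω ω' h, d1 ω ω' h]

theorem Dep.mono' {α : Type} {S T : Set Φ} {f : (Φ → Bool) → α} (h : Dep S f) (hST : S ⊆ T) :
    Dep T f := fun ω ω' hω => h ω ω' fun x hx => hω x (hST hx)

theorem av_enlarge {S : Finset Φ} {f : (Φ → Bool) → ℝ} (h : Dep T0 f) (h0 : T0 ⊆ (S : Set Φ))
    (hS : S ⊆ F) : av F f = av S f := av_dep (Dep.mono' h h0) hS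

/-- hypotheses on the cut of an environment in its tubes: `b0`, `b1` events of the tubes `T0`, `T1` on the two sides of
the cut -/
structure CutH (Q : QC V Φ) (F F₁ K₀ K₁ : Finset Φ) (Z : Finset (V × V)) (ψ ψ₁ ψ₂ : V × V → ℝ)
    (b0 b1 : (Φ → Bool) → ℝ) (T0 T1 : Set Φ) : Prop where
  cut : Spl.Cut2 Q F F₁ K₀ K₁ Z ψ ψ₁ ψ₂
  h0 : ∀ ω, b0 ω = 0 ∨ b0 ω = 1
  h1 : ∀ ω, b1 ω = 0 ∨ b1 ω = 1
  d0 : Dep T0 b0
  d1 : Dep T1 b1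
  s0 : T0 ⊆ ((F₁ : Finset Φ) : Set Φ)
  s1 : T1 ⊆ ((F \ F₁ : Finset Φ) : Set Φ)
  t0 : T0 ⊆ ((K₀ : Finset Φ) : Set Φ)ᶜ
  ok : ∀ ω, b0 ω = 0 → b1 ω = 0 → Spl.CutW Q F F₁ K₀ K₁ Z ψ ψ₁ ψ₂ ω

/-- **The environment and the slab with closed tubes.** -/
theorem Cmp.env {DmE Dm1 : Set Φ} {C0E cE PrE C01 c1 Pr1 : ℝ} {BdE Bd1 : (Φ → Bool) → ℝ}
    (hC : Cmp s C) (hQ : NoLoop Q) (hT : CutH Q F F₁ K₀ K₁ Z ψ ψ₁ ψ₂ b0 b1 T0 T1)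
    (H : QChart ZQ Q (BR z (2 ^ K)) ν φ 0) (hK : (BR z (2 ^ K)).image φ ⊆ K₀)
    (hDE : (((BR z (2 ^ K)).image φ : Finset Φ) : Set Φ) ⊆ DmE)
    (hD1 : (((BR z (2 ^ K)).image φ : Finset Φ) : Set Φ) ⊆ Dm1)
    (h0E : T0 ⊆ DmE) (h1E : T1 ⊆ DmE) (h01 : T0 ⊆ Dm1)
    (h1 : |z'.1 - z.1| ≤ 2 ^ j) (h2 : |z'.2 - z.2| ≤ 2 ^ j) (hjK : j + 2 ≤ K)
    (PE : Pk ν φ (BR z (2 ^ K)) F (WZ Q F ψ Z) (WZ1 Q F ψ Z) s DmE C0E cE PrE BdE)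
    (P1 : Pk ν φ (BR z (2 ^ K)) F₁ (WZ Q F₁ ψ₁ (bS Q F₁)) (WZ1 Q F₁ ψ₁ (bS Q F₁)) s Dm1 C01 c1 Pr1 Bd1)
    (hsE : 2 * C0E * av F (orr b0 b1) ^ th s ≤ cE / 2)
    (hs1 : 2 * C01 * av F₁ b0 ^ th s ≤ c1 / 2) :
    |dH ν φ (BR z (2 ^ K)) F (WZ Q F ψ Z) (WZ1 Q F ψ Z) z z' -
      dH ν φ (BR z (2 ^ K)) F₁ (WZ Q F₁ ψ₁ (bS Q F₁)) (WZ1 Q F₁ ψ₁ (bS Q F₁)) z z'| ≤
      kc C0E cE * av F (orr b0 b1) ^ th s * (C * sc s j K) +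
        kc C01 c1 * av F₁ b0 ^ th s * (C * sc s j K) := by
  have D := hT.cut
  have hF1 : (BR z (2 ^ K)).image φ ⊆ F₁ := hK.trans D.K0
  have hF : (BR z (2 ^ K)).image φ ⊆ F := hF1.trans D.sub
  -- the tubes are off the disc
  have hoff0 : T0 ⊆ (((BR z (2 ^ K)).image φ : Finset Φ) : Set Φ)ᶜ := fun x hx hx' =>
    hT.t0 hx (by exact_mod_cast hK (by exact_mod_cast hx'))
  have hoff1 : T1 ⊆ (((BR z (2 ^ K)).image φ : Finset Φ) : Set Φ)ᶜ := fun x hx hx' => by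
    have h3 : x ∈ F \ F₁ := by exact_mod_cast hT.s1 hx
    exact (Finset.mem_sdiff.mp h3).2 (hF1 (by exact_mod_cast hx'))
  have hLK : ∀ e ∈ dE ZQ (BR z (2 ^ K)), mv ν e ∈ dE Q K₀ := by
    intro e he
    refine SixB.dE_mono hK ?_
    rw [dE_map H]
    exact Finset.mem_image_of_mem _ he
  have hE := hC.cut H hF hDE h1 h2 hjK PE (orr_01 hT.h0 hT.h1)
    (dep_orr (Dep.mono' hT.d0 h0E) (Dep.mono' hT.d1 h1E))
    (dep_orr (Dep.mono' hT.d0 hoff0) (Dep.mono' hT.d1 hoff1)) hsE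
  have hP := hC.cut H hF1 hD1 h1 h2 hjK P1 hT.h0 (Dep.mono' hT.d0 h01) (Dep.mono' hT.d0 hoff0) hs1
  have e1 : (fun ω => (1 - orr b0 b1 ω) * WZ Q F ψ Z ω) =
      fun ω => ((1 - b0 ω) * (1 - b1 ω)) * WZ Q F ψ Z ω := by
    funext ω
    unfold orr
    ring
  have e2 : (fun (e : V × V) (ω : Φ → Bool) => (1 - orr b0 b1 ω) * WZ1 Q F ψ Z e ω) =
      fun e ω => ((1 - b0 ω) * (1 - b1 ω)) * WZ1 Q F ψ Z e ω := by
    funext e ω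
    unfold orr
    ring
  rw [e1, e2] at hE
  have hne : av F (fun ω => ((1 - b0 ω) * (1 - b1 ω)) * WZ Q F ψ Z ω) ≠ 0 :=
    (lt_of_lt_of_le (mul_pos (half_pos PE.c_pos) PE.Pr_pos) hE.1).ne'
  have hx := exact_step (ν := ν) (φ := φ) (L := BR z (2 ^ K)) hQ D hT.h0 hT.h1 (Dep.mono' hT.d0 hT.s0)
    (Dep.mono' hT.d1 hT.s1) hT.ok hLK hF1 hne z z'
  have hx' : dH ν φ (BR z (2 ^ K)) F (fun ω => ((1 - b0 ω) * (1 - b1 ω)) * WZ Q F ψ Z ω)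
      (fun e ω => ((1 - b0 ω) * (1 - b1 ω)) * WZ1 Q F ψ Z e ω) z z' =
      dH ν φ (BR z (2 ^ K)) F₁ (fun ω => (1 - b0 ω) * WZ Q F₁ ψ₁ (bS Q F₁) ω)
        (fun e ω => (1 - b0 ω) * WZ1 Q F₁ ψ₁ (bS Q F₁) e ω) z z' := hx
  rw [hx'] at hE
  have h3 := hE.2
  have h4 := hP.2
  rw [abs_le] at h3 h4 ⊢
  constructor <;> linarith [h3.1, h3.2, h4.1, h4.2]

end

end

end Pool.Agent.SixB.HCmp
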