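import Pool.Agent.Lib.SixB.S3HStp
import Pool.Agent.Lib.SixB.S3AtlUp
import Pool.Agent.Lib.SixB.S3WZ5
import Pool.Agent.Lib.SixB.S3KindD

/-!
# 6BD step 3.8 (R18): the packages `Up`, `Pk` of a complex with an atlas

* `Atlas.prS_pos`: the product of the local factors of an atlas is positive.
* `Atlas.abs_WZ1_bd`: the local bound for the inserted weight, arrow off all boxes.
* `OffA A ν L`: the sides of the planar disc `L` in the complex are off the boxes of the atlas; `OffA.mono`,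
  `OffA.of_faces` (criterion with the faces next to the disc), `OffA.monoA`.
* `up_of_atlas`, `pk_of_atlas`: `Up`, `Pk` for the weight `WZ` of an atlas; `up_of_atlas_le`, `pk_of_atlas_le`: uniform
  in the numbers of charts, product `FP r (vts A)`.
* `Up.nW`, `Pk.nW`: from `WZ`, `WZ1` of all boundary sides to `nW`, `nW1`.
-/

set_option autoImplicit false
set_option linter.unusedSectionVars false

namespace Pool.Agent.SixB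

open Finset Pool.Agent.Perc.Q Pool.Agent.Perc Pool.Agent.SixB.HSum
open Pool.Agent.SixB.Rel (QChart QMap Clo4 nW_WZ nW1_WZ1 cells_abs_WZ1_le ins_WZ WZ1)
open Pool.Agent.SixB.HDet Pool.Agent.SixB.HCmp Pool.Agent.SixB.PC
open Pool.Agent.SixB.Dbl (prS)

noncomputable section

attribute [local instance] Atlas.fκ Atlas.dκ Atlas.fι Atlas.fμ

variable {V Φ : Type} [DecidableEq V] [DecidableEq Φ] {Q : QC V Φ} {F : Finset Φ}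
  {ψ : V × V → ℝ} {Z : Finset (V × V)} {r nS nN : ℕ} {t₀ : ℝ}

theorem Atlas.prS_pos (A : Atlas Q F ψ Z r nS nN t₀) (h0 : 0 < t₀) : 0 < prS A := by
  unfold prS
  exact Finset.prod_pos fun i _ => Kd.sF_pos h0 (A.m_rng i).1 (A.m_rng i).2 (A.weights i) _

/-- the inserted weight, arrow off all boxes -/
theorem Atlas.abs_WZ1_bd (A : Atlas Q F ψ Z r nS nN t₀) (hr : 0 < r) (h0 : 0 ≤ t₀) (hQ : NoLoop Q)
    (ω : Φ → Bool) {e : V × V} (he : e ∈ dE Q F) (h1 : ∀ i, e ∉ dE Q ((A.ch i).box (4 * r)))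
    (h2 : ∀ i, e ∉ dE Q ((A.nch i).box (2 * r)))
    (h3 : ∀ i, e ∉ dE Q ((Mth (A.lf i) (A.w i) (2 * r) (A.h i) (A.l i)).image (A.mch i).φF)) :
    |WZ1 Q F ψ Z e ω| ≤ 2 * A.bd hr h0 ω := by
  classical
  have hC := A.isCells hr h0
  refine cells_abs_WZ1_le hQ (A.cells hr h0) ω he (fun i _ => ?_) fun v _ => ?_
  · rcases i with i | i
    · rw [hC.nG]
      exact h2 i
    · rw [hC.mG]
      exact h3 i
  · rw [hC.B]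
    exact h1 v

/-! ## Discs off the atlas -/

/-- the sides of the disc `L` are off the boxes of the atlas -/
structure OffA (A : Atlas Q F ψ Z r nS nN t₀) (ν : ℤ × ℤ → V) (L : Finset (ℤ × ℤ)) : Prop where
  sp : ∀ i, ∀ e ∈ dE ZQ L, mv ν e ∉ dE Q ((A.ch i).box (4 * r))
  nt : ∀ i, ∀ e ∈ dE ZQ L, mv ν e ∉ dE Q ((A.nch i).box (2 * r))
  mt : ∀ i, ∀ e ∈ dE ZQ L, mv ν e ∉ dE Q ((Mth (A.lf i) (A.w i) (2 * r) (A.h i) (A.l i)).image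
    (A.mch i).φF)

theorem OffA.mono {A : Atlas Q F ψ Z r nS nN t₀} {ν : ℤ × ℤ → V} {L L' : Finset (ℤ × ℤ)}
    (h : OffA A ν L) (hL : L' ⊆ L) : OffA A ν L' where
  sp i e he := h.sp i e (SixB.dE_mono hL he)
  nt i e he := h.nt i e (SixB.dE_mono hL he)
  mt i e he := h.mt i e (SixB.dE_mono hL he)

/-- criterion: the faces of `F` with a side of the disc are in `N`, the boxes are off `N` -/
theorem OffA.of_faces {A : Atlas Q F ψ Z r nS nN t₀} {ν : ℤ × ℤ → V} {L : Finset (ℤ × ℤ)}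
    {N : Set Φ} (hN : ∀ e ∈ dE ZQ L, ∀ f ∈ F, ∀ k, (mv ν e = sd Q f k ∨ mv ν e = (sd Q f k).swap) →
      f ∈ N) (h1 : ∀ i, ∀ f ∈ (A.ch i).box (4 * r), f ∉ N)
    (h2 : ∀ i, ∀ f ∈ (A.nch i).box (2 * r), f ∉ N)
    (h3 : ∀ i, ∀ f ∈ (Mth (A.lf i) (A.w i) (2 * r) (A.h i) (A.l i)).image (A.mch i).φF, f ∉ N)
    (hr : 0 < r) (h0 : 0 ≤ t₀) : OffA A ν L := by
  classical
  have key : ∀ {G : Finset Φ}, G ⊆ F → (∀ f ∈ G, f ∉ N) → ∀ e ∈ dE ZQ L, mv ν e ∉ dE Q G := by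
    intro G hG hGN e he hc
    obtain ⟨f, hf, k, h⟩ := mem_dE.mp hc
    exact hGN f hf (hN e he f (hG hf) k h)
  have hC := A.isCells hr h0
  refine ⟨fun i => key ?_ (h1 i), fun i => key ?_ (h2 i), fun i => key ?_ (h3 i)⟩
  · have h := (A.cells hr h0).B_sub i (Finset.mem_univ i)
    rwa [hC.B] at h
  · have h := (A.cells hr h0).G_sub (.inl i) (Finset.mem_univ _)
    rwa [hC.nG] at h
  · have h := (A.cells hr h0).G_sub (.inr i) (Finset.mem_univ _)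
    rwa [hC.mG] at h

/-! ## The packages -/

/-- **The upper package of an atlas.** -/
theorem up_of_atlas (nS nN s : ℕ) (t₀ : ℝ) (h0 : 0 < t₀) (h1 : t₀ ≤ 1) :
    ∃ C₀ : ℝ, 0 < C₀ ∧ ∀ {V Φ : Type} [DecidableEq V] [DecidableEq Φ] {Q : QC V Φ} {F : Finset Φ}
      {ψ : V × V → ℝ} {Z : Finset (V × V)} {r : ℕ} (A : Atlas Q F ψ Z r nS nN t₀) (hr : 0 < r),
      NoLoop Q → ∀ {ν : ℤ × ℤ → V} {φ : ℤ × ℤ → Φ} {L : Finset (ℤ × ℤ)}, QChart ZQ Q L ν φ 0 →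
      (∀ f ∈ L, φ f ∈ F) → OffA A ν L → ∀ (Dm : Set Φ),
      (∀ i, Dm ⊆ ((A.ch i).box (r / 2) : Set Φ)ᶜ) →
      HCmp.Up ν φ L F (WZ Q F ψ Z) (WZ1 Q F ψ Z) s Dm (C₀ * prS A) (A.bd hr h0.le) := by
  obtain ⟨K₀, hK, h⟩ := atlas_hup_bd nS nN s t₀ h0 h1
  refine ⟨K₀, hK, ?_⟩
  intro V Φ _ _ Q F ψ Z r A hr hQ ν φ L H hF hO Dm hDm
  exact
    { dsk := DskI.of_ins (ins_WZ hQ A.Z_sub ψ) H hF
      up := h A hr Dm hDm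
      hW := A.abs_WZ_bd hr h0.le
      hτ := fun ω e he _ => A.abs_WZ1_bd hr h0.le hQ ω (mv_dE H hF he) (fun i => hO.sp i e he)
        (fun i => hO.nt i e he) (fun i => hO.mt i e he) }

/-- **The package of an atlas.** -/
theorem pk_of_atlas (nS nN s : ℕ) (t₀ : ℝ) (h0 : 0 < t₀) (h1 : t₀ ≤ 1) :
    ∃ C₀ : ℝ, 0 < C₀ ∧ ∀ {V Φ : Type} [DecidableEq V] [DecidableEq Φ] {Q : QC V Φ} {F : Finset Φ}
      {ψ : V × V → ℝ} {Z : Finset (V × V)} {r : ℕ} (A : Atlas Q F ψ Z r nS nN t₀) (hr : 0 < r),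
      NoLoop Q → ∀ {ν : ℤ × ℤ → V} {φ : ℤ × ℤ → Φ} {L : Finset (ℤ × ℤ)}, QChart ZQ Q L ν φ 0 →
      (∀ f ∈ L, φ f ∈ F) → OffA A ν L → ∀ (Dm : Set Φ),
      (∀ i, Dm ⊆ ((A.ch i).box (r / 2) : Set Φ)ᶜ) → ∀ c : ℝ, 0 < c →
      c * prS A ≤ av F (WZ Q F ψ Z) →
      HCmp.Pk ν φ L F (WZ Q F ψ Z) (WZ1 Q F ψ Z) s Dm C₀ c (prS A) (A.bd hr h0.le) := by
  obtain ⟨K₀, hK, h⟩ := up_of_atlas nS nN s t₀ h0 h1
  refine ⟨K₀, hK, ?_⟩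
  intro V Φ _ _ Q F ψ Z r A hr hQ ν φ L H hF hO Dm hDm c hc hlow
  exact ⟨h A hr hQ H hF hO Dm hDm, hlow, hc, A.prS_pos h0, hK.le⟩

/-- The upper package with bounds of the numbers of charts. -/
theorem up_of_atlas_le (nS nN s : ℕ) (t₀ : ℝ) (h0 : 0 < t₀) (h1 : t₀ ≤ 1) :
    ∃ C₀ : ℝ, 0 < C₀ ∧ ∀ {V Φ : Type} [DecidableEq V] [DecidableEq Φ] {Q : QC V Φ} {F : Finset Φ}
      {ψ : V × V → ℝ} {Z : Finset (V × V)} {r nS' nN' : ℕ} {t₁ : ℝ}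
      (A : Atlas Q F ψ Z r nS' nN' t₁), nS' ≤ nS → nN' ≤ nN → t₀ ≤ t₁ → 0 < r →
      NoLoop Q → ∀ {ν : ℤ × ℤ → V} {φ : ℤ × ℤ → Φ} {L : Finset (ℤ × ℤ)}, QChart ZQ Q L ν φ 0 →
      (∀ f ∈ L, φ f ∈ F) → OffA A ν L → ∀ (Dm : Set Φ),
      (∀ i, Dm ⊆ ((A.ch i).box (r / 2) : Set Φ)ᶜ) → ∃ Bd : (Φ → Bool) → ℝ,
      HCmp.Up ν φ L F (WZ Q F ψ Z) (WZ1 Q F ψ Z) s Dm (C₀ * FP r (St.vts A)) Bd := by
  obtain ⟨K₀, hK, h⟩ := up_of_atlas nS nN s t₀ h0 h1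
  refine ⟨K₀, hK, ?_⟩
  intro V Φ _ _ Q F ψ Z r nS' nN' t₁ A hS hN ht hr hQ ν φ L H hF hO Dm hDm
  have h2 := h (Dbl.monoA A ht hS hN) hr hQ H hF ⟨hO.sp, hO.nt, hO.mt⟩ Dm hDm
  rw [← Dbl.prS_eq]
  exact ⟨_, h2⟩

/-- The package with bounds of the numbers of charts. -/
theorem pk_of_atlas_le (nS nN s : ℕ) (t₀ : ℝ) (h0 : 0 < t₀) (h1 : t₀ ≤ 1) :
    ∃ C₀ : ℝ, 0 < C₀ ∧ ∀ {V Φ : Type} [DecidableEq V] [DecidableEq Φ] {Q : QC V Φ} {F : Finset Φ}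
      {ψ : V × V → ℝ} {Z : Finset (V × V)} {r nS' nN' : ℕ} {t₁ : ℝ}
      (A : Atlas Q F ψ Z r nS' nN' t₁), nS' ≤ nS → nN' ≤ nN → t₀ ≤ t₁ → 0 < r →
      NoLoop Q → ∀ {ν : ℤ × ℤ → V} {φ : ℤ × ℤ → Φ} {L : Finset (ℤ × ℤ)}, QChart ZQ Q L ν φ 0 →
      (∀ f ∈ L, φ f ∈ F) → OffA A ν L → ∀ (Dm : Set Φ),
      (∀ i, Dm ⊆ ((A.ch i).box (r / 2) : Set Φ)ᶜ) → ∀ c : ℝ, 0 < c →
      c * FP r (St.vts A) ≤ av F (WZ Q F ψ Z) → ∃ Bd : (Φ → Bool) → ℝ,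
      HCmp.Pk ν φ L F (WZ Q F ψ Z) (WZ1 Q F ψ Z) s Dm C₀ c (FP r (St.vts A)) Bd := by
  obtain ⟨K₀, hK, h⟩ := up_of_atlas_le nS nN s t₀ h0 h1
  refine ⟨K₀, hK, ?_⟩
  intro V Φ _ _ Q F ψ Z r nS' nN' t₁ A hS hN ht hr hQ ν φ L H hF hO Dm hDm c hc hlow
  obtain ⟨Bd, h2⟩ := h A hS hN ht hr hQ H hF hO Dm hDm
  refine ⟨Bd, h2, hlow, hc, ?_, hK.le⟩
  rw [← Dbl.prS_eq]
  exact A.prS_pos (h0.trans_le ht)

/-! ## All boundary sides -/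

namespace HCmp

variable {ν : ℤ × ℤ → V} {φ : ℤ × ℤ → Φ} {L : Finset (ℤ × ℤ)} {s : ℕ} {Dm : Set Φ} {B C₀ c Pr : ℝ}
  {Bd : (Φ → Bool) → ℝ} {W : (Φ → Bool) → ℝ} {τ : V × V → (Φ → Bool) → ℝ}

/-- from `WZ` to `nW` -/
theorem Up.nW (U : Up ν φ L F (WZ Q F ψ (bS Q F)) (WZ1 Q F ψ (bS Q F)) s Dm B Bd) (hQ : NoLoop Q)
    (hc : Clo4 Q F) (H : QChart ZQ Q L ν φ 0) (hF : ∀ f ∈ L, φ f ∈ F) :
    Up ν φ L F (SixB.nW Q F ψ) (nW1 Q F ψ) s Dm B Bd where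
  dsk := DskI.of_ins (ins_nW hQ F ψ) H hF
  up := U.up
  hW ω := by
    rw [nW_WZ hQ (hc ω)]
    exact U.hW ω
  hτ ω e he h := by
    rw [nW1_WZ1 hQ (mv_dE H hF he) (hc ω)]
    exact U.hτ ω e he h

theorem Pk.nW (P : Pk ν φ L F (WZ Q F ψ (bS Q F)) (WZ1 Q F ψ (bS Q F)) s Dm C₀ c Pr Bd)
    (hQ : NoLoop Q) (hc : Clo4 Q F) (H : QChart ZQ Q L ν φ 0) (hF : ∀ f ∈ L, φ f ∈ F) :
    Pk ν φ L F (SixB.nW Q F ψ) (nW1 Q F ψ) s Dm C₀ c Pr Bd where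
  toUp := P.toUp.nW hQ hc H hF
  low := by
    have e : av F (SixB.nW Q F ψ) = av F (WZ Q F ψ (bS Q F)) :=
      av_congr fun T _ => nW_WZ hQ (hc _)
    rw [e]
    exact P.low
  c_pos := P.c_pos
  Pr_pos := P.Pr_pos
  C0_nonneg := P.C0_nonneg

/-- a smaller domain and a smaller disc -/
theorem Up.dom {Dm' : Set Φ} (U : Up ν φ L F W τ s Dm B Bd) (h : Dm' ⊆ Dm) :
    Up ν φ L F W τ s Dm' B Bd :=
  ⟨U.dsk, U.up.mono_dom h, U.hW, U.hτ⟩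

theorem Pk.dom {Dm' : Set Φ} (P : Pk ν φ L F W τ s Dm C₀ c Pr Bd) (h : Dm' ⊆ Dm) :
    Pk ν φ L F W τ s Dm' C₀ c Pr Bd :=
  ⟨P.toUp.dom h, P.low, P.c_pos, P.Pr_pos, P.C0_nonneg⟩

end HCmp

end

end Pool.Agent.SixB
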