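import Pool.Agent.Lib.SixB.S3AtlDefs
import Pool.Agent.Lib.SixB.S3WGeo
import Pool.Agent.Lib.SixB.S3TurnE
import Pool.Agent.Lib.SixB.S3Chart
import Pool.Agent.Lib.SixB.S3HPk

/-!
# 6BD step 3.8 (R18): a planar disc of the surface is off the cells of every atlas

`H : QChart ZQ Q L₂ ν φ 0` with `φ L₂ ⊆ F`: a planar disc of the surface without boundary sides. The charts of the
cells keep the labels of the sides, so a face of a cell in the disc propagates along the cell until a wall side: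
* `Off.wdg`, `Off.mth`: no face of the disc with a margin is a face of a chart of a wedge or of a mouth;
* `Off.side_wdg`, `Off.side_mth`: the same for sides;
* `Off.offA`, `Off.off_box`: every atlas.
-/

set_option autoImplicit false
set_option linter.unusedSectionVars false

namespace Pool.Agent.SixB.Off

open Pool.Agent.Perc Pool.Agent.Perc.Q Pool.Agent.PercD Pool.Agent.PercN Pool.Agent.SixB Pool.Agent.SixB.WG
open Pool.Agent.SixB.Rel (QChart)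

noncomputable section

/-! ## Paths -/

/-- closed under steps inside `R` -/
def Stp (R T : Set (ℤ × ℤ)) : Prop := ∀ f k, f ∈ T → f ∈ R → bh f k ∈ R → bh f k ∈ T

theorem rect_hor {R T : Set (ℤ × ℤ)} {x0 x1 y0 y1 : ℤ} (hR : ∀ f : ℤ × ℤ, x0 ≤ f.1 → f.1 < x1 →
    y0 ≤ f.2 → f.2 < y1 → f ∈ R) (hT : Stp R T) {x y : ℤ} (h : (x, y) ∈ T) (hx : x0 ≤ x ∧ x < x1)
    (hy : y0 ≤ y ∧ y < y1) : ∀ x', x0 ≤ x' → x' < x1 → (x', y) ∈ T := by
  have h1 : ∀ n : ℕ, x + n < x1 → (x + n, y) ∈ T := by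
    intro n
    induction n with
    | zero => intro _; simpa using h
    | succ n ih =>
      intro hn
      push_cast at hn
      have h2 := hT (x + n, y) 1 (ih (by omega))
        (hR _ (by simp only; omega) (by simp only; omega) hy.1 hy.2)
        (hR _ (by rw [bh1]; simp only; omega) (by rw [bh1]; simp only; omega) hy.1 hy.2)
      rw [bh1] at h2
      push_cast
      rw [← add_assoc]
      exact h2
  have h3 : ∀ n : ℕ, x0 ≤ x - n → (x - n, y) ∈ T := by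
    intro n
    induction n with
    | zero => intro _; simpa using h
    | succ n ih =>
      intro hn
      push_cast at hn
      have h2 := hT (x - n, y) 3 (ih (by omega))
        (hR _ (by simp only; omega) (by simp only; omega) hy.1 hy.2)
        (hR _ (by rw [bh3]; simp only; omega) (by rw [bh3]; simp only; omega) hy.1 hy.2)
      rw [bh3] at h2
      push_cast
      rw [← sub_sub]
      exact h2
  intro x' hx0 hx1
  rcases le_total x x' with hle | hle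
  · have h4 := h1 (x' - x).toNat (by rw [Int.toNat_of_nonneg (by omega)]; omega)
    rw [Int.toNat_of_nonneg (by omega)] at h4
    rwa [show x + (x' - x) = x' by ring] at h4
  · have h4 := h3 (x - x').toNat (by rw [Int.toNat_of_nonneg (by omega)]; omega)
    rw [Int.toNat_of_nonneg (by omega)] at h4
    rwa [show x - (x - x') = x' by ring] at h4

theorem rect_ver {R T : Set (ℤ × ℤ)} {x0 x1 y0 y1 : ℤ} (hR : ∀ f : ℤ × ℤ, x0 ≤ f.1 → f.1 < x1 →
    y0 ≤ f.2 → f.2 < y1 → f ∈ R) (hT : Stp R T) {x y : ℤ} (h : (x, y) ∈ T) (hx : x0 ≤ x ∧ x < x1)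
    (hy : y0 ≤ y ∧ y < y1) : ∀ y', y0 ≤ y' → y' < y1 → (x, y') ∈ T := by
  have h1 : ∀ n : ℕ, y + n < y1 → (x, y + n) ∈ T := by
    intro n
    induction n with
    | zero => intro _; simpa using h
    | succ n ih =>
      intro hn
      push_cast at hn
      have h2 := hT (x, y + n) 2 (ih (by omega))
        (hR _ hx.1 hx.2 (by simp only; omega) (by simp only; omega))
        (hR _ hx.1 hx.2 (by rw [bh2]; simp only; omega) (by rw [bh2]; simp only; omega))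
      rw [bh2] at h2
      push_cast
      rw [← add_assoc]
      exact h2
  have h3 : ∀ n : ℕ, y0 ≤ y - n → (x, y - n) ∈ T := by
    intro n
    induction n with
    | zero => intro _; simpa using h
    | succ n ih =>
      intro hn
      push_cast at hn
      have h2 := hT (x, y - n) 0 (ih (by omega))
        (hR _ hx.1 hx.2 (by simp only; omega) (by simp only; omega))
        (hR _ hx.1 hx.2 (by rw [bh0]; simp only; omega) (by rw [bh0]; simp only; omega))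
      rw [bh0] at h2
      push_cast
      rw [← sub_sub]
      exact h2
  intro y' hy0 hy1
  rcases le_total y y' with hle | hle
  · have h4 := h1 (y' - y).toNat (by rw [Int.toNat_of_nonneg (by omega)]; omega)
    rw [Int.toNat_of_nonneg (by omega)] at h4
    rwa [show y + (y' - y) = y' by ring] at h4
  · have h4 := h3 (y - y').toNat (by rw [Int.toNat_of_nonneg (by omega)]; omega)
    rw [Int.toNat_of_nonneg (by omega)] at h4
    rwa [show y - (y - y') = y' by ring] at h4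

/-- a rectangle is connected -/
theorem rect {R T : Set (ℤ × ℤ)} {x0 x1 y0 y1 : ℤ} (hR : ∀ f : ℤ × ℤ, x0 ≤ f.1 → f.1 < x1 →
    y0 ≤ f.2 → f.2 < y1 → f ∈ R) (hT : Stp R T) {g g' : ℤ × ℤ} (h : g ∈ T) (hx : x0 ≤ g.1 ∧ g.1 < x1)
    (hy : y0 ≤ g.2 ∧ g.2 < y1) (hx' : x0 ≤ g'.1 ∧ g'.1 < x1) (hy' : y0 ≤ g'.2 ∧ g'.2 < y1) :
    g' ∈ T := by
  have h1 : (g'.1, g.2) ∈ T := rect_hor hR hT (x := g.1) (y := g.2) h hx hy g'.1 hx'.1 hx'.2
  exact rect_ver hR hT h1 hx' hy g'.2 hy'.1 hy'.2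

/-! ## Wedges -/

/-- the face of the quadrant `q` at the vertex -/
def cf (v : ℤ × ℤ) (q : ZMod 4) : ℤ × ℤ :=
  if q = 0 then v else if q = 1 then (v.1 - 1, v.2) else if q = 2 then (v.1 - 1, v.2 - 1)
    else (v.1, v.2 - 1)

theorem cf0 (v : ℤ × ℤ) : cf v 0 = v := rfl
theorem cf1 (v : ℤ × ℤ) : cf v 1 = (v.1 - 1, v.2) := rfl
theorem cf2 (v : ℤ × ℤ) : cf v 2 = (v.1 - 1, v.2 - 1) := rfl
theorem cf3 (v : ℤ × ℤ) : cf v 3 = (v.1, v.2 - 1) := rfl

theorem quad_cf (v : ℤ × ℤ) (q : ZMod 4) : quad v (cf v q) = q := by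
  rcases Tilt.k4 q with rfl | rfl | rfl | rfl
  · rw [cf0]
    unfold quad
    rw [if_pos le_rfl, if_pos le_rfl]
  · rw [cf1]
    unfold quad
    rw [if_neg (by simp), if_pos le_rfl]
  · rw [cf2]
    unfold quad
    rw [if_neg (by simp), if_neg (by simp)]
  · rw [cf3]
    unfold quad
    rw [if_pos le_rfl, if_neg (by simp)]

theorem bh_cf (v : ℤ × ℤ) (q : ZMod 4) : bh (cf v q) q = cf v (q - 1) := by
  rcases Tilt.k4 q with rfl | rfl | rfl | rfl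
  · rw [show (0 : ZMod 4) - 1 = 3 by decide, cf0, cf3, bh0]
  · rw [show (1 : ZMod 4) - 1 = 0 by decide, cf1, cf0, bh1]
    ext <;> simp
  · rw [show (2 : ZMod 4) - 1 = 1 by decide, cf2, cf1, bh2]
    ext <;> simp
  · rw [show (3 : ZMod 4) - 1 = 2 by decide, cf3, cf2, bh3]

theorem sd_cf (v : ℤ × ℤ) (q : ZMod 4) : sd ZQ (cf v q) q = eS q v := by
  unfold eS
  rcases Tilt.k4 q with rfl | rfl | rfl | rfl
  · rw [cf0, sd0, dz0]
    ext <;> simp
  · rw [cf1, sd1, dz1]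
    ext <;> simp
  · rw [cf2, sd2, dz2]
    ext <;> simp <;> ring
  · rw [cf3, sd3, dz3]
    ext <;> simp <;> ring

theorem cf_Bx {v : ℤ × ℤ} {R : ℕ} (hR : 0 < R) (q : ZMod 4) : cf v q ∈ Bx v R := by
  rw [mem_Bx]
  rcases Tilt.k4 q with rfl | rfl | rfl | rfl
  · rw [cf0]; omega
  · rw [cf1]; simp only; omega
  · rw [cf2]; simp only; omega
  · rw [cf3]; simp only; omega

/-- all faces of a quadrant are joined inside the quadrant -/
theorem quad_all {R : Set (ℤ × ℤ)} {T : Set (ℤ × ℤ)} {v : ℤ × ℤ} {ρ : ℕ} {q : ZMod 4}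
    (hR : ∀ f, f ∈ Bx v ρ → quad v f = q → f ∈ R) (hT : Stp R T) {g g' : ℤ × ℤ} (h : g ∈ T)
    (hg : g ∈ Bx v ρ) (hq : quad v g = q) (hg' : g' ∈ Bx v ρ) (hq' : quad v g' = q) : g' ∈ T := by
  rw [mem_Bx] at hg hg'
  have key : ∀ (x0 x1 y0 y1 : ℤ), (∀ f : ℤ × ℤ, x0 ≤ f.1 → f.1 < x1 → y0 ≤ f.2 → f.2 < y1 →
      f ∈ Bx v ρ ∧ quad v f = q) → x0 ≤ g.1 ∧ g.1 < x1 → y0 ≤ g.2 ∧ g.2 < y1 →
      x0 ≤ g'.1 ∧ g'.1 < x1 → y0 ≤ g'.2 ∧ g'.2 < y1 → g' ∈ T := by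
    intro x0 x1 y0 y1 hf a1 a2 a3 a4
    exact rect (fun f b1 b2 b3 b4 => hR f (hf f b1 b2 b3 b4).1 (hf f b1 b2 b3 b4).2) hT h a1 a2 a3 a4
  have hqq : ∀ f : ℤ × ℤ, quad v f = if v.1 ≤ f.1 then (if v.2 ≤ f.2 then 0 else 3)
      else (if v.2 ≤ f.2 then 1 else 2) := fun _ => rfl
  have e : quad v g = quad v g' := hq.trans hq'.symm
  by_cases c1 : v.1 ≤ g.1
  · by_cases c2 : v.2 ≤ g.2
    · rw [hqq, if_pos c1, if_pos c2] at hq
      subst hq
      have c3 : v.1 ≤ g'.1 ∧ v.2 ≤ g'.2 := by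
        rw [hqq] at hq'
        split_ifs at hq' with d1 d2 d2
        · exact ⟨d1, d2⟩
        · exact absurd hq' (by decide)
        · exact absurd hq' (by decide)
        · exact absurd hq' (by decide)
      refine key v.1 (v.1 + ρ) v.2 (v.2 + ρ) ?_ (by omega) (by omega) (by omega) (by omega)
      intro f b1 b2 b3 b4
      rw [mem_Bx, hqq, if_pos b1, if_pos b3]
      exact ⟨by omega, rfl⟩
    · rw [hqq, if_pos c1, if_neg c2] at hq
      subst hq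
      have c3 : v.1 ≤ g'.1 ∧ ¬ v.2 ≤ g'.2 := by
        rw [hqq] at hq'
        split_ifs at hq' with d1 d2 d2
        · exact absurd hq' (by decide)
        · exact ⟨d1, d2⟩
        · exact absurd hq' (by decide)
        · exact absurd hq' (by decide)
      refine key v.1 (v.1 + ρ) (v.2 - ρ) v.2 ?_ (by omega) (by omega) (by omega) (by omega)
      intro f b1 b2 b3 b4
      rw [mem_Bx, hqq, if_pos b1, if_neg (by omega)]
      exact ⟨by omega, rfl⟩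
  · by_cases c2 : v.2 ≤ g.2
    · rw [hqq, if_neg c1, if_pos c2] at hq
      subst hq
      have c3 : ¬ v.1 ≤ g'.1 ∧ v.2 ≤ g'.2 := by
        rw [hqq] at hq'
        split_ifs at hq' with d1 d2 d2
        · exact absurd hq' (by decide)
        · exact absurd hq' (by decide)
        · exact ⟨d1, d2⟩
        · exact absurd hq' (by decide)
      refine key (v.1 - ρ) v.1 v.2 (v.2 + ρ) ?_ (by omega) (by omega) (by omega) (by omega)
      intro f b1 b2 b3 b4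
      rw [mem_Bx, hqq, if_neg (by omega), if_pos b3]
      exact ⟨by omega, rfl⟩
    · rw [hqq, if_neg c1, if_neg c2] at hq
      subst hq
      have c3 : ¬ v.1 ≤ g'.1 ∧ ¬ v.2 ≤ g'.2 := by
        rw [hqq] at hq'
        split_ifs at hq' with d1 d2 d2
        · exact absurd hq' (by decide)
        · exact absurd hq' (by decide)
        · exact absurd hq' (by decide)
        · exact ⟨d1, d2⟩
      refine key (v.1 - ρ) v.1 (v.2 - ρ) v.2 ?_ (by omega) (by omega) (by omega) (by omega)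
      intro f b1 b2 b3 b4
      rw [mem_Bx, hqq, if_neg (by omega), if_neg (by omega)]
      exact ⟨by omega, rfl⟩

/-- a face of a wedge is joined inside the wedge to the face at the first wall side -/
theorem wdg_path {m : ℕ} {o : ZMod 4} {v : ℤ × ℤ} {ρ : ℕ} (hρ : 0 < ρ)
    {T : Set (ℤ × ℤ)} (hT : Stp (Wdg m o v ρ : Set (ℤ × ℤ)) T) {g : ℤ × ℤ} (h : g ∈ T)
    (hg : g ∈ Wdg m o v ρ) : cf v o ∈ T := by
  have key : ∀ j : ℕ, j < m → ∀ g : ℤ × ℤ, g ∈ T → g ∈ Bx v ρ → quad v g = o + j → cf v o ∈ T := by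
    intro j
    induction j with
    | zero =>
      intro hj g h hg hq
      rw [Nat.cast_zero, add_zero] at hq
      refine quad_all (q := o) (fun f hf hfq => ?_) hT h hg hq (cf_Bx hρ o) (quad_cf v o)
      exact Finset.mem_coe.mpr (WG.mem_Wdg.mpr ⟨hf, by rw [hfq, sub_self]; simpa using hj⟩)
    | succ j ih =>
      intro hj g h hg hq
      have hv : ∀ i : ℕ, i < m → ((o + (i : ZMod 4)) - o).val < m := by
        intro i hi
        rw [add_sub_cancel_left, ZMod.val_natCast]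
        exact lt_of_le_of_lt (Nat.mod_le _ _) hi
      have h1 : cf v (o + ((j + 1 : ℕ) : ZMod 4)) ∈ T := by
        refine quad_all (q := o + ((j + 1 : ℕ) : ZMod 4)) (fun f hf hfq => ?_) hT h hg hq
          (cf_Bx hρ _) (quad_cf v _)
        exact Finset.mem_coe.mpr (WG.mem_Wdg.mpr ⟨hf, by rw [hfq]; exact hv _ hj⟩)
      have h2 := hT _ (o + ((j + 1 : ℕ) : ZMod 4)) h1
        (Finset.mem_coe.mpr (WG.mem_Wdg.mpr ⟨cf_Bx hρ _, by rw [quad_cf]; exact hv _ hj⟩))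
      have e : o + ((j + 1 : ℕ) : ZMod 4) - 1 = o + (j : ZMod 4) := by
        push_cast
        ring
      rw [bh_cf, e] at h2
      have h3 := h2 (Finset.mem_coe.mpr (WG.mem_Wdg.mpr ⟨cf_Bx hρ _, by
        rw [quad_cf]; exact hv _ (by omega)⟩))
      exact ih (by omega) _ h3 (cf_Bx hρ _) (quad_cf v _)
  obtain ⟨h1, h2⟩ := WG.mem_Wdg.mp hg
  refine key (quad v g - o).val h2 g h h1 ?_
  rw [ZMod.natCast_zmod_val]
  ring

/-! ## A disc of the surface -/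

section disc

variable {V Φ : Type} [DecidableEq V] [DecidableEq Φ] {Q : QC V Φ} {F : Finset Φ}
  {L L₂ R R₁ : Finset (ℤ × ℤ)} {ν : ℤ × ℤ → V} {φ : ℤ × ℤ → Φ} {k : ZMod 4}
  {g g₀ ge : ℤ × ℤ}

theorem bh_add (g t : ℤ × ℤ) (k : ZMod 4) : bh (g + t) k = bh g k + t := by
  rcases Tilt.k4 k with rfl | rfl | rfl | rfl
  · rw [bh0, bh0]
    ext <;> simp <;> ring
  · rw [bh1, bh1]
    ext <;> simp <;> ring
  · rw [bh2, bh2]
    ext <;> simp <;> ring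
  · rw [bh3, bh3]
    ext <;> simp <;> ring

theorem disc_sd (H : QChart ZQ Q L₂ ν φ 0) (hg : g ∈ L₂) (k : ZMod 4) :
    sd Q (φ g) k = PC.mv ν (sd ZQ g k) := by
  have h1 := H.cor g hg k
  have h2 := H.cor g hg (k + 1)
  rw [add_zero] at h1 h2
  exact Prod.ext h1 h2

/-- the side of the next face of the disc -/
theorem disc_bh (H : QChart ZQ Q L₂ ν φ 0) (hg : g ∈ L₂) (hg' : bh g k ∈ L₂) :
    sd Q (φ (bh g k)) (k + 2) = (sd Q (φ g) k).swap := by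
  rw [disc_sd H hg', disc_sd H hg, sd_bh]
  rfl

/-- propagation of a common face -/
theorem step (H : QChart ZQ Q L₂ ν φ 0) (c : PChart Q F R) (hg : g ∈ R) (hg' : bh g k ∈ R)
    (h0 : g₀ ∈ L₂) (h0' : bh g₀ k ∈ L₂) (e : c.φF g = φ g₀) : c.φF (bh g k) = φ (bh g₀ k) := by
  have h1 : sd Q (c.φF (bh g k)) (k + 2) = sd Q (φ (bh g₀ k)) (k + 2) := by
    rw [disc_bh H h0 h0', ← e, c.sd_φF hg', sd_bh, c.sd_φF hg]
    rfl
  exact (sd_inj h1).1

/-- **No common face.** -/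
theorem off_reg (H : QChart ZQ Q L₂ ν φ 0) (hF : ∀ g ∈ L₂, φ g ∈ F) (c : PChart Q F R) (hR : R₁ ⊆ R)
    (hg : g ∈ R₁) (hge : ge ∈ R₁) (hp : ∀ T, Stp (R₁ : Set (ℤ × ℤ)) T → g ∈ T → ge ∈ T)
    (hL : ∀ f ∈ R₁, f + (g₀ - g) ∈ L₂) (hk : bh (ge + (g₀ - g)) k ∈ L₂)
    (hb : c.side (sd ZQ ge k) ∈ bS Q F) : c.φF g ≠ φ g₀ := by
  intro e
  have hT : Stp (R₁ : Set (ℤ × ℤ)) {f | f ∈ R₁ ∧ c.φF f = φ (f + (g₀ - g))} := by
    intro f l hf _ hf'
    have hf1 : f ∈ R₁ := hf.1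
    have hf2 : bh f l ∈ R₁ := Finset.mem_coe.mp hf'
    refine ⟨hf2, ?_⟩
    rw [← bh_add]
    exact step H c (hR hf1) (hR hf2) (hL f hf1) (by rw [bh_add]; exact hL _ hf2) hf.2
  have h1 := (hp _ hT ⟨hg, by rw [e]; congr 1; ring⟩).2
  have h2 := disc_bh H (hL ge hge) hk
  rw [← h1, c.sd_φF (hR hge)] at h2
  refine (mem_bS.mp hb).2 (φ (bh (ge + (g₀ - g)) k)) (Finset.mem_coe.mpr (hF _ hk)) (k + 2) ?_
  show c.side (sd ZQ ge k) = (sd Q (φ (bh (ge + (g₀ - g)) k)) (k + 2)).swap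
  rw [h2, Prod.swap_swap]

/-- the margin of the disc -/
def Mrg (L L₂ : Finset (ℤ × ℤ)) (d : ℕ) : Prop :=
  ∀ g ∈ L, ∀ u : ℤ × ℤ, |u.1| ≤ d → |u.2| ≤ d → g + u ∈ L₂

theorem Mrg.mono {d d' : ℕ} (h : Mrg L L₂ d) (hd : d' ≤ d) : Mrg L L₂ d' := fun g hg u h1 h2 =>
  h g hg u (h1.trans (by exact_mod_cast hd)) (h2.trans (by exact_mod_cast hd))

theorem bh_near (g : ℤ × ℤ) (k : ZMod 4) : |(bh g k).1 - g.1| ≤ 1 ∧ |(bh g k).2 - g.2| ≤ 1 := by
  rcases Tilt.k4 k with rfl | rfl | rfl | rfl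
  · rw [bh0]; simp
  · rw [bh1]; simp
  · rw [bh2]; simp
  · rw [bh3]; simp

/-- **Faces of wedges.** -/
theorem wdg (H : QChart ZQ Q L₂ ν φ 0) (hF : ∀ g ∈ L₂, φ g ∈ F) {m : ℕ} {o : ZMod 4} {v : ℤ × ℤ}
    {r ρ : ℕ} (c : WChart Q F m o v r) (hρ : ρ ≤ r) (hM : Mrg L L₂ (2 * ρ))
    (hg : g ∈ Wdg m o v ρ) (hg₀ : g₀ ∈ L) : c.φF g ≠ φ g₀ := by
  obtain ⟨hB, hq⟩ := WG.mem_Wdg.mp hg
  have hB' := mem_Bx.mp hB
  have hρ0 : 0 < ρ := by omega
  have hc : cf v o ∈ Wdg m o v ρ := WG.mem_Wdg.mpr ⟨cf_Bx hρ0 o, by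
    rw [quad_cf, sub_self, ZMod.val_zero]
    omega⟩
  have hnear : ∀ f ∈ Wdg m o v ρ, |f.1 - g.1| ≤ (2 * ρ : ℕ) - 1 ∧ |f.2 - g.2| ≤ (2 * ρ : ℕ) - 1 := by
    intro f hf
    have h1 := mem_Bx.mp (WG.mem_Wdg.mp hf).1
    rw [abs_le, abs_le]
    push_cast
    omega
  have hcn := hnear _ hc
  refine off_reg (R₁ := Wdg m o v ρ) (ge := cf v o) (k := o) H hF c.toPChart
    (fun f hf => WG.mem_Wdg.mpr ⟨Bx_mono hρ (WG.mem_Wdg.mp hf).1, (WG.mem_Wdg.mp hf).2⟩) hg hc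
    (fun T hT h => wdg_path hρ0 hT h hg) (fun f hf => ?_) ?_ ?_
  · have h1 := hnear f hf
    have h2 := hM g₀ hg₀ (f - g) (by rw [Prod.fst_sub]; omega) (by rw [Prod.snd_sub]; omega)
    rwa [show g₀ + (f - g) = f + (g₀ - g) by ring] at h2
  · obtain ⟨a1, a2⟩ := bh_near (cf v o) o
    obtain ⟨a3, a4⟩ := hcn
    rw [abs_le] at a1 a2 a3 a4
    have h2 := hM g₀ hg₀ (bh (cf v o) o - g)
      (by rw [Prod.fst_sub, abs_le]; omega) (by rw [Prod.snd_sub, abs_le]; omega)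
    rw [bh_add]
    rwa [show g₀ + (bh (cf v o) o - g) = bh (cf v o) o + (g₀ - g) by ring] at h2
  · rw [sd_cf]
    exact c.bOut _ (S3T.eS_mem (by omega))

/-- **Faces of mouths.** -/
theorem mth (H : QChart ZQ Q L₂ ν φ 0) (hF : ∀ g ∈ L₂, φ g ∈ F) {lf : Bool} {v : ℤ × ℤ}
    {r ρ h l l' : ℕ} (c : MChart Q F lf v r h l') (hρ : ρ ≤ r) (hh : 0 < h) (hhρ : h < ρ) (hl : l ≤ l')
    (hM : Mrg L L₂ (2 * ρ)) (hg : g ∈ Mth lf v ρ h l) (hg₀ : g₀ ∈ L) : c.φF g ≠ φ g₀ := by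
  have go : ∀ (x0 x1 y0 y1 : ℤ) (ge : ℤ × ℤ) (k : ZMod 4),
      (∀ f : ℤ × ℤ, x0 ≤ f.1 → f.1 < x1 → y0 ≤ f.2 → f.2 < y1 → f ∈ Mth lf v ρ h l) →
      x1 ≤ x0 + 2 * ρ → y1 ≤ y0 + 2 * ρ → x0 ≤ g.1 ∧ g.1 < x1 → y0 ≤ g.2 ∧ g.2 < y1 →
      x0 ≤ ge.1 ∧ ge.1 < x1 → y0 ≤ ge.2 ∧ ge.2 < y1 → c.side (sd ZQ ge k) ∈ bS Q F →
      c.φF g ≠ φ g₀ := by
    intro x0 x1 y0 y1 ge k hf hx hy a1 a2 a3 a4 hb
    have hR₁ : ∀ f : ℤ × ℤ, f ∈ Finset.Ico x0 x1 ×ˢ Finset.Ico y0 y1 ↔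
        (x0 ≤ f.1 ∧ f.1 < x1) ∧ y0 ≤ f.2 ∧ f.2 < y1 := fun f => by
      rw [Finset.mem_product, Finset.mem_Ico, Finset.mem_Ico]
    refine off_reg (R₁ := Finset.Ico x0 x1 ×ˢ Finset.Ico y0 y1) (ge := ge) (k := k) H hF c.toPChart
      (fun f hf' => ?_) ((hR₁ g).mpr ⟨a1, a2⟩) ((hR₁ ge).mpr ⟨a3, a4⟩) (fun T hT h => ?_)
      (fun f hf' => ?_) ?_ hb
    · obtain ⟨⟨b1, b2⟩, b3, b4⟩ := (hR₁ f).mp hf'
      exact Mth_mono hρ hl (hf f b1 b2 b3 b4)
    · exact rect (fun f b1 b2 b3 b4 => Finset.mem_coe.mpr ((hR₁ f).mpr ⟨⟨b1, b2⟩, b3, b4⟩)) hT h a1 a2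
        a3 a4
    · obtain ⟨⟨b1, b2⟩, b3, b4⟩ := (hR₁ f).mp hf'
      have h2 := hM g₀ hg₀ (f - g) (by rw [Prod.fst_sub, abs_le]; push_cast; omega)
        (by rw [Prod.snd_sub, abs_le]; push_cast; omega)
      rwa [show g₀ + (f - g) = f + (g₀ - g) by ring] at h2
    · obtain ⟨b1, b2⟩ := bh_near ge k
      rw [abs_le] at b1 b2
      have h2 := hM g₀ hg₀ (bh ge k - g) (by rw [Prod.fst_sub, abs_le]; push_cast; omega)
        (by rw [Prod.snd_sub, abs_le]; push_cast; omega)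
      rw [bh_add]
      rwa [show g₀ + (bh ge k - g) = bh ge k + (g₀ - g) by ring] at h2
  cases lf
  · have hM' : ∀ f : ℤ × ℤ, f ∈ Mth false v ρ h l ↔ ((v.1 ≤ f.1 ∧ f.1 < v.1 + ρ) ∧ v.2 - ρ ≤ f.2 ∧
        f.2 < v.2 + ρ) ∨ (v.1 - l ≤ f.1 ∧ f.1 < v.1) ∧ v.2 - h ≤ f.2 ∧ f.2 < v.2 + h := fun f => by
      unfold Mth
      rw [if_neg (by simp), Finset.mem_union, mem_Wdg2_3, Finset.mem_product, Finset.mem_Ico,
        Finset.mem_Ico]
    rcases (hM' g).mp hg with h1 | h1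
    · refine go v.1 (v.1 + ρ) (v.2 - ρ) (v.2 + ρ) (v.1, v.2 + ρ - 1) 3 (fun f b1 b2 b3 b4 =>
        (hM' f).mpr (Or.inl ⟨⟨b1, b2⟩, b3, b4⟩)) (by omega) (by omega) h1.1 h1.2 (by simp only; omega)
        (by simp only; omega) (c.bd 0 _ ?_)
      show sd ZQ (v.1, v.2 + ρ - 1) 3 ∈ wOut 3 (v.1, v.2 + r) (r - h)
      unfold wOut
      refine Finset.mem_image.mpr ⟨r - ρ, Finset.mem_range.mpr (by omega), ?_⟩
      rw [sd3, dz3, Nat.cast_sub hρ]
      ext <;> simp <;> ring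
    · refine go g.1 (g.1 + 1) (v.2 - h) (v.2 + h) (g.1, v.2 + h - 1) 2 (fun f b1 b2 b3 b4 =>
        (hM' f).mpr (Or.inr ⟨⟨by omega, by omega⟩, b3, b4⟩)) (by omega) (by omega) (by omega) h1.2
        (by simp only; omega) (by simp only; omega) (c.bd 1 _ ?_)
      show sd ZQ (g.1, v.2 + h - 1) 2 ∈ wOut 2 (v.1, v.2 + h) l'
      unfold wOut
      refine Finset.mem_image.mpr ⟨(v.1 - 1 - g.1).toNat, Finset.mem_range.mpr (by omega), ?_⟩
      rw [sd2, dz2, Int.toNat_of_nonneg (by omega)]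
      ext <;> simp <;> omega
  · have hM' : ∀ f : ℤ × ℤ, f ∈ Mth true v ρ h l ↔ ((v.1 - ρ ≤ f.1 ∧ f.1 < v.1) ∧ v.2 - ρ ≤ f.2 ∧
        f.2 < v.2 + ρ) ∨ (v.1 ≤ f.1 ∧ f.1 < v.1 + l) ∧ v.2 - h ≤ f.2 ∧ f.2 < v.2 + h := fun f => by
      unfold Mth
      rw [if_pos rfl, Finset.mem_union, mem_Wdg2_1, Finset.mem_product, Finset.mem_Ico,
        Finset.mem_Ico]
    rcases (hM' g).mp hg with h1 | h1
    · refine go (v.1 - ρ) v.1 (v.2 - ρ) (v.2 + ρ) (v.1 - 1, v.2 - ρ) 1 (fun f b1 b2 b3 b4 =>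
        (hM' f).mpr (Or.inl ⟨⟨b1, b2⟩, b3, b4⟩)) (by omega) (by omega) h1.1 h1.2 (by simp only; omega)
        (by simp only; omega) (c.bd 0 _ ?_)
      show sd ZQ (v.1 - 1, v.2 - ρ) 1 ∈ wOut 1 (v.1, v.2 - r) (r - h)
      unfold wOut
      refine Finset.mem_image.mpr ⟨r - ρ, Finset.mem_range.mpr (by omega), ?_⟩
      rw [sd1, dz1, Nat.cast_sub hρ]
      ext <;> simp <;> ring
    · refine go g.1 (g.1 + 1) (v.2 - h) (v.2 + h) (g.1, v.2 - h) 0 (fun f b1 b2 b3 b4 =>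
        (hM' f).mpr (Or.inr ⟨⟨by omega, by omega⟩, b3, b4⟩)) (by omega) (by omega) (by omega) h1.2
        (by simp only; omega) (by simp only; omega) (c.bd 1 _ ?_)
      show sd ZQ (g.1, v.2 - h) 0 ∈ wOut 0 (v.1, v.2 - h) l'
      unfold wOut
      refine Finset.mem_image.mpr ⟨(g.1 - v.1).toNat, Finset.mem_range.mpr (by omega), ?_⟩
      rw [sd0, dz0, Int.toNat_of_nonneg (by omega)]
      ext <;> simp <;> omega

/-- no common face, with a margin: no common side -/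
theorem side_off (H : QChart ZQ Q L₂ ν φ 0) (hM : Mrg L L₂ 1) {G : Finset Φ}
    (hG : ∀ g ∈ L₂, (∃ g' ∈ L, |g.1 - g'.1| ≤ 1 ∧ |g.2 - g'.2| ≤ 1) → φ g ∉ G) :
    ∀ e ∈ dE ZQ L, PC.mv ν e ∉ dE Q G := by
  have hL : ∀ g ∈ L, g ∈ L₂ := fun g hg => by
    have := hM g hg (0, 0) (by simp) (by simp)
    rwa [show g + (0, 0) = g by simp] at this
  have hbh : ∀ g ∈ L, ∀ k, bh g k ∈ L₂ := fun g hg k => by
    have h1 := bh_near g k
    have := hM g hg (bh g k - g) (by rw [Prod.fst_sub]; exact_mod_cast h1.1)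
      (by rw [Prod.snd_sub]; exact_mod_cast h1.2)
    rwa [show g + (bh g k - g) = bh g k by ring] at this
  have key : ∀ g ∈ L, ∀ k, sd Q (φ g) k ∉ dE Q G := by
    intro g hg k hc
    obtain ⟨f, hf, l, h | h⟩ := mem_dE.mp hc
    · refine hG g (hL g hg) ⟨g, hg, by simp⟩ ?_
      rw [(sd_inj h).1]
      exact hf
    · have h1 := disc_bh H (hL g hg) (hbh g hg k)
      rw [h, Prod.swap_swap] at h1
      refine hG (bh g k) (hbh g hg k) ⟨g, hg, bh_near g k⟩ ?_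
      rw [(sd_inj h1).1]
      exact hf
  intro e he hc
  obtain ⟨g, hg, k, rfl | rfl⟩ := mem_dE.mp he
  · rw [← disc_sd H (hL g hg)] at hc
    exact key g hg k hc
  · have h1 : PC.mv ν (sd ZQ g k).swap = (sd Q (φ g) k).swap := by
      rw [disc_sd H (hL g hg)]
      rfl
    rw [h1] at hc
    exact key g hg k (swap_mem_dE.mp hc)

/-- **Sides of wedges.** -/
theorem side_wdg (H : QChart ZQ Q L₂ ν φ 0) (hF : ∀ g ∈ L₂, φ g ∈ F) {m : ℕ} {o : ZMod 4} {v : ℤ × ℤ}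
    {r ρ : ℕ} (c : WChart Q F m o v r) (hρ : ρ ≤ r) (hM : Mrg L L₂ (2 * ρ + 1)) :
    ∀ e ∈ dE ZQ L, PC.mv ν e ∉ dE Q (c.box ρ) := by
  refine side_off H (hM.mono (by omega)) ?_
  rintro g₀ - ⟨g', hg', a1, a2⟩ hc
  unfold WChart.box at hc
  obtain ⟨g, hg, e⟩ := Finset.mem_image.mp hc
  refine wdg (L := {g₀}) H hF c hρ (fun x hx u h1 h2 => ?_) hg (Finset.mem_singleton.mpr rfl) e
  obtain rfl := Finset.mem_singleton.mp hx
  rw [abs_le] at *
  have h3 := hM g' hg' (x - g' + u) (by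
    rw [Prod.fst_add, Prod.fst_sub, abs_le]; push_cast at *; omega) (by
    rw [Prod.snd_add, Prod.snd_sub, abs_le]; push_cast at *; omega)
  rwa [show g' + (x - g' + u) = x + u by ring] at h3

/-- **Sides of mouths.** -/
theorem side_mth (H : QChart ZQ Q L₂ ν φ 0) (hF : ∀ g ∈ L₂, φ g ∈ F) {lf : Bool} {v : ℤ × ℤ}
    {r ρ h l l' : ℕ} (c : MChart Q F lf v r h l') (hρ : ρ ≤ r) (hh : 0 < h) (hhρ : h < ρ) (hl : l ≤ l')
    (hM : Mrg L L₂ (2 * ρ + 1)) :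
    ∀ e ∈ dE ZQ L, PC.mv ν e ∉ dE Q ((Mth lf v ρ h l).image c.φF) := by
  refine side_off H (hM.mono (by omega)) ?_
  rintro g₀ - ⟨g', hg', a1, a2⟩ hc
  obtain ⟨g, hg, e⟩ := Finset.mem_image.mp hc
  refine mth (L := {g₀}) H hF c hρ hh hhρ hl (fun x hx u h1 h2 => ?_) hg
    (Finset.mem_singleton.mpr rfl) e
  obtain rfl := Finset.mem_singleton.mp hx
  rw [abs_le] at *
  have h3 := hM g' hg' (x - g' + u) (by
    rw [Prod.fst_add, Prod.fst_sub, abs_le]; push_cast at *; omega) (by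
    rw [Prod.snd_add, Prod.snd_sub, abs_le]; push_cast at *; omega)
  rwa [show g' + (x - g' + u) = x + u by ring] at h3

/-! ## Atlases -/

variable {ψ : V × V → ℝ} {Z : Finset (V × V)} {r nS nN : ℕ} {t₀ : ℝ}

/-- **A planar disc of the surface with the margin `8 r + 1` is off the boxes of every atlas.** -/
theorem offA (A : Atlas Q F ψ Z r nS nN t₀) (H : QChart ZQ Q L₂ ν φ 0) (hF : ∀ g ∈ L₂, φ g ∈ F)
    (hM : Mrg L L₂ (8 * r + 1)) : OffA A ν L where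
  sp i := side_wdg H hF (A.ch i) (by omega) (hM.mono (by omega))
  nt i := side_wdg H hF (A.nch i) (by omega) (hM.mono (by omega))
  mt i := by
    obtain ⟨e1, e2, e3⟩ := A.h_lt i
    exact side_mth H hF (A.mch i) (by omega) e1 (by omega) (by omega) (hM.mono (by omega))

/-- faces of the disc -/
theorem off_box (A : Atlas Q F ψ Z r nS nN t₀) (H : QChart ZQ Q L₂ ν φ 0) (hF : ∀ g ∈ L₂, φ g ∈ F)
    {ρ : ℕ} (hρ : ρ ≤ 4 * r) (hM : Mrg L L₂ (8 * r)) (i : A.κ) {g : ℤ × ℤ} (hg : g ∈ L) :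
    φ g ∉ (A.ch i).box ρ := by
  intro hc
  unfold WChart.box at hc
  obtain ⟨f, hf, e⟩ := Finset.mem_image.mp hc
  exact wdg H hF (A.ch i) (by omega) (hM.mono (by omega)) hf hg e

/-- margins of boxes -/
theorem mrg_BR {z : ℤ × ℤ} {ρ d ρ' : ℕ} (h : ρ + d ≤ ρ') :
    Mrg (BR z (ρ : ℤ)) (BR z (ρ' : ℤ)) d := by
  intro g hg u h1 h2
  rw [abs_le] at h1 h2
  rw [mem_BR] at hg ⊢
  rw [Prod.fst_add, Prod.snd_add]
  push_cast at *
  omega

end disc

end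

end Pool.Agent.SixB.Off
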