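import Pool.Agent.Lib.SixB.S3OutF
import Pool.Agent.Lib.SixB.S3OutZ

/-!
# 6BD step 3, row R10: the atlas of the environment of a slab

* `outer_ok`: the outer atlas (`BlkW.outer`) has the properties `Outer`.
* `full_env`: the atlas of `S.env W 0 0` at the scale `r` with `64 r ≤ k` from a flat planar atlas of the polygon; the
  product over the special vertices and their boxes.
-/

set_option autoImplicit false
set_option linter.unusedSectionVars false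
set_option linter.unusedVariables false

namespace Pool.Agent.SixB.OutF

open Pool.Agent.Perc.Q Pool.Agent.Perc Pool.Agent.SixB
open Pool.Agent.SixB.MthD (Win em)

noncomputable section

theorem prod_tys_g {κ : Type} [Fintype κ] (K : κ → SK) (m : κ → ℕ) (g : SK → ℕ → ℝ) :
    ∏ i, g (K i) (m i) = ((St.tys K m).map fun p => g p.1 p.2).prod := by
  unfold St.tys
  rw [Multiset.map_map]
  rfl

variable {S : Slb} {W : Finset (ℤ × ℤ)} {r : ℕ}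

/-- the outer atlas -/
theorem outer_ok (h : S.Ok) (hW : BlkW.OWin S r W) (h1 : 2 * (S.a + 1) ≤ r) (h2 : 64 * r ≤ S.k) :
    ∃ A : PAtlas (S.env W 0 0).Q (S.env W 0 0).F (S.ph W 0 0) (S.env W 0 0).Z
        (BlkW.Cout (S.env W 0 0) r) r 28 (38 * BlkW.Ln (S.env W 0 0) r + 10) (1 / 9),
      Outer h (hW.win h) A ∧ (∀ i, ∀ x ∈ (A.ch i).box r, x ∈ BlkW.Spb (S.env W 0 0) r) ∧
      ∀ g : SK → ℕ → ℝ, ∏ i, g (A.K i) (A.m i) =
        ∏ i : Bool × Fin 14, g (.ver (BlkW.Jt S.mu S.ml i)) (BlkW.mt i) := by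
  have hK := BlkW.kap_of h hW h1 h2
  obtain ⟨A, a1, a2, a3, a4, a5⟩ := BlkW.outer h hW h1 h2
  refine ⟨A, ⟨fun i f hf => ?_, fun i f hf => ?_, fun i f hf => ?_, fun i f hf => ?_, fun a ha => ?_⟩,
    a2, a5⟩
  · exact BlkW.off_slab (hK.Spb_off (a1 i f hf))
  · obtain ⟨-, j, hj⟩ := a2 i f hf
    exact vt_N2 hK j hj
  · exact BlkW.off_slab (BlkW.Nb_off (a3 i f hf))
  · exact BlkW.off_slab (BlkW.Nb_off (a4 i f hf))
  · exact BlkW.Zsplit h hW h1 h2 ha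

variable {ZD CD : Finset ((ℤ × ℤ) × (ℤ × ℤ))} {nS nN : ℕ} {t₀ : ℝ}

attribute [local instance] Atlas.fκ

/-- **The atlas of the environment of a slab.** -/
theorem full_env (h : S.Ok) (hW : BlkW.OWin S r W) (h1 : 2 * (S.a + 1) ≤ r) (h2 : 64 * r ≤ S.k)
    (AD : PAtlas ZQ S.D S.ψ ZD CD r nS nN t₀) (hF : AD.Flat) (hCD : bS ZQ S.D ⊆ CD)
    (hc : ∀ i, ¬ nearS S.x1 S.x2 (S.yc - S.a) (S.yc + S.a) (8 * r) (AD.v i))
    (th : ∀ f ∈ S.D, S.yc - S.k ≤ f.2 → f.2 < S.yc + S.k →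
      ¬ (S.x1 - (8 * r + 2) ≤ f.1 ∧ f.1 < S.x1) ∧ ¬ (S.x2 ≤ f.1 ∧ f.1 < S.x2 + (8 * r + 2))) :
    ∃ B : Atlas (S.env W 0 0).Q (S.env W 0 0).F (S.ph W 0 0) (S.env W 0 0).Z r (28 + nS)
        (38 * BlkW.Ln (S.env W 0 0) r + 10 + 10 + nN) (min t₀ (1 / 9)),
      (∀ g : SK → ℕ → ℝ, ∏ i, g (B.K i) (B.m i) =
        (∏ i : Bool × Fin 14, g (.ver (BlkW.Jt S.mu S.ml i)) (BlkW.mt i)) *
          ∏ i, g (AD.K i) (AD.m i)) ∧
      (∀ i, (∀ x ∈ (B.ch i).box r, x ∈ BlkW.Spb (S.env W 0 0) r) ∨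
        ∃ j, ∀ ρ, (B.ch i).box ρ =
          (Wdg (AD.m j) (AD.o j) (AD.v j) ρ).image (em h (hW.win h)).φF) ∧
      ∃ A : PAtlas (S.env W 0 0).Q (S.env W 0 0).F (S.ph W 0 0) (S.env W 0 0).Z
        (BlkW.Cout (S.env W 0 0) r) r 28 (38 * BlkW.Ln (S.env W 0 0) r + 10) (1 / 9),
        Outer h (hW.win h) A ∧ St.vts B = St.pvts A + St.pvts AD ∧
        ∀ g : SK → ℕ → ℝ, ∏ i, g (A.K i) (A.m i) =
          ∏ i : Bool × Fin 14, g (.ver (BlkW.Jt S.mu S.ml i)) (BlkW.mt i) := by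
  obtain ⟨A, hA, a2, a5⟩ := outer_ok h hW h1 h2
  obtain ⟨B, b1, b2⟩ := full h (hW.win h) h1 h2 A hA AD hF hCD hc th
  refine ⟨B, fun g => ?_, fun i => ?_, A, hA, b1, a5⟩
  · rw [← a5 g, prod_tys_g, prod_tys_g, prod_tys_g, ← Multiset.prod_add, ← Multiset.map_add]
    have e : St.tys B.K B.m = St.tys A.K A.m + St.tys AD.K AD.m := b1
    rw [e]
  · rcases b2 i with ⟨j, hj⟩ | h3
    · exact Or.inl fun x hx => a2 j x (by rw [← hj]; exact hx)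
    · exact Or.inr h3

end

end Pool.Agent.SixB.OutF
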