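import Pool.Agent.Lib.SixB.S3PolyCt

/-!
# 6BD step 3, row R8: the atlas of a polygon

Polygon `D = rf n P`, contour `G` of period `N`, jumps `j`, phases `ψ` (`PhC`).
* `Spc P n N G j ψ S K r t₀`: `S` = positions (contour indices) of the special vertices, `K x` their kinds (`ver J`:
  jump `J` at `x`, a corner of any type or a flat vertex; `e`, `em`: flat vertices `x`, `x + 1` with jumps `-π/3`, `-π/3`
  resp. `π/3`, `π/3`); every corner and every jump is special, the special positions have contour distances `≥ 32 r`,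
  `16 r ≤ n`, `2 ≤ r`, chord-arc condition for the contour (`CAEqui.gr_chord`).
* `Spc.spec`, `Spc.natc`: chart of a special vertex (radius `4 r + 1`), of any contour vertex at contour distance
  `≥ 3 r` from the special ones (radius `2 r + 1`).
* `polyAtlas`: the atlas; charts are the identity, `κ = S`, `v x = G x`, `m x = mm G x`, `o x = dd G x`,
  no mouths, `nS = card S`, `nN = N / r + 1 + 2 card S`.
-/

set_option autoImplicit false

namespace Pool.Agent.SixB.PolyAtl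

open Pool.Agent.Perc.Q Pool.Agent.Perc

noncomputable section

/-- the marked kinds -/
def SK.mk' (K : SK) : Prop := K = .e ∨ K = .em

/-- special positions of a polygon -/
structure Spc (P : Finset (ℤ × ℤ)) (n N : ℕ) (G : ℤ → ℤ × ℤ) (j : ℤ → ℝ)
    (ψ : (ℤ × ℤ) × (ℤ × ℤ) → ℝ) (S : Finset ℤ) (K : ℤ → SK) (r : ℕ) (t₀ : ℝ) : Prop where
  hc : Cont (rf n P) N G
  hψ : ∀ k : ℤ, ψ (G k, G (k + 1)) - ψ (G (k - 1), G k) + (crs G k : ℝ) * (Real.pi / 12) = j k
  hch : ∀ a b T : ℤ, T < n → |(G b).1 - (G a).1| ≤ T → |(G b).2 - (G a).2| ≤ T →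
    ∃ q : ℤ, |b - a - q * N| ≤ 2 * T
  hr : 2 ≤ r
  hn : 16 * r ≤ n
  spec : ∀ k : ℤ, mm G k ≠ 2 ∨ j k ≠ 0 →
    ∃ x ∈ S, ∃ q : ℤ, k = x + q * N ∨ (SK.mk' (K x) ∧ k = x + 1 + q * N)
  sep : ∀ x ∈ S, ∀ y ∈ S, ∀ q : ℤ, x ≠ y ∨ q ≠ 0 → 32 * (r : ℤ) ≤ |x - y + q * N|
  ver : ∀ x ∈ S, ∀ J, K x = .ver J → j x = J ∧ (t₀ ≤ tJ J ∨ (J = -(Real.pi / 3) ∧ mm G x = 2))
  ke : ∀ x ∈ S, K x = .e → mm G x = 2 ∧ mm G (x + 1) = 2 ∧ j x = -(Real.pi / 3) ∧
    j (x + 1) = -(Real.pi / 3)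
  kem : ∀ x ∈ S, K x = .em → mm G x = 2 ∧ mm G (x + 1) = 2 ∧ j x = Real.pi / 3 ∧
    j (x + 1) = Real.pi / 3

variable {P : Finset (ℤ × ℤ)} {N n : ℕ} {G : ℤ → ℤ × ℤ} {j : ℤ → ℝ}
  {ψ : (ℤ × ℤ) × (ℤ × ℤ) → ℝ} {S : Finset ℤ} {K : ℤ → SK} {r : ℕ} {t₀ : ℝ}

namespace Spc

theorem n0 (h : Spc P n N G j ψ S K r t₀) : 0 < n := by
  have h1 := h.hr
  have h2 := h.hn
  omega

/-- near a special vertex there is no other one -/
theorem near (h : Spc P n N G j ψ S K r t₀) {x k : ℤ} (hx : x ∈ S) (h1 : x - (32 * r - 1 : ℤ) < k)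
    (h2 : k < x + (32 * r - 1 : ℤ)) (h3 : k ≠ x) (h4 : SK.mk' (K x) → k ≠ x + 1) :
    mm G k = 2 ∧ j k = 0 := by
  by_contra hh
  obtain ⟨y, hy, q, h5⟩ := h.spec k (by tauto)
  have hr := h.hr
  by_cases h6 : x ≠ y ∨ -q ≠ 0
  · have h7 := h.sep x hx y hy (-q) h6
    rw [le_abs] at h7
    rw [neg_mul] at h7
    rcases h5 with h5 | ⟨-, h5⟩ <;> omega
  · push Not at h6
    obtain ⟨rfl, h7⟩ := h6
    have h8 : q = 0 := by omega
    subst h8
    rw [zero_mul, add_zero, add_zero] at h5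
    rcases h5 with h5 | ⟨h6, h5⟩
    · exact h3 h5
    · exact h4 h6 h5

theorem stt (h : Spc P n N G j ψ S K r t₀) {x : ℤ} (hx : x ∈ S) {ρ : ℕ} (hρ : ρ ≤ 32 * r - 1) :
    Stt G x ρ := by
  intro i h1 h2 h3
  have hr := h.hr
  refine mm_two.1 ?_
  by_cases h4 : SK.mk' (K x) ∧ i = x + 1
  · obtain ⟨h5, rfl⟩ := h4
    rcases h5 with h5 | h5
    · exact (h.ke x hx h5).2.1
    · exact (h.kem x hx h5).2.1
  · exact (h.near hx (by omega) (by omega) h3 (fun h5 h6 => h4 ⟨h5, h6⟩)).1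

/-- **chart of a special vertex** -/
def sch (h : Spc P n N G j ψ S K r t₀) {x : ℤ} (hx : x ∈ S) :
    WChart ZQ (rf n P) (mm G x) (dd G x) (G x) (4 * r + 1) :=
  ctChart h.hc h.n0 x (4 * r + 1) (by have := h.hr; have := h.hn; omega)
    (h.stt hx (by have := h.hr; omega))

theorem sjump (h : Spc P n N G j ψ S K r t₀) {x : ℤ} (hx : x ∈ S) : SJump (h.sch hx) (K x) ψ := by
  have hr := h.hr
  have hn := h.hn
  rcases hK : K x with J | _ | _
  · have h1 := (h.ver x hx J hK).1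
    have h2 : (h.sch hx).Jump ψ (j x) := by
      refine ctJump h.hc h.n0 h.hψ x (4 * r + 1) _ _ (fun i h3 h4 h5 => ?_)
      refine (h.near hx (by push_cast at h3; omega) (by push_cast at h4; omega) h5 ?_).2
      rintro (h6 | h6) <;> rw [hK] at h6 <;> cases h6
    rw [h1] at h2
    exact h2
  · obtain ⟨h1, h2, h3, h4⟩ := h.ke x hx hK
    obtain ⟨h5, h6, h7⟩ := ct_mark h.hc h.n0 h.hψ x (4 * r + 1) (by omega) (by omega)
      (h.stt hx (by omega)) h1 h2 (fun i h8 h9 h10 h11 =>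
        (h.near hx (by push_cast at h8; omega) (by push_cast at h9; omega) h10 (fun _ => h11)).2)
    refine ⟨h1, ψ (G (x - 1), G x), h5, ?_, ?_⟩
    · refine h6.trans ?_
      rw [h3]
      ring
    · intro a ha
      refine (h7 a ha).trans ?_
      rw [h3, h4]
      ring
  · obtain ⟨h1, h2, h3, h4⟩ := h.kem x hx hK
    obtain ⟨h5, h6, h7⟩ := ct_mark h.hc h.n0 h.hψ x (4 * r + 1) (by omega) (by omega)
      (h.stt hx (by omega)) h1 h2 (fun i h8 h9 h10 h11 =>
        (h.near hx (by push_cast at h8; omega) (by push_cast at h9; omega) h10 (fun _ => h11)).2)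
    refine ⟨h1, ψ (G (x - 1), G x), h5, ?_, ?_⟩
    · refine h6.trans ?_
      rw [h3]
    · intro a ha
      refine (h7 a ha).trans ?_
      rw [h3, h4]
      ring

/-- contour distance at least `3 r` from every special vertex -/
def Far (N : ℕ) (S : Finset ℤ) (r : ℕ) (c : ℤ) : Prop :=
  ∀ x ∈ S, ∀ q : ℤ, 3 * (r : ℤ) ≤ |c - x + q * N|

theorem far (h : Spc P n N G j ψ S K r t₀) {c k : ℤ} (hc : Far N S r c)
    (h1 : c - (2 * r + 1 : ℤ) < k) (h2 : k < c + (2 * r + 1 : ℤ)) : mm G k = 2 ∧ j k = 0 := by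
  by_contra hh
  obtain ⟨y, hy, q, h5⟩ := h.spec k (by tauto)
  have hr := h.hr
  have h7 := hc y hy (-q)
  rw [le_abs, neg_mul] at h7
  rcases h5 with h5 | ⟨-, h5⟩ <;> omega

theorem fstt (h : Spc P n N G j ψ S K r t₀) {c : ℤ} (hc : Far N S r c) : Stt G c (2 * r + 1) :=
  fun i h1 h2 _ => mm_two.1 (h.far hc (by push_cast at h1; omega) (by push_cast at h2; omega)).1

/-- **chart of a natural vertex** -/
def natc (h : Spc P n N G j ψ S K r t₀) {c : ℤ} (hc : Far N S r c) :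
    WChart ZQ (rf n P) (mm G c) (dd G c) (G c) (2 * r + 1) :=
  ctChart h.hc h.n0 c (2 * r + 1) (by have := h.hr; have := h.hn; omega) (h.fstt hc)

theorem mm_far (h : Spc P n N G j ψ S K r t₀) {c : ℤ} (hc : Far N S r c) : mm G c = 2 :=
  (h.far hc (by have := h.hr; omega) (by have := h.hr; omega)).1

theorem njump (h : Spc P n N G j ψ S K r t₀) {c : ℤ} (hc : Far N S r c) :
    (h.natc hc).Jump ψ 0 := by
  have h1 := h.far hc (k := c) (by have := h.hr; omega) (by have := h.hr; omega)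
  have h2 := ctJump h.hc h.n0 h.hψ c (2 * r + 1) (by have := h.hr; have := h.hn; omega)
    (h.fstt hc) (fun i h3 h4 _ => (h.far hc (by push_cast at h3; omega)
      (by push_cast at h4; omega)).2)
  rw [h1.2] at h2
  exact h2

/-! ## Disjointness -/

theorem sdisj (h : Spc P n N G j ψ S K r t₀) {x y : ℤ} (hx : x ∈ S) (hy : y ∈ S) (hxy : x ≠ y) :
    Disjoint (Wdg (mm G x) (dd G x) (G x) (4 * r)) (Wdg (mm G y) (dd G y) (G y) (4 * r)) := by
  rw [Finset.disjoint_left]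
  intro f h1 h2
  rw [PolyAtl.mem_Wdg] at h1 h2
  have hr := h.hr
  have hn := h.hn
  obtain ⟨⟨a1, a2, a3, a4⟩, -⟩ := h1
  obtain ⟨⟨b1, b2, b3, b4⟩, -⟩ := h2
  push_cast at a1 a2 a3 a4 b1 b2 b3 b4
  obtain ⟨q, hq⟩ := h.hch y x (8 * r) (by omega) (by rw [abs_le]; omega) (by rw [abs_le]; omega)
  have h3 := h.sep x hx y hy (-q) (Or.inl hxy)
  rw [neg_mul, ← sub_eq_add_neg] at h3
  omega

theorem ndisj (h : Spc P n N G j ψ S K r t₀) {c x : ℤ} (hc : Far N S r c) (hx : x ∈ S) :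
    Disjoint (Wdg (mm G c) (dd G c) (G c) (2 * r)) (Wdg (mm G x) (dd G x) (G x) r) := by
  rw [Finset.disjoint_left]
  intro f h1 h2
  rw [PolyAtl.mem_Wdg] at h1 h2
  have hr := h.hr
  have hn := h.hn
  obtain ⟨⟨a1, a2, a3, a4⟩, -⟩ := h1
  obtain ⟨⟨b1, b2, b3, b4⟩, -⟩ := h2
  push_cast at a1 a2 a3 a4 b1 b2 b3 b4
  obtain ⟨q, hq⟩ := h.hch x c (3 * r) (by omega) (by rw [abs_le]; omega) (by rw [abs_le]; omega)
  have h3 := hc x hx (-q)
  rw [neg_mul, ← sub_eq_add_neg] at h3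
  have h4 := h.stt hx (ρ := 6 * r) (by omega)
  have h5 : G (c - q * N) = G c := by
    rw [sub_eq_add_neg, ← neg_mul]
    exact h.hc.per_mul _ _
  rw [abs_le] at hq
  rcases le_total 0 (c - x - q * N) with h6 | h6
  · obtain ⟨t, ht⟩ := Int.eq_ofNat_of_zero_le h6
    rw [ht, abs_of_nonneg (by omega)] at h3
    have h7 := arm_out h.hc h4 t (by omega)
    rw [show x + (t : ℤ) = c - q * N by omega, h5] at h7
    rw [h7] at a1 a2 a3 a4
    rcases c4 (dd G x) with e | e | e | e <;> rw [e] at a1 a2 a3 a4 <;>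
      first
      | (rw [dz0] at a1 a2 a3 a4; simp at a1 a2 a3 a4; omega)
      | (rw [dz1] at a1 a2 a3 a4; simp at a1 a2 a3 a4; omega)
      | (rw [dz2] at a1 a2 a3 a4; simp at a1 a2 a3 a4; omega)
      | (rw [dz3] at a1 a2 a3 a4; simp at a1 a2 a3 a4; omega)
  · obtain ⟨t, ht⟩ := Int.eq_ofNat_of_zero_le (by omega : 0 ≤ -(c - x - q * N))
    rw [abs_of_nonpos (by omega), ht] at h3
    have h7 := arm_in h.hc h4 t (by omega)
    rw [show x - (t : ℤ) = c - q * N by omega, h5] at h7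
    rw [h7] at a1 a2 a3 a4
    rcases c4 (dd G (x - 1)) with e | e | e | e <;> rw [e] at a1 a2 a3 a4 <;>
      first
      | (rw [dz0] at a1 a2 a3 a4; simp at a1 a2 a3 a4; omega)
      | (rw [dz1] at a1 a2 a3 a4; simp at a1 a2 a3 a4; omega)
      | (rw [dz2] at a1 a2 a3 a4; simp at a1 a2 a3 a4; omega)
      | (rw [dz3] at a1 a2 a3 a4; simp at a1 a2 a3 a4; omega)

/-! ## Centres of the natural charts -/

instance farDec (N : ℕ) (S : Finset ℤ) (r : ℕ) : DecidablePred (Far N S r) :=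
  fun _ => Classical.propDecidable _

/-- centres of the natural charts -/
def cen (N : ℕ) (S : Finset ℤ) (r : ℕ) : Finset ℤ :=
  ((Finset.range (N / r + 1)).image (fun t : ℕ => (t : ℤ) * r)).filter (Far N S r) ∪
    (S.image (fun x => x + 3 * r) ∪ S.image fun x => x - 3 * r)

theorem far_near (h : Spc P n N G j ψ S K r t₀) {x : ℤ} (hx : x ∈ S) {s : ℤ} (hs : |s| = 3 * r) :
    Far N S r (x + s) := by
  intro y hy q
  have hr := h.hr
  by_cases h1 : x ≠ y ∨ q ≠ 0
  · have h2 := h.sep x hx y hy q h1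
    rw [le_abs] at h2 ⊢
    have h3 := neg_abs_le s
    have h4 := le_abs_self s
    rw [hs] at h3 h4
    omega
  · push Not at h1
    obtain ⟨rfl, rfl⟩ := h1
    rw [zero_mul, add_zero, add_sub_cancel_left, hs]

theorem cen_far (h : Spc P n N G j ψ S K r t₀) {c : ℤ} (hc : c ∈ cen N S r) : Far N S r c := by
  unfold cen at hc
  rw [Finset.mem_union, Finset.mem_union] at hc
  rcases hc with hc | hc | hc
  · exact (Finset.mem_filter.1 hc).2
  · obtain ⟨x, hx, rfl⟩ := Finset.mem_image.1 hc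
    exact h.far_near hx (by rw [abs_of_nonneg (by positivity)])
  · obtain ⟨x, hx, rfl⟩ := Finset.mem_image.1 hc
    rw [sub_eq_add_neg]
    exact h.far_near hx (by rw [abs_neg, abs_of_nonneg (by positivity)])

theorem cen_card (N : ℕ) (S : Finset ℤ) (r : ℕ) : (cen N S r).card ≤ N / r + 1 + 2 * S.card := by
  unfold cen
  refine (Finset.card_union_le _ _).trans ?_
  have h1 : ((Finset.range (N / r + 1)).image (fun t : ℕ => (t : ℤ) * r)).card ≤ N / r + 1 := by
    refine Finset.card_image_le.trans ?_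
    rw [Finset.card_range]
  have h2 := Finset.card_union_le (S.image (fun x : ℤ => x + 3 * (r : ℤ)))
    (S.image fun x => x - 3 * (r : ℤ))
  have h3 : (S.image (fun x : ℤ => x + 3 * (r : ℤ))).card ≤ S.card := Finset.card_image_le
  have h4 : (S.image (fun x : ℤ => x - 3 * (r : ℤ))).card ≤ S.card := Finset.card_image_le
  have h5 := (Finset.card_filter_le ((Finset.range (N / r + 1)).image (fun t : ℕ => (t : ℤ) * r))
    (Far N S r)).trans h1
  omega

/-- every contour side is covered -/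
theorem cover_gen {N : ℕ} (hN' : 0 < N) {r : ℕ} (hr : 0 < r) (S : Finset ℤ) (k : ℤ) :
    (∃ x ∈ S, ∃ q : ℤ, x - 2 * r ≤ k + q * N ∧ k + q * N < x + 2 * r) ∨
      ∃ c ∈ cen N S r, ∃ q : ℤ, c - r ≤ k + q * N ∧ k + q * N < c + r := by
  have hN : (0 : ℤ) < N := by exact_mod_cast hN'
  by_cases h1 : ∃ x ∈ S, ∃ q : ℤ, x - 4 * r ≤ k + q * N ∧ k + q * N < x + 4 * r
  · obtain ⟨x, hx, q, h2, h3⟩ := h1
    by_cases h4 : x - 2 * r ≤ k + q * N ∧ k + q * N < x + 2 * r
    · exact Or.inl ⟨x, hx, q, h4⟩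
    · right
      rcases lt_or_ge (k + q * N) (x - 2 * r) with h5 | h5
      · refine ⟨x - 3 * r, ?_, q, by omega, by omega⟩
        unfold cen
        refine Finset.mem_union_right _ (Finset.mem_union_right _ (Finset.mem_image_of_mem _ hx))
      · refine ⟨x + 3 * r, ?_, q, by omega, by omega⟩
        unfold cen
        refine Finset.mem_union_right _ (Finset.mem_union_left _ (Finset.mem_image_of_mem
          (fun x : ℤ => x + 3 * (r : ℤ)) hx))
  · push Not at h1
    right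
    obtain ⟨k', hk'⟩ : ∃ k', k' = k % N := ⟨_, rfl⟩
    have h2 := Int.emod_nonneg k hN.ne'
    have h3 := Int.emod_lt_of_pos k hN
    have h4 := Int.mul_ediv_add_emod k N
    rw [← hk'] at h2 h3 h4
    have h5 : k + -(k / N) * N = k' := by linarith
    have hr0 : (0 : ℤ) < r := by omega
    have h6 := Int.mul_ediv_add_emod k' r
    have h7 := Int.emod_nonneg k' hr0.ne'
    have h8 := Int.emod_lt_of_pos k' hr0
    have h9 : 0 ≤ k' / (r : ℤ) := Int.ediv_nonneg h2 hr0.le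
    refine ⟨r * (k' / r), ?_, -(k / N), by rw [h5]; omega, by rw [h5]; omega⟩
    unfold cen
    refine Finset.mem_union_left _ (Finset.mem_filter.2 ⟨?_, ?_⟩)
    · rw [Finset.mem_image]
      obtain ⟨t, ht⟩ := Int.eq_ofNat_of_zero_le h9
      refine ⟨t, ?_, by rw [ht]; ring⟩
      rw [Finset.mem_range, Nat.lt_succ_iff, Nat.le_div_iff_mul_le (by omega)]
      rw [ht] at h6
      have h10 : (r : ℤ) * t < N := by linarith
      have h11 : ((t * r : ℕ) : ℤ) < N := by push_cast; rw [mul_comm]; exact h10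
      omega
    · intro x hx q
      by_contra hh
      push Not at hh
      rw [abs_lt] at hh
      obtain ⟨h10, h11⟩ := hh
      have h12 : (q - k / N) * (N : ℤ) = q * N - k / N * N := by ring
      have h13 : k / N * N = k - k' := by linarith
      exact absurd (h1 x hx (q - k / N) (by rw [h12]; omega)) (by rw [h12]; omega)

theorem cover (h : Spc P n N G j ψ S K r t₀) (k : ℤ) :
    (∃ x ∈ S, ∃ q : ℤ, x - 2 * r ≤ k + q * N ∧ k + q * N < x + 2 * r) ∨
      ∃ c ∈ cen N S r, ∃ q : ℤ, c - r ≤ k + q * N ∧ k + q * N < c + r :=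
  cover_gen h.hc.pos (by have := h.hr; omega) S k

end Spc

open Spc

/-- **the atlas of a polygon** -/
def polyAtlas (h : Spc P n N G j ψ S K r t₀) {nS nN : ℕ} (h1 : S.card ≤ nS)
    (h2 : N / r + 1 + 2 * S.card ≤ nN) :
    Atlas ZQ (rf n P) ψ (bS ZQ (rf n P)) r nS nN t₀ where
  Z_sub := subset_rfl
  κ := {x // x ∈ S}
  K := fun x => K x
  m := fun x => mm G x
  o := fun x => dd G x
  v := fun x => G x
  ch := fun x => h.sch x.2
  m_rng := fun x => mm_rng h.hc x
  jmp := fun x => h.sjump x.2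
  tpos := fun x J hJ => (h.ver x x.2 J hJ).2
  disj := fun x y hxy => by
    rw [Spc.sch, Spc.sch, ct_box, ct_box]
    exact h.sdisj x.2 y.2 (fun h3 => hxy (Subtype.ext h3))
  cardS := by rw [Fintype.card_coe]; exact h1
  chZ := fun x => (h.sch x.2).walls_bS (by omega)
  ι := {c // c ∈ cen N S r}
  m' := fun c => mm G c
  o' := fun c => dd G c
  v' := fun c => G c
  nch := fun c => h.natc (h.cen_far c.2)
  m'_rng := fun c => mm_rng h.hc c
  njmp := fun c => Or.inl (h.njump (h.cen_far c.2))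
  nZ := fun c => (h.natc (h.cen_far c.2)).walls_bS (by omega)
  ndisj := fun c x => by
    rw [Spc.sch, Spc.natc, ct_box, ct_box]
    exact h.ndisj (h.cen_far c.2) x.2
  cardN := by rw [Fintype.card_coe]; exact (cen_card N S r).trans h2
  μ := Empty
  lf := fun i => i.elim
  w := fun i => i.elim
  h := fun i => i.elim
  l := fun i => i.elim
  mch := fun i => i.elim
  h_lt := fun i => i.elim
  mnat := fun i => i.elim
  mZ := fun i => i.elim
  mdisj := fun i => i.elim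
  cardM := by simp
  cover := by
    rintro ⟨p, q⟩ ha
    rw [bS_iff_lside] at ha
    obtain ⟨k, hk, hk'⟩ := h.hc.all _ _ ha
    have hk1 : (p, q) = (G k, G (k + 1)) := by rw [hk, hk']
    have hp : ∀ s : ℤ, (G (k + s * N), G (k + s * N + 1)) = (p, q) := by
      intro s
      rw [hk1, show k + s * N + 1 = k + 1 + s * N by ring, h.hc.per_mul, h.hc.per_mul]
    rcases h.cover k with ⟨x, hx, s, h3, h4⟩ | ⟨c, hc, s, h3, h4⟩
    · refine Or.inl ⟨⟨x, hx⟩, ?_⟩
      rw [Spc.sch, ct_walls _ _ _ _ _ _ _ (by omega)]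
      exact ⟨k + s * N, by push_cast; linarith, by push_cast; linarith, (hp s).symm⟩
    · refine Or.inr (Or.inl ⟨⟨c, hc⟩, ?_⟩)
      rw [Spc.natc, ct_walls _ _ _ _ _ _ _ (by omega)]
      exact ⟨k + s * N, by linarith, by linarith, (hp s).symm⟩

end

end Pool.Agent.SixB.PolyAtl
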