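import Pool.Agent.Lib.SixB.S3HTubB
import Pool.Agent.Lib.SixB.S3HSpl

/-!
# 6BD step 3.8 (R18): the cut of the environment of a slab

`S : Slb`, `E = S.env W 0 0`, `W` a rectangle which contains the blocks (`WinR`), `q = S.q`.
* `cut2`: `Spl.Cut2 E.Q E.F (S.G (2q)) (S.G q) (E.F \ S.G (3q)) E.Z S.phE (S.phG (2q)) (S.phO (2q))`.
* `cutW`: `Spl.CutW` of the same if `S.bd 0 ω = 0` and `S.bd 1 ω = 0`.
-/

set_option autoImplicit false
set_option linter.unusedSectionVars false

namespace Pool.Agent.SixB.Tub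

open Pool.Agent.SixB Pool.Agent.SixB.Gd Pool.Agent.SixB.Pos Pool.Agent.Perc Pool.Agent.Perc.Q Relation

noncomputable section

variable {E : SEnv} {g : BGeo} {ω : FF → Bool} {S : Slb} {W : Finset (ℤ × ℤ)}

/-- the window is a rectangle which contains the blocks -/
structure WinR (S : Slb) (W : Finset (ℤ × ℤ)) : Prop where
  sub : Win S W
  rect : ∃ X₀ X₁ Y₀ Y₁ : ℤ, W = RF X₀ X₁ Y₀ Y₁

theorem thk (hS : S.Ok) : EnvB.Thk (S.env W 0 0) := by
  have h1 := hS.ha
  have h2 := hS.hak
  refine ⟨?_, ?_⟩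
  · show S.a < 3 * S.k + (S.x2 - S.x1).toNat
    omega
  · show S.a < 3 * S.k + (S.x2 - S.x1).toNat
    omega

/-- a boundary side of `E.F` on a subset is the positive side of a face of the subset -/
theorem pos_side {V Φ : Type} [DecidableEq V] [DecidableEq Φ] {Q : QC V Φ} {F G : Finset Φ} {a : V × V}
    (ha : a ∈ bS Q F) (hG : G ⊆ F) (h : a ∈ dE Q G) : ∃ f ∈ G, ∃ k, a = sd Q f k := by
  obtain ⟨f, hf, k, h1 | h1⟩ := mem_dE.mp h
  · exact ⟨f, hf, k, h1⟩
  · exact absurd h1 ((mem_bS.mp ha).2 f (by exact_mod_cast hG hf) k)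

/-- the sides of the pocket faces with both ends in the base sheet are glued -/
theorem pk_none (hS : S.Ok) (hW : Win S W) {i : Bool} {f : ℤ × ℤ} {k : ZMod 4}
    (h1 : ((S.env W 0 0).Q.c (some i, f) k).1 = none)
    (h2 : ((S.env W 0 0).Q.c (some i, f) (k + 1)).1 = none) :
    (k = 0 ∨ k = 2) ∧ sd (S.env W 0 0).Q (some i, f) k ∉ bS (S.env W 0 0).Q (S.env W 0 0).F := by
  have H := pe hS hW
  have hT : EnvB.Thk (S.env W 0 0) := thk hS
  have ha0 := hS.ha
  have hak := hS.hak
  have hx := hS.hx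
  have e1 : (S.env W 0 0).gu = S.geo 0 := rfl
  have e2 : (S.env W 0 0).gd = S.geo 0 := rfl
  rw [EnvB.cor_pk] at h1 h2
  have a1 : (EnvB.mu (S.env W 0 0) i).adj f k := by
    by_contra hc
    rw [if_neg hc] at h1
    exact absurd h1 (by simp)
  have a2 : (EnvB.mu (S.env W 0 0) i).adj f (k + 1) := by
    by_contra hc
    rw [if_neg hc] at h2
    exact absurd h2 (by simp)
  cases i
  · rw [EnvB.adj_lo] at a1 a2
    have hk : k = 2 := by
      rcases a1.2.2 with h | h
      · exact h
      · rcases a2.2.2 with h3 | h3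
        · rw [h] at h3
          exact absurd h3 (by decide)
        · rw [h] at h3
          exact absurd h3 (by decide)
    subst hk
    refine ⟨Or.inr rfl, fun hb => ?_⟩
    -- the face above
    have hf : (f.1, f.2 + 1) ∈ (S.env W 0 0).base := by
      refine base_of_mem (G_sub hS hW (c := 0) (by omega) (strip_mem ?_ ?_ ?_ ?_))
      · have := a1.1.1
        rw [e2, geo_x1] at this
        push_cast
        omega
      · have := a1.1.2
        rw [e2, geo_x2] at this
        push_cast
        omega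
      · have := a1.2.1
        rw [e2] at this
        have h5 : (S.geo 0).yc = S.yc := rfl
        have h6 : (S.geo 0).a = S.a := rfl
        rw [h5, h6] at this
        omega
      · have := a1.2.1
        rw [e2] at this
        have h5 : (S.geo 0).yc = S.yc := rfl
        have h6 : (S.geo 0).a = S.a := rfl
        rw [h5, h6] at this
        omega
    have hsw : (sd (S.env W 0 0).Q (none, (f.1, f.2 + 1)) 0).swap = sd (S.env W 0 0).Q (some false, f) 2 := by
      rw [EnvB.swap_base hT hf]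
      refine ⟨?_, by decide, Or.inr (Or.inr ⟨rfl, rfl, a1.1, a1.2.1⟩)⟩
      rw [EnvB.nb0]
      simp
    refine (mem_bS.mp hb).2 (none, (f.1, f.2 + 1)) ?_ 0 ?_
    · exact_mod_cast EnvB.mem_F_none.mpr hf
    · rw [← hsw]
      rfl
  · rw [EnvB.adj_up] at a1 a2
    have hk : k = 0 := by
      rcases a1.2.2 with h | h
      · exact h
      · rcases a2.2.2 with h3 | h3
        · rw [h] at h3
          exact absurd h3 (by decide)
        · rw [h] at h3
          exact absurd h3 (by decide)
    subst hk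
    refine ⟨Or.inl rfl, fun hb => ?_⟩
    have hf : (f.1, f.2 - 1) ∈ (S.env W 0 0).base := by
      refine base_of_mem (G_sub hS hW (c := 0) (by omega) (strip_mem ?_ ?_ ?_ ?_))
      · have := a1.1.1
        rw [e1, geo_x1] at this
        push_cast
        omega
      · have := a1.1.2
        rw [e1, geo_x2] at this
        push_cast
        omega
      · have := a1.2.1
        rw [e1] at this
        have h5 : (S.geo 0).yc = S.yc := rfl
        have h6 : (S.geo 0).a = S.a := rfl
        rw [h5, h6] at this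
        omega
      · have := a1.2.1
        rw [e1] at this
        have h5 : (S.geo 0).yc = S.yc := rfl
        have h6 : (S.geo 0).a = S.a := rfl
        rw [h5, h6] at this
        omega
    have hsw : (sd (S.env W 0 0).Q (none, (f.1, f.2 - 1)) 2).swap = sd (S.env W 0 0).Q (some true, f) 0 := by
      rw [EnvB.swap_base hT hf]
      refine ⟨?_, by decide, Or.inr (Or.inl ⟨rfl, rfl, a1.1, ?_⟩)⟩
      · rw [EnvB.nb2]
        simp
      · show f.2 - 1 + 1 = _
        rw [sub_add_cancel]
        exact a1.2.1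
    refine (mem_bS.mp hb).2 (none, (f.1, f.2 - 1)) ?_ 2 ?_
    · exact_mod_cast EnvB.mem_F_none.mpr hf
    · rw [← hsw]
      rfl

/-- **The boundary sides of the environment on the slab, the pockets and the first tubes are island sides.** -/
theorem mem_Z_G (hS : S.Ok) (hW : Win S W) {c : ℕ} (hc : c < S.k) {f : FF} (hf : f ∈ S.G c) {k : ZMod 4}
    (hb : sd (S.env W 0 0).Q f k ∈ bS (S.env W 0 0).Q (S.env W 0 0).F) :
    sd (S.env W 0 0).Q f k ∈ (S.env W 0 0).Z := by
  have H := pe hS hW
  have hT : EnvB.Thk (S.env W 0 0) := thk hS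
  have ha0 := hS.ha
  have hak := hS.hak
  have hx := hS.hx
  obtain ⟨σ, f⟩ := f
  have hfF := G_sub hS hW hc hf
  cases σ with
  | none =>
    have hfb := base_of_mem hfF
    rcases Slb.mem_G.mp hf with ⟨-, h1⟩ | ⟨h1, -⟩ | ⟨h1, -⟩
    · rw [Slb.mem_strip] at h1
      simp only at h1
      obtain ⟨b1, b2, b3⟩ := (EnvB.base_bS hT (Finset.Subset.refl _) hfF k).mp hb
      rw [EnvB.base_Z hT hfb]
      refine ⟨?_, fun h => b2 ⟨h.1, EnvB.mem_F_up.mpr h.2⟩, fun h => b3 ⟨h.1, EnvB.mem_F_lo.mpr h.2⟩⟩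
      rw [EnvB.mem_F_none, EnvB.mem_base] at b1
      have hnW : EnvB.nb f k ∈ (S.env W 0 0).W := by
        refine hW (mem_RF.mpr ?_)
        have g1 : (S.geo 0).x1 = S.x1 := geo_x1
        have g2 : (S.geo 0).x2 = S.x2 := geo_x2
        have g3 : (S.geo 0).k = S.k := rfl
        have g4 : (S.geo 0).yc = S.yc := rfl
        have g5 : (S.geo 0).c = 3 * S.k + (S.x2 - S.x1).toNat := rfl
        rw [g1, g2, g3, g4, g5]
        rcases EnvB.k4 k with rfl | rfl | rfl | rfl
        · rw [EnvB.nb0]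
          simp only
          push_cast
          omega
        · rw [EnvB.nb1]
          simp only
          push_cast
          omega
        · rw [EnvB.nb2]
          simp only
          push_cast
          omega
        · rw [EnvB.nb3]
          simp only
          push_cast
          omega
      by_contra hcon
      rw [not_or] at hcon
      exact b1 ⟨hnW, hcon.1, hcon.2⟩
    · exact absurd h1 (by simp)
    · exact absurd h1 (by simp)
  | some i =>
    rw [EnvB.mem_Z]
    refine ⟨hb, ?_⟩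
    by_cases h1 : ((S.env W 0 0).Q.c (some i, f) k).1 = none
    · by_cases h2 : ((S.env W 0 0).Q.c (some i, f) (k + 1)).1 = none
      · exact absurd hb (pk_none hS hW h1 h2).2
      · exact Or.inr (Or.inl h2)
    · exact Or.inl h1

/-! ## Phases on the common boundary sides -/

/-- a vertical side of the base sheet as a positive side of a base face -/
theorem side_base (hS : S.Ok) {f : ℤ × ℤ} (hf : f ∈ (S.env W 0 0).base) (k : ZMod 4) :
    sd (S.env W 0 0).Q (none, f) k = ((none, ZQ.c f k), (none, ZQ.c f (k + 1))) :=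
  EnvB.sd_base (thk hS) hf k

/-- the boundary sides of `E.F` on the inner part do not meet the closing sides -/
theorem ps1 (hS : S.Ok) (hW : Win S W) {c : ℕ} (hc : c + 1 < S.k) {f : FF} (hf : f ∈ S.G c) {k : ZMod 4}
    (hb : sd (S.env W 0 0).Q f k ∈ bS (S.env W 0 0).Q (S.env W 0 0).F) :
    S.phG c (sd (S.env W 0 0).Q f k) = S.phE (sd (S.env W 0 0).Q f k) := by
  have hT : EnvB.Thk (S.env W 0 0) := thk hS
  have ha0 := hS.ha
  have hak := hS.hak
  have hx := hS.hx
  obtain ⟨σ, f⟩ := f
  have hfF := G_sub hS hW (by omega : c < S.k) hf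
  cases σ with
  | none =>
    have hfb := base_of_mem hfF
    rcases Slb.mem_G.mp hf with ⟨-, h1⟩ | ⟨h1, -⟩ | ⟨h1, -⟩
    · rw [Slb.mem_strip] at h1
      simp only at h1
      have b1 := ((EnvB.base_bS hT (Finset.Subset.refl _) hfF k).mp hb).1
      rw [side_base hS hfb]
      unfold Slb.phG
      rw [if_neg, if_neg]
      · rintro ⟨-, -, h2, h3⟩
        rcases EnvB.k4 k with rfl | rfl | rfl | rfl
        · have h4 : ((f.1 + 1, f.2) : ℤ × ℤ) = (S.x1 - c, f.2 - 1) := h3
          have := (Prod.mk.inj h4).2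
          omega
        · have h4 : ((f.1 + 1, f.2 + 1) : ℤ × ℤ) = (S.x1 - c, f.2 - 1) := h3
          have := (Prod.mk.inj h4).2
          omega
        · have h4 : f.1 + 1 = S.x1 - c := h2
          have h5 : ((f.1, f.2 + 1) : ℤ × ℤ) = (S.x1 - c, f.2 + 1 - 1) := h3
          have := (Prod.mk.inj h5).1
          omega
        · have h4 : f.1 = S.x1 - c := h2
          refine b1 (G_sub hS hW (c := c + 1) hc ?_)
          rw [EnvB.nb3]
          exact strip_mem (by push_cast; omega) (by push_cast; omega) h1.2.2.1 h1.2.2.2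
      · rintro ⟨-, -, h2, h3⟩
        rcases EnvB.k4 k with rfl | rfl | rfl | rfl
        · have h4 : ((f.1 + 1, f.2) : ℤ × ℤ) = (S.x2 + c, f.2 + 1) := h3
          have := (Prod.mk.inj h4).2
          omega
        · have h4 : f.1 + 1 = S.x2 + c := h2
          refine b1 (G_sub hS hW (c := c + 1) hc ?_)
          rw [EnvB.nb1]
          exact strip_mem (by push_cast; omega) (by push_cast; omega) h1.2.2.1 h1.2.2.2
        · have h4 : f.1 + 1 = S.x2 + c := h2
          have h5 : ((f.1, f.2 + 1) : ℤ × ℤ) = (S.x2 + c, f.2 + 1 + 1) := h3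
          have := (Prod.mk.inj h5).1
          omega
        · have h5 : ((f.1, f.2) : ℤ × ℤ) = (S.x2 + c, f.2 + 1 + 1) := h3
          have := (Prod.mk.inj h5).2
          omega
    · exact absurd h1 (by simp)
    · exact absurd h1 (by simp)
  | some i =>
    have key : ¬ (((S.env W 0 0).Q.c (some i, f) k).1 = none ∧
        ((S.env W 0 0).Q.c (some i, f) (k + 1)).1 = none) := fun h => (pk_none hS hW h.1 h.2).2 hb
    unfold Slb.phG
    rw [if_neg (fun h => key ⟨h.1, h.2.1⟩), if_neg (fun h => key ⟨h.1, h.2.1⟩)]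

/-- faces in neighbouring columns of the first tubes, beyond the slab rows or not -/
theorem base_col (hS : S.Ok) (hW : WinR S W) {x x' y : ℤ}
    (h1 : S.x1 - S.k < x ∧ x < S.x2 + S.k) (h2 : S.x1 - S.k < x' ∧ x' < S.x2 + S.k)
    (h : (x, y) ∈ (S.env W 0 0).base) : (x', y) ∈ (S.env W 0 0).base := by
  have H := pe hS hW.sub
  have ha0 := hS.ha
  have hak := hS.hak
  have hx := hS.hx
  have g1 : (S.geo 0).x1 = S.x1 := geo_x1
  have g2 : (S.geo 0).x2 = S.x2 := geo_x2
  have g3 : (S.geo 0).k = S.k := rfl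
  have g4 : (S.geo 0).yc = S.yc := rfl
  have g5 : (S.geo 0).c = 3 * S.k + (S.x2 - S.x1).toNat := rfl
  rw [H.mem_base] at h ⊢
  obtain ⟨X₀, X₁, Y₀, Y₁, hR⟩ := hW.rect
  have hWW : (S.env W 0 0).W = W := rfl
  have hch : ∀ z : ℤ, S.x1 - S.k < z ∧ z < S.x2 + S.k → ¬ (S.geo 0).cham z := by
    intro z hz hc
    unfold BGeo.cham at hc
    rw [g1, g2, g3] at hc
    omega
  refine ⟨?_, ?_, ?_⟩
  · have h3 := h.1
    rw [hWW, hR, mem_RF] at h3 ⊢
    have h4 : ∀ z w : ℤ, S.x1 - S.k ≤ z ∧ z < S.x2 + S.k → w = S.yc → (z, w) ∈ RF X₀ X₁ Y₀ Y₁ := by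
      rintro z w hz rfl
      rw [← hR]
      refine hW.sub (mem_RF.mpr ?_)
      rw [g1, g2, g3, g4, g5]
      simp only
      push_cast
      omega
    have h5 := mem_RF.mp (h4 x' S.yc ⟨h2.1.le, h2.2⟩ rfl)
    exact ⟨h5.1, h5.2.1, h3.2.2.1, h3.2.2.2⟩
  · intro hs
    apply h.2.1
    have hc' := hch x h1
    unfold BGeo.solid BGeo.hgt at hs ⊢
    simp only [if_true] at hs ⊢
    rw [g1, g2, g3] at hs ⊢
    exact ⟨hs.1, hs.2.1, by omega, by omega, fun h => hc' h.1⟩
  · intro hs
    apply h.2.2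
    have hc' := hch x h1
    unfold BGeo.solid BGeo.hgt at hs ⊢
    simp only [Bool.false_eq_true, if_false] at hs ⊢
    rw [g1, g2, g3] at hs ⊢
    exact ⟨hs.1, hs.2.1, by omega, by omega, fun h => hc' h.1⟩

/-- the boundary sides of `E.F` do not meet the closing sides of the outer part -/
theorem ps2 (hS : S.Ok) (hW : WinR S W) {c : ℕ} (hc : c + 1 < S.k) {f : FF} (hf : f ∈ (S.env W 0 0).F)
    {k : ZMod 4} (hb : sd (S.env W 0 0).Q f k ∈ bS (S.env W 0 0).Q (S.env W 0 0).F) :
    S.phO c (sd (S.env W 0 0).Q f k) = S.phE (sd (S.env W 0 0).Q f k) := by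
  have hT : EnvB.Thk (S.env W 0 0) := thk hS
  have ha0 := hS.ha
  have hak := hS.hak
  have hx := hS.hx
  obtain ⟨σ, f⟩ := f
  cases σ with
  | none =>
    have hfb := base_of_mem hf
    have b1 := ((EnvB.base_bS hT (Finset.Subset.refl _) hf k).mp hb).1
    rw [EnvB.mem_F_none] at b1
    rw [side_base hS hfb]
    unfold Slb.phO
    rw [if_neg, if_neg]
    · rintro ⟨-, -, h2, h3⟩
      rcases EnvB.k4 k with rfl | rfl | rfl | rfl
      · have h4 : ((f.1 + 1, f.2) : ℤ × ℤ) = (S.x1 - c, f.2 + 1) := h3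
        have := (Prod.mk.inj h4).2
        omega
      · have h4 : f.1 + 1 = S.x1 - c := h2
        refine b1 ?_
        rw [EnvB.nb1]
        exact base_col hS hW (x := f.1) (by omega) (by omega) hfb
      · have h4 : f.1 + 1 = S.x1 - c := h2
        have h5 : ((f.1, f.2 + 1) : ℤ × ℤ) = (S.x1 - c, f.2 + 1 + 1) := h3
        have := (Prod.mk.inj h5).1
        omega
      · have h5 : ((f.1, f.2) : ℤ × ℤ) = (S.x1 - c, f.2 + 1 + 1) := h3
        have := (Prod.mk.inj h5).2
        omega
    · rintro ⟨-, -, h2, h3⟩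
      rcases EnvB.k4 k with rfl | rfl | rfl | rfl
      · have h4 : ((f.1 + 1, f.2) : ℤ × ℤ) = (S.x2 + c, f.2 - 1) := h3
        have := (Prod.mk.inj h4).2
        omega
      · have h5 : ((f.1 + 1, f.2 + 1) : ℤ × ℤ) = (S.x2 + c, f.2 - 1) := h3
        have := (Prod.mk.inj h5).2
        omega
      · have h4 : f.1 + 1 = S.x2 + c := h2
        have h5 : ((f.1, f.2 + 1) : ℤ × ℤ) = (S.x2 + c, f.2 + 1 - 1) := h3
        have := (Prod.mk.inj h5).1
        omega
      · have h4 : f.1 = S.x2 + c := h2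
        refine b1 ?_
        rw [EnvB.nb3]
        exact base_col hS hW (x := f.1) (by omega) (by omega) hfb
  | some i =>
    have key : ¬ (((S.env W 0 0).Q.c (some i, f) k).1 = none ∧
        ((S.env W 0 0).Q.c (some i, f) (k + 1)).1 = none) := fun h => (pk_none hS hW.sub h.1 h.2).2 hb
    unfold Slb.phO
    rw [if_neg (fun h => key ⟨h.1, h.2.1⟩), if_neg (fun h => key ⟨h.1, h.2.1⟩)]

/-- **The cut.** -/
theorem cut2 (hS : S.Ok) (hW : WinR S W) :
    Spl.Cut2 (S.env W 0 0).Q (S.env W 0 0).F (S.G (2 * S.q)) (S.G S.q)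
      ((S.env W 0 0).F \ S.G (3 * S.q)) (S.env W 0 0).Z S.phE (S.phG (2 * S.q)) (S.phO (2 * S.q)) := by
  have hq := q_pos hS
  have hq4 := q4 (S := S)
  refine ⟨G_sub hS hW.sub (by omega), Slb.G_mono (by omega), ?_, fun a ha => (EnvB.mem_Z.mp ha).1, ?_, ?_,
    ?_, ?_⟩
  · intro f hf
    obtain ⟨h1, h2⟩ := Finset.mem_sdiff.mp hf
    exact Finset.mem_sdiff.mpr ⟨h1, fun h => h2 (Slb.G_mono (by omega) h)⟩
  · intro a ha h
    obtain ⟨f, hf, k, rfl⟩ := pos_side ha (G_sub hS hW.sub (by omega)) h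
    exact mem_Z_G hS hW.sub (by omega) hf ha
  · intro a ha h
    obtain ⟨f, hf, k, rfl⟩ := pos_side ha (Finset.sdiff_subset.trans Finset.sdiff_subset) h
    have h1 : f ∈ S.G (3 * S.q) := by
      obtain ⟨h2, h3⟩ := Finset.mem_sdiff.mp hf
      by_contra h4
      exact h3 (Finset.mem_sdiff.mpr ⟨(Finset.mem_sdiff.mp h2).1, h4⟩)
    exact mem_Z_G hS hW.sub (by omega) h1 ha
  · intro a ha h
    obtain ⟨f, hf, k, rfl⟩ := pos_side ha (G_sub hS hW.sub (by omega)) h
    exact ps1 hS hW.sub (by omega) hf ha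
  · intro a ha h
    obtain ⟨f, hf, k, rfl⟩ := pos_side ha Finset.sdiff_subset h
    exact ps2 hS hW (by omega) (Finset.mem_sdiff.mp hf).1 ha

/-! ## The arcs in the rectangles -/

/-- a strand which avoids the cores stays in one tube -/
theorem vis_one (H : PE E g) {G : Finset FF} (hG : G ⊆ E.F) {a : FF × FF} (ha : a ∈ bS E.Q G)
    {z z' : ℕ → Bool} (hzz : ∀ i < 18, ∀ j < 18, z i = true → z' j = true → ¬ adjZ i j)
    (hv : ∀ f ∈ Vis E.Q ω (G : Set FF) a, z (zone g f) = true ∨ z' (zone g f) = true) :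
    (∀ f ∈ Vis E.Q ω (G : Set FF) a, z (zone g f) = true) ∨
      (∀ f ∈ Vis E.Q ω (G : Set FF) a, z' (zone g f) = true) := by
  obtain ⟨f₀, hf₀, k₀, hk₀⟩ := bS_sd ha
  have hv0 : f₀ ∈ Vis E.Q ω (G : Set FF) a := ⟨by exact_mod_cast hf₀, k₀, by rw [hk₀]; exact mem_Orb_self⟩
  have main : ∀ {z z' : ℕ → Bool}, (∀ i < 18, ∀ j < 18, z i = true → z' j = true → ¬ adjZ i j) →
      (∀ f ∈ Vis E.Q ω (G : Set FF) a, z (zone g f) = true ∨ z' (zone g f) = true) →
      z (zone g f₀) = true → ∀ f ∈ Vis E.Q ω (G : Set FF) a, z (zone g f) = true := by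
    intro z z' hzz hv h0
    have h1 : Vis E.Q ω (G : Set FF) a ⊆ {f | z (zone g f) = true} := by
      refine vis_conn ?_ ?_
      · intro f _ k hk
        have := (sd_inj (hk₀.symm.trans hk)).1
        rw [← this]
        exact h0
      · intro f hf hfz f' hf' k l hkl
        rcases hv f' hf' with h2 | h2
        · exact h2
        · exact absurd (H.adj (hG (by exact_mod_cast hf.1)) (hG (by exact_mod_cast hf'.1)) hkl)
            (hzz _ (zone_lt g f) _ (zone_lt g f') hfz h2)
    exact h1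
  rcases hv f₀ hv0 with h0 | h0
  · exact Or.inl (main hzz hv h0)
  · exact Or.inr (main (fun i hi j hj h1 h2 h3 => hzz j hj i hi h2 h1 h3.symm)
      (fun f hf => (hv f hf).symm) h0)

/-- **The arcs in the tubes have weight `√3`, no tube is crossed.** -/
theorem cutW (hS : S.Ok) (hW : WinR S W) (h0 : S.bd 0 ω = 0) (h1 : S.bd 1 ω = 0) :
    Spl.CutW (S.env W 0 0).Q (S.env W 0 0).F (S.G (2 * S.q)) (S.G S.q)
      ((S.env W 0 0).F \ S.G (3 * S.q)) (S.env W 0 0).Z S.phE (S.phG (2 * S.q)) (S.phO (2 * S.q)) ω := by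
  have H := pe hS hW.sub
  have hq := q_pos hS
  have hq4 := q4 (S := S)
  refine ⟨core_in hS hW.sub h0, core_out hS hW.sub h1, ?_, ?_, ?_⟩
  · intro a ha hK0 hK1
    have haF := (EnvB.mem_Z.mp ha).1
    have hz : ∀ f ∈ Vis (S.env W 0 0).Q ω ((S.env W 0 0).F : Set FF) a,
        (fun z => z == 1 || z == 2) (zone (S.geo 0) f) = true ∨
          (fun z => z == 16 || z == 17) (zone (S.geo 0) f) = true := by
      intro f hf
      have hfF : f ∈ (S.env W 0 0).F := by exact_mod_cast hf.1
      have k0 : ¬ zone (S.geo 0) f = 0 := by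
        intro h
        refine hK0 f ?_ hf
        rw [G0 hS hW.sub]
        exact mem_zF.mpr ⟨hfF, by rw [h]; rfl⟩
      have k1 : ¬ b3 (zone (S.geo 0) f) = true := by
        intro h
        refine hK1 f ?_ hf
        rw [G3 hS hW.sub]
        exact mem_zF.mpr ⟨hfF, h⟩
      have hlt := zone_lt (S.geo 0) f
      unfold b3 at k1
      simp only [Bool.not_eq_true', Bool.not_eq_false, Bool.or_eq_true, beq_iff_eq] at k1 ⊢
      omega
    rcases vis_one H (Finset.Subset.refl _) haF (z := fun z => z == 1 || z == 2)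
        (z' := fun z => z == 16 || z == 17) (by decide) hz with h2 | h2
    · refine wt_env hS hW.sub true haF fun f hf => ?_
      have h3 := h2 f hf
      simp only [Bool.or_eq_true, beq_iff_eq] at h3
      have hfF : f ∈ (S.env W 0 0).F := by exact_mod_cast hf.1
      rw [Finset.coe_union]
      rcases h3 with h3 | h3
      · exact Or.inl (by exact_mod_cast (H.mem_tF (s := true) (i := 0) (j := 0) (by norm_num)
          (by norm_num)).mpr ⟨hfF, h3⟩)
      · exact Or.inr (by exact_mod_cast (H.mem_tF (s := true) (i := 0) (j := 1) (by norm_num)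
          (by norm_num)).mpr ⟨hfF, h3⟩)
    · refine wt_env hS hW.sub false haF fun f hf => ?_
      have h3 := h2 f hf
      simp only [Bool.or_eq_true, beq_iff_eq] at h3
      have hfF : f ∈ (S.env W 0 0).F := by exact_mod_cast hf.1
      rw [Finset.coe_union]
      rcases h3 with h3 | h3
      · exact Or.inr (by exact_mod_cast (H.mem_tF (s := false) (i := 0) (j := 1) (by norm_num)
          (by norm_num)).mpr ⟨hfF, h3⟩)
      · exact Or.inl (by exact_mod_cast (H.mem_tF (s := false) (i := 0) (j := 0) (by norm_num)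
          (by norm_num)).mpr ⟨hfF, h3⟩)
  · intro a ha hK0
    have hsub : S.G (2 * S.q) ⊆ (S.env W 0 0).F := G_sub hS hW.sub (by omega)
    have hz : ∀ f ∈ Vis (S.env W 0 0).Q ω (S.G (2 * S.q) : Set FF) a,
        (fun z => z == 1) (zone (S.geo 0) f) = true ∨ (fun z => z == 17) (zone (S.geo 0) f) = true := by
      intro f hf
      have hfG : f ∈ S.G (2 * S.q) := by exact_mod_cast hf.1
      have hfF := hsub hfG
      have k0 : ¬ zone (S.geo 0) f = 0 := by
        intro h
        refine hK0 f ?_ hf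
        rw [G0 hS hW.sub]
        exact mem_zF.mpr ⟨hfF, by rw [h]; rfl⟩
      rw [G1 hS hW.sub] at hfG
      have k1 := (mem_zF.mp hfG).2
      unfold b1 at k1
      simp only [Bool.or_eq_true, beq_iff_eq] at k1 ⊢
      omega
    rcases vis_one H hsub ha (z := fun z => z == 1) (z' := fun z => z == 17) (by decide) hz with h2 | h2
    · refine wt_in hS hW.sub true ha fun f hf => ?_
      have h3 := h2 f hf
      simp only [beq_iff_eq] at h3
      have hfF : f ∈ (S.env W 0 0).F := hsub (by exact_mod_cast hf.1)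
      exact_mod_cast (H.mem_tF (s := true) (i := 0) (j := 0) (by norm_num) (by norm_num)).mpr ⟨hfF, h3⟩
    · refine wt_in hS hW.sub false ha fun f hf => ?_
      have h3 := h2 f hf
      simp only [beq_iff_eq] at h3
      have hfF : f ∈ (S.env W 0 0).F := hsub (by exact_mod_cast hf.1)
      exact_mod_cast (H.mem_tF (s := false) (i := 0) (j := 0) (by norm_num) (by norm_num)).mpr ⟨hfF, h3⟩
  · intro a ha hK1
    have haF := Spl.Z₂_sub ha
    have hz : ∀ f ∈ Vis (S.env W 0 0).Q ω (((S.env W 0 0).F \ S.G (2 * S.q) : Finset FF) : Set FF) a,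
        (fun z => z == 2) (zone (S.geo 0) f) = true ∨ (fun z => z == 16) (zone (S.geo 0) f) = true := by
      intro f hf
      have hfG : f ∈ (S.env W 0 0).F \ S.G (2 * S.q) := by exact_mod_cast hf.1
      obtain ⟨hfF, hfn⟩ := Finset.mem_sdiff.mp hfG
      have k1 : ¬ b3 (zone (S.geo 0) f) = true := by
        intro h
        refine hK1 f ?_ hf
        rw [G3 hS hW.sub]
        exact mem_zF.mpr ⟨hfF, h⟩
      have k0 : ¬ b1 (zone (S.geo 0) f) = true := by
        intro h
        apply hfn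
        rw [G1 hS hW.sub]
        exact mem_zF.mpr ⟨hfF, h⟩
      unfold b1 at k0
      unfold b3 at k1
      simp only [Bool.not_eq_true', Bool.not_eq_false, Bool.or_eq_true, beq_iff_eq] at k0 k1 ⊢
      omega
    rcases vis_one H Finset.sdiff_subset haF (z := fun z => z == 2) (z' := fun z => z == 16)
        (by decide) hz with h2 | h2
    · refine wt_out hS hW.sub true haF fun f hf => ?_
      have h3 := h2 f hf
      simp only [beq_iff_eq] at h3
      have hfF : f ∈ (S.env W 0 0).F := Finset.sdiff_subset (by exact_mod_cast hf.1)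
      exact_mod_cast (H.mem_tF (s := true) (i := 0) (j := 1) (by norm_num) (by norm_num)).mpr ⟨hfF, h3⟩
    · refine wt_out hS hW.sub false haF fun f hf => ?_
      have h3 := h2 f hf
      simp only [beq_iff_eq] at h3
      have hfF : f ∈ (S.env W 0 0).F := Finset.sdiff_subset (by exact_mod_cast hf.1)
      exact_mod_cast (H.mem_tF (s := false) (i := 0) (j := 1) (by norm_num) (by norm_num)).mpr ⟨hfF, h3⟩

end

end Pool.Agent.SixB.Tub
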