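import Pool.Agent.Lib.SixB.S3SlbG
import Pool.Agent.Lib.SixB.S3HTubC
import Pool.Agent.Lib.SixB.S3HFin

/-!
# 6BD step 3.8 (R18): the environment of a slab against the polygon

* `exact2`: `WZ E = WZ D * Y` off two events gives the same mean height increments; `chain2`: two packages.
* `tubF S j`: the tube rectangles number `j`; `dep_bd`; `bxT_sub`, `dep_bdT_G0`, `dep_bdT_off`.
* `same_E`: if `bd 0`, `bd 1`, `bdT` vanish the weights of `E = S.env W 0 0` are those of `S.G 0` times a function of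
  the faces off `S.G (2q)`.
* `chain_E`: environment against polygon.
-/

set_option autoImplicit false
set_option linter.unusedSectionVars false
set_option linter.unusedVariables false

namespace Pool.Agent.SixB.SlbD

open Pool.Agent.Perc.Q Pool.Agent.Perc Pool.Agent.SixB
open Pool.Agent.SixB.MthD (Win sd2 sh vh Reg em)
open Pool.Agent.SixB.MT (TMouth TData nbF HBx Tub mEnd mMth)
open Pool.Agent.SixB.Tilt (k4)
open Pool.Agent.PercD (BR mem_BR)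
open Pool.Agent.SixB.PC (mv pb)
open Pool.Agent.SixB.HDet (hg)
open Pool.Agent.SixB.HCmp (Up Pk orr orr_01 av_orr_le dep_orr dH sc kc dep_hg hg_mul hg_congr av_mul_split)
open Pool.Agent.SixB.Rel (QChart Clo4 WZ1 dep_WZ1)

noncomputable section

/-! ## Abstract part -/

section Abs

variable {V Φ : Type} [DecidableEq V] [DecidableEq Φ] {Q : QC V Φ} {F F₀ : Finset Φ}
  {ν : ℤ × ℤ → V} {φ : ℤ × ℤ → Φ} {L : Finset (ℤ × ℤ)} {W1 W0 Y b bT : (Φ → Bool) → ℝ}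
  {τ1 τ0 : V × V → (Φ → Bool) → ℝ} {z z' : VZ}

/-- **The exact step.** -/
theorem exact2 (hF : F₀ ⊆ F) (hL : L.image φ ⊆ F₀) (dW : Dep (F₀ : Set Φ) W0)
    (dτ : ∀ e ∈ dE ZQ L, Dep (F₀ : Set Φ) (τ0 (mv ν e))) (dT : Dep (F₀ : Set Φ) bT)
    (db : Dep ((F \ F₀ : Finset Φ) : Set Φ) b) (dY : Dep ((F \ F₀ : Finset Φ) : Set Φ) Y)
    (hb : ∀ ω, b ω = 0 ∨ b ω = 1) (hT : ∀ ω, bT ω = 0 ∨ bT ω = 1)
    (hs : ∀ ω, b ω = 0 → bT ω = 0 → W1 ω = W0 ω * Y ω ∧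
      ∀ e ∈ dE ZQ L, τ1 (mv ν e) ω = τ0 (mv ν e) ω * Y ω)
    (hne : av F (fun ω => (1 - orr b bT ω) * W1 ω) ≠ 0) :
    dH ν φ L F (fun ω => (1 - orr b bT ω) * W1 ω) (fun e ω => (1 - orr b bT ω) * τ1 e ω) z z' =
      dH ν φ L F₀ (fun ω => (1 - bT ω) * W0 ω) (fun e ω => (1 - bT ω) * τ0 e ω) z z' := by
  set Y₂ : (Φ → Bool) → ℝ := fun ω => (1 - b ω) * Y ω with hY2
  have dY2 : Dep ((F \ F₀ : Finset Φ) : Set Φ) Y₂ := by
    intro ω ω' h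
    show (1 - b ω) * _ = (1 - b ω') * _
    rw [db ω ω' h, dY ω ω' h]
  have dX : Dep (F₀ : Set Φ) (fun ω => (1 - bT ω) * W0 ω) := by
    intro ω ω' h
    show (1 - bT ω) * _ = (1 - bT ω') * _
    rw [dT ω ω' h, dW ω ω' h]
  have dH0 : ∀ w : VZ, Dep (F₀ : Set Φ) (hg (fun e ω => (1 - bT ω) * τ0 e ω) ν φ L w) := by
    intro w
    refine dep_hg (fun e he => ?_) (by exact_mod_cast hL) w
    intro ω ω' h
    show (1 - bT ω) * _ = (1 - bT ω') * _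
    rw [dT ω ω' h, dτ e he ω ω' h]
  have hW : ∀ ω, (1 - orr b bT ω) * W1 ω = ((1 - bT ω) * W0 ω) * Y₂ ω := by
    intro ω
    unfold orr
    rcases hb ω with h1 | h1
    · rcases hT ω with h2 | h2
      · rw [(hs ω h1 h2).1, hY2]
        simp only [h1, h2]
        ring
      · rw [h2]
        ring
    · rw [hY2]
      simp only [h1]
      ring
  have eW : av F (fun ω => (1 - orr b bT ω) * W1 ω) =
      av F₀ (fun ω => (1 - bT ω) * W0 ω) * av (F \ F₀) Y₂ := by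
    rw [← av_mul_split hF dX dY2]
    exact av_congr fun T _ => hW _
  have eT : ∀ (w : VZ) (ω : Φ → Bool), hg (fun e ω => (1 - orr b bT ω) * τ1 e ω) ν φ L w ω =
      hg (fun e ω => (1 - bT ω) * τ0 e ω) ν φ L w ω * Y₂ ω := by
    intro w ω
    rw [mul_comm, ← hg_mul Y₂ w ω]
    refine hg_congr (fun e he => ?_) w
    show (1 - orr b bT ω) * τ1 (mv ν e) ω = Y₂ ω * ((1 - bT ω) * τ0 (mv ν e) ω)
    unfold orr
    rcases hb ω with h1 | h1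
    · rcases hT ω with h2 | h2
      · rw [(hs ω h1 h2).2 e he, hY2]
        simp only [h1, h2]
        ring
      · rw [h2]
        ring
    · rw [hY2]
      simp only [h1]
      ring
  have eN : av F (fun ω => hg (fun e ω => (1 - orr b bT ω) * τ1 e ω) ν φ L z ω -
        hg (fun e ω => (1 - orr b bT ω) * τ1 e ω) ν φ L z' ω) =
      av F₀ (fun ω => hg (fun e ω => (1 - bT ω) * τ0 e ω) ν φ L z ω -
        hg (fun e ω => (1 - bT ω) * τ0 e ω) ν φ L z' ω) * av (F \ F₀) Y₂ := by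
    have dd : Dep (F₀ : Set Φ) (fun ω => hg (fun e ω => (1 - bT ω) * τ0 e ω) ν φ L z ω -
        hg (fun e ω => (1 - bT ω) * τ0 e ω) ν φ L z' ω) := by
      intro ω ω' h
      show _ - _ = _ - _
      rw [dH0 z ω ω' h, dH0 z' ω ω' h]
    rw [← av_mul_split hF dd dY2]
    refine av_congr fun T _ => ?_
    rw [eT, eT]
    ring
  have hY0 : av (F \ F₀) Y₂ ≠ 0 := by
    intro h
    rw [eW, h, mul_zero] at hne
    exact hne rfl
  unfold dH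
  rw [eW, eN, mul_div_mul_right _ _ hY0]

variable {s j K : ℕ} {C C0E cE PrE C0 c Pr : ℝ} {DmE Dm0 : Set Φ} {BdE Bd : (Φ → Bool) → ℝ}

/-- **Two packages**: the surface `F` and its part `F₀`. -/
theorem chain2 (hC : HCmp.Cmp s C) (hF : F₀ ⊆ F) (H : QChart ZQ Q (BR z (2 ^ K)) ν φ 0)
    (hL : (BR z (2 ^ K)).image φ ⊆ F₀) (hDE : (((BR z (2 ^ K)).image φ : Finset Φ) : Set Φ) ⊆ DmE)
    (hD0 : (((BR z (2 ^ K)).image φ : Finset Φ) : Set Φ) ⊆ Dm0)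
    (dW : Dep (F₀ : Set Φ) W0) (dτ : ∀ e ∈ dE ZQ (BR z (2 ^ K)), Dep (F₀ : Set Φ) (τ0 (mv ν e)))
    (dT : Dep (F₀ : Set Φ) bT) (dTE : Dep DmE bT) (dT0 : Dep Dm0 bT)
    (dTd : Dep (((BR z (2 ^ K)).image φ : Finset Φ) : Set Φ)ᶜ bT)
    (db : Dep ((F \ F₀ : Finset Φ) : Set Φ) b) (dbE : Dep DmE b)
    (dY : Dep ((F \ F₀ : Finset Φ) : Set Φ) Y)
    (hb : ∀ ω, b ω = 0 ∨ b ω = 1) (hT : ∀ ω, bT ω = 0 ∨ bT ω = 1)
    (hs : ∀ ω, b ω = 0 → bT ω = 0 → W1 ω = W0 ω * Y ω ∧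
      ∀ e ∈ dE ZQ (BR z (2 ^ K)), τ1 (mv ν e) ω = τ0 (mv ν e) ω * Y ω)
    (h1 : |z'.1 - z.1| ≤ 2 ^ j) (h2 : |z'.2 - z.2| ≤ 2 ^ j) (hjK : j + 2 ≤ K)
    (PE : Pk ν φ (BR z (2 ^ K)) F W1 τ1 s DmE C0E cE PrE BdE)
    (P0 : Pk ν φ (BR z (2 ^ K)) F₀ W0 τ0 s Dm0 C0 c Pr Bd)
    (hsE : 2 * C0E * av F (orr b bT) ^ HCmp.th s ≤ cE / 2) (hs0 : 2 * C0 * av F₀ bT ^ HCmp.th s ≤ c / 2) :
    |dH ν φ (BR z (2 ^ K)) F W1 τ1 z z' - dH ν φ (BR z (2 ^ K)) F₀ W0 τ0 z z'| ≤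
      kc C0E cE * av F (orr b bT) ^ HCmp.th s * (C * sc s j K) + kc C0 c * av F₀ bT ^ HCmp.th s * (C * sc s j K) := by
  have hLF : (BR z (2 ^ K)).image φ ⊆ F := hL.trans hF
  have dbd : Dep (((BR z (2 ^ K)).image φ : Finset Φ) : Set Φ)ᶜ b := by
    refine HCmp.Dep.mono' db fun x hx hx' => ?_
    have h3 : x ∈ F \ F₀ := by exact_mod_cast hx
    exact (Finset.mem_sdiff.mp h3).2 (hL (by exact_mod_cast hx'))
  have hE := hC.cut H hLF hDE h1 h2 hjK PE (orr_01 hb hT) (dep_orr dbE dTE) (dep_orr dbd dTd) hsE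
  have hP := hC.cut H hL hD0 h1 h2 hjK P0 hT dT0 dTd hs0
  have hne : av F (fun ω => (1 - orr b bT ω) * W1 ω) ≠ 0 :=
    (lt_of_lt_of_le (mul_pos (half_pos PE.c_pos) PE.Pr_pos) hE.1).ne'
  have hx := exact2 (z := z) (z' := z') hF hL dW dτ dT db dY hb hT hs hne
  rw [hx] at hE
  have h3 := hE.2
  have h4 := hP.2
  rw [abs_le] at h3 h4 ⊢
  constructor <;> linarith [h3.1, h3.2, h4.1, h4.2]

end Abs

/-! ## The events -/

variable {S : Slb} {W : Finset (ℤ × ℤ)} {N : ℕ} {ω : Option Bool × (ℤ × ℤ) → Bool}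
  {P : Finset (ℤ × ℤ)} {e : (ℤ × ℤ) × (ℤ × ℤ)}

/-- the faces of the tube rectangles number `j` -/
def tubF (S : Slb) (j : ℕ) : Finset (Option Bool × (ℤ × ℤ)) :=
  Gd.tF (S.geo 0) true 0 j ∪ Gd.tF (S.geo 0) false 0 j

theorem mem_tubF {j : ℕ} {f : Option Bool × (ℤ × ℤ)} : f ∈ tubF S j ↔ f.1 = none ∧
    (S.yc - S.a ≤ f.2.2 ∧ f.2.2 < S.yc + S.a) ∧
      ((S.x2 + (j + 1) * S.q ≤ f.2.1 ∧ f.2.1 < S.x2 + (j + 2) * S.q) ∨
        (S.x1 - (j + 2) * S.q ≤ f.2.1 ∧ f.2.1 < S.x1 - (j + 1) * S.q)) := by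
  obtain ⟨s, f⟩ := f
  unfold tubF
  rw [Finset.mem_union, Tub.tF_img, Tub.tF_img, Finset.mem_image, Finset.mem_image, (Tub.tx_r j).1,
    (Tub.tx_r j).2, (Tub.tx_l j).1, (Tub.tx_l j).2]
  have g1 : (S.geo 0).yc = S.yc := rfl
  have g2 : (S.geo 0).a = S.a := rfl
  rw [g1, g2]
  constructor
  · rintro (⟨g, hg, h⟩ | ⟨g, hg, h⟩)
    · obtain ⟨rfl, rfl⟩ := Prod.mk.inj h
      rw [mem_RF] at hg
      exact ⟨rfl, ⟨hg.2.2.1, hg.2.2.2⟩, Or.inl ⟨hg.1, hg.2.1⟩⟩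
    · obtain ⟨rfl, rfl⟩ := Prod.mk.inj h
      rw [mem_RF] at hg
      exact ⟨rfl, ⟨hg.2.2.1, hg.2.2.2⟩, Or.inr ⟨hg.1, hg.2.1⟩⟩
  · rintro ⟨rfl, ⟨h1, h2⟩, h3 | h3⟩
    · exact Or.inl ⟨f, mem_RF.mpr ⟨h3.1, h3.2, h1, h2⟩, rfl⟩
    · exact Or.inr ⟨f, mem_RF.mpr ⟨h3.1, h3.2, h1, h2⟩, rfl⟩

theorem dep_bd (j : ℕ) : Dep ((tubF S j : Finset _) : Set _) (S.bd j) := by
  classical
  intro ω ω' h
  have key : ∀ s : Bool, (fun f => ω (none, f)) ∈ Gd.Crs (Gd.tx (S.geo 0) s 0 j) (Gd.tx' (S.geo 0) s 0 j)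
      (S.yc - S.a) (S.yc - S.a + 2 * S.a) ↔ (fun f => ω' (none, f)) ∈
        Gd.Crs (Gd.tx (S.geo 0) s 0 j) (Gd.tx' (S.geo 0) s 0 j) (S.yc - S.a) (S.yc - S.a + 2 * S.a) := by
    intro s
    refine Gd.depOn_Crs _ _ fun f hf => h (none, f) ?_
    have hf' : f ∈ Gd.tR (S.geo 0) s 0 j := by exact_mod_cast hf
    have h1 : ((none, f) : Option Bool × (ℤ × ℤ)) ∈ Gd.tF (S.geo 0) s 0 j := Finset.mem_image_of_mem _ hf'
    rw [Finset.mem_coe]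
    unfold tubF
    cases s
    · exact Finset.mem_union_right _ h1
    · exact Finset.mem_union_left _ h1
  unfold Slb.bd
  simp only [key]

/-- the tubes are off the polygon -/
theorem tubF_off {j : ℕ} {f : Option Bool × (ℤ × ℤ)} (h : S.Ok) (hf : f ∈ tubF S j) : f ∉ S.G 0 := by
  have hx := h.hx
  rw [mem_tubF] at hf
  rw [Slb.mem_G, Slb.mem_strip]
  obtain ⟨h1, h2, h3⟩ := hf
  have hq : (0 : ℤ) ≤ (j + 1) * S.q := by positivity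
  rintro (⟨-, h4⟩ | ⟨h4, -⟩ | ⟨h4, -⟩)
  · push_cast at h4
    rcases h3 with h3 | h3
    · omega
    · omega
  · rw [h1] at h4
    exact absurd h4 (by simp)
  · rw [h1] at h4
    exact absurd h4 (by simp)

theorem tubF_sub (h : S.Ok) {j : ℕ} (hj : j < 2) : tubF S j ⊆ S.G (3 * S.q) := by
  have hx := h.hx
  have hk : (0 : ℤ) ≤ S.k := by positivity
  intro f hf
  rw [mem_tubF] at hf
  rw [Slb.mem_G, Slb.mem_strip]
  obtain ⟨h1, h2, h3⟩ := hf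
  refine Or.inl ⟨h1, ?_⟩
  have hq : (0 : ℤ) ≤ S.q := by positivity
  push_cast
  interval_cases j <;> rcases h3 with h3 | h3 <;> push_cast at h3 <;> refine ⟨?_, ?_, h2.1, h2.2⟩ <;> linarith

theorem bxT_sub (h : S.Ok) {i : Bool} {k : ℕ} : bxT S i k ⊆ S.G 0 := by
  have ha := h.ha
  have hak := h.hak
  have hc : 1 < S.k := by omega
  rw [← Ks_eq h win_bigW Nat.one_pos hc]
  exact TData.K_sub

theorem dep_bdT_G0 (h : S.Ok) : Dep ((S.G 0 : Finset _) : Set _) (bdT S N) := by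
  refine HCmp.Dep.mono' (dep_bdT N) ?_
  intro x hx
  obtain ⟨i, hi⟩ := Set.mem_iUnion.mp hx
  exact_mod_cast bxT_sub h (by exact_mod_cast hi)

/-- the event does not look at faces off the half boxes -/
theorem dep_bdT_off {A : Finset (Option Bool × (ℤ × ℤ))}
    (hA : ∀ g ∈ A, ∀ i, g.2 ∉ HBx i (tv S i) (S.k / 2)) : Dep ((A : Finset _) : Set _)ᶜ (bdT S N) := by
  refine HCmp.Dep.mono' (dep_bdT N) ?_
  intro x hx hx'
  obtain ⟨i, hi⟩ := Set.mem_iUnion.mp hx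
  exact hA x (by exact_mod_cast hx') i (mem_bxT (by exact_mod_cast hi)).2.1

/-! ## The environment -/

/-- the window of the tubes -/
theorem win_of (h : S.Ok) (hW : Tub.Win S W) : Win S W := by
  have ha := h.ha
  have hak := h.hak
  intro f h1 h2 h3 h4
  have g1 : (S.geo 0).x1 = S.x1 := Tub.geo_x1
  have g2 : (S.geo 0).x2 = S.x2 := Tub.geo_x2
  have g3 : (S.geo 0).k = S.k := rfl
  have g4 : (S.geo 0).yc = S.yc := rfl
  have g5 : (S.geo 0).c = 3 * S.k + (S.x2 - S.x1).toNat := rfl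
  refine hW (mem_RF.mpr ?_)
  rw [g1, g2, g3, g4, g5]
  push_cast
  omega

/-- the weight of the faces off `S.G (2q)` -/
def Yo (S : Slb) (W : Finset (ℤ × ℤ)) (ω : Option Bool × (ℤ × ℤ) → Bool) : ℝ :=
  WZ (S.env W 0 0).Q ((S.env W 0 0).F \ S.G (2 * S.q)) (S.phO (2 * S.q))
    (Spl.Z₂ (S.env W 0 0).Q (S.env W 0 0).F (S.G (2 * S.q)) (S.env W 0 0).Z) ω

theorem dep_Yo : Dep (((S.env W 0 0).F \ S.G 0 : Finset _) : Set _) (Yo S W) := by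
  refine HCmp.Dep.mono' (dep_WZ Spl.Z₂_sub _) ?_
  intro x hx
  have h1 : x ∈ (S.env W 0 0).F \ S.G (2 * S.q) := by exact_mod_cast hx
  obtain ⟨h2, h3⟩ := Finset.mem_sdiff.mp h1
  exact_mod_cast Finset.mem_sdiff.mpr ⟨h2, fun h4 => h3 (Slb.G_mono (Nat.zero_le _) h4)⟩

/-- **The weights of the environment.** -/
theorem same_E (h : S.Ok) (hW : Tub.WinR S W) (hN : S.a * 2 ^ N < S.k / 2) (h0 : S.bd 0 ω = 0)
    (h1 : S.bd 1 ω = 0) (h2 : bdT S N ω = 0) :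
    WZ (S.env W 0 0).Q (S.env W 0 0).F S.phE (S.env W 0 0).Z ω =
      WZ (S.env W 0 0).Q (S.G 0) (S.phG 0) (bS (S.env W 0 0).Q (S.G 0)) ω * Yo S W ω ∧
    ∀ P : Finset (ℤ × ℤ), (∀ f ∈ P, S.x1 ≤ f.1 ∧ f.1 < S.x2 ∧ S.yc - S.k ≤ f.2 ∧ f.2 < S.yc + S.k) →
      (∀ f ∈ P, ∀ i, f ∉ HBx i (tv S i) (S.k / 2)) → ∀ e ∈ dE ZQ P,
      WZ1 (S.env W 0 0).Q (S.env W 0 0).F S.phE (S.env W 0 0).Z (sd2 S e) ω =
        WZ1 (S.env W 0 0).Q (S.G 0) (S.phG 0) (bS (S.env W 0 0).Q (S.G 0)) (sd2 S e) ω * Yo S W ω := by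
  have hq := Tub.q_pos h
  have hq4 := Tub.q4 (S := S)
  have D := Tub.cut2 h hW
  have E := Tub.cutW h hW h0 h1
  obtain ⟨h3, h4⟩ := WZ_tube (W := W) h (c := 2 * S.q) (by omega) (by omega) hN h2
  refine ⟨?_, fun P hP hB e he => ?_⟩
  · rw [Spl.wz_split D E, h3]
    rfl
  · have hPD : P ⊆ S.D := by
      intro f hf
      obtain ⟨h5, h6, h7, h8⟩ := hP f hf
      exact_mod_cast h.slab.sub _ _ h5 h6 h7 h8
    have h5 := em_sd2 h win_bigW hP he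
    obtain ⟨h6, -, -⟩ := off_box h win_bigW (c := 1) Nat.one_pos (by omega) hN hPD hB he
    rw [h5] at h6
    have h7 : sd2 S e ∈ dE (S.env W 0 0).Q (S.G S.q) := dE_sub (Slb.G_mono (Nat.zero_le _)) h6
    rw [Spl.wz1_split D E (Rel.noLoop_env _) h7, h4 P hP hB e he]
    rfl

/-! ## Environment against polygon -/

/-- **The probability of the bad events.** -/
theorem av_bad : ∃ q C : ℝ, 0 < q ∧ q < 1 ∧ 0 < C ∧ ∀ {S : Slb} {W : Finset (ℤ × ℤ)} {N : ℕ}, S.Ok →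
    Tub.Win S W → 1 < N → S.a * 2 ^ N ≤ S.k / 2 →
    av (S.env W 0 0).F (orr (orr (S.bd 0) (S.bd 1)) (bdT S N)) ≤ 12 * q ^ (S.k / (8 * S.a)) + C * N / 4 ^ N ∧
      av (S.G 0) (bdT S N) ≤ C * N / 4 ^ N := by
  classical
  obtain ⟨q, q0, q1, hq⟩ := Gd.good_pr
  obtain ⟨C, hC, hT⟩ := av_bdT
  refine ⟨q, C, q0, q1, hC, ?_⟩
  intro S W N h hW hN hr
  have hsub : S.G 0 ⊆ (S.env W 0 0).F := Tub.G_sub h hW (by
    have := h.hak
    have := h.ha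
    omega)
  refine ⟨?_, hT h hN hr (Finset.Subset.refl _)⟩
  have h1 := av_orr_le (S.env W 0 0).F (orr_01 (Slb.bd_01 (S := S) 0) (Slb.bd_01 (S := S) 1)) (bdT_01 (S := S) N)
  refine h1.trans (add_le_add ?_ (hT h hN hr hsub))
  have h2 := hq (S.env W 0 0) (S.geo 0) (Tub.pe h hW).uns
  refine le_trans (av_mono fun T _ => ?_) h2
  by_cases hg : Gd.good (S.geo 0) (ind T)
  · rw [if_pos hg]
    have key : ∀ j < 2, S.bd j (ind T) = 0 := by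
      intro j hj
      unfold Slb.bd
      rw [if_neg]
      rintro ⟨s, hs⟩
      exact hg s 0 (by norm_num) j hj hs
    unfold orr
    rw [key 0 (by norm_num), key 1 (by norm_num)]
    norm_num
  · rw [if_neg hg]
    rcases orr_01 (Slb.bd_01 (S := S) 0) (Slb.bd_01 (S := S) 1) (ind T) with h3 | h3 <;> rw [h3]
    norm_num

variable {s j K : ℕ} {C C0E cE PrE C0 c Pr : ℝ} {z z' : ℤ × ℤ}
  {ν : ℤ × ℤ → Option Bool × (ℤ × ℤ)} {φ : ℤ × ℤ → Option Bool × (ℤ × ℤ)}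
  {DmE Dm0 : Set (Option Bool × (ℤ × ℤ))} {BdE Bd : (Option Bool × (ℤ × ℤ) → Bool) → ℝ}

/-- **The environment and the polygon**: mean height increments in the disc `BR z (2 ^ K)`. -/
theorem chain_E (hC : HCmp.Cmp s C) (h : S.Ok) (hW : Tub.WinR S W) (hN : S.a * 2 ^ N < S.k / 2)
    (H : QChart ZQ (S.env W 0 0).Q (BR z (2 ^ K)) ν φ 0)
    (hν : ∀ e ∈ dE ZQ (BR z (2 ^ K)), mv ν e = sd2 S e) (hφ : ∀ f ∈ BR z (2 ^ K), φ f = (sh S f, f))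
    (hB : ∀ f ∈ BR z (2 ^ K), S.x1 + S.k ≤ f.1 ∧ f.1 < S.x2 - S.k ∧ S.yc - S.k ≤ f.2 ∧ f.2 < S.yc + S.k)
    (hDE : (((BR z (2 ^ K)).image φ : Finset _) : Set _) ⊆ DmE)
    (hD0 : (((BR z (2 ^ K)).image φ : Finset _) : Set _) ⊆ Dm0)
    (tE : ∀ j < 2, ((tubF S j : Finset _) : Set _) ⊆ DmE)
    (bE : ∀ i : Bool, ((bxT S i N : Finset _) : Set _) ⊆ DmE)
    (b0 : ∀ i : Bool, ((bxT S i N : Finset _) : Set _) ⊆ Dm0)
    (h1 : |z'.1 - z.1| ≤ 2 ^ j) (h2 : |z'.2 - z.2| ≤ 2 ^ j) (hjK : j + 2 ≤ K)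
    (PE : Pk ν φ (BR z (2 ^ K)) (S.env W 0 0).F (WZ (S.env W 0 0).Q (S.env W 0 0).F S.phE (S.env W 0 0).Z)
      (WZ1 (S.env W 0 0).Q (S.env W 0 0).F S.phE (S.env W 0 0).Z) s DmE C0E cE PrE BdE)
    (P0 : Pk ν φ (BR z (2 ^ K)) (S.G 0)
      (WZ (S.env W 0 0).Q (S.G 0) (S.phG 0) (bS (S.env W 0 0).Q (S.G 0)))
      (WZ1 (S.env W 0 0).Q (S.G 0) (S.phG 0) (bS (S.env W 0 0).Q (S.G 0))) s Dm0 C0 c Pr Bd)
    (hsE : 2 * C0E * av (S.env W 0 0).F (orr (orr (S.bd 0) (S.bd 1)) (bdT S N)) ^ HCmp.th s ≤ cE / 2)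
    (hs0 : 2 * C0 * av (S.G 0) (bdT S N) ^ HCmp.th s ≤ c / 2) :
    |dH ν φ (BR z (2 ^ K)) (S.env W 0 0).F (WZ (S.env W 0 0).Q (S.env W 0 0).F S.phE (S.env W 0 0).Z)
        (WZ1 (S.env W 0 0).Q (S.env W 0 0).F S.phE (S.env W 0 0).Z) z z' -
      dH ν φ (BR z (2 ^ K)) (S.G 0) (WZ (S.env W 0 0).Q (S.G 0) (S.phG 0) (bS (S.env W 0 0).Q (S.G 0)))
        (WZ1 (S.env W 0 0).Q (S.G 0) (S.phG 0) (bS (S.env W 0 0).Q (S.G 0))) z z'| ≤
      kc C0E cE * av (S.env W 0 0).F (orr (orr (S.bd 0) (S.bd 1)) (bdT S N)) ^ HCmp.th s * (C * sc s j K) +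
        kc C0 c * av (S.G 0) (bdT S N) ^ HCmp.th s * (C * sc s j K) := by
  have hx := h.hx
  have ha := h.ha
  have hak := h.hak
  have hq := Tub.q_pos h
  have hq4 := Tub.q4 (S := S)
  have hGF : ∀ c : ℕ, c < S.k → S.G c ⊆ (S.env W 0 0).F := fun c hc => Tub.G_sub h hW.sub hc
  have hB' : ∀ f ∈ BR z (2 ^ K), S.x1 ≤ f.1 ∧ f.1 < S.x2 ∧ S.yc - S.k ≤ f.2 ∧ f.2 < S.yc + S.k := by
    intro f hf
    have := hB f hf
    omega
  have hoff : ∀ f ∈ BR z (2 ^ K), ∀ i, f ∉ HBx i (tv S i) (S.k / 2) := by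
    intro f hf i
    have := hB f hf
    rw [MT.mem_HBx]
    cases i <;> simp only [tv, cond_false, cond_true] <;> omega
  have hL : (BR z (2 ^ K)).image φ ⊆ S.G 0 := by
    intro g hg
    obtain ⟨f, hf, rfl⟩ := Finset.mem_image.mp hg
    rw [hφ f hf]
    have h3 := hB' f hf
    exact G_reg h win_bigW (Or.inl h3) (by push_cast; omega) (by push_cast; omega)
  have hdE : ∀ e ∈ dE ZQ (BR z (2 ^ K)), mv ν e ∈ dE (S.env W 0 0).Q (S.G 0) := by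
    intro e he
    refine dE_sub hL ?_
    rw [PC.dE_map H]
    exact Finset.mem_image_of_mem _ he
  have dbU : Dep (((S.env W 0 0).F \ S.G 0 : Finset _) : Set _) (orr (S.bd 0) (S.bd 1)) := by
    have key : ∀ j < 2, Dep (((S.env W 0 0).F \ S.G 0 : Finset _) : Set _) (S.bd j) := by
      intro j hj
      refine HCmp.Dep.mono' (dep_bd j) ?_
      intro x hx
      have hx' : x ∈ tubF S j := by exact_mod_cast hx
      have h3 : x ∈ (S.env W 0 0).F := hGF (3 * S.q) (by omega) (tubF_sub h hj hx')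
      exact_mod_cast Finset.mem_sdiff.mpr ⟨h3, tubF_off h hx'⟩
    exact dep_orr (key 0 (by norm_num)) (key 1 (by norm_num))
  have dbE : Dep DmE (orr (S.bd 0) (S.bd 1)) :=
    dep_orr (HCmp.Dep.mono' (dep_bd 0) (tE 0 (by norm_num))) (HCmp.Dep.mono' (dep_bd 1) (tE 1 (by norm_num)))
  refine chain2 (bT := bdT S N) (b := orr (S.bd 0) (S.bd 1)) (Y := Yo S W) hC (hGF 0 (by omega)) H hL hDE hD0
    (dep_WZ (Finset.Subset.refl _) _) (fun e he => dep_WZ1) (dep_bdT_G0 h)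
    (HCmp.Dep.mono' (dep_bdT N) (Set.iUnion_subset bE)) (HCmp.Dep.mono' (dep_bdT N) (Set.iUnion_subset b0))
    (dep_bdT_off ?_) dbU dbE dep_Yo (orr_01 (Slb.bd_01 (S := S) 0) (Slb.bd_01 (S := S) 1)) (bdT_01 N) ?_
    h1 h2 hjK PE P0 hsE hs0
  · intro g hg i
    obtain ⟨f, hf, rfl⟩ := Finset.mem_image.mp hg
    rw [hφ f hf]
    exact hoff f hf i
  · intro ω h3 h4
    have h5 : S.bd 0 ω = 0 ∧ S.bd 1 ω = 0 := by
      unfold orr at h3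
      rcases Slb.bd_01 (S := S) 0 ω with h6 | h6 <;> rcases Slb.bd_01 (S := S) 1 ω with h7 | h7 <;>
        rw [h6, h7] at h3 <;> norm_num at h3 <;> exact ⟨h6, h7⟩
    obtain ⟨h6, h7⟩ := same_E h hW hN h5.1 h5.2 h4
    refine ⟨h6, fun e he => ?_⟩
    rw [hν e he]
    exact h7 _ hB' hoff e he

end

end Pool.Agent.SixB.SlbD
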