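import Pool.Agent.Lib.SixB.S3HPkI
import Pool.Agent.Lib.SixB.S3SlbH
import Pool.Agent.Lib.SixB.S3OutG
import Pool.Agent.Lib.SixB.S3PolyAtl

/-!
# 6BD step 3.8 (R18): discs, tubes and half boxes against the special boxes (helper53 for helper93)

* `centre`: the charts of the special vertices of the polygon of a slab have no centre on or between the walls of the
  slab; `box_DmD`: their boxes do not meet `S.DmD`; `hcen`: the centres are far from the slab.
* `DmE_sub`: `S.DmE` is off the small special boxes of the environment.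
* `BR_D`, `disc_hB`, `disc_DmD`, `disc_DmE`, `disc_F`, `disc_chart`: the discs of the comparison.
* `phD_sh`, `phD_DmE`, `DmE_phD`, `phD_tub`: the embedding of the polygon; `tub_DmE`, `bxT_DmD`, `bxT_DmE`: tubes and
  half boxes.
-/

set_option autoImplicit false
set_option linter.unusedSectionVars false

namespace Pool.Agent.SixB.HOffE

open Pool.Agent.Perc Pool.Agent.Perc.Q Pool.Agent.PercD Pool.Agent.PercN Pool.Agent.SixB
open Pool.Agent.SixB.PolyAtl (qf qf0 qf1 qf2 qf3 lside_out lside_in bS_iff_lside dz0 dz1 dz2 dz3)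
open Pool.Agent.SixB.MthD (Win em)

noncomputable section

variable {S : Slb} {W : Finset (ℤ × ℤ)}

/-! ## The centres of the special charts -/

section Centre

variable {m : ℕ} {o : ZMod 4} {v : ℤ × ℤ} {R : ℕ} {K : SK}

theorem qf_out {D : Finset (ℤ × ℤ)} (c : WChart ZQ D m o v R) (hs : ∀ a, c.side a = a) (hR : 0 < R) :
    qf v o ∈ D ∧ qf v (o + 3) ∉ D := by
  have h1 : (v, v + dz o) ∈ wOut o v R := by
    unfold wOut
    exact Finset.mem_image.mpr ⟨0, Finset.mem_range.mpr hR, by simp⟩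
  have h2 := c.bOut _ h1
  rw [hs, bS_iff_lside] at h2
  exact_mod_cast lside_out.mp h2

theorem qf_in {D : Finset (ℤ × ℤ)} (c : WChart ZQ D m o v R) (hs : ∀ a, c.side a = a) (hR : 0 < R) :
    qf v (o + m + 3) ∈ D ∧ qf v (o + m) ∉ D := by
  have h1 : (v + dz (o + m), v) ∈ wIn (o + m) v R := by
    unfold wIn
    exact Finset.mem_image.mpr ⟨0, Finset.mem_range.mpr hR, by simp⟩
  have h2 := c.bIn _ h1
  rw [hs, bS_iff_lside] at h2
  have h3 : v + dz (o + m) = v - dz (o + m + 2) := by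
    generalize o + (m : ZMod 4) = e
    rcases EnvB.k4 e with rfl | rfl | rfl | rfl
    · rw [dz0, show (0 : ZMod 4) + 2 = 2 from rfl, dz2]; ext <;> simp
    · rw [dz1, show (1 : ZMod 4) + 2 = 3 from rfl, dz3]; ext <;> simp
    · rw [dz2, show (2 : ZMod 4) + 2 = 0 from rfl, dz0]; ext <;> simp [sub_eq_add_neg]
    · rw [dz3, show (3 : ZMod 4) + 2 = 1 from rfl, dz1]; ext <;> simp [sub_eq_add_neg]
  rw [h3] at h2
  have h4 := lside_in.mp h2
  have e1 : o + (m : ZMod 4) + 2 + 1 = o + m + 3 := by ring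
  have e2 : o + (m : ZMod 4) + 2 + 2 = o + m := by
    rw [add_assoc (o + (m : ZMod 4))]
    rw [show (2 : ZMod 4) + 2 = 0 from rfl, add_zero]
  rw [e1, e2] at h4
  exact_mod_cast h4

/-- **No special centre on or between the walls of the slab.** -/
theorem centre (h : S.Ok) (c : WChart ZQ S.D m o v R) (hs : ∀ a, c.side a = a) (hR : 0 < R)
    (hm : 1 ≤ m ∧ m ≤ 3) (hJ : SJump c K S.ψ) (hK : ∀ J, K = .ver J → m ≠ 2 ∨ J ≠ 0) :
    ¬ (S.x1 ≤ v.1 ∧ v.1 ≤ S.x2 ∧ S.yc - S.k < v.2 ∧ v.2 < S.yc + S.k) := by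
  rintro ⟨h1, h2, h3, h4⟩
  have hx := h.slab.hx
  obtain ⟨o1, o2⟩ := qf_out c hs hR
  obtain ⟨i1, i2⟩ := qf_in c hs hR
  obtain ⟨x, y⟩ := v
  simp only at h1 h2 h3 h4
  have out0 : ((x, y), (x, y) + dz o) ∈ wOut o (x, y) R := by
    unfold wOut
    exact Finset.mem_image.mpr ⟨0, Finset.mem_range.mpr hR, by simp⟩
  have in0 : ((x, y) + dz (o + m), (x, y)) ∈ wIn (o + m) (x, y) R := by
    unfold wIn
    exact Finset.mem_image.mpr ⟨0, Finset.mem_range.mpr hR, by simp⟩
  rcases eq_or_lt_of_le h1 with h5 | h5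
  · -- left wall
    subst h5
    have d0 : qf (S.x1, y) 0 ∈ S.D := by
      rw [qf0]; exact_mod_cast h.slab.sub _ _ le_rfl hx (by omega) (by omega)
    have d3 : qf (S.x1, y) 3 ∈ S.D := by
      rw [qf3]; exact_mod_cast h.slab.sub _ _ le_rfl hx (by simp only; omega) (by simp only; omega)
    have d1 : qf (S.x1, y) 1 ∉ S.D := by
      rw [qf1]; exact_mod_cast h.slab.left _ (by simp only; omega) (by simp only; omega)
    have d2 : qf (S.x1, y) 2 ∉ S.D := by
      rw [qf2]; exact_mod_cast h.slab.left _ (by simp only; omega) (by simp only; omega)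
    have ho : o = 3 := by
      rcases EnvB.k4 o with rfl | rfl | rfl | rfl
      · exact absurd d3 o2
      · exact absurd o1 d1
      · exact absurd o1 d2
      · rfl
    subst ho
    have hm2 : m = 2 := by
      obtain ⟨a1, a2⟩ := hm
      have : m = 1 ∨ m = 2 ∨ m = 3 := by omega
      rcases this with rfl | rfl | rfl
      · exact absurd d0 i2
      · rfl
      · exact absurd i1 d1
    subst hm2
    have e1 : S.ψ ((S.x1, y), (S.x1, y - 1)) = S.ρl := by
      have := h.left (y - 1) (by omega) (by omega)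
      rwa [sub_add_cancel] at this
    have e2 : S.ψ ((S.x1, y + 1), (S.x1, y)) = S.ρl := h.left y (by omega) (by omega)
    have f1 : c.side ((S.x1, y), (S.x1, y) + dz 3) = ((S.x1, y), (S.x1, y - 1)) := by
      rw [hs, dz3]
      ext <;> simp [sub_eq_add_neg]
    have f2 : c.side ((S.x1, y) + dz (3 + (2 : ℕ)), (S.x1, y)) = ((S.x1, y + 1), (S.x1, y)) := by
      rw [hs, show (3 : ZMod 4) + (2 : ℕ) = 1 from rfl, dz1]
      ext <;> simp
    cases K with
    | ver J =>
      obtain ⟨p, q, g1, g2, g3⟩ := hJ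
      have g4 := g1 _ in0
      have g5 := g2 _ out0
      rw [f2, e2] at g4
      rw [f1, e1] at g5
      rcases hK J rfl with h6 | h6
      · exact h6 rfl
      · apply h6
        rw [← g3, ← g4, ← g5]
        simp
    | e =>
      obtain ⟨-, p, g1, g2, -⟩ := hJ
      have g4 := g1 _ in0
      unfold eS at g2
      rw [f2, e2] at g4
      rw [f1, e1] at g2
      have := Real.pi_pos
      linarith
    | em =>
      obtain ⟨-, p, g1, g2, -⟩ := hJ
      have g4 := g1 _ in0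
      unfold eS at g2
      rw [f2, e2] at g4
      rw [f1, e1] at g2
      have := Real.pi_pos
      linarith
  rcases eq_or_lt_of_le h2 with h6 | h6
  · -- right wall
    subst h6
    have d1 : qf (S.x2, y) 1 ∈ S.D := by
      rw [qf1]; exact_mod_cast h.slab.sub _ _ (by simp only; omega) (by simp only; omega)
        (by simp only; omega) (by simp only; omega)
    have d2 : qf (S.x2, y) 2 ∈ S.D := by
      rw [qf2]; exact_mod_cast h.slab.sub _ _ (by simp only; omega) (by simp only; omega)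
        (by simp only; omega) (by simp only; omega)
    have d0 : qf (S.x2, y) 0 ∉ S.D := by
      rw [qf0]; exact_mod_cast h.slab.right _ (by simp only; omega) (by simp only; omega)
    have d3 : qf (S.x2, y) 3 ∉ S.D := by
      rw [qf3]; exact_mod_cast h.slab.right _ (by simp only; omega) (by simp only; omega)
    have ho : o = 1 := by
      rcases EnvB.k4 o with rfl | rfl | rfl | rfl
      · exact absurd o1 d0
      · rfl
      · exact absurd d1 o2
      · exact absurd o1 d3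
    subst ho
    have hm2 : m = 2 := by
      obtain ⟨a1, a2⟩ := hm
      have : m = 1 ∨ m = 2 ∨ m = 3 := by omega
      rcases this with rfl | rfl | rfl
      · exact absurd d2 i2
      · rfl
      · exact absurd i1 d3
    subst hm2
    have e1 : S.ψ ((S.x2, y), (S.x2, y + 1)) = S.ρr := h.right y (by omega) (by omega)
    have e2 : S.ψ ((S.x2, y - 1), (S.x2, y)) = S.ρr := by
      have := h.right (y - 1) (by omega) (by omega)
      rwa [sub_add_cancel] at this
    have f1 : c.side ((S.x2, y), (S.x2, y) + dz 1) = ((S.x2, y), (S.x2, y + 1)) := by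
      rw [hs, dz1]
      ext <;> simp
    have f2 : c.side ((S.x2, y) + dz (1 + (2 : ℕ)), (S.x2, y)) = ((S.x2, y - 1), (S.x2, y)) := by
      rw [hs, show (1 : ZMod 4) + (2 : ℕ) = 3 from rfl, dz3]
      ext <;> simp [sub_eq_add_neg]
    cases K with
    | ver J =>
      obtain ⟨p, q, g1, g2, g3⟩ := hJ
      have g4 := g1 _ in0
      have g5 := g2 _ out0
      rw [f2, e2] at g4
      rw [f1, e1] at g5
      rcases hK J rfl with h6 | h6
      · exact h6 rfl
      · apply h6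
        rw [← g3, ← g4, ← g5]
        simp
    | e =>
      obtain ⟨-, p, g1, g2, -⟩ := hJ
      have g4 := g1 _ in0
      unfold eS at g2
      rw [f2, e2] at g4
      rw [f1, e1] at g2
      have := Real.pi_pos
      linarith
    | em =>
      obtain ⟨-, p, g1, g2, -⟩ := hJ
      have g4 := g1 _ in0
      unfold eS at g2
      rw [f2, e2] at g4
      rw [f1, e1] at g2
      have := Real.pi_pos
      linarith
  · -- between the walls
    have all : ∀ q, qf (x, y) q ∈ S.D := by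
      intro q
      rcases EnvB.k4 q with rfl | rfl | rfl | rfl
      · rw [qf0]; exact_mod_cast h.slab.sub _ _ (by simp only; omega) (by simp only; omega)
          (by simp only; omega) (by simp only; omega)
      · rw [qf1]; exact_mod_cast h.slab.sub _ _ (by simp only; omega) (by simp only; omega)
          (by simp only; omega) (by simp only; omega)
      · rw [qf2]; exact_mod_cast h.slab.sub _ _ (by simp only; omega) (by simp only; omega)
          (by simp only; omega) (by simp only; omega)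
      · rw [qf3]; exact_mod_cast h.slab.sub _ _ (by simp only; omega) (by simp only; omega)
          (by simp only; omega) (by simp only; omega)
    exact o2 (all _)

/-- **The boxes of the special charts do not meet the window of the slab.** -/
theorem box_DmD_of (h : S.Ok) (c : WChart ZQ S.D m o v R) (hs : ∀ a, c.side a = a) (hf : ∀ f, c.φF f = f)
    (hR : 0 < R) (hm : 1 ≤ m ∧ m ≤ 3) (hJ : SJump c K S.ψ) (hK : ∀ J, K = .ver J → m ≠ 2 ∨ J ≠ 0)
    {ρ : ℕ} (h1 : ρ ≤ R) (h2 : ρ + S.k / 2 < S.k) {g : ℤ × ℤ} (hg : g ∈ Wdg m o v ρ) : g ∉ S.DmD := by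
  rintro ⟨h3, h4, h5, h6⟩
  have hx := h.slab.hx
  have key : ∀ f ∈ Wdg m o v ρ, f ∈ S.D := by
    intro f hf'
    have h7 := c.sub f (Wdg_mono h1 hf')
    rwa [hf] at h7
  have hgW := hg
  rw [SixB.mem_Wdg] at hgW
  obtain ⟨⟨b1, b2, b3, b4⟩, b5⟩ := hgW
  have hv2 : S.yc - S.k < v.2 ∧ v.2 < S.yc + S.k := by omega
  refine centre h c hs hR hm hJ hK ⟨?_, ?_, hv2.1, hv2.2⟩
  · by_contra hcon
    have h7 : (S.x1 - 1, g.2) ∈ Wdg m o v ρ := by
      rw [SixB.mem_Wdg]
      refine ⟨⟨by simp only; omega, by simp only; omega, b3, b4⟩, ?_⟩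
      have e : quad v (S.x1 - 1, g.2) = quad v g := by
        unfold quad
        have q1 : v.1 ≤ S.x1 - 1 := by omega
        have q2 : v.1 ≤ g.1 := by omega
        simp only [q1, q2, if_true]
      rw [e]
      exact b5
    exact h.slab.left g.2 (by omega) (by omega) (by exact_mod_cast key _ h7)
  · by_contra hcon
    have h7 : (S.x2, g.2) ∈ Wdg m o v ρ := by
      rw [SixB.mem_Wdg]
      refine ⟨⟨by simp only; omega, by simp only; omega, b3, b4⟩, ?_⟩
      have e : quad v (S.x2, g.2) = quad v g := by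
        unfold quad
        have q1 : ¬ v.1 ≤ S.x2 := by omega
        have q2 : ¬ v.1 ≤ g.1 := by omega
        simp only [q1, q2, if_false]
      rw [e]
      exact b5
    exact h.slab.right g.2 (by omega) (by omega) (by exact_mod_cast key _ h7)

end Centre

/-! ## Flat atlases of the polygon -/

section Atl

variable {ZD CD : Finset ((ℤ × ℤ) × (ℤ × ℤ))} {r nS nN : ℕ} {t₀ : ℝ}

/-- no flat special vertex with the jump `0` -/
def NoFake {V Φ : Type} [DecidableEq V] [DecidableEq Φ] {Q : QC V Φ} {F : Finset Φ} {ψ : V × V → ℝ}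
    {Z C : Finset (V × V)} {r nS nN : ℕ} {t₀ : ℝ} (A : PAtlas Q F ψ Z C r nS nN t₀) : Prop :=
  ∀ i J, A.K i = .ver J → A.m i ≠ 2 ∨ J ≠ 0

variable (AD : PAtlas ZQ S.D S.ψ ZD CD r nS nN t₀)

theorem centre_off (h : S.Ok) (hF : AD.Flat) (hK : NoFake AD) (i : AD.κ) :
    ¬ (S.x1 ≤ (AD.v i).1 ∧ (AD.v i).1 ≤ S.x2 ∧ S.yc - S.k < (AD.v i).2 ∧ (AD.v i).2 < S.yc + S.k) :=
  centre h (AD.ch i) (hF.s i) (by omega) (AD.m_rng i) (AD.jmp i) (hK i)

theorem box_DmD (h : S.Ok) (hF : AD.Flat) (hK : NoFake AD) {ρ : ℕ} (h1 : ρ ≤ 4 * r + 1)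
    (h2 : ρ + S.k / 2 < S.k) (i : AD.κ) {g : ℤ × ℤ} (hg : g ∈ Wdg (AD.m i) (AD.o i) (AD.v i) ρ) :
    g ∉ S.DmD :=
  box_DmD_of h (AD.ch i) (hF.s i) (hF.sF i) (by omega) (AD.m_rng i) (AD.jmp i) (hK i) h1 h2 hg

/-- **The centres are far from the slab.** -/
theorem hcen (h : S.Ok) (hF : AD.Flat) (hK : NoFake AD) (hr : 8 * r + S.a < S.k)
    (th : ∀ f ∈ S.D, S.yc - S.k ≤ f.2 → f.2 < S.yc + S.k →
      ¬ (S.x1 - (8 * r + 2) ≤ f.1 ∧ f.1 < S.x1) ∧ ¬ (S.x2 ≤ f.1 ∧ f.1 < S.x2 + (8 * r + 2))) (i : AD.κ) :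
    ¬ nearS S.x1 S.x2 (S.yc - S.a) (S.yc + S.a) (8 * r) (AD.v i) := by
  intro hn
  unfold nearS at hn
  push_cast at hn
  obtain ⟨n1, n2, n3, n4⟩ := hn
  have hx := h.slab.hx
  obtain ⟨o1, -⟩ := qf_out (AD.ch i) (hF.s i) (by omega)
  refine centre_off AD h hF hK i ?_
  have hq : (qf (AD.v i) (AD.o i) = ((AD.v i).1, (AD.v i).2) ∨
      qf (AD.v i) (AD.o i) = ((AD.v i).1 - 1, (AD.v i).2)) ∨
      qf (AD.v i) (AD.o i) = ((AD.v i).1 - 1, (AD.v i).2 - 1) ∨
      qf (AD.v i) (AD.o i) = ((AD.v i).1, (AD.v i).2 - 1) := by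
    generalize AD.o i = o
    rcases EnvB.k4 o with rfl | rfl | rfl | rfl
    · exact Or.inl (Or.inl (qf0 _))
    · exact Or.inl (Or.inr (qf1 _))
    · exact Or.inr (Or.inl (qf2 _))
    · exact Or.inr (Or.inr (qf3 _))
  have key : ∀ f : ℤ × ℤ, f = qf (AD.v i) (AD.o i) → S.yc - S.k ≤ f.2 → f.2 < S.yc + S.k →
      ¬ (S.x1 - (8 * r + 2) ≤ f.1 ∧ f.1 < S.x1) ∧ ¬ (S.x2 ≤ f.1 ∧ f.1 < S.x2 + (8 * r + 2)) := by
    rintro f rfl
    exact th _ o1
  rcases hq with (hq | hq) | hq | hq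
  · have := key _ hq.symm (by simp only; omega) (by simp only; omega)
    simp only at this
    omega
  · have := key _ hq.symm (by simp only; omega) (by simp only; omega)
    simp only at this
    omega
  · have := key _ hq.symm (by simp only; omega) (by simp only; omega)
    simp only at this
    omega
  · have := key _ hq.symm (by simp only; omega) (by simp only; omega)
    simp only at this
    omega

/-- faces of the polygon in `S.DmE` -/
theorem DmE_face (h : S.Ok) (hW : Win S W) {g : ℤ × ℤ} (hg : g ∈ S.D)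
    (hx : (em h hW).φF g ∈ S.DmE) : g ∈ S.DmD := by
  obtain ⟨h1, h2⟩ := hx
  have d := h.eData hW.slab
  have ha := h.ha
  have hak := h.hak
  have hxx := h.slab.hx
  have e1 : ((em h hW).φF g).1 = Emb.shF (S.env W 0 0) g := rfl
  have e2 : ((em h hW).φF g).2 = g := rfl
  rw [e2] at h2
  rw [e1, e2] at h1
  rcases h2 with h2 | ⟨h3, h4, h5, h6⟩
  · exact h2
  · have h7 : MthD.sh S g = none := by
      unfold MthD.sh
      rw [if_neg (by omega), if_neg (by omega)]
    rw [h7] at h1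
    rcases Emb.mem_cases d hg with h8 | h8 | h8
    · unfold Emb.shF at h1
      rw [if_pos h8.1] at h1
      exact absurd h1 (by simp)
    · unfold Emb.shF at h1
      rw [if_neg h8.2.1, if_pos h8.1] at h1
      exact absurd h1 (by simp)
    · have h9 := h8.1
      rw [mem_RF] at h9
      exact ⟨h9.1, h9.2.1, by omega, by omega⟩

/-- `S.DmE` is off the special vertices of the blocks -/
theorem DmE_Spb (h : S.Ok) (hW : BlkW.OWin S r W) (h1 : 2 * (S.a + 1) ≤ r) (h2 : 64 * r ≤ S.k)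
    {x : Option Bool × (ℤ × ℤ)} (hx : x ∈ S.DmE) : x ∉ BlkW.Spb (S.env W 0 0) r := by
  rintro ⟨h3, j, hj⟩
  obtain ⟨h4, h5⟩ := hx
  have hK := BlkW.kap_of h hW h1 h2
  rw [h3] at h4
  have h6 : S.yc - S.a ≤ x.2.2 ∧ x.2.2 < S.yc + S.a := by
    unfold MthD.sh at h4
    by_contra hcon
    by_cases h7 : S.yc + S.a ≤ x.2.2
    · rw [if_pos h7] at h4
      exact absurd h4 (by simp)
    · rw [if_neg h7, if_pos (by omega)] at h4
      exact absurd h4 (by simp)
  have e1 : (S.env W 0 0).gu.a = S.a := rfl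
  have e3 : (S.env W 0 0).gu.yc = S.yc := rfl
  have e4 : (S.env W 0 0).gu.k = S.k := rfl
  unfold SixB.Bx at hj
  rw [Finset.mem_product, Finset.mem_Ico, Finset.mem_Ico] at hj
  obtain ⟨-, h7, h8⟩ := hj
  obtain ⟨b, j⟩ := j
  have hH := hK.Hc_ge j
  cases b
  · rw [hK.vt_false, e3] at h7 h8
    simp only at h7 h8
    omega
  · rw [BlkW.vt_true, e3] at h7 h8
    simp only at h7 h8
    omega

/-- **`S.DmE` is off the small special boxes of the environment.** -/
theorem DmE_sub (h : S.Ok) (hW : BlkW.OWin S r W) (h1 : 2 * (S.a + 1) ≤ r) (h2 : 64 * r ≤ S.k)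
    (hF : AD.Flat) (hK : NoFake AD) : S.DmE ⊆ {x | x ∉ BlkW.Spb (S.env W 0 0) r ∧
      ∀ j, x ∉ (Wdg (AD.m j) (AD.o j) (AD.v j) (r / 2)).image (em h (hW.win h)).φF} := by
  intro x hx
  refine ⟨DmE_Spb h hW h1 h2 hx, fun j hj => ?_⟩
  obtain ⟨g, hg, rfl⟩ := Finset.mem_image.mp hj
  have hgD : g ∈ S.D := by
    have h7 := (AD.ch j).sub g (Wdg_mono (by omega) hg)
    rwa [hF.sF] at h7
  have hk := h.hak
  have ha := h.ha
  exact box_DmD AD h hF hK (ρ := r / 2) (by omega) (by omega) j hg (DmE_face h (hW.win h) hgD hx)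

end Atl

/-! ## The discs -/

section Disc

variable {v f : ℤ × ℤ} {K R : ℕ}

/-- **The discs with a margin lie in the polygon.** -/
theorem BR_D (h : S.Ok) (hv : S.DscC v K) (hR : 64 * R ≤ S.k) : BR v (2 ^ K + 8 * R + 1) ⊆ S.D := by
  intro f hf
  rw [mem_BR] at hf
  obtain ⟨h1, h2, h3, h4⟩ := hv
  have ha := h.ha
  have hk := h.hak
  have h5 : -(S.k : ℤ) ≤ 4 * (v.2 - S.yc) ∧ 4 * (v.2 - S.yc) ≤ S.k := by
    have h6 := abs_le.mp (show |4 * (v.2 - S.yc)| ≤ (S.k : ℤ) by rw [abs_mul]; simpa using h2)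
    exact h6
  exact_mod_cast h.slab.sub f.1 f.2 (by omega) (by omega) (by omega) (by omega)

theorem disc_pos (hv : S.DscC v K) (hf : f ∈ BR v (2 ^ K)) :
    S.x1 + S.k ≤ f.1 ∧ f.1 < S.x2 - S.k ∧ S.yc - (S.k / 2 : ℕ) ≤ f.2 ∧ f.2 < S.yc + (S.k / 2 : ℕ) := by
  rw [mem_BR] at hf
  obtain ⟨h1, h2, h3, h4⟩ := hv
  have h5 : -(S.k : ℤ) ≤ 4 * (v.2 - S.yc) ∧ 4 * (v.2 - S.yc) ≤ S.k := by
    have h6 := abs_le.mp (show |4 * (v.2 - S.yc)| ≤ (S.k : ℤ) by rw [abs_mul]; simpa using h2)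
    exact h6
  omega

/-- the disc in the form of `SlbD.chain_E` -/
theorem disc_hB (hv : S.DscC v K) : ∀ f ∈ BR v (2 ^ K), S.x1 + S.k ≤ f.1 ∧ f.1 < S.x2 - S.k ∧
    S.yc - S.k ≤ f.2 ∧ f.2 < S.yc + S.k := by
  intro f hf
  have := disc_pos hv hf
  omega

theorem disc_DmD (hv : S.DscC v K) (hf : f ∈ BR v (2 ^ K)) : f ∈ S.DmD := by
  obtain ⟨h1, h2, h3, h4⟩ := disc_pos hv hf
  exact ⟨by omega, by omega, h3, h4⟩

theorem DmD_D (h : S.Ok) (hf : f ∈ S.DmD) : f ∈ S.D := by
  obtain ⟨h1, h2, h3, h4⟩ := hf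
  exact_mod_cast h.slab.sub f.1 f.2 h1 h2 (by omega) (by omega)

/-- the sheet of a face of the window of the slab -/
theorem phD_sh (h : S.Ok) (hf : f ∈ S.DmD) : S.phD f = (MthD.sh S f, f) := by
  obtain ⟨h1, h2, h3, h4⟩ := hf
  exact MthD.em_face h SlbD.win_bigW h1 h2 (by omega) (by omega)

theorem phD_DmE (h : S.Ok) (hf : f ∈ S.DmD) : S.phD f ∈ S.DmE := by
  rw [phD_sh h hf]
  exact ⟨rfl, Or.inl hf⟩

theorem DmE_phD (h : S.Ok) (hf : f ∈ S.D) (hx : S.phD f ∈ S.DmE) : f ∈ S.DmD :=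
  DmE_face h SlbD.win_bigW hf hx

/-- **The discs lie in `S.DmE`.** -/
theorem disc_DmE (h : S.Ok) (hv : S.DscC v K) :
    (((BR v (2 ^ K)).image S.phD : Finset _) : Set (Option Bool × (ℤ × ℤ))) ⊆ S.DmE := by
  intro x hx
  rw [Finset.mem_coe] at hx
  obtain ⟨f, hf, rfl⟩ := Finset.mem_image.mp hx
  exact phD_DmE h (disc_DmD hv hf)

/-- the faces of the polygon are faces of the environment -/
theorem phD_F (h : S.Ok) (hW : Win S W) (hf : f ∈ S.D) : S.phD f ∈ (S.env W 0 0).F :=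
  h.chartF hW.slab f hf

/-- the faces of the polygon are not faces of the tubes -/
theorem phD_tub (h : S.Ok) (hf : f ∈ S.D) (j : ℕ) : S.phD f ∉ SlbD.tubF S j := by
  intro hc
  refine SlbD.tubF_off h hc ?_
  rw [← h.imageD]
  exact Finset.mem_image_of_mem _ hf

/-- the window of radius `M` contains the slab and the tubes -/
theorem win_M {M : ℤ} (hM : Asm3.bx S 0 0 ≤ M) : Win S (RFb (0, 0) M) := by
  intro f h1 h2 h3 h4
  have e : Asm3.bx S 0 0 = |S.x1| + |S.x2| + |S.yc| + 2 * |(0 : ℤ)| + 2 * |(0 : ℤ)| + 10 * S.k + S.a +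
    (S.x2 - S.x1).toNat + 2 := rfl
  rw [abs_zero] at e
  have a1 := neg_abs_le S.x1
  have a2 := le_abs_self S.x2
  have a3 := neg_abs_le S.yc
  have a4 := le_abs_self S.yc
  have a5 := abs_nonneg S.x1
  have a6 := abs_nonneg S.x2
  rw [mem_RFb]
  refine ⟨?_, ?_, ?_, ?_⟩ <;> simp only <;> omega

/-- the disc in the environment of the window `M` -/
theorem disc_F (h : S.Ok) {M : ℤ} (hM : Asm3.bx S 0 0 ≤ M) (hv : S.DscC v K) :
    ∀ f ∈ BR v (2 ^ K), S.phD f ∈ (Rel.win (S.env ∅ 0 0) M).F := fun _ hf =>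
  phD_F h (win_M hM) (DmD_D h (disc_DmD hv hf))

/-- the chart of the disc -/
theorem disc_chart (h : S.Ok) (W : Finset (ℤ × ℤ)) (hv : S.DscC v K) :
    Rel.QChart ZQ (S.env W 0 0).Q (BR v (2 ^ K)) S.nuD S.phD 0 :=
  (h.chartD W).mono fun _ hf => DmD_D h (disc_DmD hv hf)

end Disc

/-! ## Tubes and half boxes -/

theorem tub_DmE (h : S.Ok) {j : ℕ} (hj : j < 2) :
    ((SlbD.tubF S j : Finset _) : Set (Option Bool × (ℤ × ℤ))) ⊆ S.DmE := by
  intro x hx
  rw [Finset.mem_coe, SlbD.mem_tubF] at hx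
  obtain ⟨h1, h2, h3⟩ := hx
  have hq : (0 : ℤ) ≤ S.q := Int.natCast_nonneg _
  have hxx := h.hx
  refine ⟨?_, Or.inr ?_⟩
  · rw [h1]
    unfold MthD.sh
    rw [if_neg (by omega), if_neg (by omega)]
  · interval_cases j <;> push_cast at h3 <;> rcases h3 with h3 | h3 <;>
      refine ⟨?_, ?_, h2.1, h2.2⟩ <;> linarith

theorem bxT_DmD (h : S.Ok) {i : Bool} {N : ℕ} {x : Option Bool × (ℤ × ℤ)} (hx : x ∈ SlbD.bxT S i N) :
    x.2 ∈ S.DmD := by
  obtain ⟨-, h2, -⟩ := SlbD.mem_bxT hx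
  have hxx := h.hx
  rw [MT.mem_HBx] at h2
  obtain ⟨⟨h3, h4, h5, h6⟩, h7⟩ := h2
  cases i
  · simp only [SlbD.tv, cond_false] at h3 h4 h5 h6 h7
    rcases h7 with h7 | h7
    · exact absurd h7.1 (by decide)
    · exact ⟨h7.2, by omega, h5, h6⟩
  · simp only [SlbD.tv, cond_true] at h3 h4 h5 h6 h7
    rcases h7 with h7 | h7
    · exact ⟨by omega, h7.2, h5, h6⟩
    · exact absurd h7.1 (by decide)

theorem bxT_DmE (h : S.Ok) (i : Bool) (N : ℕ) :
    ((SlbD.bxT S i N : Finset _) : Set (Option Bool × (ℤ × ℤ))) ⊆ S.DmE := by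
  intro x hx
  rw [Finset.mem_coe] at hx
  exact ⟨(SlbD.mem_bxT hx).1, Or.inl (bxT_DmD h hx)⟩

end

end Pool.Agent.SixB.HOffE
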