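import Pool.Agent.Lib.SixB.S3AtlUp
import Pool.Agent.Lib.SixB.S3PolyTy
import Pool.Agent.Lib.SixB.S3HStp
import Pool.Agent.Lib.SixB.S3WZ3
import Pool.Agent.Lib.SixB.S3KindD
import Pool.Agent.Lib.SixB.CADomGeo

/-!
# 6BD step 3.8 (R18): the package of the polygon in the plane, upper side

Polygon `D = rf n P`, contour `G`, jumps `j`, `Spc P n N G j ψ S K r t₀`.
* `act G j S`: the special positions which are corners or have a jump; `Spc.act`: they satisfy `Spc`;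
  `prod_act`: the product of the local factors does not change.
* `Far D L ρ`: the faces at sup distance at most `ρ` from `L` are in `D`; `Far.off_box`, `Far.off_side`: such a set has no
  face and no side in a box of radius `< ρ` at a contour vertex.
* `offB G S ρ`: the faces off the boxes of radius `ρ` of `S`.
* `upD`: for every polygon: constant `C`, for all scales and all discs `L` with `Far D L (4 r + 1)`:
  `HCmp.Up` with the bound `C * ∏ sF`.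
-/

set_option autoImplicit false
set_option linter.unusedSectionVars false

namespace Pool.Agent.SixB.PkD

open Pool.Agent.Perc Pool.Agent.Perc.Q Finset
open Pool.Agent.SixB Pool.Agent.SixB.PolyAtl
open Pool.Agent.SixB.Rel (WZ1)

noncomputable section

attribute [local instance] Atlas.fκ Atlas.dκ Atlas.fι Atlas.fμ

variable {P : Finset (ℤ × ℤ)} {N n : ℕ} {G : ℤ → ℤ × ℤ} {j : ℤ → ℝ}
  {ψ : (ℤ × ℤ) × (ℤ × ℤ) → ℝ} {S : Finset ℤ} {K : ℤ → SK} {r : ℕ} {t₀ : ℝ}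

/-! ## Active positions -/

open Classical in
/-- the special positions which are corners or have a jump -/
def act (G : ℤ → ℤ × ℤ) (j : ℤ → ℝ) (S : Finset ℤ) : Finset ℤ :=
  S.filter fun x => mm G x ≠ 2 ∨ j x ≠ 0

theorem mem_act {x : ℤ} : x ∈ act G j S ↔ x ∈ S ∧ (mm G x ≠ 2 ∨ j x ≠ 0) := by
  unfold act
  rw [Finset.mem_filter]

theorem act_sub : act G j S ⊆ S := fun _ h => (mem_act.mp h).1

/-- the jumps are periodic -/
theorem j_per (h : Spc P n N G j ψ S K r t₀) (k q : ℤ) : j (k + q * N) = j k := by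
  have e1 := h.hc.per_mul k q
  have e2 := h.hc.per_mul (k + 1) q
  have e3 := h.hc.per_mul (k - 1) q
  rw [← h.hψ, ← h.hψ]
  unfold crs
  rw [show k + q * N + 1 = k + 1 + q * N by ring, show k + q * N - 1 = k - 1 + q * N by ring,
    e1, e2, e3]

theorem mk_ne (h : Spc P n N G j ψ S K r t₀) {x : ℤ} (hx : x ∈ S) (hK : SK.mk' (K x)) : j x ≠ 0 := by
  have hp := Real.pi_pos
  rcases hK with hK | hK
  · rw [(h.ke x hx hK).2.2.1]
    linarith
  · rw [(h.kem x hx hK).2.2.1]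
    linarith

/-- **The active positions.** -/
theorem spc_act (h : Spc P n N G j ψ S K r t₀) : Spc P n N G j ψ (act G j S) K r t₀ where
  hc := h.hc
  hψ := h.hψ
  hch := h.hch
  hr := h.hr
  hn := h.hn
  spec := by
    intro k hk
    obtain ⟨x, hx, q, h1⟩ := h.spec k hk
    refine ⟨x, mem_act.mpr ⟨hx, ?_⟩, q, h1⟩
    rcases h1 with h1 | ⟨h1, -⟩
    · rw [h1, mm_per h.hc, j_per h] at hk
      exact hk
    · exact Or.inr (mk_ne h hx h1)
  sep := fun x hx y hy => h.sep x (act_sub hx) y (act_sub hy)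
  ver := fun x hx => h.ver x (act_sub hx)
  ke := fun x hx => h.ke x (act_sub hx)
  kem := fun x hx => h.kem x (act_sub hx)

/-- the factors of the other special positions are one -/
theorem sF_nat (m r : ℕ) : sF (.ver 0) m r = 1 := by
  unfold sF
  have h1 : sT (.ver 0) = 1 := Dom.tJ_0
  rw [h1]
  simp only [one_pow]
  exact av_const 1

theorem prod_act (h : Spc P n N G j ψ S K r t₀) (ρ : ℕ) :
    ∏ x ∈ act G j S, sF (K x) (mm G x) ρ = ∏ x ∈ S, sF (K x) (mm G x) ρ := by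
  refine Finset.prod_subset act_sub fun x hx hn => ?_
  rw [mem_act] at hn
  push Not at hn
  obtain ⟨h1, h2⟩ := hn hx
  rcases hK : K x with J | _ | _
  · have h3 := (h.ver x hx J hK).1
    rw [h2] at h3
    rw [← h3, sF_nat]
  · exact absurd h2 (mk_ne h hx (Or.inl hK))
  · exact absurd h2 (mk_ne h hx (Or.inr hK))

theorem sF_pos' (h : Spc P n N G j ψ S K r t₀) (ht : 0 < t₀) {x : ℤ} (hx : x ∈ S) (ρ : ℕ) :
    0 < sF (K x) (mm G x) ρ := by
  have hm := mm_rng h.hc x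
  refine Kd.sF_pos ht hm.1 hm.2 ?_ ρ
  rcases hK : K x with J | _ | _
  · rcases (h.ver x hx J hK).2 with h1 | ⟨h1, h2⟩
    · exact Or.inl h1
    · refine Or.inr ⟨?_, h2⟩
      show tJ J = 0
      rw [h1]
      exact Dom.tJ_m1
  · exact Or.inr ⟨rfl, (h.ke x hx hK).1⟩
  · exact Or.inr ⟨rfl, (h.kem x hx hK).1⟩

theorem prod_pos (h : Spc P n N G j ψ S K r t₀) (ht : 0 < t₀) (ρ : ℕ) :
    0 < ∏ x ∈ S, sF (K x) (mm G x) ρ := Finset.prod_pos fun _ hx => sF_pos' h ht hx ρ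

/-! ## Far from the boundary -/

/-- the faces at sup distance at most `ρ` from `L` are in `D` -/
def Far (D L : Finset (ℤ × ℤ)) (ρ : ℕ) : Prop :=
  ∀ f ∈ L, ∀ g : ℤ × ℤ, |g.1 - f.1| ≤ ρ → |g.2 - f.2| ≤ ρ → g ∈ D

theorem Far.sub {D L : Finset (ℤ × ℤ)} {ρ : ℕ} (h : Far D L ρ) : L ⊆ D := fun f hf =>
  h f hf f (by rw [sub_self, abs_zero]; positivity) (by rw [sub_self, abs_zero]; positivity)

theorem Far.mono {D L : Finset (ℤ × ℤ)} {ρ ρ' : ℕ} (h : Far D L ρ) (hρ : ρ' ≤ ρ) : Far D L ρ' :=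
  fun f hf g h1 h2 => h f hf g (h1.trans (by exact_mod_cast hρ)) (h2.trans (by exact_mod_cast hρ))

/-- one of the four faces at a contour vertex is outside -/
theorem exists_out {D : Finset (ℤ × ℤ)} {N : ℕ} {G : ℤ → ℤ × ℤ} (hc : Cont D N G) (k : ℤ) :
    ∃ g : ℤ × ℤ, g ∉ D ∧ (g.1 = (G k).1 ∨ g.1 = (G k).1 - 1) ∧ (g.2 = (G k).2 ∨ g.2 = (G k).2 - 1) := by
  rcases hc.side k with ⟨-, -, h⟩ | ⟨-, -, h⟩ | ⟨-, -, h⟩ | ⟨-, -, h⟩
  · exact ⟨_, h, Or.inl rfl, Or.inr rfl⟩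
  · exact ⟨_, h, Or.inl rfl, Or.inl rfl⟩
  · exact ⟨_, h, Or.inr rfl, Or.inl rfl⟩
  · exact ⟨_, h, Or.inr rfl, Or.inr rfl⟩

theorem Far.off_box {D L : Finset (ℤ × ℤ)} {N ρ t : ℕ} {G : ℤ → ℤ × ℤ} (h : Far D L ρ)
    (hc : Cont D N G) (k : ℤ) (ht : t ≤ ρ) {m : ℕ} {o : ZMod 4} {f : ℤ × ℤ} (hf : f ∈ L) :
    f ∉ Wdg m o (G k) t := by
  intro h1
  rw [PolyAtl.mem_Wdg] at h1
  obtain ⟨⟨a1, a2, a3, a4⟩, -⟩ := h1
  obtain ⟨g, h2, h3, h4⟩ := exists_out hc k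
  refine h2 (h f hf g ?_ ?_)
  · rw [abs_le]
    rcases h3 with h3 | h3 <;> rw [h3] <;> constructor <;> omega
  · rw [abs_le]
    rcases h4 with h4 | h4 <;> rw [h4] <;> constructor <;> omega

/-- the faces at a common side -/
theorem side_near {f g : ℤ × ℤ} {k l : ZMod 4} (h : sd ZQ f k = sd ZQ g l ∨ sd ZQ f k = (sd ZQ g l).swap) :
    |g.1 - f.1| ≤ 1 ∧ |g.2 - f.2| ≤ 1 := by
  obtain ⟨a, b⟩ := f
  obtain ⟨c, d⟩ := g
  have key : ∀ (x : ℤ × ℤ) (k : ZMod 4), (x.1 ≤ (ZQ.c x k).1 ∧ (ZQ.c x k).1 ≤ x.1 + 1) ∧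
      x.2 ≤ (ZQ.c x k).2 ∧ (ZQ.c x k).2 ≤ x.2 + 1 := by
    intro x k
    rcases Emb.corner_cases x k with ⟨-, h6⟩ | ⟨-, h6⟩ | ⟨-, h6⟩ | ⟨-, h6⟩ <;> rw [h6] <;>
      simp
  have k1 := key (a, b) k
  have k2 := key (c, d) l
  have k3 := key (c, d) (l + 1)
  simp only at k1 k2 k3
  rw [abs_le, abs_le]
  rcases h with h | h
  · have h1 : ZQ.c (a, b) k = ZQ.c (c, d) l := congrArg Prod.fst h
    rw [h1] at k1
    simp only
    omega
  · have h1 : ZQ.c (a, b) k = ZQ.c (c, d) (l + 1) := congrArg Prod.fst h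
    rw [h1] at k1
    simp only
    omega

theorem Far.off_side {D L : Finset (ℤ × ℤ)} {N ρ t : ℕ} {G : ℤ → ℤ × ℤ} (h : Far D L ρ)
    (hc : Cont D N G) (k : ℤ) (ht : t + 1 ≤ ρ) {m : ℕ} {o : ZMod 4} {e : (ℤ × ℤ) × (ℤ × ℤ)}
    (he : e ∈ dE ZQ L) : e ∉ dE ZQ (Wdg m o (G k) t) := by
  intro h1
  obtain ⟨f, hf, a, h2⟩ := mem_dE.mp he
  obtain ⟨g, hg, b, h3⟩ := mem_dE.mp h1
  have h4 : sd ZQ f a = sd ZQ g b ∨ sd ZQ f a = (sd ZQ g b).swap := by
    rcases h2 with h2 | h2 <;> rcases h3 with h3 | h3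
    · exact Or.inl (h2.symm.trans h3)
    · exact Or.inr (h2.symm.trans h3)
    · refine Or.inr ?_
      rw [← h3, h2, Prod.swap_swap]
    · refine Or.inl ?_
      rw [← Prod.swap_swap (sd ZQ f a), ← Prod.swap_swap (sd ZQ g b), ← h2, ← h3]
  obtain ⟨h5, h6⟩ := side_near h4
  rw [PolyAtl.mem_Wdg] at hg
  obtain ⟨⟨a1, a2, a3, a4⟩, -⟩ := hg
  obtain ⟨u, h7, h8, h9⟩ := exists_out hc k
  rw [abs_le] at h5 h6
  refine h7 (h f hf u ?_ ?_)
  · rw [abs_le]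
    rcases h8 with h8 | h8 <;> rw [h8] <;> constructor <;> omega
  · rw [abs_le]
    rcases h9 with h9 | h9 <;> rw [h9] <;> constructor <;> omega

/-! ## The upper side -/

/-- the faces off the boxes of radius `ρ` of the positions `S` -/
def offB (G : ℤ → ℤ × ℤ) (S : Finset ℤ) (ρ : ℕ) : Set (ℤ × ℤ) :=
  {f | ∀ x ∈ S, f ∉ Wdg (mm G x) (dd G x) (G x) ρ}

/-- the disc is off the boxes -/
theorem Far.sub_offB {D L : Finset (ℤ × ℤ)} {N ρ t : ℕ} {G : ℤ → ℤ × ℤ} (h : Far D L ρ)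
    (hc : Cont D N G) (ht : t ≤ ρ) (S : Finset ℤ) : (L : Set (ℤ × ℤ)) ⊆ offB G S t := by
  intro f hf x _
  exact h.off_box hc x ht (by exact_mod_cast hf)

/-- **The package of a polygon, upper side.** -/
theorem upD (nS nN s : ℕ) (t₀ : ℝ) (h0 : 0 < t₀) (h1 : t₀ ≤ 1) :
    ∃ C : ℝ, 0 < C ∧ ∀ {P : Finset (ℤ × ℤ)} {N n : ℕ} {G : ℤ → ℤ × ℤ} {j : ℤ → ℝ}
      {ψ : (ℤ × ℤ) × (ℤ × ℤ) → ℝ} {S : Finset ℤ} {K : ℤ → SK} {r : ℕ},
      Spc P n N G j ψ S K r t₀ → S.card ≤ nS → N / r + 1 + 2 * S.card ≤ nN →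
      ∃ Bd : (ℤ × ℤ → Bool) → ℝ, ∀ L : Finset (ℤ × ℤ), Far (rf n P) L (4 * r + 1) →
        HCmp.Up (fun v : ℤ × ℤ => v) (fun f : ℤ × ℤ => f) L (rf n P)
          (WZ ZQ (rf n P) ψ (bS ZQ (rf n P))) (WZ1 ZQ (rf n P) ψ (bS ZQ (rf n P))) s
          (offB G (act G j S) (r / 2)) (C * ∏ x ∈ S, sF (K x) (mm G x) r) Bd := by
  obtain ⟨C, hC, h⟩ := atlas_hup_bd nS nN s t₀ h0 h1
  refine ⟨C, hC, ?_⟩
  intro P N n G j ψ S K r hS hcS hcN
  have hS' := spc_act hS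
  have hr : 0 < r := by
    have := hS.hr
    omega
  have hcard : (act G j S).card ≤ S.card := Finset.card_le_card act_sub
  have c1 : (act G j S).card ≤ nS := hcard.trans hcS
  have c2 : N / r + 1 + 2 * (act G j S).card ≤ nN := by omega
  set A := polyAtlas hS' c1 c2 with hA
  refine ⟨A.bd hr h0.le, fun L hL => ?_⟩
  have hQ := Tilt.zq_noLoop
  refine ⟨?_, ?_, ?_, ?_⟩
  · refine HCmp.DskI.of_ins (Rel.ins_WZ hQ (Finset.Subset.refl _) ψ) ?_ ?_
    · exact ⟨fun f _ g _ k l h => h, fun f _ k => by rw [add_zero]⟩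
    · intro f hf
      exact hL.sub hf
  · have h2 := h A hr (offB G (act G j S) (r / 2)) (by
      rintro ⟨x, hx⟩ f hf
      have e : ((A.ch ⟨x, hx⟩).box (r / 2)) = Wdg (mm G x) (dd G x) (G x) (r / 2) := by
        show (hS'.sch hx).box (r / 2) = _
        rw [Spc.sch, ct_box]
      intro h3
      have h4 : f ∈ (A.ch ⟨x, hx⟩).box (r / 2) := by exact_mod_cast h3
      rw [e] at h4
      exact hf x hx h4)
    have e2 : ∏ i, sF (A.K i) (A.m i) r = ∏ x ∈ S, sF (K x) (mm G x) r := by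
      rw [← prod_act hS r]
      exact Finset.prod_coe_sort (act G j S) fun x => sF (K x) (mm G x) r
    rw [e2] at h2
    exact h2
  · exact fun ω => A.abs_WZ_bd hr h0.le ω
  · intro ω e he _
    have hed : e ∈ dE ZQ (rf n P) := SixB.dE_mono hL.sub he
    classical
    refine Rel.cells_abs_WZ1_le hQ (A.cells hr h0.le) ω hed ?_ ?_
    · rintro (⟨c, hc⟩ | i) -
      · show e ∉ dE ZQ ((hS'.natc (hS'.cen_far hc)).box (2 * r))
        rw [Spc.natc, ct_box]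
        exact hL.off_side hS.hc c (by omega) he
      · exact i.elim
    · rintro ⟨x, hx⟩ -
      show e ∉ dE ZQ ((hS'.sch hx).box (4 * r))
      rw [Spc.sch, ct_box]
      exact hL.off_side hS.hc x (by omega) he

end

end Pool.Agent.SixB.PkD
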