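import Pool.Agent.Lib.SixB.S3PAtl

/-!
# 6BD step 3, R13: bigger bounds of the numbers of charts of an atlas
-/

set_option autoImplicit false
set_option linter.unusedSectionVars false

namespace Pool.Agent.SixB.LowP

open Pool.Agent.Perc.Q Pool.Agent.Perc
open Pool.Agent.SixB hiding Zs_split

noncomputable section

section bump

variable {V Φ : Type} [DecidableEq V] [DecidableEq Φ] {Q : QC V Φ} {F : Finset Φ} {ψ : V × V → ℝ}
  {Z C : Finset (V × V)} {r nS nN nS' nN' : ℕ} {t₀ t₁ : ℝ}

/-- bigger bounds of the numbers of charts, smaller lower bound of the weights -/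
def bump (A : PAtlas Q F ψ Z C r nS nN t₀) (hS : nS ≤ nS') (hN : nN ≤ nN') (ht : t₁ ≤ t₀) :
    PAtlas Q F ψ Z C r nS' nN' t₁ :=
  { A with
    tpos := fun i J hJ => (A.tpos i J hJ).imp ht.trans id
    cardS := A.cardS.trans hS
    cardN := A.cardN.trans hN
    cardM := A.cardM.trans hN }

/-- the same for atlases -/
def bumpA (A : Atlas Q F ψ Z r nS nN t₀) (hS : nS ≤ nS') (hN : nN ≤ nN') (ht : t₁ ≤ t₀) :
    Atlas Q F ψ Z r nS' nN' t₁ :=
  { A with
    tpos := fun i J hJ => (A.tpos i J hJ).imp ht.trans id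
    cardS := A.cardS.trans hS
    cardN := A.cardN.trans hN
    cardM := A.cardM.trans hN }

end bump

end

end Pool.Agent.SixB.LowP
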