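import Pool.Agent.Lib.SixB.S3HOff
import Pool.Agent.Lib.SixB.S3HOffE
import Pool.Agent.Lib.SixB.S3OutG
import Pool.Agent.Lib.SixB.S3LowCa
import Pool.Agent.Lib.SixB.S3HPkI


/-!
# 6BD step 3.8 (R18): the package of the environment of a slab at the scale of the blocks

* `PkE.DmE`: the faces off the boxes of the special vertices of the blocks and of the polygon.
* `PkE.up_env`, `PkE.pk_env`: upper and lower package for `S.env W 0 0` in a disc `L` with the margin `8 r + 1` in the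
  polygon; the lower bound is a hypothesis (`LowP.low_env0`).
* `PkE.disc_DmE`: the disc is in `DmE`.
-/

set_option autoImplicit false
set_option linter.unusedSectionVars false

namespace Pool.Agent.SixB.PkE

open Pool.Agent.Perc Pool.Agent.Perc.Q Pool.Agent.PercD Pool.Agent.PercN Pool.Agent.SixB
open Pool.Agent.SixB.WG
open Pool.Agent.SixB.Rel (QChart WZ1)
open Pool.Agent.SixB.MthD (em)

noncomputable section

attribute [local instance] Atlas.fκ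

variable {S : Slb} {W : Finset (ℤ × ℤ)} {r nS nN : ℕ} {t₀ : ℝ}
  {ZD CD : Finset ((ℤ × ℤ) × (ℤ × ℤ))}

/-- the faces off the boxes of the special vertices -/
def DmE (h : S.Ok) (hW : BlkW.OWin S r W) (AD : PAtlas ZQ S.D S.ψ ZD CD r nS nN t₀) :
    Set (Option Bool × (ℤ × ℤ)) :=
  {x | x ∉ BlkW.Spb (S.env W 0 0) r ∧
    ∀ j, x ∉ (Wdg (AD.m j) (AD.o j) (AD.v j) (r / 2)).image (em h (hW.win h)).φF}

/-- the product of the local factors -/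
def PrE (S : Slb) (AD : PAtlas ZQ S.D S.ψ ZD CD r nS nN t₀) : ℝ :=
  (∏ i : Bool × Fin 14, sF (.ver (BlkW.Jt S.mu S.ml i)) (BlkW.mt i) r) * FP r (St.pvts AD)

/-- the embedding of the polygon as a chart of discs -/
theorem qc_em (h : S.Ok) (hW : BlkW.OWin S r W) {L₂ : Finset (ℤ × ℤ)} (hL : L₂ ⊆ S.D) :
    QChart ZQ (S.env W 0 0).Q L₂ (em h (hW.win h)).φV (em h (hW.win h)).φF 0 :=
  ⟨fun f hf g hg k l e => (em h (hW.win h)).inj f (hL hf) g (hL hg) k l e, fun f hf k => by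
    rw [add_zero]
    exact (em h (hW.win h)).cor f (hL hf) k⟩

/-- a disc with a margin in the polygon is off the special boxes -/
theorem disc_off (h : S.Ok) (hW : BlkW.OWin S r W) {nS nN : ℕ} {t₀ : ℝ}
    (B : Atlas (S.env W 0 0).Q (S.env W 0 0).F (S.ph W 0 0) (S.env W 0 0).Z r nS nN t₀)
    {L L₂ : Finset (ℤ × ℤ)} (hL : L₂ ⊆ S.D) (hM : Off.Mrg L L₂ (8 * r + 1)) {ρ : ℕ} (hρ : ρ ≤ 4 * r)
    (i : B.κ) {g : ℤ × ℤ} (hg : g ∈ L) : (em h (hW.win h)).φF g ∉ (B.ch i).box ρ :=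
  Off.off_box B (qc_em h hW hL) (fun g hg => (em h (hW.win h)).sub g (hL hg)) hρ
    (hM.mono (by omega)) i hg

/-- **The package of the environment**, general chart of the disc. -/
theorem pk_env (nS nN N s : ℕ) (t₀ : ℝ) (h0 : 0 < t₀) (h1 : t₀ ≤ 1) :
    ∃ C₀ : ℝ, 0 < C₀ ∧ ∀ (S : Slb) (h : S.Ok) (W : Finset (ℤ × ℤ)) (r : ℕ) (hW : BlkW.OWin S r W),
      2 * (S.a + 1) ≤ r → 64 * r ≤ S.k → 38 * BlkW.Ln (S.env W 0 0) r + 10 ≤ N →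
      ∀ {ZD CD : Finset ((ℤ × ℤ) × (ℤ × ℤ))} (AD : PAtlas ZQ S.D S.ψ ZD CD r nS nN t₀), AD.Flat →
      bS ZQ S.D ⊆ CD →
      (∀ i, ¬ nearS S.x1 S.x2 (S.yc - S.a) (S.yc + S.a) (8 * r) (AD.v i)) →
      (∀ f ∈ S.D, S.yc - S.k ≤ f.2 → f.2 < S.yc + S.k →
        ¬ (S.x1 - (8 * r + 2) ≤ f.1 ∧ f.1 < S.x1) ∧ ¬ (S.x2 ≤ f.1 ∧ f.1 < S.x2 + (8 * r + 2))) →
      ∃ Bd : (Option Bool × (ℤ × ℤ) → Bool) → ℝ, ∀ Dm : Set (Option Bool × (ℤ × ℤ)),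
      Dm ⊆ DmE h hW AD → ∀ c : ℝ, 0 < c →
      c * PrE S AD ≤ av (S.env W 0 0).F (WZ (S.env W 0 0).Q (S.env W 0 0).F (S.ph W 0 0) (S.env W 0 0).Z) →
      ∀ {L L₂ : Finset (ℤ × ℤ)} {ν : ℤ × ℤ → Option Bool × (ℤ × ℤ)}
        {φ : ℤ × ℤ → Option Bool × (ℤ × ℤ)}, L₂ ⊆ S.D → Off.Mrg L L₂ (8 * r + 1) →
      (∀ g ∈ L, ∀ k, ν (ZQ.c g k) = (em h (hW.win h)).φV (ZQ.c g k)) →
      (∀ g ∈ L, φ g = (em h (hW.win h)).φF g) →
        HCmp.Pk ν φ L (S.env W 0 0).F (WZ (S.env W 0 0).Q (S.env W 0 0).F (S.ph W 0 0) (S.env W 0 0).Z)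
          (WZ1 (S.env W 0 0).Q (S.env W 0 0).F (S.ph W 0 0) (S.env W 0 0).Z) s Dm C₀ c (PrE S AD) Bd := by
  have h9 : (0 : ℝ) < min t₀ (1 / 9) := lt_min h0 (by norm_num)
  obtain ⟨C₀, hC, H⟩ := pk_of_atlas (28 + nS) (N + 10 + nN) s (min t₀ (1 / 9)) h9
    ((min_le_left _ _).trans h1)
  refine ⟨C₀, hC, ?_⟩
  intro S h W r hW k1 k2 k4 ZD CD AD hF hCD hcen hth
  have hr : 0 < r := by omega
  obtain ⟨B0, b1, b2, -⟩ := OutF.full_env h hW k1 k2 AD hF hCD hcen hth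
  set B := LowP.bumpA B0 (nS' := 28 + nS) (nN' := N + 10 + nN) (t₁ := min t₀ (1 / 9)) le_rfl (by omega)
    le_rfl with hB
  refine ⟨B.bd hr h9.le, ?_⟩
  intro Dm hDm c hc hlow L L₂ ν φ hL hM hν hφ
  have hPr : Dbl.prS B = PrE S AD := by
    have e1 : Dbl.prS B = ∏ i, sF (B0.K i) (B0.m i) r := rfl
    rw [e1, b1 fun K m => sF K m r]
    unfold PrE
    congr 1
    exact St.prod_tys _ _ _
  have hLL : L ⊆ L₂ := fun g hg => by
    have := hM g hg (0, 0) (by rw [abs_zero]; positivity) (by rw [abs_zero]; positivity)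
    rwa [show g + (0, 0) = g by simp] at this
  have hQ : QChart ZQ (S.env W 0 0).Q L ν φ 0 := by
    have hq := qc_em h hW (hLL.trans hL)
    refine ⟨fun f hf g hg k l e => ?_, fun f hf k => ?_⟩
    · rw [hν f hf, hν g hg] at e
      exact hq.inj f hf g hg k l e
    · rw [hν f hf, hφ f hf]
      exact hq.cor f hf k
  have hO : OffA B ν L := by
    have h2 := Off.offA B (qc_em h hW hL) (fun g hg => (em h (hW.win h)).sub g (hL hg)) hM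
    have hmv : ∀ e ∈ dE ZQ L, PC.mv ν e = PC.mv (em h (hW.win h)).φV e := by
      intro e he
      obtain ⟨g, hg, k, rfl | rfl⟩ := mem_dE.mp he
      · exact Prod.ext (hν g hg k) (hν g hg (k + 1))
      · exact Prod.ext (hν g hg (k + 1)) (hν g hg k)
    exact ⟨fun i e he => by rw [hmv e he]; exact h2.sp i e he, fun i e he => by
      rw [hmv e he]; exact h2.nt i e he, fun i e he => by rw [hmv e he]; exact h2.mt i e he⟩
  have key := H B hr (Rel.noLoop_env _) hQ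
    (fun f hf => by rw [hφ f hf]; exact (em h (hW.win h)).sub f (hL (hLL hf))) hO Dm
    (fun i x hx hx' => by
      obtain ⟨d1, d2⟩ := hDm hx
      rcases b2 i with h3 | ⟨j, hj⟩
      · exact d1 (h3 x (Finset.image_subset_image (S3T.Wdg_mono (by omega))
          (Finset.mem_coe.mp hx')))
      · exact d2 j (by rw [← hj]; exact Finset.mem_coe.mp hx')) c hc (by rw [hPr]; exact hlow)
  rw [hPr] at key
  exact key

/-! ## One slab -/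

/-- What is needed for one slab: a flat atlas of the polygon at a scale `ρ` and the lower bound in the windows. -/
def ESlb (S : Slb) (nS nN N : ℕ) (t₀ c : ℝ) : Prop :=
  ∃ (ρ : ℕ) (ZD CD : Finset ((ℤ × ℤ) × (ℤ × ℤ))) (AD : PAtlas ZQ S.D S.ψ ZD CD ρ nS nN t₀),
    AD.Flat ∧ bS ZQ S.D ⊆ CD ∧ (∀ i J, AD.K i = .ver J → AD.m i ≠ 2 ∨ J ≠ 0) ∧
    (∀ i, ¬ nearS S.x1 S.x2 (S.yc - S.a) (S.yc + S.a) (8 * ρ) (AD.v i)) ∧
    2 * (S.a + 1) ≤ ρ ∧ 64 * ρ ≤ S.k ∧ 38 * BlkW.Ln (S.env ∅ 0 0) ρ + 10 ≤ N ∧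
    (∀ f ∈ S.D, S.yc - S.k ≤ f.2 → f.2 < S.yc + S.k →
      ¬ (S.x1 - (8 * ρ + 2) ≤ f.1 ∧ f.1 < S.x1) ∧ ¬ (S.x2 ≤ f.1 ∧ f.1 < S.x2 + (8 * ρ + 2))) ∧
    ∃ᶠ M : ℤ in Filter.atTop, c * PrE S AD ≤ av (Rel.win (S.env ∅ 0 0) M).F
      (WZ (S.env ∅ 0 0).Q (Rel.win (S.env ∅ 0 0) M).F S.phE (Rel.win (S.env ∅ 0 0) M).Z)

theorem owin (S : Slb) (ρ : ℕ) : ∀ᶠ M : ℤ in Filter.atTop, BlkW.OWin S ρ (RFb (0, 0) M) := by
  obtain ⟨T, hT⟩ : ∃ T : ℤ, T = |S.x1| + |S.x2| + |S.yc| + 7 * S.k + 3 * S.k + (S.x2 - S.x1).toNat +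
    (4 * ρ + 1) := ⟨_, rfl⟩
  filter_upwards [Filter.eventually_ge_atTop T] with M hM f h1 h2 h3 h4
  have a1 := neg_abs_le S.x1
  have a2 := le_abs_self S.x1
  have a3 := neg_abs_le S.x2
  have a4 := le_abs_self S.x2
  have a5 := neg_abs_le S.yc
  have a6 := le_abs_self S.yc
  have b1 := abs_nonneg S.x1
  have b2 := abs_nonneg S.x2
  have b3 := abs_nonneg S.yc
  unfold RFb
  rw [mem_RF]
  push_cast at h3 h4
  simp only
  omega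

theorem pk_slab (nS nN N s : ℕ) (t₀ : ℝ) (h0 : 0 < t₀) (h1 : t₀ ≤ 1) :
    ∃ C₀ : ℝ, 0 < C₀ ∧ ∀ (S : Slb), S.Ok → ∀ c : ℝ, 0 < c → ESlb S nS nN N t₀ c →
      ∃ᶠ M : ℤ in Filter.atTop, ∃ (Pr : ℝ) (Bd : (Option Bool × (ℤ × ℤ) → Bool) → ℝ),
        ∀ (v : ℤ × ℤ) (K : ℕ), S.DscC v K →
          HCmp.Pk S.nuD S.phD (BR v (2 ^ K)) (Rel.win (S.env ∅ 0 0) M).F
            (WZ (S.env ∅ 0 0).Q (Rel.win (S.env ∅ 0 0) M).F S.phE (Rel.win (S.env ∅ 0 0) M).Z)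
            (Rel.WZ1 (S.env ∅ 0 0).Q (Rel.win (S.env ∅ 0 0) M).F S.phE (Rel.win (S.env ∅ 0 0) M).Z)
            s S.DmE C₀ c Pr Bd := by
  obtain ⟨C₀, hC, H⟩ := pk_env nS nN N s t₀ h0 h1
  refine ⟨C₀, hC, ?_⟩
  rintro S hS c hc ⟨ρ, ZD, CD, AD, hF, hCD, hK, hcen, k1, k2, k4, hth, hlow⟩
  refine (hlow.and_eventually (owin S ρ)).mono ?_
  rintro M ⟨hM, hW⟩
  obtain ⟨Bd, hB⟩ := H S hS (RFb (0, 0) M) ρ hW k1 k2 k4 AD hF hCD hcen hth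
  refine ⟨PrE S AD, Bd, fun v K hv => ?_⟩
  refine hB S.DmE ?_ c hc hM (L₂ := BR v ((2 ^ K + (8 * ρ + 1) : ℕ) : ℤ)) ?_ ?_ (fun g _ k => rfl)
    (fun g _ => rfl)
  · exact HOffE.DmE_sub AD hS hW k1 k2 hF hK
  · intro f hf
    obtain ⟨h1, h2, h3, h4⟩ := hv
    rw [mem_BR] at hf
    have h6 := abs_le.mp (show |v.2 - S.yc| ≤ |v.2 - S.yc| from le_rfl)
    have h5 : (0 : ℤ) < 2 ^ K := by positivity
    push_cast at hf
    exact_mod_cast hS.slab.sub f.1 f.2 (by omega) (by omega) (by omega) (by omega)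
  · have h2 := Off.mrg_BR (z := v) (ρ := 2 ^ K) (d := 8 * ρ + 1) (ρ' := 2 ^ K + (8 * ρ + 1)) le_rfl
    push_cast at h2 ⊢
    exact h2

/-! ## The families -/

open Filter Topology Metric Asm3

/-- **Input for the families**: constants before `z`, `r`. -/
def FamEIn : Prop := ∀ (P : Finset (ℤ × ℤ)) (L : ℕ) (g : ℤ → ℤ × ℤ), MPoly P → Cont P L g →
  ∀ {ι : Type} (l : Filter ι) (n : ι → ℕ), Tendsto n l atTop → ∀ j : ι → ℤ → ℝ, MFam L g l n j →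
  ∀ z0 ∈ Om P, ∀ D : SFam P L g l n j z0, ∃ r0 > 0, ∃ (nS nN N : ℕ) (t₀ c : ℝ), 0 < t₀ ∧ t₀ ≤ 1 ∧
    0 < c ∧ ∀ z ∈ ball z0 (D.κ / 4), ∀ r : ℝ, 0 < r → r < r0 → ∀ᶠ i in l,
      (D.slb z r i).Ok ∧ ESlb (D.slb z r i) nS nN N t₀ c

/-- **The package of the environment.** -/
theorem pkEIn_of (s : ℕ) (h : FamEIn) : HCmp.PkEIn s := by
  intro P L g hP hg ι l n hn j hj z0 hz0 D
  obtain ⟨r0, hr0, nS, nN, N, t₀, c, h0, h1, hc, H⟩ := h P L g hP hg l n hn j hj z0 hz0 D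
  obtain ⟨C₀, hC, HP⟩ := pk_slab nS nN N s t₀ h0 h1
  refine ⟨r0, hr0, C₀, c, fun z hz r hr hr1 => ?_⟩
  filter_upwards [H z hz r hr hr1] with i hi
  exact HP (D.slb z r i) hi.1 c hc hi.2

end

end Pool.Agent.SixB.PkE
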