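import Pool.Agent.Lib.SixB.S3HPkD
import Pool.Agent.Lib.SixB.S3HPkI

/-!
# 6BD step 3.8 (R18): geometry of the package of the polygon

`S₀ : Slb`, `S₀.Ok`, `S₀.D = rf n P`, `Spc P n N G j S₀.ψ S K r t₀`, `64 * r ≤ S₀.k`.
* `wall_flat`: a contour vertex on a wall of the slab at distance less than `k` from the centre line is flat and has no
  jump.
* `dmD_sub`: the window `S₀.DmD` is off the boxes of radius `r / 2` of the active special positions.
* `dscC_far`: the discs `S₀.DscC` are far from the boundary.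
-/

set_option autoImplicit false
set_option linter.unusedSectionVars false

namespace Pool.Agent.SixB.PkD

open Pool.Agent.Perc Pool.Agent.Perc.Q Finset Pool.Agent.PercD
open Pool.Agent.SixB Pool.Agent.SixB.PolyAtl
open Pool.Agent.SixB.Rel (WZ1)

noncomputable section

variable {P : Finset (ℤ × ℤ)} {N n : ℕ} {G : ℤ → ℤ × ℤ} {j : ℤ → ℝ}
  {S : Finset ℤ} {K : ℤ → SK} {r : ℕ} {t₀ : ℝ} {S₀ : Slb}

/-- the direction of the contour at a vertex of the right wall -/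
theorem right_dir {D : Finset (ℤ × ℤ)} {x₁ x₂ w₁ w₂ : ℤ} (hs : SlabIn (D : Set (ℤ × ℤ)) x₁ x₂ w₁ w₂)
    (hc : Cont D N G) {k : ℤ} (h1 : (G k).1 = x₂) (h2 : w₁ < (G k).2) (h3 : (G k).2 < w₂) :
    G (k + 1) = ((G k).1, (G k).2 + 1) ∧ G (k - 1) = ((G k).1, (G k).2 - 1) := by
  have hx := hs.hx
  have a1 : (x₂ - 1, (G k).2) ∈ D := by
    exact_mod_cast hs.sub (x₂ - 1) (G k).2 (by omega) (by omega) h2.le h3
  have a2 : (x₂ - 1, (G k).2 - 1) ∈ D := by
    exact_mod_cast hs.sub (x₂ - 1) ((G k).2 - 1) (by omega) (by omega) (by omega) (by omega)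
  have a3 : (x₂, (G k).2) ∉ D := by
    exact_mod_cast hs.right (G k).2 h2.le h3
  have a4 : (x₂, (G k).2 - 1) ∉ D := by
    exact_mod_cast hs.right ((G k).2 - 1) (by omega) (by omega)
  constructor
  · rcases hc.side k with ⟨h, b1, b2⟩ | ⟨h, b1, b2⟩ | ⟨h, b1, b2⟩ | ⟨h, b1, b2⟩
    · rw [h1] at b1
      exact absurd b1 a3
    · exact h
    · rw [h1] at b2
      exact absurd a1 b2
    · rw [h1] at b1
      exact absurd b1 a4
  · have hk := hc.side (k - 1)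
    rw [sub_add_cancel] at hk
    obtain ⟨⟨p, q⟩, hpq⟩ : ∃ p, G (k - 1) = p := ⟨_, rfl⟩
    rw [hpq] at hk ⊢
    rcases hk with ⟨h, b1, b2⟩ | ⟨h, b1, b2⟩ | ⟨h, b1, b2⟩ | ⟨h, b1, b2⟩ <;>
      simp only at h b1 b2 <;> rw [h] at h1 a1 a2 a3 a4 ⊢ <;> simp only at h1 a1 a2 a3 a4 ⊢
    · rw [← h1, add_sub_cancel_right] at a2
      exact absurd a2 b2
    · rw [add_sub_cancel_right]
    · rw [← h1] at a4
      exact absurd b1 a4
    · rw [← h1] at a3
      exact absurd b1 a3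

/-- the direction of the contour at a vertex of the left wall -/
theorem left_dir {D : Finset (ℤ × ℤ)} {x₁ x₂ w₁ w₂ : ℤ} (hs : SlabIn (D : Set (ℤ × ℤ)) x₁ x₂ w₁ w₂)
    (hc : Cont D N G) {k : ℤ} (h1 : (G k).1 = x₁) (h2 : w₁ < (G k).2) (h3 : (G k).2 < w₂) :
    G (k + 1) = ((G k).1, (G k).2 - 1) ∧ G (k - 1) = ((G k).1, (G k).2 + 1) := by
  have hx := hs.hx
  have a1 : (x₁, (G k).2) ∈ D := by
    exact_mod_cast hs.sub x₁ (G k).2 (by omega) (by omega) h2.le h3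
  have a2 : (x₁, (G k).2 - 1) ∈ D := by
    exact_mod_cast hs.sub x₁ ((G k).2 - 1) (by omega) (by omega) (by omega) (by omega)
  have a3 : (x₁ - 1, (G k).2) ∉ D := by
    exact_mod_cast hs.left (G k).2 h2.le h3
  have a4 : (x₁ - 1, (G k).2 - 1) ∉ D := by
    exact_mod_cast hs.left ((G k).2 - 1) (by omega) (by omega)
  constructor
  · rcases hc.side k with ⟨h, b1, b2⟩ | ⟨h, b1, b2⟩ | ⟨h, b1, b2⟩ | ⟨h, b1, b2⟩
    · rw [h1] at b2
      exact absurd a2 b2
    · rw [h1] at b1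
      exact absurd b1 a3
    · rw [h1] at b1
      exact absurd b1 a4
    · exact h
  · have hk := hc.side (k - 1)
    rw [sub_add_cancel] at hk
    obtain ⟨⟨p, q⟩, hpq⟩ : ∃ p, G (k - 1) = p := ⟨_, rfl⟩
    rw [hpq] at hk ⊢
    rcases hk with ⟨h, b1, b2⟩ | ⟨h, b1, b2⟩ | ⟨h, b1, b2⟩ | ⟨h, b1, b2⟩ <;>
      simp only at h b1 b2 <;> rw [h] at h1 a1 a2 a3 a4 ⊢ <;> simp only at h1 a1 a2 a3 a4 ⊢
    · rw [← h1, add_sub_cancel_right] at a3
      exact absurd b1 a3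
    · rw [← h1, add_sub_cancel_right] at a4
      exact absurd b1 a4
    · rw [← h1] at a1
      exact absurd a1 b2
    · rw [sub_add_cancel]

theorem dd_of {D : Finset (ℤ × ℤ)} (hc : Cont D N G) {k : ℤ} {u : ℤ × ℤ} (h1 : G (k + 1) = G k + u)
    (h2 : G k = G (k - 1) + u) : PolyAtl.dd G k = PolyAtl.dd G (k - 1) := by
  have e1 := dd_spec hc k
  have e2 := dd_spec hc (k - 1)
  rw [sub_add_cancel] at e2
  have e3 : dz (PolyAtl.dd G k) = dz (PolyAtl.dd G (k - 1)) := by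
    rw [h1] at e1
    rw [h2] at e2
    rw [← add_left_cancel e1, ← add_left_cancel e2]
  revert e3
  generalize PolyAtl.dd G k = a
  generalize PolyAtl.dd G (k - 1) = b
  revert a b
  decide

/-- **Contour vertices on the walls of the slab near the centre line.** -/
theorem wall_flat (hO : S₀.Ok) (hD : S₀.D = rf n P) (h : Spc P n N G j S₀.ψ S K r t₀) {k : ℤ}
    (h1 : (G k).1 = S₀.x1 ∨ (G k).1 = S₀.x2) (h2 : S₀.yc - S₀.k < (G k).2)
    (h3 : (G k).2 < S₀.yc + S₀.k) : mm G k = 2 ∧ j k = 0 := by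
  have hs := hO.slab
  rw [hD] at hs
  rcases h1 with h1 | h1
  · obtain ⟨a1, a2⟩ := left_dir hs h.hc h1 h2 h3
    refine ⟨mm_two.2 (dd_of h.hc (u := (0, -1)) ?_ ?_), ?_⟩
    · rw [a1]
      exact Prod.ext (by simp) (by simp; ring)
    · rw [a2]
      exact Prod.ext (by simp) (by simp)
    · rw [← h.hψ]
      have e1 : S₀.ψ (G k, G (k + 1)) = S₀.ρl := by
        rw [a1]
        have h4 := hO.left ((G k).2 - 1) (by omega) (by omega)
        rw [sub_add_cancel, ← h1] at h4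
        exact h4
      have e2 : S₀.ψ (G (k - 1), G k) = S₀.ρl := by
        rw [a2]
        have h4 := hO.left (G k).2 (by omega) (by omega)
        rw [← h1] at h4
        exact h4
      have e3 : crs G k = 0 := by
        unfold crs
        rw [a1, a2]
        simp
      rw [e1, e2, e3]
      simp
  · obtain ⟨a1, a2⟩ := right_dir hs h.hc h1 h2 h3
    refine ⟨mm_two.2 (dd_of h.hc (u := (0, 1)) ?_ ?_), ?_⟩
    · rw [a1]
      exact Prod.ext (by simp) (by simp)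
    · rw [a2]
      exact Prod.ext (by simp) (by simp)
    · rw [← h.hψ]
      have e1 : S₀.ψ (G k, G (k + 1)) = S₀.ρr := by
        rw [a1]
        have h4 := hO.right (G k).2 (by omega) (by omega)
        rw [← h1] at h4
        exact h4
      have e2 : S₀.ψ (G (k - 1), G k) = S₀.ρr := by
        rw [a2]
        have h4 := hO.right ((G k).2 - 1) (by omega) (by omega)
        rw [sub_add_cancel, ← h1] at h4
        exact h4
      have e3 : crs G k = 0 := by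
        unfold crs
        rw [a1, a2]
        simp
      rw [e1, e2, e3]
      simp

/-- **The window of the slab is off the boxes.** -/
theorem dmD_sub (hO : S₀.Ok) (hD : S₀.D = rf n P) (h : Spc P n N G j S₀.ψ S K r t₀)
    (hk : 64 * r ≤ S₀.k) : S₀.DmD ⊆ offB G (act G j S) (r / 2) := by
  intro f hf x hx hw
  obtain ⟨f1, f2, f3, f4⟩ := hf
  obtain ⟨hxS, hxa⟩ := mem_act.mp hx
  have hr := h.hr
  have hn := h.hn
  have hw' := hw
  rw [PolyAtl.mem_Wdg] at hw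
  obtain ⟨⟨a1, a2, a3, a4⟩, hq⟩ := hw
  have hs := hO.slab
  rw [hD] at hs
  have hst := h.stt hxS (ρ := r / 2) (by omega)
  have hsub : ∀ g ∈ Wdg (mm G x) (PolyAtl.dd G x) (G x) (r / 2), g ∈ rf n P := fun g hg =>
    wedge_sub h.hc h.n0 (by omega) hst hg
  rcases lt_trichotomy (G x).1 S₀.x1 with h1 | h1 | h1
  · -- left of the slab
    have h2 : ((S₀.x1 - 1, f.2) : ℤ × ℤ) ∈ Wdg (mm G x) (PolyAtl.dd G x) (G x) (r / 2) := by
      rw [PolyAtl.mem_Wdg]
      refine ⟨⟨by simp only; omega, by simp only; omega, a3, a4⟩, ?_⟩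
      have e : quad (G x) (S₀.x1 - 1, f.2) = quad (G x) f := by
        unfold quad
        simp only
        rw [if_pos (show (G x).1 ≤ S₀.x1 - 1 by omega), if_pos (show (G x).1 ≤ f.1 by omega)]
      rw [e]
      exact hq
    have h3 := hs.left f.2 (by omega) (by omega)
    exact h3 (by exact_mod_cast hsub _ h2)
  · obtain ⟨h2, h3⟩ := wall_flat hO hD h (Or.inl h1) (by omega) (by omega)
    rcases hxa with h4 | h4
    · exact h4 h2
    · exact h4 h3
  · rcases lt_trichotomy (G x).1 S₀.x2 with h5 | h5 | h5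
    · -- inside
      obtain ⟨g, g1, g2, g3⟩ := exists_out h.hc x
      refine g1 ?_
      have h6 := hs.sub g.1 g.2 (by omega) (by omega) (by omega) (by omega)
      exact_mod_cast h6
    · obtain ⟨h2, h3⟩ := wall_flat hO hD h (Or.inr h5) (by omega) (by omega)
      rcases hxa with h4 | h4
      · exact h4 h2
      · exact h4 h3
    · -- right of the slab
      have h2 : ((S₀.x2, f.2) : ℤ × ℤ) ∈ Wdg (mm G x) (PolyAtl.dd G x) (G x) (r / 2) := by
        rw [PolyAtl.mem_Wdg]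
        refine ⟨⟨by simp only; omega, by simp only; omega, a3, a4⟩, ?_⟩
        have e : quad (G x) (S₀.x2, f.2) = quad (G x) f := by
          unfold quad
          simp only
          rw [if_neg (show ¬ (G x).1 ≤ S₀.x2 by omega), if_neg (show ¬ (G x).1 ≤ f.1 by omega)]
        rw [e]
        exact hq
      have h3 := hs.right f.2 (by omega) (by omega)
      exact h3 (by exact_mod_cast hsub _ h2)

/-- **The discs are far from the boundary.** -/
theorem dscC_far (hO : S₀.Ok) {v : ℤ × ℤ} {k : ℕ} (hv : S₀.DscC v k) (hr : 0 < r)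
    (hk : 64 * r ≤ S₀.k) : Far S₀.D (BR v (2 ^ k)) (4 * r + 1) := by
  intro f hf g h1 h2
  obtain ⟨b1, b2, b3, b4⟩ := hv
  rw [PercD.mem_BR] at hf
  obtain ⟨a1, a2, a3, a4⟩ := hf
  rw [abs_le] at h1 h2
  push_cast at h1 h2
  have b5 := abs_le.mp (show |v.2 - S₀.yc| ≤ |v.2 - S₀.yc| from le_rfl)
  have h3 := hO.slab.sub g.1 g.2 (by omega) (by omega) (by omega) (by omega)
  exact_mod_cast h3

/-- **The package of the polygon of a slab.** -/
theorem pk_core (nS nN s : ℕ) : ∃ C0 : ℝ, 0 < C0 ∧ ∀ {P : Finset (ℤ × ℤ)} {N n : ℕ}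
    {G : ℤ → ℤ × ℤ} {j : ℤ → ℝ} {S₀ : Slb} {S : Finset ℤ} {K : ℤ → SK} {r : ℕ} {c : ℝ},
    S₀.Ok → S₀.D = rf n P → Spc P n N G j S₀.ψ S K r 1 → S.card ≤ nS →
    N / r + 1 + 2 * S.card ≤ nN → 64 * r ≤ S₀.k → 0 < c →
    c * ∏ x ∈ S, sF (K x) (mm G x) r ≤ av (rf n P) (WZ ZQ (rf n P) S₀.ψ (bS ZQ (rf n P))) →
    ∃ Bd : (ℤ × ℤ → Bool) → ℝ, ∀ (v : ℤ × ℤ) (k : ℕ), S₀.DscC v k →
      HCmp.Pk id id (BR v (2 ^ k)) (rf n P) (WZ ZQ (rf n P) S₀.ψ (bS ZQ (rf n P)))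
        (WZ1 ZQ (rf n P) S₀.ψ (bS ZQ (rf n P))) s S₀.DmD C0 c
        (∏ x ∈ S, sF (K x) (mm G x) r) Bd := by
  obtain ⟨C0, hC, h⟩ := upD nS nN s 1 one_pos le_rfl
  refine ⟨C0, hC, ?_⟩
  intro P N n G j S₀ S K r c hO hD hS h1 h2 hk hc hlow
  obtain ⟨Bd, hBd⟩ := h hS h1 h2
  have hr : 0 < r := by
    have := hS.hr
    omega
  refine ⟨Bd, fun v k hv => ?_⟩
  have hfar := dscC_far hO hv hr hk
  rw [hD] at hfar
  have hU := hBd _ hfar
  have hsub := dmD_sub hO hD hS hk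
  exact {
    dsk := hU.dsk
    up := fun x Z h3 h4 h5 h6 => hU.up x Z h3 h4 (fun ω ω' h7 => h5 ω ω' fun f hf => h7 f (hsub hf))
      (fun ω ω' h7 => h6 ω ω' fun f hf => h7 f (hsub hf))
    hW := hU.hW
    hτ := hU.hτ
    low := hlow
    c_pos := hc
    Pr_pos := prod_pos hS one_pos r
    C0_nonneg := hC.le }

/-! ## The families -/

open Filter Topology Metric Asm3

/-- **LOWER for the polygons of the three families**, scales `ε n ≤ r ≤ κ n` -/
def LowDF : Prop := ∀ (P : Finset (ℤ × ℤ)) (L : ℕ) (g : ℤ → ℤ × ℤ), MPoly P → Cont P L g →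
  ∀ {ι : Type} (l : Filter ι) (n : ι → ℕ), Tendsto n l atTop → ∀ j : ι → ℤ → ℝ, MFam L g l n j →
  ∃ κ : ℝ, 0 < κ ∧ ∃ (S : ι → Finset ℤ) (K : ι → ℤ → SK), (∀ i, (S i).card ≤ L + 5) ∧
    ∀ ε : ℝ, 0 < ε → ∃ c : ℝ, 0 < c ∧ ∀ᶠ i in l, ∀ (r : ℕ) (ψ : (ℤ × ℤ) × (ℤ × ℤ) → ℝ), 2 ≤ r →
      ε * n i ≤ r → (r : ℝ) ≤ κ * n i → PhC (rf (n i) P) (n i * L) (gr (n i) g) (j i) ψ →
        Spc P (n i) (n i * L) (gr (n i) g) (j i) ψ (S i) (K i) r 1 ∧
          c * ∏ x ∈ S i, sF (K i x) (mm (gr (n i) g) x) r ≤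
            av (rf (n i) P) (WZ ZQ (rf (n i) P) ψ (bS ZQ (rf (n i) P)))

/-- **`PkDIn` from LOWER.** -/
theorem pkDIn_of (hL : LowDF) (s : ℕ) : HCmp.PkDIn s := by
  intro P L g hP hg ι l n hn j hj z0 hz0 D
  obtain ⟨κ, hκ, S, K, hcard, hlow⟩ := hL P L g hP hg l n hn j hj
  have hD := D.hκ
  obtain ⟨κ', hκ'⟩ : ∃ κ', κ' = min κ (D.κ / 512) := ⟨_, rfl⟩
  have hκ0 : 0 < κ' := by
    rw [hκ']
    exact lt_min hκ (by positivity)
  have hκ1 : κ' ≤ κ := by
    rw [hκ']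
    exact min_le_left _ _
  have hκ2 : κ' ≤ D.κ / 512 := by
    rw [hκ']
    exact min_le_right _ _
  obtain ⟨c, hc, hlow'⟩ := hlow (κ' / 2) (by positivity)
  obtain ⟨C0, hC0, hcore⟩ := pk_core (L + 5) (⌊(L : ℝ) / (κ' / 2)⌋₊ + 1 + 2 * (L + 5)) s
  refine ⟨D.κ / 10 ^ 5, by positivity, C0, c, fun z hz r hr hr' => ?_⟩
  have hnR : Tendsto (fun i => (n i : ℝ)) l atTop := tendsto_natCast_atTop_atTop.comp hn
  filter_upwards [hlow', D.slb_ok hn hz hr hr', D.ph, hnR.eventually_ge_atTop (4 / κ'),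
    hnR.eventually_ge_atTop (4 / D.κ), hn.eventually_gt_atTop 0] with i h1 h2 h3 h4 h5 h6
  have hn0 : (0 : ℝ) < n i := by exact_mod_cast h6
  have e4 : 4 ≤ κ' * n i := by
    have := (div_le_iff₀ hκ0).mp h4
    linarith
  have e5 : 4 ≤ D.κ * n i := by
    have := (div_le_iff₀ hD).mp h5
    linarith
  obtain ⟨R, hR⟩ : ∃ R, R = ⌊κ' * n i⌋₊ := ⟨_, rfl⟩
  have hR1 : (R : ℝ) ≤ κ' * n i := by
    rw [hR]
    exact Nat.floor_le (by positivity)
  have hR2 : κ' * n i < R + 1 := by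
    rw [hR]
    exact Nat.lt_floor_add_one _
  have hR3 : 2 ≤ R := by
    have : (3 : ℝ) < R + 1 := by linarith
    have h7 : (2 : ℝ) < R := by linarith
    have h8 : 2 < R := by exact_mod_cast h7
    omega
  have hR4 : κ' / 2 * n i ≤ R := by
    have h7 : κ' / 2 * n i = κ' * n i / 2 := by ring
    rw [h7]
    linarith
  obtain ⟨hS, hl⟩ := h1 R (D.ψ i) hR3 hR4 (hR1.trans (mul_le_mul_of_nonneg_right hκ1 hn0.le)) h3
  have hR0 : (0 : ℝ) < R := by
    have : 0 < R := by omega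
    exact_mod_cast this
  have hN : n i * L / R ≤ ⌊(L : ℝ) / (κ' / 2)⌋₊ := by
    refine Nat.le_floor ?_
    have h7 : ((n i * L / R : ℕ) : ℝ) ≤ ((n i * L : ℕ) : ℝ) / R := Nat.cast_div_le
    refine h7.trans ?_
    rw [div_le_div_iff₀ hR0 (by positivity)]
    push_cast
    have h8 : (0 : ℝ) ≤ L := Nat.cast_nonneg L
    calc (n i : ℝ) * L * (κ' / 2) = L * (κ' / 2 * n i) := by ring
      _ ≤ L * R := mul_le_mul_of_nonneg_left hR4 h8
  have hk : 64 * R ≤ (D.slb z r i).k := by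
    show 64 * R ≤ ⌊D.κ * n i / 2⌋₊
    refine Nat.le_floor ?_
    push_cast
    have h7 : κ' * n i ≤ D.κ / 512 * n i := mul_le_mul_of_nonneg_right hκ2 hn0.le
    have h8 : D.κ / 512 * n i = D.κ * n i / 512 := by ring
    linarith
  have hS' : Spc P (n i) (n i * L) (gr (n i) g) (j i) (D.slb z r i).ψ (S i) (K i) R 1 := hS
  obtain ⟨Bd, hBd⟩ := hcore h2 rfl hS' (hcard i) (by
    have := hcard i
    omega) hk hc hl
  exact ⟨_, Bd, hBd⟩

end

end Pool.Agent.SixB.PkD
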