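import Pool.Agent.Lib.SixB.S3HPkG
import Pool.Agent.Lib.SixB.S3FamE

/-!
# 6BD step 3.8 (R18): `PkDIn` from the package LOWER for the polygons

* `pkDIn_of_lowD : FamE.LowD → PkDIn s`.
-/

set_option autoImplicit false
set_option linter.unusedSectionVars false

namespace Pool.Agent.SixB.PkD

open Pool.Agent.Perc Pool.Agent.Perc.Q Finset Pool.Agent.PercD
open Pool.Agent.SixB Pool.Agent.SixB.PolyAtl
open Pool.Agent.SixB.Rel (WZ1)
open Filter Topology Metric Asm3

noncomputable section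

/-- **`PkDIn` from LOWER for the polygons.** -/
theorem pkDIn_of_lowD (hL : FamE.LowD) (s : ℕ) : HCmp.PkDIn s := by
  intro P L g hP hg ι l n hn j hj z0 hz0 D
  obtain ⟨X, hX, κ, T, K, hT⟩ := FamE.famIn P L g hP hg l n hn j hj
  have hκ := hT.pos
  have hD := D.hκ
  obtain ⟨κ', hκ'⟩ : ∃ κ', κ' = min κ (D.κ / 512) := ⟨_, rfl⟩
  have hκ0 : 0 < κ' := by
    rw [hκ']
    exact lt_min hκ (by positivity)
  have hκ1 : κ' ≤ κ := by
    rw [hκ']
    exact min_le_left _ _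
  have hκ2 : κ' ≤ D.κ / 512 := by
    rw [hκ']
    exact min_le_right _ _
  obtain ⟨c, hc, r0, hr0, hlow⟩ := hL P L g hP hg l n hn j hj X κ T K hX hT z0 hz0 D (κ' / 2)
    (by positivity)
  obtain ⟨C0, hC0, hcore⟩ := pk_core (L + 5) (⌊(L : ℝ) / (κ' / 2)⌋₊ + 1 + 2 * (L + 5)) s
  refine ⟨min r0 (D.κ / 10 ^ 5), lt_min hr0 (by positivity), C0, c, fun z hz r hr hr' => ?_⟩
  have hnR : Tendsto (fun i => (n i : ℝ)) l atTop := tendsto_natCast_atTop_atTop.comp hn
  filter_upwards [hlow z hz r hr (hr'.trans_le (min_le_left _ _)),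
    D.slb_ok hn hz hr (hr'.trans_le (min_le_right _ _)), D.ph, hnR.eventually_ge_atTop (4 / κ'),
    hnR.eventually_ge_atTop (4 / D.κ), hn.eventually_gt_atTop 0, hT.spc, hT.ty,
    Pos.famJ_eventually hg.pos hn hj] with i h1 h2 h3 h4 h5 h6 h7 h8 h9
  have hn0 : (0 : ℝ) < n i := by exact_mod_cast h6
  have e4 : 4 ≤ κ' * n i := by
    have := (div_le_iff₀ hκ0).mp h4
    linarith
  obtain ⟨R, hR⟩ : ∃ R, R = ⌊κ' * n i⌋₊ := ⟨_, rfl⟩
  have hR1 : (R : ℝ) ≤ κ' * n i := by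
    rw [hR]
    exact Nat.floor_le (by positivity)
  have hR2 : κ' * n i < R + 1 := by
    rw [hR]
    exact Nat.lt_floor_add_one _
  have hR3 : 2 ≤ R := by
    have h10 : (2 : ℝ) < R := by linarith
    have h11 : 2 < R := by exact_mod_cast h10
    omega
  have hR4 : κ' / 2 * n i ≤ R := by
    have h10 : κ' / 2 * n i = κ' * n i / 2 := by ring
    rw [h10]
    linarith
  have hR5 : (R : ℝ) ≤ κ * n i := hR1.trans (mul_le_mul_of_nonneg_right hκ1 hn0.le)
  have hR6 : R ≤ n i := by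
    have h10 : κ' * n i ≤ 1 * n i :=
      mul_le_mul_of_nonneg_right (by have := D.hκ'; linarith) hn0.le
    have h11 : (R : ℝ) ≤ n i := by linarith
    exact_mod_cast h11
  have hS : Spc P (n i) (n i * L) (gr (n i) g) (j i) (D.slb z r i).ψ (T i) (K i) R 1 :=
    h7 R (D.ψ i) hR3 hR5 h3.jump
  have hR0 : (0 : ℝ) < R := by
    have : 0 < R := by omega
    exact_mod_cast this
  have hN : n i * L / R ≤ ⌊(L : ℝ) / (κ' / 2)⌋₊ := by
    refine Nat.le_floor ?_
    have h10 : ((n i * L / R : ℕ) : ℝ) ≤ ((n i * L : ℕ) : ℝ) / R := Nat.cast_div_le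
    refine h10.trans ?_
    rw [div_le_div_iff₀ hR0 (by positivity)]
    push_cast
    have h11 : (0 : ℝ) ≤ L := Nat.cast_nonneg L
    calc (n i : ℝ) * L * (κ' / 2) = L * (κ' / 2 * n i) := by ring
      _ ≤ L * R := mul_le_mul_of_nonneg_left hR4 h11
  have hk : 64 * R ≤ (D.slb z r i).k := by
    show 64 * R ≤ ⌊D.κ * n i / 2⌋₊
    refine Nat.le_floor ?_
    push_cast
    have h10 : κ' * n i ≤ D.κ / 512 * n i := mul_le_mul_of_nonneg_right hκ2 hn0.le
    have h11 : D.κ / 512 * n i = D.κ * n i / 512 := by ring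
    have h12 : 0 ≤ D.κ * n i := by positivity
    linarith
  have hpos := h2.WZD_nonneg (g := gr (n i) g) (L := n i * L) h3 h9
  have hl : c * ∏ x ∈ T i, sF (K i x) (mm (gr (n i) g) x) R ≤
      av (rf (n i) P) (WZ ZQ (rf (n i) P) (D.slb z r i).ψ (bS ZQ (rf (n i) P))) := by
    have e1 : ∏ x ∈ T i, sF (K i x) (mm (gr (n i) g) x) R = FP R (St.domV (Cens.cc L g) X) := by
      rw [← h8]
      unfold FP
      rw [Multiset.map_map]
      rfl
    rw [e1]
    refine (h1 R hR3 hR4 hR5 hR6).trans ?_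
    refine av_mono fun U _ => ?_
    refine mul_le_of_le_one_right (hpos _) ?_
    split_ifs
    · exact le_rfl
    · exact zero_le_one
  obtain ⟨Bd, hBd⟩ := hcore h2 rfl hS (hT.card i) (by
    have := hT.card i
    omega) hk hc hl
  exact ⟨_, Bd, hBd⟩

end

end Pool.Agent.SixB.PkD
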