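import Pool.Agent.Lib.SixB.S3HDet
import Pool.Agent.Lib.SixB.S4W3d

/-!
# 6BD step 3.8 (R18), planar end: boxes, blocking and crossing strands

* `inn_of`, `inn_BR`: sides of an inner set of faces are positive sides of faces of a larger set.
* `not_blk`: if the annulus is not blocking then one strand crosses it (`NF`).
* `NR_le`: the strands of the disc `BR p R` which are not closed and separate two vertices of the box `BR p s`
  cross the annulus.
* `connE_BR`: the vertices of a box are connected in the box.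
* `av_cross`: the probability of a crossing strand, as an average.
-/

set_option autoImplicit false

namespace Pool.Agent.SixB.HPla

open Finset Pool.Agent.SixB Pool.Agent.Perc Pool.Agent.PercD Pool.Agent.Perc.Q Relation
open Pool.Agent.SixB.Tilt Pool.Agent.SixB.HDet

variable {F A L S : Finset (ℤ × ℤ)} {c : ℤ × ℤ → Bool} {v p : ℤ × ℤ} {s t R : ℤ} {z z' : VZ}
  {x y : DZ}

/-- the face across the side `k` -/
def nb (f : ℤ × ℤ) (k : ZMod 4) : ℤ × ℤ :=
  if k = 0 then (f.1, f.2 - 1) else if k = 1 then (f.1 + 1, f.2) else if k = 2 then (f.1, f.2 + 1)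
  else (f.1 - 1, f.2)

theorem sd_nb (f : ℤ × ℤ) (k : ZMod 4) : (sd ZQ f k).swap = sd ZQ (nb f k) (k + 2) := by
  obtain ⟨x, y⟩ := f
  rcases k4_cases k with rfl | rfl | rfl | rfl
  · change (cor0 (x, y) 1, cor0 (x, y) 0) = (cor0 (x, y - 1) 2, cor0 (x, y - 1) 3)
    rw [cor0_1, cor0_2, cor0_3]
    exact Prod.ext (Prod.ext rfl (by simp)) (Prod.ext rfl (by simp [cor0]))
  · change (cor0 (x, y) 2, cor0 (x, y) 1) = (cor0 (x + 1, y) 3, cor0 (x + 1, y) 0)
    rw [cor0_1, cor0_2, cor0_3]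
    exact Prod.ext (Prod.ext rfl rfl) (Prod.ext rfl (by simp [cor0]))
  · change (cor0 (x, y) 3, cor0 (x, y) 2) = (cor0 (x, y + 1) 0, cor0 (x, y + 1) 1)
    rw [cor0_1, cor0_2, cor0_3]
    exact Prod.ext (Prod.ext rfl (by simp [cor0])) (Prod.ext rfl rfl)
  · change (cor0 (x, y) 0, cor0 (x, y) 3) = (cor0 (x - 1, y) 1, cor0 (x - 1, y) 2)
    rw [cor0_1, cor0_2, cor0_3]
    exact Prod.ext (Prod.ext (by simp [cor0]) (by simp [cor0])) (Prod.ext (by simp) rfl)

theorem nb_mem {f : ℤ × ℤ} (h : (f.1, f.2 - 1) ∈ L ∧ (f.1 + 1, f.2) ∈ L ∧ (f.1, f.2 + 1) ∈ L ∧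
    (f.1 - 1, f.2) ∈ L) (k : ZMod 4) : nb f k ∈ L := by
  unfold nb
  split_ifs
  · exact h.1
  · exact h.2.1
  · exact h.2.2.1
  · exact h.2.2.2

/-! ## (a) Inner sets of faces -/

theorem inn_of (hSL : S ⊆ L) (h : ∀ f ∈ S, (f.1, f.2 - 1) ∈ L ∧ (f.1 + 1, f.2) ∈ L ∧
    (f.1, f.2 + 1) ∈ L ∧ (f.1 - 1, f.2) ∈ L) : Inn S L := by
  intro d hd
  obtain ⟨f, hf, k, rfl | rfl⟩ := mem_dE.mp hd
  · exact ⟨f, hSL hf, k, rfl⟩
  · exact ⟨nb f k, nb_mem (h f hf) k, k + 2, sd_nb f k⟩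

theorem BR_subset (h : s ≤ t) : BR v s ⊆ BR v t := by
  intro f hf
  rw [mem_BR] at hf ⊢
  omega

theorem inn_BR (hst : s < t) : Inn (BR v s) (BR v t) := by
  refine inn_of (BR_subset hst.le) fun f hf => ?_
  simp only [mem_BR] at hf ⊢
  omega

/-! ## (b) Blocking -/

theorem bdR_of_dE (hx : x ∈ dE ZQ (BR v s)) {C : Finset (ℤ × ℤ)} (hC : ∀ f ∈ C, f ∉ BR v s)
    (hx1 : x ∈ dE ZQ C) : BdR v s (und x) := by
  obtain ⟨f, hf, hf1⟩ := und_side hx
  obtain ⟨g, hg, hg1⟩ := und_side hx1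
  exact bd_of_side (inE_of_side (by exact_mod_cast hf) hf1) hg1 (by exact_mod_cast hC g hg)

theorem one_le_NF {a b : UE} {F' : Set (ℤ × ℤ)} (hs : 0 ≤ s) (hb : BdR v s b) (ha : BdR v t a)
    (hm : a ∈ MM c (F' ∩ (PercN.An v s t : Set (ℤ × ℤ))) b) : 1 ≤ NF F' v s t c := by
  classical
  unfold NF
  refine Finset.card_pos.2 ⟨b, ?_⟩
  rw [Finset.mem_filter]
  exact ⟨W3d.mem_UB_of_BdR hs hb, hb, a, hm, ha⟩

/-- **An annulus which is not blocking is crossed by a strand.** -/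
theorem not_blk (hs : 0 ≤ s)
    (h : ¬ Rel.Blk ZQ (BR v t \ BR v s) c (dE ZQ (BR v s)) (dE ZQ (L \ BR v t))) :
    1 ≤ NF Set.univ v s t c := by
  unfold Rel.Blk at h
  push Not at h
  obtain ⟨x, hx, y, hy, hx1, hy1, hxy⟩ := h
  have hbx : BdR v s (und x) := bdR_of_dE hx (fun f hf => (Finset.mem_sdiff.mp hf).2) hx1
  have hby : BdR v t (und y) :=
    bdR_of_dE (dE_mono Finset.sdiff_subset hy1) (fun f hf => (Finset.mem_sdiff.mp hf).2) hy
  refine one_le_NF hs hbx hby ?_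
  rw [Set.univ_inter]
  exact MM_of_srel hxy

/-- contrapositive of `not_blk` -/
theorem blk_of_NF (hs : 0 ≤ s) (h : NF Set.univ v s t c = 0) :
    Rel.Blk ZQ (BR v t \ BR v s) c (dE ZQ (BR v s)) (dE ZQ (L \ BR v t)) := by
  by_contra hn
  have := not_blk hs hn
  omega

/-! ## (c) Strands which are not closed -/

/-- the boundary sides of a box -/
theorem bdR_of_bS (hx : x ∈ bS ZQ (BR p R)) : BdR p R (und x) := by
  obtain ⟨h1, h2⟩ := mem_bS.mp hx
  obtain ⟨f, hf, k, h | h⟩ := mem_dE.mp h1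
  · subst h
    have h3 : nb f k ∉ BR p R := fun hh => h2 _ (by exact_mod_cast hh) (k + 2) (by
      change sd ZQ f k = (sd ZQ (nb f k) (k + 2)).swap
      rw [← sd_nb, Prod.swap_swap])
    have h4 : und (sd ZQ f k) = und (sd ZQ (nb f k) (k + 2)) := by
      rw [← sd_nb, und_swap h1]
    have h5 : IsSide f (und (sd ZQ f k)) := by
      rw [und_sd]
      exact su_isSide f k
    have h6 : IsSide (nb f k) (und (sd ZQ f k)) := by
      rw [h4, und_sd]
      exact su_isSide _ _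
    exact bd_of_side (inE_of_side (by exact_mod_cast hf) h5) h6 (by exact_mod_cast h3)
  · exfalso
    exact h2 f (by exact_mod_cast hf) k h

theorem hasPotQ_BR (p : ℤ × ℤ) (R : ℤ) : HasPotQ ZQ (BR p R) :=
  hasPotQ_of_hasPot (Perc6.hasPot_RF _ _ _ _)

/-- **The strands which are not closed and separate two inner vertices cross the annulus.** -/
theorem NR_le (hs : 0 ≤ s) (hsR : s < R) (hz : ConnE ZQ (BR p s) z z') :
    (NR (BR p R) z z' c).card ≤ NF Set.univ p s R c := by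
  classical
  have H : ∀ U ∈ NR (BR p R) z z' c, ∃ x ∈ bS ZQ (BR p R), x ∈ rep U ∧
      ∃ e ∈ dE ZQ (BR p s), e ∈ rep U := by
    intro U hU
    obtain ⟨h1, h2, h3⟩ := mem_NR.mp hU
    have hd := HG.rep_dstr h1
    obtain ⟨e, he, h4⟩ := (lft_spec (hasPotQ_BR p R) hd).visits (BR_subset hsR.le) hz h3
    obtain ⟨e', he', h5⟩ : ∃ e' ∈ dE ZQ (BR p s), e' ∈ rep U := by
      rcases h4 with h4 | h4
      · exact ⟨e, he, h4⟩
      · exact ⟨e.swap, swap_mem_dE.mpr he, h4⟩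
    have h6 := h2 e' h5
    have hm := stt_mem h6 (dE_mono (BR_subset hsR.le) he')
    obtain ⟨h7, h8⟩ := dstr_of_mem hd h5
    refine ⟨stt (BR p R) c e', hm, ?_, e', he', h5⟩
    rw [h8]
    refine mem_dst.mpr ⟨(mem_bS.mp hm).1, ?_⟩
    exact EqvGen.symm _ _ (srel_iff.mpr (Or.inl (stt_spec h6).1))
  choose! g hg1 hg2 hg3 using H
  have huniq : ∀ U ∈ NR (BR p R) z z' c, ∀ V ∈ NR (BR p R) z z' c,
      (rep U = rep V ∨ rep U = rv (rep V)) → U = V := by
    intro U hU V hV h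
    obtain ⟨-, hU2⟩ := ust_eq (mem_NR.mp hU).1 (rep_mem (mem_NR.mp hU).1)
    obtain ⟨-, hV2⟩ := ust_eq (mem_NR.mp hV).1 (rep_mem (mem_NR.mp hV).1)
    rcases h with h | h
    · rw [hU2, hV2, h]
    · rw [hU2, hV2, h, rv_rv, Finset.pair_comm]
  have hmm : ∀ U ∈ NR (BR p R) z z' c, ∀ V ∈ NR (BR p R) z z' c,
      und (g V) ∈ MM c (BR p R : Set (ℤ × ℤ)) (und (g U)) → U = V := by
    intro U hU V hV h
    have hdU := HG.rep_dstr (mem_NR.mp hU).1
    have hdV := HG.rep_dstr (mem_NR.mp hV).1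
    obtain ⟨h1, h2⟩ := dstr_of_mem hdU (hg2 U hU)
    obtain ⟨h3, h4⟩ := dstr_of_mem hdV (hg2 V hV)
    refine huniq U hU V hV ?_
    rcases (MM_iff_dst h1 h3).mp h with h5 | h5
    · left
      rw [h2, h4]
      exact dst_eq (mem_dst.mp h5).2
    · right
      rw [h4, rv_dst, h2]
      exact dst_eq (mem_dst.mp h5).2
  have hinj : Set.InjOn (fun U => und (g U)) (NR (BR p R) z z' c : Set (Finset (Finset DZ))) := by
    intro U hU V hV h
    refine hmm U (Finset.mem_coe.mp hU) V (Finset.mem_coe.mp hV) ?_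
    rw [show und (g V) = und (g U) from h.symm]
    exact mem_MM_self
  rw [← Finset.card_image_of_injOn hinj]
  have hdiff : Diff c (BR p R : Set (ℤ × ℤ)) ((NR (BR p R) z z' c).image fun U => und (g U)) := by
    intro b hb b' hb' h
    obtain ⟨U, hU, rfl⟩ := Finset.mem_image.mp hb
    obtain ⟨V, hV, rfl⟩ := Finset.mem_image.mp hb'
    rw [hmm U hU V hV h]
  have := card_le_sum_NF (ι := ℕ) (G := Set.univ) hdiff {0} (fun _ => p) hs hsR
    (fun _ _ f _ => Set.mem_univ f) (fun b hb => ?_)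
  · simpa using this
  obtain ⟨U, hU, rfl⟩ := Finset.mem_image.mp hb
  refine ⟨0, Finset.mem_singleton_self _, ?_, _, mem_MM_self, fun _ => bdR_of_bS (hg1 U hU)⟩
  obtain ⟨e, he, h1⟩ := hg3 U hU
  have hdU := HG.rep_dstr (mem_NR.mp hU).1
  obtain ⟨h2, h3⟩ := dstr_of_mem hdU (hg2 U hU)
  obtain ⟨f, hf, hf1⟩ := und_side he
  refine ⟨und e, ?_, inE_of_side (by exact_mod_cast hf) hf1⟩
  refine (MM_iff_dst h2 (dE_mono (BR_subset hsR.le) he)).mpr (Or.inl ?_)
  rwa [← h3]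

/-! ## (d) Paths in a box -/

theorem edge_h {G : Finset (ℤ × ℤ)} {i j : ℤ} (h : (i, j) ∈ G ∨ (i, j - 1) ∈ G) :
    (((i, j), (i + 1, j)) : DZ) ∈ dE ZQ G := by
  rcases h with h | h
  · exact mem_dE.mpr ⟨_, h, 0, Or.inl rfl⟩
  · refine mem_dE.mpr ⟨_, h, 2, Or.inr ?_⟩
    change (((i, j), (i + 1, j)) : DZ) = (cor0 (i, j - 1) 3, cor0 (i, j - 1) 2)
    rw [cor0_2, cor0_3]
    exact Prod.ext (Prod.ext rfl (by simp)) (Prod.ext rfl (by simp))

theorem edge_v {G : Finset (ℤ × ℤ)} {i j : ℤ} (h : (i, j) ∈ G ∨ (i - 1, j) ∈ G) :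
    (((i, j), (i, j + 1)) : DZ) ∈ dE ZQ G := by
  rcases h with h | h
  · refine mem_dE.mpr ⟨_, h, 3, Or.inr ?_⟩
    change (((i, j), (i, j + 1)) : DZ) = (cor0 (i, j) 0, cor0 (i, j) 3)
    rw [cor0_0, cor0_3]
  · refine mem_dE.mpr ⟨_, h, 1, Or.inl ?_⟩
    change (((i, j), (i, j + 1)) : DZ) = (cor0 (i - 1, j) 1, cor0 (i - 1, j) 2)
    rw [cor0_1, cor0_2]
    exact Prod.ext (Prod.ext (by simp) rfl) (Prod.ext (by simp) rfl)

theorem conn_h {G : Finset (ℤ × ℤ)} {i i' j : ℤ} (hx : i ≤ i')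
    (h : ∀ l, i ≤ l → l < i' → (l, j) ∈ G ∨ (l, j - 1) ∈ G) : ConnE ZQ G (i, j) (i', j) := by
  obtain ⟨n, rfl⟩ : ∃ n : ℕ, i' = i + n := ⟨(i' - i).toNat, by omega⟩
  clear hx
  induction n with
  | zero => rw [Nat.cast_zero, add_zero]; exact ReflTransGen.refl
  | succ n ih =>
    refine (ih fun l h1 h2 => h l h1 (by push_cast; omega)).tail ?_
    have := edge_h (G := G) (i := i + n) (j := j) (h _ (by omega) (by push_cast; omega))
    push_cast
    rw [← add_assoc]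
    exact this

theorem conn_v {G : Finset (ℤ × ℤ)} {i j j' : ℤ} (hx : j ≤ j')
    (h : ∀ l, j ≤ l → l < j' → (i, l) ∈ G ∨ (i - 1, l) ∈ G) : ConnE ZQ G (i, j) (i, j') := by
  obtain ⟨n, rfl⟩ : ∃ n : ℕ, j' = j + n := ⟨(j' - j).toNat, by omega⟩
  clear hx
  induction n with
  | zero => rw [Nat.cast_zero, add_zero]; exact ReflTransGen.refl
  | succ n ih =>
    refine (ih fun l h1 h2 => h l h1 (by push_cast; omega)).tail ?_
    have := edge_v (G := G) (i := i) (j := j + n) (h _ (by omega) (by push_cast; omega))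
    push_cast
    rw [← add_assoc]
    exact this

theorem conn_corner (hs : 1 ≤ s) (h1 : p.1 - s ≤ z.1) (h2 : z.1 ≤ p.1 + s) (h3 : p.2 - s ≤ z.2)
    (h4 : z.2 ≤ p.2 + s) : ConnE ZQ (BR p s) (p.1 - s, p.2 - s) z := by
  obtain ⟨a, b⟩ := z
  simp only at h1 h2 h3 h4
  refine ReflTransGen.trans (b := (a, p.2 - s)) (conn_h h1 fun l hl hl' => Or.inl ?_)
    (conn_v h3 fun l hl hl' => ?_)
  · rw [mem_BR]
    simp only
    omega
  · rcases lt_or_ge a (p.1 + s) with h | h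
    · left
      rw [mem_BR]
      simp only
      omega
    · right
      rw [mem_BR]
      simp only
      omega

/-- the vertices of a box are connected in the box -/
theorem connE_BR (hs : 1 ≤ s) (h1 : |z.1 - p.1| ≤ s) (h2 : |z.2 - p.2| ≤ s)
    (h3 : |z'.1 - p.1| ≤ s) (h4 : |z'.2 - p.2| ≤ s) : ConnE ZQ (BR p s) z z' := by
  rw [abs_le] at h1 h2 h3 h4
  exact (conn_corner hs (by omega) (by omega) (by omega) (by omega)).symm.trans
    (conn_corner hs (by omega) (by omega) (by omega) (by omega))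

/-! ## (e) The probability of a crossing -/

open Classical in
/-- **One strand crosses an annulus with small probability.** -/
theorem av_cross : ∃ C : ℝ, 0 < C ∧ ∀ (v : ℤ × ℤ) (s t : ℤ) (W : Finset (ℤ × ℤ)), 1 ≤ s → s ≤ t →
    BR v t ⊆ W → av W (fun ω => if 1 ≤ NF Set.univ v s t ω then (1 : ℝ) else 0) ≤
      C * ((s : ℝ) / t) ^ (1 / 4 : ℝ) := by
  obtain ⟨C, hC, h⟩ := pr_NF_pos
  refine ⟨C, hC, fun v s t W hs hst hW => ?_⟩
  obtain ⟨s', rfl⟩ := Int.eq_ofNat_of_zero_le (by omega : 0 ≤ s)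
  obtain ⟨t', rfl⟩ := Int.eq_ofNat_of_zero_le (by omega : 0 ≤ t)
  have h2 := h Set.univ v s' t' W (by exact_mod_cast hs) (by exact_mod_cast hst) hW
  rw [Int.cast_natCast, Int.cast_natCast]
  rw [pr_eq_av] at h2
  refine le_trans (le_of_eq ?_) h2
  exact av_congr fun T _ => rfl

end Pool.Agent.SixB.HPla
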