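import Pool.Agent.Lib.SixB.S3PosW

/-!
# 6BD step 3: planar sets of faces in a surface

* `Sht Q φ pos T`: the planar faces `T` lie in `Q` (faces `φ f`, vertices `pos v`, both injective).
* `Sht.disc`: discs; `Sht.mem_bS`, `Sht.bS_ex`, `Sht.mate`: boundary sides, mates, turnings, `Sht.wt`.
* `vis_conn`: connectedness of the visited faces.
* `tube_wt`: weight `√3` for the arcs of a rectangle in a tube.
-/

set_option autoImplicit false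
set_option linter.unusedSectionVars false

namespace Pool.Agent.SixB.Pos

open Pool.Agent.SixB Pool.Agent.Perc Pool.Agent.Perc.Q Relation

noncomputable section

variable {V Φ : Type} [DecidableEq V] [DecidableEq Φ]

/-- Planar faces in a surface. -/
structure Sht (Q : QC V Φ) (φ : ℤ × ℤ → Φ) (pos : ℤ × ℤ → V) (T : Finset (ℤ × ℤ)) : Prop where
  injF : Function.Injective φ
  injV : Function.Injective pos
  cor : ∀ f ∈ T, ∀ k, Q.c (φ f) k = pos (ZQ.c f k)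

variable {Q : QC V Φ} {φ : ℤ × ℤ → Φ} {pos : ℤ × ℤ → V} {T S : Finset (ℤ × ℤ)} {ω : Φ → Bool}
  {a b e : V × V} {ψ : V × V → ℝ} {w : List (((ℤ × ℤ) × (ℤ × ℤ)) × ℤ)} {a₀ e₀ : (ℤ × ℤ) × (ℤ × ℤ)}

/-- Images of sides. -/
abbrev mp (pos : ℤ × ℤ → V) (a : (ℤ × ℤ) × (ℤ × ℤ)) : V × V := Prod.map pos pos a

theorem Sht.mono (h : Sht Q φ pos T) (hS : S ⊆ T) : Sht Q φ pos S :=
  ⟨h.injF, h.injV, fun f hf => h.cor f (hS hf)⟩

theorem Sht.inj_mp (h : Sht Q φ pos T) {x y : (ℤ × ℤ) × (ℤ × ℤ)} (he : mp pos x = mp pos y) : x = y := by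
  obtain ⟨x1, x2⟩ := x
  obtain ⟨y1, y2⟩ := y
  have h1 : pos x1 = pos y1 := congrArg Prod.fst he
  have h2 : pos x2 = pos y2 := congrArg Prod.snd he
  rw [h.injV h1, h.injV h2]

theorem Sht.sdE (h : Sht Q φ pos T) {f : ℤ × ℤ} (hf : f ∈ T) (k : ZMod 4) :
    sd Q (φ f) k = mp pos (sd ZQ f k) := by
  unfold SixB.sd mp
  rw [h.cor f hf, h.cor f hf]
  rfl

theorem Sht.chart (h : Sht Q φ pos T) : Chart Q φ pos (T : Set (ℤ × ℤ)) where
  inj := fun _ _ _ _ he => h.injF he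
  c0 := fun f hf => h.cor f (by exact_mod_cast hf) 0
  c1 := fun f hf => h.cor f (by exact_mod_cast hf) 1
  c2 := fun f hf => h.cor f (by exact_mod_cast hf) 2
  c3 := fun f hf => h.cor f (by exact_mod_cast hf) 3

theorem Sht.mem_sides (h : Sht Q φ pos T) :
    mp pos e₀ ∈ Sides Q (φ '' (T : Set (ℤ × ℤ))) ↔ e₀ ∈ Sides ZQ (T : Set (ℤ × ℤ)) := by
  constructor
  · rintro ⟨_, ⟨f, hf, rfl⟩, k, hk⟩
    rw [h.sdE (by exact_mod_cast hf)] at hk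
    exact ⟨f, hf, k, h.inj_mp hk⟩
  · rintro ⟨f, hf, k, rfl⟩
    exact ⟨φ f, ⟨f, hf, rfl⟩, k, (h.sdE (by exact_mod_cast hf) k).symm⟩

theorem Sht.sides_ex (h : Sht Q φ pos T) (he : e ∈ Sides Q (φ '' (T : Set (ℤ × ℤ)))) :
    ∃ e₀ ∈ Sides ZQ (T : Set (ℤ × ℤ)), e = mp pos e₀ := by
  obtain ⟨_, ⟨f, hf, rfl⟩, k, hk⟩ := he
  exact ⟨sd ZQ f k, ⟨f, hf, k, rfl⟩, by rw [hk, h.sdE (by exact_mod_cast hf)]⟩

/-- **Complete discs.** -/
theorem Sht.disc (h : Sht Q φ pos T) (hD : Disc ZQ (T : Set (ℤ × ℤ)) (Glued ZQ (T : Set (ℤ × ℤ))) w) :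
    Disc Q ((T.image φ : Finset Φ) : Set Φ) (Glued Q ((T.image φ : Finset Φ) : Set Φ))
      (w.map (Prod.map (mp pos) id)) := by
  have h1 := disc_chart h.chart hD subset_rfl
  rw [Finset.coe_image]
  refine h1.complete ?_
  intro x hx
  obtain ⟨y, hy, rfl⟩ := List.mem_map.mp hx
  intro h2
  have h3 : mp pos y.1.swap ∈ Sides Q (φ '' (T : Set (ℤ × ℤ))) := h2
  exact (hD.bd hy).2 (h.mem_sides.mp h3)

theorem bS_iff {W Ψ : Type} [DecidableEq W] [DecidableEq Ψ] {Q' : QC W Ψ} {F : Finset Ψ} {x : W × W} :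
    x ∈ bS Q' F ↔ x ∈ Sides Q' (F : Set Ψ) ∧ x.swap ∉ Sides Q' (F : Set Ψ) := by
  constructor
  · intro hx
    obtain ⟨f, hf, k, hk⟩ := bS_sd hx
    refine ⟨⟨f, by exact_mod_cast hf, k, hk⟩, ?_⟩
    rintro ⟨f', hf', k', hk'⟩
    exact (SixB.mem_bS.mp hx).2 f' hf' k' (by rw [← Prod.swap_swap x, hk']; rfl)
  · rintro ⟨⟨f, hf, k, hk⟩, h2⟩
    refine SixB.mem_bS.mpr ⟨?_, ini_of_bd h2⟩
    rw [hk]
    exact sd_mem (by exact_mod_cast hf) k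

theorem Sht.mem_bS (h : Sht Q φ pos T) : mp pos e₀ ∈ bS Q (T.image φ) ↔ e₀ ∈ bS ZQ T := by
  rw [bS_iff, bS_iff, Finset.coe_image]
  have e1 : (mp pos e₀).swap = mp pos e₀.swap := rfl
  rw [e1, h.mem_sides, h.mem_sides]

theorem Sht.bS_ex (h : Sht Q φ pos T) (he : e ∈ bS Q (T.image φ)) : ∃ e₀ ∈ bS ZQ T, e = mp pos e₀ := by
  have h1 := (bS_iff.mp he).1
  rw [Finset.coe_image] at h1
  obtain ⟨e₀, -, rfl⟩ := h.sides_ex h1
  exact ⟨e₀, h.mem_bS.mp he, rfl⟩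

theorem Sht.st (h : Sht Q φ pos T) {x y : (ℤ × ℤ) × (ℤ × ℤ)} {t : ℤ}
    (hs : St ZQ (fun f => ω (φ f)) (T : Set (ℤ × ℤ)) x y t) :
    St Q ω ((T.image φ : Finset Φ) : Set Φ) (mp pos x) (mp pos y) t := by
  obtain ⟨f, hf, k, h1, h2, h3⟩ := hs
  have hf' : f ∈ T := by exact_mod_cast hf
  refine ⟨φ f, by exact_mod_cast Finset.mem_image_of_mem φ hf', k, ?_, ?_, h3⟩
  · rw [h1, h.sdE hf']
  · rw [h2, h.sdE hf']
    rfl

theorem Sht.walk (h : Sht Q φ pos T) {x y : (ℤ × ℤ) × (ℤ × ℤ)} {n : ℕ} {t : ℤ}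
    {G : Set ((ℤ × ℤ) × (ℤ × ℤ))} (hw : Walk ZQ (fun f => ω (φ f)) (T : Set (ℤ × ℤ)) G n x y t) :
    Walk Q ω ((T.image φ : Finset Φ) : Set Φ) Set.univ n (mp pos x) (mp pos y) t := by
  induction hw with
  | one h1 => exact Walk.one (h.st h1)
  | tail _ _ h1 ih => exact Walk.tail ih (Set.mem_univ _) (h.st h1)

/-- **Mates and turnings.** -/
theorem Sht.mateE (h : Sht Q φ pos T) (ha : a₀ ∈ bS ZQ T) :
    mate Q (T.image φ) ω (mp pos a₀) = mp pos (mate ZQ T (fun f => ω (φ f)) a₀) ∧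
      turn Q (T.image φ) ω (mp pos a₀) = turn ZQ T (fun f => ω (φ f)) a₀ := by
  obtain ⟨n, hn⟩ := walk_mate (ω := fun f => ω (φ f)) ha
  have h1 := h.walk hn
  have h2 := h.mem_bS.mpr ha
  have h3 := h.mem_bS.mpr (mate_mem (ω := fun f => ω (φ f)) ha)
  obtain ⟨h4, h5⟩ := h1.mate_turn (SixB.mem_bS.mp h2).2
    (show Ter Q _ (mp pos (mate ZQ T (fun f => ω (φ f)) a₀)).swap from
      ter_swap.mpr (SixB.mem_bS.mp h3).2)
  exact ⟨h4, h5⟩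

/-! ## Connectedness of the visited faces -/

theorem vis_conn {F A : Set Φ} (h0 : ∀ f ∈ F, ∀ k, e = sd Q f k → f ∈ A)
    (h1 : ∀ f ∈ Vis Q ω F e, f ∈ A → ∀ f' ∈ Vis Q ω F e, ∀ k l, sd Q f k = (sd Q f' l).swap → f' ∈ A) :
    Vis Q ω F e ⊆ A := by
  have key : ∀ b ∈ Orb Q ω F e, ∀ f ∈ F, ∀ k, b = sd Q f k → f ∈ A := by
    intro b hb
    induction (show ReflTransGen (Nx Q ω F) e b from hb) with
    | refl => exact h0
    | tail hab hs ih =>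
      rename_i x y
      intro f' hf' k' hy
      obtain ⟨f, hf, k, hx, hy2⟩ := Conf.nx_face hs
      have h2 := ih hab f hf k hx
      have h3 : f ∈ Vis Q ω F e := ⟨hf, k, by
        show sd Q f k ∈ _
        rw [← hx]; exact hab⟩
      have h4 : f' ∈ Vis Q ω F e := ⟨hf', k', by
        show sd Q f' k' ∈ _
        rw [← hy]; exact Orb_step hab hs⟩
      refine h1 f h3 h2 f' h4 (mt (ω f) k) k' ?_
      rw [← hy2, hy]
  rintro f ⟨hf, k, hk⟩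
  exact key _ hk f hf k rfl

/-! ## Segments -/

theorem seg0 {x y : ℤ} {n : ℕ} {z : ((ℤ × ℤ) × (ℤ × ℤ)) × ℤ} (h : z ∈ segm id ((x, y) : ℤ × ℤ) 0 n) :
    ∃ x', x ≤ x' ∧ x' < x + n ∧ z = (((x', y), (x' + 1, y)), 0) := by
  obtain ⟨i, hi, rfl⟩ := mem_segmP h
  refine ⟨x + i, by omega, by omega, ?_⟩
  rw [dv0]
  simp

theorem seg4 {x y : ℤ} {n : ℕ} {z : ((ℤ × ℤ) × (ℤ × ℤ)) × ℤ} (h : z ∈ segm id ((x, y) : ℤ × ℤ) 4 n) :
    ∃ x', x ≤ x' ∧ x' < x + n ∧ z = (((x', y), (x' + 1, y)), 4) := by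
  obtain ⟨i, hi, rfl⟩ := mem_segmP h
  refine ⟨x + i, by omega, by omega, ?_⟩
  rw [show (4 : ℤ) = 0 + 4 by norm_num, dv_add_four, dv0]
  simp

theorem seg1 {x y : ℤ} {n : ℕ} {z : ((ℤ × ℤ) × (ℤ × ℤ)) × ℤ} (h : z ∈ segm id ((x, y) : ℤ × ℤ) 1 n) :
    ∃ y', y ≤ y' ∧ y' < y + n ∧ z = (((x, y'), (x, y' + 1)), 1) := by
  obtain ⟨i, hi, rfl⟩ := mem_segmP h
  refine ⟨y + i, by omega, by omega, ?_⟩
  rw [dv1]
  simp

theorem seg2 {x y : ℤ} {n : ℕ} {z : ((ℤ × ℤ) × (ℤ × ℤ)) × ℤ} (h : z ∈ segm id ((x, y) : ℤ × ℤ) 2 n) :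
    ∃ x', x - n ≤ x' ∧ x' < x ∧ z = (((x' + 1, y), (x', y)), 2) := by
  obtain ⟨i, hi, rfl⟩ := mem_segmP h
  refine ⟨x - i - 1, by omega, by omega, ?_⟩
  rw [dv2]
  ext <;> simp <;> ring

theorem seg3 {x y : ℤ} {n : ℕ} {z : ((ℤ × ℤ) × (ℤ × ℤ)) × ℤ} (h : z ∈ segm id ((x, y) : ℤ × ℤ) 3 n) :
    ∃ y', y - n ≤ y' ∧ y' < y ∧ z = (((x, y' + 1), (x, y')), 3) := by
  obtain ⟨i, hi, rfl⟩ := mem_segmP h
  refine ⟨y - i - 1, by omega, by omega, ?_⟩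
  rw [dv3]
  ext <;> simp <;> ring

/-! ## Arcs in a tube -/

/-- **Weights of the arcs of a rectangle.** -/
theorem tube_wt {G : Finset Φ} {X₀ X₁ Y₀ Y₁ : ℤ} (hX : X₀ < X₁) (hY : Y₀ < Y₁)
    (h : Sht Q φ pos (RF X₀ X₁ Y₀ Y₁)) (hG : (RF X₀ X₁ Y₀ Y₁).image φ ⊆ G) (ha : a ∈ bS Q G)
    (hv : Vis Q ω (G : Set Φ) a ⊆ (((RF X₀ X₁ Y₀ Y₁).image φ : Finset Φ) : Set Φ)) {β δ : ℝ}
    (hδ : δ = 0 ∨ δ = Real.pi / 3)
    (hB : ∀ x, X₀ ≤ x → x < X₁ → mp pos ((x, Y₀), (x + 1, Y₀)) ∈ bS Q G →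
      ψ (mp pos ((x, Y₀), (x + 1, Y₀))) = β)
    (hR : ∀ y, Y₀ ≤ y → y < Y₁ → mp pos ((X₁, y), (X₁, y + 1)) ∈ bS Q G →
      ψ (mp pos ((X₁, y), (X₁, y + 1))) = β - Real.pi / 12)
    (hT : ∀ x, X₀ ≤ x → x < X₁ → mp pos ((x + 1, Y₁), (x, Y₁)) ∈ bS Q G →
      ψ (mp pos ((x + 1, Y₁), (x, Y₁))) = β + δ - Real.pi / 6)
    (hL : ∀ y, Y₀ ≤ y → y < Y₁ → mp pos ((X₀, y + 1), (X₀, y)) ∈ bS Q G →
      ψ (mp pos ((X₀, y + 1), (X₀, y))) = β + Real.pi / 12) :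
    wt Q G ω ψ a = Real.sqrt 3 := by
  obtain ⟨c1, c2, c3⟩ := Conf.conf_mate hG ha hv
  have e1 : wt Q ((RF X₀ X₁ Y₀ Y₁).image φ) ω ψ a = wt Q G ω ψ a := Conf.conf_wt hG ha hv rfl rfl
  rw [← e1]
  have hD := h.disc (disc_RF hX hY)
  have hini : ∀ e ∈ ((rectW X₀ X₁ Y₀ Y₁).map (Prod.map (mp pos) id)).map Prod.fst,
      Ini Q (((RF X₀ X₁ Y₀ Y₁).image φ : Finset Φ) : Set Φ) e := by
    intro e he
    obtain ⟨x, hx, rfl⟩ := List.mem_map.mp he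
    exact ini_of_bd (hD.bd hx).2
  obtain ⟨i, j, hi, hj, hij, h1, h2⟩ := hD.wt_pair hini ω ψ c1
  rw [h1]
  have hmG := mate_mem (ω := ω) ha
  rw [← c2] at hmG
  -- both entries are boundary sides of `G`
  have hiG : (((rectW X₀ X₁ Y₀ Y₁).map (Prod.map (mp pos) id))[i]).1 ∈ bS Q G := by
    rcases h2 with ⟨h3, h4⟩ | ⟨h3, h4⟩
    · rw [← h3]; exact ha
    · rw [← h4]; exact hmG
  have hjG : (((rectW X₀ X₁ Y₀ Y₁).map (Prod.map (mp pos) id))[j]).1 ∈ bS Q G := by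
    rcases h2 with ⟨h3, h4⟩ | ⟨h3, h4⟩
    · rw [← h4]; exact hmG
    · rw [← h3]; exact ha
  -- the pairwise relation
  have hpw : ((rectW X₀ X₁ Y₀ Y₁).map (Prod.map (mp pos) id)).Pairwise fun x y =>
      x.1 ∈ bS Q G → y.1 ∈ bS Q G → tw (val ψ y - val ψ x) = Real.sqrt 3 := by
    have hX' : ((X₁ - X₀).toNat : ℤ) = X₁ - X₀ := by omega
    have hY' : ((Y₁ - Y₀).toNat : ℤ) = Y₁ - Y₀ := by omega
    have v0 : ∀ x ∈ segm id ((X₀, Y₀) : ℤ × ℤ) 0 (X₁ - X₀).toNat, mp pos x.1 ∈ bS Q G →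
        val ψ (Prod.map (mp pos) id x) = β := by
      intro x hx hb
      obtain ⟨x', h3, h4, rfl⟩ := seg0 hx
      unfold val
      rw [Prod.map_fst, Prod.map_snd]
      rw [hB x' h3 (by omega) hb]
      simp
    have v1 : ∀ x ∈ segm id ((X₁, Y₀) : ℤ × ℤ) 1 (Y₁ - Y₀).toNat, mp pos x.1 ∈ bS Q G →
        val ψ (Prod.map (mp pos) id x) = β := by
      intro x hx hb
      obtain ⟨y', h3, h4, rfl⟩ := seg1 hx
      unfold val
      rw [Prod.map_fst, Prod.map_snd]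
      rw [hR y' h3 (by omega) hb]
      simp
    have v2 : ∀ x ∈ segm id ((X₁, Y₁) : ℤ × ℤ) 2 (X₁ - X₀).toNat, mp pos x.1 ∈ bS Q G →
        val ψ (Prod.map (mp pos) id x) = β + δ := by
      intro x hx hb
      obtain ⟨x', h3, h4, rfl⟩ := seg2 hx
      unfold val
      rw [Prod.map_fst, Prod.map_snd]
      rw [hT x' (by omega) (by omega) hb]
      simp
      ring
    have v3 : ∀ x ∈ segm id ((X₀, Y₁) : ℤ × ℤ) 3 (Y₁ - Y₀).toNat, mp pos x.1 ∈ bS Q G →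
        val ψ (Prod.map (mp pos) id x) = β + Real.pi / 3 := by
      intro x hx hb
      obtain ⟨y', h3, h4, rfl⟩ := seg3 hx
      unfold val
      rw [Prod.map_fst, Prod.map_snd]
      rw [hL y' (by omega) (by omega) hb]
      simp
      ring
    have t0 : tw 0 = Real.sqrt 3 := tw_zero
    have t1 : tw (Real.pi / 3) = Real.sqrt 3 := tw_third
    rw [List.pairwise_map]
    unfold rectW
    have hself : ∀ {l : List (((ℤ × ℤ) × (ℤ × ℤ)) × ℤ)} {c : ℝ}, (∀ x ∈ l, mp pos x.1 ∈ bS Q G →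
        val ψ (Prod.map (mp pos) id x) = c) → l.Pairwise fun x y =>
          (Prod.map (mp pos) id x).1 ∈ bS Q G → (Prod.map (mp pos) id y).1 ∈ bS Q G →
            tw (val ψ (Prod.map (mp pos) id y) - val ψ (Prod.map (mp pos) id x)) = Real.sqrt 3 := by
      intro l c hl
      refine List.pairwise_of_forall_mem_list fun x hx y hy h3 h4 => ?_
      rw [hl x hx h3, hl y hy h4, sub_self, t0]
    rw [List.pairwise_append, List.pairwise_append, List.pairwise_append]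
    refine ⟨hself v0, ⟨hself v1, ⟨hself v2, hself v3, ?_⟩, ?_⟩, ?_⟩
    · intro x hx y hy h3 h4
      rw [v2 x hx h3, v3 y hy h4]
      rcases hδ with rfl | rfl
      · rw [show β + Real.pi / 3 - (β + 0) = Real.pi / 3 by ring, t1]
      · rw [sub_self, t0]
    · intro x hx y hy h3 h4
      rw [v1 x hx h3]
      rcases List.mem_append.mp hy with hy | hy
      · rw [v2 y hy h4, add_sub_cancel_left]
        rcases hδ with rfl | rfl
        · exact t0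
        · exact t1
      · rw [v3 y hy h4, add_sub_cancel_left, t1]
    · intro x hx y hy h3 h4
      rw [v0 x hx h3]
      rcases List.mem_append.mp hy with hy | hy
      · rw [v1 y hy h4, sub_self, t0]
      · rcases List.mem_append.mp hy with hy | hy
        · rw [v2 y hy h4, add_sub_cancel_left]
          rcases hδ with rfl | rfl
          · exact t0
          · exact t1
        · rw [v3 y hy h4, add_sub_cancel_left, t1]
  exact List.pairwise_iff_getElem.mp hpw i j hi hj hij hiG hjG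

end

end Pool.Agent.SixB.Pos
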