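import Pool.Agent.Lib.SixB.S3PosCore
import Pool.Agent.Lib.SixB.S3PosSheet
import Pool.Agent.Lib.SixB.S3EnvN
import Pool.Agent.Lib.SixB.S3EnvB
import Pool.Agent.Lib.SixB.S3HDp

/-!
# 6BD step 3.8 (R18): the cut of an environment in its first tubes

* `NC g ω s i j`: the rectangle `tR g s i j` is not crossed lengthwise; `noX1`, `noX_rect1`: separation by ONE
  rectangle (zones of `S3PosCore`).
* `F1`, `K0`, `F2`, `K1`: the zones `17, 0, 1`, the zone `0`, the zones `2 .. 16`, the zones `3 .. 15`.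
  `core1`, `core2`: `Conf.Core` of `(F1, K0)` and `(F2, K1)`.
* `wt_E`, `wt_F1`, `wt_F2`: weight `√3` of the arcs confined to the rectangles.
-/

set_option autoImplicit false
set_option linter.unusedSectionVars false

namespace Pool.Agent.SixB.Tub

open Pool.Agent.SixB Pool.Agent.SixB.Gd Pool.Agent.SixB.Pos Pool.Agent.Perc Pool.Agent.Perc.Q Relation

noncomputable section

abbrev FF := Option Bool × (ℤ × ℤ)

variable {E : SEnv} {g : BGeo} {ω : FF → Bool} {s : Bool} {i j : ℕ}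

/-! ## One rectangle -/

/-- the rectangle is not crossed lengthwise -/
def NC (g : BGeo) (ω : FF → Bool) (s : Bool) (i j : ℕ) : Prop :=
  (fun f => ω (none, f)) ∉ Crs (tx g s i j) (tx' g s i j) (g.yc - g.a) (g.yc - g.a + 2 * g.a)

/-- it is a function of the faces of the rectangle -/
theorem NC_dep {ω' : FF → Bool} (h : ∀ f ∈ tR g s i j, ω (none, f) = ω' (none, f)) :
    NC g ω s i j ↔ NC g ω' s i j := by
  unfold NC
  have h1 := depOn_Crs (x₀ := tx g s i j) (x₁ := tx' g s i j) (y₀ := g.yc - g.a)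
    (y₁ := g.yc - g.a + 2 * g.a) (fun f => ω (none, f)) (fun f => ω' (none, f))
    (fun f hf => h f (by exact_mod_cast hf))
  exact not_congr h1

theorem noX1 (H : Uns E g) (hi : i < 3) (hj : j < 2) (hg : NC g ω s i j) {A B : Set FF}
    (hA : A ⊆ (E.F : Set FF)) (hB : B ⊆ (E.F : Set FF))
    (hAR : ∀ f ∈ tR g s i j, (none, f) ∉ A) (hBR : ∀ f ∈ tR g s i j, (none, f) ∉ B)
    (hA1 : ∀ y, g.yc - g.a ≤ y → y < g.yc + g.a → (none, (tx' g s i j, y)) ∉ A)
    (hB1 : ∀ y, g.yc - g.a ≤ y → y < g.yc + g.a → (none, (tx g s i j - 1, y)) ∉ B)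
    (hAB : ∀ b, Conf.Into E.Q A b.swap → ¬ Conf.Into E.Q B b) :
    Conf.NoX E.Q ω (tF g s i j : Set FF) A B := by
  rw [coe_tF]
  refine noX_of_LT (tCh H hi hj) ?_ ?_ hAB hg
  · intro f hf k hk
    have hf' : f ∈ tR g s i j := hf
    have hf1 := mem_tR.mp hf'
    rcases H.nb hi hj hf' hA hk with ⟨h1, h2⟩ | ⟨h1, h2⟩ | ⟨f', h1, h2⟩
    · refine ⟨?_, h1⟩
      by_contra hne
      refine hAR (f.1 - 1, f.2) ?_ h2
      rw [mem_tR]
      simp only
      omega
    · exfalso
      by_cases hx : f.1 + 1 = tx' g s i j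
      · rw [hx] at h2
        exact hA1 _ hf1.2.2.1 hf1.2.2.2 h2
      · refine hAR (f.1 + 1, f.2) ?_ h2
        rw [mem_tR]
        simp only
        omega
    · exact absurd h2 (hAR f' h1)
  · intro f hf k hk
    have hf' : f ∈ tR g s i j := hf
    have hf1 := mem_tR.mp hf'
    rcases H.nb hi hj hf' hB hk with ⟨h1, h2⟩ | ⟨h1, h2⟩ | ⟨f', h1, h2⟩
    · exfalso
      by_cases hx : f.1 = tx g s i j
      · rw [hx] at h2
        exact hB1 _ hf1.2.2.1 hf1.2.2.2 h2
      · refine hBR (f.1 - 1, f.2) ?_ h2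
        rw [mem_tR]
        simp only
        omega
    · refine ⟨?_, h1⟩
      by_contra hne
      refine hBR (f.1 + 1, f.2) ?_ h2
      rw [mem_tR]
      simp only
      omega
    · exact absurd h2 (hBR f' h1)

/-- **The rectangle separates the faces on its two sides.** -/
theorem noX_rect1 (H : PE E g) (hi : i < 3) (hj : j < 2) (hg : NC g ω s i j)
    {p q : ℕ → Bool} (hp : p (zi s i j) = false) (hp' : p (zp (zi s i j)) = false)
    (hq : q (zi s i j) = false) (hq' : q (zm (zi s i j)) = false)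
    (hpq : ∀ z < 18, ∀ z' < 18, p z = true → q z' = true → ¬ adjZ z z') :
    Conf.NoX E.Q ω (tF g s i j : Set FF) (zF E g p) (zF E g q) := by
  have hab := H.ab
  have hbc := H.bc
  have hz := zc_tx' (g := g) (s := s) H.k4 H.x_lt.le hi hj
  refine noX1 H.uns hi hj hg ?_ ?_ ?_ ?_ ?_ ?_ ?_
  · intro f hf
    exact_mod_cast (mem_zF.mp (by exact_mod_cast hf)).1
  · intro f hf
    exact_mod_cast (mem_zF.mp (by exact_mod_cast hf)).1
  · intro f hf h1
    have h2 := (mem_zF.mp (by exact_mod_cast h1)).2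
    rw [H.zone_tR hi hj hf, hp] at h2
    exact absurd h2 (by simp)
  · intro f hf h1
    have h2 := (mem_zF.mp (by exact_mod_cast h1)).2
    rw [H.zone_tR hi hj hf, hq] at h2
    exact absurd h2 (by simp)
  · intro y h1 h2 h3
    have h4 := (mem_zF.mp (by exact_mod_cast h3)).2
    unfold zone at h4
    simp only [ne_eq, not_true_eq_false, if_false] at h4
    rw [if_neg (by omega), hz.1, hp'] at h4
    exact absurd h4 (by simp)
  · intro y h1 h2 h3
    have h4 := (mem_zF.mp (by exact_mod_cast h3)).2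
    unfold zone at h4
    simp only [ne_eq, not_true_eq_false, if_false] at h4
    rw [if_neg (by omega), hz.2, hq'] at h4
    exact absurd h4 (by simp)
  · rintro b ⟨f, hf, k, hk⟩ ⟨f', hf', l, hl⟩
    have h1 := mem_zF.mp (show f ∈ zF E g p by exact_mod_cast hf)
    have h2 := mem_zF.mp (show f' ∈ zF E g q by exact_mod_cast hf')
    refine hpq _ (zone_lt g f) _ (zone_lt g f') h1.2 h2.2 (H.adj h1.1 h2.1 (k := k) (l := l) ?_)
    rw [← hk, ← hl]

/-! ## The cut -/

/-- zones of the inner part -/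
def b1 (z : ℕ) : Bool := z == 0 || z == 1 || z == 17

/-- zones of the outer core -/
def b3 (z : ℕ) : Bool := ! (z == 0 || z == 1 || z == 2 || z == 16 || z == 17)

/-- inner part: `D` with the two halves of its first tubes -/
def F1 (E : SEnv) (g : BGeo) : Finset FF := zF E g b1

/-- inner core -/
def K0 (E : SEnv) (g : BGeo) : Finset FF := zF E g fun z => z == 0

/-- outer part -/
def F2 (E : SEnv) (g : BGeo) : Finset FF := zF E g fun z => ! b1 z

/-- outer core -/
def K1 (E : SEnv) (g : BGeo) : Finset FF := zF E g b3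

theorem F1_sub : F1 E g ⊆ E.F := Finset.filter_subset _ _

theorem F2_sub : F2 E g ⊆ E.F := Finset.filter_subset _ _

theorem F2_eq : F2 E g = E.F \ F1 E g := by
  ext f
  unfold F1 F2
  rw [Finset.mem_sdiff, mem_zF, mem_zF]
  cases b1 (zone g f) <;> simp

theorem F1_disj : Disjoint (F1 E g) (F2 E g) := by
  rw [F2_eq]
  exact Finset.disjoint_sdiff

theorem F1_union : F1 E g ∪ F2 E g = E.F := by
  rw [F2_eq]
  exact Finset.union_sdiff_of_subset F1_sub

theorem zF_mono {p q : ℕ → Bool} (h : ∀ z, p z = true → q z = true) : zF E g p ⊆ zF E g q := by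
  intro f hf
  obtain ⟨h1, h2⟩ := mem_zF.mp hf
  exact mem_zF.mpr ⟨h1, h _ h2⟩

theorem K0_sub : K0 E g ⊆ F1 E g := zF_mono fun z hz => by
  rw [beq_iff_eq] at hz
  subst hz
  rfl

theorem K1_sub : K1 E g ⊆ F2 E g := zF_mono fun z hz => by
  unfold b3 at hz
  unfold b1
  rw [Bool.not_eq_true', Bool.or_eq_false_iff, Bool.or_eq_false_iff, Bool.or_eq_false_iff,
    Bool.or_eq_false_iff] at hz
  obtain ⟨⟨⟨⟨h0, h1⟩, h2⟩, h3⟩, h4⟩ := hz
  rw [h0, h1, h4]
  rfl

/-- **The rectangles between core and cut, inner side.** -/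
theorem F1_K0 (H : PE E g) : F1 E g \ K0 E g = tF g true 0 0 ∪ tF g false 0 0 := by
  ext f
  rw [Finset.mem_sdiff, Finset.mem_union, H.mem_tF (by norm_num) (by norm_num),
    H.mem_tF (by norm_num) (by norm_num)]
  unfold F1 K0
  rw [mem_zF, mem_zF, beq_iff_eq]
  unfold b1 zi
  simp only [Bool.or_eq_true, beq_iff_eq, if_true, Bool.false_eq_true, if_false]
  by_cases hf : f ∈ E.F
  · simp only [hf, true_and]
    omega
  · simp only [hf, false_and, or_self]

/-- **The rectangles between core and cut, outer side.** -/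
theorem F2_K1 (H : PE E g) : F2 E g \ K1 E g = tF g true 0 1 ∪ tF g false 0 1 := by
  ext f
  rw [Finset.mem_sdiff, Finset.mem_union, H.mem_tF (by norm_num) (by norm_num),
    H.mem_tF (by norm_num) (by norm_num)]
  unfold F2 K1
  rw [mem_zF, mem_zF]
  unfold b1 b3 zi
  simp only [Bool.not_eq_true', Bool.or_eq_false_iff, beq_eq_false_iff_ne, if_true, Bool.false_eq_true,
    if_false]
  by_cases hf : f ∈ E.F
  · simp only [hf, true_and]
    omega
  · simp only [hf, false_and, or_self]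

theorem noX_two (H : PE E g) {A B : Set FF} {i' j' : ℕ} (hi : i < 3) (hj : j < 2) (hi' : i' < 3)
    (hj' : j' < 2) (hz : ¬ adjZ (zi true i j) (zi false i' j'))
    (h : Conf.NoX E.Q ω (tF g true i j : Set FF) A B)
    (h' : Conf.NoX E.Q ω (tF g false i' j' : Set FF) A B) :
    Conf.NoX E.Q ω ((tF g true i j : Set FF) ∪ (tF g false i' j' : Set FF)) A B := by
  refine Conf.NoX.union ?_ h h'
  rintro b ⟨f, hf, k, hk⟩ ⟨f', hf', l, hl⟩
  have h1 := (H.mem_tF hi hj).mp (by exact_mod_cast hf)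
  have h2 := (H.mem_tF hi' hj').mp (by exact_mod_cast hf')
  have h3 := H.adj h1.1 h2.1 (k := k) (l := l) (by rw [← hk, ← hl, Prod.swap_swap])
  rw [h1.2, h2.2] at h3
  exact hz h3

/-- **Inner core.** -/
theorem core1 (H : PE E g) (h1 : NC g ω true 0 0) (h2 : NC g ω false 0 0) :
    Conf.Core E.Q E.F (F1 E g) (K0 E g) ω := by
  refine ⟨K0_sub, F1_sub, ?_⟩
  have e1 : ((F1 E g : Set FF) \ K0 E g) = (tF g true 0 0 : Set FF) ∪ (tF g false 0 0 : Set FF) := by
    rw [← Finset.coe_sdiff, F1_K0 H, Finset.coe_union]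
  have e2 : ((E.F : Set FF) \ F1 E g) = (zF E g fun z => ! b1 z : Set FF) := by
    rw [← Finset.coe_sdiff, ← F2_eq]
    rfl
  rw [e1, e2]
  refine noX_two H (by norm_num) (by norm_num) (by norm_num) (by norm_num) (by decide) ?_ ?_
  · exact noX_rect1 H (by norm_num) (by norm_num) h1 (p := fun z => z == 0) (q := fun z => ! b1 z)
      (by decide) (by decide) (by decide) (by decide) (by decide)
  · exact (noX_rect1 H (by norm_num) (by norm_num) h2 (q := fun z => z == 0) (p := fun z => ! b1 z)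
      (by decide) (by decide) (by decide) (by decide) (by decide)).symm

/-- **Outer core.** -/
theorem core2 (H : PE E g) (h1 : NC g ω true 0 1) (h2 : NC g ω false 0 1) :
    Conf.Core E.Q E.F (F2 E g) (K1 E g) ω := by
  refine ⟨K1_sub, F2_sub, ?_⟩
  have e1 : ((F2 E g : Set FF) \ K1 E g) = (tF g true 0 1 : Set FF) ∪ (tF g false 0 1 : Set FF) := by
    rw [← Finset.coe_sdiff, F2_K1 H, Finset.coe_union]
  have e2 : ((E.F : Set FF) \ F2 E g) = (zF E g b1 : Set FF) := by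
    rw [← Finset.coe_sdiff, F2_eq, Finset.sdiff_sdiff_eq_self F1_sub]
    rfl
  rw [e1, e2]
  refine noX_two H (by norm_num) (by norm_num) (by norm_num) (by norm_num) (by decide) ?_ ?_
  · exact (noX_rect1 H (by norm_num) (by norm_num) h1 (q := b3) (p := b1)
      (by decide) (by decide) (by decide) (by decide) (by decide)).symm
  · exact noX_rect1 H (by norm_num) (by norm_num) h2 (p := b3) (q := b1)
      (by decide) (by decide) (by decide) (by decide) (by decide)

/-! ## The slab -/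

section Slab

variable {S : Slb} {W : Finset (ℤ × ℤ)}

/-- the window contains the blocks -/
def Win (S : Slb) (W : Finset (ℤ × ℤ)) : Prop :=
  RF ((S.geo 0).x1 - 7 * (S.geo 0).k - 1) ((S.geo 0).x2 + 7 * (S.geo 0).k + 1)
    ((S.geo 0).yc - (S.geo 0).c - 1) ((S.geo 0).yc + (S.geo 0).c + 1) ⊆ W

theorem pe (hS : S.Ok) (hW : Win S W) : PE (S.env W 0 0) (S.geo 0) := by
  have h1 := hS.ha
  have h2 := hS.hak
  have h3 := hS.hx
  refine ⟨rfl, rfl, h1, ?_, ?_, ?_, ?_, hW⟩
  · show S.a ≤ S.k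
    omega
  · show S.k + 2 ≤ 3 * S.k + (S.x2 - S.x1).toNat
    omega
  · show 4 ≤ S.k
    omega
  · show S.x1 + 0 < S.x2 + 0
    omega

theorem geo_x1 : (S.geo 0).x1 = S.x1 := by show S.x1 + 0 = S.x1; ring

theorem geo_x2 : (S.geo 0).x2 = S.x2 := by show S.x2 + 0 = S.x2; ring

theorem geo_q : ((S.geo 0).k / 4 : ℕ) = S.q := rfl

/-- base faces in the columns of the slab and of its first tubes -/
theorem mem_base_strip (hS : S.Ok) (hW : Win S W) {f : ℤ × ℤ} {c : ℕ} (hc : c < S.k)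
    (h1 : S.x1 - c ≤ f.1) (h2 : f.1 < S.x2 + c) : f ∈ (S.env W 0 0).base ∧
      ¬ (f.2 < S.yc - (S.geo 0).c ∨ S.yc + (S.geo 0).c ≤ f.2) ↔ S.yc - S.a ≤ f.2 ∧ f.2 < S.yc + S.a := by
  have H := pe hS hW
  have h0 := hS.ha
  have h3 := hS.hak
  have h4 := hS.hx
  have hcc : (S.geo 0).c = 3 * S.k + (S.x2 - S.x1).toNat := rfl
  have hgx1 : (S.geo 0).x1 = S.x1 := geo_x1
  have hgx2 : (S.geo 0).x2 = S.x2 := geo_x2
  have hgk : (S.geo 0).k = S.k := rfl
  have hga : (S.geo 0).a = S.a := rfl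
  have hgy : (S.geo 0).yc = S.yc := rfl
  have hch : ¬ (S.geo 0).cham f.1 := by
    unfold BGeo.cham
    rw [hgx1, hgx2, hgk]
    omega
  rw [H.mem_base]
  constructor
  · rintro ⟨⟨h5, h6, h7⟩, h8⟩
    constructor
    · by_contra hcon
      apply h7
      unfold BGeo.solid BGeo.hgt
      simp only [Bool.false_eq_true, if_false]
      rw [hgx1, hgx2, hgk, hga, hgy]
      exact ⟨by omega, by omega, by omega, by omega, fun h => hch h.1⟩
    · by_contra hcon
      apply h6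
      unfold BGeo.solid BGeo.hgt
      simp only [if_true]
      rw [hgx1, hgx2, hgk, hga, hgy]
      exact ⟨by omega, by omega, by omega, by omega, fun h => hch h.1⟩
  · rintro ⟨h5, h6⟩
    refine ⟨⟨hW ?_, ?_, ?_⟩, by omega⟩
    · rw [mem_RF]
      rw [hgx1, hgx2, hgk, hgy]
      omega
    · unfold BGeo.solid BGeo.hgt
      simp only [if_true]
      rw [hgy, hga]
      omega
    · unfold BGeo.solid BGeo.hgt
      simp only [Bool.false_eq_true, if_false]
      rw [hgy, hga]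
      omega

/-- the parts `S.G c` as zones -/
theorem mem_G_iff (hS : S.Ok) (hW : Win S W) {c : ℕ} (hc : c < S.k) {f : FF} :
    f ∈ S.G c ↔ f ∈ (S.env W 0 0).F ∧ (f.1 = none → S.x1 - c ≤ f.2.1 ∧ f.2.1 < S.x2 + c ∧
      ¬ (f.2.2 < S.yc - (S.geo 0).c ∨ S.yc + (S.geo 0).c ≤ f.2.2)) := by
  rw [Slb.mem_G, mem_EF]
  have hU : (S.env W 0 0).U = S.Up := by
    show shF 0 S.Up = S.Up
    unfold shF shv
    simp
  have hL : (S.env W 0 0).L = S.Lo := by
    show shF 0 S.Lo = S.Lo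
    unfold shF shv
    simp
  rw [hU, hL]
  obtain ⟨σ, f⟩ := f
  simp only
  constructor
  · rintro (⟨h1, h2⟩ | ⟨h1, h2⟩ | ⟨h1, h2⟩)
    · rw [Slb.mem_strip] at h2
      have h3 := (mem_base_strip hS hW hc h2.1 h2.2.1).mpr ⟨h2.2.2.1, h2.2.2.2⟩
      exact ⟨Or.inl ⟨h1, h3.1⟩, fun _ => ⟨h2.1, h2.2.1, h3.2⟩⟩
    · exact ⟨Or.inr (Or.inl ⟨h1, h2⟩), fun h => by rw [h1] at h; exact absurd h (by simp)⟩
    · exact ⟨Or.inr (Or.inr ⟨h1, h2⟩), fun h => by rw [h1] at h; exact absurd h (by simp)⟩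
  · rintro ⟨⟨h1, h2⟩ | ⟨h1, h2⟩ | ⟨h1, h2⟩, h3⟩
    · obtain ⟨h4, h5, h6⟩ := h3 h1
      have h7 := (mem_base_strip hS hW hc h4 h5).mp ⟨h2, h6⟩
      exact Or.inl ⟨h1, Slb.mem_strip.mpr ⟨h4, h5, h7.1, h7.2⟩⟩
    · exact Or.inr (Or.inl ⟨h1, h2⟩)
    · exact Or.inr (Or.inr ⟨h1, h2⟩)

theorem G_zF (hS : S.Ok) (hW : Win S W) {c : ℕ} (hc : c < S.k) {p : ℕ → Bool} (h0 : p 0 = true)
    (h9 : p 9 = false) (hp : ∀ x, p (zc (S.geo 0) x) = true ↔ S.x1 - c ≤ x ∧ x < S.x2 + c) :
    S.G c = zF (S.env W 0 0) (S.geo 0) p := by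
  ext f
  rw [mem_G_iff hS hW hc, mem_zF]
  obtain ⟨σ, f⟩ := f
  simp only
  refine and_congr_right fun _ => ?_
  unfold zone
  simp only
  have hgy : (S.geo 0).yc = S.yc := rfl
  rw [hgy]
  by_cases h1 : σ = none
  · subst h1
    simp only [ne_eq, not_true_eq_false, if_false, true_imp_iff]
    split_ifs with h2
    · rw [h9]
      constructor
      · rintro ⟨-, -, h3⟩
        exact absurd h2 h3
      · intro h3
        exact absurd h3 (by simp)
    · rw [hp]
      tauto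
  · rw [if_pos h1, h0]
    constructor
    · intro _
      rfl
    · intro _ h2
      exact absurd h2 h1

theorem G1 (hS : S.Ok) (hW : Win S W) : S.G (2 * S.q) = F1 (S.env W 0 0) (S.geo 0) := by
  have hk := (pe hS hW).k4
  have hx := (pe hS hW).x_lt
  have hq : S.q = ((S.geo 0).k / 4 : ℕ) := rfl
  have hgx1 : (S.geo 0).x1 = S.x1 := geo_x1
  have hgx2 : (S.geo 0).x2 = S.x2 := geo_x2
  have hgk : (S.geo 0).k = S.k := rfl
  refine G_zF hS hW (by omega) rfl (by rfl) fun x => ?_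
  have h1 := zc_iff (S.geo 0) x
  unfold b1
  simp only [Bool.or_eq_true, beq_iff_eq]
  rw [← hgx1, ← hgx2, hq]
  push_cast at h1 ⊢
  omega

theorem G0 (hS : S.Ok) (hW : Win S W) : S.G S.q = K0 (S.env W 0 0) (S.geo 0) := by
  have hk := (pe hS hW).k4
  have hx := (pe hS hW).x_lt
  have hq : S.q = ((S.geo 0).k / 4 : ℕ) := rfl
  have hgx1 : (S.geo 0).x1 = S.x1 := geo_x1
  have hgx2 : (S.geo 0).x2 = S.x2 := geo_x2
  have hgk : (S.geo 0).k = S.k := rfl
  refine G_zF hS hW (by omega) rfl (by rfl) fun x => ?_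
  have h1 := zc_iff (S.geo 0) x
  simp only [beq_iff_eq]
  rw [← hgx1, ← hgx2, hq]
  push_cast at h1 ⊢
  omega

theorem G3 (hS : S.Ok) (hW : Win S W) :
    (S.env W 0 0).F \ S.G (3 * S.q) = K1 (S.env W 0 0) (S.geo 0) := by
  have hk := (pe hS hW).k4
  have hx := (pe hS hW).x_lt
  have hq : S.q = ((S.geo 0).k / 4 : ℕ) := rfl
  have hgx1 : (S.geo 0).x1 = S.x1 := geo_x1
  have hgx2 : (S.geo 0).x2 = S.x2 := geo_x2
  have hgk : (S.geo 0).k = S.k := rfl
  have h0 : S.G (3 * S.q) = zF (S.env W 0 0) (S.geo 0) fun z => ! b3 z := by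
    refine G_zF hS hW (by omega) rfl (by rfl) fun x => ?_
    have h1 := zc_iff (S.geo 0) x
    unfold b3
    simp only [Bool.not_not, Bool.or_eq_true, beq_iff_eq]
    rw [← hgx1, ← hgx2, hq]
    push_cast at h1 ⊢
    omega
  rw [h0]
  ext f
  unfold K1
  rw [Finset.mem_sdiff, mem_zF, mem_zF]
  cases b3 (zone (S.geo 0) f) <;> simp

theorem nc {j : ℕ} (h : S.bd j ω = 0) (s : Bool) : NC (S.geo 0) ω s 0 j := Slb.bd_zero h s

/-- **Inner core.** -/
theorem core_in (hS : S.Ok) (hW : Win S W) (h : S.bd 0 ω = 0) :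
    Conf.Core (S.env W 0 0).Q (S.env W 0 0).F (S.G (2 * S.q)) (S.G S.q) ω := by
  rw [G1 hS hW, G0 hS hW]
  exact core1 (pe hS hW) (nc h true) (nc h false)

/-- **Outer core.** -/
theorem core_out (hS : S.Ok) (hW : Win S W) (h : S.bd 1 ω = 0) :
    Conf.Core (S.env W 0 0).Q (S.env W 0 0).F ((S.env W 0 0).F \ S.G (2 * S.q))
      ((S.env W 0 0).F \ S.G (3 * S.q)) ω := by
  rw [G1 hS hW, G3 hS hW, ← F2_eq]
  exact core2 (pe hS hW) (nc h true) (nc h false)

end Slab

end

end Pool.Agent.SixB.Tub
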