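import Pool.Agent.Lib.SixB.S3PosZone

/-!
# 6BD step 3: cores and pieces of an environment

* `adj`: faces with a common side lie in neighbouring zones.
* `zF E g S`: faces whose zone lies in `S`; `zone_rect`: the rectangles are zones.
* `noX_rect`; `core`: on the good event the zone `c` is a core of the piece with the zones `c - 1`, `c`, `c + 1`.
* `orb_zone`: a strand which avoids all cores stays in the two rectangles of one tube.
-/

set_option autoImplicit false
set_option linter.unusedSectionVars false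

namespace Pool.Agent.SixB.Pos

open Pool.Agent.SixB Pool.Agent.SixB.Gd Pool.Agent.Perc Pool.Agent.Perc.Q Relation

noncomputable section

variable {E : SEnv} {g : BGeo} {ω : Option Bool × (ℤ × ℤ) → Bool}

theorem PE.uns (H : PE E g) : Uns E g where
  hu := H.hu
  hd := H.hd
  a_pos := H.a_pos
  a_lt := by have := H.ab; have := H.bc; omega
  k_le := H.k4
  x_le := H.x_lt.le
  win := by
    intro s i hi j hj f hf
    apply H.W
    have h1 := mem_tR.mp hf
    have h2 := tube_col (g := g) (s := s) (i := i) (j := j) (x := f.1) H.k4 hi hj (by omega) (by omega) H.x_lt.le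
    have := H.ab
    have := H.bc
    rw [mem_RF]
    omega

/-- faces of the environment -/
theorem mem_EF {f : Option Bool × (ℤ × ℤ)} : f ∈ E.F ↔ (f.1 = none ∧ f.2 ∈ E.base) ∨
    (f.1 = some true ∧ f.2 ∈ E.U) ∨ (f.1 = some false ∧ f.2 ∈ E.L) := by
  unfold SEnv.F
  rw [Finset.mem_union, Finset.mem_union, Finset.mem_image, Finset.mem_image, Finset.mem_image]
  obtain ⟨s, f⟩ := f
  constructor
  · rintro ((⟨x, h1, h2⟩ | ⟨x, h1, h2⟩) | ⟨x, h1, h2⟩)
    · rw [← h2]; exact Or.inl ⟨rfl, h1⟩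
    · rw [← h2]; exact Or.inr (Or.inl ⟨rfl, h1⟩)
    · rw [← h2]; exact Or.inr (Or.inr ⟨rfl, h1⟩)
  · rintro (⟨h1, h2⟩ | ⟨h1, h2⟩ | ⟨h1, h2⟩)
    · exact Or.inl (Or.inl ⟨f, h2, by simp only at h1; rw [h1]⟩)
    · exact Or.inl (Or.inr ⟨f, h2, by simp only at h1; rw [h1]⟩)
    · exact Or.inr ⟨f, h2, by simp only at h1; rw [h1]⟩

/-- base faces -/
theorem PE.mem_base (H : PE E g) {f : ℤ × ℤ} : f ∈ E.base ↔
    f ∈ E.W ∧ ¬ g.solid true f ∧ ¬ g.solid false f := by
  unfold SEnv.base
  rw [Finset.mem_filter, H.hu, H.hd]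

/-- faces with a common side in the plane -/
theorem nb_cases {f f' : ℤ × ℤ} {k l : ZMod 4} (p1 : ZQ.c f (k + 1) = ZQ.c f' l)
    (p2 : ZQ.c f k = ZQ.c f' (l + 1)) : (k = 0 ∧ f' = (f.1, f.2 - 1)) ∨ (k = 1 ∧ f' = (f.1 + 1, f.2)) ∨
      (k = 2 ∧ f' = (f.1, f.2 + 1)) ∨ (k = 3 ∧ f' = (f.1 - 1, f.2)) := by
  obtain ⟨u, v⟩ := f
  obtain ⟨u', v'⟩ := f'
  have c0 : ∀ a b : ℤ, ZQ.c (a, b) 0 = (a, b) := fun _ _ => rfl
  have c1 : ∀ a b : ℤ, ZQ.c (a, b) 1 = (a + 1, b) := fun _ _ => rfl
  have c2 : ∀ a b : ℤ, ZQ.c (a, b) 2 = (a + 1, b + 1) := fun _ _ => rfl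
  have c3 : ∀ a b : ℤ, ZQ.c (a, b) 3 = (a, b + 1) := fun _ _ => rfl
  have e1 : (0 : ZMod 4) + 1 = 1 := rfl
  have e2 : (1 : ZMod 4) + 1 = 2 := rfl
  have e3 : (2 : ZMod 4) + 1 = 3 := rfl
  have e4 : (3 : ZMod 4) + 1 = 0 := rfl
  rcases Tilt.k4 k with rfl | rfl | rfl | rfl <;> rcases Tilt.k4 l with rfl | rfl | rfl | rfl <;>
    simp only [e1, e2, e3, e4, c0, c1, c2, c3, Prod.mk.injEq] at p1 p2 <;>
    first
    | (exfalso; omega)
    | (left; exact ⟨rfl, by rw [Prod.mk.injEq]; simp only; omega⟩)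
    | (right; left; exact ⟨rfl, by rw [Prod.mk.injEq]; simp only; omega⟩)
    | (right; right; left; exact ⟨rfl, by rw [Prod.mk.injEq]; simp only; omega⟩)
    | (right; right; right; exact ⟨rfl, by rw [Prod.mk.injEq]; simp only; omega⟩)

/-- a gluing which changes the sheet -/
theorem PE.msig_ne (H : PE E g) {f : ℤ × ℤ} {k : ZMod 4} {σ : Option Bool}
    (h : (E.Q.c (σ, f) k).1 ≠ σ) : g.x1 ≤ f.1 ∧ f.1 < g.x2 ∧ (f.2 = g.yc + g.a ∨ f.2 + 1 = g.yc - g.a) := by
  by_contra hc
  apply h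
  have h1 : msig (fun i : Bool => if i then E.gu.mouth true else E.gd.mouth false) f k σ = σ := by
    refine msig_eq_one ?_ σ
    rintro (_ | _) h2
    · rw [Emb.adj_dn, H.hd] at h2
      exact hc ⟨h2.1, h2.2.1, Or.inr h2.2.2.1⟩
    · rw [Emb.adj_up, H.hu] at h2
      exact hc ⟨h2.1, h2.2.1, Or.inl h2.2.2.1⟩
  exact h1

theorem PE.zc0 (H : PE E g) {x : ℤ} (h1 : g.x1 - 1 ≤ x) (h2 : x ≤ g.x2) : zc g x = 0 := by
  have h3 := zc_iff g x
  have h5 : 1 ≤ g.k / 4 := by have := H.k4; omega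
  generalize g.k / 4 = q at h3 h5
  generalize zc g x = z at h3 ⊢
  rcases h3 with h | h | h | h | h | h | h | h | h | h | h | h | h | h | h | h | h | h | h <;> omega

theorem PE.c_base (H : PE E g) {f : ℤ × ℤ} (hf : f ∈ E.base) (k : ZMod 4) :
    (E.Q.c (none, f) k) = (none, ZQ.c f k) := by
  have h1 := H.ab
  have h2 := H.bc
  exact Emb.base_sig E (by rw [H.hu]; omega) (by rw [H.hd]; omega) hf k

/-- **Faces with a common side lie in neighbouring zones.** -/
theorem PE.adj (H : PE E g) {f f' : Option Bool × (ℤ × ℤ)} (hf : f ∈ E.F) (hf' : f' ∈ E.F) {k l : ZMod 4}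
    (h : sd E.Q f k = (sd E.Q f' l).swap) : adjZ (zone g f) (zone g f') := by
  obtain ⟨σ, f⟩ := f
  obtain ⟨σ', f'⟩ := f'
  have hl1 : E.Q.c (σ, f) (k + 1) = E.Q.c (σ', f') l := congrArg Prod.snd h
  have hl2 : E.Q.c (σ, f) k = E.Q.c (σ', f') (l + 1) := congrArg Prod.fst h
  have p1 : ZQ.c f (k + 1) = ZQ.c f' l := congrArg Prod.snd hl1
  have p2 : ZQ.c f k = ZQ.c f' (l + 1) := congrArg Prod.snd hl2
  have hnb := nb_cases p1 p2
  have hab := H.ab
  have hbc := H.bc
  have hapos := H.a_pos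
  rcases mem_EF.mp hf with ⟨h1, h2⟩ | h1
  · simp only at h1 h2
    subst h1
    rcases mem_EF.mp hf' with ⟨h3, h4⟩ | h3
    · simp only at h3 h4
      subst h3
      rw [H.mem_base] at h2 h4
      have hs := zc_step H.k4 H.x_lt.le
      unfold zone
      simp only [ne_eq, not_true_eq_false, if_false]
      -- rows
      have key : ∀ {a b : ℤ × ℤ}, ¬ g.solid true a → ¬ g.solid false a → b.1 = a.1 →
          (b.2 < g.yc - g.c ∨ g.yc + g.c ≤ b.2) → ¬ (a.2 < g.yc - g.c ∨ g.yc + g.c ≤ a.2) →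
          (b.2 = a.2 + 1 ∨ b.2 = a.2 - 1) → zc g a.1 = 9 := by
        intro a b s1 s2 e1 e2 e3 e4
        have h5 : a.1 < g.x1 - 7 * g.k ∨ g.x2 + 7 * g.k ≤ a.1 := by
          by_contra hcon
          rcases e4 with e4 | e4
          · apply s1
            unfold BGeo.solid BGeo.hgt
            simp only [if_true]
            refine ⟨by omega, by omega, by omega, by omega, fun h => ?_⟩
            have := h.2
            omega
          · apply s2
            unfold BGeo.solid BGeo.hgt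
            simp only [Bool.false_eq_true, if_false]
            refine ⟨by omega, by omega, by omega, by omega, fun h => ?_⟩
            have := h.2
            omega
        have h6 := zc_iff g a.1
        have h7 : 4 * (g.k / 4) ≤ g.k := by omega
        have h8 := H.k4
        have h9 := H.x_lt
        generalize g.k / 4 = q at h6 h7
        generalize zc g a.1 = z at h6 ⊢
        rcases h6 with h | h | h | h | h | h | h | h | h | h | h | h | h | h | h | h | h | h | h <;> omega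
      have h5 : adjZ (zc g f.1) (zc g f'.1) := by
        rcases hnb with ⟨-, h5⟩ | ⟨-, h5⟩ | ⟨-, h5⟩ | ⟨-, h5⟩ <;> rw [h5]
        · exact Or.inl rfl
        · exact hs f.1
        · exact Or.inl rfl
        · have := hs (f.1 - 1)
          rw [sub_add_cancel] at this
          exact this.symm
      have hv : f'.2 ≠ f.2 → f'.1 = f.1 ∧ (f'.2 = f.2 + 1 ∨ f'.2 = f.2 - 1) := by
        intro hne
        rcases hnb with ⟨-, h5⟩ | ⟨-, h5⟩ | ⟨-, h5⟩ | ⟨-, h5⟩ <;> rw [h5] at hne ⊢
        · exact ⟨rfl, Or.inr rfl⟩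
        · exact absurd rfl hne
        · exact ⟨rfl, Or.inl rfl⟩
        · exact absurd rfl hne
      by_cases c1 : f.2 < g.yc - g.c ∨ g.yc + g.c ≤ f.2
      · by_cases c2 : f'.2 < g.yc - g.c ∨ g.yc + g.c ≤ f'.2
        · rw [if_pos c1, if_pos c2]; exact Or.inl rfl
        · rw [if_pos c1, if_neg c2]
          obtain ⟨e1, e2⟩ := hv (fun e => c2 (e ▸ c1))
          rw [key h4.2.1 h4.2.2 e1.symm c1 c2 (by omega)]
          exact Or.inl rfl
      · by_cases c2 : f'.2 < g.yc - g.c ∨ g.yc + g.c ≤ f'.2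
        · rw [if_neg c1, if_pos c2]
          obtain ⟨e1, e2⟩ := hv (fun e => c1 (e ▸ c2))
          rw [key h2.2.1 h2.2.2 e1 c2 c1 (by omega)]
          exact Or.inl rfl
        · rw [if_neg c1, if_neg c2]
          exact h5
    · -- a pocket face behind the mouth
      have h4 : (E.Q.c (σ', f') l).1 ≠ σ' := by
        rw [← hl1, H.c_base h2]
        rcases h3 with h3 | h3
        · simp only at h3; rw [h3.1]; simp
        · simp only at h3; rw [h3.1]; simp
      have h5 := H.msig_ne h4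
      have h6 : zone g (σ', f') = 0 := by
        unfold zone
        rw [if_pos]
        rcases h3 with h3 | h3
        · simp only at h3 ⊢; rw [h3.1]; simp
        · simp only at h3 ⊢; rw [h3.1]; simp
      have h7 : zone g (none, f) = 0 := by
        unfold zone
        simp only [ne_eq, not_true_eq_false, if_false]
        rw [if_neg]
        · apply H.zc0 <;> rcases hnb with ⟨-, h8⟩ | ⟨-, h8⟩ | ⟨-, h8⟩ | ⟨-, h8⟩ <;> rw [h8] at h5 <;>
            simp only at h5 <;> omega
        · rcases hnb with ⟨-, h8⟩ | ⟨-, h8⟩ | ⟨-, h8⟩ | ⟨-, h8⟩ <;> rw [h8] at h5 <;>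
            simp only at h5 <;> omega
      rw [h6, h7]
      exact Or.inl rfl
  · have h6 : zone g (σ, f) = 0 := by
      unfold zone
      rw [if_pos]
      rcases h1 with h3 | h3
      · simp only at h3 ⊢; rw [h3.1]; simp
      · simp only at h3 ⊢; rw [h3.1]; simp
    rcases mem_EF.mp hf' with ⟨h3, h4⟩ | h3
    · simp only at h3 h4
      subst h3
      have h5 : (E.Q.c (σ, f) k).1 ≠ σ := by
        rw [hl2, H.c_base h4]
        rcases h1 with h3 | h3
        · simp only at h3; rw [h3.1]; simp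
        · simp only at h3; rw [h3.1]; simp
      have h5 := H.msig_ne h5
      have h7 : zone g (none, f') = 0 := by
        unfold zone
        simp only [ne_eq, not_true_eq_false, if_false]
        rw [if_neg]
        · apply H.zc0 <;> rcases hnb with ⟨-, h8⟩ | ⟨-, h8⟩ | ⟨-, h8⟩ | ⟨-, h8⟩ <;> rw [h8] <;>
            simp only <;> omega
        · rcases hnb with ⟨-, h8⟩ | ⟨-, h8⟩ | ⟨-, h8⟩ | ⟨-, h8⟩ <;> rw [h8] <;>
            simp only <;> omega
      rw [h6, h7]
      exact Or.inl rfl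
    · have h7 : zone g (σ', f') = 0 := by
        unfold zone
        rw [if_pos]
        rcases h3 with h3 | h3
        · simp only at h3 ⊢; rw [h3.1]; simp
        · simp only at h3 ⊢; rw [h3.1]; simp
      rw [h6, h7]
      exact Or.inl rfl

/-- the zone of a face of a rectangle -/
theorem PE.zone_tR (H : PE E g) {s : Bool} {i j : ℕ} (hi : i < 3) (hj : j < 2) {f : ℤ × ℤ}
    (hf : f ∈ tR g s i j) : zone g (none, f) = zi s i j := by
  have h1 := mem_tR.mp hf
  have hab := H.ab
  have hbc := H.bc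
  unfold zone
  simp only [ne_eq, not_true_eq_false, if_false]
  rw [if_neg (by omega)]
  exact (zc_tx H.k4 H.x_lt.le hi hj f.1).mpr ⟨h1.1, h1.2.1⟩

theorem zi_rng {s : Bool} {i j : ℕ} (hi : i < 3) (hj : j < 2) : 1 ≤ zi s i j ∧ zi s i j ≤ 17 ∧
    zi s i j ≠ 9 ∧ zi s i j ≠ 3 ∧ zi s i j ≠ 6 ∧ zi s i j ≠ 12 ∧ zi s i j ≠ 15 := by
  unfold zi
  cases s
  · simp only [Bool.false_eq_true, if_false]
    omega
  · simp only [if_true]
    omega

/-- **The rectangles are zones.** -/
theorem PE.mem_tF (H : PE E g) {s : Bool} {i j : ℕ} (hi : i < 3) (hj : j < 2) {f : Option Bool × (ℤ × ℤ)} :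
    f ∈ tF g s i j ↔ f ∈ E.F ∧ zone g f = zi s i j := by
  have hr := zi_rng (s := s) hi hj
  unfold tF
  rw [Finset.mem_image]
  constructor
  · rintro ⟨f, hf, rfl⟩
    exact ⟨(tCh H.uns hi hj).sub f hf, H.zone_tR hi hj hf⟩
  · rintro ⟨h1, h2⟩
    obtain ⟨σ, f⟩ := f
    rcases mem_EF.mp h1 with ⟨h3, h4⟩ | h3
    · simp only at h3 h4
      subst h3
      refine ⟨f, ?_, rfl⟩
      unfold zone at h2
      simp only [ne_eq, not_true_eq_false, if_false] at h2
      split_ifs at h2 with h5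
      · omega
      · have h6 := (zc_tx H.k4 H.x_lt.le hi hj f.1).mp h2
        rw [H.mem_base] at h4
        have h7 := tube_col (s := s) (i := i) (j := j) (x := f.1) H.k4 hi hj (by omega) (by omega) H.x_lt.le
        rw [mem_tR]
        refine ⟨h6.1, h6.2, ?_, ?_⟩
        · by_contra hcon
          apply h4.2.2
          unfold BGeo.solid BGeo.hgt
          simp only [Bool.false_eq_true, if_false]
          exact ⟨by omega, by omega, by omega, by omega, fun h => h7.1 h.1⟩
        · by_contra hcon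
          apply h4.2.1
          unfold BGeo.solid BGeo.hgt
          simp only [if_true]
          exact ⟨by omega, by omega, by omega, by omega, fun h => h7.1 h.1⟩
    · exfalso
      unfold zone at h2
      rw [if_pos (by rcases h3 with h3 | h3 <;> (simp only at h3 ⊢; rw [h3.1]; simp))] at h2
      omega

/-- the faces whose zone satisfies `p` -/
def zF (E : SEnv) (g : BGeo) (p : ℕ → Bool) : Finset (Option Bool × (ℤ × ℤ)) :=
  E.F.filter fun f => p (zone g f) = true

theorem mem_zF {p : ℕ → Bool} {f : Option Bool × (ℤ × ℤ)} :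
    f ∈ zF E g p ↔ f ∈ E.F ∧ p (zone g f) = true := by
  unfold zF
  rw [Finset.mem_filter]

theorem PE.tF_eq (H : PE E g) {s : Bool} {i j : ℕ} (hi : i < 3) (hj : j < 2) :
    tF g s i j = zF E g fun z => z == zi s i j := by
  ext f
  rw [H.mem_tF hi hj, mem_zF, beq_iff_eq]

/-- **The rectangle of the zone `z` separates the faces on its two sides.** -/
theorem PE.noX_rect (H : PE E g) {s : Bool} {i j : ℕ} (hi : i < 3) (hj : j < 2) (hg : good g ω)
    {p q : ℕ → Bool} (hp : p (zi s i j) = false) (hp' : p (zp (zi s i j)) = false)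
    (hq : q (zi s i j) = false) (hq' : q (zm (zi s i j)) = false)
    (hpq : ∀ z < 18, ∀ z' < 18, p z = true → q z' = true → ¬ adjZ z z') :
    Conf.NoX E.Q ω (tF g s i j : Set (Option Bool × (ℤ × ℤ))) (zF E g p) (zF E g q) := by
  have hab := H.ab
  have hbc := H.bc
  have hz := zc_tx' (g := g) (s := s) H.k4 H.x_lt.le hi hj
  refine H.uns.noX hi hj hg ?_ ?_ ?_ ?_ ?_ ?_ ?_
  · intro f hf
    exact_mod_cast (mem_zF.mp (by exact_mod_cast hf)).1
  · intro f hf
    exact_mod_cast (mem_zF.mp (by exact_mod_cast hf)).1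
  · intro f hf h1
    have h2 := (mem_zF.mp (by exact_mod_cast h1)).2
    rw [H.zone_tR hi hj hf, hp] at h2
    exact absurd h2 (by simp)
  · intro f hf h1
    have h2 := (mem_zF.mp (by exact_mod_cast h1)).2
    rw [H.zone_tR hi hj hf, hq] at h2
    exact absurd h2 (by simp)
  · intro y h1 h2 h3
    have h4 := (mem_zF.mp (by exact_mod_cast h3)).2
    unfold zone at h4
    simp only [ne_eq, not_true_eq_false, if_false] at h4
    rw [if_neg (by omega), hz.1, hp'] at h4
    exact absurd h4 (by simp)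
  · intro y h1 h2 h3
    have h4 := (mem_zF.mp (by exact_mod_cast h3)).2
    unfold zone at h4
    simp only [ne_eq, not_true_eq_false, if_false] at h4
    rw [if_neg (by omega), hz.2, hq'] at h4
    exact absurd h4 (by simp)
  · rintro b ⟨f, hf, k, hk⟩ ⟨f', hf', l, hl⟩
    have h1 := mem_zF.mp (show f ∈ zF E g p by exact_mod_cast hf)
    have h2 := mem_zF.mp (show f' ∈ zF E g q by exact_mod_cast hf')
    refine hpq _ (zone_lt g f) _ (zone_lt g f') h1.2 h2.2 (H.adj h1.1 h2.1 (k := k) (l := l) ?_)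
    rw [← hk, ← hl]

/-- the cores -/
def crz : Finset ℕ := {0, 3, 6, 9, 12, 15}

/-- the rectangle behind the core `c` (on its right) -/
def rR (c : ℕ) : Bool × ℕ × ℕ :=
  if c = 0 then (true, 0, 0) else if c = 3 then (true, 1, 0) else if c = 6 then (true, 2, 0)
  else if c = 9 then (false, 2, 1) else if c = 12 then (false, 1, 1) else (false, 0, 1)

/-- the rectangle before the core `c` (on its left) -/
def rL (c : ℕ) : Bool × ℕ × ℕ :=
  if c = 0 then (false, 0, 0) else if c = 3 then (true, 0, 1) else if c = 6 then (true, 1, 1)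
  else if c = 9 then (true, 2, 1) else if c = 12 then (false, 2, 0) else (false, 1, 0)

theorem rR_spec : ∀ c ∈ crz, (rR c).2.1 < 3 ∧ (rR c).2.2 < 2 ∧
    zi (rR c).1 (rR c).2.1 (rR c).2.2 = zp c := by decide

theorem rL_spec : ∀ c ∈ crz, (rL c).2.1 < 3 ∧ (rL c).2.2 < 2 ∧
    zi (rL c).1 (rL c).2.1 (rL c).2.2 = zm c := by decide

/-- core -/
def kz (E : SEnv) (g : BGeo) (c : ℕ) : Finset (Option Bool × (ℤ × ℤ)) := zF E g fun z => z == c

/-- piece -/
def pz (E : SEnv) (g : BGeo) (c : ℕ) : Finset (Option Bool × (ℤ × ℤ)) :=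
  zF E g fun z => z == c || z == zp c || z == zm c

instance (z z' : ℕ) : Decidable (adjZ z z') := by unfold adjZ; infer_instance

/-- **The core of a piece.** -/
theorem PE.core (H : PE E g) (hg : good g ω) {c : ℕ} (hc : c ∈ crz) :
    Conf.Core E.Q E.F (pz E g c) (kz E g c) ω := by
  obtain ⟨a1, a2, a3⟩ := rR_spec c hc
  obtain ⟨b1, b2, b3⟩ := rL_spec c hc
  have hsub : ∀ {p q : ℕ → Bool}, (∀ z, p z = true → q z = true) → zF E g p ⊆ zF E g q := by
    intro p q h f hf
    obtain ⟨h1, h2⟩ := mem_zF.mp hf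
    exact mem_zF.mpr ⟨h1, h _ h2⟩
  refine ⟨hsub fun z hz => by simp only [Bool.or_eq_true]; exact Or.inl (Or.inl hz),
    Finset.filter_subset _ _, ?_⟩
  -- the two rectangles
  have e1 : ((pz E g c : Set (Option Bool × (ℤ × ℤ))) \ kz E g c) =
      (tF g (rR c).1 (rR c).2.1 (rR c).2.2 : Set (Option Bool × (ℤ × ℤ))) ∪
        (tF g (rL c).1 (rL c).2.1 (rL c).2.2 : Set (Option Bool × (ℤ × ℤ))) := by
    have hne : ∀ c ∈ crz, zp c ≠ c ∧ zm c ≠ c := by decide
    obtain ⟨n1, n2⟩ := hne c hc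
    rw [H.tF_eq a1 a2, H.tF_eq b1 b2, a3, b3]
    ext f
    simp only [Set.mem_sdiff, Set.mem_union, Finset.mem_coe, pz, kz, mem_zF, Bool.or_eq_true, beq_iff_eq]
    constructor
    · rintro ⟨⟨h1, (h2 | h2) | h2⟩, h3⟩
      · exact absurd ⟨h1, h2⟩ h3
      · exact Or.inl ⟨h1, h2⟩
      · exact Or.inr ⟨h1, h2⟩
    · rintro (⟨h1, h2⟩ | ⟨h1, h2⟩)
      · exact ⟨⟨h1, Or.inl (Or.inr h2)⟩, fun h3 => n1 (h2.symm.trans h3.2)⟩
      · exact ⟨⟨h1, Or.inr h2⟩, fun h3 => n2 (h2.symm.trans h3.2)⟩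
  have e2 : ((E.F : Set (Option Bool × (ℤ × ℤ))) \ pz E g c) =
      (zF E g fun z => ! (z == c || z == zp c || z == zm c) : Set (Option Bool × (ℤ × ℤ))) := by
    ext f
    simp only [Set.mem_sdiff, Finset.mem_coe, pz, mem_zF, Bool.not_eq_true', Bool.or_eq_true]
    constructor
    · rintro ⟨h1, h2⟩
      refine ⟨h1, ?_⟩
      rw [Bool.eq_false_iff]
      exact fun h3 => h2 ⟨h1, by simpa using h3⟩
    · rintro ⟨h1, h2⟩
      exact ⟨h1, fun h3 => by
        rw [Bool.eq_false_iff] at h2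
        exact h2 (by simpa using h3.2)⟩
  rw [e1, e2]
  refine Conf.NoX.union ?_ ?_ ?_
  · -- the two rectangles have no common side
    rintro b ⟨f, hf, k, hk⟩ ⟨f', hf', l, hl⟩
    have h1 := (H.mem_tF a1 a2).mp (by exact_mod_cast hf)
    have h2 := (H.mem_tF b1 b2).mp (by exact_mod_cast hf')
    have h3 := H.adj h1.1 h2.1 (k := k) (l := l) (by rw [← hk, ← hl, Prod.swap_swap])
    rw [h1.2, h2.2, a3, b3] at h3
    have key : ∀ c ∈ crz, ¬ adjZ (zp c) (zm c) := by decide
    exact key c hc h3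
  · have key : ∀ c ∈ crz, (zp c == c) = false ∧ (zp (zp c) == c) = false ∧
        (! (zp c == c || zp c == zp c || zp c == zm c)) = false ∧
        (! (zm (zp c) == c || zm (zp c) == zp c || zm (zp c) == zm c)) = false ∧
        (∀ z < 18, ∀ z' < 18, (z == c) = true →
          (! (z' == c || z' == zp c || z' == zm c)) = true → ¬ adjZ z z') := by decide
    obtain ⟨k1, k2, k3, k4, k5⟩ := key c hc
    exact (H.noX_rect a1 a2 hg (p := fun z => z == c)
      (q := fun z => ! (z == c || z == zp c || z == zm c)) (by rw [a3]; exact k1)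
      (by rw [a3]; exact k2) (by rw [a3]; exact k3) (by rw [a3]; exact k4) k5)
  · have key : ∀ c ∈ crz, (zm c == c) = false ∧ (zm (zm c) == c) = false ∧
        (! (zm c == c || zm c == zp c || zm c == zm c)) = false ∧
        (! (zp (zm c) == c || zp (zm c) == zp c || zp (zm c) == zm c)) = false ∧
        (∀ z < 18, ∀ z' < 18, (! (z == c || z == zp c || z == zm c)) = true →
          (z' == c) = true → ¬ adjZ z z') := by decide
    obtain ⟨k1, k2, k3, k4, k5⟩ := key c hc
    exact (H.noX_rect b1 b2 hg (q := fun z => z == c)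
      (p := fun z => ! (z == c || z == zp c || z == zm c)) (by rw [b3]; exact k3)
      (by rw [b3]; exact k4) (by rw [b3]; exact k1) (by rw [b3]; exact k2) k5).symm

theorem pz_kz {c c' : ℕ} (hc : c ∈ crz) (hc' : c' ∈ crz) (hne : c ≠ c') :
    Disjoint (pz E g c) (kz E g c') := by
  have key : ∀ c ∈ crz, ∀ c' ∈ crz, c ≠ c' → (c' == c || c' == zp c || c' == zm c) = false := by decide
  rw [Finset.disjoint_left]
  intro f h1 h2
  have h3 := (mem_zF.mp h1).2
  have h4 := (mem_zF.mp h2).2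
  rw [beq_iff_eq] at h4
  rw [h4, key c hc c' hc' hne] at h3
  exact absurd h3 (by simp)

end

end Pool.Agent.SixB.Pos
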