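import Pool.Agent.Lib.SixB.S3PosSheet
import Pool.Agent.Lib.SixB.S3PosCore

/-!
# 6BD step 3: chambers

* `chW_pair`: all pairs of entries of the boundary word of a chamber with two tubes have a nonnegative weight.
* `du`, `dl`: value of the upper / lower block over a column; `psi_up1` .. `psi_lo3`: phases of an environment.
* `cutP`: the phases with natural values on the cut sides.
-/

set_option autoImplicit false
set_option linter.unusedSectionVars false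

namespace Pool.Agent.SixB.Pos

open Pool.Agent.SixB Pool.Agent.SixB.Gd Pool.Agent.Perc Pool.Agent.Perc.Q Relation

noncomputable section

/-- The range of the jumps with nonnegative weight. -/
def rg (x : ℝ) : Prop := -(Real.pi / 3) ≤ x ∧ x ≤ 2 * (Real.pi / 3)

theorem rg.tw {x : ℝ} (h : rg x) : 0 ≤ tw x := tw_nonneg h.1 h.2

/-- The sides of a chamber with two tubes: values `f₁` (left lower part), `f₂`, `c₁`, `c₂` in the order of the
word, `f₁ + π / 3` at the end. -/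
structure ChV (Ψ : (ℤ × ℤ) × (ℤ × ℤ) → ℝ) (xl x₀ xm x₁ xr y₀ y₁ y₂ y₃ : ℤ) (f₁ f₂ c₁ c₂ : ℝ) : Prop where
  b1 : ∀ x, x₀ ≤ x → x < xm → Ψ ((x, y₀), (x + 1, y₀)) = f₁
  b2 : ∀ x, xm ≤ x → x < x₁ → Ψ ((x, y₀), (x + 1, y₀)) = f₂
  b3 : ∀ x, x₁ ≤ x → x < xr → Ψ ((x, y₁), (x + 1, y₁)) = f₂
  b4 : ∀ x, xl ≤ x → x < x₀ → Ψ ((x, y₁), (x + 1, y₁)) = f₁
  r1 : ∀ y, y₀ ≤ y → y < y₁ → Ψ ((x₁, y), (x₁, y + 1)) = f₂ - Real.pi / 12
  r2 : ∀ y, y₁ ≤ y → y < y₂ → Ψ ((xr, y), (xr, y + 1)) = f₂ - Real.pi / 12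
  r3 : ∀ y, y₂ ≤ y → y < y₃ → Ψ ((x₁, y), (x₁, y + 1)) = c₁ - Real.pi / 12
  t1 : ∀ x, x₁ ≤ x → x < xr → Ψ ((x + 1, y₂), (x, y₂)) = c₁ - Real.pi / 6
  t2 : ∀ x, xm ≤ x → x < x₁ → Ψ ((x + 1, y₃), (x, y₃)) = c₁ - Real.pi / 6
  t3 : ∀ x, x₀ ≤ x → x < xm → Ψ ((x + 1, y₃), (x, y₃)) = c₂ - Real.pi / 6
  t4 : ∀ x, xl ≤ x → x < x₀ → Ψ ((x + 1, y₂), (x, y₂)) = c₂ - Real.pi / 6
  l1 : ∀ y, y₀ ≤ y → y < y₁ → Ψ ((x₀, y + 1), (x₀, y)) = f₁ + Real.pi / 12
  l2 : ∀ y, y₁ ≤ y → y < y₂ → Ψ ((xl, y + 1), (xl, y)) = f₁ + Real.pi / 12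
  l3 : ∀ y, y₂ ≤ y → y < y₃ → Ψ ((x₀, y + 1), (x₀, y)) = c₂ - Real.pi / 4

/-- all differences of the values are in the range -/
structure ChR (f₁ f₂ c₁ c₂ : ℝ) : Prop where
  a : rg (f₂ - f₁)
  b : rg (c₁ - f₁)
  c : rg (c₂ - f₁)
  d : rg (c₁ - f₂)
  e : rg (c₂ - f₂)
  f : rg (f₁ + Real.pi / 3 - f₂)
  g : rg (c₂ - c₁)
  h : rg (f₁ + Real.pi / 3 - c₁)
  i : rg (f₁ + Real.pi / 3 - c₂)

/-- **The word of a chamber.** -/
theorem chW_pair {Ψ : (ℤ × ℤ) × (ℤ × ℤ) → ℝ} {xl x₀ xm x₁ xr y₀ y₁ y₂ y₃ : ℤ} {f₁ f₂ c₁ c₂ : ℝ}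
    (h : ChV Ψ xl x₀ xm x₁ xr y₀ y₁ y₂ y₃ f₁ f₂ c₁ c₂) (hr : ChR f₁ f₂ c₁ c₂) (hl : xl < x₀) (hm : x₀ ≤ xm)
    (hm' : xm ≤ x₁) (hx : x₁ < xr) (h1 : y₀ ≤ y₁) (h2 : y₁ < y₂) (h3 : y₂ ≤ y₃) :
    (chW xl x₀ x₁ xr y₀ y₁ y₂ y₃).Pairwise fun x y => 0 ≤ tw (val Ψ y - val Ψ x) := by
  have hpi := Real.pi_pos
  let L : List (List (((ℤ × ℤ) × (ℤ × ℤ)) × ℤ) × ℝ) :=
    [(segm id (x₀, y₀) 0 (xm - x₀).toNat, f₁),
      (segm id (xm, y₀) 0 (x₁ - xm).toNat ++ (segm id (x₁, y₀) 1 (y₁ - y₀).toNat ++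
        (segm id (x₁, y₁) 0 (xr - x₁).toNat ++ segm id (xr, y₁) 1 (y₂ - y₁).toNat)), f₂),
      (segm id (xr, y₂) 2 (xr - x₁).toNat ++ (segm id (x₁, y₂) 1 (y₃ - y₂).toNat ++
        segm id (x₁, y₃) 2 (x₁ - xm).toNat), c₁),
      (segm id (xm, y₃) 2 (xm - x₀).toNat ++ (segm id (x₀, y₃) 3 (y₃ - y₂).toNat ++
        segm id (x₀, y₂) 2 (x₀ - xl).toNat), c₂),
      (segm id (xl, y₂) 3 (y₂ - y₁).toNat ++ (segm id (xl, y₁) 4 (x₀ - xl).toNat ++
        segm id (x₀, y₁) 3 (y₁ - y₀).toNat), f₁ + Real.pi / 3)]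
  have hL : (L.map Prod.fst).flatten = chW xl x₀ x₁ xr y₀ y₁ y₂ y₃ := by
    have s1 : segm id ((x₀, y₀) : ℤ × ℤ) 0 (x₁ - x₀).toNat = segm id (x₀, y₀) 0 (xm - x₀).toNat ++
        segm id (xm, y₀) 0 (x₁ - xm).toNat := by
      rw [segm_split id _ _ (m := (xm - x₀).toNat) (n := (x₁ - xm).toNat) (by omega)]
      have e1 : ((x₀, y₀) : ℤ × ℤ) + (((xm - x₀).toNat : ℕ) : ℤ) • dv 0 = (xm, y₀) := by
        rw [dv0]
        ext
        · simp; omega
        · simp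
      rw [e1]
    have s2 : segm id ((x₁, y₃) : ℤ × ℤ) 2 (x₁ - x₀).toNat = segm id (x₁, y₃) 2 (x₁ - xm).toNat ++
        segm id (xm, y₃) 2 (xm - x₀).toNat := by
      rw [segm_split id _ _ (m := (x₁ - xm).toNat) (n := (xm - x₀).toNat) (by omega)]
      have e1 : ((x₁, y₃) : ℤ × ℤ) + (((x₁ - xm).toNat : ℕ) : ℤ) • dv 2 = (xm, y₃) := by
        rw [dv2]
        ext
        · simp; omega
        · simp
      rw [e1]
    unfold chW
    rw [s1, s2]
    simp [L]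
  rw [← hL]
  refine pairwise_blocks (p := fun t => 0 ≤ t) L ?_ (by rw [tw_zero]; positivity) ?_
  · intro s hs x hx'
    simp only [L, List.mem_cons, List.not_mem_nil, or_false] at hs
    rcases hs with rfl | rfl | rfl | rfl | rfl
    · obtain ⟨x', e1, e2, rfl⟩ := seg0 hx'
      unfold val
      rw [h.b1 x' e1 (by omega)]; simp
    · simp only [List.mem_append] at hx'
      rcases hx' with hx' | hx' | hx' | hx'
      · obtain ⟨x', e1, e2, rfl⟩ := seg0 hx'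
        unfold val
        rw [h.b2 x' e1 (by omega)]; simp
      · obtain ⟨x', e1, e2, rfl⟩ := seg1 hx'
        unfold val
        rw [h.r1 x' e1 (by omega)]; simp
      · obtain ⟨x', e1, e2, rfl⟩ := seg0 hx'
        unfold val
        rw [h.b3 x' e1 (by omega)]; simp
      · obtain ⟨x', e1, e2, rfl⟩ := seg1 hx'
        unfold val
        rw [h.r2 x' e1 (by omega)]; simp
    · simp only [List.mem_append] at hx'
      rcases hx' with hx' | hx' | hx'
      · obtain ⟨x', e1, e2, rfl⟩ := seg2 hx'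
        unfold val
        rw [h.t1 x' (by omega) (by omega)]; simp; ring
      · obtain ⟨x', e1, e2, rfl⟩ := seg1 hx'
        unfold val
        rw [h.r3 x' e1 (by omega)]; simp
      · obtain ⟨x', e1, e2, rfl⟩ := seg2 hx'
        unfold val
        rw [h.t2 x' (by omega) (by omega)]; simp; ring
    · simp only [List.mem_append] at hx'
      rcases hx' with hx' | hx' | hx'
      · obtain ⟨x', e1, e2, rfl⟩ := seg2 hx'
        unfold val
        rw [h.t3 x' (by omega) (by omega)]; simp; ring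
      · obtain ⟨x', e1, e2, rfl⟩ := seg3 hx'
        unfold val
        rw [h.l3 x' (by omega) (by omega)]; simp; ring
      · obtain ⟨x', e1, e2, rfl⟩ := seg2 hx'
        unfold val
        rw [h.t4 x' (by omega) (by omega)]; simp; ring
    · simp only [List.mem_append] at hx'
      rcases hx' with hx' | hx' | hx'
      · obtain ⟨x', e1, e2, rfl⟩ := seg3 hx'
        unfold val
        rw [h.l2 x' (by omega) (by omega)]; simp; ring
      · obtain ⟨x', e1, e2, rfl⟩ := seg4 hx'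
        unfold val
        rw [h.b4 x' (by omega) (by omega)]; simp; ring
      · obtain ⟨x', e1, e2, rfl⟩ := seg3 hx'
        unfold val
        rw [h.l1 x' (by omega) (by omega)]; simp; ring
  · have r0 : rg (f₁ + Real.pi / 3 - f₁) := by
      rw [add_sub_cancel_left]
      exact ⟨by linarith, by linarith⟩
    simp only [L, List.pairwise_cons, List.mem_cons, List.not_mem_nil, or_false]
    refine ⟨?_, ?_, ?_, ?_, ?_, List.Pairwise.nil⟩
    · rintro s (rfl | rfl | rfl | rfl)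
      · exact hr.a.tw
      · exact hr.b.tw
      · exact hr.c.tw
      · exact r0.tw
    · rintro s (rfl | rfl | rfl)
      · exact hr.d.tw
      · exact hr.e.tw
      · exact hr.f.tw
    · rintro s (rfl | rfl)
      · exact hr.g.tw
      · exact hr.h.tw
    · rintro s rfl
      exact hr.i.tw
    · rintro s hs
      exact absurd hs (by simp)

/-! ## Phases -/

/-- the parameters of an environment -/
structure Par (mu ρu ml ρl : ℝ) : Prop where
  rho : ρl = ρu + mu - Real.pi / 6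
  sum : mu + ml = Real.pi / 3
  lo : -(2 * (Real.pi / 3)) ≤ mu
  hi : mu ≤ Real.pi

/-- value of the upper block over the column `x` -/
def du (g : BGeo) (mu ρu : ℝ) (x : ℤ) : ℝ :=
  ρu + BGeo.alpha mu + BGeo.sig mu + Real.pi / 12 + g.Hst mu x

/-- value of the lower block under the column `x` -/
def dl (g : BGeo) (ml ρl : ℝ) (x : ℤ) : ℝ :=
  ρl + BGeo.alpha ml + BGeo.sig ml - Real.pi / 12 + g.Hst ml (g.x1 + g.x2 - 1 - x)

variable {E : SEnv} {g : BGeo} {ω : Option Bool × (ℤ × ℤ) → Bool} {mu ρu ml ρl : ℝ}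
  {ψu ψl : (ℤ × ℤ) × (ℤ × ℤ) → ℝ}

/-- base sheet -/
abbrev tn (v : ℤ × ℤ) : Option Bool × (ℤ × ℤ) := (none, v)

theorem PE.psi_base (H : PE E g) (p q : ℤ × ℤ) : E.psi mu ρu ml ρl ψu ψl (tn p, tn q) =
    if g.yc ≤ p.2 ∧ g.yc ≤ q.2 then g.ph true mu ρu (p, q) else g.ph false ml ρl (p, q) := by
  unfold SEnv.psi
  rw [if_neg (by simp), if_neg (by simp), H.hu, H.hd]
  rfl

theorem PE.psi_up2 (H : PE E g) {x y : ℤ} (hy : g.yc ≤ y) :
    E.psi mu ρu ml ρl ψu ψl (mp tn ((x + 1, y), (x, y))) = du g mu ρu x - Real.pi / 6 := by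
  show E.psi mu ρu ml ρl ψu ψl (tn (x + 1, y), tn (x, y)) = _
  rw [H.psi_base, if_pos ⟨hy, hy⟩]
  unfold BGeo.ph BGeo.blkPh du
  simp only [if_true]
  rw [if_pos (by simp)]
  ring

theorem PE.psi_up1 (H : PE E g) {x y : ℤ} (hy : g.yc ≤ y) :
    E.psi mu ρu ml ρl ψu ψl (mp tn ((x, y), (x, y + 1))) = du g mu ρu (x - 1) - Real.pi / 12 := by
  show E.psi mu ρu ml ρl ψu ψl (tn (x, y), tn (x, y + 1)) = _
  rw [H.psi_base, if_pos ⟨hy, by simp only; omega⟩]
  unfold BGeo.ph BGeo.blkPh du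
  simp only [if_true]
  rw [if_neg (by simp), if_neg (by simp)]
  ring

theorem PE.psi_up3 (H : PE E g) {x y : ℤ} (hy : g.yc ≤ y) :
    E.psi mu ρu ml ρl ψu ψl (mp tn ((x, y + 1), (x, y))) = du g mu ρu x - Real.pi / 4 := by
  show E.psi mu ρu ml ρl ψu ψl (tn (x, y + 1), tn (x, y)) = _
  rw [H.psi_base, if_pos ⟨by simp only; omega, hy⟩]
  unfold BGeo.ph BGeo.blkPh du
  simp only [if_true]
  rw [if_neg (by simp), if_neg (by simp), if_neg (by simp; omega)]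
  ring

theorem PE.psi_up0 (H : PE E g) {x y : ℤ} (hy : g.yc ≤ y) :
    E.psi mu ρu ml ρl ψu ψl (mp tn ((x, y), (x + 1, y))) =
      ρu - BGeo.alpha mu - BGeo.sig mu + mu + Real.pi / 12 + BGeo.out mu / 2 := by
  show E.psi mu ρu ml ρl ψu ψl (tn (x, y), tn (x + 1, y)) = _
  rw [H.psi_base, if_pos ⟨hy, hy⟩]
  unfold BGeo.ph BGeo.blkPh
  simp only [if_true]
  rw [if_neg (by simp; omega)]
  ring

theorem PE.psi_lo0 (H : PE E g) {x y : ℤ} (hy : y < g.yc) :
    E.psi mu ρu ml ρl ψu ψl (mp tn ((x, y), (x + 1, y))) = dl g ml ρl x := by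
  show E.psi mu ρu ml ρl ψu ψl (tn (x, y), tn (x + 1, y)) = _
  rw [H.psi_base, if_neg (by simp only; omega)]
  unfold BGeo.ph BGeo.blkPh dl BGeo.rot
  simp only [Bool.false_eq_true, if_false]
  rw [if_pos (by ext <;> simp; ring)]
  rw [show g.x1 + g.x2 - (x + 1) = g.x1 + g.x2 - 1 - x by ring]

theorem PE.psi_lo3 (H : PE E g) {x y : ℤ} (hy : y < g.yc) :
    E.psi mu ρu ml ρl ψu ψl (mp tn ((x, y + 1), (x, y))) = dl g ml ρl x + Real.pi / 12 := by
  show E.psi mu ρu ml ρl ψu ψl (tn (x, y + 1), tn (x, y)) = _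
  rw [H.psi_base, if_neg (by simp only; omega)]
  unfold BGeo.ph BGeo.blkPh dl BGeo.rot
  simp only [Bool.false_eq_true, if_false]
  rw [if_neg (by simp), if_neg (by simp), if_pos (by ext <;> simp; ring)]
  rw [show g.x1 + g.x2 - x - 1 = g.x1 + g.x2 - 1 - x by ring]
  ring

theorem PE.psi_lo1 (H : PE E g) {x y : ℤ} (hy : y < g.yc) :
    E.psi mu ρu ml ρl ψu ψl (mp tn ((x, y), (x, y + 1))) = dl g ml ρl (x - 1) - Real.pi / 12 := by
  show E.psi mu ρu ml ρl ψu ψl (tn (x, y), tn (x, y + 1)) = _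
  rw [H.psi_base, if_neg (by simp only; omega)]
  unfold BGeo.ph BGeo.blkPh dl BGeo.rot
  simp only [Bool.false_eq_true, if_false]
  rw [if_neg (by simp), if_neg (by simp), if_neg (by simp; omega)]
  rw [show g.x1 + g.x2 - 1 - (x - 1) = g.x1 + g.x2 - x by ring]
  ring

theorem PE.psi_lo2 (H : PE E g) {x y : ℤ} (hy : y < g.yc) :
    E.psi mu ρu ml ρl ψu ψl (mp tn ((x + 1, y), (x, y))) =
      ρl - BGeo.alpha ml - BGeo.sig ml + ml + Real.pi / 12 + BGeo.out ml / 2 := by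
  show E.psi mu ρu ml ρl ψu ψl (tn (x + 1, y), tn (x, y)) = _
  rw [H.psi_base, if_neg (by simp only; omega)]
  unfold BGeo.ph BGeo.blkPh BGeo.rot
  simp only [Bool.false_eq_true, if_false]
  rw [if_neg (by simp; omega), if_pos (by ext <;> simp; ring)]
  ring

open Classical in
/-- the phases with natural values on the cut sides of the slab -/
def cutP (g : BGeo) (ml ρl : ℝ) (ψ : (Option Bool × (ℤ × ℤ)) × (Option Bool × (ℤ × ℤ)) → ℝ)
    (s : (Option Bool × (ℤ × ℤ)) × (Option Bool × (ℤ × ℤ))) : ℝ :=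
  if ∃ x y : ℤ, g.yc - g.a ≤ y ∧ y < g.yc + g.a ∧ s = mp tn ((x, y), (x, y + 1)) then
    dl g ml ρl (s.1.2.1 - 1) - Real.pi / 12
  else if ∃ x y : ℤ, g.yc - g.a ≤ y ∧ y < g.yc + g.a ∧ s = mp tn ((x, y + 1), (x, y)) then
    dl g ml ρl s.1.2.1 + Real.pi / 12
  else ψ s

variable {ψ : (Option Bool × (ℤ × ℤ)) × (Option Bool × (ℤ × ℤ)) → ℝ}

theorem cutP_r {x y : ℤ} (h1 : g.yc - g.a ≤ y) (h2 : y < g.yc + g.a) :
    cutP g ml ρl ψ (mp tn ((x, y), (x, y + 1))) = dl g ml ρl (x - 1) - Real.pi / 12 := by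
  unfold cutP
  rw [if_pos ⟨x, y, h1, h2, rfl⟩]
  rfl

theorem cutP_l {x y : ℤ} (h1 : g.yc - g.a ≤ y) (h2 : y < g.yc + g.a) :
    cutP g ml ρl ψ (mp tn ((x, y + 1), (x, y))) = dl g ml ρl x + Real.pi / 12 := by
  unfold cutP
  rw [if_neg, if_pos ⟨x, y, h1, h2, rfl⟩]
  · rfl
  · rintro ⟨x', y', -, -, h⟩
    have e1 : (x, y + 1) = (x', y') := congrArg (fun s => s.1.2) h
    have e2 : (x, y) = (x', y' + 1) := congrArg (fun s => s.2.2) h
    rw [Prod.mk.injEq] at e1 e2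
    omega

theorem cutP_n {s : (Option Bool × (ℤ × ℤ)) × (Option Bool × (ℤ × ℤ))}
    (h : s.1.2.2 = s.2.2.2 ∨ s.1.2.2 < g.yc - g.a ∨ s.2.2.2 < g.yc - g.a ∨ g.yc + g.a < s.1.2.2 ∨
      g.yc + g.a < s.2.2.2) : cutP g ml ρl ψ s = ψ s := by
  unfold cutP
  rw [if_neg, if_neg]
  · rintro ⟨x, y, h1, h2, rfl⟩
    simp only [mp, tn, Prod.map] at h
    omega
  · rintro ⟨x, y, h1, h2, rfl⟩
    simp only [mp, tn, Prod.map] at h
    omega

section Values

variable {x : ℤ} (hk : 0 < g.k) (hx : g.x1 ≤ g.x2)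

include hk hx

theorem du_r0 (h : g.x2 ≤ x ∧ x < g.x2 + 2 * g.k) : du g mu ρu x = ρu + Real.pi / 12 := by
  unfold du BGeo.Hst
  rw [if_pos (by omega), if_pos (by omega), if_neg (by omega), if_neg (by omega), if_neg (by omega)]
  ring

theorem du_r1 (h : g.x2 + 2 * g.k ≤ x ∧ x < g.x2 + 5 * g.k) : du g mu ρu x = ρu + Real.pi / 12 + BGeo.sig mu := by
  unfold du BGeo.Hst
  rw [if_pos (by omega), if_neg (by omega), if_neg (by omega), if_neg (by omega), if_neg (by omega)]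
  ring

theorem du_r2 (h : g.x2 + 5 * g.k ≤ x) : du g mu ρu x = ρu + Real.pi / 12 + BGeo.sig mu + BGeo.alpha mu := by
  unfold du BGeo.Hst
  rw [if_neg (by omega), if_neg (by omega), if_neg (by omega), if_neg (by omega), if_neg (by omega)]
  ring

theorem du_l0 (h : g.x1 - 2 * g.k ≤ x ∧ x < g.x1) : du g mu ρu x = ρu + Real.pi / 12 + mu := by
  unfold du BGeo.Hst
  rw [if_pos (by omega), if_pos (by omega), if_pos (by omega), if_neg (by omega), if_neg (by omega)]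
  ring

theorem du_l1 (h : g.x1 - 5 * g.k ≤ x ∧ x < g.x1 - 2 * g.k) : du g mu ρu x = ρu + Real.pi / 12 + mu - BGeo.sig mu := by
  unfold du BGeo.Hst
  rw [if_pos (by omega), if_pos (by omega), if_pos (by omega), if_pos (by omega), if_neg (by omega)]
  ring

theorem du_l2 (h : x < g.x1 - 5 * g.k) : du g mu ρu x = ρu + Real.pi / 12 + mu - BGeo.sig mu - BGeo.alpha mu := by
  unfold du BGeo.Hst
  rw [if_pos (by omega), if_pos (by omega), if_pos (by omega), if_pos (by omega), if_pos (by omega)]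
  ring

theorem dl_r0 (h : g.x2 ≤ x ∧ x < g.x2 + 2 * g.k) : dl g ml ρl x = ρl + ml - Real.pi / 12 := by
  unfold dl BGeo.Hst
  rw [if_pos (by omega), if_pos (by omega), if_pos (by omega), if_neg (by omega), if_neg (by omega)]
  ring

theorem dl_r1 (h : g.x2 + 2 * g.k ≤ x ∧ x < g.x2 + 5 * g.k) : dl g ml ρl x = ρl + ml - Real.pi / 12 - BGeo.sig ml := by
  unfold dl BGeo.Hst
  rw [if_pos (by omega), if_pos (by omega), if_pos (by omega), if_pos (by omega), if_neg (by omega)]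
  ring

theorem dl_r2 (h : g.x2 + 5 * g.k ≤ x) : dl g ml ρl x = ρl + ml - Real.pi / 12 - BGeo.sig ml - BGeo.alpha ml := by
  unfold dl BGeo.Hst
  rw [if_pos (by omega), if_pos (by omega), if_pos (by omega), if_pos (by omega), if_pos (by omega)]
  ring

theorem dl_l0 (h : g.x1 - 2 * g.k ≤ x ∧ x < g.x1) : dl g ml ρl x = ρl - Real.pi / 12 := by
  unfold dl BGeo.Hst
  rw [if_pos (by omega), if_pos (by omega), if_neg (by omega), if_neg (by omega), if_neg (by omega)]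
  ring

theorem dl_l1 (h : g.x1 - 5 * g.k ≤ x ∧ x < g.x1 - 2 * g.k) : dl g ml ρl x = ρl - Real.pi / 12 + BGeo.sig ml := by
  unfold dl BGeo.Hst
  rw [if_pos (by omega), if_neg (by omega), if_neg (by omega), if_neg (by omega), if_neg (by omega)]
  ring

theorem dl_l2 (h : x < g.x1 - 5 * g.k) : dl g ml ρl x = ρl - Real.pi / 12 + BGeo.sig ml + BGeo.alpha ml := by
  unfold dl BGeo.Hst
  rw [if_neg (by omega), if_neg (by omega), if_neg (by omega), if_neg (by omega), if_neg (by omega)]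
  ring

end Values

/-! ## Chamber pieces -/

/-- geometry of the chamber piece with the core `c` -/
structure ChG (g : BGeo) (c : ℕ) (xl x₀ xm x₁ xr : ℤ) : Prop where
  hl : xl < x₀
  hm : x₀ < xm
  hm' : xm < x₁
  hr : x₁ < xr
  zone : ∀ x, (zc g x = c ∨ zc g x = zp c ∨ zc g x = zm c) ↔ xl ≤ x ∧ x < xr
  cham : ∀ x, xl ≤ x → x < xr → (g.cham x ↔ x₀ ≤ x ∧ x < x₁)
  rl : g.x1 - 7 * g.k ≤ xl
  rr : xr ≤ g.x2 + 7 * g.k

/-- the faces of the piece in the plane -/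
def chF (g : BGeo) (xl x₀ x₁ xr : ℤ) : Finset (ℤ × ℤ) :=
  (RF x₀ x₁ (g.yc - g.b) (g.yc + g.b) ∪ RF x₁ xr (g.yc - g.a) (g.yc + g.a)) ∪
    RF xl x₀ (g.yc - g.a) (g.yc + g.a)

theorem coe_chF (xl x₀ x₁ xr : ℤ) : ((chF g xl x₀ x₁ xr : Finset (ℤ × ℤ)) : Set (ℤ × ℤ)) =
    chS xl x₀ x₁ xr (g.yc - g.b) (g.yc - g.a) (g.yc + g.a) (g.yc + g.b) := by
  unfold chF chS
  rw [Finset.coe_union, Finset.coe_union, coe_RF, coe_RF, coe_RF]

theorem PE.pz_cham (H : PE E g) {c : ℕ} {xl x₀ xm x₁ xr : ℤ} (G : ChG g c xl x₀ xm x₁ xr)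
    (hc : c = 3 ∨ c = 6 ∨ c = 12 ∨ c = 15) : pz E g c = (chF g xl x₀ x₁ xr).image tn := by
  have hab := H.ab
  have hbc := H.bc
  have h7 := G.rl
  have h8 := G.rr
  have g1 := G.hl
  have g2 := G.hm
  have g3 := G.hm'
  have g4 := G.hr
  have hne : ∀ z, (z == c || z == zp c || z == zm c) = true → z ≠ 0 ∧ z ≠ 9 := by
    intro z hz
    simp only [Bool.or_eq_true, beq_iff_eq] at hz
    unfold zp zm at hz
    rcases hc with rfl | rfl | rfl | rfl <;> simp at hz <;> omega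
  have hz : ∀ z, (z == c || z == zp c || z == zm c) = true ↔ (z = c ∨ z = zp c ∨ z = zm c) := by
    intro z
    simp only [Bool.or_eq_true, beq_iff_eq, or_assoc]
  ext f
  rw [Finset.mem_image, pz, mem_zF]
  constructor
  · rintro ⟨h1, h2⟩
    have h3 := hne _ h2
    rcases mem_EF.mp h1 with ⟨h4, h5⟩ | h4
    · obtain ⟨σ, f⟩ := f
      simp only at h4 h5
      subst h4
      refine ⟨f, ?_, rfl⟩
      unfold zone at h2 h3
      simp only [ne_eq, not_true_eq_false, if_false] at h2 h3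
      split_ifs at h2 h3 with h6
      · exact absurd rfl h3.2
      · have h9 := (G.zone f.1).mp ((hz _).mp h2)
        have h10 := G.cham f.1 h9.1 h9.2
        rw [H.mem_base] at h5
        obtain ⟨-, s1, s2⟩ := h5
        unfold chF
        rw [Finset.mem_union, Finset.mem_union, mem_RF, mem_RF, mem_RF]
        by_cases hcm : g.cham f.1
        · have h11 := h10.mp hcm
          refine Or.inl (Or.inl ⟨h11.1, h11.2, ?_, ?_⟩)
          · by_contra hcon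
            apply s2
            unfold BGeo.solid BGeo.hgt
            simp only [Bool.false_eq_true, if_false]
            exact ⟨by omega, by omega, by omega, by omega, fun h => by omega⟩
          · by_contra hcon
            apply s1
            unfold BGeo.solid BGeo.hgt
            simp only [if_true]
            exact ⟨by omega, by omega, by omega, by omega, fun h => by omega⟩
        · have h11 : ¬ (x₀ ≤ f.1 ∧ f.1 < x₁) := fun h => hcm (h10.mpr h)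
          have h12 : g.yc - g.a ≤ f.2 := by
            by_contra hcon
            apply s2
            unfold BGeo.solid BGeo.hgt
            simp only [Bool.false_eq_true, if_false]
            exact ⟨by omega, by omega, by omega, by omega, fun h => hcm h.1⟩
          have h13 : f.2 < g.yc + g.a := by
            by_contra hcon
            apply s1
            unfold BGeo.solid BGeo.hgt
            simp only [if_true]
            exact ⟨by omega, by omega, by omega, by omega, fun h => hcm h.1⟩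
          rcases lt_or_ge f.1 x₀ with h14 | h14
          · exact Or.inr ⟨h9.1, h14, h12, h13⟩
          · exact Or.inl (Or.inr ⟨by omega, h9.2, h12, h13⟩)
    · exfalso
      apply h3.1
      unfold zone
      rw [if_pos]
      rcases h4 with h4 | h4 <;> rw [h4.1] <;> simp
  · rintro ⟨f, hf, rfl⟩
    have hcol : xl ≤ f.1 ∧ f.1 < xr ∧ g.yc - g.b ≤ f.2 ∧ f.2 < g.yc + g.b ∧
        ((x₀ ≤ f.1 ∧ f.1 < x₁) ∨ (g.yc - g.a ≤ f.2 ∧ f.2 < g.yc + g.a)) := by
      unfold chF at hf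
      rw [Finset.mem_union, Finset.mem_union, mem_RF, mem_RF, mem_RF] at hf
      omega
    have h10 := G.cham f.1 hcol.1 hcol.2.1
    refine ⟨mem_EF.mpr (Or.inl ⟨rfl, ?_⟩), ?_⟩
    · rw [H.mem_base]
      refine ⟨H.W ?_, ?_, ?_⟩
      · rw [mem_RF]
        simp only
        omega
      · rintro ⟨e1, e2, e3, e4, e5⟩
        simp only [BGeo.hgt, if_true] at e1 e2 e3 e4 e5
        rcases hcol.2.2.2.2 with h | h
        · exact e5 ⟨h10.mpr h, by omega⟩
        · omega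
      · rintro ⟨e1, e2, e3, e4, e5⟩
        simp only [BGeo.hgt, Bool.false_eq_true, if_false] at e1 e2 e3 e4 e5
        rcases hcol.2.2.2.2 with h | h
        · exact e5 ⟨h10.mpr h, by omega⟩
        · omega
    · rw [hz]
      unfold zone
      simp only [ne_eq, not_true_eq_false, if_false]
      rw [if_neg (by omega)]
      exact (G.zone f.1).mpr ⟨hcol.1, hcol.2.1⟩

/-! ## Faces on the two sides of a side -/

section Sw

variable {S : Set (ℤ × ℤ)} {x y : ℤ}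

theorem sw0 : ((x, y), (x + 1, y)) ∈ Sides ZQ S ↔ (x, y) ∈ S := by
  have := mem_sides_ZQ (p := (x, y)) (a := 0) (S := S)
  rw [dv0] at this
  simpa [lface] using this

theorem sw2 : ((x + 1, y), (x, y)) ∈ Sides ZQ S ↔ (x, y - 1) ∈ S := by
  constructor
  · rintro ⟨⟨u, v⟩, hf, k, hk⟩
    rcases k4_cases k with rfl | rfl | rfl | rfl
    · rw [sd_ZQ0, Prod.mk.injEq, Prod.mk.injEq, Prod.mk.injEq] at hk; omega
    · rw [sd_ZQ1, Prod.mk.injEq, Prod.mk.injEq, Prod.mk.injEq] at hk; omega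
    · rw [sd_ZQ2, Prod.mk.injEq, Prod.mk.injEq, Prod.mk.injEq] at hk
      have e1 : u = x := by omega
      have e2 : v = y - 1 := by omega
      rw [← e1, ← e2]; exact hf
    · rw [sd_ZQ3, Prod.mk.injEq, Prod.mk.injEq, Prod.mk.injEq] at hk; omega
  · intro h
    exact ⟨_, h, 2, by rw [sd_ZQ2]; simp⟩

theorem sw3 : ((x, y + 1), (x, y)) ∈ Sides ZQ S ↔ (x, y) ∈ S := by
  constructor
  · rintro ⟨⟨u, v⟩, hf, k, hk⟩
    rcases k4_cases k with rfl | rfl | rfl | rfl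
    · rw [sd_ZQ0, Prod.mk.injEq, Prod.mk.injEq, Prod.mk.injEq] at hk; omega
    · rw [sd_ZQ1, Prod.mk.injEq, Prod.mk.injEq, Prod.mk.injEq] at hk; omega
    · rw [sd_ZQ2, Prod.mk.injEq, Prod.mk.injEq, Prod.mk.injEq] at hk; omega
    · rw [sd_ZQ3, Prod.mk.injEq, Prod.mk.injEq, Prod.mk.injEq] at hk
      have e1 : u = x := by omega
      have e2 : v = y := by omega
      rw [← e1, ← e2]; exact hf
  · intro h
    exact ⟨_, h, 3, by rw [sd_ZQ3]⟩

theorem sw1 : ((x, y), (x, y + 1)) ∈ Sides ZQ S ↔ (x - 1, y) ∈ S := by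
  constructor
  · rintro ⟨⟨u, v⟩, hf, k, hk⟩
    rcases k4_cases k with rfl | rfl | rfl | rfl
    · rw [sd_ZQ0, Prod.mk.injEq, Prod.mk.injEq, Prod.mk.injEq] at hk; omega
    · rw [sd_ZQ1, Prod.mk.injEq, Prod.mk.injEq, Prod.mk.injEq] at hk
      have e1 : u = x - 1 := by omega
      have e2 : v = y := by omega
      rw [← e1, ← e2]; exact hf
    · rw [sd_ZQ2, Prod.mk.injEq, Prod.mk.injEq, Prod.mk.injEq] at hk; omega
    · rw [sd_ZQ3, Prod.mk.injEq, Prod.mk.injEq, Prod.mk.injEq] at hk; omega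
  · intro h
    exact ⟨_, h, 1, by rw [sd_ZQ1]; simp⟩

end Sw

theorem chS_out {xl x₀ x₁ xr y₀ y₁ y₂ y₃ : ℤ} (hl : xl < x₀) (hx : x₀ < x₁) (hr : x₁ < xr) (h1 : y₀ ≤ y₁)
    (h2 : y₁ < y₂) (h3 : y₂ ≤ y₃) : ∀ x ∈ chW xl x₀ x₁ xr y₀ y₁ y₂ y₃,
      x.1.swap ∉ Sides ZQ (chS xl x₀ x₁ xr y₀ y₁ y₂ y₃) := by
  intro x hx'
  have hm : ∀ u v : ℤ, (u, v) ∈ chS xl x₀ x₁ xr y₀ y₁ y₂ y₃ ↔ (x₀ ≤ u ∧ u < x₁ ∧ y₀ ≤ v ∧ v < y₃) ∨
      (xl ≤ u ∧ u < xr ∧ y₁ ≤ v ∧ v < y₂) := by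
    intro u v
    unfold chS RS
    simp only [Set.mem_union, Set.mem_ofPred_eq]
    omega
  unfold chW at hx'
  simp only [List.mem_append] at hx'
  rcases hx' with h | h | h | h | h | h | h | h | h | h | h | h
  · obtain ⟨x', e1, e2, rfl⟩ := seg0 h
    show ((x' + 1, y₀), (x', y₀)) ∉ _
    rw [sw2, hm]; omega
  · obtain ⟨x', e1, e2, rfl⟩ := seg1 h
    show ((x₁, x' + 1), (x₁, x')) ∉ _
    rw [sw3, hm]; omega
  · obtain ⟨x', e1, e2, rfl⟩ := seg0 h
    show ((x' + 1, y₁), (x', y₁)) ∉ _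
    rw [sw2, hm]; omega
  · obtain ⟨x', e1, e2, rfl⟩ := seg1 h
    show ((xr, x' + 1), (xr, x')) ∉ _
    rw [sw3, hm]; omega
  · obtain ⟨x', e1, e2, rfl⟩ := seg2 h
    show ((x', y₂), (x' + 1, y₂)) ∉ _
    rw [sw0, hm]; omega
  · obtain ⟨x', e1, e2, rfl⟩ := seg1 h
    show ((x₁, x' + 1), (x₁, x')) ∉ _
    rw [sw3, hm]; omega
  · obtain ⟨x', e1, e2, rfl⟩ := seg2 h
    show ((x', y₃), (x' + 1, y₃)) ∉ _
    rw [sw0, hm]; omega
  · obtain ⟨x', e1, e2, rfl⟩ := seg3 h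
    show ((x₀, x'), (x₀, x' + 1)) ∉ _
    rw [sw1, hm]; omega
  · obtain ⟨x', e1, e2, rfl⟩ := seg2 h
    show ((x', y₂), (x' + 1, y₂)) ∉ _
    rw [sw0, hm]; omega
  · obtain ⟨x', e1, e2, rfl⟩ := seg3 h
    show ((xl, x'), (xl, x' + 1)) ∉ _
    rw [sw1, hm]; omega
  · obtain ⟨x', e1, e2, rfl⟩ := seg4 h
    show ((x' + 1, y₁), (x', y₁)) ∉ _
    rw [sw2, hm]; omega
  · obtain ⟨x', e1, e2, rfl⟩ := seg3 h
    show ((x₀, x'), (x₀, x' + 1)) ∉ _
    rw [sw1, hm]; omega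

/-- **Chambers.** -/
theorem PE.cham_nonneg (H : PE E g) {c : ℕ} {xl x₀ xm x₁ xr : ℤ} (G : ChG g c xl x₀ xm x₁ xr)
    (hc : c = 3 ∨ c = 6 ∨ c = 12 ∨ c = 15) {f₁ f₂ c₁ c₂ : ℝ} (hR : ChR f₁ f₂ c₁ c₂)
    (d1 : ∀ x, xl ≤ x → x < xm → dl g ml ρl x = f₁) (d2 : ∀ x, xm ≤ x → x < xr → dl g ml ρl x = f₂)
    (d3 : ∀ x, xm ≤ x → x < xr → du g mu ρu x = c₁) (d4 : ∀ x, xl ≤ x → x < xm → du g mu ρu x = c₂) :
    0 ≤ Conf.aP E.Q (pz E g c) ω (cutP g ml ρl (E.psi mu ρu ml ρl ψu ψl)) (bS E.Q (pz E g c)) := by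
  have hab := H.ab
  have hbc := H.bc
  have ha := H.a_pos
  have g1 := G.hl
  have g2 := G.hm
  have g3 := G.hm'
  have g4 := G.hr
  have e := H.pz_cham G hc
  have hS : Sht E.Q tn tn (chF g xl x₀ x₁ xr) := by
    refine ⟨fun _ _ h => congrArg Prod.snd h, fun _ _ h => congrArg Prod.snd h, fun f hf k => ?_⟩
    have h1 : tn f ∈ pz E g c := by
      rw [e]; exact Finset.mem_image_of_mem _ hf
    rcases mem_EF.mp (mem_zF.mp h1).1 with h2 | h2 | h2
    · exact H.c_base h2.2 k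
    · exact absurd h2.1 (by simp)
    · exact absurd h2.1 (by simp)
  obtain ⟨G0, hD0⟩ := disc_chamber (xl := xl) (x₀ := x₀) (x₁ := x₁) (xr := xr) (y₀ := g.yc - g.b)
    (y₁ := g.yc - g.a) (y₂ := g.yc + g.a) (y₃ := g.yc + g.b) g1 (g2.trans g3) g4 (by omega) (by omega)
    (by omega)
  have hD1 := hD0.complete (chS_out g1 (g2.trans g3) g4 (by omega) (by omega) (by omega))
  rw [← coe_chF] at hD1
  have hD := hS.disc hD1
  rw [e]
  have hini : ∀ e ∈ ((chW xl x₀ x₁ xr (g.yc - g.b) (g.yc - g.a) (g.yc + g.a) (g.yc + g.b)).map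
      (Prod.map (mp tn) id)).map Prod.fst, Ini E.Q (((chF g xl x₀ x₁ xr).image tn : Finset _) : Set _) e := by
    intro e he
    obtain ⟨x, hx, rfl⟩ := List.mem_map.mp he
    exact ini_of_bd (hD.bd hx).2
  have hV : ChV (fun s => cutP g ml ρl (E.psi mu ρu ml ρl ψu ψl) (mp tn s)) xl x₀ xm x₁ xr (g.yc - g.b)
      (g.yc - g.a) (g.yc + g.a) (g.yc + g.b) f₁ f₂ c₁ c₂ := by
    constructor
    · intro x h1 h2
      show cutP g ml ρl _ (mp tn ((x, g.yc - g.b), (x + 1, g.yc - g.b))) = _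
      rw [cutP_n (Or.inl rfl), H.psi_lo0 (by omega), d1 x (by omega) h2]
    · intro x h1 h2
      show cutP g ml ρl _ (mp tn ((x, g.yc - g.b), (x + 1, g.yc - g.b))) = _
      rw [cutP_n (Or.inl rfl), H.psi_lo0 (by omega), d2 x (by omega) (by omega)]
    · intro x h1 h2
      show cutP g ml ρl _ (mp tn ((x, g.yc - g.a), (x + 1, g.yc - g.a))) = _
      rw [cutP_n (Or.inl rfl), H.psi_lo0 (by omega), d2 x (by omega) (by omega)]
    · intro x h1 h2
      show cutP g ml ρl _ (mp tn ((x, g.yc - g.a), (x + 1, g.yc - g.a))) = _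
      rw [cutP_n (Or.inl rfl), H.psi_lo0 (by omega), d1 x (by omega) (by omega)]
    · intro y h1 h2
      show cutP g ml ρl _ (mp tn ((x₁, y), (x₁, y + 1))) = _
      rw [cutP_n (Or.inr (Or.inl h2)), H.psi_lo1 (by omega), d2 _ (by omega) (by omega)]
    · intro y h1 h2
      show cutP g ml ρl _ (mp tn ((xr, y), (xr, y + 1))) = _
      rw [cutP_r h1 h2, d2 _ (by omega) (by omega)]
    · intro y h1 h2
      show cutP g ml ρl _ (mp tn ((x₁, y), (x₁, y + 1))) = _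
      rw [cutP_n (Or.inr (Or.inr (Or.inr (Or.inr (by simp only [mp, tn, Prod.map]; omega))))),
        H.psi_up1 (by omega), d3 _ (by omega) (by omega)]
    · intro x h1 h2
      show cutP g ml ρl _ (mp tn ((x + 1, g.yc + g.a), (x, g.yc + g.a))) = _
      rw [cutP_n (Or.inl rfl), H.psi_up2 (by omega), d3 x (by omega) (by omega)]
    · intro x h1 h2
      show cutP g ml ρl _ (mp tn ((x + 1, g.yc + g.b), (x, g.yc + g.b))) = _
      rw [cutP_n (Or.inl rfl), H.psi_up2 (by omega), d3 x (by omega) (by omega)]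
    · intro x h1 h2
      show cutP g ml ρl _ (mp tn ((x + 1, g.yc + g.b), (x, g.yc + g.b))) = _
      rw [cutP_n (Or.inl rfl), H.psi_up2 (by omega), d4 x (by omega) (by omega)]
    · intro x h1 h2
      show cutP g ml ρl _ (mp tn ((x + 1, g.yc + g.a), (x, g.yc + g.a))) = _
      rw [cutP_n (Or.inl rfl), H.psi_up2 (by omega), d4 x (by omega) (by omega)]
    · intro y h1 h2
      show cutP g ml ρl _ (mp tn ((x₀, y + 1), (x₀, y))) = _
      rw [cutP_n (Or.inr (Or.inr (Or.inl (by simp only [mp, tn, Prod.map]; omega)))),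
        H.psi_lo3 (by omega), d1 _ (by omega) (by omega)]
    · intro y h1 h2
      show cutP g ml ρl _ (mp tn ((xl, y + 1), (xl, y))) = _
      rw [cutP_l h1 h2, d1 _ (by omega) (by omega)]
    · intro y h1 h2
      show cutP g ml ρl _ (mp tn ((x₀, y + 1), (x₀, y))) = _
      rw [cutP_n (Or.inr (Or.inr (Or.inr (Or.inl (by simp only [mp, tn, Prod.map]; omega))))),
        H.psi_up3 (by omega), d4 _ (by omega) (by omega)]
  have hp := chW_pair hV hR g1 g2.le g3.le g4 (by omega) (by omega) (by omega)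
  refine Conf.aP_nonneg (Finset.Subset.refl _) fun a ha => ?_
  refine hD.wt_of_pairwise hini (p := fun t => 0 ≤ t) ?_ ha
  rw [List.pairwise_map]
  exact hp

/-! ## The four chambers -/

theorem sig_alpha (m : ℝ) : BGeo.alpha m = Real.pi / 6 + BGeo.sig m / 2 := by
  unfold BGeo.alpha BGeo.sig
  ring

theorem Par.sig_l (h : Par mu ρu ml ρl) : BGeo.sig ml = -BGeo.sig mu := by
  have := h.sum
  unfold BGeo.sig
  linarith

theorem Par.sig_rng (h : Par mu ρu ml ρl) : -(2 * Real.pi / 9) ≤ BGeo.sig mu ∧ BGeo.sig mu ≤ 2 * Real.pi / 9 := by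
  have h1 := h.lo
  have h2 := h.hi
  unfold BGeo.sig
  constructor <;> linarith

theorem PE.chG3 (H : PE E g) : ChG g 3 (g.x2 + 2 * (g.k / 4 : ℕ)) (g.x2 + g.k) (g.x2 + 2 * g.k) (g.x2 + 3 * g.k)
    (g.x2 + 3 * g.k + 2 * (g.k / 4 : ℕ)) := by
  have hk := H.k4
  have hx := H.x_lt
  have h3 : 1 ≤ g.k / 4 := by omega
  have h4 : 4 * (g.k / 4) ≤ g.k := by omega
  refine ⟨by omega, by omega, by omega, by omega, fun x => ?_, fun x h5 h6 => ?_, by omega, by omega⟩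
  · have h1 := zc_iff g x
    rw [show zp 3 = 4 from rfl, show zm 3 = 2 from rfl]
    generalize g.k / 4 = q at h1 h3 h4 ⊢
    generalize zc g x = z at h1 ⊢
    rcases h1 with h1 | h1 | h1 | h1 | h1 | h1 | h1 | h1 | h1 | h1 | h1 | h1 | h1 | h1 | h1 | h1 | h1 | h1 | h1 <;>
      (rw [h1.1]; omega)
  · unfold BGeo.cham
    omega

theorem PE.chG6 (H : PE E g) : ChG g 6 (g.x2 + 3 * g.k + 2 * (g.k / 4 : ℕ)) (g.x2 + 4 * g.k) (g.x2 + 5 * g.k) (g.x2 + 6 * g.k)
    (g.x2 + 6 * g.k + 2 * (g.k / 4 : ℕ)) := by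
  have hk := H.k4
  have hx := H.x_lt
  have h3 : 1 ≤ g.k / 4 := by omega
  have h4 : 4 * (g.k / 4) ≤ g.k := by omega
  refine ⟨by omega, by omega, by omega, by omega, fun x => ?_, fun x h5 h6 => ?_, by omega, by omega⟩
  · have h1 := zc_iff g x
    rw [show zp 6 = 7 from rfl, show zm 6 = 5 from rfl]
    generalize g.k / 4 = q at h1 h3 h4 ⊢
    generalize zc g x = z at h1 ⊢
    rcases h1 with h1 | h1 | h1 | h1 | h1 | h1 | h1 | h1 | h1 | h1 | h1 | h1 | h1 | h1 | h1 | h1 | h1 | h1 | h1 <;>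
      (rw [h1.1]; omega)
  · unfold BGeo.cham
    omega

theorem PE.chG15 (H : PE E g) : ChG g 15 (g.x1 - 3 * g.k - 2 * (g.k / 4 : ℕ)) (g.x1 - 3 * g.k) (g.x1 - 2 * g.k) (g.x1 - g.k)
    (g.x1 - 2 * (g.k / 4 : ℕ)) := by
  have hk := H.k4
  have hx := H.x_lt
  have h3 : 1 ≤ g.k / 4 := by omega
  have h4 : 4 * (g.k / 4) ≤ g.k := by omega
  refine ⟨by omega, by omega, by omega, by omega, fun x => ?_, fun x h5 h6 => ?_, by omega, by omega⟩
  · have h1 := zc_iff g x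
    rw [show zp 15 = 16 from rfl, show zm 15 = 14 from rfl]
    generalize g.k / 4 = q at h1 h3 h4 ⊢
    generalize zc g x = z at h1 ⊢
    rcases h1 with h1 | h1 | h1 | h1 | h1 | h1 | h1 | h1 | h1 | h1 | h1 | h1 | h1 | h1 | h1 | h1 | h1 | h1 | h1 <;>
      (rw [h1.1]; omega)
  · unfold BGeo.cham
    omega

theorem PE.chG12 (H : PE E g) : ChG g 12 (g.x1 - 6 * g.k - 2 * (g.k / 4 : ℕ)) (g.x1 - 6 * g.k) (g.x1 - 5 * g.k) (g.x1 - 4 * g.k)
    (g.x1 - 3 * g.k - 2 * (g.k / 4 : ℕ)) := by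
  have hk := H.k4
  have hx := H.x_lt
  have h3 : 1 ≤ g.k / 4 := by omega
  have h4 : 4 * (g.k / 4) ≤ g.k := by omega
  refine ⟨by omega, by omega, by omega, by omega, fun x => ?_, fun x h5 h6 => ?_, by omega, by omega⟩
  · have h1 := zc_iff g x
    rw [show zp 12 = 13 from rfl, show zm 12 = 11 from rfl]
    generalize g.k / 4 = q at h1 h3 h4 ⊢
    generalize zc g x = z at h1 ⊢
    rcases h1 with h1 | h1 | h1 | h1 | h1 | h1 | h1 | h1 | h1 | h1 | h1 | h1 | h1 | h1 | h1 | h1 | h1 | h1 | h1 <;>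
      (rw [h1.1]; omega)
  · unfold BGeo.cham
    omega

/-- **All chambers.** -/
theorem PE.cham_all (H : PE E g) (hP : Par mu ρu ml ρl) {c : ℕ} (hc : c = 3 ∨ c = 6 ∨ c = 12 ∨ c = 15) :
    0 ≤ Conf.aP E.Q (pz E g c) ω (cutP g ml ρl (E.psi mu ρu ml ρl ψu ψl)) (bS E.Q (pz E g c)) := by
  have hk : 0 < g.k := by have := H.k4; omega
  have hx := H.x_lt.le
  have hk4 := H.k4
  have h4 : 4 * (g.k / 4) ≤ g.k := by omega
  have hpi := Real.pi_pos
  obtain ⟨s1, s2⟩ := hP.sig_rng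
  have e1 := hP.sig_l
  have e2 := sig_alpha mu
  have e3 := sig_alpha ml
  have e4 := hP.rho
  have e5 := hP.sum
  rcases hc with rfl | rfl | rfl | rfl
  · refine H.cham_nonneg H.chG3 (Or.inl rfl) (f₁ := ρu + Real.pi / 12)
      (f₂ := ρu + Real.pi / 12 + BGeo.sig mu) (c₁ := ρu + Real.pi / 12 + BGeo.sig mu)
      (c₂ := ρu + Real.pi / 12) ?_ ?_ ?_ ?_ ?_
    · constructor <;> (constructor <;> linarith)
    · intro x h5 h6
      rw [dl_r0 hk hx ⟨by omega, by omega⟩]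
      linarith
    · intro x h5 h6
      rw [dl_r1 hk hx ⟨by omega, by omega⟩]
      linarith
    · intro x h5 h6
      rw [du_r1 hk hx ⟨by omega, by omega⟩]
    · intro x h5 h6
      rw [du_r0 hk hx ⟨by omega, by omega⟩]
  · refine H.cham_nonneg H.chG6 (Or.inr (Or.inl rfl)) (f₁ := ρu + Real.pi / 12 + BGeo.sig mu)
      (f₂ := ρu + Real.pi / 12 + BGeo.sig mu - BGeo.alpha ml)
      (c₁ := ρu + Real.pi / 12 + BGeo.sig mu + BGeo.alpha mu)
      (c₂ := ρu + Real.pi / 12 + BGeo.sig mu) ?_ ?_ ?_ ?_ ?_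
    · constructor <;> (constructor <;> linarith)
    · intro x h5 h6
      rw [dl_r1 hk hx ⟨by omega, by omega⟩]
      linarith
    · intro x h5 h6
      rw [dl_r2 hk hx (by omega)]
      linarith
    · intro x h5 h6
      rw [du_r2 hk hx (by omega)]
    · intro x h5 h6
      rw [du_r1 hk hx ⟨by omega, by omega⟩]
  · refine H.cham_nonneg H.chG12 (Or.inr (Or.inr (Or.inl rfl)))
      (f₁ := ρl - Real.pi / 12 + BGeo.sig ml + BGeo.alpha ml) (f₂ := ρl - Real.pi / 12 + BGeo.sig ml)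
      (c₁ := ρu + Real.pi / 12 + mu - BGeo.sig mu)
      (c₂ := ρu + Real.pi / 12 + mu - BGeo.sig mu - BGeo.alpha mu) ?_ ?_ ?_ ?_ ?_
    · constructor <;> (constructor <;> linarith)
    · intro x h5 h6
      rw [dl_l2 hk hx (by omega)]
    · intro x h5 h6
      rw [dl_l1 hk hx ⟨by omega, by omega⟩]
    · intro x h5 h6
      rw [du_l1 hk hx ⟨by omega, by omega⟩]
    · intro x h5 h6
      rw [du_l2 hk hx (by omega)]
  · refine H.cham_nonneg H.chG15 (Or.inr (Or.inr (Or.inr rfl)))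
      (f₁ := ρl - Real.pi / 12 + BGeo.sig ml) (f₂ := ρl - Real.pi / 12)
      (c₁ := ρu + Real.pi / 12 + mu)
      (c₂ := ρu + Real.pi / 12 + mu - BGeo.sig mu) ?_ ?_ ?_ ?_ ?_
    · constructor <;> (constructor <;> linarith)
    · intro x h5 h6
      rw [dl_l1 hk hx ⟨by omega, by omega⟩]
    · intro x h5 h6
      rw [dl_l0 hk hx ⟨by omega, by omega⟩]
    · intro x h5 h6
      rw [du_l0 hk hx ⟨by omega, by omega⟩]
    · intro x h5 h6
      rw [du_l1 hk hx ⟨by omega, by omega⟩]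

end

end Pool.Agent.SixB.Pos
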