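import Pool.Agent.Lib.SixB.S3HTub
import Pool.Agent.Lib.SixB.S3PosCh

/-!
# 6BD step 3.8 (R18): weights of the arcs confined to the first tubes

* `tube_wt0`: weight `√3` of the arcs of a rectangle, all sides on the boundary natural with one value.
* `wt_tube`: the same for a rectangle `X₀ .. X₁` in the first tubes of an environment, end sides glued or natural.
* `wt_env`, `wt_in`, `wt_out`: the arcs of `E.F` (two rectangles), of `S.G (2q)` with the phases `S.phG (2q)` and of the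
  complement with the phases `S.phO (2q)` (one rectangle).
-/

set_option autoImplicit false
set_option linter.unusedSectionVars false

namespace Pool.Agent.SixB.Tub

open Pool.Agent.SixB Pool.Agent.SixB.Gd Pool.Agent.SixB.Pos Pool.Agent.Perc Pool.Agent.Perc.Q Relation

noncomputable section

section Gen

variable {V Φ : Type} [DecidableEq V] [DecidableEq Φ]
variable {Q : QC V Φ} {φ : ℤ × ℤ → Φ} {pos : ℤ × ℤ → V} {ω : Φ → Bool} {a : V × V} {ψ : V × V → ℝ}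

/-- **Weights of the arcs of a rectangle**, one value for all sides. -/
theorem tube_wt0 {G : Finset Φ} {X₀ X₁ Y₀ Y₁ : ℤ} (hX : X₀ < X₁) (hY : Y₀ < Y₁)
    (h : Sht Q φ pos (RF X₀ X₁ Y₀ Y₁)) (hG : (RF X₀ X₁ Y₀ Y₁).image φ ⊆ G) (ha : a ∈ bS Q G)
    (hv : Vis Q ω (G : Set Φ) a ⊆ (((RF X₀ X₁ Y₀ Y₁).image φ : Finset Φ) : Set Φ)) {β : ℝ}
    (hB : ∀ x, X₀ ≤ x → x < X₁ → mp pos ((x, Y₀), (x + 1, Y₀)) ∈ bS Q G →
      ψ (mp pos ((x, Y₀), (x + 1, Y₀))) = β)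
    (hR : ∀ y, Y₀ ≤ y → y < Y₁ → mp pos ((X₁, y), (X₁, y + 1)) ∈ bS Q G →
      ψ (mp pos ((X₁, y), (X₁, y + 1))) = β - Real.pi / 12)
    (hT : ∀ x, X₀ ≤ x → x < X₁ → mp pos ((x + 1, Y₁), (x, Y₁)) ∈ bS Q G →
      ψ (mp pos ((x + 1, Y₁), (x, Y₁))) = β - Real.pi / 6)
    (hL : ∀ y, Y₀ ≤ y → y < Y₁ → mp pos ((X₀, y + 1), (X₀, y)) ∈ bS Q G →
      ψ (mp pos ((X₀, y + 1), (X₀, y))) = β - Real.pi / 4) :
    wt Q G ω ψ a = Real.sqrt 3 := by
  obtain ⟨c1, c2, c3⟩ := Conf.conf_mate hG ha hv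
  have e1 : wt Q ((RF X₀ X₁ Y₀ Y₁).image φ) ω ψ a = wt Q G ω ψ a := Conf.conf_wt hG ha hv rfl rfl
  rw [← e1]
  have hD := h.disc (disc_RF hX hY)
  have hini : ∀ e ∈ ((rectW X₀ X₁ Y₀ Y₁).map (Prod.map (mp pos) id)).map Prod.fst,
      Ini Q (((RF X₀ X₁ Y₀ Y₁).image φ : Finset Φ) : Set Φ) e := by
    intro e he
    obtain ⟨x, hx, rfl⟩ := List.mem_map.mp he
    exact ini_of_bd (hD.bd hx).2
  obtain ⟨i, j, hi, hj, hij, h1, h2⟩ := hD.wt_pair hini ω ψ c1
  rw [h1]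
  have hmG := mate_mem (ω := ω) ha
  rw [← c2] at hmG
  -- both entries are boundary sides of `G`
  have hiG : (((rectW X₀ X₁ Y₀ Y₁).map (Prod.map (mp pos) id))[i]).1 ∈ bS Q G := by
    rcases h2 with ⟨h3, h4⟩ | ⟨h3, h4⟩
    · rw [← h3]; exact ha
    · rw [← h4]; exact hmG
  have hjG : (((rectW X₀ X₁ Y₀ Y₁).map (Prod.map (mp pos) id))[j]).1 ∈ bS Q G := by
    rcases h2 with ⟨h3, h4⟩ | ⟨h3, h4⟩
    · rw [← h4]; exact hmG
    · rw [← h3]; exact ha
  -- all values agree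
  have hval : ∀ z ∈ rectW X₀ X₁ Y₀ Y₁, mp pos z.1 ∈ bS Q G → val ψ (Prod.map (mp pos) id z) = β := by
    intro z hz hb
    unfold val
    rw [Prod.map_fst, Prod.map_snd]
    unfold rectW at hz
    rcases List.mem_append.mp hz with hz | hz
    · obtain ⟨x', h3, h4, rfl⟩ := seg0 hz
      rw [hB x' h3 (by omega) hb]
      simp
    rcases List.mem_append.mp hz with hz | hz
    · obtain ⟨y', h3, h4, rfl⟩ := seg1 hz
      rw [hR y' h3 (by omega) hb]
      simp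
    rcases List.mem_append.mp hz with hz | hz
    · obtain ⟨x', h3, h4, rfl⟩ := seg2 hz
      rw [hT x' (by omega) (by omega) hb]
      simp
      ring
    · obtain ⟨y', h3, h4, rfl⟩ := seg3 hz
      rw [hL y' (by omega) (by omega) hb]
      simp
      ring
  have hget : ∀ (k : ℕ) (hk : k < ((rectW X₀ X₁ Y₀ Y₁).map (Prod.map (mp pos) id)).length),
      (((rectW X₀ X₁ Y₀ Y₁).map (Prod.map (mp pos) id))[k]).1 ∈ bS Q G →
        val ψ (((rectW X₀ X₁ Y₀ Y₁).map (Prod.map (mp pos) id))[k]) = β := by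
    intro k hk hb
    rw [List.getElem_map] at hb ⊢
    exact hval _ (List.getElem_mem _) hb
  rw [hget i hi hiG, hget j hj hjG, sub_self]
  exact tw_zero

end Gen

variable {E : SEnv} {g : BGeo} {ω : FF → Bool}

/-! ## Sides of the slab rows -/

theorem c_none' (H : PE E g) {f : ℤ × ℤ} (hf : f ∈ E.base) (k : ZMod 4) :
    E.Q.c (none, f) k = (none, ZQ.c f k) := H.c_base hf k

/-- a side between two faces of `G` is not a boundary side -/
theorem not_bS_up (H : PE E g) {G : Finset FF} (hG : G ⊆ E.F) {x y : ℤ} (h : ((none, (x, y)) : FF) ∈ G) :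
    mp tn ((x, y), (x, y + 1)) ∉ bS E.Q G := by
  intro hb
  have h1 : (x, y) ∈ E.base := by
    rcases mem_EF.mp (hG h) with ⟨-, h2⟩ | ⟨h2, -⟩ | ⟨h2, -⟩
    · exact h2
    · exact absurd h2 (by simp)
    · exact absurd h2 (by simp)
  refine (mem_bS.mp hb).2 (none, (x, y)) (by exact_mod_cast h) 3 ?_
  rw [show (3 : ZMod 4) + 1 = 0 by decide, H.c_base h1, H.c_base h1]
  rfl

theorem not_bS_down (H : PE E g) {G : Finset FF} (hG : G ⊆ E.F) {x y : ℤ}
    (h : ((none, (x - 1, y)) : FF) ∈ G) : mp tn ((x, y + 1), (x, y)) ∉ bS E.Q G := by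
  intro hb
  have h1 : (x - 1, y) ∈ E.base := by
    rcases mem_EF.mp (hG h) with ⟨-, h2⟩ | ⟨h2, -⟩ | ⟨h2, -⟩
    · exact h2
    · exact absurd h2 (by simp)
    · exact absurd h2 (by simp)
  refine (mem_bS.mp hb).2 (none, (x - 1, y)) (by exact_mod_cast h) 1 ?_
  rw [H.c_base h1, H.c_base h1]
  have e1 : ZQ.c (x - 1, y) 1 = (x, y) := by
    show ((x - 1 + 1, y) : ℤ × ℤ) = (x, y)
    rw [sub_add_cancel]
  have e2 : ZQ.c (x - 1, y) (1 + 1) = (x, y + 1) := by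
    rw [show (1 : ZMod 4) + 1 = 2 by decide]
    show ((x - 1 + 1, y + 1) : ℤ × ℤ) = (x, y + 1)
    rw [sub_add_cancel]
  rw [e1, e2]
  rfl

/-- rectangles of base faces -/
theorem sht_base (H : PE E g) {R : Finset (ℤ × ℤ)} (hR : ∀ f ∈ R, f ∈ E.base) : Sht E.Q tn tn R where
  injF := fun x y h => (Prod.mk.inj h).2
  injV := fun x y h => (Prod.mk.inj h).2
  cor := fun f hf k => H.c_base (hR f hf) k

theorem base_of_mem {f : ℤ × ℤ} (h : ((none, f) : FF) ∈ E.F) : f ∈ E.base := by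
  rcases mem_EF.mp h with ⟨-, h2⟩ | ⟨h2, -⟩ | ⟨h2, -⟩
  · exact h2
  · exact absurd h2 (by simp)
  · exact absurd h2 (by simp)

variable {G : Finset FF} {a : FF × FF} {ψ : FF × FF → ℝ} {X₀ X₁ : ℤ} {β δ : ℝ}

/-- **A rectangle of the slab rows.** -/
theorem wt_tube (H : PE E g) (hG : G ⊆ E.F) (hX : X₀ < X₁)
    (hR : (RF X₀ X₁ (g.yc - g.a) (g.yc + g.a)).image tn ⊆ G) (ha : a ∈ bS E.Q G)
    (hv : Vis E.Q ω (G : Set FF) a ⊆ (((RF X₀ X₁ (g.yc - g.a) (g.yc + g.a)).image tn : Finset FF) : Set FF))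
    (hδ : δ = 0 ∨ δ = Real.pi / 3)
    (hB : ∀ x, X₀ ≤ x → x < X₁ → ψ (mp tn ((x, g.yc - g.a), (x + 1, g.yc - g.a))) = β)
    (hT : ∀ x, X₀ ≤ x → x < X₁ →
      ψ (mp tn ((x + 1, g.yc + g.a), (x, g.yc + g.a))) = β + δ - Real.pi / 6)
    (hr : ∀ y, g.yc - g.a ≤ y → y < g.yc + g.a → ((none, (X₁, y)) : FF) ∈ G ∨
      ψ (mp tn ((X₁, y), (X₁, y + 1))) = β - Real.pi / 12)
    (hl : ∀ y, g.yc - g.a ≤ y → y < g.yc + g.a → ((none, (X₀ - 1, y)) : FF) ∈ G ∨
      ψ (mp tn ((X₀, y + 1), (X₀, y))) = β + Real.pi / 12) : wt E.Q G ω ψ a = Real.sqrt 3 := by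
  have h0 := H.a_pos
  refine tube_wt hX (by omega) (sht_base H fun f hf => base_of_mem (hG (hR ?_))) hR ha hv hδ
    (fun x h1 h2 _ => hB x h1 h2) (fun y h1 h2 h3 => ?_) (fun x h1 h2 _ => hT x h1 h2)
    (fun y h1 h2 h3 => ?_)
  · exact Finset.mem_image_of_mem _ hf
  · rcases hr y h1 h2 with h4 | h4
    · exact absurd h3 (not_bS_up H hG h4)
    · exact h4
  · rcases hl y h1 h2 with h4 | h4
    · exact absurd h3 (not_bS_down H hG h4)
    · exact h4

/-- the same, left end closed with the other natural value -/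
theorem wt_tube0 (H : PE E g) (hG : G ⊆ E.F) (hX : X₀ < X₁)
    (hR : (RF X₀ X₁ (g.yc - g.a) (g.yc + g.a)).image tn ⊆ G) (ha : a ∈ bS E.Q G)
    (hv : Vis E.Q ω (G : Set FF) a ⊆ (((RF X₀ X₁ (g.yc - g.a) (g.yc + g.a)).image tn : Finset FF) : Set FF))
    (hB : ∀ x, X₀ ≤ x → x < X₁ → ψ (mp tn ((x, g.yc - g.a), (x + 1, g.yc - g.a))) = β)
    (hT : ∀ x, X₀ ≤ x → x < X₁ →
      ψ (mp tn ((x + 1, g.yc + g.a), (x, g.yc + g.a))) = β - Real.pi / 6)
    (hr : ∀ y, g.yc - g.a ≤ y → y < g.yc + g.a → ((none, (X₁, y)) : FF) ∈ G ∨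
      ψ (mp tn ((X₁, y), (X₁, y + 1))) = β - Real.pi / 12)
    (hl : ∀ y, g.yc - g.a ≤ y → y < g.yc + g.a → ((none, (X₀ - 1, y)) : FF) ∈ G ∨
      ψ (mp tn ((X₀, y + 1), (X₀, y))) = β - Real.pi / 4) : wt E.Q G ω ψ a = Real.sqrt 3 := by
  have h0 := H.a_pos
  refine tube_wt0 hX (by omega) (sht_base H fun f hf => base_of_mem (hG (hR ?_))) hR ha hv
    (fun x h1 h2 _ => hB x h1 h2) (fun y h1 h2 h3 => ?_) (fun x h1 h2 _ => hT x h1 h2)
    (fun y h1 h2 h3 => ?_)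
  · exact Finset.mem_image_of_mem _ hf
  · rcases hr y h1 h2 with h4 | h4
    · exact absurd h3 (not_bS_up H hG h4)
    · exact h4
  · rcases hl y h1 h2 with h4 | h4
    · exact absurd h3 (not_bS_down H hG h4)
    · exact h4

/-! ## The slab -/

section Slab

variable {S : Slb} {W : Finset (ℤ × ℤ)}

theorem phE_h {x y x' : ℤ} (c : ℕ) :
    S.phG c (mp tn ((x, y), (x', y))) = S.phE (mp tn ((x, y), (x', y))) := by
  unfold Slb.phG
  rw [if_neg, if_neg]
  · rintro ⟨-, -, -, h⟩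
    have := (Prod.mk.inj (show ((x', y) : ℤ × ℤ) = (S.x1 - c, y - 1) from h)).2
    omega
  · rintro ⟨-, -, -, h⟩
    have := (Prod.mk.inj (show ((x', y) : ℤ × ℤ) = (S.x2 + c, y + 1) from h)).2
    omega

theorem phO_h {x y x' : ℤ} (c : ℕ) :
    S.phO c (mp tn ((x, y), (x', y))) = S.phE (mp tn ((x, y), (x', y))) := by
  unfold Slb.phO
  rw [if_neg, if_neg]
  · rintro ⟨-, -, -, h⟩
    have := (Prod.mk.inj (show ((x', y) : ℤ × ℤ) = (S.x1 - c, y + 1) from h)).2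
    omega
  · rintro ⟨-, -, -, h⟩
    have := (Prod.mk.inj (show ((x', y) : ℤ × ℤ) = (S.x2 + c, y - 1) from h)).2
    omega

theorem phG_r (c : ℕ) (y : ℤ) : S.phG c (mp tn ((S.x2 + c, y), (S.x2 + c, y + 1))) = S.ρr := by
  unfold Slb.phG
  rw [if_pos]
  exact ⟨rfl, rfl, rfl, rfl⟩

theorem phG_l (c : ℕ) (y : ℤ) : S.phG c (mp tn ((S.x1 - c, y + 1), (S.x1 - c, y))) = S.ρl := by
  unfold Slb.phG
  rw [if_neg, if_pos]
  · refine ⟨rfl, rfl, rfl, ?_⟩
    show ((S.x1 - c, y) : ℤ × ℤ) = (S.x1 - c, y + 1 - 1)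
    rw [add_sub_cancel_right]
  · rintro ⟨-, -, -, h⟩
    have := (Prod.mk.inj (show ((S.x1 - c, y) : ℤ × ℤ) = (S.x2 + c, y + 1 + 1) from h)).2
    omega

theorem phO_r (c : ℕ) (y : ℤ) :
    S.phO c (mp tn ((S.x2 + c, y + 1), (S.x2 + c, y))) = S.ρr - Real.pi / 6 := by
  unfold Slb.phO
  rw [if_pos]
  refine ⟨rfl, rfl, rfl, ?_⟩
  show ((S.x2 + c, y) : ℤ × ℤ) = (S.x2 + c, y + 1 - 1)
  rw [add_sub_cancel_right]

theorem phO_l (c : ℕ) (y : ℤ) :
    S.phO c (mp tn ((S.x1 - c, y), (S.x1 - c, y + 1))) = S.ρl - Real.pi / 6 := by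
  unfold Slb.phO
  rw [if_neg, if_pos]
  · exact ⟨rfl, rfl, rfl, rfl⟩
  · rintro ⟨-, -, -, h⟩
    have := (Prod.mk.inj (show ((S.x1 - c, y + 1) : ℤ × ℤ) = (S.x2 + c, y - 1) from h)).2
    omega

/-- phases on the two horizontal sides of the right tube -/
theorem val_r (hS : S.Ok) (hW : Win S W) {x : ℤ} (h1 : S.x2 ≤ x) (h2 : x < S.x2 + S.k) :
    S.phE (mp tn ((x, S.yc - S.a), (x + 1, S.yc - S.a))) = S.ρr + Real.pi / 12 ∧
      S.phE (mp tn ((x + 1, S.yc + S.a), (x, S.yc + S.a))) = S.ρr + Real.pi / 12 - Real.pi / 6 := by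
  have H := pe hS hW
  have h0 := hS.ha
  have hk := H.k4
  have e1 : S.phE (mp tn ((x, S.yc - S.a), (x + 1, S.yc - S.a))) = dl (S.geo 0) S.ml S.ρl x :=
    H.psi_lo0 (ψu := shP 0 S.ψ) (ψl := shP 0 S.ψ) (show S.yc - S.a < S.yc by omega)
  have e2 : S.phE (mp tn ((x + 1, S.yc + S.a), (x, S.yc + S.a))) =
      du (S.geo 0) S.mu S.ρr x - Real.pi / 6 := H.psi_up2 (ψu := shP 0 S.ψ) (ψl := shP 0 S.ψ) (show S.yc ≤ S.yc + S.a by omega)
  have hx : (S.geo 0).x2 ≤ x ∧ x < (S.geo 0).x2 + 2 * (S.geo 0).k := by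
    rw [geo_x2]
    refine ⟨h1, ?_⟩
    have : ((S.geo 0).k : ℤ) = S.k := rfl
    rw [this]
    omega
  rw [e1, e2, dl_r0 (by omega) H.x_lt.le hx, du_r0 (by omega) H.x_lt.le hx]
  unfold Slb.ml
  constructor <;> ring

/-- phases on the two horizontal sides of the left tube -/
theorem val_l (hS : S.Ok) (hW : Win S W) {x : ℤ} (h1 : S.x1 - S.k ≤ x) (h2 : x < S.x1) :
    S.phE (mp tn ((x, S.yc - S.a), (x + 1, S.yc - S.a))) = S.ρl - Real.pi / 12 ∧
      S.phE (mp tn ((x + 1, S.yc + S.a), (x, S.yc + S.a))) =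
        S.ρl - Real.pi / 12 + Real.pi / 3 - Real.pi / 6 := by
  have H := pe hS hW
  have h0 := hS.ha
  have hk := H.k4
  have e1 : S.phE (mp tn ((x, S.yc - S.a), (x + 1, S.yc - S.a))) = dl (S.geo 0) S.ml S.ρl x :=
    H.psi_lo0 (ψu := shP 0 S.ψ) (ψl := shP 0 S.ψ) (show S.yc - S.a < S.yc by omega)
  have e2 : S.phE (mp tn ((x + 1, S.yc + S.a), (x, S.yc + S.a))) =
      du (S.geo 0) S.mu S.ρr x - Real.pi / 6 := H.psi_up2 (ψu := shP 0 S.ψ) (ψl := shP 0 S.ψ) (show S.yc ≤ S.yc + S.a by omega)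
  have hx : (S.geo 0).x1 - 2 * (S.geo 0).k ≤ x ∧ x < (S.geo 0).x1 := by
    rw [geo_x1]
    refine ⟨?_, h2⟩
    have : ((S.geo 0).k : ℤ) = S.k := rfl
    rw [this]
    omega
  rw [e1, e2, dl_l0 (by omega) H.x_lt.le hx, du_l0 (by omega) H.x_lt.le hx]
  unfold Slb.mu
  constructor <;> ring

theorem tF_img (s : Bool) (j : ℕ) : tF (S.geo 0) s 0 j =
    (RF (tx (S.geo 0) s 0 j) (tx' (S.geo 0) s 0 j) ((S.geo 0).yc - (S.geo 0).a)
      ((S.geo 0).yc + (S.geo 0).a)).image tn := by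
  unfold tF Gd.tR
  rw [show (S.geo 0).yc - (S.geo 0).a + 2 * (S.geo 0).a = (S.geo 0).yc + (S.geo 0).a by ring]

theorem tx_r (j : ℕ) : tx (S.geo 0) true 0 j = S.x2 + (j + 1) * S.q ∧
    tx' (S.geo 0) true 0 j = S.x2 + (j + 2) * S.q := by
  unfold tx'
  unfold tx
  rw [geo_x2, geo_q]
  simp only [if_true]
  push_cast
  constructor <;> ring

theorem tx_l (j : ℕ) : tx (S.geo 0) false 0 j = S.x1 - (j + 2) * S.q ∧
    tx' (S.geo 0) false 0 j = S.x1 - (j + 1) * S.q := by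
  unfold tx'
  unfold tx
  rw [geo_x1, geo_q]
  simp only [Bool.false_eq_true, if_false]
  push_cast
  constructor <;> ring

theorem q4 : 4 * S.q ≤ S.k := by
  unfold Slb.q
  omega

theorem q_pos (hS : S.Ok) : 25 ≤ S.q := by
  have h1 := hS.ha
  have h2 := hS.hak
  unfold Slb.q
  omega

/-- a face of the slab rows between `x1 - c` and `x2 + c` -/
theorem strip_mem {c : ℕ} {x y : ℤ} (h1 : S.x1 - c ≤ x) (h2 : x < S.x2 + c) (h3 : S.yc - S.a ≤ y)
    (h4 : y < S.yc + S.a) : ((none, (x, y)) : FF) ∈ S.G c :=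
  Slb.mem_G.mpr (Or.inl ⟨rfl, Slb.mem_strip.mpr ⟨h1, h2, h3, h4⟩⟩)

theorem G_sub (hS : S.Ok) (hW : Win S W) {c : ℕ} (hc : c < S.k) : S.G c ⊆ (S.env W 0 0).F :=
  fun _ hf => ((mem_G_iff hS hW hc).mp hf).1

/-- the two rectangles of one tube -/
theorem tF_two (s : Bool) : tF (S.geo 0) s 0 0 ∪ tF (S.geo 0) s 0 1 =
    (RF (if s then S.x2 + S.q else S.x1 - 3 * S.q) (if s then S.x2 + 3 * S.q else S.x1 - S.q)
      ((S.geo 0).yc - (S.geo 0).a) ((S.geo 0).yc + (S.geo 0).a)).image tn := by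
  rw [tF_img, tF_img, ← Finset.image_union]
  congr 1
  ext f
  rw [Finset.mem_union, mem_RF, mem_RF, mem_RF]
  cases s
  · obtain ⟨h1, h2⟩ := tx_l (S := S) 0
    obtain ⟨h3, h4⟩ := tx_l (S := S) 1
    rw [h1, h2, h3, h4]
    simp only [Bool.false_eq_true, if_false]
    push_cast
    omega
  · obtain ⟨h1, h2⟩ := tx_r (S := S) 0
    obtain ⟨h3, h4⟩ := tx_r (S := S) 1
    rw [h1, h2, h3, h4]
    simp only [if_true]
    push_cast
    omega

/-- **Arcs of the environment in the two rectangles of a tube.** -/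
theorem wt_env (hS : S.Ok) (hW : Win S W) (s : Bool) {a : FF × FF}
    (ha : a ∈ bS (S.env W 0 0).Q (S.env W 0 0).F)
    (hv : Vis (S.env W 0 0).Q ω ((S.env W 0 0).F : Set FF) a ⊆
      ((tF (S.geo 0) s 0 0 ∪ tF (S.geo 0) s 0 1 : Finset FF) : Set FF)) :
    wt (S.env W 0 0).Q (S.env W 0 0).F ω S.phE a = Real.sqrt 3 := by
  have H := pe hS hW
  have hq := q_pos hS
  have hq4 := q4 (S := S)
  have hx := hS.hx
  rw [tF_two] at hv
  have h4 : 4 * S.q ≤ S.k := hq4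
  have hsub : ∀ {c : ℕ}, c < S.k → S.G c ⊆ (S.env W 0 0).F := fun hc => G_sub hS hW hc
  cases s
  · simp only [Bool.false_eq_true, if_false] at hv
    refine wt_tube H (Finset.Subset.refl _) (X₀ := S.x1 - 3 * S.q) (X₁ := S.x1 - S.q) (by omega) ?_ ha hv
      (Or.inr rfl) (β := S.ρl - Real.pi / 12) (fun x h1 h2 => ?_) (fun x h1 h2 => ?_)
      (fun y h1 h2 => Or.inl ?_) (fun y h1 h2 => Or.inl ?_)
    · intro f' hf'
      obtain ⟨f, hf, rfl⟩ := Finset.mem_image.mp hf'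
      rw [mem_RF] at hf
      exact hsub (c := 3 * S.q) (by omega) (strip_mem (by omega) (by omega) hf.2.2.1 hf.2.2.2)
    · exact (val_l hS hW (by omega) (by omega)).1
    · exact (val_l hS hW (by omega) (by omega)).2
    · exact hsub (c := 3 * S.q) (by omega) (strip_mem (by omega) (by omega) h1 h2)
    · exact hsub (c := 3 * S.q + 1) (by omega) (strip_mem (by omega) (by omega) h1 h2)
  · simp only [if_true] at hv
    refine wt_tube H (Finset.Subset.refl _) (X₀ := S.x2 + S.q) (X₁ := S.x2 + 3 * S.q) (by omega) ?_ ha hv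
      (Or.inl rfl) (β := S.ρr + Real.pi / 12) (fun x h1 h2 => ?_) (fun x h1 h2 => ?_)
      (fun y h1 h2 => Or.inl ?_) (fun y h1 h2 => Or.inl ?_)
    · intro f' hf'
      obtain ⟨f, hf, rfl⟩ := Finset.mem_image.mp hf'
      rw [mem_RF] at hf
      exact hsub (c := 3 * S.q) (by omega) (strip_mem (by omega) (by omega) hf.2.2.1 hf.2.2.2)
    · exact (val_r hS hW (by omega) (by omega)).1
    · rw [add_zero]
      exact (val_r hS hW (by omega) (by omega)).2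
    · exact hsub (c := 3 * S.q + 1) (by omega) (strip_mem (by omega) (by omega) h1 h2)
    · exact hsub (c := 3 * S.q) (by omega) (strip_mem (by omega) (by omega) h1 h2)

/-- **Arcs of the inner part in its rectangles.** -/
theorem wt_in (hS : S.Ok) (hW : Win S W) (s : Bool) {a : FF × FF}
    (ha : a ∈ bS (S.env W 0 0).Q (S.G (2 * S.q)))
    (hv : Vis (S.env W 0 0).Q ω (S.G (2 * S.q) : Set FF) a ⊆ (tF (S.geo 0) s 0 0 : Set FF)) :
    wt (S.env W 0 0).Q (S.G (2 * S.q)) ω (S.phG (2 * S.q)) a = Real.sqrt 3 := by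
  have H := pe hS hW
  have hq := q_pos hS
  have hq4 := q4 (S := S)
  have hx := hS.hx
  rw [tF_img] at hv
  have hsub : S.G (2 * S.q) ⊆ (S.env W 0 0).F := G_sub hS hW (by omega)
  cases s
  · have e1 : tx (S.geo 0) false 0 0 = S.x1 - 2 * S.q := by rw [(tx_l (S := S) 0).1]; push_cast; ring
    have e2 : tx' (S.geo 0) false 0 0 = S.x1 - S.q := by rw [(tx_l (S := S) 0).2]; push_cast; ring
    rw [e1, e2] at hv
    refine wt_tube H hsub (X₀ := S.x1 - 2 * S.q) (X₁ := S.x1 - S.q) (by omega) ?_ ha hv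
      (Or.inr rfl) (β := S.ρl - Real.pi / 12) (fun x h1 h2 => ?_) (fun x h1 h2 => ?_)
      (fun y h1 h2 => Or.inl ?_) (fun y h1 h2 => Or.inr ?_)
    · intro f' hf'
      obtain ⟨f, hf, rfl⟩ := Finset.mem_image.mp hf'
      rw [mem_RF] at hf
      exact strip_mem (by push_cast; omega) (by push_cast; omega) hf.2.2.1 hf.2.2.2
    · rw [phE_h]
      exact (val_l hS hW (by omega) (by omega)).1
    · rw [phE_h]
      exact (val_l hS hW (by omega) (by omega)).2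
    · exact strip_mem (by push_cast; omega) (by push_cast; omega) h1 h2
    · have h3 := phG_l (S := S) (2 * S.q) y
      have e3 : S.x1 - ((2 * S.q : ℕ) : ℤ) = S.x1 - 2 * S.q := by push_cast; ring
      rw [e3] at h3
      rw [h3]
      ring
  · have e1 : tx (S.geo 0) true 0 0 = S.x2 + S.q := by rw [(tx_r (S := S) 0).1]; push_cast; ring
    have e2 : tx' (S.geo 0) true 0 0 = S.x2 + 2 * S.q := by rw [(tx_r (S := S) 0).2]; push_cast; ring
    rw [e1, e2] at hv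
    refine wt_tube H hsub (X₀ := S.x2 + S.q) (X₁ := S.x2 + 2 * S.q) (by omega) ?_ ha hv
      (Or.inl rfl) (β := S.ρr + Real.pi / 12) (fun x h1 h2 => ?_) (fun x h1 h2 => ?_)
      (fun y h1 h2 => Or.inr ?_) (fun y h1 h2 => Or.inl ?_)
    · intro f' hf'
      obtain ⟨f, hf, rfl⟩ := Finset.mem_image.mp hf'
      rw [mem_RF] at hf
      exact strip_mem (by push_cast; omega) (by push_cast; omega) hf.2.2.1 hf.2.2.2
    · rw [phE_h]
      exact (val_r hS hW (by omega) (by omega)).1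
    · rw [phE_h, add_zero]
      exact (val_r hS hW (by omega) (by omega)).2
    · have h3 := phG_r (S := S) (2 * S.q) y
      have e3 : S.x2 + ((2 * S.q : ℕ) : ℤ) = S.x2 + 2 * S.q := by push_cast; ring
      rw [e3] at h3
      rw [h3]
      ring
    · exact strip_mem (by push_cast; omega) (by push_cast; omega) h1 h2

/-- **Arcs of the outer part in its rectangles.** -/
theorem wt_out (hS : S.Ok) (hW : Win S W) (s : Bool) {a : FF × FF}
    (ha : a ∈ bS (S.env W 0 0).Q ((S.env W 0 0).F \ S.G (2 * S.q)))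
    (hv : Vis (S.env W 0 0).Q ω (((S.env W 0 0).F \ S.G (2 * S.q) : Finset FF) : Set FF) a ⊆
      (tF (S.geo 0) s 0 1 : Set FF)) :
    wt (S.env W 0 0).Q ((S.env W 0 0).F \ S.G (2 * S.q)) ω (S.phO (2 * S.q)) a = Real.sqrt 3 := by
  have H := pe hS hW
  have hq := q_pos hS
  have hq4 := q4 (S := S)
  have hx := hS.hx
  rw [tF_img] at hv
  have hmem : ∀ x y : ℤ, (x < S.x1 - 2 * S.q ∧ S.x1 - 3 * S.q - 1 ≤ x ∨
      S.x2 + 2 * S.q ≤ x ∧ x < S.x2 + 3 * S.q + 1) → S.yc - S.a ≤ y → y < S.yc + S.a →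
      ((none, (x, y)) : FF) ∈ (S.env W 0 0).F \ S.G (2 * S.q) := by
    intro x y h1 h2 h3
    refine Finset.mem_sdiff.mpr ⟨G_sub hS hW (c := 3 * S.q + 1) (by omega)
      (strip_mem (by push_cast; omega) (by push_cast; omega) h2 h3), fun h4 => ?_⟩
    rcases Slb.mem_G.mp h4 with ⟨-, h5⟩ | ⟨h5, -⟩ | ⟨h5, -⟩
    · rw [Slb.mem_strip] at h5
      simp only at h5
      push_cast at h5
      omega
    · exact absurd h5 (by simp)
    · exact absurd h5 (by simp)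
  cases s
  · have e1 : tx (S.geo 0) false 0 1 = S.x1 - 3 * S.q := by rw [(tx_l (S := S) 1).1]; push_cast; ring
    have e2 : tx' (S.geo 0) false 0 1 = S.x1 - 2 * S.q := by rw [(tx_l (S := S) 1).2]; push_cast; ring
    rw [e1, e2] at hv
    refine wt_tube H Finset.sdiff_subset (X₀ := S.x1 - 3 * S.q) (X₁ := S.x1 - 2 * S.q)
      (by omega) ?_ ha hv (Or.inr rfl) (β := S.ρl - Real.pi / 12) (fun x h1 h2 => ?_)
      (fun x h1 h2 => ?_) (fun y h1 h2 => Or.inr ?_) (fun y h1 h2 => Or.inl ?_)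
    · intro f' hf'
      obtain ⟨f, hf, rfl⟩ := Finset.mem_image.mp hf'
      rw [mem_RF] at hf
      exact hmem _ _ (by omega) hf.2.2.1 hf.2.2.2
    · rw [phO_h]
      exact (val_l hS hW (by omega) (by omega)).1
    · rw [phO_h]
      exact (val_l hS hW (by omega) (by omega)).2
    · have h3 := phO_l (S := S) (2 * S.q) y
      have e3 : S.x1 - ((2 * S.q : ℕ) : ℤ) = S.x1 - 2 * S.q := by push_cast; ring
      rw [e3] at h3
      rw [h3]
      ring
    · exact hmem _ _ (by omega) h1 h2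
  · have e1 : tx (S.geo 0) true 0 1 = S.x2 + 2 * S.q := by rw [(tx_r (S := S) 1).1]; push_cast; ring
    have e2 : tx' (S.geo 0) true 0 1 = S.x2 + 3 * S.q := by rw [(tx_r (S := S) 1).2]; push_cast; ring
    rw [e1, e2] at hv
    refine wt_tube0 H Finset.sdiff_subset (X₀ := S.x2 + 2 * S.q) (X₁ := S.x2 + 3 * S.q)
      (by omega) ?_ ha hv (β := S.ρr + Real.pi / 12) (fun x h1 h2 => ?_)
      (fun x h1 h2 => ?_) (fun y h1 h2 => Or.inl ?_) (fun y h1 h2 => Or.inr ?_)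
    · intro f' hf'
      obtain ⟨f, hf, rfl⟩ := Finset.mem_image.mp hf'
      rw [mem_RF] at hf
      exact hmem _ _ (by omega) hf.2.2.1 hf.2.2.2
    · rw [phO_h]
      exact (val_r hS hW (by omega) (by omega)).1
    · rw [phO_h]
      exact (val_r hS hW (by omega) (by omega)).2
    · exact hmem _ _ (by omega) h1 h2
    · have h3 := phO_r (S := S) (2 * S.q) y
      have e3 : S.x2 + ((2 * S.q : ℕ) : ℤ) = S.x2 + 2 * S.q := by push_cast; ring
      rw [e3] at h3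
      rw [h3]
      ring

end Slab

end

end Pool.Agent.SixB.Tub
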