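import Pool.Agent.Lib.SixB.S3HcsP
import Pool.Agent.Lib.SixB.S3ZplE

/-!
# 6BD step 3: the halves of an environment to the left and to the right of a column

Rotated chart of the environment `E` (`relQ E.Q 3`, vertices `(none, rv0 v)`, faces `(none, rf0 f)`): the column
`x = X` is the row `y = X`. `halfR`: the flat right half, `halfL`: the left half with the blocks and pockets,
`flatR`: the right half is a flat half plane.
-/

set_option autoImplicit false
set_option linter.unusedSectionVars false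

namespace Pool.Agent.SixB.Hcs

open Pool.Agent.Perc Pool.Agent.Perc.Q Relation Filter Topology
open Pool.Agent.SixB.Rel Pool.Agent.SixB.Dbl
open Pool.Agent.SixB hiding Zs_split dst_congr qt_congr dE_mono

noncomputable section

/-- vertices and faces of the environments -/
abbrev VE : Type := Option Bool × (ℤ × ℤ)

/-- the vertex chart -/
def cv (v : ℤ × ℤ) : VE := (none, rv0 v)

/-- the face chart -/
def cf (f : ℤ × ℤ) : VE := (none, rf0 f)

/-- the cut column, directed into the right half -/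
def colF (X : ℤ) (x : ℤ) : VE × VE := ((none, (X, -x)), (none, (X, -x - 1)))

/-- the right half -/
def hR (X : ℤ) : Set VE := {x | x.1 = none ∧ X ≤ x.2.1}

/-- the left half -/
def hL (E : SEnv) (X : ℤ) : Set VE :=
  {x | (x.1 = none ∧ x.2.1 < X ∧ ¬ E.gu.solid true x.2 ∧ ¬ E.gd.solid false x.2) ∨
    (x.1 = some true ∧ x.2 ∈ E.U) ∨ (x.1 = some false ∧ x.2 ∈ E.L)}

/-- the blocks and the mouths are on the left of the column -/
structure LeftOf (E : SEnv) (X : ℤ) : Prop where
  sol : ∀ f, E.gu.solid true f ∨ E.gd.solid false f → f.1 + 1 < X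
  mu : E.gu.x2 < X
  md : E.gd.x2 < X

variable {E : SEnv} {X L : ℤ}

theorem pr4 {a b c d a' b' c' d' : ℤ} (h1 : a = a') (h2 : b = b') (h3 : c = c') (h4 : d = d') :
    (((none, (a, b)), (none, (c, d))) : VE × VE) = ((none, (a', b')), (none, (c', d'))) := by
  subst h1 h2 h3 h4
  rfl

theorem onCut_col {w : VE} : onCut (colF X) w ↔ w.1 = none ∧ w.2.1 = X := by
  obtain ⟨s, x, y⟩ := w
  unfold onCut colF
  constructor
  · rintro ⟨i, h | h⟩
    · obtain ⟨h1, h2⟩ := Prod.mk.inj h
      obtain ⟨h3, -⟩ := Prod.mk.inj h2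
      exact ⟨h1, h3⟩
    · obtain ⟨h1, h2⟩ := Prod.mk.inj h
      obtain ⟨h3, -⟩ := Prod.mk.inj h2
      exact ⟨h1, h3⟩
  · rintro ⟨h1, h2⟩
    simp only at h1 h2
    subst h1 h2
    exact ⟨-y, Or.inl (by simp)⟩

theorem onCut_rev {V ι : Type} {m : ι → V × V} {w : V} : onCut (revFam m) w ↔ onCut m w := by
  unfold onCut revFam
  constructor
  · rintro ⟨i, h | h⟩
    · exact ⟨i, Or.inr h⟩
    · exact ⟨i, Or.inl h⟩
  · rintro ⟨i, h | h⟩
    · exact ⟨i, Or.inr h⟩
    · exact ⟨i, Or.inl h⟩

theorem fam_col (X : ℤ) : Fam (colF X) := by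
  constructor
  · intro i j h
    unfold colF at h
    have h1 := (Prod.mk.inj (Prod.mk.inj (Prod.mk.inj h).1).2).2
    omega
  · intro i j h
    unfold colF at h
    have h1 := (Prod.mk.inj (Prod.mk.inj (Prod.mk.inj h).1).2).2
    have h2 := (Prod.mk.inj (Prod.mk.inj (Prod.mk.inj h).2).2).2
    omega

theorem fam_rev {V ι : Type} {m : ι → V × V} (h : Fam m) : Fam (revFam m) := by
  refine ⟨fun i j e => h.1 i j (Prod.swap_injective e), fun i j e => h.2 j i ?_⟩
  unfold revFam at e
  rw [Prod.swap_swap] at e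
  exact e.symm

/-- no mouth: the corner stays in its sheet -/
theorem msig_id {f : ℤ × ℤ} {k : ZMod 4} (h : ∀ b : Bool,
    ¬ (if b then E.gu.mouth true else E.gd.mouth false).adj f k) (s : Option Bool) :
    msig (fun i : Bool => if i then E.gu.mouth true else E.gd.mouth false) f k s = s := by
  unfold msig
  rw [dif_neg]
  · rfl
  · rintro ⟨i, hi⟩
    exact h i hi

theorem adj_lt (H : LeftOf E X) {f : ℤ × ℤ} {k : ZMod 4} {b : Bool}
    (h : (if b then E.gu.mouth true else E.gd.mouth false).adj f k) : f.1 + 1 < X := by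
  have h1 := H.mu
  have h2 := H.md
  obtain ⟨-, h3, -⟩ := h
  cases b
  · have : f.1 < E.gd.x2 := h3
    omega
  · have : f.1 < E.gu.x2 := h3
    omega

theorem corner_x (f : ℤ × ℤ) (k : ZMod 4) : (ZQ.c f k).1 = f.1 ∨ (ZQ.c f k).1 = f.1 + 1 := by
  rcases k4_cases k with rfl | rfl | rfl | rfl
  · change (cor0 f 0).1 = _ ∨ _; rw [cor0_0]; exact Or.inl rfl
  · change (cor0 f 1).1 = _ ∨ (cor0 f 1).1 = _; rw [cor0_1]; exact Or.inr rfl
  · change (cor0 f 2).1 = _ ∨ (cor0 f 2).1 = _; rw [cor0_2]; exact Or.inr rfl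
  · change (cor0 f 3).1 = _ ∨ _; rw [cor0_3]; exact Or.inl rfl

theorem EQ_c (f : VE) (k : ZMod 4) : E.Q.c f k =
    (msig (fun i : Bool => if i then E.gu.mouth true else E.gd.mouth false) f.2 k f.1, ZQ.c f.2 k) := rfl

/-- a corner on the cut column is a corner without sheet change -/
theorem corner_cut (H : LeftOf E X) {f : VE} {k : ZMod 4} (h : (ZQ.c f.2 k).1 = X) :
    (E.Q.c f k) = (f.1, ZQ.c f.2 k) := by
  rw [EQ_c, msig_id]
  intro b hb
  have h1 := adj_lt H hb
  rcases corner_x f.2 k with h2 | h2 <;> omega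

/-- faces at the right of the column: no sheet change -/
theorem corner_right (H : LeftOf E X) {f : ℤ × ℤ} {k : ZMod 4} (h : X ≤ f.1) (s : Option Bool) :
    (E.Q.c (s, f) k) = (s, ZQ.c f k) := by
  rw [EQ_c, msig_id]
  intro b hb
  have h1 := adj_lt H hb
  simp only at h1
  omega

theorem z13 : (1 : ZMod 4) + 3 = 0 := by decide
theorem z23 : (2 : ZMod 4) + 3 = 1 := by decide
theorem z33 : (3 : ZMod 4) + 3 = 2 := by decide
theorem z03 : (0 : ZMod 4) + 3 = 3 := by decide

/-- two consecutive corners on the column: left or right side of the face -/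
theorem col_side {f : ℤ × ℤ} {j : ZMod 4} (h1 : (ZQ.c f j).1 = X) (h2 : (ZQ.c f (j + 1)).1 = X) :
    (j = 3 ∧ f.1 = X) ∨ (j = 1 ∧ f.1 + 1 = X) := by
  have e0 : (0 : ZMod 4) + 1 = 1 := rfl
  have e1 : (1 : ZMod 4) + 1 = 2 := rfl
  have e2 : (2 : ZMod 4) + 1 = 3 := rfl
  have e3 : (3 : ZMod 4) + 1 = 0 := rfl
  rcases k4_cases j with rfl | rfl | rfl | rfl
  · rw [e0] at h2
    change (cor0 f 0).1 = X at h1
    change (cor0 f 1).1 = X at h2
    rw [cor0_0] at h1
    rw [cor0_1] at h2
    simp only at h1 h2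
    omega
  · rw [e1] at h2
    change (cor0 f 1).1 = X at h1
    rw [cor0_1] at h1
    exact Or.inr ⟨rfl, h1⟩
  · rw [e2] at h2
    change (cor0 f 2).1 = X at h1
    change (cor0 f 3).1 = X at h2
    rw [cor0_2] at h1
    rw [cor0_3] at h2
    simp only at h1 h2
    omega
  · change (cor0 f 3).1 = X at h1
    rw [cor0_3] at h1
    exact Or.inl ⟨rfl, h1⟩

/-- the rotated complex -/
abbrev RQ (E : SEnv) : QC VE VE := relQ E.Q fun _ => 3

theorem RQ_c (f : VE) (k : ZMod 4) : (RQ E).c f k = E.Q.c f (k + 3) := rfl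

theorem os_R (H : LeftOf E X) : OneSidedS (RQ E) (hR X) (colF X) where
  fam := fam_col X
  into i := by
    refine ⟨(none, (X, -i - 1)), ⟨rfl, le_refl X⟩, 0, ?_⟩
    unfold sd colF
    rw [RQ_c, RQ_c, show (0 : ZMod 4) + 1 + 3 = 0 by decide, z03, corner_right H le_rfl,
      corner_right H le_rfl]
    change ((none, cor0 (X, -i - 1) 3), (none, cor0 (X, -i - 1) 0)) = _
    rw [cor0_3, cor0_0]
    exact pr4 rfl (by omega) rfl rfl
  only f hf k h1 h2 := by
    obtain ⟨s, g⟩ := f
    obtain ⟨hs, hg⟩ := hf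
    simp only at hs hg
    subst hs
    rw [RQ_c, corner_right H hg, onCut_col] at h1
    rw [RQ_c, corner_right H hg, onCut_col] at h2
    have h1 := h1.2
    have h2 := h2.2
    simp only at h1 h2
    rw [show k + 1 + 3 = k + 3 + 1 by ring] at h2
    rcases col_side h1 h2 with ⟨hk, hx⟩ | ⟨hk, hx⟩
    · refine ⟨-g.2 - 1, ?_⟩
      unfold sd colF
      rw [RQ_c, RQ_c, show k + 1 + 3 = k + 3 + 1 by ring, hk, corner_right H hg, corner_right H hg]
      change ((none, cor0 g 3), (none, cor0 g (3 + 1))) = _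
      rw [show (3 : ZMod 4) + 1 = 0 from rfl, cor0_3, cor0_0]
      obtain ⟨x, y⟩ := g
      exact pr4 hx (by simp only; omega) hx (by simp only; omega)
    · omega

theorem os_L (H : LeftOf E X) : OneSidedS (RQ E) (hL E X) (revFam (colF X)) where
  fam := fam_rev (fam_col X)
  into i := by
    have hns : ¬ E.gu.solid true (X - 1, -i - 1) ∧ ¬ E.gd.solid false (X - 1, -i - 1) := by
      constructor
      · intro h
        have := H.sol _ (Or.inl h)
        simp only at this
        omega
      · intro h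
        have := H.sol _ (Or.inr h)
        simp only at this
        omega
    refine ⟨(none, (X - 1, -i - 1)), Or.inl ⟨rfl, by simp only; omega, hns.1, hns.2⟩, 2, ?_⟩
    have e1 : (ZQ.c (X - 1, -i - 1) 1).1 = X := by
      change (cor0 (X - 1, -i - 1) 1).1 = X
      rw [cor0_1]
      simp
    have e2 : (ZQ.c (X - 1, -i - 1) 2).1 = X := by
      change (cor0 (X - 1, -i - 1) 2).1 = X
      rw [cor0_2]
      simp
    unfold sd colF revFam
    rw [RQ_c, RQ_c, show (2 : ZMod 4) + 1 + 3 = 2 by decide, z23, corner_cut H e1, corner_cut H e2]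
    change ((none, cor0 (X - 1, -i - 1) 1), (none, cor0 (X - 1, -i - 1) 2)) = _
    rw [cor0_1, cor0_2]
    exact pr4 (by omega) rfl (by omega) (by omega)
  only f hf k h1 h2 := by
    rw [onCut_rev, RQ_c] at h1 h2
    have a1 := (onCut_col.mp h1).2
    have a2 := (onCut_col.mp h2).2
    have a1 : (ZQ.c f.2 (k + 3)).1 = X := a1
    have a2 : (ZQ.c f.2 (k + 1 + 3)).1 = X := a2
    have b1 := (onCut_col.mp h1).1
    rw [corner_cut H a1] at b1
    obtain ⟨s, g⟩ := f
    simp only at b1 a1 a2
    subst b1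
    have hg : g.1 < X := by
      rcases hf with h | h | h
      · exact h.2.1
      · exact absurd h.1 (by simp)
      · exact absurd h.1 (by simp)
    have a2' := a2
    rw [show k + 1 + 3 = k + 3 + 1 by ring] at a2'
    rcases col_side a1 a2' with ⟨hk, hx⟩ | ⟨hk, hx⟩
    · exact absurd hg (by rw [hx]; exact lt_irrefl X)
    · refine ⟨-g.2 - 1, ?_⟩
      unfold sd colF revFam
      rw [RQ_c, RQ_c, corner_cut H a1, corner_cut H a2, show k + 1 + 3 = k + 3 + 1 by ring, hk]
      change ((none, cor0 g 1), (none, cor0 g (1 + 1))) = _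
      rw [show (1 : ZMod 4) + 1 = 2 from rfl, cor0_1, cor0_2]
      obtain ⟨x, y⟩ := g
      exact pr4 hx (by simp only; omega) hx (by simp only; omega)

theorem inH_true {g : ℤ × ℤ} : inH true X g ↔ X ≤ g.2 := by
  unfold inH
  simp

theorem inH_false {g : ℤ × ℤ} : inH false X g ↔ g.2 < X := by
  unfold inH
  simp

theorem rf0_back (f : ℤ × ℤ) : rf0 (-f.2 - 1, f.1) = f := rf0_surj f

theorem not_solid_right (H : LeftOf E X) {f : ℤ × ℤ} (h : X ≤ f.1) :
    ¬ E.gu.solid true f ∧ ¬ E.gd.solid false f := by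
  constructor
  · intro h1
    have := H.sol f (Or.inl h1)
    omega
  · intro h1
    have := H.sol f (Or.inr h1)
    omega

theorem mem_back {f : ℤ × ℤ} : (-f.2 - 1, f.1) ∈ RFb (0, 0) L ↔ f ∈ RFb (0, 0) L := by
  rw [← mem_rf0, rf0_surj]

theorem cut_R {up : Bool} (g : ℤ × ℤ) (l : ZMod 4) :
    onCut (colF X) (cv (ZQ.c g l)) ↔ (ZQ.c g l).2 = X := by
  rw [onCut_col]
  unfold cv rv0
  simp

/-- the right half -/
theorem halfR (H : LeftOf E X) :
    HalfS true X ZQ (outZ L) (RQ E) (win E L).F cv cf (hR X) (colF X) where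
  os := os_R H
  mem f hf := by
    obtain ⟨s, g⟩ := f
    obtain ⟨hs, hg⟩ := hf
    simp only at hs hg
    subst hs
    by_cases hb : g ∈ RFb (0, 0) L
    · left
      have := not_solid_right H hg
      exact EnvB.mem_F_none.mpr (mem_base_win.mpr ⟨hb, this.1, this.2⟩)
    · right
      refine ⟨(-g.2 - 1, g.1), fun h => hb (mem_back.mp h), inH_true.mpr hg, ?_⟩
      unfold cf
      rw [rf0_back]
  out g _ hg := ⟨rfl, inH_true.mp hg⟩
  cut g _ _ l := cut_R (up := true) g l

/-- the left half -/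
theorem halfL (H : LeftOf E X) (hB : InBx E L) :
    HalfS false X ZQ (outZ L) (RQ E) (win E L).F cv cf (hL E X) (revFam (colF X)) where
  os := os_L H
  mem f hf := by
    obtain ⟨s, g⟩ := f
    rcases hf with ⟨hs, hg, h1, h2⟩ | ⟨hs, hg⟩ | ⟨hs, hg⟩
    · simp only at hs hg h1 h2
      subst hs
      by_cases hb : g ∈ RFb (0, 0) L
      · left
        exact EnvB.mem_F_none.mpr (mem_base_win.mpr ⟨hb, h1, h2⟩)
      · right
        refine ⟨(-g.2 - 1, g.1), fun h => hb (mem_back.mp h), inH_false.mpr hg, ?_⟩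
        unfold cf
        rw [rf0_back]
    · left
      simp only at hs hg
      subst hs
      unfold SEnv.F
      refine Finset.mem_union_left _ (Finset.mem_union_right _ ?_)
      exact Finset.mem_image.mpr ⟨g, hg, rfl⟩
    · left
      simp only at hs hg
      subst hs
      unfold SEnv.F
      refine Finset.mem_union_right _ ?_
      exact Finset.mem_image.mpr ⟨g, hg, rfl⟩
  out g hgo hg := by
    left
    have hn : ∀ f : ℤ × ℤ, E.gu.solid true f ∨ E.gd.solid false f → f ≠ rf0 g := by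
      rintro f hf rfl
      apply hgo
      have := hB _ hf
      rw [← mem_rf0]
      exact RF0_mono (by omega) this
    exact ⟨rfl, inH_false.mp hg, fun h => hn _ (Or.inl h) rfl, fun h => hn _ (Or.inr h) rfl⟩
  cut g _ _ l := by
    rw [onCut_rev]
    exact cut_R (up := true) g l

theorem chartR (H : LeftOf E X) (W : Finset (ℤ × ℤ)) (hW : ∀ g ∈ W, inH true X g) :
    QChart ZQ (RQ E) W cv cf 0 where
  inj f _ g _ k l h := rv0_inj (Prod.mk.inj h).2
  cor f hf k := by
    have h1 : X ≤ (rf0 f).1 := inH_true.mp (hW f hf)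
    rw [add_zero, RQ_c]
    unfold cf cv
    rw [corner_right H h1, c_rf0]

/-- the right half is flat -/
theorem flatR (H : LeftOf E X) :
    FlatHalf true X L (RQ E) (win E L).F cf cv cf (hR X) (colF X) where
  half :=
    { os := os_R H
      mem := by
        intro f hf
        obtain ⟨s, g⟩ := f
        obtain ⟨hs, hg⟩ := hf
        simp only at hs hg
        subst hs
        right
        refine ⟨(-g.2 - 1, g.1), Set.mem_univ _, inH_true.mpr hg, ?_⟩
        unfold cf
        rw [rf0_back]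
      out := fun g _ hg => ⟨rfl, inH_true.mp hg⟩
      cut := fun g _ _ l => cut_R (up := true) g l }
  chart := chartR H
  out _ _ _ := rfl
  core f := by
    obtain ⟨s, g⟩ := f
    constructor
    · rintro ⟨h1, hs, hg⟩
      simp only at hs hg
      subst hs
      have h2 := mem_base_win.mp (EnvB.mem_F_none.mp h1)
      refine ⟨(-g.2 - 1, g.1), mem_back.mpr h2.1, inH_true.mpr hg, ?_⟩
      unfold cf
      rw [rf0_back]
    · rintro ⟨g', hg', hH, h1⟩
      unfold cf at h1
      obtain ⟨rfl, rfl⟩ := Prod.mk.inj h1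
      have h2 : X ≤ (rf0 g').1 := inH_true.mp hH
      have h3 := not_solid_right H h2
      exact ⟨EnvB.mem_F_none.mpr (mem_base_win.mpr ⟨mem_rf0.mpr hg', h3.1, h3.2⟩), rfl, h2⟩

/-- the two halves are disjoint -/
theorem disj_halves : Disjoint (hR X) (hL E X) := by
  rw [Set.disjoint_left]
  rintro ⟨s, g⟩ ⟨hs, hg⟩ h
  simp only at hs hg
  rcases h with h | h | h
  · have := h.2.1
    simp only at this
    omega
  · rw [hs] at h
    exact absurd h.1 (by simp)
  · rw [hs] at h
    exact absurd h.1 (by simp)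

/-- the faces of the environment are in the two halves -/
theorem cover_halves (hB : InBx E L) {f : VE} (hf : f ∈ (win E L).F) : f ∈ hR X ∨ f ∈ hL E X := by
  obtain ⟨s, g⟩ := f
  rcases s with _ | _ | _
  · have h2 := mem_base_win.mp (EnvB.mem_F_none.mp hf)
    rcases lt_or_ge g.1 X with h | h
    · exact Or.inr (Or.inl ⟨rfl, h, h2.2.1, h2.2.2⟩)
    · exact Or.inl ⟨rfl, h⟩
  · right; right; right
    unfold SEnv.F at hf
    rw [Finset.mem_union, Finset.mem_union, Finset.mem_image, Finset.mem_image, Finset.mem_image] at hf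
    rcases hf with (⟨g', _, h⟩ | ⟨g', _, h⟩) | ⟨g', hg', h⟩
    · exact absurd (Prod.mk.inj h).1 (by simp)
    · exact absurd (Prod.mk.inj h).1 (by simp)
    · obtain ⟨-, rfl⟩ := Prod.mk.inj h
      exact ⟨rfl, hg'⟩
  · right; right; left
    unfold SEnv.F at hf
    rw [Finset.mem_union, Finset.mem_union, Finset.mem_image, Finset.mem_image, Finset.mem_image] at hf
    rcases hf with (⟨g', _, h⟩ | ⟨g', hg', h⟩) | ⟨g', _, h⟩
    · exact absurd (Prod.mk.inj h).1 (by simp)
    · obtain ⟨-, rfl⟩ := Prod.mk.inj h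
      exact ⟨rfl, hg'⟩
    · exact absurd (Prod.mk.inj h).1 (by simp)

end

end Pool.Agent.SixB.Hcs
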