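import Pool.Agent.Lib.SixB.S3AsmD
import Pool.Agent.Lib.SixB.S3DblIsl
import Pool.Agent.Lib.SixB.S3HcsE
import Pool.Agent.Lib.SixB.S3EmbH

/-!
# 6BD step 3: the three halves of an environment, adjacency and island sides

`E` an environment with thick blocks, blocks in the box of radius `L - 1`. Hypotheses `hcl`, `hcut` of
`Dbl.islM_dbl` for the infinite halves `hiS`, `loS`, `lfS` (S3AsmC):
* `hcl_hi`, `hcl_lo`, `hcl_lf`: a face adjacent to a face of the half across a side which is not on the cut is a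
  face of the half;
* `hcut_hi`, `hcut_lo`, `hcut_lf`: no island side is on the cut.
-/

set_option autoImplicit false
set_option linter.unusedSectionVars false

namespace Pool.Agent.SixB.Asm3

open Pool.Agent.Perc Pool.Agent.Perc.Q
open Pool.Agent.SixB.EnvB (Thk nb swap_inj_iff mem_F_none mem_F_up mem_F_lo sd_base cor_base k4)
open Pool.Agent.SixB.Rel (win InBx)

noncomputable section

variable {E : SEnv} {L X y : ℤ}

/-! ## The halves -/

/-- the faces of the environment in all windows -/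
def FS (E : SEnv) : Set (Option Bool × (ℤ × ℤ)) := {f | ∃ M : ℤ, f ∈ (win E M).F}

theorem hiS_iff {f : Option Bool × (ℤ × ℤ)} :
    f ∈ hiS E y ↔ f ∈ FS E ∧ (f.1 = some true ∨ (f.1 = none ∧ y ≤ f.2.2)) := by
  constructor
  · rintro ⟨M, h⟩
    obtain ⟨h1, h2⟩ := Finset.mem_filter.mp h
    exact ⟨⟨M, h1⟩, h2⟩
  · rintro ⟨⟨M, h1⟩, h2⟩
    exact ⟨M, Finset.mem_filter.mpr ⟨h1, h2⟩⟩

theorem loS_iff {f : Option Bool × (ℤ × ℤ)} :
    f ∈ loS E y ↔ f ∈ FS E ∧ (f.1 = some false ∨ (f.1 = none ∧ f.2.2 < y)) := by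
  constructor
  · rintro ⟨M, h⟩
    obtain ⟨h1, h2⟩ := Finset.mem_filter.mp h
    exact ⟨⟨M, h1⟩, h2⟩
  · rintro ⟨⟨M, h1⟩, h2⟩
    exact ⟨M, Finset.mem_filter.mpr ⟨h1, h2⟩⟩

theorem lfS_iff {f : Option Bool × (ℤ × ℤ)} :
    f ∈ lfS E X ↔ f ∈ FS E ∧ (f.1 ≠ none ∨ f.2.1 < X) := by
  constructor
  · rintro ⟨M, h⟩
    obtain ⟨h1, h2⟩ := Finset.mem_filter.mp h
    exact ⟨⟨M, h1⟩, h2⟩
  · rintro ⟨⟨M, h1⟩, h2⟩
    exact ⟨M, Finset.mem_filter.mpr ⟨h1, h2⟩⟩

/-- the faces of the core and the outer faces are faces of the environment -/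
theorem mem_FS (hB : InBx E L) {f : Option Bool × (ℤ × ℤ)}
    (h : f ∈ (win E L).F ∨ ∃ g, g ∉ RFb (0, 0) L ∧ f = (none, g)) : f ∈ FS E := by
  rcases h with h | ⟨g, hg, rfl⟩
  · exact ⟨L, h⟩
  · obtain ⟨K, hK, hgK⟩ := Dbl.exists_RFb g L
    refine ⟨K, ?_⟩
    rw [Rel.F_win hB hK]
    exact Finset.mem_union_right _ (Finset.mem_image_of_mem _ (Finset.mem_sdiff.mpr ⟨hgK, hg⟩))

theorem base_of_FS {g : ℤ × ℤ} (h : (none, g) ∈ FS E) : ∃ M, g ∈ (win E M).base := by
  obtain ⟨M, h⟩ := h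
  exact ⟨M, mem_F_none.mp h⟩

theorem cor_FS (hE : Thk E) {g : ℤ × ℤ} (h : (none, g) ∈ FS E) (k : ZMod 4) :
    EmbH.shf E g k none = none := by
  obtain ⟨M, hM⟩ := base_of_FS h
  have h1 : E.Q.c (none, g) k = (none, ZQ.c g k) := cor_base (Rel.win_thk hE) hM k
  rw [EmbH.Q_c] at h1
  exact (Prod.mk.inj h1).1

theorem sd_FS (hE : Thk E) {g : ℤ × ℤ} (h : (none, g) ∈ FS E) (k : ZMod 4) :
    sd E.Q (none, g) k = ((none, (sd ZQ g k).1), (none, (sd ZQ g k).2)) := by
  obtain ⟨M, hM⟩ := base_of_FS h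
  exact sd_base (Rel.win_thk hE) hM k

/-- the projection of adjacent faces -/
theorem adj_pl {s s' : Option Bool} {g g' : ℤ × ℤ} {k k' : ZMod 4}
    (h : sd E.Q (s', g') k' = (sd E.Q (s, g) k).swap) :
    g' = nb g k ∧ k' = k + 2 ∧ EmbH.shf E g' k' s' = EmbH.shf E g (k + 1) s ∧
      EmbH.shf E g' (k' + 1) s' = EmbH.shf E g k s := by
  obtain ⟨h1, h2⟩ := Prod.mk.inj h
  obtain ⟨h3, h4⟩ := Prod.mk.inj (show (EmbH.shf E g' k' s', ZQ.c g' k') =
    (EmbH.shf E g (k + 1) s, ZQ.c g (k + 1)) from h1)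
  obtain ⟨h5, h6⟩ := Prod.mk.inj (show (EmbH.shf E g' (k' + 1) s', ZQ.c g' (k' + 1)) =
    (EmbH.shf E g k s, ZQ.c g k) from h2)
  have e : sd ZQ g k = (sd ZQ g' k').swap := Prod.ext h6.symm h4.symm
  obtain ⟨h7, h8⟩ := swap_inj_iff.mp e
  exact ⟨h7, h8, h3, h5⟩

/-- the sheets of two adjacent faces -/
inductive Sht (E : SEnv) (s s' : Option Bool) (g g' : ℤ × ℤ) (k : ZMod 4) : Prop
  | same (h : s = s')
  | up (h : s = some true) (h' : s' = none) (hy : g.2 = E.gu.yc + E.gu.a) (hx : g.1 < E.gu.x2)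
      (hk : k = 0)
  | up' (h : s = none) (h' : s' = some true) (hy : g'.2 = E.gu.yc + E.gu.a) (hx : g'.1 < E.gu.x2)
      (hk : k = 2)
  | lo (h : s = some false) (h' : s' = none) (hy : g.2 + 1 = E.gd.yc - E.gd.a) (hx : g.1 < E.gd.x2)
      (hk : k = 2)
  | lo' (h : s = none) (h' : s' = some false) (hy : g'.2 + 1 = E.gd.yc - E.gd.a)
      (hx : g'.1 < E.gd.x2) (hk : k = 0)
  | ul (h : s = some true) (h' : s' = some false) (hy : g.2 = E.gu.yc + E.gu.a)
      (hy' : g.2 = E.gd.yc - E.gd.a)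
  | lu (h : s = some false) (h' : s' = some true) (hy : g'.2 = E.gu.yc + E.gu.a)
      (hy' : g'.2 = E.gd.yc - E.gd.a)

theorem k_sub {k k' : ZMod 4} (h : k' = k + 2) : k = k' + 2 := by
  subst h
  revert k
  decide

theorem shf_true_cases (g : ℤ × ℤ) (k : ZMod 4) :
    EmbH.shf E g k (some true) = some true ∨ EmbH.shf E g k (some true) = none := by
  by_cases h : EmbH.shf E g k (some true) = some true
  · exact Or.inl h
  · exact Or.inr (EmbH.shf_true h).2

theorem shf_false_cases (g : ℤ × ℤ) (k : ZMod 4) :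
    EmbH.shf E g k (some false) = some false ∨ EmbH.shf E g k (some false) = none := by
  by_cases h : EmbH.shf E g k (some false) = some false
  · exact Or.inl h
  · exact Or.inr (EmbH.shf_false h).2

theorem shf_ul {g g' : ℤ × ℤ} {k k' : ZMod 4}
    (h : EmbH.shf E g k (some true) = EmbH.shf E g' k' (some false)) :
    EmbH.shf E g k (some true) = none ∧ EmbH.shf E g' k' (some false) = none := by
  rcases shf_true_cases (E := E) g k with h1 | h1
  · rcases shf_false_cases (E := E) g' k' with h2 | h2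
    · rw [h1, h2] at h
      simp at h
    · rw [h1, h2] at h
      simp at h
  · exact ⟨h1, by rw [← h, h1]⟩

/-- **The sheets of two adjacent faces.** -/
theorem adj_sht (hE : Thk E) {s s' : Option Bool} {g g' : ℤ × ℤ} {k k' : ZMod 4}
    (hf : (s, g) ∈ FS E) (hf' : (s', g') ∈ FS E) (h : sd E.Q (s', g') k' = (sd E.Q (s, g) k).swap) :
    Sht E s s' g g' k := by
  obtain ⟨h1, h2, h3, h4⟩ := adj_pl h
  have hk := k_sub h2
  rcases s with _ | s
  · rcases s' with _ | s'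
    · exact Sht.same rfl
    · have e1 := cor_FS hE hf k
      have e2 := cor_FS hE hf (k + 1)
      rw [e2] at h3
      rw [e1] at h4
      cases s'
      · obtain ⟨-, h5, h6, h7⟩ := EmbH.dn_mouth h3 h4
        refine Sht.lo' rfl rfl h6 h5 ?_
        rw [hk, h7]
        decide
      · obtain ⟨-, h5, h6, h7⟩ := EmbH.up_mouth h3 h4
        refine Sht.up' rfl rfl h6 h5 ?_
        rw [hk, h7]
        decide
  · rcases s' with _ | s'
    · have e1 := cor_FS hE hf' k'
      have e2 := cor_FS hE hf' (k' + 1)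
      rw [e1] at h3
      rw [e2] at h4
      cases s
      · obtain ⟨-, h5, h6, h7⟩ := EmbH.dn_mouth h4.symm h3.symm
        exact Sht.lo rfl rfl h6 h5 h7
      · obtain ⟨-, h5, h6, h7⟩ := EmbH.up_mouth h4.symm h3.symm
        exact Sht.up rfl rfl h6 h5 h7
    · cases s <;> cases s'
      · exact Sht.same rfl
      · obtain ⟨a1, a2⟩ := shf_ul h3
        obtain ⟨b1, b2⟩ := shf_ul h4
        obtain ⟨-, h5, h6, h7⟩ := EmbH.up_mouth a1 b1
        obtain ⟨-, h8, h9, h10⟩ := EmbH.dn_mouth b2 a2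
        refine Sht.lu rfl rfl h6 ?_
        rw [h1, h10, EnvB.nb2]
        exact h9
      · obtain ⟨a2, a1⟩ := shf_ul h3.symm
        obtain ⟨b2, b1⟩ := shf_ul h4.symm
        obtain ⟨-, h5, h6, h7⟩ := EmbH.up_mouth b2 a2
        obtain ⟨-, h8, h9, h10⟩ := EmbH.dn_mouth a1 b1
        refine Sht.ul rfl rfl h6 ?_
        rw [h1, h7, EnvB.nb0] at h9
        simp only at h9
        omega
      · exact Sht.same rfl

/-! ## The upper and the lower half -/

/-- **The upper half is closed under adjacency across sides which are not on the cut.** -/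
theorem hcl_hi (hE : Thk E) (hB : InBx E L) (hu : y < E.gu.yc + E.gu.a) (hd : E.gd.yc - E.gd.a < y) :
    ∀ f ∈ hiS E y, ∀ k, ∀ f',
      (f' ∈ (win E L).F ∨ ∃ g, g ∉ RFb (0, 0) L ∧ f' = ((none : Option Bool), g)) → ∀ k',
        sd E.Q f' k' = (sd E.Q f k).swap → f' ∈ hiS E y ∨ ∃ i, sd E.Q f k = SEnv.cutH y i := by
  rintro ⟨s, g⟩ hf k ⟨s', g'⟩ hf' k' h
  obtain ⟨hf0, hf1⟩ := hiS_iff.mp hf
  have hf0' := mem_FS hB hf'
  rw [hiS_iff]
  simp only at hf1 ⊢
  have h0 := adj_pl h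
  rcases adj_sht hE hf0 hf0' h with h1 | ⟨h1, h2, h3, h4, h5⟩ | ⟨h1, h2, h3, h4, h5⟩ |
    ⟨h1, h2, h3, h4, h5⟩ | ⟨h1, h2, h3, h4, h5⟩ | ⟨h1, h2, h3, h4⟩ | ⟨h1, h2, h3, h4⟩
  · subst h1
    rcases hf1 with h1 | ⟨h1, h2⟩
    · exact Or.inl ⟨hf0', Or.inl h1⟩
    · subst h1
      by_cases h3 : y ≤ g'.2
      · exact Or.inl ⟨hf0', Or.inr ⟨rfl, h3⟩⟩
      · right
        have hk : k = 0 := by
          rcases k4 k with rfl | rfl | rfl | rfl
          · rfl
          · rw [h0.1, EnvB.nb1] at h3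
            exact absurd h2 h3
          · rw [h0.1, EnvB.nb2] at h3
            simp only at h3
            omega
          · rw [h0.1, EnvB.nb3] at h3
            exact absurd h2 h3
        subst hk
        rw [h0.1, EnvB.nb0] at h3
        simp only at h3
        have h4 : g.2 = y := by omega
        refine ⟨g.1, ?_⟩
        rw [sd_FS hE hf0, EnvB.sd0]
        unfold SEnv.cutH
        rw [h4]
  · left
    refine ⟨hf0', Or.inr ⟨h2, ?_⟩⟩
    rw [h0.1, h5, EnvB.nb0]
    simp only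
    omega
  · exact Or.inl ⟨hf0', Or.inl h2⟩
  · exfalso
    rw [h1] at hf1
    simp at hf1
  · exfalso
    rw [h1] at hf1
    rw [h0.1, h5, EnvB.nb0] at h3
    simp only [reduceCtorEq, false_or, true_and] at hf1 h3
    omega
  · exfalso
    omega
  · exfalso
    omega

/-- **The lower half is closed under adjacency across sides which are not on the cut.** -/
theorem hcl_lo (hE : Thk E) (hB : InBx E L) (hu : y < E.gu.yc + E.gu.a) (hd : E.gd.yc - E.gd.a < y) :
    ∀ f ∈ loS E y, ∀ k, ∀ f',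
      (f' ∈ (win E L).F ∨ ∃ g, g ∉ RFb (0, 0) L ∧ f' = ((none : Option Bool), g)) → ∀ k',
        sd E.Q f' k' = (sd E.Q f k).swap →
          f' ∈ loS E y ∨ ∃ i, sd E.Q f k = revFam (SEnv.cutH y) i := by
  rintro ⟨s, g⟩ hf k ⟨s', g'⟩ hf' k' h
  obtain ⟨hf0, hf1⟩ := loS_iff.mp hf
  have hf0' := mem_FS hB hf'
  rw [loS_iff]
  simp only at hf1 ⊢
  have h0 := adj_pl h
  rcases adj_sht hE hf0 hf0' h with h1 | ⟨h1, h2, h3, h4, h5⟩ | ⟨h1, h2, h3, h4, h5⟩ |
    ⟨h1, h2, h3, h4, h5⟩ | ⟨h1, h2, h3, h4, h5⟩ | ⟨h1, h2, h3, h4⟩ | ⟨h1, h2, h3, h4⟩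
  · subst h1
    rcases hf1 with h1 | ⟨h1, h2⟩
    · exact Or.inl ⟨hf0', Or.inl h1⟩
    · subst h1
      by_cases h3 : g'.2 < y
      · exact Or.inl ⟨hf0', Or.inr ⟨rfl, h3⟩⟩
      · right
        have hk : k = 2 := by
          rcases k4 k with rfl | rfl | rfl | rfl
          · rw [h0.1, EnvB.nb0] at h3
            simp only at h3
            omega
          · rw [h0.1, EnvB.nb1] at h3
            exact absurd h2 h3
          · rfl
          · rw [h0.1, EnvB.nb3] at h3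
            exact absurd h2 h3
        subst hk
        rw [h0.1, EnvB.nb2] at h3
        simp only at h3
        have h4 : g.2 + 1 = y := by omega
        refine ⟨g.1, ?_⟩
        rw [sd_FS hE hf0, EnvB.sd2]
        unfold revFam SEnv.cutH
        rw [h4]
        rfl
  · exfalso
    rw [h1] at hf1
    simp at hf1
  · exfalso
    rw [h1] at hf1
    rw [h0.1, h5, EnvB.nb2] at h3
    simp only [reduceCtorEq, false_or, true_and] at hf1 h3
    omega
  · left
    refine ⟨hf0', Or.inr ⟨h2, ?_⟩⟩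
    rw [h0.1, h5, EnvB.nb2]
    simp only
    omega
  · exact Or.inl ⟨hf0', Or.inl h2⟩
  · exfalso
    omega
  · exfalso
    omega

/-- the faces of the blocks at a row of the slab -/
theorem not_solid_row {g : ℤ × ℤ} (hu : y < E.gu.yc + E.gu.a) (hd : E.gd.yc - E.gd.a < y)
    (h1 : g.2 ≤ y) (h2 : y ≤ g.2 + 1) : ¬ (E.gu.solid true g ∨ E.gd.solid false g) := by
  rintro (h | h)
  · have h3 := h.1
    unfold BGeo.hgt at h3
    simp only [if_true] at h3
    omega
  · have h3 := h.1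
    unfold BGeo.hgt at h3
    simp only [Bool.false_eq_true, if_false] at h3
    omega

/-- no island side is a side of the base sheet whose two faces are not in a block -/
theorem hcut_aux {a : (ℤ × ℤ) × (ℤ × ℤ)} {g : ℤ × ℤ} {k : ZMod 4} (ha : a = sd ZQ g k)
    (h : ¬ (E.gu.solid true (nb g k) ∨ E.gd.solid false (nb g k))) :
    (((none : Option Bool), a.1), ((none : Option Bool), a.2)) ∉ (win E L).Z := by
  intro hZ
  rcases (Rel.mem_Z_win.mp hZ).2 with h1 | h1 | ⟨f, hf, l, h1⟩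
  · exact h1 rfl
  · exact h1 rfl
  · have h2 : sd ZQ g k = (sd ZQ f l).swap := ha ▸ h1
    obtain ⟨rfl, -⟩ := swap_inj_iff.mp h2
    exact h hf

/-- **No island side is on the cut row, directed into the upper half.** -/
theorem hcut_hi (hu : y < E.gu.yc + E.gu.a) (hd : E.gd.yc - E.gd.a < y) :
    ∀ a ∈ (win E L).Z, ∀ i, a ≠ SEnv.cutH y i := by
  intro a ha i h
  rw [h] at ha
  refine hcut_aux (E := E) (L := L) (a := ((i, y), (i + 1, y))) (g := (i, y)) (k := 0) rfl ?_ ha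
  exact not_solid_row hu hd (by rw [EnvB.nb0]; simp only; omega) (by rw [EnvB.nb0]; simp only; omega)

/-- **No island side is on the cut row, directed into the lower half.** -/
theorem hcut_lo (hu : y < E.gu.yc + E.gu.a) (hd : E.gd.yc - E.gd.a < y) :
    ∀ a ∈ (win E L).Z, ∀ i, a ≠ revFam (SEnv.cutH y) i := by
  intro a ha i h
  rw [h] at ha
  refine hcut_aux (E := E) (L := L) (a := ((i + 1, y), (i, y))) (g := (i, y - 1)) (k := 2) ?_ ?_ ha
  · rw [EnvB.sd2]
    simp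
  · exact not_solid_row hu hd (by rw [EnvB.nb2]; simp only; omega) (by rw [EnvB.nb2]; simp only; omega)

/-! ## The left half -/

theorem rf0_out {g : ℤ × ℤ} (hg : g ∉ RFb (0, 0) L) : Rel.rf0 g ∉ RFb (0, 0) L := by
  rwa [Rel.mem_rf0]

/-- **The left half is closed under adjacency across sides which are not on the cut.** -/
theorem hcl_lf (hE : Thk E) (hB : InBx E L) (hu : E.gu.x2 ≤ X) (hd : E.gd.x2 ≤ X) :
    ∀ f ∈ lfS E X, ∀ k, ∀ f',
      (f' ∈ (win E L).F ∨ ∃ g, g ∉ RFb (0, 0) L ∧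
        f' = ((fun f => ((none : Option Bool), f)) ∘ Rel.rf0) g) → ∀ k',
        sd (Rel.relQ E.Q fun _ => 3) f' k' = (sd (Rel.relQ E.Q fun _ => 3) f k).swap →
          f' ∈ lfS E X ∨ ∃ i, sd (Rel.relQ E.Q fun _ => 3) f k = cutV X i := by
  have hsd : ∀ f k, sd (Rel.relQ E.Q fun _ => 3) f k = sd E.Q f (k + 3) := by
    intro f k
    unfold sd
    rw [show k + 3 + 1 = k + 1 + 3 by ring]
    rfl
  rintro ⟨s, g⟩ hf k ⟨s', g'⟩ hf' k' h
  rw [hsd, hsd] at h
  rw [hsd]
  obtain ⟨hf0, hf1⟩ := lfS_iff.mp hf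
  have hf0' : (s', g') ∈ FS E := by
    refine mem_FS hB ?_
    rcases hf' with h1 | ⟨g1, h1, h2⟩
    · exact Or.inl h1
    · exact Or.inr ⟨Rel.rf0 g1, rf0_out h1, h2⟩
  rw [lfS_iff]
  simp only at hf1 ⊢
  generalize k + 3 = j at h ⊢
  generalize k' + 3 = j' at h
  have h0 := adj_pl h
  rcases adj_sht hE hf0 hf0' h with h1 | ⟨h1, h2, h3, h4, h5⟩ | ⟨h1, h2, h3, h4, h5⟩ |
    ⟨h1, h2, h3, h4, h5⟩ | ⟨h1, h2, h3, h4, h5⟩ | ⟨h1, h2, h3, h4⟩ | ⟨h1, h2, h3, h4⟩
  · subst h1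
    rcases s with _ | s
    · simp only [ne_eq, not_true_eq_false, false_or] at hf1
      by_cases h3 : g'.1 < X
      · exact Or.inl ⟨hf0', Or.inr h3⟩
      · right
        have hk : j = 1 := by
          rcases k4 j with rfl | rfl | rfl | rfl
          · rw [h0.1, EnvB.nb0] at h3
            exact absurd hf1 h3
          · rfl
          · rw [h0.1, EnvB.nb2] at h3
            exact absurd hf1 h3
          · rw [h0.1, EnvB.nb3] at h3
            simp only at h3
            omega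
        subst hk
        rw [h0.1, EnvB.nb1] at h3
        simp only at h3
        have h4 : g.1 + 1 = X := by omega
        refine ⟨g.2, ?_⟩
        rw [sd_FS hE hf0, EnvB.sd1]
        unfold cutV
        rw [h4]
    · exact Or.inl ⟨hf0', Or.inl (by simp)⟩
  · left
    refine ⟨hf0', Or.inr ?_⟩
    rw [h0.1, h5, EnvB.nb0]
    simp only
    omega
  · exact Or.inl ⟨hf0', Or.inl (by rw [h2]; simp)⟩
  · left
    refine ⟨hf0', Or.inr ?_⟩
    rw [h0.1, h5, EnvB.nb2]
    simp only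
    omega
  · exact Or.inl ⟨hf0', Or.inl (by rw [h2]; simp)⟩
  · exact Or.inl ⟨hf0', Or.inl (by rw [h2]; simp)⟩
  · exact Or.inl ⟨hf0', Or.inl (by rw [h2]; simp)⟩

/-- **No island side is on the cut column.** -/
theorem hcut_lf (H : ∀ f, E.gu.solid true f ∨ E.gd.solid false f → f.1 < X) :
    ∀ a ∈ (win E L).Z, ∀ i, a ≠ cutV X i := by
  intro a ha i h
  rw [h] at ha
  refine hcut_aux (E := E) (L := L) (a := ((X, i), (X, i + 1))) (g := (X - 1, i)) (k := 1) ?_ ?_ ha
  · rw [EnvB.sd1]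
    simp
  · intro h1
    have h2 := H _ h1
    rw [EnvB.nb1] at h2
    simp only at h2
    omega

theorem hcut_lf' (H : Hcs.LeftOf E X) : ∀ a ∈ (win E L).Z, ∀ i, a ≠ cutV X i :=
  hcut_lf fun f hf => by have := H.sol f hf; omega

/-- the column behind the block -/
theorem leftOf_of (hu : E.gu.x2 + 7 * E.gu.k < X) (hd : E.gd.x2 + 7 * E.gd.k < X) :
    Hcs.LeftOf E X where
  sol f hf := by
    rcases hf with h | h
    · have := h.2.2.2.1
      omega
    · have := h.2.2.2.1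
      omega
  mu := by omega
  md := by omega

/-! ## Slabs -/

variable {S : Slb} {W : Finset (ℤ × ℤ)} {X₁ X₂ : ℤ}

theorem thk_env (h : S.Ok) : Thk (S.env W X₁ X₂) := by
  have h1 := h.ha
  have h2 := h.hak
  constructor
  · show S.a < 3 * S.k + (S.x2 - S.x1).toNat
    omega
  · show S.a < 3 * S.k + (S.x2 - S.x1).toNat
    omega

theorem row_up (h1 : y < S.yc + S.a) : y < (S.env W X₁ X₂).gu.yc + (S.env W X₁ X₂).gu.a := h1

theorem row_dn (h1 : S.yc - S.a < y) : (S.env W X₁ X₂).gd.yc - (S.env W X₁ X₂).gd.a < y := h1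

end

end Pool.Agent.SixB.Asm3
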