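import Pool.Agent.Lib.SixB.S3HalfE
import Pool.Agent.Lib.SixB.S3PlaneH

/-!
# 6BD step 3: the island sides of the three doubles of a slab

* `Rel.IslM.rot`: `IslM` in the rotated chart;
* `glue_U`, `glue_D`, `glue_EE`: `GlueZ` for the doubles of `zU`, `zD`, `zEE` with the island sides `Dbl.islD`;
* `isl_U`, `isl_D`, `isl_EE`: `IslM` for these doubles;
* `zU_isl`, `zD_isl`, `zEE_isl`: the numbers with the relevant sides `Dbl.islD`.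
-/

set_option autoImplicit false
set_option linter.unusedSectionVars false

namespace Pool.Agent.SixB

open Pool.Agent.Perc Pool.Agent.Perc.Q

noncomputable section

namespace Rel

variable {V Φ : Type} [DecidableEq V] [DecidableEq Φ] {L M : ℤ} {Q : QC V Φ} {A : Finset Φ}
  {ψ : ℤ × ℤ → Φ} {Z : Finset (V × V)}

theorem rf0_ring : (RFb (0, 0) M \ RFb (0, 0) L).image rf0 = RFb (0, 0) M \ RFb (0, 0) L := by
  ext f
  rw [Finset.mem_image]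
  constructor
  · rintro ⟨g, hg, rfl⟩
    rw [Finset.mem_sdiff, mem_rf0, mem_rf0]
    exact Finset.mem_sdiff.mp hg
  · intro h
    refine ⟨(-f.2 - 1, f.1), ?_, rf0_surj f⟩
    rw [Finset.mem_sdiff, Hcs.mem_back, Hcs.mem_back]
    exact Finset.mem_sdiff.mp h

theorem FM_rot : FM L A (ψ ∘ rf0) M = FM L A ψ M := by
  unfold FM
  rw [← Finset.image_image, rf0_ring]

theorem IslM.rot (H : IslM L Q A ψ Z) : IslM L (relQ Q fun _ => 3) A (ψ ∘ rf0) Z where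
  sub M hM := by
    rw [FM_rot, bS_relQ]
    exact H.sub M hM
  out M M' hM hM' s hs hZ := by
    rw [FM_rot, bS_relQ] at hs
    rw [FM_rot, bS_relQ]
    exact H.out M M' hM hM' s hs hZ

end Rel

namespace Asm3

variable {S : Slb} {X Y X0 : ℤ}

theorem glueZ_slb (h : S.Ok) : Rel.GlueZ (bx S X Y) (S.env ∅ X Y).Q (eB S X Y).F
    (fun v => ((none : Option Bool), v)) (fun f => ((none : Option Bool), f)) (eB S X Y).Z :=
  Rel.glueZ_env (thk_env h) (inBx S X Y)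

theorem islM_slb (h : S.Ok) : Rel.IslM (bx S X Y) (S.env ∅ X Y).Q (eB S X Y).F
    (fun f => ((none : Option Bool), f)) (eB S X Y).Z :=
  Rel.islM_env (thk_env h) (inBx S X Y)

theorem rowU2 (h : S.Ok) : S.yc + ((S.a / 2 : ℕ) : ℤ) < S.yc + S.a ∧
    S.yc - (S.a : ℤ) < S.yc + ((S.a / 2 : ℕ) : ℤ) := by
  have ha := h.ha
  omega

theorem rowD2 (h : S.Ok) : S.yc - ((S.a / 2 : ℕ) : ℤ) < S.yc + S.a ∧
    S.yc - (S.a : ℤ) < S.yc - ((S.a / 2 : ℕ) : ℤ) := by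
  have ha := h.ha
  omega

/-! ## The upper half -/

theorem glue_U (h : S.Ok) :
    Rel.GlueZ (bx S X Y + |S.yc + (S.a / 2 : ℕ)|)
      (Dbl.dblS (S.env ∅ X Y).Q (hiS (S.env ∅ X Y) (S.yc + (S.a / 2 : ℕ)))
        (SEnv.cutH (S.yc + (S.a / 2 : ℕ))) (os_U h))
      (Dbl.cor2 true (S.yc + (S.a / 2 : ℕ)) (eB S X Y).F (hiS (S.env ∅ X Y) (S.yc + (S.a / 2 : ℕ)))
        (fun f => ((none : Option Bool), f))
        (Dbl.wZ true (S.yc + (S.a / 2 : ℕ)) (bx S X Y) (bx S X Y + |S.yc + (S.a / 2 : ℕ)|)))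
      (Dbl.dblφ true (S.yc + (S.a / 2 : ℕ)) (fun v => ((none : Option Bool), v))
        (SEnv.cutH (S.yc + (S.a / 2 : ℕ))))
      (Dbl.dblψ true (S.yc + (S.a / 2 : ℕ)) (fun f => ((none : Option Bool), f)))
      (Dbl.islD (S.env ∅ X Y).Q (eB S X Y).F (hiS (S.env ∅ X Y) (S.yc + (S.a / 2 : ℕ)))
        (SEnv.cutH (S.yc + (S.a / 2 : ℕ))) (eB S X Y).Z) :=
  Dbl.glueZD (glueZ_slb h) (half_U h) le_rfl

theorem isl_U (h : S.Ok) :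
    Rel.IslM (bx S X Y + |S.yc + (S.a / 2 : ℕ)|)
      (Dbl.dblS (S.env ∅ X Y).Q (hiS (S.env ∅ X Y) (S.yc + (S.a / 2 : ℕ)))
        (SEnv.cutH (S.yc + (S.a / 2 : ℕ))) (os_U h))
      (Dbl.cor2 true (S.yc + (S.a / 2 : ℕ)) (eB S X Y).F (hiS (S.env ∅ X Y) (S.yc + (S.a / 2 : ℕ)))
        (fun f => ((none : Option Bool), f))
        (Dbl.wZ true (S.yc + (S.a / 2 : ℕ)) (bx S X Y) (bx S X Y + |S.yc + (S.a / 2 : ℕ)|)))
      (Dbl.dblψ true (S.yc + (S.a / 2 : ℕ)) (fun f => ((none : Option Bool), f)))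
      (Dbl.islD (S.env ∅ X Y).Q (eB S X Y).F (hiS (S.env ∅ X Y) (S.yc + (S.a / 2 : ℕ)))
        (SEnv.cutH (S.yc + (S.a / 2 : ℕ))) (eB S X Y).Z) :=
  Dbl.islM_dbl (glueZ_slb h) (half_U h) le_rfl (islM_slb h)
    (hcl_hi (thk_env h) (inBx S X Y) (rowU2 h).1 (rowU2 h).2) (hcut_hi (rowU2 h).1 (rowU2 h).2)

/-! ## The lower half -/

theorem glue_D (h : S.Ok) :
    Rel.GlueZ (bx S X Y + |S.yc - (S.a / 2 : ℕ)|)
      (Dbl.dblS (S.env ∅ X Y).Q (loS (S.env ∅ X Y) (S.yc - (S.a / 2 : ℕ)))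
        (revFam (SEnv.cutH (S.yc - (S.a / 2 : ℕ)))) (os_D h))
      (Dbl.cor2 false (S.yc - (S.a / 2 : ℕ)) (eB S X Y).F
        (loS (S.env ∅ X Y) (S.yc - (S.a / 2 : ℕ))) (fun f => ((none : Option Bool), f))
        (Dbl.wZ false (S.yc - (S.a / 2 : ℕ)) (bx S X Y) (bx S X Y + |S.yc - (S.a / 2 : ℕ)|)))
      (Dbl.dblφ false (S.yc - (S.a / 2 : ℕ)) (fun v => ((none : Option Bool), v))
        (revFam (SEnv.cutH (S.yc - (S.a / 2 : ℕ)))))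
      (Dbl.dblψ false (S.yc - (S.a / 2 : ℕ)) (fun f => ((none : Option Bool), f)))
      (Dbl.islD (S.env ∅ X Y).Q (eB S X Y).F (loS (S.env ∅ X Y) (S.yc - (S.a / 2 : ℕ)))
        (revFam (SEnv.cutH (S.yc - (S.a / 2 : ℕ)))) (eB S X Y).Z) :=
  Dbl.glueZD (glueZ_slb h) (half_D h) le_rfl

theorem isl_D (h : S.Ok) :
    Rel.IslM (bx S X Y + |S.yc - (S.a / 2 : ℕ)|)
      (Dbl.dblS (S.env ∅ X Y).Q (loS (S.env ∅ X Y) (S.yc - (S.a / 2 : ℕ)))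
        (revFam (SEnv.cutH (S.yc - (S.a / 2 : ℕ)))) (os_D h))
      (Dbl.cor2 false (S.yc - (S.a / 2 : ℕ)) (eB S X Y).F
        (loS (S.env ∅ X Y) (S.yc - (S.a / 2 : ℕ))) (fun f => ((none : Option Bool), f))
        (Dbl.wZ false (S.yc - (S.a / 2 : ℕ)) (bx S X Y) (bx S X Y + |S.yc - (S.a / 2 : ℕ)|)))
      (Dbl.dblψ false (S.yc - (S.a / 2 : ℕ)) (fun f => ((none : Option Bool), f)))
      (Dbl.islD (S.env ∅ X Y).Q (eB S X Y).F (loS (S.env ∅ X Y) (S.yc - (S.a / 2 : ℕ)))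
        (revFam (SEnv.cutH (S.yc - (S.a / 2 : ℕ)))) (eB S X Y).Z) :=
  Dbl.islM_dbl (glueZ_slb h) (half_D h) le_rfl (islM_slb h)
    (hcl_lo (thk_env h) (inBx S X Y) (rowD2 h).1 (rowD2 h).2) (hcut_lo (rowD2 h).1 (rowD2 h).2)

/-! ## The left half -/

theorem glueZ_rot (h : S.Ok) : Rel.GlueZ (bx S X Y) (Rel.relQ (S.env ∅ X Y).Q fun _ => 3)
    (eB S X Y).F Hcs.cv Hcs.cf (eB S X Y).Z := (glueZ_slb h).rot

theorem islM_rot (h : S.Ok) : Rel.IslM (bx S X Y) (Rel.relQ (S.env ∅ X Y).Q fun _ => 3)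
    (eB S X Y).F Hcs.cf (eB S X Y).Z := (islM_slb h).rot

theorem glue_EE (h : S.Ok) (H : Hcs.LeftOf (S.env ∅ X Y) X0) :
    Rel.GlueZ (bx S X Y + |X0|)
      (Dbl.dblS (Rel.relQ (S.env ∅ X Y).Q fun _ => 3) (lfS (S.env ∅ X Y) X0) (cutV X0) (os_lf H))
      (Dbl.cor2 false X0 (eB S X Y).F (lfS (S.env ∅ X Y) X0) Hcs.cf
        (Dbl.wZ false X0 (bx S X Y) (bx S X Y + |X0|)))
      (Dbl.dblφ false X0 Hcs.cv (cutV X0)) (Dbl.dblψ false X0 Hcs.cf)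
      (Dbl.islD (Rel.relQ (S.env ∅ X Y).Q fun _ => 3) (eB S X Y).F (lfS (S.env ∅ X Y) X0)
        (cutV X0) (eB S X Y).Z) :=
  Dbl.glueZD (glueZ_rot h) (half_EE H) le_rfl

theorem isl_EE (h : S.Ok) (H : Hcs.LeftOf (S.env ∅ X Y) X0) :
    Rel.IslM (bx S X Y + |X0|)
      (Dbl.dblS (Rel.relQ (S.env ∅ X Y).Q fun _ => 3) (lfS (S.env ∅ X Y) X0) (cutV X0) (os_lf H))
      (Dbl.cor2 false X0 (eB S X Y).F (lfS (S.env ∅ X Y) X0) Hcs.cf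
        (Dbl.wZ false X0 (bx S X Y) (bx S X Y + |X0|)))
      (Dbl.dblψ false X0 Hcs.cf)
      (Dbl.islD (Rel.relQ (S.env ∅ X Y).Q fun _ => 3) (eB S X Y).F (lfS (S.env ∅ X Y) X0)
        (cutV X0) (eB S X Y).Z) :=
  Dbl.islM_dbl (glueZ_rot h) (half_EE H) le_rfl (islM_rot h)
    (hcl_lf (thk_env h) (inBx S X Y) H.mu.le H.md.le) (hcut_lf' H)

/-! ## The numbers -/

/-- `zU` with the relevant sides `islD` -/
theorem zU_isl (h : S.Ok) :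
    zU S = (Rel.Zp (bx S 0 0 + |S.yc + (S.a / 2 : ℕ)|)
      (Dbl.dblS (S.env ∅ 0 0).Q (hiS (S.env ∅ 0 0) (S.yc + (S.a / 2 : ℕ)))
        (SEnv.cutH (S.yc + (S.a / 2 : ℕ))) (os_U h))
      (Dbl.cor2 true (S.yc + (S.a / 2 : ℕ)) (eB S 0 0).F (hiS (S.env ∅ 0 0) (S.yc + (S.a / 2 : ℕ)))
        (fun f => ((none : Option Bool), f))
        (Dbl.wZ true (S.yc + (S.a / 2 : ℕ)) (bx S 0 0) (bx S 0 0 + |S.yc + (S.a / 2 : ℕ)|)))
      (Dbl.dblψ true (S.yc + (S.a / 2 : ℕ)) (fun f => ((none : Option Bool), f)))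
      (dblW (hB S 0 0))
      (Dbl.islD (S.env ∅ 0 0).Q (eB S 0 0).F (hiS (S.env ∅ 0 0) (S.yc + (S.a / 2 : ℕ)))
        (SEnv.cutH (S.yc + (S.a / 2 : ℕ))) (eB S 0 0).Z)).re :=
  zU_of h sameU_islD

/-- `zD` with the relevant sides `islD` -/
theorem zD_isl (h : S.Ok) :
    zD S = (Rel.Zp (bx S 0 0 + |S.yc - (S.a / 2 : ℕ)|)
      (Dbl.dblS (S.env ∅ 0 0).Q (loS (S.env ∅ 0 0) (S.yc - (S.a / 2 : ℕ)))
        (revFam (SEnv.cutH (S.yc - (S.a / 2 : ℕ)))) (os_D h))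
      (Dbl.cor2 false (S.yc - (S.a / 2 : ℕ)) (eB S 0 0).F
        (loS (S.env ∅ 0 0) (S.yc - (S.a / 2 : ℕ))) (fun f => ((none : Option Bool), f))
        (Dbl.wZ false (S.yc - (S.a / 2 : ℕ)) (bx S 0 0) (bx S 0 0 + |S.yc - (S.a / 2 : ℕ)|)))
      (Dbl.dblψ false (S.yc - (S.a / 2 : ℕ)) (fun f => ((none : Option Bool), f)))
      (dblW (hB S 0 0))
      (Dbl.islD (S.env ∅ 0 0).Q (eB S 0 0).F (loS (S.env ∅ 0 0) (S.yc - (S.a / 2 : ℕ)))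
        (revFam (SEnv.cutH (S.yc - (S.a / 2 : ℕ)))) (eB S 0 0).Z)).re :=
  zD_of h sameU_islD

/-- `zEE` with the relevant sides `islD` -/
theorem zEE_isl (H : Hcs.LeftOf (S.env ∅ X Y) X0) :
    zEE S X0 X Y = 16 * (Rel.Zp (bx S X Y + |X0|)
      (Dbl.dblS (Rel.relQ (S.env ∅ X Y).Q fun _ => 3) (lfS (S.env ∅ X Y) X0) (cutV X0) (os_lf H))
      (Dbl.cor2 false X0 (eB S X Y).F (lfS (S.env ∅ X Y) X0) Hcs.cf
        (Dbl.wZ false X0 (bx S X Y) (bx S X Y + |X0|)))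
      (Dbl.dblψ false X0 Hcs.cf) (dblW (hB S X Y))
      (Dbl.islD (Rel.relQ (S.env ∅ X Y).Q fun _ => 3) (eB S X Y).F (lfS (S.env ∅ X Y) X0)
        (cutV X0) (eB S X Y).Z)).re :=
  zEE_of H (fun _ => Iff.rfl) (os_lf H) sameU_islD

end Asm3

end

end Pool.Agent.SixB
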