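import Pool.Agent.Lib.SixB.S0Av
import Pool.Agent.Lib.MP_6bd702_z.ProbDefs

/-!
# 6BD: Harris' inequality for the averages `av` over the configurations of a finite set of faces of any type

`Up D g`: `g` does not decrease when faces are given their favourable value `D f`.
-/

set_option autoImplicit false
set_option linter.unusedSectionVars false

namespace Pool.Agent.SixB

noncomputable section

variable {Φ Ψ : Type} [DecidableEq Φ] [DecidableEq Ψ] {S : Finset Φ}

/-- `g` increases when faces are given their favourable value `D f` -/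
def Up (D : Φ → Bool) (g : (Φ → Bool) → ℝ) : Prop :=
  ∀ ω ω' : Φ → Bool, (∀ f, ω f = D f → ω' f = D f) → g ω ≤ g ω'

theorem Up.update {D : Φ → Bool} {g : (Φ → Bool) → ℝ} (h : Up D g) (f : Φ) (b : Bool) :
    Up D (fun ω => g (Function.update ω f b)) := by
  intro ω ω' hω
  refine h _ _ fun x hx => ?_
  rcases eq_or_ne x f with rfl | hne
  · simpa using hx
  · rw [Function.update_of_ne hne] at hx ⊢
    exact hω x hx

theorem Up.le_update {D : Φ → Bool} {g : (Φ → Bool) → ℝ} (h : Up D g) (f : Φ) (ω : Φ → Bool) :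
    g (Function.update ω f (!D f)) ≤ g (Function.update ω f (D f)) := by
  refine h _ _ fun x hx => ?_
  rcases eq_or_ne x f with rfl | hne
  · simp
  · rw [Function.update_of_ne hne] at hx ⊢
    exact hx

theorem Up.mul {D : Φ → Bool} {g g' : (Φ → Bool) → ℝ} (h : Up D g) (h' : Up D g')
    (h0 : ∀ ω, 0 ≤ g ω) (h0' : ∀ ω, 0 ≤ g' ω) : Up D (fun ω => g ω * g' ω) :=
  fun ω ω' hω => mul_le_mul (h ω ω' hω) (h' ω ω' hω) (h0' ω) (h0 ω')

theorem Up.const (D : Φ → Bool) (c : ℝ) : Up D (fun _ => c) := fun _ _ _ => le_rfl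

theorem Up.prod {κ : Type} {D : Φ → Bool} (A : Finset κ) (g : κ → (Φ → Bool) → ℝ)
    (h : ∀ k ∈ A, Up D (g k)) (h0 : ∀ k ω, 0 ≤ g k ω) : Up D (fun ω => ∏ k ∈ A, g k ω) :=
  fun ω ω' hω => Finset.prod_le_prod (fun k _ => h0 k ω) fun k hk => h k hk ω ω' hω

/-- the average in the order unfavourable, favourable value -/
theorem av_insert_D {f : Φ} (hf : f ∉ S) (D : Φ → Bool) (g : (Φ → Bool) → ℝ) :
    av (insert f S) g = (av S (fun ω => g (Function.update ω f (D f))) +
      av S (fun ω => g (Function.update ω f (!D f)))) / 2 := by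
  rw [av_insert hf]
  cases D f
  · rw [Bool.not_false, add_comm]
  · rw [Bool.not_true]

/-- **Harris' inequality** -/
theorem av_harris (D : Φ → Bool) (S : Finset Φ) : ∀ g g' : (Φ → Bool) → ℝ, Up D g → Up D g' →
    av S g * av S g' ≤ av S (fun ω => g ω * g' ω) := by
  induction S using Finset.induction_on with
  | empty =>
    intro g g' _ _
    unfold av
    simp
  | insert f S hf ih =>
    intro g g' hg hg'
    rw [av_insert_D hf D, av_insert_D hf D, av_insert_D hf D]
    have h1 := ih _ _ (hg.update f (D f)) (hg'.update f (D f))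
    have h0 := ih _ _ (hg.update f (!D f)) (hg'.update f (!D f))
    have m : av S (fun ω => g (Function.update ω f (!D f))) ≤
        av S (fun ω => g (Function.update ω f (D f))) := av_mono fun T _ => hg.le_update f _
    have m' : av S (fun ω => g' (Function.update ω f (!D f))) ≤
        av S (fun ω => g' (Function.update ω f (D f))) := av_mono fun T _ => hg'.le_update f _
    set a1 := av S (fun ω => g (Function.update ω f (D f)))
    set a0 := av S (fun ω => g (Function.update ω f (!D f)))
    set b1 := av S (fun ω => g' (Function.update ω f (D f)))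
    set b0 := av S (fun ω => g' (Function.update ω f (!D f)))
    nlinarith [mul_nonneg (sub_nonneg.2 m) (sub_nonneg.2 m')]

/-- Harris' inequality for a finite family of nonnegative functions -/
theorem av_harris_prod {κ : Type} (D : Φ → Bool) (S : Finset Φ) (A : Finset κ)
    (g : κ → (Φ → Bool) → ℝ) (h : ∀ k ∈ A, Up D (g k)) (h0 : ∀ k ω, 0 ≤ g k ω) :
    ∏ k ∈ A, av S (g k) ≤ av S (fun ω => ∏ k ∈ A, g k ω) := by
  classical
  induction A using Finset.induction_on with
  | empty => simp [av_const]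
  | insert a A ha ih =>
    rw [Finset.prod_insert ha]
    have h1 := ih fun k hk => h k (Finset.mem_insert_of_mem hk)
    have h2 := av_harris D S (g a) (fun ω => ∏ k ∈ A, g k ω) (h a (Finset.mem_insert_self _ _))
      (Up.prod A g (fun k hk => h k (Finset.mem_insert_of_mem hk)) h0)
    calc av S (g a) * ∏ k ∈ A, av S (g k) ≤ av S (g a) * av S (fun ω => ∏ k ∈ A, g k ω) :=
          mul_le_mul_of_nonneg_left h1 (av_nonneg fun T _ => h0 a _)
      _ ≤ _ := h2
      _ = _ := av_congr fun T _ => by rw [Finset.prod_insert ha]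

/-- a lower bound for a finite family of increasing events, all of probability at least `c` -/
theorem av_harris_pow {κ : Type} (D : Φ → Bool) (S : Finset Φ) (A : Finset κ)
    (g : κ → (Φ → Bool) → ℝ) (h : ∀ k ∈ A, Up D (g k)) (h0 : ∀ k ω, 0 ≤ g k ω) {c : ℝ}
    (hc0 : 0 ≤ c) (hc : ∀ k ∈ A, c ≤ av S (g k)) :
    c ^ A.card ≤ av S (fun ω => ∏ k ∈ A, g k ω) := by
  refine le_trans ?_ (av_harris_prod D S A g h h0)
  rw [← Finset.prod_const]
  exact Finset.prod_le_prod (fun _ _ => hc0) hc

open Classical in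
/-- the form with events -/
theorem av_harris_events {κ : Type} (D : Φ → Bool) (S : Finset Φ) (A : Finset κ)
    (E : κ → (Φ → Bool) → Prop)
    (h : ∀ k ∈ A, ∀ ω ω' : Φ → Bool, (∀ f, ω f = D f → ω' f = D f) → E k ω → E k ω') {c : ℝ}
    (hc0 : 0 ≤ c) (hc : ∀ k ∈ A, c ≤ av S (fun ω => if E k ω then 1 else 0)) :
    c ^ A.card ≤ av S (fun ω => if ∀ k ∈ A, E k ω then 1 else 0) := by
  have h1 := av_harris_pow D S A (fun k ω => if E k ω then (1 : ℝ) else 0) (fun k hk => by
    intro ω ω' hω
    show (if E k ω then (1 : ℝ) else 0) ≤ if E k ω' then 1 else 0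
    by_cases hE : E k ω
    · rw [if_pos hE, if_pos (h k hk ω ω' hω hE)]
    · rw [if_neg hE]
      split_ifs <;> norm_num) (fun k ω => by
        show (0 : ℝ) ≤ if E k ω then 1 else 0
        split_ifs <;> norm_num) hc0 hc
  refine h1.trans (le_of_eq (av_congr fun T _ => ?_))
  by_cases hA : ∀ k ∈ A, E k (ind T)
  · rw [if_pos hA]
    exact Finset.prod_eq_one fun k hk => by rw [if_pos (hA k hk)]
  · rw [if_neg hA]
    push Not at hA
    obtain ⟨k, hk, hE⟩ := hA
    exact Finset.prod_eq_zero hk (by rw [if_neg hE])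

/-- The library form of monotone events. -/
theorem incD_iff_up (D : ℤ × ℤ → Bool) (A : Set Perc.Cfg) :
    Perc.IncD D A ↔ ∀ ω ω' : ℤ × ℤ → Bool, (∀ f, ω f = (!D f) → ω' f = !D f) → ω ∈ A → ω' ∈ A := by
  unfold Perc.IncD Perc.flip
  refine forall₂_congr fun ω ω' => ?_
  have : (∀ f, (D f ^^ ω f) = true → (D f ^^ ω' f) = true) ↔
      ∀ f, ω f = (!D f) → ω' f = !D f := by
    refine forall_congr' fun f => ?_
    cases ω f <;> cases ω' f <;> cases D f <;> simp
  rw [this]

end

end Pool.Agent.SixB
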