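import Pool.Agent.Lib.SixB.S3Polar
import Pool.Agent.Lib.SixB.S3Relab

/-!
# 6BD step 3: the reflection inequality for an insertion in one half (hypothesis `hcs`)

* `Z6D_sup`: `Z6D` as a sum over one direction of every side of the support of `c`.
* `Hcs.fin`: the inequality for the averages of the strand sums of a finite surface `F₁ ∪ F₂` and the two doubled
  surfaces (`c` in `F₂`, the cut line `m` is directed into `F₂`).
* `Hcs.lim`: the limit of such inequalities.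
-/

set_option autoImplicit false
set_option linter.unusedSectionVars false

namespace Pool.Agent.SixB

open Pool.Agent.Perc.Q Relation ComplexConjugate Filter Topology

noncomputable section

variable {V Φ : Type} [DecidableEq V] [DecidableEq Φ] {ι : Type} [Fintype ι] [DecidableEq ι]
variable {Q : QC V Φ} {F F₁ F₂ : Finset Φ} {h h₁ h₂ : V × V → ℂ} {c : V × V → ℝ} {m : ι → V × V}
  {P : Finset (V × V)}

namespace Hcs

/-- `P` consists of one direction of every side of the support of `c` -/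
structure Sup (c : V × V → ℝ) (P : Finset (V × V)) : Prop where
  anti : ∀ a, c a.swap = -c a
  one : ∀ a ∈ P, a.swap ∉ P
  all : ∀ a, c a ≠ 0 → a ∈ P ∨ a.swap ∈ P

/-- a sum over the sides is twice the sum over one direction -/
theorem Sup.sum (H : Sup c P) (hP : P ⊆ dE Q F) (g : V × V → ℂ)
    (hg : ∀ e ∈ dE Q F, g e.swap = -g e) :
    ∑ e ∈ dE Q F, (c e : ℂ) * g e = 2 * ∑ e ∈ P, (c e : ℂ) * g e := by
  have hrv : P.image Prod.swap ⊆ dE Q F := by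
    intro a ha
    obtain ⟨b, hb, rfl⟩ := Finset.mem_image.mp ha
    exact swap_mem_dE.mpr (hP hb)
  have hd : Disjoint P (P.image Prod.swap) := by
    rw [Finset.disjoint_left]
    intro a ha ha'
    obtain ⟨b, hb, rfl⟩ := Finset.mem_image.mp ha'
    have := H.one _ ha
    rw [Prod.swap_swap] at this
    exact this hb
  have e1 : ∑ e ∈ dE Q F, (c e : ℂ) * g e = ∑ e ∈ P ∪ P.image Prod.swap, (c e : ℂ) * g e := by
    symm
    refine Finset.sum_subset (Finset.union_subset hP hrv) fun a _ ha' => ?_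
    have : c a = 0 := by
      by_contra h0
      rcases H.all a h0 with h1 | h1
      · exact ha' (Finset.mem_union_left _ h1)
      · exact ha' (Finset.mem_union_right _ (Finset.mem_image.mpr ⟨a.swap, h1, Prod.swap_swap a⟩))
    rw [this, Complex.ofReal_zero, zero_mul]
  have e2 : ∑ e ∈ P.image Prod.swap, (c e : ℂ) * g e = ∑ e ∈ P, (c e : ℂ) * g e := by
    rw [Finset.sum_image fun a _ b _ hab => Prod.swap_injective hab]
    refine Finset.sum_congr rfl fun e he => ?_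
    rw [H.anti, hg e (hP he)]
    push_cast
    ring
  rw [e1, Finset.sum_union hd, e2]
  ring

theorem Z6D_sup (H : Sup c P) (hP : P ⊆ dE Q F) :
    Z6D Q F h c = ∑ e ∈ P, (c e : ℂ) * Z6 Q F (fun a => h a * sgE e a) := by
  rw [Z6D_sgE H.anti, H.sum hP (fun e => Z6 Q F fun a => h a * sgE e a)
    fun e he => Z6_sgE_swap he h]
  ring

theorem Z6D_pin_sup (H : Sup c P) (hP : P ⊆ dE Q F) (s : ι → Bool) (h : V × V → ℂ) :
    Z6D Q F (fun a => h a * pin m s a) c =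
      ∑ e ∈ P, (c e : ℂ) * Z6 Q F (fun a => h a * sgE e a * pin m s a) := by
  rw [Z6D_sup H hP]
  refine Finset.sum_congr rfl fun e _ => ?_
  congr 2
  funext a
  ring

/-- two insertions, one in each copy -/
theorem normSq_sup (H : Sup c P) (hP : P ⊆ dE Q F) (hm : OneSided Q F m) (h : V × V → ℂ) :
    ∑ s : ι → Bool, ‖Z6D Q F (fun a => h a * pin m s a) c‖ ^ 2 =
      (∑ e ∈ P, ∑ e' ∈ P, (c e : ℂ) * (c e' : ℂ) *
        Z6 (dbl Q F m hm) (cpy F false ∪ cpy F true)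
          (dblH2 m (fun a => h a * sgE e a) (fun a => h a * sgE e' a))).re := by
  have key : ∑ s : ι → Bool, Z6D Q F (fun a => h a * pin m s a) c *
        conj (Z6D Q F (fun a => h a * pin m s a) c) =
      ∑ e ∈ P, ∑ e' ∈ P, (c e : ℂ) * (c e' : ℂ) *
        Z6 (dbl Q F m hm) (cpy F false ∪ cpy F true)
          (dblH2 m (fun a => h a * sgE e a) (fun a => h a * sgE e' a)) := by
    simp_rw [sum_polar hm, Z6D_pin_sup H hP, map_sum, map_mul, Complex.conj_ofReal,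
      Finset.sum_mul_sum, Finset.mul_sum]
    rw [Finset.sum_comm]
    refine Finset.sum_congr rfl fun e _ => ?_
    rw [Finset.sum_comm]
    refine Finset.sum_congr rfl fun e' _ => ?_
    refine Finset.sum_congr rfl fun s _ => ?_
    ring
  rw [← key, Complex.re_sum]
  refine Finset.sum_congr rfl fun s _ => ?_
  rw [Complex.mul_conj, Complex.normSq_eq_norm_sq, Complex.ofReal_re]

theorem card_cpy (F : Finset Φ) : (cpy F false ∪ cpy F true).card = F.card + F.card := by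
  rw [Finset.card_union_of_disjoint disj_cpy]
  unfold cpy
  rw [Finset.card_image_of_injective, Finset.card_image_of_injective]
  · intro a b hab
    exact congrArg Prod.fst hab
  · intro a b hab
    exact congrArg Prod.fst hab

/-- the average of the strand sum of the double of the half without the insertion -/
def dA (Q : QC V Φ) (F : Finset Φ) (m : ι → V × V) (hm : OneSided Q F m) (h : V × V → ℂ) : ℂ :=
  Rel.avc (cpy F false ∪ cpy F true)
    (fun ω => Zs (dbl Q F m hm) (cpy F false ∪ cpy F true) ω (dblH m h))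

/-- the same with two insertions -/
def dB (Q : QC V Φ) (F : Finset Φ) (m : ι → V × V) (hm : OneSided Q F m) (h h' : V × V → ℂ) : ℂ :=
  Rel.avc (cpy F false ∪ cpy F true)
    (fun ω => Zs (dbl Q F m hm) (cpy F false ∪ cpy F true) ω (dblH2 m h h'))

/-- **The finite inequality.** -/
theorem fin (hQ : NoLoop Q) (hd : Disjoint F₁ F₂) (hcE : cE Q F₁ F₂ = eds m)
    (m1 : OneSided Q F₁ (revFam m)) (m2 : OneSided Q F₂ m)
    (n1 : NoLoop (dbl Q F₁ (revFam m) m1)) (n2 : NoLoop (dbl Q F₂ m m2))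
    (e0 : ∀ a ∈ eds m, h a = h₁ a * h₂ a)
    (e1 : ∀ a ∈ dE Q F₁, a ∉ eds m → h₁ a = h a)
    (e2 : ∀ a ∈ dE Q F₂, a ∉ eds m → h₂ a = h a)
    (H : Sup c P) (hP : ∀ e ∈ P, e ∈ dE Q F₂ ∧ e ∉ dE Q F₁) :
    ‖∑ e ∈ P, (c e : ℂ) * Rel.avc (F₁ ∪ F₂) (fun ω => Zs Q (F₁ ∪ F₂) ω fun a => h a * sgE e a)‖ ^ 2 ≤
      (dA Q F₁ (revFam m) m1 h₁).re *
        (∑ e ∈ P, ∑ e' ∈ P, (c e : ℂ) * (c e' : ℂ) *
          dB Q F₂ m m2 (fun a => h₂ a * sgE e a) (fun a => h₂ a * sgE e' a)).re ∧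
    0 ≤ (dA Q F₁ (revFam m) m1 h₁).re ∧
    0 ≤ (∑ e ∈ P, ∑ e' ∈ P, (c e : ℂ) * (c e' : ℂ) *
          dB Q F₂ m m2 (fun a => h₂ a * sgE e a) (fun a => h₂ a * sgE e' a)).re := by
  have hsub2 : P ⊆ dE Q F₂ := fun e he => (hP e he).1
  have hsub : P ⊆ dE Q (F₁ ∪ F₂) := fun e he => dE_sub_right (hsub2 he)
  have hc : ∀ a, c a ≠ 0 → a ∈ dE Q F₂ ∧ a ∉ dE Q F₁ := by
    intro a ha
    rcases H.all a ha with h1 | h1
    · exact hP a h1
    · obtain ⟨h2, h3⟩ := hP _ h1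
      refine ⟨swap_mem_dE.mp h2, fun h4 => h3 (swap_mem_dE.mpr h4)⟩
  have key := cut_Z6D (Q := Q) (c := c) (h := h) hd m2.fam hcE h₁ h₂ e0 e1 e2 hc
  -- the three factors
  have t0 : Z6D Q (F₁ ∪ F₂) h c = (2 : ℂ) ^ (F₁.card + F₂.card) *
      ∑ e ∈ P, (c e : ℂ) * Rel.avc (F₁ ∪ F₂) (fun ω => Zs Q (F₁ ∪ F₂) ω fun a => h a * sgE e a) := by
    rw [Z6D_sup H hsub, Finset.mul_sum]
    refine Finset.sum_congr rfl fun e _ => ?_
    rw [Rel.Z6_avc hQ, Finset.card_union_of_disjoint hd]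
    ring
  have r1 : ∑ s : ι → Bool, ‖Z6 Q F₁ (fun a => h₁ a * pin m s a)‖ ^ 2 =
      2 ^ (F₁.card + F₁.card) * (dA Q F₁ (revFam m) m1 h₁).re := by
    rw [← sum_norm_revFam m2.fam fun q => Z6 Q F₁ fun a => h₁ a * q a, ← sum_normSq_re m1 h₁,
      Rel.Z6_avc n1, card_cpy]
    unfold dA
    rw [show ((2 : ℂ) ^ (F₁.card + F₁.card)) = (((2 : ℝ) ^ (F₁.card + F₁.card) : ℝ) : ℂ) by push_cast; rfl,
      Complex.re_ofReal_mul]
  have r2 : ∑ s : ι → Bool, ‖Z6D Q F₂ (fun a => h₂ a * pin m s a) c‖ ^ 2 =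
      2 ^ (F₂.card + F₂.card) * (∑ e ∈ P, ∑ e' ∈ P, (c e : ℂ) * (c e' : ℂ) *
          dB Q F₂ m m2 (fun a => h₂ a * sgE e a) (fun a => h₂ a * sgE e' a)).re := by
    rw [normSq_sup H hsub2 m2 h₂, ← Complex.re_ofReal_mul]
    congr 1
    rw [Finset.mul_sum]
    refine Finset.sum_congr rfl fun e _ => ?_
    rw [Finset.mul_sum]
    refine Finset.sum_congr rfl fun e' _ => ?_
    rw [Rel.Z6_avc n2, card_cpy]
    unfold dB
    push_cast
    ring
  have s1 : 0 ≤ (dA Q F₁ (revFam m) m1 h₁).re := by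
    have h0 : 0 ≤ ∑ s : ι → Bool, ‖Z6 Q F₁ (fun a => h₁ a * pin m s a)‖ ^ 2 :=
      Finset.sum_nonneg fun _ _ => by positivity
    rw [r1] at h0
    exact nonneg_of_mul_nonneg_right h0 (by positivity)
  have s2 : 0 ≤ (∑ e ∈ P, ∑ e' ∈ P, (c e : ℂ) * (c e' : ℂ) *
          dB Q F₂ m m2 (fun a => h₂ a * sgE e a) (fun a => h₂ a * sgE e' a)).re := by
    have h0 : 0 ≤ ∑ s : ι → Bool, ‖Z6D Q F₂ (fun a => h₂ a * pin m s a) c‖ ^ 2 :=
      Finset.sum_nonneg fun _ _ => by positivity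
    rw [r2] at h0
    exact nonneg_of_mul_nonneg_right h0 (by positivity)
  refine ⟨?_, s1, s2⟩
  rw [t0, r1, r2, norm_mul, mul_pow, norm_pow, Complex.norm_ofNat] at key
  have e3 : ((2 : ℝ) ^ (F₁.card + F₂.card)) ^ 2 = 2 ^ (F₁.card + F₁.card) * 2 ^ (F₂.card + F₂.card) := by
    rw [← pow_mul, ← pow_add]
    congr 1
    ring
  rw [e3] at key
  have hpos : (0 : ℝ) < 2 ^ (F₁.card + F₁.card) * 2 ^ (F₂.card + F₂.card) := by positivity
  have key2 : (2 ^ (F₁.card + F₁.card) * 2 ^ (F₂.card + F₂.card) : ℝ) *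
      ‖∑ e ∈ P, (c e : ℂ) * Rel.avc (F₁ ∪ F₂)
        (fun ω => Zs Q (F₁ ∪ F₂) ω fun a => h a * sgE e a)‖ ^ 2 ≤
      (2 ^ (F₁.card + F₁.card) * 2 ^ (F₂.card + F₂.card) : ℝ) *
      ((dA Q F₁ (revFam m) m1 h₁).re *
        (∑ e ∈ P, ∑ e' ∈ P, (c e : ℂ) * (c e' : ℂ) *
          dB Q F₂ m m2 (fun a => h₂ a * sgE e a) (fun a => h₂ a * sgE e' a)).re) := by
    refine key.trans (le_of_eq ?_)
    ring
  exact le_of_mul_le_mul_left key2 hpos

/-! ## The limit -/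

/-- data of one approximation -/
structure Apx {κ : Type} (P : Finset κ) (c : κ → ℝ) (K ε : ℝ) (zs : κ → ℂ) (z1 : ℂ)
    (z2 : κ → κ → ℂ) where
  RE : ℝ
  R1 : ℝ
  R2 : ℝ
  w : κ → ℂ
  w1 : ℂ
  w2 : κ → κ → ℂ
  hE : 0 < RE
  h1 : 0 < R1
  h2 : 0 < R2
  hR : R1 * R2 ≤ K * RE ^ 2
  ineq : ‖∑ e ∈ P, (c e : ℂ) * w e‖ ^ 2 ≤ w1.re * (∑ e ∈ P, ∑ e' ∈ P, (c e : ℂ) * (c e' : ℂ) * w2 e e').re
  pos1 : 0 ≤ w1.re
  pos2 : 0 ≤ (∑ e ∈ P, ∑ e' ∈ P, (c e : ℂ) * (c e' : ℂ) * w2 e e').re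
  a0 : ∀ e ∈ P, ‖w e - RE * zs e‖ ≤ RE * ε
  a1 : ‖w1 - R1 * z1‖ ≤ R1 * ε
  a2 : ∀ e ∈ P, ∀ e' ∈ P, ‖w2 e e' - R2 * z2 e e'‖ ≤ R2 * ε

/-- **The limit lemma.** -/
theorem lim {κ : Type} {P : Finset κ} {c : κ → ℝ} {K : ℝ} (hK : 0 ≤ K) {zs : κ → ℂ} {z1 : ℂ}
    {z2 : κ → κ → ℂ} (H : ∀ ε : ℝ, 0 < ε → Nonempty (Apx P c K ε zs z1 z2)) :
    ‖∑ e ∈ P, (c e : ℂ) * zs e‖ ^ 2 ≤
      K * (z1.re * (∑ e ∈ P, ∑ e' ∈ P, (c e : ℂ) * (c e' : ℂ) * z2 e e').re) ∧
    0 ≤ z1.re ∧ 0 ≤ (∑ e ∈ P, ∑ e' ∈ P, (c e : ℂ) * (c e' : ℂ) * z2 e e').re := by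
  set S : ℝ := ∑ e ∈ P, |c e| with hS
  have hS0 : 0 ≤ S := Finset.sum_nonneg fun _ _ => abs_nonneg _
  set J : ℝ := ‖∑ e ∈ P, (c e : ℂ) * zs e‖ with hJ
  set T : ℝ := (∑ e ∈ P, ∑ e' ∈ P, (c e : ℂ) * (c e' : ℂ) * z2 e e').re with hT
  -- one approximation
  have key : ∀ ε : ℝ, 0 < ε → 0 ≤ z1.re + ε ∧ 0 ≤ T + S ^ 2 * ε ∧
      (J - ε * S ≤ 0 ∨ (J - ε * S) ^ 2 ≤ K * ((z1.re + ε) * (T + S ^ 2 * ε))) := by
    intro ε hε
    obtain ⟨A⟩ := H ε hε
    have hE := A.hE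
    have h1 := A.h1
    have h2 := A.h2
    -- `w1`
    have b1 : A.w1.re ≤ A.R1 * (z1.re + ε) := by
      have e1 := (Complex.abs_re_le_norm _).trans A.a1
      rw [Complex.sub_re, Complex.re_ofReal_mul] at e1
      have := (abs_le.1 e1).2
      linarith
    have c1 : 0 ≤ z1.re + ε := by
      have := A.pos1.trans b1
      exact nonneg_of_mul_nonneg_right this h1
    -- `w2`
    have b2 : (∑ e ∈ P, ∑ e' ∈ P, (c e : ℂ) * (c e' : ℂ) * A.w2 e e').re ≤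
        A.R2 * (T + S ^ 2 * ε) := by
      have e1 : ‖(∑ e ∈ P, ∑ e' ∈ P, (c e : ℂ) * (c e' : ℂ) * A.w2 e e') -
          A.R2 * ∑ e ∈ P, ∑ e' ∈ P, (c e : ℂ) * (c e' : ℂ) * z2 e e'‖ ≤ A.R2 * ε * S ^ 2 := by
        have e2 : (∑ e ∈ P, ∑ e' ∈ P, (c e : ℂ) * (c e' : ℂ) * A.w2 e e') -
            A.R2 * ∑ e ∈ P, ∑ e' ∈ P, (c e : ℂ) * (c e' : ℂ) * z2 e e' =
            ∑ e ∈ P, ∑ e' ∈ P, (c e : ℂ) * (c e' : ℂ) * (A.w2 e e' - A.R2 * z2 e e') := by
          rw [Finset.mul_sum, ← Finset.sum_sub_distrib]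
          refine Finset.sum_congr rfl fun e _ => ?_
          rw [Finset.mul_sum, ← Finset.sum_sub_distrib]
          refine Finset.sum_congr rfl fun e' _ => ?_
          ring
        rw [e2]
        calc ‖∑ e ∈ P, ∑ e' ∈ P, (c e : ℂ) * (c e' : ℂ) * (A.w2 e e' - A.R2 * z2 e e')‖
            ≤ ∑ e ∈ P, ∑ e' ∈ P, |c e| * |c e'| * (A.R2 * ε) := by
              refine (norm_sum_le _ _).trans (Finset.sum_le_sum fun e he => ?_)
              refine (norm_sum_le _ _).trans (Finset.sum_le_sum fun e' he' => ?_)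
              rw [norm_mul, norm_mul, Complex.norm_real, Complex.norm_real]
              exact mul_le_mul_of_nonneg_left (A.a2 e he e' he') (by positivity)
          _ = A.R2 * ε * S ^ 2 := by
              rw [hS, pow_two, Finset.sum_mul_sum, Finset.mul_sum]
              refine Finset.sum_congr rfl fun e _ => ?_
              rw [Finset.mul_sum]
              refine Finset.sum_congr rfl fun e' _ => ?_
              ring
      have e3 := (Complex.abs_re_le_norm _).trans e1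
      rw [Complex.sub_re, Complex.re_ofReal_mul, ← hT] at e3
      have := (abs_le.1 e3).2
      linarith
    have c2 : 0 ≤ T + S ^ 2 * ε := by
      have := A.pos2.trans b2
      exact nonneg_of_mul_nonneg_right this h2
    refine ⟨c1, c2, ?_⟩
    by_cases hneg : J - ε * S ≤ 0
    · exact Or.inl hneg
    right
    push Not at hneg
    -- `w`
    have b0 : A.RE * (J - ε * S) ≤ ‖∑ e ∈ P, (c e : ℂ) * A.w e‖ := by
      have e1 : ‖(∑ e ∈ P, (c e : ℂ) * A.w e) - A.RE * ∑ e ∈ P, (c e : ℂ) * zs e‖ ≤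
          A.RE * ε * S := by
        have e2 : (∑ e ∈ P, (c e : ℂ) * A.w e) - A.RE * ∑ e ∈ P, (c e : ℂ) * zs e =
            ∑ e ∈ P, (c e : ℂ) * (A.w e - A.RE * zs e) := by
          rw [Finset.mul_sum, ← Finset.sum_sub_distrib]
          refine Finset.sum_congr rfl fun e _ => ?_
          ring
        rw [e2]
        calc ‖∑ e ∈ P, (c e : ℂ) * (A.w e - A.RE * zs e)‖ ≤ ∑ e ∈ P, |c e| * (A.RE * ε) := by
              refine (norm_sum_le _ _).trans (Finset.sum_le_sum fun e he => ?_)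
              rw [norm_mul, Complex.norm_real]
              exact mul_le_mul_of_nonneg_left (A.a0 e he) (abs_nonneg _)
          _ = A.RE * ε * S := by rw [hS, ← Finset.sum_mul]; ring
      have e3 : ‖(A.RE : ℂ) * ∑ e ∈ P, (c e : ℂ) * zs e‖ = A.RE * J := by
        rw [norm_mul, Complex.norm_real, Real.norm_eq_abs, abs_of_pos hE]
      have e4 := norm_sub_norm_le ((A.RE : ℂ) * ∑ e ∈ P, (c e : ℂ) * zs e)
        (∑ e ∈ P, (c e : ℂ) * A.w e)
      rw [norm_sub_rev] at e4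
      rw [e3] at e4
      nlinarith
    have e5 : (A.RE * (J - ε * S)) ^ 2 ≤ (A.R1 * (z1.re + ε)) * (A.R2 * (T + S ^ 2 * ε)) := by
      calc (A.RE * (J - ε * S)) ^ 2 ≤ ‖∑ e ∈ P, (c e : ℂ) * A.w e‖ ^ 2 :=
            pow_le_pow_left₀ (by positivity) b0 2
        _ ≤ _ := A.ineq
        _ ≤ _ := mul_le_mul b1 b2 A.pos2 (by positivity)
    have e6 : (A.R1 * (z1.re + ε)) * (A.R2 * (T + S ^ 2 * ε)) ≤
        K * A.RE ^ 2 * ((z1.re + ε) * (T + S ^ 2 * ε)) := by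
      calc (A.R1 * (z1.re + ε)) * (A.R2 * (T + S ^ 2 * ε)) =
            A.R1 * A.R2 * ((z1.re + ε) * (T + S ^ 2 * ε)) := by ring
        _ ≤ K * A.RE ^ 2 * ((z1.re + ε) * (T + S ^ 2 * ε)) :=
            mul_le_mul_of_nonneg_right A.hR (by positivity)
    have e7 : A.RE ^ 2 * (J - ε * S) ^ 2 ≤ A.RE ^ 2 * (K * ((z1.re + ε) * (T + S ^ 2 * ε))) := by
      calc A.RE ^ 2 * (J - ε * S) ^ 2 = (A.RE * (J - ε * S)) ^ 2 := by ring
        _ ≤ _ := e5.trans e6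
        _ = _ := by ring
    exact le_of_mul_le_mul_left e7 (by positivity)
  -- the limit
  have t0 : Tendsto (fun ε : ℝ => ε) (𝓝[>] 0) (𝓝 0) := tendsto_nhdsWithin_of_tendsto_nhds tendsto_id
  have ev : ∀ᶠ ε : ℝ in 𝓝[>] 0, 0 < ε := self_mem_nhdsWithin
  have z1p : 0 ≤ z1.re := by
    have h1 : Tendsto (fun ε : ℝ => z1.re + ε) (𝓝[>] 0) (𝓝 (z1.re + 0)) := t0.const_add _
    rw [add_zero] at h1
    exact ge_of_tendsto h1 (ev.mono fun ε hε => (key ε hε).1)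
  have Tp : 0 ≤ T := by
    have h1 : Tendsto (fun ε : ℝ => T + S ^ 2 * ε) (𝓝[>] 0) (𝓝 (T + S ^ 2 * 0)) :=
      (t0.const_mul _).const_add _
    rw [mul_zero, add_zero] at h1
    exact ge_of_tendsto h1 (ev.mono fun ε hε => (key ε hε).2.1)
  refine ⟨?_, z1p, Tp⟩
  have h1 : Tendsto (fun ε : ℝ => K * ((z1.re + ε) * (T + S ^ 2 * ε))) (𝓝[>] 0)
      (𝓝 (K * ((z1.re + 0) * (T + S ^ 2 * 0)))) :=
    ((t0.const_add _).mul ((t0.const_mul _).const_add _)).const_mul _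
  have h2 : Tendsto (fun ε : ℝ => (max 0 (J - ε * S)) ^ 2) (𝓝[>] 0) (𝓝 ((max 0 (J - 0 * S)) ^ 2)) :=
    (tendsto_const_nhds.max ((t0.mul_const _).const_sub _)).pow 2
  have hJ0 : 0 ≤ J := norm_nonneg _
  rw [zero_mul, sub_zero, max_eq_right hJ0] at h2
  rw [add_zero, mul_zero, add_zero] at h1
  refine le_of_tendsto_of_tendsto h2 h1 (ev.mono fun ε hε => ?_)
  obtain ⟨k1, k2, k3⟩ := key ε hε
  show (max 0 (J - ε * S)) ^ 2 ≤ K * ((z1.re + ε) * (T + S ^ 2 * ε))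
  rcases k3 with k3 | k3
  · rw [max_eq_left k3]
    have : 0 ≤ K * ((z1.re + ε) * (T + S ^ 2 * ε)) := by positivity
    simpa using this
  · rcases le_total 0 (J - ε * S) with h3 | h3
    · rw [max_eq_right h3]
      exact k3
    · rw [max_eq_left h3]
      have : 0 ≤ K * ((z1.re + ε) * (T + S ^ 2 * ε)) := by positivity
      simpa using this

end Hcs

end

end Pool.Agent.SixB
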