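import Pool.Agent.Lib.SixB.CAEnvM
import Pool.Agent.Lib.SixB.PlaneK
import Pool.Agent.Lib.SixB.CylSign

/-!
# 6BD step 3 (R22): two arrows inserted into `Zr`, `Zp`

* `Zr_two`: two signs inserted into the relevant part of the strand product (any `Q`);
* `Zr_two_closed`: if all strands which meet `P` are closed with turning `± 4`, it is `gg Q F ω e e'`;
* `glueZ_ZQ`: the plane is a surface with core the box;
* `Zp_two`: `Zp` of the plane with two signs inserted is the two arrow functional `Kp e e'` of the plane.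
-/

set_option autoImplicit false
set_option linter.unusedSectionVars false

namespace Pool.Agent.SixB.JJ

open Pool.Agent.Perc Pool.Agent.Perc.Q Pool.Agent.PercD Relation Filter Topology
open Pool.Agent.SixB.Rel
open Pool.Agent.SixB hiding Zs_split dst_congr qt_congr dE_mono

noncomputable section

section General

variable {V Φ : Type} [DecidableEq V] [DecidableEq Φ]
variable {Q : QC V Φ} {F F' : Finset Φ} {ω ω' : Φ → Bool} {a b e e' : V × V} {P X Y : Finset (V × V)}
  {h : V × V → ℂ}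

open Classical in
/-- **Insertion of two signs.** -/
theorem Zr_two (hQ : NoLoop Q) (h : V × V → ℂ) (he : e ∈ dE Q F) (he' : e' ∈ dE Q F)
    (ht : touch P (dst Q F ω e)) (ht' : touch P (dst Q F ω e')) :
    Zr Q F ω (fun a => h a * (sgE e a * sgE e' a)) P =
      if e' ∈ dst Q F ω e then Zr Q F ω h P
      else if e'.swap ∈ dst Q F ω e then -Zr Q F ω h P
      else (∏ U ∈ ((RU Q F ω P).erase (usE Q F ω e)).erase (usE Q F ω e'), ∑ X ∈ U, sw Q F ω h X) *
        (swm Q F ω h e * swm Q F ω h e') := by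
  rw [Zr_eq, Zr_eq]
  have hsw : ∀ X, sw Q F ω (fun a => h a * (sgE e a * sgE e' a)) X =
      sw Q F ω h X * (eps e X * eps e' X) := by
    intro X
    rw [sw_mul h (fun a => sgE e a * sgE e' a), Finset.prod_mul_distrib, prod_sgE, prod_sgE]
  simp only [hsw]
  have hU := usE_mem_RU he ht
  have hU' := usE_mem_RU he' ht'
  have hrest : ∀ U ∈ RU Q F ω P, U ≠ usE Q F ω e → U ≠ usE Q F ω e' →
      ∑ X ∈ U, sw Q F ω h X * (eps e X * eps e' X) = ∑ X ∈ U, sw Q F ω h X := by
    intro U hU h1 h2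
    refine Finset.sum_congr rfl fun X hX => ?_
    rw [eps_of_notMem he (RU_sub hU) h1 hX, eps_of_notMem he' (RU_sub hU) h2 hX, mul_one, mul_one]
  by_cases h1 : e' ∈ dst Q F ω e
  · rw [if_pos h1]
    have hEq := usE_eq_of_mem he' he (Or.inl h1)
    rw [← Finset.mul_prod_erase _ _ hU, ← Finset.mul_prod_erase _ (fun U => ∑ X ∈ U, sw Q F ω h X) hU]
    congr 1
    · rw [sum_usE hQ he, sum_usE hQ he, (eps_self hQ he).1, (eps_self hQ he).2,
        (eps_of_mem hQ he' h1).1, (eps_of_mem hQ he' h1).2]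
      ring
    · refine Finset.prod_congr rfl fun U hU2 => ?_
      obtain ⟨h3, h4⟩ := Finset.mem_erase.mp hU2
      exact hrest U h4 h3 (by rw [hEq]; exact h3)
  · rw [if_neg h1]
    by_cases h2 : e'.swap ∈ dst Q F ω e
    · rw [if_pos h2]
      have hEq := usE_eq_of_mem he' he (Or.inr h2)
      rw [← Finset.mul_prod_erase _ _ hU,
        ← Finset.mul_prod_erase _ (fun U => ∑ X ∈ U, sw Q F ω h X) hU, ← neg_mul]
      congr 1
      · rw [sum_usE hQ he, sum_usE hQ he, (eps_self hQ he).1, (eps_self hQ he).2,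
          (eps_of_swap_mem hQ he' h2).1, (eps_of_swap_mem hQ he' h2).2]
        ring
      · refine Finset.prod_congr rfl fun U hU2 => ?_
        obtain ⟨h3, h4⟩ := Finset.mem_erase.mp hU2
        exact hrest U h4 h3 (by rw [hEq]; exact h3)
    · rw [if_neg h2]
      have hne : usE Q F ω e' ≠ usE Q F ω e := by
        intro h3
        rcases mem_of_usE_eq he' he h3 with h4 | h4
        · exact h1 h4
        · exact h2 h4
      have hU'' : usE Q F ω e' ∈ (RU Q F ω P).erase (usE Q F ω e) := Finset.mem_erase.mpr ⟨hne, hU'⟩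
      rw [← Finset.mul_prod_erase _ _ hU, ← Finset.mul_prod_erase _ _ hU'']
      have e1 : ∑ X ∈ usE Q F ω e, sw Q F ω h X * (eps e X * eps e' X) = swm Q F ω h e := by
        rw [sum_usE hQ he, (eps_self hQ he).1, (eps_self hQ he).2,
          eps_of_notMem he' (RU_sub hU) hne.symm (by unfold usE; simp),
          eps_of_notMem he' (RU_sub hU) hne.symm (by unfold usE; simp)]
        unfold swm
        ring
      have e2 : ∑ X ∈ usE Q F ω e', sw Q F ω h X * (eps e X * eps e' X) = swm Q F ω h e' := by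
        rw [sum_usE hQ he', (eps_self hQ he').1, (eps_self hQ he').2,
          eps_of_notMem he (RU_sub hU') hne (by unfold usE; simp),
          eps_of_notMem he (RU_sub hU') hne (by unfold usE; simp)]
        unfold swm
        ring
      rw [e1, e2]
      have e3 : ∏ U ∈ ((RU Q F ω P).erase (usE Q F ω e)).erase (usE Q F ω e'),
          ∑ X ∈ U, sw Q F ω h X * (eps e X * eps e' X) =
          ∏ U ∈ ((RU Q F ω P).erase (usE Q F ω e)).erase (usE Q F ω e'), ∑ X ∈ U, sw Q F ω h X := by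
        refine Finset.prod_congr rfl fun U hU2 => ?_
        obtain ⟨h3, h4⟩ := Finset.mem_erase.mp hU2
        obtain ⟨h5, h6⟩ := Finset.mem_erase.mp h4
        exact hrest U h6 h5 h3
      rw [e3]
      ring

theorem zeta4 : zeta ^ (4 : ℤ) + zeta ^ (-4 : ℤ) = 1 := by
  rw [zeta_ofReal, zeta_ofReal, show Real.pi * ((4 : ℤ) : ℝ) / 12 = Real.pi / 3 by push_cast; ring,
    show Real.pi * ((-4 : ℤ) : ℝ) / 12 = -(Real.pi / 3) by push_cast; ring, Real.cos_neg, Real.sin_neg,
    Real.cos_pi_div_three]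
  push_cast
  ring

/-- a closed strand with turning `± 4` has weight `1` -/
theorem swp_closed (h4 : trn Q F ω e = 4 ∨ trn Q F ω e = -4) : swp Q F ω (fun _ => 1) e = 1 := by
  unfold swp
  rw [Rel.sw_one, Rel.sw_one]
  have h1 : tX Q F ω (dst Q F ω e.swap) = -trn Q F ω e := by
    have := trn_swap (Q := Q) (F := F) (ω := ω) (a := e)
    unfold trn at this ⊢
    exact this
  have h2 : tX Q F ω (dst Q F ω e) = trn Q F ω e := rfl
  rw [h1, h2]
  rcases h4 with h4 | h4
  · rw [h4]
    exact zeta4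
  · rw [h4, neg_neg, add_comm]
    exact zeta4

/-- the strands which meet `P` are closed -/
def AllClo (Q : QC V Φ) (F : Finset Φ) (ω : Φ → Bool) (P : Finset (V × V)) : Prop :=
  ∀ a ∈ P, Clo Q F ω a

theorem clo_of_touch (hc : AllClo Q F ω P) (ht : touch P (dst Q F ω a)) : Clo Q F ω a := by
  obtain ⟨b, hb, hb'⟩ := touch_iff.mp ht
  have h1 := (mem_dst.mp hb).2
  rcases hb' with h2 | h2
  · exact (hc b h2).of_srel (EqvGen.symm _ _ h1)
  · have h3 := (hc _ h2).swap
    rw [Prod.swap_swap] at h3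
    exact h3.of_srel (EqvGen.symm _ _ h1)

theorem factor_one (hQ : NoLoop Q) (hu : Uml Q F) (hc : AllClo Q F ω P)
    {U : Finset (Finset (V × V))} (hU : U ∈ RU Q F ω P) : ∑ X ∈ U, sw Q F ω (fun _ => 1) X = 1 := by
  obtain ⟨X, hX, rfl⟩ := Finset.mem_image.mp hU
  obtain ⟨h1, h2⟩ := Finset.mem_filter.mp hX
  obtain ⟨a, ha, rfl⟩ := mem_dstr.mp h1
  rw [prs_dst, sum_usE hQ ha]
  exact swp_closed (hu ω a (clo_of_touch hc h2))

/-- all strands which meet `P` are closed -/
theorem Zr_closed (hQ : NoLoop Q) (hu : Uml Q F) (hc : AllClo Q F ω P) :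
    Zr Q F ω (fun _ => 1) P = 1 := by
  rw [Zr_eq]
  exact Finset.prod_eq_one fun U hU => factor_one hQ hu hc hU

/-- **Two signs, all strands which meet `P` closed.** -/
theorem Zr_two_closed (hQ : NoLoop Q) (hu : Uml Q F) (hc : AllClo Q F ω P)
    (he : e ∈ P ∨ e.swap ∈ P) (he' : e' ∈ P ∨ e'.swap ∈ P) :
    Zr Q F ω (fun a => sgE e a * sgE e' a) P = (gg Q F ω e e' : ℂ) := by
  have hclo : ∀ {e : V × V}, (e ∈ P ∨ e.swap ∈ P) → Clo Q F ω e := by
    intro e he
    rcases he with h | h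
    · exact hc e h
    · have := (hc _ h).swap
      rwa [Prod.swap_swap] at this
  have c1 := hclo he
  have c2 := hclo he'
  have t1 := touch_of_mem (ω := ω) c1.mem he
  have t2 := touch_of_mem (ω := ω) c2.mem he'
  have h0 := Zr_two (ω := ω) hQ (fun _ => 1) c1.mem c2.mem t1 t2
  simp only [one_mul] at h0
  rw [h0, Zr_closed hQ hu hc]
  unfold gg
  have hTV : ∀ {e : V × V}, Clo Q F ω e → TV (trn Q F ω e) := by
    intro e h
    rcases hu ω e h with h1 | h1
    · exact Or.inl h1
    · exact Or.inr (Or.inl h1)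
  split_ifs with h1 h2
  · simp
  · simp
  · rw [swm_flat (hTV c1), swm_flat (hTV c2), swp_closed (hu ω e c1), swp_closed (hu ω e' c2)]
    have h3 : ∏ U ∈ ((RU Q F ω P).erase (usE Q F ω e)).erase (usE Q F ω e'),
        ∑ X ∈ U, sw Q F ω (fun _ => 1) X = 1 := by
      refine Finset.prod_eq_one fun U hU => ?_
      exact factor_one hQ hu hc (Finset.mem_of_mem_erase (Finset.mem_of_mem_erase hU))
    rw [h3]
    push_cast
    linear_combination ((tnt (trn Q F ω e) : ℂ) * (tnt (trn Q F ω e') : ℂ)) * Complex.I_sq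

/-- one sign, all strands which meet `P` closed -/
theorem norm_sub_gc (hQ : NoLoop Q) (hu : Uml Q F) (he : e ∈ P ∨ e.swap ∈ P)
    (he' : e' ∈ P ∨ e'.swap ∈ P) [Decidable (AllClo Q F ω P)] :
    ‖Zr Q F ω (fun a => sgE e a * sgE e' a) P - (gc Q F ω e e' : ℂ)‖ ≤
      (CP (fun a => sgE e a * sgE e' a) P + 3) * (if AllClo Q F ω P then 0 else 1) := by
  classical
  by_cases hc : AllClo Q F ω P
  · rw [if_pos hc, mul_zero, Zr_two_closed hQ hu hc he he']
    have hclo : ∀ {e : V × V}, (e ∈ P ∨ e.swap ∈ P) → Clo Q F ω e := by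
      intro e he
      rcases he with h | h
      · exact hc e h
      · have := (hc _ h).swap
        rwa [Prod.swap_swap] at this
    have h1 : gc Q F ω e e' = gg Q F ω e e' := by
      unfold gc
      rw [if_pos ⟨hclo he, hclo he'⟩]
    rw [h1, sub_self, norm_zero]
  · rw [if_neg hc, mul_one]
    have hh : ∀ a, a ∉ P → a.swap ∉ P → sgE e a * sgE e' a = 1 := by
      intro a h1 h2
      have h3 : ∀ {e : V × V}, (e ∈ P ∨ e.swap ∈ P) → sgE e a = 1 := by
        intro e he
        unfold sgE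
        rw [if_neg]
        rintro rfl
        rcases he with h | h
        · exact h2 (by rw [Prod.swap_swap]; exact h)
        · exact h1 h
      rw [h3 he, h3 he', one_mul]
    have h4 := norm_Zr_le (Q := Q) (F := F) (ω := ω) hQ hh
    have h5 := abs_gc_le hu (ω := ω) (e := e) (e' := e')
    refine (norm_sub_le _ _).trans (add_le_add h4 ?_)
    rw [Complex.norm_real, Real.norm_eq_abs]
    exact h5

end General

/-! ## The plane -/

variable {L : ℤ} {P : Finset DE} {e e' : DE}

theorem glueZ_ZQ (hP : P ⊆ dE ZQ (RFb (0, 0) L)) : GlueZ L ZQ (RFb (0, 0) L) id id P where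
  chart M := ⟨fun _ _ _ _ _ _ h => h, fun f _ k => by rw [add_zero]; rfl⟩
  dj g hg := hg
  nb f hf k g _ l h := by
    have h1 : ZQ.c f k = ZQ.c g l := h
    rw [← h1]
    exact cor0_le hf k
  P_sub := hP

theorem box_eq (hL : 0 < L) (n : ℕ) : RFb (0, 0) L ∪ (aZ L n).image id = RFb (0, 0) (4 ^ n * L) := by
  have p0 : L ≤ 4 ^ n * L := by
    have : (1 : ℤ) ≤ 4 ^ n := one_le_pow₀ (by norm_num)
    nlinarith
  rw [Finset.image_id]
  unfold aZ
  rw [Finset.union_sdiff_of_subset (RF0_mono p0)]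

theorem zn_eq (hL : 0 < L) (h : DE → ℂ) (n : ℕ) : zn L ZQ (RFb (0, 0) L) id h P n =
    avc (RFb (0, 0) (4 ^ n * L)) (fun ω => Zr ZQ (RFb (0, 0) (4 ^ n * L)) ω h P) := by
  unfold zn
  rw [zplO_empty, box_eq hL]

theorem nc_box_tendsto (hL : 0 < L) (he : Ue e) :
    Tendsto (fun n : ℕ => ncP (RFb (0, 0) (4 ^ n * L)) e) atTop (𝓝 0) := by
  refine squeeze_zero (fun n => nc_nonneg _ _) (fun n => nc_mono ?_ e) (nc_tendsto he)
  intro f hf
  have h4 : (n : ℤ) < 4 ^ n := by exact_mod_cast Nat.lt_pow_self (by norm_num)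
  have h5 : (n : ℤ) ≤ 4 ^ n * L := by nlinarith
  unfold BR RF at hf
  rw [Finset.mem_product, Finset.mem_Ico, Finset.mem_Ico] at hf
  rw [mem_RF0]
  simp only at hf
  omega

theorem ue_of_P (hP : P ⊆ dE ZQ (RFb (0, 0) L)) (he : e ∈ P ∨ e.swap ∈ P) : Ue e := by
  have h1 : ∀ {a : DE}, a ∈ dE ZQ (RFb (0, 0) L) → Ue a := by
    intro a ha
    obtain ⟨f, -, k, rfl | rfl⟩ := mem_dE.mp ha
    · exact ⟨f, k, rfl⟩
    · exact Ue.swap ⟨f, k, rfl⟩
  rcases he with h | h
  · exact h1 (hP h)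
  · have h2 := (h1 (hP h)).swap
    rwa [Prod.swap_swap] at h2

/-- **Two arrows in the plane functional.** -/
theorem Zp_two (hL : 0 < L) (hP : P ⊆ dE ZQ (RFb (0, 0) L)) (he : e ∈ P ∨ e.swap ∈ P)
    (he' : e' ∈ P ∨ e'.swap ∈ P) :
    Zp L ZQ (RFb (0, 0) L) id (fun a => sgE e a * sgE e' a) P = (Kp e e' : ℂ) := by
  classical
  have hue := ue_of_P hP he
  have hue' := ue_of_P hP he'
  have hh : ∀ a, a ∉ P → a.swap ∉ P → sgE e a * sgE e' a = 1 := by
    intro a h1 h2
    have h3 : ∀ {e : DE}, (e ∈ P ∨ e.swap ∈ P) → sgE e a = 1 := by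
      intro e he
      unfold sgE
      rw [if_neg]
      rintro rfl
      rcases he with h | h
      · exact h2 (by rw [Prod.swap_swap]; exact h)
      · exact h1 h
    rw [h3 he, h3 he', one_mul]
  have t1 := (glueZ_ZQ hP).tendsto noLoop_ZQ hL hh
  -- the same limit for `Kb`
  have t2 : Tendsto (fun n : ℕ => (Kb (RFb (0, 0) (4 ^ n * L)) e e' : ℂ)) atTop (𝓝 (Kp e e' : ℂ)) :=
    (Complex.continuous_ofReal.tendsto _).comp
      (Kp_of_windows hue hue' (nc_box_tendsto hL hue) (nc_box_tendsto hL hue'))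
  set C : ℝ := CP (fun a => sgE e a * sgE e' a) P + 3 with hC
  have hC0 : 0 ≤ C := by
    have := CP_nonneg (fun a : DE => sgE e a * sgE e' a) P
    linarith
  have key : ∀ n : ℕ, ‖zn L ZQ (RFb (0, 0) L) id (fun a => sgE e a * sgE e' a) P n -
      (Kb (RFb (0, 0) (4 ^ n * L)) e e' : ℂ)‖ ≤
        C * ∑ a ∈ P, ncP (RFb (0, 0) (4 ^ n * L)) a := by
    intro n
    rw [zn_eq hL]
    set W := RFb (0, 0) (4 ^ n * L) with hW
    unfold Kb
    rw [← avc_ofReal, ← avc_sub]
    refine (norm_avc_le (f := fun ω => C * (if AllClo ZQ W ω P then 0 else 1)) fun T _ => ?_).trans ?_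
    · exact norm_sub_gc noLoop_ZQ (uml_ZQ W) he he'
    · rw [av_mul]
      refine mul_le_mul_of_nonneg_left ?_ hC0
      unfold ncP
      rw [← av_sum]
      refine av_mono fun T _ => ?_
      by_cases hc : AllClo ZQ W (ind T) P
      · rw [if_pos hc]
        refine Finset.sum_nonneg fun a _ => ?_
        split_ifs <;> norm_num
      · rw [if_neg hc]
        unfold AllClo at hc
        push Not at hc
        obtain ⟨a, ha, hna⟩ := hc
        refine le_trans (le_of_eq ?_) (Finset.single_le_sum (f := fun a =>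
          if Clo ZQ W (ind T) a then (0 : ℝ) else 1) (fun a _ => by
            split_ifs <;> norm_num) ha)
        rw [if_neg hna]
  have t3 : Tendsto (fun n : ℕ => C * ∑ a ∈ P, ncP (RFb (0, 0) (4 ^ n * L)) a) atTop (𝓝 0) := by
    have : Tendsto (fun n : ℕ => ∑ a ∈ P, ncP (RFb (0, 0) (4 ^ n * L)) a) atTop
        (𝓝 (∑ a ∈ P, (0 : ℝ))) :=
      tendsto_finsetSum _ fun a ha => nc_box_tendsto hL (ue_of_P hP (Or.inl ha))
    rw [Finset.sum_const_zero] at this
    simpa using this.const_mul C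
  have t4 : Tendsto (fun n : ℕ => zn L ZQ (RFb (0, 0) L) id (fun a => sgE e a * sgE e' a) P n -
      (Kb (RFb (0, 0) (4 ^ n * L)) e e' : ℂ)) atTop (𝓝 0) :=
    squeeze_zero_norm key t3
  have t5 := t4.add t2
  simp only [sub_add_cancel, zero_add] at t5
  exact tendsto_nhds_unique t1 t5

end

end Pool.Agent.SixB.JJ
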