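import Pool.Agent.Lib.SixB.S3HcsF
import Pool.Agent.Lib.SixB.S3AsmC
import Pool.Agent.Lib.SixB.S3JJZ

/-!
# 6BD step 3: the double of the flat right half with two insertions

`right_zJJ`: the plane functional of the double of the right half of an environment with the sign of `e` in the half and the
sign of `e'` in its mirror image is `Kp e (mirX e')`.
-/

set_option autoImplicit false
set_option linter.unusedSectionVars false

namespace Pool.Agent.SixB.Hcs

open Pool.Agent.Perc Pool.Agent.Perc.Q Relation Filter Topology ComplexConjugate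
open Pool.Agent.SixB.Rel Pool.Agent.SixB.Dbl Pool.Agent.SixB.Asm3
open Pool.Agent.SixB hiding Zs_split dst_congr qt_congr dE_mono

noncomputable section

variable {E : SEnv} {X L : ℤ} {R : Finset (ℤ × ℤ)}

/-! ## Coordinates -/

/-- coordinates of the right half (`b = false`) and of its mirror image -/
def tau (X : ℤ) (b : Bool) (p : ℤ × ℤ) : ℤ × ℤ := (-p.2, if b = true then X - p.1 else p.1 - X)

/-- coordinates of sides -/
def tauE (X : ℤ) (b : Bool) (a : (ℤ × ℤ) × (ℤ × ℤ)) : (ℤ × ℤ) × (ℤ × ℤ) :=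
  Prod.map (tau X b) (tau X b) a

theorem tau_inj {b : Bool} {p q : ℤ × ℤ} (h : tau X b p = tau X b q) : p = q := by
  obtain ⟨h1, h2⟩ := Prod.mk.inj h
  cases b
  · simp only [Bool.false_eq_true, if_false] at h2
    exact Prod.ext (by omega) (by omega)
  · simp only [if_true] at h2
    exact Prod.ext (by omega) (by omega)

theorem tauE_inj {b : Bool} {a a' : (ℤ × ℤ) × (ℤ × ℤ)} (h : tauE X b a = tauE X b a') : a = a' := by
  obtain ⟨h1, h2⟩ := Prod.mk.inj h
  exact Prod.ext (tau_inj h1) (tau_inj h2)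

theorem tauE_swap (b : Bool) (a : (ℤ × ℤ) × (ℤ × ℤ)) : tauE X b a.swap = (tauE X b a).swap := rfl

theorem dblphi_tau {b : Bool} {p : ℤ × ℤ} (hp : X < p.1) :
    dblφ true X cv (colF X) (tau X b p) = dblV (colF X) b (none, p) := by
  obtain ⟨x, y⟩ := p
  simp only at hp
  unfold dblφ tau
  cases b
  · have h1 : cc true (x - X) = false := (cc_eq true (x - X)).mpr (by simp; omega)
    simp only [Bool.false_eq_true, if_false]
    rw [h1]
    congr 1
    unfold cv htv rv0
    simp
  · have h1 : cc true (X - x) = true := by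
      have h2 : ¬ cc true (X - x) = false := fun h => by
        have := (cc_eq true (X - x)).mp h
        simp at this
        omega
      simpa using h2
    simp only [if_true]
    rw [h1]
    congr 1
    unfold cv htv rv0
    simp

/-- the faces of the two copies -/
def tauF (X : ℤ) (b : Bool) (f : ℤ × ℤ) : ℤ × ℤ :=
  (-f.2 - 1, if b = true then X - f.1 - 1 else f.1 - X)

theorem tau_false (f : ℤ × ℤ) (k : ZMod 4) : tau X false (ZQ.c f k) = ZQ.c (tauF X false f) (k + 1) := by
  unfold tau tauF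
  rcases k4_cases k with rfl | rfl | rfl | rfl
  · change (-(cor0 f 0).2, if false = true then X - (cor0 f 0).1 else (cor0 f 0).1 - X) =
      cor0 (-f.2 - 1, if false = true then X - f.1 - 1 else f.1 - X) 1
    rw [cor0_0, cor0_1]
    simp
  · change (-(cor0 f 1).2, if false = true then X - (cor0 f 1).1 else (cor0 f 1).1 - X) =
      cor0 (-f.2 - 1, if false = true then X - f.1 - 1 else f.1 - X) 2
    rw [cor0_1, cor0_2]
    simp
    ring
  · change (-(cor0 f 2).2, if false = true then X - (cor0 f 2).1 else (cor0 f 2).1 - X) =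
      cor0 (-f.2 - 1, if false = true then X - f.1 - 1 else f.1 - X) 3
    rw [cor0_2, cor0_3]
    simp
    constructor <;> ring
  · change (-(cor0 f 3).2, if false = true then X - (cor0 f 3).1 else (cor0 f 3).1 - X) =
      cor0 (-f.2 - 1, if false = true then X - f.1 - 1 else f.1 - X) 0
    rw [cor0_3, cor0_0]
    simp
    ring

theorem tau_true (f : ℤ × ℤ) (k : ZMod 4) : tau X true (ZQ.c f k) = ZQ.c (tauF X true f) (2 - k) := by
  unfold tau tauF
  rcases k4_cases k with rfl | rfl | rfl | rfl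
  · change (-(cor0 f 0).2, if true = true then X - (cor0 f 0).1 else (cor0 f 0).1 - X) =
      cor0 (-f.2 - 1, if true = true then X - f.1 - 1 else f.1 - X) 2
    rw [cor0_0, cor0_2]
    simp
  · change (-(cor0 f 1).2, if true = true then X - (cor0 f 1).1 else (cor0 f 1).1 - X) =
      cor0 (-f.2 - 1, if true = true then X - f.1 - 1 else f.1 - X) 1
    rw [cor0_1, cor0_1]
    simp
    ring
  · change (-(cor0 f 2).2, if true = true then X - (cor0 f 2).1 else (cor0 f 2).1 - X) =
      cor0 (-f.2 - 1, if true = true then X - f.1 - 1 else f.1 - X) 0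
    rw [cor0_2, cor0_0]
    simp
    constructor <;> ring
  · change (-(cor0 f 3).2, if true = true then X - (cor0 f 3).1 else (cor0 f 3).1 - X) =
      cor0 (-f.2 - 1, if true = true then X - f.1 - 1 else f.1 - X) 3
    rw [cor0_3, cor0_3]
    simp
    ring

/-- sides go to sides -/
theorem tau_dE {b : Bool} {F : Finset (ℤ × ℤ)} (hF : ∀ f ∈ R, tauF X b f ∈ F)
    {a : (ℤ × ℤ) × (ℤ × ℤ)} (ha : a ∈ dE ZQ R) : tauE X b a ∈ dE ZQ F := by
  obtain ⟨f, hf, k, hk⟩ := mem_dE.mp ha
  have key : ∃ l, tauE X b (sd ZQ f k) = sd ZQ (tauF X b f) l ∨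
      tauE X b (sd ZQ f k) = (sd ZQ (tauF X b f) l).swap := by
    cases b
    · exact ⟨k + 1, Or.inl (Prod.ext (tau_false f k) (tau_false f (k + 1)))⟩
    · refine ⟨1 - k, Or.inr (Prod.ext ?_ ?_)⟩
      · show tau X true (ZQ.c f k) = ZQ.c (tauF X true f) (1 - k + 1)
        rw [tau_true]
        congr 1
        ring
      · show tau X true (ZQ.c f (k + 1)) = ZQ.c (tauF X true f) (1 - k)
        rw [tau_true]
        congr 1
        ring
  obtain ⟨l, hl⟩ := key
  refine mem_dE.mpr ⟨_, hF f hf, l, ?_⟩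
  rcases hk with rfl | rfl
  · exact hl
  · rw [tauE_swap]
    rcases hl with hl | hl
    · rw [hl]
      exact Or.inr rfl
    · rw [hl, Prod.swap_swap]
      exact Or.inl rfl

theorem tauF_box {b : Bool} {f : ℤ × ℤ} (hf : f ∈ RFb (0, 0) L) :
    tauF X b f ∈ RFb (0, 0) (L + |X|) := by
  have h1 := abs_le.mp (le_refl |X|)
  rw [mem_RF0] at hf ⊢
  unfold tauF
  have h2 := abs_nonneg X
  cases b
  · simp only [Bool.false_eq_true, if_false]
    omega
  · simp only [if_true]
    omega

/-! ## Sides of the insertion -/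

/-- the rectangle of the insertion is strictly on the right of the column, inside the box -/
def Rgt (X L : ℤ) (R : Finset (ℤ × ℤ)) : Prop := ∀ f ∈ R, X < f.1 ∧ f ∈ RFb (0, 0) L

theorem Rgt.x (h : Rgt X L R) {a : (ℤ × ℤ) × (ℤ × ℤ)} (ha : a ∈ dE ZQ R) : X < a.1.1 ∧ X < a.2.1 := by
  obtain ⟨f, hf, k, hk⟩ := mem_dE.mp ha
  have h1 := (h f hf).1
  have h2 := (corner_le (g := f) (k := k)).1
  have h3 := (corner_le (g := f) (k := k + 1)).1
  rcases hk with rfl | rfl
  · exact ⟨by show X < (ZQ.c f k).1; omega, by show X < (ZQ.c f (k + 1)).1; omega⟩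
  · exact ⟨by show X < (ZQ.c f (k + 1)).1; omega, by show X < (ZQ.c f k).1; omega⟩

theorem mem_core_right (H : LeftOf E X) {f : ℤ × ℤ} (h1 : X ≤ f.1) (h2 : f ∈ RFb (0, 0) L) :
    ((none, f) : VE) ∈ corS (win E L).F (hR X) := by
  have h3 := not_solid_right H h1
  exact mem_corS.mpr ⟨EnvB.mem_F_none.mpr (mem_base_win.mpr ⟨h2, h3.1, h3.2⟩), rfl, h1⟩

theorem sd_right (H : LeftOf E X) {f : ℤ × ℤ} (h1 : X ≤ f.1) (k : ZMod 4) :
    sd (RQ E) (none, f) (k + 1) = sd0 (sd ZQ f k) := by
  unfold sd sd0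
  rw [RQ_c, RQ_c, corner_right H h1, corner_right H h1]
  rw [show k + 1 + 3 = k by rw [add_assoc, show (1 : ZMod 4) + 3 = 0 by decide, add_zero],
    show k + 1 + 1 + 3 = k + 1 by
      rw [add_assoc (k + 1) 1 3, show (1 : ZMod 4) + 3 = 0 by decide, add_zero]]

theorem sd0_mem (H : LeftOf E X) (hg : Rgt X L R) {a : (ℤ × ℤ) × (ℤ × ℤ)} (ha : a ∈ dE ZQ R) :
    sd0 a ∈ dE (RQ E) (corS (win E L).F (hR X)) := by
  obtain ⟨f, hf, k, hk⟩ := mem_dE.mp ha
  obtain ⟨h1, h2⟩ := hg f hf
  refine mem_dE.mpr ⟨_, mem_core_right H h1.le h2, k + 1, ?_⟩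
  rw [sd_right H h1.le]
  rcases hk with rfl | rfl
  · exact Or.inl rfl
  · exact Or.inr rfl

/-- sides of the right half -/
theorem right_side (H : LeftOf E X) {F : Finset VE} {s : VE × VE}
    (hs : s ∈ dE (RQ E) (corS F (hR X))) : s.1.1 = none ∧ s.2.1 = none ∧ X ≤ s.1.2.1 ∧ X ≤ s.2.2.1 := by
  obtain ⟨⟨t, f⟩, hf, k, hk⟩ := mem_dE.mp hs
  obtain ⟨-, h1, h2⟩ := mem_corS.mp hf
  simp only at h1 h2
  subst h1
  have key : ∀ l, ((RQ E).c (none, f) l).1 = none ∧ X ≤ ((RQ E).c (none, f) l).2.1 := by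
    intro l
    rw [RQ_c, corner_right H h2]
    exact ⟨rfl, h2.trans corner_le.1⟩
  rcases hk with rfl | rfl
  · exact ⟨(key k).1, (key (k + 1)).1, (key k).2, (key (k + 1)).2⟩
  · exact ⟨(key (k + 1)).1, (key k).1, (key (k + 1)).2, (key k).2⟩

/-- island sides are on the left of the column -/
theorem Z_left (H : LeftOf E X) {s : VE × VE} (hs : s ∈ (win E L).Z) (h1 : s.1.1 = none)
    (h2 : s.2.1 = none) : s.1.2.1 < X ∧ s.2.2.1 < X := by
  obtain ⟨-, h3 | h3 | ⟨f, hf, k, hk⟩⟩ := EnvB.mem_Z.mp hs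
  · exact absurd h1 h3
  · exact absurd h2 h3
  · have h4 := H.sol f hf
    have h5 : s.1.2 = ZQ.c f (k + 1) := congrArg Prod.fst hk
    have h6 : s.2.2 = ZQ.c f k := congrArg Prod.snd hk
    have h7 := (corner_le (g := f) (k := k)).2
    have h8 := (corner_le (g := f) (k := k + 1)).2
    rw [h5, h6]
    omega

/-- the relevant sides: the islands and the sides of the insertion -/
def P0 (E : SEnv) (L : ℤ) (R : Finset (ℤ × ℤ)) : Finset (VE × VE) :=
  (win E L).Z ∪ (dE ZQ R).image sd0

/-- the relevant sides of the doubled right half in plane coordinates -/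
def P3 (X : ℤ) (R : Finset (ℤ × ℤ)) : Finset ((ℤ × ℤ) × (ℤ × ℤ)) :=
  (dE ZQ R).image (tauE X false) ∪ (dE ZQ R).image (tauE X true)

theorem mem_P3 {a : (ℤ × ℤ) × (ℤ × ℤ)} : a ∈ P3 X R ↔ ∃ b, ∃ a₀ ∈ dE ZQ R, a = tauE X b a₀ := by
  unfold P3
  rw [Finset.mem_union, Finset.mem_image, Finset.mem_image]
  constructor
  · rintro (⟨a₀, h, rfl⟩ | ⟨a₀, h, rfl⟩)
    · exact ⟨false, a₀, h, rfl⟩
    · exact ⟨true, a₀, h, rfl⟩
  · rintro ⟨_ | _, a₀, h, rfl⟩
    · exact Or.inl ⟨a₀, h, rfl⟩
    · exact Or.inr ⟨a₀, h, rfl⟩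

theorem P3_sub (hg : Rgt X L R) : P3 X R ⊆ dE ZQ (RFb (0, 0) (L + |X|)) := by
  intro a ha
  obtain ⟨b, a₀, h, rfl⟩ := mem_P3.mp ha
  exact tau_dE (fun f hf => tauF_box (hg f hf).2) h

theorem map_tau (hg : Rgt X L R) {b : Bool} {a : (ℤ × ℤ) × (ℤ × ℤ)} (ha : a ∈ dE ZQ R) :
    Prod.map (dblφ true X cv (colF X)) (dblφ true X cv (colF X)) (tauE X b a) =
      dblA (colF X) b (sd0 a) :=
  Prod.ext (dblphi_tau (hg.x ha).1) (dblphi_tau (hg.x ha).2)

/-- **The relevant sides of the doubled right half.** -/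
theorem isl2_right (H : LeftOf E X) (hg : Rgt X L R) :
    isl2 (RQ E) (win E L).F (hR X) (colF X) (P0 E L R) =
      (P3 X R).image (Prod.map (dblφ true X cv (colF X)) (dblφ true X cv (colF X))) := by
  ext a'
  rw [mem_isl2, Finset.mem_image]
  constructor
  · rintro ⟨b, a, ha, ha2, rfl⟩
    rcases Finset.mem_union.mp ha with h1 | h1
    · exfalso
      obtain ⟨h2, h3, h4, -⟩ := right_side H ha2
      have := (Z_left H h1 h2 h3).1
      omega
    · obtain ⟨a₀, h2, rfl⟩ := Finset.mem_image.mp h1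
      exact ⟨tauE X b a₀, mem_P3.mpr ⟨b, a₀, h2, rfl⟩, map_tau hg h2⟩
  · rintro ⟨a, ha, rfl⟩
    obtain ⟨b, a₀, h2, rfl⟩ := mem_P3.mp ha
    exact ⟨b, sd0 a₀, Finset.mem_union_right _ (Finset.mem_image_of_mem _ h2), sd0_mem H hg h2,
      map_tau hg h2⟩

/-! ## The weights -/

theorem sd0_swap (a : (ℤ × ℤ) × (ℤ × ℤ)) : sd0 a.swap = (sd0 a).swap := rfl

theorem sd0_inj {a b : (ℤ × ℤ) × (ℤ × ℤ)} (h : sd0 a = sd0 b) : a = b := by
  obtain ⟨h1, h2⟩ := Prod.mk.inj h
  exact Prod.ext (Prod.mk.inj h1).2 (Prod.mk.inj h2).2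

/-- two neighbouring vertices are on one side of the row `0` -/
theorem unit_side {F : Finset (ℤ × ℤ)} {a : (ℤ × ℤ) × (ℤ × ℤ)} (ha : a ∈ dE ZQ F) :
    (0 ≤ a.1.2 ∧ 0 ≤ a.2.2) ∨ (a.1.2 ≤ 0 ∧ a.2.2 ≤ 0) := by
  obtain ⟨f, hf, k, hk⟩ := mem_dE.mp ha
  have y := stdB_ZQ.y f
  have h1 := y k
  have h2 := y (k + 1)
  have e1 : (sd ZQ f k).1.2 = (ZQ.c f k).2 := rfl
  have e2 : (sd ZQ f k).2.2 = (ZQ.c f (k + 1)).2 := rfl
  rcases hk with rfl | rfl
  · rw [e1, e2]
    omega
  · show (0 ≤ (sd ZQ f k).2.2 ∧ 0 ≤ (sd ZQ f k).1.2) ∨ ((sd ZQ f k).2.2 ≤ 0 ∧ (sd ZQ f k).1.2 ≤ 0)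
    rw [e1, e2]
    omega

/-- the original point of a point of the doubled plane -/
def und (X : ℤ) (v : ℤ × ℤ) : ℤ × ℤ := (|v.2| + X, -v.1)

theorem dblphi_fst (v : ℤ × ℤ) : (dblφ true X cv (colF X) v).1 = (none, und X v) := by
  unfold dblφ dblV cv und htv rv0
  simp only
  by_cases h : v.2 < 0
  · have h1 : cc true v.2 = true := by
      unfold cc
      simp [h]
    rw [h1, abs_of_neg h]
    simp
    ring
  · have h1 : cc true v.2 = false := by
      unfold cc
      simp [h]
    rw [h1, abs_of_nonneg (not_lt.mp h)]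
    simp

theorem dblphi_flag (v : ℤ × ℤ) : (dblφ true X cv (colF X) v).2.1 = decide (v.2 < 0) := by
  classical
  have h0 : (dblφ true X cv (colF X) v).2.1 =
      (cc true v.2 && !decide (onCut (colF X) (cv (v.1, htv X (cc true v.2) v.2)))) := by
    unfold dblφ dblV
    simp only
  rw [h0]
  by_cases h : v.2 < 0
  · have h1 : cc true v.2 = true := by
      unfold cc
      simp [h]
    rw [h1]
    have h2 : ¬ onCut (colF X) (cv (v.1, htv X true v.2)) := by
      rw [onCut_col]
      unfold cv htv rv0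
      simp
      omega
    simp [h, h2]
  · have h1 : cc true v.2 = false := by
      unfold cc
      simp [h]
    rw [h1]
    simp [h]

/-- **The weight of the doubled right half with two insertions.** -/
theorem weight_right (H : LeftOf E X) (hg : Rgt X L R) {h : VE × VE → ℂ}
    (hh : ∀ a, a ∉ (win E L).Z → a.swap ∉ (win E L).Z → h a = 1) {e e' : (ℤ × ℤ) × (ℤ × ℤ)}
    (he : e ∈ dE ZQ R) (he' : e' ∈ dE ZQ R) {F : Finset (ℤ × ℤ)} {a : (ℤ × ℤ) × (ℤ × ℤ)}
    (ha : a ∈ dE ZQ F) :
    dw (fun b => h b * sgE (sd0 e) b) (fun b => h b * sgE (sd0 e') b)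
      (Prod.map (dblφ true X cv (colF X)) (dblφ true X cv (colF X)) a) =
      sgE (tauE X false e) a * sgE (tauE X true e') a := by
  obtain ⟨v, w⟩ := a
  have x1 := hg.x he
  have x2 := hg.x he'
  -- the island weight is `1`
  have h1 : h ((none, und X v), (none, und X w)) = 1 := by
    have k1 : X ≤ (und X v).1 := by
      unfold und
      have := abs_nonneg v.2
      simp only
      omega
    have k2 : X ≤ (und X w).1 := by
      unfold und
      have := abs_nonneg w.2
      simp only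
      omega
    refine hh _ (fun h2 => ?_) (fun h2 => ?_)
    · have := (Z_left H h2 rfl rfl).1
      simp only at this
      omega
    · have := (Z_left H h2 rfl rfl).1
      simp only [Prod.fst_swap] at this
      omega
  have e0 : ((Prod.map (dblφ true X cv (colF X)) (dblφ true X cv (colF X)) (v, w)).1.1,
      (Prod.map (dblφ true X cv (colF X)) (dblφ true X cv (colF X)) (v, w)).2.1) =
      (((none, und X v), (none, und X w)) : VE × VE) :=
    Prod.ext (dblphi_fst v) (dblphi_fst w)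
  have e1 : ((Prod.map (dblφ true X cv (colF X)) (dblφ true X cv (colF X)) (v, w)).1.2.1 ||
      (Prod.map (dblφ true X cv (colF X)) (dblφ true X cv (colF X)) (v, w)).2.2.1) =
      (decide (v.2 < 0) || decide (w.2 < 0)) := by
    show ((dblφ true X cv (colF X) v).2.1 || (dblφ true X cv (colF X) w).2.1) = _
    rw [dblphi_flag, dblphi_flag]
  unfold dw
  rw [e0, e1]
  beta_reduce
  rw [h1, one_mul, one_mul]
  by_cases hlow : v.2 < 0 ∨ w.2 < 0
  · rw [if_pos (by simpa using hlow)]
    have h3 : v.2 ≤ 0 ∧ w.2 ≤ 0 := by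
      rcases unit_side ha with h4 | h4
      · simp only at h4
        omega
      · exact h4
    have f1 : sgE (tauE X false e) (v, w) = 1 := by
      unfold sgE
      rw [if_neg]
      intro h5
      have h6 : v.2 = e.2.1 - X := congrArg (fun a => a.1.2) h5
      omega
    have f2 : sgE (sd0 e') ((none, und X v), (none, und X w)) = sgE (tauE X true e') (v, w) := by
      unfold sgE
      have h5 : ((((none, und X v), (none, und X w)) : VE × VE) = (sd0 e').swap) ↔
          (v, w) = (tauE X true e').swap := by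
        rw [← sd0_swap, ← tauE_swap]
        have h6 : ((((none, und X v), (none, und X w)) : VE × VE)) = sd0 (und X v, und X w) := rfl
        rw [h6]
        constructor
        · intro h7
          have h8 := sd0_inj h7
          rw [← h8]
          unfold tauE tau und
          rw [abs_of_nonpos h3.1, abs_of_nonpos h3.2]
          simp
        · intro h7
          have k1 : v = tau X true e'.swap.1 := congrArg Prod.fst h7
          have k2 : w = tau X true e'.swap.2 := congrArg Prod.snd h7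
          congr 1
          refine Prod.ext ?_ ?_
          · show und X v = e'.swap.1
            unfold und
            rw [abs_of_nonpos h3.1, k1]
            unfold tau
            simp
          · show und X w = e'.swap.2
            unfold und
            rw [abs_of_nonpos h3.2, k2]
            unfold tau
            simp
      by_cases h6 : (v, w) = (tauE X true e').swap
      · rw [if_pos (h5.mpr h6), if_pos h6]
      · rw [if_neg fun h7 => h6 (h5.mp h7), if_neg h6]
    rw [f1, f2, one_mul]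
    unfold sgE
    split_ifs
    · simp
    · simp
  · rw [if_neg (by simpa using hlow)]
    push Not at hlow
    have f1 : sgE (tauE X true e') (v, w) = 1 := by
      unfold sgE
      rw [if_neg]
      intro h5
      have h6 : v.2 = X - e'.2.1 := congrArg (fun a => a.1.2) h5
      omega
    have f2 : sgE (sd0 e) ((none, und X v), (none, und X w)) = sgE (tauE X false e) (v, w) := by
      unfold sgE
      have h5 : ((((none, und X v), (none, und X w)) : VE × VE) = (sd0 e).swap) ↔
          (v, w) = (tauE X false e).swap := by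
        rw [← sd0_swap, ← tauE_swap]
        have h6 : ((((none, und X v), (none, und X w)) : VE × VE)) = sd0 (und X v, und X w) := rfl
        rw [h6]
        constructor
        · intro h7
          have h8 := sd0_inj h7
          rw [← h8]
          unfold tauE tau und
          rw [abs_of_nonneg hlow.1, abs_of_nonneg hlow.2]
          simp
        · intro h7
          have k1 : v = tau X false e.swap.1 := congrArg Prod.fst h7
          have k2 : w = tau X false e.swap.2 := congrArg Prod.snd h7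
          congr 1
          refine Prod.ext ?_ ?_
          · show und X v = e.swap.1
            unfold und
            rw [abs_of_nonneg hlow.1, k1]
            unfold tau
            simp
          · show und X w = e.swap.2
            unfold und
            rw [abs_of_nonneg hlow.2, k2]
            unfold tau
            simp
      by_cases h6 : (v, w) = (tauE X false e).swap
      · rw [if_pos (h5.mpr h6), if_pos h6]
      · rw [if_neg fun h7 => h6 (h5.mp h7), if_neg h6]
    rw [f1, f2, mul_one]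

/-! ## The functional -/

theorem ue_of {F : Finset (ℤ × ℤ)} {a : (ℤ × ℤ) × (ℤ × ℤ)} (ha : a ∈ dE ZQ F) : Ue a := by
  obtain ⟨f, -, k, rfl | rfl⟩ := mem_dE.mp ha
  · exact ⟨f, k, rfl⟩
  · exact Ue.swap ⟨f, k, rfl⟩

theorem ue_tE (u : ℤ × ℤ) {a : (ℤ × ℤ) × (ℤ × ℤ)} (ha : Ue a) : Ue (tE u a) :=
  Ue_map (smT u) ha

theorem chart_rot (W : Finset (ℤ × ℤ)) : QChart ZQ (relQ ZQ fun _ => 3) W rv0 rf0 0 where
  inj _ _ _ _ _ _ h := rv0_inj h
  cor f _ k := by
    rw [add_zero]
    exact c_rf0 f k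

theorem image_rf0 (L : ℤ) : (RFb (0, 0) L).image rf0 = RFb (0, 0) L := by
  ext f
  rw [Finset.mem_image]
  constructor
  · rintro ⟨g, hg, rfl⟩
    exact mem_rf0.mpr hg
  · intro hf
    exact ⟨_, mem_back.mpr hf, rf0_surj f⟩

/-- the side after the rotation -/
def rvE (a : (ℤ × ℤ) × (ℤ × ℤ)) : (ℤ × ℤ) × (ℤ × ℤ) := Prod.map rv0 rv0 a

theorem sgE_rv (e a : (ℤ × ℤ) × (ℤ × ℤ)) : sgE (rvE e) (rvE a) = sgE e a := by
  unfold sgE
  have h : rvE a = (rvE e).swap ↔ a = e.swap := by
    constructor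
    · intro h
      obtain ⟨h1, h2⟩ := Prod.mk.inj h
      exact Prod.ext (rv0_inj h1) (rv0_inj h2)
    · rintro rfl
      rfl
  by_cases h1 : a = e.swap
  · rw [if_pos h1, if_pos (h.mpr h1)]
  · rw [if_neg h1, if_neg fun h2 => h1 (h.mp h2)]

/-- the plane functional is invariant under the rotation -/
theorem Zp_rotZ {M : ℤ} {h h' : (ℤ × ℤ) × (ℤ × ℤ) → ℂ} {P : Finset ((ℤ × ℤ) × (ℤ × ℤ))}
    (hh : ∀ n, ∀ a ∈ dE ZQ (RFb (0, 0) M ∪ (aZ M n).image id), h' (rvE a) = h a)
    (hP : P ⊆ dE ZQ (RFb (0, 0) M)) :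
    Zp M ZQ (RFb (0, 0) M) id h' (P.image rvE) = Zp M ZQ (RFb (0, 0) M) id h P := by
  rw [← Zp_relQ (Q := ZQ) (fun _ => 3) (RFb (0, 0) M) id h' (P.image rvE)]
  refine Zp_map (r := 0) (χv := rv0) (χf := rf0) (fun n => chart_rot _) (fun n => ?_) hh hP rfl
  rw [Finset.image_union, image_rf0, Finset.image_id, aZ_rf0]

theorem rvE_sub {M : ℤ} {P : Finset ((ℤ × ℤ) × (ℤ × ℤ))} (hP : P ⊆ dE ZQ (RFb (0, 0) M)) :
    P.image rvE ⊆ dE ZQ (RFb (0, 0) M) := by
  have h1 := (chart_rot (RFb (0, 0) M)).dE_map (Finset.Subset.refl _)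
  rw [image_rf0, dE_relQ] at h1
  rw [h1]
  exact Finset.image_subset_image hP

/-- **The doubled right half with two insertions.** -/
theorem right_zJJ (H : LeftOf E X) (h0 : 0 < L) (hg : Rgt X L R) {h : VE × VE → ℂ}
    (hh : ∀ a, a ∉ (win E L).Z → a.swap ∉ (win E L).Z → h a = 1) {e e' : (ℤ × ℤ) × (ℤ × ℤ)}
    (he : e ∈ dE ZQ R) (he' : e' ∈ dE ZQ R) :
    Zp (L + |X|) (dblS (RQ E) (hR X) (colF X) (os_R H))
      (cor2 true X (win E L).F (hR X) cf (wZ true X L (L + |X|))) (dblψ true X cf)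
      (dw (fun b => h b * sgE (sd0 e) b) (fun b => h b * sgE (sd0 e') b))
      (isl2 (RQ E) (win E L).F (hR X) (colF X) (P0 E L R)) =
      ((Kp e (Prod.map (mirX X) (mirX X) e') : ℝ) : ℂ) := by
  have hM : 0 < L + |X| := by
    have := abs_nonneg X
    omega
  rw [isl2_right H hg]
  refine ((flatR (L := L) H).Zp_eq (L' := L + |X|) h0.le le_rfl (fun a => rfl) (P3_sub hg)).trans ?_
  have hw : ∀ n, ∀ a ∈ dE ZQ (RFb (0, 0) (L + |X|) ∪ (aZ (L + |X|) n).image id),
      (fun a => sgE (rvE (tauE X false e)) a * sgE (rvE (tauE X true e')) a) (rvE a) =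
      dw (fun b => h b * sgE (sd0 e) b) (fun b => h b * sgE (sd0 e') b)
        (Prod.map (dblφ true X cv (colF X)) (dblφ true X cv (colF X)) a) := by
    intro n a ha
    rw [weight_right H hg hh he he' ha]
    beta_reduce
    rw [sgE_rv, sgE_rv]
  rw [← Zp_rotZ (h' := fun a => sgE (rvE (tauE X false e)) a * sgE (rvE (tauE X true e')) a) hw
    (P3_sub hg)]
  have hsub := rvE_sub (P3_sub (X := X) (L := L) hg)
  have m1 : rvE (tauE X false e) ∈ (P3 X R).image rvE :=
    Finset.mem_image_of_mem _ (mem_P3.mpr ⟨false, e, he, rfl⟩)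
  have m2 : rvE (tauE X true e') ∈ (P3 X R).image rvE :=
    Finset.mem_image_of_mem _ (mem_P3.mpr ⟨true, e', he', rfl⟩)
  rw [JJ.Zp_two hM hsub (Or.inl m1) (Or.inl m2)]
  congr 1
  have e1 : rvE (tauE X false e) = tE (-X, 0) e := by
    unfold rvE tauE tE tau rv0
    refine Prod.ext ?_ ?_
    · refine Prod.ext ?_ ?_
      · show e.1.1 - X = e.1.1 + -X
        ring
      · show - -e.1.2 = e.1.2 + 0
        ring
    · refine Prod.ext ?_ ?_
      · show e.2.1 - X = e.2.1 + -X
        ring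
      · show - -e.2.2 = e.2.2 + 0
        ring
  have e2 : rvE (tauE X true e') = tE (-X, 0) (Prod.map (mirX X) (mirX X) e') := by
    unfold rvE tauE tE tau rv0 mirX
    refine Prod.ext ?_ ?_
    · refine Prod.ext ?_ ?_
      · show X - e'.1.1 = 2 * X - e'.1.1 + -X
        ring
      · show - -e'.1.2 = e'.1.2 + 0
        ring
    · refine Prod.ext ?_ ?_
      · show X - e'.2.1 = 2 * X - e'.2.1 + -X
        ring
      · show - -e'.2.2 = e'.2.2 + 0
        ring
  have u2 : Ue (Prod.map (mirX X) (mirX X) e') := by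
    have h1 := ue_tE (X, 0) (ue_of (hsub m2))
    rw [e2] at h1
    have h2 : tE (X, 0) (tE (-X, 0) (Prod.map (mirX X) (mirX X) e')) =
        Prod.map (mirX X) (mirX X) e' := by
      unfold tE
      refine Prod.ext ?_ ?_
      · refine Prod.ext ?_ ?_
        · simp
        · simp
      · refine Prod.ext ?_ ?_
        · simp
        · simp
    rwa [h2] at h1
  rw [e1, e2]
  exact Kp_tE (-X, 0) (ue_of he) u2

end

end Pool.Agent.SixB.Hcs
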