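import Pool.Agent.Lib.SixB.S3Mirror
import Pool.Agent.Lib.SixB.S0Ins

/-!
# 6BD: arrow sums with an inserted linear functional of the arrows (every complex)

`c : V × V → ℝ`, `D(α) = ∑ a ∈ α, c a`.
* `Z6D Q F h c`: the arrow sum with `D` inserted; `Z6D_eq`: linear combination of `Z6` with prescribed arrows.
* `MxD Q F h c b t`: the matrix between the families `b`, `t`.
* `MxD_three`: `F₁ ∪ F₂ ∪ F₃` with `D` inserted in `F₂` is the product `Mx F₃ * MxD F₂ * Mx F₁`.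
* `Z6D_three`: the sandwich `L ∪ S ∪ U`.
* `norm_MxD_le`: domination by `exp (± D)` (weights `1`).
-/

set_option autoImplicit false
set_option linter.unusedSectionVars false

namespace Pool.Agent.SixB

open Pool.Agent.Perc.Q Relation ComplexConjugate

noncomputable section

variable {V Φ : Type} [DecidableEq V] [DecidableEq Φ]
variable {Q : QC V Φ} {F F₁ F₂ F₃ : Finset Φ} {h : V × V → ℂ} {c : V × V → ℝ}

/-- the arrow sum with `∑ a ∈ α, c a` inserted -/
def Z6D (Q : QC V Φ) (F : Finset Φ) (h : V × V → ℂ) (c : V × V → ℝ) : ℂ :=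
  ∑ α ∈ Arrs Q F, (∏ f ∈ F, fw (fun k => decide (sd Q f k ∈ α))) * (∏ a ∈ α, h a) *
    ((∑ a ∈ α, c a : ℝ) : ℂ)

/-- the arrow `e` is prescribed -/
def kil (e a : V × V) : ℂ := if a = e.swap then 0 else 1

theorem prod_kil {e : V × V} {α : Finset (V × V)} (h : e ∈ α ↔ e.swap ∉ α) :
    ∏ a ∈ α, kil e a = if e ∈ α then 1 else 0 := by
  by_cases he : e ∈ α
  · rw [if_pos he]
    refine Finset.prod_eq_one fun a ha => ?_
    unfold kil
    rw [if_neg]
    rintro rfl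
    exact h.mp he ha
  · rw [if_neg he]
    have h1 : e.swap ∈ α := by
      by_contra h2
      exact he (h.mpr h2)
    refine Finset.prod_eq_zero h1 ?_
    unfold kil
    rw [if_pos rfl]

/-- **Linear combination.** -/
theorem Z6D_eq (Q : QC V Φ) (F : Finset Φ) (h : V × V → ℂ) (c : V × V → ℝ) :
    Z6D Q F h c = ∑ e ∈ dE Q F, (c e : ℂ) * Z6 Q F (fun a => h a * kil e a) := by
  unfold Z6D Z6
  simp_rw [Finset.mul_sum]
  rw [Finset.sum_comm]
  refine Finset.sum_congr rfl fun α hα => ?_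
  obtain ⟨h1, h2⟩ := Finset.mem_filter.mp hα
  have h1 := Finset.mem_powerset.mp h1
  have e1 : ((∑ a ∈ α, c a : ℝ) : ℂ) = ∑ e ∈ dE Q F, (c e : ℂ) * (if e ∈ α then 1 else 0) := by
    rw [Complex.ofReal_sum]
    simp_rw [mul_ite, mul_one, mul_zero]
    rw [← Finset.sum_filter]
    refine Finset.sum_congr ?_ fun _ _ => rfl
    ext a
    rw [Finset.mem_filter]
    exact ⟨fun ha => ⟨h1 ha, ha⟩, fun ha => ha.2⟩
  rw [e1, Finset.mul_sum]
  refine Finset.sum_congr rfl fun e he => ?_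
  rw [Finset.prod_mul_distrib, prod_kil (h2 e he)]
  ring

theorem Z6D_congr {h' : V × V → ℂ} {c' : V × V → ℝ} (e : ∀ a ∈ dE Q F, h a = h' a)
    (e' : ∀ a ∈ dE Q F, c a = c' a) : Z6D Q F h c = Z6D Q F h' c' := by
  unfold Z6D
  refine Finset.sum_congr rfl fun α hα => ?_
  have h1 : ∀ a ∈ α, a ∈ dE Q F := fun a ha =>
    Finset.mem_powerset.mp (Finset.mem_filter.mp hα).1 ha
  rw [Finset.prod_congr rfl fun a ha => e a (h1 a ha), Finset.sum_congr rfl fun a ha => e' a (h1 a ha)]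

/-- matrix with an inserted functional -/
def MxD {ι κ : Type} (Q : QC V Φ) (F : Finset Φ) (h : V × V → ℂ) (c : V × V → ℝ) (b : ι → V × V)
    (t : κ → V × V) : Matrix (κ → Bool) (ι → Bool) ℂ :=
  fun s' s => Z6D Q F (fun a => h a * pin b s a * pin t s' a) c

theorem MxD_eq {ι κ : Type} (Q : QC V Φ) (F : Finset Φ) (h : V × V → ℂ) (c : V × V → ℝ)
    (b : ι → V × V) (t : κ → V × V) :
    MxD Q F h c b t = ∑ e ∈ dE Q F, (c e : ℂ) • Mx Q F (fun a => h a * kil e a) b t := by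
  ext s' s
  rw [Matrix.sum_apply]
  unfold MxD
  rw [Z6D_eq]
  refine Finset.sum_congr rfl fun e _ => ?_
  rw [Matrix.smul_apply, smul_eq_mul]
  unfold Mx
  congr 2
  funext a
  ring

theorem kil_off {e a : V × V} (ha : a ∈ dE Q F) (he : e ∉ dE Q F) : kil e a = 1 := by
  unfold kil
  rw [if_neg]
  rintro rfl
  exact he (swap_mem_dE.mp ha)

/-- a sum over the sides of `F` which are in the support of `c` -/
theorem sum_supp {M : Type} [AddCommGroup M] [Module ℂ M] {F₂ : Finset Φ} (hsub : dE Q F₂ ⊆ dE Q F)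
    (hc : ∀ a, c a ≠ 0 → a ∈ dE Q F₂) (g g' : V × V → M) (hg : ∀ e, c e ≠ 0 → g e = g' e) :
    ∑ e ∈ dE Q F, (c e : ℂ) • g e = ∑ e ∈ dE Q F₂, (c e : ℂ) • g' e := by
  rw [← Finset.sum_subset hsub]
  · refine Finset.sum_congr rfl fun e _ => ?_
    by_cases h0 : c e = 0
    · rw [h0, Complex.ofReal_zero, zero_smul, zero_smul]
    · rw [hg e h0]
  · intro e _ he
    have h0 : c e = 0 := by
      by_contra h0
      exact he (hc e h0)
    rw [h0, Complex.ofReal_zero, zero_smul]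

theorem dE_sub_left {F₁ F₂ : Finset Φ} : dE Q F₁ ⊆ dE Q (F₁ ∪ F₂) := by
  rw [dE_union]
  exact Finset.subset_union_left

theorem dE_sub_right {F₁ F₂ : Finset Φ} : dE Q F₂ ⊆ dE Q (F₁ ∪ F₂) := by
  rw [dE_union]
  exact Finset.subset_union_right

/-- **Three layers, insertion in the middle.** -/
theorem MxD_three {ι κ μ ν : Type} [Fintype ι] [Fintype κ] [Fintype μ] [Fintype ν] [DecidableEq μ]
    [DecidableEq ν] (hd : Disjoint F₁ F₂) (hd' : Disjoint (F₁ ∪ F₂) F₃)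
    {b : ι → V × V} {m : μ → V × V} {n : ν → V × V} {t : κ → V × V} (hm : Fam m) (hn : Fam n)
    (hcm : cE Q F₁ F₂ = eds m) (hcn : cE Q (F₁ ∪ F₂) F₃ = eds n)
    (hb2 : Disjoint (eds b) (dE Q F₂)) (hb3 : Disjoint (eds b) (dE Q F₃))
    (hn1 : Disjoint (eds n) (dE Q F₁))
    (ht : Disjoint (eds t) (dE Q (F₁ ∪ F₂)))
    (hc : ∀ a, c a ≠ 0 → a ∈ dE Q F₂ ∧ a ∉ dE Q F₁ ∧ a ∉ dE Q F₃) :
    MxD Q (F₁ ∪ F₂ ∪ F₃) (fun _ => 1) c b t =
      Mx Q F₃ (fun _ => 1) n t * MxD Q F₂ (fun _ => 1) c m n * Mx Q F₁ (fun _ => 1) b m := by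
  have hb12 : Disjoint (eds b) (dE Q F₂) := hb2
  rw [MxD_eq, MxD_eq, Matrix.mul_sum, Matrix.sum_mul]
  have hsub : dE Q F₂ ⊆ dE Q (F₁ ∪ F₂ ∪ F₃) := dE_sub_right.trans dE_sub_left
  simp_rw [Matrix.mul_smul, Matrix.smul_mul]
  refine sum_supp hsub (fun a ha => (hc a ha).1) _ _ fun e he => ?_
  obtain ⟨h2, h1, h3⟩ := hc e he
  rw [Mx_mul Q (F₁ ∪ F₂) F₃ hd' hn hcn (fun a => 1 * kil e a) (fun a => 1 * kil e a) (fun _ => 1)
    hb3 ht, Mx_mul Q F₁ F₂ hd hm hcm (fun a => 1 * kil e a) (fun _ => 1) (fun a => 1 * kil e a)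
    hb12 hn1, Matrix.mul_assoc]
  · intro a ha
    ring
  · intro a ha _
    rw [kil_off ha h1]
    ring
  · intro a _ _
    rfl
  · intro a ha
    have h4 : a ∈ dE Q F₃ := by
      rw [← hcn] at ha
      exact (Finset.mem_inter.mp ha).2
    ring
  · intro a _ _
    rfl
  · intro a ha _
    rw [kil_off ha h3]
    ring

/-- **Sandwich.** `L`, `U` arbitrary, the weights are `1` on `S`, the functional is inserted in `S`. -/
theorem Z6D_three {ι κ : Type} [Fintype ι] [Fintype κ] [DecidableEq ι] [DecidableEq κ]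
    {L S U : Finset Φ} (hd : Disjoint L S) (hd' : Disjoint (L ∪ S) U)
    {b : ι → V × V} {t : κ → V × V} (hb : Fam b) (ht : Fam t)
    (hcb : cE Q L S = eds b) (hct : cE Q (L ∪ S) U = eds t) (htL : Disjoint (eds t) (dE Q L))
    (h1 : ∀ a ∈ dE Q S, h a = 1)
    (hc : ∀ a, c a ≠ 0 → a ∈ dE Q S ∧ a ∉ dE Q L ∧ a ∉ dE Q U) :
    Z6D Q (L ∪ S ∪ U) h c = ∑ s' : κ → Bool, ∑ s : ι → Bool,
      Z6 Q L (fun a => h a * pin b s a) * MxD Q S (fun _ => 1) c b t s' s *
        Z6 Q U (fun a => h a * pin t s' a) := by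
  have hbS : ∀ a ∈ eds b, a ∈ dE Q L ∧ a ∈ dE Q S := fun a ha => by
    rw [← hcb] at ha
    exact Finset.mem_inter.mp ha
  have htU : ∀ a ∈ eds t, a ∈ dE Q (L ∪ S) ∧ a ∈ dE Q U := fun a ha => by
    rw [← hct] at ha
    exact Finset.mem_inter.mp ha
  have htS : ∀ a ∈ eds t, a ∈ dE Q S := fun a ha => by
    have h2 := (htU a ha).1
    rw [dE_union, Finset.mem_union] at h2
    rcases h2 with h2 | h2
    · exact absurd h2 (Finset.disjoint_left.mp htL ha)
    · exact h2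
  have hpt : ∀ (s' : κ → Bool), ∀ a ∈ dE Q L, pin t s' a = 1 := fun s' a ha =>
    pin_off s' fun hh => Finset.disjoint_left.mp htL hh ha
  have key : ∀ e, c e ≠ 0 → Z6 Q (L ∪ S ∪ U) (fun a => h a * kil e a) =
      ∑ s' : κ → Bool, ∑ s : ι → Bool, Z6 Q L (fun a => h a * pin b s a) *
        Mx Q S (fun a => 1 * kil e a) b t s' s * Z6 Q U (fun a => h a * pin t s' a) := by
    intro e he
    obtain ⟨h2, h3, h4⟩ := hc e he
    rw [Z6_cut Q (L ∪ S) U hd' ht hct (fun a => h a * kil e a) (fun a => h a * kil e a) h]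
    · refine Finset.sum_congr rfl fun s' _ => ?_
      rw [Z6_cut Q L S hd hb hcb (fun a => h a * kil e a * pin t s' a) h
        (fun a => kil e a * pin t s' a), Finset.sum_mul]
      · refine Finset.sum_congr rfl fun s _ => ?_
        congr 2
        unfold Mx
        refine Z6_congr fun a _ => ?_
        ring
      · intro a ha
        ring
      · intro a ha _
        rw [kil_off ha h3, hpt s' a ha]
        ring
      · intro a ha _
        rw [h1 a ha]
        ring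
    · intro a ha
      rw [h1 a (htS a ha)]
      ring
    · intro a _ _
      rfl
    · intro a ha _
      rw [kil_off ha h4]
      ring
  have hsub : dE Q S ⊆ dE Q (L ∪ S ∪ U) := dE_sub_right.trans dE_sub_left
  rw [Z6D_eq]
  simp_rw [← smul_eq_mul (c _ : ℂ)]
  rw [sum_supp hsub (fun a ha => (hc a ha).1) _ _ key]
  simp_rw [Finset.smul_sum]
  rw [Finset.sum_comm]
  refine Finset.sum_congr rfl fun s' _ => ?_
  rw [Finset.sum_comm]
  refine Finset.sum_congr rfl fun s _ => ?_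
  rw [MxD_eq, Matrix.sum_apply, Finset.mul_sum, Finset.sum_mul]
  refine Finset.sum_congr rfl fun e _ => ?_
  rw [Matrix.smul_apply, smul_eq_mul, smul_eq_mul]
  ring

/-! ## Domination -/

theorem fw_nonneg_real (x : ZMod 4 → Bool) : ∃ r : ℝ, 0 ≤ r ∧ fw x = (r : ℂ) := by
  unfold fw
  split_ifs
  · exact ⟨Real.sqrt 3, Real.sqrt_nonneg _, rfl⟩
  · exact ⟨0, le_rfl, by simp⟩
  · exact ⟨0, le_rfl, by simp⟩
  · exact ⟨1, zero_le_one, by simp⟩

theorem prod_nonneg_real {α : Type} (s : Finset α) {g : α → ℂ} (hg : ∀ a ∈ s, ∃ r : ℝ, 0 ≤ r ∧ g a = r) :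
    ∃ r : ℝ, 0 ≤ r ∧ ∏ a ∈ s, g a = r := by
  classical
  induction s using Finset.induction_on with
  | empty => exact ⟨1, zero_le_one, by simp⟩
  | insert a s ha ih =>
    obtain ⟨r, hr, e⟩ := ih fun b hb => hg b (Finset.mem_insert_of_mem hb)
    obtain ⟨r', hr', e'⟩ := hg a (Finset.mem_insert_self a s)
    exact ⟨r' * r, mul_nonneg hr' hr, by rw [Finset.prod_insert ha, e, e']; push_cast; rfl⟩

/-- **Domination** of an inserted functional by exponentials. -/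
theorem norm_Z6D_le (Q : QC V Φ) (F : Finset Φ) {g : V × V → ℂ}
    (hg : ∀ a, ∃ r : ℝ, 0 ≤ r ∧ g a = r) (c : V × V → ℝ) :
    ‖Z6D Q F g c‖ ≤ (Z6 Q F (fun a => g a * (Real.exp (c a) : ℂ))).re +
      (Z6 Q F (fun a => g a * (Real.exp (-(c a)) : ℂ))).re := by
  unfold Z6D Z6
  rw [Complex.re_sum, Complex.re_sum, ← Finset.sum_add_distrib]
  refine (norm_sum_le _ _).trans (Finset.sum_le_sum fun α _ => ?_)
  obtain ⟨w, hw, e1⟩ := prod_nonneg_real F fun f _ =>
    fw_nonneg_real (fun k => decide (sd Q f k ∈ α))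
  obtain ⟨r, hr, e2⟩ := prod_nonneg_real α fun a _ => hg a
  rw [Finset.prod_mul_distrib, Finset.prod_mul_distrib, e1, e2, ← Complex.ofReal_prod,
    ← Complex.ofReal_prod, ← Real.exp_sum, ← Real.exp_sum, Finset.sum_neg_distrib]
  set x : ℝ := ∑ a ∈ α, c a with hx
  have e3 : ((w : ℂ) * (r : ℂ) * (x : ℂ)) = ((w * r * x : ℝ) : ℂ) := by push_cast; rfl
  have e4 : ((w : ℂ) * ((r : ℂ) * ((Real.exp x : ℝ) : ℂ))).re = w * r * Real.exp x := by
    rw [← Complex.ofReal_mul, ← Complex.ofReal_mul, Complex.ofReal_re]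
    ring
  have e5 : ((w : ℂ) * ((r : ℂ) * ((Real.exp (-x) : ℝ) : ℂ))).re = w * r * Real.exp (-x) := by
    rw [← Complex.ofReal_mul, ← Complex.ofReal_mul, Complex.ofReal_re]
    ring
  rw [e3, e4, e5, Complex.norm_real, Real.norm_eq_abs, abs_mul, abs_of_nonneg (mul_nonneg hw hr),
    ← mul_add]
  apply mul_le_mul_of_nonneg_left _ (mul_nonneg hw hr)
  have a1 := Real.add_one_le_exp x
  have a2 := Real.add_one_le_exp (-x)
  have a3 := Real.exp_pos x
  have a4 := Real.exp_pos (-x)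
  rcases abs_cases x with ⟨h5, _⟩ | ⟨h5, _⟩ <;> rw [h5] <;> linarith

theorem pin_nonneg_real {ι : Type} (m : ι → V × V) (s : ι → Bool) (a : V × V) :
    ∃ r : ℝ, 0 ≤ r ∧ pin m s a = r := by
  unfold pin
  split_ifs
  · exact ⟨0, le_rfl, by simp⟩
  · exact ⟨1, zero_le_one, by simp⟩

theorem norm_MxD_le {ι κ : Type} (Q : QC V Φ) (F : Finset Φ) (c : V × V → ℝ) (b : ι → V × V)
    (t : κ → V × V) (s' : κ → Bool) (s : ι → Bool) :
    ‖MxD Q F (fun _ => 1) c b t s' s‖ ≤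
      (Mx Q F (fun a => (Real.exp (c a) : ℂ)) b t s' s).re +
        (Mx Q F (fun a => (Real.exp (-(c a)) : ℂ)) b t s' s).re := by
  unfold MxD Mx
  have hg : ∀ a, ∃ r : ℝ, 0 ≤ r ∧ (1 : ℂ) * pin b s a * pin t s' a = r := by
    intro a
    obtain ⟨r, hr, e⟩ := pin_nonneg_real b s a
    obtain ⟨r', hr', e'⟩ := pin_nonneg_real t s' a
    exact ⟨r * r', mul_nonneg hr hr', by rw [e, e']; push_cast; ring⟩
  refine (norm_Z6D_le Q F hg c).trans (le_of_eq ?_)
  have e1 : (fun a => (1 : ℂ) * pin b s a * pin t s' a * ((Real.exp (c a) : ℝ) : ℂ)) =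
      fun a => ((Real.exp (c a) : ℝ) : ℂ) * pin b s a * pin t s' a := by
    funext a
    ring
  have e2 : (fun a => (1 : ℂ) * pin b s a * pin t s' a * ((Real.exp (-(c a)) : ℝ) : ℂ)) =
      fun a => ((Real.exp (-(c a)) : ℝ) : ℂ) * pin b s a * pin t s' a := by
    funext a
    ring
  rw [e1, e2]

end

end Pool.Agent.SixB
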