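import Pool.Agent.Lib.SixB.S3bPoly

/-!
# Arcs outside a solid: two values of the turning

`S` solid (a disc of faces of the plane with boundary word `w`), `P` a set of faces disjoint from `S`.
`ext_two`: an arc of `P` from the side `y` of `S` to the side `x` of `S`, `x` before `y` in `w`, has
turning `4 - (y.2 - x.2 - 2)` or `-4 - (y.2 - x.2 - 2)`, if any two sides of `S` of different colours
can be joined by a strand inside `S` (`Join S`).
-/

set_option autoImplicit false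

namespace Pool.Agent.SixB

open Pool.Agent.Perc Pool.Agent.Perc.Q

/-- Any two boundary sides of different colours can be joined by a strand inside `S`. -/
def Join (S : Set (ℤ × ℤ)) : Prop :=
  ∀ e e' : (ℤ × ℤ) × (ℤ × ℤ), e ∈ Sides ZQ S → e.swap ∉ Sides ZQ S → e' ∈ Sides ZQ S →
    e'.swap ∉ Sides ZQ S → (e.1.1 + e.1.2 - (e'.1.1 + e'.1.2)) % 2 ≠ 0 →
    ∃ (ω : ℤ × ℤ → Bool) (n : ℕ) (t : ℤ), Walk ZQ ω S Set.univ n e e'.swap t

section

variable {ω : ℤ × ℤ → Bool} {F P S : Set (ℤ × ℤ)} {G : Set ((ℤ × ℤ) × (ℤ × ℤ))} {n : ℕ}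
  {a b e : (ℤ × ℤ) × (ℤ × ℤ)} {t : ℤ} {w u v : List (((ℤ × ℤ) × (ℤ × ℤ)) × ℤ)}
  {x y : ((ℤ × ℤ) × (ℤ × ℤ)) × ℤ}

theorem st_par (h : St ZQ ω F a b t) : (a.1.1 + a.1.2 - (b.1.1 + b.1.2)) % 2 = 0 := by
  obtain ⟨f, -, k, rfl, rfl, -⟩ := h
  obtain ⟨x, y⟩ := f
  have key : ∀ β : Bool, (mt β k + 1 = k ∨ mt β k + 1 = k + 2) := by
    intro β
    revert β k
    decide
  have h1 : ((sd ZQ (x, y) (mt (ω (x, y)) k)).swap).1 = ZQ.c (x, y) (mt (ω (x, y)) k + 1) := rfl
  rw [h1]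
  have h2 : (sd ZQ (x, y) k).1 = ZQ.c (x, y) k := rfl
  rw [h2]
  rcases key (ω (x, y)) with h | h
  · rw [h]; simp
  · rw [h]
    rcases k4_cases k with rfl | rfl | rfl | rfl
    · show (x + y - (x + 1 + (y + 1))) % 2 = 0; omega
    · show (x + 1 + y - (x + (y + 1))) % 2 = 0; omega
    · show (x + 1 + (y + 1) - (x + y)) % 2 = 0; omega
    · show (x + (y + 1) - (x + 1 + y)) % 2 = 0; omega

/-- The left corners of a strand have the same colour. -/
theorem walk_par (h : Walk ZQ ω F G n a b t) : (a.1.1 + a.1.2 - (b.1.1 + b.1.2)) % 2 = 0 := by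
  induction h with
  | one h => exact st_par h
  | tail _ _ h' ih =>
    have := st_par h'
    omega

theorem side_par (h : e ∈ Sides ZQ S) : (e.1.1 + e.1.2 - (e.2.1 + e.2.2)) % 2 ≠ 0 := by
  obtain ⟨⟨x, y⟩, -, k, rfl⟩ := h
  rcases k4_cases k with rfl | rfl | rfl | rfl
  · show (x + y - (x + 1 + y)) % 2 ≠ 0; omega
  · show (x + 1 + y - (x + 1 + (y + 1))) % 2 ≠ 0; omega
  · show (x + 1 + (y + 1) - (x + (y + 1))) % 2 ≠ 0; omega
  · show (x + (y + 1) - (x + y)) % 2 ≠ 0; omega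

/-- An arc outside of `S` and a strand inside `S` which joins its ends: together they have turning
`4` or `-4`. -/
theorem close_arc {ω' : ℤ × ℤ → Bool} {G' : Set ((ℤ × ℤ) × (ℤ × ℤ))} {n' : ℕ} {t' : ℤ}
    (hd : Disjoint P S) (h : Walk ZQ ω P G n a b t) (h' : Walk ZQ ω' S G' n' b a t') :
    t + t' = 4 ∨ t + t' = -4 := by
  classical
  set ωc : ℤ × ℤ → Bool := fun f => if f ∈ S then ω' f else ω f with hωc
  have h1 : Walk ZQ ωc P (Glued ZQ P) n a b t := by
    refine (h.interGlued.mono subset_rfl Set.inter_subset_right).congr ?_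
    intro f hf
    simp only [hωc]
    rw [if_neg (fun hf' => Set.disjoint_left.1 hd hf hf')]
  have h2 : Walk ZQ ωc S (Glued ZQ S) n' b a t' := by
    refine (h'.interGlued.mono subset_rfl Set.inter_subset_right).congr ?_
    intro f hf
    simp only [hωc]
    rw [if_pos hf]
  have ha1 : a ∈ Sides ZQ P := h.first'
  have ha2 : a.swap ∈ Sides ZQ S := h'.last'
  have hb1 : b ∈ Sides ZQ S := h'.first'
  have h3 : Walk ZQ ωc Set.univ {a}ᶜ n a b t := by
    refine h1.mono (Set.subset_univ _) ?_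
    rintro c hc rfl
    exact sides_disj hd hc.2 ha2
  have h4 : Walk ZQ ωc Set.univ {a}ᶜ n' b a t' := by
    refine h2.mono (Set.subset_univ _) ?_
    rintro c hc rfl
    exact sides_disj hd ha1 hc.1
  refine t1_plane ωc a _ _ (h3.comp ?_ h4)
  rintro rfl
  exact sides_disj hd ha1 hb1

/-- **TWO VALUES** for an arc outside the solid `S`, from the side `y` to the earlier side `x`. -/
theorem ext_two (hJ : Join S) (hD : Disc ZQ S (Glued ZQ S) w) (hw : w = u ++ x :: v) (hy : y ∈ v)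
    (hd : Disjoint P S) (h : Walk ZQ ω P G n y.1.swap x.1 t) :
    t = 4 - (y.2 - x.2 - 2) ∨ t = -4 - (y.2 - x.2 - 2) := by
  have hxw : x ∈ w := by rw [hw]; simp
  have hyw : y ∈ w := by rw [hw]; simp [hy]
  obtain ⟨hx1, hx2⟩ := hD.bd hxw
  obtain ⟨hy1, hy2⟩ := hD.bd hyw
  have hp := walk_par h
  have hp' := side_par hy1
  have hp2 : (y.1.swap.1.1 + y.1.swap.1.2 - (x.1.1.1 + x.1.1.2)) % 2 = 0 := hp
  rw [Prod.fst_swap] at hp2
  obtain ⟨ω', n', t', h'⟩ := hJ x.1 y.1 hx1 hx2 hy1 hy2 (by omega)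
  have h2 := hD.walk_fwd hw hy (h'.interGlued.mono subset_rfl Set.inter_subset_right)
  have h3 := close_arc hd h h'
  omega

/-- The same for the reversed arc. -/
theorem ext_two' (hJ : Join S) (hD : Disc ZQ S (Glued ZQ S) w) (hw : w = u ++ x :: v) (hy : y ∈ v)
    (hd : Disjoint P S) (h : Walk ZQ ω P G n x.1.swap y.1 t) :
    t = (y.2 - x.2 - 2) + 4 ∨ t = (y.2 - x.2 - 2) - 4 := by
  have h1 := (h.mono subset_rfl (Set.subset_univ _)).rev (fun _ _ => Set.mem_univ _)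
  rw [Prod.swap_swap] at h1
  have h2 := ext_two hJ hD hw hy hd h1
  omega

end

end Pool.Agent.SixB
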