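import Pool.Agent.Lib.SixB.S0Plane
import Pool.Agent.Lib.SixB.S3cExt

/-!
# 6BD step 3: two boundary sides of a thick set of faces can be joined

`JoinS S`: for all boundary sides `e`, `e'` of `S` (directed into `S`) whose first corners have different
colours there is a configuration of `S` whose strand enters through `e` and leaves through `e'`.
* `joinS_small`: rectangles `m × n`, `m, n ∈ {2, 3}` (by computation).
* `JoinS.glue`: two disjoint sets with two consecutive common unit sides.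
* `joinS_RS`: all rectangles with sides at least `2`.
* `joinS_I`: a rectangle with two notches.
-/

set_option autoImplicit false

namespace Pool.Agent.SixB.Join

open Pool.Agent.Perc.Q Pool.Agent.Perc

/-! ## Computation in small rectangles -/

/-- side through which the strand leaves -/
def mtN (b : Bool) (k : ℕ) : ℕ := if b == (k % 2 == 0) then (k + 1) % 4 else (k + 3) % 4

/-- neighbour of the face `(i, j)` across the side `k` -/
def nb (i j k : ℕ) : ℕ × ℕ :=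
  if k = 0 then (i, j - 1) else if k = 1 then (i + 1, j) else if k = 2 then (i, j + 1) else (i - 1, j)

/-- the faces are `(i, j)`, `1 ≤ i ≤ m`, `1 ≤ j ≤ n` -/
def inB (m n i j : ℕ) : Bool := Nat.ble 1 i && Nat.ble i m && Nat.ble 1 j && Nat.ble j n

/-- value of the face `(i, j)` in the configuration `c` -/
def bit (m c i j : ℕ) : Bool := Nat.testBit c ((i - 1) + m * (j - 1))

/-- The strand which enters the face `(i, j)` through the side `k`. -/
def run (m n c : ℕ) : ℕ → ℕ → ℕ → ℕ → ℕ × ℕ × ℕ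
  | 0, _, _, _ => (0, 0, 0)
  | fuel + 1, i, j, k =>
    if inB m n (nb i j (mtN (bit m c i j) k)).1 (nb i j (mtN (bit m c i j) k)).2 then
      run m n c fuel (nb i j (mtN (bit m c i j) k)).1 (nb i j (mtN (bit m c i j) k)).2
        ((mtN (bit m c i j) k + 2) % 4)
    else (i, j, mtN (bit m c i j) k)

/-- the boundary sides -/
def sds (m n : ℕ) : List (ℕ × ℕ × ℕ) :=
  ((List.range m).flatMap fun i => [(i + 1, 1, 0), (i + 1, n, 2)]) ++
    ((List.range n).flatMap fun j => [(m, j + 1, 1), (1, j + 1, 3)])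

/-- colour of the first corner -/
def par (a : ℕ × ℕ × ℕ) : Bool := (a.1 + a.2.1 + a.2.2) % 2 == 0

/-- some configurations -/
def cfgs (m n : ℕ) : List ℕ :=
  if m = 2 then (if n = 2 then [0, 9, 15, 3, 5, 10, 12] else [0, 35, 61, 15, 21, 12, 40, 44, 48, 51])
  else if n = 2 then [0, 35, 63, 49, 6, 9, 18, 19, 36, 45, 50]
  else [0, 261, 443, 63, 219, 7, 73, 292, 432, 448, 306, 390]

/-- all pairs of sides with different colours are joined -/
def chk (m n : ℕ) : Bool :=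
  (sds m n).all fun a => (sds m n).all fun b => (par a == par b) ||
    (cfgs m n).any fun c => run m n c 18 a.1 a.2.1 a.2.2 == b

theorem chk22 : chk 2 2 = true := by decide +kernel
theorem chk32 : chk 3 2 = true := by decide +kernel
theorem chk23 : chk 2 3 = true := by decide +kernel
theorem chk33 : chk 3 3 = true := by decide +kernel

/-! ## From the computation to strands -/

/-- the face `(i, j)` in the plane, the rectangle has the lower left corner `(x, y)` -/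
def fc (x y : ℤ) (i j : ℕ) : ℤ × ℤ := (x + i - 1, y + j - 1)

/-- the configuration `c` in the plane -/
def om (m c : ℕ) (x y : ℤ) : ℤ × ℤ → Bool := fun f =>
  bit m c (f.1 - x + 1).toNat (f.2 - y + 1).toNat

theorem om_fc (m c : ℕ) (x y : ℤ) (i j : ℕ) : om m c x y (fc x y i j) = bit m c i j := by
  unfold om fc
  congr 1
  · show (x + (i : ℤ) - 1 - x + 1).toNat = i
    omega
  · show (y + (j : ℤ) - 1 - y + 1).toNat = j
    omega

theorem mtN_lt (b : Bool) (k : ℕ) : mtN b k < 4 := by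
  unfold mtN
  split_ifs <;> exact Nat.mod_lt _ (by norm_num)

theorem mtN_cast (b : Bool) {k : ℕ} (hk : k < 4) : ((mtN b k : ℕ) : ZMod 4) = mt b (k : ZMod 4) := by
  interval_cases k <;> cases b <;> decide

/-- crossing a side -/
theorem sd_nb (x y : ℤ) {i j k : ℕ} (hk : k < 4) (hi : 1 ≤ i) (hj : 1 ≤ j) :
    sd ZQ (fc x y (nb i j k).1 (nb i j k).2) (((k + 2) % 4 : ℕ) : ZMod 4) =
      (sd ZQ (fc x y i j) (k : ZMod 4)).swap := by
  obtain ⟨i, rfl⟩ : ∃ i', i = i' + 1 := ⟨i - 1, by omega⟩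
  obtain ⟨j, rfl⟩ : ∃ j', j = j' + 1 := ⟨j - 1, by omega⟩
  have h0 : ((0 : ℕ) : ZMod 4) = 0 := rfl
  have h1 : ((1 : ℕ) : ZMod 4) = 1 := rfl
  have h2 : ((2 : ℕ) : ZMod 4) = 2 := rfl
  have h3 : ((3 : ℕ) : ZMod 4) = 3 := rfl
  unfold fc
  interval_cases k
  · show sd ZQ (x + ((i + 1 : ℕ) : ℤ) - 1, y + ((j + 1 - 1 : ℕ) : ℤ) - 1) ((2 : ℕ) : ZMod 4) = _
    rw [h2, h0, sd_ZQ2, sd_ZQ0]
    push_cast
    ext <;> simp <;> ring
  · show sd ZQ (x + ((i + 1 + 1 : ℕ) : ℤ) - 1, y + ((j + 1 : ℕ) : ℤ) - 1) ((3 : ℕ) : ZMod 4) = _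
    rw [h3, h1, sd_ZQ3, sd_ZQ1]
    push_cast
    ext <;> simp <;> ring
  · show sd ZQ (x + ((i + 1 : ℕ) : ℤ) - 1, y + ((j + 1 + 1 : ℕ) : ℤ) - 1) ((0 : ℕ) : ZMod 4) = _
    rw [h2, h0, sd_ZQ2, sd_ZQ0]
    push_cast
    ext <;> simp <;> ring
  · show sd ZQ (x + ((i + 1 - 1 : ℕ) : ℤ) - 1, y + ((j + 1 : ℕ) : ℤ) - 1) ((1 : ℕ) : ZMod 4) = _
    rw [h3, h1, sd_ZQ3, sd_ZQ1]
    push_cast
    ext <;> simp <;> ring

theorem inB_iff {m n i j : ℕ} : inB m n i j = true ↔ (1 ≤ i ∧ i ≤ m) ∧ 1 ≤ j ∧ j ≤ n := by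
  unfold inB
  simp only [Bool.and_eq_true, Nat.ble_eq]
  tauto

theorem fc_mem {m n : ℕ} (x y : ℤ) {i j : ℕ} (h : inB m n i j = true) :
    fc x y i j ∈ RS x (x + m) y (y + n) := by
  obtain ⟨⟨h1, h2⟩, h3, h4⟩ := inB_iff.mp h
  unfold fc RS
  refine ⟨?_, ?_, ?_, ?_⟩ <;> simp only <;> omega

/-- the computed strand -/
theorem walk_run (m n c : ℕ) (x y : ℤ) : ∀ (fuel i j k : ℕ) (r : ℕ × ℕ × ℕ), inB m n i j = true →
    k < 4 → run m n c fuel i j k = r → r ≠ (0, 0, 0) →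
    ∃ N t, Walk ZQ (om m c x y) (RS x (x + m) y (y + n)) Set.univ N (sd ZQ (fc x y i j) (k : ZMod 4))
      (sd ZQ (fc x y r.1 r.2.1) (r.2.2 : ZMod 4)).swap t := by
  intro fuel
  induction fuel with
  | zero =>
    intro i j k r _ _ hr h0
    exact absurd hr.symm h0
  | succ fuel ih =>
    intro i j k r hB hk hr h0
    have hst : St ZQ (om m c x y) (RS x (x + m) y (y + n)) (sd ZQ (fc x y i j) (k : ZMod 4))
        (sd ZQ (fc x y i j) ((mtN (bit m c i j) k : ℕ) : ZMod 4)).swap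
        (qk (om m c x y (fc x y i j)) (k : ZMod 4)) := by
      refine ⟨fc x y i j, fc_mem x y hB, (k : ZMod 4), rfl, ?_, rfl⟩
      rw [om_fc, mtN_cast _ hk]
    rw [run] at hr
    split_ifs at hr with h1
    · obtain ⟨N, t, hw⟩ := ih _ _ _ r h1 (Nat.mod_lt _ (by norm_num)) hr h0
      obtain ⟨⟨hi, -⟩, hj, -⟩ := inB_iff.mp hB
      rw [sd_nb x y (mtN_lt _ _) hi hj] at hw
      exact ⟨_, _, (Walk.one hst).comp (Set.mem_univ _) hw⟩
    · subst hr
      exact ⟨1, _, Walk.one hst⟩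

/-! ## Joinable sets -/

/-- Two boundary sides whose first corners have different colours can be joined. -/
def JoinS (S : Set (ℤ × ℤ)) : Prop :=
  ∀ e ∈ Sides ZQ S, ∀ e' ∈ Sides ZQ S, e.swap ∉ Sides ZQ S → e'.swap ∉ Sides ZQ S →
    (e.1.1 + e.1.2 - (e'.1.1 + e'.1.2)) % 2 = 1 →
    ∃ (ω : ℤ × ℤ → Bool) (n : ℕ) (t : ℤ), Walk ZQ ω S Set.univ n e e'.swap t

/-- the boundary sides are complete -/
def chkS (m n : ℕ) : Bool :=
  (List.range 4).all fun i => (List.range 4).all fun j => (List.range 4).all fun k =>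
    (! inB m n i j) || inB m n (nb i j k).1 (nb i j k).2 || decide ((i, j, k) ∈ sds m n)

theorem chkS22 : chkS 2 2 = true := by decide +kernel
theorem chkS32 : chkS 3 2 = true := by decide +kernel
theorem chkS23 : chkS 2 3 = true := by decide +kernel
theorem chkS33 : chkS 3 3 = true := by decide +kernel

theorem sds_mem {m n : ℕ} (hm : m ∈ [2, 3]) (hn : n ∈ [2, 3]) {i j k : ℕ} (hi : i < 4) (hj : j < 4)
    (hk : k < 4) (h : inB m n i j = true) (h' : inB m n (nb i j k).1 (nb i j k).2 = false) :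
    (i, j, k) ∈ sds m n := by
  have hc : chkS m n = true := by
    simp only [List.mem_cons, List.not_mem_nil, or_false] at hm hn
    rcases hm with rfl | rfl <;> rcases hn with rfl | rfl
    · exact chkS22
    · exact chkS23
    · exact chkS32
    · exact chkS33
  unfold chkS at hc
  have h1 := List.all_eq_true.mp hc i (List.mem_range.mpr hi)
  have h2 := List.all_eq_true.mp h1 j (List.mem_range.mpr hj)
  have h3 := List.all_eq_true.mp h2 k (List.mem_range.mpr hk)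
  simp only [h, h', Bool.not_true, Bool.false_or, Bool.or_false] at h3
  exact of_decide_eq_true h3

theorem chk_all : ∀ m ∈ [2, 3], ∀ n ∈ [2, 3], chk m n = true := by
  intro m hm n hn
  simp only [List.mem_cons, List.not_mem_nil, or_false] at hm hn
  rcases hm with rfl | rfl <;> rcases hn with rfl | rfl
  · exact chk22
  · exact chk23
  · exact chk32
  · exact chk33

theorem par_sd (x y : ℤ) (i j : ℕ) {k : ℕ} (hk : k < 4) :
    ((sd ZQ (fc x y i j) (k : ZMod 4)).1.1 + (sd ZQ (fc x y i j) (k : ZMod 4)).1.2 -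
      (x + y + ((i + j + k : ℕ) : ℤ))) % 2 = 0 := by
  have h0 : ((0 : ℕ) : ZMod 4) = 0 := rfl
  have h1 : ((1 : ℕ) : ZMod 4) = 1 := rfl
  have h2 : ((2 : ℕ) : ZMod 4) = 2 := rfl
  have h3 : ((3 : ℕ) : ZMod 4) = 3 := rfl
  unfold fc
  interval_cases k
  · rw [h0, sd_ZQ0]
    simp only
    omega
  · rw [h1, sd_ZQ1]
    simp only
    omega
  · rw [h2, sd_ZQ2]
    simp only
    omega
  · rw [h3, sd_ZQ3]
    simp only
    omega

theorem joinS_small {m n : ℕ} (hm : m ∈ [2, 3]) (hn : n ∈ [2, 3]) (x y : ℤ) :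
    JoinS (RS x (x + m) y (y + n)) := by
  have hm' : m ≤ 3 := by
    simp only [List.mem_cons, List.not_mem_nil, or_false] at hm
    omega
  have hn' : n ≤ 3 := by
    simp only [List.mem_cons, List.not_mem_nil, or_false] at hn
    omega
  -- coordinates of a boundary side
  have key : ∀ e ∈ Sides ZQ (RS x (x + m) y (y + n)), e.swap ∉ Sides ZQ (RS x (x + m) y (y + n)) →
      ∃ i j k : ℕ, inB m n i j = true ∧ k < 4 ∧ e = sd ZQ (fc x y i j) (k : ZMod 4) ∧
        (i, j, k) ∈ sds m n := by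
    rintro e ⟨f, hf, k, rfl⟩ he
    obtain ⟨h1, h2, h3, h4⟩ := hf
    have hB : inB m n (f.1 - x + 1).toNat (f.2 - y + 1).toNat = true :=
      inB_iff.mpr ⟨⟨by omega, by omega⟩, by omega, by omega⟩
    have hfc : fc x y (f.1 - x + 1).toNat (f.2 - y + 1).toNat = f := by
      unfold fc
      ext
      · simp only
        omega
      · simp only
        omega
    obtain ⟨l, hl, hkl⟩ : ∃ l : ℕ, l < 4 ∧ (l : ZMod 4) = k :=
      ⟨k.val, ZMod.val_lt k, ZMod.natCast_zmod_val k⟩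
    refine ⟨_, _, l, hB, hl, by rw [hfc, hkl], ?_⟩
    refine sds_mem hm hn (by omega) (by omega) hl hB ?_
    by_contra hcon
    rw [Bool.not_eq_false] at hcon
    apply he
    obtain ⟨⟨hi, -⟩, hj, -⟩ := inB_iff.mp hB
    refine ⟨_, fc_mem x y hcon, (((l + 2) % 4 : ℕ) : ZMod 4), ?_⟩
    rw [sd_nb x y hl hi hj, hfc, hkl]
  intro e he e' he' hes hes' hc
  obtain ⟨i, j, k, h1, h2, rfl, h3⟩ := key e he hes
  obtain ⟨i', j', k', h1', h2', rfl, h3'⟩ := key e' he' hes'
  have hchk := chk_all m hm n hn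
  unfold chk at hchk
  rw [List.all_eq_true] at hchk
  have h4 := hchk _ h3
  rw [List.all_eq_true] at h4
  have h5 := h4 _ h3'
  rw [Bool.or_eq_true] at h5
  have hne : ¬ (par (i, j, k) == par (i', j', k')) = true := by
    intro h6
    have h7 : par (i, j, k) = par (i', j', k') := by simpa using h6
    unfold par at h7
    have h8 : (i + j + k) % 2 = 0 ↔ (i' + j' + k') % 2 = 0 := by
      constructor
      · intro h9
        have : ((i + j + k) % 2 == 0) = true := by simp [h9]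
        simp only [] at h7
        rw [this] at h7
        simpa using h7.symm
      · intro h9
        have : ((i' + j' + k') % 2 == 0) = true := by simp [h9]
        simp only [] at h7
        rw [this] at h7
        simpa using h7
    have h9 := par_sd x y i j h2
    have h10 := par_sd x y i' j' h2'
    omega
  rcases h5 with h5 | h5
  · exact absurd h5 hne
  · obtain ⟨c, -, hc2⟩ := List.any_eq_true.mp h5
    have hc3 : run m n c 18 i j k = (i', j', k') := by simpa using hc2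
    obtain ⟨N, t, hw⟩ := walk_run m n c x y 18 i j k _ h1 h2 hc3 (by
      intro h
      have := (inB_iff.mp h1').1.1
      have h6 := (Prod.mk.inj h).1
      omega)
    exact ⟨_, N, t, hw⟩

/-- GLUING along two consecutive unit sides `(p, q)`, `(q, r)`. -/
theorem JoinS.glue {S T : Set (ℤ × ℤ)} (hS : JoinS S) (hT : JoinS T) (hd : Disjoint S T)
    {p q r : ℤ × ℤ} (h1 : (p, q) ∈ Sides ZQ S) (h2 : (q, r) ∈ Sides ZQ S)
    (h3 : (q, p) ∈ Sides ZQ T) (h4 : (r, q) ∈ Sides ZQ T)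
    (hpq : (p.1 + p.2 - (q.1 + q.2)) % 2 = 1) (hqr : (q.1 + q.2 - (r.1 + r.2)) % 2 = 1) :
    JoinS (S ∪ T) := by
  have hnS : ∀ e, e ∈ Sides ZQ T → e ∉ Sides ZQ S := fun e he he' => sides_disj hd he' he
  -- from `S` to `T`
  have key : ∀ e ∈ Sides ZQ S, ∀ e' ∈ Sides ZQ T, e.swap ∉ Sides ZQ S → e'.swap ∉ Sides ZQ T →
      (e.1.1 + e.1.2 - (e'.1.1 + e'.1.2)) % 2 = 1 →
      ∃ (ω : ℤ × ℤ → Bool) (n : ℕ) (t : ℤ), Walk ZQ ω (S ∪ T) Set.univ n e e'.swap t := by
    intro e he e' he' hes hes' hc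
    -- the common side
    obtain ⟨a, b, hab, hba, hc1, hc2⟩ : ∃ a b : ℤ × ℤ, (a, b) ∈ Sides ZQ S ∧ (b, a) ∈ Sides ZQ T ∧
        (e.1.1 + e.1.2 - (a.1 + a.2)) % 2 = 1 ∧ (b.1 + b.2 - (e'.1.1 + e'.1.2)) % 2 = 1 := by
      by_cases h : (e.1.1 + e.1.2 - (p.1 + p.2)) % 2 = 1
      · exact ⟨p, q, h1, h3, h, by omega⟩
      · exact ⟨q, r, h2, h4, by omega, by omega⟩
    obtain ⟨ω1, n1, t1, w1⟩ := hS e he (a, b) hab hes (hnS _ hba) hc1
    obtain ⟨ω2, n2, t2, w2⟩ := hT (b, a) hba e' he' (fun h => hnS _ h hab) hes' hc2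
    classical
    let ω : ℤ × ℤ → Bool := fun f => if f ∈ S then ω1 f else ω2 f
    have e1 : ∀ f ∈ S, ω1 f = ω f := fun f hf => (if_pos hf).symm
    have e2 : ∀ f ∈ T, ω2 f = ω f := fun f hf =>
      (if_neg fun h => Set.disjoint_left.mp hd h hf).symm
    exact ⟨ω, _, _, ((w1.congr e1).mono Set.subset_union_left subset_rfl).comp (Set.mem_univ _)
      ((w2.congr e2).mono Set.subset_union_right subset_rfl)⟩
  intro e he e' he' hes hes' hc
  rw [sides_union] at he he' hes hes'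
  rcases he with he | he <;> rcases he' with he' | he'
  · obtain ⟨ω, n, t, w⟩ := hS e he e' he' (fun h => hes (Or.inl h)) (fun h => hes' (Or.inl h)) hc
    exact ⟨ω, n, t, w.mono Set.subset_union_left subset_rfl⟩
  · exact key e he e' he' (fun h => hes (Or.inl h)) (fun h => hes' (Or.inr h)) hc
  · obtain ⟨ω, n, t, w⟩ := key e' he' e he (fun h => hes' (Or.inl h)) (fun h => hes (Or.inr h))
      (by omega)
    have := w.rev (fun _ _ => Set.mem_univ _)
    rw [Prod.swap_swap] at this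
    exact ⟨ω, n, _, this⟩
  · obtain ⟨ω, n, t, w⟩ := hT e he e' he' (fun h => hes (Or.inr h)) (fun h => hes' (Or.inr h)) hc
    exact ⟨ω, n, t, w.mono Set.subset_union_right subset_rfl⟩

/-! ## Rectangles -/

theorem RS_h {x₀ x₁ x₂ y₀ y₁ : ℤ} (h1 : x₀ ≤ x₁) (h2 : x₁ ≤ x₂) :
    RS x₀ x₂ y₀ y₁ = RS x₀ x₁ y₀ y₁ ∪ RS x₁ x₂ y₀ y₁ := by
  ext ⟨x, y⟩
  simp only [RS, Set.mem_union, Set.mem_ofPred_eq]
  omega

theorem RS_v {x₀ x₁ y₀ y₁ y₂ : ℤ} (h1 : y₀ ≤ y₁) (h2 : y₁ ≤ y₂) :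
    RS x₀ x₁ y₀ y₂ = RS x₀ x₁ y₀ y₁ ∪ RS x₀ x₁ y₁ y₂ := by
  ext ⟨x, y⟩
  simp only [RS, Set.mem_union, Set.mem_ofPred_eq]
  omega

/-- gluing along a piece of a vertical line, `S` on the left -/
theorem JoinS.glueV {S T : Set (ℤ × ℤ)} (hS : JoinS S) (hT : JoinS T) (hd : Disjoint S T) {x y : ℤ}
    (h1 : (x - 1, y) ∈ S) (h2 : (x - 1, y + 1) ∈ S) (h3 : (x, y) ∈ T) (h4 : (x, y + 1) ∈ T) :
    JoinS (S ∪ T) := by
  refine hS.glue hT hd (p := (x, y)) (q := (x, y + 1)) (r := (x, y + 2))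
    ⟨_, h1, 1, ?_⟩ ⟨_, h2, 1, ?_⟩ ⟨_, h3, 3, ?_⟩ ⟨_, h4, 3, ?_⟩ ?_ ?_
  · rw [sd_ZQ1]; ext <;> simp
  · rw [sd_ZQ1]; ext <;> simp; ring
  · rw [sd_ZQ3]
  · rw [sd_ZQ3]; ext <;> simp; ring
  · simp only; omega
  · simp only; omega

/-- gluing along a piece of a horizontal line, `S` below -/
theorem JoinS.glueH {S T : Set (ℤ × ℤ)} (hS : JoinS S) (hT : JoinS T) (hd : Disjoint S T) {x y : ℤ}
    (h1 : (x, y - 1) ∈ S) (h2 : (x + 1, y - 1) ∈ S) (h3 : (x, y) ∈ T) (h4 : (x + 1, y) ∈ T) :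
    JoinS (S ∪ T) := by
  refine hS.glue hT hd (p := (x + 2, y)) (q := (x + 1, y)) (r := (x, y))
    ⟨_, h2, 2, ?_⟩ ⟨_, h1, 2, ?_⟩ ⟨_, h4, 0, ?_⟩ ⟨_, h3, 0, ?_⟩ ?_ ?_
  · rw [sd_ZQ2]; ext <;> simp; ring
  · rw [sd_ZQ2]; ext <;> simp
  · rw [sd_ZQ0]; ext <;> simp; ring
  · rw [sd_ZQ0]
  · simp only; omega
  · simp only; omega

/-- thin rectangles -/
theorem joinS_thin {n : ℕ} (hn : n ∈ [2, 3]) (y : ℤ) : ∀ (m : ℕ) (x : ℤ), 2 ≤ m →
    JoinS (RS x (x + m) y (y + n)) := by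
  intro m
  induction m using Nat.strong_induction_on with
  | _ m ih =>
    intro x hm
    have hn2 : 2 ≤ n := by
      simp only [List.mem_cons, List.not_mem_nil, or_false] at hn
      omega
    rcases Nat.lt_or_ge m 4 with h | h
    · refine joinS_small ?_ hn x y
      have : m = 2 ∨ m = 3 := by omega
      rcases this with rfl | rfl <;> decide
    · have h1 := joinS_small (m := 2) (n := n) (by decide) hn x y
      have h2 := ih (m - 2) (by omega) (x + 2) (by omega)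
      have e2 : x + 2 + ((m - 2 : ℕ) : ℤ) = x + m := by omega
      rw [e2] at h2
      have e1 : x + ((2 : ℕ) : ℤ) = x + 2 := rfl
      rw [e1] at h1
      rw [RS_h (x₁ := x + 2) (by omega) (by omega)]
      refine h1.glueV h2 ?_ (x := x + 2) (y := y) ?_ ?_ ?_ ?_
      · rw [Set.disjoint_left]
        rintro ⟨p, q⟩ h3 h4
        simp only [RS, Set.mem_ofPred_eq] at h3 h4
        omega
      all_goals simp only [RS, Set.mem_ofPred_eq]; omega

/-- **Rectangles.** -/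
theorem joinS_RS {x₀ x₁ y₀ y₁ : ℤ} (hx : x₀ + 2 ≤ x₁) (hy : y₀ + 2 ≤ y₁) :
    JoinS (RS x₀ x₁ y₀ y₁) := by
  obtain ⟨m, rfl⟩ : ∃ m : ℕ, x₁ = x₀ + m := ⟨(x₁ - x₀).toNat, by omega⟩
  obtain ⟨n, rfl⟩ : ∃ n : ℕ, y₁ = y₀ + n := ⟨(y₁ - y₀).toNat, by omega⟩
  have hm : 2 ≤ m := by omega
  have hn : 2 ≤ n := by omega
  clear hx hy
  induction n using Nat.strong_induction_on generalizing y₀ with
  | _ n ih =>
    rcases Nat.lt_or_ge n 4 with h | h
    · refine joinS_thin ?_ y₀ m x₀ hm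
      have : n = 2 ∨ n = 3 := by omega
      rcases this with rfl | rfl <;> decide
    · have h1 := joinS_thin (n := 2) (by decide) y₀ m x₀ hm
      have h2 := ih (n - 2) (by omega) (y₀ := y₀ + 2) (by omega)
      have e2 : y₀ + 2 + ((n - 2 : ℕ) : ℤ) = y₀ + n := by omega
      rw [e2] at h2
      have e1 : y₀ + ((2 : ℕ) : ℤ) = y₀ + 2 := rfl
      rw [e1] at h1
      rw [RS_v (y₁ := y₀ + 2) (by omega) (by omega)]
      refine h1.glueH h2 ?_ (x := x₀) (y := y₀ + 2) ?_ ?_ ?_ ?_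
      · rw [Set.disjoint_left]
        rintro ⟨p, q⟩ h3 h4
        simp only [RS, Set.mem_ofPred_eq] at h3 h4
        omega
      all_goals simp only [RS, Set.mem_ofPred_eq]; omega

/-! ## The rectangle with two notches -/

/-- The rectangle `[X₀, X₁] × [y - c, y + c]` without `[X₀, l] × [y - a, y + a]` and
`[r, X₁] × [y - a, y + a]`. -/
def IS (X₀ l r X₁ y a c : ℤ) : Set (ℤ × ℤ) :=
  (((RS l r (y - c) (y + c) ∪ RS r X₁ (y - c) (y - a)) ∪ RS r X₁ (y + a) (y + c)) ∪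
    RS X₀ l (y + a) (y + c)) ∪ RS X₀ l (y - c) (y - a)

theorem joinS_IS {X₀ l r X₁ y a c : ℤ} (h1 : X₀ + 2 ≤ l) (h2 : l + 2 ≤ r) (h3 : r + 2 ≤ X₁)
    (ha : 0 ≤ a) (hc : a + 2 ≤ c) : JoinS (IS X₀ l r X₁ y a c) := by
  have e0 : JoinS (RS l r (y - c) (y + c)) := joinS_RS h2 (by omega)
  have e1 : JoinS (RS r X₁ (y - c) (y - a)) := joinS_RS h3 (by omega)
  have e2 : JoinS (RS r X₁ (y + a) (y + c)) := joinS_RS h3 (by omega)
  have e3 : JoinS (RS X₀ l (y + a) (y + c)) := joinS_RS h1 (by omega)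
  have e4 : JoinS (RS X₀ l (y - c) (y - a)) := joinS_RS h1 (by omega)
  have f1 := e0.glueV e1 (by
    rw [Set.disjoint_left]
    rintro ⟨p, q⟩ h3 h4
    simp only [RS, Set.mem_ofPred_eq] at h3 h4
    omega) (x := r) (y := y - c) (by simp only [RS, Set.mem_ofPred_eq]; omega)
      (by simp only [RS, Set.mem_ofPred_eq]; omega) (by simp only [RS, Set.mem_ofPred_eq]; omega)
      (by simp only [RS, Set.mem_ofPred_eq]; omega)
  have f2 := f1.glueV e2 (by
    rw [Set.disjoint_left]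
    rintro ⟨p, q⟩ h3 h4
    simp only [RS, Set.mem_ofPred_eq, Set.mem_union] at h3 h4
    omega) (x := r) (y := y + a) (Or.inl (by simp only [RS, Set.mem_ofPred_eq]; omega))
      (Or.inl (by simp only [RS, Set.mem_ofPred_eq]; omega)) (by simp only [RS, Set.mem_ofPred_eq]; omega)
      (by simp only [RS, Set.mem_ofPred_eq]; omega)
  have f3 := e3.glueV f2 (by
    rw [Set.disjoint_left]
    rintro ⟨p, q⟩ h4 h3
    simp only [RS, Set.mem_ofPred_eq, Set.mem_union] at h3 h4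
    omega) (x := l) (y := y + a) (by simp only [RS, Set.mem_ofPred_eq]; omega)
      (by simp only [RS, Set.mem_ofPred_eq]; omega)
      (Or.inl (Or.inl (by simp only [RS, Set.mem_ofPred_eq]; omega)))
      (Or.inl (Or.inl (by simp only [RS, Set.mem_ofPred_eq]; omega)))
  rw [Set.union_comm] at f3
  have f4 := e4.glueV f3 (by
    rw [Set.disjoint_left]
    rintro ⟨p, q⟩ h4 h3
    simp only [RS, Set.mem_ofPred_eq, Set.mem_union] at h3 h4
    omega) (x := l) (y := y - c) (by simp only [RS, Set.mem_ofPred_eq]; omega)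
      (by simp only [RS, Set.mem_ofPred_eq]; omega)
      (Or.inl (Or.inl (Or.inl (by simp only [RS, Set.mem_ofPred_eq]; omega))))
      (Or.inl (Or.inl (Or.inl (by simp only [RS, Set.mem_ofPred_eq]; omega))))
  rw [Set.union_comm] at f4
  exact f4

/-- the form of S3cExt -/
theorem JoinS.join {S : Set (ℤ × ℤ)} (h : JoinS S) : Join S :=
  fun e e' he hes he' hes' hc => h e he e' he' hes hes' (by omega)

end Pool.Agent.SixB.Join
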