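import Pool.Agent.Lib.SixB.S4Move
import Pool.Agent.Lib.SixB.S3AtlDefs
import Pool.Agent.Lib.SixB.CAArc

/-!
# 6BD, step 3: the local counts `sN` of the kinds `SK`

* `Kd.mo o v`: the motion of the plane which maps the standard wedge (`o = 0`, `v = 0`) to the wedge `o`, `v`;
  `Kd.sN_mo`: `sN` is invariant, `Kd.av_sN`: its law does not depend on `o`, `v`.
* `Kd.dep_sN`: `sN K m o v r` depends on the faces of `Wdg m o v r` only; `Kd.sN_mono`: it increases with `r`;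
  `Kd.sN_zero`: it is `0` for `r = 0`.
-/

set_option autoImplicit false
set_option linter.unusedSimpArgs false

namespace Pool.Agent.SixB.Kd

open Pool.Agent.Perc Pool.Agent.Perc.Q Finset

noncomputable section

variable {m : ℕ} {o : ZMod 4} {v : ℤ × ℤ} {r r' : ℕ} {ω : Cfg} {K : SK}

/-! ### Explicit forms -/

theorem mem_Bx {f : ℤ × ℤ} : f ∈ Bx v r ↔
    v.1 - r ≤ f.1 ∧ f.1 < v.1 + r ∧ v.2 - r ≤ f.2 ∧ f.2 < v.2 + r := by
  unfold Bx
  rw [mem_product, mem_Ico, mem_Ico]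
  tauto

theorem mem_Wdg {f : ℤ × ℤ} : f ∈ Wdg m o v r ↔ f ∈ Bx v r ∧ (quad v f - o).val < m := by
  unfold Wdg
  rw [mem_filter]

theorem Wdg_mono (h : r' ≤ r) : Wdg m o v r' ⊆ Wdg m o v r := by
  intro f hf
  rw [mem_Wdg, mem_Bx] at hf ⊢
  refine ⟨?_, hf.2⟩
  omega

theorem Wdg_zero : Wdg m o v 0 = ∅ := by
  ext f
  rw [mem_Wdg, mem_Bx]
  simp only [Finset.notMem_empty, iff_false]
  omega

theorem mem_wOut {a : (ℤ × ℤ) × (ℤ × ℤ)} : a ∈ wOut o v r ↔
    ∃ t : ℕ, t < r ∧ (v + (t : ℤ) • dz o, v + ((t : ℤ) + 1) • dz o) = a := by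
  unfold wOut
  simp only [mem_image, mem_range]

theorem mem_wIn {a : (ℤ × ℤ) × (ℤ × ℤ)} : a ∈ wIn o v r ↔
    ∃ t : ℕ, t < r ∧ (v + ((t : ℤ) + 1) • dz o, v + (t : ℤ) • dz o) = a := by
  unfold wIn
  simp only [mem_image, mem_range]

theorem wOut_mono (h : r' ≤ r) : wOut o v r' ⊆ wOut o v r := by
  intro a ha
  obtain ⟨t, ht, he⟩ := mem_wOut.1 ha
  exact mem_wOut.2 ⟨t, by omega, he⟩

theorem wIn_mono (h : r' ≤ r) : wIn o v r' ⊆ wIn o v r := by
  intro a ha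
  obtain ⟨t, ht, he⟩ := mem_wIn.1 ha
  exact mem_wIn.2 ⟨t, by omega, he⟩

theorem wOut_zero : wOut o v 0 = ∅ := rfl

theorem wIn_zero : wIn o v 0 = ∅ := rfl

/-! ### Motions -/

/-- A motion which maps wedges to wedges. -/
structure MW (M : Mot) (m : ℕ) (o o' : ZMod 4) (v v' : ℤ × ℤ) : Prop where
  im : ∀ r, M.im (Wdg m o v r) = Wdg m o' v' r
  wI : ∀ r, (wIn (o + m) v r).image M.e = wIn (o' + m) v' r
  wO : ∀ r, (wOut o v r).image M.e = wOut o' v' r
  e : M.e (eS o v) = eS o' v'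

theorem MW.comp {M N : Mot} {o' o'' : ZMod 4} {v' v'' : ℤ × ℤ} (h : MW M m o o' v v')
    (h' : MW N m o' o'' v' v'') : MW (M.comp N) m o o'' v v'' where
  im r := by rw [Mot.comp_im, h.im, h'.im]
  wI r := by
    rw [← h'.wI, ← h.wI, image_image]
    rfl
  wO r := by
    rw [← h'.wO, ← h.wO, image_image]
    rfl
  e := by rw [Mot.comp_e, h.e, h'.e]

theorem MW.one : MW Mot.one m o o v v where
  im r := by
    unfold Mot.im
    exact image_id
  wI r := by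
    have h : (Mot.one.e : DZ → DZ) = id := rfl
    rw [h, image_id]
  wO r := by
    have h : (Mot.one.e : DZ → DZ) = id := rfl
    rw [h, image_id]
  e := rfl

theorem MW.tr (u : ℤ × ℤ) : MW (Mot.tr u) m o o v (v + u) where
  im r := by
    ext f
    rw [Mot.mem_im, Mot.tr_psi_symm, mem_Wdg, mem_Wdg, mem_Bx, mem_Bx]
    have : quad v (f - u) = quad (v + u) f := by
      unfold quad
      simp only [Prod.fst_sub, Prod.snd_sub, Prod.fst_add, Prod.snd_add, le_sub_iff_add_le]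
    rw [this]
    simp only [Prod.fst_sub, Prod.snd_sub, Prod.fst_add, Prod.snd_add]
    constructor <;> rintro ⟨h1, h2⟩ <;> refine ⟨?_, h2⟩ <;> omega
  wI r := by
    unfold wIn
    rw [image_image]
    refine image_congr fun t _ => ?_
    show ((Mot.tr u).φ _, (Mot.tr u).φ _) = _
    rw [Mot.tr_phi, Mot.tr_phi, add_right_comm, add_right_comm v _ u]
  wO r := by
    unfold wOut
    rw [image_image]
    refine image_congr fun t _ => ?_
    show ((Mot.tr u).φ _, (Mot.tr u).φ _) = _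
    rw [Mot.tr_phi, Mot.tr_phi, add_right_comm, add_right_comm v _ u]
  e := by
    show ((Mot.tr u).φ _, (Mot.tr u).φ _) = _
    rw [Mot.tr_phi, Mot.tr_phi, add_right_comm]
    rfl

theorem dz_rot (k : ZMod 4) : Mot.rot.φ (dz k) = dz (k + 1) := by
  rw [Mot.rot_phi]
  revert k
  decide

theorem rot_smul (t : ℤ) (p : ℤ × ℤ) : Mot.rot.φ (t • p) = t • Mot.rot.φ p := by
  rw [Mot.rot_phi, Mot.rot_phi]
  ext <;> simp

theorem MW.rot : MW Mot.rot m o (o + 1) v (Mot.rot.φ v) where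
  im r := by
    ext f
    rw [Mot.mem_im, Mot.rot_psi_symm, mem_Wdg, mem_Wdg, mem_Bx, mem_Bx, Mot.rot_phi]
    have : quad v (f.2, -f.1 - 1) + 1 = quad (-v.2, v.1) f := by
      unfold quad
      simp only
      have e1 : v.2 ≤ -f.1 - 1 ↔ ¬ (-v.2 ≤ f.1) := by omega
      by_cases h1 : v.1 ≤ f.2 <;> by_cases h2 : -v.2 ≤ f.1 <;> simp only [e1, h1, h2, if_true,
        if_false, not_true, not_false_iff] <;> decide
    rw [← this]
    have e : quad v (f.2, -f.1 - 1) + 1 - (o + 1) = quad v (f.2, -f.1 - 1) - o := by ring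
    rw [e]
    simp only
    constructor <;> rintro ⟨h1, h2⟩ <;> refine ⟨?_, h2⟩ <;> omega
  wI r := by
    unfold wIn
    rw [image_image]
    refine image_congr fun t _ => ?_
    show (Mot.rot.φ _, Mot.rot.φ _) = _
    rw [Mot.rot_add, Mot.rot_add, rot_smul, rot_smul, dz_rot, add_right_comm]
  wO r := by
    unfold wOut
    rw [image_image]
    refine image_congr fun t _ => ?_
    show (Mot.rot.φ _, Mot.rot.φ _) = _
    rw [Mot.rot_add, Mot.rot_add, rot_smul, rot_smul, dz_rot]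
  e := by
    show (Mot.rot.φ _, Mot.rot.φ _) = _
    rw [Mot.rot_add, dz_rot]
    rfl

theorem MW.rotn (k : ℕ) : MW (Mot.rotn k) m 0 k (0, 0) (0, 0) := by
  induction k with
  | zero =>
    have : ((0 : ℕ) : ZMod 4) = 0 := by norm_num
    rw [this]
    exact MW.one
  | succ k ih =>
    have := ih.comp (MW.rot (m := m) (o := (k : ZMod 4)) (v := (0, 0)))
    have e : Mot.rot.φ (0, 0) = (0, 0) := by
      rw [Mot.rot_phi]
      rfl
    rw [e] at this
    have e2 : ((k + 1 : ℕ) : ZMod 4) = (k : ZMod 4) + 1 := by push_cast; rfl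
    rw [e2]
    exact this

/-- The motion of the standard wedge to the wedge `o`, `v`. -/
def mo (o : ZMod 4) (v : ℤ × ℤ) : Mot := Mot.std o.val v

theorem mo_mw : MW (mo o v) m 0 o (0, 0) v := by
  have h := (MW.rotn (m := m) o.val).comp (MW.tr (m := m) (o := ((o.val : ℕ) : ZMod 4))
    (v := (0, 0)) v)
  have e : ((0, 0) : ℤ × ℤ) + v = v := by
    ext <;> simp
  have e2 : ((o.val : ℕ) : ZMod 4) = o := ZMod.natCast_zmod_val o
  rw [e, e2] at h
  exact h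

/-- Invariance of the counts. -/
theorem sN_mw {M : Mot} {o' : ZMod 4} {v' : ℤ × ℤ} (h : MW M m o o' v v') (K : SK) (r : ℕ)
    (ω : Cfg) : sN K m o' v' r (M.cf ω) = sN K m o v r ω := by
  have hcard : ∀ (A B : Finset ((ℤ × ℤ) × (ℤ × ℤ))),
      ((A.image M.e).filter fun a => mate ZQ (M.im (Wdg m o v r)) (M.cf ω) a ∈ B.image M.e).card =
      (A.filter fun a => mate ZQ (Wdg m o v r) ω a ∈ B).card := by
    intro A B
    rw [filter_image, card_image_of_injective _ M.e.injective]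
    congr 1
    refine filter_congr fun a _ => ?_
    rw [M.mate_e, mem_image]
    constructor
    · rintro ⟨b, hb, he⟩
      rwa [← M.e.injective he]
    · intro h1
      exact ⟨_, h1, rfl⟩
  cases K with
  | ver J =>
    unfold sN Nwd
    rw [← h.im, ← h.wI, ← h.wO]
    exact hcard _ _
  | e =>
    unfold sN
    simp only
    rw [← h.im, ← h.wI, ← h.wO, ← h.e, M.mate_e, ← image_union]
    congr 1
    rw [mem_image, eq_iff_iff]
    constructor
    · rintro ⟨b, hb, he⟩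
      rwa [← M.e.injective he]
    · intro h1
      exact ⟨_, h1, rfl⟩
  | em =>
    unfold sN
    simp only
    rw [← h.im, ← h.wI, ← h.wO, ← h.e]
    have e1 : ((wOut o v r).image M.e).erase (M.e (eS o v)) =
        ((wOut o v r).erase (eS o v)).image M.e := (image_erase M.e.injective _ _).symm
    rw [e1]
    exact hcard _ _

theorem dep_sN (K : SK) (m : ℕ) (o : ZMod 4) (v : ℤ × ℤ) (r : ℕ) :
    Dep (Wdg m o v r : Set (ℤ × ℤ)) (sN K m o v r) := by
  intro ω ω' h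
  have h' : ∀ f ∈ Wdg m o v r, ω f = ω' f := fun f hf => h f (mem_coe.2 hf)
  have h2 : mate ZQ (Wdg m o v r) ω = mate ZQ (Wdg m o v r) ω' := by
    funext a
    exact Cell.mate_congr h' a
  cases K with
  | ver J =>
    unfold sN Nwd
    rw [h2]
  | e =>
    unfold sN
    rw [h2]
  | em =>
    unfold sN
    rw [h2]

/-- The law of the counts does not depend on the position. -/
theorem av_sN (g : ℕ → ℝ) (K : SK) (m : ℕ) (o : ZMod 4) (v : ℤ × ℤ) (r : ℕ) :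
    av (Wdg m o v r) (fun ω => g (sN K m o v r ω)) =
      av (Wdg m 0 (0, 0) r) fun ω => g (sN K m 0 (0, 0) r ω) := by
  have h := mo_mw (m := m) (o := o) (v := v)
  rw [← h.im r]
  refine (mo o v).av_move (fun ω ω' hω => ?_) fun ω => ?_
  · simp only [dep_sN K m 0 (0, 0) r ω ω' hω]
  · rw [sN_mw h]

theorem sF_eq (K : SK) (m : ℕ) (o : ZMod 4) (v : ℤ × ℤ) (r : ℕ) {W : Finset (ℤ × ℤ)}
    (hW : Wdg m o v r ⊆ W) : av W (fun ω => sT K ^ sN K m o v r ω) = sF K m r := by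
  rw [av_dep (fun ω ω' hω => by simp only [dep_sN K m o v r ω ω' hω]) hW,
    av_sN (fun n => sT K ^ n)]
  rfl

theorem sN_zero (K : SK) (m : ℕ) (o : ZMod 4) (v : ℤ × ℤ) (ω : Cfg) : sN K m o v 0 ω = 0 := by
  cases K with
  | ver J =>
    unfold sN Nwd
    rw [wIn_zero]
    rfl
  | e =>
    unfold sN
    simp only
    rw [wIn_zero, wOut_zero]
    simp
  | em =>
    unfold sN
    simp only
    rw [wIn_zero]
    rfl

/-! ### The walls are boundary sides -/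

theorem val_lt {x : ZMod 4} : (x.val < 1 ↔ x = 0) ∧ (x.val < 2 ↔ x = 0 ∨ x = 1) ∧
    (x.val < 3 ↔ x = 0 ∨ x = 1 ∨ x = 2) := by
  revert x
  decide

theorem quad_zero {f : ℤ × ℤ} : (quad (0, 0) f = 0 ↔ 0 ≤ f.1 ∧ 0 ≤ f.2) ∧
    (quad (0, 0) f = 1 ↔ f.1 < 0 ∧ 0 ≤ f.2) ∧ (quad (0, 0) f = 2 ↔ f.1 < 0 ∧ f.2 < 0) ∧
    (quad (0, 0) f = 3 ↔ 0 ≤ f.1 ∧ f.2 < 0) := by
  have d01 : (0 : ZMod 4) ≠ 1 := by decide
  have d02 : (0 : ZMod 4) ≠ 2 := by decide
  have d03 : (0 : ZMod 4) ≠ 3 := by decide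
  have d12 : (1 : ZMod 4) ≠ 2 := by decide
  have d13 : (1 : ZMod 4) ≠ 3 := by decide
  have d23 : (2 : ZMod 4) ≠ 3 := by decide
  unfold quad
  by_cases h1 : (0 : ℤ) ≤ f.1 <;> by_cases h2 : (0 : ℤ) ≤ f.2 <;>
    simp [h1, h2, d01, d01.symm, d02, d02.symm, d03, d03.symm, d12, d12.symm,
      d13, d13.symm, d23, d23.symm] <;>
    omega

/-- The faces of the standard wedge. -/
theorem mem_Wdg0 {f : ℤ × ℤ} (hm0 : 1 ≤ m) (hm : m ≤ 3) : f ∈ Wdg m 0 (0, 0) r ↔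
    (-(r : ℤ) ≤ f.1 ∧ f.1 < r ∧ -(r : ℤ) ≤ f.2 ∧ f.2 < r) ∧
      ((0 ≤ f.1 ∧ 0 ≤ f.2) ∨ (2 ≤ m ∧ f.1 < 0 ∧ 0 ≤ f.2) ∨ (3 ≤ m ∧ f.1 < 0 ∧ f.2 < 0)) := by
  rw [mem_Wdg, mem_Bx, sub_zero]
  obtain ⟨q0, q1, q2, q3⟩ := quad_zero (f := f)
  obtain ⟨v1, v2, v3⟩ := val_lt (x := quad (0, 0) f)
  have hm' : m = 1 ∨ m = 2 ∨ m = 3 := by omega
  rcases hm' with rfl | rfl | rfl
  · rw [v1, q0]
    simp only
    omega
  · rw [v2, q0, q1]
    simp only
    omega
  · rw [v3, q0, q1, q2]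
    simp only
    omega

theorem dz_vals : dz 0 = (1, 0) ∧ dz 1 = (0, 1) ∧ dz 2 = (-1, 0) ∧ dz 3 = (0, -1) := by decide

theorem wOut_sub0 (hm0 : 1 ≤ m) (hm : m ≤ 3) : wOut 0 (0, 0) r ⊆ bS ZQ (Wdg m 0 (0, 0) r) := by
  intro a ha
  obtain ⟨t, ht, rfl⟩ := mem_wOut.1 ha
  refine LSide.mem_bS (Or.inl ?_)
  rw [dz_vals.1, mem_Wdg0 hm0 hm, mem_Wdg0 hm0 hm]
  simp only [Prod.smul_mk, smul_eq_mul, mul_one, mul_zero, Prod.mk_add_mk, zero_add, add_zero]
  refine ⟨trivial, ?_, ?_⟩ <;> omega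

theorem wIn_sub0 (hm0 : 1 ≤ m) (hm : m ≤ 3) :
    wIn (0 + m) (0, 0) r ⊆ bS ZQ (Wdg m 0 (0, 0) r) := by
  intro a ha
  obtain ⟨t, ht, rfl⟩ := mem_wIn.1 ha
  have hm' : m = 1 ∨ m = 2 ∨ m = 3 := by omega
  rcases hm' with rfl | rfl | rfl
  · have e : ((0 : ZMod 4) + ((1 : ℕ) : ZMod 4)) = 1 := by decide
    rw [e, dz_vals.2.1]
    refine LSide.mem_bS (Or.inr (Or.inr (Or.inr ?_)))
    rw [mem_Wdg0 hm0 hm, mem_Wdg0 hm0 hm]
    simp only [Prod.smul_mk, smul_eq_mul, mul_one, mul_zero, Prod.mk_add_mk, zero_add, add_zero,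
      Prod.mk.injEq, true_and, and_true]
    refine ⟨?_, ?_, ?_⟩ <;> omega
  · have e : ((0 : ZMod 4) + ((2 : ℕ) : ZMod 4)) = 2 := by decide
    rw [e, dz_vals.2.2.1]
    refine LSide.mem_bS (Or.inl ?_)
    rw [mem_Wdg0 hm0 hm, mem_Wdg0 hm0 hm]
    simp only [Prod.smul_mk, smul_eq_mul, mul_one, mul_zero, Prod.mk_add_mk, zero_add, add_zero,
      Prod.mk.injEq, true_and, and_true]
    refine ⟨?_, ?_, ?_⟩ <;> omega
  · have e : ((0 : ZMod 4) + ((3 : ℕ) : ZMod 4)) = 3 := by decide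
    rw [e, dz_vals.2.2.2]
    refine LSide.mem_bS (Or.inr (Or.inl ?_))
    rw [mem_Wdg0 hm0 hm, mem_Wdg0 hm0 hm]
    simp only [Prod.smul_mk, smul_eq_mul, mul_one, mul_zero, Prod.mk_add_mk, zero_add, add_zero,
      Prod.mk.injEq, true_and, and_true]
    refine ⟨?_, ?_, ?_⟩ <;> omega

theorem wOut_sub (hm0 : 1 ≤ m) (hm : m ≤ 3) : wOut o v r ⊆ bS ZQ (Wdg m o v r) := by
  have h := mo_mw (m := m) (o := o) (v := v)
  rw [← h.im, ← h.wO, Mot.bS_e]
  exact image_subset_image (wOut_sub0 hm0 hm)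

theorem wIn_sub (hm0 : 1 ≤ m) (hm : m ≤ 3) : wIn (o + m) v r ⊆ bS ZQ (Wdg m o v r) := by
  have h := mo_mw (m := m) (o := o) (v := v)
  rw [← h.im, ← h.wI, Mot.bS_e]
  exact image_subset_image (wIn_sub0 hm0 hm)

/-! ### Monotonicity -/

/-- A wall side of the small box with the mate on the walls. -/
theorem mate_box (hm0 : 1 ≤ m) (hm : m ≤ 3) (h : r' ≤ r) {a : (ℤ × ℤ) × (ℤ × ℤ)}
    (ha : a ∈ wIn (o + m) v r' ∪ wOut o v r')
    (hb : mate ZQ (Wdg m o v r') ω a ∈ wIn (o + m) v r' ∪ wOut o v r') :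
    mate ZQ (Wdg m o v r) ω a = mate ZQ (Wdg m o v r') ω a := by
  have hs : ∀ s : ℕ, wIn (o + m) v s ∪ wOut o v s ⊆ bS ZQ (Wdg m o v s) := fun s =>
    union_subset (wIn_sub hm0 hm) (wOut_sub hm0 hm)
  have hmono : wIn (o + m) v r' ∪ wOut o v r' ⊆ wIn (o + m) v r ∪ wOut o v r :=
    union_subset_union (wIn_mono h) (wOut_mono h)
  exact (mate_loc (Wdg_mono h) (hs _ ha) (mem_bS.1 (hs _ (hmono ha))).2 (hs _ (hmono hb))).1

theorem eS_mem (hr : 0 < r) : eS o v ∈ wOut o v r := by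
  refine mem_wOut.2 ⟨0, hr, ?_⟩
  unfold eS
  simp

theorem sN_mono (K : SK) (hm0 : 1 ≤ m) (hm : m ≤ 3) (h : r' ≤ r) (ω : Cfg) :
    sN K m o v r' ω ≤ sN K m o v r ω := by
  cases K with
  | ver J =>
    unfold sN Nwd
    refine card_le_card fun a ha => ?_
    rw [mem_filter] at ha ⊢
    rw [mate_box hm0 hm h (mem_union_left _ ha.1) (mem_union_right _ ha.2)]
    exact ⟨wIn_mono h ha.1, wOut_mono h ha.2⟩
  | e =>
    unfold sN
    simp only
    rcases Nat.eq_zero_or_pos r' with h0 | h0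
    · subst h0
      rw [wIn_zero, wOut_zero]
      simp
    · split_ifs with h1 h2 h2
      · exact le_rfl
      · exfalso
        apply h2
        rw [mate_box hm0 hm h (mem_union_right _ (eS_mem h0)) h1]
        exact union_subset_union (wIn_mono h) (wOut_mono h) h1
      · exact Nat.zero_le _
      · exact le_rfl
  | em =>
    unfold sN
    simp only
    refine card_le_card fun a ha => ?_
    rw [mem_filter] at ha ⊢
    rw [mate_box hm0 hm h (mem_union_left _ ha.1) (mem_union_right _ (mem_of_mem_erase ha.2))]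
    exact ⟨wIn_mono h ha.1, erase_subset_erase _ (wOut_mono h) ha.2⟩

end

end Pool.Agent.SixB.Kd
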