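import Pool.Agent.Lib.SixB.S3KindA
import Pool.Agent.Lib.SixB.S3Chart

/-!
# 6BD, step 3: increments of the local counts in the standard position

The counts of the kinds `ver` and `em` as numbers of strands (`NA` of S3Count) from a part `PO` of the ray `0` to the
ray `m`; `Kd.sM` is the increment of the chain: `Kd.sN_le`, `Kd.dep_sM`, `Kd.sM_moment`.
-/

set_option autoImplicit false
set_option linter.unusedSimpArgs false

namespace Pool.Agent.SixB.Kd

open Pool.Agent.Perc Pool.Agent.PercD Pool.Agent.PercN Pool.Agent.Perc.Q Finset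
open Pool.Agent.SixB.Tilt Pool.Agent.SixB.Wd

noncomputable section

variable {m : ℕ} {r r' j : ℕ} {ω : Cfg} {K : SK} {PO : UE → Prop}

theorem box_eq (hm0 : 1 ≤ m) (hm : m ≤ 3) (r j : ℕ) :
    Wdg m 0 (0, 0) (r / 2 ^ j) = wB m 0 r j := by
  ext f
  rw [mem_Wdg0 hm0 hm, mem_wB, mem_BR, Wd.mem_Wdg]
  unfold Qd rj
  have hm' : m = 1 ∨ m = 2 ∨ m = 3 := by omega
  rcases hm' with rfl | rfl | rfl <;> norm_num

theorem ray_out (hm0 : 1 ≤ m) (hm : m ≤ 3) {x : (ℤ × ℤ) × (ℤ × ℤ)}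
    (hx : x ∈ bS ZQ (Wdg m 0 (0, 0) r)) : Ray 0 (und x) ↔ x ∈ wOut 0 (0, 0) r := by
  constructor
  · intro h
    obtain ⟨⟨p, q⟩, s⟩ := x
    rcases lside_of_mem_bS hx with ⟨h1, h2, h3⟩ | ⟨h1, h2, h3⟩ | ⟨h1, h2, h3⟩ | ⟨h1, h2, h3⟩ <;>
      simp only at h1 h2 h3 <;> subst h1
    · have e : und ((p, q), (p + 1, q)) = (p, q, false) := by
        unfold und
        simp
      rw [e] at h
      unfold Ray at h
      norm_num at h
      obtain ⟨h4, h5⟩ := h
      subst h4
      rw [mem_Wdg0 hm0 hm] at h2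
      simp only at h2
      refine mem_wOut.2 ⟨p.toNat, by omega, ?_⟩
      rw [dz_vals.1]
      simp only [Prod.smul_mk, smul_eq_mul, mul_one, mul_zero, Prod.mk_add_mk, zero_add, add_zero,
        Prod.mk.injEq, and_true]
      omega
    · exfalso
      have e : und ((p, q), (p, q + 1)) = (p, q, true) := by
        unfold und
        simp
      rw [e] at h
      unfold Ray at h
      norm_num at h
    · exfalso
      have e : und ((p, q), (p - 1, q)) = (p - 1, q, false) := by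
        unfold und
        rw [if_neg (by simp only; omega)]
        simp
      rw [e] at h
      unfold Ray at h
      norm_num at h
      rw [mem_Wdg0 hm0 hm] at h2
      simp only at h2
      omega
    · exfalso
      have e : und ((p, q), (p, q - 1)) = (p, q - 1, true) := by
        unfold und
        simp
      rw [e] at h
      unfold Ray at h
      norm_num at h
  · intro h
    obtain ⟨t, ht, rfl⟩ := mem_wOut.1 h
    rw [dz_vals.1]
    simp only [Prod.smul_mk, smul_eq_mul, mul_one, mul_zero, Prod.mk_add_mk, zero_add, add_zero]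
    have e : und (((t : ℤ), (0 : ℤ)), ((t : ℤ) + 1, (0 : ℤ))) = ((t : ℤ), 0, false) := by
      unfold und
      simp
    rw [e]
    unfold Ray
    simp

theorem ray_in (hm0 : 1 ≤ m) (hm : m ≤ 3) {x : (ℤ × ℤ) × (ℤ × ℤ)}
    (hx : x ∈ bS ZQ (Wdg m 0 (0, 0) r)) : Ray (0 + m) (und x) ↔ x ∈ wIn (0 + m) (0, 0) r := by
  constructor
  · intro h
    obtain ⟨⟨p, q⟩, s⟩ := x
    have hm' : m = 1 ∨ m = 2 ∨ m = 3 := by omega
    rcases lside_of_mem_bS hx with ⟨h1, h2, h3⟩ | ⟨h1, h2, h3⟩ | ⟨h1, h2, h3⟩ | ⟨h1, h2, h3⟩ <;>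
      simp only at h1 h2 h3 <;> subst h1
    · have e : und ((p, q), (p + 1, q)) = (p, q, false) := by
        unfold und
        simp
      rw [e] at h
      rw [mem_Wdg0 hm0 hm] at h2 h3
      simp only at h2 h3
      rcases hm' with rfl | rfl | rfl <;> unfold Ray at h <;> norm_num at h
      obtain ⟨h4, h5⟩ := h
      subst h4
      have e : ((0 : ZMod 4) + ((2 : ℕ) : ZMod 4)) = 2 := by decide
      rw [e]
      refine mem_wIn.2 ⟨(-p - 1).toNat, by omega, ?_⟩
      rw [dz_vals.2.2.1]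
      simp only [Prod.smul_mk, smul_eq_mul, mul_one, mul_zero, Prod.mk_add_mk, zero_add, add_zero,
        Prod.mk.injEq, and_true]
      omega
    · have e : und ((p, q), (p, q + 1)) = (p, q, true) := by
        unfold und
        simp
      rw [e] at h
      rw [mem_Wdg0 hm0 hm] at h2 h3
      simp only at h2 h3
      rcases hm' with rfl | rfl | rfl <;> unfold Ray at h <;> norm_num at h
      · exfalso
        omega
      · obtain ⟨h4, h5⟩ := h
        subst h4
        have e : ((0 : ZMod 4) + ((3 : ℕ) : ZMod 4)) = 3 := by decide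
        rw [e]
        refine mem_wIn.2 ⟨(-q - 1).toNat, by omega, ?_⟩
        rw [dz_vals.2.2.2]
        simp only [Prod.smul_mk, smul_eq_mul, mul_one, mul_zero, Prod.mk_add_mk, zero_add, add_zero,
          Prod.mk.injEq, true_and]
        omega
    · have e : und ((p, q), (p - 1, q)) = (p - 1, q, false) := by
        unfold und
        rw [if_neg (by simp only; omega)]
        simp
      rw [e] at h
      rw [mem_Wdg0 hm0 hm] at h2 h3
      simp only at h2 h3
      rcases hm' with rfl | rfl | rfl <;> unfold Ray at h <;> norm_num at h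
      exfalso
      omega
    · have e : und ((p, q), (p, q - 1)) = (p, q - 1, true) := by
        unfold und
        simp
      rw [e] at h
      rw [mem_Wdg0 hm0 hm] at h2 h3
      simp only at h2 h3
      rcases hm' with rfl | rfl | rfl <;> unfold Ray at h <;> norm_num at h
      · obtain ⟨h4, h5⟩ := h
        subst h4
        have e : ((0 : ZMod 4) + ((1 : ℕ) : ZMod 4)) = 1 := by decide
        rw [e]
        refine mem_wIn.2 ⟨(q - 1).toNat, by omega, ?_⟩
        rw [dz_vals.2.1]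
        simp only [Prod.smul_mk, smul_eq_mul, mul_one, mul_zero, Prod.mk_add_mk, zero_add, add_zero,
          Prod.mk.injEq, true_and]
        omega
      · exfalso
        omega
  · intro h
    obtain ⟨t, ht, rfl⟩ := mem_wIn.1 h
    have hm' : m = 1 ∨ m = 2 ∨ m = 3 := by omega
    rcases hm' with rfl | rfl | rfl
    · have e : ((0 : ZMod 4) + ((1 : ℕ) : ZMod 4)) = 1 := by decide
      rw [e, dz_vals.2.1]
      simp only [Prod.smul_mk, smul_eq_mul, mul_one, mul_zero, Prod.mk_add_mk, zero_add, add_zero]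
      have e : und (((0 : ℤ), (t : ℤ) + 1), ((0 : ℤ), (t : ℤ))) = (0, (t : ℤ), true) := by
        unfold und
        simp
      rw [e]
      unfold Ray
      norm_num
    · have e : ((0 : ZMod 4) + ((2 : ℕ) : ZMod 4)) = 2 := by decide
      rw [e, dz_vals.2.2.1]
      simp only [Prod.smul_mk, smul_eq_mul, mul_one, mul_zero, Prod.mk_add_mk, zero_add, add_zero]
      have e : und ((((t : ℤ) + 1) * -1, (0 : ℤ)), ((t : ℤ) * -1, (0 : ℤ))) =
          (-(t : ℤ) - 1, 0, false) := by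
        unfold und
        rw [if_neg (by simp only; omega)]
        simp only [Prod.mk.injEq, and_true]
        omega
      rw [e]
      unfold Ray
      norm_num
      omega
    · have e : ((0 : ZMod 4) + ((3 : ℕ) : ZMod 4)) = 3 := by decide
      rw [e, dz_vals.2.2.2]
      simp only [Prod.smul_mk, smul_eq_mul, mul_one, mul_zero, Prod.mk_add_mk, zero_add, add_zero]
      have e : und (((0 : ℤ), ((t : ℤ) + 1) * -1), ((0 : ℤ), (t : ℤ) * -1)) =
          (0, -(t : ℤ) - 1, true) := by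
        unfold und
        rw [if_pos rfl]
        simp only [Prod.mk.injEq, and_true, true_and]
        omega
      rw [e]
      unfold Ray
      norm_num
      omega

/-- The number of strands from the part `PO` of the ray `0` to the ray `m`. -/
def kN (PO : UE → Prop) (m r j : ℕ) (ω : Cfg) : ℕ :=
  NA (Wd.Wdg m 0) PO (Ray (0 + m)) (0, 0) (rj r j) ω

/-- Mates are counted from both ends. -/
theorem card_swap {G : Finset (ℤ × ℤ)} {A B : Finset ((ℤ × ℤ) × (ℤ × ℤ))} (hA : A ⊆ bS ZQ G)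
    (hB : B ⊆ bS ZQ G) (ω : Cfg) :
    (A.filter fun a => mate ZQ G ω a ∈ B).card = (B.filter fun a => mate ZQ G ω a ∈ A).card := by
  refine card_bij (fun a _ => mate ZQ G ω a) (fun a ha => ?_) (fun a ha b hb h => ?_)
    fun b hb => ?_
  · rw [mem_filter] at ha ⊢
    exact ⟨ha.2, by rw [mate_mate (hA ha.1)]; exact ha.1⟩
  · rw [mem_filter] at ha hb
    rw [← mate_mate (ω := ω) (hA ha.1), h, mate_mate (hA hb.1)]
  · rw [mem_filter] at hb
    refine ⟨mate ZQ G ω b, ?_, mate_mate (hB hb.1)⟩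
    rw [mem_filter]
    exact ⟨hb.2, by rw [mate_mate (hB hb.1)]; exact hb.1⟩

open Classical in
theorem card_eq_kN (hm0 : 1 ≤ m) (hm : m ≤ 3) (hPO : ∀ c, PO c → Ray 0 c) (r j : ℕ) (ω : Cfg) :
    ((wIn (0 + m) (0, 0) (r / 2 ^ j)).filter fun a => mate ZQ (Wdg m 0 (0, 0) (r / 2 ^ j)) ω a ∈
      (wOut 0 (0, 0) (r / 2 ^ j)).filter fun b => PO (und b)).card = kN PO m r j ω := by
  have hI := wIn_sub0 (r := r / 2 ^ j) hm0 hm
  have hO := wOut_sub0 (r := r / 2 ^ j) hm0 hm
  have hO' : ((wOut 0 (0, 0) (r / 2 ^ j)).filter fun b => PO (und b)) ⊆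
      bS ZQ (Wdg m 0 (0, 0) (r / 2 ^ j)) := (filter_subset _ _).trans hO
  have hsub : ((Wdg m 0 (0, 0) (r / 2 ^ j) : Finset (ℤ × ℤ)) : Set (ℤ × ℤ)) ⊆ Wd.Wdg m 0 := by
    rw [box_eq hm0 hm, coe_wB]
    exact Set.inter_subset_left
  rw [card_swap hI hO']
  have hch : Rel.QChart ZQ ZQ (Wdg m 0 (0, 0) (r / 2 ^ j)) (id : ℤ × ℤ → ℤ × ℤ) id 0 :=
    ⟨fun f _ g _ k l h => h, fun f _ k => by rw [add_zero]; rfl⟩
  have hbox : Wdg m 0 (0, 0) (r / 2 ^ j) ⊆ BR (0, 0) (rj r j) := by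
    rw [box_eq hm0 hm]
    exact fun f hf => (mem_wB.mp hf).1
  have h := PC.card_ovr (p := (0, 0)) (R := rj r j) hch (Finset.Subset.refl _)
    (PA := PO) (PB := Ray (0 + m))
    (fun c hc => bdF_sub_c hsub (bdF_left hm0 hm (hPO c hc)))
    (fun c hc => bdF_sub_c hsub (bdF_right hm0 hm hc))
    (fun c hc => ray_disj hm0 hm (hPO c hc)) hbox
    (P := (wOut 0 (0, 0) (r / 2 ^ j)).filter fun b => PO (und b))
    (P' := wIn (0 + m) (0, 0) (r / 2 ^ j))
    (fun y => ?_) (fun y => ?_) ω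
  · rw [image_id] at h
    have e : ovr ZQ (Wdg m 0 (0, 0) (r / 2 ^ j))
        ((wOut 0 (0, 0) (r / 2 ^ j)).filter fun b => PO (und b))
        (wIn (0 + m) (0, 0) (r / 2 ^ j)) ω =
        ((wOut 0 (0, 0) (r / 2 ^ j)).filter fun b => PO (und b)).filter fun a =>
          mate ZQ (Wdg m 0 (0, 0) (r / 2 ^ j)) ω a ∈ wIn (0 + m) (0, 0) (r / 2 ^ j) := by
      ext a
      rw [mem_ovr, mem_filter (s := filter _ _)]
      constructor
      · rintro ⟨h1, -, h3⟩
        exact ⟨h1, h3⟩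
      · rintro ⟨h1, h3⟩
        exact ⟨h1, hO' h1, h3⟩
    rw [← e, h]
    unfold kN NA
    rw [box_eq hm0 hm, coe_wB]
    rfl
  · have hmv : PC.mv (id : ℤ × ℤ → ℤ × ℤ) = id := by
      funext a
      rfl
    rw [hmv, mem_filter]
    constructor
    · rintro ⟨h1, h2⟩
      exact ⟨y, hO h1, h2, rfl⟩
    · rintro ⟨x, h1, h2, rfl⟩
      exact ⟨(ray_out hm0 hm h1).1 (hPO _ h2), h2⟩
  · have hmv : PC.mv (id : ℤ × ℤ → ℤ × ℤ) = id := by
      funext a
      rfl
    rw [hmv]
    constructor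
    · intro h1
      exact ⟨y, hI h1, (ray_in hm0 hm (hI h1)).2 h1, rfl⟩
    · rintro ⟨x, h1, h2, rfl⟩
      exact (ray_in hm0 hm h1).1 h2

/-- the ray without its first edge -/
def PE (c : UE) : Prop := Ray 0 c ∧ c ≠ (0, 0, false)

theorem sN_ver (hm0 : 1 ≤ m) (hm : m ≤ 3) (J : ℝ) (r j : ℕ) (ω : Cfg) :
    sN (.ver J) m 0 (0, 0) (r / 2 ^ j) ω = kN (Ray 0) m r j ω := by
  classical
  rw [← card_eq_kN hm0 hm (fun c hc => hc)]
  unfold sN Nwd
  simp only
  congr 1
  refine filter_congr fun a _ => ?_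
  rw [mem_filter]
  constructor
  · intro h
    exact ⟨h, (ray_out hm0 hm (wOut_sub0 hm0 hm h)).2 h⟩
  · intro h
    exact h.1

theorem und_eS : und (eS 0 (0, 0)) = (0, 0, false) := by
  unfold eS und
  rw [dz_vals.1]
  simp

theorem sN_em (hm0 : 1 ≤ m) (hm : m ≤ 3) (r j : ℕ) (ω : Cfg) :
    sN .em m 0 (0, 0) (r / 2 ^ j) ω = kN PE m r j ω := by
  classical
  rw [← card_eq_kN hm0 hm (fun c hc => hc.1)]
  unfold sN
  simp only
  congr 1
  refine filter_congr fun a _ => ?_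
  rw [mem_filter, mem_erase]
  constructor
  · rintro ⟨h1, h2⟩
    refine ⟨h2, (ray_out hm0 hm (wOut_sub0 hm0 hm h2)).2 h2, fun h3 => h1 ?_⟩
    have h4 : 0 < r / 2 ^ j := by
      obtain ⟨t, ht, -⟩ := mem_wOut.1 h2
      omega
    exact PC.und_bS_inj (wOut_sub0 hm0 hm h2) (wOut_sub0 hm0 hm (eS_mem h4)) (h3.trans und_eS.symm)
  · rintro ⟨h2, h3⟩
    refine ⟨?_, h2⟩
    rintro h1
    rw [h1] at h3
    exact h3.2 und_eS

/-! ### Increments -/

/-- The increment. -/
def kM (PO : UE → Prop) (m r j : ℕ) (ω : Cfg) : ℕ :=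
  if rj r (j + 2) = 0 then kN PO m r j ω
  else MC (Wd.Wdg m 0) PO (Ray (0 + m)) (0, 0) (rj r (j + 2)) (rj r (j + 1)) (rj r j) ω

theorem dep_kN (PO : UE → Prop) (m r j : ℕ) : Dep (wB m 0 r j : Set (ℤ × ℤ)) (kN PO m r j) := by
  rw [coe_wB]
  exact depN_NA _ _ _ _ _

theorem kN_le (hm0 : 1 ≤ m) (hm : m ≤ 3) (hPO : ∀ c, PO c → Ray 0 c) (r j : ℕ) (ω : Cfg) :
    kN PO m r j ω ≤ kN PO m r (j + 1) ω + kM PO m r j ω := by
  unfold kM
  split_ifs with h
  · omega
  · have h1 := rj_succ r j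
    have h2 := rj_succ r (j + 1)
    have h3 := rj_nonneg r (j + 2)
    have h4 : rj r (j + 2) = rj r (j + 1) / 2 := h2
    exact NA_le (fun a ha => bdF_left hm0 hm (hPO a ha)) (fun a ha => bdF_right hm0 hm ha)
      (fun a ha => ray_disj hm0 hm (hPO a ha)) h3 (by omega) (by omega) ω

theorem dep_kM (PO : UE → Prop) (m r j : ℕ) :
    Dep ((wB m 0 r j : Set (ℤ × ℤ)) \ (wB m 0 r (j + 2) : Set (ℤ × ℤ))) (kM PO m r j) := by
  unfold kM
  by_cases h : rj r (j + 2) = 0
  · simp only [h, if_true]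
    have e : (wB m 0 r (j + 2) : Set (ℤ × ℤ)) = ∅ := by
      rw [coe_wB, h, BR_zero]
      simp
    rw [e, Set.sdiff_empty]
    exact dep_kN PO m r j
  · simp only [h, if_false]
    have h0 := depN_MC (v := (0, 0)) (r₂ := rj r (j + 2)) (rj_anti r j) (Wd.Wdg m 0) PO
      (Ray (0 + m))
    refine h0.mono ?_
    rintro f ⟨hf, hf'⟩
    rw [mem_coe, mem_An] at hf'
    rw [coe_wB, coe_wB]
    exact ⟨⟨hf, mem_coe.2 hf'.1⟩, fun h => hf'.2 (mem_coe.1 h.2)⟩

theorem kN_le_card (PO : UE → Prop) (m r j : ℕ) (ω : Cfg) (h : rj r j ≤ 3) :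
    kN PO m r j ω ≤ 98 := by
  refine (NS_le_UB (v := (0, 0)) (r := rj r j) ω).trans ?_
  obtain ⟨k, hk⟩ : ∃ k : ℕ, rj r j = k := ⟨(rj r j).toNat, by
    have := rj_nonneg r j
    omega⟩
  rw [hk, card_UB]
  have : k ≤ 3 := by omega
  have h1 : (2 * k + 1) ^ 2 ≤ 7 ^ 2 := Nat.pow_le_pow_left (by omega) 2
  omega

theorem kM_moment : ∃ cM : ℝ → ℝ, ∀ lam : ℝ, 1 ≤ lam → ∀ (PO : UE → Prop) (m r j : ℕ),
    (∀ c, PO c → Ray 0 c) → 1 ≤ m → m ≤ 3 →
    ∀ W : Finset (ℤ × ℤ), wB m 0 r j ⊆ W → av W (fun ω => lam ^ kM PO m r j ω) ≤ cM lam := by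
  classical
  have H : ∀ lam : ℝ, ∃ C : ℝ, 1 ≤ lam → ∀ (PO : UE → Prop) (m r j : ℕ),
      (∀ c, PO c → Ray 0 c) → 1 ≤ m → m ≤ 3 →
      ∀ W : Finset (ℤ × ℤ), wB m 0 r j ⊆ W → av W (fun ω => lam ^ kM PO m r j ω) ≤ C := by
    intro lam
    by_cases hlam : 1 ≤ lam
    · obtain ⟨C, hC, h⟩ := MC_moment 7 hlam
      refine ⟨max C (lam ^ 98), fun _ PO m r j hPO hm0 hm W hW => ?_⟩
      have hd : Dep (wB m 0 r j : Set (ℤ × ℤ)) (fun ω => lam ^ kM PO m r j ω) := by
        have h1 := (dep_kM PO m r j).mono (Set.sdiff_subset : _ ⊆ (wB m 0 r j : Set (ℤ × ℤ)))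
        intro ω ω' hω
        simp only [h1 ω ω' hω]
      rw [av_dep hd hW]
      by_cases h0 : rj r (j + 2) = 0
      · refine le_trans (av_mono (g' := fun _ => lam ^ 98) fun T _ => ?_)
          ((av_const _).le.trans (le_max_right _ _))
        refine pow_le_pow_right₀ hlam ?_
        unfold kM
        rw [if_pos h0]
        refine kN_le_card PO m r j _ ?_
        have h1 := rj_succ r j
        have h2 : rj r (j + 2) = rj r (j + 1) / 2 := rj_succ r (j + 1)
        have h3 := rj_nonneg r j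
        omega
      · refine le_trans ?_ (le_max_left _ _)
        have hW' : wB m 0 r j ⊆ BR (0, 0) (rj r j) := fun f hf => (mem_wB.1 hf).1
        rw [← av_dep hd hW', av_eq]
        have h1 := rj_succ r j
        have h2 : rj r (j + 2) = rj r (j + 1) / 2 := rj_succ r (j + 1)
        have h3 := rj_nonneg r j
        have h4 := rj_nonneg r (j + 2)
        have := h (Wd.Wdg m 0) PO (Ray (0 + m)) (0, 0) (rj r (j + 2)) (rj r (j + 1)) (rj r j)
          (BR (0, 0) (rj r j)) (fun a ha => bdF_left hm0 hm (hPO a ha))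
          (fun a ha => bdF_right hm0 hm ha)
          (fun a ha => ray_disj hm0 hm (hPO a ha)) (by omega) (by omega) (by omega)
          (by push_cast; omega) (by push_cast; omega)
          (fun a b ha hb h1 h2 => wsep (o := 0) hm0 hm _ a b (hPO a ha) hb h1 h2)
          (Finset.Subset.refl _)
        refine le_trans (le_of_eq ?_) this
        congr 1
        refine Finset.sum_congr rfl fun T _ => ?_
        unfold kM
        rw [if_neg h0]
    · exact ⟨0, fun h => absurd h hlam⟩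
  choose cM hcM using H
  exact ⟨cM, fun lam hlam => hcM lam hlam⟩

/-- The increment of the chain of a kind (standard position). -/
def sM (K : SK) (m r j : ℕ) (ω : Cfg) : ℕ :=
  match K with
  | .ver _ => kM (Ray 0) m r j ω
  | .e => 1
  | .em => kM PE m r j ω

theorem sN_le (K : SK) (hm0 : 1 ≤ m) (hm : m ≤ 3) (r j : ℕ) (ω : Cfg) :
    sN K m 0 (0, 0) (r / 2 ^ j) ω ≤ sN K m 0 (0, 0) (r / 2 ^ (j + 1)) ω + sM K m r j ω := by
  cases K with
  | ver J =>
    rw [sN_ver hm0 hm, sN_ver hm0 hm]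
    exact kN_le hm0 hm (fun c hc => hc) r j ω
  | e =>
    have h1 : sN .e m 0 (0, 0) (r / 2 ^ j) ω ≤ 1 := by
      unfold sN
      simp only
      split_ifs <;> omega
    have h2 : sM .e m r j ω = 1 := rfl
    omega
  | em =>
    rw [sN_em hm0 hm, sN_em hm0 hm]
    exact kN_le hm0 hm (fun c hc => hc.1) r j ω

theorem dep_sM (K : SK) (hm0 : 1 ≤ m) (hm : m ≤ 3) (r j : ℕ) :
    Dep ((Wdg m 0 (0, 0) (r / 2 ^ j) : Set (ℤ × ℤ)) \ (Wdg m 0 (0, 0) (r / 2 ^ (j + 2)) :
      Set (ℤ × ℤ))) (sM K m r j) := by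
  rw [box_eq hm0 hm, box_eq hm0 hm]
  cases K with
  | ver J => exact dep_kM (Ray 0) m r j
  | e => exact fun _ _ _ => rfl
  | em => exact dep_kM PE m r j

theorem sM_moment : ∃ cM : ℝ → ℝ, ∀ lam : ℝ, 1 ≤ lam → ∀ (K : SK) (m r j : ℕ), 1 ≤ m → m ≤ 3 →
    ∀ W : Finset (ℤ × ℤ), Wdg m 0 (0, 0) (r / 2 ^ j) ⊆ W →
      av W (fun ω => lam ^ sM K m r j ω) ≤ cM lam := by
  obtain ⟨cM, h⟩ := kM_moment
  refine ⟨fun lam => max (cM lam) lam, fun lam hlam K m r j hm0 hm W hW => ?_⟩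
  rw [box_eq hm0 hm] at hW
  cases K with
  | ver J =>
    exact (h lam hlam (Ray 0) m r j (fun c hc => hc) hm0 hm W hW).trans (le_max_left _ _)
  | e =>
    have e : (fun ω : Cfg => lam ^ sM .e m r j ω) = fun _ => lam := by
      funext ω
      exact pow_one _
    rw [e, av_const]
    exact le_max_right _ _
  | em =>
    exact (h lam hlam PE m r j (fun c hc => hc.1) hm0 hm W hW).trans (le_max_left _ _)

end

end Pool.Agent.SixB.Kd
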