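import Pool.Agent.Lib.SixB.S3Atlas
import Pool.Agent.Lib.SixB.S3Fb
import Pool.Agent.Lib.SixB.S3Blk

/-!
# 6BD, step 3: flat special vertices with weight zero

A flat vertex `v` with `t_v = 0` (a wedge `Wd.Wdg 2 o` of two quadrants): `0 ^ wN` is the indicator of the event
that no strand of the half box joins the two sides of the wall.
* `noArc_of_arm`, `noArc_iff_arm`: this is the event that `v` is joined to the left, right or top side of the half
  box.
* `wN_zero_iff`, `Fw_zero`: so `Wd.Fw 2 o 0 r = pArm r`; `Fw_zero_le`, `Fw_zero_ge`: it is of order `r ^ (-1 / 3)`.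
* `Fw_zero_scale`: the hypothesis `scale` of `ChainData.Good` for such vertices; `WCharts.scale_zero`.
* `own_zero`: an event (or a function `0 ≤ blk ≤ 1`) of the half box which is increasing in the colour of `v` and
  has probability at least `g₀` costs only a constant factor: `E[0 ^ wN * blk] ≥ a₀ Fw`; `WCharts.own_zero`: the
  same on a surface.
-/

set_option autoImplicit false
set_option linter.unusedSectionVars false

namespace Pool.Agent.SixB.OwnZ

open Finset Pool.Agent.Perc Pool.Agent.PercD Pool.Agent.PercN Pool.Agent.Perc6 Pool.Agent.SixB.A1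
open Pool.Agent.SixB

variable {ω : Cfg} {v : ℤ × ℤ} {R : ℤ}

/-- A boundary unit edge of the half box which belongs to an arc over `v` is one of its two ends. -/
theorem arc_ends {x y : ℤ} {t : UE} (hR : 0 < R) (hne : y ≠ x)
    (hm : ((y, v.2, false) : UE) ∈ MM ω (HB v R) (x, v.2, false))
    (ht : BdU (HB v R : Set (ℤ × ℤ)) t) (hx : t ≠ (x, v.2, false)) (hy : t ≠ (y, v.2, false)) :
    t ∉ MM ω (HB v R) (x, v.2, false) := by
  intro hmt
  obtain ⟨hby, hbx⟩ := wall_of_MM hR hne hm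
  exact hy (bdU_unique hbx hmt hm ht hby hx (by simpa using hne))

/-- **An arm of `v` excludes an arc over `v`.** -/
theorem noArc_of_arm (hR : 0 < R) (h : ω ∈ SixB.HArm v R) : ω ∉ ArcOver v R := by
  rintro ⟨x, y, hxv, hvy, hm⟩
  obtain ⟨w, hw, hout⟩ := h
  have hne : y ≠ x := by omega
  obtain ⟨hby, hbx⟩ := wall_of_MM hR hne hm
  have rx : v.1 - R ≤ x ∧ x < v.1 + R := by
    obtain ⟨f, hf, hs⟩ := hbx.1
    exact isSide_wall hf hs
  have ry : v.1 - R ≤ y ∧ y < v.1 + R := by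
    obtain ⟨f, hf, hs⟩ := hby.1
    exact isSide_wall hf hs
  obtain ⟨Φ, hP⟩ := (show HasPot (HB v R : Set (ℤ × ℤ)) from hasPot_RF _ _ _ _)
    (MM ω (HB v R) (x, v.2, false)) fun f hf => evenAt_MM hf
  -- the wall
  have hwall : ∀ s t : ℤ, v.1 - R ≤ s → s ≤ t → t ≤ v.1 + R → (∀ i, s ≤ i → i < t → i ≠ x) →
      (∀ i, s ≤ i → i < t → i ≠ y) → Φ (s, v.2) = Φ (t, v.2) := by
    intro s t h1 h2 h3 h4 h5
    refine pot_segH hP h2 fun i hi hi' => ⟨(bdU_wall hR (by omega) (by omega)).1, ?_⟩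
    exact arc_ends hR hne hm (bdU_wall hR (by omega) (by omega)) (by simpa using h4 i hi hi')
      (by simpa using h5 i hi hi')
  -- the left side, the right side, the top side
  have hleft : ∀ s : ℤ, v.2 ≤ s → s ≤ v.2 + R → Φ (v.1 - R, v.2) = Φ (v.1 - R, s) := by
    intro s h1 h2
    refine pot_segV hP h1 fun j hj hj' => ?_
    have hb : BdU (HB v R : Set (ℤ × ℤ)) (v.1 - R, j, true) := by
      refine ⟨⟨(v.1 - R, j), ?_, ?_⟩, ⟨(v.1 - R - 1, j), ?_, ?_⟩⟩
      · rw [mem_HB]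
        simp only
        omega
      · right; left
        simp [le']
      · rw [mem_HB]
        simp only
        omega
      · right; right; right
        simp [ri]
    exact ⟨hb.1, arc_ends hR hne hm hb (by simp) (by simp)⟩
  have hright : ∀ s : ℤ, v.2 ≤ s → s ≤ v.2 + R → Φ (v.1 + R, v.2) = Φ (v.1 + R, s) := by
    intro s h1 h2
    refine pot_segV hP h1 fun j hj hj' => ?_
    have hb : BdU (HB v R : Set (ℤ × ℤ)) (v.1 + R, j, true) := by
      refine ⟨⟨(v.1 + R - 1, j), ?_, ?_⟩, ⟨(v.1 + R, j), ?_, ?_⟩⟩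
      · rw [mem_HB]
        simp only
        omega
      · right; right; right
        simp [ri]
      · rw [mem_HB]
        simp only
        omega
      · right; left
        simp [le']
    exact ⟨hb.1, arc_ends hR hne hm hb (by simp) (by simp)⟩
  have htop : ∀ s : ℤ, v.1 - R ≤ s → s ≤ v.1 + R → Φ (v.1 - R, v.2 + R) = Φ (s, v.2 + R) := by
    intro s h1 h2
    refine pot_segH hP h1 fun i hi hi' => ?_
    have hb : BdU (HB v R : Set (ℤ × ℤ)) (i, v.2 + R, false) := by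
      refine ⟨⟨(i, v.2 + R - 1), ?_, ?_⟩, ⟨(i, v.2 + R), ?_, ?_⟩⟩
      · rw [mem_HB]
        simp only
        omega
      · right; right; left
        simp [to']
      · rw [mem_HB]
        simp only
        omega
      · left
        simp [bo]
    refine ⟨hb.1, arc_ends hR hne hm hb ?_ ?_⟩
    · simp only [ne_eq, Prod.mk.injEq, and_true, not_and]
      omega
    · simp only [ne_eq, Prod.mk.injEq, and_true, not_and]
      omega
  -- the potential of `v` and of the outer sides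
  have e1 : Φ (v.1 - R, v.2) = Φ (x, v.2) :=
    hwall _ _ le_rfl rx.1 (by omega) (by intro i _ _; omega) (by intro i _ _; omega)
  have e2 : Φ (x + 1, v.2) = Φ (v.1, v.2) :=
    hwall _ _ (by omega) (by omega) (by omega) (by intro i _ _; omega) (by intro i _ _; omega)
  have e3 : Φ (x, v.2) ≠ Φ (x + 1, v.2) := hP.ne (by simp [Joins, ua, ub]) hbx.1
  have e4 : Φ v = Φ w := hP.conn hw
  have hwv : v ≠ w := by
    rintro rfl
    omega
  obtain ⟨f, hf, hc⟩ := conn_end hw hwv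
  have hin := hc.inR hf
  unfold InR at hin
  obtain ⟨w1, w2⟩ := w
  obtain ⟨v1, v2⟩ := v
  simp only at *
  have e5 : Φ (v1 - R, v2) = Φ (w1, w2) := by
    rcases hout with h | h | h
    · rw [h]
      exact hleft w2 (by omega) (by omega)
    · rw [h, hleft (v2 + R) (by omega) le_rfl, htop (v1 + R) (by omega) le_rfl,
        ← hright (v2 + R) (by omega) le_rfl, hright w2 (by omega) (by omega)]
    · rw [h, hleft (v2 + R) (by omega) le_rfl, htop w1 (by omega) (by omega)]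
  exact e3 (by rw [← e1, e5, ← e4, e2])

theorem noArc_iff_arm (hR : 0 < R) : ω ∉ ArcOver v R ↔ ω ∈ SixB.HArm v R :=
  ⟨arm_of_no_arc hR, noArc_of_arm hR⟩

/-- The same for the empty half box. -/
theorem noArc_iff_arm' (hR : 0 ≤ R) : ω ∉ ArcOver v R ↔ ω ∈ SixB.HArm v R := by
  rcases hR.lt_or_eq with h | h
  · exact noArc_iff_arm h
  · subst h
    have e : (HB v 0 : Set (ℤ × ℤ)) = ∅ := by
      ext f
      rw [mem_HB]
      simp only [Set.mem_empty_iff_false, iff_false]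
      omega
    constructor
    · intro _
      exact ⟨v, Relation.ReflTransGen.refl, Or.inl (by ring)⟩
    · rintro - ⟨x, y, hx, hy, hm⟩
      rcases Relation.ReflTransGen.cases_tail hm with h1 | ⟨b, -, f, hf, hs⟩
      · simp only [Prod.mk.injEq, and_true] at h1
        omega
      · rw [e] at hf
        exact hf

/-! ### The wedge of two quadrants -/

theorem mem_wdg0 {f : ℤ × ℤ} : f ∈ Wd.Wdg 2 0 ↔ 0 ≤ f.2 := by
  rw [Wd.mem_Wdg]
  unfold Wd.Qd
  norm_num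
  omega

theorem wB_eq (r j : ℕ) : Wd.wB 2 0 r j = HB (0, 0) (Wd.rj r j) := by
  ext f
  rw [Wd.mem_wB, ← mem_coe (s := HB (0, 0) (Wd.rj r j)), mem_BR, mem_HB, mem_wdg0]
  omega

theorem ray0 {a : UE} : Wd.Ray 0 a ↔ a.2.2 = false ∧ a.2.1 = 0 ∧ 0 ≤ a.1 := by
  unfold Wd.Ray
  norm_num

theorem ray2 {a : UE} : Wd.Ray (0 + 2) a ↔ a.2.2 = false ∧ a.2.1 = 0 ∧ a.1 < 0 := by
  unfold Wd.Ray
  norm_num

theorem wN_zero_iff (r j : ℕ) (ω : Cfg) :
    Wd.wN 2 0 r j ω = 0 ↔ ω ∉ ArcOver (0, 0) (Wd.rj r j) := by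
  classical
  unfold Wd.wN NA NS
  rw [← Wd.coe_wB, wB_eq, card_eq_zero, filter_eq_empty_iff]
  constructor
  · rintro h ⟨x, y, hx, hy, hm⟩
    have hne : ((y, (0, 0).2, false) : UE) ≠ (x, (0, 0).2, false) := by
      simp only [ne_eq, Prod.mk.injEq, and_true]
      simp only at hx hy
      omega
    obtain ⟨f, hf, hs⟩ := exists_side_of_mem' hm hne
    have hf' : f ∈ (BR (0, 0) (Wd.rj r j) : Set (ℤ × ℤ)) := by
      rw [mem_HB] at hf
      rw [mem_BR']
      simp only at *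
      omega
    refine h (inE_of_side hf' hs).mem_UB ⟨ray0.2 ⟨rfl, rfl, hy⟩, _, MM_symm hm, ray2.2 ⟨rfl, rfl, hx⟩⟩
  · rintro h ⟨y, b, c⟩ - ⟨h1, ⟨x, b', c'⟩, h2, h3⟩
    rw [ray0] at h1
    rw [ray2] at h3
    simp only at h1 h3
    obtain ⟨rfl, rfl, h1⟩ := h1
    obtain ⟨rfl, rfl, h3⟩ := h3
    exact h ⟨x, y, h3, h1, MM_symm h2⟩

theorem wN_zero_iff_arm (r j : ℕ) (ω : Cfg) :
    Wd.wN 2 0 r j ω = 0 ↔ ω ∈ SixB.HArm (0, 0) (Wd.rj r j) := by
  rw [wN_zero_iff, noArc_iff_arm' (Wd.rj_nonneg r j)]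

noncomputable section

theorem zpow_ind (n : ℕ) : (0 : ℝ) ^ n = if n = 0 then 1 else 0 := zero_pow_eq n

/-- The local factor with weight zero is the arm probability. -/
theorem Fw_zero (o r : ℕ) : Wd.Fw 2 o 0 r = pArm r := by
  classical
  rw [Wd.Fw_orient (by norm_num) (by norm_num), ← pr_HArm (0, 0) r, pr_eq_av]
  unfold Wd.Fw
  rw [wB_eq, Wd.rj_zero]
  refine av_congr fun T _ => ?_
  have h := wN_zero_iff_arm r 0 (ind T)
  rw [Wd.rj_zero] at h
  rw [zpow_ind]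
  by_cases h1 : Wd.wN 2 0 r 0 (ind T) = 0
  · rw [if_pos h1, if_pos (h.1 h1)]
  · rw [if_neg h1, if_neg fun h2 => h1 (h.2 h2)]

/-- The local factor with weight zero and the event of `S3Fb`. -/
theorem Fw_zero_eq_pr (o r : ℕ) (v : ℤ × ℤ) {W : Finset (ℤ × ℤ)} (hW : HB v r ⊆ W) :
    Wd.Fw 2 o 0 r = pr W (ArcOver v r)ᶜ := by
  have e : (ArcOver v r)ᶜ = SixB.HArm v r := by
    ext ω
    exact noArc_iff_arm' (Int.natCast_nonneg r)
  rw [e, pr_eq_of_depOn (depOn_HArm v r) hW, pr_HArm, Fw_zero]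

theorem Fw_zero_le : ∃ C : ℝ, 0 < C ∧ ∀ o r : ℕ, 0 < r →
    Wd.Fw 2 o 0 r ≤ C * (r : ℝ) ^ (-(1 / 3 : ℝ)) := by
  obtain ⟨C, hC⟩ := pArm_le rswF rswF'
  refine ⟨max C 1, by positivity, fun o r hr => ?_⟩
  rw [Fw_zero]
  refine (hC r hr).trans ?_
  gcongr
  exact le_max_left _ _

theorem Fw_zero_ge (o : ℕ) {r : ℕ} (hr : 0 < r) :
    (1 / 12 : ℝ) ^ (1 / 3 : ℝ) * (r : ℝ) ^ (-(1 / 3 : ℝ)) ≤ Wd.Fw 2 o 0 r := by
  rw [Fw_zero]
  refine le_trans ?_ ((prod_ge (r := r) hr).trans (pArm_ge hr))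
  have h1 : (1 : ℝ) ≤ r := by exact_mod_cast hr
  have h0 : (0 : ℝ) ≤ r := by linarith
  rw [Real.rpow_neg h0, ← Real.inv_rpow h0, ← Real.mul_rpow (by norm_num) (by positivity)]
  refine Real.rpow_le_rpow (by positivity) ?_ (by norm_num)
  rw [← one_div, div_mul_div_comm, one_mul]
  exact one_div_le_one_div_of_le (by linarith) (by linarith)

theorem Fw_zero_zero (o : ℕ) : Wd.Fw 2 o 0 0 = 1 := by
  have h : ∀ ω, Wd.wN 2 o 0 0 ω = 0 := fun ω => Wd.wN_zero (by norm_num) (by norm_num) le_rfl ω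
  unfold Wd.Fw
  simp only [h, pow_zero]
  exact av_const _

/-- **Comparison of the scales** for a flat vertex of weight zero. -/
theorem Fw_zero_scale : ∃ A₀ : ℝ, 1 ≤ A₀ ∧ ∀ o r : ℕ, Wd.Fw 2 o 0 (r / 2) ≤ A₀ * Wd.Fw 2 o 0 r := by
  obtain ⟨C, hC, h⟩ := Fw_zero_le
  set c : ℝ := (1 / 12 : ℝ) ^ (1 / 3 : ℝ) with hc
  have hc0 : 0 < c := Real.rpow_pos_of_pos (by norm_num) _
  refine ⟨max (3 * C / c) (1 / c + 1), ?_, fun o r => ?_⟩
  · refine le_trans ?_ (le_max_right _ _)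
    have : 0 ≤ 1 / c := by positivity
    linarith
  have hF : 0 ≤ Wd.Fw 2 o 0 r := av_nonneg fun T _ => pow_nonneg le_rfl _
  rcases Nat.lt_or_ge r 2 with hr | hr
  · have e : r / 2 = 0 := by omega
    rw [e, Fw_zero_zero]
    rcases Nat.eq_zero_or_pos r with h1 | h1
    · rw [h1, Fw_zero_zero, mul_one]
      refine le_trans ?_ (le_max_right _ _)
      have : 0 ≤ 1 / c := by positivity
      linarith
    · have h2 : r = 1 := by omega
      have h3 := Fw_zero_ge o (r := r) h1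
      rw [h2] at h3 ⊢
      rw [Nat.cast_one, Real.one_rpow, mul_one] at h3
      calc (1 : ℝ) = 1 / c * c := by field_simp
        _ ≤ max (3 * C / c) (1 / c + 1) * Wd.Fw 2 o 0 1 := by
          refine mul_le_mul ?_ h3 hc0.le (by positivity)
          exact le_trans (by linarith) (le_max_right _ _)
  · have h1 := h o (r / 2) (by omega)
    have h2 := Fw_zero_ge o (r := r) (by omega)
    have hr0 : (0 : ℝ) < r := by exact_mod_cast (by omega : 0 < r)
    have h3 : (r : ℝ) / 3 ≤ ((r / 2 : ℕ) : ℝ) := by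
      have h4 : r ≤ 3 * (r / 2) := by omega
      have h5 : (r : ℝ) ≤ 3 * ((r / 2 : ℕ) : ℝ) := by exact_mod_cast h4
      linarith
    have h4 : ((r / 2 : ℕ) : ℝ) ^ (-(1 / 3 : ℝ)) ≤ 3 * (r : ℝ) ^ (-(1 / 3 : ℝ)) := by
      calc ((r / 2 : ℕ) : ℝ) ^ (-(1 / 3 : ℝ)) ≤ ((r : ℝ) / 3) ^ (-(1 / 3 : ℝ)) :=
            Real.rpow_le_rpow_of_nonpos (by positivity) h3 (by norm_num)
        _ = (1 / 3 : ℝ) ^ (-(1 / 3 : ℝ)) * (r : ℝ) ^ (-(1 / 3 : ℝ)) := by
            rw [← Real.mul_rpow (by norm_num) hr0.le]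
            congr 1
            ring
        _ ≤ 3 * (r : ℝ) ^ (-(1 / 3 : ℝ)) := by
            have e3 : (1 / 3 : ℝ) ^ (-(1 / 3 : ℝ)) = (3 : ℝ) ^ (1 / 3 : ℝ) := by
              rw [Real.rpow_neg (by norm_num), ← Real.inv_rpow (by norm_num)]
              norm_num
            have e4 : (3 : ℝ) ^ (1 / 3 : ℝ) ≤ (3 : ℝ) ^ (1 : ℝ) :=
              Real.rpow_le_rpow_of_exponent_le (by norm_num) (by norm_num)
            rw [Real.rpow_one] at e4
            rw [e3]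
            exact mul_le_mul_of_nonneg_right e4 (by positivity)
    have hx : 0 < (r : ℝ) ^ (-(1 / 3 : ℝ)) := Real.rpow_pos_of_pos hr0 _
    calc Wd.Fw 2 o 0 (r / 2) ≤ C * (3 * (r : ℝ) ^ (-(1 / 3 : ℝ))) :=
          h1.trans (mul_le_mul_of_nonneg_left h4 hC.le)
      _ = 3 * C / c * (c * (r : ℝ) ^ (-(1 / 3 : ℝ))) := by
          field_simp
      _ ≤ max (3 * C / c) (1 / c + 1) * Wd.Fw 2 o 0 r :=
          mul_le_mul (le_max_left _ _) h2 (by positivity) (by positivity)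

/-- The mirrored factor of the marked side and two flat vertices of weight zero (`fe_mul_sq_le`). -/
theorem fe_mul_Fw : ∃ C : ℝ, 0 < C ∧ ∀ (o o' r : ℕ) (v : ℤ × ℤ) (W : Finset (ℤ × ℤ)), 0 < r →
    HB v r ⊆ W → pr W (ArcOverE v r)ᶜ * (Wd.Fw 2 o 0 r * Wd.Fw 2 o' 0 r) ≤ C * pr W (WE v r) := by
  obtain ⟨C, hC, h⟩ := fe_mul_sq_le
  refine ⟨C, hC, fun o o' r v W hr hW => ?_⟩
  rw [Fw_zero_eq_pr o r v hW, Fw_zero_eq_pr o' r v hW]
  exact h v v v r W W W (by exact_mod_cast hr) hW hW hW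

/-! ### Monotonicity -/

/-- The value of a face whose bond has the colour of the origin. -/
def own (f : ℤ × ℤ) : Bool := !Perc.parD 0 f

theorem own_rot (f : ℤ × ℤ) : own (Wd.rotH.f f) = !own f := by
  have h : Perc.parD 0 (Wd.rotH.f f) = !Perc.parD 0 f := by
    rw [Wd.rotH_f]
    unfold Perc.parD
    rw [← decide_not]
    exact decide_eq_decide.2 (by simp only; omega)
  unfold own
  rw [h]

theorem incD_HArm (R : ℤ) : IncD (Perc.parD 0) (SixB.HArm (0, 0) R) := by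
  rintro ω ω' h ⟨w, hw, hout⟩
  exact ⟨w, incD_conn 0 _ (by norm_num) ω ω' h hw, hout⟩

theorem act_rot (ω : Cfg) : Wd.rotH.act (fun f => !ω (Wd.rotH.f f)) = ω := by
  funext g
  show xor Wd.rotH.b (!ω (Wd.rotH.f (Wd.rotH.f.symm g))) = _
  rw [Equiv.apply_symm_apply]
  have : Wd.rotH.b = true := rfl
  rw [this]
  cases ω g <;> rfl

/-- No strand over the origin is an increasing event in the colour of the origin. -/
theorem wN_up (o r j : ℕ) : ∀ {ω ω' : Cfg}, (∀ f ∈ Wd.wB 2 o r j, ω f = own f → ω' f = own f) →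
    Wd.wN 2 o r j ω = 0 → Wd.wN 2 o r j ω' = 0 := by
  classical
  induction o with
  | zero =>
    intro ω ω' h h0
    set ω'' : Cfg := fun f => if f ∈ Wd.wB 2 0 r j then ω' f else ω f with hω''
    have e : Wd.wN 2 0 r j ω' = Wd.wN 2 0 r j ω'' := by
      refine Wd.dep_wN 2 0 r j _ _ fun f hf => ?_
      simp only [hω'']
      rw [if_pos (mem_coe.1 hf)]
    rw [e, wN_zero_iff_arm]
    rw [wN_zero_iff_arm] at h0
    refine (incD_iff_up _ _).1 (incD_HArm _) ω ω'' (fun f hf => ?_) h0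
    simp only [hω'']
    split_ifs with h1
    · exact h f h1 hf
    · exact hf
  | succ o ih =>
    intro ω ω' h h0
    have e : ∀ η : Cfg, Wd.wN 2 (o + 1) r j η = Wd.wN 2 o r j fun f => !η (Wd.rotH.f f) := by
      intro η
      rw [← Wd.wN_rot (o := o) (by norm_num) (by norm_num) r j fun f => !η (Wd.rotH.f f), act_rot]
    rw [e] at h0 ⊢
    refine ih (fun f hf h1 => ?_) h0
    have hf' : Wd.rotH.f f ∈ Wd.wB 2 (o + 1) r j := by
      rw [Wd.mem_wB] at hf ⊢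
      exact ⟨Wd.rotH_box hf.1, Wd.rotH_wedge.2 hf.2⟩
    have h2 := h _ hf' (by
      rw [own_rot, ← h1, Bool.not_not])
    show (!ω' (Wd.rotH.f f)) = own f
    rw [h2, own_rot, Bool.not_not]

/-- **The own factor in the plane** (Harris). -/
theorem own_plane (o r j : ℕ) {W : Finset (ℤ × ℤ)} {blk : Cfg → ℝ} (hup : Up own blk)
    (hW : Wd.wB 2 o r j ⊆ W) :
    Wd.Fw 2 o 0 (r / 2 ^ j) * av W blk ≤ av W (fun ω => 0 ^ Wd.wN 2 o r j ω * blk ω) := by
  rw [← Wd.Fw_eq 2 o 0 r j hW]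
  refine av_harris own W _ blk (fun ω ω' h => ?_) hup
  show (0 : ℝ) ^ _ ≤ 0 ^ _
  rw [zpow_ind, zpow_ind]
  by_cases h0 : Wd.wN 2 o r j ω = 0
  · rw [if_pos h0, if_pos (wN_up o r j (fun f _ => h f) h0)]
  · rw [if_neg h0]
    split_ifs <;> norm_num

/-! ### Surfaces -/

variable {Φ κ : Type} [DecidableEq Φ] {F : Finset Φ}

/-- Scales of a flat vertex of weight zero on a surface. -/
theorem chain_scale : ∃ A₀ : ℝ, 1 ≤ A₀ ∧ ∀ (Φ κ : Type) [DecidableEq Φ] (F : Finset Φ)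
    (C : WCharts F κ) (v : κ), C.m v = 2 →
    ∀ j, C.chain.F v 0 (j + 1) ≤ A₀ * C.chain.F v 0 j := by
  obtain ⟨A₀, h1, h⟩ := Fw_zero_scale
  refine ⟨A₀, h1, fun Φ κ _ F C v hv j => ?_⟩
  rw [C.F_eq, C.F_eq, hv, pow_succ, ← Nat.div_div_eq_div_mul]
  exact h 0 _

/-- The indicator of no strand over `v` is increasing in the colour of `v`. -/
theorem chain_up (C : WCharts F κ) {v : κ} (hv : C.m v = 2) (j : ℕ) {D : Φ → Bool}
    (hD : ∀ f ∈ Wd.wB 2 (C.o v) (C.r v) j, D (C.φ v f) = own f) :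
    Up D (fun ω => (0 : ℝ) ^ C.N v j ω) := by
  intro ω ω' h
  show (0 : ℝ) ^ C.N v j ω ≤ 0 ^ C.N v j ω'
  unfold WCharts.N
  rw [hv, zpow_ind, zpow_ind]
  by_cases h0 : Wd.wN 2 (C.o v) (C.r v) j (C.cf v ω) = 0
  · rw [if_pos h0, if_pos (wN_up _ _ _ (fun f hf hf' => ?_) h0)]
    have h1 := h (C.φ v f) (by rw [hD f hf]; exact hf')
    rw [hD f hf] at h1
    exact h1
  · rw [if_neg h0]
    split_ifs <;> norm_num

/-- **The own factor of a flat vertex of weight zero** on a surface (Harris): no constant is lost. -/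
theorem chain_own (C : WCharts F κ) {v : κ} (hv : C.m v = 2) (j : ℕ) {D : Φ → Bool}
    (hD : ∀ f ∈ Wd.wB 2 (C.o v) (C.r v) j, D (C.φ v f) = own f) {blk : (Φ → Bool) → ℝ}
    (hup : Up D blk) :
    C.chain.F v 0 j * av F blk ≤ av F (fun ω => (0 : ℝ) ^ C.N v j ω * blk ω) := by
  have h : C.chain.F v 0 j = av F (fun ω => (0 : ℝ) ^ C.N v j ω) := rfl
  rw [h]
  exact av_harris D F (fun ω => (0 : ℝ) ^ C.N v j ω) blk (chain_up C hv j hD) hup

open Classical in
theorem up_noArm {V : Type} [DecidableEq V] (Q : Pool.Agent.Perc.Q.QC V Φ) (D : Φ → Bool)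
    (R : Finset Φ) (X Y : Set V) :
    Up (fun f => !D f) (fun ω => if Bk.NoArm Q D R X Y ω then (1 : ℝ) else 0) := by
  intro ω ω' h
  show (if Bk.NoArm Q D R X Y ω then (1 : ℝ) else 0) ≤ if Bk.NoArm Q D R X Y ω' then 1 else 0
  by_cases h1 : Bk.NoArm Q D R X Y ω
  · rw [if_pos h1, if_pos (h1.up h)]
  · rw [if_neg h1]
    split_ifs <;> norm_num

open Classical in
/-- **Own factor with a blocked ring**: the ring is blocked for the colour which `v` has not. -/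
theorem own_ring : ∃ a₀ : ℝ, 0 < a₀ ∧ ∀ {V Φ κ : Type} [DecidableEq V] [DecidableEq Φ]
    {F : Finset Φ} (C : WCharts F κ) (v : κ) (Q : Pool.Agent.Perc.Q.QC V Φ) (D : Φ → Bool)
    (R : Finset Φ) (c : ℤ) (π : Φ → ℤ × ℤ) (ν : V → ℤ × ℤ) (p : ℤ × ℤ) (r : ℤ) (X Y : Set V),
    C.m v = 2 → (∀ f ∈ Wd.wB 2 (C.o v) (C.r v) 0, D (C.φ v f) = Perc.parD 0 f) →
    0 < r → Bk.PCh Q D R c π ν → R ⊆ F → (∀ x ∈ X, Bk.InB p r (ν x)) →
    (∀ y ∈ Y, Bk.OutB p (4 * r) (ν y)) →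
    a₀ * C.chain.F v 0 0 ≤
      av F (fun ω => (0 : ℝ) ^ C.N v 0 ω * if Bk.NoArm Q D R X Y ω then 1 else 0) := by
  obtain ⟨a₀, h0, h⟩ := Bk.noArm_pos
  refine ⟨a₀, h0, ?_⟩
  intro V Φ κ _ _ F C v Q D R c π ν p r X Y hv hD hr H hRF hX hY
  have h1 := h Q D R c π ν p r X Y F hr H hRF hX hY
  have h2 := chain_own C hv 0 (D := fun f => !D f) (fun f hf => by
    show (!D (C.φ v f)) = own f
    rw [hD f hf]
    rfl) (up_noArm Q D R X Y)
  have hF : 0 ≤ C.chain.F v 0 0 := by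
    rw [C.F_eq]
    exact av_nonneg fun T _ => pow_nonneg le_rfl _
  calc a₀ * C.chain.F v 0 0 = C.chain.F v 0 0 * a₀ := mul_comm _ _
    _ ≤ C.chain.F v 0 0 * av F (fun ω => if Bk.NoArm Q D R X Y ω then (1 : ℝ) else 0) :=
        mul_le_mul_of_nonneg_left h1 hF
    _ ≤ _ := h2

end

end Pool.Agent.SixB.OwnZ
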