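import Pool.Agent.Lib.SixB.S3KindB
import Pool.Agent.Lib.SixB.S3OwnZ

/-!
# 6BD, step 3: local factors of weight zero, comparison of scales

* `Kd.sF_ver`: `sF (.ver J) m r = Wd.Fw m 0 (tJ J) r`;
* `Kd.sF_e`: `sF .e 2 r` is the probability that the strand of the marked side leaves the half box, two sided bounds
  `sF_e_le`, `sF_e_ge` (`1 / r`);
* `Kd.sF_em`: `sF .em 2 r` is the probability that there is no arc over the marked side, bounds `sF_em_le`, `sF_em_ge`
  (`r ^ (-1 / 3)`);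
* `Kd.sF_scale`: `sF K 2 (r / 2) ≤ A₀ * sF K 2 r` for the kinds of weight zero.
-/

set_option autoImplicit false
set_option linter.unusedSimpArgs false

namespace Pool.Agent.SixB.Kd

open Pool.Agent.Perc Pool.Agent.PercD Pool.Agent.PercN Pool.Agent.Perc6 Pool.Agent.Perc.Q Finset
open Pool.Agent.SixB.Tilt Pool.Agent.SixB.Wd Pool.Agent.SixB.A1

noncomputable section

variable {m : ℕ} {r r' j : ℕ} {ω : Cfg} {K : SK} {PO : UE → Prop}

theorem sF_ver {J : ℝ} (hm0 : 1 ≤ m) (hm : m ≤ 3) (r : ℕ) :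
    sF (.ver J) m r = Wd.Fw m 0 (tJ J) r := by
  unfold sF Wd.Fw
  have h := box_eq hm0 hm r 0
  rw [pow_zero, Nat.div_one] at h
  rw [h]
  refine av_congr fun T _ => ?_
  have h2 := sN_ver hm0 hm J r 0 (ind T)
  rw [pow_zero, Nat.div_one] at h2
  rw [h2]
  rfl

/-- The half box. -/
theorem wdg_HB (r : ℕ) : Wdg 2 0 (0, 0) r = HB (0, 0) r := by
  ext f
  rw [mem_Wdg0 (by norm_num) (by norm_num), ← mem_coe (s := HB (0, 0) (r : ℤ)), mem_HB]
  norm_num
  omega

/-- The boundary sides of the half box. -/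
theorem bS_HB {x : (ℤ × ℤ) × (ℤ × ℤ)} (hx : x ∈ bS ZQ (Wdg 2 0 (0, 0) r)) :
    x ∈ wIn (0 + (2 : ℕ)) (0, 0) r ∪ wOut 0 (0, 0) r ∨ BdR (0, 0) r (und x) := by
  obtain ⟨⟨p, q⟩, s⟩ := x
  have key := lside_of_mem_bS hx
  unfold LSide at key
  simp only [mem_Wdg0 (show 1 ≤ 2 by norm_num) (show 2 ≤ 3 by norm_num)] at key
  norm_num at key
  rcases key with ⟨h1, h2, h3⟩ | ⟨h1, h2, h3⟩ | ⟨h1, h2, h3⟩ | ⟨h1, h2, h3⟩ <;> subst h1
  · left
    have e : und ((p, q), (p + 1, q)) = (p, q, false) := by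
      unfold und
      simp
    have hq : q = 0 := by omega
    subst hq
    rw [mem_union]
    by_cases hp : 0 ≤ p
    · right
      rw [← ray_out (by norm_num) (by norm_num) hx, e]
      unfold Wd.Ray
      norm_num
      exact hp
    · left
      rw [← ray_in (by norm_num) (by norm_num) hx, e]
      unfold Wd.Ray
      norm_num
      omega
  · right
    have e : und ((p, q), (p, q + 1)) = (p, q, true) := by
      unfold und
      simp
    rw [e]
    refine Or.inr ⟨rfl, ?_⟩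
    simp only
    omega
  · right
    have e : und ((p, q), (p - 1, q)) = (p - 1, q, false) := by
      unfold und
      rw [if_neg (by simp only; omega)]
      simp
    rw [e]
    refine Or.inl ⟨rfl, ?_⟩
    simp only
    omega
  · right
    have e : und ((p, q), (p, q - 1)) = (p, q - 1, true) := by
      unfold und
      simp
    rw [e]
    refine Or.inr ⟨rfl, ?_⟩
    simp only
    omega

theorem wall_not_bdR {x : (ℤ × ℤ) × (ℤ × ℤ)}
    (hx : x ∈ wIn (0 + (2 : ℕ)) (0, 0) r ∪ wOut 0 (0, 0) r) : ¬ BdR (0, 0) r (und x) := by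
  have h : Wd.Ray (0 + 2) (und x) ∨ Wd.Ray 0 (und x) := by
    rcases mem_union.1 hx with h | h
    · exact Or.inl ((ray_in (by norm_num) (by norm_num)
        (wIn_sub0 (by norm_num) (by norm_num) h)).2 h)
    · exact Or.inr ((ray_out (by norm_num) (by norm_num)
        (wOut_sub0 (m := 2) (by norm_num) (by norm_num) h)).2 h)
  have hr : 0 < r := by
    rcases mem_union.1 hx with h | h
    · obtain ⟨t, ht, -⟩ := mem_wIn.1 h
      omega
    · obtain ⟨t, ht, -⟩ := mem_wOut.1 h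
      omega
  rintro h1
  generalize und x = a at h h1
  obtain ⟨p, q, c⟩ := a
  unfold BdR BdE at h1
  unfold Wd.Ray at h
  cases c
  · norm_num at h h1
    omega
  · norm_num at h

/-- The strand of the marked side leaves the half box. -/
theorem sN_e_iff (hr : 0 < r) (ω : Cfg) : sN .e 2 0 (0, 0) r ω = 0 ↔ ω ∈ WE (0, 0) r := by
  have hS := wOut_sub0 (m := 2) (r := r) (by norm_num) (by norm_num) (eS_mem (o := 0) (v := (0, 0)) hr)
  have h0 : sN .e 2 0 (0, 0) r ω = 0 ↔ mate ZQ (Wdg 2 0 (0, 0) r) ω (eS 0 (0, 0)) ∉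
      wIn (0 + (2 : ℕ)) (0, 0) r ∪ wOut 0 (0, 0) r := by
    unfold sN
    simp only
    by_cases h : mate ZQ (Wdg 2 0 (0, 0) r) ω (eS 0 (0, 0)) ∈
        wIn (0 + (2 : ℕ)) (0, 0) r ∪ wOut 0 (0, 0) r
    · rw [if_pos h]
      exact ⟨fun h1 => absurd h1 one_ne_zero, fun h1 => absurd h h1⟩
    · rw [if_neg h]
      exact ⟨fun _ => h, fun _ => rfl⟩
  rw [h0]
  have hM := mate_mem (ω := ω) hS
  unfold WE
  rw [Set.mem_ofPred_eq, ← wdg_HB]
  constructor
  · intro h
    rcases bS_HB hM with h1 | h1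
    · exact absurd h1 h
    · refine ⟨_, ?_, h1⟩
      have h2 := PC.mate_MM hS ω
      rw [und_eS] at h2
      exact h2
  · rintro ⟨a, ha, hb⟩ hw
    have hne : a ≠ (0, 0, false) := by
      rintro rfl
      unfold BdR BdE at hb
      norm_num at hb
      omega
    obtain ⟨f, hf, hs⟩ := side_of_ne ha hne
    have hbd : BdF (Wdg 2 0 (0, 0) r : Set (ℤ × ℤ)) a := by
      intro d h1 h2
      rw [mem_coe, mem_Wdg0 (by norm_num) (by norm_num)] at h1 h2
      obtain ⟨x, y, c⟩ := a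
      unfold BdR BdE at hb
      norm_num at hb h1 h2
      cases c <;> cases d <;> simp only [Tips.ahead, Bool.not_true, Bool.not_false, if_true,
        if_false, reduceCtorEq, false_and, or_false, false_or, true_and] at hb h1 h2 <;> omega
    obtain ⟨y, hy, rfl⟩ := PC.exists_bS (L := Wdg 2 0 (0, 0) r) (by exact_mod_cast hf) hs
      (L₀ := (Wdg 2 0 (0, 0) r : Set (ℤ × ℤ))) (Set.Subset.refl _) hbd
    rw [← und_eS] at ha
    rcases PC.MM_cases hS hy ha with h3 | h3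
    · apply hne
      rw [h3, und_eS]
    · rw [← h3] at hw
      exact wall_not_bdR hw hb

theorem sF_e (hr : 0 < r) {W : Finset (ℤ × ℤ)} (hW : HB (0, 0) r ⊆ W) :
    sF .e 2 r = pr W (WE (0, 0) r) := by
  classical
  rw [pr_eq_of_depOn (depOn_WE _ _) hW, pr_eq_av]
  unfold sF
  rw [wdg_HB]
  refine av_congr fun T _ => ?_
  have h := sN_e_iff hr (ind T)
  show (0 : ℝ) ^ _ = _
  rw [zero_pow_eq]
  by_cases h1 : sN .e 2 0 (0, 0) r (ind T) = 0
  · rw [if_pos h1, if_pos (h.1 h1)]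
  · rw [if_neg h1, if_neg fun h2 => h1 (h.2 h2)]

theorem sF_e_le : ∃ C : ℝ, 0 < C ∧ ∀ r : ℕ, 0 < r → sF .e 2 r ≤ C / r := by
  obtain ⟨C, hC, h⟩ := pr_unit
  refine ⟨C, hC, fun r hr => ?_⟩
  rw [sF_e hr (Finset.Subset.refl _)]
  have := h (0, 0) r _ (by exact_mod_cast hr) (Finset.Subset.refl _)
  simpa using this

theorem sF_e_ge : ∃ c : ℝ, 0 < c ∧ ∀ r : ℕ, 0 < r → c / r ≤ sF .e 2 r := by
  obtain ⟨c, hc, h⟩ := we_lower
  refine ⟨c, hc, fun r hr => ?_⟩
  rw [sF_e hr (Finset.Subset.refl _)]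
  have := h (0, 0) r _ (by exact_mod_cast hr) (Finset.Subset.refl _)
  simpa using this

/-- No arc over the marked side. -/
theorem sN_em_iff (r : ℕ) (ω : Cfg) : sN .em 2 0 (0, 0) r ω = 0 ↔ ω ∉ ArcOverE (0, 0) r := by
  classical
  have e := sN_em (m := 2) (by norm_num) (by norm_num) r 0 ω
  rw [pow_zero, Nat.div_one] at e
  rw [e]
  unfold kN NA NS
  have hS : (Wd.Wdg 2 0 ∩ (BR (0, 0) (rj r 0) : Set (ℤ × ℤ))) = (HB (0, 0) r : Set (ℤ × ℤ)) := by
    rw [← Wd.coe_wB, OwnZ.wB_eq, Wd.rj_zero]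
  rw [hS, card_eq_zero, filter_eq_empty_iff, Wd.rj_zero]
  constructor
  · rintro h ⟨x, y, hx, hy, hm⟩
    simp only at hx hy hm
    have hne : ((y, 0, false) : UE) ≠ (x, 0, false) := by
      intro he
      simp only [Prod.mk.injEq, and_true] at he
      omega
    have h1 := MM_symm hm
    obtain ⟨f, hf, hs⟩ := side_of_ne hm hne
    refine h (x := ((y, 0, false) : UE)) ?_ ⟨⟨?_, ?_⟩, (x, 0, false), h1, ?_⟩
    · have hf' := mem_HB.1 hf
      unfold IsSide bo to' le' ri at hs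
      simp only [Prod.mk.injEq, Bool.false_eq_true, and_false, or_false, false_or,
        and_true, reduceCtorEq] at hs
      unfold UB
      simp only [Finset.mem_product, Finset.mem_Icc, Finset.mem_univ, and_true]
      simp only at hf'
      omega
    · unfold Wd.Ray
      norm_num
      omega
    · simp only [ne_eq, Prod.mk.injEq, and_true]
      omega
    · unfold Wd.Ray
      norm_num
      exact hx
  · intro h a _ h1
    obtain ⟨⟨h1, h2⟩, b, h3, h4⟩ := h1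
    obtain ⟨x, y, c⟩ := a
    obtain ⟨x', y', c'⟩ := b
    unfold Wd.Ray at h1 h4
    norm_num at h1 h4
    obtain ⟨rfl, rfl, h5⟩ := h1
    obtain ⟨rfl, rfl, h6⟩ := h4
    refine h ⟨x', x, h6, ?_, MM_symm h3⟩
    simp only [ne_eq, Prod.mk.injEq, and_true] at h2
    show (0 : ℤ) + 1 ≤ x
    omega

theorem depOn_ArcOverE (v : ℤ × ℤ) (R : ℤ) :
    DepOn (HB v R : Set (ℤ × ℤ)) (ArcOverE v R) := by
  intro ω ω' h
  unfold ArcOverE
  rw [Set.mem_ofPred_eq, Set.mem_ofPred_eq]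
  simp only [MM_congr' (ω := ω) (ω' := ω') h]

theorem sF_em (r : ℕ) {W : Finset (ℤ × ℤ)} (hW : HB (0, 0) r ⊆ W) :
    sF .em 2 r = pr W (ArcOverE (0, 0) r)ᶜ := by
  classical
  have hd : DepOn (HB (0, 0) r : Set (ℤ × ℤ)) (ArcOverE (0, 0) r)ᶜ := by
    intro ω ω' h
    rw [Set.mem_compl_iff, Set.mem_compl_iff, depOn_ArcOverE _ _ ω ω' h]
  rw [pr_eq_of_depOn hd hW, pr_eq_av]
  unfold sF
  rw [wdg_HB]
  refine av_congr fun T _ => ?_
  have h : sN .em 2 0 (0, 0) r (ind T) = 0 ↔ ind T ∈ (ArcOverE (0, 0) r)ᶜ := sN_em_iff r (ind T)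
  show (0 : ℝ) ^ _ = _
  rw [zero_pow_eq]
  by_cases h1 : sN .em 2 0 (0, 0) r (ind T) = 0
  · rw [if_pos h1, if_pos (h.1 h1)]
  · rw [if_neg h1, if_neg fun h2 => h1 (h.2 h2)]

theorem sF_em_le : ∃ C : ℝ, 0 < C ∧ ∀ r : ℕ, 0 < r → sF .em 2 r ≤ C * (r : ℝ) ^ (-(1 / 3 : ℝ)) := by
  obtain ⟨C, hC, h⟩ := noArcE_le
  refine ⟨C, hC, fun r hr => ?_⟩
  rw [sF_em r (Finset.Subset.refl _)]
  have := h (0, 0) r _ (by exact_mod_cast hr) (Finset.Subset.refl _)
  simpa using this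

theorem sF_em_ge (hr : 0 < r) :
    (1 / 12 : ℝ) ^ (1 / 3 : ℝ) * (r : ℝ) ^ (-(1 / 3 : ℝ)) ≤ sF .em 2 r := by
  refine (OwnZ.Fw_zero_ge 0 hr).trans ?_
  rw [OwnZ.Fw_zero_eq_pr 0 r (0, 0) (Finset.Subset.refl _), sF_em r (Finset.Subset.refl _)]
  refine pr_mono _ fun ω hω hc => hω ?_
  obtain ⟨x, y, h1, h2, h3⟩ := hc
  exact ⟨x, y, h1, by omega, h3⟩

/-- Comparison of scales from two sided bounds. -/
theorem scale_of {F : ℕ → ℝ} {a c C : ℝ} (ha0 : 0 ≤ a) (ha1 : a ≤ 1) (hc : 0 < c) (hC : 0 < C)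
    (h0 : ∀ r, 0 ≤ F r) (h1 : F 0 ≤ 1) (hl : ∀ r : ℕ, 0 < r → c * (r : ℝ) ^ (-a) ≤ F r)
    (hu : ∀ r : ℕ, 0 < r → F r ≤ C * (r : ℝ) ^ (-a)) (r : ℕ) :
    F (r / 2) ≤ max (3 * C / c) (1 / c + 1) * F r := by
  have hA1 : 1 ≤ max (3 * C / c) (1 / c + 1) := by
    refine le_trans ?_ (le_max_right _ _)
    have : 0 ≤ 1 / c := by positivity
    linarith
  rcases Nat.eq_zero_or_pos r with hr | hr
  · subst hr
    have := h0 0
    nlinarith
  by_cases hr1 : r = 1
  · subst hr1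
    have h2 := hl 1 one_pos
    simp only [Nat.cast_one, Real.one_rpow, mul_one] at h2
    have h3 : (1 : ℕ) / 2 = 0 := rfl
    rw [h3]
    refine h1.trans ?_
    calc (1 : ℝ) = 1 / c * c := by field_simp
      _ ≤ max (3 * C / c) (1 / c + 1) * F 1 := by
        refine mul_le_mul ?_ h2 hc.le (by linarith)
        exact le_trans (by linarith) (le_max_right _ _)
  · have h2 : 0 < r / 2 := by omega
    have h3 := hu (r / 2) h2
    have h4 := hl r hr
    have hrr : (0 : ℝ) < r := by exact_mod_cast hr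
    have h5 : (r : ℝ) / 3 ≤ ((r / 2 : ℕ) : ℝ) := by
      have : r ≤ 3 * (r / 2) := by omega
      have h6 : (r : ℝ) ≤ 3 * ((r / 2 : ℕ) : ℝ) := by exact_mod_cast this
      linarith
    have h6 : ((r / 2 : ℕ) : ℝ) ^ (-a) ≤ 3 * (r : ℝ) ^ (-a) := by
      calc ((r / 2 : ℕ) : ℝ) ^ (-a) ≤ ((r : ℝ) / 3) ^ (-a) :=
            Real.rpow_le_rpow_of_nonpos (by positivity) h5 (by linarith)
        _ = (r : ℝ) ^ (-a) * (3 : ℝ) ^ a := by
            rw [div_eq_mul_inv, Real.mul_rpow hrr.le (by norm_num), Real.inv_rpow (by norm_num),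
              ← Real.rpow_neg (by norm_num), neg_neg]
        _ ≤ (r : ℝ) ^ (-a) * 3 := by
            refine mul_le_mul_of_nonneg_left ?_ (Real.rpow_nonneg hrr.le _)
            calc (3 : ℝ) ^ a ≤ (3 : ℝ) ^ (1 : ℝ) :=
                  Real.rpow_le_rpow_of_exponent_le (by norm_num) ha1
              _ = 3 := Real.rpow_one _
        _ = 3 * (r : ℝ) ^ (-a) := by ring
    have h7 : (r : ℝ) ^ (-a) ≤ F r / c := by
      rw [le_div_iff₀ hc]
      linarith
    calc F (r / 2) ≤ C * ((r / 2 : ℕ) : ℝ) ^ (-a) := h3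
      _ ≤ C * (3 * (F r / c)) := by
          refine mul_le_mul_of_nonneg_left (h6.trans ?_) hC.le
          linarith
      _ = 3 * C / c * F r := by ring
      _ ≤ _ := mul_le_mul_of_nonneg_right (le_max_left _ _) (h0 r)

theorem tJ_nonneg' {K : SK} (h : ∀ J, K = .ver J → 0 ≤ tJ J) : 0 ≤ sT K := by
  cases K with
  | ver J => exact h J rfl
  | e => exact le_rfl
  | em => exact le_rfl

theorem sF_nonneg {K : SK} (h : 0 ≤ sT K) (m r : ℕ) : 0 ≤ sF K m r := by
  refine (av_const (S := Wdg m 0 (0, 0) r) (0 : ℝ)).symm.le.trans ?_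
  exact av_mono fun T _ => pow_nonneg h _

theorem sF_zero (K : SK) (m : ℕ) : sF K m 0 = 1 := by
  unfold sF
  simp only [sN_zero, pow_zero]
  exact av_const _

/-- **Comparison of scales**, weight zero. -/
theorem sF_scale : ∃ A₀ : ℝ, 1 ≤ A₀ ∧ ∀ K : SK, sT K = 0 → ∀ r : ℕ,
    sF K 2 (r / 2) ≤ A₀ * sF K 2 r := by
  obtain ⟨A, hA, hver⟩ := OwnZ.Fw_zero_scale
  obtain ⟨C, hC, hu⟩ := sF_e_le
  obtain ⟨c, hc, hl⟩ := sF_e_ge
  obtain ⟨C', hC', hu'⟩ := sF_em_le
  set c' : ℝ := (1 / 12 : ℝ) ^ (1 / 3 : ℝ) with hc'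
  have hc'0 : 0 < c' := Real.rpow_pos_of_pos (by norm_num) _
  set B := max (3 * C / c) (1 / c + 1) with hB
  set B' := max (3 * C' / c') (1 / c' + 1) with hB'
  refine ⟨max A (max B B'), hA.trans (le_max_left _ _), fun K hK r => ?_⟩
  have hn := sF_nonneg hK.symm.le 2 r
  cases K with
  | ver J =>
    have hJ : tJ J = 0 := hK
    rw [sF_ver (by norm_num) (by norm_num), sF_ver (by norm_num) (by norm_num), hJ]
    rw [sF_ver (by norm_num) (by norm_num), hJ] at hn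
    exact (hver 0 r).trans (mul_le_mul_of_nonneg_right (le_max_left _ _) hn)
  | e =>
    have h := scale_of (F := fun r => sF .e 2 r) (a := 1) zero_le_one le_rfl hc hC
      (fun r => sF_nonneg le_rfl 2 r) (sF_zero _ _).le (fun r hr => ?_) (fun r hr => ?_) r
    · exact h.trans (mul_le_mul_of_nonneg_right ((le_max_left _ _).trans (le_max_right _ _)) hn)
    · have := hl r hr
      rwa [Real.rpow_neg_one, ← div_eq_mul_inv]
    · have := hu r hr
      rwa [Real.rpow_neg_one, ← div_eq_mul_inv]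
  | em =>
    have h := scale_of (F := fun r => sF .em 2 r) (a := 1 / 3) (by norm_num) (by norm_num) hc'0 hC'
      (fun r => sF_nonneg le_rfl 2 r) (sF_zero _ _).le (fun r hr => ?_) (fun r hr => ?_) r
    · exact h.trans (mul_le_mul_of_nonneg_right ((le_max_right _ _).trans (le_max_right _ _)) hn)
    · exact sF_em_ge hr
    · exact hu' r hr

end

end Pool.Agent.SixB.Kd
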