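import Pool.Agent.Lib.SixB.S3OutB
import Pool.Agent.Lib.SixB.S3MthDP
import Pool.Agent.Lib.SixB.S3Star

/-!
# 6BD step 3, row R10: the full atlas of the environment

* `tmono`: smaller lower bound of the weights; `pf_box`, `pf_nbox`: the boxes of `EData.pushFlat`.
* `Outer h hW A`: the properties of the outer atlas (`exists_outer`).
* `full`: outer atlas, charts next to the slab (`MthD.paD`) and the flat atlas of the polygon together cover all
  island sides; the types of the special vertices and their boxes.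
-/

set_option autoImplicit false
set_option linter.unusedSectionVars false
set_option linter.unusedVariables false

namespace Pool.Agent.SixB.OutF

open Pool.Agent.Perc.Q Pool.Agent.Perc Pool.Agent.SixB
open Pool.Agent.SixB.MthD (Win em dC cls Reg tube_base)
open Pool.Agent.SixB.EnvB (nb)

noncomputable section

section gen

variable {V Φ : Type} [DecidableEq V] [DecidableEq Φ] {Q : QC V Φ} {F : Finset Φ} {ψ : V × V → ℝ}
  {Z C : Finset (V × V)} {r nS nN : ℕ} {t₀ t₁ : ℝ}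

/-- smaller lower bound of the weights -/
def tmono (A : PAtlas Q F ψ Z C r nS nN t₀) (h : t₁ ≤ t₀) : PAtlas Q F ψ Z C r nS nN t₁ :=
  { A with tpos := fun i J hJ => (A.tpos i J hJ).imp h.trans id }

theorem pvts_tmono (A : PAtlas Q F ψ Z C r nS nN t₀) (h : t₁ ≤ t₀) :
    St.pvts (tmono A h) = St.pvts A := rfl

theorem pvts_empty (A : PAtlas Q F ψ Z C r nS nN t₀) (h : IsEmpty A.κ) : St.pvts A = 0 := by
  unfold St.pvts St.tys
  rw [Finset.univ_eq_empty]
  rfl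

end gen

section push

variable {E : SEnv} {D : Finset (ℤ × ℤ)} {x₁ x₂ w₁ w₂ s₁ s₂ : ℤ} {ψ : (ℤ × ℤ) × (ℤ × ℤ) → ℝ}
  {ZD CD : Finset ((ℤ × ℤ) × (ℤ × ℤ))} {r nS nN : ℕ} {t₀ : ℝ}

theorem pf_box (h : EData E D x₁ x₂ w₁ w₂ s₁ s₂) (A : PAtlas ZQ D ψ ZD CD r nS nN t₀) (hA : A.Flat)
    (hS : ∀ i, ¬ nearS x₁ x₂ s₁ s₂ (4 * r + 1) (A.v i)) (mu ρu ml ρl : ℝ)
    (i : (h.pushFlat A hA hS mu ρu ml ρl).κ) (ρ : ℕ) :
    ((h.pushFlat A hA hS mu ρu ml ρl).ch i).box ρ =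
      (Wdg (A.m i.1) (A.o i.1) (A.v i.1) ρ).image h.emb.φF := by
  have e : ((h.pushFlat A hA hS mu ρu ml ρl).ch i).φF = h.emb.φF := by
    funext f
    show h.emb.φF ((A.ch i.1).φF f) = _
    rw [hA.sF]
  unfold WChart.box
  rw [e]
  rfl

theorem pf_nbox (h : EData E D x₁ x₂ w₁ w₂ s₁ s₂) (A : PAtlas ZQ D ψ ZD CD r nS nN t₀) (hA : A.Flat)
    (hS : ∀ i, ¬ nearS x₁ x₂ s₁ s₂ (4 * r + 1) (A.v i)) (mu ρu ml ρl : ℝ)
    (i : (h.pushFlat A hA hS mu ρu ml ρl).ι) (ρ : ℕ) :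
    ((h.pushFlat A hA hS mu ρu ml ρl).nch i).box ρ =
      (Wdg (A.m' i.1) (A.o' i.1) (A.v' i.1) ρ).image h.emb.φF := by
  have e : ((h.pushFlat A hA hS mu ρu ml ρl).nch i).φF = h.emb.φF := by
    funext f
    show h.emb.φF ((A.nch i.1).φF f) = _
    rw [hA.nF]
  unfold WChart.box
  rw [e]
  rfl

theorem pf_vts (h : EData E D x₁ x₂ w₁ w₂ s₁ s₂) (A : PAtlas ZQ D ψ ZD CD r nS nN t₀) (hA : A.Flat)
    (hS : ∀ i, ¬ nearS x₁ x₂ s₁ s₂ (4 * r + 1) (A.v i)) (mu ρu ml ρl : ℝ) :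
    St.pvts (h.pushFlat A hA hS mu ρu ml ρl) = St.pvts A := by
  unfold St.pvts
  exact @St.tys_equiv _ _ (h.pushFlat A hA hS mu ρu ml ρl).fκ A.fκ (Equiv.subtypeUnivEquiv fun _ => trivial)
    A.K A.m

end push

variable {S : Slb} {W : Finset (ℤ × ℤ)} {r : ℕ}

/-- the sheet of the base off the slab -/
def offB (S : Slb) : Set (Option Bool × (ℤ × ℤ)) :=
  {x | x.1 = none ∧ x.2 ∉ SixB.slab S.x1 S.x2 (S.yc - S.a) (S.yc + S.a)}

/-- the properties of the outer atlas -/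
structure Outer (h : S.Ok) (hW : Win S W)
    {CO : Finset ((Option Bool × (ℤ × ℤ)) × (Option Bool × (ℤ × ℤ)))} {nO nP : ℕ} {t₁ : ℝ}
    (A : PAtlas (S.env W 0 0).Q (S.env W 0 0).F (S.ph W 0 0) (S.env W 0 0).Z CO r nO nP t₁) : Prop where
  s4 : ∀ i, ∀ f ∈ (A.ch i).box (4 * r), f ∈ offB S
  s1 : ∀ i, ∀ f ∈ (A.ch i).box r, f ∉ MthD.N2 S r
  nt : ∀ i, ∀ f ∈ (A.nch i).box (2 * r), f ∈ offB S
  mt : ∀ i, ∀ f ∈ (Mth (A.lf i) (A.w i) (2 * r) (A.h i) (A.l i)).image (A.mch i).φF, f ∈ offB S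
  cov : ∀ a ∈ (S.env W 0 0).Z, a ∈ CO ∨
    (∃ x ∈ cls S, a = sd (S.env W 0 0).Q (none, (x, S.yc - S.a)) 0 ∨
      a = sd (S.env W 0 0).Q (none, (x, S.yc + S.a - 1)) 2) ∨
    ∃ b ∈ bS ZQ S.D, OffS S.x1 S.x2 (S.yc - S.a) (S.yc + S.a) b ∧ a = (em h hW).side b

/-- the small boxes of the special vertices of the blocks are off the region of the charts next to the slab -/
theorem vt_N2 (hK : BlkW.Kap (S.env W 0 0) r) {x : Option Bool × (ℤ × ℤ)} (i : Bool × Fin 14)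
    (hx : x.2 ∈ Bx (BlkW.vt (S.env W 0 0) i) r) : x ∉ MthD.N2 S r := by
  rintro ⟨-, h2, h3⟩
  have ha := hK.ar
  have hk := hK.rk
  have e1 : (S.env W 0 0).gu.a = S.a := rfl
  have e3 : (S.env W 0 0).gu.yc = S.yc := rfl
  rw [e1] at ha
  unfold Bx at hx
  rw [Finset.mem_product, Finset.mem_Ico, Finset.mem_Ico] at hx
  obtain ⟨-, h4, h5⟩ := hx
  obtain ⟨b, j⟩ := i
  have hH := hK.Hc_ge j
  cases b
  · rw [hK.vt_false, e3] at h4 h5
    simp only at h4 h5
    omega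
  · rw [BlkW.vt_true, e3] at h4 h5
    simp only at h4 h5
    omega

/-- the embedding sends `D` off the outer region -/
theorem emb_offB (h : S.Ok) (hW : Win S W) {g : ℤ × ℤ} (hg : g ∈ S.D) : (em h hW).φF g ∉ offB S := by
  rintro ⟨h1, h2⟩
  have d := h.eData hW.slab
  have h3 : Emb.shF (S.env W 0 0) g = none := h1
  rcases Emb.mem_cases d hg with h4 | h4 | h4
  · unfold Emb.shF at h3
    rw [if_pos h4.1] at h3
    exact absurd h3 (by simp)
  · unfold Emb.shF at h3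
    rw [if_neg h4.2.1, if_pos h4.1] at h3
    exact absurd h3 (by simp)
  · exact h2 h4.1

/-- the image of a box far from the slab does not meet the region of the charts next to the slab -/
theorem emb_N2 (h : S.Ok) (hW : Win S W) (hr : 4 ≤ r) {m : ℕ} {o : ZMod 4} {v g : ℤ × ℤ} (hg : g ∈ S.D)
    (hv : ¬ nearS S.x1 S.x2 (S.yc - S.a) (S.yc + S.a) (8 * r) v) (hb : g ∈ Wdg m o v r) :
    (em h hW).φF g ∉ MthD.N2 S r := by
  rintro ⟨h1, h2, h3⟩
  have d := h.eData hW.slab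
  have hB := Wdg_sub_Bx hb
  unfold Bx at hB
  rw [Finset.mem_product, Finset.mem_Ico, Finset.mem_Ico] at hB
  have e : ((em h hW).φF g).2 = g := rfl
  rw [e] at h1 h2 h3
  have ha := h.ha
  have hx := h.slab.hx
  refine hv ?_
  unfold nearS
  push_cast
  rcases Emb.mem_cases d hg with h4 | h4 | h4
  · have h5 : ((em h hW).φF g).1 ≠ none := by
      show Emb.shF (S.env W 0 0) g ≠ none
      unfold Emb.shF
      rw [if_pos h4.1]
      simp
    have h6 := h1 h5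
    omega
  · have h5 : ((em h hW).φF g).1 ≠ none := by
      show Emb.shF (S.env W 0 0) g ≠ none
      unfold Emb.shF
      rw [if_neg h4.2.1, if_pos h4.1]
      simp
    have h6 := h1 h5
    omega
  · have h6 := h4.1
    rw [mem_RF] at h6
    omega

/-- an island side which is the image of a side of `D` is the image of a boundary side off the slab -/
theorem side_off (h : S.Ok) (hW : Win S W) {f : ℤ × ℤ} (hf : f ∈ S.D) {k : ZMod 4}
    (hb : (em h hW).side (sd ZQ f k) ∈ bS (S.env W 0 0).Q (S.env W 0 0).F) :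
    sd ZQ f k ∈ bS ZQ S.D ∧ OffS S.x1 S.x2 (S.yc - S.a) (S.yc + S.a) (sd ZQ f k) := by
  have d := h.eData hW.slab
  have ha := h.ha
  have hak := h.hak
  have hx := h.slab.hx
  have hI := (mem_bS.mp hb).2
  have h1 : Ini ZQ (S.D : Set (ℤ × ℤ)) (sd ZQ f k) := by
    intro g hg l hl
    refine hI ((em h hW).φF g) (by exact_mod_cast (em h hW).sub g hg) l ?_
    show (em h hW).side (sd ZQ f k) = (sd (S.env W 0 0).Q ((em h hW).φF g) l).swap
    rw [hl, ← (em h hW).side_sd hg]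
    rfl
  refine ⟨(sd_mem_bS hf).mpr h1, ?_⟩
  intro g hg l hl
  obtain ⟨h2, -⟩ := sd_inj hl
  rw [← h2] at hg
  have hnb : nb f k ∉ S.D := by
    intro h3
    exact h1 _ (by exact_mod_cast h3) (k + 2) (EnvB.swap_inj_iff.mpr ⟨rfl, rfl⟩)
  have hg' := hg
  rw [mem_RF] at hg'
  have hsb := Emb.slab_base d hg
  have hsh : Emb.shF (S.env W 0 0) f = none := by
    rcases Emb.mem_cases d hf with h4 | h4 | h4
    · exact absurd hg h4.2.2
    · exact absurd hg h4.2.2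
    · unfold Emb.shF
      rw [if_neg h4.2.1, if_neg h4.2.2]
  have e : (em h hW).side (sd ZQ f k) = sd (S.env W 0 0).Q (none, f) k := by
    rw [(em h hW).side_sd hf]
    show sd _ (Emb.shF (S.env W 0 0) f, f) k = _
    rw [hsh]
  rw [e, EnvB.base_bS (MthD.thk S h) (Finset.Subset.refl _) (EnvB.mem_F_none.mpr hsb)] at hb
  obtain ⟨fx, fy⟩ := f
  simp only at hg'
  rcases EnvB.k4 k with rfl | rfl | rfl | rfl
  · refine hnb ?_
    rw [EnvB.nb0]
    exact h.slab.sub _ _ (by omega) (by omega) (by omega) (by omega)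
  · refine hb.1 (EnvB.mem_F_none.mpr ?_)
    rw [EnvB.nb1]
    exact tube_base hW (by simp only; omega) (by simp only; omega) (by simp only; omega)
      (by simp only; omega)
  · refine hnb ?_
    rw [EnvB.nb2]
    exact h.slab.sub _ _ (by omega) (by omega) (by omega) (by omega)
  · refine hb.1 (EnvB.mem_F_none.mpr ?_)
    rw [EnvB.nb3]
    exact tube_base hW (by simp only; omega) (by simp only; omega) (by simp only; omega)
      (by simp only; omega)

variable {ZD CD : Finset ((ℤ × ℤ) × (ℤ × ℤ))}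
  {CO : Finset ((Option Bool × (ℤ × ℤ)) × (Option Bool × (ℤ × ℤ)))} {nO nP nS nN : ℕ} {t₀ t₁ : ℝ}

/-- **the full atlas of the environment** -/
theorem full (h : S.Ok) (hW : Win S W) (h1 : 2 * (S.a + 1) ≤ r) (h2 : 64 * r ≤ S.k)
    (A : PAtlas (S.env W 0 0).Q (S.env W 0 0).F (S.ph W 0 0) (S.env W 0 0).Z CO r nO nP t₁)
    (hA : Outer h hW A) (AD : PAtlas ZQ S.D S.ψ ZD CD r nS nN t₀) (hF : AD.Flat)
    (hCD : bS ZQ S.D ⊆ CD)
    (hc : ∀ i, ¬ nearS S.x1 S.x2 (S.yc - S.a) (S.yc + S.a) (8 * r) (AD.v i))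
    (th : ∀ f ∈ S.D, S.yc - S.k ≤ f.2 → f.2 < S.yc + S.k →
      ¬ (S.x1 - (8 * r + 2) ≤ f.1 ∧ f.1 < S.x1) ∧ ¬ (S.x2 ≤ f.1 ∧ f.1 < S.x2 + (8 * r + 2))) :
    ∃ B : Atlas (S.env W 0 0).Q (S.env W 0 0).F (S.ph W 0 0) (S.env W 0 0).Z r (nO + nS)
        (nP + 10 + nN) (min t₀ t₁), St.vts B = St.pvts A + St.pvts AD ∧
      ∀ i, (∃ j, ∀ ρ, (B.ch i).box ρ = (A.ch j).box ρ) ∨
        ∃ j, ∀ ρ, (B.ch i).box ρ = (Wdg (AD.m j) (AD.o j) (AD.v j) ρ).image (em h hW).φF := by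
  have ha := h.ha
  have hr : 0 < r := by omega
  have hr4 : 4 ≤ r := by omega
  have d := h.eData hW.slab
  have hS : ∀ i, ¬ nearS S.x1 S.x2 (S.yc - S.a) (S.yc + S.a) (4 * r + 1) (AD.v i) := by
    intro i h3
    refine hc i ?_
    unfold nearS at h3 ⊢
    push_cast at *
    omega
  obtain ⟨B₂, hκ, n2, m2⟩ := PA.noSp hr (MthD.paD (t₀ := min t₀ t₁) h hW h1 h2)
  obtain ⟨B₃, hB₃⟩ : ∃ B₃ : PAtlas (S.env W 0 0).Q (S.env W 0 0).F (S.ph W 0 0) (S.env W 0 0).Z
      ((farC S.x1 S.x2 (S.yc - S.a) (S.yc + S.a) (3 * r + 1) CD).image (em h hW).side) r nS nN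
        (min t₀ t₁), St.pvts B₃ = St.pvts AD ∧
      (∀ i, ∀ f ∈ (B₃.ch i).box (4 * r), ∃ g ∈ S.D, f = (em h hW).φF g) ∧
      (∀ i, ∀ f ∈ (B₃.ch i).box r, f ∉ MthD.N2 S r) ∧
      (∀ i, ∀ f ∈ (B₃.nch i).box (2 * r), ∃ g ∈ S.D, f = (em h hW).φF g) ∧ IsEmpty B₃.μ ∧
      ∀ i, ∃ j, ∀ ρ, (B₃.ch i).box ρ = (Wdg (AD.m j) (AD.o j) (AD.v j) ρ).image (em h hW).φF := by
    rw [Slb.ph_zero]
    have q2 : ∀ i, ∀ f ∈ ((d.pushFlat AD hF hS S.mu S.ρr S.ml S.ρl).ch i).box (4 * r),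
        ∃ g ∈ S.D, f = (em h hW).φF g := by
      intro i f hf
      rw [pf_box] at hf
      obtain ⟨g, hg, rfl⟩ := Finset.mem_image.mp hf
      refine ⟨g, ?_, rfl⟩
      have h3 := (AD.ch i.1).sub g (Wdg_mono (by omega) hg)
      rwa [hF.sF] at h3
    have q3 : ∀ i, ∀ f ∈ ((d.pushFlat AD hF hS S.mu S.ρr S.ml S.ρl).ch i).box r,
        f ∉ MthD.N2 S r := by
      intro i f hf
      rw [pf_box] at hf
      obtain ⟨g, hg, rfl⟩ := Finset.mem_image.mp hf
      have h3 := (AD.ch i.1).sub g (Wdg_mono (by omega) hg)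
      rw [hF.sF] at h3
      exact emb_N2 h hW hr4 h3 (hc i.1) hg
    have q4 : ∀ i, ∀ f ∈ ((d.pushFlat AD hF hS S.mu S.ρr S.ml S.ρl).nch i).box (2 * r),
        ∃ g ∈ S.D, f = (em h hW).φF g := by
      intro i f hf
      rw [pf_nbox] at hf
      obtain ⟨g, hg, rfl⟩ := Finset.mem_image.mp hf
      refine ⟨g, ?_, rfl⟩
      have h3 := (AD.nch i.1).sub g (Wdg_mono (by omega) hg)
      rwa [hF.nF] at h3
    exact ⟨tmono (d.pushFlat AD hF hS S.mu S.ρr S.ml S.ρl) (min_le_left _ _),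
      (pvts_tmono _ _).trans (pf_vts d AD hF hS _ _ _ _), q2, q3, q4, ⟨fun i => hF.mu.elim i.1⟩,
      fun i => ⟨i.1, fun ρ => pf_box d AD hF hS S.mu S.ρr S.ml S.ρl i ρ⟩⟩
  obtain ⟨b1, b2, b3, b4, b5, b6⟩ := hB₃
  have hsub : ∀ i : A.κ, (A.ch i).box r ⊆ (A.ch i).box (4 * r) := fun i =>
    Finset.image_subset_image (Wdg_mono (by omega))
  have hsub3 : ∀ i : B₃.κ, (B₃.ch i).box r ⊆ (B₃.ch i).box (4 * r) := fun i =>
    Finset.image_subset_image (Wdg_mono (by omega))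
  let A' := tmono A (min_le_right t₀ t₁)
  let U₁ := A'.union B₂ (fun i j => hκ.elim j) (fun i j => hκ.elim j)
    (fun i j => Finset.disjoint_left.mpr fun f hf hf' => hA.s1 j f hf' (n2 i f hf))
    (fun i j => hκ.elim j)
    (fun i j => Finset.disjoint_left.mpr fun f hf hf' => hA.s1 j f hf' (m2 i f hf))
  let U := U₁.union B₃
    (fun i j => Finset.disjoint_left.mpr fun f hf hf' => by
      obtain ⟨g, hg, rfl⟩ := b2 j f hf'
      rcases i with i | i
      · exact emb_offB h hW hg (hA.s4 i _ hf)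
      · exact hκ.elim i)
    (fun i j => Finset.disjoint_left.mpr fun f hf hf' => by
      rcases i with i | i
      · obtain ⟨g, hg, rfl⟩ := b2 j f (hsub3 j hf')
        exact emb_offB h hW hg (hA.nt i _ hf)
      · exact b3 j f hf' (n2 i f hf))
    (fun i j => Finset.disjoint_left.mpr fun f hf hf' => by
      rcases j with j | j
      · obtain ⟨g, hg, rfl⟩ := b4 i f hf
        exact emb_offB h hW hg (hA.s4 j _ (hsub j hf'))
      · exact hκ.elim j)
    (fun i j => Finset.disjoint_left.mpr fun f hf hf' => by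
      rcases i with i | i
      · obtain ⟨g, hg, rfl⟩ := b2 j f (hsub3 j hf')
        exact emb_offB h hW hg (hA.mt i _ hf)
      · exact b3 j f hf' (m2 i f hf))
    (fun i j => b5.elim i)
  have hcov : (S.env W 0 0).Z ⊆ (CO ∪ dC h hW r) ∪
      (farC S.x1 S.x2 (S.yc - S.a) (S.yc + S.a) (3 * r + 1) CD).image (em h hW).side := by
    intro a haZ
    rcases hA.cov a haZ with h3 | ⟨x, hx, h3⟩ | ⟨b, h4, h5, rfl⟩
    · exact Finset.mem_union_left _ (Finset.mem_union_left _ h3)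
    · refine Finset.mem_union_left _ (Finset.mem_union_right _ ?_)
      unfold dC
      rcases h3 with rfl | rfl
      · exact Finset.mem_union_right _ (Finset.mem_union_right _ (Finset.mem_union_left _
          (Finset.mem_image_of_mem _ hx)))
      · exact Finset.mem_union_right _ (Finset.mem_union_right _ (Finset.mem_union_right _
          (Finset.mem_image_of_mem _ hx)))
    · by_cases h6 : nearS S.x1 S.x2 (S.yc - S.a) (S.yc + S.a) (3 * r + 1) b.1
      · exact Finset.mem_union_left _ (Finset.mem_union_right _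
          (MthD.near_cov h hW h1 h2 th h4 h5 h6))
      · refine Finset.mem_union_right _ (Finset.mem_image_of_mem _ ?_)
        unfold farC
        exact Finset.mem_filter.mpr ⟨hCD h4, h6⟩
  refine ⟨U.toAtlas (fun a ha => (EnvB.mem_Z.mp ha).1) hcov, ?_, ?_⟩
  · rw [St.vts_toAtlas, St.pvts_union, St.pvts_union, pvts_empty B₂ hκ, pvts_tmono, b1, add_zero]
  · rintro ((i | i) | i)
    · exact Or.inl ⟨i, fun ρ => rfl⟩
    · exact hκ.elim i
    · exact Or.inr (b6 i)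

end

end Pool.Agent.SixB.OutF
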