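import Pool.Agent.Lib.SixB.S3LowDetF
import Pool.Agent.Lib.SixB.S3OutF

/-!
# 6BD step 3, row R20, concrete part (3): the lower bound for a slab with the outer atlas

* `offB_GD`: faces of the base sheet off the slab are not in the polygon.
* `low_outer`: `low_slab` for an outer atlas (`OutF.Outer`), the cells of the mouths have the tube length
  `(S.k - 1) / 2 + 1` for the core.
-/

set_option autoImplicit false
set_option linter.unusedSectionVars false

namespace Pool.Agent.SixB.LwD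

open Pool.Agent.Perc.Q Pool.Agent.Perc
open Pool.Agent.SixB Pool.Agent.SixB.Emb

noncomputable section

variable {S : Slb} {W : Finset (ℤ × ℤ)} {r ρ R L₀ L : ℕ} {x : Option Bool × (ℤ × ℤ)}
  {ω ω' : Option Bool × (ℤ × ℤ) → Bool}

/-- faces of the base sheet off the slab are not in the polygon -/
theorem offB_GD (h : S.Ok) (w : Win S W) (hx : x ∈ OutF.offB S) : x ∉ GD h w := by
  intro hG
  obtain ⟨f, hf, rfl⟩ := Finset.mem_image.mp hG
  obtain ⟨h1, h2⟩ := hx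
  have h3 : Emb.shF (S.env W 0 0) f = none := h1
  have h4 : f ∉ SixB.slab S.x1 S.x2 (S.yc - S.a) (S.yc + S.a) := h2
  rcases mem_cases (h.eData w.slab) hf with h5 | h5 | h5
  · unfold Emb.shF at h3
    rw [if_pos h5.1] at h3
    exact absurd h3 (by simp)
  · unfold Emb.shF at h3
    rw [if_neg h5.2.1, if_pos h5.1] at h3
    exact absurd h3 (by simp)
  · exact h4 h5.1

/-- the walls of the tubes next to the polygon are sides of the cores of the mouths -/
theorem cls_Kd (h : S.Ok) (hL : (S.k - 1) / 2 + 1 ≤ L₀) {y : ℤ}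
    (hy : y ∈ MthD.cls S) :
    (∃ s, sd (S.env W 0 0).Q (none, (y, S.yc - S.a)) 0 ∈ dE (S.env W 0 0).Q (Kd S ρ L₀ s)) ∧
      ∃ s, sd (S.env W 0 0).Q (none, (y, S.yc + S.a - 1)) 2 ∈ dE (S.env W 0 0).Q (Kd S ρ L₀ s) := by
  have ha := h.ha
  have key : ∀ z : ℤ, S.yc - S.a ≤ z → z < S.yc + S.a →
      ∃ s, ((none, (y, z)) : Option Bool × (ℤ × ℤ)) ∈ Kd S ρ L₀ s := by
    intro z h1 h2
    have hs : MthD.sh S (y, z) = none := by
      unfold MthD.sh
      rw [if_neg (by simp only; omega), if_neg (by simp only; omega)]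
    unfold MthD.cls at hy
    rw [Finset.mem_union, Finset.mem_Ico, Finset.mem_Ico] at hy
    rcases hy with hy | hy
    · refine ⟨false, mem_Kd.mpr ⟨mem_mth_f.mpr (Or.inr ?_), hs.symm⟩⟩
      simp only
      omega
    · refine ⟨true, mem_Kd.mpr ⟨mem_mth_t.mpr (Or.inr ?_), hs.symm⟩⟩
      simp only
      omega
  obtain ⟨s, hs⟩ := key (S.yc - S.a) le_rfl (by omega)
  obtain ⟨s', hs'⟩ := key (S.yc + S.a - 1) (by omega) (by omega)
  exact ⟨⟨s, sd_mem hs 0⟩, ⟨s', sd_mem hs' 2⟩⟩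

/-- **The weight of the environment of a slab, with an outer atlas.** -/
theorem low_outer (h : S.Ok) (hW : MthD.Win S W) (q : Rad S ρ R L₀ L)
    (hL : (S.k - 1) / 2 + 1 ≤ L₀) (h0 : 0 < r)
    {CO : Finset ((Option Bool × (ℤ × ℤ)) × (Option Bool × (ℤ × ℤ)))} {nO nP : ℕ} {t₁ : ℝ}
    (A : PAtlas (S.env W 0 0).Q (S.env W 0 0).F (S.ph W 0 0) (S.env W 0 0).Z CO r nO nP t₁)
    (hA : OutF.Outer h hW A) (hK : ∀ i, ∃ J, A.K i = .ver J) (ht0 : ∀ i, 0 ≤ sT (A.K i))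
    (hω : ∀ y, y ∉ GD h (ofWin h hW) → ω y = ω' y) (hX : LowP.XZ A ω')
    (hXm : ∀ s, Cell.Xc (S.env W 0 0).Q (S.env W 0 0).F (Kd S ρ L₀ s) (Pd S R L s) ω' = 0)
    (hXr : ∀ s, Cell.Xc ZQ S.D (Wb S s ρ) (Wb S s R)
      (fun f => ω ((emb h (ofWin h hW)).φF f)) = 0) :
    (∀ a ∈ (S.env W 0 0).Z, mate (S.env W 0 0).Q (S.env W 0 0).F ω a ∈ (S.env W 0 0).Z) ∧
      WZ (S.env W 0 0).Q (S.env W 0 0).F (S.ph W 0 0) (S.env W 0 0).Z ω =
        WZ ZQ S.D S.ψ (bS ZQ S.D) (fun f => ω ((emb h (ofWin h hW)).φF f)) * LowP.wtS A ω := by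
  refine low_slab h hW q h0 A hK ht0 ?_ ?_ ?_ ?_ hω hX hXm hXr
  · exact fun i => Finset.disjoint_left.mpr fun f hf => offB_GD h _ (hA.s4 i f hf)
  · exact fun i => Finset.disjoint_left.mpr fun f hf => offB_GD h _ (hA.nt i f hf)
  · exact fun i => Finset.disjoint_left.mpr fun f hf => offB_GD h _ (hA.mt i f hf)
  · intro a ha
    rcases hA.cov a ha with h1 | ⟨y, hy, rfl | rfl⟩ | ⟨b, hb, -, rfl⟩
    · exact Or.inl h1
    · exact Or.inr (Or.inr (cls_Kd h hL hy).1)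
    · exact Or.inr (Or.inr (cls_Kd h hL hy).2)
    · obtain ⟨f, hf, k, rfl⟩ := bS_sd hb
      refine Or.inr (Or.inl ?_)
      have h2 : (MthD.em h hW).side (sd ZQ f k) = sd (S.env W 0 0).Q ((MthD.em h hW).φF f) k :=
        (MthD.em h hW).side_sd hf k
      rw [h2]
      exact sd_mem (emb_mem h (ofWin h hW) hf) k

end

end Pool.Agent.SixB.LwD
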