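import Pool.Agent.Lib.SixB.S3OutG
import Pool.Agent.Lib.SixB.S3Good

/-!
# 6BD step 3, row R13: the event `good` for the environment of a slab

* `uns_of`: the environment of a slab is not shifted, its window contains the tubes.
* `good_dep_set`: `good` does not depend on the faces near the special vertices of the blocks and on the embedded faces
  of the polygon; `good_dep'`: the same for the boxes of the atlas `OutF.full_env`.
-/

set_option autoImplicit false
set_option linter.unusedSectionVars false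
set_option linter.unusedVariables false

namespace Pool.Agent.SixB.LowP

open Pool.Agent.Perc.Q Pool.Agent.Perc Pool.Agent.SixB
open Pool.Agent.SixB.MthD (Win em)

noncomputable section

variable {S : Slb} {W : Finset (ℤ × ℤ)} {r : ℕ}

/-- the tubes of the environment of a slab -/
theorem uns_of (h : S.Ok) (hW : BlkW.OWin S r W) : Gd.Uns (S.env W 0 0) (S.geo 0) := by
  have ha := h.ha
  have hak := h.hak
  have hx := h.hx
  have e1 : (S.geo 0).x1 = S.x1 := add_zero _
  have e2 : (S.geo 0).x2 = S.x2 := add_zero _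
  have e3 : (S.geo 0).k = S.k := rfl
  have e4 : (S.geo 0).yc = S.yc := rfl
  have e5 : (S.geo 0).a = S.a := rfl
  have hx' : (S.geo 0).x1 ≤ (S.geo 0).x2 := by rw [e1, e2]; omega
  have hk' : 4 ≤ (S.geo 0).k := by rw [e3]; omega
  refine ⟨rfl, rfl, ha, ?_, hk', hx', ?_⟩
  · show S.a < 3 * S.k + (S.x2 - S.x1).toNat
    omega
  · intro s i hi j hj f hf
    rw [Gd.mem_tR, e4, e5] at hf
    obtain ⟨-, -, h3, h4⟩ := Gd.tube_col (s := s) (x := f.1) hk' hi hj (by omega) (by omega) hx'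
    rw [e1, e3] at h3
    rw [e2, e3] at h4
    exact hW f (by omega) (by omega) (by push_cast; omega) (by push_cast; omega)

/-- the faces of a tube are not near a special vertex of the blocks and are no embedded faces of the polygon -/
theorem tube_off (h : S.Ok) (hW : BlkW.OWin S r W) (h1 : 2 * (S.a + 1) ≤ r) (h2 : 64 * r ≤ S.k)
    {s : Bool} {i j : ℕ} (hi : i < 3) (hj : j < 2) {f : ℤ × ℤ} (hf : f ∈ Gd.tR (S.geo 0) s i j) :
    ((none, f) : Option Bool × (ℤ × ℤ)) ∉ BlkW.Spb (S.env W 0 0) r ∧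
      ∀ g ∈ S.D, ((none, f) : Option Bool × (ℤ × ℤ)) ≠ (em h (hW.win h)).φF g := by
  have ha := h.ha
  have hak := h.hak
  have hx := h.hx
  have e1 : (S.geo 0).x1 = S.x1 := add_zero _
  have e2 : (S.geo 0).x2 = S.x2 := add_zero _
  have e3 : (S.geo 0).k = S.k := rfl
  have e4 : (S.geo 0).yc = S.yc := rfl
  have e5 : (S.geo 0).a = S.a := rfl
  have hx' : (S.geo 0).x1 ≤ (S.geo 0).x2 := by rw [e1, e2]; omega
  have hk' : 4 ≤ (S.geo 0).k := by rw [e3]; omega
  have hf' := Gd.mem_tR.mp hf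
  rw [e4, e5] at hf'
  obtain ⟨-, h4, -, -⟩ := Gd.tube_col (s := s) (x := f.1) hk' hi hj (by omega) (by omega) hx'
  rw [e1, e2] at h4
  have hK := BlkW.kap_of h hW h1 h2
  constructor
  · rintro ⟨-, ⟨b, j'⟩, hj'⟩
    have hH := hK.Hc_ge j'
    have e6 : (S.env W 0 0).gu.yc = S.yc := rfl
    have e7 : (S.env W 0 0).gu.k = S.k := rfl
    rw [e7] at hH
    unfold Bx at hj'
    rw [Finset.mem_product, Finset.mem_Ico, Finset.mem_Ico] at hj'
    obtain ⟨-, h5, h6⟩ := hj'
    cases b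
    · rw [hK.vt_false, e6] at h5 h6
      simp only at h5 h6
      omega
    · rw [BlkW.vt_true, e6] at h5 h6
      simp only at h5 h6
      omega
  · intro g hg hfg
    have h5 : Emb.shF (S.env W 0 0) g = none := (congrArg Prod.fst hfg).symm
    have h6 : f = g := congrArg Prod.snd hfg
    have d := h.eData (hW.win h).slab
    rcases Emb.mem_cases d hg with h7 | h7 | h7
    · unfold Emb.shF at h5
      rw [if_pos h7.1] at h5
      exact absurd h5 (by simp)
    · unfold Emb.shF at h5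
      rw [if_neg h7.2.1, if_pos h7.1] at h5
      exact absurd h5 (by simp)
    · have h8 := h7.1
      rw [mem_RF, ← h6] at h8
      exact h4 ⟨h8.1, h8.2.1⟩

open Classical in
/-- `good` does not depend on the faces near the special vertices -/
theorem good_dep_set (h : S.Ok) (hW : BlkW.OWin S r W) (h1 : 2 * (S.a + 1) ≤ r) (h2 : 64 * r ≤ S.k)
    {X : Set (Option Bool × (ℤ × ℤ))} (hX : ∀ x ∈ X, x ∈ BlkW.Spb (S.env W 0 0) r ∨
      ∃ g ∈ S.D, x = (em h (hW.win h)).φF g) :
    Dep Xᶜ (fun ω => if Gd.good (S.geo 0) ω then (1 : ℝ) else 0) := by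
  intro ω ω' hω
  have key : Gd.good (S.geo 0) ω ↔ Gd.good (S.geo 0) ω' := by
    refine Gd.good_dep fun s i hi j hj f hf => hω _ fun hx => ?_
    obtain ⟨h3, h4⟩ := tube_off h hW h1 h2 hi hj hf
    rcases hX _ hx with h5 | ⟨g, hg, h5⟩
    · exact h3 h5
    · exact h4 g hg h5
  simp only [key]

open Classical in
/-- **`good` does not depend on the boxes of radius `r / 2` of the atlas of the environment.** -/
theorem good_dep' (h : S.Ok) (hW : BlkW.OWin S r W) (h1 : 2 * (S.a + 1) ≤ r) (h2 : 64 * r ≤ S.k)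
    {ZD CD : Finset ((ℤ × ℤ) × (ℤ × ℤ))} {nS nN : ℕ} {t₀ : ℝ}
    (AD : PAtlas ZQ S.D S.ψ ZD CD r nS nN t₀) (hF : AD.Flat) {nS' nN' : ℕ} {t₁ : ℝ}
    {Z : Finset ((Option Bool × (ℤ × ℤ)) × (Option Bool × (ℤ × ℤ)))}
    (B : Atlas (S.env W 0 0).Q (S.env W 0 0).F (S.ph W 0 0) Z r nS' nN' t₁)
    (hB : ∀ i, (∀ x ∈ (B.ch i).box r, x ∈ BlkW.Spb (S.env W 0 0) r) ∨
      ∃ j, ∀ ρ, (B.ch i).box ρ = (Wdg (AD.m j) (AD.o j) (AD.v j) ρ).image (em h (hW.win h)).φF)
    (i : B.κ) :
    Dep (((B.ch i).box (r / 2) : Finset _) : Set (Option Bool × (ℤ × ℤ)))ᶜ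
      (fun ω => if Gd.good (S.geo 0) ω then (1 : ℝ) else 0) := by
  refine good_dep_set h hW h1 h2 fun x hx => ?_
  have hx' : x ∈ (B.ch i).box (r / 2) := by exact_mod_cast hx
  rcases hB i with h3 | ⟨j, hj⟩
  · left
    refine h3 x ?_
    unfold WChart.box at hx' ⊢
    exact Finset.image_subset_image (Wdg_mono (Nat.div_le_self _ _)) hx'
  · right
    rw [hj] at hx'
    obtain ⟨g, hg, rfl⟩ := Finset.mem_image.mp hx'
    refine ⟨g, ?_, rfl⟩
    have h4 := (AD.ch j).sub g (Wdg_mono (by omega) hg)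
    rwa [hF.sF] at h4

end

end Pool.Agent.SixB.LowP
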