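import Pool.Agent.Lib.SixB.S3LowP

/-!
# 6BD step 3, R13: two separate mouth cells as an extra event

`MB c D ρ R l₀ l ω`: the cell `Mth R h l` of the mouth chart `c` with the core `Mth ρ h l₀` is blocked. `MB.xc`: it is
not crossed. `two_mouths`: the event that two such cells are blocked is an extra event `Ext` of probability at least
`x₀` (one constant).
-/

set_option autoImplicit false
set_option linter.unusedSectionVars false

namespace Pool.Agent.SixB.LowP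

open Pool.Agent.Perc.Q Pool.Agent.Perc
open Pool.Agent.SixB hiding Zs_split
open Pool.Agent.SixB.Bk

noncomputable section

variable {V Φ : Type} [DecidableEq V] [DecidableEq Φ]
variable {Q : QC V Φ} {F : Finset Φ} {ψ : V × V → ℝ} {Z C : Finset (V × V)} {r nS nN : ℕ} {t₀ : ℝ}
  {ω ω' : Φ → Bool}

/-- the faces of a part of a mouth chart -/
def mim {lf : Bool} {w : ℤ × ℤ} {R' h l' : ℕ} (c : MChart Q F lf w R' h l') (ρ l : ℕ) : Finset Φ :=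
  (Mth lf w ρ h l).image c.φF

/-- the cell is blocked -/
def MB {lf : Bool} {w : ℤ × ℤ} {R' h l' : ℕ} (c : MChart Q F lf w R' h l') (D : Φ → Bool)
    (ρ R l₀ l : ℕ) (ω : Φ → Bool) : Prop := CellBlk Q D F (mim c ρ l₀) (mim c R l) ω

theorem MB.xc {lf : Bool} {w : ℤ × ℤ} {R' h l' : ℕ} {c : MChart Q F lf w R' h l'} {D : Φ → Bool}
    {ρ R l₀ l : ℕ} {cc : ℤ} (hD : ∀ f ∈ Mth lf w R' h l', D (c.φF f) = !Perc.parD cc f)
    (h1 : ρ ≤ R) (h2 : R ≤ R') (h3 : l₀ ≤ l) (h4 : l ≤ l') (h : MB c D ρ R l₀ l ω) :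
    Cell.Xc Q F (mim c ρ l₀) (mim c R l) ω = 0 := mch_Xc c hD h1 h2 h3 h4 h

theorem MB.up {lf : Bool} {w : ℤ × ℤ} {R' h l' : ℕ} {c : MChart Q F lf w R' h l'} {D : Φ → Bool}
    {ρ R l₀ l : ℕ} (hω : ∀ f, ω f = (!D f) → ω' f = !D f) (h : MB c D ρ R l₀ l ω) :
    MB c D ρ R l₀ l ω' := CellBlk.up hω h

theorem MB.congr {lf : Bool} {w : ℤ × ℤ} {R' h l' : ℕ} {c : MChart Q F lf w R' h l'} {D : Φ → Bool}
    {ρ R l₀ l : ℕ} (hω : ∀ f ∈ mim c R l, ω f = ω' f) : MB c D ρ R l₀ l ω ↔ MB c D ρ R l₀ l ω' :=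
  CellBlk.congr fun f hf => hω f (Finset.mem_sdiff.mp hf).1

/-- a mouth cell with its radii and colour -/
structure MCell (Q : QC V Φ) (F : Finset Φ) (D : Φ → Bool) where
  lf : Bool
  w : ℤ × ℤ
  R' : ℕ
  h : ℕ
  l' : ℕ
  c : MChart Q F lf w R' h l'
  ρ : ℕ
  R : ℕ
  l₀ : ℕ
  l : ℕ
  cc : ℤ
  h1 : ρ < R
  h2 : R ≤ R'
  h3 : R ≤ 8 * (R - ρ)
  h4 : 0 < h
  h5 : h ≤ ρ
  h6 : 0 < l₀
  h7 : l₀ < l
  h8 : l ≤ l'
  h9 : 2 * h ≤ l - l₀
  hD : ∀ f ∈ Mth lf w R' h l', D (c.φF f) = !Perc.parD cc f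

/-- the cell is blocked -/
def MCell.blk {D : Φ → Bool} (m : MCell Q F D) (ω : Φ → Bool) : Prop := MB m.c D m.ρ m.R m.l₀ m.l ω

/-- the faces of the cell -/
def MCell.cell {D : Φ → Bool} (m : MCell Q F D) : Finset Φ := mim m.c m.R m.l

/-- the faces of the core -/
def MCell.core {D : Φ → Bool} (m : MCell Q F D) : Finset Φ := mim m.c m.ρ m.l₀

theorem MCell.xc {D : Φ → Bool} {m : MCell Q F D} (h : m.blk ω) :
    Cell.Xc Q F m.core m.cell ω = 0 :=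
  MB.xc m.hD m.h1.le m.h2 m.h7.le m.h8 h

open Classical in
/-- **Two separate mouth cells.** -/
theorem two_mouths : ∃ x₀ : ℝ, 0 < x₀ ∧ ∀ {V Φ : Type} [DecidableEq V] [DecidableEq Φ]
    {Q : QC V Φ} {F : Finset Φ} {ψ : V × V → ℝ} {Z C : Finset (V × V)} {r nS nN : ℕ} {t₀ : ℝ}
    (A : PAtlas Q F ψ Z C r nS nN t₀) (D : Φ → Bool) (m₁ m₂ : MCell Q F D),
    (∀ i, Disjoint m₁.cell ((A.ch i).box r)) → (∀ i, Disjoint m₂.cell ((A.ch i).box r)) →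
    Ext A D (fun ω => m₁.blk ω ∧ m₂.blk ω) ∧
      x₀ ≤ av F (fun ω => if m₁.blk ω ∧ m₂.blk ω then (1 : ℝ) else 0) := by
  obtain ⟨c₀, hc, hp⟩ := mch_pos
  refine ⟨c₀ * c₀, by positivity, ?_⟩
  intro V Φ _ _ Q F ψ Z C r nS nN t₀ A D m₁ m₂ hd₁ hd₂
  refine ⟨⟨fun ω ω' hω h => ⟨h.1.up hω, h.2.up hω⟩, fun ω ω' hω h => ⟨?_, ?_⟩⟩, ?_⟩
  · exact (MB.congr fun f hf => hω f fun i =>
      Finset.disjoint_left.mp (hd₁ i) hf).1 h.1
  · exact (MB.congr fun f hf => hω f fun i =>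
      Finset.disjoint_left.mp (hd₂ i) hf).1 h.2
  · have key : ∀ m : MCell Q F D, c₀ ≤ av F (fun ω => if m.blk ω then (1 : ℝ) else 0) := by
      intro m
      exact hp m.c D m.cc m.ρ m.R m.l₀ m.l F m.h1 m.h2 m.h3 m.h4 m.h5 m.h6 m.h7 m.h8 m.h9 m.hD
        (Finset.sdiff_subset.trans (m.c.image_sub (WG.Mth_mono m.h2 m.h8)))
    have u : ∀ m : MCell Q F D, Up (fun f => !D f) (fun ω => if m.blk ω then (1 : ℝ) else 0) := by
      intro m ω ω' hω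
      show (if m.blk ω then (1 : ℝ) else 0) ≤ if m.blk ω' then (1 : ℝ) else 0
      by_cases h1 : m.blk ω
      · have h2 : m.blk ω' := h1.up hω
        rw [if_pos h1, if_pos h2]
      · rw [if_neg h1]
        split_ifs <;> norm_num
    have h1 := av_harris (fun f => !D f) F _ _ (u m₁) (u m₂)
    refine (mul_le_mul (key m₁) (key m₂) hc.le (hc.le.trans (key m₁))).trans
      (h1.trans (le_of_eq (av_congr fun T _ => ?_)))
    by_cases h2 : m₁.blk (ind T)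
    · by_cases h3 : m₂.blk (ind T)
      · rw [if_pos h2, if_pos h3, if_pos ⟨h2, h3⟩, mul_one]
      · rw [if_neg h3, mul_zero]
        exact (if_neg fun h : m₁.blk (ind T) ∧ m₂.blk (ind T) => h3 h.2).symm
    · rw [if_neg h2, zero_mul]
      exact (if_neg fun h : m₁.blk (ind T) ∧ m₂.blk (ind T) => h2 h.1).symm

/-! ## Rings of a polygon -/

/-- a wedge cell with its radii and colour -/
structure WCell (Q : QC V Φ) (F : Finset Φ) (D : Φ → Bool) where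
  m : ℕ
  o : ZMod 4
  v : ℤ × ℤ
  R' : ℕ
  c : WChart Q F m o v R'
  ρ : ℕ
  R : ℕ
  cc : ℤ
  hm : 1 ≤ m ∧ m ≤ 3
  h1 : ρ < R
  h2 : R ≤ R'
  h3 : R ≤ 8 * (R - ρ)
  hD : ∀ f ∈ Wdg m o v R', D (c.φF f) = !Perc.parD cc f

/-- the cell is blocked -/
def WCell.blk {D : Φ → Bool} (m : WCell Q F D) (ω : Φ → Bool) : Prop :=
  CellBlk Q D F (m.c.box m.ρ) (m.c.box m.R) ω

theorem WCell.xc {D : Φ → Bool} {m : WCell Q F D} (h : m.blk ω) :
    Cell.Xc Q F (m.c.box m.ρ) (m.c.box m.R) ω = 0 :=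
  wch_Xc m.c m.hD m.h1.le m.h2 h

open Classical in
/-- **Two wedge cells.** -/
theorem two_wedges : ∃ x₀ : ℝ, 0 < x₀ ∧ ∀ {V Φ : Type} [DecidableEq V] [DecidableEq Φ]
    {Q : QC V Φ} {F : Finset Φ} {ψ : V × V → ℝ} {Z C : Finset (V × V)} {r nS nN : ℕ} {t₀ : ℝ}
    (A : PAtlas Q F ψ Z C r nS nN t₀) (D : Φ → Bool) (m₁ m₂ : WCell Q F D),
    (∀ i, Disjoint (m₁.c.box m₁.R) ((A.ch i).box r)) →
    (∀ i, Disjoint (m₂.c.box m₂.R) ((A.ch i).box r)) →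
    Ext A D (fun ω => m₁.blk ω ∧ m₂.blk ω) ∧
      x₀ ≤ av F (fun ω => if m₁.blk ω ∧ m₂.blk ω then (1 : ℝ) else 0) := by
  obtain ⟨c₀, hc, hp⟩ := wch_pos
  refine ⟨c₀ * c₀, by positivity, ?_⟩
  intro V Φ _ _ Q F ψ Z C r nS nN t₀ A D m₁ m₂ hd₁ hd₂
  have up : ∀ (m : WCell Q F D) (ω ω' : Φ → Bool), (∀ f, ω f = (!D f) → ω' f = !D f) →
      m.blk ω → m.blk ω' := fun m ω ω' hω h => CellBlk.up hω h
  have cg : ∀ (m : WCell Q F D) (ω ω' : Φ → Bool), (∀ f ∈ m.c.box m.R, ω f = ω' f) →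
      (m.blk ω → m.blk ω') := fun m ω ω' hω h =>
    (CellBlk.congr fun f hf => hω f (Finset.mem_sdiff.mp hf).1).1 h
  refine ⟨⟨fun ω ω' hω h => ⟨up _ _ _ hω h.1, up _ _ _ hω h.2⟩, fun ω ω' hω h => ⟨?_, ?_⟩⟩, ?_⟩
  · exact cg _ _ _ (fun f hf => hω f fun i => Finset.disjoint_left.mp (hd₁ i) hf) h.1
  · exact cg _ _ _ (fun f hf => hω f fun i => Finset.disjoint_left.mp (hd₂ i) hf) h.2
  · have key : ∀ m : WCell Q F D, c₀ ≤ av F (fun ω => if m.blk ω then (1 : ℝ) else 0) := by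
      intro m
      exact hp m.c D m.cc m.ρ m.R F m.hm m.h1 m.h2 m.h3 m.hD
        (Finset.sdiff_subset.trans (wbox_F m.c m.h2))
    have u : ∀ m : WCell Q F D, Up (fun f => !D f) (fun ω => if m.blk ω then (1 : ℝ) else 0) := by
      intro m ω ω' hω
      show (if m.blk ω then (1 : ℝ) else 0) ≤ if m.blk ω' then (1 : ℝ) else 0
      by_cases h1 : m.blk ω
      · rw [if_pos h1, if_pos (up _ _ _ hω h1)]
      · rw [if_neg h1]
        split_ifs <;> norm_num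
    have h1 := av_harris (fun f => !D f) F _ _ (u m₁) (u m₂)
    refine (mul_le_mul (key m₁) (key m₂) hc.le (hc.le.trans (key m₁))).trans
      (h1.trans (le_of_eq (av_congr fun T _ => ?_)))
    by_cases h2 : m₁.blk (ind T)
    · by_cases h3 : m₂.blk (ind T)
      · rw [if_pos h2, if_pos h3, if_pos ⟨h2, h3⟩, mul_one]
      · rw [if_neg h3, mul_zero]
        exact (if_neg fun h : m₁.blk (ind T) ∧ m₂.blk (ind T) => h3 h.2).symm
    · rw [if_neg h2, zero_mul]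
      exact (if_neg fun h : m₁.blk (ind T) ∧ m₂.blk (ind T) => h2 h.1).symm

end

end Pool.Agent.SixB.LowP
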