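import Pool.Agent.Lib.SixB.S3OutG
import Pool.Agent.Lib.SixB.S3LowX
import Pool.Agent.Lib.SixB.S3LowE
import Pool.Agent.Lib.SixB.S3LowG2
import Pool.Agent.Lib.SixB.S3LowCa
import Pool.Agent.Lib.SixB.S3ColP
import Pool.Agent.Lib.SixB.S3AtlCells
import Pool.Agent.Lib.SixB.S3LowDetG

/-!
# 6BD step 3, R13: LOWER(E) for the environment of a slab

* `RgD S ρ R τ`: the rings of the polygon around the two D-mouths are not crossed; `MthX`: the D-mouths are not crossed.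
* `Two`, `exists_two`: the outer atlas and the full atlas of the environment.
* `low_env0`: LOWER(E) from the lower bound for the polygon with the event `RgD`, the positivity of the weight on the
  good event and an extra event for the two D-mouths.
-/

set_option autoImplicit false
set_option linter.unusedSectionVars false

namespace Pool.Agent.SixB.LowP

open Pool.Agent.Perc.Q Pool.Agent.Perc
open Pool.Agent.SixB hiding Zs_split
open Pool.Agent.SixB.MthD (em)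
open Pool.Agent.SixB.LwD

noncomputable section

attribute [local instance] Atlas.fκ Atlas.dκ

variable {S : Slb} {W : Finset (ℤ × ℤ)} {r ρ R l₀ l : ℕ}

/-- the rings of the polygon around the two D-mouths are not crossed -/
def RgD (S : Slb) (ρ R : ℕ) (τ : ℤ × ℤ → Bool) : Prop :=
  ∀ s, Cell.Xc ZQ S.D (Wb S s ρ) (Wb S s R) τ = 0

/-- the D-mouths are not crossed -/
def MthX (S : Slb) (W : Finset (ℤ × ℤ)) (ρ R l₀ l : ℕ) (ω : Option Bool × (ℤ × ℤ) → Bool) : Prop :=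
  ∀ s, Cell.Xc (S.env W 0 0).Q (S.env W 0 0).F (LwD.Kd S ρ l₀ s) (LwD.Pd S R l s) ω = 0

/-- a property of the kinds of a list of special vertices is a property of the kinds of the atlas -/
theorem kind_of {V Φ : Type} [DecidableEq V] [DecidableEq Φ] {Q : QC V Φ} {F : Finset Φ} {ψ : V × V → ℝ}
    {Z C : Finset (V × V)} {nS nN : ℕ} {t₀ : ℝ} (A : PAtlas Q F ψ Z C r nS nN t₀)
    {ι : Type} [Fintype ι] {K' : ι → SK} {m' : ι → ℕ}
    (h : ∀ g : SK → ℕ → ℝ, ∏ i, g (A.K i) (A.m i) = ∏ i, g (K' i) (m' i)) {P : SK → Prop}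
    (hP : ∀ i, P (K' i)) (i : A.κ) : P (A.K i) := by
  classical
  by_contra hc
  have h1 := h fun K _ => if P K then 1 else 0
  have h2 : ∏ i, (if P (K' i) then (1 : ℝ) else 0) = 1 :=
    Finset.prod_eq_one fun i _ => if_pos (hP i)
  rw [h2] at h1
  have h3 : ∏ i, (if P (A.K i) then (1 : ℝ) else 0) = 0 :=
    Finset.prod_eq_zero (Finset.mem_univ i) (if_neg hc)
  rw [h3] at h1
  exact zero_ne_one h1

/-- the weight of the polygon as a function of the configuration of the environment -/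
def fD (h : S.Ok) (hW : MthD.Win S W) (ω : Option Bool × (ℤ × ℤ) → Bool) : ℝ :=
  WZ ZQ S.D S.ψ (bS ZQ S.D) (fun f => ω ((em h hW).φF f))

open Classical in
/-- the indicator of the rings -/
def eD (h : S.Ok) (hW : MthD.Win S W) (ρ R : ℕ) (ω : Option Bool × (ℤ × ℤ) → Bool) : ℝ :=
  if RgD S ρ R (fun f => ω ((em h hW).φF f)) then 1 else 0

theorem dep_em (h : S.Ok) (hW : MthD.Win S W) {α : Type} {g : (ℤ × ℤ → Bool) → α} (hg : Dep (S.D : Set (ℤ × ℤ)) g) :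
    Dep ((S.D.image (em h hW).φF : Finset _) : Set (Option Bool × (ℤ × ℤ)))
      (fun ω => g (fun f => ω ((em h hW).φF f))) := by
  intro ω ω' hω
  refine hg _ _ fun f hf => hω _ ?_
  exact_mod_cast Finset.mem_image_of_mem _ (by exact_mod_cast hf)

theorem Wb_sub (h : S.Ok) (hR : R ≤ S.k) (s : Bool) : Wb S s R ⊆ S.D := by
  have hx := h.hx
  have hs := h.slab.sub
  rintro ⟨x, y⟩ hf
  have hR' : (R : ℤ) ≤ S.k := by exact_mod_cast hR
  unfold Wb at hf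
  obtain ⟨h1, h2⟩ := WG.mem_Wdg.mp hf
  have h1' := CM.mem_Bx.mp h1
  cases s
  · have h3 := CM.quad_right.mp h2
    unfold LwD.dv at h1' h3
    simp only [Bool.false_eq_true, if_false] at h1' h3
    exact hs x y (by omega) (by omega) (by omega) (by omega)
  · have h3 := CM.quad_left.mp h2
    unfold LwD.dv at h1' h3
    simp only [if_true] at h1' h3
    exact hs x y (by omega) (by omega) (by omega) (by omega)

theorem rg_congr (h : S.Ok) (hR : R ≤ S.k) {τ τ' : ℤ × ℤ → Bool} (hτ : ∀ f ∈ S.D, τ f = τ' f) :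
    RgD S ρ R τ ↔ RgD S ρ R τ' := by
  refine forall_congr' fun s => ?_
  rw [Cell.Xc_congr fun f hf => hτ f (Wb_sub h hR s (Finset.sdiff_subset hf))]

theorem av_em (h : S.Ok) (hW : MthD.Win S W) {g : (ℤ × ℤ → Bool) → ℝ} (hg : Dep (S.D : Set (ℤ × ℤ)) g) :
    av (S.env W 0 0).F (fun ω => g (fun f => ω ((em h hW).φF f))) = av S.D g :=
  Gd.av_chart (em h hW) hg

/-- the outer atlas and the full atlas of the environment of a slab -/
structure Two (S : Slb) (h : S.Ok) (W : Finset (ℤ × ℤ)) {r : ℕ} (hW : BlkW.OWin S r W) {CO}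
    {nO nP nO' nP' : ℕ} {t₁ : ℝ}
    (A : PAtlas (S.env W 0 0).Q (S.env W 0 0).F (S.ph W 0 0) (S.env W 0 0).Z CO r nO nP t₁)
    (B : Atlas (S.env W 0 0).Q (S.env W 0 0).F (S.ph W 0 0) (S.env W 0 0).Z r nO' nP' t₁) (pD : ℝ) : Prop where
  out : OutF.Outer h (hW.win h) A
  spb : ∀ i, ∀ x ∈ (A.ch i).box r, x ∈ BlkW.Spb (S.env W 0 0) r
  prod : ∀ g : SK → ℕ → ℝ, ∏ i, g (A.K i) (A.m i) =
        ∏ i : Bool × Fin 14, g (.ver (BlkW.Jt S.mu S.ml i)) (BlkW.mt i)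
  box : ∀ i, ∀ x ∈ (B.ch i).box (r / 2), x ∈ BlkW.Spb (S.env W 0 0) r ∨ ∃ g ∈ S.D, x = (em h (hW.win h)).φF g
  prodB : ∏ i, sF (B.K i) (B.m i) r = pD * prF A

theorem exists_two (nS nN N : ℕ) (t₀ : ℝ) (S : Slb) (h : S.Ok) (W : Finset (ℤ × ℤ)) (r : ℕ)
    (hW : BlkW.OWin S r W) (k1 : 2 * (S.a + 1) ≤ r) (k2 : 64 * r ≤ S.k)
    (k4 : 38 * BlkW.Ln (S.env W 0 0) r + 10 ≤ N)
    {ZD CD : Finset ((ℤ × ℤ) × (ℤ × ℤ))} (AD : PAtlas ZQ S.D S.ψ ZD CD r nS nN t₀) (hF : AD.Flat)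
    (hCD : bS ZQ S.D ⊆ CD)
    (hcen : ∀ i, ¬ nearS S.x1 S.x2 (S.yc - S.a) (S.yc + S.a) (8 * r) (AD.v i))
    (hth : ∀ f ∈ S.D, S.yc - S.k ≤ f.2 → f.2 < S.yc + S.k →
      ¬ (S.x1 - (8 * r + 2) ≤ f.1 ∧ f.1 < S.x1) ∧ ¬ (S.x2 ≤ f.1 ∧ f.1 < S.x2 + (8 * r + 2))) :
    ∃ (A : PAtlas (S.env W 0 0).Q (S.env W 0 0).F (S.ph W 0 0) (S.env W 0 0).Z (BlkW.Cout (S.env W 0 0) r) r
        28 N (min t₀ (1 / 9)))
      (B : Atlas (S.env W 0 0).Q (S.env W 0 0).F (S.ph W 0 0) (S.env W 0 0).Z r (28 + nS) (N + 10 + nN)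
        (min t₀ (1 / 9))), Two S h W hW A B (FP r (St.pvts AD)) := by
  obtain ⟨A, hA, a2, a5⟩ := OutF.outer_ok h hW k1 k2
  obtain ⟨B, b1, b2⟩ := OutF.full h (hW.win h) k1 k2 A hA AD hF hCD hcen hth
  refine ⟨bump A le_rfl k4 (min_le_right t₀ (1 / 9)), bumpA B le_rfl
    (show 38 * BlkW.Ln (S.env W 0 0) r + 10 + 10 + nN ≤ N + 10 + nN by omega) le_rfl, ?_⟩
  refine ⟨⟨hA.s4, hA.s1, hA.nt, hA.mt, hA.cov⟩, a2, a5, ?_, ?_⟩
  · intro i x hx
    rcases b2 i with ⟨j, hj⟩ | ⟨j, hj⟩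
    · left
      have hx' : x ∈ (B.ch i).box (r / 2) := hx
      rw [hj] at hx'
      exact a2 j x (Finset.image_subset_image (Wdg_mono (by omega)) hx')
    · right
      have hx' : x ∈ (B.ch i).box (r / 2) := hx
      rw [hj] at hx'
      obtain ⟨g, hg, rfl⟩ := Finset.mem_image.mp hx'
      refine ⟨g, ?_, rfl⟩
      have h3 := (AD.ch j).sub g (Wdg_mono (by omega) hg)
      rwa [hF.sF] at h3
  · have e1 : ∏ i, sF (B.K i) (B.m i) r = FP r (St.vts B) := St.prod_vts B r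
    have e2 : ∏ i, sF (A.K i) (A.m i) r = FP r (St.pvts A) := St.prod_tys _ _ _
    show ∏ i, sF (B.K i) (B.m i) r = FP r (St.pvts AD) * ∏ i, sF (A.K i) (A.m i) r
    rw [e1, e2, b1, St.FP_add, mul_comm]

open Classical in
/-- **LOWER(E) for the environment of a slab.** -/
theorem low_env0 (nS nN N : ℕ) (t₀ x₀ cD : ℝ) (h0 : 0 < t₀) (h1 : t₀ ≤ 1) (hx₀ : 0 < x₀) (hcD : 0 < cD) :
    ∃ c : ℝ, 0 < c ∧ ∃ M : ℕ, 0 < M ∧ ∀ (S : Slb) (h : S.Ok) (W : Finset (ℤ × ℤ)) (r : ℕ)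
      (hW : BlkW.OWin S r W) (ρ R l₀ l : ℕ), Rad S ρ R l₀ l → (S.k - 1) / 2 + 1 ≤ l₀ → 2 * (S.a + 1) ≤ r → 64 * r ≤ S.k → M * S.a ≤ S.k →
      38 * BlkW.Ln (S.env W 0 0) r + 10 ≤ N →
      ∀ {ZD CD : Finset ((ℤ × ℤ) × (ℤ × ℤ))} (AD : PAtlas ZQ S.D S.ψ ZD CD r nS nN t₀), AD.Flat →
      bS ZQ S.D ⊆ CD →
      (∀ i, ¬ nearS S.x1 S.x2 (S.yc - S.a) (S.yc + S.a) (8 * r) (AD.v i)) →
      (∀ f ∈ S.D, S.yc - S.k ≤ f.2 → f.2 < S.yc + S.k →
        ¬ (S.x1 - (8 * r + 2) ≤ f.1 ∧ f.1 < S.x1) ∧ ¬ (S.x2 ≤ f.1 ∧ f.1 < S.x2 + (8 * r + 2))) →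
      (∀ ω, Gd.good (S.geo 0) ω → 0 ≤ WZ (S.env W 0 0).Q (S.env W 0 0).F (S.ph W 0 0) (S.env W 0 0).Z ω) →
      (∀ τ, 0 ≤ WZ ZQ S.D S.ψ (bS ZQ S.D) τ) →
      cD * FP r (St.pvts AD) ≤
        av S.D (fun τ => WZ ZQ S.D S.ψ (bS ZQ S.D) τ * if RgD S ρ R τ then 1 else 0) →
      -- the mouths
      (∀ {nS' nN' : ℕ} {t₁ : ℝ} {CO} (A : PAtlas (S.env W 0 0).Q (S.env W 0 0).F (S.ph W 0 0) (S.env W 0 0).Z
        CO r nS' nN' t₁), (∀ i, ∀ x ∈ (A.ch i).box r, x ∈ BlkW.Spb (S.env W 0 0) r) →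
        ∃ x : (Option Bool × (ℤ × ℤ) → Bool) → Prop, Ext A (ColP.dcol Prod.snd) x ∧
          x₀ ≤ av (S.env W 0 0).F (fun ω => if x ω then (1 : ℝ) else 0) ∧ ∀ ω, x ω → MthX S W ρ R l₀ l ω) →
      c * ((∏ i : Bool × Fin 14, sF (.ver (BlkW.Jt S.mu S.ml i)) (BlkW.mt i) r) * FP r (St.pvts AD)) ≤
        av (S.env W 0 0).F (WZ (S.env W 0 0).Q (S.env W 0 0).F (S.ph W 0 0) (S.env W 0 0).Z) := by
  obtain ⟨t₁, ht₁⟩ : ∃ t₁ : ℝ, t₁ = min t₀ (1 / 9) := ⟨_, rfl⟩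
  have ht0 : 0 < t₁ := by rw [ht₁]; exact lt_min h0 (by norm_num)
  have ht1 : t₁ ≤ 1 := by rw [ht₁]; exact (min_le_left _ _).trans h1
  have ht9 : t₁ ≤ 1 / 9 := by rw [ht₁]; exact min_le_right _ _
  obtain ⟨c, ε, hc, hε, H⟩ := lowE 28 N (28 + nS) (N + 10 + nN) t₁ x₀ cD 1 ht0 ht1 hx₀ hcD one_pos
  obtain ⟨M, hM, hgood⟩ := Gd.good_small hε
  refine ⟨c, hc, M, hM, ?_⟩
  intro S h W r hW ρ R l₀ l q hL k1 k2 k3 k4 ZD CD AD hF hCD hcen hth hpos hpD0 hLD hmth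
  have hex := exists_two nS nN N t₀ S h W r hW k1 k2 k4 AD hF hCD hcen hth
  rw [← ht₁] at hex
  obtain ⟨A, B, hAB⟩ := hex
  have ha := h.ha
  have hr : 0 < r := by omega
  have hRk : R ≤ S.k := by have := q.a3; omega
  obtain ⟨x, hx1, hx2, hx3⟩ := hmth A hAB.spb
  have hcol : Col A (ColP.dcol Prod.snd) := ColP.col (ColP.plQ_env _) A
  have hKs := kind_of A hAB.prod (P := fun K => ∃ J, K = .ver J) fun i => ⟨_, rfl⟩
  have hs : S.mu + S.ml = Real.pi / 3 := by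
    unfold Slb.mu Slb.ml
    ring
  have hKt := kind_of A hAB.prod (P := fun K => 1 / 9 ≤ sT K) fun i => BlkW.Jt_pos h.mu1 h.mu2 hs i
  have hGo : ∀ f ∈ OutF.offB S, f ∉ S.D.image (em h (hW.win h)).φF := by
    intro f hf hf'
    obtain ⟨g, hg, rfl⟩ := Finset.mem_image.mp hf'
    exact OutF.emb_offB h (hW.win h) hg hf
  have hdS : ∀ i, Disjoint ((A.ch i).box (4 * r)) (S.D.image (em h (hW.win h)).φF) := fun i =>
    Finset.disjoint_left.mpr fun f hf hf' => hGo f (hAB.out.s4 i f hf) hf'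
  have hfe : ∀ ω : Option Bool × (ℤ × ℤ) → Bool,
      PX A (ColP.dcol Prod.snd) x (off (ColP.dcol Prod.snd) (S.D.image (em h (hW.win h)).φF) ω) →
      eD h (hW.win h) ρ R ω = 1 → fD h (hW.win h) ω * wtS A ω ≤
        WZ (S.env W 0 0).Q (S.env W 0 0).F (S.ph W 0 0) (S.env W 0 0).Z ω := by
    intro ω hω he
    have hRg : RgD S ρ R (fun f => ω ((em h (hW.win h)).φF f)) := by
      by_contra hc
      unfold eD at he
      rw [if_neg hc] at he
      exact zero_ne_one he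
    have h5 := (LwD.low_outer (ω := ω)
      (ω' := off (ColP.dcol Prod.snd) (S.D.image (em h (hW.win h)).φF) ω) h (hW.win h) q hL hr
      A hAB.out hKs (fun i => (show (0 : ℝ) ≤ 1 / 9 by norm_num).trans (hKt i))
      (fun f hf => (off_of hf).symm) (hω.1.xz hcol) (hx3 _ hω.2) hRg).2
    exact h5.symm.le
  have hdepD : Dep (S.D : Set (ℤ × ℤ)) (fun τ => WZ ZQ S.D S.ψ (bS ZQ S.D) τ) :=
    dep_WZ Finset.Subset.rfl S.ψ
  have hdepR : Dep (S.D : Set (ℤ × ℤ)) (fun τ => if RgD S ρ R τ then (1 : ℝ) else 0) := fun τ τ' hτ => by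
    have h7 : RgD S ρ R τ ↔ RgD S ρ R τ' := rg_congr h hRk fun f hf => hτ f (by exact_mod_cast hf)
    simp only [h7]
  have hLD' : cD * FP r (St.pvts AD) ≤ av (S.env W 0 0).F
      (fun ω => fD h (hW.win h) ω * eD h (hW.win h) ρ R ω) := by
    have h6 := av_em (g := fun τ => WZ ZQ S.D S.ψ (bS ZQ S.D) τ * if RgD S ρ R τ then 1 else 0) h (hW.win h)
      fun τ τ' hτ => by
        have h7 := hdepD τ τ' hτ
        have h8 := hdepR τ τ' hτ
        simp only at h7 h8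
        simp only [h7, h8]
    rw [← h6] at hLD
    exact hLD
  have hgd : 1 - av (S.env W 0 0).F (fun ω => if Gd.good (S.geo 0) ω then (1 : ℝ) else 0) ≤ ε := by
    have h8 := hgood (S.env W 0 0) (S.geo 0) (uns_of h hW) k3
    have h9 : av (S.env W 0 0).F (fun ω => if Gd.good (S.geo 0) ω then (0 : ℝ) else 1) =
        1 - av (S.env W 0 0).F (fun ω => if Gd.good (S.geo 0) ω then (1 : ℝ) else 0) := by
      have e1 : (fun ω : Option Bool × (ℤ × ℤ) → Bool => if Gd.good (S.geo 0) ω then (0 : ℝ) else 1) =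
          fun ω => 1 - (if Gd.good (S.geo 0) ω then (1 : ℝ) else 0) := by
        funext ω
        split_ifs <;> simp
      rw [e1, av_sub, av_const]
    rw [h9] at h8
    exact h8
  have key := H A B (CE := B.cells hr ht0.le) (ColP.dcol Prod.snd) x (S.D.image (em h (hW.win h)).φF)
    (fD h (hW.win h)) (eD h (hW.win h) ρ R) (B.isCells hr ht0.le) (B.cells_cardI hr ht0.le) rfl hcol hx1 hx2 hr
    (fun i => ht9.trans (hKt i)) hdS (dep_em h (hW.win h) hdepD) (dep_em h (hW.win h) hdepR)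
    (fun ω => hpD0 _) (fun ω => by unfold eD; split_ifs <;> simp) hfe
    (fun ω => if Gd.good (S.geo 0) ω then (1 : ℝ) else 0) (fun ω => by split_ifs <;> simp)
    (fun i => good_dep_set h hW k1 k2 fun y hy => hAB.box i y (by exact_mod_cast hy))
    (fun ω hω => hpos ω (by
      by_contra hc
      rw [if_neg hc] at hω
      exact zero_ne_one hω))
    (FP r (St.pvts AD)) hLD' (by rw [hAB.prodB, one_mul]) hgd
  have hprA : prF A = ∏ i : Bool × Fin 14, sF (.ver (BlkW.Jt S.mu S.ml i)) (BlkW.mt i) r :=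
    hAB.prod fun K m => sF K m r
  rw [hprA] at key
  rw [mul_comm (∏ i : Bool × Fin 14, _)]
  exact key

end

end Pool.Agent.SixB.LowP
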