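import Pool.Agent.Lib.SixB.S3BlkB
import Pool.Agent.Lib.SixB.S3PAtl
import Pool.Agent.Lib.SixB.S3KindD
import Pool.Agent.Lib.SixB.S3LowG
import Pool.Agent.Lib.SixB.S3AtlUpC

/-!
# 6BD step 3, R13: the probability half of LOWER(E)

`A` a partial atlas of the surface `F` off a set `G` of faces (the polygon), `D` a colouring of its charts.
* `Col A D`, `PBlk A D ω`: all cells of `A` are blocked; `XZ A ω`: no cell of `A` is crossed; `PBlk.xz`;
  `pblk_pos`: probability at least `g₀ (nS, nN)`.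
* `off D G ω`: the configuration with the blocking colour on `G`. `PX A D x`: `PBlk` with an extra event `x`, `Ext`:
  `x` increases in the blocking colour and does not depend on the special boxes; `px_off_pos`, `dep_px_off`.
* `kch`: chain data of a partial atlas; `wtS A ω = ∏ sT ^ sN (4 r)`, `prF A = ∏ sF r`.
* `low_prod`: if `f ∏ sT ^ sN (4 r) ≤ W` on the event `PX A D x (off D G ω)`, `e ω = 1`, with `f`, `e` functions of the
  faces of `G`, then `c E[f e] ∏ sF r ≤ E[W; e, PX (off)]`.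
-/

set_option autoImplicit false
set_option linter.unusedSectionVars false

namespace Pool.Agent.SixB.LowP

open Pool.Agent.Perc.Q Pool.Agent.Perc
open Pool.Agent.SixB hiding Zs_split
open Pool.Agent.SixB.Bk

noncomputable section

variable {V Φ : Type} [DecidableEq V] [DecidableEq Φ]
variable {Q : QC V Φ} {F : Finset Φ} {ψ : V × V → ℝ} {Z C : Finset (V × V)} {r nS nN : ℕ} {t₀ : ℝ}
  {ω ω' : Φ → Bool}

/-- `D` is a colouring of the charts of the partial atlas -/
structure Col (A : PAtlas Q F ψ Z C r nS nN t₀) (D : Φ → Bool) where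
  cS : A.κ → ℤ
  cN : A.ι → ℤ
  cM : A.μ → ℤ
  hS : ∀ i, ∀ f ∈ Wdg (A.m i) (A.o i) (A.v i) (4 * r + 1), D ((A.ch i).φF f) = !Perc.parD (cS i) f
  hN : ∀ i, ∀ f ∈ Wdg (A.m' i) (A.o' i) (A.v' i) (2 * r + 1),
    D ((A.nch i).φF f) = !Perc.parD (cN i) f
  hM : ∀ i, ∀ f ∈ Mth (A.lf i) (A.w i) (2 * r + 1) (A.h i) (A.l i + 1),
    D ((A.mch i).φF f) = !Perc.parD (cM i) f

/-- the core of a mouth -/
def mcore (A : PAtlas Q F ψ Z C r nS nN t₀) (i : A.μ) : Finset Φ :=
  (Mth (A.lf i) (A.w i) (r + A.h i + 1) (A.h i) (A.l i / 2 + 1)).image (A.mch i).φF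

/-- the cell of a mouth -/
def mcell (A : PAtlas Q F ψ Z C r nS nN t₀) (i : A.μ) : Finset Φ :=
  (Mth (A.lf i) (A.w i) (2 * r) (A.h i) (A.l i)).image (A.mch i).φF

/-- the blocking events -/
def ev (A : PAtlas Q F ψ Z C r nS nN t₀) (D : Φ → Bool) : A.κ ⊕ (A.ι ⊕ A.μ) → (Φ → Bool) → Prop
  | .inl i => CellBlk Q D F ((A.ch i).box (2 * r)) ((A.ch i).box (4 * r))
  | .inr (.inl i) => CellBlk Q D F ((A.nch i).box r) ((A.nch i).box (2 * r))
  | .inr (.inr i) => CellBlk Q D F (mcore A i) (mcell A i)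

/-- all cells are blocked -/
def PBlk (A : PAtlas Q F ψ Z C r nS nN t₀) (D : Φ → Bool) (ω : Φ → Bool) : Prop :=
  ∀ k, ev A D k ω

/-- no cell is crossed -/
def XZ (A : PAtlas Q F ψ Z C r nS nN t₀) (ω : Φ → Bool) : Prop :=
  (∀ i, Cell.Xc Q F ((A.ch i).box (2 * r)) ((A.ch i).box (4 * r)) ω = 0) ∧
  (∀ i, Cell.Xc Q F ((A.nch i).box r) ((A.nch i).box (2 * r)) ω = 0) ∧
  ∀ i, Cell.Xc Q F (mcore A i) (mcell A i) ω = 0

theorem PBlk.xz {A : PAtlas Q F ψ Z C r nS nN t₀} {D : Φ → Bool} (H : Col A D) (h : PBlk A D ω) :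
    XZ A ω := by
  refine ⟨fun i => ?_, fun i => ?_, fun i => ?_⟩
  · exact wch_Xc (A.ch i) (H.hS i) (by omega) (by omega) (h (.inl i))
  · exact wch_Xc (A.nch i) (H.hN i) (by omega) (by omega) (h (.inr (.inl i)))
  · have h1 := A.h_lt i
    exact mch_Xc (A.mch i) (H.hM i) (by omega) (by omega) (by omega) (by omega) (h (.inr (.inr i)))

/-- the faces of the ring of a cell -/
def ring (A : PAtlas Q F ψ Z C r nS nN t₀) : A.κ ⊕ (A.ι ⊕ A.μ) → Finset Φ
  | .inl i => (A.ch i).box (4 * r) \ (A.ch i).box (2 * r)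
  | .inr (.inl i) => (A.nch i).box (2 * r) \ (A.nch i).box r
  | .inr (.inr i) => mcell A i \ mcore A i

theorem ev_congr {A : PAtlas Q F ψ Z C r nS nN t₀} {D : Φ → Bool} {k : A.κ ⊕ (A.ι ⊕ A.μ)}
    (h : ∀ f ∈ ring A k, ω f = ω' f) : ev A D k ω ↔ ev A D k ω' := by
  rcases k with i | i | i
  · exact CellBlk.congr h
  · exact CellBlk.congr h
  · exact CellBlk.congr h

theorem ev_up {A : PAtlas Q F ψ Z C r nS nN t₀} {D : Φ → Bool} {k : A.κ ⊕ (A.ι ⊕ A.μ)}
    (hω : ∀ f, ω f = (!D f) → ω' f = !D f) (h : ev A D k ω) : ev A D k ω' := by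
  rcases k with i | i | i
  · exact CellBlk.up hω h
  · exact CellBlk.up hω h
  · exact CellBlk.up hω h

/-- the rings do not meet the boxes of radius `r` of the special charts -/
theorem ring_off {A : PAtlas Q F ψ Z C r nS nN t₀} {k : A.κ ⊕ (A.ι ⊕ A.μ)} {f : Φ}
    (hf : f ∈ ring A k) (j : A.κ) : f ∉ (A.ch j).box r := by
  rcases k with i | i | i
  · obtain ⟨h1, h2⟩ := Finset.mem_sdiff.mp hf
    intro hj
    by_cases hij : i = j
    · subst hij
      exact h2 (wbox_sub (A.ch i) (by omega) hj)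
    · exact Finset.disjoint_left.mp (A.disj i j hij) h1 (wbox_sub (A.ch j) (by omega) hj)
  · obtain ⟨h1, -⟩ := Finset.mem_sdiff.mp hf
    exact fun hj => Finset.disjoint_left.mp (A.ndisj i j) h1 hj
  · obtain ⟨h1, -⟩ := Finset.mem_sdiff.mp hf
    exact fun hj => Finset.disjoint_left.mp (A.mdisj i j) h1 hj

open Classical in
/-- **The probability that all cells of a partial atlas are blocked.** -/
theorem pblk_pos (nS nN : ℕ) : ∃ g₀ : ℝ, 0 < g₀ ∧ ∀ {V Φ : Type} [DecidableEq V] [DecidableEq Φ]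
    {Q : QC V Φ} {F : Finset Φ} {ψ : V × V → ℝ} {Z C : Finset (V × V)} {r : ℕ} {t₀ : ℝ}
    (A : PAtlas Q F ψ Z C r nS nN t₀) (D : Φ → Bool), Col A D → 0 < r →
    g₀ ≤ av F (fun ω => if PBlk A D ω then (1 : ℝ) else 0) := by
  obtain ⟨c₁, hc₁, p₁⟩ := wch_pos
  obtain ⟨c₂, hc₂, p₂⟩ := mch_pos
  set c : ℝ := min (min c₁ c₂) 1 with hc
  have hc0 : 0 < c := lt_min (lt_min hc₁ hc₂) one_pos
  have hc1 : c ≤ 1 := min_le_right _ _
  have hcc₁ : c ≤ c₁ := (min_le_left _ _).trans (min_le_left _ _)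
  have hcc₂ : c ≤ c₂ := (min_le_left _ _).trans (min_le_right _ _)
  refine ⟨c ^ (nS + (nN + nN)), by positivity, ?_⟩
  intro V Φ _ _ Q F ψ Z C r t₀ A D H hr
  have hall : ∀ k, c ≤ av F (fun ω => if ev A D k ω then (1 : ℝ) else 0) := by
    rintro (i | i | i)
    · exact hcc₁.trans (p₁ (A.ch i) D (H.cS i) (2 * r) (4 * r) F (A.m_rng i) (by omega) (by omega)
        (by omega) (H.hS i) (Finset.sdiff_subset.trans (wbox_F (A.ch i) (by omega))))
    · exact hcc₁.trans (p₁ (A.nch i) D (H.cN i) r (2 * r) F (A.m'_rng i) (by omega) (by omega)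
        (by omega) (H.hN i) (Finset.sdiff_subset.trans (wbox_F (A.nch i) (by omega))))
    · have h1 := A.h_lt i
      exact hcc₂.trans (p₂ (A.mch i) D (H.cM i) (r + A.h i + 1) (2 * r) (A.l i / 2 + 1) (A.l i) F
        (by omega) (by omega) (by omega) h1.1 (by omega) (by omega) (by omega) (by omega)
        (by omega) (H.hM i) (Finset.sdiff_subset.trans
          ((A.mch i).image_sub (WG.Mth_mono (by omega) (by omega)))))
  have key := av_harris_events (fun f => !D f) F (Finset.univ : Finset (A.κ ⊕ (A.ι ⊕ A.μ)))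
    (fun k ω => ev A D k ω) (fun k _ ω ω' hω h => ev_up hω h) hc0.le (fun k _ => hall k)
  have hcard : (Finset.univ : Finset (A.κ ⊕ (A.ι ⊕ A.μ))).card ≤ nS + (nN + nN) := by
    rw [Finset.card_univ, Fintype.card_sum, Fintype.card_sum]
    exact Nat.add_le_add A.cardS (Nat.add_le_add A.cardN A.cardM)
  refine (pow_le_pow_of_le_one hc0.le hc1 hcard).trans (key.trans (le_of_eq ?_))
  refine av_congr fun T _ => ?_
  have : (∀ k ∈ (Finset.univ : Finset (A.κ ⊕ (A.ι ⊕ A.μ))), ev A D k (ind T)) ↔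
      PBlk A D (ind T) := ⟨fun h k => h k (Finset.mem_univ k), fun h k _ => h k⟩
  simp only [this]

/-! ## The blocking colour on a set of faces -/

/-- the configuration with the blocking colour on `G` -/
def off (D : Φ → Bool) (G : Finset Φ) (ω : Φ → Bool) (f : Φ) : Bool := if f ∈ G then !D f else ω f

theorem off_of {D : Φ → Bool} {G : Finset Φ} {f : Φ} (h : f ∉ G) : off D G ω f = ω f := if_neg h

theorem off_up {D : Φ → Bool} {G : Finset Φ} (f : Φ) (h : ω f = !D f) : off D G ω f = !D f := by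
  unfold off
  split_ifs
  · rfl
  · exact h

/-- the faces off `G` and off the special boxes of radius `r` -/
def offS (A : PAtlas Q F ψ Z C r nS nN t₀) (G : Finset Φ) : Set Φ :=
  {f | f ∉ G ∧ ∀ i, f ∉ (A.ch i).box r}

/-- the blocking event with an extra event `x` -/
def PX (A : PAtlas Q F ψ Z C r nS nN t₀) (D : Φ → Bool) (x : (Φ → Bool) → Prop)
    (ω : Φ → Bool) : Prop := PBlk A D ω ∧ x ω

/-- an event which increases in the blocking colour and does not depend on the special boxes of radius `r` -/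
structure Ext (A : PAtlas Q F ψ Z C r nS nN t₀) (D : Φ → Bool) (x : (Φ → Bool) → Prop) : Prop where
  up : ∀ ω ω' : Φ → Bool, (∀ f, ω f = (!D f) → ω' f = !D f) → x ω → x ω'
  dep : ∀ ω ω' : Φ → Bool, (∀ f, (∀ i, f ∉ (A.ch i).box r) → ω f = ω' f) → x ω → x ω'

theorem Ext.true (A : PAtlas Q F ψ Z C r nS nN t₀) (D : Φ → Bool) : Ext A D fun _ => True :=
  ⟨fun _ _ _ _ => trivial, fun _ _ _ _ => trivial⟩

open Classical in
theorem dep_px_off (A : PAtlas Q F ψ Z C r nS nN t₀) (D : Φ → Bool) (G : Finset Φ)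
    {x : (Φ → Bool) → Prop} (hx : Ext A D x) :
    Dep (offS A G) (fun ω => if PX A D x (off D G ω) then (1 : ℝ) else 0) := by
  intro ω ω' h
  have h1 : PBlk A D (off D G ω) ↔ PBlk A D (off D G ω') := by
    refine forall_congr' fun k => ev_congr fun f hf => ?_
    unfold off
    split_ifs with hG
    · rfl
    · exact h f ⟨hG, fun j => ring_off hf j⟩
  have h2 : ∀ f, (∀ i, f ∉ (A.ch i).box r) → off D G ω f = off D G ω' f := by
    intro f hf
    unfold off
    split_ifs with hG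
    · rfl
    · exact h f ⟨hG, hf⟩
  have h3 : x (off D G ω) ↔ x (off D G ω') :=
    ⟨hx.dep _ _ h2, hx.dep _ _ fun f hf => (h2 f hf).symm⟩
  have : PX A D x (off D G ω) ↔ PX A D x (off D G ω') := and_congr h1 h3
  simp only [this]

open Classical in
theorem px_off_pos {g₀ x₀ : ℝ} (hg₀ : 0 ≤ g₀) (A : PAtlas Q F ψ Z C r nS nN t₀)
    (D : Φ → Bool) (G : Finset Φ) {x : (Φ → Bool) → Prop} (hx : Ext A D x)
    (h : g₀ ≤ av F (fun ω => if PBlk A D ω then (1 : ℝ) else 0))
    (h' : x₀ ≤ av F (fun ω => if x ω then (1 : ℝ) else 0)) (hx₀ : 0 ≤ x₀) :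
    g₀ * x₀ ≤ av F (fun ω => if PX A D x (off D G ω) then (1 : ℝ) else 0) := by
  have u1 : Up (fun f => !D f) (fun ω => if PBlk A D ω then (1 : ℝ) else 0) := by
    intro ω ω' hω
    show (if PBlk A D ω then (1 : ℝ) else 0) ≤ if PBlk A D ω' then (1 : ℝ) else 0
    by_cases h1 : PBlk A D ω
    · have h2 : PBlk A D ω' := fun k => ev_up hω (h1 k)
      rw [if_pos h1, if_pos h2]
    · rw [if_neg h1]
      split_ifs <;> norm_num
  have u2 : Up (fun f => !D f) (fun ω => if x ω then (1 : ℝ) else 0) := by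
    intro ω ω' hω
    show (if x ω then (1 : ℝ) else 0) ≤ if x ω' then (1 : ℝ) else 0
    by_cases h1 : x ω
    · rw [if_pos h1, if_pos (hx.up _ _ hω h1)]
    · rw [if_neg h1]
      split_ifs <;> norm_num
  have h1 := av_harris (fun f => !D f) F _ _ u1 u2
  refine (mul_le_mul h h' hx₀ (hg₀.trans h)).trans (h1.trans (av_mono fun T _ => ?_))
  by_cases h2 : PBlk A D (ind T)
  · by_cases h3 : x (ind T)
    · have h4 : PX A D x (off D G (ind T)) :=
        ⟨fun k => ev_up off_up (h2 k), hx.up _ _ off_up h3⟩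
      rw [if_pos h2, if_pos h3, if_pos h4, mul_one]
    · rw [if_neg h3, mul_zero]
      split_ifs <;> norm_num
  · rw [if_neg h2, zero_mul]
    split_ifs <;> norm_num

/-! ## Chain data -/

/-- the special charts of a partial atlas, chain radius `4 r` -/
def kch (A : PAtlas Q F ψ Z C r nS nN t₀) : KCh Q F A.κ where
  K := A.K
  m := A.m
  o := A.o
  v := A.v
  R := fun _ => 4 * r + 1
  r := 4 * r
  ch := A.ch
  hR := fun _ => Nat.le_succ _
  hm := A.m_rng
  disj := A.disj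

/-- the weight of the special charts at the scale of the boxes `4 r` -/
def wtS (A : PAtlas Q F ψ Z C r nS nN t₀) (ω : Φ → Bool) : ℝ :=
  ∏ i, sT (A.K i) ^ sN (A.K i) (A.m i) (A.o i) (A.v i) (4 * r) (fun f => ω ((A.ch i).φF f))

/-- the product of the local factors -/
def prF (A : PAtlas Q F ψ Z C r nS nN t₀) : ℝ := ∏ i, sF (A.K i) (A.m i) r

open Classical in
/-- **Lower bound by independence**: inside `G` a given number, outside the local factors. -/
theorem low_prod (nS nN : ℕ) (t₀ x₀ : ℝ) (h0 : 0 < t₀) (h1 : t₀ ≤ 1) (hx₀ : 0 < x₀) :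
    ∃ c : ℝ, 0 < c ∧ ∀ {V Φ : Type} [DecidableEq V] [DecidableEq Φ] {Q : QC V Φ} {F : Finset Φ}
      {ψ : V × V → ℝ} {Z C : Finset (V × V)} {r : ℕ} (A : PAtlas Q F ψ Z C r nS nN t₀)
      (D : Φ → Bool) (x : (Φ → Bool) → Prop) (G : Finset Φ) (W f e : (Φ → Bool) → ℝ), Col A D →
      Ext A D x → x₀ ≤ av F (fun ω => if x ω then (1 : ℝ) else 0) → 0 < r →
      (∀ i, t₀ ≤ sT (A.K i)) → (∀ i, Disjoint ((A.ch i).box (4 * r)) G) →
      Dep (G : Set Φ) f → Dep (G : Set Φ) e → (∀ ω, 0 ≤ f ω) → (∀ ω, e ω = 0 ∨ e ω = 1) →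
      (∀ ω, PX A D x (off D G ω) → e ω = 1 → f ω * wtS A ω ≤ W ω) →
      c * (av F (fun ω => f ω * e ω) * prF A) ≤
        av F (fun ω => W ω * (e ω * if PX A D x (off D G ω) then (1 : ℝ) else 0)) := by
  obtain ⟨cM, A₀, hA, hG⟩ := KCh.good
  obtain ⟨g₀, hg₀, hg⟩ := pblk_pos nS nN
  obtain ⟨c, hc, hlow⟩ := lower_own cM t₀ (2 / Real.sqrt 3) A₀ (max (cM 4) 1 ^ nS) (g₀ * x₀) t₀ 1 nS
    h0 h1 AU.one_le_q (mul_pos hg₀ hx₀) h0 h1 one_pos
  refine ⟨c, hc, ?_⟩
  intro V Φ _ _ Q F ψ Z C r A D x G W f e H hxE hxP hr ht hGd hf he hf0 he01 hW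
  set X := (kch A).chain with hX
  have hgood : X.Good (fun i => sT (A.K i)) cM t₀ (2 / Real.sqrt 3) A₀ :=
    hG (kch A) t₀ h0.le fun i => Or.inl (ht i)
  have hB0 : ∀ i, X.B i 0 = ((A.ch i).box (4 * r) : Set Φ) := fun i => by
    rw [hX, KCh.chain_B, pow_zero, Nat.div_one]
    rfl
  have hB2 : ∀ i, X.B i 2 = ((A.ch i).box r : Set Φ) := fun i => by
    rw [hX, KCh.chain_B]
    show ((A.ch i).box (4 * r / 2 ^ 2) : Set Φ) = _
    rw [show 4 * r / 2 ^ 2 = r by omega]
  have hF2 : ∀ i, X.F i (sT (A.K i)) 2 = sF (A.K i) (A.m i) r := fun i => by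
    have h2 := (kch A).F_eq i 2
    have h3 : 4 * r / 2 ^ 2 = r := by omega
    refine Eq.trans h2 ?_
    show sF (A.K i) (A.m i) (4 * r / 2 ^ 2) = _
    rw [h3]
  have hcard : (Finset.univ : Finset A.κ).card ≤ nS := by
    rw [Finset.card_univ]
    exact A.cardS
  have e0 : ∀ v ω, (X.shift 2).N v 0 ω = X.N v 2 ω := fun v ω => by
    show X.N v (0 + 2) ω = _
    rw [zero_add]
  have eF : ∀ v, (X.shift 2).F v (sT (A.K v)) 0 = sF (A.K v) (A.m v) r := fun v => by
    rw [X.shift_F, zero_add, hF2]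
  have eB0 : ∀ v, (X.shift 2).B v 0 = X.B v 2 := fun v => by
    show X.B v (0 + 2) = _
    rw [zero_add]
  have eB1 : ∀ v, (X.shift 2).B v 1 = X.B v 3 := fun v => rfl
  have hB20 : ∀ v, X.B v 2 ⊆ X.B v 0 := fun v => (X.hB v 1).trans (X.hB v 0)
  have hB30 : ∀ v, X.B v 3 ⊆ X.B v 0 := fun v => (X.hB v 2).trans (hB20 v)
  have hGB : ∀ v, Disjoint (G : Set Φ) (X.B v 0) := by
    intro v
    rw [hB0, Finset.disjoint_coe]
    exact (hGd v).symm
  have key := hlow (Φ → Bool) Φ A.κ (LH.avSys F) (X.shift 2) (fun i => sT (A.K i)) (hgood.shift 2)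
    Finset.univ hcard (fun v ω => sT (A.K v) ^ X.N v 2 ω) (fun ω => f ω * e ω) (G : Set Φ)
    (fun ω => ∑ v, (X.M v 0 ω + X.M v 1 ω))
    (fun ω => if PX A D x (off D G ω) then (1 : ℝ) else 0) (offS A G)
    (fun v _ => by
      rw [eB0]
      exact (X.hN v 2).comp fun n => sT (A.K v) ^ n)
    (fun v _ ω => pow_nonneg (h0.le.trans (ht v)) _)
    (fun v _ ω => by rw [e0])
    (fun v _ => by
      rw [one_mul]
      unfold ChainData.F
      simp only [e0]
      exact le_rfl)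
    (fun ω ω' h => by
      have h2 := hf ω ω' h
      have h3 := he ω ω' h
      simp only [h2, h3])
    (fun ω => mul_nonneg (hf0 ω) (by rcases he01 ω with h | h <;> rw [h]; norm_num))
    (fun v _ => by
      rw [eB0]
      exact (hGB v).mono_right (hB20 v))
    (by
      rw [Set.disjoint_left]
      intro x hx hx'
      exact hx'.1 (Finset.mem_coe.mp hx))
    (by
      intro ω ω' hω
      refine Finset.sum_congr rfl fun v hv => ?_
      refine (UL.dep_two v).mono ?_ ω ω' hω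
      intro x hx hx'
      exact Set.disjoint_left.1 (hGB v) hx' hx.1)
    (fun v _ => by
      rw [eB1]
      intro ω ω' hω
      refine Finset.sum_congr rfl fun v' hv' => ?_
      refine (UL.dep_two v').mono ?_ ω ω' hω
      intro x hx hx'
      by_cases h : v' = v
      · subst h
        exact hx.2 hx'
      · exact Set.disjoint_left.1 (X.hdis v' v h) hx.1 (hB30 v hx'))
    (UL.mom_two hgood Finset.univ nS hcard)
    (dep_px_off A D G hxE)
    (fun v _ => by
      rw [eB0, hB2, Set.disjoint_left]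
      intro x hx hx'
      exact hx.2 v (Finset.mem_coe.mp hx'))
    (fun ω => by split_ifs <;> norm_num)
    (fun ω => by split_ifs <;> norm_num)
    (px_off_pos hg₀.le A D G hxE (hg A D H hr) hxP hx₀.le)
  simp only [eF] at key
  rw [LH.avSys_E, LH.avSys_E] at key
  refine le_trans key (av_mono fun T _ => ?_)
  have hN : ∀ v, X.N v 0 (ind T) =
      sN (A.K v) (A.m v) (A.o v) (A.v v) (4 * r) (fun x => ind T ((A.ch v).φF x)) := fun v => by
    rw [hX, KCh.chain_N, pow_zero, Nat.div_one]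
    rfl
  by_cases hb : PX A D x (off D G (ind T))
  · rw [if_pos hb, mul_one, mul_one]
    rcases he01 (ind T) with h2 | h2
    · rw [h2]
      simp
    · rw [h2, mul_one, mul_one]
      refine le_trans ?_ (hW _ hb h2)
      refine mul_le_mul_of_nonneg_left ?_ (hf0 _)
      unfold wtS
      rw [← Finset.prod_pow_eq_pow_sum, ← Finset.prod_mul_distrib]
      refine Finset.prod_le_prod
        (fun v _ => mul_nonneg (pow_nonneg (h0.le.trans (ht v)) _) (pow_nonneg h0.le _))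
        fun v _ => ?_
      rw [← hN v]
      exact UL.two_steps (D := X) (t := fun i => sT (A.K i)) h0 h1 (ht v) _
  · rw [if_neg hb]
    simp

end

end Pool.Agent.SixB.LowP
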