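import Pool.Agent.Lib.SixB.S3PAtl
import Pool.Agent.Lib.SixB.S3TurnM
import Pool.Agent.Lib.SixB.S3ChartX
import Pool.Agent.Lib.SixB.S3AtlLowB
import Pool.Agent.Lib.SixB.S3LowP

/-!
# 6BD step 3, row R20: the cells of a partial atlas with vertex charts

* `NCell Q F ψ Z`: a cell in which all arcs have the weight `√3`; `NCell.ofW`, `NCell.ofM`: natural charts, mouths.
* `pcells`: a family of natural cells and the special charts (all of the kind `ver`) of a partial atlas as `Cells`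
  for a set `Z₁` of sides; `pcells_exact`, `pcells_Nb`.
-/

set_option autoImplicit false
set_option linter.unusedSectionVars false

namespace Pool.Agent.SixB.LwD

open Pool.Agent.Perc.Q Pool.Agent.Perc Relation
open Pool.Agent.SixB Pool.Agent.SixB.S3T

noncomputable section

variable {V Φ : Type} [DecidableEq V] [DecidableEq Φ]
variable {Q : QC V Φ} {F : Finset Φ} {ψ : V × V → ℝ} {Z Z₁ Cv : Finset (V × V)} {r nS nN : ℕ}
  {t₀ : ℝ} {ω : Φ → Bool} {a b : V × V}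

/-- a cell in which all arcs have the weight `√3` -/
structure NCell (Q : QC V Φ) (F : Finset Φ) (ψ : V × V → ℝ) (Z : Finset (V × V)) where
  G₀ : Finset Φ
  G : Finset Φ
  sub : G₀ ⊆ G
  subF : G ⊆ F
  sep : ∀ b ∈ bS Q G, b ∈ dE Q G₀ → b ∈ bS Q F
  nat : ∀ ω, ∀ a ∈ bS Q F, a ∈ bS Q G → mate Q G ω a ∈ bS Q F → wt Q G ω ψ a = Real.sqrt 3
  z : ∀ b ∈ bS Q G, b ∈ bS Q F → b ∈ Z

/-- the cell of a natural chart -/
def NCell.ofW {m : ℕ} {o : ZMod 4} {v : ℤ × ℤ} (c : WChart Q F m o v (2 * r + 1)) (hr : 0 < r)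
    (hm : 1 ≤ m ∧ m ≤ 3) (hJ : c.Jump ψ 0 ∨ c.Jump ψ (Real.pi / 3))
    (hZ : c.walls (2 * r) ⊆ Z) : NCell Q F ψ Z where
  G₀ := c.box r
  G := c.box (2 * r)
  sub := box_mono c (by omega)
  subF := box_sub_F c (by omega)
  sep := CM.wedge_sep c hm (by omega) (by omega)
  nat := fun ω a haF haG hb =>
    (wall_nat c hm.1 hm.2 (by omega) hJ (mem_walls c hm.1 hm.2 (by omega) haG haF) hb).2
  z := fun _ hb hF => hZ (mem_walls c hm.1 hm.2 (by omega) hb hF)

/-- the cell of a mouth -/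
def NCell.ofM {lf : Bool} {w : ℤ × ℤ} {h l : ℕ} (c : MChart Q F lf w (2 * r + 1) h (l + 1))
    (hl : 0 < h ∧ 2 * (h + 1) ≤ r ∧ 8 * h ≤ l) (hJ : c.Nat ψ 0 ∨ c.Nat ψ (Real.pi / 3))
    (hZ : ∀ j, (mthWall lf w (2 * r) h l j).image c.side ⊆ Z) : NCell Q F ψ Z where
  G₀ := (Mth lf w (r + h + 1) h (l / 2 + 1)).image c.φF
  G := (Mth lf w (2 * r) h l).image c.φF
  sub := Finset.image_subset_image (WG.Mth_mono (by omega) (by omega))
  subF := c.toPChart.image_sub (WG.Mth_mono (by omega) (by omega))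
  sep := CM.mouth_sep c hl.1 (by omega) (by omega) (by omega) (by omega) (by omega)
  nat := fun ω a haF haG hb =>
    (mth_nat' (ρ := 2 * r) (l := l) c hl.1 (by omega) (by omega) (by omega) (by omega) hJ haG haF hb).2.2
  z := fun b hb hF => by
    obtain ⟨j, hj⟩ := AL.mth_walls (by omega) c hb hF
    exact hZ j hj

/-! ## Cells -/

section cells

variable {τ : Type} [Fintype τ]

/-- walls of different special charts are disjoint -/
theorem walls_disj (A : PAtlas Q F ψ Z Cv r nS nN t₀) {i j : A.κ} (hij : i ≠ j)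
    (ha : a ∈ (A.ch i).walls (4 * r)) (hb : a ∈ (A.ch j).walls (4 * r)) : False := by
  have h1 := A.m_rng i
  have h2 := A.m_rng j
  obtain ⟨f, hf, k, rfl⟩ := bS_sd (walls_sub_box (A.ch i) h1.1 h1.2 (by omega) ha)
  obtain ⟨g, hg, l, h3⟩ := bS_sd (walls_sub_box (A.ch j) h2.1 h2.2 (by omega) hb)
  rw [← (sd_inj h3).1] at hg
  exact Finset.disjoint_left.mp (A.disj i j hij) hf hg

theorem inW_walls {m : ℕ} {o : ZMod 4} {v : ℤ × ℤ} {R ρ : ℕ} (c : WChart Q F m o v R)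
    (h : a ∈ inW c ρ) : a ∈ c.walls ρ := by
  rw [walls_eq]
  exact Finset.mem_union_left _ h

theorem outW_walls {m : ℕ} {o : ZMod 4} {v : ℤ × ℤ} {R ρ : ℕ} (c : WChart Q F m o v R)
    (h : a ∈ outW c ρ) : a ∈ c.walls ρ := by
  rw [walls_eq]
  exact Finset.mem_union_right _ h

/-- the arcs of a special chart of the kind `ver` -/
theorem ver_arc (A : PAtlas Q F ψ Z Cv r nS nN t₀) (hr : 0 < r) {i : A.κ} {J : ℝ}
    (hK : A.K i = .ver J) (haF : a ∈ bS Q F) (ha : a ∈ dE Q ((A.ch i).box (2 * r)))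
    (hb : mate Q ((A.ch i).box (4 * r)) ω a ∈ bS Q F) :
    ((a ∈ inW (A.ch i) (4 * r) ∧ mate Q ((A.ch i).box (4 * r)) ω a ∈ outW (A.ch i) (4 * r)) ∨
      (a ∈ outW (A.ch i) (4 * r) ∧ mate Q ((A.ch i).box (4 * r)) ω a ∈ inW (A.ch i) (4 * r)) ∨
        wt Q ((A.ch i).box (4 * r)) ω ψ a = Real.sqrt 3) := by
  have h1 := A.m_rng i
  have hJ : (A.ch i).Jump ψ J := by
    have := A.jmp i
    rw [hK] at this
    exact this
  have haB : a ∈ bS Q ((A.ch i).box (4 * r)) :=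
    bS_anti (box_sub_F _ (by omega)) haF (mate_loc'.dE_mono (box_mono _ (by omega)) ha)
  have haw := mem_walls (A.ch i) h1.1 h1.2 (by omega) haB haF
  obtain ⟨-, ⟨-, h5⟩ | ⟨h5 | h5, -⟩⟩ := wall_arc (A.ch i) h1.1 h1.2 (by omega) hJ haw hb
  · exact Or.inr (Or.inr h5)
  · exact Or.inl h5
  · exact Or.inr (Or.inl h5)

/-- **The cells of a family of natural cells and of the special charts of a partial atlas.** -/
def pcells (A : PAtlas Q F ψ Z Cv r nS nN t₀) (hr : 0 < r) (N : τ → NCell Q F ψ Z)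
    (hK : ∀ i, ∃ J, A.K i = .ver J) (ht0 : ∀ i, 0 ≤ sT (A.K i)) (hZ₁ : Z₁ ⊆ bS Q F)
    (hW : ∀ i, (A.ch i).walls (4 * r) ⊆ Z₁)
    (hC : ∀ a ∈ Z₁, (∃ i, a ∈ dE Q (N i).G₀) ∨ ∃ i, a ∈ (A.ch i).walls (2 * r)) :
    Cells Q F ψ Z₁ τ A.κ where
  I := Finset.univ
  S := Finset.univ
  G₀ := fun i => (N i).G₀
  G := fun i => (N i).G
  B₀ := fun i => (A.ch i).box r
  B₁ := fun i => (A.ch i).box (2 * r)
  B := fun i => (A.ch i).box (4 * r)
  PA := fun i => inW (A.ch i) (4 * r)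
  PB := fun i => outW (A.ch i) (4 * r)
  t := fun i => sT (A.K i)
  Z_F := hZ₁
  G₀_sub := fun i _ => (N i).sub
  G_sub := fun i _ => (N i).subF
  G_sep := fun i _ => (N i).sep
  nat := by
    intro i _ ω a ha ha0 hb
    have haF := hZ₁ ha
    have haG : a ∈ bS Q (N i).G := bS_anti (N i).subF haF (mate_loc'.dE_mono (N i).sub ha0)
    rw [(N i).nat ω a haF haG hb, abs_of_nonneg (Real.sqrt_nonneg 3)]
  B₀_sub := fun i _ => box_mono _ (by omega)
  B₁_sub := fun i _ => box_mono _ (by omega)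
  B_sub := fun i _ => box_sub_F _ (by omega)
  B_sep := fun i _ => CM.wedge_sep (A.ch i) (A.m_rng i) (by omega) (by omega)
  PA_Z := fun i _ a ha => hW i (inW_walls _ ha)
  PB_F := fun i _ a ha => walls_sub_F _ (by omega) (outW_walls _ ha)
  dAB := by
    intro i _ j _
    rw [Finset.disjoint_left]
    intro a ha hb
    by_cases hij : i = j
    · subst hij
      exact in_disj_out (A.ch i) (A.m_rng i).1 (A.m_rng i).2 (by omega) ha hb
    · exact walls_disj A hij (inW_walls _ ha) (outW_walls _ hb)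
  dAA := by
    intro i _ j _ hij
    rw [Finset.disjoint_left]
    intro a ha hb
    exact walls_disj A hij (inW_walls _ ha) (inW_walls _ hb)
  t_nonneg := fun i _ => ht0 i
  spec := by
    intro i _ ω a ha ha0 hb
    obtain ⟨J, hJ⟩ := hK i
    rcases ver_arc A hr hJ (hZ₁ ha) ha0 hb with h | h | h
    · exact Or.inl h
    · exact Or.inr (Or.inl h)
    · rw [h, abs_of_nonneg (Real.sqrt_nonneg 3)]
      exact Or.inr (Or.inr le_rfl)
  ovw := by
    intro i _ ω a ha _ hb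
    obtain ⟨J, hJ⟩ := hK i
    have h1 := A.m_rng i
    have hj : (A.ch i).Jump ψ J := by
      have := A.jmp i
      rw [hJ] at this
      exact this
    have := (wt_walls (ω := ω) (a := a) (A.ch i) h1.1 h1.2 (show 4 * r ≤ 4 * r + 1 by omega) hj rfl).2.2.1
      ha hb
    rw [this, hJ]
    rfl
  cover := by
    intro a ha
    rcases hC a ha with ⟨i, h⟩ | ⟨i, h⟩
    · exact Or.inl ⟨i, Finset.mem_univ _, h⟩
    · refine Or.inr ⟨i, Finset.mem_univ _, ?_⟩
      exact (mem_bS.mp (walls_sub_box (A.ch i) (A.m_rng i).1 (A.m_rng i).2 (by omega) h)).1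

variable {A : PAtlas Q F ψ Z Cv r nS nN t₀} {hr : 0 < r} {N : τ → NCell Q F ψ Z}
  {hK : ∀ i, ∃ J, A.K i = .ver J} {ht0 : ∀ i, 0 ≤ sT (A.K i)} {hZ₁ : Z₁ ⊆ bS Q F}
  {hW : ∀ i, (A.ch i).walls (4 * r) ⊆ Z₁}
  {hC : ∀ a ∈ Z₁, (∃ i, a ∈ dE Q (N i).G₀) ∨ ∃ i, a ∈ (A.ch i).walls (2 * r)}

theorem pcells_exact : (pcells A hr N hK ht0 hZ₁ hW hC).Exact where
  nat := by
    intro i _ ω a ha ha0 hb
    have haF := hZ₁ ha
    exact (N i).nat ω a haF (bS_anti (N i).subF haF (mate_loc'.dE_mono (N i).sub ha0)) hb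
  spec := by
    intro i _ ω a ha ha0 hb
    obtain ⟨J, hJ⟩ := hK i
    rcases ver_arc A hr hJ (hZ₁ ha) ha0 hb with h | h | h
    · exact Or.inl h
    · exact Or.inr (Or.inl h)
    · exact Or.inr (Or.inr (Or.inl h))

theorem pcells_Nb (i : A.κ) (ω : Φ → Bool) : (pcells A hr N hK ht0 hZ₁ hW hC).Nb i ω =
    sN (A.K i) (A.m i) (A.o i) (A.v i) (4 * r) (fun f => ω ((A.ch i).φF f)) := by
  obtain ⟨J, hJ⟩ := hK i
  have h1 := A.m_rng i
  have e : sN (A.K i) (A.m i) (A.o i) (A.v i) (4 * r) (fun f => ω ((A.ch i).φF f)) =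
      Nwd (A.m i) (A.o i) (A.v i) (4 * r) (fun f => ω ((A.ch i).φF f)) := by
    rw [hJ]
    rfl
  rw [e]
  refine Eq.trans ?_ (card_cross (A.ch i) h1.1 h1.2 (show 4 * r ≤ 4 * r + 1 by omega) ω)
  unfold Cells.Nb
  congr 1
  ext a
  rw [mem_ovr, Finset.mem_filter]
  constructor
  · rintro ⟨h2, -, h3⟩
    exact ⟨h2, h3⟩
  · rintro ⟨h2, h3⟩
    exact ⟨h2, walls_sub_box (A.ch i) h1.1 h1.2 (by omega) (inW_walls _ h2), h3⟩

theorem pcells_prod (ω : Φ → Bool) : ∏ v ∈ (pcells A hr N hK ht0 hZ₁ hW hC).S,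
    (pcells A hr N hK ht0 hZ₁ hW hC).t v ^ (pcells A hr N hK ht0 hZ₁ hW hC).Nb v ω =
      LowP.wtS A ω := by
  unfold LowP.wtS
  refine Finset.prod_congr rfl fun i _ => ?_
  rw [pcells_Nb]
  rfl

end cells

end

end Pool.Agent.SixB.LwD
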