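import Pool.Agent.Lib.SixB.S3EnvN
import Pool.Agent.Lib.SixB.CARf
import Pool.Agent.Lib.SixB.CADomLowB
import Pool.Agent.Lib.SixB.CAFrame

/-!
# 6BD step 3, row R19 (3): the contour near the two mouths

* `exists_straight`: a straight sequence of boundary sides is a piece of the contour.
* `Wall2 D M G v k s`: near the vertex `v` of a vertical wall the domain `D` is a half plane (on the right, `s = 1`,
  or on the left, `s = -1`, of the wall) and the contour `G` runs along the wall.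
* `Wall2.near`: the contour vertices near `v`.
* `mouth_rings`: the rings around the two mouths are disjoint from `G` and can be added to the two nets.
-/

set_option autoImplicit false

namespace Pool.Agent.SixB.LowM

open Finset Pool.Agent.Perc Pool.Agent.Perc6 Pool.Agent.SixB.Low Pool.Agent.SixB.CARf

variable {D : Finset (ℤ × ℤ)} {M : ℕ} {G : ℤ → ℤ × ℤ}

/-- a straight sequence of boundary sides is a piece of the contour -/
theorem exists_straight (hG : Cont D M G) (p : ℕ → ℤ × ℤ) {n : ℕ} (hn : 0 < n)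
    (h : ∀ i < n, LSide D (p i) (p (i + 1))) : ∃ j : ℤ, ∀ i ≤ n, G (j + i) = p i := by
  obtain ⟨j, hj, hj'⟩ := hG.all _ _ (h 0 hn)
  refine ⟨j, fun i hi => ?_⟩
  induction i with
  | zero => simpa using hj
  | succ i ih =>
    have h1 := ih (by omega)
    obtain ⟨j', h2, h3⟩ := hG.all _ _ (h i (by omega))
    obtain ⟨q, hq⟩ := hG.inj (j + i) j' (h1.trans h2.symm)
    have h4 : G (j + ((i + 1 : ℕ) : ℤ)) = G (j' + 1) := by
      rw [show j + ((i + 1 : ℕ) : ℤ) = j' + 1 + q * (M : ℤ) by push_cast; linarith]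
      exact hG.per_zmul _ _
    rw [h4, h3]

/-- near `v` the domain is a half plane on one side of a vertical wall, and the contour runs along the wall -/
structure Wall2 (D : Finset (ℤ × ℤ)) (G : ℤ → ℤ × ℤ) (v : ℤ × ℤ) (k r : ℤ) (b : Bool) (j₀ : ℤ) :
    Prop where
  hr : 0 < r
  hrk : r ≤ k
  /-- the domain is on the right -/
  inR : b = true → ∀ s t : ℤ, 0 ≤ s → s < r → -r ≤ t → t < r → (v.1 + s, v.2 + t) ∈ D
  outR : b = true → ∀ s t : ℤ, 0 ≤ s → s < r → -r ≤ t → t < r → (v.1 - 1 - s, v.2 + t) ∉ D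
  gR : b = true → ∀ t : ℤ, -k ≤ t → t ≤ k → G (j₀ + t) = (v.1, v.2 - t)
  /-- the domain is on the left -/
  inL : b = false → ∀ s t : ℤ, 0 ≤ s → s < r → -r ≤ t → t < r → (v.1 - 1 - s, v.2 + t) ∈ D
  outL : b = false → ∀ s t : ℤ, 0 ≤ s → s < r → -r ≤ t → t < r → (v.1 + s, v.2 + t) ∉ D
  gL : b = false → ∀ t : ℤ, -k ≤ t → t ≤ k → G (j₀ + t) = (v.1, v.2 + t)

/-- the contour vertices near `v` are on the wall -/
theorem Wall2.fst (hG : Cont D M G) {v : ℤ × ℤ} {k r j₀ : ℤ} {b : Bool} (h : Wall2 D G v k r b j₀) {j : ℤ}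
    (h1 : v.1 - r < (G j).1) (h2 : (G j).1 < v.1 + r) (h3 : v.2 - r < (G j).2)
    (h4 : (G j).2 < v.2 + r) : (G j).1 = v.1 := by
  obtain ⟨x, y⟩ := v
  have hs := hG.side j
  generalize G j = p at *
  generalize G (j + 1) = q at *
  obtain ⟨px, py⟩ := p
  simp only at h1 h2 h3 h4 ⊢
  by_contra hne
  have key : ∀ (A : ℤ × ℤ → Prop) (f f' : ℤ × ℤ), True → True := fun _ _ _ _ => trivial
  rcases lt_or_gt_of_ne hne with hlt | hgt
  · -- left of the wall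
    cases b with
    | true =>
      have ho : ∀ u w : ℤ, x - r ≤ u → u < x → y - r ≤ w → w < y + r → (u, w) ∉ D := by
        intro u w a1 a2 a3 a4
        have := h.outR rfl (x - 1 - u) (w - y) (by omega) (by omega) (by omega) (by omega)
        simp only at this
        rwa [show x - 1 - (x - 1 - u) = u by ring, show y + (w - y) = w by ring] at this
      rcases hs with ⟨-, k1, k2⟩ | ⟨-, k1, k2⟩ | ⟨-, k1, k2⟩ | ⟨-, k1, k2⟩ <;>
        exact ho _ _ (by omega) (by omega) (by omega) (by omega) k1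
    | false =>
      have hi : ∀ u w : ℤ, x - r ≤ u → u < x → y - r ≤ w → w < y + r → (u, w) ∈ D := by
        intro u w a1 a2 a3 a4
        have := h.inL rfl (x - 1 - u) (w - y) (by omega) (by omega) (by omega) (by omega)
        simp only at this
        rwa [show x - 1 - (x - 1 - u) = u by ring, show y + (w - y) = w by ring] at this
      rcases hs with ⟨-, k1, k2⟩ | ⟨-, k1, k2⟩ | ⟨-, k1, k2⟩ | ⟨-, k1, k2⟩ <;>
        exact k2 (hi _ _ (by omega) (by omega) (by omega) (by omega))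
  · cases b with
    | true =>
      have hi : ∀ u w : ℤ, x ≤ u → u < x + r → y - r ≤ w → w < y + r → (u, w) ∈ D := by
        intro u w a1 a2 a3 a4
        have := h.inR rfl (u - x) (w - y) (by omega) (by omega) (by omega) (by omega)
        simp only at this
        rwa [show x + (u - x) = u by ring, show y + (w - y) = w by ring] at this
      rcases hs with ⟨-, k1, k2⟩ | ⟨-, k1, k2⟩ | ⟨-, k1, k2⟩ | ⟨-, k1, k2⟩ <;>
        exact k2 (hi _ _ (by omega) (by omega) (by omega) (by omega))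
    | false =>
      have ho : ∀ u w : ℤ, x ≤ u → u < x + r → y - r ≤ w → w < y + r → (u, w) ∉ D := by
        intro u w a1 a2 a3 a4
        have := h.outL rfl (u - x) (w - y) (by omega) (by omega) (by omega) (by omega)
        simp only at this
        rwa [show x + (u - x) = u by ring, show y + (w - y) = w by ring] at this
      rcases hs with ⟨-, k1, k2⟩ | ⟨-, k1, k2⟩ | ⟨-, k1, k2⟩ | ⟨-, k1, k2⟩ <;>
        exact ho _ _ (by omega) (by omega) (by omega) (by omega) k1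

/-- the contour vertices near `v` -/
theorem Wall2.near (hG : Cont D M G) {v : ℤ × ℤ} {k r j₀ : ℤ} {b : Bool} (h : Wall2 D G v k r b j₀)
    {j : ℤ} (h1 : v.1 - r < (G j).1) (h2 : (G j).1 < v.1 + r) (h3 : v.2 - r < (G j).2)
    (h4 : (G j).2 < v.2 + r) : ∃ t : ℤ, -r < t ∧ t < r ∧ (M : ℤ) ∣ j - (j₀ + t) := by
  have h5 := h.fst hG h1 h2 h3 h4
  have hrk := h.hrk
  cases b with
  | true =>
    refine ⟨v.2 - (G j).2, by omega, by omega, hG.inj _ _ ?_⟩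
    rw [h.gR rfl _ (by omega) (by omega)]
    exact Prod.ext h5 (by simp)
  | false =>
    refine ⟨(G j).2 - v.2, by omega, by omega, hG.inj _ _ ?_⟩
    rw [h.gL rfl _ (by omega) (by omega)]
    exact Prod.ext h5 (by simp)

/-- the index is not an index of the wall -/
def Off (G : ℤ → ℤ × ℤ) (v : ℤ × ℤ) (k : ℤ) (j : ℤ) : Prop :=
  ∀ t : ℤ, -k < t → t < k → G j ≠ (v.1, v.2 + t)

theorem Wall2.off_idx (hG : Cont D M G) {v : ℤ × ℤ} {k r j₀ : ℤ} {b : Bool} (h : Wall2 D G v k r b j₀)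
    {j : ℤ} (hj : Off G v k j) {t : ℤ} (h1 : -k < t) (h2 : t < k) : ¬ (M : ℤ) ∣ j - (j₀ + t) := by
  rintro ⟨q, hq⟩
  have h3 : G j = G (j₀ + t) := by
    rw [show j = j₀ + t + q * (M : ℤ) by linarith]
    exact hG.per_zmul _ _
  cases b with
  | true =>
    refine hj (-t) (by omega) (by omega) ?_
    rw [h3, h.gR rfl _ (by omega) (by omega)]
    rfl
  | false =>
    refine hj t (by omega) (by omega) ?_
    rw [h3, h.gL rfl _ (by omega) (by omega)]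

/-- contour vertices which are not on the wall are far from `v` -/
theorem Wall2.far (hG : Cont D M G) {v : ℤ × ℤ} {k r j₀ : ℤ} {b : Bool} (h : Wall2 D G v k r b j₀)
    {j : ℤ} (hj : Off G v k j) : (G j).1 ≤ v.1 - r ∨ v.1 + r ≤ (G j).1 ∨ (G j).2 ≤ v.2 - r ∨
      v.2 + r ≤ (G j).2 := by
  by_contra hcon
  push Not at hcon
  obtain ⟨t, h1, h2, h3⟩ := h.near hG hcon.1 hcon.2.1 hcon.2.2.1 hcon.2.2.2
  have hrk := h.hrk
  exact h.off_idx hG hj (by omega) (by omega) h3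

/-! ## Slabs of refined polygons -/

variable {P : Finset (ℤ × ℤ)} {L n : ℕ} {g : ℤ → ℤ × ℤ}

/-- the exterior side of a vertical wall of a refined polygon, domain on the right -/
theorem ext_left (hn : 0 < n) {x y : ℤ} (h1 : (x, y) ∈ rf n P) (h2 : (x - 1, y) ∉ rf n P) {s : ℤ}
    (h3 : 0 ≤ s) (h4 : s < n) : (x - 1 - s, y) ∉ rf n P := by
  rw [mem_rf hn] at h1 h2 ⊢
  simp only at h1 h2 ⊢
  have hn' : (0 : ℤ) < n := by exact_mod_cast hn
  have e1 : (x - 1) / (n : ℤ) ≠ x / n := fun h => h2 (by rw [h]; exact h1)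
  have e2 : (x - 1) / (n : ℤ) = x / n - 1 ∧ x = n * (x / n) := by
    have a1 := Int.mul_ediv_add_emod x n
    have a2 := Int.emod_nonneg x hn'.ne'
    have a3 := Int.emod_lt_of_pos x hn'
    by_cases h0 : x % (n : ℤ) = 0
    · refine ⟨?_, by omega⟩
      rw [div_eq_iff' hn]
      constructor
      · rw [mul_sub, mul_one]; omega
      · rw [mul_sub, mul_one]; omega
    · exfalso
      apply e1
      rw [div_eq_iff' hn]
      omega
  have e3 : (x - 1 - s) / (n : ℤ) = x / n - 1 := by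
    rw [div_eq_iff' hn, mul_sub, mul_one]
    omega
  rw [e3, ← e2.1]
  exact h2

/-- the exterior side of a vertical wall of a refined polygon, domain on the left -/
theorem ext_right (hn : 0 < n) {x y : ℤ} (h1 : (x - 1, y) ∈ rf n P) (h2 : (x, y) ∉ rf n P) {s : ℤ}
    (h3 : 0 ≤ s) (h4 : s < n) : (x + s, y) ∉ rf n P := by
  rw [mem_rf hn] at h1 h2 ⊢
  simp only at h1 h2 ⊢
  have hn' : (0 : ℤ) < n := by exact_mod_cast hn
  have e1 : (x - 1) / (n : ℤ) ≠ x / n := fun h => h2 (by rw [← h]; exact h1)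
  have e2 : x = n * (x / n) := by
    have a1 := Int.mul_ediv_add_emod x n
    have a2 := Int.emod_nonneg x hn'.ne'
    have a3 := Int.emod_lt_of_pos x hn'
    by_cases h0 : x % (n : ℤ) = 0
    · omega
    · exfalso
      apply e1
      rw [div_eq_iff' hn]
      omega
  have e3 : (x + s) / (n : ℤ) = x / n := by
    rw [div_eq_iff' hn]
    omega
  rw [e3]
  exact h2

/-- the left wall of a slab -/
theorem wall_left (hg : Cont P L g) (hn : 0 < n) {x₁ x₂ y : ℤ} {k : ℕ} {r : ℤ} (hr : 0 < r)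
    (hrk : r ≤ k) (hrn : r ≤ n) (hx : x₁ + r ≤ x₂)
    (hs : SlabIn (rf n P : Set (ℤ × ℤ)) x₁ x₂ (y - k) (y + k)) :
    ∃ j₀ : ℤ, Wall2 (rf n P) (gr n g) (x₁, y) k r true j₀ := by
  have hG := cont_rf hg hn
  obtain ⟨j, hj⟩ := exists_straight hG (fun i : ℕ => (x₁, y + k - i)) (n := 2 * k) (by omega)
    (by
      intro i hi
      right; right; right
      refine ⟨?_, ?_, ?_⟩
      · simp only
        refine Prod.ext rfl ?_
        simp only
        push_cast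
        ring
      · exact_mod_cast hs.sub x₁ (y + k - i - 1) le_rfl (by omega) (by omega) (by omega)
      · exact_mod_cast hs.left (y + k - i - 1) (by omega) (by omega))
  have hk : (0 : ℤ) < k := by omega
  refine ⟨j + k, ⟨hr, hrk, fun _ s t a1 a2 a3 a4 => ?_, fun _ s t a1 a2 a3 a4 => ?_,
    fun _ t a1 a2 => ?_, fun h => by simp at h, fun h => by simp at h, fun h => by simp at h⟩⟩
  · exact_mod_cast hs.sub (x₁ + s) (y + t) (by omega) (by omega) (by omega) (by omega)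
  · refine ext_left hn ?_ ?_ a1 (by omega)
    · exact_mod_cast hs.sub x₁ (y + t) le_rfl (by omega) (by omega) (by omega)
    · exact_mod_cast hs.left (y + t) (by omega) (by omega)
  · have h1 := hj (k + t).toNat (by omega)
    have h2 : (((k + t).toNat : ℕ) : ℤ) = k + t := Int.toNat_of_nonneg (by omega)
    rw [h2] at h1
    rw [show j + (k : ℤ) + t = j + (k + t) by ring, h1]
    refine Prod.ext rfl ?_
    simp only
    ring

/-- the right wall of a slab -/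
theorem wall_right (hg : Cont P L g) (hn : 0 < n) {x₁ x₂ y : ℤ} {k : ℕ} {r : ℤ} (hr : 0 < r)
    (hrk : r ≤ k) (hrn : r ≤ n) (hx : x₁ + r ≤ x₂)
    (hs : SlabIn (rf n P : Set (ℤ × ℤ)) x₁ x₂ (y - k) (y + k)) :
    ∃ j₀ : ℤ, Wall2 (rf n P) (gr n g) (x₂, y) k r false j₀ := by
  have hG := cont_rf hg hn
  obtain ⟨j, hj⟩ := exists_straight hG (fun i : ℕ => (x₂, y - k + i)) (n := 2 * k) (by omega)
    (by
      intro i hi
      right; left
      refine ⟨?_, ?_, ?_⟩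
      · simp only
        refine Prod.ext rfl ?_
        simp only
        push_cast
        ring
      · exact_mod_cast hs.sub (x₂ - 1) (y - k + i) (by omega) (by omega) (by omega) (by omega)
      · exact_mod_cast hs.right (y - k + i) (by omega) (by omega))
  have hk : (0 : ℤ) < k := by omega
  refine ⟨j + k, ⟨hr, hrk, fun h => by simp at h, fun h => by simp at h, fun h => by simp at h,
    fun _ s t a1 a2 a3 a4 => ?_, fun _ s t a1 a2 a3 a4 => ?_, fun _ t a1 a2 => ?_⟩⟩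
  · exact_mod_cast hs.sub (x₂ - 1 - s) (y + t) (by omega) (by omega) (by omega) (by omega)
  · refine ext_right hn ?_ ?_ a1 (by omega)
    · exact_mod_cast hs.sub (x₂ - 1) (y + t) (by omega) (by omega) (by omega) (by omega)
    · exact_mod_cast hs.right (y + t) (by omega) (by omega)
  · have h1 := hj (k + t).toNat (by omega)
    have h2 : (((k + t).toNat : ℕ) : ℤ) = k + t := Int.toNat_of_nonneg (by omega)
    rw [h2] at h1
    rw [show j + (k : ℤ) + t = j + (k + t) by ring, h1]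
    refine Prod.ext rfl ?_
    simp only
    ring

/-! ## Shift of the index, gaps -/

theorem Wall2.shift (hG : Cont D M G) {v : ℤ × ℤ} {k r j₀ : ℤ} {b : Bool} (h : Wall2 D G v k r b j₀)
    (q : ℤ) : Wall2 D G v k r b (j₀ + q * M) := by
  refine ⟨h.hr, h.hrk, h.inR, h.outR, fun hb t h1 h2 => ?_, h.inL, h.outL, fun hb t h1 h2 => ?_⟩
  · rw [show j₀ + q * (M : ℤ) + t = j₀ + t + q * M by ring, hG.per_zmul]
    exact h.gR hb t h1 h2
  · rw [show j₀ + q * (M : ℤ) + t = j₀ + t + q * M by ring, hG.per_zmul]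
    exact h.gL hb t h1 h2

/-- the index in a given period -/
theorem Wall2.exists_idx (hG : Cont D M G) {v : ℤ × ℤ} {k r j₀ : ℤ} {b : Bool}
    (h : Wall2 D G v k r b j₀) (X : ℤ) : ∃ j, X - M ≤ j ∧ j < X ∧ Wall2 D G v k r b j := by
  have hM : (0 : ℤ) < M := by exact_mod_cast hG.pos
  have a1 := Int.mul_ediv_add_emod (j₀ - X) M
  have a2 := Int.emod_nonneg (j₀ - X) hM.ne'
  have a3 := Int.emod_lt_of_pos (j₀ - X) hM
  refine ⟨j₀ + (-((j₀ - X) / M) - 1) * M, ?_, ?_, h.shift hG _⟩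
  · have : j₀ + (-((j₀ - X) / M) - 1) * (M : ℤ) = X + (j₀ - X) % M - M := by linarith
    omega
  · have : j₀ + (-((j₀ - X) / M) - 1) * (M : ℤ) = X + (j₀ - X) % M - M := by linarith
    omega

/-- marks are far from the wall along the contour -/
theorem Wall2.gap (hG : Cont D M G) {v : ℤ × ℤ} {k r j₀ : ℤ} {b : Bool} (h : Wall2 D G v k r b j₀)
    {j : ℤ} (hj : Off G v k j) (q : ℤ) : j - j₀ - q * M ≤ -k ∨ k ≤ j - j₀ - q * M := by
  by_contra hcon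
  push Not at hcon
  exact h.off_idx hG hj hcon.1 hcon.2 ⟨q, by ring⟩

/-! ## The rings -/

/-- distance of a face from a vertex at most `δ` -/
def Nr (δ : ℝ) (f p : ℤ × ℤ) : Prop := |(f.1 : ℝ) - p.1| ≤ δ ∧ |(f.2 : ℝ) - p.2| ≤ δ

theorem close {v f p : ℤ × ℤ} {k : ℕ} {δ : ℝ} (hk : 16 ≤ k) (hδ : 16 * δ ≤ k)
    (hf : f ∈ RFb v (4 * ((k / 16 : ℕ) : ℤ))) (hp : Nr δ f p) :
    (v.1 - ((k / 2 : ℕ) : ℤ) < p.1 ∧ p.1 < v.1 + ((k / 2 : ℕ) : ℤ)) ∧
      v.2 - ((k / 2 : ℕ) : ℤ) < p.2 ∧ p.2 < v.2 + ((k / 2 : ℕ) : ℤ) := by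
  rw [mem_RFb] at hf
  have e1 : 16 * ((k / 16 : ℕ) : ℤ) ≤ k := by omega
  have e2 : (k : ℤ) ≤ 2 * ((k / 2 : ℕ) : ℤ) + 1 := by omega
  have r1 : (16 : ℝ) * (((k / 16 : ℕ) : ℤ) : ℝ) ≤ k := by exact_mod_cast e1
  have r2 : (k : ℝ) ≤ 2 * (((k / 2 : ℕ) : ℤ) : ℝ) + 1 := by exact_mod_cast e2
  have r3 : (16 : ℝ) ≤ k := by exact_mod_cast hk
  obtain ⟨h1, h2⟩ := hp
  rw [abs_le] at h1 h2
  have a1 : ((v.1 : ℤ) : ℝ) - 4 * (((k / 16 : ℕ) : ℤ) : ℝ) ≤ f.1 := by exact_mod_cast hf.1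
  have a2 : ((f.1 : ℤ) : ℝ) < v.1 + 4 * (((k / 16 : ℕ) : ℤ) : ℝ) := by exact_mod_cast hf.2.1
  have a3 : ((v.2 : ℤ) : ℝ) - 4 * (((k / 16 : ℕ) : ℤ) : ℝ) ≤ f.2 := by exact_mod_cast hf.2.2.1
  have a4 : ((f.2 : ℤ) : ℝ) < v.2 + 4 * (((k / 16 : ℕ) : ℤ) : ℝ) := by exact_mod_cast hf.2.2.2
  refine ⟨⟨?_, ?_⟩, ?_, ?_⟩
  · have : ((v.1 : ℤ) : ℝ) - (((k / 2 : ℕ) : ℤ) : ℝ) < p.1 := by linarith
    exact_mod_cast this
  · have : ((p.1 : ℤ) : ℝ) < v.1 + (((k / 2 : ℕ) : ℤ) : ℝ) := by linarith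
    exact_mod_cast this
  · have : ((v.2 : ℤ) : ℝ) - (((k / 2 : ℕ) : ℤ) : ℝ) < p.2 := by linarith
    exact_mod_cast this
  · have : ((p.2 : ℤ) : ℝ) < v.2 + (((k / 2 : ℕ) : ℤ) : ℝ) := by linarith
    exact_mod_cast this

section ring

variable {v : ℤ × ℤ} {k : ℕ} {b : Bool} {j₀ X i₁ i₃ : ℤ} {δ : ℝ}

/-- faces of a ring are not near a contour vertex which is off the wall -/
theorem ring_off (hG : Cont D M G) (h : Wall2 D G v k ((k / 2 : ℕ) : ℤ) b j₀) (hk : 16 ≤ k)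
    (hδ : 16 * δ ≤ k) {j : ℤ} (hj : Off G v k j) {f : ℤ × ℤ}
    (hf : f ∈ RFb v (4 * ((k / 16 : ℕ) : ℤ))) : ¬ Nr δ f (G j) := by
  intro hp
  have h1 := close hk hδ hf hp
  rcases h.far hG hj with h2 | h2 | h2 | h2 <;> omega

/-- the ring is off the left net -/
theorem ring_J (hG : Cont D M G) (h : Wall2 D G v k ((k / 2 : ℕ) : ℤ) b j₀) (hk : 16 ≤ k)
    (hδ : 16 * δ ≤ k) (hX : Off G v k X) (h3 : Off G v k i₃) (hj0 : X - M ≤ j₀) (hj3 : j₀ ≤ i₃)
    {f : ℤ × ℤ} (hf : f ∈ RFb v (4 * ((k / 16 : ℕ) : ℤ))) {j : ℤ} (hj1 : (i₃ : ℝ) - δ ≤ j)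
    (hj2 : j ≤ X - 1) : ¬ Nr δ f (G j) := by
  intro hp
  have h1 := close hk hδ hf hp
  obtain ⟨t, t1, t2, t3⟩ := h.near hG h1.1.1 h1.1.2 h1.2.1 h1.2.2
  have g1 := h.gap hG h3 0
  have g2 := h.gap hG hX 1
  rw [zero_mul, sub_zero] at g1
  rw [one_mul] at g2
  have r3 : (16 : ℝ) ≤ k := by exact_mod_cast hk
  have b1 : i₃ - k / 16 - 1 ≤ j := by
    have e1 : (i₃ : ℝ) - k / 16 ≤ j := by linarith
    have e2 : (k : ℝ) / 16 ≤ ((k / 16 : ℕ) : ℝ) + 1 := by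
      have := Nat.lt_floor_add_one ((k : ℝ) / 16)
      rw [show ⌊(k : ℝ) / 16⌋₊ = k / 16 by
        have := Nat.floor_div_natCast (k : ℝ) 16
        simpa using this] at this
      linarith
    have e3 : (i₃ : ℝ) - (((k / 16 : ℕ) : ℝ) + 1) ≤ j := by linarith
    have e5 : ((i₃ - (((k / 16 : ℕ) : ℤ) + 1) : ℤ) : ℝ) ≤ j := by
      rw [Int.cast_sub, Int.cast_add, Int.cast_one, Int.cast_natCast]; linarith
    have e4 : i₃ - (((k / 16 : ℕ) : ℤ) + 1) ≤ j := Int.cast_le.1 e5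
    omega
  have hpos : 0 < j - (j₀ + t) := by omega
  have hlt : j - (j₀ + t) < M := by omega
  exact absurd (Int.le_of_dvd hpos t3) (by omega)

/-- the ring is off the right net -/
theorem ring_I (hG : Cont D M G) (h : Wall2 D G v k ((k / 2 : ℕ) : ℤ) b j₀) (hk : 16 ≤ k)
    (hδ : 16 * δ ≤ k) (hX : Off G v k X) (h3 : Off G v k i₃) (h13 : i₁ ≤ i₃) (hj0 : j₀ < X)
    (hj3 : i₃ < j₀) {f : ℤ × ℤ} (hf : f ∈ RFb v (4 * ((k / 16 : ℕ) : ℤ))) {j : ℤ}
    (hj1 : X - M ≤ j) (hj2 : (j : ℝ) ≤ i₁ + δ) : ¬ Nr δ f (G j) := by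
  intro hp
  have h1 := close hk hδ hf hp
  obtain ⟨t, t1, t2, t3⟩ := h.near hG h1.1.1 h1.1.2 h1.2.1 h1.2.2
  have g1 := h.gap hG h3 0
  have g2 := h.gap hG hX 0
  rw [zero_mul, sub_zero] at g1 g2
  have r3 : (16 : ℝ) ≤ k := by exact_mod_cast hk
  have b1 : j ≤ i₁ + k / 16 + 1 := by
    have e1 : (j : ℝ) ≤ i₁ + k / 16 := by linarith
    have e2 : (k : ℝ) / 16 ≤ ((k / 16 : ℕ) : ℝ) + 1 := by
      have := Nat.lt_floor_add_one ((k : ℝ) / 16)
      rw [show ⌊(k : ℝ) / 16⌋₊ = k / 16 by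
        have := Nat.floor_div_natCast (k : ℝ) 16
        simpa using this] at this
      linarith
    have e3 : (j : ℝ) ≤ i₁ + (((k / 16 : ℕ) : ℝ) + 1) := by linarith
    have e5 : (j : ℝ) ≤ ((i₁ + (((k / 16 : ℕ) : ℤ) + 1) : ℤ) : ℝ) := by
      rw [Int.cast_add, Int.cast_add, Int.cast_one, Int.cast_natCast]; linarith
    have e4 : j ≤ i₁ + (((k / 16 : ℕ) : ℤ) + 1) := Int.cast_le.1 e5
    omega
  have t4 : (M : ℤ) ∣ (j₀ + t) - j := by
    rw [← dvd_neg, neg_sub]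
    exact t3
  have hpos : 0 < (j₀ + t) - j := by omega
  have hlt : (j₀ + t) - j < M := by omega
  exact absurd (Int.le_of_dvd hpos t4) (by omega)

end ring

theorem nr_of_rfb {f p : ℤ × ℤ} {d : ℤ} {δ : ℝ} (hd : (d : ℝ) ≤ δ) (h : f ∈ RFb p d) : Nr δ f p := by
  rw [mem_RFb] at h
  have h1 : |f.1 - p.1| ≤ d := by rw [abs_le]; omega
  have h2 : |f.2 - p.2| ≤ d := by rw [abs_le]; omega
  constructor
  · have h3 : ((|f.1 - p.1| : ℤ) : ℝ) ≤ d := by exact_mod_cast h1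
    push_cast at h3
    exact h3.trans hd
  · have h3 : ((|f.2 - p.2| : ℤ) : ℝ) ≤ d := by exact_mod_cast h2
    push_cast at h3
    exact h3.trans hd

/-- the rings of the two mouths are disjoint -/
theorem rings_disj {x₁ x₂ y : ℤ} {k : ℕ} (hx : x₁ + k ≤ x₂) {f : ℤ × ℤ}
    (h1 : f ∈ RFb (x₁, y) (4 * ((k / 16 : ℕ) : ℤ))) : f ∉ RFb (x₂, y) (4 * ((k / 16 : ℕ) : ℤ)) := by
  intro h2
  rw [mem_RFb] at h1 h2
  simp only at h1 h2
  omega

/-- **The mouth geometry.** Let `x₁ ≤ x < x₂`, `y - k ≤ y' < y + k` be a slab of `rf n P`, all the marks off the two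
vertical sides of the slab. The rings `k / 16 : k / 4` around the two vertices `(x₁, y)`, `(x₂, y)` can be added to the nets
`I`, `J` of the lower bound. -/
theorem mouth_rings (hg : Cont P L g) (hn : 0 < n) {x₁ x₂ y : ℤ} {k : ℕ} (hk : 16 ≤ k) (hkn : k ≤ 2 * n)
    (hx : x₁ + k ≤ x₂) (hs : SlabIn (rf n P : Set (ℤ × ℤ)) x₁ x₂ (y - k) (y + k))
    {X i₁ i₂ i₂' i₃ : ℤ} (h13 : i₁ ≤ i₃)
    (hoff : ∀ i : ℤ, (i = X - 1 ∨ i = X ∨ i = i₁ ∨ i = i₂ ∨ i = i₂' ∨ i = i₃) →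
      Off (gr n g) (x₁, y) k i ∧ Off (gr n g) (x₂, y) k i)
    {δ : ℝ} (hδ : 16 * δ ≤ k) {Gs : Set (ℤ × ℤ)} (hGs : ∀ f ∈ Gs, Nr δ f (gr n g (X - 1)))
    {I J : Finset ((ℤ × ℤ) × ℤ)}
    (hI : ∀ f ∈ BO I, ∃ j : ℤ, X - n * L ≤ j ∧ (j : ℝ) ≤ i₁ + δ ∧ Nr δ f (gr n g j))
    (hJ : ∀ f ∈ BO J, ∃ j : ℤ, (i₃ : ℝ) - δ ≤ j ∧ j ≤ X - 1 ∧ Nr δ f (gr n g j))
    (hIJ : ∀ f ∈ rf n P, f ∉ Gs → f ∈ BO I → f ∉ BO J) :
    ∃ MI MJ : Finset ((ℤ × ℤ) × ℤ), MI ∪ MJ = {((x₁, y), ((k / 16 : ℕ) : ℤ)), ((x₂, y), ((k / 16 : ℕ) : ℤ))} ∧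
      MI.card ≤ 2 ∧ MJ.card ≤ 2 ∧ (∀ i ∈ MI ∪ MJ, 0 < i.2) ∧
      (∀ f ∈ rf n P, f ∉ Gs → f ∈ BO (I ∪ MI) → f ∉ BO (J ∪ MJ)) ∧
      ∀ i ∈ MI ∪ MJ, ∀ f ∈ RFb i.1 (4 * i.2), f ∉ Gs ∧ ∀ d : ℤ, (d : ℝ) ≤ δ →
        f ∉ RFb (gr n g i₂) d ∧ f ∉ RFb (gr n g i₂') d := by
  classical
  have hG := cont_rf hg hn
  have hnL : (((n * L : ℕ) : ℤ)) = n * L := by push_cast; ring
  have hr : (0 : ℤ) < ((k / 2 : ℕ) : ℤ) := by omega
  obtain ⟨a0, hA0⟩ := wall_left hg hn hr (by omega) (by omega) (by omega) hs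
  obtain ⟨b0, hB0⟩ := wall_right hg hn hr (by omega) (by omega) (by omega) hs
  obtain ⟨a, ha1, ha2, hA⟩ := hA0.exists_idx hG X
  obtain ⟨b, hb1, hb2, hB⟩ := hB0.exists_idx hG X
  have oX := hoff X (by tauto)
  have o3 := hoff i₃ (by tauto)
  set ρ : ℤ := ((k / 16 : ℕ) : ℤ) with hρ
  have hρ0 : 0 < ρ := by omega
  set A : (ℤ × ℤ) × ℤ := ((x₁, y), ρ) with hAd
  set B : (ℤ × ℤ) × ℤ := ((x₂, y), ρ) with hBd
  -- the rings with index at most `i₃`
  refine ⟨({A, B} : Finset ((ℤ × ℤ) × ℤ)).filter (fun i => (i = A → a ≤ i₃) ∧ (i = B → b ≤ i₃)),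
    ({A, B} : Finset ((ℤ × ℤ) × ℤ)).filter (fun i => ¬ ((i = A → a ≤ i₃) ∧ (i = B → b ≤ i₃))),
    Finset.filter_union_filter_not_eq _ _, ?_, ?_, ?_, ?_, ?_⟩
  · exact (Finset.card_filter_le _ _).trans Finset.card_le_two
  · exact (Finset.card_filter_le _ _).trans Finset.card_le_two
  · intro i hi
    rw [Finset.filter_union_filter_not_eq] at hi
    simp only [Finset.mem_insert, Finset.mem_singleton] at hi
    rcases hi with rfl | rfl <;> exact hρ0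
  · have hAB : A ≠ B := by
      intro h
      have := congrArg (fun q : (ℤ × ℤ) × ℤ => q.1.1) h
      simp only [hAd, hBd] at this
      omega
    rintro f hf hfG ⟨i, hi, hfi⟩ ⟨j, hj, hfj⟩
    rw [Finset.mem_union] at hi hj
    rcases hi with hi | hi
    · rcases hj with hj | hj
      · exact hIJ f hf hfG ⟨i, hi, hfi⟩ ⟨j, hj, hfj⟩
      · obtain ⟨j', e1, e2, e3⟩ := hI f ⟨i, hi, hfi⟩
        rw [Finset.mem_filter] at hj
        obtain ⟨hj1, hj2⟩ := hj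
        simp only [Finset.mem_insert, Finset.mem_singleton] at hj1
        rcases hj1 with rfl | rfl
        · have h4 : i₃ < a := by
            by_contra hcon
            exact hj2 ⟨fun _ => not_lt.1 hcon, fun h => absurd h hAB⟩
          exact ring_I hG hA hk hδ oX.1 o3.1 h13 ha2 h4 hfj (by rw [hnL]; exact e1) e2 e3
        · have h4 : i₃ < b := by
            by_contra hcon
            exact hj2 ⟨fun h => absurd h.symm hAB, fun _ => not_lt.1 hcon⟩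
          exact ring_I hG hB hk hδ oX.2 o3.2 h13 hb2 h4 hfj (by rw [hnL]; exact e1) e2 e3
    · rw [Finset.mem_filter] at hi
      obtain ⟨hi1, hi2, hi3⟩ := hi
      simp only [Finset.mem_insert, Finset.mem_singleton] at hi1
      rcases hj with hj | hj
      · obtain ⟨j', e1, e2, e3⟩ := hJ f ⟨j, hj, hfj⟩
        rcases hi1 with rfl | rfl
        · exact ring_J hG hA hk hδ oX.1 o3.1 ha1 (hi2 rfl) hfi e1 e2 e3
        · exact ring_J hG hB hk hδ oX.2 o3.2 hb1 (hi3 rfl) hfi e1 e2 e3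
      · rw [Finset.mem_filter] at hj
        obtain ⟨hj1, hj2⟩ := hj
        simp only [Finset.mem_insert, Finset.mem_singleton] at hj1
        rcases hi1 with rfl | rfl
        · rcases hj1 with rfl | rfl
          · exact hj2 ⟨hi2, hi3⟩
          · exact rings_disj hx hfi hfj
        · rcases hj1 with rfl | rfl
          · exact rings_disj hx hfj hfi
          · exact hj2 ⟨hi2, hi3⟩
  · intro i hi f hf
    rw [Finset.filter_union_filter_not_eq] at hi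
    simp only [Finset.mem_insert, Finset.mem_singleton] at hi
    rcases hi with rfl | rfl
    · exact ⟨fun h => ring_off hG hA hk hδ (hoff (X - 1) (by tauto)).1 hf (hGs f h), fun d hd =>
        ⟨fun h => ring_off hG hA hk hδ (hoff i₂ (by tauto)).1 hf (nr_of_rfb hd h),
        fun h => ring_off hG hA hk hδ (hoff i₂' (by tauto)).1 hf (nr_of_rfb hd h)⟩⟩
    · exact ⟨fun h => ring_off hG hB hk hδ (hoff (X - 1) (by tauto)).2 hf (hGs f h), fun d hd =>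
        ⟨fun h => ring_off hG hB hk hδ (hoff i₂ (by tauto)).2 hf (nr_of_rfb hd h),
        fun h => ring_off hG hB hk hδ (hoff i₂' (by tauto)).2 hf (nr_of_rfb hd h)⟩⟩

/-- the faces of the box at `e` -/
theorem bx_near {σ : Sym} {p T N : ℤ × ℤ} (h : Third.IsFr σ p T N) {R : ℤ} {δ : ℝ} (hR : (R : ℝ) ≤ δ)
    {f : ℤ × ℤ} (hf : f ∈ Third.bx σ (-R) R 0 R) : Nr δ f (σ.v (0, 0)) := by
  unfold Third.bx at hf
  obtain ⟨a, ha, rfl⟩ := Finset.mem_image.1 hf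
  rw [mem_RFi] at ha
  have key : |(σ.f a).1 - (σ.v (0, 0)).1| ≤ R ∧ |(σ.f a).2 - (σ.v (0, 0)).2| ≤ R := by
    rw [h.f, h.v]
    unfold Third.ff Third.fv
    obtain ⟨t1, t2⟩ := T
    obtain ⟨n1, n2⟩ := N
    obtain ⟨a1, a2⟩ := a
    rw [abs_le, abs_le]
    rcases h.perp with ⟨h1 | h1, h2, h3, h4 | h4⟩ | ⟨h1, h2 | h2, h3 | h3, h4⟩ <;>
      simp only at h1 h2 h3 h4 ha <;> subst h1 h2 h3 h4 <;> simp only <;> omega
  constructor
  · have h1 : ((|(σ.f a).1 - (σ.v (0, 0)).1| : ℤ) : ℝ) ≤ R := by exact_mod_cast key.1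
    push_cast at h1
    exact h1.trans hR
  · have h1 : ((|(σ.f a).2 - (σ.v (0, 0)).2| : ℤ) : ℝ) ≤ R := by exact_mod_cast key.2
    push_cast at h1
    exact h1.trans hR

/-- the same for a slab of the construction and the half box at the marked side -/
theorem mouth_rings_slb (hg : Cont P L g) (hn : 0 < n) {S : Slb} (hS : S.Ok) (hD : S.D = rf n P) (hk : 16 ≤ S.k)
    (hkn : S.k ≤ 2 * n) {X i₁ i₂ i₂' i₃ : ℤ} (h13 : i₁ ≤ i₃)
    (hoff : ∀ i : ℤ, (i = X - 1 ∨ i = X ∨ i = i₁ ∨ i = i₂ ∨ i = i₂' ∨ i = i₃) →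
      Off (gr n g) (S.x1, S.yc) S.k i ∧ Off (gr n g) (S.x2, S.yc) S.k i)
    {δ : ℝ} (hδ : 16 * δ ≤ S.k) {σ : Sym} {p T N : ℤ × ℤ} (hσ : Third.IsFr σ p T N) {R : ℤ} (hR : (R : ℝ) ≤ δ)
    (hv : σ.v (0, 0) = gr n g (X - 1)) {I J : Finset ((ℤ × ℤ) × ℤ)}
    (hI : ∀ f ∈ BO I, ∃ j : ℤ, X - n * L ≤ j ∧ (j : ℝ) ≤ i₁ + δ ∧ Nr δ f (gr n g j))
    (hJ : ∀ f ∈ BO J, ∃ j : ℤ, (i₃ : ℝ) - δ ≤ j ∧ j ≤ X - 1 ∧ Nr δ f (gr n g j))
    (hIJ : ∀ f ∈ rf n P, f ∉ Third.bx σ (-R) R 0 R → f ∈ BO I → f ∉ BO J) :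
    ∃ MI MJ : Finset ((ℤ × ℤ) × ℤ),
      MI ∪ MJ = {((S.x1, S.yc), ((S.k / 16 : ℕ) : ℤ)), ((S.x2, S.yc), ((S.k / 16 : ℕ) : ℤ))} ∧
      MI.card ≤ 2 ∧ MJ.card ≤ 2 ∧ (∀ i ∈ MI ∪ MJ, 0 < i.2) ∧
      (∀ f ∈ rf n P, f ∉ Third.bx σ (-R) R 0 R → f ∈ BO (I ∪ MI) → f ∉ BO (J ∪ MJ)) ∧
      ∀ i ∈ MI ∪ MJ, ∀ f ∈ RFb i.1 (4 * i.2), f ∉ Third.bx σ (-R) R 0 R ∧ ∀ d : ℤ, (d : ℝ) ≤ δ →
        f ∉ RFb (gr n g i₂) d ∧ f ∉ RFb (gr n g i₂') d := by
  have h1 := hS.slab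
  rw [hD] at h1
  obtain ⟨MI, MJ, e1, e2, e3, e4, e5, e6⟩ := mouth_rings hg hn hk hkn hS.hx h1 h13 hoff hδ
    (Gs := (Third.bx σ (-R) R 0 R : Set (ℤ × ℤ))) (fun f hf => by
      rw [← hv]
      exact bx_near hσ hR (Finset.mem_coe.1 hf)) hI hJ (fun f hf hf' => hIJ f hf fun h => hf' (Finset.mem_coe.2 h))
  exact ⟨MI, MJ, e1, e2, e3, e4, fun f hf hf' => e5 f hf fun h => hf' (Finset.mem_coe.1 h), fun i hi f hf =>
    ⟨fun h => (e6 i hi f hf).1 (Finset.mem_coe.2 h), (e6 i hi f hf).2⟩⟩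

end Pool.Agent.SixB.LowM
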