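import Pool.Agent.Lib.SixB.CADomLowF
import Pool.Agent.Lib.SixB.S3LowM
import Pool.Agent.Lib.SixB.S3HJoin
import Pool.Agent.Lib.SixB.S3KindD
import Pool.Agent.Lib.SixB.S3Wdg
import Pool.Agent.Lib.SixB.S3OwnE

/-!
# 6BD, step 3: lower bound for the polygon with the marks of block CA, with blocked mouths
-/

set_option autoImplicit false

namespace Pool.Agent.SixB.LowDX

open Finset Pool.Agent.Perc Pool.Agent.PercD Pool.Agent.PercN Pool.Agent.Perc6 Pool.Agent.Perc.Q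
open Pool.Agent.SixB Pool.Agent.SixB.Tilt Pool.Agent.SixB.DomMk

variable {F : Finset (ℤ × ℤ)} {κ : ZMod 4} {v : ℤ × ℤ} {r : ℕ} {ω : Cfg}

theorem fr_add_dz (κ : ZMod 4) (v : ℤ × ℤ) (t : ℤ) : v + t • dz κ = fr κ v t 0 := by
  obtain ⟨x, y⟩ := v
  rcases k4 κ with rfl | rfl | rfl | rfl
  · rw [fr_0, show dz 0 = (1, 0) from rfl]
    simp
  · rw [fr_1, show dz 1 = (0, 1) from rfl]
    simp
  · rw [fr_2, show dz 2 = (-1, 0) from rfl]
    simp [sub_eq_add_neg]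
  · rw [fr_3, show dz 3 = (0, -1) from rfl]
    simp [sub_eq_add_neg]

theorem dz_add_two (κ : ZMod 4) : dz (κ + 2) = -dz κ := by
  rcases k4 κ with rfl | rfl | rfl | rfl <;> rfl

theorem wdg_flat (h : FlatZ F κ v r) :
    (Wdg 2 κ v r : Set (ℤ × ℤ)) = (F : Set (ℤ × ℤ)) ∩ (BR v r : Set (ℤ × ℤ)) := by
  ext f
  rw [mem_coe, Set.mem_inter_iff, mem_coe, mem_coe, mem_BR]
  obtain ⟨v1, v2⟩ := v
  obtain ⟨f1, f2⟩ := f
  rcases k4 κ with rfl | rfl | rfl | rfl
  · have h1 := h (f1 - v1) (f2 - v2)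
    rw [cl_0, show ((v1 : ℤ) + (f1 - v1), v2 + (f2 - v2)) = (f1, f2) by
      ext <;> simp only <;> ring] at h1
    rw [mem_w20]
    simp only
    constructor
    · intro h2
      exact ⟨(h1 (by omega) (by omega) (by omega) (by omega)).2 (by omega), by omega, by omega, by omega, by omega⟩
    · rintro ⟨h2, h3, h4, h5, h6⟩
      have := (h1 (by omega) (by omega) (by omega) (by omega)).1 h2
      omega
  · have h1 := h (f2 - v2) (v1 - 1 - f1)
    rw [cl_1, show ((v1 : ℤ) - (v1 - 1 - f1) - 1, v2 + (f2 - v2)) = (f1, f2) by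
      ext <;> simp only <;> ring] at h1
    rw [mem_w21]
    simp only
    constructor
    · intro h2
      exact ⟨(h1 (by omega) (by omega) (by omega) (by omega)).2 (by omega), by omega, by omega, by omega, by omega⟩
    · rintro ⟨h2, h3, h4, h5, h6⟩
      have := (h1 (by omega) (by omega) (by omega) (by omega)).1 h2
      omega
  · have h1 := h (v1 - 1 - f1) (v2 - 1 - f2)
    rw [cl_2, show ((v1 : ℤ) - (v1 - 1 - f1) - 1, v2 - (v2 - 1 - f2) - 1) = (f1, f2) by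
      ext <;> simp only <;> ring] at h1
    rw [mem_w22]
    simp only
    constructor
    · intro h2
      exact ⟨(h1 (by omega) (by omega) (by omega) (by omega)).2 (by omega), by omega, by omega, by omega, by omega⟩
    · rintro ⟨h2, h3, h4, h5, h6⟩
      have := (h1 (by omega) (by omega) (by omega) (by omega)).1 h2
      omega
  · have h1 := h (v2 - 1 - f2) (f1 - v1)
    rw [cl_3, show ((v1 : ℤ) + (f1 - v1), v2 - (v2 - 1 - f2) - 1) = (f1, f2) by
      ext <;> simp only <;> ring] at h1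
    rw [mem_w23]
    simp only
    constructor
    · intro h2
      exact ⟨(h1 (by omega) (by omega) (by omega) (by omega)).2 (by omega), by omega, by omega, by omega, by omega⟩
    · rintro ⟨h2, h3, h4, h5, h6⟩
      have := (h1 (by omega) (by omega) (by omega) (by omega)).1 h2
      omega

theorem mem_wOut_iff {a : (ℤ × ℤ) × (ℤ × ℤ)} : a ∈ wOut κ v r ↔ ∃ i : ℤ, 0 ≤ i ∧ i < r ∧
    a = (fr κ v i 0, fr κ v (i + 1) 0) := by
  rw [mem_wOut]
  constructor
  · rintro ⟨t, ht, rfl⟩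
    refine ⟨t, by omega, by omega, ?_⟩
    rw [← fr_add_dz, ← fr_add_dz]
  · rintro ⟨i, h1, h2, rfl⟩
    refine ⟨i.toNat, by omega, ?_⟩
    rw [Int.toNat_of_nonneg h1, ← fr_add_dz, ← fr_add_dz]

theorem mem_wIn_iff {a : (ℤ × ℤ) × (ℤ × ℤ)} : a ∈ wIn (κ + 2) v r ↔ ∃ i : ℤ, -r ≤ i ∧ i < 0 ∧
    a = (fr κ v i 0, fr κ v (i + 1) 0) := by
  rw [mem_wIn, dz_add_two]
  constructor
  · rintro ⟨t, ht, rfl⟩
    refine ⟨-t - 1, by omega, by omega, ?_⟩
    rw [← fr_add_dz, ← fr_add_dz]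
    congr 2
    · rw [smul_neg, ← neg_smul]
      congr 1
      ring
    · rw [smul_neg, ← neg_smul]
      congr 1
      ring
  · rintro ⟨i, h1, h2, rfl⟩
    refine ⟨(-i - 1).toNat, by omega, ?_⟩
    rw [Int.toNat_of_nonneg (by omega), ← fr_add_dz, ← fr_add_dz, smul_neg, smul_neg, ← neg_smul,
      ← neg_smul]
    congr 3 <;> ring

theorem wE_mem_UB {i : ℤ} (h1 : -(r : ℤ) ≤ i) (h2 : i < r) : wE κ v i ∈ UB v r := by
  rw [PercD.mem_UB]
  unfold InR
  rcases k4 κ with rfl | rfl | rfl | rfl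
  · rw [wE_0, ua_mk]
    simp only
    omega
  · rw [wE_1, ua_mk]
    simp only
    omega
  · rw [wE_2, ua_mk]
    simp only
    omega
  · rw [wE_3, ua_mk]
    simp only
    omega

/-- **The arcs over a flat mark.** -/
theorem NA_flat (h : FlatZ F κ v r) (ω : Cfg) :
    NA (F : Set (ℤ × ℤ)) (PAz κ v r) (PBz κ v r) v r ω = Nwd 2 κ v r ω := by
  classical
  have hin : wIn (κ + 2) v r ⊆ bS ZQ (Wdg 2 κ v r) := by
    have := Kd.wIn_sub (m := 2) (o := κ) (v := v) (r := r) (by norm_num) (by norm_num)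
    simpa only [Nat.cast_ofNat] using this
  have hout : wOut κ v r ⊆ bS ZQ (Wdg 2 κ v r) := Kd.wOut_sub (m := 2) (by norm_num) (by norm_num)
  unfold Nwd NA NS
  simp only [Nat.cast_ofNat]
  rw [← card_image_of_injOn (s := (wIn (κ + 2) v r).filter fun a =>
    mate ZQ (Wdg 2 κ v r) ω a ∈ wOut κ v r) (f := und)]
  swap
  · intro a ha b hb hab
    exact PC.und_bS_inj (hin (mem_filter.1 (mem_coe.1 ha)).1) (hin (mem_filter.1 (mem_coe.1 hb)).1) hab
  congr 1
  ext c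
  rw [mem_filter, mem_image]
  constructor
  · rintro ⟨-, ⟨i, h1, h2, rfl⟩, b, hb, j, h3, h4, rfl⟩
    have ha : (fr κ v i 0, fr κ v (i + 1) 0) ∈ wIn (κ + 2) v r := mem_wIn_iff.2 ⟨i, h1, h2, rfl⟩
    have hb' : (fr κ v j 0, fr κ v (j + 1) 0) ∈ wOut κ v r := mem_wOut_iff.2 ⟨j, h3, h4, rfl⟩
    refine ⟨(fr κ v i 0, fr κ v (i + 1) 0), mem_filter.2 ⟨ha, ?_⟩, rfl⟩
    rw [← wdg_flat h] at hb
    rcases PC.MM_cases (hin ha) (hout hb') hb with h5 | h5
    · have h6 : wE κ v i = wE κ v j := by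
        unfold wE
        rw [h5]
      have := wE_inj h6
      omega
    · rw [← h5]
      exact hb'
  · rintro ⟨a, ha, rfl⟩
    obtain ⟨ha, hm⟩ := mem_filter.1 ha
    obtain ⟨i, h1, h2, h3⟩ := mem_wIn_iff.1 ha
    obtain ⟨j, h4, h5, h6⟩ := mem_wOut_iff.1 hm
    have hM := PC.mate_MM (hin ha) ω
    rw [wdg_flat h] at hM
    have e1 : und a = wE κ v i := by
      rw [h3]
      rfl
    rw [e1]
    refine ⟨wE_mem_UB h1 (by omega), ⟨i, h1, h2, rfl⟩, wE κ v j, ?_, j, h4, h5, rfl⟩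
    rw [h6, e1] at hM
    exact hM

/-- **The local factor of a flat mark.** -/
theorem fac_flat (h : FlatZ F κ v r) (J : ℝ) :
    DomPr.fac F (PAz κ v r) (PBz κ v r) v r (tJ J) = sF (.ver J) 2 r := by
  unfold DomPr.fac
  have hsub : Wdg 2 κ v r ⊆ F := by
    intro f hf
    have h1 : f ∈ (Wdg 2 κ v r : Set (ℤ × ℤ)) := hf
    rw [wdg_flat h] at h1
    exact mem_coe.1 h1.1
  rw [← Kd.sF_eq (.ver J) 2 κ v r hsub]
  refine av_congr fun T _ => ?_
  rw [NA_flat h]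
  rfl

/-! ### The marks are off the mouths -/

variable {P : Finset (ℤ × ℤ)} {L : ℕ} {g : ℤ → ℤ × ℤ}

/-- The jump at an index of the walls near the centre line is zero. -/
theorem off_of_jump (hg : Cont P L g) {n : ℕ} (hn : 0 < n) {S : Slb} (hS : S.Ok) (hD : S.D = rf n P)
    (hk : 0 < S.k) {j : ℤ → ℝ} (hψ : PhC S.D (n * L) (gr n g) j S.ψ) {i : ℤ} (hi : j i ≠ 0) :
    LowM.Off (gr n g) (S.x1, S.yc) S.k i ∧ LowM.Off (gr n g) (S.x2, S.yc) S.k i := by
  have hsl := hS.slab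
  rw [hD] at hsl
  have hx := hS.hx
  have hG := CARf.cont_rf hg hn
  have hper : ∀ (i q : ℤ), j (i + q * ((n * L : ℕ) : ℤ)) = j i := by
    intro i q
    have h1 : ∀ k : ℕ, j (i + k * ((n * L : ℕ) : ℤ)) = j i := by
      intro k
      induction k with
      | zero => simp
      | succ k ih =>
        rw [← ih, ← hψ.per (i + k * ((n * L : ℕ) : ℤ))]
        congr 1
        push_cast
        ring
    have h2 : ∀ (k : ℕ) (i : ℤ), j (i - k * ((n * L : ℕ) : ℤ)) = j i := by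
      intro k
      induction k with
      | zero => simp
      | succ k ih =>
        intro i
        rw [← ih i, ← hψ.per (i - ((k + 1 : ℕ) : ℤ) * ((n * L : ℕ) : ℤ))]
        congr 1
        push_cast
        ring
    obtain ⟨k, rfl | rfl⟩ := q.eq_nat_or_neg
    · exact h1 k
    · rw [neg_mul, ← sub_eq_add_neg]
      exact h2 k i
  constructor
  · intro t h1 h2 h3
    obtain ⟨j₀, hW⟩ := LowM.wall_left hg hn (r := 1) one_pos (by omega) (by omega) (by omega) hsl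
    have e := fun t h h' => hW.gR rfl t h h'
    simp only at h3 e
    obtain ⟨q, hq⟩ := hG.inj i (j₀ + -t) (by rw [h3, e (-t) (by omega) (by omega), sub_neg_eq_add])
    refine hi ?_
    rw [show i = j₀ + -t + q * ((n * L : ℕ) : ℤ) by linarith, hper, ← hψ.jump (j₀ + -t)]
    rw [show j₀ + -t + 1 = j₀ + (-t + 1) by ring, show j₀ + -t - 1 = j₀ + (-t - 1) by ring]
    have c1 := e (-t) (by omega) (by omega)
    have c2 := e (-t + 1) (by omega) (by omega)
    have c3 := e (-t - 1) (by omega) (by omega)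
    have l1 := hS.left (S.yc - (-t + 1)) (by omega) (by omega)
    have l2 := hS.left (S.yc - -t) (by omega) (by omega)
    unfold crs
    rw [show j₀ + -t + 1 = j₀ + (-t + 1) by ring, show j₀ + -t - 1 = j₀ + (-t - 1) by ring]
    rw [c1, c2, c3]
    rw [show S.yc - (-t + 1) + 1 = S.yc - -t by ring] at l1
    rw [show S.yc - -t + 1 = S.yc - (-t - 1) by ring] at l2
    rw [l1, l2]
    simp
  · intro t h1 h2 h3
    obtain ⟨j₀, hW⟩ := LowM.wall_right hg hn (r := 1) one_pos (by omega) (by omega) (by omega) hsl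
    have e := fun t h h' => hW.gL rfl t h h'
    simp only at h3 e
    obtain ⟨q, hq⟩ := hG.inj i (j₀ + t) (by rw [h3, e t (by omega) (by omega)])
    refine hi ?_
    rw [show i = j₀ + t + q * ((n * L : ℕ) : ℤ) by linarith, hper, ← hψ.jump (j₀ + t)]
    rw [show j₀ + t + 1 = j₀ + (t + 1) by ring, show j₀ + t - 1 = j₀ + (t - 1) by ring]
    have c1 := e t (by omega) (by omega)
    have c2 := e (t + 1) (by omega) (by omega)
    have c3 := e (t - 1) (by omega) (by omega)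
    have l1 := hS.right (S.yc + t) (by omega) (by omega)
    have l2 := hS.right (S.yc + (t - 1)) (by omega) (by omega)
    unfold crs
    rw [show j₀ + t + 1 = j₀ + (t + 1) by ring, show j₀ + t - 1 = j₀ + (t - 1) by ring]
    rw [c1, c2, c3]
    rw [show S.yc + t + 1 = S.yc + (t + 1) by ring] at l1
    rw [show S.yc + (t - 1) + 1 = S.yc + t by ring] at l2
    rw [l1, l2]
    simp

theorem jN_self (M : ℕ) (b : ℤ) : jN M b b = Real.pi / 3 := by
  unfold jN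
  rw [if_pos (by simp)]

theorem jN_off {M : ℕ} {b v : ℤ} (h1 : v ≠ b) (h2 : |v - b| < M) : jN M b v = 0 := by
  unfold jN
  rw [if_neg]
  intro h
  have := Int.eq_zero_of_abs_lt_dvd h h2
  omega

/-- The jumps at the six marks are not zero. -/
theorem jX_ne {M : ℕ} {α : ℝ} (h0 : 0 < α) (h1 : α < 1) {i1 i2 i2' i3 k : ℤ} (k1 : i1 < i2)
    (k2 : i2 < i2') (k3 : i2' < i3) (k4 : i3 < k) (k5 : k + 1 < i1 + M) {i : ℤ}
    (hi : i = k ∨ i = k + 1 ∨ i = i1 ∨ i = i2 ∨ i = i2' ∨ i = i3) :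
    jX M α i1 i2 i2' i3 k i ≠ 0 := by
  have hpi := Real.pi_pos
  unfold jX
  rcases hi with rfl | rfl | rfl | rfl | rfl | rfl
  · rw [jN_self, jN_off (b := i1) (by omega) (by rw [abs_lt]; omega),
      jN_off (b := i2) (by omega) (by rw [abs_lt]; omega), jN_off (b := i2') (by omega) (by rw [abs_lt]; omega),
      jN_off (b := i3) (by omega) (by rw [abs_lt]; omega), jN_off (b := i + 1) (by omega) (by rw [abs_lt]; omega)]
    intro h
    linarith
  · rw [jN_self, jN_off (b := i1) (by omega) (by rw [abs_lt]; omega),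
      jN_off (b := i2) (by omega) (by rw [abs_lt]; omega), jN_off (b := i2') (by omega) (by rw [abs_lt]; omega),
      jN_off (b := i3) (by omega) (by rw [abs_lt]; omega), jN_off (b := k) (by omega) (by rw [abs_lt]; omega)]
    intro h
    linarith
  · rw [jN_self, jN_off (b := i2) (by omega) (by rw [abs_lt]; omega), jN_off (b := i2') (by omega) (by rw [abs_lt]; omega),
      jN_off (b := i3) (by omega) (by rw [abs_lt]; omega), jN_off (b := k) (by omega) (by rw [abs_lt]; omega),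
      jN_off (b := k + 1) (by omega) (by rw [abs_lt]; omega)]
    intro h
    linarith
  · rw [jN_self, jN_off (b := i1) (by omega) (by rw [abs_lt]; omega), jN_off (b := i2') (by omega) (by rw [abs_lt]; omega),
      jN_off (b := i3) (by omega) (by rw [abs_lt]; omega), jN_off (b := k) (by omega) (by rw [abs_lt]; omega),
      jN_off (b := k + 1) (by omega) (by rw [abs_lt]; omega)]
    have : 0 < (1 - α) * (Real.pi / 3) := mul_pos (by linarith) (by linarith)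
    intro h
    linarith
  · rw [jN_self, jN_off (b := i1) (by omega) (by rw [abs_lt]; omega), jN_off (b := i2) (by omega) (by rw [abs_lt]; omega),
      jN_off (b := i3) (by omega) (by rw [abs_lt]; omega), jN_off (b := k) (by omega) (by rw [abs_lt]; omega),
      jN_off (b := k + 1) (by omega) (by rw [abs_lt]; omega)]
    have : 0 < α * (Real.pi / 3) := mul_pos (by linarith) (by linarith)
    intro h
    linarith
  · rw [jN_self, jN_off (b := i1) (by omega) (by rw [abs_lt]; omega), jN_off (b := i2) (by omega) (by rw [abs_lt]; omega),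
      jN_off (b := i2') (by omega) (by rw [abs_lt]; omega), jN_off (b := k) (by omega) (by rw [abs_lt]; omega),
      jN_off (b := k + 1) (by omega) (by rw [abs_lt]; omega)]
    intro h
    linarith

/-! ### The lower bound -/

/-- For some colour no path of this colour crosses the annulus. -/
def Ring (F : Set (ℤ × ℤ)) (v : ℤ × ℤ) (ρ : ℤ) : Set Cfg :=
  {ω | ∃ col : ℤ, ω ∉ FArm col F v ρ (4 * ρ)}

open Classical in
/-- **The lower bound for the polygon with the five marks and blocked mouths.** -/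
theorem low_full (hP : MPoly P) (hg : Cont P L g) {t₁ t₂ t₂' t₃ t₄ : ℝ}
    (hm : Marks5 L g t₁ t₂ t₂' t₃ t₄) {κ₀ : ℝ} (hκ : 0 < κ₀) (K₁ : ℕ) : ∃ c ρ₀ : ℝ, 0 < c ∧ 0 < ρ₀ ∧
      ∃ n₀ : ℕ, ∀ n ≥ n₀, ∀ α : ℝ, 0 < α → α < 1 → ∀ k i1 i2 i2' i3 : ℤ,
        |(k : ℝ) / n - t₄| < ρ₀ → |(i1 : ℝ) / n - t₁| < ρ₀ → |(i2 : ℝ) / n - t₂| < ρ₀ →
        |(i2' : ℝ) / n - t₂'| < ρ₀ → |(i3 : ℝ) / n - t₃| < ρ₀ →
        ∀ S : Slb, S.Ok → S.D = rf n P → κ₀ * n ≤ S.k → S.k ≤ 2 * n →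
          PhC S.D (n * L) (gr n g) (jX (n * L) α i1 i2 i2' i3 k) S.ψ →
          ∀ r : ℕ, n ≤ K₁ * r → r ≤ K₁ * n →
            c * (sF .e 2 r * (sF (.ver ((1 - α) * (Real.pi / 3))) 2 r *
              sF (.ver (α * (Real.pi / 3))) 2 r)) ≤
            av S.D fun ω => WZ ZQ S.D S.ψ (bS ZQ S.D) ω *
              if ω ∈ Ring (S.D : Set (ℤ × ℤ)) (S.x1, S.yc) ((S.k / 16 : ℕ) : ℤ) ∧
                ω ∈ Ring (S.D : Set (ℤ × ℤ)) (S.x2, S.yc) ((S.k / 16 : ℕ) : ℤ) then 1 else 0 := by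
  obtain ⟨c, θ, hc, hc1, hθ, hθ', hpr⟩ := Low.pr_evE
  obtain ⟨ρ, hρ, K, n₁, hD⟩ := Low.exists_lowGeoE hg hm hθ (by linarith) (η := κ₀ / 16) (by positivity)
  obtain ⟨κ2, δ2, hδ2, hf2⟩ := flat_near hg hm.f2
  obtain ⟨κ2', δ2', hδ2', hf2'⟩ := flat_near hg hm.f2'
  obtain ⟨δ3, hδ3, hbd⟩ := DomMk.boxes_disj hg (Third.gam_ne hg hm.h2
    (by have h3 := hm.h3; have h4 := hm.h4; have h5 := hm.h5; have h1 := hm.h1; linarith))
  obtain ⟨Ce, hCe, hse⟩ := OwnE.sF_e_le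
  have e1 : 0 < t₂ - t₁ := sub_pos.2 hm.h1
  have e2 : 0 < t₂' - t₂ := sub_pos.2 hm.h2
  have e3 : 0 < t₃ - t₂' := sub_pos.2 hm.h3
  have e4 : 0 < t₄ - t₃ := sub_pos.2 hm.h4
  have e5 : 0 < t₁ + L - t₄ := sub_pos.2 hm.h5
  obtain ⟨ε, hε, ⟨g1, g2, g3, g4, g5⟩, hερ, hε2, hε2', hε3, hεκ, hε1⟩ : ∃ ε : ℝ, 0 < ε ∧
      (3 * ε ≤ t₂ - t₁ ∧ 3 * ε ≤ t₂' - t₂ ∧ 3 * ε ≤ t₃ - t₂' ∧ 3 * ε ≤ t₄ - t₃ ∧
        3 * ε ≤ t₁ + L - t₄) ∧ ε ≤ ρ ∧ ε ≤ δ2 ∧ ε ≤ δ2' ∧ ε ≤ δ3 ∧ ε ≤ κ₀ / 16 ∧ ε ≤ 1 := by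
    have key : ∀ x y : ℝ, 0 < x → 0 < y → ∃ z, 0 < z ∧ z ≤ x ∧ z ≤ y := fun x y hx hy =>
      ⟨min x y, lt_min hx hy, min_le_left _ _, min_le_right _ _⟩
    obtain ⟨z1, hz1, a1, a2⟩ := key _ _ e1 e2
    obtain ⟨z2, hz2, a3, a4⟩ := key _ _ e3 e4
    obtain ⟨z3, hz3, a5, a6⟩ := key _ _ hz1 hz2
    obtain ⟨z4, hz4, a7, a8⟩ := key _ _ hz3 e5
    obtain ⟨z5, hz5, a9, a10⟩ := key _ _ hρ hδ2
    obtain ⟨z6, hz6, a11, a12⟩ := key _ _ hδ2' hδ3
    obtain ⟨z7, hz7, a13, a14⟩ := key _ _ hz5 hz6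
    obtain ⟨z8, hz8, a15, a16⟩ := key _ _ hz7 (by positivity : 0 < κ₀ / 16)
    obtain ⟨z9, hz9, a17, a18⟩ := key _ _ hz8 (by positivity : 0 < z4 / 3)
    obtain ⟨z, hz, a19, a20⟩ := key _ _ hz9 one_pos
    exact ⟨z, hz, ⟨by linarith, by linarith, by linarith, by linarith, by linarith⟩, by linarith,
      by linarith, by linarith, by linarith, by linarith, a20⟩
  obtain ⟨Nε, hNε⟩ := exists_nat_gt (2 / ε)
  obtain ⟨Nκ, hNκ⟩ := exists_nat_gt (16 / κ₀)
  obtain ⟨A, hA, hlip⟩ := Kd.sF_lip 1 one_pos le_rfl (Nε * (K₁ + 1))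
  refine ⟨c ^ (5 + 2 * K) / (Ce * (K₁ + 1) * (A * A)), ε / 2, by positivity, by positivity,
    n₁ + Nε + Nκ + 1, ?_⟩
  intro n hn α hα0 hα1 k i1 i2 i2' i3 hk hi1 hi2 hi2' hi3 S hS hSD hk1 hk2 hψ r hr1 hr2
  have hn0 : 0 < n := by omega
  have hn' : (0 : ℝ) < n := by exact_mod_cast hn0
  have hnε : 2 / ε < n := hNε.trans_le (by exact_mod_cast (by omega : Nε ≤ n))
  have h2n : 2 < ε * n := by
    rw [div_lt_iff₀ hε] at hnε
    linarith
  have hkk : 16 ≤ S.k := by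
    have h1 : (16 : ℝ) / κ₀ < n := hNκ.trans_le (by exact_mod_cast (by omega : Nκ ≤ n))
    rw [div_lt_iff₀ hκ] at h1
    have h2 : (16 : ℝ) < S.k := by linarith
    exact_mod_cast h2.le
  -- the radius of the boxes of the marks
  set Rn : ℕ := ⌊ε * n⌋₊ with hRn
  have hRn1 : (Rn : ℝ) ≤ ε * n := Nat.floor_le (by positivity)
  have hRn2 : ε * n < Rn + 1 := Nat.lt_floor_add_one _
  have hRn0 : 0 < Rn := by
    have h1 : (1 : ℝ) < Rn := by linarith
    have h2 : 1 < Rn := by exact_mod_cast h1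
    omega
  have hRn3 : n ≤ Nε * Rn := by
    have h1 : (n : ℝ) ≤ 2 / ε * Rn := by
      rw [div_mul_eq_mul_div, le_div_iff₀ hε]
      linarith
    have h2 : (n : ℝ) ≤ Nε * Rn := h1.trans (mul_le_mul_of_nonneg_right hNε.le (by positivity))
    exact_mod_cast h2
  have hRn4 : Rn ≤ n := by
    have h1 : (Rn : ℝ) ≤ n := hRn1.trans (mul_le_of_le_one_left hn'.le hε1)
    exact_mod_cast h1
  have hNε0 : 1 ≤ Nε := by
    by_contra h
    have : Nε = 0 := by omega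
    rw [this] at hRn3
    omega
  have hlip1 : r ≤ Nε * (K₁ + 1) * Rn := by
    calc r ≤ K₁ * n := hr2
      _ ≤ K₁ * (Nε * Rn) := Nat.mul_le_mul_left _ hRn3
      _ = Nε * K₁ * Rn := by ring
      _ ≤ Nε * (K₁ + 1) * Rn := Nat.mul_le_mul_right _ (Nat.mul_le_mul_left _ (Nat.le_succ _))
  have hlip2 : Rn ≤ Nε * (K₁ + 1) * r := by
    calc Rn ≤ n := hRn4
      _ ≤ K₁ * r := hr1
      _ ≤ Nε * (K₁ + 1) * r := Nat.mul_le_mul_right _ ((Nat.le_succ _).trans
        (Nat.le_mul_of_pos_left _ hNε0))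
  have hr0 : 0 < r := by
    rcases Nat.eq_zero_or_pos r with h | h
    · rw [h] at hr1
      omega
    · exact h
  -- the geometry
  have h1n : (1 : ℝ) / n < ε / 2 := by
    rw [div_lt_iff₀ hn']
    linarith
  have hkε : |(k : ℝ) / n - t₄| < ε := hk.trans (by linarith)
  have hi1ε : |(i1 : ℝ) / n - t₁| < ε := hi1.trans (by linarith)
  have hi2ε : |(i2 : ℝ) / n - t₂| < ε := hi2.trans (by linarith)
  have hi2ε' : |(i2' : ℝ) / n - t₂'| < ε := hi2'.trans (by linarith)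
  have hi3ε : |(i3 : ℝ) / n - t₃| < ε := hi3.trans (by linarith)
  have hX : |((k + 1 : ℤ) : ℝ) / n - t₄| < ε := by
    push_cast
    rw [add_div]
    rw [abs_lt] at hk ⊢
    constructor <;> linarith [hk.1, hk.2, (by positivity : (0 : ℝ) < 1 / n)]
  obtain ⟨σ, p, T, N, R, r', I, J, H, hRρ, hrR, hIK, hJK, hRη, hnI, hnJ⟩ := hD n (by omega) (k + 1) i1 i2 i2' i3
    (hX.trans_le hερ) (hi1ε.trans_le hερ) (hi2ε.trans_le hερ) (hi2ε'.trans_le hερ) (hi3ε.trans_le hερ)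
  have hR0 := H.R_pos
  have hRr : (0 : ℝ) < R := by exact_mod_cast hR0
  have hrR' : r' < R := by
    have h4 : (r' : ℝ) < R := lt_of_le_of_lt hrR (by nlinarith)
    exact_mod_cast h4
  -- the gaps of the indices
  have hRnR : (((Rn : ℕ) : ℤ) : ℝ) ≤ ε * n := by exact_mod_cast hRn1
  have i12 : i1 + (Rn : ℤ) ≤ i2 := Low.gap_of hn0 hi1ε hi2ε (by linarith) hRnR
  have i23 : i2 + (Rn : ℤ) ≤ i2' := Low.gap_of hn0 hi2ε hi2ε' (by linarith) hRnR
  have i34 : i2' + (Rn : ℤ) ≤ i3 := Low.gap_of hn0 hi2ε' hi3ε (by linarith) hRnR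
  have i4 : i3 + (Rn : ℤ) ≤ k := Low.gap_of hn0 hi3ε hkε (by linarith) hRnR
  have i5 : k + 1 < i1 + (n * L : ℕ) := by
    have h6 : |((i1 + (n * L : ℕ) : ℤ) : ℝ) / n - (t₁ + L)| < ε := by
      push_cast
      rw [add_div, mul_div_cancel_left₀ _ hn'.ne']
      rw [abs_lt] at hi1ε ⊢
      constructor <;> linarith [hi1ε.1, hi1ε.2]
    have h7 : (((2 : ℤ)) : ℝ) ≤ ε * n := by
      push_cast
      linarith
    have := Low.gap_of hn0 hkε h6 (R' := 2) (ε := ε) (by linarith) h7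
    omega
  have hRn0' : (0 : ℤ) < Rn := by exact_mod_cast hRn0
  -- the mouths
  obtain ⟨MI, MJ, m1, m2, m3, m4, m5, m6⟩ := LowM.mouth_rings_slb hg hn0 hS hSD hkk hk2 (X := k + 1)
    (i₁ := i1) (i₂ := i2) (i₂' := i2') (i₃ := i3) (by omega)
    (fun i hi => off_of_jump hg hn0 hS hSD (by omega) hψ (jX_ne hα0 hα1 (by omega) (by omega) (by omega)
      (by omega) i5 (by
        rcases hi with h | h | h | h | h | h
        · left; omega
        · right; left; exact h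
        · right; right; left; exact h
        · right; right; right; left; exact h
        · right; right; right; right; left; exact h
        · right; right; right; right; right; exact h)))
    (δ := κ₀ / 16 * n) (by linarith) H.fr (R := R) hRη (by rw [H.v0]) (I := I) (J := J)
    (fun f hf => by
      obtain ⟨j, a1, a2, a3, a4⟩ := hnI f hf
      refine ⟨j, a1, ?_, ?_, ?_⟩
      · have : (j : ℝ) ≤ i1 := by exact_mod_cast a2
        have : 0 ≤ κ₀ / 16 * n := by positivity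
        linarith
      · push_cast at a3
        exact a3
      · push_cast at a4
        exact a4)
    (fun f hf => by
      obtain ⟨j, a1, a2, a3, a4⟩ := hnJ f hf
      refine ⟨j, ?_, a2, ?_, ?_⟩
      · have : (i3 : ℝ) ≤ j := by exact_mod_cast a1
        have : 0 ≤ κ₀ / 16 * n := by positivity
        linarith
      · push_cast at a3
        exact a3
      · push_cast at a4
        exact a4)
    H.dis
  -- the event
  have hI0 : ∀ i ∈ I ∪ MI, 0 < i.2 := by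
    intro i hi
    rcases mem_union.1 hi with h | h
    · exact H.right.rad i h
    · exact m4 i (mem_union_left _ h)
  have hJ0 : ∀ i ∈ J ∪ MJ, 0 < i.2 := by
    intro i hi
    rcases mem_union.1 hi with h | h
    · exact H.left.rad i h
    · exact m4 i (mem_union_right _ h)
  have hprG := hpr P L g n (k + 1) i1 i2 i2' i3 _ σ p T N R r' I J (I ∪ MI) (J ∪ MJ) H hrR hI0 hJ0 m5
  set G : Set Cfg := Low.evE P g n (k + 1) σ R r' (I ∪ MI) (J ∪ MJ) with hG
  have hdep : DepOn {f | f ∈ rf n P ∧ ∀ d' : ℤ, (d' : ℝ) ≤ ε * n →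
      f ∉ RFb (gr n g i2) d' ∧ f ∉ RFb (gr n g i2') d'} G := by
    have hoff : ∀ i ∈ MI ∪ MJ, ∀ f ∈ RFb i.1 (4 * i.2), ∀ d' : ℤ, (d' : ℝ) ≤ ε * n →
        f ∉ RFb (gr n g i2) d' ∧ f ∉ RFb (gr n g i2') d' := fun i hi f hf d' hd' =>
      (m6 i hi f hf).2 d' (hd'.trans (mul_le_mul_of_nonneg_right hεκ hn'.le))
    intro ω η h
    refine Low.depOn_evE ω η fun f hf => h f ?_
    rcases hf with hf | ⟨hf, hf'⟩
    · exact ⟨mem_coe.1 (H.sub hf), fun d' hd' =>
        H.off f (Or.inl (mem_coe.1 hf)) d' (hd'.trans (mul_le_mul_of_nonneg_right hερ hn'.le))⟩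
    · refine ⟨mem_coe.1 hf, fun d' hd' => ?_⟩
      rcases hf' with ⟨i, hi, hfi⟩ | ⟨i, hi, hfi⟩
      · rcases mem_union.1 hi with h' | h'
        · exact H.off f (Or.inr (Or.inl ⟨i, h', hfi⟩)) d'
            (hd'.trans (mul_le_mul_of_nonneg_right hερ hn'.le))
        · exact hoff i (mem_union_left _ h') f hfi d' hd'
      · rcases mem_union.1 hi with h' | h'
        · exact H.off f (Or.inr (Or.inr ⟨i, h', hfi⟩)) d'
            (hd'.trans (mul_le_mul_of_nonneg_right hερ hn'.le))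
        · exact hoff i (mem_union_right _ h') f hfi d' hd'
  have hRn5 : ((Rn : ℤ) : ℝ) ≤ δ3 * n := hRnR.trans (mul_le_mul_of_nonneg_right hε3 hn'.le)
  have key := LowZ.Z_low_ind (k := k) (R := Rn) (R' := Rn) hP hg hn0 hα0.le hα1.le (by omega) i12 i23 i23 i34
    (by omega) hRn0'.le hRn0'.le hdep (fun f hf => hf.2 Rn hRnR)
    (hbd n hn0 i2 i2' (hi2ε.trans_le hε3) (hi2ε'.trans_le hε3) Rn Rn hRn5 hRn5)
    (fun ω hω => H.conn_right hP hg hn0 hrR' subset_union_left hI0 hω) (fun ω hω => by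
      have := H.conn_left hP hg hn0 hrR' subset_union_left hJ0 hω
      rwa [add_sub_cancel_right] at this)
  -- the local factors
  obtain ⟨q1, q2⟩ := hf2 n hn0 i2 (hi2ε.trans_le hε2) Rn hRn0'.le
    (hRnR.trans (mul_le_mul_of_nonneg_right hε2 hn'.le))
  obtain ⟨q3, q4⟩ := hf2' n hn0 i2' (hi2ε'.trans_le hε2') Rn hRn0'.le
    (hRnR.trans (mul_le_mul_of_nonneg_right hε2' hn'.le))
  have hf1 : DomPr.fac (rf n P) (DomMk.MA n g i2 Rn) (DomMk.MB n g i2 Rn) (gr n g i2) Rn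
      (TW.tau α) = sF (.ver (α * (Real.pi / 3))) 2 Rn := by
    rw [MA_eq q2 hRn0'.le, MB_eq q2 hRn0'.le]
    exact fac_flat q1 (α * (Real.pi / 3))
  have hf1' : DomPr.fac (rf n P) (DomMk.MA n g i2' Rn) (DomMk.MB n g i2' Rn) (gr n g i2') Rn
      (TW.tau α) = sF (.ver (α * (Real.pi / 3))) 2 Rn := by
    rw [MA_eq q4 hRn0'.le, MB_eq q4 hRn0'.le]
    exact fac_flat q3 (α * (Real.pi / 3))
  have hsym : ∀ r, sF (.ver ((1 - α) * (Real.pi / 3))) 2 r = sF (.ver (α * (Real.pi / 3))) 2 r := by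
    intro r
    have h1 : tJ ((1 - α) * (Real.pi / 3)) = tJ (α * (Real.pi / 3)) := by
      rw [show (1 - α) * (Real.pi / 3) = Real.pi / 3 - α * (Real.pi / 3) by ring]
      exact tJ_symm _
    unfold sF sT
    simp only [h1]
    rfl
  rw [hf1, hf1'] at key
  have hτ : (1 : ℝ) ≤ sT (.ver (α * (Real.pi / 3))) := LowZ.one_le_tau hα0.le hα1.le
  have hv := hlip (.ver (α * (Real.pi / 3))) 2 r Rn (by norm_num) (by norm_num) (Or.inl hτ) hlip1 hlip2
  have hv0 : 0 ≤ sF (.ver (α * (Real.pi / 3))) 2 r := Kd.sF_nonneg (zero_le_one.trans hτ) _ _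
  have hv1 : 0 ≤ sF (.ver (α * (Real.pi / 3))) 2 Rn := Kd.sF_nonneg (zero_le_one.trans hτ) _ _
  rw [hsym]
  have hψ' : PhC (rf n P) (n * L) (gr n g) (jX (n * L) α i1 i2 i2' i3 k) S.ψ := hSD ▸ hψ
  have hWZ : ∀ ω, (envX P L g n α i1 i2 i2' i3 k).W ω =
      WZ ZQ (rf n P) S.ψ (bS ZQ (rf n P)) ω := fun ω => by
    rw [← HJ.W_WZ (CARf.mpoly_rf hP hn0) hψ' ω]
    rfl
  have hMk : LowZ.Mk4 (n * L) k i1 i2 i2' i3 :=
    ⟨by omega, by omega, by omega, by omega, by omega⟩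
  have hW0 : ∀ ω, 0 ≤ (envX P L g n α i1 i2 i2' i3 k).W ω := fun ω =>
    LowZ.envX_nonneg hP hg hn0 hα0.le hα1.le hMk ω
  -- the rings are blocked on the event
  have hring : ∀ ω ∈ G, ω ∈ Ring (rf n P : Set (ℤ × ℤ)) (S.x1, S.yc) ((S.k / 16 : ℕ) : ℤ) ∧
      ω ∈ Ring (rf n P : Set (ℤ × ℤ)) (S.x2, S.yc) ((S.k / 16 : ℕ) : ℤ) := by
    intro ω hω
    have hall : ∀ i ∈ MI ∪ MJ, ∃ col : ℤ, ω ∉ FArm col (rf n P : Set (ℤ × ℤ)) i.1 i.2 (4 * i.2) := by
      intro i hi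
      rcases mem_union.1 hi with h | h
      · exact ⟨_, Low.evE_ring_right hω (mem_union_right _ h) (m4 i hi)
          fun f _ hf' hf'' => (m6 i hi f hf').1 hf''⟩
      · exact ⟨_, Low.evE_ring_left hω (mem_union_right _ h) (m4 i hi)
          fun f _ hf' hf'' => (m6 i hi f hf').1 hf''⟩
    constructor
    · exact hall ((S.x1, S.yc), ((S.k / 16 : ℕ) : ℤ)) (by rw [m1]; simp)
    · exact hall ((S.x2, S.yc), ((S.k / 16 : ℕ) : ℤ)) (by rw [m1]; simp)
  have hcmp : (av (rf n P) fun ω => if ω ∈ G then (envX P L g n α i1 i2 i2' i3 k).W ω else 0) ≤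
      av S.D fun ω => WZ ZQ S.D S.ψ (bS ZQ S.D) ω *
        if ω ∈ Ring (S.D : Set (ℤ × ℤ)) (S.x1, S.yc) ((S.k / 16 : ℕ) : ℤ) ∧
          ω ∈ Ring (S.D : Set (ℤ × ℤ)) (S.x2, S.yc) ((S.k / 16 : ℕ) : ℤ) then 1 else 0 := by
    rw [hSD]
    refine av_mono fun T _ => ?_
    generalize (ind T : Cfg) = ω
    rw [← hWZ ω]
    by_cases hω : ω ∈ G
    · rw [if_pos hω, if_pos (hring ω hω), mul_one]
    · rw [if_neg hω]
      exact mul_nonneg (hW0 ω) (by split_ifs <;> norm_num)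
  refine le_trans ?_ (key.trans hcmp)
  -- the numbers
  have hcard : 1 + #(I ∪ MI) + #(J ∪ MJ) ≤ 5 + 2 * K := by
    have h1 := card_union_le I MI
    have h2 := card_union_le J MJ
    omega
  have hpr' : c ^ (5 + 2 * K) / n ≤ pr (rf n P) G := by
    refine le_trans ?_ hprG
    exact div_le_div_of_nonneg_right (pow_le_pow_of_le_one hc.le hc1 hcard) hn'.le
  have hpr0 : 0 ≤ pr (rf n P) G := le_trans (by positivity) hpr'
  have hr0' : (0 : ℝ) < r := by exact_mod_cast hr0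
  have hse' : sF .e 2 r ≤ Ce * (K₁ + 1) / n := by
    refine (hse r hr0).trans ?_
    rw [div_le_div_iff₀ hr0' hn', mul_assoc]
    refine mul_le_mul_of_nonneg_left ?_ hCe.le
    have h1 : (n : ℝ) ≤ K₁ * r := by exact_mod_cast hr1
    nlinarith
  have hse0 : 0 ≤ sF .e 2 r := Kd.sF_nonneg (by norm_num [sT]) _ _
  have hvv : sF (.ver (α * (Real.pi / 3))) 2 r * sF (.ver (α * (Real.pi / 3))) 2 r ≤
      (A * A) * (sF (.ver (α * (Real.pi / 3))) 2 Rn * sF (.ver (α * (Real.pi / 3))) 2 Rn) := by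
    calc _ ≤ (A * sF (.ver (α * (Real.pi / 3))) 2 Rn) * (A * sF (.ver (α * (Real.pi / 3))) 2 Rn) :=
          mul_le_mul hv hv hv0 (hv0.trans hv)
      _ = _ := by ring
  have hK1 : (0 : ℝ) < K₁ + 1 := by positivity
  have hAA : 0 < A * A := by positivity
  calc c ^ (5 + 2 * K) / (Ce * (K₁ + 1) * (A * A)) *
      (sF .e 2 r * (sF (.ver (α * (Real.pi / 3))) 2 r * sF (.ver (α * (Real.pi / 3))) 2 r)) ≤
      c ^ (5 + 2 * K) / (Ce * (K₁ + 1) * (A * A)) *
      ((Ce * (K₁ + 1) / n) * ((A * A) * (sF (.ver (α * (Real.pi / 3))) 2 Rn *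
        sF (.ver (α * (Real.pi / 3))) 2 Rn))) := by
        refine mul_le_mul_of_nonneg_left ?_ (by positivity)
        exact mul_le_mul hse' hvv (mul_nonneg hv0 hv0) (by positivity)
    _ = c ^ (5 + 2 * K) / n * sF (.ver (α * (Real.pi / 3))) 2 Rn *
        sF (.ver (α * (Real.pi / 3))) 2 Rn := by
        field_simp
    _ ≤ pr (rf n P) G * sF (.ver (α * (Real.pi / 3))) 2 Rn *
        sF (.ver (α * (Real.pi / 3))) 2 Rn :=
        mul_le_mul_of_nonneg_right (mul_le_mul_of_nonneg_right hpr' hv1) hv1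

end Pool.Agent.SixB.LowDX
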