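import Pool.Agent.Lib.SixB.S3Conf
import Pool.Agent.Lib.SixB.S3Cell

/-!
# 6BD step 3, row R20, abstract part: the lower bound, deterministic half

A surface `F` contains the closed part `G` (the image of a polygon). `Cut`: boxes `Pc j` with cores `Kc j` around
the mouths through which `G` is attached to the rest; no strand of a box crosses its ring.
* `Cut.vis_in`: a strand which visits the inner part `inn G J Pc` stays in `G`.
* `Cut.vis_box`: a strand which visits `G` but not its inner part stays in one box.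
* `low_det`: if the cells `C` of the island sides `Z₁` outside `G` are not crossed then all mates of `Z` are in `Z`
  and `WZ F = WZ G * ∏ v, t v ^ Nb v`.
-/

set_option autoImplicit false
set_option linter.unusedSectionVars false

namespace Pool.Agent.SixB.LwD

open Pool.Agent.Perc.Q Relation Pool.Agent.SixB.Conf

noncomputable section

/-! ## Functions which are constant along a strand -/

section const

variable {V Φ : Type} {Q : QC V Φ} {ω : Φ → Bool} {F : Set Φ} {e : V × V}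

/-- A function of the faces which is constant along the steps of a strand. -/
theorem vis_const {α : Type} (p : Φ → α)
    (h : ∀ f ∈ Vis Q ω F e, ∀ g ∈ Vis Q ω F e, ∀ k l, (sd Q f k).swap = sd Q g l → p f = p g) :
    ∀ f ∈ Vis Q ω F e, ∀ g ∈ Vis Q ω F e, p f = p g := by
  have key : ∀ f ∈ F, ∀ k, sd Q f k ∈ Orb Q ω F e → ∀ b, ReflTransGen (Nx Q ω F) (sd Q f k) b →
      ∀ g ∈ F, ∀ l, b = sd Q g l → p f = p g := by
    intro f hf k hk b hb
    induction hb with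
    | refl =>
      intro g hg l hl
      rw [(sd_inj hl).1]
    | tail h1 h2 ih =>
      rename_i x y
      intro g hg l hl
      obtain ⟨f', hf', k', e1, e2⟩ := nx_face h2
      rw [ih f' hf' k' e1]
      have ho : x ∈ Orb Q ω F e := ReflTransGen.trans (show ReflTransGen (Nx Q ω F) e (sd Q f k) from hk) h1
      have v1 : f' ∈ Vis Q ω F e := ⟨hf', k', by rw [e1] at ho; exact ho⟩
      have v2 : g ∈ Vis Q ω F e := ⟨hg, l, by
        have := Orb_step ho h2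
        rw [hl] at this
        exact this⟩
      refine h f' v1 g v2 (mt (ω f') k') l ?_
      rw [← e2, Prod.swap_swap, hl]
  intro f hf g hg
  obtain ⟨hf1, k, hk⟩ := hf
  obtain ⟨hg1, l, hl⟩ := hg
  have hu : Relator.RightUnique (Nx Q ω F) := fun _ _ _ h h' => Nx.unique h h'
  rcases ReflTransGen.total_of_right_unique hu hk hl with h1 | h1
  · exact key f hf1 k hk _ h1 g hg1 l rfl
  · exact (key g hg1 l hl _ h1 f hf1 k rfl).symm

end const

variable {V Φ τ : Type} [DecidableEq V] [DecidableEq Φ]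
variable {Q : QC V Φ} {F G : Finset Φ} {ω : Φ → Bool} {J : Finset τ} {Kc Pc : τ → Finset Φ}
  {e a b : V × V} {f g : Φ}

/-- The face of a boundary side is visited. -/
theorem self_vis (ha : a ∈ bS Q F) : ∃ f ∈ Vis Q ω (F : Set Φ) a, ∃ k, a = sd Q f k := by
  obtain ⟨f, hf, k, hk⟩ := bS_sd ha
  exact ⟨f, ⟨by exact_mod_cast hf, k, by
    show sd Q f k ∈ _
    rw [← hk]
    exact mem_Orb_self⟩, k, hk⟩

open Classical in
/-- the inner part of `G` -/
def inn (G : Finset Φ) (J : Finset τ) (Pc : τ → Finset Φ) : Finset Φ :=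
  G.filter fun f => ∀ j ∈ J, f ∉ Pc j

theorem mem_inn : f ∈ inn G J Pc ↔ f ∈ G ∧ ∀ j ∈ J, f ∉ Pc j := by
  classical
  unfold inn
  rw [Finset.mem_filter]

/-- The mouths of the part `G` of the surface `F`: boxes `Pc j` with the cores `Kc j`. -/
structure Cut (Q : QC V Φ) (F G : Finset Φ) (J : Finset τ) (Kc Pc : τ → Finset Φ) (ω : Φ → Bool) :
    Prop where
  GF : G ⊆ F
  KP : ∀ j ∈ J, Kc j ⊆ Pc j
  PF : ∀ j ∈ J, Pc j ⊆ F
  nox : ∀ j ∈ J, NoX Q ω ((Pc j : Set Φ) \ Kc j) (Kc j) ((F : Set Φ) \ Pc j)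
  cut : ∀ f ∈ G, ∀ g ∈ F, g ∉ G → ∀ k l, (sd Q f k).swap = sd Q g l → ∃ j ∈ J, f ∈ Kc j
  sep : ∀ j ∈ J, ∀ j' ∈ J, ∀ f ∈ G, ∀ g ∈ G, f ∈ Pc j → g ∈ Pc j' → ∀ k l,
    (sd Q f k).swap = sd Q g l → j = j'

namespace Cut

theorem core (h : Cut Q F G J Kc Pc ω) {j : τ} (hj : j ∈ J) : Core Q F (Pc j) (Kc j) ω :=
  ⟨h.KP j hj, h.PF j hj, h.nox j hj⟩

theorem swap_eq {k l : ZMod 4} (h : (sd Q f k).swap = sd Q g l) : (sd Q g l).swap = sd Q f k := by
  rw [← h, Prod.swap_swap]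

/-- A strand which visits `G` and the rest visits a core. -/
theorem exists_core (h : Cut Q F G J Kc Pc ω) (hf : f ∈ Vis Q ω (F : Set Φ) e) (hfG : f ∈ G)
    (hg : g ∈ Vis Q ω (F : Set Φ) e) (hgG : g ∉ G) : ∃ j ∈ J, ∃ x ∈ Kc j, x ∈ Vis Q ω (F : Set Φ) e := by
  by_contra hcon
  push Not at hcon
  have hc := vis_const (Q := Q) (ω := ω) (F := (F : Set Φ)) (e := e) (fun x => x ∈ G) ?_ f hf g hg
  · exact hgG (hc.mp hfG)
  · intro x hx y hy k l hxy
    refine propext ⟨fun hxG => ?_, fun hyG => ?_⟩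
    · by_contra hyG
      obtain ⟨j, hj, h1⟩ := h.cut x hxG y (by exact_mod_cast hy.1) hyG k l hxy
      exact hcon j hj x h1 hx
    · by_contra hxG
      obtain ⟨j, hj, h1⟩ := h.cut y hyG x (by exact_mod_cast hx.1) hxG l k (swap_eq hxy)
      exact hcon j hj y h1 hy

/-- **A strand which visits the inner part stays in `G`.** -/
theorem vis_in (h : Cut Q F G J Kc Pc ω) (hf : f ∈ Vis Q ω (F : Set Φ) e) (hfi : f ∈ inn G J Pc) :
    Vis Q ω (F : Set Φ) e ⊆ G := by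
  obtain ⟨h1, h2⟩ := mem_inn.mp hfi
  intro g hg
  by_contra hgG
  obtain ⟨j, hj, x, hx, hxv⟩ := h.exists_core hf h1 hg (fun h3 => hgG (by exact_mod_cast h3))
  exact h2 j hj (by exact_mod_cast (h.core hj).conf hx hxv hf)

/-- A strand in `G` which does not visit the inner part stays in one box. -/
theorem one_box (h : Cut Q F G J Kc Pc ω) {F' : Finset Φ} (hv : Vis Q ω (F' : Set Φ) e ⊆ G)
    (hin : ∀ f ∈ inn G J Pc, f ∉ Vis Q ω (F' : Set Φ) e) (hf : f ∈ Vis Q ω (F' : Set Φ) e) :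
    ∃ j ∈ J, Vis Q ω (F' : Set Φ) e ⊆ Pc j := by
  have box : ∀ x ∈ Vis Q ω (F' : Set Φ) e, ∃ j ∈ J, x ∈ Pc j := by
    intro x hx
    by_contra hcon
    push Not at hcon
    exact hin x (mem_inn.mpr ⟨by exact_mod_cast hv hx, hcon⟩) hx
  obtain ⟨j, hj, hfj⟩ := box f hf
  refine ⟨j, hj, fun g hg => ?_⟩
  have hc := vis_const (Q := Q) (ω := ω) (F := (F' : Set Φ)) (e := e) (fun x => x ∈ Pc j) ?_ f hf g hg
  · exact_mod_cast hc.mp hfj
  · have step : ∀ x ∈ Vis Q ω (F' : Set Φ) e, ∀ y ∈ Vis Q ω (F' : Set Φ) e, ∀ k l,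
        (sd Q x k).swap = sd Q y l → x ∈ Pc j → y ∈ Pc j := by
      intro x hx y hy k l hxy hxj
      obtain ⟨j', hj', hyj⟩ := box y hy
      rw [h.sep j hj j' hj' x (by exact_mod_cast hv hx) y (by exact_mod_cast hv hy) hxj hyj k l hxy]
      exact hyj
    intro x hx y hy k l hxy
    exact propext ⟨step x hx y hy k l hxy, step y hy x hx l k (swap_eq hxy)⟩

/-- **A strand which visits `G` but not the inner part stays in one box.** -/
theorem vis_box (h : Cut Q F G J Kc Pc ω) (hin : ∀ f ∈ inn G J Pc, f ∉ Vis Q ω (F : Set Φ) e)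
    (hf : f ∈ Vis Q ω (F : Set Φ) e) (hfG : f ∈ G) : ∃ j ∈ J, Vis Q ω (F : Set Φ) e ⊆ Pc j := by
  by_cases hc : ∃ j ∈ J, ∃ x ∈ Kc j, x ∈ Vis Q ω (F : Set Φ) e
  · obtain ⟨j, hj, x, hx, hxv⟩ := hc
    exact ⟨j, hj, (h.core hj).conf hx hxv⟩
  · refine h.one_box (fun g hg => ?_) hin hf
    by_contra hgG
    exact hc (h.exists_core hf hfG hg (fun h3 => hgG (by exact_mod_cast h3)))

/-- `G` with its inner part as a piece of the surface. -/
theorem coreG (h : Cut Q F G J Kc Pc ω) : Core Q F G (inn G J Pc) ω where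
  sub := fun _ hf => (mem_inn.mp hf).1
  subF := h.GF
  nox := by
    rintro c ⟨f, hf, k, hk⟩ b hb ⟨g, hg, l, rfl⟩
    have hfi : f ∈ inn G J Pc := by exact_mod_cast hf
    have hfF : f ∈ (F : Set Φ) := by exact_mod_cast h.GF (mem_inn.mp hfi).1
    have hc : c = (sd Q f k).swap := by rw [← hk, Prod.swap_swap]
    -- the element before `c`
    have h1 : Nx Q ω (F : Set Φ) (sd Q f (mt (ω f) k)) c := by
      have := nx_mt (Q := Q) (ω := ω) hfF (mt (ω f) k)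
      rw [mt_mt] at this
      rw [hc]
      exact this
    have h2 : sd Q g l ∈ Orb Q ω (F : Set Φ) (sd Q f (mt (ω f) k)) := by
      have h3 : sd Q g l ∈ Orb Q ω (F : Set Φ) c := by
        refine Orb_mono ?_ hb
        exact Set.sdiff_subset.trans (by exact_mod_cast h.GF)
      exact ReflTransGen.head h1 h3
    have h4 := h.vis_in (e := sd Q f (mt (ω f) k)) ⟨hfF, mt (ω f) k, mem_Orb_self⟩ hfi
    exact hg.2 (h4 ⟨hg.1, l, h2⟩)

end Cut

/-! ## The product -/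

section prod

variable {ψ ψG : V × V → ℝ} {Z Z₁ : Finset (V × V)} {ι κ : Type} [DecidableEq ι] [DecidableEq κ]

/-- Hypotheses on the surface `F`, its part `G` with the phases `ψG`, the boxes at the mouths of `G`, and the cells
`C` of the sides `Z₁` outside `G`. -/
structure Dat (Q : QC V Φ) (F G : Finset Φ) (ψ ψG : V × V → ℝ) (Z Z₁ : Finset (V × V))
    (J : Finset τ) (Kc Pc : τ → Finset Φ) (C : Cells Q F ψ Z₁ ι κ) (ω : Φ → Bool) : Prop
    extends Cut Q F G J Kc Pc ω where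
  Z_F : Z ⊆ bS Q F
  Z₁_Z : Z₁ ⊆ Z
  /-- a side of `Z` is a side of a face of `G` or in `Z₁` -/
  cov : ∀ a ∈ Z, a ∈ Z₁ ∨ a ∈ dE Q G
  zG : ∀ a ∈ bS Q F, a ∈ bS Q G → a ∈ Z
  hψ : ∀ a ∈ bS Q F, a ∈ bS Q G → ψG a = ψ a
  zP : ∀ j ∈ J, ∀ a ∈ bS Q F, a ∈ bS Q (Pc j) → a ∈ Z
  n1 : ∀ j ∈ J, ∀ a ∈ bS Q F, a ∈ bS Q (Pc j) → mate Q (Pc j) ω a ∈ bS Q F →
    wt Q (Pc j) ω ψ a = Real.sqrt 3
  n2 : ∀ j ∈ J, ∀ a ∈ bS Q G, a ∈ bS Q (Pc j ∩ G) → mate Q (Pc j ∩ G) ω a ∈ bS Q G →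
    wt Q (Pc j ∩ G) ω ψG a = Real.sqrt 3
  ex : C.Exact
  X0 : C.X ω = 0
  hB : ∀ v ∈ C.S, Disjoint (C.B v) G
  zI : ∀ i ∈ C.I, ∀ b ∈ bS Q (C.G i), b ∈ bS Q F → b ∈ Z
  zB : ∀ v ∈ C.S, ∀ b ∈ bS Q (C.B v), b ∈ bS Q F → b ∈ Z

namespace Dat

variable {C : Cells Q F ψ Z₁ ι κ}

/-- the face of a side of `Z` which is a side of `G` -/
theorem face_G (h : Dat Q F G ψ ψG Z Z₁ J Kc Pc C ω) (ha : a ∈ Z) (hG : a ∈ dE Q G) :
    ∃ f ∈ G, f ∈ Vis Q ω (F : Set Φ) a := by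
  obtain ⟨f, hf, k, h1 | h1⟩ := mem_dE.mp hG
  · refine ⟨f, hf, by exact_mod_cast h.GF hf, k, ?_⟩
    show sd Q f k ∈ _
    have : sd Q f k = a := h1.symm
    rw [this]
    exact mem_Orb_self
  · exact absurd h1 ((mem_bS.mp (h.Z_F ha)).2 f (by exact_mod_cast h.GF hf) k)

/-- **All mates are island sides.** -/
theorem mates (h : Dat Q F G ψ ψG Z Z₁ J Kc Pc C ω) : ∀ a ∈ Z, mate Q F ω a ∈ Z := by
  intro a ha
  have haF := h.Z_F ha
  have hmF := mate_mem (ω := ω) haF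
  by_cases hin : ∃ f ∈ inn G J Pc, f ∈ Vis Q ω (F : Set Φ) a
  · obtain ⟨f, hf, hfv⟩ := hin
    obtain ⟨h1, h2, -⟩ := conf_mate h.GF haF (h.vis_in hfv hf)
    refine h.zG _ hmF ?_
    rw [← h2]
    exact mate_mem h1
  · push Not at hin
    rcases h.cov a ha with h1 | h1
    · rcases C.stay h.X0 h1 with ⟨i, hi, h2, h3, h4⟩ | ⟨v, hv, h2, h3, h4⟩
      · rw [h4]
        exact h.zI i hi _ (mate_mem (C.bS_G hi h1 h2)) h3
      · rw [h4]
        exact h.zB v hv _ (mate_mem (C.bS_B hv h1 h2)) h3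
    · obtain ⟨f, hf, hfv⟩ := h.face_G ha h1
      obtain ⟨j, hj, h2⟩ := h.vis_box hin hfv hf
      obtain ⟨h3, h4, -⟩ := conf_mate (h.PF j hj) haF h2
      refine h.zP j hj _ hmF ?_
      rw [← h4]
      exact mate_mem h3

theorem mc (h : Dat Q F G ψ ψG Z Z₁ J Kc Pc C ω) : MC Q F ω Z := ⟨h.Z_F, h.mates⟩

/-- **The arcs which visit the inner part of `G`**: the weight of `G`. -/
theorem aP_in (h : Dat Q F G ψ ψG Z Z₁ J Kc Pc C ω) :
    aP Q F ω ψ (vS Q F ω (inn G J Pc) Z) = aP Q G ω ψG (bS Q G) := by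
  refine h.coreG.aP_eq h.mc mc_bS (fun a ha haG _ => ⟨fun _ => haG, fun _ => h.zG a ha haG⟩) h.hψ ?_
  intro a ha hv
  obtain ⟨f, hf, -⟩ := self_vis (ω := ω) ha
  have hsub : Vis Q ω (G : Set Φ) a ⊆ (G : Set Φ) := fun x hx => hx.1
  obtain ⟨j, hj, h1⟩ := h.one_box hsub hv hf
  have h2 : Vis Q ω (G : Set Φ) a ⊆ ((Pc j ∩ G : Finset Φ) : Set Φ) := by
    intro x hx
    rw [Finset.coe_inter]
    exact ⟨h1 hx, hx.1⟩
  obtain ⟨h3, h4, -⟩ := conf_mate Finset.inter_subset_right ha h2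
  have h5 := conf_wt (ψ := ψG) (ψ' := ψG) Finset.inter_subset_right ha h2 rfl rfl
  rw [← h5]
  refine h.n2 j hj a ha h3 ?_
  rw [h4]
  exact mate_mem ha

/-- the arcs over the special vertices -/
def U (C : Cells Q F ψ Z₁ ι κ) (ω : Φ → Bool) : Finset (Sym2 (V × V)) := C.S.biUnion (C.A C.B ω)

/-- the other arcs which do not visit the inner part -/
theorem wt_out (h : Dat Q F G ψ ψG Z Z₁ J Kc Pc C ω) (h0 : ¬ ∃ v ∈ C.S, C.t v = 0 ∧ C.Nb v ω ≠ 0)
    (ha : a ∈ Z \ vS Q F ω (inn G J Pc) Z) (hU : s(a, mate Q F ω a) ∉ U C ω) :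
    wt Q F ω ψ a = Real.sqrt 3 := by
  classical
  obtain ⟨haZ, hav⟩ := Finset.mem_sdiff.mp ha
  have hin : ∀ f ∈ inn G J Pc, f ∉ Vis Q ω (F : Set Φ) a := fun f hf hfv =>
    hav (mem_vS.mpr ⟨haZ, f, hf, hfv⟩)
  have hbad : C.bad C.B ω = ∅ := by
    have h1 := C.card_bad (ω := ω) (D := C.B) fun v _ => Finset.Subset.refl _
    have h2 : ∑ v ∈ C.S, (C.Nb v ω - (ovr Q (C.B v) (C.PA v) (C.PB v) ω).card) = 0 :=
      Finset.sum_eq_zero fun v _ => Nat.sub_self _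
    rw [h.X0, h2] at h1
    exact Finset.card_eq_zero.mp (Nat.le_zero.mp h1)
  rcases h.cov a haZ with h1 | h1
  · rcases C.trichotomy h1 hU with ⟨c, h2, -⟩ | ⟨i, hi, h2, h3, h4⟩ | ⟨v, hv, h2, h3, h4, h5, h6⟩
    · rw [hbad] at h2
      exact absurd h2 (Finset.notMem_empty c)
    · rw [h4]
      exact h.ex.nat i hi ω a h1 h2 h3
    · rcases h.ex.spec v hv ω a h1 h2 h3 with h7 | h7 | h7 | h7
      · exact absurd h7 h5
      · exact absurd h7 h6
      · rw [h4]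
        exact h7
      · exact absurd ⟨v, hv, h7⟩ h0
  · obtain ⟨f, hf, hfv⟩ := h.face_G haZ h1
    obtain ⟨j, hj, h2⟩ := h.vis_box hin hfv hf
    have haF := h.Z_F haZ
    obtain ⟨h3, h4, -⟩ := conf_mate (h.PF j hj) haF h2
    have h5 := conf_wt (ψ := ψ) (ψ' := ψ) (h.PF j hj) haF h2 rfl rfl
    rw [← h5]
    refine h.n1 j hj a haF h3 ?_
    rw [h4]
    exact mate_mem haF

/-- a strand over a special vertex does not visit `G` -/
theorem over_out (h : Dat Q F G ψ ψG Z Z₁ J Kc Pc C ω) {v : κ} (hv : v ∈ C.S)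
    (ha : a ∈ ovr Q (C.B v) (C.PA v) (C.PB v) ω) : a ∈ Z \ vS Q F ω (inn G J Pc) Z := by
  obtain ⟨h1, h2, -⟩ := C.over_F hv ha
  refine Finset.mem_sdiff.mpr ⟨h.Z₁_Z h1, fun h3 => ?_⟩
  obtain ⟨-, f, hf, hfv⟩ := mem_vS.mp h3
  have haF := h.Z_F (h.Z₁_Z h1)
  have h4 := h.vis_in hfv hf
  -- the face of `a` is in the box and in `G`
  obtain ⟨g, hg, k, hk⟩ := self_vis (ω := ω) haF
  have hgG : g ∈ G := by exact_mod_cast h4 hg
  have hgB : g ∈ C.B v := by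
    have h5 := (mem_ovr.mp ha).2.1
    obtain ⟨g', hg', k', hk'⟩ := bS_sd h5
    rw [hk] at hk'
    rw [(sd_inj hk').1]
    exact hg'
  exact Finset.disjoint_left.mp (h.hB v hv) hgB hgG

/-- **The arcs which do not visit the inner part of `G`.** -/
theorem aP_out (h : Dat Q F G ψ ψG Z Z₁ J Kc Pc C ω) :
    aP Q F ω ψ (Z \ vS Q F ω (inn G J Pc) Z) = ∏ v ∈ C.S, C.t v ^ C.Nb v ω := by
  classical
  have h3 : (0 : ℝ) < Real.sqrt 3 := Real.sqrt_pos.mpr (by norm_num)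
  set S := Z \ vS Q F ω (inn G J Pc) Z with hS
  have hSF : S ⊆ bS Q F := Finset.sdiff_subset.trans h.Z_F
  have hD : ∀ v ∈ C.S, ovr Q (C.B v) (C.PA v) (C.PB v) ω ⊆
      ovr Q (C.B v) (C.PA v) (C.PB v) ω := fun v _ => Finset.Subset.refl _
  have hUa : U C ω ⊆ S.image fun a => s(a, mate Q F ω a) := by
    intro p hp
    unfold U at hp
    obtain ⟨v, hv, hp⟩ := Finset.mem_biUnion.mp hp
    obtain ⟨a, ha, rfl⟩ := Finset.mem_image.mp hp
    exact Finset.mem_image_of_mem _ (h.over_out hv ha)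
  have hprodU : ∏ p ∈ U C ω, wA Q F ω ψ p = Real.sqrt 3 ^ (U C ω).card *
      ∏ v ∈ C.S, C.t v ^ C.Nb v ω := C.prod_A hD
  have e1 : ∏ p ∈ U C ω, wA Q F ω ψ p / Real.sqrt 3 = ∏ v ∈ C.S, C.t v ^ C.Nb v ω := by
    rw [Finset.prod_div_distrib, Finset.prod_const, hprodU, mul_div_cancel_left₀ _ (pow_pos h3 _).ne']
  unfold aP
  rw [← Finset.prod_sdiff hUa, e1]
  by_cases h0 : ∃ v ∈ C.S, C.t v = 0 ∧ C.Nb v ω ≠ 0
  · obtain ⟨v, hv, h1, h2⟩ := h0
    have h4 : ∏ v ∈ C.S, C.t v ^ C.Nb v ω = 0 :=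
      Finset.prod_eq_zero hv (by rw [h1, zero_pow h2])
    rw [h4, mul_zero]
  · rw [Finset.prod_eq_one, one_mul]
    intro p hp
    rw [Finset.mem_sdiff] at hp
    obtain ⟨hp1, hp2⟩ := hp
    obtain ⟨a, ha, rfl⟩ := Finset.mem_image.mp hp1
    rw [wA_eq ψ (hSF ha), h.wt_out h0 ha hp2, div_self h3.ne']

end Dat

/-- **The weight of the surface on the event that no cell is crossed.** -/
theorem low_det {C : Cells Q F ψ Z₁ ι κ} (h : Dat Q F G ψ ψG Z Z₁ J Kc Pc C ω) :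
    (∀ a ∈ Z, mate Q F ω a ∈ Z) ∧
      WZ Q F ψ Z ω = WZ Q G ψG (bS Q G) ω * ∏ v ∈ C.S, C.t v ^ C.Nb v ω := by
  refine ⟨h.mates, ?_⟩
  have e1 : WZ Q F ψ Z ω = aP Q F ω ψ Z := by
    unfold WZ
    rw [if_pos h.mates]
    rfl
  have e2 : WZ Q G ψG (bS Q G) ω = aP Q G ω ψG (bS Q G) := by
    unfold WZ
    rw [if_pos fun a ha => mate_mem ha]
    rfl
  have e3 : Z = vS Q F ω (inn G J Pc) Z ∪ (Z \ vS Q F ω (inn G J Pc) Z) := by
    rw [Finset.union_sdiff_of_subset]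
    intro a ha
    exact (mem_vS.mp ha).1
  rw [e1, e2, ← h.aP_in, ← h.aP_out, ← aP_union (mc_vS h.mc) Finset.disjoint_sdiff, ← e3]

end prod

end

end Pool.Agent.SixB.LwD
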