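import Pool.Agent.Lib.SixB.S3LowDet
import Pool.Agent.Lib.SixB.S3EmbD
import Pool.Agent.Lib.SixB.S3TurnM
import Pool.Agent.Lib.SixB.S3WZMap

/-!
# 6BD step 3, row R20, concrete part: the environment of a slab

`S : Slb`, `E = S.env W 0 0`, `S.GD h hW`: the image of the polygon `S.D` in `E`.
* `nox_of_Xc`: a cell which is not crossed separates its core from the outside.
* `Gm.sides`: the sides of the polygon in the environment.
-/

set_option autoImplicit false
set_option linter.unusedSectionVars false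

namespace Pool.Agent.SixB

open Pool.Agent.Perc.Q Pool.Agent.Perc Relation

noncomputable section

namespace LwD

open Emb

variable {V Φ : Type} [DecidableEq V] [DecidableEq Φ]
variable {Q : QC V Φ} {F K P : Finset Φ} {ω : Φ → Bool}

/-- **A cell which is not crossed separates its core from the outside.** -/
theorem nox_of_Xc (hKP : K ⊆ P) (hsep : ∀ b ∈ bS Q P, b ∈ dE Q K → b ∈ bS Q F)
    (hX : Cell.Xc Q F K P ω = 0) : Conf.NoX Q ω ((P : Set Φ) \ K) K ((F : Set Φ) \ P) := by
  rintro c ⟨f, hf, k, hk⟩ b hb ⟨g, hg, l, hl⟩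
  have hfK : f ∈ K := by exact_mod_cast hf
  have hgF : g ∈ F := by exact_mod_cast hg.1
  have hgP : g ∉ P := fun h => hg.2 (by exact_mod_cast h)
  have hc : c = (sd Q f k).swap := by rw [← hk, Prod.swap_swap]
  rcases ReflTransGen.cases_head (show ReflTransGen (Nx Q ω ((P : Set Φ) \ K)) c b from hb) with
    h1 | ⟨x, h1, h2⟩
  · -- a common side of the core and the outside
    have h3 : c.swap ∈ bS Q P := by
      refine mem_bS.mpr ⟨mem_dE.mpr ⟨f, hKP hfK, k, Or.inl hk⟩, fun g' hg' k' he => ?_⟩
      have h4 : c = sd Q g' k' := by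
        have := congrArg Prod.swap he
        rw [Prod.swap_swap] at this
        exact this
      rw [h1, hl] at h4
      exact hgP (by rw [(sd_inj h4).1]; exact_mod_cast hg')
    have h4 := hsep _ h3 (mem_dE.mpr ⟨f, hfK, k, Or.inl hk⟩)
    refine (mem_bS.mp h4).2 g (by exact_mod_cast hgF) l ?_
    rw [h1, hl]
    rfl
  · -- the strand of `P \ K`
    have hcast : ((P \ K : Finset Φ) : Set Φ) = (P : Set Φ) \ (K : Set Φ) := Finset.coe_sdiff P K
    have hcE : c ∈ dE Q (P \ K) := by
      refine Nx.left_mem (ω := ω) (b := x) ?_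
      rw [hcast]
      exact h1
    have hcI : Ini Q ((P \ K : Finset Φ) : Set Φ) c := by
      intro g' hg' k' he
      have h4 : sd Q f k = sd Q g' k' := by
        have h5 : c = (sd Q g' k').swap := he
        rw [hc] at h5
        have := congrArg Prod.swap h5
        rwa [Prod.swap_swap, Prod.swap_swap] at this
      rw [hcast] at hg'
      exact hg'.2 (by rw [← (sd_inj h4).1]; exact hf)
    have hcb : c ∈ bS Q (P \ K) := mem_bS.mpr ⟨hcE, hcI⟩
    have hbT : Ter Q ((P \ K : Finset Φ) : Set Φ) b := by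
      intro g' hg' k' he
      have h4 : b = sd Q g' k' := he
      rw [hl] at h4
      rw [hcast] at hg'
      exact hgP (by rw [(sd_inj h4).1]; exact_mod_cast hg'.1)
    have hb' : ReflTransGen (Nx Q ω ((P \ K : Finset Φ) : Set Φ)) c b := by
      rw [hcast]
      exact hb
    obtain ⟨n, t, hw⟩ : ∃ n t, Walk Q ω ((P \ K : Finset Φ) : Set Φ) Set.univ n c b t := by
      rcases rtg_walk hb' with h5 | h5
      · exfalso
        refine not_ini_ter hcE hcI ?_
        rw [← h5]
        exact hbT
      · exact h5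
    have hm := (hw.mate_turn hcI hbT).1
    have hbm : b.swap ∈ bS Q (P \ K) := by
      rw [← hm]
      exact mate_mem hcb
    have hbP : b.swap ∈ bS Q P := by
      refine mem_bS.mpr ⟨mate_loc'.dE_mono Finset.sdiff_subset (mem_bS.mp hbm).1, fun g' hg' k' he => ?_⟩
      have h4 : b = sd Q g' k' := by
        have := congrArg Prod.swap he
        rw [Prod.swap_swap] at this
        exact this
      rw [hl] at h4
      exact hgP (by rw [(sd_inj h4).1]; exact_mod_cast hg')
    have hbF : b.swap ∉ bS Q F := by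
      intro h4
      refine (mem_bS.mp h4).2 g (by exact_mod_cast hgF) l ?_
      rw [hl]
      rfl
    have hmb : mate Q (P \ K) ω b.swap = c := by
      rw [← hm]
      exact mate_mate hcb
    have hcP : mate Q (P \ K) ω b.swap ∉ bS Q P := by
      rw [hmb]
      intro h4
      refine (mem_bS.mp h4).2 f (by exact_mod_cast hKP hfK) k ?_
      rw [hc]
      rfl
    have hmem := Cell.mem_Xs.mpr ⟨hbm, hbP, hbF, hcP⟩
    unfold Cell.Xc at hX
    rw [Finset.card_eq_zero.mp hX] at hmem
    exact Finset.notMem_empty _ hmem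

/-! ## The polygon in the environment -/

section geo

variable {S : Slb} {W : Finset (ℤ × ℤ)} {f : ℤ × ℤ} {k : ZMod 4}

/-- the window contains the slab and its left and right neighbours -/
structure Win (S : Slb) (W : Finset (ℤ × ℤ)) : Prop where
  slab : SixB.slab S.x1 S.x2 (S.yc - S.a) (S.yc + S.a) ⊆ W
  right : ∀ y, S.yc - S.a ≤ y → y < S.yc + S.a → (S.x2, y) ∈ W
  left : ∀ y, S.yc - S.a ≤ y → y < S.yc + S.a → (S.x1 - 1, y) ∈ W

/-- the chart of the polygon in the environment -/
def emb (h : S.Ok) (hw : Win S W) : PChart (S.env W 0 0).Q (S.env W 0 0).F S.D :=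
  (h.eData hw.slab).emb

/-- the polygon in the environment -/
def GD (h : S.Ok) (hw : Win S W) : Finset (Option Bool × (ℤ × ℤ)) := S.D.image (emb h hw).φF

theorem GD_sub (h : S.Ok) (hw : Win S W) : GD h hw ⊆ (S.env W 0 0).F := by
  intro x hx
  obtain ⟨f, hf, rfl⟩ := Finset.mem_image.mp hx
  exact (emb h hw).sub f hf

theorem emb_inj (h : S.Ok) (hw : Win S W) {f g : ℤ × ℤ} (hfg : (emb h hw).φF f = (emb h hw).φF g) :
    f = g := congrArg Prod.snd hfg

theorem emb_mem (h : S.Ok) (hw : Win S W) (hf : f ∈ S.D) : (emb h hw).φF f ∈ GD h hw :=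
  Finset.mem_image_of_mem _ hf

/-- the vertex of the mouth on the right (`true`) and on the left -/
def dv (S : Slb) (s : Bool) : ℤ × ℤ := (if s then S.x2 else S.x1, S.yc)

/-- the slab face at the mouth -/
def nf (S : Slb) (s : Bool) (y : ℤ) : ℤ × ℤ := (if s then S.x2 - 1 else S.x1, y)

/-- the face of the tube at the mouth -/
def nb (S : Slb) (s : Bool) (y : ℤ) : ℤ × ℤ := (if s then S.x2 else S.x1 - 1, y)

/-- the label of the common side -/
def nk (s : Bool) : ZMod 4 := if s then 1 else 3

theorem nb_base (hw : Win S W) {s : Bool} {y : ℤ} (h1 : S.yc - S.a ≤ y) (h2 : y < S.yc + S.a) :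
    nb S s y ∈ (S.env W 0 0).base := by
  have h3 : nb S s y ∈ W := by
    cases s
    · exact hw.left y h1 h2
    · exact hw.right y h1 h2
  unfold SEnv.base
  refine Finset.mem_filter.mpr ⟨h3, ?_, ?_⟩
  · rintro ⟨h4, -⟩
    have h5 : (S.a : ℤ) ≤ y - S.yc := h4
    omega
  · rintro ⟨h4, -⟩
    have h5 : (S.a : ℤ) ≤ S.yc - 1 - y := h4
    omega

theorem nb_F (hw : Win S W) {s : Bool} {y : ℤ} (h1 : S.yc - S.a ≤ y) (h2 : y < S.yc + S.a) :
    (none, nb S s y) ∈ (S.env W 0 0).F := by
  unfold SEnv.F
  exact Finset.mem_union_left _ (Finset.mem_union_left _ (Finset.mem_image_of_mem _ (nb_base hw h1 h2)))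

theorem nb_notD (h : S.Ok) {s : Bool} {y : ℤ} (h1 : S.yc - S.a ≤ y) (h2 : y < S.yc + S.a) :
    nb S s y ∉ S.D := by
  have h3 := h.hak
  have h0 := h.ha
  cases s
  · exact fun h4 => h.slab.left y (by omega) (by omega) (by exact_mod_cast h4)
  · exact fun h4 => h.slab.right y (by omega) (by omega) (by exact_mod_cast h4)

theorem nb_notG (h : S.Ok) (hw : Win S W) {s : Bool} {y : ℤ} (h1 : S.yc - S.a ≤ y)
    (h2 : y < S.yc + S.a) : ((none, nb S s y) : Option Bool × (ℤ × ℤ)) ∉ GD h hw := by
  intro h3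
  obtain ⟨g, hg, h4⟩ := Finset.mem_image.mp h3
  have h5 : g = nb S s y := congrArg Prod.snd h4
  exact nb_notD h h1 h2 (h5 ▸ hg)

/-- **The sides of the polygon in the environment.** -/
theorem side_cases (h : S.Ok) (hw : Win S W) (hf : f ∈ S.D) (k : ZMod 4) :
    (sd (S.env W 0 0).Q ((emb h hw).φF f) k ∈ bS (S.env W 0 0).Q (S.env W 0 0).F ∧
      sd (S.env W 0 0).Q ((emb h hw).φF f) k ∈ (S.env W 0 0).Z ∧
      S.ph W 0 0 (sd (S.env W 0 0).Q ((emb h hw).φF f) k) = S.ψ (sd ZQ f k)) ∨
    (∃ g ∈ S.D, ∃ l, (sd (S.env W 0 0).Q ((emb h hw).φF f) k).swap =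
      sd (S.env W 0 0).Q ((emb h hw).φF g) l) ∨
    ∃ s y, S.yc - S.a ≤ y ∧ y < S.yc + S.a ∧ f = nf S s y ∧ k = nk s ∧
      (sd (S.env W 0 0).Q ((emb h hw).φF f) k).swap = sd (S.env W 0 0).Q (none, nb S s y) (k + 2) := by
  have hE := h.eData hw.slab
  have hside : ∀ {g : ℤ × ℤ}, g ∈ S.D → ∀ l, (emb h hw).side (sd ZQ g l) =
      sd (S.env W 0 0).Q ((emb h hw).φF g) l := fun hg l => (emb h hw).side_sd hg l
  by_cases hb : Ini ZQ (S.D : Set (ℤ × ℤ)) (sd ZQ f k)
  · by_cases hs : f ∈ SixB.slab S.x1 S.x2 (S.yc - S.a) (S.yc + S.a)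
    · -- a vertical side of the slab
      refine Or.inr (Or.inr ?_)
      have hs' := mem_RF.mp hs
      have h3 := h.hak
      have h0 := h.ha
      have hsub : ∀ g : ℤ × ℤ, S.x1 ≤ g.1 → g.1 < S.x2 → S.yc - S.k ≤ g.2 → g.2 < S.yc + S.k →
          g ∈ S.D := fun g a1 a2 a3 a4 => by exact_mod_cast h.slab.sub g.1 g.2 a1 a2 a3 a4
      have key : ∀ g ∈ S.D, ∀ l, sd ZQ f k ≠ (sd ZQ g l).swap := fun g hg l he =>
        hb g (by exact_mod_cast hg) l he
      have hnb : ∀ s : Bool, f = nf S s f.2 → k = nk s →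
          (sd (S.env W 0 0).Q ((emb h hw).φF f) k).swap =
            sd (S.env W 0 0).Q (none, nb S s f.2) (k + 2) := by
        intro s e1 e2
        have hcf := (emb h hw).cor f hf
        have e3 : ∀ l, (S.env W 0 0).Q.c (none, nb S s f.2) l = (none, ZQ.c (nb S s f.2) l) :=
          base_sig _ hE.guc hE.gdc (nb_base hw hs'.2.2.1 hs'.2.2.2)
        have e4 : ∀ l, (S.env W 0 0).Q.c ((emb h hw).φF f) l = (none, ZQ.c f l) := by
          intro l
          have e5 : (emb h hw).φF f = (none, f) := by
            rcases mem_cases hE hf with ⟨-, -, h6⟩ | ⟨-, -, h6⟩ | ⟨-, h6, h7⟩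
            · exact absurd hs h6
            · exact absurd hs h6
            · refine Prod.ext ?_ rfl
              show Emb.shF _ f = none
              unfold Emb.shF
              rw [if_neg h6, if_neg h7]
          rw [e5]
          exact base_sig _ hE.guc hE.gdc (slab_base hE hs) l
        unfold sd
        rw [e4, e4, e3, e3, e2]
        have e5 : nk s + 2 + 1 = nk s + 3 := by ring
        rw [e5]
        obtain ⟨x, y⟩ := f
        cases s
        · have e6 : x = S.x1 := congrArg Prod.fst e1
          subst e6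
          unfold nk nb
          simp only [Bool.false_eq_true, if_false]
          refine Prod.ext (Prod.ext rfl ?_) (Prod.ext rfl ?_)
          · show ZQ.c (S.x1, y) (3 + 1) = ZQ.c (S.x1 - 1, y) (3 + 2)
            show (S.x1, y) = (S.x1 - 1 + 1, y)
            rw [sub_add_cancel]
          · show ZQ.c (S.x1, y) 3 = ZQ.c (S.x1 - 1, y) (3 + 3)
            show (S.x1, y + 1) = (S.x1 - 1 + 1, y + 1)
            rw [sub_add_cancel]
        · have e6 : x = S.x2 - 1 := congrArg Prod.fst e1
          subst e6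
          unfold nk nb
          simp only [if_true]
          refine Prod.ext (Prod.ext rfl ?_) (Prod.ext rfl ?_)
          · show (S.x2 - 1 + 1, y + 1) = (S.x2, y + 1)
            rw [sub_add_cancel]
          · show (S.x2 - 1 + 1, y) = (S.x2, y)
            rw [sub_add_cancel]
      obtain ⟨x, y⟩ := f
      simp only at hs'
      rcases k4_cases k with rfl | rfl | rfl | rfl
      · exfalso
        refine key (x, y - 1) (hsub _ hs'.1 hs'.2.1 (by simp only; omega) (by simp only; omega)) 2 ?_
        show ((x, y), (x + 1, y)) = ((x, y - 1 + 1), (x + 1, y - 1 + 1))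
        rw [sub_add_cancel]
      · refine ⟨true, y, hs'.2.2.1, hs'.2.2.2, ?_, rfl, hnb true ?_ rfl⟩
        all_goals
          have hx : x = S.x2 - 1 := by
            by_contra hne
            refine key (x + 1, y) (hsub _ (by simp only; omega) (by simp only; omega)
              (by simp only; omega) (by simp only; omega)) 3 ?_
            rfl
          rw [hx]
          rfl
      · exfalso
        refine key (x, y + 1) (hsub _ hs'.1 hs'.2.1 (by simp only; omega) (by simp only; omega)) 0 ?_
        rfl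
      · refine ⟨false, y, hs'.2.2.1, hs'.2.2.2, ?_, rfl, hnb false ?_ rfl⟩
        all_goals
          have hx : x = S.x1 := by
            by_contra hne
            refine key (x - 1, y) (hsub _ (by simp only; omega) (by simp only; omega)
              (by simp only; omega) (by simp only; omega)) 1 ?_
            show ((x, y + 1), (x, y)) = ((x - 1 + 1, y + 1), (x - 1 + 1, y))
            rw [sub_add_cancel]
          rw [hx]
          rfl
    · refine Or.inl ?_
      rw [← hside hf]
      refine ⟨hE.emb_bS hf hs hb, hE.emb_Z hf hs hb, ?_⟩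
      rw [Slb.ph_zero]
      exact hE.emb_psi hf hs hb _ _ _ _ _
  · refine Or.inr (Or.inl ?_)
    unfold Ini at hb
    push Not at hb
    obtain ⟨g, hg, l, h1⟩ := hb
    have hg' : g ∈ S.D := by exact_mod_cast hg
    refine ⟨g, hg', l, ?_⟩
    rw [← hside hf, ← hside hg']
    have h2 : (sd ZQ f k).swap = sd ZQ g l := by
      rw [h1]
      rfl
    rw [← h2]
    rfl

end geo

end LwD

end

end Pool.Agent.SixB
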