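import Pool.Agent.Lib.SixB.S3LowDetE
import Pool.Agent.Lib.SixB.S3LowCell
import Pool.Agent.Lib.SixB.S3MthDP

/-!
# 6BD step 3, row R20, concrete part (2): the lower bound for a slab, deterministic half

`S : Slb`, `E = S.env W 0 0`, `GD`: the polygon in `E`, `Pd S R L s`, `Kd S ρ L₀ s`: the cells of the two mouths of
the polygon, their radii are free (`Rad`).
* `split`: a mouth cell is not crossed if it is not crossed with other colours in the polygon and the ring of its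
  part in the polygon is not crossed.
* `low_slab`: the weight of `E` is the weight of the polygon times the weights of the special charts.
-/

set_option autoImplicit false
set_option linter.unusedSectionVars false

namespace Pool.Agent.SixB.LwD

open Pool.Agent.Perc.Q Pool.Agent.Perc Relation
open Pool.Agent.SixB Pool.Agent.SixB.Emb Pool.Agent.SixB.Rel

noncomputable section

section mouths

variable {S : Slb} {W : Finset (ℤ × ℤ)} {r ρ R L₀ L n : ℕ} {f g : ℤ × ℤ} {s : Bool} {k : ZMod 4}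
  {x : Option Bool × (ℤ × ℤ)} {ω ω' : Option Bool × (ℤ × ℤ) → Bool}

theorem ofWin (h : S.Ok) (hW : MthD.Win S W) : Win S W := by
  have h1 := h.ha
  have h2 := h.hak
  have h3 := h.hx
  exact ⟨hW.slab, fun y a1 a2 => hW (S.x2, y) (by simp only; omega) (by simp only; omega) a1 a2,
    fun y a1 a2 => hW (S.x1 - 1, y) (by simp only; omega) (by simp only; omega) a1 a2⟩

/-- the orientation of the polygon at the mouth -/
def oS (s : Bool) : ZMod 4 := if s then 1 else 3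

/-- the box of the polygon at the mouth -/
def Wb (S : Slb) (s : Bool) (ρ : ℕ) : Finset (ℤ × ℤ) := Wdg 2 (oS s) (dv S s) ρ

theorem mem_Wb_t : f ∈ Wb S true ρ ↔
    (S.x2 - ρ ≤ f.1 ∧ f.1 < S.x2 + ρ ∧ S.yc - ρ ≤ f.2 ∧ f.2 < S.yc + ρ) ∧ f.1 < S.x2 := mem_w21

theorem mem_Wb_f : f ∈ Wb S false ρ ↔
    (S.x1 - ρ ≤ f.1 ∧ f.1 < S.x1 + ρ ∧ S.yc - ρ ≤ f.2 ∧ f.2 < S.yc + ρ) ∧ S.x1 ≤ f.1 := mem_w23

/-- radii of the cells of the mouths of the polygon -/
structure Rad (S : Slb) (ρ R L₀ L : ℕ) : Prop where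
  a1 : S.a + 1 ≤ ρ
  a2 : ρ < R
  a3 : 2 * (R + 1) ≤ S.k
  l1 : L₀ < L
  l2 : L + 1 ≤ S.k

/-- the mouth of the polygon -/
def mth (S : Slb) (s : Bool) (ρ L : ℕ) : Finset (ℤ × ℤ) := Mth s (dv S s) ρ S.a L

theorem mem_mth_t : f ∈ mth S true ρ L ↔
    ((S.x2 - ρ ≤ f.1 ∧ f.1 < S.x2 + ρ ∧ S.yc - ρ ≤ f.2 ∧ f.2 < S.yc + ρ) ∧ f.1 < S.x2) ∨
      (S.x2 ≤ f.1 ∧ f.1 < S.x2 + L ∧ S.yc - S.a ≤ f.2 ∧ f.2 < S.yc + S.a) := mem_Mth_left

theorem mem_mth_f : f ∈ mth S false ρ L ↔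
    ((S.x1 - ρ ≤ f.1 ∧ f.1 < S.x1 + ρ ∧ S.yc - ρ ≤ f.2 ∧ f.2 < S.yc + ρ) ∧ S.x1 ≤ f.1) ∨
      (S.x1 - L ≤ f.1 ∧ f.1 < S.x1 ∧ S.yc - S.a ≤ f.2 ∧ f.2 < S.yc + S.a) := mem_Mth_right

/-- the core of the mouth -/
def Kd (S : Slb) (ρ L₀ : ℕ) (s : Bool) : Finset (Option Bool × (ℤ × ℤ)) :=
  (mth S s ρ L₀).image fun f => (MthD.sh S f, f)

/-- the cell of the mouth -/
def Pd (S : Slb) (R L : ℕ) (s : Bool) : Finset (Option Bool × (ℤ × ℤ)) :=
  (mth S s R L).image fun f => (MthD.sh S f, f)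

theorem mem_Kd : x ∈ Kd S ρ L₀ s ↔
    x.2 ∈ mth S s ρ L₀ ∧ x.1 = MthD.sh S x.2 := by
  unfold Kd
  rw [Finset.mem_image]
  constructor
  · rintro ⟨f, hf, rfl⟩
    exact ⟨hf, rfl⟩
  · rintro ⟨h1, h2⟩
    exact ⟨x.2, h1, Prod.ext h2.symm rfl⟩

theorem mem_Pd : x ∈ Pd S R L s ↔ x.2 ∈ mth S s R L ∧ x.1 = MthD.sh S x.2 := by
  unfold Pd
  rw [Finset.mem_image]
  constructor
  · rintro ⟨f, hf, rfl⟩
    exact ⟨hf, rfl⟩
  · rintro ⟨h1, h2⟩
    exact ⟨x.2, h1, Prod.ext h2.symm rfl⟩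

/-- the chart of the mouth -/
def mD (h : S.Ok) (hW : MthD.Win S W) (q : Rad S ρ R L₀ L) :
    ∀ s, MChart (S.env W 0 0).Q (S.env W 0 0).F s (dv S s) (R + 1) S.a (L + 1)
  | true => MthD.mR h hW (by have := q.a3; omega) q.l2
  | false => MthD.mL h hW (by have := q.a3; omega) q.l2

theorem mD_face (h : S.Ok) (hW : MthD.Win S W) (q : Rad S ρ R L₀ L)
    (s : Bool) (f : ℤ × ℤ) : (mD h hW q s).φF f = (MthD.sh S f, f) := by
  cases s <;> rfl

theorem mD_side (h : S.Ok) (hW : MthD.Win S W) (q : Rad S ρ R L₀ L)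
    (s : Bool) (a : (ℤ × ℤ) × (ℤ × ℤ)) : (mD h hW q s).side a = MthD.sd2 S a := by
  cases s <;> rfl

theorem mD_nat (h : S.Ok) (hW : MthD.Win S W) (q : Rad S ρ R L₀ L)
    (s : Bool) : (mD h hW q s).Nat (S.ph W 0 0) 0 := by
  have := q.a3
  cases s
  · exact MthD.mL_nat h hW (R := R + 1) (l := L + 1) (by omega) q.l2
  · exact MthD.mR_nat h hW (R := R + 1) (l := L + 1) (by omega) q.l2

theorem mD_Z (h : S.Ok) (hW : MthD.Win S W) (q : Rad S ρ R L₀ L)
    (s : Bool) (j : Fin 4) : (mthWall s (dv S s) R S.a L j).image (mD h hW q s).side ⊆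
      (S.env W 0 0).Z := by
  have := q.a3
  have := q.l2
  cases s
  · exact MthD.mL_Z h hW (by omega) (by omega) j
  · exact MthD.mR_Z h hW (by omega) (by omega) j

/-- the cell of a mouth with free radii -/
def ofMf {V Φ : Type} [DecidableEq V] [DecidableEq Φ] {Q : QC V Φ} {F : Finset Φ} {ψ : V × V → ℝ}
    {Z : Finset (V × V)} {lf : Bool} {v : ℤ × ℤ} {a ρ R R' L₀ L L' : ℕ} (c : MChart Q F lf v R' a L')
    (ha : 0 < a) (h0 : a ≤ ρ) (h1 : ρ < R) (h2 : R < R') (h3 : L₀ < L) (h4 : L < L')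
    (hJ : c.Nat ψ 0 ∨ c.Nat ψ (Real.pi / 3))
    (hZ : ∀ j, (mthWall lf v R a L j).image c.side ⊆ Z) : NCell Q F ψ Z where
  G₀ := (Mth lf v ρ a L₀).image c.φF
  G := (Mth lf v R a L).image c.φF
  sub := Finset.image_subset_image (WG.Mth_mono h1.le h3.le)
  subF := c.toPChart.image_sub (WG.Mth_mono h2.le h4.le)
  sep := CM.mouth_sep c ha h0 h1 h3 h2.le h4.le
  nat := fun ω x hxF hxG hb => (S3T.mth_nat' (ρ := R) (l := L) c ha (h0.trans h1.le) h2
    (lt_of_le_of_lt (Nat.zero_le _) h3) h4 hJ hxG hxF hb).2.2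
  z := fun b hb hF => by
    obtain ⟨j, hj⟩ := S3T.mem_mW c ha (h0.trans h1.le) h2 (lt_of_le_of_lt (Nat.zero_le _) h3) h4 hb hF
    exact hZ j hj

/-- the cell of the mouth -/
def cD (h : S.Ok) (hW : MthD.Win S W) (q : Rad S ρ R L₀ L) (s : Bool) :
    NCell (S.env W 0 0).Q (S.env W 0 0).F (S.ph W 0 0) (S.env W 0 0).Z :=
  ofMf (mD h hW q s) h.ha (by have := q.a1; omega) q.a2 (Nat.lt_succ_self R) q.l1 (Nat.lt_succ_self L)
    (Or.inl (mD_nat h hW q s)) (mD_Z h hW q s)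

theorem cD_G (h : S.Ok) (hW : MthD.Win S W) (q : Rad S ρ R L₀ L)
    (s : Bool) : (cD h hW q s).G = Pd S R L s := by
  cases s <;> rfl

theorem cD_G₀ (h : S.Ok) (hW : MthD.Win S W) (q : Rad S ρ R L₀ L)
    (s : Bool) : (cD h hW q s).G₀ = Kd S ρ L₀ s := by
  cases s <;> rfl

theorem Kd_sub (q : Rad S ρ R L₀ L) :
    Kd S ρ L₀ s ⊆ Pd S R L s :=
  Finset.image_subset_image (WG.Mth_mono q.a2.le q.l1.le)

/-! ## Faces of the polygon in the boxes -/

theorem Wb_D (h : S.Ok) (hρ : ρ ≤ S.k) (hf : f ∈ Wb S s ρ) : f ∈ S.D ∧ S.x1 ≤ f.1 ∧ f.1 < S.x2 ∧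
    S.yc - S.k ≤ f.2 ∧ f.2 < S.yc + S.k := by
  have h3 := h.hx
  have key : S.x1 ≤ f.1 ∧ f.1 < S.x2 ∧ S.yc - S.k ≤ f.2 ∧ f.2 < S.yc + S.k := by
    cases s
    · rw [mem_Wb_f] at hf
      omega
    · rw [mem_Wb_t] at hf
      omega
  exact ⟨by exact_mod_cast h.slab.sub f.1 f.2 key.1 key.2.1 key.2.2.1 key.2.2.2, key⟩

theorem emb_Wb (h : S.Ok) (hW : MthD.Win S W) (hρ : ρ ≤ S.k) (hf : f ∈ Wb S s ρ) :
    (emb h (ofWin h hW)).φF f = (MthD.sh S f, f) := by
  obtain ⟨-, h1, h2, h3, h4⟩ := Wb_D h hρ hf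
  exact MthD.em_face h hW h1 h2 h3 h4

theorem Wb_mth (hf : f ∈ Wb S s ρ) : f ∈ mth S s ρ L := by
  cases s
  · rw [mem_Wb_f] at hf
    rw [mem_mth_f]
    exact Or.inl hf
  · rw [mem_Wb_t] at hf
    rw [mem_mth_t]
    exact Or.inl hf

theorem Wb_mono {ρ' : ℕ} (h : ρ ≤ ρ') : Wb S s ρ ⊆ Wb S s ρ' := Wdg_mono h

/-- the part of a cell in the polygon -/
theorem GD_Pd (h : S.Ok) (hW : MthD.Win S W) (hG : x ∈ GD h (ofWin h hW))
    (hP : x ∈ Pd S R L s) : ∃ f ∈ Wb S s R, x = (emb h (ofWin h hW)).φF f := by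
  obtain ⟨f, hf, rfl⟩ := Finset.mem_image.mp hG
  obtain ⟨h3, h4⟩ := mem_Pd.mp hP
  have h5 := h.ha
  have h6 := h.hak
  have h7 := h.hx
  refine ⟨f, ?_, rfl⟩
  have h8 : f ∈ mth S s R L := h3
  have h9 : Emb.shF (S.env W 0 0) f = MthD.sh S f := h4
  by_contra hcon
  -- the tube
  have htube : (S.yc - S.a ≤ f.2 ∧ f.2 < S.yc + S.a) ∧ (f.1 < S.x1 ∨ S.x2 ≤ f.1) := by
    cases s
    · rw [mem_mth_f] at h8
      rw [mem_Wb_f] at hcon
      omega
    · rw [mem_mth_t] at h8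
      rw [mem_Wb_t] at hcon
      omega
  have h10 : MthD.sh S f = none := by
    unfold MthD.sh
    rw [if_neg (by omega), if_neg (by omega)]
  rw [h10] at h9
  have hE := h.eData (ofWin h hW).slab
  rcases mem_cases hE hf with h11 | h11 | h11
  · unfold Emb.shF at h9
    rw [if_pos h11.1] at h9
    exact absurd h9 (by simp)
  · unfold Emb.shF at h9
    rw [if_neg h11.2.1, if_pos h11.1] at h9
    exact absurd h9 (by simp)
  · have := mem_RF.mp h11.1
    omega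

theorem emb_Pd (h : S.Ok) (hW : MthD.Win S W) (h2 : R ≤ S.k) (hf : f ∈ Wb S s R) :
    (emb h (ofWin h hW)).φF f ∈ Pd S R L s := by
  rw [emb_Wb h hW (by omega) hf]
  exact mem_Pd.mpr ⟨Wb_mth hf, rfl⟩

theorem emb_Kd (h : S.Ok) (hW : MthD.Win S W) (q : Rad S ρ R L₀ L)
    (hf : f ∈ Wb S s ρ) : (emb h (ofWin h hW)).φF f ∈ Kd S ρ L₀ s := by
  rw [emb_Wb h hW (by have := q.a2; have := q.a3; omega) hf]
  exact mem_Kd.mpr ⟨Wb_mth hf, rfl⟩

/-- the slab faces at the mouth are in the core -/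
theorem nf_Wb (hρ : S.a + 1 ≤ ρ) {y : ℤ} (h1 : S.yc - S.a ≤ y) (h2 : y < S.yc + S.a) :
    nf S s y ∈ Wb S s ρ := by
  cases s
  · rw [mem_Wb_f]
    show (S.x1 - _ ≤ S.x1 ∧ S.x1 < _ ∧ _ ≤ y ∧ y < _) ∧ S.x1 ≤ S.x1
    omega
  · rw [mem_Wb_t]
    show (S.x2 - _ ≤ S.x2 - 1 ∧ S.x2 - 1 < _ ∧ _ ≤ y ∧ y < _) ∧ S.x2 - 1 < S.x2
    omega

/-- the slab faces at one mouth are not near the other one -/
theorem nf_eq (h : S.Ok) (h2 : 2 * (R + 1) ≤ S.k) {s' : Bool} {y : ℤ} (hf : nf S s' y ∈ Wb S s R) :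
    s' = s := by
  have h3 := h.hx
  have h4 := h.ha
  have h5 := h.hak
  cases s <;> cases s'
  · rfl
  · rw [mem_Wb_f] at hf
    have h6 : S.x2 - 1 < S.x1 + (R : ℤ) := hf.1.2.1
    omega
  · rw [mem_Wb_t] at hf
    have h6 : S.x2 - (R : ℤ) ≤ S.x1 := hf.1.1
    omega
  · rfl

/-- neighbours in the ring -/
theorem ring_const (h : S.Ok) (hW : MthD.Win S W) (q : Rad S ρ R L₀ L)
    {y z : Option Bool × (ℤ × ℤ)} (hy : y ∈ Pd S R L s \ Kd S ρ L₀ s) (hz : z ∈ (S.env W 0 0).F)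
    {k l : ZMod 4} (hyz : (sd (S.env W 0 0).Q y k).swap = sd (S.env W 0 0).Q z l)
    (hG : y ∈ GD h (ofWin h hW)) : z ∈ GD h (ofWin h hW) := by
  obtain ⟨hyP, hyK⟩ := Finset.mem_sdiff.mp hy
  obtain ⟨f, hf, rfl⟩ := GD_Pd h hW hG hyP
  have hfD := (Wb_D h (show R ≤ S.k by have := q.a3; omega) hf).1
  rcases side_cases h (ofWin h hW) hfD k with ⟨h3, -⟩ | ⟨g, hg, m, h3⟩ | ⟨s', y', h3, h4, h5, -⟩
  · exfalso
    refine (mem_bS.mp h3).2 z (by exact_mod_cast hz) l ?_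
    have := congrArg Prod.swap hyz
    rwa [Prod.swap_swap] at this
  · rw [h3] at hyz
    rw [← (sd_inj hyz).1]
    exact emb_mem h _ hg
  · exfalso
    have h6 : s' = s := nf_eq h q.a3 (h5 ▸ hf)
    subst h6
    refine hyK (emb_Kd h hW q ?_)
    rw [h5]
    exact nf_Wb q.a1 h3 h4

/-- the strands of the ring stay in the polygon or off the polygon -/
theorem ring_vis (h : S.Ok) (hW : MthD.Win S W) (q : Rad S ρ R L₀ L)
    (hPF : Pd S R L s ⊆ (S.env W 0 0).F)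
    {b : (Option Bool × (ℤ × ℤ)) × (Option Bool × (ℤ × ℤ))} :
    ∀ y ∈ Vis (S.env W 0 0).Q ω ((Pd S R L s \ Kd S ρ L₀ s : Finset _) : Set _) b,
      ∀ z ∈ Vis (S.env W 0 0).Q ω ((Pd S R L s \ Kd S ρ L₀ s : Finset _) : Set _) b,
        (y ∈ GD h (ofWin h hW)) = (z ∈ GD h (ofWin h hW)) := by
  refine vis_const (fun y => y ∈ GD h (ofWin h hW)) ?_
  intro y hy z hz k l hyz
  have hy' : y ∈ Pd S R L s \ Kd S ρ L₀ s := by exact_mod_cast hy.1
  have hz' : z ∈ Pd S R L s \ Kd S ρ L₀ s := by exact_mod_cast hz.1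
  have hyF := hPF (Finset.mem_sdiff.mp hy').1
  have hzF := hPF (Finset.mem_sdiff.mp hz').1
  exact propext ⟨ring_const h hW q hy' hzF hyz,
    ring_const h hW q hz' hyF (Cut.swap_eq hyz)⟩

/-- **A mouth cell is not crossed** if it is not crossed with other colours in the polygon and the ring of its part
in the polygon is not crossed. -/
theorem split (h : S.Ok) (hW : MthD.Win S W) (q : Rad S ρ R L₀ L)
    (hω : ∀ y, y ∉ GD h (ofWin h hW) → ω y = ω' y)
    (hX : Cell.Xc (S.env W 0 0).Q (S.env W 0 0).F (Kd S ρ L₀ s) (Pd S R L s) ω' = 0)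
    (hD : Cell.Xc ZQ S.D (Wb S s ρ) (Wb S s R)
      (fun f => ω ((emb h (ofWin h hW)).φF f)) = 0) :
    Cell.Xc (S.env W 0 0).Q (S.env W 0 0).F (Kd S ρ L₀ s) (Pd S R L s) ω = 0 := by
  have hPF : Pd S R L s ⊆ (S.env W 0 0).F := by
    rw [← cD_G h hW q s]
    exact (cD h hW q s).subF
  unfold Cell.Xc
  rw [Finset.card_eq_zero, Finset.eq_empty_iff_forall_notMem]
  intro b hb
  obtain ⟨hb1, hb2, hb3, hb4⟩ := Cell.mem_Xs.mp hb
  obtain ⟨y, hy, hyb⟩ := self_vis (ω := ω) hb1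
  obtain ⟨y', hy', hyb'⟩ := self_vis (ω := ω') hb1
  have hyy : y' = y := by
    obtain ⟨k, hk⟩ := hyb
    obtain ⟨k', hk'⟩ := hyb'
    rw [hk] at hk'
    exact (sd_inj hk').1.symm
  subst hyy
  by_cases hyG : y' ∈ GD h (ofWin h hW)
  · -- the strand is in the polygon
    set w := ofWin h hW with hw
    set Rg := Wb S s R \ Wb S s ρ with hRg
    have hRD : Rg ⊆ S.D := fun f hf =>
      (Wb_D h (show R ≤ S.k by have := q.a3; omega) (Finset.mem_sdiff.mp hf).1).1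
    have H : QChart ZQ (S.env W 0 0).Q Rg (emb h w).φV (emb h w).φF 0 :=
      (S3T.qchart (emb h w)).mono hRD
    have hvis : Vis (S.env W 0 0).Q ω ((Pd S R L s \ Kd S ρ L₀ s : Finset _) : Set _) b ⊆
        ((Rg.image (emb h w).φF : Finset _) : Set _) := by
      intro z hz
      have hzG : z ∈ GD h w := (ring_vis h hW q hPF y' hy z hz).mp hyG
      have hz' : z ∈ Pd S R L s \ Kd S ρ L₀ s := by exact_mod_cast hz.1
      obtain ⟨hzP, hzK⟩ := Finset.mem_sdiff.mp hz'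
      obtain ⟨f, hf, rfl⟩ := GD_Pd h hW hzG hzP
      exact_mod_cast Finset.mem_image_of_mem _
        (Finset.mem_sdiff.mpr ⟨hf, fun hf' => hzK (emb_Kd h hW q hf')⟩)
    have hsub : Rg.image (emb h w).φF ⊆ Pd S R L s \ Kd S ρ L₀ s := by
      intro z hz
      obtain ⟨f, hf, rfl⟩ := Finset.mem_image.mp hz
      obtain ⟨hf1, hf2⟩ := Finset.mem_sdiff.mp hf
      refine Finset.mem_sdiff.mpr ⟨emb_Pd h hW (show R ≤ S.k by have := q.a3; omega) hf1, fun h3 => ?_⟩
      obtain ⟨h4, -⟩ := mem_Kd.mp h3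
      have h5 : f ∈ mth S s ρ L₀ := h4
      cases s
      · rw [mem_mth_f] at h5
        rw [mem_Wb_f] at hf1 hf2
        omega
      · rw [mem_mth_t] at h5
        rw [mem_Wb_t] at hf1 hf2
        omega
    obtain ⟨c1, c2, -⟩ := Conf.conf_mate hsub hb1 hvis
    rw [WM.bS_map H, Finset.mem_image] at c1
    obtain ⟨b₀, hb₀, rfl⟩ := c1
    rw [WM.mate_map H hb₀] at c2
    have hside : ∀ {f : ℤ × ℤ}, f ∈ S.D → ∀ k, Prod.map (emb h w).φV (emb h w).φV (sd ZQ f k) =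
        sd (S.env W 0 0).Q ((emb h w).φF f) k := fun hf k => (emb h w).side_sd hf k
    have hpl : ∀ {a c : (ℤ × ℤ) × (ℤ × ℤ)}, Prod.map (emb h w).φV (emb h w).φV a =
        Prod.map (emb h w).φV (emb h w).φV c → a = c := by
      intro a c hac
      have e1 : (emb h w).φV a.1 = (emb h w).φV c.1 := congrArg Prod.fst hac
      have e2 : (emb h w).φV a.2 = (emb h w).φV c.2 := congrArg Prod.snd hac
      have e3 : ((emb h w).φV a.1).2 = ((emb h w).φV c.1).2 := by rw [e1]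
      have e4 : ((emb h w).φV a.2).2 = ((emb h w).φV c.2).2 := by rw [e2]
      exact Prod.ext e3 e4
    have hm := mate_mem (ω := fun f => ω ((emb h w).φF f)) hb₀
    have hmem : b₀ ∈ Cell.Xs ZQ S.D (Wb S s ρ) (Wb S s R)
        (fun f => ω ((emb h w).φF f)) := by
      refine Cell.mem_Xs.mpr ⟨hb₀, ?_, ?_, ?_⟩
      · refine mem_bS.mpr ⟨mate_loc'.dE_mono Finset.sdiff_subset (mem_bS.mp hb₀).1,
          fun g hg l hgl => ?_⟩
        have hgD := (Wb_D h (show R ≤ S.k by have := q.a3; omega) (show g ∈ Wb S s R from hg)).1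
        refine (mem_bS.mp hb2).2 ((emb h w).φF g) (by exact_mod_cast emb_Pd h hW (show R ≤ S.k by have := q.a3; omega) hg) l ?_
        show Prod.map (emb h w).φV (emb h w).φV b₀ = (sd (S.env W 0 0).Q ((emb h w).φF g) l).swap
        rw [← hside hgD l, show b₀ = (sd ZQ g l).swap from hgl]
        rfl
      · intro h3
        obtain ⟨f, hf, k, rfl⟩ := bS_sd hb₀
        have hfD := hRD hf
        rw [hside hfD] at hb3
        rcases side_cases h w hfD k with ⟨h4, -⟩ | ⟨g, hg, m, h4⟩ | ⟨s', y', h4, h5, h6, -⟩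
        · exact hb3 h4
        · rw [← hside hfD, ← hside hg] at h4
          have h5 : (sd ZQ f k).swap = sd ZQ g m := hpl h4
          refine (mem_bS.mp h3).2 g (by exact_mod_cast hg) m ?_
          show sd ZQ f k = (sd ZQ g m).swap
          rw [← h5]
          rfl
        · obtain ⟨hf1, hf2⟩ := Finset.mem_sdiff.mp hf
          have h7 : s' = s := nf_eq h q.a3 (h6 ▸ hf1)
          subst h7
          exact hf2 (h6 ▸ nf_Wb q.a1 h4 h5)
      · intro h3
        obtain ⟨f, hf, k, hfk⟩ := bS_sd hm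
        obtain ⟨hf1, hf2⟩ := Finset.mem_sdiff.mp hf
        have hfD := hRD hf
        refine hb4 ?_
        rw [← c2, hfk, hside hfD]
        refine mem_bS.mpr ⟨sd_mem (emb_Pd h hW (show R ≤ S.k by have := q.a3; omega) hf1) k, fun z hz l hzl => ?_⟩
        have hz' : z ∈ Pd S R L s := by exact_mod_cast hz
        obtain ⟨hz1, hz2⟩ := mem_Pd.mp hz'
        have e1 : z = (mD h hW q s).φF z.2 := by
          rw [mD_face]
          exact Prod.ext hz2 rfl
        have hz3 : z.2 ∈ Mth s (dv S s) (R + 1) S.a (L + 1) :=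
          WG.Mth_mono (by omega) (by omega) hz1
        have e2 : sd (S.env W 0 0).Q z l = MthD.sd2 S (sd ZQ z.2 l) := by
          rw [← mD_side h hW q s, (mD h hW q s).side_sd hz3 l, ← e1]
        have e3 : sd ZQ f k = (sd ZQ z.2 l).swap := by
          have e4 : Prod.map (emb h w).φV (emb h w).φV (sd ZQ f k) =
              (MthD.sd2 S (sd ZQ z.2 l)).swap := by
            rw [hside hfD, ← e2]
            exact hzl
          have e5 := congrArg (fun p => p.1.2) e4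
          have e6 := congrArg (fun p => p.2.2) e4
          exact Prod.ext e5 e6
        have e7 : z.2 ∉ Wb S s R := fun h8 => by
          rw [hfk] at h3
          exact (mem_bS.mp h3).2 z.2 (by exact_mod_cast h8) l e3
        obtain ⟨e8, -⟩ := EnvB.swap_inj_iff.mp e3
        have q1 := q.a1
        have hz4 : z.2 ∈ mth S s R L := hz1
        cases s
        · rw [mem_Wb_f] at hf1 hf2 e7
          rw [mem_mth_f] at hz4
          rcases k4_cases k with rfl | rfl | rfl | rfl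
          · rw [e8, EnvB.nb0] at hz4 e7
            simp only at hz4 e7
            push_cast at *
            omega
          · rw [e8, EnvB.nb1] at hz4 e7
            simp only at hz4 e7
            push_cast at *
            omega
          · rw [e8, EnvB.nb2] at hz4 e7
            simp only at hz4 e7
            push_cast at *
            omega
          · rw [e8, EnvB.nb3] at hz4 e7
            simp only at hz4 e7
            push_cast at *
            omega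
        · rw [mem_Wb_t] at hf1 hf2 e7
          rw [mem_mth_t] at hz4
          rcases k4_cases k with rfl | rfl | rfl | rfl
          · rw [e8, EnvB.nb0] at hz4 e7
            simp only at hz4 e7
            push_cast at *
            omega
          · rw [e8, EnvB.nb1] at hz4 e7
            simp only at hz4 e7
            push_cast at *
            omega
          · rw [e8, EnvB.nb2] at hz4 e7
            simp only at hz4 e7
            push_cast at *
            omega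
          · rw [e8, EnvB.nb3] at hz4 e7
            simp only at hz4 e7
            push_cast at *
            omega
    unfold Cell.Xc at hD
    rw [Finset.card_eq_zero.mp hD] at hmem
    exact Finset.notMem_empty _ hmem
  · -- the strand is off the polygon
    have key : ∀ η : Option Bool × (ℤ × ℤ) → Bool,
        y' ∈ Vis (S.env W 0 0).Q η ((Pd S R L s \ Kd S ρ L₀ s : Finset _) : Set _) b →
        b ∈ bS (S.env W 0 0).Q ((Pd S R L s \ Kd S ρ L₀ s) \ GD h (ofWin h hW)) ∧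
          mate (S.env W 0 0).Q ((Pd S R L s \ Kd S ρ L₀ s) \ GD h (ofWin h hW)) η b =
            mate (S.env W 0 0).Q (Pd S R L s \ Kd S ρ L₀ s) η b := by
      intro η hη
      obtain ⟨c1, c2, -⟩ := Conf.conf_mate (ω := η)
        (P := (Pd S R L s \ Kd S ρ L₀ s) \ GD h (ofWin h hW)) Finset.sdiff_subset hb1 (by
          intro z hz
          have hz' : z ∈ Pd S R L s \ Kd S ρ L₀ s := by exact_mod_cast hz.1
          refine Finset.mem_coe.mpr (Finset.mem_sdiff.mpr ⟨hz', fun hzG => hyG ?_⟩)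
          exact (ring_vis h hW q hPF z hz y' hη).mp hzG)
      exact ⟨c1, c2⟩
    have k1 := key ω hy
    have k2 := key ω' hy'
    have k3 : mate (S.env W 0 0).Q ((Pd S R L s \ Kd S ρ L₀ s) \ GD h (ofWin h hW)) ω b =
        mate (S.env W 0 0).Q ((Pd S R L s \ Kd S ρ L₀ s) \ GD h (ofWin h hW)) ω' b :=
      Cell.mate_congr (fun f hf => hω f (Finset.mem_sdiff.mp hf).2) b
    have k4 : mate (S.env W 0 0).Q (Pd S R L s \ Kd S ρ L₀ s) ω b =
        mate (S.env W 0 0).Q (Pd S R L s \ Kd S ρ L₀ s) ω' b := by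
      rw [← k1.2, k3, k2.2]
    rw [k4] at hb4
    have hmem := Cell.mem_Xs.mpr ⟨hb1, hb2, hb3, hb4⟩
    unfold Cell.Xc at hX
    rw [Finset.card_eq_zero.mp hX] at hmem
    exact Finset.notMem_empty _ hmem

/-! ## The polygon as a closed part -/

/-- **The cut at the two mouths.** -/
theorem mcut (h : S.Ok) (hW : MthD.Win S W) (q : Rad S ρ R L₀ L)
    (hx : ∀ s, Cell.Xc (S.env W 0 0).Q (S.env W 0 0).F (Kd S ρ L₀ s) (Pd S R L s) ω = 0) :
    Cut (S.env W 0 0).Q (S.env W 0 0).F (GD h (ofWin h hW)) (Finset.univ : Finset Bool) (Kd S ρ L₀)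
      (Pd S R L) ω where
  GF := GD_sub h _
  KP := fun s _ => Kd_sub q
  PF := fun s _ => by
    rw [← cD_G h hW q s]
    exact (cD h hW q s).subF
  nox := fun s _ => by
    refine nox_of_Xc (Kd_sub q) ?_ (hx s)
    rw [← cD_G h hW q s, ← cD_G₀ h hW q s]
    exact (cD h hW q s).sep
  cut := by
    intro x hx z hz hzG k l hxz
    obtain ⟨f, hf, rfl⟩ := Finset.mem_image.mp hx
    rcases side_cases h (ofWin h hW) hf k with ⟨h3, -⟩ | ⟨g, hg, m, h3⟩ | ⟨s, y, h3, h4, h5, -⟩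
    · exfalso
      refine (mem_bS.mp h3).2 z (by exact_mod_cast hz) l ?_
      have := congrArg Prod.swap hxz
      rwa [Prod.swap_swap] at this
    · rw [h3] at hxz
      exact absurd ((sd_inj hxz).1 ▸ emb_mem h _ hg) hzG
    · refine ⟨s, Finset.mem_univ _, emb_Kd h hW q ?_⟩
      rw [h5]
      exact nf_Wb q.a1 h3 h4
  sep := by
    intro s _ s' _ x hx z hz hxP hzP k l hxz
    obtain ⟨f, hf, rfl⟩ := GD_Pd h hW hx hxP
    obtain ⟨g, hg, rfl⟩ := GD_Pd h hW hz hzP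
    have hk : R ≤ S.k := by have := q.a3; omega
    rw [← (emb h (ofWin h hW)).side_sd (Wb_D h hk hf).1 k,
      ← (emb h (ofWin h hW)).side_sd (Wb_D h hk hg).1 l] at hxz
    have e3 : (sd ZQ f k).swap = sd ZQ g l := by
      have e4 := congrArg (fun p => p.1.2) hxz
      have e5 := congrArg (fun p => p.2.2) hxz
      exact Prod.ext e4 e5
    have e4 : sd ZQ f k = (sd ZQ g l).swap := by rw [← e3, Prod.swap_swap]
    obtain ⟨e5, -⟩ := EnvB.swap_inj_iff.mp e4
    have h3 := h.hx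
    have h4 := h.ha
    have h5 := q.a3
    have h6 : f.1 - 1 ≤ g.1 ∧ g.1 ≤ f.1 + 1 := by
      rcases k4_cases k with rfl | rfl | rfl | rfl
      · rw [e5, EnvB.nb0]; simp only; omega
      · rw [e5, EnvB.nb1]; simp only; omega
      · rw [e5, EnvB.nb2]; simp only; omega
      · rw [e5, EnvB.nb3]; simp only; omega
    cases s <;> cases s'
    · rfl
    · rw [mem_Wb_f] at hf
      rw [mem_Wb_t] at hg
      omega
    · rw [mem_Wb_t] at hf
      rw [mem_Wb_f] at hg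
      omega
    · rfl

/-- the phases of the polygon -/
def ψG (S : Slb) (a : (Option Bool × (ℤ × ℤ)) × (Option Bool × (ℤ × ℤ))) : ℝ :=
  S.ψ (a.1.2, a.2.2)

theorem ψG_emb (h : S.Ok) (w : Win S W) (a : (ℤ × ℤ) × (ℤ × ℤ)) :
    ψG S ((emb h w).side a) = S.ψ a := rfl

theorem GD_bS (h : S.Ok) (w : Win S W) :
    bS (S.env W 0 0).Q (GD h w) = (bS ZQ S.D).image (emb h w).side :=
  WM.bS_map (S3T.qchart (emb h w))

theorem GD_side (h : S.Ok) (w : Win S W)
    {a : (Option Bool × (ℤ × ℤ)) × (Option Bool × (ℤ × ℤ))}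
    (haF : a ∈ bS (S.env W 0 0).Q (S.env W 0 0).F) (haG : a ∈ bS (S.env W 0 0).Q (GD h w)) :
    a ∈ (S.env W 0 0).Z ∧ ψG S a = S.ph W 0 0 a := by
  obtain ⟨x, hx, k, rfl⟩ := bS_sd haG
  obtain ⟨f, hf, rfl⟩ := Finset.mem_image.mp hx
  rcases side_cases h w hf k with ⟨-, h4, h5⟩ | ⟨g, hg, m, h3⟩ | ⟨s, y, h3, h4, h5, h6, h7⟩
  · refine ⟨h4, ?_⟩
    rw [h5, ← (emb h w).side_sd hf k, ψG_emb]
  · exfalso
    refine (mem_bS.mp haG).2 ((emb h w).φF g) (by exact_mod_cast emb_mem h w hg) m ?_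
    have := congrArg Prod.swap h3
    rwa [Prod.swap_swap] at this
  · exfalso
    refine (mem_bS.mp haF).2 (none, nb S s y) (by exact_mod_cast nb_F w h3 h4) (k + 2) ?_
    have := congrArg Prod.swap h7
    rwa [Prod.swap_swap] at this

theorem bS_right (h : S.Ok) {y : ℤ} (h1 : S.yc - S.k ≤ y) (h2 : y < S.yc + S.k) :
    sd ZQ (S.x2 - 1, y) 1 ∈ bS ZQ S.D := by
  have h3 := h.hx
  have h4 := h.ha
  have h5 := h.hak
  refine mem_bS.mpr ⟨sd_mem (by
    exact_mod_cast h.slab.sub (S.x2 - 1) y (by omega) (by omega) h1 h2) 1, ?_⟩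
  intro g hg l hl
  have h6 : sd ZQ (S.x2 - 1, y) 1 = (sd ZQ g l).swap := hl
  obtain ⟨rfl, -⟩ := EnvB.swap_inj_iff.mp h6
  rw [EnvB.nb1] at hg
  simp only [sub_add_cancel] at hg
  exact h.slab.right y h1 h2 hg

theorem bS_left (h : S.Ok) {y : ℤ} (h1 : S.yc - S.k ≤ y) (h2 : y < S.yc + S.k) :
    sd ZQ (S.x1, y) 3 ∈ bS ZQ S.D := by
  have h3 := h.hx
  have h4 := h.ha
  have h5 := h.hak
  refine mem_bS.mpr ⟨sd_mem (by
    exact_mod_cast h.slab.sub S.x1 y le_rfl (by omega) h1 h2) 3, ?_⟩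
  intro g hg l hl
  have h6 : sd ZQ (S.x1, y) 3 = (sd ZQ g l).swap := hl
  obtain ⟨rfl, -⟩ := EnvB.swap_inj_iff.mp h6
  rw [EnvB.nb3] at hg
  exact h.slab.left y h1 h2 hg

/-- the chart of the polygon at the mouth -/
def gC (h : S.Ok) (w : Win S W) (hρ : ρ ≤ S.k) (s : Bool) :
    WChart (S.env W 0 0).Q (GD h w) 2 (oS s) (dv S s) ρ where
  φV := (emb h w).φV
  φF := (emb h w).φF
  cor := fun f hf k => (emb h w).cor f (Wb_D h hρ hf).1 k
  inj := fun f hf g hg k l e => (emb h w).inj f (Wb_D h hρ hf).1 g (Wb_D h hρ hg).1 k l e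
  sub := fun f hf => emb_mem h w (Wb_D h hρ hf).1
  bIn := by
    intro a ha
    rw [GD_bS h w]
    refine Finset.mem_image_of_mem _ ?_
    have h3 := h.hx
    cases s
    · obtain ⟨y, h4, h5, rfl⟩ := mem_wIn1.mp (show a ∈ wIn 1 (S.x1, S.yc) ρ from ha)
      simp only at h4 h5
      exact bS_left h (by omega) (by omega)
    · obtain ⟨y, h4, h5, rfl⟩ := mem_wIn3.mp (show a ∈ wIn 3 (S.x2, S.yc) ρ from ha)
      simp only at h4 h5
      exact bS_right h (by omega) (by omega)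
  bOut := by
    intro a ha
    rw [GD_bS h w]
    refine Finset.mem_image_of_mem _ ?_
    have h3 := h.hx
    cases s
    · obtain ⟨y, h4, h5, rfl⟩ := mem_wOut3.mp (show a ∈ wOut 3 (S.x1, S.yc) ρ from ha)
      simp only at h4 h5
      exact bS_left h (by omega) (by omega)
    · obtain ⟨y, h4, h5, rfl⟩ := mem_wOut1.mp (show a ∈ wOut 1 (S.x2, S.yc) ρ from ha)
      simp only at h4 h5
      exact bS_right h (by omega) (by omega)

theorem gC_jump (h : S.Ok) (w : Win S W) (hρ : ρ ≤ S.k) (s : Bool) :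
    (gC h w hρ s).Jump (ψG S) 0 := by
  cases s
  · refine ⟨S.ρl, S.ρl, ?_, ?_, by push_cast; ring⟩
    · intro a ha
      obtain ⟨y, h4, h5, rfl⟩ := mem_wIn1.mp (show a ∈ wIn 1 (S.x1, S.yc) ρ from ha)
      simp only at h4 h5
      show ψG S ((emb h w).side _) = _
      rw [ψG_emb, sdz3]
      exact h.left y (by omega) (by omega)
    · intro a ha
      obtain ⟨y, h4, h5, rfl⟩ := mem_wOut3.mp (show a ∈ wOut 3 (S.x1, S.yc) ρ from ha)
      simp only at h4 h5
      show ψG S ((emb h w).side _) = _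
      rw [ψG_emb, sdz3]
      exact h.left y (by omega) (by omega)
  · refine ⟨S.ρr, S.ρr, ?_, ?_, by push_cast; ring⟩
    · intro a ha
      obtain ⟨y, h4, h5, rfl⟩ := mem_wIn3.mp (show a ∈ wIn 3 (S.x2, S.yc) ρ from ha)
      simp only at h4 h5
      show ψG S ((emb h w).side _) = _
      rw [ψG_emb, sdz1, sub_add_cancel]
      exact h.right y (by omega) (by omega)
    · intro a ha
      obtain ⟨y, h4, h5, rfl⟩ := mem_wOut1.mp (show a ∈ wOut 1 (S.x2, S.yc) ρ from ha)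
      simp only at h4 h5
      show ψG S ((emb h w).side _) = _
      rw [ψG_emb, sdz1, sub_add_cancel]
      exact h.right y (by omega) (by omega)

theorem Pd_inter (h : S.Ok) (hW : MthD.Win S W) (q : R ≤ S.k) (s : Bool) :
    Pd S R L s ∩ GD h (ofWin h hW) = (Wb S s R).image (emb h (ofWin h hW)).φF := by
  ext x
  rw [Finset.mem_inter]
  constructor
  · rintro ⟨h3, h4⟩
    obtain ⟨f, hf, rfl⟩ := GD_Pd h hW h4 h3
    exact Finset.mem_image_of_mem _ hf
  · intro h3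
    obtain ⟨f, hf, rfl⟩ := Finset.mem_image.mp h3
    exact ⟨emb_Pd h hW q hf, emb_mem h _ (Wb_D h q hf).1⟩

/-- **The arcs of the polygon in a mouth box have the weight `√3`.** -/
theorem gC_nat (h : S.Ok) (hW : MthD.Win S W) (h2 : R + 1 ≤ S.k) (s : Bool)
    {a : (Option Bool × (ℤ × ℤ)) × (Option Bool × (ℤ × ℤ))}
    (haG : a ∈ bS (S.env W 0 0).Q (GD h (ofWin h hW)))
    (haP : a ∈ bS (S.env W 0 0).Q (Pd S R L s ∩ GD h (ofWin h hW)))
    (hb : mate (S.env W 0 0).Q (Pd S R L s ∩ GD h (ofWin h hW)) ω a ∈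
      bS (S.env W 0 0).Q (GD h (ofWin h hW))) :
    wt (S.env W 0 0).Q (Pd S R L s ∩ GD h (ofWin h hW)) ω (ψG S) a = Real.sqrt 3 := by
  rw [Pd_inter h hW (by omega) s] at haP hb ⊢
  have h4 := S3T.mem_walls (gC h (ofWin h hW) h2 s) (by omega) (by omega)
    (Nat.lt_succ_self R) haP haG
  exact (S3T.wall_nat (gC h (ofWin h hW) h2 s) (by omega) (by omega)
    (Nat.lt_succ_self R) (Or.inl (gC_jump h _ h2 s)) h4 hb).2

/-! ## The theorem -/

section main

variable {Cv : Finset ((Option Bool × (ℤ × ℤ)) × (Option Bool × (ℤ × ℤ)))} {nS nN : ℕ} {t₀ : ℝ}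

/-- a wall side of a mouth is a side of its cell -/
theorem mth_dE {V Φ : Type} [DecidableEq V] [DecidableEq Φ] {Q : QC V Φ} {F : Finset Φ} {lf : Bool}
    {v : ℤ × ℤ} {R a L ρ l : ℕ} (c : MChart Q F lf v R a L) (ha : 0 < a) (h0 : a ≤ ρ) (h1 : ρ ≤ R)
    (hl : 0 < l) (h2 : l ≤ L) {j : Fin 4} {x : (ℤ × ℤ) × (ℤ × ℤ)} (hx : x ∈ mthWall lf v ρ a l j) :
    c.side x ∈ dE Q ((Mth lf v ρ a l).image c.φF) :=
  (mem_bS.mp (S3T.mW_sub_box c ha h0 h1 hl h2 j (Finset.mem_image_of_mem _ hx))).1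

/-- the natural cells of a partial atlas and of the two mouths of the polygon -/
def ncs (h : S.Ok) (hW : MthD.Win S W) (q : Rad S ρ R L₀ L) (h0 : 0 < r)
    (A : PAtlas (S.env W 0 0).Q (S.env W 0 0).F (S.ph W 0 0) (S.env W 0 0).Z Cv r nS nN t₀) :
    (A.ι ⊕ A.μ) ⊕ Bool → NCell (S.env W 0 0).Q (S.env W 0 0).F (S.ph W 0 0) (S.env W 0 0).Z
  | .inl (.inl i) => NCell.ofW (A.nch i) h0 (A.m'_rng i) (A.njmp i) (A.nZ i)
  | .inl (.inr i) => NCell.ofM (A.mch i) (A.h_lt i) (A.mnat i) (A.mZ i)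
  | .inr s => cD h hW q s

/-- **The weight of the environment of a slab**: no cell off the polygon is crossed, the rings at the two mouths of
the polygon are not crossed. -/
theorem low_slab (h : S.Ok) (hW : MthD.Win S W) (q : Rad S ρ R L₀ L) (h0 : 0 < r)
    (A : PAtlas (S.env W 0 0).Q (S.env W 0 0).F (S.ph W 0 0) (S.env W 0 0).Z Cv r nS nN t₀)
    (hK : ∀ i, ∃ J, A.K i = .ver J) (ht0 : ∀ i, 0 ≤ sT (A.K i))
    (hoS : ∀ i, Disjoint ((A.ch i).box (4 * r)) (GD h (ofWin h hW)))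
    (hoN : ∀ i, Disjoint ((A.nch i).box (2 * r)) (GD h (ofWin h hW)))
    (hoM : ∀ i, Disjoint (LowP.mcell A i) (GD h (ofWin h hW)))
    (hcov : ∀ a ∈ (S.env W 0 0).Z, a ∈ Cv ∨ a ∈ dE (S.env W 0 0).Q (GD h (ofWin h hW)) ∨
      ∃ s, a ∈ dE (S.env W 0 0).Q (Kd S ρ L₀ s))
    (hω : ∀ y, y ∉ GD h (ofWin h hW) → ω y = ω' y) (hX : LowP.XZ A ω')
    (hXm : ∀ s, Cell.Xc (S.env W 0 0).Q (S.env W 0 0).F (Kd S ρ L₀ s) (Pd S R L s) ω' = 0)
    (hXr : ∀ s, Cell.Xc ZQ S.D (Wb S s ρ) (Wb S s R)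
      (fun f => ω ((emb h (ofWin h hW)).φF f)) = 0) :
    (∀ a ∈ (S.env W 0 0).Z, mate (S.env W 0 0).Q (S.env W 0 0).F ω a ∈ (S.env W 0 0).Z) ∧
      WZ (S.env W 0 0).Q (S.env W 0 0).F (S.ph W 0 0) (S.env W 0 0).Z ω =
        WZ ZQ S.D S.ψ (bS ZQ S.D) (fun f => ω ((emb h (ofWin h hW)).φF f)) * LowP.wtS A ω := by
  classical
  set w := ofWin h hW with hw
  have hZF : (S.env W 0 0).Z ⊆ bS (S.env W 0 0).Q (S.env W 0 0).F := fun a ha =>
    (EnvB.mem_Z.mp ha).1
  set Z₁ := (S.env W 0 0).Z.filter fun a => a ∉ dE (S.env W 0 0).Q (GD h w) with hZ₁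
  have hZ₁F : Z₁ ⊆ bS (S.env W 0 0).Q (S.env W 0 0).F := (Finset.filter_subset _ _).trans hZF
  have hx : ∀ s, Cell.Xc (S.env W 0 0).Q (S.env W 0 0).F (Kd S ρ L₀ s) (Pd S R L s) ω = 0 :=
    fun s => split h hW q hω (hXm s) (hXr s)
  have hWl : ∀ i, (A.ch i).walls (4 * r) ⊆ Z₁ := by
    intro i a ha
    refine Finset.mem_filter.mpr ⟨A.chZ i ha, fun h3 => ?_⟩
    have haF := hZF (A.chZ i ha)
    obtain ⟨f, hf, k, rfl⟩ := bS_sd (S3T.walls_sub_box (A.ch i) (A.m_rng i).1 (A.m_rng i).2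
      (by omega) ha)
    obtain ⟨g, hg, l, h4 | h4⟩ := mem_dE.mp h3
    · have h5 : sd (S.env W 0 0).Q f k = sd (S.env W 0 0).Q g l := h4
      rw [(sd_inj h5).1] at hf
      exact Finset.disjoint_left.mp (hoS i) hf hg
    · exact (mem_bS.mp haF).2 g (by exact_mod_cast GD_sub h w hg) l h4
  have hC : ∀ a ∈ Z₁, (∃ i, a ∈ dE (S.env W 0 0).Q (ncs h hW q h0 A i).G₀) ∨
      ∃ i, a ∈ (A.ch i).walls (2 * r) := by
    intro a ha
    obtain ⟨haZ, haG⟩ := Finset.mem_filter.mp ha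
    rcases hcov a haZ with h3 | h3 | ⟨s, h3⟩
    · rcases A.cover a h3 with ⟨i, h4⟩ | ⟨i, h4⟩ | ⟨i, j, x, h4, rfl⟩
      · exact Or.inr ⟨i, h4⟩
      · refine Or.inl ⟨.inl (.inl i), ?_⟩
        exact (mem_bS.mp (S3T.walls_sub_box (A.nch i) (A.m'_rng i).1 (A.m'_rng i).2
          (by omega) h4)).1
      · refine Or.inl ⟨.inl (.inr i), ?_⟩
        have h5 := A.h_lt i
        exact mth_dE (A.mch i) h5.1 (by omega) (by omega) (by omega) (by omega) h4
    · exact absurd h3 haG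
    · refine Or.inl ⟨.inr s, ?_⟩
      show a ∈ dE (S.env W 0 0).Q (cD h hW q s).G₀
      rw [cD_G₀]
      exact h3
  set C := pcells A h0 (ncs h hW q h0 A) hK ht0 hZ₁F hWl hC with hCdef
  have hX0 : C.X ω = 0 := by
    unfold Cells.X
    have e1 : ∑ i ∈ C.I, Cell.Xc (S.env W 0 0).Q (S.env W 0 0).F (C.G₀ i) (C.G i) ω = 0 := by
      refine Finset.sum_eq_zero fun i _ => ?_
      rcases i with (i | i) | s
      · refine (Cell.Xc_congr fun f hf => hω f ?_).trans (hX.2.1 i)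
        exact Finset.disjoint_left.mp (hoN i) (Finset.mem_sdiff.mp hf).1
      · refine (Cell.Xc_congr fun f hf => hω f ?_).trans (hX.2.2 i)
        exact Finset.disjoint_left.mp (hoM i) (Finset.mem_sdiff.mp hf).1
      · show Cell.Xc _ _ (cD h hW q s).G₀ (cD h hW q s).G ω = 0
        rw [cD_G₀, cD_G]
        exact hx s
    have e2 : ∑ v ∈ C.S, Cell.Xc (S.env W 0 0).Q (S.env W 0 0).F (C.B₁ v) (C.B v) ω = 0 := by
      refine Finset.sum_eq_zero fun i _ => ?_
      refine (Cell.Xc_congr fun f hf => hω f ?_).trans (hX.1 i)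
      exact Finset.disjoint_left.mp (hoS i) (Finset.mem_sdiff.mp hf).1
    rw [e1, e2]
  have hcut := mcut h hW q hx
  have hdat : Dat (S.env W 0 0).Q (S.env W 0 0).F (GD h w) (S.ph W 0 0) (ψG S) (S.env W 0 0).Z Z₁
      (Finset.univ : Finset Bool) (Kd S ρ L₀) (Pd S R L) C ω :=
    { toCut := hcut
      Z_F := hZF
      Z₁_Z := Finset.filter_subset _ _
      cov := fun a ha => by
        by_cases h3 : a ∈ dE (S.env W 0 0).Q (GD h w)
        · exact Or.inr h3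
        · exact Or.inl (Finset.mem_filter.mpr ⟨ha, h3⟩)
      zG := fun a haF haG => (GD_side h w haF haG).1
      hψ := fun a haF haG => (GD_side h w haF haG).2
      zP := fun s _ a haF haP => by
        rw [← cD_G h hW q s] at haP
        exact (cD h hW q s).z a haP haF
      n1 := fun s _ a haF haP hb => by
        rw [← cD_G h hW q s] at haP hb ⊢
        exact (cD h hW q s).nat ω a haF haP hb
      n2 := fun s _ a haG haP hb => gC_nat h hW (by have := q.a3; omega) s haG haP hb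
      ex := pcells_exact
      X0 := hX0
      hB := fun i _ => hoS i
      zI := fun i _ b hb hF => (ncs h hW q h0 A i).z b hb hF
      zB := fun i _ b hb hF => A.chZ i
        (S3T.mem_walls (A.ch i) (A.m_rng i).1 (A.m_rng i).2 (by omega) hb hF) }
  obtain ⟨r1, r2⟩ := low_det hdat
  refine ⟨r1, ?_⟩
  rw [r2, hCdef, pcells_prod]
  congr 1
  rw [GD_bS h w]
  exact WM.WZ_map (S3T.qchart (emb h w)) (Finset.Subset.refl _) fun a _ => ψG_emb h w a

end main

end mouths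

end

end Pool.Agent.SixB.LwD
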