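import Pool.Agent.Lib.SixB.S3EmbH
import Pool.Agent.Lib.SixB.S3PathV
import Pool.Agent.Lib.SixB.S3WGeo

/-!
# 6BD step 3, row R21: the walls of the pockets next to the mouths

* `UpE.Half`: a part `F'` of the surface of `S.env W X Y` which contains the components `B` of the pockets.
* `UpE.wallR`, `UpE.wallL`: flat charts of the walls `x2`, `x1` of `D` off the slab.
* `UpE.segR`, `UpE.segL`: natural charts along these walls in `F'`.
-/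

set_option autoImplicit false
set_option linter.unusedSectionVars false

namespace Pool.Agent.SixB

open Pool.Agent.Perc.Q Pool.Agent.Perc EmbH

noncomputable section

namespace UpE

variable {S : Slb} {W : Finset (ℤ × ℤ)} {X Y : ℤ}

/-! ## Planar charts of the walls -/

/-- rows of the walls off the slab -/
def RowOk (S : Slb) (y : ℤ) (ρ : ℕ) : Prop :=
  S.yc - S.k ≤ y - ρ ∧ y + ρ ≤ S.yc + S.k ∧ S.x1 + ρ ≤ S.x2 ∧
    (S.yc + S.a ≤ y - ρ ∨ y + ρ ≤ S.yc - S.a)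

theorem strip_off (h : S.Ok) {f : ℤ × ℤ} {y : ℤ} {ρ : ℕ} (hr : RowOk S y ρ) (h1 : S.x1 ≤ f.1)
    (h2 : f.1 < S.x2) (h3 : y - ρ ≤ f.2) (h4 : f.2 < y + ρ) : f ∈ S.D \ S.slb := by
  obtain ⟨a1, a2, a3, a4⟩ := hr
  rw [Finset.mem_sdiff]
  refine ⟨h.slab.sub f.1 f.2 h1 h2 (by omega) (by omega), ?_⟩
  rw [mem_RF]
  omega

theorem bR (h : S.Ok) {y : ℤ} (h1 : S.yc - S.k ≤ y) (h2 : y < S.yc + S.k) :
    sd ZQ (S.x2 - 1, y) 1 ∈ bS ZQ S.D := by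
  have hx := h.slab.hx
  rw [WG.sd_bS_iff, WG.bh1]
  refine ⟨h.slab.sub _ _ (by omega) (by omega) h1 h2, fun h3 => ?_⟩
  refine h.slab.right y h1 h2 ?_
  simp only [sub_add_cancel] at h3
  exact h3

theorem bL (h : S.Ok) {y : ℤ} (h1 : S.yc - S.k ≤ y) (h2 : y < S.yc + S.k) :
    sd ZQ (S.x1, y) 3 ∈ bS ZQ S.D := by
  have hx := h.slab.hx
  rw [WG.sd_bS_iff, WG.bh3]
  exact ⟨h.slab.sub _ _ (by omega) (by omega) h1 h2, h.slab.left y h1 h2⟩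

theorem psiR (h : S.Ok) {y : ℤ} (h1 : S.yc - S.k ≤ y) (h2 : y < S.yc + S.k) :
    S.ψ (sd ZQ (S.x2 - 1, y) 1) = S.ρr := by
  have e : sd ZQ (S.x2 - 1, y) 1 = ((S.x2 - 1 + 1, y), (S.x2 - 1 + 1, y + 1)) := rfl
  rw [e, sub_add_cancel]
  exact h.right y h1 h2

theorem psiL (h : S.Ok) {y : ℤ} (h1 : S.yc - S.k ≤ y) (h2 : y < S.yc + S.k) :
    S.ψ (sd ZQ (S.x1, y) 3) = S.ρl := by
  exact h.left y h1 h2

theorem e12 : (1 : ZMod 4) + ((2 : ℕ) : ZMod 4) = 3 := by decide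

theorem e32 : (3 : ZMod 4) + ((2 : ℕ) : ZMod 4) = 1 := by decide

/-- sides of the right wall near the vertex `v` -/
theorem sidesR {v : ℤ × ℤ} {ρ : ℕ} {a : (ℤ × ℤ) × (ℤ × ℤ)}
    (ha : a ∈ wIn (1 + ((2 : ℕ) : ZMod 4)) v ρ ∪ wOut 1 v ρ) :
    ∃ y : ℤ, v.2 - ρ ≤ y ∧ y < v.2 + ρ ∧ a = sd ZQ (v.1 - 1, y) 1 := by
  rw [e12, Finset.mem_union, mem_wIn3, mem_wOut1] at ha
  rcases ha with ⟨y, h1, h2, rfl⟩ | ⟨y, h1, h2, rfl⟩
  · exact ⟨y, by omega, by omega, rfl⟩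
  · exact ⟨y, by omega, by omega, rfl⟩

/-- sides of the left wall near the vertex `v` -/
theorem sidesL {v : ℤ × ℤ} {ρ : ℕ} {a : (ℤ × ℤ) × (ℤ × ℤ)}
    (ha : a ∈ wIn (3 + ((2 : ℕ) : ZMod 4)) v ρ ∪ wOut 3 v ρ) :
    ∃ y : ℤ, v.2 - ρ ≤ y ∧ y < v.2 + ρ ∧ a = sd ZQ (v.1, y) 3 := by
  rw [e32, Finset.mem_union, mem_wIn1, mem_wOut3] at ha
  rcases ha with ⟨y, h1, h2, rfl⟩ | ⟨y, h1, h2, rfl⟩
  · exact ⟨y, by omega, by omega, rfl⟩
  · exact ⟨y, by omega, by omega, rfl⟩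

/-- chart of the right wall -/
def wallR (h : S.Ok) {v : ℤ × ℤ} {ρ : ℕ} (hv : v.1 = S.x2) (hr : RowOk S v.2 ρ) :
    WChart ZQ (S.D \ S.slb) 2 1 v ρ where
  φV := id
  φF := id
  cor := fun _ _ _ => rfl
  inj := fun _ _ _ _ _ _ he => he
  sub := fun f hf => by
    rw [mem_w21] at hf
    have h3 := hr.2.2.1
    show f ∈ _
    exact strip_off h hr (by omega) (by omega) (by omega) (by omega)
  bIn := fun a ha => by
    obtain ⟨y, h1, h2, rfl⟩ := sidesR (Finset.mem_union_left _ ha)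
    obtain ⟨a1, a2, a3, a4⟩ := hr
    have hx := h.slab.hx
    show sd ZQ (v.1 - 1, y) 1 ∈ bS ZQ (S.D \ S.slb)
    rw [hv]
    exact SixB.bS_anti Finset.sdiff_subset (bR h (by omega) (by omega))
      (sd_mem (strip_off (y := v.2) h ⟨a1, a2, a3, a4⟩ (by simp only; omega) (by simp only; omega)
        (by simp only; omega) (by simp only; omega)) 1)
  bOut := fun a ha => by
    obtain ⟨y, h1, h2, rfl⟩ := sidesR (Finset.mem_union_right _ ha)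
    obtain ⟨a1, a2, a3, a4⟩ := hr
    have hx := h.slab.hx
    show sd ZQ (v.1 - 1, y) 1 ∈ bS ZQ (S.D \ S.slb)
    rw [hv]
    exact SixB.bS_anti Finset.sdiff_subset (bR h (by omega) (by omega))
      (sd_mem (strip_off (y := v.2) h ⟨a1, a2, a3, a4⟩ (by simp only; omega) (by simp only; omega)
        (by simp only; omega) (by simp only; omega)) 1)

/-- chart of the left wall -/
def wallL (h : S.Ok) {v : ℤ × ℤ} {ρ : ℕ} (hv : v.1 = S.x1) (hr : RowOk S v.2 ρ) :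
    WChart ZQ (S.D \ S.slb) 2 3 v ρ where
  φV := id
  φF := id
  cor := fun _ _ _ => rfl
  inj := fun _ _ _ _ _ _ he => he
  sub := fun f hf => by
    rw [mem_w23] at hf
    have h3 := hr.2.2.1
    show f ∈ _
    exact strip_off h hr (by omega) (by omega) (by omega) (by omega)
  bIn := fun a ha => by
    obtain ⟨y, h1, h2, rfl⟩ := sidesL (Finset.mem_union_left _ ha)
    obtain ⟨a1, a2, a3, a4⟩ := hr
    have hx := h.slab.hx
    show sd ZQ (v.1, y) 3 ∈ bS ZQ (S.D \ S.slb)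
    rw [hv]
    exact SixB.bS_anti Finset.sdiff_subset (bL h (by omega) (by omega))
      (sd_mem (strip_off (y := v.2) h ⟨a1, a2, a3, a4⟩ (by simp only; omega) (by simp only; omega)
        (by simp only; omega) (by simp only; omega)) 3)
  bOut := fun a ha => by
    obtain ⟨y, h1, h2, rfl⟩ := sidesL (Finset.mem_union_right _ ha)
    obtain ⟨a1, a2, a3, a4⟩ := hr
    have hx := h.slab.hx
    show sd ZQ (v.1, y) 3 ∈ bS ZQ (S.D \ S.slb)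
    rw [hv]
    exact SixB.bS_anti Finset.sdiff_subset (bL h (by omega) (by omega))
      (sd_mem (strip_off (y := v.2) h ⟨a1, a2, a3, a4⟩ (by simp only; omega) (by simp only; omega)
        (by simp only; omega) (by simp only; omega)) 3)

theorem wallR_bS (h : S.Ok) {v : ℤ × ℤ} {ρ : ℕ} (hv : v.1 = S.x2) (hr : RowOk S v.2 ρ) :
    ∀ a ∈ wIn (1 + ((2 : ℕ) : ZMod 4)) v ρ ∪ wOut 1 v ρ, (wallR h hv hr).side a ∈ bS ZQ S.D := by
  intro a ha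
  obtain ⟨y, h1, h2, rfl⟩ := sidesR ha
  obtain ⟨a1, a2, a3, a4⟩ := id hr
  show sd ZQ (v.1 - 1, y) 1 ∈ bS ZQ S.D
  rw [hv]
  exact bR h (by omega) (by omega)

theorem wallL_bS (h : S.Ok) {v : ℤ × ℤ} {ρ : ℕ} (hv : v.1 = S.x1) (hr : RowOk S v.2 ρ) :
    ∀ a ∈ wIn (3 + ((2 : ℕ) : ZMod 4)) v ρ ∪ wOut 3 v ρ, (wallL h hv hr).side a ∈ bS ZQ S.D := by
  intro a ha
  obtain ⟨y, h1, h2, rfl⟩ := sidesL ha
  obtain ⟨a1, a2, a3, a4⟩ := id hr
  show sd ZQ (v.1, y) 3 ∈ bS ZQ S.D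
  rw [hv]
  exact bL h (by omega) (by omega)

theorem wallR_jump (h : S.Ok) {v : ℤ × ℤ} {ρ : ℕ} (hv : v.1 = S.x2) (hr : RowOk S v.2 ρ) :
    (wallR h hv hr).Jump S.ψ 0 := by
  obtain ⟨a1, a2, a3, a4⟩ := id hr
  refine ⟨S.ρr, S.ρr, fun a ha => ?_, fun a ha => ?_, by push_cast; ring⟩
  · obtain ⟨y, h1, h2, rfl⟩ := sidesR (Finset.mem_union_left _ ha)
    show S.ψ (sd ZQ (v.1 - 1, y) 1) = _
    rw [hv]
    exact psiR h (by omega) (by omega)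
  · obtain ⟨y, h1, h2, rfl⟩ := sidesR (Finset.mem_union_right _ ha)
    show S.ψ (sd ZQ (v.1 - 1, y) 1) = _
    rw [hv]
    exact psiR h (by omega) (by omega)

theorem wallL_jump (h : S.Ok) {v : ℤ × ℤ} {ρ : ℕ} (hv : v.1 = S.x1) (hr : RowOk S v.2 ρ) :
    (wallL h hv hr).Jump S.ψ 0 := by
  obtain ⟨a1, a2, a3, a4⟩ := id hr
  refine ⟨S.ρl, S.ρl, fun a ha => ?_, fun a ha => ?_, by push_cast; ring⟩
  · obtain ⟨y, h1, h2, rfl⟩ := sidesL (Finset.mem_union_left _ ha)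
    show S.ψ (sd ZQ (v.1, y) 3) = _
    rw [hv]
    exact psiL h (by omega) (by omega)
  · obtain ⟨y, h1, h2, rfl⟩ := sidesL (Finset.mem_union_right _ ha)
    show S.ψ (sd ZQ (v.1, y) 3) = _
    rw [hv]
    exact psiL h (by omega) (by omega)

/-! ## Parts of the surface -/

/-- a part `F'` of the surface which contains the components `B` of the pockets, `Z'` its walls -/
structure Half (S : Slb) (W : Finset (ℤ × ℤ)) (X Y : ℤ) (B : ℤ × ℤ → Prop)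
    (F' : Finset (Option Bool × (ℤ × ℤ)))
    (Z' : Finset ((Option Bool × (ℤ × ℤ)) × (Option Bool × (ℤ × ℤ)))) : Prop where
  hB : S.Comp B
  hF : F' ⊆ (S.env W X Y).F
  hFB : ∀ f ∈ S.D \ S.slb, B f → S.shrF X Y f ∈ F'
  hZ : ∀ f ∈ F', ∀ k, sd (S.env W X Y).Q f k ∈ (S.env W X Y).Z → sd (S.env W X Y).Q f k ∈ Z'

variable {B : ℤ × ℤ → Prop} {F' : Finset (Option Bool × (ℤ × ℤ))}
  {Z' : Finset ((Option Bool × (ℤ × ℤ)) × (Option Bool × (ℤ × ℤ)))}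

/-- face at distance less than `ρ` from the slab -/
def nearF (S : Slb) (ρ : ℕ) (f : ℤ × ℤ) : Prop :=
  S.x1 - ρ ≤ f.1 ∧ f.1 < S.x2 + ρ ∧ S.yc - S.a - ρ ≤ f.2 ∧ f.2 < S.yc + S.a + ρ

/-- faces of the pockets at distance at least `ρ` from the slab -/
def reg (S : Slb) (X Y : ℤ) (B : ℤ × ℤ → Prop) (ρ : ℕ) : Set (Option Bool × (ℤ × ℤ)) :=
  {x | ∃ f ∈ S.D \ S.slb, B f ∧ ¬ nearF S ρ f ∧ x = S.shrF X Y f}

/-- faces of the pockets at distance less than `ρ` from the slab -/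
def nreg (S : Slb) (X Y : ℤ) (B : ℤ × ℤ → Prop) (ρ : ℕ) : Set (Option Bool × (ℤ × ℤ)) :=
  {x | ∃ f ∈ S.D \ S.slb, B f ∧ nearF S ρ f ∧ x = S.shrF X Y f}

/-- the part of a wall chart inside `F'` -/
def wchF (h : S.Ok) (H : Half S W X Y B F' Z') {m : ℕ} {o : ZMod 4} {v : ℤ × ℤ} {ρ : ℕ}
    (hm : 1 ≤ m ∧ m ≤ 3) (c : WChart ZQ (S.D \ S.slb) m o v ρ)
    (hc : ∀ a ∈ wIn (o + m) v ρ ∪ wOut o v ρ, c.side a ∈ bS ZQ S.D)
    (hB : ∀ f ∈ Wdg m o v ρ, B (c.φF f)) : WChart (S.env W X Y).Q F' m o v ρ :=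
  (h.keepsShr.wch c hc).restr hm H.hF fun f hf => H.hFB _ (c.sub f hf) (hB f hf)

section wchF

variable (h : S.Ok) (H : Half S W X Y B F' Z') {m : ℕ} {o : ZMod 4} {v : ℤ × ℤ} {ρ : ℕ}
    (hm : 1 ≤ m ∧ m ≤ 3) (c : WChart ZQ (S.D \ S.slb) m o v ρ)
    (hc : ∀ a ∈ wIn (o + m) v ρ ∪ wOut o v ρ, c.side a ∈ bS ZQ S.D)
    (hB : ∀ f ∈ Wdg m o v ρ, B (c.φF f))

theorem wchF_jump {J : ℝ} (hJ : c.Jump S.ψ J) :
    (wchF h H hm c hc hB).Jump (S.ph W X Y) J :=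
  (h.keepsShr.wch_jump hc hJ).restr hm H.hF _

theorem wchF_sjump (hρ : 0 < ρ) {K : SK} (hJ : SJump c K S.ψ) :
    SJump (wchF h H hm c hc hB) K (S.ph W X Y) :=
  (h.keepsShr.wch_sjump hρ hc hJ).restr hm H.hF _

theorem wchF_side (a : (ℤ × ℤ) × (ℤ × ℤ)) :
    (wchF h H hm c hc hB).side a = (h.shr W X Y).side (c.side a) := rfl

theorem wchF_F (f : ℤ × ℤ) : (wchF h H hm c hc hB).φF f = S.shrF X Y (c.φF f) := rfl

theorem wchF_Z {t : ℕ} (ht : t ≤ ρ) : (wchF h H hm c hc hB).walls t ⊆ Z' := by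
  intro a ha
  unfold WChart.walls at ha
  rw [Finset.mem_image] at ha
  obtain ⟨s, hs, rfl⟩ := ha
  have h1 : s ∈ wIn (o + m) v ρ ∪ wOut o v ρ := by
    rcases Finset.mem_union.1 hs with hs | hs
    · exact Finset.mem_union_left _ (wIn_mono ht hs)
    · exact Finset.mem_union_right _ (wOut_mono ht hs)
  have h2 : (h.shr W X Y).side (c.side s) ∈ (S.env W X Y).Z := by
    refine h.keepsShr.z _ ?_ (hc s h1)
    rcases Finset.mem_union.1 h1 with h1 | h1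
    · exact c.bIn s h1
    · exact c.bOut s h1
  have key : ∃ f ∈ Wdg m o v ρ, ∃ k, s = sd ZQ f k := by
    rcases Finset.mem_union.1 h1 with h1 | h1
    · obtain ⟨f, hf, h3⟩ := wIn_face hm.1 (by omega) h1
      exact ⟨f, hf, _, h3⟩
    · obtain ⟨f, hf, h3⟩ := wOut_face hm.1 h1
      exact ⟨f, hf, _, h3⟩
  obtain ⟨f, hf, k, rfl⟩ := key
  have e : (wchF h H hm c hc hB).side (sd ZQ f k) = sd (S.env W X Y).Q (S.shrF X Y (c.φF f)) k :=
    (wchF h H hm c hc hB).toPChart.side_sdR hf k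
  rw [e]
  refine H.hZ _ (H.hFB _ (c.sub f hf) (hB f hf)) k ?_
  rw [← e, wchF_side]
  exact h2

end wchF

/-! ## The strips of `D` above and below the slab -/

/-- the strip above the slab -/
def stU (S : Slb) (f : ℤ × ℤ) : Prop :=
  S.x1 ≤ f.1 ∧ f.1 < S.x2 ∧ S.yc + S.a ≤ f.2 ∧ f.2 < S.yc + S.k

/-- the strip below the slab -/
def stL (S : Slb) (f : ℤ × ℤ) : Prop :=
  S.x1 ≤ f.1 ∧ f.1 < S.x2 ∧ S.yc - S.k ≤ f.2 ∧ f.2 < S.yc - S.a

theorem stU_mem (h : S.Ok) {f : ℤ × ℤ} (hf : stU S f) : f ∈ S.D \ S.slb := by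
  obtain ⟨h1, h2, h3, h4⟩ := hf
  rw [Finset.mem_sdiff]
  refine ⟨h.slab.sub f.1 f.2 h1 h2 (by have := h.w2; omega) (by omega), ?_⟩
  rw [mem_RF]
  omega

theorem stL_mem (h : S.Ok) {f : ℤ × ℤ} (hf : stL S f) : f ∈ S.D \ S.slb := by
  obtain ⟨h1, h2, h3, h4⟩ := hf
  rw [Finset.mem_sdiff]
  refine ⟨h.slab.sub f.1 f.2 h1 h2 (by omega) (by have := h.w2; omega), ?_⟩
  rw [mem_RF]
  omega

/-- a component which meets an edge connected set contains it -/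
theorem comp_chain (hB : S.Comp B) {T : Set (ℤ × ℤ)} (hT : ∀ f ∈ T, f ∈ S.D \ S.slb) {f g : ℤ × ℤ}
    (hf : f ∈ T) (hg : ECh T f g) (hfB : B f) : B g := by
  have key : g ∈ T ∧ B g := by
    induction hg with
    | refl => exact ⟨hf, hfB⟩
    | @tail b c _ h2 ih =>
      have hc : c ∈ T := h2.1
      exact ⟨hc, hB b (hT b ih.1) c (hT c hc) h2.2 ih.2⟩
  exact key.2

theorem stU_comp (h : S.Ok) (hB : S.Comp B) {f g : ℤ × ℤ} (hf : stU S f) (hg : stU S g)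
    (hfB : B f) : B g := by
  refine comp_chain hB (T := {f | stU S f}) (fun f hf => stU_mem h hf) hf ?_ hfB
  refine rect_chain (x₀ := S.x1) (x₁ := S.x2) (y₀ := S.yc + S.a) (y₁ := S.yc + S.k) ?_ ?_ ?_
  · intro p hp
    rw [mem_RF] at hp
    exact hp
  · rw [mem_RF]
    exact hf
  · rw [mem_RF]
    exact hg

theorem stL_comp (h : S.Ok) (hB : S.Comp B) {f g : ℤ × ℤ} (hf : stL S f) (hg : stL S g)
    (hfB : B f) : B g := by
  refine comp_chain hB (T := {f | stL S f}) (fun f hf => stL_mem h hf) hf ?_ hfB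
  refine rect_chain (x₀ := S.x1) (x₁ := S.x2) (y₀ := S.yc - S.k) (y₁ := S.yc - S.a) ?_ ?_ ?_
  · intro p hp
    rw [mem_RF] at hp
    exact hp
  · rw [mem_RF]
    exact hf
  · rw [mem_RF]
    exact hg

end UpE

end

end Pool.Agent.SixB
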