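import Pool.Agent.Lib.SixB.S3LowC
import Pool.Agent.Lib.SixB.S3AtlFin
import Pool.Agent.Lib.SixB.S3PkW
import Pool.Agent.Lib.SixB.S3Star

/-!
# 6BD step 3, R13: LOWER for the polygon with both rings at the mouths

`S : Slb`, `h : S.Ok`, `ρ = k / 16`, `R = 4 ρ`, colour `DP = dcol id`.
* `wd h s`: the half box rings of `D` at the mouths (`s = true`: right wall); `wd_xc`, `wd_two`.
* `box_off`: a chart of `D` with centre off the slab has its box of radius `r` off the rings.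
* `low_D2`: `c ∏ sF ≤ E[W_D; both rings are not crossed]` for positive weights.
-/

set_option autoImplicit false
set_option linter.unusedSectionVars false

namespace Pool.Agent.SixB.LowP

open Pool.Agent.Perc.Q Pool.Agent.Perc
open Pool.Agent.SixB hiding Zs_split
open Pool.Agent.SixB.LwD (Wb dv oS)

noncomputable section

/-- the colouring of the plane -/
abbrev DP : ℤ × ℤ → Bool := ColP.dcol id

/-- every partial atlas of the plane -/
def colD {D : Finset (ℤ × ℤ)} {ψ : (ℤ × ℤ) × (ℤ × ℤ) → ℝ} {Z C : Finset ((ℤ × ℤ) × (ℤ × ℤ))}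
    {r nS nN : ℕ} {t₀ : ℝ} (A : PAtlas ZQ D ψ Z C r nS nN t₀) : Col A DP := ColP.col ColP.plQ_ZQ A

variable {S : Slb}

theorem nums (h : S.Ok) : 0 < S.a ∧ 6 ≤ S.k / 16 ∧ S.a + 1 ≤ S.k / 16 ∧
    4 * (S.k / 16) + 1 ≤ S.k ∧ 0 < S.k ∧ 2 * S.a + ((S.k - 1) / 2 + 1) ≤ S.k - 1 := by
  have h1 := h.ha
  have h2 := h.hak
  refine ⟨h1, ?_, ?_, ?_, ?_, ?_⟩ <;> omega

/-! ## The rings of the polygon -/

/-- chart of the right wall at the mouth -/
def wR (h : S.Ok) {R : ℕ} (hR : R ≤ S.k) : WChart ZQ S.D 2 1 (S.x2, S.yc) R where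
  φV := id
  φF := id
  cor := fun _ _ _ => rfl
  inj := fun _ _ _ _ _ _ he => he
  sub := fun f hf => by
    rw [mem_w21] at hf
    have hx := h.hx
    simp only at hf
    exact h.slab.sub f.1 f.2 (by omega) (by omega) (by omega) (by omega)
  bIn := fun a ha => by
    obtain ⟨y, h1, h2, rfl⟩ := UpE.sidesR (Finset.mem_union_left _ ha)
    simp only at h1 h2
    exact UpE.bR h (by omega) (by omega)
  bOut := fun a ha => by
    obtain ⟨y, h1, h2, rfl⟩ := UpE.sidesR (Finset.mem_union_right _ ha)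
    simp only at h1 h2
    exact UpE.bR h (by omega) (by omega)

/-- chart of the left wall at the mouth -/
def wL (h : S.Ok) {R : ℕ} (hR : R ≤ S.k) : WChart ZQ S.D 2 3 (S.x1, S.yc) R where
  φV := id
  φF := id
  cor := fun _ _ _ => rfl
  inj := fun _ _ _ _ _ _ he => he
  sub := fun f hf => by
    rw [mem_w23] at hf
    have hx := h.hx
    simp only at hf
    exact h.slab.sub f.1 f.2 (by omega) (by omega) (by omega) (by omega)
  bIn := fun a ha => by
    obtain ⟨y, h1, h2, rfl⟩ := UpE.sidesL (Finset.mem_union_left _ ha)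
    simp only at h1 h2
    exact UpE.bL h (by omega) (by omega)
  bOut := fun a ha => by
    obtain ⟨y, h1, h2, rfl⟩ := UpE.sidesL (Finset.mem_union_right _ ha)
    simp only at h1 h2
    exact UpE.bL h (by omega) (by omega)

/-- **the rings of the polygon at the mouths** -/
def wd (h : S.Ok) : Bool → WCell ZQ S.D DP
  | true =>
    { m := 2
      o := 1
      v := (S.x2, S.yc)
      R' := 4 * (S.k / 16) + 1
      c := wR h (nums h).2.2.2.1
      ρ := S.k / 16
      R := 4 * (S.k / 16)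
      cc := 0
      hm := ⟨by norm_num, by norm_num⟩
      h1 := by have := nums h; omega
      h2 := by omega
      h3 := by omega
      hD := fun _ _ => rfl }
  | false =>
    { m := 2
      o := 3
      v := (S.x1, S.yc)
      R' := 4 * (S.k / 16) + 1
      c := wL h (nums h).2.2.2.1
      ρ := S.k / 16
      R := 4 * (S.k / 16)
      cc := 0
      hm := ⟨by norm_num, by norm_num⟩
      h1 := by have := nums h; omega
      h2 := by omega
      h3 := by omega
      hD := fun _ _ => rfl }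

theorem wd_box (h : S.Ok) (s : Bool) (ρ : ℕ) : (wd h s).c.box ρ = Wb S s ρ := by
  cases s
  · show (Wdg 2 3 (S.x1, S.yc) ρ).image id = _
    rw [Finset.image_id]
    rfl
  · show (Wdg 2 1 (S.x2, S.yc) ρ).image id = _
    rw [Finset.image_id]
    rfl

theorem wd_xc (h : S.Ok) {s : Bool} {ω : ℤ × ℤ → Bool} (hb : (wd h s).blk ω) :
    Cell.Xc ZQ S.D (Wb S s (S.k / 16)) (Wb S s (4 * (S.k / 16))) ω = 0 := by
  have h1 := WCell.xc hb
  have e1 : (wd h s).ρ = S.k / 16 := by cases s <;> rfl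
  have e2 : (wd h s).R = 4 * (S.k / 16) := by cases s <;> rfl
  rw [wd_box, wd_box, e1, e2] at h1
  exact h1

theorem mem_wb {s : Bool} {ρ : ℕ} {f : ℤ × ℤ} (hf : f ∈ Wb S s ρ) :
    (if s then S.x2 - ρ ≤ f.1 ∧ f.1 < S.x2 else S.x1 ≤ f.1 ∧ f.1 < S.x1 + ρ) ∧
      S.yc - ρ ≤ f.2 ∧ f.2 < S.yc + ρ := by
  unfold Wb LwD.dv LwD.oS at hf
  cases s
  · simp only [Bool.false_eq_true, if_false] at hf ⊢
    rw [mem_w23] at hf
    simp only at hf
    omega
  · simp only [if_true] at hf ⊢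
    rw [mem_w21] at hf
    simp only at hf
    omega

/-- **A chart of `D` with its centre off the slab has its small box off the rings.** -/
theorem box_off (h : S.Ok) {m r : ℕ} {o : ZMod 4} {v : ℤ × ℤ} (hsub : Wdg m o v r ⊆ S.D)
    (h2 : 64 * r ≤ S.k)
    (hv : ¬ (S.x1 ≤ v.1 ∧ v.1 ≤ S.x2 ∧ S.yc - (S.k / 2 : ℕ) ≤ v.2 ∧ v.2 ≤ S.yc + (S.k / 2 : ℕ)))
    (s : Bool)
    {f : ℤ × ℤ} (hf : f ∈ Wb S s (4 * (S.k / 16))) : f ∉ Wdg m o v r := by
  intro hfw
  have n := nums h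
  have hx := h.hx
  have h1 := mem_wb hf
  have h3 : S.x1 ≤ f.1 ∧ f.1 < S.x2 := by
    cases s
    · simp only [Bool.false_eq_true, if_false] at h1
      push_cast at h1
      omega
    · simp only [if_true] at h1
      push_cast at h1
      omega
  have h4 : S.yc - S.k / 4 ≤ f.2 ∧ f.2 < S.yc + S.k / 4 := by
    have := h1.2
    push_cast at this
    omega
  have hb := WG.mem_Bx.1 (WG.mem_Wdg.1 hfw).1
  have hrow : S.yc - (S.k / 2 : ℕ) ≤ v.2 ∧ v.2 ≤ S.yc + (S.k / 2 : ℕ) := by omega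
  have hcol : v.1 < S.x1 ∨ S.x2 < v.1 := by omega
  have hq : ∀ g : ℤ × ℤ, quad v g = quad v f → g ∈ Bx v r → g ∈ S.D := by
    intro g h1 h2
    refine hsub (WG.mem_Wdg.2 ⟨h2, ?_⟩)
    rw [h1]
    exact (WG.mem_Wdg.1 hfw).2
  rcases hcol with hc | hc
  · refine h.slab.left f.2 (by omega) (by omega) (Finset.mem_coe.2 (hq (S.x1 - 1, f.2) ?_
      (WG.mem_Bx.2 ⟨⟨by simp only; omega, by simp only; omega⟩, by simp only; omega,
        by simp only; omega⟩)))
    unfold quad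
    simp only
    rw [if_pos (by omega : v.1 ≤ S.x1 - 1), if_pos (by omega : v.1 ≤ f.1)]
  · refine h.slab.right f.2 (by omega) (by omega) (Finset.mem_coe.2 (hq (S.x2, f.2) ?_
      (WG.mem_Bx.2 ⟨⟨by simp only; omega, by simp only; omega⟩, by simp only; omega,
        by simp only; omega⟩)))
    unfold quad
    simp only
    rw [if_neg (by omega : ¬ v.1 ≤ S.x2), if_neg (by omega : ¬ v.1 ≤ f.1)]

open Classical in
/-- **Both rings are blocked**: an extra event of positive probability. -/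
theorem wd_two : ∃ x₀ : ℝ, 0 < x₀ ∧ ∀ {S : Slb} (h : S.Ok)
    {Z C : Finset ((ℤ × ℤ) × (ℤ × ℤ))} {r nS nN : ℕ} {t₀ : ℝ}
    (A : PAtlas ZQ S.D S.ψ Z C r nS nN t₀), A.Flat → 64 * r ≤ S.k →
    (∀ i, ¬ (S.x1 ≤ (A.v i).1 ∧ (A.v i).1 ≤ S.x2 ∧ S.yc - (S.k / 2 : ℕ) ≤ (A.v i).2 ∧
      (A.v i).2 ≤ S.yc + (S.k / 2 : ℕ))) →
    Ext A DP (fun ω => (wd h true).blk ω ∧ (wd h false).blk ω) ∧
      x₀ ≤ av S.D (fun ω => if (wd h true).blk ω ∧ (wd h false).blk ω then (1 : ℝ) else 0) := by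
  obtain ⟨x₀, h0, hp⟩ := two_wedges
  refine ⟨x₀, h0, ?_⟩
  intro S h Z C r nS nN t₀ A hA hr hv
  have hbox : ∀ i, (A.ch i).box r = Wdg (A.m i) (A.o i) (A.v i) r := by
    intro i
    unfold WChart.box
    have : (A.ch i).φF = id := by
      funext f
      exact hA.sF i f
    rw [this, Finset.image_id]
  have hsub : ∀ i, Wdg (A.m i) (A.o i) (A.v i) r ⊆ S.D := by
    intro i
    rw [← hbox]
    exact Bk.wbox_F (A.ch i) (by omega)
  have key : ∀ (s : Bool) i, Disjoint ((wd h s).c.box (wd h s).R) ((A.ch i).box r) := by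
    intro s i
    have e2 : (wd h s).R = 4 * (S.k / 16) := by cases s <;> rfl
    rw [wd_box, e2, hbox, Finset.disjoint_left]
    exact fun f hf => box_off h (hsub i) hr (hv i) s hf
  exact hp A DP (wd h true) (wd h false) (key true) (key false)

attribute [local instance] Atlas.fκ Atlas.dκ

open Classical in
/-- **LOWER(D) with both rings**, positive weights. -/
theorem low_D2 (nS nN : ℕ) (t₀ : ℝ) (h0 : 0 < t₀) (h1 : t₀ ≤ 1) : ∃ c : ℝ, 0 < c ∧
    ∀ {S : Slb} (_ : S.Ok) {r : ℕ} (A : Atlas ZQ S.D S.ψ (bS ZQ S.D) r nS nN t₀),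
      A.toP.Flat → 0 < r → 64 * r ≤ S.k →
      (∀ i, ¬ (S.x1 ≤ (A.v i).1 ∧ (A.v i).1 ≤ S.x2 ∧ S.yc - (S.k / 2 : ℕ) ≤ (A.v i).2 ∧
        (A.v i).2 ≤ S.yc + (S.k / 2 : ℕ))) →
      (∀ i, t₀ ≤ sT (A.K i)) → (∀ ω, 0 ≤ WZ ZQ S.D S.ψ (bS ZQ S.D) ω) →
      c * FP r (St.pvts A.toP) ≤ av S.D (fun ω => WZ ZQ S.D S.ψ (bS ZQ S.D) ω *
        if RgD S (S.k / 16) (4 * (S.k / 16)) ω then (1 : ℝ) else 0) := by
  obtain ⟨x₀, hx₀, hx⟩ := wd_two
  obtain ⟨c, hc, hlow⟩ := atlas_lower_x nS nN t₀ x₀ h0 h1 hx₀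
  refine ⟨c, hc, ?_⟩
  intro S h r A hFl hr hk hv ht hpos
  obtain ⟨hE1, hE2⟩ := hx h A.toP hFl hk hv
  have e1 : ∏ i, sF (A.K i) (A.m i) r = FP r (St.pvts A.toP) := St.prod_vts A r
  rw [← e1]
  refine (hlow A DP (fun ω => (wd h true).blk ω ∧ (wd h false).blk ω) (colD A.toP) hE1
    (by convert hE2) hr ht hpos).trans (av_mono fun T _ => ?_)
  refine mul_le_mul_of_nonneg_left ?_ (hpos _)
  by_cases hb : (wd h true).blk (ind T) ∧ (wd h false).blk (ind T)
  · have : RgD S (S.k / 16) (4 * (S.k / 16)) (ind T) := by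
      intro s
      cases s
      · exact wd_xc h hb.2
      · exact wd_xc h hb.1
    rw [if_pos hb, if_pos this]
  · rw [if_neg hb]
    split_ifs <;> norm_num

end

end Pool.Agent.SixB.LowP
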