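import Pool.Agent.Lib.SixB.S3BoundsE
import Pool.Agent.Lib.SixB.S3UpLow

/-!
# SixB, step 3: abstract LOWER bound with a correlated factor

`lower_f`: as `UL.lower`, but the special vertices outside of `V₁` (weight `0`) enter by one factor `f` of a
region `R`, which need not be independent of the blocking event `g`: only `g₀ E f ≤ E[f g]` is assumed (Harris).
-/

set_option autoImplicit false
set_option linter.unusedVariables false

namespace Pool.Agent.SixB.UL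

open Finset Pool.Agent.SixB

/-- LOWER bound with a correlated factor -/
theorem lower_f (cM : ℝ → ℝ) (t₀ T A₀ : ℝ) (nV : ℕ) (q : ℝ) (cK : ℝ → ℝ) (cK' g₀ w : ℝ)
    (ht₀ : 0 < t₀) (ht₁ : t₀ ≤ 1) (hT : 1 ≤ T) (hq : 1 ≤ q) (hg₀ : 0 < g₀) (hw0 : 0 < w)
    (hw1 : w ≤ 1) :
    ∃ c C : ℝ, 0 < c ∧ 0 < C ∧ ∀ (Ω ι κ : Type) (P : ExpSys Ω ι) (D : ChainData P κ) (t : κ → ℝ),
      D.Good t cM t₀ T A₀ → ∀ (V V₁ : Finset κ), V.card ≤ nV → V₁.card ≤ nV →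
      ∀ (K K' : Ω → ℕ) (W good g f : Ω → ℝ) (S R : Set ι),
      Loc P D t V q cK K W →
      (∀ ω, good ω = 0 ∨ good ω = 1) → (∀ v ∈ V, P.Dep (D.B v 1)ᶜ good) →
      (∀ ω, g ω = 0 ∨ g ω = 1) → P.Dep S g → (∀ v ∈ V₁, Disjoint S (D.B v 0)) →
      P.Dep R f → (∀ ω, 0 ≤ f ω) → (∀ v ∈ V₁, Disjoint R (D.B v 0)) →
      g₀ * P.E f ≤ P.E (fun ω => f ω * g ω) →
      (∀ ω, f ω * ∏ v ∈ V₁, t v ^ D.N v 0 ω ≤ ∏ v ∈ V, t v ^ D.N v 0 ω) →
      P.Dep Rᶜ K' → (∀ v ∈ V₁, P.Dep (D.B v 1)ᶜ K') → P.E (fun ω => 2 ^ K' ω) ≤ cK' →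
      (∀ ω, good ω = 1 → 0 ≤ W ω) →
      (∀ ω, good ω = 1 → g ω = 1 → f ω * ((∏ v ∈ V₁, t v ^ D.N v 0 ω) * w ^ K' ω) ≤ W ω) →
      c * (P.E f * ∏ v ∈ V₁, D.F v (t v) 0) -
        C * Real.sqrt (1 - P.E good) * ∏ v ∈ V, D.F v (t v) 0 ≤ P.E W := by
  classical
  obtain ⟨C₁, hC₁, hup₁⟩ := qm_upper cM t₀ T A₀ ht₀ ht₁ hT
  obtain ⟨C₂, hC₂, hup₂⟩ := up_event cM t₀ T A₀ 1 nV q cK ht₀ ht₁ hT hq
  have hC₁0 : 0 < C₁ := by linarith
  obtain ⟨n, hn⟩ : ∃ n : ℕ, C₁ ^ nV * Real.sqrt (cK' * ((2 : ℝ) ^ n)⁻¹) ≤ g₀ / 2 := by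
    have hCn : 0 < C₁ ^ nV := by positivity
    obtain ⟨n, hn⟩ := pow_unbounded_of_one_lt (cK' / (g₀ / 2 / C₁ ^ nV) ^ 2)
      (show (1 : ℝ) < 2 by norm_num)
    refine ⟨n, ?_⟩
    have h1 : cK' * ((2 : ℝ) ^ n)⁻¹ ≤ (g₀ / 2 / C₁ ^ nV) ^ 2 := by
      rw [div_lt_iff₀ (by positivity)] at hn
      rw [← div_eq_mul_inv, div_le_iff₀ (by positivity)]
      linarith
    have h2 : Real.sqrt (cK' * ((2 : ℝ) ^ n)⁻¹) ≤ g₀ / 2 / C₁ ^ nV :=
      Real.sqrt_le_iff.2 ⟨by positivity, h1⟩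
    calc C₁ ^ nV * Real.sqrt (cK' * ((2 : ℝ) ^ n)⁻¹) ≤ C₁ ^ nV * (g₀ / 2 / C₁ ^ nV) :=
          mul_le_mul_of_nonneg_left h2 hCn.le
      _ = g₀ / 2 := by field_simp
  refine ⟨w ^ n * (g₀ / 2), C₁ ^ nV + C₂, by positivity, by positivity, ?_⟩
  intro Ω ι κ P D t hG V V₁ hV hV₁ K K' W good g f S R hL hgood hgd hg hgdS hSB hfd hf0 hRB hfg
    hfV hKR hK' hcK' hpos hlow
  have hF0 := prodF_nonneg (D := D) hG.t_nonneg V
  have hF1 := prodF_nonneg (D := D) hG.t_nonneg V₁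
  have hfE : 0 ≤ P.E f := P.E_nonneg hf0
  have hprod : ∀ ω, 0 ≤ ∏ v ∈ V, t v ^ D.N v 0 ω := fun ω =>
    Finset.prod_nonneg fun v _ => pow_nonneg (hG.t_nonneg v) _
  have hprod1 : ∀ ω, 0 ≤ ∏ v ∈ V₁, t v ^ D.N v 0 ω := fun ω =>
    Finset.prod_nonneg fun v _ => pow_nonneg (hG.t_nonneg v) _
  have hg0 : ∀ ω, 0 ≤ g ω := fun ω => by rcases hg ω with h | h <;> rw [h]; norm_num
  have hg1 : ∀ ω, g ω ≤ 1 := fun ω => by rcases hg ω with h | h <;> rw [h]; norm_num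
  -- the bad event
  set bad : Ω → ℝ := fun ω => 1 - good ω with hbad
  have hbad01 : ∀ ω, bad ω = 0 ∨ bad ω = 1 := by
    intro ω
    rcases hgood ω with h | h
    · exact Or.inr (by simp only [hbad]; rw [h]; norm_num)
    · exact Or.inl (by simp only [hbad]; rw [h]; norm_num)
  have hbad0 : ∀ ω, 0 ≤ bad ω := fun ω => by rcases hbad01 ω with h | h <;> rw [h]; norm_num
  have hbadE : P.E bad = 1 - P.E good := by
    have h1 := P.E_sub (fun _ => 1) good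
    rw [P.E_const] at h1
    exact h1
  have hbadd : ∀ v ∈ V, P.Dep (D.B v 1)ᶜ bad := fun v hv => (hgd v hv).comp fun x => 1 - x
  have h2 : P.E (fun ω => (∏ v ∈ V, t v ^ D.N v 0 ω) * bad ω) ≤
      C₁ ^ nV * Real.sqrt (1 - P.E good) * ∏ v ∈ V, D.F v (t v) 0 := by
    have h3 := hup₁ Ω ι κ P D t hG V bad hbad0 hbadd
    have e : (fun ω => bad ω ^ 2) = bad := by
      funext ω
      rcases hbad01 ω with h | h <;> rw [h] <;> norm_num
    rw [e, hbadE] at h3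
    refine h3.trans ?_
    calc C₁ ^ V.card * (∏ v ∈ V, D.F v (t v) 0) * Real.sqrt (1 - P.E good)
        ≤ C₁ ^ nV * (∏ v ∈ V, D.F v (t v) 0) * Real.sqrt (1 - P.E good) :=
          mul_le_mul_of_nonneg_right
            (mul_le_mul_of_nonneg_right (pow_le_pow_right₀ hC₁ hV) hF0) (Real.sqrt_nonneg _)
      _ = _ := by ring
  have h3 : P.E (fun ω => |W ω| * bad ω) ≤
      C₂ * Real.sqrt (1 - P.E good) * ∏ v ∈ V, D.F v (t v) 0 := by
    have h4 := hup₂ Ω ι κ P D t hG V hV K W bad hL hbad01 hbadd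
    have e : (1 - (1 / 2 : ℝ) ^ 1) = 1 / 2 := by norm_num
    rw [e, hbadE, ← Real.sqrt_eq_rpow] at h4
    exact h4
  -- the main term
  set k1 : Ω → ℝ := fun ω => if n < K' ω then 1 else 0 with hk1
  have hk10 : ∀ ω, 0 ≤ k1 ω := fun ω => by
    simp only [hk1]
    split_ifs <;> norm_num
  have hk1d : ∀ v ∈ V₁, P.Dep (D.B v 1)ᶜ k1 := fun v hv =>
    (hK' v hv).comp fun k => if n < k then (1 : ℝ) else 0
  set X : Ω → ℝ := fun ω => f ω * ((∏ v ∈ V₁, t v ^ D.N v 0 ω) * (w ^ K' ω * g ω)) with hX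
  have hXpt : ∀ ω, w ^ n * (f ω * ((∏ v ∈ V₁, t v ^ D.N v 0 ω) * g ω) -
      f ω * ((∏ v ∈ V₁, t v ^ D.N v 0 ω) * k1 ω)) ≤ X ω := by
    intro ω
    have h3 : w ^ n * (g ω - k1 ω) ≤ w ^ K' ω * g ω := by
      simp only [hk1]
      split_ifs with hk
      · have h5 : w ^ n * (g ω - 1) ≤ 0 :=
          mul_nonpos_of_nonneg_of_nonpos (pow_nonneg hw0.le _) (by linarith [hg1 ω])
        exact h5.trans (mul_nonneg (pow_nonneg hw0.le _) (hg0 ω))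
      · rw [sub_zero]
        exact mul_le_mul_of_nonneg_right (pow_le_pow_of_le_one hw0.le hw1 (by omega)) (hg0 ω)
    have h4 := mul_le_mul_of_nonneg_left h3 (mul_nonneg (hf0 ω) (hprod1 ω))
    simp only [hX]
    nlinarith
  have hgk : P.E (fun ω => f ω * ((∏ v ∈ V₁, t v ^ D.N v 0 ω) * g ω)) =
      (∏ v ∈ V₁, D.F v (t v) 0) * P.E (fun ω => f ω * g ω) := by
    have e : (fun ω => f ω * ((∏ v ∈ V₁, t v ^ D.N v 0 ω) * g ω)) =
        fun ω => (∏ v ∈ V₁, t v ^ D.N v 0 ω) * (f ω * g ω) := by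
      funext ω
      ring
    rw [e]
    exact own_prod P (fun v => D.B v 0) D.hdis (fun v ω => t v ^ D.N v 0 ω) V₁
      (fun v _ => (D.hN v 0).comp fun n => t v ^ n) (fun ω => f ω * g ω) (R ∪ S)
      ((hfd.mono Set.subset_union_left).comp2 (hgdS.mono Set.subset_union_right)
        fun x y : ℝ => x * y)
      (fun v hv => Set.disjoint_union_left.2 ⟨hRB v hv, hSB v hv⟩)
  have hkk : P.E (fun ω => f ω * ((∏ v ∈ V₁, t v ^ D.N v 0 ω) * k1 ω)) =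
      P.E f * P.E (fun ω => (∏ v ∈ V₁, t v ^ D.N v 0 ω) * k1 ω) := by
    have hd1 : P.Dep Rᶜ (fun ω => (∏ v ∈ V₁, t v ^ D.N v 0 ω) * k1 ω) := by
      refine ExpSys.Dep.comp2 (ExpSys.Dep.prod _ _ fun v hv => ?_)
        (hKR.comp fun k => if n < k then (1 : ℝ) else 0) fun x y : ℝ => x * y
      have h2 : P.Dep Rᶜ (D.N v 0) := by
        refine (D.hN v 0).mono ?_
        intro y hy hy'
        exact Set.disjoint_left.1 (hRB v hv) hy' hy
      exact h2.comp fun n => t v ^ n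
    exact P.E_indep disjoint_compl_right hfd hd1
  have hk2 : P.E (fun ω => (∏ v ∈ V₁, t v ^ D.N v 0 ω) * k1 ω) ≤
      (g₀ / 2) * ∏ v ∈ V₁, D.F v (t v) 0 := by
    have h1 := hup₁ Ω ι κ P D t hG V₁ k1 hk10 hk1d
    have e1 : (fun ω => k1 ω ^ 2) = k1 := by
      funext ω
      simp only [hk1]
      split_ifs <;> norm_num
    rw [e1] at h1
    have h4 : P.E k1 ≤ cK' * ((2 : ℝ) ^ n)⁻¹ := by
      have h5 := trunc_le P K' 1 2 cK' le_rfl (by norm_num) 0 (by simpa using hcK') n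
      simpa [hk1] using h5
    have h5 : C₁ ^ V₁.card * Real.sqrt (P.E k1) ≤ g₀ / 2 := by
      refine le_trans ?_ hn
      exact mul_le_mul (pow_le_pow_right₀ hC₁ hV₁) (Real.sqrt_le_sqrt h4) (Real.sqrt_nonneg _)
        (by positivity)
    refine h1.trans ?_
    calc C₁ ^ V₁.card * (∏ v ∈ V₁, D.F v (t v) 0) * Real.sqrt (P.E k1)
        = (C₁ ^ V₁.card * Real.sqrt (P.E k1)) * ∏ v ∈ V₁, D.F v (t v) 0 := by ring
      _ ≤ _ := mul_le_mul_of_nonneg_right h5 hF1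
  have hmain : w ^ n * (g₀ / 2) * (P.E f * ∏ v ∈ V₁, D.F v (t v) 0) ≤ P.E X := by
    have h1 := P.mono _ _ hXpt
    rw [P.smul, P.E_sub, hgk, hkk] at h1
    refine le_trans ?_ h1
    rw [mul_assoc]
    refine mul_le_mul_of_nonneg_left ?_ (pow_nonneg hw0.le _)
    have h4 : (∏ v ∈ V₁, D.F v (t v) 0) * (g₀ * P.E f) ≤
        (∏ v ∈ V₁, D.F v (t v) 0) * P.E (fun ω => f ω * g ω) :=
      mul_le_mul_of_nonneg_left hfg hF1
    have h5 := mul_le_mul_of_nonneg_left hk2 hfE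
    nlinarith
  have h5 : P.E (fun ω => X ω - ((∏ v ∈ V, t v ^ D.N v 0 ω) * bad ω + |W ω| * bad ω)) ≤ P.E W := by
    refine P.mono _ _ fun ω => ?_
    have hw : w ^ K' ω ≤ 1 := pow_le_one₀ hw0.le hw1
    have hw2 : 0 ≤ w ^ K' ω := pow_nonneg hw0.le _
    rcases hgood ω with h | h
    · have hb : bad ω = 1 := by simp only [hbad]; rw [h]; norm_num
      rw [hb]
      have h6 : X ω ≤ ∏ v ∈ V, t v ^ D.N v 0 ω := by
        simp only [hX]
        refine le_trans ?_ (hfV ω)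
        refine mul_le_mul_of_nonneg_left ?_ (hf0 ω)
        refine mul_le_of_le_one_right (hprod1 ω) ?_
        exact mul_le_one₀ hw (hg0 ω) (hg1 ω)
      have h7 := neg_abs_le (W ω)
      linarith
    · have hb : bad ω = 0 := by simp only [hbad]; rw [h]; norm_num
      rw [hb]
      simp only [mul_zero, add_zero, sub_zero]
      rcases hg ω with h6 | h6
      · simp only [hX]
        rw [h6, mul_zero, mul_zero, mul_zero]
        exact hpos ω h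
      · simp only [hX]
        rw [h6, mul_one]
        exact hlow ω h h6
  have h6 : P.E (fun ω => X ω - ((∏ v ∈ V, t v ^ D.N v 0 ω) * bad ω + |W ω| * bad ω)) =
      P.E X - (P.E (fun ω => (∏ v ∈ V, t v ^ D.N v 0 ω) * bad ω) +
        P.E (fun ω => |W ω| * bad ω)) := by
    rw [P.E_sub, P.add]
  rw [h6] at h5
  calc w ^ n * (g₀ / 2) * (P.E f * ∏ v ∈ V₁, D.F v (t v) 0) -
        (C₁ ^ nV + C₂) * Real.sqrt (1 - P.E good) * ∏ v ∈ V, D.F v (t v) 0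
      = w ^ n * (g₀ / 2) * (P.E f * ∏ v ∈ V₁, D.F v (t v) 0) -
          (C₁ ^ nV * Real.sqrt (1 - P.E good) * (∏ v ∈ V, D.F v (t v) 0) +
          C₂ * Real.sqrt (1 - P.E good) * ∏ v ∈ V, D.F v (t v) 0) := by ring
    _ ≤ P.E X - (P.E (fun ω => (∏ v ∈ V, t v ^ D.N v 0 ω) * bad ω) +
        P.E (fun ω => |W ω| * bad ω)) := sub_le_sub hmain (add_le_add h2 h3)
    _ ≤ P.E W := h5

end Pool.Agent.SixB.UL
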