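import Pool.Agent.Lib.SixB.S3MouthF
import Pool.Agent.Lib.SixB.S3Chart
import Pool.Agent.Lib.SixB.S3Cell
import Pool.Agent.Lib.SixB.S6LPerc
import Pool.Agent.Lib.SixB.A1Final
import Pool.Agent.Lib.SixB.A2Final

/-!
# SixB, step 3.8: crossings between the boxes of a planar chart

`KM P φ v ρ`: the faces of the planar chart `P` in the box of radius `ρ` around `v`, in the surface.
* `KM_sep`: boxes of different radii have no common boundary (field `sep` of `MScale`);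
* `Xn_le_NF`: the number `Xn` of the crossing strands of two boxes is at most `NF`;
* `dep_Xn`: `Xn` depends only on the faces between the boxes;
* `badE`: the indicator of the complement of the event of `nW_scale`; `dep_badE`, `badE_bound`: its
  mean is at most `C N / 4 ^ N`, if the boxes are half planes and the radii are `h 2 ^ k`.
-/

set_option autoImplicit false
set_option linter.unusedSectionVars false

namespace Pool.Agent.SixB

open Pool.Agent.Perc Pool.Agent.PercD Pool.Agent.PercN Pool.Agent.Perc.Q Relation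
open Pool.Agent.SixB.Rel (QChart QMap)
open Pool.Agent.SixB.PC Pool.Agent.SixB.Tilt

noncomputable section

variable {V Φ : Type} [DecidableEq V] [DecidableEq Φ]
variable {Q : QC V Φ} {F F₁ : Finset Φ} {v : ℤ × ℤ} {r ρ ρ' : ℤ} {P : Finset (ℤ × ℤ)}
  {ν : ℤ × ℤ → V} {φ : ℤ × ℤ → Φ} {ω : Φ → Bool}

/-- the box of radius `ρ` of a planar chart -/
def KM (P : Finset (ℤ × ℤ)) (φ : ℤ × ℤ → Φ) (v : ℤ × ℤ) (ρ : ℤ) : Finset Φ := (P ∩ BR v ρ).image φ

theorem mem_KM {f : Φ} : f ∈ KM P φ v ρ ↔ ∃ g ∈ P, g ∈ BR v ρ ∧ φ g = f := by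
  unfold KM
  rw [Finset.mem_image]
  constructor
  · rintro ⟨g, hg, rfl⟩
    exact ⟨g, (Finset.mem_inter.mp hg).1, (Finset.mem_inter.mp hg).2, rfl⟩
  · rintro ⟨g, h1, h2, rfl⟩
    exact ⟨g, Finset.mem_inter.mpr ⟨h1, h2⟩, rfl⟩

theorem KM_mono (h : ρ ≤ ρ') : KM P φ v ρ ⊆ KM P φ v ρ' :=
  Finset.image_subset_image (Finset.inter_subset_inter_left (Sub.refl' h).subset)

theorem KM_sub (C : PC.PChart Q F₁ v r P ν φ) : KM P φ v ρ ⊆ F₁ :=
  (Finset.image_subset_image Finset.inter_subset_left).trans C.sub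

/-- the planar face on the other side -/
theorem across (f : ℤ × ℤ) (k : ZMod 4) : ∃ (g : ℤ × ℤ) (l : ZMod 4), (sd ZQ f k).swap = sd ZQ g l := by
  obtain ⟨x, y⟩ := f
  rcases k4 k with rfl | rfl | rfl | rfl
  · refine ⟨(x, y - 1), 2, ?_⟩
    show ((x + 1, y), (x, y)) = ((x + 1, y - 1 + 1), (x, y - 1 + 1))
    rw [sub_add_cancel]
  · exact ⟨(x + 1, y), 3, rfl⟩
  · exact ⟨(x, y + 1), 0, rfl⟩
  · refine ⟨(x - 1, y), 1, ?_⟩
    show ((x, y), (x, y + 1)) = ((x - 1 + 1, y), (x - 1 + 1, y + 1))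
    rw [sub_add_cancel]

theorem across' {f : ℤ × ℤ} (hf : f ∈ P) (k : ZMod 4) :
    ∃ g : ℤ × ℤ, IsSide g (und (sd ZQ f k)) ∧ (g ∉ P → sd ZQ f k ∈ bS ZQ P) ∧
      (QChart ZQ Q P ν φ 0 → g ∈ P → ∀ S : Finset Φ, φ f ∉ S → φ g ∉ S →
        mv ν (sd ZQ f k) ∉ dE Q S) := by
  obtain ⟨g, l, h⟩ := across f k
  refine ⟨g, ?_, ?_, ?_⟩
  · have h1 : und (sd ZQ f k) = und (sd ZQ g l) := by
      rw [← h, und_swap (sd_mem hf k)]
    rw [h1, und_sd]
    exact su_isSide g l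
  · intro hg
    refine mem_bS.mpr ⟨sd_mem hf k, ?_⟩
    intro f' hf' k' he
    have he' : sd ZQ f k = (sd ZQ f' k').swap := he
    have h2 : sd ZQ f' k' = sd ZQ g l := by
      rw [← h, he', Prod.swap_swap]
    exact hg ((sd_inj h2).1 ▸ (by exact_mod_cast hf'))
  · intro H hg S h1 h2 h3
    have H' := toMap H (fun _ => false)
    obtain ⟨f', hf', k', h4⟩ := mem_dE.mp h3
    have e1 : mv ν (sd ZQ f k) = sd Q (φ f) k := by
      have := H'.sd_eq hf k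
      rw [add_zero] at this
      exact this.symm
    have e2 : mv ν (sd ZQ g l) = sd Q (φ g) l := by
      have := H'.sd_eq hg l
      rw [add_zero] at this
      exact this.symm
    rcases h4 with h4 | h4
    · rw [e1] at h4
      exact h1 ((sd_inj h4).1 ▸ hf')
    · have h5 : sd Q (φ g) l = sd Q f' k' := by
        rw [← e2, ← h, mv_swap, h4, Prod.swap_swap]
      exact h2 ((sd_inj h5).1 ▸ hf')

theorem in_of_side {g : ℤ × ℤ} {c : UE} (hs : IsSide g c) (h1 : InE v ρ c) (h2 : ¬ BdR v ρ c) :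
    g ∈ BR v ρ := by
  by_contra h
  exact h2 (bd_of_side h1 hs (by rwa [Finset.mem_coe]))

theorem sd_InE {f : ℤ × ℤ} (hf : f ∈ BR v ρ) (k : ZMod 4) : InE v ρ (und (sd ZQ f k)) := by
  rw [und_sd]
  exact inE_of_side (by rwa [Finset.mem_coe]) (su_isSide f k)

/-- a side of a face of the chart which is inside the box is not a side of the other faces -/
theorem PCsep (C : PC.PChart Q F₁ v r P ν φ) (hr : ρ ≤ r) {f : ℤ × ℤ} (hf : f ∈ P) (hfB : f ∈ BR v ρ)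
    (k : ZMod 4) (hb : ¬ BdR v ρ (und (sd ZQ f k))) :
    mv ν (sd ZQ f k) ∉ dE Q (F₁ \ KM P φ v ρ) := by
  obtain ⟨g, h1, h2, h3⟩ := across' (Q := Q) (ν := ν) (φ := φ) hf k
  have hI := sd_InE hfB k
  have hg := in_of_side h1 hI hb
  have hfK : φ f ∈ KM P φ v ρ := mem_KM.mpr ⟨f, hf, hfB, rfl⟩
  by_cases hgP : g ∈ P
  · refine h3 C.chart hgP _ ?_ ?_
    · rw [Finset.mem_sdiff]
      push Not
      intro _
      exact hfK
    · rw [Finset.mem_sdiff]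
      push Not
      intro _
      exact mem_KM.mpr ⟨g, hgP, hg, rfl⟩
  · have h4 := h2 hgP
    have h5 : ¬ BdR v r (und (sd ZQ f k)) := by
      rcases hr.lt_or_eq with h | h
      · exact not_bdR_of_inE h hI
      · rwa [← h]
    have h6 := C.bS_F h4 h5
    refine not_dE_of_bS (KM_sub C) h6 ?_
    have H' := toMap C.chart (fun _ => false)
    have e1 := H'.sd_eq hf k
    rw [add_zero] at e1
    exact mem_dE.mpr ⟨φ f, hfK, k, Or.inl e1.symm⟩

theorem mem_dE_KM {b : V × V} (C : QChart ZQ Q P ν φ 0)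
    (hb : b ∈ dE Q (KM P φ v ρ)) :
    ∃ f ∈ P, f ∈ BR v ρ ∧ ∃ k, b = mv ν (sd ZQ f k) ∨ b = (mv ν (sd ZQ f k)).swap := by
  have H' := toMap C (fun _ => false)
  obtain ⟨f', hf', k, h⟩ := mem_dE.mp hb
  obtain ⟨f, h1, h2, rfl⟩ := mem_KM.mp hf'
  have e1 := H'.sd_eq h1 k
  rw [add_zero] at e1
  refine ⟨f, h1, h2, k, ?_⟩
  rcases h with h | h
  · left
    rw [h, e1]
    rfl
  · right
    rw [h, e1]
    rfl

/-- **Boxes of different radii.** -/
theorem KM_sep (C : PC.PChart Q F₁ v r P ν φ) (h1 : ρ < ρ') (h2 : ρ' ≤ r) {b : V × V}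
    (hb : b ∈ dE Q (KM P φ v ρ)) : b ∉ dE Q (F₁ \ KM P φ v ρ') := by
  obtain ⟨f, hf, hfB, k, h⟩ := mem_dE_KM C.chart hb
  have key := PCsep C h2 hf ((Sub.refl' h1.le).subset hfB) k (not_bdR_of_inE h1 (sd_InE hfB k))
  rcases h with rfl | rfl
  · exact key
  · intro h3
    exact key (swap_mem_dE.mp h3)

theorem KM_sdiff (C : QChart ZQ Q P ν φ 0) :
    KM P φ v ρ' \ KM P φ v ρ = ((P ∩ BR v ρ') \ (P ∩ BR v ρ)).image φ := by
  ext f
  rw [Finset.mem_sdiff, Finset.mem_image]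
  constructor
  · rintro ⟨h1, h2⟩
    obtain ⟨g, hg, hgB, rfl⟩ := mem_KM.mp h1
    refine ⟨g, Finset.mem_sdiff.mpr ⟨Finset.mem_inter.mpr ⟨hg, hgB⟩, ?_⟩, rfl⟩
    intro h3
    exact h2 (mem_KM.mpr ⟨g, hg, (Finset.mem_inter.mp h3).2, rfl⟩)
  · rintro ⟨g, hg, rfl⟩
    obtain ⟨h1, h2⟩ := Finset.mem_sdiff.mp hg
    obtain ⟨h3, h4⟩ := Finset.mem_inter.mp h1
    refine ⟨mem_KM.mpr ⟨g, h3, h4, rfl⟩, ?_⟩
    intro h5
    obtain ⟨g', h6, h7, h8⟩ := mem_KM.mp h5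
    have h9 : g' = g := C.injOn (Finset.mem_coe.mpr h6) (Finset.mem_coe.mpr h3) h8
    exact h2 (Finset.mem_inter.mpr ⟨h3, h9 ▸ h7⟩)

theorem An_eq : (((P ∩ BR v ρ') \ (P ∩ BR v ρ) : Finset (ℤ × ℤ)) : Set (ℤ × ℤ)) =
    (P : Set (ℤ × ℤ)) ∩ (An v ρ ρ' : Set (ℤ × ℤ)) := by
  ext f
  rw [Finset.mem_coe, Finset.mem_sdiff, Finset.mem_inter, Finset.mem_inter, Set.mem_inter_iff,
    Finset.mem_coe, Finset.mem_coe, mem_An]
  tauto

/-- **Crossing strands of the surface and crossings of the annulus.** -/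
theorem Xn_le_NF (C : PC.PChart Q F₁ v r P ν φ) (h0 : 0 ≤ ρ) (h2 : ρ' ≤ r) (ω : Φ → Bool) :
    Xn Q F₁ (KM P φ v ρ) (KM P φ v ρ') ω ≤ NF (P : Set (ℤ × ℤ)) v ρ ρ' (pb φ ω) := by
  classical
  set L := (P ∩ BR v ρ') \ (P ∩ BR v ρ) with hL
  have hLP : L ⊆ P := Finset.sdiff_subset.trans Finset.inter_subset_left
  have HL := C.chart.mono hLP
  have key : ∀ y ∈ XS Q F₁ (KM P φ v ρ) (KM P φ v ρ') ω, ∃ x ∈ bS ZQ L, mv ν x = y ∧
      BdR v ρ' (und x) ∧ BdR v ρ (und (mate ZQ L (pb φ ω) x)) := by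
    intro y hy
    obtain ⟨hy1, hy2, hy3⟩ := mem_XS.mp hy
    rw [KM_sdiff C.chart, ← hL] at hy1 hy3
    rw [bS_map HL] at hy1
    obtain ⟨x, hx, rfl⟩ := Finset.mem_image.mp hy1
    refine ⟨x, hx, rfl, ?_, ?_⟩
    · by_contra hb
      obtain ⟨f, hf, k, rfl⟩ := bS_sd hx
      have hf1 := (Finset.mem_sdiff.mp hf).1
      exact PCsep C h2 (hLP hf) (Finset.mem_inter.mp hf1).2 k hb hy2
    · rw [mate_map HL hx] at hy3
      obtain ⟨f, hf, hfB, k, h⟩ := mem_dE_KM C.chart hy3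
      have hx' := mate_mem (ω := pb φ ω) hx
      set x' := mate ZQ L (pb φ ω) x with hx'd
      have h3 : x' ∈ dE ZQ P := Rel.dE_mono hLP (mem_bS.mp hx').1
      have h4 : und x' = und (sd ZQ f k) := by
        rcases h with h | h
        · rw [mv_inj C.chart h3 (sd_mem hf k) h]
        · rw [← mv_swap] at h
          rw [mv_inj C.chart h3 (swap_mem_dE.mpr (sd_mem hf k)) h, und_swap (sd_mem hf k)]
      obtain ⟨g, hg, l, hgl⟩ := bS_sd hx'
      rw [h4]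
      refine bd_of_side (sd_InE hfB k) (f := g) ?_ ?_
      · rw [← h4, hgl, und_sd]
        exact su_isSide g l
      · rw [Finset.mem_coe]
        intro hgB
        exact (Finset.mem_sdiff.mp hg).2 (Finset.mem_inter.mpr ⟨hLP hg, hgB⟩)
  choose! p hp1 hp2 hp3 hp4 using key
  unfold Xn NF
  refine Finset.card_le_card_of_injOn (fun y => und (mate ZQ L (pb φ ω) (p y))) ?_ ?_
  · intro y hy
    rw [Finset.mem_coe] at hy
    rw [Finset.mem_coe, Finset.mem_filter]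
    refine ⟨((hp4 y hy).inE h0).mem_UB, hp4 y hy, und (p y), ?_, hp3 y hy⟩
    have h3 := mate_MM (mate_mem (ω := pb φ ω) (hp1 y hy)) (pb φ ω)
    rw [mate_mate (hp1 y hy), hL, An_eq] at h3
    exact h3
  · intro y hy y' hy' h
    rw [Finset.mem_coe] at hy hy'
    have h3 := und_bS_inj (mate_mem (ω := pb φ ω) (hp1 y hy)) (mate_mem (ω := pb φ ω) (hp1 y' hy')) h
    have h4 : p y = p y' := by
      rw [← mate_mate (ω := pb φ ω) (hp1 y hy), h3, mate_mate (hp1 y' hy')]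
    rw [← hp2 y hy, h4, hp2 y' hy']

/-! ## Dependence -/

theorem XS_congr {G₀ G₁ : Finset Φ} {ω ω' : Φ → Bool} (h : ∀ f ∈ G₁ \ G₀, ω f = ω' f) :
    XS Q F₁ G₀ G₁ ω = XS Q F₁ G₀ G₁ ω' := by
  ext y
  rw [mem_XS, mem_XS, Cell.mate_congr h]

theorem Xn_congr {G₀ G₁ : Finset Φ} {ω ω' : Φ → Bool} (h : ∀ f ∈ G₁ \ G₀, ω f = ω' f) :
    Xn Q F₁ G₀ G₁ ω = Xn Q F₁ G₀ G₁ ω' := by
  unfold Xn
  rw [XS_congr h]

theorem dep_Xn (G₀ G₁ : Finset Φ) : Dep ((G₁ \ G₀ : Finset Φ) : Set Φ) (Xn Q F₁ G₀ G₁) :=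
  fun _ _ h => Xn_congr fun f hf => h f (by rwa [Finset.mem_coe])

/-! ## The bad event -/

section Bad

variable {ι : Type} {K : ι → ℕ → Finset Φ} {N : ℕ}

open Classical in
/-- the indicator of the complement of the event of `nW_scale` -/
def badE (Q : QC V Φ) (F₁ : Finset Φ) (K : ι → ℕ → Finset Φ) (N : ℕ) (ω : Φ → Bool) : ℝ :=
  if (∀ i, Sc Q F₁ (K i) N ω) ∧
    (∀ i j, i ≠ j → Xn Q F₁ (K i 0) (K i N) ω = 0 ∨ Xn Q F₁ (K j 0) (K j N) ω = 0) then 0 else 1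

theorem badE_zero (h : badE Q F₁ K N ω = 0) : (∀ i, Sc Q F₁ (K i) N ω) ∧
    (∀ i j, i ≠ j → Xn Q F₁ (K i 0) (K i N) ω = 0 ∨ Xn Q F₁ (K j 0) (K j N) ω = 0) := by
  classical
  unfold badE at h
  by_contra h1
  rw [if_neg h1] at h
  exact one_ne_zero h

theorem badE_01 (ω : Φ → Bool) : badE Q F₁ K N ω = 0 ∨ badE Q F₁ K N ω = 1 := by
  classical
  unfold badE
  split_ifs
  · exact Or.inl rfl
  · exact Or.inr rfl

theorem dep_badE (hK : ∀ i k l, k ≤ l → K i k ⊆ K i l) :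
    Dep (⋃ i, ((K i N : Finset Φ) : Set Φ)) (badE Q F₁ K N) := by
  classical
  intro ω ω' h
  have hX : ∀ (i : ι) (k l : ℕ), l ≤ N → Xn Q F₁ (K i k) (K i l) ω = Xn Q F₁ (K i k) (K i l) ω' := by
    intro i k l hl
    refine Xn_congr fun f hf => h f ?_
    rw [Set.mem_iUnion]
    exact ⟨i, by exact_mod_cast hK i l N hl (Finset.mem_sdiff.mp hf).1⟩
  have hS : ∀ i, Sc Q F₁ (K i) N ω ↔ Sc Q F₁ (K i) N ω' := by
    intro i
    unfold Sc
    refine exists_congr fun k => and_congr_right fun _ => and_congr_right fun hk => ?_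
    rw [hX i 0 k hk.le, hX i k N le_rfl]
  unfold badE
  simp only [hS, fun i => hX i 0 N le_rfl]

end Bad

theorem av_pb {W : Finset Φ} (H : QChart ZQ Q P ν φ 0) (hW : P.image φ ⊆ W) {g : Cfg → ℝ}
    (hg : Dep (P : Set (ℤ × ℤ)) g) : av W (fun ω => g (pb φ ω)) = av P g := by
  rw [← av_image H.injOn hg]
  refine av_dep ?_ hW
  intro ω ω' hω
  exact hg _ _ fun f hf => hω _ (by
    rw [Finset.mem_coe]
    exact Finset.mem_image_of_mem _ (by exact_mod_cast hf))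

open Classical in
/-- the mean of an event of the crossings of an annulus -/
theorem av_NF {W : Finset Φ} (H : QChart ZQ Q P ν φ 0) (hW : P.image φ ⊆ W) (A : ℕ → Prop) :
    av W (fun ω => if A (NF (P : Set (ℤ × ℤ)) v ρ ρ' (pb φ ω)) then 1 else 0) =
      pr (BR v ρ') {ω | A (NF (P : Set (ℤ × ℤ)) v ρ ρ' ω)} := by
  have hd := depN_NF (P : Set (ℤ × ℤ)) v ρ ρ'
  have h1 : Dep (P : Set (ℤ × ℤ)) (fun ω : Cfg => if A (NF (P : Set (ℤ × ℤ)) v ρ ρ' ω) then (1 : ℝ) else 0) := by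
    intro ω ω' h
    beta_reduce
    rw [hd ω ω' fun f hf => h f hf.1]
  rw [av_pb H hW (g := fun ω : Cfg => if A (NF (P : Set (ℤ × ℤ)) v ρ ρ' ω) then (1 : ℝ) else 0) h1]
  have h2 : DepOn ((P ∩ BR v ρ' : Finset (ℤ × ℤ)) : Set (ℤ × ℤ)) {ω | A (NF (P : Set (ℤ × ℤ)) v ρ ρ' ω)} := by
    refine (hd.mono ?_).depOn A
    intro f hf
    rw [Finset.mem_coe, Finset.mem_inter]
    refine ⟨by exact_mod_cast hf.1, ?_⟩
    have h3 := hf.2
    rw [Finset.mem_coe, mem_An] at h3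
    exact h3.1
  rw [pr_eq_of_depOn h2 Finset.inter_subset_right, ← pr_eq_of_depOn h2 Finset.inter_subset_left, pr_eq_av]
  rfl

theorem FlatAt.mono_R {F : Set (ℤ × ℤ)} {d R R' : ℤ} (h : FlatAt F v d R) (hR : R' ≤ R) : FlatAt F v d R' := by
  obtain ⟨i, c, h1, h2⟩ := h
  exact ⟨i, c, h1, fun f hf => h2 f ((Sub.refl' hR).subset hf)⟩

theorem FlatAt.mono_d {F : Set (ℤ × ℤ)} {d d' R : ℤ} (h : FlatAt F v d R) (hd : d ≤ d') : FlatAt F v d' R := by
  obtain ⟨i, c, h1, h2⟩ := h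
  exact ⟨i, c, h1.trans hd, h2⟩

open Classical in
/-- **Two crossings.** -/
theorem av_Xn2 : ∃ C : ℝ, 0 < C ∧ ∀ {V Φ : Type} [DecidableEq V] [DecidableEq Φ] {Q : QC V Φ}
    {F₁ W : Finset Φ} {v : ℤ × ℤ} {r : ℤ} {P : Finset (ℤ × ℤ)} {ν : ℤ × ℤ → V} {φ : ℤ × ℤ → Φ}
    (_ : PC.PChart Q F₁ v r P ν φ) (_ : FlatAt (P : Set (ℤ × ℤ)) v 0 r) (_ : F₁ ⊆ W) (ρ ρ' : ℤ),
    1 ≤ ρ → ρ ≤ ρ' → ρ' ≤ r →
    av W (fun ω => if 2 ≤ Xn Q F₁ (KM P φ v ρ) (KM P φ v ρ') ω then 1 else 0) ≤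
      C * ((ρ : ℝ) / ρ') ^ 2 := by
  obtain ⟨C, hC, h⟩ := nf_two_wall
  refine ⟨C, hC, ?_⟩
  intro V Φ _ _ Q F₁ W v r P ν φ hP hF hW ρ ρ' h1 h2 h3
  have e1 := av_NF (v := v) (ρ := ρ) (ρ' := ρ') hP.chart (hP.sub.trans hW) (fun n => 2 ≤ n)
  refine le_trans (av_mono fun T _ => ?_) (e1.le.trans
    (h P v ρ ρ' _ h1 h2 ((hF.mono_R h3).mono_d (by omega)) (Finset.Subset.refl _)))
  have h4 := Xn_le_NF hP (ρ := ρ) (ρ' := ρ') (by omega) h3 (ind T)
  split_ifs with h5 h6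
  · exact le_rfl
  · exact absurd (h5.trans h4) h6
  · exact zero_le_one
  · exact le_rfl

open Classical in
/-- **One crossing.** -/
theorem av_Xn1 : ∃ C : ℝ, 0 < C ∧ ∀ {V Φ : Type} [DecidableEq V] [DecidableEq Φ] {Q : QC V Φ}
    {F₁ W : Finset Φ} {v : ℤ × ℤ} {r : ℤ} {P : Finset (ℤ × ℤ)} {ν : ℤ × ℤ → V} {φ : ℤ × ℤ → Φ}
    (_ : PC.PChart Q F₁ v r P ν φ) (_ : FlatAt (P : Set (ℤ × ℤ)) v 0 r) (_ : F₁ ⊆ W) (ρ ρ' : ℤ),
    1 ≤ ρ → ρ ≤ ρ' → ρ' ≤ r →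
    av W (fun ω => if 1 ≤ Xn Q F₁ (KM P φ v ρ) (KM P φ v ρ') ω then 1 else 0) ≤
      C * ((ρ : ℝ) / ρ') := by
  obtain ⟨C, hC, h⟩ := nf_one_wall
  refine ⟨C, hC, ?_⟩
  intro V Φ _ _ Q F₁ W v r P ν φ hP hF hW ρ ρ' h1 h2 h3
  have e1 := av_NF (v := v) (ρ := ρ) (ρ' := ρ') hP.chart (hP.sub.trans hW) (fun n => 1 ≤ n)
  refine le_trans (av_mono fun T _ => ?_) (e1.le.trans
    (h P v ρ ρ' _ h1 h2 ((hF.mono_R h3).mono_d (by omega)) (Finset.Subset.refl _)))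
  have h4 := Xn_le_NF hP (ρ := ρ) (ρ' := ρ') (by omega) h3 (ind T)
  split_ifs with h5 h6
  · exact le_rfl
  · exact absurd (h5.trans h4) h6
  · exact zero_le_one
  · exact le_rfl

theorem av_le_one {W : Finset Φ} {g : (Φ → Bool) → ℝ} (h : ∀ ω, g ω ≤ 1) : av W g ≤ 1 :=
  (av_mono fun _ _ => h _).trans (av_const 1).le

section Bound

variable {ι : Type} {K : ι → ℕ → Finset Φ} {N : ℕ}

open Classical in
/-- the indicator of two crossings inside or outside -/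
def b2 (Q : QC V Φ) (F₁ G₀ G₁ : Finset Φ) (ω : Φ → Bool) : ℝ :=
  if 2 ≤ Xn Q F₁ G₀ G₁ ω then 1 else 0

open Classical in
/-- the indicator of a crossing -/
def b1 (Q : QC V Φ) (F₁ G₀ G₁ : Finset Φ) (ω : Φ → Bool) : ℝ :=
  if 1 ≤ Xn Q F₁ G₀ G₁ ω then 1 else 0

theorem b2_nonneg {G₀ G₁ : Finset Φ} : 0 ≤ b2 Q F₁ G₀ G₁ ω := by
  unfold b2; split_ifs <;> norm_num

theorem b1_nonneg {G₀ G₁ : Finset Φ} : 0 ≤ b1 Q F₁ G₀ G₁ ω := by
  unfold b1; split_ifs <;> norm_num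

theorem dep_b2 (G₀ G₁ : Finset Φ) : Dep ((G₁ \ G₀ : Finset Φ) : Set Φ) (b2 Q F₁ G₀ G₁) := by
  intro ω ω' h
  unfold b2
  rw [dep_Xn G₀ G₁ ω ω' h]

theorem dep_b1 (G₀ G₁ : Finset Φ) : Dep ((G₁ \ G₀ : Finset Φ) : Set Φ) (b1 Q F₁ G₀ G₁) := by
  intro ω ω' h
  unfold b1
  rw [dep_Xn G₀ G₁ ω ω' h]

/-- the factors of scale `k` -/
def bin (Q : QC V Φ) (F₁ : Finset Φ) (K : ℕ → Finset Φ) (k : ℕ) (ω : Φ → Bool) : ℝ :=
  if k = 0 then 1 else b2 Q F₁ (K 0) (K k) ω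

def bout (Q : QC V Φ) (F₁ : Finset Φ) (K : ℕ → Finset Φ) (N k : ℕ) (ω : Φ → Bool) : ℝ :=
  if k + 1 = N then 1 else b2 Q F₁ (K (k + 1)) (K N) ω

theorem bin_nonneg {K : ℕ → Finset Φ} {k : ℕ} : 0 ≤ bin Q F₁ K k ω := by
  unfold bin; split_ifs; exacts [zero_le_one, b2_nonneg]

theorem bout_nonneg {K : ℕ → Finset Φ} {k : ℕ} : 0 ≤ bout Q F₁ K N k ω := by
  unfold bout; split_ifs; exacts [zero_le_one, b2_nonneg]

theorem badE_le [Fintype ι] [DecidableEq ι] (hN : 1 < N) (ω : Φ → Bool) :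
    badE Q F₁ K N ω ≤ ∑ i, ∑ k ∈ Finset.range N, bin Q F₁ (K i) k ω * bout Q F₁ (K i) N k ω +
      ∑ i, ∑ j ∈ Finset.univ.filter fun j => i ≠ j,
        b1 Q F₁ (K i 0) (K i N) ω * b1 Q F₁ (K j 0) (K j N) ω := by
  classical
  have hA : 0 ≤ ∑ i, ∑ k ∈ Finset.range N, bin Q F₁ (K i) k ω * bout Q F₁ (K i) N k ω :=
    Finset.sum_nonneg fun i _ => Finset.sum_nonneg fun k _ => mul_nonneg bin_nonneg bout_nonneg
  have hB : 0 ≤ ∑ i, ∑ j ∈ Finset.univ.filter fun j => i ≠ j,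
      b1 Q F₁ (K i 0) (K i N) ω * b1 Q F₁ (K j 0) (K j N) ω :=
    Finset.sum_nonneg fun i _ => Finset.sum_nonneg fun k _ => mul_nonneg b1_nonneg b1_nonneg
  rcases badE_01 (Q := Q) (F₁ := F₁) (K := K) (N := N) ω with h | h
  · rw [h]
    exact add_nonneg hA hB
  rw [h]
  by_cases h1 : ∀ i, Sc Q F₁ (K i) N ω
  · have h2 : ¬ ∀ i j, i ≠ j → Xn Q F₁ (K i 0) (K i N) ω = 0 ∨ Xn Q F₁ (K j 0) (K j N) ω = 0 := by
      intro h2
      unfold badE at h
      rw [if_pos ⟨h1, h2⟩] at h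
      exact zero_ne_one h
    push Not at h2
    obtain ⟨i, j, hij, h3, h4⟩ := h2
    have h5 : b1 Q F₁ (K i 0) (K i N) ω * b1 Q F₁ (K j 0) (K j N) ω = 1 := by
      unfold b1
      rw [if_pos (by omega), if_pos (by omega), one_mul]
    have h6 : (1 : ℝ) ≤ ∑ i, ∑ j ∈ Finset.univ.filter fun j => i ≠ j,
        b1 Q F₁ (K i 0) (K i N) ω * b1 Q F₁ (K j 0) (K j N) ω := by
      refine le_trans ?_ (Finset.single_le_sum (f := fun i => ∑ j ∈ Finset.univ.filter fun j => i ≠ j,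
        b1 Q F₁ (K i 0) (K i N) ω * b1 Q F₁ (K j 0) (K j N) ω)
        (fun i _ => Finset.sum_nonneg fun k _ => mul_nonneg b1_nonneg b1_nonneg) (Finset.mem_univ i))
      refine le_trans h5.ge (Finset.single_le_sum (f := fun j =>
        b1 Q F₁ (K i 0) (K i N) ω * b1 Q F₁ (K j 0) (K j N) ω)
        (fun k _ => mul_nonneg b1_nonneg b1_nonneg) (Finset.mem_filter.mpr ⟨Finset.mem_univ _, hij⟩))
    linarith
  · push Not at h1
    obtain ⟨i, hi⟩ := h1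
    obtain ⟨k, hk, h3, h4⟩ := exists_bad_scale hN hi
    have h5 : bin Q F₁ (K i) k ω * bout Q F₁ (K i) N k ω = 1 := by
      have e1 : bin Q F₁ (K i) k ω = 1 := by
        unfold bin b2
        rcases h3 with h3 | h3
        · rw [if_pos h3]
        · split_ifs <;> rfl
      have e2 : bout Q F₁ (K i) N k ω = 1 := by
        unfold bout b2
        rcases h4 with h4 | h4
        · rw [if_pos h4]
        · split_ifs <;> rfl
      rw [e1, e2, one_mul]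
    have h6 : (1 : ℝ) ≤ ∑ i, ∑ k ∈ Finset.range N, bin Q F₁ (K i) k ω * bout Q F₁ (K i) N k ω := by
      refine le_trans ?_ (Finset.single_le_sum (f := fun i =>
        ∑ k ∈ Finset.range N, bin Q F₁ (K i) k ω * bout Q F₁ (K i) N k ω)
        (fun i _ => Finset.sum_nonneg fun k _ => mul_nonneg bin_nonneg bout_nonneg) (Finset.mem_univ i))
      exact le_trans h5.ge (Finset.single_le_sum (f := fun k =>
        bin Q F₁ (K i) k ω * bout Q F₁ (K i) N k ω)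
        (fun k _ => mul_nonneg bin_nonneg bout_nonneg) (Finset.mem_range.mpr hk))
    linarith

theorem dep_bin {K : ℕ → Finset Φ} {k : ℕ} : Dep ((K k \ K 0 : Finset Φ) : Set Φ) (bin Q F₁ K k) := by
  intro ω ω' h
  unfold bin
  rw [dep_b2 (Q := Q) (F₁ := F₁) _ _ ω ω' h]

theorem dep_bout {K : ℕ → Finset Φ} {k : ℕ} :
    Dep ((K N \ K (k + 1) : Finset Φ) : Set Φ) (bout Q F₁ K N k) := by
  intro ω ω' h
  unfold bout
  rw [dep_b2 (Q := Q) (F₁ := F₁) _ _ ω ω' h]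

end Bound

/-- **The probability of the bad event.** -/
theorem badE_bound (ι : Type) [Fintype ι] : ∃ C : ℝ, 0 < C ∧ ∀ {V Φ : Type} [DecidableEq V]
    [DecidableEq Φ] {Q : QC V Φ} {F₁ W : Finset Φ} {v : ι → ℤ × ℤ} {r : ι → ℤ}
    {P : ι → Finset (ℤ × ℤ)} {ν : ι → ℤ × ℤ → V} {φ : ι → ℤ × ℤ → Φ} {h N : ℕ},
    0 < h → 1 < N → (∀ i, ((h * 2 ^ N : ℕ) : ℤ) ≤ r i) →
    (∀ i, PC.PChart Q F₁ (v i) (r i) (P i) (ν i) (φ i)) →
    (∀ i, FlatAt (P i : Set (ℤ × ℤ)) (v i) 0 (r i)) →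
    (∀ i j, i ≠ j → Disjoint ((P i).image (φ i)) ((P j).image (φ j))) → F₁ ⊆ W →
    av W (badE Q F₁ (fun i k => KM (P i) (φ i) (v i) ((h * 2 ^ k : ℕ) : ℤ)) N) ≤ C * N / 4 ^ N := by
  classical
  obtain ⟨C₂, hC₂, H2⟩ := av_Xn2
  obtain ⟨C₁, hC₁, H1⟩ := av_Xn1
  set n : ℝ := (Fintype.card ι : ℝ) with hn
  refine ⟨n * (4 * (C₂ + 1) ^ 2) + n * (n * C₁ ^ 2) + 1, by positivity, ?_⟩
  intro V Φ _ _ Q F₁ W v r P ν φ h N hh hN hr C hF hd hW
  set K : ι → ℕ → Finset Φ := fun i k => KM (P i) (φ i) (v i) ((h * 2 ^ k : ℕ) : ℤ) with hK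
  have hle : ∀ k l : ℕ, k ≤ l → ((h * 2 ^ k : ℕ) : ℤ) ≤ ((h * 2 ^ l : ℕ) : ℤ) := by
    intro k l hkl
    exact_mod_cast Nat.mul_le_mul_left h (Nat.pow_le_pow_right (by norm_num) hkl)
  have hKm : ∀ i k l, k ≤ l → K i k ⊆ K i l := fun i k l hkl => KM_mono (hle k l hkl)
  have hKW : ∀ i k, K i k ⊆ W := fun i k => (KM_sub (C i)).trans hW
  have hh0 : (0 : ℝ) < h := by exact_mod_cast hh
  have hge : ∀ k : ℕ, (1 : ℤ) ≤ ((h * 2 ^ k : ℕ) : ℤ) := by
    intro k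
    have : 0 < h * 2 ^ k := by positivity
    exact_mod_cast this
  have hrat : ∀ k l : ℕ, k ≤ l → ((((h * 2 ^ k : ℕ) : ℤ) : ℝ) / (((h * 2 ^ l : ℕ) : ℤ) : ℝ)) =
      1 / 2 ^ (l - k) := by
    intro k l hkl
    have e : (2 : ℝ) ^ l = 2 ^ k * 2 ^ (l - k) := by rw [← pow_add]; congr 1; omega
    push_cast
    rw [e]
    have h2 : (0 : ℝ) < 2 ^ k := by positivity
    field_simp
  -- the factors
  have key2 : ∀ i k l, k ≤ l → l ≤ N → av W (b2 Q F₁ (K i k) (K i l)) ≤ (C₂ + 1) / 4 ^ (l - k) := by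
    intro i k l hkl hl
    have := H2 (C i) (hF i) hW _ _ (hge k) (hle k l hkl) ((hle l N hl).trans (hr i))
    rw [hrat k l hkl] at this
    refine (le_trans (le_of_eq ?_) this).trans ?_
    · rfl
    · rw [div_pow, one_pow, ← pow_mul, mul_comm (l - k) 2, pow_mul, mul_one_div]
      norm_num
      gcongr
      linarith
  have hbin : ∀ i k, k < N → av W (bin Q F₁ (K i) k) ≤ (C₂ + 1) / 4 ^ k := by
    intro i k hk
    by_cases h0 : k = 0
    · subst h0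
      refine (av_le_one fun ω => ?_).trans ?_
      · unfold bin
        rw [if_pos rfl]
      · rw [pow_zero, div_one]
        linarith
    · have e : bin Q F₁ (K i) k = b2 Q F₁ (K i 0) (K i k) := by
        funext ω
        unfold bin
        rw [if_neg h0]
      rw [e]
      exact key2 i 0 k (by omega) hk.le
  have hbout : ∀ i k, k < N → av W (bout Q F₁ (K i) N k) ≤ (C₂ + 1) / 4 ^ (N - (k + 1)) := by
    intro i k hk
    by_cases h0 : k + 1 = N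
    · refine (av_le_one fun ω => ?_).trans ?_
      · unfold bout
        rw [if_pos h0]
      · rw [h0, Nat.sub_self, pow_zero, div_one]
        linarith
    · have e : bout Q F₁ (K i) N k = b2 Q F₁ (K i (k + 1)) (K i N) := by
        funext ω
        unfold bout
        rw [if_neg h0]
      rw [e]
      exact key2 i (k + 1) N (by omega) le_rfl
  have hprod : ∀ i k, k < N → av W (fun ω => bin Q F₁ (K i) k ω * bout Q F₁ (K i) N k ω) ≤
      4 * (C₂ + 1) ^ 2 / 4 ^ N := by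
    intro i k hk
    have hdis : Disjoint (K i k \ K i 0) (K i N \ K i (k + 1)) := by
      rw [Finset.disjoint_left]
      intro f h1 h2
      exact (Finset.mem_sdiff.mp h2).2 (hKm i k (k + 1) (by omega) (Finset.mem_sdiff.mp h1).1)
    rw [av_indep' hdis dep_bin dep_bout (Finset.sdiff_subset.trans (hKW i k))
      (Finset.sdiff_subset.trans (hKW i N))]
    calc av W (bin Q F₁ (K i) k) * av W (bout Q F₁ (K i) N k)
        ≤ ((C₂ + 1) / 4 ^ k) * ((C₂ + 1) / 4 ^ (N - (k + 1))) :=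
          mul_le_mul (hbin i k hk) (hbout i k hk) (av_nonneg fun T _ => bout_nonneg) (by positivity)
      _ = 4 * (C₂ + 1) ^ 2 / 4 ^ N := by
          have e : (4 : ℝ) ^ N = 4 ^ k * 4 ^ (N - (k + 1)) * 4 := by
            rw [← pow_add, ← pow_succ]
            congr 1
            omega
          rw [e]
          field_simp
  have hpair : ∀ i j, i ≠ j → av W (fun ω => b1 Q F₁ (K i 0) (K i N) ω * b1 Q F₁ (K j 0) (K j N) ω) ≤
      C₁ ^ 2 / 4 ^ N := by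
    intro i j hij
    have k1 : ∀ i, av W (b1 Q F₁ (K i 0) (K i N)) ≤ C₁ / 2 ^ N := by
      intro i
      have := H1 (C i) (hF i) hW _ _ (hge 0) (hle 0 N (by omega)) (hr i)
      rw [hrat 0 N (by omega), Nat.sub_zero, mul_one_div] at this
      exact this
    have hdis : Disjoint (K i N \ K i 0) (K j N \ K j 0) := by
      refine Finset.disjoint_of_subset_left (Finset.sdiff_subset.trans ?_)
        (Finset.disjoint_of_subset_right (Finset.sdiff_subset.trans ?_) (hd i j hij))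
      · exact Finset.image_subset_image Finset.inter_subset_left
      · exact Finset.image_subset_image Finset.inter_subset_left
    rw [av_indep' hdis (dep_b1 _ _) (dep_b1 _ _) (Finset.sdiff_subset.trans (hKW i N))
      (Finset.sdiff_subset.trans (hKW j N))]
    calc av W (b1 Q F₁ (K i 0) (K i N)) * av W (b1 Q F₁ (K j 0) (K j N))
        ≤ (C₁ / 2 ^ N) * (C₁ / 2 ^ N) :=
          mul_le_mul (k1 i) (k1 j) (av_nonneg fun T _ => b1_nonneg) (by positivity)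
      _ = C₁ ^ 2 / 4 ^ N := by
          have e : (4 : ℝ) ^ N = 2 ^ N * 2 ^ N := by rw [← mul_pow]; norm_num
          rw [e]
          field_simp
  refine (av_mono (g' := fun ω =>
      (∑ i, ∑ k ∈ Finset.range N, bin Q F₁ (K i) k ω * bout Q F₁ (K i) N k ω) +
      ∑ i, ∑ j ∈ Finset.univ.filter fun j => i ≠ j,
        b1 Q F₁ (K i 0) (K i N) ω * b1 Q F₁ (K j 0) (K j N) ω) fun T _ => badE_le hN (ind T)).trans ?_
  rw [av_add, av_sum, av_sum]
  have s1 : ∑ i, av W (fun ω => ∑ k ∈ Finset.range N, bin Q F₁ (K i) k ω * bout Q F₁ (K i) N k ω) ≤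
      n * (4 * (C₂ + 1) ^ 2) * (N / 4 ^ N) := by
    calc ∑ i, av W (fun ω => ∑ k ∈ Finset.range N, bin Q F₁ (K i) k ω * bout Q F₁ (K i) N k ω)
        ≤ ∑ _i : ι, (N * (4 * (C₂ + 1) ^ 2 / 4 ^ N) : ℝ) := by
          refine Finset.sum_le_sum fun i _ => ?_
          rw [av_sum]
          refine (Finset.sum_le_sum fun k hk => hprod i k (Finset.mem_range.mp hk)).trans (le_of_eq ?_)
          rw [Finset.sum_const, Finset.card_range, nsmul_eq_mul]
      _ = n * (4 * (C₂ + 1) ^ 2) * (N / 4 ^ N) := by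
          rw [Finset.sum_const, Finset.card_univ, nsmul_eq_mul, hn]
          ring
  have s2 : ∑ i, av W (fun ω => ∑ j ∈ Finset.univ.filter fun j => i ≠ j,
      b1 Q F₁ (K i 0) (K i N) ω * b1 Q F₁ (K j 0) (K j N) ω) ≤ n * (n * C₁ ^ 2) * (N / 4 ^ N) := by
    have hN1 : (1 : ℝ) ≤ N := by exact_mod_cast hN.le
    calc ∑ i, av W (fun ω => ∑ j ∈ Finset.univ.filter fun j => i ≠ j,
          b1 Q F₁ (K i 0) (K i N) ω * b1 Q F₁ (K j 0) (K j N) ω)
        ≤ ∑ _i : ι, n * (C₁ ^ 2 / 4 ^ N) := by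
          refine Finset.sum_le_sum fun i _ => ?_
          rw [av_sum]
          refine (Finset.sum_le_sum fun j hj => hpair i j (Finset.mem_filter.mp hj).2).trans ?_
          rw [Finset.sum_const, nsmul_eq_mul]
          refine mul_le_mul_of_nonneg_right ?_ (by positivity)
          rw [hn]
          exact_mod_cast (Finset.card_filter_le _ _).trans (Finset.card_univ (α := ι)).le
      _ = n * (n * C₁ ^ 2) * (1 / 4 ^ N) := by
          rw [Finset.sum_const, Finset.card_univ, nsmul_eq_mul, hn]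
          ring
      _ ≤ n * (n * C₁ ^ 2) * (N / 4 ^ N) := by gcongr
  have s3 : 0 ≤ (N : ℝ) / 4 ^ N := by positivity
  calc _ ≤ n * (4 * (C₂ + 1) ^ 2) * (N / 4 ^ N) + n * (n * C₁ ^ 2) * (N / 4 ^ N) := add_le_add s1 s2
    _ ≤ (n * (4 * (C₂ + 1) ^ 2) + n * (n * C₁ ^ 2) + 1) * (N / 4 ^ N) := by nlinarith
    _ = _ := by ring

end

end Pool.Agent.SixB
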