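import Pool.Agent.Lib.SixB.S3MouthG
import Pool.Agent.Lib.SixB.S3MouthH
import Pool.Agent.Lib.SixB.S3ChartM
import Pool.Agent.Lib.SixB.S0Rect

/-!
# SixB, step 3.8: planar geometry of a mouth, boundary words

`nbF f k`: the face on the other side of the side `k` of `f`; `bS_iff`.
`HBx lf v r`: half box, `Tub lf v h l`: tube; `mEnd`, `mMth`: the sides of the end of the tube and of the mouth.
`word_left`, `word_right`: boundary words of the half box, `tube_left`, `tube_right`: of the tube.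
-/

set_option autoImplicit false
set_option linter.unusedSectionVars false

namespace Pool.Agent.SixB.MT

open Pool.Agent.Perc Pool.Agent.PercD Pool.Agent.PercN Pool.Agent.Perc.Q Relation
open Pool.Agent.SixB Pool.Agent.SixB.Tilt Pool.Agent.SixB.CM
open Pool.Agent.SixB.Rel (QChart QMap)
open Pool.Agent.SixB.PC (pb mv toMap mv_swap bS_map mv_inj not_bdR_of_inE)

noncomputable section

variable {V Φ : Type} [DecidableEq V] [DecidableEq Φ]
variable {Q : QC V Φ} {F F₁ S : Finset Φ} {P : Finset (ℤ × ℤ)} {v f p : ℤ × ℤ} {k : ZMod 4}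
  {ν : ℤ × ℤ → V} {φ : ℤ × ℤ → Φ} {ω : Φ → Bool} {lf : Bool} {r h l ρ n : ℕ}

/-! ## Neighbours -/

/-- the face on the other side -/
def nbF (f : ℤ × ℤ) (k : ZMod 4) : ℤ × ℤ :=
  if k = 0 then (f.1, f.2 - 1) else if k = 1 then (f.1 + 1, f.2) else if k = 2 then (f.1, f.2 + 1)
    else (f.1 - 1, f.2)

theorem nb0 (f : ℤ × ℤ) : nbF f 0 = (f.1, f.2 - 1) := rfl
theorem nb1 (f : ℤ × ℤ) : nbF f 1 = (f.1 + 1, f.2) := rfl
theorem nb2 (f : ℤ × ℤ) : nbF f 2 = (f.1, f.2 + 1) := rfl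
theorem nb3 (f : ℤ × ℤ) : nbF f 3 = (f.1 - 1, f.2) := rfl

theorem sd_nb (f : ℤ × ℤ) (k : ZMod 4) : (sd ZQ f k).swap = sd ZQ (nbF f k) (k + 2) := by
  obtain ⟨x, y⟩ := f
  rcases k4 k with rfl | rfl | rfl | rfl
  · show ((x + 1, y), (x, y)) = ((x + 1, y - 1 + 1), (x, y - 1 + 1))
    rw [sub_add_cancel]
  · rfl
  · rfl
  · show ((x, y), (x, y + 1)) = ((x - 1 + 1, y), (x - 1 + 1, y + 1))
    rw [sub_add_cancel]

theorem bS_iff (hf : f ∈ P) : sd ZQ f k ∈ bS ZQ P ↔ nbF f k ∉ P := by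
  constructor
  · intro h hg
    have h1 := (mem_bS.mp h).2 (nbF f k) (by exact_mod_cast hg) (k + 2)
    apply h1
    show sd ZQ f k = (sd ZQ (nbF f k) (k + 2)).swap
    rw [← sd_nb, Prod.swap_swap]
  · intro hg
    refine mem_bS.mpr ⟨sd_mem hf k, ?_⟩
    intro f' hf' k' he
    have he' : sd ZQ f k = (sd ZQ f' k').swap := he
    have h2 : sd ZQ f' k' = sd ZQ (nbF f k) (k + 2) := by
      rw [← sd_nb, he', Prod.swap_swap]
    exact hg ((sd_inj h2).1 ▸ (by exact_mod_cast hf'))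

theorem mv_sd (H : QChart ZQ Q P ν φ 0) (hf : f ∈ P) (k : ZMod 4) : mv ν (sd ZQ f k) = sd Q (φ f) k := by
  have := (toMap H (fun _ => false)).sd_eq hf k
  rw [add_zero] at this
  exact this.symm

theorem side_nb (H : QChart ZQ Q P ν φ 0) (hf : f ∈ P) (hg : nbF f k ∈ P) (h1 : φ f ∉ S)
    (h2 : mv ν (sd ZQ f k) ∈ dE Q S) : φ (nbF f k) ∈ S := by
  obtain ⟨f', hf', k', h4⟩ := mem_dE.mp h2
  rcases h4 with h4 | h4
  · rw [mv_sd H hf] at h4
    exact absurd ((sd_inj h4).1 ▸ hf') h1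
  · have h5 : sd Q (φ (nbF f k)) (k + 2) = sd Q f' k' := by
      rw [← mv_sd H hg, ← sd_nb, mv_swap, h4, Prod.swap_swap]
    exact (sd_inj h5).1 ▸ hf'

theorem not_dE_single (hb : mv ν (sd ZQ f k) ∈ bS Q F) (H : QChart ZQ Q P ν φ 0) (hf : f ∈ P)
    (hS : S ⊆ F) (h1 : φ f ∉ S) (hF : φ f ∈ F) : mv ν (sd ZQ f k) ∉ dE Q S := by
  intro h2
  have h3 : mv ν (sd ZQ f k) ∈ dE Q ({φ f} : Finset Φ) := by
    rw [mv_sd H hf]
    exact sd_mem (Finset.mem_singleton_self _) k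
  refine not_dE_of_bS (Finset.singleton_subset_iff.mpr hF) hb h3 (dE_sub ?_ h2)
  intro g hg
  refine Finset.mem_sdiff.mpr ⟨hS hg, ?_⟩
  rw [Finset.mem_singleton]
  rintro rfl
  exact h1 hg

theorem nb_not_ini (H : QChart ZQ Q P ν φ 0) (hg : nbF f k ∈ P) (hF : φ (nbF f k) ∈ F) :
    mv ν (sd ZQ f k) ∉ bS Q F := by
  intro h
  refine (mem_bS.mp h).2 (φ (nbF f k)) (by exact_mod_cast hF) (k + 2) ?_
  show mv ν (sd ZQ f k) = (sd Q (φ (nbF f k)) (k + 2)).swap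
  rw [← mv_sd H hg, ← sd_nb, mv_swap, Prod.swap_swap]

/-! ## Segments -/

theorem dv_eq (a : ℤ) : dv a = dz (a : ZMod 4) := by
  have e : (a : ZMod 4) = ((a % 4 : ℤ) : ZMod 4) := by
    rw [ZMod.intCast_eq_intCast_iff]
    exact (Int.mod_modEq a 4).symm
  rw [e]
  unfold dv
  have h : a % 4 = 0 ∨ a % 4 = 1 ∨ a % 4 = 2 ∨ a % 4 = 3 := by omega
  rcases h with h | h | h | h <;> rw [h]
  · rw [if_pos rfl]
    exact dz0.symm
  · rw [if_neg (by norm_num), if_pos rfl]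
    exact dz1.symm
  · rw [if_neg (by norm_num), if_neg (by norm_num), if_pos rfl]
    exact dz2.symm
  · rw [if_neg (by norm_num), if_neg (by norm_num), if_neg (by norm_num)]
    exact dz3.symm

theorem mem_segm {a : ℤ} {x : (V × V) × ℤ} : x ∈ segm ν p a n →
    ∃ s ∈ wOut (a : ZMod 4) p n, x = (mv ν s, a) := by
  induction n generalizing p with
  | zero => intro hx; exact absurd hx List.not_mem_nil
  | succ n ih =>
    intro hx
    rw [segm_succ, List.mem_cons] at hx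
    rcases hx with rfl | hx
    · refine ⟨(p, p + dv a), ?_, rfl⟩
      rw [mem_wOut]
      refine ⟨0, by omega, ?_⟩
      rw [dv_eq]
      simp
    · obtain ⟨s, hs, rfl⟩ := ih hx
      refine ⟨s, ?_, rfl⟩
      rw [mem_wOut] at hs ⊢
      obtain ⟨t, ht, rfl⟩ := hs
      refine ⟨t + 1, by omega, ?_⟩
      rw [dv_eq]
      push_cast
      congr 1
      · rw [add_smul, one_smul, add_comm ((t : ℤ) • dz (a : ZMod 4)), add_assoc]
      · rw [add_smul ((t : ℤ) + 1), one_smul, add_comm (((t : ℤ) + 1) • dz (a : ZMod 4)), add_assoc]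

theorem segm0 {a : ℤ} (ha : (a : ZMod 4) = 0) {x : (V × V) × ℤ} (hx : x ∈ segm ν p a n) :
    ∃ f : ℤ × ℤ, x = (mv ν (sd ZQ f 0), a) ∧ f.2 = p.2 ∧ p.1 ≤ f.1 ∧ f.1 < p.1 + n := by
  obtain ⟨s, hs, rfl⟩ := mem_segm hx
  rw [ha, mem_out0] at hs
  obtain ⟨f, rfl, h1⟩ := hs
  exact ⟨f, rfl, h1⟩

theorem segm1 {a : ℤ} (ha : (a : ZMod 4) = 1) {x : (V × V) × ℤ} (hx : x ∈ segm ν p a n) :
    ∃ f : ℤ × ℤ, x = (mv ν (sd ZQ f 1), a) ∧ f.1 = p.1 - 1 ∧ p.2 ≤ f.2 ∧ f.2 < p.2 + n := by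
  obtain ⟨s, hs, rfl⟩ := mem_segm hx
  rw [ha, mem_out1] at hs
  obtain ⟨f, rfl, h1⟩ := hs
  exact ⟨f, rfl, h1⟩

theorem segm2 {a : ℤ} (ha : (a : ZMod 4) = 2) {x : (V × V) × ℤ} (hx : x ∈ segm ν p a n) :
    ∃ f : ℤ × ℤ, x = (mv ν (sd ZQ f 2), a) ∧ f.2 = p.2 - 1 ∧ p.1 - n ≤ f.1 ∧ f.1 < p.1 := by
  obtain ⟨s, hs, rfl⟩ := mem_segm hx
  rw [ha, mem_out2] at hs
  obtain ⟨f, rfl, h1⟩ := hs
  exact ⟨f, rfl, h1⟩

theorem segm3 {a : ℤ} (ha : (a : ZMod 4) = 3) {x : (V × V) × ℤ} (hx : x ∈ segm ν p a n) :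
    ∃ f : ℤ × ℤ, x = (mv ν (sd ZQ f 3), a) ∧ f.1 = p.1 ∧ p.2 - n ≤ f.2 ∧ f.2 < p.2 := by
  obtain ⟨s, hs, rfl⟩ := mem_segm hx
  rw [ha, mem_out3] at hs
  obtain ⟨f, rfl, h1⟩ := hs
  exact ⟨f, rfl, h1⟩

/-! ## Half box and tube -/

/-- the half box -/
def HBx (lf : Bool) (v : ℤ × ℤ) (r : ℕ) : Finset (ℤ × ℤ) :=
  (BR v r).filter fun f => if lf then f.1 < v.1 else v.1 ≤ f.1

/-- the tube -/
def Tub (lf : Bool) (v : ℤ × ℤ) (h l : ℕ) : Finset (ℤ × ℤ) :=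
  if lf then Finset.Ico v.1 (v.1 + l) ×ˢ Finset.Ico (v.2 - h) (v.2 + h)
  else Finset.Ico (v.1 - l) v.1 ×ˢ Finset.Ico (v.2 - h) (v.2 + h)

/-- the end of the tube -/
def mEnd (lf : Bool) (v : ℤ × ℤ) (h l : ℕ) : Finset ((ℤ × ℤ) × (ℤ × ℤ)) :=
  if lf then wOut 1 (v.1 + l, v.2 - h) (2 * h) else wOut 3 (v.1 - l, v.2 + h) (2 * h)

/-- the mouth -/
def mMth (lf : Bool) (v : ℤ × ℤ) (h : ℕ) : Finset ((ℤ × ℤ) × (ℤ × ℤ)) :=
  if lf then wOut 1 (v.1, v.2 - h) (2 * h) else wOut 3 (v.1, v.2 + h) (2 * h)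

theorem mem_HBx : f ∈ HBx lf v r ↔
    (v.1 - r ≤ f.1 ∧ f.1 < v.1 + r ∧ v.2 - r ≤ f.2 ∧ f.2 < v.2 + r) ∧
      ((lf = true ∧ f.1 < v.1) ∨ (lf = false ∧ v.1 ≤ f.1)) := by
  unfold HBx
  rw [Finset.mem_filter, mem_BR]
  cases lf <;> simp

theorem mem_Tub : f ∈ Tub lf v h l ↔ (v.2 - h ≤ f.2 ∧ f.2 < v.2 + h) ∧
    ((lf = true ∧ v.1 ≤ f.1 ∧ f.1 < v.1 + l) ∨ (lf = false ∧ v.1 - l ≤ f.1 ∧ f.1 < v.1)) := by
  unfold Tub
  cases lf
  · simp only [Bool.false_eq_true, if_false, Finset.mem_product, Finset.mem_Ico, false_and, false_or,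
      true_and]
    tauto
  · simp only [if_true, Finset.mem_product, Finset.mem_Ico, true_and, Bool.true_eq_false, false_and,
      or_false]
    tauto

theorem mem_Mth' : f ∈ Mth lf v r h l ↔ f ∈ HBx lf v r ∨ f ∈ Tub lf v h l := by
  rw [mem_Mth, mem_HBx, mem_Tub]
  cases lf
  · simp only [Bool.false_eq_true, false_and, true_and, false_or]
    constructor
    · rintro (h | h)
      · left; omega
      · right; omega
    · rintro (h | h)
      · left; omega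
      · right; omega
  · simp only [true_and, Bool.true_eq_false, false_and, or_false]
    constructor
    · rintro (h | h)
      · left; omega
      · right; omega
    · rintro (h | h)
      · left; omega
      · right; omega

theorem HBx_sub : HBx lf v r ⊆ Mth lf v r h l := fun _ hf => mem_Mth'.mpr (Or.inl hf)

theorem Tub_sub : Tub lf v h l ⊆ Mth lf v r h l := fun _ hf => mem_Mth'.mpr (Or.inr hf)

theorem HBx_disj (hf : f ∈ HBx lf v r) : f ∉ Tub lf v h l := by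
  rw [mem_HBx] at hf
  rw [mem_Tub]
  rcases hf with ⟨-, ⟨rfl, hf⟩ | ⟨rfl, hf⟩⟩
  · rintro ⟨-, ⟨-, h1⟩ | ⟨h1, -⟩⟩
    · omega
    · exact absurd h1 (by decide)
  · rintro ⟨-, ⟨h1, -⟩ | ⟨-, h1⟩⟩
    · exact absurd h1 (by decide)
    · omega

theorem HBx_mono (hr : ρ ≤ r) : HBx lf v ρ ⊆ HBx lf v r := by
  intro f hf
  rw [mem_HBx] at hf ⊢
  exact ⟨by omega, hf.2⟩

theorem HBx_box : HBx lf v r ⊆ BR v r := Finset.filter_subset _ _

theorem HBx_inter (hr : ρ ≤ r) : HBx lf v r ∩ BR v ρ = HBx lf v ρ := by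
  ext f
  rw [Finset.mem_inter, mem_HBx, mem_HBx, mem_BR]
  constructor
  · rintro ⟨⟨h1, h2⟩, h3⟩
    exact ⟨h3, h2⟩
  · rintro ⟨h1, h2⟩
    exact ⟨⟨by omega, h2⟩, h1⟩

theorem HBx_RS_left : (HBx true v r : Set (ℤ × ℤ)) = RS (v.1 - r) v.1 (v.2 - r) (v.2 + r) := by
  ext f
  rw [Finset.mem_coe, mem_HBx]
  unfold RS
  simp only [true_and, Bool.true_eq_false, false_and, or_false, Set.mem_ofPred_eq]
  omega

theorem HBx_RS_right : (HBx false v r : Set (ℤ × ℤ)) = RS v.1 (v.1 + r) (v.2 - r) (v.2 + r) := by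
  ext f
  rw [Finset.mem_coe, mem_HBx]
  unfold RS
  simp only [true_and, Bool.false_eq_true, false_and, false_or, Set.mem_ofPred_eq]
  omega

theorem Tub_RS_left : (Tub true v h l : Set (ℤ × ℤ)) = RS v.1 (v.1 + l) (v.2 - h) (v.2 + h) := by
  ext f
  rw [Finset.mem_coe, mem_Tub]
  unfold RS
  simp only [true_and, Bool.true_eq_false, false_and, or_false, Set.mem_ofPred_eq]
  omega

theorem Tub_RS_right : (Tub false v h l : Set (ℤ × ℤ)) = RS (v.1 - l) v.1 (v.2 - h) (v.2 + h) := by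
  ext f
  rw [Finset.mem_coe, mem_Tub]
  unfold RS
  simp only [true_and, Bool.false_eq_true, false_and, false_or, Set.mem_ofPred_eq]
  omega

theorem flat_HBx : FlatAt (HBx lf v r : Set (ℤ × ℤ)) v 0 r := by
  cases lf
  · refine ⟨2, v.1, by simp [cw], ?_⟩
    intro f hf
    rw [Finset.mem_coe, mem_HBx]
    rw [mem_BR] at hf
    simp only [Bool.false_eq_true, false_and, true_and, false_or, SixB.HW, Set.mem_ofPred_eq]
    omega
  · refine ⟨3, v.1, by simp [cw], ?_⟩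
    intro f hf
    rw [Finset.mem_coe, mem_HBx]
    rw [mem_BR] at hf
    simp only [true_and, Bool.true_eq_false, false_and, or_false, SixB.HW, Set.mem_ofPred_eq]
    omega

/-! ## Words -/

theorem toChart (H : QChart ZQ Q P ν φ 0) {R : Set (ℤ × ℤ)} (hR : R ⊆ (P : Set (ℤ × ℤ))) :
    Chart Q φ ν R where
  inj := fun f hf g hg h => H.injOn (hR hf) (hR hg) h
  c0 := fun f hf => by have := H.cor f (by exact_mod_cast hR hf) 0; rw [add_zero] at this; exact this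
  c1 := fun f hf => by have := H.cor f (by exact_mod_cast hR hf) 1; rw [add_zero] at this; exact this
  c2 := fun f hf => by have := H.cor f (by exact_mod_cast hR hf) 2; rw [add_zero] at this; exact this
  c3 := fun f hf => by have := H.cor f (by exact_mod_cast hR hf) 3; rw [add_zero] at this; exact this

theorem disc_rect' {x y : ℤ} {a b : ℕ} (ha : 0 < a) (hb : 0 < b)
    (H : Chart Q φ ν (RS x (x + a) y (y + b))) : ∃ G, Disc Q (φ '' RS x (x + a) y (y + b)) G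
    (segm ν (x, y) 0 a ++ (segm ν (x + a, y) 1 b ++ (segm ν (x + a, y + b) 2 a ++ segm ν (x, y + b) 3 b))) := by
  obtain ⟨n, rfl⟩ : ∃ n, a = n + 1 := ⟨a - 1, by omega⟩
  obtain ⟨m, rfl⟩ : ∃ m, b = m + 1 := ⟨b - 1, by omega⟩
  exact disc_rect n m H

theorem segm_add_x (p : ℤ × ℤ) (a : ℤ) (m n : ℕ) (q : ℤ × ℤ) (hq : p + (m : ℤ) • dv a = q) :
    segm ν p a (m + n) = segm ν p a m ++ segm ν q a n := by
  rw [segm_add, hq]

/-- the word of the half box on the left of `v` -/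
theorem word_left (H : QChart ZQ Q P ν φ 0) (hP : HBx true v ρ ⊆ P) (hh : 0 < h) (hρ : h ≤ ρ) :
    ∃ G, Disc Q (((HBx true v ρ).image φ : Finset Φ) : Set Φ) G
      ((segm ν (v.1, v.2 + ρ) 2 ρ ++ (segm ν (v.1 - ρ, v.2 + ρ) 3 (2 * ρ) ++ segm ν (v.1 - ρ, v.2 - ρ) 4 ρ)) ++
        (segm ν (v.1, v.2 - ρ) 5 (ρ - h) ++ (segm ν (v.1, v.2 - h) 5 (2 * h) ++
          segm ν (v.1, v.2 + h) 5 (ρ - h)))) := by
  have e1 : RS (v.1 - ρ) (v.1 - ρ + ρ) (v.2 - ρ) (v.2 - ρ + (2 * ρ : ℕ)) = (HBx true v ρ : Set (ℤ × ℤ)) := by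
    rw [HBx_RS_left]
    congr 1
    · ring
    · push_cast; ring
  obtain ⟨G, hG⟩ := disc_rect' (Q := Q) (φ := φ) (ν := ν) (x := v.1 - ρ) (y := v.2 - ρ) (a := ρ)
    (b := 2 * ρ) (by omega) (by omega) (by rw [e1]; exact toChart H (by exact_mod_cast hP))
  rw [e1, ← Finset.coe_image] at hG
  rw [← List.append_assoc] at hG
  have h2 := hG.rots
  refine ⟨G, h2.cast rfl rfl ?_⟩
  have e2 : v.1 - (ρ : ℤ) + ρ = v.1 := by ring
  have e3 : v.2 - (ρ : ℤ) + (2 * ρ : ℕ) = v.2 + ρ := by push_cast; ring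
  rw [lft_append, segm_lft, segm_lft, e2, e3]
  have e4 : segm ν (v.1, v.2 - ρ) (1 + 4) (2 * ρ) = segm ν (v.1, v.2 - ρ) 5 (ρ - h) ++
      (segm ν (v.1, v.2 - h) 5 (2 * h) ++ segm ν (v.1, v.2 + h) 5 (ρ - h)) := by
    have e5 : 2 * ρ = (ρ - h) + (2 * h + (ρ - h)) := by omega
    have e6 : ((ρ - h : ℕ) : ℤ) = ρ - h := by omega
    rw [show (1 : ℤ) + 4 = 5 by norm_num, e5, segm_add_x (m := ρ - h) (q := (v.1, v.2 - h)),
      segm_add_x (m := 2 * h) (q := (v.1, v.2 + h))]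
    · show ((v.1, v.2 - h) : ℤ × ℤ) + ((2 * h : ℕ) : ℤ) • ((0, 1) : ℤ × ℤ) = _
      ext
      · simp
      · simp; ring
    · show ((v.1, v.2 - ρ) : ℤ × ℤ) + ((ρ - h : ℕ) : ℤ) • ((0, 1) : ℤ × ℤ) = _
      rw [e6]
      ext
      · simp
      · simp
  rw [e4, show (0 : ℤ) + 4 = 4 by norm_num]
  simp only [List.append_assoc]

/-- the word of the tube on the right of `v` -/
theorem tube_left (H : QChart ZQ Q P ν φ 0) (hP : Tub true v h l ⊆ P) (hh : 0 < h) (hl : 0 < l) :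
    ∃ G, Disc Q (((Tub true v h l).image φ : Finset Φ) : Set Φ) G
      (rvw (segm ν (v.1, v.2 - h) 5 (2 * h)) ++ (segm ν (v.1, v.2 - h) 4 l ++
        (segm ν (v.1 + l, v.2 - h) 5 (2 * h) ++ segm ν (v.1 + l, v.2 + h) 6 l))) := by
  have e1 : RS v.1 (v.1 + l) (v.2 - h) (v.2 - h + (2 * h : ℕ)) = (Tub true v h l : Set (ℤ × ℤ)) := by
    rw [Tub_RS_left]
    congr 1
    push_cast; ring
  obtain ⟨G, hG⟩ := disc_rect' (Q := Q) (φ := φ) (ν := ν) (x := v.1) (y := v.2 - h) (a := l)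
    (b := 2 * h) (by omega) (by omega) (by rw [e1]; exact toChart H (by exact_mod_cast hP))
  rw [e1, ← Finset.coe_image] at hG
  rw [← List.append_assoc, ← List.append_assoc] at hG
  have h2 := hG.rots
  refine ⟨G, h2.cast rfl rfl ?_⟩
  have e3 : v.2 - (h : ℤ) + (2 * h : ℕ) = v.2 + h := by push_cast; ring
  rw [lft_append, lft_append, segm_lft, segm_lft, segm_lft, e3, segm_rvw]
  have e4 : ((v.1, v.2 - h) : ℤ × ℤ) + ((2 * h : ℕ) : ℤ) • dv 5 = (v.1, v.2 + h) := by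
    show ((v.1, v.2 - h) : ℤ × ℤ) + ((2 * h : ℕ) : ℤ) • ((0, 1) : ℤ × ℤ) = _
    ext
    · simp
    · simp; ring
  rw [e4, show (0 : ℤ) + 4 = 4 by norm_num, show (1 : ℤ) + 4 = 5 by norm_num,
    show (2 : ℤ) + 4 = 6 by norm_num, show (5 : ℤ) - 2 = 3 by norm_num]
  simp only [List.append_assoc]

/-- the word of the half box on the right of `v` -/
theorem word_right (H : QChart ZQ Q P ν φ 0) (hP : HBx false v ρ ⊆ P) (hh : 0 < h) (hρ : h ≤ ρ) :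
    ∃ G, Disc Q (((HBx false v ρ).image φ : Finset Φ) : Set Φ) G
      ((segm ν (v.1, v.2 - ρ) 0 ρ ++ (segm ν (v.1 + ρ, v.2 - ρ) 1 (2 * ρ) ++ segm ν (v.1 + ρ, v.2 + ρ) 2 ρ)) ++
        (segm ν (v.1, v.2 + ρ) 3 (ρ - h) ++ (segm ν (v.1, v.2 + h) 3 (2 * h) ++
          segm ν (v.1, v.2 - h) 3 (ρ - h)))) := by
  have e1 : RS v.1 (v.1 + ρ) (v.2 - ρ) (v.2 - ρ + (2 * ρ : ℕ)) = (HBx false v ρ : Set (ℤ × ℤ)) := by
    rw [HBx_RS_right]
    congr 1
    push_cast; ring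
  obtain ⟨G, hG⟩ := disc_rect' (Q := Q) (φ := φ) (ν := ν) (x := v.1) (y := v.2 - ρ) (a := ρ)
    (b := 2 * ρ) (by omega) (by omega) (by rw [e1]; exact toChart H (by exact_mod_cast hP))
  rw [e1, ← Finset.coe_image] at hG
  refine ⟨G, hG.cast rfl rfl ?_⟩
  have e3 : v.2 - (ρ : ℤ) + (2 * ρ : ℕ) = v.2 + ρ := by push_cast; ring
  rw [e3]
  have e4 : segm ν (v.1, v.2 + ρ) 3 (2 * ρ) = segm ν (v.1, v.2 + ρ) 3 (ρ - h) ++
      (segm ν (v.1, v.2 + h) 3 (2 * h) ++ segm ν (v.1, v.2 - h) 3 (ρ - h)) := by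
    have e5 : 2 * ρ = (ρ - h) + (2 * h + (ρ - h)) := by omega
    have e6 : ((ρ - h : ℕ) : ℤ) = ρ - h := by omega
    rw [e5, segm_add_x (m := ρ - h) (q := (v.1, v.2 + h)),
      segm_add_x (m := 2 * h) (q := (v.1, v.2 - h))]
    · show ((v.1, v.2 + h) : ℤ × ℤ) + ((2 * h : ℕ) : ℤ) • ((0, -1) : ℤ × ℤ) = _
      ext
      · simp
      · simp; ring
    · show ((v.1, v.2 + ρ) : ℤ × ℤ) + ((ρ - h : ℕ) : ℤ) • ((0, -1) : ℤ × ℤ) = _
      rw [e6]
      ext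
      · simp
      · simp
  rw [e4]
  simp only [List.append_assoc]

/-- the word of the tube on the left of `v` -/
theorem tube_right (H : QChart ZQ Q P ν φ 0) (hP : Tub false v h l ⊆ P) (hh : 0 < h) (hl : 0 < l) :
    ∃ G, Disc Q (((Tub false v h l).image φ : Finset Φ) : Set Φ) G
      (rvw (segm ν (v.1, v.2 + h) 3 (2 * h)) ++ (segm ν (v.1, v.2 + h) 2 l ++
        (segm ν (v.1 - l, v.2 + h) 3 (2 * h) ++ segm ν (v.1 - l, v.2 - h) 4 l))) := by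
  have e1 : RS (v.1 - l) (v.1 - l + l) (v.2 - h) (v.2 - h + (2 * h : ℕ)) = (Tub false v h l : Set (ℤ × ℤ)) := by
    rw [Tub_RS_right]
    congr 1
    · ring
    · push_cast; ring
  obtain ⟨G, hG⟩ := disc_rect' (Q := Q) (φ := φ) (ν := ν) (x := v.1 - l) (y := v.2 - h) (a := l)
    (b := 2 * h) (by omega) (by omega) (by rw [e1]; exact toChart H (by exact_mod_cast hP))
  rw [e1, ← Finset.coe_image] at hG
  have h2 := hG.rots
  refine ⟨G, h2.cast rfl rfl ?_⟩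
  have e2 : v.1 - (l : ℤ) + l = v.1 := by ring
  have e3 : v.2 - (h : ℤ) + (2 * h : ℕ) = v.2 + h := by push_cast; ring
  rw [segm_lft, e2, e3, segm_rvw]
  have e4 : ((v.1, v.2 + h) : ℤ × ℤ) + ((2 * h : ℕ) : ℤ) • dv 3 = (v.1, v.2 - h) := by
    show ((v.1, v.2 + h) : ℤ × ℤ) + ((2 * h : ℕ) : ℤ) • ((0, -1) : ℤ × ℤ) = _
    ext
    · simp
    · simp; ring
  rw [e4, show (0 : ℤ) + 4 = 4 by norm_num, show (3 : ℤ) - 2 = 1 by norm_num]
  simp only [List.append_assoc]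

end

end Pool.Agent.SixB.MT
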