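import Pool.Agent.Lib.SixB.S3LowX
import Pool.Agent.Lib.SixB.S3Conf
import Pool.Agent.Lib.SixB.S3ChartX
import Pool.Agent.Lib.SixB.S3MouthI
import Pool.Agent.Lib.SixB.S8Fresh

/-!
# 6BD step 3, R13 / R20: the mouths between the polygon and the rest of the environment

* `nox_of_noArm`: no arm of one colour in a part of a cell, no strand of this part from the core to the outside.
* `nox_split`: a mouth cell with the core `Mth ρ h l₀`: if the cell is blocked for a configuration which agrees with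
  `ω` in the section of the tube, and the half box ring has no arm of the colour `col` for `ω`, then no strand of the
  cell leads from the core to the outside.
-/

set_option autoImplicit false
set_option linter.unusedSectionVars false

namespace Pool.Agent.SixB.LowP

open Pool.Agent.Perc.Q Pool.Agent.Perc Relation
open Pool.Agent.SixB hiding Zs_split
open Pool.Agent.SixB.Bk Pool.Agent.SixB.Conf

noncomputable section

variable {V Φ : Type} [DecidableEq V] [DecidableEq Φ]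
variable {Q : QC V Φ} {F G G₀ T : Finset Φ} {D : Φ → Bool} {ω ω' : Φ → Bool} {a b : V × V}

theorem into_dE (h : Into Q (T : Set Φ) a) : a ∈ dE Q T := by
  obtain ⟨f, hf, k, rfl⟩ := h
  exact mem_dE.mpr ⟨f, by exact_mod_cast hf, k, Or.inl rfl⟩

/-- an inward side of the outside which is a side of `G` is a boundary side of `G` and not of the surface -/
theorem bS_of_into (h1 : b.swap ∈ dE Q G) (h2 : Into Q ((F : Set Φ) \ G) b) :
    b.swap ∈ bS Q G ∧ b.swap ∉ bS Q F := by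
  obtain ⟨g, hg, l, rfl⟩ := h2
  constructor
  · refine mem_bS.mpr ⟨h1, fun f hf k hk => ?_⟩
    have h3 : sd Q g l = sd Q f k := Prod.swap_injective hk
    exact hg.2 ((sd_inj h3).1 ▸ hf)
  · intro h3
    exact (mem_bS.mp h3).2 g hg.1 l rfl

/-- **No arm of one colour in a part `T` of the cell**: no strand in `T` from the core to the outside. -/
theorem nox_of_noArm {cc : ℤ} {π : Φ → ℤ × ℤ} {ν : V → ℤ × ℤ} (H : PCh Q D T cc π ν)
    (hT : T ⊆ G) (h0 : G₀ ⊆ G) (hsep : ∀ b ∈ bS Q G, b ∈ dE Q G₀ → b ∈ bS Q F)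
    (h : NoArm Q D T (Ends (dE Q G₀ ∩ dE Q T)) (Ends ((bS Q G \ bS Q F) ∩ dE Q T)) ω) :
    NoX Q ω (T : Set Φ) (G₀ : Set Φ) ((F : Set Φ) \ G) := by
  intro c hc b hb hbB
  rcases ReflTransGen.cases_head hb with rfl | ⟨x, hx, -⟩
  · obtain ⟨h1, h2⟩ := bS_of_into (Rel.dE_mono h0 (into_dE hc)) hbB
    exact h2 (hsep _ h1 (into_dE hc))
  · have hcT : c ∈ dE Q T := into_dE (into_of_nx hx).1
    have hb2 : Into Q (T : Set Φ) b.swap := by
      rcases ReflTransGen.cases_tail hb with h1 | ⟨z, -, h1⟩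
      · exfalso
        rw [h1] at hbB
        obtain ⟨g, hg, k, hk⟩ := hbB
        have h3 := (into_of_nx hx).1.face hk
        exact hg.2 (by exact_mod_cast hT (by exact_mod_cast h3))
      · exact (into_of_nx h1).2
    have hbT : b.swap ∈ dE Q T := into_dE hb2
    obtain ⟨h3, h4⟩ := bS_of_into (Rel.dE_mono hT hbT) hbB
    have hy : b.swap ∈ (bS Q G \ bS Q F) ∩ dE Q T :=
      Finset.mem_inter.mpr ⟨Finset.mem_sdiff.mpr ⟨h3, h4⟩, hbT⟩
    have hx' : c.swap ∈ dE Q G₀ ∩ dE Q T :=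
      Finset.mem_inter.mpr ⟨into_dE hc, swap_mem_dE.mpr hcT⟩
    have h5 := marks (e := c) (a := b) (F := (T : Set Φ)) (ω := ω) hb
    have e1 := h5.1.mono Vis_sub
    have e2 := h5.2.mono Vis_sub
    rcases H.par_side hcT with h6 | h6
    · exact h _ (snd_mem_Ends hx') _ (snd_mem_Ends hy) (H.cc_of_connQ e1 h6).1
    · exact h _ (fst_mem_Ends hx') _ (fst_mem_Ends hy) (H.cc_of_connQ e2 h6).1

/-! ## Mouths -/

section mouth

open Pool.Agent.SixB.MT Pool.Agent.SixB.CM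

variable {lf : Bool} {v : ℤ × ℤ} {R' h l' ρ R l₀ l : ℕ} {τ : Cfg}

/-- the section of the tube -/
def tSec (lf : Bool) (v : ℤ × ℤ) (h l₀ l : ℕ) : Finset (ℤ × ℤ) := MT.Tub lf v h l \ MT.Tub lf v h l₀

/-- the ring in the half box -/
def bSec (lf : Bool) (v : ℤ × ℤ) (ρ R : ℕ) : Finset (ℤ × ℤ) := MT.HBx lf v R \ MT.HBx lf v ρ

theorem sec_union : Mth lf v R h l \ Mth lf v ρ h l₀ = bSec lf v ρ R ∪ tSec lf v h l₀ l := by
  unfold bSec tSec
  ext f
  simp only [Finset.mem_union, Finset.mem_sdiff, MT.mem_Mth', MT.mem_HBx, MT.mem_Tub]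
  cases lf <;> simp only [Bool.false_eq_true, Bool.true_eq_false, false_and, true_and, false_or, or_false] <;>
    constructor <;> intro h <;> omega

theorem tSec_sub : tSec lf v h l₀ l ⊆ Mth lf v R h l \ Mth lf v ρ h l₀ := by
  rw [sec_union]
  exact Finset.subset_union_right

theorem bSec_sub : bSec lf v ρ R ⊆ Mth lf v R h l \ Mth lf v ρ h l₀ := by
  rw [sec_union]
  exact Finset.subset_union_left

/-- **The section of the tube.** -/
theorem nox_tube (c : MChart Q F lf v R' h l') {cc : ℤ}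
    (hD : ∀ f ∈ Mth lf v R' h l', D (c.φF f) = !Perc.parD cc f) (hh : 0 < h) (hhρ : h ≤ ρ) (h1 : ρ < R)
    (h2 : R ≤ R') (h3 : l₀ < l) (h4 : l ≤ l') (hb : MB c D ρ R l₀ l ω')
    (hω : ∀ f ∈ tSec lf v h l₀ l, ω' (c.φF f) = ω (c.φF f)) :
    NoX Q ω (((tSec lf v h l₀ l).image c.φF : Finset Φ) : Set Φ) (mim c ρ l₀ : Set Φ)
      ((F : Set Φ) \ mim c R l) := by
  have hs : (tSec lf v h l₀ l).image c.φF ⊆ mim c R l \ mim c ρ l₀ := by
    unfold mim
    rw [CM.image_sdiff c.toPChart (WG.Mth_mono h2 h4) (WG.Mth_mono h1.le h3.le)]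
    exact Finset.image_subset_image tSec_sub
  refine nox_of_noArm (D := D) (cc := cc) (π := c.pi) (ν := c.nu) ((mch_pch c hD h1.le h2 h3.le h4).mono hs)
    (hs.trans Finset.sdiff_subset) (Finset.image_subset_image (WG.Mth_mono h1.le h3.le))
    (mouth_sep c hh hhρ h1 h3 h2 h4) ?_
  refine (NoArm.congr ?_).mp (NoArm.mono hb hs ?_ ?_)
  · intro f hf
    obtain ⟨g, hg, rfl⟩ := Finset.mem_image.mp hf
    exact hω g hg
  · exact Ends.mono (Finset.inter_subset_inter_left (Rel.dE_mono hs))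
  · exact Ends.mono Finset.inter_subset_left

/-- the ring in the half box is not crossed by an arm of one of the two colours -/
def Rg (lf : Bool) (v : ℤ × ℤ) (ρ R : ℕ) (τ : Cfg) : Prop :=
  ∃ col : ℤ, ∀ u w : ℤ × ℤ, u ∈ Ends (dE ZQ (MT.HBx lf v ρ) ∩ dE ZQ (bSec lf v ρ R)) →
    (∃ b ∈ bS ZQ (MT.HBx lf v R), WG.Hb lf v R b ∧ (w = b.1 ∨ w = b.2)) →
    (u.1 + u.2 - col) % 2 = 0 → ¬ Perc.Conn τ (bSec lf v ρ R : Set (ℤ × ℤ)) u w

/-- a side of the core and of the ring is a side of the half box -/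
theorem core_bSec {b : (ℤ × ℤ) × (ℤ × ℤ)} (hhρ : h ≤ ρ) (h1 : b ∈ dE ZQ (Mth lf v ρ h l₀))
    (h2 : b ∈ dE ZQ (bSec lf v ρ R)) : b ∈ dE ZQ (MT.HBx lf v ρ) := by
  obtain ⟨g, hg, k, hk⟩ := mem_dE.mp h1
  obtain ⟨f, hf, j, hj⟩ := mem_dE.mp h2
  rcases MT.mem_Mth'.mp hg with h3 | h3
  · exact mem_dE.mpr ⟨g, h3, k, hk⟩
  exfalso
  unfold bSec at hf
  rw [Finset.mem_sdiff, MT.mem_HBx, MT.mem_HBx] at hf
  rw [MT.mem_Tub] at h3
  have hs : sd ZQ g k = sd ZQ f j ∨ sd ZQ g k = (sd ZQ f j).swap := by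
    rcases hk with hk | hk <;> rcases hj with hj | hj
    · exact Or.inl (hk.symm.trans hj)
    · exact Or.inr (hk.symm.trans hj)
    · right
      rw [← Prod.swap_swap (sd ZQ g k), ← hk, hj]
    · left
      exact Prod.swap_injective (hk.symm.trans hj)
  have hgf : g ≠ f := by
    rintro rfl
    cases lf <;> simp only [Bool.false_eq_true, Bool.true_eq_false, false_and, true_and, false_or,
      or_false] at h3 hf <;> omega
  rcases hs with hs | hs
  · exact hgf (sd_inj hs).1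
  · obtain ⟨g1, g2⟩ := g
    obtain ⟨f1, f2⟩ := f
    obtain ⟨v1, v2⟩ := v
    rcases WG.k_cases k with rfl | rfl | rfl | rfl <;> rcases WG.k_cases j with rfl | rfl | rfl | rfl <;>
      simp only [CM.sd0, CM.sd1, CM.sd2, CM.sd3, Prod.swap_prod_mk, Prod.mk.injEq] at hs <;>
      cases lf <;> simp only [Bool.false_eq_true, Bool.true_eq_false, false_and, true_and, false_or,
        or_false] at h3 hf <;> omega

theorem out_bSec {b : (ℤ × ℤ) × (ℤ × ℤ)} (h0 : 0 < l) (h1 : WG.Te lf v h l b)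
    (h2 : b ∈ dE ZQ (bSec lf v ρ R)) : False := by
  obtain ⟨f, hf, j, hj⟩ := mem_dE.mp h2
  unfold bSec at hf
  rw [Finset.mem_sdiff, MT.mem_HBx, MT.mem_HBx] at hf
  unfold WG.Te at h1
  obtain ⟨f1, f2⟩ := f
  obtain ⟨v1, v2⟩ := v
  rcases hj with rfl | rfl <;> rcases WG.k_cases j with rfl | rfl | rfl | rfl <;>
    simp only [CM.sd0, CM.sd1, CM.sd2, CM.sd3, Prod.swap_prod_mk] at h1 <;>
    cases lf <;> simp only [Bool.false_eq_true, Bool.true_eq_false, if_true, if_false, false_and, true_and,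
      false_or, or_false] at h1 hf <;> omega

/-- the ends of the inner sides -/
theorem inner_InB {b : (ℤ × ℤ) × (ℤ × ℤ)} (h1 : b ∈ dE ZQ (MT.HBx lf v ρ)) :
    InB v ρ b.1 ∧ InB v ρ b.2 := by
  obtain ⟨f, hf, j, hj⟩ := mem_dE.mp h1
  rw [MT.mem_HBx] at hf
  unfold InB
  obtain ⟨f1, f2⟩ := f
  obtain ⟨v1, v2⟩ := v
  rcases hj with rfl | rfl <;> rcases WG.k_cases j with rfl | rfl | rfl | rfl <;>
    simp only [CM.sd0, CM.sd1, CM.sd2, CM.sd3, Prod.swap_prod_mk] at * <;> omega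

theorem HBx_sub : MT.HBx lf v R ⊆ Mth lf v R h l := by
  intro f hf
  rw [MT.mem_Mth']
  exact Or.inl hf

/-- **The ring of the half box.** -/
theorem nox_box (c : MChart Q F lf v R' h l') (hh : 0 < h) (hhρ : h ≤ ρ) (h1 : ρ < R)
    (h2 : R ≤ R') (h3 : l₀ < l) (h4 : l ≤ l') (hr : Rg lf v ρ R (fun f => ω (c.φF f))) :
    NoX Q ω (((bSec lf v ρ R).image c.φF : Finset Φ) : Set Φ) (mim c ρ l₀ : Set Φ)
      ((F : Set Φ) \ mim c R l) := by
  obtain ⟨col, hr⟩ := hr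
  have hM : Mth lf v R h l ⊆ Mth lf v R' h l' := WG.Mth_mono h2 h4
  have hBM : bSec lf v ρ R ⊆ Mth lf v R h l :=
    (bSec_sub (h := h) (l₀ := l₀) (l := l)).trans Finset.sdiff_subset
  have hB : bSec lf v ρ R ⊆ Mth lf v R' h l' := hBM.trans hM
  have hs : (bSec lf v ρ R).image c.φF ⊆ mim c R l := Finset.image_subset_image hBM
  have hcore : Mth lf v ρ h l₀ ⊆ Mth lf v R' h l' := WG.Mth_mono (h1.le.trans h2) (h3.le.trans h4)
  have H : PCh Q (fun f => !Perc.parD col (c.pi f)) ((bSec lf v ρ R).image c.φF) col c.pi c.nu :=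
    c.pch hB fun f hf => by rw [c.pi_φF (hB hf)]
  refine nox_of_noArm H hs (Finset.image_subset_image (WG.Mth_mono h1.le h3.le))
    (mouth_sep c hh hhρ h1 h3 h2 h4) ?_
  rintro x ⟨a, ha, hx⟩ y ⟨b, hb, hy⟩ hc
  have hc' : CC Q (fun f => !Perc.parD col (c.pi f)) ((bSec lf v ρ R).image c.φF)
      (fun f => (fun g => ω (c.φF g)) (c.pi f)) x y := hc.congr fun f hf => by
    obtain ⟨g, hg, rfl⟩ := Finset.mem_image.mp hf
    show ω (c.φF g) = ω (c.φF (c.pi (c.φF g)))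
    rw [c.pi_φF (hB hg)]
  obtain ⟨k1, k2⟩ := H.conn (τ := fun g => ω (c.φF g)) hc'
  have him : ((bSec lf v ρ R).image c.φF).image c.pi = bSec lf v ρ R := by
    rw [Finset.image_image]
    ext f
    rw [Finset.mem_image]
    constructor
    · rintro ⟨g, hg, rfl⟩
      show c.pi (c.φF g) ∈ _
      rwa [c.pi_φF (hB hg)]
    · intro hf
      exact ⟨f, hf, c.pi_φF (hB hf)⟩
  rw [him] at k1
  -- the inner end
  obtain ⟨ha1, ha2⟩ := Finset.mem_inter.mp ha
  obtain ⟨a', ha', rfl⟩ := (c.mem_dE_image hcore).mp ha1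
  obtain ⟨a'', ha'', he⟩ := (c.mem_dE_image hB).mp ha2
  have hea : a' = a'' := by
    obtain ⟨e1, e2⟩ := c.nu_side hcore ha'
    obtain ⟨e3, e4⟩ := c.nu_side hB ha''
    refine Prod.ext ?_ ?_
    · rw [← e1, he, e3]
    · rw [← e2, he, e4]
  subst hea
  -- the outer end
  obtain ⟨hb1, hb2⟩ := Finset.mem_inter.mp hb
  obtain ⟨hb3, hb4⟩ := Finset.mem_sdiff.mp hb1
  obtain ⟨b', hb', rfl⟩ := c.bS_image hM hb3
  obtain ⟨b'', hb'', he'⟩ := (c.mem_dE_image hB).mp hb2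
  have heb : b' = b'' := by
    obtain ⟨e1, e2⟩ := c.nu_side hM (mem_bS.mp hb').1
    obtain ⟨e3, e4⟩ := c.nu_side hB hb''
    refine Prod.ext ?_ ?_
    · rw [← e1, he', e3]
    · rw [← e2, he', e4]
  subst heb
  have hHb : WG.Hb lf v R b' := by
    rcases mch_bS c (hhρ.trans h1.le) h2 h4 b' hb' with h5 | h5 | h5
    · exact absurd h5 hb4
    · exact h5
    · exact (out_bSec (by omega) h5 hb'').elim
  have hbS : b' ∈ bS ZQ (MT.HBx lf v R) := by
    refine mem_bS.mpr ⟨Rel.dE_mono Finset.sdiff_subset hb'', Ini.anti ?_ (mem_bS.mp hb').2⟩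
    exact_mod_cast (HBx_sub (lf := lf) (v := v) (R := R) (h := h) (l := l))
  have hu : c.nu x ∈ Ends (dE ZQ (MT.HBx lf v ρ) ∩ dE ZQ (bSec lf v ρ R)) := by
    obtain ⟨e1, e2⟩ := c.nu_side hcore ha'
    refine ⟨a', Finset.mem_inter.mpr ⟨core_bSec hhρ ha' ha'', ha''⟩, ?_⟩
    rcases hx with rfl | rfl
    · exact Or.inl e1
    · exact Or.inr e2
  have hw : ∃ b ∈ bS ZQ (MT.HBx lf v R), WG.Hb lf v R b ∧ (c.nu y = b.1 ∨ c.nu y = b.2) := by
    obtain ⟨e1, e2⟩ := c.nu_side hM (mem_bS.mp hb').1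
    refine ⟨b', hbS, hHb, ?_⟩
    rcases hy with rfl | rfl
    · exact Or.inl e1
    · exact Or.inr e2
  rcases k2 with k2 | k2
  · exfalso
    obtain ⟨d, hd, hd'⟩ := hu
    obtain ⟨i1, i2⟩ := inner_InB (Finset.mem_inter.mp hd).1
    obtain ⟨d', -, ho, hd''⟩ := hw
    obtain ⟨o1, o2⟩ := ho.1
    have i3 : InB v ρ (c.nu x) := by
      rcases hd' with e | e
      · rw [e]; exact i1
      · rw [e]; exact i2
    have o3 : OutB v R (c.nu x) := by
      rw [k2]
      rcases hd'' with e | e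
      · rw [e]; exact o1
      · rw [e]; exact o2
    unfold InB at i3
    unfold OutB at o3
    have h1' : (ρ : ℤ) < R := by exact_mod_cast h1
    omega
  · exact hr _ _ hu hw k2 k1

/-- **The mouth is not crossed**: cell blocked up to the ring of the half box, and this ring. -/
theorem nox_split (c : MChart Q F lf v R' h l') {cc : ℤ}
    (hD : ∀ f ∈ Mth lf v R' h l', D (c.φF f) = !Perc.parD cc f) (hh : 0 < h) (hhρ : h ≤ ρ) (h1 : ρ < R)
    (h2 : R ≤ R') (h3 : l₀ < l) (h4 : l ≤ l') (hb : MB c D ρ R l₀ l ω')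
    (hω : ∀ f ∈ tSec lf v h l₀ l, ω' (c.φF f) = ω (c.φF f))
    (hr : Rg lf v ρ R (fun f => ω (c.φF f))) :
    NoX Q ω ((mim c R l : Set Φ) \ mim c ρ l₀) (mim c ρ l₀ : Set Φ) ((F : Set Φ) \ mim c R l) := by
  have hM : Mth lf v R h l ⊆ Mth lf v R' h l' := WG.Mth_mono h2 h4
  have e : ((mim c R l : Set Φ) \ mim c ρ l₀) = (((bSec lf v ρ R).image c.φF : Finset Φ) : Set Φ) ∪
      (((tSec lf v h l₀ l).image c.φF : Finset Φ) : Set Φ) := by
    rw [← Finset.coe_sdiff, ← Finset.coe_union]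
    congr 1
    unfold mim
    rw [CM.image_sdiff c.toPChart hM (WG.Mth_mono h1.le h3.le), sec_union, Finset.image_union]
  rw [e]
  refine NoX.union ?_ (nox_box c hh hhρ h1 h2 h3 h4 hr) (nox_tube c hD hh hhρ h1 h2 h3 h4 hb hω)
  rintro b ⟨x, hx, j, rfl⟩ ⟨y, hy, i, hyi⟩
  obtain ⟨f, hf, rfl⟩ := Finset.mem_image.mp (Finset.mem_coe.mp hx)
  obtain ⟨g, hg, rfl⟩ := Finset.mem_image.mp (Finset.mem_coe.mp hy)
  have hf' : f ∈ Mth lf v R' h l' := hM (Finset.sdiff_subset (bSec_sub (h := h) (l₀ := l₀) (l := l) hf))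
  have hg' : g ∈ Mth lf v R' h l' := hM (Finset.sdiff_subset (tSec_sub (ρ := ρ) (R := R) hg))
  rw [c.sd_φF hf', c.sd_φF hg'] at hyi
  have h5 : (sd ZQ f j).swap = sd ZQ g i := by
    have n1 := c.nu_φV hf'
    have n2 := c.nu_φV hg'
    have q1 := congrArg (fun a => c.nu a.1) hyi
    have q2 := congrArg (fun a => c.nu a.2) hyi
    refine Prod.ext ?_ ?_
    · have : c.nu (c.φV (ZQ.c f (j + 1))) = c.nu (c.φV (ZQ.c g i)) := q1
      rw [n1, n2] at this
      exact this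
    · have : c.nu (c.φV (ZQ.c f j)) = c.nu (c.φV (ZQ.c g (i + 1))) := q2
      rw [n1, n2] at this
      exact this
  unfold bSec at hf
  unfold tSec at hg
  rw [Finset.mem_sdiff, MT.mem_HBx, MT.mem_HBx] at hf
  rw [Finset.mem_sdiff, MT.mem_Tub, MT.mem_Tub] at hg
  obtain ⟨g1, g2⟩ := g
  obtain ⟨f1, f2⟩ := f
  obtain ⟨v1, v2⟩ := v
  rcases WG.k_cases i with rfl | rfl | rfl | rfl <;> rcases WG.k_cases j with rfl | rfl | rfl | rfl <;>
    simp only [CM.sd0, CM.sd1, CM.sd2, CM.sd3, Prod.swap_prod_mk, Prod.mk.injEq] at h5 <;>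
    cases lf <;> simp only [Bool.false_eq_true, Bool.true_eq_false, false_and, true_and, false_or,
      or_false] at hg hf <;> omega

/-- the ring event from the event of the full family -/
theorem rg_of_fArm {P : Set (ℤ × ℤ)} (hP : (bSec lf v ρ R : Set (ℤ × ℤ)) ⊆ P) {col : ℤ}
    (h : τ ∉ SixB.FArm col P v ρ R) : Rg lf v ρ R τ := by
  refine ⟨col, fun u w hu hw hc hconn => h ?_⟩
  obtain ⟨d, hd, hd'⟩ := hu
  obtain ⟨i1, i2⟩ := inner_InB (Finset.mem_inter.mp hd).1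
  obtain ⟨d', -, ho, hd''⟩ := hw
  obtain ⟨o1, o2⟩ := ho.1
  have i3 : InB v ρ u := by
    rcases hd' with e | e
    · rw [e]; exact i1
    · rw [e]; exact i2
  have o3 : OutB v R w := by
    rcases hd'' with e | e
    · rw [e]; exact o1
    · rw [e]; exact o2
  exact ⟨u, w, i3.1, i3.2.1, i3.2.2.1, i3.2.2.2, hc, o3, Perc.Conn.mono hP hconn⟩

end mouth

/-! ## Rings of the polygon -/

section ring

variable {m : ℕ} {o : ZMod 4} {v : ℤ × ℤ} {ρ R : ℕ} {τ : Cfg} {P : Finset (ℤ × ℤ)}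

/-- the identity chart of a wedge of a planar surface -/
def idCh (hP : Wdg m o v R ⊆ P) (h1 : ∀ a ∈ wIn (o + m) v R, a ∈ bS ZQ P) (h2 : ∀ a ∈ wOut o v R, a ∈ bS ZQ P) :
    WChart ZQ P m o v R where
  φV := fun x => x
  φF := fun f => f
  cor := fun _ _ _ => rfl
  inj := fun _ _ _ _ _ _ h => h
  sub := fun _ hf => hP hf
  bIn := h1
  bOut := h2

theorem idCh_box (hP : Wdg m o v R ⊆ P) (h1 : ∀ a ∈ wIn (o + m) v R, a ∈ bS ZQ P)
    (h2 : ∀ a ∈ wOut o v R, a ∈ bS ZQ P) (r : ℕ) : (idCh hP h1 h2).box r = Wdg m o v r :=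
  Finset.image_id

/-- **A ring without an arm of one colour is not crossed.** -/
theorem Xc_of_fArm (hm : 1 ≤ m ∧ m ≤ 3) (hP : Wdg m o v R ⊆ P) (h1 : ∀ a ∈ wIn (o + m) v R, a ∈ bS ZQ P)
    (h2 : ∀ a ∈ wOut o v R, a ∈ bS ZQ P) (hρ : ρ < R) {col : ℤ} (h : τ ∉ SixB.FArm col (P : Set (ℤ × ℤ)) v ρ R) :
    Cell.Xc ZQ P (Wdg m o v ρ) (Wdg m o v R) τ = 0 := by
  have H : PCh ZQ (fun f => !Perc.parD col f) (Wdg m o v R \ Wdg m o v ρ) col id id :=
    ⟨fun _ _ _ _ h => h, fun _ _ _ => rfl, fun _ _ => rfl⟩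
  have key : CellBlk ZQ (fun f => !Perc.parD col f) P (Wdg m o v ρ) (Wdg m o v R) τ := by
    rintro x ⟨a, ha, hx⟩ y ⟨b, hb, hy⟩ hcc
    obtain ⟨k1, k2⟩ := H.conn (τ := τ) hcc
    rw [Finset.image_id] at k1
    have i3 : InB v ρ x := by
      obtain ⟨f, hf, k, h3⟩ := mem_dE.mp (Finset.mem_inter.mp ha).1
      have e := fun k => WG.cor_Bx (WG.mem_Wdg.mp hf).1 k
      rcases hx with rfl | rfl <;> rcases h3 with rfl | rfl
      · exact e k
      · exact e (k + 1)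
      · exact e (k + 1)
      · exact e k
    have o3 : OutB v R y := by
      obtain ⟨hb1, hb2⟩ := Finset.mem_sdiff.mp hb
      rcases WG.bS_Wdg hm hb1 with h4 | h4 | h4
      · exact absurd (h1 b h4) hb2
      · exact absurd (h2 b h4) hb2
      · rcases hy with rfl | rfl
        · exact h4.1
        · exact h4.2
    have h1' : (ρ : ℤ) < R := by exact_mod_cast hρ
    rcases k2 with k2 | k2
    · subst k2
      unfold InB at i3
      unfold OutB at o3
      omega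
    · refine h ⟨x, y, i3.1, i3.2.1, i3.2.2.1, i3.2.2.2, k2, o3, Perc.Conn.mono ?_ k1⟩
      exact_mod_cast Finset.sdiff_subset.trans hP
  exact key.Xc H

end ring

end

end Pool.Agent.SixB.LowP
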