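import Pool.Agent.Lib.SixB.S3LowDX
import Pool.Agent.Lib.SixB.S3LowC
import Pool.Agent.Lib.SixB.S3LowS
import Pool.Agent.Lib.SixB.S3PkW
import Pool.Agent.Lib.SixB.S3AsmC
import Pool.Agent.Lib.SixB.S3Pos

/-!
# 6BD, step 3: lower bound for the polygon with blocked mouths, full family
-/

set_option autoImplicit false

namespace Pool.Agent.SixB.LowDX

open Finset Pool.Agent.Perc Pool.Agent.PercD Pool.Agent.PercN Pool.Agent.Perc6 Pool.Agent.Perc.Q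
open Pool.Agent.SixB Pool.Agent.SixB.Tilt Pool.Agent.SixB.DomMk Pool.Agent.SixB.Asm3 Filter Topology Metric

variable {P : Finset (ℤ × ℤ)} {L : ℕ} {g : ℤ → ℤ × ℤ} {S : Slb}

/-- **The rings of the polygon are not crossed.** -/
theorem rgD_of_ring (h : S.Ok) (hk : 16 ≤ S.k) {τ : Cfg}
    (h1 : τ ∈ Ring (S.D : Set (ℤ × ℤ)) (S.x1, S.yc) ((S.k / 16 : ℕ) : ℤ))
    (h2 : τ ∈ Ring (S.D : Set (ℤ × ℤ)) (S.x2, S.yc) ((S.k / 16 : ℕ) : ℤ)) :
    LowP.RgD S (S.k / 16) (4 * (S.k / 16)) τ := by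
  have h4 : 4 * (S.k / 16) ≤ S.k := by omega
  have h16 : 1 ≤ S.k / 16 := by omega
  intro s
  have hsub := LowP.Wb_sub h h4 s
  cases s
  · obtain ⟨col, hcol⟩ := h1
    refine LowP.Xc_of_fArm (m := 2) (o := 3) (v := (S.x1, S.yc)) ⟨by norm_num, by norm_num⟩ hsub
      (fun a ha => ?_) (fun a ha => ?_) (by omega) (col := col) ?_
    · obtain ⟨y, h5, h6, rfl⟩ := UpE.sidesL (Finset.mem_union_left _ ha)
      exact UpE.bL h (by simp only at h5; omega) (by simp only at h6; omega)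
    · obtain ⟨y, h5, h6, rfl⟩ := UpE.sidesL (Finset.mem_union_right _ ha)
      exact UpE.bL h (by simp only at h5; omega) (by simp only at h6; omega)
    · push_cast at hcol ⊢
      exact hcol
  · obtain ⟨col, hcol⟩ := h2
    refine LowP.Xc_of_fArm (m := 2) (o := 1) (v := (S.x2, S.yc)) ⟨by norm_num, by norm_num⟩ hsub
      (fun a ha => ?_) (fun a ha => ?_) (by omega) (col := col) ?_
    · obtain ⟨y, h5, h6, rfl⟩ := UpE.sidesR (Finset.mem_union_left _ ha)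
      exact UpE.bR h (by simp only at h5; omega) (by simp only at h6; omega)
    · obtain ⟨y, h5, h6, rfl⟩ := UpE.sidesR (Finset.mem_union_right _ ha)
      exact UpE.bR h (by simp only at h5; omega) (by simp only at h6; omega)
    · push_cast at hcol ⊢
      exact hcol

variable {ι : Type} {l : Filter ι} {n : ι → ℕ} {z0 : ℂ}

open Classical in
/-- **The lower bound for the full family with blocked mouths.** -/
theorem low_full_fam (hP : MPoly P) (hg : Cont P L g) (hn : Tendsto n l atTop) {α t₁ t₂ t₂' t₃ t₄ : ℝ}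
    {b₁ b₂ b₂' b₃ k : ι → ℤ} (hα : α ∈ Set.Ioo (0 : ℝ) 1) (hm : Marks5 L g t₁ t₂ t₂' t₃ t₄)
    (h₁ : Tendsto (fun i => (b₁ i : ℝ) / n i) l (𝓝 t₁)) (h₂ : Tendsto (fun i => (b₂ i : ℝ) / n i) l (𝓝 t₂))
    (h₂' : Tendsto (fun i => (b₂' i : ℝ) / n i) l (𝓝 t₂')) (h₃ : Tendsto (fun i => (b₃ i : ℝ) / n i) l (𝓝 t₃))
    (h₄ : Tendsto (fun i => (k i : ℝ) / n i) l (𝓝 t₄))
    (D : SFam P L g l n (fun i => jX (n i * L) α (b₁ i) (b₂ i) (b₂' i) (b₃ i) (k i)) z0) {c₀ : ℝ} (hc₀ : 0 < c₀) :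
    ∃ cD : ℝ, 0 < cD ∧ ∃ r₀ : ℝ, 0 < r₀ ∧ ∀ z ∈ ball z0 (D.κ / 4), ∀ r : ℝ, 0 < r → r < r₀ →
      ∀ᶠ i in l, ∀ R : ℕ, c₀ * n i ≤ R → R ≤ n i →
        cD * FP R (St.mkFull α) ≤ av (D.slb z r i).D fun τ =>
          WZ ZQ (D.slb z r i).D (D.slb z r i).ψ (bS ZQ (D.slb z r i).D) τ *
            if LowP.RgD (D.slb z r i) ((D.slb z r i).k / 16) (4 * ((D.slb z r i).k / 16)) τ then 1 else 0 := by
  have hκ := D.hκ
  obtain ⟨K₁, hK₁⟩ := exists_nat_gt (1 / c₀)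
  obtain ⟨c, ρ₀, hc, hρ₀, n₀, H⟩ := low_full hP hg hm (κ₀ := D.κ / 4) (by positivity) (K₁ + 1)
  refine ⟨c, hc, D.κ / 10 ^ 5, by positivity, fun z hz r hr hr' => ?_⟩
  have hnR : Tendsto (fun i => (n i : ℝ)) l atTop := tendsto_natCast_atTop_atTop.comp hn
  have near : ∀ {b : ι → ℤ} {t : ℝ}, Tendsto (fun i => (b i : ℝ) / n i) l (𝓝 t) →
      ∀ᶠ i in l, |(b i : ℝ) / n i - t| < ρ₀ := by
    intro b t h
    have := (Metric.tendsto_nhds.1 h) ρ₀ hρ₀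
    simpa only [Real.dist_eq] using this
  have hfam : MFam L g l n fun i => jX (n i * L) α (b₁ i) (b₂ i) (b₂' i) (b₃ i) (k i) :=
    MFam.full α t₁ t₂ t₂' t₃ t₄ b₁ b₂ b₂' b₃ k hα hm h₁ h₂ h₂' h₃ h₄
  filter_upwards [D.slb_ok hn hz hr hr', D.ph, Pos.famJ_eventually hg.pos hn hfam, hn.eventually_ge_atTop n₀, hn.eventually_gt_atTop 0,
    hnR.eventually_ge_atTop (64 / D.κ), near h₁, near h₂, near h₂', near h₃, near h₄] with i hok hph hfj hi0 hipos hiκ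
    a1 a2 a2' a3 a4
  intro R hR1 hR2
  have hn0 : (0 : ℝ) < n i := by exact_mod_cast hipos
  have hκn : 64 ≤ D.κ * n i := by
    rw [div_le_iff₀ hκ] at hiκ
    linarith
  have hk0 : (D.slb z r i).k = ⌊D.κ * n i / 2⌋₊ := rfl
  have hk1 : ((D.slb z r i).k : ℝ) ≤ D.κ * n i / 2 := by
    rw [hk0]
    exact Nat.floor_le (by positivity)
  have hk2 : D.κ * n i / 2 < (D.slb z r i).k + 1 := by
    rw [hk0]
    exact Nat.lt_floor_add_one _
  have hκ4 := D.hκ'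
  have hk16 : 16 ≤ (D.slb z r i).k := by
    have h5 : (16 : ℝ) ≤ (D.slb z r i).k := by linarith
    exact_mod_cast h5
  have key := H (n i) hi0 α hα.1 hα.2 (k i) (b₁ i) (b₂ i) (b₂' i) (b₃ i) a4 a1 a2 a2' a3 (D.slb z r i) hok rfl
    (by linarith) (by
      have h5 : ((D.slb z r i).k : ℝ) ≤ 2 * n i := by nlinarith
      exact_mod_cast h5) hph R (by
      have h5 : (n i : ℝ) ≤ (K₁ + 1) * R := by
        have h6 : 1 < K₁ * c₀ := by
          rw [div_lt_iff₀ hc₀] at hK₁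
          exact hK₁
        have h7 : (K₁ : ℝ) * (c₀ * n i) ≤ K₁ * R := mul_le_mul_of_nonneg_left hR1 (by positivity)
        have h8 : (0 : ℝ) ≤ R := by positivity
        nlinarith
      exact_mod_cast h5) (by
      calc R ≤ n i := hR2
        _ ≤ (K₁ + 1) * n i := Nat.le_mul_of_pos_left _ (Nat.succ_pos _))
  rw [St.FP_mkFull]
  unfold St.fF
  rw [show sF (.ver ((1 - α) * (Real.pi / 3))) 2 R * sF (.ver (α * (Real.pi / 3))) 2 R * sF .e 2 R =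
    sF .e 2 R * (sF (.ver ((1 - α) * (Real.pi / 3))) 2 R * sF (.ver (α * (Real.pi / 3))) 2 R) by ring]
  refine key.trans (av_mono fun T _ => ?_)
  have hW0 := hok.WZD_nonneg hph hfj (ind T)
  by_cases h : (ind T : Cfg) ∈ Ring ((D.slb z r i).D : Set (ℤ × ℤ)) ((D.slb z r i).x1, (D.slb z r i).yc)
      (((D.slb z r i).k / 16 : ℕ) : ℤ) ∧ (ind T : Cfg) ∈ Ring ((D.slb z r i).D : Set (ℤ × ℤ))
      ((D.slb z r i).x2, (D.slb z r i).yc) (((D.slb z r i).k / 16 : ℕ) : ℤ)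
  · rw [if_pos h, if_pos (rgD_of_ring hok hk16 h.1 h.2)]
  · rw [if_neg h, mul_zero]
    exact mul_nonneg hW0 (by split_ifs <;> norm_num)

end Pool.Agent.SixB.LowDX
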