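import Pool.Agent.Lib.SixB.S3PolyAtl

/-!
# 6BD step 3: the types of the special positions are unique

`types_unique`: two sets of special positions (corners or marks) of the same jumps have the same multiset of types.
-/

set_option autoImplicit false
set_option linter.unusedSectionVars false

namespace Pool.Agent.SixB.LowU

open Pool.Agent.Perc.Q Pool.Agent.Perc Pool.Agent.SixB.PolyAtl

noncomputable section

variable {P : Finset (ℤ × ℤ)} {N n r r' : ℕ} {G : ℤ → ℤ × ℤ} {j : ℤ → ℝ}
  {ψ ψ' : (ℤ × ℤ) × (ℤ × ℤ) → ℝ} {T T' : Finset ℤ} {K K' : ℤ → SK} {t₀ t₀' : ℝ}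

theorem j_per (h : Spc P n N G j ψ T K r t₀) (k q : ℤ) : j (k + q * N) = j k := by
  have e1 : ∀ k, G (k + q * N) = G k := fun k => h.hc.per_zmul k q
  have h1 := h.hψ (k + q * N)
  have h2 := h.hψ k
  have e2 : G (k + q * N + 1) = G (k + 1) := by rw [show k + q * N + 1 = k + 1 + q * N by ring, e1]
  have e3 : G (k + q * N - 1) = G (k - 1) := by rw [show k + q * N - 1 = k - 1 + q * N by ring, e1]
  have e4 : crs G (k + q * N) = crs G k := by
    unfold crs
    rw [e2, e3, e1]
  rw [e1, e2, e3, e4] at h1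
  rw [← h1, ← h2]

/-- distinct special positions are far from each other -/
theorem far (h : Spc P n N G j ψ T K r t₀) {x z p : ℤ} (hx : x ∈ T) (hz : z ∈ T)
    (h1 : |x - z - p * N| < 32 * (r : ℤ)) : x = z ∧ p = 0 := by
  by_contra hc
  have h2 : x ≠ z ∨ -p ≠ 0 := by
    by_cases h3 : x = z
    · right
      intro h4
      exact hc ⟨h3, by omega⟩
    · exact Or.inl h3
  have h3 := h.sep x hx z hz (-p) h2
  rw [show x - z + -p * (N : ℤ) = x - z - p * N by ring] at h3
  omega

/-- the two vertices of a marked side -/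
theorem mark (h : Spc P n N G j ψ T K r t₀) {x : ℤ} (hx : x ∈ T) (hK : SK.mk' (K x)) :
    j x ≠ 0 ∧ j (x + 1) ≠ 0 := by
  have hpi := Real.pi_pos
  rcases hK with hK | hK
  · obtain ⟨-, -, h1, h2⟩ := h.ke x hx hK
    rw [h1, h2]
    exact ⟨by intro h3; linarith, by intro h3; linarith⟩
  · obtain ⟨-, -, h1, h2⟩ := h.kem x hx hK
    rw [h1, h2]
    exact ⟨by intro h3; linarith, by intro h3; linarith⟩

/-- a special position of the first set is one of the second set -/
theorem rep (h : Spc P n N G j ψ T K r t₀) (h' : Spc P n N G j ψ' T' K' r' t₀')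
    (hc : ∀ x ∈ T, mm G x ≠ 2 ∨ j x ≠ 0) {x : ℤ} (hx : x ∈ T) :
    ∃ y ∈ T', ∃ q : ℤ, x = y + q * N := by
  obtain ⟨y, hy, q, h1 | ⟨h1, h2⟩⟩ := h'.spec x (hc x hx)
  · exact ⟨y, hy, q, h1⟩
  · exfalso
    have hr := h.hr
    have h3 := (mark h' hy h1).1
    have h4 : j (x - 1) ≠ 0 := by
      rw [show x - 1 = y + q * N by rw [h2]; ring, j_per h]
      exact h3
    obtain ⟨z, hz, p, h5 | ⟨-, h5⟩⟩ := h.spec (x - 1) (Or.inr h4)
    · obtain ⟨e1, e2⟩ := far h hx hz (p := p) (by
        rw [show x - z - p * (N : ℤ) = 1 by linarith, abs_one]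
        omega)
      subst e1 e2
      omega
    · obtain ⟨e1, e2⟩ := far h hx hz (p := p) (by
        rw [show x - z - p * (N : ℤ) = 2 by linarith]
        norm_num
        omega)
      subst e1 e2
      omega

/-- a marked kind is determined by the jumps -/
theorem mk_of (h : Spc P n N G j ψ T K r t₀) {x : ℤ} (hx : x ∈ T) (h1 : j (x + 1) ≠ 0) :
    SK.mk' (K x) := by
  have hr := h.hr
  obtain ⟨z, hz, p, h5 | ⟨h6, h5⟩⟩ := h.spec (x + 1) (Or.inr h1)
  · exfalso
    obtain ⟨e1, e2⟩ := far h hx hz (p := p) (by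
      rw [show x - z - p * (N : ℤ) = -1 by linarith]
      norm_num
      omega)
    subst e1 e2
    omega
  · obtain ⟨e1, e2⟩ := far h hx hz (p := p) (by
      rw [show x - z - p * (N : ℤ) = 0 by linarith, abs_zero]
      omega)
    rw [e1]
    exact h6

theorem kind_eq (h : Spc P n N G j ψ T K r t₀) (h' : Spc P n N G j ψ' T' K' r' t₀')
    {x y q : ℤ} (hx : x ∈ T) (hy : y ∈ T') (hq : x = y + q * N) : K x = K' y := by
  have hpi := Real.pi_pos
  have e0 : j x = j y := by rw [hq, j_per h]
  have e1 : j (x + 1) = j (y + 1) := by rw [hq, show y + q * N + 1 = y + 1 + q * N by ring, j_per h]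
  by_cases h1 : j (x + 1) = 0
  · have a1 : ¬ SK.mk' (K x) := fun hh => (mark h hx hh).2 h1
    have a2 : ¬ SK.mk' (K' y) := fun hh => (mark h' hy hh).2 (e1 ▸ h1)
    unfold SK.mk' at a1 a2
    push Not at a1 a2
    obtain ⟨J, hJ⟩ : ∃ J, K x = .ver J := by
      cases hK : K x with
      | ver J => exact ⟨J, rfl⟩
      | e => exact absurd hK a1.1
      | em => exact absurd hK a1.2
    obtain ⟨J', hJ'⟩ : ∃ J, K' y = .ver J := by
      cases hK : K' y with
      | ver J => exact ⟨J, rfl⟩
      | e => exact absurd hK a2.1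
      | em => exact absurd hK a2.2
    have b1 := (h.ver x hx J hJ).1
    have b2 := (h'.ver y hy J' hJ').1
    rw [hJ, hJ', ← b1, ← b2, e0]
  · have a1 := mk_of h hx h1
    have a2 := mk_of h' hy (by rw [← e1]; exact h1)
    rcases a1 with a1 | a1 <;> rcases a2 with a2 | a2
    · rw [a1, a2]
    · exfalso
      have b1 := (h.ke x hx a1).2.2.1
      have b2 := (h'.kem y hy a2).2.2.1
      rw [e0, b2] at b1
      linarith
    · exfalso
      have b1 := (h.kem x hx a1).2.2.1
      have b2 := (h'.ke y hy a2).2.2.1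
      rw [e0, b2] at b1
      linarith
    · rw [a1, a2]

/-- **The types of the special positions are unique.** -/
theorem types_unique (h : Spc P n N G j ψ T K r t₀) (h' : Spc P n N G j ψ' T' K' r' t₀')
    (hc : ∀ x ∈ T, mm G x ≠ 2 ∨ j x ≠ 0) (hc' : ∀ x ∈ T', mm G x ≠ 2 ∨ j x ≠ 0) :
    T.val.map (fun x => (K x, mm G x)) = T'.val.map (fun x => (K' x, mm G x)) := by
  choose! y hy q hq using fun x (hx : x ∈ T) => rep h h' hc hx
  refine Multiset.map_eq_map_of_bij_of_nodup _ _ T.nodup T'.nodup (fun x _ => y x) (fun x hx => hy x hx)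
    ?_ ?_ ?_
  · intro x hx x' hx' he
    have h1 := hq x hx
    have h2 := hq x' hx'
    have he' : y x = y x' := he
    refine (far h hx hx' (p := q x - q x') ?_).1
    rw [show x - x' - (q x - q x') * (N : ℤ) = 0 by rw [he'] at h1; linear_combination h1 - h2, abs_zero]
    have := h.hr
    omega
  · intro z hz
    obtain ⟨x, hx, p, hp⟩ := rep h' h hc' hz
    refine ⟨x, hx, ?_⟩
    have h1 := hq x hx
    refine (far h' (hy x hx) hz (p := -(p + q x)) ?_).1
    rw [show y x - z - -(p + q x) * (N : ℤ) = 0 by linear_combination - h1 - hp, abs_zero]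
    have := h'.hr
    omega
  · intro x hx
    have h1 := hq x hx
    refine Prod.ext (kind_eq h h' hx (hy x hx) h1) ?_
    show mm G x = mm G (y x)
    have h2 := mm_per h.hc (y x) (q x)
    rw [← h1] at h2
    exact h2

end

end Pool.Agent.SixB.LowU
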