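import Pool.Agent.Lib.SixB.S3FamE
import Pool.Agent.Lib.SixB.S3LowU

/-!
# 6BD step 3, row R19/R23: LOWER for the polygons with both rings (statement and reduction)

* `cor_of_ty`: a special position of admissible type is a corner or a mark.
* `famTy_eq`: the types of a family are forced.
* `LowAt`, `LowFamAt`: LOWER for the polygon of a slab with both rings not crossed.
* `LowNat`, `LowPair`, `LowFull`: the three families; `lowD_of : LowNat -> LowPair -> LowFull -> FamE.LowD`.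
-/

set_option autoImplicit false
set_option linter.unusedSectionVars false

namespace Pool.Agent.SixB.Asm3

open Complex Filter Topology Metric
open Pool.Agent.Perc Pool.Agent.Perc.Q Pool.Agent.SixB.St
open Pool.Agent.SixB.PolyAtl (mm Jmps Spc posS kd)

noncomputable section

/-- the types of the marks -/
theorem Mk1.kinds {X : Multiset VT} (h : Mk1 X) {p : VT} (hp : p ∈ X) :
    p.1 = .e ∨ ∃ J : ℝ, J ≠ 0 ∧ p.1 = .ver J := by
  have hpi := Real.pi_pos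
  have a1 : (Real.pi / 3 : ℝ) ≠ 0 := by positivity
  rcases h with rfl | ⟨α, hα, rfl | rfl⟩
  · unfold mkNat at hp
    rw [Multiset.mem_singleton] at hp
    exact Or.inr ⟨_, a1, by rw [hp]⟩
  · have a2 : (1 - α) * (Real.pi / 3) ≠ 0 := mul_ne_zero (by linarith [hα.2]) a1
    have a3 : α * (Real.pi / 3) ≠ 0 := mul_ne_zero hα.1.ne' a1
    unfold mkPair at hp
    simp only [Multiset.insert_eq_cons, Multiset.mem_cons, Multiset.mem_singleton] at hp
    rcases hp with hp | hp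
    · exact Or.inr ⟨_, a2, by rw [hp]⟩
    · exact Or.inr ⟨_, a3, by rw [hp]⟩
  · have a2 : (1 - α) * (Real.pi / 3) ≠ 0 := mul_ne_zero (by linarith [hα.2]) a1
    have a3 : α * (Real.pi / 3) ≠ 0 := mul_ne_zero hα.1.ne' a1
    unfold mkFull mkPair at hp
    simp only [Multiset.insert_eq_cons, Multiset.mem_add, Multiset.mem_cons, Multiset.mem_singleton]
      at hp
    rcases hp with (hp | hp) | hp | hp | hp
    · exact Or.inr ⟨_, a2, by rw [hp]⟩
    · exact Or.inr ⟨_, a3, by rw [hp]⟩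
    · exact Or.inr ⟨_, a1, by rw [hp]⟩
    · exact Or.inr ⟨_, a1, by rw [hp]⟩
    · exact Or.inl (by rw [hp])

section uniq

variable {P : Finset (ℤ × ℤ)} {N n r r' b : ℕ} {G : ℤ → ℤ × ℤ} {j : ℤ → ℝ}
  {ψ ψ' : (ℤ × ℤ) × (ℤ × ℤ) → ℝ} {T T' : Finset ℤ} {K K' : ℤ → SK} {t₀ t₀' : ℝ}
  {X X' : Multiset VT}

/-- **a special position of admissible type is a corner or a mark** -/
theorem cor_of_ty (hX : Mk1 X) (h : Spc P n N G j ψ T K r t₀)
    (hT : T.val.map (fun x => (K x, mm G x)) = domV b X) : ∀ x ∈ T, mm G x ≠ 2 ∨ j x ≠ 0 := by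
  intro x hx
  have h1 : (K x, mm G x) ∈ domV b X := by
    rw [← hT]
    exact Multiset.mem_map_of_mem _ hx
  unfold domV at h1
  rw [Multiset.mem_add, Multiset.mem_add] at h1
  rcases h1 with (h1 | h1) | h1
  · left
    have h2 := congrArg Prod.snd (Multiset.eq_of_mem_replicate h1)
    simp only at h2
    omega
  · left
    have h2 := congrArg Prod.snd (Multiset.eq_of_mem_replicate h1)
    simp only at h2
    omega
  · right
    rcases hX.kinds h1 with h2 | ⟨J, hJ, h2⟩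
    · exact (LowU.mark h hx (Or.inl h2)).1
    · rw [(h.ver x hx J h2).1]
      exact hJ

/-- **the marks of two descriptions agree** -/
theorem marks_eq (hX : Mk1 X) (hX' : Mk1 X') (h : Spc P n N G j ψ T K r t₀)
    (h' : Spc P n N G j ψ' T' K' r' t₀')
    (hT : T.val.map (fun x => (K x, mm G x)) = domV b X)
    (hT' : T'.val.map (fun x => (K' x, mm G x)) = domV b X') : X = X' := by
  have h1 := LowU.types_unique h h' (cor_of_ty hX h hT) (cor_of_ty hX' h' hT')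
  rw [hT, hT'] at h1
  unfold domV at h1
  exact add_left_cancel h1

end uniq

variable {P : Finset (ℤ × ℤ)} {L : ℕ} {g : ℤ → ℤ × ℤ} {ι : Type} {l : Filter ι} {n : ι → ℕ}
  {j : ι → ℤ → ℝ} {z0 : ℂ}

/-- **the types of a family are forced** -/
theorem famTy_eq [l.NeBot] (hn : Tendsto n l atTop) (D : SFam P L g l n j z0) {X X' : Multiset VT}
    (hX : Mk1 X) (hX' : Mk1 X') {κ κ' : ℝ} {T T' : ι → Finset ℤ} {K K' : ι → ℤ → SK}
    (hκ : 0 < κ) (hκ' : 0 < κ')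
    (hT : ∀ᶠ i in l, (T i).val.map (fun x => (K i x, mm (gr (n i) g) x)) = domV (Cens.cc L g) X)
    (hT' : ∀ᶠ i in l, (T' i).val.map (fun x => (K' i x, mm (gr (n i) g) x)) =
      domV (Cens.cc L g) X')
    (h : ∀ᶠ i in l, ∀ r : ℕ, ∀ ψ, 2 ≤ r → (r : ℝ) ≤ κ * n i → Jmps (gr (n i) g) (j i) ψ →
      Spc P (n i) (n i * L) (gr (n i) g) (j i) ψ (T i) (K i) r 1)
    (h' : ∀ᶠ i in l, ∀ r : ℕ, ∀ ψ, 2 ≤ r → (r : ℝ) ≤ κ' * n i → Jmps (gr (n i) g) (j i) ψ →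
      Spc P (n i) (n i * L) (gr (n i) g) (j i) ψ (T' i) (K' i) r 1) : X = X' := by
  have h1 := Cens.scale_ev hn hκ
  have h2 := Cens.scale_ev hn hκ'
  obtain ⟨i, a1, a2, a3, a4, a5, a6, a7⟩ :=
    (hT.and (hT'.and (h.and (h'.and (h1.and (h2.and D.ph)))))).exists
  exact marks_eq hX hX' (a3 2 (D.ψ i) le_rfl a5 a7.jump) (a4 2 (D.ψ i) le_rfl a6 a7.jump) a1 a2

/-! ## The statements -/

open Classical in
/-- LOWER for the polygon of the slab `S` at the scale `R` with the marks `X`: both rings are not crossed -/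
def LowAt (S : Slb) (cD : ℝ) (R : ℕ) (X : Multiset VT) : Prop :=
  cD * FP R X ≤ av S.D (fun τ => WZ ZQ S.D S.ψ (bS ZQ S.D) τ *
    if LowP.RgD S (S.k / 16) (4 * (S.k / 16)) τ then 1 else 0)

/-- LOWER for the polygons of a family of slabs -/
def LowFamAt (D : SFam P L g l n j z0) (X : Multiset VT) : Prop := ∀ c0 : ℝ, 0 < c0 →
  ∃ cD > 0, ∃ r0 > 0, ∀ z ∈ ball z0 (D.κ / 4), ∀ r : ℝ, 0 < r → r < r0 → ∀ᶠ i in l,
    ∀ R : ℕ, c0 * n i ≤ R → R ≤ n i → LowAt (D.slb z r i) cD R X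

/-- the natural marks -/
def LowNat : Prop := ∀ (P : Finset (ℤ × ℤ)) (L : ℕ) (g : ℤ → ℤ × ℤ), MPoly P → Cont P L g →
  ∀ {ι : Type} (l : Filter ι) (n : ι → ℕ), Tendsto n l atTop → ∀ (s : ℝ) (b : ι → ℤ), Fl g s →
  Tendsto (fun i => (b i : ℝ) / n i) l (𝓝 s) → ∀ z0 ∈ Om P,
  ∀ D : SFam P L g l n (fun i => jN (n i * L) (b i)) z0, LowFamAt D mkNat

/-- two marks -/
def LowPair : Prop := ∀ (P : Finset (ℤ × ℤ)) (L : ℕ) (g : ℤ → ℤ × ℤ), MPoly P → Cont P L g →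
  ∀ {ι : Type} (l : Filter ι) (n : ι → ℕ), Tendsto n l atTop → ∀ (α s s' : ℝ) (b b' : ι → ℤ),
  α ∈ Set.Ioo (0 : ℝ) 1 → Fl g s → Fl g s' → s < s' → s' < s + L →
  Tendsto (fun i => (b i : ℝ) / n i) l (𝓝 s) → Tendsto (fun i => (b' i : ℝ) / n i) l (𝓝 s') →
  ∀ z0 ∈ Om P, ∀ D : SFam P L g l n (fun i => jP (n i * L) α (b i) (b' i)) z0,
    LowFamAt D (mkPair α)

/-- five marks -/
def LowFull : Prop := ∀ (P : Finset (ℤ × ℤ)) (L : ℕ) (g : ℤ → ℤ × ℤ), MPoly P → Cont P L g →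
  ∀ {ι : Type} (l : Filter ι) (n : ι → ℕ), Tendsto n l atTop →
  ∀ (α t₁ t₂ t₂' t₃ t₄ : ℝ) (b₁ b₂ b₂' b₃ k : ι → ℤ), α ∈ Set.Ioo (0 : ℝ) 1 →
  Marks5 L g t₁ t₂ t₂' t₃ t₄ → Tendsto (fun i => (b₁ i : ℝ) / n i) l (𝓝 t₁) →
  Tendsto (fun i => (b₂ i : ℝ) / n i) l (𝓝 t₂) → Tendsto (fun i => (b₂' i : ℝ) / n i) l (𝓝 t₂') →
  Tendsto (fun i => (b₃ i : ℝ) / n i) l (𝓝 t₃) → Tendsto (fun i => (k i : ℝ) / n i) l (𝓝 t₄) →
  ∀ z0 ∈ Om P, ∀ D : SFam P L g l n (fun i => jX (n i * L) α (b₁ i) (b₂ i) (b₂' i) (b₃ i) (k i)) z0,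
    LowFamAt D (mkFull α)

theorem LowAt.domV {S : Slb} {cD : ℝ} {R b : ℕ} {X : Multiset VT} (h : LowAt S cD R X) :
    LowAt S cD R (St.domV b X) := by
  unfold LowAt at *
  rwa [FP_domV]

theorem LowFamAt.domV {D : SFam P L g l n j z0} {b : ℕ} {X : Multiset VT} (h : LowFamAt D X) :
    LowFamAt D (St.domV b X) := by
  intro c0 hc0
  obtain ⟨cD, hcD, r0, hr0, h1⟩ := h c0 hc0
  exact ⟨cD, hcD, r0, hr0, fun z hz r hr hr' => (h1 z hz r hr hr').mono fun i hi R h2 h3 =>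
    (hi R h2 h3).domV⟩

/-- **LOWER for the polygons from the three families.** -/
theorem lowD_of (h1 : LowNat) (h2 : LowPair) (h3 : LowFull) : FamE.LowD := by
  intro P L g hP hg ι l n hn j hj X κ T K hX hT z0 hz0 D c0 hc0
  suffices hh : LowFamAt D (domV (Cens.cc L g) X) by
    obtain ⟨cD, hcD, r0, hr0, h⟩ := hh c0 hc0
    exact ⟨cD, hcD, r0, hr0, fun z hz r hr hr' => (h z hz r hr hr').mono fun i hi R _ a2 _ a4 =>
      hi R a2 a4⟩
  rcases l.eq_or_neBot with rfl | hl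
  · intro c0 _
    exact ⟨1, one_pos, 1, one_pos, fun z _ r _ _ => by simp⟩
  · cases hj with
    | nat s b hs hb =>
      obtain ⟨κ', hκ', a⟩ := PolyAtl.nat_spc hg hn hs hb
      have e : X = mkNat := famTy_eq hn D hX (Or.inl rfl) hT.pos hκ' hT.ty (Cens.nat_ty hP hg hn hs hb)
        hT.spc a
      rw [e]
      exact (h1 P L g hP hg l n hn s b hs hb z0 hz0 D).domV
    | pair α s s' b b' hα hs hs' a1 a2 hb hb' =>
      obtain ⟨κ', hκ', a⟩ := PolyAtl.pair_spc hg hn (Set.Ioo_subset_Icc_self hα) hs hs' a1 a2 hb hb'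
      have e : X = mkPair α := famTy_eq hn D hX (Or.inr ⟨α, hα, Or.inl rfl⟩) hT.pos hκ' hT.ty
        (Cens.pair_ty hP hg hn hs hs' a1 a2 hb hb') hT.spc a
      rw [e]
      exact (h2 P L g hP hg l n hn α s s' b b' hα hs hs' a1 a2 hb hb' z0 hz0 D).domV
    | full α t₁ t₂ t₂' t₃ t₄ b₁ b₂ b₂' b₃ k hα hm b1 b2 b3 b4 b5 =>
      obtain ⟨κ', hκ', a⟩ := PolyAtl.full_spc hg hn (Set.Ioo_subset_Icc_self hα) hm b1 b2 b3 b4 b5
      have e : X = mkFull α := famTy_eq hn D hX (Or.inr ⟨α, hα, Or.inr rfl⟩) hT.pos hκ' hT.ty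
        (Cens.full_ty hP hg hn hm b1 b2 b3 b4 b5) hT.spc a
      rw [e]
      exact (h3 P L g hP hg l n hn α t₁ t₂ t₂' t₃ t₄ b₁ b₂ b₂' b₃ k hα hm b1 b2 b3 b4 b5 z0 hz0
        D).domV

end

end Pool.Agent.SixB.Asm3
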