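import Pool.Agent.Lib.SixB.S3LowL
import Pool.Agent.Lib.SixB.S3LowEv
import Pool.Agent.Lib.SixB.S3LowFu

/-!
# 6BD step 3, row R19/R23: LOWER for the polygons with both rings

* `slab_side`, `off_slab`: a corner or a jump is not on the walls of the slab.
* `low_ver`: LOWER with both rings for marks of positive weight.
* `lowD_all : FamE.LowD`.
-/

set_option autoImplicit false
set_option linter.unusedSectionVars false

namespace Pool.Agent.SixB.LowN

open Complex Filter Topology Metric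
open Pool.Agent.Perc Pool.Agent.Perc.Q Pool.Agent.SixB.St
open Pool.Agent.SixB.PolyAtl (mm Jmps Spc dd dd_spec dd_spec' crs_eq dz_inj bS_iff_lside)
open Pool.Agent.SixB.EnvB (nb)
open Pool.Agent.SixB.Asm3 (Mk1 FamTy SFam LowFamAt LowAt LowNat LowPair LowFull)

noncomputable section

/-- the middle of the slab with its walls -/
def InS (S : Slb) (v : ℤ × ℤ) : Prop :=
  S.x1 ≤ v.1 ∧ v.1 ≤ S.x2 ∧ S.yc - (S.k / 2 : ℕ) ≤ v.2 ∧ v.2 ≤ S.yc + (S.k / 2 : ℕ)

variable {S : Slb}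

/-- **the boundary sides at the slab** are sides of the walls -/
theorem slab_side (h : S.Ok) {a : (ℤ × ℤ) × (ℤ × ℤ)} (ha : a ∈ bS ZQ S.D)
    (hn : InS S a.1 ∨ InS S a.2) :
    ∃ y : ℤ, S.yc - S.k ≤ y ∧ y < S.yc + S.k ∧
      (a = sd ZQ (S.x2 - 1, y) 1 ∨ a = sd ZQ (S.x1, y) 3) := by
  have h0 := h.ha
  have hak := h.hak
  have hx := h.hx
  obtain ⟨⟨fx, fy⟩, hf, k, rfl⟩ := exists_sd_of_bS ha
  have hI := (mem_bS.mp ha).2
  have hnb : nb (fx, fy) k ∉ S.D := by
    intro hg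
    exact hI _ (by exact_mod_cast hg) (k + 2) (EnvB.swap_inj_iff.mpr ⟨rfl, rfl⟩)
  have hb : S.x1 - 1 ≤ fx ∧ fx ≤ S.x2 ∧ S.yc - (S.k / 2 : ℕ) - 1 ≤ fy ∧
      fy ≤ S.yc + (S.k / 2 : ℕ) := by
    have h1 : (sd ZQ (fx, fy) k).1 = ZQ.c (fx, fy) k := rfl
    have h2 : (sd ZQ (fx, fy) k).2 = ZQ.c (fx, fy) (k + 1) := rfl
    rw [h1, h2] at hn
    have key : ∀ k, InS S (ZQ.c (fx, fy) k) → S.x1 - 1 ≤ fx ∧ fx ≤ S.x2 ∧
        S.yc - (S.k / 2 : ℕ) - 1 ≤ fy ∧ fy ≤ S.yc + (S.k / 2 : ℕ) := by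
      intro k hn
      unfold InS at hn
      rcases Emb.corner_cases (fx, fy) k with ⟨-, e⟩ | ⟨-, e⟩ | ⟨-, e⟩ | ⟨-, e⟩ <;> rw [e] at hn <;>
        (try simp only at hn) <;> omega
    rcases hn with hn | hn
    · exact key _ hn
    · exact key _ hn
  have hx1 : S.x1 ≤ fx := by
    by_contra hne
    have e : fx = S.x1 - 1 := by omega
    rw [e] at hf
    exact h.slab.left fy (by omega) (by omega) (by exact_mod_cast hf)
  have hx2 : fx < S.x2 := by
    by_contra hne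
    have e : fx = S.x2 := by omega
    rw [e] at hf
    exact h.slab.right fy (by omega) (by omega) (by exact_mod_cast hf)
  rcases EnvB.k4 k with rfl | rfl | rfl | rfl
  · exfalso
    refine hnb ?_
    rw [EnvB.nb0]
    exact h.slab.sub _ _ hx1 hx2 (by omega) (by omega)
  · refine ⟨fy, by omega, by omega, Or.inl ?_⟩
    have : fx = S.x2 - 1 := by
      by_contra hne
      refine hnb ?_
      rw [EnvB.nb1]
      exact h.slab.sub _ _ (by omega) (by omega) (by omega) (by omega)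
    rw [this]
  · exfalso
    refine hnb ?_
    rw [EnvB.nb2]
    exact h.slab.sub _ _ hx1 hx2 (by omega) (by omega)
  · refine ⟨fy, by omega, by omega, Or.inr ?_⟩
    have : fx = S.x1 := by
      by_contra hne
      refine hnb ?_
      rw [EnvB.nb3]
      exact h.slab.sub _ _ (by omega) (by omega) (by omega) (by omega)
    rw [this]

variable {N : ℕ} {G : ℤ → ℤ × ℤ} {j : ℤ → ℝ}

/-- **a corner or a jump is not on the walls of the slab** -/
theorem off_slab (h : S.Ok) (hc : Cont S.D N G) (hJ : Jmps G j S.ψ) {x : ℤ}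
    (hx : mm G x ≠ 2 ∨ j x ≠ 0) : ¬ InS S (G x) := by
  intro hn
  have hxx := h.slab.hx
  have b1 : (G x, G (x + 1)) ∈ bS ZQ S.D := bS_iff_lside.mpr (hc.side x)
  have b2 : (G (x - 1), G x) ∈ bS ZQ S.D := by
    have h3 := hc.side (x - 1)
    rw [sub_add_cancel] at h3
    exact bS_iff_lside.mpr h3
  obtain ⟨y1, c1, c2, e1⟩ := slab_side h b1 (Or.inl hn)
  obtain ⟨y2, c3, c4, e2⟩ := slab_side h b2 (Or.inr hn)
  have s1 : ∀ y : ℤ, sd ZQ (S.x2 - 1, y) 1 = ((S.x2, y), (S.x2, y + 1)) := by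
    intro y
    rw [sdz1]
    simp
  have s3 : ∀ y : ℤ, sd ZQ (S.x1, y) 3 = ((S.x1, y + 1), (S.x1, y)) := by
    intro y
    rw [sdz3]
  rw [s1, s3] at e1 e2
  have hj := hJ x
  have fin : ∀ o : ZMod 4, G x = G (x - 1) + dz o → G (x + 1) = G x + dz o →
      S.ψ (G x, G (x + 1)) = S.ψ (G (x - 1), G x) → False := by
    intro o g1 g2 g3
    have d1 : PolyAtl.dd G x = o := dz_inj (by
      have := dd_spec hc x
      rw [this] at g2
      exact add_left_cancel g2)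
    have d2 : PolyAtl.dd G (x - 1) = o := dz_inj (by
      have := dd_spec hc (x - 1)
      rw [sub_add_cancel] at this
      rw [this] at g1
      exact add_left_cancel g1)
    have hm : mm G x = 2 := by
      unfold mm
      rw [d1, d2, add_sub_cancel_left]
      rfl
    have hcr : crs G x = 0 := by
      have := crs_eq hc (k := x)
      rw [hm] at this
      simpa using this
    rcases hx with hx | hx
    · exact hx hm
    · refine hx ?_
      rw [← hj, g3, hcr]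
      simp
  rcases e1 with e1 | e1 <;> rcases e2 with e2 | e2
  · obtain ⟨p1, p2⟩ := Prod.mk.inj e1
    obtain ⟨p3, p4⟩ := Prod.mk.inj e2
    have hy : y2 + 1 = y1 := (Prod.mk.inj (p4.symm.trans p1)).2
    refine fin 1 ?_ ?_ ?_
    · rw [p3, p4, dz1]
      simp
    · rw [p2, p1, dz1]
      simp
    · rw [p3, p4, p2, ← hy, h.right (y2 + 1) (by omega) (by omega), h.right y2 (by omega) (by omega)]
  · have q1 := (Prod.mk.inj e1).1
    have q2 := (Prod.mk.inj e2).2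
    have := (Prod.mk.inj (q1.symm.trans q2)).1
    omega
  · have q1 := (Prod.mk.inj e1).1
    have q2 := (Prod.mk.inj e2).2
    have := (Prod.mk.inj (q1.symm.trans q2)).1
    omega
  · obtain ⟨p1, p2⟩ := Prod.mk.inj e1
    obtain ⟨p3, p4⟩ := Prod.mk.inj e2
    have hy : y1 + 1 = y2 := (Prod.mk.inj (p4.symm.trans p1)).2.symm
    refine fin 3 ?_ ?_ ?_
    · rw [p3, p4, dz3]
      simp
    · rw [p2, p1, dz3]
      simp
    · rw [p3, p4, p2, ← hy, h.left (y1 + 1) (by omega) (by omega), h.left y1 (by omega) (by omega)]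

section fam

variable {P : Finset (ℤ × ℤ)} {L : ℕ} {g : ℤ → ℤ × ℤ} {ι : Type} {l : Filter ι} {n : ι → ℕ}
  {j : ι → ℤ → ℝ} {z0 : ℂ}

open Classical in
/-- **LOWER with both rings for marks of positive weight** -/
theorem low_ver (hn : Tendsto n l atTop) (hj : MFam L g l n j)
    (hL : 0 < L) {X : Multiset VT} (hX : Mk1 X) (hA : ∀ p ∈ X, (1 : ℝ) ≤ sT p.1) {κ : ℝ}
    {T : ι → Finset ℤ} {K : ι → ℤ → SK} (hF : FamTy P L g l n j X κ T K)
    (D : SFam P L g l n j z0) : LowFamAt D X := by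
  intro c0 hc0
  have hκ := D.hκ
  have hκF := hF.pos
  obtain ⟨c1, hc1⟩ : ∃ c1 : ℝ, c1 = min κ (D.κ / 1024) := ⟨_, rfl⟩
  have hc1p : 0 < c1 := by rw [hc1]; positivity
  have hc1κ : c1 ≤ κ := by rw [hc1]; exact min_le_left _ _
  have h2 : 1024 * c1 ≤ D.κ := by
    have := min_le_right κ (D.κ / 1024)
    rw [hc1]
    linarith
  obtain ⟨N, hN⟩ := FamE.numbers D hn hc1p h2
  obtain ⟨r1, hr1, hnum⟩ := hN 0
  obtain ⟨c, hc, hlow⟩ := LowP.low_D2 (L + 5) N 1 one_pos le_rfl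
  obtain ⟨C, hC, hcmp⟩ := FP_cmp (t₀ := 1 / 9) (by norm_num) (by norm_num) (max N ⌈1 / c0⌉₊) X.card
  refine ⟨c / C, by positivity, r1, hr1, fun z hz r hr hr' => ?_⟩
  filter_upwards [hnum z hz r hr hr', hF.cor, hF.ty, hF.spc, D.ph,
    Pos.famJ_eventually hL hn hj, hn.eventually_gt_atTop 0] with i hi hcor hty hspc hph hJ hni
  obtain ⟨hI, hI2⟩ := hi
  intro R hR1 hR2
  have hn0 : (0 : ℝ) < n i := by exact_mod_cast hni
  obtain ⟨R0, hR0⟩ : ∃ R0 : ℕ, R0 = ⌊c1 * n i⌋₊ := ⟨_, rfl⟩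
  rw [← hR0] at hI hI2
  set S : Slb := D.slb z r i with hS
  have hR0κ : (R0 : ℝ) ≤ κ * n i := by
    have e1 := Nat.floor_le (show 0 ≤ c1 * n i by positivity)
    have e2 : c1 * n i ≤ κ * n i := mul_le_mul_of_nonneg_right hc1κ (by positivity)
    rw [hR0]
    exact e1.trans e2
  have hsp := hspc R0 (D.ψ i) hI.r2 hR0κ hph.jump
  have hnN : n i * L / R0 + 1 + 2 * (T i).card ≤ N := by
    have := hF.card i
    have := hI.nN
    omega
  have hph' : PhC S.D (n i * L) (gr (n i) g) (j i) S.ψ := hph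
  have hpD := hI.ok.WZD_nonneg hph' hJ
  have hk := hI.rk
  have hr2 := hI.r2
  have hcor1 : ∀ x ∈ T i, ¬ InS S (gr (n i) g x) := fun x hx =>
    off_slab hI.ok hph'.cont hph'.jump (hcor x hx)
  have hsT : ∀ x ∈ T i, (1 : ℝ) ≤ sT (K i x) := by
    intro x hx
    have h1 : (K i x, mm (gr (n i) g) x) ∈ domV (Cens.cc L g) X := by
      rw [← hty]
      exact Multiset.mem_map_of_mem (fun x => (K i x, mm (gr (n i) g) x)) hx
    unfold domV at h1
    rw [Multiset.mem_add, Multiset.mem_add] at h1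
    rcases h1 with (h1 | h1) | h1
    · rw [(Prod.mk.inj (Multiset.eq_of_mem_replicate h1)).1]
      exact tJ_zero.ge
    · rw [(Prod.mk.inj (Multiset.eq_of_mem_replicate h1)).1]
      exact tJ_zero.ge
    · exact hA _ h1
  have key : c * FP R0 X ≤ av S.D (fun τ => WZ ZQ S.D S.ψ (bS ZQ S.D) τ *
      if LowP.RgD S (S.k / 16) (4 * (S.k / 16)) τ then 1 else 0) := by
    have e := hlow hI.ok (PolyAtl.polyAtlas hsp (hF.card i) hnN) (PolyAtl.polyAtlas_flat hsp _ _)
      (by omega) (by omega) (by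
        rintro ⟨x, hx⟩
        exact hcor1 x hx) (by
        rintro ⟨x, hx⟩
        exact hsT x hx) hpD
    have e2 : St.pvts (PolyAtl.polyAtlas hsp (hF.card i) hnN).toP = domV (Cens.cc L g) X := by
      rw [← hty]
      exact PolyAtl.vts_polyAtlas hsp (hF.card i) hnN
    have e3 : FP R0 X = FP R0 (St.pvts (PolyAtl.polyAtlas hsp (hF.card i) hnN).toP) := by
      rw [e2, FP_domV]
    rw [e3]
    exact e
  have hadm := Asm3.adm_marks hX
  have hle1 : R ≤ max N ⌈1 / c0⌉₊ * R0 :=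
    hR2.trans (hI.nr.trans (Nat.mul_le_mul_right _ (le_max_left _ _)))
  have hle2 : R0 ≤ max N ⌈1 / c0⌉₊ * R := by
    have h3 : R0 ≤ n i := by
      have := hI.rn
      omega
    refine h3.trans (le_trans ?_ (Nat.mul_le_mul_right _ (le_max_right _ _)))
    have h4 : (n i : ℝ) ≤ ((⌈1 / c0⌉₊ * R : ℕ) : ℝ) := by
      push_cast
      have h5 : 1 / c0 ≤ (⌈1 / c0⌉₊ : ℝ) := Nat.le_ceil _
      calc (n i : ℝ) = 1 / c0 * (c0 * n i) := by field_simp
        _ ≤ 1 / c0 * R := mul_le_mul_of_nonneg_left hR1 (by positivity)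
        _ ≤ _ := mul_le_mul_of_nonneg_right h5 (by positivity)
    exact_mod_cast h4
  have hC0 : 0 < C := zero_lt_one.trans_le hC
  have h6 := hcmp X R R0 le_rfl hadm hle1 hle2
  unfold LowAt
  refine le_trans ?_ key
  rw [div_mul_eq_mul_div, div_le_iff₀ hC0]
  calc c * FP R X ≤ c * (C * FP R0 X) := mul_le_mul_of_nonneg_left h6 hc.le
    _ = c * FP R0 X * C := by ring

theorem famTy_mk (hP : MPoly P) (hg : Cont P L g) (hn : Tendsto n l atTop) (hj : MFam L g l n j)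
    {X : Multiset VT} (hX : Mk1 X) {κ : ℝ} {T : ι → Finset ℤ} {K : ι → ℤ → SK} (hκ : 0 < κ)
    (hcard : ∀ i, (T i).card ≤ L + 5)
    (hty : ∀ᶠ i in l, (T i).val.map (fun x => (K i x, mm (gr (n i) g) x)) = domV (Cens.cc L g) X)
    (hspc : ∀ᶠ i in l, ∀ r : ℕ, ∀ ψ, 2 ≤ r → (r : ℝ) ≤ κ * n i → Jmps (gr (n i) g) (j i) ψ →
      Spc P (n i) (n i * L) (gr (n i) g) (j i) ψ (T i) (K i) r 1) :
    FamTy P L g l n j X κ T K := by
  refine ⟨hκ, hcard, ?_, hty, hspc⟩
  filter_upwards [hty, hspc, Cens.scale_ev hn hκ, hn.eventually_gt_atTop 0] with i h1 h2 h3 h0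
  obtain ⟨ψ, hψ⟩ := Asm3.exists_phC hP hg hj h0
  exact Asm3.cor_of_ty hX (h2 2 ψ le_rfl h3 hψ.jump) h1

end fam

/-- **the natural marks** -/
theorem low_nat : LowNat := by
  intro P L g hP hg ι l n hn s b hs hb z0 hz0 D
  obtain ⟨κ, hκ, a⟩ := PolyAtl.nat_spc hg hn hs hb
  have hj : MFam L g l n _ := MFam.nat s b hs hb
  refine low_ver hn hj hg.pos (Or.inl rfl) ?_ (famTy_mk hP hg hn hj (Or.inl rfl) hκ
    (fun i => (PolyAtl.posS_card _ _ _ _).trans (by omega)) (Cens.nat_ty hP hg hn hs hb) a) D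
  intro p hp
  unfold mkNat at hp
  rw [Multiset.mem_singleton] at hp
  rw [hp]
  exact tJ_third.ge

/-- **two marks** -/
theorem low_pair : LowPair := by
  intro P L g hP hg ι l n hn α s s' b b' hα hs hs' a1 a2 hb hb' z0 hz0 D
  obtain ⟨κ, hκ, a⟩ := PolyAtl.pair_spc hg hn (Set.Ioo_subset_Icc_self hα) hs hs' a1 a2 hb hb'
  have hj : MFam L g l n _ := MFam.pair α s s' b b' hα hs hs' a1 a2 hb hb'
  have hX : Mk1 (mkPair α) := Or.inr ⟨α, hα, Or.inl rfl⟩
  refine low_ver hn hj hg.pos hX ?_ (famTy_mk hP hg hn hj hX hκ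
    (fun i => (PolyAtl.posS_card _ _ _ _).trans (by omega))
    (Cens.pair_ty hP hg hn hs hs' a1 a2 hb hb') a) D
  have h3 : 0 < Real.pi / 3 := by positivity
  intro p hp
  unfold mkPair at hp
  simp only [Multiset.insert_eq_cons, Multiset.mem_cons, Multiset.mem_singleton] at hp
  rcases hp with hp | hp
  · rw [hp]
    exact one_le_tJ (mul_nonneg (by linarith [hα.2]) h3.le) (by nlinarith [hα.1])
  · rw [hp]
    exact one_le_tJ (mul_nonneg hα.1.le h3.le) (by nlinarith [hα.2])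

/-- **five marks** -/
theorem low_full : LowFull := by
  intro P L g hP hg ι l n hn α t₁ t₂ t₂' t₃ t₄ b₁ b₂ b₂' b₃ k hα hm h₁ h₂ h₂' h₃ h₄ z0 hz0 D c0 hc0
  exact LowDX.low_full_fam hP hg hn hα hm h₁ h₂ h₂' h₃ h₄ D hc0

/-- **LOWER for the polygons with both rings.** -/
theorem lowD_all : FamE.LowD := Asm3.lowD_of low_nat low_pair low_full

end

end Pool.Agent.SixB.LowN
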