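import Mathlib

/-!
Momentum decomposition of an isometry `W` of finite order and the analytically continued shift.
-/

namespace Pool.Agent.SixB.An

open Complex Finset

variable {H : Type*} [NormedAddCommGroup H] [InnerProductSpace ℂ H]

/-- The momentum angles of a translation of order `N`, in `(-π, π]`. -/
noncomputable def ang (N : ℕ) (j : Fin N) : ℝ :=
  if 2 * (j : ℕ) ≤ N then 2 * Real.pi * j / N else 2 * Real.pi * j / N - 2 * Real.pi

theorem exp_ang (N : ℕ) (j : Fin N) :
    exp (I * (ang N j : ℂ)) = exp (2 * Real.pi * I * (j : ℕ) / N) := by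
  unfold ang
  split_ifs
  · congr 1
    push_cast
    ring
  · have : I * ((2 * Real.pi * (j : ℕ) / N - 2 * Real.pi : ℝ) : ℂ) =
        2 * Real.pi * I * (j : ℕ) / N - 2 * Real.pi * I := by
      push_cast
      ring
    rw [this, Complex.exp_sub, Complex.exp_two_pi_mul_I, div_one]

theorem abs_ang_le_pi {N : ℕ} (j : Fin N) : |ang N j| ≤ Real.pi := by
  have hN : 0 < N := j.pos
  have hNR : (0 : ℝ) < N := by exact_mod_cast hN
  have hj : ((j : ℕ) : ℝ) ≤ N := by exact_mod_cast j.isLt.le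
  have hpi := Real.pi_pos
  unfold ang
  split_ifs with h
  · have h' : 2 * ((j : ℕ) : ℝ) ≤ N := by exact_mod_cast h
    rw [abs_of_nonneg (by positivity), div_le_iff₀ hNR]
    nlinarith
  · push Not at h
    have h' : (N : ℝ) ≤ 2 * ((j : ℕ) : ℝ) := by exact_mod_cast h.le
    have h1 : 2 * Real.pi * (j : ℕ) / N ≤ 2 * Real.pi := by
      rw [div_le_iff₀ hNR]
      nlinarith
    have h2 : Real.pi ≤ 2 * Real.pi * (j : ℕ) / N := by
      rw [le_div_iff₀ hNR]
      nlinarith
    rw [abs_le]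
    constructor <;> linarith

/-- Among all representatives of the momentum, `ang` has least modulus. -/
theorem abs_ang_le {N : ℕ} (j : Fin N) {θ : ℝ}
    (h : exp (I * (θ : ℂ)) = exp (I * (ang N j : ℂ))) : |ang N j| ≤ |θ| := by
  rw [Complex.exp_eq_exp_iff_exists_int] at h
  obtain ⟨k, hk⟩ := h
  have hk' : θ = ang N j + k * (2 * Real.pi) := by
    have h1 : I * (θ : ℂ) = I * ((ang N j + k * (2 * Real.pi) : ℝ) : ℂ) := by
      rw [hk]
      push_cast
      ring
    have h2 := mul_left_cancel₀ Complex.I_ne_zero h1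
    exact_mod_cast h2
  have hpi := Real.pi_pos
  have ha := abs_ang_le_pi j
  rcases eq_or_ne k 0 with h0 | h0
  · subst h0
    rw [hk']
    simp
  · have h1 : (1 : ℝ) ≤ |(k : ℝ)| := by
      have := Int.one_le_abs h0
      exact_mod_cast this
    have h2 : 2 * Real.pi ≤ |(k : ℝ) * (2 * Real.pi)| := by
      rw [abs_mul, abs_of_pos (by linarith : 0 < 2 * Real.pi)]
      nlinarith
    have h3 : |(k : ℝ) * (2 * Real.pi)| ≤ |θ| + |ang N j| := by
      have : (k : ℝ) * (2 * Real.pi) = θ - ang N j := by rw [hk']; ring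
      rw [this]
      exact abs_sub _ _
    linarith

/-- Phases of order `N`. -/
theorem exp_ang_pow (N : ℕ) (j : Fin N) (m : ℕ) :
    exp (I * (m : ℂ) * (ang N j : ℂ)) = exp (2 * Real.pi * I * (j : ℕ) / N) ^ m := by
  rw [← exp_ang, ← Complex.exp_nat_mul]
  congr 1
  ring

theorem exp_ang_inj {N : ℕ} {i j : Fin N}
    (h : exp (I * (ang N i : ℂ)) = exp (I * (ang N j : ℂ))) : i = j := by
  rw [exp_ang, exp_ang] at h
  have hN : N ≠ 0 := i.pos.ne'
  have hprim := Complex.isPrimitiveRoot_exp N hN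
  have e : ∀ k : Fin N, exp (2 * Real.pi * I * (k : ℕ) / N) =
      exp (2 * Real.pi * I / N) ^ (k : ℕ) := by
    intro k
    rw [← Complex.exp_nat_mul]
    congr 1
    ring
  rw [e, e] at h
  exact Fin.ext (hprim.pow_inj i.isLt j.isLt h)

/-- Momentum projection. -/
noncomputable def proj (W : H →ₗ[ℂ] H) (N : ℕ) (j : Fin N) (v : H) : H :=
  (N : ℂ)⁻¹ • ∑ m ∈ range N, exp (-(I * (m : ℂ) * (ang N j : ℂ))) • (W ^ m) v

theorem W_proj {W : H →ₗ[ℂ] H} {N : ℕ} (hW : W ^ N = 1) (j : Fin N) (v : H) :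
    W (proj W N j v) = exp (I * (ang N j : ℂ)) • proj W N j v := by
  unfold proj
  have hN : N ≠ 0 := j.pos.ne'
  rw [map_smul, smul_comm]
  congr 1
  rw [map_sum, smul_sum]
  have e1 : ∀ m : ℕ, W (exp (-(I * (m : ℂ) * (ang N j : ℂ))) • (W ^ m) v) =
      exp (I * (ang N j : ℂ)) • (exp (-(I * ((m + 1 : ℕ) : ℂ) * (ang N j : ℂ))) •
        (W ^ (m + 1)) v) := by
    intro m
    rw [map_smul, pow_succ', Module.End.mul_apply, smul_smul, ← Complex.exp_add]
    congr 2
    push_cast
    ring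
  simp_rw [e1]
  rw [← smul_sum, ← smul_sum]
  congr 1
  have e2 := sum_range_succ (fun m : ℕ => exp (-(I * (m : ℂ) * (ang N j : ℂ))) • (W ^ m) v) N
  have e3 := sum_range_succ' (fun m : ℕ => exp (-(I * (m : ℂ) * (ang N j : ℂ))) • (W ^ m) v) N
  rw [e2] at e3
  have e4 : exp (-(I * (N : ℂ) * (ang N j : ℂ))) • (W ^ N) v =
      exp (-(I * ((0 : ℕ) : ℂ) * (ang N j : ℂ))) • (W ^ 0) v := by
    rw [hW, pow_zero]
    congr 1
    rw [Complex.exp_neg, exp_ang_pow, ← Complex.exp_nat_mul]
    have hNC : (N : ℂ) ≠ 0 := by exact_mod_cast hN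
    have : (N : ℂ) * (2 * Real.pi * I * (j : ℕ) / N) = (j : ℕ) * (2 * Real.pi * I) := by
      field_simp
    rw [this, Complex.exp_nat_mul, Complex.exp_two_pi_mul_I]
    simp
  rw [e4] at e3
  exact (add_right_cancel e3).symm

theorem sum_proj {W : H →ₗ[ℂ] H} {N : ℕ} (hN : 0 < N) (v : H) :
    ∑ j, proj W N j v = v := by
  unfold proj
  rw [← smul_sum, sum_comm]
  have hNC : (N : ℂ) ≠ 0 := by exact_mod_cast hN.ne'
  have e1 : ∀ m ∈ range N, ∑ j : Fin N, exp (-(I * (m : ℂ) * (ang N j : ℂ))) • (W ^ m) v =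
      if m = 0 then (N : ℂ) • v else 0 := by
    intro m hm
    rw [← sum_smul]
    split_ifs with h0
    · subst h0
      simp
    · have hprim := Complex.isPrimitiveRoot_exp N hN.ne'
      set ζ : ℂ := exp (2 * Real.pi * I / N) with hζ
      have e2 : ∀ j : Fin N, exp (-(I * (m : ℂ) * (ang N j : ℂ))) = (ζ⁻¹ ^ m) ^ (j : ℕ) := by
        intro j
        rw [Complex.exp_neg, exp_ang_pow, hζ, inv_pow, inv_pow, ← pow_mul, ← Complex.exp_nat_mul,
          ← Complex.exp_nat_mul]
        congr 2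
        push_cast
        ring
      simp_rw [e2]
      rw [Fin.sum_univ_eq_sum_range (fun j => (ζ⁻¹ ^ m) ^ j) N]
      have hne : ζ⁻¹ ^ m ≠ 1 := by
        intro h
        rw [inv_pow, inv_eq_one] at h
        have := hprim.dvd_of_pow_eq_one m h
        have hlt := mem_range.mp hm
        exact absurd (Nat.le_of_dvd (Nat.pos_of_ne_zero h0) this) (by omega)
      have hpow : (ζ⁻¹ ^ m) ^ N = 1 := by
        rw [← pow_mul, mul_comm, pow_mul, inv_pow, hprim.pow_eq_one]
        simp
      have := mul_geom_sum (ζ⁻¹ ^ m) N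
      rw [hpow, sub_self] at this
      rcases mul_eq_zero.mp this with h | h
      · exact absurd (sub_eq_zero.mp h) hne
      · rw [h, zero_smul]
  rw [sum_congr rfl e1, sum_ite_eq' (range N) 0 (fun _ => (N : ℂ) • v)]
  rw [if_pos (mem_range.mpr hN), smul_smul, inv_mul_cancel₀ hNC, one_smul]

theorem pow_proj {W : H →ₗ[ℂ] H} {N : ℕ} (hW : W ^ N = 1) (j : Fin N) (v : H) (m : ℕ) :
    (W ^ m) (proj W N j v) = exp (I * (m : ℂ) * (ang N j : ℂ)) • proj W N j v := by
  induction m with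
  | zero => simp
  | succ m ih =>
    rw [pow_succ', Module.End.mul_apply, ih, map_smul, W_proj hW, smul_smul, ← Complex.exp_add]
    congr 2
    push_cast
    ring

theorem map_proj {W A : H →ₗ[ℂ] H} (hc : Commute A W) {N : ℕ} (j : Fin N) (v : H) :
    A (proj W N j v) = proj W N j (A v) := by
  unfold proj
  rw [map_smul, map_sum]
  congr 1
  apply sum_congr rfl
  intro m _
  rw [map_smul]
  congr 1
  have := (hc.pow_right m).eq
  calc A ((W ^ m) v) = (A * W ^ m) v := rfl
    _ = (W ^ m * A) v := by rw [this]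
    _ = (W ^ m) (A v) := rfl

theorem orth_of_eig {W : H →ₗ[ℂ] H} (hiso : ∀ x y, inner ℂ (W x) (W y) = inner ℂ x y) {N : ℕ}
    {i j : Fin N} (hij : i ≠ j) {x y : H} (hx : W x = exp (I * (ang N i : ℂ)) • x)
    (hy : W y = exp (I * (ang N j : ℂ)) • y) : inner ℂ x y = 0 := by
  have h := hiso x y
  rw [hx, hy, inner_smul_left, inner_smul_right, ← mul_assoc, ← Complex.exp_conj,
    ← Complex.exp_add] at h
  have h1 : (exp ((starRingEnd ℂ) (I * (ang N i : ℂ)) + I * (ang N j : ℂ)) - 1) *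
      inner ℂ x y = 0 := by
    rw [sub_mul, h]
    ring
  rcases mul_eq_zero.mp h1 with h2 | h2
  · exfalso
    apply hij
    apply exp_ang_inj
    have h3 : (starRingEnd ℂ) (I * (ang N i : ℂ)) = -(I * (ang N i : ℂ)) := by
      rw [map_mul, Complex.conj_I, Complex.conj_ofReal]
      ring
    rw [h3, Complex.exp_add, Complex.exp_neg] at h2
    have h4 : (exp (I * (ang N i : ℂ)))⁻¹ * exp (I * (ang N j : ℂ)) = 1 := sub_eq_zero.mp h2
    have h5 : exp (I * (ang N i : ℂ)) ≠ 0 := Complex.exp_ne_zero _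
    field_simp at h4
    exact h4.symm
  · exact h2

theorem norm_sq_sum_orth {ι : Type*} (s : Finset ι) (x : ι → H)
    (h : ∀ i ∈ s, ∀ j ∈ s, i ≠ j → inner ℂ (x i) (x j) = 0) :
    ‖∑ i ∈ s, x i‖ ^ 2 = ∑ i ∈ s, ‖x i‖ ^ 2 := by
  classical
  have h1 : inner ℂ (∑ i ∈ s, x i) (∑ i ∈ s, x i) = ∑ i ∈ s, inner ℂ (x i) (x i) := by
    rw [sum_inner]
    apply sum_congr rfl
    intro i hi
    rw [inner_sum, sum_eq_single i]
    · intro j hj hji
      exact h i hi j hj hji.symm
    · intro hi'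
      exact absurd hi hi'
  rw [norm_sq_eq_re_inner (𝕜 := ℂ), h1, map_sum]
  apply sum_congr rfl
  intro i _
  rw [norm_sq_eq_re_inner (𝕜 := ℂ)]

/-- The continued shift. -/
noncomputable def shift (W : H →ₗ[ℂ] H) (N : ℕ) (z : ℂ) (v : H) : H :=
  ∑ j : Fin N, exp (I * z * (ang N j : ℂ)) • proj W N j v

theorem shift_nat {W : H →ₗ[ℂ] H} {N : ℕ} (hN : 0 < N) (hW : W ^ N = 1) (m : ℕ) (v : H) :
    shift W N m v = (W ^ m) v := by
  conv_rhs => rw [← sum_proj (W := W) hN v]
  rw [map_sum]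
  apply sum_congr rfl
  intro j _
  rw [pow_proj hW]

theorem shift_zero {W : H →ₗ[ℂ] H} {N : ℕ} (hN : 0 < N) (v : H) : shift W N 0 v = v := by
  conv_rhs => rw [← sum_proj (W := W) hN v]
  apply sum_congr rfl
  intro j _
  simp

/-- Norm bound for the damped continued shift. -/
theorem norm_damped_shift_le {W A : H →ₗ[ℂ] H} {N : ℕ} (hN : 0 < N) (hW : W ^ N = 1)
    (hiso : ∀ x y, inner ℂ (W x) (W y) = inner ℂ x y) (hc : Commute A W) {K b : ℝ} (hK : 0 ≤ K)
    (hcone : ∀ (j : Fin N) (v : H), W v = exp (I * (ang N j : ℂ)) • v →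
      ‖A v‖ ≤ K * Real.exp (-(b * |ang N j|)) * ‖v‖)
    {z : ℂ} (hz : |z.im| ≤ b) (v : H) : ‖A (shift W N z v)‖ ≤ K * ‖v‖ := by
  have hnn : 0 ≤ K * ‖v‖ := mul_nonneg hK (norm_nonneg _)
  rw [← abs_of_nonneg (norm_nonneg (A (shift W N z v))), ← abs_of_nonneg hnn, ← sq_le_sq]
  unfold shift
  rw [map_sum]
  have eA : ∀ j : Fin N, W (A (proj W N j v)) = exp (I * (ang N j : ℂ)) • A (proj W N j v) := by
    intro j
    rw [map_proj hc, W_proj hW]
  rw [norm_sq_sum_orth]
  · calc ∑ j : Fin N, ‖A (exp (I * z * (ang N j : ℂ)) • proj W N j v)‖ ^ 2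
        ≤ ∑ j : Fin N, K ^ 2 * ‖proj W N j v‖ ^ 2 := by
          apply sum_le_sum
          intro j _
          rw [map_smul, norm_smul, Complex.norm_exp]
          have h1 : (I * z * (ang N j : ℂ)).re = -(z.im * ang N j) := by
            simp
          rw [h1]
          have h2 := hcone j (proj W N j v) (W_proj hW j v)
          have h3 : Real.exp (-(z.im * ang N j)) ≤ Real.exp (b * |ang N j|) := by
            apply Real.exp_le_exp.mpr
            calc -(z.im * ang N j) ≤ |z.im * ang N j| := neg_le_abs _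
              _ = |z.im| * |ang N j| := abs_mul _ _
              _ ≤ b * |ang N j| := mul_le_mul_of_nonneg_right hz (abs_nonneg _)
          have h4 : Real.exp (-(z.im * ang N j)) * ‖A (proj W N j v)‖ ≤ K * ‖proj W N j v‖ := by
            calc Real.exp (-(z.im * ang N j)) * ‖A (proj W N j v)‖
                ≤ Real.exp (b * |ang N j|) *
                  (K * Real.exp (-(b * |ang N j|)) * ‖proj W N j v‖) :=
                  mul_le_mul h3 h2 (norm_nonneg _) (Real.exp_pos _).le
              _ = (Real.exp (b * |ang N j|) * Real.exp (-(b * |ang N j|))) *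
                  (K * ‖proj W N j v‖) := by ring
              _ = K * ‖proj W N j v‖ := by
                  rw [← Real.exp_add, add_neg_cancel, Real.exp_zero, one_mul]
          rw [← mul_pow]
          exact pow_le_pow_left₀ (mul_nonneg (Real.exp_pos _).le (norm_nonneg _)) h4 2
      _ = (K * ‖v‖) ^ 2 := by
          rw [← mul_sum, mul_pow]
          congr 1
          rw [← norm_sq_sum_orth, sum_proj hN]
          intro i _ j _ hij
          exact orth_of_eig hiso hij (W_proj hW i v) (W_proj hW j v)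
  · intro i _ j _ hij
    rw [map_smul, map_smul, inner_smul_left, inner_smul_right,
      orth_of_eig hiso hij (eA i) (eA j), mul_zero, mul_zero]

end Pool.Agent.SixB.An
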