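import Pool.Agent.Lib.SixB.S3Chain

/-!
# SixB, step 3.8: comparison of two weighted means which differ on a rare event

`W`, `Y` (weight and weight with insertion) and `Wp`, `Yp` are equal off a rare event (`g = 0`); off
`n1`, `n2` (a strand crosses one of two annuli around the point) the insertion is a local function
`y0` times the weight, and the weight does not depend on the inside.  Then the two normalised means
differ by `P(rare and crossing)`, not by `P(rare)`.
-/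

set_option autoImplicit false

namespace Pool.Agent.SixB

variable {Ω ι : Type*}

/-- The numerators minus the local mean times the denominators. -/
theorem local_split (P : ExpSys Ω ι) {W Y y0 n1 n2 : Ω → ℝ} {B : Set ι}
    (h2 : ∀ ω, n2 ω = 0 ∨ n2 ω = 1) (h1 : ∀ ω, n1 ω = 0 ∨ n1 ω = 1)
    (hY : ∀ ω, n1 ω = 0 → n2 ω = 0 → Y ω = y0 ω * W ω)
    (hy0 : P.Dep B (fun ω => y0 ω * (1 - n1 ω)))
    (hW : P.Dep Bᶜ (fun ω => W ω * (1 - n2 ω))) :
    |P.E Y - P.E (fun ω => y0 ω * (1 - n1 ω)) * P.E W| ≤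
      P.E (fun ω => |Y ω| * max (n1 ω) (n2 ω)) +
        |P.E (fun ω => y0 ω * (1 - n1 ω))| * P.E (fun ω => |W ω| * n2 ω) := by
  set e0 := P.E (fun ω => y0 ω * (1 - n1 ω)) with he0
  have hind := P.E_indep (S := B) (T := Bᶜ) disjoint_compl_right hy0 hW
  have hd1 : P.E Y = P.E (fun ω => (y0 ω * (1 - n1 ω)) * (W ω * (1 - n2 ω))) +
      P.E (fun ω => Y ω * max (n1 ω) (n2 ω)) := by
    rw [← P.add]
    congr 1
    funext ω
    rcases h1 ω with a | a <;> rcases h2 ω with b | b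
    · rw [hY ω a b, a, b]
      simp
    · rw [a, b]
      simp
    · rw [a, b]
      simp
    · rw [a, b]
      simp
  have hd2 : P.E W = P.E (fun ω => W ω * (1 - n2 ω)) + P.E (fun ω => W ω * n2 ω) := by
    rw [← P.add]
    congr 1
    funext ω
    ring
  have habs : ∀ f : Ω → ℝ, |P.E f| ≤ P.E (fun ω => |f ω|) := by
    intro f
    rw [abs_le]
    constructor
    · rw [neg_le, ← P.E_neg]
      exact P.mono _ _ fun ω => neg_le_abs _
    · exact P.mono _ _ fun ω => le_abs_self _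
  have e : P.E Y - e0 * P.E W = P.E (fun ω => Y ω * max (n1 ω) (n2 ω)) -
      e0 * P.E (fun ω => W ω * n2 ω) := by
    rw [hd1, hd2, hind]
    ring
  rw [e]
  refine (abs_sub _ _).trans ?_
  rw [abs_mul]
  have hm : ∀ ω, 0 ≤ max (n1 ω) (n2 ω) := by
    intro ω
    rcases h1 ω with a | a <;> rw [a] <;> simp
  have hn : ∀ ω, 0 ≤ n2 ω := by
    intro ω
    rcases h2 ω with a | a <;> rw [a]
    exact zero_le_one
  gcongr
  · refine (habs _).trans (le_of_eq ?_)
    congr 1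
    funext ω
    rw [abs_mul, abs_of_nonneg (hm ω)]
  · refine (habs _).trans (le_of_eq ?_)
    congr 1
    funext ω
    rw [abs_mul, abs_of_nonneg (hn ω)]

/-- **Comparison of two normalised means.** -/
theorem mouth_compare (P : ExpSys Ω ι) {W Y Wp Yp y0 g n1 n2 : Ω → ℝ} {B : Set ι}
    {c κ δ η Pr : ℝ} (hc : 0 < c) (hPr : 0 < Pr) (hκ : κ ≤ c / 2)
    (hg : ∀ ω, g ω = 0 ∨ g ω = 1)
    (h2 : ∀ ω, n2 ω = 0 ∨ n2 ω = 1) (h1 : ∀ ω, n1 ω = 0 ∨ n1 ω = 1)
    (hG : ∀ ω, g ω = 0 → Wp ω = W ω ∧ Yp ω = Y ω)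
    (hY : ∀ ω, n1 ω = 0 → n2 ω = 0 → Y ω = y0 ω * W ω)
    (hYp : ∀ ω, n1 ω = 0 → n2 ω = 0 → Yp ω = y0 ω * Wp ω)
    (hy0 : P.Dep B (fun ω => y0 ω * (1 - n1 ω)))
    (hW : P.Dep Bᶜ (fun ω => W ω * (1 - n2 ω)))
    (hWp : P.Dep Bᶜ (fun ω => Wp ω * (1 - n2 ω)))
    (hZ : c * Pr ≤ P.E Wp)
    (hb1 : P.E (fun ω => (|Wp ω| + |W ω|) * g ω) ≤ κ * Pr)
    (hb2 : P.E (fun ω => (|Yp ω| + |Y ω|) * g ω * max (n1 ω) (n2 ω)) +
      |P.E (fun ω => y0 ω * (1 - n1 ω))| * P.E (fun ω => (|Wp ω| + |W ω|) * g ω * n2 ω) ≤ δ * Pr)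
    (hb3 : P.E (fun ω => |Y ω| * max (n1 ω) (n2 ω)) +
      |P.E (fun ω => y0 ω * (1 - n1 ω))| * P.E (fun ω => |W ω| * n2 ω) ≤ η * Pr) :
    c / 2 * Pr ≤ P.E W ∧ |P.E Yp / P.E Wp - P.E Y / P.E W| ≤ δ / c + 2 * η * κ / c ^ 2 := by
  set e0 := P.E (fun ω => y0 ω * (1 - n1 ω)) with he0
  have hg0 : ∀ ω, 0 ≤ g ω := by
    intro ω
    rcases hg ω with a | a <;> rw [a]
    exact zero_le_one
  have hn0 : ∀ ω, 0 ≤ n2 ω := by
    intro ω
    rcases h2 ω with a | a <;> rw [a]
    exact zero_le_one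
  have hm0 : ∀ ω, 0 ≤ max (n1 ω) (n2 ω) := fun ω => (hn0 ω).trans (le_max_right _ _)
  have habs : ∀ f : Ω → ℝ, |P.E f| ≤ P.E (fun ω => |f ω|) := by
    intro f
    rw [abs_le]
    constructor
    · rw [neg_le, ← P.E_neg]
      exact P.mono _ _ fun ω => neg_le_abs _
    · exact P.mono _ _ fun ω => le_abs_self _
  -- difference of the denominators
  have hdiff : |P.E Wp - P.E W| ≤ κ * Pr := by
    rw [← P.E_sub]
    refine (habs _).trans (le_trans (P.mono _ _ fun ω => ?_) hb1)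
    rcases hg ω with a | a
    · rw [(hG ω a).1, sub_self, abs_zero]
      exact mul_nonneg (add_nonneg (abs_nonneg _) (abs_nonneg _)) (hg0 ω)
    · rw [a, mul_one]
      exact abs_sub _ _
  have hZW : c / 2 * Pr ≤ P.E W := by
    have h3 := (abs_le.1 hdiff).2
    have h4 : κ * Pr ≤ c / 2 * Pr := mul_le_mul_of_nonneg_right hκ hPr.le
    nlinarith
  refine ⟨hZW, ?_⟩
  have hκ0 : 0 ≤ κ := by
    have h3 := (abs_nonneg _).trans hdiff
    by_contra hneg
    push Not at hneg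
    nlinarith
  have hWppos : 0 < P.E Wp := lt_of_lt_of_le (by positivity) hZ
  have hWpos : 0 < P.E W := lt_of_lt_of_le (by positivity) hZW
  -- the difference of the centred numerators
  have hcen : |(P.E Yp - e0 * P.E Wp) - (P.E Y - e0 * P.E W)| ≤ δ * Pr := by
    have h3 := local_split P (W := fun ω => Wp ω - W ω) (Y := fun ω => Yp ω - Y ω) (y0 := y0)
      (n1 := n1) (n2 := n2) (B := B) h2 h1
      (fun ω a b => by rw [hY ω a b, hYp ω a b]; ring) hy0
      (by
        have h4 := hWp.comp2 hW (fun x y : ℝ => x - y)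
        convert h4 using 2
        ring)
    rw [P.E_sub, P.E_sub] at h3
    have e : (P.E Yp - e0 * P.E Wp) - (P.E Y - e0 * P.E W) =
        P.E Yp - P.E Y - e0 * (P.E Wp - P.E W) := by ring
    rw [e]
    refine h3.trans (le_trans (add_le_add ?_ (mul_le_mul_of_nonneg_left ?_ (abs_nonneg _))) hb2)
    · refine P.mono _ _ fun ω => ?_
      rcases hg ω with a | a
      · rw [(hG ω a).2, sub_self, abs_zero, zero_mul, a]
        simp
      · rw [a, mul_one]
        exact mul_le_mul_of_nonneg_right (abs_sub _ _) (hm0 ω)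
    · refine P.mono _ _ fun ω => ?_
      rcases hg ω with a | a
      · rw [(hG ω a).1, sub_self, abs_zero, zero_mul, a]
        simp
      · rw [a, mul_one]
        exact mul_le_mul_of_nonneg_right (abs_sub _ _) (hn0 ω)
  have hloc : |P.E Y - e0 * P.E W| ≤ η * Pr := (local_split P h2 h1 hY hy0 hW).trans hb3
  have hη0 : 0 ≤ η := by
    have h3 := (abs_nonneg _).trans hloc
    by_contra hneg
    push Not at hneg
    nlinarith
  have hδ0 : 0 ≤ δ := by
    have h3 := (abs_nonneg _).trans hcen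
    by_contra hneg
    push Not at hneg
    nlinarith
  have e : P.E Yp / P.E Wp - P.E Y / P.E W =
      ((P.E Yp - e0 * P.E Wp) - (P.E Y - e0 * P.E W)) / P.E Wp +
        (P.E Y - e0 * P.E W) * (P.E W - P.E Wp) / (P.E W * P.E Wp) := by
    field_simp
    ring
  rw [e]
  refine (abs_add_le _ _).trans (add_le_add ?_ ?_)
  · rw [abs_div, abs_of_pos hWppos, div_le_div_iff₀ hWppos hc]
    calc |(P.E Yp - e0 * P.E Wp) - (P.E Y - e0 * P.E W)| * c ≤ δ * Pr * c :=
          mul_le_mul_of_nonneg_right hcen hc.le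
      _ = δ * (c * Pr) := by ring
      _ ≤ δ * P.E Wp := mul_le_mul_of_nonneg_left hZ hδ0
  · rw [abs_div, abs_mul, abs_of_pos (mul_pos hWpos hWppos), abs_sub_comm (P.E W),
      div_le_div_iff₀ (mul_pos hWpos hWppos) (by positivity)]
    calc |P.E Y - e0 * P.E W| * |P.E Wp - P.E W| * c ^ 2 ≤ (η * Pr) * (κ * Pr) * c ^ 2 := by
          gcongr
      _ = 2 * η * κ * ((c / 2 * Pr) * (c * Pr)) := by ring
      _ ≤ 2 * η * κ * (P.E W * P.E Wp) := by
          refine mul_le_mul_of_nonneg_left ?_ (by positivity)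
          exact mul_le_mul hZW hZ (by positivity) hWpos.le

end Pool.Agent.SixB
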