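import Pool.Agent.Lib.SixB.S0Ins
import Pool.Agent.Lib.SixB.S0Arcs

/-!
# SixB, step 3.8: strands of a surface cut along some sides

`F₁ ⊆ F`: the surface `F` is cut along the common sides of `F₁` and `F \ F₁`.  A strand of `F₁` which
does not touch `F \ F₁` is a strand of `F` with the same weight; the strands of `F` are the untouched
strands of `F₁`, the untouched strands of `F \ F₁` and the strands which touch both.
-/

set_option autoImplicit false
set_option linter.unusedSectionVars false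

namespace Pool.Agent.SixB

open Pool.Agent.Perc.Q Relation

noncomputable section

variable {V Φ : Type} [DecidableEq V] [DecidableEq Φ]
variable {Q : QC V Φ} {F F₁ R : Finset Φ} {ω : Φ → Bool} {a b c e : V × V} {X : Finset (V × V)}

/-- No edge of `X` is a side of a face of `R`. -/
def Off (Q : QC V Φ) (R : Finset Φ) (X : Finset (V × V)) : Prop := ∀ b ∈ X, b ∉ dE Q R

theorem Off.rv (h : Off Q R X) : Off Q R (rv X) := by
  intro b hb hR
  exact h _ (mem_rv.mp hb) (swap_mem_dE.mpr hR)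

/-- an untouched strand is closed under the steps of `F` -/
theorem srel_of_off (hR : F \ F₁ ⊆ R) (h : Off Q R (dst Q F₁ ω a)) (ha : a ∈ dE Q F₁)
    (hc : SRel Q F ω a c) : SRel Q F₁ ω a c := by
  have key : ∀ x y, Nx Q ω (F : Set Φ) x y → (SRel Q F₁ ω a x ∧ x ∈ dE Q F₁) ∨
      (SRel Q F₁ ω a y ∧ y ∈ dE Q F₁) → Nx Q ω (F₁ : Set Φ) x y := by
    intro x y hxy hor
    obtain ⟨f, hf, k, h1, h2⟩ := hxy
    have hf' : f ∈ F := by exact_mod_cast hf
    by_cases hf1 : f ∈ F₁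
    · exact ⟨f, by exact_mod_cast hf1, k, h1, h2⟩
    · exfalso
      have hfR : f ∈ R := hR (Finset.mem_sdiff.mpr ⟨hf', hf1⟩)
      have hN : Nx Q ω (R : Set Φ) x y := ⟨f, by exact_mod_cast hfR, k, h1, h2⟩
      rcases hor with ⟨h3, h4⟩ | ⟨h3, h4⟩
      · exact h x (mem_dst.mpr ⟨h4, h3⟩) (Nx.left_mem hN)
      · exact h y (mem_dst.mpr ⟨h4, h3⟩) (Nx.right_mem hN)
  have main : ∀ x y, SRel Q F ω x y → ((SRel Q F₁ ω a x ∧ x ∈ dE Q F₁) ↔
      (SRel Q F₁ ω a y ∧ y ∈ dE Q F₁)) := by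
    intro x y hxy
    induction hxy with
    | rel x y hn =>
      constructor
      · intro h1
        have h2 := key x y hn (Or.inl h1)
        exact ⟨EqvGen.trans _ _ _ h1.1 (EqvGen.rel _ _ h2), Nx.right_mem h2⟩
      · intro h1
        have h2 := key x y hn (Or.inr h1)
        exact ⟨EqvGen.trans _ _ _ h1.1 (EqvGen.symm _ _ (EqvGen.rel _ _ h2)), Nx.left_mem h2⟩
    | refl x => exact Iff.rfl
    | symm x y _ ih => exact ih.symm
    | trans x y z _ _ ih1 ih2 => exact ih1.trans ih2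
  exact ((main a c hc).mp ⟨EqvGen.refl _, ha⟩).1

theorem srel_mono (hF : F₁ ⊆ F) (h : SRel Q F₁ ω a c) : SRel Q F ω a c := by
  refine EqvGen.mono ?_ _ _ h
  rintro x y ⟨f, hf, h⟩
  exact ⟨f, by exact_mod_cast hF (by exact_mod_cast hf), h⟩

theorem dE_sub (hF : F₁ ⊆ F) : dE Q F₁ ⊆ dE Q F := by
  intro a ha
  obtain ⟨f, hf, k, h⟩ := mem_dE.mp ha
  exact mem_dE.mpr ⟨f, hF hf, k, h⟩

theorem dst_mono (hF : F₁ ⊆ F) : dst Q F₁ ω a ⊆ dst Q F ω a := by
  intro b hb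
  obtain ⟨h1, h2⟩ := mem_dst.mp hb
  exact mem_dst.mpr ⟨dE_sub hF h1, srel_mono hF h2⟩

/-- **An untouched strand of `F₁` is a strand of `F`.** -/
theorem dst_of_off (hF : F₁ ⊆ F) (hR : F \ F₁ ⊆ R) (h : Off Q R (dst Q F₁ ω a))
    (ha : a ∈ dE Q F₁) : dst Q F ω a = dst Q F₁ ω a := by
  refine Finset.Subset.antisymm ?_ (dst_mono hF)
  intro c hc
  obtain ⟨h1, h2⟩ := mem_dst.mp hc
  have h3 := srel_of_off hR h ha h2
  exact mem_dst.mpr ⟨srel_dE h3 ha, h3⟩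

/-- the quarter turns of an untouched strand -/
theorem qt_of_off (hF : F₁ ⊆ F) (hR : F \ F₁ ⊆ R) (hb : b ∉ dE Q R) :
    qt Q F ω b = qt Q F₁ ω b := by
  unfold qt
  symm
  refine Finset.sum_subset hF fun f hf hf1 => ?_
  refine Finset.sum_eq_zero fun k _ => ?_
  rw [if_neg]
  intro hh
  apply hb
  rw [← hh]
  exact sd_mem (hR (Finset.mem_sdiff.mpr ⟨hf, hf1⟩)) k

theorem sw_of_off (hF : F₁ ⊆ F) (hR : F \ F₁ ⊆ R) {h h₁ : V × V → ℂ} (hX : Off Q R X)
    (hh : ∀ b ∈ X, h b = h₁ b) : sw Q F ω h X = sw Q F₁ ω h₁ X := by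
  unfold sw
  refine Finset.prod_congr rfl fun b hb => ?_
  rw [hh b hb, qt_of_off hF hR (hX b hb)]

theorem tX_of_off (hF : F₁ ⊆ F) (hR : F \ F₁ ⊆ R) (hX : Off Q R X) :
    tX Q F ω X = tX Q F₁ ω X := by
  unfold tX
  exact Finset.sum_congr rfl fun b hb => qt_of_off hF hR (hX b hb)

theorem ini_of_off (hF : F₁ ⊆ F) (hR : F \ F₁ ⊆ R) (hb : b ∉ dE Q R) :
    Ini Q (F : Set Φ) b ↔ Ini Q (F₁ : Set Φ) b := by
  constructor
  · intro h f hf k
    exact h f (by exact_mod_cast hF (by exact_mod_cast hf)) k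
  · intro h f hf k hh
    by_cases hf1 : f ∈ F₁
    · exact h f (by exact_mod_cast hf1) k hh
    · apply hb
      rw [hh]
      have hf' : f ∈ F := by exact_mod_cast hf
      exact mem_dE.mpr ⟨f, hR (Finset.mem_sdiff.mpr ⟨hf', hf1⟩), k, Or.inr rfl⟩

theorem ter_of_off (hF : F₁ ⊆ F) (hR : F \ F₁ ⊆ R) (hb : b ∉ dE Q R) :
    Ter Q (F : Set Φ) b ↔ Ter Q (F₁ : Set Φ) b := by
  rw [← ini_swap, ← ini_swap]
  exact ini_of_off hF hR (fun h => hb (swap_mem_dE.mp h))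

/-- a boundary side of `F₁` which is not a side of `R` is a boundary side of `F` -/
theorem bS_of_off (hF : F₁ ⊆ F) (hR : F \ F₁ ⊆ R) (ha : a ∈ bS Q F₁) (hb : a ∉ dE Q R) :
    a ∈ bS Q F := by
  obtain ⟨h1, h2⟩ := mem_bS.mp ha
  exact mem_bS.mpr ⟨dE_sub hF h1, (ini_of_off hF hR hb).mpr h2⟩

/-- a boundary side of `F` which is a side of `F₁` is a boundary side of `F₁` -/
theorem bS_of_sub (hF : F₁ ⊆ F) (ha : a ∈ bS Q F) (hb : a ∈ dE Q F₁) : a ∈ bS Q F₁ := by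
  obtain ⟨h1, h2⟩ := mem_bS.mp ha
  refine mem_bS.mpr ⟨hb, fun f hf k => h2 f ?_ k⟩
  exact_mod_cast hF (by exact_mod_cast hf)

/-- a directed unit edge which is a side of two disjoint sets of faces is an end -/
theorem end_of_common {F₂ : Finset Φ} (hd : Disjoint F₁ F₂) (h1 : b ∈ dE Q F₁)
    (h2 : b ∈ dE Q F₂) : Ini Q (F₁ : Set Φ) b ∨ Ter Q (F₁ : Set Φ) b := by
  obtain ⟨f, hf, k, h3⟩ := mem_dE.mp h1
  obtain ⟨g, hg, l, h4⟩ := mem_dE.mp h2
  have hne : ∀ f' ∈ F₁, f' ≠ g := by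
    rintro f' hf' rfl
    exact Finset.disjoint_left.mp hd hf' hg
  rcases h4 with h4 | h4
  · right
    intro f' hf' k' hh
    rw [h4] at hh
    exact hne f' (by exact_mod_cast hf') (sd_inj hh).1.symm
  · left
    intro f' hf' k' hh
    rw [h4] at hh
    have hh' : sd Q g l = sd Q f' k' := by
      have := congrArg Prod.swap hh
      rwa [Prod.swap_swap] at this
    exact hne f' (by exact_mod_cast hf') (sd_inj hh').1.symm

/-- a strand of `F₁` whose two ends are not sides of `R` is untouched -/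
theorem off_of_ends (hd : Disjoint F₁ R) (ha : a ∈ bS Q F₁) (h1 : a ∉ dE Q R)
    (h2 : mate Q F₁ ω a ∉ dE Q R) : Off Q R (dst Q F₁ ω a) := by
  intro b hb hbR
  obtain ⟨h3, h4⟩ := mem_dst.mp hb
  rcases end_of_common hd h3 hbR with h5 | h5
  · exact h1 (ini_unique (mem_bS.mp ha).2 h5 h4 ▸ hbR)
  · apply h2
    rw [mate_unique (mem_bS.mp ha).2 h5 h4]
    exact swap_mem_dE.mpr hbR

/-- a closed strand of `F₁` is untouched -/
theorem off_of_closed (hd : Disjoint F₁ R) (ha : a ∈ dE Q F₁)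
    (h : ∀ b ∈ dst Q F₁ ω a, ¬ Ini Q (F₁ : Set Φ) b) : Off Q R (dst Q F₁ ω a) := by
  intro b hb hbR
  obtain ⟨h3, h4⟩ := mem_dst.mp hb
  rcases end_of_common hd h3 hbR with h5 | h5
  · exact h b hb h5
  · obtain ⟨c, hc, hc'⟩ := ini_of_ter (dst_mem_dstr ha) hb h5
    exact h c hc hc'

theorem mate_of_off (hF : F₁ ⊆ F) (hR : F \ F₁ ⊆ R) (ha : a ∈ bS Q F₁)
    (h : Off Q R (dst Q F₁ ω a)) : mate Q F ω a = mate Q F₁ ω a := by
  have h1 := lst_spec (ω := ω) (mem_bS.mp ha).2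
  have h2 := srel_lst (ω := ω) (mem_bS.mp ha).2
  have h3 : lst Q F₁ ω a ∈ dst Q F₁ ω a := mem_dst.mpr ⟨srel_dE h2 (mem_bS.mp ha).1, h2⟩
  have h4 : a ∉ dE Q R := h a (self_mem_dst (mem_bS.mp ha).1)
  rw [mate_unique ((ini_of_off hF hR h4).mpr (mem_bS.mp ha).2)
    ((ter_of_off hF hR (h _ h3)).mpr h1.2) (srel_mono hF h2)]
  rfl

theorem turn_of_off (hF : F₁ ⊆ F) (hR : F \ F₁ ⊆ R) (ha : a ∈ dE Q F₁)
    (h : Off Q R (dst Q F₁ ω a)) : turn Q F ω a = turn Q F₁ ω a := by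
  unfold turn
  rw [dst_of_off hF hR h ha, tX_of_off hF hR h]

/-- **Ends of a touched strand.** If the strand of `F` of `a` touches both `F₁` and the rest, then
the strand of `F₁` of `a` ends at a common side. -/
theorem mate_touch (hF : F₁ ⊆ F) (ha : a ∈ bS Q F) (ha1 : a ∈ dE Q F₁)
    (h : ¬ Off Q (F \ F₁) (dst Q F ω a)) :
    a ∈ dE Q (F \ F₁) ∨ mate Q F₁ ω a ∈ dE Q (F \ F₁) := by
  by_contra hcon
  push Not at hcon
  have h1 := bS_of_sub hF ha ha1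
  have h2 := off_of_ends (ω := ω) Finset.disjoint_sdiff h1 hcon.1 hcon.2
  apply h
  rw [dst_of_off hF (Finset.Subset.refl _) h2 ha1]
  exact h2

/-! ## The product over the strands -/

open Classical in
/-- the untouched strands of `F₁` -/
def unt (Q : QC V Φ) (F₁ R : Finset Φ) (ω : Φ → Bool) : Finset (Finset (Finset (V × V))) :=
  (ust Q F₁ ω).filter fun U => ∀ X ∈ U, Off Q R X

open Classical in
/-- the strands of `F` which touch both sides -/
def tch (Q : QC V Φ) (F F₁ : Finset Φ) (ω : Φ → Bool) : Finset (Finset (Finset (V × V))) :=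
  (ust Q F ω).filter fun U => ∃ X ∈ U, ∃ b ∈ X, ∃ c ∈ X, b ∈ dE Q F₁ ∧ c ∈ dE Q (F \ F₁)

theorem mem_unt {U : Finset (Finset (V × V))} :
    U ∈ unt Q F₁ R ω ↔ ∃ a ∈ dE Q F₁, U = {dst Q F₁ ω a, dst Q F₁ ω a.swap} ∧
      Off Q R (dst Q F₁ ω a) := by
  classical
  unfold unt
  rw [Finset.mem_filter, mem_ust]
  constructor
  · rintro ⟨⟨a, ha, rfl⟩, h⟩
    exact ⟨a, ha, rfl, h _ (Finset.mem_insert_self _ _)⟩
  · rintro ⟨a, ha, rfl, h⟩
    refine ⟨⟨a, ha, rfl⟩, fun X hX => ?_⟩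
    rw [Finset.mem_insert, Finset.mem_singleton] at hX
    rcases hX with rfl | rfl
    · exact h
    · rw [← rv_dst]
      exact h.rv

theorem unt_sub_ust (hF : F₁ ⊆ F) (hR : F \ F₁ ⊆ R) : unt Q F₁ R ω ⊆ ust Q F ω := by
  intro U hU
  obtain ⟨a, ha, rfl, h⟩ := mem_unt.mp hU
  refine mem_ust.mpr ⟨a, dE_sub hF ha, ?_⟩
  have h2 : Off Q R (dst Q F₁ ω a.swap) := by
    rw [← rv_dst]
    exact h.rv
  rw [dst_of_off hF hR h ha, dst_of_off hF hR h2 (swap_mem_dE.mpr ha)]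

/-- **The strands of `F`.** -/
theorem ust_cut (hF : F₁ ⊆ F) :
    ust Q F ω = unt Q F₁ (F \ F₁) ω ∪ unt Q (F \ F₁) F₁ ω ∪ tch Q F F₁ ω := by
  classical
  have hR2 : F \ (F \ F₁) ⊆ F₁ := by
    rw [Finset.sdiff_sdiff_eq_self hF]
  apply Finset.Subset.antisymm
  · intro U hU
    rw [Finset.mem_union, Finset.mem_union]
    by_cases ht : U ∈ tch Q F F₁ ω
    · exact Or.inr ht
    · left
      obtain ⟨a, ha, rfl⟩ := mem_ust.mp hU
      have ht' : ∀ b ∈ dst Q F ω a, ∀ c ∈ dst Q F ω a, b ∈ dE Q F₁ → c ∉ dE Q (F \ F₁) := by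
        intro b hb c hc h1 h2
        apply ht
        unfold tch
        rw [Finset.mem_filter]
        exact ⟨hU, _, Finset.mem_insert_self _ _, b, hb, c, hc, h1, h2⟩
      have hcase : a ∈ dE Q F₁ ∨ a ∈ dE Q (F \ F₁) := by
        obtain ⟨f, hf, k, h⟩ := mem_dE.mp ha
        by_cases hf1 : f ∈ F₁
        · exact Or.inl (mem_dE.mpr ⟨f, hf1, k, h⟩)
        · exact Or.inr (mem_dE.mpr ⟨f, Finset.mem_sdiff.mpr ⟨hf, hf1⟩, k, h⟩)
      rcases hcase with h1 | h1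
      · left
        have h2 : Off Q (F \ F₁) (dst Q F₁ ω a) := fun b hb =>
          ht' a (self_mem_dst ha) b (dst_mono hF hb) h1
        have h3 : Off Q (F \ F₁) (dst Q F₁ ω a.swap) := by
          rw [← rv_dst]
          exact h2.rv
        refine mem_unt.mpr ⟨a, h1, ?_, h2⟩
        rw [dst_of_off hF (Finset.Subset.refl _) h2 h1,
          dst_of_off hF (Finset.Subset.refl _) h3 (swap_mem_dE.mpr h1)]
      · right
        have h2 : Off Q F₁ (dst Q (F \ F₁) ω a) := fun b hb h4 =>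
          ht' b (dst_mono Finset.sdiff_subset hb) a (self_mem_dst ha) h4 h1
        have h3 : Off Q F₁ (dst Q (F \ F₁) ω a.swap) := by
          rw [← rv_dst]
          exact h2.rv
        refine mem_unt.mpr ⟨a, h1, ?_, h2⟩
        rw [dst_of_off Finset.sdiff_subset hR2 h2 h1,
          dst_of_off Finset.sdiff_subset hR2 h3 (swap_mem_dE.mpr h1)]
  · intro U hU
    rw [Finset.mem_union, Finset.mem_union] at hU
    rcases hU with (hU | hU) | hU
    · exact unt_sub_ust hF (Finset.Subset.refl _) hU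
    · exact unt_sub_ust Finset.sdiff_subset hR2 hU
    · unfold tch at hU
      exact (Finset.mem_filter.mp hU).1

theorem unt_disj : Disjoint (unt Q F₁ R ω) (unt Q R F₁ ω) := by
  rw [Finset.disjoint_left]
  intro U h1 h2
  obtain ⟨a, ha, rfl, h3⟩ := mem_unt.mp h1
  obtain ⟨b, hb, h4, h5⟩ := mem_unt.mp h2
  have h6 : dst Q F₁ ω a ∈ ({dst Q R ω b, dst Q R ω b.swap} : Finset (Finset (V × V))) := by
    rw [← h4]
    exact Finset.mem_insert_self _ _
  rw [Finset.mem_insert, Finset.mem_singleton] at h6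
  have h7 := self_mem_dst (ω := ω) ha
  rcases h6 with h6 | h6
  · rw [h6] at h7
    exact h5 a h7 ha
  · rw [h6, ← rv_dst] at h7
    exact h5.rv a h7 ha

theorem unt_tch_disj :
    Disjoint (unt Q F₁ (F \ F₁) ω ∪ unt Q (F \ F₁) F₁ ω) (tch Q F F₁ ω) := by
  classical
  rw [Finset.disjoint_left]
  intro U h1 h2
  unfold tch at h2
  obtain ⟨-, X, hX, b, hb, c, hc, h3, h4⟩ := Finset.mem_filter.mp h2
  rw [Finset.mem_union] at h1
  rcases h1 with h1 | h1
  · unfold unt at h1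
    exact (Finset.mem_filter.mp h1).2 X hX c hc h4
  · unfold unt at h1
    exact (Finset.mem_filter.mp h1).2 X hX b hb h3

theorem prod_ust_cut (hF : F₁ ⊆ F) (g : Finset (Finset (V × V)) → ℂ) :
    ∏ U ∈ ust Q F ω, g U = (∏ U ∈ unt Q F₁ (F \ F₁) ω, g U) *
      (∏ U ∈ unt Q (F \ F₁) F₁ ω, g U) * ∏ U ∈ tch Q F F₁ ω, g U := by
  rw [ust_cut hF, Finset.prod_union unt_tch_disj, Finset.prod_union unt_disj]

open Classical in
/-- the strands of `F₁` which touch the rest -/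
def cutS (Q : QC V Φ) (F₁ R : Finset Φ) (ω : Φ → Bool) : Finset (Finset (Finset (V × V))) :=
  (ust Q F₁ ω).filter fun U => ¬ ∀ X ∈ U, Off Q R X

theorem prod_ust_one (g : Finset (Finset (V × V)) → ℂ) :
    ∏ U ∈ ust Q F₁ ω, g U = (∏ U ∈ unt Q F₁ R ω, g U) * ∏ U ∈ cutS Q F₁ R ω, g U := by
  classical
  unfold unt cutS
  rw [Finset.prod_filter_mul_prod_filter_not]

/-- normalised weight of an undirected strand: `Σ sw / √3` for arcs, `Σ sw` for closed strands -/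
def nw (Q : QC V Φ) (F : Finset Φ) (ω : Φ → Bool) (h : V × V → ℂ) (U : Finset (Finset (V × V))) : ℂ :=
  open Classical in
  (∑ X ∈ U, sw Q F ω h X) / (if ∃ X ∈ U, ∃ b ∈ X, Ini Q (F : Set Φ) b then (Real.sqrt 3 : ℂ) else 1)

theorem nw_of_off (hF : F₁ ⊆ F) (hR : F \ F₁ ⊆ R) {h h₁ : V × V → ℂ}
    {U : Finset (Finset (V × V))} (hU : ∀ X ∈ U, Off Q R X)
    (hh : ∀ X ∈ U, ∀ b ∈ X, h b = h₁ b) : nw Q F ω h U = nw Q F₁ ω h₁ U := by
  classical
  unfold nw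
  have e1 : ∑ X ∈ U, sw Q F ω h X = ∑ X ∈ U, sw Q F₁ ω h₁ X :=
    Finset.sum_congr rfl fun X hX => sw_of_off hF hR (hU X hX) (hh X hX)
  have e2 : (∃ X ∈ U, ∃ b ∈ X, Ini Q (F : Set Φ) b) ↔ ∃ X ∈ U, ∃ b ∈ X, Ini Q (F₁ : Set Φ) b := by
    constructor
    · rintro ⟨X, hX, b, hb, h⟩
      exact ⟨X, hX, b, hb, (ini_of_off hF hR (hU X hX b hb)).mp h⟩
    · rintro ⟨X, hX, b, hb, h⟩
      exact ⟨X, hX, b, hb, (ini_of_off hF hR (hU X hX b hb)).mpr h⟩
  rw [e1]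
  congr 1
  exact if_congr e2 rfl rfl

/-- the normalised strand product -/
def Zn (Q : QC V Φ) (F : Finset Φ) (ω : Φ → Bool) (h : V × V → ℂ) : ℂ :=
  ∏ U ∈ ust Q F ω, nw Q F ω h U

/-- the normalised product over the untouched strands -/
def Zu (Q : QC V Φ) (F₁ R : Finset Φ) (ω : Φ → Bool) (h : V × V → ℂ) : ℂ :=
  ∏ U ∈ unt Q F₁ R ω, nw Q F₁ ω h U

/-- **The normalised product of `F` and of the two parts.** -/
theorem Zn_cut (hF : F₁ ⊆ F) {h h₁ : V × V → ℂ}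
    (hh : ∀ b ∈ dE Q F₁, b ∉ dE Q (F \ F₁) → h b = h₁ b) :
    Zn Q F ω h = Zu Q F₁ (F \ F₁) ω h₁ * Zu Q (F \ F₁) F₁ ω h *
      ∏ U ∈ tch Q F F₁ ω, nw Q F ω h U ∧
    Zn Q F₁ ω h₁ = Zu Q F₁ (F \ F₁) ω h₁ * ∏ U ∈ cutS Q F₁ (F \ F₁) ω, nw Q F₁ ω h₁ U := by
  classical
  refine ⟨?_, prod_ust_one _⟩
  unfold Zn
  rw [prod_ust_cut hF]
  congr 2
  · unfold Zu
    refine Finset.prod_congr rfl fun U hU => ?_
    obtain ⟨a, ha, rfl, h1⟩ := mem_unt.mp hU
    have h2 : ∀ X ∈ ({dst Q F₁ ω a, dst Q F₁ ω a.swap} : Finset (Finset (V × V))),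
        Off Q (F \ F₁) X := by
      unfold unt at hU
      exact (Finset.mem_filter.mp hU).2
    refine nw_of_off hF (Finset.Subset.refl _) h2 fun X hX b hb => hh b ?_ (h2 X hX b hb)
    rw [Finset.mem_insert, Finset.mem_singleton] at hX
    rcases hX with rfl | rfl
    · exact (mem_dst.mp hb).1
    · exact (mem_dst.mp hb).1
  · unfold Zu
    refine Finset.prod_congr rfl fun U hU => ?_
    have h2 : ∀ X ∈ U, Off Q F₁ X := by
      unfold unt at hU
      exact (Finset.mem_filter.mp hU).2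
    refine nw_of_off Finset.sdiff_subset ?_ h2 fun X hX b hb => rfl
    rw [Finset.sdiff_sdiff_eq_self hF]

end

end Pool.Agent.SixB
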