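import Pool.Agent.Lib.SixB.S3MouthB

/-!
# SixB, step 3.8: the weight of a surface and of a part, one exceptional strand

`attach`: if all strands which touch both parts have weight `√3` except the strand of one boundary
side `a₀`, whose angle is the same in `F₁` and in `F`, then the normalised products agree up to the
untouched strands of the rest.  Insertions `s` are allowed on the strands of `F₁` which do not touch
the rest and on the strand of `a₀`.
-/

set_option autoImplicit false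
set_option linter.unusedSectionVars false

namespace Pool.Agent.SixB

open Pool.Agent.Perc.Q Relation

noncomputable section

variable {V Φ : Type} [DecidableEq V] [DecidableEq Φ]
variable {Q : QC V Φ} {F F₁ R : Finset Φ} {ω : Φ → Bool} {a b c e : V × V} {X : Finset (V × V)}

/-- the angle of the arc from `a` to its mate -/
def ang6 (Q : QC V Φ) (F : Finset Φ) (ω : Φ → Bool) (ψ : V × V → ℝ) (a : V × V) : ℝ :=
  ψ (mate Q F ω a) - ψ a + turn Q F ω a * (Real.pi / 12)

theorem ang6_mate (ψ : V × V → ℝ) (ha : a ∈ bS Q F) :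
    ang6 Q F ω ψ (mate Q F ω a) = -ang6 Q F ω ψ a := by
  unfold ang6
  rw [mate_mate ha, turn_mate ha]
  push_cast
  ring

theorem sqrt3_ne : (Real.sqrt 3 : ℂ) ≠ 0 := by
  have : Real.sqrt 3 ≠ 0 := Real.sqrt_ne_zero'.mpr (by norm_num)
  exact_mod_cast this

/-- the two weights of an arc with an insertion -/
theorem nw_arc (hQ : NoLoop Q) (ψ : V × V → ℝ) (s : V × V → ℂ) (ha : a ∈ bS Q F) :
    nw Q F ω (fun b => bph Q F ψ b * s b) {dst Q F ω a, dst Q F ω a.swap} =
      (Complex.exp ((ang6 Q F ω ψ a : ℂ) * Complex.I) * ∏ b ∈ dst Q F ω a, s b +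
        Complex.exp (-(ang6 Q F ω ψ a : ℂ) * Complex.I) * ∏ b ∈ dst Q F ω a.swap, s b) /
        Real.sqrt 3 := by
  classical
  unfold nw
  rw [if_pos ⟨_, Finset.mem_insert_self _ _, a, self_mem_dst (mem_bS.mp ha).1, (mem_bS.mp ha).2⟩,
    Finset.sum_pair (dst_ne_swap hQ (mem_bS.mp ha).1), sw_mul, sw_mul, sw_arc ψ ha]
  congr 3
  have h1 : dst Q F ω a.swap = dst Q F ω (mate Q F ω a) := by
    rw [← rv_dst, rv_dst_mate ha]
  rw [h1, sw_arc ψ (mate_mem ha), mate_mate ha, turn_mate ha]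
  congr 2
  unfold ang6
  push_cast
  ring

/-- an arc of weight `√3` -/
theorem nw_one (hQ : NoLoop Q) (ψ : V × V → ℝ) (s : V × V → ℂ) (ha : a ∈ bS Q F)
    (hc : Real.cos (ang6 Q F ω ψ a) = Real.sqrt 3 / 2)
    (hs : ∀ b ∈ dst Q F ω a, s b = 1) (hs' : ∀ b ∈ dst Q F ω a.swap, s b = 1) :
    nw Q F ω (fun b => bph Q F ψ b * s b) {dst Q F ω a, dst Q F ω a.swap} = 1 := by
  rw [nw_arc hQ ψ s ha, Finset.prod_eq_one hs, Finset.prod_eq_one hs', mul_one, mul_one]
  have h := exp_add_exp_neg (ang6 Q F ω ψ a)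
  push_cast at h
  rw [h, ← Complex.ofReal_cos, hc]
  have := sqrt3_ne
  push_cast
  field_simp

/-- a closed strand of turning `±4` -/
theorem nw_closed (hQ : NoLoop Q) (ψ : V × V → ℝ) (s : V × V → ℂ) (ha : a ∈ dE Q F)
    (h : ∀ b ∈ dst Q F ω a, ¬ Ini Q (F : Set Φ) b)
    (ht : tX Q F ω (dst Q F ω a) = 4 ∨ tX Q F ω (dst Q F ω a) = -4)
    (hs : ∀ b ∈ dst Q F ω a, s b = 1) (hs' : ∀ b ∈ dst Q F ω a.swap, s b = 1) :
    nw Q F ω (fun b => bph Q F ψ b * s b) {dst Q F ω a, dst Q F ω a.swap} = 1 := by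
  classical
  have h' : ∀ b ∈ dst Q F ω a.swap, ¬ Ini Q (F : Set Φ) b := by
    intro b hb hi
    rw [← rv_dst, mem_rv] at hb
    obtain ⟨c, hc, hc'⟩ := ini_of_ter (dst_mem_dstr ha) hb (ter_swap.mpr hi)
    exact h c hc hc'
  unfold nw
  rw [if_neg, div_one]
  · have h1 : ∑ X ∈ ({dst Q F ω a, dst Q F ω a.swap} : Finset (Finset (V × V))),
        sw Q F ω (fun b => bph Q F ψ b * s b) X =
        ∑ X ∈ ({dst Q F ω a, rv (dst Q F ω a)} : Finset (Finset (V × V))),
        sw Q F ω (bph Q F ψ) X := by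
      rw [rv_dst]
      refine Finset.sum_congr rfl fun X hX => ?_
      rw [sw_mul, Finset.prod_eq_one, mul_one]
      rw [Finset.mem_insert, Finset.mem_singleton] at hX
      rcases hX with rfl | rfl
      · exact hs
      · exact hs'
    rw [h1, sw_loop_sum hQ ψ (dst_mem_dstr ha) h]
    have h2 : Real.cos (4 * (Real.pi / 12)) = 1 / 2 := by
      rw [show 4 * (Real.pi / 12) = Real.pi / 3 by ring, Real.cos_pi_div_three]
    rcases ht with ht | ht
    · rw [ht]
      have : ((4 : ℤ) : ℝ) * (Real.pi / 12) = 4 * (Real.pi / 12) := by push_cast; ring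
      rw [this, h2]
      norm_num
    · rw [ht]
      have : ((-4 : ℤ) : ℝ) * (Real.pi / 12) = -(4 * (Real.pi / 12)) := by push_cast; ring
      rw [this, Real.cos_neg, h2]
      norm_num
  · rintro ⟨X, hX, b, hb, hi⟩
    rw [Finset.mem_insert, Finset.mem_singleton] at hX
    rcases hX with rfl | rfl
    · exact h b hb hi
    · exact h' b hb hi

/-- a strand of `F` which meets `F₁` at `b` and touches the rest: the strand of `F₁` of `b` touches
the rest -/
theorem not_off_of_touch (hF : F₁ ⊆ F) (hb : b ∈ dst Q F ω a) (hb1 : b ∈ dE Q F₁)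
    (hc : c ∈ dst Q F ω a) (hcR : c ∈ dE Q (F \ F₁)) : ¬ Off Q (F \ F₁) (dst Q F₁ ω b) := by
  intro h
  have h1 := dst_of_off hF (Finset.Subset.refl _) h hb1
  have h2 : dst Q F ω a = dst Q F ω b := dst_eq (mem_dst.mp hb).2
  rw [h2, h1] at hc
  exact h c hc hcR

/-- **Attaching the rest along some sides, one exceptional strand.** -/
theorem attach (hQ : NoLoop Q) (hF : F₁ ⊆ F) {ψ ψ₁ : V × V → ℝ} {s : V × V → ℂ} {a₀ : V × V}
    (hψ : ∀ a ∈ bS Q F₁, a ∉ dE Q (F \ F₁) → ψ a = ψ₁ a)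
    (hL : ∀ a ∈ dE Q F, (∀ b ∈ dst Q F ω a, ¬ Ini Q (F : Set Φ) b) →
      (∃ b ∈ dst Q F ω a, b ∈ dE Q (F \ F₁)) →
      tX Q F ω (dst Q F ω a) = 4 ∨ tX Q F ω (dst Q F ω a) = -4)
    (ha₀ : a₀ ∈ bS Q F₁) (ha₀R : a₀ ∉ dE Q (F \ F₁))
    (h0 : ang6 Q F ω ψ a₀ = ang6 Q F₁ ω ψ₁ a₀)
    (h1 : ∀ a ∈ bS Q F, (∃ b ∈ dst Q F ω a, b ∈ dE Q F₁) →
      (∃ b ∈ dst Q F ω a, b ∈ dE Q (F \ F₁)) → a ≠ a₀ → a ≠ mate Q F ω a₀ →
      Real.cos (ang6 Q F ω ψ a) = Real.sqrt 3 / 2)
    (h2 : ∀ a ∈ bS Q F₁, ¬ Off Q (F \ F₁) (dst Q F₁ ω a) → a ≠ a₀ → a ≠ mate Q F₁ ω a₀ →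
      Real.cos (ang6 Q F₁ ω ψ₁ a) = Real.sqrt 3 / 2)
    (hs1 : ∀ b ∈ dE Q (F \ F₁), s b = 1)
    (hs2 : ∀ b ∈ dE Q F₁, ¬ Off Q (F \ F₁) (dst Q F₁ ω b) → b ∉ dst Q F₁ ω a₀ →
      b.swap ∉ dst Q F₁ ω a₀ → s b = 1) :
    Zn Q F ω (fun b => bph Q F ψ b * s b) = Zn Q F₁ ω (fun b => bph Q F₁ ψ₁ b * s b) *
      Zu Q (F \ F₁) F₁ ω (fun b => bph Q F ψ b * s b) := by
  classical
  have hrefl : F \ F₁ ⊆ F \ F₁ := Finset.Subset.refl _
  have hh : ∀ b ∈ dE Q F₁, b ∉ dE Q (F \ F₁) →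
      bph Q F ψ b * s b = bph Q F₁ ψ₁ b * s b := by
    intro b hb hbR
    congr 1
    by_cases hi : Ini Q (F₁ : Set Φ) b
    · rw [bph_ini ψ₁ hi, bph_ini ψ ((ini_of_off hF hrefl hbR).mpr hi),
        hψ b (mem_bS.mpr ⟨hb, hi⟩) hbR]
    · by_cases ht : Ter Q (F₁ : Set Φ) b
      · rw [bph_ter ψ₁ hb ht, bph_ter ψ (dE_sub hF hb) ((ter_of_off hF hrefl hbR).mpr ht),
          hψ b.swap (mem_bS.mpr ⟨swap_mem_dE.mpr hb, ini_swap.mpr ht⟩)
            (fun h => hbR (swap_mem_dE.mp h))]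
      · rw [bph_in ψ₁ hi ht, bph_in ψ (fun h => hi ((ini_of_off hF hrefl hbR).mp h))
          (fun h => ht ((ter_of_off hF hrefl hbR).mp h))]
  obtain ⟨e1, e2⟩ := Zn_cut (ω := ω) hF hh
  rw [e1, e2]
  set U₀ : Finset (Finset (V × V)) := {dst Q F ω a₀, dst Q F ω a₀.swap} with hU₀
  set U₁ : Finset (Finset (V × V)) := {dst Q F₁ ω a₀, dst Q F₁ ω a₀.swap} with hU₁
  have ha₀F : a₀ ∈ bS Q F := bS_of_off hF hrefl ha₀ ha₀R
  have ha₀E : a₀ ∈ dE Q F₁ := (mem_bS.mp ha₀).1
  -- the insertion is trivial on the touched strands other than that of `a₀`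
  have hsF : ∀ a, dst Q F ω a ≠ dst Q F ω a₀ → dst Q F ω a ≠ dst Q F ω a₀.swap →
      (∃ b ∈ dst Q F ω a, b ∈ dE Q F₁) → (∃ b ∈ dst Q F ω a, b ∈ dE Q (F \ F₁)) →
      ∀ b ∈ dst Q F ω a, s b = 1 := by
    rintro a hne1 hne2 - ⟨c, hc, hcR⟩ b hb
    by_cases hbR : b ∈ dE Q (F \ F₁)
    · exact hs1 b hbR
    · have hb1 : b ∈ dE Q F₁ := by
        obtain ⟨f, hf, k, h⟩ := mem_dE.mp (mem_dst.mp hb).1
        by_cases hf1 : f ∈ F₁
        · exact mem_dE.mpr ⟨f, hf1, k, h⟩
        · exact absurd (mem_dE.mpr ⟨f, Finset.mem_sdiff.mpr ⟨hf, hf1⟩, k, h⟩) hbR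
      refine hs2 b hb1 (not_off_of_touch hF hb hb1 hc hcR) ?_ ?_
      · intro hb0
        apply hne1
        have h3 := (mem_dst.mp (dst_mono hF hb0)).2
        rw [dst_eq (mem_dst.mp hb).2, dst_eq h3]
      · intro hb0
        apply hne2
        have h3 := srel_swap (mem_dst.mp (dst_mono hF hb0)).2
        rw [Prod.swap_swap] at h3
        rw [dst_eq (mem_dst.mp hb).2, dst_eq h3]
  have hsF1 : ∀ a, dst Q F₁ ω a ≠ dst Q F₁ ω a₀ → dst Q F₁ ω a ≠ dst Q F₁ ω a₀.swap →
      ¬ Off Q (F \ F₁) (dst Q F₁ ω a) → ∀ b ∈ dst Q F₁ ω a, s b = 1 := by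
    intro a hne1 hne2 ho b hb
    obtain ⟨hb1, hb2⟩ := mem_dst.mp hb
    refine hs2 b hb1 ?_ ?_ ?_
    · rw [← dst_eq hb2]
      exact ho
    · intro hb0
      apply hne1
      rw [dst_eq hb2, dst_eq (mem_dst.mp hb0).2]
    · intro hb0
      apply hne2
      have h3 := srel_swap (mem_dst.mp hb0).2
      rw [Prod.swap_swap] at h3
      rw [dst_eq hb2, dst_eq h3]
  -- all other factors are one
  have oneF : ∀ U ∈ tch Q F F₁ ω, U ≠ U₀ → nw Q F ω (fun b => bph Q F ψ b * s b) U = 1 := by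
    intro U hU hne
    unfold tch at hU
    obtain ⟨hU1, X, hX, b, hb, c, hc, hb1, hcR⟩ := Finset.mem_filter.mp hU
    obtain ⟨a, ha, rfl⟩ := mem_ust.mp hU1
    -- the strand of `a` itself touches
    have hta : (∃ b ∈ dst Q F ω a, b ∈ dE Q F₁) ∧ (∃ b ∈ dst Q F ω a, b ∈ dE Q (F \ F₁)) := by
      rw [Finset.mem_insert, Finset.mem_singleton] at hX
      rcases hX with rfl | rfl
      · exact ⟨⟨b, hb, hb1⟩, ⟨c, hc, hcR⟩⟩
      · rw [← rv_dst] at hb hc
        exact ⟨⟨b.swap, mem_rv.mp hb, swap_mem_dE.mpr hb1⟩,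
          ⟨c.swap, mem_rv.mp hc, swap_mem_dE.mpr hcR⟩⟩
    have hta' : (∃ b ∈ dst Q F ω a.swap, b ∈ dE Q F₁) ∧
        (∃ b ∈ dst Q F ω a.swap, b ∈ dE Q (F \ F₁)) := by
      obtain ⟨⟨b, hb, hb1⟩, ⟨c, hc, hcR⟩⟩ := hta
      rw [← rv_dst]
      exact ⟨⟨b.swap, mem_rv.mpr (by rwa [Prod.swap_swap]), swap_mem_dE.mpr hb1⟩,
        ⟨c.swap, mem_rv.mpr (by rwa [Prod.swap_swap]), swap_mem_dE.mpr hcR⟩⟩
    have hne1 : dst Q F ω a ≠ dst Q F ω a₀ := by
      intro h
      apply hne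
      rw [hU₀, h]
      have h3 : SRel Q F ω a a₀ := by
        have := self_mem_dst (ω := ω) (mem_bS.mp ha₀F).1
        rw [← h] at this
        exact (mem_dst.mp this).2
      rw [dst_eq (srel_swap h3)]
    have hne2 : dst Q F ω a ≠ dst Q F ω a₀.swap := by
      intro h
      apply hne
      have h3 : SRel Q F ω a a₀.swap := by
        have := self_mem_dst (ω := ω) (swap_mem_dE.mpr (mem_bS.mp ha₀F).1)
        rw [← h] at this
        exact (mem_dst.mp this).2
      have h4 := srel_swap h3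
      rw [Prod.swap_swap] at h4
      rw [hU₀, h, dst_eq h4, Finset.pair_comm]
    have hne1' : dst Q F ω a.swap ≠ dst Q F ω a₀ := by
      intro h
      apply hne2
      rw [← Prod.swap_swap a, ← rv_dst, h, rv_dst]
    have hne2' : dst Q F ω a.swap ≠ dst Q F ω a₀.swap := by
      intro h
      apply hne1
      rw [← Prod.swap_swap a, ← rv_dst, h, rv_dst, Prod.swap_swap]
    have hsa := hsF a hne1 hne2 hta.1 hta.2
    have hsa' := hsF a.swap hne1' hne2' hta'.1 hta'.2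
    by_cases hcl : ∀ b ∈ dst Q F ω a, ¬ Ini Q (F : Set Φ) b
    · exact nw_closed hQ ψ s ha hcl (hL a ha hcl hta.2) hsa hsa'
    · push Not at hcl
      obtain ⟨x, hx, hxi⟩ := hcl
      obtain ⟨hx1, hx2⟩ := mem_dst.mp hx
      have hxb : x ∈ bS Q F := mem_bS.mpr ⟨hx1, hxi⟩
      have e3 : dst Q F ω a = dst Q F ω x := dst_eq hx2
      have e4 : dst Q F ω a.swap = dst Q F ω x.swap := dst_eq (srel_swap hx2)
      rw [e3, e4]
      rw [e3] at hta hne1 hne2 hsa
      rw [e4] at hsa'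
      refine nw_one hQ ψ s hxb (h1 x hxb hta.1 hta.2 ?_ ?_) hsa hsa'
      · rintro rfl
        exact hne1 rfl
      · rintro rfl
        apply hne2
        rw [← rv_dst_mate ha₀F, rv_dst]
  have oneF1 : ∀ U ∈ cutS Q F₁ (F \ F₁) ω, U ≠ U₁ →
      nw Q F₁ ω (fun b => bph Q F₁ ψ₁ b * s b) U = 1 := by
    intro U hU hne
    unfold cutS at hU
    obtain ⟨hU1, hU2⟩ := Finset.mem_filter.mp hU
    obtain ⟨a, ha, rfl⟩ := mem_ust.mp hU1
    have ho : ¬ Off Q (F \ F₁) (dst Q F₁ ω a) := by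
      intro h
      apply hU2
      intro X hX
      rw [Finset.mem_insert, Finset.mem_singleton] at hX
      rcases hX with rfl | rfl
      · exact h
      · rw [← rv_dst]
        exact h.rv
    have ho' : ¬ Off Q (F \ F₁) (dst Q F₁ ω a.swap) := by
      intro h
      apply ho
      rw [← Prod.swap_swap a, ← rv_dst]
      exact h.rv
    have hne1 : dst Q F₁ ω a ≠ dst Q F₁ ω a₀ := by
      intro h
      apply hne
      rw [hU₁, h]
      have h3 : SRel Q F₁ ω a a₀ := by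
        have := self_mem_dst (ω := ω) ha₀E
        rw [← h] at this
        exact (mem_dst.mp this).2
      rw [dst_eq (srel_swap h3)]
    have hne2 : dst Q F₁ ω a ≠ dst Q F₁ ω a₀.swap := by
      intro h
      apply hne
      have h3 : SRel Q F₁ ω a a₀.swap := by
        have := self_mem_dst (ω := ω) (swap_mem_dE.mpr ha₀E)
        rw [← h] at this
        exact (mem_dst.mp this).2
      have h4 := srel_swap h3
      rw [Prod.swap_swap] at h4
      rw [hU₁, h, dst_eq h4, Finset.pair_comm]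
    have hne1' : dst Q F₁ ω a.swap ≠ dst Q F₁ ω a₀ := by
      intro h
      apply hne2
      rw [← Prod.swap_swap a, ← rv_dst, h, rv_dst]
    have hne2' : dst Q F₁ ω a.swap ≠ dst Q F₁ ω a₀.swap := by
      intro h
      apply hne1
      rw [← Prod.swap_swap a, ← rv_dst, h, rv_dst, Prod.swap_swap]
    have hsa := hsF1 a hne1 hne2 ho
    have hsa' := hsF1 a.swap hne1' hne2' ho'
    by_cases hcl : ∀ b ∈ dst Q F₁ ω a, ¬ Ini Q (F₁ : Set Φ) b
    · exact absurd (off_of_closed Finset.disjoint_sdiff ha hcl) ho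
    · push Not at hcl
      obtain ⟨x, hx, hxi⟩ := hcl
      obtain ⟨hx1, hx2⟩ := mem_dst.mp hx
      have hxb : x ∈ bS Q F₁ := mem_bS.mpr ⟨hx1, hxi⟩
      have e3 : dst Q F₁ ω a = dst Q F₁ ω x := dst_eq hx2
      have e4 : dst Q F₁ ω a.swap = dst Q F₁ ω x.swap := dst_eq (srel_swap hx2)
      rw [e3, e4]
      rw [e3] at ho hne1 hne2 hsa
      rw [e4] at hsa'
      refine nw_one hQ ψ₁ s hxb (h2 x hxb ho ?_ ?_) hsa hsa'
      · rintro rfl
        exact hne1 rfl
      · rintro rfl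
        apply hne2
        rw [← rv_dst_mate ha₀, rv_dst]
  -- the exceptional strand
  have hexc : ∏ U ∈ tch Q F F₁ ω, nw Q F ω (fun b => bph Q F ψ b * s b) U =
      ∏ U ∈ cutS Q F₁ (F \ F₁) ω, nw Q F₁ ω (fun b => bph Q F₁ ψ₁ b * s b) U := by
    by_cases ho : Off Q (F \ F₁) (dst Q F₁ ω a₀)
    · have e3 := dst_of_off hF hrefl ho ha₀E
      have ho' : Off Q (F \ F₁) (dst Q F₁ ω a₀.swap) := by
        rw [← rv_dst]
        exact ho.rv
      have e4 := dst_of_off hF hrefl ho' (swap_mem_dE.mpr ha₀E)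
      rw [Finset.prod_eq_one fun U hU => oneF U hU ?_,
        Finset.prod_eq_one fun U hU => oneF1 U hU ?_]
      · rintro rfl
        unfold cutS at hU
        apply (Finset.mem_filter.mp hU).2
        intro X hX
        rw [hU₁, Finset.mem_insert, Finset.mem_singleton] at hX
        rcases hX with rfl | rfl
        · exact ho
        · exact ho'
      · rintro rfl
        unfold tch at hU
        obtain ⟨-, X, hX, b, hb, c, hc, -, hcR⟩ := Finset.mem_filter.mp hU
        rw [hU₀, Finset.mem_insert, Finset.mem_singleton, e3, e4] at hX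
        rcases hX with rfl | rfl
        · exact ho c hc hcR
        · exact ho' c hc hcR
    · have hm0 : U₀ ∈ tch Q F F₁ ω := by
        unfold Off at ho
        push Not at ho
        obtain ⟨c, hc, hcR⟩ := ho
        unfold tch
        rw [Finset.mem_filter]
        exact ⟨mem_ust.mpr ⟨a₀, (mem_bS.mp ha₀F).1, rfl⟩, _, Finset.mem_insert_self _ _, a₀,
          self_mem_dst (mem_bS.mp ha₀F).1, c, dst_mono hF hc, ha₀E, hcR⟩
      have hm1 : U₁ ∈ cutS Q F₁ (F \ F₁) ω := by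
        unfold cutS
        rw [Finset.mem_filter]
        exact ⟨mem_ust.mpr ⟨a₀, ha₀E, rfl⟩, fun h => ho (h _ (Finset.mem_insert_self _ _))⟩
      rw [Finset.prod_eq_single_of_mem U₀ hm0 fun U hU hne => oneF U hU hne,
        Finset.prod_eq_single_of_mem U₁ hm1 fun U hU hne => oneF1 U hU hne,
        nw_arc hQ ψ s ha₀F, nw_arc hQ ψ₁ s ha₀, h0]
      -- the insertion on the other pieces is trivial
      have hp : ∀ x : V × V, (x = a₀ ∨ x = a₀.swap) →
          ∏ b ∈ dst Q F ω x, s b = ∏ b ∈ dst Q F₁ ω x, s b := by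
        intro x hx
        symm
        refine Finset.prod_subset (dst_mono hF) fun b hb hb1 => ?_
        by_cases hbR : b ∈ dE Q (F \ F₁)
        · exact hs1 b hbR
        · have hbE : b ∈ dE Q F₁ := by
            obtain ⟨f, hf, k, h⟩ := mem_dE.mp (mem_dst.mp hb).1
            by_cases hf1 : f ∈ F₁
            · exact mem_dE.mpr ⟨f, hf1, k, h⟩
            · exact absurd (mem_dE.mpr ⟨f, Finset.mem_sdiff.mpr ⟨hf, hf1⟩, k, h⟩) hbR
          have hxE : x ∈ dE Q F₁ := by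
            rcases hx with rfl | rfl
            · exact ha₀E
            · exact swap_mem_dE.mpr ha₀E
          have hxo : ¬ Off Q (F \ F₁) (dst Q F₁ ω x) := by
            rcases hx with rfl | rfl
            · exact ho
            · intro h
              apply ho
              rw [← Prod.swap_swap a₀, ← rv_dst]
              exact h.rv
          have hbo : ¬ Off Q (F \ F₁) (dst Q F₁ ω b) := by
            unfold Off at hxo
            push Not at hxo
            obtain ⟨c, hc, hcR⟩ := hxo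
            exact not_off_of_touch hF hb hbE (dst_mono hF hc) hcR
          have hxswap : ∀ y : V × V, y ∈ dst Q F ω a₀ → y.swap ∈ dst Q F ω a₀ → False := by
            intro y hy1 hy2
            have h3 := (mem_dst.mp hy1).2
            have h4 := (mem_dst.mp hy2).2
            exact not_srel_swap hQ (mem_dst.mp hy1).1
              (EqvGen.trans _ _ _ (EqvGen.symm _ _ h3) h4)
          rcases hx with rfl | rfl
          · refine hs2 b hbE hbo hb1 fun hb2 => hxswap b hb (dst_mono hF hb2)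
          · have hb3 : b.swap ∈ dst Q F ω a₀ := by
              rw [← rv_dst] at hb
              exact mem_rv.mp hb
            refine hs2 b hbE hbo (fun hb2 => hxswap b (dst_mono hF hb2) hb3) fun hb2 => ?_
            apply hb1
            rw [← rv_dst]
            exact mem_rv.mpr hb2
      rw [hp a₀ (Or.inl rfl), hp a₀.swap (Or.inr rfl)]
  rw [hexc]
  ring

end

end Pool.Agent.SixB
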