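import Pool.Agent.Lib.SixB.S3MouthD
import Pool.Agent.Lib.SixB.S3Loc

/-!
# SixB, step 3.8: natural pockets, local form

`MBox`: a set `G ⊆ F₁` of faces around the mouth of the pocket `Ri`; `G` and `G ∪ Ri` are natural
(arcs between two true sides have cosine `√3 / 2`, loops turn by `±4`, and the angle from an exit side
`y` to the end of its strand is a function of `y`, the same for `G` and for `G ∪ Ri`).
`MExit`: the arcs of `F₁` from the mouths stay in the boxes, except possibly the one with the other end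
`a₀`.  `MExit.good`, `MExit.ang`: the hypotheses of `S3MouthD`.
-/

set_option autoImplicit false
set_option linter.unusedSectionVars false

namespace Pool.Agent.SixB

open Pool.Agent.Perc.Q Relation

noncomputable section

variable {V Φ : Type} [DecidableEq V] [DecidableEq Φ]
variable {Q : QC V Φ} {F F₁ G Ri : Finset Φ} {ω : Φ → Bool} {a b c e x y m : V × V}
  {X : Finset (V × V)} {ψ ψ₁ : V × V → ℝ}
variable {ι : Type} {R B : ι → Finset Φ} {a₀ : V × V} {i j : ι}

/-- A natural box at a mouth. -/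
structure MBox (Q : QC V Φ) (F F₁ G Ri : Finset Φ) (ψ ψ₁ : V × V → ℝ) : Prop where
  sub : G ⊆ F₁
  sep : ∀ b ∈ dE Q Ri, b ∉ dE Q (F₁ \ G)
  sepF : ∀ b ∈ dE Q G, b ∈ dE Q (F \ F₁) → b ∈ dE Q Ri
  arcN : ∀ ω : Φ → Bool, ∀ a ∈ bS Q (G ∪ Ri), a ∈ bS Q F → mate Q (G ∪ Ri) ω a ∈ bS Q F →
    Real.cos (ang6 Q (G ∪ Ri) ω ψ a) = Real.sqrt 3 / 2
  arcG : ∀ ω : Φ → Bool, ∀ a ∈ bS Q G, a ∈ bS Q F₁ → mate Q G ω a ∈ bS Q F₁ →
    Real.cos (ang6 Q G ω ψ₁ a) = Real.sqrt 3 / 2
  loopN : ∀ (ω : Φ → Bool), ∀ X ∈ dstr Q (G ∪ Ri) ω,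
    (∀ b ∈ X, ¬ Ini Q ((G ∪ Ri : Finset Φ) : Set Φ) b) →
    tX Q (G ∪ Ri) ω X = 4 ∨ tX Q (G ∪ Ri) ω X = -4
  ext : ∃ Θ : V × V → ℝ, ∀ ω : Φ → Bool, ∀ y ∈ bS Q G, y ∉ bS Q F₁ →
    (mate Q (G ∪ Ri) ω y ∈ bS Q F →
      (turn Q (G ∪ Ri) ω y : ℝ) * (Real.pi / 12) + ψ (mate Q (G ∪ Ri) ω y) = Θ y) ∧
    (mate Q G ω y ∈ bS Q F₁ →
      (turn Q G ω y : ℝ) * (Real.pi / 12) + ψ₁ (mate Q G ω y) = Θ y)

/-- The exits from the boxes. -/
structure MExit (Q : QC V Φ) (F F₁ : Finset Φ) (R B : ι → Finset Φ) (a₀ : V × V)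
    (ω : Φ → Bool) : Prop where
  a0 : a₀ ∈ bS Q F₁
  a0R : a₀ ∉ dE Q (F \ F₁)
  ex : ∀ i, ∀ a ∈ bS Q F₁, a ∈ dE Q (R i) → mate Q (B i) ω a ∈ bS Q F₁ ∨ mate Q F₁ ω a = a₀
  e0 : ∀ i, mate Q F₁ ω a₀ ∈ dE Q (R i) → a₀ ∉ dE Q (B i)

theorem bS_up (hG : G ⊆ F₁) (hy : y ∈ bS Q G) (h : y ∉ dE Q (F₁ \ G)) : y ∈ bS Q F₁ := by
  obtain ⟨h1, h2⟩ := mem_bS.mp hy
  refine mem_bS.mpr ⟨dE_sub hG h1, ?_⟩
  intro f hf k hk
  have hf' : f ∈ F₁ := by exact_mod_cast hf
  by_cases hfG : f ∈ G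
  · exact h2 f (by exact_mod_cast hfG) k hk
  · exact h (mem_dE.mpr ⟨f, Finset.mem_sdiff.mpr ⟨hf', hfG⟩, k, Or.inr hk⟩)

theorem dE_cut (hy : y ∈ dE Q F₁) : y ∈ dE Q G ∨ y ∈ dE Q (F₁ \ G) := by
  obtain ⟨f, hf, k, h⟩ := mem_dE.mp hy
  by_cases hfG : f ∈ G
  · exact Or.inl (mem_dE.mpr ⟨f, hfG, k, h⟩)
  · exact Or.inr (mem_dE.mpr ⟨f, Finset.mem_sdiff.mpr ⟨hf, hfG⟩, k, h⟩)

theorem dE_unionM : y ∈ dE Q (G ∪ Ri) ↔ y ∈ dE Q G ∨ y ∈ dE Q Ri := by
  constructor
  · intro h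
    obtain ⟨f, hf, k, h⟩ := mem_dE.mp h
    rcases Finset.mem_union.mp hf with hf | hf
    · exact Or.inl (mem_dE.mpr ⟨f, hf, k, h⟩)
    · exact Or.inr (mem_dE.mpr ⟨f, hf, k, h⟩)
  · rintro (h | h)
    · exact dE_sub Finset.subset_union_left h
    · exact dE_sub Finset.subset_union_right h

/-- a boundary side of `F₁` of a face of `G` is not a side of the other faces -/
theorem not_dE_of_bS (hG : G ⊆ F₁) (ha : a ∈ bS Q F₁) (h : a ∈ dE Q G) : a ∉ dE Q (F₁ \ G) := by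
  intro h'
  have hd : Disjoint G (F₁ \ G) := Finset.disjoint_sdiff
  obtain ⟨f, hf, k, hk⟩ := mem_dE.mp h
  obtain ⟨g, hg, l, hl⟩ := mem_dE.mp h'
  obtain ⟨hg1, hg2⟩ := Finset.mem_sdiff.mp hg
  have hi := (mem_bS.mp ha).2
  rcases hk with hk | hk
  · rcases hl with hl | hl
    · rw [hk] at hl
      exact hg2 ((sd_inj hl).1 ▸ hf)
    · exact hi g (by exact_mod_cast hg1) l hl
  · exact hi f (by exact_mod_cast hG hf) k hk

namespace MBox

variable (H : MBox Q F F₁ G Ri ψ ψ₁)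

include H in
/-- the sides of the mouth -/
theorem mouth_G (hm : m ∈ bS Q F₁) (hR : m ∈ dE Q Ri) : m ∈ bS Q G := by
  have h1 := H.sep m hR
  rcases dE_cut (mem_bS.mp hm).1 with h2 | h2
  · exact bS_anti H.sub hm h2
  · exact absurd h2 h1

include H in
theorem common (h1 : y ∈ bS Q G) (h2 : y ∈ dE Q Ri) : y ∈ bS Q F₁ := bS_up H.sub h1 (H.sep y h2)

include H in
/-- an arc of `F₁` which stays in the box -/
theorem stay (hm : m ∈ bS Q F₁) (hG : m ∈ bS Q G) (h : mate Q G ω m ∈ bS Q F₁) :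
    mate Q F₁ ω m = mate Q G ω m ∧ turn Q F₁ ω m = turn Q G ω m :=
  mate_loc H.sub hG (mem_bS.mp hm).2 h

include H in
/-- the exits of `G ∪ Ri` are exits of `G` -/
theorem exit (hF : F₁ ⊆ F) (hRF : Ri ⊆ F \ F₁)
    (hRd : ∀ b ∈ dE Q Ri, b ∉ dE Q ((F \ F₁) \ Ri)) (hy : y ∈ bS Q (G ∪ Ri)) (hyF : y ∉ bS Q F) :
    y ∈ bS Q G ∧ y ∉ bS Q F₁ ∧ y ∉ dE Q Ri := by
  obtain ⟨h1, h2⟩ := mem_bS.mp hy
  have hNF : G ∪ Ri ⊆ F := Finset.union_subset (H.sub.trans hF) (hRF.trans Finset.sdiff_subset)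
  have h3 : ¬ Ini Q (F : Set Φ) y := fun h => hyF (mem_bS.mpr ⟨dE_sub hNF h1, h⟩)
  unfold Ini at h3
  push Not at h3
  obtain ⟨f, hf, k, hk⟩ := h3
  have hf' : f ∈ F := by exact_mod_cast hf
  have hfN : f ∉ G ∪ Ri := fun h => h2 f (by exact_mod_cast h) k hk
  have hfG : f ∉ G := fun h => hfN (Finset.mem_union_left _ h)
  have hfR : f ∉ Ri := fun h => hfN (Finset.mem_union_right _ h)
  have hyR : y ∉ dE Q Ri := by
    intro hyR
    by_cases hf1 : f ∈ F₁
    · exact H.sep y hyR (mem_dE.mpr ⟨f, Finset.mem_sdiff.mpr ⟨hf1, hfG⟩, k, Or.inr hk⟩)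
    · exact hRd y hyR (mem_dE.mpr ⟨f, Finset.mem_sdiff.mpr ⟨Finset.mem_sdiff.mpr ⟨hf', hf1⟩, hfR⟩,
        k, Or.inr hk⟩)
  have hyG : y ∈ dE Q G := by
    rcases dE_unionM.mp h1 with h | h
    · exact h
    · exact absurd h hyR
  have hf1 : f ∈ F₁ := by
    by_contra hf1
    exact hyR (H.sepF y hyG (mem_dE.mpr ⟨f, Finset.mem_sdiff.mpr ⟨hf', hf1⟩, k, Or.inr hk⟩))
  refine ⟨mem_bS.mpr ⟨hyG, Ini.anti (by exact_mod_cast Finset.subset_union_left) h2⟩, ?_, hyR⟩
  intro h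
  exact (mem_bS.mp h).2 f (by exact_mod_cast hf1) k hk

end MBox

section Main

variable (D : MData Q F F₁ R) (H : ∀ i, MBox Q F F₁ (B i) (R i) ψ ψ₁)

include D in
theorem MData.Rd' (i : ι) : ∀ b ∈ dE Q (R i), b ∉ dE Q ((F \ F₁) \ R i) := by
  intro b hb h
  obtain ⟨f, hf, k, hk⟩ := mem_dE.mp h
  obtain ⟨h1, h2⟩ := Finset.mem_sdiff.mp hf
  obtain ⟨h3, h4⟩ := Finset.mem_sdiff.mp h1
  obtain ⟨j, hj⟩ := D.cov f h3 h4
  have hij : i ≠ j := by
    rintro rfl
    exact h2 hj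
  exact D.Rd i j hij b hb (mem_dE.mpr ⟨f, hj, k, hk⟩)

include D H in
theorem MExit.good (E : MExit Q F F₁ R B a₀ ω) : MGood Q F F₁ R a₀ ω := by
  refine ⟨E.a0, E.a0R, ?_⟩
  intro i j hij a ha haR hm
  rcases E.ex i a ha haR with h1 | h1
  · have haG := (H i).mouth_G ha haR
    have h2 := ((H i).stay ha haG h1).1
    rw [h2] at hm
    have h3 := (mem_bS.mp (mate_mem (ω := ω) haG)).1
    exact D.Rd i j hij _ ((H i).sepF _ h3 (D.dE_R.mpr ⟨j, hm⟩)) hm
  · exact E.a0R (h1 ▸ D.dE_R.mpr ⟨j, hm⟩)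

include D H in
/-- the strand of `F` from a side which belongs to the mouth `i` stays in `B i ∪ R i` -/
theorem MExit.key (E : MExit Q F F₁ R B a₀ ω) (ha : a ∈ bS Q F) (hI : MInv Q F₁ (R i) ω a)
    (h1 : a ≠ a₀) (h2 : mate Q F ω a ≠ a₀) :
    a ∈ bS Q (B i ∪ R i) ∧ mate Q (B i ∪ R i) ω a ∈ bS Q F := by
  have hNF : B i ∪ R i ⊆ F :=
    Finset.union_subset ((H i).sub.trans D.sub) ((D.R_F i).trans Finset.sdiff_subset)
  -- the arc of `F₁` of `a`
  have hloc : a ∈ dE Q F₁ → a ∉ dE Q (R i) → a ∈ bS Q F₁ ∧ a ∈ bS Q (B i) ∧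
      mate Q (B i) ω a ∈ dE Q (R i) := by
    intro hE haR
    have ha1 := bS_of_sub D.sub ha hE
    have ho : ¬ Off Q (R i) (dst Q F₁ ω a) := (inv_F₁ hE).mp hI
    have hm : mate Q F₁ ω a ∈ dE Q (R i) := (end_mouth D ha1 ho).resolve_left haR
    have hmb := mate_mem (ω := ω) ha1
    rcases E.ex i _ hmb hm with h5 | h5
    · have hmG := (H i).mouth_G hmb hm
      have h6 := ((H i).stay hmb hmG h5).1
      rw [mate_mate ha1] at h6
      refine ⟨ha1, ?_, ?_⟩
      · rw [h6]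
        exact mate_mem hmG
      · have h7 : mate Q (B i) ω a = mate Q F₁ ω a := by
          conv_lhs => rw [h6]
          exact mate_mate hmG
        rw [h7]
        exact hm
    · rw [mate_mate ha1] at h5
      exact absurd h5 h1
  have haN : a ∈ bS Q (B i ∪ R i) := by
    refine bS_anti hNF ha (dE_unionM.mpr ?_)
    by_cases haR : a ∈ dE Q (R i)
    · exact Or.inr haR
    · rcases hI with h | ⟨h, -⟩
      · exact absurd h haR
      · exact Or.inl (mem_bS.mp (hloc h haR).2.1).1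
  refine ⟨haN, ?_⟩
  by_contra hb
  set b := mate Q (B i ∪ R i) ω a with hbdef
  obtain ⟨h3, h4, h5⟩ := (H i).exit D.sub (D.R_F i) (D.Rd' i) (mate_mem haN) hb
  rw [← hbdef] at h3 h4 h5
  set m := mate Q (B i) ω b with hmdef
  have hmG : m ∈ bS Q (B i) := mate_mem h3
  have hbm : mate Q (B i) ω m = b := mate_mate h3
  have hab : SRel Q (B i ∪ R i) ω a b.swap := by
    rw [hbdef]
    unfold mate
    rw [Prod.swap_swap]
    exact srel_lst (mem_bS.mp haN).2
  by_cases hmR : m ∈ dE Q (R i)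
  · have hm1 := (H i).common hmG hmR
    rcases E.ex i m hm1 hmR with h6 | h6
    · rw [hbm] at h6
      exact h4 h6
    · -- the strand of `a` in `F` ends at `a₀`
      apply h2
      have h7 : SRel Q F₁ ω m a₀.swap := by
        rw [← h6]
        unfold mate
        rw [Prod.swap_swap]
        exact srel_lst (mem_bS.mp hm1).2
      have h8 : SRel Q (B i) ω m b.swap := by
        rw [← hbm]
        unfold mate
        rw [Prod.swap_swap]
        exact srel_lst (mem_bS.mp hmG).2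
      have h9 : SRel Q F ω a a₀.swap :=
        EqvGen.trans _ _ _ (srel_mono hNF hab) (EqvGen.trans _ _ _
          (EqvGen.symm _ _ (srel_mono (Finset.subset_union_left.trans hNF) h8))
          (srel_mono D.sub h7))
      have h10 : Ter Q (F : Set Φ) a₀.swap :=
        ter_swap.mpr (mem_bS.mp (bS_of_off D.sub (Finset.Subset.refl _) E.a0 E.a0R)).2
      rw [mate_unique (mem_bS.mp ha).2 h10 h9, Prod.swap_swap]
  · have hNG : (B i ∪ R i) \ B i ⊆ R i := by
      intro f hf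
      obtain ⟨h6, h7⟩ := Finset.mem_sdiff.mp hf
      exact (Finset.mem_union.mp h6).resolve_left h7
    have hmN : m ∈ bS Q (B i ∪ R i) := bS_of_off Finset.subset_union_left hNG hmG hmR
    have h6 := (mate_loc (ω := ω) Finset.subset_union_left h3 (mem_bS.mp (mate_mem haN)).2
      (hmdef ▸ hmN)).1
    rw [← hmdef] at h6
    have h7 : a = m := by
      rw [← h6, hbdef, mate_mate haN]
    -- the arc of `F₁` of `a` leaves the box and does not touch the mouth
    have h8 : a ∈ dE Q F₁ := by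
      rw [h7]
      exact dE_sub (H i).sub (mem_bS.mp hmG).1
    have h9 := (hloc h8 (h7 ▸ hmR)).2.2
    rw [h7, hbm] at h9
    exact h5 h9

include D H in
theorem MExit.ang (E : MExit Q F F₁ R B a₀ ω) (hQ : NoLoop Q)
    (hψ : ∀ a ∈ bS Q F₁, a ∉ dE Q (F \ F₁) → ψ a = ψ₁ a) :
    MAng Q F F₁ R a₀ ψ ψ₁ ω := by
  have G := E.good D H
  refine ⟨hψ, ?_, ?_, ?_, ?_⟩
  · -- closed strands
    intro a ha hcl htouch
    obtain ⟨x, hx, hxR⟩ := htouch
    obtain ⟨i, hi⟩ := D.dE_R.mp hxR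
    have hNF : B i ∪ R i ⊆ F :=
      Finset.union_subset ((H i).sub.trans D.sub) ((D.R_F i).trans Finset.sdiff_subset)
    have hxN : x ∈ dE Q (B i ∪ R i) := dE_unionM.mpr (Or.inr hi)
    have hX : dst Q F ω a = dst Q F ω x := dst_eq (mem_dst.mp hx).2
    have hclN : ∀ y ∈ dst Q (B i ∪ R i) ω x, ¬ Ini Q ((B i ∪ R i : Finset Φ) : Set Φ) y := by
      intro y hy hyi
      obtain ⟨hy1, hy2⟩ := mem_dst.mp hy
      have hyX : y ∈ dst Q F ω a := by
        rw [hX]
        exact dst_mono hNF hy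
      have hyF : y ∉ bS Q F := fun h => hcl y hyX (mem_bS.mp h).2
      have hyN : y ∈ bS Q (B i ∪ R i) := mem_bS.mpr ⟨hy1, hyi⟩
      obtain ⟨h3, h4, h5⟩ := (H i).exit D.sub (D.R_F i) (D.Rd' i) hyN hyF
      set m := mate Q (B i) ω y with hmdef
      have hmG : m ∈ bS Q (B i) := mate_mem h3
      have hym : mate Q (B i) ω m = y := mate_mate h3
      have hsy : SRel Q (B i) ω y m.swap := by
        rw [hmdef]
        unfold mate
        rw [Prod.swap_swap]
        exact srel_lst (mem_bS.mp h3).2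
      by_cases hmR : m ∈ dE Q (R i)
      · have hm1 := (H i).common hmG hmR
        rcases E.ex i m hm1 hmR with h6 | h6
        · rw [hym] at h6
          exact h4 h6
        · have h7 : SRel Q F₁ ω m a₀.swap := by
            rw [← h6]
            unfold mate
            rw [Prod.swap_swap]
            exact srel_lst (mem_bS.mp hm1).2
          have h8 : SRel Q F ω y a₀ := by
            have h9 := srel_swap (srel_mono D.sub h7)
            rw [Prod.swap_swap] at h9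
            exact EqvGen.trans _ _ _ (srel_mono (Finset.subset_union_left.trans hNF) hsy) h9
          have ha0F := bS_of_off D.sub (Finset.Subset.refl _) E.a0 E.a0R
          exact hcl a₀ (mem_dst.mpr ⟨(mem_bS.mp ha0F).1,
            EqvGen.trans _ _ _ (mem_dst.mp hyX).2 h8⟩) (mem_bS.mp ha0F).2
      · have hNG : (B i ∪ R i) \ B i ⊆ R i := by
          intro f hf
          obtain ⟨h6, h7⟩ := Finset.mem_sdiff.mp hf
          exact (Finset.mem_union.mp h6).resolve_left h7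
        have hBR : Disjoint (B i) (R i) := by
          rw [Finset.disjoint_left]
          intro f hf hf'
          exact Finset.disjoint_left.mp (D.dj i) ((H i).sub hf) hf'
        have hoff : Off Q (R i) (dst Q (B i) ω y) := off_of_ends hBR h3 h5 (hmdef ▸ hmR)
        have e1 := dst_of_off (F := B i ∪ R i) Finset.subset_union_left hNG hoff (mem_bS.mp h3).1
        have h6 : x ∈ dst Q (B i ∪ R i) ω y :=
          mem_dst.mpr ⟨hxN, EqvGen.symm _ _ hy2⟩
        rw [e1] at h6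
        exact hoff x h6 hi
    have hoffN : Off Q (F \ (B i ∪ R i)) (dst Q (B i ∪ R i) ω x) :=
      off_of_closed Finset.disjoint_sdiff hxN hclN
    have e1 := dst_of_off hNF (Finset.Subset.refl _) hoffN hxN
    have e2 := tX_of_off (ω := ω) hNF (Finset.Subset.refl _) hoffN
    rw [hX, e1, e2]
    exact (H i).loopN ω _ (dst_mem_dstr hxN) hclN
  · -- arcs of `F`
    intro i a ha hI h1 h2
    have hNF : B i ∪ R i ⊆ F :=
      Finset.union_subset ((H i).sub.trans D.sub) ((D.R_F i).trans Finset.sdiff_subset)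
    obtain ⟨h3, h4⟩ := E.key D H ha hI h1 h2
    obtain ⟨e1, e2⟩ := mate_loc (ω := ω) hNF h3 (mem_bS.mp ha).2 h4
    have h5 := (H i).arcN ω a h3 ha h4
    unfold ang6 at h5 ⊢
    rw [e1, e2]
    exact h5
  · -- arcs of `F₁`
    intro i a ha haR h1
    have haG := (H i).mouth_G ha haR
    have h2 := (E.ex i a ha haR).resolve_right h1
    obtain ⟨e1, e2⟩ := (H i).stay ha haG h2
    have h5 := (H i).arcG ω a haG ha h2
    unfold ang6 at h5 ⊢
    rw [e1, e2]
    exact h5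
  · -- the exceptional arc
    intro i hm
    have hNF : B i ∪ R i ⊆ F :=
      Finset.union_subset ((H i).sub.trans D.sub) ((D.R_F i).trans Finset.sdiff_subset)
    have ha0F := bS_of_off D.sub (Finset.Subset.refl _) E.a0 E.a0R
    set m := mate Q F₁ ω a₀ with hmdef
    have hmb : m ∈ bS Q F₁ := mate_mem E.a0
    have hma : mate Q F₁ ω m = a₀ := mate_mate E.a0
    have hmG := (H i).mouth_G hmb hm
    set y := mate Q (B i) ω m with hydef
    have hyG : y ∈ bS Q (B i) := mate_mem hmG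
    have hym : mate Q (B i) ω y = m := mate_mate hmG
    have hyF₁ : y ∉ bS Q F₁ := by
      intro h
      have h1 := ((H i).stay hmb hmG h).1
      rw [hma] at h1
      apply E.e0 i hm
      rw [h1]
      exact (mem_bS.mp hyG).1
    have hyR : y ∉ dE Q (R i) := fun h => hyF₁ ((H i).common hyG h)
    have hNG : (B i ∪ R i) \ B i ⊆ R i := by
      intro f hf
      obtain ⟨h6, h7⟩ := Finset.mem_sdiff.mp hf
      exact (Finset.mem_union.mp h6).resolve_left h7
    have hyN : y ∈ bS Q (B i ∪ R i) := bS_of_off Finset.subset_union_left hNG hyG hyR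
    -- the strand of `y` in `B i ∪ R i` ends at a side of `F`
    have hbF : mate Q (B i ∪ R i) ω y ∈ bS Q F := by
      by_contra hb
      set b := mate Q (B i ∪ R i) ω y with hbdef
      obtain ⟨h3, h4, h5⟩ := (H i).exit D.sub (D.R_F i) (D.Rd' i) (mate_mem hyN) hb
      rw [← hbdef] at h3 h4 h5
      have hbm : mate Q (B i) ω (mate Q (B i) ω b) = b := mate_mate h3
      by_cases hbR : mate Q (B i) ω b ∈ dE Q (R i)
      · have h6 := (H i).common (mate_mem (ω := ω) h3) hbR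
        rcases E.ex i _ h6 hbR with h7 | h7
        · rw [hbm] at h7
          exact h4 h7
        · have h8 : mate Q (B i) ω b = m := by
            rw [hmdef, ← h7, mate_mate h6]
          have h9 : b = y := by rw [hydef, ← h8, hbm]
          exact mate_ne hQ hyN h9
      · have hmN : mate Q (B i) ω b ∈ bS Q (B i ∪ R i) :=
          bS_of_off Finset.subset_union_left hNG (mate_mem h3) hbR
        have h6 := (mate_loc (ω := ω) Finset.subset_union_left h3 (mem_bS.mp (mate_mem hyN)).2 hmN).1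
        have h7 : mate Q (B i) ω b = y := by
          rw [← h6, hbdef, mate_mate hyN]
        have h8 : b = m := by rw [← hym, ← h7, hbm]
        exact h5 (h8 ▸ hm)
    obtain ⟨Θ, hΘ⟩ := (H i).ext
    obtain ⟨t1, t2⟩ := hΘ ω y hyG hyF₁
    have t1 := t1 hbF
    have t2 := t2 (hym ▸ hmb)
    rw [hym] at t2
    -- the walks
    obtain ⟨n1, w1⟩ := walk_mate (ω := ω) E.a0
    obtain ⟨n2, w2⟩ := walk_mate (ω := ω) hyG
    obtain ⟨n3, w3⟩ := walk_mate (ω := ω) hyN
    rw [← hmdef] at w1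
    rw [hym] at w2
    have hu : ∀ e ∈ (Set.univ : Set (V × V)), e.swap ∈ (Set.univ : Set (V × V)) :=
      fun _ _ => Set.mem_univ _
    have w1r := w1.rev hu
    rw [Prod.swap_swap] at w1r
    have w2r := (w2.mono (F' := (F₁ : Set Φ)) (by exact_mod_cast (H i).sub) (Set.Subset.refl _)).rev hu
    rw [Prod.swap_swap] at w2r
    have hter : Ter Q (F₁ : Set Φ) a₀.swap := ter_swap.mpr (mem_bS.mp E.a0).2
    have hstop : ∀ {n : ℕ} {b : V × V} {t : ℤ},
        ¬ Walk Q ω (F₁ : Set Φ) Set.univ n a₀.swap b t := by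
      intro n b t hw
      obtain ⟨f, hf, k, hk⟩ := hw.first
      exact hter f hf k hk
    have hlt : n2 < n1 := by
      rcases Nat.lt_trichotomy n2 n1 with h | h | h
      · exact h
      · subst h
        have h1 := (w1r.unique w2r).1
        have h2 : a₀ = y := Prod.swap_injective h1
        exact absurd E.a0 (h2 ▸ hyF₁)
      · obtain ⟨c, s, h1, -, h3⟩ := w2r.prefix_ w1r.pos h
        rw [← (w1r.unique h1).1] at h3
        exact absurd h3 hstop
    obtain ⟨c, s, h1, -, h3⟩ := w1r.prefix_ w2r.pos hlt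
    obtain ⟨e1, e2⟩ := w2r.unique h1
    rw [← e1, ← e2] at h3
    have w4 := h3.rev hu
    rw [Prod.swap_swap, Prod.swap_swap] at w4
    have w5 := (w4.mono (F' := (F : Set Φ)) (by exact_mod_cast D.sub) (Set.Subset.refl _)).comp
      (Set.mem_univ y) (w3.mono (F' := (F : Set Φ)) (by exact_mod_cast hNF) (Set.Subset.refl _))
    have h6 := w5.mate_turn (mem_bS.mp ha0F).2 (ter_swap.mpr (mem_bS.mp hbF).2)
    rw [Prod.swap_swap] at h6
    unfold ang6
    rw [h6.1, h6.2, ← hmdef, hψ a₀ E.a0 E.a0R]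
    push_cast
    linarith

end Main

end

end Pool.Agent.SixB
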