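import Pool.Agent.Lib.SixB.S3MouthE

/-!
# SixB, step 3.8: exits from nested boxes

`Xn Q F₁ G₀ G₁ ω`: the number of the strands of `G₁ \ G₀` from the sides with `F₁ \ G₁` to the sides
with `G₀`.  `exit_inj`: at most that many strands of true boundary sides of `G₀` leave `G₁`.
`MScale`: nested boxes `K i 0 ⊆ K i 1 ⊆ …` at every mouth.  `Sc i ω`: at some scale `k` at most one
crossing of `0 : k` and at most one of `k : N`.  `exists_exitM`: if `Sc i` for all `i`, and the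
annulus `0 : N` is crossed at most at one mouth, then `MExit` holds for boxes of these families.
`nW_scale`, `nW1_scale`: the equality of the weights on this event.
-/

set_option autoImplicit false
set_option linter.unusedSectionVars false

namespace Pool.Agent.SixB

open Pool.Agent.Perc.Q Relation

noncomputable section

variable {V Φ : Type} [DecidableEq V] [DecidableEq Φ]
variable {Q : QC V Φ} {F F₁ G₀ G₁ Ri : Finset Φ} {ω : Φ → Bool} {a b c e x y m : V × V}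
  {X : Finset (V × V)} {ψ ψ₁ : V × V → ℝ}
variable {ι : Type} {R B : ι → Finset Φ} {a₀ : V × V} {i j : ι} {K : ι → ℕ → Finset Φ} {N : ℕ}

open Classical in
/-- the crossing strands of `G₁ \ G₀`, by their outer ends -/
def XS (Q : QC V Φ) (F₁ G₀ G₁ : Finset Φ) (ω : Φ → Bool) : Finset (V × V) :=
  (bS Q (G₁ \ G₀)).filter fun y => y ∈ dE Q (F₁ \ G₁) ∧ mate Q (G₁ \ G₀) ω y ∈ dE Q G₀

/-- the number of the crossing strands of `G₁ \ G₀` -/
def Xn (Q : QC V Φ) (F₁ G₀ G₁ : Finset Φ) (ω : Φ → Bool) : ℕ := (XS Q F₁ G₀ G₁ ω).card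

theorem mem_XS : y ∈ XS Q F₁ G₀ G₁ ω ↔
    y ∈ bS Q (G₁ \ G₀) ∧ y ∈ dE Q (F₁ \ G₁) ∧ mate Q (G₁ \ G₀) ω y ∈ dE Q G₀ := by
  classical
  unfold XS
  rw [Finset.mem_filter]

theorem exit_mem (h01 : G₀ ⊆ G₁) (h1 : G₁ ⊆ F₁) (hsep : ∀ b ∈ dE Q G₀, b ∉ dE Q (F₁ \ G₁))
    (ha : a ∈ bS Q F₁) (ha0 : a ∈ dE Q G₀) (he : mate Q G₁ ω a ∉ bS Q F₁) :
    mate Q G₁ ω a ∈ XS Q F₁ G₀ G₁ ω := by
  have haG : a ∈ bS Q G₁ := bS_anti h1 ha (dE_sub h01 ha0)
  set y := mate Q G₁ ω a with hy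
  have hyG : y ∈ bS Q G₁ := mate_mem haG
  have hyo : y ∈ dE Q (F₁ \ G₁) := by
    by_contra h
    exact he (bS_up h1 hyG h)
  have hy0 : y ∉ dE Q G₀ := fun h => hsep y h hyo
  have hyA : y ∈ dE Q (G₁ \ G₀) := (dE_cut (mem_bS.mp hyG).1).resolve_left hy0
  have hyb : y ∈ bS Q (G₁ \ G₀) := bS_anti Finset.sdiff_subset hyG hyA
  refine mem_XS.mpr ⟨hyb, hyo, ?_⟩
  by_contra hx
  have hxb := mate_mem (ω := ω) hyb
  have hxG : mate Q (G₁ \ G₀) ω y ∈ bS Q G₁ := by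
    refine bS_up Finset.sdiff_subset hxb ?_
    rw [Finset.sdiff_sdiff_eq_self h01]
    exact hx
  have h3 := (mate_loc (ω := ω) Finset.sdiff_subset hyb (mem_bS.mp hyG).2 hxG).1
  have h4 : mate Q G₁ ω y = a := mate_mate haG
  rw [h4] at h3
  have h5 : a ∈ dE Q (G₁ \ G₀) := by
    rw [h3]
    exact (mem_bS.mp hxb).1
  exact not_dE_of_bS (h01.trans h1) ha ha0 (dE_sub (Finset.sdiff_subset_sdiff h1 subset_rfl) h5)

/-- At most one strand of the true boundary sides of `G₀` leaves `G₁` if the ring is crossed at most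
once. -/
theorem exit_inj (h01 : G₀ ⊆ G₁) (h1 : G₁ ⊆ F₁) (hsep : ∀ b ∈ dE Q G₀, b ∉ dE Q (F₁ \ G₁))
    (hX : Xn Q F₁ G₀ G₁ ω ≤ 1) (ha : a ∈ bS Q F₁) (ha0 : a ∈ dE Q G₀)
    (he : mate Q G₁ ω a ∉ bS Q F₁) (hb : b ∈ bS Q F₁) (hb0 : b ∈ dE Q G₀)
    (he' : mate Q G₁ ω b ∉ bS Q F₁) : a = b := by
  have h2 := exit_mem h01 h1 hsep ha ha0 he
  have h3 := exit_mem h01 h1 hsep hb hb0 he'
  have h4 := Finset.card_le_one.mp hX _ h2 _ h3
  have haG : a ∈ bS Q G₁ := bS_anti h1 ha (dE_sub h01 ha0)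
  have hbG : b ∈ bS Q G₁ := bS_anti h1 hb (dE_sub h01 hb0)
  rw [← mate_mate (ω := ω) haG, h4, mate_mate hbG]

/-- a strand which leaves a larger box leaves the smaller box -/
theorem exit_mono (h01 : G₀ ⊆ G₁) (h1 : G₁ ⊆ F₁) (ha : a ∈ bS Q F₁) (ha0 : a ∈ dE Q G₀)
    (he : mate Q G₁ ω a ∉ bS Q F₁) : mate Q G₀ ω a ∉ bS Q F₁ := by
  intro h
  apply he
  have haG : a ∈ bS Q G₀ := bS_anti (h01.trans h1) ha ha0
  have haG1 : a ∈ bS Q G₁ := bS_anti h1 ha (dE_sub h01 ha0)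
  have h2 : mate Q G₀ ω a ∈ bS Q G₁ := bS_anti h1 h (dE_sub h01 (mem_bS.mp (mate_mem haG)).1)
  rw [(mate_loc (ω := ω) h01 haG (mem_bS.mp haG1).2 h2).1]
  exact h

/-- **The two cases at a mouth.** -/
theorem two_cases (hQ : NoLoop Q) {G₂ : Finset Φ} {M : Set (V × V)} (h01 : G₀ ⊆ G₁) (h12 : G₁ ⊆ G₂) (h2 : G₂ ⊆ F₁)
    (hs1 : ∀ b ∈ dE Q G₀, b ∉ dE Q (F₁ \ G₁)) (hs2 : ∀ b ∈ dE Q G₁, b ∉ dE Q (F₁ \ G₂))
    (hM : ∀ a ∈ M, a ∈ bS Q F₁ ∧ a ∈ dE Q G₀) (hX1 : Xn Q F₁ G₀ G₁ ω ≤ 1)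
    (hX2 : Xn Q F₁ G₁ G₂ ω ≤ 1) :
    (∀ a ∈ M, mate Q G₂ ω a ∈ bS Q F₁) ∨
      ∃ m ∈ M, mate Q G₂ ω m ∉ bS Q F₁ ∧ mate Q F₁ ω m ∉ dE Q G₁ ∧
        ∀ a ∈ M, a ≠ m → mate Q G₁ ω a ∈ bS Q F₁ := by
  by_cases hL : ∀ a ∈ M, mate Q G₂ ω a ∈ bS Q F₁
  · exact Or.inl hL
  · right
    push Not at hL
    obtain ⟨m, hm, hme⟩ := hL
    obtain ⟨hmb, hm0⟩ := hM m hm
    have hm1 := dE_sub (Q := Q) h01 hm0
    have hme1 := exit_mono h12 h2 hmb hm1 hme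
    refine ⟨m, hm, hme, ?_, ?_⟩
    · intro hmm
      -- the other end also leaves `G₂`
      have hb := mate_mem (ω := ω) hmb
      have he : mate Q G₂ ω (mate Q F₁ ω m) ∉ bS Q F₁ := by
        intro h
        have hG : mate Q F₁ ω m ∈ bS Q G₂ := bS_anti h2 hb (dE_sub h12 hmm)
        have h3 := (mate_loc (ω := ω) h2 hG (mem_bS.mp hb).2 h).1
        rw [mate_mate hmb] at h3
        apply hme
        have h4 : mate Q G₂ ω m = mate Q F₁ ω m := by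
          conv_lhs => rw [h3]
          exact mate_mate hG
        rw [h4]
        exact hb
      have h5 := exit_inj h12 h2 hs2 hX2 hmb hm1 hme hb hmm he
      exact mate_ne hQ hmb h5.symm
    · intro a haM hne
      by_contra hae
      obtain ⟨hab, ha0⟩ := hM a haM
      exact hne (exit_inj h01 (h12.trans h2) hs1 hX1 hab ha0 hae hmb hm0 hme1)

/-- nested boxes at the mouths -/
structure MScale (Q : QC V Φ) (F F₁ : Finset Φ) (R : ι → Finset Φ) (K : ι → ℕ → Finset Φ)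
    (N : ℕ) (ψ ψ₁ : V × V → ℝ) : Prop where
  mono : ∀ i k l, k ≤ l → K i k ⊆ K i l
  sub : ∀ i k, K i k ⊆ F₁
  sep : ∀ i k l, k < l → l ≤ N → ∀ b ∈ dE Q (K i k), b ∉ dE Q (F₁ \ K i l)
  box : ∀ i k, k ≤ N → MBox Q F F₁ (K i k) (R i) ψ ψ₁

/-- at some scale at most one inner and at most one outer crossing -/
def Sc (Q : QC V Φ) (F₁ : Finset Φ) (K : ℕ → Finset Φ) (N : ℕ) (ω : Φ → Bool) : Prop :=
  ∃ k, 0 < k ∧ k < N ∧ Xn Q F₁ (K 0) (K k) ω ≤ 1 ∧ Xn Q F₁ (K k) (K N) ω ≤ 1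

/-- if no scale is good, there is a scale with two crossings inside and outside -/
theorem exists_bad_scale {K : ℕ → Finset Φ} (hN : 1 < N) (h : ¬ Sc Q F₁ K N ω) :
    ∃ k < N, (k = 0 ∨ 2 ≤ Xn Q F₁ (K 0) (K k) ω) ∧ (k + 1 = N ∨ 2 ≤ Xn Q F₁ (K (k + 1)) (K N) ω) := by
  classical
  unfold Sc at h
  push Not at h
  -- the last scale with two inner crossings
  let S := (Finset.range N).filter fun k => k = 0 ∨ 2 ≤ Xn Q F₁ (K 0) (K k) ω
  have hS : S.Nonempty := ⟨0, Finset.mem_filter.mpr ⟨Finset.mem_range.mpr (by omega), Or.inl rfl⟩⟩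
  obtain ⟨hk1, hk2⟩ := Finset.mem_filter.mp (S.max'_mem hS)
  set k := S.max' hS with hk
  have hkN := Finset.mem_range.mp hk1
  refine ⟨k, hkN, hk2, ?_⟩
  by_cases h1 : k + 1 = N
  · exact Or.inl h1
  · right
    have h2 : k + 1 < N := by omega
    have h3 : ¬ (2 ≤ Xn Q F₁ (K 0) (K (k + 1)) ω) := by
      intro h3
      have h4 : k + 1 ∈ S := Finset.mem_filter.mpr ⟨Finset.mem_range.mpr h2, Or.inr h3⟩
      have := S.le_max' _ h4
      omega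
    have h5 := h (k + 1) (by omega) h2 (by omega)
    omega

section Main

variable (hQ : NoLoop Q) (D : MData Q F F₁ R) (S : MScale Q F F₁ R K N ψ ψ₁)

include hQ D S in
/-- **The boxes and the exceptional side.** -/
theorem exists_exitM {a₁ : V × V} (ha₁ : a₁ ∈ bS Q F₁) (ha₁K : ∀ i, a₁ ∉ dE Q (K i N))
    (hsc : ∀ i, Sc Q F₁ (K i) N ω)
    (hone : ∀ i j, i ≠ j → Xn Q F₁ (K i 0) (K i N) ω = 0 ∨ Xn Q F₁ (K j 0) (K j N) ω = 0) :
    ∃ (a₀ : V × V) (k : ι → ℕ), (∀ i, k i ≤ N) ∧ MExit Q F F₁ R (fun i => K i (k i)) a₀ ω := by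
  classical
  have hM : ∀ i, ∀ a ∈ {a | a ∈ bS Q F₁ ∧ a ∈ dE Q (R i)}, a ∈ bS Q F₁ ∧ a ∈ dE Q (K i 0) := by
    rintro i a ⟨h1, h2⟩
    exact ⟨h1, (mem_bS.mp ((S.box i 0 (by omega)).mouth_G h1 h2)).1⟩
  have hcase : ∀ i, (∀ a ∈ {a | a ∈ bS Q F₁ ∧ a ∈ dE Q (R i)}, mate Q (K i N) ω a ∈ bS Q F₁) ∨
      ∃ k ≤ N, ∃ m ∈ {a | a ∈ bS Q F₁ ∧ a ∈ dE Q (R i)}, mate Q (K i N) ω m ∉ bS Q F₁ ∧
        mate Q F₁ ω m ∉ dE Q (K i k) ∧
        ∀ a ∈ {a | a ∈ bS Q F₁ ∧ a ∈ dE Q (R i)}, a ≠ m → mate Q (K i k) ω a ∈ bS Q F₁ := by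
    intro i
    obtain ⟨k, hk0, hkN, hX1, hX2⟩ := hsc i
    rcases two_cases hQ (S.mono i 0 k (by omega)) (S.mono i k N hkN.le) (S.sub i N)
      (S.sep i 0 k hk0 hkN.le) (S.sep i k N hkN le_rfl) (hM i) hX1 hX2 with h | h
    · exact Or.inl h
    · exact Or.inr ⟨k, hkN.le, h⟩
  have hN0 : ∀ i, (∃ m ∈ {a | a ∈ bS Q F₁ ∧ a ∈ dE Q (R i)}, mate Q (K i N) ω m ∉ bS Q F₁) →
      Xn Q F₁ (K i 0) (K i N) ω ≠ 0 := by
    rintro i ⟨m, hm, he⟩ h0
    obtain ⟨k, hk0, hkN, -, -⟩ := hsc i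
    obtain ⟨h1, h2⟩ := hM i m hm
    have h3 := exit_mem (S.mono i 0 N (by omega)) (S.sub i N) (S.sep i 0 N (by omega) le_rfl) h1 h2 he
    unfold Xn at h0
    rw [Finset.card_eq_zero] at h0
    rw [h0] at h3
    exact absurd h3 (Finset.notMem_empty _)
  by_cases hL : ∀ i, ∀ a ∈ {a | a ∈ bS Q F₁ ∧ a ∈ dE Q (R i)}, mate Q (K i N) ω a ∈ bS Q F₁
  · refine ⟨a₁, fun _ => N, fun _ => le_rfl, ha₁, ?_, ?_, ?_⟩
    · intro h
      obtain ⟨i, hi⟩ := D.dE_R.mp h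
      exact ha₁K i (mem_bS.mp ((S.box i N le_rfl).mouth_G ha₁ hi)).1
    · intro i a h1 h2
      exact Or.inl (hL i a ⟨h1, h2⟩)
    · intro i _
      exact ha₁K i
  · push Not at hL
    obtain ⟨i, m', hm', he'⟩ := hL
    have hi := (hcase i).resolve_left (by push Not; exact ⟨m', hm', he'⟩)
    obtain ⟨k, hkN, m, hm, hme, hmk, hmo⟩ := hi
    have hother : ∀ j, j ≠ i → ∀ a ∈ {a | a ∈ bS Q F₁ ∧ a ∈ dE Q (R j)},
        mate Q (K j N) ω a ∈ bS Q F₁ := by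
      intro j hj a ha
      by_contra h
      rcases hone i j hj.symm with h1 | h1
      · exact hN0 i ⟨m, hm, hme⟩ h1
      · exact hN0 j ⟨a, ha, h⟩ h1
    have hmb : m ∈ bS Q F₁ := hm.1
    refine ⟨mate Q F₁ ω m, fun j => if j = i then k else N, ?_, mate_mem hmb, ?_, ?_, ?_⟩
    · intro j
      show (if j = i then k else N) ≤ N
      split_ifs
      · exact hkN
      · exact le_rfl
    · intro h
      obtain ⟨j, hj⟩ := D.dE_R.mp h
      by_cases hij : j = i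
      · subst hij
        exact hmk (mem_bS.mp ((S.box j k hkN).mouth_G (mate_mem hmb) hj)).1
      · have h1 := hother j hij _ ⟨mate_mem hmb, hj⟩
        have hG := (S.box j N le_rfl).mouth_G (mate_mem (ω := ω) hmb) hj
        have h2 := (mate_loc (ω := ω) (S.sub j N) hG (mem_bS.mp (mate_mem hmb)).2 h1).1
        rw [mate_mate hmb] at h2
        have h3 : m ∈ dE Q (K j N) := by
          rw [h2]
          exact (mem_bS.mp (mate_mem hG)).1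
        exact D.Rd i j (Ne.symm hij) m hm.2
          ((S.box j N le_rfl).sepF m h3 (D.dE_R.mpr ⟨i, hm.2⟩))
    · intro j a ha haR
      by_cases hij : j = i
      · subst hij
        simp only [if_true]
        by_cases ham : a = m
        · right
          rw [ham]
        · exact Or.inl (hmo a ⟨ha, haR⟩ ham)
      · simp only [if_neg hij]
        exact Or.inl (hother j hij a ⟨ha, haR⟩)
    · intro j hj
      rw [mate_mate hmb] at hj
      have hij : j = i := by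
        by_contra h
        exact D.Rd i j (Ne.symm h) m hm.2 hj
      subst hij
      simp only [if_true]
      exact hmk

include hQ D S in
theorem nW_scale {a₁ : V × V} (ha₁ : a₁ ∈ bS Q F₁) (ha₁K : ∀ i, a₁ ∉ dE Q (K i N))
    (hψ : ∀ a ∈ bS Q F₁, a ∉ dE Q (F \ F₁) → ψ a = ψ₁ a)
    (hsc : ∀ i, Sc Q F₁ (K i) N ω)
    (hone : ∀ i j, i ≠ j → Xn Q F₁ (K i 0) (K i N) ω = 0 ∨ Xn Q F₁ (K j 0) (K j N) ω = 0) :
    nW Q F ψ ω = nW Q F₁ ψ₁ ω ∧ ∀ e ∈ dE Q F₁, e ∉ dE Q (F \ F₁) → (∀ i, e ∉ dE Q (K i N)) →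
      nW1 Q F ψ e ω = nW1 Q F₁ ψ₁ e ω := by
  obtain ⟨a₀, k, hk, E⟩ := exists_exitM hQ D S ha₁ ha₁K hsc hone
  have H : ∀ i, MBox Q F F₁ (K i (k i)) (R i) ψ ψ₁ := fun i => S.box i (k i) (hk i)
  have A := E.ang D H hQ hψ
  refine ⟨nW_good hQ D (E.good D H) A, ?_⟩
  intro e he heR heK
  refine nW1_good hQ D (E.good D H) A he heR ?_
  by_cases ho : Off Q (F \ F₁) (dst Q F₁ ω e)
  · exact Or.inl ho
  right
  obtain ⟨i, hi⟩ := exists_R D ho
  obtain ⟨m, hm, hmR, hm'⟩ := exists_mouth D hi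
  have hmG := (H i).mouth_G hm hmR
  rcases E.ex i m hm hmR with h1 | h1
  · exfalso
    -- the strand of `m` stays in the box
    have hoff : Off Q (F₁ \ K i (k i)) (dst Q (K i (k i)) ω m) :=
      off_of_ends Finset.disjoint_sdiff hmG ((H i).sep m hmR)
        (not_dE_of_bS (H i).sub h1 (mem_bS.mp (mate_mem hmG)).1)
    have e1 := dst_of_off (H i).sub (Finset.Subset.refl _) hoff (mem_bS.mp hmG).1
    have h2 : e ∈ dE Q (K i (k i)) := by
      rcases hm' with hm' | hm'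
      · have h3 : e ∈ dst Q F₁ ω m := mem_dst.mpr ⟨he, EqvGen.symm _ _ (mem_dst.mp hm').2⟩
        rw [e1] at h3
        exact (mem_dst.mp h3).1
      · have h3 : e.swap ∈ dst Q F₁ ω m := by
          refine mem_dst.mpr ⟨swap_mem_dE.mpr he, ?_⟩
          have h4 := srel_swap (EqvGen.symm _ _ (mem_dst.mp hm').2)
          rwa [Prod.swap_swap] at h4
        rw [e1] at h3
        exact swap_mem_dE.mp (mem_dst.mp h3).1
    exact heK i (dE_sub (S.mono i _ _ (hk i)) h2)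
  · have h2 : SRel Q F₁ ω m a₀.swap := by
      rw [← h1]
      unfold mate
      rw [Prod.swap_swap]
      exact srel_lst (mem_bS.mp hm).2
    have h2s := srel_swap h2
    rw [Prod.swap_swap] at h2s
    rcases hm' with hm' | hm'
    · -- `e ~ m ~ a₀.swap`
      right
      have h3 : SRel Q F₁ ω e a₀.swap := EqvGen.trans _ _ _ (mem_dst.mp hm').2 h2
      have h4 := srel_swap h3
      rw [Prod.swap_swap] at h4
      exact mem_dst.mpr ⟨swap_mem_dE.mpr he, EqvGen.symm _ _ h4⟩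
    · left
      have h3 : SRel Q F₁ ω e a₀ := EqvGen.trans _ _ _ (mem_dst.mp hm').2 h2s
      exact mem_dst.mpr ⟨he, EqvGen.symm _ _ h3⟩

end Main

end

end Pool.Agent.SixB
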