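import Pool.Agent.Lib.SixB.S3MouthE
import Pool.Agent.Lib.SixB.S0Z
import Pool.Agent.Lib.SixB.S0Seam

/-!
# SixB, step 3.8: natural boxes from boundary words

`MBox.of_disc`: `G` and `G ∪ Ri` are discs with the words `o ++ z` and `o ++ z'`, `o` = the exit sides,
`ψ + (direction) π / 12` is one constant on the sides of `z` and `z'`.
`MBox.of_paste`: `G` has the word `o ++ (z₁ ++ (s ++ z₂))`, the pocket `Ri` has the word
`rvw s ++ v`.
-/

set_option autoImplicit false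
set_option linter.unusedSectionVars false

namespace Pool.Agent.SixB

open Pool.Agent.Perc.Q Relation

noncomputable section

variable {V Φ : Type} [DecidableEq V] [DecidableEq Φ]
variable {Q : QC V Φ} {F F₁ G Ri : Finset Φ} {ω : Φ → Bool} {a b c e x y m : V × V}
  {X : Finset (V × V)} {ψ ψ₁ : V × V → ℝ}

theorem cos_pm (x : ℝ) (h : x = -(Real.pi / 6) ∨ x = Real.pi / 6) : Real.cos x = Real.sqrt 3 / 2 := by
  rcases h with h | h
  · rw [h, Real.cos_neg, Real.cos_pi_div_six]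
  · rw [h, Real.cos_pi_div_six]

section Word

variable {E : Set (V × V)} {o z : List ((V × V) × ℤ)} {c₀ : ℝ}

/-- an arc of a disc between two sides of the natural part of the word -/
theorem nat_arc (hN : Disc Q (G : Set Φ) E (o ++ z))
    (hw : ∀ e ∈ (o ++ z).map Prod.fst, Ini Q (G : Set Φ) e)
    (hth : ∀ x ∈ z, ψ x.1 + (x.2 : ℝ) * (Real.pi / 12) = c₀) {P : V × V → Prop}
    (ho : ∀ x ∈ o, ¬ P x.1) (ha : a ∈ bS Q G) (haP : P a) (hm : P (mate Q G ω a)) :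
    Real.cos (ang6 Q G ω ψ a) = Real.sqrt 3 / 2 := by
  obtain ⟨h1, -, h3⟩ := hN.cM_all hw ω
  obtain ⟨x, hx, hxa⟩ := List.mem_map.mp ((hN.mem_bS hw).mp ha)
  obtain ⟨i, hi, rfl⟩ := List.getElem_of_mem hx
  obtain ⟨h4, h5, -⟩ := h1 i hi
  obtain ⟨h6, h7⟩ := h3 i hi h4
  rw [hxa] at h6 h7
  have hz : ∀ (j : ℕ) (hj : j < (o ++ z).length), P ((o ++ z)[j].1) →
      ψ ((o ++ z)[j].1) + (((o ++ z)[j].2 : ℤ) : ℝ) * (Real.pi / 12) = c₀ := by
    intro j hj hP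
    rcases List.mem_append.mp (List.getElem_mem hj) with h | h
    · exact absurd hP (ho _ h)
    · exact hth _ h
  have e1 := hz i hi (by rw [hxa]; exact haP)
  have e2 := hz _ h4 (by rw [← h6]; exact hm)
  rw [hxa] at e1
  rw [← h6] at e2
  apply cos_pm
  unfold ang6
  rw [h7]
  split_ifs
  · left
    push_cast
    linarith
  · right
    push_cast
    linarith

/-- the angle from an exit side -/
theorem nat_exit (hN : Disc Q (G : Set Φ) E (o ++ z))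
    (hw : ∀ e ∈ (o ++ z).map Prod.fst, Ini Q (G : Set Φ) e)
    (hth : ∀ x ∈ z, ψ x.1 + (x.2 : ℝ) * (Real.pi / 12) = c₀) {P : V × V → Prop}
    (ho : ∀ x ∈ o, ¬ P x.1) {k : ℕ} (hk : k < o.length) (hm : P (mate Q G ω (o[k].1))) :
    (turn Q G ω (o[k].1) : ℝ) * (Real.pi / 12) + ψ (mate Q G ω (o[k].1)) =
      c₀ - (o[k].2 : ℝ) * (Real.pi / 12) - Real.pi / 6 := by
  obtain ⟨h1, -, h3⟩ := hN.cM_all hw ω
  have hk' : k < (o ++ z).length := by rw [List.length_append]; omega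
  have hko : (o ++ z)[k] = o[k] := List.getElem_append_left hk
  obtain ⟨h4, h5, -⟩ := h1 k hk'
  obtain ⟨h6, h7⟩ := h3 k hk' h4
  rw [hko] at h6 h7
  have h8 : o.length ≤ cM Q G (o ++ z) ω k := by
    by_contra h
    push Not at h
    have h9 : (o ++ z)[cM Q G (o ++ z) ω k] = o[cM Q G (o ++ z) ω k] := List.getElem_append_left h
    rw [h9] at h6
    exact ho _ (List.getElem_mem h) (h6 ▸ hm)
  have h10 : (o ++ z)[cM Q G (o ++ z) ω k] ∈ z := by
    rw [List.getElem_append_right h8]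
    exact List.getElem_mem _
  have e2 := hth _ h10
  rw [← h6] at e2
  rw [h7, if_pos (by omega)]
  push_cast
  linarith

end Word

/-- **Natural boxes from words.** -/
theorem MBox.of_disc {E₁ E₂ : Set (V × V)} {o z z' : List ((V × V) × ℤ)} {c₀ : ℝ}
    (hGF : G ⊆ F₁) (hsep : ∀ b ∈ dE Q Ri, b ∉ dE Q (F₁ \ G))
    (hsepF : ∀ b ∈ dE Q G, b ∈ dE Q (F \ F₁) → b ∈ dE Q Ri)
    (hG : Disc Q (G : Set Φ) E₁ (o ++ z)) (hGw : ∀ e ∈ (o ++ z).map Prod.fst, Ini Q (G : Set Φ) e)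
    (hN : Disc Q ((G ∪ Ri : Finset Φ) : Set Φ) E₂ (o ++ z'))
    (hNw : ∀ e ∈ (o ++ z').map Prod.fst, Ini Q ((G ∪ Ri : Finset Φ) : Set Φ) e)
    (ho : ∀ x ∈ o, x.1 ∉ bS Q F₁) (ho' : ∀ x ∈ o, x.1 ∉ bS Q F)
    (hz : ∀ x ∈ z, x.1 ∈ bS Q F₁)
    (hth : ∀ x ∈ z, ψ₁ x.1 + (x.2 : ℝ) * (Real.pi / 12) = c₀)
    (hth' : ∀ x ∈ z', ψ x.1 + (x.2 : ℝ) * (Real.pi / 12) = c₀) :
    MBox Q F F₁ G Ri ψ ψ₁ := by
  classical
  refine ⟨hGF, hsep, hsepF, ?_, ?_, ?_, ?_⟩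
  · intro ω a ha haF hm
    exact nat_arc (P := fun a => a ∈ bS Q F) hN hNw hth' ho' ha haF hm
  · intro ω a ha haF hm
    exact nat_arc (P := fun a => a ∈ bS Q F₁) hG hGw hth ho ha haF hm
  · intro ω X hX hX'
    exact hN.closed hNw hX hX'
  · refine ⟨fun y => if h : (o.map Prod.fst).idxOf y < o.length then
      c₀ - (o[(o.map Prod.fst).idxOf y].2 : ℝ) * (Real.pi / 12) - Real.pi / 6 else 0, ?_⟩
    intro ω y hy hyF
    obtain ⟨x, hx, hxy⟩ := List.mem_map.mp ((hG.mem_bS hGw).mp hy)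
    have hxo : x ∈ o := by
      rcases List.mem_append.mp hx with h | h
      · exact h
      · exact absurd (hxy ▸ hz x h) hyF
    have hyo : y ∈ o.map Prod.fst := List.mem_map.mpr ⟨x, hxo, hxy⟩
    have hlt : (o.map Prod.fst).idxOf y < o.length := by
      have := List.idxOf_lt_length_of_mem hyo
      rwa [List.length_map] at this
    have hyk : o[(o.map Prod.fst).idxOf y].1 = y := by
      have h1 := List.getElem_idxOf (List.idxOf_lt_length_of_mem hyo)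
      rwa [List.getElem_map] at h1
    beta_reduce
    rw [dif_pos hlt]
    constructor
    · intro hm
      have := nat_exit (P := fun a => a ∈ bS Q F) (ω := ω) hN hNw hth' ho' hlt (by rw [hyk]; exact hm)
      rwa [hyk] at this
    · intro hm
      have := nat_exit (P := fun a => a ∈ bS Q F₁) (ω := ω) hG hGw hth ho hlt (by rw [hyk]; exact hm)
      rwa [hyk] at this

/-- **Natural boxes from the words of the box and of the pocket.** -/
theorem MBox.of_paste {E₁ E₂ : Set (V × V)} {o z₁ s z₂ v : List ((V × V) × ℤ)} {c₀ : ℝ}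
    (hGF : G ⊆ F₁) (hRF : Disjoint F₁ Ri) (hRsub : Ri ⊆ F) (hF : F₁ ⊆ F)
    (hsep : ∀ b ∈ dE Q Ri, b ∉ dE Q (F₁ \ G))
    (hsepF : ∀ b ∈ dE Q G, b ∈ dE Q (F \ F₁) → b ∈ dE Q Ri) (hs : s ≠ [])
    (hG : Disc Q (G : Set Φ) E₁ (o ++ (z₁ ++ (s ++ z₂))))
    (hGw : ∀ e ∈ (o ++ (z₁ ++ (s ++ z₂))).map Prod.fst, Ini Q (G : Set Φ) e)
    (hR : Disc Q (Ri : Set Φ) E₂ (rvw s ++ v))
    (ho : ∀ x ∈ o, x.1 ∉ bS Q F₁)
    (hz : ∀ x ∈ z₁ ++ (s ++ z₂), x.1 ∈ bS Q F₁)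
    (hz' : ∀ x ∈ z₁ ++ (v ++ z₂), x.1 ∈ bS Q F)
    (hth : ∀ x ∈ z₁ ++ (s ++ z₂), ψ₁ x.1 + (x.2 : ℝ) * (Real.pi / 12) = c₀)
    (hth' : ∀ x ∈ z₁ ++ (v ++ z₂), ψ x.1 + (x.2 : ℝ) * (Real.pi / 12) = c₀) :
    MBox Q F F₁ G Ri ψ ψ₁ := by
  have hd : Disjoint (G : Set Φ) (Ri : Set Φ) := by
    rw [Finset.disjoint_coe]
    exact Finset.disjoint_of_subset_left hGF hRF
  have hG1 : Disc Q (G : Set Φ) E₁ ((o ++ z₁) ++ (s ++ z₂)) := by
    rwa [List.append_assoc]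
  have hR1 : Disc Q (Ri : Set Φ) E₂ ([] ++ (rvw s ++ v)) := hR
  have hN := hG1.paste hR1 hs hd
  have e1 : (o ++ z₁) ++ (v ++ (SixB.lft 4 [] ++ z₂)) = o ++ (z₁ ++ (v ++ z₂)) := by
    rw [lft_nil, List.nil_append, List.append_assoc]
  rw [e1, ← Finset.coe_union] at hN
  have hoG : ∀ x ∈ o, x.1 ∈ bS Q G := by
    intro x hx
    exact (hG.mem_bS hGw).mpr (List.mem_map_of_mem (List.mem_append_left _ hx))
  have ho' : ∀ x ∈ o, x.1 ∉ bS Q F := by
    intro x hx h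
    exact ho x hx (bS_of_sub hF h (dE_sub hGF (mem_bS.mp (hoG x hx)).1))
  refine MBox.of_disc hGF hsep hsepF hG hGw hN ?_ ho ho' hz hth hth'
  intro e he
  obtain ⟨x, hx, rfl⟩ := List.mem_map.mp he
  rcases List.mem_append.mp hx with h | h
  · -- an exit side is not a side of the pocket
    intro f hf k hk
    have hf' : f ∈ G ∪ Ri := by exact_mod_cast hf
    rcases Finset.mem_union.mp hf' with hf1 | hf1
    · exact (mem_bS.mp (hoG x h)).2 f (by exact_mod_cast hf1) k hk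
    · have h2 : x.1 ∈ dE Q Ri := mem_dE.mpr ⟨f, hf1, k, Or.inr hk⟩
      have h3 := hsep _ h2
      exact ho x h (bS_up hGF (hoG x h) h3)
  · have h2 := (mem_bS.mp (hz' x h)).2
    exact Ini.anti (by exact_mod_cast Finset.union_subset (hGF.trans hF) hRsub) h2

end

end Pool.Agent.SixB
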