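import Pool.Agent.Lib.SixB.S3MouthI

/-!
# SixB, step 3.8: surfaces with closed tubes

`TMouth`: a mouth chart (`S3Defs`) whose tube is closed at the end.
`TData`: the surface `F` with the tubes `T i`, the surface `F₁` without them, the phases `ψ`, `ψ₁`, natural at
the tubes (`p i` = phase of the wall, of the end of the tube and of the mouth).
`TData.pchart`: the half box is a chart of `F₁`; `TData.mdata`, `TData.mscale`: the hypotheses of `S3MouthF`.
`TData.nW_eq`: `badE = 0` implies the equality of the weights; `badT_bound`: `E badE ≤ C N / 4 ^ N`.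
-/

set_option autoImplicit false
set_option linter.unusedSectionVars false

namespace Pool.Agent.SixB.MT

open Pool.Agent.Perc Pool.Agent.PercD Pool.Agent.PercN Pool.Agent.Perc.Q Relation
open Pool.Agent.SixB Pool.Agent.SixB.Tilt Pool.Agent.SixB.CM
open Pool.Agent.SixB.Rel (QChart QMap)
open Pool.Agent.SixB.PC (pb mv toMap mv_swap bS_map mv_inj not_bdR_of_inE)

noncomputable section

variable {V Φ : Type} [DecidableEq V] [DecidableEq Φ]

/-- a mouth chart whose tube is closed at the end -/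
structure TMouth (Q : QC V Φ) (F : Finset Φ) (lf : Bool) (v : ℤ × ℤ) (r h l : ℕ) extends
    MChart Q F lf v r h l where
  be : ∀ a ∈ mEnd lf v h l, toPChart.side a ∈ bS Q F

/-- surface with closed tubes -/
structure TData {ι : Type} [Fintype ι] (Q : QC V Φ) (F F₁ : Finset Φ) (ψ ψ₁ : V × V → ℝ)
    (lf : ι → Bool) (v : ι → ℤ × ℤ) (r h l : ι → ℕ) where
  c : ∀ i, TMouth Q F (lf i) (v i) (r i) (h i) (l i)
  p : ι → ℝ
  hh : ∀ i, 0 < h i
  hr : ∀ i, h i ≤ r i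
  hl : ∀ i, 0 < l i
  disj : ∀ i j, i ≠ j → Disjoint ((Mth (lf i) (v i) (r i) (h i) (l i)).image (c i).φF)
    ((Mth (lf j) (v j) (r j) (h j) (l j)).image (c j).φF)
  cut : ∀ f, f ∈ F₁ ↔ f ∈ F ∧ ∀ i, f ∉ (Tub (lf i) (v i) (h i) (l i)).image (c i).φF
  same : ∀ a ∈ bS Q F₁, a ∉ dE Q (F \ F₁) → ψ a = ψ₁ a
  w0 : ∀ i, ∀ a ∈ mthWall (lf i) (v i) (r i) (h i) (l i) 0, ψ ((c i).side a) = p i
  w1 : ∀ i, ∀ a ∈ mthWall (lf i) (v i) (r i) (h i) (l i) 1, ψ ((c i).side a) = p i + Real.pi / 12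
  w2 : ∀ i, ∀ a ∈ mthWall (lf i) (v i) (r i) (h i) (l i) 2, ψ ((c i).side a) = p i - Real.pi / 12
  w3 : ∀ i, ∀ a ∈ mthWall (lf i) (v i) (r i) (h i) (l i) 3, ψ ((c i).side a) = p i
  we : ∀ i, ∀ a ∈ mEnd (lf i) (v i) (h i) (l i), ψ ((c i).side a) = p i
  wm : ∀ i, ∀ a ∈ mMth (lf i) (v i) (h i), ψ₁ ((c i).side a) = p i

variable {ι : Type} [Fintype ι] {Q : QC V Φ} {F F₁ : Finset Φ} {ψ ψ₁ : V × V → ℝ}
  {lf : ι → Bool} {v : ι → ℤ × ℤ} {r h l : ι → ℕ}

namespace TData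

variable (D : TData Q F F₁ ψ ψ₁ lf v r h l) (i : ι)

/-- the tube -/
def T (i : ι) : Finset Φ := (Tub (lf i) (v i) (h i) (l i)).image (D.c i).φF

/-- the boxes -/
def K (i : ι) (ρ : ℤ) : Finset Φ := KM (HBx (lf i) (v i) (r i)) (D.c i).φF (v i) ρ

/-- the chart -/
theorem H : QChart ZQ Q (Mth (lf i) (v i) (r i) (h i) (l i)) (D.c i).φV (D.c i).φF 0 :=
  toQ (D.c i).toPChart (Finset.Subset.refl _)

theorem memF {f : ℤ × ℤ} (hf : f ∈ Mth (lf i) (v i) (r i) (h i) (l i)) : (D.c i).φF f ∈ F :=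
  (D.c i).sub f hf

theorem side_eq (a : (ℤ × ℤ) × (ℤ × ℤ)) : (D.c i).side a = mv (D.c i).φV a := rfl

variable {D i}

theorem sub (D : TData Q F F₁ ψ ψ₁ lf v r h l) : F₁ ⊆ F := fun _ hf => ((D.cut _).mp hf).1

theorem half_F₁ {f : ℤ × ℤ} (hf : f ∈ HBx (lf i) (v i) (r i)) : (D.c i).φF f ∈ F₁ := by
  refine (D.cut _).mpr ⟨D.memF i (HBx_sub hf), fun j hj => ?_⟩
  obtain ⟨g, hg, he⟩ := Finset.mem_image.mp hj
  by_cases hij : j = i
  · subst hij
    have h1 : g = f := (D.H j).injOn (Finset.mem_coe.mpr (Tub_sub hg)) (Finset.mem_coe.mpr (HBx_sub hf)) he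
    exact HBx_disj hf (h1 ▸ hg)
  · refine Finset.disjoint_left.mp (D.disj j i hij) (Finset.mem_image_of_mem _ (Tub_sub hg)) ?_
    rw [he]
    exact Finset.mem_image_of_mem _ (HBx_sub hf)

theorem tube_notF₁ {f : ℤ × ℤ} (hf : f ∈ Tub (lf i) (v i) (h i) (l i)) : (D.c i).φF f ∉ F₁ := by
  intro h1
  exact ((D.cut _).mp h1).2 i (Finset.mem_image_of_mem _ hf)

theorem mem_T {f : Φ} : f ∈ D.T i ↔ ∃ g ∈ Tub (lf i) (v i) (h i) (l i), (D.c i).φF g = f := by
  unfold T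
  rw [Finset.mem_image]

/-- the walls are boundary sides of `F` -/
theorem wall {f : ℤ × ℤ} {k : ZMod 4} (hw : Wl (lf i) (v i) (r i) (h i) (l i) f k) :
    mv (D.c i).φV (sd ZQ f k) ∈ bS Q F := by
  obtain ⟨j, hj⟩ := mem_mthWall.mpr ⟨f, k, rfl, hw⟩
  exact (D.c i).bd j _ hj

/-- a face of the tube: a side without neighbour in the chart is a boundary side of `F` -/
theorem tube_nb {f : ℤ × ℤ} (k : ZMod 4) (hf : f ∈ Tub (lf i) (v i) (h i) (l i))
    (hn : nbF f k ∉ Mth (lf i) (v i) (r i) (h i) (l i)) : mv (D.c i).φV (sd ZQ f k) ∈ bS Q F := by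
  have hr := D.hr i
  have hh := D.hh i
  rw [mem_Mth'] at hn
  rw [mem_HBx, mem_Tub] at hn
  rw [mem_Tub] at hf
  rcases hf with ⟨h1, ⟨hlf, h2⟩ | ⟨hlf, h2⟩⟩ <;> rcases k4 k with rfl | rfl | rfl | rfl <;>
    simp only [nb0, nb1, nb2, nb3, hlf, true_and, Bool.true_eq_false, Bool.false_eq_true, false_and,
      or_false, false_or] at hn
  · exact D.wall (Or.inl ⟨hlf, Or.inr (Or.inl ⟨rfl, by omega, by omega⟩)⟩)
  · refine (D.c i).be (sd ZQ f 1) ?_
    unfold mEnd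
    rw [hlf, if_pos rfl, mem_out1]
    exact ⟨f, rfl, by simp only; omega, by simp only; omega, by simp only; push_cast; omega⟩
  · exact D.wall (Or.inl ⟨hlf, Or.inr (Or.inr ⟨rfl, by omega, by omega⟩)⟩)
  · exfalso
    omega
  · exact D.wall (Or.inr ⟨hlf, Or.inr (Or.inl ⟨rfl, by omega, by omega⟩)⟩)
  · exfalso
    omega
  · exact D.wall (Or.inr ⟨hlf, Or.inr (Or.inr ⟨rfl, by omega, by omega⟩)⟩)
  · refine (D.c i).be (sd ZQ f 3) ?_
    unfold mEnd
    rw [hlf, if_neg (by decide), mem_out3]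
    exact ⟨f, rfl, by simp only; omega, by simp only; push_cast; omega, by simp only; omega⟩

/-- a face of the half box: a side without neighbour in the chart is a boundary side of `F` or lies on
the boundary of the box -/
theorem half_nb {f : ℤ × ℤ} (k : ZMod 4) (hf : f ∈ HBx (lf i) (v i) (r i))
    (hn : nbF f k ∉ Mth (lf i) (v i) (r i) (h i) (l i)) (hb : nbF f k ∈ BR (v i) (r i)) :
    mv (D.c i).φV (sd ZQ f k) ∈ bS Q F := by
  have hr := D.hr i
  have hl := D.hl i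
  rw [mem_Mth'] at hn
  rw [mem_HBx, mem_Tub] at hn
  rw [mem_HBx] at hf
  rw [mem_BR] at hb
  rcases hf with ⟨h1, ⟨hlf, h2⟩ | ⟨hlf, h2⟩⟩ <;> rcases k4 k with rfl | rfl | rfl | rfl <;>
    simp only [nb0, nb1, nb2, nb3, hlf, true_and, Bool.true_eq_false, Bool.false_eq_true, false_and,
      or_false, false_or] at hn hb
  · exfalso; omega
  · exact D.wall (Or.inl ⟨hlf, Or.inl ⟨rfl, by omega, by omega⟩⟩)
  · exfalso; omega
  · exfalso; omega
  · exfalso; omega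
  · exfalso; omega
  · exfalso; omega
  · exact D.wall (Or.inr ⟨hlf, Or.inl ⟨rfl, by omega, by omega⟩⟩)

/-- the sides of a tube face -/
theorem tube_side {S : Finset Φ} {b : V × V} (hb : b ∈ dE Q (D.T i)) (hS : S ⊆ F) (hbS : b ∈ dE Q S) :
    ∃ g ∈ Mth (lf i) (v i) (r i) (h i) (l i), (D.c i).φF g ∈ S ∧
      (g ∈ Tub (lf i) (v i) (h i) (l i) ∨ g ∈ HBx (lf i) (v i) (h i)) := by
  -- reduction to one direction
  have key : ∀ (f : ℤ × ℤ) (k : ZMod 4), f ∈ Tub (lf i) (v i) (h i) (l i) →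
      mv (D.c i).φV (sd ZQ f k) ∈ dE Q S → ∃ g ∈ Mth (lf i) (v i) (r i) (h i) (l i), (D.c i).φF g ∈ S ∧
      (g ∈ Tub (lf i) (v i) (h i) (l i) ∨ g ∈ HBx (lf i) (v i) (h i)) := by
    intro f k hf hd
    by_cases h1 : (D.c i).φF f ∈ S
    · exact ⟨f, Tub_sub hf, h1, Or.inl hf⟩
    by_cases hn : nbF f k ∈ Mth (lf i) (v i) (r i) (h i) (l i)
    · refine ⟨nbF f k, hn, side_nb (D.H i) (Tub_sub hf) hn h1 hd, ?_⟩
      rcases mem_Mth'.mp hn with h2 | h2
      · right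
        have hl := D.hl i
        have hh := D.hh i
        rw [mem_HBx] at h2 ⊢
        rw [mem_Tub] at hf
        rcases hf with ⟨h3, ⟨hlf, h4⟩ | ⟨hlf, h4⟩⟩ <;> rcases k4 k with rfl | rfl | rfl | rfl <;>
          simp only [nb0, nb1, nb2, nb3, hlf, true_and, Bool.true_eq_false, Bool.false_eq_true, false_and,
            or_false, false_or] at h2 ⊢ <;> omega
      · exact Or.inl h2
    · exfalso
      exact not_dE_single (D.tube_nb k hf hn) (D.H i) (Tub_sub hf) hS h1 (D.memF i (Tub_sub hf)) hd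
  obtain ⟨f', hf', k, hk⟩ := mem_dE.mp hb
  obtain ⟨f, hf, rfl⟩ := mem_T.mp hf'
  rw [← mv_sd (D.H i) (Tub_sub hf) k] at hk
  rcases hk with rfl | rfl
  · exact key f k hf hbS
  · exact key f k hf (swap_mem_dE.mp hbS)

theorem T_sub : D.T i ⊆ F \ F₁ := by
  intro f hf
  obtain ⟨g, hg, rfl⟩ := mem_T.mp hf
  exact Finset.mem_sdiff.mpr ⟨D.memF i (Tub_sub hg), tube_notF₁ hg⟩

theorem cov {f : Φ} (hf : f ∈ F) (h1 : f ∉ F₁) : ∃ i, f ∈ D.T i := by
  by_contra h2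
  push Not at h2
  exact h1 ((D.cut f).mpr ⟨hf, h2⟩)

variable (D) in
/-- **The data of `S3MouthD`.** -/
theorem mdata : MData Q F F₁ D.T where
  sub := sub D
  cov := fun _ hf h1 => cov hf h1
  R_F := fun _ => T_sub
  Rd := by
    intro i j hij b hb hb'
    obtain ⟨g, hg, h1, -⟩ := tube_side hb (T_sub.trans Finset.sdiff_subset) hb'
    obtain ⟨g', hg', h2⟩ := mem_T.mp h1
    refine Finset.disjoint_left.mp (D.disj i j hij) (Finset.mem_image_of_mem _ hg) ?_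
    rw [← h2]
    exact Finset.mem_image_of_mem _ (Tub_sub hg')

theorem hMP : HBx (lf i) (v i) (r i) ⊆ Mth (lf i) (v i) (r i) (h i) (l i) := HBx_sub

variable (D i) in
/-- **The half box is a chart of `F₁`.** -/
theorem pchart : PC.PChart Q F₁ (v i) (r i) (HBx (lf i) (v i) (r i)) (D.c i).φV (D.c i).φF where
  chart := (D.H i).mono hMP
  box := HBx_box
  mem := fun _ hf => half_F₁ hf
  full := by
    intro x hx hb
    obtain ⟨f, hf, k, rfl⟩ := bS_sd hx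
    have h1 := (bS_iff hf).mp hx
    have hg : nbF f k ∈ BR (v i) (r i) := by
      refine in_of_side (c := und (sd ZQ f k)) ?_ (sd_InE (HBx_box hf) k) hb
      have h2 : und (sd ZQ f k) = und (sd ZQ (nbF f k) (k + 2)) := by
        rw [← sd_nb, und_swap (sd_mem hf k)]
      rw [h2, und_sd]
      exact su_isSide _ _
    by_cases h2 : nbF f k ∈ Mth (lf i) (v i) (r i) (h i) (l i)
    · have h3 := (mem_Mth'.mp h2).resolve_left h1
      intro g hg' m he
      have he' : mv (D.c i).φV (sd ZQ f k) = (sd Q g m).swap := he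
      have h4 : sd Q g m = sd Q ((D.c i).φF (nbF f k)) (k + 2) := by
        rw [← mv_sd (D.H i) h2, ← sd_nb, mv_swap, he', Prod.swap_swap]
      have h5 : g ∈ F₁ := by exact_mod_cast hg'
      rw [(sd_inj h4).1] at h5
      exact tube_notF₁ h3 h5
    · have h3 := D.half_nb k hf h2 hg
      exact Ini.anti (by exact_mod_cast sub D) (mem_bS.mp h3).2

theorem K_eq {ρ : ℕ} (hρ : ρ ≤ r i) : D.K i ρ = (HBx (lf i) (v i) ρ).image (D.c i).φF := by
  unfold K KM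
  rw [HBx_inter hρ]

theorem K_sub {ρ : ℤ} : D.K i ρ ⊆ F₁ := KM_sub (D.pchart i)

/-- the mouth separates -/
theorem sepR {ρ : ℕ} (hρ : h i ≤ ρ) (hr : ρ ≤ r i) {b : V × V} (hb : b ∈ dE Q (D.T i)) :
    b ∉ dE Q (F₁ \ D.K i ρ) := by
  intro h1
  obtain ⟨g, hg, h2, h3⟩ := tube_side hb (Finset.sdiff_subset.trans (sub D)) h1
  obtain ⟨h4, h5⟩ := Finset.mem_sdiff.mp h2
  rcases h3 with h3 | h3
  · exact tube_notF₁ h3 h4
  · apply h5
    rw [K_eq hr]
    exact Finset.mem_image_of_mem _ (HBx_mono hρ h3)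

theorem sepF {ρ : ℕ} (hr : ρ < r i) {b : V × V} (hb : b ∈ dE Q (D.K i ρ)) (hb' : b ∈ dE Q (F \ F₁)) :
    b ∈ dE Q (D.T i) := by
  have key : ∀ (f : ℤ × ℤ) (k : ZMod 4), f ∈ HBx (lf i) (v i) ρ →
      mv (D.c i).φV (sd ZQ f k) ∈ dE Q (F \ F₁) → mv (D.c i).φV (sd ZQ f k) ∈ dE Q (D.T i) := by
    intro f k hf hd
    have hfr := HBx_mono hr.le hf
    have h1 : (D.c i).φF f ∉ F \ F₁ := fun h => (Finset.mem_sdiff.mp h).2 (half_F₁ hfr)
    by_cases hn : nbF f k ∈ Mth (lf i) (v i) (r i) (h i) (l i)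
    · have h2 := side_nb (D.H i) (HBx_sub hfr) hn h1 hd
      have h3 : nbF f k ∈ Tub (lf i) (v i) (h i) (l i) := by
        refine (mem_Mth'.mp hn).resolve_left fun h => ?_
        exact (Finset.mem_sdiff.mp h2).2 (half_F₁ h)
      have h4 : mv (D.c i).φV (sd ZQ f k) = (sd Q ((D.c i).φF (nbF f k)) (k + 2)).swap := by
        rw [← mv_sd (D.H i) hn, ← sd_nb, mv_swap, Prod.swap_swap]
      rw [h4]
      exact swap_mem_dE.mpr (sd_mem (mem_T.mpr ⟨_, h3, rfl⟩) _)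
    · exfalso
      have hb : nbF f k ∈ BR (v i) (r i) := by
        rw [mem_HBx] at hf
        rw [mem_BR]
        rcases k4 k with rfl | rfl | rfl | rfl <;> simp only [nb0, nb1, nb2, nb3] <;> omega
      exact not_dE_single (D.half_nb k hfr hn hb) (D.H i) (HBx_sub hfr) Finset.sdiff_subset h1
        (D.memF i (HBx_sub hfr)) hd
  rw [K_eq hr.le] at hb
  obtain ⟨f', hf', k, hk⟩ := mem_dE.mp hb
  obtain ⟨f, hf, rfl⟩ := Finset.mem_image.mp hf'
  rw [← mv_sd (D.H i) (HBx_sub (HBx_mono hr.le hf)) k] at hk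
  rcases hk with rfl | rfl
  · exact key f k hf hb'
  · exact swap_mem_dE.mpr (key f k hf (swap_mem_dE.mp hb'))

/-- the sides of the wall of the half box -/
theorem wall_F₁ {f : ℤ × ℤ} {k : ZMod 4} (hf : f ∈ HBx (lf i) (v i) (r i))
    (hn : nbF f k ∉ HBx (lf i) (v i) (r i)) (hb : nbF f k ∈ BR (v i) (r i)) :
    mv (D.c i).φV (sd ZQ f k) ∈ bS Q F₁ := by
  refine (D.pchart i).bS_F ((bS_iff hf).mpr hn) ?_
  intro h1
  rw [und_sd] at h1
  rw [mem_HBx] at hf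
  rw [mem_BR] at hb
  unfold BdR BdE at h1
  rcases k4 k with rfl | rfl | rfl | rfl <;>
    simp only [nb0, nb1, nb2, nb3, su0, su1, su2, su3, Bool.false_eq_true, Bool.true_eq_false, false_and,
      true_and, or_false, false_or] at h1 hb <;> omega

theorem exit_F₁ {f : ℤ × ℤ} {k : ZMod 4} (hn : nbF f k ∈ HBx (lf i) (v i) (r i)) :
    mv (D.c i).φV (sd ZQ f k) ∉ bS Q F₁ :=
  nb_not_ini (D.H i) (HBx_sub hn) (half_F₁ hn)

theorem ini_G {ρ : ℕ} (hρ : ρ ≤ r i) {f : ℤ × ℤ} {k : ZMod 4} (hf : f ∈ HBx (lf i) (v i) ρ)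
    (hn : nbF f k ∉ HBx (lf i) (v i) ρ) :
    Ini Q (((HBx (lf i) (v i) ρ).image (D.c i).φF : Finset Φ) : Set Φ) (mv (D.c i).φV (sd ZQ f k)) := by
  have h1 : mv (D.c i).φV (sd ZQ f k) ∈ bS Q ((HBx (lf i) (v i) ρ).image (D.c i).φF) := by
    rw [bS_map ((D.H i).mono ((HBx_mono hρ).trans HBx_sub))]
    exact Finset.mem_image_of_mem _ ((bS_iff hf).mpr hn)
  exact (mem_bS.mp h1).2

end TData

end

end Pool.Agent.SixB.MT
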