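import Pool.Agent.Lib.SixB.S3MouthJ

/-!
# SixB, step 3.8: closed tubes are natural pockets

`TData.mbox`: the half box of radius `ρ`, `h ≤ ρ < r`, is a natural box (`MBox`).
`TData.mscale`: the nested boxes of radii `h 2 ^ k`. `TData.nW_eq`, `badT_bound`: the final form.
-/

set_option autoImplicit false
set_option linter.unusedSectionVars false

namespace Pool.Agent.SixB.MT

open Pool.Agent.Perc Pool.Agent.PercD Pool.Agent.PercN Pool.Agent.Perc.Q Relation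
open Pool.Agent.SixB Pool.Agent.SixB.Tilt Pool.Agent.SixB.CM
open Pool.Agent.SixB.Rel (QChart QMap)
open Pool.Agent.SixB.PC (pb mv toMap mv_swap bS_map mv_inj not_bdR_of_inE)

noncomputable section

variable {V Φ : Type} [DecidableEq V] [DecidableEq Φ]

section Walls

variable {v f : ℤ × ℤ} {r h l : ℕ}

theorem mwl0 (h1 : f.1 = v.1 - 1) (h2 : v.2 - r ≤ f.2) (h3 : f.2 < v.2 - h) :
    sd ZQ f 1 ∈ mthWall true v r h l 0 := by
  show sd ZQ f 1 ∈ wOut 1 (v.1, v.2 - r) (r - h)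
  rw [mem_out1]
  exact ⟨f, rfl, h1, h2, by simp only; omega⟩

theorem mwl1 (h1 : f.2 = v.2 - h) (h2 : v.1 ≤ f.1) (h3 : f.1 < v.1 + l) :
    sd ZQ f 0 ∈ mthWall true v r h l 1 := by
  show sd ZQ f 0 ∈ wOut 0 (v.1, v.2 - h) l
  rw [mem_out0]
  exact ⟨f, rfl, h1, h2, h3⟩

theorem mwl2 (h1 : f.2 = v.2 + h - 1) (h2 : v.1 ≤ f.1) (h3 : f.1 < v.1 + l) :
    sd ZQ f 2 ∈ mthWall true v r h l 2 := by
  show sd ZQ f 2 ∈ wOut 2 (v.1 + l, v.2 + h) l
  rw [mem_out2]
  exact ⟨f, rfl, by simp only; omega, by simp only; omega, by simp only; omega⟩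

theorem mwl3 (h1 : f.1 = v.1 - 1) (h2 : v.2 + h ≤ f.2) (h3 : f.2 < v.2 + r) :
    sd ZQ f 1 ∈ mthWall true v r h l 3 := by
  show sd ZQ f 1 ∈ wOut 1 (v.1, v.2 + h) (r - h)
  rw [mem_out1]
  exact ⟨f, rfl, h1, h2, by simp only; omega⟩

theorem mwr0 (h1 : f.1 = v.1) (h2 : v.2 + h ≤ f.2) (h3 : f.2 < v.2 + r) :
    sd ZQ f 3 ∈ mthWall false v r h l 0 := by
  show sd ZQ f 3 ∈ wOut 3 (v.1, v.2 + r) (r - h)
  rw [mem_out3]
  exact ⟨f, rfl, h1, by simp only; omega, h3⟩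

theorem mwr1 (h1 : f.2 = v.2 + h - 1) (h2 : v.1 - l ≤ f.1) (h3 : f.1 < v.1) :
    sd ZQ f 2 ∈ mthWall false v r h l 1 := by
  show sd ZQ f 2 ∈ wOut 2 (v.1, v.2 + h) l
  rw [mem_out2]
  exact ⟨f, rfl, h1, h2, h3⟩

theorem mwr2 (h1 : f.2 = v.2 - h) (h2 : v.1 - l ≤ f.1) (h3 : f.1 < v.1) :
    sd ZQ f 0 ∈ mthWall false v r h l 2 := by
  show sd ZQ f 0 ∈ wOut 0 (v.1 - l, v.2 - h) l
  rw [mem_out0]
  exact ⟨f, rfl, h1, h2, by simp only; omega⟩

theorem mwr3 (h1 : f.1 = v.1) (h2 : v.2 - r ≤ f.2) (h3 : f.2 < v.2 - h) :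
    sd ZQ f 3 ∈ mthWall false v r h l 3 := by
  show sd ZQ f 3 ∈ wOut 3 (v.1, v.2 - h) (r - h)
  rw [mem_out3]
  exact ⟨f, rfl, h1, by simp only; omega, h3⟩

theorem endl (h1 : f.1 = v.1 + l - 1) (h2 : v.2 - h ≤ f.2) (h3 : f.2 < v.2 + h) :
    sd ZQ f 1 ∈ mEnd true v h l := by
  show sd ZQ f 1 ∈ wOut 1 (v.1 + l, v.2 - h) (2 * h)
  rw [mem_out1]
  exact ⟨f, rfl, h1, h2, by simp only; push_cast; omega⟩

theorem endr (h1 : f.1 = v.1 - l) (h2 : v.2 - h ≤ f.2) (h3 : f.2 < v.2 + h) :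
    sd ZQ f 3 ∈ mEnd false v h l := by
  show sd ZQ f 3 ∈ wOut 3 (v.1 - l, v.2 + h) (2 * h)
  rw [mem_out3]
  exact ⟨f, rfl, h1, by simp only; push_cast; omega, h3⟩

theorem mouthl (h1 : f.1 = v.1 - 1) (h2 : v.2 - h ≤ f.2) (h3 : f.2 < v.2 + h) :
    sd ZQ f 1 ∈ mMth true v h := by
  show sd ZQ f 1 ∈ wOut 1 (v.1, v.2 - h) (2 * h)
  rw [mem_out1]
  exact ⟨f, rfl, h1, h2, by simp only; push_cast; omega⟩

theorem mouthr (h1 : f.1 = v.1) (h2 : v.2 - h ≤ f.2) (h3 : f.2 < v.2 + h) :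
    sd ZQ f 3 ∈ mMth false v h := by
  show sd ZQ f 3 ∈ wOut 3 (v.1, v.2 + h) (2 * h)
  rw [mem_out3]
  exact ⟨f, rfl, h1, by simp only; push_cast; omega, h3⟩

end Walls

variable {ι : Type} [Fintype ι] {Q : QC V Φ} {F F₁ : Finset Φ} {ψ ψ₁ : V × V → ℝ}
  {lf : ι → Bool} {v : ι → ℤ × ℤ} {r h l : ι → ℕ}

namespace TData

variable {D : TData Q F F₁ ψ ψ₁ lf v r h l} {i : ι}

theorem wall_same {f : ℤ × ℤ} {k : ZMod 4} (hf : f ∈ HBx (lf i) (v i) (r i))
    (h0 : mv (D.c i).φV (sd ZQ f k) ∈ bS Q F) :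
    ψ₁ (mv (D.c i).φV (sd ZQ f k)) = ψ (mv (D.c i).φV (sd ZQ f k)) := by
  have h1 : mv (D.c i).φV (sd ZQ f k) ∈ dE Q F₁ := by
    rw [mv_sd (D.H i) (HBx_sub hf)]
    exact sd_mem (half_F₁ hf) k
  refine (D.same _ (bS_of_sub (sub D) h0 h1) ?_).symm
  refine not_dE_single h0 (D.H i) (HBx_sub hf) Finset.sdiff_subset ?_ (D.memF i (HBx_sub hf))
  exact fun h => (Finset.mem_sdiff.mp h).2 (half_F₁ hf)

theorem mbox_left (hlf : lf i = true) {ρ : ℕ} (hρ : h i ≤ ρ) (hr : ρ < r i) :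
    MBox Q F F₁ (D.K i ρ) (D.T i) ψ ψ₁ := by
  have hh := D.hh i
  have hl := D.hl i
  set ν := (D.c i).φV with hν
  obtain ⟨G, hG⟩ := word_left (v := v i) (h := h i) (ρ := ρ) (D.H i)
    (by rw [← hlf]; exact (HBx_mono hr.le).trans HBx_sub) hh hρ
  obtain ⟨E, hE⟩ := tube_left (v := v i) (h := h i) (l := l i) (D.H i) (by rw [← hlf]; exact Tub_sub) hh hl
  rw [← hlf, ← K_eq hr.le] at hG
  rw [← hlf] at hE
  have a4 : ((4 : ℤ) : ZMod 4) = 0 := by decide
  have a5 : ((5 : ℤ) : ZMod 4) = 1 := by decide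
  have a6 : ((6 : ℤ) : ZMod 4) = 2 := by decide
  have a2 : ((2 : ℤ) : ZMod 4) = 2 := by decide
  have a3 : ((3 : ℤ) : ZMod 4) = 3 := by decide
  -- the wall
  have hwall : ∀ f : ℤ × ℤ, f.1 = (v i).1 - 1 → (v i).2 - ρ ≤ f.2 → f.2 < (v i).2 + ρ →
      f ∈ HBx (lf i) (v i) ρ ∧ nbF f 1 ∉ HBx (lf i) (v i) ρ ∧ nbF f 1 ∉ HBx (lf i) (v i) (r i) ∧
        nbF f 1 ∈ BR (v i) (r i) := by
    intro f h1 h2 h3
    rw [mem_HBx, mem_HBx, mem_HBx, mem_BR, nb1, hlf]
    simp only [true_and, Bool.true_eq_false, false_and, or_false]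
    omega
  have hwF₁ : ∀ f : ℤ × ℤ, f.1 = (v i).1 - 1 → (v i).2 - ρ ≤ f.2 → f.2 < (v i).2 + ρ →
      mv ν (sd ZQ f 1) ∈ bS Q F₁ := by
    intro f h1 h2 h3
    obtain ⟨h4, -, h5, h6⟩ := hwall f h1 h2 h3
    exact wall_F₁ (HBx_mono hr.le h4) h5 h6
  have hwF : ∀ f : ℤ × ℤ, f.1 = (v i).1 - 1 → (v i).2 - ρ ≤ f.2 → f.2 < (v i).2 + ρ →
      (f.2 < (v i).2 - h i ∨ (v i).2 + h i ≤ f.2) → mv ν (sd ZQ f 1) ∈ bS Q F ∧
        ψ (mv ν (sd ZQ f 1)) = D.p i ∧ ψ₁ (mv ν (sd ZQ f 1)) = D.p i := by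
    intro f h1 h2 h3 h4
    have h5 : mv ν (sd ZQ f 1) ∈ bS Q F := D.wall (Or.inl ⟨hlf, Or.inl ⟨rfl, h1, by omega⟩⟩)
    have h6 : ψ (mv ν (sd ZQ f 1)) = D.p i := by
      rcases h4 with h4 | h4
      · exact D.w0 i (sd ZQ f 1) (by rw [hlf]; exact mwl0 h1 (by omega) h4)
      · exact D.w3 i (sd ZQ f 1) (by rw [hlf]; exact mwl3 h1 h4 (by omega))
    refine ⟨h5, h6, ?_⟩
    rw [← h6]
    exact wall_same (HBx_mono hr.le (hwall f h1 h2 h3).1) h5
  refine MBox.of_paste (c₀ := D.p i + 5 * (Real.pi / 12)) K_sub ?_ (T_sub.trans Finset.sdiff_subset) (sub D)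
    (fun b hb => sepR hρ hr.le hb) (fun b hb hb' => sepF hr hb hb') ?_ hG ?_ hE ?_ ?_ ?_ ?_ ?_
  · rw [Finset.disjoint_left]
    intro f h1 h2
    exact (Finset.mem_sdiff.mp (T_sub h2)).2 h1
  · intro h0
    have := congrArg List.length h0
    rw [segm_length, List.length_nil] at this
    omega
  · -- the sides of the word
    intro e he
    obtain ⟨x, hx, rfl⟩ := List.mem_map.mp he
    rw [K_eq hr.le]
    simp only [List.mem_append] at hx
    rcases hx with (hx | hx | hx) | hx | hx | hx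
    · obtain ⟨f, rfl, h1, h2, h3⟩ := segm2 a2 hx
      simp only at h1 h2 h3
      refine ini_G hr.le (f := f) (k := 2) ?_ ?_
      · rw [mem_HBx, hlf]
        exact ⟨by omega, Or.inl ⟨rfl, by omega⟩⟩
      · rw [mem_HBx, nb2]
        simp only
        omega
    · obtain ⟨f, rfl, h1, h2, h3⟩ := segm3 a3 hx
      simp only at h1 h2 h3
      push_cast at h2
      refine ini_G hr.le (f := f) (k := 3) ?_ ?_
      · rw [mem_HBx, hlf]
        exact ⟨by omega, Or.inl ⟨rfl, by omega⟩⟩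
      · rw [mem_HBx, nb3]
        simp only
        omega
    · obtain ⟨f, rfl, h1, h2, h3⟩ := segm0 a4 hx
      simp only at h1 h2 h3
      refine ini_G hr.le (f := f) (k := 0) ?_ ?_
      · rw [mem_HBx, hlf]
        exact ⟨by omega, Or.inl ⟨rfl, by omega⟩⟩
      · rw [mem_HBx, nb0]
        simp only
        omega
    · obtain ⟨f, rfl, h1, h2, h3⟩ := segm1 a5 hx
      simp only at h1 h2 h3
      obtain ⟨h4, h5, -⟩ := hwall f h1 (by omega) (by omega)
      exact ini_G hr.le h4 h5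
    · obtain ⟨f, rfl, h1, h2, h3⟩ := segm1 a5 hx
      simp only at h1 h2 h3
      push_cast at h3
      obtain ⟨h4, h5, -⟩ := hwall f h1 (by omega) (by omega)
      exact ini_G hr.le h4 h5
    · obtain ⟨f, rfl, h1, h2, h3⟩ := segm1 a5 hx
      simp only at h1 h2 h3
      obtain ⟨h4, h5, -⟩ := hwall f h1 (by omega) (by omega)
      exact ini_G hr.le h4 h5
  · -- the exit sides
    intro x hx
    simp only [List.mem_append] at hx
    rcases hx with hx | hx | hx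
    · obtain ⟨f, rfl, h1, h2, h3⟩ := segm2 a2 hx
      simp only at h1 h2 h3
      refine exit_F₁ ?_
      rw [mem_HBx, nb2, hlf]
      exact ⟨by simp only; omega, Or.inl ⟨rfl, by simp only; omega⟩⟩
    · obtain ⟨f, rfl, h1, h2, h3⟩ := segm3 a3 hx
      simp only at h1 h2 h3
      push_cast at h2
      refine exit_F₁ ?_
      rw [mem_HBx, nb3, hlf]
      exact ⟨by simp only; omega, Or.inl ⟨rfl, by simp only; omega⟩⟩
    · obtain ⟨f, rfl, h1, h2, h3⟩ := segm0 a4 hx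
      simp only at h1 h2 h3
      refine exit_F₁ ?_
      rw [mem_HBx, nb0, hlf]
      exact ⟨by simp only; omega, Or.inl ⟨rfl, by simp only; omega⟩⟩
  · -- the wall of `F₁`
    intro x hx
    simp only [List.mem_append] at hx
    rcases hx with hx | hx | hx
    · obtain ⟨f, rfl, h1, h2, h3⟩ := segm1 a5 hx
      simp only at h1 h2 h3
      exact hwF₁ f h1 (by omega) (by omega)
    · obtain ⟨f, rfl, h1, h2, h3⟩ := segm1 a5 hx
      simp only at h1 h2 h3
      push_cast at h3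
      exact hwF₁ f h1 (by omega) (by omega)
    · obtain ⟨f, rfl, h1, h2, h3⟩ := segm1 a5 hx
      simp only at h1 h2 h3
      exact hwF₁ f h1 (by omega) (by omega)
  · -- the wall of `F`
    intro x hx
    simp only [List.mem_append] at hx
    rcases hx with hx | (hx | hx | hx) | hx
    · obtain ⟨f, rfl, h1, h2, h3⟩ := segm1 a5 hx
      simp only at h1 h2 h3
      exact (hwF f h1 (by omega) (by omega) (by omega)).1
    · obtain ⟨f, rfl, h1, h2, h3⟩ := segm0 a4 hx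
      simp only at h1 h2 h3
      exact D.wall (Or.inl ⟨hlf, Or.inr (Or.inl ⟨rfl, by omega, by omega⟩)⟩)
    · obtain ⟨f, rfl, h1, h2, h3⟩ := segm1 a5 hx
      simp only at h1 h2 h3
      push_cast at h3
      exact (D.c i).be (sd ZQ f 1) (by rw [hlf]; exact endl h1 h2 (by omega))
    · obtain ⟨f, rfl, h1, h2, h3⟩ := segm2 a6 hx
      simp only at h1 h2 h3
      exact D.wall (Or.inl ⟨hlf, Or.inr (Or.inr ⟨rfl, by omega, by omega⟩)⟩)
    · obtain ⟨f, rfl, h1, h2, h3⟩ := segm1 a5 hx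
      simp only at h1 h2 h3
      exact (hwF f h1 (by omega) (by omega) (by omega)).1
  · -- phases of `F₁`
    intro x hx
    simp only [List.mem_append] at hx
    rcases hx with hx | hx | hx
    · obtain ⟨f, rfl, h1, h2, h3⟩ := segm1 a5 hx
      simp only at h1 h2 h3
      rw [(hwF f h1 (by omega) (by omega) (by omega)).2.2]
      push_cast
      ring
    · obtain ⟨f, rfl, h1, h2, h3⟩ := segm1 a5 hx
      simp only at h1 h2 h3
      push_cast at h3
      have := D.wm i (sd ZQ f 1) (by rw [hlf]; exact mouthl h1 h2 (by omega))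
      rw [side_eq, ← hν] at this
      rw [this]
      push_cast
      ring
    · obtain ⟨f, rfl, h1, h2, h3⟩ := segm1 a5 hx
      simp only at h1 h2 h3
      rw [(hwF f h1 (by omega) (by omega) (by omega)).2.2]
      push_cast
      ring
  · -- phases of `F`
    intro x hx
    simp only [List.mem_append] at hx
    rcases hx with hx | (hx | hx | hx) | hx
    · obtain ⟨f, rfl, h1, h2, h3⟩ := segm1 a5 hx
      simp only at h1 h2 h3
      rw [(hwF f h1 (by omega) (by omega) (by omega)).2.1]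
      push_cast
      ring
    · obtain ⟨f, rfl, h1, h2, h3⟩ := segm0 a4 hx
      simp only at h1 h2 h3
      have := D.w1 i (sd ZQ f 0) (by rw [hlf]; exact mwl1 h1 h2 h3)
      rw [side_eq, ← hν] at this
      rw [this]
      push_cast
      ring
    · obtain ⟨f, rfl, h1, h2, h3⟩ := segm1 a5 hx
      simp only at h1 h2 h3
      push_cast at h3
      have := D.we i (sd ZQ f 1) (by rw [hlf]; exact endl h1 h2 (by omega))
      rw [side_eq, ← hν] at this
      rw [this]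
      push_cast
      ring
    · obtain ⟨f, rfl, h1, h2, h3⟩ := segm2 a6 hx
      simp only at h1 h2 h3
      have := D.w2 i (sd ZQ f 2) (by rw [hlf]; exact mwl2 h1 (by omega) (by omega))
      rw [side_eq, ← hν] at this
      rw [this]
      push_cast
      ring
    · obtain ⟨f, rfl, h1, h2, h3⟩ := segm1 a5 hx
      simp only at h1 h2 h3
      rw [(hwF f h1 (by omega) (by omega) (by omega)).2.1]
      push_cast
      ring

theorem mbox_right (hlf : lf i = false) {ρ : ℕ} (hρ : h i ≤ ρ) (hr : ρ < r i) :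
    MBox Q F F₁ (D.K i ρ) (D.T i) ψ ψ₁ := by
  have hh := D.hh i
  have hl := D.hl i
  set ν := (D.c i).φV with hν
  obtain ⟨G, hG⟩ := word_right (v := v i) (h := h i) (ρ := ρ) (D.H i)
    (by rw [← hlf]; exact (HBx_mono hr.le).trans HBx_sub) hh hρ
  obtain ⟨E, hE⟩ := tube_right (v := v i) (h := h i) (l := l i) (D.H i) (by rw [← hlf]; exact Tub_sub) hh hl
  rw [← hlf, ← K_eq hr.le] at hG
  rw [← hlf] at hE
  have a0 : ((0 : ℤ) : ZMod 4) = 0 := by decide
  have a1 : ((1 : ℤ) : ZMod 4) = 1 := by decide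
  have a2 : ((2 : ℤ) : ZMod 4) = 2 := by decide
  have a3 : ((3 : ℤ) : ZMod 4) = 3 := by decide
  have a4 : ((4 : ℤ) : ZMod 4) = 0 := by decide
  -- the wall
  have hwall : ∀ f : ℤ × ℤ, f.1 = (v i).1 → (v i).2 - ρ ≤ f.2 → f.2 < (v i).2 + ρ →
      f ∈ HBx (lf i) (v i) ρ ∧ nbF f 3 ∉ HBx (lf i) (v i) ρ ∧ nbF f 3 ∉ HBx (lf i) (v i) (r i) ∧
        nbF f 3 ∈ BR (v i) (r i) := by
    intro f h1 h2 h3
    rw [mem_HBx, mem_HBx, mem_HBx, mem_BR, nb3, hlf]
    simp only [true_and, Bool.false_eq_true, false_and, false_or]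
    omega
  have hwF₁ : ∀ f : ℤ × ℤ, f.1 = (v i).1 → (v i).2 - ρ ≤ f.2 → f.2 < (v i).2 + ρ →
      mv ν (sd ZQ f 3) ∈ bS Q F₁ := by
    intro f h1 h2 h3
    obtain ⟨h4, -, h5, h6⟩ := hwall f h1 h2 h3
    exact wall_F₁ (HBx_mono hr.le h4) h5 h6
  have hwF : ∀ f : ℤ × ℤ, f.1 = (v i).1 → (v i).2 - ρ ≤ f.2 → f.2 < (v i).2 + ρ →
      (f.2 < (v i).2 - h i ∨ (v i).2 + h i ≤ f.2) → mv ν (sd ZQ f 3) ∈ bS Q F ∧
        ψ (mv ν (sd ZQ f 3)) = D.p i ∧ ψ₁ (mv ν (sd ZQ f 3)) = D.p i := by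
    intro f h1 h2 h3 h4
    have h5 : mv ν (sd ZQ f 3) ∈ bS Q F := D.wall (Or.inr ⟨hlf, Or.inl ⟨rfl, h1, by omega⟩⟩)
    have h6 : ψ (mv ν (sd ZQ f 3)) = D.p i := by
      rcases h4 with h4 | h4
      · exact D.w3 i (sd ZQ f 3) (by rw [hlf]; exact mwr3 h1 (by omega) h4)
      · exact D.w0 i (sd ZQ f 3) (by rw [hlf]; exact mwr0 h1 h4 (by omega))
    refine ⟨h5, h6, ?_⟩
    rw [← h6]
    exact wall_same (HBx_mono hr.le (hwall f h1 h2 h3).1) h5
  refine MBox.of_paste (c₀ := D.p i + 3 * (Real.pi / 12)) K_sub ?_ (T_sub.trans Finset.sdiff_subset) (sub D)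
    (fun b hb => sepR hρ hr.le hb) (fun b hb hb' => sepF hr hb hb') ?_ hG ?_ hE ?_ ?_ ?_ ?_ ?_
  · rw [Finset.disjoint_left]
    intro f h1 h2
    exact (Finset.mem_sdiff.mp (T_sub h2)).2 h1
  · intro h0
    have := congrArg List.length h0
    rw [segm_length, List.length_nil] at this
    omega
  · -- the sides of the word
    intro e he
    obtain ⟨x, hx, rfl⟩ := List.mem_map.mp he
    rw [K_eq hr.le]
    simp only [List.mem_append] at hx
    rcases hx with (hx | hx | hx) | hx | hx | hx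
    · obtain ⟨f, rfl, h1, h2, h3⟩ := segm0 a0 hx
      simp only at h1 h2 h3
      refine ini_G hr.le (f := f) (k := 0) ?_ ?_
      · rw [mem_HBx, hlf]
        exact ⟨by omega, Or.inr ⟨rfl, by omega⟩⟩
      · rw [mem_HBx, nb0]
        simp only
        omega
    · obtain ⟨f, rfl, h1, h2, h3⟩ := segm1 a1 hx
      simp only at h1 h2 h3
      push_cast at h3
      refine ini_G hr.le (f := f) (k := 1) ?_ ?_
      · rw [mem_HBx, hlf]
        exact ⟨by omega, Or.inr ⟨rfl, by omega⟩⟩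
      · rw [mem_HBx, nb1]
        simp only
        omega
    · obtain ⟨f, rfl, h1, h2, h3⟩ := segm2 a2 hx
      simp only at h1 h2 h3
      refine ini_G hr.le (f := f) (k := 2) ?_ ?_
      · rw [mem_HBx, hlf]
        exact ⟨by omega, Or.inr ⟨rfl, by omega⟩⟩
      · rw [mem_HBx, nb2]
        simp only
        omega
    · obtain ⟨f, rfl, h1, h2, h3⟩ := segm3 a3 hx
      simp only at h1 h2 h3
      obtain ⟨h4, h5, -⟩ := hwall f h1 (by omega) (by omega)
      exact ini_G hr.le h4 h5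
    · obtain ⟨f, rfl, h1, h2, h3⟩ := segm3 a3 hx
      simp only at h1 h2 h3
      push_cast at h2
      obtain ⟨h4, h5, -⟩ := hwall f h1 (by omega) (by omega)
      exact ini_G hr.le h4 h5
    · obtain ⟨f, rfl, h1, h2, h3⟩ := segm3 a3 hx
      simp only at h1 h2 h3
      obtain ⟨h4, h5, -⟩ := hwall f h1 (by omega) (by omega)
      exact ini_G hr.le h4 h5
  · -- the exit sides
    intro x hx
    simp only [List.mem_append] at hx
    rcases hx with hx | hx | hx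
    · obtain ⟨f, rfl, h1, h2, h3⟩ := segm0 a0 hx
      simp only at h1 h2 h3
      refine exit_F₁ ?_
      rw [mem_HBx, nb0, hlf]
      exact ⟨by simp only; omega, Or.inr ⟨rfl, by simp only; omega⟩⟩
    · obtain ⟨f, rfl, h1, h2, h3⟩ := segm1 a1 hx
      simp only at h1 h2 h3
      push_cast at h3
      refine exit_F₁ ?_
      rw [mem_HBx, nb1, hlf]
      exact ⟨by simp only; omega, Or.inr ⟨rfl, by simp only; omega⟩⟩
    · obtain ⟨f, rfl, h1, h2, h3⟩ := segm2 a2 hx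
      simp only at h1 h2 h3
      refine exit_F₁ ?_
      rw [mem_HBx, nb2, hlf]
      exact ⟨by simp only; omega, Or.inr ⟨rfl, by simp only; omega⟩⟩
  · -- the wall of `F₁`
    intro x hx
    simp only [List.mem_append] at hx
    rcases hx with hx | hx | hx
    · obtain ⟨f, rfl, h1, h2, h3⟩ := segm3 a3 hx
      simp only at h1 h2 h3
      exact hwF₁ f h1 (by omega) (by omega)
    · obtain ⟨f, rfl, h1, h2, h3⟩ := segm3 a3 hx
      simp only at h1 h2 h3
      push_cast at h2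
      exact hwF₁ f h1 (by omega) (by omega)
    · obtain ⟨f, rfl, h1, h2, h3⟩ := segm3 a3 hx
      simp only at h1 h2 h3
      exact hwF₁ f h1 (by omega) (by omega)
  · -- the wall of `F`
    intro x hx
    simp only [List.mem_append] at hx
    rcases hx with hx | (hx | hx | hx) | hx
    · obtain ⟨f, rfl, h1, h2, h3⟩ := segm3 a3 hx
      simp only at h1 h2 h3
      exact (hwF f h1 (by omega) (by omega) (by omega)).1
    · obtain ⟨f, rfl, h1, h2, h3⟩ := segm2 a2 hx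
      simp only at h1 h2 h3
      exact D.wall (Or.inr ⟨hlf, Or.inr (Or.inr ⟨rfl, by omega, by omega⟩)⟩)
    · obtain ⟨f, rfl, h1, h2, h3⟩ := segm3 a3 hx
      simp only at h1 h2 h3
      push_cast at h2
      exact (D.c i).be (sd ZQ f 3) (by rw [hlf]; exact endr h1 (by omega) h3)
    · obtain ⟨f, rfl, h1, h2, h3⟩ := segm0 a4 hx
      simp only at h1 h2 h3
      exact D.wall (Or.inr ⟨hlf, Or.inr (Or.inl ⟨rfl, by omega, by omega⟩)⟩)
    · obtain ⟨f, rfl, h1, h2, h3⟩ := segm3 a3 hx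
      simp only at h1 h2 h3
      exact (hwF f h1 (by omega) (by omega) (by omega)).1
  · -- phases of `F₁`
    intro x hx
    simp only [List.mem_append] at hx
    rcases hx with hx | hx | hx
    · obtain ⟨f, rfl, h1, h2, h3⟩ := segm3 a3 hx
      simp only at h1 h2 h3
      rw [(hwF f h1 (by omega) (by omega) (by omega)).2.2]
      push_cast
      ring
    · obtain ⟨f, rfl, h1, h2, h3⟩ := segm3 a3 hx
      simp only at h1 h2 h3
      push_cast at h2
      have := D.wm i (sd ZQ f 3) (by rw [hlf]; exact mouthr h1 (by omega) h3)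
      rw [side_eq, ← hν] at this
      rw [this]
      push_cast
      ring
    · obtain ⟨f, rfl, h1, h2, h3⟩ := segm3 a3 hx
      simp only at h1 h2 h3
      rw [(hwF f h1 (by omega) (by omega) (by omega)).2.2]
      push_cast
      ring
  · -- phases of `F`
    intro x hx
    simp only [List.mem_append] at hx
    rcases hx with hx | (hx | hx | hx) | hx
    · obtain ⟨f, rfl, h1, h2, h3⟩ := segm3 a3 hx
      simp only at h1 h2 h3
      rw [(hwF f h1 (by omega) (by omega) (by omega)).2.1]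
      push_cast
      ring
    · obtain ⟨f, rfl, h1, h2, h3⟩ := segm2 a2 hx
      simp only at h1 h2 h3
      have := D.w1 i (sd ZQ f 2) (by rw [hlf]; exact mwr1 h1 h2 h3)
      rw [side_eq, ← hν] at this
      rw [this]
      push_cast
      ring
    · obtain ⟨f, rfl, h1, h2, h3⟩ := segm3 a3 hx
      simp only at h1 h2 h3
      push_cast at h2
      have := D.we i (sd ZQ f 3) (by rw [hlf]; exact endr h1 (by omega) h3)
      rw [side_eq, ← hν] at this
      rw [this]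
      push_cast
      ring
    · obtain ⟨f, rfl, h1, h2, h3⟩ := segm0 a4 hx
      simp only at h1 h2 h3
      have := D.w2 i (sd ZQ f 0) (by rw [hlf]; exact mwr2 h1 (by omega) (by omega))
      rw [side_eq, ← hν] at this
      rw [this]
      push_cast
      ring
    · obtain ⟨f, rfl, h1, h2, h3⟩ := segm3 a3 hx
      simp only at h1 h2 h3
      rw [(hwF f h1 (by omega) (by omega) (by omega)).2.1]
      push_cast
      ring

/-- **Half boxes at a closed tube are natural.** -/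
theorem mbox {ρ : ℕ} (hρ : h i ≤ ρ) (hr : ρ < r i) : MBox Q F F₁ (D.K i ρ) (D.T i) ψ ψ₁ := by
  rcases hlf : lf i with _ | _
  · exact mbox_right hlf hρ hr
  · exact mbox_left hlf hρ hr

variable (D)

/-- the scales -/
def Ks (h₀ : ℕ) (i : ι) (k : ℕ) : Finset Φ := D.K i ((h₀ * 2 ^ k : ℕ) : ℤ)

theorem Ks_mono (h₀ : ℕ) (i : ι) {k l : ℕ} (hkl : k ≤ l) : D.Ks h₀ i k ⊆ D.Ks h₀ i l := by
  refine KM_mono ?_
  exact_mod_cast Nat.mul_le_mul_left h₀ (Nat.pow_le_pow_right (by norm_num) hkl)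

/-- **The nested boxes.** -/
theorem mscale {h₀ N : ℕ} (h0 : 0 < h₀) (hh : ∀ i, h i ≤ h₀) (hN : ∀ i, h₀ * 2 ^ N < r i) :
    MScale Q F F₁ D.T (D.Ks h₀) N ψ ψ₁ where
  mono := fun i _ _ hkl => D.Ks_mono h₀ i hkl
  sub := fun _ _ => K_sub
  sep := by
    intro i k l hkl hl b hb
    refine KM_sep (D.pchart i) ?_ ?_ hb
    · exact_mod_cast Nat.mul_lt_mul_of_pos_left (Nat.pow_lt_pow_right (by norm_num) hkl) h0
    · exact_mod_cast (Nat.mul_le_mul_left h₀ (Nat.pow_le_pow_right (by norm_num) hl)).trans (hN i).le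
  box := by
    intro i k hk
    refine mbox ((hh i).trans (Nat.le_mul_of_pos_right _ (by positivity))) (lt_of_le_of_lt ?_ (hN i))
    exact Nat.mul_le_mul_left h₀ (Nat.pow_le_pow_right (by norm_num) hk)

/-- **Equality of the weights.** -/
theorem nW_eq (hQ : NoLoop Q) {h₀ N : ℕ} (h0 : 0 < h₀) (hh : ∀ i, h i ≤ h₀) (hN : ∀ i, h₀ * 2 ^ N < r i)
    {a₁ : V × V} (ha₁ : a₁ ∈ bS Q F₁) (ha₁K : ∀ i, a₁ ∉ dE Q (D.Ks h₀ i N)) {ω : Φ → Bool}
    (hω : badE Q F₁ (D.Ks h₀) N ω = 0) :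
    nW Q F ψ ω = nW Q F₁ ψ₁ ω ∧ ∀ e ∈ dE Q F₁, e ∉ dE Q (F \ F₁) → (∀ i, e ∉ dE Q (D.Ks h₀ i N)) →
      nW1 Q F ψ e ω = nW1 Q F₁ ψ₁ e ω := by
  obtain ⟨h1, h2⟩ := badE_zero hω
  exact nW_scale hQ D.mdata (D.mscale h0 hh hN) ha₁ ha₁K D.same h1 h2

/-- the bad event depends on the boxes -/
theorem dep_bad (h₀ N : ℕ) : Dep (⋃ i, ((D.Ks h₀ i N : Finset Φ) : Set Φ)) (badE Q F₁ (D.Ks h₀) N) :=
  dep_badE fun i _ _ hkl => D.Ks_mono h₀ i hkl

/-- faces outside the boxes: their sides are not sides of the boxes -/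
theorem not_dE_Ks {h₀ N : ℕ} {i : ι} {ρ : ℕ} (h1 : h₀ * 2 ^ N < ρ) (h2 : ρ ≤ r i) {S : Finset Φ}
    (hS : S ⊆ F₁) (hd : Disjoint S (D.K i ρ)) {e : V × V} (he : e ∈ dE Q S) : e ∉ dE Q (D.Ks h₀ i N) := by
  intro h3
  refine KM_sep (D.pchart i) (ρ' := (ρ : ℤ)) (by exact_mod_cast h1) (by exact_mod_cast h2) h3 (dE_sub ?_ he)
  intro f hf
  exact Finset.mem_sdiff.mpr ⟨hS hf, Finset.disjoint_left.mp hd hf⟩

end TData

/-- **The probability of the bad event.** -/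
theorem bad_bound (ι : Type) [Fintype ι] : ∃ C : ℝ, 0 < C ∧ ∀ {V Φ : Type} [DecidableEq V]
    [DecidableEq Φ] {Q : QC V Φ} {F F₁ W : Finset Φ} {ψ ψ₁ : V × V → ℝ} {lf : ι → Bool}
    {v : ι → ℤ × ℤ} {r h l : ι → ℕ} (D : TData Q F F₁ ψ ψ₁ lf v r h l) {h₀ N : ℕ},
    0 < h₀ → 1 < N → (∀ i, h₀ * 2 ^ N ≤ r i) → F₁ ⊆ W →
    av W (badE Q F₁ (D.Ks h₀) N) ≤ C * N / 4 ^ N := by
  obtain ⟨C, hC, H⟩ := badE_bound ι
  refine ⟨C, hC, ?_⟩
  intro V Φ _ _ Q F F₁ W ψ ψ₁ lf v r h l D h₀ N h0 hN hr hW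
  refine H h0 hN (fun i => ?_) (fun i => D.pchart i) (fun i => flat_HBx) (fun i j hij => ?_) hW
  · exact_mod_cast hr i
  · exact Finset.disjoint_of_subset_left (Finset.image_subset_image (TData.hMP (i := i)))
      (Finset.disjoint_of_subset_right (Finset.image_subset_image (TData.hMP (i := j))) (D.disj i j hij))

end

end Pool.Agent.SixB.MT
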