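import Pool.Agent.Lib.SixB.S3MouthD
import Pool.Agent.Lib.SixB.S3WZMap

/-!
# SixB, step 3.8: transport of the normalised weights `nW`, `nW1` by an injective map of complexes

`H : QChart Q Q' F ν φ 0`: `nW_map`, `nW1_map`, `av_nW`, `av_nW1`.
-/

set_option autoImplicit false
set_option linter.unusedSectionVars false

namespace Pool.Agent.SixB.NM

open Pool.Agent.Perc.Q Pool.Agent.Perc Relation Finset
open Pool.Agent.SixB
open Pool.Agent.SixB.Rel (QChart QMap)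

noncomputable section

variable {V Φ V' Φ' : Type} [DecidableEq V] [DecidableEq Φ] [DecidableEq V'] [DecidableEq Φ']
variable {Q : QC V Φ} {Q' : QC V' Φ'} {F : Finset Φ} {ν : V → V'} {φ : Φ → Φ'} {ω : Φ' → Bool}
  {a b e : V × V} {ψ : V × V → ℝ} {ψ' : V' × V' → ℝ}

theorem bph_map (H : QChart Q Q' F ν φ 0) (hψ : ∀ a ∈ bS Q F, ψ' (Prod.map ν ν a) = ψ a)
    (ha : a ∈ dE Q F) : bph Q' (F.image φ) ψ' (Prod.map ν ν a) = bph Q F ψ a := by
  unfold bph
  by_cases h1 : Ini Q (F : Set Φ) a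
  · rw [if_pos h1, if_pos ((WM.ini_map H ha).mpr h1), hψ a (mem_bS.mpr ⟨ha, h1⟩)]
  · rw [if_neg h1, if_neg (fun h => h1 ((WM.ini_map H ha).mp h))]
    by_cases h2 : Ter Q (F : Set Φ) a
    · have h3 : a.swap ∈ bS Q F := mem_bS.mpr ⟨swap_mem_dE.mpr ha, by rw [ini_swap]; exact h2⟩
      rw [if_pos h2, if_pos ((WM.ter_map H ha).mpr h2)]
      have h4 : (Prod.map ν ν a).swap = Prod.map ν ν a.swap := rfl
      rw [h4, hψ _ h3]
    · rw [if_neg h2, if_neg (fun h => h2 ((WM.ter_map H ha).mp h))]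

theorem card_map (H : QChart Q Q' F ν φ 0) : (bS Q' (F.image φ)).card = (bS Q F).card := by
  rw [WM.bS_map H, Finset.card_image_of_injOn]
  intro x hx y hy hxy
  exact WM.side_inj H (mem_bS.mp (by exact_mod_cast hx)).1 (mem_bS.mp (by exact_mod_cast hy)).1 hxy

theorem nW_map (hQ : NoLoop Q) (hQ' : NoLoop Q') (H : QChart Q Q' F ν φ 0)
    (hψ : ∀ a ∈ bS Q F, ψ' (Prod.map ν ν a) = ψ a) :
    nW Q' (F.image φ) ψ' ω = nW Q F ψ (fun f => ω (φ f)) := by
  have h1 : ((WU Q' (F.image φ) ψ' ω : ℝ) : ℂ) = ((WU Q F ψ (fun f => ω (φ f)) : ℝ) : ℂ) := by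
    rw [← Zs_WU hQ', ← Zs_WU hQ]
    exact (WM.toMap H ω).Zs_map fun a ha => bph_map H hψ ha
  unfold nW
  rw [card_map H, Complex.ofReal_injective h1]

theorem nW1_map (hQ : NoLoop Q) (hQ' : NoLoop Q') (H : QChart Q Q' F ν φ 0)
    (hψ : ∀ a ∈ bS Q F, ψ' (Prod.map ν ν a) = ψ a) (he : e ∈ dE Q F) :
    nW1 Q' (F.image φ) ψ' (Prod.map ν ν e) ω = nW1 Q F ψ e (fun f => ω (φ f)) := by
  have he' : Prod.map ν ν e ∈ dE Q' (F.image φ) := by
    rw [WM.dE_map H]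
    exact Finset.mem_image_of_mem _ he
  have h1 : ((WU1 Q' (F.image φ) ψ' (Prod.map ν ν e) ω : ℝ) : ℂ) * Complex.I =
      ((WU1 Q F ψ e (fun f => ω (φ f)) : ℝ) : ℂ) * Complex.I := by
    rw [← Zs_WU1 hQ' he', ← Zs_WU1 hQ he]
    refine (WM.toMap H ω).Zs_map fun a ha => ?_
    rw [bph_map H hψ ha]
    congr 1
    unfold sgE
    by_cases h2 : a = e.swap
    · rw [if_pos h2, if_pos (by rw [h2]; rfl)]
    · rw [if_neg h2, if_neg]
      intro h3
      exact h2 (WM.side_inj H ha (swap_mem_dE.mpr he) h3)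
  have h2 := mul_right_cancel₀ Complex.I_ne_zero h1
  unfold nW1
  rw [card_map H, Complex.ofReal_injective h2]

end

end Pool.Agent.SixB.NM
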