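import Pool.Agent.Lib.SixB.S3BlkU
import Pool.Agent.Lib.SixB.S3BlkL

/-!
# 6BD step 3: the ten mouths of the tubes in the base sheet

`LocM E lf v r h l`: local description of a mouth; `LocM.chart : MChart`. `MtB E r`: hypotheses (`gu = gd`).
Mouths `mR7`, `mR6`, `mR4`, `mR3`, `mR1` on the right, `mL1`, `mL3`, `mL4`, `mL6`, `mL7` on the left; `n..`: their
phases are natural.
-/

set_option autoImplicit false
set_option linter.unusedSectionVars false

namespace Pool.Agent.SixB.BlkW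

open Pool.Agent.Perc.Q Pool.Agent.Perc Pool.Agent.SixB.EnvB

noncomputable section

variable {E : SEnv} {lf : Bool} {r h l : ℕ} {v f : ℤ × ℤ} {a : (ℤ × ℤ) × (ℤ × ℤ)}
  {mu ρu ml ρl J : ℝ} {ψu ψl : (ℤ × ℤ) × (ℤ × ℤ) → ℝ}

/-- local description of a mouth in the base sheet -/
structure LocM (E : SEnv) (lf : Bool) (v : ℤ × ℤ) (r h l : ℕ) : Prop where
  thk : Thk E
  base : ∀ f ∈ Mth lf v r h l, f ∈ E.base
  wall : ∀ i, ∀ a ∈ mthWall lf v r h l i, ∃ f ∈ Mth lf v r h l, ∃ k, a = sd ZQ f k ∧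
    sd E.Q (none, f) k ∈ E.Z

/-- the faces of the mouth as a chart -/
def LocM.pch (h0 : LocM E lf v r h l) : PChart E.Q E.F (Mth lf v r h l) :=
  baseP h0.thk (Finset.Subset.refl _) _ fun _ hf => mem_F_none.mpr (h0.base _ hf)

theorem LocM.wall_Z (h0 : LocM E lf v r h l) {i : Fin 4} (ha : a ∈ mthWall lf v r h l i) :
    h0.pch.side a ∈ E.Z := by
  obtain ⟨f, hf, k, rfl, h1⟩ := h0.wall i a ha
  have h2 : h0.pch.side (sd ZQ f k) = sd E.Q (none, f) k := baseP_side _ _ _ _ (h0.base _ hf)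
  rwa [h2]

/-- **The chart of a mouth of the base sheet.** -/
def LocM.chart (h0 : LocM E lf v r h l) : MChart E.Q E.F lf v r h l where
  toPChart := h0.pch
  bd _ _ ha := (mem_Z.mp (h0.wall_Z ha)).1

theorem LocM.chart_φF (h0 : LocM E lf v r h l) (f : ℤ × ℤ) : h0.chart.φF f = (none, f) := rfl

theorem LocM.chart_side (h0 : LocM E lf v r h l) (a : (ℤ × ℤ) × (ℤ × ℤ)) :
    h0.chart.side a = ((none, a.1), (none, a.2)) := rfl

theorem LocM.side_Z (h0 : LocM E lf v r h l) {i : Fin 4} (ha : a ∈ mthWall lf v r h l i) :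
    h0.chart.side a ∈ E.Z := h0.wall_Z ha

/-- builder, box on the left -/
theorem locM_left (hE : Thk E) (hh : h ≤ r) (h0 : 0 < h) (hbase : ∀ f ∈ Mth true v r h l, f ∈ E.base)
    (w0 : ∀ y : ℤ, v.2 - r ≤ y → y < v.2 - h → E.gu.solid true (v.1, y) ∨ E.gd.solid false (v.1, y))
    (w1 : ∀ x : ℤ, v.1 ≤ x → x < v.1 + l →
      E.gu.solid true (x, v.2 - h - 1) ∨ E.gd.solid false (x, v.2 - h - 1))
    (w2 : ∀ x : ℤ, v.1 ≤ x → x < v.1 + l →
      E.gu.solid true (x, v.2 + h) ∨ E.gd.solid false (x, v.2 + h))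
    (w3 : ∀ y : ℤ, v.2 + h ≤ y → y < v.2 + r → E.gu.solid true (v.1, y) ∨ E.gd.solid false (v.1, y))
    (hu : ∀ x : ℤ, v.1 ≤ x → x < v.1 + l → ¬ (E.gu.x1 ≤ x ∧ x < E.gu.x2) ∧
      ¬ (E.gd.x1 ≤ x ∧ x < E.gd.x2)) : LocM E true v r h l where
  thk := hE
  base := hbase
  wall i a ha := by
    unfold mthWall at ha
    rw [if_pos rfl] at ha
    fin_cases i
    · obtain ⟨y, h1, h2, rfl⟩ := mem_wOut1.mp ha
      simp only at h1 h2
      have hm : ((v.1 - 1, y) : ℤ × ℤ) ∈ Mth true v r h l := mem_Mth_left.mpr (by simp only; omega)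
      refine ⟨_, hm, 1, rfl, (base_Z hE (hbase _ hm) 1).mpr ⟨?_, fun h3 => ?_, fun h3 => ?_⟩⟩
      · rw [nb1]
        simp only [sub_add_cancel]
        exact w0 y (by omega) (by omega)
      · exact absurd h3.1.1 (by decide)
      · exact absurd h3.1.1 (by decide)
    · obtain ⟨x, h1, h2, rfl⟩ := mem_wOut0.mp ha
      simp only at h1 h2
      have hm : ((x, v.2 - h) : ℤ × ℤ) ∈ Mth true v r h l := mem_Mth_left.mpr (by simp only; omega)
      refine ⟨_, hm, 0, rfl, (base_Z hE (hbase _ hm) 0).mpr ⟨?_, fun h3 => ?_, fun h3 => ?_⟩⟩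
      · exact w1 x h1 h2
      · exact absurd h3.1.1 (by decide)
      · exact (hu x h1 h2).2 h3.1.2.1
    · obtain ⟨x, h1, h2, rfl⟩ := mem_wOut2.mp ha
      simp only at h1 h2
      have hm : ((x, v.2 + h - 1) : ℤ × ℤ) ∈ Mth true v r h l :=
        mem_Mth_left.mpr (by simp only; omega)
      refine ⟨_, hm, 2, rfl, (base_Z hE (hbase _ hm) 2).mpr ⟨?_, fun h3 => ?_, fun h3 => ?_⟩⟩
      · rw [nb2]
        simp only [sub_add_cancel]
        exact w2 x (by omega) (by omega)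
      · exact (hu x (by omega) (by omega)).1 h3.1.2.1
      · exact absurd h3.1.1 (by decide)
    · obtain ⟨y, h1, h2, rfl⟩ := mem_wOut1.mp ha
      simp only at h1 h2
      have hm : ((v.1 - 1, y) : ℤ × ℤ) ∈ Mth true v r h l := mem_Mth_left.mpr (by simp only; omega)
      refine ⟨_, hm, 1, rfl, (base_Z hE (hbase _ hm) 1).mpr ⟨?_, fun h3 => ?_, fun h3 => ?_⟩⟩
      · rw [nb1]
        simp only [sub_add_cancel]
        exact w3 y (by omega) (by omega)
      · exact absurd h3.1.1 (by decide)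
      · exact absurd h3.1.1 (by decide)

/-- builder, box on the right -/
theorem locM_right (hE : Thk E) (hh : h ≤ r) (h0 : 0 < h)
    (hbase : ∀ f ∈ Mth false v r h l, f ∈ E.base)
    (w0 : ∀ y : ℤ, v.2 + h ≤ y → y < v.2 + r →
      E.gu.solid true (v.1 - 1, y) ∨ E.gd.solid false (v.1 - 1, y))
    (w1 : ∀ x : ℤ, v.1 - l ≤ x → x < v.1 →
      E.gu.solid true (x, v.2 + h) ∨ E.gd.solid false (x, v.2 + h))
    (w2 : ∀ x : ℤ, v.1 - l ≤ x → x < v.1 →
      E.gu.solid true (x, v.2 - h - 1) ∨ E.gd.solid false (x, v.2 - h - 1))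
    (w3 : ∀ y : ℤ, v.2 - r ≤ y → y < v.2 - h →
      E.gu.solid true (v.1 - 1, y) ∨ E.gd.solid false (v.1 - 1, y))
    (hu : ∀ x : ℤ, v.1 - l ≤ x → x < v.1 → ¬ (E.gu.x1 ≤ x ∧ x < E.gu.x2) ∧
      ¬ (E.gd.x1 ≤ x ∧ x < E.gd.x2)) : LocM E false v r h l where
  thk := hE
  base := hbase
  wall i a ha := by
    unfold mthWall at ha
    rw [if_neg (by decide)] at ha
    fin_cases i
    · obtain ⟨y, h1, h2, rfl⟩ := mem_wOut3.mp ha
      simp only at h1 h2
      have hm : ((v.1, y) : ℤ × ℤ) ∈ Mth false v r h l := mem_Mth_right.mpr (by simp only; omega)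
      refine ⟨_, hm, 3, rfl, (base_Z hE (hbase _ hm) 3).mpr ⟨?_, fun h3 => ?_, fun h3 => ?_⟩⟩
      · exact w0 y (by omega) (by omega)
      · exact absurd h3.1.1 (by decide)
      · exact absurd h3.1.1 (by decide)
    · obtain ⟨x, h1, h2, rfl⟩ := mem_wOut2.mp ha
      simp only at h1 h2
      have hm : ((x, v.2 + h - 1) : ℤ × ℤ) ∈ Mth false v r h l :=
        mem_Mth_right.mpr (by simp only; omega)
      refine ⟨_, hm, 2, rfl, (base_Z hE (hbase _ hm) 2).mpr ⟨?_, fun h3 => ?_, fun h3 => ?_⟩⟩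
      · rw [nb2]
        simp only [sub_add_cancel]
        exact w1 x h1 h2
      · exact (hu x h1 h2).1 h3.1.2.1
      · exact absurd h3.1.1 (by decide)
    · obtain ⟨x, h1, h2, rfl⟩ := mem_wOut0.mp ha
      simp only at h1 h2
      have hm : ((x, v.2 - h) : ℤ × ℤ) ∈ Mth false v r h l := mem_Mth_right.mpr (by simp only; omega)
      refine ⟨_, hm, 0, rfl, (base_Z hE (hbase _ hm) 0).mpr ⟨?_, fun h3 => ?_, fun h3 => ?_⟩⟩
      · exact w2 x (by omega) (by omega)
      · exact absurd h3.1.1 (by decide)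
      · exact (hu x (by omega) (by omega)).2 h3.1.2.1
    · obtain ⟨y, h1, h2, rfl⟩ := mem_wOut3.mp ha
      simp only at h1 h2
      have hm : ((v.1, y) : ℤ × ℤ) ∈ Mth false v r h l := mem_Mth_right.mpr (by simp only; omega)
      refine ⟨_, hm, 3, rfl, (base_Z hE (hbase _ hm) 3).mpr ⟨?_, fun h3 => ?_, fun h3 => ?_⟩⟩
      · exact w3 y (by omega) (by omega)
      · exact absurd h3.1.1 (by decide)
      · exact absurd h3.1.1 (by decide)

/-- natural phases, box on the left; `c`, `c'` = phases of ceiling and floor -/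
theorem LocM.nat_left (h0 : LocM E true v r h l) (hyc : v.2 = E.gu.yc) (hh : h ≤ r) (hp : 0 < h)
    {c c' : ℝ} (hc : ∀ x : ℤ, v.1 - 1 ≤ x → x < v.1 + l → E.gu.Hst mu x = c)
    (hc' : ∀ x : ℤ, v.1 - 1 ≤ x → x < v.1 + l → E.gd.Hst ml (rx E.gd x) = c')
    (hJ : cst mu ρu + c - (cst ml ρl + c') + Real.pi / 6 = J) :
    h0.chart.Nat (E.psi mu ρu ml ρl ψu ψl) J := by
  have hside : ∀ f ∈ Mth true v r h l, ∀ k, h0.chart.side (sd ZQ f k) = sd E.Q (none, f) k :=
    fun f hf k => baseP_side h0.thk (Finset.Subset.refl _) _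
      (fun _ hg => mem_F_none.mpr (h0.base _ hg)) (h0.base _ hf)
  refine ⟨![cst ml ρl + (c' - Real.pi / 12), cst ml ρl + c', cst mu ρu + c,
    cst mu ρu + (c + Real.pi / 12)], fun i a ha => ?_, ?_, ?_, ?_⟩
  · unfold mthWall at ha
    rw [if_pos rfl] at ha
    fin_cases i
    · obtain ⟨y, h1, h2, rfl⟩ := mem_wOut1.mp ha
      simp only at h1 h2
      have hm : ((v.1 - 1, y) : ℤ × ℤ) ∈ Mth true v r h l := mem_Mth_left.mpr (by simp only; omega)
      rw [hside _ hm, psi_lo h0.thk (h0.base _ hm) (by simp only; omega) (by decide), ph_lo1,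
        hc' _ (by simp only; omega) (by simp only; omega)]
      rfl
    · obtain ⟨x, h1, h2, rfl⟩ := mem_wOut0.mp ha
      simp only at h1 h2
      have hm : ((x, v.2 - h) : ℤ × ℤ) ∈ Mth true v r h l := mem_Mth_left.mpr (by simp only; omega)
      rw [hside _ hm, psi_lo h0.thk (h0.base _ hm) (by simp only; omega) (by decide), ph_lo0,
        hc' _ (by simp only; omega) (by simp only; omega)]
      rfl
    · obtain ⟨x, h1, h2, rfl⟩ := mem_wOut2.mp ha
      simp only at h1 h2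
      have hm : ((x, v.2 + h - 1) : ℤ × ℤ) ∈ Mth true v r h l :=
        mem_Mth_left.mpr (by simp only; omega)
      rw [hside _ hm, psi_up h0.thk (h0.base _ hm) (by simp only; omega), ph_up2,
        hc _ (by simp only; omega) (by simp only; omega)]
      rfl
    · obtain ⟨y, h1, h2, rfl⟩ := mem_wOut1.mp ha
      simp only at h1 h2
      have hm : ((v.1 - 1, y) : ℤ × ℤ) ∈ Mth true v r h l := mem_Mth_left.mpr (by simp only; omega)
      rw [hside _ hm, psi_up h0.thk (h0.base _ hm) (by simp only; omega), ph_up1,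
        hc _ (by simp only; omega) (by simp only; omega)]
      rfl
  · change cst ml ρl + c' - (cst ml ρl + (c' - Real.pi / 12)) = Real.pi / 12
    ring
  · change cst mu ρu + c - (cst ml ρl + c') + 2 * (Real.pi / 12) = J
    rw [← hJ]
    ring
  · change cst mu ρu + (c + Real.pi / 12) - (cst mu ρu + c) = Real.pi / 12
    ring

/-- natural phases, box on the right; `c`, `c'` = phases of ceiling and floor -/
theorem LocM.nat_right (h0 : LocM E false v r h l) (hyc : v.2 = E.gu.yc) (hh : h ≤ r) (hp : 0 < h)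
    {c c' : ℝ} (hc : ∀ x : ℤ, v.1 - l ≤ x → x ≤ v.1 → E.gu.Hst mu x = c)
    (hc' : ∀ x : ℤ, v.1 - l ≤ x → x ≤ v.1 → E.gd.Hst ml (rx E.gd x) = c')
    (hJ : cst ml ρl + c' - (cst mu ρu + c) + Real.pi / 6 = J) :
    h0.chart.Nat (E.psi mu ρu ml ρl ψu ψl) J := by
  have hside : ∀ f ∈ Mth false v r h l, ∀ k, h0.chart.side (sd ZQ f k) = sd E.Q (none, f) k :=
    fun f hf k => baseP_side h0.thk (Finset.Subset.refl _) _
      (fun _ hg => mem_F_none.mpr (h0.base _ hg)) (h0.base _ hf)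
  refine ⟨![cst mu ρu + (c - Real.pi / 12), cst mu ρu + c, cst ml ρl + c',
    cst ml ρl + (c' + Real.pi / 12)], fun i a ha => ?_, ?_, ?_, ?_⟩
  · unfold mthWall at ha
    rw [if_neg (by decide)] at ha
    fin_cases i
    · obtain ⟨y, h1, h2, rfl⟩ := mem_wOut3.mp ha
      simp only at h1 h2
      have hm : ((v.1, y) : ℤ × ℤ) ∈ Mth false v r h l := mem_Mth_right.mpr (by simp only; omega)
      rw [hside _ hm, psi_up h0.thk (h0.base _ hm) (by simp only; omega), ph_up3,
        hc _ (by simp only; omega) (by simp only; omega)]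
      rfl
    · obtain ⟨x, h1, h2, rfl⟩ := mem_wOut2.mp ha
      simp only at h1 h2
      have hm : ((x, v.2 + h - 1) : ℤ × ℤ) ∈ Mth false v r h l :=
        mem_Mth_right.mpr (by simp only; omega)
      rw [hside _ hm, psi_up h0.thk (h0.base _ hm) (by simp only; omega), ph_up2,
        hc _ (by simp only; omega) (by simp only; omega)]
      rfl
    · obtain ⟨x, h1, h2, rfl⟩ := mem_wOut0.mp ha
      simp only at h1 h2
      have hm : ((x, v.2 - h) : ℤ × ℤ) ∈ Mth false v r h l := mem_Mth_right.mpr (by simp only; omega)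
      rw [hside _ hm, psi_lo h0.thk (h0.base _ hm) (by simp only; omega) (by decide), ph_lo0,
        hc' _ (by simp only; omega) (by simp only; omega)]
      rfl
    · obtain ⟨y, h1, h2, rfl⟩ := mem_wOut3.mp ha
      simp only at h1 h2
      have hm : ((v.1, y) : ℤ × ℤ) ∈ Mth false v r h l := mem_Mth_right.mpr (by simp only; omega)
      rw [hside _ hm, psi_lo h0.thk (h0.base _ hm) (by simp only; omega) (by decide), ph_lo3,
        hc' _ (by simp only; omega) (by simp only; omega)]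
      rfl
  · change cst mu ρu + c - (cst mu ρu + (c - Real.pi / 12)) = Real.pi / 12
    ring
  · change cst ml ρl + c' - (cst mu ρu + c) + 2 * (Real.pi / 12) = J
    rw [← hJ]
    ring
  · change cst ml ρl + (c' + Real.pi / 12) - (cst ml ρl + c') = Real.pi / 12
    ring

/-! ## The ten mouths -/

/-- hypotheses for mouth charts of radius `r` -/
structure MtB (E : SEnv) (r : ℕ) : Prop where
  thk : Thk E
  g : E.gd = E.gu
  a0 : 0 < E.gu.a
  ar : E.gu.a ≤ r
  hx : E.gu.x1 < E.gu.x2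
  rk : r ≤ E.gu.k
  rb : r ≤ E.gu.b
  bc : E.gu.b ≤ E.gu.c
  win : ∀ f : ℤ × ℤ, E.gu.x1 - 7 * E.gu.k - r ≤ f.1 → f.1 < E.gu.x2 + 7 * E.gu.k + r →
    E.gu.yc - r ≤ f.2 → f.2 < E.gu.yc + r → f ∈ E.W

theorem solid_iff (hg : E.gd = E.gu) : E.gu.solid true f ∨ E.gd.solid false f ↔
    (((E.gu.a ≤ f.2 - E.gu.yc ∧ f.2 - E.gu.yc < E.gu.c) ∧
    (E.gu.x1 - 7 * E.gu.k ≤ f.1 ∧ f.1 < E.gu.x2 + 7 * E.gu.k) ∧
      ¬ (E.gu.cham f.1 ∧ f.2 - E.gu.yc < E.gu.b)) ∨
    ((E.gu.a ≤ E.gu.yc - 1 - f.2 ∧ E.gu.yc - 1 - f.2 < E.gu.c) ∧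
    (E.gu.x1 - 7 * E.gu.k ≤ f.1 ∧ f.1 < E.gu.x2 + 7 * E.gu.k) ∧
      ¬ (E.gu.cham f.1 ∧ E.gu.yc - 1 - f.2 < E.gu.b))) := by
  rw [solid_up, solid_lo, hg]

theorem base_iff (hg : E.gd = E.gu) : f ∈ E.base ↔ f ∈ E.W ∧
    ¬ ((((E.gu.a ≤ f.2 - E.gu.yc ∧ f.2 - E.gu.yc < E.gu.c) ∧
    (E.gu.x1 - 7 * E.gu.k ≤ f.1 ∧ f.1 < E.gu.x2 + 7 * E.gu.k) ∧
      ¬ (E.gu.cham f.1 ∧ f.2 - E.gu.yc < E.gu.b)) ∨
    ((E.gu.a ≤ E.gu.yc - 1 - f.2 ∧ E.gu.yc - 1 - f.2 < E.gu.c) ∧
    (E.gu.x1 - 7 * E.gu.k ≤ f.1 ∧ f.1 < E.gu.x2 + 7 * E.gu.k) ∧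
      ¬ (E.gu.cham f.1 ∧ E.gu.yc - 1 - f.2 < E.gu.b)))) := by
  rw [mem_base, ← solid_iff hg]
  tauto

theorem MtB.mR7 (h : MtB E r) (hl : l ≤ E.gu.k) : LocM E false (E.gu.x2 + 7 * E.gu.k, E.gu.yc) r E.gu.a l := by
  have h1 := h.hx
  have h2 := h.rk
  have h3 := h.rb
  have h4 := h.bc
  have h5 := h.a0
  have h6 := h.ar
  have h7 := h.thk.au
  refine locM_right h.thk h6 h5 (fun f hf => ?_) ?_ ?_ ?_ ?_ ?_
  · rw [mem_Mth_right] at hf
    simp only at hf
    rw [base_iff h.g]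
    refine ⟨h.win f (by omega) (by omega) (by omega) (by omega), ?_⟩
    unfold BGeo.cham
    omega
  · intro y h8 h9
    simp only at h8 h9 ⊢
    rw [solid_iff h.g]
    unfold BGeo.cham
    simp only
    omega
  · intro y h8 h9
    simp only at h8 h9 ⊢
    rw [solid_iff h.g]
    unfold BGeo.cham
    simp only
    omega
  · intro y h8 h9
    simp only at h8 h9 ⊢
    rw [solid_iff h.g]
    unfold BGeo.cham
    simp only
    omega
  · intro y h8 h9
    simp only at h8 h9 ⊢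
    rw [solid_iff h.g]
    unfold BGeo.cham
    simp only
    omega
  · intro x h8 h9
    simp only at h8 h9 ⊢
    rw [h.g]
    omega

theorem MtB.mR6 (h : MtB E r) (hl : l ≤ E.gu.k) : LocM E true (E.gu.x2 + 6 * E.gu.k, E.gu.yc) r E.gu.a l := by
  have h1 := h.hx
  have h2 := h.rk
  have h3 := h.rb
  have h4 := h.bc
  have h5 := h.a0
  have h6 := h.ar
  have h7 := h.thk.au
  refine locM_left h.thk h6 h5 (fun f hf => ?_) ?_ ?_ ?_ ?_ ?_
  · rw [mem_Mth_left] at hf
    simp only at hf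
    rw [base_iff h.g]
    refine ⟨h.win f (by omega) (by omega) (by omega) (by omega), ?_⟩
    unfold BGeo.cham
    omega
  · intro y h8 h9
    simp only at h8 h9 ⊢
    rw [solid_iff h.g]
    unfold BGeo.cham
    simp only
    omega
  · intro y h8 h9
    simp only at h8 h9 ⊢
    rw [solid_iff h.g]
    unfold BGeo.cham
    simp only
    omega
  · intro y h8 h9
    simp only at h8 h9 ⊢
    rw [solid_iff h.g]
    unfold BGeo.cham
    simp only
    omega
  · intro y h8 h9
    simp only at h8 h9 ⊢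
    rw [solid_iff h.g]
    unfold BGeo.cham
    simp only
    omega
  · intro x h8 h9
    simp only at h8 h9 ⊢
    rw [h.g]
    omega

theorem MtB.mR4 (h : MtB E r) (hl : l ≤ E.gu.k) : LocM E false (E.gu.x2 + 4 * E.gu.k, E.gu.yc) r E.gu.a l := by
  have h1 := h.hx
  have h2 := h.rk
  have h3 := h.rb
  have h4 := h.bc
  have h5 := h.a0
  have h6 := h.ar
  have h7 := h.thk.au
  refine locM_right h.thk h6 h5 (fun f hf => ?_) ?_ ?_ ?_ ?_ ?_
  · rw [mem_Mth_right] at hf
    simp only at hf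
    rw [base_iff h.g]
    refine ⟨h.win f (by omega) (by omega) (by omega) (by omega), ?_⟩
    unfold BGeo.cham
    omega
  · intro y h8 h9
    simp only at h8 h9 ⊢
    rw [solid_iff h.g]
    unfold BGeo.cham
    simp only
    omega
  · intro y h8 h9
    simp only at h8 h9 ⊢
    rw [solid_iff h.g]
    unfold BGeo.cham
    simp only
    omega
  · intro y h8 h9
    simp only at h8 h9 ⊢
    rw [solid_iff h.g]
    unfold BGeo.cham
    simp only
    omega
  · intro y h8 h9
    simp only at h8 h9 ⊢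
    rw [solid_iff h.g]
    unfold BGeo.cham
    simp only
    omega
  · intro x h8 h9
    simp only at h8 h9 ⊢
    rw [h.g]
    omega

theorem MtB.mR3 (h : MtB E r) (hl : l ≤ E.gu.k) : LocM E true (E.gu.x2 + 3 * E.gu.k, E.gu.yc) r E.gu.a l := by
  have h1 := h.hx
  have h2 := h.rk
  have h3 := h.rb
  have h4 := h.bc
  have h5 := h.a0
  have h6 := h.ar
  have h7 := h.thk.au
  refine locM_left h.thk h6 h5 (fun f hf => ?_) ?_ ?_ ?_ ?_ ?_
  · rw [mem_Mth_left] at hf
    simp only at hf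
    rw [base_iff h.g]
    refine ⟨h.win f (by omega) (by omega) (by omega) (by omega), ?_⟩
    unfold BGeo.cham
    omega
  · intro y h8 h9
    simp only at h8 h9 ⊢
    rw [solid_iff h.g]
    unfold BGeo.cham
    simp only
    omega
  · intro y h8 h9
    simp only at h8 h9 ⊢
    rw [solid_iff h.g]
    unfold BGeo.cham
    simp only
    omega
  · intro y h8 h9
    simp only at h8 h9 ⊢
    rw [solid_iff h.g]
    unfold BGeo.cham
    simp only
    omega
  · intro y h8 h9
    simp only at h8 h9 ⊢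
    rw [solid_iff h.g]
    unfold BGeo.cham
    simp only
    omega
  · intro x h8 h9
    simp only at h8 h9 ⊢
    rw [h.g]
    omega

theorem MtB.mR1 (h : MtB E r) (hl : l ≤ E.gu.k) : LocM E false (E.gu.x2 + E.gu.k, E.gu.yc) r E.gu.a l := by
  have h1 := h.hx
  have h2 := h.rk
  have h3 := h.rb
  have h4 := h.bc
  have h5 := h.a0
  have h6 := h.ar
  have h7 := h.thk.au
  refine locM_right h.thk h6 h5 (fun f hf => ?_) ?_ ?_ ?_ ?_ ?_
  · rw [mem_Mth_right] at hf
    simp only at hf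
    rw [base_iff h.g]
    refine ⟨h.win f (by omega) (by omega) (by omega) (by omega), ?_⟩
    unfold BGeo.cham
    omega
  · intro y h8 h9
    simp only at h8 h9 ⊢
    rw [solid_iff h.g]
    unfold BGeo.cham
    simp only
    omega
  · intro y h8 h9
    simp only at h8 h9 ⊢
    rw [solid_iff h.g]
    unfold BGeo.cham
    simp only
    omega
  · intro y h8 h9
    simp only at h8 h9 ⊢
    rw [solid_iff h.g]
    unfold BGeo.cham
    simp only
    omega
  · intro y h8 h9
    simp only at h8 h9 ⊢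
    rw [solid_iff h.g]
    unfold BGeo.cham
    simp only
    omega
  · intro x h8 h9
    simp only at h8 h9 ⊢
    rw [h.g]
    omega

theorem MtB.mL1 (h : MtB E r) (hl : l ≤ E.gu.k) : LocM E true (E.gu.x1 - E.gu.k, E.gu.yc) r E.gu.a l := by
  have h1 := h.hx
  have h2 := h.rk
  have h3 := h.rb
  have h4 := h.bc
  have h5 := h.a0
  have h6 := h.ar
  have h7 := h.thk.au
  refine locM_left h.thk h6 h5 (fun f hf => ?_) ?_ ?_ ?_ ?_ ?_
  · rw [mem_Mth_left] at hf
    simp only at hf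
    rw [base_iff h.g]
    refine ⟨h.win f (by omega) (by omega) (by omega) (by omega), ?_⟩
    unfold BGeo.cham
    omega
  · intro y h8 h9
    simp only at h8 h9 ⊢
    rw [solid_iff h.g]
    unfold BGeo.cham
    simp only
    omega
  · intro y h8 h9
    simp only at h8 h9 ⊢
    rw [solid_iff h.g]
    unfold BGeo.cham
    simp only
    omega
  · intro y h8 h9
    simp only at h8 h9 ⊢
    rw [solid_iff h.g]
    unfold BGeo.cham
    simp only
    omega
  · intro y h8 h9
    simp only at h8 h9 ⊢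
    rw [solid_iff h.g]
    unfold BGeo.cham
    simp only
    omega
  · intro x h8 h9
    simp only at h8 h9 ⊢
    rw [h.g]
    omega

theorem MtB.mL3 (h : MtB E r) (hl : l ≤ E.gu.k) : LocM E false (E.gu.x1 - 3 * E.gu.k, E.gu.yc) r E.gu.a l := by
  have h1 := h.hx
  have h2 := h.rk
  have h3 := h.rb
  have h4 := h.bc
  have h5 := h.a0
  have h6 := h.ar
  have h7 := h.thk.au
  refine locM_right h.thk h6 h5 (fun f hf => ?_) ?_ ?_ ?_ ?_ ?_
  · rw [mem_Mth_right] at hf
    simp only at hf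
    rw [base_iff h.g]
    refine ⟨h.win f (by omega) (by omega) (by omega) (by omega), ?_⟩
    unfold BGeo.cham
    omega
  · intro y h8 h9
    simp only at h8 h9 ⊢
    rw [solid_iff h.g]
    unfold BGeo.cham
    simp only
    omega
  · intro y h8 h9
    simp only at h8 h9 ⊢
    rw [solid_iff h.g]
    unfold BGeo.cham
    simp only
    omega
  · intro y h8 h9
    simp only at h8 h9 ⊢
    rw [solid_iff h.g]
    unfold BGeo.cham
    simp only
    omega
  · intro y h8 h9
    simp only at h8 h9 ⊢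
    rw [solid_iff h.g]
    unfold BGeo.cham
    simp only
    omega
  · intro x h8 h9
    simp only at h8 h9 ⊢
    rw [h.g]
    omega

theorem MtB.mL4 (h : MtB E r) (hl : l ≤ E.gu.k) : LocM E true (E.gu.x1 - 4 * E.gu.k, E.gu.yc) r E.gu.a l := by
  have h1 := h.hx
  have h2 := h.rk
  have h3 := h.rb
  have h4 := h.bc
  have h5 := h.a0
  have h6 := h.ar
  have h7 := h.thk.au
  refine locM_left h.thk h6 h5 (fun f hf => ?_) ?_ ?_ ?_ ?_ ?_
  · rw [mem_Mth_left] at hf
    simp only at hf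
    rw [base_iff h.g]
    refine ⟨h.win f (by omega) (by omega) (by omega) (by omega), ?_⟩
    unfold BGeo.cham
    omega
  · intro y h8 h9
    simp only at h8 h9 ⊢
    rw [solid_iff h.g]
    unfold BGeo.cham
    simp only
    omega
  · intro y h8 h9
    simp only at h8 h9 ⊢
    rw [solid_iff h.g]
    unfold BGeo.cham
    simp only
    omega
  · intro y h8 h9
    simp only at h8 h9 ⊢
    rw [solid_iff h.g]
    unfold BGeo.cham
    simp only
    omega
  · intro y h8 h9
    simp only at h8 h9 ⊢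
    rw [solid_iff h.g]
    unfold BGeo.cham
    simp only
    omega
  · intro x h8 h9
    simp only at h8 h9 ⊢
    rw [h.g]
    omega

theorem MtB.mL6 (h : MtB E r) (hl : l ≤ E.gu.k) : LocM E false (E.gu.x1 - 6 * E.gu.k, E.gu.yc) r E.gu.a l := by
  have h1 := h.hx
  have h2 := h.rk
  have h3 := h.rb
  have h4 := h.bc
  have h5 := h.a0
  have h6 := h.ar
  have h7 := h.thk.au
  refine locM_right h.thk h6 h5 (fun f hf => ?_) ?_ ?_ ?_ ?_ ?_
  · rw [mem_Mth_right] at hf
    simp only at hf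
    rw [base_iff h.g]
    refine ⟨h.win f (by omega) (by omega) (by omega) (by omega), ?_⟩
    unfold BGeo.cham
    omega
  · intro y h8 h9
    simp only at h8 h9 ⊢
    rw [solid_iff h.g]
    unfold BGeo.cham
    simp only
    omega
  · intro y h8 h9
    simp only at h8 h9 ⊢
    rw [solid_iff h.g]
    unfold BGeo.cham
    simp only
    omega
  · intro y h8 h9
    simp only at h8 h9 ⊢
    rw [solid_iff h.g]
    unfold BGeo.cham
    simp only
    omega
  · intro y h8 h9
    simp only at h8 h9 ⊢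
    rw [solid_iff h.g]
    unfold BGeo.cham
    simp only
    omega
  · intro x h8 h9
    simp only at h8 h9 ⊢
    rw [h.g]
    omega

theorem MtB.mL7 (h : MtB E r) (hl : l ≤ E.gu.k) : LocM E true (E.gu.x1 - 7 * E.gu.k, E.gu.yc) r E.gu.a l := by
  have h1 := h.hx
  have h2 := h.rk
  have h3 := h.rb
  have h4 := h.bc
  have h5 := h.a0
  have h6 := h.ar
  have h7 := h.thk.au
  refine locM_left h.thk h6 h5 (fun f hf => ?_) ?_ ?_ ?_ ?_ ?_
  · rw [mem_Mth_left] at hf
    simp only at hf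
    rw [base_iff h.g]
    refine ⟨h.win f (by omega) (by omega) (by omega) (by omega), ?_⟩
    unfold BGeo.cham
    omega
  · intro y h8 h9
    simp only at h8 h9 ⊢
    rw [solid_iff h.g]
    unfold BGeo.cham
    simp only
    omega
  · intro y h8 h9
    simp only at h8 h9 ⊢
    rw [solid_iff h.g]
    unfold BGeo.cham
    simp only
    omega
  · intro y h8 h9
    simp only at h8 h9 ⊢
    rw [solid_iff h.g]
    unfold BGeo.cham
    simp only
    omega
  · intro y h8 h9
    simp only at h8 h9 ⊢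
    rw [solid_iff h.g]
    unfold BGeo.cham
    simp only
    omega
  · intro x h8 h9
    simp only at h8 h9 ⊢
    rw [h.g]
    omega

/-! ### Natural phases -/

theorem MtB.nR7 (h : MtB E r) (hl : l ≤ E.gu.k) (hmu : mu = ρl - ρu + Real.pi / 6)
    (hml : ml = ρu - ρl + Real.pi / 6) :
    (h.mR7 hl).chart.Nat (E.psi mu ρu ml ρl ψu ψl) 0 := by
  have h1 := h.hx
  have h2 := h.rk
  have h3 := h.rb
  have h4 := h.bc
  have h5 := h.a0
  have h6 := h.ar
  have h7 := h.thk.au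
  have h1' := h1.le
  refine (h.mR7 hl).nat_right rfl h6 h5
    (c := 0) (c' := -2 * BGeo.alpha ml - 2 * BGeo.sig ml + ml)
    (fun x h8 h9 => ?_) (fun x h8 h9 => ?_) ?_
  · simp only at h8 h9
    exact Hst0 (by omega) h1'
  · simp only at h8 h9
    rw [h.g]
    exact Hst5 (by unfold rx; omega) h1'
  · unfold cst BGeo.alpha BGeo.sig
    rw [hmu, hml]
    ring

theorem MtB.nR6 (h : MtB E r) (hl : l ≤ E.gu.k) (hmu : mu = ρl - ρu + Real.pi / 6)
    (hml : ml = ρu - ρl + Real.pi / 6) :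
    (h.mR6 hl).chart.Nat (E.psi mu ρu ml ρl ψu ψl) (Real.pi / 3) := by
  have h1 := h.hx
  have h2 := h.rk
  have h3 := h.rb
  have h4 := h.bc
  have h5 := h.a0
  have h6 := h.ar
  have h7 := h.thk.au
  have h1' := h1.le
  refine (h.mR6 hl).nat_left rfl h6 h5
    (c := 0) (c' := -2 * BGeo.alpha ml - 2 * BGeo.sig ml + ml)
    (fun x h8 h9 => ?_) (fun x h8 h9 => ?_) ?_
  · simp only at h8 h9
    exact Hst0 (by omega) h1'
  · simp only at h8 h9
    rw [h.g]
    exact Hst5 (by unfold rx; omega) h1'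
  · unfold cst BGeo.alpha BGeo.sig
    rw [hmu, hml]
    ring

theorem MtB.nR4 (h : MtB E r) (hl : l ≤ E.gu.k) (hmu : mu = ρl - ρu + Real.pi / 6)
    (hml : ml = ρu - ρl + Real.pi / 6) :
    (h.mR4 hl).chart.Nat (E.psi mu ρu ml ρl ψu ψl) (Real.pi / 3) := by
  have h1 := h.hx
  have h2 := h.rk
  have h3 := h.rb
  have h4 := h.bc
  have h5 := h.a0
  have h6 := h.ar
  have h7 := h.thk.au
  have h1' := h1.le
  refine (h.mR4 hl).nat_right rfl h6 h5
    (c := -BGeo.alpha mu) (c' := -BGeo.alpha ml - 2 * BGeo.sig ml + ml)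
    (fun x h8 h9 => ?_) (fun x h8 h9 => ?_) ?_
  · simp only at h8 h9
    exact Hst1 (by omega) (by omega) h1'
  · simp only at h8 h9
    rw [h.g]
    exact Hst4 (by unfold rx; omega) (by unfold rx; omega) h1'
  · unfold cst BGeo.alpha BGeo.sig
    rw [hmu, hml]
    ring

theorem MtB.nR3 (h : MtB E r) (hl : l ≤ E.gu.k) (hmu : mu = ρl - ρu + Real.pi / 6)
    (hml : ml = ρu - ρl + Real.pi / 6) :
    (h.mR3 hl).chart.Nat (E.psi mu ρu ml ρl ψu ψl) 0 := by
  have h1 := h.hx
  have h2 := h.rk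
  have h3 := h.rb
  have h4 := h.bc
  have h5 := h.a0
  have h6 := h.ar
  have h7 := h.thk.au
  have h1' := h1.le
  refine (h.mR3 hl).nat_left rfl h6 h5
    (c := -BGeo.alpha mu) (c' := -BGeo.alpha ml - 2 * BGeo.sig ml + ml)
    (fun x h8 h9 => ?_) (fun x h8 h9 => ?_) ?_
  · simp only at h8 h9
    exact Hst1 (by omega) (by omega) h1'
  · simp only at h8 h9
    rw [h.g]
    exact Hst4 (by unfold rx; omega) (by unfold rx; omega) h1'
  · unfold cst BGeo.alpha BGeo.sig
    rw [hmu, hml]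
    ring

theorem MtB.nR1 (h : MtB E r) (hl : l ≤ E.gu.k) (hmu : mu = ρl - ρu + Real.pi / 6)
    (hml : ml = ρu - ρl + Real.pi / 6) :
    (h.mR1 hl).chart.Nat (E.psi mu ρu ml ρl ψu ψl) (Real.pi / 3) := by
  have h1 := h.hx
  have h2 := h.rk
  have h3 := h.rb
  have h4 := h.bc
  have h5 := h.a0
  have h6 := h.ar
  have h7 := h.thk.au
  have h1' := h1.le
  refine (h.mR1 hl).nat_right rfl h6 h5
    (c := -BGeo.alpha mu - BGeo.sig mu) (c' := -BGeo.alpha ml - BGeo.sig ml + ml)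
    (fun x h8 h9 => ?_) (fun x h8 h9 => ?_) ?_
  · simp only at h8 h9
    exact Hst2 (by omega) (by omega) h1'
  · simp only at h8 h9
    rw [h.g]
    exact Hst3 (by unfold rx; omega) (by unfold rx; omega)
  · unfold cst BGeo.alpha BGeo.sig
    rw [hmu, hml]
    ring

theorem MtB.nL1 (h : MtB E r) (hl : l ≤ E.gu.k) (hmu : mu = ρl - ρu + Real.pi / 6)
    (hml : ml = ρu - ρl + Real.pi / 6) :
    (h.mL1 hl).chart.Nat (E.psi mu ρu ml ρl ψu ψl) (Real.pi / 3) := by
  have h1 := h.hx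
  have h2 := h.rk
  have h3 := h.rb
  have h4 := h.bc
  have h5 := h.a0
  have h6 := h.ar
  have h7 := h.thk.au
  have h1' := h1.le
  refine (h.mL1 hl).nat_left rfl h6 h5
    (c := -BGeo.alpha mu - BGeo.sig mu + mu) (c' := -BGeo.alpha ml - BGeo.sig ml)
    (fun x h8 h9 => ?_) (fun x h8 h9 => ?_) ?_
  · simp only at h8 h9
    exact Hst3 (by omega) (by omega)
  · simp only at h8 h9
    rw [h.g]
    exact Hst2 (by unfold rx; omega) (by unfold rx; omega) h1'
  · unfold cst BGeo.alpha BGeo.sig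
    rw [hmu, hml]
    ring

theorem MtB.nL3 (h : MtB E r) (hl : l ≤ E.gu.k) (hmu : mu = ρl - ρu + Real.pi / 6)
    (hml : ml = ρu - ρl + Real.pi / 6) :
    (h.mL3 hl).chart.Nat (E.psi mu ρu ml ρl ψu ψl) 0 := by
  have h1 := h.hx
  have h2 := h.rk
  have h3 := h.rb
  have h4 := h.bc
  have h5 := h.a0
  have h6 := h.ar
  have h7 := h.thk.au
  have h1' := h1.le
  refine (h.mL3 hl).nat_right rfl h6 h5
    (c := -BGeo.alpha mu - 2 * BGeo.sig mu + mu) (c' := -BGeo.alpha ml)
    (fun x h8 h9 => ?_) (fun x h8 h9 => ?_) ?_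
  · simp only at h8 h9
    exact Hst4 (by omega) (by omega) h1'
  · simp only at h8 h9
    rw [h.g]
    exact Hst1 (by unfold rx; omega) (by unfold rx; omega) h1'
  · unfold cst BGeo.alpha BGeo.sig
    rw [hmu, hml]
    ring

theorem MtB.nL4 (h : MtB E r) (hl : l ≤ E.gu.k) (hmu : mu = ρl - ρu + Real.pi / 6)
    (hml : ml = ρu - ρl + Real.pi / 6) :
    (h.mL4 hl).chart.Nat (E.psi mu ρu ml ρl ψu ψl) (Real.pi / 3) := by
  have h1 := h.hx
  have h2 := h.rk
  have h3 := h.rb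
  have h4 := h.bc
  have h5 := h.a0
  have h6 := h.ar
  have h7 := h.thk.au
  have h1' := h1.le
  refine (h.mL4 hl).nat_left rfl h6 h5
    (c := -BGeo.alpha mu - 2 * BGeo.sig mu + mu) (c' := -BGeo.alpha ml)
    (fun x h8 h9 => ?_) (fun x h8 h9 => ?_) ?_
  · simp only at h8 h9
    exact Hst4 (by omega) (by omega) h1'
  · simp only at h8 h9
    rw [h.g]
    exact Hst1 (by unfold rx; omega) (by unfold rx; omega) h1'
  · unfold cst BGeo.alpha BGeo.sig
    rw [hmu, hml]
    ring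

theorem MtB.nL6 (h : MtB E r) (hl : l ≤ E.gu.k) (hmu : mu = ρl - ρu + Real.pi / 6)
    (hml : ml = ρu - ρl + Real.pi / 6) :
    (h.mL6 hl).chart.Nat (E.psi mu ρu ml ρl ψu ψl) (Real.pi / 3) := by
  have h1 := h.hx
  have h2 := h.rk
  have h3 := h.rb
  have h4 := h.bc
  have h5 := h.a0
  have h6 := h.ar
  have h7 := h.thk.au
  have h1' := h1.le
  refine (h.mL6 hl).nat_right rfl h6 h5
    (c := -2 * BGeo.alpha mu - 2 * BGeo.sig mu + mu) (c' := 0)
    (fun x h8 h9 => ?_) (fun x h8 h9 => ?_) ?_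
  · simp only at h8 h9
    exact Hst5 (by omega) h1'
  · simp only at h8 h9
    rw [h.g]
    exact Hst0 (by unfold rx; omega) h1'
  · unfold cst BGeo.alpha BGeo.sig
    rw [hmu, hml]
    ring

theorem MtB.nL7 (h : MtB E r) (hl : l ≤ E.gu.k) (hmu : mu = ρl - ρu + Real.pi / 6)
    (hml : ml = ρu - ρl + Real.pi / 6) :
    (h.mL7 hl).chart.Nat (E.psi mu ρu ml ρl ψu ψl) 0 := by
  have h1 := h.hx
  have h2 := h.rk
  have h3 := h.rb
  have h4 := h.bc
  have h5 := h.a0
  have h6 := h.ar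
  have h7 := h.thk.au
  have h1' := h1.le
  refine (h.mL7 hl).nat_left rfl h6 h5
    (c := -2 * BGeo.alpha mu - 2 * BGeo.sig mu + mu) (c' := 0)
    (fun x h8 h9 => ?_) (fun x h8 h9 => ?_) ?_
  · simp only at h8 h9
    exact Hst5 (by omega) h1'
  · simp only at h8 h9
    rw [h.g]
    exact Hst0 (by unfold rx; omega) h1'
  · unfold cst BGeo.alpha BGeo.sig
    rw [hmu, hml]
    ring

end

end Pool.Agent.SixB.BlkW
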