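import Pool.Agent.Lib.SixB.A3Strands

/-!
# 6BD step 3: blocked annuli in an arbitrary domain

`NoArm F c v r R`: no path of colour `c` by bonds in the faces of `F` from the box of radius `r` to the
boundary of the box of radius `R`, inside the annulus. Nothing is assumed about `F` (walls, corners,
slits, islands). ONE colour is enough to stop all strands.

* `noArm_of_blk`: the four crossings `Blk c v r` of the full plane block every domain.
* `nf_zero`: `NoArm F c v r R → NF F v r R = 0` (no strand of `F` crosses the annulus).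
* `depOn_noArm`: depends only on the faces of `F ∩ An v r R`.
* `incD_noArm`: increasing in the other colour.
* `pr_noArm`: probability at least `c₀`, uniformly in everything.
* `pr_noArms`: a finite family of annuli, one colour: probability at least `c₀ ^ m` (Harris).
-/

set_option autoImplicit false

namespace Pool.Agent.SixB

open Finset Pool.Agent.Perc Pool.Agent.PercD Pool.Agent.PercN

variable {ω ω' : Cfg} {F F' : Set (ℤ × ℤ)} {c : ℤ} {v : ℤ × ℤ} {r R : ℤ}

/-- no path of colour `c` in the faces of `F` from the box `r` to the boundary of the box `R` -/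
def NoArm (F : Set (ℤ × ℤ)) (c : ℤ) (v : ℤ × ℤ) (r R : ℤ) : Set Cfg :=
  {ω | ∀ p q : ℤ × ℤ, InR (v.1 - r) (v.1 + r) (v.2 - r) (v.2 + r) p → (p.1 + p.2 - c) % 2 = 0 →
    OnBd (v.1 - R) (v.1 + R) (v.2 - R) (v.2 + R) q →
    ¬ Conn ω (F ∩ (An v r R : Set (ℤ × ℤ))) p q}

theorem noArm_anti (h : F ⊆ F') : NoArm F' c v r R ⊆ NoArm F c v r R :=
  fun _ hω p q hp hc hq hpq => hω p q hp hc hq (hpq.mono (Set.inter_subset_inter_left _ h))

/-- **walls do not create arms**: the blocking event of the full plane blocks every domain -/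
theorem noArm_of_blk (F : Set (ℤ × ℤ)) (hr : 0 < r) (h : ω ∈ Blk c v r) :
    ω ∈ NoArm F c v r (4 * r) := by
  intro p q hp hc hq hpq
  obtain ⟨h1, h2, h3, h4⟩ := hp
  refine blk_not_arm hr h ⟨p, q, h1, h2, h3, h4, hc, hq, hpq.mono ?_⟩
  rintro f ⟨-, hf⟩
  rw [mem_coe, mem_An] at hf
  exact mem_coe.2 hf.1

theorem depOn_noArm (F : Set (ℤ × ℤ)) (c : ℤ) (v : ℤ × ℤ) (r R : ℤ) :
    DepOn (F ∩ (An v r R : Set (ℤ × ℤ))) (NoArm F c v r R) := by
  intro ω ω' h
  have key : ∀ {ω ω' : Cfg}, (∀ f ∈ F ∩ (An v r R : Set (ℤ × ℤ)), ω f = ω' f) →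
      ω ∈ NoArm F c v r R → ω' ∈ NoArm F c v r R := by
    intro ω ω' h hω p q hp hc hq hpq
    exact hω p q hp hc hq (GridA.conn_congr _ (fun f hf => (h f hf).symm) hpq)
  exact ⟨key h, key fun f hf => (h f hf).symm⟩

theorem incD_noArm (F : Set (ℤ × ℤ)) (c : ℤ) (v : ℤ × ℤ) (r R : ℤ) :
    IncD (parD (c + 1)) (NoArm F c v r R) := by
  intro ω ω' h hω p q hp hc hq hpq
  refine hω p q hp hc hq ?_
  have h1 := incD_conn c (F ∩ (An v r R : Set (ℤ × ℤ))) hc (v := q) ω' ω ?_ hpq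
  · exact h1
  · intro f hf
    by_contra hcon
    have h2 : ∀ ζ : Cfg, Perc.flip (parD (c + 1)) ζ f = !(Perc.flip (parD c) ζ f) := by
      intro ζ
      unfold Perc.flip parD
      have : decide ((f.1 + f.2 - (c + 1)) % 2 ≠ 0) = !decide ((f.1 + f.2 - c) % 2 ≠ 0) := by
        by_cases h3 : (f.1 + f.2 - c) % 2 ≠ 0
        · rw [decide_eq_true h3, decide_eq_false (by omega)]; rfl
        · rw [decide_eq_false h3, decide_eq_true (by omega)]; rfl
      rw [this]
      cases decide ((f.1 + f.2 - c) % 2 ≠ 0) <;> cases ζ f <;> rfl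
    have h3 := h f (by rw [h2]; simpa using hcon)
    rw [h2, hf] at h3
    simp at h3

/-- **one colour stops all strands** -/
theorem nf_zero (hr : 0 ≤ r) (hR : 0 ≤ R) (h : ω ∈ NoArm F c v r R) : NF F v r R ω = 0 := by
  classical
  unfold NF
  rw [card_eq_zero, filter_eq_empty_iff]
  rintro b - ⟨hb, a, ha, hab⟩
  have hbE := hb.inE hr
  have haE := hab.inE hR
  have hj : Joins b (ua b) (ub b) := Or.inl ⟨rfl, rfl⟩
  -- an end of `b` of parity `c`
  have key : ∀ u w : ℤ × ℤ, Joins b u w → InR (v.1 - r) (v.1 + r) (v.2 - r) (v.2 + r) u →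
      (u.1 + u.2 - c) % 2 = 0 → False := by
    intro u w hjw hu hc
    obtain ⟨p, q, hj', -, hc'⟩ := MM_conn hjw ha
    have hp : OnBd (v.1 - R) (v.1 + R) (v.2 - R) (v.2 + R) p := by
      have h1 : p = ua a ∨ p = ub a := by
        rcases hj' with ⟨h1, -⟩ | ⟨h1, -⟩
        · exact Or.inl h1
        · exact Or.inr h1
      unfold BdR BdE at hab
      obtain ⟨x, y, s⟩ := a
      cases s <;> simp only [ua_mk, ub_false, ub_true] at h1 hab <;>
        rcases h1 with rfl | rfl <;> refine ⟨?_, ?_, ?_, ?_, ?_⟩ <;> simp at hab ⊢ <;> omega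
    refine h u p hu hc hp (hc'.mono fun f hf => hf.1)
  rcases Int.emod_two_eq_zero_or_one ((ua b).1 + (ua b).2 - c) with h1 | h1
  · exact key _ _ hj hbE.1 h1
  · refine key _ _ hj.symm hbE.2 ?_
    have h2 := par_ub b
    unfold par at h2
    omega

/-- **blocking has positive probability, uniformly in the domain** -/
theorem pr_noArm : ∃ c₀ : ℝ, 0 < c₀ ∧ ∀ (F : Set (ℤ × ℤ)) (c : ℤ) (v : ℤ × ℤ) (r : ℤ)
    (S : Finset (ℤ × ℤ)), 0 < r → F ∩ (An v r (4 * r) : Set (ℤ × ℤ)) ⊆ S →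
    c₀ ≤ pr S (NoArm F c v r (4 * r)) := by
  obtain ⟨c₀, hc₀, h⟩ := pr_Blk
  refine ⟨c₀, hc₀, fun F c v r S hr hS => ?_⟩
  have h1 : pr (S ∪ An v r (4 * r)) (NoArm F c v r (4 * r)) = pr S (NoArm F c v r (4 * r)) :=
    pr_eq_of_depOn (depOn_mono' (depOn_noArm F c v r (4 * r)) hS) subset_union_left
  rw [← h1]
  refine (h c v r (S ∪ An v r (4 * r)) hr ?_).trans (pr_mono _ fun ω hω => noArm_of_blk F hr hω)
  intro f hf
  refine mem_union_right _ ?_
  rw [mem_An]
  rw [mem_sdiff] at hf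
  exact hf

/-- **a finite family of annuli, one colour** -/
theorem pr_noArms : ∃ c₀ : ℝ, 0 < c₀ ∧ c₀ ≤ 1 ∧ ∀ (ι : Type) [DecidableEq ι] (s : Finset ι)
    (F : ι → Set (ℤ × ℤ)) (c : ℤ) (v : ι → ℤ × ℤ) (r : ι → ℤ) (S : Finset (ℤ × ℤ)),
    (∀ i ∈ s, 0 < r i) → (∀ i ∈ s, F i ∩ (An (v i) (r i) (4 * r i) : Set (ℤ × ℤ)) ⊆ S) →
    c₀ ^ s.card ≤ pr S {ω | ∀ i ∈ s, ω ∈ NoArm (F i) c (v i) (r i) (4 * r i)} := by
  obtain ⟨c₀, hc₀, h⟩ := pr_noArm
  have hc1 : c₀ ≤ 1 := (h Set.univ 0 (0, 0) 1 (An (0, 0) 1 (4 * 1)) one_pos (by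
    rw [Set.univ_inter])).trans (pr_le_one _ _)
  refine ⟨c₀, hc₀, hc1, fun ι _ s F c v r S hr hS => ?_⟩
  refine le_trans ?_ (harris_list (parD (c + 1)) s
    (fun i => NoArm (F i) c (v i) (r i) (4 * r i))
    (fun i hi => depOn_mono' (depOn_noArm _ _ _ _ _) (hS i hi)) fun i _ => incD_noArm _ _ _ _ _)
  rw [← prod_const]
  exact prod_le_prod (fun _ _ => hc₀.le) fun i hi => h _ _ _ _ _ (hr i hi) (hS i hi)

end Pool.Agent.SixB
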