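import Pool.Agent.Lib.SixB.S3OpSplit
import Pool.Agent.Lib.SixB.S3Large

/-!
# 6BD, operator bound (3): directed strands of the plane and unit edges

`te a` is the unit edge of the directed unit edge `a`; the strand `dst ZQ F ω a` covers exactly
`MM ω F (te a)`.
-/

set_option autoImplicit false
set_option linter.unusedSectionVars false

namespace Pool.Agent.SixB.Op

open Pool.Agent.Perc Pool.Agent.Perc.Q Pool.Agent.PercD Pool.Agent.PercN Relation Pool.Agent.SixB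

noncomputable section

/-- a directed edge of the plane -/
abbrev DZ := (ℤ × ℤ) × (ℤ × ℤ)

variable {F B : Finset (ℤ × ℤ)} {ω : Cfg} {a b : DZ} {X Y : Finset DZ}

/-- the unit edge of a directed unit edge -/
def te (a : DZ) : Pool.Agent.Perc.UE := (min a.1.1 a.2.1, min a.1.2 a.2.2, decide (a.1.1 = a.2.1))

theorem te_swap (a : DZ) : te a.swap = te a := by
  unfold te
  rw [min_comm a.swap.1.1, min_comm a.swap.1.2]
  simp only [Prod.fst_swap, Prod.snd_swap, eq_comm]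

theorem te_0 (f : ℤ × ℤ) : te (sd ZQ f 0) = bo f := by
  have h : sd ZQ f 0 = (f, (f.1 + 1, f.2)) := rfl
  rw [h]
  unfold te bo
  simp

theorem te_1 (f : ℤ × ℤ) : te (sd ZQ f 1) = ri f := by
  have h : sd ZQ f 1 = ((f.1 + 1, f.2), (f.1 + 1, f.2 + 1)) := rfl
  rw [h]
  unfold te ri
  simp

theorem te_2 (f : ℤ × ℤ) : te (sd ZQ f 2) = to' f := by
  have h : sd ZQ f 2 = ((f.1 + 1, f.2 + 1), (f.1, f.2 + 1)) := rfl
  rw [h]
  unfold te to'
  simp

theorem te_3 (f : ℤ × ℤ) : te (sd ZQ f 3) = le' f := by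
  have h : sd ZQ f 3 = ((f.1, f.2 + 1), f) := rfl
  rw [h]
  unfold te le'
  simp

theorem isSide_te (f : ℤ × ℤ) (k : ZMod 4) : IsSide f (te (sd ZQ f k)) := by
  rcases k4_cases k with rfl | rfl | rfl | rfl
  · rw [te_0]; exact Or.inl rfl
  · rw [te_1]; exact Or.inr (Or.inr (Or.inr rfl))
  · rw [te_2]; exact Or.inr (Or.inr (Or.inl rfl))
  · rw [te_3]; exact Or.inr (Or.inl rfl)

/-- the ends of a unit edge -/
theorem joins_te (f : ℤ × ℤ) (k : ZMod 4) : Joins (te (sd ZQ f k)) (sd ZQ f k).1 (sd ZQ f k).2 := by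
  rcases k4_cases k with rfl | rfl | rfl | rfl
  · rw [te_0]; exact Or.inl ⟨rfl, rfl⟩
  · rw [te_1]; exact Or.inl ⟨rfl, rfl⟩
  · rw [te_2]; exact Or.inr ⟨rfl, rfl⟩
  · rw [te_3]; exact Or.inr ⟨rfl, rfl⟩

theorem mem_dE_iff : a ∈ dE ZQ F ↔ ∃ f ∈ F, ∃ k, a = sd ZQ f k ∨ a = (sd ZQ f k).swap := by
  unfold dE
  simp only [Finset.mem_biUnion, Finset.mem_univ, true_and, Finset.mem_insert, Finset.mem_singleton]

theorem joins_swap {e : Pool.Agent.Perc.UE} {u v : ℤ × ℤ} (h : Joins e u v) : Joins e v u := by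
  rcases h with ⟨h1, h2⟩ | ⟨h1, h2⟩
  · exact Or.inr ⟨h2, h1⟩
  · exact Or.inl ⟨h2, h1⟩

theorem joins_of_dE (h : a ∈ dE ZQ F) : Joins (te a) a.1 a.2 := by
  obtain ⟨f, -, k, rfl | rfl⟩ := mem_dE_iff.1 h
  · exact joins_te f k
  · rw [te_swap]
    exact joins_swap (joins_te f k)

theorem joins_eq {e : Pool.Agent.Perc.UE} (ha : Joins e a.1 a.2) (hb : Joins e b.1 b.2) :
    a = b ∨ a = b.swap := by
  rcases ha with ⟨h1, h2⟩ | ⟨h1, h2⟩ <;> rcases hb with ⟨h3, h4⟩ | ⟨h3, h4⟩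
  · exact Or.inl (Prod.ext (h1.trans h3.symm) (h2.trans h4.symm))
  · exact Or.inr (Prod.ext (h1.trans h4.symm) (h2.trans h3.symm))
  · exact Or.inr (Prod.ext (h1.trans h4.symm) (h2.trans h3.symm))
  · exact Or.inl (Prod.ext (h1.trans h3.symm) (h2.trans h4.symm))

theorem te_inj {F' : Finset (ℤ × ℤ)} (ha : a ∈ dE ZQ F) (hb : b ∈ dE ZQ F') (h : te a = te b) :
    a = b ∨ a = b.swap := by
  have h1 := joins_of_dE ha
  rw [h] at h1
  exact joins_eq h1 (joins_of_dE hb)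

/-- the side matched with `k` -/
def ms (b : Bool) (k : ZMod 4) : ZMod 4 := if b = ev k then k + 1 else k + 3

theorem nx_sd {f : ℤ × ℤ} (hf : f ∈ F) (k : ZMod 4) :
    Nx ZQ ω (F : Set (ℤ × ℤ)) (sd ZQ f k) (sd ZQ f (ms (ω f) k)).swap := by
  refine ⟨f, hf, k, rfl, ?_⟩
  unfold ms
  by_cases h : ω f = ev k
  · left
    rw [if_pos h]
    refine ⟨h, ?_⟩
    unfold sd
    rw [z1]
    rfl
  · right
    rw [if_neg h]
    refine ⟨by cases h1 : ω f <;> cases h2 : ev k <;> simp_all, ?_⟩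
    unfold sd
    rw [z5]
    rfl

theorem mt_sd (f : ℤ × ℤ) (k : ZMod 4) (e : Pool.Agent.Perc.UE) :
    Mt ω f (te (sd ZQ f k)) e ↔ e = te (sd ZQ f (ms (ω f) k)) := by
  have e0 : ev 0 = true := rfl
  have e1 : ev 1 = false := rfl
  have e2 : ev 2 = true := rfl
  have e3 : ev 3 = false := rfl
  have a0 : (0 : ZMod 4) + 1 = 1 := rfl
  have a1 : (1 : ZMod 4) + 1 = 2 := rfl
  have a2 : (2 : ZMod 4) + 1 = 3 := rfl
  have a3 : (3 : ZMod 4) + 1 = 0 := rfl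
  have b0 : (0 : ZMod 4) + 3 = 3 := rfl
  have b1 : (1 : ZMod 4) + 3 = 0 := rfl
  have b2 : (2 : ZMod 4) + 3 = 1 := rfl
  have b3 : (3 : ZMod 4) + 3 = 2 := rfl
  unfold ms Mt
  rcases k4_cases k with rfl | rfl | rfl | rfl <;> cases h : ω f <;>
    simp [e0, e1, e2, e3, a0, a1, a2, a3, b0, b1, b2, b3, te_0, te_1, te_2, te_3, bo, ri, to', le']

theorem mt_of_nx (h : Nx ZQ ω (F : Set (ℤ × ℤ)) a b) : ∃ f ∈ F, Mt ω f (te a) (te b) := by
  obtain ⟨f, hf, k, rfl, h'⟩ := h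
  have hf' : f ∈ F := by exact_mod_cast hf
  refine ⟨f, hf', ?_⟩
  have h2 := nx_sd (ω := ω) hf' k
  have h1 : Nx ZQ ω (F : Set (ℤ × ℤ)) (sd ZQ f k) b := ⟨f, hf, k, rfl, h'⟩
  rw [h1.unique h2, te_swap]
  exact (mt_sd f k _).2 rfl

theorem mt_swap {f : ℤ × ℤ} {e e' : Pool.Agent.Perc.UE} (h : Mt ω f e e') : Mt ω f e' e := by
  unfold Mt at *
  tauto

theorem side_sd {f : ℤ × ℤ} {e : Pool.Agent.Perc.UE} (h : IsSide f e) : ∃ k, e = te (sd ZQ f k) := by
  rcases h with rfl | rfl | rfl | rfl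
  · exact ⟨0, (te_0 f).symm⟩
  · exact ⟨3, (te_3 f).symm⟩
  · exact ⟨2, (te_2 f).symm⟩
  · exact ⟨1, (te_1 f).symm⟩

theorem sd_mem_dE {f : ℤ × ℤ} (hf : f ∈ F) (k : ZMod 4) : sd ZQ f k ∈ dE ZQ F :=
  mem_dE_iff.2 ⟨f, hf, k, Or.inl rfl⟩

theorem lift_te (hX : X ∈ dstr ZQ F ω) (ha : a ∈ X) {f : ℤ × ℤ} (hf : f ∈ F)
    {e : Pool.Agent.Perc.UE} (h : Mt ω f (te a) e) : ∃ b ∈ X, te b = e := by
  obtain ⟨k, hk⟩ := side_sd h.left
  have haE : a ∈ dE ZQ F := (dstr_of_mem hX ha).1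
  rcases te_inj haE (sd_mem_dE hf k) hk with h1 | h1
  · refine ⟨(sd ZQ f (ms (ω f) k)).swap, ?_, ?_⟩
    · refine dst_nx hX ha ?_
      rw [h1]
      exact nx_sd hf k
    · rw [te_swap]
      rw [hk] at h
      exact ((mt_sd f k e).1 h).symm
  · refine ⟨sd ZQ f (ms (ω f) k), ?_, ?_⟩
    · refine dst_pred hX ha ?_
      have := (nx_sd (ω := ω) hf k).rev
      rw [Prod.swap_swap] at this
      rwa [h1]
    · rw [hk] at h
      exact ((mt_sd f k e).1 h).symm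

theorem MM_step' {F : Set (ℤ × ℤ)} {e e' e'' : Pool.Agent.Perc.UE} {f : ℤ × ℤ} (h : e' ∈ MM ω F e)
    (hf : f ∈ F) (hm : Mt ω f e' e'') : e'' ∈ MM ω F e := h.tail ⟨f, hf, hm⟩

/-- the unit edges of a strand -/
theorem MM_eq (hX : X ∈ dstr ZQ F ω) (ha : a ∈ X) :
    MM ω (F : Set (ℤ × ℤ)) (te a) = {e | ∃ b ∈ X, te b = e} := by
  ext e
  constructor
  · intro h
    induction h with
    | refl => exact ⟨a, ha, rfl⟩
    | tail _ hs ih =>
      obtain ⟨b, hb, rfl⟩ := ih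
      obtain ⟨f, hf, hm⟩ := hs
      exact lift_te hX hb (by exact_mod_cast hf) hm
  · rintro ⟨b, hb, rfl⟩
    obtain ⟨h1, rfl⟩ := dstr_of_mem hX ha
    have h2 := (mem_dst.1 hb).2
    clear hb ha hX h1
    induction h2 with
    | rel x y h =>
      obtain ⟨f, hf, hm⟩ := mt_of_nx h
      exact ReflTransGen.single ⟨f, by exact_mod_cast hf, hm⟩
    | refl x => exact mem_MM_self
    | symm x y _ ih => exact MM_symm ih
    | trans x y z _ _ ih1 ih2 => exact MM_trans ih1 ih2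

theorem te_image_rv (X : Finset DZ) : (rv X).image te = X.image te := by
  ext e
  simp only [Finset.mem_image, mem_rv]
  constructor
  · rintro ⟨b, hb, rfl⟩
    exact ⟨b.swap, hb, te_swap b⟩
  · rintro ⟨b, hb, rfl⟩
    exact ⟨b.swap, by rwa [Prod.swap_swap], te_swap b⟩

/-- strands with a common unit edge -/
theorem eq_or_rv (hX : X ∈ dstr ZQ F ω) (hY : Y ∈ dstr ZQ F ω) (ha : a ∈ X) (hb : b ∈ Y)
    (h : te a = te b) : Y = X ∨ Y = rv X := by
  have hE : a ∈ dE ZQ F := (dstr_of_mem hX ha).1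
  have hE' : b ∈ dE ZQ F := (dstr_of_mem hY hb).1
  rcases te_inj hE hE' h with h1 | h1
  · subst h1
    left
    rw [(dstr_of_mem hX ha).2, (dstr_of_mem hY hb).2]
  · right
    have : b = a.swap := by rw [h1, Prod.swap_swap]
    subst this
    rw [(dstr_of_mem hX ha).2, (dstr_of_mem hY hb).2, rv_dst]

/-- a member of a set of unit edges -/
def repS (s : Finset Pool.Agent.Perc.UE) : Pool.Agent.Perc.UE := by
  classical exact if h : s.Nonempty then h.choose else (0, 0, false)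

theorem repS_mem {s : Finset Pool.Agent.Perc.UE} (h : s.Nonempty) : repS s ∈ s := by
  unfold repS
  rw [dif_pos h]
  exact h.choose_spec

/-- the representative of a strand and its reverse -/
def rep (X : Finset DZ) : Pool.Agent.Perc.UE := repS (X.image te)

theorem rep_mem (hX : X ∈ dstr ZQ F ω) : ∃ a ∈ X, te a = rep X := by
  have h := repS_mem ((dstr_nonempty hX).image te)
  exact Finset.mem_image.1 h

/-- the representatives of distinct pairs of strands are in different strands -/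
theorem diff_rep (T : Finset (Finset DZ)) (hT : T ⊆ dstr ZQ F ω) :
    Diff ω (F : Set (ℤ × ℤ)) (T.image rep) := by
  intro e he e' he' h
  obtain ⟨X, hX, rfl⟩ := Finset.mem_image.1 he
  obtain ⟨Y, hY, rfl⟩ := Finset.mem_image.1 he'
  obtain ⟨a, ha, h1⟩ := rep_mem (hT hX)
  obtain ⟨b, hb, h2⟩ := rep_mem (hT hY)
  rw [← h1, MM_eq (hT hX) ha, ← h2] at h
  obtain ⟨c, hc, h3⟩ := h
  rcases eq_or_rv (hT hX) (hT hY) hc hb h3 with h4 | h4
  · rw [h4]
  · rw [h4]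
    unfold rep
    rw [te_image_rv]

/-- each unordered strand has two directions -/
theorem card_le_two (T : Finset (Finset DZ)) (hT : T ⊆ dstr ZQ F ω) :
    T.card ≤ 2 * (T.image rep).card := by
  refine Finset.card_le_mul_card_image T 2 ?_
  intro e he
  obtain ⟨X, hX, rfl⟩ := Finset.mem_image.1 he
  refine (Finset.card_le_card (t := {X, rv X}) ?_).trans Finset.card_le_two
  intro Y hY
  obtain ⟨hY, h⟩ := Finset.mem_filter.1 hY
  obtain ⟨a, ha, h1⟩ := rep_mem (hT hX)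
  obtain ⟨b, hb, h2⟩ := rep_mem (hT hY)
  rw [Finset.mem_insert, Finset.mem_singleton]
  exact eq_or_rv (hT hX) (hT hY) ha hb (by rw [h1, h2, h])

/-- counting: strands which cross one of the annuli -/
theorem card_le_NF {ι : Type} [Inhabited ι] {T : Finset (Finset DZ)} (hT : T ⊆ dstr ZQ F ω)
    (I : Finset ι) (c : ι → ℤ × ℤ) {r R : ℤ} (hr : 0 ≤ r) (hrR : r < R)
    (h : ∀ X ∈ T, ∃ i ∈ I, (∃ a ∈ X, InE (c i) r (te a)) ∧
      ∃ a ∈ X, InE (c i) R (te a) → BdR (c i) R (te a)) :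
    T.card ≤ 2 * ∑ i ∈ I, NF (F : Set (ℤ × ℤ)) (c i) r R ω := by
  refine (card_le_two T hT).trans (Nat.mul_le_mul_left 2 ?_)
  refine card_le_sum_NF (diff_rep T hT) I c hr hrR (fun i _ => Set.inter_subset_left) ?_
  intro e he
  obtain ⟨X, hX, rfl⟩ := Finset.mem_image.1 he
  obtain ⟨a, ha, h1⟩ := rep_mem (hT hX)
  obtain ⟨i, hi, ⟨b, hb, hb'⟩, c', hc, hc'⟩ := h X hX
  refine ⟨i, hi, ⟨te b, ?_, hb'⟩, te c', ?_, hc'⟩
  · rw [← h1, MM_eq (hT hX) ha]
    exact ⟨b, hb, rfl⟩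
  · rw [← h1, MM_eq (hT hX) ha]
    exact ⟨c', hc, rfl⟩

end

end Pool.Agent.SixB.Op
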