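import Pool.Agent.Lib.SixB.S3OpBoxB

/-!
# 6BD, operator bound (5): the box theorem

`box_bound`: for `B = BR v R`, `8 * 2 ^ K ≤ R`, `f` supported in the box of radius `2 ^ K` around `v`
and `|lapZ f| ≤ K₀ / 4 ^ K`, the average of the local weight `GB ZQ B (cB B f)` over the
configurations of `B` is at most `C (K₀)`.
-/

set_option autoImplicit false
set_option linter.unusedSectionVars false

namespace Pool.Agent.SixB.Op

open Pool.Agent.Perc Pool.Agent.Perc.Q Pool.Agent.PercD Pool.Agent.PercN Relation Pool.Agent.SixB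

noncomputable section

variable {F B : Finset (ℤ × ℤ)} {ω : Cfg} {a b : DZ} {X Y : Finset DZ} {x₀ x₁ y₀ y₁ : ℤ}
variable {P : ℤ × ℤ → ZMod 2}

/-- the vertex `p` is in the box -/
def InV (v : ℤ × ℤ) (r : ℤ) (p : ℤ × ℤ) : Prop :=
  v.1 - r ≤ p.1 ∧ p.1 ≤ v.1 + r ∧ v.2 - r ≤ p.2 ∧ p.2 ≤ v.2 + r

theorem inE_te {v : ℤ × ℤ} {r : ℤ} (h : a ∈ dE ZQ F) : InE v r (te a) ↔ InV v r a.1 ∧ InV v r a.2 := by
  have h2 := joins_of_dE h
  unfold InE InR InV
  rcases h2 with ⟨h, h'⟩ | ⟨h, h'⟩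
  · rw [← h, ← h']
  · rw [← h, ← h', and_comm]

/-- an end of an open strand of a rectangle is on the boundary -/
theorem open_end (hY : Y ∈ dstr ZQ (RF x₀ x₁ y₀ y₁) ω) (h : ¬ Cls ZQ (RF x₀ x₁ y₀ y₁) ω Y) :
    ∃ a ∈ Y, (a.1.1 = x₀) ∨ (a.1.1 = x₁) ∨ (a.1.2 = y₀) ∨ (a.1.2 = y₁) := by
  unfold Cls at h
  push Not at h
  obtain ⟨a, ha, h⟩ := h
  refine ⟨a, ha, ?_⟩
  have hE := (dstr_of_mem hY ha).1
  obtain ⟨f, hf, k, h1 | h1⟩ := mem_dE_iff.1 hE
  · exfalso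
    obtain ⟨b, hb⟩ := nx_of_sd (Q := ZQ) (ω := ω) hf k
    rw [← h1] at hb
    exact h b hb
  · have key : ∀ g : ℤ × ℤ, ∀ k', a = sd ZQ g k' → g ∉ RF x₀ x₁ y₀ y₁ := by
      intro g k' hg hgF
      obtain ⟨b, hb⟩ := nx_of_sd (Q := ZQ) (ω := ω) hgF k'
      rw [← hg] at hb
      exact h b hb
    rw [mem_RF] at hf
    obtain ⟨x, y⟩ := f
    simp only at hf
    have h0 : sd ZQ (x, y) 0 = ((x, y), (x + 1, y)) := rfl
    have h2 : sd ZQ (x, y) 1 = ((x + 1, y), (x + 1, y + 1)) := rfl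
    have h3 : sd ZQ (x, y) 2 = ((x + 1, y + 1), (x, y + 1)) := rfl
    have h4 : sd ZQ (x, y) 3 = ((x, y + 1), (x, y)) := rfl
    rcases k4_cases k with rfl | rfl | rfl | rfl
    · rw [h0] at h1
      have := key (x, y - 1) 2 (by
        rw [h1]
        change _ = ((x + 1, y - 1 + 1), (x, y - 1 + 1))
        rw [show y - 1 + 1 = y by ring]; rfl)
      rw [mem_RF] at this
      rw [h1]
      simp only [Prod.swap] at this ⊢
      omega
    · rw [h2] at h1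
      have := key (x + 1, y) 3 (by rw [h1]; rfl)
      rw [mem_RF] at this
      rw [h1]
      simp only [Prod.swap] at this ⊢
      omega
    · rw [h3] at h1
      have := key (x, y + 1) 0 (by rw [h1]; rfl)
      rw [mem_RF] at this
      rw [h1]
      simp only [Prod.swap] at this ⊢
      omega
    · rw [h4] at h1
      have := key (x - 1, y) 1 (by
        rw [h1]
        change _ = ((x - 1 + 1, y), (x - 1 + 1, y + 1))
        rw [show x - 1 + 1 = x by ring]; rfl)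
      rw [mem_RF] at this
      rw [h1]
      simp only [Prod.swap] at this ⊢
      omega

/-! ### the scales -/

/-- the strand visits the box of radius `r` around `v` -/
def Vs (v : ℤ × ℤ) (r : ℤ) (Y : Finset DZ) : Prop := ∃ a ∈ Y, InE v r (te a)

/-- the strand is inside a box of radius `d` -/
def Sm (d : ℤ) (Y : Finset DZ) : Prop := ∃ w : ℤ × ℤ, ∀ a ∈ Y, InE w d (te a)

/-- the centre number `i` of the grid of mesh `ρ` -/
def gc (v : ℤ × ℤ) (ρ : ℤ) (i : ℤ × ℤ) : ℤ × ℤ := (v.1 + ρ * i.1, v.2 + ρ * i.2)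

/-- the indices of the grid -/
def gi (q : ℤ) : Finset (ℤ × ℤ) := Finset.Icc (-q) q ×ˢ Finset.Icc (-q) q

theorem exists_gc {v : ℤ × ℤ} {ρ r q : ℤ} (hρ : 0 < ρ) (hr : r ≤ ρ * q) {e : Pool.Agent.Perc.UE}
    (he : InE v r e) : ∃ i ∈ gi q, InE (gc v ρ i) ρ e := by
  obtain ⟨x, y, s⟩ := e
  refine ⟨((x - v.1) / ρ, (y - v.2) / ρ), ?_, ?_⟩
  · unfold InE InR at he
    rw [ua_mk] at he
    obtain ⟨⟨h1, h2, h3, h4⟩, -⟩ := he
    unfold gi
    simp only [Finset.mem_product, Finset.mem_Icc] at h1 h2 h3 h4 ⊢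
    refine ⟨⟨?_, ?_⟩, ?_, ?_⟩
    · rw [Int.le_ediv_iff_mul_le hρ]; nlinarith
    · exact Int.ediv_le_of_le_mul hρ (by nlinarith)
    · rw [Int.le_ediv_iff_mul_le hρ]; nlinarith
    · exact Int.ediv_le_of_le_mul hρ (by nlinarith)
  · have h1 := Int.mul_ediv_add_emod (x - v.1) ρ
    have h2 := Int.emod_nonneg (x - v.1) hρ.ne'
    have h3 := Int.emod_lt_of_pos (x - v.1) hρ
    have h4 := Int.mul_ediv_add_emod (y - v.2) ρ
    have h5 := Int.emod_nonneg (y - v.2) hρ.ne'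
    have h6 := Int.emod_lt_of_pos (y - v.2) hρ
    unfold InE InR gc
    cases s
    · rw [ua_mk, ub_false]
      simp only
      omega
    · rw [ua_mk, ub_true]
      simp only
      omega

/-- counting the strands of a scale -/
theorem card_scale {v : ℤ × ℤ} {ρ r q : ℤ} (hρ : 0 < ρ) (hr : r ≤ ρ * q) {T : Finset (Finset DZ)}
    (hT : T ⊆ dstr ZQ F ω) (h : ∀ Y ∈ T, Vs v r Y ∧ ¬ Sm (2 * ρ) Y) :
    T.card ≤ 2 * ∑ i ∈ gi q, NF (F : Set (ℤ × ℤ)) (gc v ρ i) ρ (2 * ρ) ω := by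
  refine card_le_NF hT (gi q) (gc v ρ) hρ.le (by omega) ?_
  intro Y hY
  obtain ⟨⟨a, ha, h1⟩, h2⟩ := h Y hY
  obtain ⟨i, hi, h3⟩ := exists_gc hρ hr h1
  refine ⟨i, hi, ⟨a, ha, h3⟩, ?_⟩
  unfold Sm at h2
  push Not at h2
  obtain ⟨b, hb, h4⟩ := h2 (gc v ρ i)
  exact ⟨b, hb, fun h5 => absurd h5 h4⟩

theorem card_gi {q : ℤ} (hq : 0 ≤ q) : ((gi q).card : ℝ) = (2 * q + 1) ^ 2 := by
  unfold gi
  rw [Finset.card_product, Int.card_Icc]
  have : ((q + 1 - -q).toNat : ℝ) = 2 * q + 1 := by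
    have h : ((q + 1 - -q).toNat : ℤ) = 2 * q + 1 := by rw [Int.toNat_of_nonneg (by omega)]; ring
    have h2 : (((q + 1 - -q).toNat : ℤ) : ℝ) = ((2 * q + 1 : ℤ) : ℝ) := by rw [h]
    push_cast at h2
    exact h2
  push_cast
  rw [this]
  ring

/-- the number of strands which visit a box, trivial bound -/
theorem card_vs {v : ℤ × ℤ} {r : ℤ} (hr : 0 ≤ r) {T : Finset (Finset DZ)}
    (hT : T ⊆ dstr ZQ (RF x₀ x₁ y₀ y₁) ω) (h : ∀ Y ∈ T, Vs v r Y) :
    (T.card : ℝ) ≤ 4 * (2 * r + 1) ^ 2 := by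
  classical
  have h1 : T.card ≤ ((VB (v.1 - r) (v.1 + r) (v.2 - r) (v.2 + r)) ×ˢ
      (Finset.univ : Finset (Fin 4))).card := by
    have H : ∀ Y ∈ T, ∃ x : (ℤ × ℤ) × Fin 4, x.1 ∈ VB (v.1 - r) (v.1 + r) (v.2 - r) (v.2 + r) ∧
        (x.1, nbd x.2 x.1) ∈ Y := by
      intro Y hY
      obtain ⟨a, ha, h2⟩ := h Y hY
      have hE := (dstr_of_mem (hT hY) ha).1
      obtain ⟨-, -, i, h3⟩ := dE_nbd hE
      refine ⟨(a.1, i), ?_, by rw [← h3]; exact ha⟩
      rw [mem_VB]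
      have := ((inE_te hE).1 h2).1
      unfold InV at this
      exact this
    choose! g hg1 hg2 using H
    refine Finset.card_le_card_of_injOn g ?_ ?_
    · intro Y hY
      rw [Finset.mem_coe, Finset.mem_product]
      exact ⟨hg1 Y hY, Finset.mem_univ _⟩
    · intro Y hY Y' hY' h3
      have h4 := hg2 Y hY
      have h5 := hg2 Y' hY'
      rw [← h3] at h5
      rw [(dstr_of_mem (hT hY) h4).2, (dstr_of_mem (hT hY') h5).2]
  have h2 : (((VB (v.1 - r) (v.1 + r) (v.2 - r) (v.2 + r)) ×ˢ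
      (Finset.univ : Finset (Fin 4))).card : ℝ) = 4 * (2 * r + 1) ^ 2 := by
    rw [Finset.card_product]
    unfold VB
    rw [Finset.card_product, Int.card_Icc, Int.card_Icc]
    have : ∀ c : ℤ, ((c + r + 1 - (c - r)).toNat : ℝ) = 2 * r + 1 := by
      intro c
      have h : ((c + r + 1 - (c - r)).toNat : ℤ) = 2 * r + 1 := by
        rw [Int.toNat_of_nonneg (by omega)]; ring
      have h2 : (((c + r + 1 - (c - r)).toNat : ℤ) : ℝ) = ((2 * r + 1 : ℤ) : ℝ) := by rw [h]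
      push_cast at h2
      exact h2
    push_cast
    rw [this, this]
    simp
    ring
  calc (T.card : ℝ) ≤ (((VB (v.1 - r) (v.1 + r) (v.2 - r) (v.2 + r)) ×ˢ
      (Finset.univ : Finset (Fin 4))).card : ℝ) := by exact_mod_cast h1
    _ = _ := h2

end

end Pool.Agent.SixB.Op
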