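import Pool.Agent.Lib.SixB.S3OpBoxC

/-!
# 6BD, operator bound (6): the box theorem

`box_bound`: for `B = BR v R`, `8 * 2 ^ K ≤ R`, `f` supported in the box of radius `2 ^ K` around `v`
and `|lapZ f| ≤ K₀ / 4 ^ K`, the average of the local weight `GB ZQ B (cB B f)` over the
configurations of `B` is at most `C (K₀)`.
-/

set_option autoImplicit false
set_option linter.unusedSectionVars false

namespace Pool.Agent.SixB.Op

open Pool.Agent.Perc Pool.Agent.Perc.Q Pool.Agent.PercD Pool.Agent.PercN Relation Pool.Agent.SixB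

noncomputable section

variable {F B : Finset (ℤ × ℤ)} {ω : Cfg} {a b : DZ} {X Y : Finset DZ} {x₀ x₁ y₀ y₁ : ℤ}
variable {P : ℤ × ℤ → ZMod 2}

/-! ### Jensen -/

theorem exp_sum_le {ι : Type} (I : Finset ι) (w x : ι → ℝ) {W : ℝ} (hw : ∀ i ∈ I, 0 ≤ w i)
    (hx : ∀ i ∈ I, 0 ≤ x i) (hs : 0 < ∑ i ∈ I, w i) (hW : ∑ i ∈ I, w i ≤ W) :
    Real.exp (∑ i ∈ I, w i * x i) ≤ ∑ i ∈ I, (w i / ∑ j ∈ I, w j) * Real.exp (W * x i) := by
  set s := ∑ i ∈ I, w i with hsd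
  have h1 := convexOn_exp.map_sum_le (t := I) (w := fun i => w i / s) (p := fun i => s * x i)
    (fun i hi => div_nonneg (hw i hi) hs.le) (by rw [← Finset.sum_div, ← hsd, div_self hs.ne'])
    (fun i _ => Set.mem_univ _)
  simp only [smul_eq_mul] at h1
  have h2 : ∑ i ∈ I, w i / s * (s * x i) = ∑ i ∈ I, w i * x i := by
    refine Finset.sum_congr rfl ?_
    intro i _
    field_simp
  rw [h2] at h1
  refine h1.trans (Finset.sum_le_sum ?_)
  intro i hi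
  refine mul_le_mul_of_nonneg_left ?_ (div_nonneg (hw i hi) hs.le)
  exact Real.exp_le_exp.2 (mul_le_mul_of_nonneg_right hW (hx i hi))

section avl

variable {Φ : Type} [DecidableEq Φ] {A : Finset Φ}

theorem av_mono' {g g' : (Φ → Bool) → ℝ} (h : ∀ ω, g ω ≤ g' ω) : av A g ≤ av A g' := by
  unfold av
  exact div_le_div_of_nonneg_right (Finset.sum_le_sum fun T _ => h _) (by positivity)

theorem av_const (c : ℝ) : av A (fun _ => c) = c := by
  unfold av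
  rw [Finset.sum_const, Finset.card_powerset, nsmul_eq_mul]
  push_cast
  field_simp

theorem av_mul_left (c : ℝ) (g : (Φ → Bool) → ℝ) : av A (fun ω => c * g ω) = c * av A g := by
  unfold av
  rw [← Finset.mul_sum, mul_div_assoc]

theorem av_sum {ι : Type} (I : Finset ι) (g : ι → (Φ → Bool) → ℝ) :
    av A (fun ω => ∑ i ∈ I, g i ω) = ∑ i ∈ I, av A (g i) := by
  unfold av
  rw [Finset.sum_comm, Finset.sum_div]

theorem av_exp_le {ι : Type} (I : Finset ι) (w : ι → ℝ) (N : ι → (Φ → Bool) → ℕ) {W C : ℝ}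
    (hw : ∀ i ∈ I, 0 ≤ w i) (hW : ∑ i ∈ I, w i ≤ W) (hC0 : 0 ≤ C)
    (hC : ∀ i ∈ I, av A (fun ω => Real.exp W ^ N i ω) ≤ C) :
    av A (fun ω => Real.exp (∑ i ∈ I, w i * N i ω)) ≤ 1 + C := by
  by_cases hs : 0 < ∑ i ∈ I, w i
  · have h1 : av A (fun ω => Real.exp (∑ i ∈ I, w i * N i ω)) ≤
        av A (fun ω => ∑ i ∈ I, (w i / ∑ j ∈ I, w j) * Real.exp W ^ N i ω) := by
      refine av_mono' ?_
      intro ω
      refine (exp_sum_le I w (fun i => (N i ω : ℝ)) hw (fun i _ => Nat.cast_nonneg _) hs hW).trans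
        (le_of_eq ?_)
      refine Finset.sum_congr rfl ?_
      intro i _
      rw [← Real.exp_nat_mul, mul_comm W]
    refine h1.trans ?_
    rw [av_sum]
    have h2 : ∀ i ∈ I, av A (fun ω => (w i / ∑ j ∈ I, w j) * Real.exp W ^ N i ω) ≤
        (w i / ∑ j ∈ I, w j) * C := by
      intro i hi
      rw [av_mul_left]
      exact mul_le_mul_of_nonneg_left (hC i hi) (div_nonneg (hw i hi) hs.le)
    refine (Finset.sum_le_sum h2).trans ?_
    rw [← Finset.sum_mul, ← Finset.sum_div, div_self hs.ne']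
    linarith
  · have h0 : ∀ i ∈ I, w i = 0 := by
      have h1 : ∑ i ∈ I, w i = 0 := le_antisymm (not_lt.1 hs) (Finset.sum_nonneg hw)
      exact (Finset.sum_eq_zero_iff_of_nonneg hw).1 h1
    have h1 : av A (fun ω => Real.exp (∑ i ∈ I, w i * N i ω)) = 1 := by
      rw [← av_const (A := A) 1]
      congr 1
      funext ω
      rw [Finset.sum_eq_zero (fun i hi => by rw [h0 i hi, zero_mul]), Real.exp_zero]
    rw [h1]
    linarith

end avl

theorem ind_eq_cfg (T : Finset (ℤ × ℤ)) : (ind T : Cfg) = cfg T := by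
  funext f
  unfold ind cfg
  congr

theorem av_NF {W C : ℝ} (hC : ∀ (F : Set (ℤ × ℤ)) (v : ℤ × ℤ) (r R : ℤ) (W' : Finset (ℤ × ℤ)),
    0 < r → r < R → r ≤ ((1 : ℕ) : ℤ) * (R - r) → BR v R ⊆ W' →
      (∑ T ∈ W'.powerset, Real.exp W ^ NF F v r R (cfg T)) / 2 ^ W'.card ≤ C)
    {F : Set (ℤ × ℤ)} {v : ℤ × ℤ} {ρ : ℤ} (hρ : 0 < ρ) (h : BR v (2 * ρ) ⊆ B) :
    av B (fun ω => Real.exp W ^ NF F v ρ (2 * ρ) ω) ≤ C := by
  unfold av
  refine le_trans (le_of_eq ?_) (hC F v ρ (2 * ρ) B hρ (by omega) (by push_cast; omega) h)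
  rfl

/-! ### the data of a box -/

/-- the hypotheses of the box theorem -/
structure BoxD (v : ℤ × ℤ) (K : ℕ) (R : ℤ) (f : ℤ × ℤ → ℝ) (K₀ : ℝ) : Prop where
  hR : 8 * 2 ^ K ≤ R
  supp : ∀ p, ¬ InV v (2 ^ K) p → f p = 0
  lap : ∀ p, |lapZ f p| ≤ K₀ / 4 ^ K

variable {v : ℤ × ℤ} {K : ℕ} {R : ℤ} {f : ℤ × ℤ → ℝ} {K₀ : ℝ}

theorem two_pow_pos (K : ℕ) : (0 : ℤ) < 2 ^ K := by positivity

theorem BoxD.inside (h : BoxD v K R f K₀) : Inside (v.1 - R) (v.1 + R) (v.2 - R) (v.2 + R) f := by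
  intro p hp
  refine h.supp p fun h' => hp ?_
  have h1 := two_pow_pos K
  have h2 := h.hR
  unfold InV at h'
  omega

theorem BoxD.lap_zero (h : BoxD v K R f K₀) {p : ℤ × ℤ} (hp : ¬ InV v (2 ^ K + 1) p) :
    lapZ f p = 0 := by
  unfold lapZ
  rw [h.supp (p.1 + 1, p.2), h.supp (p.1, p.2 + 1), h.supp (p.1 - 1, p.2), h.supp (p.1, p.2 - 1),
    h.supp p]
  · ring
  all_goals
    unfold InV at hp ⊢
    try simp only
    omega

theorem BoxD.nonneg (h : BoxD v K R f K₀) : 0 ≤ K₀ := by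
  have h1 := (abs_nonneg _).trans (h.lap (0, 0))
  by_contra h2
  have : K₀ / 4 ^ K < 0 := div_neg_of_neg_of_pos (not_le.1 h2) (by positivity)
  linarith

theorem card_VBox (v : ℤ × ℤ) {r : ℤ} (hr : 0 ≤ r) :
    ((VB (v.1 - r) (v.1 + r) (v.2 - r) (v.2 + r)).card : ℝ) = (2 * r + 1) ^ 2 := by
  unfold VB
  rw [Finset.card_product, Int.card_Icc, Int.card_Icc]
  have : ∀ c : ℤ, ((c + r + 1 - (c - r)).toNat : ℝ) = 2 * r + 1 := by
    intro c
    have h : ((c + r + 1 - (c - r)).toNat : ℤ) = 2 * r + 1 := by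
      rw [Int.toNat_of_nonneg (by omega)]; ring
    have h2 : (((c + r + 1 - (c - r)).toNat : ℤ) : ℝ) = ((2 * r + 1 : ℤ) : ℝ) := by rw [h]
    push_cast at h2
    exact h2
  push_cast
  rw [this, this]
  ring

theorem BoxD.fS_all (h : BoxD v K R f K₀) (hY : Y ∈ dstr ZQ (BR v R) ω) :
    |fS (cB (BR v R) f) Y| ≤ 25 * K₀ := by
  obtain ⟨a, ha⟩ := dstr_nonempty hY
  have h1 := fS_le (D := VB (v.1 - (2 ^ K + 1)) (v.1 + (2 ^ K + 1)) (v.2 - (2 ^ K + 1))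
    (v.2 + (2 ^ K + 1))) h.inside (potY_pot hY ha) hY (fun p _ hp => Or.inr (h.lap_zero (by
      rw [mem_VB] at hp
      unfold InV
      exact hp))) h.lap
  rw [card_VBox v (by have := two_pow_pos K; omega)] at h1
  refine h1.trans ?_
  have h2 : (1 : ℝ) ≤ 2 ^ K := one_le_pow₀ (by norm_num)
  have h3 := h.nonneg
  have h4 : (4 : ℝ) ^ K = 2 ^ K * 2 ^ K := by
    rw [← mul_pow]; norm_num
  rw [h4]
  push_cast
  have h5 : 0 ≤ K₀ / (2 ^ K * 2 ^ K) := by positivity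
  have h6 : (2 * ((2 : ℝ) ^ K + 1) + 1) ^ 2 ≤ 25 * (2 ^ K * 2 ^ K) := by nlinarith
  calc (2 * ((2 : ℝ) ^ K + 1) + 1) ^ 2 * (K₀ / (2 ^ K * 2 ^ K)) ≤
      25 * (2 ^ K * 2 ^ K) * (K₀ / (2 ^ K * 2 ^ K)) := mul_le_mul_of_nonneg_right h6 h5
    _ = 25 * K₀ := by field_simp

theorem BoxD.fS_small (h : BoxD v K R f K₀) (hY : Y ∈ dstr ZQ (BR v R) ω) {w : ℤ × ℤ} {d : ℤ}
    (hd0 : 0 ≤ d) (hd : d ≤ 2 * 2 ^ K) (hw : ∀ a ∈ Y, InE w d (te a)) (hv : Vs v (2 ^ K + 1) Y) :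
    |fS (cB (BR v R) f) Y| ≤ (2 * d + 1) ^ 2 * (K₀ / 4 ^ K) := by
  obtain ⟨a, ha, h0⟩ := hv
  have h3 := hw a ha
  have hE := (dstr_of_mem hY ha).1
  rw [inE_te hE] at h0 h3
  obtain ⟨h0, -⟩ := h0
  obtain ⟨h3, -⟩ := h3
  unfold InV at h0 h3
  have hR := h.hR
  have hK := two_pow_pos K
  have h1 := fS_le (D := VB (w.1 - d) (w.1 + d) (w.2 - d) (w.2 + d)) h.inside (potY_pot hY ha) hY
    (fun p hp hp' => Or.inl (pot_zero (w := w) (d := d)
      (fun f hf => evenAt_MM (by exact_mod_cast hf))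
      (fun e he => by
        have he' : e ∈ MM ω (BR v R : Set (ℤ × ℤ)) (te a) := he
        rw [MM_eq hY ha] at he'
        obtain ⟨b, hb, rfl⟩ := he'
        exact hw b hb) (by omega) (by omega) hp (by rw [mem_VB] at hp'; exact hp'))) h.lap
  rw [card_VBox w hd0] at h1
  exact h1

theorem BoxD.vs (h : BoxD v K R f K₀) (hY : Y ∈ dstr ZQ (BR v R) ω)
    (h0 : fS (cB (BR v R) f) Y ≠ 0) : Vs v (2 ^ K + 1) Y := by
  unfold fS at h0
  obtain ⟨a, ha, h1⟩ := Finset.exists_ne_zero_of_sum_ne_zero h0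
  have hE := (dstr_of_mem hY ha).1
  refine ⟨a, ha, (inE_te hE).2 ?_⟩
  unfold cB at h1
  rw [if_pos hE] at h1
  obtain ⟨-, -, i, h3⟩ := dE_nbd hE
  have h4 : InV v (2 ^ K) a.1 ∨ InV v (2 ^ K) a.2 := by
    by_contra h5
    push Not at h5
    rw [h.supp _ h5.1, h.supp _ h5.2, sub_zero] at h1
    exact h1 rfl
  have h5 : a.2 = nbd i a.1 := congrArg Prod.snd h3
  rw [h5] at h4 ⊢
  unfold InV nbd at *
  split_ifs at h4 ⊢ <;> simp only at h4 ⊢ <;> omega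

theorem exists_level (K : ℕ) (Y : Finset DZ) : Sm 2 Y ∨ ∃ j ≤ K, ¬ Sm (2 * 2 ^ j) Y ∧
    (j < K → Sm (2 * 2 ^ (j + 1)) Y) := by
  classical
  by_cases h : Sm 2 Y
  · exact Or.inl h
  · right
    have h0 : ¬ Sm (2 * 2 ^ 0) Y := by simpa using h
    refine ⟨Nat.findGreatest (fun j => ¬ Sm (2 * 2 ^ j) Y) K, Nat.findGreatest_le K, ?_, ?_⟩
    · exact Nat.findGreatest_spec (P := fun j => ¬ Sm (2 * 2 ^ j) Y) (Nat.zero_le K) h0
    · intro hj
      have := Nat.findGreatest_is_greatest (P := fun j => ¬ Sm (2 * 2 ^ j) Y)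
        (Nat.lt_succ_self _) hj
      simpa using this

theorem Sm.mono {d d' : ℤ} (h : Sm d Y) (hd : d ≤ d') : Sm d' Y := by
  obtain ⟨w, hw⟩ := h
  refine ⟨w, fun a ha => ?_⟩
  have := hw a ha
  unfold InE InR at this ⊢
  omega

theorem BoxD.cls (h : BoxD v K R f K₀) (hY : Y ∈ dstr ZQ (BR v R) ω) (hv : Vs v (2 ^ K + 1) Y)
    (hs : Sm (2 * 2 ^ K) Y) : Cls ZQ (BR v R) ω Y := by
  by_contra hc
  obtain ⟨a, ha, h1⟩ := open_end hY hc
  obtain ⟨b, hb, h2⟩ := hv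
  obtain ⟨w, hw⟩ := hs
  have h3 := hw a ha
  have h4 := hw b hb
  rw [inE_te (dstr_of_mem hY ha).1] at h3
  rw [inE_te (dstr_of_mem hY hb).1] at h2 h4
  obtain ⟨h3, -⟩ := h3
  obtain ⟨h4, -⟩ := h4
  obtain ⟨h2, -⟩ := h2
  have hR := h.hR
  have hK := two_pow_pos K
  unfold InV at h2 h3 h4
  omega

/-! ### the weights of the scales -/

/-- the weight of a scale -/
def qw (K : ℕ) (K₀ : ℝ) (j : ℕ) : ℝ :=
  if j < K then (9 * 2 ^ j) ^ 4 * (K₀ / 4 ^ K) ^ 2 else 25 * K₀ + (25 * K₀) ^ 2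

theorem qw_nonneg {K : ℕ} {K₀ : ℝ} (h : 0 ≤ K₀) (j : ℕ) : 0 ≤ qw K K₀ j := by
  unfold qw
  split_ifs <;> positivity

open Classical in
/-- the strands of a scale -/
def TS (v : ℤ × ℤ) (K : ℕ) (S : Finset (Finset DZ)) (j : ℕ) : Finset (Finset DZ) :=
  S.filter fun Y => Vs v (2 ^ K + 1) Y ∧ ¬ Sm (2 * 2 ^ j) Y ∧ (j < K → Sm (2 * 2 ^ (j + 1)) Y)

open Classical in
/-- the smallest strands -/
def T0 (v : ℤ × ℤ) (K : ℕ) (S : Finset (Finset DZ)) : Finset (Finset DZ) :=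
  S.filter fun Y => Vs v (2 ^ K + 1) Y ∧ Sm 2 Y

theorem mem_T0 {S : Finset (Finset DZ)} : Y ∈ T0 v K S ↔ Y ∈ S ∧ Vs v (2 ^ K + 1) Y ∧ Sm 2 Y := by
  classical
  unfold T0
  exact Finset.mem_filter

theorem mem_TS {S : Finset (Finset DZ)} {j : ℕ} : Y ∈ TS v K S j ↔ Y ∈ S ∧ Vs v (2 ^ K + 1) Y ∧
    ¬ Sm (2 * 2 ^ j) Y ∧ (j < K → Sm (2 * 2 ^ (j + 1)) Y) := by
  classical
  unfold TS
  exact Finset.mem_filter

theorem BoxD.gB_le (h : BoxD v K R f K₀) (hY : Y ∈ dstr ZQ (BR v R) ω) :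
    gB ZQ (BR v R) (cB (BR v R) f) ω Y ≤
      Real.exp ((if Y ∈ T0 v K (dstr ZQ (BR v R) ω) then 625 * (K₀ / 4 ^ K) ^ 2 else 0) +
        ∑ j ∈ Finset.range (K + 1), if Y ∈ TS v K (dstr ZQ (BR v R) ω) j then qw K K₀ j else 0) := by
  have hK0 := h.nonneg
  have hκ : 0 ≤ K₀ / 4 ^ K := by positivity
  have hn1 : 0 ≤ (if Y ∈ T0 v K (dstr ZQ (BR v R) ω) then 625 * (K₀ / 4 ^ K) ^ 2 else 0) := by
    split_ifs <;> positivity
  have hn2 : ∀ j ∈ Finset.range (K + 1),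
      0 ≤ (if Y ∈ TS v K (dstr ZQ (BR v R) ω) j then qw K K₀ j else 0) := by
    intro j _
    split_ifs
    · exact qw_nonneg hK0 j
    · exact le_rfl
  by_cases h0 : fS (cB (BR v R) f) Y = 0
  · have h1 : gB ZQ (BR v R) (cB (BR v R) f) ω Y = 1 := by
      unfold gB
      rw [h0]
      simp
    rw [h1]
    exact Real.one_le_exp (add_nonneg hn1 (Finset.sum_nonneg hn2))
  · have hv := h.vs hY h0
    rcases exists_level K Y with hs | ⟨j, hj, hs1, hs2⟩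
    · have hc := h.cls hY hv (hs.mono (by have := two_pow_pos K; omega))
      have hm : Y ∈ T0 v K (dstr ZQ (BR v R) ω) := mem_T0.2 ⟨hY, hv, hs⟩
      unfold gB
      rw [if_pos hc, if_pos hm]
      refine Real.exp_le_exp.2 ?_
      obtain ⟨w, hw⟩ := hs
      have h1 := h.fS_small hY (d := 2) (by norm_num) (by have := two_pow_pos K; omega) hw hv
      push_cast at h1
      norm_num at h1
      have h2 : fS (cB (BR v R) f) Y ^ 2 ≤ (25 * (K₀ / 4 ^ K)) ^ 2 := by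
        rw [← sq_abs]
        exact pow_le_pow_left₀ (abs_nonneg _) h1 2
      have h3 := Finset.sum_nonneg hn2
      nlinarith
    · have hm : Y ∈ TS v K (dstr ZQ (BR v R) ω) j := mem_TS.2 ⟨hY, hv, hs1, hs2⟩
      have h3 : qw K K₀ j ≤ ∑ j ∈ Finset.range (K + 1),
          if Y ∈ TS v K (dstr ZQ (BR v R) ω) j then qw K K₀ j else 0 := by
        refine le_trans (le_of_eq ?_) (Finset.single_le_sum hn2
          (Finset.mem_range.2 (Nat.lt_succ_of_le hj)))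
        rw [if_pos hm]
      refine le_trans ?_ (Real.exp_le_exp.2 (le_add_of_nonneg_of_le hn1 h3))
      by_cases hjK : j < K
      · have hs := hs2 hjK
        have hle : (2 : ℤ) ^ (j + 1) ≤ 2 ^ K := pow_le_pow_right₀ (by norm_num) hjK
        have hc := h.cls hY hv (hs.mono (by omega))
        obtain ⟨w, hw⟩ := hs
        have h1 := h.fS_small hY (d := 2 * 2 ^ (j + 1)) (by positivity) (by omega) hw hv
        unfold gB qw
        rw [if_pos hc, if_pos hjK]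
        refine Real.exp_le_exp.2 ?_
        have h2 : |fS (cB (BR v R) f) Y| ≤ (9 * 2 ^ j) ^ 2 * (K₀ / 4 ^ K) := by
          refine h1.trans (mul_le_mul_of_nonneg_right ?_ hκ)
          push_cast
          have h5 : (1 : ℝ) ≤ 2 ^ j := one_le_pow₀ (by norm_num)
          refine pow_le_pow_left₀ (by positivity) ?_ 2
          rw [pow_succ]
          linarith
        rw [← sq_abs]
        refine (pow_le_pow_left₀ (abs_nonneg _) h2 2).trans (le_of_eq ?_)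
        ring
      · have h1 := h.fS_all hY
        unfold gB qw
        rw [if_neg hjK]
        split_ifs with hc
        · refine Real.exp_le_exp.2 ?_
          rw [← sq_abs]
          have := pow_le_pow_left₀ (abs_nonneg _) h1 2
          nlinarith
        · refine Real.exp_le_exp.2 ?_
          nlinarith [sq_nonneg (25 * K₀)]

theorem BoxD.GB_le (h : BoxD v K R f K₀) (ω : Cfg) :
    GB ZQ (BR v R) (cB (BR v R) f) ω ≤
      Real.exp ((T0 v K (dstr ZQ (BR v R) ω)).card * (625 * (K₀ / 4 ^ K) ^ 2) +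
        ∑ j ∈ Finset.range (K + 1), (TS v K (dstr ZQ (BR v R) ω) j).card * qw K K₀ j) := by
  unfold GB
  refine (Finset.prod_le_prod (fun Y _ => le_trans zero_le_one (one_le_gB _ _))
    (fun Y hY => h.gB_le hY)).trans (le_of_eq ?_)
  rw [← Real.exp_sum, Finset.sum_add_distrib, Finset.sum_comm]
  congr 2
  · rw [← Finset.sum_filter, Finset.sum_const, nsmul_eq_mul]
    congr 2
    congr 1
    ext Y
    rw [Finset.mem_filter, mem_T0]
    tauto
  · refine Finset.sum_congr rfl ?_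
    intro j _
    rw [← Finset.sum_filter, Finset.sum_const, nsmul_eq_mul]
    congr 2
    congr 1
    ext Y
    rw [Finset.mem_filter, mem_TS]
    tauto

/-! ### the number of strands of a scale -/

theorem BoxD.card_T0 (h : BoxD v K R f K₀) (ω : Cfg) :
    ((T0 v K (dstr ZQ (BR v R) ω)).card : ℝ) * (625 * (K₀ / 4 ^ K) ^ 2) ≤ 62500 * K₀ ^ 2 := by
  have h1 := card_vs (x₀ := v.1 - R) (x₁ := v.1 + R) (y₀ := v.2 - R) (y₁ := v.2 + R) (ω := ω)
    (v := v) (r := 2 ^ K + 1) (by have := two_pow_pos K; omega)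
    (T := T0 v K (dstr ZQ (BR v R) ω)) (fun Y hY => (mem_T0.1 hY).1)
    (fun Y hY => (mem_T0.1 hY).2.1)
  push_cast at h1
  have h2 : (1 : ℝ) ≤ 2 ^ K := one_le_pow₀ (by norm_num)
  have h4 : (4 : ℝ) ^ K = 2 ^ K * 2 ^ K := by
    rw [← mul_pow]; norm_num
  have h3 : 0 ≤ 625 * (K₀ / 4 ^ K) ^ 2 := by positivity
  refine (mul_le_mul_of_nonneg_right h1 h3).trans ?_
  rw [h4]
  have h6 : 4 * (2 * ((2 : ℝ) ^ K + 1) + 1) ^ 2 ≤ 100 * (2 ^ K * 2 ^ K) := by nlinarith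
  rw [h4] at h3
  refine (mul_le_mul_of_nonneg_right h6 h3).trans ?_
  have h7 : 100 * ((2 : ℝ) ^ K * 2 ^ K) * (625 * (K₀ / (2 ^ K * 2 ^ K)) ^ 2) =
      62500 * K₀ ^ 2 / (2 ^ K * 2 ^ K) := by
    field_simp
    ring
  rw [h7]
  refine div_le_self (by positivity) ?_
  nlinarith

/-- the number of the grid points of a scale -/
def qg (K j : ℕ) : ℤ := 2 ^ (K - j) + 1

theorem BoxD.card_TS (h : BoxD v K R f K₀) (ω : Cfg) {j : ℕ} (hj : j ≤ K) :
    (TS v K (dstr ZQ (BR v R) ω) j).card ≤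
      2 * ∑ i ∈ gi (qg K j), NF (BR v R : Set (ℤ × ℤ)) (gc v (2 ^ j) i) (2 ^ j) (2 * 2 ^ j) ω := by
  refine card_scale (r := 2 ^ K + 1) (v := v) (two_pow_pos j) ?_ (fun Y hY => (mem_TS.1 hY).1)
    (fun Y hY => ⟨(mem_TS.1 hY).2.1, (mem_TS.1 hY).2.2.1⟩)
  unfold qg
  have h1 : (2 : ℤ) ^ j * 2 ^ (K - j) = 2 ^ K := by
    rw [← pow_add]; congr 1; omega
  have h2 := two_pow_pos j
  rw [mul_add, h1]
  omega

theorem gc_sub {v : ℤ × ℤ} {K j : ℕ} (hj : j ≤ K) {R : ℤ} (hR : 8 * 2 ^ K ≤ R) {i : ℤ × ℤ}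
    (hi : i ∈ gi (qg K j)) : BR (gc v (2 ^ j) i) (2 * 2 ^ j) ⊆ BR v R := by
  have h1 : (2 : ℤ) ^ j * 2 ^ (K - j) = 2 ^ K := by
    rw [← pow_add]; congr 1; omega
  have h2 := two_pow_pos j
  have h3 : (2 : ℤ) ^ j ≤ 2 ^ K := pow_le_pow_right₀ (by norm_num) hj
  unfold gi qg at hi
  simp only [Finset.mem_product, Finset.mem_Icc] at hi
  obtain ⟨⟨h4, h5⟩, h6, h7⟩ := hi
  have h8 : (2 : ℤ) ^ j * i.1 ≤ 2 ^ K + 2 ^ j := by nlinarith
  have h9 : -(2 ^ K + 2 ^ j) ≤ (2 : ℤ) ^ j * i.1 := by nlinarith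
  have h10 : (2 : ℤ) ^ j * i.2 ≤ 2 ^ K + 2 ^ j := by nlinarith
  have h11 : -(2 ^ K + 2 ^ j) ≤ (2 : ℤ) ^ j * i.2 := by nlinarith
  intro g hg
  rw [mem_BR] at hg ⊢
  unfold gc at hg
  simp only at hg
  omega

/-- the total weight -/
theorem weight_le {K : ℕ} {K₀ : ℝ} (h : 0 ≤ K₀) :
    ∑ j ∈ Finset.range (K + 1), ((gi (qg K j)).card : ℝ) * (2 * qw K K₀ j) ≤
      328050 * K₀ ^ 2 + 50 * (25 * K₀ + (25 * K₀) ^ 2) := by
  have hcard : ∀ j ≤ K, ((gi (qg K j)).card : ℝ) ≤ 25 * 4 ^ (K - j) := by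
    intro j _
    have hq : (0 : ℤ) ≤ qg K j := by
      unfold qg
      positivity
    rw [card_gi hq]
    unfold qg
    push_cast
    have h2 : (1 : ℝ) ≤ 2 ^ (K - j) := one_le_pow₀ (by norm_num)
    have h4 : (4 : ℝ) ^ (K - j) = 2 ^ (K - j) * 2 ^ (K - j) := by
      rw [← mul_pow]; norm_num
    rw [h4]
    nlinarith
  rw [Finset.sum_range_succ]
  refine add_le_add ?_ ?_
  · have h1 : ∀ j ∈ Finset.range K, ((gi (qg K j)).card : ℝ) * (2 * qw K K₀ j) ≤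
        328050 * K₀ ^ 2 * (4 ^ j / 4 ^ K) := by
      intro j hj
      rw [Finset.mem_range] at hj
      have h2 := hcard j hj.le
      have h3 := qw_nonneg h (K := K) j
      refine (mul_le_mul_of_nonneg_right h2 (by positivity)).trans (le_of_eq ?_)
      unfold qw
      rw [if_pos hj]
      have h4 : (4 : ℝ) ^ (K - j) * 4 ^ j = 4 ^ K := by
        rw [← pow_add]; congr 1; omega
      have h5 : (2 : ℝ) ^ j * 2 ^ j = 4 ^ j := by
        rw [← mul_pow]; norm_num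
      have h6 : (0 : ℝ) < 4 ^ K := by positivity
      have h7 : (9 * (2 : ℝ) ^ j) ^ 4 = 6561 * (4 ^ j * 4 ^ j) := by
        rw [← h5]; ring
      rw [h7]
      have h8 : 25 * (4 : ℝ) ^ (K - j) * (2 * (6561 * (4 ^ j * 4 ^ j) * (K₀ / 4 ^ K) ^ 2)) =
          328050 * K₀ ^ 2 * (((4 : ℝ) ^ (K - j) * 4 ^ j) * 4 ^ j / (4 ^ K * 4 ^ K)) := by
        field_simp
        ring
      rw [h8, h4]
      field_simp
    refine (Finset.sum_le_sum h1).trans ?_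
    rw [← Finset.mul_sum, ← Finset.sum_div]
    have h2 : (∑ j ∈ Finset.range K, (4 : ℝ) ^ j) / 4 ^ K ≤ 1 := by
      rw [div_le_one (by positivity), geom_sum_eq (by norm_num)]
      have : (0 : ℝ) < 4 ^ K := by positivity
      linarith
    have h3 : (0 : ℝ) ≤ 328050 * K₀ ^ 2 := by positivity
    calc 328050 * K₀ ^ 2 * ((∑ j ∈ Finset.range K, (4 : ℝ) ^ j) / 4 ^ K) ≤
        328050 * K₀ ^ 2 * 1 := mul_le_mul_of_nonneg_left h2 h3
      _ = _ := mul_one _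
  · have h2 := hcard K le_rfl
    rw [Nat.sub_self, pow_zero, mul_one] at h2
    have h3 := qw_nonneg h (K := K) K
    unfold qw at h3 ⊢
    rw [if_neg (lt_irrefl K)] at h3 ⊢
    nlinarith

/-- **The box theorem.** -/
theorem box_bound (K₀ : ℝ) (hK₀ : 0 ≤ K₀) : ∃ C : ℝ, 0 < C ∧
    ∀ (v : ℤ × ℤ) (K : ℕ) (R : ℤ) (f : ℤ × ℤ → ℝ), BoxD v K R f K₀ →
      av (BR v R) (GB ZQ (BR v R) (cB (BR v R) f)) ≤ C := by
  set W : ℝ := 328050 * K₀ ^ 2 + 50 * (25 * K₀ + (25 * K₀) ^ 2) with hW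
  have hW0 : 0 ≤ W := by positivity
  obtain ⟨C, hC, hNF⟩ := NF_moment 1 (Real.one_le_exp hW0)
  refine ⟨Real.exp (62500 * K₀ ^ 2) * (1 + C), by positivity, ?_⟩
  intro v K R f h
  have h1 : ∀ ω : Cfg, GB ZQ (BR v R) (cB (BR v R) f) ω ≤ Real.exp (62500 * K₀ ^ 2) *
      Real.exp (∑ x ∈ (Finset.range (K + 1)).sigma (fun j => gi (qg K j)), (2 * qw K K₀ x.1) *
        (NF (BR v R : Set (ℤ × ℤ)) (gc v (2 ^ x.1) x.2) (2 ^ x.1) (2 * 2 ^ x.1) ω : ℝ)) := by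
    intro ω
    refine (h.GB_le ω).trans ?_
    rw [← Real.exp_add]
    refine Real.exp_le_exp.2 (add_le_add (h.card_T0 ω) ?_)
    rw [Finset.sum_sigma]
    refine Finset.sum_le_sum ?_
    intro j hj
    have hj' : j ≤ K := Nat.lt_succ_iff.1 (Finset.mem_range.1 hj)
    have h2 := h.card_TS ω hj'
    have h3 := qw_nonneg hK₀ (K := K) j
    have h4 : ((TS v K (dstr ZQ (BR v R) ω) j).card : ℝ) ≤ 2 * ∑ i ∈ gi (qg K j),
        (NF (BR v R : Set (ℤ × ℤ)) (gc v (2 ^ j) i) (2 ^ j) (2 * 2 ^ j) ω : ℝ) := by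
      exact_mod_cast h2
    refine (mul_le_mul_of_nonneg_right h4 h3).trans (le_of_eq ?_)
    simp only
    rw [← Finset.mul_sum]
    ring
  refine (av_mono' h1).trans ?_
  rw [av_mul_left]
  refine mul_le_mul_of_nonneg_left ?_ (Real.exp_pos _).le
  refine av_exp_le _ (fun x : (_ : ℕ) × (ℤ × ℤ) => 2 * qw K K₀ x.1)
    (fun x ω => NF (BR v R : Set (ℤ × ℤ)) (gc v (2 ^ x.1) x.2) (2 ^ x.1) (2 * 2 ^ x.1) ω)
    (W := W) (fun x _ => mul_nonneg (by norm_num) (qw_nonneg hK₀ _)) ?_ hC.le ?_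
  · rw [Finset.sum_sigma]
    refine le_trans (le_of_eq ?_) (weight_le (K := K) hK₀)
    refine Finset.sum_congr rfl ?_
    intro j _
    simp only
    rw [Finset.sum_const, nsmul_eq_mul]
  · rintro ⟨j, i⟩ hx
    rw [Finset.mem_sigma] at hx
    simp only at hx
    have hj' : j ≤ K := Nat.lt_succ_iff.1 (Finset.mem_range.1 hx.1)
    exact av_NF hNF (two_pow_pos j) (gc_sub hj' h.hR hx.2)

end

end Pool.Agent.SixB.Op
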