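import Pool.Agent.Lib.SixB.S3OpSplit
import Pool.Agent.Lib.SixB.S3Rel

/-!
# 6BD, operator bound (7): transport of the local weight

`GB_map`: the local weight `GB` is preserved by maps of complexes (`QMap`), `av_map`: averages.
-/

set_option autoImplicit false
set_option linter.unusedSectionVars false

namespace Pool.Agent.SixB.Op

open Pool.Agent.Perc.Q Relation Pool.Agent.SixB Pool.Agent.SixB.Rel

noncomputable section

variable {V Φ V' Φ' : Type} [DecidableEq V] [DecidableEq Φ] [DecidableEq V'] [DecidableEq Φ']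
variable {Q : QC V Φ} {Q' : QC V' Φ'} {F : Finset Φ} {ω : Φ → Bool} {ω' : Φ' → Bool}
variable {φ : V → V'} {ψ : Φ → Φ'} {r : ZMod 4} {X : Finset (V × V)}

theorem cls_map (H : QMap Q Q' F ω ω' φ ψ r) (hX : X ∈ dstr Q F ω) :
    Cls Q' (F.image ψ) ω' (X.image (Prod.map φ φ)) ↔ Cls Q F ω X := by
  unfold Cls
  constructor
  · intro h a ha
    obtain ⟨b', hb'⟩ := h _ (Finset.mem_image_of_mem _ ha)
    obtain ⟨b, -, hb⟩ := H.nx_inv (dstr_of_mem hX ha).1 hb'
    exact ⟨b, hb⟩
  · intro h a' ha'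
    obtain ⟨a, ha, rfl⟩ := Finset.mem_image.1 ha'
    obtain ⟨b, hb⟩ := h a ha
    exact ⟨_, H.nx hb⟩

theorem fS_map (H : QMap Q Q' F ω ω' φ ψ r) {c : V × V → ℝ} {c' : V' × V' → ℝ}
    (hc : ∀ a ∈ dE Q F, c' (Prod.map φ φ a) = c a) (hX : X ∈ dstr Q F ω) :
    fS c' (X.image (Prod.map φ φ)) = fS c X := by
  unfold fS
  rw [Finset.sum_image]
  · exact Finset.sum_congr rfl fun a ha => hc a (dstr_of_mem hX ha).1
  · intro a ha b hb h
    exact H.inj_dE (dstr_of_mem hX ha).1 (dstr_of_mem hX hb).1 h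

/-- the local weight is preserved by maps -/
theorem GB_map (H : QMap Q Q' F ω ω' φ ψ r) {c : V × V → ℝ} {c' : V' × V' → ℝ}
    (hc : ∀ a ∈ dE Q F, c' (Prod.map φ φ a) = c a) :
    GB Q' (F.image ψ) c' ω' = GB Q F c ω := by
  unfold GB
  rw [H.dstr_map, Finset.prod_image]
  · refine Finset.prod_congr rfl ?_
    intro X hX
    unfold gB
    rw [fS_map H hc hX]
    by_cases h : Cls Q F ω X
    · rw [if_pos h, if_pos ((cls_map H hX).2 h)]
    · rw [if_neg h, if_neg (fun h' => h ((cls_map H hX).1 h'))]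
  · intro X hX Y hY h
    exact H.image_inj (QMap.dstr_sub hX) (QMap.dstr_sub hY) h

/-- averages over the configurations of an image -/
theorem av_map (hinj : Set.InjOn ψ (F : Set Φ)) (g' : (Φ' → Bool) → ℝ) (g : (Φ → Bool) → ℝ)
    (h : ∀ (ω : Φ → Bool) (ω' : Φ' → Bool), (∀ f ∈ F, ω f = ω' (ψ f)) → g' ω' = g ω) :
    av (F.image ψ) g' = av F g := by
  unfold av
  rw [Finset.card_image_of_injOn hinj]
  congr 1
  symm
  refine Finset.sum_bij (fun T _ => T.image ψ) ?_ ?_ ?_ ?_
  · intro T hT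
    exact Finset.mem_powerset.2 (Finset.image_subset_image (Finset.mem_powerset.1 hT))
  · intro T hT T' hT' h1
    have hT := Finset.mem_powerset.1 hT
    have hT' := Finset.mem_powerset.1 hT'
    ext f
    constructor
    · intro hf
      have h2 : ψ f ∈ T'.image ψ := by rw [← h1]; exact Finset.mem_image_of_mem _ hf
      obtain ⟨g, hg, h3⟩ := Finset.mem_image.1 h2
      rw [← hinj (hT' hg) (hT hf) h3]
      exact hg
    · intro hf
      have h2 : ψ f ∈ T.image ψ := by rw [h1]; exact Finset.mem_image_of_mem _ hf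
      obtain ⟨g, hg, h3⟩ := Finset.mem_image.1 h2
      rw [← hinj (hT hg) (hT' hf) h3]
      exact hg
  · intro T' hT'
    have hT' := Finset.mem_powerset.1 hT'
    refine ⟨F.filter (fun f => ψ f ∈ T'), Finset.mem_powerset.2 (Finset.filter_subset _ _), ?_⟩
    ext f'
    rw [Finset.mem_image]
    constructor
    · rintro ⟨f, hf, rfl⟩
      exact (Finset.mem_filter.1 hf).2
    · intro hf'
      obtain ⟨f, hf, rfl⟩ := Finset.mem_image.1 (hT' hf')
      exact ⟨f, Finset.mem_filter.2 ⟨hf, hf'⟩, rfl⟩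
  · intro T hT
    have hT := Finset.mem_powerset.1 hT
    symm
    refine h _ _ ?_
    intro f hf
    unfold ind
    rw [decide_eq_decide]
    constructor
    · intro hfT
      exact Finset.mem_image_of_mem _ hfT
    · intro hfT
      obtain ⟨g, hg, h3⟩ := Finset.mem_image.1 hfT
      rw [← hinj (hT hg) hf h3]
      exact hg

end

end Pool.Agent.SixB.Op
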