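import Pool.Agent.Lib.SixB.S3OpCylA
import Pool.Agent.Lib.SixB.CylPsi
import Pool.Agent.Lib.SixB.S3Cut

/-!
# 6BD, operator bound (8): slab matrices of the cylinder

`SM N y₀ y₁ h`: the matrix of the slab of the cylinder between the levels `y₀` and `y₁` with weight
`h`. Stacking, shifts, reflections, positivity.
-/

set_option autoImplicit false
set_option linter.unusedSectionVars false

namespace Pool.Agent.SixB.Op

open Pool.Agent.Perc Pool.Agent.Perc.Q Relation Pool.Agent.SixB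

noncomputable section

variable {N : ℕ} [hN : Fact (3 ≤ N)]

/-- directed edges of the cylinder -/
abbrev DC (N : ℕ) := (ZMod N × ℤ) × (ZMod N × ℤ)

/-- the sides of a level -/
def fm (N : ℕ) [Fact (3 ≤ N)] (y : ℤ) : ZMod N → DC N := fun x => bE x y

theorem fam_fm (y : ℤ) : Fam (fm N y) :=
  ⟨fun i j h => (bE_inj h).1, (isFam_lvl (N := N) y).ne⟩

theorem eds_fm (y : ℤ) : eds (fm N y) = lvl N y := by
  ext a
  rw [mem_eds, mem_lvl]
  rfl

theorem cE_fm {y₀ y y₁ : ℤ} (h0 : y₀ < y) (h1 : y < y₁) :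
    cE (CQ N) (cylF N y₀ y) (cylF N y y₁) = eds (fm N y) := by
  rw [eds_fm]
  refine Finset.Subset.antisymm (cE_sub_lvl below_cylF above_cylF) ?_
  intro a ha
  exact Finset.mem_inter.2 ⟨lvl_sub_top h0 ha, lvl_sub_bot h1 ha⟩

theorem cylF_union {y₀ y y₁ : ℤ} (h0 : y₀ ≤ y) (h1 : y ≤ y₁) :
    cylF N y₀ y ∪ cylF N y y₁ = cylF N y₀ y₁ := by
  ext f
  rw [Finset.mem_union, mem_cylF, mem_cylF, mem_cylF]
  omega

theorem eds_disj_above {y y' y₁ : ℤ} (h : y < y') :
    Disjoint (eds (fm N y)) (dE (CQ N) (cylF N y' y₁)) := by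
  rw [eds_fm, Finset.disjoint_left]
  intro a ha ha'
  have h1 := lvl_height ha
  have h2 := (above_cylF (N := N) (y := y') (y₁ := y₁)).height ha'
  omega

theorem eds_disj_below {y y' y₀ : ℤ} (h : y' < y) :
    Disjoint (eds (fm N y)) (dE (CQ N) (cylF N y₀ y')) := by
  rw [eds_fm, Finset.disjoint_left]
  intro a ha ha'
  have h1 := lvl_height ha
  have h2 := (below_cylF (N := N) (y := y') (y₀ := y₀)).height ha'
  omega

/-- the matrix of a slab -/
def SM (N : ℕ) [Fact (3 ≤ N)] (y₀ y₁ : ℤ) (h : DC N → ℂ) :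
    Matrix (ZMod N → Bool) (ZMod N → Bool) ℂ :=
  Mx (CQ N) (cylF N y₀ y₁) h (fm N y₀) (fm N y₁)

theorem SM_mul {y₀ y y₁ : ℤ} (h0 : y₀ < y) (h1 : y < y₁) (h : DC N → ℂ)
    (hh : ∀ a ∈ lvl N y, h a = 1) : SM N y₀ y₁ h = SM N y y₁ h * SM N y₀ y h := by
  unfold SM
  rw [← cylF_union h0.le h1.le]
  refine Mx_mul (CQ N) (cylF N y₀ y) (cylF N y y₁) (disj_of below_cylF above_cylF) (fam_fm y)
    (cE_fm h0 h1) h h h (eds_disj_above h0) (eds_disj_below h1) ?_ (fun _ _ _ => rfl)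
    (fun _ _ _ => rfl)
  intro a ha
  rw [eds_fm] at ha
  rw [hh a ha, mul_one]

theorem SM_congr {y₀ y₁ : ℤ} {h h' : DC N → ℂ}
    (hh : ∀ a ∈ dE (CQ N) (cylF N y₀ y₁), h a = h' a) : SM N y₀ y₁ h = SM N y₀ y₁ h' := by
  ext s' s
  unfold SM Mx
  refine Z6_congr fun a ha => ?_
  rw [hh a ha]

/-! ### transport -/

section transport

variable {V Φ : Type} [DecidableEq V] [DecidableEq Φ] {ι : Type}

/-- **Transport.** -/
theorem Z6_transp {V' Φ' : Type} [DecidableEq V'] [DecidableEq Φ'] {Q : QC V Φ} {Q' : QC V' Φ'}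
    {F : Finset Φ} (g : Φ → Φ') (hg : Set.InjOn g (F : Set Φ)) (u : V × V → V' × V')
    (hu : Set.InjOn u (dE Q F : Set (V × V))) (hs : ∀ a, u a.swap = (u a).swap)
    (hd : dE Q' (F.image g) = (dE Q F).image u) (h : V × V → ℂ) (h' : V' × V' → ℂ)
    (hf : ∀ f ∈ F, ∀ α ∈ Arrs Q F,
      fw (fun k => decide (sd Q' (g f) k ∈ α.image u)) = fw (fun k => decide (sd Q f k ∈ α)))
    (hh : ∀ a ∈ dE Q F, h' (u a) = h a) :
    Z6 Q' (F.image g) h' = Z6 Q F h := by
  have hmem : ∀ α : Finset (V × V), α ⊆ dE Q F → ∀ a ∈ dE Q F, (u a ∈ α.image u ↔ a ∈ α) := by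
    intro α hα a ha
    rw [Finset.mem_image]
    constructor
    · rintro ⟨b, hb, e⟩
      rw [← hu (hα hb) ha e]
      exact hb
    · intro h1
      exact ⟨a, h1, rfl⟩
  symm
  unfold Z6
  refine Finset.sum_bij (fun α _ => α.image u) ?_ ?_ ?_ ?_
  · intro α hα
    obtain ⟨h1, h2⟩ := Finset.mem_filter.mp hα
    have h1 := Finset.mem_powerset.mp h1
    refine Finset.mem_filter.mpr ⟨Finset.mem_powerset.mpr ?_, ?_⟩
    · rw [hd]
      exact Finset.image_subset_image h1
    · intro a' ha'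
      rw [hd] at ha'
      obtain ⟨a, ha, rfl⟩ := Finset.mem_image.mp ha'
      rw [← hs, hmem α h1 a ha, hmem α h1 a.swap (swap_mem_dE.mpr ha)]
      exact h2 a ha
  · intro α hα β hβ e
    have h1 := Finset.mem_powerset.mp (Finset.mem_filter.mp hα).1
    have h2 := Finset.mem_powerset.mp (Finset.mem_filter.mp hβ).1
    ext a
    by_cases ha : a ∈ dE Q F
    · rw [← hmem α h1 a ha, ← hmem β h2 a ha]
      exact ⟨fun h3 => e ▸ h3, fun h3 => e ▸ h3⟩
    · exact ⟨fun h3 => absurd (h1 h3) ha, fun h3 => absurd (h2 h3) ha⟩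
  · intro α' hα'
    obtain ⟨h1, h2⟩ := Finset.mem_filter.mp hα'
    have h1 := Finset.mem_powerset.mp h1
    refine ⟨(dE Q F).filter (fun a => u a ∈ α'), ?_, ?_⟩
    · refine Finset.mem_filter.mpr ⟨Finset.mem_powerset.mpr (Finset.filter_subset _ _), ?_⟩
      intro a ha
      have h3 := h2 (u a) (by rw [hd]; exact Finset.mem_image_of_mem u ha)
      rw [← hs] at h3
      simp only [Finset.mem_filter, ha, true_and, swap_mem_dE.mpr ha]
      exact h3
    · ext a'
      simp only [Finset.mem_image, Finset.mem_filter]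
      constructor
      · rintro ⟨a, ⟨_, h4⟩, rfl⟩
        exact h4
      · intro h3
        have h4 := h1 h3
        rw [hd] at h4
        obtain ⟨a, ha, rfl⟩ := Finset.mem_image.mp h4
        exact ⟨a, ⟨ha, h3⟩, rfl⟩
  · intro α hα
    have h1 := Finset.mem_powerset.mp (Finset.mem_filter.mp hα).1
    rw [Finset.prod_image hg, Finset.prod_image (fun a ha b hb e => hu (h1 ha) (h1 hb) e)]
    congr 1
    · exact Finset.prod_congr rfl fun f hf' => (hf f hf' α hα).symm
    · exact Finset.prod_congr rfl fun a ha => (hh a (h1 ha)).symm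


theorem pin_map {m m' : ι → V × V} {u : V × V → V × V} (hu : Function.Injective u)
    (hs : ∀ a, u a.swap = (u a).swap) (hm : ∀ i, m' i = u (m i)) (s : ι → Bool) (a : V × V) :
    pin m' s (u a) = pin m s a := by
  unfold pin
  have h : (∃ i, (u a = m' i ∧ s i = false) ∨ (u a = (m' i).swap ∧ s i = true)) ↔
      ∃ i, (a = m i ∧ s i = false) ∨ (a = (m i).swap ∧ s i = true) := by
    refine exists_congr fun i => ?_
    rw [hm, ← hs, hu.eq_iff, hu.eq_iff]
  by_cases h1 : ∃ i, (a = m i ∧ s i = false) ∨ (a = (m i).swap ∧ s i = true)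
  · rw [if_pos h1, if_pos (h.2 h1)]
  · rw [if_neg h1, if_neg (fun h2 => h1 (h.1 h2))]

end transport

/-- shift of the vertices and faces -/
def shv (N : ℕ) (t : ℤ) (w : ZMod N × ℤ) : ZMod N × ℤ := (w.1, w.2 + t)

/-- reflection of the vertices, `y ↦ t - y` -/
def rfv (N : ℕ) (t : ℤ) (w : ZMod N × ℤ) : ZMod N × ℤ := (w.1, t - w.2)

/-- reflection of the faces -/
def rff (N : ℕ) (t : ℤ) (w : ZMod N × ℤ) : ZMod N × ℤ := (w.1, t - 1 - w.2)

theorem shv_inj (t : ℤ) : Function.Injective (shv N t) := by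
  rintro ⟨x, y⟩ ⟨x', y'⟩ h
  unfold shv at h
  simp only [Prod.mk.injEq] at h ⊢
  exact ⟨h.1, by omega⟩

theorem rfv_inj (t : ℤ) : Function.Injective (rfv N t) := by
  rintro ⟨x, y⟩ ⟨x', y'⟩ h
  unfold rfv at h
  simp only [Prod.mk.injEq] at h ⊢
  exact ⟨h.1, by omega⟩

theorem rff_inj (t : ℤ) : Function.Injective (rff N t) := by
  rintro ⟨x, y⟩ ⟨x', y'⟩ h
  unfold rff at h
  simp only [Prod.mk.injEq] at h ⊢
  exact ⟨h.1, by omega⟩

theorem prodmap_inj {φ : ZMod N × ℤ → ZMod N × ℤ} (h : Function.Injective φ) :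
    Function.Injective (Prod.map φ φ) := h.prodMap h

theorem sd_shv (t : ℤ) (f : ZMod N × ℤ) (k : ZMod 4) :
    sd (CQ N) (shv N t f) k = Prod.map (shv N t) (shv N t) (sd (CQ N) f k) := by
  have key : ∀ k, corC N (shv N t f) k = shv N t (corC N f k) := by
    intro k
    rcases k4_cases k with rfl | rfl | rfl | rfl
    · rfl
    · rfl
    · rw [corC_2, corC_2]
      unfold shv
      simp only [Prod.mk.injEq, true_and]
      ring
    · rw [corC_3, corC_3]
      unfold shv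
      simp only [Prod.mk.injEq, true_and]
      ring
  unfold sd
  exact Prod.ext (key k) (key (k + 1))

theorem sd_rff (t : ℤ) (f : ZMod N × ℤ) (k : ZMod 4) :
    sd (CQ N) (rff N t f) k = Prod.map (rfv N t) (rfv N t) (sd (CQ N) f (2 - k)).swap := by
  have e0 : corC N (rff N t f) 0 = rfv N t (corC N f 3) := by
    rw [corC_0, corC_3]
    unfold rff rfv
    simp only [Prod.mk.injEq, true_and]
    ring
  have e1 : corC N (rff N t f) 1 = rfv N t (corC N f 2) := by
    rw [corC_1, corC_2]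
    unfold rff rfv
    simp only [Prod.mk.injEq, true_and]
    ring
  have e2 : corC N (rff N t f) 2 = rfv N t (corC N f 1) := by
    rw [corC_2, corC_1]
    unfold rff rfv
    simp only [Prod.mk.injEq, true_and]
    ring
  have e3 : corC N (rff N t f) 3 = rfv N t (corC N f 0) := by
    rw [corC_3, corC_0]
    unfold rff rfv
    simp only [Prod.mk.injEq, true_and]
    ring
  rcases k4_cases k with rfl | rfl | rfl | rfl
  · exact Prod.ext e0 e1
  · exact Prod.ext e1 e2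
  · exact Prod.ext e2 e3
  · exact Prod.ext e3 e0

theorem image_shv (t y₀ y₁ : ℤ) : (cylF N y₀ y₁).image (shv N t) = cylF N (y₀ + t) (y₁ + t) := by
  ext f
  rw [Finset.mem_image, mem_cylF]
  constructor
  · rintro ⟨g, hg, rfl⟩
    rw [mem_cylF] at hg
    unfold shv
    simp only
    omega
  · intro hf
    refine ⟨(f.1, f.2 - t), ?_, ?_⟩
    · rw [mem_cylF]
      simp only
      omega
    · unfold shv
      simp

theorem image_rff (t y₀ y₁ : ℤ) : (cylF N y₀ y₁).image (rff N t) = cylF N (t - y₁) (t - y₀) := by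
  ext f
  rw [Finset.mem_image, mem_cylF]
  constructor
  · rintro ⟨g, hg, rfl⟩
    rw [mem_cylF] at hg
    unfold rff
    simp only
    omega
  · intro hf
    refine ⟨(f.1, t - 1 - f.2), ?_, ?_⟩
    · rw [mem_cylF]
      simp only
      omega
    · unfold rff
      simp

theorem dE_of_sides {Q : QC (ZMod N × ℤ) (ZMod N × ℤ)} {F : Finset (ZMod N × ℤ)}
    {g : ZMod N × ℤ → ZMod N × ℤ} {u : DC N → DC N} {σ : ZMod 4 → ZMod 4}
    (hσ : ∀ k, σ (σ k) = k) (hs : ∀ a, u a.swap = (u a).swap)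
    (h : ∀ f k, sd Q (g f) k = u (sd Q f (σ k)) ∨ sd Q (g f) k = u (sd Q f (σ k)).swap) :
    dE Q (F.image g) = (dE Q F).image u := by
  ext a
  rw [mem_dE, Finset.mem_image]
  constructor
  · rintro ⟨f', hf', k, h1⟩
    obtain ⟨f, hf, rfl⟩ := Finset.mem_image.1 hf'
    rcases h f k with h2 | h2 <;> rcases h1 with rfl | rfl
    · exact ⟨_, mem_dE.2 ⟨f, hf, σ k, Or.inl rfl⟩, h2.symm⟩
    · exact ⟨_, mem_dE.2 ⟨f, hf, σ k, Or.inr rfl⟩, by rw [h2, hs]⟩
    · exact ⟨_, mem_dE.2 ⟨f, hf, σ k, Or.inr rfl⟩, h2.symm⟩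
    · exact ⟨_, mem_dE.2 ⟨f, hf, σ k, Or.inl rfl⟩, by rw [h2, hs, Prod.swap_swap]⟩
  · rintro ⟨b, hb, rfl⟩
    obtain ⟨f, hf, k, h1⟩ := mem_dE.1 hb
    have h3 := h f (σ k)
    rw [hσ] at h3
    refine ⟨g f, Finset.mem_image_of_mem _ hf, σ k, ?_⟩
    rcases h3 with h2 | h2 <;> rcases h1 with rfl | rfl
    · exact Or.inl h2.symm
    · right; rw [h2, hs]
    · right; rw [h2, hs, Prod.swap_swap]
    · exact Or.inl h2.symm

theorem map_swap {φ : ZMod N × ℤ → ZMod N × ℤ} (a : DC N) :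
    Prod.map φ φ a.swap = (Prod.map φ φ a).swap := rfl

/-- shifts -/
theorem SM_shift (t y₀ y₁ : ℤ) {h h' : DC N → ℂ}
    (hh : ∀ a ∈ dE (CQ N) (cylF N y₀ y₁), h' (Prod.map (shv N t) (shv N t) a) = h a) :
    SM N (y₀ + t) (y₁ + t) h' = SM N y₀ y₁ h := by
  ext s' s
  unfold SM Mx
  rw [← image_shv]
  have hu := prodmap_inj (shv_inj (N := N) t)
  have hdE : dE (CQ N) ((cylF N y₀ y₁).image (shv N t)) =
      (dE (CQ N) (cylF N y₀ y₁)).image (Prod.map (shv N t) (shv N t)) :=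
    dE_of_sides (σ := id) (fun _ => rfl) map_swap (fun f k => Or.inl (sd_shv t f k))
  refine Z6_transp (shv N t) ((shv_inj t).injOn) (Prod.map (shv N t) (shv N t)) hu.injOn
    map_swap hdE _ _ ?_ ?_
  · intro f hf α hα
    congr 1
    funext k
    rw [sd_shv, decide_eq_decide]
    exact hu.mem_finset_image
  · intro a ha
    have p0 : pin (fm N (y₀ + t)) s (Prod.map (shv N t) (shv N t) a) = pin (fm N y₀) s a :=
      pin_map (m := fm N y₀) (m' := fm N (y₀ + t)) hu map_swap (fun i => rfl) s a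
    have p1 : pin (fm N (y₁ + t)) s' (Prod.map (shv N t) (shv N t) a) = pin (fm N y₁) s' a :=
      pin_map (m := fm N y₁) (m' := fm N (y₁ + t)) hu map_swap (fun i => rfl) s' a
    rw [hh a ha, p0, p1]

theorem fw_flip (x y : ZMod 4 → Bool) (h : ∀ k, y k = !x (2 - k)) : fw y = fw x := by
  have e0 : (2 : ZMod 4) - 0 = 2 := by decide
  have e1 : (2 : ZMod 4) - 1 = 1 := by decide
  have e2 : (2 : ZMod 4) - 2 = 0 := by decide
  have e3 : (2 : ZMod 4) - 3 = 3 := by decide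
  unfold fw
  rw [h 0, h 1, h 2, h 3, e0, e1, e2, e3]
  cases x 0 <;> cases x 1 <;> cases x 2 <;> cases x 3 <;> simp

/-- reflections -/
theorem SM_refl (t y₀ y₁ : ℤ) {h h' : DC N → ℂ}
    (hh : ∀ a ∈ dE (CQ N) (cylF N y₀ y₁), h' (Prod.map (rfv N t) (rfv N t) a) = h a)
    (s' s : ZMod N → Bool) : SM N (t - y₁) (t - y₀) h' s s' = SM N y₀ y₁ h s' s := by
  unfold SM Mx
  rw [← image_rff]
  have hu := prodmap_inj (rfv_inj (N := N) t)
  have hdE : dE (CQ N) ((cylF N y₀ y₁).image (rff N t)) =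
      (dE (CQ N) (cylF N y₀ y₁)).image (Prod.map (rfv N t) (rfv N t)) :=
    dE_of_sides (σ := fun k => 2 - k) (fun k => by ring) map_swap
      (fun f k => Or.inr (sd_rff t f k))
  refine Z6_transp (rff N t) ((rff_inj t).injOn) (Prod.map (rfv N t) (rfv N t)) hu.injOn
    map_swap hdE _ _ ?_ ?_
  · intro f hf α hα
    have key : ∀ k, decide (sd (CQ N) (rff N t f) k ∈ α.image (Prod.map (rfv N t) (rfv N t))) =
        !decide (sd (CQ N) f (2 - k) ∈ α) := by
      intro k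
      rw [sd_rff]
      have h1 : (Prod.map (rfv N t) (rfv N t) (sd (CQ N) f (2 - k)).swap ∈
          α.image (Prod.map (rfv N t) (rfv N t))) ↔ ¬ sd (CQ N) f (2 - k) ∈ α := by
        rw [hu.mem_finset_image]
        have h2 := (Finset.mem_filter.1 hα).2 (sd (CQ N) f (2 - k))
          (mem_dE.2 ⟨f, hf, 2 - k, Or.inl rfl⟩)
        rw [h2, not_not]
      by_cases h3 : sd (CQ N) f (2 - k) ∈ α
      · rw [decide_eq_false (fun h4 => (h1.1 h4) h3), decide_eq_true h3]
        rfl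
      · rw [decide_eq_true (h1.2 h3), decide_eq_false h3]
        rfl
    exact fw_flip _ _ key
  · intro a ha
    have p0 : pin (fm N (t - y₀)) s (Prod.map (rfv N t) (rfv N t) a) = pin (fm N y₀) s a :=
      pin_map (m := fm N y₀) (m' := fm N (t - y₀)) hu map_swap (fun i => rfl) s a
    have p1 : pin (fm N (t - y₁)) s' (Prod.map (rfv N t) (rfv N t) a) = pin (fm N y₁) s' a :=
      pin_map (m := fm N y₁) (m' := fm N (t - y₁)) hu map_swap (fun i => rfl) s' a
    rw [hh a ha, p0, p1]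
    ring

end

end Pool.Agent.SixB.Op
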