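import Pool.Agent.Lib.SixB.S3OpCylB
import Pool.Agent.Lib.SixB.CylTurns
import Pool.Agent.Lib.SixB.S3OpBoxD

/-!
# 6BD, operator bound (9): positivity, the inserted matrix, boxes on the cylinder
-/

set_option autoImplicit false
set_option linter.unusedSectionVars false

namespace Pool.Agent.SixB.Op

open Pool.Agent.Perc Pool.Agent.Perc.Q Relation Pool.Agent.SixB Pool.Agent.PercD

noncomputable section

variable {N : ℕ} [hN : Fact (3 ≤ N)]

/-! ### positivity -/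

theorem fw_norm (x : ZMod 4 → Bool) : fw x = ((‖fw x‖ : ℝ) : ℂ) := by
  unfold fw
  split_ifs
  · rw [Complex.norm_real, Real.norm_of_nonneg (Real.sqrt_nonneg 3)]
  · simp
  · simp
  · simp

section gen

variable {V Φ : Type} [DecidableEq V] [DecidableEq Φ] {Q : QC V Φ} {F : Finset Φ} {ι : Type}

/-- the weight of an arrow configuration -/
def wr (Q : QC V Φ) (F : Finset Φ) (α : Finset (V × V)) : ℝ :=
  ∏ f ∈ F, ‖fw (fun k => decide (sd Q f k ∈ α))‖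

theorem wr_nonneg (α : Finset (V × V)) : 0 ≤ wr Q F α :=
  Finset.prod_nonneg fun _ _ => norm_nonneg _

theorem wr_eq (α : Finset (V × V)) :
    ∏ f ∈ F, fw (fun k => decide (sd Q f k ∈ α)) = ((wr Q F α : ℝ) : ℂ) := by
  unfold wr
  rw [Complex.ofReal_prod]
  exact Finset.prod_congr rfl fun f _ => fw_norm _

theorem pin_norm (m : ι → V × V) (s : ι → Bool) (a : V × V) :
    pin m s a = ((‖pin m s a‖ : ℝ) : ℂ) ∧ ‖pin m s a‖ ≤ 1 := by
  unfold pin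
  split_ifs <;> simp

theorem prod_hC (c : V × V → ℝ) (α : Finset (V × V)) :
    ∏ a ∈ α, hC c a = ((Real.exp (∑ a ∈ α, c a) : ℝ) : ℂ) := by
  unfold hC
  rw [Real.exp_sum, Complex.ofReal_prod]

theorem Z6_real (c : V × V → ℝ) :
    Z6 Q F (hC c) = ((∑ α ∈ Arrs Q F, wr Q F α * Real.exp (∑ a ∈ α, c a) : ℝ) : ℂ) := by
  unfold Z6
  rw [Complex.ofReal_sum]
  refine Finset.sum_congr rfl fun α _ => ?_
  rw [wr_eq, prod_hC, Complex.ofReal_mul]

end gen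

/-- the indicator of the two levels -/
def PR (N : ℕ) [Fact (3 ≤ N)] (y₀ y₁ : ℤ) (s' s : ZMod N → Bool) (α : Finset (DC N)) : ℝ :=
  ∏ a ∈ α, (‖pin (fm N y₀) s a‖ * ‖pin (fm N y₁) s' a‖)

theorem PR_nonneg (y₀ y₁ : ℤ) (s' s : ZMod N → Bool) (α : Finset (DC N)) :
    0 ≤ PR N y₀ y₁ s' s α :=
  Finset.prod_nonneg fun _ _ => mul_nonneg (norm_nonneg _) (norm_nonneg _)

theorem PR_le_one (y₀ y₁ : ℤ) (s' s : ZMod N → Bool) (α : Finset (DC N)) :
    PR N y₀ y₁ s' s α ≤ 1 := by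
  refine Finset.prod_le_one (fun _ _ => mul_nonneg (norm_nonneg _) (norm_nonneg _)) ?_
  intro a _
  exact mul_le_one₀ (pin_norm _ _ _).2 (norm_nonneg _) (pin_norm _ _ _).2

theorem PR_eq (y₀ y₁ : ℤ) (s' s : ZMod N → Bool) (α : Finset (DC N)) :
    ∏ a ∈ α, (pin (fm N y₀) s a * pin (fm N y₁) s' a) = ((PR N y₀ y₁ s' s α : ℝ) : ℂ) := by
  unfold PR
  rw [Complex.ofReal_prod]
  refine Finset.prod_congr rfl fun a _ => ?_
  rw [Complex.ofReal_mul, ← (pin_norm _ _ _).1, ← (pin_norm _ _ _).1]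

/-- the entries of the matrix of a slab, real -/
def SMr (N : ℕ) [Fact (3 ≤ N)] (y₀ y₁ : ℤ) (c : DC N → ℝ) :
    Matrix (ZMod N → Bool) (ZMod N → Bool) ℝ := fun s' s =>
  ∑ α ∈ Arrs (CQ N) (cylF N y₀ y₁), wr (CQ N) (cylF N y₀ y₁) α * Real.exp (∑ a ∈ α, c a) *
    PR N y₀ y₁ s' s α

theorem SM_eq_toC (y₀ y₁ : ℤ) (c : DC N → ℝ) : SM N y₀ y₁ (hC c) = toC (SMr N y₀ y₁ c) := by
  ext s' s
  rw [toC_apply]
  unfold SM Mx Z6 SMr
  rw [Complex.ofReal_sum]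
  refine Finset.sum_congr rfl fun α _ => ?_
  rw [Complex.ofReal_mul, Complex.ofReal_mul, wr_eq, mul_assoc]
  congr 1
  rw [← prod_hC, ← PR_eq, ← Finset.prod_mul_distrib]
  refine Finset.prod_congr rfl fun a _ => ?_
  ring

theorem SMr_nonneg (y₀ y₁ : ℤ) (c : DC N → ℝ) (s' s : ZMod N → Bool) : 0 ≤ SMr N y₀ y₁ c s' s :=
  Finset.sum_nonneg fun α _ => mul_nonneg (mul_nonneg (wr_nonneg α) (Real.exp_pos _).le)
    (PR_nonneg _ _ _ _ _)

/-- the entries are bounded by the total sum -/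
theorem SM_entry_le (y₀ y₁ : ℤ) (c : DC N → ℝ) (s' s : ZMod N → Bool) :
    ‖SM N y₀ y₁ (hC c) s' s‖ ≤ ‖Z6 (CQ N) (cylF N y₀ y₁) (hC c)‖ := by
  rw [SM_eq_toC, toC_apply, Z6_real, Complex.norm_real, Complex.norm_real,
    Real.norm_of_nonneg (SMr_nonneg _ _ _ _ _), Real.norm_of_nonneg]
  · unfold SMr
    refine Finset.sum_le_sum fun α _ => ?_
    exact mul_le_of_le_one_right (mul_nonneg (wr_nonneg α) (Real.exp_pos _).le)
      (PR_le_one _ _ _ _ _)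
  · exact Finset.sum_nonneg fun α _ => mul_nonneg (wr_nonneg α) (Real.exp_pos _).le

/-- the matrix of a slab with the sum of a one-form over the arrows inserted -/
def JM (N : ℕ) [Fact (3 ≤ N)] (y₀ y₁ : ℤ) (c : DC N → ℝ) :
    Matrix (ZMod N → Bool) (ZMod N → Bool) ℂ := fun s' s =>
  ∑ α ∈ Arrs (CQ N) (cylF N y₀ y₁),
    (∏ f ∈ cylF N y₀ y₁, fw (fun k => decide (sd (CQ N) f k ∈ α))) *
      (((∑ a ∈ α, c a : ℝ) : ℂ)) * ∏ a ∈ α, (pin (fm N y₀) s a * pin (fm N y₁) s' a)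

theorem abs_le_exp (x : ℝ) : |x| ≤ Real.exp x + Real.exp (-x) := by
  have h1 := Real.add_one_le_exp x
  have h2 := Real.add_one_le_exp (-x)
  have h3 := Real.exp_pos x
  have h4 := Real.exp_pos (-x)
  rcases abs_cases x with ⟨h, -⟩ | ⟨h, -⟩ <;> rw [h] <;> linarith

theorem JM_entry_le (y₀ y₁ : ℤ) (c : DC N → ℝ) (s' s : ZMod N → Bool) :
    ‖JM N y₀ y₁ c s' s‖ ≤ SMr N y₀ y₁ c s' s + SMr N y₀ y₁ (fun a => - c a) s' s := by
  unfold JM SMr
  refine (norm_sum_le _ _).trans ?_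
  rw [← Finset.sum_add_distrib]
  refine Finset.sum_le_sum fun α _ => ?_
  rw [wr_eq, PR_eq, norm_mul, norm_mul, Complex.norm_real, Complex.norm_real, Complex.norm_real,
    Real.norm_of_nonneg (wr_nonneg α), Real.norm_of_nonneg (PR_nonneg _ _ _ _ _),
    Real.norm_eq_abs, Finset.sum_neg_distrib, ← add_mul, ← mul_add]
  exact mul_le_mul_of_nonneg_right (mul_le_mul_of_nonneg_left (abs_le_exp _) (wr_nonneg α))
    (PR_nonneg _ _ _ _ _)

open scoped Matrix.Norms.L2Operator in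
theorem JM_norm_le (y₀ y₁ : ℤ) (c : DC N → ℝ) :
    ‖JM N y₀ y₁ c‖ ≤ ‖SM N y₀ y₁ (hC c)‖ + ‖SM N y₀ y₁ (hC (fun a => - c a))‖ := by
  refine (norm_le_of_dom _ (SMr N y₀ y₁ c + SMr N y₀ y₁ (fun a => - c a))
    (fun s' s => JM_entry_le y₀ y₁ c s' s)).trans ?_
  have h : toC (SMr N y₀ y₁ c + SMr N y₀ y₁ (fun a => - c a)) =
      SM N y₀ y₁ (hC c) + SM N y₀ y₁ (hC (fun a => - c a)) := by
    rw [SM_eq_toC, SM_eq_toC]
    ext s' s
    rw [Matrix.add_apply, toC_apply, toC_apply, toC_apply, Matrix.add_apply]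
    push_cast
    rfl
  rw [h]
  exact norm_add_le _ _

/-! ### one-forms of functions on the cylinder -/

/-- the gradient of `g` on the edges of a slab -/
def cS (N : ℕ) [Fact (3 ≤ N)] (y₀ y₁ : ℤ) (g : ZMod N × ℤ → ℝ) (a : DC N) : ℝ :=
  if a ∈ dE (CQ N) (cylF N y₀ y₁) then g a.2 - g a.1 else 0

/-- the function vanishes on and outside the levels -/
def Van (y₀ y₁ : ℤ) (g : ZMod N × ℤ → ℝ) : Prop := ∀ w : ZMod N × ℤ, w.2 ≤ y₀ ∨ y₁ ≤ w.2 → g w = 0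

theorem cS_zero {y₀ y₁ : ℤ} {g : ZMod N × ℤ → ℝ} (hg : Van y₀ y₁ g) {a : DC N}
    (h : (a.1.2 ≤ y₀ ∧ a.2.2 ≤ y₀) ∨ (y₁ ≤ a.1.2 ∧ y₁ ≤ a.2.2)) : cS N y₀ y₁ g a = 0 := by
  unfold cS
  split_ifs
  · rcases h with ⟨h1, h2⟩ | ⟨h1, h2⟩
    · rw [hg a.1 (Or.inl h1), hg a.2 (Or.inl h2), sub_zero]
    · rw [hg a.1 (Or.inr h1), hg a.2 (Or.inr h2), sub_zero]
  · rfl

theorem swap_mem_dE' {F : Finset (ZMod N × ℤ)} {a : DC N} :
    a.swap ∈ dE (CQ N) F ↔ a ∈ dE (CQ N) F := Pool.Agent.SixB.swap_mem_dE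

theorem cS_swap (y₀ y₁ : ℤ) (g : ZMod N × ℤ → ℝ) (a : DC N) :
    cS N y₀ y₁ g a.swap = - cS N y₀ y₁ g a := by
  unfold cS
  by_cases h : a ∈ dE (CQ N) (cylF N y₀ y₁)
  · rw [if_pos h, if_pos (swap_mem_dE'.2 h)]
    simp only [Prod.fst_swap, Prod.snd_swap]
    ring
  · rw [if_neg h, if_neg (fun h' => h (swap_mem_dE'.1 h')), neg_zero]

/-! ### stacks -/

/-- the one-form of a stack of slabs of height `H` -/
def cst (N : ℕ) [Fact (3 ≤ N)] (H : ℤ) (g : ℕ → ZMod N × ℤ → ℝ) (n : ℕ) (a : DC N) : ℝ :=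
  ∑ i ∈ Finset.range n, cS N (i * H) ((i + 1) * H) (g i) a

/-- the product of the matrices of the slabs -/
def prodM (N : ℕ) [Fact (3 ≤ N)] (H : ℤ) (g : ℕ → ZMod N × ℤ → ℝ) :
    ℕ → Matrix (ZMod N → Bool) (ZMod N → Bool) ℂ
  | 0 => 1
  | n + 1 => SM N (n * H) ((n + 1) * H) (hC (cS N (n * H) ((n + 1) * H) (g n))) * prodM N H g n

theorem stack {H : ℤ} (hH : 0 < H) {g : ℕ → ZMod N × ℤ → ℝ}
    (hg : ∀ i : ℕ, Van (i * H) ((i + 1) * H) (g i)) (n : ℕ) :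
    SM N 0 ((n + 1) * H) (hC (cst N H g (n + 1))) = prodM N H g (n + 1) := by
  induction n with
  | zero =>
    unfold prodM prodM
    rw [mul_one]
    simp only [Nat.cast_zero, zero_mul]
    congr 2
    funext a
    unfold cst
    rw [Finset.sum_range_one]
    simp only [Nat.cast_zero, zero_mul]
  | succ n ih =>
    have hn : (0 : ℤ) ≤ n := Int.natCast_nonneg n
    have h1 : (0 : ℤ) < ((n + 1 : ℕ) : ℤ) * H := by
      push_cast
      positivity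
    have h2 : ((n + 1 : ℕ) : ℤ) * H < (((n + 1 : ℕ) : ℤ) + 1) * H := by
      nlinarith
    have hlow : ∀ a : DC N, (a.1.2 ≤ ((n + 1 : ℕ) : ℤ) * H ∧ a.2.2 ≤ ((n + 1 : ℕ) : ℤ) * H) →
        cst N H g (n + 1 + 1) a = cst N H g (n + 1) a := by
      intro a ha
      unfold cst
      rw [Finset.sum_range_succ, cS_zero (hg (n + 1)) (Or.inl ha), add_zero]
    have hup : ∀ a : DC N, (((n + 1 : ℕ) : ℤ) * H ≤ a.1.2 ∧ ((n + 1 : ℕ) : ℤ) * H ≤ a.2.2) →
        cst N H g (n + 1 + 1) a = cS N (((n + 1 : ℕ) : ℤ) * H) ((((n + 1 : ℕ) : ℤ) + 1) * H)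
          (g (n + 1)) a := by
      intro a ha
      unfold cst
      rw [Finset.sum_range_succ, Finset.sum_eq_zero, zero_add]
      intro i hi
      rw [Finset.mem_range] at hi
      refine cS_zero (hg i) (Or.inr ?_)
      have h3 : ((i : ℤ) + 1) * H ≤ ((n + 1 : ℕ) : ℤ) * H := by
        have : (i : ℤ) + 1 ≤ ((n + 1 : ℕ) : ℤ) := by exact_mod_cast hi
        nlinarith
      exact ⟨h3.trans ha.1, h3.trans ha.2⟩
    rw [SM_mul h1 h2]
    · change _ = SM N (((n + 1 : ℕ) : ℤ) * H) ((((n + 1 : ℕ) : ℤ) + 1) * H)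
        (hC (cS N (((n + 1 : ℕ) : ℤ) * H) ((((n + 1 : ℕ) : ℤ) + 1) * H) (g (n + 1)))) *
          prodM N H g (n + 1)
      rw [← ih]
      congr 1
      · refine SM_congr fun a ha => ?_
        unfold hC
        rw [hup a (above_cylF.height ha)]
      · refine SM_congr fun a ha => ?_
        unfold hC
        rw [hlow a ?_]
        have := (below_cylF (N := N)).height ha
        push_cast
        exact this
    · intro a ha
      have h3 := lvl_height ha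
      unfold hC
      rw [hlow a ⟨h3.1.le, h3.2.le⟩]
      unfold cst
      rw [Finset.sum_eq_zero]
      · simp
      · intro i hi
        rw [Finset.mem_range] at hi
        refine cS_zero (hg i) (Or.inr ?_)
        have h3 : ((i : ℤ) + 1) * H ≤ ((n + 1 : ℕ) : ℤ) * H := by
          have : (i : ℤ) + 1 ≤ ((n + 1 : ℕ) : ℤ) := by exact_mod_cast hi
          nlinarith
        rw [← (lvl_height ha).1] at h3
        exact ⟨h3, by rw [(lvl_height ha).2]; rw [(lvl_height ha).1] at h3; exact h3⟩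

end

end Pool.Agent.SixB.Op
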