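import Pool.Agent.Lib.SixB.S3OpCylC

/-!
# 6BD, operator bound (10): boxes on the cylinder, growth of the stacks
-/

set_option autoImplicit false
set_option linter.unusedSectionVars false

namespace Pool.Agent.SixB.Op

open Pool.Agent.Perc Pool.Agent.Perc.Q Relation Pool.Agent.SixB Pool.Agent.PercD Pool.Agent.SixB.Rel

noncomputable section

variable {N : ℕ} [hN : Fact (3 ≤ N)] {v : ℤ × ℤ} {K : ℕ} {R : ℤ} {f : ℤ × ℤ → ℝ} {K₀ : ℝ}

/-! ### the chart -/

theorem pN_inj {x₀ : ℤ} {p q : ℤ × ℤ} (h : pN N p = pN N q) (hp : x₀ ≤ p.1 ∧ p.1 < x₀ + N)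
    (hq : x₀ ≤ q.1 ∧ q.1 < x₀ + N) : p = q := by
  unfold pN at h
  simp only [Prod.mk.injEq] at h
  obtain ⟨h1, h2⟩ := h
  rw [ZMod.intCast_eq_intCast_iff_dvd_sub] at h1
  obtain ⟨k, hk⟩ := h1
  have hN0 : (0 : ℤ) < N := by have := hN.out; omega
  have hk0 : k = 0 := by
    by_contra hne
    rcases lt_or_gt_of_ne hne with h3 | h3
    · have : (N : ℤ) * k ≤ -N := by nlinarith
      omega
    · have : (N : ℤ) ≤ N * k := by nlinarith
      omega
  rw [hk0, mul_zero] at hk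
  exact Prod.ext (by omega) h2

theorem cor0_VB {g : ℤ × ℤ} (hg : g ∈ BR v R) (k : ZMod 4) : InV v R (cor0 g k) := by
  rw [mem_BR] at hg
  unfold InV
  rcases k4_cases k with rfl | rfl | rfl | rfl
  · rw [cor0_0]; omega
  · rw [cor0_1]; simp only; omega
  · rw [cor0_2]; simp only; omega
  · rw [cor0_3]; simp only; omega

theorem chart_qmap (hRN : 2 * R < N) {ω : Cfg} {ω' : ZMod N × ℤ → Bool}
    (h : ∀ f ∈ BR v R, ω f = ω' (pN N f)) :
    QMap ZQ (CQ N) (BR v R) ω ω' (pN N) (pN N) 0 where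
  inj := by
    intro f hf g hg k l h1
    have h2 := cor0_VB hf k
    have h3 := cor0_VB hg l
    unfold InV at h2 h3
    exact pN_inj (x₀ := v.1 - R) h1 (by change _ ≤ (cor0 f k).1 ∧ (cor0 f k).1 < _; omega)
      (by change _ ≤ (cor0 g l).1 ∧ (cor0 g l).1 < _; omega)
  cor := by
    intro f _ k
    rw [add_zero]
    exact corC_pN f k
  cfg := by
    intro f hf k
    rw [add_zero, h f hf]

theorem pN_injOn (hRN : 2 * R < N) : Set.InjOn (pN N) (BR v R : Set (ℤ × ℤ)) := by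
  intro p hp q hq h
  rw [Finset.mem_coe, mem_BR] at hp hq
  exact pN_inj (x₀ := v.1 - R) h (by omega) (by omega)

/-! ### functions on the cylinder -/

/-- the function `f` of the plane on the fundamental domain `x₀ ≤ x < x₀ + N` -/
def gC (N : ℕ) (x₀ : ℤ) (f : ℤ × ℤ → ℝ) (w : ZMod N × ℤ) : ℝ :=
  f (x₀ + ((w.1 - (x₀ : ZMod N)).val : ℤ), w.2)

/-- the lift to the fundamental domain -/
def lft0 (N : ℕ) (x₀ : ℤ) (w : ZMod N × ℤ) : ℤ × ℤ := (x₀ + ((w.1 - (x₀ : ZMod N)).val : ℤ), w.2)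

theorem pN_lft0 (x₀ : ℤ) (w : ZMod N × ℤ) : pN N (lft0 N x₀ w) = w := by
  unfold pN lft0
  refine Prod.ext ?_ rfl
  simp only
  push_cast
  have hN0 : NeZero N := ⟨by have := hN.out; omega⟩
  rw [ZMod.natCast_zmod_val]
  ring

theorem lft0_pN {x₀ : ℤ} {p : ℤ × ℤ} (hp : x₀ ≤ p.1 ∧ p.1 < x₀ + N) : lft0 N x₀ (pN N p) = p := by
  refine pN_inj (x₀ := x₀) (pN_lft0 x₀ _) ?_ hp
  have hN0 : NeZero N := ⟨by have := hN.out; omega⟩
  unfold lft0
  simp only
  have := ZMod.val_lt ((pN N p).1 - (x₀ : ZMod N))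
  omega

theorem gC_pN {x₀ : ℤ} {p : ℤ × ℤ} (hp : x₀ ≤ p.1 ∧ p.1 < x₀ + N) : gC N x₀ f (pN N p) = f p := by
  change f (lft0 N x₀ (pN N p)) = f p
  rw [lft0_pN hp]

theorem image_sub {y₀ y₁ : ℤ} (h0 : y₀ ≤ v.2 - R) (h1 : v.2 + R ≤ y₁) :
    (BR v R).image (pN N) ⊆ cylF N y₀ y₁ := by
  intro w hw
  obtain ⟨p, hp, rfl⟩ := Finset.mem_image.1 hw
  rw [mem_BR] at hp
  rw [mem_cylF]
  unfold pN
  simp only
  omega

theorem cS_box (hRN : 2 * R < N) {y₀ y₁ : ℤ} (h0 : y₀ ≤ v.2 - R) (h1 : v.2 + R ≤ y₁)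
    {ω : Cfg} {ω' : ZMod N × ℤ → Bool} (h : ∀ f ∈ BR v R, ω f = ω' (pN N f)) :
    ∀ a ∈ dE ZQ (BR v R), cS N y₀ y₁ (gC N (v.1 - R) f) (Prod.map (pN N) (pN N) a) =
      cB (BR v R) f a := by
  intro a ha
  have h2 : Prod.map (pN N) (pN N) a ∈ dE (CQ N) (cylF N y₀ y₁) := by
    refine dE_mono (image_sub h0 h1) ?_
    rw [(chart_qmap hRN h).dE_map]
    exact Finset.mem_image_of_mem _ ha
  unfold cS cB
  rw [if_pos h2, if_pos ha]
  obtain ⟨h3, h4, -⟩ := dE_nbd (x₀ := v.1 - R) (x₁ := v.1 + R) (y₀ := v.2 - R) (y₁ := v.2 + R) ha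
  rw [mem_VB] at h3 h4
  change gC N (v.1 - R) f (pN N a.2) - gC N (v.1 - R) f (pN N a.1) = _
  rw [gC_pN (by omega), gC_pN (by omega)]

theorem cS_supp (hb : BoxD v K R f K₀) {y₀ y₁ : ℤ} {a : DC N}
    (h : cS N y₀ y₁ (gC N (v.1 - R) f) a ≠ 0) :
    ∃ g ∈ (BR v R).image (pN N), ∃ k, a = sd (CQ N) g k := by
  unfold cS at h
  split_ifs at h with hE
  · have key : ∀ b : DC N, b ∈ dE (CQ N) (cylF N y₀ y₁) → gC N (v.1 - R) f b.1 ≠ 0 →
        ∃ b₀ : (ℤ × ℤ) × (ℤ × ℤ), SixB.UE b₀ ∧ pE N b₀ = b ∧ InV v (2 ^ K) b₀.1 := by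
      intro b hbE hb0
      obtain ⟨b₀, hu, hp⟩ := exists_ue hbE
      have h1 : InV v (2 ^ K) (lft0 N (v.1 - R) b.1) := by
        by_contra hc
        exact hb0 (hb.supp _ hc)
      have h2 : pN N b₀.1 = pN N (lft0 N (v.1 - R) b.1) := by
        rw [pN_lft0, ← hp]
        rfl
      have h3 : ∃ m, lft0 N (v.1 - R) b.1 = tau N m b₀.1 := by
        unfold pN at h2
        simp only [Prod.mk.injEq] at h2
        obtain ⟨h4, h5⟩ := h2
        rw [ZMod.intCast_eq_intCast_iff_dvd_sub] at h4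
        obtain ⟨m, hm⟩ := h4
        refine ⟨m, ?_⟩
        unfold tau
        exact Prod.ext (by simp only; omega) h5.symm
      obtain ⟨m, hm⟩ := h3
      refine ⟨tauE N m b₀, tauE_UE hu, by rw [pE_tauE, hp], ?_⟩
      change InV v (2 ^ K) (tau N m b₀.1)
      rw [← hm]
      exact h1
    have key2 : ∃ b₀ : (ℤ × ℤ) × (ℤ × ℤ), SixB.UE b₀ ∧ pE N b₀ = a ∧
        (InV v (2 ^ K) b₀.1 ∨ InV v (2 ^ K) b₀.2) := by
      by_cases h1 : gC N (v.1 - R) f a.1 = 0
      · have h2 : gC N (v.1 - R) f a.swap.1 ≠ 0 := by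
          intro h3
          apply h
          rw [h1]
          change gC N (v.1 - R) f a.swap.1 - 0 = 0
          rw [h3, sub_zero]
        obtain ⟨b₀, hu, hp, hi⟩ := key a.swap (swap_mem_dE'.2 hE) h2
        refine ⟨b₀.swap, hu.swap, by rw [pE_swap, hp, Prod.swap_swap], Or.inr hi⟩
      · obtain ⟨b₀, hu, hp, hi⟩ := key a hE h1
        exact ⟨b₀, hu, hp, Or.inl hi⟩
    obtain ⟨b₀, ⟨g, k, rfl⟩, hp, hi⟩ := key2
    refine ⟨pN N g, Finset.mem_image_of_mem _ ?_, k, by rw [← hp, pE_sd]⟩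
    have hR := hb.hR
    have hK := two_pow_pos K
    have hcor : ∀ k, InV v (2 ^ K) (cor0 g k) → g ∈ BR v R := by
      intro k hk
      rw [mem_BR]
      unfold InV at hk
      rcases k4_cases k with rfl | rfl | rfl | rfl
      · rw [cor0_0] at hk; omega
      · rw [cor0_1] at hk; simp only at hk; omega
      · rw [cor0_2] at hk; simp only at hk; omega
      · rw [cor0_3] at hk; simp only at hk; omega
    rcases hi with hi | hi
    · exact hcor k hi
    · exact hcor (k + 1) hi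
  · exact absurd rfl h

/-- the averages over the boxes of the cylinder -/
theorem av_box (hRN : 2 * R < N) {y₀ y₁ : ℤ} (h0 : y₀ ≤ v.2 - R) (h1 : v.2 + R ≤ y₁) :
    av ((BR v R).image (pN N)) (GB (CQ N) ((BR v R).image (pN N)) (cS N y₀ y₁ (gC N (v.1 - R) f))) =
      av (BR v R) (GB ZQ (BR v R) (cB (BR v R) f)) := by
  refine av_map (pN_injOn hRN) _ _ ?_
  intro ω ω' h
  exact GB_map (chart_qmap hRN h) (cS_box hRN h0 h1 h)

/-! ### ends and turnings -/

theorem card_ends (y₀ y₁ : ℤ) : (ends (CQ N) (cylF N y₀ y₁)).card ≤ 2 * N := by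
  have hN0 : NeZero N := ⟨by have := hN.out; omega⟩
  have h1 : ends (CQ N) (cylF N y₀ y₁) ⊆ (Finset.univ : Finset (ZMod N × Bool)).image
      (fun x => if x.2 then (bE x.1 y₀).swap else bE x.1 y₁) := by
    intro a ha
    unfold ends at ha
    obtain ⟨h2, h3⟩ := Finset.mem_filter.1 ha
    obtain ⟨x, h4 | h4⟩ := ter_cases h2 (fun f hf k => h3 f (by exact_mod_cast hf) k)
    · exact Finset.mem_image.2 ⟨(x, true), Finset.mem_univ _, by simp [h4]⟩
    · exact Finset.mem_image.2 ⟨(x, false), Finset.mem_univ _, by simp [h4]⟩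
  refine (Finset.card_le_card h1).trans (Finset.card_image_le.trans ?_)
  rw [Finset.card_univ, Fintype.card_prod, ZMod.card, Fintype.card_bool]
  omega

theorem turn4 (hodd : Odd N) {y₀ y₁ : ℤ} (hy : y₀ < y₁) (ω : ZMod N × ℤ → Bool)
    (X : Finset (DC N)) (hX : X ∈ dstr (CQ N) (cylF N y₀ y₁) ω)
    (hc : Cls (CQ N) (cylF N y₀ y₁) ω X) :
    Op.trn (CQ N) (cylF N y₀ y₁) ω X = 4 ∨ Op.trn (CQ N) (cylF N y₀ y₁) ω X = -4 := by
  refine (cyl_turns hodd hy ω).closed X hX ?_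
  intro b hb hi
  obtain ⟨a, -, g, hg, k, -, h⟩ := cls_pred hX hc hb
  rcases h with ⟨-, h⟩ | ⟨-, h⟩
  · refine hi g hg (k + 1) ?_
    rw [h, z1]
  · refine hi g hg (k + 3) ?_
    rw [h, z5]

theorem card_cylF {y₀ y₁ : ℤ} (h : y₀ ≤ y₁) : ((cylF N y₀ y₁).card : ℤ) = N * (y₁ - y₀) := by
  have hN0 : NeZero N := ⟨by have := hN.out; omega⟩
  unfold cylF
  rw [Finset.card_product, Finset.card_univ, ZMod.card, Int.card_Ico]
  push_cast
  rw [Int.toNat_of_nonneg (by omega)]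

/-- the growth of the stacks -/
theorem Z6_stack_le (hodd : Odd N) {C : ℝ} (hC0 : 0 < C)
    (hCb : ∀ (v : ℤ × ℤ) (K : ℕ) (R : ℤ) (f : ℤ × ℤ → ℝ), BoxD v K R f K₀ →
      av (BR v R) (GB ZQ (BR v R) (cB (BR v R) f)) ≤ C)
    {H x : ℤ} (hH : 0 < H) (hRN : 2 * R < N) (vv : ℕ → ℤ × ℤ) (ff : ℕ → ℤ × ℤ → ℝ)
    (hb : ∀ i, BoxD (vv i) K R (ff i) K₀) (hx : ∀ i, (vv i).1 = x)
    (h0 : ∀ i : ℕ, i * H ≤ (vv i).2 - R) (h1 : ∀ i : ℕ, (vv i).2 + R ≤ (i + 1) * H) (n : ℕ) :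
    ‖Z6 (CQ N) (cylF N 0 ((n + 1) * H)) (hC (cst N H (fun i => gC N (x - R) (ff i)) (n + 1)))‖ ≤
      2 ^ (2 * N) * 2 ^ (cylF N 0 ((n + 1) * H)).card * C ^ (n + 1) := by
  have hn : (0 : ℤ) ≤ n := Int.natCast_nonneg n
  have hpos : (0 : ℤ) < (n + 1) * H := by positivity
  have hmul : ∀ {i j : ℤ}, i ≤ j → i * H ≤ j * H := fun h => by nlinarith
  have hsub : ∀ i : ℕ, (BR (vv i) R).image (pN N) ⊆ cylF N (i * H) ((i + 1) * H) := fun i =>
    image_sub (h0 i) (h1 i)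
  have hZ := Z6_bound (Q := CQ N) (F := cylF N 0 ((n + 1) * H)) (Finset.range (n + 1))
    (fun i => (BR (vv i) R).image (pN N))
    (fun i => cS N (i * H) ((i + 1) * H) (gC N (x - R) (ff i))) noLoop_CQ ?_ ?_ ?_ ?_
    (fun ω X hX hc => turn4 hodd hpos ω X hX hc)
  · refine hZ.trans ?_
    have hp : ∏ i ∈ Finset.range (n + 1), av ((BR (vv i) R).image (pN N))
        (GB (CQ N) ((BR (vv i) R).image (pN N)) (cS N (i * H) ((i + 1) * H)
          (gC N (x - R) (ff i)))) ≤ C ^ (n + 1) := by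
      refine (Finset.prod_le_prod ?_ ?_).trans (le_of_eq (by rw [Finset.prod_const, Finset.card_range]))
      · intro i _
        rw [← hx i, av_box hRN (h0 i) (h1 i)]
        unfold av
        exact div_nonneg (Finset.sum_nonneg fun T _ => le_trans zero_le_one (one_le_GB _))
          (by positivity)
      · intro i _
        rw [← hx i, av_box hRN (h0 i) (h1 i)]
        exact hCb _ _ _ _ (hb i)
    have he : (2 : ℝ) ^ (ends (CQ N) (cylF N 0 ((n + 1) * H))).card ≤ 2 ^ (2 * N) :=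
      pow_le_pow_right₀ (by norm_num) (card_ends _ _)
    have hp0 : 0 ≤ ∏ i ∈ Finset.range (n + 1), av ((BR (vv i) R).image (pN N))
        (GB (CQ N) ((BR (vv i) R).image (pN N)) (cS N (i * H) ((i + 1) * H)
          (gC N (x - R) (ff i)))) := by
      refine Finset.prod_nonneg fun i _ => ?_
      unfold av
      exact div_nonneg (Finset.sum_nonneg fun T _ => le_trans zero_le_one (one_le_GB _))
        (by positivity)
    exact mul_le_mul (mul_le_mul_of_nonneg_right he (by positivity)) hp hp0 (by positivity)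
  · intro i hi
    rw [Finset.mem_range] at hi
    refine (hsub i).trans ?_
    intro w hw
    rw [mem_cylF] at hw ⊢
    have h3 : (0 : ℤ) * H ≤ i * H := hmul (Int.natCast_nonneg i)
    have h4 : ((i : ℤ) + 1) * H ≤ (n + 1) * H := hmul (by omega)
    rw [zero_mul] at h3
    exact ⟨h3.trans hw.1, lt_of_lt_of_le hw.2 h4⟩
  · intro i _ a
    exact cS_swap _ _ _ a
  · intro i _ a ha
    rw [← hx i] at ha
    exact cS_supp (hb i) ha
  · intro i _ j _ hij
    refine Finset.disjoint_of_subset_left (hsub i) (Finset.disjoint_of_subset_right (hsub j) ?_)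
    rw [Finset.disjoint_left]
    intro w hw hw'
    rw [mem_cylF] at hw hw'
    rcases Nat.lt_or_gt_of_ne hij with h3 | h3
    · have h4 : ((i : ℤ) + 1) * H ≤ j * H := hmul (by omega)
      omega
    · have h4 : ((j : ℤ) + 1) * H ≤ i * H := hmul (by omega)
      omega

end

end Pool.Agent.SixB.Op
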