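import Pool.Agent.Lib.SixB.S3OpCylD

/-!
# 6BD, operator bound (11): the bound

`SM_bound`: for odd `N`, a box `BR v R` in the slab `y₀ ≤ y ≤ y₁` of the cylinder, `2 R < N`, and a function
`f` with `BoxD v K R f K₀`, the `l²` norm of the matrix of the slab with the weight `exp (± D)`, `D` the sum
of the gradient of `f` over the arrows, is at most `C (K₀) * 2 ^ (number of faces)`;
`JM_bound`: the same for the matrix with `D` inserted.
-/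

set_option autoImplicit false
set_option linter.unusedSectionVars false

namespace Pool.Agent.SixB.Op

open Pool.Agent.Perc Pool.Agent.Perc.Q Relation Pool.Agent.SixB Pool.Agent.PercD Pool.Agent.SixB.Rel

noncomputable section

variable {N : ℕ} [hN : Fact (3 ≤ N)] {v : ℤ × ℤ} {K : ℕ} {R : ℤ} {f : ℤ × ℤ → ℝ} {K₀ : ℝ}

theorem BoxD.refl (h : BoxD v K R f K₀) (t : ℤ) :
    BoxD (v.1, t - v.2) K R (fun p => f (p.1, t - p.2)) K₀ where
  hR := h.hR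
  supp := by
    intro p hp
    refine h.supp _ ?_
    unfold InV at hp ⊢
    simp only at hp ⊢
    omega
  lap := by
    intro p
    have := h.lap (p.1, t - p.2)
    unfold lapZ at this ⊢
    simp only at this ⊢
    rw [show t - (p.2 + 1) = t - p.2 - 1 by ring, show t - (p.2 - 1) = t - p.2 + 1 by ring]
    refine le_trans (le_of_eq ?_) this
    congr 1
    ring

theorem BoxD.shift (h : BoxD v K R f K₀) (t : ℤ) :
    BoxD (v.1, v.2 + t) K R (fun p => f (p.1, p.2 - t)) K₀ where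
  hR := h.hR
  supp := by
    intro p hp
    refine h.supp _ ?_
    unfold InV at hp ⊢
    simp only at hp ⊢
    omega
  lap := by
    intro p
    have := h.lap (p.1, p.2 - t)
    unfold lapZ at this ⊢
    simp only at this ⊢
    rw [show p.2 + 1 - t = p.2 - t + 1 by ring, show p.2 - 1 - t = p.2 - t - 1 by ring]
    exact this

theorem BoxD.neg (h : BoxD v K R f K₀) : BoxD v K R (fun p => - f p) K₀ where
  hR := h.hR
  supp := by
    intro p hp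
    rw [h.supp p hp, neg_zero]
  lap := by
    intro p
    have h1 : lapZ (fun p => - f p) p = - lapZ f p := by
      unfold lapZ
      ring
    rw [h1, abs_neg]
    exact h.lap p

/-- the centres of the boxes of the stack -/
def vvA (v : ℤ × ℤ) (y₀ y₁ : ℤ) (i : ℕ) : ℤ × ℤ :=
  if i % 2 = 0 then (v.1, i * (y₁ - y₀) + y₁ - v.2) else (v.1, v.2 + (i * (y₁ - y₀) - y₀))

/-- the functions of the stack -/
def ffA (f : ℤ × ℤ → ℝ) (y₀ y₁ : ℤ) (i : ℕ) : ℤ × ℤ → ℝ :=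
  if i % 2 = 0 then fun p => f (p.1, i * (y₁ - y₀) + y₁ - p.2)
  else fun p => f (p.1, p.2 - (i * (y₁ - y₀) - y₀))

theorem boxA (h : BoxD v K R f K₀) (y₀ y₁ : ℤ) (i : ℕ) :
    BoxD (vvA v y₀ y₁ i) K R (ffA f y₀ y₁ i) K₀ := by
  unfold vvA ffA
  split_ifs
  · exact h.refl _
  · exact h.shift _

theorem vvA_fst (y₀ y₁ : ℤ) (i : ℕ) : (vvA v y₀ y₁ i).1 = v.1 := by
  unfold vvA
  split_ifs <;> rfl

theorem vvA_low {y₀ y₁ : ℤ} (h0 : y₀ ≤ v.2 - R) (h1 : v.2 + R ≤ y₁) (i : ℕ) :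
    i * (y₁ - y₀) ≤ (vvA v y₀ y₁ i).2 - R := by
  unfold vvA
  split_ifs <;> simp only <;> omega

theorem vvA_up {y₀ y₁ : ℤ} (h0 : y₀ ≤ v.2 - R) (h1 : v.2 + R ≤ y₁) (i : ℕ) :
    (vvA v y₀ y₁ i).2 + R ≤ (i + 1) * (y₁ - y₀) := by
  have e : ((i : ℤ) + 1) * (y₁ - y₀) = i * (y₁ - y₀) + (y₁ - y₀) := by ring
  rw [e]
  unfold vvA
  split_ifs <;> simp only <;> omega

theorem van_of_box (h : BoxD v K R f K₀) {y₀ y₁ : ℤ} (h0 : y₀ ≤ v.2 - R) (h1 : v.2 + R ≤ y₁)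
    (x₀ : ℤ) : Van y₀ y₁ (gC N x₀ f) := by
  intro w hw
  refine h.supp _ ?_
  have hK := two_pow_pos K
  have hR := h.hR
  unfold InV
  simp only
  omega

/-- the matrix of the slab -/
def WA (N : ℕ) [Fact (3 ≤ N)] (y₀ y₁ : ℤ) (x₀ : ℤ) (f : ℤ × ℤ → ℝ) :
    Matrix (ZMod N → Bool) (ZMod N → Bool) ℂ := SM N y₀ y₁ (hC (cS N y₀ y₁ (gC N x₀ f)))

theorem dE_sh (t y₀ y₁ : ℤ) : dE (CQ N) (cylF N (y₀ + t) (y₁ + t)) =
    (dE (CQ N) (cylF N y₀ y₁)).image (Prod.map (shv N t) (shv N t)) := by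
  rw [← image_shv]
  exact dE_of_sides (σ := id) (fun _ => rfl) map_swap (fun f k => Or.inl (sd_shv t f k))

theorem dE_rf (t y₀ y₁ : ℤ) : dE (CQ N) (cylF N (t - y₁) (t - y₀)) =
    (dE (CQ N) (cylF N y₀ y₁)).image (Prod.map (rfv N t) (rfv N t)) := by
  rw [← image_rff]
  exact dE_of_sides (σ := fun k => 2 - k) (fun k => by ring) map_swap
    (fun f k => Or.inr (sd_rff t f k))

theorem even_slab (y₀ y₁ x₀ : ℤ) (i : ℕ) (hi : i % 2 = 0) :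
    SM N (i * (y₁ - y₀)) ((i + 1) * (y₁ - y₀)) (hC (cS N (i * (y₁ - y₀)) ((i + 1) * (y₁ - y₀))
      (gC N x₀ (ffA f y₀ y₁ i)))) = (WA N y₀ y₁ x₀ f).conjTranspose := by
  obtain ⟨t, ht⟩ : ∃ t : ℤ, t = i * (y₁ - y₀) + y₁ := ⟨_, rfl⟩
  have e1 : (i : ℤ) * (y₁ - y₀) = t - y₁ := by omega
  have e2 : ((i : ℤ) + 1) * (y₁ - y₀) = t - y₀ := by rw [ht]; ring
  have hf : ffA f y₀ y₁ i = fun p => f (p.1, t - p.2) := by
    unfold ffA
    rw [if_pos hi, ← ht]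
  rw [e1, e2, hf]
  ext s s'
  have h1 := SM_refl (N := N) t y₀ y₁ (h := hC (cS N y₀ y₁ (gC N x₀ f)))
    (h' := hC (cS N (t - y₁) (t - y₀) (gC N x₀ (fun p => f (p.1, t - p.2))))) (by
      intro a ha
      unfold hC cS
      rw [if_pos ha, if_pos (by rw [dE_rf]; exact Finset.mem_image_of_mem _ ha)]
      unfold gC rfv
      simp only [Prod.map_fst, Prod.map_snd]
      rw [show t - (t - a.1.2) = a.1.2 by ring, show t - (t - a.2.2) = a.2.2 by ring]) s' s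
  rw [h1, Matrix.conjTranspose_apply]
  unfold WA
  rw [SM_eq_toC, toC_apply, Complex.star_def, Complex.conj_ofReal]

theorem odd_slab (y₀ y₁ x₀ : ℤ) (i : ℕ) (hi : i % 2 = 1) :
    SM N (i * (y₁ - y₀)) ((i + 1) * (y₁ - y₀)) (hC (cS N (i * (y₁ - y₀)) ((i + 1) * (y₁ - y₀))
      (gC N x₀ (ffA f y₀ y₁ i)))) = WA N y₀ y₁ x₀ f := by
  obtain ⟨t, ht⟩ : ∃ t : ℤ, t = i * (y₁ - y₀) - y₀ := ⟨_, rfl⟩
  have e1 : (i : ℤ) * (y₁ - y₀) = y₀ + t := by omega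
  have e2 : ((i : ℤ) + 1) * (y₁ - y₀) = y₁ + t := by rw [ht]; ring
  have hf : ffA f y₀ y₁ i = fun p => f (p.1, p.2 - t) := by
    unfold ffA
    rw [if_neg (by omega), ← ht]
  rw [e1, e2, hf]
  unfold WA
  refine SM_shift t y₀ y₁ ?_
  intro a ha
  unfold hC cS
  rw [if_pos ha, if_pos (by rw [dE_sh]; exact Finset.mem_image_of_mem _ ha)]
  unfold gC shv
  simp only [Prod.map_fst, Prod.map_snd]
  rw [show a.1.2 + t - t = a.1.2 by ring, show a.2.2 + t - t = a.2.2 by ring]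

theorem prodM_alt (y₀ y₁ x₀ : ℤ) (k : ℕ) :
    prodM N (y₁ - y₀) (fun i => gC N x₀ (ffA f y₀ y₁ i)) (2 * k) =
      (WA N y₀ y₁ x₀ f * (WA N y₀ y₁ x₀ f).conjTranspose) ^ k := by
  induction k with
  | zero => rfl
  | succ k ih =>
    have e : 2 * (k + 1) = (2 * k + 1) + 1 := by ring
    rw [e]
    have h1 : prodM N (y₁ - y₀) (fun i => gC N x₀ (ffA f y₀ y₁ i)) (2 * k + 1 + 1) =
        SM N (((2 * k + 1 : ℕ) : ℤ) * (y₁ - y₀)) ((((2 * k + 1 : ℕ) : ℤ) + 1) * (y₁ - y₀))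
          (hC (cS N (((2 * k + 1 : ℕ) : ℤ) * (y₁ - y₀)) ((((2 * k + 1 : ℕ) : ℤ) + 1) * (y₁ - y₀))
            (gC N x₀ (ffA f y₀ y₁ (2 * k + 1))))) *
        (SM N (((2 * k : ℕ) : ℤ) * (y₁ - y₀)) ((((2 * k : ℕ) : ℤ) + 1) * (y₁ - y₀))
          (hC (cS N (((2 * k : ℕ) : ℤ) * (y₁ - y₀)) ((((2 * k : ℕ) : ℤ) + 1) * (y₁ - y₀))
            (gC N x₀ (ffA f y₀ y₁ (2 * k))))) *
          prodM N (y₁ - y₀) (fun i => gC N x₀ (ffA f y₀ y₁ i)) (2 * k)) := rfl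
    rw [h1, odd_slab y₀ y₁ x₀ (2 * k + 1) (by omega), even_slab y₀ y₁ x₀ (2 * k) (by omega), ih,
      pow_succ', mul_assoc]

open scoped Matrix.Norms.L2Operator in
/-- **Norm of the matrix of a slab with the weight `exp D`.** -/
theorem SM_bound (K₀ : ℝ) (hK₀ : 0 ≤ K₀) : ∃ C : ℝ, 0 < C ∧ ∀ (N : ℕ) [Fact (3 ≤ N)], Odd N →
    ∀ (v : ℤ × ℤ) (K : ℕ) (R y₀ y₁ : ℤ) (f : ℤ × ℤ → ℝ), BoxD v K R f K₀ → 2 * R < N →
      y₀ ≤ v.2 - R → v.2 + R ≤ y₁ →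
        ‖SM N y₀ y₁ (hC (cS N y₀ y₁ (gC N (v.1 - R) f)))‖ ≤ C * 2 ^ (cylF N y₀ y₁).card := by
  obtain ⟨C, hC, hbox⟩ := box_bound K₀ hK₀
  refine ⟨C, hC, ?_⟩
  intro N hN hodd v K R y₀ y₁ f hb hRN h0 h1
  have hR := hb.hR
  have hK := two_pow_pos K
  have hH : 0 < y₁ - y₀ := by omega
  set E := (cylF N y₀ y₁).card with hE
  have hEZ : (E : ℤ) = N * (y₁ - y₀) := card_cylF (by omega)
  have hpos : 0 < (2 ^ E * C : ℝ) := by positivity
  have key : ‖WA N y₀ y₁ (v.1 - R) f‖ ^ 2 ≤ (2 ^ E * C) ^ 2 := by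
    refine norm_sq_le_of_growth _ (K := 2 ^ (2 * N)) (by positivity) ?_
    intro k s' s
    rw [← prodM_alt]
    cases k with
    | zero =>
      change ‖(1 : Matrix (ZMod N → Bool) (ZMod N → Bool) ℂ) s' s‖ ≤ _
      rw [Matrix.one_apply]
      have h2 : (1 : ℝ) ≤ 2 ^ (2 * N) := one_le_pow₀ (by norm_num)
      split_ifs <;> simp <;> linarith
    | succ k =>
      have e : 2 * (k + 1) = (2 * k + 1) + 1 := by ring
      rw [e, ← stack hH (fun i => van_of_box (boxA hb y₀ y₁ i) (vvA_low h0 h1 i) (vvA_up h0 h1 i) _)]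
      refine (SM_entry_le _ _ _ _ _).trans ?_
      refine (Z6_stack_le hodd hC hbox hH hRN (vvA v y₀ y₁) (ffA f y₀ y₁) (boxA hb y₀ y₁)
        (vvA_fst y₀ y₁) (vvA_low h0 h1) (vvA_up h0 h1) (2 * k + 1)).trans (le_of_eq ?_)
      have hcard : (cylF N 0 ((((2 * k + 1 : ℕ) : ℤ) + 1) * (y₁ - y₀))).card = 2 * (k + 1) * E := by
        have h3 := card_cylF (N := N) (y₀ := 0) (y₁ := (((2 * k + 1 : ℕ) : ℤ) + 1) * (y₁ - y₀))
          (by positivity)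
        have h4 : ((cylF N 0 ((((2 * k + 1 : ℕ) : ℤ) + 1) * (y₁ - y₀))).card : ℤ) =
            ((2 * (k + 1) * E : ℕ) : ℤ) := by
          rw [h3]
          push_cast
          rw [hEZ]
          ring
        exact_mod_cast h4
      rw [hcard]
      rw [show 2 * k + 1 + 1 = 2 * (k + 1) by ring, ← pow_mul (2 ^ E * C) 2 (k + 1), mul_pow,
        ← pow_mul, mul_comm (2 * (k + 1)) E]
      ring
  have h2 := abs_le_of_sq_le_sq' key hpos.le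
  rw [mul_comm]
  exact h2.2

open scoped Matrix.Norms.L2Operator in
/-- **Norm of the matrix of a slab with `D` inserted.** -/
theorem JM_bound (K₀ : ℝ) (hK₀ : 0 ≤ K₀) : ∃ C : ℝ, 0 < C ∧ ∀ (N : ℕ) [Fact (3 ≤ N)], Odd N →
    ∀ (v : ℤ × ℤ) (K : ℕ) (R y₀ y₁ : ℤ) (f : ℤ × ℤ → ℝ), BoxD v K R f K₀ → 2 * R < N →
      y₀ ≤ v.2 - R → v.2 + R ≤ y₁ →
        ‖JM N y₀ y₁ (cS N y₀ y₁ (gC N (v.1 - R) f))‖ ≤ C * 2 ^ (cylF N y₀ y₁).card := by
  obtain ⟨C, hC, hS⟩ := SM_bound K₀ hK₀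
  refine ⟨2 * C, by positivity, ?_⟩
  intro N hN hodd v K R y₀ y₁ f hb hRN h0 h1
  have h2 := hS N hodd v K R y₀ y₁ f hb hRN h0 h1
  have h3 := hS N hodd v K R y₀ y₁ (fun p => - f p) hb.neg hRN h0 h1
  have h4 : (cS N y₀ y₁ (gC N (v.1 - R) (fun p => - f p))) =
      fun a => - cS N y₀ y₁ (gC N (v.1 - R) f) a := by
    funext a
    unfold cS gC
    split_ifs <;> ring
  rw [h4] at h3
  refine (JM_norm_le _ _ _).trans ?_
  linarith

end

end Pool.Agent.SixB.Op
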