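import Pool.Agent.Lib.SixB.S3OpCylE
import Pool.Agent.Lib.SixB.S1Joint

/-!
# 6BD, operator bound (12): the bound as an operator on `HN N`

`J_bdd`: `Matrix.toEuclideanLin` of (the transpose of) the inserted matrix of a slab, divided by `2 ^ #faces`,
is bounded by `C (K₀)` on `HN (n + 1)`, uniformly in odd `n + 1`, the slab, the box and the function.
`JM_congr`, `JM_eq_of_chart`: other descriptions of the one-form.
-/

set_option autoImplicit false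
set_option linter.unusedSectionVars false

namespace Pool.Agent.SixB.Op

open Pool.Agent.Perc Pool.Agent.Perc.Q Relation Pool.Agent.SixB Pool.Agent.PercD Pool.Agent.SixB.Rel

noncomputable section

section
variable {N : ℕ} [hN : Fact (3 ≤ N)] {v : ℤ × ℤ} {K : ℕ} {R : ℤ} {f : ℤ × ℤ → ℝ} {K₀ : ℝ}

/-- only the values on the directed edges of the slab are used -/
theorem JM_congr {y₀ y₁ : ℤ} {c c' : DC N → ℝ}
    (h : ∀ a ∈ dE (CQ N) (cylF N y₀ y₁), c a = c' a) : JM N y₀ y₁ c = JM N y₀ y₁ c' := by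
  ext s' s
  unfold JM
  refine Finset.sum_congr rfl fun α hα => ?_
  have h1 := Finset.mem_powerset.1 (Finset.mem_filter.1 hα).1
  rw [Finset.sum_congr rfl fun a ha => h a (h1 ha)]

/-- the one-form of a box is determined by its values on the chart -/
theorem cS_eq_of_chart (hb : BoxD v K R f K₀) (hRN : 2 * R < N) {y₀ y₁ : ℤ} (h0 : y₀ ≤ v.2 - R)
    (h1 : v.2 + R ≤ y₁) {c : DC N → ℝ}
    (hc : ∀ a ∈ dE ZQ (BR v R), c (Prod.map (pN N) (pN N) a) = cB (BR v R) f a)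
    (hc0 : ∀ a ∈ dE (CQ N) (cylF N y₀ y₁), (∀ b ∈ dE ZQ (BR v R), Prod.map (pN N) (pN N) b ≠ a) →
      c a = 0) {a : DC N} (ha : a ∈ dE (CQ N) (cylF N y₀ y₁)) :
    cS N y₀ y₁ (gC N (v.1 - R) f) a = c a := by
  have hω : ∀ g ∈ BR v R, (lc N (fun _ => true)) g = (fun _ => true) (pN N g) := fun _ _ => rfl
  by_cases h : ∃ b ∈ dE ZQ (BR v R), Prod.map (pN N) (pN N) b = a
  · obtain ⟨b, hb1, rfl⟩ := h
    rw [hc b hb1]
    exact cS_box hRN h0 h1 (ω := lc N (fun _ => true)) (ω' := fun _ => true) hω b hb1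
  · push Not at h
    rw [hc0 a ha h]
    by_contra hne
    obtain ⟨g, hg, k, hk⟩ := cS_supp hb hne
    have h2 : a ∈ dE (CQ N) ((BR v R).image (pN N)) := mem_dE.2 ⟨g, hg, k, Or.inl hk⟩
    rw [(chart_qmap hRN (ω := lc N (fun _ => true)) (ω' := fun _ => true) hω).dE_map] at h2
    obtain ⟨b, hb1, hb2⟩ := Finset.mem_image.1 h2
    exact h b hb1 hb2

theorem JM_eq_of_chart (hb : BoxD v K R f K₀) (hRN : 2 * R < N) {y₀ y₁ : ℤ} (h0 : y₀ ≤ v.2 - R)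
    (h1 : v.2 + R ≤ y₁) {c : DC N → ℝ}
    (hc : ∀ a ∈ dE ZQ (BR v R), c (Prod.map (pN N) (pN N) a) = cB (BR v R) f a)
    (hc0 : ∀ a ∈ dE (CQ N) (cylF N y₀ y₁), (∀ b ∈ dE ZQ (BR v R), Prod.map (pN N) (pN N) b ≠ a) →
      c a = 0) : JM N y₀ y₁ c = JM N y₀ y₁ (cS N y₀ y₁ (gC N (v.1 - R) f)) :=
  JM_congr fun _ ha => (cS_eq_of_chart hb hRN h0 h1 hc hc0 ha).symm

/-- the entries are real -/
theorem JM_real (y₀ y₁ : ℤ) (c : DC N → ℝ) (s' s : ZMod N → Bool) :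
    star (JM N y₀ y₁ c s' s) = JM N y₀ y₁ c s' s := by
  unfold JM
  rw [star_sum]
  refine Finset.sum_congr rfl fun α _ => ?_
  rw [wr_eq, PR_eq, ← Complex.ofReal_mul, ← Complex.ofReal_mul, Complex.star_def,
    Complex.conj_ofReal]

theorem JM_transpose (y₀ y₁ : ℤ) (c : DC N → ℝ) :
    (JM N y₀ y₁ c).transpose = (JM N y₀ y₁ c).conjTranspose := by
  ext s s'
  rw [Matrix.transpose_apply, Matrix.conjTranspose_apply, JM_real]

end

open scoped Matrix.Norms.L2Operator in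
theorem toEu_le {m : Type} [Fintype m] [DecidableEq m] (M : Matrix m m ℂ)
    (x : EuclideanSpace ℂ m) : ‖Matrix.toEuclideanLin M x‖ ≤ ‖M‖ * ‖x‖ :=
  Matrix.l2_opNorm_mulVec M x

theorem toEu_adj {m : Type} [Fintype m] [DecidableEq m] (M : Matrix m m ℂ)
    (x y : EuclideanSpace ℂ m) :
    inner ℂ (Matrix.toEuclideanLin M.conjTranspose x) y = inner ℂ x (Matrix.toEuclideanLin M y) := by
  rw [Matrix.toEuclideanLin_conjTranspose_eq_adjoint, LinearMap.adjoint_inner_left]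

open scoped Matrix.Norms.L2Operator in
/-- **The operator bound on `HN (n + 1)`** (both for the matrix and its transpose). -/
theorem J_bdd (K₀ : ℝ) (hK₀ : 0 ≤ K₀) : ∃ C : ℝ, 0 < C ∧ ∀ (n : ℕ) [Fact (3 ≤ n + 1)],
    Odd (n + 1) → ∀ (v : ℤ × ℤ) (K : ℕ) (R y₀ y₁ : ℤ) (f : ℤ × ℤ → ℝ), BoxD v K R f K₀ →
      2 * R < ((n + 1 : ℕ) : ℤ) → y₀ ≤ v.2 - R → v.2 + R ≤ y₁ →
        ∀ M : Matrix (Fin (n + 1) → Bool) (Fin (n + 1) → Bool) ℂ,
          (M = JM (n + 1) y₀ y₁ (cS (n + 1) y₀ y₁ (gC (n + 1) (v.1 - R) f)) ∨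
            M = (JM (n + 1) y₀ y₁ (cS (n + 1) y₀ y₁ (gC (n + 1) (v.1 - R) f))).transpose) →
          ∀ x : HN (n + 1), ‖Matrix.toEuclideanLin
            (((2 : ℂ) ^ (cylF (n + 1) y₀ y₁).card)⁻¹ • M) x‖ ≤ C * ‖x‖ := by
  obtain ⟨C, hC, hJ⟩ := JM_bound K₀ hK₀
  refine ⟨C, hC, ?_⟩
  intro n hn hodd v K R y₀ y₁ f hb hRN h0 h1 M hM x
  have h2 := hJ (n + 1) hodd v K R y₀ y₁ f hb hRN h0 h1
  have h3 := toEu_le (((2 : ℂ) ^ (cylF (n + 1) y₀ y₁).card)⁻¹ • M) x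
  refine h3.trans (mul_le_mul_of_nonneg_right ?_ (norm_nonneg _))
  have h4 : (0 : ℝ) < 2 ^ (cylF (n + 1) y₀ y₁).card := by positivity
  have h5 : ‖M‖ ≤ C * 2 ^ (cylF (n + 1) y₀ y₁).card := by
    rcases hM with rfl | rfl
    · exact h2
    · have h6 : ‖(JM (n + 1) y₀ y₁ (cS (n + 1) y₀ y₁ (gC (n + 1) (v.1 - R) f))).transpose‖ =
          ‖JM (n + 1) y₀ y₁ (cS (n + 1) y₀ y₁ (gC (n + 1) (v.1 - R) f))‖ := by
        rw [JM_transpose, Matrix.l2_opNorm_conjTranspose]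
      exact (le_of_eq h6).trans h2
  rw [norm_smul, norm_inv, norm_pow, Complex.norm_ofNat]
  calc ((2 : ℝ) ^ (cylF (n + 1) y₀ y₁).card)⁻¹ * ‖M‖ ≤
      ((2 : ℝ) ^ (cylF (n + 1) y₀ y₁).card)⁻¹ * (C * 2 ^ (cylF (n + 1) y₀ y₁).card) :=
        mul_le_mul_of_nonneg_left h5 (by positivity)
    _ = C := by field_simp

end

end Pool.Agent.SixB.Op
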