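import Pool.Agent.Lib.SixB.S3OpCylF
import Pool.Agent.Lib.SixB.S3Ins

/-!
# 6BD, operator bound (13): the official insertion `MxD` of `S3Ins`

`MxD_eq_JM`: `MxD` of a slab with weight `1` is `JM`; `MxD_bdd`: its operator bound.
-/

set_option autoImplicit false
set_option linter.unusedSectionVars false

namespace Pool.Agent.SixB.Op

open Pool.Agent.Perc Pool.Agent.Perc.Q Relation Pool.Agent.SixB Pool.Agent.PercD Pool.Agent.SixB.Rel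

noncomputable section

theorem MxD_eq_JM {N : ℕ} [hN : Fact (3 ≤ N)] (y₀ y₁ : ℤ) (c : DC N → ℝ) :
    MxD (CQ N) (cylF N y₀ y₁) (fun _ => 1) c (fm N y₀) (fm N y₁) = JM N y₀ y₁ c := by
  ext s' s
  unfold MxD Z6D JM
  refine Finset.sum_congr rfl fun α _ => ?_
  have h : ∏ a ∈ α, ((1 : ℂ) * pin (fm N y₀) s a * pin (fm N y₁) s' a) =
      ∏ a ∈ α, (pin (fm N y₀) s a * pin (fm N y₁) s' a) :=
    Finset.prod_congr rfl fun a _ => by ring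
  rw [h]
  ring

/-- **The operator bound for the official insertion.** -/
theorem MxD_bdd (K₀ : ℝ) (hK₀ : 0 ≤ K₀) : ∃ C : ℝ, 0 < C ∧ ∀ (n : ℕ) [Fact (3 ≤ n + 1)],
    Odd (n + 1) → ∀ (v : ℤ × ℤ) (K : ℕ) (R y₀ y₁ : ℤ) (f : ℤ × ℤ → ℝ), BoxD v K R f K₀ →
      2 * R < ((n + 1 : ℕ) : ℤ) → y₀ ≤ v.2 - R → v.2 + R ≤ y₁ → ∀ c : DC (n + 1) → ℝ,
        (∀ a ∈ dE ZQ (BR v R), c (Prod.map (pN (n + 1)) (pN (n + 1)) a) = cB (BR v R) f a) →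
        (∀ a ∈ dE (CQ (n + 1)) (cylF (n + 1) y₀ y₁),
          (∀ b ∈ dE ZQ (BR v R), Prod.map (pN (n + 1)) (pN (n + 1)) b ≠ a) → c a = 0) →
        ∀ M : Matrix (Fin (n + 1) → Bool) (Fin (n + 1) → Bool) ℂ,
          (M = MxD (CQ (n + 1)) (cylF (n + 1) y₀ y₁) (fun _ => 1) c (fm (n + 1) y₀)
              (fm (n + 1) y₁) ∨
            M = (MxD (CQ (n + 1)) (cylF (n + 1) y₀ y₁) (fun _ => 1) c (fm (n + 1) y₀)
              (fm (n + 1) y₁)).transpose) →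
          ∀ x : HN (n + 1), ‖Matrix.toEuclideanLin
            (((2 : ℂ) ^ (cylF (n + 1) y₀ y₁).card)⁻¹ • M) x‖ ≤ C * ‖x‖ := by
  obtain ⟨C, hC, hJ⟩ := J_bdd K₀ hK₀
  refine ⟨C, hC, ?_⟩
  intro n hn hodd v K R y₀ y₁ f hb hRN h0 h1 c hc hc0 M hM x
  refine hJ n hodd v K R y₀ y₁ f hb hRN h0 h1 M ?_ x
  rw [MxD_eq_JM, JM_eq_of_chart hb hRN h0 h1 hc hc0] at hM
  exact hM

end

end Pool.Agent.SixB.Op
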