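import Mathlib

/-!
# 6BD, operator bound (1): matrices with nonnegative entries

* `norm_le_of_dom`: if `‖A i j‖ ≤ b i j` then the `ℓ²` operator norm of `A` is at most the one of `b`.
* `norm_le_of_growth`: a self-adjoint matrix whose powers have entries `≤ K c ^ k` has norm `≤ c`.
* `norm_sq_le_of_growth`: the same for `b` with the powers of `b bᴴ`.
* `cosh_bound`, `cosh_bound'`: `|cosh x + i √3 sinh x| ≤ exp (2 x²)` and `≤ exp (2 |x|)`.
-/

set_option autoImplicit false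
set_option linter.unusedSectionVars false

namespace Pool.Agent.SixB.Op

open Matrix
open scoped Matrix.Norms.L2Operator

variable {m n : Type} [Fintype m] [DecidableEq m] [Fintype n] [DecidableEq n]

/-- a real matrix as a complex one -/
noncomputable def toC (b : Matrix m n ℝ) : Matrix m n ℂ := b.map (fun x : ℝ => (x : ℂ))

theorem toC_apply (b : Matrix m n ℝ) (i : m) (j : n) : toC b i j = (b i j : ℂ) := rfl

theorem norm_mulVec_le (A : Matrix m n ℂ) (x : EuclideanSpace ℂ n) :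
    ‖(WithLp.toLp 2 (A *ᵥ x.ofLp) : EuclideanSpace ℂ m)‖ ≤ ‖A‖ * ‖x‖ :=
  Matrix.l2_opNorm_mulVec A x

theorem norm_le_of_bound (A : Matrix m n ℂ) {C : ℝ} (hC : 0 ≤ C)
    (h : ∀ x : EuclideanSpace ℂ n,
      ‖(WithLp.toLp 2 (A *ᵥ x.ofLp) : EuclideanSpace ℂ m)‖ ≤ C * ‖x‖) : ‖A‖ ≤ C := by
  rw [Matrix.l2_opNorm_def]
  refine ContinuousLinearMap.opNorm_le_bound _ hC ?_
  intro x
  exact h x

/-- domination of the entries -/
theorem norm_le_of_dom (A : Matrix m n ℂ) (b : Matrix m n ℝ) (h : ∀ i j, ‖A i j‖ ≤ b i j) :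
    ‖A‖ ≤ ‖toC b‖ := by
  refine norm_le_of_bound A (norm_nonneg _) ?_
  intro x
  have h1 := norm_mulVec_le (toC b) (WithLp.toLp 2 (fun j => ((‖x.ofLp j‖ : ℝ) : ℂ)))
  have h2 : ‖(WithLp.toLp 2 (fun j => ((‖x.ofLp j‖ : ℝ) : ℂ)) : EuclideanSpace ℂ n)‖ = ‖x‖ := by
    rw [EuclideanSpace.norm_eq, EuclideanSpace.norm_eq]
    congr 1
    refine Finset.sum_congr rfl ?_
    intro j _
    simp
  rw [h2] at h1
  refine le_trans ?_ h1
  rw [EuclideanSpace.norm_eq, EuclideanSpace.norm_eq]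
  apply Real.sqrt_le_sqrt
  refine Finset.sum_le_sum ?_
  intro i _
  apply pow_le_pow_left₀ (norm_nonneg _)
  have h3 : (toC b *ᵥ (fun j => ((‖x.ofLp j‖ : ℝ) : ℂ))) i =
      ((∑ j, b i j * ‖x.ofLp j‖ : ℝ) : ℂ) := by
    simp [Matrix.mulVec, dotProduct, toC_apply]
  have h4 : 0 ≤ ∑ j, b i j * ‖x.ofLp j‖ :=
    Finset.sum_nonneg fun j _ => mul_nonneg ((norm_nonneg _).trans (h i j)) (norm_nonneg _)
  calc ‖(A *ᵥ x.ofLp) i‖ ≤ ∑ j, ‖A i j * x.ofLp j‖ := by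
        unfold Matrix.mulVec dotProduct
        exact norm_sum_le _ _
    _ ≤ ∑ j, b i j * ‖x.ofLp j‖ := by
        refine Finset.sum_le_sum ?_
        intro j _
        rw [norm_mul]
        exact mul_le_mul_of_nonneg_right (h i j) (norm_nonneg _)
    _ = ‖(toC b *ᵥ (fun j => ((‖x.ofLp j‖ : ℝ) : ℂ))) i‖ := by
        rw [h3, Complex.norm_real, Real.norm_eq_abs, abs_of_nonneg h4]

/-- crude bound by the entries -/
theorem norm_le_card (A : Matrix m n ℂ) {C : ℝ} (hC : 0 ≤ C) (h : ∀ i j, ‖A i j‖ ≤ C) :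
    ‖A‖ ≤ (Fintype.card m : ℝ) * (Fintype.card n : ℝ) * C := by
  refine norm_le_of_bound A (by positivity) ?_
  intro x
  have hx : ∀ j, ‖x.ofLp j‖ ≤ ‖x‖ := fun j => PiLp.norm_apply_le x j
  have h1 : ∀ i, ‖(A *ᵥ x.ofLp) i‖ ≤ (Fintype.card n : ℝ) * C * ‖x‖ := by
    intro i
    calc ‖(A *ᵥ x.ofLp) i‖ ≤ ∑ j, ‖A i j * x.ofLp j‖ := by
          unfold Matrix.mulVec dotProduct
          exact norm_sum_le _ _
      _ ≤ ∑ _j : n, C * ‖x‖ := by
          refine Finset.sum_le_sum ?_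
          intro j _
          rw [norm_mul]
          exact mul_le_mul (h i j) (hx j) (norm_nonneg _) hC
      _ = (Fintype.card n : ℝ) * C * ‖x‖ := by
          rw [Finset.sum_const, Finset.card_univ, nsmul_eq_mul]
          ring
  have h2 : ‖(WithLp.toLp 2 (A *ᵥ x.ofLp) : EuclideanSpace ℂ m)‖ ≤
      ∑ i, ‖(A *ᵥ x.ofLp) i‖ := by
    rw [EuclideanSpace.norm_eq]
    apply Real.sqrt_le_iff.2
    refine ⟨Finset.sum_nonneg fun i _ => norm_nonneg _, ?_⟩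
    exact Finset.sum_sq_le_sq_sum_of_nonneg (fun i _ => norm_nonneg _)
  calc _ ≤ ∑ i, ‖(A *ᵥ x.ofLp) i‖ := h2
    _ ≤ ∑ _i : m, (Fintype.card n : ℝ) * C * ‖x‖ := Finset.sum_le_sum fun i _ => h1 i
    _ = _ := by
        rw [Finset.sum_const, Finset.card_univ, nsmul_eq_mul]
        ring

/-- growth of the powers of a self-adjoint matrix -/
theorem norm_le_of_growth (M : Matrix m m ℂ) (hM : IsSelfAdjoint M) {K c : ℝ} (hc : 0 < c)
    (h : ∀ (k : ℕ) (i j : m), ‖(M ^ k) i j‖ ≤ K * c ^ k) : ‖M‖ ≤ c := by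
  by_cases hm : IsEmpty m
  · have h0 : M = 0 := Subsingleton.elim _ _
    rw [h0, norm_zero]
    exact hc.le
  rw [not_isEmpty_iff] at hm
  have hK : 0 ≤ K := by
    have h0 := (norm_nonneg _).trans (h 0 hm.some hm.some)
    simpa using h0
  by_contra hcon
  rw [not_le] at hcon
  set D : ℝ := (Fintype.card m : ℝ) * (Fintype.card m : ℝ) * K with hD
  have h1 : ∀ k : ℕ, (‖M‖ / c) ^ (2 ^ k) ≤ D := by
    intro k
    have h2 : ‖M‖ ^ (2 ^ k) ≤ D * c ^ (2 ^ k) := by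
      rw [← hM.norm_pow_two_pow k]
      have := norm_le_card (M ^ 2 ^ k) (C := K * c ^ 2 ^ k) (by positivity) (h (2 ^ k))
      rw [hD]
      refine this.trans (le_of_eq ?_)
      ring
    rw [div_pow, div_le_iff₀ (by positivity)]
    exact h2
  have h3 : 1 < ‖M‖ / c := by rwa [one_lt_div hc]
  obtain ⟨N, hN⟩ := pow_unbounded_of_one_lt D h3
  have h4 : (‖M‖ / c) ^ N ≤ (‖M‖ / c) ^ (2 ^ N) :=
    pow_le_pow_right₀ h3.le Nat.lt_two_pow_self.le
  exact absurd (h4.trans (h1 N)) (not_le.2 hN)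

theorem norm_sq_le_of_growth (B : Matrix m m ℂ) {K c : ℝ} (hc : 0 < c)
    (h : ∀ (k : ℕ) (i j : m), ‖((B * Bᴴ) ^ k) i j‖ ≤ K * c ^ k) : ‖B‖ ^ 2 ≤ c := by
  have h1 : ‖B * Bᴴ‖ = ‖B‖ ^ 2 := by
    have h2 := Matrix.l2_opNorm_conjTranspose_mul_self Bᴴ
    rw [conjTranspose_conjTranspose, Matrix.l2_opNorm_conjTranspose] at h2
    rw [h2, sq]
  rw [← h1]
  refine norm_le_of_growth _ ?_ hc h
  rw [isSelfAdjoint_iff, Matrix.star_eq_conjTranspose, conjTranspose_mul, conjTranspose_conjTranspose]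

/-! ## the weight of a closed strand -/

theorem sq_cosh (x : ℝ) : ‖(Real.cosh x : ℂ) + Complex.I * (Real.sqrt 3 : ℂ) * (Real.sinh x : ℂ)‖ ^ 2 =
    2 * Real.cosh (2 * x) - 1 := by
  have h1 : (Real.cosh x : ℂ) + Complex.I * (Real.sqrt 3 : ℂ) * (Real.sinh x : ℂ) =
      ((Real.cosh x : ℝ) : ℂ) + ((Real.sqrt 3 * Real.sinh x : ℝ) : ℂ) * Complex.I := by
    push_cast
    ring
  rw [h1, Complex.sq_norm, Complex.normSq_add_mul_I, mul_pow, Real.sq_sqrt (by norm_num : (0 : ℝ) ≤ 3),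
    Real.cosh_two_mul]
  have := Real.cosh_sq x
  nlinarith

theorem cosh_bound (x : ℝ) :
    ‖(Real.cosh x : ℂ) + Complex.I * (Real.sqrt 3 : ℂ) * (Real.sinh x : ℂ)‖ ≤ Real.exp (2 * x ^ 2) := by
  have h1 := sq_cosh x
  have h2 : Real.cosh (2 * x) ≤ Real.exp (2 * x ^ 2) := by
    have := Real.cosh_le_exp_half_sq (2 * x)
    refine this.trans (le_of_eq ?_)
    congr 1
    ring
  have h3 : 2 * Real.exp (2 * x ^ 2) - 1 ≤ Real.exp (2 * x ^ 2) ^ 2 := by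
    nlinarith [sq_nonneg (Real.exp (2 * x ^ 2) - 1)]
  refine le_of_sq_le_sq ?_ (Real.exp_pos _).le
  rw [h1]
  linarith

theorem cosh_bound' (x : ℝ) :
    ‖(Real.cosh x : ℂ) + Complex.I * (Real.sqrt 3 : ℂ) * (Real.sinh x : ℂ)‖ ≤ Real.exp (2 * |x|) := by
  have h1 := sq_cosh x
  have h2 : Real.cosh (2 * x) ≤ Real.exp (2 * |x|) := by
    rw [← Real.cosh_abs, abs_mul, abs_of_pos (by norm_num : (0 : ℝ) < 2)]
    rw [Real.cosh_eq]
    have : Real.exp (-(2 * |x|)) ≤ Real.exp (2 * |x|) :=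
      Real.exp_le_exp.2 (by linarith [abs_nonneg x])
    linarith
  have h3 : 2 * Real.exp (2 * |x|) - 1 ≤ Real.exp (2 * |x|) ^ 2 := by
    nlinarith [sq_nonneg (Real.exp (2 * |x|) - 1)]
  refine le_of_sq_le_sq ?_ (Real.exp_pos _).le
  rw [h1]
  linarith

end Pool.Agent.SixB.Op
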