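import Pool.Agent.Lib.SixB.S3Propagate
import Pool.Agent.Lib.SixB.S3Momentum

/-!
Smallness of a matrix element, propagated from far shifts to the shift `0` (both vectors are
shifted separately).  This is the analytic part of step 3 (items 3.6 and 3.7).
-/

namespace Pool.Agent.SixB.An

open Complex Finset

universe v

variable {H : Type v} [NormedAddCommGroup H] [InnerProductSpace ℂ H]

theorem differentiable_inner_shift (W B : H →ₗ[ℂ] H) (N : ℕ) (x u : H) :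
    Differentiable ℂ (fun z : ℂ => inner ℂ x (B (shift W N z u))) := by
  have : (fun z : ℂ => inner ℂ x (B (shift W N z u))) = fun z : ℂ =>
      ∑ j : Fin N, exp (I * z * (ang N j : ℂ)) * inner ℂ x (B (proj W N j u)) := by
    funext z
    unfold shift
    rw [map_sum, inner_sum]
    apply sum_congr rfl
    intro j _
    rw [map_smul, inner_smul_right]
  rw [this]
  fun_prop

/-- One variable: smallness of `⟪x, B (shift z u)⟫` at the integers of a window. -/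
theorem one_var {h s : ℝ} (hh : 0 < h) (hs : 0 < s) {X : ℝ} (hX : 0 ≤ X) {ε : ℝ} (hε : 0 < ε) :
    ∃ δ : ℝ, 0 < δ ∧ ∃ n0 : ℝ, 0 < n0 ∧ ∀ n : ℝ, n0 ≤ n → ∀ (H : Type v)
      [NormedAddCommGroup H] [InnerProductSpace ℂ H] (W B : H →ₗ[ℂ] H) (N : ℕ), 0 < N →
      W ^ N = 1 → ∀ (x u : H) (M : ℝ), 0 < M →
      (∀ z : ℂ, |z.im| ≤ h * n → ‖inner ℂ x (B (shift W N z u))‖ ≤ M) →
      (∀ m : ℕ, X * n ≤ m → (m : ℝ) ≤ (X + s) * n → ‖inner ℂ x (B ((W ^ m) u))‖ ≤ δ * M) →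
      ‖inner ℂ x (B u)‖ ≤ ε * M := by
  obtain ⟨δ, hδ, n0, hn0, P⟩ := small_propagates_lattice hh hs X 1 hε
  refine ⟨δ, hδ, n0, hn0, ?_⟩
  intro n hn H _ _ W B N hN hW x u M hM hb hsm
  have hnpos : 0 < n := lt_of_lt_of_le hn0 hn
  have hMC : (M : ℂ) ≠ 0 := by exact_mod_cast hM.ne'
  have key := P n hn (fun z => inner ℂ x (B (shift W N z u)) / (M : ℂ))
    ((differentiable_inner_shift W B N x u).div_const _)
    (by
      intro z hz
      rw [norm_div, Complex.norm_real, Real.norm_eq_abs, abs_of_pos hM, div_le_one hM]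
      exact hb z hz)
    (by
      intro m hm1 hm2
      have hm0 : (0 : ℤ) ≤ m := by
        have : (0 : ℝ) ≤ m := le_trans (mul_nonneg hX hnpos.le) hm1
        exact_mod_cast this
      obtain ⟨k, rfl⟩ := Int.eq_ofNat_of_zero_le hm0
      have h1 : ((Int.ofNat k : ℤ) : ℂ) = (k : ℂ) := by simp
      have := hsm k (by simpa using hm1) (by simpa using hm2)
      rw [norm_div, Complex.norm_real, Real.norm_eq_abs, abs_of_pos hM, div_le_iff₀ hM]
      have h2 : shift W N (((k : ℕ) : ℤ) : ℂ) u = (W ^ k) u := by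
        rw [Int.cast_natCast]
        exact shift_nat hN hW k u
      rw [h2]
      exact this)
    0 (by rw [abs_zero]; positivity)
  rw [norm_div, Complex.norm_real, Real.norm_eq_abs, abs_of_pos hM, div_le_iff₀ hM] at key
  have h3 : shift W N ((0 : ℝ) : ℂ) u = u := by
    rw [Complex.ofReal_zero]
    exact shift_zero hN u
  rw [h3] at key
  exact key

/-- **Two variables.** The vectors `d` and `u` are shifted separately by `W`; the matrix element
is small when both shifts are in the window `[X n, (X + s) n]`; then it is small at `0`. -/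
theorem op_small {h s C : ℝ} (hh : 0 < h) (hs : 0 < s) (hC : 0 < C) {X : ℝ} (hX : 0 ≤ X)
    {ε : ℝ} (hε : 0 < ε) :
    ∃ δ : ℝ, 0 < δ ∧ ∃ n0 : ℝ, 0 < n0 ∧ ∀ n : ℝ, n0 ≤ n → ∀ (H : Type v)
      [NormedAddCommGroup H] [InnerProductSpace ℂ H] (W A1 A2 J J' : H →ₗ[ℂ] H) (N : ℕ), 0 < N →
      W ^ N = 1 → (∀ x y, inner ℂ (W x) (W y) = inner ℂ x y) → Commute A1 W → Commute A2 W →
      (∀ x y, inner ℂ (J' x) y = inner ℂ x (J y)) →
      ∀ (K1 K2 : ℝ), 0 ≤ K1 → 0 ≤ K2 →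
      (∀ (j : Fin N) (v : H), W v = exp (I * (ang N j : ℂ)) • v →
        ‖A1 v‖ ≤ K1 * Real.exp (-(h * n * |ang N j|)) * ‖v‖) →
      (∀ (j : Fin N) (v : H), W v = exp (I * (ang N j : ℂ)) • v →
        ‖A2 v‖ ≤ K2 * Real.exp (-(h * n * |ang N j|)) * ‖v‖) →
      ∀ (d u : H) (Z : ℝ), 0 < Z →
      (∀ m : ℕ, X * n ≤ m → (m : ℝ) ≤ (X + s) * n →
        ‖J' (A1 ((W ^ m) d))‖ * (K2 * ‖u‖) ≤ C * Z) →
      ‖J (A2 u)‖ * (K1 * ‖d‖) ≤ C * Z →
      (∀ x y : ℕ, X * n ≤ x → (x : ℝ) ≤ (X + s) * n → X * n ≤ y → (y : ℝ) ≤ (X + s) * n →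
        ‖inner ℂ (A1 ((W ^ x) d)) (J (A2 ((W ^ y) u)))‖ ≤ δ * Z) →
      ‖inner ℂ (A1 d) (J (A2 u))‖ ≤ ε * Z := by
  obtain ⟨δ2, hδ2, n2, hn2, P2⟩ := one_var.{v} hh hs hX (ε := ε / C) (by positivity)
  obtain ⟨δ1, hδ1, n1, hn1, P1⟩ := one_var.{v} hh hs hX (ε := δ2) hδ2
  refine ⟨δ1 * C, by positivity, max n1 n2, lt_max_of_lt_left hn1, ?_⟩
  intro n hn H _ _ W A1 A2 J J' N hN hW hiso hc1 hc2 hJ K1 K2 hK1 hK2 hcone1 hcone2 d u Z hZ
    C1 C2 S
  have hCZ : 0 < C * Z := by positivity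
  -- first in `y`
  have s1 : ∀ x : ℕ, X * n ≤ x → (x : ℝ) ≤ (X + s) * n →
      ‖inner ℂ (A1 ((W ^ x) d)) (J (A2 u))‖ ≤ δ2 * (C * Z) := by
    intro x hx1 hx2
    have := P1 n ((le_max_left _ _).trans hn) H W (J * A2) N hN hW (A1 ((W ^ x) d)) u (C * Z) hCZ
      (by
        intro z hz
        rw [Module.End.mul_apply, ← hJ]
        calc ‖inner ℂ (J' (A1 ((W ^ x) d))) (A2 (shift W N z u))‖
            ≤ ‖J' (A1 ((W ^ x) d))‖ * ‖A2 (shift W N z u)‖ := norm_inner_le_norm _ _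
          _ ≤ ‖J' (A1 ((W ^ x) d))‖ * (K2 * ‖u‖) :=
              mul_le_mul_of_nonneg_left
                (norm_damped_shift_le hN hW hiso hc2 hK2 hcone2 hz u) (norm_nonneg _)
          _ ≤ C * Z := C1 x hx1 hx2)
      (by
        intro m hm1 hm2
        rw [Module.End.mul_apply]
        calc _ ≤ δ1 * C * Z := S x m hx1 hx2 hm1 hm2
          _ = δ1 * (C * Z) := by ring)
    rwa [Module.End.mul_apply] at this
  -- then in `x`
  have := P2 n ((le_max_right _ _).trans hn) H W A1 N hN hW (J (A2 u)) d (C * Z) hCZ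
    (by
      intro z hz
      calc ‖inner ℂ (J (A2 u)) (A1 (shift W N z d))‖
          ≤ ‖J (A2 u)‖ * ‖A1 (shift W N z d)‖ := norm_inner_le_norm _ _
        _ ≤ ‖J (A2 u)‖ * (K1 * ‖d‖) :=
            mul_le_mul_of_nonneg_left
              (norm_damped_shift_le hN hW hiso hc1 hK1 hcone1 hz d) (norm_nonneg _)
        _ ≤ C * Z := C2)
    (by
      intro m hm1 hm2
      rw [norm_inner_symm]
      exact s1 m hm1 hm2)
  rw [norm_inner_symm] at this
  calc ‖inner ℂ (A1 d) (J (A2 u))‖ ≤ ε / C * (C * Z) := this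
    _ = ε * Z := by field_simp

end Pool.Agent.SixB.An
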