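import Pool.Agent.Lib.SixB.S0Str
import Pool.Agent.Lib.SixB.S3OpLin

/-!
# 6BD, operator bound (2): localisation of the strand product

`Q` any complex of quadrangles, `F` a finite set of faces, `B i ⊆ F` disjoint sets of faces (`i ∈ I`), `c i` an
antisymmetric real function of the directed unit edges, supported on the unit edges inside `B i`.
For `h a = exp (∑ i, c i a)`: if all closed strands of `F` have turning `± 4` quarter turns, then
`‖Zs Q F ω h‖ ≤ 2 ^ (number of ends) * ∏ i ∈ I, GB Q (B i) (c i) ω` where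
`GB Q B c ω = ∏ over the directed strands Y of B of exp (f Y ^ 2)` (`Y` closed), `exp |f Y|` (`Y` not closed),
`f Y = ∑ a ∈ Y, c a`.
-/

set_option autoImplicit false
set_option linter.unusedSectionVars false

namespace Pool.Agent.SixB.Op

open Pool.Agent.Perc.Q Relation Pool.Agent.SixB

noncomputable section

variable {V Φ : Type} [DecidableEq V] [DecidableEq Φ]
variable {Q : QC V Φ} {F B : Finset Φ} {ω ω' : Φ → Bool} {a b : V × V} {X Y : Finset (V × V)}

/-- every member has a successor -/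
def Cls (Q : QC V Φ) (F : Finset Φ) (ω : Φ → Bool) (X : Finset (V × V)) : Prop :=
  ∀ a ∈ X, ∃ b, Nx Q ω (F : Set Φ) a b

/-- turning in quarter turns -/
def trn (Q : QC V Φ) (F : Finset Φ) (ω : Φ → Bool) (X : Finset (V × V)) : ℤ :=
  ∑ a ∈ X, qt Q F ω a

/-- the value of a one-form on a directed strand -/
def fS (c : V × V → ℝ) (X : Finset (V × V)) : ℝ := ∑ a ∈ X, c a

theorem qt_eq {f : Φ} (hf : f ∈ F) (k : ZMod 4) (ha : a = sd Q f k) :
    qt Q F ω a = qk (ω f) k := by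
  subst ha
  unfold qt
  rw [Finset.sum_eq_single f]
  · rw [Finset.sum_eq_single k]
    · rw [if_pos rfl]
    · intro k' _ hk'
      rw [if_neg]
      intro h
      have h1 := congrArg Prod.fst h
      have h2 := congrArg Prod.snd h
      exact hk' (Q.inj h1 h2).2
    · intro h
      exact absurd (Finset.mem_univ _) h
  · intro f' _ hf'
    refine Finset.sum_eq_zero ?_
    intro k' _
    rw [if_neg]
    intro h
    have h1 := congrArg Prod.fst h
    have h2 := congrArg Prod.snd h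
    exact hf' (Q.inj h1 h2).1
  · intro h
    exact absurd hf h

theorem nx_of_sd {f : Φ} (hf : f ∈ F) (k : ZMod 4) : ∃ b, Nx Q ω (F : Set Φ) (sd Q f k) b := by
  cases h : ω f
  · cases h' : ev k
    · exact ⟨_, f, hf, k, rfl, Or.inl ⟨by rw [h, h'], rfl⟩⟩
    · exact ⟨_, f, hf, k, rfl, Or.inr ⟨by rw [h, h']; rfl, rfl⟩⟩
  · cases h' : ev k
    · exact ⟨_, f, hf, k, rfl, Or.inr ⟨by rw [h, h']; rfl, rfl⟩⟩
    · exact ⟨_, f, hf, k, rfl, Or.inl ⟨by rw [h, h'], rfl⟩⟩

theorem qt_ter (h : ¬ ∃ b, Nx Q ω (F : Set Φ) a b) : qt Q F ω a = 0 := by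
  unfold qt
  refine Finset.sum_eq_zero ?_
  intro f hf
  refine Finset.sum_eq_zero ?_
  intro k _
  rw [if_neg]
  intro h'
  apply h
  rw [← h']
  exact nx_of_sd hf k

theorem qt_rev (h : Nx Q ω (F : Set Φ) a b) : qt Q F ω b.swap = - qt Q F ω a := by
  obtain ⟨f, hf, k, rfl, ⟨h1, rfl⟩ | ⟨h1, rfl⟩⟩ := h
  · have hf' : f ∈ F := by exact_mod_cast hf
    rw [qt_eq (a := (Q.c f k, Q.c f (k + 1))) hf' k rfl,
      qt_eq (a := (Q.c f (k + 2), Q.c f (k + 1)).swap) hf' (k + 1) (by unfold sd; rw [z1]; rfl)]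
    unfold qk
    rw [if_pos h1, if_neg]
    · rfl
    · rw [ev_add_one, h1]
      cases ev k <;> simp
  · have hf' : f ∈ F := by exact_mod_cast hf
    rw [qt_eq (a := (Q.c f k, Q.c f (k + 1))) hf' k rfl,
      qt_eq (a := (Q.c f k, Q.c f (k + 3)).swap) hf' (k + 3) (by unfold sd; rw [z5]; rfl)]
    unfold qk
    rw [if_pos (show ω f = ev (k + 3) by rw [ev_add_three, h1]),
      if_neg (show ¬ ω f = ev k by rw [h1]; cases ev k <;> simp)]

theorem dst_nx (hX : X ∈ dstr Q F ω) (ha : a ∈ X) (h : Nx Q ω (F : Set Φ) a b) : b ∈ X := by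
  obtain ⟨h1, rfl⟩ := dstr_of_mem hX ha
  exact mem_dst.2 ⟨Nx.right_mem h, EqvGen.rel _ _ h⟩

theorem dst_pred (hX : X ∈ dstr Q F ω) (hb : b ∈ X) (h : Nx Q ω (F : Set Φ) a b) : a ∈ X := by
  obtain ⟨h1, rfl⟩ := dstr_of_mem hX hb
  exact mem_dst.2 ⟨Nx.left_mem h, EqvGen.symm _ _ (EqvGen.rel _ _ h)⟩

theorem trn_rv (hX : X ∈ dstr Q F ω) : trn Q F ω (rv X) = - trn Q F ω X := by
  classical
  unfold trn rv
  rw [Finset.sum_image (fun x _ y _ h => Prod.swap_injective h)]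
  have h1 : ∑ a ∈ X, qt Q F ω a = ∑ a ∈ X.filter (fun a => ∃ b, Nx Q ω (F : Set Φ) a b), qt Q F ω a := by
    rw [Finset.sum_filter]
    refine Finset.sum_congr rfl ?_
    intro a _
    split_ifs with h
    · rfl
    · exact qt_ter h
  have h2 : ∑ b ∈ X, qt Q F ω b.swap =
      ∑ b ∈ X.filter (fun b => ∃ a, Nx Q ω (F : Set Φ) a b), qt Q F ω b.swap := by
    rw [Finset.sum_filter]
    refine Finset.sum_congr rfl ?_
    intro b _
    split_ifs with h
    · rfl
    · refine qt_ter ?_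
      rintro ⟨c, hc⟩
      apply h
      refine ⟨c.swap, ?_⟩
      have := hc.rev
      rwa [Prod.swap_swap] at this
  rw [h1, h2, ← Finset.sum_neg_distrib]
  symm
  refine Finset.sum_bij (fun a ha => (Finset.mem_filter.1 ha).2.choose) ?_ ?_ ?_ ?_
  · intro a ha
    have h3 := (Finset.mem_filter.1 ha).2.choose_spec
    exact Finset.mem_filter.2 ⟨dst_nx hX (Finset.mem_filter.1 ha).1 h3, ⟨a, h3⟩⟩
  · intro a ha a' ha' h
    have h3 := (Finset.mem_filter.1 ha).2.choose_spec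
    have h4 := (Finset.mem_filter.1 ha').2.choose_spec
    rw [← h] at h4
    exact h3.inj h4
  · intro b hb
    obtain ⟨hb1, a, ha⟩ := Finset.mem_filter.1 hb
    have ha' : a ∈ X.filter (fun a => ∃ b, Nx Q ω (F : Set Φ) a b) :=
      Finset.mem_filter.2 ⟨dst_pred hX hb1 ha, ⟨b, ha⟩⟩
    refine ⟨a, ha', ?_⟩
    exact (Finset.mem_filter.1 ha').2.choose_spec.unique ha
  · intro a ha
    exact (qt_rev (Finset.mem_filter.1 ha).2.choose_spec).symm

theorem fS_rv {c : V × V → ℝ} (hc : ∀ a, c a.swap = - c a) (X : Finset (V × V)) :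
    fS c (rv X) = - fS c X := by
  unfold fS rv
  rw [Finset.sum_image (fun x _ y _ h => Prod.swap_injective h), ← Finset.sum_neg_distrib]
  exact Finset.sum_congr rfl fun a _ => hc a

/-- the directed weight of a one-form -/
def hC (c : V × V → ℝ) : V × V → ℂ := fun a => (Real.exp (c a) : ℂ)

theorem sw_eq (c : V × V → ℝ) (X : Finset (V × V)) :
    sw Q F ω (hC c) X = (Real.exp (fS c X) : ℂ) * zeta ^ (trn Q F ω X) := by
  unfold sw hC fS trn
  rw [Finset.prod_mul_distrib, zprod, Real.exp_sum]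
  push_cast
  rfl

theorem norm_zeta_zpow (n : ℤ) : ‖zeta ^ n‖ = 1 := by
  have h : ‖zeta‖ = 1 := by
    unfold zeta
    rw [show (Real.pi / 12 * Complex.I : ℂ) = ((Real.pi / 12 : ℝ) : ℂ) * Complex.I by push_cast; ring]
    exact Complex.norm_exp_ofReal_mul_I _
  rw [norm_zpow, h, one_zpow]

theorem zeta_pow_four : zeta ^ (4 : ℤ) = 1 / 2 + (Real.sqrt 3 / 2 : ℝ) * Complex.I := by
  unfold zeta
  rw [zpow_ofNat, ← Complex.exp_nat_mul]
  rw [show ((4 : ℕ) : ℂ) * (Real.pi / 12 * Complex.I) = ((Real.pi / 3 : ℝ) : ℂ) * Complex.I by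
    push_cast; ring]
  rw [Complex.exp_mul_I, ← Complex.ofReal_cos, ← Complex.ofReal_sin, Real.cos_pi_div_three,
    Real.sin_pi_div_three]
  push_cast
  ring

theorem zeta_pow_neg_four : zeta ^ (-4 : ℤ) = 1 / 2 - (Real.sqrt 3 / 2 : ℝ) * Complex.I := by
  have h := zeta_four
  rw [zeta_pow_four] at h
  have : zeta ^ (-4 : ℤ) = 1 - (1 / 2 + (Real.sqrt 3 / 2 : ℝ) * Complex.I) := by
    linear_combination h
  rw [this]
  ring

theorem closed_eq (x : ℝ) : (Real.exp x : ℂ) * zeta ^ (4 : ℤ) + (Real.exp (-x) : ℂ) * zeta ^ (-4 : ℤ) =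
    (Real.cosh x : ℂ) + Complex.I * (Real.sqrt 3 : ℂ) * (Real.sinh x : ℂ) := by
  rw [zeta_pow_four, zeta_pow_neg_four, Real.cosh_eq, Real.sinh_eq]
  push_cast
  ring

theorem closed_norm (x : ℝ) :
    ‖(Real.exp x : ℂ) * zeta ^ (4 : ℤ) + (Real.exp (-x) : ℂ) * zeta ^ (-4 : ℤ)‖ ≤ Real.exp (2 * x ^ 2) ∧
    ‖(Real.exp x : ℂ) * zeta ^ (4 : ℤ) + (Real.exp (-x) : ℂ) * zeta ^ (-4 : ℤ)‖ ≤ Real.exp (2 * |x|) := by
  rw [closed_eq]
  exact ⟨cosh_bound x, cosh_bound' x⟩

/-- weight of an undirected closed strand -/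
theorem pair_closed {c : V × V → ℝ} (hQ : NoLoop Q) (hc : ∀ a, c a.swap = - c a)
    (hX : X ∈ dstr Q F ω) (ht : trn Q F ω X = 4 ∨ trn Q F ω X = -4) :
    ‖∑ Y ∈ ({X, rv X} : Finset (Finset (V × V))), sw Q F ω (hC c) Y‖ ≤ Real.exp (2 * fS c X ^ 2) ∧
    ‖∑ Y ∈ ({X, rv X} : Finset (Finset (V × V))), sw Q F ω (hC c) Y‖ ≤ Real.exp (2 * |fS c X|) := by
  rw [Finset.sum_pair (rv_ne hQ hX).symm, sw_eq, sw_eq, fS_rv hc, trn_rv hX]
  rcases ht with ht | ht
  · rw [ht]
    exact closed_norm _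
  · rw [ht, neg_neg, add_comm]
    have := closed_norm (-fS c X)
    rw [neg_neg, neg_sq, abs_neg] at this
    exact this

/-- weight of any undirected strand -/
theorem pair_open {c : V × V → ℝ} (hQ : NoLoop Q) (hc : ∀ a, c a.swap = - c a)
    (hX : X ∈ dstr Q F ω) :
    ‖∑ Y ∈ ({X, rv X} : Finset (Finset (V × V))), sw Q F ω (hC c) Y‖ ≤ 2 * Real.exp (|fS c X|) := by
  rw [Finset.sum_pair (rv_ne hQ hX).symm, sw_eq, sw_eq, fS_rv hc]
  have h1 : ∀ (x : ℝ) (n : ℤ), ‖(Real.exp x : ℂ) * zeta ^ n‖ = Real.exp x := by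
    intro x n
    rw [norm_mul, norm_zeta_zpow, mul_one, Complex.norm_real, Real.norm_eq_abs,
      abs_of_pos (Real.exp_pos _)]
  calc _ ≤ ‖(Real.exp (fS c X) : ℂ) * zeta ^ (trn Q F ω X)‖ +
        ‖(Real.exp (-fS c X) : ℂ) * zeta ^ (trn Q F ω (rv X))‖ := norm_add_le _ _
    _ = Real.exp (fS c X) + Real.exp (-fS c X) := by rw [h1, h1]
    _ ≤ Real.exp |fS c X| + Real.exp |fS c X| :=
        add_le_add (Real.exp_le_exp.2 (le_abs_self _)) (Real.exp_le_exp.2 (neg_le_abs _))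
    _ = 2 * Real.exp (|fS c X|) := by ring

/-! ## pieces -/

theorem nx_mono (h : B ⊆ F) (hn : Nx Q ω (B : Set Φ) a b) : Nx Q ω (F : Set Φ) a b := by
  obtain ⟨f, hf, h1⟩ := hn
  exact ⟨f, by exact_mod_cast h (by exact_mod_cast hf), h1⟩

theorem dE_mono (h : B ⊆ F) : dE Q B ⊆ dE Q F := by
  intro a ha
  obtain ⟨f, hf, k, hk⟩ := mem_dE.1 ha
  exact mem_dE.2 ⟨f, h hf, k, hk⟩

theorem srel_mono (h : B ⊆ F) (hr : SRel Q B ω a b) : SRel Q F ω a b := by
  unfold SRel at *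
  induction hr with
  | rel x y hxy => exact EqvGen.rel _ _ (nx_mono h hxy)
  | refl x => exact EqvGen.refl _
  | symm x y _ ih => exact EqvGen.symm _ _ ih
  | trans x y z _ _ ih1 ih2 => exact EqvGen.trans _ _ _ ih1 ih2

theorem piece_sub (h : B ⊆ F) (hY : Y ∈ dstr Q B ω) (hX : X ∈ dstr Q F ω) (ha : a ∈ Y)
    (ha' : a ∈ X) : Y ⊆ X := by
  obtain ⟨h1, rfl⟩ := dstr_of_mem hY ha
  obtain ⟨h2, rfl⟩ := dstr_of_mem hX ha'
  intro b hb
  exact mem_dst.2 ⟨dE_mono h (mem_dst.1 hb).1, srel_mono h (mem_dst.1 hb).2⟩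

theorem dstr_nonempty (hX : X ∈ dstr Q F ω) : X.Nonempty := by
  obtain ⟨a, ha, rfl⟩ := mem_dstr.1 hX
  exact ⟨a, self_mem_dst ha⟩

/-- a closed directed strand: every member has a predecessor in it -/
theorem cls_pred (hX : X ∈ dstr Q F ω) (hc : Cls Q F ω X) (hb : b ∈ X) :
    ∃ a ∈ X, Nx Q ω (F : Set Φ) a b := by
  classical
  have h1 : ∀ a ∈ X, ∃ b, Nx Q ω (F : Set Φ) a b := hc
  choose! g hg using h1
  have hmaps : ∀ a ∈ X, g a ∈ X := fun a ha => dst_nx hX ha (hg a ha)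
  have hinj : Set.InjOn g X := by
    intro a ha a' ha' h
    have := hg a' ha'
    rw [← h] at this
    exact (hg a ha).inj this
  have hsurj := Finset.surjOn_of_injOn_of_card_le g hmaps hinj le_rfl
  obtain ⟨a, ha, rfl⟩ := hsurj hb
  exact ⟨a, ha, hg a ha⟩

/-- a closed piece is the whole strand -/
theorem cls_piece (h : B ⊆ F) (hY : Y ∈ dstr Q B ω) (hX : X ∈ dstr Q F ω)
    (hc : Cls Q B ω Y) (ha : a ∈ Y) (ha' : a ∈ X) : X = Y := by
  refine Finset.Subset.antisymm ?_ (piece_sub h hY hX ha ha')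
  obtain ⟨h2, rfl⟩ := dstr_of_mem hX ha'
  intro b hb
  have hr : SRel Q F ω a b := (mem_dst.1 hb).2
  have key : ∀ x y, SRel Q F ω x y → (x ∈ Y ↔ y ∈ Y) := by
    intro x y hxy
    unfold SRel at hxy
    induction hxy with
    | rel x y hxy =>
      constructor
      · intro hx
        obtain ⟨z, hz⟩ := hc x hx
        have h3 := hxy.unique (nx_mono h hz)
        rw [h3]
        exact dst_nx hY hx hz
      · intro hy
        obtain ⟨z, hz1, hz2⟩ := cls_pred hY hc hy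
        have h3 := hxy.inj (nx_mono h hz2)
        rw [h3]
        exact hz1
    | refl x => exact Iff.rfl
    | symm x y _ ih => exact ih.symm
    | trans x y z _ _ ih1 ih2 => exact ih1.trans ih2
  exact (key a b hr).1 ha

/-- the directed strands of `B` contained in `X` -/
def pcs (Q : QC V Φ) (B : Finset Φ) (ω : Φ → Bool) (X : Finset (V × V)) :
    Finset (Finset (V × V)) := (dstr Q B ω).filter (· ⊆ X)

theorem sum_pieces (h : B ⊆ F) {c : V × V → ℝ} (hc : ∀ a, c a ≠ 0 → a ∈ dE Q B)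
    (hX : X ∈ dstr Q F ω) : fS c X = ∑ Y ∈ pcs Q B ω X, fS c Y := by
  classical
  unfold fS
  rw [← Finset.sum_biUnion]
  · symm
    refine Finset.sum_subset ?_ ?_
    · intro a ha
      obtain ⟨Y, hY, haY⟩ := Finset.mem_biUnion.1 ha
      exact (Finset.mem_filter.1 hY).2 haY
    · intro a ha hna
      by_contra hne
      apply hna
      have h1 := hc a hne
      refine Finset.mem_biUnion.2 ⟨dst Q B ω a, Finset.mem_filter.2 ⟨mem_dstr.2 ⟨a, h1, rfl⟩, ?_⟩,
        self_mem_dst h1⟩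
      exact piece_sub h (mem_dstr.2 ⟨a, h1, rfl⟩) hX (self_mem_dst h1) ha
  · intro Y hY Z hZ hne
    exact dstr_disj (Finset.mem_filter.1 hY).1 (Finset.mem_filter.1 hZ).1 hne

open Classical in
/-- local weight of a directed strand of `B` -/
def gB (Q : QC V Φ) (B : Finset Φ) (c : V × V → ℝ) (ω : Φ → Bool) (Y : Finset (V × V)) : ℝ :=
  if Cls Q B ω Y then Real.exp (fS c Y ^ 2) else Real.exp |fS c Y|

/-- local weight of a configuration -/
def GB (Q : QC V Φ) (B : Finset Φ) (c : V × V → ℝ) (ω : Φ → Bool) : ℝ :=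
  ∏ Y ∈ dstr Q B ω, gB Q B c ω Y

theorem one_le_gB (c : V × V → ℝ) (Y : Finset (V × V)) : 1 ≤ gB Q B c ω Y := by
  unfold gB
  split_ifs
  · exact Real.one_le_exp (sq_nonneg _)
  · exact Real.one_le_exp (abs_nonneg _)

theorem one_le_GB (c : V × V → ℝ) : 1 ≤ GB Q B c ω := by
  unfold GB
  exact Finset.one_le_prod (fun Y _ => one_le_gB c Y)

theorem cls_rv (hX : X ∈ dstr Q F ω) (hc : Cls Q F ω X) : Cls Q F ω (rv X) := by
  intro a ha
  rw [mem_rv] at ha
  obtain ⟨b, hb, hn⟩ := cls_pred hX hc ha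
  refine ⟨b.swap, ?_⟩
  have := hn.rev
  rwa [Prod.swap_swap] at this

theorem fS_sum {ι : Type} (I : Finset ι) (c : ι → V × V → ℝ) (X : Finset (V × V)) :
    fS (fun a => ∑ i ∈ I, c i a) X = ∑ i ∈ I, fS (c i) X := by
  unfold fS
  exact Finset.sum_comm

theorem rv_sub {X Y : Finset (V × V)} (h : Y ⊆ X) : rv Y ⊆ rv X := by
  intro a ha
  rw [mem_rv] at ha ⊢
  exact h ha

/-- all pieces of the undirected strand -/
def pcU (Q : QC V Φ) (B : Finset Φ) (ω : Φ → Bool) (X : Finset (V × V)) :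
    Finset (Finset (V × V)) := (dstr Q B ω).filter (· ⊆ X ∪ rv X)

theorem x_disj_rv (hQ : NoLoop Q) (hX : X ∈ dstr Q F ω) : Disjoint X (rv X) :=
  dstr_disj hX (rv_mem_dstr hX) (rv_ne hQ hX).symm

theorem sum_pcU (hQ : NoLoop Q) {c : V × V → ℝ} (hc : ∀ a, c a.swap = - c a)
    (hX : X ∈ dstr Q F ω) :
    2 * ∑ Y ∈ pcs Q B ω X, |fS c Y| ≤ ∑ Y ∈ pcU Q B ω X, |fS c Y| := by
  classical
  have h1 : Disjoint (pcs Q B ω X) ((pcs Q B ω X).image rv) := by
    rw [Finset.disjoint_left]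
    intro Y hY hY'
    obtain ⟨Z, hZ, hZY⟩ := Finset.mem_image.1 hY'
    have hY1 := Finset.mem_filter.1 hY
    have hZ1 := Finset.mem_filter.1 hZ
    obtain ⟨a, ha⟩ := dstr_nonempty hY1.1
    have h2 := hY1.2 ha
    rw [← hZY] at ha
    have h3 := rv_sub hZ1.2 ha
    exact (Finset.disjoint_left.1 (x_disj_rv hQ hX)) h2 h3
  have h2 : pcs Q B ω X ∪ (pcs Q B ω X).image rv ⊆ pcU Q B ω X := by
    intro Y hY
    rcases Finset.mem_union.1 hY with h | h
    · exact Finset.mem_filter.2 ⟨(Finset.mem_filter.1 h).1,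
        (Finset.mem_filter.1 h).2.trans Finset.subset_union_left⟩
    · obtain ⟨Z, hZ, rfl⟩ := Finset.mem_image.1 h
      exact Finset.mem_filter.2 ⟨rv_mem_dstr (Finset.mem_filter.1 hZ).1,
        (rv_sub (Finset.mem_filter.1 hZ).2).trans Finset.subset_union_right⟩
  have h3 : ∑ Y ∈ (pcs Q B ω X).image rv, |fS c Y| = ∑ Y ∈ pcs Q B ω X, |fS c Y| := by
    rw [Finset.sum_image]
    · refine Finset.sum_congr rfl ?_
      intro Y _
      rw [fS_rv hc, abs_neg]
    · intro Y _ Z _ h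
      have := congrArg rv h
      rwa [rv_rv, rv_rv] at this
  calc 2 * ∑ Y ∈ pcs Q B ω X, |fS c Y|
      = ∑ Y ∈ pcs Q B ω X, |fS c Y| + ∑ Y ∈ (pcs Q B ω X).image rv, |fS c Y| := by
        rw [h3]; ring
    _ = ∑ Y ∈ pcs Q B ω X ∪ (pcs Q B ω X).image rv, |fS c Y| := (Finset.sum_union h1).symm
    _ ≤ _ := Finset.sum_le_sum_of_subset_of_nonneg h2 fun _ _ _ => abs_nonneg _

open Classical in
/-- the factor 2 of an open strand -/
def eU (Q : QC V Φ) (F : Finset Φ) (ω : Φ → Bool) (X : Finset (V × V)) : ℝ :=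
  if Cls Q F ω X then 1 else 2

/-- bound of the weight of one undirected strand by its pieces -/
theorem local_bound {ι : Type} (I : Finset ι) (Bx : ι → Finset Φ) (c : ι → V × V → ℝ)
    (hQ : NoLoop Q) (hsub : ∀ i ∈ I, Bx i ⊆ F) (hanti : ∀ i ∈ I, ∀ a, c i a.swap = - c i a)
    (hsupp : ∀ i ∈ I, ∀ a, c i a ≠ 0 → ∃ f ∈ Bx i, ∃ k, a = sd Q f k)
    (hdisj : ∀ i ∈ I, ∀ j ∈ I, i ≠ j → Disjoint (Bx i) (Bx j))
    (hX : X ∈ dstr Q F ω)
    (hturn : Cls Q F ω X → trn Q F ω X = 4 ∨ trn Q F ω X = -4) :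
    ‖∑ Y ∈ ({X, rv X} : Finset (Finset (V × V))), sw Q F ω (hC (fun a => ∑ i ∈ I, c i a)) Y‖ ≤
      eU Q F ω X * ∏ i ∈ I, ∏ Y ∈ pcU Q (Bx i) ω X, gB Q (Bx i) (c i) ω Y := by
  classical
  set c' : V × V → ℝ := fun a => ∑ i ∈ I, c i a with hc'
  have hc'a : ∀ a, c' a.swap = - c' a := by
    intro a
    rw [hc']
    simp only
    rw [← Finset.sum_neg_distrib]
    exact Finset.sum_congr rfl fun i hi => hanti i hi a
  by_cases hA : ∃ i ∈ I, X ∈ dstr Q (Bx i) ω ∧ Cls Q (Bx i) ω X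
  · obtain ⟨i, hi, hXi, hci⟩ := hA
    have hclF : Cls Q F ω X := by
      intro a ha
      obtain ⟨b, hb⟩ := hci a ha
      exact ⟨b, nx_mono (hsub i hi) hb⟩
    have h1 := (pair_closed hQ hc'a hX (hturn hclF)).1
    have h2 : fS c' X = fS (c i) X := by
      rw [hc', fS_sum]
      rw [Finset.sum_eq_single i]
      · intro j hj hji
        unfold fS
        refine Finset.sum_eq_zero ?_
        intro a ha
        by_contra hne
        obtain ⟨f, hf, k, hk⟩ := hsupp j hj a hne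
        obtain ⟨b, f', hf', k', hk', -⟩ := hci a ha
        rw [hk] at hk'
        have h3 := Q.inj (congrArg Prod.fst hk') (congrArg Prod.snd hk')
        rw [h3.1] at hf
        exact (Finset.disjoint_left.1 (hdisj j hj i hi hji)) hf (by exact_mod_cast hf')
      · intro h
        exact absurd hi h
    have h3 : ({X, rv X} : Finset (Finset (V × V))) ⊆ pcU Q (Bx i) ω X := by
      intro Y hY
      rcases Finset.mem_insert.1 hY with rfl | hY
      · exact Finset.mem_filter.2 ⟨hXi, Finset.subset_union_left⟩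
      · rw [Finset.mem_singleton] at hY
        subst hY
        exact Finset.mem_filter.2 ⟨rv_mem_dstr hXi, Finset.subset_union_right⟩
    have h4 : Real.exp (2 * fS (c i) X ^ 2) ≤ ∏ Y ∈ pcU Q (Bx i) ω X, gB Q (Bx i) (c i) ω Y := by
      have h5 : ∏ Y ∈ ({X, rv X} : Finset (Finset (V × V))), gB Q (Bx i) (c i) ω Y =
          Real.exp (2 * fS (c i) X ^ 2) := by
        rw [Finset.prod_pair (rv_ne hQ hX).symm]
        unfold gB
        rw [if_pos hci, if_pos (cls_rv hXi hci), fS_rv (hanti i hi), neg_sq, ← Real.exp_add]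
        congr 1
        ring
      rw [← h5]
      exact Finset.prod_le_prod_of_subset_of_one_le h3 (fun Y _ => zero_le_one.trans (one_le_gB _ _))
        (fun Y _ _ => one_le_gB _ _)
    have h5 : ∏ Y ∈ pcU Q (Bx i) ω X, gB Q (Bx i) (c i) ω Y ≤
        ∏ i ∈ I, ∏ Y ∈ pcU Q (Bx i) ω X, gB Q (Bx i) (c i) ω Y := by
      rw [← Finset.prod_erase_mul _ _ hi]
      refine le_mul_of_one_le_left ?_ ?_
      · exact zero_le_one.trans (Finset.one_le_prod fun Y _ => one_le_gB _ _)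
      · exact Finset.one_le_prod fun j _ => Finset.one_le_prod fun Y _ => one_le_gB _ _
    unfold eU
    rw [if_pos hclF, one_mul]
    rw [h2] at h1
    exact h1.trans (h4.trans h5)
  · -- no closed piece
    have hno : ∀ i ∈ I, ∀ Y ∈ pcU Q (Bx i) ω X, ¬ Cls Q (Bx i) ω Y := by
      intro i hi Y hY hcl
      apply hA
      obtain ⟨hY1, hY2⟩ := Finset.mem_filter.1 hY
      obtain ⟨a, ha⟩ := dstr_nonempty hY1
      rcases Finset.mem_union.1 (hY2 ha) with h | h
      · have := cls_piece (hsub i hi) hY1 hX hcl ha h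
        rw [this]
        exact ⟨i, hi, hY1, hcl⟩
      · have := cls_piece (hsub i hi) hY1 (rv_mem_dstr hX) hcl ha h
        have h2 : X = rv Y := by rw [← this, rv_rv]
        rw [h2]
        exact ⟨i, hi, rv_mem_dstr hY1, cls_rv hY1 hcl⟩
    have h1 : |fS c' X| ≤ ∑ i ∈ I, ∑ Y ∈ pcs Q (Bx i) ω X, |fS (c i) Y| := by
      rw [hc', fS_sum]
      refine (Finset.abs_sum_le_sum_abs _ _).trans (Finset.sum_le_sum ?_)
      intro i hi
      rw [sum_pieces (hsub i hi) (fun a ha => by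
        obtain ⟨f, hf, k, rfl⟩ := hsupp i hi a ha
        exact sd_mem hf k) hX]
      exact Finset.abs_sum_le_sum_abs _ _
    have h2 : 2 * |fS c' X| ≤ ∑ i ∈ I, ∑ Y ∈ pcU Q (Bx i) ω X, |fS (c i) Y| := by
      calc 2 * |fS c' X| ≤ 2 * ∑ i ∈ I, ∑ Y ∈ pcs Q (Bx i) ω X, |fS (c i) Y| := by linarith
        _ = ∑ i ∈ I, 2 * ∑ Y ∈ pcs Q (Bx i) ω X, |fS (c i) Y| := Finset.mul_sum _ _ _
        _ ≤ _ := Finset.sum_le_sum fun i hi => sum_pcU hQ (hanti i hi) hX
    have h3 : Real.exp (2 * |fS c' X|) ≤ ∏ i ∈ I, ∏ Y ∈ pcU Q (Bx i) ω X, gB Q (Bx i) (c i) ω Y := by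
      refine (Real.exp_le_exp.2 h2).trans (le_of_eq ?_)
      rw [Real.exp_sum]
      refine Finset.prod_congr rfl ?_
      intro i hi
      rw [Real.exp_sum]
      refine Finset.prod_congr rfl ?_
      intro Y hY
      unfold gB
      rw [if_neg (hno i hi Y hY)]
    unfold eU
    split_ifs with hcl
    · rw [one_mul]
      exact (pair_closed hQ hc'a hX (hturn hcl)).2.trans h3
    · refine (pair_open hQ hc'a hX).trans ?_
      refine mul_le_mul_of_nonneg_left (le_trans ?_ h3) (by norm_num)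
      exact Real.exp_le_exp.2 (by linarith [abs_nonneg (fS c' X)])

/-- the directed unit edges of `F` without a face ahead -/
def ends (Q : QC V Φ) (F : Finset Φ) : Finset (V × V) :=
  (dE Q F).filter fun a => ∀ f ∈ F, ∀ k, a ≠ sd Q f k

theorem exists_end (hX : X ∈ dstr Q F ω) (h : ¬ Cls Q F ω X) : ∃ a ∈ X, a ∈ ends Q F := by
  unfold Cls at h
  push Not at h
  obtain ⟨a, ha, hn⟩ := h
  refine ⟨a, ha, Finset.mem_filter.2 ⟨(dstr_of_mem hX ha).1, ?_⟩⟩
  rintro f hf k rfl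
  obtain ⟨b, hb⟩ := nx_of_sd (Q := Q) (ω := ω) hf k
  exact hn b hb

theorem mem_ust {U : Finset (Finset (V × V))} :
    U ∈ ust Q F ω ↔ ∃ X ∈ dstr Q F ω, ({X, rv X} : Finset (Finset (V × V))) = U := by
  unfold ust
  rw [Finset.mem_image]

theorem pair_rv (X : Finset (V × V)) :
    ({rv X, rv (rv X)} : Finset (Finset (V × V))) = ({X, rv X} : Finset (Finset (V × V))) := by
  rw [rv_rv, Finset.pair_comm]

/-- the undirected strand of a member -/
theorem ust_eq_of_mem (hX : X ∈ dstr Q F ω) (hY : Y ∈ dstr Q F ω) (ha : a ∈ X ∪ rv X)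
    (ha' : a ∈ Y ∪ rv Y) : ({X, rv X} : Finset (Finset (V × V))) = {Y, rv Y} := by
  have key : ∀ X' Y', X' ∈ dstr Q F ω → Y' ∈ dstr Q F ω → a ∈ X' → a ∈ Y' → X' = Y' := by
    intro X' Y' h1 h2 h3 h4
    by_contra hne
    exact (Finset.disjoint_left.1 (dstr_disj h1 h2 hne)) h3 h4
  rcases Finset.mem_union.1 ha with h | h <;> rcases Finset.mem_union.1 ha' with h' | h'
  · rw [key X Y hX hY h h']
  · rw [key X (rv Y) hX (rv_mem_dstr hY) h h', pair_rv]
  · rw [← key (rv X) Y (rv_mem_dstr hX) hY h h', pair_rv]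
  · have := key (rv X) (rv Y) (rv_mem_dstr hX) (rv_mem_dstr hY) h h'
    have h2 := congrArg rv this
    rw [rv_rv, rv_rv] at h2
    rw [h2]

/-- **Localisation.** -/
theorem Zs_bound {ι : Type} (I : Finset ι) (Bx : ι → Finset Φ) (c : ι → V × V → ℝ)
    (hQ : NoLoop Q) (hsub : ∀ i ∈ I, Bx i ⊆ F) (hanti : ∀ i ∈ I, ∀ a, c i a.swap = - c i a)
    (hsupp : ∀ i ∈ I, ∀ a, c i a ≠ 0 → ∃ f ∈ Bx i, ∃ k, a = sd Q f k)
    (hdisj : ∀ i ∈ I, ∀ j ∈ I, i ≠ j → Disjoint (Bx i) (Bx j))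
    (hturn : ∀ X ∈ dstr Q F ω, Cls Q F ω X → trn Q F ω X = 4 ∨ trn Q F ω X = -4) :
    ‖Zs Q F ω (hC (fun a => ∑ i ∈ I, c i a))‖ ≤
      2 ^ (ends Q F).card * ∏ i ∈ I, GB Q (Bx i) (c i) ω := by
  classical
  have hrep : ∀ U ∈ ust Q F ω, ∃ X ∈ dstr Q F ω, ({X, rv X} : Finset (Finset (V × V))) = U :=
    fun U hU => mem_ust.1 hU
  choose! r hr1 hr2 using hrep
  unfold Zs
  rw [norm_prod]
  have h1 : ∀ U ∈ ust Q F ω, ‖∑ X ∈ U, sw Q F ω (hC (fun a => ∑ i ∈ I, c i a)) X‖ ≤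
      eU Q F ω (r U) * ∏ i ∈ I, ∏ Y ∈ pcU Q (Bx i) ω (r U), gB Q (Bx i) (c i) ω Y := by
    intro U hU
    have := local_bound I Bx c hQ hsub hanti hsupp hdisj (hr1 U hU) (hturn _ (hr1 U hU))
    rwa [hr2 U hU] at this
  refine (Finset.prod_le_prod (fun U _ => norm_nonneg _) h1).trans ?_
  rw [Finset.prod_mul_distrib]
  refine mul_le_mul ?_ ?_ (Finset.prod_nonneg fun U _ => Finset.prod_nonneg fun i _ =>
    Finset.prod_nonneg fun Y _ => zero_le_one.trans (one_le_gB _ _)) (by positivity)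
  · -- open strands
    have h2 : ∏ U ∈ ust Q F ω, eU Q F ω (r U) =
        2 ^ ((ust Q F ω).filter fun U => ¬ Cls Q F ω (r U)).card := by
      unfold eU
      rw [← Finset.prod_const, Finset.prod_filter]
      refine Finset.prod_congr rfl ?_
      intro U _
      by_cases hcl : Cls Q F ω (r U)
      · rw [if_pos hcl, if_neg (not_not.2 hcl)]
      · rw [if_neg hcl, if_pos hcl]
    rw [h2]
    refine pow_le_pow_right₀ (by norm_num) ?_
    have h3 : ∀ U ∈ (ust Q F ω).filter (fun U => ¬ Cls Q F ω (r U)), ∃ a, a ∈ r U ∧ a ∈ ends Q F := by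
      intro U hU
      obtain ⟨hU1, hU2⟩ := Finset.mem_filter.1 hU
      obtain ⟨a, ha, ha'⟩ := exists_end (hr1 U hU1) hU2
      exact ⟨a, ha, ha'⟩
    rcases ((ust Q F ω).filter fun U => ¬ Cls Q F ω (r U)).eq_empty_or_nonempty with h0 | ⟨U₀, hU₀⟩
    · rw [h0, Finset.card_empty]
      exact Nat.zero_le _
    have : Nonempty (V × V) := ⟨(h3 U₀ hU₀).choose⟩
    choose! e he1 he2 using h3
    refine Finset.card_le_card_of_injOn e (fun U hU => ?_) ?_
    · exact he2 U (by exact_mod_cast hU)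
    · intro U hU U' hU' h
      have hU1 : U ∈ (ust Q F ω).filter (fun U => ¬ Cls Q F ω (r U)) := by exact_mod_cast hU
      have hU1' : U' ∈ (ust Q F ω).filter (fun U => ¬ Cls Q F ω (r U)) := by exact_mod_cast hU'
      have h4 := he1 U hU1
      have h5 := he1 U' hU1'
      rw [← h] at h5
      have hm := (Finset.mem_filter.1 hU1).1
      have hm' := (Finset.mem_filter.1 hU1').1
      rw [← hr2 U hm, ← hr2 U' hm']
      exact ust_eq_of_mem (hr1 U hm) (hr1 U' hm') (Finset.mem_union_left _ h4)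
        (Finset.mem_union_left _ h5)
  · rw [Finset.prod_comm]
    refine Finset.prod_le_prod (fun i _ => Finset.prod_nonneg fun U _ => Finset.prod_nonneg
      fun Y _ => zero_le_one.trans (one_le_gB _ _)) ?_
    intro i hi
    rw [← Finset.prod_biUnion]
    · unfold GB
      refine Finset.prod_le_prod_of_subset_of_one_le ?_ (fun Y _ => zero_le_one.trans (one_le_gB _ _))
        (fun Y _ _ => one_le_gB _ _)
      intro Y hY
      obtain ⟨U, _, hYU⟩ := Finset.mem_biUnion.1 hY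
      exact (Finset.mem_filter.1 hYU).1
    · intro U hU U' hU' hne
      have hU1 : U ∈ ust Q F ω := by exact_mod_cast hU
      have hU1' : U' ∈ ust Q F ω := by exact_mod_cast hU'
      refine Finset.disjoint_left.2 ?_
      intro Y hY hY'
      apply hne
      obtain ⟨hY1, hY2⟩ := Finset.mem_filter.1 hY
      obtain ⟨hY3, hY4⟩ := Finset.mem_filter.1 hY'
      obtain ⟨a, ha⟩ := dstr_nonempty hY1
      rw [← hr2 U hU1, ← hr2 U' hU1']
      exact ust_eq_of_mem (hr1 U hU1) (hr1 U' hU1') (hY2 ha) (hY4 ha)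

/-! ## dependence on the configuration and product structure -/

theorem nx_congr (h : ∀ f ∈ B, ω f = ω' f) : Nx Q ω (B : Set Φ) a b ↔ Nx Q ω' (B : Set Φ) a b := by
  constructor
  · rintro ⟨f, hf, k, h1, h2⟩
    refine ⟨f, hf, k, h1, ?_⟩
    rwa [← h f (by exact_mod_cast hf)]
  · rintro ⟨f, hf, k, h1, h2⟩
    refine ⟨f, hf, k, h1, ?_⟩
    rwa [h f (by exact_mod_cast hf)]

theorem dst_congr (h : ∀ f ∈ B, ω f = ω' f) : dst Q B ω a = dst Q B ω' a := by
  have h1 : Nx Q ω (B : Set Φ) = Nx Q ω' (B : Set Φ) := by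
    funext x y
    exact propext (nx_congr h)
  ext b
  rw [mem_dst, mem_dst]
  unfold SRel
  rw [h1]

theorem GB_congr (c : V × V → ℝ) (h : ∀ f ∈ B, ω f = ω' f) : GB Q B c ω = GB Q B c ω' := by
  have h1 : dstr Q B ω = dstr Q B ω' := by
    unfold dstr
    refine Finset.image_congr ?_
    intro a _
    exact dst_congr h
  unfold GB
  rw [h1]
  refine Finset.prod_congr rfl ?_
  intro Y _
  unfold gB
  have h2 : Cls Q B ω Y ↔ Cls Q B ω' Y := by
    unfold Cls
    constructor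
    · intro hh a ha
      obtain ⟨b, hb⟩ := hh a ha
      exact ⟨b, (nx_congr h).1 hb⟩
    · intro hh a ha
      obtain ⟨b, hb⟩ := hh a ha
      exact ⟨b, (nx_congr h).2 hb⟩
  by_cases h3 : Cls Q B ω Y
  · rw [if_pos h3, if_pos (h2.1 h3)]
  · rw [if_neg h3, if_neg (fun hh => h3 (h2.2 hh))]

/-- sum over the configurations of a union of disjoint sets of faces -/
theorem sum_powerset_union {A B : Finset Φ} (h : Disjoint A B) (g : Finset Φ → ℝ) :
    ∑ T ∈ (A ∪ B).powerset, g T = ∑ S ∈ A.powerset, ∑ T ∈ B.powerset, g (S ∪ T) := by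
  rw [← Finset.sum_product']
  symm
  refine Finset.sum_bij (fun p _ => p.1 ∪ p.2) ?_ ?_ ?_ ?_
  · rintro ⟨S, T⟩ hp
    rw [Finset.mem_product, Finset.mem_powerset, Finset.mem_powerset] at hp
    rw [Finset.mem_powerset]
    exact Finset.union_subset_union hp.1 hp.2
  · rintro ⟨S, T⟩ hp ⟨S', T'⟩ hp' heq
    rw [Finset.mem_product, Finset.mem_powerset, Finset.mem_powerset] at hp hp'
    simp only at heq hp hp'
    have e1 : ∀ (S T : Finset Φ), S ⊆ A → T ⊆ B → (S ∪ T) ∩ A = S ∧ (S ∪ T) ∩ B = T := by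
      intro S T hS hT
      constructor
      · ext x
        rw [Finset.mem_inter, Finset.mem_union]
        constructor
        · rintro ⟨hx | hx, hA⟩
          · exact hx
          · exact absurd (hT hx) (Finset.disjoint_left.1 h hA)
        · intro hx
          exact ⟨Or.inl hx, hS hx⟩
      · ext x
        rw [Finset.mem_inter, Finset.mem_union]
        constructor
        · rintro ⟨hx | hx, hB⟩
          · exact absurd hB (Finset.disjoint_left.1 h (hS hx))
          · exact hx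
        · intro hx
          exact ⟨Or.inr hx, hT hx⟩
    have h1 := e1 S T hp.1 hp.2
    have h2 := e1 S' T' hp'.1 hp'.2
    rw [heq] at h1
    rw [Prod.mk.injEq]
    exact ⟨h1.1.symm.trans h2.1, h1.2.symm.trans h2.2⟩
  · intro T hT
    rw [Finset.mem_powerset] at hT
    refine ⟨(T ∩ A, T ∩ B), ?_, ?_⟩
    · rw [Finset.mem_product, Finset.mem_powerset, Finset.mem_powerset]
      exact ⟨Finset.inter_subset_right, Finset.inter_subset_right⟩
    · rw [← Finset.inter_union_distrib_left]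
      exact Finset.inter_eq_left.2 hT
  · intro p _
    rfl

theorem ind_union_left {A B S T : Finset Φ} (h : Disjoint A B) (hT : T ⊆ B) :
    ∀ f ∈ A, ind (S ∪ T) f = ind S f := by
  intro f hf
  unfold ind
  congr 1
  rw [Finset.mem_union]
  simp only [eq_iff_iff, or_iff_left_iff_imp]
  intro h1
  exact absurd (hT h1) (Finset.disjoint_left.1 h hf)

theorem ind_union_right {A B S T : Finset Φ} (h : Disjoint A B) (hS : S ⊆ A) :
    ∀ f ∈ B, ind (S ∪ T) f = ind T f := by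
  intro f hf
  rw [Finset.union_comm]
  exact ind_union_left h.symm hS f hf

/-- average of a function over the configurations of `A` -/
def av (A : Finset Φ) (g : (Φ → Bool) → ℝ) : ℝ := (∑ T ∈ A.powerset, g (ind T)) / 2 ^ A.card

theorem av_window {A W : Finset Φ} (h : A ⊆ W) (g : (Φ → Bool) → ℝ)
    (hg : ∀ ω ω' : Φ → Bool, (∀ f ∈ A, ω f = ω' f) → g ω = g ω') : av W g = av A g := by
  classical
  have hd : Disjoint A (W \ A) := Finset.disjoint_sdiff
  have hW : A ∪ (W \ A) = W := Finset.union_sdiff_of_subset h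
  unfold av
  conv_lhs => rw [← hW]
  rw [sum_powerset_union hd (fun T => g (ind T)), Finset.card_union_of_disjoint hd, pow_add]
  have h1 : ∀ S ∈ A.powerset, ∑ T ∈ (W \ A).powerset, g (ind (S ∪ T)) =
      2 ^ (W \ A).card * g (ind S) := by
    intro S _
    rw [Finset.sum_congr rfl (g := fun _ => g (ind S))]
    · rw [Finset.sum_const, Finset.card_powerset, nsmul_eq_mul]
      push_cast
      ring
    · intro T hT
      exact hg _ _ (ind_union_left hd (Finset.mem_powerset.1 hT))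
  rw [Finset.sum_congr rfl h1, ← Finset.mul_sum]
  field_simp

/-- independence -/
theorem av_mul {A B W : Finset Φ} (hd : Disjoint A B) (hA : A ⊆ W) (hB : B ⊆ W)
    (g g' : (Φ → Bool) → ℝ) (hg : ∀ ω ω' : Φ → Bool, (∀ f ∈ A, ω f = ω' f) → g ω = g ω')
    (hg' : ∀ ω ω' : Φ → Bool, (∀ f ∈ B, ω f = ω' f) → g' ω = g' ω') :
    av W (fun ω => g ω * g' ω) = av A g * av B g' := by
  classical
  rw [av_window (Finset.union_subset hA hB) (fun ω => g ω * g' ω)
    (fun ω ω' h => by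
      rw [hg ω ω' (fun f hf => h f (Finset.mem_union_left _ hf)),
        hg' ω ω' (fun f hf => h f (Finset.mem_union_right _ hf))])]
  unfold av
  rw [sum_powerset_union hd (fun T => g (ind T) * g' (ind T)), Finset.card_union_of_disjoint hd,
    pow_add]
  have h1 : ∀ S ∈ A.powerset, ∑ T ∈ B.powerset, g (ind (S ∪ T)) * g' (ind (S ∪ T)) =
      g (ind S) * ∑ T ∈ B.powerset, g' (ind T) := by
    intro S hS
    rw [Finset.mul_sum]
    refine Finset.sum_congr rfl ?_
    intro T hT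
    rw [hg _ _ (ind_union_left hd (Finset.mem_powerset.1 hT)),
      hg' _ _ (ind_union_right hd (Finset.mem_powerset.1 hS))]
  rw [Finset.sum_congr rfl h1, ← Finset.sum_mul, mul_div_mul_comm]

theorem av_prod {ι : Type} [DecidableEq ι] (W : Finset Φ) (Bx : ι → Finset Φ)
    (g : ι → (Φ → Bool) → ℝ) (I : Finset ι) (hsub : ∀ i ∈ I, Bx i ⊆ W)
    (hdisj : ∀ i ∈ I, ∀ j ∈ I, i ≠ j → Disjoint (Bx i) (Bx j))
    (hg : ∀ i ∈ I, ∀ ω ω' : Φ → Bool, (∀ f ∈ Bx i, ω f = ω' f) → g i ω = g i ω') :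
    av W (fun ω => ∏ i ∈ I, g i ω) = ∏ i ∈ I, av (Bx i) (g i) := by
  classical
  induction I using Finset.induction_on with
  | empty =>
    unfold av
    simp only [Finset.prod_empty, Finset.sum_const, Finset.card_powerset, nsmul_eq_mul, mul_one]
    push_cast
    rw [div_self]
    positivity
  | insert i I hi ih =>
    have ih' := ih (fun j hj => hsub j (Finset.mem_insert_of_mem hj))
      (fun j hj k hk => hdisj j (Finset.mem_insert_of_mem hj) k (Finset.mem_insert_of_mem hk))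
      (fun j hj => hg j (Finset.mem_insert_of_mem hj))
    rw [Finset.prod_insert hi, ← ih']
    have h1 : ∀ ω, ∏ j ∈ insert i I, g j ω = g i ω * ∏ j ∈ I, g j ω := fun ω =>
      Finset.prod_insert hi
    rw [show (fun ω => ∏ j ∈ insert i I, g j ω) = fun ω => g i ω * ∏ j ∈ I, g j ω from funext h1]
    set U : Finset Φ := I.biUnion Bx with hU
    have hUW : U ⊆ W := by
      intro f hf
      obtain ⟨j, hj, hjf⟩ := Finset.mem_biUnion.1 hf
      exact hsub j (Finset.mem_insert_of_mem hj) hjf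
    have hdU : Disjoint (Bx i) U := by
      rw [Finset.disjoint_left]
      intro f hf hf'
      obtain ⟨j, hj, hjf⟩ := Finset.mem_biUnion.1 hf'
      exact Finset.disjoint_left.1 (hdisj i (Finset.mem_insert_self _ _) j
        (Finset.mem_insert_of_mem hj) (by rintro rfl; exact hi hj)) hf hjf
    have hgU : ∀ ω ω' : Φ → Bool, (∀ f ∈ U, ω f = ω' f) → ∏ j ∈ I, g j ω = ∏ j ∈ I, g j ω' := by
      intro ω ω' h
      refine Finset.prod_congr rfl ?_
      intro j hj
      exact hg j (Finset.mem_insert_of_mem hj) ω ω' (fun f hf => h f (Finset.mem_biUnion.2 ⟨j, hj, hf⟩))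
    rw [av_mul hdU (hsub i (Finset.mem_insert_self _ _)) hUW (g i) (fun ω => ∏ j ∈ I, g j ω)
      (hg i (Finset.mem_insert_self _ _)) hgU, av_window hUW _ hgU]

/-- **Bound of the arrow sum with a one-form inserted in disjoint boxes.** -/
theorem Z6_bound {ι : Type} [DecidableEq ι] (I : Finset ι) (Bx : ι → Finset Φ)
    (c : ι → V × V → ℝ)
    (hQ : NoLoop Q) (hsub : ∀ i ∈ I, Bx i ⊆ F) (hanti : ∀ i ∈ I, ∀ a, c i a.swap = - c i a)
    (hsupp : ∀ i ∈ I, ∀ a, c i a ≠ 0 → ∃ f ∈ Bx i, ∃ k, a = sd Q f k)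
    (hdisj : ∀ i ∈ I, ∀ j ∈ I, i ≠ j → Disjoint (Bx i) (Bx j))
    (hturn : ∀ ω, ∀ X ∈ dstr Q F ω, Cls Q F ω X → trn Q F ω X = 4 ∨ trn Q F ω X = -4) :
    ‖Z6 Q F (hC (fun a => ∑ i ∈ I, c i a))‖ ≤
      2 ^ (ends Q F).card * 2 ^ F.card * ∏ i ∈ I, av (Bx i) (GB Q (Bx i) (c i)) := by
  rw [Z6_eq hQ]
  refine (norm_sum_le _ _).trans ?_
  have h1 : ∀ T ∈ F.powerset, ‖Zs Q F (ind T) (hC (fun a => ∑ i ∈ I, c i a))‖ ≤
      2 ^ (ends Q F).card * ∏ i ∈ I, GB Q (Bx i) (c i) (ind T) := fun T _ =>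
    Zs_bound I Bx c hQ hsub hanti hsupp hdisj (hturn (ind T))
  refine (Finset.sum_le_sum h1).trans (le_of_eq ?_)
  rw [← Finset.mul_sum, ← av_prod F Bx (fun i => GB Q (Bx i) (c i)) I hsub hdisj
    (fun i _ ω ω' h => GB_congr (c i) h)]
  unfold av
  field_simp

end

end Pool.Agent.SixB.Op
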