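import Pool.Agent.Lib.SixB.S3Path
import Pool.Agent.Lib.SixB.S3MthB

/-!
# 6BD step 3, R10: pieces of the outer atlas, generic part

* `PA.mouth`: one mouth chart; `PA.nunion`: union of pieces without special charts.
* `PA.noSp`: a piece with empty special region has no special chart.
* `bsd f k`: side of a base face; `segU`, `segD`, `segL`, `segR`: natural charts along a straight wall of the base.
-/

set_option autoImplicit false
set_option linter.unusedSectionVars false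

namespace Pool.Agent.SixB

open Pool.Agent.Perc.Q Pool.Agent.Perc

noncomputable section

section pa

variable {V Φ : Type} [DecidableEq V] [DecidableEq Φ]
variable {Q : QC V Φ} {F : Finset Φ} {ψ : V × V → ℝ} {Z Z' C C' : Finset (V × V)}
  {r nS nN nS' nN' : ℕ} {t₀ : ℝ} {S4 S1 N2 S4' S1' N2' : Set Φ}

/-- one mouth chart -/
theorem PA.mouth {lf : Bool} {w : ℤ × ℤ} {h l : ℕ} (mch : MChart Q F lf w (2 * r + 1) h (l + 1))
    (hlt : 0 < h ∧ 2 * (h + 1) ≤ r ∧ 8 * h ≤ l)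
    (hn : mch.Nat ψ 0 ∨ mch.Nat ψ (Real.pi / 3))
    (hZ : ∀ j, (mthWall lf w (2 * r) h l j).image mch.side ⊆ Z)
    (hN : ∀ f ∈ (Mth lf w (2 * r) h l).image mch.φF, f ∈ N2)
    (hC : ∀ a ∈ C, ∃ j, ∃ s ∈ mthWall lf w (r + h + 1) h (l / 2 + 1) j, a = mch.side s) :
    PA Q F ψ Z C r 0 1 t₀ ∅ ∅ N2 :=
  ⟨{  κ := Empty
      K := fun i => i.elim
      m := fun i => i.elim
      o := fun i => i.elim
      v := fun i => i.elim
      ch := fun i => i.elim
      m_rng := fun i => i.elim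
      jmp := fun i => i.elim
      tpos := fun i => i.elim
      disj := fun i => i.elim
      cardS := by simp
      chZ := fun i => i.elim
      ι := Empty
      m' := fun i => i.elim
      o' := fun i => i.elim
      v' := fun i => i.elim
      nch := fun i => i.elim
      m'_rng := fun i => i.elim
      njmp := fun i => i.elim
      nZ := fun i => i.elim
      ndisj := fun i => i.elim
      cardN := by simp
      μ := Unit
      lf := fun _ => lf
      w := fun _ => w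
      h := fun _ => h
      l := fun _ => l
      mch := fun _ => mch
      h_lt := fun _ => hlt
      mnat := fun _ => hn
      mZ := fun _ => hZ
      mdisj := fun _ j => j.elim
      cardM := by simp
      cover := fun a ha => Or.inr (Or.inr ⟨(), hC a ha⟩) }, fun i => i.elim, fun i => i.elim,
      fun i => i.elim, fun _ => hN⟩

/-- union of two pieces without special charts -/
theorem PA.nunion (h : PA Q F ψ Z C r 0 nN t₀ ∅ ∅ N2) (h' : PA Q F ψ Z C' r 0 nN' t₀ ∅ ∅ N2) :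
    PA Q F ψ Z (C ∪ C') r 0 (nN + nN') t₀ ∅ ∅ N2 := by
  have h0 := h.union h' (Set.disjoint_empty ∅) (Set.disjoint_empty N2) (Set.disjoint_empty N2)
  rwa [Set.union_self, Set.union_self, add_zero] at h0

theorem PA.noSp (hr : 0 < r) (h : PA Q F ψ Z C r nS nN t₀ ∅ S1 N2) :
    ∃ A : PAtlas Q F ψ Z C r nS nN t₀, IsEmpty A.κ ∧
      (∀ i, ∀ f ∈ (A.nch i).box (2 * r), f ∈ N2) ∧
      ∀ i, ∀ f ∈ (Mth (A.lf i) (A.w i) (2 * r) (A.h i) (A.l i)).image (A.mch i).φF, f ∈ N2 := by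
  obtain ⟨A, h1, -, h3, h4⟩ := h
  refine ⟨A, ⟨fun i => ?_⟩, h3, h4⟩
  have h5 : ((A.v i), (A.v i) + dz (A.o i)) ∈ wOut (A.o i) (A.v i) (4 * r) := by
    rw [mem_wOut]
    exact ⟨0, by omega, by simp⟩
  obtain ⟨f, hf, -⟩ := wOut_face (A.m_rng i).1 h5
  have h6 : (A.ch i).φF f ∈ (A.ch i).box (4 * r) := by
    unfold WChart.box
    exact Finset.mem_image_of_mem _ hf
  exact h1 i _ h6

end pa

namespace BlkW

open Pool.Agent.SixB.EnvB

variable {E : SEnv} {r : ℕ} {ψ : (Option Bool × (ℤ × ℤ)) × (Option Bool × (ℤ × ℤ)) → ℝ} {t₀ : ℝ}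
  {N : Set (Option Bool × (ℤ × ℤ))}

/-- side of a base face -/
def bsd (f : ℤ × ℤ) (k : ZMod 4) : (Option Bool × (ℤ × ℤ)) × (Option Bool × (ℤ × ℤ)) :=
  ((none, (sd ZQ f k).1), (none, (sd ZQ f k).2))

/-- natural charts along a straight wall of the base -/
theorem segB (hr : 0 < r) (o : ZMod 4) (p : ℤ × ℤ) {lo hi : ℤ} (hlh : lo ≤ hi)
    (hl : ∀ t : ℤ, lo ≤ t → t ≤ hi → LocW E 2 o (p + t • dz o) (2 * r + 1))
    (hj : ∀ t (h : lo ≤ t) (h' : t ≤ hi), (hl t h h').chart.Jump ψ 0)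
    (hN : ∀ t : ℤ, lo ≤ t → t ≤ hi → ∀ f ∈ Bx (p + t • dz o) (2 * r), (none, f) ∈ N) :
    PA E.Q E.F ψ E.Z ((Finset.Ico (lo - r) (hi + r)).image fun u =>
      (((none : Option Bool), (lside o p u).1), ((none : Option Bool), (lside o p u).2))) r 0
      ((hi - lo).toNat / (2 * r) + 2) t₀ ∅ ∅ N :=
  PA.segment (Q := E.Q) (F := E.F) (Z := E.Z) (ψ := ψ) (N2 := N) hr hlh
    (fun a => (((none : Option Bool), a.1), ((none : Option Bool), a.2)))
    (fun t h h' => (hl t h h').chart) (fun _ _ _ _ _ _ => rfl) (fun t h h' => Or.inl (hj t h h'))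
    (fun t h h' => (hl t h h').walls_Z (by omega)) (fun t h h' f hf => by
      rw [(hl t h h').box, Finset.mem_image] at hf
      obtain ⟨g, hg, rfl⟩ := hf
      exact hN t h h' g (Wdg_sub_Bx hg))

/-- upward wall, free region on the left -/
theorem segU (hr : 0 < r) (X : ℤ) {lo hi : ℤ} (hlh : lo ≤ hi)
    (hl : ∀ y : ℤ, lo ≤ y → y ≤ hi → LocW E 2 1 (X, y) (2 * r + 1))
    (hj : ∀ y (h : lo ≤ y) (h' : y ≤ hi), (hl y h h').chart.Jump ψ 0)
    (hN : ∀ y : ℤ, lo ≤ y → y ≤ hi → ∀ f ∈ Bx (X, y) (2 * r), (none, f) ∈ N) :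
    PA E.Q E.F ψ E.Z ((Finset.Ico (lo - r) (hi + r)).image fun y => bsd (X - 1, y) 1) r 0
      ((hi - lo).toNat / (2 * r) + 2) t₀ ∅ ∅ N := by
  have e : ∀ t : ℤ, ((X, 0) : ℤ × ℤ) + t • dz 1 = (X, t) := by
    intro t
    rw [dz1]
    simp
  have h0 := segB (E := E) (ψ := ψ) (N := N) (t₀ := t₀) hr 1 (X, 0) hlh
    (fun t h h' => by rw [e]; exact hl t h h')
    (fun t h h' => by
      have key : ∀ w : ℤ × ℤ, w = (X, t) → ∀ hh : LocW E 2 1 w (2 * r + 1), hh.chart.Jump ψ 0 := by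
        rintro w rfl hh
        exact hj t h h'
      exact key _ (e t) _)
    (fun t h h' => by rw [e]; exact hN t h h')
  refine h0.mono (le_of_eq ?_) le_rfl le_rfl (Set.Subset.refl _) (Set.Subset.refl _)
    (Set.Subset.refl _)
  refine Finset.image_congr fun y _ => ?_
  unfold bsd lside
  rw [e, e, sd1]
  simp

/-- downward wall, free region on the right -/
theorem segD (hr : 0 < r) (X : ℤ) {lo hi : ℤ} (hlh : lo ≤ hi)
    (hl : ∀ y : ℤ, lo ≤ y → y ≤ hi → LocW E 2 3 (X, y) (2 * r + 1))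
    (hj : ∀ y (h : lo ≤ y) (h' : y ≤ hi), (hl y h h').chart.Jump ψ 0)
    (hN : ∀ y : ℤ, lo ≤ y → y ≤ hi → ∀ f ∈ Bx (X, y) (2 * r), (none, f) ∈ N) :
    PA E.Q E.F ψ E.Z ((Finset.Ico (lo - r) (hi + r)).image fun y => bsd (X, y) 3) r 0
      ((hi - lo).toNat / (2 * r) + 2) t₀ ∅ ∅ N := by
  have e : ∀ t : ℤ, ((X, 0) : ℤ × ℤ) + t • dz 3 = (X, -t) := by
    intro t
    rw [dz3]
    simp
  have h0 := segB (E := E) (ψ := ψ) (N := N) (t₀ := t₀) (lo := -hi) (hi := -lo) hr 3 (X, 0)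
    (by omega)
    (fun t h h' => by rw [e]; exact hl (-t) (by omega) (by omega))
    (fun t h h' => by
      have key : ∀ w : ℤ × ℤ, w = (X, -t) → ∀ hh : LocW E 2 3 w (2 * r + 1), hh.chart.Jump ψ 0 := by
        rintro w rfl hh
        exact hj (-t) (by omega) (by omega)
      exact key _ (e t) _)
    (fun t h h' => by rw [e]; exact hN (-t) (by omega) (by omega))
  have e2 : (-lo - -hi) = hi - lo := by ring
  rw [e2] at h0
  refine h0.mono ?_ le_rfl le_rfl (Set.Subset.refl _) (Set.Subset.refl _)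
    (Set.Subset.refl _)
  intro a ha
  rw [Finset.mem_image] at ha ⊢
  obtain ⟨y, hy, rfl⟩ := ha
  rw [Finset.mem_Ico] at hy
  refine ⟨-y - 1, Finset.mem_Ico.mpr (by omega), ?_⟩
  unfold bsd lside
  rw [e, e, sd3]
  simp
  ring

/-- leftward wall (ceiling), free region below -/
theorem segL (hr : 0 < r) (Y : ℤ) {lo hi : ℤ} (hlh : lo ≤ hi)
    (hl : ∀ x : ℤ, lo ≤ x → x ≤ hi → LocW E 2 2 (x, Y) (2 * r + 1))
    (hj : ∀ x (h : lo ≤ x) (h' : x ≤ hi), (hl x h h').chart.Jump ψ 0)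
    (hN : ∀ x : ℤ, lo ≤ x → x ≤ hi → ∀ f ∈ Bx (x, Y) (2 * r), (none, f) ∈ N) :
    PA E.Q E.F ψ E.Z ((Finset.Ico (lo - r) (hi + r)).image fun x => bsd (x, Y - 1) 2) r 0
      ((hi - lo).toNat / (2 * r) + 2) t₀ ∅ ∅ N := by
  have e : ∀ t : ℤ, ((0, Y) : ℤ × ℤ) + t • dz 2 = (-t, Y) := by
    intro t
    rw [dz2]
    simp
  have h0 := segB (E := E) (ψ := ψ) (N := N) (t₀ := t₀) (lo := -hi) (hi := -lo) hr 2 (0, Y)
    (by omega)
    (fun t h h' => by rw [e]; exact hl (-t) (by omega) (by omega))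
    (fun t h h' => by
      have key : ∀ w : ℤ × ℤ, w = (-t, Y) → ∀ hh : LocW E 2 2 w (2 * r + 1), hh.chart.Jump ψ 0 := by
        rintro w rfl hh
        exact hj (-t) (by omega) (by omega)
      exact key _ (e t) _)
    (fun t h h' => by rw [e]; exact hN (-t) (by omega) (by omega))
  have e2 : (-lo - -hi) = hi - lo := by ring
  rw [e2] at h0
  refine h0.mono ?_ le_rfl le_rfl (Set.Subset.refl _) (Set.Subset.refl _)
    (Set.Subset.refl _)
  intro a ha
  rw [Finset.mem_image] at ha ⊢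
  obtain ⟨x, hx, rfl⟩ := ha
  rw [Finset.mem_Ico] at hx
  refine ⟨-x - 1, Finset.mem_Ico.mpr (by omega), ?_⟩
  unfold bsd lside
  rw [e, e, sd2]
  simp
  ring

/-- rightward wall (top), free region above -/
theorem segR (hr : 0 < r) (Y : ℤ) {lo hi : ℤ} (hlh : lo ≤ hi)
    (hl : ∀ x : ℤ, lo ≤ x → x ≤ hi → LocW E 2 0 (x, Y) (2 * r + 1))
    (hj : ∀ x (h : lo ≤ x) (h' : x ≤ hi), (hl x h h').chart.Jump ψ 0)
    (hN : ∀ x : ℤ, lo ≤ x → x ≤ hi → ∀ f ∈ Bx (x, Y) (2 * r), (none, f) ∈ N) :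
    PA E.Q E.F ψ E.Z ((Finset.Ico (lo - r) (hi + r)).image fun x => bsd (x, Y) 0) r 0
      ((hi - lo).toNat / (2 * r) + 2) t₀ ∅ ∅ N := by
  have e : ∀ t : ℤ, ((0, Y) : ℤ × ℤ) + t • dz 0 = (t, Y) := by
    intro t
    rw [dz0]
    simp
  have h0 := segB (E := E) (ψ := ψ) (N := N) (t₀ := t₀) hr 0 (0, Y) hlh
    (fun t h h' => by rw [e]; exact hl t h h')
    (fun t h h' => by
      have key : ∀ w : ℤ × ℤ, w = (t, Y) → ∀ hh : LocW E 2 0 w (2 * r + 1), hh.chart.Jump ψ 0 := by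
        rintro w rfl hh
        exact hj t h h'
      exact key _ (e t) _)
    (fun t h h' => by rw [e]; exact hN t h h')
  refine h0.mono (le_of_eq ?_) le_rfl le_rfl (Set.Subset.refl _) (Set.Subset.refl _)
    (Set.Subset.refl _)
  refine Finset.image_congr fun x _ => ?_
  unfold bsd lside
  rw [e, e, sd0]

end BlkW

end

end Pool.Agent.SixB
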