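import Pool.Agent.Lib.SixB.S3OutB

/-!
# 6BD step 3, R10: the natural charts of the walls of the blocks

* `Nb E r`: allowed region of the natural boxes (off the special boxes of radius `r` and off the slab).
* `Kap.vu..`, `vl..`: vertical walls at the columns `Xc`, upper and lower block; `hu..`, `hl..`: ceilings and floors of
  the chambers; `ru`, `rl`: top and bottom. `Cn`, `Kap.nat`: all together.
-/

set_option autoImplicit false
set_option linter.unusedSectionVars false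

namespace Pool.Agent.SixB

open Pool.Agent.Perc.Q Pool.Agent.Perc

noncomputable section

theorem PA.nbUnion {V Φ : Type} [DecidableEq V] [DecidableEq Φ] {Q : QC V Φ} {F : Finset Φ}
    {ψ : V × V → ℝ} {Z : Finset (V × V)} {r nN n : ℕ} {t₀ : ℝ} {N2 : Set Φ}
    (C : Fin n → Finset (V × V)) (h : ∀ i, PA Q F ψ Z (C i) r 0 nN t₀ ∅ ∅ N2) :
    PA Q F ψ Z (Finset.univ.biUnion C) r 0 (n * nN) t₀ ∅ ∅ N2 := by
  classical
  have key : ∀ s : Finset (Fin n), PA Q F ψ Z (s.biUnion C) r 0 (s.card * nN) t₀ ∅ ∅ N2 := by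
    intro s
    induction s using Finset.induction_on with
    | empty =>
      rw [Finset.biUnion_empty, Finset.card_empty, zero_mul]
      exact PA.empty.mono (Finset.Subset.refl _) le_rfl le_rfl (Set.Subset.refl _)
        (Set.Subset.refl _) (Set.empty_subset _)
    | insert a s ha ih =>
      rw [Finset.biUnion_insert, Finset.card_insert_of_notMem ha]
      refine ((h a).nunion ih).mono (Finset.Subset.refl _) le_rfl (by ring_nf; omega)
        (Set.Subset.refl _) (Set.Subset.refl _) (Set.Subset.refl _)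
  have h0 := key Finset.univ
  rwa [Finset.card_univ, Fintype.card_fin] at h0

namespace BlkW

open Pool.Agent.SixB.EnvB

variable {E : SEnv} {r R : ℕ} {mu ρu ml ρl t₀ : ℝ} {ψu ψl : (ℤ × ℤ) × (ℤ × ℤ) → ℝ} {f : ℤ × ℤ}
  {x y : ℤ}

/-- allowed region of the natural boxes of the base -/
def Nb (E : SEnv) (r : ℕ) : Set (Option Bool × (ℤ × ℤ)) :=
  {x | x.1 = none ∧ (∀ i, x.2 ∉ Bx (vt E i) r) ∧ ¬ ((E.gu.x1 ≤ x.2.1 ∧ x.2.1 < E.gu.x2) ∧
    E.gu.yc - E.gu.a ≤ x.2.2 ∧ x.2.2 < E.gu.yc + E.gu.a)}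

theorem Kap.nb_of (h : Kap E r) (hs : ¬ ((E.gu.x1 ≤ f.1 ∧ f.1 < E.gu.x2) ∧
    E.gu.yc - E.gu.a ≤ f.2 ∧ f.2 < E.gu.yc + E.gu.a))
    (h1 : ∀ j : Fin 14, (Xc E.gu j + r ≤ f.1 ∨ f.1 < Xc E.gu j - r) ∨
      ((E.gu.yc + Hc E.gu j + r ≤ f.2 ∨ f.2 < E.gu.yc + Hc E.gu j - r) ∧
        (E.gu.yc - Hc E.gu j + r ≤ f.2 ∨ f.2 < E.gu.yc - Hc E.gu j - r))) :
    ((none : Option Bool), f) ∈ Nb E r := by
  refine ⟨rfl, ?_, hs⟩
  rintro ⟨b, j⟩ hf
  have h2 := h1 j
  cases b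
  · rw [h.vt_false, mem_Bx] at hf
    simp only at hf
    omega
  · rw [vt_true, mem_Bx] at hf
    simp only at hf
    omega

theorem Kap.nb_vu (h : Kap E r) (j : Fin 14) (h1 : E.gu.yc + E.gu.a + (2 * r + 1) ≤ y)
    (h2 : y + 3 * r ≤ E.gu.yc + Hc E.gu j) (hf : f ∈ Bx (Xc E.gu j, y) (2 * r)) :
    ((none : Option Bool), f) ∈ Nb E r := by
  rw [mem_Bx] at hf
  simp only at hf
  push_cast at hf
  have hk := h.rk
  have ha := h.ar
  have hH := h.Hc_ge j
  refine h.nb_of (by omega) fun i => ?_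
  by_cases hij : i = j
  · subst hij
    right
    omega
  · left
    rcases Xc_sep h.hx.le hij with h3 | h3 <;> omega

theorem Kap.nb_vl (h : Kap E r) (j : Fin 14) (h1 : y ≤ E.gu.yc - E.gu.a - (2 * r + 1))
    (h2 : E.gu.yc - Hc E.gu j ≤ y - 3 * r) (hf : f ∈ Bx (Xc E.gu j, y) (2 * r)) :
    ((none : Option Bool), f) ∈ Nb E r := by
  rw [mem_Bx] at hf
  simp only at hf
  push_cast at hf
  have hk := h.rk
  have ha := h.ar
  have hH := h.Hc_ge j
  refine h.nb_of (by omega) fun i => ?_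
  by_cases hij : i = j
  · subst hij
    right
    omega
  · left
    rcases Xc_sep h.hx.le hij with h3 | h3 <;> omega

theorem Kap.nb_h (h : Kap E r) {Y : ℤ} (h1 : ∀ j, Xc E.gu j + 3 * r ≤ x ∨ x + 3 * r ≤ Xc E.gu j)
    (h2 : E.gu.yc + E.gu.a + 2 * r ≤ Y ∨ Y ≤ E.gu.yc - E.gu.a - 2 * r)
    (hf : f ∈ Bx (x, Y) (2 * r)) : ((none : Option Bool), f) ∈ Nb E r := by
  rw [mem_Bx] at hf
  simp only at hf
  push_cast at hf
  refine h.nb_of (by omega) fun j => ?_
  have h3 := h1 j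
  left
  omega

theorem Kap.nb_r (h : Kap E r) {Y : ℤ} (h1 : E.gu.x1 - 7 * E.gu.k + 3 * r ≤ x)
    (h1' : x + 3 * r ≤ E.gu.x2 + 7 * E.gu.k)
    (h2 : Y = E.gu.yc + E.gu.c ∨ Y = E.gu.yc - E.gu.c)
    (hf : f ∈ Bx (x, Y) (2 * r)) : ((none : Option Bool), f) ∈ Nb E r := by
  rw [mem_Bx] at hf
  simp only at hf
  push_cast at hf
  have hk := h.rk
  have ha := h.ar
  have hb := h.hb
  have hc := h.hc
  have hx := h.hx
  refine h.nb_of (by omega) fun j => ?_
  unfold Xc Hc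
  fin_cases j <;> simp <;> omega

/-- bound for the number of charts of one wall -/
def Ln (E : SEnv) (r : ℕ) : ℕ := ((E.gu.x2 - E.gu.x1).toNat + 14 * E.gu.k + E.gu.c) / (2 * r) + 2

theorem le_Ln {n : ℕ} (h : n ≤ (E.gu.x2 - E.gu.x1).toNat + 14 * E.gu.k + E.gu.c) :
    n / (2 * r) + 2 ≤ Ln E r := Nat.add_le_add_right (Nat.div_le_div_right h) 2

theorem Kap.vu0 (h : Kap E r) :
    PA E.Q E.F (E.psi mu ρu ml ρl ψu ψl) E.Z
      ((Finset.Ico (E.gu.yc + E.gu.a + (2 * r + 1) - r : ℤ) (E.gu.yc + E.gu.c - 3 * r + r)).image fun y => bsd (E.gu.x2 + 7 * E.gu.k, y) 3) r 0 (Ln E r) t₀ ∅ ∅ (Nb E r) := by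
  have h1 := h.ar
  have h2 := h.rk
  have h3 := h.hb
  have h4 := h.hc
  have h5 := h.a0
  have h6 := h.hx
  exact (segD (E := E) (by omega) (E.gu.x2 + 7 * E.gu.k) (lo := E.gu.yc + E.gu.a + (2 * r + 1)) (hi := E.gu.yc + E.gu.c - 3 * r) (by omega)
    (fun y h7 h8 => (h.up (R := 2 * r + 1) (by omega) (by omega)).wR7 (by push_cast; omega) (by push_cast; omega))
    (fun y h7 h8 => UpB.jump23 _ (by simp only; push_cast; omega))
    (fun y h7 h8 f hf => h.nb_vu 0 (by omega) (by change y + 3 * (r : ℤ) ≤ E.gu.yc + E.gu.c; omega) hf)).mono (Finset.Subset.refl _) le_rfl (le_Ln (by omega))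
    (Set.Subset.refl _) (Set.Subset.refl _) (Set.Subset.refl _)

theorem Kap.vu1 (h : Kap E r) :
    PA E.Q E.F (E.psi mu ρu ml ρl ψu ψl) E.Z
      ((Finset.Ico (E.gu.yc + E.gu.a + (2 * r + 1) - r : ℤ) (E.gu.yc + E.gu.b - 3 * r + r)).image fun y => bsd (E.gu.x2 + 6 * E.gu.k - 1, y) 1) r 0 (Ln E r) t₀ ∅ ∅ (Nb E r) := by
  have h1 := h.ar
  have h2 := h.rk
  have h3 := h.hb
  have h4 := h.hc
  have h5 := h.a0
  have h6 := h.hx
  exact (segU (E := E) (by omega) (E.gu.x2 + 6 * E.gu.k) (lo := E.gu.yc + E.gu.a + (2 * r + 1)) (hi := E.gu.yc + E.gu.b - 3 * r) (by omega)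
    (fun y h7 h8 => (h.up (R := 2 * r + 1) (by omega) (by omega)).wR6 (by push_cast; omega) (by push_cast; omega))
    (fun y h7 h8 => UpB.jump21 _ (by simp only; push_cast; omega))
    (fun y h7 h8 f hf => h.nb_vu 1 (by omega) (by change y + 3 * (r : ℤ) ≤ E.gu.yc + E.gu.b; omega) hf)).mono (Finset.Subset.refl _) le_rfl (le_Ln (by omega))
    (Set.Subset.refl _) (Set.Subset.refl _) (Set.Subset.refl _)

theorem Kap.vu3 (h : Kap E r) :
    PA E.Q E.F (E.psi mu ρu ml ρl ψu ψl) E.Z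
      ((Finset.Ico (E.gu.yc + E.gu.a + (2 * r + 1) - r : ℤ) (E.gu.yc + E.gu.b - 3 * r + r)).image fun y => bsd (E.gu.x2 + 4 * E.gu.k, y) 3) r 0 (Ln E r) t₀ ∅ ∅ (Nb E r) := by
  have h1 := h.ar
  have h2 := h.rk
  have h3 := h.hb
  have h4 := h.hc
  have h5 := h.a0
  have h6 := h.hx
  exact (segD (E := E) (by omega) (E.gu.x2 + 4 * E.gu.k) (lo := E.gu.yc + E.gu.a + (2 * r + 1)) (hi := E.gu.yc + E.gu.b - 3 * r) (by omega)
    (fun y h7 h8 => (h.up (R := 2 * r + 1) (by omega) (by omega)).wR4 (by push_cast; omega) (by push_cast; omega))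
    (fun y h7 h8 => UpB.jump23 _ (by simp only; push_cast; omega))
    (fun y h7 h8 f hf => h.nb_vu 3 (by omega) (by change y + 3 * (r : ℤ) ≤ E.gu.yc + E.gu.b; omega) hf)).mono (Finset.Subset.refl _) le_rfl (le_Ln (by omega))
    (Set.Subset.refl _) (Set.Subset.refl _) (Set.Subset.refl _)

theorem Kap.vu4 (h : Kap E r) :
    PA E.Q E.F (E.psi mu ρu ml ρl ψu ψl) E.Z
      ((Finset.Ico (E.gu.yc + E.gu.a + (2 * r + 1) - r : ℤ) (E.gu.yc + E.gu.b - 3 * r + r)).image fun y => bsd (E.gu.x2 + 3 * E.gu.k - 1, y) 1) r 0 (Ln E r) t₀ ∅ ∅ (Nb E r) := by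
  have h1 := h.ar
  have h2 := h.rk
  have h3 := h.hb
  have h4 := h.hc
  have h5 := h.a0
  have h6 := h.hx
  exact (segU (E := E) (by omega) (E.gu.x2 + 3 * E.gu.k) (lo := E.gu.yc + E.gu.a + (2 * r + 1)) (hi := E.gu.yc + E.gu.b - 3 * r) (by omega)
    (fun y h7 h8 => (h.up (R := 2 * r + 1) (by omega) (by omega)).wR3 (by push_cast; omega) (by push_cast; omega))
    (fun y h7 h8 => UpB.jump21 _ (by simp only; push_cast; omega))
    (fun y h7 h8 f hf => h.nb_vu 4 (by omega) (by change y + 3 * (r : ℤ) ≤ E.gu.yc + E.gu.b; omega) hf)).mono (Finset.Subset.refl _) le_rfl (le_Ln (by omega))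
    (Set.Subset.refl _) (Set.Subset.refl _) (Set.Subset.refl _)

theorem Kap.vu6 (h : Kap E r) :
    PA E.Q E.F (E.psi mu ρu ml ρl ψu ψl) E.Z
      ((Finset.Ico (E.gu.yc + E.gu.a + (2 * r + 1) - r : ℤ) (E.gu.yc + E.gu.b - 3 * r + r)).image fun y => bsd (E.gu.x2 + E.gu.k, y) 3) r 0 (Ln E r) t₀ ∅ ∅ (Nb E r) := by
  have h1 := h.ar
  have h2 := h.rk
  have h3 := h.hb
  have h4 := h.hc
  have h5 := h.a0
  have h6 := h.hx
  exact (segD (E := E) (by omega) (E.gu.x2 + E.gu.k) (lo := E.gu.yc + E.gu.a + (2 * r + 1)) (hi := E.gu.yc + E.gu.b - 3 * r) (by omega)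
    (fun y h7 h8 => (h.up (R := 2 * r + 1) (by omega) (by omega)).wR1 (by push_cast; omega) (by push_cast; omega))
    (fun y h7 h8 => UpB.jump23 _ (by simp only; push_cast; omega))
    (fun y h7 h8 f hf => h.nb_vu 6 (by omega) (by change y + 3 * (r : ℤ) ≤ E.gu.yc + E.gu.b; omega) hf)).mono (Finset.Subset.refl _) le_rfl (le_Ln (by omega))
    (Set.Subset.refl _) (Set.Subset.refl _) (Set.Subset.refl _)

theorem Kap.vu7 (h : Kap E r) :
    PA E.Q E.F (E.psi mu ρu ml ρl ψu ψl) E.Z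
      ((Finset.Ico (E.gu.yc + E.gu.a + (2 * r + 1) - r : ℤ) (E.gu.yc + E.gu.b - 3 * r + r)).image fun y => bsd (E.gu.x1 - E.gu.k - 1, y) 1) r 0 (Ln E r) t₀ ∅ ∅ (Nb E r) := by
  have h1 := h.ar
  have h2 := h.rk
  have h3 := h.hb
  have h4 := h.hc
  have h5 := h.a0
  have h6 := h.hx
  exact (segU (E := E) (by omega) (E.gu.x1 - E.gu.k) (lo := E.gu.yc + E.gu.a + (2 * r + 1)) (hi := E.gu.yc + E.gu.b - 3 * r) (by omega)
    (fun y h7 h8 => (h.up (R := 2 * r + 1) (by omega) (by omega)).wL1 (by push_cast; omega) (by push_cast; omega))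
    (fun y h7 h8 => UpB.jump21 _ (by simp only; push_cast; omega))
    (fun y h7 h8 f hf => h.nb_vu 7 (by omega) (by change y + 3 * (r : ℤ) ≤ E.gu.yc + E.gu.b; omega) hf)).mono (Finset.Subset.refl _) le_rfl (le_Ln (by omega))
    (Set.Subset.refl _) (Set.Subset.refl _) (Set.Subset.refl _)

theorem Kap.vu9 (h : Kap E r) :
    PA E.Q E.F (E.psi mu ρu ml ρl ψu ψl) E.Z
      ((Finset.Ico (E.gu.yc + E.gu.a + (2 * r + 1) - r : ℤ) (E.gu.yc + E.gu.b - 3 * r + r)).image fun y => bsd (E.gu.x1 - 3 * E.gu.k, y) 3) r 0 (Ln E r) t₀ ∅ ∅ (Nb E r) := by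
  have h1 := h.ar
  have h2 := h.rk
  have h3 := h.hb
  have h4 := h.hc
  have h5 := h.a0
  have h6 := h.hx
  exact (segD (E := E) (by omega) (E.gu.x1 - 3 * E.gu.k) (lo := E.gu.yc + E.gu.a + (2 * r + 1)) (hi := E.gu.yc + E.gu.b - 3 * r) (by omega)
    (fun y h7 h8 => (h.up (R := 2 * r + 1) (by omega) (by omega)).wL3 (by push_cast; omega) (by push_cast; omega))
    (fun y h7 h8 => UpB.jump23 _ (by simp only; push_cast; omega))
    (fun y h7 h8 f hf => h.nb_vu 9 (by omega) (by change y + 3 * (r : ℤ) ≤ E.gu.yc + E.gu.b; omega) hf)).mono (Finset.Subset.refl _) le_rfl (le_Ln (by omega))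
    (Set.Subset.refl _) (Set.Subset.refl _) (Set.Subset.refl _)

theorem Kap.vu10 (h : Kap E r) :
    PA E.Q E.F (E.psi mu ρu ml ρl ψu ψl) E.Z
      ((Finset.Ico (E.gu.yc + E.gu.a + (2 * r + 1) - r : ℤ) (E.gu.yc + E.gu.b - 3 * r + r)).image fun y => bsd (E.gu.x1 - 4 * E.gu.k - 1, y) 1) r 0 (Ln E r) t₀ ∅ ∅ (Nb E r) := by
  have h1 := h.ar
  have h2 := h.rk
  have h3 := h.hb
  have h4 := h.hc
  have h5 := h.a0
  have h6 := h.hx
  exact (segU (E := E) (by omega) (E.gu.x1 - 4 * E.gu.k) (lo := E.gu.yc + E.gu.a + (2 * r + 1)) (hi := E.gu.yc + E.gu.b - 3 * r) (by omega)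
    (fun y h7 h8 => (h.up (R := 2 * r + 1) (by omega) (by omega)).wL4 (by push_cast; omega) (by push_cast; omega))
    (fun y h7 h8 => UpB.jump21 _ (by simp only; push_cast; omega))
    (fun y h7 h8 f hf => h.nb_vu 10 (by omega) (by change y + 3 * (r : ℤ) ≤ E.gu.yc + E.gu.b; omega) hf)).mono (Finset.Subset.refl _) le_rfl (le_Ln (by omega))
    (Set.Subset.refl _) (Set.Subset.refl _) (Set.Subset.refl _)

theorem Kap.vu12 (h : Kap E r) :
    PA E.Q E.F (E.psi mu ρu ml ρl ψu ψl) E.Z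
      ((Finset.Ico (E.gu.yc + E.gu.a + (2 * r + 1) - r : ℤ) (E.gu.yc + E.gu.b - 3 * r + r)).image fun y => bsd (E.gu.x1 - 6 * E.gu.k, y) 3) r 0 (Ln E r) t₀ ∅ ∅ (Nb E r) := by
  have h1 := h.ar
  have h2 := h.rk
  have h3 := h.hb
  have h4 := h.hc
  have h5 := h.a0
  have h6 := h.hx
  exact (segD (E := E) (by omega) (E.gu.x1 - 6 * E.gu.k) (lo := E.gu.yc + E.gu.a + (2 * r + 1)) (hi := E.gu.yc + E.gu.b - 3 * r) (by omega)
    (fun y h7 h8 => (h.up (R := 2 * r + 1) (by omega) (by omega)).wL6 (by push_cast; omega) (by push_cast; omega))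
    (fun y h7 h8 => UpB.jump23 _ (by simp only; push_cast; omega))
    (fun y h7 h8 f hf => h.nb_vu 12 (by omega) (by change y + 3 * (r : ℤ) ≤ E.gu.yc + E.gu.b; omega) hf)).mono (Finset.Subset.refl _) le_rfl (le_Ln (by omega))
    (Set.Subset.refl _) (Set.Subset.refl _) (Set.Subset.refl _)

theorem Kap.vu13 (h : Kap E r) :
    PA E.Q E.F (E.psi mu ρu ml ρl ψu ψl) E.Z
      ((Finset.Ico (E.gu.yc + E.gu.a + (2 * r + 1) - r : ℤ) (E.gu.yc + E.gu.c - 3 * r + r)).image fun y => bsd (E.gu.x1 - 7 * E.gu.k - 1, y) 1) r 0 (Ln E r) t₀ ∅ ∅ (Nb E r) := by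
  have h1 := h.ar
  have h2 := h.rk
  have h3 := h.hb
  have h4 := h.hc
  have h5 := h.a0
  have h6 := h.hx
  exact (segU (E := E) (by omega) (E.gu.x1 - 7 * E.gu.k) (lo := E.gu.yc + E.gu.a + (2 * r + 1)) (hi := E.gu.yc + E.gu.c - 3 * r) (by omega)
    (fun y h7 h8 => (h.up (R := 2 * r + 1) (by omega) (by omega)).wL7 (by push_cast; omega) (by push_cast; omega))
    (fun y h7 h8 => UpB.jump21 _ (by simp only; push_cast; omega))
    (fun y h7 h8 f hf => h.nb_vu 13 (by omega) (by change y + 3 * (r : ℤ) ≤ E.gu.yc + E.gu.c; omega) hf)).mono (Finset.Subset.refl _) le_rfl (le_Ln (by omega))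
    (Set.Subset.refl _) (Set.Subset.refl _) (Set.Subset.refl _)

theorem Kap.hu1 (h : Kap E r) :
    PA E.Q E.F (E.psi mu ρu ml ρl ψu ψl) E.Z
      ((Finset.Ico (E.gu.x2 + 5 * E.gu.k + 3 * r - r : ℤ) (E.gu.x2 + 6 * E.gu.k - 3 * r + r)).image fun x => bsd (x, E.gu.yc + E.gu.b - 1) 2) r 0 (Ln E r) t₀ ∅ ∅ (Nb E r) := by
  have h1 := h.ar
  have h2 := h.rk
  have h3 := h.hb
  have h4 := h.hc
  have h5 := h.a0
  have h6 := h.hx
  exact (segL (E := E) (by omega) (E.gu.yc + E.gu.b) (lo := E.gu.x2 + 5 * E.gu.k + 3 * r) (hi := E.gu.x2 + 6 * E.gu.k - 3 * r) (by omega)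
    (fun x h7 h8 => (h.up (R := 2 * r + 1) (by omega) (by omega)).ceil (by push_cast; omega))
    (fun x h7 h8 => UpB.jump22 (c := 0) (c' := 0) _ (by simp only; push_cast; omega)
      (fun z h9 h10 => by
        simp only at h9 h10
        push_cast at h9 h10
        exact Hst0 (by omega) h6.le)
      (fun z h9 h10 => by
        simp only at h9 h10
        push_cast at h9 h10
        exact Hst0 (by omega) h6.le) (by ring))
    (fun x h7 h8 f hf => h.nb_h (fun i => by unfold Xc; fin_cases i <;> simp <;> omega)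
      (by omega) hf)).mono (Finset.Subset.refl _) le_rfl (le_Ln (by omega))
    (Set.Subset.refl _) (Set.Subset.refl _) (Set.Subset.refl _)

theorem Kap.hu2 (h : Kap E r) :
    PA E.Q E.F (E.psi mu ρu ml ρl ψu ψl) E.Z
      ((Finset.Ico (E.gu.x2 + 4 * E.gu.k + 3 * r - r : ℤ) (E.gu.x2 + 5 * E.gu.k - 3 * r + r)).image fun x => bsd (x, E.gu.yc + E.gu.b - 1) 2) r 0 (Ln E r) t₀ ∅ ∅ (Nb E r) := by
  have h1 := h.ar
  have h2 := h.rk
  have h3 := h.hb
  have h4 := h.hc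
  have h5 := h.a0
  have h6 := h.hx
  exact (segL (E := E) (by omega) (E.gu.yc + E.gu.b) (lo := E.gu.x2 + 4 * E.gu.k + 3 * r) (hi := E.gu.x2 + 5 * E.gu.k - 3 * r) (by omega)
    (fun x h7 h8 => (h.up (R := 2 * r + 1) (by omega) (by omega)).ceil (by push_cast; omega))
    (fun x h7 h8 => UpB.jump22 (c := -BGeo.alpha mu) (c' := -BGeo.alpha mu) _ (by simp only; push_cast; omega)
      (fun z h9 h10 => by
        simp only at h9 h10
        push_cast at h9 h10
        exact Hst1 (by omega) (by omega) h6.le)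
      (fun z h9 h10 => by
        simp only at h9 h10
        push_cast at h9 h10
        exact Hst1 (by omega) (by omega) h6.le) (by ring))
    (fun x h7 h8 f hf => h.nb_h (fun i => by unfold Xc; fin_cases i <;> simp <;> omega)
      (by omega) hf)).mono (Finset.Subset.refl _) le_rfl (le_Ln (by omega))
    (Set.Subset.refl _) (Set.Subset.refl _) (Set.Subset.refl _)

theorem Kap.hu4 (h : Kap E r) :
    PA E.Q E.F (E.psi mu ρu ml ρl ψu ψl) E.Z
      ((Finset.Ico (E.gu.x2 + 2 * E.gu.k + 3 * r - r : ℤ) (E.gu.x2 + 3 * E.gu.k - 3 * r + r)).image fun x => bsd (x, E.gu.yc + E.gu.b - 1) 2) r 0 (Ln E r) t₀ ∅ ∅ (Nb E r) := by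
  have h1 := h.ar
  have h2 := h.rk
  have h3 := h.hb
  have h4 := h.hc
  have h5 := h.a0
  have h6 := h.hx
  exact (segL (E := E) (by omega) (E.gu.yc + E.gu.b) (lo := E.gu.x2 + 2 * E.gu.k + 3 * r) (hi := E.gu.x2 + 3 * E.gu.k - 3 * r) (by omega)
    (fun x h7 h8 => (h.up (R := 2 * r + 1) (by omega) (by omega)).ceil (by push_cast; omega))
    (fun x h7 h8 => UpB.jump22 (c := -BGeo.alpha mu) (c' := -BGeo.alpha mu) _ (by simp only; push_cast; omega)
      (fun z h9 h10 => by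
        simp only at h9 h10
        push_cast at h9 h10
        exact Hst1 (by omega) (by omega) h6.le)
      (fun z h9 h10 => by
        simp only at h9 h10
        push_cast at h9 h10
        exact Hst1 (by omega) (by omega) h6.le) (by ring))
    (fun x h7 h8 f hf => h.nb_h (fun i => by unfold Xc; fin_cases i <;> simp <;> omega)
      (by omega) hf)).mono (Finset.Subset.refl _) le_rfl (le_Ln (by omega))
    (Set.Subset.refl _) (Set.Subset.refl _) (Set.Subset.refl _)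

theorem Kap.hu5 (h : Kap E r) :
    PA E.Q E.F (E.psi mu ρu ml ρl ψu ψl) E.Z
      ((Finset.Ico (E.gu.x2 + E.gu.k + 3 * r - r : ℤ) (E.gu.x2 + 2 * E.gu.k - 3 * r + r)).image fun x => bsd (x, E.gu.yc + E.gu.b - 1) 2) r 0 (Ln E r) t₀ ∅ ∅ (Nb E r) := by
  have h1 := h.ar
  have h2 := h.rk
  have h3 := h.hb
  have h4 := h.hc
  have h5 := h.a0
  have h6 := h.hx
  exact (segL (E := E) (by omega) (E.gu.yc + E.gu.b) (lo := E.gu.x2 + E.gu.k + 3 * r) (hi := E.gu.x2 + 2 * E.gu.k - 3 * r) (by omega)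
    (fun x h7 h8 => (h.up (R := 2 * r + 1) (by omega) (by omega)).ceil (by push_cast; omega))
    (fun x h7 h8 => UpB.jump22 (c := -BGeo.alpha mu - BGeo.sig mu) (c' := -BGeo.alpha mu - BGeo.sig mu) _ (by simp only; push_cast; omega)
      (fun z h9 h10 => by
        simp only at h9 h10
        push_cast at h9 h10
        exact Hst2 (by omega) (by omega) h6.le)
      (fun z h9 h10 => by
        simp only at h9 h10
        push_cast at h9 h10
        exact Hst2 (by omega) (by omega) h6.le) (by ring))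
    (fun x h7 h8 f hf => h.nb_h (fun i => by unfold Xc; fin_cases i <;> simp <;> omega)
      (by omega) hf)).mono (Finset.Subset.refl _) le_rfl (le_Ln (by omega))
    (Set.Subset.refl _) (Set.Subset.refl _) (Set.Subset.refl _)

theorem Kap.hu7 (h : Kap E r) :
    PA E.Q E.F (E.psi mu ρu ml ρl ψu ψl) E.Z
      ((Finset.Ico (E.gu.x1 - 2 * E.gu.k + 3 * r - r : ℤ) (E.gu.x1 - E.gu.k - 3 * r + r)).image fun x => bsd (x, E.gu.yc + E.gu.b - 1) 2) r 0 (Ln E r) t₀ ∅ ∅ (Nb E r) := by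
  have h1 := h.ar
  have h2 := h.rk
  have h3 := h.hb
  have h4 := h.hc
  have h5 := h.a0
  have h6 := h.hx
  exact (segL (E := E) (by omega) (E.gu.yc + E.gu.b) (lo := E.gu.x1 - 2 * E.gu.k + 3 * r) (hi := E.gu.x1 - E.gu.k - 3 * r) (by omega)
    (fun x h7 h8 => (h.up (R := 2 * r + 1) (by omega) (by omega)).ceil (by push_cast; omega))
    (fun x h7 h8 => UpB.jump22 (c := -BGeo.alpha mu - BGeo.sig mu + mu) (c' := -BGeo.alpha mu - BGeo.sig mu + mu) _ (by simp only; push_cast; omega)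
      (fun z h9 h10 => by
        simp only at h9 h10
        push_cast at h9 h10
        exact Hst3 (by omega) (by omega))
      (fun z h9 h10 => by
        simp only at h9 h10
        push_cast at h9 h10
        exact Hst3 (by omega) (by omega)) (by ring))
    (fun x h7 h8 f hf => h.nb_h (fun i => by unfold Xc; fin_cases i <;> simp <;> omega)
      (by omega) hf)).mono (Finset.Subset.refl _) le_rfl (le_Ln (by omega))
    (Set.Subset.refl _) (Set.Subset.refl _) (Set.Subset.refl _)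

theorem Kap.hu8 (h : Kap E r) :
    PA E.Q E.F (E.psi mu ρu ml ρl ψu ψl) E.Z
      ((Finset.Ico (E.gu.x1 - 3 * E.gu.k + 3 * r - r : ℤ) (E.gu.x1 - 2 * E.gu.k - 3 * r + r)).image fun x => bsd (x, E.gu.yc + E.gu.b - 1) 2) r 0 (Ln E r) t₀ ∅ ∅ (Nb E r) := by
  have h1 := h.ar
  have h2 := h.rk
  have h3 := h.hb
  have h4 := h.hc
  have h5 := h.a0
  have h6 := h.hx
  exact (segL (E := E) (by omega) (E.gu.yc + E.gu.b) (lo := E.gu.x1 - 3 * E.gu.k + 3 * r) (hi := E.gu.x1 - 2 * E.gu.k - 3 * r) (by omega)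
    (fun x h7 h8 => (h.up (R := 2 * r + 1) (by omega) (by omega)).ceil (by push_cast; omega))
    (fun x h7 h8 => UpB.jump22 (c := -BGeo.alpha mu - 2 * BGeo.sig mu + mu) (c' := -BGeo.alpha mu - 2 * BGeo.sig mu + mu) _ (by simp only; push_cast; omega)
      (fun z h9 h10 => by
        simp only at h9 h10
        push_cast at h9 h10
        exact Hst4 (by omega) (by omega) h6.le)
      (fun z h9 h10 => by
        simp only at h9 h10
        push_cast at h9 h10
        exact Hst4 (by omega) (by omega) h6.le) (by ring))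
    (fun x h7 h8 f hf => h.nb_h (fun i => by unfold Xc; fin_cases i <;> simp <;> omega)
      (by omega) hf)).mono (Finset.Subset.refl _) le_rfl (le_Ln (by omega))
    (Set.Subset.refl _) (Set.Subset.refl _) (Set.Subset.refl _)

theorem Kap.hu10 (h : Kap E r) :
    PA E.Q E.F (E.psi mu ρu ml ρl ψu ψl) E.Z
      ((Finset.Ico (E.gu.x1 - 5 * E.gu.k + 3 * r - r : ℤ) (E.gu.x1 - 4 * E.gu.k - 3 * r + r)).image fun x => bsd (x, E.gu.yc + E.gu.b - 1) 2) r 0 (Ln E r) t₀ ∅ ∅ (Nb E r) := by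
  have h1 := h.ar
  have h2 := h.rk
  have h3 := h.hb
  have h4 := h.hc
  have h5 := h.a0
  have h6 := h.hx
  exact (segL (E := E) (by omega) (E.gu.yc + E.gu.b) (lo := E.gu.x1 - 5 * E.gu.k + 3 * r) (hi := E.gu.x1 - 4 * E.gu.k - 3 * r) (by omega)
    (fun x h7 h8 => (h.up (R := 2 * r + 1) (by omega) (by omega)).ceil (by push_cast; omega))
    (fun x h7 h8 => UpB.jump22 (c := -BGeo.alpha mu - 2 * BGeo.sig mu + mu) (c' := -BGeo.alpha mu - 2 * BGeo.sig mu + mu) _ (by simp only; push_cast; omega)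
      (fun z h9 h10 => by
        simp only at h9 h10
        push_cast at h9 h10
        exact Hst4 (by omega) (by omega) h6.le)
      (fun z h9 h10 => by
        simp only at h9 h10
        push_cast at h9 h10
        exact Hst4 (by omega) (by omega) h6.le) (by ring))
    (fun x h7 h8 f hf => h.nb_h (fun i => by unfold Xc; fin_cases i <;> simp <;> omega)
      (by omega) hf)).mono (Finset.Subset.refl _) le_rfl (le_Ln (by omega))
    (Set.Subset.refl _) (Set.Subset.refl _) (Set.Subset.refl _)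

theorem Kap.hu11 (h : Kap E r) :
    PA E.Q E.F (E.psi mu ρu ml ρl ψu ψl) E.Z
      ((Finset.Ico (E.gu.x1 - 6 * E.gu.k + 3 * r - r : ℤ) (E.gu.x1 - 5 * E.gu.k - 3 * r + r)).image fun x => bsd (x, E.gu.yc + E.gu.b - 1) 2) r 0 (Ln E r) t₀ ∅ ∅ (Nb E r) := by
  have h1 := h.ar
  have h2 := h.rk
  have h3 := h.hb
  have h4 := h.hc
  have h5 := h.a0
  have h6 := h.hx
  exact (segL (E := E) (by omega) (E.gu.yc + E.gu.b) (lo := E.gu.x1 - 6 * E.gu.k + 3 * r) (hi := E.gu.x1 - 5 * E.gu.k - 3 * r) (by omega)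
    (fun x h7 h8 => (h.up (R := 2 * r + 1) (by omega) (by omega)).ceil (by push_cast; omega))
    (fun x h7 h8 => UpB.jump22 (c := -2 * BGeo.alpha mu - 2 * BGeo.sig mu + mu) (c' := -2 * BGeo.alpha mu - 2 * BGeo.sig mu + mu) _ (by simp only; push_cast; omega)
      (fun z h9 h10 => by
        simp only at h9 h10
        push_cast at h9 h10
        exact Hst5 (by omega) h6.le)
      (fun z h9 h10 => by
        simp only at h9 h10
        push_cast at h9 h10
        exact Hst5 (by omega) h6.le) (by ring))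
    (fun x h7 h8 f hf => h.nb_h (fun i => by unfold Xc; fin_cases i <;> simp <;> omega)
      (by omega) hf)).mono (Finset.Subset.refl _) le_rfl (le_Ln (by omega))
    (Set.Subset.refl _) (Set.Subset.refl _) (Set.Subset.refl _)

theorem Kap.ru (h : Kap E r) :
    PA E.Q E.F (E.psi mu ρu ml ρl ψu ψl) E.Z
      ((Finset.Ico (E.gu.x1 - 7 * E.gu.k + 3 * r - r : ℤ) (E.gu.x2 + 7 * E.gu.k - 3 * r + r)).image fun x => bsd (x, E.gu.yc + E.gu.c) 0) r 0 (Ln E r) t₀ ∅ ∅ (Nb E r) := by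
  have h1 := h.ar
  have h2 := h.rk
  have h3 := h.hb
  have h4 := h.hc
  have h5 := h.a0
  have h6 := h.hx
  exact (segR (E := E) (by omega) (E.gu.yc + E.gu.c) (lo := E.gu.x1 - 7 * E.gu.k + 3 * r) (hi := E.gu.x2 + 7 * E.gu.k - 3 * r) (by omega)
    (fun x h7 h8 => (h.up (R := 2 * r + 1) (by omega) (by omega)).roof (by push_cast; omega) (by push_cast; omega))
    (fun x h7 h8 => UpB.jump20 _ (by simp only; push_cast; omega))
    (fun x h7 h8 f hf => h.nb_r (by omega) (by omega) (by omega) hf)).mono (Finset.Subset.refl _) le_rfl (le_Ln (by omega))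
    (Set.Subset.refl _) (Set.Subset.refl _) (Set.Subset.refl _)

theorem Kap.vl0 (h : Kap E r) :
    PA E.Q E.F (E.psi mu ρu ml ρl ψu ψl) E.Z
      ((Finset.Ico (E.gu.yc - E.gu.c + 3 * r - r : ℤ) (E.gu.yc - E.gu.a - (2 * r + 1) + r)).image fun y => bsd (E.gu.x2 + 7 * E.gu.k, y) 3) r 0 (Ln E r) t₀ ∅ ∅ (Nb E r) := by
  have h1 := h.ar
  have h2 := h.rk
  have h3 := h.hb
  have h4 := h.hc
  have h5 := h.a0
  have h6 := h.hx
  exact (segD (E := E) (by omega) (E.gu.x2 + 7 * E.gu.k) (lo := E.gu.yc - E.gu.c + 3 * r) (hi := E.gu.yc - E.gu.a - (2 * r + 1)) (by omega)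
    (fun y h7 h8 => by
      have h9 := (h.lo (R := 2 * r + 1) (by omega) (by omega)).wR7 (y := y)
        (by rw [h.g]; push_cast; omega) (by rw [h.g]; push_cast; omega)
      rwa [h.g] at h9)
    (fun y h7 h8 => (h.lo (R := 2 * r + 1) (by omega) (by omega)).jump23 _
      (by simp only; push_cast; omega))
    (fun y h7 h8 f hf => h.nb_vl 0 (by omega) (by change E.gu.yc - (E.gu.c : ℤ) ≤ y - 3 * r; omega) hf)).mono (Finset.Subset.refl _) le_rfl (le_Ln (by omega))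
    (Set.Subset.refl _) (Set.Subset.refl _) (Set.Subset.refl _)

theorem Kap.vl1 (h : Kap E r) :
    PA E.Q E.F (E.psi mu ρu ml ρl ψu ψl) E.Z
      ((Finset.Ico (E.gu.yc - E.gu.b + 3 * r - r : ℤ) (E.gu.yc - E.gu.a - (2 * r + 1) + r)).image fun y => bsd (E.gu.x2 + 6 * E.gu.k - 1, y) 1) r 0 (Ln E r) t₀ ∅ ∅ (Nb E r) := by
  have h1 := h.ar
  have h2 := h.rk
  have h3 := h.hb
  have h4 := h.hc
  have h5 := h.a0
  have h6 := h.hx
  exact (segU (E := E) (by omega) (E.gu.x2 + 6 * E.gu.k) (lo := E.gu.yc - E.gu.b + 3 * r) (hi := E.gu.yc - E.gu.a - (2 * r + 1)) (by omega)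
    (fun y h7 h8 => by
      have h9 := (h.lo (R := 2 * r + 1) (by omega) (by omega)).wR6 (y := y)
        (by rw [h.g]; push_cast; omega) (by rw [h.g]; push_cast; omega)
      rwa [h.g] at h9)
    (fun y h7 h8 => (h.lo (R := 2 * r + 1) (by omega) (by omega)).jump21 _
      (by simp only; push_cast; omega))
    (fun y h7 h8 f hf => h.nb_vl 1 (by omega) (by change E.gu.yc - (E.gu.b : ℤ) ≤ y - 3 * r; omega) hf)).mono (Finset.Subset.refl _) le_rfl (le_Ln (by omega))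
    (Set.Subset.refl _) (Set.Subset.refl _) (Set.Subset.refl _)

theorem Kap.vl3 (h : Kap E r) :
    PA E.Q E.F (E.psi mu ρu ml ρl ψu ψl) E.Z
      ((Finset.Ico (E.gu.yc - E.gu.b + 3 * r - r : ℤ) (E.gu.yc - E.gu.a - (2 * r + 1) + r)).image fun y => bsd (E.gu.x2 + 4 * E.gu.k, y) 3) r 0 (Ln E r) t₀ ∅ ∅ (Nb E r) := by
  have h1 := h.ar
  have h2 := h.rk
  have h3 := h.hb
  have h4 := h.hc
  have h5 := h.a0
  have h6 := h.hx
  exact (segD (E := E) (by omega) (E.gu.x2 + 4 * E.gu.k) (lo := E.gu.yc - E.gu.b + 3 * r) (hi := E.gu.yc - E.gu.a - (2 * r + 1)) (by omega)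
    (fun y h7 h8 => by
      have h9 := (h.lo (R := 2 * r + 1) (by omega) (by omega)).wR4 (y := y)
        (by rw [h.g]; push_cast; omega) (by rw [h.g]; push_cast; omega)
      rwa [h.g] at h9)
    (fun y h7 h8 => (h.lo (R := 2 * r + 1) (by omega) (by omega)).jump23 _
      (by simp only; push_cast; omega))
    (fun y h7 h8 f hf => h.nb_vl 3 (by omega) (by change E.gu.yc - (E.gu.b : ℤ) ≤ y - 3 * r; omega) hf)).mono (Finset.Subset.refl _) le_rfl (le_Ln (by omega))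
    (Set.Subset.refl _) (Set.Subset.refl _) (Set.Subset.refl _)

theorem Kap.vl4 (h : Kap E r) :
    PA E.Q E.F (E.psi mu ρu ml ρl ψu ψl) E.Z
      ((Finset.Ico (E.gu.yc - E.gu.b + 3 * r - r : ℤ) (E.gu.yc - E.gu.a - (2 * r + 1) + r)).image fun y => bsd (E.gu.x2 + 3 * E.gu.k - 1, y) 1) r 0 (Ln E r) t₀ ∅ ∅ (Nb E r) := by
  have h1 := h.ar
  have h2 := h.rk
  have h3 := h.hb
  have h4 := h.hc
  have h5 := h.a0
  have h6 := h.hx
  exact (segU (E := E) (by omega) (E.gu.x2 + 3 * E.gu.k) (lo := E.gu.yc - E.gu.b + 3 * r) (hi := E.gu.yc - E.gu.a - (2 * r + 1)) (by omega)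
    (fun y h7 h8 => by
      have h9 := (h.lo (R := 2 * r + 1) (by omega) (by omega)).wR3 (y := y)
        (by rw [h.g]; push_cast; omega) (by rw [h.g]; push_cast; omega)
      rwa [h.g] at h9)
    (fun y h7 h8 => (h.lo (R := 2 * r + 1) (by omega) (by omega)).jump21 _
      (by simp only; push_cast; omega))
    (fun y h7 h8 f hf => h.nb_vl 4 (by omega) (by change E.gu.yc - (E.gu.b : ℤ) ≤ y - 3 * r; omega) hf)).mono (Finset.Subset.refl _) le_rfl (le_Ln (by omega))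
    (Set.Subset.refl _) (Set.Subset.refl _) (Set.Subset.refl _)

theorem Kap.vl6 (h : Kap E r) :
    PA E.Q E.F (E.psi mu ρu ml ρl ψu ψl) E.Z
      ((Finset.Ico (E.gu.yc - E.gu.b + 3 * r - r : ℤ) (E.gu.yc - E.gu.a - (2 * r + 1) + r)).image fun y => bsd (E.gu.x2 + E.gu.k, y) 3) r 0 (Ln E r) t₀ ∅ ∅ (Nb E r) := by
  have h1 := h.ar
  have h2 := h.rk
  have h3 := h.hb
  have h4 := h.hc
  have h5 := h.a0
  have h6 := h.hx
  exact (segD (E := E) (by omega) (E.gu.x2 + E.gu.k) (lo := E.gu.yc - E.gu.b + 3 * r) (hi := E.gu.yc - E.gu.a - (2 * r + 1)) (by omega)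
    (fun y h7 h8 => by
      have h9 := (h.lo (R := 2 * r + 1) (by omega) (by omega)).wR1 (y := y)
        (by rw [h.g]; push_cast; omega) (by rw [h.g]; push_cast; omega)
      rwa [h.g] at h9)
    (fun y h7 h8 => (h.lo (R := 2 * r + 1) (by omega) (by omega)).jump23 _
      (by simp only; push_cast; omega))
    (fun y h7 h8 f hf => h.nb_vl 6 (by omega) (by change E.gu.yc - (E.gu.b : ℤ) ≤ y - 3 * r; omega) hf)).mono (Finset.Subset.refl _) le_rfl (le_Ln (by omega))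
    (Set.Subset.refl _) (Set.Subset.refl _) (Set.Subset.refl _)

theorem Kap.vl7 (h : Kap E r) :
    PA E.Q E.F (E.psi mu ρu ml ρl ψu ψl) E.Z
      ((Finset.Ico (E.gu.yc - E.gu.b + 3 * r - r : ℤ) (E.gu.yc - E.gu.a - (2 * r + 1) + r)).image fun y => bsd (E.gu.x1 - E.gu.k - 1, y) 1) r 0 (Ln E r) t₀ ∅ ∅ (Nb E r) := by
  have h1 := h.ar
  have h2 := h.rk
  have h3 := h.hb
  have h4 := h.hc
  have h5 := h.a0
  have h6 := h.hx
  exact (segU (E := E) (by omega) (E.gu.x1 - E.gu.k) (lo := E.gu.yc - E.gu.b + 3 * r) (hi := E.gu.yc - E.gu.a - (2 * r + 1)) (by omega)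
    (fun y h7 h8 => by
      have h9 := (h.lo (R := 2 * r + 1) (by omega) (by omega)).wL1 (y := y)
        (by rw [h.g]; push_cast; omega) (by rw [h.g]; push_cast; omega)
      rwa [h.g] at h9)
    (fun y h7 h8 => (h.lo (R := 2 * r + 1) (by omega) (by omega)).jump21 _
      (by simp only; push_cast; omega))
    (fun y h7 h8 f hf => h.nb_vl 7 (by omega) (by change E.gu.yc - (E.gu.b : ℤ) ≤ y - 3 * r; omega) hf)).mono (Finset.Subset.refl _) le_rfl (le_Ln (by omega))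
    (Set.Subset.refl _) (Set.Subset.refl _) (Set.Subset.refl _)

theorem Kap.vl9 (h : Kap E r) :
    PA E.Q E.F (E.psi mu ρu ml ρl ψu ψl) E.Z
      ((Finset.Ico (E.gu.yc - E.gu.b + 3 * r - r : ℤ) (E.gu.yc - E.gu.a - (2 * r + 1) + r)).image fun y => bsd (E.gu.x1 - 3 * E.gu.k, y) 3) r 0 (Ln E r) t₀ ∅ ∅ (Nb E r) := by
  have h1 := h.ar
  have h2 := h.rk
  have h3 := h.hb
  have h4 := h.hc
  have h5 := h.a0
  have h6 := h.hx
  exact (segD (E := E) (by omega) (E.gu.x1 - 3 * E.gu.k) (lo := E.gu.yc - E.gu.b + 3 * r) (hi := E.gu.yc - E.gu.a - (2 * r + 1)) (by omega)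
    (fun y h7 h8 => by
      have h9 := (h.lo (R := 2 * r + 1) (by omega) (by omega)).wL3 (y := y)
        (by rw [h.g]; push_cast; omega) (by rw [h.g]; push_cast; omega)
      rwa [h.g] at h9)
    (fun y h7 h8 => (h.lo (R := 2 * r + 1) (by omega) (by omega)).jump23 _
      (by simp only; push_cast; omega))
    (fun y h7 h8 f hf => h.nb_vl 9 (by omega) (by change E.gu.yc - (E.gu.b : ℤ) ≤ y - 3 * r; omega) hf)).mono (Finset.Subset.refl _) le_rfl (le_Ln (by omega))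
    (Set.Subset.refl _) (Set.Subset.refl _) (Set.Subset.refl _)

theorem Kap.vl10 (h : Kap E r) :
    PA E.Q E.F (E.psi mu ρu ml ρl ψu ψl) E.Z
      ((Finset.Ico (E.gu.yc - E.gu.b + 3 * r - r : ℤ) (E.gu.yc - E.gu.a - (2 * r + 1) + r)).image fun y => bsd (E.gu.x1 - 4 * E.gu.k - 1, y) 1) r 0 (Ln E r) t₀ ∅ ∅ (Nb E r) := by
  have h1 := h.ar
  have h2 := h.rk
  have h3 := h.hb
  have h4 := h.hc
  have h5 := h.a0
  have h6 := h.hx
  exact (segU (E := E) (by omega) (E.gu.x1 - 4 * E.gu.k) (lo := E.gu.yc - E.gu.b + 3 * r) (hi := E.gu.yc - E.gu.a - (2 * r + 1)) (by omega)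
    (fun y h7 h8 => by
      have h9 := (h.lo (R := 2 * r + 1) (by omega) (by omega)).wL4 (y := y)
        (by rw [h.g]; push_cast; omega) (by rw [h.g]; push_cast; omega)
      rwa [h.g] at h9)
    (fun y h7 h8 => (h.lo (R := 2 * r + 1) (by omega) (by omega)).jump21 _
      (by simp only; push_cast; omega))
    (fun y h7 h8 f hf => h.nb_vl 10 (by omega) (by change E.gu.yc - (E.gu.b : ℤ) ≤ y - 3 * r; omega) hf)).mono (Finset.Subset.refl _) le_rfl (le_Ln (by omega))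
    (Set.Subset.refl _) (Set.Subset.refl _) (Set.Subset.refl _)

theorem Kap.vl12 (h : Kap E r) :
    PA E.Q E.F (E.psi mu ρu ml ρl ψu ψl) E.Z
      ((Finset.Ico (E.gu.yc - E.gu.b + 3 * r - r : ℤ) (E.gu.yc - E.gu.a - (2 * r + 1) + r)).image fun y => bsd (E.gu.x1 - 6 * E.gu.k, y) 3) r 0 (Ln E r) t₀ ∅ ∅ (Nb E r) := by
  have h1 := h.ar
  have h2 := h.rk
  have h3 := h.hb
  have h4 := h.hc
  have h5 := h.a0
  have h6 := h.hx
  exact (segD (E := E) (by omega) (E.gu.x1 - 6 * E.gu.k) (lo := E.gu.yc - E.gu.b + 3 * r) (hi := E.gu.yc - E.gu.a - (2 * r + 1)) (by omega)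
    (fun y h7 h8 => by
      have h9 := (h.lo (R := 2 * r + 1) (by omega) (by omega)).wL6 (y := y)
        (by rw [h.g]; push_cast; omega) (by rw [h.g]; push_cast; omega)
      rwa [h.g] at h9)
    (fun y h7 h8 => (h.lo (R := 2 * r + 1) (by omega) (by omega)).jump23 _
      (by simp only; push_cast; omega))
    (fun y h7 h8 f hf => h.nb_vl 12 (by omega) (by change E.gu.yc - (E.gu.b : ℤ) ≤ y - 3 * r; omega) hf)).mono (Finset.Subset.refl _) le_rfl (le_Ln (by omega))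
    (Set.Subset.refl _) (Set.Subset.refl _) (Set.Subset.refl _)

theorem Kap.vl13 (h : Kap E r) :
    PA E.Q E.F (E.psi mu ρu ml ρl ψu ψl) E.Z
      ((Finset.Ico (E.gu.yc - E.gu.c + 3 * r - r : ℤ) (E.gu.yc - E.gu.a - (2 * r + 1) + r)).image fun y => bsd (E.gu.x1 - 7 * E.gu.k - 1, y) 1) r 0 (Ln E r) t₀ ∅ ∅ (Nb E r) := by
  have h1 := h.ar
  have h2 := h.rk
  have h3 := h.hb
  have h4 := h.hc
  have h5 := h.a0
  have h6 := h.hx
  exact (segU (E := E) (by omega) (E.gu.x1 - 7 * E.gu.k) (lo := E.gu.yc - E.gu.c + 3 * r) (hi := E.gu.yc - E.gu.a - (2 * r + 1)) (by omega)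
    (fun y h7 h8 => by
      have h9 := (h.lo (R := 2 * r + 1) (by omega) (by omega)).wL7 (y := y)
        (by rw [h.g]; push_cast; omega) (by rw [h.g]; push_cast; omega)
      rwa [h.g] at h9)
    (fun y h7 h8 => (h.lo (R := 2 * r + 1) (by omega) (by omega)).jump21 _
      (by simp only; push_cast; omega))
    (fun y h7 h8 f hf => h.nb_vl 13 (by omega) (by change E.gu.yc - (E.gu.c : ℤ) ≤ y - 3 * r; omega) hf)).mono (Finset.Subset.refl _) le_rfl (le_Ln (by omega))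
    (Set.Subset.refl _) (Set.Subset.refl _) (Set.Subset.refl _)

theorem Kap.hl1 (h : Kap E r) :
    PA E.Q E.F (E.psi mu ρu ml ρl ψu ψl) E.Z
      ((Finset.Ico (E.gu.x2 + 5 * E.gu.k + 3 * r - r : ℤ) (E.gu.x2 + 6 * E.gu.k - 3 * r + r)).image fun x => bsd (x, E.gu.yc - E.gu.b) 0) r 0 (Ln E r) t₀ ∅ ∅ (Nb E r) := by
  have h1 := h.ar
  have h2 := h.rk
  have h3 := h.hb
  have h4 := h.hc
  have h5 := h.a0
  have h6 := h.hx
  exact (segR (E := E) (by omega) (E.gu.yc - E.gu.b) (lo := E.gu.x2 + 5 * E.gu.k + 3 * r) (hi := E.gu.x2 + 6 * E.gu.k - 3 * r) (by omega)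
    (fun x h7 h8 => by
      have h9 := (h.lo (R := 2 * r + 1) (by omega) (by omega)).ceil (x := x)
        (by rw [h.g]; push_cast; omega)
      rwa [h.g] at h9)
    (fun x h7 h8 => (h.lo (R := 2 * r + 1) (by omega) (by omega)).jump20 (c := -2 * BGeo.alpha ml - 2 * BGeo.sig ml + ml)
      (c' := -2 * BGeo.alpha ml - 2 * BGeo.sig ml + ml) _ (by simp only; push_cast; omega)
      (fun z h9 h10 => by
        simp only at h9 h10
        push_cast at h9 h10
        rw [h.g]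
        exact Hst5 (by unfold rx; omega) h6.le)
      (fun z h9 h10 => by
        simp only at h9 h10
        push_cast at h9 h10
        rw [h.g]
        exact Hst5 (by unfold rx; omega) h6.le) (by ring))
    (fun x h7 h8 f hf => h.nb_h (fun i => by unfold Xc; fin_cases i <;> simp <;> omega)
      (by omega) hf)).mono (Finset.Subset.refl _) le_rfl (le_Ln (by omega))
    (Set.Subset.refl _) (Set.Subset.refl _) (Set.Subset.refl _)

theorem Kap.hl2 (h : Kap E r) :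
    PA E.Q E.F (E.psi mu ρu ml ρl ψu ψl) E.Z
      ((Finset.Ico (E.gu.x2 + 4 * E.gu.k + 3 * r - r : ℤ) (E.gu.x2 + 5 * E.gu.k - 3 * r + r)).image fun x => bsd (x, E.gu.yc - E.gu.b) 0) r 0 (Ln E r) t₀ ∅ ∅ (Nb E r) := by
  have h1 := h.ar
  have h2 := h.rk
  have h3 := h.hb
  have h4 := h.hc
  have h5 := h.a0
  have h6 := h.hx
  exact (segR (E := E) (by omega) (E.gu.yc - E.gu.b) (lo := E.gu.x2 + 4 * E.gu.k + 3 * r) (hi := E.gu.x2 + 5 * E.gu.k - 3 * r) (by omega)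
    (fun x h7 h8 => by
      have h9 := (h.lo (R := 2 * r + 1) (by omega) (by omega)).ceil (x := x)
        (by rw [h.g]; push_cast; omega)
      rwa [h.g] at h9)
    (fun x h7 h8 => (h.lo (R := 2 * r + 1) (by omega) (by omega)).jump20 (c := -BGeo.alpha ml - 2 * BGeo.sig ml + ml)
      (c' := -BGeo.alpha ml - 2 * BGeo.sig ml + ml) _ (by simp only; push_cast; omega)
      (fun z h9 h10 => by
        simp only at h9 h10
        push_cast at h9 h10
        rw [h.g]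
        exact Hst4 (by unfold rx; omega) (by unfold rx; omega) h6.le)
      (fun z h9 h10 => by
        simp only at h9 h10
        push_cast at h9 h10
        rw [h.g]
        exact Hst4 (by unfold rx; omega) (by unfold rx; omega) h6.le) (by ring))
    (fun x h7 h8 f hf => h.nb_h (fun i => by unfold Xc; fin_cases i <;> simp <;> omega)
      (by omega) hf)).mono (Finset.Subset.refl _) le_rfl (le_Ln (by omega))
    (Set.Subset.refl _) (Set.Subset.refl _) (Set.Subset.refl _)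

theorem Kap.hl4 (h : Kap E r) :
    PA E.Q E.F (E.psi mu ρu ml ρl ψu ψl) E.Z
      ((Finset.Ico (E.gu.x2 + 2 * E.gu.k + 3 * r - r : ℤ) (E.gu.x2 + 3 * E.gu.k - 3 * r + r)).image fun x => bsd (x, E.gu.yc - E.gu.b) 0) r 0 (Ln E r) t₀ ∅ ∅ (Nb E r) := by
  have h1 := h.ar
  have h2 := h.rk
  have h3 := h.hb
  have h4 := h.hc
  have h5 := h.a0
  have h6 := h.hx
  exact (segR (E := E) (by omega) (E.gu.yc - E.gu.b) (lo := E.gu.x2 + 2 * E.gu.k + 3 * r) (hi := E.gu.x2 + 3 * E.gu.k - 3 * r) (by omega)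
    (fun x h7 h8 => by
      have h9 := (h.lo (R := 2 * r + 1) (by omega) (by omega)).ceil (x := x)
        (by rw [h.g]; push_cast; omega)
      rwa [h.g] at h9)
    (fun x h7 h8 => (h.lo (R := 2 * r + 1) (by omega) (by omega)).jump20 (c := -BGeo.alpha ml - 2 * BGeo.sig ml + ml)
      (c' := -BGeo.alpha ml - 2 * BGeo.sig ml + ml) _ (by simp only; push_cast; omega)
      (fun z h9 h10 => by
        simp only at h9 h10
        push_cast at h9 h10
        rw [h.g]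
        exact Hst4 (by unfold rx; omega) (by unfold rx; omega) h6.le)
      (fun z h9 h10 => by
        simp only at h9 h10
        push_cast at h9 h10
        rw [h.g]
        exact Hst4 (by unfold rx; omega) (by unfold rx; omega) h6.le) (by ring))
    (fun x h7 h8 f hf => h.nb_h (fun i => by unfold Xc; fin_cases i <;> simp <;> omega)
      (by omega) hf)).mono (Finset.Subset.refl _) le_rfl (le_Ln (by omega))
    (Set.Subset.refl _) (Set.Subset.refl _) (Set.Subset.refl _)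

theorem Kap.hl5 (h : Kap E r) :
    PA E.Q E.F (E.psi mu ρu ml ρl ψu ψl) E.Z
      ((Finset.Ico (E.gu.x2 + E.gu.k + 3 * r - r : ℤ) (E.gu.x2 + 2 * E.gu.k - 3 * r + r)).image fun x => bsd (x, E.gu.yc - E.gu.b) 0) r 0 (Ln E r) t₀ ∅ ∅ (Nb E r) := by
  have h1 := h.ar
  have h2 := h.rk
  have h3 := h.hb
  have h4 := h.hc
  have h5 := h.a0
  have h6 := h.hx
  exact (segR (E := E) (by omega) (E.gu.yc - E.gu.b) (lo := E.gu.x2 + E.gu.k + 3 * r) (hi := E.gu.x2 + 2 * E.gu.k - 3 * r) (by omega)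
    (fun x h7 h8 => by
      have h9 := (h.lo (R := 2 * r + 1) (by omega) (by omega)).ceil (x := x)
        (by rw [h.g]; push_cast; omega)
      rwa [h.g] at h9)
    (fun x h7 h8 => (h.lo (R := 2 * r + 1) (by omega) (by omega)).jump20 (c := -BGeo.alpha ml - BGeo.sig ml + ml)
      (c' := -BGeo.alpha ml - BGeo.sig ml + ml) _ (by simp only; push_cast; omega)
      (fun z h9 h10 => by
        simp only at h9 h10
        push_cast at h9 h10
        rw [h.g]
        exact Hst3 (by unfold rx; omega) (by unfold rx; omega))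
      (fun z h9 h10 => by
        simp only at h9 h10
        push_cast at h9 h10
        rw [h.g]
        exact Hst3 (by unfold rx; omega) (by unfold rx; omega)) (by ring))
    (fun x h7 h8 f hf => h.nb_h (fun i => by unfold Xc; fin_cases i <;> simp <;> omega)
      (by omega) hf)).mono (Finset.Subset.refl _) le_rfl (le_Ln (by omega))
    (Set.Subset.refl _) (Set.Subset.refl _) (Set.Subset.refl _)

theorem Kap.hl7 (h : Kap E r) :
    PA E.Q E.F (E.psi mu ρu ml ρl ψu ψl) E.Z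
      ((Finset.Ico (E.gu.x1 - 2 * E.gu.k + 3 * r - r : ℤ) (E.gu.x1 - E.gu.k - 3 * r + r)).image fun x => bsd (x, E.gu.yc - E.gu.b) 0) r 0 (Ln E r) t₀ ∅ ∅ (Nb E r) := by
  have h1 := h.ar
  have h2 := h.rk
  have h3 := h.hb
  have h4 := h.hc
  have h5 := h.a0
  have h6 := h.hx
  exact (segR (E := E) (by omega) (E.gu.yc - E.gu.b) (lo := E.gu.x1 - 2 * E.gu.k + 3 * r) (hi := E.gu.x1 - E.gu.k - 3 * r) (by omega)
    (fun x h7 h8 => by
      have h9 := (h.lo (R := 2 * r + 1) (by omega) (by omega)).ceil (x := x)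
        (by rw [h.g]; push_cast; omega)
      rwa [h.g] at h9)
    (fun x h7 h8 => (h.lo (R := 2 * r + 1) (by omega) (by omega)).jump20 (c := -BGeo.alpha ml - BGeo.sig ml)
      (c' := -BGeo.alpha ml - BGeo.sig ml) _ (by simp only; push_cast; omega)
      (fun z h9 h10 => by
        simp only at h9 h10
        push_cast at h9 h10
        rw [h.g]
        exact Hst2 (by unfold rx; omega) (by unfold rx; omega) h6.le)
      (fun z h9 h10 => by
        simp only at h9 h10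
        push_cast at h9 h10
        rw [h.g]
        exact Hst2 (by unfold rx; omega) (by unfold rx; omega) h6.le) (by ring))
    (fun x h7 h8 f hf => h.nb_h (fun i => by unfold Xc; fin_cases i <;> simp <;> omega)
      (by omega) hf)).mono (Finset.Subset.refl _) le_rfl (le_Ln (by omega))
    (Set.Subset.refl _) (Set.Subset.refl _) (Set.Subset.refl _)

theorem Kap.hl8 (h : Kap E r) :
    PA E.Q E.F (E.psi mu ρu ml ρl ψu ψl) E.Z
      ((Finset.Ico (E.gu.x1 - 3 * E.gu.k + 3 * r - r : ℤ) (E.gu.x1 - 2 * E.gu.k - 3 * r + r)).image fun x => bsd (x, E.gu.yc - E.gu.b) 0) r 0 (Ln E r) t₀ ∅ ∅ (Nb E r) := by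
  have h1 := h.ar
  have h2 := h.rk
  have h3 := h.hb
  have h4 := h.hc
  have h5 := h.a0
  have h6 := h.hx
  exact (segR (E := E) (by omega) (E.gu.yc - E.gu.b) (lo := E.gu.x1 - 3 * E.gu.k + 3 * r) (hi := E.gu.x1 - 2 * E.gu.k - 3 * r) (by omega)
    (fun x h7 h8 => by
      have h9 := (h.lo (R := 2 * r + 1) (by omega) (by omega)).ceil (x := x)
        (by rw [h.g]; push_cast; omega)
      rwa [h.g] at h9)
    (fun x h7 h8 => (h.lo (R := 2 * r + 1) (by omega) (by omega)).jump20 (c := -BGeo.alpha ml)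
      (c' := -BGeo.alpha ml) _ (by simp only; push_cast; omega)
      (fun z h9 h10 => by
        simp only at h9 h10
        push_cast at h9 h10
        rw [h.g]
        exact Hst1 (by unfold rx; omega) (by unfold rx; omega) h6.le)
      (fun z h9 h10 => by
        simp only at h9 h10
        push_cast at h9 h10
        rw [h.g]
        exact Hst1 (by unfold rx; omega) (by unfold rx; omega) h6.le) (by ring))
    (fun x h7 h8 f hf => h.nb_h (fun i => by unfold Xc; fin_cases i <;> simp <;> omega)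
      (by omega) hf)).mono (Finset.Subset.refl _) le_rfl (le_Ln (by omega))
    (Set.Subset.refl _) (Set.Subset.refl _) (Set.Subset.refl _)

theorem Kap.hl10 (h : Kap E r) :
    PA E.Q E.F (E.psi mu ρu ml ρl ψu ψl) E.Z
      ((Finset.Ico (E.gu.x1 - 5 * E.gu.k + 3 * r - r : ℤ) (E.gu.x1 - 4 * E.gu.k - 3 * r + r)).image fun x => bsd (x, E.gu.yc - E.gu.b) 0) r 0 (Ln E r) t₀ ∅ ∅ (Nb E r) := by
  have h1 := h.ar
  have h2 := h.rk
  have h3 := h.hb
  have h4 := h.hc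
  have h5 := h.a0
  have h6 := h.hx
  exact (segR (E := E) (by omega) (E.gu.yc - E.gu.b) (lo := E.gu.x1 - 5 * E.gu.k + 3 * r) (hi := E.gu.x1 - 4 * E.gu.k - 3 * r) (by omega)
    (fun x h7 h8 => by
      have h9 := (h.lo (R := 2 * r + 1) (by omega) (by omega)).ceil (x := x)
        (by rw [h.g]; push_cast; omega)
      rwa [h.g] at h9)
    (fun x h7 h8 => (h.lo (R := 2 * r + 1) (by omega) (by omega)).jump20 (c := -BGeo.alpha ml)
      (c' := -BGeo.alpha ml) _ (by simp only; push_cast; omega)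
      (fun z h9 h10 => by
        simp only at h9 h10
        push_cast at h9 h10
        rw [h.g]
        exact Hst1 (by unfold rx; omega) (by unfold rx; omega) h6.le)
      (fun z h9 h10 => by
        simp only at h9 h10
        push_cast at h9 h10
        rw [h.g]
        exact Hst1 (by unfold rx; omega) (by unfold rx; omega) h6.le) (by ring))
    (fun x h7 h8 f hf => h.nb_h (fun i => by unfold Xc; fin_cases i <;> simp <;> omega)
      (by omega) hf)).mono (Finset.Subset.refl _) le_rfl (le_Ln (by omega))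
    (Set.Subset.refl _) (Set.Subset.refl _) (Set.Subset.refl _)

theorem Kap.hl11 (h : Kap E r) :
    PA E.Q E.F (E.psi mu ρu ml ρl ψu ψl) E.Z
      ((Finset.Ico (E.gu.x1 - 6 * E.gu.k + 3 * r - r : ℤ) (E.gu.x1 - 5 * E.gu.k - 3 * r + r)).image fun x => bsd (x, E.gu.yc - E.gu.b) 0) r 0 (Ln E r) t₀ ∅ ∅ (Nb E r) := by
  have h1 := h.ar
  have h2 := h.rk
  have h3 := h.hb
  have h4 := h.hc
  have h5 := h.a0
  have h6 := h.hx
  exact (segR (E := E) (by omega) (E.gu.yc - E.gu.b) (lo := E.gu.x1 - 6 * E.gu.k + 3 * r) (hi := E.gu.x1 - 5 * E.gu.k - 3 * r) (by omega)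
    (fun x h7 h8 => by
      have h9 := (h.lo (R := 2 * r + 1) (by omega) (by omega)).ceil (x := x)
        (by rw [h.g]; push_cast; omega)
      rwa [h.g] at h9)
    (fun x h7 h8 => (h.lo (R := 2 * r + 1) (by omega) (by omega)).jump20 (c := 0)
      (c' := 0) _ (by simp only; push_cast; omega)
      (fun z h9 h10 => by
        simp only at h9 h10
        push_cast at h9 h10
        rw [h.g]
        exact Hst0 (by unfold rx; omega) h6.le)
      (fun z h9 h10 => by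
        simp only at h9 h10
        push_cast at h9 h10
        rw [h.g]
        exact Hst0 (by unfold rx; omega) h6.le) (by ring))
    (fun x h7 h8 f hf => h.nb_h (fun i => by unfold Xc; fin_cases i <;> simp <;> omega)
      (by omega) hf)).mono (Finset.Subset.refl _) le_rfl (le_Ln (by omega))
    (Set.Subset.refl _) (Set.Subset.refl _) (Set.Subset.refl _)

theorem Kap.rl (h : Kap E r) :
    PA E.Q E.F (E.psi mu ρu ml ρl ψu ψl) E.Z
      ((Finset.Ico (E.gu.x1 - 7 * E.gu.k + 3 * r - r : ℤ) (E.gu.x2 + 7 * E.gu.k - 3 * r + r)).image fun x => bsd (x, E.gu.yc - E.gu.c - 1) 2) r 0 (Ln E r) t₀ ∅ ∅ (Nb E r) := by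
  have h1 := h.ar
  have h2 := h.rk
  have h3 := h.hb
  have h4 := h.hc
  have h5 := h.a0
  have h6 := h.hx
  exact (segL (E := E) (by omega) (E.gu.yc - E.gu.c) (lo := E.gu.x1 - 7 * E.gu.k + 3 * r) (hi := E.gu.x2 + 7 * E.gu.k - 3 * r) (by omega)
    (fun x h7 h8 => by
      have h9 := (h.lo (R := 2 * r + 1) (by omega) (by omega)).roof (x := x)
        (by rw [h.g]; push_cast; omega) (by rw [h.g]; push_cast; omega)
      rwa [h.g] at h9)
    (fun x h7 h8 => (h.lo (R := 2 * r + 1) (by omega) (by omega)).jump22 _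
      (by simp only; push_cast; omega))
    (fun x h7 h8 f hf => h.nb_r (by omega) (by omega) (by omega) hf)).mono (Finset.Subset.refl _) le_rfl (le_Ln (by omega))
    (Set.Subset.refl _) (Set.Subset.refl _) (Set.Subset.refl _)

/-- the sides covered by the natural charts -/
def Cn (E : SEnv) (r : ℕ) : Fin 38 → Finset ((Option Bool × (ℤ × ℤ)) × (Option Bool × (ℤ × ℤ))) :=
  ![
    (Finset.Ico (E.gu.yc + E.gu.a + (2 * r + 1) - r : ℤ) (E.gu.yc + E.gu.c - 3 * r + r)).image fun y => bsd (E.gu.x2 + 7 * E.gu.k, y) 3,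
    (Finset.Ico (E.gu.yc + E.gu.a + (2 * r + 1) - r : ℤ) (E.gu.yc + E.gu.b - 3 * r + r)).image fun y => bsd (E.gu.x2 + 6 * E.gu.k - 1, y) 1,
    (Finset.Ico (E.gu.yc + E.gu.a + (2 * r + 1) - r : ℤ) (E.gu.yc + E.gu.b - 3 * r + r)).image fun y => bsd (E.gu.x2 + 4 * E.gu.k, y) 3,
    (Finset.Ico (E.gu.yc + E.gu.a + (2 * r + 1) - r : ℤ) (E.gu.yc + E.gu.b - 3 * r + r)).image fun y => bsd (E.gu.x2 + 3 * E.gu.k - 1, y) 1,
    (Finset.Ico (E.gu.yc + E.gu.a + (2 * r + 1) - r : ℤ) (E.gu.yc + E.gu.b - 3 * r + r)).image fun y => bsd (E.gu.x2 + E.gu.k, y) 3,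
    (Finset.Ico (E.gu.yc + E.gu.a + (2 * r + 1) - r : ℤ) (E.gu.yc + E.gu.b - 3 * r + r)).image fun y => bsd (E.gu.x1 - E.gu.k - 1, y) 1,
    (Finset.Ico (E.gu.yc + E.gu.a + (2 * r + 1) - r : ℤ) (E.gu.yc + E.gu.b - 3 * r + r)).image fun y => bsd (E.gu.x1 - 3 * E.gu.k, y) 3,
    (Finset.Ico (E.gu.yc + E.gu.a + (2 * r + 1) - r : ℤ) (E.gu.yc + E.gu.b - 3 * r + r)).image fun y => bsd (E.gu.x1 - 4 * E.gu.k - 1, y) 1,
    (Finset.Ico (E.gu.yc + E.gu.a + (2 * r + 1) - r : ℤ) (E.gu.yc + E.gu.b - 3 * r + r)).image fun y => bsd (E.gu.x1 - 6 * E.gu.k, y) 3,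
    (Finset.Ico (E.gu.yc + E.gu.a + (2 * r + 1) - r : ℤ) (E.gu.yc + E.gu.c - 3 * r + r)).image fun y => bsd (E.gu.x1 - 7 * E.gu.k - 1, y) 1,
    (Finset.Ico (E.gu.x2 + 5 * E.gu.k + 3 * r - r : ℤ) (E.gu.x2 + 6 * E.gu.k - 3 * r + r)).image fun x => bsd (x, E.gu.yc + E.gu.b - 1) 2,
    (Finset.Ico (E.gu.x2 + 4 * E.gu.k + 3 * r - r : ℤ) (E.gu.x2 + 5 * E.gu.k - 3 * r + r)).image fun x => bsd (x, E.gu.yc + E.gu.b - 1) 2,
    (Finset.Ico (E.gu.x2 + 2 * E.gu.k + 3 * r - r : ℤ) (E.gu.x2 + 3 * E.gu.k - 3 * r + r)).image fun x => bsd (x, E.gu.yc + E.gu.b - 1) 2,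
    (Finset.Ico (E.gu.x2 + E.gu.k + 3 * r - r : ℤ) (E.gu.x2 + 2 * E.gu.k - 3 * r + r)).image fun x => bsd (x, E.gu.yc + E.gu.b - 1) 2,
    (Finset.Ico (E.gu.x1 - 2 * E.gu.k + 3 * r - r : ℤ) (E.gu.x1 - E.gu.k - 3 * r + r)).image fun x => bsd (x, E.gu.yc + E.gu.b - 1) 2,
    (Finset.Ico (E.gu.x1 - 3 * E.gu.k + 3 * r - r : ℤ) (E.gu.x1 - 2 * E.gu.k - 3 * r + r)).image fun x => bsd (x, E.gu.yc + E.gu.b - 1) 2,
    (Finset.Ico (E.gu.x1 - 5 * E.gu.k + 3 * r - r : ℤ) (E.gu.x1 - 4 * E.gu.k - 3 * r + r)).image fun x => bsd (x, E.gu.yc + E.gu.b - 1) 2,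
    (Finset.Ico (E.gu.x1 - 6 * E.gu.k + 3 * r - r : ℤ) (E.gu.x1 - 5 * E.gu.k - 3 * r + r)).image fun x => bsd (x, E.gu.yc + E.gu.b - 1) 2,
    (Finset.Ico (E.gu.x1 - 7 * E.gu.k + 3 * r - r : ℤ) (E.gu.x2 + 7 * E.gu.k - 3 * r + r)).image fun x => bsd (x, E.gu.yc + E.gu.c) 0,
    (Finset.Ico (E.gu.yc - E.gu.c + 3 * r - r : ℤ) (E.gu.yc - E.gu.a - (2 * r + 1) + r)).image fun y => bsd (E.gu.x2 + 7 * E.gu.k, y) 3,
    (Finset.Ico (E.gu.yc - E.gu.b + 3 * r - r : ℤ) (E.gu.yc - E.gu.a - (2 * r + 1) + r)).image fun y => bsd (E.gu.x2 + 6 * E.gu.k - 1, y) 1,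
    (Finset.Ico (E.gu.yc - E.gu.b + 3 * r - r : ℤ) (E.gu.yc - E.gu.a - (2 * r + 1) + r)).image fun y => bsd (E.gu.x2 + 4 * E.gu.k, y) 3,
    (Finset.Ico (E.gu.yc - E.gu.b + 3 * r - r : ℤ) (E.gu.yc - E.gu.a - (2 * r + 1) + r)).image fun y => bsd (E.gu.x2 + 3 * E.gu.k - 1, y) 1,
    (Finset.Ico (E.gu.yc - E.gu.b + 3 * r - r : ℤ) (E.gu.yc - E.gu.a - (2 * r + 1) + r)).image fun y => bsd (E.gu.x2 + E.gu.k, y) 3,
    (Finset.Ico (E.gu.yc - E.gu.b + 3 * r - r : ℤ) (E.gu.yc - E.gu.a - (2 * r + 1) + r)).image fun y => bsd (E.gu.x1 - E.gu.k - 1, y) 1,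
    (Finset.Ico (E.gu.yc - E.gu.b + 3 * r - r : ℤ) (E.gu.yc - E.gu.a - (2 * r + 1) + r)).image fun y => bsd (E.gu.x1 - 3 * E.gu.k, y) 3,
    (Finset.Ico (E.gu.yc - E.gu.b + 3 * r - r : ℤ) (E.gu.yc - E.gu.a - (2 * r + 1) + r)).image fun y => bsd (E.gu.x1 - 4 * E.gu.k - 1, y) 1,
    (Finset.Ico (E.gu.yc - E.gu.b + 3 * r - r : ℤ) (E.gu.yc - E.gu.a - (2 * r + 1) + r)).image fun y => bsd (E.gu.x1 - 6 * E.gu.k, y) 3,
    (Finset.Ico (E.gu.yc - E.gu.c + 3 * r - r : ℤ) (E.gu.yc - E.gu.a - (2 * r + 1) + r)).image fun y => bsd (E.gu.x1 - 7 * E.gu.k - 1, y) 1,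
    (Finset.Ico (E.gu.x2 + 5 * E.gu.k + 3 * r - r : ℤ) (E.gu.x2 + 6 * E.gu.k - 3 * r + r)).image fun x => bsd (x, E.gu.yc - E.gu.b) 0,
    (Finset.Ico (E.gu.x2 + 4 * E.gu.k + 3 * r - r : ℤ) (E.gu.x2 + 5 * E.gu.k - 3 * r + r)).image fun x => bsd (x, E.gu.yc - E.gu.b) 0,
    (Finset.Ico (E.gu.x2 + 2 * E.gu.k + 3 * r - r : ℤ) (E.gu.x2 + 3 * E.gu.k - 3 * r + r)).image fun x => bsd (x, E.gu.yc - E.gu.b) 0,
    (Finset.Ico (E.gu.x2 + E.gu.k + 3 * r - r : ℤ) (E.gu.x2 + 2 * E.gu.k - 3 * r + r)).image fun x => bsd (x, E.gu.yc - E.gu.b) 0,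
    (Finset.Ico (E.gu.x1 - 2 * E.gu.k + 3 * r - r : ℤ) (E.gu.x1 - E.gu.k - 3 * r + r)).image fun x => bsd (x, E.gu.yc - E.gu.b) 0,
    (Finset.Ico (E.gu.x1 - 3 * E.gu.k + 3 * r - r : ℤ) (E.gu.x1 - 2 * E.gu.k - 3 * r + r)).image fun x => bsd (x, E.gu.yc - E.gu.b) 0,
    (Finset.Ico (E.gu.x1 - 5 * E.gu.k + 3 * r - r : ℤ) (E.gu.x1 - 4 * E.gu.k - 3 * r + r)).image fun x => bsd (x, E.gu.yc - E.gu.b) 0,
    (Finset.Ico (E.gu.x1 - 6 * E.gu.k + 3 * r - r : ℤ) (E.gu.x1 - 5 * E.gu.k - 3 * r + r)).image fun x => bsd (x, E.gu.yc - E.gu.b) 0,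
    (Finset.Ico (E.gu.x1 - 7 * E.gu.k + 3 * r - r : ℤ) (E.gu.x2 + 7 * E.gu.k - 3 * r + r)).image fun x => bsd (x, E.gu.yc - E.gu.c - 1) 2]

theorem Kap.nat (h : Kap E r) : PA E.Q E.F (E.psi mu ρu ml ρl ψu ψl) E.Z
    (Finset.univ.biUnion (Cn E r)) r 0 (38 * Ln E r) t₀ ∅ ∅ (Nb E r) := by
  refine PA.nbUnion (Cn E r) fun i => ?_
  fin_cases i
  · exact h.vu0
  · exact h.vu1
  · exact h.vu3
  · exact h.vu4
  · exact h.vu6
  · exact h.vu7
  · exact h.vu9
  · exact h.vu10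
  · exact h.vu12
  · exact h.vu13
  · exact h.hu1
  · exact h.hu2
  · exact h.hu4
  · exact h.hu5
  · exact h.hu7
  · exact h.hu8
  · exact h.hu10
  · exact h.hu11
  · exact h.ru
  · exact h.vl0
  · exact h.vl1
  · exact h.vl3
  · exact h.vl4
  · exact h.vl6
  · exact h.vl7
  · exact h.vl9
  · exact h.vl10
  · exact h.vl12
  · exact h.vl13
  · exact h.hl1
  · exact h.hl2
  · exact h.hl4
  · exact h.hl5
  · exact h.hl7
  · exact h.hl8
  · exact h.hl10
  · exact h.hl11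
  · exact h.rl

end BlkW

end

end Pool.Agent.SixB
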