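import Pool.Agent.Lib.SixB.S3OutC

/-!
# 6BD step 3, R10: the mouths of the base and the covered walls

* `Cm E r`, `Kap.mouths`: the ten mouth charts of the base.
* `Csp E r`: the walls of the special charts. `Cout E r`: all sides covered by the outer atlas.
* `Wl C g lo hi`: the sides `g t`, `lo ≤ t < hi`, are in `C`.
-/

set_option autoImplicit false
set_option linter.unusedSectionVars false
set_option maxRecDepth 4000

namespace Pool.Agent.SixB.BlkW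

open Pool.Agent.Perc.Q Pool.Agent.Perc Pool.Agent.SixB.EnvB

noncomputable section

variable {E : SEnv} {r R : ℕ} {mu ρu ml ρl t₀ : ℝ} {ψu ψl : (ℤ × ℤ) × (ℤ × ℤ) → ℝ} {f : ℤ × ℤ}
  {x y : ℤ}

/-- a side in the base sheet -/
def nn (a : (ℤ × ℤ) × (ℤ × ℤ)) : (Option Bool × (ℤ × ℤ)) × (Option Bool × (ℤ × ℤ)) :=
  ((none, a.1), (none, a.2))

theorem nn_sd (f : ℤ × ℤ) (k : ZMod 4) : nn (sd ZQ f k) = bsd f k := rfl

/-! ## The ten mouths -/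

/-- the sides of the boxes of the mouths -/
def Mlf : Fin 10 → Bool := ![false, true, false, true, false, true, false, true, false, true]

/-- the columns of the mouths -/
def MX (G : BGeo) : Fin 10 → ℤ :=
  ![G.x2 + 7 * G.k, G.x2 + 6 * G.k, G.x2 + 4 * G.k, G.x2 + 3 * G.k, G.x2 + G.k, G.x1 - G.k,
    G.x1 - 3 * G.k, G.x1 - 4 * G.k, G.x1 - 6 * G.k, G.x1 - 7 * G.k]

/-- the sides covered by the mouths -/
def Cm (E : SEnv) (r : ℕ) (i : Fin 10) :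
    Finset ((Option Bool × (ℤ × ℤ)) × (Option Bool × (ℤ × ℤ))) :=
  Finset.univ.biUnion fun j : Fin 4 => (mthWall (Mlf i) (MX E.gu i, E.gu.yc) (r + E.gu.a + 1)
    E.gu.a ((E.gu.k - 1) / 2 + 1) j).image nn

theorem Kap.pm (h : Kap E r) {lf : Bool} {X : ℤ}
    (hm : LocM E lf (X, E.gu.yc) (2 * r + 1) E.gu.a (E.gu.k - 1 + 1))
    (hn : hm.chart.Nat (E.psi mu ρu ml ρl ψu ψl) 0 ∨
      hm.chart.Nat (E.psi mu ρu ml ρl ψu ψl) (Real.pi / 3))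
    (hX : ∀ f ∈ Mth lf (X, E.gu.yc) (2 * r) E.gu.a (E.gu.k - 1),
      ¬ (E.gu.x1 ≤ f.1 ∧ f.1 < E.gu.x2)) :
    PA E.Q E.F (E.psi mu ρu ml ρl ψu ψl) E.Z (Finset.univ.biUnion fun j : Fin 4 =>
      (mthWall lf (X, E.gu.yc) (r + E.gu.a + 1) E.gu.a ((E.gu.k - 1) / 2 + 1) j).image nn)
      r 0 1 t₀ ∅ ∅ (Nb E r) := by
  have h1 := h.ar
  have h2 := h.rk
  have h3 := h.hb
  have h4 := h.hc
  have h5 := h.a0
  refine PA.mouth (h := E.gu.a) (l := E.gu.k - 1) hm.chart ⟨h5, h1, by omega⟩ hn (fun j => ?_)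
    (fun f hf => ?_) (fun a ha => ?_)
  · intro a ha
    obtain ⟨s, hs, rfl⟩ := Finset.mem_image.mp ha
    exact hm.side_Z (mthWall_mono (by omega) (by omega) (by omega) j hs)
  · obtain ⟨g, hg, rfl⟩ := Finset.mem_image.mp hf
    have hx := hX g hg
    have hy : E.gu.yc - 2 * r ≤ g.2 ∧ g.2 < E.gu.yc + 2 * r := by
      cases lf
      · rw [mem_Mth_right] at hg
        simp only at hg
        push_cast at hg
        omega
      · rw [mem_Mth_left] at hg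
        simp only at hg
        push_cast at hg
        omega
    exact h.nb_of (fun h8 => hx h8.1) fun j => Or.inr (by
      have h9 := h.Hc_ge j
      omega)
  · rw [Finset.mem_biUnion] at ha
    obtain ⟨j, -, hj⟩ := ha
    obtain ⟨s, hs, rfl⟩ := Finset.mem_image.mp hj
    exact ⟨j, s, hs, rfl⟩

theorem Kap.pmR7 (h : Kap E r) (hmu : mu = ρl - ρu + Real.pi / 6) (hml : ml = ρu - ρl + Real.pi / 6) :
    PA E.Q E.F (E.psi mu ρu ml ρl ψu ψl) E.Z (Cm E r 0) r 0 1 t₀ ∅ ∅ (Nb E r) := by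
  have h1 := h.ar
  have h2 := h.rk
  have h3 := h.hb
  have h4 := h.hc
  have h5 := h.a0
  have h6 := h.hx
  have h7 := h.mtb (R := 2 * r + 1) (by omega) (by omega)
  have h8 : E.gu.k - 1 + 1 ≤ E.gu.k := by omega
  refine h.pm (h7.mR7 h8) (Or.inl (h7.nR7 h8 hmu hml)) ?_
  intro f hf
  change f ∈ Mth false (E.gu.x2 + 7 * E.gu.k, E.gu.yc) (2 * r) E.gu.a (E.gu.k - 1) at hf
  rw [mem_Mth_right] at hf
  simp only at hf
  push_cast at hf
  omega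

theorem Kap.pmR6 (h : Kap E r) (hmu : mu = ρl - ρu + Real.pi / 6) (hml : ml = ρu - ρl + Real.pi / 6) :
    PA E.Q E.F (E.psi mu ρu ml ρl ψu ψl) E.Z (Cm E r 1) r 0 1 t₀ ∅ ∅ (Nb E r) := by
  have h1 := h.ar
  have h2 := h.rk
  have h3 := h.hb
  have h4 := h.hc
  have h5 := h.a0
  have h6 := h.hx
  have h7 := h.mtb (R := 2 * r + 1) (by omega) (by omega)
  have h8 : E.gu.k - 1 + 1 ≤ E.gu.k := by omega
  refine h.pm (h7.mR6 h8) (Or.inr (h7.nR6 h8 hmu hml)) ?_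
  intro f hf
  change f ∈ Mth true (E.gu.x2 + 6 * E.gu.k, E.gu.yc) (2 * r) E.gu.a (E.gu.k - 1) at hf
  rw [mem_Mth_left] at hf
  simp only at hf
  push_cast at hf
  omega

theorem Kap.pmR4 (h : Kap E r) (hmu : mu = ρl - ρu + Real.pi / 6) (hml : ml = ρu - ρl + Real.pi / 6) :
    PA E.Q E.F (E.psi mu ρu ml ρl ψu ψl) E.Z (Cm E r 2) r 0 1 t₀ ∅ ∅ (Nb E r) := by
  have h1 := h.ar
  have h2 := h.rk
  have h3 := h.hb
  have h4 := h.hc
  have h5 := h.a0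
  have h6 := h.hx
  have h7 := h.mtb (R := 2 * r + 1) (by omega) (by omega)
  have h8 : E.gu.k - 1 + 1 ≤ E.gu.k := by omega
  refine h.pm (h7.mR4 h8) (Or.inr (h7.nR4 h8 hmu hml)) ?_
  intro f hf
  change f ∈ Mth false (E.gu.x2 + 4 * E.gu.k, E.gu.yc) (2 * r) E.gu.a (E.gu.k - 1) at hf
  rw [mem_Mth_right] at hf
  simp only at hf
  push_cast at hf
  omega

theorem Kap.pmR3 (h : Kap E r) (hmu : mu = ρl - ρu + Real.pi / 6) (hml : ml = ρu - ρl + Real.pi / 6) :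
    PA E.Q E.F (E.psi mu ρu ml ρl ψu ψl) E.Z (Cm E r 3) r 0 1 t₀ ∅ ∅ (Nb E r) := by
  have h1 := h.ar
  have h2 := h.rk
  have h3 := h.hb
  have h4 := h.hc
  have h5 := h.a0
  have h6 := h.hx
  have h7 := h.mtb (R := 2 * r + 1) (by omega) (by omega)
  have h8 : E.gu.k - 1 + 1 ≤ E.gu.k := by omega
  refine h.pm (h7.mR3 h8) (Or.inl (h7.nR3 h8 hmu hml)) ?_
  intro f hf
  change f ∈ Mth true (E.gu.x2 + 3 * E.gu.k, E.gu.yc) (2 * r) E.gu.a (E.gu.k - 1) at hf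
  rw [mem_Mth_left] at hf
  simp only at hf
  push_cast at hf
  omega

theorem Kap.pmR1 (h : Kap E r) (hmu : mu = ρl - ρu + Real.pi / 6) (hml : ml = ρu - ρl + Real.pi / 6) :
    PA E.Q E.F (E.psi mu ρu ml ρl ψu ψl) E.Z (Cm E r 4) r 0 1 t₀ ∅ ∅ (Nb E r) := by
  have h1 := h.ar
  have h2 := h.rk
  have h3 := h.hb
  have h4 := h.hc
  have h5 := h.a0
  have h6 := h.hx
  have h7 := h.mtb (R := 2 * r + 1) (by omega) (by omega)
  have h8 : E.gu.k - 1 + 1 ≤ E.gu.k := by omega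
  refine h.pm (h7.mR1 h8) (Or.inr (h7.nR1 h8 hmu hml)) ?_
  intro f hf
  change f ∈ Mth false (E.gu.x2 + E.gu.k, E.gu.yc) (2 * r) E.gu.a (E.gu.k - 1) at hf
  rw [mem_Mth_right] at hf
  simp only at hf
  push_cast at hf
  omega

theorem Kap.pmL1 (h : Kap E r) (hmu : mu = ρl - ρu + Real.pi / 6) (hml : ml = ρu - ρl + Real.pi / 6) :
    PA E.Q E.F (E.psi mu ρu ml ρl ψu ψl) E.Z (Cm E r 5) r 0 1 t₀ ∅ ∅ (Nb E r) := by
  have h1 := h.ar
  have h2 := h.rk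
  have h3 := h.hb
  have h4 := h.hc
  have h5 := h.a0
  have h6 := h.hx
  have h7 := h.mtb (R := 2 * r + 1) (by omega) (by omega)
  have h8 : E.gu.k - 1 + 1 ≤ E.gu.k := by omega
  refine h.pm (h7.mL1 h8) (Or.inr (h7.nL1 h8 hmu hml)) ?_
  intro f hf
  change f ∈ Mth true (E.gu.x1 - E.gu.k, E.gu.yc) (2 * r) E.gu.a (E.gu.k - 1) at hf
  rw [mem_Mth_left] at hf
  simp only at hf
  push_cast at hf
  omega

theorem Kap.pmL3 (h : Kap E r) (hmu : mu = ρl - ρu + Real.pi / 6) (hml : ml = ρu - ρl + Real.pi / 6) :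
    PA E.Q E.F (E.psi mu ρu ml ρl ψu ψl) E.Z (Cm E r 6) r 0 1 t₀ ∅ ∅ (Nb E r) := by
  have h1 := h.ar
  have h2 := h.rk
  have h3 := h.hb
  have h4 := h.hc
  have h5 := h.a0
  have h6 := h.hx
  have h7 := h.mtb (R := 2 * r + 1) (by omega) (by omega)
  have h8 : E.gu.k - 1 + 1 ≤ E.gu.k := by omega
  refine h.pm (h7.mL3 h8) (Or.inl (h7.nL3 h8 hmu hml)) ?_
  intro f hf
  change f ∈ Mth false (E.gu.x1 - 3 * E.gu.k, E.gu.yc) (2 * r) E.gu.a (E.gu.k - 1) at hf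
  rw [mem_Mth_right] at hf
  simp only at hf
  push_cast at hf
  omega

theorem Kap.pmL4 (h : Kap E r) (hmu : mu = ρl - ρu + Real.pi / 6) (hml : ml = ρu - ρl + Real.pi / 6) :
    PA E.Q E.F (E.psi mu ρu ml ρl ψu ψl) E.Z (Cm E r 7) r 0 1 t₀ ∅ ∅ (Nb E r) := by
  have h1 := h.ar
  have h2 := h.rk
  have h3 := h.hb
  have h4 := h.hc
  have h5 := h.a0
  have h6 := h.hx
  have h7 := h.mtb (R := 2 * r + 1) (by omega) (by omega)
  have h8 : E.gu.k - 1 + 1 ≤ E.gu.k := by omega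
  refine h.pm (h7.mL4 h8) (Or.inr (h7.nL4 h8 hmu hml)) ?_
  intro f hf
  change f ∈ Mth true (E.gu.x1 - 4 * E.gu.k, E.gu.yc) (2 * r) E.gu.a (E.gu.k - 1) at hf
  rw [mem_Mth_left] at hf
  simp only at hf
  push_cast at hf
  omega

theorem Kap.pmL6 (h : Kap E r) (hmu : mu = ρl - ρu + Real.pi / 6) (hml : ml = ρu - ρl + Real.pi / 6) :
    PA E.Q E.F (E.psi mu ρu ml ρl ψu ψl) E.Z (Cm E r 8) r 0 1 t₀ ∅ ∅ (Nb E r) := by
  have h1 := h.ar
  have h2 := h.rk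
  have h3 := h.hb
  have h4 := h.hc
  have h5 := h.a0
  have h6 := h.hx
  have h7 := h.mtb (R := 2 * r + 1) (by omega) (by omega)
  have h8 : E.gu.k - 1 + 1 ≤ E.gu.k := by omega
  refine h.pm (h7.mL6 h8) (Or.inr (h7.nL6 h8 hmu hml)) ?_
  intro f hf
  change f ∈ Mth false (E.gu.x1 - 6 * E.gu.k, E.gu.yc) (2 * r) E.gu.a (E.gu.k - 1) at hf
  rw [mem_Mth_right] at hf
  simp only at hf
  push_cast at hf
  omega

theorem Kap.pmL7 (h : Kap E r) (hmu : mu = ρl - ρu + Real.pi / 6) (hml : ml = ρu - ρl + Real.pi / 6) :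
    PA E.Q E.F (E.psi mu ρu ml ρl ψu ψl) E.Z (Cm E r 9) r 0 1 t₀ ∅ ∅ (Nb E r) := by
  have h1 := h.ar
  have h2 := h.rk
  have h3 := h.hb
  have h4 := h.hc
  have h5 := h.a0
  have h6 := h.hx
  have h7 := h.mtb (R := 2 * r + 1) (by omega) (by omega)
  have h8 : E.gu.k - 1 + 1 ≤ E.gu.k := by omega
  refine h.pm (h7.mL7 h8) (Or.inl (h7.nL7 h8 hmu hml)) ?_
  intro f hf
  change f ∈ Mth true (E.gu.x1 - 7 * E.gu.k, E.gu.yc) (2 * r) E.gu.a (E.gu.k - 1) at hf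
  rw [mem_Mth_left] at hf
  simp only at hf
  push_cast at hf
  omega

/-- the ten mouths -/
theorem Kap.mouths (h : Kap E r) (hmu : mu = ρl - ρu + Real.pi / 6)
    (hml : ml = ρu - ρl + Real.pi / 6) :
    PA E.Q E.F (E.psi mu ρu ml ρl ψu ψl) E.Z (Finset.univ.biUnion (Cm E r)) r 0 (10 * 1) t₀ ∅ ∅
      (Nb E r) := by
  refine PA.nbUnion (Cm E r) fun i => ?_
  fin_cases i
  · exact h.pmR7 hmu hml
  · exact h.pmR6 hmu hml
  · exact h.pmR4 hmu hml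
  · exact h.pmR3 hmu hml
  · exact h.pmR1 hmu hml
  · exact h.pmL1 hmu hml
  · exact h.pmL3 hmu hml
  · exact h.pmL4 hmu hml
  · exact h.pmL6 hmu hml
  · exact h.pmL7 hmu hml

/-! ## The covered sides -/

/-- the walls of the special charts -/
def Csp (E : SEnv) (r : ℕ) : Finset ((Option Bool × (ℤ × ℤ)) × (Option Bool × (ℤ × ℤ))) :=
  Finset.univ.biUnion fun i : Bool × Fin 14 =>
    (wIn (ot i + (mt i : ZMod 4)) (vt E i) (2 * r) ∪ wOut (ot i) (vt E i) (2 * r)).image nn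

/-- the sides covered by the outer atlas -/
def Cout (E : SEnv) (r : ℕ) : Finset ((Option Bool × (ℤ × ℤ)) × (Option Bool × (ℤ × ℤ))) :=
  Csp E r ∪ (Finset.univ.biUnion (Cn E r) ∪ Finset.univ.biUnion (Cm E r))

theorem mem_Cout {a : (Option Bool × (ℤ × ℤ)) × (Option Bool × (ℤ × ℤ))} :
    a ∈ Cout E r ↔ (∃ i, a ∈ (wIn (ot i + (mt i : ZMod 4)) (vt E i) (2 * r) ∪
      wOut (ot i) (vt E i) (2 * r)).image nn) ∨ (∃ i, a ∈ Cn E r i) ∨ ∃ i, a ∈ Cm E r i := by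
  unfold Cout Csp
  rw [Finset.mem_union, Finset.mem_union, Finset.mem_biUnion, Finset.mem_biUnion, Finset.mem_biUnion]
  simp only [Finset.mem_univ, true_and]

/-- the sides `g t`, `lo ≤ t < hi`, are in `C` -/
def Wl (C : Finset ((Option Bool × (ℤ × ℤ)) × (Option Bool × (ℤ × ℤ))))
    (g : ℤ → (Option Bool × (ℤ × ℤ)) × (Option Bool × (ℤ × ℤ))) (lo hi : ℤ) : Prop :=
  ∀ t : ℤ, lo ≤ t → t < hi → g t ∈ C

theorem Wl.join {C : Finset ((Option Bool × (ℤ × ℤ)) × (Option Bool × (ℤ × ℤ)))}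
    {g : ℤ → (Option Bool × (ℤ × ℤ)) × (Option Bool × (ℤ × ℤ))} {a b b' c : ℤ} (h : Wl C g a b)
    (h' : Wl C g b' c) (hb : b' ≤ b) : Wl C g a c := by
  intro t h1 h2
  rcases lt_or_ge t b with h3 | h3
  · exact h t h1 h3
  · exact h' t (by omega) h2

theorem Wl.ofn {i : Fin 38} {lo hi : ℤ} {g : ℤ → (Option Bool × (ℤ × ℤ)) × (Option Bool × (ℤ × ℤ))}
    (e : Cn E r i = (Finset.Ico lo hi).image g) : Wl (Cout E r) g lo hi := by
  intro t h1 h2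
  rw [mem_Cout]
  refine Or.inr (Or.inl ⟨i, ?_⟩)
  rw [e]
  exact Finset.mem_image_of_mem _ (Finset.mem_Ico.mpr ⟨h1, h2⟩)

theorem sp_in (i : Bool × Fin 14) {e : ZMod 4} (he : ot i + (mt i : ZMod 4) = e)
    {k : ZMod 4} (ha : sd ZQ f k ∈ wIn e (vt E i) (2 * r)) : bsd f k ∈ Cout E r := by
  subst he
  rw [mem_Cout, ← nn_sd]
  exact Or.inl ⟨i, Finset.mem_image_of_mem nn (Finset.mem_union_left _ ha)⟩

theorem sp_out (i : Bool × Fin 14) {e : ZMod 4} (he : ot i = e)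
    {k : ZMod 4} (ha : sd ZQ f k ∈ wOut e (vt E i) (2 * r)) : bsd f k ∈ Cout E r := by
  subst he
  rw [mem_Cout, ← nn_sd]
  exact Or.inl ⟨i, Finset.mem_image_of_mem nn (Finset.mem_union_right _ ha)⟩

theorem Wl.out0 (i : Bool × Fin 14) (he : ot i = 0) {v : ℤ × ℤ} (hv : vt E i = v) :
    Wl (Cout E r) (fun x => bsd (x, v.2) 0) v.1 (v.1 + (2 * r : ℕ)) :=
  fun t h1 h2 => sp_out i he (mem_wOut0.mpr ⟨t, by rw [hv]; exact h1, by rw [hv]; exact h2, by rw [hv]⟩)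

theorem Wl.out1 (i : Bool × Fin 14) (he : ot i = 1) {v : ℤ × ℤ} (hv : vt E i = v) :
    Wl (Cout E r) (fun y => bsd (v.1 - 1, y) 1) v.2 (v.2 + (2 * r : ℕ)) :=
  fun t h1 h2 => sp_out i he (mem_wOut1.mpr ⟨t, by rw [hv]; exact h1, by rw [hv]; exact h2, by rw [hv]⟩)

theorem Wl.out2 (i : Bool × Fin 14) (he : ot i = 2) {v : ℤ × ℤ} (hv : vt E i = v) :
    Wl (Cout E r) (fun x => bsd (x, v.2 - 1) 2) (v.1 - (2 * r : ℕ)) v.1 :=
  fun t h1 h2 => sp_out i he (mem_wOut2.mpr ⟨t, by rw [hv]; exact h1, by rw [hv]; exact h2, by rw [hv]⟩)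

theorem Wl.out3 (i : Bool × Fin 14) (he : ot i = 3) {v : ℤ × ℤ} (hv : vt E i = v) :
    Wl (Cout E r) (fun y => bsd (v.1, y) 3) (v.2 - (2 * r : ℕ)) v.2 :=
  fun t h1 h2 => sp_out i he (mem_wOut3.mpr ⟨t, by rw [hv]; exact h1, by rw [hv]; exact h2, by rw [hv]⟩)

theorem Wl.in0 (i : Bool × Fin 14) (he : ot i + (mt i : ZMod 4) = 0) {v : ℤ × ℤ} (hv : vt E i = v) :
    Wl (Cout E r) (fun x => bsd (x, v.2 - 1) 2) v.1 (v.1 + (2 * r : ℕ)) :=
  fun t h1 h2 => sp_in i he (mem_wIn0.mpr ⟨t, by rw [hv]; exact h1, by rw [hv]; exact h2, by rw [hv]⟩)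

theorem Wl.in1 (i : Bool × Fin 14) (he : ot i + (mt i : ZMod 4) = 1) {v : ℤ × ℤ} (hv : vt E i = v) :
    Wl (Cout E r) (fun y => bsd (v.1, y) 3) v.2 (v.2 + (2 * r : ℕ)) :=
  fun t h1 h2 => sp_in i he (mem_wIn1.mpr ⟨t, by rw [hv]; exact h1, by rw [hv]; exact h2, by rw [hv]⟩)

theorem Wl.in2 (i : Bool × Fin 14) (he : ot i + (mt i : ZMod 4) = 2) {v : ℤ × ℤ} (hv : vt E i = v) :
    Wl (Cout E r) (fun x => bsd (x, v.2) 0) (v.1 - (2 * r : ℕ)) v.1 :=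
  fun t h1 h2 => sp_in i he (mem_wIn2.mpr ⟨t, by rw [hv]; exact h1, by rw [hv]; exact h2, by rw [hv]⟩)

theorem Wl.in3 (i : Bool × Fin 14) (he : ot i + (mt i : ZMod 4) = 3) {v : ℤ × ℤ} (hv : vt E i = v) :
    Wl (Cout E r) (fun y => bsd (v.1 - 1, y) 1) (v.2 - (2 * r : ℕ)) v.2 :=
  fun t h1 h2 => sp_in i he (mem_wIn3.mpr ⟨t, by rw [hv]; exact h1, by rw [hv]; exact h2, by rw [hv]⟩)

theorem mo_mem (i : Fin 10) {lf : Bool} {X : ℤ} (h1 : Mlf i = lf) (h2 : MX E.gu i = X) (j : Fin 4)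
    {k : ZMod 4} (ha : sd ZQ f k ∈ mthWall lf (X, E.gu.yc) (r + E.gu.a + 1) E.gu.a
      ((E.gu.k - 1) / 2 + 1) j) : bsd f k ∈ Cout E r := by
  subst h1 h2
  rw [mem_Cout, ← nn_sd]
  refine Or.inr (Or.inr ⟨i, ?_⟩)
  unfold Cm
  rw [Finset.mem_biUnion]
  exact ⟨j, Finset.mem_univ _, Finset.mem_image_of_mem nn ha⟩

/-- half of a tube -/
def hf (E : SEnv) : ℕ := (E.gu.k - 1) / 2 + 1

theorem Wl.mT0 (i : Fin 10) (h1 : Mlf i = true) {X : ℤ} (h2 : MX E.gu i = X) :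
    Wl (Cout E r) (fun y => bsd (X - 1, y) 1) (E.gu.yc - E.gu.a - (r + 1)) (E.gu.yc - E.gu.a) := by
  intro t h3 h4
  refine mo_mem i h1 h2 0 ?_
  unfold mthWall
  rw [if_pos rfl]
  exact mem_wOut1.mpr ⟨t, by simp only; omega, by simp only; omega, rfl⟩

theorem Wl.mT1 (i : Fin 10) (h1 : Mlf i = true) {X : ℤ} (h2 : MX E.gu i = X) :
    Wl (Cout E r) (fun x => bsd (x, E.gu.yc - E.gu.a) 0) X (X + hf E) := by
  intro t h3 h4
  refine mo_mem i h1 h2 1 ?_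
  unfold mthWall
  rw [if_pos rfl]
  exact mem_wOut0.mpr ⟨t, h3, h4, rfl⟩

theorem Wl.mT2 (i : Fin 10) (h1 : Mlf i = true) {X : ℤ} (h2 : MX E.gu i = X) :
    Wl (Cout E r) (fun x => bsd (x, E.gu.yc + E.gu.a - 1) 2) X (X + hf E) := by
  intro t h3 h4
  refine mo_mem i h1 h2 2 ?_
  unfold mthWall
  rw [if_pos rfl]
  unfold hf at h4
  exact mem_wOut2.mpr ⟨t, by simp only; omega, by simp only; omega, rfl⟩

theorem Wl.mT3 (i : Fin 10) (h1 : Mlf i = true) {X : ℤ} (h2 : MX E.gu i = X) :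
    Wl (Cout E r) (fun y => bsd (X - 1, y) 1) (E.gu.yc + E.gu.a) (E.gu.yc + E.gu.a + (r + 1)) := by
  intro t h3 h4
  refine mo_mem i h1 h2 3 ?_
  unfold mthWall
  rw [if_pos rfl]
  exact mem_wOut1.mpr ⟨t, by simp only; omega, by simp only; omega, rfl⟩

theorem Wl.mF0 (i : Fin 10) (h1 : Mlf i = false) {X : ℤ} (h2 : MX E.gu i = X) :
    Wl (Cout E r) (fun y => bsd (X, y) 3) (E.gu.yc + E.gu.a) (E.gu.yc + E.gu.a + (r + 1)) := by
  intro t h3 h4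
  refine mo_mem i h1 h2 0 ?_
  unfold mthWall
  rw [if_neg (by decide)]
  exact mem_wOut3.mpr ⟨t, by simp only; omega, by simp only; omega, rfl⟩

theorem Wl.mF1 (i : Fin 10) (h1 : Mlf i = false) {X : ℤ} (h2 : MX E.gu i = X) :
    Wl (Cout E r) (fun x => bsd (x, E.gu.yc + E.gu.a - 1) 2) (X - hf E) X := by
  intro t h3 h4
  refine mo_mem i h1 h2 1 ?_
  unfold mthWall
  rw [if_neg (by decide)]
  exact mem_wOut2.mpr ⟨t, h3, h4, rfl⟩

theorem Wl.mF2 (i : Fin 10) (h1 : Mlf i = false) {X : ℤ} (h2 : MX E.gu i = X) :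
    Wl (Cout E r) (fun x => bsd (x, E.gu.yc - E.gu.a) 0) (X - hf E) X := by
  intro t h3 h4
  refine mo_mem i h1 h2 2 ?_
  unfold mthWall
  rw [if_neg (by decide)]
  unfold hf at h3
  exact mem_wOut0.mpr ⟨t, by simp only; omega, by simp only; omega, rfl⟩

theorem Wl.mF3 (i : Fin 10) (h1 : Mlf i = false) {X : ℤ} (h2 : MX E.gu i = X) :
    Wl (Cout E r) (fun y => bsd (X, y) 3) (E.gu.yc - E.gu.a - (r + 1)) (E.gu.yc - E.gu.a) := by
  intro t h3 h4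
  refine mo_mem i h1 h2 3 ?_
  unfold mthWall
  rw [if_neg (by decide)]
  exact mem_wOut3.mpr ⟨t, by simp only; omega, by simp only; omega, rfl⟩

end

end Pool.Agent.SixB.BlkW
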