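import Pool.Agent.Lib.SixB.S3OutD

/-!
# 6BD step 3, R10: the covered walls of the two blocks

* `Kap.cu..`, `cl..`: vertical walls of the upper and the lower block; `cc..`, `cd..`: ceilings and floors of the
  chambers; `cru`, `crl`: top and bottom; `ct..`: the sides of the tubes.
-/

set_option autoImplicit false
set_option linter.unusedSectionVars false
set_option maxRecDepth 4000

namespace Pool.Agent.SixB.BlkW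

open Pool.Agent.Perc.Q Pool.Agent.Perc Pool.Agent.SixB.EnvB

noncomputable section

variable {E : SEnv} {r R : ℕ} {mu ρu ml ρl t₀ : ℝ} {ψu ψl : (ℤ × ℤ) × (ℤ × ℤ) → ℝ} {f : ℤ × ℤ}
  {x y : ℤ}

/-! ## The walls of the blocks -/

theorem Kap.cu0 (h : Kap E r) :
    Wl (Cout E r) (fun y => bsd (E.gu.x2 + 7 * E.gu.k, y) 3) (E.gu.yc + E.gu.a) (E.gu.yc + E.gu.c) := by
  have h1 := h.ar
  have h2 := h.rk
  have h3 := h.hb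
  have h4 := h.hc
  have h5 := h.a0
  have h6 := h.hx
  have p1 : Wl (Cout E r) (fun y => bsd (E.gu.x2 + 7 * E.gu.k, y) 3) (E.gu.yc + E.gu.a) (E.gu.yc + E.gu.a + (r + 1)) := Wl.mF0 0 rfl rfl
  have p2 : Wl (Cout E r) (fun y => bsd (E.gu.x2 + 7 * E.gu.k, y) 3) (E.gu.yc + E.gu.a + (2 * r + 1) - r) (E.gu.yc + E.gu.c - 3 * r + r) := Wl.ofn (i := 0) rfl
  have p3 : Wl (Cout E r) (fun y => bsd (E.gu.x2 + 7 * E.gu.k, y) 3) (E.gu.yc + E.gu.c - (2 * r : ℕ)) (E.gu.yc + E.gu.c) := Wl.out3 (r := r) (true, 0) rfl (v := (E.gu.x2 + 7 * E.gu.k, E.gu.yc + E.gu.c)) rfl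
  exact (p1.join p2 (by push_cast; omega)).join p3 (by push_cast; omega)

theorem Kap.cu1 (h : Kap E r) :
    Wl (Cout E r) (fun y => bsd (E.gu.x2 + 6 * E.gu.k - 1, y) 1) (E.gu.yc + E.gu.a) (E.gu.yc + E.gu.b) := by
  have h1 := h.ar
  have h2 := h.rk
  have h3 := h.hb
  have h4 := h.hc
  have h5 := h.a0
  have h6 := h.hx
  have p1 : Wl (Cout E r) (fun y => bsd (E.gu.x2 + 6 * E.gu.k - 1, y) 1) (E.gu.yc + E.gu.a) (E.gu.yc + E.gu.a + (r + 1)) := Wl.mT3 1 rfl rfl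
  have p2 : Wl (Cout E r) (fun y => bsd (E.gu.x2 + 6 * E.gu.k - 1, y) 1) (E.gu.yc + E.gu.a + (2 * r + 1) - r) (E.gu.yc + E.gu.b - 3 * r + r) := Wl.ofn (i := 1) rfl
  have p3 : Wl (Cout E r) (fun y => bsd (E.gu.x2 + 6 * E.gu.k - 1, y) 1) (E.gu.yc + E.gu.b - (2 * r : ℕ)) (E.gu.yc + E.gu.b) := Wl.in3 (r := r) (true, 1) rfl (v := (E.gu.x2 + 6 * E.gu.k, E.gu.yc + E.gu.b)) rfl
  exact (p1.join p2 (by push_cast; omega)).join p3 (by push_cast; omega)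

theorem Kap.cu3 (h : Kap E r) :
    Wl (Cout E r) (fun y => bsd (E.gu.x2 + 4 * E.gu.k, y) 3) (E.gu.yc + E.gu.a) (E.gu.yc + E.gu.b) := by
  have h1 := h.ar
  have h2 := h.rk
  have h3 := h.hb
  have h4 := h.hc
  have h5 := h.a0
  have h6 := h.hx
  have p1 : Wl (Cout E r) (fun y => bsd (E.gu.x2 + 4 * E.gu.k, y) 3) (E.gu.yc + E.gu.a) (E.gu.yc + E.gu.a + (r + 1)) := Wl.mF0 2 rfl rfl
  have p2 : Wl (Cout E r) (fun y => bsd (E.gu.x2 + 4 * E.gu.k, y) 3) (E.gu.yc + E.gu.a + (2 * r + 1) - r) (E.gu.yc + E.gu.b - 3 * r + r) := Wl.ofn (i := 2) rfl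
  have p3 : Wl (Cout E r) (fun y => bsd (E.gu.x2 + 4 * E.gu.k, y) 3) (E.gu.yc + E.gu.b - (2 * r : ℕ)) (E.gu.yc + E.gu.b) := Wl.out3 (r := r) (true, 3) rfl (v := (E.gu.x2 + 4 * E.gu.k, E.gu.yc + E.gu.b)) rfl
  exact (p1.join p2 (by push_cast; omega)).join p3 (by push_cast; omega)

theorem Kap.cu4 (h : Kap E r) :
    Wl (Cout E r) (fun y => bsd (E.gu.x2 + 3 * E.gu.k - 1, y) 1) (E.gu.yc + E.gu.a) (E.gu.yc + E.gu.b) := by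
  have h1 := h.ar
  have h2 := h.rk
  have h3 := h.hb
  have h4 := h.hc
  have h5 := h.a0
  have h6 := h.hx
  have p1 : Wl (Cout E r) (fun y => bsd (E.gu.x2 + 3 * E.gu.k - 1, y) 1) (E.gu.yc + E.gu.a) (E.gu.yc + E.gu.a + (r + 1)) := Wl.mT3 3 rfl rfl
  have p2 : Wl (Cout E r) (fun y => bsd (E.gu.x2 + 3 * E.gu.k - 1, y) 1) (E.gu.yc + E.gu.a + (2 * r + 1) - r) (E.gu.yc + E.gu.b - 3 * r + r) := Wl.ofn (i := 3) rfl
  have p3 : Wl (Cout E r) (fun y => bsd (E.gu.x2 + 3 * E.gu.k - 1, y) 1) (E.gu.yc + E.gu.b - (2 * r : ℕ)) (E.gu.yc + E.gu.b) := Wl.in3 (r := r) (true, 4) rfl (v := (E.gu.x2 + 3 * E.gu.k, E.gu.yc + E.gu.b)) rfl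
  exact (p1.join p2 (by push_cast; omega)).join p3 (by push_cast; omega)

theorem Kap.cu6 (h : Kap E r) :
    Wl (Cout E r) (fun y => bsd (E.gu.x2 + E.gu.k, y) 3) (E.gu.yc + E.gu.a) (E.gu.yc + E.gu.b) := by
  have h1 := h.ar
  have h2 := h.rk
  have h3 := h.hb
  have h4 := h.hc
  have h5 := h.a0
  have h6 := h.hx
  have p1 : Wl (Cout E r) (fun y => bsd (E.gu.x2 + E.gu.k, y) 3) (E.gu.yc + E.gu.a) (E.gu.yc + E.gu.a + (r + 1)) := Wl.mF0 4 rfl rfl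
  have p2 : Wl (Cout E r) (fun y => bsd (E.gu.x2 + E.gu.k, y) 3) (E.gu.yc + E.gu.a + (2 * r + 1) - r) (E.gu.yc + E.gu.b - 3 * r + r) := Wl.ofn (i := 4) rfl
  have p3 : Wl (Cout E r) (fun y => bsd (E.gu.x2 + E.gu.k, y) 3) (E.gu.yc + E.gu.b - (2 * r : ℕ)) (E.gu.yc + E.gu.b) := Wl.out3 (r := r) (true, 6) rfl (v := (E.gu.x2 + E.gu.k, E.gu.yc + E.gu.b)) rfl
  exact (p1.join p2 (by push_cast; omega)).join p3 (by push_cast; omega)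

theorem Kap.cu7 (h : Kap E r) :
    Wl (Cout E r) (fun y => bsd (E.gu.x1 - E.gu.k - 1, y) 1) (E.gu.yc + E.gu.a) (E.gu.yc + E.gu.b) := by
  have h1 := h.ar
  have h2 := h.rk
  have h3 := h.hb
  have h4 := h.hc
  have h5 := h.a0
  have h6 := h.hx
  have p1 : Wl (Cout E r) (fun y => bsd (E.gu.x1 - E.gu.k - 1, y) 1) (E.gu.yc + E.gu.a) (E.gu.yc + E.gu.a + (r + 1)) := Wl.mT3 5 rfl rfl
  have p2 : Wl (Cout E r) (fun y => bsd (E.gu.x1 - E.gu.k - 1, y) 1) (E.gu.yc + E.gu.a + (2 * r + 1) - r) (E.gu.yc + E.gu.b - 3 * r + r) := Wl.ofn (i := 5) rfl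
  have p3 : Wl (Cout E r) (fun y => bsd (E.gu.x1 - E.gu.k - 1, y) 1) (E.gu.yc + E.gu.b - (2 * r : ℕ)) (E.gu.yc + E.gu.b) := Wl.in3 (r := r) (true, 7) rfl (v := (E.gu.x1 - E.gu.k, E.gu.yc + E.gu.b)) rfl
  exact (p1.join p2 (by push_cast; omega)).join p3 (by push_cast; omega)

theorem Kap.cu9 (h : Kap E r) :
    Wl (Cout E r) (fun y => bsd (E.gu.x1 - 3 * E.gu.k, y) 3) (E.gu.yc + E.gu.a) (E.gu.yc + E.gu.b) := by
  have h1 := h.ar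
  have h2 := h.rk
  have h3 := h.hb
  have h4 := h.hc
  have h5 := h.a0
  have h6 := h.hx
  have p1 : Wl (Cout E r) (fun y => bsd (E.gu.x1 - 3 * E.gu.k, y) 3) (E.gu.yc + E.gu.a) (E.gu.yc + E.gu.a + (r + 1)) := Wl.mF0 6 rfl rfl
  have p2 : Wl (Cout E r) (fun y => bsd (E.gu.x1 - 3 * E.gu.k, y) 3) (E.gu.yc + E.gu.a + (2 * r + 1) - r) (E.gu.yc + E.gu.b - 3 * r + r) := Wl.ofn (i := 6) rfl
  have p3 : Wl (Cout E r) (fun y => bsd (E.gu.x1 - 3 * E.gu.k, y) 3) (E.gu.yc + E.gu.b - (2 * r : ℕ)) (E.gu.yc + E.gu.b) := Wl.out3 (r := r) (true, 9) rfl (v := (E.gu.x1 - 3 * E.gu.k, E.gu.yc + E.gu.b)) rfl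
  exact (p1.join p2 (by push_cast; omega)).join p3 (by push_cast; omega)

theorem Kap.cu10 (h : Kap E r) :
    Wl (Cout E r) (fun y => bsd (E.gu.x1 - 4 * E.gu.k - 1, y) 1) (E.gu.yc + E.gu.a) (E.gu.yc + E.gu.b) := by
  have h1 := h.ar
  have h2 := h.rk
  have h3 := h.hb
  have h4 := h.hc
  have h5 := h.a0
  have h6 := h.hx
  have p1 : Wl (Cout E r) (fun y => bsd (E.gu.x1 - 4 * E.gu.k - 1, y) 1) (E.gu.yc + E.gu.a) (E.gu.yc + E.gu.a + (r + 1)) := Wl.mT3 7 rfl rfl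
  have p2 : Wl (Cout E r) (fun y => bsd (E.gu.x1 - 4 * E.gu.k - 1, y) 1) (E.gu.yc + E.gu.a + (2 * r + 1) - r) (E.gu.yc + E.gu.b - 3 * r + r) := Wl.ofn (i := 7) rfl
  have p3 : Wl (Cout E r) (fun y => bsd (E.gu.x1 - 4 * E.gu.k - 1, y) 1) (E.gu.yc + E.gu.b - (2 * r : ℕ)) (E.gu.yc + E.gu.b) := Wl.in3 (r := r) (true, 10) rfl (v := (E.gu.x1 - 4 * E.gu.k, E.gu.yc + E.gu.b)) rfl
  exact (p1.join p2 (by push_cast; omega)).join p3 (by push_cast; omega)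

theorem Kap.cu12 (h : Kap E r) :
    Wl (Cout E r) (fun y => bsd (E.gu.x1 - 6 * E.gu.k, y) 3) (E.gu.yc + E.gu.a) (E.gu.yc + E.gu.b) := by
  have h1 := h.ar
  have h2 := h.rk
  have h3 := h.hb
  have h4 := h.hc
  have h5 := h.a0
  have h6 := h.hx
  have p1 : Wl (Cout E r) (fun y => bsd (E.gu.x1 - 6 * E.gu.k, y) 3) (E.gu.yc + E.gu.a) (E.gu.yc + E.gu.a + (r + 1)) := Wl.mF0 8 rfl rfl
  have p2 : Wl (Cout E r) (fun y => bsd (E.gu.x1 - 6 * E.gu.k, y) 3) (E.gu.yc + E.gu.a + (2 * r + 1) - r) (E.gu.yc + E.gu.b - 3 * r + r) := Wl.ofn (i := 8) rfl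
  have p3 : Wl (Cout E r) (fun y => bsd (E.gu.x1 - 6 * E.gu.k, y) 3) (E.gu.yc + E.gu.b - (2 * r : ℕ)) (E.gu.yc + E.gu.b) := Wl.out3 (r := r) (true, 12) rfl (v := (E.gu.x1 - 6 * E.gu.k, E.gu.yc + E.gu.b)) rfl
  exact (p1.join p2 (by push_cast; omega)).join p3 (by push_cast; omega)

theorem Kap.cu13 (h : Kap E r) :
    Wl (Cout E r) (fun y => bsd (E.gu.x1 - 7 * E.gu.k - 1, y) 1) (E.gu.yc + E.gu.a) (E.gu.yc + E.gu.c) := by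
  have h1 := h.ar
  have h2 := h.rk
  have h3 := h.hb
  have h4 := h.hc
  have h5 := h.a0
  have h6 := h.hx
  have p1 : Wl (Cout E r) (fun y => bsd (E.gu.x1 - 7 * E.gu.k - 1, y) 1) (E.gu.yc + E.gu.a) (E.gu.yc + E.gu.a + (r + 1)) := Wl.mT3 9 rfl rfl
  have p2 : Wl (Cout E r) (fun y => bsd (E.gu.x1 - 7 * E.gu.k - 1, y) 1) (E.gu.yc + E.gu.a + (2 * r + 1) - r) (E.gu.yc + E.gu.c - 3 * r + r) := Wl.ofn (i := 9) rfl
  have p3 : Wl (Cout E r) (fun y => bsd (E.gu.x1 - 7 * E.gu.k - 1, y) 1) (E.gu.yc + E.gu.c - (2 * r : ℕ)) (E.gu.yc + E.gu.c) := Wl.in3 (r := r) (true, 13) rfl (v := (E.gu.x1 - 7 * E.gu.k, E.gu.yc + E.gu.c)) rfl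
  exact (p1.join p2 (by push_cast; omega)).join p3 (by push_cast; omega)

theorem Kap.cc1 (h : Kap E r) :
    Wl (Cout E r) (fun x => bsd (x, E.gu.yc + E.gu.b - 1) 2) (E.gu.x2 + 5 * E.gu.k) (E.gu.x2 + 6 * E.gu.k) := by
  have h1 := h.ar
  have h2 := h.rk
  have h3 := h.hb
  have h4 := h.hc
  have h5 := h.a0
  have h6 := h.hx
  have p1 : Wl (Cout E r) (fun x => bsd (x, E.gu.yc + E.gu.b - 1) 2) (E.gu.x2 + 5 * E.gu.k) (E.gu.x2 + 5 * E.gu.k + (2 * r : ℕ)) := Wl.in0 (r := r) (true, 2) rfl (v := (E.gu.x2 + 5 * E.gu.k, E.gu.yc + E.gu.b)) rfl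
  have p2 : Wl (Cout E r) (fun x => bsd (x, E.gu.yc + E.gu.b - 1) 2) (E.gu.x2 + 5 * E.gu.k + 3 * r - r) (E.gu.x2 + 6 * E.gu.k - 3 * r + r) := Wl.ofn (i := 10) rfl
  have p3 : Wl (Cout E r) (fun x => bsd (x, E.gu.yc + E.gu.b - 1) 2) (E.gu.x2 + 6 * E.gu.k - (2 * r : ℕ)) (E.gu.x2 + 6 * E.gu.k) := Wl.out2 (r := r) (true, 1) rfl (v := (E.gu.x2 + 6 * E.gu.k, E.gu.yc + E.gu.b)) rfl
  exact (p1.join p2 (by push_cast; omega)).join p3 (by push_cast; omega)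

theorem Kap.cc2 (h : Kap E r) :
    Wl (Cout E r) (fun x => bsd (x, E.gu.yc + E.gu.b - 1) 2) (E.gu.x2 + 4 * E.gu.k) (E.gu.x2 + 5 * E.gu.k) := by
  have h1 := h.ar
  have h2 := h.rk
  have h3 := h.hb
  have h4 := h.hc
  have h5 := h.a0
  have h6 := h.hx
  have p1 : Wl (Cout E r) (fun x => bsd (x, E.gu.yc + E.gu.b - 1) 2) (E.gu.x2 + 4 * E.gu.k) (E.gu.x2 + 4 * E.gu.k + (2 * r : ℕ)) := Wl.in0 (r := r) (true, 3) rfl (v := (E.gu.x2 + 4 * E.gu.k, E.gu.yc + E.gu.b)) rfl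
  have p2 : Wl (Cout E r) (fun x => bsd (x, E.gu.yc + E.gu.b - 1) 2) (E.gu.x2 + 4 * E.gu.k + 3 * r - r) (E.gu.x2 + 5 * E.gu.k - 3 * r + r) := Wl.ofn (i := 11) rfl
  have p3 : Wl (Cout E r) (fun x => bsd (x, E.gu.yc + E.gu.b - 1) 2) (E.gu.x2 + 5 * E.gu.k - (2 * r : ℕ)) (E.gu.x2 + 5 * E.gu.k) := Wl.out2 (r := r) (true, 2) rfl (v := (E.gu.x2 + 5 * E.gu.k, E.gu.yc + E.gu.b)) rfl
  exact (p1.join p2 (by push_cast; omega)).join p3 (by push_cast; omega)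

theorem Kap.cc4 (h : Kap E r) :
    Wl (Cout E r) (fun x => bsd (x, E.gu.yc + E.gu.b - 1) 2) (E.gu.x2 + 2 * E.gu.k) (E.gu.x2 + 3 * E.gu.k) := by
  have h1 := h.ar
  have h2 := h.rk
  have h3 := h.hb
  have h4 := h.hc
  have h5 := h.a0
  have h6 := h.hx
  have p1 : Wl (Cout E r) (fun x => bsd (x, E.gu.yc + E.gu.b - 1) 2) (E.gu.x2 + 2 * E.gu.k) (E.gu.x2 + 2 * E.gu.k + (2 * r : ℕ)) := Wl.in0 (r := r) (true, 5) rfl (v := (E.gu.x2 + 2 * E.gu.k, E.gu.yc + E.gu.b)) rfl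
  have p2 : Wl (Cout E r) (fun x => bsd (x, E.gu.yc + E.gu.b - 1) 2) (E.gu.x2 + 2 * E.gu.k + 3 * r - r) (E.gu.x2 + 3 * E.gu.k - 3 * r + r) := Wl.ofn (i := 12) rfl
  have p3 : Wl (Cout E r) (fun x => bsd (x, E.gu.yc + E.gu.b - 1) 2) (E.gu.x2 + 3 * E.gu.k - (2 * r : ℕ)) (E.gu.x2 + 3 * E.gu.k) := Wl.out2 (r := r) (true, 4) rfl (v := (E.gu.x2 + 3 * E.gu.k, E.gu.yc + E.gu.b)) rfl
  exact (p1.join p2 (by push_cast; omega)).join p3 (by push_cast; omega)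

theorem Kap.cc5 (h : Kap E r) :
    Wl (Cout E r) (fun x => bsd (x, E.gu.yc + E.gu.b - 1) 2) (E.gu.x2 + E.gu.k) (E.gu.x2 + 2 * E.gu.k) := by
  have h1 := h.ar
  have h2 := h.rk
  have h3 := h.hb
  have h4 := h.hc
  have h5 := h.a0
  have h6 := h.hx
  have p1 : Wl (Cout E r) (fun x => bsd (x, E.gu.yc + E.gu.b - 1) 2) (E.gu.x2 + E.gu.k) (E.gu.x2 + E.gu.k + (2 * r : ℕ)) := Wl.in0 (r := r) (true, 6) rfl (v := (E.gu.x2 + E.gu.k, E.gu.yc + E.gu.b)) rfl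
  have p2 : Wl (Cout E r) (fun x => bsd (x, E.gu.yc + E.gu.b - 1) 2) (E.gu.x2 + E.gu.k + 3 * r - r) (E.gu.x2 + 2 * E.gu.k - 3 * r + r) := Wl.ofn (i := 13) rfl
  have p3 : Wl (Cout E r) (fun x => bsd (x, E.gu.yc + E.gu.b - 1) 2) (E.gu.x2 + 2 * E.gu.k - (2 * r : ℕ)) (E.gu.x2 + 2 * E.gu.k) := Wl.out2 (r := r) (true, 5) rfl (v := (E.gu.x2 + 2 * E.gu.k, E.gu.yc + E.gu.b)) rfl
  exact (p1.join p2 (by push_cast; omega)).join p3 (by push_cast; omega)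

theorem Kap.cc7 (h : Kap E r) :
    Wl (Cout E r) (fun x => bsd (x, E.gu.yc + E.gu.b - 1) 2) (E.gu.x1 - 2 * E.gu.k) (E.gu.x1 - E.gu.k) := by
  have h1 := h.ar
  have h2 := h.rk
  have h3 := h.hb
  have h4 := h.hc
  have h5 := h.a0
  have h6 := h.hx
  have p1 : Wl (Cout E r) (fun x => bsd (x, E.gu.yc + E.gu.b - 1) 2) (E.gu.x1 - 2 * E.gu.k) (E.gu.x1 - 2 * E.gu.k + (2 * r : ℕ)) := Wl.in0 (r := r) (true, 8) rfl (v := (E.gu.x1 - 2 * E.gu.k, E.gu.yc + E.gu.b)) rfl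
  have p2 : Wl (Cout E r) (fun x => bsd (x, E.gu.yc + E.gu.b - 1) 2) (E.gu.x1 - 2 * E.gu.k + 3 * r - r) (E.gu.x1 - E.gu.k - 3 * r + r) := Wl.ofn (i := 14) rfl
  have p3 : Wl (Cout E r) (fun x => bsd (x, E.gu.yc + E.gu.b - 1) 2) (E.gu.x1 - E.gu.k - (2 * r : ℕ)) (E.gu.x1 - E.gu.k) := Wl.out2 (r := r) (true, 7) rfl (v := (E.gu.x1 - E.gu.k, E.gu.yc + E.gu.b)) rfl
  exact (p1.join p2 (by push_cast; omega)).join p3 (by push_cast; omega)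

theorem Kap.cc8 (h : Kap E r) :
    Wl (Cout E r) (fun x => bsd (x, E.gu.yc + E.gu.b - 1) 2) (E.gu.x1 - 3 * E.gu.k) (E.gu.x1 - 2 * E.gu.k) := by
  have h1 := h.ar
  have h2 := h.rk
  have h3 := h.hb
  have h4 := h.hc
  have h5 := h.a0
  have h6 := h.hx
  have p1 : Wl (Cout E r) (fun x => bsd (x, E.gu.yc + E.gu.b - 1) 2) (E.gu.x1 - 3 * E.gu.k) (E.gu.x1 - 3 * E.gu.k + (2 * r : ℕ)) := Wl.in0 (r := r) (true, 9) rfl (v := (E.gu.x1 - 3 * E.gu.k, E.gu.yc + E.gu.b)) rfl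
  have p2 : Wl (Cout E r) (fun x => bsd (x, E.gu.yc + E.gu.b - 1) 2) (E.gu.x1 - 3 * E.gu.k + 3 * r - r) (E.gu.x1 - 2 * E.gu.k - 3 * r + r) := Wl.ofn (i := 15) rfl
  have p3 : Wl (Cout E r) (fun x => bsd (x, E.gu.yc + E.gu.b - 1) 2) (E.gu.x1 - 2 * E.gu.k - (2 * r : ℕ)) (E.gu.x1 - 2 * E.gu.k) := Wl.out2 (r := r) (true, 8) rfl (v := (E.gu.x1 - 2 * E.gu.k, E.gu.yc + E.gu.b)) rfl
  exact (p1.join p2 (by push_cast; omega)).join p3 (by push_cast; omega)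

theorem Kap.cc10 (h : Kap E r) :
    Wl (Cout E r) (fun x => bsd (x, E.gu.yc + E.gu.b - 1) 2) (E.gu.x1 - 5 * E.gu.k) (E.gu.x1 - 4 * E.gu.k) := by
  have h1 := h.ar
  have h2 := h.rk
  have h3 := h.hb
  have h4 := h.hc
  have h5 := h.a0
  have h6 := h.hx
  have p1 : Wl (Cout E r) (fun x => bsd (x, E.gu.yc + E.gu.b - 1) 2) (E.gu.x1 - 5 * E.gu.k) (E.gu.x1 - 5 * E.gu.k + (2 * r : ℕ)) := Wl.in0 (r := r) (true, 11) rfl (v := (E.gu.x1 - 5 * E.gu.k, E.gu.yc + E.gu.b)) rfl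
  have p2 : Wl (Cout E r) (fun x => bsd (x, E.gu.yc + E.gu.b - 1) 2) (E.gu.x1 - 5 * E.gu.k + 3 * r - r) (E.gu.x1 - 4 * E.gu.k - 3 * r + r) := Wl.ofn (i := 16) rfl
  have p3 : Wl (Cout E r) (fun x => bsd (x, E.gu.yc + E.gu.b - 1) 2) (E.gu.x1 - 4 * E.gu.k - (2 * r : ℕ)) (E.gu.x1 - 4 * E.gu.k) := Wl.out2 (r := r) (true, 10) rfl (v := (E.gu.x1 - 4 * E.gu.k, E.gu.yc + E.gu.b)) rfl
  exact (p1.join p2 (by push_cast; omega)).join p3 (by push_cast; omega)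

theorem Kap.cc11 (h : Kap E r) :
    Wl (Cout E r) (fun x => bsd (x, E.gu.yc + E.gu.b - 1) 2) (E.gu.x1 - 6 * E.gu.k) (E.gu.x1 - 5 * E.gu.k) := by
  have h1 := h.ar
  have h2 := h.rk
  have h3 := h.hb
  have h4 := h.hc
  have h5 := h.a0
  have h6 := h.hx
  have p1 : Wl (Cout E r) (fun x => bsd (x, E.gu.yc + E.gu.b - 1) 2) (E.gu.x1 - 6 * E.gu.k) (E.gu.x1 - 6 * E.gu.k + (2 * r : ℕ)) := Wl.in0 (r := r) (true, 12) rfl (v := (E.gu.x1 - 6 * E.gu.k, E.gu.yc + E.gu.b)) rfl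
  have p2 : Wl (Cout E r) (fun x => bsd (x, E.gu.yc + E.gu.b - 1) 2) (E.gu.x1 - 6 * E.gu.k + 3 * r - r) (E.gu.x1 - 5 * E.gu.k - 3 * r + r) := Wl.ofn (i := 17) rfl
  have p3 : Wl (Cout E r) (fun x => bsd (x, E.gu.yc + E.gu.b - 1) 2) (E.gu.x1 - 5 * E.gu.k - (2 * r : ℕ)) (E.gu.x1 - 5 * E.gu.k) := Wl.out2 (r := r) (true, 11) rfl (v := (E.gu.x1 - 5 * E.gu.k, E.gu.yc + E.gu.b)) rfl
  exact (p1.join p2 (by push_cast; omega)).join p3 (by push_cast; omega)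

theorem Kap.cru (h : Kap E r) :
    Wl (Cout E r) (fun x => bsd (x, E.gu.yc + E.gu.c) 0) (E.gu.x1 - 7 * E.gu.k) (E.gu.x2 + 7 * E.gu.k) := by
  have h1 := h.ar
  have h2 := h.rk
  have h3 := h.hb
  have h4 := h.hc
  have h5 := h.a0
  have h6 := h.hx
  have p1 : Wl (Cout E r) (fun x => bsd (x, E.gu.yc + E.gu.c) 0) (E.gu.x1 - 7 * E.gu.k) (E.gu.x1 - 7 * E.gu.k + (2 * r : ℕ)) := Wl.out0 (r := r) (true, 13) rfl (v := (E.gu.x1 - 7 * E.gu.k, E.gu.yc + E.gu.c)) rfl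
  have p2 : Wl (Cout E r) (fun x => bsd (x, E.gu.yc + E.gu.c) 0) (E.gu.x1 - 7 * E.gu.k + 3 * r - r) (E.gu.x2 + 7 * E.gu.k - 3 * r + r) := Wl.ofn (i := 18) rfl
  have p3 : Wl (Cout E r) (fun x => bsd (x, E.gu.yc + E.gu.c) 0) (E.gu.x2 + 7 * E.gu.k - (2 * r : ℕ)) (E.gu.x2 + 7 * E.gu.k) := Wl.in2 (r := r) (true, 0) rfl (v := (E.gu.x2 + 7 * E.gu.k, E.gu.yc + E.gu.c)) rfl
  exact (p1.join p2 (by push_cast; omega)).join p3 (by push_cast; omega)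

theorem Kap.cl0 (h : Kap E r) :
    Wl (Cout E r) (fun y => bsd (E.gu.x2 + 7 * E.gu.k, y) 3) (E.gu.yc - E.gu.c) (E.gu.yc - E.gu.a) := by
  have h1 := h.ar
  have h2 := h.rk
  have h3 := h.hb
  have h4 := h.hc
  have h5 := h.a0
  have h6 := h.hx
  have p1 : Wl (Cout E r) (fun y => bsd (E.gu.x2 + 7 * E.gu.k, y) 3) (E.gu.yc - E.gu.c) (E.gu.yc - E.gu.c + (2 * r : ℕ)) := Wl.in1 (r := r) (false, 0) rfl (v := (E.gu.x2 + 7 * E.gu.k, E.gu.yc - E.gu.c)) (h.vt_false _)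
  have p2 : Wl (Cout E r) (fun y => bsd (E.gu.x2 + 7 * E.gu.k, y) 3) (E.gu.yc - E.gu.c + 3 * r - r) (E.gu.yc - E.gu.a - (2 * r + 1) + r) := Wl.ofn (i := 19) rfl
  have p3 : Wl (Cout E r) (fun y => bsd (E.gu.x2 + 7 * E.gu.k, y) 3) (E.gu.yc - E.gu.a - (r + 1)) (E.gu.yc - E.gu.a) := Wl.mF3 0 rfl rfl
  exact (p1.join p2 (by push_cast; omega)).join p3 (by push_cast; omega)

theorem Kap.cl1 (h : Kap E r) :
    Wl (Cout E r) (fun y => bsd (E.gu.x2 + 6 * E.gu.k - 1, y) 1) (E.gu.yc - E.gu.b) (E.gu.yc - E.gu.a) := by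
  have h1 := h.ar
  have h2 := h.rk
  have h3 := h.hb
  have h4 := h.hc
  have h5 := h.a0
  have h6 := h.hx
  have p1 : Wl (Cout E r) (fun y => bsd (E.gu.x2 + 6 * E.gu.k - 1, y) 1) (E.gu.yc - E.gu.b) (E.gu.yc - E.gu.b + (2 * r : ℕ)) := Wl.out1 (r := r) (false, 1) rfl (v := (E.gu.x2 + 6 * E.gu.k, E.gu.yc - E.gu.b)) (h.vt_false _)
  have p2 : Wl (Cout E r) (fun y => bsd (E.gu.x2 + 6 * E.gu.k - 1, y) 1) (E.gu.yc - E.gu.b + 3 * r - r) (E.gu.yc - E.gu.a - (2 * r + 1) + r) := Wl.ofn (i := 20) rfl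
  have p3 : Wl (Cout E r) (fun y => bsd (E.gu.x2 + 6 * E.gu.k - 1, y) 1) (E.gu.yc - E.gu.a - (r + 1)) (E.gu.yc - E.gu.a) := Wl.mT0 1 rfl rfl
  exact (p1.join p2 (by push_cast; omega)).join p3 (by push_cast; omega)

theorem Kap.cl3 (h : Kap E r) :
    Wl (Cout E r) (fun y => bsd (E.gu.x2 + 4 * E.gu.k, y) 3) (E.gu.yc - E.gu.b) (E.gu.yc - E.gu.a) := by
  have h1 := h.ar
  have h2 := h.rk
  have h3 := h.hb
  have h4 := h.hc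
  have h5 := h.a0
  have h6 := h.hx
  have p1 : Wl (Cout E r) (fun y => bsd (E.gu.x2 + 4 * E.gu.k, y) 3) (E.gu.yc - E.gu.b) (E.gu.yc - E.gu.b + (2 * r : ℕ)) := Wl.in1 (r := r) (false, 3) rfl (v := (E.gu.x2 + 4 * E.gu.k, E.gu.yc - E.gu.b)) (h.vt_false _)
  have p2 : Wl (Cout E r) (fun y => bsd (E.gu.x2 + 4 * E.gu.k, y) 3) (E.gu.yc - E.gu.b + 3 * r - r) (E.gu.yc - E.gu.a - (2 * r + 1) + r) := Wl.ofn (i := 21) rfl
  have p3 : Wl (Cout E r) (fun y => bsd (E.gu.x2 + 4 * E.gu.k, y) 3) (E.gu.yc - E.gu.a - (r + 1)) (E.gu.yc - E.gu.a) := Wl.mF3 2 rfl rfl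
  exact (p1.join p2 (by push_cast; omega)).join p3 (by push_cast; omega)

theorem Kap.cl4 (h : Kap E r) :
    Wl (Cout E r) (fun y => bsd (E.gu.x2 + 3 * E.gu.k - 1, y) 1) (E.gu.yc - E.gu.b) (E.gu.yc - E.gu.a) := by
  have h1 := h.ar
  have h2 := h.rk
  have h3 := h.hb
  have h4 := h.hc
  have h5 := h.a0
  have h6 := h.hx
  have p1 : Wl (Cout E r) (fun y => bsd (E.gu.x2 + 3 * E.gu.k - 1, y) 1) (E.gu.yc - E.gu.b) (E.gu.yc - E.gu.b + (2 * r : ℕ)) := Wl.out1 (r := r) (false, 4) rfl (v := (E.gu.x2 + 3 * E.gu.k, E.gu.yc - E.gu.b)) (h.vt_false _)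
  have p2 : Wl (Cout E r) (fun y => bsd (E.gu.x2 + 3 * E.gu.k - 1, y) 1) (E.gu.yc - E.gu.b + 3 * r - r) (E.gu.yc - E.gu.a - (2 * r + 1) + r) := Wl.ofn (i := 22) rfl
  have p3 : Wl (Cout E r) (fun y => bsd (E.gu.x2 + 3 * E.gu.k - 1, y) 1) (E.gu.yc - E.gu.a - (r + 1)) (E.gu.yc - E.gu.a) := Wl.mT0 3 rfl rfl
  exact (p1.join p2 (by push_cast; omega)).join p3 (by push_cast; omega)

theorem Kap.cl6 (h : Kap E r) :
    Wl (Cout E r) (fun y => bsd (E.gu.x2 + E.gu.k, y) 3) (E.gu.yc - E.gu.b) (E.gu.yc - E.gu.a) := by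
  have h1 := h.ar
  have h2 := h.rk
  have h3 := h.hb
  have h4 := h.hc
  have h5 := h.a0
  have h6 := h.hx
  have p1 : Wl (Cout E r) (fun y => bsd (E.gu.x2 + E.gu.k, y) 3) (E.gu.yc - E.gu.b) (E.gu.yc - E.gu.b + (2 * r : ℕ)) := Wl.in1 (r := r) (false, 6) rfl (v := (E.gu.x2 + E.gu.k, E.gu.yc - E.gu.b)) (h.vt_false _)
  have p2 : Wl (Cout E r) (fun y => bsd (E.gu.x2 + E.gu.k, y) 3) (E.gu.yc - E.gu.b + 3 * r - r) (E.gu.yc - E.gu.a - (2 * r + 1) + r) := Wl.ofn (i := 23) rfl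
  have p3 : Wl (Cout E r) (fun y => bsd (E.gu.x2 + E.gu.k, y) 3) (E.gu.yc - E.gu.a - (r + 1)) (E.gu.yc - E.gu.a) := Wl.mF3 4 rfl rfl
  exact (p1.join p2 (by push_cast; omega)).join p3 (by push_cast; omega)

theorem Kap.cl7 (h : Kap E r) :
    Wl (Cout E r) (fun y => bsd (E.gu.x1 - E.gu.k - 1, y) 1) (E.gu.yc - E.gu.b) (E.gu.yc - E.gu.a) := by
  have h1 := h.ar
  have h2 := h.rk
  have h3 := h.hb
  have h4 := h.hc
  have h5 := h.a0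
  have h6 := h.hx
  have p1 : Wl (Cout E r) (fun y => bsd (E.gu.x1 - E.gu.k - 1, y) 1) (E.gu.yc - E.gu.b) (E.gu.yc - E.gu.b + (2 * r : ℕ)) := Wl.out1 (r := r) (false, 7) rfl (v := (E.gu.x1 - E.gu.k, E.gu.yc - E.gu.b)) (h.vt_false _)
  have p2 : Wl (Cout E r) (fun y => bsd (E.gu.x1 - E.gu.k - 1, y) 1) (E.gu.yc - E.gu.b + 3 * r - r) (E.gu.yc - E.gu.a - (2 * r + 1) + r) := Wl.ofn (i := 24) rfl
  have p3 : Wl (Cout E r) (fun y => bsd (E.gu.x1 - E.gu.k - 1, y) 1) (E.gu.yc - E.gu.a - (r + 1)) (E.gu.yc - E.gu.a) := Wl.mT0 5 rfl rfl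
  exact (p1.join p2 (by push_cast; omega)).join p3 (by push_cast; omega)

theorem Kap.cl9 (h : Kap E r) :
    Wl (Cout E r) (fun y => bsd (E.gu.x1 - 3 * E.gu.k, y) 3) (E.gu.yc - E.gu.b) (E.gu.yc - E.gu.a) := by
  have h1 := h.ar
  have h2 := h.rk
  have h3 := h.hb
  have h4 := h.hc
  have h5 := h.a0
  have h6 := h.hx
  have p1 : Wl (Cout E r) (fun y => bsd (E.gu.x1 - 3 * E.gu.k, y) 3) (E.gu.yc - E.gu.b) (E.gu.yc - E.gu.b + (2 * r : ℕ)) := Wl.in1 (r := r) (false, 9) rfl (v := (E.gu.x1 - 3 * E.gu.k, E.gu.yc - E.gu.b)) (h.vt_false _)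
  have p2 : Wl (Cout E r) (fun y => bsd (E.gu.x1 - 3 * E.gu.k, y) 3) (E.gu.yc - E.gu.b + 3 * r - r) (E.gu.yc - E.gu.a - (2 * r + 1) + r) := Wl.ofn (i := 25) rfl
  have p3 : Wl (Cout E r) (fun y => bsd (E.gu.x1 - 3 * E.gu.k, y) 3) (E.gu.yc - E.gu.a - (r + 1)) (E.gu.yc - E.gu.a) := Wl.mF3 6 rfl rfl
  exact (p1.join p2 (by push_cast; omega)).join p3 (by push_cast; omega)

theorem Kap.cl10 (h : Kap E r) :
    Wl (Cout E r) (fun y => bsd (E.gu.x1 - 4 * E.gu.k - 1, y) 1) (E.gu.yc - E.gu.b) (E.gu.yc - E.gu.a) := by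
  have h1 := h.ar
  have h2 := h.rk
  have h3 := h.hb
  have h4 := h.hc
  have h5 := h.a0
  have h6 := h.hx
  have p1 : Wl (Cout E r) (fun y => bsd (E.gu.x1 - 4 * E.gu.k - 1, y) 1) (E.gu.yc - E.gu.b) (E.gu.yc - E.gu.b + (2 * r : ℕ)) := Wl.out1 (r := r) (false, 10) rfl (v := (E.gu.x1 - 4 * E.gu.k, E.gu.yc - E.gu.b)) (h.vt_false _)
  have p2 : Wl (Cout E r) (fun y => bsd (E.gu.x1 - 4 * E.gu.k - 1, y) 1) (E.gu.yc - E.gu.b + 3 * r - r) (E.gu.yc - E.gu.a - (2 * r + 1) + r) := Wl.ofn (i := 26) rfl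
  have p3 : Wl (Cout E r) (fun y => bsd (E.gu.x1 - 4 * E.gu.k - 1, y) 1) (E.gu.yc - E.gu.a - (r + 1)) (E.gu.yc - E.gu.a) := Wl.mT0 7 rfl rfl
  exact (p1.join p2 (by push_cast; omega)).join p3 (by push_cast; omega)

theorem Kap.cl12 (h : Kap E r) :
    Wl (Cout E r) (fun y => bsd (E.gu.x1 - 6 * E.gu.k, y) 3) (E.gu.yc - E.gu.b) (E.gu.yc - E.gu.a) := by
  have h1 := h.ar
  have h2 := h.rk
  have h3 := h.hb
  have h4 := h.hc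
  have h5 := h.a0
  have h6 := h.hx
  have p1 : Wl (Cout E r) (fun y => bsd (E.gu.x1 - 6 * E.gu.k, y) 3) (E.gu.yc - E.gu.b) (E.gu.yc - E.gu.b + (2 * r : ℕ)) := Wl.in1 (r := r) (false, 12) rfl (v := (E.gu.x1 - 6 * E.gu.k, E.gu.yc - E.gu.b)) (h.vt_false _)
  have p2 : Wl (Cout E r) (fun y => bsd (E.gu.x1 - 6 * E.gu.k, y) 3) (E.gu.yc - E.gu.b + 3 * r - r) (E.gu.yc - E.gu.a - (2 * r + 1) + r) := Wl.ofn (i := 27) rfl
  have p3 : Wl (Cout E r) (fun y => bsd (E.gu.x1 - 6 * E.gu.k, y) 3) (E.gu.yc - E.gu.a - (r + 1)) (E.gu.yc - E.gu.a) := Wl.mF3 8 rfl rfl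
  exact (p1.join p2 (by push_cast; omega)).join p3 (by push_cast; omega)

theorem Kap.cl13 (h : Kap E r) :
    Wl (Cout E r) (fun y => bsd (E.gu.x1 - 7 * E.gu.k - 1, y) 1) (E.gu.yc - E.gu.c) (E.gu.yc - E.gu.a) := by
  have h1 := h.ar
  have h2 := h.rk
  have h3 := h.hb
  have h4 := h.hc
  have h5 := h.a0
  have h6 := h.hx
  have p1 : Wl (Cout E r) (fun y => bsd (E.gu.x1 - 7 * E.gu.k - 1, y) 1) (E.gu.yc - E.gu.c) (E.gu.yc - E.gu.c + (2 * r : ℕ)) := Wl.out1 (r := r) (false, 13) rfl (v := (E.gu.x1 - 7 * E.gu.k, E.gu.yc - E.gu.c)) (h.vt_false _)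
  have p2 : Wl (Cout E r) (fun y => bsd (E.gu.x1 - 7 * E.gu.k - 1, y) 1) (E.gu.yc - E.gu.c + 3 * r - r) (E.gu.yc - E.gu.a - (2 * r + 1) + r) := Wl.ofn (i := 28) rfl
  have p3 : Wl (Cout E r) (fun y => bsd (E.gu.x1 - 7 * E.gu.k - 1, y) 1) (E.gu.yc - E.gu.a - (r + 1)) (E.gu.yc - E.gu.a) := Wl.mT0 9 rfl rfl
  exact (p1.join p2 (by push_cast; omega)).join p3 (by push_cast; omega)

theorem Kap.cd1 (h : Kap E r) :
    Wl (Cout E r) (fun x => bsd (x, E.gu.yc - E.gu.b) 0) (E.gu.x2 + 5 * E.gu.k) (E.gu.x2 + 6 * E.gu.k) := by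
  have h1 := h.ar
  have h2 := h.rk
  have h3 := h.hb
  have h4 := h.hc
  have h5 := h.a0
  have h6 := h.hx
  have p1 : Wl (Cout E r) (fun x => bsd (x, E.gu.yc - E.gu.b) 0) (E.gu.x2 + 5 * E.gu.k) (E.gu.x2 + 5 * E.gu.k + (2 * r : ℕ)) := Wl.out0 (r := r) (false, 2) rfl (v := (E.gu.x2 + 5 * E.gu.k, E.gu.yc - E.gu.b)) (h.vt_false _)
  have p2 : Wl (Cout E r) (fun x => bsd (x, E.gu.yc - E.gu.b) 0) (E.gu.x2 + 5 * E.gu.k + 3 * r - r) (E.gu.x2 + 6 * E.gu.k - 3 * r + r) := Wl.ofn (i := 29) rfl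
  have p3 : Wl (Cout E r) (fun x => bsd (x, E.gu.yc - E.gu.b) 0) (E.gu.x2 + 6 * E.gu.k - (2 * r : ℕ)) (E.gu.x2 + 6 * E.gu.k) := Wl.in2 (r := r) (false, 1) rfl (v := (E.gu.x2 + 6 * E.gu.k, E.gu.yc - E.gu.b)) (h.vt_false _)
  exact (p1.join p2 (by push_cast; omega)).join p3 (by push_cast; omega)

theorem Kap.cd2 (h : Kap E r) :
    Wl (Cout E r) (fun x => bsd (x, E.gu.yc - E.gu.b) 0) (E.gu.x2 + 4 * E.gu.k) (E.gu.x2 + 5 * E.gu.k) := by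
  have h1 := h.ar
  have h2 := h.rk
  have h3 := h.hb
  have h4 := h.hc
  have h5 := h.a0
  have h6 := h.hx
  have p1 : Wl (Cout E r) (fun x => bsd (x, E.gu.yc - E.gu.b) 0) (E.gu.x2 + 4 * E.gu.k) (E.gu.x2 + 4 * E.gu.k + (2 * r : ℕ)) := Wl.out0 (r := r) (false, 3) rfl (v := (E.gu.x2 + 4 * E.gu.k, E.gu.yc - E.gu.b)) (h.vt_false _)
  have p2 : Wl (Cout E r) (fun x => bsd (x, E.gu.yc - E.gu.b) 0) (E.gu.x2 + 4 * E.gu.k + 3 * r - r) (E.gu.x2 + 5 * E.gu.k - 3 * r + r) := Wl.ofn (i := 30) rfl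
  have p3 : Wl (Cout E r) (fun x => bsd (x, E.gu.yc - E.gu.b) 0) (E.gu.x2 + 5 * E.gu.k - (2 * r : ℕ)) (E.gu.x2 + 5 * E.gu.k) := Wl.in2 (r := r) (false, 2) rfl (v := (E.gu.x2 + 5 * E.gu.k, E.gu.yc - E.gu.b)) (h.vt_false _)
  exact (p1.join p2 (by push_cast; omega)).join p3 (by push_cast; omega)

theorem Kap.cd4 (h : Kap E r) :
    Wl (Cout E r) (fun x => bsd (x, E.gu.yc - E.gu.b) 0) (E.gu.x2 + 2 * E.gu.k) (E.gu.x2 + 3 * E.gu.k) := by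
  have h1 := h.ar
  have h2 := h.rk
  have h3 := h.hb
  have h4 := h.hc
  have h5 := h.a0
  have h6 := h.hx
  have p1 : Wl (Cout E r) (fun x => bsd (x, E.gu.yc - E.gu.b) 0) (E.gu.x2 + 2 * E.gu.k) (E.gu.x2 + 2 * E.gu.k + (2 * r : ℕ)) := Wl.out0 (r := r) (false, 5) rfl (v := (E.gu.x2 + 2 * E.gu.k, E.gu.yc - E.gu.b)) (h.vt_false _)
  have p2 : Wl (Cout E r) (fun x => bsd (x, E.gu.yc - E.gu.b) 0) (E.gu.x2 + 2 * E.gu.k + 3 * r - r) (E.gu.x2 + 3 * E.gu.k - 3 * r + r) := Wl.ofn (i := 31) rfl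
  have p3 : Wl (Cout E r) (fun x => bsd (x, E.gu.yc - E.gu.b) 0) (E.gu.x2 + 3 * E.gu.k - (2 * r : ℕ)) (E.gu.x2 + 3 * E.gu.k) := Wl.in2 (r := r) (false, 4) rfl (v := (E.gu.x2 + 3 * E.gu.k, E.gu.yc - E.gu.b)) (h.vt_false _)
  exact (p1.join p2 (by push_cast; omega)).join p3 (by push_cast; omega)

theorem Kap.cd5 (h : Kap E r) :
    Wl (Cout E r) (fun x => bsd (x, E.gu.yc - E.gu.b) 0) (E.gu.x2 + E.gu.k) (E.gu.x2 + 2 * E.gu.k) := by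
  have h1 := h.ar
  have h2 := h.rk
  have h3 := h.hb
  have h4 := h.hc
  have h5 := h.a0
  have h6 := h.hx
  have p1 : Wl (Cout E r) (fun x => bsd (x, E.gu.yc - E.gu.b) 0) (E.gu.x2 + E.gu.k) (E.gu.x2 + E.gu.k + (2 * r : ℕ)) := Wl.out0 (r := r) (false, 6) rfl (v := (E.gu.x2 + E.gu.k, E.gu.yc - E.gu.b)) (h.vt_false _)
  have p2 : Wl (Cout E r) (fun x => bsd (x, E.gu.yc - E.gu.b) 0) (E.gu.x2 + E.gu.k + 3 * r - r) (E.gu.x2 + 2 * E.gu.k - 3 * r + r) := Wl.ofn (i := 32) rfl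
  have p3 : Wl (Cout E r) (fun x => bsd (x, E.gu.yc - E.gu.b) 0) (E.gu.x2 + 2 * E.gu.k - (2 * r : ℕ)) (E.gu.x2 + 2 * E.gu.k) := Wl.in2 (r := r) (false, 5) rfl (v := (E.gu.x2 + 2 * E.gu.k, E.gu.yc - E.gu.b)) (h.vt_false _)
  exact (p1.join p2 (by push_cast; omega)).join p3 (by push_cast; omega)

theorem Kap.cd7 (h : Kap E r) :
    Wl (Cout E r) (fun x => bsd (x, E.gu.yc - E.gu.b) 0) (E.gu.x1 - 2 * E.gu.k) (E.gu.x1 - E.gu.k) := by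
  have h1 := h.ar
  have h2 := h.rk
  have h3 := h.hb
  have h4 := h.hc
  have h5 := h.a0
  have h6 := h.hx
  have p1 : Wl (Cout E r) (fun x => bsd (x, E.gu.yc - E.gu.b) 0) (E.gu.x1 - 2 * E.gu.k) (E.gu.x1 - 2 * E.gu.k + (2 * r : ℕ)) := Wl.out0 (r := r) (false, 8) rfl (v := (E.gu.x1 - 2 * E.gu.k, E.gu.yc - E.gu.b)) (h.vt_false _)
  have p2 : Wl (Cout E r) (fun x => bsd (x, E.gu.yc - E.gu.b) 0) (E.gu.x1 - 2 * E.gu.k + 3 * r - r) (E.gu.x1 - E.gu.k - 3 * r + r) := Wl.ofn (i := 33) rfl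
  have p3 : Wl (Cout E r) (fun x => bsd (x, E.gu.yc - E.gu.b) 0) (E.gu.x1 - E.gu.k - (2 * r : ℕ)) (E.gu.x1 - E.gu.k) := Wl.in2 (r := r) (false, 7) rfl (v := (E.gu.x1 - E.gu.k, E.gu.yc - E.gu.b)) (h.vt_false _)
  exact (p1.join p2 (by push_cast; omega)).join p3 (by push_cast; omega)

theorem Kap.cd8 (h : Kap E r) :
    Wl (Cout E r) (fun x => bsd (x, E.gu.yc - E.gu.b) 0) (E.gu.x1 - 3 * E.gu.k) (E.gu.x1 - 2 * E.gu.k) := by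
  have h1 := h.ar
  have h2 := h.rk
  have h3 := h.hb
  have h4 := h.hc
  have h5 := h.a0
  have h6 := h.hx
  have p1 : Wl (Cout E r) (fun x => bsd (x, E.gu.yc - E.gu.b) 0) (E.gu.x1 - 3 * E.gu.k) (E.gu.x1 - 3 * E.gu.k + (2 * r : ℕ)) := Wl.out0 (r := r) (false, 9) rfl (v := (E.gu.x1 - 3 * E.gu.k, E.gu.yc - E.gu.b)) (h.vt_false _)
  have p2 : Wl (Cout E r) (fun x => bsd (x, E.gu.yc - E.gu.b) 0) (E.gu.x1 - 3 * E.gu.k + 3 * r - r) (E.gu.x1 - 2 * E.gu.k - 3 * r + r) := Wl.ofn (i := 34) rfl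
  have p3 : Wl (Cout E r) (fun x => bsd (x, E.gu.yc - E.gu.b) 0) (E.gu.x1 - 2 * E.gu.k - (2 * r : ℕ)) (E.gu.x1 - 2 * E.gu.k) := Wl.in2 (r := r) (false, 8) rfl (v := (E.gu.x1 - 2 * E.gu.k, E.gu.yc - E.gu.b)) (h.vt_false _)
  exact (p1.join p2 (by push_cast; omega)).join p3 (by push_cast; omega)

theorem Kap.cd10 (h : Kap E r) :
    Wl (Cout E r) (fun x => bsd (x, E.gu.yc - E.gu.b) 0) (E.gu.x1 - 5 * E.gu.k) (E.gu.x1 - 4 * E.gu.k) := by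
  have h1 := h.ar
  have h2 := h.rk
  have h3 := h.hb
  have h4 := h.hc
  have h5 := h.a0
  have h6 := h.hx
  have p1 : Wl (Cout E r) (fun x => bsd (x, E.gu.yc - E.gu.b) 0) (E.gu.x1 - 5 * E.gu.k) (E.gu.x1 - 5 * E.gu.k + (2 * r : ℕ)) := Wl.out0 (r := r) (false, 11) rfl (v := (E.gu.x1 - 5 * E.gu.k, E.gu.yc - E.gu.b)) (h.vt_false _)
  have p2 : Wl (Cout E r) (fun x => bsd (x, E.gu.yc - E.gu.b) 0) (E.gu.x1 - 5 * E.gu.k + 3 * r - r) (E.gu.x1 - 4 * E.gu.k - 3 * r + r) := Wl.ofn (i := 35) rfl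
  have p3 : Wl (Cout E r) (fun x => bsd (x, E.gu.yc - E.gu.b) 0) (E.gu.x1 - 4 * E.gu.k - (2 * r : ℕ)) (E.gu.x1 - 4 * E.gu.k) := Wl.in2 (r := r) (false, 10) rfl (v := (E.gu.x1 - 4 * E.gu.k, E.gu.yc - E.gu.b)) (h.vt_false _)
  exact (p1.join p2 (by push_cast; omega)).join p3 (by push_cast; omega)

theorem Kap.cd11 (h : Kap E r) :
    Wl (Cout E r) (fun x => bsd (x, E.gu.yc - E.gu.b) 0) (E.gu.x1 - 6 * E.gu.k) (E.gu.x1 - 5 * E.gu.k) := by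
  have h1 := h.ar
  have h2 := h.rk
  have h3 := h.hb
  have h4 := h.hc
  have h5 := h.a0
  have h6 := h.hx
  have p1 : Wl (Cout E r) (fun x => bsd (x, E.gu.yc - E.gu.b) 0) (E.gu.x1 - 6 * E.gu.k) (E.gu.x1 - 6 * E.gu.k + (2 * r : ℕ)) := Wl.out0 (r := r) (false, 12) rfl (v := (E.gu.x1 - 6 * E.gu.k, E.gu.yc - E.gu.b)) (h.vt_false _)
  have p2 : Wl (Cout E r) (fun x => bsd (x, E.gu.yc - E.gu.b) 0) (E.gu.x1 - 6 * E.gu.k + 3 * r - r) (E.gu.x1 - 5 * E.gu.k - 3 * r + r) := Wl.ofn (i := 36) rfl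
  have p3 : Wl (Cout E r) (fun x => bsd (x, E.gu.yc - E.gu.b) 0) (E.gu.x1 - 5 * E.gu.k - (2 * r : ℕ)) (E.gu.x1 - 5 * E.gu.k) := Wl.in2 (r := r) (false, 11) rfl (v := (E.gu.x1 - 5 * E.gu.k, E.gu.yc - E.gu.b)) (h.vt_false _)
  exact (p1.join p2 (by push_cast; omega)).join p3 (by push_cast; omega)

theorem Kap.crl (h : Kap E r) :
    Wl (Cout E r) (fun x => bsd (x, E.gu.yc - E.gu.c - 1) 2) (E.gu.x1 - 7 * E.gu.k) (E.gu.x2 + 7 * E.gu.k) := by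
  have h1 := h.ar
  have h2 := h.rk
  have h3 := h.hb
  have h4 := h.hc
  have h5 := h.a0
  have h6 := h.hx
  have p1 : Wl (Cout E r) (fun x => bsd (x, E.gu.yc - E.gu.c - 1) 2) (E.gu.x1 - 7 * E.gu.k) (E.gu.x1 - 7 * E.gu.k + (2 * r : ℕ)) := Wl.in0 (r := r) (false, 13) rfl (v := (E.gu.x1 - 7 * E.gu.k, E.gu.yc - E.gu.c)) (h.vt_false _)
  have p2 : Wl (Cout E r) (fun x => bsd (x, E.gu.yc - E.gu.c - 1) 2) (E.gu.x1 - 7 * E.gu.k + 3 * r - r) (E.gu.x2 + 7 * E.gu.k - 3 * r + r) := Wl.ofn (i := 37) rfl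
  have p3 : Wl (Cout E r) (fun x => bsd (x, E.gu.yc - E.gu.c - 1) 2) (E.gu.x2 + 7 * E.gu.k - (2 * r : ℕ)) (E.gu.x2 + 7 * E.gu.k) := Wl.out2 (r := r) (false, 0) rfl (v := (E.gu.x2 + 7 * E.gu.k, E.gu.yc - E.gu.c)) (h.vt_false _)
  exact (p1.join p2 (by push_cast; omega)).join p3 (by push_cast; omega)

theorem two_hf (h0 : 0 < E.gu.k) : E.gu.k ≤ 2 * hf E ∧ hf E ≤ E.gu.k := by
  unfold hf
  omega

theorem Kap.ctA2 (h : Kap E r) :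
    Wl (Cout E r) (fun x => bsd (x, E.gu.yc + E.gu.a - 1) 2) (E.gu.x2 + 6 * E.gu.k) (E.gu.x2 + 7 * E.gu.k) := by
  have h1 := h.ar
  have h2 := h.rk
  have h3 := h.hb
  have h4 := h.hc
  have h5 := h.a0
  have h6 := h.hx
  have h7 := (two_hf (E := E) (by omega)).1
  have p1 : Wl (Cout E r) (fun x => bsd (x, E.gu.yc + E.gu.a - 1) 2) (E.gu.x2 + 6 * E.gu.k) (E.gu.x2 + 6 * E.gu.k + hf E) := Wl.mT2 1 rfl rfl
  have p2 : Wl (Cout E r) (fun x => bsd (x, E.gu.yc + E.gu.a - 1) 2) (E.gu.x2 + 7 * E.gu.k - hf E) (E.gu.x2 + 7 * E.gu.k) := Wl.mF1 0 rfl rfl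
  exact p1.join p2 (by omega)

theorem Kap.ctA0 (h : Kap E r) :
    Wl (Cout E r) (fun x => bsd (x, E.gu.yc - E.gu.a) 0) (E.gu.x2 + 6 * E.gu.k) (E.gu.x2 + 7 * E.gu.k) := by
  have h1 := h.ar
  have h2 := h.rk
  have h3 := h.hb
  have h4 := h.hc
  have h5 := h.a0
  have h6 := h.hx
  have h7 := (two_hf (E := E) (by omega)).1
  have p1 : Wl (Cout E r) (fun x => bsd (x, E.gu.yc - E.gu.a) 0) (E.gu.x2 + 6 * E.gu.k) (E.gu.x2 + 6 * E.gu.k + hf E) := Wl.mT1 1 rfl rfl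
  have p2 : Wl (Cout E r) (fun x => bsd (x, E.gu.yc - E.gu.a) 0) (E.gu.x2 + 7 * E.gu.k - hf E) (E.gu.x2 + 7 * E.gu.k) := Wl.mF2 0 rfl rfl
  exact p1.join p2 (by omega)

theorem Kap.ctB2 (h : Kap E r) :
    Wl (Cout E r) (fun x => bsd (x, E.gu.yc + E.gu.a - 1) 2) (E.gu.x2 + 3 * E.gu.k) (E.gu.x2 + 4 * E.gu.k) := by
  have h1 := h.ar
  have h2 := h.rk
  have h3 := h.hb
  have h4 := h.hc
  have h5 := h.a0
  have h6 := h.hx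
  have h7 := (two_hf (E := E) (by omega)).1
  have p1 : Wl (Cout E r) (fun x => bsd (x, E.gu.yc + E.gu.a - 1) 2) (E.gu.x2 + 3 * E.gu.k) (E.gu.x2 + 3 * E.gu.k + hf E) := Wl.mT2 3 rfl rfl
  have p2 : Wl (Cout E r) (fun x => bsd (x, E.gu.yc + E.gu.a - 1) 2) (E.gu.x2 + 4 * E.gu.k - hf E) (E.gu.x2 + 4 * E.gu.k) := Wl.mF1 2 rfl rfl
  exact p1.join p2 (by omega)

theorem Kap.ctB0 (h : Kap E r) :
    Wl (Cout E r) (fun x => bsd (x, E.gu.yc - E.gu.a) 0) (E.gu.x2 + 3 * E.gu.k) (E.gu.x2 + 4 * E.gu.k) := by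
  have h1 := h.ar
  have h2 := h.rk
  have h3 := h.hb
  have h4 := h.hc
  have h5 := h.a0
  have h6 := h.hx
  have h7 := (two_hf (E := E) (by omega)).1
  have p1 : Wl (Cout E r) (fun x => bsd (x, E.gu.yc - E.gu.a) 0) (E.gu.x2 + 3 * E.gu.k) (E.gu.x2 + 3 * E.gu.k + hf E) := Wl.mT1 3 rfl rfl
  have p2 : Wl (Cout E r) (fun x => bsd (x, E.gu.yc - E.gu.a) 0) (E.gu.x2 + 4 * E.gu.k - hf E) (E.gu.x2 + 4 * E.gu.k) := Wl.mF2 2 rfl rfl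
  exact p1.join p2 (by omega)

theorem Kap.ctC2 (h : Kap E r) :
    Wl (Cout E r) (fun x => bsd (x, E.gu.yc + E.gu.a - 1) 2) (E.gu.x1 - 4 * E.gu.k) (E.gu.x1 - 3 * E.gu.k) := by
  have h1 := h.ar
  have h2 := h.rk
  have h3 := h.hb
  have h4 := h.hc
  have h5 := h.a0
  have h6 := h.hx
  have h7 := (two_hf (E := E) (by omega)).1
  have p1 : Wl (Cout E r) (fun x => bsd (x, E.gu.yc + E.gu.a - 1) 2) (E.gu.x1 - 4 * E.gu.k) (E.gu.x1 - 4 * E.gu.k + hf E) := Wl.mT2 7 rfl rfl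
  have p2 : Wl (Cout E r) (fun x => bsd (x, E.gu.yc + E.gu.a - 1) 2) (E.gu.x1 - 3 * E.gu.k - hf E) (E.gu.x1 - 3 * E.gu.k) := Wl.mF1 6 rfl rfl
  exact p1.join p2 (by omega)

theorem Kap.ctC0 (h : Kap E r) :
    Wl (Cout E r) (fun x => bsd (x, E.gu.yc - E.gu.a) 0) (E.gu.x1 - 4 * E.gu.k) (E.gu.x1 - 3 * E.gu.k) := by
  have h1 := h.ar
  have h2 := h.rk
  have h3 := h.hb
  have h4 := h.hc
  have h5 := h.a0
  have h6 := h.hx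
  have h7 := (two_hf (E := E) (by omega)).1
  have p1 : Wl (Cout E r) (fun x => bsd (x, E.gu.yc - E.gu.a) 0) (E.gu.x1 - 4 * E.gu.k) (E.gu.x1 - 4 * E.gu.k + hf E) := Wl.mT1 7 rfl rfl
  have p2 : Wl (Cout E r) (fun x => bsd (x, E.gu.yc - E.gu.a) 0) (E.gu.x1 - 3 * E.gu.k - hf E) (E.gu.x1 - 3 * E.gu.k) := Wl.mF2 6 rfl rfl
  exact p1.join p2 (by omega)

theorem Kap.ctD2 (h : Kap E r) :
    Wl (Cout E r) (fun x => bsd (x, E.gu.yc + E.gu.a - 1) 2) (E.gu.x1 - 7 * E.gu.k) (E.gu.x1 - 6 * E.gu.k) := by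
  have h1 := h.ar
  have h2 := h.rk
  have h3 := h.hb
  have h4 := h.hc
  have h5 := h.a0
  have h6 := h.hx
  have h7 := (two_hf (E := E) (by omega)).1
  have p1 : Wl (Cout E r) (fun x => bsd (x, E.gu.yc + E.gu.a - 1) 2) (E.gu.x1 - 7 * E.gu.k) (E.gu.x1 - 7 * E.gu.k + hf E) := Wl.mT2 9 rfl rfl
  have p2 : Wl (Cout E r) (fun x => bsd (x, E.gu.yc + E.gu.a - 1) 2) (E.gu.x1 - 6 * E.gu.k - hf E) (E.gu.x1 - 6 * E.gu.k) := Wl.mF1 8 rfl rfl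
  exact p1.join p2 (by omega)

theorem Kap.ctD0 (h : Kap E r) :
    Wl (Cout E r) (fun x => bsd (x, E.gu.yc - E.gu.a) 0) (E.gu.x1 - 7 * E.gu.k) (E.gu.x1 - 6 * E.gu.k) := by
  have h1 := h.ar
  have h2 := h.rk
  have h3 := h.hb
  have h4 := h.hc
  have h5 := h.a0
  have h6 := h.hx
  have h7 := (two_hf (E := E) (by omega)).1
  have p1 : Wl (Cout E r) (fun x => bsd (x, E.gu.yc - E.gu.a) 0) (E.gu.x1 - 7 * E.gu.k) (E.gu.x1 - 7 * E.gu.k + hf E) := Wl.mT1 9 rfl rfl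
  have p2 : Wl (Cout E r) (fun x => bsd (x, E.gu.yc - E.gu.a) 0) (E.gu.x1 - 6 * E.gu.k - hf E) (E.gu.x1 - 6 * E.gu.k) := Wl.mF2 8 rfl rfl
  exact p1.join p2 (by omega)

theorem Kap.ctR2 :
    Wl (Cout E r) (fun x => bsd (x, E.gu.yc + E.gu.a - 1) 2) (E.gu.x2 + E.gu.k - hf E) (E.gu.x2 + E.gu.k) := Wl.mF1 4 rfl rfl

theorem Kap.ctR0 :
    Wl (Cout E r) (fun x => bsd (x, E.gu.yc - E.gu.a) 0) (E.gu.x2 + E.gu.k - hf E) (E.gu.x2 + E.gu.k) := Wl.mF2 4 rfl rfl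

theorem Kap.ctL2 :
    Wl (Cout E r) (fun x => bsd (x, E.gu.yc + E.gu.a - 1) 2) (E.gu.x1 - E.gu.k) (E.gu.x1 - E.gu.k + hf E) := Wl.mT2 5 rfl rfl

theorem Kap.ctL0 :
    Wl (Cout E r) (fun x => bsd (x, E.gu.yc - E.gu.a) 0) (E.gu.x1 - E.gu.k) (E.gu.x1 - E.gu.k + hf E) := Wl.mT1 5 rfl rfl

end

end Pool.Agent.SixB.BlkW
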