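import Pool.Agent.Lib.SixB.S3PkW

/-!
# 6BD step 3, row R21: natural charts along the walls of the pockets

* `UpE.segR`, `UpE.segL`: natural charts along the walls `x2`, `x1` of `D` in `F'`.
* `UpE.strU`, `UpE.strL`: both walls at the heights `[2 r, 6 r)` above (below) the slab.
-/

set_option autoImplicit false
set_option linter.unusedSectionVars false

namespace Pool.Agent.SixB

open Pool.Agent.Perc.Q Pool.Agent.Perc EmbH

noncomputable section

namespace UpE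

variable {S : Slb} {W : Finset (ℤ × ℤ)} {X Y : ℤ} {B : ℤ × ℤ → Prop}
  {F' : Finset (Option Bool × (ℤ × ℤ))}
  {Z' : Finset ((Option Bool × (ℤ × ℤ)) × (Option Bool × (ℤ × ℤ)))} {r : ℕ} {t₀ : ℝ}

theorem lsR (x u : ℤ) : lside 1 (x, 0) u = sd ZQ (x - 1, u) 1 := by
  have e : sd ZQ (x - 1, u) 1 = ((x - 1 + 1, u), (x - 1 + 1, u + 1)) := rfl
  rw [e, sub_add_cancel]
  unfold lside
  rw [dz1]
  ext <;> simp

theorem lsL (x u : ℤ) : lside 3 (x, 0) u = sd ZQ (x, -u - 1) 3 := by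
  have e : sd ZQ (x, -u - 1) 3 = ((x, -u - 1 + 1), (x, -u - 1)) := rfl
  rw [e, sub_add_cancel]
  unfold lside
  rw [dz3]
  ext <;> simp
  ring

theorem pR1 (x t : ℤ) : ((x, (0 : ℤ)) + t • dz 1).1 = x := by rw [dz1]; simp

theorem pR2 (x t : ℤ) : ((x, (0 : ℤ)) + t • dz 1).2 = t := by rw [dz1]; simp

theorem pL1 (x t : ℤ) : ((x, (0 : ℤ)) + t • dz 3).1 = x := by rw [dz3]; simp

theorem pL2 (x t : ℤ) : ((x, (0 : ℤ)) + t • dz 3).2 = -t := by rw [dz3]; simp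

/-- faces of `D` in a strip of rows, in the environment -/
def rows (S : Slb) (X Y : ℤ) (B : ℤ × ℤ → Prop) (p q : ℤ) : Set (Option Bool × (ℤ × ℤ)) :=
  {x | ∃ f ∈ S.D \ S.slb, B f ∧ S.x1 ≤ f.1 ∧ f.1 < S.x2 ∧ p ≤ f.2 ∧ f.2 < q ∧ x = S.shrF X Y f}

/-- the faces of `F'` in the pockets -/
def pks (F' : Finset (Option Bool × (ℤ × ℤ))) : Set (Option Bool × (ℤ × ℤ)) :=
  {x | x ∈ F' ∧ x.1 ≠ none}

theorem shrF_ne (S : Slb) (X Y : ℤ) (f : ℤ × ℤ) : (S.shrF X Y f).1 ≠ none := by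
  unfold Slb.shrF
  split_ifs <;> simp

/-- **natural charts along the right wall** -/
theorem segR (h : S.Ok) (H : Half S W X Y B F' Z') (hr : 0 < r) {lo hi : ℤ} (hlh : lo ≤ hi)
    (hrow : ∀ t, lo ≤ t → t ≤ hi → RowOk S t (2 * r + 1))
    (hBs : ∀ f : ℤ × ℤ, S.x1 ≤ f.1 → f.1 < S.x2 → lo - (2 * r + 1) ≤ f.2 →
      f.2 < hi + (2 * r + 1) → B f) :
    PAV (S.env W X Y).Q F' (S.ph W X Y) Z'
      ((Finset.Ico (lo - r) (hi + r)).image fun u => (h.shr W X Y).side (lside 1 (S.x2, 0) u)) r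
      ((hi - lo).toNat / (2 * r) + 2) t₀ ∅ ∅ (rows S X Y B (lo - 2 * r) (hi + 2 * r)) (pks F') 0 := by
  have hB' : ∀ t, lo ≤ t → t ≤ hi → ∀ f ∈ Wdg 2 1 ((S.x2, (0 : ℤ)) + t • dz 1) (2 * r + 1), B f := by
    intro t h1 h2 f hf
    have h3 := hrow t h1 h2
    rw [mem_w21, pR1, pR2] at hf
    obtain ⟨-, -, h4, -⟩ := h3
    refine hBs f ?_ ?_ ?_ ?_ <;> push_cast at * <;> omega
  refine PAV.segment hr hlh (h.shr W X Y).side
    (fun t h1 h2 => wchF h H ⟨by norm_num, by norm_num⟩ (wallR h (pR1 _ _) (by rw [pR2]; exact hrow t h1 h2))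
      (wallR_bS h _ _) (hB' t h1 h2)) ?_ ?_ ?_ ?_ ?_
  · intro t h1 h2 u _ _
    rfl
  · intro t h1 h2
    exact wchF_jump h H _ _ _ _ (wallR_jump h _ _)
  · intro t h1 h2
    exact wchF_Z h H _ _ _ _ (by omega)
  · intro t h1 h2 x hx
    unfold WChart.box at hx
    rw [Finset.mem_image] at hx
    obtain ⟨f, hf, rfl⟩ := hx
    have hf' := Wdg_mono (m := 2) (o := 1) (v := (S.x2, (0 : ℤ)) + t • dz 1)
      (show 2 * r ≤ 2 * r + 1 by omega) hf
    have h3 := hrow t h1 h2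
    refine ⟨f, (wallR h (pR1 _ _) (by rw [pR2]; exact h3)).sub f hf', hB' t h1 h2 f hf', ?_, ?_, ?_,
      ?_, rfl⟩
    all_goals
      rw [mem_w21, pR1, pR2] at hf
      obtain ⟨-, -, h4, -⟩ := h3
      push_cast at *
      omega
  · intro t h1 h2 f hf
    refine ⟨?_, shrF_ne _ _ _ _⟩
    exact H.hFB _ ((wallR h (pR1 _ _) (by rw [pR2]; exact hrow t h1 h2)).sub f hf) (hB' t h1 h2 f hf)

/-- **natural charts along the left wall** -/
theorem segL (h : S.Ok) (H : Half S W X Y B F' Z') (hr : 0 < r) {lo hi : ℤ} (hlh : lo ≤ hi)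
    (hrow : ∀ t, lo ≤ t → t ≤ hi → RowOk S (-t) (2 * r + 1))
    (hBs : ∀ f : ℤ × ℤ, S.x1 ≤ f.1 → f.1 < S.x2 → -hi - (2 * r + 1) ≤ f.2 →
      f.2 < -lo + (2 * r + 1) → B f) :
    PAV (S.env W X Y).Q F' (S.ph W X Y) Z'
      ((Finset.Ico (lo - r) (hi + r)).image fun u => (h.shr W X Y).side (lside 3 (S.x1, 0) u)) r
      ((hi - lo).toNat / (2 * r) + 2) t₀ ∅ ∅ (rows S X Y B (-hi - 2 * r) (-lo + 2 * r)) (pks F') 0 := by
  have hB' : ∀ t, lo ≤ t → t ≤ hi → ∀ f ∈ Wdg 2 3 ((S.x1, (0 : ℤ)) + t • dz 3) (2 * r + 1), B f := by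
    intro t h1 h2 f hf
    have h3 := hrow t h1 h2
    rw [mem_w23, pL1, pL2] at hf
    obtain ⟨-, -, h4, -⟩ := h3
    refine hBs f ?_ ?_ ?_ ?_ <;> push_cast at * <;> omega
  refine PAV.segment hr hlh (h.shr W X Y).side
    (fun t h1 h2 => wchF h H ⟨by norm_num, by norm_num⟩ (wallL h (pL1 _ _) (by rw [pL2]; exact hrow t h1 h2))
      (wallL_bS h _ _) (hB' t h1 h2)) ?_ ?_ ?_ ?_ ?_
  · intro t h1 h2 u _ _
    rfl
  · intro t h1 h2
    exact wchF_jump h H _ _ _ _ (wallL_jump h _ _)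
  · intro t h1 h2
    exact wchF_Z h H _ _ _ _ (by omega)
  · intro t h1 h2 x hx
    unfold WChart.box at hx
    rw [Finset.mem_image] at hx
    obtain ⟨f, hf, rfl⟩ := hx
    have hf' := Wdg_mono (m := 2) (o := 3) (v := (S.x1, (0 : ℤ)) + t • dz 3)
      (show 2 * r ≤ 2 * r + 1 by omega) hf
    have h3 := hrow t h1 h2
    refine ⟨f, (wallL h (pL1 _ _) (by rw [pL2]; exact h3)).sub f hf', hB' t h1 h2 f hf', ?_, ?_, ?_,
      ?_, rfl⟩
    all_goals
      rw [mem_w23, pL1, pL2] at hf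
      obtain ⟨-, -, h4, -⟩ := h3
      push_cast at *
      omega
  · intro t h1 h2 f hf
    refine ⟨?_, shrF_ne _ _ _ _⟩
    exact H.hFB _ ((wallL h (pL1 _ _) (by rw [pL2]; exact hrow t h1 h2)).sub f hf) (hB' t h1 h2 f hf)

/-- the sides of both walls at the heights `[p, q)` -/
def wls (S : Slb) (p q : ℤ) : Finset ((ℤ × ℤ) × (ℤ × ℤ)) :=
  ((Finset.Ico p q).image fun y => sd ZQ (S.x2 - 1, y) 1) ∪
    (Finset.Ico p q).image fun y => sd ZQ (S.x1, y) 3

/-- **natural charts along both walls**, centres at the heights `[c, c + 2 r]` -/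
theorem seg2 (h : S.Ok) (H : Half S W X Y B F' Z') (hr : 0 < r) (c : ℤ)
    (hrow : ∀ t, c ≤ t → t ≤ c + 2 * r → RowOk S t (2 * r + 1))
    (hBs : ∀ f : ℤ × ℤ, S.x1 ≤ f.1 → f.1 < S.x2 → c - (2 * r + 1) ≤ f.2 →
      f.2 < c + 2 * r + (2 * r + 1) → B f) :
    PAV (S.env W X Y).Q F' (S.ph W X Y) Z'
      ((wls S (c - r) (c + 3 * r)).image (h.shr W X Y).side) r
      6 t₀ ∅ ∅ (rows S X Y B (c - 2 * r) (c + 4 * r)) (pks F') 0 := by
  have h1 := segR (t₀ := t₀) (lo := c) (hi := c + 2 * r) h H hr (by omega) hrow hBs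
  have h2 := segL (t₀ := t₀) (lo := -c - 2 * r) (hi := -c) h H hr (by omega)
    (fun t h3 h4 => hrow _ (by omega) (by omega))
    (fun f h3 h4 h5 h6 => hBs f h3 h4 (by omega) (by omega))
  have e1 : (c + 2 * (r : ℤ) - c).toNat = 2 * r := by omega
  have e2 : (-c - (-c - 2 * (r : ℤ))).toNat = 2 * r := by omega
  refine ((h1.union h2 (by simp) (by simp) (by simp)).tps (add_zero 0)).mono ?_ ?_ (by simp)
    (by simp) ?_ (by simp)
  · intro a ha
    rw [Finset.mem_image] at ha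
    obtain ⟨b, hb, rfl⟩ := ha
    unfold wls at hb
    rw [Finset.mem_union, Finset.mem_image, Finset.mem_image] at hb
    rcases hb with ⟨y, hy, rfl⟩ | ⟨y, hy, rfl⟩
    · refine Finset.mem_union_left _ (Finset.mem_image.2 ⟨y, ?_, ?_⟩)
      · rw [Finset.mem_Ico] at hy ⊢
        omega
      · rw [lsR]
    · refine Finset.mem_union_right _ (Finset.mem_image.2 ⟨-y - 1, ?_, ?_⟩)
      · rw [Finset.mem_Ico] at hy ⊢
        omega
      · rw [lsL]
        congr 3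
        ring_nf
  · rw [e1, e2, Nat.div_self (by omega)]
  · rintro x (⟨f, h3, h4, h5, h6, h7, h8, rfl⟩ | ⟨f, h3, h4, h5, h6, h7, h8, rfl⟩)
    · exact ⟨f, h3, h4, h5, h6, by omega, by omega, rfl⟩
    · exact ⟨f, h3, h4, h5, h6, by omega, by omega, rfl⟩

/-- pocket faces over the columns of the slab at distances in `[r, 7 r)` from it -/
def nrS (S : Slb) (X Y : ℤ) (B : ℤ × ℤ → Prop) (r : ℕ) : Set (Option Bool × (ℤ × ℤ)) :=
  {x | ∃ f ∈ S.D \ S.slb, B f ∧ S.x1 ≤ f.1 ∧ f.1 < S.x2 ∧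
    (S.yc + S.a + r ≤ f.2 ∧ f.2 < S.yc + S.a + 7 * r ∨
      S.yc - S.a - 7 * r ≤ f.2 ∧ f.2 < S.yc - S.a - r) ∧ x = S.shrF X Y f}

/-- the wall sides at the distances `[2 r, 6 r)` from the slab -/
def wll (S : Slb) (r : ℕ) : Finset ((ℤ × ℤ) × (ℤ × ℤ)) :=
  wls S (S.yc + S.a + 2 * r) (S.yc + S.a + 6 * r) ∪ wls S (S.yc - S.a - 6 * r) (S.yc - S.a - 2 * r)

theorem wls_face {p q : ℤ} {a : (ℤ × ℤ) × (ℤ × ℤ)} (hx : S.x1 < S.x2) (ha : a ∈ wls S p q)
    {f : ℤ × ℤ} {k : ZMod 4} (he : a = sd ZQ f k) : S.x1 ≤ f.1 ∧ f.1 < S.x2 ∧ p ≤ f.2 ∧ f.2 < q := by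
  unfold wls at ha
  rw [Finset.mem_union, Finset.mem_image, Finset.mem_image] at ha
  rcases ha with ⟨y, hy, h1⟩ | ⟨y, hy, h1⟩
  · rw [Finset.mem_Ico] at hy
    rw [he] at h1
    obtain ⟨h2, -⟩ := EmbH.Q_inj_sd h1
    rw [← h2]
    exact ⟨by simp only; omega, by simp only; omega, hy.1, hy.2⟩
  · rw [Finset.mem_Ico] at hy
    rw [he] at h1
    obtain ⟨h2, -⟩ := EmbH.Q_inj_sd h1
    rw [← h2]
    exact ⟨le_rfl, hx, hy.1, hy.2⟩

/-- **the natural charts of the pocket walls next to the mouths** -/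
theorem strip (h : S.Ok) (H : Half S W X Y B F' Z') (hr : 0 < r) (hra : 16 * r ≤ S.a) :
    PAV (S.env W X Y).Q F' (S.ph W X Y) Z'
      ((selC B (wll S r)).image (h.shr W X Y).side) r
      12 t₀ ∅ ∅ (nrS S X Y B r) (pks F') 0 := by
  have hk := h.hak
  have hxk := h.hx
  have hx := h.slab.hx
  -- the upper strip
  have hU : PAV (S.env W X Y).Q F' (S.ph W X Y) Z'
      ((selC B (wls S (S.yc + S.a + 2 * r) (S.yc + S.a + 6 * r))).image (h.shr W X Y).side) r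
      6 t₀ ∅ ∅ (nrS S X Y B r) (pks F') 0 := by
    by_cases hb : B (S.x1, S.yc + S.a)
    · have hB1 : ∀ f : ℤ × ℤ, stU S f → B f := fun f hf =>
        stU_comp h H.hB (f := (S.x1, S.yc + S.a)) ⟨le_rfl, hx, le_rfl, by simp only; omega⟩ hf hb
      refine (seg2 h H hr (S.yc + S.a + 3 * r) ?_ ?_).mono ?_ le_rfl (by simp) (by simp) ?_
        (fun _ hx => hx)
      · intro t h1 h2
        refine ⟨?_, ?_, ?_, ?_⟩ <;> push_cast <;> omega
      · intro f h1 h2 h3 h4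
        exact hB1 f ⟨h1, h2, by omega, by omega⟩
      · refine Finset.image_subset_image ?_
        intro a ha
        have h3 := (mem_selC.1 ha).1
        rwa [show S.yc + S.a + 3 * (r : ℤ) - r = S.yc + S.a + 2 * r by ring,
          show S.yc + S.a + 3 * (r : ℤ) + 3 * r = S.yc + S.a + 6 * r by ring]
      · rintro x ⟨f, h3, h4, h5, h6, h7, h8, rfl⟩
        exact ⟨f, h3, h4, h5, h6, Or.inl ⟨by omega, by omega⟩, rfl⟩
    · refine (PAV.empty.mono ?_ (Nat.zero_le _) (by simp) (by simp) (by simp) (by simp))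
      intro a ha
      exfalso
      rw [Finset.mem_image] at ha
      obtain ⟨b, hb', rfl⟩ := ha
      obtain ⟨h1, f, k, h2, h3⟩ := mem_selC.1 hb'
      obtain ⟨h4, h5, h6, h7⟩ := wls_face hx h1 h2
      refine hb (stU_comp h H.hB (f := f) ⟨h4, h5, by omega, by omega⟩ ?_ h3)
      exact ⟨le_rfl, hx, le_rfl, by simp only; omega⟩
  have hL : PAV (S.env W X Y).Q F' (S.ph W X Y) Z'
      ((selC B (wls S (S.yc - S.a - 6 * r) (S.yc - S.a - 2 * r))).image (h.shr W X Y).side) r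
      6 t₀ ∅ ∅ (nrS S X Y B r) (pks F') 0 := by
    by_cases hb : B (S.x1, S.yc - S.a - 1)
    · have hB1 : ∀ f : ℤ × ℤ, stL S f → B f := fun f hf =>
        stL_comp h H.hB (f := (S.x1, S.yc - S.a - 1))
          ⟨le_rfl, hx, by simp only; omega, by simp only; omega⟩ hf hb
      refine (seg2 h H hr (S.yc - S.a - 5 * r) ?_ ?_).mono ?_ le_rfl (by simp) (by simp) ?_
        (fun _ hx => hx)
      · intro t h1 h2
        refine ⟨?_, ?_, ?_, ?_⟩ <;> push_cast <;> omega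
      · intro f h1 h2 h3 h4
        exact hB1 f ⟨h1, h2, by omega, by omega⟩
      · refine Finset.image_subset_image ?_
        intro a ha
        have h3 := (mem_selC.1 ha).1
        rwa [show S.yc - S.a - 5 * (r : ℤ) - r = S.yc - S.a - 6 * r by ring,
          show S.yc - S.a - 5 * (r : ℤ) + 3 * r = S.yc - S.a - 2 * r by ring]
      · rintro x ⟨f, h3, h4, h5, h6, h7, h8, rfl⟩
        exact ⟨f, h3, h4, h5, h6, Or.inr ⟨by omega, by omega⟩, rfl⟩
    · refine (PAV.empty.mono ?_ (Nat.zero_le _) (by simp) (by simp) (by simp) (by simp))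
      intro a ha
      exfalso
      rw [Finset.mem_image] at ha
      obtain ⟨b, hb', rfl⟩ := ha
      obtain ⟨h1, f, k, h2, h3⟩ := mem_selC.1 hb'
      obtain ⟨h4, h5, h6, h7⟩ := wls_face hx h1 h2
      refine hb (stL_comp h H.hB (f := f) ⟨h4, h5, by omega, by omega⟩ ?_ h3)
      exact ⟨le_rfl, hx, by simp only; omega, by simp only; omega⟩
  refine ((hU.union hL (by simp) (by simp) (by simp)).tps (add_zero 0)).mono ?_ le_rfl (by simp)
    (by simp) (by simp) (by simp)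
  intro a ha
  rw [Finset.mem_image] at ha
  obtain ⟨b, hb, rfl⟩ := ha
  obtain ⟨h1, h2⟩ := mem_selC.1 hb
  unfold wll at h1
  rcases Finset.mem_union.1 h1 with h1 | h1
  · exact Finset.mem_union_left _ (Finset.mem_image_of_mem _ (mem_selC.2 ⟨h1, h2⟩))
  · exact Finset.mem_union_right _ (Finset.mem_image_of_mem _ (mem_selC.2 ⟨h1, h2⟩))

end UpE

end

end Pool.Agent.SixB
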