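import Pool.Agent.Lib.SixB.S3PkX

/-!
# 6BD step 3, row R21: the atlas of the pockets in a part of a slab environment

* `UpE.farP`: the pushed flat atlas of `D`, natural charts with centres at distance more than `3 r + 1`.
* `UpE.pocket`: together with the charts next to the mouths: all walls of the pockets at distance at least `2 r`
  from the slab.
-/

set_option autoImplicit false
set_option linter.unusedSectionVars false

namespace Pool.Agent.SixB

open Pool.Agent.Perc.Q Pool.Agent.Perc EmbH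

noncomputable section

namespace UpE

variable {S : Slb} {W : Finset (ℤ × ℤ)} {X Y : ℤ} {B : ℤ × ℤ → Prop}
  {F' : Finset (Option Bool × (ℤ × ℤ))}
  {Z' : Finset ((Option Bool × (ℤ × ℤ)) × (Option Bool × (ℤ × ℤ)))} {r nS nN : ℕ} {t₀ : ℝ}
  {ZD CD : Finset ((ℤ × ℤ) × (ℤ × ℤ))}

theorem sub_map {α γ : Type} [Fintype α] (p : α → Prop) [DecidablePred p]
    (i2 : Fintype {a // p a}) (g : α → γ) :
    (@Finset.univ _ i2).val.map (fun i => g i.1) = ((Finset.univ : Finset α).filter p).val.map g := by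
  have h : (Finset.univ : Finset α).filter p =
      (@Finset.univ _ i2).map ⟨Subtype.val, Subtype.val_injective⟩ := by
    ext i
    simp
  rw [h, Finset.map_val, Multiset.map_map]
  rfl

theorem sub_true {α γ : Type} [Fintype α] (i2 : Fintype {_a : α // True}) (g : α → γ) :
    (@Finset.univ _ i2).val.map (fun i => g i.1) = (Finset.univ : Finset α).val.map g := by
  rw [sub_map (fun _ => True) i2 g]
  simp

theorem near_mono {ρ ρ' : ℕ} {v : ℤ × ℤ} (h : S.near ρ v) (hρ : ρ ≤ ρ') : S.near ρ' v := by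
  unfold Slb.near nearS at *
  omega

/-- the sheared chart is injective on vertices -/
theorem shrV_injV (h : S.Ok) {u v : ℤ × ℤ} (he : S.shrV X Y u = S.shrV X Y v) : u = v :=
  h.shrV_inj (f := u) (g := v) (k := 0) (l := 0) he

/-- the pushed atlas -/
def pushP (h : S.Ok) (H : Half S W X Y B F' Z') (A : PAtlas ZQ S.D S.ψ ZD CD r nS nN t₀)
    (hA : A.Flat) (hS : ∀ i, ¬ S.near (8 * r + 2) (A.v i)) :
    PAtlas (S.env W X Y).Q F' (S.ph W X Y) Z'
      ((selC B (S.far r CD)).image (h.shr W X Y).side) r nS nN t₀ :=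
  h.pushIn W X Y H.hB A hA (fun i hi => hS i (near_mono hi (by omega))) H.hF H.hFB H.hZ

/-- fewer natural charts -/
def farP (h : S.Ok) (H : Half S W X Y B F' Z') (A : PAtlas ZQ S.D S.ψ ZD CD r nS nN t₀)
    (hA : A.Flat) (hS : ∀ i, ¬ S.near (8 * r + 2) (A.v i)) :
    PAtlas (S.env W X Y).Q F' (S.ph W X Y) Z'
      ((selC B (farC S.x1 S.x2 (S.yc - S.a) (S.yc + S.a) (4 * r + 1) CD)).image (h.shr W X Y).side)
      r nS nN t₀ :=
  (pushP h H A hA hS).restr (Finset.Subset.refl _) (fun _ => True)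
    (fun i => ¬ S.near (3 * r + 1) ((pushP h H A hA hS).v' i)) (fun _ => True)
    (fun i _ f hf => ((pushP h H A hA hS).ch i).sub f hf)
    (fun i _ f hf => ((pushP h H A hA hS).nch i).sub f hf)
    (fun i => hA.mu.elim i.1.1.1)
    (fun _ _ _ hz => hz)
    (by
      classical
      intro a ha
      rw [Finset.mem_image] at ha
      obtain ⟨b, hb, rfl⟩ := ha
      obtain ⟨hb1, hb2⟩ := mem_selC.1 hb
      unfold farC at hb1
      rw [Finset.mem_filter] at hb1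
      have hb3 : b ∈ selC B (S.far r CD) := by
        refine mem_selC.2 ⟨?_, hb2⟩
        unfold Slb.far farC
        rw [Finset.mem_filter]
        refine ⟨hb1.1, fun h1 => hb1.2 ?_⟩
        unfold nearS at *
        push_cast at *
        omega
      rcases (pushP h H A hA hS).cover _ (Finset.mem_image_of_mem _ hb3) with ⟨i, h1⟩ | ⟨i, h1⟩ | ⟨i, _⟩
      · exact Or.inl ⟨i, trivial, h1⟩
      · refine Or.inr (Or.inl ⟨i, ?_, h1⟩)
        intro h2
        refine hb1.2 ?_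
        unfold WChart.walls at h1
        rw [Finset.mem_image] at h1
        obtain ⟨s, hs, h3⟩ := h1
        have h4 : (h.shr W X Y).side ((A.nch i.1.1.1).side s) = (h.shr W X Y).side b := h3
        rw [hA.n] at h4
        have h5 : s.1 = b.1 := shrV_injV h (congrArg Prod.fst h4)
        have h6 := wall_near hs
        rw [h5] at h6
        unfold Slb.near nearS at h2
        unfold nearS
        push_cast at *
        omega
      · exact hA.mu.elim i.1.1.1)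

theorem bS_fst {D : Finset (ℤ × ℤ)} {f : ℤ × ℤ} {k : ZMod 4} (h : sd ZQ f k ∈ bS ZQ D) : f ∈ D :=
  (WG.sd_bS_iff.1 h).1

/-- **the pushed atlas with its regions** -/
theorem far (h : S.Ok) (H : Half S W X Y B F' Z') (A : PAtlas ZQ S.D S.ψ ZD CD r nS nN t₀)
    (hA : A.Flat) (hS : ∀ i, ¬ S.near (8 * r + 2) (A.v i))
    (hfl : ∀ i, A.m' i = 2 ∧ (A.nch i).Jump S.ψ 0) :
    PAV (S.env W X Y).Q F' (S.ph W X Y) Z'
      ((selC B (farC S.x1 S.x2 (S.yc - S.a) (S.yc + S.a) (4 * r + 1) CD)).image (h.shr W X Y).side)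
      r nN t₀ (reg S X Y B (4 * r + 1)) (reg S X Y B (7 * r + 1)) (reg S X Y B r) (pks F')
      ((S.selK B A).val.map fun i => (A.K i, A.m i)) := by
  classical
  have hD : ∀ i : (farP h H A hA hS).κ, ∀ f ∈ Wdg (A.m i.1.1.1.1) (A.o i.1.1.1.1) (A.v i.1.1.1.1) (4 * r + 1),
      f ∈ S.D \ S.slb := by
    intro i f hf
    rw [Finset.mem_sdiff]
    have h5 := (A.ch i.1.1.1.1).sub f hf
    rw [hA.sF] at h5
    exact ⟨h5, off_box (fun h6 => hS i.1.1.1.1 (near_mono h6 (by omega))) (Wdg_sub_Bx hf)⟩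
  have hDn : ∀ i : (farP h H A hA hS).ι, ∀ f ∈ Wdg (A.m' i.1.1.1.1) (A.o' i.1.1.1.1) (A.v' i.1.1.1.1)
      (2 * r + 1), f ∈ S.D \ S.slb := by
    intro i f hf
    rw [Finset.mem_sdiff]
    have h5 := (A.nch i.1.1.1.1).sub f hf
    rw [hA.nF] at h5
    exact ⟨h5, off_box i.1.1.1.2.1 (Wdg_sub_Bx hf)⟩
  refine PAV.of (farP h H A hA hS) ?_ ?_ ?_ ?_ ?_ ?_ ?_ ?_
  · intro i x hx
    unfold WChart.box at hx
    rw [Finset.mem_image] at hx
    obtain ⟨f, hf, rfl⟩ := hx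
    have hf' := Wdg_mono (show 4 * r ≤ 4 * r + 1 by omega) hf
    refine ⟨f, hD i f hf', i.1.1.1.2 f hf', ?_, ?_⟩
    · intro h1
      refine hS i.1.1.1.1 ?_
      have h2 := mem_Bx.1 (Wdg_sub_Bx hf)
      change (A.v i.1.1.1.1).1 - ((4 * r : ℕ) : ℤ) ≤ f.1 ∧ f.1 < (A.v i.1.1.1.1).1 + ((4 * r : ℕ) : ℤ) ∧
        (A.v i.1.1.1.1).2 - ((4 * r : ℕ) : ℤ) ≤ f.2 ∧ f.2 < (A.v i.1.1.1.1).2 + ((4 * r : ℕ) : ℤ) at h2
      unfold nearF at h1
      unfold Slb.near nearS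
      push_cast at *
      omega
    · show S.shrF X Y ((A.ch i.1.1.1.1).φF f) = _
      rw [hA.sF]
  · intro i x hx
    unfold WChart.box at hx
    rw [Finset.mem_image] at hx
    obtain ⟨f, hf, rfl⟩ := hx
    have hf' := Wdg_mono (show r ≤ 4 * r + 1 by omega) hf
    refine ⟨f, hD i f hf', i.1.1.1.2 f hf', ?_, ?_⟩
    · intro h1
      refine hS i.1.1.1.1 ?_
      have h2 := mem_Bx.1 (Wdg_sub_Bx hf)
      change (A.v i.1.1.1.1).1 - (r : ℤ) ≤ f.1 ∧ f.1 < (A.v i.1.1.1.1).1 + (r : ℤ) ∧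
        (A.v i.1.1.1.1).2 - (r : ℤ) ≤ f.2 ∧ f.2 < (A.v i.1.1.1.1).2 + (r : ℤ) at h2
      unfold nearF at h1
      unfold Slb.near nearS
      push_cast at *
      omega
    · show S.shrF X Y ((A.ch i.1.1.1.1).φF f) = _
      rw [hA.sF]
  · intro i x hx
    unfold WChart.box at hx
    rw [Finset.mem_image] at hx
    obtain ⟨f, hf, rfl⟩ := hx
    have hf' := Wdg_mono (show 2 * r ≤ 2 * r + 1 by omega) hf
    refine ⟨f, hDn i f hf', i.1.1.1.2.2 f hf', ?_, ?_⟩
    · intro h1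
      have h3 : ¬ S.near (3 * r + 1) (A.v' i.1.1.1.1) := i.2
      refine h3 ?_
      have h2 := mem_Bx.1 (Wdg_sub_Bx hf)
      change (A.v' i.1.1.1.1).1 - ((2 * r : ℕ) : ℤ) ≤ f.1 ∧ f.1 < (A.v' i.1.1.1.1).1 + ((2 * r : ℕ) : ℤ) ∧
        (A.v' i.1.1.1.1).2 - ((2 * r : ℕ) : ℤ) ≤ f.2 ∧
          f.2 < (A.v' i.1.1.1.1).2 + ((2 * r : ℕ) : ℤ) at h2
      unfold nearF at h1
      unfold Slb.near nearS
      push_cast at *
      omega
    · show S.shrF X Y ((A.nch i.1.1.1.1).φF f) = _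
      rw [hA.nF]
  · intro i f hf
    exact ⟨((farP h H A hA hS).ch i).sub f hf, shrF_ne _ _ _ _⟩
  · intro i f hf
    exact ⟨((farP h H A hA hS).nch i).sub f hf, shrF_ne _ _ _ _⟩
  · intro i
    obtain ⟨h1, p, q, h2, h3, h4⟩ := hfl i.1.1.1.1
    refine ⟨h1, p, q, ?_, ?_, h4⟩
    · intro a ha
      rw [← h2 a ha]
      show S.ph W X Y ((h.shr W X Y).side ((A.nch i.1.1.1.1).side a)) = _
      have h5 := (A.nch i.1.1.1.1).bIn a ha
      rw [h.keepsShr.ph _ ?_ h5]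
      obtain ⟨f, hf, h6⟩ := wIn_face (A.m'_rng i.1.1.1.1).1
        (by have := (A.m'_rng i.1.1.1.1).2; omega) ha
      rw [hA.n, h6] at h5 ⊢
      exact SixB.bS_anti Finset.sdiff_subset h5 (sd_mem (hDn i f hf) _)
    · intro a ha
      rw [← h3 a ha]
      show S.ph W X Y ((h.shr W X Y).side ((A.nch i.1.1.1.1).side a)) = _
      have h5 := (A.nch i.1.1.1.1).bOut a ha
      rw [h.keepsShr.ph _ ?_ h5]
      obtain ⟨f, hf, h6⟩ := wOut_face (A.m'_rng i.1.1.1.1).1 ha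
      rw [hA.n, h6] at h5 ⊢
      exact SixB.bS_anti Finset.sdiff_subset h5 (sd_mem (hDn i f hf) _)
  · exact ⟨fun i => hA.mu.elim i.1.1.1.1⟩
  · exact (sub_true _ _).trans ((sub_true _ _).trans ((sub_true _ _).trans
      ((sub_map _ _ (fun i => (A.K i, A.m i))).trans (by unfold Slb.selK; congr!))))

/-- the face is not in the first `2 r` rows next to a mouth (and not in the slab) -/
def off2 (S : Slb) (r : ℕ) (f : ℤ × ℤ) : Prop :=
  S.yc + S.a + 2 * r ≤ f.2 ∨ f.2 < S.yc - S.a - 2 * r ∨ f.1 < S.x1 ∨ S.x2 ≤ f.1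

/-- the walls of `D` at the slab are thick -/
def Thick (S : Slb) (τ : ℕ) : Prop :=
  ∀ f ∈ S.D, S.yc - S.k ≤ f.2 → f.2 < S.yc + S.k → S.x1 - τ ≤ f.1 → f.1 < S.x2 + τ →
    S.x1 ≤ f.1 ∧ f.1 < S.x2

/-- the boundary sides of `D` near the slab are on its two walls -/
theorem near_wall (h : S.Ok) {τ : ℕ} (hth : Thick S τ) {f : ℤ × ℤ} {k : ZMod 4}
    (hb : sd ZQ f k ∈ bS ZQ S.D) (h1 : S.yc - S.k < f.2) (h2 : f.2 + 1 < S.yc + S.k)
    (h3 : S.x1 - τ ≤ f.1) (h4 : f.1 < S.x2 + τ) :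
    sd ZQ f k = sd ZQ (S.x2 - 1, f.2) 1 ∨ sd ZQ f k = sd ZQ (S.x1, f.2) 3 := by
  obtain ⟨hf, hb'⟩ := WG.sd_bS_iff.1 hb
  obtain ⟨h5, h6⟩ := hth f hf (by omega) (by omega) h3 h4
  obtain ⟨x, y⟩ := f
  simp only at h1 h2 h3 h4 h5 h6
  rcases k4_cases k with rfl | rfl | rfl | rfl
  · rw [WG.bh0] at hb'
    exact absurd (h.slab.sub x (y - 1) h5 h6 (by omega) (by omega)) hb'
  · rw [WG.bh1] at hb'
    left
    have h7 : x + 1 = S.x2 := by
      by_contra h8
      exact hb' (h.slab.sub (x + 1) y (by omega) (by omega) (by omega) (by omega))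
    rw [← h7, add_sub_cancel_right]
  · rw [WG.bh2] at hb'
    exact absurd (h.slab.sub x (y + 1) h5 h6 (by omega) (by omega)) hb'
  · rw [WG.bh3] at hb'
    right
    have h7 : x = S.x1 := by
      by_contra h8
      exact hb' (h.slab.sub (x - 1) y (by omega) (by omega) (by omega) (by omega))
    rw [h7]

theorem corner_near {f : ℤ × ℤ} {k : ZMod 4} : f.1 ≤ (sd ZQ f k).1.1 ∧ (sd ZQ f k).1.1 ≤ f.1 + 1 ∧
    f.2 ≤ (sd ZQ f k).1.2 ∧ (sd ZQ f k).1.2 ≤ f.2 + 1 := by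
  show f.1 ≤ (ZQ.c f k).1 ∧ (ZQ.c f k).1 ≤ f.1 + 1 ∧ f.2 ≤ (ZQ.c f k).2 ∧ (ZQ.c f k).2 ≤ f.2 + 1
  rcases corc f k with ⟨-, e⟩ | ⟨-, e⟩ | ⟨-, e⟩ | ⟨-, e⟩ <;> rw [e] <;> simp

/-- **the atlas of the pockets** -/
theorem pocket (h : S.Ok) (H : Half S W X Y B F' Z') (hr : 0 < r) (hra : 16 * r ≤ S.a)
    (hth : Thick S (4 * r + 2)) (A : PAtlas ZQ S.D S.ψ ZD CD r nS nN t₀) (hCD : CD ⊆ bS ZQ S.D)
    (hA : A.Flat) (hS : ∀ i, ¬ S.near (8 * r + 2) (A.v i))
    (hfl : ∀ i, A.m' i = 2 ∧ (A.nch i).Jump S.ψ 0) :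
    PAV (S.env W X Y).Q F' (S.ph W X Y) Z'
      ((selC (fun f => B f ∧ off2 S r f) CD).image (h.shr W X Y).side)
      r (12 + nN) t₀ (reg S X Y B (4 * r + 1)) (reg S X Y B (7 * r + 1)) (reg S X Y B r) (pks F')
      ((S.selK B A).val.map fun i => (A.K i, A.m i)) := by
  classical
  have hk := h.hak
  have h1 := strip (t₀ := t₀) h H hr hra
  have h2 := far h H A hA hS hfl
  refine ((h1.union h2 (by simp) ?_ (by simp)).tps (zero_add _)).mono ?_ le_rfl (by simp) (by simp)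
    ?_ (by simp)
  · rw [Set.disjoint_left]
    rintro x ⟨f, h3, h4, h5, h6, h7, rfl⟩ ⟨g, h8, h9, h10, h11⟩
    have h12 : f = g := h.shr_injF (W := W) (X := X) (Y := Y) h11
    refine h10 ?_
    rw [← h12]
    unfold nearF
    push_cast
    rcases h7 with h7 | h7 <;> omega
  · intro a ha
    rw [Finset.mem_image] at ha
    obtain ⟨b, hb, rfl⟩ := ha
    obtain ⟨h3, f, k, rfl, h4, h5⟩ := mem_selC.1 hb
    by_cases h6 : nearS S.x1 S.x2 (S.yc - S.a) (S.yc + S.a) (4 * r + 1) (sd ZQ f k).1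
    · refine Finset.mem_union_left _ (Finset.mem_image_of_mem _ (mem_selC.2 ⟨?_, f, k, rfl, h4⟩))
      have h7 := corner_near (f := f) (k := k)
      unfold nearS at h6
      push_cast at h6
      unfold off2 at h5
      have h10 : S.x1 ≤ f.1 ∧ f.1 < S.x2 :=
        hth f (bS_fst (hCD h3)) (by omega) (by omega) (by push_cast; omega) (by push_cast; omega)
      have h8 := near_wall h hth (hCD h3) (by omega) (by omega) (by push_cast; omega)
        (by push_cast; omega)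
      have h9 : S.yc + S.a + 2 * r ≤ f.2 ∧ f.2 < S.yc + S.a + 6 * r ∨
          S.yc - S.a - 6 * r ≤ f.2 ∧ f.2 < S.yc - S.a - 2 * r := by omega
      unfold wll wls
      simp only [Finset.mem_union, Finset.mem_image, Finset.mem_Ico]
      rcases h8 with h8 | h8 <;> rcases h9 with h9 | h9
      · exact Or.inl (Or.inl ⟨f.2, h9, h8.symm⟩)
      · exact Or.inr (Or.inl ⟨f.2, h9, h8.symm⟩)
      · exact Or.inl (Or.inr ⟨f.2, h9, h8.symm⟩)
      · exact Or.inr (Or.inr ⟨f.2, h9, h8.symm⟩)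
    · refine Finset.mem_union_right _ (Finset.mem_image_of_mem _ (mem_selC.2 ⟨?_, f, k, rfl, h4⟩))
      unfold farC
      rw [Finset.mem_filter]
      exact ⟨h3, h6⟩
  · rintro x (⟨f, h3, h4, h5, h6, h7, rfl⟩ | hx)
    · refine ⟨f, h3, h4, fun h8 => ?_, rfl⟩
      unfold nearF at h8
      omega
    · exact hx

end UpE

end

end Pool.Agent.SixB
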