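import Pool.Agent.Lib.SixB.S3Plane

/-!
# 6BD step 3: the factorisation of the cylinder sum (plane functional)

`F = (A ∪ R₁) ∪ (B ∪ R₂)`: `A` core (contains the sides `P` where the weight `h` is not `1`), `R₁`, `R₂` blocking
annuli, `B` outer part with the flat ends. `PL`: the average of `Zs` over `F` is
`r4 ^ nf * (average over A ∪ R₁ of Zr 1_G1) * (average over B ∪ R₂ of c4 ^ k 1_G2)` up to the probabilities that the
annuli do not block.
-/

set_option autoImplicit false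
set_option linter.unusedSectionVars false

namespace Pool.Agent.SixB.Rel

open Pool.Agent.Perc.Q Relation
open Pool.Agent.SixB hiding Zs_split

noncomputable section

variable {V Φ : Type} [DecidableEq V] [DecidableEq Φ]
variable {Q : QC V Φ} {F F' : Finset Φ} {ω ω' : Φ → Bool} {a b : V × V} {P X Y : Finset (V × V)}

/-! ## Complex averages -/

/-- average of a complex function over the configurations of `S` -/
def avc (S : Finset Φ) (g : (Φ → Bool) → ℂ) : ℂ := (∑ T ∈ S.powerset, g (ind T)) / 2 ^ S.card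

variable {S S₁ S₂ : Finset Φ} {g g' : (Φ → Bool) → ℂ}

theorem avc_congr (h : ∀ T ⊆ S, g (ind T) = g' (ind T)) : avc S g = avc S g' := by
  unfold avc
  congr 1
  exact Finset.sum_congr rfl fun T hT => h T (Finset.mem_powerset.mp hT)

theorem avc_add : avc S (fun ω => g ω + g' ω) = avc S g + avc S g' := by
  unfold avc
  rw [Finset.sum_add_distrib, add_div]

theorem avc_sub : avc S (fun ω => g ω - g' ω) = avc S g - avc S g' := by
  unfold avc
  rw [Finset.sum_sub_distrib, sub_div]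

theorem avc_mul (c : ℂ) : avc S (fun ω => c * g ω) = c * avc S g := by
  unfold avc
  rw [← Finset.mul_sum, mul_div_assoc]

theorem avc_sum {ι : Type} (s : Finset ι) (g : ι → (Φ → Bool) → ℂ) :
    avc S (fun ω => ∑ i ∈ s, g i ω) = ∑ i ∈ s, avc S (g i) := by
  unfold avc
  rw [Finset.sum_comm, Finset.sum_div]

theorem avc_ofReal (f : (Φ → Bool) → ℝ) : avc S (fun ω => (f ω : ℂ)) = ((av S f : ℝ) : ℂ) := by
  unfold avc av
  push_cast
  rfl

theorem avc_eq (g : (Φ → Bool) → ℂ) :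
    avc S g = ((av S (fun ω => (g ω).re) : ℝ) : ℂ) + ((av S (fun ω => (g ω).im) : ℝ) : ℂ) * Complex.I := by
  rw [← avc_ofReal, ← avc_ofReal]
  unfold avc
  rw [div_mul_eq_mul_div, ← add_div, Finset.sum_mul, ← Finset.sum_add_distrib]
  congr 1
  exact Finset.sum_congr rfl fun T _ => (Complex.re_add_im _).symm

theorem norm_avc_le {f : (Φ → Bool) → ℝ} (h : ∀ T ⊆ S, ‖g (ind T)‖ ≤ f (ind T)) :
    ‖avc S g‖ ≤ av S f := by
  unfold avc av
  rw [norm_div, norm_pow, Complex.norm_ofNat]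
  apply div_le_div_of_nonneg_right _ (by positivity)
  exact (norm_sum_le _ _).trans
    (Finset.sum_le_sum fun T hT => h T (Finset.mem_powerset.mp hT))

theorem avc_indep (hd : Disjoint S₁ S₂) {f : (Φ → Bool) → ℝ} (h1 : Dep (S₁ : Set Φ) g)
    (h2 : Dep (S₂ : Set Φ) f) :
    avc (S₁ ∪ S₂) (fun ω => g ω * (f ω : ℂ)) = avc S₁ g * ((av S₂ f : ℝ) : ℂ) := by
  rw [avc_eq, avc_eq (S := S₁) g, add_mul, mul_assoc]
  have e1 : (fun ω => (g ω * (f ω : ℂ)).re) = fun ω => (g ω).re * f ω := by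
    funext ω
    simp
  have e2 : (fun ω => (g ω * (f ω : ℂ)).im) = fun ω => (g ω).im * f ω := by
    funext ω
    simp
  rw [e1, e2, av_indep hd h2 _ (fun ω ω' h => by rw [h1 ω ω' h]),
    av_indep hd h2 _ (fun ω ω' h => by rw [h1 ω ω' h])]
  push_cast
  ring

theorem avc_dep {S' : Finset Φ} (h1 : Dep (S : Set Φ) g) (hS : S ⊆ S') : avc S' g = avc S g := by
  rw [avc_eq, avc_eq (S := S) g, av_dep (fun ω ω' h => by rw [h1 ω ω' h]) hS,
    av_dep (fun ω ω' h => by rw [h1 ω ω' h]) hS]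

theorem av_le_av_add {f f₁ f₂ : (Φ → Bool) → ℝ} (h : ∀ T ⊆ S, f (ind T) ≤ f₁ (ind T) + f₂ (ind T)) :
    av S f ≤ av S f₁ + av S f₂ := by
  rw [← av_add]
  exact av_mono h

/-! ## The bound of the relevant part -/

theorem norm_zeta : ‖zeta‖ = 1 := by
  unfold zeta
  have h : (Real.pi / 12 * Complex.I : ℂ) = ((Real.pi / 12 : ℝ) : ℂ) * Complex.I := by push_cast; ring
  rw [h, Complex.norm_exp_ofReal_mul_I]

/-- bound of the weights of the relevant strands -/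
def CP (h : V × V → ℂ) (P : Finset (V × V)) : ℝ :=
  2 ^ P.card * ∏ a ∈ P ∪ rv P, max 1 ‖h a‖

theorem CP_nonneg (h : V × V → ℂ) (P : Finset (V × V)) : 0 ≤ CP h P := by
  unfold CP
  have : 0 ≤ ∏ a ∈ P ∪ rv P, max 1 ‖h a‖ :=
    Finset.prod_nonneg fun a _ => le_trans zero_le_one (le_max_left _ _)
  positivity

theorem norm_sw_le {h : V × V → ℂ} (hh : ∀ a, a ∉ P → a.swap ∉ P → h a = 1)
    {U : Finset (V × V)} (hU : X ⊆ U) :
    ‖sw Q F ω h X‖ ≤ ∏ a ∈ (P ∪ rv P) ∩ U, max 1 ‖h a‖ := by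
  have e1 : ‖sw Q F ω h X‖ = ∏ a ∈ X, ‖h a‖ := by
    unfold sw
    rw [norm_prod]
    refine Finset.prod_congr rfl fun a _ => ?_
    rw [norm_mul, norm_zpow, norm_zeta, one_zpow, mul_one]
  have e2 : ∏ a ∈ X, ‖h a‖ = ∏ a ∈ (P ∪ rv P) ∩ X, ‖h a‖ := by
    symm
    apply Finset.prod_subset Finset.inter_subset_right
    intro a ha hn
    have h1 : a ∉ P ∪ rv P := fun h => hn (Finset.mem_inter.mpr ⟨h, ha⟩)
    rw [Finset.mem_union, mem_rv, not_or] at h1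
    rw [hh a h1.1 h1.2, norm_one]
  rw [e1, e2]
  calc ∏ a ∈ (P ∪ rv P) ∩ X, ‖h a‖ ≤ ∏ a ∈ (P ∪ rv P) ∩ X, max 1 ‖h a‖ :=
        Finset.prod_le_prod (fun _ _ => norm_nonneg _) fun _ _ => le_max_right _ _
    _ ≤ ∏ a ∈ (P ∪ rv P) ∩ U, max 1 ‖h a‖ := by
        apply Finset.prod_le_prod_of_subset_of_one_le
        · exact Finset.inter_subset_inter_left hU
        · intro a _
          exact le_trans zero_le_one (le_max_left _ _)
        · intro a _ _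
          exact le_max_left _ _

theorem prs_disj (hX : X ∈ dstr Q F ω) (hY : Y ∈ dstr Q F ω) (hne : prs X ≠ prs Y) :
    Disjoint (X ∪ rv X) (Y ∪ rv Y) := by
  rw [Finset.disjoint_left]
  intro a h1 h2
  apply hne
  have key : ∀ {X Y : Finset (V × V)}, X ∈ dstr Q F ω → Y ∈ dstr Q F ω → a ∈ X → a ∈ Y →
      X = Y := by
    intro X Y hX hY hx hy
    rw [(dstr_of_mem hX hx).2, (dstr_of_mem hY hy).2]
  rcases Finset.mem_union.mp h1 with h1 | h1 <;> rcases Finset.mem_union.mp h2 with h2 | h2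
  · rw [key hX hY h1 h2]
  · rw [key hX (rv_mem_dstr hY) h1 h2]
    unfold prs
    rw [rv_rv, Finset.pair_comm]
  · rw [← key (rv_mem_dstr hX) hY h1 h2]
    unfold prs
    rw [rv_rv, Finset.pair_comm]
  · have h3 := key (rv_mem_dstr hX) (rv_mem_dstr hY) h1 h2
    rw [← rv_rv X, h3, rv_rv]

theorem norm_Zr_le (hQ : NoLoop Q) {h : V × V → ℂ}
    (hh : ∀ a, a ∉ P → a.swap ∉ P → h a = 1) : ‖Zr Q F ω h P‖ ≤ CP h P := by
  unfold Zr
  rw [norm_prod]
  set D := (dstr Q F ω).filter (touch P) with hD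
  have hDs : D ⊆ dstr Q F ω := Finset.filter_subset _ _
  have h1 : ∀ U ∈ D.image prs, ‖∑ X ∈ U, sw Q F ω h X‖ ≤
      2 * ∏ a ∈ (P ∪ rv P) ∩ U.biUnion id, max 1 ‖h a‖ := by
    intro U hU
    obtain ⟨X, hX, rfl⟩ := Finset.mem_image.mp hU
    rw [sum_prs hQ (hDs hX), biUnion_prs]
    calc ‖sw Q F ω h X + sw Q F ω h (rv X)‖ ≤ ‖sw Q F ω h X‖ + ‖sw Q F ω h (rv X)‖ :=
          norm_add_le _ _
      _ ≤ _ := by
          rw [two_mul]
          exact add_le_add (norm_sw_le hh Finset.subset_union_left)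
            (norm_sw_le hh Finset.subset_union_right)
  calc ∏ U ∈ D.image prs, ‖∑ X ∈ U, sw Q F ω h X‖
      ≤ ∏ U ∈ D.image prs, (2 * ∏ a ∈ (P ∪ rv P) ∩ U.biUnion id, max 1 ‖h a‖) :=
        Finset.prod_le_prod (fun _ _ => norm_nonneg _) h1
    _ = 2 ^ (D.image prs).card *
        ∏ U ∈ D.image prs, ∏ a ∈ (P ∪ rv P) ∩ U.biUnion id, max 1 ‖h a‖ := by
        rw [Finset.prod_mul_distrib, Finset.prod_const]
    _ ≤ CP h P := by
        unfold CP
        apply mul_le_mul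
        · apply pow_le_pow_right₀ (by norm_num)
          refine le_trans ?_ (sum_cnt hDs P)
          rw [Finset.card_eq_sum_ones]
          apply Finset.sum_le_sum
          intro U hU
          obtain ⟨X, hX, rfl⟩ := Finset.mem_image.mp hU
          unfold cnt
          rw [biUnion_prs, Nat.one_le_iff_ne_zero, ← Nat.pos_iff_ne_zero, Finset.card_pos]
          obtain ⟨a, ha, h2⟩ := touch_iff.mp (Finset.mem_filter.mp hX).2
          rcases h2 with h2 | h2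
          · exact ⟨a, Finset.mem_inter.mpr ⟨h2, Finset.mem_union_left _ ha⟩⟩
          · refine ⟨a.swap, Finset.mem_inter.mpr ⟨h2, Finset.mem_union_right _ ?_⟩⟩
            rw [mem_rv, Prod.swap_swap]
            exact ha
        · rw [← Finset.prod_biUnion]
          · apply Finset.prod_le_prod_of_subset_of_one_le
            · intro a ha
              obtain ⟨U, _, h2⟩ := Finset.mem_biUnion.mp ha
              exact (Finset.mem_inter.mp h2).1
            · intro a _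
              exact le_trans zero_le_one (le_max_left _ _)
            · intro a _ _
              exact le_max_left _ _
          · intro U hU W hW hne
            obtain ⟨X, hX, rfl⟩ := Finset.mem_image.mp hU
            obtain ⟨Y, hY, rfl⟩ := Finset.mem_image.mp hW
            show Disjoint ((P ∪ rv P) ∩ (prs X).biUnion id) ((P ∪ rv P) ∩ (prs Y).biUnion id)
            rw [biUnion_prs, biUnion_prs]
            exact (prs_disj (hDs hX) (hDs hY) hne).mono Finset.inter_subset_right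
              Finset.inter_subset_right
        · exact Finset.prod_nonneg fun U _ => Finset.prod_nonneg fun a _ =>
            le_trans zero_le_one (le_max_left _ _)
        · positivity

/-! ## The factorisation -/

/-- The decomposition of the face set: core `A`, annuli `R₁`, `R₂`, outer part `B`, top section `T`. -/
structure Dec (Q : QC V Φ) (A R₁ B R₂ T : Finset Φ) (P Eb Et Cut : Finset (V × V)) : Prop where
  dj : Disjoint (A ∪ R₁) (B ∪ R₂)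
  dR : Disjoint B R₂
  dA : Disjoint A R₁
  sepA : Disjoint (dE Q A) (dE Q (B ∪ R₂))
  sepB : Disjoint (dE Q B) (dE Q (A ∪ R₁))
  P_sub : P ⊆ dE Q A
  flat : Flat Q (A ∪ R₁ ∪ (B ∪ R₂)) P Eb Et
  E_sub : Eb ∪ Et ⊆ dE Q B
  T_sub : T ⊆ B
  cut : dE Q ((A ∪ R₁ ∪ (B ∪ R₂)) \ T) ∩ dE Q T ⊆ Cut
  top : ∀ a ∈ Et, a ∈ dE Q T ∧ a ∉ dE Q ((A ∪ R₁ ∪ (B ∪ R₂)) \ T)
  bot : ∀ a ∈ Eb, a ∈ dE Q ((A ∪ R₁ ∪ (B ∪ R₂)) \ T)

variable {A R₁ B R₂ T : Finset Φ} {Eb Et Cut : Finset (V × V)}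

/-- the first annulus blocks -/
def G1 (Q : QC V Φ) (A R₁ B R₂ : Finset Φ) (ω : Φ → Bool) : Prop :=
  Blk Q R₁ ω (dE Q A) (dE Q (B ∪ R₂))

/-- the second annulus blocks -/
def G2 (Q : QC V Φ) (A R₁ B R₂ : Finset Φ) (ω : Φ → Bool) : Prop :=
  Blk Q R₂ ω (dE Q B) (dE Q (A ∪ R₁))

theorem Dec.Zr_eq (H : Dec Q A R₁ B R₂ T P Eb Et Cut) (h : V × V → ℂ)
    (h1 : G1 Q A R₁ B R₂ ω) :
    Zr Q (A ∪ R₁ ∪ (B ∪ R₂)) ω h P = Zr Q (A ∪ R₁) ω h P :=
  Zr_sub h Finset.subset_union_left (H.P_sub.trans (dE_mono Finset.subset_union_left))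
    (conf_of_blk H.sepA H.P_sub h1)

theorem Dec.dst_eq (H : Dec Q A R₁ B R₂ T P Eb Et Cut) (h2 : G2 Q A R₁ B R₂ ω)
    (ha : a ∈ dE Q B) : dst Q (A ∪ R₁ ∪ (B ∪ R₂)) ω a = dst Q (B ∪ R₂) ω a ∧
      Disjoint (dst Q (B ∪ R₂) ω a) (dE Q (A ∪ R₁)) :=
  dst_of_blk H.sepB h2 ha

theorem Dec.irr (H : Dec Q A R₁ B R₂ T P Eb Et Cut) (h2 : G2 Q A R₁ B R₂ ω)
    (ha : a ∈ dE Q B) : ¬ touch P (dst Q (A ∪ R₁ ∪ (B ∪ R₂)) ω a) := by
  obtain ⟨e1, e2⟩ := H.dst_eq h2 ha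
  rw [e1]
  intro ht
  obtain ⟨b, hb, h3⟩ := touch_iff.mp ht
  have h4 := Finset.disjoint_left.mp e2 hb
  apply h4
  have h5 : P ⊆ dE Q (A ∪ R₁) := H.P_sub.trans (dE_mono Finset.subset_union_left)
  rcases h3 with h3 | h3
  · exact h5 h3
  · exact swap_mem_dE.mp (h5 h3)

theorem Dec.thr_eq (H : Dec Q A R₁ B R₂ T P Eb Et Cut) (h2 : G2 Q A R₁ B R₂ ω) :
    thr Q (A ∪ R₁ ∪ (B ∪ R₂)) ω Eb Et = thr Q (B ∪ R₂) ω Eb Et := by
  ext t
  rw [mem_thr, mem_thr]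
  refine and_congr_right fun _ => exists_congr fun a => and_congr_right fun ha => ?_
  have haB : a ∈ dE Q B := H.E_sub (Finset.mem_union_left _ ha)
  have e1 := (H.dst_eq h2 haB).1
  have haF : a ∈ dE Q (A ∪ R₁ ∪ (B ∪ R₂)) :=
    dE_mono (Finset.subset_union_left.trans Finset.subset_union_right) haB
  have haF2 : a ∈ dE Q (B ∪ R₂) := dE_mono Finset.subset_union_left haB
  constructor
  · intro h
    have h3 : t ∈ dst Q (A ∪ R₁ ∪ (B ∪ R₂)) ω a := mem_dst.mpr ⟨srel_dE h haF, h⟩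
    rw [e1] at h3
    exact (mem_dst.mp h3).2
  · intro h
    have h3 : t ∈ dst Q (B ∪ R₂) ω a := mem_dst.mpr ⟨srel_dE h haF2, h⟩
    rw [← e1] at h3
    exact (mem_dst.mp h3).2

/-- **The strand product on the blocking events.** -/
theorem Dec.Zs_eq (hQ : NoLoop Q) (H : Dec Q A R₁ B R₂ T P Eb Et Cut)
    (hT : Turns Q (A ∪ R₁ ∪ (B ∪ R₂)) ω Eb Et) {h : V × V → ℂ}
    (hh : ∀ a, a ∉ P → a.swap ∉ P → h a = 1)
    (h1 : G1 Q A R₁ B R₂ ω) (h2 : G2 Q A R₁ B R₂ ω) :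
    Zs Q (A ∪ R₁ ∪ (B ∪ R₂)) ω h = ((r4 ^ (Eb ∪ Et).card : ℝ) : ℂ) *
      (Zr Q (A ∪ R₁) ω h P * ((c4 ^ (thr Q (B ∪ R₂) ω Eb Et).card : ℝ) : ℂ)) := by
  rw [Zs_split Q _ ω h P, H.Zr_eq h h1, Zn_congr (h' := fun _ => 1) hh,
    Zn_eval hQ H.flat hT (fun a ha => H.irr h2 (H.E_sub ha)), H.thr_eq h2]
  push_cast
  ring

/-- through strands cross the top section -/
theorem Dec.thr_le (H : Dec Q A R₁ B R₂ T P Eb Et Cut) :
    (thr Q (A ∪ R₁ ∪ (B ∪ R₂)) ω Eb Et).card ≤ (thr Q T ω Cut Et).card := by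
  apply Finset.card_le_card
  intro t ht
  obtain ⟨h1, a, ha, h2⟩ := mem_thr.mp ht
  refine mem_thr.mpr ⟨h1, ?_⟩
  have hFT : ((A ∪ R₁ ∪ (B ∪ R₂)) \ T) ∪ T = A ∪ R₁ ∪ (B ∪ R₂) :=
    Finset.sdiff_union_of_subset
      (H.T_sub.trans (Finset.subset_union_left.trans Finset.subset_union_right))
  have h3 := (mem_bS.mp (H.flat.bot ha)).2
  have h4 : ReflTransGen (Nx Q ω (((A ∪ R₁ ∪ (B ∪ R₂) : Finset Φ)) : Set Φ)) a t := by
    rcases srel_iff.mp h2 with h5 | h5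
    · exact h5
    · rcases ReflTransGen.cases_tail h5 with h6 | ⟨c, -, h6⟩
      · rw [h6]
      · exact absurd h6 (ini_nx h3)
  rw [← hFT] at h4
  obtain ⟨c, hc, hct⟩ := chain_exit h4 (H.bot a ha)
  obtain ⟨h6, h7⟩ := H.top _ h1
  have h8 : t ∉ dE Q ((A ∪ R₁ ∪ (B ∪ R₂)) \ T) := fun hh => h7 (swap_mem_dE.mpr hh)
  have h9 := rtg_srel hct
  refine ⟨c, ?_, h9⟩
  rcases srel_mem_dE h9 with h10 | ⟨h10, -⟩
  · rw [h10] at hc
    exact absurd hc h8
  · exact H.cut (Finset.mem_inter.mpr ⟨hc, h10⟩)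

/-- **Bound of the strand product.** -/
theorem Dec.norm_Zs_le (hQ : NoLoop Q) (H : Dec Q A R₁ B R₂ T P Eb Et Cut)
    (hT : Turns Q (A ∪ R₁ ∪ (B ∪ R₂)) ω Eb Et) {h : V × V → ℂ}
    (hh : ∀ a, a ∉ P → a.swap ∉ P → h a = 1) :
    ‖Zs Q (A ∪ R₁ ∪ (B ∪ R₂)) ω h‖ ≤
      r4 ^ (Eb ∪ Et).card * (CP h P * c4 ^ (thr Q T ω Cut Et).card) := by
  rw [Zs_split Q _ ω h P, Zn_congr (h' := fun _ => 1) hh, norm_mul]
  have r0 := r4_pos
  have c0 := c4_pos
  calc ‖Zr Q (A ∪ R₁ ∪ (B ∪ R₂)) ω h P‖ * ‖Zn Q (A ∪ R₁ ∪ (B ∪ R₂)) ω (fun _ => 1) P‖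
      ≤ CP h P * (r4 ^ (Eb ∪ Et).card * c4 ^ (thr Q (A ∪ R₁ ∪ (B ∪ R₂)) ω Eb Et).card) :=
        mul_le_mul (norm_Zr_le hQ hh) (norm_Zn_le hQ H.flat hT) (norm_nonneg _) (CP_nonneg _ _)
    _ ≤ CP h P * (r4 ^ (Eb ∪ Et).card * c4 ^ (thr Q T ω Cut Et).card) := by
        apply mul_le_mul_of_nonneg_left _ (CP_nonneg _ _)
        apply mul_le_mul_of_nonneg_left _ (by positivity)
        exact pow_le_pow_right₀ c4_ge H.thr_le
    _ = _ := by ring

open Classical in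
/-- indicator function -/
def ic (p : Prop) : ℝ := if p then 1 else 0

theorem ic_of {p : Prop} (h : p) : ic p = 1 := if_pos h

theorem ic_not {p : Prop} (h : ¬ p) : ic p = 0 := if_neg h

theorem ic_nonneg (p : Prop) : 0 ≤ ic p := by
  unfold ic
  split_ifs <;> norm_num

theorem ic_le (p : Prop) : ic p ≤ 1 := by
  unfold ic
  split_ifs <;> norm_num

/-- the plane functional seen from `A ∪ R₁` -/
def zpl (Q : QC V Φ) (A R₁ B R₂ : Finset Φ) (h : V × V → ℂ) (P : Finset (V × V)) : ℂ :=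
  avc (A ∪ R₁) (fun ω => Zr Q (A ∪ R₁) ω h P * ((ic (G1 Q A R₁ B R₂ ω) : ℝ) : ℂ))

/-- the factor of the outer part -/
def xout (Q : QC V Φ) (A R₁ B R₂ : Finset Φ) (Eb Et : Finset (V × V)) : ℝ :=
  av (B ∪ R₂) (fun ω => c4 ^ (thr Q (B ∪ R₂) ω Eb Et).card * ic (G2 Q A R₁ B R₂ ω))

theorem dep_G1 : Dep (R₁ : Set Φ) (fun ω => G1 Q A R₁ B R₂ ω) := by
  intro ω ω' h
  exact propext (Blk.congr fun f hf => h f (by exact_mod_cast hf))

theorem dep_G2 : Dep (R₂ : Set Φ) (fun ω => G2 Q A R₁ B R₂ ω) := by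
  intro ω ω' h
  exact propext (Blk.congr fun f hf => h f (by exact_mod_cast hf))

/-- **PL: the factorisation of the cylinder sum.** -/
theorem Dec.PL (hQ : NoLoop Q) (H : Dec Q A R₁ B R₂ T P Eb Et Cut)
    (hT : ∀ ω, Turns Q (A ∪ R₁ ∪ (B ∪ R₂)) ω Eb Et) {h : V × V → ℂ}
    (hh : ∀ a, a ∉ P → a.swap ∉ P → h a = 1) :
    ‖avc (A ∪ R₁ ∪ (B ∪ R₂)) (fun ω => Zs Q (A ∪ R₁ ∪ (B ∪ R₂)) ω h) -
        ((r4 ^ (Eb ∪ Et).card : ℝ) : ℂ) * (zpl Q A R₁ B R₂ h P *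
          ((xout Q A R₁ B R₂ Eb Et : ℝ) : ℂ))‖ ≤
      r4 ^ (Eb ∪ Et).card * (CP h P * (av T (fun ω => c4 ^ (thr Q T ω Cut Et).card) *
        (av R₁ (fun ω => ic (¬ G1 Q A R₁ B R₂ ω)) + av R₂ (fun ω => ic (¬ G2 Q A R₁ B R₂ ω))))) := by
  have r0 := r4_pos
  have c0 := c4_pos
  set F := A ∪ R₁ ∪ (B ∪ R₂) with hF
  set nf := (Eb ∪ Et).card with hnf
  -- the main term
  have hmain : ((r4 ^ nf : ℝ) : ℂ) * (zpl Q A R₁ B R₂ h P *
      ((xout Q A R₁ B R₂ Eb Et : ℝ) : ℂ)) = avc F (fun ω =>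
        ((r4 ^ nf : ℝ) : ℂ) * ((Zr Q (A ∪ R₁) ω h P * ((ic (G1 Q A R₁ B R₂ ω) : ℝ) : ℂ)) *
          ((c4 ^ (thr Q (B ∪ R₂) ω Eb Et).card * ic (G2 Q A R₁ B R₂ ω) : ℝ) : ℂ))) := by
    rw [avc_mul]
    congr 1
    unfold zpl xout
    rw [hF, avc_indep H.dj]
    · intro ω ω' hω
      have e1 : Zr Q (A ∪ R₁) ω h P = Zr Q (A ∪ R₁) ω' h P :=
        Zr_congr_cfg fun f hf => hω f (by exact_mod_cast hf)
      have e2 : G1 Q A R₁ B R₂ ω = G1 Q A R₁ B R₂ ω' :=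
        dep_G1 ω ω' fun f hf => hω f (by
          have : f ∈ R₁ := by exact_mod_cast hf
          exact_mod_cast Finset.mem_union_right _ this)
      simp only [e1, e2]
    · intro ω ω' hω
      have e1 : thr Q (B ∪ R₂) ω Eb Et = thr Q (B ∪ R₂) ω' Eb Et :=
        thr_congr fun f hf => hω f (by exact_mod_cast hf)
      have e2 : G2 Q A R₁ B R₂ ω = G2 Q A R₁ B R₂ ω' :=
        dep_G2 ω ω' fun f hf => hω f (by
          have : f ∈ R₂ := by exact_mod_cast hf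
          exact_mod_cast Finset.mem_union_right _ this)
      simp only [e1, e2]
  rw [hmain, ← avc_sub]
  -- the error
  have herr : ∀ S ⊆ F, ‖Zs Q F (ind S) h - ((r4 ^ nf : ℝ) : ℂ) *
      ((Zr Q (A ∪ R₁) (ind S) h P * ((ic (G1 Q A R₁ B R₂ (ind S)) : ℝ) : ℂ)) *
        ((c4 ^ (thr Q (B ∪ R₂) (ind S) Eb Et).card * ic (G2 Q A R₁ B R₂ (ind S)) : ℝ) : ℂ))‖ ≤
      r4 ^ nf * CP h P * (c4 ^ (thr Q T (ind S) Cut Et).card *
        (ic (¬ G1 Q A R₁ B R₂ (ind S)) + ic (¬ G2 Q A R₁ B R₂ (ind S)))) := by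
    intro S _
    have hc0 : (0 : ℝ) ≤ c4 ^ (thr Q T (ind S) Cut Et).card := by positivity
    have hb := H.norm_Zs_le hQ (hT (ind S)) hh
    by_cases h1 : G1 Q A R₁ B R₂ (ind S)
    · by_cases h2 : G2 Q A R₁ B R₂ (ind S)
      · rw [H.Zs_eq hQ (hT (ind S)) hh h1 h2, ic_of h1, ic_of h2]
        rw [Complex.ofReal_one, mul_one, mul_one, sub_self, norm_zero]
        have := CP_nonneg h P
        have e1 := ic_nonneg (¬ G1 Q A R₁ B R₂ (ind S))
        have e2 := ic_nonneg (¬ G2 Q A R₁ B R₂ (ind S))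
        positivity
      · rw [ic_not h2, mul_zero, Complex.ofReal_zero, mul_zero, mul_zero, sub_zero, ic_of h2]
        refine hb.trans ?_
        rw [mul_assoc]
        apply mul_le_mul_of_nonneg_left _ (by positivity)
        apply mul_le_mul_of_nonneg_left _ (CP_nonneg _ _)
        have e1 := ic_nonneg (¬ G1 Q A R₁ B R₂ (ind S))
        nlinarith
    · rw [ic_not h1, Complex.ofReal_zero, mul_zero, zero_mul, mul_zero, sub_zero, ic_of h1]
      refine hb.trans ?_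
      rw [mul_assoc]
      apply mul_le_mul_of_nonneg_left _ (by positivity)
      apply mul_le_mul_of_nonneg_left _ (CP_nonneg _ _)
      have e1 := ic_nonneg (¬ G2 Q A R₁ B R₂ (ind S))
      nlinarith
  refine (norm_avc_le (f := fun ω => r4 ^ nf * CP h P * (c4 ^ (thr Q T ω Cut Et).card *
    (ic (¬ G1 Q A R₁ B R₂ ω) + ic (¬ G2 Q A R₁ B R₂ ω)))) herr).trans ?_
  rw [av_mul, mul_assoc]
  apply mul_le_mul_of_nonneg_left _ (by positivity)
  apply mul_le_mul_of_nonneg_left _ (CP_nonneg _ _)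
  -- independence
  have hTF : T ⊆ F := H.T_sub.trans (Finset.subset_union_left.trans Finset.subset_union_right)
  have hR1F : R₁ ⊆ F := Finset.subset_union_right.trans Finset.subset_union_left
  have hR2F : R₂ ⊆ F := Finset.subset_union_right.trans Finset.subset_union_right
  have hTR1 : Disjoint T R₁ :=
    (H.dj.symm.mono_left (H.T_sub.trans Finset.subset_union_left)).mono_right
      Finset.subset_union_right
  have hTR2 : Disjoint T R₂ := H.dR.mono_left H.T_sub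
  have depT : Dep (T : Set Φ) (fun ω => c4 ^ (thr Q T ω Cut Et).card) := by
    intro ω ω' hω
    show c4 ^ (thr Q T ω Cut Et).card = c4 ^ (thr Q T ω' Cut Et).card
    rw [thr_congr fun f hf => hω f (by exact_mod_cast hf)]
  have dep1 : Dep (R₁ : Set Φ) (fun ω => ic (¬ G1 Q A R₁ B R₂ ω)) := by
    intro ω ω' hω
    have e2 : G1 Q A R₁ B R₂ ω = G1 Q A R₁ B R₂ ω' := dep_G1 ω ω' hω
    simp only [e2]
  have dep2 : Dep (R₂ : Set Φ) (fun ω => ic (¬ G2 Q A R₁ B R₂ ω)) := by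
    intro ω ω' hω
    have e2 : G2 Q A R₁ B R₂ ω = G2 Q A R₁ B R₂ ω' := dep_G2 ω ω' hω
    simp only [e2]
  have e0 : av F (fun ω => c4 ^ (thr Q T ω Cut Et).card *
      (ic (¬ G1 Q A R₁ B R₂ ω) + ic (¬ G2 Q A R₁ B R₂ ω))) =
      av F (fun ω => c4 ^ (thr Q T ω Cut Et).card * ic (¬ G1 Q A R₁ B R₂ ω)) +
      av F (fun ω => c4 ^ (thr Q T ω Cut Et).card * ic (¬ G2 Q A R₁ B R₂ ω)) := by
    rw [← av_add]
    congr 1
    funext ω
    ring
  rw [e0, av_indep' hTR1 depT dep1 hTF hR1F, av_indep' hTR2 depT dep2 hTF hR2F,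
    av_dep depT hTF, av_dep dep1 hR1F, av_dep dep2 hR2F]
  rw [← mul_add]

end

end Pool.Agent.SixB.Rel
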