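import Pool.Agent.Lib.SixB.S3PolyGeo
import Pool.Agent.Lib.SixB.S3EnvN
import Pool.Agent.Lib.SixB.S3Wdg

/-!
# 6BD step 3, row R8, part 2: the charts along the contour of a polygon

* `crs_eq`: the turning is `2 - mm`.
* `ctChart`: the wedge chart (identity maps) at the contour vertex `k` of radius `ρ ≤ n`, no corner at contour
  distance `< ρ` except `k`.
* `wOut_eq`, `wIn_eq`: its walls are the sides `k, …, k + ρ - 1` and `k - ρ, …, k - 1` of the contour.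
* `ctJump`, `ctE`, `ctEm`: the phases.
-/

set_option autoImplicit false

namespace Pool.Agent.SixB.PolyAtl

open Pool.Agent.Perc.Q Pool.Agent.Perc

noncomputable section

variable {P D : Finset (ℤ × ℤ)} {N n : ℕ} {G : ℤ → ℤ × ℤ}

theorem crs_eq (hc : Cont D N G) (k : ℤ) : crs G k = 2 - (mm G k : ℤ) := by
  have h1 := dd_spec hc k
  have h2 := dd_spec' hc k
  have h3 := dd_ne hc k
  unfold crs mm
  rw [h1, h2]
  revert h3
  generalize dd G k = a
  generalize dd G (k - 1) = b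
  generalize G k = v
  intro h3
  simp only [Prod.fst_add, Prod.snd_add, Prod.fst_sub, Prod.snd_sub]
  rw [show v.1 - (v.1 - (dz b).1) = (dz b).1 by ring, show v.2 + (dz a).2 - v.2 = (dz a).2 by ring,
    show v.2 - (v.2 - (dz b).2) = (dz b).2 by ring, show v.1 + (dz a).1 - v.1 = (dz a).1 by ring]
  revert h3
  revert a b
  decide

theorem mm_two {k : ℤ} : mm G k = 2 ↔ dd G k = dd G (k - 1) := by
  unfold mm
  generalize dd G k = a
  generalize dd G (k - 1) = b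
  revert a b
  decide

theorem wOut_eq (hc : Cont D N G) {k : ℤ} {ρ : ℕ} (hs : Stt G k ρ) {a : (ℤ × ℤ) × (ℤ × ℤ)} :
    a ∈ wOut (dd G k) (G k) ρ ↔ ∃ t : ℕ, t < ρ ∧ a = (G (k + t), G (k + t + 1)) := by
  unfold wOut
  rw [Finset.mem_image]
  constructor
  · rintro ⟨t, ht, rfl⟩
    rw [Finset.mem_range] at ht
    refine ⟨t, ht, ?_⟩
    have h1 := arm_out hc hs (t + 1) ht
    rw [arm_out hc hs t ht.le, show k + (t : ℤ) + 1 = k + ((t + 1 : ℕ) : ℤ) by push_cast; ring, h1]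
    push_cast
    rfl
  · rintro ⟨t, ht, rfl⟩
    refine ⟨t, Finset.mem_range.2 ht, ?_⟩
    have h1 := arm_out hc hs (t + 1) ht
    rw [arm_out hc hs t ht.le, show k + (t : ℤ) + 1 = k + ((t + 1 : ℕ) : ℤ) by push_cast; ring, h1]
    push_cast
    rfl

theorem dm (k : ℤ) : dd G k + (mm G k : ZMod 4) = dd G (k - 1) + 2 := by
  unfold mm
  rw [ZMod.natCast_val, ZMod.cast_id]
  ring

theorem dz_two (a : ZMod 4) : dz (a + 2) = -dz a := by
  rcases c4 a with rfl | rfl | rfl | rfl <;> decide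

theorem wIn_eq (hc : Cont D N G) {k : ℤ} {ρ : ℕ} (hs : Stt G k ρ) {a : (ℤ × ℤ) × (ℤ × ℤ)} :
    a ∈ wIn (dd G k + mm G k) (G k) ρ ↔ ∃ t : ℕ, t < ρ ∧ a = (G (k - t - 1), G (k - t)) := by
  have key : ∀ t : ℕ, t < ρ → (G k + ((t : ℤ) + 1) • dz (dd G (k - 1) + 2),
      G k + (t : ℤ) • dz (dd G (k - 1) + 2)) = (G (k - t - 1), G (k - t)) := by
    intro t ht
    have h1 := arm_in hc hs (t + 1) ht
    rw [arm_in hc hs t ht.le, show k - (t : ℤ) - 1 = k - ((t + 1 : ℕ) : ℤ) by push_cast; ring, h1,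
      dz_two]
    push_cast
    rw [smul_neg, smul_neg, ← sub_eq_add_neg, ← sub_eq_add_neg]
  rw [dm]
  unfold wIn
  rw [Finset.mem_image]
  constructor
  · rintro ⟨t, ht, rfl⟩
    rw [Finset.mem_range] at ht
    exact ⟨t, ht, key t ht⟩
  · rintro ⟨t, ht, rfl⟩
    exact ⟨t, Finset.mem_range.2 ht, key t ht⟩

/-- **the chart at the contour vertex `k`** -/
def ctChart (hc : Cont (rf n P) N G) (hn : 0 < n) (k : ℤ) (ρ : ℕ) (hρ : ρ ≤ n) (hs : Stt G k ρ) :
    WChart ZQ (rf n P) (mm G k) (dd G k) (G k) ρ where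
  φV := id
  φF := id
  cor := fun f _ k => rfl
  inj := fun f _ g _ k l h => h
  sub := fun f hf => wedge_sub hc hn hρ hs hf
  bIn := by
    intro a ha
    rw [wIn_eq hc hs] at ha
    obtain ⟨t, -, rfl⟩ := ha
    refine bS_iff_lside.2 ?_
    have := hc.side (k - t - 1)
    rwa [sub_add_cancel] at this
  bOut := by
    intro a ha
    rw [wOut_eq hc hs] at ha
    obtain ⟨t, -, rfl⟩ := ha
    exact bS_iff_lside.2 (hc.side (k + t))

theorem ct_side (hc : Cont (rf n P) N G) (hn : 0 < n) (k : ℤ) (ρ : ℕ) (hρ : ρ ≤ n)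
    (hs : Stt G k ρ) (a : (ℤ × ℤ) × (ℤ × ℤ)) : (ctChart hc hn k ρ hρ hs).side a = a := rfl

theorem ct_box (hc : Cont (rf n P) N G) (hn : 0 < n) (k : ℤ) (ρ : ℕ) (hρ : ρ ≤ n)
    (hs : Stt G k ρ) (t : ℕ) :
    (ctChart hc hn k ρ hρ hs).box t = Wdg (mm G k) (dd G k) (G k) t := by
  unfold WChart.box
  exact Finset.image_id

theorem ct_walls (hc : Cont (rf n P) N G) (hn : 0 < n) (k : ℤ) (ρ : ℕ) (hρ : ρ ≤ n)
    (hs : Stt G k ρ) (t : ℕ) (ht : t ≤ ρ) {a : (ℤ × ℤ) × (ℤ × ℤ)} :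
    a ∈ (ctChart hc hn k ρ hρ hs).walls t ↔
      ∃ i : ℤ, k - t ≤ i ∧ i < k + t ∧ a = (G i, G (i + 1)) := by
  have h0 : (ctChart hc hn k ρ hρ hs).walls t =
      wIn (dd G k + mm G k) (G k) t ∪ wOut (dd G k) (G k) t := by
    unfold WChart.walls
    exact Finset.image_id
  rw [h0, Finset.mem_union, wIn_eq hc (hs.mono ht), wOut_eq hc (hs.mono ht)]
  constructor
  · rintro (⟨s, h1, rfl⟩ | ⟨s, h1, rfl⟩)
    · exact ⟨k - s - 1, by omega, by omega, by rw [sub_add_cancel]⟩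
    · exact ⟨k + s, by omega, by omega, rfl⟩
  · rintro ⟨i, h1, h2, rfl⟩
    rcases lt_or_ge i k with h3 | h3
    · obtain ⟨s, hs'⟩ := Int.eq_ofNat_of_zero_le (by omega : 0 ≤ k - 1 - i)
      refine Or.inl ⟨s, by omega, ?_⟩
      rw [show k - (s : ℤ) - 1 = i by omega, show k - (s : ℤ) = i + 1 by omega]
    · obtain ⟨s, hs'⟩ := Int.eq_ofNat_of_zero_le (by omega : 0 ≤ i - k)
      refine Or.inr ⟨s, by omega, ?_⟩
      rw [show k + (s : ℤ) = i by omega]

/-! ## Phases -/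

section phases

variable {ψ : (ℤ × ℤ) × (ℤ × ℤ) → ℝ} {j : ℤ → ℝ}

theorem ph_const (hc : Cont D N G)
    (hψ : ∀ k : ℤ, ψ (G k, G (k + 1)) - ψ (G (k - 1), G k) + (crs G k : ℝ) * (Real.pi / 12) = j k)
    {a b : ℤ} (hab : a ≤ b) (h : ∀ i, a < i → i ≤ b → mm G i = 2 ∧ j i = 0) :
    ψ (G b, G (b + 1)) = ψ (G a, G (a + 1)) := by
  obtain ⟨t, ht⟩ := Int.eq_ofNat_of_zero_le (by omega : 0 ≤ b - a)
  obtain rfl : b = a + t := by omega
  clear hab
  induction t with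
  | zero => simp
  | succ t ih =>
    obtain ⟨h1, h2⟩ := h (a + (t + 1 : ℕ)) (by push_cast; omega) le_rfl
    have h3 := hψ (a + (t + 1 : ℕ))
    rw [crs_eq hc, h1, h2] at h3
    rw [show a + ((t + 1 : ℕ) : ℤ) - 1 = a + t by push_cast; ring] at h3
    have h4 := ih (fun i h5 h6 => h i h5 (by push_cast; omega)) (by omega)
    rw [show a + (t : ℤ) + 1 = a + ((t + 1 : ℕ) : ℤ) by push_cast; ring] at h4
    push_cast at h3 h4 ⊢
    linarith

theorem ctJump (hc : Cont (rf n P) N G) (hn : 0 < n)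
    (hψ : ∀ k : ℤ, ψ (G k, G (k + 1)) - ψ (G (k - 1), G k) + (crs G k : ℝ) * (Real.pi / 12) = j k)
    (k : ℤ) (ρ : ℕ) (hρ : ρ ≤ n) (hs : Stt G k ρ)
    (hj : ∀ i, k - ρ < i → i < k + ρ → i ≠ k → j i = 0) :
    (ctChart hc hn k ρ hρ hs).Jump ψ (j k) := by
  have hm : ∀ i, k - ρ < i → i < k + ρ → i ≠ k → mm G i = 2 := fun i h1 h2 h3 =>
    mm_two.2 (hs i h1 h2 h3)
  refine ⟨ψ (G (k - 1), G k), ψ (G k, G (k + 1)), ?_, ?_, ?_⟩
  · intro a ha
    rw [wIn_eq hc hs] at ha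
    obtain ⟨t, ht, rfl⟩ := ha
    rw [ct_side]
    have := ph_const hc hψ (a := k - t - 1) (b := k - 1) (by omega)
      (fun i h1 h2 => ⟨hm i (by omega) (by omega) (by omega), hj i (by omega) (by omega) (by omega)⟩)
    rw [sub_add_cancel, sub_add_cancel] at this
    exact this.symm
  · intro a ha
    rw [wOut_eq hc hs] at ha
    obtain ⟨t, ht, rfl⟩ := ha
    rw [ct_side]
    exact ph_const hc hψ (a := k) (b := k + t) (by omega)
      (fun i h1 h2 => ⟨hm i (by omega) (by omega) (by omega), hj i (by omega) (by omega) (by omega)⟩)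
  · have h1 := hψ k
    rw [crs_eq hc] at h1
    push_cast at h1
    linarith

/-- common part of the two marked kinds -/
theorem ct_mark (hc : Cont (rf n P) N G) (hn : 0 < n)
    (hψ : ∀ k : ℤ, ψ (G k, G (k + 1)) - ψ (G (k - 1), G k) + (crs G k : ℝ) * (Real.pi / 12) = j k)
    (k : ℤ) (ρ : ℕ) (hρ : ρ ≤ n) (h0 : 0 < ρ) (hs : Stt G k ρ) (h2 : mm G k = 2)
    (h3 : mm G (k + 1) = 2)
    (hj : ∀ i, k - ρ < i → i < k + ρ → i ≠ k → i ≠ k + 1 → j i = 0) :
    (∀ a ∈ wIn (dd G k + mm G k) (G k) ρ,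
      ψ ((ctChart hc hn k ρ hρ hs).side a) = ψ (G (k - 1), G k)) ∧
    ψ ((ctChart hc hn k ρ hρ hs).side (eS (dd G k) (G k))) = ψ (G (k - 1), G k) + j k ∧
    ∀ a ∈ (wOut (dd G k) (G k) ρ).erase (eS (dd G k) (G k)),
      ψ ((ctChart hc hn k ρ hρ hs).side a) = ψ (G (k - 1), G k) + j k + j (k + 1) := by
  have hm : ∀ i, k - ρ < i → i < k + ρ → i ≠ k → mm G i = 2 := fun i h1 h2 h3 =>
    mm_two.2 (hs i h1 h2 h3)
  have e1 : eS (dd G k) (G k) = (G k, G (k + 1)) := by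
    unfold eS
    rw [dd_spec hc k]
  have e2 := hψ k
  have e3 := hψ (k + 1)
  rw [crs_eq hc, h2] at e2
  rw [crs_eq hc, h3, add_sub_cancel_right] at e3
  push_cast at e2 e3
  refine ⟨?_, ?_, ?_⟩
  · intro a ha
    rw [wIn_eq hc hs] at ha
    obtain ⟨t, ht, rfl⟩ := ha
    rw [ct_side]
    have := ph_const hc hψ (a := k - t - 1) (b := k - 1) (by omega)
      (fun i h1 h2 => ⟨hm i (by omega) (by omega) (by omega),
        hj i (by omega) (by omega) (by omega) (by omega)⟩)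
    rw [sub_add_cancel, sub_add_cancel] at this
    exact this.symm
  · rw [ct_side, e1]
    linarith
  · intro a ha
    rw [Finset.mem_erase, wOut_eq hc hs, e1] at ha
    obtain ⟨hne, t, ht, rfl⟩ := ha
    rw [ct_side]
    have ht0 : t ≠ 0 := by
      rintro rfl
      apply hne
      simp
    have := ph_const hc hψ (a := k + 1) (b := k + t) (by omega)
      (fun i h1 h2 => ⟨hm i (by omega) (by omega) (by omega),
        hj i (by omega) (by omega) (by omega) (by omega)⟩)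
    rw [this]
    linarith

end phases

end

end Pool.Agent.SixB.PolyAtl
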