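import Pool.Agent.Lib.SixB.S3PolyAtl

/-!
# 6BD step 3, row R8, part 4: atlases for the three families of marks

* `dd_gr`, `mm_gr`: the corners of the refined contour.
* `sep_ev`: finitely many positions with distinct limits have eventually distances `≥ δ n`.
* `spc_of`: `Spc` for a refined polygon from marks `p : Fin m → ℤ`, `posS n L g p` = corners and marks,
  `kd Ee Em j` = kinds.
* `nat_spc`, `pair_spc`, `full_spc`, `fam_spc`: eventually `Spc` at all scales `2 ≤ r ≤ κ n`, `t₀ = 1`.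
* `fam_atlas`: atlases.
-/

set_option autoImplicit false

namespace Pool.Agent.SixB.PolyAtl

open Pool.Agent.Perc.Q Pool.Agent.Perc Filter Topology

noncomputable section

variable {P : Finset (ℤ × ℤ)} {L n : ℕ} {g : ℤ → ℤ × ℤ}

theorem dd_gr (h : Cont P L g) (hn : 0 < n) (k : ℤ) : dd (gr n g) k = dd g (k / n) := by
  have h1 := gr_step g hn k
  have h3 := dd_spec (CARf.cont_rf h hn) k
  have h4 := dd_spec h (k / n)
  have h2 : gr n g (k + 1) = gr n g k + dz (dd g (k / n)) := by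
    refine Prod.ext ?_ ?_
    · rw [h1.1, h4]
      simp
    · rw [h1.2, h4]
      simp
  exact dz_inj (add_left_cancel (h3.symm.trans h2))

theorem mm_gr (h : Cont P L g) (hn : 0 < n) {k : ℤ} (hk : mm (gr n g) k ≠ 2) :
    ∃ a : ℕ, a < L ∧ mm g a ≠ 2 ∧ ∃ q : ℤ, k = n * a + q * ((n * L : ℕ) : ℤ) := by
  have hn0 : (0 : ℤ) < n := by exact_mod_cast hn
  rw [Ne, mm_two, dd_gr h hn, dd_gr h hn] at hk
  have h1 : k / (n : ℤ) ≠ (k - 1) / n := fun h2 => hk (by rw [h2])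
  obtain ⟨c, rfl⟩ := dvd_of_ne hn h1
  rw [Int.mul_ediv_cancel_left _ hn0.ne', (CARf.div_eq_iff' hn (a := c - 1)).2
    ⟨by nlinarith, by linarith⟩, ← mm_two] at hk
  have hL : (0 : ℤ) < L := by exact_mod_cast h.pos
  have h2 := Int.emod_nonneg c hL.ne'
  have h3 := Int.emod_lt_of_pos c hL
  have h4 := Int.mul_ediv_add_emod c L
  obtain ⟨a, ha⟩ := Int.eq_ofNat_of_zero_le h2
  rw [ha] at h3 h4
  refine ⟨a, by omega, ?_, c / L, ?_⟩
  · have h5 := mm_per h a (c / L)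
    rw [show (a : ℤ) + c / L * L = c by linarith] at h5
    rwa [← h5]
  · push_cast
    conv_lhs => rw [← h4]
    ring

theorem fl_mm (h : Cont P L g) {s : ℝ} (hs : Fl g s) {k : ℤ} (hk : s = k) : mm g k = 2 := by
  have h1 := hs k hk
  rw [mm_two]
  apply dz_inj
  have h2 := dd_spec h k
  have h3 := dd_spec' h k
  rw [h2, h3] at h1
  simpa using h1

/-! ## Separation -/

theorem dist_lat {L : ℕ} (hL : 0 < L) (x : ℝ) : ∃ δ : ℝ, 0 < δ ∧
    ∀ q : ℤ, x + q * L ≠ 0 → δ ≤ |x + q * L| := by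
  have hL' : (0 : ℝ) < L := by exact_mod_cast hL
  obtain ⟨q0, hq0⟩ : ∃ q0 : ℤ, q0 = round (-x / L) := ⟨_, rfl⟩
  have key : ∀ q : ℤ, q ≠ q0 → (L : ℝ) / 2 ≤ |x + q * L| := by
    intro q hq
    have h1 := abs_sub_round (-x / L)
    rw [← hq0] at h1
    have h2 : (1 : ℝ) ≤ |(q : ℝ) - q0| := by
      have : (1 : ℤ) ≤ |q - q0| := Int.one_le_abs (sub_ne_zero.2 hq)
      exact_mod_cast this
    have h3 : |(q : ℝ) - q0| ≤ |(q : ℝ) - -x / L| + |-x / L - q0| := abs_sub_le _ _ _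
    have h4 : |x + q * L| = |(q : ℝ) - -x / L| * L := by
      rw [← abs_of_pos hL', ← abs_mul, abs_of_pos hL']
      congr 1
      field_simp
      ring
    rw [h4]
    nlinarith
  by_cases h0 : x + q0 * L = 0
  · refine ⟨L / 2, by positivity, fun q hq => key q ?_⟩
    rintro rfl
    exact hq h0
  · refine ⟨min (L / 2) |x + q0 * L|, lt_min (by positivity) (abs_pos.2 h0), fun q _ => ?_⟩
    by_cases hq : q = q0
    · rw [hq]
      exact min_le_right _ _
    · exact (min_le_left _ _).trans (key q hq)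

theorem exists_pos_le {A : Type} [Fintype A] {f : A → ℝ} (hf : ∀ a, 0 < f a) :
    ∃ δ : ℝ, 0 < δ ∧ ∀ a, δ ≤ f a := by
  rcases isEmpty_or_nonempty A with h | h
  · exact ⟨1, one_pos, fun a => (h.false a).elim⟩
  · obtain ⟨a, -, ha⟩ := Finset.exists_min_image Finset.univ f Finset.univ_nonempty
    exact ⟨f a, hf a, fun b => ha b (Finset.mem_univ _)⟩

theorem sep_ev {A ι : Type} [Fintype A] {l : Filter ι} {n : ι → ℕ} {L : ℕ} (hL : 0 < L) {s : A → ℝ}
    {b : ι → A → ℤ} (hn : Tendsto n l atTop)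
    (hb : ∀ a, Tendsto (fun i => (b i a : ℝ) / n i) l (𝓝 (s a)))
    (hs : ∀ a a' : A, ∀ q : ℤ, a ≠ a' ∨ q ≠ 0 → s a - s a' + q * L ≠ 0) :
    ∃ δ : ℝ, 0 < δ ∧ ∀ᶠ i in l, ∀ a a' : A, ∀ q : ℤ, a ≠ a' ∨ q ≠ 0 →
      δ * n i ≤ |(b i a : ℝ) - b i a' + q * ((n i * L : ℕ) : ℝ)| := by
  choose f hf hf' using fun p : A × A => dist_lat hL (s p.1 - s p.2)
  obtain ⟨δ, hδ, hδ'⟩ := exists_pos_le hf
  refine ⟨δ / 2, by positivity, ?_⟩
  have h1 : ∀ᶠ i in l, ∀ a, |(b i a : ℝ) / n i - s a| < δ / 4 := by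
    rw [eventually_all]
    intro a
    have := (hb a).eventually (Metric.ball_mem_nhds (s a) (by positivity : 0 < δ / 4))
    filter_upwards [this] with i hi
    rwa [Real.dist_eq] at hi
  filter_upwards [h1, hn.eventually (eventually_gt_atTop 0)] with i hi hni
  intro a a' q hq
  have hn0 : (0 : ℝ) < n i := by exact_mod_cast hni
  have h2 := (hδ' (a, a')).trans (hf' (a, a') q (hs a a' q hq))
  have h3 := hi a
  have h4 := hi a'
  have h5 : |(b i a : ℝ) - b i a' + q * ((n i * L : ℕ) : ℝ)| =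
      |(b i a : ℝ) / n i - b i a' / n i + q * L| * n i := by
    rw [← abs_of_pos hn0, ← abs_mul, abs_of_pos hn0]
    congr 1
    push_cast
    field_simp
  rw [h5]
  have h6 : δ / 2 ≤ |(b i a : ℝ) / n i - b i a' / n i + q * L| := by
    simp only at h2
    rw [abs_lt] at h3 h4
    rw [le_abs] at h2 ⊢
    rcases h2 with h2 | h2
    · left; linarith
    · right; linarith
  exact mul_le_mul_of_nonneg_right h6 hn0.le

/-! ## Positions -/

/-- corners of the polygon -/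
abbrev CorI (L : ℕ) (g : ℤ → ℤ × ℤ) : Type :=
  {a : ℕ // a ∈ (Finset.range L).filter fun a : ℕ => mm g a ≠ 2}

/-- corners and marks -/
def posA (n L : ℕ) (g : ℤ → ℤ × ℤ) {m : ℕ} (p : Fin m → ℤ) : CorI L g ⊕ Fin m → ℤ :=
  Sum.elim (fun a => (n : ℤ) * (a : ℕ)) p

/-- the set of the special positions -/
def posS (n L : ℕ) (g : ℤ → ℤ × ℤ) {m : ℕ} (p : Fin m → ℤ) : Finset ℤ :=
  Finset.univ.image (posA n L g p)

theorem posS_card (n L : ℕ) (g : ℤ → ℤ × ℤ) {m : ℕ} (p : Fin m → ℤ) :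
    (posS n L g p).card ≤ L + m := by
  refine Finset.card_image_le.trans ?_
  rw [Finset.card_univ, Fintype.card_sum, Fintype.card_fin, Fintype.card_coe]
  have := Finset.card_filter_le (Finset.range L) (fun a : ℕ => mm g a ≠ 2)
  rw [Finset.card_range] at this
  omega

/-- the kinds of the special positions -/
def kd (Ee Em : Finset ℤ) (j : ℤ → ℝ) (x : ℤ) : SK :=
  if x ∈ Ee then .e else if x ∈ Em then .em else .ver (j x)

theorem spc_of (hg : Cont P L g) {m r : ℕ} {p : Fin m → ℤ} {j : ℤ → ℝ}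
    {ψ : (ℤ × ℤ) × (ℤ × ℤ) → ℝ} {Ee Em : Finset ℤ}
    (hψ : ∀ k : ℤ, ψ (gr n g k, gr n g (k + 1)) - ψ (gr n g (k - 1), gr n g k) +
      (crs (gr n g) k : ℝ) * (Real.pi / 12) = j k)
    (hr : 2 ≤ r) (hrn : 16 * r ≤ n)
    (hsep : ∀ a a' : CorI L g ⊕ Fin m, ∀ q : ℤ, a ≠ a' ∨ q ≠ 0 →
      32 * (r : ℤ) ≤ |posA n L g p a - posA n L g p a' + q * ((n * L : ℕ) : ℤ)|)
    (hj : ∀ k, j k ≠ 0 → ∃ t, ∃ q : ℤ, k = p t + q * ((n * L : ℕ) : ℤ) ∨
      ((p t ∈ Ee ∨ p t ∈ Em) ∧ k = p t + 1 + q * ((n * L : ℕ) : ℤ)))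
    (hE : ∀ x ∈ Ee, (∃ t, x = p t) ∧ j x = -(Real.pi / 3) ∧ j (x + 1) = -(Real.pi / 3))
    (hM : ∀ x ∈ Em, (∃ t, x = p t) ∧ j x = Real.pi / 3 ∧ j (x + 1) = Real.pi / 3)
    (hv : ∀ t, p t ∉ Ee → p t ∉ Em → 0 ≤ j (p t) ∧ j (p t) ≤ Real.pi / 3) :
    Spc P n (n * L) (gr n g) j ψ (posS n L g p) (kd Ee Em j) r 1 := by
  have hn : 0 < n := by omega
  have hc : Cont (rf n P) (n * L) (gr n g) := CARf.cont_rf hg hn
  -- positions near a mark are not corners
  have hcor : ∀ t : Fin m, ∀ s : ℤ, |s| ≤ 1 → mm (gr n g) (p t + s) = 2 := by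
    intro t s hs
    by_contra hh
    obtain ⟨a, h1, h2, q, h3⟩ := mm_gr hg hn hh
    have h4 := hsep (Sum.inr t) (Sum.inl ⟨a, Finset.mem_filter.2 ⟨Finset.mem_range.2 h1, h2⟩⟩) (-q)
      (Or.inl (by simp))
    simp only [posA, Sum.elim_inl, Sum.elim_inr] at h4
    rw [show p t - (n : ℤ) * a + -q * ((n * L : ℕ) : ℤ) = -s by linarith, abs_neg] at h4
    omega
  have hj0 : ∀ a : CorI L g, j ((n : ℤ) * (a : ℕ)) = 0 := by
    intro a
    by_contra hh
    obtain ⟨t, q, h1⟩ := hj _ hh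
    have h4 := hsep (Sum.inr t) (Sum.inl a) q (Or.inl (by simp))
    simp only [posA, Sum.elim_inl, Sum.elim_inr] at h4
    rcases h1 with h1 | ⟨-, h1⟩
    · rw [show p t - (n : ℤ) * (a : ℕ) + q * ((n * L : ℕ) : ℤ) = 0 by linarith, abs_zero] at h4
      omega
    · rw [show p t - (n : ℤ) * (a : ℕ) + q * ((n * L : ℕ) : ℤ) = -1 by linarith, abs_neg,
        abs_one] at h4
      omega
  have hmemS : ∀ x, x ∈ posS n L g p ↔ (∃ a : CorI L g, x = (n : ℤ) * (a : ℕ)) ∨ ∃ t, x = p t := by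
    intro x
    unfold posS
    rw [Finset.mem_image]
    constructor
    · rintro ⟨a | t, -, rfl⟩
      · exact Or.inl ⟨a, rfl⟩
      · exact Or.inr ⟨t, rfl⟩
    · rintro (⟨a, rfl⟩ | ⟨t, rfl⟩)
      · exact ⟨Sum.inl a, Finset.mem_univ _, rfl⟩
      · exact ⟨Sum.inr t, Finset.mem_univ _, rfl⟩
  have hmk : ∀ x, (x ∈ Ee ∨ x ∈ Em) → SK.mk' (kd Ee Em j x) := by
    intro x hx
    unfold kd SK.mk'
    split_ifs with h1 h2
    · exact Or.inl rfl
    · exact Or.inr rfl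
    · tauto
  refine ⟨hc, hψ, ?_, hr, hrn, ?_, ?_, ?_, ?_, ?_⟩
  · intro a b T hT h1 h2
    obtain ⟨q, hq⟩ := gr_chord hg hn hT h1 h2
    exact ⟨q, by push_cast; exact hq⟩
  · intro k hk
    by_cases hm : mm (gr n g) k = 2
    · obtain ⟨t, q, h1⟩ := hj k (by tauto)
      refine ⟨p t, (hmemS _).2 (Or.inr ⟨t, rfl⟩), q, ?_⟩
      rcases h1 with h1 | ⟨h1, h2⟩
      · exact Or.inl h1
      · exact Or.inr ⟨hmk _ h1, h2⟩
    · obtain ⟨a, h1, h2, q, h3⟩ := mm_gr hg hn hm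
      exact ⟨(n : ℤ) * a, (hmemS _).2 (Or.inl ⟨⟨a, Finset.mem_filter.2
        ⟨Finset.mem_range.2 h1, h2⟩⟩, rfl⟩), q, Or.inl h3⟩
  · intro x hx y hy q hq
    unfold posS at hx hy
    rw [Finset.mem_image] at hx hy
    obtain ⟨a, -, rfl⟩ := hx
    obtain ⟨b, -, rfl⟩ := hy
    refine hsep a b q ?_
    rcases hq with hq | hq
    · exact Or.inl fun h => hq (by rw [h])
    · exact Or.inr hq
  · intro x hx J hJ
    unfold kd at hJ
    split_ifs at hJ with h1 h2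
    · injection hJ with hJ
      refine ⟨hJ, Or.inl (one_le_tJ ?_ ?_)⟩
      · rcases (hmemS x).1 hx with ⟨a, rfl⟩ | ⟨t, rfl⟩
        · rw [← hJ, hj0]
        · rw [← hJ]; exact (hv t h1 h2).1
      · rcases (hmemS x).1 hx with ⟨a, rfl⟩ | ⟨t, rfl⟩
        · rw [← hJ, hj0]; positivity
        · rw [← hJ]; exact (hv t h1 h2).2
  · intro x hx hK
    unfold kd at hK
    split_ifs at hK with h1 h2
    obtain ⟨⟨t, rfl⟩, h3, h4⟩ := hE x h1
    have h5 := hcor t 0 (by simp)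
    rw [add_zero] at h5
    exact ⟨h5, hcor t 1 (by simp), h3, h4⟩
  · intro x hx hK
    unfold kd at hK
    split_ifs at hK with h1 h2
    obtain ⟨⟨t, rfl⟩, h3, h4⟩ := hM x h2
    have h5 := hcor t 0 (by simp)
    rw [add_zero] at h5
    exact ⟨h5, hcor t 1 (by simp), h3, h4⟩

/-! ## Families -/

/-- jumps of a list of marks (positions mod `m`) -/
def jl (m : ℤ) (l : List (ℤ × ℝ)) (k : ℤ) : ℝ :=
  (l.map fun p => if m ∣ k - p.1 then p.2 else 0).sum

theorem jN_jl (M : ℕ) (b : ℤ) : jN M b = jl M [(b, Real.pi / 3)] := by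
  funext v
  unfold jN jl
  simp

theorem jP_jl (M : ℕ) (α : ℝ) (i i' : ℤ) :
    jP M α i i' = jl M [(i, (1 - α) * (Real.pi / 3)), (i', α * (Real.pi / 3))] := by
  funext v
  unfold jP jN jl
  simp [mul_ite]

theorem jX_jl (M : ℕ) (α : ℝ) (i j j' l k : ℤ) :
    jX M α i j j' l k = jl M [(i, Real.pi / 3), (j, (1 - α) * (Real.pi / 3)),
      (j', α * (Real.pi / 3)), (l, Real.pi / 3), (k, -(Real.pi / 3)), (k + 1, -(Real.pi / 3))] := by
  funext v
  unfold jX jN jl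
  simp only [List.map_cons, List.map_nil, List.sum_cons, List.sum_nil, add_zero, mul_ite, mul_zero]
  split_ifs <;> ring

theorem jl_ne {m : ℤ} {l : List (ℤ × ℝ)} {k : ℤ} (h : jl m l k ≠ 0) : ∃ p ∈ l, m ∣ k - p.1 := by
  by_contra hh
  push Not at hh
  apply h
  unfold jl
  apply List.sum_eq_zero
  intro x hx
  rw [List.mem_map] at hx
  obtain ⟨p, hp, rfl⟩ := hx
  rw [if_neg (hh p hp)]

theorem jl_cons {m : ℤ} {l : List (ℤ × ℝ)} {p : ℤ × ℝ} {k : ℤ} :
    jl m (p :: l) k = (if m ∣ k - p.1 then p.2 else 0) + jl m l k := by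
  unfold jl
  rw [List.map_cons, List.sum_cons]

theorem jl_mem {m : ℤ} {l : List (ℤ × ℝ)} (h : l.Pairwise fun p q => ¬ m ∣ p.1 - q.1)
    {p : ℤ × ℝ} (hp : p ∈ l) : jl m l p.1 = p.2 := by
  induction l with
  | nil => cases hp
  | cons p' l ih =>
    rw [List.pairwise_cons] at h
    rw [jl_cons]
    rcases List.mem_cons.1 hp with rfl | hp'
    · rw [if_pos (by rw [sub_self]; exact dvd_zero m)]
      have : jl m l p.1 = 0 := by
        by_contra hh
        obtain ⟨q, hq, h1⟩ := jl_ne hh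
        exact h.1 q hq h1
      rw [this, add_zero]
    · rw [if_neg, zero_add]
      · exact ih h.2 hp'
      · intro h1
        apply h.1 p hp'
        rw [← neg_sub]
        exact (dvd_neg).2 h1

/-- limit positions -/
def sA (L : ℕ) (g : ℤ → ℤ × ℤ) {m : ℕ} (s : Fin m → ℝ) : CorI L g ⊕ Fin m → ℝ :=
  Sum.elim (fun a => ((a : ℕ) : ℝ)) s

theorem sA_sep (hg : Cont P L g) {m : ℕ} {s : Fin m → ℝ} (h1 : Function.Injective s)
    (h2 : ∀ t t', s t < s t' + L) (h3 : ∀ t, Fl g (s t)) (a a' : CorI L g ⊕ Fin m) (q : ℤ)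
    (hq : a ≠ a' ∨ q ≠ 0) : sA L g s a - sA L g s a' + q * L ≠ 0 := by
  have hL : (0 : ℝ) < L := by exact_mod_cast hg.pos
  have key : ∀ (a : CorI L g) (t : Fin m) (q : ℤ), s t ≠ ((a : ℕ) : ℝ) + q * L := by
    intro a t q h4
    have h5 := a.2
    rw [Finset.mem_filter] at h5
    apply h5.2
    have h6 := fl_mm hg (h3 t) (k := (a : ℕ) + q * L) (by rw [h4]; push_cast; ring)
    rwa [mm_per hg] at h6
  intro h0
  rcases a with a | t <;> rcases a' with a' | t'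
  · simp only [sA, Sum.elim_inl] at h0
    have h4 := Finset.mem_range.1 (Finset.mem_filter.1 a.2).1
    have h5 := Finset.mem_range.1 (Finset.mem_filter.1 a'.2).1
    have h6 : ((a : ℕ) : ℤ) - (a' : ℕ) + q * L = 0 := by exact_mod_cast h0
    have h7 : q = 0 := by
      by_contra h8
      have h9 : (1 : ℤ) ≤ |q| := Int.one_le_abs h8
      rw [le_abs] at h9
      rcases h9 with h9 | h9
      · nlinarith
      · nlinarith
    subst h7
    rcases hq with hq | hq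
    · apply hq
      congr 1
      apply Subtype.ext
      omega
    · exact hq rfl
  · simp only [sA, Sum.elim_inl, Sum.elim_inr] at h0
    exact key a t' q (by linarith)
  · simp only [sA, Sum.elim_inl, Sum.elim_inr] at h0
    exact key a' t (-q) (by push_cast; linarith)
  · simp only [sA, Sum.elim_inr] at h0
    have h4 := h2 t t'
    have h5 := h2 t' t
    have h7 : q = 0 := by
      by_contra h8
      have h9 : (1 : ℝ) ≤ |(q : ℝ)| := by exact_mod_cast Int.one_le_abs h8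
      rw [le_abs] at h9
      rcases h9 with h9 | h9
      · nlinarith
      · nlinarith
    subst h7
    rcases hq with hq | hq
    · apply hq
      congr 1
      apply h1
      push_cast at h0
      linarith
    · exact hq rfl

theorem fam_core (hg : Cont P L g) {ι : Type} {l : Filter ι} {n : ι → ℕ} (hn : Tendsto n l atTop)
    {m : ℕ} {s : Fin m → ℝ} (h1 : Function.Injective s)
    (h2 : ∀ t t', s t < s t' + L) (h3 : ∀ t, Fl g (s t)) {p : ι → Fin m → ℤ}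
    (hp : ∀ t, Tendsto (fun i => (p i t : ℝ) / n i) l (𝓝 (s t))) :
    ∃ κ : ℝ, 0 < κ ∧ ∀ᶠ i in l, ∀ r : ℕ, 2 ≤ r → (r : ℝ) ≤ κ * n i → 16 * r ≤ n i ∧
      ∀ a a' : CorI L g ⊕ Fin m, ∀ q : ℤ, a ≠ a' ∨ q ≠ 0 →
        32 * (r : ℤ) ≤ |posA (n i) L g (p i) a - posA (n i) L g (p i) a' +
          q * ((n i * L : ℕ) : ℤ)| := by
  have hb : ∀ a : CorI L g ⊕ Fin m, Tendsto (fun i => (posA (n i) L g (p i) a : ℝ) / n i) l
      (𝓝 (sA L g s a)) := by
    rintro (a | t)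
    · simp only [posA, sA, Sum.elim_inl]
      refine (tendsto_const_nhds (x := ((a : ℕ) : ℝ))).congr' ?_
      filter_upwards [hn.eventually (eventually_gt_atTop 0)] with i hi
      have hn0 : (0 : ℝ) < n i := by exact_mod_cast hi
      push_cast
      field_simp
    · simp only [posA, sA, Sum.elim_inr]
      exact hp t
  obtain ⟨δ, hδ, hev⟩ := sep_ev (b := fun i => posA (n i) L g (p i)) hg.pos hn hb
    (sA_sep hg h1 h2 h3)
  refine ⟨min (δ / 32) (1 / 16), by positivity, ?_⟩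
  filter_upwards [hev] with i hi r hr hrn
  have hn0 : (0 : ℝ) ≤ n i := by positivity
  have h4 : (r : ℝ) ≤ δ / 32 * n i :=
    hrn.trans (mul_le_mul_of_nonneg_right (min_le_left _ _) hn0)
  have h5 : (r : ℝ) ≤ 1 / 16 * n i :=
    hrn.trans (mul_le_mul_of_nonneg_right (min_le_right _ _) hn0)
  refine ⟨?_, fun a a' q hq => ?_⟩
  · have : (16 * r : ℝ) ≤ n i := by linarith
    exact_mod_cast this
  · have h6 := hi a a' q hq
    have h7 : (32 * r : ℝ) ≤ |(posA (n i) L g (p i) a : ℝ) - posA (n i) L g (p i) a' +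
        q * ((n i * L : ℕ) : ℝ)| := by linarith
    exact_mod_cast h7

/-- two marks and their neighbours are different -/
theorem not_dvd_of_sep {m r : ℕ} {p : Fin m → ℤ} (hr : 2 ≤ r)
    (hsep : ∀ a a' : CorI L g ⊕ Fin m, ∀ q : ℤ, a ≠ a' ∨ q ≠ 0 →
      32 * (r : ℤ) ≤ |posA n L g p a - posA n L g p a' + q * ((n * L : ℕ) : ℤ)|)
    {t t' : Fin m} (h : t ≠ t') {x : ℤ} (hx : |x| ≤ 1) :
    ¬ ((n * L : ℕ) : ℤ) ∣ p t - (p t' + x) := by
  rintro ⟨c, hc⟩
  have h4 := hsep (Sum.inr t) (Sum.inr t') (-c) (Or.inl (by simpa using h))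
  simp only [posA, Sum.elim_inr] at h4
  rw [show p t - p t' + -c * ((n * L : ℕ) : ℤ) = x by linarith] at h4
  omega

/-- the period is large -/
theorem not_dvd_one {m r : ℕ} {p : Fin m → ℤ} (hr : 2 ≤ r)
    (hsep : ∀ a a' : CorI L g ⊕ Fin m, ∀ q : ℤ, a ≠ a' ∨ q ≠ 0 →
      32 * (r : ℤ) ≤ |posA n L g p a - posA n L g p a' + q * ((n * L : ℕ) : ℤ)|)
    (t : Fin m) {x : ℤ} (hx : |x| ≤ 1) (hx0 : x ≠ 0) : ¬ ((n * L : ℕ) : ℤ) ∣ x := by
  rintro ⟨c, hc⟩
  have hc0 : c ≠ 0 := by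
    rintro rfl
    exact hx0 (by rw [hc, mul_zero])
  have h4 := hsep (Sum.inr t) (Sum.inr t) c (Or.inr hc0)
  rw [sub_self, zero_add, show c * ((n * L : ℕ) : ℤ) = x by rw [hc]; ring] at h4
  omega

/-- the phases have the jumps `j` -/
abbrev Jmps (G : ℤ → ℤ × ℤ) (j : ℤ → ℝ) (ψ : (ℤ × ℤ) × (ℤ × ℤ) → ℝ) : Prop :=
  ∀ k : ℤ, ψ (G k, G (k + 1)) - ψ (G (k - 1), G k) + (crs G k : ℝ) * (Real.pi / 12) = j k

theorem nat_spc (hg : Cont P L g) {ι : Type} {l : Filter ι} {n : ι → ℕ} (hn : Tendsto n l atTop)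
    {s : ℝ} {b : ι → ℤ} (hs : Fl g s) (hb : Tendsto (fun i => (b i : ℝ) / n i) l (𝓝 s)) :
    ∃ κ : ℝ, 0 < κ ∧ ∀ᶠ i in l, ∀ r : ℕ, ∀ ψ, 2 ≤ r → (r : ℝ) ≤ κ * n i →
      Jmps (gr (n i) g) (jN (n i * L) (b i)) ψ →
      Spc P (n i) (n i * L) (gr (n i) g) (jN (n i * L) (b i)) ψ
        (posS (n i) L g ![b i]) (kd ∅ ∅ (jN (n i * L) (b i))) r 1 := by
  have hL : (0 : ℝ) < L := by exact_mod_cast hg.pos
  obtain ⟨κ, hκ, hev⟩ := fam_core hg hn (s := ![s]) (p := fun i => ![b i])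
    (Function.injective_of_subsingleton _)
    (by intro t t'; rw [Subsingleton.elim t t']; linarith)
    (by intro t; fin_cases t; exact hs) (by intro t; fin_cases t; exact hb)
  refine ⟨κ, hκ, ?_⟩
  filter_upwards [hev] with i hi r ψ hr hrn hψ
  obtain ⟨h1, h2⟩ := hi r hr hrn
  have hpw : List.Pairwise (fun p q : ℤ × ℝ => ¬ ((n i * L : ℕ) : ℤ) ∣ p.1 - q.1)
      [(b i, Real.pi / 3)] := by simp
  rw [jN_jl] at hψ ⊢
  refine spc_of hg hψ hr h1 h2 ?_ (by simp) (by simp) ?_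
  · intro k hk
    obtain ⟨p, hp, c, hc⟩ := jl_ne hk
    rw [List.mem_singleton] at hp
    subst hp
    refine ⟨0, c, Or.inl ?_⟩
    simp only at hc
    change k = b i + _
    linarith
  · intro t _ _
    fin_cases t
    have := jl_mem hpw (p := (b i, Real.pi / 3)) (by simp)
    simp only at this
    change 0 ≤ jl _ _ (b i) ∧ jl _ _ (b i) ≤ _
    rw [this]
    exact ⟨by positivity, le_rfl⟩

theorem pair_spc (hg : Cont P L g) {ι : Type} {l : Filter ι} {n : ι → ℕ} (hn : Tendsto n l atTop)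
    {α s s' : ℝ} {b b' : ι → ℤ} (hα : α ∈ Set.Icc (0 : ℝ) 1) (hs : Fl g s) (hs' : Fl g s')
    (h1 : s < s') (h2 : s' < s + L) (hb : Tendsto (fun i => (b i : ℝ) / n i) l (𝓝 s))
    (hb' : Tendsto (fun i => (b' i : ℝ) / n i) l (𝓝 s')) :
    ∃ κ : ℝ, 0 < κ ∧ ∀ᶠ i in l, ∀ r : ℕ, ∀ ψ, 2 ≤ r → (r : ℝ) ≤ κ * n i →
      Jmps (gr (n i) g) (jP (n i * L) α (b i) (b' i)) ψ →
      Spc P (n i) (n i * L) (gr (n i) g) (jP (n i * L) α (b i) (b' i)) ψ
        (posS (n i) L g ![b i, b' i]) (kd ∅ ∅ (jP (n i * L) α (b i) (b' i))) r 1 := by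
  have hL : (0 : ℝ) < L := by exact_mod_cast hg.pos
  obtain ⟨κ, hκ, hev⟩ := fam_core hg hn (s := ![s, s']) (p := fun i => ![b i, b' i])
    (by
      intro t t' h
      fin_cases t <;> fin_cases t' <;> simp at h ⊢ <;> linarith)
    (by
      intro t t'
      fin_cases t <;> fin_cases t' <;> simp <;> first | exact hg.pos | linarith)
    (by
      intro t
      fin_cases t
      · exact hs
      · exact hs')
    (by
      intro t
      fin_cases t
      · exact hb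
      · exact hb')
  refine ⟨κ, hκ, ?_⟩
  filter_upwards [hev] with i hi r ψ hr hrn hψ
  obtain ⟨h1, h2⟩ := hi r hr hrn
  have hpw : List.Pairwise (fun p q : ℤ × ℝ => ¬ ((n i * L : ℕ) : ℤ) ∣ p.1 - q.1)
      [(b i, (1 - α) * (Real.pi / 3)), (b' i, α * (Real.pi / 3))] := by
    have := not_dvd_of_sep hr h2 (t := 0) (t' := 1) (by decide) (x := 0) (by simp)
    simpa using this
  rw [jP_jl] at hψ ⊢
  have hπ : 0 < Real.pi / 3 := by positivity
  refine spc_of hg hψ hr h1 h2 ?_ (by simp) (by simp) ?_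
  · intro k hk
    obtain ⟨p, hp, c, hc⟩ := jl_ne hk
    simp only [List.mem_cons, List.not_mem_nil, or_false] at hp
    rcases hp with rfl | rfl
    · refine ⟨0, c, Or.inl ?_⟩
      simp only at hc
      change k = b i + _
      linarith
    · refine ⟨1, c, Or.inl ?_⟩
      simp only at hc
      change k = b' i + _
      linarith
  · intro t _ _
    fin_cases t
    · have := jl_mem hpw (p := (b i, (1 - α) * (Real.pi / 3))) (by simp)
      simp only at this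
      change 0 ≤ jl _ _ (b i) ∧ jl _ _ (b i) ≤ _
      rw [this]
      constructor <;> nlinarith [hα.1, hα.2]
    · have := jl_mem hpw (p := (b' i, α * (Real.pi / 3))) (by simp)
      simp only at this
      change 0 ≤ jl _ _ (b' i) ∧ jl _ _ (b' i) ≤ _
      rw [this]
      constructor <;> nlinarith [hα.1, hα.2]

/-- the list of the marks of the third family -/
abbrev l6 (α : ℝ) (b₁ b₂ b₂' b₃ k : ℤ) : List (ℤ × ℝ) :=
  [(b₁, Real.pi / 3), (b₂, (1 - α) * (Real.pi / 3)), (b₂', α * (Real.pi / 3)), (b₃, Real.pi / 3),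
    (k, -(Real.pi / 3)), (k + 1, -(Real.pi / 3))]

theorem full_spc (hg : Cont P L g) {ι : Type} {l : Filter ι} {n : ι → ℕ} (hn : Tendsto n l atTop)
    {α t₁ t₂ t₂' t₃ t₄ : ℝ} {b₁ b₂ b₂' b₃ k : ι → ℤ} (hα : α ∈ Set.Icc (0 : ℝ) 1)
    (hm : Marks5 L g t₁ t₂ t₂' t₃ t₄) (h₁ : Tendsto (fun i => (b₁ i : ℝ) / n i) l (𝓝 t₁))
    (h₂ : Tendsto (fun i => (b₂ i : ℝ) / n i) l (𝓝 t₂))
    (h₂' : Tendsto (fun i => (b₂' i : ℝ) / n i) l (𝓝 t₂'))
    (h₃ : Tendsto (fun i => (b₃ i : ℝ) / n i) l (𝓝 t₃))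
    (h₄ : Tendsto (fun i => (k i : ℝ) / n i) l (𝓝 t₄)) :
    ∃ κ : ℝ, 0 < κ ∧ ∀ᶠ i in l, ∀ r : ℕ, ∀ ψ, 2 ≤ r → (r : ℝ) ≤ κ * n i →
      Jmps (gr (n i) g) (jX (n i * L) α (b₁ i) (b₂ i) (b₂' i) (b₃ i) (k i)) ψ →
      Spc P (n i) (n i * L) (gr (n i) g) (jX (n i * L) α (b₁ i) (b₂ i) (b₂' i) (b₃ i) (k i)) ψ
        (posS (n i) L g ![b₁ i, b₂ i, b₂' i, b₃ i, k i])
        (kd {k i} ∅ (jX (n i * L) α (b₁ i) (b₂ i) (b₂' i) (b₃ i) (k i))) r 1 := by
  have hL : (0 : ℝ) < L := by exact_mod_cast hg.pos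
  obtain ⟨m1, m2, m3, m4, m5, f1, f2, f3, f4, f5⟩ := hm
  obtain ⟨κ, hκ, hev⟩ := fam_core hg hn (s := ![t₁, t₂, t₂', t₃, t₄])
    (p := fun i => ![b₁ i, b₂ i, b₂' i, b₃ i, k i])
    (by
      intro t t' h
      fin_cases t <;> fin_cases t' <;> simp at h ⊢ <;> linarith)
    (by
      intro t t'
      fin_cases t <;> fin_cases t' <;> simp <;> first | exact hg.pos | linarith)
    (by
      intro t
      fin_cases t
      · exact f1
      · exact f2
      · exact f3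
      · exact f4
      · exact f5)
    (by
      intro t
      fin_cases t
      · exact h₁
      · exact h₂
      · exact h₂'
      · exact h₃
      · exact h₄)
  refine ⟨κ, hκ, ?_⟩
  filter_upwards [hev] with i hi r ψ hr hrn hψ
  obtain ⟨h1, h2⟩ := hi r hr hrn
  have hπ : 0 < Real.pi / 3 := by positivity
  have hd := fun (t t' : Fin 5) (h : t ≠ t') (x : ℤ) (hx : |x| ≤ 1) =>
    not_dvd_of_sep hr h2 h hx
  rw [jX_jl] at hψ ⊢
  have hpw : List.Pairwise (fun p q : ℤ × ℝ => ¬ ((n i * L : ℕ) : ℤ) ∣ p.1 - q.1)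
      (l6 α (b₁ i) (b₂ i) (b₂' i) (b₃ i) (k i)) := by
    simp only [l6, List.pairwise_cons, List.mem_cons, List.not_mem_nil, or_false,
      forall_eq_or_imp, forall_eq, List.Pairwise.nil, and_true, IsEmpty.forall_iff, implies_true]
    refine ⟨⟨?_, ?_, ?_, ?_, ?_⟩, ⟨?_, ?_, ?_, ?_⟩, ⟨?_, ?_, ?_⟩, ⟨?_, ?_⟩, ?_⟩
    · simpa using hd 0 1 (by decide) 0 (by simp)
    · simpa using hd 0 2 (by decide) 0 (by simp)
    · simpa using hd 0 3 (by decide) 0 (by simp)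
    · simpa using hd 0 4 (by decide) 0 (by simp)
    · simpa using hd 0 4 (by decide) 1 (by simp)
    · simpa using hd 1 2 (by decide) 0 (by simp)
    · simpa using hd 1 3 (by decide) 0 (by simp)
    · simpa using hd 1 4 (by decide) 0 (by simp)
    · simpa using hd 1 4 (by decide) 1 (by simp)
    · simpa using hd 2 3 (by decide) 0 (by simp)
    · simpa using hd 2 4 (by decide) 0 (by simp)
    · simpa using hd 2 4 (by decide) 1 (by simp)
    · simpa using hd 3 4 (by decide) 0 (by simp)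
    · simpa using hd 3 4 (by decide) 1 (by simp)
    · have := not_dvd_one hr h2 4 (x := -1) (by simp) (by simp)
      rwa [show k i - (k i + 1) = -1 by ring]
  have v := fun p hp => jl_mem hpw (p := p) hp
  refine spc_of hg hψ hr h1 h2 ?_ ?_ (by simp) ?_
  · intro x hx
    obtain ⟨p, hp, c, hc⟩ := jl_ne hx
    simp only [List.mem_cons, List.not_mem_nil, or_false] at hp
    rcases hp with rfl | rfl | rfl | rfl | rfl | rfl
    · exact ⟨0, c, Or.inl (by simp only at hc; change x = b₁ i + _; linarith)⟩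
    · exact ⟨1, c, Or.inl (by simp only at hc; change x = b₂ i + _; linarith)⟩
    · exact ⟨2, c, Or.inl (by simp only at hc; change x = b₂' i + _; linarith)⟩
    · exact ⟨3, c, Or.inl (by simp only at hc; change x = b₃ i + _; linarith)⟩
    · exact ⟨4, c, Or.inl (by simp only at hc; change x = k i + _; linarith)⟩
    · refine ⟨4, c, Or.inr ⟨Or.inl (Finset.mem_singleton.2 rfl), ?_⟩⟩
      simp only at hc
      change x = k i + 1 + _
      linarith
  · intro x hx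
    rw [Finset.mem_singleton] at hx
    subst hx
    exact ⟨⟨4, rfl⟩, v (k i, -(Real.pi / 3)) (by simp), v (k i + 1, -(Real.pi / 3)) (by simp)⟩
  · intro t ht _
    fin_cases t
    · have := v (b₁ i, Real.pi / 3) (by simp)
      simp only at this
      change 0 ≤ jl _ _ (b₁ i) ∧ jl _ _ (b₁ i) ≤ _
      rw [this]
      constructor <;> linarith
    · have := v (b₂ i, (1 - α) * (Real.pi / 3)) (by simp)
      simp only at this
      change 0 ≤ jl _ _ (b₂ i) ∧ jl _ _ (b₂ i) ≤ _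
      rw [this]
      constructor <;> nlinarith [hα.1, hα.2]
    · have := v (b₂' i, α * (Real.pi / 3)) (by simp)
      simp only at this
      change 0 ≤ jl _ _ (b₂' i) ∧ jl _ _ (b₂' i) ≤ _
      rw [this]
      constructor <;> nlinarith [hα.1, hα.2]
    · have := v (b₃ i, Real.pi / 3) (by simp)
      simp only at this
      change 0 ≤ jl _ _ (b₃ i) ∧ jl _ _ (b₃ i) ≤ _
      rw [this]
      constructor <;> linarith
    · exact absurd (Finset.mem_singleton.2 rfl) ht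

/-- **the special positions of the three families** -/
theorem fam_spc (hg : Cont P L g) {ι : Type} {l : Filter ι} {n : ι → ℕ} (hn : Tendsto n l atTop)
    {j : ι → ℤ → ℝ} (hj : MFam L g l n j) :
    ∃ κ : ℝ, 0 < κ ∧ ∃ (S : ι → Finset ℤ) (K : ι → ℤ → SK), (∀ i, (S i).card ≤ L + 5) ∧
      ∀ᶠ i in l, ∀ r : ℕ, ∀ ψ, 2 ≤ r → (r : ℝ) ≤ κ * n i → Jmps (gr (n i) g) (j i) ψ →
        Spc P (n i) (n i * L) (gr (n i) g) (j i) ψ (S i) (K i) r 1 := by
  cases hj with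
  | nat s b hs hb =>
    obtain ⟨κ, hκ, h⟩ := nat_spc hg hn hs hb
    exact ⟨κ, hκ, _, _, fun i => (posS_card _ _ _ _).trans (by omega), h⟩
  | pair α s s' b b' hα hs hs' h1 h2 hb hb' =>
    obtain ⟨κ, hκ, h⟩ := pair_spc hg hn (Set.Ioo_subset_Icc_self hα) hs hs' h1 h2 hb hb'
    exact ⟨κ, hκ, _, _, fun i => (posS_card _ _ _ _).trans (by omega), h⟩
  | full α t₁ t₂ t₂' t₃ t₄ b₁ b₂ b₂' b₃ k hα hm h₁ h₂ h₂' h₃ h₄ =>
    obtain ⟨κ, hκ, h⟩ := full_spc hg hn (Set.Ioo_subset_Icc_self hα) hm h₁ h₂ h₂' h₃ h₄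
    exact ⟨κ, hκ, _, _, fun i => (posS_card _ _ _ _).trans (by omega), h⟩

/-- **the atlases of the three families** -/
theorem fam_atlas (hg : Cont P L g) {ι : Type} {l : Filter ι} {n : ι → ℕ} (hn : Tendsto n l atTop)
    {j : ι → ℤ → ℝ} (hj : MFam L g l n j) : ∃ κ : ℝ, 0 < κ ∧
      ∀ᶠ i in l, ∀ r : ℕ, ∀ ψ, 2 ≤ r → (r : ℝ) ≤ κ * n i → Jmps (gr (n i) g) (j i) ψ →
        Nonempty (Atlas ZQ (rf (n i) P) ψ (bS ZQ (rf (n i) P)) r (L + 5)
          (n i * L / r + 1 + 2 * (L + 5)) 1) := by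
  obtain ⟨κ, hκ, S, K, hS, h⟩ := fam_spc hg hn hj
  refine ⟨κ, hκ, ?_⟩
  filter_upwards [h] with i hi r ψ hr hrn hψ
  have := hS i
  exact ⟨polyAtlas (hi r ψ hr hrn hψ) (hS i) (by omega)⟩

end

end Pool.Agent.SixB.PolyAtl
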