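import Pool.Agent.Lib.SixB.S3AtlDefs
import Pool.Agent.Lib.SixB.CAEqui
import Pool.Agent.Lib.SixB.CARf
import Pool.Agent.Lib.SixB.S0Cont

/-!
# 6BD step 3, row R8, part 1: local geometry of a polygon along its contour

`D = rf n P`, contour `G` of period `N` (`Cont D N G`).
* `dd G k`: direction of the side `k`; `mm G k`, `oo G k`: number of quadrants and first quadrant of the wedge at the
  contour vertex `k` (`1` left turn, `2` straight, `3` right turn).
* `bS_iff_lside`: the boundary sides are the left sides.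
* `St G k ρ`: no corner at contour distance `< ρ` from `k`, except `k`.
* `ctChart`: the wedge chart at the contour vertex `k` of radius `ρ ≤ n`.
-/

set_option autoImplicit false

namespace Pool.Agent.SixB.PolyAtl

open Pool.Agent.Perc.Q Pool.Agent.Perc

noncomputable section

variable {P D : Finset (ℤ × ℤ)} {N n : ℕ} {G : ℤ → ℤ × ℤ}

theorem c4 (a : ZMod 4) : a = 0 ∨ a = 1 ∨ a = 2 ∨ a = 3 := by revert a; decide

theorem dz0 : dz 0 = (1, 0) := by decide
theorem dz1 : dz 1 = (0, 1) := by decide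
theorem dz2 : dz 2 = (-1, 0) := by decide
theorem dz3 : dz 3 = (0, -1) := by decide

/-- the unit face of the quadrant `q` at `v` -/
def qf (v : ℤ × ℤ) (q : ZMod 4) : ℤ × ℤ :=
  if q = 0 then (v.1, v.2) else if q = 1 then (v.1 - 1, v.2) else
    if q = 2 then (v.1 - 1, v.2 - 1) else (v.1, v.2 - 1)

theorem qf0 (v : ℤ × ℤ) : qf v 0 = (v.1, v.2) := rfl
theorem qf1 (v : ℤ × ℤ) : qf v 1 = (v.1 - 1, v.2) := rfl
theorem qf2 (v : ℤ × ℤ) : qf v 2 = (v.1 - 1, v.2 - 1) := rfl
theorem qf3 (v : ℤ × ℤ) : qf v 3 = (v.1, v.2 - 1) := rfl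

theorem lside_out {v : ℤ × ℤ} {a : ZMod 4} :
    LSide D v (v + dz a) ↔ qf v a ∈ D ∧ qf v (a + 3) ∉ D := by
  obtain ⟨x, y⟩ := v
  rcases c4 a with rfl | rfl | rfl | rfl
  · rw [dz0, show ((0 : ZMod 4) + 3) = 3 from by decide, qf0, qf3]
    unfold LSide
    simp
    intro h
    omega
  · rw [dz1, show ((1 : ZMod 4) + 3) = 0 from by decide, qf1, qf0]
    unfold LSide
    simp
    intro h
    omega
  · rw [dz2, show ((2 : ZMod 4) + 3) = 1 from by decide, qf2, qf1]
    unfold LSide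
    simp [sub_eq_add_neg]
  · rw [dz3, show ((3 : ZMod 4) + 3) = 2 from by decide, qf3, qf2]
    unfold LSide
    simp [sub_eq_add_neg]

theorem lside_in {v : ℤ × ℤ} {a : ZMod 4} :
    LSide D (v - dz a) v ↔ qf v (a + 1) ∈ D ∧ qf v (a + 2) ∉ D := by
  obtain ⟨x, y⟩ := v
  rcases c4 a with rfl | rfl | rfl | rfl
  · rw [dz0, show ((0 : ZMod 4) + 1) = 1 from by decide, show ((0 : ZMod 4) + 2) = 2 from by decide,
      qf1, qf2]
    unfold LSide
    simp
    omega
  · rw [dz1, show ((1 : ZMod 4) + 1) = 2 from by decide, show ((1 : ZMod 4) + 2) = 3 from by decide,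
      qf2, qf3]
    unfold LSide
    simp
    omega
  · rw [dz2, show ((2 : ZMod 4) + 1) = 3 from by decide, show ((2 : ZMod 4) + 2) = 0 from by decide,
      qf3, qf0]
    unfold LSide
    simp
    omega
  · rw [dz3, show ((3 : ZMod 4) + 1) = 0 from by decide, show ((3 : ZMod 4) + 2) = 1 from by decide,
      qf0, qf1]
    unfold LSide
    simp
    omega

theorem bS_iff_lside {p q : ℤ × ℤ} : (p, q) ∈ bS ZQ D ↔ LSide D p q := by
  rw [lside_sides, mem_bS, mem_dE]
  constructor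
  · rintro ⟨⟨f, hf, k, h | h⟩, h2⟩
    · refine ⟨⟨f, Finset.mem_coe.2 hf, k, h⟩, ?_⟩
      rintro ⟨f', hf', k', h'⟩
      refine h2 f' hf' k' ?_
      rw [← Prod.swap_swap (p, q), h']
      rfl
    · exact absurd h (h2 f (Finset.mem_coe.2 hf) k)
  · rintro ⟨⟨f, hf, k, h⟩, h2⟩
    exact ⟨⟨f, Finset.mem_coe.1 hf, k, Or.inl h⟩, fun f' hf' k' h' =>
      h2 ⟨f', hf', k', by rw [h']; rfl⟩⟩

/-! ## Directions -/

/-- direction of the side `k` of the contour -/
def dd (G : ℤ → ℤ × ℤ) (k : ℤ) : ZMod 4 :=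
  if G (k + 1) = G k + dz 0 then 0 else if G (k + 1) = G k + dz 1 then 1 else
    if G (k + 1) = G k + dz 2 then 2 else 3

/-- number of quadrants at the contour vertex `k` -/
def mm (G : ℤ → ℤ × ℤ) (k : ℤ) : ℕ := (dd G (k - 1) + 2 - dd G k).val

theorem dd_spec (h : Cont D N G) (k : ℤ) : G (k + 1) = G k + dz (dd G k) := by
  unfold dd
  split_ifs with h0 h1 h2
  · exact h0
  · exact h1
  · exact h2
  · rcases CARf.LSide.dir (h.side k) with h3 | h3 | h3 | h3
    · exact absurd (Prod.ext (by rw [dz0]; simp; omega) (by rw [dz0]; simp; omega)) h0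
    · exact absurd (Prod.ext (by rw [dz1]; simp; omega) (by rw [dz1]; simp; omega)) h1
    · exact absurd (Prod.ext (by rw [dz2]; simp; omega) (by rw [dz2]; simp; omega)) h2
    · exact Prod.ext (by rw [dz3]; simp; omega) (by rw [dz3]; simp; omega)

theorem dd_spec' (h : Cont D N G) (k : ℤ) : G (k - 1) = G k - dz (dd G (k - 1)) := by
  have := dd_spec h (k - 1)
  rw [sub_add_cancel] at this
  rw [this, add_sub_cancel_right]

theorem dd_per (h : Cont D N G) (k q : ℤ) : dd G (k + q * N) = dd G k := by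
  unfold dd
  rw [show k + q * N + 1 = k + 1 + q * N by ring, h.per_mul, h.per_mul]

theorem mm_per (h : Cont D N G) (k q : ℤ) : mm G (k + q * N) = mm G k := by
  unfold mm
  rw [show k + q * N - 1 = k - 1 + q * N by ring, dd_per h, dd_per h]

theorem face_out (h : Cont D N G) (k : ℤ) :
    qf (G k) (dd G k) ∈ D ∧ qf (G k) (dd G k + 3) ∉ D := by
  rw [← lside_out, ← dd_spec h]
  exact h.side k

theorem face_in (h : Cont D N G) (k : ℤ) :
    qf (G k) (dd G (k - 1) + 1) ∈ D ∧ qf (G k) (dd G (k - 1) + 2) ∉ D := by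
  rw [← lside_in, ← dd_spec' h]
  have := h.side (k - 1)
  rwa [sub_add_cancel] at this

theorem dd_ne (h : Cont D N G) (k : ℤ) : dd G k ≠ dd G (k - 1) + 2 := by
  intro hh
  have h1 := (face_out h k).1
  rw [hh] at h1
  exact (face_in h k).2 h1

theorem mm_rng (h : Cont D N G) (k : ℤ) : 1 ≤ mm G k ∧ mm G k ≤ 3 := by
  have h1 := dd_ne h k
  unfold mm
  revert h1
  generalize dd G k = a
  generalize dd G (k - 1) = b
  revert a b
  decide

theorem in_unique (h : Cont D N G) {k : ℤ} {p : ℤ × ℤ} (hp : LSide D p (G k)) : p = G (k - 1) := by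
  obtain ⟨j, h1, h2⟩ := h.all _ _ hp
  obtain ⟨q, hq⟩ := h.inj _ _ h2
  have h3 : j = k - 1 + q * N := by linarith
  rw [← h1, h3, h.per_mul]

theorem dz_inj {a b : ZMod 4} (h : dz a = dz b) : a = b := by
  revert a b
  decide

/-- the quadrants of the wedge are in the polygon -/
theorem quad_mem (h : Cont D N G) {k : ℤ} {q : ZMod 4} (hq : (q - dd G k).val < mm G k) :
    qf (G k) q ∈ D := by
  have key : ∀ a b q : ZMod 4, (q - a).val < (b + 2 - a).val →
      q = a ∨ q = b + 1 ∨ (b + 3 = a ∧ q = a + 1) := by decide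
  rcases key _ _ _ hq with h1 | h1 | ⟨h1, h2⟩
  · rw [h1]; exact (face_out h k).1
  · rw [h1]; exact (face_in h k).1
  · rw [h2]
    by_contra hh
    have h3 : LSide D (G k - dz (dd G k + 3)) (G k) := by
      rw [lside_in]
      refine ⟨?_, ?_⟩
      · have := (face_out h k).1
        rwa [show dd G k + 3 + 1 = dd G k by rw [add_assoc, show (3 : ZMod 4) + 1 = 0 from by decide,
          add_zero]]
      · rwa [show dd G k + 3 + 2 = dd G k + 1 by rw [add_assoc, show (3 : ZMod 4) + 2 = 1 from by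
          decide]]
    have h4 := in_unique h h3
    rw [dd_spec' h, sub_right_inj] at h4
    have h5 := dz_inj h4
    rw [← h1] at h5
    revert h5
    generalize dd G (k - 1) = b
    revert b
    decide

/-! ## Blocks -/

theorem dvd_of_ne (hn : 0 < n) {x : ℤ} (h : x / (n : ℤ) ≠ (x - 1) / n) : (n : ℤ) ∣ x := by
  have h0 : (0 : ℤ) < n := by exact_mod_cast hn
  have h1 := Int.mul_ediv_add_emod x n
  have h2 := Int.emod_nonneg x h0.ne'
  have h3 := Int.emod_lt_of_pos x h0
  rcases h2.eq_or_lt with h4 | h4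
  · exact Int.dvd_of_emod_eq_zero h4.symm
  · exfalso
    apply h
    symm
    exact (CARf.div_eq_iff' hn).2 ⟨by linarith, by linarith⟩

theorem div_up (hn : 0 < n) {x y : ℤ} (h : (n : ℤ) ∣ x) (h1 : x ≤ y) (h2 : y < x + n) :
    y / (n : ℤ) = x / n := by
  obtain ⟨c, rfl⟩ := h
  have h0 : (0 : ℤ) < n := by exact_mod_cast hn
  rw [Int.mul_ediv_cancel_left _ h0.ne']
  exact (CARf.div_eq_iff' hn).2 ⟨h1, h2⟩

theorem div_dn (hn : 0 < n) {x y : ℤ} (h : (n : ℤ) ∣ x) (h1 : x - n ≤ y) (h2 : y < x) :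
    y / (n : ℤ) = (x - 1) / n := by
  obtain ⟨c, rfl⟩ := h
  have h0 : (0 : ℤ) < n := by exact_mod_cast hn
  rw [(CARf.div_eq_iff' hn (a := c - 1)).2 ⟨by linarith, by linarith⟩,
    (CARf.div_eq_iff' hn (a := c - 1)).2 ⟨by linarith, by linarith⟩]

theorem mem_Bx {v f : ℤ × ℤ} {r : ℕ} :
    f ∈ Bx v r ↔ v.1 - r ≤ f.1 ∧ f.1 < v.1 + r ∧ v.2 - r ≤ f.2 ∧ f.2 < v.2 + r := by
  unfold Bx
  rw [Finset.mem_product, Finset.mem_Ico, Finset.mem_Ico]
  tauto

theorem mem_Wdg {m : ℕ} {o : ZMod 4} {v f : ℤ × ℤ} {r : ℕ} :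
    f ∈ Wdg m o v r ↔ (v.1 - r ≤ f.1 ∧ f.1 < v.1 + r ∧ v.2 - r ≤ f.2 ∧ f.2 < v.2 + r) ∧
      (quad v f - o).val < m := by
  unfold Wdg
  rw [Finset.mem_filter, mem_Bx]

theorem blk (hn : 0 < n) {v f : ℤ × ℤ} (h1 : (n : ℤ) ∣ v.1) (h2 : (n : ℤ) ∣ v.2)
    (hf : v.1 - n ≤ f.1 ∧ f.1 < v.1 + n ∧ v.2 - n ≤ f.2 ∧ f.2 < v.2 + n) :
    f ∈ rf n P ↔ qf v (quad v f) ∈ rf n P := by
  rw [CARf.mem_rf hn, CARf.mem_rf hn]
  unfold quad
  split_ifs with h3 h4 h4
  · rw [qf0, div_up hn h1 h3 hf.2.1, div_up hn h2 h4 hf.2.2.2]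
  · rw [qf3, div_up hn h1 h3 hf.2.1, div_dn hn h2 hf.2.2.1 (by omega)]
  · rw [qf1, div_dn hn h1 hf.1 (by omega), div_up hn h2 h4 hf.2.2.2]
  · rw [qf2, div_dn hn h1 hf.1 (by omega), div_dn hn h2 hf.2.2.1 (by omega)]

/-- a horizontal side of the refinement has a height divisible by `n`, a vertical side an abscissa -/
theorem dvd_hor (hn : 0 < n) {v : ℤ × ℤ} {a : ZMod 4} (h : LSide (rf n P) v (v + dz a))
    (ha : a = 0 ∨ a = 2) : (n : ℤ) ∣ v.2 := by
  rw [lside_out, CARf.mem_rf hn, CARf.mem_rf hn] at h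
  apply dvd_of_ne hn
  intro hh
  rcases ha with rfl | rfl
  · rw [show ((0 : ZMod 4) + 3) = 3 from by decide, qf0, qf3] at h
    exact h.2 (by rw [← hh]; exact h.1)
  · rw [show ((2 : ZMod 4) + 3) = 1 from by decide, qf2, qf1] at h
    exact h.2 (by simp only at h ⊢; rw [hh]; exact h.1)

theorem dvd_ver (hn : 0 < n) {v : ℤ × ℤ} {a : ZMod 4} (h : LSide (rf n P) v (v + dz a))
    (ha : a = 1 ∨ a = 3) : (n : ℤ) ∣ v.1 := by
  rw [lside_out, CARf.mem_rf hn, CARf.mem_rf hn] at h
  apply dvd_of_ne hn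
  intro hh
  rcases ha with rfl | rfl
  · rw [show ((1 : ZMod 4) + 3) = 0 from by decide, qf1, qf0] at h
    exact h.2 (by simp only at h ⊢; rw [hh]; exact h.1)
  · rw [show ((3 : ZMod 4) + 3) = 2 from by decide, qf3, qf2] at h
    exact h.2 (by simp only at h ⊢; rw [← hh]; exact h.1)

/-! ## Straight arms -/

/-- no corner at contour distance less than `ρ` from `k`, except `k` -/
def Stt (G : ℤ → ℤ × ℤ) (k : ℤ) (ρ : ℕ) : Prop :=
  ∀ i, k - ρ < i → i < k + ρ → i ≠ k → dd G i = dd G (i - 1)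

theorem Stt.mono {k : ℤ} {ρ ρ' : ℕ} (h : Stt G k ρ) (hρ : ρ' ≤ ρ) : Stt G k ρ' :=
  fun i h1 h2 h3 => h i (by omega) (by omega) h3

theorem Stt.out {k : ℤ} {ρ : ℕ} (h : Stt G k ρ) (t : ℕ) (ht : t < ρ) : dd G (k + t) = dd G k := by
  induction t with
  | zero => simp
  | succ t ih =>
    have h1 := h (k + (t + 1 : ℕ)) (by push_cast; omega) (by push_cast; omega) (by push_cast; omega)
    rw [h1, show k + ((t + 1 : ℕ) : ℤ) - 1 = k + t by push_cast; ring]
    exact ih (by omega)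

theorem Stt.inn {k : ℤ} {ρ : ℕ} (h : Stt G k ρ) (t : ℕ) (ht : t < ρ) :
    dd G (k - 1 - t) = dd G (k - 1) := by
  induction t with
  | zero => simp
  | succ t ih =>
    have h1 := h (k - 1 - t) (by omega) (by omega) (by omega)
    rw [show k - 1 - ((t + 1 : ℕ) : ℤ) = k - 1 - t - 1 by push_cast; ring, ← h1]
    exact ih (by omega)

theorem arm_out (hc : Cont D N G) {k : ℤ} {ρ : ℕ} (h : Stt G k ρ) (t : ℕ) (ht : t ≤ ρ) :
    G (k + t) = G k + (t : ℤ) • dz (dd G k) := by
  induction t with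
  | zero => simp
  | succ t ih =>
    have h1 := dd_spec hc (k + t)
    rw [h.out t (by omega), ih (by omega)] at h1
    rw [show k + ((t + 1 : ℕ) : ℤ) = k + t + 1 by push_cast; ring, h1]
    push_cast
    rw [add_smul, one_smul, add_assoc]

theorem arm_in (hc : Cont D N G) {k : ℤ} {ρ : ℕ} (h : Stt G k ρ) (t : ℕ) (ht : t ≤ ρ) :
    G (k - t) = G k - (t : ℤ) • dz (dd G (k - 1)) := by
  induction t with
  | zero => simp
  | succ t ih =>
    have h1 := dd_spec' hc (k - t)
    rw [show k - (t : ℤ) - 1 = k - 1 - t by ring, h.inn t (by omega), ih (by omega)] at h1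
    rw [show k - ((t + 1 : ℕ) : ℤ) = k - 1 - t by push_cast; ring, h1]
    push_cast
    rw [add_smul, one_smul, sub_sub]

theorem flat_arm (hc : Cont D N G) {k : ℤ} {ρ : ℕ} (h : Stt G k ρ) (hf : dd G (k - 1) = dd G k)
    {t : ℤ} (h1 : -(ρ : ℤ) ≤ t) (h2 : t ≤ ρ) : G (k + t) = G k + t • dz (dd G k) := by
  rcases le_total 0 t with h3 | h3
  · obtain ⟨s, rfl⟩ := Int.eq_ofNat_of_zero_le h3
    exact arm_out hc h s (by omega)
  · obtain ⟨s, hs⟩ := Int.eq_ofNat_of_zero_le (by omega : 0 ≤ -t)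
    have h4 := arm_in hc h s (by omega)
    rw [hf, ← hs] at h4
    rw [show k - -t = k + t by ring] at h4
    rw [h4, neg_smul, sub_neg_eq_add]

/-! ## The chart -/

theorem quad_flat {v f : ℤ × ℤ} {a : ZMod 4} (h : (quad v f - a).val < 2) :
    (a = 0 → v.2 ≤ f.2) ∧ (a = 1 → f.1 < v.1) ∧ (a = 2 → f.2 < v.2) ∧ (a = 3 → v.1 ≤ f.1) := by
  unfold quad at h
  refine ⟨?_, ?_, ?_, ?_⟩ <;> rintro rfl <;> by_contra hc <;> push Not at hc <;> split_ifs at h <;>
    first | omega | (revert h; decide)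

theorem wedge_sub (hc : Cont (rf n P) N G) (hn : 0 < n) {k : ℤ} {ρ : ℕ} (hρ : ρ ≤ n)
    (hs : Stt G k ρ) {f : ℤ × ℤ} (hf : f ∈ Wdg (mm G k) (dd G k) (G k) ρ) : f ∈ rf n P := by
  rw [mem_Wdg] at hf
  obtain ⟨hb, hq⟩ := hf
  have hside := hc.side
  by_cases hflat : dd G (k - 1) = dd G k
  · -- straight
    have hm : mm G k = 2 := by
      unfold mm
      rw [hflat, add_sub_cancel_left]
      rfl
    rw [hm] at hq
    obtain ⟨q0, q1, q2, q3⟩ := quad_flat hq
    have key : ∀ t : ℤ, -(ρ : ℤ) ≤ t → t < ρ →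
        LSide (rf n P) (G k + t • dz (dd G k)) (G k + t • dz (dd G k) + dz (dd G k)) := by
      intro t h1 h2
      have h3 := hside (k + t)
      rw [show k + t + 1 = k + (t + 1) by ring, flat_arm hc hs hflat h1 (by omega),
        flat_arm hc hs hflat (by omega) (by omega), add_smul, one_smul, ← add_assoc] at h3
      exact h3
    generalize hv : G k = v at *
    generalize dd G k = a at *
    rw [CARf.mem_rf hn]
    rcases c4 a with rfl | rfl | rfl | rfl
    · have h1 := key (f.1 - v.1) (by omega) (by omega)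
      have h2 := dvd_hor hn h1 (Or.inl rfl)
      rw [lside_out, qf0, CARf.mem_rf hn, dz0] at h1
      rw [dz0] at h2
      have h3 := h1.1
      have h4 := q0 rfl
      simp at h2 h3
      rw [div_up hn h2 h4 (by omega)]
      exact h3
    · have h1 := key (f.2 - v.2) (by omega) (by omega)
      have h2 := dvd_ver hn h1 (Or.inl rfl)
      rw [lside_out, qf1, CARf.mem_rf hn, dz1] at h1
      rw [dz1] at h2
      have h3 := h1.1
      have h4 := q1 rfl
      simp at h2 h3
      rw [div_dn hn h2 (by omega) h4]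
      exact h3
    · have h1 := key (v.1 - f.1 - 1) (by omega) (by omega)
      have h2 := dvd_hor hn h1 (Or.inr rfl)
      rw [lside_out, qf2, CARf.mem_rf hn, dz2] at h1
      rw [dz2] at h2
      have h3 := h1.1
      have h4 := q2 rfl
      simp at h2 h3
      rw [div_dn hn h2 (by omega) h4]
      have e : v.1 + (1 - (v.1 - f.1)) - 1 = f.1 := by ring
      rw [e] at h3
      exact h3
    · have h1 := key (v.2 - f.2 - 1) (by omega) (by omega)
      have h2 := dvd_ver hn h1 (Or.inr rfl)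
      rw [lside_out, qf3, CARf.mem_rf hn, dz3] at h1
      rw [dz3] at h2
      have h3 := h1.1
      have h4 := q3 rfl
      simp at h2 h3
      rw [div_up hn h2 h4 (by omega)]
      have e : v.2 + (1 - (v.2 - f.2)) - 1 = f.2 := by ring
      rw [e] at h3
      exact h3
  · -- corner
    have h1 : LSide (rf n P) (G k) (G k + dz (dd G k)) := by
      rw [← dd_spec hc]; exact hside k
    have h2 : LSide (rf n P) (G (k - 1)) (G (k - 1) + dz (dd G (k - 1))) := by
      rw [← dd_spec hc]; exact hside (k - 1)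
    have h3 : G (k - 1) = G k - dz (dd G (k - 1)) := dd_spec' hc k
    have h4 := dd_ne hc k
    have hdiv : (n : ℤ) ∣ (G k).1 ∧ (n : ℤ) ∣ (G k).2 := by
      rcases c4 (dd G k) with ha | ha | ha | ha <;> rcases c4 (dd G (k - 1)) with hb' | hb' | hb' | hb' <;>
        rw [ha, hb'] at h4 hflat <;>
        first
        | exact absurd rfl hflat
        | exact absurd (by decide) h4
        | skip
      all_goals first
        | (have h5 := dvd_hor hn h1 (by rw [ha]; decide)
           have h6 := dvd_ver hn h2 (by rw [hb']; decide)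
           rw [h3, hb'] at h6
           refine ⟨?_, h5⟩
           first
           | (rw [dz1] at h6; simpa using h6)
           | (rw [dz3] at h6; simpa using h6))
        | (have h5 := dvd_ver hn h1 (by rw [ha]; decide)
           have h6 := dvd_hor hn h2 (by rw [hb']; decide)
           rw [h3, hb'] at h6
           refine ⟨h5, ?_⟩
           first
           | (rw [dz0] at h6; simpa using h6)
           | (rw [dz2] at h6; simpa using h6))
    rw [blk hn hdiv.1 hdiv.2 (by omega)]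
    exact quad_mem hc hq

end

end Pool.Agent.SixB.PolyAtl
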