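import Pool.Agent.Lib.SixB.S0Z
import Pool.Agent.Lib.SixB.S3Conf
import Pool.Agent.Lib.SixB.S3Cell
import Pool.Agent.Lib.SixB.S0Plane

/-!
# 6BD step 3: weights of the arcs of a disc

* `val ψ x = ψ x.1 + x.2 π / 12` (`x` an entry of a boundary word); `Disc.wt_pair`: every arc of a disc joins
  an earlier entry `x` and a later entry `y` of the word, its weight is
  `2 cos (val y - val x - π / 6)`.
* `Disc.wt_of_pairwise`: a property of the weights from `List.Pairwise`; `pairwise_blocks`: words which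
  consist of blocks with constant `val`.
* `tw_nonneg`, `tw_zero`, `tw_third`: signs and values.
* `Disc.chart`: discs of the plane in a chart.
* `disc_chamber`: a rectangle with two tubes.
-/

set_option autoImplicit false
set_option linter.unusedSectionVars false

namespace Pool.Agent.SixB.Pos

open Pool.Agent.Perc.Q Relation

noncomputable section

section Words

variable {V Φ : Type} [DecidableEq V] [DecidableEq Φ]
variable {Q : QC V Φ} {F : Finset Φ} {ω : Φ → Bool} {a b c : V × V} {ψ : V × V → ℝ}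
  {G : Set (V × V)} {w : List ((V × V) × ℤ)}

/-- Phase and direction of an entry of a word. -/
def val {V : Type} (ψ : V × V → ℝ) (x : (V × V) × ℤ) : ℝ := ψ x.1 + (x.2 : ℝ) * (Real.pi / 12)

/-- Weight of an arc with the difference `J`. -/
def tw (J : ℝ) : ℝ := 2 * Real.cos (J - Real.pi / 6)

theorem tw_nonneg {J : ℝ} (h0 : -(Real.pi / 3) ≤ J) (h1 : J ≤ 2 * (Real.pi / 3)) : 0 ≤ tw J := by
  unfold tw
  have := Real.cos_nonneg_of_mem_Icc (x := J - Real.pi / 6)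
    ⟨by linarith, by linarith⟩
  linarith

theorem tw_zero : tw 0 = Real.sqrt 3 := by
  unfold tw
  rw [zero_sub, Real.cos_neg, Real.cos_pi_div_six]
  ring

theorem tw_third : tw (Real.pi / 3) = Real.sqrt 3 := by
  unfold tw
  rw [show Real.pi / 3 - Real.pi / 6 = Real.pi / 6 by ring, Real.cos_pi_div_six]
  ring

/-- **Arcs of a disc.** -/
theorem _root_.Pool.Agent.SixB.Disc.wt_pair (h : Disc Q (F : Set Φ) G w)
    (hw : ∀ e ∈ w.map Prod.fst, Ini Q (F : Set Φ) e) (ω : Φ → Bool) (ψ : V × V → ℝ)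
    (ha : a ∈ bS Q F) :
    ∃ i j : ℕ, ∃ (hi : i < w.length) (hj : j < w.length), i < j ∧
      wt Q F ω ψ a = tw (val ψ w[j] - val ψ w[i]) ∧
      ((a = w[i].1 ∧ mate Q F ω a = w[j].1) ∨ (a = w[j].1 ∧ mate Q F ω a = w[i].1)) := by
  obtain ⟨M, h1, -, h3⟩ := h.mates hw ω
  have key : ∀ i (hi : i < w.length) (hj : M i < w.length), i < M i →
      mate Q F ω (w[i].1) = w[M i].1 ∧
        wt Q F ω ψ (w[i].1) = tw (val ψ w[M i] - val ψ w[i]) := by
    intro i hi hj hij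
    have h4 := h3 i w[i] w[M i] (List.getElem?_eq_getElem hi) (List.getElem?_eq_getElem hj)
    rw [if_pos hij] at h4
    refine ⟨h4.1, ?_⟩
    unfold wt tw val
    rw [h4.1, h4.2]
    congr 2
    push_cast
    ring
  obtain ⟨x, hx, hxa⟩ := List.mem_map.mp ((h.mem_bS hw).mp ha)
  obtain ⟨i, hi, hix⟩ := List.getElem_of_mem hx
  have hia : w[i].1 = a := by rw [hix, hxa]
  obtain ⟨h4, h5, h6⟩ := h1 i hi
  rcases Nat.lt_or_gt_of_ne h5 with h7 | h7
  · obtain ⟨h8, h9⟩ := key (M i) h4 (by rw [h6]; exact hi) (by rw [h6]; exact h7)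
    simp only [h6] at h8 h9
    have hb : w[M i].1 ∈ bS Q F := (h.mem_bS hw).mpr (List.mem_map_of_mem (List.getElem_mem h4))
    have h10 : mate Q F ω a = w[M i].1 := by
      rw [← hia, ← h8, mate_mate hb]
    refine ⟨M i, i, h4, hi, h7, ?_, Or.inr ⟨hia.symm, h10⟩⟩
    rw [← h9, ← h10, wt_mate ψ ha]
  · obtain ⟨h8, h9⟩ := key i hi h4 h7
    rw [hia] at h8 h9
    exact ⟨i, M i, hi, h4, h7, h9, Or.inl ⟨hia.symm, h8⟩⟩

/-- A property of all weights of a disc. -/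
theorem _root_.Pool.Agent.SixB.Disc.wt_of_pairwise (h : Disc Q (F : Set Φ) G w)
    (hw : ∀ e ∈ w.map Prod.fst, Ini Q (F : Set Φ) e) {p : ℝ → Prop}
    (hp : w.Pairwise fun x y => p (tw (val ψ y - val ψ x))) (ha : a ∈ bS Q F) :
    p (wt Q F ω ψ a) := by
  obtain ⟨i, j, hi, hj, hij, h1, -⟩ := h.wt_pair hw ω ψ ha
  rw [h1]
  exact List.pairwise_iff_getElem.mp hp i j hi hj hij

/-- Words which consist of blocks with constant `val`. -/
theorem pairwise_blocks {V : Type} {ψ : V × V → ℝ} {p : ℝ → Prop}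
    (L : List (List ((V × V) × ℤ) × ℝ)) (h1 : ∀ s ∈ L, ∀ x ∈ s.1, val ψ x = s.2)
    (h0 : p (tw 0)) (h2 : L.Pairwise fun s t => p (tw (t.2 - s.2))) :
    (L.map Prod.fst).flatten.Pairwise fun x y => p (tw (val ψ y - val ψ x)) := by
  rw [List.pairwise_flatten]
  constructor
  · intro l hl
    obtain ⟨s, hs, rfl⟩ := List.mem_map.mp hl
    refine List.pairwise_of_forall_mem_list fun x hx y hy => ?_
    rw [h1 s hs x hx, h1 s hs y hy, sub_self]
    exact h0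
  · rw [List.pairwise_map]
    refine h2.imp_of_mem fun {s t} hs ht hst => ?_
    intro x hx y hy
    rw [h1 s hs x hx, h1 t ht y hy]
    exact hst

end Words

/-! ## Discs in a chart -/

section Charts

variable {V Φ : Type} {Q : QC V Φ} {F : Set (ℤ × ℤ)} {G : Set ((ℤ × ℤ) × (ℤ × ℤ))}
  {w : List (((ℤ × ℤ) × (ℤ × ℤ)) × ℤ)} {φ : ℤ × ℤ → Φ} {pos : ℤ × ℤ → V} {R : Set (ℤ × ℤ)}

theorem chart_sd (h : Chart Q φ pos R) {f : ℤ × ℤ} (hf : f ∈ R) (k : ZMod 4) :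
    sd Q (φ f) k = Prod.map pos pos (sd ZQ f k) := by
  obtain ⟨x, y⟩ := f
  have e0 := h.c0 _ hf
  have e1 := h.c1 _ hf
  have e2 := h.c2 _ hf
  have e3 := h.c3 _ hf
  have hk : k = 0 ∨ k = 1 ∨ k = 2 ∨ k = 3 := by revert k; decide
  rcases hk with rfl | rfl | rfl | rfl
  · rw [sd_ZQ0]
    show (Q.c (φ (x, y)) 0, Q.c (φ (x, y)) 1) = _
    rw [e0, e1]; rfl
  · rw [sd_ZQ1]
    show (Q.c (φ (x, y)) 1, Q.c (φ (x, y)) 2) = _
    rw [e1, e2]; rfl
  · rw [sd_ZQ2]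
    show (Q.c (φ (x, y)) 2, Q.c (φ (x, y)) 3) = _
    rw [e2, e3]; rfl
  · rw [sd_ZQ3]
    show (Q.c (φ (x, y)) 3, Q.c (φ (x, y)) 0) = _
    rw [e3, e0]; rfl

/-- **A disc of the plane in a chart.** -/
theorem disc_chart (h : Chart Q φ pos R) (hD : Disc ZQ F G w) (hF : F ⊆ R) :
    Disc Q (φ '' F) (Prod.map pos pos '' G) (w.map (Prod.map (Prod.map pos pos) id)) := by
  induction hD with
  | face f k a =>
    have hf : f ∈ R := hF (Set.mem_singleton f)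
    rw [Set.image_singleton, Set.image_empty]
    have e : ∀ k, (Prod.map pos pos (sd ZQ f k)) = sd Q (φ f) k := fun k => (chart_sd h hf k).symm
    show Disc Q {φ f} ∅ [(Prod.map pos pos (sd ZQ f k), a), (Prod.map pos pos (sd ZQ f (k + 1)), a + 1),
      (Prod.map pos pos (sd ZQ f (k + 2)), a + 2), (Prod.map pos pos (sd ZQ f (k + 3)), a + 3)]
    rw [e, e, e, e]
    exact Disc.face _ _ _
  | @join F F' G G' u v e a h1 h2 hd ih1 ih2 =>
    have e1 := ih1 (fun x hx => hF (Or.inl hx))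
    have e2 := ih2 (fun x hx => hF (Or.inr hx))
    rw [Set.image_union, Set.image_union, Set.image_union, List.map_append]
    have e3 : (Prod.map pos pos '' {e, e.swap} : Set (V × V)) =
        {Prod.map pos pos e, (Prod.map pos pos e).swap} := by
      rw [Set.image_pair]; rfl
    rw [e3]
    rw [List.map_append] at e1
    refine Disc.join e1 e2 ?_
    rw [Set.disjoint_left]
    rintro _ ⟨x, hx, rfl⟩ ⟨y, hy, hxy⟩
    have := h.inj y (hF (Or.inr hy)) x (hF (Or.inl hx)) hxy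
    rw [this] at hy
    exact Set.disjoint_left.mp hd hx hy
  | @zip F G u v e a h1 ih =>
    have e1 := ih hF
    rw [Set.image_union, List.map_append]
    have e3 : (Prod.map pos pos '' {e, e.swap} : Set (V × V)) =
        {Prod.map pos pos e, (Prod.map pos pos e).swap} := by
      rw [Set.image_pair]; rfl
    rw [e3]
    rw [List.map_append] at e1
    exact Disc.zip e1
  | @rot F G u e a h1 ih =>
    have e1 := ih hF
    rw [List.map_append]
    exact Disc.rot e1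
  | @shift F G u c h1 ih =>
    have e1 := Disc.shift c (ih hF)
    refine e1.cast rfl rfl ?_
    rw [List.map_map, List.map_map]
    rfl

end Charts

/-! ## A rectangle with two tubes -/

section Chamber

variable {F : Set (ℤ × ℤ)} {G : Set ((ℤ × ℤ) × (ℤ × ℤ))} {u v : List (((ℤ × ℤ) × (ℤ × ℤ)) × ℤ)}
  {xl x₀ x₁ xr y₀ y₁ y₂ y₃ : ℤ}

theorem segm_split (pos : ℤ × ℤ → ℤ × ℤ) (p : ℤ × ℤ) (a : ℤ) {m n k : ℕ} (h : k = m + n) :
    segm pos p a k = segm pos p a m ++ segm pos (p + (m : ℤ) • dv a) a n := by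
  rw [h, segm_add]

theorem segm_lft_neg (pos : ℤ × ℤ → ℤ × ℤ) (p : ℤ × ℤ) (a : ℤ) (n : ℕ) :
    SixB.lft (-4) (segm pos p a n) = segm pos p (a - 4) n := by
  have : segm pos p a n = SixB.lft 4 (segm pos p (a - 4) n) := by
    rw [segm_lft, sub_add_cancel]
  rw [this, lft_lft]
  norm_num [lft_zero]

/-- Pasting a rectangle along a vertical segment, on the right. -/
theorem paste_right (h : Disc ZQ F G (u ++ (segm id (x₁, y₁) 1 (y₂ - y₁).toNat ++ v)))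
    (hd : Disjoint F (RS x₁ xr y₁ y₂)) (hx : x₁ < xr) (hy : y₁ < y₂) :
    ∃ G', Disc ZQ (F ∪ RS x₁ xr y₁ y₂) G' (u ++ (segm id (x₁, y₁) 0 (xr - x₁).toNat ++
      (segm id (xr, y₁) 1 (y₂ - y₁).toNat ++ (segm id (xr, y₂) 2 (xr - x₁).toNat ++ v)))) := by
  have h1 := disc_RS hx hy
  unfold rectW at h1
  have h2 : Disc ZQ (RS x₁ xr y₁ y₂) (Glued ZQ (RS x₁ xr y₁ y₂))
      ((segm id (x₁, y₁) 0 (xr - x₁).toNat ++ (segm id (xr, y₁) 1 (y₂ - y₁).toNat ++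
        segm id (xr, y₂) 2 (xr - x₁).toNat)) ++ segm id (x₁, y₂) 3 (y₂ - y₁).toNat) :=
    h1.cast rfl rfl (by simp)
  have h3 := (Disc.rots h2).lft (-4)
  obtain ⟨m, hm⟩ : ∃ m : ℕ, (y₂ - y₁).toNat = m + 1 := ⟨(y₂ - y₁).toNat - 1, by omega⟩
  rw [hm] at h h3 ⊢
  refine Disc.seg_paste (u' := []) (v' := segm id (x₁, y₁) 0 (xr - x₁).toNat ++
    (segm id (xr, y₁) 1 (m + 1) ++ segm id (xr, y₂) 2 (xr - x₁).toNat)) h
    (h3.cast rfl rfl ?_) hd |>.imp fun G' hG => hG.cast rfl rfl ?_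
  · have e1 : ((x₁, y₁) : ℤ × ℤ) + ((m + 1 : ℕ) : ℤ) • dv 1 = (x₁, y₂) := by
      rw [dv1]
      ext
      · simp
      · simp; omega
    rw [e1, lft_append, lft_lft, show (4 : ℤ) + -4 = 0 by norm_num, lft_zero, segm_lft_neg]
    norm_num
  · rw [lft_nil]
    simp

/-- Pasting a rectangle along a vertical segment, on the left. -/
theorem paste_left (h : Disc ZQ F G (u ++ (segm id (x₀, y₂) 3 (y₂ - y₁).toNat ++ v)))
    (hd : Disjoint F (RS xl x₀ y₁ y₂)) (hx : xl < x₀) (hy : y₁ < y₂) :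
    ∃ G', Disc ZQ (F ∪ RS xl x₀ y₁ y₂) G' (u ++ (segm id (x₀, y₂) 2 (x₀ - xl).toNat ++
      (segm id (xl, y₂) 3 (y₂ - y₁).toNat ++ (segm id (xl, y₁) 4 (x₀ - xl).toNat ++ v)))) := by
  have h1 := disc_RS hx hy
  unfold rectW at h1
  obtain ⟨m, hm⟩ : ∃ m : ℕ, (y₂ - y₁).toNat = m + 1 := ⟨(y₂ - y₁).toNat - 1, by omega⟩
  rw [hm] at h h1 ⊢
  refine Disc.seg_paste (u' := segm id (xl, y₁) 0 (x₀ - xl).toNat)
    (v' := segm id (x₀, y₂) 2 (x₀ - xl).toNat ++ segm id (xl, y₂) 3 (m + 1)) h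
    (h1.cast rfl rfl ?_) hd |>.imp fun G' hG => hG.cast rfl rfl ?_
  · have e1 : ((x₀, y₂) : ℤ × ℤ) + ((m + 1 : ℕ) : ℤ) • dv 3 = (x₀, y₁) := by
      rw [dv3]
      ext
      · simp
      · simp; omega
    rw [e1]
    norm_num
  · rw [segm_lft]
    simp

/-- The rectangle `[x₀, x₁] × [y₀, y₃]` with the tubes `[xl, x₀] × [y₁, y₂]` and `[x₁, xr] × [y₁, y₂]`. -/
def chS (xl x₀ x₁ xr y₀ y₁ y₂ y₃ : ℤ) : Set (ℤ × ℤ) :=
  (RS x₀ x₁ y₀ y₃ ∪ RS x₁ xr y₁ y₂) ∪ RS xl x₀ y₁ y₂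

/-- Its boundary word. -/
def chW (xl x₀ x₁ xr y₀ y₁ y₂ y₃ : ℤ) : List (((ℤ × ℤ) × (ℤ × ℤ)) × ℤ) :=
  segm id (x₀, y₀) 0 (x₁ - x₀).toNat ++ (segm id (x₁, y₀) 1 (y₁ - y₀).toNat ++
    (segm id (x₁, y₁) 0 (xr - x₁).toNat ++ (segm id (xr, y₁) 1 (y₂ - y₁).toNat ++
      (segm id (xr, y₂) 2 (xr - x₁).toNat ++ (segm id (x₁, y₂) 1 (y₃ - y₂).toNat ++
        (segm id (x₁, y₃) 2 (x₁ - x₀).toNat ++ (segm id (x₀, y₃) 3 (y₃ - y₂).toNat ++
          (segm id (x₀, y₂) 2 (x₀ - xl).toNat ++ (segm id (xl, y₂) 3 (y₂ - y₁).toNat ++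
            (segm id (xl, y₁) 4 (x₀ - xl).toNat ++
              segm id (x₀, y₁) 3 (y₁ - y₀).toNat))))))))))

theorem disc_chamber (hl : xl < x₀) (h01 : x₀ < x₁) (hr : x₁ < xr) (h1 : y₀ ≤ y₁) (h2 : y₁ < y₂)
    (h3 : y₂ ≤ y₃) : ∃ G, Disc ZQ (chS xl x₀ x₁ xr y₀ y₁ y₂ y₃) G
      (chW xl x₀ x₁ xr y₀ y₁ y₂ y₃) := by
  have e := disc_RS (x₀ := x₀) (x₁ := x₁) (y₀ := y₀) (y₁ := y₃) h01 (by omega)
  unfold rectW at e
  have s1 : segm id ((x₁, y₀) : ℤ × ℤ) 1 (y₃ - y₀).toNat = segm id (x₁, y₀) 1 (y₁ - y₀).toNat ++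
      (segm id (x₁, y₁) 1 (y₂ - y₁).toNat ++ segm id (x₁, y₂) 1 (y₃ - y₂).toNat) := by
    rw [segm_split id _ _ (m := (y₁ - y₀).toNat) (n := (y₃ - y₁).toNat) (by omega),
      segm_split id _ _ (m := (y₂ - y₁).toNat) (n := (y₃ - y₂).toNat) (k := (y₃ - y₁).toNat)
        (by omega)]
    have e1 : ((x₁, y₀) : ℤ × ℤ) + (((y₁ - y₀).toNat : ℕ) : ℤ) • dv 1 = (x₁, y₁) := by
      rw [dv1]
      ext
      · simp
      · simp; omega
    have e2 : ((x₁, y₁) : ℤ × ℤ) + (((y₂ - y₁).toNat : ℕ) : ℤ) • dv 1 = (x₁, y₂) := by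
      rw [dv1]
      ext
      · simp
      · simp; omega
    rw [e1, e2]
  have s2 : segm id ((x₀, y₃) : ℤ × ℤ) 3 (y₃ - y₀).toNat = segm id (x₀, y₃) 3 (y₃ - y₂).toNat ++
      (segm id (x₀, y₂) 3 (y₂ - y₁).toNat ++ segm id (x₀, y₁) 3 (y₁ - y₀).toNat) := by
    rw [segm_split id _ _ (m := (y₃ - y₂).toNat) (n := (y₂ - y₀).toNat) (by omega),
      segm_split id _ _ (m := (y₂ - y₁).toNat) (n := (y₁ - y₀).toNat) (k := (y₂ - y₀).toNat)
        (by omega)]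
    have e1 : ((x₀, y₃) : ℤ × ℤ) + (((y₃ - y₂).toNat : ℕ) : ℤ) • dv 3 = (x₀, y₂) := by
      rw [dv3]
      ext
      · simp
      · simp; omega
    have e2 : ((x₀, y₂) : ℤ × ℤ) + (((y₂ - y₁).toNat : ℕ) : ℤ) • dv 3 = (x₀, y₁) := by
      rw [dv3]
      ext
      · simp
      · simp; omega
    rw [e1, e2]
  rw [s1, s2] at e
  obtain ⟨G1, e1⟩ := paste_right (u := segm id (x₀, y₀) 0 (x₁ - x₀).toNat ++
    segm id (x₁, y₀) 1 (y₁ - y₀).toNat) (v := segm id (x₁, y₂) 1 (y₃ - y₂).toNat ++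
      (segm id (x₁, y₃) 2 (x₁ - x₀).toNat ++ (segm id (x₀, y₃) 3 (y₃ - y₂).toNat ++
      (segm id (x₀, y₂) 3 (y₂ - y₁).toNat ++ segm id (x₀, y₁) 3 (y₁ - y₀).toNat))))
    (x₁ := x₁) (xr := xr) (y₁ := y₁) (y₂ := y₂) (e.cast rfl rfl (by simp)) (by
      rw [Set.disjoint_left]
      intro f hf hf'
      have := hf.2.1
      have := hf'.1
      omega) hr h2
  obtain ⟨G2, e2⟩ := paste_left (u := segm id (x₀, y₀) 0 (x₁ - x₀).toNat ++
    (segm id (x₁, y₀) 1 (y₁ - y₀).toNat ++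
    (segm id (x₁, y₁) 0 (xr - x₁).toNat ++ (segm id (xr, y₁) 1 (y₂ - y₁).toNat ++
      (segm id (xr, y₂) 2 (xr - x₁).toNat ++ (segm id (x₁, y₂) 1 (y₃ - y₂).toNat ++
        (segm id (x₁, y₃) 2 (x₁ - x₀).toNat ++ segm id (x₀, y₃) 3 (y₃ - y₂).toNat)))))))
    (v := segm id (x₀, y₁) 3 (y₁ - y₀).toNat)
    (xl := xl) (x₀ := x₀) (y₁ := y₁) (y₂ := y₂) (e1.cast rfl rfl (by simp)) (by
      rw [Set.disjoint_left]
      rintro f (hf | hf) hf'
      · have := hf.1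
        have := hf'.2.1
        omega
      · have := hf.1
        have := hf'.2.1
        omega) hl h2
  refine ⟨G2, e2.cast rfl rfl ?_⟩
  unfold chW
  simp

end Chamber

end

end Pool.Agent.SixB.Pos
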