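import Pool.Agent.Lib.SixB.S3PosCh
import Pool.Agent.Lib.SixB.S3Join

/-!
# 6BD step 3: the exterior piece

* `ext_wt`: an arc outside a solid with boundary word `w` whose ends are sides of the solid has a nonnegative weight, if
  the values `Ψ x.1.swap + (x.2 - 2) π / 12` increase along `w` by at most `π / 3`.
* `disc_IS`: the boundary word of a rectangle with two notches.
* `PE.ext_nonneg`: the product of the weights of the arcs of the exterior piece.
-/

set_option autoImplicit false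
set_option linter.unusedSectionVars false

namespace Pool.Agent.SixB.Pos

open Pool.Agent.SixB Pool.Agent.SixB.Gd Pool.Agent.SixB.Join Pool.Agent.Perc Pool.Agent.Perc.Q Relation

noncomputable section

/-- value of an entry of the word of the solid, seen from outside -/
def vx (Ψ : (ℤ × ℤ) × (ℤ × ℤ) → ℝ) (x : ((ℤ × ℤ) × (ℤ × ℤ)) × ℤ) : ℝ :=
  Ψ x.1.swap + ((x.2 : ℝ) - 2) * (Real.pi / 12)

theorem ext_cos {D s : ℝ} (h0 : 0 ≤ D) (h1 : D ≤ Real.pi / 3) (hs : s = D - Real.pi / 6 + Real.pi / 3 ∨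
    s = D - Real.pi / 6 - Real.pi / 3) : 0 ≤ 2 * Real.cos s := by
  have hpi := Real.pi_pos
  have : 0 ≤ Real.cos s := by
    rcases hs with rfl | rfl
    · exact Real.cos_nonneg_of_mem_Icc ⟨by linarith, by linarith⟩
    · exact Real.cos_nonneg_of_mem_Icc ⟨by linarith, by linarith⟩
  linarith

/-- **Weights outside a solid.** -/
theorem ext_wt {O : Set (ℤ × ℤ)} {P : Finset (ℤ × ℤ)} {w : List (((ℤ × ℤ) × (ℤ × ℤ)) × ℤ)}
    (hJ : Join O) (hD : Disc ZQ O (Glued ZQ O) w) (hd : Disjoint (P : Set (ℤ × ℤ)) O)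
    {Ψ : (ℤ × ℤ) × (ℤ × ℤ) → ℝ}
    (hp : w.Pairwise fun x y => 0 ≤ vx Ψ y - vx Ψ x ∧ vx Ψ y - vx Ψ x ≤ Real.pi / 3)
    {ω : ℤ × ℤ → Bool} {a : (ℤ × ℤ) × (ℤ × ℤ)} (ha : a ∈ bS ZQ P) (h1 : a.swap ∈ Sides ZQ O)
    (h2 : (mate ZQ P ω a).swap ∈ Sides ZQ O) : 0 ≤ wt ZQ P ω Ψ a := by
  have key : ∀ a ∈ bS ZQ P, ∀ x ∈ w, ∀ y ∈ w, a.swap = x.1 → (mate ZQ P ω a).swap = y.1 →
      (∃ u v, w = u ++ x :: v ∧ y ∈ v) → 0 ≤ wt ZQ P ω Ψ a := by
    rintro a ha x hx y hy hax hby ⟨u, v, hw, hyv⟩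
    obtain ⟨n, hn⟩ := walk_mate (ω := ω) ha
    rw [hby] at hn
    have ha' : a = x.1.swap := by rw [← hax, Prod.swap_swap]
    rw [ha'] at hn
    have h3 := ext_two' hJ hD hw hyv hd hn
    have hb' : mate ZQ P ω a = y.1.swap := by rw [← hby, Prod.swap_swap]
    have h4 : 0 ≤ vx Ψ y - vx Ψ x ∧ vx Ψ y - vx Ψ x ≤ Real.pi / 3 := by
      rw [hw, List.pairwise_append, List.pairwise_cons] at hp
      exact hp.2.1.1 y hyv
    unfold wt
    rw [← ha'] at h3
    refine ext_cos h4.1 h4.2 ?_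
    unfold vx
    rw [hb', ha'] at *
    rcases h3 with h3 | h3
    · left
      rw [h3]
      push_cast
      ring
    · right
      rw [h3]
      push_cast
      ring
  have hmem : ∀ b ∈ bS ZQ P, b.swap ∈ Sides ZQ O → ∃ x ∈ w, b.swap = x.1 := by
    intro b hb h3
    have h4 := hD.mem_of_bd h3 (by
      rw [Prod.swap_swap]
      exact sides_disj hd (bS_iff.mp hb).1)
    obtain ⟨x, hx, hxb⟩ := List.mem_map.mp h4
    exact ⟨x, hx, hxb.symm⟩
  obtain ⟨x, hx, hax⟩ := hmem a ha h1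
  obtain ⟨y, hy, hby⟩ := hmem _ (mate_mem ha) h2
  have hne : x ≠ y := by
    rintro rfl
    have : mate ZQ P ω a = a := by
      have h3 := hby.trans hax.symm
      exact Prod.swap_injective h3
    exact mate_ne Tilt.zq_noLoop ha this
  obtain ⟨u, v, hw⟩ := List.append_of_mem hx
  have hy' : y ∈ u ∨ y ∈ v := by
    rw [hw, List.mem_append, List.mem_cons] at hy
    rcases hy with h | h | h
    · exact Or.inl h
    · exact absurd h.symm hne
    · exact Or.inr h
  rcases hy' with h | h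
  · rw [← wt_mate Ψ ha]
    obtain ⟨u', v', hu⟩ := List.append_of_mem h
    refine key _ (mate_mem ha) y hy x hx hby (by rw [mate_mate ha]; exact hax)
      ⟨u', v' ++ x :: v, by rw [hw, hu]; simp, by simp⟩
  · exact key a ha x hx y hy hax hby ⟨u, v, hw, h⟩

/-! ## The word of the rectangle with two notches -/

/-- The boundary word, starting at `(l, y - c)`. -/
def isW (X₀ l r X₁ y a c : ℤ) : List (((ℤ × ℤ) × (ℤ × ℤ)) × ℤ) :=
  segm id (l, y - c) 0 (r - l).toNat ++ (segm id (r, y - c) 0 (X₁ - r).toNat ++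
    (segm id (X₁, y - c) 1 (c - a).toNat ++ (segm id (X₁, y - a) 2 (X₁ - r).toNat ++
      (segm id (r, y - a) 1 (2 * a).toNat ++ (segm id (r, y + a) 0 (X₁ - r).toNat ++
        (segm id (X₁, y + a) 1 (c - a).toNat ++ (segm id (X₁, y + c) 2 (X₁ - r).toNat ++
          (segm id (r, y + c) 2 (r - l).toNat ++ (segm id (l, y + c) 2 (l - X₀).toNat ++
            (segm id (X₀, y + c) 3 (c - a).toNat ++ (segm id (X₀, y + a) 4 (l - X₀).toNat ++
              (segm id (l, y + a) 3 (2 * a).toNat ++ (segm id (l, y - a) 2 (l - X₀).toNat ++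
                (segm id (X₀, y - a) 3 (c - a).toNat ++
                  segm id (X₀, y - c) 4 (l - X₀).toNat))))))))))))))

theorem disc_IS {X₀ l r X₁ y a c : ℤ} (h1 : X₀ < l) (h2 : l < r) (h3 : r < X₁) (ha : 0 < a) (hc : a < c) :
    Disc ZQ (IS X₀ l r X₁ y a c) (Glued ZQ (IS X₀ l r X₁ y a c)) (isW X₀ l r X₁ y a c) := by
  have e := disc_RS (x₀ := l) (x₁ := r) (y₀ := y - c) (y₁ := y + c) h2 (by omega)
  unfold rectW at e
  have s1 : segm id ((r, y - c) : ℤ × ℤ) 1 (y + c - (y - c)).toNat = segm id (r, y - c) 1 (c - a).toNat ++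
      (segm id (r, y - a) 1 (2 * a).toNat ++ segm id (r, y + a) 1 (c - a).toNat) := by
    rw [segm_split id _ _ (m := (c - a).toNat) (n := (c + a).toNat) (by omega),
      segm_split id _ _ (m := (2 * a).toNat) (n := (c - a).toNat) (k := (c + a).toNat) (by omega)]
    have e1 : ((r, y - c) : ℤ × ℤ) + (((c - a).toNat : ℕ) : ℤ) • dv 1 = (r, y - a) := by
      rw [dv1]
      ext
      · simp
      · simp; omega
    have e2 : ((r, y - a) : ℤ × ℤ) + (((2 * a).toNat : ℕ) : ℤ) • dv 1 = (r, y + a) := by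
      rw [dv1]
      ext
      · simp
      · simp; omega
    rw [e1, e2]
  have s2 : segm id ((l, y + c) : ℤ × ℤ) 3 (y + c - (y - c)).toNat = segm id (l, y + c) 3 (c - a).toNat ++
      (segm id (l, y + a) 3 (2 * a).toNat ++ segm id (l, y - a) 3 (c - a).toNat) := by
    rw [segm_split id _ _ (m := (c - a).toNat) (n := (c + a).toNat) (by omega),
      segm_split id _ _ (m := (2 * a).toNat) (n := (c - a).toNat) (k := (c + a).toNat) (by omega)]
    have e1 : ((l, y + c) : ℤ × ℤ) + (((c - a).toNat : ℕ) : ℤ) • dv 3 = (l, y + a) := by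
      rw [dv3]
      ext
      · simp
      · simp; omega
    have e2 : ((l, y + a) : ℤ × ℤ) + (((2 * a).toNat : ℕ) : ℤ) • dv 3 = (l, y - a) := by
      rw [dv3]
      ext
      · simp
      · simp; omega
    rw [e1, e2]
  rw [s1, s2] at e
  have t1 : ((y - a) - (y - c)).toNat = (c - a).toNat := by congr 1; ring
  have t2 : ((y + c) - (y + a)).toNat = (c - a).toNat := by congr 1; ring
  have hd : ∀ {S T : Set (ℤ × ℤ)}, (∀ u v : ℤ, (u, v) ∈ S → (u, v) ∈ T → False) → Disjoint S T := by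
    intro S T h
    rw [Set.disjoint_left]
    rintro ⟨u, v⟩ h4 h5
    exact h u v h4 h5
  -- lower right
  obtain ⟨G1, e1⟩ := paste_right (x₁ := r) (xr := X₁) (y₁ := y - c) (y₂ := y - a)
    (u := segm id (l, y - c) 0 (r - l).toNat)
    (v := segm id (r, y - a) 1 (2 * a).toNat ++ (segm id (r, y + a) 1 (c - a).toNat ++
      (segm id (r, y + c) 2 (r - l).toNat ++ (segm id (l, y + c) 3 (c - a).toNat ++
        (segm id (l, y + a) 3 (2 * a).toNat ++ segm id (l, y - a) 3 (c - a).toNat)))))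
    (e.cast rfl rfl (by rw [t1]; simp)) (hd fun u v h4 h5 => by
      simp only [RS, Set.mem_ofPred_eq] at h4 h5
      omega) h3 (by omega)
  rw [t1] at e1
  -- upper right
  obtain ⟨G2, e2⟩ := paste_right (x₁ := r) (xr := X₁) (y₁ := y + a) (y₂ := y + c)
    (u := segm id (l, y - c) 0 (r - l).toNat ++ (segm id (r, y - c) 0 (X₁ - r).toNat ++
      (segm id (X₁, y - c) 1 (c - a).toNat ++ (segm id (X₁, y - a) 2 (X₁ - r).toNat ++
        segm id (r, y - a) 1 (2 * a).toNat))))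
    (v := segm id (r, y + c) 2 (r - l).toNat ++ (segm id (l, y + c) 3 (c - a).toNat ++
        (segm id (l, y + a) 3 (2 * a).toNat ++ segm id (l, y - a) 3 (c - a).toNat)))
    (e1.cast rfl rfl (by rw [t2]; simp)) (hd fun u v h4 h5 => by
      simp only [RS, Set.mem_ofPred_eq, Set.mem_union] at h4 h5
      omega) h3 (by omega)
  rw [t2] at e2
  -- upper left
  obtain ⟨G3, e3⟩ := paste_left (xl := X₀) (x₀ := l) (y₁ := y + a) (y₂ := y + c)
    (u := segm id (l, y - c) 0 (r - l).toNat ++ (segm id (r, y - c) 0 (X₁ - r).toNat ++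
      (segm id (X₁, y - c) 1 (c - a).toNat ++ (segm id (X₁, y - a) 2 (X₁ - r).toNat ++
        (segm id (r, y - a) 1 (2 * a).toNat ++ (segm id (r, y + a) 0 (X₁ - r).toNat ++
        (segm id (X₁, y + a) 1 (c - a).toNat ++ (segm id (X₁, y + c) 2 (X₁ - r).toNat ++
          segm id (r, y + c) 2 (r - l).toNat))))))))
    (v := segm id (l, y + a) 3 (2 * a).toNat ++ segm id (l, y - a) 3 (c - a).toNat)
    (e2.cast rfl rfl (by rw [t2]; simp)) (hd fun u v h4 h5 => by
      simp only [RS, Set.mem_ofPred_eq, Set.mem_union] at h4 h5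
      omega) h1 (by omega)
  rw [t2] at e3
  -- lower left
  obtain ⟨G4, e4⟩ := paste_left (xl := X₀) (x₀ := l) (y₁ := y - c) (y₂ := y - a)
    (u := segm id (l, y - c) 0 (r - l).toNat ++ (segm id (r, y - c) 0 (X₁ - r).toNat ++
      (segm id (X₁, y - c) 1 (c - a).toNat ++ (segm id (X₁, y - a) 2 (X₁ - r).toNat ++
        (segm id (r, y - a) 1 (2 * a).toNat ++ (segm id (r, y + a) 0 (X₁ - r).toNat ++
        (segm id (X₁, y + a) 1 (c - a).toNat ++ (segm id (X₁, y + c) 2 (X₁ - r).toNat ++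
          (segm id (r, y + c) 2 (r - l).toNat ++ (segm id (l, y + c) 2 (l - X₀).toNat ++
            (segm id (X₀, y + c) 3 (c - a).toNat ++ (segm id (X₀, y + a) 4 (l - X₀).toNat ++
              segm id (l, y + a) 3 (2 * a).toNat))))))))))))
    (v := [])
    (e3.cast rfl rfl (by rw [t1]; simp)) (hd fun u v h4 h5 => by
      simp only [RS, Set.mem_ofPred_eq, Set.mem_union] at h4 h5
      omega) h1 (by omega)
  rw [t1] at e4
  have e5 : Disc ZQ (IS X₀ l r X₁ y a c) G4 (isW X₀ l r X₁ y a c) :=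
    e4.cast rfl rfl (by unfold isW; simp)
  refine e5.complete ?_
  have hm : ∀ u v : ℤ, (u, v) ∈ IS X₀ l r X₁ y a c ↔ (X₀ ≤ u ∧ u < X₁ ∧ y - c ≤ v ∧ v < y + c) ∧
      ((l ≤ u ∧ u < r) ∨ v < y - a ∨ y + a ≤ v) := by
    intro u v
    unfold IS RS
    simp only [Set.mem_union, Set.mem_ofPred_eq]
    omega
  intro x hx
  unfold isW at hx
  simp only [List.mem_append] at hx
  rcases hx with h | h | h | h | h | h | h | h | h | h | h | h | h | h | h | h
  · obtain ⟨x', e1, e2, rfl⟩ := seg0 h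
    show ((x' + 1, y - c), (x', y - c)) ∉ _
    rw [sw2, hm]; omega
  · obtain ⟨x', e1, e2, rfl⟩ := seg0 h
    show ((x' + 1, y - c), (x', y - c)) ∉ _
    rw [sw2, hm]; omega
  · obtain ⟨x', e1, e2, rfl⟩ := seg1 h
    show ((X₁, x' + 1), (X₁, x')) ∉ _
    rw [sw3, hm]; omega
  · obtain ⟨x', e1, e2, rfl⟩ := seg2 h
    show ((x', y - a), (x' + 1, y - a)) ∉ _
    rw [sw0, hm]; omega
  · obtain ⟨x', e1, e2, rfl⟩ := seg1 h
    show ((r, x' + 1), (r, x')) ∉ _
    rw [sw3, hm]; omega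
  · obtain ⟨x', e1, e2, rfl⟩ := seg0 h
    show ((x' + 1, y + a), (x', y + a)) ∉ _
    rw [sw2, hm]; omega
  · obtain ⟨x', e1, e2, rfl⟩ := seg1 h
    show ((X₁, x' + 1), (X₁, x')) ∉ _
    rw [sw3, hm]; omega
  · obtain ⟨x', e1, e2, rfl⟩ := seg2 h
    show ((x', y + c), (x' + 1, y + c)) ∉ _
    rw [sw0, hm]; omega
  · obtain ⟨x', e1, e2, rfl⟩ := seg2 h
    show ((x', y + c), (x' + 1, y + c)) ∉ _
    rw [sw0, hm]; omega
  · obtain ⟨x', e1, e2, rfl⟩ := seg2 h
    show ((x', y + c), (x' + 1, y + c)) ∉ _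
    rw [sw0, hm]; omega
  · obtain ⟨x', e1, e2, rfl⟩ := seg3 h
    show ((X₀, x'), (X₀, x' + 1)) ∉ _
    rw [sw1, hm]; omega
  · obtain ⟨x', e1, e2, rfl⟩ := seg4 h
    show ((x' + 1, y + a), (x', y + a)) ∉ _
    rw [sw2, hm]; omega
  · obtain ⟨x', e1, e2, rfl⟩ := seg3 h
    show ((l, x'), (l, x' + 1)) ∉ _
    rw [sw1, hm]; omega
  · obtain ⟨x', e1, e2, rfl⟩ := seg2 h
    show ((x', y - a), (x' + 1, y - a)) ∉ _
    rw [sw0, hm]; omega
  · obtain ⟨x', e1, e2, rfl⟩ := seg3 h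
    show ((X₀, x'), (X₀, x' + 1)) ∉ _
    rw [sw1, hm]; omega
  · obtain ⟨x', e1, e2, rfl⟩ := seg4 h
    show ((x' + 1, y - c), (x', y - c)) ∉ _
    rw [sw2, hm]; omega

/-! ## The exterior piece -/

/-- words which consist of blocks with constant values -/
theorem pairwise_const {α : Type} (f : α → ℝ) {R : ℝ → Prop} (L : List (List α × ℝ))
    (h1 : ∀ s ∈ L, ∀ x ∈ s.1, f x = s.2) (h0 : R 0) (h2 : L.Pairwise fun s t => R (t.2 - s.2)) :
    (L.map Prod.fst).flatten.Pairwise fun x y => R (f y - f x) := by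
  rw [List.pairwise_flatten]
  constructor
  · intro l hl
    obtain ⟨s, hs, rfl⟩ := List.mem_map.mp hl
    refine List.pairwise_of_forall_mem_list fun x hx y hy => ?_
    rw [h1 s hs x hx, h1 s hs y hy, sub_self]
    exact h0
  · rw [List.pairwise_map]
    refine h2.imp_of_mem fun {s t} hs ht hst => ?_
    intro x hx y hy
    rw [h1 s hs x hx, h1 t ht y hy]
    exact hst

variable {E : SEnv} {g : BGeo} {ω : Option Bool × (ℤ × ℤ) → Bool} {mu ρu ml ρl : ℝ}
  {ψu ψl : (ℤ × ℤ) × (ℤ × ℤ) → ℝ}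

/-- the solid -/
def oS (g : BGeo) : Set (ℤ × ℤ) :=
  IS (g.x1 - 7 * g.k) (g.x1 - 6 * g.k - 2 * (g.k / 4 : ℕ)) (g.x2 + 6 * g.k + 2 * (g.k / 4 : ℕ))
    (g.x2 + 7 * g.k) g.yc g.a g.c

/-- its word -/
def oW (g : BGeo) : List (((ℤ × ℤ) × (ℤ × ℤ)) × ℤ) :=
  isW (g.x1 - 7 * g.k) (g.x1 - 6 * g.k - 2 * (g.k / 4 : ℕ)) (g.x2 + 6 * g.k + 2 * (g.k / 4 : ℕ))
    (g.x2 + 7 * g.k) g.yc g.a g.c

theorem mem_oS {f : ℤ × ℤ} (hx : g.x1 ≤ g.x2) : f ∈ oS g ↔
    (g.x1 - 7 * g.k ≤ f.1 ∧ f.1 < g.x2 + 7 * g.k ∧ g.yc - g.c ≤ f.2 ∧ f.2 < g.yc + g.c) ∧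
      ((g.x1 - 6 * g.k - 2 * (g.k / 4 : ℕ) ≤ f.1 ∧ f.1 < g.x2 + 6 * g.k + 2 * (g.k / 4 : ℕ)) ∨
        f.2 < g.yc - g.a ∨ g.yc + g.a ≤ f.2) := by
  have h4 : 4 * (g.k / 4) ≤ g.k := by omega
  unfold oS IS RS
  simp only [Set.mem_union, Set.mem_ofPred_eq]
  omega

theorem PE.disc_oS (H : PE E g) : Disc ZQ (oS g) (Glued ZQ (oS g)) (oW g) := by
  have h1 := H.ab
  have h2 := H.bc
  have h3 := H.a_pos
  have h4 := H.k4
  have h5 := H.x_lt
  exact disc_IS (by omega) (by omega) (by omega) (by omega) (by omega)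

theorem PE.join_oS (H : PE E g) : SixB.Join (oS g) := by
  have h1 := H.ab
  have h2 := H.bc
  have h3 := H.a_pos
  have h4 := H.k4
  have h5 := H.x_lt
  exact (joinS_IS (by omega) (by omega) (by omega) (by omega) (by omega)).join

theorem PE.oW_pair (H : PE E g) (hP : Par mu ρu ml ρl) :
    (oW g).Pairwise fun x y =>
      0 ≤ vx (fun a => cutP g ml ρl (E.psi mu ρu ml ρl ψu ψl) (mp tn a)) y -
        vx (fun a => cutP g ml ρl (E.psi mu ρu ml ρl ψu ψl) (mp tn a)) x ∧
      vx (fun a => cutP g ml ρl (E.psi mu ρu ml ρl ψu ψl) (mp tn a)) y -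
        vx (fun a => cutP g ml ρl (E.psi mu ρu ml ρl ψu ψl) (mp tn a)) x ≤ Real.pi / 3 := by
  have h1 := H.ab
  have h2 := H.bc
  have h3 := H.a_pos
  have h4 := H.k4
  have h5 := H.x_lt
  have hk : 0 < g.k := by omega
  have hx := h5.le
  have h6 : 4 * (g.k / 4) ≤ g.k := by omega
  have hpi := Real.pi_pos
  obtain ⟨s1, s2⟩ := hP.sig_rng
  have e1 := hP.sig_l
  have e2 := sig_alpha mu
  have e3 := sig_alpha ml
  have e4 := hP.rho
  have e5 := hP.sum
  have e6 : BGeo.out mu = -(Real.pi / 6) - 3 * BGeo.sig mu / 4 := by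
    unfold BGeo.out BGeo.sig; ring
  have e7 : BGeo.out ml = -(Real.pi / 6) - 3 * BGeo.sig ml / 4 := by
    unfold BGeo.out BGeo.sig; ring
  have e8 : BGeo.sig mu = 4 * (mu - Real.pi / 6) / 15 := rfl
  set X₀ := g.x1 - 7 * g.k with hX0
  set l := g.x1 - 6 * g.k - 2 * ((g.k / 4 : ℕ) : ℤ) with hl
  set r := g.x2 + 6 * g.k + 2 * ((g.k / 4 : ℕ) : ℤ) with hr
  set X₁ := g.x2 + 7 * g.k with hX1
  set Ψ : (ℤ × ℤ) × (ℤ × ℤ) → ℝ := fun a => cutP g ml ρl (E.psi mu ρu ml ρl ψu ψl) (mp tn a) with hΨ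
  let y := g.yc
  let a : ℤ := g.a
  let c : ℤ := g.c
  let vb := ρl - BGeo.alpha ml - BGeo.sig ml + ml + Real.pi / 12 + BGeo.out ml / 2 - Real.pi / 6
  let t1 := ρl + ml - Real.pi / 12 - BGeo.sig ml - BGeo.alpha ml
  let vt := ρu - BGeo.alpha mu - BGeo.sig mu + mu + Real.pi / 12 + BGeo.out mu / 2
  let vl := ρu + Real.pi / 12 + mu - BGeo.sig mu - BGeo.alpha mu
  let L : List (List (((ℤ × ℤ) × (ℤ × ℤ)) × ℤ) × ℝ) :=
    [(segm id (l, y - c) 0 (r - l).toNat ++ segm id (r, y - c) 0 (X₁ - r).toNat, vb),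
      (segm id (X₁, y - c) 1 (c - a).toNat ++ (segm id (X₁, y - a) 2 (X₁ - r).toNat ++
        (segm id (r, y - a) 1 (2 * a).toNat ++ (segm id (r, y + a) 0 (X₁ - r).toNat ++
          segm id (X₁, y + a) 1 (c - a).toNat))), t1),
      (segm id (X₁, y + c) 2 (X₁ - r).toNat ++ (segm id (r, y + c) 2 (r - l).toNat ++
        segm id (l, y + c) 2 (l - X₀).toNat), vt),
      (segm id (X₀, y + c) 3 (c - a).toNat ++ (segm id (X₀, y + a) 4 (l - X₀).toNat ++
        (segm id (l, y + a) 3 (2 * a).toNat ++ (segm id (l, y - a) 2 (l - X₀).toNat ++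
          segm id (X₀, y - a) 3 (c - a).toNat))), vl),
      (segm id (X₀, y - c) 4 (l - X₀).toNat, vb + Real.pi / 3)]
  have hL : (L.map Prod.fst).flatten = oW g := by
    unfold oW isW
    simp [L, y, a, c, X₀, l, r, X₁]
  rw [← hL]
  refine pairwise_const (vx Ψ) (R := fun t => 0 ≤ t ∧ t ≤ Real.pi / 3) L ?_ ⟨le_rfl, by linarith⟩ ?_
  · intro s hs x hx'
    simp only [L, List.mem_cons, List.not_mem_nil, or_false] at hs
    rcases hs with rfl | rfl | rfl | rfl | rfl
    · simp only [List.mem_append] at hx'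
      rcases hx' with hx' | hx' <;>
      · obtain ⟨x', e1, e2, rfl⟩ := seg0 hx'
        show cutP g ml ρl _ (mp tn ((x' + 1, y - c), (x', y - c))) + _ = vb
        rw [cutP_n (Or.inl rfl), H.psi_lo2 (by omega)]
        simp only [vb]
        push_cast
        ring
    · simp only [List.mem_append] at hx'
      rcases hx' with hx' | hx' | hx' | hx' | hx'
      · obtain ⟨x', e1, e2, rfl⟩ := seg1 hx'
        show cutP g ml ρl _ (mp tn ((X₁, x' + 1), (X₁, x'))) + _ = t1
        rw [cutP_n (Or.inr (Or.inr (Or.inl (by simp only [mp, tn, Prod.map]; omega)))),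
          H.psi_lo3 (by omega), dl_r2 hk hx (by omega)]
        simp only [t1]
        push_cast
        ring
      · obtain ⟨x', e1, e2, rfl⟩ := seg2 hx'
        show cutP g ml ρl _ (mp tn ((x', y - a), (x' + 1, y - a))) + _ = t1
        rw [cutP_n (Or.inl rfl), H.psi_lo0 (by omega), dl_r2 hk hx (by omega)]
        simp only [t1]
        push_cast
        ring
      · obtain ⟨x', e1, e2, rfl⟩ := seg1 hx'
        show cutP g ml ρl _ (mp tn ((r, x' + 1), (r, x'))) + _ = t1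
        rw [cutP_l (by omega) (by omega), dl_r2 hk hx (by omega)]
        simp only [t1]
        push_cast
        ring
      · obtain ⟨x', e1, e2, rfl⟩ := seg0 hx'
        show cutP g ml ρl _ (mp tn ((x' + 1, y + a), (x', y + a))) + _ = t1
        rw [cutP_n (Or.inl rfl), H.psi_up2 (by omega), du_r2 hk hx (by omega)]
        simp only [t1]
        push_cast
        linarith
      · obtain ⟨x', e1, e2, rfl⟩ := seg1 hx'
        show cutP g ml ρl _ (mp tn ((X₁, x' + 1), (X₁, x'))) + _ = t1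
        rw [cutP_n (Or.inr (Or.inr (Or.inr (Or.inl (by simp only [mp, tn, Prod.map]; omega))))),
          H.psi_up3 (by omega), du_r2 hk hx (by omega)]
        simp only [t1]
        push_cast
        linarith
    · simp only [List.mem_append] at hx'
      rcases hx' with hx' | hx' | hx' <;>
      · obtain ⟨x', e1, e2, rfl⟩ := seg2 hx'
        show cutP g ml ρl _ (mp tn ((x', y + c), (x' + 1, y + c))) + _ = vt
        rw [cutP_n (Or.inl rfl), H.psi_up0 (by omega)]
        simp only [vt]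
        push_cast
        ring
    · simp only [List.mem_append] at hx'
      rcases hx' with hx' | hx' | hx' | hx' | hx'
      · obtain ⟨x', e1, e2, rfl⟩ := seg3 hx'
        show cutP g ml ρl _ (mp tn ((X₀, x'), (X₀, x' + 1))) + _ = vl
        rw [cutP_n (Or.inr (Or.inr (Or.inr (Or.inr (by simp only [mp, tn, Prod.map]; omega))))),
          H.psi_up1 (by omega), du_l2 hk hx (by omega)]
        simp only [vl]
        push_cast
        ring
      · obtain ⟨x', e1, e2, rfl⟩ := seg4 hx'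
        show cutP g ml ρl _ (mp tn ((x' + 1, y + a), (x', y + a))) + _ = vl
        rw [cutP_n (Or.inl rfl), H.psi_up2 (by omega), du_l2 hk hx (by omega)]
        simp only [vl]
        push_cast
        ring
      · obtain ⟨x', e1, e2, rfl⟩ := seg3 hx'
        show cutP g ml ρl _ (mp tn ((l, x'), (l, x' + 1))) + _ = vl
        rw [cutP_r (by omega) (by omega), dl_l2 hk hx (by omega)]
        simp only [vl]
        push_cast
        linarith
      · obtain ⟨x', e1, e2, rfl⟩ := seg2 hx'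
        show cutP g ml ρl _ (mp tn ((x', y - a), (x' + 1, y - a))) + _ = vl
        rw [cutP_n (Or.inl rfl), H.psi_lo0 (by omega), dl_l2 hk hx (by omega)]
        simp only [vl]
        push_cast
        linarith
      · obtain ⟨x', e1, e2, rfl⟩ := seg3 hx'
        show cutP g ml ρl _ (mp tn ((X₀, x'), (X₀, x' + 1))) + _ = vl
        rw [cutP_n (Or.inr (Or.inl (by simp only [mp, tn, Prod.map]; omega))),
          H.psi_lo1 (by omega), dl_l2 hk hx (by omega)]
        simp only [vl]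
        push_cast
        linarith
    · obtain ⟨x', e1, e2, rfl⟩ := seg4 hx'
      show cutP g ml ρl _ (mp tn ((x' + 1, y - c), (x', y - c))) + _ = vb + Real.pi / 3
      rw [cutP_n (Or.inl rfl), H.psi_lo2 (by omega)]
      simp only [vb]
      push_cast
      ring
  · simp only [L, List.pairwise_cons, List.mem_cons, List.not_mem_nil, or_false]
    simp only [vb, t1, vt, vl]
    refine ⟨?_, ?_, ?_, ?_, ?_, List.Pairwise.nil⟩
    · rintro s (rfl | rfl | rfl | rfl)
      · constructor <;> dsimp only <;> linarith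
      · constructor <;> dsimp only <;> linarith
      · constructor <;> dsimp only <;> linarith
      · constructor <;> dsimp only <;> linarith
    · rintro s (rfl | rfl | rfl)
      · constructor <;> dsimp only <;> linarith
      · constructor <;> dsimp only <;> linarith
      · constructor <;> dsimp only <;> linarith
    · rintro s (rfl | rfl)
      · constructor <;> dsimp only <;> linarith
      · constructor <;> dsimp only <;> linarith
    · rintro s rfl
      constructor <;> dsimp only <;> linarith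
    · rintro s hs
      exact absurd hs (by simp)

/-! ## The exterior piece in the environment -/

open Classical in
/-- planar faces of the exterior piece -/
def xF (E : SEnv) (g : BGeo) : Finset (ℤ × ℤ) := E.base.filter fun f => tn f ∈ pz E g 9

theorem pz_ext : pz E g 9 = (xF E g).image tn := by
  ext f
  rw [Finset.mem_image]
  constructor
  · intro h
    rcases mem_EF.mp (mem_zF.mp h).1 with ⟨h1, h2⟩ | h1
    · obtain ⟨σ, f⟩ := f
      simp only at h1 h2
      subst h1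
      exact ⟨f, Finset.mem_filter.mpr ⟨h2, h⟩, rfl⟩
    · exfalso
      have h2 := (mem_zF.mp h).2
      have h3 : zone g f = 0 := by
        unfold zone
        rw [if_pos]
        rcases h1 with h1 | h1 <;> rw [h1.1] <;> simp
      rw [h3] at h2
      exact absurd h2 (by decide)
  · rintro ⟨f, hf, rfl⟩
    exact (Finset.mem_filter.mp hf).2

/-- columns of the exterior piece -/
theorem PE.xF_col (H : PE E g) {f : ℤ × ℤ} : f ∈ xF E g ↔ f ∈ E.base ∧
    (f.2 < g.yc - g.c ∨ g.yc + g.c ≤ f.2 ∨ f.1 < g.x1 - 6 * g.k - 2 * (g.k / 4 : ℕ) ∨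
      g.x2 + 6 * g.k + 2 * (g.k / 4 : ℕ) ≤ f.1) := by
  have hk := H.k4
  have hx := H.x_lt
  unfold xF
  rw [Finset.mem_filter]
  refine and_congr_right fun hf => ?_
  rw [pz, mem_zF]
  have h0 : tn f ∈ E.F := mem_EF.mpr (Or.inl ⟨rfl, hf⟩)
  rw [and_iff_right h0]
  unfold zone
  simp only [ne_eq, not_true_eq_false, if_false]
  split_ifs with h1
  · constructor
    · intro _
      omega
    · intro _
      decide
  · have h2 := zc_iff g f.1
    have h3 : 1 ≤ g.k / 4 := by omega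
    have h4 : 4 * (g.k / 4) ≤ g.k := by omega
    generalize g.k / 4 = q at h2 h3 h4 ⊢
    generalize zc g f.1 = z at h2 ⊢
    rcases h2 with h2 | h2 | h2 | h2 | h2 | h2 | h2 | h2 | h2 | h2 | h2 | h2 | h2 | h2 | h2 | h2 | h2 | h2 | h2 <;>
      (obtain ⟨rfl, h2⟩ := h2
       first
        | exact iff_of_true (by decide) (by omega)
        | exact iff_of_false (by decide) (by omega))

theorem PE.xF_disj (H : PE E g) : Disjoint ((xF E g : Finset (ℤ × ℤ)) : Set (ℤ × ℤ)) (oS g) := by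
  rw [Set.disjoint_left]
  intro f hf hf'
  have h1 := H.xF_col.mp (by exact_mod_cast hf)
  have h2 := (mem_oS H.x_lt.le).mp hf'
  obtain ⟨h3, h4⟩ := h1
  rw [H.mem_base] at h3
  obtain ⟨-, s1, s2⟩ := h3
  have hk := H.k4
  have hx := H.x_lt
  have h6 : 4 * (g.k / 4) ≤ g.k := by omega
  rcases (by omega : f.2 < g.yc - g.a ∨ g.yc + g.a ≤ f.2) with h5 | h5
  · apply s2
    unfold BGeo.solid BGeo.hgt
    simp only [Bool.false_eq_true, if_false]
    refine ⟨by omega, by omega, by omega, by omega, ?_⟩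
    unfold BGeo.cham
    omega
  · apply s1
    unfold BGeo.solid BGeo.hgt
    simp only [if_true]
    refine ⟨by omega, by omega, by omega, by omega, ?_⟩
    unfold BGeo.cham
    omega

theorem PE.sht_ext (H : PE E g) : Sht E.Q tn tn (xF E g) :=
  ⟨fun _ _ h => congrArg Prod.snd h, fun _ _ h => congrArg Prod.snd h,
    fun _ hf k => H.c_base (H.xF_col.mp hf).1 k⟩

open Classical in
/-- the sides of the exterior piece on the solid -/
def sX (E : SEnv) (g : BGeo) : Finset ((Option Bool × (ℤ × ℤ)) × (Option Bool × (ℤ × ℤ))) :=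
  (bS E.Q (pz E g 9)).filter fun s => (SEnv.pl s).swap ∈ Sides ZQ (oS g)

theorem mem_sX {s : (Option Bool × (ℤ × ℤ)) × (Option Bool × (ℤ × ℤ))} : s ∈ sX E g ↔
    s ∈ bS E.Q (pz E g 9) ∧ (SEnv.pl s).swap ∈ Sides ZQ (oS g) := by
  classical
  unfold sX
  rw [Finset.mem_filter]

/-- **Exterior.** -/
theorem PE.ext_nonneg (H : PE E g) (hP : Par mu ρu ml ρl)
    (hm : ∀ s ∈ sX E g, mate E.Q (pz E g 9) ω s ∈ sX E g) :
    0 ≤ Conf.aP E.Q (pz E g 9) ω (cutP g ml ρl (E.psi mu ρu ml ρl ψu ψl)) (sX E g) := by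
  refine Conf.aP_nonneg (fun s hs => (mem_sX.mp hs).1) fun s hs => ?_
  have hs' := hm s hs
  rw [mem_sX] at hs hs'
  obtain ⟨h1, h2⟩ := hs
  obtain ⟨h3, h4⟩ := hs'
  rw [pz_ext] at h1 h3 h4 ⊢
  have hS := H.sht_ext
  obtain ⟨a, ha, rfl⟩ := hS.bS_ex h1
  obtain ⟨h5, h6⟩ := hS.mateE (ω := ω) ha
  rw [h5] at h4
  have h7 := ext_wt (ω := fun f => ω (tn f)) H.join_oS H.disc_oS H.xF_disj (H.oW_pair (ψu := ψu) (ψl := ψl) hP)
    ha h2 h4
  unfold wt at h7 ⊢
  rw [h5, h6]
  exact h7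

end

end Pool.Agent.SixB.Pos
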