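import Pool.Agent.Lib.SixB.S3PosX

/-!
# 6BD step 3: island sides of the pieces

* `PE.outer`: a boundary side of an environment which is not an island side leads out of the window.
* `PE.inner_Z`, `PE.ext_Z`: island sides of the pieces; `PE.ext_mc`: the sides of the exterior piece on the solid contain the
  other ends of their arcs.
* `PE.WZ_nonneg_of`: **positivity on the good event**, from the positivity of the pieces and the weights in the tubes.
-/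

set_option autoImplicit false
set_option linter.unusedSectionVars false

namespace Pool.Agent.SixB.Pos

open Pool.Agent.SixB Pool.Agent.SixB.Gd Pool.Agent.SixB.Join Pool.Agent.Perc Pool.Agent.Perc.Q Relation

noncomputable section

variable {E : SEnv} {g : BGeo} {ω : Option Bool × (ℤ × ℤ) → Bool} {mu ρu ml ρl : ℝ}
  {ψu ψl : (ℤ × ℤ) × (ℤ × ℤ) → ℝ}
  {a : (Option Bool × (ℤ × ℤ)) × (Option Bool × (ℤ × ℤ))}

theorem mem_EZ : a ∈ E.Z ↔ a ∈ bS E.Q E.F ∧ (a.1.1 ≠ none ∨ a.2.1 ≠ none ∨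
    ∃ f, (E.gu.solid true f ∨ E.gd.solid false f) ∧ ∃ k, SEnv.pl a = (sd ZQ f k).swap) := by
  classical
  unfold SEnv.Z
  rw [Finset.mem_filter]

/-- the face on the other side -/
theorem exists_nb (f : ℤ × ℤ) (k : ZMod 4) : ∃ f' l, sd ZQ f' l = (sd ZQ f k).swap := by
  obtain ⟨u, v⟩ := f
  rcases k4_cases k with rfl | rfl | rfl | rfl
  · exact ⟨(u, v - 1), 2, by rw [sd_ZQ2, sd_ZQ0]; ext <;> simp⟩
  · exact ⟨(u + 1, v), 3, by rw [sd_ZQ3, sd_ZQ1]; ext <;> simp⟩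
  · exact ⟨(u, v + 1), 0, by rw [sd_ZQ0, sd_ZQ2]; ext <;> simp⟩
  · exact ⟨(u - 1, v), 1, by rw [sd_ZQ1, sd_ZQ3]; ext <;> simp⟩

/-- faces with a common side are neighbours -/
theorem nb_dist {f f' : ℤ × ℤ} {k l : ZMod 4} (h : sd ZQ f' l = (sd ZQ f k).swap) :
    (f'.1 = f.1 ∧ (f'.2 = f.2 + 1 ∨ f'.2 = f.2 - 1)) ∨ (f'.2 = f.2 ∧ (f'.1 = f.1 + 1 ∨ f'.1 = f.1 - 1)) := by
  have h1 : ZQ.c f (k + 1) = ZQ.c f' l := (congrArg Prod.fst h).symm
  have h2 : ZQ.c f k = ZQ.c f' (l + 1) := (congrArg Prod.snd h).symm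
  rcases nb_cases h1 h2 with ⟨-, h⟩ | ⟨-, h⟩ | ⟨-, h⟩ | ⟨-, h⟩ <;> rw [h] <;> simp

theorem PE.solid_oS (H : PE E g) {f : ℤ × ℤ} (h : g.solid true f ∨ g.solid false f) : f ∈ oS g := by
  have hk := H.k4
  have hx := H.x_lt
  have h6 : 4 * (g.k / 4) ≤ g.k := by omega
  rw [mem_oS H.x_lt.le]
  rcases h with ⟨e1, e2, e3, e4, -⟩ | ⟨e1, e2, e3, e4, -⟩
  · simp only [BGeo.hgt, if_true] at e1 e2
    omega
  · simp only [BGeo.hgt, Bool.false_eq_true, if_false] at e1 e2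
    omega

/-- faces of the window -/
theorem PE.win_cases (H : PE E g) {f : ℤ × ℤ} (hf : f ∈ E.W) : f ∈ oS g ∨ f ∈ xF E g := by
  by_cases h1 : f ∈ E.base
  · by_cases h2 : f ∈ oS g
    · exact Or.inl h2
    · right
      rw [H.xF_col]
      refine ⟨h1, ?_⟩
      rw [mem_oS H.x_lt.le] at h2
      have hk := H.k4
      have hx := H.x_lt
      have h6 : 4 * (g.k / 4) ≤ g.k := by omega
      omega
  · left
    apply H.solid_oS
    rw [H.mem_base] at h1
    by_contra hc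
    rw [not_or] at hc
    exact h1 ⟨hf, hc.1, hc.2⟩

theorem PE.oS_W (H : PE E g) {f : ℤ × ℤ} (hf : f ∈ oS g) : f ∈ E.W := by
  rw [mem_oS H.x_lt.le] at hf
  apply H.W
  rw [mem_RF]
  omega

/-- **A boundary side which is not an island side leads out of the window.** -/
theorem PE.outer (H : PE E g) {f : Option Bool × (ℤ × ℤ)} {k : ZMod 4} (ha : sd E.Q f k ∈ bS E.Q E.F)
    (hZ : sd E.Q f k ∉ E.Z) {f' : ℤ × ℤ} {l : ZMod 4} (h : sd ZQ f' l = (sd ZQ f.2 k).swap) :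
    (sd E.Q f k).1.1 = none ∧ (sd E.Q f k).2.1 = none ∧ f' ∉ E.W := by
  have h1 : (sd E.Q f k).1.1 = none ∧ (sd E.Q f k).2.1 = none := by
    rw [mem_EZ] at hZ
    constructor
    · by_contra hc
      exact hZ ⟨ha, Or.inl hc⟩
    · by_contra hc
      exact hZ ⟨ha, Or.inr (Or.inl hc)⟩
  refine ⟨h1.1, h1.2, fun hW => ?_⟩
  by_cases hb : f' ∈ E.base
  · -- the base face on the other side
    apply (bS_iff.mp ha).2
    refine ⟨(none, f'), by exact_mod_cast mem_EF.mpr (Or.inl ⟨rfl, hb⟩), l, ?_⟩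
    have e1 : sd E.Q (none, f') l = ((none, (sd ZQ f' l).1), (none, (sd ZQ f' l).2)) := by
      unfold sd
      rw [H.c_base hb, H.c_base hb]
    rw [e1, h]
    obtain ⟨h2, h3⟩ := h1
    ext1
    · show (sd E.Q f k).2 = (none, (sd ZQ f.2 k).2)
      rw [← h3]
      rfl
    · show (sd E.Q f k).1 = (none, (sd ZQ f.2 k).1)
      rw [← h2]
      rfl
  · apply hZ
    rw [mem_EZ]
    refine ⟨ha, Or.inr (Or.inr ⟨f', ?_, l, ?_⟩)⟩
    · rw [H.mem_base] at hb
      rw [H.hu, H.hd]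
      by_contra hc
      rw [not_or] at hc
      exact hb ⟨hW, hc.1, hc.2⟩
    · rw [h]
      rfl

/-- **Island sides of the inner pieces.** -/
theorem PE.inner_Z (H : PE E g) {c : ℕ} (hc : c ∈ crz) (h9 : c ≠ 9) (ha : a ∈ bS E.Q E.F)
    (ha' : a ∈ bS E.Q (pz E g c)) : a ∈ E.Z := by
  by_contra hZ
  obtain ⟨f, hf, k, hk⟩ := bS_sd ha'
  obtain ⟨f', l, h⟩ := exists_nb f.2 k
  subst hk
  obtain ⟨h1, h2, h3⟩ := H.outer ha hZ h
  have h4 := nb_dist h
  have hab := H.ab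
  have hbc := H.bc
  have hk4 := H.k4
  have hx := H.x_lt
  have h6 : 4 * (g.k / 4) ≤ g.k := by omega
  apply h3
  apply H.W
  rw [mem_RF]
  -- the position of the face
  have hpos : g.x1 - 7 * g.k ≤ f.2.1 ∧ f.2.1 < g.x2 + 7 * g.k ∧ g.yc - g.c ≤ f.2.2 ∧
      f.2.2 < g.yc + g.c := by
    have h5 := mem_zF.mp hf
    rcases mem_EF.mp h5.1 with ⟨e1, e2⟩ | e1
    · obtain ⟨σ, f⟩ := f
      simp only at e1 e2
      subst e1
      have h8 := h5.2
      unfold zone at h8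
      simp only [ne_eq, not_true_eq_false, if_false] at h8
      have key : ∀ c ∈ crz, c ≠ 9 → (9 == c || 9 == zp c || 9 == zm c) = false := by decide
      split_ifs at h8 with h9'
      · rw [key c hc h9] at h8
        exact absurd h8 (by simp)
      · have h10 := zc_iff g f.1
        have h11 : zc g f.1 ≠ 9 := by
          intro h12
          rw [h12, key c hc h9] at h8
          exact absurd h8 (by simp)
        simp only
        generalize g.k / 4 = q at h10 h6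
        generalize zc g f.1 = z at h10 h11
        rcases h10 with h10 | h10 | h10 | h10 | h10 | h10 | h10 | h10 | h10 | h10 | h10 | h10 | h10 | h10 | h10 | h10 |
          h10 | h10 | h10 <;> omega
    · have h8 : (E.Q.c (f.1, f.2) k).1 ≠ f.1 := by
        have : (E.Q.c (f.1, f.2) k).1 = none := h1
        rw [this]
        rcases e1 with e1 | e1 <;> rw [e1.1] <;> simp
      have h9 := H.msig_ne h8
      omega
  omega

/-- **Island sides of the exterior piece.** -/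
theorem PE.ext_Z (H : PE E g) (ha : a ∈ bS E.Q E.F) (ha' : a ∈ bS E.Q (pz E g 9)) : a ∈ E.Z ↔ a ∈ sX E g := by
  have hab := H.ab
  have hbc := H.bc
  rw [mem_sX, and_iff_right ha']
  constructor
  · intro hZ
    rw [mem_EZ] at hZ
    rw [pz_ext] at ha'
    obtain ⟨a₀, h1, rfl⟩ := H.sht_ext.bS_ex ha'
    rcases hZ.2 with h2 | h2 | ⟨f, h2, k, h3⟩
    · exact absurd rfl h2
    · exact absurd rfl h2
    · rw [h3, Prod.swap_swap]
      rw [H.hu, H.hd] at h2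
      exact ⟨f, H.solid_oS h2, k, rfl⟩
  · rintro ⟨f', hf', l, h⟩
    by_contra hZ
    obtain ⟨f, hf, k, hk⟩ := bS_sd ha'
    subst hk
    have h1 : sd ZQ f' l = (sd ZQ f.2 k).swap := h.symm
    exact (H.outer ha hZ h1).2.2 (H.oS_W hf')

/-- **The sides of the exterior piece on the solid contain the other ends of their arcs.** -/
theorem PE.ext_mc (H : PE E g) (hg : good g ω) (hm : ∀ a ∈ E.Z, mate E.Q E.F ω a ∈ E.Z) :
    Conf.MC E.Q (pz E g 9) ω (sX E g) := by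
  refine ⟨fun s hs => (mem_sX.mp hs).1, fun a ha => ?_⟩
  by_contra hb
  have hC := H.core hg (c := 9) (by decide)
  have ha' := (mem_sX.mp ha).1
  have hbP := mate_mem (ω := ω) ha'
  have hb0 := hbP
  have hk := H.k4
  have hx := H.x_lt
  have h6 : 4 * (g.k / 4) ≤ g.k := by omega
  -- the face of the other end
  rw [pz_ext] at hb0
  obtain ⟨b₀, hb1, hb2⟩ := H.sht_ext.bS_ex hb0
  obtain ⟨f, hf, k, hk'⟩ := bS_sd hb1
  obtain ⟨f', l, h⟩ := exists_nb f k
  have h1 : f' ∉ oS g := by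
    intro h2
    apply hb
    rw [mem_sX]
    refine ⟨hbP, f', h2, l, ?_⟩
    rw [show pz E g 9 = (xF E g).image tn from pz_ext, hb2, h, ← hk']
    rfl
  have h2 : f' ∉ xF E g := by
    intro h3
    apply (bS_iff.mp hb1).2
    exact ⟨f', by exact_mod_cast h3, l, by rw [h, ← hk']⟩
  have h3 : f' ∉ E.W := fun h4 => (H.win_cases h4).elim h1 h2
  have h4 : f' ∉ RF (g.x1 - 7 * g.k - 1) (g.x2 + 7 * g.k + 1) (g.yc - g.c - 1) (g.yc + g.c + 1) :=
    fun h5 => h3 (H.W h5)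
  rw [mem_RF] at h4
  have h5 := nb_dist h
  have hfK : tn f ∈ kz E g 9 := by
    unfold kz
    rw [mem_zF]
    refine ⟨mem_EF.mpr (Or.inl ⟨rfl, (H.xF_col.mp hf).1⟩), ?_⟩
    rw [beq_iff_eq]
    unfold zone
    simp only [ne_eq, not_true_eq_false, if_false]
    split_ifs with h7
    · rfl
    · have h8 := zc_iff g f.1
      generalize g.k / 4 = q at h8 h6
      generalize zc g f.1 = z at h8 ⊢
      rcases h8 with h8 | h8 | h8 | h8 | h8 | h8 | h8 | h8 | h8 | h8 | h8 | h8 | h8 | h8 | h8 | h8 |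
        h8 | h8 | h8 <;> omega
  have hfP : tn f ∈ pz E g 9 := by
    rw [pz_ext]; exact Finset.mem_image_of_mem _ hf
  have hb3 : mate E.Q (pz E g 9) ω a = sd E.Q (tn f) k := by
    have : mate E.Q (pz E g 9) ω a = mp tn b₀ := by
      rw [show pz E g 9 = (xF E g).image tn from pz_ext]
      rw [hb2]
    rw [this, hk', H.sht_ext.sdE hf]
  have hv : tn f ∈ Vis E.Q ω ((pz E g 9 : Finset _) : Set _) (mate E.Q (pz E g 9) ω a) :=
    ⟨by exact_mod_cast hfP, k, by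
      show sd E.Q (tn f) k ∈ _
      rw [hb3]; exact mem_Orb_self⟩
  have hini := hC.ini (SixB.mem_bS.mp hbP).2 hfK hv
  have hbF : mate E.Q (pz E g 9) ω a ∈ bS E.Q E.F :=
    SixB.mem_bS.mpr ⟨Conf.dE_sub' hC.subF (SixB.mem_bS.mp hbP).1, hini⟩
  have hvF : tn f ∈ Vis E.Q ω ((E.F : Finset _) : Set _) (mate E.Q (pz E g 9) ω a) :=
    Vis_mono (by exact_mod_cast hC.subF) hv
  have h8 := Conf.conf_mate hC.subF hbF (hC.conf hfK hvF)
  have h9 : mate E.Q E.F ω (mate E.Q (pz E g 9) ω a) = a := by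
    rw [← h8.2.1, mate_mate ha']
  have haF : a ∈ bS E.Q E.F := by
    rw [← h9]; exact mate_mem hbF
  have haZ : a ∈ E.Z := (H.ext_Z haF ha').mpr ha
  have h10 := hm a haZ
  have h11 : mate E.Q E.F ω a = mate E.Q (pz E g 9) ω a := by
    have := mate_mate (ω := ω) hbF
    rw [h9] at this
    exact this
  rw [h11] at h10
  exact hb ((H.ext_Z hbF hbP).mp h10)

open Classical in
/-- the sides of a piece -/
def sP (E : SEnv) (g : BGeo) (c : ℕ) : Finset ((Option Bool × (ℤ × ℤ)) × (Option Bool × (ℤ × ℤ))) :=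
  if c = 9 then sX E g else bS E.Q (pz E g c)

theorem sP_9 : sP E g 9 = sX E g := if_pos rfl

theorem sP_n {c : ℕ} (h : c ≠ 9) : sP E g c = bS E.Q (pz E g c) := if_neg h

variable {ψ : (Option Bool × (ℤ × ℤ)) × (Option Bool × (ℤ × ℤ)) → ℝ}

/-- **The product over the pieces.** -/
theorem PE.WZ_prod (H : PE E g) (hg : good g ω) (hm : ∀ a ∈ E.Z, mate E.Q E.F ω a ∈ E.Z)
    (hA : ∀ a ∈ bS E.Q E.F, (∀ c ∈ crz, ∀ f ∈ kz E g c, f ∉ Vis E.Q ω ((E.F : Finset _) : Set _) a) →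
      wt E.Q E.F ω ψ a = Real.sqrt 3)
    (hB : ∀ c ∈ crz, ∀ a ∈ bS E.Q (pz E g c),
      (∀ f ∈ kz E g c, f ∉ Vis E.Q ω ((pz E g c : Finset _) : Set _) a) →
      wt E.Q (pz E g c) ω (cutP g ml ρl ψ) a = Real.sqrt 3)
    (hC : ∀ a ∈ E.Z, cutP g ml ρl ψ a = ψ a) :
    WZ E.Q E.F ψ E.Z ω = ∏ c ∈ crz, Conf.aP E.Q (pz E g c) ω (cutP g ml ρl ψ) (sP E g c) := by
  have hZ : Conf.MC E.Q E.F ω E.Z := ⟨fun a ha => (mem_EZ.mp ha).1, hm⟩
  have e1 : WZ E.Q E.F ψ E.Z ω = Conf.aP E.Q E.F ω ψ E.Z := by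
    unfold WZ
    rw [if_pos hm]
    rfl
  have e2 : Conf.aP E.Q E.F ω (cutP g ml ρl ψ) E.Z = Conf.aP E.Q E.F ω ψ E.Z := by
    refine Conf.aP_congr hZ.1 hZ.1 fun a ha => ⟨rfl, ?_⟩
    unfold wt
    rw [hC a ha, hC _ (hm a ha)]
  rw [e1, ← e2]
  refine Conf.aP_pieces crz hZ (fun c hc => H.core hg hc) (fun c hc c' hc' hne => pz_kz hc hc' hne) ?_ ?_
    (fun _ _ _ _ _ => rfl) ?_ ?_
  · intro c hc
    by_cases h9 : c = 9
    · rw [h9, sP_9]
      exact H.ext_mc hg hm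
    · rw [sP_n h9]
      exact Conf.mc_bS
  · intro c hc a ha ha' _
    by_cases h9 : c = 9
    · subst h9
      rw [sP_9]
      exact H.ext_Z ha ha'
    · rw [sP_n h9]
      exact iff_of_true (H.inner_Z hc h9 ha ha') ha'
  · intro c hc a ha hv
    refine hB c hc a ?_ hv
    by_cases h9 : c = 9
    · subst h9
      rw [sP_9] at ha
      exact (mem_sX.mp ha).1
    · rw [sP_n h9] at ha
      exact ha
  · intro a ha hv
    have h1 := hA a (hZ.1 ha) hv
    unfold wt at h1 ⊢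
    rw [hC a ha, hC _ (hm a ha)]
    exact h1

/-- **Positivity on the good event.** -/
theorem PE.WZ_nonneg_of (H : PE E g) (hP : Par mu ρu ml ρl) (hg : good g ω)
    (hD : 0 ≤ Conf.aP E.Q (pz E g 0) ω (cutP g ml ρl (E.psi mu ρu ml ρl ψu ψl)) (bS E.Q (pz E g 0)))
    (hA : ∀ a ∈ bS E.Q E.F, (∀ c ∈ crz, ∀ f ∈ kz E g c, f ∉ Vis E.Q ω ((E.F : Finset _) : Set _) a) →
      wt E.Q E.F ω (E.psi mu ρu ml ρl ψu ψl) a = Real.sqrt 3)
    (hB : ∀ c ∈ crz, ∀ a ∈ bS E.Q (pz E g c),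
      (∀ f ∈ kz E g c, f ∉ Vis E.Q ω ((pz E g c : Finset _) : Set _) a) →
      wt E.Q (pz E g c) ω (cutP g ml ρl (E.psi mu ρu ml ρl ψu ψl)) a = Real.sqrt 3)
    (hC : ∀ a ∈ E.Z, cutP g ml ρl (E.psi mu ρu ml ρl ψu ψl) a = E.psi mu ρu ml ρl ψu ψl a) :
    0 ≤ WZ E.Q E.F (E.psi mu ρu ml ρl ψu ψl) E.Z ω := by
  by_cases hm : ∀ a ∈ E.Z, mate E.Q E.F ω a ∈ E.Z
  · rw [H.WZ_prod hg hm hA hB hC]
    refine Finset.prod_nonneg fun c hc => ?_
    have hc' : c = 0 ∨ c = 3 ∨ c = 6 ∨ c = 9 ∨ c = 12 ∨ c = 15 := by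
      simpa [crz] using hc
    rcases hc' with rfl | rfl | rfl | rfl | rfl | rfl
    · rw [sP_n (by norm_num)]; exact hD
    · rw [sP_n (by norm_num)]; exact H.cham_all hP (Or.inl rfl)
    · rw [sP_n (by norm_num)]; exact H.cham_all hP (Or.inr (Or.inl rfl))
    · rw [sP_9]; exact H.ext_nonneg hP (H.ext_mc hg hm).2
    · rw [sP_n (by norm_num)]; exact H.cham_all hP (Or.inr (Or.inr (Or.inl rfl)))
    · rw [sP_n (by norm_num)]; exact H.cham_all hP (Or.inr (Or.inr (Or.inr rfl)))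
  · rw [WZ_not _ hm]

end

end Pool.Agent.SixB.Pos
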