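import Pool.Agent.Lib.SixB.S3Good
import Pool.Agent.Lib.SixB.S3Emb

/-!
# 6BD step 3: the zones of an environment

* `PE E g`: unshifted environment, both blocks have the geometry `g`, the window contains the blocks.
* `zc g x`, `zone g f`: number of the zone (`0`: pockets and slab between them, `3`, `6`: chambers on the right, `9`:
  exterior, `12`, `15`: chambers on the left, the other numbers: the twelve rectangles of `S3Good`).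
* `adj`: faces with a common side lie in neighbouring zones.
* `pc E g c`, `kr E g c`: piece (zones `c - 1`, `c`, `c + 1`) and core (zone `c`); `core`: on the good event
  `Conf.Core`.
* `orb_zone`: a strand which avoids all cores stays in the two rectangles of one tube.
-/

set_option autoImplicit false
set_option linter.unusedSectionVars false

namespace Pool.Agent.SixB.Pos

open Pool.Agent.SixB Pool.Agent.SixB.Gd Pool.Agent.Perc Pool.Agent.Perc.Q Relation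

noncomputable section

/-- unshifted environment -/
structure PE (E : SEnv) (g : BGeo) : Prop where
  hu : E.gu = g
  hd : E.gd = g
  a_pos : 0 < g.a
  ab : g.a ≤ g.b
  bc : g.b + 2 ≤ g.c
  k4 : 4 ≤ g.k
  x_lt : g.x1 < g.x2
  W : RF (g.x1 - 7 * g.k - 1) (g.x2 + 7 * g.k + 1) (g.yc - g.c - 1) (g.yc + g.c + 1) ⊆ E.W

/-- the zone of a column -/
def zc (g : BGeo) (x : ℤ) : ℕ :=
  if x < g.x1 - 6 * g.k - 3 * (g.k / 4 : ℕ) then 9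
  else if x < g.x1 - 6 * g.k - 2 * (g.k / 4 : ℕ) then 10
  else if x < g.x1 - 6 * g.k - (g.k / 4 : ℕ) then 11
  else if x < g.x1 - 3 * g.k - 3 * (g.k / 4 : ℕ) then 12
  else if x < g.x1 - 3 * g.k - 2 * (g.k / 4 : ℕ) then 13
  else if x < g.x1 - 3 * g.k - (g.k / 4 : ℕ) then 14
  else if x < g.x1 - 3 * (g.k / 4 : ℕ) then 15
  else if x < g.x1 - 2 * (g.k / 4 : ℕ) then 16
  else if x < g.x1 - (g.k / 4 : ℕ) then 17
  else if x < g.x2 + (g.k / 4 : ℕ) then 0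
  else if x < g.x2 + 2 * (g.k / 4 : ℕ) then 1
  else if x < g.x2 + 3 * (g.k / 4 : ℕ) then 2
  else if x < g.x2 + 3 * g.k + (g.k / 4 : ℕ) then 3
  else if x < g.x2 + 3 * g.k + 2 * (g.k / 4 : ℕ) then 4
  else if x < g.x2 + 3 * g.k + 3 * (g.k / 4 : ℕ) then 5
  else if x < g.x2 + 6 * g.k + (g.k / 4 : ℕ) then 6
  else if x < g.x2 + 6 * g.k + 2 * (g.k / 4 : ℕ) then 7
  else if x < g.x2 + 6 * g.k + 3 * (g.k / 4 : ℕ) then 8
  else 9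

/-- the zone of a face -/
def zone (g : BGeo) (f : Option Bool × (ℤ × ℤ)) : ℕ :=
  if f.1 ≠ none then 0
  else if f.2.2 < g.yc - g.c ∨ g.yc + g.c ≤ f.2.2 then 9 else zc g f.2.1

/-- neighbouring zones -/
def adjZ (z z' : ℕ) : Prop :=
  z' = z ∨ z' = z + 1 ∨ z = z' + 1 ∨ (z = 17 ∧ z' = 0) ∨ (z = 0 ∧ z' = 17)

theorem adjZ.symm {z z' : ℕ} (h : adjZ z z') : adjZ z' z := by
  unfold adjZ at h ⊢
  omega

/-- columns and zones -/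
theorem zc_iff (g : BGeo) (x : ℤ) :
    (zc g x = 9 ∧ x < g.x1 - 6 * g.k - 3 * (g.k / 4 : ℕ)) ∨
    (zc g x = 10 ∧ g.x1 - 6 * g.k - 3 * (g.k / 4 : ℕ) ≤ x ∧ x < g.x1 - 6 * g.k - 2 * (g.k / 4 : ℕ)) ∨
    (zc g x = 11 ∧ g.x1 - 6 * g.k - 2 * (g.k / 4 : ℕ) ≤ x ∧ x < g.x1 - 6 * g.k - (g.k / 4 : ℕ)) ∨
    (zc g x = 12 ∧ g.x1 - 6 * g.k - (g.k / 4 : ℕ) ≤ x ∧ x < g.x1 - 3 * g.k - 3 * (g.k / 4 : ℕ)) ∨
    (zc g x = 13 ∧ g.x1 - 3 * g.k - 3 * (g.k / 4 : ℕ) ≤ x ∧ x < g.x1 - 3 * g.k - 2 * (g.k / 4 : ℕ)) ∨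
    (zc g x = 14 ∧ g.x1 - 3 * g.k - 2 * (g.k / 4 : ℕ) ≤ x ∧ x < g.x1 - 3 * g.k - (g.k / 4 : ℕ)) ∨
    (zc g x = 15 ∧ g.x1 - 3 * g.k - (g.k / 4 : ℕ) ≤ x ∧ x < g.x1 - 3 * (g.k / 4 : ℕ)) ∨
    (zc g x = 16 ∧ g.x1 - 3 * (g.k / 4 : ℕ) ≤ x ∧ x < g.x1 - 2 * (g.k / 4 : ℕ)) ∨
    (zc g x = 17 ∧ g.x1 - 2 * (g.k / 4 : ℕ) ≤ x ∧ x < g.x1 - (g.k / 4 : ℕ)) ∨
    (zc g x = 0 ∧ g.x1 - (g.k / 4 : ℕ) ≤ x ∧ x < g.x2 + (g.k / 4 : ℕ)) ∨
    (zc g x = 1 ∧ g.x2 + (g.k / 4 : ℕ) ≤ x ∧ x < g.x2 + 2 * (g.k / 4 : ℕ)) ∨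
    (zc g x = 2 ∧ g.x2 + 2 * (g.k / 4 : ℕ) ≤ x ∧ x < g.x2 + 3 * (g.k / 4 : ℕ)) ∨
    (zc g x = 3 ∧ g.x2 + 3 * (g.k / 4 : ℕ) ≤ x ∧ x < g.x2 + 3 * g.k + (g.k / 4 : ℕ)) ∨
    (zc g x = 4 ∧ g.x2 + 3 * g.k + (g.k / 4 : ℕ) ≤ x ∧ x < g.x2 + 3 * g.k + 2 * (g.k / 4 : ℕ)) ∨
    (zc g x = 5 ∧ g.x2 + 3 * g.k + 2 * (g.k / 4 : ℕ) ≤ x ∧ x < g.x2 + 3 * g.k + 3 * (g.k / 4 : ℕ)) ∨
    (zc g x = 6 ∧ g.x2 + 3 * g.k + 3 * (g.k / 4 : ℕ) ≤ x ∧ x < g.x2 + 6 * g.k + (g.k / 4 : ℕ)) ∨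
    (zc g x = 7 ∧ g.x2 + 6 * g.k + (g.k / 4 : ℕ) ≤ x ∧ x < g.x2 + 6 * g.k + 2 * (g.k / 4 : ℕ)) ∨
    (zc g x = 8 ∧ g.x2 + 6 * g.k + 2 * (g.k / 4 : ℕ) ≤ x ∧ x < g.x2 + 6 * g.k + 3 * (g.k / 4 : ℕ)) ∨
    (zc g x = 9 ∧ g.x2 + 6 * g.k + 3 * (g.k / 4 : ℕ) ≤ x) := by
  generalize hz : zc g x = z
  unfold zc at hz
  rcases lt_or_ge x (g.x1 - 6 * g.k - 3 * (g.k / 4 : ℕ)) with h1 | h1
  · rw [if_pos h1] at hz
    exact Or.inl ⟨hz.symm, h1⟩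
  rw [if_neg (not_lt.mpr h1)] at hz
  rcases lt_or_ge x (g.x1 - 6 * g.k - 2 * (g.k / 4 : ℕ)) with h2 | h2
  · rw [if_pos h2] at hz
    exact Or.inr (Or.inl ⟨hz.symm, h1, h2⟩)
  rw [if_neg (not_lt.mpr h2)] at hz
  rcases lt_or_ge x (g.x1 - 6 * g.k - (g.k / 4 : ℕ)) with h3 | h3
  · rw [if_pos h3] at hz
    exact Or.inr (Or.inr (Or.inl ⟨hz.symm, h2, h3⟩))
  rw [if_neg (not_lt.mpr h3)] at hz
  rcases lt_or_ge x (g.x1 - 3 * g.k - 3 * (g.k / 4 : ℕ)) with h4 | h4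
  · rw [if_pos h4] at hz
    exact Or.inr (Or.inr (Or.inr (Or.inl ⟨hz.symm, h3, h4⟩)))
  rw [if_neg (not_lt.mpr h4)] at hz
  rcases lt_or_ge x (g.x1 - 3 * g.k - 2 * (g.k / 4 : ℕ)) with h5 | h5
  · rw [if_pos h5] at hz
    exact Or.inr (Or.inr (Or.inr (Or.inr (Or.inl ⟨hz.symm, h4, h5⟩))))
  rw [if_neg (not_lt.mpr h5)] at hz
  rcases lt_or_ge x (g.x1 - 3 * g.k - (g.k / 4 : ℕ)) with h6 | h6
  · rw [if_pos h6] at hz
    exact Or.inr (Or.inr (Or.inr (Or.inr (Or.inr (Or.inl ⟨hz.symm, h5, h6⟩)))))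
  rw [if_neg (not_lt.mpr h6)] at hz
  rcases lt_or_ge x (g.x1 - 3 * (g.k / 4 : ℕ)) with h7 | h7
  · rw [if_pos h7] at hz
    exact Or.inr (Or.inr (Or.inr (Or.inr (Or.inr (Or.inr (Or.inl ⟨hz.symm, h6, h7⟩))))))
  rw [if_neg (not_lt.mpr h7)] at hz
  rcases lt_or_ge x (g.x1 - 2 * (g.k / 4 : ℕ)) with h8 | h8
  · rw [if_pos h8] at hz
    exact Or.inr (Or.inr (Or.inr (Or.inr (Or.inr (Or.inr (Or.inr (Or.inl ⟨hz.symm, h7, h8⟩)))))))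
  rw [if_neg (not_lt.mpr h8)] at hz
  rcases lt_or_ge x (g.x1 - (g.k / 4 : ℕ)) with h9 | h9
  · rw [if_pos h9] at hz
    exact Or.inr (Or.inr (Or.inr (Or.inr (Or.inr (Or.inr (Or.inr (Or.inr (Or.inl ⟨hz.symm, h8, h9⟩))))))))
  rw [if_neg (not_lt.mpr h9)] at hz
  rcases lt_or_ge x (g.x2 + (g.k / 4 : ℕ)) with h10 | h10
  · rw [if_pos h10] at hz
    exact Or.inr (Or.inr (Or.inr (Or.inr (Or.inr (Or.inr (Or.inr (Or.inr (Or.inr (Or.inl ⟨hz.symm, h9, h10⟩)))))))))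
  rw [if_neg (not_lt.mpr h10)] at hz
  rcases lt_or_ge x (g.x2 + 2 * (g.k / 4 : ℕ)) with h11 | h11
  · rw [if_pos h11] at hz
    exact Or.inr (Or.inr (Or.inr (Or.inr (Or.inr (Or.inr (Or.inr (Or.inr (Or.inr (Or.inr (Or.inl ⟨hz.symm, h10, h11⟩))))))))))
  rw [if_neg (not_lt.mpr h11)] at hz
  rcases lt_or_ge x (g.x2 + 3 * (g.k / 4 : ℕ)) with h12 | h12
  · rw [if_pos h12] at hz
    exact Or.inr (Or.inr (Or.inr (Or.inr (Or.inr (Or.inr (Or.inr (Or.inr (Or.inr (Or.inr (Or.inr (Or.inl ⟨hz.symm, h11, h12⟩)))))))))))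
  rw [if_neg (not_lt.mpr h12)] at hz
  rcases lt_or_ge x (g.x2 + 3 * g.k + (g.k / 4 : ℕ)) with h13 | h13
  · rw [if_pos h13] at hz
    exact Or.inr (Or.inr (Or.inr (Or.inr (Or.inr (Or.inr (Or.inr (Or.inr (Or.inr (Or.inr (Or.inr (Or.inr (Or.inl ⟨hz.symm, h12, h13⟩))))))))))))
  rw [if_neg (not_lt.mpr h13)] at hz
  rcases lt_or_ge x (g.x2 + 3 * g.k + 2 * (g.k / 4 : ℕ)) with h14 | h14
  · rw [if_pos h14] at hz
    exact Or.inr (Or.inr (Or.inr (Or.inr (Or.inr (Or.inr (Or.inr (Or.inr (Or.inr (Or.inr (Or.inr (Or.inr (Or.inr (Or.inl ⟨hz.symm, h13, h14⟩)))))))))))))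
  rw [if_neg (not_lt.mpr h14)] at hz
  rcases lt_or_ge x (g.x2 + 3 * g.k + 3 * (g.k / 4 : ℕ)) with h15 | h15
  · rw [if_pos h15] at hz
    exact Or.inr (Or.inr (Or.inr (Or.inr (Or.inr (Or.inr (Or.inr (Or.inr (Or.inr (Or.inr (Or.inr (Or.inr (Or.inr (Or.inr (Or.inl ⟨hz.symm, h14, h15⟩))))))))))))))
  rw [if_neg (not_lt.mpr h15)] at hz
  rcases lt_or_ge x (g.x2 + 6 * g.k + (g.k / 4 : ℕ)) with h16 | h16
  · rw [if_pos h16] at hz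
    exact Or.inr (Or.inr (Or.inr (Or.inr (Or.inr (Or.inr (Or.inr (Or.inr (Or.inr (Or.inr (Or.inr (Or.inr (Or.inr (Or.inr (Or.inr (Or.inl ⟨hz.symm, h15, h16⟩)))))))))))))))
  rw [if_neg (not_lt.mpr h16)] at hz
  rcases lt_or_ge x (g.x2 + 6 * g.k + 2 * (g.k / 4 : ℕ)) with h17 | h17
  · rw [if_pos h17] at hz
    exact Or.inr (Or.inr (Or.inr (Or.inr (Or.inr (Or.inr (Or.inr (Or.inr (Or.inr (Or.inr (Or.inr (Or.inr (Or.inr (Or.inr (Or.inr (Or.inr (Or.inl ⟨hz.symm, h16, h17⟩))))))))))))))))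
  rw [if_neg (not_lt.mpr h17)] at hz
  rcases lt_or_ge x (g.x2 + 6 * g.k + 3 * (g.k / 4 : ℕ)) with h18 | h18
  · rw [if_pos h18] at hz
    exact Or.inr (Or.inr (Or.inr (Or.inr (Or.inr (Or.inr (Or.inr (Or.inr (Or.inr (Or.inr (Or.inr (Or.inr (Or.inr (Or.inr (Or.inr (Or.inr (Or.inr (Or.inl ⟨hz.symm, h17, h18⟩)))))))))))))))))
  rw [if_neg (not_lt.mpr h18)] at hz
  exact Or.inr (Or.inr (Or.inr (Or.inr (Or.inr (Or.inr (Or.inr (Or.inr (Or.inr (Or.inr (Or.inr (Or.inr (Or.inr (Or.inr (Or.inr (Or.inr (Or.inr (Or.inr (⟨hz.symm, h18⟩))))))))))))))))))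

theorem zc_lt (g : BGeo) (x : ℤ) : zc g x < 18 := by
  rcases zc_iff g x with h | h | h | h | h | h | h | h | h | h | h | h | h | h | h | h | h | h | h <;>
    rw [h.1] <;> norm_num

theorem zone_lt (g : BGeo) (f : Option Bool × (ℤ × ℤ)) : zone g f < 18 := by
  unfold zone
  split_ifs
  · omega
  · omega
  · exact zc_lt g _

theorem zc_step {g : BGeo} (hk : 4 ≤ g.k) (hx : g.x1 ≤ g.x2) (x : ℤ) : adjZ (zc g x) (zc g (x + 1)) := by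
  have h1 := zc_iff g x
  have h2 := zc_iff g (x + 1)
  have h3 : 1 ≤ g.k / 4 := by omega
  have h4 : 4 * (g.k / 4) ≤ g.k := by omega
  generalize g.k / 4 = q at h1 h2 h3 h4
  generalize zc g x = z at h1 ⊢
  generalize zc g (x + 1) = z' at h2 ⊢
  unfold adjZ
  rcases h1 with h1 | h1 | h1 | h1 | h1 | h1 | h1 | h1 | h1 | h1 | h1 | h1 | h1 | h1 | h1 | h1 | h1 | h1 | h1 <;>
    omega

/-- number of the zone of a rectangle -/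
def zi (s : Bool) (i j : ℕ) : ℕ := if s then 3 * i + j + 1 else 17 - 3 * i - j

theorem zc_tx {g : BGeo} (hk : 4 ≤ g.k) (hx : g.x1 ≤ g.x2) {s : Bool} {i j : ℕ} (hi : i < 3) (hj : j < 2)
    (x : ℤ) : zc g x = zi s i j ↔ tx g s i j ≤ x ∧ x < tx' g s i j := by
  have h1 := zc_iff g x
  have h3 : 1 ≤ g.k / 4 := by omega
  have h4 : 4 * (g.k / 4) ≤ g.k := by omega
  unfold tx' tx zi
  generalize g.k / 4 = q at h1 h3 h4 ⊢
  generalize zc g x = z at h1 ⊢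
  have hi' : i = 0 ∨ i = 1 ∨ i = 2 := by omega
  have hj' : j = 0 ∨ j = 1 := by omega
  rcases hi' with rfl | rfl | rfl <;> rcases hj' with rfl | rfl <;> cases s <;>
    simp only [Bool.false_eq_true, if_false, if_true] <;> push_cast <;>
    (rcases h1 with h1 | h1 | h1 | h1 | h1 | h1 | h1 | h1 | h1 | h1 | h1 | h1 | h1 | h1 | h1 | h1 | h1 | h1 | h1 <;>
      (rw [h1.1]; omega))

/-- the next zone -/
def zp (z : ℕ) : ℕ := if z = 17 then 0 else z + 1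

/-- the previous zone -/
def zm (z : ℕ) : ℕ := if z = 0 then 17 else z - 1

theorem zc_tx' {g : BGeo} (hk : 4 ≤ g.k) (hx : g.x1 ≤ g.x2) {s : Bool} {i j : ℕ} (hi : i < 3) (hj : j < 2) :
    zc g (tx' g s i j) = zp (zi s i j) ∧ zc g (tx g s i j - 1) = zm (zi s i j) := by
  have h1 := zc_iff g (tx' g s i j)
  have h2 := zc_iff g (tx g s i j - 1)
  have h3 : 1 ≤ g.k / 4 := by omega
  have h4 : 4 * (g.k / 4) ≤ g.k := by omega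
  generalize zc g (tx' g s i j) = z at h1 ⊢
  generalize zc g (tx g s i j - 1) = z' at h2 ⊢
  unfold tx' at h1
  unfold tx at h1 h2
  unfold zi zp zm
  generalize g.k / 4 = q at h1 h2 h3 h4 ⊢
  have hi' : i = 0 ∨ i = 1 ∨ i = 2 := by omega
  have hj' : j = 0 ∨ j = 1 := by omega
  constructor
  · clear h2
    rcases hi' with rfl | rfl | rfl <;> rcases hj' with rfl | rfl <;> cases s <;>
    simp only [Bool.false_eq_true, if_false, if_true] at h1 ⊢ <;> push_cast at h1 <;>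
    norm_num <;>
    (rcases h1 with h1 | h1 | h1 | h1 | h1 | h1 | h1 | h1 | h1 | h1 | h1 | h1 | h1 | h1 | h1 | h1 | h1 | h1 | h1 <;>
      omega)
  · clear h1
    rcases hi' with rfl | rfl | rfl <;> rcases hj' with rfl | rfl <;> cases s <;>
    simp only [Bool.false_eq_true, if_false, if_true] at h2 ⊢ <;> push_cast at h2 <;>
    norm_num <;>
    (rcases h2 with h1 | h1 | h1 | h1 | h1 | h1 | h1 | h1 | h1 | h1 | h1 | h1 | h1 | h1 | h1 | h1 | h1 | h1 | h1 <;>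
      omega)

end

end Pool.Agent.SixB.Pos
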