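import Pool.Agent.Lib.SixB.S3TwoConst

/-!
Propagation of smallness along the real line for entire functions bounded on a strip,
from a real segment and from the integers of a segment (lattice version).
-/

namespace Pool.Agent.SixB.An

open Complex Metric Set

theorem sqrt_iter_mem {δ : ℝ} (hδ : 0 < δ) (hδ1 : δ ≤ 1) (k : ℕ) :
    0 < Real.sqrt^[k] δ ∧ Real.sqrt^[k] δ ≤ 1 := by
  induction k with
  | zero => exact ⟨hδ, hδ1⟩
  | succ k ih =>
    rw [Function.iterate_succ_apply']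
    exact ⟨Real.sqrt_pos.mpr ih.1, Real.sqrt_le_one.mpr ih.2⟩

theorem sqrt_iter_pow {ε : ℝ} (hε : 0 ≤ ε) (k : ℕ) : Real.sqrt^[k] (ε ^ (2 ^ k)) = ε := by
  induction k with
  | zero => simp
  | succ k ih =>
    rw [Function.iterate_succ_apply, pow_succ 2 k, pow_mul, Real.sqrt_sq (by positivity)]
    exact ih

theorem sqrt_iter_mono {a b : ℝ} (hab : a ≤ b) (k : ℕ) :
    Real.sqrt^[k] a ≤ Real.sqrt^[k] b := by
  induction k with
  | zero => simpa using hab
  | succ k ih =>
    rw [Function.iterate_succ_apply', Function.iterate_succ_apply']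
    exact Real.sqrt_le_sqrt ih

/-- Chain of discs along the real axis. -/
theorem chain {f : ℂ → ℂ} (hf : Differentiable ℂ f) {h ρ : ℝ} (hρ : 0 < ρ) (hh : 4 * ρ ≤ h)
    (h1 : ∀ z : ℂ, |z.im| ≤ h → ‖f z‖ ≤ 1) {δ : ℝ} (hδ : 0 < δ) (hδ1 : δ ≤ 1) {q : ℝ}
    (h0 : ∀ z ∈ closedBall (q : ℂ) ρ, ‖f z‖ ≤ δ) (k : ℕ) :
    ∀ p : ℝ, |p - q| ≤ k * ρ → ∀ z ∈ closedBall (p : ℂ) ρ, ‖f z‖ ≤ Real.sqrt^[k] δ := by
  induction k with
  | zero =>
    intro p hp z hz
    have : p = q := by
      have : |p - q| ≤ 0 := by simpa using hp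
      have := abs_nonpos_iff.mp this
      linarith
    subst this
    exact h0 z hz
  | succ k ih =>
    intro p hp z hz
    have hk : (0 : ℝ) < (k : ℝ) + 1 := by positivity
    set p' : ℝ := q + (p - q) * (k / (k + 1)) with hp'
    have hp1 : |p' - q| ≤ k * ρ := by
      have : p' - q = (p - q) * (k / (k + 1)) := by rw [hp']; ring
      rw [this, abs_mul, abs_of_nonneg (by positivity : (0 : ℝ) ≤ (k : ℝ) / (k + 1))]
      push_cast at hp
      calc |p - q| * ((k : ℝ) / (k + 1)) ≤ ((k + 1) * ρ) * (k / (k + 1)) :=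
            mul_le_mul_of_nonneg_right hp (by positivity)
        _ = k * ρ := by field_simp
    have hp2 : |p - p'| ≤ ρ := by
      have : p - p' = (p - q) * (1 / (k + 1)) := by
        rw [hp']
        field_simp
        ring
      rw [this, abs_mul, abs_of_nonneg (by positivity : (0 : ℝ) ≤ 1 / ((k : ℝ) + 1))]
      push_cast at hp
      calc |p - q| * (1 / ((k : ℝ) + 1)) ≤ ((k + 1) * ρ) * (1 / (k + 1)) :=
            mul_le_mul_of_nonneg_right hp (by positivity)
        _ = ρ := by field_simp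
    have hs := sqrt_iter_mem hδ hδ1 k
    have := three_circles hf (p := (p' : ℂ)) hρ hs.1 hs.2
      (by
        intro w hw
        apply h1
        have hw' : ‖w - p'‖ ≤ 4 * ρ := by simpa [mem_closedBall, dist_eq_norm] using hw
        have := Complex.abs_im_le_norm (w - p')
        simp only [Complex.sub_im, Complex.ofReal_im, sub_zero] at this
        linarith)
      (ih p' hp1)
    rw [Function.iterate_succ_apply']
    apply this
    rw [mem_closedBall, dist_eq_norm] at hz ⊢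
    have hz2 : ‖(p : ℂ) - p'‖ ≤ ρ := by
      rw [← Complex.ofReal_sub, Complex.norm_real, Real.norm_eq_abs]
      exact hp2
    calc ‖z - p'‖ = ‖(z - p) + (p - p')‖ := by ring_nf
      _ ≤ ‖z - p‖ + ‖(p : ℂ) - p'‖ := norm_add_le _ _
      _ ≤ 2 * ρ := by linarith

/-- **Propagation of smallness** from a real segment. -/
theorem small_propagates {h s : ℝ} (hh : 0 < h) (hs : 0 < s) (X R : ℝ) {ε : ℝ} (hε : 0 < ε) :
    ∃ δ : ℝ, 0 < δ ∧ ∀ f : ℂ → ℂ, Differentiable ℂ f →
      (∀ z : ℂ, |z.im| ≤ h → ‖f z‖ ≤ 1) →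
      (∀ x : ℝ, X ≤ x → x ≤ X + s → ‖f x‖ ≤ δ) →
      ∀ x : ℝ, |x| ≤ R → ‖f x‖ ≤ ε := by
  set e : ℝ := min ε 1 with he
  have he0 : 0 < e := lt_min hε one_pos
  set s' : ℝ := min (s / 2) h with hs'
  have hs'0 : 0 < s' := lt_min (by linarith) hh
  set ρ : ℝ := s' / 4 with hρ
  have hρ0 : 0 < ρ := by rw [hρ]; linarith
  set q : ℝ := X + s / 2 with hq
  obtain ⟨k, hk⟩ := exists_nat_ge ((R + |q|) / ρ)
  have hk' : R + |q| ≤ k * ρ := by
    rwa [div_le_iff₀ hρ0] at hk
  refine ⟨e ^ (2 ^ (k + 1)), by positivity, ?_⟩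
  intro f hf h1 h0 x hx
  set δ : ℝ := e ^ (2 ^ (k + 1)) with hδd
  have hδ : 0 < δ := by positivity
  have hδ1 : δ ≤ 1 := pow_le_one₀ he0.le (min_le_right _ _)
  have hsd := segment_disc hf (q := q) hs'0 hδ hδ1
    (by
      intro z hz
      apply h1
      have hz' : ‖z - q‖ ≤ s' := by simpa [mem_closedBall, dist_eq_norm] using hz
      have := Complex.abs_im_le_norm (z - q)
      simp only [Complex.sub_im, Complex.ofReal_im, sub_zero] at this
      have : s' ≤ h := min_le_right _ _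
      linarith)
    (by
      intro y hy
      have h2 : s' ≤ s / 2 := min_le_left _ _
      have := abs_le.mp hy
      apply h0 <;> linarith)
  have hsq0 : 0 < Real.sqrt δ := Real.sqrt_pos.mpr hδ
  have hsq1 : Real.sqrt δ ≤ 1 := Real.sqrt_le_one.mpr hδ1
  have hc := chain hf hρ0 (h := h) (by
      have : s' ≤ h := min_le_right _ _
      rw [hρ]; linarith) h1 hsq0 hsq1 (q := q) hsd k x
    (by
      calc |x - q| ≤ |x| + |q| := abs_sub _ _
        _ ≤ k * ρ := by linarith) x (mem_closedBall_self hρ0.le)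
  have hit : Real.sqrt^[k] (Real.sqrt δ) = e := by
    rw [← Function.iterate_succ_apply]
    exact sqrt_iter_pow he0.le (k + 1)
  rw [hit] at hc
  exact hc.trans (min_le_left _ _)

/-- Derivative bound on the real line. -/
theorem norm_deriv_real_le {f : ℂ → ℂ} (hf : Differentiable ℂ f) {h : ℝ} (hh : 0 < h)
    (h1 : ∀ z : ℂ, |z.im| ≤ h → ‖f z‖ ≤ 1) (x : ℝ) : ‖deriv f x‖ ≤ 1 / h := by
  apply Complex.norm_deriv_le_of_forall_mem_sphere_norm_le hh hf.diffContOnCl
  intro z hz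
  apply h1
  have hz' : ‖z - x‖ = h := by simpa [mem_sphere, dist_eq_norm] using hz
  have := Complex.abs_im_le_norm (z - x)
  simp only [Complex.sub_im, Complex.ofReal_im, sub_zero] at this
  linarith

theorem lip_real {f : ℂ → ℂ} (hf : Differentiable ℂ f) {h : ℝ} (hh : 0 < h)
    (h1 : ∀ z : ℂ, |z.im| ≤ h → ‖f z‖ ≤ 1) (x y : ℝ) : ‖f x - f y‖ ≤ |x - y| / h := by
  have hg : ∀ t : ℝ, HasDerivAt (fun s : ℝ => f s) (deriv f t) t := by
    intro t
    exact (hf (t : ℂ)).hasDerivAt.comp_ofReal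
  have := Convex.norm_image_sub_le_of_norm_hasDerivWithin_le (f := fun s : ℝ => f s)
    (f' := fun t : ℝ => deriv f t) (s := Set.univ) (C := 1 / h) (x := y) (y := x)
    (fun t _ => (hg t).hasDerivWithinAt) (fun t _ => norm_deriv_real_le hf hh h1 t)
    convex_univ (mem_univ _) (mem_univ _)
  calc ‖f x - f y‖ ≤ 1 / h * ‖x - y‖ := this
    _ = |x - y| / h := by rw [Real.norm_eq_abs]; ring

/-- **Propagation of smallness**, lattice version: smallness at the integers of
`[X n, (X + s) n]` gives smallness at all real `x` with `|x| ≤ R n`. -/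
theorem small_propagates_lattice {h s : ℝ} (hh : 0 < h) (hs : 0 < s) (X R : ℝ) {ε : ℝ}
    (hε : 0 < ε) :
    ∃ δ : ℝ, 0 < δ ∧ ∃ n0 : ℝ, 0 < n0 ∧ ∀ n : ℝ, n0 ≤ n → ∀ f : ℂ → ℂ, Differentiable ℂ f →
      (∀ z : ℂ, |z.im| ≤ h * n → ‖f z‖ ≤ 1) →
      (∀ m : ℤ, X * n ≤ m → (m : ℝ) ≤ (X + s) * n → ‖f m‖ ≤ δ) →
      ∀ x : ℝ, |x| ≤ R * n → ‖f x‖ ≤ ε := by
  obtain ⟨δ, hδ, H⟩ := small_propagates hh (s := s / 2) (by linarith) X R hε
  refine ⟨δ / 2, by linarith, max (2 / s) (2 / (h * δ)), by positivity, ?_⟩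
  intro n hn f hf h1 h0 x hx
  have hn1 : 2 / s ≤ n := (le_max_left _ _).trans hn
  have hn2 : 2 / (h * δ) ≤ n := (le_max_right _ _).trans hn
  have hn0 : 0 < n := lt_of_lt_of_le (by positivity) hn1
  have hnC : (n : ℂ) ≠ 0 := by exact_mod_cast hn0.ne'
  have hsn : 2 ≤ s * n := by
    rw [div_le_iff₀ hs] at hn1
    linarith
  have hhn : 1 / (h * n) ≤ δ / 2 := by
    rw [div_le_iff₀ (by positivity)] at hn2
    rw [div_le_iff₀ (by positivity)]
    nlinarith
  have hreal : ∀ y : ℝ, X ≤ y → y ≤ X + s / 2 → ‖f (n * y)‖ ≤ δ := by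
    intro y hy1 hy2
    set m : ℤ := ⌈n * y⌉ with hm
    have hm1 : n * y ≤ m := Int.le_ceil _
    have hm2 : (m : ℝ) < n * y + 1 := Int.ceil_lt_add_one _
    have hfm : ‖f m‖ ≤ δ / 2 := by
      apply h0
      · nlinarith
      · nlinarith
    have hl := lip_real hf (h := h * n) (by positivity) h1 (n * y) m
    have hab : |n * y - m| ≤ 1 := by
      rw [abs_le]
      constructor <;> linarith
    have hl2 : |n * y - m| / (h * n) ≤ δ / 2 :=
      (div_le_div_of_nonneg_right hab (by positivity)).trans hhn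
    push_cast at hl
    calc ‖f (n * y)‖ = ‖(f (n * y) - f m) + f m‖ := by ring_nf
      _ ≤ ‖f (n * y) - f m‖ + ‖f m‖ := norm_add_le _ _
      _ ≤ δ := by linarith
  have := H (fun z => f (n * z)) (hf.comp (differentiable_id.const_mul (n : ℂ)))
    (by
      intro z hz
      apply h1
      have : ((n : ℂ) * z).im = n * z.im := by simp
      rw [this, abs_mul, abs_of_pos hn0]
      nlinarith)
    hreal (x / n)
    (by
      rw [abs_div, abs_of_pos hn0, div_le_iff₀ hn0]
      exact hx)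
  have hxn : (n : ℂ) * ((x / n : ℝ) : ℂ) = x := by
    push_cast
    field_simp
  have h2 : ‖f ((n : ℂ) * ((x / n : ℝ) : ℂ))‖ ≤ ε := this
  rwa [hxn] at h2

end Pool.Agent.SixB.An
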