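import Pool.Agent.Lib.SixB.S0One
import Pool.Agent.Lib.SixB.S3Cut

/-!
# 6BD step 3: reversal of all arrows

* `Z6_swap`: `Z6 Q F (fun a => h a.swap) = Z6 Q F h`, every complex, every `F`, every weight.
* `av_WU_neg`: `av F (WU Q F (-ψ)) = av F (WU Q F ψ)`: the mirror identity `J ↦ Δn/3 - J` on the same
  surface; `av_WU1_neg`, `uE_neg` with one arrow inserted.
* `Z6_odd`: an insertion of `n` signs gets the factor `(-1)^n`.
-/

set_option autoImplicit false
set_option linter.unusedSectionVars false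

namespace Pool.Agent.SixB

open Pool.Agent.Perc.Q Relation

noncomputable section

variable {V Φ : Type} [DecidableEq V] [DecidableEq Φ]
variable {Q : QC V Φ} {F : Finset Φ}

theorem fw_compl (x y : ZMod 4 → Bool) (h : ∀ k, y k = !x k) : fw y = fw x := by
  unfold fw
  rw [h 0, h 1, h 2, h 3]
  generalize x 0 = a
  generalize x 1 = b
  generalize x 2 = c
  generalize x 3 = d
  revert a b c d
  intro a b c d
  cases a <;> cases b <;> cases c <;> cases d <;> simp

theorem arrs_swap {α : Finset (V × V)} (hα : α ∈ Arrs Q F) : rv α ∈ Arrs Q F := by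
  obtain ⟨h1, h2⟩ := Finset.mem_filter.mp hα
  have h1 := Finset.mem_powerset.mp h1
  refine Finset.mem_filter.mpr ⟨Finset.mem_powerset.mpr ?_, ?_⟩
  · intro a ha
    rw [mem_rv] at ha
    exact swap_mem_dE.mp (h1 ha)
  · intro a ha
    rw [mem_rv, mem_rv, Prod.swap_swap]
    have := h2 a ha
    tauto

/-- **Reversal of all arrows.** -/
theorem Z6_swap (h : V × V → ℂ) : Z6 Q F (fun a => h a.swap) = Z6 Q F h := by
  unfold Z6
  refine Finset.sum_bij (fun α _ => rv α) ?_ ?_ ?_ ?_
  · intro α hα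
    exact arrs_swap hα
  · intro α _ β _ hab
    rw [← rv_rv α, ← rv_rv β, hab]
  · intro β hβ
    exact ⟨rv β, arrs_swap hβ, rv_rv β⟩
  · intro α hα
    refine congrArg₂ (· * ·) ?_ ?_
    · refine Finset.prod_congr rfl fun f hf => ?_
      refine fw_compl _ _ fun k => ?_
      have h4 := (Finset.mem_filter.mp hα).2 (sd Q f k) (sd_mem hf _)
      have h5 : sd Q f k ∈ rv α ↔ (sd Q f k).swap ∈ α := mem_rv
      by_cases h6 : sd Q f k ∈ α
      · have h7 := h4.mp h6
        rw [decide_eq_true h6, decide_eq_false (fun hh => h7 (h5.mp hh))]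
        rfl
      · have h7 : (sd Q f k).swap ∈ α := by
          by_contra hh
          exact h6 (h4.mpr hh)
        rw [decide_eq_false h6, decide_eq_true (h5.mpr h7)]
        rfl
    · unfold rv
      rw [Finset.prod_image (fun x _ y _ hxy => Prod.swap_injective hxy)]

/-- the phases of the reversed arrow -/
theorem bph_swap (ψ : V × V → ℝ) {a : V × V} (ha : a ∈ dE Q F) :
    bph Q F ψ a.swap = bph Q F (fun b => -ψ b) a := by
  by_cases h1 : Ini Q (F : Set Φ) a
  · rw [bph_ter ψ (swap_mem_dE.mpr ha) (ter_swap.mpr h1), bph_ini _ h1, Prod.swap_swap]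
    congr 2
    push_cast
    ring
  · by_cases h2 : Ter Q (F : Set Φ) a
    · rw [bph_ini ψ (ini_swap.mpr h2), bph_ter _ ha h2]
      congr 2
      push_cast
      ring
    · rw [bph_in _ h1 h2, bph_in]
      · rw [ini_swap]; exact h2
      · rw [ter_swap]; exact h1

theorem Z6_bph_neg (ψ : V × V → ℝ) :
    Z6 Q F (bph Q F (fun b => -ψ b)) = Z6 Q F (bph Q F ψ) := by
  rw [← Z6_swap (h := bph Q F ψ)]
  exact Z6_congr fun a ha => (bph_swap ψ ha).symm

/-- **The mirror identity**, for the average of the product of the weights of the strands. -/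
theorem av_WU_neg (hQ : NoLoop Q) (ψ : V × V → ℝ) :
    av F (WU Q F (fun b => -ψ b)) = av F (WU Q F ψ) := by
  have h1 := Z6_bph_neg (Q := Q) (F := F) ψ
  rw [Z6_bph hQ, Z6_bph hQ] at h1
  have h2 : (2 : ℝ) ^ F.card * av F (WU Q F (fun b => -ψ b)) = 2 ^ F.card * av F (WU Q F ψ) := by
    exact_mod_cast h1
  exact mul_left_cancel₀ (by positivity) h2

/-! ## Insertions -/

/-- product of the signs of the arrows of the list `E` -/
def sgL (E : List (V × V)) (a : V × V) : ℂ := (E.map fun e => sgE e a).prod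

theorem prod_sgE_swap (hQ : NoLoop Q) {e : V × V} (he : e ∈ dE Q F) {α : Finset (V × V)}
    (hα : α ∈ Arrs Q F) : ∏ a ∈ α, sgE e a.swap = -∏ a ∈ α, sgE e a := by
  have h1 : ∏ a ∈ α, sgE e a.swap = eps e (rv α) := by
    rw [← prod_sgE]
    unfold rv
    rw [Finset.prod_image (fun x _ y _ hxy => Prod.swap_injective hxy)]
  rw [h1, prod_sgE]
  unfold eps
  have h2 := (Finset.mem_filter.mp hα).2 e he
  have h4 : e.swap ∈ rv α ↔ e ∈ α := by rw [mem_rv, Prod.swap_swap]
  by_cases h3 : e ∈ α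
  · rw [if_pos (h4.mpr h3), if_neg (h2.mp h3)]
  · rw [if_neg (fun hh => h3 (h4.mp hh)), if_pos (by by_contra hh; exact h3 (h2.mpr hh)), neg_neg]

theorem Z6_odd (hQ : NoLoop Q) (h : V × V → ℂ) (E : List (V × V)) (hE : ∀ e ∈ E, e ∈ dE Q F) :
    Z6 Q F (fun a => h a.swap * sgL E a) = (-1) ^ E.length * Z6 Q F (fun a => h a * sgL E a) := by
  rw [← Z6_swap (h := fun a => h a * sgL E a)]
  unfold Z6
  rw [Finset.mul_sum]
  refine Finset.sum_congr rfl fun α hα => ?_
  have key : ∀ E : List (V × V), (∀ e ∈ E, e ∈ dE Q F) →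
      ∏ a ∈ α, sgL E a = (-1) ^ E.length * ∏ a ∈ α, sgL E a.swap := by
    intro E
    induction E with
    | nil =>
      intro _
      simp [sgL]
    | cons e E ih =>
      intro hE
      have h1 := ih fun x hx => hE x (List.mem_cons_of_mem _ hx)
      have h2 := prod_sgE_swap hQ (hE e List.mem_cons_self) hα
      have h3 : ∀ a : V × V, sgL (e :: E) a = sgE e a * sgL E a := fun a => by
        unfold sgL
        rw [List.map_cons, List.prod_cons]
      simp only [h3]
      rw [Finset.prod_mul_distrib, Finset.prod_mul_distrib, h1, h2, List.length_cons, pow_succ]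
      ring
  rw [Finset.prod_mul_distrib, Finset.prod_mul_distrib, key E hE]
  ring

theorem Z6_bph_one_neg (hQ : NoLoop Q) (ψ : V × V → ℝ) {e : V × V} (he : e ∈ dE Q F) :
    Z6 Q F (fun a => bph Q F (fun b => -ψ b) a * sgE e a) =
      -Z6 Q F (fun a => bph Q F ψ a * sgE e a) := by
  have h1 := Z6_odd (Q := Q) (F := F) hQ (bph Q F ψ) [e] (by simpa using he)
  have h2 : ∀ a : V × V, sgL [e] a = sgE e a := fun a => by simp [sgL]
  simp only [h2, List.length_singleton, pow_one] at h1
  rw [← neg_one_mul, ← h1]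
  exact Z6_congr fun a ha => by rw [bph_swap ψ ha]

theorem av_WU1_neg (hQ : NoLoop Q) (ψ : V × V → ℝ) {e : V × V} (he : e ∈ dE Q F) :
    av F (WU1 Q F (fun b => -ψ b) e) = -av F (WU1 Q F ψ e) := by
  have h1 := Z6_bph_one_neg (Q := Q) (F := F) hQ ψ he
  rw [Z6_bph_one hQ he, Z6_bph_one hQ he, ← neg_mul] at h1
  have h3 := mul_right_cancel₀ Complex.I_ne_zero h1
  have h2 : (2 : ℝ) ^ F.card * av F (WU1 Q F (fun b => -ψ b) e) =
      -(2 ^ F.card * av F (WU1 Q F ψ e)) := by
    exact_mod_cast h3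
  have h4 : (2 : ℝ) ^ F.card ≠ 0 := by positivity
  apply mul_left_cancel₀ h4
  rw [h2]
  ring

theorem uE_neg (hQ : NoLoop Q) (ψ : V × V → ℝ) {e : V × V} (he : e ∈ dE Q F) :
    uE Q F (fun b => -ψ b) e = -uE Q F ψ e := by
  unfold uE
  rw [av_WU1_neg hQ ψ he, av_WU_neg hQ ψ, neg_div]

end

end Pool.Agent.SixB
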