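import Pool.Agent.Lib.SixB.S3Asm
import Pool.Agent.Lib.SixB.CAEnvF

/-!
# 6BD step 3, point U1, second part: contour environments and the rotation by 90 degrees

* `cidx_rg`, `cenv_rot`, `envJ_rot`, `envN_rot`, `envP_rot`, `envX_rot`: the environment of the rotated contour is the
  rotated environment (`WEnv.move Mot.rot`).
* `hU_cenv_rot` (joined vertices), `hU_rot` (all vertices of the refinement, any two base points), `hM_rot`, `Z_rot`.
* `uN_rot`, `uP_rot`, `uX_rot`: `uN (rP P) L (rg g) n b (rv v) = uN P L g n b v` for all vertices `v` of `rf n P`.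
* `mfam_rot`: the families of marks of the rotated contour.
* `core_rot`: `Core` for the rotated polygon in the form used by `wh_of_core`; `wh_of_fam`.
-/

set_option autoImplicit false

namespace Pool.Agent.SixB.Rt

open Complex Filter Topology
open Pool.Agent.Perc Pool.Agent.Perc.Q

noncomputable section

variable {P F : Finset (ℤ × ℤ)} {L m : ℕ} {g b : ℤ → ℤ × ℤ} {j : ℤ → ℝ} {n : ℕ} {z z' v : VZ}

/-! ## Environments -/

theorem idxOf_map_inj {α β : Type} [BEq α] [LawfulBEq α] [BEq β] [LawfulBEq β] {f : α → β}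
    (hf : Function.Injective f) (l : List α) (a : α) : (l.map f).idxOf (f a) = l.idxOf a := by
  induction l with
  | nil => rfl
  | cons x l ih =>
    rw [List.map_cons, List.idxOf_cons, List.idxOf_cons, ih]
    by_cases h : x = a
    · subst h
      simp
    · have h1 : f x ≠ f a := fun h2 => h (hf h2)
      rw [beq_false_of_ne h, beq_false_of_ne h1]

theorem cidx_rg (b : ℤ → ℤ × ℤ) (m : ℕ) (a : DZ) : cidx (rg b) m (Mot.rot.e a) = cidx b m a := by
  unfold cidx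
  have h : ((List.range m).map fun i : ℕ => ((rg b i, rg b (i + 1)) : DZ)) =
      ((List.range m).map fun i : ℕ => ((b i, b (i + 1)) : DZ)).map Mot.rot.e := by
    rw [List.map_map]
    rfl
  rw [h]
  exact idxOf_map_inj Mot.rot.e.injective _ _

theorem cidx_rg' (b : ℤ → ℤ × ℤ) (m : ℕ) (a : DZ) :
    cidx (rg b) m a = cidx b m (Mot.rot.e.symm a) := by
  have h := cidx_rg b m (Mot.rot.e.symm a)
  rwa [Equiv.apply_symm_apply] at h

/-- **the environment of the rotated contour** -/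
theorem cenv_rot (F : Finset (ℤ × ℤ)) (b : ℤ → ℤ × ℤ) (m : ℕ) (j : ℤ → ℝ) :
    cenv (rP F) (rg b) m j = (cenv F b m j).move Mot.rot := by
  unfold cenv WEnv.move
  simp only [WEnv.mk.injEq]
  refine ⟨rfl, ?_, ?_⟩
  · funext a a'
    rw [cidx_rg', cidx_rg']
  · funext a a'
    rw [cidx_rg', cidx_rg']

theorem envJ_rot (P : Finset (ℤ × ℤ)) (L : ℕ) (g : ℤ → ℤ × ℤ) (n : ℕ) (j : ℤ → ℝ) :
    envJ (rP P) L (rg g) n j = (envJ P L g n j).move Mot.rot := by
  unfold envJ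
  rw [rf_rP, gr_rg', cenv_rot]

theorem envN_rot (P : Finset (ℤ × ℤ)) (L : ℕ) (g : ℤ → ℤ × ℤ) (n : ℕ) (b : ℤ) :
    envN (rP P) L (rg g) n b = (envN P L g n b).move Mot.rot := envJ_rot P L g n _

theorem envP_rot (P : Finset (ℤ × ℤ)) (L : ℕ) (g : ℤ → ℤ × ℤ) (n : ℕ) (α : ℝ) (i i' : ℤ) :
    envP (rP P) L (rg g) n α i i' = (envP P L g n α i i').move Mot.rot := envJ_rot P L g n _

theorem envX_rot (P : Finset (ℤ × ℤ)) (L : ℕ) (g : ℤ → ℤ × ℤ) (n : ℕ) (α : ℝ) (i j j' l k : ℤ) :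
    envX (rP P) L (rg g) n α i j j' l k = (envX P L g n α i j j' l k).move Mot.rot :=
  envJ_rot P L g n _

theorem Z_rot (P : Finset (ℤ × ℤ)) (L : ℕ) (g : ℤ → ℤ × ℤ) (n : ℕ) (j : ℤ → ℝ) :
    (envJ (rP P) L (rg g) n j).Z = (envJ P L g n j).Z := by
  rw [envJ_rot, WEnv.Z_move]

/-! ## Heights -/

/-- motions and height numerators -/
theorem hM_move (E : WEnv) (hP : Tilt.HasPotQ ZQ E.F) (m : Mot) (hz : Tilt.ConnE ZQ E.F z z') :
    (E.move m).hM (m.φ z) (m.φ z') = E.hM z z' := by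
  have key : ∀ (E : WEnv) {z z' : VZ}, Tilt.HasPotQ ZQ E.F → Tilt.ConnE ZQ E.F z z' →
      ∀ u : VZ → ℝ, (∀ a ∈ dE ZQ E.F, u a.1 - u a.2 = av E.F (fun ω => E.num ω a)) →
        E.hM z z' = u z - u z' := by
    intro E z z' hP hz u hu
    have h := Tilt.sub_eq_of_inc (G := E.F) (u := fun v => E.hM v z') (v := u) (z := z) (z' := z')
      (fun a ha => by
        show E.hM a.1 z' - E.hM a.2 z' = _
        rw [hu a ha]
        have h1 : E.hM a.1 z' - E.hM a.2 z' = E.hM a.1 a.2 := by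
          rw [← E.hM_add a.1 a.2 z']
          ring
        rw [h1]
        unfold WEnv.hM
        exact av_congr fun _ _ => E.hN_sub hP ha) hz
    have h2 : E.hM z' z' = 0 := E.hM_self z'
    show E.hM z z' = _
    have h3 : E.hM z z' - E.hM z' z' = u z - u z' := h
    rw [h2, sub_zero] at h3
    exact h3
  rw [key E hP hz (fun v => (E.move m).hM (m.φ v) (m.φ z')), (E.move m).hM_self, sub_zero]
  intro a ha
  show (E.move m).hM (m.φ a.1) (m.φ z') - (E.move m).hM (m.φ a.2) (m.φ z') = _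
  have h1 : (E.move m).hM (m.φ a.1) (m.φ z') - (E.move m).hM (m.φ a.2) (m.φ z') =
      (E.move m).hM (m.φ a.1) (m.φ a.2) := by
    rw [← (E.move m).hM_add (m.φ a.1) (m.φ a.2) (m.φ z')]
    ring
  rw [h1]
  have h2 : m.e a ∈ dE ZQ (E.move m).F := m.mem_dE_e.mpr ha
  have h3 : (E.move m).hM (m.φ a.1) (m.φ a.2) = av (E.move m).F (fun ω => (E.move m).num ω (m.e a)) := by
    unfold WEnv.hM
    refine av_congr fun T _ => ?_
    have h4 := (E.move m).hN_sub (ω := ind T) (hasPotQ_move m hP) h2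
    exact h4
  rw [h3, WEnv.move_F, m.av_move (g' := fun ω => (E.move m).num ω (m.e a)) (WEnv.num_dep E a)
    fun ω => WEnv.num_move m ω a]

theorem hU_cenv_rot (hP : Tilt.HasPotQ ZQ F) (hz : Tilt.ConnE ZQ F z z') :
    (cenv (rP F) (rg b) m j).hU (rv z) (rv z') = (cenv F b m j).hU z z' := by
  rw [cenv_rot]
  exact (cenv F b m j).hU_move hP Mot.rot (hasPotQ_move Mot.rot hP) hz

/-- **mean heights are covariant under the rotation** -/
theorem hU_rot (hP : MPoly P) (hc : Cont P L g) (hn : 0 < n) (hz : z ∈ VX (rf n P))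
    (hz' : z' ∈ VX (rf n P)) (j : ℤ → ℝ) :
    (envJ (rP P) L (rg g) n j).hU (rv z) (rv z') = (envJ P L g n j).hU z z' := by
  have h1 := CARf.mpoly_rf hP hn
  rw [envJ_rot]
  exact (envJ P L g n j).hU_move h1.potQ Mot.rot (hasPotQ_move Mot.rot h1.potQ)
    (h1.connV (CARf.cont_rf hc hn) hz hz')

theorem hM_rot (hP : MPoly P) (hc : Cont P L g) (hn : 0 < n) (hz : z ∈ VX (rf n P))
    (hz' : z' ∈ VX (rf n P)) (j : ℤ → ℝ) :
    (envJ (rP P) L (rg g) n j).hM (rv z) (rv z') = (envJ P L g n j).hM z z' := by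
  have h1 := CARf.mpoly_rf hP hn
  rw [envJ_rot]
  exact hM_move (envJ P L g n j) h1.potQ Mot.rot (h1.connV (CARf.cont_rf hc hn) hz hz')

theorem gr_mem (hc : Cont P L g) (hn : 0 < n) (k : ℤ) : gr n g k ∈ VX (rf n P) :=
  (CARf.cont_rf hc hn).mem_VX k

theorem rv_mem_VX : rv v ∈ VX (rP F) ↔ v ∈ VX F := by
  obtain ⟨x, y⟩ := v
  rw [mem_VX_iff, mem_VX_iff]
  show (-y, x) ∈ rP F ∨ (-y - 1, x) ∈ rP F ∨ (-y - 1, x - 1) ∈ rP F ∨ (-y, x - 1) ∈ rP F ↔ _
  rw [mk_mem_rP, mk_mem_rP, mk_mem_rP, mk_mem_rP]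
  have e1 : -(-y) - 1 = y - 1 := by ring
  have e2 : -(-y - 1) - 1 = y := by ring
  rw [e1, e2]
  show _ ↔ (x, y) ∈ F ∨ (x - 1, y) ∈ F ∨ (x - 1, y - 1) ∈ F ∨ (x, y - 1) ∈ F
  tauto

/-- all heights, base point `gr n g 0` -/
theorem hU_rot0 (hP : MPoly P) (hc : Cont P L g) (hn : 0 < n) (hv : v ∈ VX (rf n P)) (j : ℤ → ℝ)
    (k : ℤ) :
    (envJ (rP P) L (rg g) n j).hU (rv v) (gr n (rg g) k) = (envJ P L g n j).hU v (gr n g k) := by
  rw [gr_rg]
  exact hU_rot hP hc hn hv (gr_mem hc hn k) j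

theorem uN_rot (hP : MPoly P) (hc : Cont P L g) (hn : 0 < n) (hv : v ∈ VX (rf n P)) (b : ℤ) :
    uN (rP P) L (rg g) n b (rv v) = uN P L g n b v := hU_rot0 hP hc hn hv _ b

theorem uP_rot (hP : MPoly P) (hc : Cont P L g) (hn : 0 < n) (hv : v ∈ VX (rf n P)) (α : ℝ)
    (i i' : ℤ) : uP (rP P) L (rg g) n α i i' (rv v) = uP P L g n α i i' v :=
  hU_rot0 hP hc hn hv _ 0

theorem uX_rot (hP : MPoly P) (hc : Cont P L g) (hn : 0 < n) (hv : v ∈ VX (rf n P)) (α : ℝ)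
    (i j j' l k : ℤ) : uX (rP P) L (rg g) n α i j j' l k (rv v) = uX P L g n α i j j' l k v := by
  have h1 := fun k => hM_rot hP hc hn hv (gr_mem hc hn 0) (jX (n * L) α i j j' l k)
  have h2 := fun k => Z_rot P L g n (jX (n * L) α i j j' l k)
  unfold uX envX
  rw [h2, h2, gr_rg, h1, h1]

/-! ## Families of marks -/

/-- **the families of marks of the rotated contour** -/
theorem mfam_rot {ι : Type} {l : Filter ι} {n : ι → ℕ} {j : ι → ℤ → ℝ} (h : MFam L g l n j) :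
    MFam L (rg g) l n j := by
  cases h with
  | nat s b hs hb => exact .nat s b (fl_rg.mpr hs) hb
  | pair α s s' b b' hα hs hs' h1 h2 hb hb' =>
    exact .pair α s s' b b' hα (fl_rg.mpr hs) (fl_rg.mpr hs') h1 h2 hb hb'
  | full α t₁ t₂ t₂' t₃ t₄ b₁ b₂ b₂' b₃ k hα hm h₁ h₂ h₂' h₃ h₄ =>
    exact .full α t₁ t₂ t₂' t₃ t₄ b₁ b₂ b₂' b₃ k hα (marks hm) h₁ h₂ h₂' h₃ h₄

/-! ## The export -/

/-- `Core` of the rotated polygon in the form used by `wh_of_core` -/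
theorem core_rot {ι : Type} {χ : ℂ → ℝ} {l : Filter ι} {n : ι → ℕ} {j : ι → ℤ → ℝ} {Y : Set ℝ}
    (hP : MPoly P) (hc : Cont P L g) (hn : Tendsto n l atTop)
    (h : Asm3.Core χ (rP P) l n (fun i v => (envJ (rP P) L (rg g) (n i) (j i)).hU v (gr (n i) (rg g) 0)) Y) :
    Asm3.Core χ (rP P) l n (fun i v => (envJ P L g (n i) (j i)).hU (rvi v) (gr (n i) g 0)) Y := by
  refine h.congr hn ?_
  filter_upwards [hn.eventually_gt_atTop 0] with i hi
  refine ⟨0, fun v hv => ?_⟩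
  rw [add_zero]
  have h1 : rvi v ∈ VX (rf (n i) P) := by
    rw [← rv_mem_VX, rv_rvi, ← rf_rP]
    exact mem_VX_iff.mpr (Or.inl hv)
  have h2 := hU_rot0 hP hc hi h1 (j i) 0
  rw [rv_rvi] at h2
  exact h2.symm

open scoped ContDiff in
/-- **from the horizontal slabs of all polygons to the property `WH`** -/
theorem wh_of_fam {ι : Type} {χ : ℂ → ℝ} (hχ : ContDiff ℝ ∞ χ) (hcs : HasCompactSupport χ)
    (hI : ∀ z, χ (I * z) = χ z) (hR : tsupport χ ⊆ Metric.closedBall 0 1) {l : Filter ι} {n : ι → ℕ}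
    {j : ι → ℤ → ℝ} (hP : MPoly P) (hc : Cont P L g) (hn : Tendsto n l atTop) (hj : MFam L g l n j)
    (hS : ∀ (P : Finset (ℤ × ℤ)) (L : ℕ) (g : ℤ → ℤ × ℤ), MPoly P → Cont P L g → MFam L g l n j →
      ∃ X : Set ℝ, X.Finite ∧
        Asm3.Core χ P l n (fun i v => (envJ P L g (n i) (j i)).hU v (gr (n i) g 0)) X) :
    ∃ S : Set ℂ, S.Finite ∧ ∀ z0 ∈ Om P \ S, ∃ ρ > 0, ∀ ε > 0, ∃ r0 > 0, ∀ z ∈ Metric.ball z0 ρ,
      ∀ r : ℝ, 0 < r → r < r0 → ∀ᶠ i in l, |∑' v : ℤ × ℤ, χ ((DC.mesh (n i) v - z) / r) *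
        DC.lapZ ((fun i v => (envJ P L g (n i) (j i)).hU v (gr (n i) g 0)) i) v| ≤ ε * r ^ 2 := by
  obtain ⟨X, hX, h1⟩ := hS P L g hP hc hj
  obtain ⟨Y, hY, h2⟩ := hS (rP P) L (rg g) (mpoly hP) (cont hc) (mfam_rot hj)
  exact Asm3.wh_of_core hχ hcs hI hR hn hX hY h1 (core_rot hP hc hn h2)

end

end Pool.Agent.SixB.Rt
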