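import Pool.Agent.Lib.SixB.S1Joint
import Pool.Agent.Lib.SixB.S3OpSmall

/-!
# `op_small` on the cylinder

`HN N` with the row matrix `tL N (π/6)` and the even translation `tL N 0 ^ 2`.  The insertion `J`
is a bounded operator.  Smallness of the matrix elements for all shifts in a window is propagated
to the shift `0`.
-/

set_option autoImplicit false

namespace Pool.Agent.SixB

open Pool.Agent.SixV Complex Finset
open scoped Real ComplexConjugate InnerProductSpace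

/-- `t(0)` translates the configuration. -/
theorem tL_zero_apply {n : ℕ} (v : HN (n + 1)) (s : Fin (n + 1) → Bool) :
    tL (n + 1) 0 v s = v (fun j => s (j - 1)) := by
  have h : tL (n + 1) 0 v s = ∑ s₀, T (n + 1) 0 s s₀ * v s₀ := rfl
  rw [h, sum_eq_single (fun j => s (j - 1))]
  · rw [T_zero, if_pos (by ext j; simp), one_mul]
  · intro b _ hb
    rw [T_zero, if_neg, zero_mul]
    intro h1
    apply hb
    rw [h1]
    ext j
    simp
  · intro h1
    exact absurd (mem_univ _) h1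

theorem tL_zero_pow_apply {n : ℕ} (m : ℕ) (v : HN (n + 1)) (s : Fin (n + 1) → Bool) :
    (tL (n + 1) 0 ^ m) v s = v (fun j => s (j - Fin.ofNat (n + 1) m)) := by
  induction m generalizing s with
  | zero => simp
  | succ m ih =>
    rw [pow_succ', Module.End.mul_apply, tL_zero_apply, ih]
    have h : ∀ j : Fin (n + 1), j - Fin.ofNat (n + 1) m - 1 = j - Fin.ofNat (n + 1) (m + 1) := by
      intro j
      have : Fin.ofNat (n + 1) (m + 1) = Fin.ofNat (n + 1) m + 1 := by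
        apply Fin.ext
        simp [Fin.val_add]
      rw [this]
      abel
    simp_rw [h]

theorem tL_zero_pow_self {N : ℕ} (hN : 1 ≤ N) : tL N 0 ^ N = 1 := by
  obtain ⟨n, rfl⟩ : ∃ n, N = n + 1 := ⟨N - 1, by omega⟩
  apply LinearMap.ext
  intro v
  apply PiLp.ext
  intro s
  rw [tL_zero_pow_apply]
  simp

theorem tL_zero_iso {N : ℕ} (hN : 1 ≤ N) (x y : HN N) :
    ⟪tL N 0 x, tL N 0 y⟫_ℂ = ⟪x, y⟫_ℂ := by
  obtain ⟨n, rfl⟩ : ∃ n, N = n + 1 := ⟨N - 1, by omega⟩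
  rw [PiLp.inner_apply, PiLp.inner_apply]
  simp_rw [tL_zero_apply]
  let e : (Fin (n + 1) → Bool) ≃ (Fin (n + 1) → Bool) :=
    { toFun := fun s j => s (j - 1)
      invFun := fun s j => s (j + 1)
      left_inv := fun s => by ext j; simp
      right_inv := fun s => by ext j; simp }
  exact e.sum_comp (fun s => ⟪x s, y s⟫_ℂ)

/-- The even translation. -/
noncomputable abbrev W2 (N : ℕ) : HN N →ₗ[ℂ] HN N := tL N 0 ^ 2

theorem W2_pow_self {N : ℕ} (hN : 1 ≤ N) : W2 N ^ N = 1 := by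
  rw [W2, ← pow_mul, mul_comm, pow_mul, tL_zero_pow_self hN, one_pow]

theorem W2_iso {N : ℕ} (hN : 1 ≤ N) (x y : HN N) : ⟪W2 N x, W2 N y⟫_ℂ = ⟪x, y⟫_ℂ := by
  rw [W2, pow_two, Module.End.mul_apply, Module.End.mul_apply, tL_zero_iso hN, tL_zero_iso hN]

theorem W2_commute (N : ℕ) (a : ℕ) : Commute (tL N (π / 6) ^ a) (W2 N) :=
  (tL_commute N (π / 6) 0).pow_pow a 2

/-- `‖T ^ a (W ^ z v)‖` is bounded for the continued even shift (`W = t(0)²`). -/
theorem norm_pow_shift_le {c C : ℝ} (hw : WeakCone c C) {N : ℕ} (hN : 1 ≤ N) (a : ℕ)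
    {z : ℂ} (hz : |z.im| ≤ c * a) (v : HN N) :
    ‖(tL N (π / 6) ^ a) (An.shift (W2 N) N z v)‖ ≤ Real.exp (C * a / N) * ‖v‖ :=
  An.norm_damped_shift_le (b := c * a) hN (W2_pow_self hN) (W2_iso hN) (W2_commute N a)
    (Real.exp_pos _).le (fun _ x hx => cone_pow hw hN a (An.abs_ang_le_pi _) x hx) hz v

/-- **Smallness is propagated, cylinder version.**  `T = t(π/6)`, `W = t(0)²` (even translation),
`a` rows above and below the insertion `J`.  If `‖d‖ ‖u‖ ≤ C Z`, `J` is bounded by `B` and all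
matrix elements with both shifts in the window `[X n, (X + s) n]` are at most `δ Z`, then the matrix
element with shifts `0` is at most `ε Z`. -/
theorem cyl_small {c C₀ : ℝ} (hw : WeakCone c C₀) (hc : 0 < c) {h s C B : ℝ} (hh : 0 < h)
    (hs : 0 < s) (hC : 0 < C) (hB : 0 < B) {X : ℝ} (hX : 0 ≤ X) {ε : ℝ} (hε : 0 < ε) :
    ∃ δ : ℝ, 0 < δ ∧ ∃ n₀ : ℝ, 0 < n₀ ∧ ∀ n : ℝ, n₀ ≤ n → ∀ N a : ℕ, 1 ≤ N → a ≤ N →
      h * n ≤ a → ∀ (J J' : HN N →ₗ[ℂ] HN N), (∀ x y, ⟪J' x, y⟫_ℂ = ⟪x, J y⟫_ℂ) →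
      (∀ x, ‖J x‖ ≤ B * ‖x‖) → ∀ (d u : HN N) (Z : ℝ), 0 < Z → ‖d‖ * ‖u‖ ≤ C * Z →
      (∀ x y : ℕ, X * n ≤ x → (x : ℝ) ≤ (X + s) * n → X * n ≤ y → (y : ℝ) ≤ (X + s) * n →
        ‖⟪(tL N (π / 6) ^ a) ((W2 N ^ x) d), J ((tL N (π / 6) ^ a) ((W2 N ^ y) u))⟫_ℂ‖
          ≤ δ * Z) →
      ‖⟪(tL N (π / 6) ^ a) d, J ((tL N (π / 6) ^ a) u)⟫_ℂ‖ ≤ ε * Z := by
  set K : ℝ := Real.exp |C₀| with hK
  have hKpos : 0 < K := Real.exp_pos _
  obtain ⟨δ, hδ, n₀, hn₀, P⟩ := An.op_small.{0} (h := c * h) (s := s) (C := K * (K * (B * C)))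
    (by positivity) hs (by positivity) hX hε
  refine ⟨δ, hδ, n₀, hn₀, ?_⟩
  intro n hn N a hN ha hna J J' hJ hJB d u Z hZ hdu hS
  have hN0 : (0 : ℝ) < N := by exact_mod_cast hN
  have haN : (a : ℝ) ≤ N := by exact_mod_cast ha
  have hnpos : 0 < n := lt_of_lt_of_le hn₀ hn
  have hexp : Real.exp (C₀ * a / N) ≤ K := by
    apply Real.exp_le_exp.mpr
    rw [div_le_iff₀ hN0]
    calc C₀ * a ≤ |C₀| * a := mul_le_mul_of_nonneg_right (le_abs_self _) (Nat.cast_nonneg _)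
      _ ≤ |C₀| * N := mul_le_mul_of_nonneg_left haN (abs_nonneg _)
  have hcone : ∀ (j : Fin N) (v : HN N), W2 N v = exp (I * (An.ang N j : ℂ)) • v →
      ‖(tL N (π / 6) ^ a) v‖ ≤ K * Real.exp (-(c * h * n * |An.ang N j|)) * ‖v‖ := by
    intro j v hv
    refine (cone_pow hw hN a (An.abs_ang_le_pi j) v hv).trans ?_
    apply mul_le_mul_of_nonneg_right _ (norm_nonneg _)
    apply mul_le_mul hexp _ (Real.exp_pos _).le hKpos.le
    apply Real.exp_le_exp.mpr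
    have h1 : c * h * n ≤ c * a := by
      rw [mul_assoc]
      exact mul_le_mul_of_nonneg_left hna hc.le
    have := mul_le_mul_of_nonneg_right h1 (abs_nonneg (An.ang N j))
    linarith
  have hTn : ∀ v : HN N, ‖(tL N (π / 6) ^ a) v‖ ≤ K * ‖v‖ := by
    intro v
    have h1 := norm_pow_shift_le hw hN a (z := 0) (by
      rw [Complex.zero_im, abs_zero]
      positivity) v
    rw [An.shift_zero (by omega)] at h1
    exact h1.trans (mul_le_mul_of_nonneg_right hexp (norm_nonneg _))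
  have hJ'B : ∀ x, ‖J' x‖ ≤ B * ‖x‖ := by
    intro x
    have h1 : ‖J' x‖ ^ 2 ≤ (B * ‖x‖) * ‖J' x‖ := by
      have h2 : ((‖J' x‖ ^ 2 : ℝ) : ℂ) = ⟪x, J (J' x)⟫_ℂ := by
        rw [← hJ, inner_self_eq_norm_sq_to_K]
        push_cast
        rfl
      have h3 : ‖J' x‖ ^ 2 = ‖⟪x, J (J' x)⟫_ℂ‖ := by
        rw [← h2, Complex.norm_real, Real.norm_eq_abs, abs_of_nonneg (by positivity)]
      rw [h3]
      calc ‖⟪x, J (J' x)⟫_ℂ‖ ≤ ‖x‖ * ‖J (J' x)‖ := norm_inner_le_norm _ _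
        _ ≤ ‖x‖ * (B * ‖J' x‖) := mul_le_mul_of_nonneg_left (hJB _) (norm_nonneg _)
        _ = (B * ‖x‖) * ‖J' x‖ := by ring
    rcases eq_or_lt_of_le (norm_nonneg (J' x)) with h0 | h0
    · rw [← h0]
      positivity
    · rw [pow_two] at h1
      exact le_of_mul_le_mul_right h1 h0
  have hW : ∀ (m : ℕ) (v : HN N), ‖(W2 N ^ m) v‖ = ‖v‖ := by
    intro m v
    induction m with
    | zero => simp
    | succ m ih =>
      rw [pow_succ', Module.End.mul_apply, ← ih]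
      have h1 := W2_iso hN ((W2 N ^ m) v) ((W2 N ^ m) v)
      rw [inner_self_eq_norm_sq_to_K, inner_self_eq_norm_sq_to_K] at h1
      have h2 : ‖W2 N ((W2 N ^ m) v)‖ ^ 2 = ‖(W2 N ^ m) v‖ ^ 2 := by exact_mod_cast h1
      exact (sq_eq_sq₀ (norm_nonneg _) (norm_nonneg _)).1 h2
  have hbd : ∀ x y : ℝ, 0 ≤ x → 0 ≤ y → x * y ≤ C * Z →
      B * (K * x) * (K * y) ≤ K * (K * (B * C)) * Z := by
    intro x y _ _ hxy
    calc B * (K * x) * (K * y) = K * (K * B) * (x * y) := by ring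
      _ ≤ K * (K * B) * (C * Z) := mul_le_mul_of_nonneg_left hxy (by positivity)
      _ = K * (K * (B * C)) * Z := by ring
  refine P n hn (HN N) (W2 N) (tL N (π / 6) ^ a) (tL N (π / 6) ^ a) J J' N (by omega)
    (W2_pow_self hN) (W2_iso hN) (W2_commute N a) (W2_commute N a) hJ K K hKpos.le hKpos.le
    hcone hcone d u Z hZ ?_ ?_ hS
  · intro m _ _
    refine le_trans ?_ (hbd ‖d‖ ‖u‖ (norm_nonneg _) (norm_nonneg _) hdu)
    apply mul_le_mul_of_nonneg_right _ (mul_nonneg hKpos.le (norm_nonneg _))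
    refine (hJ'B _).trans (mul_le_mul_of_nonneg_left ?_ hB.le)
    refine (hTn _).trans (le_of_eq ?_)
    rw [hW]
  · refine le_trans ?_ (hbd ‖u‖ ‖d‖ (norm_nonneg _) (norm_nonneg _) (by rw [mul_comm]; exact hdu))
    apply mul_le_mul_of_nonneg_right _ (mul_nonneg hKpos.le (norm_nonneg _))
    exact (hJB _).trans (mul_le_mul_of_nonneg_left (hTn _) hB.le)

end Pool.Agent.SixB
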