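import Pool.Agent.Lib.SixB.S3HDp
import Pool.Agent.Lib.SixB.S3MthD
import Pool.Agent.Lib.SixB.S3MouthK
import Pool.Agent.Lib.SixB.S3MouthT
import Pool.Agent.Lib.SixB.S3ZplE

/-!
# 6BD step 3.8 (R18): the polygon with closed tubes and the polygon

`S : Slb`, `h : S.Ok`, complex of `E = S.env W 0 0`, `0 < c < S.k`.
* `tR`, `tL`: the two tubes of `S.G c` as closed mouths (`MT.TMouth`);
* `tdata`: `MT.TData` for `S.G c` and `S.G 0` with the phases `S.phG c`, `S.phG 0`;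
* `G0_image`: `S.G 0` is the image of `S.D`; `nW_D`, `nW1_D`: its weights are those of `S.D`, `S.ψ` in the plane;
* `nW_tube`, `nW1_tube`: off the event `badE` the weights of `S.G c` are those of `S.D`.
-/

set_option autoImplicit false
set_option linter.unusedSectionVars false
set_option linter.unusedVariables false

namespace Pool.Agent.SixB.SlbD

open Pool.Agent.Perc.Q Pool.Agent.Perc Pool.Agent.SixB
open Pool.Agent.SixB.EnvB (Thk upM loM)
open Pool.Agent.SixB.MthD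
open Pool.Agent.SixB.MT (TMouth TData nbF HBx Tub mEnd mMth)
open Pool.Agent.SixB.Tilt (k4)

noncomputable section

variable {S : Slb} {W : Finset (ℤ × ℤ)} {R c : ℕ} {f v : ℤ × ℤ} {x y : ℤ}

/-! ## Faces -/

theorem U_eq : (S.env W 0 0).U = S.Up := shF_zero S.Up

theorem L_eq : (S.env W 0 0).L = S.Lo := shF_zero S.Lo

theorem G_reg (h : S.Ok) (hW : Win S W) (hf : Reg S f) (h1 : S.x1 - c ≤ f.1) (h2 : f.1 < S.x2 + c) :
    (sh S f, f) ∈ S.G c := by
  rw [Slb.mem_G]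
  rcases reg_cases h hW hf with h3 | h3 | h3
  · exact Or.inr (Or.inl ⟨h3.1, U_eq ▸ h3.2.1⟩)
  · exact Or.inr (Or.inr ⟨h3.1, L_eq ▸ h3.2.1⟩)
  · exact Or.inl ⟨h3.1, Slb.mem_strip.mpr ⟨h1, h2, h3.2.2.1, h3.2.2.2⟩⟩

theorem G_sub (h : S.Ok) (hW : Win S W) (hc : c ≤ S.k) : S.G c ⊆ (S.env W 0 0).F := by
  intro g hg
  obtain ⟨s, g⟩ := g
  rw [Slb.mem_G] at hg
  rcases hg with ⟨h1, h2⟩ | ⟨h1, h2⟩ | ⟨h1, h2⟩ <;> simp only at h1 h2 <;> subst h1
  · rw [Slb.mem_strip] at h2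
    exact EnvB.mem_F_none.mpr (tube_base hW (by omega) (by omega) h2.2.2.1 h2.2.2.2)
  · exact EnvB.mem_F_up.mpr (U_eq ▸ h2)
  · exact EnvB.mem_F_lo.mpr (L_eq ▸ h2)

theorem sh_none (h1 : S.yc - S.a ≤ f.2) (h2 : f.2 < S.yc + S.a) : sh S f = none := by
  unfold sh
  rw [if_neg (by omega), if_neg (by omega)]

theorem vh_none (h1 : S.yc - S.a ≤ v.2) (h2 : v.2 ≤ S.yc + S.a) : vh S v = none := by
  unfold vh
  rw [if_neg (by omega), if_neg (by omega)]

/-- the chart of a set of faces next to the slab in `S.G c` -/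
def chG (h : S.Ok) (hW : Win S W) (P : Finset (ℤ × ℤ))
    (hP : ∀ f ∈ P, Reg S f ∧ S.x1 - c ≤ f.1 ∧ f.1 < S.x2 + c) : PChart (S.env W 0 0).Q (S.G c) P where
  φV := fun v => (vh S v, v)
  φF := fun f => (sh S f, f)
  cor := fun f hf k => reg_cor h hW (hP f hf).1 k
  inj := fun _ _ _ _ _ _ h => (Prod.mk.inj h).2
  sub := fun f hf => G_reg h hW (hP f hf).1 (hP f hf).2.1 (hP f hf).2.2

theorem chG_side (h : S.Ok) (hW : Win S W) (P : Finset (ℤ × ℤ))
    (hP : ∀ f ∈ P, Reg S f ∧ S.x1 - c ≤ f.1 ∧ f.1 < S.x2 + c) (a : (ℤ × ℤ) × (ℤ × ℤ)) :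
    (chG h hW P hP).side a = sd2 S a := rfl

/-- a side of a face next to the slab -/
theorem sd2_sd (h : S.Ok) (hW : Win S W) (hf : Reg S f) (k : ZMod 4) :
    sd2 S (sd ZQ f k) = sd (S.env W 0 0).Q (sh S f, f) k := by
  unfold sd sd2
  rw [reg_cor h hW hf, reg_cor h hW hf]

theorem mthR (h : S.Ok) (hR : R ≤ S.k) (hc : c ≤ S.k) (hf : f ∈ Mth true (S.x2, S.yc) R S.a c) :
    Reg S f ∧ S.x1 - c ≤ f.1 ∧ f.1 < S.x2 + c := by
  have hx := h.hx
  refine ⟨regR h hR hc f hf, ?_⟩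
  rw [mem_Mth_left] at hf
  simp only at hf
  omega

theorem mthL (h : S.Ok) (hR : R ≤ S.k) (hc : c ≤ S.k) (hf : f ∈ Mth false (S.x1, S.yc) R S.a c) :
    Reg S f ∧ S.x1 - c ≤ f.1 ∧ f.1 < S.x2 + c := by
  have hx := h.hx
  refine ⟨regL h hR hc f hf, ?_⟩
  rw [mem_Mth_right] at hf
  simp only at hf
  omega

/-- a boundary side of the environment is one of `S.G c` -/
theorem down (h : S.Ok) (hW : Win S W) (hc : c ≤ S.k) (hf : Reg S f) (h1 : S.x1 - c ≤ f.1)
    (h2 : f.1 < S.x2 + c) {k : ZMod 4} (hb : sd2 S (sd ZQ f k) ∈ bS (S.env W 0 0).Q (S.env W 0 0).F) :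
    sd2 S (sd ZQ f k) ∈ bS (S.env W 0 0).Q (S.G c) := by
  refine bS_of_sub (G_sub h hW hc) hb ?_
  rw [sd2_sd h hW hf]
  exact sd_mem (G_reg h hW hf h1 h2) k

/-- the closed end on the right -/
theorem endR (h : S.Ok) (hW : Win S W) (hc : c < S.k) (hy1 : S.yc - S.a ≤ y) (hy2 : y < S.yc + S.a) :
    sd2 S (sd ZQ (S.x2 + c - 1, y) 1) ∈ bS (S.env W 0 0).Q (S.G c) := by
  have hx := h.hx
  have ha := h.ha
  have hak := h.hak
  have r1 : Reg S (S.x2 + c - 1, y) := by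
    by_cases hc0 : c = 0
    · subst hc0
      exact Or.inl ⟨by simp only; omega, by simp only; omega, by simp only; omega, by simp only; omega⟩
    · exact Or.inr ⟨by simp only; omega, by simp only; omega, hy1, hy2⟩
  have r2 : Reg S (S.x2 + c, y) := Or.inr ⟨by simp only; omega, by simp only; omega, hy1, hy2⟩
  refine mem_bS.mpr ⟨?_, ?_⟩
  · rw [sd2_sd h hW r1]
    exact sd_mem (G_reg h hW r1 (by simp only; omega) (by simp only; omega)) 1
  · intro g hg l hl
    have hl' : sd2 S (sd ZQ (S.x2 + c - 1, y) 1) = (sd (S.env W 0 0).Q g l).swap := hl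
    have e1 : (sd2 S (sd ZQ (S.x2 + c - 1, y) 1)).swap = sd2 S (sd ZQ (S.x2 + c, y) 3) := by
      have := MT.sd_nb (S.x2 + c - 1, y) 1
      rw [MT.nb1] at this
      show sd2 S (sd ZQ (S.x2 + c - 1, y) 1).swap = _
      rw [this]
      simp only [sub_add_cancel]
      rfl
    have e2 : sd (S.env W 0 0).Q g l = sd (S.env W 0 0).Q (sh S (S.x2 + c, y), (S.x2 + c, y)) 3 := by
      rw [← sd2_sd h hW r2, ← e1, hl', Prod.swap_swap]
    have e3 := (sd_inj e2).1
    have hg' : g ∈ S.G c := by exact_mod_cast hg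
    rw [e3, sh_none hy1 hy2, Slb.mem_G] at hg'
    rcases hg' with ⟨-, h3⟩ | ⟨h3, -⟩ | ⟨h3, -⟩
    · rw [Slb.mem_strip] at h3
      simp only at h3
      omega
    · exact absurd h3 (by simp)
    · exact absurd h3 (by simp)

/-- the closed end on the left -/
theorem endL (h : S.Ok) (hW : Win S W) (hc : c < S.k) (hy1 : S.yc - S.a ≤ y) (hy2 : y < S.yc + S.a) :
    sd2 S (sd ZQ (S.x1 - c, y) 3) ∈ bS (S.env W 0 0).Q (S.G c) := by
  have hx := h.hx
  have ha := h.ha
  have hak := h.hak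
  have r1 : Reg S (S.x1 - c, y) := Or.inr ⟨by simp only; omega, by simp only; omega, hy1, hy2⟩
  have r2 : Reg S (S.x1 - c - 1, y) := Or.inr ⟨by simp only; omega, by simp only; omega, hy1, hy2⟩
  refine mem_bS.mpr ⟨?_, ?_⟩
  · rw [sd2_sd h hW r1]
    exact sd_mem (G_reg h hW r1 (by simp only; omega) (by simp only; omega)) 3
  · intro g hg l hl
    have hl' : sd2 S (sd ZQ (S.x1 - c, y) 3) = (sd (S.env W 0 0).Q g l).swap := hl
    have e1 : (sd2 S (sd ZQ (S.x1 - c, y) 3)).swap = sd2 S (sd ZQ (S.x1 - c - 1, y) 1) := by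
      have := MT.sd_nb (S.x1 - c, y) 3
      rw [MT.nb3] at this
      show sd2 S (sd ZQ (S.x1 - c, y) 3).swap = _
      rw [this]
      rfl
    have e2 : sd (S.env W 0 0).Q g l =
        sd (S.env W 0 0).Q (sh S (S.x1 - c - 1, y), (S.x1 - c - 1, y)) 1 := by
      rw [← sd2_sd h hW r2, ← e1, hl', Prod.swap_swap]
    have e3 := (sd_inj e2).1
    have hg' : g ∈ S.G c := by exact_mod_cast hg
    rw [e3, sh_none hy1 hy2, Slb.mem_G] at hg'
    rcases hg' with ⟨-, h3⟩ | ⟨h3, -⟩ | ⟨h3, -⟩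
    · rw [Slb.mem_strip] at h3
      simp only at h3
      omega
    · exact absurd h3 (by simp)
    · exact absurd h3 (by simp)

/-- the tube on the right -/
def tR (h : S.Ok) (hW : Win S W) (hR : R ≤ S.k) (hc : c < S.k) :
    TMouth (S.env W 0 0).Q (S.G c) true (S.x2, S.yc) R S.a c where
  toPChart := chG h hW _ fun f hf => mthR h hR hc.le hf
  bd := by
    intro i a ha
    have ha' : ∃ i, a ∈ mthWall true (S.x2, S.yc) R S.a c i := ⟨i, ha⟩
    obtain ⟨f, k, rfl, hw⟩ := CM.mem_mthWall.mp ha'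
    have hf := hw.mem h.ha
    obtain ⟨h1, h2, h3⟩ := mthR h hR hc.le hf
    exact down h hW hc.le h1 h2 h3 ((mR h hW hR hc.le).bd i _ ha)
  be := by
    intro a ha
    unfold mEnd at ha
    rw [if_pos rfl, CM.mem_out1] at ha
    obtain ⟨f, rfl, h1, h2, h3⟩ := ha
    obtain ⟨x, y⟩ := f
    simp only at h1 h2 h3
    subst h1
    push_cast at h3
    exact endR h hW hc h2 (by omega)

/-- the tube on the left -/
def tL (h : S.Ok) (hW : Win S W) (hR : R ≤ S.k) (hc : c < S.k) :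
    TMouth (S.env W 0 0).Q (S.G c) false (S.x1, S.yc) R S.a c where
  toPChart := chG h hW _ fun f hf => mthL h hR hc.le hf
  bd := by
    intro i a ha
    have ha' : ∃ i, a ∈ mthWall false (S.x1, S.yc) R S.a c i := ⟨i, ha⟩
    obtain ⟨f, k, rfl, hw⟩ := CM.mem_mthWall.mp ha'
    have hf := hw.mem h.ha
    obtain ⟨h1, h2, h3⟩ := mthL h hR hc.le hf
    exact down h hW hc.le h1 h2 h3 ((mL h hW hR hc.le).bd i _ ha)
  be := by
    intro a ha
    unfold mEnd at ha
    rw [if_neg (by decide), CM.mem_out3] at ha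
    obtain ⟨f, rfl, h1, h2, h3⟩ := ha
    obtain ⟨x, y⟩ := f
    simp only at h1 h2 h3
    subst h1
    push_cast at h2
    exact endL h hW hc (by omega) h3

/-! ## Phases -/

theorem phG_eq {s : (Option Bool × (ℤ × ℤ)) × (Option Bool × (ℤ × ℤ))}
    (h1 : ¬ (s.1.1 = none ∧ s.2.1 = none ∧ s.1.2.1 = S.x2 + c ∧ s.2.2 = (S.x2 + (c : ℤ), s.1.2.2 + 1)))
    (h2 : ¬ (s.1.1 = none ∧ s.2.1 = none ∧ s.1.2.1 = S.x1 - c ∧ s.2.2 = (S.x1 - (c : ℤ), s.1.2.2 - 1))) :
    S.phG c s = S.phE s := by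
  unfold Slb.phG
  rw [if_neg h1, if_neg h2]

theorem phG_R (hy1 : S.yc - S.a ≤ y) (hy2 : y < S.yc + S.a) :
    S.phG c (sd2 S (sd ZQ (S.x2 + c - 1, y) 1)) = S.ρr := by
  have e : sd ZQ (S.x2 + c - 1, y) 1 = ((S.x2 + c, y), (S.x2 + c, y + 1)) := by
    show ((S.x2 + c - 1 + 1, y), (S.x2 + c - 1 + 1, y + 1)) = _
    rw [sub_add_cancel]
  rw [e]
  unfold Slb.phG sd2
  rw [if_pos]
  exact ⟨vh_none hy1 (by simp only; omega), vh_none (by simp only; omega) (by simp only; omega), rfl, rfl⟩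

theorem phG_L (h : S.Ok) (hy1 : S.yc - S.a ≤ y) (hy2 : y < S.yc + S.a) :
    S.phG c (sd2 S (sd ZQ (S.x1 - c, y) 3)) = S.ρl := by
  have hx := h.hx
  have ha := h.ha
  have hak := h.hak
  have e : sd ZQ (S.x1 - c, y) 3 = ((S.x1 - c, y + 1), (S.x1 - c, y)) := rfl
  rw [e]
  unfold Slb.phG sd2
  rw [if_neg, if_pos]
  · refine ⟨vh_none (by simp only; omega) (by simp only; omega), vh_none hy1 (by simp only; omega), rfl, ?_⟩
    simp
  · rintro ⟨-, -, h1, -⟩
    simp only at h1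
    omega

theorem phG_wall {lf : Bool} {v : ℤ × ℤ} {l : ℕ} {a : (ℤ × ℤ) × (ℤ × ℤ)} (h : S.Ok) (hc : 0 < c)
    (hv : (lf = true ∧ v = (S.x2, S.yc)) ∨ (lf = false ∧ v = (S.x1, S.yc)))
    {i : Fin 4} (ha : a ∈ mthWall lf v R S.a l i) : S.phG c (sd2 S a) = S.phE (sd2 S a) := by
  have hx := h.hx
  have hak := h.hak
  have ha0 := h.ha
  obtain ⟨f, k, rfl, hw⟩ := CM.mem_mthWall.mp ⟨i, ha⟩
  unfold CM.Wl at hw
  rcases hv with ⟨rfl, rfl⟩ | ⟨rfl, rfl⟩
  · rcases hw with ⟨-, ⟨rfl, h1, h2⟩ | ⟨rfl, h1, h2⟩ | ⟨rfl, h1, h2⟩⟩ | ⟨h0, -⟩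
    · refine phG_eq ?_ ?_
      · rintro ⟨-, -, h3, -⟩
        have h3' : f.1 + 1 = S.x2 + c := h3
        simp only at h1
        omega
      · rintro ⟨-, -, h3, -⟩
        have h3' : f.1 + 1 = S.x1 - c := h3
        simp only at h1
        omega
    · refine phG_eq ?_ ?_
      · rintro ⟨-, -, -, h3⟩
        have h3' : f.2 = f.2 + 1 := congrArg Prod.snd h3
        omega
      · rintro ⟨-, -, -, h3⟩
        have h3' : f.2 = f.2 - 1 := congrArg Prod.snd h3
        omega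
    · refine phG_eq ?_ ?_
      · rintro ⟨-, -, -, h3⟩
        have h3' : f.2 + 1 = f.2 + 1 + 1 := congrArg Prod.snd h3
        omega
      · rintro ⟨-, -, -, h3⟩
        have h3' : f.2 + 1 = f.2 + 1 - 1 := congrArg Prod.snd h3
        omega
    · exact absurd h0 (by decide)
  · rcases hw with ⟨h0, -⟩ | ⟨-, ⟨rfl, h1, h2⟩ | ⟨rfl, h1, h2⟩ | ⟨rfl, h1, h2⟩⟩
    · exact absurd h0 (by decide)
    · refine phG_eq ?_ ?_
      · rintro ⟨-, -, h3, -⟩
        have h3' : f.1 = S.x2 + c := h3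
        simp only at h1
        omega
      · rintro ⟨-, -, h3, -⟩
        have h3' : f.1 = S.x1 - c := h3
        simp only at h1
        omega
    · refine phG_eq ?_ ?_
      · rintro ⟨-, -, -, h3⟩
        have h3' : f.2 = f.2 + 1 := congrArg Prod.snd h3
        omega
      · rintro ⟨-, -, -, h3⟩
        have h3' : f.2 = f.2 - 1 := congrArg Prod.snd h3
        omega
    · refine phG_eq ?_ ?_
      · rintro ⟨-, -, -, h3⟩
        have h3' : f.2 + 1 = f.2 + 1 + 1 := congrArg Prod.snd h3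
        omega
      · rintro ⟨-, -, -, h3⟩
        have h3' : f.2 + 1 = f.2 + 1 - 1 := congrArg Prod.snd h3
        omega

/-- a boundary side of `S.G c'` in the columns of the ends is the end of a tube -/
theorem end_side (h : S.Ok) (hW : Win S W) {c c' : ℕ} {g : Option Bool × (ℤ × ℤ)} (hg : g ∈ S.G c)
    (hc : c ≤ S.k) (k : ZMod 4) :
    (((sd (S.env W 0 0).Q g k).1.1 = none ∧ (sd (S.env W 0 0).Q g k).2.1 = none ∧
      (sd (S.env W 0 0).Q g k).1.2.1 = S.x2 + c' ∧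
      (sd (S.env W 0 0).Q g k).2.2 = (S.x2 + (c' : ℤ), (sd (S.env W 0 0).Q g k).1.2.2 + 1)) →
        k = 1 ∧ g.1 = none ∧ g.2.1 = S.x2 + c' - 1 ∧ S.yc - S.a ≤ g.2.2 ∧ g.2.2 < S.yc + S.a) ∧
    (((sd (S.env W 0 0).Q g k).1.1 = none ∧ (sd (S.env W 0 0).Q g k).2.1 = none ∧
      (sd (S.env W 0 0).Q g k).1.2.1 = S.x1 - c' ∧
      (sd (S.env W 0 0).Q g k).2.2 = (S.x1 - (c' : ℤ), (sd (S.env W 0 0).Q g k).1.2.2 - 1)) →
        k = 3 ∧ g.1 = none ∧ g.2.1 = S.x1 - c' ∧ S.yc - S.a ≤ g.2.2 ∧ g.2.2 < S.yc + S.a) := by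
  classical
  obtain ⟨s, f⟩ := g
  have hg' := hg
  rw [Slb.mem_G] at hg
  rcases hg with ⟨h1, h2⟩ | ⟨h1, h2⟩ | ⟨h1, h2⟩ <;> simp only at h1 h2 <;> subst h1
  · rw [Slb.mem_strip] at h2
    have hb := tube_base (S := S) hW (f := f) (by omega) (by omega) h2.2.2.1 h2.2.2.2
    rw [EnvB.sd_base (thk S h) hb]
    constructor
    · rintro ⟨-, -, h3, h4⟩
      rcases k4 k with rfl | rfl | rfl | rfl
      · exfalso
        have : f.2 = f.2 + 1 := congrArg Prod.snd h4
        omega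
      · have h3' : f.1 + 1 = S.x2 + c' := h3
        exact ⟨rfl, rfl, by simp only; omega, h2.2.2.1, h2.2.2.2⟩
      · exfalso
        have : f.2 + 1 = f.2 + 1 + 1 := congrArg Prod.snd h4
        omega
      · exfalso
        have : f.2 = f.2 + 1 + 1 := congrArg Prod.snd h4
        omega
    · rintro ⟨-, -, h3, h4⟩
      rcases k4 k with rfl | rfl | rfl | rfl
      · exfalso
        have : f.2 = f.2 - 1 := congrArg Prod.snd h4
        omega
      · exfalso
        have : f.2 + 1 = f.2 - 1 := congrArg Prod.snd h4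
        omega
      · exfalso
        have : f.2 + 1 = f.2 + 1 - 1 := congrArg Prod.snd h4
        omega
      · have h3' : f.1 = S.x1 - c' := h3
        exact ⟨rfl, rfl, h3', h2.2.2.1, h2.2.2.2⟩
  · -- the upper pocket
    have key : ∀ k : ZMod 4, ¬ (k = 0 ∨ k = 1) → ((S.env W 0 0).Q.c (some true, f) k).1 ≠ none := by
      intro k hk
      rw [EnvB.cor_pk]
      simp only
      rw [if_neg]
      · simp
      · rw [EnvB.adj_up]
        exact fun h3 => hk h3.2.2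
    constructor
    · rintro ⟨h5, h6, h3, h4⟩
      exfalso
      rcases k4 k with rfl | rfl | rfl | rfl
      · have : f.2 = f.2 + 1 := congrArg Prod.snd h4
        omega
      · exact key 2 (by decide) h6
      · exact key 2 (by decide) h5
      · exact key 3 (by decide) h5
    · rintro ⟨h5, h6, h3, h4⟩
      exfalso
      rcases k4 k with rfl | rfl | rfl | rfl
      · have : f.2 = f.2 - 1 := congrArg Prod.snd h4
        omega
      · exact key 2 (by decide) h6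
      · exact key 2 (by decide) h5
      · exact key 3 (by decide) h5
  · -- the lower pocket
    have key : ∀ k : ZMod 4, ¬ (k = 2 ∨ k = 3) → ((S.env W 0 0).Q.c (some false, f) k).1 ≠ none := by
      intro k hk
      rw [EnvB.cor_pk]
      simp only
      rw [if_neg]
      · simp
      · rw [EnvB.adj_lo]
        exact fun h3 => hk h3.2.2
    constructor
    · rintro ⟨h5, h6, h3, h4⟩
      exfalso
      rcases k4 k with rfl | rfl | rfl | rfl
      · exact key 0 (by decide) h5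
      · exact key 1 (by decide) h5
      · have : f.2 + 1 = f.2 + 1 + 1 := congrArg Prod.snd h4
        omega
      · exact key 0 (by decide) h6
    · rintro ⟨h5, h6, h3, h4⟩
      exfalso
      rcases k4 k with rfl | rfl | rfl | rfl
      · exact key 0 (by decide) h5
      · exact key 1 (by decide) h5
      · have : f.2 + 1 = f.2 + 1 - 1 := congrArg Prod.snd h4
        omega
      · exact key 0 (by decide) h6

end

end Pool.Agent.SixB.SlbD
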