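import Pool.Agent.Lib.SixB.S3SlbD

/-!
# 6BD step 3.8 (R18): the polygon with closed tubes and the polygon, the data

`S : Slb`, `h : S.Ok`, complex of `E = S.env W 0 0`, `0 < c < S.k`.
* `tdata`: `MT.TData` for `S.G c` and `S.G 0` with the phases `S.phG c`, `S.phG 0`;
* `G0_image`: `S.G 0` is the image of `S.D`; `phG0`: its phases are those of `S.D`;
* `nW_D`, `nW1_D`: the weights of `S.G 0` are those of `S.D`, `S.ψ` in the plane.
-/

set_option autoImplicit false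
set_option linter.unusedSectionVars false
set_option linter.unusedVariables false

namespace Pool.Agent.SixB.SlbD

open Pool.Agent.Perc.Q Pool.Agent.Perc Pool.Agent.SixB
open Pool.Agent.SixB.EnvB (Thk upM loM)
open Pool.Agent.SixB.MthD
open Pool.Agent.SixB.MT (TMouth TData nbF HBx Tub mEnd mMth)
open Pool.Agent.SixB.Tilt (k4)

noncomputable section

variable {S : Slb} {W : Finset (ℤ × ℤ)} {R c : ℕ} {f v : ℤ × ℤ} {x y : ℤ}

/-- the centres of the mouths -/
def tv (S : Slb) (i : Bool) : ℤ × ℤ := bif i then (S.x2, S.yc) else (S.x1, S.yc)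

/-- the phases of the walls -/
def tp (S : Slb) (i : Bool) : ℝ := bif i then S.ρr else S.ρl

/-- the two tubes -/
def tc (h : S.Ok) (hW : Win S W) (hR : R ≤ S.k) (hc : c < S.k) :
    ∀ i : Bool, TMouth (S.env W 0 0).Q (S.G c) i (tv S i) R S.a c
  | true => tR h hW hR hc
  | false => tL h hW hR hc

theorem tc_face (h : S.Ok) (hW : Win S W) (hR : R ≤ S.k) (hc : c < S.k) (i : Bool) (f : ℤ × ℤ) :
    (tc h hW hR hc i).φF f = (sh S f, f) := by
  cases i <;> rfl

theorem tc_side (h : S.Ok) (hW : Win S W) (hR : R ≤ S.k) (hc : c < S.k) (i : Bool)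
    (a : (ℤ × ℤ) × (ℤ × ℤ)) : (tc h hW hR hc i).side a = sd2 S a := by
  cases i <;> rfl

/-- the sides of the walls -/
theorem tc_wall (h : S.Ok) (hW : Win S W) (hR : R ≤ S.k) (h0 : 0 < c) (hc : c < S.k) (i : Bool) (j : Fin 4)
    {a : (ℤ × ℤ) × (ℤ × ℤ)} (ha : a ∈ mthWall i (tv S i) R S.a c j) :
    S.phG c ((tc h hW hR hc i).side a) =
      ![tp S i, tp S i + Real.pi / 12, tp S i - Real.pi / 12, tp S i] j := by
  rw [tc_side]
  cases i
  · rw [phG_wall h h0 (Or.inr ⟨rfl, rfl⟩) ha, ← Slb.ph_eq W]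
    exact (wallL h hW hR hc.le j ha).2
  · rw [phG_wall h h0 (Or.inl ⟨rfl, rfl⟩) ha, ← Slb.ph_eq W]
    exact (wallR h hW hR hc.le j ha).2

/-- the closed ends -/
theorem tc_end (h : S.Ok) {a : (ℤ × ℤ) × (ℤ × ℤ)} {i : Bool} (ha : a ∈ mEnd i (tv S i) S.a c) :
    S.phG c (sd2 S a) = tp S i := by
  cases i
  · unfold mEnd at ha
    rw [if_neg (by decide), CM.mem_out3] at ha
    obtain ⟨⟨x, y⟩, rfl, h1, h2, h3⟩ := ha
    simp only [tv, cond_false] at h1 h2 h3
    subst h1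
    push_cast at h2
    exact phG_L h (by omega) h3
  · unfold mEnd at ha
    rw [if_pos rfl, CM.mem_out1] at ha
    obtain ⟨⟨x, y⟩, rfl, h1, h2, h3⟩ := ha
    simp only [tv, cond_true] at h1 h2 h3
    subst h1
    push_cast at h3
    exact phG_R h2 (by omega)

theorem mMth_eq (i : Bool) (v : ℤ × ℤ) (r : ℕ) : mMth i v r = mEnd i v r 0 := by
  unfold mMth mEnd
  simp

/-- a face of the tubes -/
theorem mem_Tub_img {i : Bool} {g : Option Bool × (ℤ × ℤ)} :
    g ∈ (Tub i (tv S i) S.a c).image (fun f => (sh S f, f)) ↔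
      g.1 = none ∧ g.2 ∈ Tub i (tv S i) S.a c := by
  have key : ∀ f ∈ Tub i (tv S i) S.a c, sh S f = none := by
    intro f hf
    rw [MT.mem_Tub] at hf
    cases i <;> simp only [tv, cond_false, cond_true] at hf <;> exact sh_none hf.1.1 hf.1.2
  rw [Finset.mem_image]
  constructor
  · rintro ⟨f, hf, rfl⟩
    exact ⟨key f hf, hf⟩
  · rintro ⟨h1, h2⟩
    exact ⟨g.2, h2, by rw [key _ h2, ← h1]⟩

theorem mem_tubes {c : ℕ} {f : ℤ × ℤ} : (∃ i : Bool, f ∈ Tub i (tv S i) S.a c) ↔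
    (S.yc - S.a ≤ f.2 ∧ f.2 < S.yc + S.a) ∧
      ((S.x2 ≤ f.1 ∧ f.1 < S.x2 + c) ∨ (S.x1 - c ≤ f.1 ∧ f.1 < S.x1)) := by
  constructor
  · rintro ⟨i, hf⟩
    rw [MT.mem_Tub] at hf
    cases i <;> simp only [tv, cond_false, cond_true, true_and, Bool.true_eq_false, Bool.false_eq_true,
      false_and, or_false, false_or] at hf
    · exact ⟨hf.1, Or.inr hf.2⟩
    · exact ⟨hf.1, Or.inl hf.2⟩
  · rintro ⟨h1, h2 | h2⟩
    · exact ⟨true, MT.mem_Tub.mpr ⟨h1, Or.inl ⟨rfl, h2⟩⟩⟩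
    · exact ⟨false, MT.mem_Tub.mpr ⟨h1, Or.inr ⟨rfl, h2⟩⟩⟩

/-- the polygon is `S.G c` without the tubes -/
theorem cut_G (h : S.Ok) (g : Option Bool × (ℤ × ℤ)) :
    g ∈ S.G 0 ↔ g ∈ S.G c ∧ ∀ i : Bool, ¬ (g.1 = none ∧ g.2 ∈ Tub i (tv S i) S.a c) := by
  have hx := h.hx
  have h1 : (∀ i : Bool, ¬ (g.1 = none ∧ g.2 ∈ Tub i (tv S i) S.a c)) ↔
      ¬ (g.1 = none ∧ ((S.yc - S.a ≤ g.2.2 ∧ g.2.2 < S.yc + S.a) ∧
      ((S.x2 ≤ g.2.1 ∧ g.2.1 < S.x2 + c) ∨ (S.x1 - c ≤ g.2.1 ∧ g.2.1 < S.x1)))) := by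
    rw [← mem_tubes]
    constructor
    · rintro h2 ⟨h3, i, h4⟩
      exact h2 i ⟨h3, h4⟩
    · rintro h2 i ⟨h3, h4⟩
      exact h2 ⟨h3, i, h4⟩
  rw [h1, Slb.mem_G, Slb.mem_G, Slb.mem_strip, Slb.mem_strip]
  constructor
  · rintro (⟨h2, h3⟩ | ⟨h2, h3⟩ | ⟨h2, h3⟩)
    · exact ⟨Or.inl ⟨h2, by push_cast at h3; omega⟩, by push_cast at h3; omega⟩
    · exact ⟨Or.inr (Or.inl ⟨h2, h3⟩), by rw [h2]; simp⟩
    · exact ⟨Or.inr (Or.inr ⟨h2, h3⟩), by rw [h2]; simp⟩
  · rintro ⟨⟨h2, h3⟩ | ⟨h2, h3⟩ | ⟨h2, h3⟩, h4⟩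
    · refine Or.inl ⟨h2, ?_⟩
      have h5 := not_and.mp h4 h2
      push_cast
      omega
    · exact Or.inr (Or.inl ⟨h2, h3⟩)
    · exact Or.inr (Or.inr ⟨h2, h3⟩)

/-- the phases of `S.G c` and `S.G 0` agree off the mouths -/
theorem same_G (h : S.Ok) (hW : Win S W) (h0 : 0 < c) (hc : c < S.k)
    {a : (Option Bool × (ℤ × ℤ)) × (Option Bool × (ℤ × ℤ))} (ha : a ∈ bS (S.env W 0 0).Q (S.G 0))
    (hn : a ∉ dE (S.env W 0 0).Q (S.G c \ S.G 0)) : S.phG c a = S.phG 0 a := by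
  have hx := h.hx
  have ha' := h.ha
  have hak := h.hak
  obtain ⟨g, hg, k, rfl⟩ := exists_sd_of_bS ha
  have hgn : g.1 = none → S.x1 ≤ g.2.1 ∧ g.2.1 < S.x2 := by
    intro h1
    rw [Slb.mem_G, Slb.mem_strip] at hg
    rcases hg with ⟨-, h2⟩ | ⟨h2, -⟩ | ⟨h2, -⟩
    · push_cast at h2
      omega
    · rw [h1] at h2; exact absurd h2 (by simp)
    · rw [h1] at h2; exact absurd h2 (by simp)
  have e1 := end_side (c := 0) (c' := c) h hW hg (Nat.zero_le _) k
  have e2 := end_side (c := 0) (c' := 0) h hW hg (Nat.zero_le _) k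
  rw [phG_eq, phG_eq]
  · intro h1
    obtain ⟨rfl, h3, h4, h5, h6⟩ := e2.1 h1
    apply hn
    obtain ⟨s, ⟨x, y⟩⟩ := g
    simp only at h3 h4 h5 h6
    subst h3
    push_cast at h4
    have b1 : ((x, y) : ℤ × ℤ) ∈ (S.env W 0 0).base :=
      tube_base hW (by simp only; omega) (by simp only; omega) h5 h6
    have b2 : ((x + 1, y) : ℤ × ℤ) ∈ (S.env W 0 0).base :=
      tube_base hW (by simp only; omega) (by simp only; omega) h5 h6
    have e3 : sd (S.env W 0 0).Q (none, (x, y)) 1 = (sd (S.env W 0 0).Q (none, (x + 1, y)) 3).swap := by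
      rw [EnvB.sd_base (thk S h) b1, EnvB.sd_base (thk S h) b2]
      rfl
    rw [e3]
    refine swap_mem_dE.mpr (sd_mem ?_ 3)
    rw [Finset.mem_sdiff, Slb.mem_G, Slb.mem_G, Slb.mem_strip, Slb.mem_strip]
    refine ⟨Or.inl ⟨rfl, by simp only; omega⟩, ?_⟩
    simp only [true_and, reduceCtorEq, false_and, or_false]
    push_cast
    omega
  · intro h1
    obtain ⟨rfl, h3, h4, h5, h6⟩ := e2.2 h1
    apply hn
    obtain ⟨s, ⟨x, y⟩⟩ := g
    simp only at h3 h4 h5 h6
    subst h3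
    push_cast at h4
    have b1 : ((x, y) : ℤ × ℤ) ∈ (S.env W 0 0).base :=
      tube_base hW (by simp only; omega) (by simp only; omega) h5 h6
    have b2 : ((x - 1, y) : ℤ × ℤ) ∈ (S.env W 0 0).base :=
      tube_base hW (by simp only; omega) (by simp only; omega) h5 h6
    have e3 : sd (S.env W 0 0).Q (none, (x, y)) 3 = (sd (S.env W 0 0).Q (none, (x - 1, y)) 1).swap := by
      rw [EnvB.sd_base (thk S h) b1, EnvB.sd_base (thk S h) b2]
      have := MT.sd_nb (x, y) 3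
      rw [MT.nb3] at this
      have e4 : sd ZQ (x, y) 3 = (sd ZQ (x - 1, y) 1).swap := by
        rw [← Prod.swap_swap (sd ZQ (x, y) 3), this]
        rfl
      rw [e4]
      rfl
    rw [e3]
    refine swap_mem_dE.mpr (sd_mem ?_ 1)
    rw [Finset.mem_sdiff, Slb.mem_G, Slb.mem_G, Slb.mem_strip, Slb.mem_strip]
    refine ⟨Or.inl ⟨rfl, by simp only; omega⟩, ?_⟩
    simp only [true_and, reduceCtorEq, false_and, or_false]
    push_cast
    omega
  · intro h1
    obtain ⟨-, h3, h4, -⟩ := e1.1 h1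
    have := hgn h3
    omega
  · intro h1
    obtain ⟨-, h3, h4, -⟩ := e1.2 h1
    have := hgn h3
    omega

/-- **The polygon with closed tubes.** -/
def tdata (h : S.Ok) (hW : Win S W) (h0 : 0 < c) (hc : c < S.k) :
    TData (S.env W 0 0).Q (S.G c) (S.G 0) (S.phG c) (S.phG 0) (fun i : Bool => i) (tv S)
      (fun _ => S.k / 2) (fun _ => S.a) (fun _ => c) where
  c := tc h hW (Nat.div_le_self _ _) hc
  p := tp S
  hh := fun _ => h.ha
  hr := fun _ => by
    have := h.hak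
    have := h.ha
    omega
  hl := fun _ => h0
  disj := by
    have hx := h.hx
    have ha := h.ha
    have hak := h.hak
    have key : Disjoint ((Mth true (tv S true) (S.k / 2) S.a c).image (fun f => (sh S f, f)))
        ((Mth false (tv S false) (S.k / 2) S.a c).image (fun f => (sh S f, f))) := by
      rw [Finset.disjoint_left]
      intro g hg hg'
      obtain ⟨f, hf, rfl⟩ := Finset.mem_image.mp hg
      obtain ⟨f', hf', h1⟩ := Finset.mem_image.mp hg'
      have h2 : f' = f := congrArg Prod.snd h1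
      subst h2
      rw [mem_Mth_left] at hf
      rw [mem_Mth_right] at hf'
      simp only [tv, cond_false, cond_true] at hf hf'
      omega
    intro i j hij
    have e : ∀ i : Bool, (Mth i (tv S i) (S.k / 2) S.a c).image
        (tc h hW (Nat.div_le_self S.k 2) hc i).φF =
        (Mth i (tv S i) (S.k / 2) S.a c).image (fun f => (sh S f, f)) := by
      intro i
      exact Finset.image_congr fun f _ => tc_face h hW _ hc i f
    rw [e, e]
    cases i <;> cases j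
    · exact absurd rfl hij
    · exact key.symm
    · exact key
    · exact absurd rfl hij
  cut := by
    intro g
    rw [cut_G h (c := c)]
    refine and_congr_right fun _ => forall_congr' fun i => not_congr ?_
    have e : (Tub i (tv S i) S.a c).image (tc h hW (Nat.div_le_self S.k 2) hc i).φF =
        (Tub i (tv S i) S.a c).image (fun f => (sh S f, f)) :=
      Finset.image_congr fun f _ => tc_face h hW _ hc i f
    rw [e, mem_Tub_img]
  same := fun a ha hn => same_G h hW h0 hc ha hn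
  w0 := fun i a ha => tc_wall h hW (Nat.div_le_self S.k 2) h0 hc i 0 ha
  w1 := fun i a ha => tc_wall h hW (Nat.div_le_self S.k 2) h0 hc i 1 ha
  w2 := fun i a ha => tc_wall h hW (Nat.div_le_self S.k 2) h0 hc i 2 ha
  w3 := fun i a ha => tc_wall h hW (Nat.div_le_self S.k 2) h0 hc i 3 ha
  we := fun i a ha => by
    rw [tc_side]
    exact tc_end h ha
  wm := fun i a ha => by
    rw [tc_side]
    rw [mMth_eq] at ha
    exact tc_end h ha

end

end Pool.Agent.SixB.SlbD
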