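import Pool.Agent.Lib.SixB.S3SlbE

/-!
# 6BD step 3.8 (R18): the polygon inside the environment and the polygon in the plane

`S : Slb`, `h : S.Ok`, complex of `E = S.env W 0 0`.
* `G0_image`: `S.G 0` is the image of `S.D` by the embedding `em h hW`; `phG_D`: its phases are those of `S.D`;
* `nW_D`, `nW1_D`: the weights of `S.G 0` are those of `S.D`, `S.ψ` in the plane; `av_nW_D`, `av_nW1_D`.
* `nW_tube`: off the event `badE` the weights of `S.G c` are those of `S.D`.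
-/

set_option autoImplicit false
set_option linter.unusedSectionVars false
set_option linter.unusedVariables false

namespace Pool.Agent.SixB.SlbD

open Pool.Agent.Perc.Q Pool.Agent.Perc Pool.Agent.SixB
open Pool.Agent.SixB.EnvB (Thk upM loM)
open Pool.Agent.SixB.MthD
open Pool.Agent.SixB.MT (TMouth TData nbF HBx Tub mEnd mMth)
open Pool.Agent.SixB.Tilt (k4)
open Pool.Agent.PercD (BR)
open Pool.Agent.SixB.Rel (QChart)

noncomputable section

variable {S : Slb} {W : Finset (ℤ × ℤ)} {R c : ℕ} {f v : ℤ × ℤ} {x y : ℤ}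

theorem mem_slab0 : f ∈ SixB.slab S.x1 S.x2 (S.yc - S.a) (S.yc + S.a) ↔ f ∈ S.strip 0 := by
  rw [mem_RF, Slb.mem_strip]
  push_cast
  omega

/-- **The polygon inside the environment.** -/
theorem G0_image (h : S.Ok) (hW : Win S W) : S.G 0 = S.D.image (em h hW).φF := by
  have d := h.eData hW.slab
  have ed : ∀ f, (em h hW).φF f = (Emb.shF (S.env W 0 0) f, f) := fun _ => rfl
  ext g
  obtain ⟨s, f⟩ := g
  rw [Slb.mem_G, Finset.mem_image]
  simp only
  constructor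
  · rintro (⟨h1, h2⟩ | ⟨h1, h2⟩ | ⟨h1, h2⟩)
    · have h3 := mem_slab0.mpr h2
      have h4 : f ∈ S.D := slab_sub d.win d.h1 d.h3 h3
      rcases Emb.mem_cases d h4 with h5 | h5 | h5
      · exact absurd h3 h5.2.2
      · exact absurd h3 h5.2.2
      · refine ⟨f, h4, ?_⟩
        rw [ed, h1]
        unfold Emb.shF
        rw [if_neg h5.2.1, if_neg h5.2.2]
    · have h3 : f ∈ (S.env W 0 0).U := by rw [U_eq]; exact h2
      refine ⟨f, Emb.sub_U d h3, ?_⟩
      rw [ed, h1]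
      unfold Emb.shF
      rw [if_pos h3]
    · have h3 : f ∈ (S.env W 0 0).L := by rw [L_eq]; exact h2
      have h4 := Emb.sub_L d h3
      refine ⟨f, h4, ?_⟩
      rw [ed, h1]
      unfold Emb.shF
      rcases Emb.mem_cases d h4 with h5 | h5 | h5
      · exact absurd h3 h5.2.1
      · rw [if_neg h5.2.1, if_pos h3]
      · exact absurd h3 h5.2.2
  · rintro ⟨f', h1, h2⟩
    rw [ed] at h2
    obtain ⟨rfl, rfl⟩ := Prod.mk.inj h2
    unfold Emb.shF
    rcases Emb.mem_cases d h1 with h5 | h5 | h5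
    · rw [if_pos h5.1]
      exact Or.inr (Or.inl ⟨rfl, U_eq (W := W) ▸ h5.1⟩)
    · rw [if_neg h5.2.1, if_pos h5.1]
      exact Or.inr (Or.inr ⟨rfl, L_eq (W := W) ▸ h5.1⟩)
    · rw [if_neg h5.2.1, if_neg h5.2.2]
      exact Or.inl ⟨rfl, mem_slab0.mp h5.1⟩

/-- the phases of the polygon inside the environment -/
theorem phG_D (h : S.Ok) (hW : Win S W) {a : (ℤ × ℤ) × (ℤ × ℤ)} (ha : a ∈ bS ZQ S.D) :
    S.phG 0 ((em h hW).side a) = S.ψ a := by
  have d := h.eData hW.slab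
  have hx := h.hx
  have ha0 := h.ha
  have hak := h.hak
  obtain ⟨f, hf, k, rfl⟩ := exists_sd_of_bS ha
  have hI := (mem_bS.mp ha).2
  by_cases hS : f ∈ SixB.slab S.x1 S.x2 (S.yc - S.a) (S.yc + S.a)
  · obtain ⟨x, y⟩ := f
    have hS' := hS
    rw [mem_RF] at hS'
    simp only at hS'
    have hnb : nbF (x, y) k ∉ S.D := (MT.bS_iff hf).mp ha
    have hin : ∀ x' y', S.x1 ≤ x' → x' < S.x2 → S.yc - S.k ≤ y' → y' < S.yc + S.k → (x', y') ∈ S.D :=
      fun x' y' h1 h2 h3 h4 => by exact_mod_cast h.slab.sub x' y' h1 h2 h3 h4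
    rw [em_side h hW (by simp only; omega) (by simp only; omega) (by simp only; omega)
      (by simp only; omega) k]
    rcases k4 k with rfl | rfl | rfl | rfl
    · exfalso
      rw [MT.nb0] at hnb
      exact hnb (hin _ _ (by omega) (by omega) (by omega) (by omega))
    · rw [MT.nb1] at hnb
      have h2 : x = S.x2 - 1 := by
        by_contra h2
        exact hnb (hin _ _ (by simp only; omega) (by simp only; omega) (by omega) (by omega))
      subst h2
      have h3 : S.phG 0 (sd2 S (sd ZQ (S.x2 + ((0 : ℕ) : ℤ) - 1, y) 1)) = S.ρr :=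
        phG_R (by omega) (by omega)
      rw [Nat.cast_zero, add_zero] at h3
      refine Eq.trans h3 ?_
      rw [sdz1, sub_add_cancel]
      exact (h.right y (by omega) (by omega)).symm
    · exfalso
      rw [MT.nb2] at hnb
      exact hnb (hin _ _ (by omega) (by omega) (by omega) (by omega))
    · rw [MT.nb3] at hnb
      have h2 : x = S.x1 := by
        by_contra h2
        exact hnb (hin _ _ (by simp only; omega) (by simp only; omega) (by omega) (by omega))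
      subst h2
      have h3 : S.phG 0 (sd2 S (sd ZQ (S.x1 - ((0 : ℕ) : ℤ), y) 3)) = S.ρl :=
        phG_L h (by omega) (by omega)
      rw [Nat.cast_zero, sub_zero] at h3
      refine Eq.trans h3 ?_
      rw [sdz3]
      exact (h.left y (by omega) (by omega)).symm
  · have h1 : S.phE ((em h hW).side (sd ZQ f k)) = S.ψ (sd ZQ f k) := by
      rw [← Slb.ph_eq W, Slb.ph_zero, d.emb_psi hf hS hI]
    rw [← h1]
    have h2 : ((em h hW).side (sd ZQ f k)).1.1 =
        Emb.shV (S.env W 0 0) S.x1 S.x2 (S.yc - S.a) (S.yc + S.a) (ZQ.c f k) := rfl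
    have h3 : ((em h hW).side (sd ZQ f k)).2.1 =
        Emb.shV (S.env W 0 0) S.x1 S.x2 (S.yc - S.a) (S.yc + S.a) (ZQ.c f (k + 1)) := rfl
    have h4 := Emb.ends d hf hS hI
    refine phG_eq ?_ ?_
    · rintro ⟨h5, h6, -⟩
      rw [h2] at h5
      rw [h3] at h6
      rw [h5, h6] at h4
      simp at h4
    · rintro ⟨h5, h6, -⟩
      rw [h2] at h5
      rw [h3] at h6
      rw [h5, h6] at h4
      simp at h4

/-- the chart -/
theorem emH (h : S.Ok) (hW : Win S W) :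
    QChart ZQ (S.env W 0 0).Q S.D (em h hW).φV (em h hW).φF 0 :=
  CM.toQ (em h hW) (Finset.Subset.refl _)

theorem nW_D (h : S.Ok) (hW : Win S W) (ω : Option Bool × (ℤ × ℤ) → Bool) :
    nW (S.env W 0 0).Q (S.G 0) (S.phG 0) ω = nW ZQ S.D S.ψ (fun f => ω ((em h hW).φF f)) := by
  rw [G0_image h hW]
  exact NM.nW_map noLoop_ZQ (Rel.noLoop_env _) (emH h hW) fun a ha => phG_D h hW ha

theorem nW1_D (h : S.Ok) (hW : Win S W) {e : (ℤ × ℤ) × (ℤ × ℤ)} (he : e ∈ dE ZQ S.D)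
    (ω : Option Bool × (ℤ × ℤ) → Bool) :
    nW1 (S.env W 0 0).Q (S.G 0) (S.phG 0) ((em h hW).side e) ω =
      nW1 ZQ S.D S.ψ e (fun f => ω ((em h hW).φF f)) := by
  rw [G0_image h hW]
  exact NM.nW1_map noLoop_ZQ (Rel.noLoop_env _) (emH h hW) (fun a ha => phG_D h hW ha) he

/-! ## The event -/

/-- the half boxes at the mouths: radius `a 2^k` -/
def bxT (S : Slb) (i : Bool) (k : ℕ) : Finset (Option Bool × (ℤ × ℤ)) :=
  KM (HBx i (tv S i) (S.k / 2)) (fun f => (sh S f, f)) (tv S i) ((S.a * 2 ^ k : ℕ) : ℤ)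

/-- the bad event -/
def bdT (S : Slb) (N : ℕ) (ω : Option Bool × (ℤ × ℤ) → Bool) : ℝ :=
  badE (S.env ∅ 0 0).Q (S.G 0) (bxT S) N ω

/-- the complex does not depend on the window -/
theorem env_Q (W : Finset (ℤ × ℤ)) : (S.env W 0 0).Q = (S.env ∅ 0 0).Q := rfl

theorem Ks_eq (h : S.Ok) (hW : Win S W) (h0 : 0 < c) (hc : c < S.k) :
    (tdata h hW h0 hc).Ks S.a = bxT S := by
  funext i k
  have e : ((tdata h hW h0 hc).c i).φF = fun f => (sh S f, f) := funext (tc_face h hW _ hc i)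
  unfold TData.Ks TData.K bxT
  rw [e]

theorem bdT_eq (h : S.Ok) (hW : Win S W) (h0 : 0 < c) (hc : c < S.k) (N : ℕ) :
    bdT S N = badE (S.env W 0 0).Q (S.G 0) ((tdata h hW h0 hc).Ks S.a) N := by
  rw [Ks_eq]
  rfl

theorem bdT_01 (N : ℕ) (ω : Option Bool × (ℤ × ℤ) → Bool) : bdT S N ω = 0 ∨ bdT S N ω = 1 := badE_01 ω

/-- the half boxes grow -/
theorem bxT_mono {i : Bool} {k l : ℕ} (hkl : k ≤ l) : bxT S i k ⊆ bxT S i l := by
  refine KM_mono ?_
  exact_mod_cast Nat.mul_le_mul_left S.a (Nat.pow_le_pow_right (by norm_num) hkl)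

theorem dep_bdT (N : ℕ) : Dep (⋃ i : Bool, ((bxT S i N : Finset _) : Set _)) (bdT S N) :=
  dep_badE fun i _ _ hkl => bxT_mono hkl

/-- the faces of the boxes -/
theorem mem_bxT {i : Bool} {k : ℕ} {g : Option Bool × (ℤ × ℤ)} (hg : g ∈ bxT S i k) :
    g.1 = sh S g.2 ∧ g.2 ∈ HBx i (tv S i) (S.k / 2) ∧ g.2 ∈ BR (tv S i) ((S.a * 2 ^ k : ℕ) : ℤ) := by
  unfold bxT KM at hg
  obtain ⟨f, hf, rfl⟩ := Finset.mem_image.mp hg
  rw [Finset.mem_inter] at hf
  exact ⟨rfl, hf.1, hf.2⟩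

/-- **the probability of the event** -/
theorem av_bdT : ∃ C : ℝ, 0 < C ∧ ∀ {S : Slb}, S.Ok → ∀ {N : ℕ} {W' : Finset (Option Bool × (ℤ × ℤ))},
    1 < N → S.a * 2 ^ N ≤ S.k / 2 → S.G 0 ⊆ W' → av W' (bdT S N) ≤ C * N / 4 ^ N := by
  obtain ⟨C, hC, H⟩ := MT.bad_bound Bool
  refine ⟨C, hC, ?_⟩
  intro S h N W' hN hr hW'
  have ha := h.ha
  have hak := h.hak
  have hW : Win S (Finset.Ico (S.x1 - S.k) (S.x2 + S.k) ×ˢ Finset.Ico (S.yc - S.a) (S.yc + S.a)) := by
    intro f h1 h2 h3 h4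
    rw [Finset.mem_product, Finset.mem_Ico, Finset.mem_Ico]
    exact ⟨⟨h1, h2⟩, h3, h4⟩
  have hc : 1 < S.k := by omega
  rw [bdT_eq h hW Nat.one_pos hc]
  exact H (tdata h hW Nat.one_pos hc) ha hN (fun _ => hr) hW'

/-- a side of faces of the polygon off the two boxes is off the tubes and the half boxes -/
theorem off_box (h : S.Ok) (hW : Win S W) (h0 : 0 < c) (hc : c < S.k) {N : ℕ} (hN : S.a * 2 ^ N < S.k / 2)
    {P : Finset (ℤ × ℤ)} (hP : P ⊆ S.D) (hB : ∀ f ∈ P, ∀ i, f ∉ HBx i (tv S i) (S.k / 2))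
    {e : (ℤ × ℤ) × (ℤ × ℤ)} (he : e ∈ dE ZQ P) :
    (em h hW).side e ∈ dE (S.env W 0 0).Q (S.G 0) ∧
      (em h hW).side e ∉ dE (S.env W 0 0).Q (S.G c \ S.G 0) ∧
      ∀ i, (em h hW).side e ∉ dE (S.env W 0 0).Q (bxT S i N) := by
  have hx := h.hx
  have ha := h.ha
  have hak := h.hak
  have hk : (0 : ℕ) < S.k / 2 := by omega
  set T := tdata h hW h0 hc with hT
  have e1 : (em h hW).side e ∈ dE (S.env W 0 0).Q (P.image (em h hW).φF) := by
    have h1 := WM.dE_map ((emH h hW).mono hP)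
    rw [h1]
    exact Finset.mem_image_of_mem _ he
  have e2 : P.image (em h hW).φF ⊆ S.G 0 := by
    rw [G0_image h hW]
    exact Finset.image_subset_image hP
  have e3 : ∀ i : Bool, Disjoint (P.image (em h hW).φF) (T.K i ((S.k / 2 : ℕ) : ℤ)) := by
    intro i
    rw [Finset.disjoint_left]
    intro g hg hg'
    obtain ⟨f, hf, rfl⟩ := Finset.mem_image.mp hg
    rw [T.K_eq (i := i) le_rfl] at hg'
    obtain ⟨f', hf', h2⟩ := Finset.mem_image.mp hg'
    have h3 : f' = f := by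
      rw [hT] at h2
      have h4 : (tc h hW (Nat.div_le_self S.k 2) hc i).φF f' = (em h hW).φF f := h2
      rw [tc_face] at h4
      exact congrArg Prod.snd h4
    exact hB f hf i (h3 ▸ hf')
  refine ⟨dE_sub e2 e1, ?_, ?_⟩
  · intro h1
    obtain ⟨g, hg, k, h2⟩ := mem_dE.mp h1
    rw [Finset.mem_sdiff] at hg
    obtain ⟨i, hi⟩ := T.cov hg.1 hg.2
    have h3 : (em h hW).side e ∈ dE (S.env W 0 0).Q (T.T i) := mem_dE.mpr ⟨g, hi, k, h2⟩
    refine T.sepR (i := i) (ρ := S.k / 2) (by omega) le_rfl h3 (dE_sub ?_ e1)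
    intro g' hg'
    exact Finset.mem_sdiff.mpr ⟨e2 hg', Finset.disjoint_left.mp (e3 i) hg'⟩
  · intro i
    rw [← Ks_eq h hW h0 hc]
    exact T.not_dE_Ks (ρ := S.k / 2) hN le_rfl e2 (e3 i) e1

/-- **Off the event the weights of the polygon with closed tubes are those of the polygon.** -/
theorem nW_tube (h : S.Ok) (hW : Win S W) (h0 : 0 < c) (hc : c < S.k) {N : ℕ}
    (hN : S.a * 2 ^ N < S.k / 2) {ω : Option Bool × (ℤ × ℤ) → Bool} (hω : bdT S N ω = 0) :
    nW (S.env W 0 0).Q (S.G c) (S.phG c) ω = nW ZQ S.D S.ψ (fun f => ω ((em h hW).φF f)) ∧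
      ∀ P : Finset (ℤ × ℤ), P ⊆ S.D → (∀ f ∈ P, ∀ i, f ∉ HBx i (tv S i) (S.k / 2)) →
        ∀ e ∈ dE ZQ P, nW1 (S.env W 0 0).Q (S.G c) (S.phG c) ((em h hW).side e) ω =
          nW1 ZQ S.D S.ψ e (fun f => ω ((em h hW).φF f)) := by
  have hx := h.hx
  have ha := h.ha
  have hak := h.hak
  set T := tdata h hW h0 hc with hT
  -- the side at the top of the window
  set f₀ : ℤ × ℤ := (S.x2 - 1, S.yc + S.k - 1) with hf₀
  have hf₀D : f₀ ∈ S.D := by
    exact_mod_cast h.slab.sub _ _ (by omega) (by omega) (by omega) (by omega)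
  have hs : sd ZQ f₀ 1 ∈ bS ZQ S.D := by
    rw [MT.bS_iff hf₀D, hf₀, MT.nb1]
    simp only [sub_add_cancel]
    exact fun h1 => h.slab.right (S.yc + S.k - 1) (by omega) (by omega) (by exact_mod_cast h1)
  have hs' : (em h hW).side (sd ZQ f₀ 1) ∈ bS (S.env W 0 0).Q (S.G 0) := by
    rw [G0_image h hW, WM.bS_map (emH h hW)]
    exact Finset.mem_image_of_mem _ hs
  have hoff := off_box h hW h0 hc hN (P := {f₀}) (by simpa using hf₀D) (by
    intro f hf i
    rw [Finset.mem_singleton] at hf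
    subst hf
    rw [MT.mem_HBx]
    cases i <;> simp only [tv, cond_false, cond_true, hf₀] <;> omega) (e := sd ZQ f₀ 1)
    (sd_mem (Finset.mem_singleton_self _) 1)
  rw [bdT_eq h hW h0 hc] at hω
  obtain ⟨h1, h2⟩ := T.nW_eq (Rel.noLoop_env _) (h₀ := S.a) (N := N) ha (fun _ => le_rfl) (fun _ => hN) hs'
    (by rw [Ks_eq h hW h0 hc]; exact hoff.2.2) hω
  refine ⟨h1.trans (nW_D h hW ω), fun P hP hB e he => ?_⟩
  obtain ⟨h3, h4, h5⟩ := off_box h hW h0 hc hN hP hB he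
  rw [h2 _ h3 h4 (by rw [Ks_eq h hW h0 hc]; exact h5)]
  exact nW1_D h hW (dE_sub hP he) ω

end

end Pool.Agent.SixB.SlbD
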