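import Pool.Agent.Lib.SixB.S3WZ1
import Pool.Agent.Lib.SixB.S3ZplE

/-!
# 6BD, U3: the inserted weight `WZ1` in the windows of a glued surface, limits

`H : GlueZ L Q A φ ps P`, `hI : IslM L Q A ps Z` (island sides), `Z ⊆ P ⊆ dE Q A`, windows `FM L A ps M`; `Clo4 Q F`: all
closed strands of `F` have turning `±4`.
* `BlkM`: the annulus `n` blocks; `av_nblkM`; `ini_M`: then the boundary sides on strands which meet the core are
  island sides;
* `Zr_P`, `Zr1_P`: the functional with `P` is that with `Z`; `zwM1_WZ1`: `‖av Zr1 - √3 ^ (|Z| / 2) * av WZ1 * i‖ ≤ C thB ^ n`;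
* `tendsto_WZ1_M`: `√3 ^ (|Z| / 2) * av WZ1` tends to the inserted plane functional; `Zp_P`; `tendsto_mZ`:
  `av WZ1 / av WZ → mZ`;
* `tendsto_near`: the same for all functions which are `WZ`, `WZ1` on the blocking events and bounded;
* `Ins.pot_tendsto`, `GlueZ.height_tendsto`: heights.
-/

set_option autoImplicit false
set_option linter.unusedSectionVars false

namespace Pool.Agent.SixB.Ins

open Pool.Agent.Perc.Q Pool.Agent.Perc Pool.Agent.SixB.Op Filter Topology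

/-- convergence of the increments implies convergence of the heights -/
theorem pot_tendsto {ι : Type*} {l : Filter ι} {x₀ x₁ y₀ y₁ : ℤ} {W : ι → ℤ × ℤ → ℝ} {V : ℤ × ℤ → ℝ}
    (h : ∀ a ∈ dE ZQ (RF x₀ x₁ y₀ y₁), Tendsto (fun i => W i a.1 - W i a.2) l (𝓝 (V a.1 - V a.2)))
    (hx : x₀ < x₁) (hy : y₀ < y₁) {v w : ℤ × ℤ} (h1 : x₀ ≤ v.1) (h2 : v.1 ≤ x₁) (h3 : y₀ ≤ v.2)
    (h4 : v.2 ≤ y₁) (g1 : x₀ ≤ w.1) (g2 : w.1 ≤ x₁) (g3 : y₀ ≤ w.2) (g4 : w.2 ≤ y₁) :
    Tendsto (fun i => W i v - W i w) l (𝓝 (V v - V w)) := by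
  have key : ∀ v : ℤ × ℤ, x₀ ≤ v.1 → v.1 ≤ x₁ → y₀ ≤ v.2 → v.2 ≤ y₁ →
      Tendsto (fun i => W i (x₀, y₀) - W i v) l (𝓝 (V (x₀, y₀) - V v)) := by
    rintro ⟨x, y⟩ h1 h2 h3 h4
    simp only at h1 h2 h3 h4
    have hh : ∀ n : ℕ, x₀ + n ≤ x₁ →
        Tendsto (fun i => W i (x₀, y₀) - W i (x₀ + n, y₀)) l (𝓝 (V (x₀, y₀) - V (x₀ + n, y₀))) := by
      intro n
      induction n with
      | zero =>
        intro _
        simp only [Nat.cast_zero, add_zero, sub_self]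
        exact tendsto_const_nhds
      | succ n ih =>
        intro hn
        have e1 := ih (by push_cast at hn; omega)
        have e2 := h _ (hor_mem (x₀ := x₀) (x₁ := x₁) (y₀ := y₀) (y₁ := y₁) (x := x₀ + n) (y := y₀)
          (by omega) (by push_cast at hn; omega) le_rfl hy.le hy)
        simp only at e2
        have e3 : x₀ + ((n + 1 : ℕ) : ℤ) = x₀ + n + 1 := by push_cast; ring
        rw [e3]
        have e4 := e1.add e2
        simpa only [sub_add_sub_cancel] using e4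
    have hv : ∀ n : ℕ, y₀ + n ≤ y₁ →
        Tendsto (fun i => W i (x, y₀) - W i (x, y₀ + n)) l (𝓝 (V (x, y₀) - V (x, y₀ + n))) := by
      intro n
      induction n with
      | zero =>
        intro _
        simp only [Nat.cast_zero, add_zero, sub_self]
        exact tendsto_const_nhds
      | succ n ih =>
        intro hn
        have e1 := ih (by push_cast at hn; omega)
        have e2 := h _ (ver_mem (x₀ := x₀) (x₁ := x₁) (y₀ := y₀) (y₁ := y₁) (x := x) (y := y₀ + n)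
          h1 h2 (by omega) (by push_cast at hn; omega) hx)
        simp only at e2
        have e3 : y₀ + ((n + 1 : ℕ) : ℤ) = y₀ + n + 1 := by push_cast; ring
        rw [e3]
        have e4 := e1.add e2
        simpa only [sub_add_sub_cancel] using e4
    obtain ⟨p, hp⟩ : ∃ p : ℕ, x = x₀ + p := ⟨(x - x₀).toNat, by omega⟩
    obtain ⟨q, hq⟩ : ∃ q : ℕ, y = y₀ + q := ⟨(y - y₀).toNat, by omega⟩
    have e1 := hv q (by omega)
    have e2 := hh p (by omega)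
    rw [← hq] at e1
    rw [← hp] at e2
    have e3 := e2.add e1
    simpa only [sub_add_sub_cancel] using e3
  have e1 := (key w g1 g2 g3 g4).sub (key v h1 h2 h3 h4)
  simpa only [sub_sub_sub_cancel_left] using e1

end Pool.Agent.SixB.Ins

namespace Pool.Agent.SixB.Rel

open Pool.Agent.Perc Pool.Agent.Perc.Q Relation Filter Topology
open Pool.Agent.SixB hiding Zs_split dst_congr qt_congr dE_mono
open scoped ComplexConjugate

noncomputable section

variable {V Φ : Type} [DecidableEq V] [DecidableEq Φ]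

/-- all closed strands of `F` have turning `±4` -/
def Clo4 (Q : QC V Φ) (F : Finset Φ) : Prop :=
  ∀ ω : Φ → Bool, ∀ X ∈ dstr Q F ω, (∀ a ∈ X, ¬ Ini Q (F : Set Φ) a) →
    tX Q F ω X = 4 ∨ tX Q F ω X = -4

/-- the annulus of radii `L`, `4 ^ n * L` blocks, in the window of radius `M` -/
def BlkM (L : ℤ) (Q : QC V Φ) (A : Finset Φ) (ps : ℤ × ℤ → Φ) (n : ℕ) (M : ℤ) (ω : Φ → Bool) : Prop :=
  Blk Q ((aZ L n).image ps) ω (dE Q A)
    (dE Q ((RFb (0, 0) (M + 1) \ RFb (0, 0) (4 ^ n * L)).image ps) ∩ dE Q ((aZ L n).image ps))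

variable {L M : ℤ} {Q : QC V Φ} {A : Finset Φ} {φ : ℤ × ℤ → V} {ps : ℤ × ℤ → Φ}
  {Z P : Finset (V × V)} {a b e : V × V} {ψ : V × V → ℝ} {n : ℕ} {ω : Φ → Bool}

theorem sub_FM (hM : 4 ^ n * L ≤ M) : (aZ L n).image ps ⊆ FM L A ps M := by
  refine Finset.Subset.trans ?_ (Finset.subset_union_right (s₁ := A))
  exact Finset.image_subset_image (Finset.sdiff_subset_sdiff (RF0_mono hM) (Finset.Subset.refl _))

theorem A_sub_FM : A ⊆ FM L A ps M := Finset.subset_union_left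

namespace GlueZ

theorem mono {P' : Finset (V × V)} (H : GlueZ L Q A φ ps P) (h : P' ⊆ P) : GlueZ L Q A φ ps P' where
  chart := H.chart
  dj := H.dj
  nb := H.nb
  P_sub := h.trans H.P_sub

theorem av_nblkM (H : GlueZ L Q A φ ps P) (hL : 0 < L) (hM : 4 ^ n * L ≤ M) :
    av (FM L A ps M) (fun ω => ic (¬ BlkM L Q A ps n M ω)) ≤ 2 * thB ^ n := by
  unfold BlkM
  rw [av_dep dep_nblk (sub_FM hM)]
  exact H.blkM hL (by omega)

/-- the boundary sides on strands which meet the core are island sides -/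
theorem ini_M (H : GlueZ L Q A φ ps P) (hI : IslM L Q A ps Z) (hL : 0 < L) (hn : 1 ≤ n)
    (hM : 4 ^ n * L ≤ M) (hb : BlkM L Q A ps n M ω) (haA : a ∈ dE Q A)
    (hbd : b ∈ dst Q (FM L A ps M) ω a) (hbi : Ini Q ((FM L A ps M : Finset Φ) : Set Φ) b) : b ∈ Z := by
  by_contra hbZ
  have hLM : L ≤ M := (pow_L hL n).trans hM
  have hb2 : b ∈ dE Q (FM L A ps M) := (mem_dst.mp hbd).1
  have hb1 : b ∈ bS Q (FM L A ps M) := mem_bS.mpr ⟨hb2, hbi⟩
  have hb4 := hI.out M (M + 1) hLM le_rfl _ hb1 hbZ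
  have hsep := H.sep (L₁ := 4 ^ n * L) (M := M + 1) (lt_pow_L hL hn)
  set D := (RFb (0, 0) (M + 1) \ RFb (0, 0) (4 ^ n * L)).image ps with hD
  set R := (aZ L n).image ps with hR
  have hblk : Blk Q R ω (dE Q A) (dE Q D) := by
    intro c hc d hd hc1 hd1
    exact hb c hc d (Finset.mem_inter.mpr ⟨hd, hd1⟩) hc1 hd1
  have hbD : b ∈ dE Q D := by
    have h1 : ¬ Ini Q ((FM L A ps (M + 1) : Finset Φ) : Set Φ) b := by
      intro h1
      refine hb4 (mem_bS.mpr ⟨?_, h1⟩)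
      rw [FM_split hLM (by omega)]
      exact dE_mono Finset.subset_union_left hb2
    unfold Ini at h1
    push Not at h1
    obtain ⟨f, hf, k, hk⟩ := h1
    rw [FM_split hLM (by omega)] at hf
    rcases Finset.mem_union.mp (Finset.mem_coe.mp hf) with h2 | h2
    · exact absurd hk (hbi f (by exact_mod_cast h2) k)
    · refine mem_dE.mpr ⟨f, ?_, k, Or.inr hk⟩
      rw [hD]
      exact Finset.image_subset_image (Finset.sdiff_subset_sdiff (Finset.Subset.refl _)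
        (RF0_mono hM)) h2
  set DM := (RFb (0, 0) M \ RFb (0, 0) (4 ^ n * L)).image ps with hDM
  have hDMD : DM ⊆ D := Finset.image_subset_image
    (Finset.sdiff_subset_sdiff (RF0_mono (by omega)) (Finset.Subset.refl _))
  have hFM : FM L A ps M = A ∪ R ∪ DM := by
    rw [FM_split (pow_L hL n) hM]
    rfl
  have hblk' : Blk Q R ω (dE Q A) (dE Q DM) := hblk.mono (Finset.Subset.refl _) (dE_mono hDMD)
  have hsep' : Disjoint (dE Q A) (dE Q DM) := hsep.mono_right (dE_mono hDMD)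
  have hconf := conf_of_blk (ω := ω) (R := R) (P := {a}) hsep'
    (Finset.singleton_subset_iff.mpr haA) hblk'
  rw [← hFM] at hconf
  have hsubF : A ∪ R ⊆ FM L A ps M := by
    rw [hFM]
    exact Finset.subset_union_left
  have haE : a ∈ dE Q (A ∪ R) := dE_mono Finset.subset_union_left haA
  have h3 := hconf _ (mem_dstr.mpr ⟨a, haE, rfl⟩)
    (touch_iff.mpr ⟨a, self_mem_dst haE, Or.inl (Finset.mem_singleton_self a)⟩)
  have h4 : dst Q (FM L A ps M) ω a = dst Q (A ∪ R) ω a :=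
    dst_sub hsubF (fun c hc hc' => Finset.disjoint_left.mp h3 hc hc') haE
  rw [h4] at hbd
  exact no_cross (fun d hd => swap_mem_dE.mpr hd) hsep hblk (mem_dst.mp hbd).2 haA hbD

/-- on the blocking event the strands which meet the core and not `Z` are closed -/
theorem closed_M (H : GlueZ L Q A φ ps P) (hI : IslM L Q A ps Z) (hL : 0 < L) (hn : 1 ≤ n)
    (hM : 4 ^ n * L ≤ M) (hb : BlkM L Q A ps n M ω) (haA : a ∈ dE Q A)
    (ht : ¬ touch Z (dst Q (FM L A ps M) ω a)) :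
    ∀ b ∈ dst Q (FM L A ps M) ω a, ¬ Ini Q ((FM L A ps M : Finset Φ) : Set Φ) b :=
  fun b hb1 hb2 => ht (touch_iff.mpr ⟨b, hb1, Or.inl (H.ini_M hI hL hn hM hb haA hb1 hb2)⟩)

theorem one_M (hQ : NoLoop Q) (H : GlueZ L Q A φ ps P) (hI : IslM L Q A ps Z) (hL : 0 < L)
    (hT : Clo4 Q (FM L A ps M)) (hn : 1 ≤ n) (hM : 4 ^ n * L ≤ M) (hb : BlkM L Q A ps n M ω)
    (ha : a ∈ P ∨ a.swap ∈ P) (ht : ¬ touch Z (dst Q (FM L A ps M) ω a)) :
    ∑ X ∈ usE Q (FM L A ps M) ω a, sw Q (FM L A ps M) ω (hz ψ Z) X = 1 := by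
  have hLM : L ≤ M := (pow_L hL n).trans hM
  have haA : a ∈ dE Q A := by
    rcases ha with ha | ha
    · exact H.P_sub ha
    · exact swap_mem_dE.mp (H.P_sub ha)
  have haF : a ∈ dE Q (FM L A ps M) := dE_mono A_sub_FM haA
  exact sum_one hQ (phZ_hz ψ (swap_Z (hI.sub M hLM))) haF ht
    (hT ω _ (dst_mem_dstr haF) (H.closed_M hI hL hn hM hb haA ht))

/-- **Extra relevant sides have no effect.** -/
theorem Zr_P (hQ : NoLoop Q) (H : GlueZ L Q A φ ps P) (hI : IslM L Q A ps Z) (hL : 0 < L)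
    (hT : Clo4 Q (FM L A ps M)) (hZP : Z ⊆ P) (hn : 1 ≤ n) (hM : 4 ^ n * L ≤ M)
    (hb : BlkM L Q A ps n M ω) :
    Zr Q (FM L A ps M) ω (hz ψ Z) P = Zr Q (FM L A ps M) ω (hz ψ Z) Z :=
  Zr_ext hZP fun _ _ ha ht => H.one_M hQ hI hL hT hn hM hb ha ht

theorem Zr1_P (hQ : NoLoop Q) (H : GlueZ L Q A φ ps P) (hI : IslM L Q A ps Z) (hL : 0 < L)
    (hT : Clo4 Q (FM L A ps M)) (hZP : Z ⊆ P) (hn : 1 ≤ n) (hM : 4 ^ n * L ≤ M)
    (hb : BlkM L Q A ps n M ω) :
    Zr1 Q (FM L A ps M) ω (hz ψ Z) P e = Zr1 Q (FM L A ps M) ω (hz ψ Z) Z e :=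
  Zr1_ext hZP fun _ _ ha ht => H.one_M hQ hI hL hT hn hM hb ha ht

end GlueZ

/-- the number of the extra constant -/
def C1 (Z P : Finset (V × V)) : ℝ := 2 ^ (P.card + 1) + Real.sqrt 3 ^ (Z.card / 2) * 2 ^ (Z.card + 1)

theorem C1_nonneg (Z P : Finset (V × V)) : 0 ≤ C1 Z P := by
  unfold C1
  positivity

/-- comparison of averages -/
theorem norm_avc_near {S : Finset Φ} {g g' : (Φ → Bool) → ℂ} {p : (Φ → Bool) → Prop} {C q : ℝ}
    (hC : 0 ≤ C) (h1 : ∀ ω, ¬ p ω → g ω = g' ω) (h2 : ∀ ω, ‖g ω - g' ω‖ ≤ C)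
    (h3 : av S (fun ω => ic (p ω)) ≤ q) : ‖avc S g - avc S g'‖ ≤ C * q := by
  rw [← avc_sub]
  refine (norm_avc_le (f := fun ω => C * ic (p ω)) fun T _ => ?_).trans ?_
  · by_cases hp : p (ind T)
    · rw [ic_of hp, mul_one]
      exact h2 _
    · rw [ic_not hp, mul_zero, h1 _ hp, sub_self, norm_zero]
  · rw [av_mul]
    exact mul_le_mul_of_nonneg_left h3 hC

theorem abs_av_near {S : Finset Φ} {g g' : (Φ → Bool) → ℝ} {p : (Φ → Bool) → Prop} {C q : ℝ}
    (hC : 0 ≤ C) (h1 : ∀ ω, ¬ p ω → g ω = g' ω) (h2 : ∀ ω, |g ω - g' ω| ≤ C)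
    (h3 : av S (fun ω => ic (p ω)) ≤ q) : |av S g - av S g'| ≤ C * q := by
  have h4 := norm_avc_near (g := fun ω => ((g ω : ℝ) : ℂ)) (g' := fun ω => ((g' ω : ℝ) : ℂ)) hC
    (fun ω h => by rw [h1 ω h]) (fun ω => by rw [← Complex.ofReal_sub, Complex.norm_real]; exact h2 ω) h3
  rw [avc_ofReal, avc_ofReal, ← Complex.ofReal_sub, Complex.norm_real] at h4
  exact h4

/-- a sequence bounded by `C thB ^ n` for `M ≥ 4 ^ n L` -/
theorem tendsto_of_rate {E : Type*} [NormedAddCommGroup E] {g : ℤ → E} {C : ℝ}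
    (h : ∀ n, 1 ≤ n → ∀ M, 4 ^ n * L ≤ M → ‖g M‖ ≤ C * thB ^ n) : Tendsto g atTop (𝓝 0) := by
  rw [Metric.tendsto_atTop]
  intro ε hε
  have ht : Tendsto (fun n : ℕ => C * thB ^ n) atTop (𝓝 0) := by
    have h1 := tendsto_pow_atTop_nhds_zero_of_lt_one thB_pos.le thB_lt
    simpa using h1.const_mul C
  obtain ⟨n, hn⟩ := ((ht.eventually (gt_mem_nhds hε)).and (eventually_ge_atTop 1)).exists
  refine ⟨4 ^ n * L, fun M hM => ?_⟩
  rw [dist_zero_right]
  exact (h n hn.2 M hM).trans_lt hn.1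

namespace GlueZ

/-- **The inserted functional in the window in terms of `WZ1`.** -/
theorem zwM1_WZ1 (hQ : NoLoop Q) (H : GlueZ L Q A φ ps P) (hI : IslM L Q A ps Z) (hL : 0 < L)
    (hT : Clo4 Q (FM L A ps M)) (hZP : Z ⊆ P) (he : e ∈ dE Q A) (hn : 1 ≤ n) (hM : 4 ^ n * L ≤ M) :
    ‖avc (FM L A ps M) (fun ω => Zr1 Q (FM L A ps M) ω (hz ψ Z) P e) -
      ((Real.sqrt 3 ^ (Z.card / 2) * av (FM L A ps M) (WZ1 Q (FM L A ps M) ψ Z e) : ℝ) : ℂ) *
        Complex.I‖ ≤ C1 Z P * (2 * thB ^ n) := by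
  have hLM : L ≤ M := (pow_L hL n).trans hM
  have hZF := hI.sub M hLM
  have heF : e ∈ dE Q (FM L A ps M) := dE_mono A_sub_FM he
  have e1 : ((Real.sqrt 3 ^ (Z.card / 2) * av (FM L A ps M) (WZ1 Q (FM L A ps M) ψ Z e) : ℝ) : ℂ) *
      Complex.I = avc (FM L A ps M) (fun ω =>
        ((Real.sqrt 3 ^ (Z.card / 2) * WZ1 Q (FM L A ps M) ψ Z e ω : ℝ) : ℂ) * Complex.I) := by
    rw [← av_mul, ← avc_ofReal, mul_comm _ Complex.I, ← avc_mul]
    congr 1
    funext ω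
    rw [mul_comm]
  rw [e1]
  refine norm_avc_near (p := fun ω => ¬ BlkM L Q A ps n M ω) (C1_nonneg Z P) ?_ ?_ (H.av_nblkM hL hM)
  · intro ω hp
    rw [not_not] at hp
    rw [H.Zr1_P hQ hI hL hT hZP hn hM hp,
      Zr1_WZ1 hQ hZF ((H.mono hZP).mates_M hI hL hn hM hp) heF]
  · intro ω
    refine (norm_sub_le _ _).trans ?_
    unfold C1
    refine add_le_add (norm_Zr1_le hQ (norm_hz ψ Z)) ?_
    rw [norm_mul, Complex.norm_I, mul_one, Complex.norm_real, Real.norm_eq_abs, abs_mul,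
      abs_of_pos (pow_pos sqrt3_pos _)]
    exact mul_le_mul_of_nonneg_left (abs_WZ1_le hQ) (pow_pos sqrt3_pos _).le

theorem zwM_P (hQ : NoLoop Q) (H : GlueZ L Q A φ ps P) (hI : IslM L Q A ps Z) (hL : 0 < L)
    (hT : Clo4 Q (FM L A ps M)) (hZP : Z ⊆ P) (hn : 1 ≤ n) (hM : 4 ^ n * L ≤ M) :
    ‖avc (FM L A ps M) (fun ω => Zr Q (FM L A ps M) ω (hz ψ Z) P) -
      avc (FM L A ps M) (fun ω => Zr Q (FM L A ps M) ω (hz ψ Z) Z)‖ ≤
      (2 ^ P.card + 2 ^ Z.card) * (2 * thB ^ n) := by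
  refine norm_avc_near (p := fun ω => ¬ BlkM L Q A ps n M ω) (by positivity) ?_ ?_ (H.av_nblkM hL hM)
  · intro ω hp
    rw [not_not] at hp
    exact H.Zr_P hQ hI hL hT hZP hn hM hp
  · intro ω
    exact (norm_sub_le _ _).trans (add_le_add (norm_Zr_le2 hQ (norm_hz ψ Z))
      (norm_Zr_le2 hQ (norm_hz ψ Z)))

theorem hz_off (hZP : Z ⊆ P) (hZ : ∀ a ∈ Z, a.swap ∉ Z) :
    ∀ a, a ∉ P → a.swap ∉ P → hz ψ Z a = 1 :=
  fun a h1 h2 => (phZ_hz ψ hZ).one a (fun h => h1 (hZP h)) fun h => h2 (hZP h)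

/-- **The plane functional with extra relevant sides.** -/
theorem Zp_P (hQ : NoLoop Q) (H : GlueZ L Q A φ ps P) (hI : IslM L Q A ps Z) (hL : 0 < L)
    (hT : ∀ M, L ≤ M → Clo4 Q (FM L A ps M)) (hZP : Z ⊆ P) :
    Zp L Q A ps (hz ψ Z) P = Zp L Q A ps (hz ψ Z) Z := by
  have hs := swap_Z (hI.sub L le_rfl)
  have h1 := H.tendsto_M hQ hL (hz_off (ψ := ψ) hZP hs)
  have h2 := (H.mono hZP).tendsto_M hQ hL (hz_off (ψ := ψ) (Finset.Subset.refl Z) hs)
  have h3 : Tendsto (fun M : ℤ => avc (FM L A ps M) (fun ω => Zr Q (FM L A ps M) ω (hz ψ Z) P) -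
      avc (FM L A ps M) (fun ω => Zr Q (FM L A ps M) ω (hz ψ Z) Z)) atTop (𝓝 0) := by
    refine tendsto_of_rate (L := L) (C := (2 ^ P.card + 2 ^ Z.card) * 2) fun n hn M hM => ?_
    refine (H.zwM_P hQ hI hL (hT M ((pow_L hL n).trans hM)) hZP hn hM).trans (le_of_eq ?_)
    ring
  have h4 := h1.sub h3
  rw [sub_zero] at h4
  refine tendsto_nhds_unique h4 (h2.congr fun M => ?_)
  rw [sub_sub_cancel]

/-- **The inserted plane functional is the limit of the weights `WZ1`.** -/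
theorem tendsto_WZ1_M (hQ : NoLoop Q) (H : GlueZ L Q A φ ps P) (hI : IslM L Q A ps Z) (hL : 0 < L)
    (hT : ∀ M, L ≤ M → Clo4 Q (FM L A ps M)) (hZP : Z ⊆ P) (he : e ∈ P ∨ e.swap ∈ P) :
    Tendsto (fun M : ℤ => Real.sqrt 3 ^ (Z.card / 2) *
      av (FM L A ps M) (WZ1 Q (FM L A ps M) ψ Z e)) atTop
      (𝓝 (Zp L Q A ps (fun a => hz ψ Z a * sgE e a) P).im) := by
  have hs := swap_Z (hI.sub L le_rfl)
  have heA : e ∈ dE Q A := by
    rcases he with he | he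
    · exact H.P_sub he
    · exact swap_mem_dE.mp (H.P_sub he)
  have h1 := H.tendsto_M hQ hL (h := fun a => hz ψ Z a * sgE e a)
    (one_off (hz_off (ψ := ψ) hZP hs) he)
  have h2 : Tendsto (fun M : ℤ => avc (FM L A ps M) (fun ω => Zr1 Q (FM L A ps M) ω (hz ψ Z) P e))
      atTop (𝓝 (Zp L Q A ps (fun a => hz ψ Z a * sgE e a) P)) := by
    refine h1.congr fun M => ?_
    congr 1
    funext ω
    exact Zr_one hQ _ (dE_mono A_sub_FM heA) (touch_of_mem (dE_mono A_sub_FM heA) he)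
  have h3 : Tendsto (fun M : ℤ =>
      avc (FM L A ps M) (fun ω => Zr1 Q (FM L A ps M) ω (hz ψ Z) P e) -
      ((Real.sqrt 3 ^ (Z.card / 2) * av (FM L A ps M) (WZ1 Q (FM L A ps M) ψ Z e) : ℝ) : ℂ) *
        Complex.I) atTop (𝓝 0) := by
    refine tendsto_of_rate (L := L) (C := C1 Z P * 2) fun n hn M hM => ?_
    refine (H.zwM1_WZ1 hQ hI hL (hT M ((pow_L hL n).trans hM)) hZP heA hn hM).trans (le_of_eq ?_)
    ring
  have h4 := h2.sub h3
  rw [sub_zero] at h4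
  have h5 := (Complex.continuous_im.tendsto _).comp h4
  refine h5.congr fun M => ?_
  simp only [Function.comp, sub_sub_cancel]
  rw [Complex.mul_I_im, Complex.ofReal_re]

/-- **The mean arrow of the plane functional is the limit of the quotients.** -/
theorem tendsto_mZ (hQ : NoLoop Q) (H : GlueZ L Q A φ ps P) (hI : IslM L Q A ps Z) (hL : 0 < L)
    (hT : ∀ M, L ≤ M → Clo4 Q (FM L A ps M)) (hZP : Z ⊆ P) (he : e ∈ P ∨ e.swap ∈ P)
    (h0 : Zp L Q A ps (hz ψ Z) P ≠ 0) :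
    Tendsto (fun M : ℤ => av (FM L A ps M) (WZ1 Q (FM L A ps M) ψ Z e) /
      av (FM L A ps M) (WZ Q (FM L A ps M) ψ Z)) atTop (𝓝 (mZ L Q A ps (hz ψ Z) P e)) := by
  have hs := swap_Z (hI.sub L le_rfl)
  have h1 := H.tendsto_WZ1_M (ψ := ψ) hQ hI hL hT hZP he
  have h2 := (H.mono hZP).tendsto_WZ_M (ψ := ψ) hQ hI hL (phZ_hz ψ hs)
  rw [← H.Zp_P hQ hI hL hT hZP] at h2
  have h3 := H.Zp_imC hQ hL (hz_off (ψ := ψ) hZP hs) (cj_hz ψ hs)
  set z := Zp L Q A ps (hz ψ Z) P with hz0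
  have h4 : z = ((z.re : ℝ) : ℂ) := by
    apply Complex.ext
    · simp
    · simpa using h3
  have h5 : z.re ≠ 0 := by
    intro h
    apply h0
    rw [h4, h]
    simp
  have h6 := h1.div h2 h5
  have h7 : mZ L Q A ps (hz ψ Z) P e = (Zp L Q A ps (fun a => hz ψ Z a * sgE e a) P).im / z.re := by
    unfold mZ
    rw [← hz0, h4]
    rw [Complex.div_ofReal_im, Complex.ofReal_re]
  rw [h7]
  refine h6.congr fun M => ?_
  have h8 := (pow_pos sqrt3_pos (Z.card / 2)).ne'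
  simp only [Pi.div_apply]
  rw [mul_div_mul_left _ _ h8]

/-- **The mean arrow, from functions which are `WZ`, `WZ1` on the blocking events.** -/
theorem tendsto_near (hQ : NoLoop Q) (H : GlueZ L Q A φ ps P) (hI : IslM L Q A ps Z) (hL : 0 < L)
    (hT : ∀ M, L ≤ M → Clo4 Q (FM L A ps M)) (hZP : Z ⊆ P) (he : e ∈ P ∨ e.swap ∈ P)
    (h0 : Zp L Q A ps (hz ψ Z) P ≠ 0) {X X1 : ℤ → (Φ → Bool) → ℝ} {C : ℝ}
    (hX : ∀ n, 1 ≤ n → ∀ M, 4 ^ n * L ≤ M → ∀ ω, BlkM L Q A ps n M ω →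
      X M ω = WZ Q (FM L A ps M) ψ Z ω ∧ X1 M ω = WZ1 Q (FM L A ps M) ψ Z e ω)
    (hC : ∀ M, L ≤ M → ∀ ω, |X M ω| ≤ C ∧ |X1 M ω| ≤ C) :
    Tendsto (fun M : ℤ => av (FM L A ps M) (X1 M) / av (FM L A ps M) (X M)) atTop
      (𝓝 (mZ L Q A ps (hz ψ Z) P e)) := by
  have hs := swap_Z (hI.sub L le_rfl)
  have hC0 : 0 ≤ C := (abs_nonneg _).trans (hC L le_rfl fun _ => true).1
  have h1 := H.tendsto_WZ1_M (ψ := ψ) hQ hI hL hT hZP he
  have h2 := (H.mono hZP).tendsto_WZ_M (ψ := ψ) hQ hI hL (phZ_hz ψ hs)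
  rw [← H.Zp_P hQ hI hL hT hZP] at h2
  have h3 := H.Zp_imC hQ hL (hz_off (ψ := ψ) hZP hs) (cj_hz ψ hs)
  have hc := (pow_pos sqrt3_pos (Z.card / 2))
  have k1 : Tendsto (fun M : ℤ => Real.sqrt 3 ^ (Z.card / 2) * av (FM L A ps M) (X1 M)) atTop
      (𝓝 (Zp L Q A ps (fun a => hz ψ Z a * sgE e a) P).im) := by
    have k2 : Tendsto (fun M : ℤ => Real.sqrt 3 ^ (Z.card / 2) *
        av (FM L A ps M) (WZ1 Q (FM L A ps M) ψ Z e) -
        Real.sqrt 3 ^ (Z.card / 2) * av (FM L A ps M) (X1 M)) atTop (𝓝 0) := by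
      refine tendsto_of_rate (L := L)
        (C := Real.sqrt 3 ^ (Z.card / 2) * ((2 ^ (Z.card + 1) + C) * 2)) fun n hn M hM => ?_
      have hLM : L ≤ M := (pow_L hL n).trans hM
      rw [← mul_sub, Real.norm_eq_abs, abs_mul, abs_of_pos hc, mul_assoc]
      refine mul_le_mul_of_nonneg_left ?_ hc.le
      refine (abs_av_near (p := fun ω => ¬ BlkM L Q A ps n M ω) (C := 2 ^ (Z.card + 1) + C)
        (by positivity) ?_ ?_ (H.av_nblkM hL hM)).trans (le_of_eq (by ring))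
      · intro ω hp
        rw [not_not] at hp
        exact (hX n hn M hM ω hp).2.symm
      · intro ω
        exact (abs_sub _ _).trans (add_le_add (abs_WZ1_le hQ) (hC M hLM ω).2)
    have k3 := h1.sub k2
    rw [sub_zero] at k3
    refine k3.congr fun M => ?_
    rw [sub_sub_cancel]
  have k4 : Tendsto (fun M : ℤ => Real.sqrt 3 ^ (Z.card / 2) * av (FM L A ps M) (X M)) atTop
      (𝓝 (Zp L Q A ps (hz ψ Z) P).re) := by
    have k2 : Tendsto (fun M : ℤ => Real.sqrt 3 ^ (Z.card / 2) *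
        av (FM L A ps M) (WZ Q (FM L A ps M) ψ Z) -
        Real.sqrt 3 ^ (Z.card / 2) * av (FM L A ps M) (X M)) atTop (𝓝 0) := by
      refine tendsto_of_rate (L := L)
        (C := Real.sqrt 3 ^ (Z.card / 2) * ((2 ^ Z.card + C) * 2)) fun n hn M hM => ?_
      have hLM : L ≤ M := (pow_L hL n).trans hM
      rw [← mul_sub, Real.norm_eq_abs, abs_mul, abs_of_pos hc, mul_assoc]
      refine mul_le_mul_of_nonneg_left ?_ hc.le
      refine (abs_av_near (p := fun ω => ¬ BlkM L Q A ps n M ω) (C := 2 ^ Z.card + C)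
        (by positivity) ?_ ?_ (H.av_nblkM hL hM)).trans (le_of_eq (by ring))
      · intro ω hp
        rw [not_not] at hp
        exact (hX n hn M hM ω hp).1.symm
      · intro ω
        exact (abs_sub _ _).trans (add_le_add (abs_WZ_le2 hQ (hI.sub M hLM)) (hC M hLM ω).1)
    have k3 := h2.sub k2
    rw [sub_zero] at k3
    refine k3.congr fun M => ?_
    rw [sub_sub_cancel]
  set z := Zp L Q A ps (hz ψ Z) P with hz0
  have h4 : z = ((z.re : ℝ) : ℂ) := by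
    apply Complex.ext
    · simp
    · simpa using h3
  have h5 : z.re ≠ 0 := by
    intro h
    apply h0
    rw [h4, h]
    simp
  have h6 := k1.div k4 h5
  have h7 : mZ L Q A ps (hz ψ Z) P e = (Zp L Q A ps (fun a => hz ψ Z a * sgE e a) P).im / z.re := by
    unfold mZ
    rw [← hz0, h4]
    rw [Complex.div_ofReal_im, Complex.ofReal_re]
  rw [h7]
  refine h6.congr fun M => ?_
  simp only [Pi.div_apply]
  rw [mul_div_mul_left _ _ hc.ne']

end GlueZ

end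

end Pool.Agent.SixB.Rel
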