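import Pool.Agent.Lib.SixB.S3bBox
import Pool.Agent.Lib.SixB.S3WZ2
import Pool.Agent.Lib.SixB.S3ZplE

/-!
# The closed strands of the environments of slabs in all windows

`SEnv.TopOK.clo4`, `Slb.Ok.clo4`: closed strands of an environment in any window have turning `±4`.
-/

set_option autoImplicit false
set_option linter.unusedSectionVars false

namespace Pool.Agent.SixB

open Pool.Agent.Perc Pool.Agent.Perc.Q

namespace SEnv

theorem TopOK.win {E : SEnv} (h : E.TopOK) (W : Finset (ℤ × ℤ)) : ({ E with W := W } : SEnv).TopOK :=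
  ⟨h.discU, h.discL, h.leU, h.leL, h.innU, h.outU, h.leftU, h.rightU, h.innL, h.outL, h.leftL,
    h.rightL, h.hgtU, h.hgtL, h.slab⟩

/-- **Closed strands of an environment.** -/
theorem TopOK.clo4' {E : SEnv} (h : E.TopOK) : Rel.Clo4 E.Q E.F := by
  intro ω X hX hc
  exact (SEnv.t1 h ω).tX hX hc

/-- **Closed strands of an environment in the window of radius `M`.** -/
theorem TopOK.clo4 {E : SEnv} (h : E.TopOK) (M : ℤ) : Rel.Clo4 E.Q (Rel.win E M).F :=
  TopOK.clo4' (E := Rel.win E M) (h.win _)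

end SEnv

/-- Slabs. -/
theorem Slb.Ok.clo4 {S : Slb} (h : S.Ok) (W : Finset (ℤ × ℤ)) (X Y M : ℤ) :
    Rel.Clo4 (S.env W X Y).Q (Rel.win (S.env W X Y) M).F := (h.topOK W X Y).clo4 M

end Pool.Agent.SixB
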