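import Pool.Agent.Lib.SixB.S3SlbF
import Pool.Agent.Lib.SixB.S3bClo
import Pool.Agent.Lib.SixB.S3WZ3
import Pool.Agent.Lib.SixB.S4Bridge

/-!
# 6BD step 3.8 (R18): the polygon with closed tubes and the polygon, in the form `WZ`

`S : Slb`, `h : S.Ok`, complex of `E = S.env W 0 0`.
* `clo4_sub`: closed strands of a part; `clo4_G`: closed strands of `S.G c`.
* `WZ_G`, `WZ1_G`: `nW`, `nW1` of `S.G c` in the form `WZ`, `WZ1`.
* `WZ_tube`: off the event `bdT` the weights of `S.G c` are those of `S.G 0`; `WZ_D`, `WZ1_D`: those of `S.D`.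
-/

set_option autoImplicit false
set_option linter.unusedSectionVars false
set_option linter.unusedVariables false

namespace Pool.Agent.SixB.SlbD

open Pool.Agent.Perc.Q Pool.Agent.Perc Pool.Agent.SixB
open Pool.Agent.SixB.EnvB (Thk upM loM)
open Pool.Agent.SixB.MthD
open Pool.Agent.SixB.MT (TMouth TData nbF HBx Tub mEnd mMth)
open Pool.Agent.SixB.Tilt (k4)
open Pool.Agent.PercD (BR)
open Pool.Agent.SixB.Rel (QChart Clo4 WZ1)

noncomputable section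

/-- closed strands of a part -/
theorem clo4_sub {V Φ : Type} [DecidableEq V] [DecidableEq Φ] {Q : QC V Φ} {F F' : Finset Φ}
    (hT : Clo4 Q F) (hF : F' ⊆ F) : Clo4 Q F' := by
  intro ω X hX hn
  obtain ⟨c, hc, rfl⟩ := mem_dstr.mp hX
  have h1 : Clo Q F' ω c := (clo_iff hc).mpr hn
  have h2 := (clo_iff (dE_sub hF hc)).mp (h1.mono hF)
  have h3 := hT ω _ (dst_mem_dstr (dE_sub hF hc)) h2
  rw [← trn_eq_tX, h1.trn_eq hF] at h3
  exact h3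

variable {S : Slb} {W : Finset (ℤ × ℤ)} {R c : ℕ} {f v : ℤ × ℤ} {x y : ℤ}
  {ω : Option Bool × (ℤ × ℤ) → Bool} {e : (ℤ × ℤ) × (ℤ × ℤ)} {P : Finset (ℤ × ℤ)}

/-- a window which contains everything -/
def bigW (S : Slb) : Finset (ℤ × ℤ) :=
  Finset.Ico (S.x1 - S.k) (S.x2 + S.k) ×ˢ Finset.Ico (S.yc - S.a) (S.yc + S.a)

theorem win_bigW : Win S (bigW S) := by
  intro f h1 h2 h3 h4
  unfold bigW
  rw [Finset.mem_product, Finset.mem_Ico, Finset.mem_Ico]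
  exact ⟨⟨h1, h2⟩, h3, h4⟩

theorem clo4_G (h : S.Ok) (hc : c ≤ S.k) : Clo4 (S.env W 0 0).Q (S.G c) := by
  have h1 : Clo4 (S.env (bigW S) 0 0).Q (S.G c) :=
    clo4_sub (SEnv.TopOK.clo4' (h.topOK (bigW S) 0 0)) (G_sub h win_bigW hc)
  exact h1

theorem WZ_G (h : S.Ok) (hc : c ≤ S.k) {ψ : (Option Bool × (ℤ × ℤ)) × (Option Bool × (ℤ × ℤ)) → ℝ} :
    nW (S.env W 0 0).Q (S.G c) ψ ω = WZ (S.env W 0 0).Q (S.G c) ψ (bS (S.env W 0 0).Q (S.G c)) ω :=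
  Rel.nW_WZ (Rel.noLoop_env _) fun X hX hn => clo4_G h hc ω X hX hn

theorem WZ1_G (h : S.Ok) (hc : c ≤ S.k) {ψ : (Option Bool × (ℤ × ℤ)) × (Option Bool × (ℤ × ℤ)) → ℝ}
    {s : (Option Bool × (ℤ × ℤ)) × (Option Bool × (ℤ × ℤ))} (hs : s ∈ dE (S.env W 0 0).Q (S.G c)) :
    nW1 (S.env W 0 0).Q (S.G c) ψ s ω = WZ1 (S.env W 0 0).Q (S.G c) ψ (bS (S.env W 0 0).Q (S.G c)) s ω :=
  Rel.nW1_WZ1 (Rel.noLoop_env _) hs fun X hX hn => clo4_G h hc ω X hX hn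

/-- the sides of the faces of the window -/
theorem em_sd2 (h : S.Ok) (hW : Win S W)
    (hP : ∀ f ∈ P, S.x1 ≤ f.1 ∧ f.1 < S.x2 ∧ S.yc - S.k ≤ f.2 ∧ f.2 < S.yc + S.k) (he : e ∈ dE ZQ P) :
    (em h hW).side e = sd2 S e := by
  obtain ⟨f, hf, k, hk⟩ := mem_dE.mp he
  obtain ⟨h1, h2, h3, h4⟩ := hP f hf
  rcases hk with rfl | rfl
  · exact em_side h hW h1 h2 h3 h4 k
  · have h5 := em_side h hW h1 h2 h3 h4 k
    exact congrArg Prod.swap h5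

/-- **Off the event the weights of the polygon with closed tubes are those of the polygon.** -/
theorem WZ_tube (h : S.Ok) (h0 : 0 < c) (hc : c < S.k) {N : ℕ} (hN : S.a * 2 ^ N < S.k / 2)
    (hω : bdT S N ω = 0) :
    WZ (S.env W 0 0).Q (S.G c) (S.phG c) (bS (S.env W 0 0).Q (S.G c)) ω =
      WZ (S.env W 0 0).Q (S.G 0) (S.phG 0) (bS (S.env W 0 0).Q (S.G 0)) ω ∧
    ∀ P : Finset (ℤ × ℤ), (∀ f ∈ P, S.x1 ≤ f.1 ∧ f.1 < S.x2 ∧ S.yc - S.k ≤ f.2 ∧ f.2 < S.yc + S.k) →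
      (∀ f ∈ P, ∀ i, f ∉ HBx i (tv S i) (S.k / 2)) → ∀ e ∈ dE ZQ P,
      WZ1 (S.env W 0 0).Q (S.G c) (S.phG c) (bS (S.env W 0 0).Q (S.G c)) (sd2 S e) ω =
        WZ1 (S.env W 0 0).Q (S.G 0) (S.phG 0) (bS (S.env W 0 0).Q (S.G 0)) (sd2 S e) ω := by
  have key : ∀ W, (S.env W 0 0).Q = (S.env (bigW S) 0 0).Q := fun _ => rfl
  rw [key W]
  obtain ⟨h1, h2⟩ := nW_tube h win_bigW h0 hc hN hω
  refine ⟨?_, fun P hP hB e he => ?_⟩
  · rw [← WZ_G h hc.le, ← WZ_G h (Nat.zero_le _), h1, nW_D h win_bigW]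
  · have hPD : P ⊆ S.D := by
      intro f hf
      obtain ⟨h3, h4, h5, h6⟩ := hP f hf
      exact_mod_cast h.slab.sub _ _ h3 h4 h5 h6
    have h3 := em_sd2 h win_bigW hP he
    obtain ⟨h4, -, -⟩ := off_box h win_bigW h0 hc hN hPD hB he
    have h5 := h2 P hPD hB e he
    rw [← nW1_D h win_bigW (dE_sub hPD he)] at h5
    rw [h3] at h5 h4
    rw [← WZ1_G h hc.le (dE_sub (Slb.G_mono (Nat.zero_le _)) h4), ← WZ1_G h (Nat.zero_le _) h4]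
    exact h5

/-- the weights of `S.G 0` are those of `S.D` -/
theorem WZ_D (h : S.Ok) (hW : Win S W) :
    WZ (S.env W 0 0).Q (S.G 0) (S.phG 0) (bS (S.env W 0 0).Q (S.G 0)) ω =
      nW ZQ S.D S.ψ (fun f => ω ((em h hW).φF f)) := by
  rw [← WZ_G h (Nat.zero_le _), nW_D h hW]

theorem WZ1_D (h : S.Ok) (hW : Win S W) (he : e ∈ dE ZQ S.D) :
    WZ1 (S.env W 0 0).Q (S.G 0) (S.phG 0) (bS (S.env W 0 0).Q (S.G 0)) ((em h hW).side e) ω =
      nW1 ZQ S.D S.ψ e (fun f => ω ((em h hW).φF f)) := by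
  have h1 : (em h hW).side e ∈ dE (S.env W 0 0).Q (S.G 0) := by
    rw [G0_image h hW, WM.dE_map (emH h hW)]
    exact Finset.mem_image_of_mem _ he
  rw [← WZ1_G h (Nat.zero_le _) h1, nW1_D h hW he]

end

end Pool.Agent.SixB.SlbD
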