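import Pool.Agent.Lib.SixB.S3BoundsE

/-!
# SixB, step 3 (N-i): the environment outside a region does not matter (4.4)

`W` weight of the environment, `WD` weight of the region (faces `R`), `WO` weight of the complement; `W = WD WO`
on the good event. For an observable `X` of the region, `|X| ≤ H`, `H` off the boxes:
`|E[W X] / E W - E[WD X] / E WD| ≤ C (E H^8)^(1/8) P(bad)^(1/2)`.
-/

set_option autoImplicit false
set_option linter.unusedVariables false

namespace Pool.Agent.SixB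

open Finset

/-- arithmetic of the splitting -/
theorem split_arith (n z N Z o e1 e2 e3 e4 C c h δ U O : ℝ) (hc : 0 < c) (hC : 0 ≤ C) (hh : 0 ≤ h)
    (hδ : 0 ≤ δ) (hU : 0 < U) (hO : 0 < O)
    (hN : N = o * (n - e1) + e3) (hZ : Z = o * (z - e2) + e4)
    (he1 : |e1| ≤ δ * h * U) (he2 : |e2| ≤ δ * U) (he3 : |e3| ≤ δ * h * (U * O))
    (he4 : |e4| ≤ δ * (U * O)) (hn : |n| ≤ C * h * U) (hz : c * U ≤ z) (hZ' : c * (U * O) ≤ Z)
    (ho : |o| ≤ C * O) :
    |N / Z - n / z| ≤ (C + C * C / c + 1 + C / c) / c * (h * δ) := by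
  have hz0 : 0 < z := lt_of_lt_of_le (mul_pos hc hU) hz
  have hZ0 : 0 < Z := lt_of_lt_of_le (mul_pos hc (mul_pos hU hO)) hZ'
  have hr : |n / z| ≤ C * h / c := by
    rw [abs_div, abs_of_pos hz0, div_le_div_iff₀ hz0 hc]
    calc |n| * c ≤ C * h * U * c := mul_le_mul_of_nonneg_right hn hc.le
      _ = C * h * (c * U) := by ring
      _ ≤ C * h * z := mul_le_mul_of_nonneg_left hz (mul_nonneg hC hh)
  have key : N / Z - n / z = (-(o * e1) + n / z * (o * e2) + e3 - n / z * e4) / Z := by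
    rw [hN]
    have : n / z * Z = n / z * (o * (z - e2) + e4) := by rw [← hZ]
    field_simp
    rw [hZ]
    ring
  rw [key, abs_div, abs_of_pos hZ0, div_le_iff₀ hZ0]
  have hUO : 0 < U * O := mul_pos hU hO
  have a1 : |o * e1| ≤ C * (h * δ) * (U * O) := by
    rw [abs_mul]
    calc |o| * |e1| ≤ (C * O) * (δ * h * U) :=
          mul_le_mul ho he1 (abs_nonneg _) (mul_nonneg hC hO.le)
      _ = _ := by ring
  have a2 : |n / z * (o * e2)| ≤ C * C / c * (h * δ) * (U * O) := by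
    rw [abs_mul, abs_mul]
    have h1 : |o| * |e2| ≤ (C * O) * (δ * U) :=
      mul_le_mul ho he2 (abs_nonneg _) (mul_nonneg hC hO.le)
    calc |n / z| * (|o| * |e2|) ≤ (C * h / c) * ((C * O) * (δ * U)) :=
          mul_le_mul hr h1 (mul_nonneg (abs_nonneg _) (abs_nonneg _)) (by positivity)
      _ = _ := by ring
  have a3 : |e3| ≤ (h * δ) * (U * O) := he3.trans (le_of_eq (by ring))
  have a4 : |n / z * e4| ≤ C / c * (h * δ) * (U * O) := by
    rw [abs_mul]
    calc |n / z| * |e4| ≤ (C * h / c) * (δ * (U * O)) :=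
          mul_le_mul hr he4 (abs_nonneg _) (by positivity)
      _ = _ := by ring
  have a5 : |-(o * e1) + n / z * (o * e2) + e3 - n / z * e4| ≤
      |o * e1| + |n / z * (o * e2)| + |e3| + |n / z * e4| := by
    have b1 := abs_sub (-(o * e1) + n / z * (o * e2) + e3) (n / z * e4)
    have b2 := abs_add_le (-(o * e1) + n / z * (o * e2)) e3
    have b3 := abs_add_le (-(o * e1)) (n / z * (o * e2))
    rw [abs_neg] at b3
    linarith
  have a6 : (C + C * C / c + 1 + C / c) / c * (h * δ) * (c * (U * O)) ≤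
      (C + C * C / c + 1 + C / c) / c * (h * δ) * Z :=
    mul_le_mul_of_nonneg_left hZ' (by positivity)
  have a7 : (C + C * C / c + 1 + C / c) / c * (h * δ) * (c * (U * O)) =
      (C + C * C / c + 1 + C / c) * (h * δ) * (U * O) := by
    field_simp
  have a8 : |o * e1| + |n / z * (o * e2)| + |e3| + |n / z * e4| ≤
      (C + C * C / c + 1 + C / c) * (h * δ) * (U * O) := by
    calc _ ≤ C * (h * δ) * (U * O) + C * C / c * (h * δ) * (U * O) + (h * δ) * (U * O) +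
          C / c * (h * δ) * (U * O) := by linarith
      _ = _ := by ring
  linarith

/-- SPLITTING (4.4). `V` the outer vertices, `VD` the vertices of the region `R`. -/
theorem split_signed (cM cK : ℝ → ℝ) (t₀ T A₀ q c₀ : ℝ) (nV : ℕ) (ht₀ : 0 < t₀)
    (ht₁ : t₀ ≤ 1) (hT : 1 ≤ T) (hq : 1 ≤ q) (hc₀ : 0 < c₀) :
    ∃ C : ℝ, 0 < C ∧
      ∀ (Ω ι κ : Type) (P : ExpSys Ω ι) (D : ChainData P κ) (t : κ → ℝ),
      D.Good t cM t₀ T A₀ → ∀ (V VD : Finset κ), Disjoint V VD → V.card + VD.card ≤ nV →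
      (∀ v, 0 < D.F v (t v) 0) →
      ∀ (W WD WO : Ω → ℝ) (K KD KO : Ω → ℕ) (R : Set ι),
      (∀ ω, |W ω| ≤ ((∏ v ∈ V, t v ^ D.N v 0 ω) * ∏ v ∈ VD, t v ^ D.N v 0 ω) * q ^ K ω) →
      (∀ ω, |WD ω| ≤ (∏ v ∈ VD, t v ^ D.N v 0 ω) * q ^ KD ω) →
      (∀ ω, |WO ω| ≤ (∏ v ∈ V, t v ^ D.N v 0 ω) * q ^ KO ω) →
      (∀ v, v ∈ V ∨ v ∈ VD → P.Dep (D.B v 1)ᶜ K) → (∀ v ∈ VD, P.Dep (D.B v 1)ᶜ KD) →
      (∀ v ∈ V, P.Dep (D.B v 1)ᶜ KO) →
      (∀ L : ℝ, 1 ≤ L → P.E (fun ω => L ^ K ω) ≤ cK L) →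
      (∀ L : ℝ, 1 ≤ L → P.E (fun ω => L ^ KD ω) ≤ cK L) →
      (∀ L : ℝ, 1 ≤ L → P.E (fun ω => L ^ KO ω) ≤ cK L) →
      c₀ * ((∏ v ∈ V, D.F v (t v) 0) * ∏ v ∈ VD, D.F v (t v) 0) ≤ P.E W →
      c₀ * (∏ v ∈ VD, D.F v (t v) 0) ≤ P.E WD →
      P.Dep R WD → P.Dep Rᶜ WO →
      ∀ (bad badD badO : Ω → ℝ), (∀ ω, bad ω = 0 ∨ bad ω = 1) → (∀ ω, badD ω = 0 ∨ badD ω = 1) →
      (∀ ω, badO ω = 0 ∨ badO ω = 1) → (∀ ω, 1 - bad ω = (1 - badD ω) * (1 - badO ω)) →
      P.Dep R badD → P.Dep Rᶜ badO →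
      (∀ v, v ∈ V ∨ v ∈ VD → P.Dep (D.B v 1)ᶜ bad) → (∀ v ∈ VD, P.Dep (D.B v 1)ᶜ badD) →
      (∀ ω, bad ω = 0 → W ω = WD ω * WO ω) →
      ∀ (X H : Ω → ℝ), P.Dep R X → (∀ ω, |X ω| ≤ H ω) → (∀ v, v ∈ V ∨ v ∈ VD → P.Dep (D.B v 1)ᶜ H) →
      |P.E (fun ω => W ω * X ω) / P.E W - P.E (fun ω => WD ω * X ω) / P.E WD| ≤
        C * (P.E (fun ω => H ω ^ 8) ^ (1 / 8 : ℝ) * P.E bad ^ (1 / 2 : ℝ)) := by
  classical
  obtain ⟨C, hC1, hC⟩ := upper_signed cM cK t₀ T A₀ q 1 nV ht₀ ht₁ hT hq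
  have hC0 : 0 < C := by linarith
  refine ⟨(C + C * C / c₀ + 1 + C / c₀) / c₀ * C, by positivity, ?_⟩
  intro Ω ι κ P D t hG V VD hVV hVn hFpos W WD WO K KD KO R hW hWD hWO hK hKD hKO hcK hcKD hcKO
    hEW hEWD hdD hdO bad badD badO hb hbD hbO hbb hbDd hbOd hbd' hbDd1 hsplit X H hXd hXH hHd'
  have hK' : ∀ v ∈ V ∪ VD, P.Dep (D.B v 1)ᶜ K := fun v hv => hK v (Finset.mem_union.1 hv)
  have hbd : ∀ v ∈ V ∪ VD, P.Dep (D.B v 1)ᶜ bad := fun v hv => hbd' v (Finset.mem_union.1 hv)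
  have hHd : ∀ v ∈ V ∪ VD, P.Dep (D.B v 1)ᶜ H := fun v hv => hHd' v (Finset.mem_union.1 hv)
  set FV := ∏ v ∈ V, D.F v (t v) 0 with hFV
  set FD := ∏ v ∈ VD, D.F v (t v) 0 with hFD
  have hFV0 : 0 < FV := Finset.prod_pos fun v _ => hFpos v
  have hFD0 : 0 < FD := Finset.prod_pos fun v _ => hFpos v
  have hH0 : ∀ ω, 0 ≤ H ω := fun ω => (abs_nonneg _).trans (hXH ω)
  have hWu : ∀ ω, |W ω| ≤ (∏ v ∈ V ∪ VD, t v ^ D.N v 0 ω) * q ^ K ω := fun ω => by
    rw [Finset.prod_union hVV]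
    exact hW ω
  have hVc : (V ∪ VD).card ≤ nV := (Finset.card_union_le _ _).trans hVn
  have hb0 : 0 ≤ P.E bad := P.E_nonneg fun ω => by rcases hb ω with h | h <;> rw [h]; norm_num
  have hbD0 : 0 ≤ P.E badD := P.E_nonneg fun ω => by rcases hbD ω with h | h <;> rw [h]; norm_num
  have hbDb : P.E badD ≤ P.E bad := by
    refine P.mono _ _ fun ω => ?_
    have h1 := hbb ω
    rcases hb ω with h | h
    · rcases hbD ω with h' | h'
      · rw [h, h']
      · rw [h, h'] at h1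
        norm_num at h1
    · rcases hbD ω with h' | h' <;> rw [h, h'] <;> norm_num
  set h8 := P.E (fun ω => H ω ^ 8) ^ (1 / 8 : ℝ) with hh8
  have hHE : 0 ≤ P.E (fun ω => H ω ^ 8) := P.E_nonneg fun ω => pow_nonneg (hH0 ω) _
  have hh80 : 0 ≤ h8 := Real.rpow_nonneg hHE _
  set β := P.E bad ^ (1 / 2 : ℝ) with hβ
  have hβ0 : 0 ≤ β := Real.rpow_nonneg hb0 _
  have e1 : (1 : ℝ) - (1 / 2 : ℝ) ^ 1 = 1 / 2 := by norm_num
  have e2 : ((1 / 2 : ℝ) ^ (1 + 2)) = 1 / 8 := by norm_num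
  have e3 : 2 ^ (1 + 2) = 8 := by norm_num
  -- the bounds
  have u3 := hC Ω ι κ P D t hG (V ∪ VD) hVc W K hWu hK' hcK bad H hb hH0 hbd hHd
  have u4 := hC Ω ι κ P D t hG (V ∪ VD) hVc W K hWu hK' hcK bad (fun _ => 1) hb
    (fun _ => zero_le_one) hbd (fun v _ => ExpSys.Dep.const _ _)
  have u1 := hC Ω ι κ P D t hG VD (by omega) WD KD hWD hKD hcKD badD H hbD hH0 hbDd1
    (fun v hv => hHd v (Finset.mem_union_right _ hv))
  have u2 := hC Ω ι κ P D t hG VD (by omega) WD KD hWD hKD hcKD badD (fun _ => 1) hbD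
    (fun _ => zero_le_one) hbDd1 (fun v _ => ExpSys.Dep.const _ _)
  have un := hC Ω ι κ P D t hG VD (by omega) WD KD hWD hKD hcKD (fun _ => 1) H
    (fun _ => Or.inr rfl) hH0 (fun v _ => ExpSys.Dep.const _ _)
    (fun v hv => hHd v (Finset.mem_union_right _ hv))
  have uo := hC Ω ι κ P D t hG V (by omega) WO KO hWO hKO hcKO (fun _ => 1) (fun _ => 1)
    (fun _ => Or.inr rfl) (fun _ => zero_le_one) (fun v _ => ExpSys.Dep.const _ _)
    (fun v _ => ExpSys.Dep.const _ _)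
  rw [Finset.prod_union hVV] at u3 u4
  rw [e1, e2, e3] at u1 u2 u3 u4 un uo
  simp only [mul_one, one_pow, P.one, Real.one_rpow] at u2 u4 uo
  simp only [P.one, Real.one_rpow, one_mul] at un
  have hbDβ : P.E badD ^ (1 / 2 : ℝ) ≤ β := Real.rpow_le_rpow hbD0 hbDb (by norm_num)
  -- names
  set n := P.E (fun ω => WD ω * X ω) with hn
  set z := P.E WD with hz
  set o := P.E (fun ω => WO ω * (1 - badO ω)) with ho
  set x1 := P.E (fun ω => WD ω * X ω * badD ω) with hx1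
  set x2 := P.E (fun ω => WD ω * badD ω) with hx2
  set x3 := P.E (fun ω => W ω * X ω * bad ω) with hx3
  set x4 := P.E (fun ω => W ω * bad ω) with hx4
  have hbabs : ∀ ω, |bad ω| = bad ω := fun ω => by rcases hb ω with h | h <;> rw [h] <;> simp
  have hbDabs : ∀ ω, |badD ω| = badD ω := fun ω => by rcases hbD ω with h | h <;> rw [h] <;> simp
  have hx1b : |x1| ≤ C * β * h8 * FD := by
    refine (P.abs_E_le_of_le (G := fun ω => |WD ω| * (badD ω * H ω)) fun ω => ?_).trans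
      (u1.trans ?_)
    · rw [abs_mul, abs_mul, hbDabs]
      have hbn : 0 ≤ badD ω := by rw [← hbDabs]; exact abs_nonneg _
      calc |WD ω| * |X ω| * badD ω ≤ |WD ω| * H ω * badD ω :=
            mul_le_mul_of_nonneg_right (mul_le_mul_of_nonneg_left (hXH ω) (abs_nonneg _)) hbn
        _ = _ := by ring
    · calc C * FD * (P.E badD ^ (1 / 2 : ℝ) * h8) ≤ C * FD * (β * h8) :=
            mul_le_mul_of_nonneg_left (mul_le_mul_of_nonneg_right hbDβ hh80) (by positivity)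
        _ = _ := by ring
  have hx2b : |x2| ≤ C * β * FD := by
    refine (P.abs_E_le_of_le (G := fun ω => |WD ω| * badD ω) fun ω => ?_).trans (u2.trans ?_)
    · rw [abs_mul, hbDabs]
    · calc C * FD * P.E badD ^ (1 / 2 : ℝ) ≤ C * FD * β :=
            mul_le_mul_of_nonneg_left hbDβ (by positivity)
        _ = _ := by ring
  have hx3b : |x3| ≤ C * β * h8 * (FD * FV) := by
    refine (P.abs_E_le_of_le (G := fun ω => |W ω| * (bad ω * H ω)) fun ω => ?_).trans
      (u3.trans (le_of_eq (by ring)))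
    rw [abs_mul, abs_mul, hbabs]
    have hbn : 0 ≤ bad ω := by rw [← hbabs]; exact abs_nonneg _
    calc |W ω| * |X ω| * bad ω ≤ |W ω| * H ω * bad ω :=
          mul_le_mul_of_nonneg_right (mul_le_mul_of_nonneg_left (hXH ω) (abs_nonneg _)) hbn
      _ = _ := by ring
  have hx4b : |x4| ≤ C * β * (FD * FV) := by
    refine (P.abs_E_le_of_le (G := fun ω => |W ω| * bad ω) fun ω => ?_).trans
      (u4.trans (le_of_eq (by ring)))
    rw [abs_mul, hbabs]
  have hnb : |n| ≤ C * h8 * FD := by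
    refine (P.abs_E_le_of_le (G := fun ω => |WD ω| * H ω) fun ω => ?_).trans
      (un.trans (le_of_eq (by ring)))
    rw [abs_mul]
    exact mul_le_mul_of_nonneg_left (hXH ω) (abs_nonneg _)
  have hob : |o| ≤ C * FV := by
    refine (P.abs_E_le_of_le (G := fun ω => |WO ω|) fun ω => ?_).trans uo
    rw [abs_mul]
    have : |1 - badO ω| ≤ 1 := by rcases hbO ω with h | h <;> rw [h] <;> norm_num
    exact mul_le_of_le_one_right (abs_nonneg _) this
  have hN : P.E (fun ω => W ω * X ω) = o * (n - x1) + x3 := by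
    have h1 : P.E (fun ω => (WD ω * X ω * (1 - badD ω)) * (WO ω * (1 - badO ω))) =
        P.E (fun ω => WD ω * X ω * (1 - badD ω)) * o := by
      refine P.E_indep (disjoint_compl_right (a := R)) ?_ ?_
      · exact (hdD.comp2 hXd fun x y : ℝ => x * y).comp2 hbDd fun x y : ℝ => x * (1 - y)
      · exact hdO.comp2 hbOd fun x y : ℝ => x * (1 - y)
    have h2 : P.E (fun ω => WD ω * X ω * (1 - badD ω)) = n - x1 := by
      rw [hn, hx1, ← P.E_sub]
      congr 1
      funext ω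
      ring
    rw [h2] at h1
    have h3 : (fun ω => W ω * X ω) = fun ω =>
        (WD ω * X ω * (1 - badD ω)) * (WO ω * (1 - badO ω)) + W ω * X ω * bad ω := by
      funext ω
      have e : (WD ω * X ω * (1 - badD ω)) * (WO ω * (1 - badO ω)) =
          WD ω * WO ω * X ω * (1 - bad ω) := by
        rw [hbb ω]
        ring
      rw [e]
      rcases hb ω with h | h
      · rw [h, ← hsplit ω h]
        ring
      · rw [h]
        ring
    rw [h3, P.add, h1, ← hx3]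
    ring
  have hZ : P.E W = o * (z - x2) + x4 := by
    have h1 : P.E (fun ω => (WD ω * (1 - badD ω)) * (WO ω * (1 - badO ω))) =
        P.E (fun ω => WD ω * (1 - badD ω)) * o := by
      refine P.E_indep (disjoint_compl_right (a := R)) ?_ ?_
      · exact hdD.comp2 hbDd fun x y : ℝ => x * (1 - y)
      · exact hdO.comp2 hbOd fun x y : ℝ => x * (1 - y)
    have h2 : P.E (fun ω => WD ω * (1 - badD ω)) = z - x2 := by
      rw [hz, hx2, ← P.E_sub]
      congr 1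
      funext ω
      ring
    rw [h2] at h1
    have h3 : W = fun ω =>
        (WD ω * (1 - badD ω)) * (WO ω * (1 - badO ω)) + W ω * bad ω := by
      funext ω
      have e : (WD ω * (1 - badD ω)) * (WO ω * (1 - badO ω)) =
          WD ω * WO ω * (1 - bad ω) := by
        rw [hbb ω]
        ring
      rw [e]
      rcases hb ω with h | h
      · rw [h, ← hsplit ω h]
        ring
      · rw [h]
        ring
    rw [hx4]
    conv_lhs => rw [h3]
    rw [P.add, h1]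
    ring
  have hfin := split_arith n z (P.E (fun ω => W ω * X ω)) (P.E W) o x1 x2 x3 x4 C c₀ h8 (C * β) FD
    FV hc₀ hC0.le hh80 (by positivity) hFD0 hFV0 hN hZ hx1b hx2b hx3b hx4b hnb hEWD
    (by rw [mul_comm FD FV]; exact hEW) hob
  refine hfin.trans (le_of_eq ?_)
  ring

end Pool.Agent.SixB
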