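import Pool.Agent.Lib.SixB.S3MouthC

/-!
# SixB, step 3, row N-i, deterministic part of (4.4): splitting of a surface along narrow tubes

`F₁ ⊆ F`, the common sides of `F₁` and `F \ F₁` (the cut) lie in a set of faces `T` (the tubes).
`split_det`: if the strands of `T` through the cut do not leave `T` and all strands of `T`, `T ∩ F₁`,
`T \ F₁` with two true ends have weight `√3`, then the normalised strand product of `F` is the product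
of those of the two closed parts, with every insertion off `T` and `F \ F₁`.
-/

set_option autoImplicit false
set_option linter.unusedSectionVars false

namespace Pool.Agent.SixB.Spl

open Pool.Agent.Perc.Q Relation

noncomputable section

variable {V Φ : Type} [DecidableEq V] [DecidableEq Φ]
variable {Q : QC V Φ} {F F₁ R T : Finset Φ} {ω : Φ → Bool} {a b c e : V × V} {X : Finset (V × V)}

theorem dE_cases (F₁ : Finset Φ) (h : b ∈ dE Q F) : b ∈ dE Q F₁ ∨ b ∈ dE Q (F \ F₁) := by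
  obtain ⟨f, hf, k, h⟩ := mem_dE.mp h
  by_cases hf1 : f ∈ F₁
  · exact Or.inl (mem_dE.mpr ⟨f, hf1, k, h⟩)
  · exact Or.inr (mem_dE.mpr ⟨f, Finset.mem_sdiff.mpr ⟨hf, hf1⟩, k, h⟩)

/-- a strand which meets `F₁` and the rest contains a common side -/
theorem exists_common (hb : b ∈ dst Q F ω a) (hb1 : b ∈ dE Q F₁)
    (hc : c ∈ dst Q F ω a) (hc2 : c ∈ dE Q (F \ F₁)) :
    ∃ d ∈ dst Q F ω a, d ∈ dE Q F₁ ∧ d ∈ dE Q (F \ F₁) := by
  by_contra hcon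
  push Not at hcon
  have key : ∀ x y, SRel Q F ω x y → SRel Q F ω a x → (x ∈ dE Q F₁ ↔ y ∈ dE Q F₁) := by
    intro x y hxy
    induction hxy with
    | rel x y h =>
      intro hax
      have hxm : x ∈ dst Q F ω a := mem_dst.mpr ⟨Nx.left_mem h, hax⟩
      have hym : y ∈ dst Q F ω a :=
        mem_dst.mpr ⟨Nx.right_mem h, EqvGen.trans _ _ _ hax (EqvGen.rel _ _ h)⟩
      obtain ⟨f, hf, k, h1, h2⟩ := h
      have hf' : f ∈ F := by exact_mod_cast hf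
      by_cases hf1 : f ∈ F₁
      · have hN : Nx Q ω (F₁ : Set Φ) x y := ⟨f, by exact_mod_cast hf1, k, h1, h2⟩
        exact iff_of_true (Nx.left_mem hN) (Nx.right_mem hN)
      · have hN : Nx Q ω ((F \ F₁ : Finset Φ) : Set Φ) x y :=
          ⟨f, by exact_mod_cast Finset.mem_sdiff.mpr ⟨hf', hf1⟩, k, h1, h2⟩
        refine iff_of_false (fun h3 => ?_) (fun h3 => ?_)
        · exact hcon x hxm h3 (Nx.left_mem hN)
        · exact hcon y hym h3 (Nx.right_mem hN)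
    | refl x => exact fun _ => Iff.rfl
    | symm x y h ih => exact fun hay => (ih (EqvGen.trans _ _ _ hay (EqvGen.symm _ _ h))).symm
    | trans x y z h1 _ ih1 ih2 => exact fun hax => (ih1 hax).trans (ih2 (EqvGen.trans _ _ _ hax h1))
  have h1 := (mem_dst.mp hb).2
  have h2 := (mem_dst.mp hc).2
  have h3 := (key b c (EqvGen.trans _ _ _ (EqvGen.symm _ _ h1) h2) h1).mp hb1
  exact hcon c hc h3 hc2

/-- the angle of an untouched strand -/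
theorem ang6_of_off (hF : F₁ ⊆ F) (hR : F \ F₁ ⊆ R) (ψ : V × V → ℝ) (ha : a ∈ bS Q F₁)
    (h : Off Q R (dst Q F₁ ω a)) : ang6 Q F ω ψ a = ang6 Q F₁ ω ψ a := by
  unfold ang6
  rw [mate_of_off hF hR ha h, turn_of_off hF hR (mem_bS.mp ha).1 h]

/-- the directed unit edges which are not sides of `F \ T` -/
theorem dE_inter (hF : F₁ ⊆ F) (hb : b ∈ dE Q F₁) (h : b ∉ dE Q (F \ T)) :
    b ∈ dE Q (T ∩ F₁) := by
  obtain ⟨f, hf, k, hk⟩ := mem_dE.mp hb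
  have hT : f ∈ T := by
    by_contra hh
    exact h (mem_dE.mpr ⟨f, Finset.mem_sdiff.mpr ⟨hF hf, hh⟩, k, hk⟩)
  exact mem_dE.mpr ⟨f, Finset.mem_inter.mpr ⟨hT, hf⟩, k, hk⟩

/-- a piece of a strand which does not leave `T` -/
theorem off_piece (hF : F₁ ⊆ F) (hb : Off Q (F \ T) (dst Q T ω b))
    (hc : c ∈ dst Q T ω b) : Off Q (F₁ \ T) (dst Q (T ∩ F₁) ω c) := by
  intro x hx hxR
  have h1 : x ∈ dst Q T ω c := dst_mono Finset.inter_subset_left hx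
  have h2 : x ∈ dst Q T ω b := by rw [dst_eq (mem_dst.mp hc).2]; exact h1
  exact hb x h2 (dE_sub (Finset.sdiff_subset_sdiff hF (Finset.Subset.refl _)) hxR)

/-- **A strand of a part `F₁` of `F` which meets a strand confined to `T`: it is confined and has
the weight of `T ∩ F₁`.** -/
theorem conf_ang (hF : F₁ ⊆ F) (ψ : V × V → ℝ)
    (hb : Off Q (F \ T) (dst Q T ω b)) (ha : a ∈ bS Q F₁)
    (hab : a ∈ dst Q T ω b) :
    a ∈ bS Q (T ∩ F₁) ∧ mate Q (T ∩ F₁) ω a = mate Q F₁ ω a ∧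
      ang6 Q F₁ ω ψ a = ang6 Q (T ∩ F₁) ω ψ a := by
  have h1 : a ∉ dE Q (F \ T) := hb a hab
  have h2 : a ∈ dE Q (T ∩ F₁) := dE_inter hF (mem_bS.mp ha).1 h1
  have h3 : a ∈ bS Q (T ∩ F₁) := bS_of_sub Finset.inter_subset_right ha h2
  have h4 : Off Q (F₁ \ T) (dst Q (T ∩ F₁) ω a) := off_piece hF hb hab
  have h5 : F₁ \ (T ∩ F₁) ⊆ F₁ \ T := by
    intro f hf
    obtain ⟨h6, h7⟩ := Finset.mem_sdiff.mp hf
    exact Finset.mem_sdiff.mpr ⟨h6, fun h => h7 (Finset.mem_inter.mpr ⟨h, h6⟩)⟩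
  refine ⟨h3, (mate_of_off Finset.inter_subset_right h5 h3 h4).symm, ?_⟩
  exact ang6_of_off Finset.inter_subset_right h5 ψ h3 h4

/-- the strand of `F₁` of a member of a confined strand is a part of it -/
theorem dst_conf (hF : F₁ ⊆ F) (hTF : T ⊆ F) (hb : Off Q (F \ T) (dst Q T ω b))
    (hbT : b ∈ dE Q T) (hc : c ∈ dst Q F₁ ω a) (hd : e ∈ dst Q F₁ ω a) (he : e ∈ dst Q T ω b) :
    c ∈ dst Q T ω b := by
  rw [← dst_of_off hTF (Finset.Subset.refl _) hb hbT] at he ⊢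
  obtain ⟨h1, h2⟩ := mem_dst.mp (dst_mono hF hc)
  obtain ⟨h3, h4⟩ := mem_dst.mp (dst_mono hF hd)
  obtain ⟨h5, h6⟩ := mem_dst.mp he
  exact mem_dst.mpr ⟨h1, EqvGen.trans _ _ _ h6 (EqvGen.trans _ _ _ (EqvGen.symm _ _ h4) h2)⟩

/-- **Closed parts: all touched strands have weight one.** -/
theorem prod_cutS_one (hQ : NoLoop Q) (hF : F₁ ⊆ F) (hTF : T ⊆ F) (ψ₁ : V × V → ℝ)
    {s : V × V → ℂ} (hd : Disjoint F₁ R)
    (hconf : ∀ b, b ∈ dE Q F₁ → b ∈ dE Q R → b ∈ dE Q T ∧ Off Q (F \ T) (dst Q T ω b))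
    (hT₁ : ∀ a ∈ bS Q (T ∩ F₁), a ∈ bS Q F₁ → mate Q (T ∩ F₁) ω a ∈ bS Q F₁ →
      Real.cos (ang6 Q (T ∩ F₁) ω ψ₁ a) = Real.sqrt 3 / 2)
    (hs : ∀ b ∈ dE Q T, s b = 1) :
    ∏ U ∈ cutS Q F₁ R ω, nw Q F₁ ω (fun b => bph Q F₁ ψ₁ b * s b) U = 1 := by
  classical
  refine Finset.prod_eq_one fun U hU => ?_
  unfold cutS at hU
  obtain ⟨hU1, hU2⟩ := Finset.mem_filter.mp hU
  obtain ⟨a, ha, rfl⟩ := mem_ust.mp hU1
  have ho : ¬ Off Q R (dst Q F₁ ω a) := by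
    intro h
    apply hU2
    intro X hX
    rw [Finset.mem_insert, Finset.mem_singleton] at hX
    rcases hX with rfl | rfl
    · exact h
    · rw [← rv_dst]
      exact h.rv
  by_cases hcl : ∀ b ∈ dst Q F₁ ω a, ¬ Ini Q (F₁ : Set Φ) b
  · exact absurd (off_of_closed hd ha hcl) ho
  push Not at hcl
  obtain ⟨x, hx, hxi⟩ := hcl
  obtain ⟨hx1, hx2⟩ := mem_dst.mp hx
  have hxb : x ∈ bS Q F₁ := mem_bS.mpr ⟨hx1, hxi⟩
  unfold Off at ho
  push Not at ho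
  obtain ⟨e, he, heR⟩ := ho
  obtain ⟨he1, he2⟩ := hconf e (mem_dst.mp he).1 heR
  have hin : ∀ c ∈ dst Q F₁ ω a, c ∈ dst Q T ω e := fun c hc =>
    dst_conf hF hTF he2 he1 hc he (self_mem_dst he1)
  obtain ⟨h1, h2, h3⟩ := conf_ang hF ψ₁ he2 hxb (hin x hx)
  have e3 : dst Q F₁ ω a = dst Q F₁ ω x := dst_eq hx2
  have e4 : dst Q F₁ ω a.swap = dst Q F₁ ω x.swap := dst_eq (srel_swap hx2)
  rw [e3, e4]
  refine nw_one hQ ψ₁ s hxb ?_ (fun b hb => hs b ?_) (fun b hb => hs b ?_)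
  · rw [h3]
    refine hT₁ x h1 hxb ?_
    rw [h2]
    exact mate_mem hxb
  · rw [← e3] at hb
    exact (mem_dst.mp (hin b hb)).1
  · rw [← e4, ← rv_dst] at hb
    have h4 := (mem_dst.mp (hin _ (mem_rv.mp hb))).1
    exact swap_mem_dE.mp h4

/-- **Splitting along the cut.** -/
theorem split_det (hQ : NoLoop Q) (hF : F₁ ⊆ F) (hTF : T ⊆ F) {ψ ψ₁ ψ₂ : V × V → ℝ}
    {s : V × V → ℂ}
    (hψ₁ : ∀ a ∈ bS Q F₁, a ∉ dE Q (F \ F₁) → ψ a = ψ₁ a)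
    (hψ₂ : ∀ a ∈ bS Q (F \ F₁), a ∉ dE Q F₁ → ψ a = ψ₂ a)
    (hL : ∀ a ∈ dE Q F, (∀ b ∈ dst Q F ω a, ¬ Ini Q (F : Set Φ) b) →
      tX Q F ω (dst Q F ω a) = 4 ∨ tX Q F ω (dst Q F ω a) = -4)
    (hconf : ∀ b, b ∈ dE Q F₁ → b ∈ dE Q (F \ F₁) →
      b ∈ dE Q T ∧ Off Q (F \ T) (dst Q T ω b))
    (hT : ∀ a ∈ bS Q T, a ∈ bS Q F → mate Q T ω a ∈ bS Q F →
      Real.cos (ang6 Q T ω ψ a) = Real.sqrt 3 / 2)
    (hT₁ : ∀ a ∈ bS Q (T ∩ F₁), a ∈ bS Q F₁ → mate Q (T ∩ F₁) ω a ∈ bS Q F₁ →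
      Real.cos (ang6 Q (T ∩ F₁) ω ψ₁ a) = Real.sqrt 3 / 2)
    (hT₂ : ∀ a ∈ bS Q (T ∩ (F \ F₁)), a ∈ bS Q (F \ F₁) →
      mate Q (T ∩ (F \ F₁)) ω a ∈ bS Q (F \ F₁) →
      Real.cos (ang6 Q (T ∩ (F \ F₁)) ω ψ₂ a) = Real.sqrt 3 / 2)
    (hs : ∀ b ∈ dE Q T, s b = 1) :
    Zn Q F ω (fun b => bph Q F ψ b * s b) =
      Zn Q F₁ ω (fun b => bph Q F₁ ψ₁ b * s b) *
        Zn Q (F \ F₁) ω (fun b => bph Q (F \ F₁) ψ₂ b * s b) := by
  classical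
  set F₂ := F \ F₁ with hF₂
  have hF2 : F₂ ⊆ F := Finset.sdiff_subset
  have hR2 : F \ F₂ = F₁ := Finset.sdiff_sdiff_eq_self hF
  have hrefl : F \ F₁ ⊆ F₂ := Finset.Subset.refl _
  -- the boundary factors of the two parts
  have hh : ∀ {G R : Finset Φ} {ψ' : V × V → ℝ} (hG : G ⊆ F) (hR : F \ G ⊆ R)
      (hψ' : ∀ a ∈ bS Q G, a ∉ dE Q R → ψ a = ψ' a), ∀ b ∈ dE Q G, b ∉ dE Q R →
      bph Q F ψ b * s b = bph Q G ψ' b * s b := by
    intro G R ψ' hG hR hψ' b hb hbR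
    congr 1
    by_cases hi : Ini Q (G : Set Φ) b
    · rw [bph_ini ψ' hi, bph_ini ψ ((ini_of_off hG hR hbR).mpr hi),
        hψ' b (mem_bS.mpr ⟨hb, hi⟩) hbR]
    · by_cases ht : Ter Q (G : Set Φ) b
      · rw [bph_ter ψ' hb ht, bph_ter ψ (dE_sub hG hb) ((ter_of_off hG hR hbR).mpr ht),
          hψ' b.swap (mem_bS.mpr ⟨swap_mem_dE.mpr hb, ini_swap.mpr ht⟩)
            (fun h => hbR (swap_mem_dE.mp h))]
      · rw [bph_in ψ' hi ht, bph_in ψ (fun h => hi ((ini_of_off hG hR hbR).mp h))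
          (fun h => ht ((ter_of_off hG hR hbR).mp h))]
  obtain ⟨e1, e2⟩ := Zn_cut (ω := ω) hF (hh hF hrefl hψ₁)
  have e3 : Zn Q F₂ ω (fun b => bph Q F₂ ψ₂ b * s b) =
      Zu Q F₂ F₁ ω (fun b => bph Q F₂ ψ₂ b * s b) *
        ∏ U ∈ cutS Q F₂ F₁ ω, nw Q F₂ ω (fun b => bph Q F₂ ψ₂ b * s b) U := prod_ust_one _
  have e4 : Zu Q F₂ F₁ ω (fun b => bph Q F ψ b * s b) =
      Zu Q F₂ F₁ ω (fun b => bph Q F₂ ψ₂ b * s b) := by
    unfold Zu
    refine Finset.prod_congr rfl fun U hU => ?_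
    have h2 : ∀ X ∈ U, Off Q F₁ X := by
      unfold unt at hU
      exact (Finset.mem_filter.mp hU).2
    refine nw_of_off (Finset.Subset.refl _) (by rw [Finset.sdiff_self]; exact Finset.empty_subset F₁)
      h2 fun X hX b hb => hh hF2 hR2.subset hψ₂ b ?_ (h2 X hX b hb)
    obtain ⟨a, ha, rfl, h3⟩ := mem_unt.mp hU
    rw [Finset.mem_insert, Finset.mem_singleton] at hX
    rcases hX with rfl | rfl
    · exact (mem_dst.mp hb).1
    · exact (mem_dst.mp hb).1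
  have c1 : ∏ U ∈ cutS Q F₁ F₂ ω, nw Q F₁ ω (fun b => bph Q F₁ ψ₁ b * s b) U = 1 :=
    prod_cutS_one hQ hF hTF ψ₁ Finset.disjoint_sdiff hconf hT₁ hs
  have c2 : ∏ U ∈ cutS Q F₂ F₁ ω, nw Q F₂ ω (fun b => bph Q F₂ ψ₂ b * s b) U = 1 :=
    prod_cutS_one hQ hF2 hTF ψ₂ Finset.sdiff_disjoint (fun b h1 h2 => hconf b h2 h1) hT₂ hs
  have c3 : ∏ U ∈ tch Q F F₁ ω, nw Q F ω (fun b => bph Q F ψ b * s b) U = 1 := by
    refine Finset.prod_eq_one fun U hU => ?_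
    unfold tch at hU
    obtain ⟨hU1, X, hX, b, hb, c, hc, hb1, hcR⟩ := Finset.mem_filter.mp hU
    obtain ⟨a, ha, rfl⟩ := mem_ust.mp hU1
    -- a common side on the strand of `a`
    have hta : (∃ b ∈ dst Q F ω a, b ∈ dE Q F₁) ∧ (∃ b ∈ dst Q F ω a, b ∈ dE Q (F \ F₁)) := by
      rw [Finset.mem_insert, Finset.mem_singleton] at hX
      rcases hX with rfl | rfl
      · exact ⟨⟨b, hb, hb1⟩, ⟨c, hc, hcR⟩⟩
      · rw [← rv_dst] at hb hc
        exact ⟨⟨b.swap, mem_rv.mp hb, swap_mem_dE.mpr hb1⟩,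
          ⟨c.swap, mem_rv.mp hc, swap_mem_dE.mpr hcR⟩⟩
    obtain ⟨⟨b', hb', hb1'⟩, ⟨c', hc', hc1'⟩⟩ := hta
    obtain ⟨e, he, heF, heR⟩ := exists_common hb' hb1' hc' hc1'
    obtain ⟨he1, he2⟩ := hconf e heF heR
    have hin : ∀ x ∈ dst Q F ω a, x ∈ dst Q T ω e := fun x hx =>
      dst_conf (Finset.Subset.refl _) hTF he2 he1 hx he (self_mem_dst he1)
    have hsa : ∀ x ∈ dst Q F ω a, s x = 1 := fun x hx => hs x (mem_dst.mp (hin x hx)).1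
    have hsa' : ∀ x ∈ dst Q F ω a.swap, s x = 1 := by
      intro x hx
      rw [← rv_dst] at hx
      exact hs x (swap_mem_dE.mp (mem_dst.mp (hin _ (mem_rv.mp hx))).1)
    by_cases hcl : ∀ b ∈ dst Q F ω a, ¬ Ini Q (F : Set Φ) b
    · exact nw_closed hQ ψ s ha hcl (hL a ha hcl) hsa hsa'
    · push Not at hcl
      obtain ⟨x, hx, hxi⟩ := hcl
      obtain ⟨hx1, hx2⟩ := mem_dst.mp hx
      have hxb : x ∈ bS Q F := mem_bS.mpr ⟨hx1, hxi⟩
      obtain ⟨h1, h2, h3⟩ := conf_ang (Finset.Subset.refl _) ψ he2 hxb (hin x hx)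
      have hTT : T ∩ F = T := Finset.inter_eq_left.mpr hTF
      rw [hTT] at h1 h2 h3
      have e5 : dst Q F ω a = dst Q F ω x := dst_eq hx2
      have e6 : dst Q F ω a.swap = dst Q F ω x.swap := dst_eq (srel_swap hx2)
      rw [e5, e6]
      rw [e5] at hsa
      rw [e6] at hsa'
      refine nw_one hQ ψ s hxb ?_ hsa hsa'
      rw [h3]
      refine hT x h1 hxb ?_
      rw [h2]
      exact mate_mem hxb
  rw [e1, e2, e3, e4, c1, c2, c3]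
  ring

end

end Pool.Agent.SixB.Spl
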