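import Pool.Agent.Lib.SixB.S3TestPolyD
import Pool.Agent.Lib.SixB.S3AtlUp
import Pool.Agent.Lib.SixB.S3AtlFin
import Pool.Agent.Lib.SixB.S3Star

/-!
# 6BD step 3, row R14: the inequalities of the test polygons

* `upZ`, `lowZ`: the upper and the lower bound for planar atlases.
* `poly_ineq`: for every `t` with `0 < t ≤ 1` there is a constant `C` such that for all `r` and all `q` with `OkQ t q`:
  `F(q) F(π/3 - q) ≤ C A⁴ F(-q) F(-(π/3 - q))`, the reverse inequality, and `A B ≤ C`.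
-/

set_option autoImplicit false
set_option linter.unusedSectionVars false

namespace Pool.Agent.SixB.TP

open Pool.Agent.Perc.Q Pool.Agent.Perc Real

noncomputable section

theorem upZ : UpZ := by
  intro nS nN t₀ h0 h1
  obtain ⟨C, -, h⟩ := atlas_upper nS nN t₀ h0 h1
  exact ⟨C, fun F ψ r hr A => h A hr⟩

theorem lowZ : LowZ := by
  intro nS nN t₀ h0 h1
  obtain ⟨c, hc, h⟩ := atlas_lower_pos nS nN t₀ h0 h1
  refine ⟨c, hc, fun F ψ r hr A D hD hO hpos => h A hD (fun i hi => Or.inr ⟨(hO i hi).1, ?_⟩) hr hpos⟩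
  have h2 := (hO i hi).2
  omega

/-- the local factor of a special vertex is positive -/
theorem tF_pos {d : ℤ} {J : ℝ} (hd : d = 0 ∨ d = 1 ∨ d = -1) (hJ : 0 < tJ J) (r : ℕ) :
    0 < tF r (d, J) := by
  have key : ∀ m : ℕ, 1 ≤ m → m ≤ 3 → 0 < sF (.ver J) m r := fun m h1 h2 =>
    Kd.sF_pos hJ h1 h2 (Or.inl le_rfl) r
  rcases hd with rfl | rfl | rfl
  · exact key 2 (by norm_num) (by norm_num)
  · exact key 1 (by norm_num) (by norm_num)
  · exact key 3 (by norm_num) (by norm_num)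

/-- `A B ≤ C` -/
theorem ab : ∃ C : ℝ, 0 ≤ C ∧ ∀ r : ℕ, 0 < r → St.cA r * St.cB r ≤ C :=
  test_AB upZ lowZ fun _ _ r hd hJ => tF_pos (hd.imp id Or.inl) hJ r

/-- **The inequalities of the test polygons**, uniform in `q` with `OkQ t q`. -/
theorem poly_ineq {t : ℝ} (h0 : 0 < t) (h1 : t ≤ 1) : ∃ C : ℝ, 0 ≤ C ∧ ∀ r : ℕ, 0 < r →
    (∀ q : ℝ, OkQ t q → St.fF q r * St.fF (π / 3 - q) r ≤
      C * (St.cA r ^ 4 * (St.fF (-q) r * St.fF (-(π / 3 - q)) r))) ∧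
    (∀ q : ℝ, OkQ t q → St.cA r ^ 4 * (St.fF (-q) r * St.fF (-(π / 3 - q)) r) ≤
      C * (St.fF q r * St.fF (π / 3 - q) r)) ∧ St.cA r * St.cB r ≤ C := by
  have hπ := pi_pos
  obtain ⟨C₁, hC₁, h₁⟩ := test_R1 upZ lowZ h0 h1
  obtain ⟨C₂, hC₂, h₂⟩ := test_R1' upZ lowZ h0 h1
  obtain ⟨C₃, hC₃, h₃⟩ := ab
  refine ⟨C₁ + C₂ + C₃, by positivity, fun r hr => ⟨fun q hq => ?_, fun q hq => ?_, ?_⟩⟩
  · have n1 : 0 ≤ St.fF (-q) r := tF_nonneg (J := -q) ⟨by linarith [hq.2.1], by linarith [hq.1]⟩ r 0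
    have n2 : 0 ≤ St.fF (-(π / 3 - q)) r := tF_nonneg (J := -(π / 3 - q))
      ⟨by linarith [hq.1], by linarith [hq.2.1]⟩ r 0
    have n3 : 0 ≤ St.cA r ^ 4 := pow_nonneg (St.cA_nonneg r) 4
    refine (h₁ q hq r hr).trans (mul_le_mul_of_nonneg_right (by linarith) (mul_nonneg n3
      (mul_nonneg n1 n2)))
  · have n1 : 0 ≤ St.fF q r := tF_nonneg (J := q) ⟨by linarith [hq.1], by linarith [hq.2.1]⟩ r 0
    have n2 : 0 ≤ St.fF (π / 3 - q) r := tF_nonneg (J := π / 3 - q)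
      ⟨by linarith [hq.2.1], by linarith [hq.1]⟩ r 0
    exact (h₂ q hq r hr).trans (mul_le_mul_of_nonneg_right (by linarith) (mul_nonneg n1 n2))
  · exact (h₃ r hr).trans (by linarith)

end

end Pool.Agent.SixB.TP
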