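import Pool.Agent.Lib.SixB.S3TestPolyT

/-!
# 6BD step 3, row R14: the rectangle `[0, 16 r) × [0, 8 r)`

Special vertices: corner `(0, 0)`, flat `(8 r, 0)`, corners `(16 r, 0)`, `(16 r, 8 r)`, flat `(8 r, 8 r)`, corner
`(0, 8 r)`, jumps `J 0, …, J 5`, `J 0 = π/3 - (J 1 + … + J 5)`; all other boundary vertices natural.
* `rAt`: the atlas; `rW_nonneg`: positivity when the contiguous sums are in the range; `rPsi_neg`: mirror phases.
-/

set_option autoImplicit false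
set_option linter.unusedSectionVars false

namespace Pool.Agent.SixB.TP

open Pool.Agent.Perc.Q Pool.Agent.Perc Real

noncomputable section

/-- the rectangle -/
def rF (r : ℕ) : Finset (ℤ × ℤ) := RF 0 (16 * r) 0 (8 * r)

theorem mem_rF {r : ℕ} {f : ℤ × ℤ} : f ∈ rF r ↔ (0 ≤ f.1 ∧ f.1 < 16 * r) ∧ (0 ≤ f.2 ∧ f.2 < 8 * r) := by
  unfold rF RF
  rw [Finset.mem_product, Finset.mem_Ico, Finset.mem_Ico]

/-- phases with the values `τ 0, …, τ 5` -/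
def rPs (r : ℕ) (τ : ℕ → ℝ) (s : (ℤ × ℤ) × (ℤ × ℤ)) : ℝ :=
  if s.2.1 = s.1.1 + 1 then (if s.1.1 < 8 * r then τ 0 else τ 1)
  else if s.2.2 = s.1.2 + 1 then τ 2 - π / 12
  else if s.2.1 = s.1.1 - 1 then (if 8 * r < s.1.1 then τ 3 - 2 * (π / 12) else τ 4 - 2 * (π / 12))
  else τ 5 - 3 * (π / 12)

section phases

variable {r : ℕ} {τ : ℕ → ℝ} {x y x' y' : ℤ}

theorem rPs_b0 (h : x' = x + 1) (hx : x < 8 * r) : rPs r τ ((x, y), (x', y')) = τ 0 := by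
  unfold rPs
  rw [if_pos h, if_pos hx]

theorem rPs_b1 (h : x' = x + 1) (hx : 8 * r ≤ x) : rPs r τ ((x, y), (x', y')) = τ 1 := by
  unfold rPs
  rw [if_pos h, if_neg (not_lt.mpr hx)]

theorem rPs_r (h : x' = x) (h' : y' = y + 1) : rPs r τ ((x, y), (x', y')) = τ 2 - π / 12 := by
  unfold rPs
  rw [if_neg (by show ¬ x' = x + 1; omega), if_pos h']

theorem rPs_t0 (h : x' = x - 1) (h' : y' = y) (hx : 8 * r < x) :
    rPs r τ ((x, y), (x', y')) = τ 3 - 2 * (π / 12) := by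
  unfold rPs
  rw [if_neg (by show ¬ x' = x + 1; omega), if_neg (by show ¬ y' = y + 1; omega), if_pos h, if_pos hx]

theorem rPs_t1 (h : x' = x - 1) (h' : y' = y) (hx : x ≤ 8 * r) :
    rPs r τ ((x, y), (x', y')) = τ 4 - 2 * (π / 12) := by
  unfold rPs
  rw [if_neg (by show ¬ x' = x + 1; omega), if_neg (by show ¬ y' = y + 1; omega), if_pos h,
    if_neg (not_lt.mpr hx)]

theorem rPs_l (h : x' = x) (h' : y' = y - 1) : rPs r τ ((x, y), (x', y')) = τ 5 - 3 * (π / 12) := by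
  unfold rPs
  rw [if_neg (by show ¬ x' = x + 1; omega), if_neg (by show ¬ y' = y + 1; omega),
    if_neg (by show ¬ x' = x - 1; omega)]

end phases

/-- special vertices -/
def rM : Fin 6 → ℕ := ![1, 2, 1, 1, 2, 1]
def rO : Fin 6 → ZMod 4 := ![0, 0, 1, 2, 2, 3]
def rV (r : ℕ) : Fin 6 → ℤ × ℤ := ![(0, 0), (8 * r, 0), (16 * r, 0), (16 * r, 8 * r), (8 * r, 8 * r), (0, 8 * r)]

/-- the jumps of the phases with the values `τ` -/
def rJ (τ : ℕ → ℝ) : Fin 6 → ℝ :=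
  ![τ 0 - τ 5 + π / 3, τ 1 - τ 0, τ 2 - τ 1, τ 3 - τ 2, τ 4 - τ 3, τ 5 - τ 4]

theorem rN0 {r : ℕ} (hr : 0 < r) (τ : ℕ → ℝ) :
    Nice (rF r) (rPs r τ) 1 0 (0, 0) (4 * r + 1) (τ 0 - τ 5 + π / 3) := by
  have e0 : (0 : ZMod 4) + ((1 : ℕ) : ZMod 4) = 1 := by decide
  refine ⟨?_, ?_, ?_, τ 5 - 3 * (π / 12), τ 0, ?_, ?_, ?_⟩
  · intro f hf
    rw [inW_10] at hf
    rw [mem_rF]
    push_cast at *
    omega
  · rintro ⟨⟨x, y⟩, x', y'⟩ ha
    rw [e0, mem_wIn1] at ha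
    unfold LSide
    simp only [mem_rF, Prod.mk.injEq]
    push_cast at *
    omega
  · rintro ⟨⟨x, y⟩, x', y'⟩ ha
    rw [mem_wOut0] at ha
    unfold LSide
    simp only [mem_rF, Prod.mk.injEq]
    push_cast at *
    omega
  · rintro ⟨⟨x, y⟩, x', y'⟩ ha
    rw [e0, mem_wIn1] at ha
    push_cast at *
    exact rPs_l (by omega) (by omega)
  · rintro ⟨⟨x, y⟩, x', y'⟩ ha
    rw [mem_wOut0] at ha
    push_cast at *
    exact rPs_b0 (by omega) (by omega)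
  · push_cast
    ring

theorem rN1 {r : ℕ} (hr : 0 < r) (τ : ℕ → ℝ) :
    Nice (rF r) (rPs r τ) 2 0 (8 * r, 0) (4 * r + 1) (τ 1 - τ 0) := by
  have e0 : (0 : ZMod 4) + ((2 : ℕ) : ZMod 4) = 2 := by decide
  refine ⟨?_, ?_, ?_, τ 0, τ 1, ?_, ?_, ?_⟩
  · intro f hf
    rw [inW_20] at hf
    rw [mem_rF]
    push_cast at *
    omega
  · rintro ⟨⟨x, y⟩, x', y'⟩ ha
    rw [e0, mem_wIn2] at ha
    unfold LSide
    simp only [mem_rF, Prod.mk.injEq]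
    push_cast at *
    omega
  · rintro ⟨⟨x, y⟩, x', y'⟩ ha
    rw [mem_wOut0] at ha
    unfold LSide
    simp only [mem_rF, Prod.mk.injEq]
    push_cast at *
    omega
  · rintro ⟨⟨x, y⟩, x', y'⟩ ha
    rw [e0, mem_wIn2] at ha
    push_cast at *
    exact rPs_b0 (by omega) (by omega)
  · rintro ⟨⟨x, y⟩, x', y'⟩ ha
    rw [mem_wOut0] at ha
    push_cast at *
    exact rPs_b1 (by omega) (by omega)
  · push_cast
    ring

theorem rN2 {r : ℕ} (hr : 0 < r) (τ : ℕ → ℝ) :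
    Nice (rF r) (rPs r τ) 1 1 (16 * r, 0) (4 * r + 1) (τ 2 - τ 1) := by
  have e0 : (1 : ZMod 4) + ((1 : ℕ) : ZMod 4) = 2 := by decide
  refine ⟨?_, ?_, ?_, τ 1, τ 2 - π / 12, ?_, ?_, ?_⟩
  · intro f hf
    rw [inW_11] at hf
    rw [mem_rF]
    push_cast at *
    omega
  · rintro ⟨⟨x, y⟩, x', y'⟩ ha
    rw [e0, mem_wIn2] at ha
    unfold LSide
    simp only [mem_rF, Prod.mk.injEq]
    push_cast at *
    omega
  · rintro ⟨⟨x, y⟩, x', y'⟩ ha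
    rw [mem_wOut1] at ha
    unfold LSide
    simp only [mem_rF, Prod.mk.injEq]
    push_cast at *
    omega
  · rintro ⟨⟨x, y⟩, x', y'⟩ ha
    rw [e0, mem_wIn2] at ha
    push_cast at *
    exact rPs_b1 (by omega) (by omega)
  · rintro ⟨⟨x, y⟩, x', y'⟩ ha
    rw [mem_wOut1] at ha
    push_cast at *
    exact rPs_r (by omega) (by omega)
  · push_cast
    ring

theorem rN3 {r : ℕ} (hr : 0 < r) (τ : ℕ → ℝ) :
    Nice (rF r) (rPs r τ) 1 2 (16 * r, 8 * r) (4 * r + 1) (τ 3 - τ 2) := by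
  have e0 : (2 : ZMod 4) + ((1 : ℕ) : ZMod 4) = 3 := by decide
  refine ⟨?_, ?_, ?_, τ 2 - π / 12, τ 3 - 2 * (π / 12), ?_, ?_, ?_⟩
  · intro f hf
    rw [inW_12] at hf
    rw [mem_rF]
    push_cast at *
    omega
  · rintro ⟨⟨x, y⟩, x', y'⟩ ha
    rw [e0, mem_wIn3] at ha
    unfold LSide
    simp only [mem_rF, Prod.mk.injEq]
    push_cast at *
    omega
  · rintro ⟨⟨x, y⟩, x', y'⟩ ha
    rw [mem_wOut2] at ha
    unfold LSide
    simp only [mem_rF, Prod.mk.injEq]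
    push_cast at *
    omega
  · rintro ⟨⟨x, y⟩, x', y'⟩ ha
    rw [e0, mem_wIn3] at ha
    push_cast at *
    exact rPs_r (by omega) (by omega)
  · rintro ⟨⟨x, y⟩, x', y'⟩ ha
    rw [mem_wOut2] at ha
    push_cast at *
    exact rPs_t0 (by omega) (by omega) (by omega)
  · push_cast
    ring

theorem rN4 {r : ℕ} (hr : 0 < r) (τ : ℕ → ℝ) :
    Nice (rF r) (rPs r τ) 2 2 (8 * r, 8 * r) (4 * r + 1) (τ 4 - τ 3) := by
  have e0 : (2 : ZMod 4) + ((2 : ℕ) : ZMod 4) = 0 := by decide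
  refine ⟨?_, ?_, ?_, τ 3 - 2 * (π / 12), τ 4 - 2 * (π / 12), ?_, ?_, ?_⟩
  · intro f hf
    rw [inW_22] at hf
    rw [mem_rF]
    push_cast at *
    omega
  · rintro ⟨⟨x, y⟩, x', y'⟩ ha
    rw [e0, mem_wIn0] at ha
    unfold LSide
    simp only [mem_rF, Prod.mk.injEq]
    push_cast at *
    omega
  · rintro ⟨⟨x, y⟩, x', y'⟩ ha
    rw [mem_wOut2] at ha
    unfold LSide
    simp only [mem_rF, Prod.mk.injEq]
    push_cast at *
    omega
  · rintro ⟨⟨x, y⟩, x', y'⟩ ha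
    rw [e0, mem_wIn0] at ha
    push_cast at *
    exact rPs_t0 (by omega) (by omega) (by omega)
  · rintro ⟨⟨x, y⟩, x', y'⟩ ha
    rw [mem_wOut2] at ha
    push_cast at *
    exact rPs_t1 (by omega) (by omega) (by omega)
  · push_cast
    ring

theorem rN5 {r : ℕ} (hr : 0 < r) (τ : ℕ → ℝ) :
    Nice (rF r) (rPs r τ) 1 3 (0, 8 * r) (4 * r + 1) (τ 5 - τ 4) := by
  have e0 : (3 : ZMod 4) + ((1 : ℕ) : ZMod 4) = 0 := by decide
  refine ⟨?_, ?_, ?_, τ 4 - 2 * (π / 12), τ 5 - 3 * (π / 12), ?_, ?_, ?_⟩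
  · intro f hf
    rw [inW_13] at hf
    rw [mem_rF]
    push_cast at *
    omega
  · rintro ⟨⟨x, y⟩, x', y'⟩ ha
    rw [e0, mem_wIn0] at ha
    unfold LSide
    simp only [mem_rF, Prod.mk.injEq]
    push_cast at *
    omega
  · rintro ⟨⟨x, y⟩, x', y'⟩ ha
    rw [mem_wOut3] at ha
    unfold LSide
    simp only [mem_rF, Prod.mk.injEq]
    push_cast at *
    omega
  · rintro ⟨⟨x, y⟩, x', y'⟩ ha
    rw [e0, mem_wIn0] at ha
    push_cast at *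
    exact rPs_t1 (by omega) (by omega) (by omega)
  · rintro ⟨⟨x, y⟩, x', y'⟩ ha
    rw [mem_wOut3] at ha
    push_cast at *
    exact rPs_l (by omega) (by omega)
  · push_cast
    ring

theorem rB0 {r : ℕ} (hr : 0 < r) (τ : ℕ → ℝ) {X : ℤ} (hX : 3 * r ≤ X ∧ X ≤ 5 * r) :
    Nice (rF r) (rPs r τ) 2 0 (X, 0) (2 * r + 1) (0) := by
  have e0 : (0 : ZMod 4) + ((2 : ℕ) : ZMod 4) = 2 := by decide
  refine ⟨?_, ?_, ?_, τ 0, τ 0, ?_, ?_, ?_⟩
  · intro f hf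
    rw [inW_20] at hf
    rw [mem_rF]
    push_cast at *
    omega
  · rintro ⟨⟨x, y⟩, x', y'⟩ ha
    rw [e0, mem_wIn2] at ha
    unfold LSide
    simp only [mem_rF, Prod.mk.injEq]
    push_cast at *
    omega
  · rintro ⟨⟨x, y⟩, x', y'⟩ ha
    rw [mem_wOut0] at ha
    unfold LSide
    simp only [mem_rF, Prod.mk.injEq]
    push_cast at *
    omega
  · rintro ⟨⟨x, y⟩, x', y'⟩ ha
    rw [e0, mem_wIn2] at ha
    push_cast at *
    exact rPs_b0 (by omega) (by omega)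
  · rintro ⟨⟨x, y⟩, x', y'⟩ ha
    rw [mem_wOut0] at ha
    push_cast at *
    exact rPs_b0 (by omega) (by omega)
  · push_cast
    ring

theorem rB1 {r : ℕ} (hr : 0 < r) (τ : ℕ → ℝ) {X : ℤ} (hX : 11 * r ≤ X ∧ X ≤ 13 * r) :
    Nice (rF r) (rPs r τ) 2 0 (X, 0) (2 * r + 1) (0) := by
  have e0 : (0 : ZMod 4) + ((2 : ℕ) : ZMod 4) = 2 := by decide
  refine ⟨?_, ?_, ?_, τ 1, τ 1, ?_, ?_, ?_⟩
  · intro f hf
    rw [inW_20] at hf
    rw [mem_rF]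
    push_cast at *
    omega
  · rintro ⟨⟨x, y⟩, x', y'⟩ ha
    rw [e0, mem_wIn2] at ha
    unfold LSide
    simp only [mem_rF, Prod.mk.injEq]
    push_cast at *
    omega
  · rintro ⟨⟨x, y⟩, x', y'⟩ ha
    rw [mem_wOut0] at ha
    unfold LSide
    simp only [mem_rF, Prod.mk.injEq]
    push_cast at *
    omega
  · rintro ⟨⟨x, y⟩, x', y'⟩ ha
    rw [e0, mem_wIn2] at ha
    push_cast at *
    exact rPs_b1 (by omega) (by omega)
  · rintro ⟨⟨x, y⟩, x', y'⟩ ha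
    rw [mem_wOut0] at ha
    push_cast at *
    exact rPs_b1 (by omega) (by omega)
  · push_cast
    ring

theorem rR {r : ℕ} (hr : 0 < r) (τ : ℕ → ℝ) {X : ℤ} (hX : 3 * r ≤ X ∧ X ≤ 5 * r) :
    Nice (rF r) (rPs r τ) 2 1 (16 * r, X) (2 * r + 1) (0) := by
  have e0 : (1 : ZMod 4) + ((2 : ℕ) : ZMod 4) = 3 := by decide
  refine ⟨?_, ?_, ?_, τ 2 - π / 12, τ 2 - π / 12, ?_, ?_, ?_⟩
  · intro f hf
    rw [inW_21] at hf
    rw [mem_rF]
    push_cast at *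
    omega
  · rintro ⟨⟨x, y⟩, x', y'⟩ ha
    rw [e0, mem_wIn3] at ha
    unfold LSide
    simp only [mem_rF, Prod.mk.injEq]
    push_cast at *
    omega
  · rintro ⟨⟨x, y⟩, x', y'⟩ ha
    rw [mem_wOut1] at ha
    unfold LSide
    simp only [mem_rF, Prod.mk.injEq]
    push_cast at *
    omega
  · rintro ⟨⟨x, y⟩, x', y'⟩ ha
    rw [e0, mem_wIn3] at ha
    push_cast at *
    exact rPs_r (by omega) (by omega)
  · rintro ⟨⟨x, y⟩, x', y'⟩ ha
    rw [mem_wOut1] at ha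
    push_cast at *
    exact rPs_r (by omega) (by omega)
  · push_cast
    ring

theorem rT0 {r : ℕ} (hr : 0 < r) (τ : ℕ → ℝ) {X : ℤ} (hX : 11 * r ≤ X ∧ X ≤ 13 * r) :
    Nice (rF r) (rPs r τ) 2 2 (X, 8 * r) (2 * r + 1) (0) := by
  have e0 : (2 : ZMod 4) + ((2 : ℕ) : ZMod 4) = 0 := by decide
  refine ⟨?_, ?_, ?_, τ 3 - 2 * (π / 12), τ 3 - 2 * (π / 12), ?_, ?_, ?_⟩
  · intro f hf
    rw [inW_22] at hf
    rw [mem_rF]
    push_cast at *
    omega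
  · rintro ⟨⟨x, y⟩, x', y'⟩ ha
    rw [e0, mem_wIn0] at ha
    unfold LSide
    simp only [mem_rF, Prod.mk.injEq]
    push_cast at *
    omega
  · rintro ⟨⟨x, y⟩, x', y'⟩ ha
    rw [mem_wOut2] at ha
    unfold LSide
    simp only [mem_rF, Prod.mk.injEq]
    push_cast at *
    omega
  · rintro ⟨⟨x, y⟩, x', y'⟩ ha
    rw [e0, mem_wIn0] at ha
    push_cast at *
    exact rPs_t0 (by omega) (by omega) (by omega)
  · rintro ⟨⟨x, y⟩, x', y'⟩ ha
    rw [mem_wOut2] at ha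
    push_cast at *
    exact rPs_t0 (by omega) (by omega) (by omega)
  · push_cast
    ring

theorem rT1 {r : ℕ} (hr : 0 < r) (τ : ℕ → ℝ) {X : ℤ} (hX : 3 * r ≤ X ∧ X ≤ 5 * r) :
    Nice (rF r) (rPs r τ) 2 2 (X, 8 * r) (2 * r + 1) (0) := by
  have e0 : (2 : ZMod 4) + ((2 : ℕ) : ZMod 4) = 0 := by decide
  refine ⟨?_, ?_, ?_, τ 4 - 2 * (π / 12), τ 4 - 2 * (π / 12), ?_, ?_, ?_⟩
  · intro f hf
    rw [inW_22] at hf
    rw [mem_rF]
    push_cast at *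
    omega
  · rintro ⟨⟨x, y⟩, x', y'⟩ ha
    rw [e0, mem_wIn0] at ha
    unfold LSide
    simp only [mem_rF, Prod.mk.injEq]
    push_cast at *
    omega
  · rintro ⟨⟨x, y⟩, x', y'⟩ ha
    rw [mem_wOut2] at ha
    unfold LSide
    simp only [mem_rF, Prod.mk.injEq]
    push_cast at *
    omega
  · rintro ⟨⟨x, y⟩, x', y'⟩ ha
    rw [e0, mem_wIn0] at ha
    push_cast at *
    exact rPs_t1 (by omega) (by omega) (by omega)
  · rintro ⟨⟨x, y⟩, x', y'⟩ ha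
    rw [mem_wOut2] at ha
    push_cast at *
    exact rPs_t1 (by omega) (by omega) (by omega)
  · push_cast
    ring

theorem rL {r : ℕ} (hr : 0 < r) (τ : ℕ → ℝ) {X : ℤ} (hX : 3 * r ≤ X ∧ X ≤ 5 * r) :
    Nice (rF r) (rPs r τ) 2 3 (0, X) (2 * r + 1) (0) := by
  have e0 : (3 : ZMod 4) + ((2 : ℕ) : ZMod 4) = 1 := by decide
  refine ⟨?_, ?_, ?_, τ 5 - 3 * (π / 12), τ 5 - 3 * (π / 12), ?_, ?_, ?_⟩
  · intro f hf
    rw [inW_23] at hf
    rw [mem_rF]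
    push_cast at *
    omega
  · rintro ⟨⟨x, y⟩, x', y'⟩ ha
    rw [e0, mem_wIn1] at ha
    unfold LSide
    simp only [mem_rF, Prod.mk.injEq]
    push_cast at *
    omega
  · rintro ⟨⟨x, y⟩, x', y'⟩ ha
    rw [mem_wOut3] at ha
    unfold LSide
    simp only [mem_rF, Prod.mk.injEq]
    push_cast at *
    omega
  · rintro ⟨⟨x, y⟩, x', y'⟩ ha
    rw [e0, mem_wIn1] at ha
    push_cast at *
    exact rPs_l (by omega) (by omega)
  · rintro ⟨⟨x, y⟩, x', y'⟩ ha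
    rw [mem_wOut3] at ha
    push_cast at *
    exact rPs_l (by omega) (by omega)
  · push_cast
    ring

end

end Pool.Agent.SixB.TP
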