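import Pool.Agent.Lib.SixB.S3TestPolyA

/-!
# 6BD step 3, row R14: the atlas `rAt` of the rectangle `[0, 16 r) × [0, 8 r)`
-/

set_option autoImplicit false
set_option linter.unusedSectionVars false

namespace Pool.Agent.SixB.TP

open Pool.Agent.Perc.Q Pool.Agent.Perc Real

noncomputable section

theorem rN {r : ℕ} (hr : 0 < r) (τ : ℕ → ℝ) (i : Fin 6) :
    Nice (rF r) (rPs r τ) (rM i) (rO i) (rV r i) (4 * r + 1) (rJ τ i) := by
  fin_cases i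
  · exact rN0 hr τ
  · exact rN1 hr τ
  · exact rN2 hr τ
  · exact rN3 hr τ
  · exact rN4 hr τ
  · exact rN5 hr τ

/-- part of the rectangle -/
def rCode (r : ℕ) (f : ℤ × ℤ) : Fin 3 × Fin 2 :=
  (if f.1 < 4 * r then 0 else if f.1 < 12 * r then 1 else 2, if f.2 < 4 * r then 0 else 1)

theorem rCode_eq {r : ℕ} {f : ℤ × ℤ} (i : Fin 6) (h : InW (rM i) (rO i) (rV r i) (4 * r) f) :
    rCode r f = (![(0, 0), (1, 0), (2, 0), (2, 1), (1, 1), (0, 1)] : Fin 6 → Fin 3 × Fin 2) i := by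
  fin_cases i
  · have h' : InW 1 0 (0, 0) (4 * r) f := h
    rw [inW_10] at h'
    push_cast at h'
    unfold rCode
    rw [if_pos (by omega), if_pos (by omega)]
    rfl
  · have h' : InW 2 0 (8 * r, 0) (4 * r) f := h
    rw [inW_20] at h'
    push_cast at h'
    unfold rCode
    rw [if_neg (by omega), if_pos (by omega), if_pos (by omega)]
    rfl
  · have h' : InW 1 1 (16 * r, 0) (4 * r) f := h
    rw [inW_11] at h'
    push_cast at h'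
    unfold rCode
    rw [if_neg (by omega), if_neg (by omega), if_pos (by omega)]
    rfl
  · have h' : InW 1 2 (16 * r, 8 * r) (4 * r) f := h
    rw [inW_12] at h'
    push_cast at h'
    unfold rCode
    rw [if_neg (by omega), if_neg (by omega), if_neg (by omega)]
    rfl
  · have h' : InW 2 2 (8 * r, 8 * r) (4 * r) f := h
    rw [inW_22] at h'
    push_cast at h'
    unfold rCode
    rw [if_neg (by omega), if_pos (by omega), if_neg (by omega)]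
    rfl
  · have h' : InW 1 3 (0, 8 * r) (4 * r) f := h
    rw [inW_13] at h'
    push_cast at h'
    unfold rCode
    rw [if_pos (by omega), if_neg (by omega)]
    rfl

theorem rDisj (r : ℕ) (i j : Fin 6) (hij : i ≠ j) (f : ℤ × ℤ)
    (h1 : InW (rM i) (rO i) (rV r i) (4 * r) f) (h2 : InW (rM j) (rO j) (rV r j) (4 * r) f) : False := by
  have h3 := (rCode_eq i h1).symm.trans (rCode_eq j h2)
  revert h3 hij
  clear h1 h2
  revert i j
  decide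

/-- position of the inner boxes of the special vertices -/
theorem rCore {r : ℕ} {f : ℤ × ℤ} (i : Fin 6) (h : InW (rM i) (rO i) (rV r i) r f) :
    (f.1 < r ∨ 7 * r ≤ f.1 ∧ f.1 < 9 * r ∨ 15 * r ≤ f.1) ∧ (f.2 < r ∨ 7 * r ≤ f.2) := by
  fin_cases i
  · have h' : InW 1 0 (0, 0) r f := h
    rw [inW_10] at h'
    push_cast at h'
    omega
  · have h' : InW 2 0 (8 * r, 0) r f := h
    rw [inW_20] at h'
    push_cast at h'
    omega
  · have h' : InW 1 1 (16 * r, 0) r f := h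
    rw [inW_11] at h'
    push_cast at h'
    omega
  · have h' : InW 1 2 (16 * r, 8 * r) r f := h
    rw [inW_12] at h'
    push_cast at h'
    omega
  · have h' : InW 2 2 (8 * r, 8 * r) r f := h
    rw [inW_22] at h'
    push_cast at h'
    omega
  · have h' : InW 1 3 (0, 8 * r) r f := h
    rw [inW_13] at h'
    push_cast at h'
    omega

theorem rB0_c {r : ℕ} (hr : 0 < r) (τ : ℕ → ℝ) {X : ℤ} (hX : 3 * r ≤ X ∧ X ≤ 5 * r) :
    NatC (rF r) (rPs r τ) r rM rO (rV r) (0, (X, 0)) := by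
  refine ⟨rB0 hr τ hX, ?_⟩
  intro j f h1 h2
  have h3 := rCore j h2
  have h4 : InW 2 0 (X, 0) (2 * r) f := h1
  rw [inW_20] at h4
  push_cast at h4
  omega

theorem rB1_c {r : ℕ} (hr : 0 < r) (τ : ℕ → ℝ) {X : ℤ} (hX : 11 * r ≤ X ∧ X ≤ 13 * r) :
    NatC (rF r) (rPs r τ) r rM rO (rV r) (0, (X, 0)) := by
  refine ⟨rB1 hr τ hX, ?_⟩
  intro j f h1 h2
  have h3 := rCore j h2
  have h4 : InW 2 0 (X, 0) (2 * r) f := h1
  rw [inW_20] at h4
  push_cast at h4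
  omega

theorem rR_c {r : ℕ} (hr : 0 < r) (τ : ℕ → ℝ) {X : ℤ} (hX : 3 * r ≤ X ∧ X ≤ 5 * r) :
    NatC (rF r) (rPs r τ) r rM rO (rV r) (1, (16 * r, X)) := by
  refine ⟨rR hr τ hX, ?_⟩
  intro j f h1 h2
  have h3 := rCore j h2
  have h4 : InW 2 1 (16 * r, X) (2 * r) f := h1
  rw [inW_21] at h4
  push_cast at h4
  omega

theorem rT0_c {r : ℕ} (hr : 0 < r) (τ : ℕ → ℝ) {X : ℤ} (hX : 11 * r ≤ X ∧ X ≤ 13 * r) :
    NatC (rF r) (rPs r τ) r rM rO (rV r) (2, (X, 8 * r)) := by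
  refine ⟨rT0 hr τ hX, ?_⟩
  intro j f h1 h2
  have h3 := rCore j h2
  have h4 : InW 2 2 (X, 8 * r) (2 * r) f := h1
  rw [inW_22] at h4
  push_cast at h4
  omega

theorem rT1_c {r : ℕ} (hr : 0 < r) (τ : ℕ → ℝ) {X : ℤ} (hX : 3 * r ≤ X ∧ X ≤ 5 * r) :
    NatC (rF r) (rPs r τ) r rM rO (rV r) (2, (X, 8 * r)) := by
  refine ⟨rT1 hr τ hX, ?_⟩
  intro j f h1 h2
  have h3 := rCore j h2
  have h4 : InW 2 2 (X, 8 * r) (2 * r) f := h1
  rw [inW_22] at h4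
  push_cast at h4
  omega

theorem rL_c {r : ℕ} (hr : 0 < r) (τ : ℕ → ℝ) {X : ℤ} (hX : 3 * r ≤ X ∧ X ≤ 5 * r) :
    NatC (rF r) (rPs r τ) r rM rO (rV r) (3, (0, X)) := by
  refine ⟨rL hr τ hX, ?_⟩
  intro j f h1 h2
  have h3 := rCore j h2
  have h4 : InW 2 3 (0, X) (2 * r) f := h1
  rw [inW_23] at h4
  push_cast at h4
  omega

/-- centres of the natural charts -/
def rCand (r : ℕ) : List (ZMod 4 × (ℤ × ℤ)) :=
  [(0, (3 * r, 0)), (0, (5 * r, 0)), (0, (11 * r, 0)), (0, (13 * r, 0)), (1, (16 * r, 3 * r)),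
    (1, (16 * r, 5 * r)), (2, (13 * r, 8 * r)), (2, (11 * r, 8 * r)), (2, (5 * r, 8 * r)),
    (2, (3 * r, 8 * r)), (3, (0, 5 * r)), (3, (0, 3 * r))]

theorem rI {r : ℕ} {u : ZMod 4 × (ℤ × ℤ)} (h : u ∈ rCand r) : u ∈ (rCand r).toFinset :=
  List.mem_toFinset.mpr h

/-- the side `a` is covered -/
def rCov (r : ℕ) (τ : ℕ → ℝ) (a : (ℤ × ℤ) × (ℤ × ℤ)) : Prop :=
  (∃ i, a ∈ wIn (rO i + rM i) (rV r i) (2 * r) ∪ wOut (rO i) (rV r i) (2 * r)) ∨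
    ∃ x ∈ (rCand r).toFinset, NatC (rF r) (rPs r τ) r rM rO (rV r) x ∧
      a ∈ wIn (x.1 + (2 : ℕ)) x.2 r ∪ wOut x.1 x.2 r

theorem rCovB {r : ℕ} (hr : 0 < r) (τ : ℕ → ℝ) {x y x' y' : ℤ} (h1 : x' = x + 1) (h2 : y' = y)
    (h3 : y = 0) (h4 : 0 ≤ x) (h5 : x < 16 * r) : rCov r τ ((x, y), (x', y')) := by
  have hc : x < 2 * r ∨ (2 * r ≤ x ∧ x < 4 * r) ∨ (4 * r ≤ x ∧ x < 6 * r) ∨ (6 * r ≤ x ∧ x < 10 * r) ∨
      (10 * r ≤ x ∧ x < 12 * r) ∨ (12 * r ≤ x ∧ x < 14 * r) ∨ (14 * r ≤ x ∧ x < 16 * r) := by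
    omega
  rcases hc with hc | hc | hc | hc | hc | hc | hc
  · have hh : (((x, y), (x', y')) : (ℤ × ℤ) × (ℤ × ℤ)) ∈ wIn ((0 : ZMod 4) + ((1 : ℕ) : ZMod 4)) (0, 0)
        (2 * r) ∪ wOut 0 (0, 0) (2 * r) := by
      rw [show (0 : ZMod 4) + ((1 : ℕ) : ZMod 4) = 1 by decide, Finset.mem_union, mem_wIn1, mem_wOut0]
      push_cast
      omega
    exact Or.inl ⟨0, hh⟩
  · exact Or.inr ⟨(0, (3 * r, 0)), rI (by simp [rCand]), rB0_c hr τ ⟨by omega, by omega⟩,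
      un0 (by omega) (by omega) (by omega) (by push_cast; omega) (by push_cast; omega)⟩
  · exact Or.inr ⟨(0, (5 * r, 0)), rI (by simp [rCand]), rB0_c hr τ ⟨by omega, by omega⟩,
      un0 (by omega) (by omega) (by omega) (by push_cast; omega) (by push_cast; omega)⟩
  · have hh : (((x, y), (x', y')) : (ℤ × ℤ) × (ℤ × ℤ)) ∈ wIn ((0 : ZMod 4) + ((2 : ℕ) : ZMod 4)) (8 * r, 0)
        (2 * r) ∪ wOut 0 (8 * r, 0) (2 * r) := by
      rw [show (0 : ZMod 4) + ((2 : ℕ) : ZMod 4) = 2 by decide, Finset.mem_union, mem_wIn2, mem_wOut0]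
      push_cast
      omega
    exact Or.inl ⟨1, hh⟩
  · exact Or.inr ⟨(0, (11 * r, 0)), rI (by simp [rCand]), rB1_c hr τ ⟨by omega, by omega⟩,
      un0 (by omega) (by omega) (by omega) (by push_cast; omega) (by push_cast; omega)⟩
  · exact Or.inr ⟨(0, (13 * r, 0)), rI (by simp [rCand]), rB1_c hr τ ⟨by omega, by omega⟩,
      un0 (by omega) (by omega) (by omega) (by push_cast; omega) (by push_cast; omega)⟩
  · have hh : (((x, y), (x', y')) : (ℤ × ℤ) × (ℤ × ℤ)) ∈ wIn ((1 : ZMod 4) + ((1 : ℕ) : ZMod 4)) (16 * r, 0)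
        (2 * r) ∪ wOut 1 (16 * r, 0) (2 * r) := by
      rw [show (1 : ZMod 4) + ((1 : ℕ) : ZMod 4) = 2 by decide, Finset.mem_union, mem_wIn2, mem_wOut1]
      push_cast
      omega
    exact Or.inl ⟨2, hh⟩

theorem rCovR {r : ℕ} (hr : 0 < r) (τ : ℕ → ℝ) {x y x' y' : ℤ} (h1 : x' = x) (h2 : y' = y + 1)
    (h3 : x = 16 * r) (h4 : 0 ≤ y) (h5 : y < 8 * r) : rCov r τ ((x, y), (x', y')) := by
  have hc : y < 2 * r ∨ (2 * r ≤ y ∧ y < 4 * r) ∨ (4 * r ≤ y ∧ y < 6 * r) ∨ (6 * r ≤ y ∧ y < 8 * r) := by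
    omega
  rcases hc with hc | hc | hc | hc
  · have hh : (((x, y), (x', y')) : (ℤ × ℤ) × (ℤ × ℤ)) ∈ wIn ((1 : ZMod 4) + ((1 : ℕ) : ZMod 4)) (16 * r, 0)
        (2 * r) ∪ wOut 1 (16 * r, 0) (2 * r) := by
      rw [show (1 : ZMod 4) + ((1 : ℕ) : ZMod 4) = 2 by decide, Finset.mem_union, mem_wIn2, mem_wOut1]
      push_cast
      omega
    exact Or.inl ⟨2, hh⟩
  · exact Or.inr ⟨(1, (16 * r, 3 * r)), rI (by simp [rCand]), rR_c hr τ ⟨by omega, by omega⟩,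
      un1 (by omega) (by omega) (by omega) (by push_cast; omega) (by push_cast; omega)⟩
  · exact Or.inr ⟨(1, (16 * r, 5 * r)), rI (by simp [rCand]), rR_c hr τ ⟨by omega, by omega⟩,
      un1 (by omega) (by omega) (by omega) (by push_cast; omega) (by push_cast; omega)⟩
  · have hh : (((x, y), (x', y')) : (ℤ × ℤ) × (ℤ × ℤ)) ∈ wIn ((2 : ZMod 4) + ((1 : ℕ) : ZMod 4)) (16 * r, 8 * r)
        (2 * r) ∪ wOut 2 (16 * r, 8 * r) (2 * r) := by
      rw [show (2 : ZMod 4) + ((1 : ℕ) : ZMod 4) = 3 by decide, Finset.mem_union, mem_wIn3, mem_wOut2]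
      push_cast
      omega
    exact Or.inl ⟨3, hh⟩

theorem rCovT {r : ℕ} (hr : 0 < r) (τ : ℕ → ℝ) {x y x' y' : ℤ} (h1 : x' = x - 1) (h2 : y' = y)
    (h3 : y = 8 * r) (h4 : 0 < x) (h5 : x ≤ 16 * r) : rCov r τ ((x, y), (x', y')) := by
  have hc : x ≤ 2 * r ∨ (2 * r < x ∧ x ≤ 4 * r) ∨ (4 * r < x ∧ x ≤ 6 * r) ∨ (6 * r < x ∧ x ≤ 10 * r) ∨
      (10 * r < x ∧ x ≤ 12 * r) ∨ (12 * r < x ∧ x ≤ 14 * r) ∨ (14 * r < x ∧ x ≤ 16 * r) := by
    omega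
  rcases hc with hc | hc | hc | hc | hc | hc | hc
  · have hh : (((x, y), (x', y')) : (ℤ × ℤ) × (ℤ × ℤ)) ∈ wIn ((3 : ZMod 4) + ((1 : ℕ) : ZMod 4)) (0, 8 * r)
        (2 * r) ∪ wOut 3 (0, 8 * r) (2 * r) := by
      rw [show (3 : ZMod 4) + ((1 : ℕ) : ZMod 4) = 0 by decide, Finset.mem_union, mem_wIn0, mem_wOut3]
      push_cast
      omega
    exact Or.inl ⟨5, hh⟩
  · exact Or.inr ⟨(2, (3 * r, 8 * r)), rI (by simp [rCand]), rT1_c hr τ ⟨by omega, by omega⟩,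
      un2 (by omega) (by omega) (by omega) (by push_cast; omega) (by push_cast; omega)⟩
  · exact Or.inr ⟨(2, (5 * r, 8 * r)), rI (by simp [rCand]), rT1_c hr τ ⟨by omega, by omega⟩,
      un2 (by omega) (by omega) (by omega) (by push_cast; omega) (by push_cast; omega)⟩
  · have hh : (((x, y), (x', y')) : (ℤ × ℤ) × (ℤ × ℤ)) ∈ wIn ((2 : ZMod 4) + ((2 : ℕ) : ZMod 4)) (8 * r, 8 * r)
        (2 * r) ∪ wOut 2 (8 * r, 8 * r) (2 * r) := by
      rw [show (2 : ZMod 4) + ((2 : ℕ) : ZMod 4) = 0 by decide, Finset.mem_union, mem_wIn0, mem_wOut2]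
      push_cast
      omega
    exact Or.inl ⟨4, hh⟩
  · exact Or.inr ⟨(2, (11 * r, 8 * r)), rI (by simp [rCand]), rT0_c hr τ ⟨by omega, by omega⟩,
      un2 (by omega) (by omega) (by omega) (by push_cast; omega) (by push_cast; omega)⟩
  · exact Or.inr ⟨(2, (13 * r, 8 * r)), rI (by simp [rCand]), rT0_c hr τ ⟨by omega, by omega⟩,
      un2 (by omega) (by omega) (by omega) (by push_cast; omega) (by push_cast; omega)⟩
  · have hh : (((x, y), (x', y')) : (ℤ × ℤ) × (ℤ × ℤ)) ∈ wIn ((2 : ZMod 4) + ((1 : ℕ) : ZMod 4)) (16 * r, 8 * r)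
        (2 * r) ∪ wOut 2 (16 * r, 8 * r) (2 * r) := by
      rw [show (2 : ZMod 4) + ((1 : ℕ) : ZMod 4) = 3 by decide, Finset.mem_union, mem_wIn3, mem_wOut2]
      push_cast
      omega
    exact Or.inl ⟨3, hh⟩

theorem rCovL {r : ℕ} (hr : 0 < r) (τ : ℕ → ℝ) {x y x' y' : ℤ} (h1 : x' = x) (h2 : y' = y - 1)
    (h3 : x = 0) (h4 : 0 < y) (h5 : y ≤ 8 * r) : rCov r τ ((x, y), (x', y')) := by
  have hc : y ≤ 2 * r ∨ (2 * r < y ∧ y ≤ 4 * r) ∨ (4 * r < y ∧ y ≤ 6 * r) ∨ (6 * r < y ∧ y ≤ 8 * r) := by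
    omega
  rcases hc with hc | hc | hc | hc
  · have hh : (((x, y), (x', y')) : (ℤ × ℤ) × (ℤ × ℤ)) ∈ wIn ((0 : ZMod 4) + ((1 : ℕ) : ZMod 4)) (0, 0)
        (2 * r) ∪ wOut 0 (0, 0) (2 * r) := by
      rw [show (0 : ZMod 4) + ((1 : ℕ) : ZMod 4) = 1 by decide, Finset.mem_union, mem_wIn1, mem_wOut0]
      push_cast
      omega
    exact Or.inl ⟨0, hh⟩
  · exact Or.inr ⟨(3, (0, 3 * r)), rI (by simp [rCand]), rL_c hr τ ⟨by omega, by omega⟩,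
      un3 (by omega) (by omega) (by omega) (by push_cast; omega) (by push_cast; omega)⟩
  · exact Or.inr ⟨(3, (0, 5 * r)), rI (by simp [rCand]), rL_c hr τ ⟨by omega, by omega⟩,
      un3 (by omega) (by omega) (by omega) (by push_cast; omega) (by push_cast; omega)⟩
  · have hh : (((x, y), (x', y')) : (ℤ × ℤ) × (ℤ × ℤ)) ∈ wIn ((3 : ZMod 4) + ((1 : ℕ) : ZMod 4)) (0, 8 * r)
        (2 * r) ∪ wOut 3 (0, 8 * r) (2 * r) := by
      rw [show (3 : ZMod 4) + ((1 : ℕ) : ZMod 4) = 0 by decide, Finset.mem_union, mem_wIn0, mem_wOut3]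
      push_cast
      omega
    exact Or.inl ⟨5, hh⟩

theorem rCover {r : ℕ} (hr : 0 < r) (τ : ℕ → ℝ) (a : (ℤ × ℤ) × (ℤ × ℤ)) (h : LSide (rF r) a.1 a.2) :
    rCov r τ a := by
  obtain ⟨⟨x, y⟩, x', y'⟩ := a
  unfold LSide at h
  simp only [mem_rF, Prod.mk.injEq] at h
  rcases h with ⟨⟨h1, h2⟩, h3, h4⟩ | ⟨⟨h1, h2⟩, h3, h4⟩ | ⟨⟨h1, h2⟩, h3, h4⟩ | ⟨⟨h1, h2⟩, h3, h4⟩
  · exact rCovB hr τ (by omega) (by omega) (by omega) (by omega) (by omega)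
  · exact rCovR hr τ (by omega) (by omega) (by omega) (by omega) (by omega)
  · exact rCovT hr τ (by omega) (by omega) (by omega) (by omega) (by omega)
  · exact rCovL hr τ (by omega) (by omega) (by omega) (by omega) (by omega)

/-- **The atlas.** -/
def rAt {r : ℕ} (hr : 0 < r) (τ : ℕ → ℝ) (t₀ : ℝ)
    (ht : ∀ i, t₀ ≤ tJ (rJ τ i) ∨ (rJ τ i = -(π / 3) ∧ rM i = 2)) :
    Atlas ZQ (rF r) (rPs r τ) (bS ZQ (rF r)) r 6 12 t₀ :=
  mkAtlas (rF r) (rPs r τ) r 6 12 t₀ rM rO (rV r) (rJ τ)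
    (fun i => by
      unfold rM
      fin_cases i <;> simp) (rN hr τ) ht (rDisj r) (rCand r).toFinset
    (List.toFinset_card_le _) (rCover hr τ)

end

end Pool.Agent.SixB.TP
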