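import Pool.Agent.Lib.SixB.S3TestPolyT

/-!
# 6BD step 3, row R14: the L-shape `[0, 24 r) × [0, 16 r) ∪ [0, 16 r) × [16 r, 24 r)`

Special vertices: corner `(0, 0)`, corner `(24 r, 0)`, flat `(24 r, 8 r)`, corner `(24 r, 16 r)`, concave corner
`(16 r, 16 r)`, corner `(16 r, 24 r)`, flat `(8 r, 24 r)`, corner `(0, 24 r)`; all other boundary vertices natural.
* `lAt`: the atlas for arbitrary values `τ 0, …, τ 7` of phase + direction.
-/

set_option autoImplicit false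
set_option linter.unusedSectionVars false

namespace Pool.Agent.SixB.TP

open Pool.Agent.Perc.Q Pool.Agent.Perc Real

noncomputable section

/-- the L-shape -/
def lF (r : ℕ) : Finset (ℤ × ℤ) := RF 0 (24 * r) 0 (16 * r) ∪ RF 0 (16 * r) (16 * r) (24 * r)

theorem mem_lF {r : ℕ} {f : ℤ × ℤ} : f ∈ lF r ↔
    ((0 ≤ f.1 ∧ f.1 < 24 * r) ∧ (0 ≤ f.2 ∧ f.2 < 16 * r)) ∨
      ((0 ≤ f.1 ∧ f.1 < 16 * r) ∧ (16 * r ≤ f.2 ∧ f.2 < 24 * r)) := by
  unfold lF RF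
  rw [Finset.mem_union, Finset.mem_product, Finset.mem_product, Finset.mem_Ico, Finset.mem_Ico, Finset.mem_Ico,
    Finset.mem_Ico]

/-- phases with the values `τ 0, …, τ 7` -/
def lPs (r : ℕ) (τ : ℕ → ℝ) (s : (ℤ × ℤ) × (ℤ × ℤ)) : ℝ :=
  if s.2.1 = s.1.1 + 1 then τ 0
  else if s.2.2 = s.1.2 + 1 then
    (if s.1.2 < 8 * r then τ 1 - π / 12 else if s.1.2 < 16 * r then τ 2 - π / 12 else τ 4 - π / 12)
  else if s.2.1 = s.1.1 - 1 then
    (if 16 * r < s.1.1 then τ 3 - 2 * (π / 12) else if 8 * r < s.1.1 then τ 5 - 2 * (π / 12)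
      else τ 6 - 2 * (π / 12))
  else τ 7 - 3 * (π / 12)

section phases

variable {r : ℕ} {τ : ℕ → ℝ} {x y x' y' : ℤ}

theorem lPs_b (h : x' = x + 1) : lPs r τ ((x, y), (x', y')) = τ 0 := by
  unfold lPs
  rw [if_pos h]

theorem lPs_r1 (h : x' = x) (h' : y' = y + 1) (hy : y < 8 * r) : lPs r τ ((x, y), (x', y')) = τ 1 - π / 12 := by
  unfold lPs
  rw [if_neg (by show ¬ x' = x + 1; omega), if_pos h', if_pos hy]

theorem lPs_r2 (h : x' = x) (h' : y' = y + 1) (hy : 8 * r ≤ y ∧ y < 16 * r) :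
    lPs r τ ((x, y), (x', y')) = τ 2 - π / 12 := by
  unfold lPs
  rw [if_neg (by show ¬ x' = x + 1; omega), if_pos h', if_neg (not_lt.mpr hy.1), if_pos hy.2]

theorem lPs_r4 (h : x' = x) (h' : y' = y + 1) (hy : 16 * r ≤ y) :
    lPs r τ ((x, y), (x', y')) = τ 4 - π / 12 := by
  unfold lPs
  rw [if_neg (by show ¬ x' = x + 1; omega), if_pos h', if_neg (by show ¬ y < 8 * r; omega),
    if_neg (not_lt.mpr hy)]

theorem lPs_t3 (h : x' = x - 1) (h' : y' = y) (hx : 16 * r < x) :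
    lPs r τ ((x, y), (x', y')) = τ 3 - 2 * (π / 12) := by
  unfold lPs
  rw [if_neg (by show ¬ x' = x + 1; omega), if_neg (by show ¬ y' = y + 1; omega), if_pos h, if_pos hx]

theorem lPs_t5 (h : x' = x - 1) (h' : y' = y) (hx : 8 * r < x ∧ x ≤ 16 * r) :
    lPs r τ ((x, y), (x', y')) = τ 5 - 2 * (π / 12) := by
  unfold lPs
  rw [if_neg (by show ¬ x' = x + 1; omega), if_neg (by show ¬ y' = y + 1; omega), if_pos h,
    if_neg (not_lt.mpr hx.2), if_pos hx.1]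

theorem lPs_t6 (h : x' = x - 1) (h' : y' = y) (hx : x ≤ 8 * r) :
    lPs r τ ((x, y), (x', y')) = τ 6 - 2 * (π / 12) := by
  unfold lPs
  rw [if_neg (by show ¬ x' = x + 1; omega), if_neg (by show ¬ y' = y + 1; omega), if_pos h,
    if_neg (by show ¬ 16 * (r : ℤ) < x; omega), if_neg (not_lt.mpr hx)]

theorem lPs_l (h : x' = x) (h' : y' = y - 1) : lPs r τ ((x, y), (x', y')) = τ 7 - 3 * (π / 12) := by
  unfold lPs
  rw [if_neg (by show ¬ x' = x + 1; omega), if_neg (by show ¬ y' = y + 1; omega),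
    if_neg (by show ¬ x' = x - 1; omega)]

end phases

/-- special vertices -/
def lM : Fin 8 → ℕ := ![1, 1, 2, 1, 3, 1, 2, 1]
def lO : Fin 8 → ZMod 4 := ![0, 1, 1, 2, 1, 2, 2, 3]
def lV (r : ℕ) : Fin 8 → ℤ × ℤ := ![(0, 0), (24 * r, 0), (24 * r, 8 * r), (24 * r, 16 * r), (16 * r, 16 * r),
  (16 * r, 24 * r), (8 * r, 24 * r), (0, 24 * r)]

/-- the jumps of the phases with the values `τ` -/
def lJ (τ : ℕ → ℝ) : Fin 8 → ℝ :=
  ![τ 0 - τ 7 + π / 3, τ 1 - τ 0, τ 2 - τ 1, τ 3 - τ 2, τ 4 - τ 3, τ 5 - τ 4, τ 6 - τ 5, τ 7 - τ 6]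

theorem lN0 {r : ℕ} (hr : 0 < r) (τ : ℕ → ℝ) :
    Nice (lF r) (lPs r τ) 1 0 (0, 0) (4 * r + 1) (τ 0 - τ 7 + π / 3) := by
  have e0 : (0 : ZMod 4) + ((1 : ℕ) : ZMod 4) = 1 := by decide
  refine ⟨?_, ?_, ?_, τ 7 - 3 * (π / 12), τ 0, ?_, ?_, ?_⟩
  · intro f hf
    rw [inW_10] at hf
    rw [mem_lF]
    push_cast at *
    omega
  · rintro ⟨⟨x, y⟩, x', y'⟩ ha
    rw [e0, mem_wIn1] at ha
    unfold LSide
    simp only [mem_lF, Prod.mk.injEq]
    push_cast at *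
    omega
  · rintro ⟨⟨x, y⟩, x', y'⟩ ha
    rw [mem_wOut0] at ha
    unfold LSide
    simp only [mem_lF, Prod.mk.injEq]
    push_cast at *
    omega
  · rintro ⟨⟨x, y⟩, x', y'⟩ ha
    rw [e0, mem_wIn1] at ha
    push_cast at *
    exact lPs_l (by omega) (by omega)
  · rintro ⟨⟨x, y⟩, x', y'⟩ ha
    rw [mem_wOut0] at ha
    push_cast at *
    exact lPs_b (by omega)
  · push_cast
    ring

theorem lN1 {r : ℕ} (hr : 0 < r) (τ : ℕ → ℝ) :
    Nice (lF r) (lPs r τ) 1 1 (24 * r, 0) (4 * r + 1) (τ 1 - τ 0) := by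
  have e0 : (1 : ZMod 4) + ((1 : ℕ) : ZMod 4) = 2 := by decide
  refine ⟨?_, ?_, ?_, τ 0, τ 1 - π / 12, ?_, ?_, ?_⟩
  · intro f hf
    rw [inW_11] at hf
    rw [mem_lF]
    push_cast at *
    omega
  · rintro ⟨⟨x, y⟩, x', y'⟩ ha
    rw [e0, mem_wIn2] at ha
    unfold LSide
    simp only [mem_lF, Prod.mk.injEq]
    push_cast at *
    omega
  · rintro ⟨⟨x, y⟩, x', y'⟩ ha
    rw [mem_wOut1] at ha
    unfold LSide
    simp only [mem_lF, Prod.mk.injEq]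
    push_cast at *
    omega
  · rintro ⟨⟨x, y⟩, x', y'⟩ ha
    rw [e0, mem_wIn2] at ha
    push_cast at *
    exact lPs_b (by omega)
  · rintro ⟨⟨x, y⟩, x', y'⟩ ha
    rw [mem_wOut1] at ha
    push_cast at *
    exact lPs_r1 (by omega) (by omega) (by omega)
  · push_cast
    ring

theorem lN2 {r : ℕ} (hr : 0 < r) (τ : ℕ → ℝ) :
    Nice (lF r) (lPs r τ) 2 1 (24 * r, 8 * r) (4 * r + 1) (τ 2 - τ 1) := by
  have e0 : (1 : ZMod 4) + ((2 : ℕ) : ZMod 4) = 3 := by decide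
  refine ⟨?_, ?_, ?_, τ 1 - π / 12, τ 2 - π / 12, ?_, ?_, ?_⟩
  · intro f hf
    rw [inW_21] at hf
    rw [mem_lF]
    push_cast at *
    omega
  · rintro ⟨⟨x, y⟩, x', y'⟩ ha
    rw [e0, mem_wIn3] at ha
    unfold LSide
    simp only [mem_lF, Prod.mk.injEq]
    push_cast at *
    omega
  · rintro ⟨⟨x, y⟩, x', y'⟩ ha
    rw [mem_wOut1] at ha
    unfold LSide
    simp only [mem_lF, Prod.mk.injEq]
    push_cast at *
    omega
  · rintro ⟨⟨x, y⟩, x', y'⟩ ha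
    rw [e0, mem_wIn3] at ha
    push_cast at *
    exact lPs_r1 (by omega) (by omega) (by omega)
  · rintro ⟨⟨x, y⟩, x', y'⟩ ha
    rw [mem_wOut1] at ha
    push_cast at *
    exact lPs_r2 (by omega) (by omega) ⟨by omega, by omega⟩
  · push_cast
    ring

theorem lN3 {r : ℕ} (hr : 0 < r) (τ : ℕ → ℝ) :
    Nice (lF r) (lPs r τ) 1 2 (24 * r, 16 * r) (4 * r + 1) (τ 3 - τ 2) := by
  have e0 : (2 : ZMod 4) + ((1 : ℕ) : ZMod 4) = 3 := by decide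
  refine ⟨?_, ?_, ?_, τ 2 - π / 12, τ 3 - 2 * (π / 12), ?_, ?_, ?_⟩
  · intro f hf
    rw [inW_12] at hf
    rw [mem_lF]
    push_cast at *
    omega
  · rintro ⟨⟨x, y⟩, x', y'⟩ ha
    rw [e0, mem_wIn3] at ha
    unfold LSide
    simp only [mem_lF, Prod.mk.injEq]
    push_cast at *
    omega
  · rintro ⟨⟨x, y⟩, x', y'⟩ ha
    rw [mem_wOut2] at ha
    unfold LSide
    simp only [mem_lF, Prod.mk.injEq]
    push_cast at *
    omega
  · rintro ⟨⟨x, y⟩, x', y'⟩ ha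
    rw [e0, mem_wIn3] at ha
    push_cast at *
    exact lPs_r2 (by omega) (by omega) ⟨by omega, by omega⟩
  · rintro ⟨⟨x, y⟩, x', y'⟩ ha
    rw [mem_wOut2] at ha
    push_cast at *
    exact lPs_t3 (by omega) (by omega) (by omega)
  · push_cast
    ring

theorem lN4 {r : ℕ} (hr : 0 < r) (τ : ℕ → ℝ) :
    Nice (lF r) (lPs r τ) 3 1 (16 * r, 16 * r) (4 * r + 1) (τ 4 - τ 3) := by
  have e0 : (1 : ZMod 4) + ((3 : ℕ) : ZMod 4) = 0 := by decide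
  refine ⟨?_, ?_, ?_, τ 3 - 2 * (π / 12), τ 4 - π / 12, ?_, ?_, ?_⟩
  · intro f hf
    rw [inW_31] at hf
    rw [mem_lF]
    push_cast at *
    omega
  · rintro ⟨⟨x, y⟩, x', y'⟩ ha
    rw [e0, mem_wIn0] at ha
    unfold LSide
    simp only [mem_lF, Prod.mk.injEq]
    push_cast at *
    omega
  · rintro ⟨⟨x, y⟩, x', y'⟩ ha
    rw [mem_wOut1] at ha
    unfold LSide
    simp only [mem_lF, Prod.mk.injEq]
    push_cast at *
    omega
  · rintro ⟨⟨x, y⟩, x', y'⟩ ha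
    rw [e0, mem_wIn0] at ha
    push_cast at *
    exact lPs_t3 (by omega) (by omega) (by omega)
  · rintro ⟨⟨x, y⟩, x', y'⟩ ha
    rw [mem_wOut1] at ha
    push_cast at *
    exact lPs_r4 (by omega) (by omega) (by omega)
  · push_cast
    ring

theorem lN5 {r : ℕ} (hr : 0 < r) (τ : ℕ → ℝ) :
    Nice (lF r) (lPs r τ) 1 2 (16 * r, 24 * r) (4 * r + 1) (τ 5 - τ 4) := by
  have e0 : (2 : ZMod 4) + ((1 : ℕ) : ZMod 4) = 3 := by decide
  refine ⟨?_, ?_, ?_, τ 4 - π / 12, τ 5 - 2 * (π / 12), ?_, ?_, ?_⟩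
  · intro f hf
    rw [inW_12] at hf
    rw [mem_lF]
    push_cast at *
    omega
  · rintro ⟨⟨x, y⟩, x', y'⟩ ha
    rw [e0, mem_wIn3] at ha
    unfold LSide
    simp only [mem_lF, Prod.mk.injEq]
    push_cast at *
    omega
  · rintro ⟨⟨x, y⟩, x', y'⟩ ha
    rw [mem_wOut2] at ha
    unfold LSide
    simp only [mem_lF, Prod.mk.injEq]
    push_cast at *
    omega
  · rintro ⟨⟨x, y⟩, x', y'⟩ ha
    rw [e0, mem_wIn3] at ha
    push_cast at *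
    exact lPs_r4 (by omega) (by omega) (by omega)
  · rintro ⟨⟨x, y⟩, x', y'⟩ ha
    rw [mem_wOut2] at ha
    push_cast at *
    exact lPs_t5 (by omega) (by omega) ⟨by omega, by omega⟩
  · push_cast
    ring

theorem lN6 {r : ℕ} (hr : 0 < r) (τ : ℕ → ℝ) :
    Nice (lF r) (lPs r τ) 2 2 (8 * r, 24 * r) (4 * r + 1) (τ 6 - τ 5) := by
  have e0 : (2 : ZMod 4) + ((2 : ℕ) : ZMod 4) = 0 := by decide
  refine ⟨?_, ?_, ?_, τ 5 - 2 * (π / 12), τ 6 - 2 * (π / 12), ?_, ?_, ?_⟩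
  · intro f hf
    rw [inW_22] at hf
    rw [mem_lF]
    push_cast at *
    omega
  · rintro ⟨⟨x, y⟩, x', y'⟩ ha
    rw [e0, mem_wIn0] at ha
    unfold LSide
    simp only [mem_lF, Prod.mk.injEq]
    push_cast at *
    omega
  · rintro ⟨⟨x, y⟩, x', y'⟩ ha
    rw [mem_wOut2] at ha
    unfold LSide
    simp only [mem_lF, Prod.mk.injEq]
    push_cast at *
    omega
  · rintro ⟨⟨x, y⟩, x', y'⟩ ha
    rw [e0, mem_wIn0] at ha
    push_cast at *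
    exact lPs_t5 (by omega) (by omega) ⟨by omega, by omega⟩
  · rintro ⟨⟨x, y⟩, x', y'⟩ ha
    rw [mem_wOut2] at ha
    push_cast at *
    exact lPs_t6 (by omega) (by omega) (by omega)
  · push_cast
    ring

theorem lN7 {r : ℕ} (hr : 0 < r) (τ : ℕ → ℝ) :
    Nice (lF r) (lPs r τ) 1 3 (0, 24 * r) (4 * r + 1) (τ 7 - τ 6) := by
  have e0 : (3 : ZMod 4) + ((1 : ℕ) : ZMod 4) = 0 := by decide
  refine ⟨?_, ?_, ?_, τ 6 - 2 * (π / 12), τ 7 - 3 * (π / 12), ?_, ?_, ?_⟩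
  · intro f hf
    rw [inW_13] at hf
    rw [mem_lF]
    push_cast at *
    omega
  · rintro ⟨⟨x, y⟩, x', y'⟩ ha
    rw [e0, mem_wIn0] at ha
    unfold LSide
    simp only [mem_lF, Prod.mk.injEq]
    push_cast at *
    omega
  · rintro ⟨⟨x, y⟩, x', y'⟩ ha
    rw [mem_wOut3] at ha
    unfold LSide
    simp only [mem_lF, Prod.mk.injEq]
    push_cast at *
    omega
  · rintro ⟨⟨x, y⟩, x', y'⟩ ha
    rw [e0, mem_wIn0] at ha
    push_cast at *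
    exact lPs_t6 (by omega) (by omega) (by omega)
  · rintro ⟨⟨x, y⟩, x', y'⟩ ha
    rw [mem_wOut3] at ha
    push_cast at *
    exact lPs_l (by omega) (by omega)
  · push_cast
    ring

theorem lB {r : ℕ} (hr : 0 < r) (τ : ℕ → ℝ) {X : ℤ} (hX : 3 * r ≤ X ∧ X ≤ 21 * r) :
    Nice (lF r) (lPs r τ) 2 0 (X, 0) (2 * r + 1) (0) := by
  have e0 : (0 : ZMod 4) + ((2 : ℕ) : ZMod 4) = 2 := by decide
  refine ⟨?_, ?_, ?_, τ 0, τ 0, ?_, ?_, ?_⟩
  · intro f hf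
    rw [inW_20] at hf
    rw [mem_lF]
    push_cast at *
    omega
  · rintro ⟨⟨x, y⟩, x', y'⟩ ha
    rw [e0, mem_wIn2] at ha
    unfold LSide
    simp only [mem_lF, Prod.mk.injEq]
    push_cast at *
    omega
  · rintro ⟨⟨x, y⟩, x', y'⟩ ha
    rw [mem_wOut0] at ha
    unfold LSide
    simp only [mem_lF, Prod.mk.injEq]
    push_cast at *
    omega
  · rintro ⟨⟨x, y⟩, x', y'⟩ ha
    rw [e0, mem_wIn2] at ha
    push_cast at *
    exact lPs_b (by omega)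
  · rintro ⟨⟨x, y⟩, x', y'⟩ ha
    rw [mem_wOut0] at ha
    push_cast at *
    exact lPs_b (by omega)
  · push_cast
    ring

theorem lR1 {r : ℕ} (hr : 0 < r) (τ : ℕ → ℝ) {X : ℤ} (hX : 3 * r ≤ X ∧ X ≤ 5 * r) :
    Nice (lF r) (lPs r τ) 2 1 (24 * r, X) (2 * r + 1) (0) := by
  have e0 : (1 : ZMod 4) + ((2 : ℕ) : ZMod 4) = 3 := by decide
  refine ⟨?_, ?_, ?_, τ 1 - π / 12, τ 1 - π / 12, ?_, ?_, ?_⟩
  · intro f hf
    rw [inW_21] at hf
    rw [mem_lF]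
    push_cast at *
    omega
  · rintro ⟨⟨x, y⟩, x', y'⟩ ha
    rw [e0, mem_wIn3] at ha
    unfold LSide
    simp only [mem_lF, Prod.mk.injEq]
    push_cast at *
    omega
  · rintro ⟨⟨x, y⟩, x', y'⟩ ha
    rw [mem_wOut1] at ha
    unfold LSide
    simp only [mem_lF, Prod.mk.injEq]
    push_cast at *
    omega
  · rintro ⟨⟨x, y⟩, x', y'⟩ ha
    rw [e0, mem_wIn3] at ha
    push_cast at *
    exact lPs_r1 (by omega) (by omega) (by omega)
  · rintro ⟨⟨x, y⟩, x', y'⟩ ha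
    rw [mem_wOut1] at ha
    push_cast at *
    exact lPs_r1 (by omega) (by omega) (by omega)
  · push_cast
    ring

theorem lR2 {r : ℕ} (hr : 0 < r) (τ : ℕ → ℝ) {X : ℤ} (hX : 11 * r ≤ X ∧ X ≤ 13 * r) :
    Nice (lF r) (lPs r τ) 2 1 (24 * r, X) (2 * r + 1) (0) := by
  have e0 : (1 : ZMod 4) + ((2 : ℕ) : ZMod 4) = 3 := by decide
  refine ⟨?_, ?_, ?_, τ 2 - π / 12, τ 2 - π / 12, ?_, ?_, ?_⟩
  · intro f hf
    rw [inW_21] at hf
    rw [mem_lF]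
    push_cast at *
    omega
  · rintro ⟨⟨x, y⟩, x', y'⟩ ha
    rw [e0, mem_wIn3] at ha
    unfold LSide
    simp only [mem_lF, Prod.mk.injEq]
    push_cast at *
    omega
  · rintro ⟨⟨x, y⟩, x', y'⟩ ha
    rw [mem_wOut1] at ha
    unfold LSide
    simp only [mem_lF, Prod.mk.injEq]
    push_cast at *
    omega
  · rintro ⟨⟨x, y⟩, x', y'⟩ ha
    rw [e0, mem_wIn3] at ha
    push_cast at *
    exact lPs_r2 (by omega) (by omega) ⟨by omega, by omega⟩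
  · rintro ⟨⟨x, y⟩, x', y'⟩ ha
    rw [mem_wOut1] at ha
    push_cast at *
    exact lPs_r2 (by omega) (by omega) ⟨by omega, by omega⟩
  · push_cast
    ring

theorem lT3 {r : ℕ} (hr : 0 < r) (τ : ℕ → ℝ) {X : ℤ} (hX : 19 * r ≤ X ∧ X ≤ 21 * r) :
    Nice (lF r) (lPs r τ) 2 2 (X, 16 * r) (2 * r + 1) (0) := by
  have e0 : (2 : ZMod 4) + ((2 : ℕ) : ZMod 4) = 0 := by decide
  refine ⟨?_, ?_, ?_, τ 3 - 2 * (π / 12), τ 3 - 2 * (π / 12), ?_, ?_, ?_⟩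
  · intro f hf
    rw [inW_22] at hf
    rw [mem_lF]
    push_cast at *
    omega
  · rintro ⟨⟨x, y⟩, x', y'⟩ ha
    rw [e0, mem_wIn0] at ha
    unfold LSide
    simp only [mem_lF, Prod.mk.injEq]
    push_cast at *
    omega
  · rintro ⟨⟨x, y⟩, x', y'⟩ ha
    rw [mem_wOut2] at ha
    unfold LSide
    simp only [mem_lF, Prod.mk.injEq]
    push_cast at *
    omega
  · rintro ⟨⟨x, y⟩, x', y'⟩ ha
    rw [e0, mem_wIn0] at ha
    push_cast at *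
    exact lPs_t3 (by omega) (by omega) (by omega)
  · rintro ⟨⟨x, y⟩, x', y'⟩ ha
    rw [mem_wOut2] at ha
    push_cast at *
    exact lPs_t3 (by omega) (by omega) (by omega)
  · push_cast
    ring

theorem lR4 {r : ℕ} (hr : 0 < r) (τ : ℕ → ℝ) {X : ℤ} (hX : 19 * r ≤ X ∧ X ≤ 21 * r) :
    Nice (lF r) (lPs r τ) 2 1 (16 * r, X) (2 * r + 1) (0) := by
  have e0 : (1 : ZMod 4) + ((2 : ℕ) : ZMod 4) = 3 := by decide
  refine ⟨?_, ?_, ?_, τ 4 - π / 12, τ 4 - π / 12, ?_, ?_, ?_⟩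
  · intro f hf
    rw [inW_21] at hf
    rw [mem_lF]
    push_cast at *
    omega
  · rintro ⟨⟨x, y⟩, x', y'⟩ ha
    rw [e0, mem_wIn3] at ha
    unfold LSide
    simp only [mem_lF, Prod.mk.injEq]
    push_cast at *
    omega
  · rintro ⟨⟨x, y⟩, x', y'⟩ ha
    rw [mem_wOut1] at ha
    unfold LSide
    simp only [mem_lF, Prod.mk.injEq]
    push_cast at *
    omega
  · rintro ⟨⟨x, y⟩, x', y'⟩ ha
    rw [e0, mem_wIn3] at ha
    push_cast at *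
    exact lPs_r4 (by omega) (by omega) (by omega)
  · rintro ⟨⟨x, y⟩, x', y'⟩ ha
    rw [mem_wOut1] at ha
    push_cast at *
    exact lPs_r4 (by omega) (by omega) (by omega)
  · push_cast
    ring

theorem lT5 {r : ℕ} (hr : 0 < r) (τ : ℕ → ℝ) {X : ℤ} (hX : 11 * r ≤ X ∧ X ≤ 13 * r) :
    Nice (lF r) (lPs r τ) 2 2 (X, 24 * r) (2 * r + 1) (0) := by
  have e0 : (2 : ZMod 4) + ((2 : ℕ) : ZMod 4) = 0 := by decide
  refine ⟨?_, ?_, ?_, τ 5 - 2 * (π / 12), τ 5 - 2 * (π / 12), ?_, ?_, ?_⟩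
  · intro f hf
    rw [inW_22] at hf
    rw [mem_lF]
    push_cast at *
    omega
  · rintro ⟨⟨x, y⟩, x', y'⟩ ha
    rw [e0, mem_wIn0] at ha
    unfold LSide
    simp only [mem_lF, Prod.mk.injEq]
    push_cast at *
    omega
  · rintro ⟨⟨x, y⟩, x', y'⟩ ha
    rw [mem_wOut2] at ha
    unfold LSide
    simp only [mem_lF, Prod.mk.injEq]
    push_cast at *
    omega
  · rintro ⟨⟨x, y⟩, x', y'⟩ ha
    rw [e0, mem_wIn0] at ha
    push_cast at *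
    exact lPs_t5 (by omega) (by omega) ⟨by omega, by omega⟩
  · rintro ⟨⟨x, y⟩, x', y'⟩ ha
    rw [mem_wOut2] at ha
    push_cast at *
    exact lPs_t5 (by omega) (by omega) ⟨by omega, by omega⟩
  · push_cast
    ring

theorem lT6 {r : ℕ} (hr : 0 < r) (τ : ℕ → ℝ) {X : ℤ} (hX : 3 * r ≤ X ∧ X ≤ 5 * r) :
    Nice (lF r) (lPs r τ) 2 2 (X, 24 * r) (2 * r + 1) (0) := by
  have e0 : (2 : ZMod 4) + ((2 : ℕ) : ZMod 4) = 0 := by decide
  refine ⟨?_, ?_, ?_, τ 6 - 2 * (π / 12), τ 6 - 2 * (π / 12), ?_, ?_, ?_⟩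
  · intro f hf
    rw [inW_22] at hf
    rw [mem_lF]
    push_cast at *
    omega
  · rintro ⟨⟨x, y⟩, x', y'⟩ ha
    rw [e0, mem_wIn0] at ha
    unfold LSide
    simp only [mem_lF, Prod.mk.injEq]
    push_cast at *
    omega
  · rintro ⟨⟨x, y⟩, x', y'⟩ ha
    rw [mem_wOut2] at ha
    unfold LSide
    simp only [mem_lF, Prod.mk.injEq]
    push_cast at *
    omega
  · rintro ⟨⟨x, y⟩, x', y'⟩ ha
    rw [e0, mem_wIn0] at ha
    push_cast at *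
    exact lPs_t6 (by omega) (by omega) (by omega)
  · rintro ⟨⟨x, y⟩, x', y'⟩ ha
    rw [mem_wOut2] at ha
    push_cast at *
    exact lPs_t6 (by omega) (by omega) (by omega)
  · push_cast
    ring

theorem lL {r : ℕ} (hr : 0 < r) (τ : ℕ → ℝ) {X : ℤ} (hX : 3 * r ≤ X ∧ X ≤ 21 * r) :
    Nice (lF r) (lPs r τ) 2 3 (0, X) (2 * r + 1) (0) := by
  have e0 : (3 : ZMod 4) + ((2 : ℕ) : ZMod 4) = 1 := by decide
  refine ⟨?_, ?_, ?_, τ 7 - 3 * (π / 12), τ 7 - 3 * (π / 12), ?_, ?_, ?_⟩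
  · intro f hf
    rw [inW_23] at hf
    rw [mem_lF]
    push_cast at *
    omega
  · rintro ⟨⟨x, y⟩, x', y'⟩ ha
    rw [e0, mem_wIn1] at ha
    unfold LSide
    simp only [mem_lF, Prod.mk.injEq]
    push_cast at *
    omega
  · rintro ⟨⟨x, y⟩, x', y'⟩ ha
    rw [mem_wOut3] at ha
    unfold LSide
    simp only [mem_lF, Prod.mk.injEq]
    push_cast at *
    omega
  · rintro ⟨⟨x, y⟩, x', y'⟩ ha
    rw [e0, mem_wIn1] at ha
    push_cast at *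
    exact lPs_l (by omega) (by omega)
  · rintro ⟨⟨x, y⟩, x', y'⟩ ha
    rw [mem_wOut3] at ha
    push_cast at *
    exact lPs_l (by omega) (by omega)
  · push_cast
    ring

end

end Pool.Agent.SixB.TP
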