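import Pool.Agent.Lib.SixB.S3TestPolyB

/-!
# 6BD step 3, row R14: the atlas `lAt` of the L-shape `[0, 24 r) × [0, 16 r) ∪ [0, 16 r) × [16 r, 24 r)`
-/

set_option autoImplicit false
set_option linter.unusedSectionVars false

namespace Pool.Agent.SixB.TP

open Pool.Agent.Perc.Q Pool.Agent.Perc Real

noncomputable section

theorem lN {r : ℕ} (hr : 0 < r) (τ : ℕ → ℝ) (i : Fin 8) :
    Nice (lF r) (lPs r τ) (lM i) (lO i) (lV r i) (4 * r + 1) (lJ τ i) := by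
  fin_cases i
  · exact lN0 hr τ
  · exact lN1 hr τ
  · exact lN2 hr τ
  · exact lN3 hr τ
  · exact lN4 hr τ
  · exact lN5 hr τ
  · exact lN6 hr τ
  · exact lN7 hr τ

/-- part of the L-shape -/
def lCode (r : ℕ) (f : ℤ × ℤ) : Fin 4 × Fin 4 :=
  (if f.1 < 4 * r then 0 else if f.1 < 12 * r then 1 else if f.1 < 20 * r then 2 else 3,
    if f.2 < 4 * r then 0 else if f.2 < 12 * r then 1 else if f.2 < 20 * r then 2 else 3)

theorem lCode_eq {r : ℕ} {f : ℤ × ℤ} (i : Fin 8) (h : InW (lM i) (lO i) (lV r i) (4 * r) f) :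
    lCode r f = (![(0, 0), (3, 0), (3, 1), (3, 2), (2, 2), (2, 3), (1, 3), (0, 3)] : Fin 8 → Fin 4 × Fin 4) i := by
  fin_cases i
  · have h' : InW 1 0 (0, 0) (4 * r) f := h
    rw [inW_10] at h'
    push_cast at h'
    unfold lCode
    rw [if_pos (by omega), if_pos (by omega)]
    rfl
  · have h' : InW 1 1 (24 * r, 0) (4 * r) f := h
    rw [inW_11] at h'
    push_cast at h'
    unfold lCode
    rw [if_neg (by omega), if_neg (by omega), if_neg (by omega), if_pos (by omega)]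
    rfl
  · have h' : InW 2 1 (24 * r, 8 * r) (4 * r) f := h
    rw [inW_21] at h'
    push_cast at h'
    unfold lCode
    rw [if_neg (by omega), if_neg (by omega), if_neg (by omega), if_neg (by omega), if_pos (by omega)]
    rfl
  · have h' : InW 1 2 (24 * r, 16 * r) (4 * r) f := h
    rw [inW_12] at h'
    push_cast at h'
    unfold lCode
    rw [if_neg (by omega), if_neg (by omega), if_neg (by omega), if_neg (by omega), if_neg (by omega), if_pos (by omega)]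
    rfl
  · have h' : InW 3 1 (16 * r, 16 * r) (4 * r) f := h
    rw [inW_31] at h'
    push_cast at h'
    unfold lCode
    rw [if_neg (by omega), if_neg (by omega), if_pos (by omega), if_neg (by omega), if_neg (by omega), if_pos (by omega)]
    rfl
  · have h' : InW 1 2 (16 * r, 24 * r) (4 * r) f := h
    rw [inW_12] at h'
    push_cast at h'
    unfold lCode
    rw [if_neg (by omega), if_neg (by omega), if_pos (by omega), if_neg (by omega), if_neg (by omega), if_neg (by omega)]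
    rfl
  · have h' : InW 2 2 (8 * r, 24 * r) (4 * r) f := h
    rw [inW_22] at h'
    push_cast at h'
    unfold lCode
    rw [if_neg (by omega), if_pos (by omega), if_neg (by omega), if_neg (by omega), if_neg (by omega)]
    rfl
  · have h' : InW 1 3 (0, 24 * r) (4 * r) f := h
    rw [inW_13] at h'
    push_cast at h'
    unfold lCode
    rw [if_pos (by omega), if_neg (by omega), if_neg (by omega), if_neg (by omega)]
    rfl

theorem lDisj (r : ℕ) (i j : Fin 8) (hij : i ≠ j) (f : ℤ × ℤ)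
    (h1 : InW (lM i) (lO i) (lV r i) (4 * r) f) (h2 : InW (lM j) (lO j) (lV r j) (4 * r) f) : False := by
  have h3 := (lCode_eq i h1).symm.trans (lCode_eq j h2)
  revert h3 hij
  clear h1 h2
  revert i j
  decide

/-- position of the inner boxes of the special vertices -/
theorem lCore {r : ℕ} {f : ℤ × ℤ} (i : Fin 8) (h : InW (lM i) (lO i) (lV r i) r f) :
    (f.1 < r ∧ f.2 < r) ∨ (23 * r ≤ f.1 ∧ f.2 < r) ∨ (23 * r ≤ f.1 ∧ 7 * r ≤ f.2 ∧ f.2 < 9 * r) ∨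
      (23 * r ≤ f.1 ∧ 15 * r ≤ f.2) ∨ ((15 * r ≤ f.1 ∧ f.1 < 17 * r) ∧ 15 * r ≤ f.2 ∧ f.2 < 17 * r) ∨
      (15 * r ≤ f.1 ∧ 23 * r ≤ f.2) ∨ ((7 * r ≤ f.1 ∧ f.1 < 9 * r) ∧ 23 * r ≤ f.2) ∨
      (f.1 < r ∧ 23 * r ≤ f.2) := by
  fin_cases i
  · have h' : InW 1 0 (0, 0) r f := h
    rw [inW_10] at h'
    push_cast at h'
    omega
  · have h' : InW 1 1 (24 * r, 0) r f := h
    rw [inW_11] at h'
    push_cast at h'
    omega
  · have h' : InW 2 1 (24 * r, 8 * r) r f := h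
    rw [inW_21] at h'
    push_cast at h'
    omega
  · have h' : InW 1 2 (24 * r, 16 * r) r f := h
    rw [inW_12] at h'
    push_cast at h'
    omega
  · have h' : InW 3 1 (16 * r, 16 * r) r f := h
    rw [inW_31] at h'
    push_cast at h'
    omega
  · have h' : InW 1 2 (16 * r, 24 * r) r f := h
    rw [inW_12] at h'
    push_cast at h'
    omega
  · have h' : InW 2 2 (8 * r, 24 * r) r f := h
    rw [inW_22] at h'
    push_cast at h'
    omega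
  · have h' : InW 1 3 (0, 24 * r) r f := h
    rw [inW_13] at h'
    push_cast at h'
    omega

theorem lB_c {r : ℕ} (hr : 0 < r) (τ : ℕ → ℝ) {X : ℤ} (hX : 3 * r ≤ X ∧ X ≤ 21 * r) :
    NatC (lF r) (lPs r τ) r lM lO (lV r) (0, (X, 0)) := by
  refine ⟨lB hr τ hX, ?_⟩
  intro j f h1 h2
  have h3 := lCore j h2
  have h4 : InW 2 0 (X, 0) (2 * r) f := h1
  rw [inW_20] at h4
  push_cast at h4
  omega

theorem lR1_c {r : ℕ} (hr : 0 < r) (τ : ℕ → ℝ) {X : ℤ} (hX : 3 * r ≤ X ∧ X ≤ 5 * r) :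
    NatC (lF r) (lPs r τ) r lM lO (lV r) (1, (24 * r, X)) := by
  refine ⟨lR1 hr τ hX, ?_⟩
  intro j f h1 h2
  have h3 := lCore j h2
  have h4 : InW 2 1 (24 * r, X) (2 * r) f := h1
  rw [inW_21] at h4
  push_cast at h4
  omega

theorem lR2_c {r : ℕ} (hr : 0 < r) (τ : ℕ → ℝ) {X : ℤ} (hX : 11 * r ≤ X ∧ X ≤ 13 * r) :
    NatC (lF r) (lPs r τ) r lM lO (lV r) (1, (24 * r, X)) := by
  refine ⟨lR2 hr τ hX, ?_⟩
  intro j f h1 h2
  have h3 := lCore j h2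
  have h4 : InW 2 1 (24 * r, X) (2 * r) f := h1
  rw [inW_21] at h4
  push_cast at h4
  omega

theorem lT3_c {r : ℕ} (hr : 0 < r) (τ : ℕ → ℝ) {X : ℤ} (hX : 19 * r ≤ X ∧ X ≤ 21 * r) :
    NatC (lF r) (lPs r τ) r lM lO (lV r) (2, (X, 16 * r)) := by
  refine ⟨lT3 hr τ hX, ?_⟩
  intro j f h1 h2
  have h3 := lCore j h2
  have h4 : InW 2 2 (X, 16 * r) (2 * r) f := h1
  rw [inW_22] at h4
  push_cast at h4
  omega

theorem lR4_c {r : ℕ} (hr : 0 < r) (τ : ℕ → ℝ) {X : ℤ} (hX : 19 * r ≤ X ∧ X ≤ 21 * r) :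
    NatC (lF r) (lPs r τ) r lM lO (lV r) (1, (16 * r, X)) := by
  refine ⟨lR4 hr τ hX, ?_⟩
  intro j f h1 h2
  have h3 := lCore j h2
  have h4 : InW 2 1 (16 * r, X) (2 * r) f := h1
  rw [inW_21] at h4
  push_cast at h4
  omega

theorem lT5_c {r : ℕ} (hr : 0 < r) (τ : ℕ → ℝ) {X : ℤ} (hX : 11 * r ≤ X ∧ X ≤ 13 * r) :
    NatC (lF r) (lPs r τ) r lM lO (lV r) (2, (X, 24 * r)) := by
  refine ⟨lT5 hr τ hX, ?_⟩
  intro j f h1 h2
  have h3 := lCore j h2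
  have h4 : InW 2 2 (X, 24 * r) (2 * r) f := h1
  rw [inW_22] at h4
  push_cast at h4
  omega

theorem lT6_c {r : ℕ} (hr : 0 < r) (τ : ℕ → ℝ) {X : ℤ} (hX : 3 * r ≤ X ∧ X ≤ 5 * r) :
    NatC (lF r) (lPs r τ) r lM lO (lV r) (2, (X, 24 * r)) := by
  refine ⟨lT6 hr τ hX, ?_⟩
  intro j f h1 h2
  have h3 := lCore j h2
  have h4 : InW 2 2 (X, 24 * r) (2 * r) f := h1
  rw [inW_22] at h4
  push_cast at h4
  omega

theorem lL_c {r : ℕ} (hr : 0 < r) (τ : ℕ → ℝ) {X : ℤ} (hX : 3 * r ≤ X ∧ X ≤ 21 * r) :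
    NatC (lF r) (lPs r τ) r lM lO (lV r) (3, (0, X)) := by
  refine ⟨lL hr τ hX, ?_⟩
  intro j f h1 h2
  have h3 := lCore j h2
  have h4 : InW 2 3 (0, X) (2 * r) f := h1
  rw [inW_23] at h4
  push_cast at h4
  omega

/-- centres of the natural charts -/
def lCand (r : ℕ) : List (ZMod 4 × (ℤ × ℤ)) :=
  [(0, (3 * r, 0)), (0, (5 * r, 0)), (0, (7 * r, 0)), (0, (9 * r, 0)), (0, (11 * r, 0)),
    (0, (13 * r, 0)), (0, (15 * r, 0)), (0, (17 * r, 0)), (0, (19 * r, 0)), (0, (21 * r, 0)),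
    (1, (24 * r, 3 * r)), (1, (24 * r, 5 * r)), (1, (24 * r, 11 * r)), (1, (24 * r, 13 * r)),
    (2, (19 * r, 16 * r)), (2, (21 * r, 16 * r)), (1, (16 * r, 19 * r)), (1, (16 * r, 21 * r)),
    (2, (3 * r, 24 * r)), (2, (5 * r, 24 * r)), (2, (11 * r, 24 * r)), (2, (13 * r, 24 * r)),
    (3, (0, 3 * r)), (3, (0, 5 * r)), (3, (0, 7 * r)), (3, (0, 9 * r)), (3, (0, 11 * r)),
    (3, (0, 13 * r)), (3, (0, 15 * r)), (3, (0, 17 * r)), (3, (0, 19 * r)), (3, (0, 21 * r))]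

theorem lI {r : ℕ} {u : ZMod 4 × (ℤ × ℤ)} (h : u ∈ lCand r) : u ∈ (lCand r).toFinset :=
  List.mem_toFinset.mpr h

/-- the side `a` is covered -/
def lCov (r : ℕ) (τ : ℕ → ℝ) (a : (ℤ × ℤ) × (ℤ × ℤ)) : Prop :=
  (∃ i, a ∈ wIn (lO i + lM i) (lV r i) (2 * r) ∪ wOut (lO i) (lV r i) (2 * r)) ∨
    ∃ x ∈ (lCand r).toFinset, NatC (lF r) (lPs r τ) r lM lO (lV r) x ∧
      a ∈ wIn (x.1 + (2 : ℕ)) x.2 r ∪ wOut x.1 x.2 r

theorem lCovB {r : ℕ} (hr : 0 < r) (τ : ℕ → ℝ) {x y x' y' : ℤ} (h1 : x' = x + 1) (h2 : y' = y)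
    (h3 : y = 0) (h4 : 0 ≤ x) (h5 : x < 24 * r) : lCov r τ ((x, y), (x', y')) := by
  have hc : x < 2 * r ∨ (2 * r ≤ x ∧ x < 4 * r) ∨ (4 * r ≤ x ∧ x < 6 * r) ∨ (6 * r ≤ x ∧ x < 8 * r) ∨
      (8 * r ≤ x ∧ x < 10 * r) ∨ (10 * r ≤ x ∧ x < 12 * r) ∨ (12 * r ≤ x ∧ x < 14 * r) ∨
      (14 * r ≤ x ∧ x < 16 * r) ∨ (16 * r ≤ x ∧ x < 18 * r) ∨ (18 * r ≤ x ∧ x < 20 * r) ∨
      (20 * r ≤ x ∧ x < 22 * r) ∨ (22 * r ≤ x ∧ x < 24 * r) := by
    omega
  rcases hc with hc | hc | hc | hc | hc | hc | hc | hc | hc | hc | hc | hc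
  · have hh : (((x, y), (x', y')) : (ℤ × ℤ) × (ℤ × ℤ)) ∈ wIn ((0 : ZMod 4) + ((1 : ℕ) : ZMod 4)) (0, 0)
        (2 * r) ∪ wOut 0 (0, 0) (2 * r) := by
      rw [show (0 : ZMod 4) + ((1 : ℕ) : ZMod 4) = 1 by decide, Finset.mem_union, mem_wIn1, mem_wOut0]
      push_cast
      omega
    exact Or.inl ⟨0, hh⟩
  · exact Or.inr ⟨(0, (3 * r, 0)), lI (by simp [lCand]), lB_c hr τ ⟨by omega, by omega⟩,
      un0 (by omega) (by omega) (by omega) (by push_cast; omega) (by push_cast; omega)⟩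
  · exact Or.inr ⟨(0, (5 * r, 0)), lI (by simp [lCand]), lB_c hr τ ⟨by omega, by omega⟩,
      un0 (by omega) (by omega) (by omega) (by push_cast; omega) (by push_cast; omega)⟩
  · exact Or.inr ⟨(0, (7 * r, 0)), lI (by simp [lCand]), lB_c hr τ ⟨by omega, by omega⟩,
      un0 (by omega) (by omega) (by omega) (by push_cast; omega) (by push_cast; omega)⟩
  · exact Or.inr ⟨(0, (9 * r, 0)), lI (by simp [lCand]), lB_c hr τ ⟨by omega, by omega⟩,
      un0 (by omega) (by omega) (by omega) (by push_cast; omega) (by push_cast; omega)⟩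
  · exact Or.inr ⟨(0, (11 * r, 0)), lI (by simp [lCand]), lB_c hr τ ⟨by omega, by omega⟩,
      un0 (by omega) (by omega) (by omega) (by push_cast; omega) (by push_cast; omega)⟩
  · exact Or.inr ⟨(0, (13 * r, 0)), lI (by simp [lCand]), lB_c hr τ ⟨by omega, by omega⟩,
      un0 (by omega) (by omega) (by omega) (by push_cast; omega) (by push_cast; omega)⟩
  · exact Or.inr ⟨(0, (15 * r, 0)), lI (by simp [lCand]), lB_c hr τ ⟨by omega, by omega⟩,
      un0 (by omega) (by omega) (by omega) (by push_cast; omega) (by push_cast; omega)⟩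
  · exact Or.inr ⟨(0, (17 * r, 0)), lI (by simp [lCand]), lB_c hr τ ⟨by omega, by omega⟩,
      un0 (by omega) (by omega) (by omega) (by push_cast; omega) (by push_cast; omega)⟩
  · exact Or.inr ⟨(0, (19 * r, 0)), lI (by simp [lCand]), lB_c hr τ ⟨by omega, by omega⟩,
      un0 (by omega) (by omega) (by omega) (by push_cast; omega) (by push_cast; omega)⟩
  · exact Or.inr ⟨(0, (21 * r, 0)), lI (by simp [lCand]), lB_c hr τ ⟨by omega, by omega⟩,
      un0 (by omega) (by omega) (by omega) (by push_cast; omega) (by push_cast; omega)⟩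
  · have hh : (((x, y), (x', y')) : (ℤ × ℤ) × (ℤ × ℤ)) ∈ wIn ((1 : ZMod 4) + ((1 : ℕ) : ZMod 4)) (24 * r, 0)
        (2 * r) ∪ wOut 1 (24 * r, 0) (2 * r) := by
      rw [show (1 : ZMod 4) + ((1 : ℕ) : ZMod 4) = 2 by decide, Finset.mem_union, mem_wIn2, mem_wOut1]
      push_cast
      omega
    exact Or.inl ⟨1, hh⟩

theorem lCovR {r : ℕ} (hr : 0 < r) (τ : ℕ → ℝ) {x y x' y' : ℤ} (h1 : x' = x) (h2 : y' = y + 1)
    (h3 : x = 24 * r) (h4 : 0 ≤ y) (h5 : y < 16 * r) : lCov r τ ((x, y), (x', y')) := by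
  have hc : y < 2 * r ∨ (2 * r ≤ y ∧ y < 4 * r) ∨ (4 * r ≤ y ∧ y < 6 * r) ∨ (6 * r ≤ y ∧ y < 10 * r) ∨
      (10 * r ≤ y ∧ y < 12 * r) ∨ (12 * r ≤ y ∧ y < 14 * r) ∨ (14 * r ≤ y ∧ y < 16 * r) := by
    omega
  rcases hc with hc | hc | hc | hc | hc | hc | hc
  · have hh : (((x, y), (x', y')) : (ℤ × ℤ) × (ℤ × ℤ)) ∈ wIn ((1 : ZMod 4) + ((1 : ℕ) : ZMod 4)) (24 * r, 0)
        (2 * r) ∪ wOut 1 (24 * r, 0) (2 * r) := by
      rw [show (1 : ZMod 4) + ((1 : ℕ) : ZMod 4) = 2 by decide, Finset.mem_union, mem_wIn2, mem_wOut1]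
      push_cast
      omega
    exact Or.inl ⟨1, hh⟩
  · exact Or.inr ⟨(1, (24 * r, 3 * r)), lI (by simp [lCand]), lR1_c hr τ ⟨by omega, by omega⟩,
      un1 (by omega) (by omega) (by omega) (by push_cast; omega) (by push_cast; omega)⟩
  · exact Or.inr ⟨(1, (24 * r, 5 * r)), lI (by simp [lCand]), lR1_c hr τ ⟨by omega, by omega⟩,
      un1 (by omega) (by omega) (by omega) (by push_cast; omega) (by push_cast; omega)⟩
  · have hh : (((x, y), (x', y')) : (ℤ × ℤ) × (ℤ × ℤ)) ∈ wIn ((1 : ZMod 4) + ((2 : ℕ) : ZMod 4)) (24 * r, 8 * r)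
        (2 * r) ∪ wOut 1 (24 * r, 8 * r) (2 * r) := by
      rw [show (1 : ZMod 4) + ((2 : ℕ) : ZMod 4) = 3 by decide, Finset.mem_union, mem_wIn3, mem_wOut1]
      push_cast
      omega
    exact Or.inl ⟨2, hh⟩
  · exact Or.inr ⟨(1, (24 * r, 11 * r)), lI (by simp [lCand]), lR2_c hr τ ⟨by omega, by omega⟩,
      un1 (by omega) (by omega) (by omega) (by push_cast; omega) (by push_cast; omega)⟩
  · exact Or.inr ⟨(1, (24 * r, 13 * r)), lI (by simp [lCand]), lR2_c hr τ ⟨by omega, by omega⟩,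
      un1 (by omega) (by omega) (by omega) (by push_cast; omega) (by push_cast; omega)⟩
  · have hh : (((x, y), (x', y')) : (ℤ × ℤ) × (ℤ × ℤ)) ∈ wIn ((2 : ZMod 4) + ((1 : ℕ) : ZMod 4)) (24 * r, 16 * r)
        (2 * r) ∪ wOut 2 (24 * r, 16 * r) (2 * r) := by
      rw [show (2 : ZMod 4) + ((1 : ℕ) : ZMod 4) = 3 by decide, Finset.mem_union, mem_wIn3, mem_wOut2]
      push_cast
      omega
    exact Or.inl ⟨3, hh⟩

theorem lCovR4 {r : ℕ} (hr : 0 < r) (τ : ℕ → ℝ) {x y x' y' : ℤ} (h1 : x' = x) (h2 : y' = y + 1)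
    (h3 : x = 16 * r) (h4 : 16 * r ≤ y) (h5 : y < 24 * r) : lCov r τ ((x, y), (x', y')) := by
  have hc : y < 18 * r ∨ (18 * r ≤ y ∧ y < 20 * r) ∨ (20 * r ≤ y ∧ y < 22 * r) ∨
      (22 * r ≤ y ∧ y < 24 * r) := by
    omega
  rcases hc with hc | hc | hc | hc
  · have hh : (((x, y), (x', y')) : (ℤ × ℤ) × (ℤ × ℤ)) ∈ wIn ((1 : ZMod 4) + ((3 : ℕ) : ZMod 4)) (16 * r, 16 * r)
        (2 * r) ∪ wOut 1 (16 * r, 16 * r) (2 * r) := by
      rw [show (1 : ZMod 4) + ((3 : ℕ) : ZMod 4) = 0 by decide, Finset.mem_union, mem_wIn0, mem_wOut1]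
      push_cast
      omega
    exact Or.inl ⟨4, hh⟩
  · exact Or.inr ⟨(1, (16 * r, 19 * r)), lI (by simp [lCand]), lR4_c hr τ ⟨by omega, by omega⟩,
      un1 (by omega) (by omega) (by omega) (by push_cast; omega) (by push_cast; omega)⟩
  · exact Or.inr ⟨(1, (16 * r, 21 * r)), lI (by simp [lCand]), lR4_c hr τ ⟨by omega, by omega⟩,
      un1 (by omega) (by omega) (by omega) (by push_cast; omega) (by push_cast; omega)⟩
  · have hh : (((x, y), (x', y')) : (ℤ × ℤ) × (ℤ × ℤ)) ∈ wIn ((2 : ZMod 4) + ((1 : ℕ) : ZMod 4)) (16 * r, 24 * r)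
        (2 * r) ∪ wOut 2 (16 * r, 24 * r) (2 * r) := by
      rw [show (2 : ZMod 4) + ((1 : ℕ) : ZMod 4) = 3 by decide, Finset.mem_union, mem_wIn3, mem_wOut2]
      push_cast
      omega
    exact Or.inl ⟨5, hh⟩

theorem lCovT3 {r : ℕ} (hr : 0 < r) (τ : ℕ → ℝ) {x y x' y' : ℤ} (h1 : x' = x - 1) (h2 : y' = y)
    (h3 : y = 16 * r) (h4 : 16 * r < x) (h5 : x ≤ 24 * r) : lCov r τ ((x, y), (x', y')) := by
  have hc : x ≤ 18 * r ∨ (18 * r < x ∧ x ≤ 20 * r) ∨ (20 * r < x ∧ x ≤ 22 * r) ∨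
      (22 * r < x ∧ x ≤ 24 * r) := by
    omega
  rcases hc with hc | hc | hc | hc
  · have hh : (((x, y), (x', y')) : (ℤ × ℤ) × (ℤ × ℤ)) ∈ wIn ((1 : ZMod 4) + ((3 : ℕ) : ZMod 4)) (16 * r, 16 * r)
        (2 * r) ∪ wOut 1 (16 * r, 16 * r) (2 * r) := by
      rw [show (1 : ZMod 4) + ((3 : ℕ) : ZMod 4) = 0 by decide, Finset.mem_union, mem_wIn0, mem_wOut1]
      push_cast
      omega
    exact Or.inl ⟨4, hh⟩
  · exact Or.inr ⟨(2, (19 * r, 16 * r)), lI (by simp [lCand]), lT3_c hr τ ⟨by omega, by omega⟩,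
      un2 (by omega) (by omega) (by omega) (by push_cast; omega) (by push_cast; omega)⟩
  · exact Or.inr ⟨(2, (21 * r, 16 * r)), lI (by simp [lCand]), lT3_c hr τ ⟨by omega, by omega⟩,
      un2 (by omega) (by omega) (by omega) (by push_cast; omega) (by push_cast; omega)⟩
  · have hh : (((x, y), (x', y')) : (ℤ × ℤ) × (ℤ × ℤ)) ∈ wIn ((2 : ZMod 4) + ((1 : ℕ) : ZMod 4)) (24 * r, 16 * r)
        (2 * r) ∪ wOut 2 (24 * r, 16 * r) (2 * r) := by
      rw [show (2 : ZMod 4) + ((1 : ℕ) : ZMod 4) = 3 by decide, Finset.mem_union, mem_wIn3, mem_wOut2]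
      push_cast
      omega
    exact Or.inl ⟨3, hh⟩

theorem lCovT {r : ℕ} (hr : 0 < r) (τ : ℕ → ℝ) {x y x' y' : ℤ} (h1 : x' = x - 1) (h2 : y' = y)
    (h3 : y = 24 * r) (h4 : 0 < x) (h5 : x ≤ 16 * r) : lCov r τ ((x, y), (x', y')) := by
  have hc : x ≤ 2 * r ∨ (2 * r < x ∧ x ≤ 4 * r) ∨ (4 * r < x ∧ x ≤ 6 * r) ∨ (6 * r < x ∧ x ≤ 10 * r) ∨
      (10 * r < x ∧ x ≤ 12 * r) ∨ (12 * r < x ∧ x ≤ 14 * r) ∨ (14 * r < x ∧ x ≤ 16 * r) := by
    omega
  rcases hc with hc | hc | hc | hc | hc | hc | hc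
  · have hh : (((x, y), (x', y')) : (ℤ × ℤ) × (ℤ × ℤ)) ∈ wIn ((3 : ZMod 4) + ((1 : ℕ) : ZMod 4)) (0, 24 * r)
        (2 * r) ∪ wOut 3 (0, 24 * r) (2 * r) := by
      rw [show (3 : ZMod 4) + ((1 : ℕ) : ZMod 4) = 0 by decide, Finset.mem_union, mem_wIn0, mem_wOut3]
      push_cast
      omega
    exact Or.inl ⟨7, hh⟩
  · exact Or.inr ⟨(2, (3 * r, 24 * r)), lI (by simp [lCand]), lT6_c hr τ ⟨by omega, by omega⟩,
      un2 (by omega) (by omega) (by omega) (by push_cast; omega) (by push_cast; omega)⟩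
  · exact Or.inr ⟨(2, (5 * r, 24 * r)), lI (by simp [lCand]), lT6_c hr τ ⟨by omega, by omega⟩,
      un2 (by omega) (by omega) (by omega) (by push_cast; omega) (by push_cast; omega)⟩
  · have hh : (((x, y), (x', y')) : (ℤ × ℤ) × (ℤ × ℤ)) ∈ wIn ((2 : ZMod 4) + ((2 : ℕ) : ZMod 4)) (8 * r, 24 * r)
        (2 * r) ∪ wOut 2 (8 * r, 24 * r) (2 * r) := by
      rw [show (2 : ZMod 4) + ((2 : ℕ) : ZMod 4) = 0 by decide, Finset.mem_union, mem_wIn0, mem_wOut2]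
      push_cast
      omega
    exact Or.inl ⟨6, hh⟩
  · exact Or.inr ⟨(2, (11 * r, 24 * r)), lI (by simp [lCand]), lT5_c hr τ ⟨by omega, by omega⟩,
      un2 (by omega) (by omega) (by omega) (by push_cast; omega) (by push_cast; omega)⟩
  · exact Or.inr ⟨(2, (13 * r, 24 * r)), lI (by simp [lCand]), lT5_c hr τ ⟨by omega, by omega⟩,
      un2 (by omega) (by omega) (by omega) (by push_cast; omega) (by push_cast; omega)⟩
  · have hh : (((x, y), (x', y')) : (ℤ × ℤ) × (ℤ × ℤ)) ∈ wIn ((2 : ZMod 4) + ((1 : ℕ) : ZMod 4)) (16 * r, 24 * r)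
        (2 * r) ∪ wOut 2 (16 * r, 24 * r) (2 * r) := by
      rw [show (2 : ZMod 4) + ((1 : ℕ) : ZMod 4) = 3 by decide, Finset.mem_union, mem_wIn3, mem_wOut2]
      push_cast
      omega
    exact Or.inl ⟨5, hh⟩

theorem lCovL {r : ℕ} (hr : 0 < r) (τ : ℕ → ℝ) {x y x' y' : ℤ} (h1 : x' = x) (h2 : y' = y - 1)
    (h3 : x = 0) (h4 : 0 < y) (h5 : y ≤ 24 * r) : lCov r τ ((x, y), (x', y')) := by
  have hc : y ≤ 2 * r ∨ (2 * r < y ∧ y ≤ 4 * r) ∨ (4 * r < y ∧ y ≤ 6 * r) ∨ (6 * r < y ∧ y ≤ 8 * r) ∨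
      (8 * r < y ∧ y ≤ 10 * r) ∨ (10 * r < y ∧ y ≤ 12 * r) ∨ (12 * r < y ∧ y ≤ 14 * r) ∨
      (14 * r < y ∧ y ≤ 16 * r) ∨ (16 * r < y ∧ y ≤ 18 * r) ∨ (18 * r < y ∧ y ≤ 20 * r) ∨
      (20 * r < y ∧ y ≤ 22 * r) ∨ (22 * r < y ∧ y ≤ 24 * r) := by
    omega
  rcases hc with hc | hc | hc | hc | hc | hc | hc | hc | hc | hc | hc | hc
  · have hh : (((x, y), (x', y')) : (ℤ × ℤ) × (ℤ × ℤ)) ∈ wIn ((0 : ZMod 4) + ((1 : ℕ) : ZMod 4)) (0, 0)
        (2 * r) ∪ wOut 0 (0, 0) (2 * r) := by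
      rw [show (0 : ZMod 4) + ((1 : ℕ) : ZMod 4) = 1 by decide, Finset.mem_union, mem_wIn1, mem_wOut0]
      push_cast
      omega
    exact Or.inl ⟨0, hh⟩
  · exact Or.inr ⟨(3, (0, 3 * r)), lI (by simp [lCand]), lL_c hr τ ⟨by omega, by omega⟩,
      un3 (by omega) (by omega) (by omega) (by push_cast; omega) (by push_cast; omega)⟩
  · exact Or.inr ⟨(3, (0, 5 * r)), lI (by simp [lCand]), lL_c hr τ ⟨by omega, by omega⟩,
      un3 (by omega) (by omega) (by omega) (by push_cast; omega) (by push_cast; omega)⟩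
  · exact Or.inr ⟨(3, (0, 7 * r)), lI (by simp [lCand]), lL_c hr τ ⟨by omega, by omega⟩,
      un3 (by omega) (by omega) (by omega) (by push_cast; omega) (by push_cast; omega)⟩
  · exact Or.inr ⟨(3, (0, 9 * r)), lI (by simp [lCand]), lL_c hr τ ⟨by omega, by omega⟩,
      un3 (by omega) (by omega) (by omega) (by push_cast; omega) (by push_cast; omega)⟩
  · exact Or.inr ⟨(3, (0, 11 * r)), lI (by simp [lCand]), lL_c hr τ ⟨by omega, by omega⟩,
      un3 (by omega) (by omega) (by omega) (by push_cast; omega) (by push_cast; omega)⟩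
  · exact Or.inr ⟨(3, (0, 13 * r)), lI (by simp [lCand]), lL_c hr τ ⟨by omega, by omega⟩,
      un3 (by omega) (by omega) (by omega) (by push_cast; omega) (by push_cast; omega)⟩
  · exact Or.inr ⟨(3, (0, 15 * r)), lI (by simp [lCand]), lL_c hr τ ⟨by omega, by omega⟩,
      un3 (by omega) (by omega) (by omega) (by push_cast; omega) (by push_cast; omega)⟩
  · exact Or.inr ⟨(3, (0, 17 * r)), lI (by simp [lCand]), lL_c hr τ ⟨by omega, by omega⟩,
      un3 (by omega) (by omega) (by omega) (by push_cast; omega) (by push_cast; omega)⟩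
  · exact Or.inr ⟨(3, (0, 19 * r)), lI (by simp [lCand]), lL_c hr τ ⟨by omega, by omega⟩,
      un3 (by omega) (by omega) (by omega) (by push_cast; omega) (by push_cast; omega)⟩
  · exact Or.inr ⟨(3, (0, 21 * r)), lI (by simp [lCand]), lL_c hr τ ⟨by omega, by omega⟩,
      un3 (by omega) (by omega) (by omega) (by push_cast; omega) (by push_cast; omega)⟩
  · have hh : (((x, y), (x', y')) : (ℤ × ℤ) × (ℤ × ℤ)) ∈ wIn ((3 : ZMod 4) + ((1 : ℕ) : ZMod 4)) (0, 24 * r)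
        (2 * r) ∪ wOut 3 (0, 24 * r) (2 * r) := by
      rw [show (3 : ZMod 4) + ((1 : ℕ) : ZMod 4) = 0 by decide, Finset.mem_union, mem_wIn0, mem_wOut3]
      push_cast
      omega
    exact Or.inl ⟨7, hh⟩

theorem lCover {r : ℕ} (hr : 0 < r) (τ : ℕ → ℝ) (a : (ℤ × ℤ) × (ℤ × ℤ)) (h : LSide (lF r) a.1 a.2) :
    lCov r τ a := by
  obtain ⟨⟨x, y⟩, x', y'⟩ := a
  unfold LSide at h
  simp only [mem_lF, Prod.mk.injEq] at h
  rcases h with ⟨⟨h1, h2⟩, h3, h4⟩ | ⟨⟨h1, h2⟩, h3, h4⟩ | ⟨⟨h1, h2⟩, h3, h4⟩ | ⟨⟨h1, h2⟩, h3, h4⟩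
  · exact lCovB hr τ (by omega) (by omega) (by omega) (by omega) (by omega)
  · by_cases hy : y < 16 * r
    · exact lCovR hr τ (by omega) (by omega) (by omega) (by omega) (by omega)
    · exact lCovR4 hr τ (by omega) (by omega) (by omega) (by omega) (by omega)
  · by_cases hy : y = 16 * r
    · exact lCovT3 hr τ (by omega) (by omega) (by omega) (by omega) (by omega)
    · exact lCovT hr τ (by omega) (by omega) (by omega) (by omega) (by omega)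
  · exact lCovL hr τ (by omega) (by omega) (by omega) (by omega) (by omega)

/-- **The atlas.** -/
def lAt {r : ℕ} (hr : 0 < r) (τ : ℕ → ℝ) (t₀ : ℝ)
    (ht : ∀ i, t₀ ≤ tJ (lJ τ i) ∨ (lJ τ i = -(π / 3) ∧ lM i = 2)) :
    Atlas ZQ (lF r) (lPs r τ) (bS ZQ (lF r)) r 8 32 t₀ :=
  mkAtlas (lF r) (lPs r τ) r 8 32 t₀ lM lO (lV r) (lJ τ)
    (fun i => by
      unfold lM
      fin_cases i <;> simp) (lN hr τ) ht (lDisj r) (lCand r).toFinset
    (List.toFinset_card_le _) (lCover hr τ)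

end

end Pool.Agent.SixB.TP
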