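import Pool.Agent.Lib.SixB.S3TestPolyA
import Pool.Agent.Lib.SixB.S3TestPolyB

/-!
# 6BD step 3, row R14: words of the test polygons, positivity, mirror phases

* `rW_nonneg`: `0 ≤ WZ` for the rectangle with the values `ps l`, `RngOK l`, `l` = jumps at the flat `(8 r, 0)`, the
  corners `(16 r, 0)`, `(16 r, 8 r)`, the flat `(8 r, 8 r)`, the corner `(0, 8 r)`; `lW_nonneg` the same for the L-shape;
* `rPs_neg`, `lPs_neg`, `r_av_eq`, `l_av_eq`: the average of `WZ` does not change when the jumps `J` are replaced by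
  `π/6 - J` (convex), `-J` (flat), `-π/6 - J` (concave).
-/

set_option autoImplicit false
set_option linter.unusedSectionVars false

namespace Pool.Agent.SixB.TP

open Pool.Agent.Perc.Q Pool.Agent.Perc Real

noncomputable section

/-! ## Segments -/

theorem seg0 (ψ : (ℤ × ℤ) × (ℤ × ℤ) → ℝ) (a b : ℤ) (n : ℕ) (c : ℝ)
    (h : ∀ x : ℤ, a ≤ x → x < a + n → ψ ((x, b), (x + 1, b)) = c) :
    thL (segm id (a, b) 0 n) ψ = List.replicate n c := by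
  refine thL_segm ψ _ _ _ _ fun t ht => ?_
  have e1 : ((a, b) : ℤ × ℤ) + (t : ℤ) • dv 0 = (a + t, b) := by
    rw [dv0]; ext <;> simp
  have e2 : ((a + t, b) : ℤ × ℤ) + dv 0 = (a + t + 1, b) := by
    rw [dv0]; ext <;> simp
  rw [e1, e2, h _ (by omega) (by omega)]
  push_cast
  ring

theorem seg1 (ψ : (ℤ × ℤ) × (ℤ × ℤ) → ℝ) (a b : ℤ) (n : ℕ) (c : ℝ)
    (h : ∀ y : ℤ, b ≤ y → y < b + n → ψ ((a, y), (a, y + 1)) = c - π / 12) :
    thL (segm id (a, b) 1 n) ψ = List.replicate n c := by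
  refine thL_segm ψ _ _ _ _ fun t ht => ?_
  have e1 : ((a, b) : ℤ × ℤ) + (t : ℤ) • dv 1 = (a, b + t) := by
    rw [dv1]; ext <;> simp
  have e2 : ((a, b + t) : ℤ × ℤ) + dv 1 = (a, b + t + 1) := by
    rw [dv1]; ext <;> simp
  rw [e1, e2, h _ (by omega) (by omega)]
  push_cast
  ring

theorem seg2 (ψ : (ℤ × ℤ) × (ℤ × ℤ) → ℝ) (a b : ℤ) (n : ℕ) (c : ℝ)
    (h : ∀ x : ℤ, a - n < x → x ≤ a → ψ ((x, b), (x - 1, b)) = c - 2 * (π / 12)) :
    thL (segm id (a, b) 2 n) ψ = List.replicate n c := by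
  refine thL_segm ψ _ _ _ _ fun t ht => ?_
  have e1 : ((a, b) : ℤ × ℤ) + (t : ℤ) • dv 2 = (a - t, b) := by
    rw [dv2]; ext
    · simp; ring
    · simp
  have e2 : ((a - t, b) : ℤ × ℤ) + dv 2 = (a - t - 1, b) := by
    rw [dv2]; ext
    · simp; ring
    · simp
  rw [e1, e2, h _ (by omega) (by omega)]
  push_cast
  ring

theorem seg3 (ψ : (ℤ × ℤ) × (ℤ × ℤ) → ℝ) (a b : ℤ) (n : ℕ) (c : ℝ)
    (h : ∀ y : ℤ, b - n < y → y ≤ b → ψ ((a, y), (a, y - 1)) = c - 3 * (π / 12)) :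
    thL (segm id (a, b) 3 n) ψ = List.replicate n c := by
  refine thL_segm ψ _ _ _ _ fun t ht => ?_
  have e1 : ((a, b) : ℤ × ℤ) + (t : ℤ) • dv 3 = (a, b - t) := by
    rw [dv3]; ext
    · simp
    · simp; ring
  have e2 : ((a, b - t) : ℤ × ℤ) + dv 3 = (a, b - t - 1) := by
    rw [dv3]; ext
    · simp
    · simp; ring
  rw [e1, e2, h _ (by omega) (by omega)]
  push_cast
  ring

/-! ## The rectangle -/

section rect

variable {r : ℕ} {τ : ℕ → ℝ}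

theorem rDisc (hr : 0 < r) : Disc ZQ (rF r : Set (ℤ × ℤ)) (Glued ZQ (rF r : Set (ℤ × ℤ)))
    (rectW 0 (16 * r) 0 (8 * r)) := disc_RF (by omega) (by omega)

theorem rTh (r : ℕ) (τ : ℕ → ℝ) : thL (rectW 0 (16 * r) 0 (8 * r)) (rPs r τ) =
    blk τ [8 * r, 8 * r, 8 * r, 8 * r, 8 * r, 8 * r] 0 := by
  unfold rectW
  rw [show (16 * (r : ℤ) - 0).toNat = 8 * r + 8 * r by omega, show (8 * (r : ℤ) - 0).toNat = 8 * r by omega,
    segm_add, segm_add]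
  have e1 : ((0, 0) : ℤ × ℤ) + ((8 * r : ℕ) : ℤ) • dv 0 = (8 * (r : ℤ), (0 : ℤ)) := by
    rw [dv0]; ext <;> simp
  have e2 : ((16 * r, 8 * r) : ℤ × ℤ) + ((8 * r : ℕ) : ℤ) • dv 2 = (8 * (r : ℤ), 8 * (r : ℤ)) := by
    rw [dv2]; ext
    · simp; ring
    · simp
  rw [e1, e2]
  simp only [thL_append, List.append_assoc]
  rw [seg0 _ 0 0 _ (τ 0) fun x h1 h2 => rPs_b0 (by omega) (by push_cast at h2; omega),
    seg0 _ (8 * r) 0 _ (τ 1) fun x h1 h2 => rPs_b1 (by omega) (by push_cast at h2; omega),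
    seg1 _ (16 * r) 0 _ (τ 2) fun y h1 h2 => rPs_r (by omega) (by omega),
    seg2 _ (16 * r) (8 * r) _ (τ 3) fun x h1 h2 => rPs_t0 (by omega) (by omega) (by push_cast at h1; omega),
    seg2 _ (8 * r) (8 * r) _ (τ 4) fun x h1 h2 => rPs_t1 (by omega) (by omega) (by omega),
    seg3 _ 0 (8 * r) _ (τ 5) fun y h1 h2 => rPs_l (by omega) (by omega)]
  simp [blk]

/-- positivity for the rectangle -/
theorem rW_nonneg (hr : 0 < r) {l : List ℝ} (hl : RngOK l) (h5 : l.length = 5) (ω : ℤ × ℤ → Bool) :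
    0 ≤ WZ ZQ (rF r) (rPs r (ps l)) (bS ZQ (rF r)) ω := by
  refine WZ_nonneg (rDisc hr) _ ?_ ω
  rw [rTh]
  exact blk_rng hl (by simp [h5])

theorem rPs_neg (r : ℕ) {τ τ' : ℕ → ℝ} (h0 : τ' 0 = -τ 0) (h1 : τ' 1 = -τ 1) (h2 : τ' 2 = π / 6 - τ 2)
    (h3 : τ' 3 = π / 3 - τ 3) (h4 : τ' 4 = π / 3 - τ 4) (h5 : τ' 5 = π / 2 - τ 5) :
    rPs r τ' = fun b => -rPs r τ b := by
  funext b
  unfold rPs
  split_ifs
  · exact h0
  · exact h1
  · rw [h2]; ring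
  · rw [h3]; ring
  · rw [h4]; ring
  · rw [h5]; ring

theorem r_av_eq (hr : 0 < r) {τ τ' : ℕ → ℝ} (h0 : τ' 0 = -τ 0) (h1 : τ' 1 = -τ 1) (h2 : τ' 2 = π / 6 - τ 2)
    (h3 : τ' 3 = π / 3 - τ 3) (h4 : τ' 4 = π / 3 - τ 4) (h5 : τ' 5 = π / 2 - τ 5) :
    av (rF r) (WZ ZQ (rF r) (rPs r τ') (bS ZQ (rF r))) = av (rF r) (WZ ZQ (rF r) (rPs r τ) (bS ZQ (rF r))) :=
  av_WZ_neg (rDisc hr) _ _ (rPs_neg r h0 h1 h2 h3 h4 h5)

end rect

/-! ## The L-shape -/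

section lshape

variable {r : ℕ} {τ : ℕ → ℝ}

/-- the word of the L-shape -/
def lW (r : ℕ) : List (((ℤ × ℤ) × (ℤ × ℤ)) × ℤ) :=
  segm id (0, 0) 0 (24 * r) ++ (segm id (24 * r, 0) 1 (8 * r) ++ (segm id (24 * r, 8 * r) 1 (8 * r) ++
    (segm id (24 * r, 16 * r) 2 (8 * r) ++ (segm id (16 * r, 16 * r) 1 (8 * r) ++
      (segm id (16 * r, 24 * r) 2 (8 * r) ++ (segm id (8 * r, 24 * r) 2 (8 * r) ++
        segm id (0, 24 * r) 3 (24 * r)))))))

theorem coe_lF (r : ℕ) : (lF r : Set (ℤ × ℤ)) = RS 0 (24 * r) 0 (16 * r) ∪ RS 0 (16 * r) (16 * r) (24 * r) := by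
  unfold lF
  rw [Finset.coe_union, coe_RF, coe_RF]

theorem lDisc (hr : 0 < r) : Disc ZQ (lF r : Set (ℤ × ℤ)) (Glued ZQ (lF r : Set (ℤ × ℤ))) (lW r) := by
  have hA := disc_RS (x₀ := 0) (x₁ := 24 * r) (y₀ := 0) (y₁ := 16 * r) (by omega) (by omega)
  have hB := disc_RS (x₀ := 0) (x₁ := 16 * r) (y₀ := 16 * r) (y₁ := 24 * r) (by omega) (by omega)
  obtain ⟨k, hk⟩ : ∃ k : ℕ, 16 * r = k + 1 := ⟨16 * r - 1, by omega⟩
  have hd : Disjoint (RS 0 (24 * r) 0 (16 * r)) (RS 0 (16 * r) (16 * r) (24 * r)) := by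
    rw [Set.disjoint_left]
    rintro f ⟨-, -, -, h1⟩ ⟨-, -, h2, -⟩
    omega
  unfold rectW at hA hB
  rw [show (24 * (r : ℤ) - 0).toNat = 24 * r by omega, show (16 * (r : ℤ) - 0).toNat = 16 * r by omega] at hA
  rw [show (16 * (r : ℤ) - 0).toNat = 16 * r by omega, show (24 * (r : ℤ) - 16 * r).toNat = 8 * r by omega] at hB
  have e24 : 24 * r = 8 * r + 16 * r := by omega
  have eS : segm id ((24 * r, 16 * r) : ℤ × ℤ) 2 (24 * r) =
      segm id (24 * r, 16 * r) 2 (8 * r) ++ segm id (16 * r, 16 * r) 2 (16 * r) := by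
    rw [e24, segm_add]
    congr 2
    rw [dv2]; ext
    · simp; ring
    · simp
  rw [eS] at hA
  have e1 : ((16 * r, 16 * r) : ℤ × ℤ) + ((k + 1 : ℕ) : ℤ) • dv 2 = ((0 : ℤ), 16 * (r : ℤ)) := by
    rw [← hk, dv2]; ext <;> simp
  obtain ⟨G, h⟩ := Disc.seg_paste (Q := ZQ) (n := k) (pos := id)
    (u := segm id (0, 0) 0 (24 * r) ++ (segm id (24 * r, 0) 1 (16 * r) ++ segm id (24 * r, 16 * r) 2 (8 * r)))
    (p := ((16 * r, 16 * r) : ℤ × ℤ)) (a := 2) (v := segm id (0, 16 * r) 3 (16 * r)) (u' := [])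
    (v' := segm id (16 * r, 16 * r) 1 (8 * r) ++ (segm id (16 * r, 24 * r) 2 (16 * r) ++
      segm id (0, 24 * r) 3 (8 * r)))
    (hA.cast rfl rfl (by rw [← hk]; simp only [List.append_assoc]))
    (hB.cast rfl rfl (by rw [e1, ← hk]; rfl)) hd
  have hw : segm id (0, 0) 0 (24 * r) ++ (segm id (24 * r, 0) 1 (16 * r) ++ segm id (24 * r, 16 * r) 2 (8 * r)) ++
      ((segm id (16 * r, 16 * r) 1 (8 * r) ++ (segm id (16 * r, 24 * r) 2 (16 * r) ++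
      segm id (0, 24 * r) 3 (8 * r))) ++ (SixB.lft 4 [] ++ segm id (0, 16 * r) 3 (16 * r))) = lW r := by
    have e2 : segm id ((24 * r, 0) : ℤ × ℤ) 1 (16 * r) = segm id (24 * r, 0) 1 (8 * r) ++
        segm id (24 * r, 8 * r) 1 (8 * r) := by
      rw [show 16 * r = 8 * r + 8 * r by omega, segm_add]
      congr 2
      rw [dv1]; ext <;> simp
    have e3 : segm id ((16 * r, 24 * r) : ℤ × ℤ) 2 (16 * r) = segm id (16 * r, 24 * r) 2 (8 * r) ++
        segm id (8 * r, 24 * r) 2 (8 * r) := by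
      rw [show 16 * r = 8 * r + 8 * r by omega, segm_add]
      congr 2
      rw [dv2]; ext
      · simp; ring
      · simp
    have e4 : segm id ((0, 24 * r) : ℤ × ℤ) 3 (24 * r) = segm id (0, 24 * r) 3 (8 * r) ++
        segm id (0, 16 * r) 3 (16 * r) := by
      rw [e24, segm_add]
      congr 2
      rw [dv3]; ext
      · simp
      · simp; ring
    rw [e2, e3, lft_nil]
    unfold lW
    rw [e4]
    simp only [List.append_assoc, List.nil_append]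
  rw [coe_lF]
  refine (h.cast rfl rfl hw).complete ?_
  intro z hz
  unfold lW at hz
  simp only [List.mem_append] at hz
  rcases hz with hz | hz | hz | hz | hz | hz | hz | hz
  · obtain ⟨i, hi, rfl⟩ := mem_segmP hz
    simp only [id]
    rw [swap_mem_sides_ZQ, dv0]
    unfold lface RS
    simp
    try omega
  · obtain ⟨i, hi, rfl⟩ := mem_segmP hz
    simp only [id]
    rw [swap_mem_sides_ZQ, dv1]
    unfold lface RS
    simp
    try omega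
  · obtain ⟨i, hi, rfl⟩ := mem_segmP hz
    simp only [id]
    rw [swap_mem_sides_ZQ, dv1]
    unfold lface RS
    simp
    try omega
  · obtain ⟨i, hi, rfl⟩ := mem_segmP hz
    simp only [id]
    rw [swap_mem_sides_ZQ, dv2]
    unfold lface RS
    simp
    try omega
  · obtain ⟨i, hi, rfl⟩ := mem_segmP hz
    simp only [id]
    rw [swap_mem_sides_ZQ, dv1]
    unfold lface RS
    simp
    try omega
  · obtain ⟨i, hi, rfl⟩ := mem_segmP hz
    simp only [id]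
    rw [swap_mem_sides_ZQ, dv2]
    unfold lface RS
    simp
    try omega
  · obtain ⟨i, hi, rfl⟩ := mem_segmP hz
    simp only [id]
    rw [swap_mem_sides_ZQ, dv2]
    unfold lface RS
    simp
    try omega
  · obtain ⟨i, hi, rfl⟩ := mem_segmP hz
    simp only [id]
    rw [swap_mem_sides_ZQ, dv3]
    unfold lface RS
    simp
    try omega

theorem lTh (r : ℕ) (τ : ℕ → ℝ) : thL (lW r) (lPs r τ) =
    blk τ [24 * r, 8 * r, 8 * r, 8 * r, 8 * r, 8 * r, 8 * r, 24 * r] 0 := by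
  unfold lW
  simp only [thL_append]
  rw [seg0 _ 0 0 _ (τ 0) fun x h1 h2 => lPs_b (by omega),
    seg1 _ (24 * r) 0 _ (τ 1) fun y h1 h2 => lPs_r1 (by omega) (by omega) (by push_cast at h2; omega),
    seg1 _ (24 * r) (8 * r) _ (τ 2) fun y h1 h2 => lPs_r2 (by omega) (by omega)
      ⟨by omega, by push_cast at h2; omega⟩,
    seg2 _ (24 * r) (16 * r) _ (τ 3) fun x h1 h2 => lPs_t3 (by omega) (by omega) (by push_cast at h1; omega),
    seg1 _ (16 * r) (16 * r) _ (τ 4) fun y h1 h2 => lPs_r4 (by omega) (by omega) (by omega),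
    seg2 _ (16 * r) (24 * r) _ (τ 5) fun x h1 h2 => lPs_t5 (by omega) (by omega)
      ⟨by push_cast at h1; omega, by omega⟩,
    seg2 _ (8 * r) (24 * r) _ (τ 6) fun x h1 h2 => lPs_t6 (by omega) (by omega) (by omega),
    seg3 _ 0 (24 * r) _ (τ 7) fun y h1 h2 => lPs_l (by omega) (by omega)]
  simp [blk]

/-- positivity for the L-shape -/
theorem lW_nonneg (hr : 0 < r) {l : List ℝ} (hl : RngOK l) (h7 : l.length = 7) (ω : ℤ × ℤ → Bool) :
    0 ≤ WZ ZQ (lF r) (lPs r (ps l)) (bS ZQ (lF r)) ω := by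
  refine WZ_nonneg (lDisc hr) _ ?_ ω
  rw [lTh]
  exact blk_rng hl (by simp [h7])

theorem lPs_neg (r : ℕ) {τ τ' : ℕ → ℝ} (h0 : τ' 0 = -τ 0) (h1 : τ' 1 = π / 6 - τ 1) (h2 : τ' 2 = π / 6 - τ 2)
    (h3 : τ' 3 = π / 3 - τ 3) (h4 : τ' 4 = π / 6 - τ 4) (h5 : τ' 5 = π / 3 - τ 5) (h6 : τ' 6 = π / 3 - τ 6)
    (h7 : τ' 7 = π / 2 - τ 7) : lPs r τ' = fun b => -lPs r τ b := by
  funext b
  unfold lPs
  split_ifs
  · exact h0
  · rw [h1]; ring
  · rw [h2]; ring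
  · rw [h4]; ring
  · rw [h3]; ring
  · rw [h5]; ring
  · rw [h6]; ring
  · rw [h7]; ring

theorem l_av_eq (hr : 0 < r) {τ τ' : ℕ → ℝ} (h0 : τ' 0 = -τ 0) (h1 : τ' 1 = π / 6 - τ 1)
    (h2 : τ' 2 = π / 6 - τ 2) (h3 : τ' 3 = π / 3 - τ 3) (h4 : τ' 4 = π / 6 - τ 4) (h5 : τ' 5 = π / 3 - τ 5)
    (h6 : τ' 6 = π / 3 - τ 6) (h7 : τ' 7 = π / 2 - τ 7) :
    av (lF r) (WZ ZQ (lF r) (lPs r τ') (bS ZQ (lF r))) = av (lF r) (WZ ZQ (lF r) (lPs r τ) (bS ZQ (lF r))) :=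
  av_WZ_neg (lDisc hr) _ _ (lPs_neg r h0 h1 h2 h3 h4 h5 h6 h7)

end lshape

end

end Pool.Agent.SixB.TP
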