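import Pool.Agent.Lib.SixB.S3TestPolyAt
import Pool.Agent.Lib.SixB.S3TestPolyBt
import Pool.Agent.Lib.SixB.S3TestPolyC
import Pool.Agent.Lib.SixB.S3BlkB

/-!
# 6BD step 3, row R14: the three inequalities from the two bounds for atlases

`pF A`: product of the local factors of an atlas. `UpZ`, `LowZ`: upper and lower bound for planar atlases (inputs;
`LowZ` with a colouring for which the vertices of weight `0` have own colour). `rColr`, `lColr`: the colourings.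
`tF r (d, J)`: local factor of a special vertex (`d = 1` convex, `0` flat, `-1` concave).
* `OkQ t q`: the weights of the flats `-q`, `-(π/3 - q)` are at least `t` (or `0` at the ends);
* `test_R1`: `F(q) F(π/3 - q) ≤ C A⁴ F(-q) F(-(π/3 - q))`, uniform in the `q` with `OkQ t q`;
* `test_R1'`: `A⁴ F(-q) F(-(π/3 - q)) ≤ C F(q) F(π/3 - q)`;
* `test_L`: `A⁵ B F(-π/6)² ≤ C F(π/6)²`.
-/

set_option autoImplicit false
set_option linter.unusedSectionVars false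

namespace Pool.Agent.SixB.TP

open Pool.Agent.Perc.Q Pool.Agent.Perc Real

noncomputable section

/-- product of the local factors of an atlas -/
def pF {F : Finset (ℤ × ℤ)} {ψ : (ℤ × ℤ) × (ℤ × ℤ) → ℝ} {Z : Finset ((ℤ × ℤ) × (ℤ × ℤ))} {r nS nN : ℕ}
    {t₀ : ℝ} (A : Atlas ZQ F ψ Z r nS nN t₀) : ℝ :=
  letI := A.fκ
  ∏ i, sF (A.K i) (A.m i) r

/-- upper bound for planar atlases -/
def UpZ : Prop := ∀ (nS nN : ℕ) (t₀ : ℝ), 0 < t₀ → t₀ ≤ 1 → ∃ C : ℝ, ∀ (F : Finset (ℤ × ℤ))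
  (ψ : (ℤ × ℤ) × (ℤ × ℤ) → ℝ) (r : ℕ), 0 < r → ∀ A : Atlas ZQ F ψ (bS ZQ F) r nS nN t₀,
    av F (fun ω => |WZ ZQ F ψ (bS ZQ F) ω|) ≤ C * pF A

/-- lower bound for planar atlases: a colouring for which the vertices of weight `0` have own colour -/
def LowZ : Prop := ∀ (nS nN : ℕ) (t₀ : ℝ), 0 < t₀ → t₀ ≤ 1 → ∃ c : ℝ, 0 < c ∧ ∀ (F : Finset (ℤ × ℤ))
  (ψ : (ℤ × ℤ) × (ℤ × ℤ) → ℝ) (r : ℕ), 0 < r → ∀ (A : Atlas ZQ F ψ (bS ZQ F) r nS nN t₀)
    (D : ℤ × ℤ → Bool) (hD : Bk.Colr A D),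
    (∀ i, sT (A.K i) = 0 → (∃ J, A.K i = .ver J) ∧ (hD.cS i - ((A.v i).1 + (A.v i).2)) % 2 ≠ 0) →
    (∀ ω, 0 ≤ WZ ZQ F ψ (bS ZQ F) ω) → c * pF A ≤ av F (WZ ZQ F ψ (bS ZQ F))

/-- the colouring of the rectangle -/
def rColr {r : ℕ} (hr : 0 < r) (τ : ℕ → ℝ) (t₀ : ℝ)
    (ht : ∀ i, t₀ ≤ tJ (rJ τ i) ∨ (rJ τ i = -(π / 3) ∧ rM i = 2)) (c : ℤ) :
    Bk.Colr (rAt hr τ t₀ ht) (fun f => !parD c f) where
  cS := fun _ => c
  cN := fun _ => c
  cM := fun _ => c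
  hS := fun _ _ _ => rfl
  hN := fun _ _ _ => rfl
  hM := fun x => Empty.elim x

/-- the colouring of the L-shape -/
def lColr {r : ℕ} (hr : 0 < r) (τ : ℕ → ℝ) (t₀ : ℝ)
    (ht : ∀ i, t₀ ≤ tJ (lJ τ i) ∨ (lJ τ i = -(π / 3) ∧ lM i = 2)) (c : ℤ) :
    Bk.Colr (lAt hr τ t₀ ht) (fun f => !parD c f) where
  cS := fun _ => c
  cN := fun _ => c
  cM := fun _ => c
  hS := fun _ _ _ => rfl
  hN := fun _ _ _ => rfl
  hM := fun x => Empty.elim x

/-- at most one vertex of weight `0`: own colour -/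
theorem own_one {n : ℕ} {v : Fin n → ℤ × ℤ} {J : Fin n → ℝ} (k : Fin n) (h : ∀ i, i ≠ k → tJ (J i) ≠ 0)
    (i : Fin n) (hi : tJ (J i) = 0) :
    (∃ J', SK.ver (J i) = SK.ver J') ∧ ((v k).1 + (v k).2 + 1 - ((v i).1 + (v i).2)) % 2 ≠ 0 := by
  have e : i = k := by
    by_contra h1
    exact h i h1 hi
  subst e
  exact ⟨⟨_, rfl⟩, by omega⟩

/-- local factors in the form of `nstar_prod` -/
def tF (r : ℕ) (v : ℤ × ℝ) : ℝ := sF (.ver v.2) (2 - v.1).toNat r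

theorem tF_flat (r : ℕ) (J : ℝ) : tF r (0, J) = sF (.ver J) 2 r := rfl

theorem tF_conv (r : ℕ) (J : ℝ) : tF r (1, J) = sF (.ver J) 1 r := rfl

theorem tF_conc (r : ℕ) (J : ℝ) : tF r (-1, J) = sF (.ver J) 3 r := rfl

theorem sF_zero (m r : ℕ) : sF (.ver 0) m r = 1 := by
  unfold sF sT
  simp only [tJ_zero, one_pow]
  exact av_const _

theorem exists_t0 {n : ℕ} (m : Fin n → ℕ) (J : Fin n → ℝ)
    (h : ∀ i, 0 < tJ (J i) ∨ (J i = -(π / 3) ∧ m i = 2)) :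
    ∃ t₀ : ℝ, 0 < t₀ ∧ t₀ ≤ 1 ∧ ∀ i, t₀ ≤ tJ (J i) ∨ (J i = -(π / 3) ∧ m i = 2) := by
  set g : Fin n → ℝ := fun i => min 1 (if 0 < tJ (J i) then tJ (J i) else 1) with hg
  have g0 : ∀ i, 0 < g i := by
    intro i
    simp only [hg]
    refine lt_min one_pos ?_
    split_ifs with h1
    · exact h1
    · exact one_pos
  have g1 : ∀ i, g i ≤ 1 := fun i => min_le_left _ _
  refine ⟨∏ i, g i, Finset.prod_pos fun i _ => g0 i, Finset.prod_le_one (fun i _ => (g0 i).le) fun i _ => g1 i, ?_⟩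
  intro i
  rcases h i with h1 | h1
  · left
    calc ∏ i, g i = g i * ∏ j ∈ Finset.univ.erase i, g j := (Finset.mul_prod_erase _ _ (Finset.mem_univ i)).symm
      _ ≤ g i * 1 := mul_le_mul_of_nonneg_left
        (Finset.prod_le_one (fun j _ => (g0 j).le) fun j _ => g1 j) (g0 i).le
      _ ≤ tJ (J i) := by
        rw [mul_one]
        simp only [hg, h1, if_true]
        exact min_le_right _ _
  · exact Or.inr h1

/-! ## The jumps -/

/-- jumps of the rectangle: flats `q`, `π/3 - q`, natural corners -/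
def lP (q : ℝ) : List ℝ := [q, 0, 0, π / 3 - q, 0]

/-- the mirror image -/
def lM' (q : ℝ) : List ℝ := [-q, π / 6, π / 6, -(π / 3 - q), π / 6]

theorem rng_lP {q : ℝ} (hq : 0 ≤ q) (hq' : q ≤ π / 3) : RngOK (lP q) := by
  intro a b hab hb
  have hπ := pi_pos
  simp only [lP, List.length_cons, List.length_nil] at hb
  interval_cases b <;> interval_cases a <;> refine ⟨?_, ?_⟩ <;>
    simp only [ps, lP, List.take, List.sum_cons, List.sum_nil] <;> linarith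

theorem rng_lM {q : ℝ} (hq : 0 ≤ q) (hq' : q ≤ π / 3) : RngOK (lM' q) := by
  intro a b hab hb
  have hπ := pi_pos
  simp only [lM', List.length_cons, List.length_nil] at hb
  interval_cases b <;> interval_cases a <;> refine ⟨?_, ?_⟩ <;>
    simp only [ps, lM', List.take, List.sum_cons, List.sum_nil] <;> linarith

theorem rJ_lP (q : ℝ) : rJ (ps (lP q)) = ![0, q, 0, 0, π / 3 - q, 0] := by
  unfold rJ
  funext i
  fin_cases i <;> simp [ps, lP]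

theorem rJ_lM (q : ℝ) : rJ (ps (lM' q)) = ![π / 6, -q, π / 6, π / 6, -(π / 3 - q), π / 6] := by
  unfold rJ
  funext i
  fin_cases i <;> simp [ps, lM'] <;> ring

theorem pF_rAt {r : ℕ} (hr : 0 < r) (τ : ℕ → ℝ) (t₀ : ℝ)
    (ht : ∀ i, t₀ ≤ tJ (rJ τ i) ∨ (rJ τ i = -(π / 3) ∧ rM i = 2)) :
    pF (rAt hr τ t₀ ht) = ∏ i : Fin 6, sF (.ver (rJ τ i)) (rM i) r := rfl

theorem prod_lP (r : ℕ) (q : ℝ) : ∏ i : Fin 6, sF (.ver (rJ (ps (lP q)) i)) (rM i) r =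
    tF r (0, q) * tF r (0, π / 3 - q) := by
  rw [rJ_lP, Fin.prod_univ_six]
  simp only [rM, Matrix.cons_val, sF_zero, one_mul, mul_one]
  rfl

theorem prod_lM (r : ℕ) (q : ℝ) : ∏ i : Fin 6, sF (.ver (rJ (ps (lM' q)) i)) (rM i) r =
    tF r (1, π / 6) ^ 4 * (tF r (0, -q) * tF r (0, -(π / 3 - q))) := by
  rw [rJ_lM, Fin.prod_univ_six]
  simp only [rM, Matrix.cons_val]
  rw [tF_conv, tF_flat, tF_flat]
  ring

theorem av_lP_lM {r : ℕ} (hr : 0 < r) (q : ℝ) :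
    av (rF r) (WZ ZQ (rF r) (rPs r (ps (lM' q))) (bS ZQ (rF r))) =
      av (rF r) (WZ ZQ (rF r) (rPs r (ps (lP q))) (bS ZQ (rF r))) := by
  refine r_av_eq hr ?_ ?_ ?_ ?_ ?_ ?_ <;> simp [ps, lP, lM'] <;> ring

theorem av_le_abs {S : Finset (ℤ × ℤ)} (g : (ℤ × ℤ → Bool) → ℝ) : av S g ≤ av S fun ω => |g ω| :=
  av_mono fun _ _ => le_abs_self _

/-- the weights of the two flats and of their mirror images are at least `t` or `0` at the ends -/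
def OkQ (t q : ℝ) : Prop := 0 ≤ q ∧ q ≤ π / 3 ∧ (t ≤ tJ (-q) ∨ q = π / 3) ∧ (t ≤ tJ (-(π / 3 - q)) ∨ q = 0)

theorem one_le_tJ {J : ℝ} (h1 : 0 ≤ J) (h2 : J ≤ π / 3) : 1 ≤ tJ J := by
  have hπ := pi_pos
  unfold tJ
  rw [le_div_iff₀ cos_sixth_pos, one_mul, ← cos_abs (J - π / 6)]
  refine cos_le_cos_of_nonneg_of_le_pi (abs_nonneg _) (by linarith) ?_
  rw [abs_le]
  constructor <;> linarith

theorem OkQ.mono {t t' q : ℝ} (h : OkQ t q) (ht : t' ≤ t) : OkQ t' q :=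
  ⟨h.1, h.2.1, h.2.2.1.imp ht.trans id, h.2.2.2.imp ht.trans id⟩

theorem okQ_zero {t : ℝ} (ht : t ≤ 1) : OkQ t 0 := by
  have hπ := pi_pos
  refine ⟨le_rfl, by linarith, Or.inl ?_, Or.inr rfl⟩
  rw [neg_zero]
  exact ht.trans (one_le_tJ le_rfl (by linarith))

theorem okQ_symm {t q : ℝ} (h : OkQ t q) : OkQ t (π / 3 - q) := by
  obtain ⟨h1, h2, h3, h4⟩ := h
  refine ⟨by linarith, by linarith, h4.imp id fun h5 => by linarith, ?_⟩
  rw [show -(π / 3 - (π / 3 - q)) = -q by ring]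
  exact h3.imp id fun h5 => by linarith

theorem exists_okQ {q : ℝ} (h1 : 0 < q) (h2 : q < π / 3) : ∃ t : ℝ, 0 < t ∧ t ≤ 1 ∧ OkQ t q := by
  have hπ := pi_pos
  have h3 : 0 < tJ (-q) := tJ_pos (by linarith) (by linarith)
  have h4 : 0 < tJ (-(π / 3 - q)) := tJ_pos (by linarith) (by linarith)
  exact ⟨min 1 (min (tJ (-q)) (tJ (-(π / 3 - q)))), lt_min one_pos (lt_min h3 h4), min_le_left _ _, h1.le,
    h2.le, Or.inl ((min_le_right _ _).trans (min_le_left _ _)),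
    Or.inl ((min_le_right _ _).trans (min_le_right _ _))⟩

theorem tpos_lP {t q : ℝ} (ht : t ≤ 1) (hq : 0 ≤ q) (hq' : q ≤ π / 3) (i : Fin 6) :
    t ≤ tJ (rJ (ps (lP q)) i) ∨ (rJ (ps (lP q)) i = -(π / 3) ∧ rM i = 2) := by
  have hπ := pi_pos
  left
  rw [rJ_lP]
  refine ht.trans ?_
  fin_cases i
  · exact one_le_tJ (J := 0) (by linarith) (by linarith)
  · exact one_le_tJ (J := q) (by linarith) (by linarith)
  · exact one_le_tJ (J := 0) (by linarith) (by linarith)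
  · exact one_le_tJ (J := 0) (by linarith) (by linarith)
  · exact one_le_tJ (J := π / 3 - q) (by linarith) (by linarith)
  · exact one_le_tJ (J := 0) (by linarith) (by linarith)

theorem tpos_lM {t q : ℝ} (ht : t ≤ 1) (h : OkQ t q) (i : Fin 6) :
    t ≤ tJ (rJ (ps (lM' q)) i) ∨ (rJ (ps (lM' q)) i = -(π / 3) ∧ rM i = 2) := by
  have hπ := pi_pos
  obtain ⟨hq, hq', h3, h4⟩ := h
  have h5 : t ≤ tJ (π / 6) := ht.trans (one_le_tJ (by linarith) (by linarith))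
  rw [rJ_lM]
  fin_cases i
  · exact Or.inl h5
  · refine h3.imp id fun h => ⟨?_, rfl⟩
    show -q = -(π / 3)
    rw [h]
  · exact Or.inl h5
  · exact Or.inl h5
  · refine h4.imp id fun h => ⟨?_, rfl⟩
    show -(π / 3 - q) = -(π / 3)
    rw [h, sub_zero]
  · exact Or.inl h5

theorem tne_lP {q : ℝ} (hq : 0 ≤ q) (hq' : q ≤ π / 3) (i : Fin 6) : tJ (rJ (ps (lP q)) i) ≠ 0 := by
  have hπ := pi_pos
  refine ne_of_gt ?_
  rw [rJ_lP]
  fin_cases i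
  · exact tJ_pos (J := 0) (by linarith) (by linarith)
  · exact tJ_pos (J := q) (by linarith) (by linarith)
  · exact tJ_pos (J := 0) (by linarith) (by linarith)
  · exact tJ_pos (J := 0) (by linarith) (by linarith)
  · exact tJ_pos (J := π / 3 - q) (by linarith) (by linarith)
  · exact tJ_pos (J := 0) (by linarith) (by linarith)

/-- at most one flat of weight `0` -/
theorem tne_lM {q : ℝ} (hq : 0 ≤ q) (hq' : q ≤ π / 3) :
    ∃ k : Fin 6, ∀ i, i ≠ k → tJ (rJ (ps (lM' q)) i) ≠ 0 := by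
  have hπ := pi_pos
  have h1 : 0 < tJ (π / 6) := tJ_pos (by linarith) (by linarith)
  rw [rJ_lM]
  rcases hq.lt_or_eq with h0 | h0
  · refine ⟨1, fun i hi => ne_of_gt ?_⟩
    have h2 : 0 < tJ (-(π / 3 - q)) := tJ_pos (by linarith) (by linarith)
    fin_cases i
    exacts [h1, absurd rfl hi, h1, h1, h2, h1]
  · refine ⟨4, fun i hi => ne_of_gt ?_⟩
    have h2 : 0 < tJ (-q) := tJ_pos (by linarith) (by linarith)
    fin_cases i
    exacts [h1, h2, h1, h1, absurd rfl hi, h1]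

theorem sF_nonneg {K : SK} (h : 0 ≤ sT K) (m r : ℕ) : 0 ≤ sF K m r := by
  unfold sF
  exact av_nonneg fun _ _ => pow_nonneg h _

theorem tF_nonneg {J : ℝ} (h : Rng J) (r : ℕ) (d : ℤ) : 0 ≤ tF r (d, J) :=
  sF_nonneg (K := .ver J) (tJ_nonneg h) _ _

/-- from a lower bound for `W` and an upper bound for its mirror image -/
theorem combine {S : Finset (ℤ × ℤ)} {g g' : (ℤ × ℤ → Bool) → ℝ} {c C X Y : ℝ} (hc : 0 < c) (hY : 0 ≤ Y)
    (h1 : c * X ≤ av S g) (h2 : av S g = av S g') (h3 : av S (fun ω => |g' ω|) ≤ C * Y) :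
    X ≤ max (C / c) 0 * Y := by
  have e3 := ((h1.trans h2.le).trans (av_le_abs _)).trans h3
  have e4 : X ≤ C / c * Y := by
    rw [div_mul_eq_mul_div, le_div_iff₀ hc]
    linarith
  exact e4.trans (mul_le_mul_of_nonneg_right (le_max_left _ _) hY)

/-- **(R1)**, uniform in `q` -/
theorem test_R1 (hU : UpZ) (hL : LowZ) {t : ℝ} (ht0 : 0 < t) (ht1 : t ≤ 1) :
    ∃ C : ℝ, 0 ≤ C ∧ ∀ q : ℝ, OkQ t q → ∀ r : ℕ, 0 < r → tF r (0, q) * tF r (0, π / 3 - q) ≤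
      C * (tF r (1, π / 6) ^ 4 * (tF r (0, -q) * tF r (0, -(π / 3 - q)))) := by
  have hπ := pi_pos
  obtain ⟨c, hc, hlow⟩ := hL 6 12 t ht0 ht1
  obtain ⟨C, hup⟩ := hU 6 12 t ht0 ht1
  refine ⟨max (C / c) 0, le_max_right _ _, fun q hok r hr => ?_⟩
  have hq := hok.1
  have hq' := hok.2.1
  have e1 := hlow _ _ r hr (rAt hr (ps (lP q)) t (tpos_lP ht1 hq hq')) _ (rColr hr (ps (lP q)) t _ _)
    (own_one (v := rV r) 0 fun i _ => (tne_lP hq hq' i)) (rW_nonneg hr (rng_lP hq hq') rfl)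
  have e2 := hup _ _ r hr (rAt hr (ps (lM' q)) t (tpos_lM ht1 hok))
  rw [pF_rAt, prod_lP] at e1
  rw [pF_rAt, prod_lM] at e2
  refine combine hc ?_ e1 (av_lP_lM hr q).symm e2
  exact mul_nonneg (pow_nonneg (tF_nonneg ⟨by linarith, by linarith⟩ _ _) _)
    (mul_nonneg (tF_nonneg ⟨by linarith, by linarith⟩ _ _) (tF_nonneg ⟨by linarith, by linarith⟩ _ _))

/-- **(R1')**, uniform in `q` -/
theorem test_R1' (hU : UpZ) (hL : LowZ) {t : ℝ} (ht0 : 0 < t) (ht1 : t ≤ 1) :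
    ∃ C : ℝ, 0 ≤ C ∧ ∀ q : ℝ, OkQ t q → ∀ r : ℕ, 0 < r →
      tF r (1, π / 6) ^ 4 * (tF r (0, -q) * tF r (0, -(π / 3 - q))) ≤
        C * (tF r (0, q) * tF r (0, π / 3 - q)) := by
  have hπ := pi_pos
  obtain ⟨c, hc, hlow⟩ := hL 6 12 t ht0 ht1
  obtain ⟨C, hup⟩ := hU 6 12 t ht0 ht1
  refine ⟨max (C / c) 0, le_max_right _ _, fun q hok r hr => ?_⟩
  have hq := hok.1
  have hq' := hok.2.1
  obtain ⟨k, hk⟩ := tne_lM hq hq'
  have e1 := hlow _ _ r hr (rAt hr (ps (lM' q)) t (tpos_lM ht1 hok)) _ (rColr hr (ps (lM' q)) t _ _)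
    (own_one (v := rV r) k hk) (rW_nonneg hr (rng_lM hq hq') rfl)
  have e2 := hup _ _ r hr (rAt hr (ps (lP q)) t (tpos_lP ht1 hq hq'))
  rw [pF_rAt, prod_lM] at e1
  rw [pF_rAt, prod_lP] at e2
  refine combine hc ?_ e1 (av_lP_lM hr q) e2
  exact mul_nonneg (tF_nonneg ⟨by linarith, by linarith⟩ _ _) (tF_nonneg ⟨by linarith, by linarith⟩ _ _)

/-- (R1') at `q = 0`: `A⁴ b ≤ C` -/
theorem test_b (hU : UpZ) (hL : LowZ) : ∃ C : ℝ, 0 ≤ C ∧ ∀ r : ℕ, 0 < r →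
    tF r (1, π / 6) ^ 4 * tF r (0, -(π / 3)) ≤ C := by
  have hπ := pi_pos
  obtain ⟨C, hC, h⟩ := test_R1' hU hL one_pos le_rfl
  refine ⟨C, hC, fun r hr => ?_⟩
  have h1 := h 0 (okQ_zero le_rfl) r hr
  have e1 : ∀ d : ℤ, tF r (d, 0) = 1 := fun d => sF_zero _ _
  have e2 : tF r (0, π / 3) = 1 := by
    rw [tF_flat]
    unfold sF sT
    simp only [tJ_third, one_pow]
    exact av_const _
  rw [neg_zero, sub_zero, e1, e2] at h1
  simpa using h1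

/-! ## The L-shape -/

/-- jumps of the L-shape: two flats `π/6`, natural corners -/
def kP : List ℝ := [0, π / 6, 0, 0, 0, π / 6, 0]

/-- the mirror image -/
def kM : List ℝ := [π / 6, -(π / 6), π / 6, -(π / 6), π / 6, -(π / 6), π / 6]

theorem rng_kM : RngOK kM := by
  intro a b hab hb
  have hπ := pi_pos
  simp only [kM, List.length_cons, List.length_nil] at hb
  interval_cases b <;> interval_cases a <;> refine ⟨?_, ?_⟩ <;>
    simp only [ps, kM, List.take, List.sum_cons, List.sum_nil] <;> linarith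

theorem lJ_kP : lJ (ps kP) = ![0, 0, π / 6, 0, 0, 0, π / 6, 0] := by
  unfold lJ
  funext i
  fin_cases i <;> simp [ps, kP] <;> ring

theorem lJ_kM : lJ (ps kM) = ![π / 6, π / 6, -(π / 6), π / 6, -(π / 6), π / 6, -(π / 6), π / 6] := by
  unfold lJ
  funext i
  fin_cases i <;> simp [ps, kM] <;> ring

theorem pF_lAt {r : ℕ} (hr : 0 < r) (τ : ℕ → ℝ) (t₀ : ℝ)
    (ht : ∀ i, t₀ ≤ tJ (lJ τ i) ∨ (lJ τ i = -(π / 3) ∧ lM i = 2)) :
    pF (lAt hr τ t₀ ht) = ∏ i : Fin 8, sF (.ver (lJ τ i)) (lM i) r := rfl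

theorem prod_kP (r : ℕ) : ∏ i : Fin 8, sF (.ver (lJ (ps kP) i)) (lM i) r = tF r (0, π / 6) ^ 2 := by
  rw [lJ_kP, Fin.prod_univ_eight]
  simp only [lM, Matrix.cons_val, sF_zero, one_mul, mul_one]
  rw [tF_flat]
  ring

theorem prod_kM (r : ℕ) : ∏ i : Fin 8, sF (.ver (lJ (ps kM) i)) (lM i) r =
    tF r (1, π / 6) ^ 5 * tF r (-1, -(π / 6)) * tF r (0, -(π / 6)) ^ 2 := by
  rw [lJ_kM, Fin.prod_univ_eight]
  simp only [lM, Matrix.cons_val]
  rw [tF_conv, tF_flat, tF_conc]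
  ring

theorem av_kP_kM {r : ℕ} (hr : 0 < r) :
    av (lF r) (WZ ZQ (lF r) (lPs r (ps kM)) (bS ZQ (lF r))) =
      av (lF r) (WZ ZQ (lF r) (lPs r (ps kP)) (bS ZQ (lF r))) := by
  refine l_av_eq hr ?_ ?_ ?_ ?_ ?_ ?_ ?_ ?_ <;> simp [ps, kP, kM] <;> ring

theorem tpos_kP (i : Fin 8) : 0 < tJ (lJ (ps kP) i) ∨ (lJ (ps kP) i = -(π / 3) ∧ lM i = 2) := by
  have hπ := pi_pos
  have h0 : 0 < tJ 0 := tJ_pos (by linarith) (by linarith)
  have h1 : 0 < tJ (π / 6) := tJ_pos (by linarith) (by linarith)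
  left
  rw [lJ_kP]
  fin_cases i
  exacts [h0, h0, h1, h0, h0, h0, h1, h0]

theorem tpos_kM (i : Fin 8) : 0 < tJ (lJ (ps kM) i) ∨ (lJ (ps kM) i = -(π / 3) ∧ lM i = 2) := by
  have hπ := pi_pos
  have h0 : 0 < tJ (-(π / 6)) := tJ_pos (by linarith) (by linarith)
  have h1 : 0 < tJ (π / 6) := tJ_pos (by linarith) (by linarith)
  left
  rw [lJ_kM]
  fin_cases i
  exacts [h1, h1, h0, h1, h0, h1, h0, h1]

theorem tne_kM (i : Fin 8) : tJ (lJ (ps kM) i) ≠ 0 := by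
  have hπ := pi_pos
  have h0 : 0 < tJ (-(π / 6)) := tJ_pos (by linarith) (by linarith)
  have h1 : 0 < tJ (π / 6) := tJ_pos (by linarith) (by linarith)
  refine ne_of_gt ?_
  rw [lJ_kM]
  fin_cases i
  exacts [h1, h1, h0, h1, h0, h1, h0, h1]

/-- **(L)** -/
theorem test_L (hU : UpZ) (hL : LowZ) : ∃ C : ℝ, 0 ≤ C ∧ ∀ r : ℕ, 0 < r →
    tF r (1, π / 6) ^ 5 * tF r (-1, -(π / 6)) * tF r (0, -(π / 6)) ^ 2 ≤ C * tF r (0, π / 6) ^ 2 := by
  obtain ⟨t₀, h0, h1, ht⟩ := exists_t0 lM _ tpos_kP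
  obtain ⟨t₁, h0', h1', ht'⟩ := exists_t0 lM _ tpos_kM
  obtain ⟨c, hc, hlow⟩ := hL 8 32 t₁ h0' h1'
  obtain ⟨C, hup⟩ := hU 8 32 t₀ h0 h1
  refine ⟨max (C / c) 0, le_max_right _ _, fun r hr => ?_⟩
  have e1 := hlow _ _ r hr (lAt hr (ps kM) t₁ ht') _ (lColr hr (ps kM) t₁ ht' _)
    (own_one (v := lV r) 0 fun i _ => tne_kM i) (lW_nonneg hr rng_kM rfl)
  have e2 := hup _ _ r hr (lAt hr (ps kP) t₀ ht)
  rw [pF_lAt, prod_kM] at e1
  rw [pF_lAt, prod_kP] at e2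
  exact combine hc (sq_nonneg _) e1 (av_kP_kM hr) e2

/-- **(5.1)** `A B ≤ C` -/
theorem test_AB (hU : UpZ) (hL : LowZ) (hpos : ∀ (d : ℤ) (J : ℝ) (r : ℕ), d = 0 ∨ d = 1 → 0 < tJ J →
    0 < tF r (d, J)) : ∃ C : ℝ, 0 ≤ C ∧ ∀ r : ℕ, 0 < r →
      tF r (1, π / 6) * tF r (-1, -(π / 6)) ≤ C := by
  have hπ := pi_pos
  obtain ⟨t, ht0, ht1, hok⟩ := exists_okQ (q := π / 6) (by positivity) (by linarith)
  obtain ⟨C₁, hC₁, h1⟩ := test_R1 hU hL ht0 ht1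
  obtain ⟨C₂, hC₂, h2⟩ := test_L hU hL
  refine ⟨C₂ * C₁, mul_nonneg hC₂ hC₁, fun r hr => ?_⟩
  refine ab_le (F := tF r (0, π / 6)) (F' := tF r (0, -(π / 6)))
    (hpos 1 _ r (Or.inr rfl) (tJ_pos (by linarith) (by linarith)))
    (hpos 0 _ r (Or.inl rfl) (tJ_pos (by linarith) (by linarith))) hC₂ ?_ ?_
  · have h3 := h1 _ hok r hr
    have e1 : π / 3 - π / 6 = π / 6 := by ring
    rw [e1] at h3
    rw [pow_two, pow_two]
    exact h3
  · exact h2 r hr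

end

end Pool.Agent.SixB.TP
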