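import Pool.Agent.Lib.SixB.S3AtlDefs
import Pool.Agent.Lib.SixB.S0Cont
import Pool.Agent.Lib.SixB.S3Rev
import Pool.Agent.Lib.SixB.S0Z

/-!
# 6BD step 3, row R14: tools for planar test polygons

* `mem_bS_ZQ`: `a ∈ bS ZQ P ↔ LSide P a.1 a.2`; explicit membership in wedges and walls;
* `idW`: identity charts of a planar set of faces;
* `mkAtlas`: atlas of a planar set of faces from explicit special wedges and a finite set of candidates for the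
  natural charts;
* `thL w ψ`: the values phase + direction along a word; `WZ_nonneg`: if all pairs of values have a nonnegative weight
  then `WZ` is nonnegative; `blk`: block words; `rng_pairwise`: contiguous sums;
* `av_WZ_neg`: the mirror identity for `WZ` of a planar disc.
-/

set_option autoImplicit false
set_option linter.unusedSectionVars false

namespace Pool.Agent.SixB.TP

open Pool.Agent.Perc.Q Pool.Agent.Perc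

noncomputable section

/-! ## Boundary sides, wedges, walls -/

theorem mem_bS_ZQ {P : Finset (ℤ × ℤ)} {a : (ℤ × ℤ) × (ℤ × ℤ)} :
    a ∈ bS ZQ P ↔ LSide P a.1 a.2 := by
  rw [mem_bS, lside_sides]
  constructor
  · rintro ⟨h1, h2⟩
    obtain ⟨f, hf, k, h3 | h3⟩ := mem_dE.mp h1
    · refine ⟨⟨f, hf, k, h3⟩, ?_⟩
      rintro ⟨g, hg, l, h4⟩
      refine h2 g hg l ?_
      have h5 := congrArg Prod.swap h4
      exact h5
    · exact absurd h3 (h2 f hf k)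
  · rintro ⟨⟨f, hf, k, h3⟩, h4⟩
    refine ⟨mem_dE.mpr ⟨f, hf, k, Or.inl h3⟩, ?_⟩
    intro g hg l h5
    exact h4 ⟨g, hg, l, by rw [show ((a.1, a.2) : (ℤ × ℤ) × (ℤ × ℤ)) = a from rfl, h5]; rfl⟩

theorem mem_Wd {m : ℕ} {o : ZMod 4} {v f : ℤ × ℤ} {r : ℕ} :
    f ∈ Wdg m o v r ↔ ((v.1 - r ≤ f.1 ∧ f.1 < v.1 + r) ∧ (v.2 - r ≤ f.2 ∧ f.2 < v.2 + r)) ∧
      (quad v f - o).val < m := by
  unfold Wdg Bx
  rw [Finset.mem_filter, Finset.mem_product, Finset.mem_Ico, Finset.mem_Ico]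

theorem quad_cases (v f : ℤ × ℤ) :
    (quad v f = 0 ∧ v.1 ≤ f.1 ∧ v.2 ≤ f.2) ∨ (quad v f = 1 ∧ f.1 < v.1 ∧ v.2 ≤ f.2) ∨
      (quad v f = 2 ∧ f.1 < v.1 ∧ f.2 < v.2) ∨ (quad v f = 3 ∧ v.1 ≤ f.1 ∧ f.2 < v.2) := by
  unfold quad
  by_cases h1 : v.1 ≤ f.1 <;> by_cases h2 : v.2 ≤ f.2 <;> simp [h1, h2] <;> omega

/-- explicit form of the faces of a wedge -/
def InW (m : ℕ) (o : ZMod 4) (v : ℤ × ℤ) (r : ℕ) (f : ℤ × ℤ) : Prop :=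
  ((v.1 - r ≤ f.1 ∧ f.1 < v.1 + r) ∧ (v.2 - r ≤ f.2 ∧ f.2 < v.2 + r)) ∧
    (((0 - o : ZMod 4).val < m ∧ v.1 ≤ f.1 ∧ v.2 ≤ f.2) ∨ ((1 - o : ZMod 4).val < m ∧ f.1 < v.1 ∧ v.2 ≤ f.2) ∨
      ((2 - o : ZMod 4).val < m ∧ f.1 < v.1 ∧ f.2 < v.2) ∨ ((3 - o : ZMod 4).val < m ∧ v.1 ≤ f.1 ∧ f.2 < v.2))

theorem mem_WI {m : ℕ} {o : ZMod 4} {v f : ℤ × ℤ} {r : ℕ} : f ∈ Wdg m o v r ↔ InW m o v r f := by
  rw [mem_Wd]
  unfold InW
  rcases quad_cases v f with ⟨h, h1, h2⟩ | ⟨h, h1, h2⟩ | ⟨h, h1, h2⟩ | ⟨h, h1, h2⟩ <;> rw [h] <;>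
    constructor <;> rintro ⟨h3, h4⟩ <;> refine ⟨h3, ?_⟩
  · exact Or.inl ⟨h4, h1, h2⟩
  · rcases h4 with h4 | h4 | h4 | h4 <;> first | exact h4.1 | omega
  · exact Or.inr (Or.inl ⟨h4, h1, h2⟩)
  · rcases h4 with h4 | h4 | h4 | h4 <;> first | exact h4.1 | omega
  · exact Or.inr (Or.inr (Or.inl ⟨h4, h1, h2⟩))
  · rcases h4 with h4 | h4 | h4 | h4 <;> first | exact h4.1 | omega
  · exact Or.inr (Or.inr (Or.inr ⟨h4, h1, h2⟩))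
  · rcases h4 with h4 | h4 | h4 | h4 <;> first | exact h4.1 | omega

/-- evaluation of the quadrant conditions -/
theorem zsub : ((0 - 0 : ZMod 4).val = 0 ∧ (1 - 0 : ZMod 4).val = 1 ∧ (2 - 0 : ZMod 4).val = 2 ∧ (3 - 0 : ZMod 4).val = 3) ∧
    ((0 - 1 : ZMod 4).val = 3 ∧ (1 - 1 : ZMod 4).val = 0 ∧ (2 - 1 : ZMod 4).val = 1 ∧ (3 - 1 : ZMod 4).val = 2) ∧
    ((0 - 2 : ZMod 4).val = 2 ∧ (1 - 2 : ZMod 4).val = 3 ∧ (2 - 2 : ZMod 4).val = 0 ∧ (3 - 2 : ZMod 4).val = 1) ∧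
    ((0 - 3 : ZMod 4).val = 1 ∧ (1 - 3 : ZMod 4).val = 2 ∧ (2 - 3 : ZMod 4).val = 3 ∧ (3 - 3 : ZMod 4).val = 0) := by
  decide

theorem inW_10 {v f : ℤ × ℤ} {r : ℕ} : InW 1 0 v r f ↔
    (v.1 - r ≤ f.1 ∧ f.1 < v.1 + r) ∧ (v.2 - r ≤ f.2 ∧ f.2 < v.2 + r) ∧ v.1 ≤ f.1 ∧ v.2 ≤ f.2 := by
  unfold InW
  simp only [zsub.1]
  omega

theorem inW_11 {v f : ℤ × ℤ} {r : ℕ} : InW 1 1 v r f ↔
    (v.1 - r ≤ f.1 ∧ f.1 < v.1 + r) ∧ (v.2 - r ≤ f.2 ∧ f.2 < v.2 + r) ∧ f.1 < v.1 ∧ v.2 ≤ f.2 := by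
  unfold InW
  simp only [zsub.2.1]
  omega

theorem inW_12 {v f : ℤ × ℤ} {r : ℕ} : InW 1 2 v r f ↔
    (v.1 - r ≤ f.1 ∧ f.1 < v.1 + r) ∧ (v.2 - r ≤ f.2 ∧ f.2 < v.2 + r) ∧ f.1 < v.1 ∧ f.2 < v.2 := by
  unfold InW
  simp only [zsub.2.2.1]
  omega

theorem inW_13 {v f : ℤ × ℤ} {r : ℕ} : InW 1 3 v r f ↔
    (v.1 - r ≤ f.1 ∧ f.1 < v.1 + r) ∧ (v.2 - r ≤ f.2 ∧ f.2 < v.2 + r) ∧ v.1 ≤ f.1 ∧ f.2 < v.2 := by
  unfold InW
  simp only [zsub.2.2.2]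
  omega

theorem inW_20 {v f : ℤ × ℤ} {r : ℕ} : InW 2 0 v r f ↔
    (v.1 - r ≤ f.1 ∧ f.1 < v.1 + r) ∧ (v.2 - r ≤ f.2 ∧ f.2 < v.2 + r) ∧ v.2 ≤ f.2 := by
  unfold InW
  simp only [zsub.1]
  omega

theorem inW_21 {v f : ℤ × ℤ} {r : ℕ} : InW 2 1 v r f ↔
    (v.1 - r ≤ f.1 ∧ f.1 < v.1 + r) ∧ (v.2 - r ≤ f.2 ∧ f.2 < v.2 + r) ∧ f.1 < v.1 := by
  unfold InW
  simp only [zsub.2.1]
  omega

theorem inW_22 {v f : ℤ × ℤ} {r : ℕ} : InW 2 2 v r f ↔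
    (v.1 - r ≤ f.1 ∧ f.1 < v.1 + r) ∧ (v.2 - r ≤ f.2 ∧ f.2 < v.2 + r) ∧ f.2 < v.2 := by
  unfold InW
  simp only [zsub.2.2.1]
  omega

theorem inW_23 {v f : ℤ × ℤ} {r : ℕ} : InW 2 3 v r f ↔
    (v.1 - r ≤ f.1 ∧ f.1 < v.1 + r) ∧ (v.2 - r ≤ f.2 ∧ f.2 < v.2 + r) ∧ v.1 ≤ f.1 := by
  unfold InW
  simp only [zsub.2.2.2]
  omega

theorem inW_31 {v f : ℤ × ℤ} {r : ℕ} : InW 3 1 v r f ↔
    (v.1 - r ≤ f.1 ∧ f.1 < v.1 + r) ∧ (v.2 - r ≤ f.2 ∧ f.2 < v.2 + r) ∧ (f.1 < v.1 ∨ f.2 < v.2) := by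
  unfold InW
  simp only [zsub.2.1]
  omega

theorem dz0 : dz 0 = (1, 0) := rfl
theorem dz1 : dz 1 = (0, 1) := rfl
theorem dz2 : dz 2 = (-1, 0) := rfl
theorem dz3 : dz 3 = (0, -1) := rfl

section walls

variable {v : ℤ × ℤ} {r : ℕ} {x y x' y' : ℤ}

theorem mem_wOut0 : (((x, y), (x', y')) : (ℤ × ℤ) × (ℤ × ℤ)) ∈ wOut 0 v r ↔
    x' = x + 1 ∧ y' = y ∧ y = v.2 ∧ v.1 ≤ x ∧ x < v.1 + r := by
  obtain ⟨a, b⟩ := v
  unfold wOut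
  rw [Finset.mem_image, dz0]
  simp only [Finset.mem_range, Prod.smul_mk, Prod.mk_add_mk, Prod.mk.injEq, smul_eq_mul, mul_one, mul_zero]
  constructor
  · rintro ⟨t, h1, ⟨h2, h3⟩, h4, h5⟩
    omega
  · rintro ⟨h1, h2, h3, h4, h5⟩
    exact ⟨(x - a).toNat, by omega, ⟨by omega, by omega⟩, by omega, by omega⟩

theorem mem_wOut1 : (((x, y), (x', y')) : (ℤ × ℤ) × (ℤ × ℤ)) ∈ wOut 1 v r ↔
    x' = x ∧ y' = y + 1 ∧ x = v.1 ∧ v.2 ≤ y ∧ y < v.2 + r := by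
  obtain ⟨a, b⟩ := v
  unfold wOut
  rw [Finset.mem_image, dz1]
  simp only [Finset.mem_range, Prod.smul_mk, Prod.mk_add_mk, Prod.mk.injEq, smul_eq_mul, mul_one, mul_zero]
  constructor
  · rintro ⟨t, h1, ⟨h2, h3⟩, h4, h5⟩
    omega
  · rintro ⟨h1, h2, h3, h4, h5⟩
    exact ⟨(y - b).toNat, by omega, ⟨by omega, by omega⟩, by omega, by omega⟩

theorem mem_wOut2 : (((x, y), (x', y')) : (ℤ × ℤ) × (ℤ × ℤ)) ∈ wOut 2 v r ↔
    x' = x - 1 ∧ y' = y ∧ y = v.2 ∧ v.1 - r < x ∧ x ≤ v.1 := by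
  obtain ⟨a, b⟩ := v
  unfold wOut
  rw [Finset.mem_image, dz2]
  simp only [Finset.mem_range, Prod.smul_mk, Prod.mk_add_mk, Prod.mk.injEq, smul_eq_mul, mul_neg, mul_one, mul_zero]
  constructor
  · rintro ⟨t, h1, ⟨h2, h3⟩, h4, h5⟩
    omega
  · rintro ⟨h1, h2, h3, h4, h5⟩
    exact ⟨(a - x).toNat, by omega, ⟨by omega, by omega⟩, by omega, by omega⟩

theorem mem_wOut3 : (((x, y), (x', y')) : (ℤ × ℤ) × (ℤ × ℤ)) ∈ wOut 3 v r ↔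
    x' = x ∧ y' = y - 1 ∧ x = v.1 ∧ v.2 - r < y ∧ y ≤ v.2 := by
  obtain ⟨a, b⟩ := v
  unfold wOut
  rw [Finset.mem_image, dz3]
  simp only [Finset.mem_range, Prod.smul_mk, Prod.mk_add_mk, Prod.mk.injEq, smul_eq_mul, mul_neg, mul_one, mul_zero]
  constructor
  · rintro ⟨t, h1, ⟨h2, h3⟩, h4, h5⟩
    omega
  · rintro ⟨h1, h2, h3, h4, h5⟩
    exact ⟨(b - y).toNat, by omega, ⟨by omega, by omega⟩, by omega, by omega⟩

theorem mem_wIn0 : (((x, y), (x', y')) : (ℤ × ℤ) × (ℤ × ℤ)) ∈ wIn 0 v r ↔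
    x' = x - 1 ∧ y' = y ∧ y = v.2 ∧ v.1 < x ∧ x ≤ v.1 + r := by
  obtain ⟨a, b⟩ := v
  unfold wIn
  rw [Finset.mem_image, dz0]
  simp only [Finset.mem_range, Prod.smul_mk, Prod.mk_add_mk, Prod.mk.injEq, smul_eq_mul, mul_one, mul_zero]
  constructor
  · rintro ⟨t, h1, ⟨h2, h3⟩, h4, h5⟩
    omega
  · rintro ⟨h1, h2, h3, h4, h5⟩
    exact ⟨(x' - a).toNat, by omega, ⟨by omega, by omega⟩, by omega, by omega⟩

theorem mem_wIn1 : (((x, y), (x', y')) : (ℤ × ℤ) × (ℤ × ℤ)) ∈ wIn 1 v r ↔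
    x' = x ∧ y' = y - 1 ∧ x = v.1 ∧ v.2 < y ∧ y ≤ v.2 + r := by
  obtain ⟨a, b⟩ := v
  unfold wIn
  rw [Finset.mem_image, dz1]
  simp only [Finset.mem_range, Prod.smul_mk, Prod.mk_add_mk, Prod.mk.injEq, smul_eq_mul, mul_one, mul_zero]
  constructor
  · rintro ⟨t, h1, ⟨h2, h3⟩, h4, h5⟩
    omega
  · rintro ⟨h1, h2, h3, h4, h5⟩
    exact ⟨(y' - b).toNat, by omega, ⟨by omega, by omega⟩, by omega, by omega⟩

theorem mem_wIn2 : (((x, y), (x', y')) : (ℤ × ℤ) × (ℤ × ℤ)) ∈ wIn 2 v r ↔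
    x' = x + 1 ∧ y' = y ∧ y = v.2 ∧ v.1 - r ≤ x ∧ x < v.1 := by
  obtain ⟨a, b⟩ := v
  unfold wIn
  rw [Finset.mem_image, dz2]
  simp only [Finset.mem_range, Prod.smul_mk, Prod.mk_add_mk, Prod.mk.injEq, smul_eq_mul, mul_neg, mul_one, mul_zero]
  constructor
  · rintro ⟨t, h1, ⟨h2, h3⟩, h4, h5⟩
    omega
  · rintro ⟨h1, h2, h3, h4, h5⟩
    exact ⟨(a - x').toNat, by omega, ⟨by omega, by omega⟩, by omega, by omega⟩

theorem mem_wIn3 : (((x, y), (x', y')) : (ℤ × ℤ) × (ℤ × ℤ)) ∈ wIn 3 v r ↔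
    x' = x ∧ y' = y + 1 ∧ x = v.1 ∧ v.2 - r ≤ y ∧ y < v.2 := by
  obtain ⟨a, b⟩ := v
  unfold wIn
  rw [Finset.mem_image, dz3]
  simp only [Finset.mem_range, Prod.smul_mk, Prod.mk_add_mk, Prod.mk.injEq, smul_eq_mul, mul_neg, mul_one, mul_zero]
  constructor
  · rintro ⟨t, h1, ⟨h2, h3⟩, h4, h5⟩
    omega
  · rintro ⟨h1, h2, h3, h4, h5⟩
    exact ⟨(b - y').toNat, by omega, ⟨by omega, by omega⟩, by omega, by omega⟩

theorem un0 (h1 : x' = x + 1) (h2 : y' = y) (h3 : y = v.2) (h4 : v.1 - r ≤ x) (h5 : x < v.1 + r) :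
    (((x, y), (x', y')) : (ℤ × ℤ) × (ℤ × ℤ)) ∈ wIn ((0 : ZMod 4) + ((2 : ℕ) : ZMod 4)) v r ∪ wOut 0 v r := by
  rw [show (0 : ZMod 4) + ((2 : ℕ) : ZMod 4) = 2 by decide, Finset.mem_union, mem_wIn2, mem_wOut0]
  omega

theorem un1 (h1 : x' = x) (h2 : y' = y + 1) (h3 : x = v.1) (h4 : v.2 - r ≤ y) (h5 : y < v.2 + r) :
    (((x, y), (x', y')) : (ℤ × ℤ) × (ℤ × ℤ)) ∈ wIn ((1 : ZMod 4) + ((2 : ℕ) : ZMod 4)) v r ∪ wOut 1 v r := by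
  rw [show (1 : ZMod 4) + ((2 : ℕ) : ZMod 4) = 3 by decide, Finset.mem_union, mem_wIn3, mem_wOut1]
  omega

theorem un2 (h1 : x' = x - 1) (h2 : y' = y) (h3 : y = v.2) (h4 : v.1 - r < x) (h5 : x ≤ v.1 + r) :
    (((x, y), (x', y')) : (ℤ × ℤ) × (ℤ × ℤ)) ∈ wIn ((2 : ZMod 4) + ((2 : ℕ) : ZMod 4)) v r ∪ wOut 2 v r := by
  rw [show (2 : ZMod 4) + ((2 : ℕ) : ZMod 4) = 0 by decide, Finset.mem_union, mem_wIn0, mem_wOut2]
  omega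

theorem un3 (h1 : x' = x) (h2 : y' = y - 1) (h3 : x = v.1) (h4 : v.2 - r < y) (h5 : y ≤ v.2 + r) :
    (((x, y), (x', y')) : (ℤ × ℤ) × (ℤ × ℤ)) ∈ wIn ((3 : ZMod 4) + ((2 : ℕ) : ZMod 4)) v r ∪ wOut 3 v r := by
  rw [show (3 : ZMod 4) + ((2 : ℕ) : ZMod 4) = 1 by decide, Finset.mem_union, mem_wIn1, mem_wOut3]
  omega

end walls

/-! ## Identity charts and atlases -/

/-- the identity chart -/
def idP {F R : Finset (ℤ × ℤ)} (h : R ⊆ F) : PChart ZQ F R where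
  φV := id
  φF := id
  cor := fun _ _ _ => rfl
  inj := fun _ _ _ _ _ _ h => h
  sub := h

/-- conditions for the identity chart of a wedge with the jump `J` -/
structure Nice (F : Finset (ℤ × ℤ)) (ψ : (ℤ × ℤ) × (ℤ × ℤ) → ℝ) (m : ℕ) (o : ZMod 4) (v : ℤ × ℤ)
    (r : ℕ) (J : ℝ) : Prop where
  sub : ∀ f, InW m o v r f → f ∈ F
  win : ∀ a ∈ wIn (o + m) v r, LSide F a.1 a.2
  wou : ∀ a ∈ wOut o v r, LSide F a.1 a.2
  jmp : ∃ p q : ℝ, (∀ a ∈ wIn (o + m) v r, ψ a = p) ∧ (∀ a ∈ wOut o v r, ψ a = q) ∧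
    q - p + ((2 : ℝ) - m) * (Real.pi / 12) = J

variable {F : Finset (ℤ × ℤ)} {ψ : (ℤ × ℤ) × (ℤ × ℤ) → ℝ} {m : ℕ} {o : ZMod 4} {v : ℤ × ℤ}
  {r : ℕ} {J : ℝ}

/-- the identity chart of a wedge -/
def Nice.chart (h : Nice F ψ m o v r J) : WChart ZQ F m o v r where
  toPChart := idP fun f hf => h.sub f (mem_WI.mp hf)
  bIn := fun a ha => mem_bS_ZQ.mpr (h.win a ha)
  bOut := fun a ha => mem_bS_ZQ.mpr (h.wou a ha)

theorem Nice.jump (h : Nice F ψ m o v r J) : h.chart.Jump ψ J := by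
  obtain ⟨p, q, h1, h2, h3⟩ := h.jmp
  exact ⟨p, q, h1, h2, h3⟩

theorem Nice.walls_eq (h : Nice F ψ m o v r J) (ρ : ℕ) :
    h.chart.walls ρ = wIn (o + m) v ρ ∪ wOut o v ρ := by
  unfold WChart.walls
  exact Finset.image_id'

theorem Nice.box_eq (h : Nice F ψ m o v r J) (ρ : ℕ) : h.chart.box ρ = Wdg m o v ρ := by
  unfold WChart.box
  exact Finset.image_id'

theorem wIn_mono {e : ZMod 4} {r r' : ℕ} (h : r ≤ r') : wIn e v r ⊆ wIn e v r' := by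
  unfold wIn
  exact Finset.image_subset_image (Finset.range_subset_range.mpr h)

theorem wOut_mono {e : ZMod 4} {r r' : ℕ} (h : r ≤ r') : wOut e v r ⊆ wOut e v r' := by
  unfold wOut
  exact Finset.image_subset_image (Finset.range_subset_range.mpr h)

theorem Nice.walls_sub (h : Nice F ψ m o v r J) {ρ : ℕ} (hρ : ρ ≤ r) :
    h.chart.walls ρ ⊆ bS ZQ F := by
  rw [h.walls_eq]
  intro a ha
  rcases Finset.mem_union.mp ha with ha | ha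
  · exact mem_bS_ZQ.mpr (h.win a (wIn_mono hρ ha))
  · exact mem_bS_ZQ.mpr (h.wou a (wOut_mono hρ ha))

theorem disj_of {m m' : ℕ} {o o' : ZMod 4} {v v' : ℤ × ℤ} {r r' : ℕ}
    (h : ∀ f, InW m o v r f → InW m' o' v' r' f → False) :
    Disjoint (Wdg m o v r) (Wdg m' o' v' r') := by
  rw [Finset.disjoint_left]
  intro f h1 h2
  exact h f (mem_WI.mp h1) (mem_WI.mp h2)

/-- the condition on a natural chart -/
def NatC (F : Finset (ℤ × ℤ)) (ψ : (ℤ × ℤ) × (ℤ × ℤ) → ℝ) (r : ℕ) {n : ℕ} (m : Fin n → ℕ)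
    (o : Fin n → ZMod 4) (v : Fin n → ℤ × ℤ) (x : ZMod 4 × (ℤ × ℤ)) : Prop :=
  Nice F ψ 2 x.1 x.2 (2 * r + 1) 0 ∧
    ∀ j f, InW 2 x.1 x.2 (2 * r) f → InW (m j) (o j) (v j) r f → False

open Classical in
/-- **Atlas of a planar set of faces.** -/
def mkAtlas (F : Finset (ℤ × ℤ)) (ψ : (ℤ × ℤ) × (ℤ × ℤ) → ℝ) (r n nN : ℕ) (t₀ : ℝ)
    (m : Fin n → ℕ) (o : Fin n → ZMod 4) (v : Fin n → ℤ × ℤ) (J : Fin n → ℝ)
    (hm : ∀ i, 1 ≤ m i ∧ m i ≤ 3)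
    (hN : ∀ i, Nice F ψ (m i) (o i) (v i) (4 * r + 1) (J i))
    (ht : ∀ i, t₀ ≤ tJ (J i) ∨ (J i = -(Real.pi / 3) ∧ m i = 2))
    (hd : ∀ i j, i ≠ j → ∀ f, InW (m i) (o i) (v i) (4 * r) f → InW (m j) (o j) (v j) (4 * r) f → False)
    (cand : Finset (ZMod 4 × (ℤ × ℤ))) (hc : cand.card ≤ nN)
    (hcov : ∀ a : (ℤ × ℤ) × (ℤ × ℤ), LSide F a.1 a.2 →
      (∃ i, a ∈ wIn (o i + m i) (v i) (2 * r) ∪ wOut (o i) (v i) (2 * r)) ∨
        ∃ x ∈ cand, NatC F ψ r m o v x ∧ a ∈ wIn (x.1 + (2 : ℕ)) x.2 r ∪ wOut x.1 x.2 r) :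
    Atlas ZQ F ψ (bS ZQ F) r n nN t₀ where
  Z_sub := Finset.Subset.refl _
  κ := Fin n
  K := fun i => .ver (J i)
  m := m
  o := o
  v := v
  ch := fun i => (hN i).chart
  m_rng := hm
  jmp := fun i => (hN i).jump
  tpos := fun i J' h => by
    cases h
    exact ht i
  disj := fun i j h => by
    rw [(hN i).box_eq, (hN j).box_eq]
    exact disj_of (hd i j h)
  cardS := by rw [Fintype.card_fin]
  chZ := fun i => (hN i).walls_sub (Nat.le_succ _)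
  ι := {x // x ∈ cand.filter fun x => NatC F ψ r m o v x}
  m' := fun _ => 2
  o' := fun x => x.1.1
  v' := fun x => x.1.2
  nch := fun x => (Finset.mem_filter.mp x.2).2.1.chart
  m'_rng := fun _ => ⟨by norm_num, by norm_num⟩
  njmp := fun x => Or.inl (Finset.mem_filter.mp x.2).2.1.jump
  nZ := fun x => (Finset.mem_filter.mp x.2).2.1.walls_sub (Nat.le_succ _)
  ndisj := fun x j => by
    rw [(Finset.mem_filter.mp x.2).2.1.box_eq, (hN j).box_eq]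
    exact disj_of ((Finset.mem_filter.mp x.2).2.2 j)
  cardN := by
    rw [Fintype.card_coe]
    exact (Finset.card_filter_le _ _).trans hc
  μ := Empty
  lf := fun x => x.elim
  w := fun x => x.elim
  h := fun x => x.elim
  l := fun x => x.elim
  mch := fun x => x.elim
  h_lt := fun x => x.elim
  mnat := fun x => x.elim
  mZ := fun x => x.elim
  mdisj := fun x => x.elim
  cardM := by simp
  cover := fun a ha => by
    rcases hcov a (mem_bS_ZQ.mp ha) with ⟨i, hi⟩ | ⟨x, hx, h1, h2⟩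
    · left
      refine ⟨i, ?_⟩
      rw [(hN i).walls_eq]
      exact hi
    · right
      left
      refine ⟨⟨x, Finset.mem_filter.mpr ⟨hx, h1⟩⟩, ?_⟩
      rw [(Finset.mem_filter.mp (⟨x, Finset.mem_filter.mpr ⟨hx, h1⟩⟩ :
        {x // x ∈ cand.filter fun x => NatC F ψ r m o v x}).2).2.1.walls_eq]
      exact h2

/-! ## Words -/

/-- the values phase + direction along a word -/
def thL (w : List (((ℤ × ℤ) × (ℤ × ℤ)) × ℤ)) (ψ : (ℤ × ℤ) × (ℤ × ℤ) → ℝ) : List ℝ :=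
  w.map fun x => ψ x.1 + (x.2 : ℝ) * (Real.pi / 12)

/-- nonnegative weight -/
def NNeg (x y : ℝ) : Prop := 0 ≤ tJ (y - x)

theorem thL_append (w w' : List (((ℤ × ℤ) × (ℤ × ℤ)) × ℤ)) (ψ : (ℤ × ℤ) × (ℤ × ℤ) → ℝ) :
    thL (w ++ w') ψ = thL w ψ ++ thL w' ψ := by
  unfold thL
  rw [List.map_append]

theorem thL_segm (ψ : (ℤ × ℤ) × (ℤ × ℤ) → ℝ) (p : ℤ × ℤ) (a : ℤ) (n : ℕ) (τ : ℝ)
    (h : ∀ t : ℕ, t < n → ψ (p + (t : ℤ) • dv a, p + (t : ℤ) • dv a + dv a) + (a : ℝ) * (Real.pi / 12) = τ) :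
    thL (segm id p a n) ψ = List.replicate n τ := by
  rw [List.eq_replicate_iff]
  refine ⟨by unfold thL; rw [List.length_map, segm_length], ?_⟩
  intro x hx
  unfold thL at hx
  obtain ⟨z, hz, rfl⟩ := List.mem_map.mp hx
  obtain ⟨t, ht, rfl⟩ := mem_segmP hz
  exact h t ht

/-- blocks of equal values -/
def blk (τ : ℕ → ℝ) : List ℕ → ℕ → List ℝ
  | [], _ => []
  | n :: ns, k => List.replicate n (τ k) ++ blk τ ns (k + 1)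

theorem mem_blk {τ : ℕ → ℝ} {x : ℝ} : ∀ {ns : List ℕ} {k : ℕ}, x ∈ blk τ ns k →
    ∃ j, k ≤ j ∧ j < k + ns.length ∧ x = τ j
  | [], k, h => absurd h (by simp [blk])
  | n :: ns, k, h => by
    rw [blk, List.mem_append] at h
    rcases h with h | h
    · exact ⟨k, le_rfl, by simp, (List.mem_replicate.mp h).2⟩
    · obtain ⟨j, h1, h2, h3⟩ := mem_blk h
      exact ⟨j, by omega, by simp only [List.length_cons]; omega, h3⟩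

theorem blk_pairwise {τ : ℕ → ℝ} {R : ℝ → ℝ → Prop} : ∀ {ns : List ℕ} {k : ℕ},
    (∀ i j, k ≤ i → i ≤ j → j < k + ns.length → R (τ i) (τ j)) → (blk τ ns k).Pairwise R
  | [], k, _ => by simp [blk]
  | n :: ns, k, h => by
    rw [blk, List.pairwise_append]
    simp only [List.length_cons] at h
    refine ⟨?_, blk_pairwise fun i j h1 h2 h3 => h i j (by omega) h2 (by omega), ?_⟩
    · rw [List.pairwise_replicate]
      right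
      exact h k k le_rfl le_rfl (by omega)
    · intro x hx y hy
      obtain ⟨j, h1, h2, rfl⟩ := mem_blk hy
      rw [(List.mem_replicate.mp hx).2]
      exact h k j le_rfl (by omega) (by omega)

theorem blk_rng {l : List ℝ} (hl : RngOK l) {ns : List ℕ} (hn : ns.length = l.length + 1) :
    (blk (ps l) ns 0).Pairwise NNeg := by
  refine blk_pairwise fun i j _ h2 h3 => ?_
  exact hl.nonneg h2 (by omega)

/-! ## The weight of a disc -/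

theorem nlZ : NoLoop ZQ := by
  rintro ⟨x, y⟩ k
  change cor0 (x, y) k ≠ cor0 (x, y) (k + 1)
  have e1 : (0 : ZMod 4) + 1 = 1 := rfl
  have e2 : (1 : ZMod 4) + 1 = 2 := rfl
  have e3 : (2 : ZMod 4) + 1 = 3 := rfl
  have e4 : (3 : ZMod 4) + 1 = 0 := rfl
  have hk : k = 0 ∨ k = 1 ∨ k = 2 ∨ k = 3 := by
    revert k
    decide
  rcases hk with rfl | rfl | rfl | rfl
  · rw [e1, cor0_0, cor0_1]; simp
  · rw [e2, cor0_1, cor0_2]; simp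
  · rw [e3, cor0_2, cor0_3]; simp
  · rw [e4, cor0_3, cor0_0]; simp

section disc

variable {w : List (((ℤ × ℤ) × (ℤ × ℤ)) × ℤ)}

theorem ini_of_bd (h : Disc ZQ (F : Set (ℤ × ℤ)) (Glued ZQ F) w) :
    ∀ e ∈ w.map Prod.fst, Ini ZQ (F : Set (ℤ × ℤ)) e := by
  intro e he f hf k h2
  obtain ⟨x, hx, rfl⟩ := List.mem_map.mp he
  have h1 := h.bd hx
  have h3 : x.1.swap ∈ Sides ZQ (F : Set (ℤ × ℤ)) := ⟨f, hf, k, by rw [h2]; rfl⟩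
  exact h1.2 h3

theorem WU_WZ (h : Disc ZQ (F : Set (ℤ × ℤ)) (Glued ZQ F) w) (ψ : (ℤ × ℤ) × (ℤ × ℤ) → ℝ)
    (ω : ℤ × ℤ → Bool) :
    WU ZQ F ψ ω = Real.sqrt 3 ^ (w.length / 2) * WZ ZQ F ψ (bS ZQ F) ω := by
  have hw := ini_of_bd h
  have h1 := Zs_WZ (Q := ZQ) (F := F) (ω := ω) nlZ ψ fun X hX hX' => h.closed hw hX hX'
  rw [Zs_WU nlZ] at h1
  have h2 : WU ZQ F ψ ω = Real.sqrt 3 ^ (arcs ZQ F ω).card * WZ ZQ F ψ (bS ZQ F) ω := by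
    exact_mod_cast h1
  rw [h2]
  congr 2
  have h3 := card_arcs nlZ (F := F) (ω := ω)
  have h4 : (bS ZQ F).card = w.length := by
    have h5 : bS ZQ F = (w.map Prod.fst).toFinset := by
      ext e
      rw [h.mem_bS hw, List.mem_toFinset]
    rw [h5, List.toFinset_card_of_nodup h.inv.nodup, List.length_map]
  omega

theorem WZ_nonneg (h : Disc ZQ (F : Set (ℤ × ℤ)) (Glued ZQ F) w) (ψ : (ℤ × ℤ) × (ℤ × ℤ) → ℝ)
    (hp : (thL w ψ).Pairwise NNeg) (ω : ℤ × ℤ → Bool) : 0 ≤ WZ ZQ F ψ (bS ZQ F) ω := by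
  have hw := ini_of_bd h
  have h1 := h.WU_eq nlZ hw ψ ω
  rw [WU_WZ h] at h1
  have h3 : (0 : ℝ) < Real.sqrt 3 ^ (w.length / 2) := by positivity
  rw [mul_left_cancel₀ h3.ne' h1]
  refine Finset.prod_nonneg fun i hi => ?_
  obtain ⟨h4, h5⟩ := Finset.mem_filter.mp hi
  have h4' := Finset.mem_range.mp h4
  have h6 := ((h.cM_all hw ω).1 i h4').1
  have hlen : (thL w ψ).length = w.length := by unfold thL; rw [List.length_map]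
  have h7 := List.pairwise_iff_getElem.mp hp i (cM ZQ F w ω i) (by omega) (by omega) h5
  have e1 : ∀ j (hj : j < w.length), (thL w ψ)[j]'(by omega) = th w ψ j := by
    intro j hj
    rw [th_lt ψ hj]
    unfold thL
    rw [List.getElem_map]
  rw [e1 i h4', e1 _ h6] at h7
  exact h7

/-- the mirror identity -/
theorem av_WZ_neg (h : Disc ZQ (F : Set (ℤ × ℤ)) (Glued ZQ F) w) (ψ ψ' : (ℤ × ℤ) × (ℤ × ℤ) → ℝ)
    (hψ : ψ' = fun b => -ψ b) :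
    av F (WZ ZQ F ψ' (bS ZQ F)) = av F (WZ ZQ F ψ (bS ZQ F)) := by
  subst hψ
  have h1 := av_WU_neg (Q := ZQ) (F := F) nlZ ψ
  have h2 : ∀ ψ : (ℤ × ℤ) × (ℤ × ℤ) → ℝ, av F (WU ZQ F ψ) =
      Real.sqrt 3 ^ (w.length / 2) * av F (WZ ZQ F ψ (bS ZQ F)) := by
    intro ψ
    rw [← av_mul]
    exact av_congr fun T _ => WU_WZ h ψ _
  rw [h2, h2] at h1
  exact mul_left_cancel₀ (by positivity) h1

end disc

end

end Pool.Agent.SixB.TP
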