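import Pool.Agent.Lib.SixB.S3AtlDefs
import Pool.Agent.Lib.SixB.S3Chart
import Pool.Agent.Lib.SixB.S0Plane
import Pool.Agent.Lib.SixB.S0Link

/-!
# 6BD step 3, row R4: turnings and weights of the arcs in wedge boxes and mouth boxes

* `wt_two`: the weights of the arcs of a disc (S0Disc) with the boundary word `N₀ ++ A ++ N₁ ++ B ++ N₂`, the lifted
  phase `th ψ x = ψ x.1 + x.2 π / 12` is constant on `A` and on `B`.
* `RD p d n m`: rectangle on the left of the segment of length `n` from `p` in the direction `d`; `disc_RD`.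
* `pt v d x y`, `fR v d x y`: vertices and faces in the frame `d`, `d + 1` at `v`; `fR_mem`: a wedge in its frame.
* `disc_wdg`: the boundary word of the wedge `Wdg m o v r` with its walls `sIn`, `sOut`.
* the charts (S3TurnW) and the mouths (S3TurnM) are built on this file.
-/

set_option autoImplicit false
set_option linter.unusedSectionVars false
set_option linter.unusedSimpArgs false
set_option linter.unusedVariables false

namespace Pool.Agent.SixB.S3T

open Pool.Agent.Perc.Q Pool.Agent.Perc Pool.Agent.SixB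

noncomputable section

variable {V Φ : Type} [DecidableEq V] [DecidableEq Φ]
variable {Q : QC V Φ} {F G : Finset Φ} {Gl : Set (V × V)} {ω : Φ → Bool} {a b : V × V}
  {w : List ((V × V) × ℤ)} {ψ : V × V → ℝ}

/-! ## Weights of the arcs of a disc -/

/-- lifted phase of a boundary side -/
def th (ψ : V × V → ℝ) (x : (V × V) × ℤ) : ℝ := ψ x.1 + (x.2 : ℝ) * (Real.pi / 12)

theorem wt_pos (h : Disc Q (G : Set Φ) Gl w) (hw : ∀ e ∈ w.map Prod.fst, Ini Q (G : Set Φ) e)
    {i j : ℕ} {x y : (V × V) × ℤ} (hx : w[i]? = some x) (hy : w[j]? = some y)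
    (hm : mate Q G ω x.1 = y.1) :
    i ≠ j ∧ (i < j → wt Q G ω ψ x.1 = Real.sqrt 3 * tJ (th ψ y - th ψ x)) ∧
      (j < i → wt Q G ω ψ x.1 = Real.sqrt 3 * tJ (th ψ x - th ψ y)) := by
  obtain ⟨M, h1, h2, h3⟩ := h.mates hw ω
  have hlen : ∀ {k : ℕ} {z : (V × V) × ℤ}, w[k]? = some z → k < w.length := by
    intro k z hz
    by_contra hc
    rw [List.getElem?_eq_none (by omega)] at hz
    cases hz
  have hi := hlen hx
  have hj := hlen hy
  obtain ⟨z, hz⟩ : ∃ z, w[M i]? = some z := ⟨_, List.getElem?_eq_getElem (h1 i hi).1⟩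
  obtain ⟨h4, h5⟩ := h3 i x z hx hz
  have hji : j = M i := by
    have e1 : (w.map Prod.fst)[j]? = some y.1 := by rw [List.getElem?_map, hy]; rfl
    have e2 : (w.map Prod.fst)[M i]? = some z.1 := by rw [List.getElem?_map, hz]; rfl
    rw [← h4, hm] at e2
    have hj' : j < (w.map Prod.fst).length := by rw [List.length_map]; exact hj
    exact (List.getElem?_inj hj' h.inv.nodup).mp (e1.trans e2.symm)
  subst hji
  have hzy : z = y := by
    rw [hy] at hz
    exact (Option.some.inj hz).symm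
  subst hzy
  refine ⟨(h1 i hi).2.1.symm, fun hlt => ?_, fun hlt => ?_⟩
  · rw [if_pos hlt] at h5
    unfold wt th
    rw [tJ_eq_two_cos, h4, h5]
    congr 2
    push_cast
    ring
  · rw [if_neg (by omega)] at h5
    unfold wt th
    rw [tJ_eq_two_cos, h4, h5, ← Real.cos_neg]
    congr 2
    push_cast
    ring

theorem sqrt3_tJ_zero : Real.sqrt 3 * tJ 0 = Real.sqrt 3 := by rw [tJ_zero, mul_one]

theorem mem_pos {α : Type} {x : α} {u s v : List α} (hx : x ∈ s) :
    ∃ i, u.length ≤ i ∧ i < u.length + s.length ∧ (u ++ (s ++ v))[i]? = some x := by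
  obtain ⟨k, hk⟩ := List.mem_iff_getElem?.mp hx
  have hk' : k < s.length := by
    by_contra hc
    rw [List.getElem?_eq_none (by omega)] at hk
    cases hk
  refine ⟨u.length + k, by omega, by omega, ?_⟩
  rw [List.getElem?_append_right (by omega), Nat.add_sub_cancel_left,
    List.getElem?_append_left hk', hk]

/-- **Two classes of sides.** -/
theorem wt_two {N₀ A N₁ B N₂ : List ((V × V) × ℤ)}
    (h : Disc Q (G : Set Φ) Gl (N₀ ++ (A ++ (N₁ ++ (B ++ N₂)))))
    (hw : ∀ e ∈ (N₀ ++ (A ++ (N₁ ++ (B ++ N₂)))).map Prod.fst, Ini Q (G : Set Φ) e) {α β : ℝ}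
    (hA : ∀ x ∈ A, th ψ x = α) (hB : ∀ x ∈ B, th ψ x = β) {x y : (V × V) × ℤ}
    (hm : mate Q G ω x.1 = y.1) :
    (x ∈ A → y ∈ A → wt Q G ω ψ x.1 = Real.sqrt 3) ∧ (x ∈ B → y ∈ B → wt Q G ω ψ x.1 = Real.sqrt 3) ∧
      (x ∈ A → y ∈ B → wt Q G ω ψ x.1 = Real.sqrt 3 * tJ (β - α)) ∧
        (x ∈ B → y ∈ A → wt Q G ω ψ x.1 = Real.sqrt 3 * tJ (β - α)) := by
  have pA : ∀ {z : (V × V) × ℤ}, z ∈ A → ∃ i, i < N₀.length + A.length ∧
      (N₀ ++ (A ++ (N₁ ++ (B ++ N₂))))[i]? = some z := by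
    intro z hz
    obtain ⟨i, -, h2, h3⟩ := mem_pos (u := N₀) (v := N₁ ++ (B ++ N₂)) hz
    exact ⟨i, h2, h3⟩
  have pB : ∀ {z : (V × V) × ℤ}, z ∈ B → ∃ i, N₀.length + A.length ≤ i ∧
      (N₀ ++ (A ++ (N₁ ++ (B ++ N₂))))[i]? = some z := by
    intro z hz
    obtain ⟨i, h1, -, h3⟩ := mem_pos (u := N₀ ++ (A ++ N₁)) (v := N₂) hz
    refine ⟨i, ?_, ?_⟩
    · rw [List.length_append, List.length_append] at h1
      omega
    · rw [← h3]
      congr 1
      simp only [List.append_assoc]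
  refine ⟨fun hx hy => ?_, fun hx hy => ?_, fun hx hy => ?_, fun hx hy => ?_⟩
  · obtain ⟨i, -, hi⟩ := pA hx
    obtain ⟨j, -, hj⟩ := pA hy
    obtain ⟨h1, h2, h3⟩ := wt_pos (ψ := ψ) (ω := ω) h hw hi hj hm
    rcases Nat.lt_or_gt_of_ne h1 with h4 | h4
    · rw [h2 h4, hA x hx, hA y hy, sub_self, sqrt3_tJ_zero]
    · rw [h3 h4, hA x hx, hA y hy, sub_self, sqrt3_tJ_zero]
  · obtain ⟨i, -, hi⟩ := pB hx
    obtain ⟨j, -, hj⟩ := pB hy
    obtain ⟨h1, h2, h3⟩ := wt_pos (ψ := ψ) (ω := ω) h hw hi hj hm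
    rcases Nat.lt_or_gt_of_ne h1 with h4 | h4
    · rw [h2 h4, hB x hx, hB y hy, sub_self, sqrt3_tJ_zero]
    · rw [h3 h4, hB x hx, hB y hy, sub_self, sqrt3_tJ_zero]
  · obtain ⟨i, h5, hi⟩ := pA hx
    obtain ⟨j, h6, hj⟩ := pB hy
    obtain ⟨-, h2, -⟩ := wt_pos (ψ := ψ) (ω := ω) h hw hi hj hm
    rw [h2 (by omega), hA x hx, hB y hy]
  · obtain ⟨i, h5, hi⟩ := pB hx
    obtain ⟨j, h6, hj⟩ := pA hy
    obtain ⟨-, -, h3⟩ := wt_pos (ψ := ψ) (ω := ω) h hw hi hj hm
    rw [h3 (by omega), hA y hy, hB x hx]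

/-! ## Rectangles in a general direction -/

variable {p : ℤ × ℤ} {d : ℤ}

theorem dv_add_two (a : ℤ) : dv (a + 2) = -dv a := by
  have := dv_sub_two (a + 4)
  rw [dv_add_four, show a + 4 - 2 = a + 2 by ring] at this
  exact this

/-- the rectangle on the left of the segment of length `n` from `p` in the direction `d`, width `m` -/
def RD (p : ℤ × ℤ) (d : ℤ) (n m : ℕ) : Set (ℤ × ℤ) :=
  if d % 4 = 0 then RS p.1 (p.1 + n) p.2 (p.2 + m) else if d % 4 = 1 then
    RS (p.1 - m) p.1 p.2 (p.2 + n) else if d % 4 = 2 then RS (p.1 - n) p.1 (p.2 - m) p.2 else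
    RS p.1 (p.1 + m) (p.2 - n) p.2

theorem RD0 (h : d % 4 = 0) (p : ℤ × ℤ) (n m : ℕ) : RD p d n m = RS p.1 (p.1 + n) p.2 (p.2 + m) := by
  unfold RD; rw [if_pos h]

theorem RD1 (h : d % 4 = 1) (p : ℤ × ℤ) (n m : ℕ) : RD p d n m = RS (p.1 - m) p.1 p.2 (p.2 + n) := by
  unfold RD; rw [if_neg (by omega), if_pos h]

theorem RD2 (h : d % 4 = 2) (p : ℤ × ℤ) (n m : ℕ) : RD p d n m = RS (p.1 - n) p.1 (p.2 - m) p.2 := by
  unfold RD; rw [if_neg (by omega), if_neg (by omega), if_pos h]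

theorem RD3 (h : d % 4 = 3) (p : ℤ × ℤ) (n m : ℕ) : RD p d n m = RS p.1 (p.1 + m) (p.2 - n) p.2 := by
  unfold RD; rw [if_neg (by omega), if_neg (by omega), if_neg (by omega)]

/-- the boundary word of the rectangle -/
def wR (p : ℤ × ℤ) (d : ℤ) (n m : ℕ) : List (((ℤ × ℤ) × (ℤ × ℤ)) × ℤ) :=
  segm id p d n ++ (segm id (p + (n : ℤ) • dv d) (d + 1) m ++
    (segm id (p + (n : ℤ) • dv d + (m : ℤ) • dv (d + 1)) (d + 2) n ++
      segm id (p + (m : ℤ) • dv (d + 1)) (d + 3) m))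

theorem lft_segm (c : ℤ) (p : ℤ × ℤ) (a : ℤ) (n : ℕ) (hc : c % 4 = 0) :
    lft c (segm id p a n) = segm id p (a + c) n := by
  have hdv : ∀ a, dv (a + c) = dv a := by
    intro a
    unfold dv
    have : (a + c) % 4 = a % 4 := by omega
    rw [this]
  induction n generalizing p with
  | zero => rfl
  | succ n ih => rw [segm_succ, segm_succ, lft_cons, ih, hdv]

theorem dvc0 (h : d % 4 = 0) : dv d = (1, 0) := by unfold dv; rw [if_pos h]

theorem dvc1 (h : d % 4 = 1) : dv d = (0, 1) := by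
  unfold dv; rw [if_neg (by omega), if_pos h]

theorem dvc2 (h : d % 4 = 2) : dv d = (-1, 0) := by
  unfold dv; rw [if_neg (by omega), if_neg (by omega), if_pos h]

theorem dvc3 (h : d % 4 = 3) : dv d = (0, -1) := by
  unfold dv; rw [if_neg (by omega), if_neg (by omega), if_neg (by omega)]

theorem pt_add (x y a b c : ℤ) : ((x, y) : ℤ × ℤ) + c • ((a, b) : ℤ × ℤ) = (x + c * a, y + c * b) := by
  ext <;> simp

theorem segm_cast {p q : ℤ × ℤ} {a b : ℤ} {n : ℕ} (h1 : p.1 = q.1) (h2 : p.2 = q.2) (h3 : a = b) :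
    segm id p a n = segm id q b n := by
  rw [Prod.ext h1 h2, h3]

/-- **Rectangles are discs**, general direction. -/
theorem disc_RD {n m : ℕ} (hn : 0 < n) (hm : 0 < m) :
    Disc ZQ (RD p d n m) (Glued ZQ (RD p d n m)) (wR p d n m) := by
  obtain ⟨x, y⟩ := p
  have h4 : d % 4 = 0 ∨ d % 4 = 1 ∨ d % 4 = 2 ∨ d % 4 = 3 := by omega
  unfold wR
  rcases h4 with h | h | h | h
  · rw [RD0 h]
    have h1 := (disc_RS (x₀ := x) (x₁ := x + n) (y₀ := y) (y₁ := y + m) (by omega) (by omega)).lft d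
    unfold rectW at h1
    rw [show (x + (n : ℤ) - x).toNat = n by omega, show (y + (m : ℤ) - y).toNat = m by omega] at h1
    simp only [lft_append, lft_segm _ _ _ _ h] at h1
    refine h1.cast rfl rfl ?_
    rw [dvc0 h, dvc1 (by omega : (d + 1) % 4 = 1)]
    simp only [pt_add]
    congr 1
    · exact segm_cast rfl rfl (by ring)
    congr 1
    · exact segm_cast (by simp) (by simp) (by ring)
    congr 1
    · exact segm_cast (by simp) (by simp) (by ring)
    · exact segm_cast (by simp) (by simp) (by ring)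
  · rw [RD1 h]
    have h1 := (Disc.rots (disc_RS (x₀ := x - m) (x₁ := x) (y₀ := y) (y₁ := y + n) (by omega)
      (by omega))).lft (d - 1)
    rw [show (x - (x - (m : ℤ))).toNat = m by omega, show (y + (n : ℤ) - y).toNat = n by omega] at h1
    simp only [lft_append, lft_segm 4 _ _ _ (by norm_num),
      lft_segm (d - 1) _ _ _ (by omega)] at h1
    refine h1.cast rfl rfl ?_
    rw [dvc1 h, dvc2 (by omega : (d + 1) % 4 = 2)]
    simp only [pt_add, List.append_assoc]
    congr 1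
    · exact segm_cast rfl rfl (by ring)
    congr 1
    · exact segm_cast (by simp) (by simp) (by ring)
    congr 1
    · exact segm_cast (by simp; ring) (by simp) (by ring)
    · exact segm_cast (by simp; ring) (by simp) (by ring)
  · rw [RD2 h]
    have h0 := disc_RS (x₀ := x - n) (x₁ := x) (y₀ := y - m) (y₁ := y) (by omega) (by omega)
    unfold rectW at h0
    rw [← List.append_assoc] at h0
    have h1 := (Disc.rots h0).lft (d - 2)
    rw [show (x - (x - (n : ℤ))).toNat = n by omega, show (y - (y - (m : ℤ))).toNat = m by omega] at h1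
    simp only [lft_append, lft_segm 4 _ _ _ (by norm_num),
      lft_segm (d - 2) _ _ _ (by omega)] at h1
    refine h1.cast rfl rfl ?_
    rw [dvc2 h, dvc3 (by omega : (d + 1) % 4 = 3)]
    simp only [pt_add, List.append_assoc]
    congr 1
    · exact segm_cast rfl rfl (by ring)
    congr 1
    · exact segm_cast (by simp; ring) (by simp) (by ring)
    congr 1
    · exact segm_cast (by simp; ring) (by simp; ring) (by ring)
    · exact segm_cast (by simp) (by simp; ring) (by ring)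
  · rw [RD3 h]
    have h0 := disc_RS (x₀ := x) (x₁ := x + m) (y₀ := y - n) (y₁ := y) (by omega) (by omega)
    unfold rectW at h0
    rw [← List.append_assoc, ← List.append_assoc] at h0
    have h1 := (Disc.rots h0).lft (d - 3)
    rw [show (x + (m : ℤ) - x).toNat = m by omega, show (y - (y - (n : ℤ))).toNat = n by omega] at h1
    simp only [lft_append, lft_segm 4 _ _ _ (by norm_num),
      lft_segm (d - 3) _ _ _ (by omega)] at h1
    refine h1.cast rfl rfl ?_
    rw [dvc3 h, dvc0 (by omega : (d + 1) % 4 = 0)]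
    simp only [pt_add, List.append_assoc]
    congr 1
    · exact segm_cast rfl rfl (by ring)
    congr 1
    · exact segm_cast (by simp) (by simp; ring) (by ring)
    congr 1
    · exact segm_cast (by simp) (by simp; ring) (by ring)
    · exact segm_cast (by simp) (by simp) (by ring)

/-! ## Wedges as unions of rectangles -/

variable {v f : ℤ × ℤ} {o : ZMod 4} {m r ρ : ℕ}

private theorem v00 : ((0 : ZMod 4) - 0).val = 0 := by decide
private theorem v01 : ((0 : ZMod 4) - 1).val = 3 := by decide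
private theorem v02 : ((0 : ZMod 4) - 2).val = 2 := by decide
private theorem v03 : ((0 : ZMod 4) - 3).val = 1 := by decide
private theorem v10 : ((1 : ZMod 4) - 0).val = 1 := by decide
private theorem v11 : ((1 : ZMod 4) - 1).val = 0 := by decide
private theorem v12 : ((1 : ZMod 4) - 2).val = 3 := by decide
private theorem v13 : ((1 : ZMod 4) - 3).val = 2 := by decide
private theorem v20 : ((2 : ZMod 4) - 0).val = 2 := by decide
private theorem v21 : ((2 : ZMod 4) - 1).val = 1 := by decide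
private theorem v22 : ((2 : ZMod 4) - 2).val = 0 := by decide
private theorem v23 : ((2 : ZMod 4) - 3).val = 3 := by decide
private theorem v30 : ((3 : ZMod 4) - 0).val = 3 := by decide
private theorem v31 : ((3 : ZMod 4) - 1).val = 2 := by decide
private theorem v32 : ((3 : ZMod 4) - 2).val = 1 := by decide
private theorem v33 : ((3 : ZMod 4) - 3).val = 0 := by decide

theorem mem_Wdg : f ∈ Wdg m o v r ↔ (v.1 - r ≤ f.1 ∧ f.1 < v.1 + r ∧ v.2 - r ≤ f.2 ∧ f.2 < v.2 + r) ∧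
    ((v.1 ≤ f.1 ∧ v.2 ≤ f.2 ∧ (0 - o).val < m) ∨ (f.1 < v.1 ∧ v.2 ≤ f.2 ∧ (1 - o).val < m) ∨
      (f.1 < v.1 ∧ f.2 < v.2 ∧ (2 - o).val < m) ∨ (v.1 ≤ f.1 ∧ f.2 < v.2 ∧ (3 - o).val < m)) := by
  unfold Wdg Bx quad
  rw [Finset.mem_filter, Finset.mem_product, Finset.mem_Ico, Finset.mem_Ico]
  split_ifs <;> omega

theorem Wdg_mono (h : ρ ≤ r) : Wdg m o v ρ ⊆ Wdg m o v r := by
  intro f hf
  rw [mem_Wdg] at hf ⊢
  omega

theorem pt_sub {v : ℤ × ℤ} {r a b : ℤ} : v - r • ((a, b) : ℤ × ℤ) = (v.1 - r * a, v.2 - r * b) := by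
  ext <;> simp

theorem pt_add' {v : ℤ × ℤ} {r a b : ℤ} : v + r • ((a, b) : ℤ × ℤ) = (v.1 + r * a, v.2 + r * b) := by
  ext <;> simp

theorem wdg_one (o : ZMod 4) (v : ℤ × ℤ) (r : ℕ) :
    ((Wdg 1 o v r : Finset (ℤ × ℤ)) : Set (ℤ × ℤ)) = RD v (o.val : ℤ) r r := by
  ext ⟨x, y⟩
  rw [Finset.mem_coe, mem_Wdg]
  rcases Tilt.k4 o with rfl | rfl | rfl | rfl
  · rw [RD0 (by decide)]
    unfold RS
    simp only [Set.mem_ofPred_eq, Set.mem_union, pt_sub, v00, v01, v02, v03, v10, v11, v12, v13, v20, v21, v22, v23, v30, v31, v32, v33]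
    omega
  · rw [RD1 (by decide)]
    unfold RS
    simp only [Set.mem_ofPred_eq, Set.mem_union, pt_sub, v00, v01, v02, v03, v10, v11, v12, v13, v20, v21, v22, v23, v30, v31, v32, v33]
    omega
  · rw [RD2 (by decide)]
    unfold RS
    simp only [Set.mem_ofPred_eq, Set.mem_union, pt_sub, v00, v01, v02, v03, v10, v11, v12, v13, v20, v21, v22, v23, v30, v31, v32, v33]
    omega
  · rw [RD3 (by decide)]
    unfold RS
    simp only [Set.mem_ofPred_eq, Set.mem_union, pt_sub, v00, v01, v02, v03, v10, v11, v12, v13, v20, v21, v22, v23, v30, v31, v32, v33]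
    omega

theorem wdg_two (o : ZMod 4) (v : ℤ × ℤ) (r : ℕ) :
    ((Wdg 2 o v r : Finset (ℤ × ℤ)) : Set (ℤ × ℤ)) = RD (v - (r : ℤ) • dv (o.val : ℤ)) (o.val : ℤ) (2 * r) r := by
  ext ⟨x, y⟩
  rw [Finset.mem_coe, mem_Wdg]
  rcases Tilt.k4 o with rfl | rfl | rfl | rfl
  · rw [RD0 (by decide), dvc0 (by decide)]
    unfold RS
    simp only [Set.mem_ofPred_eq, Set.mem_union, pt_sub, v00, v01, v02, v03, v10, v11, v12, v13, v20, v21, v22, v23, v30, v31, v32, v33]
    omega
  · rw [RD1 (by decide), dvc1 (by decide)]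
    unfold RS
    simp only [Set.mem_ofPred_eq, Set.mem_union, pt_sub, v00, v01, v02, v03, v10, v11, v12, v13, v20, v21, v22, v23, v30, v31, v32, v33]
    omega
  · rw [RD2 (by decide), dvc2 (by decide)]
    unfold RS
    simp only [Set.mem_ofPred_eq, Set.mem_union, pt_sub, v00, v01, v02, v03, v10, v11, v12, v13, v20, v21, v22, v23, v30, v31, v32, v33]
    omega
  · rw [RD3 (by decide), dvc3 (by decide)]
    unfold RS
    simp only [Set.mem_ofPred_eq, Set.mem_union, pt_sub, v00, v01, v02, v03, v10, v11, v12, v13, v20, v21, v22, v23, v30, v31, v32, v33]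
    omega

theorem wdg_three (o : ZMod 4) (v : ℤ × ℤ) (r : ℕ) :
    ((Wdg 3 o v r : Finset (ℤ × ℤ)) : Set (ℤ × ℤ)) = RD (v - (r : ℤ) • dv (o.val : ℤ)) (o.val : ℤ) (2 * r) r ∪
      RD v ((o.val : ℤ) + 2) r r := by
  ext ⟨x, y⟩
  rw [Finset.mem_coe, mem_Wdg]
  rcases Tilt.k4 o with rfl | rfl | rfl | rfl
  · rw [RD0 (by decide), dvc0 (by decide), RD2 (by decide)]
    unfold RS
    simp only [Set.mem_ofPred_eq, Set.mem_union, pt_sub, v00, v01, v02, v03, v10, v11, v12, v13, v20, v21, v22, v23, v30, v31, v32, v33]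
    omega
  · rw [RD1 (by decide), dvc1 (by decide), RD3 (by decide)]
    unfold RS
    simp only [Set.mem_ofPred_eq, Set.mem_union, pt_sub, v00, v01, v02, v03, v10, v11, v12, v13, v20, v21, v22, v23, v30, v31, v32, v33]
    omega
  · rw [RD2 (by decide), dvc2 (by decide), RD0 (by decide)]
    unfold RS
    simp only [Set.mem_ofPred_eq, Set.mem_union, pt_sub, v00, v01, v02, v03, v10, v11, v12, v13, v20, v21, v22, v23, v30, v31, v32, v33]
    omega
  · rw [RD3 (by decide), dvc3 (by decide), RD1 (by decide)]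
    unfold RS
    simp only [Set.mem_ofPred_eq, Set.mem_union, pt_sub, v00, v01, v02, v03, v10, v11, v12, v13, v20, v21, v22, v23, v30, v31, v32, v33]
    omega

/-! ## The other side of a boundary side -/

/-- the face on the right of the directed unit edge from `q` in the direction `d` -/
def rf (q : ℤ × ℤ) (d : ℤ) : ℤ × ℤ :=
  if d % 4 = 0 then (q.1, q.2 - 1) else if d % 4 = 1 then (q.1, q.2) else if d % 4 = 2 then
    (q.1 - 1, q.2) else (q.1 - 1, q.2 - 1)

theorem rf_eq (q : ℤ × ℤ) (d : ℤ) : lface (q + dv d) (d - 2) = rf q d := by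
  have h4 : d % 4 = 0 ∨ d % 4 = 1 ∨ d % 4 = 2 ∨ d % 4 = 3 := by omega
  unfold lface rf
  rcases h4 with h | h | h | h
  · rw [if_neg (by omega), if_neg (by omega), if_pos (by omega), if_pos h, dvc0 h]
    ext <;> simp
  · rw [if_neg (by omega), if_neg (by omega), if_neg (by omega), if_neg (by omega), if_pos h, dvc1 h]
    ext <;> simp
  · rw [if_pos (by omega), if_neg (by omega), if_neg (by omega), if_pos h, dvc2 h]
    ext <;> simp <;> ring
  · rw [if_neg (by omega), if_pos (by omega), if_neg (by omega), if_neg (by omega),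
      if_neg (by omega), dvc3 h]
    ext <;> simp <;> ring

theorem swap_sides {S : Set (ℤ × ℤ)} {q : ℤ × ℤ} : (q, q + dv d).swap ∈ Sides ZQ S ↔ rf q d ∈ S := by
  rw [swap_mem_sides_ZQ, rf_eq]

theorem forall_segm {n : ℕ} {P : ((ℤ × ℤ) × (ℤ × ℤ)) × ℤ → Prop}
    (h : ∀ i : ℕ, i < n → P ((p + (i : ℤ) • dv d, p + (i : ℤ) • dv d + dv d), d)) :
    ∀ x ∈ segm id p d n, P x := by
  intro x hx
  obtain ⟨i, hi, rfl⟩ := mem_segmP hx
  exact h i hi

/-! ## The words of the wedges -/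

theorem dz_dv (o : ZMod 4) : dz o = dv (o.val : ℤ) ∧ dz (o + 1) = dv ((o.val : ℤ) + 1) ∧
    dz (o + 2) = dv ((o.val : ℤ) + 2) ∧ dz (o + 3) = dv ((o.val : ℤ) + 3) := by
  revert o
  decide

theorem dv_add_three (d : ℤ) : dv (d + 3) = -dv (d + 1) := by
  rw [show d + 3 = (d + 1) + 2 by ring, dv_add_two]

/-- the vertex with the coordinates `x`, `y` in the frame `d`, `d + 1` at `v` -/
def pt (v : ℤ × ℤ) (d x y : ℤ) : ℤ × ℤ := v + x • dv d + y • dv (d + 1)

/-- the face with the coordinates `x`, `y` in the frame `d`, `d + 1` at `v` -/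
def fR (v : ℤ × ℤ) (d x y : ℤ) : ℤ × ℤ :=
  if d % 4 = 0 then (v.1 + x, v.2 + y) else if d % 4 = 1 then (v.1 - y - 1, v.2 + x) else
    if d % 4 = 2 then (v.1 - x - 1, v.2 - y - 1) else (v.1 + y, v.2 - x - 1)

theorem pt_zero (v : ℤ × ℤ) (d : ℤ) : pt v d 0 0 = v := by unfold pt; simp

theorem pt_0 (v : ℤ × ℤ) (d x y i : ℤ) : pt v d x y + i • dv d = pt v d (x + i) y := by
  unfold pt; module

theorem pt_1 (v : ℤ × ℤ) (d x y i : ℤ) : pt v d x y + i • dv (d + 1) = pt v d x (y + i) := by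
  unfold pt; module

theorem pt_2 (v : ℤ × ℤ) (d x y i : ℤ) : pt v d x y + i • dv (d + 2) = pt v d (x - i) y := by
  unfold pt; rw [dv_add_two]; module

theorem pt_3 (v : ℤ × ℤ) (d x y i : ℤ) : pt v d x y + i • dv (d + 3) = pt v d x (y - i) := by
  unfold pt; rw [dv_add_three]; module

theorem rf_pt (v : ℤ × ℤ) (d x y : ℤ) : rf (pt v d x y) d = fR v d x (y - 1) ∧
    rf (pt v d x y) (d + 1) = fR v d x y ∧ rf (pt v d x y) (d + 2) = fR v d (x - 1) y ∧
      rf (pt v d x y) (d + 3) = fR v d (x - 1) (y - 1) := by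
  have h4 : d % 4 = 0 ∨ d % 4 = 1 ∨ d % 4 = 2 ∨ d % 4 = 3 := by omega
  obtain ⟨v1, v2⟩ := v
  unfold pt
  rcases h4 with h | h | h | h
  · have e1 : (d + 1) % 4 = 1 := by omega
    have e2 : (d + 2) % 4 = 2 := by omega
    have e3 : (d + 3) % 4 = 3 := by omega
    rw [dvc0 h, dvc1 e1]
    unfold rf fR
    simp only [h, e1, e2, e3, pt_add]
    norm_num
    omega
  · have e1 : (d + 1) % 4 = 2 := by omega
    have e2 : (d + 2) % 4 = 3 := by omega
    have e3 : (d + 3) % 4 = 0 := by omega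
    rw [dvc1 h, dvc2 e1]
    unfold rf fR
    simp only [h, e1, e2, e3, pt_add]
    norm_num
    omega
  · have e1 : (d + 1) % 4 = 3 := by omega
    have e2 : (d + 2) % 4 = 0 := by omega
    have e3 : (d + 3) % 4 = 1 := by omega
    rw [dvc2 h, dvc3 e1]
    unfold rf fR
    simp only [h, e1, e2, e3, pt_add]
    norm_num
    omega
  · have e1 : (d + 1) % 4 = 0 := by omega
    have e2 : (d + 2) % 4 = 1 := by omega
    have e3 : (d + 3) % 4 = 2 := by omega
    rw [dvc3 h, dvc0 e1]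
    unfold rf fR
    simp only [h, e1, e2, e3, pt_add]
    norm_num
    omega

/-- a wedge in its frame -/
theorem fR_mem {x y : ℤ} : fR v (o.val : ℤ) x y ∈ Wdg m o v r ↔ (-(r : ℤ) ≤ x ∧ x < r ∧ -(r : ℤ) ≤ y ∧ y < r) ∧
    ((0 ≤ x ∧ 0 ≤ y ∧ 0 < m) ∨ (x < 0 ∧ 0 ≤ y ∧ 1 < m) ∨ (x < 0 ∧ y < 0 ∧ 2 < m) ∨
      (0 ≤ x ∧ y < 0 ∧ 3 < m)) := by
  have w0 : (((0 : ZMod 4).val : ℤ)) % 4 = 0 := by decide
  have w1 : (((1 : ZMod 4).val : ℤ)) % 4 = 1 := by decide
  have w2 : (((2 : ZMod 4).val : ℤ)) % 4 = 2 := by decide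
  have w3 : (((3 : ZMod 4).val : ℤ)) % 4 = 3 := by decide
  rw [mem_Wdg]
  unfold fR
  rcases Tilt.k4 o with rfl | rfl | rfl | rfl
  · simp only [w0, v00, v01, v02, v03, v10, v11, v12, v13, v20, v21, v22, v23, v30, v31, v32, v33]
    norm_num
    omega
  · simp only [w1, v00, v01, v02, v03, v10, v11, v12, v13, v20, v21, v22, v23, v30, v31, v32, v33]
    norm_num
    omega
  · simp only [w2, v00, v01, v02, v03, v10, v11, v12, v13, v20, v21, v22, v23, v30, v31, v32, v33]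
    norm_num
    omega
  · simp only [w3, v00, v01, v02, v03, v10, v11, v12, v13, v20, v21, v22, v23, v30, v31, v32, v33]
    norm_num
    omega

theorem wR_pt (v : ℤ × ℤ) (d x y : ℤ) (n m : ℕ) : wR (pt v d x y) d n m = segm id (pt v d x y) d n ++
    (segm id (pt v d (x + n) y) (d + 1) m ++ (segm id (pt v d (x + n) (y + m)) (d + 2) n ++
      segm id (pt v d x (y + m)) (d + 3) m)) := by
  unfold wR; rw [pt_0, pt_1, pt_1]

theorem wR_pt2 (v : ℤ × ℤ) (d x y : ℤ) (n m : ℕ) : wR (pt v d x y) (d + 2) n m =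
    segm id (pt v d x y) (d + 2) n ++ (segm id (pt v d (x - n) y) (d + 3) m ++
      (segm id (pt v d (x - n) (y - m)) (d + 4) n ++ segm id (pt v d x (y - m)) (d + 5) m)) := by
  unfold wR
  rw [show d + 2 + 1 = d + 3 by ring, show d + 2 + 2 = d + 4 by ring, show d + 2 + 3 = d + 5 by ring,
    pt_2, pt_3, pt_3]

theorem disc_one_quadrant (hr : 0 < r) (o : ZMod 4) (v : ℤ × ℤ) :
    Disc ZQ ((Wdg 1 o v r : Finset (ℤ × ℤ)) : Set (ℤ × ℤ))
      (Glued ZQ ((Wdg 1 o v r : Finset (ℤ × ℤ)) : Set (ℤ × ℤ)))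
      (segm id (pt v o.val 0 r) ((o.val : ℤ) - 1) r ++ (segm id (pt v o.val 0 0) o.val r ++
        (segm id (pt v o.val r 0) ((o.val : ℤ) + 1) r ++
          segm id (pt v o.val r r) ((o.val : ℤ) + 2) r))) := by
  rw [wdg_one]
  have h := disc_RD (p := pt v o.val 0 0) (d := (o.val : ℤ)) hr hr
  rw [wR_pt, pt_zero, ← List.append_assoc, ← List.append_assoc] at h
  have h1 := (Disc.rots h).lft (-4)
  simp only [lft_append, lft_segm 4 _ _ _ (by norm_num), lft_segm (-4) _ _ _ (by norm_num)] at h1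
  refine h1.cast rfl rfl ?_
  rw [pt_zero]
  simp only [List.append_assoc, zero_add]
  congr 1
  · exact segm_cast rfl rfl (by ring)
  congr 1
  · exact segm_cast rfl rfl (by ring)
  congr 1
  · exact segm_cast rfl rfl (by ring)
  · exact segm_cast rfl rfl (by ring)

theorem pt_neg (v : ℤ × ℤ) (d : ℤ) (r : ℤ) : v - r • dv d = pt v d (-r) 0 := by
  unfold pt; module

theorem disc_two_quadrants (hr : 0 < r) (o : ZMod 4) (v : ℤ × ℤ) :
    Disc ZQ ((Wdg 2 o v r : Finset (ℤ × ℤ)) : Set (ℤ × ℤ))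
      (Glued ZQ ((Wdg 2 o v r : Finset (ℤ × ℤ)) : Set (ℤ × ℤ)))
      (segm id (pt v o.val (-r) 0) o.val r ++ (segm id (pt v o.val 0 0) o.val r ++
        (segm id (pt v o.val r 0) ((o.val : ℤ) + 1) r ++
          (segm id (pt v o.val r r) ((o.val : ℤ) + 2) (2 * r) ++
            segm id (pt v o.val (-r) r) ((o.val : ℤ) + 3) r)))) := by
  rw [wdg_two, pt_neg]
  have h := disc_RD (p := pt v o.val (-r) 0) (d := (o.val : ℤ)) (n := 2 * r) (m := r) (by omega) hr
  refine h.cast rfl rfl ?_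
  rw [wR_pt, two_mul, segm_add, pt_0, List.append_assoc]
  push_cast
  congr 1
  congr 1
  · exact segm_cast (by congr 2; ring) (by congr 2; ring) rfl
  congr 1
  · exact segm_cast (by congr 2; ring) (by congr 2; ring) rfl
  congr 1
  · exact segm_cast (by congr 2 <;> ring) (by congr 2 <;> ring) rfl
  · exact segm_cast (by congr 2; ring) (by congr 2; ring) rfl

/-! ### The other side of a segment -/

variable {S : Finset (ℤ × ℤ)} {x y : ℤ} {n : ℕ}

theorem side0 : ∀ z ∈ segm id (pt v d x y) d n, ∃ i : ℕ, i < n ∧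
    (z.1.swap ∈ Sides ZQ (S : Set (ℤ × ℤ)) ↔ fR v d (x + i) (y - 1) ∈ S) :=
  forall_segm fun i hi => ⟨i, hi, by rw [swap_sides, pt_0, (rf_pt v d _ _).1, Finset.mem_coe]⟩

theorem side1 : ∀ z ∈ segm id (pt v d x y) (d + 1) n, ∃ i : ℕ, i < n ∧
    (z.1.swap ∈ Sides ZQ (S : Set (ℤ × ℤ)) ↔ fR v d x (y + i) ∈ S) :=
  forall_segm fun i hi => ⟨i, hi, by rw [swap_sides, pt_1, (rf_pt v d _ _).2.1, Finset.mem_coe]⟩

theorem side2 : ∀ z ∈ segm id (pt v d x y) (d + 2) n, ∃ i : ℕ, i < n ∧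
    (z.1.swap ∈ Sides ZQ (S : Set (ℤ × ℤ)) ↔ fR v d (x - i - 1) y ∈ S) :=
  forall_segm fun i hi => ⟨i, hi, by rw [swap_sides, pt_2, (rf_pt v d _ _).2.2.1, Finset.mem_coe]⟩

theorem side3 : ∀ z ∈ segm id (pt v d x y) (d + 3) n, ∃ i : ℕ, i < n ∧
    (z.1.swap ∈ Sides ZQ (S : Set (ℤ × ℤ)) ↔ fR v d (x - 1) (y - i - 1) ∈ S) :=
  forall_segm fun i hi => ⟨i, hi, by rw [swap_sides, pt_3, (rf_pt v d _ _).2.2.2, Finset.mem_coe]⟩

theorem side3' : ∀ z ∈ segm id (pt v d x y) (d - 1) n, ∃ i : ℕ, i < n ∧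
    (z.1.swap ∈ Sides ZQ (S : Set (ℤ × ℤ)) ↔ fR v d (x - 1) (y - i - 1) ∈ S) := by
  have e1 : dv (d - 1) = dv (d + 3) := by
    rw [show d + 3 = (d - 1) + 4 by ring, dv_add_four]
  have e2 : ∀ q, rf q (d - 1) = rf q (d + 3) := by
    intro q
    unfold rf
    rw [show (d + 3) % 4 = (d - 1) % 4 by omega]
  refine forall_segm fun i hi => ⟨i, hi, ?_⟩
  rw [swap_sides, e1, e2, pt_3, (rf_pt v d _ _).2.2.2, Finset.mem_coe]

theorem three_disj (o : ZMod 4) (v : ℤ × ℤ) (r : ℕ) :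
    Disjoint (RD (v - (r : ℤ) • dv (o.val : ℤ)) (o.val : ℤ) (2 * r) r) (RD v ((o.val : ℤ) + 2) r r) := by
  rw [Set.disjoint_left]
  rintro ⟨x, y⟩ h1 h2
  rcases Tilt.k4 o with rfl | rfl | rfl | rfl
  · rw [RD0 (by decide), dvc0 (by decide)] at h1
    rw [RD2 (by decide)] at h2
    unfold RS at h1 h2
    simp only [Set.mem_ofPred_eq, pt_sub] at h1 h2
    omega
  · rw [RD1 (by decide), dvc1 (by decide)] at h1
    rw [RD3 (by decide)] at h2
    unfold RS at h1 h2
    simp only [Set.mem_ofPred_eq, pt_sub] at h1 h2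
    omega
  · rw [RD2 (by decide), dvc2 (by decide)] at h1
    rw [RD0 (by decide)] at h2
    unfold RS at h1 h2
    simp only [Set.mem_ofPred_eq, pt_sub] at h1 h2
    omega
  · rw [RD3 (by decide), dvc3 (by decide)] at h1
    rw [RD1 (by decide)] at h2
    unfold RS at h1 h2
    simp only [Set.mem_ofPred_eq, pt_sub] at h1 h2
    omega

/-- the word of three quadrants -/
def w3 (o : ZMod 4) (v : ℤ × ℤ) (r : ℕ) : List (((ℤ × ℤ) × (ℤ × ℤ)) × ℤ) :=
  segm id (pt v o.val (-r) 0) ((o.val : ℤ) - 1) r ++ (segm id (pt v o.val (-r) (-r)) o.val r ++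
    (segm id (pt v o.val 0 (-r)) ((o.val : ℤ) + 1) r ++ (segm id (pt v o.val 0 0) o.val r ++
      (segm id (pt v o.val r 0) ((o.val : ℤ) + 1) r ++
        (segm id (pt v o.val r r) ((o.val : ℤ) + 2) (2 * r) ++
          segm id (pt v o.val (-r) r) ((o.val : ℤ) + 3) r)))))

theorem disc_three_quadrants (hr : 0 < r) (o : ZMod 4) (v : ℤ × ℤ) :
    Disc ZQ ((Wdg 3 o v r : Finset (ℤ × ℤ)) : Set (ℤ × ℤ))
      (Glued ZQ ((Wdg 3 o v r : Finset (ℤ × ℤ)) : Set (ℤ × ℤ))) (w3 o v r) := by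
  have hH := disc_two_quadrants hr o v
  rw [wdg_two] at hH
  have hK := (disc_RD (p := v) (d := (o.val : ℤ) + 2) hr hr).lft (-4)
  rw [show wR v ((o.val : ℤ) + 2) r r = wR (pt v o.val 0 0) ((o.val : ℤ) + 2) r r by rw [pt_zero],
    wR_pt2] at hK
  simp only [lft_append, lft_segm (-4) _ _ _ (by norm_num)] at hK
  have hs : segm id (pt v (o.val : ℤ) (-r) 0) (o.val : ℤ) r ≠ [] := by
    intro h
    have := congrArg List.length h
    rw [segm_length] at this
    simp at this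
    omega
  have h := Disc.paste (u := []) (s := segm id (pt v (o.val : ℤ) (-r) 0) (o.val : ℤ) r) (u' := [])
    (v' := segm id (pt v o.val (-r) 0) ((o.val : ℤ) - 1) r ++ (segm id (pt v o.val (-r) (-r)) o.val r ++
      segm id (pt v o.val 0 (-r)) ((o.val : ℤ) + 1) r)) hH (by
      refine hK.cast rfl rfl ?_
      rw [segm_rvw, pt_0, List.nil_append]
      congr 1
      · exact segm_cast (by congr 2; ring) (by congr 2; ring) (by ring)
      congr 1
      · exact segm_cast (by congr 2; ring) (by congr 2; ring) (by ring)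
      congr 1
      · exact segm_cast (by congr 2 <;> ring) (by congr 2 <;> ring) (by ring)
      · exact segm_cast (by congr 2; ring) (by congr 2; ring) (by ring)) hs (three_disj o v r)
  rw [← wdg_three] at h
  have h' := h.cast (v := w3 o v r) rfl rfl (by
    unfold w3
    simp only [List.append_assoc, lft_nil, List.nil_append])
  refine h'.complete ?_
  intro z hz
  unfold w3 at hz
  simp only [List.mem_append] at hz
  rcases hz with hz | hz | hz | hz | hz | hz | hz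
  · obtain ⟨i, hi, e⟩ := side3' (S := Wdg 3 o v r) z hz
    rw [e, fR_mem]; omega
  · obtain ⟨i, hi, e⟩ := side0 (S := Wdg 3 o v r) z hz
    rw [e, fR_mem]; omega
  · obtain ⟨i, hi, e⟩ := side1 (S := Wdg 3 o v r) z hz
    rw [e, fR_mem]; omega
  · obtain ⟨i, hi, e⟩ := side0 (S := Wdg 3 o v r) z hz
    rw [e, fR_mem]; omega
  · obtain ⟨i, hi, e⟩ := side1 (S := Wdg 3 o v r) z hz
    rw [e, fR_mem]; omega
  · obtain ⟨i, hi, e⟩ := side2 (S := Wdg 3 o v r) z hz
    rw [e, fR_mem]; omega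
  · obtain ⟨i, hi, e⟩ := side3 (S := Wdg 3 o v r) z hz
    rw [e, fR_mem]; omega

/-! ## All wedges -/

theorem segm_mem {i n : ℕ} (hi : i < n) :
    ((p + (i : ℤ) • dv d, p + (i : ℤ) • dv d + dv d), d) ∈ segm id p d n := by
  induction n generalizing p i with
  | zero => omega
  | succ n ih =>
    rw [segm_succ, List.mem_cons]
    rcases Nat.eq_zero_or_pos i with rfl | h
    · left
      simp
    · right
      obtain ⟨j, rfl⟩ : ∃ j, i = j + 1 := ⟨i - 1, by omega⟩
      have h1 := ih (p := p + dv d) (i := j) (by omega)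
      have e : p + dv d + (j : ℤ) • dv d = p + ((j + 1 : ℕ) : ℤ) • dv d := by
        push_cast
        module
      rwa [e] at h1

theorem dz_val (o : ZMod 4) (h1 : 1 ≤ m) (h3 : m ≤ 3) :
    dz (o + m) = dv ((o.val : ℤ) + m) ∧ dv ((o.val : ℤ) + m - 2) = -dz (o + m) := by
  obtain ⟨-, e1, e2, e3⟩ := dz_dv o
  have h : m = 1 ∨ m = 2 ∨ m = 3 := by omega
  rcases h with rfl | rfl | rfl
  · refine ⟨by exact_mod_cast e1, ?_⟩
    rw [show (((1 : ℕ) : ZMod 4)) = 1 by norm_num, e1, ← dv_sub_two]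
    push_cast
    rfl
  · refine ⟨by exact_mod_cast e2, ?_⟩
    rw [show (((2 : ℕ) : ZMod 4)) = 2 by norm_num, e2, ← dv_sub_two]
    push_cast
    rfl
  · refine ⟨by exact_mod_cast e3, ?_⟩
    rw [show (((3 : ℕ) : ZMod 4)) = 3 by norm_num, e3, ← dv_sub_two]
    push_cast
    rfl

/-- the wall `wIn` as a segment -/
def sIn (m : ℕ) (o : ZMod 4) (v : ℤ × ℤ) (r : ℕ) : List (((ℤ × ℤ) × (ℤ × ℤ)) × ℤ) :=
  segm id (v + (r : ℤ) • dz (o + m)) ((o.val : ℤ) + m - 2) r

/-- the wall `wOut` as a segment -/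
def sOut (o : ZMod 4) (v : ℤ × ℤ) (r : ℕ) : List (((ℤ × ℤ) × (ℤ × ℤ)) × ℤ) := segm id v (o.val : ℤ) r

theorem mem_wOut {a : (ℤ × ℤ) × (ℤ × ℤ)} :
    a ∈ wOut o v r ↔ (a, (o.val : ℤ)) ∈ sOut o v r := by
  unfold wOut sOut
  rw [Finset.mem_image, (dz_dv o).1]
  constructor
  · rintro ⟨t, ht, rfl⟩
    have h1 := segm_mem (p := v) (d := (o.val : ℤ)) (Finset.mem_range.mp ht)
    have e : v + (t : ℤ) • dv (o.val : ℤ) + dv (o.val : ℤ) = v + ((t : ℤ) + 1) • dv (o.val : ℤ) := by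
      module
    rwa [e] at h1
  · intro h
    obtain ⟨i, hi, e⟩ := mem_segmP h
    refine ⟨i, Finset.mem_range.mpr hi, ?_⟩
    have e' := (Prod.mk.inj e).1
    rw [e']
    simp only [id]
    congr 1
    module

theorem mem_wIn {a : (ℤ × ℤ) × (ℤ × ℤ)} (h1 : 1 ≤ m) (h3 : m ≤ 3) :
    a ∈ wIn (o + m) v r ↔ (a, (o.val : ℤ) + m - 2) ∈ sIn m o v r := by
  have e0 := (dz_val o h1 h3).2
  unfold wIn sIn
  rw [Finset.mem_image]
  constructor
  · rintro ⟨t, ht, rfl⟩
    have ht' := Finset.mem_range.mp ht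
    have h2 := segm_mem (p := v + (r : ℤ) • dz (o + m)) (d := (o.val : ℤ) + m - 2)
      (i := r - 1 - t) (n := r) (by omega)
    have e : ((r - 1 - t : ℕ) : ℤ) = (r : ℤ) - 1 - t := by omega
    rw [e0, e] at h2
    have e1 : v + (r : ℤ) • dz (o + m) + ((r : ℤ) - 1 - t) • -dz (o + m) =
        v + ((t : ℤ) + 1) • dz (o + m) := by module
    have e2 : v + ((t : ℤ) + 1) • dz (o + m) + -dz (o + m) = v + (t : ℤ) • dz (o + m) := by module
    rw [e1, e2] at h2
    exact h2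
  · intro h
    obtain ⟨i, hi, e⟩ := mem_segmP h
    refine ⟨r - 1 - i, Finset.mem_range.mpr (by omega), ?_⟩
    have e' := (Prod.mk.inj e).1
    rw [e', e0]
    have e1 : ((r - 1 - i : ℕ) : ℤ) = (r : ℤ) - 1 - i := by omega
    simp only [id, e1]
    congr 1 <;> module

theorem lift_sOut {z : ((ℤ × ℤ) × (ℤ × ℤ)) × ℤ} (h : z ∈ sOut o v r) : z.2 = (o.val : ℤ) := by
  obtain ⟨i, hi, rfl⟩ := mem_segmP h
  rfl

theorem lift_sIn {z : ((ℤ × ℤ) × (ℤ × ℤ)) × ℤ} (h : z ∈ sIn m o v r) :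
    z.2 = (o.val : ℤ) + m - 2 := by
  obtain ⟨i, hi, rfl⟩ := mem_segmP h
  rfl

/-- **The word of a wedge.** The sides which are not on the walls are inner sides of the wedge of radius
`r + 1`. -/
theorem disc_wdg (h1 : 1 ≤ m) (h3 : m ≤ 3) (hr : 0 < r) (o : ZMod 4) (v : ℤ × ℤ) :
    ∃ N₀ N₂ : List (((ℤ × ℤ) × (ℤ × ℤ)) × ℤ), Disc ZQ ((Wdg m o v r : Finset (ℤ × ℤ)) : Set (ℤ × ℤ))
      (Glued ZQ ((Wdg m o v r : Finset (ℤ × ℤ)) : Set (ℤ × ℤ)))
      (N₀ ++ (sIn m o v r ++ ([] ++ (sOut o v r ++ N₂)))) ∧ ∀ z, z ∈ N₀ ∨ z ∈ N₂ →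
        z.1.swap ∈ Sides ZQ ((Wdg m o v (r + 1) : Finset (ℤ × ℤ)) : Set (ℤ × ℤ)) := by
  have h : m = 1 ∨ m = 2 ∨ m = 3 := by omega
  unfold sIn sOut
  rcases h with rfl | rfl | rfl
  · refine ⟨[], segm id (pt v o.val r 0) ((o.val : ℤ) + 1) r ++
      segm id (pt v o.val r r) ((o.val : ℤ) + 2) r, ?_, ?_⟩
    · refine (disc_one_quadrant hr o v).cast rfl rfl ?_
      rw [List.nil_append, List.nil_append, pt_zero]
      congr 1
      rw [(dz_val o h1 h3).1]
      refine segm_cast ?_ ?_ (by push_cast; ring)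
      · unfold pt; push_cast; congr 1; module
      · unfold pt; push_cast; congr 1; module
    · rintro z (hz | hz)
      · exact absurd hz (List.not_mem_nil)
      · rcases List.mem_append.mp hz with hz | hz
        · obtain ⟨i, hi, e⟩ := side1 (S := Wdg 1 o v (r + 1)) z hz
          rw [e, fR_mem]; omega
        · obtain ⟨i, hi, e⟩ := side2 (S := Wdg 1 o v (r + 1)) z hz
          rw [e, fR_mem]; omega
  · refine ⟨[], segm id (pt v o.val r 0) ((o.val : ℤ) + 1) r ++
      (segm id (pt v o.val r r) ((o.val : ℤ) + 2) (2 * r) ++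
        segm id (pt v o.val (-r) r) ((o.val : ℤ) + 3) r), ?_, ?_⟩
    · refine (disc_two_quadrants hr o v).cast rfl rfl ?_
      rw [List.nil_append, List.nil_append, pt_zero]
      congr 1
      rw [(dz_val o h1 h3).1]
      have e : dv ((o.val : ℤ) + ((2 : ℕ) : ℤ)) = -dv (o.val : ℤ) := by
        push_cast
        exact dv_add_two _
      rw [e]
      refine segm_cast ?_ ?_ (by push_cast; ring)
      · unfold pt; congr 1; module
      · unfold pt; congr 1; module
    · rintro z (hz | hz)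
      · exact absurd hz (List.not_mem_nil)
      · simp only [List.mem_append] at hz
        rcases hz with hz | hz | hz
        · obtain ⟨i, hi, e⟩ := side1 (S := Wdg 2 o v (r + 1)) z hz
          rw [e, fR_mem]; omega
        · obtain ⟨i, hi, e⟩ := side2 (S := Wdg 2 o v (r + 1)) z hz
          rw [e, fR_mem]; omega
        · obtain ⟨i, hi, e⟩ := side3 (S := Wdg 2 o v (r + 1)) z hz
          rw [e, fR_mem]; omega
  · refine ⟨segm id (pt v o.val (-r) 0) ((o.val : ℤ) - 1) r ++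
      segm id (pt v o.val (-r) (-r)) o.val r, segm id (pt v o.val r 0) ((o.val : ℤ) + 1) r ++
      (segm id (pt v o.val r r) ((o.val : ℤ) + 2) (2 * r) ++
        segm id (pt v o.val (-r) r) ((o.val : ℤ) + 3) r), ?_, ?_⟩
    · refine (disc_three_quadrants hr o v).cast rfl rfl ?_
      unfold w3
      rw [List.nil_append, pt_zero, List.append_assoc]
      congr 2
      congr 1
      rw [(dz_val o h1 h3).1]
      have e : dv ((o.val : ℤ) + ((3 : ℕ) : ℤ)) = -dv ((o.val : ℤ) + 1) := by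
        push_cast
        exact dv_add_three _
      rw [e]
      refine segm_cast ?_ ?_ (by push_cast; ring)
      · unfold pt; congr 1; module
      · unfold pt; congr 1; module
    · intro z hz
      simp only [List.mem_append] at hz
      rcases hz with (hz | hz) | hz | hz | hz
      · obtain ⟨i, hi, e⟩ := side3' (S := Wdg 3 o v (r + 1)) z hz
        rw [e, fR_mem]; omega
      · obtain ⟨i, hi, e⟩ := side0 (S := Wdg 3 o v (r + 1)) z hz
        rw [e, fR_mem]; omega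
      · obtain ⟨i, hi, e⟩ := side1 (S := Wdg 3 o v (r + 1)) z hz
        rw [e, fR_mem]; omega
      · obtain ⟨i, hi, e⟩ := side2 (S := Wdg 3 o v (r + 1)) z hz
        rw [e, fR_mem]; omega
      · obtain ⟨i, hi, e⟩ := side3 (S := Wdg 3 o v (r + 1)) z hz
        rw [e, fR_mem]; omega

end

end Pool.Agent.SixB.S3T
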