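import Mathlib

/-!
Propagation of smallness for bounded entire functions on a strip
(three circles and a lens version of the two constants theorem).
-/

namespace Pool.Agent.SixB.An

open Complex Metric Set
open Complex.HadamardThreeLines

/-- Three circles, radii `r, 2r, 4r`. -/
theorem three_circles {f : ℂ → ℂ} (hf : Differentiable ℂ f) {p : ℂ} {r δ : ℝ} (hr : 0 < r)
    (hδ : 0 < δ) (hδ1 : δ ≤ 1) (h1 : ∀ z ∈ closedBall p (4 * r), ‖f z‖ ≤ 1)
    (h0 : ∀ z ∈ closedBall p r, ‖f z‖ ≤ δ) :
    ∀ z ∈ closedBall p (2 * r), ‖f z‖ ≤ Real.sqrt δ := by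
  intro z hz
  have hsq : δ ≤ Real.sqrt δ := by
    apply Real.le_sqrt_of_sq_le
    nlinarith
  by_cases hzr : z ∈ closedBall p r
  · exact (h0 z hzr).trans hsq
  have hz1 : r < ‖z - p‖ := by
    simpa [mem_closedBall, dist_eq_norm] using hzr
  have hz2 : ‖z - p‖ ≤ 2 * r := by
    simpa [mem_closedBall, dist_eq_norm] using hz
  have hne : z - p ≠ 0 := by
    intro h
    rw [h] at hz1
    simp at hz1
    linarith
  have hlu : Real.log r < Real.log (4 * r) := Real.log_lt_log hr (by linarith)
  set g : ℂ → ℂ := fun w => f (p + exp w) with hg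
  have hgd : Differentiable ℂ g := hf.comp ((differentiable_const p).add Complex.differentiable_exp)
  have hmem : Complex.log (z - p) ∈ verticalClosedStrip (Real.log r) (Real.log (4 * r)) := by
    simp only [verticalClosedStrip, mem_preimage, Complex.log_re, mem_Icc]
    exact ⟨Real.log_le_log hr hz1.le, Real.log_le_log (by linarith) (by linarith)⟩
  have hnorm : ∀ w : ℂ, ‖p + exp w - p‖ = Real.exp w.re := by
    intro w
    simp [Complex.norm_exp]
  have hbig : ∀ w : ℂ, w.re ≤ Real.log (4 * r) → ‖g w‖ ≤ 1 := by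
    intro w hw
    apply h1
    rw [mem_closedBall, dist_eq_norm, hnorm]
    calc Real.exp w.re ≤ Real.exp (Real.log (4 * r)) := Real.exp_le_exp.mpr hw
      _ = 4 * r := Real.exp_log (by linarith)
  have hsmall : ∀ w : ℂ, w.re = Real.log r → ‖g w‖ ≤ δ := by
    intro w hw
    apply h0
    rw [mem_closedBall, dist_eq_norm, hnorm, hw, Real.exp_log hr]
  have key := norm_le_interp_of_mem_verticalClosedStrip' (f := g) (z := Complex.log (z - p))
    (a := δ) (b := 1) hlu hmem hgd.diffContOnCl
    (by
      refine ⟨1, ?_⟩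
      rintro _ ⟨w, hw, rfl⟩
      exact hbig w hw.2)
    (fun w hw => hsmall w hw) (fun w hw => hbig w (le_of_eq hw))
  have hgz : g (Complex.log (z - p)) = f z := by
    simp only [hg]
    rw [Complex.exp_log hne]
    ring_nf
  rw [hgz, Complex.log_re, Real.one_rpow, mul_one] at key
  refine key.trans ?_
  rw [Real.sqrt_eq_rpow]
  apply Real.rpow_le_rpow_of_exponent_ge hδ hδ1
  have h4 : Real.log (4 * r) - Real.log r = 2 * Real.log 2 := by
    rw [Real.log_mul (by norm_num) hr.ne']
    have : Real.log 4 = 2 * Real.log 2 := by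
      rw [show (4 : ℝ) = 2 ^ 2 by norm_num, Real.log_pow]
      norm_num
    linarith
  have h2 : Real.log ‖z - p‖ - Real.log r ≤ Real.log 2 := by
    have : Real.log ‖z - p‖ ≤ Real.log (2 * r) := Real.log_le_log (by linarith) hz2
    rw [Real.log_mul (by norm_num) hr.ne'] at this
    linarith
  have hl2 : 0 < Real.log 2 := Real.log_pos (by norm_num)
  rw [h4]
  have : (Real.log ‖z - p‖ - Real.log r) / (2 * Real.log 2) ≤ 1 / 2 := by
    rw [div_le_div_iff₀ (by linarith) (by norm_num)]
    linarith
  linarith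

/-- The map `(e^w - 1)/(e^w + 1)`. -/
private noncomputable def phi (w : ℂ) : ℂ := (exp w - 1) / (exp w + 1)

private theorem exp_add_one_ne {w : ℂ} (hw : |w.im| ≤ Real.pi / 2) : exp w + 1 ≠ 0 := by
  intro h
  have hre : (exp w + 1).re = 0 := by rw [h]; rfl
  rw [Complex.add_re, Complex.exp_re, Complex.one_re] at hre
  have hc : 0 ≤ Real.cos w.im := by
    apply Real.cos_nonneg_of_mem_Icc
    rw [abs_le] at hw
    exact ⟨by linarith, hw.2⟩
  have := mul_nonneg (Real.exp_pos w.re).le hc
  linarith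

private theorem norm_phi_le {w : ℂ} (hw : |w.im| ≤ Real.pi / 2) : ‖phi w‖ ≤ 1 := by
  have hne := exp_add_one_ne hw
  rw [phi, norm_div, div_le_one (norm_pos_iff.mpr hne)]
  have hc : 0 ≤ Real.cos w.im := by
    apply Real.cos_nonneg_of_mem_Icc
    rw [abs_le] at hw
    exact ⟨by linarith, hw.2⟩
  have h0 : 0 ≤ (exp w).re := by
    rw [Complex.exp_re]
    exact mul_nonneg (Real.exp_pos w.re).le hc
  rw [← abs_of_nonneg (norm_nonneg (exp w - 1)), ← abs_of_nonneg (norm_nonneg (exp w + 1)),
    ← sq_le_sq, ← Complex.normSq_eq_norm_sq, ← Complex.normSq_eq_norm_sq, Complex.normSq_apply,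
    Complex.normSq_apply]
  simp only [Complex.sub_re, Complex.sub_im, Complex.add_re, Complex.add_im, Complex.one_re,
    Complex.one_im]
  nlinarith

private theorem phi_real {w : ℂ} (hw : w.im = 0) :
    ∃ t : ℝ, phi w = (t : ℂ) ∧ |t| ≤ 1 := by
  have hwr : w = (w.re : ℂ) := by
    apply Complex.ext <;> simp [hw]
  refine ⟨(Real.exp w.re - 1) / (Real.exp w.re + 1), ?_, ?_⟩
  · rw [phi, hwr]
    push_cast
    simp
  · have he := Real.exp_pos w.re
    rw [abs_div, abs_of_pos (by linarith : 0 < Real.exp w.re + 1), div_le_one (by linarith), abs_le]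
    constructor <;> linarith

private theorem lens_half {f : ℂ → ℂ} (hf : Differentiable ℂ f) {q s δ : ℝ} (hs : 0 < s)
    (hδ : 0 < δ) (hδ1 : δ ≤ 1) (h1 : ∀ z ∈ closedBall (q : ℂ) s, ‖f z‖ ≤ 1)
    (h0 : ∀ x : ℝ, |x - q| ≤ s → ‖f x‖ ≤ δ) {w : ℂ} (hw0 : 0 ≤ w.im) (hw : w.im ≤ Real.pi / 4) :
    ‖f (q + s * phi w)‖ ≤ Real.sqrt δ := by
  have hpi := Real.pi_pos
  set G : ℂ → ℂ := fun v => f (q + s * phi (I * v)) with hG
  have him : ∀ v : ℂ, (I * v).im = v.re := by intro v; simp
  have hd : DifferentiableOn ℂ G (closure (verticalStrip 0 (Real.pi / 2))) := by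
    intro v hv
    have hv' : v ∈ verticalClosedStrip 0 (Real.pi / 2) := by
      have hcl : IsClosed (verticalClosedStrip 0 (Real.pi / 2)) :=
        isClosed_Icc.preimage Complex.continuous_re
      exact closure_minimal (preimage_mono Ioo_subset_Icc_self) hcl hv
    have hvi : |(I * v).im| ≤ Real.pi / 2 := by
      rw [him, abs_le]
      exact ⟨by have := hv'.1; linarith, hv'.2⟩
    have hne := exp_add_one_ne hvi
    apply DifferentiableAt.differentiableWithinAt
    have hphi : DifferentiableAt ℂ (fun v => phi (I * v)) v := by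
      unfold phi
      apply DifferentiableAt.div
      · fun_prop
      · fun_prop
      · exact hne
    exact (hf _).comp v ((differentiableAt_const _).add ((differentiableAt_const _).mul hphi))
  have hbig : ∀ v : ℂ, v ∈ verticalClosedStrip 0 (Real.pi / 2) → ‖G v‖ ≤ 1 := by
    intro v hv
    apply h1
    have hvi : |(I * v).im| ≤ Real.pi / 2 := by
      rw [him, abs_le]
      exact ⟨by have := hv.1; linarith, hv.2⟩
    have := norm_phi_le hvi
    rw [mem_closedBall, dist_eq_norm, add_sub_cancel_left, norm_mul, Complex.norm_real,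
      Real.norm_eq_abs, abs_of_pos hs]
    nlinarith
  have hsmall : ∀ v : ℂ, v.re = 0 → ‖G v‖ ≤ δ := by
    intro v hv
    obtain ⟨t, ht, ht1⟩ := phi_real (w := I * v) (by rw [him, hv])
    have : G v = f ((q + s * t : ℝ) : ℂ) := by
      simp only [hG]
      rw [ht]
      push_cast
      rfl
    rw [this]
    apply h0
    rw [add_sub_cancel_left, abs_mul, abs_of_pos hs]
    nlinarith
  have hmem : (-I * w) ∈ verticalClosedStrip 0 (Real.pi / 2) := by
    have : (-I * w).re = w.im := by simp
    simp only [verticalClosedStrip, mem_preimage, mem_Icc]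
    rw [this]
    exact ⟨hw0, by linarith⟩
  have key := norm_le_interp_of_mem_verticalClosedStrip' (f := G) (z := -I * w)
    (a := δ) (b := 1) (by linarith : (0 : ℝ) < Real.pi / 2) hmem hd.diffContOnCl
    (by
      refine ⟨1, ?_⟩
      rintro _ ⟨v, hv, rfl⟩
      exact hbig v hv)
    (fun v hv => hsmall v hv)
    (fun v hv => hbig v (by
      have : v.re = Real.pi / 2 := hv
      simp only [verticalClosedStrip, mem_preimage, mem_Icc]
      rw [this]
      constructor <;> linarith))
  have hGw : G (-I * w) = f (q + s * phi w) := by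
    simp only [hG]
    have : I * (-I * w) = w := by
      rw [← mul_assoc]
      simp
    rw [this]
  have hre : (-I * w).re = w.im := by simp
  rw [hGw, hre, Real.one_rpow, mul_one] at key
  refine key.trans ?_
  rw [Real.sqrt_eq_rpow]
  apply Real.rpow_le_rpow_of_exponent_ge hδ hδ1
  have : (w.im - 0) / (Real.pi / 2 - 0) ≤ 1 / 2 := by
    rw [sub_zero, sub_zero, div_le_div_iff₀ (by linarith) (by norm_num)]
    linarith
  linarith

/-- Smallness on a real segment gives smallness on a concentric disc. -/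
theorem segment_disc {f : ℂ → ℂ} (hf : Differentiable ℂ f) {q s δ : ℝ} (hs : 0 < s)
    (hδ : 0 < δ) (hδ1 : δ ≤ 1) (h1 : ∀ z ∈ closedBall (q : ℂ) s, ‖f z‖ ≤ 1)
    (h0 : ∀ x : ℝ, |x - q| ≤ s → ‖f x‖ ≤ δ) :
    ∀ z ∈ closedBall (q : ℂ) (s / 4), ‖f z‖ ≤ Real.sqrt δ := by
  intro z hz
  have hpi := Real.pi_pos
  have hz' : ‖z - q‖ ≤ s / 4 := by simpa [mem_closedBall, dist_eq_norm] using hz
  set ξ : ℂ := (z - q) / s with hξ
  have hsC : (s : ℂ) ≠ 0 := by exact_mod_cast hs.ne'
  have hzξ : z = q + s * ξ := by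
    rw [hξ]
    field_simp
    ring
  have hξn : ‖ξ‖ ≤ 1 / 4 := by
    rw [hξ, norm_div, Complex.norm_real, Real.norm_eq_abs, abs_of_pos hs, div_le_iff₀ hs]
    linarith
  have hre : |ξ.re| ≤ 1 / 4 := (Complex.abs_re_le_norm ξ).trans hξn
  have him : |ξ.im| ≤ 1 / 4 := (Complex.abs_im_le_norm ξ).trans hξn
  have hre' := abs_le.mp hre
  have him' := abs_le.mp him
  have h1p : (1 : ℂ) + ξ ≠ 0 := by
    intro h
    have := congrArg Complex.re h
    simp at this
    linarith
  have h1m : (1 : ℂ) - ξ ≠ 0 := by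
    intro h
    have := congrArg Complex.re h
    simp at this
    linarith
  set η : ℂ := (1 + ξ) / (1 - ξ) with hη
  have hηne : η ≠ 0 := div_ne_zero h1p h1m
  set w : ℂ := Complex.log η with hw
  have hew : exp w = η := Complex.exp_log hηne
  have hphi : phi w = ξ := by
    rw [phi, hew, hη]
    have h2 : (1 + ξ) / (1 - ξ) + 1 = 2 / (1 - ξ) := by field_simp; ring
    have h3 : (1 + ξ) / (1 - ξ) - 1 = 2 * ξ / (1 - ξ) := by field_simp; ring
    rw [h2, h3]
    field_simp
  -- argument of η
  have hηre : 0 < η.re ∧ |η.im| ≤ η.re := by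
    have hns : 0 < Complex.normSq (1 - ξ) := Complex.normSq_pos.mpr h1m
    have e1 : η.re = (1 - ξ.re ^ 2 - ξ.im ^ 2) / Complex.normSq (1 - ξ) := by
      rw [hη, Complex.div_re]
      simp only [Complex.add_re, Complex.one_re, Complex.sub_re, Complex.add_im, Complex.one_im,
        Complex.sub_im]
      field_simp
      ring
    have e2 : η.im = 2 * ξ.im / Complex.normSq (1 - ξ) := by
      rw [hη, Complex.div_im]
      simp only [Complex.add_re, Complex.one_re, Complex.sub_re, Complex.add_im, Complex.one_im,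
        Complex.sub_im]
      field_simp
      ring
    have hpos : 0 < 1 - ξ.re ^ 2 - ξ.im ^ 2 := by nlinarith
    constructor
    · rw [e1]; positivity
    · rw [e1, e2, abs_div, abs_of_pos hns]
      apply div_le_div_of_nonneg_right _ hns.le
      rw [abs_mul, abs_of_pos (by norm_num : (0 : ℝ) < 2)]
      have : ξ.re ^ 2 ≤ 1 / 16 := by nlinarith
      have : ξ.im ^ 2 ≤ 1 / 16 := by nlinarith
      linarith
  have hwim : |w.im| ≤ Real.pi / 4 := by
    rw [hw, Complex.log_im]
    obtain ⟨hr0, hi0⟩ := hηre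
    have hlt : |Complex.arg η| < Real.pi / 2 := by
      rw [Complex.abs_arg_lt_pi_div_two_iff]
      exact Or.inl hr0
    have hlt' := abs_lt.mp hlt
    have htan : Real.tan (Complex.arg η) = η.im / η.re := Complex.tan_arg η
    have harc : Complex.arg η = Real.arctan (η.im / η.re) := by
      rw [← htan, Real.arctan_tan hlt'.1 hlt'.2]
    have hq : |η.im / η.re| ≤ 1 := by
      rw [abs_div, abs_of_pos hr0, div_le_one hr0]
      exact hi0
    have hq' := abs_le.mp hq
    rw [harc, abs_le]
    constructor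
    · rw [← Real.arctan_one, ← Real.arctan_neg]
      exact Real.arctan_mono hq'.1
    · rw [← Real.arctan_one]
      exact Real.arctan_mono hq'.2
  rcases le_total 0 w.im with hpos | hneg
  · have := lens_half hf hs hδ hδ1 h1 h0 hpos ((abs_le.mp hwim).2)
    rw [hphi, ← hzξ] at this
    exact this
  · -- reflect
    set fc : ℂ → ℂ := fun v => (starRingEnd ℂ) (f ((starRingEnd ℂ) v)) with hfc
    have hfcd : Differentiable ℂ fc := by
      intro v
      have := (hf ((starRingEnd ℂ) v)).star_star
      simpa [hfc, Function.comp_def] using this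
    have hfcn : ∀ v, ‖fc v‖ = ‖f ((starRingEnd ℂ) v)‖ := by
      intro v
      simp [hfc]
    have h1' : ∀ z ∈ closedBall (q : ℂ) s, ‖fc z‖ ≤ 1 := by
      intro v hv
      rw [hfcn]
      apply h1
      rw [mem_closedBall, dist_eq_norm] at hv ⊢
      have : (starRingEnd ℂ) v - (q : ℂ) = (starRingEnd ℂ) (v - q) := by simp
      rw [this, Complex.norm_conj]
      exact hv
    have h0' : ∀ x : ℝ, |x - q| ≤ s → ‖fc x‖ ≤ δ := by
      intro x hx
      rw [hfcn, Complex.conj_ofReal]
      exact h0 x hx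
    have hw2 : ((starRingEnd ℂ) w).im = -w.im := by simp
    have hle := (abs_le.mp hwim).1
    have := lens_half hfcd hs hδ hδ1 h1' h0' (w := (starRingEnd ℂ) w) (by rw [hw2]; linarith)
      (by rw [hw2]; linarith)
    rw [hfcn] at this
    have hphic : phi ((starRingEnd ℂ) w) = (starRingEnd ℂ) (phi w) := by
      simp [phi, Complex.exp_conj]
    rw [hphic, hphi] at this
    have h3 : (starRingEnd ℂ) ((q : ℂ) + s * (starRingEnd ℂ) ξ) = z := by
      rw [map_add, map_mul, Complex.conj_ofReal, Complex.conj_ofReal, Complex.conj_conj, ← hzξ]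
    rw [h3] at this
    exact this

end Pool.Agent.SixB.An
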