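import Pool.Agent.Lib.SixB.S3PkY
import Pool.Agent.Lib.SixB.S3PolyAtl

/-!
# 6BD step 3, row R21: thick walls at a slab of a refined polygon

* `UpE.thick_of_rf`: for `S.D = rf n P` the walls at the slab are thick, `τ < n`.
* `UpE.near_str`, `UpE.near_flat`: near the slab the contour is straight and has no jump.
* `UpE.far_of_spc`: the special vertices of a polygon (corners and jumps) are at distance more than `8 r + 2`.
-/

set_option autoImplicit false

namespace Pool.Agent.SixB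

open Pool.Agent.Perc.Q Pool.Agent.Perc

noncomputable section

namespace UpE

variable {S : Slb} {P : Finset (ℤ × ℤ)} {n τ ρ N : ℕ} {G : ℤ → ℤ × ℤ} {j : ℤ → ℝ}

/-- **the walls at the slab of a refined polygon are thick** -/
theorem thick_of_rf (hn : 0 < n) (h : S.Ok) (hD : S.D = rf n P) (ht : τ < n) : Thick S τ := by
  intro f hf h1 h2 h3 h4
  obtain ⟨x, y⟩ := f
  simp only at h1 h2 h3 h4 ⊢
  have hx12 : S.x1 < S.x2 := h.slab.hx
  have e1 : (S.x2 - 1, y) ∈ S.D := h.slab.sub _ _ (by omega) (by omega) h1 h2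
  have e2 : (S.x2, y) ∉ S.D := h.slab.right _ h1 h2
  have e3 : (S.x1, y) ∈ S.D := h.slab.sub _ _ le_rfl hx12 h1 h2
  have e4 : (S.x1 - 1, y) ∉ S.D := h.slab.left _ h1 h2
  rw [hD, CARf.mem_rf hn] at e1 e2 e3 e4 hf
  simp only at e1 e2 e3 e4 hf
  have d2 : (n : ℤ) ∣ S.x2 := PolyAtl.dvd_of_ne hn fun he => e2 (by rw [he]; exact e1)
  have d1 : (n : ℤ) ∣ S.x1 := PolyAtl.dvd_of_ne hn fun he => e4 (by rw [← he]; exact e3)
  constructor
  · by_contra hlt
    rw [PolyAtl.div_dn hn d1 (by omega) (by omega)] at hf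
    exact e4 hf
  · by_contra hlt
    rw [PolyAtl.div_up hn d2 (by omega) (by omega)] at hf
    exact e2 hf

/-- near the slab the contour is straight, the phases are constant -/
theorem near_str (h : S.Ok) (hth : Thick S τ) (h1 : ρ + 2 ≤ τ) (h2 : S.a + ρ + 3 ≤ S.k)
    (hc : Cont S.D N G) {x : ℤ} (hx : S.near ρ (G x)) :
    (G (x - 1) = ((G x).1, (G x).2 - 1) ∧ G (x + 1) = ((G x).1, (G x).2 + 1) ∨
      G (x - 1) = ((G x).1, (G x).2 + 1) ∧ G (x + 1) = ((G x).1, (G x).2 - 1)) ∧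
    S.ψ (G x, G (x + 1)) = S.ψ (G (x - 1), G x) := by
  have hx12 : S.x1 < S.x2 := h.slab.hx
  have hk := h.hx
  have hs1 : LSide S.D (G (x - 1)) (G x) := by
    have := hc.side (x - 1)
    rwa [sub_add_cancel] at this
  have hs2 := hc.side x
  have key : ∀ u v : ℤ, S.x1 - (ρ + 2 : ℤ) ≤ u → u < S.x2 + (ρ + 2 : ℤ) → S.yc - S.k ≤ v →
      v < S.yc + S.k → ((u, v) ∈ S.D ↔ S.x1 ≤ u ∧ u < S.x2) := by
    intro u v a1 a2 a3 a4
    constructor
    · intro hm
      exact hth (u, v) hm a3 a4 (by show S.x1 - (τ : ℤ) ≤ u; omega)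
        (by show u < S.x2 + (τ : ℤ); omega)
    · rintro ⟨b1, b2⟩
      exact h.slab.sub u v b1 b2 a3 a4
  unfold Slb.near nearS at hx
  obtain ⟨c1, c2, c3, c4⟩ := hx
  generalize hv : G x = v at *
  generalize hu : G (x - 1) = u at *
  generalize hw : G (x + 1) = w at *
  obtain ⟨v1, v2⟩ := v
  obtain ⟨u1, u2⟩ := u
  obtain ⟨w1, w2⟩ := w
  unfold LSide at hs1 hs2
  simp only [Prod.mk.injEq] at hs1 hs2 c1 c2 c3 c4 ⊢
  rcases hs2 with ⟨⟨rfl, rfl⟩, m1, m2⟩ | ⟨⟨rfl, rfl⟩, m1, m2⟩ | ⟨⟨rfl, rfl⟩, m1, m2⟩ |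
    ⟨⟨rfl, rfl⟩, m1, m2⟩
  · rw [key _ _ (by omega) (by omega) (by omega) (by omega)] at m1 m2
    exact absurd m1 m2
  · rw [key _ _ (by omega) (by omega) (by omega) (by omega)] at m1 m2
    have hv1 : w1 = S.x2 := by omega
    rcases hs1 with ⟨⟨e1, e2⟩, l1, l2⟩ | ⟨⟨e1, e2⟩, l1, l2⟩ | ⟨⟨e1, e2⟩, l1, l2⟩ |
      ⟨⟨e1, e2⟩, l1, l2⟩
    · rw [key _ _ (by omega) (by omega) (by omega) (by omega)] at l1 l2
      exact absurd l1 l2
    · have a1 : u1 = S.x2 := by omega
      have a2 : u2 = v2 - 1 := by omega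
      subst a2
      subst a1
      subst hv1
      refine ⟨Or.inl ⟨⟨rfl, rfl⟩, rfl, rfl⟩, ?_⟩
      have b1 := h.right v2 (by omega) (by omega)
      have b2 := h.right (v2 - 1) (by omega) (by omega)
      rw [sub_add_cancel] at b2
      rw [b1, b2]
    · rw [key _ _ (by omega) (by omega) (by omega) (by omega)] at l1 l2
      exact absurd l1 l2
    · rw [key _ _ (by omega) (by omega) (by omega) (by omega)] at l1 l2
      omega
  · rw [key _ _ (by omega) (by omega) (by omega) (by omega)] at m1 m2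
    exact absurd m1 m2
  · rw [key _ _ (by omega) (by omega) (by omega) (by omega)] at m1 m2
    have hv1 : w1 = S.x1 := by omega
    rcases hs1 with ⟨⟨e1, e2⟩, l1, l2⟩ | ⟨⟨e1, e2⟩, l1, l2⟩ | ⟨⟨e1, e2⟩, l1, l2⟩ |
      ⟨⟨e1, e2⟩, l1, l2⟩
    · rw [key _ _ (by omega) (by omega) (by omega) (by omega)] at l1 l2
      exact absurd l1 l2
    · rw [key _ _ (by omega) (by omega) (by omega) (by omega)] at l1 l2
      omega
    · rw [key _ _ (by omega) (by omega) (by omega) (by omega)] at l1 l2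
      exact absurd l1 l2
    · have a1 : u1 = S.x1 := by omega
      have a2 : u2 = v2 + 1 := by omega
      subst a2
      subst a1
      subst hv1
      refine ⟨Or.inr ⟨⟨rfl, rfl⟩, rfl, rfl⟩, ?_⟩
      have b1 := h.left v2 (by omega) (by omega)
      have b2 := h.left (v2 - 1) (by omega) (by omega)
      rw [sub_add_cancel] at b2
      rw [b1, b2]

theorem near_crs (h : S.Ok) (hth : Thick S τ) (h1 : ρ + 2 ≤ τ) (h2 : S.a + ρ + 3 ≤ S.k)
    (hc : Cont S.D N G) {x : ℤ} (hx : S.near ρ (G x)) : crs G x = 0 := by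
  obtain ⟨h3, -⟩ := near_str h hth h1 h2 hc hx
  unfold crs
  rcases h3 with ⟨e1, e2⟩ | ⟨e1, e2⟩ <;> rw [e1, e2] <;> ring

theorem near_mm (h : S.Ok) (hth : Thick S τ) (h1 : ρ + 2 ≤ τ) (h2 : S.a + ρ + 3 ≤ S.k)
    (hc : Cont S.D N G) {x : ℤ} (hx : S.near ρ (G x)) : PolyAtl.mm G x = 2 := by
  obtain ⟨h3, -⟩ := near_str h hth h1 h2 hc hx
  have e1 := PolyAtl.dd_spec hc x
  have e2 := PolyAtl.dd_spec hc (x - 1)
  rw [sub_add_cancel] at e2
  have h4 : dz (PolyAtl.dd G (x - 1)) = dz (PolyAtl.dd G x) := by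
    have a1 := congrArg Prod.fst e1
    have a2 := congrArg Prod.snd e1
    have a3 := congrArg Prod.fst e2
    have a4 := congrArg Prod.snd e2
    simp only [Prod.fst_add, Prod.snd_add] at a1 a2 a3 a4
    rcases h3 with ⟨b1, b2⟩ | ⟨b1, b2⟩
    · rw [b2] at a1 a2
      rw [b1] at a3 a4
      simp only at a1 a2 a3 a4
      exact Prod.ext (by omega) (by omega)
    · rw [b2] at a1 a2
      rw [b1] at a3 a4
      simp only at a1 a2 a3 a4
      exact Prod.ext (by omega) (by omega)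
  unfold PolyAtl.mm
  rw [PolyAtl.dz_inj h4, add_sub_cancel_left]
  rfl

/-- **near the slab there is no corner and no jump** -/
theorem near_flat (h : S.Ok) (hth : Thick S τ) (h1 : ρ + 2 ≤ τ) (h2 : S.a + ρ + 3 ≤ S.k)
    (hc : PhC S.D N G j S.ψ) {x : ℤ} (hx : S.near ρ (G x)) : crs G x = 0 ∧ j x = 0 := by
  have e1 := near_crs h hth h1 h2 hc.cont hx
  refine ⟨e1, ?_⟩
  rw [← hc.jump x, e1, (near_str h hth h1 h2 hc.cont hx).2]
  simp

variable {T : Finset ℤ} {K : ℤ → SK} {r : ℕ} {t₀ : ℝ}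

/-- the special vertices of the polygon are not near the slab -/
theorem far_of_spc (h : S.Ok) (hD : S.D = rf n P) (hs : PolyAtl.Spc P n N G j S.ψ T K r t₀)
    (hT : ∀ x ∈ T, crs G x ≠ 0 ∨ j x ≠ 0) (hra : 16 * r ≤ S.a) :
    ∀ x ∈ T, ¬ S.near (8 * r + 2) (G x) := by
  intro x hx hnear
  have hr := hs.hr
  have hn := hs.hn
  have hk := h.hak
  have hc : Cont S.D N G := by
    rw [hD]
    exact hs.hc
  have hth : Thick S (8 * r + 4) := thick_of_rf hs.n0 h hD (by omega)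
  have e1 := near_crs h hth (ρ := 8 * r + 2) (by omega) (by omega) hc hnear
  have e2 := (near_str h hth (ρ := 8 * r + 2) (by omega) (by omega) hc hnear).2
  have e3 := hs.hψ x
  rw [e1, e2] at e3
  rcases hT x hx with h3 | h3
  · exact h3 e1
  · exact h3 (by rw [← e3]; simp)

/-- the same with the number of quadrants -/
theorem far_of_spc' (h : S.Ok) (hD : S.D = rf n P) (hs : PolyAtl.Spc P n N G j S.ψ T K r t₀)
    (hT : ∀ x ∈ T, PolyAtl.mm G x ≠ 2 ∨ j x ≠ 0) (hra : 16 * r ≤ S.a) :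
    ∀ x ∈ T, ¬ S.near (8 * r + 2) (G x) := by
  intro x hx hnear
  have hr := hs.hr
  have hn := hs.hn
  have hk := h.hak
  have hc : Cont S.D N G := by
    rw [hD]
    exact hs.hc
  have hth : Thick S (8 * r + 4) := thick_of_rf hs.n0 h hD (by omega)
  have e1 := near_crs h hth (ρ := 8 * r + 2) (by omega) (by omega) hc hnear
  have e2 := (near_str h hth (ρ := 8 * r + 2) (by omega) (by omega) hc hnear).2
  have e3 := hs.hψ x
  rw [e1, e2] at e3
  rcases hT x hx with h3 | h3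
  · exact h3 (near_mm h hth (ρ := 8 * r + 2) (by omega) (by omega) hc hnear)
  · exact h3 (by rw [← e3]; simp)

/-- `Thick` with the radius of `UpE.pocket` -/
theorem thick_of_spc (h : S.Ok) (hD : S.D = rf n P) (hs : PolyAtl.Spc P n N G j S.ψ T K r t₀) :
    Thick S (4 * r + 2) := by
  have hr := hs.hr
  have hn := hs.hn
  exact thick_of_rf hs.n0 h hD (by omega)

end UpE

end

end Pool.Agent.SixB
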