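import Pool.Agent.Lib.SixB.S3UpOs
import Pool.Agent.Lib.SixB.S3UpNum
import Pool.Agent.Lib.SixB.S3PolyFlat

/-!
# 6BD step 3, row R21: the atlases of the halves from the special positions of the contour

`Spc P n N G j ψ T K r t₀`: special positions `T` of the contour `G` of `D = rf n P`.
* `UpE.prt G r B T`: the positions whose charts lie in the part `B`, `UpE.tyP G K r B T` their types.
* `UpE.planar`, `UpE.planarM`: `polyAtlas`, `polyM` in the form needed for the pockets.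
* `UpE.hiSpc`, `UpE.loSpc`: atlases of the halves, all island sides are covered.
-/

set_option autoImplicit false
set_option linter.unusedSectionVars false

namespace Pool.Agent.SixB

open Pool.Agent.Perc.Q Pool.Agent.Perc EmbH EnvB

noncomputable section

namespace UpE

variable {S : Slb} {W : Finset (ℤ × ℤ)} {X Y : ℤ} {B : ℤ × ℤ → Prop} {r : ℕ} {t₀ : ℝ}
  {P : Finset (ℤ × ℤ)} {n N : ℕ} {G : ℤ → ℤ × ℤ} {j : ℤ → ℝ} {T : Finset ℤ} {K : ℤ → SK}

open Classical in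
/-- the positions whose charts lie in `B` -/
def prt (G : ℤ → ℤ × ℤ) (r : ℕ) (B : ℤ × ℤ → Prop) (T : Finset ℤ) : Finset ℤ :=
  T.filter fun x => ∀ f ∈ Wdg (PolyAtl.mm G x) (PolyAtl.dd G x) (G x) (4 * r + 1), B f

/-- their types -/
def tyP (G : ℤ → ℤ × ℤ) (K : ℤ → SK) (r : ℕ) (B : ℤ × ℤ → Prop) (T : Finset ℤ) : Multiset VT :=
  (prt G r B T).val.map fun x => (K x, PolyAtl.mm G x)

theorem mem_prt {x : ℤ} : x ∈ prt G r B T ↔ x ∈ T ∧
    ∀ f ∈ Wdg (PolyAtl.mm G x) (PolyAtl.dd G x) (G x) (4 * r + 1), B f := by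
  unfold prt
  simp only [Finset.mem_filter]

theorem prt_all : prt G r (fun _ => True) T = T := by
  ext x
  rw [mem_prt]
  simp

/-- types over a subtype -/
theorem ty_sub {γ : Type} (p : ℤ → Prop) (T : Finset ℤ) (g : ℤ → γ) [DecidablePred p]
    [DecidablePred fun i : {x // x ∈ T} => p i.1] :
    (((Finset.univ : Finset {x // x ∈ T}).filter fun i => p i.1).val.map fun i => g i.1) =
      (T.filter p).val.map g := by
  have h : T.filter p = ((Finset.univ : Finset {x // x ∈ T}).filter fun i => p i.1).map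
      ⟨Subtype.val, Subtype.val_injective⟩ := by
    ext x
    simp only [Finset.mem_filter, Finset.mem_map, Finset.mem_univ, true_and,
      Function.Embedding.coeFn_mk, Subtype.exists, exists_and_left, exists_prop,
      exists_eq_right_right]
    tauto
  rw [h, Finset.map_val, Multiset.map_map]
  rfl

open Classical in
/-- **the planar atlas of `S.D`** -/
theorem planar (h : S.Ok) (hD : S.D = rf n P) (hs : PolyAtl.Spc P n N G j S.ψ T K r t₀)
    (hT : ∀ x ∈ T, PolyAtl.mm G x ≠ 2 ∨ j x ≠ 0) (hra : 16 * r ≤ S.a) :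
    ∃ A : PAtlas ZQ S.D S.ψ (bS ZQ S.D) (bS ZQ S.D) r T.card (N / r + 1 + 2 * T.card) t₀,
      A.Flat ∧ (∀ i, ¬ S.near (8 * r + 2) (A.v i)) ∧ (∀ i, A.m' i = 2 ∧ (A.nch i).Jump S.ψ 0) ∧
      ∀ B : ℤ × ℤ → Prop, (((Finset.univ : Finset A.κ).filter fun i =>
        ∀ f ∈ Wdg (A.m i) (A.o i) (A.v i) (4 * r + 1), B f).val.map fun i => (A.K i, A.m i)) =
          tyP G K r B T := by
  have hf := far_of_spc' h hD hs hT hra
  rw [hD]
  refine ⟨(PolyAtl.polyAtlas hs le_rfl le_rfl).toP, PolyAtl.polyAtlas_flat hs le_rfl le_rfl,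
    fun i => hf i.1 i.2, fun i => ⟨hs.mm_far (hs.cen_far i.2), hs.njump (hs.cen_far i.2)⟩, ?_⟩
  intro B
  unfold tyP prt
  refine Eq.trans ?_ (ty_sub (fun x => ∀ f ∈ Wdg (PolyAtl.mm G x) (PolyAtl.dd G x) (G x) (4 * r + 1), B f)
    T (fun x => (K x, PolyAtl.mm G x)))
  rfl

open Classical in
/-- **the planar atlas of `S.D` without the marked sides** -/
theorem planarM (h : S.Ok) (hD : S.D = rf n P) (hs : PolyAtl.Spc P n N G j S.ψ T K r t₀)
    (hT : ∀ x ∈ T, PolyAtl.mm G x ≠ 2 ∨ j x ≠ 0) (hra : 16 * r ≤ S.a) :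
    ∃ A : PAtlas ZQ S.D S.ψ (bS ZQ S.D) (PolyAtl.Spc.CM P n G T K r) r
        (T.filter fun x => PolyAtl.mkb (K x) = false).card (N / r + 1 + 2 * T.card) t₀,
      A.Flat ∧ (∀ i, ¬ S.near (8 * r + 2) (A.v i)) ∧ (∀ i, A.m' i = 2 ∧ (A.nch i).Jump S.ψ 0) ∧
      ∀ B : ℤ × ℤ → Prop, (((Finset.univ : Finset A.κ).filter fun i =>
        ∀ f ∈ Wdg (A.m i) (A.o i) (A.v i) (4 * r + 1), B f).val.map fun i => (A.K i, A.m i)) =
          tyP G K r B (T.filter fun x => PolyAtl.mkb (K x) = false) := by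
  have hf := far_of_spc' h hD hs hT hra
  rw [hD]
  refine ⟨PolyAtl.polyM hs le_rfl le_rfl, ?_,
    fun i => hf i.1 (Finset.mem_filter.1 i.2).1,
    fun i => ⟨hs.mm_farM (hs.cenM_far i.2), hs.njumpM (hs.cenM_far i.2)⟩, ?_⟩
  · exact ⟨fun _ _ => rfl, fun _ _ => rfl, fun _ _ => rfl, fun _ _ => rfl,
      ⟨fun i => Empty.elim i⟩⟩
  intro B
  unfold tyP prt
  refine Eq.trans ?_ (ty_sub (fun x => ∀ f ∈ Wdg (PolyAtl.mm G x) (PolyAtl.dd G x) (G x) (4 * r + 1), B f)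
    (T.filter fun x => PolyAtl.mkb (K x) = false) (fun x => (K x, PolyAtl.mm G x)))
  rfl

/-- **the atlas of the upper half** -/
theorem hiSpc (h : S.Ok) (hD : S.D = rf n P) (hs : PolyAtl.Spc P n N G j S.ψ T K r t₀)
    (hT : ∀ x ∈ T, PolyAtl.mm G x ≠ 2 ∨ j x ≠ 0) (hra : 16 * r ≤ S.a) {y : ℤ}
    (hy1 : S.yc - S.a < y) (hy2 : y + (4 * r + 1) ≤ S.yc + S.a) {nB : ℕ}
    (hb : BlkU S W X Y r nB t₀) :
    ∃ C, PAV (S.env W X Y).Q ((S.env W X Y).hi y) (S.ph W X Y)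
      (zh (S.env W X Y) ((S.env W X Y).hi y)) C r (nB + (12 + (N / r + 1 + 2 * T.card))) t₀
      (nU S X (4 * r) ∪ reg S X Y (fun f => f ∈ S.Up) (4 * r + 1))
      (nU S X r ∪ reg S X Y (fun f => f ∈ S.Up) (7 * r + 1)) (nO ∪ reg S X Y (fun f => f ∈ S.Up) r)
      (gU S (4 * r + 1)) (St.blkV S.mu + tyP G K r (fun f => f ∈ S.Up) T) ∧
      zh (S.env W X Y) ((S.env W X Y).hi y) ⊆ C := by
  obtain ⟨A, a1, a2, a3, a4⟩ := planar h hD hs hT hra
  obtain ⟨C, h1, h2⟩ := hiPAV h (by have := hs.hr; omega) hra (thick_of_spc h hD hs) hy1 hy2 hb A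
    subset_rfl a1 a2 a3
  refine ⟨C, h1.tps ?_, fun a ha => ?_⟩
  · rw [← a4]
    rfl
  · rcases h2 a ha with h3 | ⟨f, k, -, -, -, h3, h4, -⟩
    · exact h3
    · exact absurd h3 h4

/-- **the atlas of the lower half** -/
theorem loSpc (h : S.Ok) (hD : S.D = rf n P) (hs : PolyAtl.Spc P n N G j S.ψ T K r t₀)
    (hT : ∀ x ∈ T, PolyAtl.mm G x ≠ 2 ∨ j x ≠ 0) (hra : 16 * r ≤ S.a) {y : ℤ}
    (hy1 : S.yc - S.a + (4 * r + 1) ≤ y) (hy2 : y < S.yc + S.a) {nB : ℕ}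
    (hb : BlkL S W X Y r nB t₀) :
    ∃ C, PAV (S.env W X Y).Q ((S.env W X Y).lo y) (S.ph W X Y)
      (zh (S.env W X Y) ((S.env W X Y).lo y)) C r (nB + (12 + (N / r + 1 + 2 * T.card))) t₀
      (nL S Y (4 * r) ∪ reg S X Y (fun f => f ∈ S.Lo) (4 * r + 1))
      (nL S Y r ∪ reg S X Y (fun f => f ∈ S.Lo) (7 * r + 1)) (nO ∪ reg S X Y (fun f => f ∈ S.Lo) r)
      (gL S (4 * r + 1)) (St.blkV S.ml + tyP G K r (fun f => f ∈ S.Lo) T) ∧
      zh (S.env W X Y) ((S.env W X Y).lo y) ⊆ C := by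
  obtain ⟨A, a1, a2, a3, a4⟩ := planar h hD hs hT hra
  obtain ⟨C, h1, h2⟩ := loPAV h (by have := hs.hr; omega) hra (thick_of_spc h hD hs) hy1 hy2 hb A
    subset_rfl a1 a2 a3
  refine ⟨C, h1.tps ?_, fun a ha => ?_⟩
  · rw [← a4]
    rfl
  · rcases h2 a ha with h3 | ⟨f, k, -, -, -, h3, h4, -⟩
    · exact h3
    · exact absurd h3 h4

end UpE

end

end Pool.Agent.SixB
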