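import Pool.Agent.Lib.SixB.S3UpLf
import Pool.Agent.Lib.SixB.S3UpD

/-!
# 6BD step 3, row R21 b: the atlas of the left half from the special positions of the contour

`UpE.lfSpc`: the form of `UpE.hiSpc`, `UpE.loSpc` for the left half.
-/

set_option autoImplicit false
set_option linter.unusedSectionVars false

namespace Pool.Agent.SixB

open Pool.Agent.Perc.Q Pool.Agent.Perc EmbH EnvB

noncomputable section

namespace UpE

variable {S : Slb} {W : Finset (ℤ × ℤ)} {X Y : ℤ} {B : ℤ × ℤ → Prop} {r : ℕ} {t₀ : ℝ}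
  {P : Finset (ℤ × ℤ)} {n N : ℕ} {G : ℤ → ℤ × ℤ} {j : ℤ → ℝ} {T : Finset ℤ} {K : ℤ → SK}

/-- **the atlas of the left half** -/
theorem lfSpc (h : S.Ok) (hD : S.D = rf n P) (hs : PolyAtl.Spc P n N G j S.ψ T K r t₀)
    (hT : ∀ x ∈ T, PolyAtl.mm G x ≠ 2 ∨ j x ≠ 0) (hra : 16 * r ≤ S.a) {x0 : ℤ}
    (hU : BlkS.WinU S W X 1) (hL : BlkS.WinL S W Y 1)
    (h0 : S.x2 + X + 7 * S.k + 1 ≤ x0) (h1 : S.x2 + Y + 7 * S.k + 1 ≤ x0) {nB nB' : ℕ}
    (hbU : BlkU S (wlf W x0) X Y r nB t₀) (hbL : BlkL S (wlf W x0) X Y r nB' t₀) :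
    ∃ C, PAV (S.env W X Y).Q ((S.env W X Y).lf x0) (S.ph W X Y)
      (zh (S.env W X Y) ((S.env W X Y).lf x0)) C r
      (nB + nB' + (12 + (N / r + 1 + 2 * T.card))) t₀
      (nU S X (4 * r) ∪ nL S Y (4 * r) ∪ reg S X Y (fun _ => True) (4 * r + 1))
      (nU S X r ∪ nL S Y r ∪ reg S X Y (fun _ => True) (7 * r + 1))
      (nO ∪ reg S X Y (fun _ => True) r)
      ((gU S (4 * r + 1) ∪ gL S (4 * r + 1)) ∩ {x | x ∈ (S.env W X Y).lf x0})
      (St.blkV S.mu + St.blkV S.ml + T.val.map fun x => (K x, PolyAtl.mm G x)) ∧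
      zh (S.env W X Y) ((S.env W X Y).lf x0) ⊆ C := by
  classical
  obtain ⟨A, a1, a2, a3, a4⟩ := planar h hD hs hT hra
  obtain ⟨C, c1, c2⟩ := lfPAV h (by have := hs.hr; omega) hra (thick_of_spc h hD hs) hU hL h0 h1 hbU
    hbL A subset_rfl a1 a2 a3
  refine ⟨C, c1.tps ?_, fun a ha => ?_⟩
  · have h5 := a4 fun _ => True
    unfold tyP at h5
    rw [prt_all] at h5
    rw [← h5]
    congr 3
    ext i
    simp
  · rcases c2 a ha with h3 | ⟨f, k, -, -, -, h3, h4, -⟩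
    · exact h3
    · exact absurd h3 h4

end UpE

end

end Pool.Agent.SixB
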