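import Pool.Agent.Lib.SixB.S3PkY
import Pool.Agent.Lib.SixB.S3MirV

/-!
# 6BD step 3, row R21 (B): the pockets of the mirrored half with the marked side

* `Dbl.sjumpR_congr`, `UpE.wchF_sjumpR`: the marked chart (marked side before the centre) in the half.
* `UpE.offW`: a chart of `D` off the slab as a chart of `D` minus the slab.
* `UpE.farT`, `UpE.pocketT`: `UpE.far`, `UpE.pocket` with the planar boxes kept in the regions.
* `UpE.Che`: marked charts of `D` (marked side before the centre); `UpE.pocketM`: the mirror image of the pockets of a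
  part of the environment, the marks included; `UpE.halfM`: together with the blocks.
-/

set_option autoImplicit false
set_option linter.unusedSectionVars false

namespace Pool.Agent.SixB

open Pool.Agent.Perc.Q Pool.Agent.Perc EmbH

noncomputable section

namespace Dbl

theorem eI_mem {e : ZMod 4} {v : ℤ × ℤ} {r : ℕ} (hr : 0 < r) : eI e v ∈ wIn e v r := by
  unfold wIn eI
  rw [Finset.mem_image]
  exact ⟨0, Finset.mem_range.mpr hr, by simp⟩

section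

variable {V Φ V' Φ' : Type} [DecidableEq V] [DecidableEq Φ] [DecidableEq V'] [DecidableEq Φ']
  {Q : QC V Φ} {F : Finset Φ} {Q' : QC V' Φ'}
  {F' : Finset Φ'} {ψ : V × V → ℝ} {ψ' : V' × V' → ℝ}

theorem sjumpR_congr {m : ℕ} {o : ZMod 4} {v : ℤ × ℤ} {r : ℕ} {c : WChart Q F m o v r}
    {c' : WChart Q' F' m o v r} {K : SK} (hr : 0 < r)
    (h : ∀ a ∈ wIn (o + m) v r ∪ wOut o v r, ψ' (c'.side a) = ψ (c.side a)) (hJ : SJumpR c K ψ) :
    SJumpR c' K ψ' := by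
  have he : ψ' (c'.side (eI (o + m) v)) = ψ (c.side (eI (o + m) v)) :=
    h _ (Finset.mem_union_left _ (eI_mem hr))
  cases K with
  | ver J => exact jump_congr h hJ
  | e =>
    obtain ⟨hm, p, h1, h2, h3⟩ := hJ
    refine ⟨hm, p, fun a ha => ?_, ?_, fun a ha => ?_⟩
    · rw [h a (Finset.mem_union_left _ (Finset.mem_of_mem_erase ha))]
      exact h1 a ha
    · rw [he]
      exact h2
    · rw [h a (Finset.mem_union_right _ ha)]
      exact h3 a ha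
  | em =>
    obtain ⟨hm, p, h1, h2, h3⟩ := hJ
    refine ⟨hm, p, fun a ha => ?_, ?_, fun a ha => ?_⟩
    · rw [h a (Finset.mem_union_left _ (Finset.mem_of_mem_erase ha))]
      exact h1 a ha
    · rw [he]
      exact h2
    · rw [h a (Finset.mem_union_right _ ha)]
      exact h3 a ha

end

end Dbl

namespace UpE

variable {S : Slb} {W : Finset (ℤ × ℤ)} {X Y : ℤ} {B : ℤ × ℤ → Prop}
  {F' : Finset (Option Bool × (ℤ × ℤ))}
  {Z' : Finset ((Option Bool × (ℤ × ℤ)) × (Option Bool × (ℤ × ℤ)))} {r nS nN : ℕ} {t₀ t₁ : ℝ}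
  {ZD CD : Finset ((ℤ × ℤ) × (ℤ × ℤ))}

section wchF

variable (h : S.Ok) (H : Half S W X Y B F' Z') {m : ℕ} {o : ZMod 4} {v : ℤ × ℤ} {ρ : ℕ}
    (hm : 1 ≤ m ∧ m ≤ 3) (c : WChart ZQ (S.D \ S.slb) m o v ρ)
    (hc : ∀ a ∈ wIn (o + m) v ρ ∪ wOut o v ρ, c.side a ∈ bS ZQ S.D)
    (hB : ∀ f ∈ Wdg m o v ρ, B (c.φF f))

theorem wchF_ph : ∀ a ∈ wIn (o + m) v ρ ∪ wOut o v ρ,
    S.ph W X Y ((wchF h H hm c hc hB).side a) = S.ψ (c.side a) := by
  intro a ha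
  rw [wchF_side]
  refine h.keepsShr.ph _ ?_ (hc a ha)
  rcases Finset.mem_union.1 ha with h1 | h1
  · exact c.bIn a h1
  · exact c.bOut a h1

theorem wchF_sjumpR (hρ : 0 < ρ) {K : SK} (hJ : Dbl.SJumpR c K S.ψ) :
    Dbl.SJumpR (wchF h H hm c hc hB) K (S.ph W X Y) :=
  Dbl.sjumpR_congr hρ (wchF_ph h H hm c hc hB) hJ

end wchF

/-- a chart of `D` off the slab -/
def offW {m : ℕ} {o : ZMod 4} {v : ℤ × ℤ} {ρ : ℕ} (c : WChart ZQ S.D m o v ρ) (hm : 1 ≤ m ∧ m ≤ 3)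
    (hF : ∀ f, c.φF f = f) (hv : ¬ S.near ρ v) : WChart ZQ (S.D \ S.slb) m o v ρ :=
  c.restr hm Finset.sdiff_subset fun f hf => by
    rw [Finset.mem_sdiff]
    refine ⟨c.sub f hf, ?_⟩
    rw [hF]
    exact off_box hv (Wdg_sub_Bx hf)

/-- images of the faces of a planar set -/
def imT (S : Slb) (X Y : ℤ) (T : Set (ℤ × ℤ)) : Set (Option Bool × (ℤ × ℤ)) :=
  {x | ∃ f ∈ T, x = S.shrF X Y f}

/-- **the pushed atlas with its regions and its planar boxes** -/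
theorem farT (h : S.Ok) (H : Half S W X Y B F' Z') (A : PAtlas ZQ S.D S.ψ ZD CD r nS nN t₀)
    (hA : A.Flat) (hS : ∀ i, ¬ S.near (8 * r + 2) (A.v i))
    (hfl : ∀ i, A.m' i = 2 ∧ (A.nch i).Jump S.ψ 0) {T4 T1 T2 : Set (ℤ × ℤ)}
    (hT4 : ∀ i, ∀ f ∈ Wdg (A.m i) (A.o i) (A.v i) (4 * r), f ∈ T4)
    (hT1 : ∀ i, ∀ f ∈ Wdg (A.m i) (A.o i) (A.v i) r, f ∈ T1)
    (hT2 : ∀ i, ∀ f ∈ Wdg (A.m' i) (A.o' i) (A.v' i) (2 * r), f ∈ T2) :
    PAV (S.env W X Y).Q F' (S.ph W X Y) Z'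
      ((selC B (farC S.x1 S.x2 (S.yc - S.a) (S.yc + S.a) (4 * r + 1) CD)).image (h.shr W X Y).side)
      r nN t₀ (reg S X Y B (4 * r + 1) ∩ imT S X Y T4) (reg S X Y B (7 * r + 1) ∩ imT S X Y T1)
      (reg S X Y B r ∩ imT S X Y T2) (pks F') ((S.selK B A).val.map fun i => (A.K i, A.m i)) := by
  classical
  have hD : ∀ i : (farP h H A hA hS).κ, ∀ f ∈ Wdg (A.m i.1.1.1.1) (A.o i.1.1.1.1) (A.v i.1.1.1.1) (4 * r + 1),
      f ∈ S.D \ S.slb := by
    intro i f hf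
    rw [Finset.mem_sdiff]
    have h5 := (A.ch i.1.1.1.1).sub f hf
    rw [hA.sF] at h5
    exact ⟨h5, off_box (fun h6 => hS i.1.1.1.1 (near_mono h6 (by omega))) (Wdg_sub_Bx hf)⟩
  have hDn : ∀ i : (farP h H A hA hS).ι, ∀ f ∈ Wdg (A.m' i.1.1.1.1) (A.o' i.1.1.1.1) (A.v' i.1.1.1.1)
      (2 * r + 1), f ∈ S.D \ S.slb := by
    intro i f hf
    rw [Finset.mem_sdiff]
    have h5 := (A.nch i.1.1.1.1).sub f hf
    rw [hA.nF] at h5
    exact ⟨h5, off_box i.1.1.1.2.1 (Wdg_sub_Bx hf)⟩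
  refine PAV.of (farP h H A hA hS) ?_ ?_ ?_ ?_ ?_ ?_ ?_ ?_
  · intro i x hx
    unfold WChart.box at hx
    rw [Finset.mem_image] at hx
    obtain ⟨f, hf, rfl⟩ := hx
    have hf' := Wdg_mono (show 4 * r ≤ 4 * r + 1 by omega) hf
    have hx1 : ((farP h H A hA hS).ch i).φF f = S.shrF X Y f := by
      show S.shrF X Y ((A.ch i.1.1.1.1).φF f) = _
      rw [hA.sF]
    refine ⟨⟨f, hD i f hf', i.1.1.1.2 f hf', ?_, hx1⟩, f, hT4 _ f hf, hx1⟩
    intro h1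
    refine hS i.1.1.1.1 ?_
    have h2 := mem_Bx.1 (Wdg_sub_Bx hf)
    change (A.v i.1.1.1.1).1 - ((4 * r : ℕ) : ℤ) ≤ f.1 ∧ f.1 < (A.v i.1.1.1.1).1 + ((4 * r : ℕ) : ℤ) ∧
      (A.v i.1.1.1.1).2 - ((4 * r : ℕ) : ℤ) ≤ f.2 ∧ f.2 < (A.v i.1.1.1.1).2 + ((4 * r : ℕ) : ℤ) at h2
    unfold nearF at h1
    unfold Slb.near nearS
    push_cast at *
    omega
  · intro i x hx
    unfold WChart.box at hx
    rw [Finset.mem_image] at hx
    obtain ⟨f, hf, rfl⟩ := hx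
    have hf' := Wdg_mono (show r ≤ 4 * r + 1 by omega) hf
    have hx1 : ((farP h H A hA hS).ch i).φF f = S.shrF X Y f := by
      show S.shrF X Y ((A.ch i.1.1.1.1).φF f) = _
      rw [hA.sF]
    refine ⟨⟨f, hD i f hf', i.1.1.1.2 f hf', ?_, hx1⟩, f, hT1 _ f hf, hx1⟩
    intro h1
    refine hS i.1.1.1.1 ?_
    have h2 := mem_Bx.1 (Wdg_sub_Bx hf)
    change (A.v i.1.1.1.1).1 - (r : ℤ) ≤ f.1 ∧ f.1 < (A.v i.1.1.1.1).1 + (r : ℤ) ∧
      (A.v i.1.1.1.1).2 - (r : ℤ) ≤ f.2 ∧ f.2 < (A.v i.1.1.1.1).2 + (r : ℤ) at h2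
    unfold nearF at h1
    unfold Slb.near nearS
    push_cast at *
    omega
  · intro i x hx
    unfold WChart.box at hx
    rw [Finset.mem_image] at hx
    obtain ⟨f, hf, rfl⟩ := hx
    have hf' := Wdg_mono (show 2 * r ≤ 2 * r + 1 by omega) hf
    have hx1 : ((farP h H A hA hS).nch i).φF f = S.shrF X Y f := by
      show S.shrF X Y ((A.nch i.1.1.1.1).φF f) = _
      rw [hA.nF]
    refine ⟨⟨f, hDn i f hf', i.1.1.1.2.2 f hf', ?_, hx1⟩, f, hT2 _ f hf, hx1⟩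
    intro h1
    have h3 : ¬ S.near (3 * r + 1) (A.v' i.1.1.1.1) := i.2
    refine h3 ?_
    have h2 := mem_Bx.1 (Wdg_sub_Bx hf)
    change (A.v' i.1.1.1.1).1 - ((2 * r : ℕ) : ℤ) ≤ f.1 ∧ f.1 < (A.v' i.1.1.1.1).1 + ((2 * r : ℕ) : ℤ) ∧
      (A.v' i.1.1.1.1).2 - ((2 * r : ℕ) : ℤ) ≤ f.2 ∧
        f.2 < (A.v' i.1.1.1.1).2 + ((2 * r : ℕ) : ℤ) at h2
    unfold nearF at h1
    unfold Slb.near nearS
    push_cast at *
    omega
  · intro i f hf
    exact ⟨((farP h H A hA hS).ch i).sub f hf, shrF_ne _ _ _ _⟩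
  · intro i f hf
    exact ⟨((farP h H A hA hS).nch i).sub f hf, shrF_ne _ _ _ _⟩
  · intro i
    obtain ⟨h1, p, q, h2, h3, h4⟩ := hfl i.1.1.1.1
    refine ⟨h1, p, q, ?_, ?_, h4⟩
    · intro a ha
      rw [← h2 a ha]
      show S.ph W X Y ((h.shr W X Y).side ((A.nch i.1.1.1.1).side a)) = _
      have h5 := (A.nch i.1.1.1.1).bIn a ha
      rw [h.keepsShr.ph _ ?_ h5]
      obtain ⟨f, hf, h6⟩ := wIn_face (A.m'_rng i.1.1.1.1).1
        (by have := (A.m'_rng i.1.1.1.1).2; omega) ha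
      rw [hA.n, h6] at h5 ⊢
      exact SixB.bS_anti Finset.sdiff_subset h5 (sd_mem (hDn i f hf) _)
    · intro a ha
      rw [← h3 a ha]
      show S.ph W X Y ((h.shr W X Y).side ((A.nch i.1.1.1.1).side a)) = _
      have h5 := (A.nch i.1.1.1.1).bOut a ha
      rw [h.keepsShr.ph _ ?_ h5]
      obtain ⟨f, hf, h6⟩ := wOut_face (A.m'_rng i.1.1.1.1).1 ha
      rw [hA.n, h6] at h5 ⊢
      exact SixB.bS_anti Finset.sdiff_subset h5 (sd_mem (hDn i f hf) _)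
  · exact ⟨fun i => hA.mu.elim i.1.1.1.1⟩
  · exact (sub_true _ _).trans ((sub_true _ _).trans ((sub_true _ _).trans
      ((sub_map _ _ (fun i => (A.K i, A.m i))).trans (by unfold Slb.selK; congr!))))

/-- **the atlas of the pockets with its planar boxes**; `T2` contains the strips next to the mouths -/
theorem pocketT (h : S.Ok) (H : Half S W X Y B F' Z') (hr : 0 < r) (hra : 16 * r ≤ S.a)
    (hth : Thick S (4 * r + 2)) (A : PAtlas ZQ S.D S.ψ ZD CD r nS nN t₀) (hCD : CD ⊆ bS ZQ S.D)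
    (hA : A.Flat) (hS : ∀ i, ¬ S.near (8 * r + 2) (A.v i))
    (hfl : ∀ i, A.m' i = 2 ∧ (A.nch i).Jump S.ψ 0) {T4 T1 T2 : Set (ℤ × ℤ)}
    (hT4 : ∀ i, ∀ f ∈ Wdg (A.m i) (A.o i) (A.v i) (4 * r), f ∈ T4)
    (hT1 : ∀ i, ∀ f ∈ Wdg (A.m i) (A.o i) (A.v i) r, f ∈ T1)
    (hT2 : ∀ i, ∀ f ∈ Wdg (A.m' i) (A.o' i) (A.v' i) (2 * r), f ∈ T2)
    (hst : ∀ f, nearF S (7 * r) f → f ∈ T2) :
    PAV (S.env W X Y).Q F' (S.ph W X Y) Z'
      ((selC (fun f => B f ∧ off2 S r f) CD).image (h.shr W X Y).side)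
      r (12 + nN) t₀ (reg S X Y B (4 * r + 1) ∩ imT S X Y T4) (reg S X Y B (7 * r + 1) ∩ imT S X Y T1)
      (reg S X Y B r ∩ imT S X Y T2) (pks F') ((S.selK B A).val.map fun i => (A.K i, A.m i)) := by
  classical
  have hk := h.hak
  have h1 := strip (t₀ := t₀) h H hr hra
  have h2 := farT h H A hA hS hfl hT4 hT1 hT2
  refine ((h1.union h2 (by simp) ?_ (by simp)).tps (zero_add _)).mono ?_ le_rfl (by simp) (by simp)
    ?_ (by simp)
  · rw [Set.disjoint_left]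
    rintro x ⟨f, h3, h4, h5, h6, h7, rfl⟩ ⟨⟨g, h8, h9, h10, h11⟩, -⟩
    have h12 : f = g := h.shr_injF (W := W) (X := X) (Y := Y) h11
    refine h10 ?_
    rw [← h12]
    unfold nearF
    push_cast
    rcases h7 with h7 | h7 <;> omega
  · intro a ha
    rw [Finset.mem_image] at ha
    obtain ⟨b, hb, rfl⟩ := ha
    obtain ⟨h3, f, k, rfl, h4, h5⟩ := mem_selC.1 hb
    by_cases h6 : nearS S.x1 S.x2 (S.yc - S.a) (S.yc + S.a) (4 * r + 1) (sd ZQ f k).1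
    · refine Finset.mem_union_left _ (Finset.mem_image_of_mem _ (mem_selC.2 ⟨?_, f, k, rfl, h4⟩))
      have h7 := corner_near (f := f) (k := k)
      unfold nearS at h6
      push_cast at h6
      unfold off2 at h5
      have h10 : S.x1 ≤ f.1 ∧ f.1 < S.x2 :=
        hth f (bS_fst (hCD h3)) (by omega) (by omega) (by push_cast; omega) (by push_cast; omega)
      have h8 := near_wall h hth (hCD h3) (by omega) (by omega) (by push_cast; omega)
        (by push_cast; omega)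
      have h9 : S.yc + S.a + 2 * r ≤ f.2 ∧ f.2 < S.yc + S.a + 6 * r ∨
          S.yc - S.a - 6 * r ≤ f.2 ∧ f.2 < S.yc - S.a - 2 * r := by omega
      unfold wll wls
      simp only [Finset.mem_union, Finset.mem_image, Finset.mem_Ico]
      rcases h8 with h8 | h8 <;> rcases h9 with h9 | h9
      · exact Or.inl (Or.inl ⟨f.2, h9, h8.symm⟩)
      · exact Or.inr (Or.inl ⟨f.2, h9, h8.symm⟩)
      · exact Or.inl (Or.inr ⟨f.2, h9, h8.symm⟩)
      · exact Or.inr (Or.inr ⟨f.2, h9, h8.symm⟩)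
    · refine Finset.mem_union_right _ (Finset.mem_image_of_mem _ (mem_selC.2 ⟨?_, f, k, rfl, h4⟩))
      unfold farC
      rw [Finset.mem_filter]
      exact ⟨h3, h6⟩
  · rintro x (⟨f, h3, h4, h5, h6, h7, rfl⟩ | hx)
    · refine ⟨⟨f, h3, h4, fun h8 => ?_, rfl⟩, f, hst f ?_, rfl⟩
      · unfold nearF at h8
        omega
      · unfold nearF
        push_cast
        omega
    · exact hx

/-! ## The marked charts -/

/-- charts of the marks of `D` (marked side before the centre) off the slab and off the charts of `A` -/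
structure Che (S : Slb) {ZD CD : Finset ((ℤ × ℤ) × (ℤ × ℤ))} {r nS nN : ℕ} {t₀ : ℝ}
    (A : PAtlas ZQ S.D S.ψ ZD CD r nS nN t₀) where
  κ : Type
  [fκ : Fintype κ]
  [dκ : DecidableEq κ]
  K : κ → SK
  m : κ → ℕ
  o : κ → ZMod 4
  v : κ → ℤ × ℤ
  c : ∀ i, WChart ZQ S.D (m i) (o i) (v i) (4 * r + 1)
  m2 : ∀ i, m i = 2
  s : ∀ i a, (c i).side a = a
  F : ∀ i f, (c i).φF f = f
  J : ∀ i, Dbl.SJumpR (c i) (K i) S.ψ
  ke : ∀ i, K i = .e ∨ K i = .em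
  far : ∀ i, ¬ S.near (8 * r + 2) (v i)
  disj : ∀ i j, i ≠ j → Disjoint (Wdg (m i) (o i) (v i) (4 * r)) (Wdg (m j) (o j) (v j) (4 * r))
  dA : ∀ i j, Disjoint (Wdg (A.m i) (A.o i) (A.v i) (4 * r)) (Wdg (m j) (o j) (v j) (4 * r))
  dN : ∀ i j, Disjoint (Wdg (A.m' i) (A.o' i) (A.v' i) (2 * r)) (Wdg (m j) (o j) (v j) r)

attribute [instance] Che.fκ Che.dκ

namespace Che

variable {A : PAtlas ZQ S.D S.ψ ZD CD r nS nN t₀} (C : Che S A)

theorem rng (i : C.κ) : 1 ≤ C.m i ∧ C.m i ≤ 3 := by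
  rw [C.m2 i]
  omega

open Classical in
/-- the marks in the part `B` -/
def sel (B : ℤ × ℤ → Prop) : Finset C.κ :=
  Finset.univ.filter fun i => ∀ f ∈ Wdg (C.m i) (C.o i) (C.v i) (4 * r + 1), B f

theorem mem_sel {i : C.κ} :
    i ∈ C.sel B ↔ ∀ f ∈ Wdg (C.m i) (C.o i) (C.v i) (4 * r + 1), B f := by
  unfold sel
  simp only [Finset.mem_filter, Finset.mem_univ, true_and]

/-- the walls of radius `ρ` of a mark -/
def wl (i : C.κ) (ρ : ℕ) : Finset ((ℤ × ℤ) × (ℤ × ℤ)) :=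
  wIn (C.o i + C.m i) (C.v i) ρ ∪ wOut (C.o i) (C.v i) ρ

/-- a wall side is a side of a face of the wedge -/
theorem wl_face {i : C.κ} {ρ : ℕ} {a : (ℤ × ℤ) × (ℤ × ℤ)} (ha : a ∈ C.wl i ρ) :
    ∃ f ∈ Wdg (C.m i) (C.o i) (C.v i) ρ, ∃ k, a = sd ZQ f k := by
  rcases Finset.mem_union.1 ha with ha | ha
  · obtain ⟨f, hf, h3⟩ := wIn_face (C.rng i).1 (by have := (C.rng i).2; omega) ha
    exact ⟨f, hf, _, h3⟩
  · obtain ⟨f, hf, h3⟩ := wOut_face (C.rng i).1 ha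
    exact ⟨f, hf, _, h3⟩

/-- the wedges of the marks are off the slab -/
theorem off {i : C.κ} {f : ℤ × ℤ} (hf : f ∈ Wdg (C.m i) (C.o i) (C.v i) (4 * r + 1)) :
    f ∈ S.D \ S.slb := by
  rw [Finset.mem_sdiff]
  have h1 := (C.c i).sub f hf
  rw [C.F] at h1
  exact ⟨h1, off_box (fun h2 => C.far i (near_mono h2 (by omega))) (Wdg_sub_Bx hf)⟩

/-- the mark as a chart of `D` minus the slab -/
def cO (i : C.κ) : WChart ZQ (S.D \ S.slb) (C.m i) (C.o i) (C.v i) (4 * r + 1) :=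
  offW (C.c i) (C.rng i) (C.F i) (fun h => C.far i (near_mono h (by omega)))

theorem cO_side (i : C.κ) (a : (ℤ × ℤ) × (ℤ × ℤ)) : (C.cO i).side a = a := C.s i a

theorem cO_F (i : C.κ) (f : ℤ × ℤ) : (C.cO i).φF f = f := C.F i f

theorem cO_bS (i : C.κ) :
    ∀ a ∈ wIn (C.o i + C.m i) (C.v i) (4 * r + 1) ∪ wOut (C.o i) (C.v i) (4 * r + 1),
      (C.cO i).side a ∈ bS ZQ S.D := by
  intro a ha
  rw [C.cO_side, ← C.s i a]
  rcases Finset.mem_union.1 ha with ha | ha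
  · exact (C.c i).bIn a ha
  · exact (C.c i).bOut a ha

/-- the mark in the part `F'` -/
def ch (h : S.Ok) (H : Half S W X Y B F' Z') (i : C.κ)
    (hi : ∀ f ∈ Wdg (C.m i) (C.o i) (C.v i) (4 * r + 1), B f) :
    WChart (S.env W X Y).Q F' (C.m i) (C.o i) (C.v i) (4 * r + 1) :=
  wchF h H (C.rng i) (C.cO i) (C.cO_bS i) (fun f hf => by rw [C.cO_F]; exact hi f hf)

theorem ch_F (h : S.Ok) (H : Half S W X Y B F' Z') (i : C.κ)
    (hi : ∀ f ∈ Wdg (C.m i) (C.o i) (C.v i) (4 * r + 1), B f) (f : ℤ × ℤ) :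
    (C.ch h H i hi).φF f = S.shrF X Y f := by
  show S.shrF X Y ((C.cO i).φF f) = _
  rw [C.cO_F]

theorem ch_side (h : S.Ok) (H : Half S W X Y B F' Z') (i : C.κ)
    (hi : ∀ f ∈ Wdg (C.m i) (C.o i) (C.v i) (4 * r + 1), B f) (a : (ℤ × ℤ) × (ℤ × ℤ)) :
    (C.ch h H i hi).side a = (h.shr W X Y).side a := by
  show (h.shr W X Y).side ((C.cO i).side a) = _
  rw [C.cO_side]

theorem mem_ch_box (h : S.Ok) (H : Half S W X Y B F' Z') (i : C.κ)
    (hi : ∀ f ∈ Wdg (C.m i) (C.o i) (C.v i) (4 * r + 1), B f) {ρ : ℕ}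
    {x : Option Bool × (ℤ × ℤ)} (hx : x ∈ (C.ch h H i hi).box ρ) :
    ∃ f ∈ Wdg (C.m i) (C.o i) (C.v i) ρ, x = S.shrF X Y f := by
  unfold WChart.box at hx
  rw [Finset.mem_image] at hx
  obtain ⟨f, hf, rfl⟩ := hx
  exact ⟨f, hf, C.ch_F h H i hi f⟩

theorem ch_J (h : S.Ok) (H : Half S W X Y B F' Z') (i : C.κ)
    (hi : ∀ f ∈ Wdg (C.m i) (C.o i) (C.v i) (4 * r + 1), B f) :
    Dbl.SJumpR (C.ch h H i hi) (C.K i) (S.ph W X Y) := by
  refine wchF_sjumpR h H _ _ _ _ (by omega) ?_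
  refine Dbl.sjumpR_congr (c := C.c i) (by omega) (fun a _ => ?_) (C.J i)
  rw [C.cO_side, C.s]

open Classical in
/-- the covered sides of the marks in the part `B` -/
def cov (h : S.Ok) (W : Finset (ℤ × ℤ)) (X Y : ℤ) (B : ℤ × ℤ → Prop) :
    Finset ((Option Bool × (ℤ × ℤ)) × (Option Bool × (ℤ × ℤ))) :=
  (C.sel B).biUnion fun i => (C.wl i (2 * r)).image (h.shr W X Y).side

/-- the types of the marks in the part `B` -/
def tp (B : ℤ × ℤ → Prop) : Multiset (SK × ℕ) := (C.sel B).val.map fun i => (C.K i, C.m i)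

end Che

/-- **the mirror image of the pockets of a part, the marks included** -/
theorem pocketM (h : S.Ok) (H : Half S W X Y B F' Z') (hr : 0 < r) (hra : 16 * r ≤ S.a)
    (hth : Thick S (4 * r + 2)) (A : PAtlas ZQ S.D S.ψ ZD CD r nS nN t₀) (hCD : CD ⊆ bS ZQ S.D)
    (hA : A.Flat) (hS : ∀ i, ¬ S.near (8 * r + 2) (A.v i))
    (hfl : ∀ i, A.m' i = 2 ∧ (A.nch i).Jump S.ψ 0) (C : Che S A)
    (hM : MirOk t₁ ((S.selK B A).val.map fun i => (A.K i, A.m i))) :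
    PAV (Dbl.mir (S.env W X Y).Q) F' (Dbl.mps (S.ph W X Y)) (Z'.image Prod.swap)
      (((selC (fun f => B f ∧ off2 S r f) CD).image (h.shr W X Y).side ∪
        C.cov h W X Y B).image Prod.swap)
      r (12 + nN) t₁ (reg S X Y B (4 * r + 1)) (reg S X Y B (7 * r + 1)) (reg S X Y B r) (pks F')
      (mst (((S.selK B A).val.map fun i => (A.K i, A.m i)) + C.tp B)) := by
  classical
  have hfar : ∀ j, ∀ f ∈ Wdg (C.m j) (C.o j) (C.v j) r, ¬ nearF S (7 * r + 1) f := by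
    intro j f hf hn
    refine C.far j ?_
    have h2 := mem_Bx.1 (Wdg_sub_Bx hf)
    change (C.v j).1 - (r : ℤ) ≤ f.1 ∧ f.1 < (C.v j).1 + (r : ℤ) ∧
      (C.v j).2 - (r : ℤ) ≤ f.2 ∧ f.2 < (C.v j).2 + (r : ℤ) at h2
    unfold nearF at hn
    unfold Slb.near nearS
    push_cast at *
    omega
  have hfar4 : ∀ j, ∀ f ∈ Wdg (C.m j) (C.o j) (C.v j) (4 * r), ¬ nearF S (4 * r + 1) f := by
    intro j f hf hn
    refine C.far j ?_
    have h2 := mem_Bx.1 (Wdg_sub_Bx hf)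
    change (C.v j).1 - ((4 * r : ℕ) : ℤ) ≤ f.1 ∧ f.1 < (C.v j).1 + ((4 * r : ℕ) : ℤ) ∧
      (C.v j).2 - ((4 * r : ℕ) : ℤ) ≤ f.2 ∧ f.2 < (C.v j).2 + ((4 * r : ℕ) : ℤ) at h2
    unfold nearF at hn
    unfold Slb.near nearS
    push_cast at *
    omega
  have h1 := (pocketT (t₀ := t₀) h H hr hra hth A hCD hA hS hfl
    (T4 := {f | ∀ j, f ∉ Wdg (C.m j) (C.o j) (C.v j) (4 * r)}) (T1 := Set.univ)
    (T2 := {f | ∀ j, f ∉ Wdg (C.m j) (C.o j) (C.v j) r})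
    (fun i f hf j hj => Finset.disjoint_left.1 (C.dA i j) hf hj) (fun _ _ _ => Set.mem_univ _)
    (fun i f hf j hj => Finset.disjoint_left.1 (C.dN i j) hf hj)
    (fun f hf j hj => hfar j f hj (by unfold nearF at hf ⊢; push_cast at *; omega))).mir hM
  have h2 : PAV (Dbl.mir (S.env W X Y).Q) F' (Dbl.mps (S.ph W X Y)) (Z'.image Prod.swap)
      ((C.cov h W X Y B).image Prod.swap) r 0 t₁
      (reg S X Y B (4 * r + 1) ∩ imT S X Y {f | ∃ j, f ∈ Wdg (C.m j) (C.o j) (C.v j) (4 * r)})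
      (reg S X Y B (7 * r + 1) ∩ imT S X Y {f | ∃ j, f ∈ Wdg (C.m j) (C.o j) (C.v j) r})
      ∅ (pks F') (mst (C.tp B)) := by
    refine PAV.mirEs (κ := {i : C.κ // ∀ f ∈ Wdg (C.m i) (C.o i) (C.v i) (4 * r + 1), B f})
      (fun i => C.K i.1) (fun i => C.m i.1) (fun i => C.o i.1) (fun i => C.v i.1)
      (fun i => C.ch h H i.1 i.2) (fun i => C.rng i.1) (fun i => C.ch_J h H i.1 i.2)
      (fun i => C.ke i.1) ?_ ?_ ?_ ?_ ?_ ?_ ?_ t₁
    · intro i j hij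
      rw [Finset.disjoint_left]
      intro x hx hy
      obtain ⟨f, hf, hxf⟩ := C.mem_ch_box h H i.1 i.2 hx
      obtain ⟨g, hg, hxg⟩ := C.mem_ch_box h H j.1 j.2 hy
      have h3 : f = g := h.shr_injF (W := W) (X := X) (Y := Y) (hxf.symm.trans hxg)
      rw [h3] at hf
      exact Finset.disjoint_left.1 (C.disj i.1 j.1 (fun h4 => hij (Subtype.ext h4))) hf hg
    · intro i
      exact wchF_Z h H _ _ _ _ (by omega)
    · intro a ha
      unfold Che.cov at ha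
      rw [Finset.mem_biUnion] at ha
      obtain ⟨i, hi, ha⟩ := ha
      refine ⟨⟨i, C.mem_sel.1 hi⟩, ?_⟩
      rw [Finset.mem_image] at ha
      obtain ⟨b, hb, rfl⟩ := ha
      unfold WChart.walls
      rw [Finset.mem_image]
      exact ⟨b, hb, C.ch_side h H i _ b⟩
    · intro i x hx
      obtain ⟨f, hf, hxf⟩ := C.mem_ch_box h H i.1 i.2 hx
      have hf' := Wdg_mono (show 4 * r ≤ 4 * r + 1 by omega) hf
      exact ⟨⟨f, C.off hf', i.2 f hf', hfar4 i.1 f hf, hxf⟩, f, ⟨i.1, hf⟩, hxf⟩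
    · intro i x hx
      obtain ⟨f, hf, hxf⟩ := C.mem_ch_box h H i.1 i.2 hx
      have hf' := Wdg_mono (show r ≤ 4 * r + 1 by omega) hf
      exact ⟨⟨f, C.off hf', i.2 f hf', hfar i.1 f hf, hxf⟩, f, ⟨i.1, hf⟩, hxf⟩
    · intro i f hf
      exact ⟨(C.ch h H i.1 i.2).sub f hf, by rw [C.ch_F]; exact shrF_ne _ _ _ _⟩
    · exact (sub_map _ _ (fun i => (C.K i, C.m i))).trans (by unfold Che.tp Che.sel; congr!)
  rw [Finset.image_union, show mst (((S.selK B A).val.map fun i => (A.K i, A.m i)) + C.tp B) =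
    mst ((S.selK B A).val.map fun i => (A.K i, A.m i)) + mst (C.tp B) by simp [mst]]
  refine (h1.union h2 ?_ ?_ (by simp)).mono (Finset.Subset.refl _) (by omega) ?_ ?_ ?_ (by simp)
  · rw [Set.disjoint_left]
    rintro x ⟨-, f, hf, hxf⟩ ⟨-, g, ⟨j, hg⟩, hxg⟩
    have h3 : f = g := h.shr_injF (W := W) (X := X) (Y := Y) (hxf.symm.trans hxg)
    rw [h3] at hf
    exact hf j hg
  · rw [Set.disjoint_left]
    rintro x ⟨-, f, hf, hxf⟩ ⟨-, g, ⟨j, hg⟩, hxg⟩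
    have h3 : f = g := h.shr_injF (W := W) (X := X) (Y := Y) (hxf.symm.trans hxg)
    rw [h3] at hf
    exact hf j hg
  · exact Set.union_subset Set.inter_subset_left Set.inter_subset_left
  · exact Set.union_subset Set.inter_subset_left Set.inter_subset_left
  · exact Set.union_subset Set.inter_subset_left (Set.empty_subset _)

end UpE

end

end Pool.Agent.SixB
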