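import Pool.Agent.Lib.SixB.S3UpE
import Pool.Agent.Lib.SixB.S3AsmD

/-!
# 6BD step 3, row R21: the finite cut families and the closed forms

`UpE.cut_hi`, `UpE.cut_lo`: for every window there is a finite family `l` of sides of the row `y` with
`OneSided`, and with the same cut points as the infinite line on the corners of the half.
-/

set_option autoImplicit false
set_option linter.unusedSectionVars false

namespace Pool.Agent.SixB

open Pool.Agent.Perc.Q Pool.Agent.Perc EmbH EnvB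

noncomputable section

namespace UpE

variable {S : Slb} {W : Finset (ℤ × ℤ)} {X Y : ℤ} {E : SEnv} {ι : Type}
  {l : ι → (Option Bool × (ℤ × ℤ)) × (Option Bool × (ℤ × ℤ))} {x : ι → ℤ}

/-- points of the row `y` of the base sheet -/
theorem onCut_cutH {y : ℤ} {v : Option Bool × (ℤ × ℤ)} :
    onCut (SEnv.cutH y) v ↔ v.1 = none ∧ v.2.2 = y := by
  constructor
  · rintro ⟨i, h1 | h1⟩ <;> rw [h1] <;> exact ⟨rfl, rfl⟩
  · rintro ⟨h1, h2⟩
    obtain ⟨s, x, y'⟩ := v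
    simp only at h1 h2
    subst h1 h2
    exact ⟨x, Or.inl rfl⟩

theorem onCut_revFam {ι V : Type} {m : ι → V × V} {v : V} : onCut (revFam m) v ↔ onCut m v := by
  constructor
  · rintro ⟨i, h⟩
    exact ⟨i, h.symm⟩
  · rintro ⟨i, h⟩
    exact ⟨i, h.symm⟩

/-- the finite family of the row `y` of a window -/
theorem exists_cutF (W : Finset (ℤ × ℤ)) (y : ℤ) :
    CutF W y (fun i : {f // f ∈ W.filter fun f => f.2 = y} => i.1.1) := by
  refine ⟨?_, ?_, ?_⟩
  · rintro ⟨⟨a, b⟩, h1⟩ ⟨⟨a', b'⟩, h2⟩ h3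
    have h4 := (Finset.mem_filter.1 h1).2
    have h5 := (Finset.mem_filter.1 h2).2
    simp only at h3 h4 h5
    subst h3 h4 h5
    rfl
  · rintro ⟨⟨a, b⟩, h1⟩
    obtain ⟨h2, h3⟩ := Finset.mem_filter.1 h1
    simp only at h3 ⊢
    rw [← h3]
    exact h2
  · intro t ht
    exact ⟨⟨(t, y), Finset.mem_filter.2 ⟨ht, rfl⟩⟩, rfl⟩

/-- the finite family and the line have the same points at the corners of the upper half -/
theorem onCut_hi (h : S.Ok) {y : ℤ} (hy1 : S.yc - S.a ≤ y) (hy2 : y < S.yc + S.a)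
    (hl : ∀ i, l i = SEnv.cutH y (x i)) (hx : CutF W y x) {f : Option Bool × (ℤ × ℤ)}
    (hf : f ∈ (S.env W X Y).hi y) (k : ZMod 4) :
    onCut l ((S.env W X Y).Q.c f k) ↔ onCut (SEnv.cutH y) ((S.env W X Y).Q.c f k) := by
  constructor
  · intro h1
    exact onCut_cutH.2 (onCut_row (fun i => Or.inl (hl i)) h1)
  · intro h1
    obtain ⟨h2, h3⟩ := onCut_cutH.1 h1
    obtain ⟨s, f⟩ := f
    rcases mem_hiE.1 hf with ⟨h7, h8, h9⟩ | ⟨h7, h8⟩
    · simp only at h7 h8 h9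
      subst h7
      rw [EnvB.cor_base (BlkS.thk h) h8 k] at h3 ⊢
      simp only at h3
      have h10 : f.2 = y ∧ (ZQ.c f k = (f.1, y) ∨ ZQ.c f k = (f.1 + 1, y)) := by
        obtain ⟨a, b⟩ := f
        fin_cases k
        · exact ⟨h3, Or.inl (Prod.ext rfl h3)⟩
        · exact ⟨h3, Or.inr (Prod.ext rfl h3)⟩
        · have h4 : b + 1 = y := h3
          simp only at h9
          omega
        · have h4 : b + 1 = y := h3
          simp only at h9
          omega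
      obtain ⟨i, hi⟩ := hx.all f.1 (by
        rw [← h10.1]
        exact (EnvB.mem_base.1 h8).1)
      refine ⟨i, ?_⟩
      rw [hl, hi, cutH_eq]
      rcases h10.2 with h4 | h4 <;> rw [h4]
      · exact Or.inl rfl
      · exact Or.inr rfl
    · simp only at h7
      subst h7
      rw [pkU_row h2] at h3
      have h4 : (S.env W X Y).gu.yc + (S.env W X Y).gu.a = S.yc + S.a := rfl
      omega

/-- the finite family and the line have the same points at the corners of the lower half -/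
theorem onCut_lo (h : S.Ok) {y : ℤ} (hy1 : S.yc - S.a < y) (hy2 : y ≤ S.yc + S.a)
    (hl : ∀ i, l i = (SEnv.cutH y (x i)).swap) (hx : CutF W (y - 1) x) {f : Option Bool × (ℤ × ℤ)}
    (hf : f ∈ (S.env W X Y).lo y) (k : ZMod 4) :
    onCut l ((S.env W X Y).Q.c f k) ↔ onCut (revFam (SEnv.cutH y)) ((S.env W X Y).Q.c f k) := by
  constructor
  · intro h1
    exact onCut_revFam.2 (onCut_cutH.2 (onCut_row (fun i => Or.inr (hl i)) h1))
  · intro h1
    obtain ⟨h2, h3⟩ := onCut_cutH.1 (onCut_revFam.1 h1)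
    obtain ⟨s, f⟩ := f
    rcases mem_loE.1 hf with ⟨h7, h8, h9⟩ | ⟨h7, h8⟩
    · simp only at h7 h8 h9
      subst h7
      rw [EnvB.cor_base (BlkS.thk h) h8 k] at h3 ⊢
      simp only at h3
      have h10 : f.2 = y - 1 ∧ (ZQ.c f k = (f.1, y) ∨ ZQ.c f k = (f.1 + 1, y)) := by
        obtain ⟨a, b⟩ := f
        fin_cases k
        · have h4 : b = y := h3
          simp only at h9
          omega
        · have h4 : b = y := h3
          simp only at h9
          omega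
        · have h4 : b + 1 = y := h3
          exact ⟨by simp only; omega, Or.inr (Prod.ext rfl h3)⟩
        · have h4 : b + 1 = y := h3
          exact ⟨by simp only; omega, Or.inl (Prod.ext rfl h3)⟩
      obtain ⟨i, hi⟩ := hx.all f.1 (by
        rw [← h10.1]
        exact (EnvB.mem_base.1 h8).1)
      refine ⟨i, ?_⟩
      rw [hl, hi, cutH_eq]
      rcases h10.2 with h4 | h4 <;> rw [h4]
      · exact Or.inr rfl
      · exact Or.inl rfl
    · simp only at h7
      subst h7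
      rw [pkL_row h2] at h3
      have h4 : (S.env W X Y).gd.yc - (S.env W X Y).gd.a = S.yc - S.a := rfl
      omega

/-- **the finite cut of the upper half** -/
theorem cut_hi (h : S.Ok) {y : ℤ} (hy1 : S.yc - S.a ≤ y) (hy2 : y < S.yc + S.a) :
    ∃ (ι : Type) (_ : Fintype ι) (l : ι → (Option Bool × (ℤ × ℤ)) × (Option Bool × (ℤ × ℤ)))
      (x : ι → ℤ), (∀ i, l i = SEnv.cutH y (x i)) ∧
      OneSided (S.env W X Y).Q ((S.env W X Y).hi y) l ∧
      ∀ f ∈ (S.env W X Y).hi y, ∀ k,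
        onCut l ((S.env W X Y).Q.c f k) ↔ onCut (SEnv.cutH y) ((S.env W X Y).Q.c f k) :=
  ⟨_, inferInstance, _, _, fun _ => rfl, os_hi h hy1 hy2 (fun _ => rfl) (exists_cutF W y),
    fun _ hf k => onCut_hi h hy1 hy2 (fun _ => rfl) (exists_cutF W y) hf k⟩

/-- **the finite cut of the lower half** -/
theorem cut_lo (h : S.Ok) {y : ℤ} (hy1 : S.yc - S.a < y) (hy2 : y ≤ S.yc + S.a) :
    ∃ (ι : Type) (_ : Fintype ι) (l : ι → (Option Bool × (ℤ × ℤ)) × (Option Bool × (ℤ × ℤ)))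
      (x : ι → ℤ), (∀ i, l i = (SEnv.cutH y (x i)).swap) ∧
      OneSided (S.env W X Y).Q ((S.env W X Y).lo y) l ∧
      ∀ f ∈ (S.env W X Y).lo y, ∀ k,
        onCut l ((S.env W X Y).Q.c f k) ↔ onCut (revFam (SEnv.cutH y)) ((S.env W X Y).Q.c f k) :=
  ⟨_, inferInstance, _, _, fun _ => rfl, os_lo h hy1 hy2 (fun _ => rfl) (exists_cutF W (y - 1)),
    fun _ hf k => onCut_lo h hy1 hy2 (fun _ => rfl) (exists_cutF W (y - 1)) hf k⟩

variable {r : ℕ} {t₀ : ℝ} {P : Finset (ℤ × ℤ)} {n N : ℕ} {G : ℤ → ℤ × ℤ} {j : ℤ → ℝ}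
  {T : Finset ℤ} {K : ℤ → SK}

/-- **closed form of `dblHi`** with a finite cut of the window -/
theorem dblHi_ex (h : S.Ok) (hD : S.D = rf n P) (hs : PolyAtl.Spc P n N G j S.ψ T K r t₀)
    (hT : ∀ x ∈ T, PolyAtl.mm G x ≠ 2 ∨ j x ≠ 0) (hra : 16 * r ≤ S.a) {y : ℤ}
    (hy1 : S.yc - S.a < y) (hy2 : y + (4 * r + 1) < S.yc + S.a) {nB nM : ℕ}
    (hb : BlkU S W X Y r nB t₀)
    (hm : MirA S W X Y ((S.env W X Y).hi y) r nM t₀ (gU S (4 * r + 1))
      (St.blkV S.mu + tyP G K r (fun f => f ∈ S.Up) T)) :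
    ∃ (ι : Type) (_ : Fintype ι) (l : ι → (Option Bool × (ℤ × ℤ)) × (Option Bool × (ℤ × ℤ)))
      (ho : OneSided (S.env W X Y).Q ((S.env W X Y).hi y) l),
      (∀ f ∈ (S.env W X Y).hi y, ∀ k,
        onCut l ((S.env W X Y).Q.c f k) ↔ onCut (SEnv.cutH y) ((S.env W X Y).Q.c f k)) ∧
      ∃ A : Atlas (dbl (S.env W X Y).Q ((S.env W X Y).hi y) l ho) (Dbl.dblFs ((S.env W X Y).hi y))
        (Dbl.dps (S.ph W X Y) (Dbl.mps (S.ph W X Y)))
        (Dbl.dZ l (zh (S.env W X Y) ((S.env W X Y).hi y))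
          ((zh (S.env W X Y) ((S.env W X Y).hi y)).image Prod.swap)) r
        (2 * (26 + T.card)) (nB + (12 + (N / r + 1 + 2 * T.card)) + nM) t₀,
        St.vts A = (St.blkV S.mu + tyP G K r (fun f => f ∈ S.Up) T) +
          mst (St.blkV S.mu + tyP G K r (fun f => f ∈ S.Up) T) ∧
        (∀ i, A.m' i = 2 ∧ (A.nch i).Jump (Dbl.dps (S.ph W X Y) (Dbl.mps (S.ph W X Y))) 0) ∧
        IsEmpty A.μ := by
  obtain ⟨ι, i1, l, x, h1, h2, h3⟩ := cut_hi (W := W) (X := X) (Y := Y) h hy1.le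
    (by have : (0 : ℤ) ≤ r := Int.natCast_nonneg r; omega : y < S.yc + S.a)
  exact ⟨ι, i1, l, h2, h3, dblHi h hD hs hT hra hy1 hy2 hb hm h1 h2⟩

/-- **closed form of `dblLo`** with a finite cut of the window -/
theorem dblLo_ex (h : S.Ok) (hD : S.D = rf n P) (hs : PolyAtl.Spc P n N G j S.ψ T K r t₀)
    (hT : ∀ x ∈ T, PolyAtl.mm G x ≠ 2 ∨ j x ≠ 0) (hra : 16 * r ≤ S.a) {y : ℤ}
    (hy1 : S.yc - S.a + (4 * r + 1) < y) (hy2 : y < S.yc + S.a) {nB nM : ℕ}
    (hb : BlkL S W X Y r nB t₀)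
    (hm : MirA S W X Y ((S.env W X Y).lo y) r nM t₀ (gL S (4 * r + 1))
      (St.blkV S.ml + tyP G K r (fun f => f ∈ S.Lo) T)) :
    ∃ (ι : Type) (_ : Fintype ι) (l : ι → (Option Bool × (ℤ × ℤ)) × (Option Bool × (ℤ × ℤ)))
      (ho : OneSided (S.env W X Y).Q ((S.env W X Y).lo y) l),
      (∀ f ∈ (S.env W X Y).lo y, ∀ k,
        onCut l ((S.env W X Y).Q.c f k) ↔ onCut (revFam (SEnv.cutH y)) ((S.env W X Y).Q.c f k)) ∧
      ∃ A : Atlas (dbl (S.env W X Y).Q ((S.env W X Y).lo y) l ho) (Dbl.dblFs ((S.env W X Y).lo y))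
        (Dbl.dps (S.ph W X Y) (Dbl.mps (S.ph W X Y)))
        (Dbl.dZ l (zh (S.env W X Y) ((S.env W X Y).lo y))
          ((zh (S.env W X Y) ((S.env W X Y).lo y)).image Prod.swap)) r
        (2 * (26 + T.card)) (nB + (12 + (N / r + 1 + 2 * T.card)) + nM) t₀,
        St.vts A = (St.blkV S.ml + tyP G K r (fun f => f ∈ S.Lo) T) +
          mst (St.blkV S.ml + tyP G K r (fun f => f ∈ S.Lo) T) ∧
        (∀ i, A.m' i = 2 ∧ (A.nch i).Jump (Dbl.dps (S.ph W X Y) (Dbl.mps (S.ph W X Y))) 0) ∧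
        IsEmpty A.μ := by
  obtain ⟨ι, i1, l, x, h1, h2, h3⟩ := cut_lo (W := W) (X := X) (Y := Y) h
    (by have : (0 : ℤ) ≤ r := Int.natCast_nonneg r; omega : S.yc - S.a < y) hy2.le
  exact ⟨ι, i1, l, h2, h3, dblLo h hD hs hT hra hy1 hy2 hb hm h1 h2⟩

end UpE

end

end Pool.Agent.SixB
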