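import Pool.Agent.Lib.SixB.S3AsmC
import Pool.Agent.Lib.SixB.S3DblIsl
import Pool.Agent.Lib.SixB.S3UpDbl

/-!
# 6BD step 3, row R21: bound of the plane functional of the double of a half (`zDbl`)

* `Zr_congrP`, `Zp_congrP`, `Zp_congr_h`: the plane functional depends only on the undirected sides, and on the
  weights of the sides of the windows.
* `isH`: the island sides of the half; `islD_eq`: `islD = dZ m isH (isH.image swap)`; `isl2_rv`.
* `dblW_eq`: on the sides of the double the weight `dblW (hz ψ Z)` is `hz (dps ψ (mps ψ)) (islD ..)`.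
* `norm_dbl_le`: `|zDbl| ≤ √3 ^ |isH| * B` if the mean of `|WZ|` of the finite doubles is at most `B`
  in arbitrarily large windows.
-/

set_option autoImplicit false
set_option linter.unusedSectionVars false

namespace Pool.Agent.SixB.Dbl

open Pool.Agent.Perc Pool.Agent.Perc.Q Relation Filter Topology
open Pool.Agent.SixB.Rel
open scoped ComplexConjugate

noncomputable section

variable {V Φ : Type} [DecidableEq V] [DecidableEq Φ] {ι : Type}

/-! ## Undirected sides -/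

section undirected

variable {Q : QC V Φ} {F A : Finset Φ} {ω : Φ → Bool} {h h' : V × V → ℂ} {P P' X : Finset (V × V)}

theorem touch_congr (e : P ∪ rv P = P' ∪ rv P') : touch P X ↔ touch P' X := by
  unfold touch
  rw [e]

theorem Zr_congrP (e : P ∪ rv P = P' ∪ rv P') : Zr Q F ω h P = Zr Q F ω h P' := by
  unfold Zr
  have : (dstr Q F ω).filter (touch P) = (dstr Q F ω).filter (touch P') :=
    Finset.filter_congr fun X _ => touch_congr e
  rw [this]

theorem zn_congrP {L : ℤ} {ps : ℤ × ℤ → Φ} (e : P ∪ rv P = P' ∪ rv P') :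
    zn L Q A ps h P = zn L Q A ps h P' := by
  funext n
  unfold zn zplO
  simp only [Zr_congrP e]

theorem Zp_congrP {L : ℤ} {ps : ℤ × ℤ → Φ} (e : P ∪ rv P = P' ∪ rv P') :
    Zp L Q A ps h P = Zp L Q A ps h P' := by
  unfold Zp
  rw [zn_congrP e]

theorem Zp_congr_h {L : ℤ} {ps : ℤ × ℤ → Φ}
    (e : ∀ n, ∀ a ∈ dE Q (A ∪ (aZ L n).image ps), h a = h' a) :
    Zp L Q A ps h P = Zp L Q A ps h' P := by
  have : zn L Q A ps h P = zn L Q A ps h' P := by
    funext n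
    unfold zn zplO
    simp only [Zr_congr (e n)]
  unfold Zp
  rw [this]

end undirected

/-! ## The island sides of the half -/

section isl

variable {Q : QC V Φ} {A : Finset Φ} {S : Set Φ} {m : ι → V × V} {Z : Finset (V × V)}

open Classical in
/-- the island sides of the half -/
def isH (Q : QC V Φ) (A : Finset Φ) (S : Set Φ) (Z : Finset (V × V)) : Finset (V × V) :=
  Z.filter fun a => a ∈ dE Q (corS A S)

theorem mem_isH {a : V × V} : a ∈ isH Q A S Z ↔ a ∈ Z ∧ a ∈ dE Q (corS A S) := by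
  unfold isH
  rw [Finset.mem_filter]

theorem mem_dZ' {Z' : Finset (V × V)} {x : (V × Bool × Bool) × (V × Bool × Bool)} : x ∈ dZ m Z Z' ↔
    (∃ a ∈ Z, x = dblA m false a) ∨ ∃ a ∈ Z', x = dblA m true a := by
  unfold dZ
  rw [Finset.mem_union, Finset.mem_image, Finset.mem_image]
  exact or_congr ⟨fun ⟨a, h, e⟩ => ⟨a, h, e.symm⟩, fun ⟨a, h, e⟩ => ⟨a, h, e.symm⟩⟩
    ⟨fun ⟨a, h, e⟩ => ⟨a, h, e.symm⟩, fun ⟨a, h, e⟩ => ⟨a, h, e.symm⟩⟩

theorem islD_eq : islD Q A S m Z = dZ m (isH Q A S Z) ((isH Q A S Z).image Prod.swap) := by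
  ext x
  rw [mem_islD, mem_dZ']
  constructor
  · rintro ⟨_ | _, a, h1, h2, rfl⟩
    · exact Or.inl ⟨a, mem_isH.mpr ⟨h1, h2⟩, rfl⟩
    · refine Or.inr ⟨a.swap, Finset.mem_image_of_mem _ (mem_isH.mpr ⟨h1, h2⟩), ?_⟩
      rfl
  · rintro (⟨a, ha, rfl⟩ | ⟨a, ha, rfl⟩)
    · obtain ⟨h1, h2⟩ := mem_isH.mp ha
      exact ⟨false, a, h1, h2, rfl⟩
    · obtain ⟨b, hb, rfl⟩ := Finset.mem_image.mp ha
      obtain ⟨h1, h2⟩ := mem_isH.mp hb
      refine ⟨true, b, h1, h2, ?_⟩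
      rfl

theorem isl2_rv : isl2 Q A S m Z ∪ rv (isl2 Q A S m Z) = islD Q A S m Z ∪ rv (islD Q A S m Z) := by
  ext x
  rw [Finset.mem_union, Finset.mem_union, mem_rv, mem_rv, mem_isl2, mem_isl2, mem_islD, mem_islD]
  constructor
  · rintro (⟨_ | _, a, h1, h2, h3⟩ | ⟨_ | _, a, h1, h2, h3⟩)
    · exact Or.inl ⟨false, a, h1, h2, h3⟩
    · refine Or.inr ⟨true, a, h1, h2, ?_⟩
      rw [h3]
      rfl
    · exact Or.inr ⟨false, a, h1, h2, h3⟩
    · refine Or.inl ⟨true, a, h1, h2, ?_⟩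
      rw [← Prod.swap_swap x, h3]
      rfl
  · rintro (⟨_ | _, a, h1, h2, h3⟩ | ⟨_ | _, a, h1, h2, h3⟩)
    · exact Or.inl ⟨false, a, h1, h2, h3⟩
    · refine Or.inr ⟨true, a, h1, h2, ?_⟩
      rw [h3]
      rfl
    · exact Or.inr ⟨false, a, h1, h2, h3⟩
    · refine Or.inl ⟨true, a, h1, h2, ?_⟩
      rw [← Prod.swap_swap x, h3]
      rfl

end isl

/-! ## The weights -/

theorem hz_swap {ψ : V × V → ℝ} {Z : Finset (V × V)} (hZ : ∀ a ∈ Z, a.swap ∉ Z) (a : V × V) :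
    hz ψ Z a.swap = conj (hz ψ Z a) := by
  have e : ∀ t : ℝ, conj (Complex.exp (-(t : ℂ) * Complex.I)) = Complex.exp ((t : ℂ) * Complex.I) := by
    intro t
    rw [← Complex.exp_conj]
    congr 1
    simp
  have e' : ∀ t : ℝ, conj (Complex.exp ((t : ℂ) * Complex.I)) = Complex.exp (-(t : ℂ) * Complex.I) := by
    intro t
    rw [← Complex.exp_conj]
    congr 1
    simp
  unfold hz
  rw [Prod.swap_swap]
  by_cases h1 : a ∈ Z
  · rw [if_pos h1, if_neg (hZ a h1), if_pos h1, e]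
  · rw [if_neg h1, if_neg h1]
    by_cases h2 : a.swap ∈ Z
    · rw [if_pos h2, if_pos h2, e']
    · rw [if_neg h2, if_neg h2, map_one]

theorem dblW_swap {h : V × V → ℂ} (hh : ∀ a, h a.swap = conj (h a))
    (x : (V × Bool × Bool) × (V × Bool × Bool)) : Asm3.dblW h x.swap = conj (Asm3.dblW h x) := by
  have e := hh (x.1.1, x.2.1)
  unfold Asm3.dblW
  simp only [Prod.fst_swap, Prod.snd_swap, Prod.swap_prod_mk] at e ⊢
  rw [Bool.or_comm x.2.2.1 x.1.2.1]
  split_ifs with h1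
  · rw [e]
  · rw [e]

section plane

variable {up : Bool} {g₀ : ℤ} {Q : QC V Φ} {A : Finset Φ} {φ : ℤ × ℤ → V}
  {ps : ℤ × ℤ → Φ} {S : Set Φ} {m : ι → V × V} {L L' M : ℤ} {Z P : Finset (V × V)} {ψ : V × V → ℝ}

theorem noswap (hI : IslM L Q A ps Z) : ∀ a ∈ Z, a.swap ∉ Z := fun _ ha => not_swap_Z (hI.sub L le_rfl) ha

/-- an island side which belongs to a face of the half -/
theorem mem_isH_of (hI : IslM L Q A ps Z) {f : Φ} {K : ℤ} (hK : L ≤ K) (hf : f ∈ FM L A ps K) (hS : f ∈ S)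
    {a : V × V} {k : ZMod 4} (ha : a = sd Q f k ∨ a = (sd Q f k).swap) (hZ : a ∈ Z) :
    a ∈ isH Q A S Z ∧ a = sd Q f k := by
  have h1 := mem_bSD.mp (hI.sub K hK hZ)
  have h2 := mem_bSD.mp (hI.sub L le_rfl hZ)
  have e : a = sd Q f k := by
    rcases ha with h | h
    · exact h
    · exact absurd (by rw [h, Prod.swap_swap]) (h1.2 f hf k)
  refine ⟨?_, e⟩
  obtain ⟨⟨f', hf', k', hk'⟩, -⟩ := h2
  have hA : f' ∈ A := by
    rcases mem_FM'.mp hf' with h | ⟨g, h3, h4, -⟩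
    · exact h
    · exact absurd h4 h3
  have e2 : sd Q f k = sd Q f' k' := e.symm.trans hk'
  obtain ⟨e3, -⟩ := Q.inj (congrArg Prod.fst e2) (congrArg Prod.snd e2)
  subst e3
  exact mem_isH.mpr ⟨hZ, mem_dE.mpr ⟨f, mem_corS.mpr ⟨hA, hS⟩, k, Or.inl e⟩⟩

/-- not both ends of an island side are on the cut -/
theorem isH_cut (H : HalfS up g₀ ZQ (outZ L) Q A φ ps S m) (hI : IslM L Q A ps Z)
    (hcut : ∀ a ∈ Z, ∀ i, a ≠ m i) {a : V × V} (ha : a ∈ isH Q A S Z) :
    ¬ (onCut m a.1 ∧ onCut m a.2) := by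
  rintro ⟨h1, h2⟩
  obtain ⟨hZ, hE⟩ := mem_isH.mp ha
  obtain ⟨f, hf, k, hk⟩ := mem_dE.mp hE
  obtain ⟨hfA, hfS⟩ := mem_corS.mp hf
  obtain ⟨-, e⟩ := mem_isH_of (S := S) hI le_rfl (mem_FM'.mpr (Or.inl hfA)) hfS hk hZ
  rw [e] at h1 h2
  obtain ⟨i, hi⟩ := H.os.only f hfS k h1 h2
  exact hcut a hZ i (e.trans hi)

/-- **The weight of the double on a side of the double.** -/
theorem dblW_eq (H : HalfS up g₀ ZQ (outZ L) Q A φ ps S m) (hI : IslM L Q A ps Z)
    (hcut : ∀ a ∈ Z, ∀ i, a ≠ m i) (h2 : ∀ x ∈ islD Q A S m Z, x.swap ∉ islD Q A S m Z)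
    {f : Φ} {K : ℤ} (hK : L ≤ K) (hf : f ∈ FM L A ps K) (hS : f ∈ S) {a : V × V} {k : ZMod 4}
    (ha : a = sd Q f k ∨ a = (sd Q f k).swap) (b : Bool) :
    Asm3.dblW (hz ψ Z) (dblA m b a) = hz (dps ψ (mps ψ)) (islD Q A S m Z) (dblA m b a) := by
  -- the case `a ∈ Z`
  have key : ∀ a : V × V, (a = sd Q f k ∨ a = (sd Q f k).swap) → a ∈ Z →
      Asm3.dblW (hz ψ Z) (dblA m b a) = hz (dps ψ (mps ψ)) (islD Q A S m Z) (dblA m b a) := by
    intro a ha hZ
    obtain ⟨hH, -⟩ := mem_isH_of (S := S) hI hK hf hS ha hZ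
    have hc := isH_cut H hI hcut hH
    obtain ⟨-, hE⟩ := mem_isH.mp hH
    cases b
    · have hx : dblA m false a ∈ islD Q A S m Z := mem_islD.mpr ⟨false, a, hZ, hE, rfl⟩
      unfold hz
      rw [if_pos hx]
      unfold Asm3.dblW dps dblA dblV
      simp only [Bool.false_and, Bool.or_self, Bool.false_eq_true, if_false]
      rw [if_pos hZ]
    · have hx : (dblA m true a).swap ∈ islD Q A S m Z := mem_islD.mpr ⟨true, a, hZ, hE, rfl⟩
      have hx' : dblA m true a ∉ islD Q A S m Z := by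
        have := h2 _ hx
        rwa [Prod.swap_swap] at this
      have hcond : ((dblA m true a).1.2.1 || (dblA m true a).2.2.1) = true := by
        unfold dblA dblV
        simp only [Bool.true_and, Bool.or_eq_true, Bool.not_eq_true', decide_eq_false_iff_not]
        tauto
      have e1 : Asm3.dblW (hz ψ Z) (dblA m true a) = conj (hz ψ Z a) := by
        unfold Asm3.dblW
        rw [if_pos hcond]
        rfl
      have e2 : dps ψ (mps ψ) (dblA m true a).swap = ψ a := by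
        unfold dps
        rw [if_pos (by rw [Prod.fst_swap, Prod.snd_swap, Bool.or_comm]; exact hcond)]
        rfl
      rw [e1, ← hz_swap (noswap hI)]
      unfold hz
      rw [if_neg (noswap hI a hZ), Prod.swap_swap, if_pos hZ, if_neg hx', if_pos hx, e2]
  by_cases h1 : a ∈ Z
  · exact key a ha h1
  by_cases h3 : a.swap ∈ Z
  · have e := key a.swap (by
      rcases ha with h | h
      · exact Or.inr (by rw [h])
      · exact Or.inl (by rw [h, Prod.swap_swap])) h3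
    have e1 : (dblA m b a.swap) = (dblA m b a).swap := rfl
    rw [e1, dblW_swap (hz_swap (noswap hI)), hz_swap h2] at e
    exact (starRingEnd ℂ).injective e
  · have e1 : hz ψ Z a = 1 := by
      unfold hz
      rw [if_neg h1, if_neg h3]
    have n1 : dblA m b a ∉ islD Q A S m Z := by
      intro hx
      obtain ⟨b', a', k1, -, k3⟩ := mem_islD.mp hx
      cases b'
      · have e3 : a = a' := Prod.ext (congrArg (fun x => x.1.1) k3) (congrArg (fun x => x.2.1) k3)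
        exact h1 (e3 ▸ k1)
      · have e3 : a = a'.swap := Prod.ext (congrArg (fun x => x.1.1) k3) (congrArg (fun x => x.2.1) k3)
        exact h3 (by rw [e3, Prod.swap_swap]; exact k1)
    have n2 : (dblA m b a).swap ∉ islD Q A S m Z := by
      intro hx
      obtain ⟨b', a', k1, -, k3⟩ := mem_islD.mp hx
      cases b'
      · have e3 : a.swap = a' := Prod.ext (congrArg (fun x => x.1.1) k3) (congrArg (fun x => x.2.1) k3)
        exact h3 (e3 ▸ k1)
      · have e3 : a.swap = a'.swap :=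
          Prod.ext (congrArg (fun x => x.1.1) k3) (congrArg (fun x => x.2.1) k3)
        exact h1 (Prod.swap_injective e3 ▸ k1)
    have e2 : hz (dps ψ (mps ψ)) (islD Q A S m Z) (dblA m b a) = 1 := by
      unfold hz
      rw [if_neg n1, if_neg n2]
    rw [e2]
    unfold Asm3.dblW
    have e4 : hz ψ Z ((dblA m b a).1.1, (dblA m b a).2.1) = 1 := e1
    split_ifs
    · rw [e4, map_one]
    · exact e4

/-- **The plane functional of the double with the weight `dblW`.** -/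
theorem Zp_dblW (H : HalfS up g₀ ZQ (outZ L) Q A φ ps S m) (hL : L + |g₀| ≤ L') (hL' : 0 < L')
    (hI : IslM L Q A ps Z) (hcut : ∀ a ∈ Z, ∀ i, a ≠ m i)
    (hI2 : IslM L' (dblS Q S m H.os) (cor2 up g₀ A S ps (wZ up g₀ L L')) (dblψ up g₀ ps)
      (islD Q A S m Z)) :
    Zp L' (dblS Q S m H.os) (cor2 up g₀ A S ps (wZ up g₀ L L')) (dblψ up g₀ ps)
      (Asm3.dblW (hz ψ Z)) (isl2 Q A S m Z) =
    Zp L' (dblS Q S m H.os) (cor2 up g₀ A S ps (wZ up g₀ L L')) (dblψ up g₀ ps)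
      (hz (dps ψ (mps ψ)) (islD Q A S m Z)) (islD Q A S m Z) := by
  rw [Zp_congrP isl2_rv]
  refine Zp_congr_h fun n x hx => ?_
  have h2 := noswap hI2
  obtain ⟨⟨f, b⟩, hf, k, hk⟩ := mem_dE.mp hx
  have hG : InG up g₀ L A S ps (4 ^ n * L') f := by
    have e : (f, b) ∈ FM L' (cor2 up g₀ A S ps (wZ up g₀ L L')) (dblψ up g₀ ps) (4 ^ n * L') := hf
    have h4 : L' ≤ 4 ^ n * L' := by
      have : (1 : ℤ) ≤ 4 ^ n := one_le_pow₀ (by norm_num)
      nlinarith
    exact (mem_FMd hL h4).mp e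
  have hS := hG.memS H
  obtain ⟨K, hK, hfK⟩ := hG.win
  rw [sd_dblS hS] at hk
  have hx2 : ∃ a, (a = sd Q f (kx b k) ∨ a = (sd Q f (kx b k)).swap) ∧ x = dblA m b a := by
    cases b
    · rcases hk with h | h
      · exact ⟨_, Or.inl rfl, h⟩
      · exact ⟨_, Or.inr rfl, h⟩
    · rcases hk with h | h
      · refine ⟨_, Or.inr rfl, ?_⟩
        rw [h]
        rfl
      · refine ⟨_, Or.inl rfl, ?_⟩
        rw [h]
        rfl
  obtain ⟨a, ha, rfl⟩ := hx2
  exact dblW_eq H hI hcut h2 hK hfK hS ha b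

/-- the closure of a half surface under adjacency off the cut -/
def HalfCl (L : ℤ) (Q : QC V Φ) (A : Finset Φ) (ps : ℤ × ℤ → Φ) (S : Set Φ) (m : ι → V × V) : Prop :=
  ∀ f ∈ S, ∀ k, ∀ f', (f' ∈ A ∨ ∃ g, g ∉ RFb (0, 0) L ∧ f' = ps g) → ∀ k',
    sd Q f' k' = (sd Q f k).swap → f' ∈ S ∨ ∃ i, sd Q f k = m i

/-- **Bound of the plane functional of the double of a half.** -/
theorem norm_dbl_le (hQ : NoLoop Q) (HG : GlueZ L Q A φ ps P)
    (H : HalfS up g₀ ZQ (outZ L) Q A φ ps S m) (hL0 : 0 < L) (hI : IslM L Q A ps Z)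
    (hcl : HalfCl L Q A ps S m) (hcut : ∀ a ∈ Z, ∀ i, a ≠ m i) {B : ℝ}
    (hB : ∃ᶠ M : ℤ in atTop, ∃ (ι' : Type) (_ : Fintype ι') (l : ι' → V × V)
      (hl : OneSided Q (halfF up g₀ L A S ps M) l),
      (∀ f ∈ halfF up g₀ L A S ps M, ∀ k, onCut l (Q.c f k) ↔ onCut m (Q.c f k)) ∧
      av (dblFs (halfF up g₀ L A S ps M)) (fun ω => |WZ (dbl Q (halfF up g₀ L A S ps M) l hl)
        (dblFs (halfF up g₀ L A S ps M)) (dps ψ (mps ψ))
        (dZ l (isH Q A S Z) ((isH Q A S Z).image Prod.swap)) ω|) ≤ B) :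
    ‖Zp (L + |g₀|) (dblS Q S m H.os) (cor2 up g₀ A S ps (wZ up g₀ L (L + |g₀|))) (dblψ up g₀ ps)
      (Asm3.dblW (hz ψ Z)) (isl2 Q A S m Z)‖ ≤ Real.sqrt 3 ^ (isH Q A S Z).card * B := by
  have hL : L + |g₀| ≤ L + |g₀| := le_rfl
  have hL' : 0 < L + |g₀| := by have := abs_nonneg g₀; omega
  have hI2 := islM_dbl HG H hL hI hcl hcut
  have hZ2 := glueZD (Z := Z) HG H hL
  rw [Zp_dblW H hL hL' hI hcut hI2]
  -- the island sides in the windows
  have hsub : ∀ M : ℤ, isH Q A S Z ⊆ bS Q (halfF up g₀ L A S ps M) := by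
    intro M a ha
    obtain ⟨h1, h2⟩ := mem_isH.mp ha
    obtain ⟨f, hf, k, hk⟩ := mem_dE.mp h2
    obtain ⟨hfA, hfS⟩ := mem_corS.mp hf
    obtain ⟨-, e⟩ := mem_isH_of (S := S) hI le_rfl (mem_FM'.mpr (Or.inl hfA)) hfS hk h1
    refine mem_bSD.mpr ⟨⟨f, mem_halfF.mpr (Or.inl ⟨hfA, hfS⟩), k, e⟩, fun f' hf' k' => ?_⟩
    have hG : ∃ K, L ≤ K ∧ f' ∈ FM L A ps K := by
      rcases mem_halfF.mp hf' with h | ⟨p, -, h4, rfl⟩
      · exact ⟨L, le_rfl, mem_FM'.mpr (Or.inl h.1)⟩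
      · obtain ⟨K, hK, hgK⟩ := exists_RFb p L
        exact ⟨K, hK, mem_FM'.mpr (Or.inr ⟨p, h4, hgK, rfl⟩)⟩
    obtain ⟨K, hK, hfK⟩ := hG
    exact (mem_bSD.mp (hI.sub K hK h1)).2 f' hfK k'
  have heds : ∀ {M : ℤ} {ι' : Type} [Fintype ι'] {l : ι' → V × V},
      (∀ f ∈ halfF up g₀ L A S ps M, ∀ k, onCut l (Q.c f k) ↔ onCut m (Q.c f k)) →
      ∀ a ∈ isH Q A S Z, a ∉ eds l := by
    intro M ι' _ l hc a ha he
    have h1 := isH_cut H hI hcut ha
    obtain ⟨i1, i2⟩ := dE_onCut hc (mem_bS.mp (hsub M ha)).1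
    refine h1 ⟨i1.mp ?_, i2.mp ?_⟩
    · rcases mem_eds.mp he with ⟨i, h | h⟩
      · exact ⟨i, Or.inl (by rw [h])⟩
      · exact ⟨i, Or.inr (by rw [h]; rfl)⟩
    · rcases mem_eds.mp he with ⟨i, h | h⟩
      · exact ⟨i, Or.inr (by rw [h])⟩
      · exact ⟨i, Or.inl (by rw [h]; rfl)⟩
  have hzE : ∀ M : ℤ, isH Q A S Z ⊆ dE Q (halfF up g₀ L A S ps M) :=
    fun M a ha => (mem_bS.mp (hsub M ha)).1
  have hzE' : ∀ M : ℤ, (isH Q A S Z).image Prod.swap ⊆ dE Q (halfF up g₀ L A S ps M) := by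
    intro M a ha
    obtain ⟨b, hb, rfl⟩ := Finset.mem_image.mp ha
    exact swap_mem_dE.mpr (hzE M hb)
  -- the number of the island sides of the double
  have hcard : (islD Q A S m Z).card / 2 = (isH Q A S Z).card := by
    obtain ⟨M, ι', hι, l, hl, hc, -⟩ := hB.exists
    rw [islD_eq, ← dZ_eq hc (hzE M) (hzE' M), card_dZ (hzE M) (heds hc) hl,
      Finset.card_image_of_injective _ Prod.swap_injective]
    omega
  have key := norm_Zp_dbl_le hQ H hL hL' hZ2 hI2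
    (phZ_hz (dps ψ (mps ψ)) (noswap hI2)) (B := B) (hB.mono ?_)
  · rw [hcard] at key
    exact key
  · rintro M ⟨ι', hι, l, hl, hc, hav⟩
    have e := dZ_eq hc (hzE M) (hzE' M)
    refine ⟨ι', l, hl, dZ l (isH Q A S Z) ((isH Q A S Z).image Prod.swap), dps ψ (mps ψ), hc, ?_, ?_, ?_,
      hav⟩
    · intro x hx
      have e1 : bS (dbl Q (halfF up g₀ L A S ps M) l hl) (cpy (halfF up g₀ L A S ps M) false ∪
          cpy (halfF up g₀ L A S ps M) true) = (bS Q (halfF up g₀ L A S ps M) \ eds l).image (dblA l false) ∪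
          (bS (mir Q) (halfF up g₀ L A S ps M) \ eds l).image (dblA l true) := bS_dbl
      rw [e1]
      rcases mem_dZ'.mp hx with ⟨a, ha, rfl⟩ | ⟨a, ha, rfl⟩
      · exact Finset.mem_union_left _ (Finset.mem_image_of_mem _
          (Finset.mem_sdiff.mpr ⟨hsub M ha, heds hc a ha⟩))
      · obtain ⟨b, hb, rfl⟩ := Finset.mem_image.mp ha
        refine Finset.mem_union_right _ (Finset.mem_image_of_mem _ (Finset.mem_sdiff.mpr ⟨?_, ?_⟩))
        · rw [mem_bS_mir, Prod.swap_swap]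
          exact hsub M hb
        · exact fun h => heds hc b hb (swap_mem_eds.mp h)
    · rw [islD_eq, ← e]
      conv_rhs => rw [← Finset.image_id (s := dZ l (isH Q A S Z) ((isH Q A S Z).image Prod.swap))]
      refine Finset.image_congr fun x hx => ?_
      exact nuD_dZ hc (hzE M) (hzE' M) (by exact_mod_cast hx)
    · intro a ha
      rw [nuD_dZ hc (hzE M) (hzE' M) ha]

end plane

end

end Pool.Agent.SixB.Dbl
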