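import Pool.Agent.Lib.SixB.S3AsmD
import Pool.Agent.Lib.SixB.S3AtlUp
import Pool.Agent.Lib.SixB.S3HalfE
import Pool.Agent.Lib.SixB.S3UpZ

/-!
# 6BD step 3, row R21: the numbers `zU`, `zD` of a slab

* `UpZ.zDbl_le`: `norm_dbl_le` for `zDbl`.
* `UpZ.isH_eq`: the island sides of a half in the box are those of the half in any larger window (`UpE.zh`).
* `UpZ.halfF_hi`, `UpZ.halfF_lo`: the windows of the half are the halves of `S.env W X Y`.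
* `UpZ.onCut_hi`, `UpZ.onCut_lo`: the finite cut families.
* `UpZ.zU_le`, `UpZ.zD_le`: UPPER for `zU`, `zD` from atlases of the finite doubles in arbitrarily large windows.
-/

set_option autoImplicit false
set_option linter.unusedSectionVars false

namespace Pool.Agent.SixB.UpZ

open Pool.Agent.Perc Pool.Agent.Perc.Q Filter Topology
open Pool.Agent.SixB.Rel Pool.Agent.SixB.Dbl
open Pool.Agent.SixB.Asm3 (hiS loS lfS cutV zDbl zDbl_eq eB hB bx_pos inBx zU zD zEE)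

noncomputable section

/-! ## The bound of `zDbl` -/

section gen

variable {V Φ : Type} [DecidableEq V] [DecidableEq Φ] {up : Bool} {g₀ L : ℤ} {Q : QC V Φ}
  {A : Finset Φ} {φ : ℤ × ℤ → V} {ps : ℤ × ℤ → Φ} {H : Set Φ} {m : ℤ → V × V} {Z P : Finset (V × V)}
  {ψ : V × V → ℝ}

theorem zDbl_le (hQ : NoLoop Q) (HG : GlueZ L Q A φ ps P) (HH : HalfS up g₀ ZQ (outZ L) Q A φ ps H m)
    (hL0 : 0 < L) (hI : IslM L Q A ps Z) (hcl : HalfCl L Q A ps H m) (hcut : ∀ a ∈ Z, ∀ i, a ≠ m i)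
    {B : ℝ}
    (hB : ∃ᶠ M : ℤ in atTop, ∃ (ι' : Type) (_ : Fintype ι') (l : ι' → V × V)
      (hl : OneSided Q (halfF up g₀ L A H ps M) l),
      (∀ f ∈ halfF up g₀ L A H ps M, ∀ k, onCut l (Q.c f k) ↔ onCut m (Q.c f k)) ∧
      av (dblFs (halfF up g₀ L A H ps M)) (fun ω => |WZ (dbl Q (halfF up g₀ L A H ps M) l hl)
        (dblFs (halfF up g₀ L A H ps M)) (dps ψ (mps ψ))
        (Dbl.dZ l (isH Q A H Z) ((isH Q A H Z).image Prod.swap)) ω|) ≤ B) :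
    |zDbl up g₀ L Q A ps (hz ψ Z) Z H m| ≤ Real.sqrt 3 ^ (isH Q A H Z).card * B := by
  rw [zDbl_eq HH.os]
  exact (Complex.abs_re_le_norm _).trans (norm_dbl_le hQ HG HH hL0 hI hcl hcut hB)

end gen

/-! ## Windows -/

/-- the environment in the window `W` -/
abbrev setW (E : SEnv) (W : Finset (ℤ × ℤ)) : SEnv := { E with W := W }

variable {E : SEnv} {W : Finset (ℤ × ℤ)} {L M y x : ℤ}
  {F' : Finset (Option Bool × (ℤ × ℤ))} {H : Set (Option Bool × (ℤ × ℤ))}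

/-- across a side of a block there is no base face -/
theorem sol_base (hE : EnvB.Thk E) {s : (Option Bool × (ℤ × ℤ)) × (Option Bool × (ℤ × ℤ))}
    (hs : SolSide E s) {g : ℤ × ℤ} (h1 : ¬ E.gu.solid true g) (h2 : ¬ E.gd.solid false g)
    (l : ZMod 4) : sd E.Q (none, g) l ≠ s.swap := by
  intro h
  obtain ⟨M, -, hM⟩ := exists_RFb g 0
  have hgb : g ∈ (win E M).base := mem_base_win.mpr ⟨hM, h1, h2⟩
  have e : sd E.Q (none, g) l = ((none, (sd ZQ g l).1), (none, (sd ZQ g l).2)) :=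
    EnvB.sd_base (win_thk hE) hgb l
  have hs1 : s = ((none, (sd ZQ g l).2), (none, (sd ZQ g l).1)) := by
    rw [← Prod.swap_swap s, ← h, e]
    rfl
  rw [hs1] at hs
  rcases hs with h6 | h6 | ⟨g', hg', l', h6⟩
  · exact h6 rfl
  · exact h6 rfl
  · have h7 : (sd ZQ g l).swap = (sd ZQ g' l').swap := h6
    have h8 : sd ZQ g l = sd ZQ g' l' := Prod.swap_injective h7
    have h9 := (ZQ.inj (Prod.mk.inj h8).1 (Prod.mk.inj h8).2).1
    rw [← h9] at hg'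
    rcases hg' with h | h
    · exact h1 h
    · exact h2 h

/-- faces with sides of a block are in the box -/
theorem sol_face (hE : EnvB.Thk E) (hL : InBx E L) {f : Option Bool × (ℤ × ℤ)}
    (hf : f ∈ (setW E W).F) {k : ZMod 4} (hs : SolSide E (sd E.Q f k)) : f ∈ (win E L).F := by
  obtain ⟨t, g⟩ := f
  rcases t with _ | _ | _
  · have h1 := EnvB.mem_base.mp (EnvB.mem_F_none.mp hf)
    obtain ⟨M, -, hM⟩ := exists_RFb g 0
    have hgb : g ∈ (win E M).base := mem_base_win.mpr ⟨hM, h1.2⟩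
    have h3 := hL _ ((solSide_base hE hgb).mp hs)
    have h4 := nb_box (k := k + 2) h3
    rw [nb_nb, sub_add_cancel] at h4
    exact EnvB.mem_F_none.mpr (mem_base_win.mpr ⟨h4, h1.2⟩)
  · exact EnvB.mem_F_lo.mpr ((EnvB.mem_F_lo (E := setW E W)).mp hf)
  · exact EnvB.mem_F_up.mpr ((EnvB.mem_F_up (E := setW E W)).mp hf)

/-- **The island sides of a half in a window.** -/
theorem isH_eq (hE : EnvB.Thk E) (hF' : F' ⊆ (setW E W).F)
    (h1 : ∀ f ∈ (win E L).F, f ∈ H → f ∈ F')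
    (h2 : ∀ f ∈ F', ∀ k, SolSide E (sd E.Q f k) → f ∈ (win E L).F ∧ f ∈ H) :
    isH E.Q (win E L).F H (win E L).Z = UpE.zh (setW E W) F' := by
  ext a
  rw [mem_isH, UpE.mem_zh]
  constructor
  · rintro ⟨hZ, hE'⟩
    obtain ⟨hb, hs⟩ := mem_Z_win.mp hZ
    obtain ⟨f, hf, k, hk⟩ := mem_dE.mp hE'
    obtain ⟨hfA, hfH⟩ := mem_corS.mp hf
    have hb' := mem_bSD.mp hb
    have e : a = sd E.Q f k := by
      rcases hk with h | h
      · exact h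
      · exact absurd (by rw [h, Prod.swap_swap]) (hb'.2 f hfA k)
    have hfF' := h1 f hfA hfH
    have key : ∀ z ∈ (setW E W).F, ∀ l, sd E.Q z l ≠ a.swap := by
      rintro ⟨t, g⟩ hz l
      rcases t with _ | _ | _
      · have h3 := (EnvB.mem_base (E := setW E W)).mp (EnvB.mem_F_none.mp hz)
        exact sol_base hE hs h3.2.1 h3.2.2 l
      · have h3 : g ∈ E.L := (EnvB.mem_F_lo (E := setW E W)).mp hz
        exact hb'.2 _ (EnvB.mem_F_lo.mpr h3) l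
      · have h3 : g ∈ E.U := (EnvB.mem_F_up (E := setW E W)).mp hz
        exact hb'.2 _ (EnvB.mem_F_up.mpr h3) l
    exact ⟨EnvB.mem_Z.2 ⟨mem_bSD.mpr ⟨⟨f, hF' hfF', k, e⟩, key⟩, hs⟩,
      mem_bSD.mpr ⟨⟨f, hfF', k, e⟩, fun z hz => key z (hF' hz)⟩⟩
  · rintro ⟨hZ, hb⟩
    obtain ⟨hb1, hs⟩ := EnvB.mem_Z.1 hZ
    obtain ⟨⟨f, hf, k, e⟩, -⟩ := mem_bSD.mp hb
    have hs' : SolSide E a := hs
    have hb1' := (mem_bSD.mp hb1).2
    obtain ⟨hfA, hfH⟩ := h2 f hf k (e ▸ hs')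
    have key : ∀ z ∈ (win E L).F, ∀ l, sd E.Q z l ≠ a.swap := by
      rintro ⟨t, g⟩ hz l
      rcases t with _ | _ | _
      · have h3 := (EnvB.mem_base (E := win E L)).mp (EnvB.mem_F_none.mp hz)
        exact sol_base hE hs' h3.2.1 h3.2.2 l
      · have h3 : g ∈ E.L := (EnvB.mem_F_lo (E := win E L)).mp hz
        exact hb1' _ ((EnvB.mem_F_lo (E := setW E W)).mpr h3) l
      · have h3 : g ∈ E.U := (EnvB.mem_F_up (E := win E L)).mp hz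
        exact hb1' _ ((EnvB.mem_F_up (E := setW E W)).mpr h3) l
    exact ⟨mem_Z_win.mpr ⟨mem_bSD.mpr ⟨⟨f, hfA, k, e⟩, key⟩, hs'⟩,
      mem_dE.mpr ⟨f, mem_corS.mpr ⟨hfA, hfH⟩, k, Or.inl e⟩⟩

/-! ## The halves -/

theorem mem_hiS {f : Option Bool × (ℤ × ℤ)} : f ∈ hiS E y ↔
    (f.1 = none ∧ (¬ E.gu.solid true f.2 ∧ ¬ E.gd.solid false f.2) ∧ y ≤ f.2.2) ∨
      (f.1 = some true ∧ f.2 ∈ E.U) :=
  Asm3.mem_hiS.trans (or_congr_left (and_congr_right fun _ => and_comm))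

theorem mem_loS {f : Option Bool × (ℤ × ℤ)} : f ∈ loS E y ↔
    (f.1 = none ∧ (¬ E.gu.solid true f.2 ∧ ¬ E.gd.solid false f.2) ∧ f.2.2 < y) ∨
      (f.1 = some false ∧ f.2 ∈ E.L) :=
  Asm3.mem_loS.trans (or_congr_left (and_congr_right fun _ => and_comm))

/-- the window `W` is the half window on the upper side -/
def WinU (y M : ℤ) (W : Finset (ℤ × ℤ)) : Prop := ∀ g : ℤ × ℤ, y ≤ g.2 → (g ∈ W ↔ g ∈ hW true y M)

/-- the window `W` is the half window on the lower side -/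
def WinD (y M : ℤ) (W : Finset (ℤ × ℤ)) : Prop := ∀ g : ℤ × ℤ, g.2 < y → (g ∈ W ↔ g ∈ hW false y M)

theorem inHu {g : ℤ × ℤ} : inH true y g ↔ y ≤ g.2 := by
  unfold inH
  simp

theorem inHd {g : ℤ × ℤ} : inH false y g ↔ g.2 < y := by
  unfold inH
  simp

theorem box_hW {up : Bool} (hM : L + |y| ≤ M) {g : ℤ × ℤ} (hg : g ∈ RFb (0, 0) L)
    (h : inH up y g) : g ∈ hW up y M := by
  rw [mem_RF0] at hg
  refine mem_hW.mpr ⟨⟨?_, ?_⟩, h, ?_, ?_⟩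
  all_goals
    have h1 := abs_nonneg y
    have h2 := le_abs_self y
    have h3 := neg_abs_le y
    omega

theorem not_sol (hL : InBx E L) {g : ℤ × ℤ} (hg : g ∉ RFb (0, 0) L) :
    ¬ E.gu.solid true g ∧ ¬ E.gd.solid false g :=
  ⟨fun h => hg (RF0_mono (by omega) (hL g (Or.inl h))),
    fun h => hg (RF0_mono (by omega) (hL g (Or.inr h)))⟩

theorem halfF_hi (hL : InBx E L) (hM : L + |y| ≤ M) (hW : WinU y M W) :
    halfF true y L (win E L).F (hiS E y) (fun f => ((none : Option Bool), f)) M =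
      (setW E W).hi y := by
  ext ⟨t, g⟩
  rw [mem_halfF, mem_hiS, UpE.mem_hiE, EnvB.mem_base]
  constructor
  · rintro (⟨h1, ⟨h2, h3, h4⟩ | h2⟩ | ⟨p, h1, h2, h3⟩)
    · simp only at h2 h3 h4
      subst h2
      have h5 := mem_base_win.mp (EnvB.mem_F_none.mp h1)
      exact Or.inl ⟨rfl, ⟨(hW g h4).mpr (box_hW hM h5.1 (inHu.mpr h4)), h3⟩, h4⟩
    · exact Or.inr h2
    · obtain ⟨e1, e2⟩ := Prod.mk.inj h3
      subst e1
      subst e2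
      have h4 := inHu.mp (mem_hW.mp h1).2.1
      exact Or.inl ⟨rfl, ⟨(hW p h4).mpr h1, not_sol hL h2⟩, h4⟩
  · rintro (⟨h1, ⟨h2, h3⟩, h4⟩ | ⟨h1, h2⟩)
    · simp only at h1 h2 h3 h4
      subst h1
      by_cases h5 : g ∈ RFb (0, 0) L
      · exact Or.inl ⟨EnvB.mem_F_none.mpr (mem_base_win.mpr ⟨h5, h3⟩), Or.inl ⟨rfl, h3, h4⟩⟩
      · exact Or.inr ⟨g, (hW g h4).mp h2, h5, rfl⟩
    · simp only at h1 h2
      subst h1
      exact Or.inl ⟨EnvB.mem_F_up.mpr h2, Or.inr ⟨rfl, h2⟩⟩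

theorem halfF_lo (hL : InBx E L) (hM : L + |y| ≤ M) (hW : WinD y M W) :
    halfF false y L (win E L).F (loS E y) (fun f => ((none : Option Bool), f)) M =
      (setW E W).lo y := by
  ext ⟨t, g⟩
  rw [mem_halfF, mem_loS, UpE.mem_loE, EnvB.mem_base]
  constructor
  · rintro (⟨h1, ⟨h2, h3, h4⟩ | h2⟩ | ⟨p, h1, h2, h3⟩)
    · simp only at h2 h3 h4
      subst h2
      have h5 := mem_base_win.mp (EnvB.mem_F_none.mp h1)
      exact Or.inl ⟨rfl, ⟨(hW g h4).mpr (box_hW hM h5.1 (inHd.mpr h4)), h3⟩, h4⟩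
    · exact Or.inr h2
    · obtain ⟨e1, e2⟩ := Prod.mk.inj h3
      subst e1
      subst e2
      have h4 := inHd.mp (mem_hW.mp h1).2.1
      exact Or.inl ⟨rfl, ⟨(hW p h4).mpr h1, not_sol hL h2⟩, h4⟩
  · rintro (⟨h1, ⟨h2, h3⟩, h4⟩ | ⟨h1, h2⟩)
    · simp only at h1 h2 h3 h4
      subst h1
      by_cases h5 : g ∈ RFb (0, 0) L
      · exact Or.inl ⟨EnvB.mem_F_none.mpr (mem_base_win.mpr ⟨h5, h3⟩), Or.inl ⟨rfl, h3, h4⟩⟩
      · exact Or.inr ⟨g, (hW g h4).mp h2, h5, rfl⟩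
    · simp only at h1 h2
      subst h1
      exact Or.inl ⟨EnvB.mem_F_lo.mpr h2, Or.inr ⟨rfl, h2⟩⟩

/-- the window contains the box on the upper side -/
theorem isH_hi (hE : EnvB.Thk E) (hL : InBx E L) (hW : ∀ g ∈ RFb (0, 0) L, y ≤ g.2 → g ∈ W) :
    isH E.Q (win E L).F (hiS E y) (win E L).Z = UpE.zh (setW E W) ((setW E W).hi y) := by
  refine isH_eq hE (Finset.filter_subset _ _) ?_ ?_
  · rintro ⟨t, g⟩ h1 h2
    rw [UpE.mem_hiE, EnvB.mem_base]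
    rcases mem_hiS.mp h2 with ⟨h3, h4, h5⟩ | h3
    · simp only at h3 h4 h5
      subst h3
      exact Or.inl ⟨rfl, ⟨hW g (mem_base_win.mp (EnvB.mem_F_none.mp h1)).1 h5, h4⟩, h5⟩
    · exact Or.inr h3
  · intro f hf k hs
    refine ⟨sol_face hE hL (Finset.filter_subset _ _ hf) hs, mem_hiS.mpr ?_⟩
    rw [UpE.mem_hiE, EnvB.mem_base] at hf
    rcases hf with ⟨h1, ⟨-, h2⟩, h3⟩ | h1
    · exact Or.inl ⟨h1, h2, h3⟩
    · exact Or.inr h1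

theorem isH_lo (hE : EnvB.Thk E) (hL : InBx E L) (hW : ∀ g ∈ RFb (0, 0) L, g.2 < y → g ∈ W) :
    isH E.Q (win E L).F (loS E y) (win E L).Z = UpE.zh (setW E W) ((setW E W).lo y) := by
  refine isH_eq hE (Finset.filter_subset _ _) ?_ ?_
  · rintro ⟨t, g⟩ h1 h2
    rw [UpE.mem_loE, EnvB.mem_base]
    rcases mem_loS.mp h2 with ⟨h3, h4, h5⟩ | h3
    · simp only at h3 h4 h5
      subst h3
      exact Or.inl ⟨rfl, ⟨hW g (mem_base_win.mp (EnvB.mem_F_none.mp h1)).1 h5, h4⟩, h5⟩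
    · exact Or.inr h3
  · intro f hf k hs
    refine ⟨sol_face hE hL (Finset.filter_subset _ _ hf) hs, mem_loS.mpr ?_⟩
    rw [UpE.mem_loE, EnvB.mem_base] at hf
    rcases hf with ⟨h1, ⟨-, h2⟩, h3⟩ | h1
    · exact Or.inl ⟨h1, h2, h3⟩
    · exact Or.inr h1

/-! ## The cut families -/

section cut

variable {S : Slb} {X Y : ℤ} {ι' : Type}
  {l : ι' → (Option Bool × (ℤ × ℤ)) × (Option Bool × (ℤ × ℤ))} {c : ι' → ℤ}

theorem onCut_hi (h : S.Ok) (hy2 : y < S.yc + S.a) (hl : ∀ i, l i = SEnv.cutH y (c i))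
    (hx : UpE.CutF W y c) : ∀ f ∈ (S.env W X Y).hi y, ∀ k,
      onCut l ((S.env W X Y).Q.c f k) ↔ onCut (SEnv.cutH y) ((S.env W X Y).Q.c f k) := by
  rintro ⟨s, g⟩ hf k
  rw [Asm3.onCut_cutH]
  refine ⟨UpE.onCut_row fun i => Or.inl (hl i), ?_⟩
  rintro ⟨h1, h2⟩
  rcases UpE.mem_hiE.mp hf with ⟨h7, h8, h9⟩ | ⟨h7, h8⟩
  · simp only at h7 h8 h9
    subst h7
    have e : (S.env W X Y).Q.c (none, g) k = (none, ZQ.c g k) := EnvB.cor_base (BlkS.thk h) h8 k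
    rw [e] at h2 ⊢
    simp only at h2
    have h10 : g.2 = y ∧ ((ZQ.c g k).1 = g.1 ∨ (ZQ.c g k).1 = g.1 + 1) := by
      rcases EmbH.corc g k with ⟨-, e⟩ | ⟨-, e⟩ | ⟨-, e⟩ | ⟨-, e⟩
      · rw [e] at h2 ⊢
        exact ⟨h2, Or.inl rfl⟩
      · rw [e] at h2 ⊢
        exact ⟨h2, Or.inr rfl⟩
      · rw [e] at h2
        simp only at h2
        omega
      · rw [e] at h2
        simp only at h2
        omega
    obtain ⟨i, hi⟩ := hx.all g.1 (by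
      rw [← h10.1]
      exact (EnvB.mem_base.1 h8).1)
    refine ⟨i, ?_⟩
    rw [hl, hi]
    rcases h10.2 with h11 | h11
    · exact Or.inl (Prod.ext rfl (Prod.ext h11 h2))
    · exact Or.inr (Prod.ext rfl (Prod.ext h11 h2))
  · simp only at h7 h8
    subst h7
    exfalso
    have h9 := UpE.pkU_row (E := S.env W X Y) h1
    rw [h2] at h9
    have h10 : y = S.yc + S.a := h9
    omega

theorem onCut_lo (h : S.Ok) (hy1 : S.yc - S.a < y) (hl : ∀ i, l i = (SEnv.cutH y (c i)).swap)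
    (hx : UpE.CutF W (y - 1) c) : ∀ f ∈ (S.env W X Y).lo y, ∀ k,
      onCut l ((S.env W X Y).Q.c f k) ↔ onCut (revFam (SEnv.cutH y)) ((S.env W X Y).Q.c f k) := by
  rintro ⟨s, g⟩ hf k
  rw [Hcs.onCut_rev, Asm3.onCut_cutH]
  refine ⟨UpE.onCut_row fun i => Or.inr (hl i), ?_⟩
  rintro ⟨h1, h2⟩
  rcases UpE.mem_loE.mp hf with ⟨h7, h8, h9⟩ | ⟨h7, h8⟩
  · simp only at h7 h8 h9
    subst h7
    have e : (S.env W X Y).Q.c (none, g) k = (none, ZQ.c g k) := EnvB.cor_base (BlkS.thk h) h8 k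
    rw [e] at h2 ⊢
    simp only at h2
    have h10 : g.2 = y - 1 ∧ ((ZQ.c g k).1 = g.1 ∨ (ZQ.c g k).1 = g.1 + 1) := by
      rcases EmbH.corc g k with ⟨-, e⟩ | ⟨-, e⟩ | ⟨-, e⟩ | ⟨-, e⟩
      · rw [e] at h2
        simp only at h2
        omega
      · rw [e] at h2
        simp only at h2
        omega
      · rw [e] at h2 ⊢
        simp only at h2
        exact ⟨by omega, Or.inr rfl⟩
      · rw [e] at h2 ⊢
        simp only at h2
        exact ⟨by omega, Or.inl rfl⟩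
    obtain ⟨i, hi⟩ := hx.all g.1 (by
      rw [← h10.1]
      exact (EnvB.mem_base.1 h8).1)
    refine ⟨i, ?_⟩
    rw [hl, hi]
    rcases h10.2 with h11 | h11
    · exact Or.inr (Prod.ext rfl (Prod.ext h11 h2))
    · exact Or.inl (Prod.ext rfl (Prod.ext h11 h2))
  · simp only at h7 h8
    subst h7
    exfalso
    have h9 := UpE.pkL_row (E := S.env W X Y) h1
    rw [h2] at h9
    have h10 : y = S.yc - S.a := h9
    omega

end cut

/-! ## The bounds -/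

/-- an atlas of the double of the part `F'` of the environment `E`, cut along `m`, with the types `T` -/
def AtlH (E : SEnv) (F' : Finset (Option Bool × (ℤ × ℤ)))
    (m : ℤ → (Option Bool × (ℤ × ℤ)) × (Option Bool × (ℤ × ℤ)))
    (ψ : (Option Bool × (ℤ × ℤ)) × (Option Bool × (ℤ × ℤ)) → ℝ) (nS nN : ℕ) (t₀ : ℝ) (r : ℕ)
    (T : Multiset VT) : Prop :=
  ∃ (ι' : Type) (_ : Fintype ι') (l : ι' → (Option Bool × (ℤ × ℤ)) × (Option Bool × (ℤ × ℤ)))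
    (hl : OneSided E.Q F' l), (∀ f ∈ F', ∀ k, onCut l (E.Q.c f k) ↔ onCut m (E.Q.c f k)) ∧
    ∃ (nS' nN' : ℕ) (t₁ : ℝ) (A : Atlas (dbl E.Q F' l hl) (dblFs F') (dps ψ (mps ψ))
      (Dbl.dZ l (UpE.zh E F') ((UpE.zh E F').image Prod.swap)) r nS' nN' t₁),
      nS' ≤ nS ∧ nN' ≤ nN ∧ t₀ ≤ t₁ ∧ St.vts A = T

/-- **UPPER for `zU`.** -/
theorem zU_le (nS nN : ℕ) (t₀ : ℝ) (h0 : 0 < t₀) (h1 : t₀ ≤ 1) : ∃ K₀ : ℝ, 0 < K₀ ∧
    ∀ {S : Slb} (_ : S.Ok) {r : ℕ} {T : Multiset VT}, 0 < r →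
      (∃ᶠ M : ℤ in atTop, ∃ W : Finset (ℤ × ℤ), WinU (S.yc + (S.a / 2 : ℕ)) M W ∧
        AtlH (S.env W 0 0) ((S.env W 0 0).hi (S.yc + (S.a / 2 : ℕ)))
          (SEnv.cutH (S.yc + (S.a / 2 : ℕ))) (S.ph W 0 0) nS nN t₀ r T) →
      |zU S| ≤ Real.sqrt 3 ^ (UpE.zh (eB S 0 0) ((eB S 0 0).hi (S.yc + (S.a / 2 : ℕ)))).card *
        (K₀ * FP r T) := by
  obtain ⟨K₀, hK, hA⟩ := atlas_upper_le nS nN t₀ h0 h1
  refine ⟨K₀, hK, ?_⟩
  intro S h r T hr hfr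
  have ha := h.ha
  have hu : S.yc + (S.a / 2 : ℕ) < (S.env ∅ 0 0).gu.yc + (S.env ∅ 0 0).gu.a := by
    show S.yc + (S.a / 2 : ℕ) < S.yc + S.a
    omega
  have hd : (S.env ∅ 0 0).gd.yc - (S.env ∅ 0 0).gd.a < S.yc + (S.a / 2 : ℕ) := by
    show S.yc - S.a < S.yc + (S.a / 2 : ℕ)
    omega
  have hE : EnvB.Thk (S.env ∅ 0 0) := BlkS.thk h
  have hL := inBx S 0 0
  have hz : isH (S.env ∅ 0 0).Q (win (S.env ∅ 0 0) (Asm3.bx S 0 0)).F
      (hiS (S.env ∅ 0 0) (S.yc + (S.a / 2 : ℕ))) (win (S.env ∅ 0 0) (Asm3.bx S 0 0)).Z =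
      UpE.zh (eB S 0 0) ((eB S 0 0).hi (S.yc + (S.a / 2 : ℕ))) :=
    isH_hi (W := RFb (0, 0) (Asm3.bx S 0 0)) hE hL fun g hg _ => hg
  have key := zDbl_le (P := (eB S 0 0).Z) (ψ := S.ph ∅ 0 0) (B := K₀ * FP r T) (noLoop_env _)
    (glueZ_env hE hL) (Asm3.half_U h) (bx_pos S 0 0) (islM_env hE hL)
    (Asm3.hcl_hi hE hL hu hd) (Asm3.hcut_hi hu hd) ?_
  · rw [← hz]
    exact key
  · refine (hfr.and_eventually (eventually_ge_atTop (Asm3.bx S 0 0 + |S.yc + (S.a / 2 : ℕ)|))).mono ?_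
    rintro M ⟨⟨W, hW, ι', hι, l, hl, hc, nS', nN', t₁, A, a1, a2, a3, a4⟩, hM⟩
    have e1 : halfF true (S.yc + (S.a / 2 : ℕ)) (Asm3.bx S 0 0) (win (S.env ∅ 0 0) (Asm3.bx S 0 0)).F
        (hiS (S.env ∅ 0 0) (S.yc + (S.a / 2 : ℕ))) (fun f => ((none : Option Bool), f)) M =
        (S.env W 0 0).hi (S.yc + (S.a / 2 : ℕ)) := halfF_hi hL hM hW
    have e2 : isH (S.env ∅ 0 0).Q (win (S.env ∅ 0 0) (Asm3.bx S 0 0)).F
        (hiS (S.env ∅ 0 0) (S.yc + (S.a / 2 : ℕ))) (win (S.env ∅ 0 0) (Asm3.bx S 0 0)).Z =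
        UpE.zh (S.env W 0 0) ((S.env W 0 0).hi (S.yc + (S.a / 2 : ℕ))) :=
      isH_hi (W := W) hE hL fun g hg hy => (hW g hy).mpr (box_hW hM hg (inHu.mpr hy))
    rw [e1, e2]
    refine ⟨ι', hι, l, hl, hc, ?_⟩
    rw [← a4]
    exact hA A a1 a2 a3 hr

/-- **UPPER for `zD`.** -/
theorem zD_le (nS nN : ℕ) (t₀ : ℝ) (h0 : 0 < t₀) (h1 : t₀ ≤ 1) : ∃ K₀ : ℝ, 0 < K₀ ∧
    ∀ {S : Slb} (_ : S.Ok) {r : ℕ} {T : Multiset VT}, 0 < r →
      (∃ᶠ M : ℤ in atTop, ∃ W : Finset (ℤ × ℤ), WinD (S.yc - (S.a / 2 : ℕ)) M W ∧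
        AtlH (S.env W 0 0) ((S.env W 0 0).lo (S.yc - (S.a / 2 : ℕ)))
          (revFam (SEnv.cutH (S.yc - (S.a / 2 : ℕ)))) (S.ph W 0 0) nS nN t₀ r T) →
      |zD S| ≤ Real.sqrt 3 ^ (UpE.zh (eB S 0 0) ((eB S 0 0).lo (S.yc - (S.a / 2 : ℕ)))).card *
        (K₀ * FP r T) := by
  obtain ⟨K₀, hK, hA⟩ := atlas_upper_le nS nN t₀ h0 h1
  refine ⟨K₀, hK, ?_⟩
  intro S h r T hr hfr
  have ha := h.ha
  have hu : S.yc - (S.a / 2 : ℕ) < (S.env ∅ 0 0).gu.yc + (S.env ∅ 0 0).gu.a := by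
    show S.yc - (S.a / 2 : ℕ) < S.yc + S.a
    omega
  have hd : (S.env ∅ 0 0).gd.yc - (S.env ∅ 0 0).gd.a < S.yc - (S.a / 2 : ℕ) := by
    show S.yc - S.a < S.yc - (S.a / 2 : ℕ)
    omega
  have hE : EnvB.Thk (S.env ∅ 0 0) := BlkS.thk h
  have hL := inBx S 0 0
  have hz : isH (S.env ∅ 0 0).Q (win (S.env ∅ 0 0) (Asm3.bx S 0 0)).F
      (loS (S.env ∅ 0 0) (S.yc - (S.a / 2 : ℕ))) (win (S.env ∅ 0 0) (Asm3.bx S 0 0)).Z =
      UpE.zh (eB S 0 0) ((eB S 0 0).lo (S.yc - (S.a / 2 : ℕ))) :=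
    isH_lo (W := RFb (0, 0) (Asm3.bx S 0 0)) hE hL fun g hg _ => hg
  have key := zDbl_le (P := (eB S 0 0).Z) (ψ := S.ph ∅ 0 0) (B := K₀ * FP r T) (noLoop_env _)
    (glueZ_env hE hL) (Asm3.half_D h) (bx_pos S 0 0) (islM_env hE hL)
    (Asm3.hcl_lo hE hL hu hd) (Asm3.hcut_lo hu hd) ?_
  · rw [← hz]
    exact key
  · refine (hfr.and_eventually (eventually_ge_atTop (Asm3.bx S 0 0 + |S.yc - (S.a / 2 : ℕ)|))).mono ?_
    rintro M ⟨⟨W, hW, ι', hι, l, hl, hc, nS', nN', t₁, A, a1, a2, a3, a4⟩, hM⟩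
    have e1 : halfF false (S.yc - (S.a / 2 : ℕ)) (Asm3.bx S 0 0) (win (S.env ∅ 0 0) (Asm3.bx S 0 0)).F
        (loS (S.env ∅ 0 0) (S.yc - (S.a / 2 : ℕ))) (fun f => ((none : Option Bool), f)) M =
        (S.env W 0 0).lo (S.yc - (S.a / 2 : ℕ)) := halfF_lo hL hM hW
    have e2 : isH (S.env ∅ 0 0).Q (win (S.env ∅ 0 0) (Asm3.bx S 0 0)).F
        (loS (S.env ∅ 0 0) (S.yc - (S.a / 2 : ℕ))) (win (S.env ∅ 0 0) (Asm3.bx S 0 0)).Z =
        UpE.zh (S.env W 0 0) ((S.env W 0 0).lo (S.yc - (S.a / 2 : ℕ))) :=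
      isH_lo (W := W) hE hL fun g hg hy => (hW g hy).mpr (box_hW hM hg (inHd.mpr hy))
    rw [e1, e2]
    refine ⟨ι', hι, l, hl, hc, ?_⟩
    rw [← a4]
    exact hA A a1 a2 a3 hr

end

end Pool.Agent.SixB.UpZ
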