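import Pool.Agent.Lib.SixB.S3PlaneE
import Pool.Agent.Lib.SixB.S3Cell

/-!
# 6BD step 3: the plane functional in terms of the weights `WZ` of the island sides

* `PhZ h ψ Z`: the weight `h` carries the phases `ψ` on the boundary sides `Z` and is `1` elsewhere (`hz ψ Z`);
* `Zr_bph`, `Zr_WZ`: if all mates of `Z` are in `Z` then `Zr Q F ω h Z = √3 ^ (|Z| / 2) * WZ Q F ψ Z ω`
  (closed strands do not touch boundary sides);
* `Isl L Q A ψ Z`: `Z` = the boundary sides of the windows `wF n = A ∪ annulus n` which are not on the outer boundary;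
* `GlueZ.zn_WZ`: `‖zn n - √3 ^ (|Z| / 2) * av (WZ)‖ ≤ 2 * CP * thB ^ n`; `GlueZ.tendsto_WZ`: `Zp` is the limit of
  `√3 ^ (|Z| / 2) * av (wF n) WZ`, in particular real (`Zp_im`); `norm_Zp_le`, `le_Zp`: bounds of `WZ` pass to `Zp`.
-/

set_option autoImplicit false
set_option linter.unusedSectionVars false

namespace Pool.Agent.SixB.Rel

open Pool.Agent.Perc Pool.Agent.Perc.Q Relation Filter Topology
open Pool.Agent.SixB hiding Zs_split dst_congr qt_congr dE_mono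

noncomputable section

section Pointwise

variable {V Φ : Type} [DecidableEq V] [DecidableEq Φ]
variable {Q : QC V Φ} {F : Finset Φ} {ω : Φ → Bool} {a b c : V × V} {Z : Finset (V × V)}
  {h : V × V → ℂ} {ψ : V × V → ℝ}

/-- The strands which touch a set `Z` of boundary sides are the arcs with an end in `Z`. -/
theorem image_touch (hZ : Z ⊆ bS Q F) : ((dstr Q F ω).filter (touch Z)).image prs =
    (arcsZ Q F Z ω).image (uarc Q F ω) := by
  ext U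
  simp only [Finset.mem_image, Finset.mem_filter]
  constructor
  · rintro ⟨X, ⟨hX, ht⟩, rfl⟩
    obtain ⟨a, ha, h1⟩ := touch_iff.mp ht
    obtain ⟨h2, h3⟩ := dstr_of_mem hX ha
    rcases h1 with h1 | h1
    · refine ⟨s(a, mate Q F ω a), mem_arcsZ.mpr ⟨a, h1, rfl⟩, ?_⟩
      rw [uarc_eq (hZ h1), ← h3]
      rfl
    · refine ⟨s(a.swap, mate Q F ω a.swap), mem_arcsZ.mpr ⟨_, h1, rfl⟩, ?_⟩
      rw [uarc_eq (hZ h1), ← rv_dst, ← h3, rv_rv]
      unfold prs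
      exact Finset.pair_comm _ _
  · rintro ⟨p, hp, rfl⟩
    obtain ⟨a, ha, rfl⟩ := mem_arcsZ.mp hp
    refine ⟨dst Q F ω a, ⟨dst_mem_dstr (mem_bS.mp (hZ ha)).1,
      touch_iff.mpr ⟨a, self_mem_dst (mem_bS.mp (hZ ha)).1, Or.inl ha⟩⟩, ?_⟩
    rw [uarc_eq (hZ ha)]
    rfl

theorem Zr_arcsZ (hZ : Z ⊆ bS Q F) (h : V × V → ℂ) :
    Zr Q F ω h Z = ∏ p ∈ arcsZ Q F Z ω, ∑ X ∈ uarc Q F ω p, sw Q F ω h X := by
  unfold Zr
  rw [image_touch hZ, Finset.prod_image fun p hp q hq hpq => ?_]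
  exact uarc_inj (Finset.mem_coe.mpr (arcsZ_sub hZ hp)) (Finset.mem_coe.mpr (arcsZ_sub hZ hq)) hpq

/-- The relevant part with the phases on all boundary sides. -/
theorem Zr_bph (hQ : NoLoop Q) (hZ : Z ⊆ bS Q F) (ψ : V × V → ℝ) :
    Zr Q F ω (bph Q F ψ) Z = ((∏ p ∈ arcsZ Q F Z ω, SixB.wA Q F ω ψ p : ℝ) : ℂ) := by
  rw [Zr_arcsZ hZ]
  push_cast
  refine Finset.prod_congr rfl fun p hp => ?_
  obtain ⟨a, ha, rfl⟩ := mem_arcsZ.mp hp
  rw [uarc_eq (hZ ha), sw_arc_sum hQ ψ (hZ ha), wA_eq ψ (hZ ha)]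
  rfl

/-- `h` carries the phases `ψ` on the sides `Z` (directed inwards) and is `1` elsewhere. -/
structure PhZ (h : V × V → ℂ) (ψ : V × V → ℝ) (Z : Finset (V × V)) : Prop where
  inw : ∀ a ∈ Z, h a = Complex.exp (-(ψ a : ℂ) * Complex.I)
  outw : ∀ a ∈ Z, h a.swap = Complex.exp ((ψ a : ℂ) * Complex.I)
  one : ∀ a, a ∉ Z → a.swap ∉ Z → h a = 1

open Classical in
/-- the canonical weight -/
def hz (ψ : V × V → ℝ) (Z : Finset (V × V)) (a : V × V) : ℂ :=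
  if a ∈ Z then Complex.exp (-(ψ a : ℂ) * Complex.I)
  else if a.swap ∈ Z then Complex.exp ((ψ a.swap : ℂ) * Complex.I) else 1

theorem not_swap_Z (hZ : Z ⊆ bS Q F) (ha : a ∈ Z) : a.swap ∉ Z := fun h =>
  not_ini_ter (mem_bS.mp (hZ ha)).1 (mem_bS.mp (hZ ha)).2 (ini_swap.mp (mem_bS.mp (hZ h)).2)

theorem phZ_hz (ψ : V × V → ℝ) (hZ : ∀ a ∈ Z, a.swap ∉ Z) : PhZ (hz ψ Z) ψ Z where
  inw a ha := by
    unfold hz
    rw [if_pos ha]
  outw a ha := by
    unfold hz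
    rw [if_neg (hZ a ha), Prod.swap_swap, if_pos ha]
  one a h1 h2 := by
    unfold hz
    rw [if_neg h1, if_neg h2]

theorem PhZ.eq_hz (H : PhZ h ψ Z) : h = hz ψ Z := by
  funext a
  unfold hz
  split_ifs with h1 h2
  · exact H.inw a h1
  · have := H.outw _ h2
    rwa [Prod.swap_swap] at this
  · exact H.one a h1 h2

/-- boundary phases which vanish off `Z` -/
theorem phZ_bph (hZ : Z ⊆ bS Q F) (h0 : ∀ a, a ∉ Z → ψ a = 0) : PhZ (bph Q F ψ) ψ Z where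
  inw a ha := bph_ini ψ (mem_bS.mp (hZ ha)).2
  outw a ha := by
    have h1 := mem_bS.mp (hZ ha)
    rw [bph_ter ψ (swap_mem_dE.mpr h1.1) (ter_swap.mpr h1.2), Prod.swap_swap]
  one a h1 h2 := by
    unfold bph
    split_ifs with h3 h4
    · rw [h0 a h1]
      simp
    · rw [h0 _ h2]
      simp
    · rfl

/-- On a strand with both ends in `Z` the weight is that of the boundary phases. -/
theorem PhZ.eq_bph (H : PhZ h ψ Z) (hZ : Z ⊆ bS Q F) (ha : a ∈ Z) (hm : mate Q F ω a ∈ Z)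
    (hc : c ∈ dst Q F ω a) : h c = bph Q F ψ c := by
  obtain ⟨h1, h2⟩ := mem_bS.mp (hZ ha)
  obtain ⟨hc1, hc2⟩ := mem_dst.mp hc
  by_cases hi : Ini Q (F : Set Φ) c
  · have e : a = c := ini_unique h2 hi hc2
    rw [← e, bph_ini ψ h2, H.inw a ha]
  · by_cases ht : Ter Q (F : Set Φ) c
    · have e := mate_unique (ω := ω) h2 ht hc2
      rw [bph_ter ψ hc1 ht, ← e, ← H.outw _ hm, e, Prod.swap_swap]
    · rw [bph_in ψ hi ht]
      refine H.one c (fun h3 => hi (mem_bS.mp (hZ h3)).2) fun h3 => ht ?_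
      exact ini_swap.mp (mem_bS.mp (hZ h3)).2

/-- **The relevant part is the product over the arcs with an end in `Z`.** -/
theorem Zr_arcs_of_mate (hQ : NoLoop Q) (hZ : Z ⊆ bS Q F) (hm : ∀ a ∈ Z, mate Q F ω a ∈ Z)
    (H : PhZ h ψ Z) : Zr Q F ω h Z = ((∏ p ∈ arcsZ Q F Z ω, SixB.wA Q F ω ψ p : ℝ) : ℂ) := by
  rw [← Zr_bph hQ hZ ψ, Zr_arcsZ hZ, Zr_arcsZ hZ]
  refine Finset.prod_congr rfl fun p hp => Finset.sum_congr rfl fun X hX => ?_
  obtain ⟨a, ha, rfl⟩ := mem_arcsZ.mp hp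
  rw [uarc_eq (hZ ha), Finset.mem_insert, Finset.mem_singleton] at hX
  refine sw_congr fun c hc => ?_
  rcases hX with rfl | rfl
  · exact H.eq_bph hZ ha (hm a ha) hc
  · rw [rv_dst_mate (hZ ha)] at hc
    refine H.eq_bph hZ (hm a ha) ?_ hc
    rw [mate_mate (hZ ha)]
    exact ha

/-- **The relevant part in terms of `WZ`.** -/
theorem Zr_WZ (hQ : NoLoop Q) (hZ : Z ⊆ bS Q F) (hm : ∀ a ∈ Z, mate Q F ω a ∈ Z)
    (H : PhZ h ψ Z) :
    Zr Q F ω h Z = ((Real.sqrt 3 ^ (Z.card / 2) * WZ Q F ψ Z ω : ℝ) : ℂ) := by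
  have h3 : (0 : ℝ) < Real.sqrt 3 := Real.sqrt_pos.mpr (by norm_num)
  have h4 := card_arcsZ hQ hZ hm
  have h5 : Z.card / 2 = (arcsZ Q F Z ω).card := by omega
  rw [Zr_arcs_of_mate hQ hZ hm H, WZ_of ψ hm, h5, mul_div_cancel₀ _ (pow_pos h3 _).ne']

/-- The difference of the relevant part and the weight `WZ` if not all mates are in `Z`. -/
theorem norm_Zr_sub_WZ (hQ : NoLoop Q) (hZ : Z ⊆ bS Q F) (H : PhZ h ψ Z) {p : Prop}
    (hp : p → ∀ a ∈ Z, mate Q F ω a ∈ Z) :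
    ‖Zr Q F ω h Z - ((Real.sqrt 3 ^ (Z.card / 2) * WZ Q F ψ Z ω : ℝ) : ℂ)‖ ≤
      CP h Z * ic (¬ p) := by
  have c0 := CP_nonneg h Z
  by_cases hm : ∀ a ∈ Z, mate Q F ω a ∈ Z
  · rw [Zr_WZ hQ hZ hm H, sub_self, norm_zero]
    exact mul_nonneg c0 (ic_nonneg _)
  · have h1 : ¬ p := fun h => hm (hp h)
    rw [WZ_not ψ hm, mul_zero, Complex.ofReal_zero, sub_zero, ic_of h1, mul_one]
    exact norm_Zr_le hQ H.one

end Pointwise

/-! ## Windows -/

section Plane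

variable {V Φ : Type} [DecidableEq V] [DecidableEq Φ]

/-- the window of radius `4 ^ n * L` -/
def wF (L : ℤ) (A : Finset Φ) (ps : ℤ × ℤ → Φ) (n : ℕ) : Finset Φ := A ∪ (aZ L n).image ps

/-- `Z` is the set of the boundary sides of the windows which are not on the outer boundary. -/
structure Isl (L : ℤ) (Q : QC V Φ) (A : Finset Φ) (ps : ℤ × ℤ → Φ) (Z : Finset (V × V)) :
    Prop where
  sub : ∀ n, 1 ≤ n → Z ⊆ bS Q (wF L A ps n)
  out : ∀ n, 1 ≤ n → ∀ a ∈ bS Q (wF L A ps n), a ∉ Z → a ∉ bS Q (wF L A ps (n + 1))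

namespace GlueZ

variable {L : ℤ} {Q : QC V Φ} {A : Finset Φ} {ph : ℤ × ℤ → V} {ps : ℤ × ℤ → Φ}
  {Z : Finset (V × V)} {h : V × V → ℂ} {ψ : V × V → ℝ}

theorem wF_succ (hL : 0 < L) (n : ℕ) : wF L A ps (n + 1) = wF L A ps n ∪
    (RFb (0, 0) (4 ^ (n + 1) * L) \ RFb (0, 0) (4 ^ n * L)).image ps := by
  have p1 : (4 : ℤ) ^ n * L ≤ 4 ^ (n + 1) * L :=
    mul_le_mul_of_nonneg_right (pow_le_pow_right₀ (by norm_num) (Nat.le_succ n)) hL.le
  have p0 : L ≤ 4 ^ n * L := by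
    have h4 : (1 : ℤ) ≤ 4 ^ n := one_le_pow₀ (by norm_num)
    nlinarith
  have e0 : aZ L (n + 1) = aZ L n ∪ (RFb (0, 0) (4 ^ (n + 1) * L) \ RFb (0, 0) (4 ^ n * L)) := by
    ext g
    rw [Finset.mem_union, mem_aZ, mem_aZ, Finset.mem_sdiff]
    have a1 : g ∈ RFb (0, 0) L → g ∈ RFb (0, 0) (4 ^ n * L) := fun h => RF0_mono p0 h
    have a2 : g ∈ RFb (0, 0) (4 ^ n * L) → g ∈ RFb (0, 0) (4 ^ (n + 1) * L) :=
      fun h => RF0_mono p1 h
    tauto
  unfold wF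
  rw [e0, Finset.image_union, Finset.union_assoc]

/-- On the blocking event all mates of the island sides are island sides. -/
theorem mates (H : GlueZ L Q A ph ps Z) (hI : Isl L Q A ps Z) (hL : 0 < L) {n : ℕ} (hn : 1 ≤ n)
    {ω : Φ → Bool} (hb : Blk Q ((aZ L n).image ps) ω (dE Q A)
      (dE Q ((RFb (0, 0) (4 ^ (n + 1) * L) \ RFb (0, 0) (4 ^ n * L)).image ps) ∩
        dE Q ((aZ L n).image ps))) : ∀ a ∈ Z, mate Q (wF L A ps n) ω a ∈ Z := by
  intro a ha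
  by_contra hbZ
  have ha' := hI.sub n hn ha
  have hb1 : mate Q (wF L A ps n) ω a ∈ bS Q (wF L A ps n) := mate_mem ha'
  obtain ⟨hb2, hb3⟩ := mem_bS.mp hb1
  have hb4 := hI.out n hn _ hb1 hbZ
  have p0 : L < 4 ^ n * L := by
    have h4 : (4 : ℤ) ^ 1 ≤ 4 ^ n := pow_le_pow_right₀ (by norm_num) hn
    nlinarith
  have hsep := H.sep (L₁ := 4 ^ n * L) (M := 4 ^ (n + 1) * L) p0
  set D := (RFb (0, 0) (4 ^ (n + 1) * L) \ RFb (0, 0) (4 ^ n * L)).image ps with hD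
  set R := (aZ L n).image ps with hR
  have hbD : mate Q (wF L A ps n) ω a ∈ dE Q D := by
    have h1 : ¬ Ini Q ((wF L A ps (n + 1) : Finset Φ) : Set Φ) (mate Q (wF L A ps n) ω a) := by
      intro h1
      refine hb4 (mem_bS.mpr ⟨?_, h1⟩)
      rw [wF_succ hL]
      exact dE_mono Finset.subset_union_left hb2
    unfold Ini at h1
    push Not at h1
    obtain ⟨f, hf, k, hk⟩ := h1
    rw [wF_succ hL] at hf
    rcases Finset.mem_union.mp (Finset.mem_coe.mp hf) with h2 | h2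
    · exact absurd hk (hb3 f (by exact_mod_cast h2) k)
    · exact mem_dE.mpr ⟨f, h2, k, Or.inr hk⟩
  have hblk : Blk Q R ω (dE Q A) (dE Q D) := by
    intro c hc d hd hc1 hd1
    exact hb c hc d (Finset.mem_inter.mpr ⟨hd, hd1⟩) hc1 hd1
  have h5 : SRel Q (A ∪ R) ω a (mate Q (A ∪ R) ω a).swap := by
    have h6 := srel_lst (Q := Q) (F := A ∪ R) (ω := ω) (mem_bS.mp ha').2
    have h7 : (mate Q (A ∪ R) ω a).swap = lst Q (A ∪ R) ω a := by
      unfold mate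
      rw [Prod.swap_swap]
    rw [h7]
    exact h6
  exact no_cross (fun d hd => swap_mem_dE.mpr hd) hsep hblk h5 (H.P_sub ha)
    (swap_mem_dE.mpr hbD)

/-- **The functional in a window in terms of `WZ`.** -/
theorem zn_WZ (hQ : NoLoop Q) (H : GlueZ L Q A ph ps Z) (hI : Isl L Q A ps Z) (hL : 0 < L)
    (hh : PhZ h ψ Z) {n : ℕ} (hn : 1 ≤ n) :
    ‖zn L Q A ps h Z n -
      ((Real.sqrt 3 ^ (Z.card / 2) * av (wF L A ps n) (WZ Q (wF L A ps n) ψ Z) : ℝ) : ℂ)‖ ≤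
      2 * CP h Z * thB ^ n := by
  unfold zn
  rw [zplO_empty, ← av_mul, ← avc_ofReal]
  change ‖avc (wF L A ps n) _ - avc (wF L A ps n) _‖ ≤ _
  rw [← avc_sub]
  refine (norm_avc_le (f := fun ω => CP h Z * ic (¬ Blk Q ((aZ L n).image ps) ω (dE Q A)
      (dE Q ((RFb (0, 0) (4 ^ (n + 1) * L) \ RFb (0, 0) (4 ^ n * L)).image ps) ∩
        dE Q ((aZ L n).image ps)))) fun T _ => ?_).trans ?_
  · exact norm_Zr_sub_WZ hQ (hI.sub n hn) hh (H.mates hI hL hn)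
  · have h1 := H.blk hL n (n + 1) (Nat.le_succ n)
    have c0 := CP_nonneg h Z
    have e : wF L A ps n = A ∪ (aZ L n).image ps := rfl
    rw [av_mul, e, av_dep dep_nblk Finset.subset_union_right]
    nlinarith

/-- **The plane functional is the limit of the normalised weights.** -/
theorem tendsto_WZ (hQ : NoLoop Q) (H : GlueZ L Q A ph ps Z) (hI : Isl L Q A ps Z) (hL : 0 < L)
    (hh : PhZ h ψ Z) : Tendsto (fun n =>
      ((Real.sqrt 3 ^ (Z.card / 2) * av (wF L A ps n) (WZ Q (wF L A ps n) ψ Z) : ℝ) : ℂ)) atTop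
      (𝓝 (Zp L Q A ps h Z)) := by
  have h1 := H.tendsto hQ hL hh.one
  have h2 : Tendsto (fun n => zn L Q A ps h Z n -
      ((Real.sqrt 3 ^ (Z.card / 2) * av (wF L A ps n) (WZ Q (wF L A ps n) ψ Z) : ℝ) : ℂ)) atTop
      (𝓝 0) := by
    have h3 : Tendsto (fun n : ℕ => 2 * CP h Z * thB ^ n) atTop (𝓝 0) := by
      have h1 := tendsto_pow_atTop_nhds_zero_of_lt_one thB_pos.le thB_lt
      simpa using h1.const_mul (2 * CP h Z)
    refine squeeze_zero_norm' ?_ h3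
    filter_upwards [eventually_ge_atTop 1] with n hn
    exact H.zn_WZ hQ hI hL hh hn
  have h4 := h1.sub h2
  rw [sub_zero] at h4
  refine h4.congr fun n => ?_
  rw [sub_sub_cancel]

/-- The plane functional is real. -/
theorem Zp_im (hQ : NoLoop Q) (H : GlueZ L Q A ph ps Z) (hI : Isl L Q A ps Z) (hL : 0 < L)
    (hh : PhZ h ψ Z) : (Zp L Q A ps h Z).im = 0 := by
  have h1 := (Complex.continuous_im.tendsto _).comp (H.tendsto_WZ hQ hI hL hh)
  have h2 : Tendsto (fun _ : ℕ => (0 : ℝ)) atTop (𝓝 (Zp L Q A ps h Z).im) := by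
    refine h1.congr fun n => ?_
    exact Complex.ofReal_im _
  exact tendsto_nhds_unique tendsto_const_nhds h2 ▸ rfl

theorem tendsto_re (hQ : NoLoop Q) (H : GlueZ L Q A ph ps Z) (hI : Isl L Q A ps Z) (hL : 0 < L)
    (hh : PhZ h ψ Z) : Tendsto (fun n =>
      Real.sqrt 3 ^ (Z.card / 2) * av (wF L A ps n) (WZ Q (wF L A ps n) ψ Z)) atTop
      (𝓝 (Zp L Q A ps h Z).re) := by
  have h1 := (Complex.continuous_re.tendsto _).comp (H.tendsto_WZ hQ hI hL hh)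
  refine h1.congr fun n => ?_
  exact Complex.ofReal_re _

theorem Zp_eq (hQ : NoLoop Q) (H : GlueZ L Q A ph ps Z) (hI : Isl L Q A ps Z) (hL : 0 < L)
    (hh : PhZ h ψ Z) : Zp L Q A ps h Z = (((Zp L Q A ps h Z).re : ℝ) : ℂ) := by
  apply Complex.ext
  · rw [Complex.ofReal_re]
  · rw [Complex.ofReal_im]
    exact H.Zp_im hQ hI hL hh

/-- **Upper bounds pass to the limit.** -/
theorem norm_Zp_le (hQ : NoLoop Q) (H : GlueZ L Q A ph ps Z) (hI : Isl L Q A ps Z) (hL : 0 < L)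
    (hh : PhZ h ψ Z) {B : ℝ}
    (hB : ∀ᶠ n in atTop, av (wF L A ps n) (fun ω => |WZ Q (wF L A ps n) ψ Z ω|) ≤ B) :
    ‖Zp L Q A ps h Z‖ ≤ Real.sqrt 3 ^ (Z.card / 2) * B := by
  have h3 : (0 : ℝ) ≤ Real.sqrt 3 := Real.sqrt_nonneg 3
  refine le_of_tendsto (H.tendsto_WZ hQ hI hL hh).norm ?_
  filter_upwards [hB] with n hn
  rw [Complex.norm_real, norm_mul, norm_pow, Real.norm_of_nonneg h3]
  refine mul_le_mul_of_nonneg_left ?_ (pow_nonneg h3 _)
  exact (abs_av_le fun _ _ => le_rfl).trans hn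

/-- **Lower bounds pass to the limit.** -/
theorem le_Zp (hQ : NoLoop Q) (H : GlueZ L Q A ph ps Z) (hI : Isl L Q A ps Z) (hL : 0 < L)
    (hh : PhZ h ψ Z) {B : ℝ}
    (hB : ∀ᶠ n in atTop, B ≤ av (wF L A ps n) (WZ Q (wF L A ps n) ψ Z)) :
    Real.sqrt 3 ^ (Z.card / 2) * B ≤ (Zp L Q A ps h Z).re := by
  have h3 : (0 : ℝ) ≤ Real.sqrt 3 := Real.sqrt_nonneg 3
  refine ge_of_tendsto (H.tendsto_re hQ hI hL hh) ?_
  filter_upwards [hB] with n hn
  exact mul_le_mul_of_nonneg_left hn (pow_nonneg h3 _)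

end GlueZ

end Plane

end

end Pool.Agent.SixB.Rel
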