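import Pool.Agent.Lib.SixB.CAEnvM
import Pool.Agent.Lib.SixB.S3ZplW
import Pool.Agent.Lib.SixB.S3MouthD

/-!
# 6BD, U3: one arrow inserted into the normalised weight `WZ`

* `WZ1 Q F ψ Z e ω`: the weight `WZ Q F ψ Z ω` of the island sides `Z` with the arrow `e` inserted (divided by `i`);
  `WZ1_swap`, `WZ1_srel`, `WZ1_ice`, `dep_WZ1`; `Zr1_WZ1`: `Zr1 = √3 ^ (|Z| / 2) * WZ1 * i` if all mates of `Z` are
  in `Z`; `WZ1_free` (the strand of `e` does not touch `Z`), `WZ1_arc` (the strand of `e` is an arc of `Z`);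
* `WZ_nW`, `WZ1_nW1`: `WZ = nW`, `WZ1 = nW1` if `Z` = all boundary sides and all closed strands have turning `±4`;
* `Zr_ext`, `Zr1_ext`: strands of weight `1` may be added to the relevant strands;
* `abs_WZ1_le`, `norm_Zr1_le`: bounds.
-/

set_option autoImplicit false
set_option linter.unusedSectionVars false

namespace Pool.Agent.SixB.Rel

open Pool.Agent.Perc Pool.Agent.Perc.Q Relation Filter Topology
open Pool.Agent.SixB hiding Zs_split dst_congr qt_congr dE_mono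
open scoped ComplexConjugate

noncomputable section

variable {V Φ : Type} [DecidableEq V] [DecidableEq Φ]
variable {Q : QC V Φ} {F : Finset Φ} {ω ω' : Φ → Bool} {a b c e : V × V} {Z P : Finset (V × V)}
  {h : V × V → ℂ} {ψ : V × V → ℝ}

/-! ## The canonical weight -/

theorem norm_exp_I (x : ℝ) : ‖Complex.exp ((x : ℂ) * Complex.I)‖ = 1 := Complex.norm_exp_ofReal_mul_I x

theorem norm_hz (ψ : V × V → ℝ) (Z : Finset (V × V)) (a : V × V) : ‖hz ψ Z a‖ = 1 := by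
  unfold hz
  split_ifs
  · have := norm_exp_I (-ψ a)
    rwa [Complex.ofReal_neg] at this
  · exact norm_exp_I _
  · exact norm_one

theorem cj_hz (ψ : V × V → ℝ) (hZ : ∀ a ∈ Z, a.swap ∉ Z) : CJ (hz ψ Z) := by
  have h1 := phZ_hz ψ hZ
  have key : ∀ a ∈ Z, hz ψ Z a.swap = conj (hz ψ Z a) := by
    intro a ha
    rw [h1.inw a ha, h1.outw a ha, ← Complex.exp_conj, map_mul, map_neg, Complex.conj_ofReal,
      Complex.conj_I]
    congr 1
    ring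
  intro a
  by_cases ha : a ∈ Z
  · exact key a ha
  · by_cases hb : a.swap ∈ Z
    · have h2 := key _ hb
      rw [Prod.swap_swap] at h2
      rw [h2, Complex.conj_conj]
    · rw [h1.one a ha hb, h1.one a.swap hb (by rwa [Prod.swap_swap]), map_one]

theorem swap_Z (hZ : Z ⊆ bS Q F) : ∀ a ∈ Z, a.swap ∉ Z := fun _ ha => not_swap_Z hZ ha

/-! ## Relevant strands -/

theorem RU_arcsZ (hZ : Z ⊆ bS Q F) : RU Q F ω Z = (arcsZ Q F Z ω).image (uarc Q F ω) := image_touch hZ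

theorem mem_RU {U : Finset (Finset (V × V))} (hU : U ∈ RU Q F ω P) :
    ∃ a, a ∈ dE Q F ∧ (a ∈ P ∨ a.swap ∈ P) ∧ U = usE Q F ω a := by
  obtain ⟨X, hX, rfl⟩ := Finset.mem_image.mp hU
  obtain ⟨h1, h2⟩ := Finset.mem_filter.mp hX
  obtain ⟨a, ha, h3⟩ := touch_iff.mp h2
  obtain ⟨h4, h5⟩ := dstr_of_mem h1 ha
  exact ⟨a, h4, h3, by rw [h5, prs_dst]⟩

theorem RU_mono (hZP : Z ⊆ P) : RU Q F ω Z ⊆ RU Q F ω P := by
  intro U hU
  obtain ⟨a, ha, h1, rfl⟩ := mem_RU hU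
  exact usE_mem_RU ha (touch_of_mem ha (h1.imp (fun h => hZP h) (fun h => hZP h)))

theorem card_RU_le : (RU Q F ω P).card ≤ P.card := by
  have h1 : RU Q F ω P ⊆ P.image (usE Q F ω) := by
    intro U hU
    obtain ⟨a, -, h1, rfl⟩ := mem_RU hU
    rcases h1 with h1 | h1
    · exact Finset.mem_image_of_mem _ h1
    · exact Finset.mem_image.mpr ⟨a.swap, h1, usE_swap a⟩
  exact (Finset.card_le_card h1).trans Finset.card_image_le

theorem touch_usE (ha : a ∈ dE Q F) (hb : b ∈ dE Q F) (h : usE Q F ω a = usE Q F ω b)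
    (ht : touch Z (dst Q F ω a)) : touch Z (dst Q F ω b) := by
  rw [touch_iff] at ht ⊢
  obtain ⟨c, hc, hcZ⟩ := ht
  rcases mem_of_usE_eq ha hb h with h1 | h1
  · rw [dst_eq (mem_dst.mp h1).2]
    exact ⟨c, hc, hcZ⟩
  · have h2 : c.swap ∈ dst Q F ω b := by
      rw [dst_eq (mem_dst.mp h1).2, ← rv_dst, mem_rv, Prod.swap_swap]
      exact hc
    exact ⟨c.swap, h2, by rw [Prod.swap_swap]; exact hcZ.symm⟩

theorem usE_mem_RU_iff (he : e ∈ dE Q F) : usE Q F ω e ∈ RU Q F ω Z ↔ touch Z (dst Q F ω e) := by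
  constructor
  · intro h
    obtain ⟨a, ha, h1, h2⟩ := mem_RU h
    exact touch_usE ha he h2.symm (touch_of_mem ha h1)
  · exact usE_mem_RU he

/-! ## Strands of weight one -/

theorem Zr_ext (hZP : Z ⊆ P) (h1 : ∀ a, a ∈ dE Q F → (a ∈ P ∨ a.swap ∈ P) →
      ¬ touch Z (dst Q F ω a) → ∑ X ∈ usE Q F ω a, sw Q F ω h X = 1) :
    Zr Q F ω h P = Zr Q F ω h Z := by
  rw [Zr_eq, Zr_eq]
  symm
  apply Finset.prod_subset (RU_mono hZP)
  intro U hU hU'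
  obtain ⟨a, ha, h2, rfl⟩ := mem_RU hU
  exact h1 a ha h2 fun ht => hU' (usE_mem_RU ha ht)

theorem Zr1_ext (hZP : Z ⊆ P) (h1 : ∀ a, a ∈ dE Q F → (a ∈ P ∨ a.swap ∈ P) →
      ¬ touch Z (dst Q F ω a) → ∑ X ∈ usE Q F ω a, sw Q F ω h X = 1) :
    Zr1 Q F ω h P e = Zr1 Q F ω h Z e := by
  unfold Zr1
  congr 1
  symm
  apply Finset.prod_subset (Finset.erase_subset_erase _ (RU_mono hZP))
  intro U hU hU'
  obtain ⟨h3, h4⟩ := Finset.mem_erase.mp hU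
  obtain ⟨a, ha, h2, rfl⟩ := mem_RU h4
  exact h1 a ha h2 fun ht => hU' (Finset.mem_erase.mpr ⟨h3, usE_mem_RU ha ht⟩)

theorem sw_free (h1 : ∀ c ∈ dst Q F ω a, h c = 1) :
    sw Q F ω h (dst Q F ω a) =
      Complex.exp (((tX Q F ω (dst Q F ω a) * (Real.pi / 12) : ℝ) : ℂ) * Complex.I) := by
  rw [sw_eq, Finset.prod_eq_one h1, one_mul, zeta_zpow]

theorem sw_free_swap (ha : a ∈ dE Q F) (h1 : ∀ c ∈ dst Q F ω a, h c.swap = 1) :
    sw Q F ω h (dst Q F ω a.swap) =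
      Complex.exp (((-(tX Q F ω (dst Q F ω a) * (Real.pi / 12)) : ℝ) : ℂ) * Complex.I) := by
  have h2 : ∀ c ∈ dst Q F ω a.swap, h c = 1 := by
    intro c hc
    rw [← rv_dst, mem_rv] at hc
    have := h1 _ hc
    rwa [Prod.swap_swap] at this
  rw [sw_free h2, ← rv_dst, tX_rv (dst_mem_dstr ha)]
  congr 3
  push_cast
  ring

theorem not_touch (H : PhZ h ψ Z) (hn : ¬ touch Z (dst Q F ω a)) :
    ∀ c ∈ dst Q F ω a, h c = 1 ∧ h c.swap = 1 := by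
  intro c hc
  have h1 : ¬ (c ∈ Z ∨ c.swap ∈ Z) := fun h2 => hn (touch_iff.mpr ⟨c, hc, h2⟩)
  push Not at h1
  exact ⟨H.one c h1.1 h1.2, H.one c.swap h1.2 (by rw [Prod.swap_swap]; exact h1.1)⟩

/-- a strand which does not touch `Z` -/
theorem sum_free (hQ : NoLoop Q) (H : PhZ h ψ Z) (ha : a ∈ dE Q F) (hn : ¬ touch Z (dst Q F ω a)) :
    ∑ X ∈ usE Q F ω a, sw Q F ω h X =
      ((2 * Real.cos (tX Q F ω (dst Q F ω a) * (Real.pi / 12)) : ℝ) : ℂ) := by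
  unfold usE
  rw [Finset.sum_pair (dst_ne_swap hQ ha), sw_free fun c hc => (not_touch H hn c hc).1,
    sw_free_swap ha fun c hc => (not_touch H hn c hc).2, exp_add_exp_neg]

theorem swm_free (H : PhZ h ψ Z) (ha : a ∈ dE Q F) (hn : ¬ touch Z (dst Q F ω a)) :
    swm Q F ω h a =
      ((2 * Real.sin (tX Q F ω (dst Q F ω a) * (Real.pi / 12)) : ℝ) : ℂ) * Complex.I := by
  unfold swm
  rw [sw_free fun c hc => (not_touch H hn c hc).1, sw_free_swap ha fun c hc => (not_touch H hn c hc).2,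
    exp_sub_exp_neg]

/-- a closed strand of turning `±4` which does not touch `Z` has weight `1` -/
theorem sum_one (hQ : NoLoop Q) (H : PhZ h ψ Z) (ha : a ∈ dE Q F) (hn : ¬ touch Z (dst Q F ω a))
    (hL : tX Q F ω (dst Q F ω a) = 4 ∨ tX Q F ω (dst Q F ω a) = -4) :
    ∑ X ∈ usE Q F ω a, sw Q F ω h X = 1 := by
  rw [sum_free hQ H ha hn]
  have h1 : Real.cos (4 * (Real.pi / 12)) = 1 / 2 := by
    rw [show 4 * (Real.pi / 12) = Real.pi / 3 by ring, Real.cos_pi_div_three]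
  have h2 : Real.cos (-4 * (Real.pi / 12)) = 1 / 2 := by
    rw [show -4 * (Real.pi / 12) = -(4 * (Real.pi / 12)) by ring, Real.cos_neg, h1]
  have h3 : 2 * Real.cos (tX Q F ω (dst Q F ω a) * (Real.pi / 12)) = 1 := by
    rcases hL with h | h
    · rw [h, Int.cast_ofNat, h1]
      norm_num
    · rw [h, Int.cast_neg, Int.cast_ofNat, h2]
      norm_num
  rw [h3, Complex.ofReal_one]

/-! ## Bounds -/

theorem norm_sw (hn : ∀ a, ‖h a‖ = 1) (X : Finset (V × V)) : ‖sw Q F ω h X‖ = 1 := by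
  unfold sw
  rw [norm_prod]
  refine Finset.prod_eq_one fun a _ => ?_
  rw [norm_mul, norm_zpow, norm_zeta, one_zpow, mul_one, hn]

theorem norm_prod_RU (hQ : NoLoop Q) (hn : ∀ a, ‖h a‖ = 1) {S : Finset (Finset (Finset (V × V)))}
    (hS : S ⊆ RU Q F ω P) : ‖∏ U ∈ S, ∑ X ∈ U, sw Q F ω h X‖ ≤ 2 ^ P.card := by
  rw [norm_prod]
  have h1 : ∀ U ∈ S, ‖∑ X ∈ U, sw Q F ω h X‖ ≤ 2 := by
    intro U hU
    obtain ⟨a, ha, -, rfl⟩ := mem_RU (hS hU)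
    unfold usE
    rw [Finset.sum_pair (dst_ne_swap hQ ha)]
    refine (norm_add_le _ _).trans ?_
    rw [norm_sw hn, norm_sw hn]
    norm_num
  calc _ ≤ ∏ _U ∈ S, (2 : ℝ) := Finset.prod_le_prod (fun _ _ => norm_nonneg _) h1
    _ = 2 ^ S.card := by rw [Finset.prod_const]
    _ ≤ 2 ^ P.card :=
      pow_le_pow_right₀ (by norm_num) ((Finset.card_le_card hS).trans card_RU_le)

theorem norm_Zr_le2 (hQ : NoLoop Q) (hn : ∀ a, ‖h a‖ = 1) : ‖Zr Q F ω h P‖ ≤ 2 ^ P.card := by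
  rw [Zr_eq]
  exact norm_prod_RU hQ hn (Finset.Subset.refl _)

theorem norm_Zr1_le (hQ : NoLoop Q) (hn : ∀ a, ‖h a‖ = 1) :
    ‖Zr1 Q F ω h P e‖ ≤ 2 ^ (P.card + 1) := by
  unfold Zr1
  rw [norm_mul, pow_succ]
  refine mul_le_mul (norm_prod_RU hQ hn (Finset.erase_subset _ _)) ?_ (norm_nonneg _) (by positivity)
  unfold swm
  refine (norm_sub_le _ _).trans ?_
  rw [norm_sw hn, norm_sw hn]
  norm_num

/-! ## The weight with an arrow inserted -/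

open Classical in
/-- the normalised weight of the strands of `Z` with the arrow `e` inserted, divided by `i`;
`0` if a strand leads from `Z` to another side -/
def WZ1 (Q : QC V Φ) (F : Finset Φ) (ψ : V × V → ℝ) (Z : Finset (V × V)) (e : V × V)
    (ω : Φ → Bool) : ℝ :=
  if ∀ a ∈ Z, mate Q F ω a ∈ Z then (Zr1 Q F ω (hz ψ Z) Z e).im / Real.sqrt 3 ^ (Z.card / 2) else 0

theorem WZ1_of (hm : ∀ a ∈ Z, mate Q F ω a ∈ Z) :
    WZ1 Q F ψ Z e ω = (Zr1 Q F ω (hz ψ Z) Z e).im / Real.sqrt 3 ^ (Z.card / 2) := by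
  unfold WZ1
  rw [if_pos hm]

theorem WZ1_not (hm : ¬ ∀ a ∈ Z, mate Q F ω a ∈ Z) : WZ1 Q F ψ Z e ω = 0 := by
  unfold WZ1
  rw [if_neg hm]

theorem WZ1_swap : WZ1 Q F ψ Z e.swap ω = -WZ1 Q F ψ Z e ω := by
  by_cases hm : ∀ a ∈ Z, mate Q F ω a ∈ Z
  · rw [WZ1_of hm, WZ1_of hm, Zr1_swap, Complex.neg_im, neg_div]
  · rw [WZ1_not hm, WZ1_not hm, neg_zero]

theorem WZ1_srel (hs : SRel Q F ω a b) : WZ1 Q F ψ Z a ω = WZ1 Q F ψ Z b ω := by
  unfold WZ1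
  rw [Zr1_srel _ hs]

/-- the ice rule, for every smoothing -/
theorem WZ1_ice {f : Φ} (hf : f ∈ F) : ∑ k : ZMod 4, WZ1 Q F ψ Z (sd Q f k) ω = 0 := by
  by_cases hm : ∀ a ∈ Z, mate Q F ω a ∈ Z
  · simp only [WZ1_of hm]
    rw [← Finset.sum_div, ← Complex.im_sum, Zr1_ice _ hf, Complex.zero_im, zero_div]
  · exact Finset.sum_eq_zero fun k _ => WZ1_not hm

theorem sqrt3_pos : (0 : ℝ) < Real.sqrt 3 := Real.sqrt_pos.mpr (by norm_num)

theorem Zr1_WZ1 (hQ : NoLoop Q) (hZ : Z ⊆ bS Q F) (hm : ∀ a ∈ Z, mate Q F ω a ∈ Z)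
    (he : e ∈ dE Q F) : Zr1 Q F ω (hz ψ Z) Z e =
      ((Real.sqrt 3 ^ (Z.card / 2) * WZ1 Q F ψ Z e ω : ℝ) : ℂ) * Complex.I := by
  rw [WZ1_of hm, mul_div_cancel₀ _ (pow_pos sqrt3_pos _).ne']
  apply Complex.ext
  · rw [Zr1_re hQ (cj_hz ψ (swap_Z hZ)) he]
    simp
  · simp

theorem Zr1_congr (hw : ∀ f ∈ F, ω f = ω' f) : Zr1 Q F ω h P e = Zr1 Q F ω' h P e := by
  have e1 : ∀ a, dst Q F ω a = dst Q F ω' a := fun a => Rel.dst_congr hw
  have e2 : dstr Q F ω = dstr Q F ω' := by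
    ext X
    rw [mem_dstr, mem_dstr]
    simp only [e1]
  have e3 : ∀ a, qt Q F ω a = qt Q F ω' a := fun a => Rel.qt_congr hw
  have e4 : ∀ X, sw Q F ω h X = sw Q F ω' h X := by
    intro X
    unfold sw
    simp only [e3]
  unfold Zr1 RU usE swm
  simp only [e1, e2, e4]

theorem WZ1_congr (hw : ∀ f ∈ F, ω f = ω' f) : WZ1 Q F ψ Z e ω = WZ1 Q F ψ Z e ω' := by
  unfold WZ1
  simp only [Zr1_congr hw, Cell.mate_congr hw]

theorem dep_WZ1 : Dep (F : Set Φ) (WZ1 Q F ψ Z e) := fun _ _ hw =>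
  WZ1_congr fun f hf => hw f (by exact_mod_cast hf)

/-- **The strand of the arrow does not touch `Z`.** -/
theorem WZ1_free (hQ : NoLoop Q) (hZ : Z ⊆ bS Q F) (he : e ∈ dE Q F)
    (hn : ¬ touch Z (dst Q F ω e)) : WZ1 Q F ψ Z e ω =
      WZ Q F ψ Z ω * (2 * Real.sin (tX Q F ω (dst Q F ω e) * (Real.pi / 12))) := by
  by_cases hm : ∀ a ∈ Z, mate Q F ω a ∈ Z
  · have h1 : Zr1 Q F ω (hz ψ Z) Z e = Zr Q F ω (hz ψ Z) Z * swm Q F ω (hz ψ Z) e := by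
      unfold Zr1
      rw [Zr_eq, Finset.erase_eq_of_notMem fun h => hn ((usE_mem_RU_iff he).mp h)]
    have hp := phZ_hz ψ (swap_Z hZ)
    have h2 := Zr_WZ (h := hz ψ Z) hQ hZ hm hp
    rw [WZ1_of hm, h1, h2, swm_free hp he hn, ← mul_assoc, ← Complex.ofReal_mul]
    have h3 := (pow_pos sqrt3_pos (Z.card / 2)).ne'
    rw [Complex.mul_I_im, Complex.ofReal_re]
    field_simp
  · rw [WZ1_not hm, WZ_not ψ hm, zero_mul]

/-- the factor of an arc, divided by `√3` -/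
def wB (Q : QC V Φ) (F : Finset Φ) (ω : Φ → Bool) (ψ : V × V → ℝ) (p : Sym2 (V × V)) : ℝ :=
  SixB.wA Q F ω ψ p / Real.sqrt 3

theorem WZ_wB (hm : ∀ a ∈ Z, mate Q F ω a ∈ Z) :
    WZ Q F ψ Z ω = ∏ p ∈ arcsZ Q F Z ω, wB Q F ω ψ p := by
  unfold WZ wB
  rw [if_pos hm]

theorem sw_hz (hZ : Z ⊆ bS Q F) (ha : a ∈ Z) (hm : mate Q F ω a ∈ Z) :
    sw Q F ω (hz ψ Z) (dst Q F ω a) = sw Q F ω (bph Q F ψ) (dst Q F ω a) :=
  sw_congr fun _ hc => (phZ_hz ψ (swap_Z hZ)).eq_bph hZ ha hm hc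

theorem sw_hz_rv (hZ : Z ⊆ bS Q F) (ha : a ∈ Z) (hm : mate Q F ω a ∈ Z) :
    sw Q F ω (hz ψ Z) (rv (dst Q F ω a)) = sw Q F ω (bph Q F ψ) (rv (dst Q F ω a)) := by
  rw [rv_dst_mate (hZ ha)]
  refine sw_hz hZ hm ?_
  rw [mate_mate (hZ ha)]
  exact ha

/-- **The strand of the arrow is the arc of `a ∈ Z`.** -/
theorem WZ1_arc (hQ : NoLoop Q) (hZ : Z ⊆ bS Q F) (hm : ∀ a ∈ Z, mate Q F ω a ∈ Z) (ha : a ∈ Z)
    (he : e ∈ dst Q F ω a) : WZ1 Q F ψ Z e ω =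
      (∏ p ∈ (arcsZ Q F Z ω).erase s(a, mate Q F ω a), wB Q F ω ψ p) *
        (2 * Real.sin (agl Q F ω ψ (dst Q F ω a)) / Real.sqrt 3) := by
  have haE := (mem_bS.mp (hZ ha)).1
  have e1 : WZ1 Q F ψ Z e ω = WZ1 Q F ψ Z a ω := (WZ1_srel (mem_dst.mp he).2).symm
  have h4 := card_arcsZ hQ hZ hm
  have h5 : Z.card / 2 = (arcsZ Q F Z ω).card := by omega
  have hp : s(a, mate Q F ω a) ∈ arcsZ Q F Z ω := mem_arcsZ.mpr ⟨a, ha, rfl⟩
  have hU : usE Q F ω a = uarc Q F ω s(a, mate Q F ω a) := by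
    rw [uarc_eq (hZ ha), rv_dst]
    rfl
  -- the product
  have h6 : ∏ U ∈ (RU Q F ω Z).erase (usE Q F ω a), ∑ X ∈ U, sw Q F ω (hz ψ Z) X =
      ((∏ p ∈ (arcsZ Q F Z ω).erase s(a, mate Q F ω a), SixB.wA Q F ω ψ p : ℝ) : ℂ) := by
    have hinj : Set.InjOn (uarc Q F ω) (arcsZ Q F Z ω : Set (Sym2 (V × V))) := by
      intro p hp q hq hpq
      exact uarc_inj (Finset.mem_coe.mpr (arcsZ_sub hZ (Finset.mem_coe.mp hp)))
        (Finset.mem_coe.mpr (arcsZ_sub hZ (Finset.mem_coe.mp hq))) hpq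
    have h7 : (RU Q F ω Z).erase (usE Q F ω a) =
        ((arcsZ Q F Z ω).erase s(a, mate Q F ω a)).image (uarc Q F ω) := by
      rw [RU_arcsZ hZ, hU]
      ext U
      rw [Finset.mem_erase, Finset.mem_image, Finset.mem_image]
      constructor
      · rintro ⟨h1, p, hp1, rfl⟩
        exact ⟨p, Finset.mem_erase.mpr ⟨fun h => h1 (by rw [h]), hp1⟩, rfl⟩
      · rintro ⟨p, hp1, rfl⟩
        obtain ⟨h1, h2⟩ := Finset.mem_erase.mp hp1
        exact ⟨fun h => h1 (hinj (Finset.mem_coe.mpr h2) (Finset.mem_coe.mpr hp) h), p, h2, rfl⟩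
    rw [h7, Finset.prod_image fun p hp q hq hpq => hinj
      (Finset.mem_coe.mpr (Finset.mem_of_mem_erase hp)) (Finset.mem_coe.mpr (Finset.mem_of_mem_erase hq)) hpq]
    push_cast
    refine Finset.prod_congr rfl fun p hp => ?_
    obtain ⟨b, hb, rfl⟩ := mem_arcsZ.mp (Finset.mem_of_mem_erase hp)
    rw [wA_eq ψ (hZ hb)]
    have h8 := sw_arc_sum (ω := ω) hQ ψ (hZ hb)
    have hne := (rv_ne hQ (dst_mem_dstr (Q := Q) (F := F) (ω := ω) (mem_bS.mp (hZ hb)).1)).symm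
    rw [uarc_eq (hZ hb), Finset.sum_pair hne, sw_hz hZ hb (hm b hb), sw_hz_rv hZ hb (hm b hb),
      ← Finset.sum_pair hne, h8]
    rfl
  have h9 : swm Q F ω (hz ψ Z) a =
      ((2 * Real.sin (agl Q F ω ψ (dst Q F ω a)) : ℝ) : ℂ) * Complex.I := by
    rw [← swm_bph haE]
    unfold swm
    rw [← rv_dst, sw_hz hZ ha (hm a ha), sw_hz_rv hZ ha (hm a ha)]
  have h10 : (arcsZ Q F Z ω).card = ((arcsZ Q F Z ω).erase s(a, mate Q F ω a)).card + 1 := by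
    rw [Finset.card_erase_of_mem hp]
    have : 0 < (arcsZ Q F Z ω).card := Finset.card_pos.mpr ⟨_, hp⟩
    omega
  rw [e1, WZ1_of hm]
  unfold Zr1
  rw [h6, h9, ← mul_assoc, ← Complex.ofReal_mul, Complex.mul_I_im, Complex.ofReal_re, h5, h10, pow_succ]
  unfold wB
  rw [Finset.prod_div_distrib, Finset.prod_const, div_mul_div_comm]

theorem abs_wB_le (p : Sym2 (V × V)) (hp : p ∈ arcs Q F ω) : |wB Q F ω ψ p| ≤ 2 / Real.sqrt 3 := by
  obtain ⟨a, ha, rfl⟩ := mem_arcs.mp hp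
  unfold wB
  rw [wA_eq ψ ha, abs_div, abs_of_pos sqrt3_pos]
  exact div_le_div_of_nonneg_right (abs_wt_le ψ) sqrt3_pos.le

theorem abs_WZ1_le (hQ : NoLoop Q) : |WZ1 Q F ψ Z e ω| ≤ 2 ^ (Z.card + 1) := by
  by_cases hm : ∀ a ∈ Z, mate Q F ω a ∈ Z
  · have h1 : (1 : ℝ) ≤ Real.sqrt 3 := by
      rw [← Real.sqrt_one]
      exact Real.sqrt_le_sqrt (by norm_num)
    have h2 : (1 : ℝ) ≤ Real.sqrt 3 ^ (Z.card / 2) := one_le_pow₀ h1
    rw [WZ1_of hm, abs_div, abs_of_pos (lt_of_lt_of_le one_pos h2)]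
    refine (div_le_self (abs_nonneg _) h2).trans ?_
    exact (Complex.abs_im_le_norm _).trans (norm_Zr1_le hQ (norm_hz ψ Z))
  · rw [WZ1_not hm, abs_zero]
    positivity

theorem abs_WZ_le2 (hQ : NoLoop Q) (hZ : Z ⊆ bS Q F) : |WZ Q F ψ Z ω| ≤ 2 ^ Z.card := by
  by_cases hm : ∀ a ∈ Z, mate Q F ω a ∈ Z
  · have h1 : (1 : ℝ) ≤ Real.sqrt 3 := by
      rw [← Real.sqrt_one]
      exact Real.sqrt_le_sqrt (by norm_num)
    have h2 : (1 : ℝ) ≤ Real.sqrt 3 ^ (Z.card / 2) := one_le_pow₀ h1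
    have h3 := Zr_WZ hQ hZ hm (phZ_hz ψ (swap_Z hZ))
    have h4 := norm_Zr_le2 (Q := Q) (F := F) (ω := ω) (P := Z) hQ (norm_hz ψ Z)
    rw [h3, Complex.norm_real, Real.norm_eq_abs, abs_mul, abs_of_pos (lt_of_lt_of_le one_pos h2)] at h4
    nlinarith [abs_nonneg (WZ Q F ψ Z ω)]
  · rw [WZ_not ψ hm, abs_zero]
    positivity

end

end Pool.Agent.SixB.Rel
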