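import Pool.Agent.Lib.SixB.S3WZ3

/-!
# 6BD, U3: the height of an environment in a rectangle

`E : SEnv`, `EnvB.Thk E`, `InBx E L`, `RB E L x₀ x₁ y₀ y₁`: the faces of the rectangle are base faces in the window `L`;
`hT`: closed strands of all windows have turning `±4`; `zE E L ψ ≠ 0`.
* `zS`: the plane functional with the sign of the side `a` of the rectangle inserted;
* `exists_potE`: there is a height `V'` with `zS a / zE = (V' a.1 - V' a.2) i`, its increments are the limits of the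
  quotients `qW M a = av WZ1 / av WZ` in the windows `M`;
* `exists_winpot`: the height of a window;
* `cmp_of_win`: a comparison of a function with the heights of arbitrarily large windows is a comparison with `V'`.
-/

set_option autoImplicit false
set_option linter.unusedSectionVars false

namespace Pool.Agent.SixB.Rel

open Pool.Agent.Perc Pool.Agent.Perc.Q Relation Filter Topology Pool.Agent.SixB.EnvB
open Pool.Agent.SixB hiding Zs_split dst_congr qt_congr dE_mono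

noncomputable section

/-! ## Heights from windows -/

section Abstract

variable {x₀ x₁ y₀ y₁ : ℤ} {g : ℤ → (ℤ × ℤ) × (ℤ × ℤ) → ℝ} {V V' : ℤ × ℤ → ℝ} {L : ℤ}

/-- **A comparison with the heights of arbitrarily large windows is a comparison with the limit.** -/
theorem cmp_of_lim (hx : x₀ < x₁) (hy : y₀ < y₁)
    (hlim : ∀ a ∈ dE ZQ (RF x₀ x₁ y₀ y₁), Tendsto (fun M => g M a) atTop (𝓝 (V' a.1 - V' a.2)))
    (hpot : ∀ M, L ≤ M → ∃ W : ℤ × ℤ → ℝ, ∀ a ∈ dE ZQ (RF x₀ x₁ y₀ y₁), W a.1 - W a.2 = g M a)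
    {K : Set (ℤ × ℤ)} (hK : ∀ v ∈ K, x₀ ≤ v.1 ∧ v.1 ≤ x₁ ∧ y₀ ≤ v.2 ∧ v.2 ≤ y₁) {B : ℝ}
    (h : ∃ᶠ M : ℤ in atTop, ∀ W : ℤ × ℤ → ℝ,
      (∀ a ∈ dE ZQ (RF x₀ x₁ y₀ y₁), W a.1 - W a.2 = g M a) →
        ∀ v ∈ K, ∀ w ∈ K, |(V v - V w) - (W v - W w)| ≤ B) :
    ∃ a : ℝ, ∀ v ∈ K, |V v - V' v - a| ≤ B := by
  classical
  rcases K.eq_empty_or_nonempty with hK0 | ⟨w, hw⟩
  · refine ⟨0, fun v hv => ?_⟩
    rw [hK0] at hv
    exact absurd hv (Set.notMem_empty v)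
  · refine ⟨V w - V' w, fun v hv => ?_⟩
    -- heights of the windows
    obtain ⟨W, hW⟩ : ∃ W : ℤ → ℤ × ℤ → ℝ, ∀ M, L ≤ M →
        ∀ a ∈ dE ZQ (RF x₀ x₁ y₀ y₁), W M a.1 - W M a.2 = g M a := by
      refine ⟨fun M => if hM : L ≤ M then (hpot M hM).choose else fun _ => 0, fun M hM => ?_⟩
      simp only [dif_pos hM]
      exact (hpot M hM).choose_spec
    have h1 : ∀ a ∈ dE ZQ (RF x₀ x₁ y₀ y₁),
        Tendsto (fun M => W M a.1 - W M a.2) atTop (𝓝 (V' a.1 - V' a.2)) := by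
      intro a ha
      refine (hlim a ha).congr' ?_
      filter_upwards [eventually_ge_atTop L] with M hM
      exact (hW M hM a ha).symm
    obtain ⟨v1, v2, v3, v4⟩ := hK v hv
    obtain ⟨w1, w2, w3, w4⟩ := hK w hw
    have h2 := Ins.pot_tendsto h1 hx hy v1 v2 v3 v4 w1 w2 w3 w4
    have h3 : Tendsto (fun M => |(V v - V w) - (W M v - W M w)|) atTop
        (𝓝 |(V v - V w) - (V' v - V' w)|) := (tendsto_const_nhds.sub h2).abs
    have h4 : ∃ᶠ M : ℤ in atTop, |(V v - V w) - (W M v - W M w)| ≤ B := by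
      refine (h.and_eventually (eventually_ge_atTop L)).mono fun M hM => ?_
      exact hM.1 (W M) (hW M hM.2) v hv w hw
    have h5 := le_of_tendsto_of_frequently h3 h4
    have h6 : V v - V' v - (V w - V' w) = V v - V w - (V' v - V' w) := by ring
    rw [h6]
    exact h5

end Abstract

/-! ## Environments -/

section Env

variable {E : SEnv} {L M : ℤ} {x₀ x₁ y₀ y₁ : ℤ}
  {ψ : (Option Bool × (ℤ × ℤ)) × (Option Bool × (ℤ × ℤ)) → ℝ} {a : (ℤ × ℤ) × (ℤ × ℤ)}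

/-- a side of the plane as a base side -/
def bs (a : (ℤ × ℤ) × (ℤ × ℤ)) : (Option Bool × (ℤ × ℤ)) × (Option Bool × (ℤ × ℤ)) :=
  ((none, a.1), (none, a.2))

theorem bs_swap : bs a.swap = (bs a).swap := rfl

/-- the faces of the rectangle are base faces in the window `L` -/
def RB (E : SEnv) (L x₀ x₁ y₀ y₁ : ℤ) : Prop := ∀ f ∈ RF x₀ x₁ y₀ y₁, f ∈ (win E L).base

/-- the island sides and the sides of the rectangle -/
def PE (E : SEnv) (L x₀ x₁ y₀ y₁ : ℤ) :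
    Finset ((Option Bool × (ℤ × ℤ)) × (Option Bool × (ℤ × ℤ))) :=
  (win E L).Z ∪ (dE ZQ (RF x₀ x₁ y₀ y₁)).image bs

theorem Z_sub_PE : (win E L).Z ⊆ PE E L x₀ x₁ y₀ y₁ := Finset.subset_union_left

theorem bs_mem_PE (ha : a ∈ dE ZQ (RF x₀ x₁ y₀ y₁)) : bs a ∈ PE E L x₀ x₁ y₀ y₁ :=
  Finset.mem_union_right _ (Finset.mem_image_of_mem _ ha)

theorem bs_dE (hE : Thk E) (hR : RB E L x₀ x₁ y₀ y₁) (ha : a ∈ dE ZQ (RF x₀ x₁ y₀ y₁)) :
    bs a ∈ dE E.Q (win E L).F := by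
  obtain ⟨f, hf, k, h⟩ := mem_dE.mp ha
  have hb := hR f hf
  have e : sd E.Q (none, f) k = bs (sd ZQ f k) := sd_base (win_thk hE) hb k
  refine mem_dE.mpr ⟨(none, f), mem_F_none.mpr hb, k, ?_⟩
  rcases h with h | h
  · left
    rw [e, h]
  · right
    rw [e, h]
    rfl

theorem glueZ_PE (hE : Thk E) (hL : InBx E L) (hR : RB E L x₀ x₁ y₀ y₁) :
    GlueZ L E.Q (win E L).F (fun v => ((none : Option Bool), v))
      (fun f => ((none : Option Bool), f)) (PE E L x₀ x₁ y₀ y₁) where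
  chart := (glueZ_env hE hL).chart
  dj := (glueZ_env hE hL).dj
  nb := (glueZ_env hE hL).nb
  P_sub := by
    intro s hs
    rcases Finset.mem_union.mp hs with h | h
    · exact (glueZ_env hE hL).P_sub h
    · obtain ⟨a, ha, rfl⟩ := Finset.mem_image.mp h
      exact bs_dE hE hR ha

/-- **The plane functional with the sign of the side `a` of the rectangle inserted.** -/
def zS (E : SEnv) (L x₀ x₁ y₀ y₁ : ℤ)
    (ψ : (Option Bool × (ℤ × ℤ)) × (Option Bool × (ℤ × ℤ)) → ℝ) (a : (ℤ × ℤ) × (ℤ × ℤ)) : ℂ :=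
  Zp L E.Q (win E L).F (fun f => ((none : Option Bool), f))
    (fun c => hz ψ (win E L).Z c * sgE (bs a) c) (PE E L x₀ x₁ y₀ y₁)

/-- the increment of the mean height in the window `M` -/
def qW (E : SEnv) (ψ : (Option Bool × (ℤ × ℤ)) × (Option Bool × (ℤ × ℤ)) → ℝ) (M : ℤ)
    (a : (ℤ × ℤ) × (ℤ × ℤ)) : ℝ :=
  av (win E M).F (WZ1 E.Q (win E M).F ψ (win E M).Z (bs a)) /
    av (win E M).F (WZ E.Q (win E M).F ψ (win E M).Z)

theorem clo4_FM (hL : InBx E L) (hT : ∀ M, L ≤ M → Clo4 E.Q (win E M).F) :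
    ∀ M, L ≤ M → Clo4 E.Q (FM L (win E L).F (fun f => ((none : Option Bool), f)) M) := by
  intro M hM
  rw [FM_env hL hM]
  exact hT M hM

/-- the functional with the sides of the rectangle as relevant sides is `zE` -/
theorem Zp_PE (hE : Thk E) (hL : InBx E L) (hL0 : 0 < L) (hR : RB E L x₀ x₁ y₀ y₁)
    (hT : ∀ M, L ≤ M → Clo4 E.Q (win E M).F) :
    Zp L E.Q (win E L).F (fun f => ((none : Option Bool), f)) (hz ψ (win E L).Z)
      (PE E L x₀ x₁ y₀ y₁) = zE E L ψ :=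
  (glueZ_PE hE hL hR).Zp_P (noLoop_env E) (islM_env hE hL) hL0 (clo4_FM hL hT) Z_sub_PE

theorem tendsto_qW (hE : Thk E) (hL : InBx E L) (hL0 : 0 < L) (hR : RB E L x₀ x₁ y₀ y₁)
    (hT : ∀ M, L ≤ M → Clo4 E.Q (win E M).F) (h0 : zE E L ψ ≠ 0)
    (ha : a ∈ dE ZQ (RF x₀ x₁ y₀ y₁)) :
    Tendsto (fun M => qW E ψ M a) atTop
      (𝓝 (GlueZ.mZ L E.Q (win E L).F (fun f => ((none : Option Bool), f)) (hz ψ (win E L).Z)
        (PE E L x₀ x₁ y₀ y₁) (bs a))) := by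
  have h1 := (glueZ_PE hE hL hR).tendsto_mZ (ψ := ψ) (noLoop_env E) (islM_env hE hL) hL0
    (clo4_FM hL hT) Z_sub_PE (e := bs a) (Or.inl (bs_mem_PE ha))
    (by rw [Zp_PE hE hL hL0 hR hT]; exact h0)
  refine h1.congr' ?_
  filter_upwards [eventually_ge_atTop L] with M hM
  unfold qW
  rw [FM_env hL hM, Z_win hE hL hM]

/-- **The height of the environment in the rectangle.** -/
theorem exists_potE (hE : Thk E) (hL : InBx E L) (hL0 : 0 < L) (hR : RB E L x₀ x₁ y₀ y₁)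
    (hT : ∀ M, L ≤ M → Clo4 E.Q (win E M).F) (h0 : zE E L ψ ≠ 0) :
    ∃ V' : ℤ × ℤ → ℝ,
      (∀ a ∈ dE ZQ (RF x₀ x₁ y₀ y₁), zS E L x₀ x₁ y₀ y₁ ψ a / zE E L ψ =
        ((V' a.1 - V' a.2 : ℝ) : ℂ) * Complex.I) ∧
      ∀ a ∈ dE ZQ (RF x₀ x₁ y₀ y₁), Tendsto (fun M => qW E ψ M a) atTop (𝓝 (V' a.1 - V' a.2)) := by
  have hG := glueZ_PE hE hL hR
  have hz0 := Zp_PE (ψ := ψ) hE hL hL0 hR hT
  obtain ⟨V', hV⟩ := hG.exists_height (h := hz ψ (win E L).Z) (noLoop_env E) hL0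
    (GlueZ.hz_off Z_sub_PE swap_Z_env) (ν := fun v => ((none : Option Bool), v))
    (μ := fun f => ((none : Option Bool), f)) (x₀ := x₀) (x₁ := x₁) (y₀ := y₀) (y₁ := y₁)
    (fun f hf k => cor_base (win_thk hE) (hR f hf) k) (fun f hf => mem_F_none.mpr (hR f hf))
    (fun a ha => Or.inl (bs_mem_PE ha))
  refine ⟨V', fun a ha => ?_, fun a ha => ?_⟩
  · have h1 := hG.mZ_eq (h := hz ψ (win E L).Z) (noLoop_env E) hL0
      (GlueZ.hz_off Z_sub_PE swap_Z_env) (cj_hz ψ swap_Z_env) (e := bs a) (Or.inl (bs_mem_PE ha))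
    rw [hz0] at h1
    rw [hV a ha]
    exact h1
  · rw [hV a ha]
    exact tendsto_qW hE hL hL0 hR hT h0 ha

/-- the height of a window -/
theorem exists_winpot (hE : Thk E) (hR : RB E L x₀ x₁ y₀ y₁) (hM : L ≤ M) :
    ∃ W : ℤ × ℤ → ℝ, ∀ a ∈ dE ZQ (RF x₀ x₁ y₀ y₁), W a.1 - W a.2 = qW E ψ M a := by
  refine Ins.exists_pot (m := fun a => qW E ψ M a) ?_ ?_
  · intro a _
    unfold qW
    rw [bs_swap]
    have h1 : av (win E M).F (WZ1 E.Q (win E M).F ψ (win E M).Z (bs a).swap) =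
        -av (win E M).F (WZ1 E.Q (win E M).F ψ (win E M).Z (bs a)) := by
      rw [← av_neg]
      exact av_congr fun T _ => WZ1_swap
    rw [h1, neg_div]
  · intro f hf
    have hb : f ∈ (win E M).base := by
      have h1 := mem_base_win.mp (hR f hf)
      exact mem_base_win.mpr ⟨RF0_mono hM h1.1, h1.2⟩
    have e : ∀ k : ZMod 4, bs (sd ZQ f k) = sd E.Q (none, f) k := fun k =>
      (sd_base (win_thk hE) hb k).symm
    unfold qW
    simp only [e]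
    rw [← Finset.sum_div, ← av_sum, av_congr (g' := fun _ => 0) (fun T _ => WZ1_ice
      (mem_F_none.mpr hb)), av_const, zero_div]

/-- **Comparison with the height of the environment from comparisons in windows.** -/
theorem cmp_of_win (hE : Thk E) (hR : RB E L x₀ x₁ y₀ y₁) (hx : x₀ < x₁)
    (hy : y₀ < y₁) {V V' : ℤ × ℤ → ℝ}
    (hlim : ∀ a ∈ dE ZQ (RF x₀ x₁ y₀ y₁), Tendsto (fun M => qW E ψ M a) atTop (𝓝 (V' a.1 - V' a.2)))
    {K : Set (ℤ × ℤ)} (hK : ∀ v ∈ K, x₀ ≤ v.1 ∧ v.1 ≤ x₁ ∧ y₀ ≤ v.2 ∧ v.2 ≤ y₁) {B : ℝ}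
    (h : ∃ᶠ M : ℤ in atTop, ∀ W : ℤ × ℤ → ℝ,
      (∀ a ∈ dE ZQ (RF x₀ x₁ y₀ y₁), W a.1 - W a.2 = qW E ψ M a) →
        ∀ v ∈ K, ∀ w ∈ K, |(V v - V w) - (W v - W w)| ≤ B) :
    ∃ a : ℝ, ∀ v ∈ K, |V v - V' v - a| ≤ B :=
  cmp_of_lim hx hy hlim (fun _ hM => exists_winpot hE hR hM) hK h

end Env

end

end Pool.Agent.SixB.Rel
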