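import Pool.Agent.Lib.SixB.S0Glue

/-!
# 6BD step 3: a face with two opposite free sides can be removed (vertical natural walls)

`Z6_remove`: if the sides `0` and `2` of `f` are free, with outward phases `ψ₀`, `ψ₂`, `ψ₂ - ψ₀ = ± π/6`, then
`Z6 Q (insert f F) h = √3 * c₁ * c₃ * Z6 Q F (h * p)`, `p` the phase `ψ = (ψ₀ + ψ₂)/2` on the sides `1`, `3`
(outward for `F`), `cₖ = 1` if the side `k` is a side of `F`, and the two term sum otherwise.
-/

set_option autoImplicit false
set_option linter.unusedSectionVars false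

namespace Pool.Agent.SixB.Cell0

open Pool.Agent.Perc.Q Relation

noncomputable section

variable {V Φ : Type} [DecidableEq V] [DecidableEq Φ]

/-- `exp (i x)` -/
def ph (x : ℝ) : ℂ := Complex.exp (x * Complex.I)

theorem ph_add (x y : ℝ) : ph (x + y) = ph x * ph y := by
  unfold ph
  rw [← Complex.exp_add]
  congr 1
  push_cast
  ring

theorem ph_zero : ph 0 = 1 := by simp [ph]

theorem ph_neg_mul (x : ℝ) : ph x * ph (-x) = 1 := by
  rw [← ph_add, add_neg_cancel, ph_zero]

theorem ph_sum (x : ℝ) : ph x + ph (-x) = 2 * Real.cos x := by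
  unfold ph
  rw [Complex.ofReal_cos, Complex.two_cos]
  push_cast
  rfl

theorem ph_pi_six {x : ℝ} (hx : x = Real.pi / 6 ∨ x = -(Real.pi / 6)) :
    ph x + ph (-x) = (Real.sqrt 3 : ℂ) := by
  rw [ph_sum]
  have : Real.cos x = Real.sqrt 3 / 2 := by
    rcases hx with rfl | rfl
    · exact Real.cos_pi_div_six
    · rw [Real.cos_neg, Real.cos_pi_div_six]
  rw [this]
  push_cast
  ring

/-! ## Partition of the arrow sum -/

theorem sum_karr {K α : Finset (V × V)} {L : Finset (V × V)} (hα : α ∈ KArr L) (hKL : K ⊆ L)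
    (hs : ∀ a, a ∈ K → a.swap ∈ K) (c : ℂ) :
    ∑ κ ∈ KArr K, (if α ∩ K ⊆ κ then c else 0) = c := by
  have h1 := karr_inter hα hKL hs
  rw [Finset.sum_eq_single_of_mem _ h1]
  · rw [if_pos (Finset.Subset.refl _)]
  · intro κ hκ hne
    rw [if_neg]
    intro h2
    exact hne (karr_sub_eq h1 hκ h2).symm

theorem Z6_part (Q : QC V Φ) (F : Finset Φ) {K : Finset (V × V)} (hK : K ⊆ dE Q F)
    (hs : ∀ a, a ∈ K → a.swap ∈ K) (h : V × V → ℂ) :
    Z6 Q F h = ∑ κ ∈ KArr K, Z6 Q F (fun a => h a * dlt K κ a) := by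
  unfold Z6
  rw [Finset.sum_comm]
  refine Finset.sum_congr rfl fun α hα => ?_
  rw [← sum_karr (K := K) hα hK hs
    ((∏ f ∈ F, fw (fun k => decide (sd Q f k ∈ α))) * ∏ a ∈ α, h a)]
  refine Finset.sum_congr rfl fun κ _ => ?_
  rw [prod_dlt]
  split_ifs <;> simp

/-- Phases of the cut edges can be taken out. -/
theorem Z6_phase (Q : QC V Φ) (F : Finset Φ) {K κ : Finset (V × V)} (hK : K ⊆ dE Q F)
    (hs : ∀ a, a ∈ K → a.swap ∈ K) (hκ : κ ∈ KArr K) (h p : V × V → ℂ) (hp : ∀ a, a ∉ K → p a = 1) :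
    Z6 Q F (fun a => h a * p a * dlt K κ a) = (∏ a ∈ κ, p a) * Z6 Q F (fun a => h a * dlt K κ a) := by
  unfold Z6
  rw [Finset.mul_sum]
  refine Finset.sum_congr rfl fun α hα => ?_
  rw [prod_dlt, prod_dlt]
  split_ifs with h1
  · have h2 : α ∩ K = κ := karr_sub_eq (karr_inter hα hK hs) hκ h1
    rw [Finset.prod_mul_distrib]
    have h3 : ∏ a ∈ α, p a = ∏ a ∈ κ, p a := by
      rw [← h2]
      symm
      apply Finset.prod_subset Finset.inter_subset_left
      intro a ha ha'
      apply hp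
      intro hh
      exact ha' (Finset.mem_inter.mpr ⟨ha, hh⟩)
    rw [h3]
    ring
  · simp

/-! ## One face -/

/-- the arrows of one face -/
def fArr (Q : QC V Φ) (f : Φ) (x : ZMod 4 → Bool) : Finset (V × V) :=
  Finset.univ.image fun k : ZMod 4 => if x k then sd Q f k else (sd Q f k).swap

theorem sd_inj {Q : QC V Φ} {f g : Φ} {k l : ZMod 4} (h : sd Q f k = sd Q g l) : f = g ∧ k = l := by
  have h1 := congrArg Prod.fst h
  have h2 := congrArg Prod.snd h
  exact Q.inj h1 h2

theorem Z6_single (Q : QC V Φ) (f : Φ) (hf : ∀ k l : ZMod 4, sd Q f k ≠ (sd Q f l).swap)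
    (g : V × V → ℂ) : Z6 Q {f} g = ∑ x : ZMod 4 → Bool, fw x *
      ∏ k : ZMod 4, (if x k then g (sd Q f k) else g (sd Q f k).swap) := by
  have hinj : ∀ x : ZMod 4 → Bool, Function.Injective
      (fun k : ZMod 4 => if x k then sd Q f k else (sd Q f k).swap) := by
    intro x k l hkl
    simp only at hkl
    by_cases h1 : x k
    · by_cases h2 : x l
      · rw [if_pos h1, if_pos h2] at hkl
        exact (sd_inj hkl).2
      · rw [if_pos h1, if_neg h2] at hkl
        exact absurd hkl (hf _ _)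
    · by_cases h2 : x l
      · rw [if_neg h1, if_pos h2] at hkl
        exact absurd hkl.symm (hf _ _)
      · rw [if_neg h1, if_neg h2] at hkl
        exact (sd_inj (Prod.swap_injective hkl)).2
  have hmem : ∀ (x : ZMod 4 → Bool) (k : ZMod 4), sd Q f k ∈ fArr Q f x ↔ x k = true := by
    intro x k
    unfold fArr
    rw [Finset.mem_image]
    constructor
    · rintro ⟨l, _, hl⟩
      by_cases h2 : x l
      · rw [if_pos h2] at hl
        rw [← (sd_inj hl).2]
        exact h2
      · rw [if_neg h2] at hl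
        exact absurd hl.symm (hf _ _)
    · intro hk
      exact ⟨k, Finset.mem_univ _, by rw [if_pos hk]⟩
  have hmem' : ∀ (x : ZMod 4 → Bool) (k : ZMod 4), (sd Q f k).swap ∈ fArr Q f x ↔ x k = false := by
    intro x k
    unfold fArr
    rw [Finset.mem_image]
    constructor
    · rintro ⟨l, _, hl⟩
      by_cases h2 : x l
      · rw [if_pos h2] at hl
        exact absurd hl (hf _ _)
      · rw [if_neg h2] at hl
        rw [← (sd_inj (Prod.swap_injective hl)).2]
        simpa using h2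
    · intro hk
      exact ⟨k, Finset.mem_univ _, by rw [if_neg (by simp [hk])]⟩
  have hdE : ∀ a, a ∈ dE Q ({f} : Finset Φ) ↔ ∃ k, a = sd Q f k ∨ a = (sd Q f k).swap := by
    intro a
    rw [mem_dE]
    constructor
    · rintro ⟨f', hf', k, hk⟩
      rw [Finset.mem_singleton] at hf'
      subst hf'
      exact ⟨k, hk⟩
    · rintro ⟨k, hk⟩
      exact ⟨f, Finset.mem_singleton_self _, k, hk⟩
  have hA : Arrs Q ({f} : Finset Φ) = Finset.univ.image (fArr Q f) := by
    ext α
    rw [Finset.mem_image]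
    constructor
    · intro hα
      obtain ⟨h1, h2⟩ := Finset.mem_filter.mp hα
      have h1 := Finset.mem_powerset.mp h1
      refine ⟨fun k => decide (sd Q f k ∈ α), Finset.mem_univ _, ?_⟩
      ext a
      constructor
      · intro ha
        unfold fArr at ha
        obtain ⟨k, _, rfl⟩ := Finset.mem_image.mp ha
        split_ifs with hk
        · simpa using hk
        · have hk : sd Q f k ∉ α := by simpa using hk
          have := h2 (sd Q f k) ((hdE _).mpr ⟨k, Or.inl rfl⟩)
          tauto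
      · intro ha
        obtain ⟨k, rfl | rfl⟩ := (hdE a).mp (h1 ha)
        · rw [hmem]
          simpa using ha
        · rw [hmem']
          have := h2 (sd Q f k) ((hdE _).mpr ⟨k, Or.inl rfl⟩)
          simp only [decide_eq_false_iff_not]
          tauto
    · rintro ⟨x, _, rfl⟩
      refine Finset.mem_filter.mpr ⟨Finset.mem_powerset.mpr ?_, ?_⟩
      · intro a ha
        unfold fArr at ha
        obtain ⟨k, _, rfl⟩ := Finset.mem_image.mp ha
        rw [hdE]
        split_ifs
        · exact ⟨k, Or.inl rfl⟩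
        · exact ⟨k, Or.inr rfl⟩
      · intro a ha
        obtain ⟨k, rfl | rfl⟩ := (hdE a).mp ha
        · rw [hmem, hmem']
          simp
        · rw [Prod.swap_swap, hmem, hmem']
          simp
  have hinjA : Function.Injective (fArr Q f) := by
    intro x y hxy
    funext k
    have h1 := hmem x k
    rw [hxy, hmem y k] at h1
    exact (Bool.eq_iff_iff.mpr h1).symm
  unfold Z6
  rw [hA, Finset.sum_image (fun x _ y _ h => hinjA h)]
  refine Finset.sum_congr rfl fun x _ => ?_
  rw [Finset.prod_singleton]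
  congr 1
  · congr 1
    funext k
    have := hmem x k
    by_cases hk : x k = true
    · rw [hk]; simpa using this.mpr hk
    · have hk' : x k = false := by simpa using hk
      rw [hk']
      simp only [decide_eq_false_iff_not]
      tauto
  · unfold fArr
    rw [Finset.prod_image (fun k _ l _ h => hinj x h)]
    refine Finset.prod_congr rfl fun k _ => ?_
    split_ifs <;> rfl

/-- sum over the arrows of a face -/
theorem sum_fw (i o : ZMod 4 → ℂ) : (∑ x : ZMod 4 → Bool, fw x * ∏ k : ZMod 4, (if x k then i k else o k)) =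
    (Real.sqrt 3 : ℂ) * (i 1 * i 3 * o 0 * o 2 + i 0 * i 2 * o 1 * o 3) +
      (i 0 * o 2 + o 0 * i 2) * (i 1 * o 3 + o 1 * i 3) := by
  have key : ∀ (G : (ZMod 4 → Bool) → ℂ), ∑ x : ZMod 4 → Bool, G x =
      ∑ a : Bool, ∑ b : Bool, ∑ c : Bool, ∑ d : Bool, G (![a, b, c, d] : Fin 4 → Bool) := by
    intro G
    have e : ∀ G : (Fin 4 → Bool) → ℂ, ∑ x : Fin 4 → Bool, G x =
        ∑ a : Bool, ∑ b : Bool, ∑ c : Bool, ∑ d : Bool, G ![a, b, c, d] := by
      intro G
      rw [← (Fin.consEquiv (fun _ : Fin 4 => Bool)).sum_comp, Fintype.sum_prod_type]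
      refine Finset.sum_congr rfl fun a _ => ?_
      rw [← (Fin.consEquiv (fun _ : Fin 3 => Bool)).sum_comp, Fintype.sum_prod_type]
      refine Finset.sum_congr rfl fun b _ => ?_
      rw [← (Fin.consEquiv (fun _ : Fin 2 => Bool)).sum_comp, Fintype.sum_prod_type]
      refine Finset.sum_congr rfl fun c _ => ?_
      rw [← (Fin.consEquiv (fun _ : Fin 1 => Bool)).sum_comp, Fintype.sum_prod_type]
      refine Finset.sum_congr rfl fun d _ => ?_
      rw [Fintype.sum_eq_single (fun i => i.elim0)]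
      · congr 1
      · intro y hy
        exact absurd (funext fun i => i.elim0) hy
    exact e G
  rw [key]
  have p4 : ∀ (x : Fin 4 → Bool), (∏ k : ZMod 4, (if x k then i k else o k)) =
      (if x 0 then i 0 else o 0) * (if x 1 then i 1 else o 1) * (if x 2 then i 2 else o 2) *
        (if x 3 then i 3 else o 3) := by
    intro x
    rw [prod_z4]
    rfl
  simp only [p4, Fintype.sum_bool]
  unfold fw
  simp
  ring

/-- **A face alone**: two opposite sides free. -/
theorem Z6_single_wall (Q : QC V Φ) (f : Φ) (hf : ∀ k l : ZMod 4, sd Q f k ≠ (sd Q f l).swap)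
    (g : V × V → ℂ) (ψ₀ ψ₂ : ℝ) (hψ : ψ₂ - ψ₀ = Real.pi / 6 ∨ ψ₂ - ψ₀ = -(Real.pi / 6))
    (h0 : g (sd Q f 0) = ph (-ψ₀)) (h0' : g (sd Q f 0).swap = ph ψ₀)
    (h2 : g (sd Q f 2) = ph (-ψ₂)) (h2' : g (sd Q f 2).swap = ph ψ₂) :
    Z6 Q {f} g = (Real.sqrt 3 : ℂ) *
      (ph ((ψ₀ + ψ₂) / 2) * g (sd Q f 1) + ph (-((ψ₀ + ψ₂) / 2)) * g (sd Q f 1).swap) *
      (ph ((ψ₀ + ψ₂) / 2) * g (sd Q f 3) + ph (-((ψ₀ + ψ₂) / 2)) * g (sd Q f 3).swap) := by
  rw [Z6_single Q f hf g, sum_fw (fun k => g (sd Q f k)) (fun k => g (sd Q f k).swap)]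
  simp only [h0, h0', h2, h2']
  have e1 : ph ψ₀ * ph ψ₂ = ph ((ψ₀ + ψ₂) / 2) * ph ((ψ₀ + ψ₂) / 2) := by
    rw [← ph_add, ← ph_add]
    congr 1
    ring
  have e2 : ph (-ψ₀) * ph (-ψ₂) = ph (-((ψ₀ + ψ₂) / 2)) * ph (-((ψ₀ + ψ₂) / 2)) := by
    rw [← ph_add, ← ph_add]
    congr 1
    ring
  have e3 : ph (-ψ₀) * ph ψ₂ + ph ψ₀ * ph (-ψ₂) = (Real.sqrt 3 : ℂ) := by
    rw [← ph_add, ← ph_add, ← ph_pi_six hψ]
    congr 2 <;> ring
  have e4 := ph_neg_mul ((ψ₀ + ψ₂) / 2)
  linear_combination (Real.sqrt 3 : ℂ) * g (sd Q f 1) * g (sd Q f 3) * e1 +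
    (Real.sqrt 3 : ℂ) * g (sd Q f 1).swap * g (sd Q f 3).swap * e2 +
    (g (sd Q f 1) * g (sd Q f 3).swap + g (sd Q f 1).swap * g (sd Q f 3)) * e3 -
    (Real.sqrt 3 : ℂ) * (g (sd Q f 1) * g (sd Q f 3).swap + g (sd Q f 1).swap * g (sd Q f 3)) * e4

/-- phase `ψ` (outward for the rest) on the sides `1` and `3` of `f` -/
def wp (Q : QC V Φ) (f : Φ) (ψ : ℝ) (a : V × V) : ℂ :=
  if a = sd Q f 1 ∨ a = sd Q f 3 then ph ψ
  else if a.swap = sd Q f 1 ∨ a.swap = sd Q f 3 then ph (-ψ) else 1

/-- factor of the side `k` -/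
def wc (Q : QC V Φ) (F : Finset Φ) (f : Φ) (h : V × V → ℂ) (ψ : ℝ) (k : ZMod 4) : ℂ :=
  if sd Q f k ∈ dE Q F then 1 else ph ψ * h (sd Q f k) + ph (-ψ) * h (sd Q f k).swap

/-- **Removal of a face with two opposite free sides.** -/
theorem Z6_remove (Q : QC V Φ) (F : Finset Φ) (f : Φ) (hfF : f ∉ F)
    (hf : ∀ k l : ZMod 4, sd Q f k ≠ (sd Q f l).swap)
    (n0 : sd Q f 0 ∉ dE Q F) (n2 : sd Q f 2 ∉ dE Q F)
    (h : V × V → ℂ) (ψ₀ ψ₂ : ℝ) (hψ : ψ₂ - ψ₀ = Real.pi / 6 ∨ ψ₂ - ψ₀ = -(Real.pi / 6))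
    (h0 : h (sd Q f 0) = ph (-ψ₀)) (h0' : h (sd Q f 0).swap = ph ψ₀)
    (h2 : h (sd Q f 2) = ph (-ψ₂)) (h2' : h (sd Q f 2).swap = ph ψ₂) :
    Z6 Q (insert f F) h = (Real.sqrt 3 : ℂ) * wc Q F f h ((ψ₀ + ψ₂) / 2) 1 *
      wc Q F f h ((ψ₀ + ψ₂) / 2) 3 * Z6 Q F (fun a => h a * wp Q f ((ψ₀ + ψ₂) / 2) a) := by
  set ψ := (ψ₀ + ψ₂) / 2 with hψd
  set K := cE Q ({f} : Finset Φ) F with hK
  have hsd : ∀ k, sd Q f k ∈ dE Q ({f} : Finset Φ) := fun k =>
    sd_mem (Finset.mem_singleton_self f) k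
  have hKs : ∀ a, a ∈ K → a.swap ∈ K := fun a ha => swap_mem_cE.mpr ha
  have hKF : K ⊆ dE Q F := Finset.inter_subset_right
  have hmemK : ∀ k, sd Q f k ∈ K ↔ sd Q f k ∈ dE Q F := by
    intro k
    rw [hK, cE, Finset.mem_inter]
    exact ⟨fun h => h.2, fun h => ⟨hsd k, h⟩⟩
  have hmemK' : ∀ k, (sd Q f k).swap ∈ K ↔ sd Q f k ∈ K := fun k => swap_mem_cE
  have hKsub : ∀ a ∈ K, (a = sd Q f 1 ∨ a = (sd Q f 1).swap) ∨ (a = sd Q f 3 ∨ a = (sd Q f 3).swap) := by
    intro a ha
    have ha1 := (Finset.mem_inter.mp ha).1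
    rw [mem_dE] at ha1
    obtain ⟨f', hf', k, hk⟩ := ha1
    rw [Finset.mem_singleton] at hf'
    subst hf'
    have hk4 : ∀ k : ZMod 4, k = 0 ∨ k = 1 ∨ k = 2 ∨ k = 3 := by decide
    rcases hk4 k with rfl | rfl | rfl | rfl
    · exfalso
      apply n0
      rw [← hmemK]
      rcases hk with rfl | rfl
      · exact ha
      · exact (hmemK' _).mp ha
    · exact Or.inl hk
    · exfalso
      apply n2
      rw [← hmemK]
      rcases hk with rfl | rfl
      · exact ha
      · exact (hmemK' _).mp ha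
    · exact Or.inr hk
  have hne : ∀ k l : ZMod 4, k ≠ l → sd Q f k ≠ sd Q f l := fun k l hkl h => hkl (sd_inj h).2
  have hd : Disjoint ({f} : Finset Φ) F := Finset.disjoint_singleton_left.mpr hfF
  have hins : insert f F = ({f} : Finset Φ) ∪ F := rfl
  rw [hins, Z6_glue Q {f} F hd h (fun a => if a ∈ K then 1 else h a) h
    (by intro a ha; simp only [hK, if_pos ha, one_mul])
    (by intro a _ ha; simp only [hK, if_neg ha]) (fun a _ _ => rfl)]
  rw [Z6_part Q F hKF hKs (fun a => h a * wp Q f ψ a), Finset.mul_sum]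
  refine Finset.sum_congr rfl fun κ hκ => ?_
  have hp : ∀ a, a ∉ K → ∀ b ∈ K, b ≠ a := fun a ha b hb hh => ha (hh ▸ hb)
  -- the phase function restricted to `K`
  set p' : V × V → ℂ := fun a => if a ∈ K then wp Q f ψ a else 1 with hp'
  -- one may be off K: then the sides are not sides of F
  have hphase : Z6 Q F (fun a => h a * wp Q f ψ a * dlt K κ a) =
      Z6 Q F (fun a => h a * p' a * dlt K κ a) := by
    suffices hE : ∀ a ∈ dE Q F, wp Q f ψ a = p' a by
      unfold Z6
      refine Finset.sum_congr rfl fun α hα => ?_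
      refine congrArg₂ (· * ·) rfl (Finset.prod_congr rfl fun a ha => ?_)
      have haF : a ∈ dE Q F := Finset.mem_powerset.mp (Finset.mem_filter.mp hα).1 ha
      simp only [hE a haF]
    intro a haF
    simp only [hp']
    split_ifs with haK
    · rfl
    · unfold wp
      have c1 : ∀ k, a ≠ sd Q f k := by
        intro k hk
        apply haK
        rw [hk, hmemK, ← hk]
        exact haF
      have c2 : ∀ k, a.swap ≠ sd Q f k := by
        intro k hk
        apply haK
        rw [← Prod.swap_swap a, hk, hmemK', hmemK, ← hk, swap_mem_dE]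
        exact haF
      rw [if_neg (by rintro (hh | hh) <;> exact c1 _ hh), if_neg (by rintro (hh | hh) <;> exact c2 _ hh)]
  rw [hphase, Z6_phase Q F hKF hKs hκ h p' (fun a ha => by simp only [hp', if_neg ha])]
  have hκ2 := (Finset.mem_filter.mp hκ).2
  have hκK : κ ⊆ K := Finset.mem_powerset.mp (Finset.mem_filter.mp hκ).1
  -- weights of the face
  have n0' : sd Q f 0 ∉ K := fun hh => n0 ((hmemK 0).mp hh)
  have n2' : sd Q f 2 ∉ K := fun hh => n2 ((hmemK 2).mp hh)
  have n0s : (sd Q f 0).swap ∉ K := fun hh => n0' ((hmemK' 0).mp hh)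
  have n2s : (sd Q f 2).swap ∉ K := fun hh => n2' ((hmemK' 2).mp hh)
  have hg : ∀ a, a ∉ K → (if a ∈ K then (1 : ℂ) else h a) * dlt K κ a = h a := by
    intro a ha
    unfold dlt
    rw [if_neg ha, if_neg (fun hh => ha hh.1), mul_one]
  rw [Z6_single_wall Q f hf _ ψ₀ ψ₂ hψ (by rw [hg _ n0', h0]) (by rw [hg _ n0s, h0'])
    (by rw [hg _ n2', h2]) (by rw [hg _ n2s, h2']), ← hψd]
  -- the two sides
  have side : ∀ k, (k = 1 ∨ k = 3) →
      ph ψ * ((if sd Q f k ∈ K then (1 : ℂ) else h (sd Q f k)) * dlt K κ (sd Q f k)) +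
        ph (-ψ) * ((if (sd Q f k).swap ∈ K then (1 : ℂ) else h (sd Q f k).swap) *
          dlt K κ (sd Q f k).swap) =
      wc Q F f h ψ k * ∏ a ∈ κ.filter (fun a => a = sd Q f k ∨ a = (sd Q f k).swap), p' a := by
    intro k hk
    by_cases hkK : sd Q f k ∈ K
    · have hkK' : (sd Q f k).swap ∈ K := (hmemK' k).mpr hkK
      have hwc : wc Q F f h ψ k = 1 := by
        unfold wc
        rw [if_pos ((hmemK k).mp hkK)]
      have p1 : p' (sd Q f k) = ph ψ := by
        simp only [hp', if_pos hkK]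
        unfold wp
        rw [if_pos (by rcases hk with rfl | rfl <;> simp)]
      have p2 : p' (sd Q f k).swap = ph (-ψ) := by
        simp only [hp', if_pos hkK']
        unfold wp
        rw [if_neg, if_pos]
        · rw [Prod.swap_swap]
          rcases hk with rfl | rfl <;> simp
        · rintro (hh | hh)
          · exact hf _ _ hh.symm
          · exact hf _ _ hh.symm
      rw [hwc, one_mul, if_pos hkK, if_pos hkK', one_mul, one_mul]
      have h3 := hκ2 _ hkK
      by_cases hin : sd Q f k ∈ κ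
      · have hout : (sd Q f k).swap ∉ κ := h3.mp hin
        have hfil : κ.filter (fun a => a = sd Q f k ∨ a = (sd Q f k).swap) = {sd Q f k} := by
          ext a
          simp only [Finset.mem_filter, Finset.mem_singleton]
          constructor
          · rintro ⟨h4, rfl | rfl⟩
            · rfl
            · exact absurd h4 hout
          · rintro rfl
            exact ⟨hin, Or.inl rfl⟩
        rw [hfil, Finset.prod_singleton, p1]
        unfold dlt
        rw [if_neg (fun hh => hh.2 hin), if_pos ⟨hkK', hout⟩]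
        ring
      · have hout : (sd Q f k).swap ∈ κ := by
          by_contra hh
          exact hin (h3.mpr hh)
        have hfil : κ.filter (fun a => a = sd Q f k ∨ a = (sd Q f k).swap) = {(sd Q f k).swap} := by
          ext a
          simp only [Finset.mem_filter, Finset.mem_singleton]
          constructor
          · rintro ⟨h4, rfl | rfl⟩
            · exact absurd h4 hin
            · rfl
          · rintro rfl
            exact ⟨hout, Or.inr rfl⟩
        rw [hfil, Finset.prod_singleton, p2]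
        unfold dlt
        rw [if_pos ⟨hkK, hin⟩, if_neg (fun hh => hh.2 hout)]
        ring
    · have hkK' : (sd Q f k).swap ∉ K := fun hh => hkK ((hmemK' k).mp hh)
      have hfil : κ.filter (fun a => a = sd Q f k ∨ a = (sd Q f k).swap) = ∅ := by
        rw [Finset.filter_eq_empty_iff]
        rintro a ha (rfl | rfl)
        · exact hkK (hκK ha)
        · exact hkK' (hκK ha)
      rw [hfil, Finset.prod_empty, mul_one, if_neg hkK, if_neg hkK']
      unfold wc dlt
      rw [if_neg (fun hh => hkK ((hmemK k).mpr hh)), if_neg (fun hh => hkK hh.1),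
        if_neg (fun hh => hkK' hh.1), mul_one, mul_one]
  have hprod : ∏ a ∈ κ, p' a =
      (∏ a ∈ κ.filter (fun a => a = sd Q f 1 ∨ a = (sd Q f 1).swap), p' a) *
      ∏ a ∈ κ.filter (fun a => a = sd Q f 3 ∨ a = (sd Q f 3).swap), p' a := by
    rw [← Finset.prod_union]
    · refine Finset.prod_congr ?_ fun _ _ => rfl
      rw [← Finset.filter_or]
      symm
      rw [Finset.filter_eq_self]
      intro a ha
      exact hKsub a (hκK ha)
    · rw [Finset.disjoint_left]
      intro a ha ha'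
      have h4 := (Finset.mem_filter.mp ha).2
      have h5 := (Finset.mem_filter.mp ha').2
      have h13 := hne 1 3 (by decide)
      rcases h4 with rfl | rfl
      · rcases h5 with h5 | h5
        · exact h13 h5
        · exact hf _ _ h5
      · rcases h5 with h5 | h5
        · exact hf _ _ h5.symm
        · exact h13 (Prod.swap_injective h5)
  rw [side 1 (Or.inl rfl), side 3 (Or.inr rfl), hprod]
  ring

end

end Pool.Agent.SixB.Cell0
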