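import Pool.Agent.Lib.SixB.S3PlaneE

/-!
# 6BD step 3: the plane functional does not depend on the box

* `GlueZ.box`: a surface which is the plane outside the box of radius `L` is the plane outside every larger box.
* `GlueZ.Zp_box`: `Zp L'` with the core of radius `L'` is `Zp L`.
-/

set_option autoImplicit false
set_option linter.unusedSectionVars false

namespace Pool.Agent.SixB.Rel

open Pool.Agent.Perc Pool.Agent.Perc.Q Relation Filter Topology

noncomputable section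

variable {V Φ : Type} [DecidableEq V] [DecidableEq Φ]

namespace GlueZ

variable {L L' : ℤ} {Q : QC V Φ} {A : Finset Φ} {φ : ℤ × ℤ → V} {ψ : ℤ × ℤ → Φ}
  {P : Finset (V × V)} {h : V × V → ℂ}

/-- a larger box -/
theorem box (H : GlueZ L Q A φ ψ P) (hLL : L ≤ L') :
    GlueZ L' Q (A ∪ (RFb (0, 0) L' \ RFb (0, 0) L).image ψ) φ ψ P where
  chart := fun M => (H.chart M).mono (Finset.sdiff_subset_sdiff (Finset.Subset.refl _) (RF0_mono hLL))
  dj := by
    intro g hg h1
    have hg' : g ∉ RFb (0, 0) L := fun h2 => hg (RF0_mono hLL h2)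
    rcases Finset.mem_union.mp h1 with h2 | h2
    · exact H.dj g hg' h2
    · obtain ⟨g', h3, h4⟩ := Finset.mem_image.mp h2
      obtain ⟨h5, h6⟩ := Finset.mem_sdiff.mp h3
      set M : ℤ := max L' (|g.1| + |g.2| + 1) with hM
      have a1 : g ∈ RFb (0, 0) M \ RFb (0, 0) L := by
        refine Finset.mem_sdiff.mpr ⟨?_, hg'⟩
        rw [mem_RF0]
        have b1 := neg_abs_le g.1
        have b2 := le_abs_self g.1
        have b3 := neg_abs_le g.2
        have b4 := le_abs_self g.2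
        have b5 := abs_nonneg g.1
        have b6 := abs_nonneg g.2
        have b7 : |g.1| + |g.2| + 1 ≤ M := le_max_right _ _
        omega
      have a2 : g' ∈ RFb (0, 0) M \ RFb (0, 0) L :=
        Finset.mem_sdiff.mpr ⟨RF0_mono (le_max_left _ _) h5, h6⟩
      have e := (H.chart M).injOn a2 a1 h4
      rw [e] at h5
      exact hg h5
  nb := by
    intro f hf k g hg l e
    have hg' : g ∉ RFb (0, 0) L := fun h2 => hg (RF0_mono hLL h2)
    rcases Finset.mem_union.mp hf with h2 | h2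
    · have := H.nb f h2 k g hg' l e
      omega
    · obtain ⟨g', h3, rfl⟩ := Finset.mem_image.mp h2
      obtain ⟨h5, h6⟩ := Finset.mem_sdiff.mp h3
      set M : ℤ := max L' (|g.1| + |g.2| + 1) with hM
      have a1 : g ∈ RFb (0, 0) M \ RFb (0, 0) L := by
        refine Finset.mem_sdiff.mpr ⟨?_, hg'⟩
        rw [mem_RF0]
        have b1 := neg_abs_le g.1
        have b2 := le_abs_self g.1
        have b3 := neg_abs_le g.2
        have b4 := le_abs_self g.2
        have b5 := abs_nonneg g.1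
        have b6 := abs_nonneg g.2
        have b7 : |g.1| + |g.2| + 1 ≤ M := le_max_right _ _
        omega
      have a2 : g' ∈ RFb (0, 0) M \ RFb (0, 0) L :=
        Finset.mem_sdiff.mpr ⟨RF0_mono (le_max_left _ _) h5, h6⟩
      have C := H.chart M
      have e1 := C.cor g' a2 k
      rw [add_zero] at e1
      rw [e1] at e
      rw [← C.inj g' a2 g a1 k l e]
      exact cor0_le h5 k
  P_sub := fun a ha => dE_mono Finset.subset_union_left (H.P_sub ha)

/-- blocking in the annulus, seen from outside -/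
theorem blk' (H : GlueZ L Q A φ ψ P) (hL : 0 < L) (n : ℕ) {M : ℤ} (p1 : 4 ^ n * L ≤ M) :
    av ((aZ L n).image ψ) (fun ω => ic (¬ Blk Q ((aZ L n).image ψ) ω (dE Q A)
      (dE Q ((RFb (0, 0) M \ RFb (0, 0) (4 ^ n * L)).image ψ) ∩
        dE Q ((aZ L n).image ψ)))) ≤ 2 * thB ^ n := by
  have hX := H.chart M
  have p0 : L ≤ 4 ^ n * L := by
    have : (1 : ℤ) ≤ 4 ^ n := one_le_pow₀ (by norm_num)
    nlinarith
  have s1 : aZ L n ⊆ RFb (0, 0) M \ RFb (0, 0) L :=
    Finset.sdiff_subset_sdiff (RF0_mono p1) (Finset.Subset.refl _)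
  have s2 : RFb (0, 0) M \ RFb (0, 0) (4 ^ n * L) ⊆ RFb (0, 0) M \ RFb (0, 0) L :=
    Finset.sdiff_subset_sdiff (Finset.Subset.refl _) (RF0_mono p0)
  rw [av_blk_chart (hX.mono s1)]
  apply blk_aZ hL
  · intro c hc
    obtain ⟨h1, h2⟩ := Finset.mem_filter.mp hc
    obtain ⟨⟨g, hg, l, e1⟩, -⟩ := GlueC.dE_corner h1
    obtain ⟨⟨f, hf, k, e2⟩, -⟩ := GlueC.dE_corner h2
    have e3 : Q.c f k = φ (ZQ.c g l) := by
      rw [← e2, ← e1]
      rfl
    have h3 := H.nb f hf k g (mem_aZ.mp hg).2 l e3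
    rw [e1]
    exact h3
  · intro d hd
    obtain ⟨h1, h2⟩ := Finset.mem_filter.mp hd
    have h3 := (Finset.mem_inter.mp h2).1
    rw [hX.dE_map s2] at h3
    obtain ⟨e, he, h4⟩ := Finset.mem_image.mp h3
    have h5 : e = d := hX.inj_dE (dE_mono s2 he) (dE_mono s1 h1) h4
    subst h5
    obtain ⟨⟨g, hg, l, e1⟩, -⟩ := GlueC.dE_corner he
    by_contra hcon
    push Not at hcon
    rw [e1] at hcon
    exact (Finset.mem_sdiff.mp hg).2 (face_of_cor0 hcon.1 hcon.2)

/-- the functional in an arbitrary window -/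
theorem window (hQ : NoLoop Q) (H : GlueZ L Q A φ ψ P) (hL : 0 < L)
    (hh : ∀ a, a ∉ P → a.swap ∉ P → h a = 1) {n : ℕ} (hn : 1 ≤ n) {M : ℤ} (p1 : 4 ^ n * L ≤ M) :
    ‖zplO Q A ((RFb (0, 0) M \ RFb (0, 0) L).image ψ) ∅ h P - zn L Q A ψ h P n‖ ≤
      4 * CP h P * thB ^ n := by
  have p0 : L < 4 ^ n * L := by
    have h4 : (4 : ℤ) ^ 1 ≤ 4 ^ n := pow_le_pow_right₀ (by norm_num) hn
    nlinarith
  have e0 : RFb (0, 0) M \ RFb (0, 0) L =
      aZ L n ∪ (RFb (0, 0) M \ RFb (0, 0) (4 ^ n * L)) := by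
    ext g
    rw [Finset.mem_union, mem_aZ, Finset.mem_sdiff, Finset.mem_sdiff]
    have a1 : g ∈ RFb (0, 0) L → g ∈ RFb (0, 0) (4 ^ n * L) := fun h => RF0_mono p0.le h
    have a2 : g ∈ RFb (0, 0) (4 ^ n * L) → g ∈ RFb (0, 0) M := fun h => RF0_mono p1 h
    tauto
  unfold zn
  rw [e0, Finset.image_union]
  refine (zw_window hQ (H.sep p0) H.P_sub hh).trans ?_
  have h1 := H.blk' hL n p1
  have c0 := CP_nonneg h P
  nlinarith

/-- **The plane functional does not depend on the box.** -/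
theorem Zp_box (hQ : NoLoop Q) (H : GlueZ L Q A φ ψ P) (hL : 0 < L) (hLL : L ≤ L')
    (hh : ∀ a, a ∉ P → a.swap ∉ P → h a = 1) :
    Zp L' Q (A ∪ (RFb (0, 0) L' \ RFb (0, 0) L).image ψ) ψ h P = Zp L Q A ψ h P := by
  have key : ∀ n : ℕ, 1 ≤ n →
      ‖zn L' Q (A ∪ (RFb (0, 0) L' \ RFb (0, 0) L).image ψ) ψ h P n - zn L Q A ψ h P n‖ ≤
        4 * CP h P * thB ^ n := by
    intro n hn
    have q4 : (1 : ℤ) ≤ 4 ^ n := one_le_pow₀ (by norm_num)
    have p1 : 4 ^ n * L ≤ 4 ^ n * L' := mul_le_mul_of_nonneg_left hLL (by positivity)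
    have p2 : L' ≤ 4 ^ n * L' := by nlinarith
    have e1 : zn L' Q (A ∪ (RFb (0, 0) L' \ RFb (0, 0) L).image ψ) ψ h P n =
        zplO Q A ((RFb (0, 0) (4 ^ n * L') \ RFb (0, 0) L).image ψ) ∅ h P := by
      unfold zn
      rw [zplO_empty, zplO_empty]
      have e2 : A ∪ (RFb (0, 0) L' \ RFb (0, 0) L).image ψ ∪ (aZ L' n).image ψ =
          A ∪ (RFb (0, 0) (4 ^ n * L') \ RFb (0, 0) L).image ψ := by
        rw [Finset.union_assoc, ← Finset.image_union]
        congr 2
        ext g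
        rw [Finset.mem_union, mem_aZ, Finset.mem_sdiff, Finset.mem_sdiff]
        have a1 : g ∈ RFb (0, 0) L → g ∈ RFb (0, 0) L' := fun h => RF0_mono hLL h
        have a2 : g ∈ RFb (0, 0) L' → g ∈ RFb (0, 0) (4 ^ n * L') := fun h => RF0_mono p2 h
        tauto
      rw [e2]
    rw [e1]
    exact H.window hQ hL hh hn p1
  have ht : Tendsto (fun n : ℕ => 4 * CP h P * thB ^ n) atTop (𝓝 0) := by
    have h1 := tendsto_pow_atTop_nhds_zero_of_lt_one thB_pos.le thB_lt
    simpa using h1.const_mul (4 * CP h P)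
  have h0 : Tendsto (fun n => zn L' Q (A ∪ (RFb (0, 0) L' \ RFb (0, 0) L).image ψ) ψ h P n -
      zn L Q A ψ h P n) atTop (𝓝 0) :=
    squeeze_zero_norm' ((eventually_ge_atTop 1).mono key) ht
  have h1 := h0.add (H.tendsto hQ hL hh)
  simp only [sub_add_cancel, zero_add] at h1
  exact h1.limUnder_eq

end GlueZ

end

end Pool.Agent.SixB.Rel
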