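import Pool.Agent.Lib.SixB.S3bBox
import Pool.Agent.Lib.SixB.S3DblS
import Pool.Agent.Lib.SixB.S3PlaneH

/-!
# Simulated cores

`SimG Q A B φ T K`: the strands of the faces `A` of `Q` which join sides `φ a`, `φ b` (`a`, `b ∈ K`) are
strands of the faces `T` of `B` for a suitable configuration, with the same turning; closed strands of
`A` have turning `4` or `-4`.
* `SimG.union`: gluing along sides of `K`;
* `SimG.src`, `SimG.tgt`, `SimG.mir`: charts of the source and of the target, reflections;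
* `SimG.flat`: pieces of `B`;
* `SimG.turns`: `Rel.Turns` of a surface which is a cylinder outside a simulated core;
* `SimG.dbl`: doubles;
* `CovOK.simG`: the plane with pockets.
-/

set_option autoImplicit false
set_option linter.unusedSectionVars false

namespace Pool.Agent.SixB

open Pool.Agent.Perc Pool.Agent.Perc.Q

section General

variable {V Φ VB ΦB V' Φ' VB' ΦB' : Type} {Q : QC V Φ} {B : QC VB ΦB} {Q' : QC V' Φ'}
  {B' : QC VB' ΦB'} {ω : Φ → Bool} {ω' : Φ' → Bool} {F F' A : Set Φ} {G : Set (V × V)}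
  {G' : Set (V' × V')} {a b : V × V} {n : ℕ} {t : ℤ} {φ : VB → V} {T T' : Set ΦB}
  {K K' : Set (VB × VB)}

/-! ## Steps -/

theorem mt_sh (r : ZMod 4) (b : Bool) (k : ZMod 4) : mt (xor (!ev r) b) (k + r) = mt b k + r := by
  revert r b k; decide

theorem qk_sh (r : ZMod 4) (b : Bool) (k : ZMod 4) : qk (xor (!ev r) b) (k + r) = qk b k := by
  revert r b k; decide

theorem mt_mirK (s : ZMod 4) (b : Bool) (k : ZMod 4) : mt (xor (ev s) b) (s - k) = s - mt b k := by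
  revert s b k; decide

theorem qk_mirK (s : ZMod 4) (b : Bool) (k : ZMod 4) : qk (xor (ev s) b) (s - k) = -qk b k := by
  revert s b k; decide

/-- Transport of walks. -/
theorem Walk.mapS {S : Set Φ'} {u : V × V → V' × V'} (ε : ℤ)
    (hst : ∀ a b t, St Q ω F a b t → St Q' ω' S (u a) (u b) (ε * t)) (hG : ∀ c ∈ G, u c ∈ G')
    (h : Walk Q ω F G n a b t) : Walk Q' ω' S G' n (u a) (u b) (ε * t) := by
  induction h with
  | one hs => exact Walk.one (hst _ _ _ hs)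
  | tail _ hb hs ih =>
    have h1 := Walk.tail ih (hG _ hb) (hst _ _ _ hs)
    rw [← mul_add] at h1
    exact h1

theorem St.shift {pf : Φ → Φ'} {u : V → V'} {r : Φ → ZMod 4}
    (hc : ∀ f ∈ F, ∀ k, Q'.c (pf f) (k + r f) = u (Q.c f k))
    (hω : ∀ f ∈ F, ω' (pf f) = xor (!ev (r f)) (ω f)) (hs : St Q ω F a b t) :
    St Q' ω' (pf '' F) (Prod.map u u a) (Prod.map u u b) t := by
  obtain ⟨f, hf, k, rfl, rfl, rfl⟩ := hs
  have key : ∀ k, sd Q' (pf f) (k + r f) = Prod.map u u (sd Q f k) := by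
    intro k
    unfold sd
    rw [hc f hf, show k + r f + 1 = k + 1 + r f by ring, hc f hf]
    rfl
  refine ⟨pf f, ⟨f, hf, rfl⟩, k + r f, (key k).symm, ?_, ?_⟩
  · rw [hω f hf, mt_sh, key]
    rfl
  · rw [hω f hf, qk_sh]

theorem St.mirror {pf : Φ → Φ'} {u : V → V'} {s : ZMod 4}
    (hc : ∀ f ∈ F, ∀ k, Q'.c (pf f) (s - k) = u (Q.c f k))
    (hω : ∀ f ∈ F, ω' (pf f) = xor (ev (s - 1)) (ω f)) (hs : St Q ω F a b t) :
    St Q' ω' (pf '' F) (Prod.map u u a).swap (Prod.map u u b).swap (-t) := by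
  obtain ⟨f, hf, k, rfl, rfl, rfl⟩ := hs
  have key : ∀ k, sd Q' (pf f) (s - 1 - k) = (Prod.map u u (sd Q f k)).swap := by
    intro k
    unfold sd
    have h1 := hc f hf (k + 1)
    have h2 := hc f hf k
    rw [show s - (k + 1) = s - 1 - k by ring] at h1
    rw [show s - 1 - k + 1 = s - k by ring, h1, h2]
    rfl
  refine ⟨pf f, ⟨f, hf, rfl⟩, s - 1 - k, (key k).symm, ?_, ?_⟩
  · rw [hω f hf, mt_mirK, key]
    rfl
  · rw [hω f hf, qk_mirK]

/-- Pull back of walks along an injective map. -/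
theorem Walk.pull {χv : V → V'} {χf : Φ → Φ'} {r : Φ → ZMod 4} {X : Set V}
    (hc : ∀ f ∈ F, ∀ k, Q'.c (χf f) (k + r f) = χv (Q.c f k))
    (hX : ∀ f ∈ F, ∀ k, Q.c f k ∈ X) (hinj : Set.InjOn χv X)
    (hω : ∀ f ∈ F, ω f = xor (!ev (r f)) (ω' (χf f))) (ha : a.1 ∈ X ∧ a.2 ∈ X)
    {b' : V' × V'} (h : Walk Q' ω' (χf '' F) G' n (Prod.map χv χv a) b' t) :
    ∃ b, (b.1 ∈ X ∧ b.2 ∈ X) ∧ Prod.map χv χv b = b' ∧
      Walk Q ω F (Prod.map χv χv ⁻¹' G') n a b t := by
  have key : ∀ f ∈ F, ∀ k, sd Q' (χf f) (k + r f) = Prod.map χv χv (sd Q f k) := by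
    intro f hf k
    unfold sd
    rw [hc f hf, show k + r f + 1 = k + 1 + r f by ring, hc f hf]
    rfl
  have hst : ∀ (a : V × V) (b' : V' × V') (t : ℤ), (a.1 ∈ X ∧ a.2 ∈ X) →
      St Q' ω' (χf '' F) (Prod.map χv χv a) b' t →
      ∃ b, (b.1 ∈ X ∧ b.2 ∈ X) ∧ Prod.map χv χv b = b' ∧ St Q ω F a b t := by
    rintro a b' t hab ⟨_, ⟨f, hf, rfl⟩, k, h1, rfl, rfl⟩
    have e0 : k = (k - r f) + r f := by ring
    rw [e0, key f hf] at h1
    have e1 : a = sd Q f (k - r f) := by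
      refine Prod.ext ?_ ?_
      · exact hinj hab.1 (hX f hf _) (congrArg Prod.fst h1)
      · exact hinj hab.2 (hX f hf _) (congrArg Prod.snd h1)
    have e2 : mt (ω' (χf f)) k = mt (ω f) (k - r f) + r f := by
      have := mt_sh (r f) (ω f) (k - r f)
      rw [← e0, hω f hf] at this
      rw [hω f hf, ← this]
      congr 1
      cases ev (r f) <;> cases ω' (χf f) <;> rfl
    have e3 : qk (ω' (χf f)) k = qk (ω f) (k - r f) := by
      have := qk_sh (r f) (ω f) (k - r f)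
      rw [← e0, hω f hf] at this
      rw [hω f hf, ← this]
      congr 1
      cases ev (r f) <;> cases ω' (χf f) <;> rfl
    refine ⟨(sd Q f (mt (ω f) (k - r f))).swap, ⟨hX f hf _, hX f hf _⟩, ?_, f, hf, k - r f, e1, rfl,
      e3⟩
    rw [e2, key f hf]
    rfl
  generalize hx : Prod.map χv χv a = x at h
  induction h with
  | one h =>
    subst hx
    obtain ⟨b, h1, h2, h3⟩ := hst _ _ _ ha h
    exact ⟨b, h1, h2, Walk.one h3⟩
  | tail h hb h' ih =>
    obtain ⟨b, h1, rfl, h3⟩ := ih hx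
    obtain ⟨c, h4, h5, h6⟩ := hst _ _ _ h1 h'
    exact ⟨c, h4, h5, Walk.tail h3 hb h6⟩

/-! ## Simulation -/

/-- The strands of the faces `A` of `Q` are simulated by the faces `T` of `B`. -/
structure SimG (Q : QC V Φ) (A : Set Φ) (B : QC VB ΦB) (φ : VB → V) (T : Set ΦB)
    (K : Set (VB × VB)) : Prop where
  t1 : ∀ ω, T1 Q ω A
  sim : ∀ ω : Φ → Bool, ∃ ω' : ΦB → Bool, ∀ a ∈ K, ∀ b ∈ K, ∀ n t,
    Walk Q ω A Set.univ n (Prod.map φ φ a) (Prod.map φ φ b) t →
      ∃ n', Walk B ω' T Set.univ n' a b t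

theorem SimG.mono (h : SimG Q A B φ T K) {A' : Set Φ} (hA : A' ⊆ A) (hT : T ⊆ T') (hK : K' ⊆ K) :
    SimG Q A' B φ T' K' where
  t1 ω := (h.t1 ω).mono hA
  sim ω := by
    obtain ⟨ω', h1⟩ := h.sim ω
    refine ⟨ω', fun a ha b hb n t hW => ?_⟩
    obtain ⟨n', h2⟩ := h1 a (hK ha) b (hK hb) n t (hW.mono hA subset_rfl)
    exact ⟨n', h2.mono hT subset_rfl⟩

/-- Only the sides of `A` matter. -/
theorem SimG.extK (h : SimG Q A B φ T K)
    (hK : ∀ a ∈ K', (Prod.map φ φ a ∈ Sides Q A ∨ (Prod.map φ φ a).swap ∈ Sides Q A) → a ∈ K) :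
    SimG Q A B φ T K' where
  t1 := h.t1
  sim ω := by
    obtain ⟨ω', h1⟩ := h.sim ω
    refine ⟨ω', fun a ha b hb n t hW => ?_⟩
    exact h1 a (hK a ha (Or.inl hW.first')) b (hK b hb (Or.inr hW.last')) n t hW

/-- Change of the target: charts, translations, rotations. -/
theorem SimG.tgt (h : SimG Q A B φ T K) {p : VB → VB'} {pf : ΦB → ΦB'} {r : ΦB → ZMod 4}
    (hc : ∀ f ∈ T, ∀ k, B'.c (pf f) (k + r f) = p (B.c f k)) (hinj : Set.InjOn pf T)
    {φ' : VB' → V} {K' : Set (VB' × VB')}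
    (hK : ∀ a' ∈ K', ∃ a ∈ K, a' = Prod.map p p a ∧ Prod.map φ' φ' a' = Prod.map φ φ a) :
    SimG Q A B' φ' (pf '' T) K' where
  t1 := h.t1
  sim ω := by
    classical
    obtain ⟨ω', h1⟩ := h.sim ω
    refine ⟨fun g => if hg : ∃ f ∈ T, pf f = g then xor (!ev (r hg.choose)) (ω' hg.choose) else
      false, ?_⟩
    intro a' ha' b' hb' n t hW
    obtain ⟨a, ha, rfl, e1⟩ := hK a' ha'
    obtain ⟨b, hb, rfl, e2⟩ := hK b' hb'
    rw [e1, e2] at hW
    obtain ⟨n', h2⟩ := h1 a ha b hb n t hW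
    refine ⟨n', ?_⟩
    have h3 := h2.mapS (Q' := B') (G' := Set.univ) (u := Prod.map p p) 1
      (fun a b t hs => by
        rw [one_mul]
        refine St.shift (r := r) (ω' := fun g => if hg : ∃ f ∈ T, pf f = g then
          xor (!ev (r hg.choose)) (ω' hg.choose) else false) hc ?_ hs
        intro f hf
        have hg : ∃ f' ∈ T, pf f' = pf f := ⟨f, hf, rfl⟩
        simp only [hg, dif_pos]
        rw [hinj hg.choose_spec.1 hf hg.choose_spec.2]) (fun _ _ => Set.mem_univ _)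
    rw [one_mul] at h3
    exact h3

/-- Change of the source. -/
theorem SimG.src (h : SimG Q A B φ T K) {χv : V → V'} {χf : Φ → Φ'} {r : Φ → ZMod 4} {X : Set V}
    (hc : ∀ f ∈ A, ∀ k, Q'.c (χf f) (k + r f) = χv (Q.c f k))
    (hX : ∀ f ∈ A, ∀ k, Q.c f k ∈ X) (hKX : ∀ a ∈ K, φ a.1 ∈ X ∧ φ a.2 ∈ X)
    (hinj : Set.InjOn χv X) {φ' : VB → V'}
    (hφ : ∀ a ∈ K, Prod.map φ' φ' a = Prod.map χv χv (Prod.map φ φ a)) :
    SimG Q' (χf '' A) B φ' T K where
  t1 ω' e n t hW := by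
    obtain ⟨_, ⟨f, hf, rfl⟩, k, he⟩ := hW.first'
    have key : sd Q' (χf f) k = Prod.map χv χv (sd Q f (k - r f)) := by
      unfold sd
      have h1 := hc f hf (k - r f)
      have h2 := hc f hf (k - r f + 1)
      rw [sub_add_cancel] at h1
      rw [show k - r f + 1 + r f = k + 1 by ring] at h2
      rw [h1, h2]
      rfl
    rw [he, key] at hW
    obtain ⟨b, h1, h2, h3⟩ := hW.pull (ω := fun f => xor (!ev (r f)) (ω' (χf f))) hc hX hinj
      (fun _ _ => rfl) ⟨hX f hf _, hX f hf _⟩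
    have h4 : b = sd Q f (k - r f) := by
      refine Prod.ext ?_ ?_
      · exact hinj h1.1 (hX f hf _) (congrArg Prod.fst h2)
      · exact hinj h1.2 (hX f hf _) (congrArg Prod.snd h2)
    subst h4
    refine h.t1 _ _ n t (h3.mono subset_rfl ?_)
    intro c hc' hce
    rw [Set.mem_singleton_iff] at hce
    exact hc' (by rw [hce]; rfl)
  sim ω' := by
    obtain ⟨ω₁, h1⟩ := h.sim (fun f => xor (!ev (r f)) (ω' (χf f)))
    refine ⟨ω₁, fun a ha b hb n t hW => ?_⟩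
    rw [hφ a ha, hφ b hb] at hW
    obtain ⟨c, h2, h3, h4⟩ := hW.pull (ω := fun f => xor (!ev (r f)) (ω' (χf f))) hc hX hinj
      (fun _ _ => rfl) (hKX a ha)
    have h5 : c = Prod.map φ φ b := by
      refine Prod.ext ?_ ?_
      · exact hinj h2.1 (hKX b hb).1 (congrArg Prod.fst h3)
      · exact hinj h2.2 (hKX b hb).2 (congrArg Prod.snd h3)
    subst h5
    exact h1 a ha b hb n t (h4.mono subset_rfl (Set.subset_univ _))

/-- A piece of `B`. -/
theorem SimG.flat {R : Set ΦB} {ψ : ΦB → Φ} {X : Set VB}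
    (hc : ∀ f ∈ R, ∀ k, Q.c (ψ f) k = φ (B.c f k)) (hX : ∀ f ∈ R, ∀ k, B.c f k ∈ X)
    (hKX : ∀ a ∈ K, a.1 ∈ X ∧ a.2 ∈ X) (hinj : Set.InjOn φ X) (hT : ∀ ω', T1 B ω' R) :
    SimG Q (ψ '' R) B φ R K := by
  have h0 : SimG B R B id R K :=
    ⟨hT, fun ω => ⟨ω, fun a _ b _ n t hW => ⟨n, hW⟩⟩⟩
  exact h0.src (r := fun _ => 0) (fun f hf k => by rw [add_zero]; exact hc f hf k) hX hKX hinj
    (fun _ _ => rfl)

/-- **GLUING.** -/
theorem SimG.union {I : Type} {P : I → Set Φ} {T : I → Set ΦB} (h : ∀ i, SimG Q (P i) B φ (T i) K)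
    (hT : ∀ i j, i ≠ j → Disjoint (T i) (T j))
    (hI : ∀ i j, i ≠ j → ∀ e ∈ Sides Q (P i), e.swap ∈ Sides Q (P j) →
      ∃ a ∈ K, e = Prod.map φ φ a ∧ a ∈ Sides B (T i) ∧ a.swap ∈ Sides B (T j))
    (hB : ∀ ω', T1 B ω' Set.univ) :
    SimG Q (⋃ i, P i) B φ (⋃ i, T i) K := by
  classical
  set F : Set Φ := ⋃ i, P i with hF
  set O : Set (V × V) := {e | ∃ i j, i ≠ j ∧ e ∈ Sides Q (P i) ∧ e.swap ∈ Sides Q (P j)} with hO
  -- walks which avoid the interface
  have hstay : ∀ (ω : Φ → Bool) (G : Set (V × V)) (i : I) (a b : V × V) (n : ℕ) (t : ℤ),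
      a ∈ Sides Q (P i) → Walk Q ω F (G ∩ Oᶜ) n a b t → Walk Q ω (P i) G n a b t := by
    intro ω G i a b n t ha hw
    have hst : ∀ {a b : V × V} {t : ℤ}, St Q ω F a b t → a ∈ Sides Q (P i) →
        St Q ω (P i) a b t := by
      rintro a b t ⟨f, hf, k, rfl, h⟩ ⟨g, hg, l, h2⟩
      obtain ⟨rfl, -⟩ := sd_inj h2
      exact ⟨f, hg, k, rfl, h⟩
    have hw' := hw.interGlued
    clear hw
    induction hw' with
    | one h => exact Walk.one (hst h ha)
    | @tail n a b c t s h hb h' ih =>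
      have h3 := ih ha
      refine Walk.tail h3 hb.1.1 (hst h' ?_)
      have h4 : b.swap ∈ Sides Q (P i) := h3.last'
      obtain ⟨f, hf, k, h5⟩ := hb.2.1
      obtain ⟨j, hj⟩ := Set.mem_iUnion.1 hf
      have h6 : b ∈ Sides Q (P j) := ⟨f, hj, k, h5⟩
      by_cases hij : j = i
      · rw [← hij]; exact h6
      · exact absurd ⟨j, i, hij, h6, h4⟩ hb.1.2
  have key : ∀ ω : Φ → Bool, ∃ ω' : ΦB → Bool, ∀ E : Set (VB × VB),
      (∀ a ∈ E, ∃ i j, i ≠ j ∧ a ∈ Sides B (T i) ∧ a.swap ∈ Sides B (T j)) →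
      ∀ n : ℕ, ∀ a ∈ K, ∀ b ∈ K, ∀ t, Walk Q ω F (Prod.map φ φ '' E)ᶜ n (Prod.map φ φ a)
        (Prod.map φ φ b) t → ∃ n', Walk B ω' (⋃ i, T i) Eᶜ n' a b t := by
    intro ω
    choose ω₁ hω₁ using fun i => (h i).sim ω
    set ω' : ΦB → Bool := fun g => if hg : ∃ i, g ∈ T i then ω₁ hg.choose g else false with hω'
    have hωi : ∀ i, ∀ g ∈ T i, ω' g = ω₁ i g := by
      intro i g hg
      have h1 : ∃ i, g ∈ T i := ⟨i, hg⟩
      have h2 : h1.choose = i := by
        by_contra hne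
        exact Set.disjoint_left.1 (hT _ _ hne) h1.choose_spec hg
      rw [hω']
      simp only [h1, dif_pos]
      rw [h2]
    refine ⟨ω', fun E hE n => ?_⟩
    induction n using Nat.strong_induction_on with
    | _ n ih =>
      intro a ha b hb t hw
      rcases hw.split O with h1 | ⟨c, ⟨hcG, i, j, hij, hci, hcj⟩, m, s, hm0, hm, h1, h2⟩
      · obtain ⟨f, hf, k, he⟩ := h1.first'
        obtain ⟨i, hi⟩ := Set.mem_iUnion.1 hf
        have h2 := hstay ω _ i _ _ n t ⟨f, hi, k, he⟩ h1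
        obtain ⟨n', h3⟩ := hω₁ i a ha b hb n t (h2.mono subset_rfl (Set.subset_univ _))
        refine ⟨n', ?_⟩
        have h4 := h3.interGlued
        have h5 : Walk B ω' (T i) (Set.univ ∩ Glued B (T i)) n' a b t := by
          have h6 := h4.mapS (Q' := B) (ω' := ω') (S := T i) (u := id)
            (G' := Set.univ ∩ Glued B (T i)) 1 (by
              rintro a b t ⟨f, hf, k, rfl, rfl, rfl⟩
              rw [one_mul]
              refine ⟨f, hf, k, rfl, ?_, ?_⟩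
              · rw [hωi i f hf]; rfl
              · rw [hωi i f hf]) (fun c hc => hc)
          rw [one_mul] at h6
          exact h6
        refine h5.mono (Set.subset_iUnion T i) ?_
        rintro x ⟨-, hx1, hx2⟩ hxE
        obtain ⟨i', j', hij', hxi, hxj⟩ := hE x hxE
        obtain ⟨f1, hf1, k1, e1⟩ := hx1
        obtain ⟨f2, hf2, k2, e2⟩ := hxi
        obtain ⟨f3, hf3, k3, e3⟩ := hx2
        obtain ⟨f4, hf4, k4, e4⟩ := hxj
        obtain ⟨e5, -⟩ := sd_inj (e1.symm.trans e2)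
        obtain ⟨e6, -⟩ := sd_inj (e3.symm.trans e4)
        have h7 : i = i' := by
          by_contra hne
          exact Set.disjoint_left.1 (hT i i' hne) hf1 (e5 ▸ hf2)
        have h8 : i = j' := by
          by_contra hne
          exact Set.disjoint_left.1 (hT i j' hne) hf3 (e6 ▸ hf4)
        exact hij' (h7.symm.trans h8)
      · obtain ⟨x, hxK, rfl, -, -⟩ := hI i j hij c hci hcj
        obtain ⟨n1, h3⟩ := ih m hm a ha x hxK s h1
        obtain ⟨n2, h4⟩ := ih (n - m) (by omega) x hxK b hb (t - s) h2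
        refine ⟨n1 + n2, (h3.comp ?_ h4).cast rfl (by ring)⟩
        intro hxE
        exact hcG ⟨x, hxE, rfl⟩
  refine ⟨?_, ?_⟩
  · intro ω e n t hw
    have hloop : ∀ (e : V × V) (n : ℕ), e ∈ O → Walk Q ω F {e}ᶜ n e e t → t = 4 ∨ t = -4 := by
      rintro e n ⟨i, j, hij, hi, hj⟩ hw
      obtain ⟨a, haK, rfl, ha1, ha2⟩ := hI i j hij e hi hj
      obtain ⟨ω', h1⟩ := key ω
      obtain ⟨n', h2⟩ := h1 {a} (by
        rintro _ rfl
        exact ⟨i, j, hij, ha1, ha2⟩) n a haK a haK t (by rw [Set.image_singleton]; exact hw)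
      exact hB ω' a n' t (h2.mono (Set.subset_univ _) subset_rfl)
    rcases hw.split O with h1 | ⟨c, ⟨-, hc⟩, m, s, -, hm, h2, -⟩
    · obtain ⟨f, hf, k, he⟩ := hw.first'
      obtain ⟨i, hi⟩ := Set.mem_iUnion.1 hf
      exact (h i).t1 ω e n t (hstay ω _ i _ _ n t ⟨f, hi, k, he⟩ h1)
    · exact hloop c n hc (hw.rot_min h2 hm)
  · intro ω
    obtain ⟨ω', h1⟩ := key ω
    refine ⟨ω', fun a ha b hb n t hW => ?_⟩
    obtain ⟨n', h2⟩ := h1 ∅ (fun _ hx => absurd hx (Set.notMem_empty _)) n a ha b hb t (by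
      rw [Set.image_empty, Set.compl_empty]; exact hW)
    exact ⟨n', h2.mono subset_rfl (Set.subset_univ _)⟩

/-! ## Reflections -/

/-- The reflected complex. -/
def mirK {V Φ : Type} (Q : QC V Φ) : QC V Φ where
  c := fun f k => Q.c f (3 - k)
  inj := by
    intro f k f' k' h1 h2
    have e : ∀ k : ZMod 4, 3 - (k + 1) + 1 = 3 - k := by decide
    obtain ⟨h3, h4⟩ := Q.inj (k := 3 - (k + 1)) (k' := 3 - (k' + 1)) h2 (by rw [e, e]; exact h1)
    exact ⟨h3, by simpa using h4⟩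

theorem mirK_mirK : mirK (mirK Q) = Q := by
  unfold mirK
  cases Q with
  | mk c inj =>
    simp only [sub_sub_cancel]

theorem St.mirr (hs : St Q ω F a b t) :
    St (mirK Q) (fun f => !ω f) F a.swap b.swap (-t) := by
  have h := St.mirror (Q' := mirK Q) (ω' := fun f => !ω f) (pf := id) (u := id)
    (s := 3) (F := F) (fun f _ k => by
      show Q.c f (3 - (3 - k)) = Q.c f k
      rw [sub_sub_cancel]) (fun f _ => by
      show (!ω f) = xor (ev (3 - 1)) (ω f)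
      rw [show ev (3 - 1) = true by decide]
      cases ω f <;> rfl) hs
  rw [Set.image_id] at h
  exact h

theorem Walk.mirr (h : Walk Q ω F G n a b t) :
    Walk (mirK Q) (fun f => !ω f) F (Prod.swap ⁻¹' G) n a.swap b.swap (-t) := by
  have h1 := h.mapS (Q' := mirK Q) (ω' := fun f => !ω f) (S := F)
    (G' := Prod.swap ⁻¹' G) (u := Prod.swap) (-1) (fun a b t hs => by
      rw [neg_one_mul]; exact hs.mirr) (fun c hc => by
      show c.swap.swap ∈ G
      rw [Prod.swap_swap]; exact hc)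
  rw [neg_one_mul] at h1
  exact h1

theorem Walk.mirr' (h : Walk (mirK Q) ω F G n a b t) :
    Walk Q (fun f => !ω f) F (Prod.swap ⁻¹' G) n a.swap b.swap (-t) := by
  have h1 := h.mirr
  rw [mirK_mirK] at h1
  exact h1

theorem SimG.mirr (h : SimG Q A B φ T K) (hK : ∀ a ∈ K, a.swap ∈ K) :
    SimG (mirK Q) A (mirK B) φ T K where
  t1 ω e n t hW := by
    have h1 := hW.mirr'
    have h2 := h.t1 _ _ n (-t) (h1.mono subset_rfl (by
      intro c hc hce
      rw [Set.mem_singleton_iff] at hce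
      exact hc (by rw [hce]; exact Prod.swap_swap e)))
    omega
  sim ω := by
    obtain ⟨ω', h1⟩ := h.sim (fun f => !ω f)
    refine ⟨fun f => !ω' f, fun a ha b hb n t hW => ?_⟩
    obtain ⟨n', h2⟩ := h1 a.swap (hK a ha) b.swap (hK b hb) n (-t)
      (hW.mirr'.mono subset_rfl (Set.subset_univ _))
    refine ⟨n', ?_⟩
    have h3 := h2.mirr
    rw [Prod.swap_swap, Prod.swap_swap, neg_neg] at h3
    exact h3.mono subset_rfl (Set.subset_univ _)

/-- Reflections of the source and of the target. -/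
theorem SimG.mir (h : SimG Q A B φ T K) (hK : ∀ a ∈ K, a.swap ∈ K) {χv : V → V'} {χf : Φ → Φ'}
    {X : Set V} {p : VB → VB'} {pf : ΦB → ΦB'}
    (hc : ∀ f ∈ A, ∀ k, Q'.c (χf f) (3 - k) = χv (Q.c f k))
    (hX : ∀ f ∈ A, ∀ k, Q.c f k ∈ X) (hKX : ∀ a ∈ K, φ a.1 ∈ X ∧ φ a.2 ∈ X)
    (hinj : Set.InjOn χv X)
    (hcB : ∀ f ∈ T, ∀ k, B'.c (pf f) (3 - k) = p (B.c f k)) (hinjB : Set.InjOn pf T)
    {φ' : VB' → V'} {K' : Set (VB' × VB')}
    (hK' : ∀ a' ∈ K', ∃ a ∈ K, a' = Prod.map p p a ∧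
      Prod.map φ' φ' a' = Prod.map χv χv (Prod.map φ φ a)) :
    SimG Q' (χf '' A) B' φ' (pf '' T) K' := by
  have h1 : SimG Q' (χf '' A) (mirK B) (χv ∘ φ) T K :=
    (h.mirr hK).src (r := fun _ => 0) (X := X) (fun f hf k => by
      rw [add_zero]
      have h2 := hc f hf (3 - k)
      rw [sub_sub_cancel] at h2
      exact h2) (fun f hf k => hX f hf _) hKX hinj (fun _ _ => rfl)
  exact h1.tgt (r := fun _ => 0) (fun f hf k => by
      rw [add_zero]
      have h2 := hcB f hf (3 - k)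
      rw [sub_sub_cancel] at h2
      exact h2) hinjB hK'

/-- Boundary sides, in both directions. -/
def KbS {V Φ : Type} (B : QC V Φ) (T : Set Φ) : Set (V × V) :=
  {e | (e ∈ Sides B T ∧ e.swap ∉ Sides B T) ∨ (e.swap ∈ Sides B T ∧ e ∉ Sides B T)}

end General

end Pool.Agent.SixB
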