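import Pool.Agent.Lib.SixB.S3bCoreE
import Pool.Agent.Lib.SixB.S3CylnC
import Pool.Agent.Lib.SixB.S3CylnH

/-!
# Cylindrified surfaces and their doubles are simulated by boxes

* `SimG.cy`: the cylindrification;
* `SimG.dblC`: the double of one half of the cylindrification.
-/

set_option autoImplicit false
set_option linter.unusedSectionVars false

namespace Pool.Agent.SixB

open Pool.Agent.Perc Pool.Agent.Perc.Q
open Pool.Agent.SixB.Dbl Pool.Agent.SixB.Rel Pool.Agent.SixB.Cyh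

section Cy

variable {V Φ : Type} [DecidableEq V] [DecidableEq Φ]
variable {Q : QC V Φ} {A : Finset Φ} {L g L' : ℤ} {φ : ℤ × ℤ → V} {ψ : ℤ × ℤ → Φ}
  {P : Finset (V × V)} {N : ℕ} [hN : Fact (3 ≤ N)] {A₀ : Set Φ} {T : Set (ℤ × ℤ)}
  {K : Set ((ℤ × ℤ) × (ℤ × ℤ))} {up : Bool} {S : Set Φ}

/-- **The cylindrification of a simulated core.** -/
theorem SimG.cy (H : GlueZ L Q A φ ψ P) (hL : 2 * (L + 1) < N) (h : SimG Q A₀ ZQ φ T K)
    (hA : ∀ f ∈ A₀, f ∈ A)
    (hK : ∀ a ∈ K, (|a.1.1| ≤ L ∧ |a.1.2| ≤ L) ∧ |a.2.1| ≤ L ∧ |a.2.2| ≤ L) :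
    SimG (cyQ N H hL) ((Sum.inl : Φ → CF Φ N) '' A₀) ZQ (fun v => glv Φ N L φ (pN N v)) T K := by
  refine h.src (r := fun _ => 0) (χv := (Sum.inl : V → CV V Φ N)) (X := Set.univ) ?_
    (fun _ _ _ => Set.mem_univ _) (fun _ _ => ⟨Set.mem_univ _, Set.mem_univ _⟩)
    (fun _ _ _ _ h => Sum.inl.inj h) ?_
  · intro f hf k
    rw [add_zero]
    show cyc N L Q A φ (Sum.inl f) k = _
    exact cyc_A (hA f hf) k
  · intro a ha
    obtain ⟨⟨h1, h2⟩, h3, h4⟩ := hK a ha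
    exact Prod.ext (glv_pN (by omega) h1 h2) (glv_pN (by omega) h3 h4)

theorem kb_box {a : (ℤ × ℤ) × (ℤ × ℤ)} (hT : ∀ f ∈ T, f ∈ RFb (0, 0) L) (ha : a ∈ KbS ZQ T) :
    (|a.1.1| ≤ L ∧ |a.1.2| ≤ L) ∧ |a.2.1| ≤ L ∧ |a.2.2| ≤ L := by
  rcases ha with ⟨⟨f, hf, k, rfl⟩, -⟩ | ⟨⟨f, hf, k, hk⟩, -⟩
  · exact ⟨cor0_le (hT f hf) k, cor0_le (hT f hf) (k + 1)⟩
  · have e1 : a.2 = ZQ.c f k := congrArg Prod.fst hk
    have e2 : a.1 = ZQ.c f (k + 1) := congrArg Prod.snd hk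
    rw [e1, e2]
    exact ⟨cor0_le (hT f hf) (k + 1), cor0_le (hT f hf) k⟩

theorem glv_injective (hφ : Set.InjOn φ {v | |v.1| ≤ L ∧ |v.2| ≤ L}) :
    Function.Injective (glv Φ N L φ) := by
  intro u v h
  by_cases hu : u ∈ vb N L
  · rw [glv_in hu] at h
    obtain ⟨hv, h1⟩ := vb_iff h.symm
    have hu' := lft_spec hu
    have hv' := lft_spec hv
    have e := hφ ⟨hv'.1, hv'.2.1⟩ ⟨hu'.1, hu'.2.1⟩ h1
    rw [hu'.2.2, hv'.2.2, e]
  · rw [glv_out hu] at h
    by_cases hv : v ∈ vb N L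
    · rw [glv_in hv] at h
      exact absurd h (by simp)
    · rw [glv_out hv] at h
      exact Sum.inl.inj (Sum.inr.inj h)

theorem cyM_eq {m : ℤ → V × V} (hL : 2 * L < N) (hg : |g| ≤ L)
    (hm : ∀ x : ℤ, -L ≤ x → x < L → m x = Cyh.ori up (φ (x, g), φ (x + 1, g))) (x : ZMod N) :
    cyM Φ N L g φ up m x = Cyh.ori up (glv Φ N L φ (x, g), glv Φ N L φ (x + 1, g)) := by
  by_cases h : Cor L x
  · rw [cyM_in h, hm _ h.1 h.2]
    have h1 : |rp x| ≤ L := by
      rw [abs_le]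
      unfold Cor at h
      omega
    have h2 : |rp x + 1| ≤ L := by
      rw [abs_le]
      unfold Cor at h
      omega
    have e1 : glv Φ N L φ (x, g) = Sum.inl (φ (rp x, g)) := glv_mem hL h1 hg
    have e2 : glv Φ N L φ (x + 1, g) = Sum.inl (φ (rp x + 1, g)) := by
      have h3 := glv_pN (Φ := Φ) (φ := φ) hL (u := (rp x + 1, g)) h2 hg
      unfold pN at h3
      simp only at h3
      push_cast at h3
      rw [rp_cast] at h3
      exact h3
    rw [e1, e2]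
    cases up <;> rfl
  · exact cyM_out h

/-- **The double of one half of the cylindrification.** -/
theorem SimG.dblC (H : GlueZ L Q A φ ψ P) (hL : 2 * (L + 1) < N)
    {O : Set (ZMod N × ℤ)} {m' : ZMod N → CV V Φ N × CV V Φ N}
    (hm' : ∀ x, m' x = Cyh.ori up (glv Φ N L φ (x, g), glv Φ N L φ (x + 1, g)))
    (hOS : OneSidedS (cyQ N H hL) (cyS A S up g O) m')
    (hO : ∀ u ∈ RFb (0, 0) (L' + |g|), pN N u ∉ bxC N L → inH up g (pN N u) → pN N u ∈ O)
    (hs : SimG Q {f | f ∈ A ∧ f ∈ S} ZQ φ (hbox up g L) (KbS ZQ (hbox up g L)))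
    (hφ : Set.InjOn φ {v | |v.1| ≤ L ∧ |v.2| ≤ L}) (hg : |g| < L) (hL' : L + |g| ≤ L')
    (hNL : 2 * (L' + |g|) + 1 < N) {W : Finset (ZMod N × ℤ)}
    (hW : ∀ w ∈ W, ∃ u ∈ wZ up g L L', w = pN N u) :
    SimG (dblS (cyQ N H hL) (cyS A S up g O) m' hOS)
      (cor2 up g (A.image Sum.inl) (cyS A S up g O) Sum.inr W : Set (CF Φ N × Bool)) ZQ
      (fun v => dblφ up g (glv Φ N L φ) m' (pN N v)) (RFb (0, 0) L' : Set (ℤ × ℤ))
      (KbS ZQ (RFb (0, 0) L' : Set (ℤ × ℤ))) := by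
  have hg0 := abs_nonneg g
  have hg1 := abs_le.mp (le_refl |g|)
  have hgi := glv_injective (N := N) (Φ := Φ) (φ := φ) hφ
  have hpi : ∀ u v : ℤ × ℤ, |u.1| ≤ L' + |g| → |v.1| ≤ L' + |g| → pN N u = pN N v → u = v :=
    fun u v h1 h2 h3 => pN_inj (by omega) h1 h2 h3
  have hout : ∀ u ∈ RFb (0, 0) (L' + |g|), u ∉ RFb (0, 0) L → pN N u ∉ bxC N L := by
    intro u h1 h2
    rw [mem_RF0] at h1
    exact pN_notMem (M := L' + |g|) (by omega) (by omega) h2 (by omega) (by omega)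
  have key := SimG.dbl (Q := cyQ N H hL) (A := A.image Sum.inl) (S := cyS A S up g O)
    (φ := fun v => glv Φ N L φ (pN N v)) (ψ := fun f => Sum.inr (pN N f)) (up := up) (g₀ := g)
    (L := L) (L' := L') hOS (m := m') ?_ (by omega) hL' ?_ ?_ ?_ ?_ ?_ ?_ ?_
  · refine key.mono ?_ subset_rfl subset_rfl
    intro p hp
    rw [Finset.mem_coe, mem_cor2] at hp ⊢
    rcases hp with hp | ⟨w, hw, rfl⟩
    · exact Or.inl hp
    · obtain ⟨u, hu, rfl⟩ := hW w hw
      exact Or.inr ⟨u, hu, rfl⟩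
  · -- the half core
    have h1 := hs.cy (N := N) H hL (fun f hf => hf.1) (fun a ha => kb_box (fun f hf => hf.1) ha)
    refine h1.mono ?_ subset_rfl subset_rfl
    rintro F ⟨hF, hFS⟩
    obtain ⟨f, hf, rfl⟩ := Finset.mem_image.mp hF
    exact ⟨f, inl_cyS.mp hFS, rfl⟩
  · intro u hu v hv h
    exact hpi u v hu.1 hv.1 (hgi h)
  · intro u hu hn _ k
    show cyc N L Q A φ (Sum.inr (pN N u)) k = _
    rw [cyc_C (hout u hu hn)]
    show glv Φ N L φ (corC N (pN N u) k) = glv Φ N L φ (pN N (cor0 u k))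
    rw [corC_pN]
  · intro u hu hn _ h
    obtain ⟨f, -, hf⟩ := Finset.mem_image.mp h
    exact absurd hf (by simp)
  · intro F hF k u hu hn l h
    obtain ⟨f, hf, rfl⟩ := Finset.mem_image.mp hF
    have h1 : (Sum.inl (Q.c f k) : CV V Φ N) = glv Φ N L φ (pN N (ZQ.c u l)) := by
      rw [← h]
      show _ = cyc N L Q A φ (Sum.inl f) k
      exact (cyc_A hf k).symm
    obtain ⟨⟨w, hw1, hw2, hw3⟩, -⟩ := vb_iff h1.symm
    have h2 := cor0_le hu l
    have h3 := hpi _ w h2.1 (by omega) hw3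
    rw [h3]
    exact ⟨hw1, hw2⟩
  · intro u hu hn hi
    exact inr_cyS.mpr ⟨hO u hu (hout u hu hn) hi, hi⟩
  · intro v h1 h2 h3
    constructor
    · rintro ⟨x, hx⟩
      rw [hm', ori_ends] at hx
      rcases hx with hx | hx
      · exact congrArg Prod.snd (hgi hx)
      · exact congrArg Prod.snd (hgi hx)
    · intro hv
      refine ⟨(v.1 : ZMod N), ?_⟩
      rw [hm', ori_ends]
      left
      show glv Φ N L φ (pN N v) = _
      unfold pN
      rw [hv]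
  · rintro x ⟨F, ⟨hF, hFS⟩, k, hk⟩
    obtain ⟨f, hf, rfl⟩ := Finset.mem_image.mp hF
    rw [sd_cyA H hL hf, hm'] at hk
    -- both ends are in the box
    have hends : ∃ w₁ w₂ : V, glv Φ N L φ (x, g) = Sum.inl w₁ ∧
        glv Φ N L φ (x + 1, g) = Sum.inl w₂ := by
      have e1 := congrArg Prod.fst hk
      have e2 := congrArg Prod.snd hk
      cases up
      · exact ⟨_, _, e2, e1⟩
      · exact ⟨_, _, e1, e2⟩
    obtain ⟨w₁, w₂, e1, e2⟩ := hends
    obtain ⟨h1, -, h3⟩ := glv_inl (by omega) e1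
    obtain ⟨h4, -, h6⟩ := glv_inl (by omega) e2
    have hrp : rp (x + 1) = rp x + 1 := by
      have e3 : x + 1 = ((rp x + 1 : ℤ) : ZMod N) := by
        push_cast
        rw [rp_cast]
      rw [e3]
      rw [abs_le] at h1
      exact rp_of' (K := L + 1) hL (by rw [abs_le]; omega)
    rw [hrp] at h4 h6
    rw [abs_le] at h1 h4
    have hx1 : pN N (rp x, g) = (x, g) := Prod.ext (rp_cast x) rfl
    have hx2 : pN N (rp x + 1, g) = (x + 1, g) := by
      refine Prod.ext ?_ rfl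
      show ((rp x + 1 : ℤ) : ZMod N) = x + 1
      push_cast
      rw [rp_cast]
    have hgl := abs_lt.mp hg
    cases up
    · refine ⟨((rp x + 1, g), (rp x, g)), ⟨(rp x, g - 1), ⟨?_, ?_⟩, 2, ?_⟩, ?_⟩
      · rw [mem_RF0]
        simp only
        omega
      · unfold inH
        simp only
        simp
      · unfold sd
        change _ = (cor0 (rp x, g - 1) 2, cor0 (rp x, g - 1) (2 + 1))
        rw [show (2 : ZMod 4) + 1 = 3 by decide, cor0_2, cor0_3]
        simp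
      · rw [hm']
        show _ = (glv Φ N L φ (pN N (rp x + 1, g)), glv Φ N L φ (pN N (rp x, g)))
        rw [hx1, hx2]
        rfl
    · refine ⟨((rp x, g), (rp x + 1, g)), ⟨(rp x, g), ⟨?_, ?_⟩, 0, ?_⟩, ?_⟩
      · rw [mem_RF0]
        simp only
        omega
      · unfold inH
        simp
      · unfold sd
        change _ = (cor0 (rp x, g) 0, cor0 (rp x, g) (0 + 1))
        rw [zero_add, cor0_0, cor0_1]
      · rw [hm']
        show _ = (glv Φ N L φ (pN N (rp x, g)), glv Φ N L φ (pN N (rp x + 1, g)))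
        rw [hx1, hx2]
        rfl

end Cy

end Pool.Agent.SixB
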