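import Pool.Agent.Lib.SixB.S3bCore

/-!
# Doubles of simulated cores

* `SimG.ext`: a simulated core together with flat faces around it;
* `SimG.dblG`: the double of a simulated half;
* `SimG.dbl`: the core `cor2` of a doubled surface is simulated by the box.
-/

set_option autoImplicit false
set_option linter.unusedSectionVars false

namespace Pool.Agent.SixB

open Pool.Agent.Perc Pool.Agent.Perc.Q
open Pool.Agent.SixB.Dbl Pool.Agent.SixB.Rel

section Coord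

variable {g₀ : ℤ} {up : Bool} {b : Bool} {T : Set (ℤ × ℤ)}

/-- The closed half. -/
def clH (up : Bool) (g₀ : ℤ) (v : ℤ × ℤ) : Prop := if up = true then g₀ ≤ v.2 else v.2 ≤ g₀

/-- The vertex of the double in the copy `b`. -/
def pV (g₀ : ℤ) (b : Bool) (v : ℤ × ℤ) : ℤ × ℤ := (v.1, if b = true then g₀ - v.2 else v.2 - g₀)

theorem pV_inj : Function.Injective (pV g₀ b) := by
  intro v w h
  unfold pV at h
  obtain ⟨h1, h2⟩ := Prod.mk.inj h
  refine Prod.ext h1 ?_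
  cases b <;> simp at h2 <;> omega

theorem pV_row {v : ℤ × ℤ} (h : v.2 = g₀) : pV g₀ true v = pV g₀ false v := by
  unfold pV
  refine Prod.ext rfl ?_
  simp [h]

theorem zc_qtf (g : ℤ × ℤ) (k : ZMod 4) : ZQ.c (qtf g₀ false g) k = pV g₀ false (ZQ.c g k) := by
  change cor0 (qtf g₀ false g) k = pV g₀ false (cor0 g k)
  unfold qtf pV
  rcases k4_cases k with rfl | rfl | rfl | rfl
  · rw [cor0_0, cor0_0]; simp
  · rw [cor0_1, cor0_1]; simp
  · rw [cor0_2, cor0_2]; simp; ring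
  · rw [cor0_3, cor0_3]; simp; ring

theorem zc_qtf' (g : ℤ × ℤ) (k : ZMod 4) :
    ZQ.c (qtf g₀ true g) (3 - k) = pV g₀ true (ZQ.c g k) := by
  change cor0 (qtf g₀ true g) (3 - k) = pV g₀ true (cor0 g k)
  unfold qtf pV
  rcases k4_cases k with rfl | rfl | rfl | rfl
  · rw [show (3 : ZMod 4) - 0 = 3 by decide, cor0_0, cor0_3]; simp; ring
  · rw [show (3 : ZMod 4) - 1 = 2 by decide, cor0_1, cor0_2]; simp; ring
  · rw [show (3 : ZMod 4) - 2 = 1 by decide, cor0_2, cor0_1]; simp; ring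
  · rw [show (3 : ZMod 4) - 3 = 0 by decide, cor0_3, cor0_0]; simp; ring

theorem zsd_qtf (g : ℤ × ℤ) (k : ZMod 4) :
    sd ZQ (qtf g₀ false g) k = Prod.map (pV g₀ false) (pV g₀ false) (sd ZQ g k) := by
  unfold sd
  rw [zc_qtf, zc_qtf]
  rfl

theorem zsd_qtf' (g : ℤ × ℤ) (k : ZMod 4) :
    sd ZQ (qtf g₀ true g) (2 - k) = (Prod.map (pV g₀ true) (pV g₀ true) (sd ZQ g k)).swap := by
  unfold sd
  rw [show (2 : ZMod 4) - k = 3 - (k + 1) by ring, zc_qtf',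
    show (3 : ZMod 4) - (k + 1) + 1 = 3 - k by ring, zc_qtf']
  rfl

/-- Orientation of a side in the copy `b`. -/
def ori {α : Type} (b : Bool) (a : α × α) : α × α := if b = true then a.swap else a

theorem sides_qtf {a : (ℤ × ℤ) × (ℤ × ℤ)} (h : a ∈ Sides ZQ T) :
    ori b (Prod.map (pV g₀ b) (pV g₀ b) a) ∈ Sides ZQ (qtf g₀ b '' T) := by
  obtain ⟨g, hg, k, rfl⟩ := h
  cases b
  · exact ⟨_, ⟨g, hg, rfl⟩, k, (zsd_qtf g k).symm⟩
  · exact ⟨_, ⟨g, hg, rfl⟩, 2 - k, (zsd_qtf' g k).symm⟩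

theorem qtf_inj : Function.Injective (qtf (X := ℤ) g₀ b) := by
  intro v w h
  unfold qtf at h
  obtain ⟨h1, h2⟩ := Prod.mk.inj h
  refine Prod.ext h1 ?_
  cases b <;> simp at h2 <;> omega

theorem clH_of_inH {g : ℤ × ℤ} (h : inH up g₀ g) (k : ZMod 4) : clH up g₀ (ZQ.c g k) := by
  have h1 := stdB_ZQ.y g k
  unfold inH at h
  unfold clH
  cases up
  · simp at h ⊢
    omega
  · simp at h ⊢
    omega

theorem cc_cases {v : ℤ × ℤ} (h : clH up g₀ v) (b : Bool) :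
    cc up (pV g₀ b v).2 = b ∨ v.2 = g₀ := by
  unfold clH at h
  unfold cc pV
  cases up <;> cases b <;> simp at h ⊢ <;> omega

/-- The face across a side. -/
theorem across_box {L : ℤ} {g : ℤ × ℤ} {k : ZMod 4} (h0 : 0 < L) (hg : g ∉ RFb (0, 0) L)
    (h1 : |(ZQ.c g k).1| ≤ L ∧ |(ZQ.c g k).2| ≤ L)
    (h2 : |(ZQ.c g (k + 1)).1| ≤ L ∧ |(ZQ.c g (k + 1)).2| ≤ L) :
    ∃ g' ∈ RFb (0, 0) L, (sd ZQ g k).swap = sd ZQ g' (k + 2) ∧
      (((ZQ.c g k).2 = g₀ ∧ (ZQ.c g (k + 1)).2 = g₀) ∨ (inH up g₀ g' ↔ inH up g₀ g)) := by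
  obtain ⟨x, y⟩ := g
  rw [abs_le, abs_le] at h1 h2
  rw [mem_RF0] at hg
  change (-L ≤ (cor0 (x, y) k).1 ∧ (cor0 (x, y) k).1 ≤ L) ∧
    -L ≤ (cor0 (x, y) k).2 ∧ (cor0 (x, y) k).2 ≤ L at h1
  change (-L ≤ (cor0 (x, y) (k + 1)).1 ∧ (cor0 (x, y) (k + 1)).1 ≤ L) ∧
    -L ≤ (cor0 (x, y) (k + 1)).2 ∧ (cor0 (x, y) (k + 1)).2 ≤ L at h2
  change ∃ g' ∈ RFb (0, 0) L, (sd ZQ (x, y) k).swap = sd ZQ g' (k + 2) ∧
      (((cor0 (x, y) k).2 = g₀ ∧ (cor0 (x, y) (k + 1)).2 = g₀) ∨ (inH up g₀ g' ↔ inH up g₀ (x, y)))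
  unfold inH
  rcases k4_cases k with rfl | rfl | rfl | rfl
  · rw [zero_add] at *
    rw [cor0_0] at *
    rw [cor0_1] at *
    refine ⟨(x, y - 1), ?_, ?_, ?_⟩
    · rw [mem_RF0]; simp only at *; omega
    · exact sd_swap_0 x y
    · simp only at *
      by_cases h : y = g₀
      · exact Or.inl ⟨h, h⟩
      · right
        cases up <;> simp <;> omega
  · rw [show (1 : ZMod 4) + 1 = 2 by decide] at *
    rw [cor0_1] at *
    rw [cor0_2] at *
    refine ⟨(x + 1, y), ?_, ?_, ?_⟩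
    · rw [mem_RF0]; simp only at *; omega
    · exact sd_swap_1 x y
    · right; simp only
  · rw [show (2 : ZMod 4) + 1 = 3 by decide] at *
    rw [cor0_2] at *
    rw [cor0_3] at *
    refine ⟨(x, y + 1), ?_, ?_, ?_⟩
    · rw [mem_RF0]; simp only at *; omega
    · exact sd_swap_2 x y
    · simp only at *
      by_cases h : y + 1 = g₀
      · exact Or.inl ⟨h, h⟩
      · right
        cases up <;> simp <;> omega
  · rw [show (3 : ZMod 4) + 1 = 0 by decide] at *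
    rw [cor0_3] at *
    rw [cor0_0] at *
    refine ⟨(x - 1, y), ?_, ?_, ?_⟩
    · rw [mem_RF0]; simp only at *; omega
    · exact sd_swap_3 x y
    · right; simp only

end Coord

section Dbl

variable {V Φ ι : Type} [DecidableEq V] [DecidableEq Φ] {Q : QC V Φ} {A₀ A₁ S : Set Φ}
  {φ : ℤ × ℤ → V} {ψ : ℤ × ℤ → Φ} {T₀ T₁ R : Set (ℤ × ℤ)} {K₁ : Set ((ℤ × ℤ) × (ℤ × ℤ))}
  {m : ι → V × V} {hm : OneSidedS Q S m} {up : Bool} {g₀ L : ℤ}

/-- **A simulated half core with flat faces around it.** -/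
theorem SimG.ext (hm : OneSidedS Q S m) (h : SimG Q A₀ ZQ φ T₀ (KbS ZQ T₀))
    (hT₀ : ∀ g, g ∈ T₀ ↔ g ∈ RFb (0, 0) L ∧ inH up g₀ g) (h0 : 0 < L)
    (hR : ∀ g ∈ R, g ∉ RFb (0, 0) L ∧ inH up g₀ g) {X : Set (ℤ × ℤ)} (hφ : Set.InjOn φ X)
    (hX : ∀ g, g ∈ T₀ ∨ g ∈ R → ∀ k, ZQ.c g k ∈ X)
    (hcor : ∀ g ∈ R, ∀ k, Q.c (ψ g) k = φ (ZQ.c g k)) (hdj : ∀ g ∈ R, ψ g ∉ A₀)
    (hnb : ∀ f ∈ A₀, ∀ k, ∀ g ∈ R, ∀ l, Q.c f k = φ (ZQ.c g l) →
      |(ZQ.c g l).1| ≤ L ∧ |(ZQ.c g l).2| ≤ L)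
    (hA₀ : A₀ ⊆ S) (hS : ∀ g ∈ R, ψ g ∈ S)
    (hcut : ∀ g ∈ R, ∀ k, (ZQ.c g k).2 = g₀ → onCut m (φ (ZQ.c g k))) :
    SimG Q (A₀ ∪ ψ '' R) ZQ φ (T₀ ∪ R) ({a | a ∈ Sides ZQ R ∨ a.swap ∈ Sides ZQ R} ∪ KbS ZQ T₀) := by
  classical
  have hsd : ∀ g ∈ R, ∀ k, sd Q (ψ g) k = Prod.map φ φ (sd ZQ g k) := by
    intro g hg k
    unfold sd
    rw [hcor g hg, hcor g hg]
    rfl
  have hTR : ∀ g ∈ T₀, g ∉ R := fun g h1 h2 => (hR g h2).1 ((hT₀ g).1 h1).1
  -- the side of the core which is opposite to a side of an outer face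
  have hface : ∀ g ∈ R, ∀ k, (Prod.map φ φ (sd ZQ g k)).swap ∈ Sides Q A₀ →
      (sd ZQ g k).swap ∈ Sides ZQ T₀ ∧ sd ZQ g k ∉ Sides ZQ T₀ := by
    intro g hg k hk
    obtain ⟨f, hf, l, hl⟩ := hk
    have e1 : Q.c f l = φ (ZQ.c g (k + 1)) := (congrArg Prod.fst hl).symm
    have e2 : Q.c f (l + 1) = φ (ZQ.c g k) := (congrArg Prod.snd hl).symm
    have n1 := hnb f hf l g hg (k + 1) e1
    have n2 := hnb f hf (l + 1) g hg k e2
    obtain ⟨g', hg', h3, h4⟩ := across_box (up := up) (g₀ := g₀) h0 (hR g hg).1 n2 n1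
    refine ⟨?_, ?_⟩
    · rcases h4 with ⟨h4, h5⟩ | h4
      · exfalso
        have c1 := hcut g hg k h4
        have c2 := hcut g hg (k + 1) h5
        rw [← e2] at c1
        rw [← e1] at c2
        obtain ⟨i, hi⟩ := hm.only f (hA₀ hf) l c2 c1
        rw [e1, ← hcor g hg] at c2
        rw [e2, ← hcor g hg] at c1
        obtain ⟨j, hj⟩ := hm.only (ψ g) (hS g hg) k c1 c2
        apply hm.fam.2 i j
        rw [← hi, ← hj, ← hl, hsd g hg]
      · exact ⟨g', (hT₀ g').2 ⟨hg', h4.2 (hR g hg).2⟩, _, h3⟩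
    · rintro ⟨g₁, hg₁, l', h5⟩
      obtain ⟨rfl, -⟩ := sd_inj h5
      exact hTR _ hg₁ hg
  have hnot : ∀ g ∈ R, ∀ k, sd Q (ψ g) k ∉ Sides Q A₀ := by
    rintro g hg k ⟨f, hf, l, hl⟩
    obtain ⟨rfl, -⟩ := sd_inj hl
    exact hdj g hg hf
  -- the two pieces
  have h1 : SimG Q A₀ ZQ φ T₀ ({a | a ∈ Sides ZQ R ∨ a.swap ∈ Sides ZQ R} ∪ KbS ZQ T₀) := by
    refine h.extK ?_
    rintro a (ha | ha) hb
    · rcases ha with ⟨g, hg, k, rfl⟩ | ⟨g, hg, k, hk⟩
      · rcases hb with hb | hb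
        · rw [← hsd g hg] at hb
          exact absurd hb (hnot g hg k)
        · obtain ⟨h2, h3⟩ := hface g hg k hb
          exact Or.inr ⟨h2, h3⟩
      · have ha' : a = (sd ZQ g k).swap := by rw [← hk, Prod.swap_swap]
        subst ha'
        rcases hb with hb | hb
        · obtain ⟨h2, h3⟩ := hface g hg k hb
          exact Or.inl ⟨h2, by rw [Prod.swap_swap]; exact h3⟩
        · have hb' : Prod.map φ φ (sd ZQ g k) ∈ Sides Q A₀ := hb
          rw [← hsd g hg] at hb'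
          exact absurd hb' (hnot g hg k)
    · exact ha
  have h2 : SimG Q (ψ '' R) ZQ φ R ({a | a ∈ Sides ZQ R ∨ a.swap ∈ Sides ZQ R} ∪ KbS ZQ T₀) := by
    have h3 : SimG Q (ψ '' R) ZQ φ R {a | a ∈ Sides ZQ R ∨ a.swap ∈ Sides ZQ R} := by
      refine SimG.flat (X := X) hcor (fun g hg k => hX g (Or.inr hg) k) ?_ hφ
        (fun ω' => (t1_plane ω').mono (Set.subset_univ _))
      rintro a (⟨g, hg, k, rfl⟩ | ⟨g, hg, k, hk⟩)
      · exact ⟨hX g (Or.inr hg) k, hX g (Or.inr hg) (k + 1)⟩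
      · have ha' : a = (sd ZQ g k).swap := by rw [← hk, Prod.swap_swap]
        subst ha'
        exact ⟨hX g (Or.inr hg) (k + 1), hX g (Or.inr hg) k⟩
    refine h3.extK ?_
    rintro a (ha | ha) hb
    · exact ha
    · have haX : a.1 ∈ X ∧ a.2 ∈ X := by
        rcases ha with ⟨⟨g, hg, k, rfl⟩, -⟩ | ⟨⟨g, hg, k, hk⟩, -⟩
        · exact ⟨hX g (Or.inl hg) k, hX g (Or.inl hg) (k + 1)⟩
        · have ha' : a = (sd ZQ g k).swap := by rw [← hk, Prod.swap_swap]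
          subst ha'
          exact ⟨hX g (Or.inl hg) (k + 1), hX g (Or.inl hg) k⟩
      rcases hb with ⟨_, ⟨g, hg, rfl⟩, k, hk⟩ | ⟨_, ⟨g, hg, rfl⟩, k, hk⟩
      · rw [hsd g hg] at hk
        refine Or.inl ⟨g, hg, k, Prod.ext ?_ ?_⟩
        · exact hφ haX.1 (hX g (Or.inr hg) k) (congrArg Prod.fst hk)
        · exact hφ haX.2 (hX g (Or.inr hg) (k + 1)) (congrArg Prod.snd hk)
      · rw [hsd g hg] at hk
        refine Or.inr ⟨g, hg, k, Prod.ext ?_ ?_⟩
        · exact hφ haX.2 (hX g (Or.inr hg) k) (congrArg Prod.fst hk)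
        · exact hφ haX.1 (hX g (Or.inr hg) (k + 1)) (congrArg Prod.snd hk)
  -- gluing
  have h3 := SimG.union (I := Bool) (P := fun i => if i = true then A₀ else ψ '' R)
    (T := fun i => if i = true then T₀ else R) (Q := Q) (B := ZQ) (φ := φ)
    (K := {a | a ∈ Sides ZQ R ∨ a.swap ∈ Sides ZQ R} ∪ KbS ZQ T₀) (by
      intro i
      cases i
      · simpa using h2
      · simpa using h1) (by
      intro i j hij
      cases i <;> cases j
      · exact absurd rfl hij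
      · simp only [Bool.false_eq_true, if_false, if_true]
        exact Set.disjoint_left.2 fun g h4 h5 => hTR g h5 h4
      · simp only [Bool.false_eq_true, if_false, if_true]
        exact Set.disjoint_left.2 fun g h4 h5 => hTR g h4 h5
      · exact absurd rfl hij) (by
      intro i j hij e he he'
      cases i <;> cases j
      · exact absurd rfl hij
      · simp only [Bool.false_eq_true, if_false, if_true] at he he' ⊢
        obtain ⟨_, ⟨g, hg, rfl⟩, k, rfl⟩ := he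
        rw [hsd g hg] at he'
        obtain ⟨h4, h5⟩ := hface g hg k he'
        exact ⟨sd ZQ g k, Or.inl (Or.inl ⟨g, hg, k, rfl⟩), hsd g hg k, ⟨g, hg, k, rfl⟩, h4⟩
      · simp only [Bool.false_eq_true, if_false, if_true] at he he' ⊢
        obtain ⟨_, ⟨g, hg, rfl⟩, k, hk⟩ := he'
        have he2 : e = (Prod.map φ φ (sd ZQ g k)).swap := by
          rw [← hsd g hg, ← hk, Prod.swap_swap]
        subst he2
        obtain ⟨h4, h5⟩ := hface g hg k he
        refine ⟨(sd ZQ g k).swap, Or.inl (Or.inr ⟨g, hg, k, Prod.swap_swap _⟩), rfl, h4, g, hg, k,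
          Prod.swap_swap _⟩
      · exact absurd rfl hij) (fun ω' => t1_plane ω')
  refine h3.mono ?_ ?_ subset_rfl
  · intro f hf
    rcases hf with hf | hf
    · exact Set.mem_iUnion.2 ⟨true, by simpa using hf⟩
    · exact Set.mem_iUnion.2 ⟨false, by simpa using hf⟩
  · intro g hg
    obtain ⟨i, hi⟩ := Set.mem_iUnion.1 hg
    cases i
    · exact Or.inr (by simpa using hi)
    · exact Or.inl (by simpa using hi)

theorem dblφ_pV {v : ℤ × ℤ} (h : clH up g₀ v) (hc : v.2 = g₀ → onCut m (φ v)) (b : Bool) :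
    dblφ up g₀ φ m (pV g₀ b v) = dblV m b (φ v) := by
  unfold dblφ
  rcases cc_cases h b with h1 | h1
  · rw [h1]
    congr 2
    unfold htv pV
    refine Prod.ext rfl ?_
    cases b <;> simp
  · have h2 := hc h1
    have e : ((pV g₀ b v).1, htv g₀ (cc up (pV g₀ b v).2) (pV g₀ b v).2) = v := by
      unfold htv pV
      refine Prod.ext rfl ?_
      cases b <;> simp only <;> split_ifs <;> omega
    rw [e, dblV_onCut h2, dblV_onCut h2 b]

/-- **The double of a simulated half.** -/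
theorem SimG.dblG (h : SimG Q A₁ ZQ φ T₁ K₁) (hA : A₁ ⊆ S) (hT : ∀ g ∈ T₁, inH up g₀ g)
    (hK : ∀ a ∈ K₁, a.swap ∈ K₁) (hcl : ∀ a ∈ K₁, clH up g₀ a.1)
    (hcut : ∀ a ∈ K₁, (onCut m (φ a.1) ↔ a.1.2 = g₀))
    (hrow : ∀ i, m i ∈ Sides Q A₁ → ∃ a ∈ K₁, a ∈ Sides ZQ T₁ ∧ m i = Prod.map φ φ a) :
    SimG (dblS Q S m hm) {p | p.1 ∈ A₁} ZQ (dblφ up g₀ φ m) (⋃ b, qtf g₀ b '' T₁)
      {a' | ∃ b, ∃ a ∈ K₁, a' = Prod.map (pV g₀ b) (pV g₀ b) a} := by
  classical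
  have hcl2 : ∀ a ∈ K₁, clH up g₀ a.2 := fun a ha => hcl _ (hK a ha)
  have hcut2 : ∀ a ∈ K₁, (onCut m (φ a.2) ↔ a.2.2 = g₀) := fun a ha => hcut _ (hK a ha)
  have hφb : ∀ b, ∀ a ∈ K₁, Prod.map (dblφ up g₀ φ m) (dblφ up g₀ φ m)
      (Prod.map (pV g₀ b) (pV g₀ b) a) = dblA m b (Prod.map φ φ a) := by
    intro b a ha
    refine Prod.ext ?_ ?_
    · exact dblφ_pV (hcl a ha) (hcut a ha).2 b
    · exact dblφ_pV (hcl2 a ha) (hcut2 a ha).2 b
  -- the copies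
  have hc : ∀ b, SimG (dblS Q S m hm) ((fun f => (f, b)) '' A₁) ZQ (dblφ up g₀ φ m)
      (qtf g₀ b '' T₁) {a' | ∃ a ∈ K₁, a' = Prod.map (pV g₀ b) (pV g₀ b) a} := by
    intro b
    cases b
    · have h1 : SimG (dblS Q S m hm) ((fun f => (f, false)) '' A₁) ZQ (fun v => dblV m false (φ v))
          T₁ K₁ := by
        refine h.src (r := fun _ => 0) (X := Set.univ) (χv := dblV m false) ?_
          (fun _ _ _ => Set.mem_univ _) (fun _ _ => ⟨Set.mem_univ _, Set.mem_univ _⟩)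
          (fun v _ w _ h => dblV_inj h) (fun a ha => rfl)
        intro f hf k
        rw [add_zero]
        exact dblS_false (hA hf) k
      refine h1.tgt (r := fun _ => 0) (p := pV g₀ false) ?_ (qtf_inj.injOn) ?_
      · intro g hg k
        rw [add_zero]
        exact zc_qtf g k
      · rintro a' ⟨a, ha, rfl⟩
        exact ⟨a, ha, rfl, hφb false a ha⟩
    · refine h.mir hK (X := Set.univ) (χv := dblV m true) (p := pV g₀ true) ?_
        (fun _ _ _ => Set.mem_univ _) (fun _ _ => ⟨Set.mem_univ _, Set.mem_univ _⟩)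
        (fun v _ w _ h => dblV_inj h) (fun g _ k => zc_qtf' g k) (qtf_inj.injOn) ?_
      · intro f hf k
        rw [dblS_true (hA hf), sub_sub_cancel]
      · rintro a' ⟨a, ha, rfl⟩
        exact ⟨a, ha, rfl, hφb true a ha⟩
  -- sides of the copies
  have hsd : ∀ b, ∀ e ∈ Sides (dblS Q S m hm) ((fun f => (f, b)) '' A₁),
      ∃ x ∈ Sides Q A₁, e = ori b (dblA m b x) := by
    rintro b e ⟨_, ⟨f, hf, rfl⟩, k, rfl⟩
    cases b
    · exact ⟨_, ⟨f, hf, k, rfl⟩, dblS_sd_false (hA hf) k⟩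
    · exact ⟨_, ⟨f, hf, 2 - k, rfl⟩, dblS_sd_true (hA hf) k⟩
  have hcross : ∀ x ∈ Sides Q A₁, ∀ y, dblA m false x = dblA m true y → ∃ i, x = m i := by
    rintro x ⟨f, hf, k, rfl⟩ y hxy
    obtain ⟨-, c1⟩ := dblV_cross (congrArg Prod.fst hxy)
    obtain ⟨-, c2⟩ := dblV_cross (congrArg Prod.snd hxy)
    obtain ⟨i, hi⟩ := hm.only f (hA hf) k c1 c2
    exact ⟨i, hi⟩
  have hrow2 : ∀ i, m i ∈ Sides Q A₁ → ∃ a ∈ K₁, a ∈ Sides ZQ T₁ ∧ m i = Prod.map φ φ a ∧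
      a.1.2 = g₀ ∧ a.2.2 = g₀ := by
    intro i hi
    obtain ⟨a, ha, h1, h2⟩ := hrow i hi
    refine ⟨a, ha, h1, h2, ?_, ?_⟩
    · refine (hcut a ha).1 ⟨i, Or.inl ?_⟩
      rw [h2]
      rfl
    · refine (hcut2 a ha).1 ⟨i, Or.inr ?_⟩
      rw [h2]
      rfl
  have hrowp : ∀ a : (ℤ × ℤ) × (ℤ × ℤ), a.1.2 = g₀ → a.2.2 = g₀ →
      Prod.map (pV g₀ true) (pV g₀ true) a = Prod.map (pV g₀ false) (pV g₀ false) a := by
    intro a h1 h2
    exact Prod.ext (pV_row h1) (pV_row h2)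
  have hc' : ∀ b, SimG (dblS Q S m hm) ((fun f => (f, b)) '' A₁) ZQ (dblφ up g₀ φ m)
      (qtf g₀ b '' T₁) {a' | ∃ b, ∃ a ∈ K₁, a' = Prod.map (pV g₀ b) (pV g₀ b) a} := by
    intro b
    refine (hc b).extK ?_
    rintro a' ⟨b', a, ha, rfl⟩ hs
    by_cases hb : b' = b
    · subst hb
      exact ⟨a, ha, rfl⟩
    · -- the side is on the cut
      rw [hφb b' a ha] at hs
      have key : a.1.2 = g₀ ∧ a.2.2 = g₀ := by
        have hx : ∃ x : V × V, dblA m b' (Prod.map φ φ a) = dblA m b x := by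
          rcases hs with hs | hs
          · obtain ⟨x, -, hx⟩ := hsd b _ hs
            cases b
            · exact ⟨x, hx⟩
            · exact ⟨x.swap, hx⟩
          · obtain ⟨x, -, hx⟩ := hsd b _ hs
            have hx' := congrArg Prod.swap hx
            rw [Prod.swap_swap] at hx'
            cases b
            · exact ⟨x.swap, hx'⟩
            · exact ⟨x, hx'⟩
        obtain ⟨x, hx⟩ := hx
        cases b' <;> cases b
        · exact absurd rfl hb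
        · exact ⟨(hcut a ha).1 (dblV_cross (congrArg Prod.fst hx)).2,
            (hcut2 a ha).1 (dblV_cross (congrArg Prod.snd hx)).2⟩
        · have c1 := dblV_cross (congrArg Prod.fst hx).symm
          have c2 := dblV_cross (congrArg Prod.snd hx).symm
          refine ⟨(hcut a ha).1 ?_, (hcut2 a ha).1 ?_⟩
          · have := c1.2
            rw [c1.1] at this
            exact this
          · have := c2.2
            rw [c2.1] at this
            exact this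
        · exact absurd rfl hb
      refine ⟨a, ha, ?_⟩
      cases b' <;> cases b
      · rfl
      · exact (hrowp a key.1 key.2).symm
      · exact hrowp a key.1 key.2
      · rfl
  have hint : ∀ e, e ∈ Sides (dblS Q S m hm) ((fun f => (f, false)) '' A₁) →
      e.swap ∈ Sides (dblS Q S m hm) ((fun f => (f, true)) '' A₁) →
      ∃ a ∈ {a' | ∃ b, ∃ a ∈ K₁, a' = Prod.map (pV g₀ b) (pV g₀ b) a},
        e = Prod.map (dblφ up g₀ φ m) (dblφ up g₀ φ m) a ∧ a ∈ Sides ZQ (qtf g₀ false '' T₁) ∧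
        a.swap ∈ Sides ZQ (qtf g₀ true '' T₁) := by
    intro e he he'
    obtain ⟨x, hx, rfl⟩ := hsd false e he
    obtain ⟨y, hy, hxy⟩ := hsd true _ he'
    have hxy' : dblA m false x = dblA m true y := by
      have := congrArg Prod.swap hxy
      exact this
    obtain ⟨i, rfl⟩ := hcross x hx y hxy'
    obtain ⟨a, ha, h1, h2, h3, h4⟩ := hrow2 i hx
    refine ⟨Prod.map (pV g₀ false) (pV g₀ false) a, ⟨false, a, ha, rfl⟩, ?_, ?_, ?_⟩
    · rw [hφb false a ha, ← h2]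
      rfl
    · exact sides_qtf (b := false) h1
    · have h5 := sides_qtf (b := true) (g₀ := g₀) h1
      rw [hrowp a h3 h4] at h5
      exact h5
  have h3 := SimG.union (I := Bool) (P := fun b => (fun f => (f, b)) '' A₁)
    (T := fun b => qtf g₀ b '' T₁) (Q := dblS Q S m hm) (B := ZQ) (φ := dblφ up g₀ φ m)
    (K := {a' | ∃ b, ∃ a ∈ K₁, a' = Prod.map (pV g₀ b) (pV g₀ b) a}) hc' (by
      intro i j hij
      rw [Set.disjoint_left]
      rintro _ ⟨g, hg, rfl⟩ ⟨g', hg', h4⟩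
      have h5 := cc_qtf (hT g hg) i
      have h6 := cc_qtf (hT g' hg') j
      rw [h4, h5] at h6
      exact hij h6) (by
      intro i j hij e he he'
      cases i <;> cases j
      · exact absurd rfl hij
      · exact hint e he he'
      · obtain ⟨a, ⟨b, a₀, ha₀, rfl⟩, h4, h5, h6⟩ := hint e.swap he' (by rw [Prod.swap_swap]; exact he)
        refine ⟨_, ⟨b, a₀.swap, hK a₀ ha₀, rfl⟩, ?_, ?_, ?_⟩
        · rw [← Prod.swap_swap e, h4]
          rfl
        · exact h6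
        · exact h5
      · exact absurd rfl hij) (fun ω' => t1_plane ω')
  refine h3.mono ?_ subset_rfl subset_rfl
  rintro ⟨f, b⟩ hf
  exact Set.mem_iUnion.2 ⟨b, f, hf, rfl⟩

/-- The part of the box in the half. -/
def hbox (up : Bool) (g₀ L : ℤ) : Set (ℤ × ℤ) := {g | g ∈ RFb (0, 0) L ∧ inH up g₀ g}

theorem row_side {T : Set (ℤ × ℤ)} (hT : ∀ g ∈ T, inH up g₀ g) {a : (ℤ × ℤ) × (ℤ × ℤ)}
    (ha : a ∈ Sides ZQ T) (h1 : a.1.2 = g₀) (h2 : a.2.2 = g₀) : a.swap ∉ Sides ZQ T := by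
  obtain ⟨⟨x, y⟩, hg, k, rfl⟩ := ha
  rintro ⟨g', hg', l, h3⟩
  have h4 := hT _ hg
  have h5 := hT _ hg'
  change (cor0 (x, y) k).2 = g₀ at h1
  change (cor0 (x, y) (k + 1)).2 = g₀ at h2
  unfold inH at h4 h5
  rcases k4_cases k with rfl | rfl | rfl | rfl
  · rw [sd_swap_0] at h3
    obtain ⟨rfl, -⟩ := sd_inj h3
    rw [cor0_0] at h1
    simp only at h1 h4 h5
    cases up <;> simp at h4 h5 <;> omega
  · rw [show (1 : ZMod 4) + 1 = 2 by decide, cor0_2] at h2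
    rw [cor0_1] at h1
    simp only at h1 h2
    omega
  · rw [sd_swap_2] at h3
    obtain ⟨rfl, -⟩ := sd_inj h3
    rw [cor0_2] at h1
    simp only at h1 h4 h5
    cases up <;> simp at h4 h5 <;> omega
  · rw [show (3 : ZMod 4) + 1 = 0 by decide, cor0_0] at h2
    rw [cor0_3] at h1
    simp only at h1 h2
    omega

/-- **The core of a doubled surface is simulated by the box.** -/
theorem SimG.dbl {A : Finset Φ} {L' : ℤ} (hm : OneSidedS Q S m)
    (h : SimG Q {f | f ∈ A ∧ f ∈ S} ZQ φ (hbox up g₀ L) (KbS ZQ (hbox up g₀ L)))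
    (h0 : 0 < L) (hL : L + |g₀| ≤ L')
    (hφ : Set.InjOn φ {v | |v.1| ≤ L' + |g₀| ∧ |v.2| ≤ L' + |g₀|})
    (hcor : ∀ g ∈ RFb (0, 0) (L' + |g₀|), g ∉ RFb (0, 0) L → inH up g₀ g →
      ∀ k, Q.c (ψ g) k = φ (ZQ.c g k))
    (hdj : ∀ g ∈ RFb (0, 0) (L' + |g₀|), g ∉ RFb (0, 0) L → inH up g₀ g → ψ g ∉ A)
    (hnb : ∀ f ∈ A, ∀ k, ∀ g ∈ RFb (0, 0) (L' + |g₀|), g ∉ RFb (0, 0) L → ∀ l,
      Q.c f k = φ (ZQ.c g l) → |(ZQ.c g l).1| ≤ L ∧ |(ZQ.c g l).2| ≤ L)
    (hS : ∀ g ∈ RFb (0, 0) (L' + |g₀|), g ∉ RFb (0, 0) L → inH up g₀ g → ψ g ∈ S)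
    (hcut : ∀ v, |v.1| ≤ L' + |g₀| → |v.2| ≤ L' + |g₀| → clH up g₀ v →
      (onCut m (φ v) ↔ v.2 = g₀))
    (hrow : ∀ i, m i ∈ Sides Q {f | f ∈ A ∧ f ∈ S} →
      ∃ a ∈ Sides ZQ (hbox up g₀ L), m i = Prod.map φ φ a) :
    SimG (dblS Q S m hm) (cor2 up g₀ A S ψ (wZ up g₀ L L') : Set (Φ × Bool)) ZQ
      (dblφ up g₀ φ m) (RFb (0, 0) L' : Set (ℤ × ℤ)) (KbS ZQ (RFb (0, 0) L' : Set (ℤ × ℤ))) := by
  classical
  have hg0 := abs_nonneg g₀
  have hg1 := abs_le.mp (le_refl |g₀|)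
  set R : Set (ℤ × ℤ) := {g | g ∉ RFb (0, 0) L ∧ inH up g₀ g ∧ qtf g₀ false g ∈ RFb (0, 0) L'}
    with hRdef
  set K₁ : Set ((ℤ × ℤ) × (ℤ × ℤ)) :=
    {a | a ∈ Sides ZQ R ∨ a.swap ∈ Sides ZQ R} ∪ KbS ZQ (hbox up g₀ L) with hK₁
  have hRb : ∀ g ∈ R, g ∈ RFb (0, 0) (L' + |g₀|) := by
    rintro g ⟨-, -, h1⟩
    rw [mem_RF0] at h1 ⊢
    unfold qtf at h1
    simp only [Bool.false_eq_true, if_false] at h1
    omega
  have hTb : ∀ g ∈ hbox up g₀ L, g ∈ RFb (0, 0) (L' + |g₀|) := by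
    rintro g ⟨h1, -⟩
    exact RF0_mono (by omega) h1
  have hin : ∀ g ∈ hbox up g₀ L ∪ R, inH up g₀ g := by
    rintro g (hg | hg)
    · exact hg.2
    · exact hg.2.1
  have hX : ∀ g ∈ hbox up g₀ L ∪ R, ∀ k, |(ZQ.c g k).1| ≤ L' + |g₀| ∧ |(ZQ.c g k).2| ≤ L' + |g₀| := by
    rintro g (hg | hg) k
    · exact cor0_le (hTb g hg) k
    · exact cor0_le (hRb g hg) k
  -- step 1
  have h1 : SimG Q ({f | f ∈ A ∧ f ∈ S} ∪ ψ '' R) ZQ φ (hbox up g₀ L ∪ R) K₁ := by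
    refine SimG.ext hm h (up := up) (g₀ := g₀) (L := L) (fun g => Iff.rfl) h0
      (fun g hg => ⟨hg.1, hg.2.1⟩) hφ ?_ ?_ ?_ ?_ (fun f hf => hf.2) ?_ ?_
    · rintro g (hg | hg) k
      · exact hX g (Or.inl hg) k
      · exact hX g (Or.inr hg) k
    · exact fun g hg => hcor g (hRb g hg) hg.1 hg.2.1
    · exact fun g hg h2 => hdj g (hRb g hg) hg.1 hg.2.1 h2.1
    · exact fun f hf k g hg l h2 => hnb f hf.1 k g (hRb g hg) hg.1 l h2
    · exact fun g hg => hS g (hRb g hg) hg.1 hg.2.1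
    · intro g hg k h2
      exact (hcut _ (hX g (Or.inr hg) k).1 (hX g (Or.inr hg) k).2 (clH_of_inH hg.2.1 k)).2 h2
  -- step 2
  have hKs : ∀ a ∈ K₁, a.swap ∈ K₁ := by
    rintro a (h2 | h2)
    · rcases h2 with h2 | h2
      · exact Or.inl (Or.inr (by rw [Prod.swap_swap]; exact h2))
      · exact Or.inl (Or.inl h2)
    · rcases h2 with ⟨h2, h3⟩ | ⟨h2, h3⟩
      · exact Or.inr (Or.inr ⟨by rw [Prod.swap_swap]; exact h2, h3⟩)
      · exact Or.inr (Or.inl ⟨h2, by rw [Prod.swap_swap]; exact h3⟩)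
  have hsub1 : Sides ZQ R ⊆ Sides ZQ (hbox up g₀ L ∪ R) := sides_incl Set.subset_union_right
  have hsub2 : Sides ZQ (hbox up g₀ L) ⊆ Sides ZQ (hbox up g₀ L ∪ R) :=
    sides_incl Set.subset_union_left
  have hKc : ∀ a ∈ K₁, ∃ g ∈ hbox up g₀ L ∪ R, ∃ k, a.1 = ZQ.c g k := by
    intro a ha
    have h2 : a ∈ Sides ZQ (hbox up g₀ L ∪ R) ∨ a.swap ∈ Sides ZQ (hbox up g₀ L ∪ R) := by
      rcases ha with (h2 | h2) | (h2 | h2)
      · exact Or.inl (hsub1 h2)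
      · exact Or.inr (hsub1 h2)
      · exact Or.inl (hsub2 h2.1)
      · exact Or.inr (hsub2 h2.1)
    rcases h2 with ⟨g, hg, k, h3⟩ | ⟨g, hg, k, h3⟩
    · exact ⟨g, hg, k, by rw [h3]; rfl⟩
    · exact ⟨g, hg, k + 1, (congrArg Prod.snd h3)⟩
  have hcl : ∀ a ∈ K₁, clH up g₀ a.1 := by
    intro a ha
    obtain ⟨g, hg, k, h2⟩ := hKc a ha
    rw [h2]
    exact clH_of_inH (hin g hg) k
  have hcu : ∀ a ∈ K₁, (onCut m (φ a.1) ↔ a.1.2 = g₀) := by
    intro a ha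
    obtain ⟨g, hg, k, h2⟩ := hKc a ha
    rw [h2]
    exact hcut _ (hX g hg k).1 (hX g hg k).2 (clH_of_inH (hin g hg) k)
  have h2 := h1.dblG (hm := hm) (up := up) (g₀ := g₀) ?_ hin hKs hcl hcu ?_
  · refine h2.mono ?_ ?_ ?_
    · intro p hp
      rw [Finset.mem_coe, mem_cor2] at hp
      show p.1 ∈ {f | f ∈ A ∧ f ∈ S} ∪ ψ '' R
      rcases hp with hp | ⟨g, hg, rfl⟩
      · exact Or.inl hp
      · obtain ⟨h3, h4⟩ := mem_wZ.mp hg
        refine Or.inr ⟨ptf up g₀ g, ⟨h4, inH_ptf up g₀ g, ?_⟩, rfl⟩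
        rw [mem_RF0] at h3 ⊢
        unfold qtf ptf htf
        simp only [Bool.false_eq_true, if_false]
        split_ifs <;> omega
    · intro g hg
      obtain ⟨b, g', hg', rfl⟩ := Set.mem_iUnion.1 hg
      rw [Finset.mem_coe]
      rcases hg' with hg' | hg'
      · exact qtf_box hL hg'.1 b
      · have h3 := hg'.2.2
        rw [mem_RF0] at h3 ⊢
        unfold qtf at h3 ⊢
        simp only [Bool.false_eq_true, if_false] at h3
        cases b <;> simp only [Bool.false_eq_true, if_false, if_true] <;> omega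
    · -- the boundary of the box
      have key : ∀ a', a' ∈ Sides ZQ (RFb (0, 0) L' : Set (ℤ × ℤ)) →
          a'.swap ∉ Sides ZQ (RFb (0, 0) L' : Set (ℤ × ℤ)) →
          ∃ b, ∃ a ∈ K₁, a' = Prod.map (pV g₀ b) (pV g₀ b) a := by
        rintro a' ⟨g', hg', k, ha'⟩ hn
        rw [Finset.mem_coe] at hg'
        have hob : ∃ b, ∃ a, ∃ k', a' = Prod.map (pV g₀ b) (pV g₀ b) a ∧
            ori b a = sd ZQ (ptf up g₀ g') k' := by
          have e1 := qtf_ptf up g₀ g'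
          rcases hb : cc up g'.2 with _ | _
          · rw [hb] at e1
            refine ⟨false, sd ZQ (ptf up g₀ g') k, k, ?_, rfl⟩
            rw [ha', ← zsd_qtf, e1]
          · rw [hb] at e1
            refine ⟨true, (sd ZQ (ptf up g₀ g') (2 - k)).swap, 2 - k, ?_, ?_⟩
            · have e2 := zsd_qtf' (g₀ := g₀) (ptf up g₀ g') (2 - k)
              rw [e1, sub_sub_cancel] at e2
              rw [ha', e2]
              rfl
            · unfold ori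
              rw [if_pos rfl, Prod.swap_swap]
        obtain ⟨b, a, k', e1, e2⟩ := hob
        refine ⟨b, a, ?_, e1⟩
        have hor : ∀ T : Set (ℤ × ℤ), ori b a ∈ Sides ZQ T → a ∈ Sides ZQ T ∨ a.swap ∈ Sides ZQ T := by
          intro T hT
          cases b
          · exact Or.inl hT
          · exact Or.inr hT
        by_cases hgL : ptf up g₀ g' ∈ RFb (0, 0) L
        · right
          have h3 : ori b a ∈ Sides ZQ (hbox up g₀ L) :=
            ⟨_, ⟨hgL, inH_ptf up g₀ g'⟩, k', e2⟩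
          have h4 : (ori b a).swap ∉ Sides ZQ (hbox up g₀ L) := by
            intro h5
            apply hn
            have h6 := sides_qtf (b := b) (g₀ := g₀) h5
            have h7 : ori b (Prod.map (pV g₀ b) (pV g₀ b) (ori b a).swap) = a'.swap := by
              rw [e1]
              cases b <;> rfl
            rw [h7] at h6
            refine sides_incl ?_ h6
            rintro _ ⟨g, hg, rfl⟩
            rw [Finset.mem_coe]
            exact qtf_box hL hg.1 b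
          cases b
          · exact Or.inl ⟨h3, h4⟩
          · refine Or.inr ⟨h3, ?_⟩
            intro h5
            apply h4
            show a.swap.swap ∈ _
            rw [Prod.swap_swap]
            exact h5
        · left
          refine hor R ⟨ptf up g₀ g', ⟨hgL, inH_ptf up g₀ g', ?_⟩, k', e2⟩
          rw [mem_RF0] at hg' ⊢
          unfold qtf ptf htf
          simp only [Bool.false_eq_true, if_false]
          split_ifs <;> omega
      rintro a' (⟨h3, h4⟩ | ⟨h3, h4⟩)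
      · exact key a' h3 h4
      · obtain ⟨b, a, ha, h5⟩ := key a'.swap h3 (by rw [Prod.swap_swap]; exact h4)
        refine ⟨b, a.swap, hKs a ha, ?_⟩
        rw [← Prod.swap_swap a', h5]
        rfl
  · rintro f (hf | ⟨g, hg, rfl⟩)
    · exact hf.2
    · exact hS g (hRb g hg) hg.1 hg.2.1
  · rintro i ⟨f, hf, k, hk⟩
    rcases hf with hf | ⟨g, hg, rfl⟩
    · obtain ⟨a, ha, h3⟩ := hrow i ⟨f, hf, k, hk⟩
      have hac : ∀ v, (v = a.1 ∨ v = a.2) → |v.1| ≤ L' + |g₀| ∧ |v.2| ≤ L' + |g₀| ∧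
          clH up g₀ v := by
        obtain ⟨g, hg, l, rfl⟩ := ha
        rintro v (rfl | rfl)
        · exact ⟨(hX g (Or.inl hg) l).1, (hX g (Or.inl hg) l).2, clH_of_inH hg.2 l⟩
        · exact ⟨(hX g (Or.inl hg) (l + 1)).1, (hX g (Or.inl hg) (l + 1)).2,
            clH_of_inH hg.2 (l + 1)⟩
      have h4 : a.1.2 = g₀ := by
        obtain ⟨c1, c2, c3⟩ := hac a.1 (Or.inl rfl)
        exact (hcut _ c1 c2 c3).1 ⟨i, Or.inl (by rw [h3]; rfl)⟩
      have h5 : a.2.2 = g₀ := by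
        obtain ⟨c1, c2, c3⟩ := hac a.2 (Or.inr rfl)
        exact (hcut _ c1 c2 c3).1 ⟨i, Or.inr (by rw [h3]; rfl)⟩
      exact ⟨a, Or.inr (Or.inl ⟨ha, row_side (fun g hg => hg.2) ha h4 h5⟩), hsub2 ha, h3⟩
    · refine ⟨sd ZQ g k, Or.inl (Or.inl ⟨g, hg, k, rfl⟩), hsub1 ⟨g, hg, k, rfl⟩, ?_⟩
      rw [hk]
      unfold sd
      rw [hcor g (hRb g hg) hg.1 hg.2.1, hcor g (hRb g hg) hg.1 hg.2.1]
      rfl

end Dbl

end Pool.Agent.SixB
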