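import Pool.Agent.Lib.SixB.S3bCoreD
import Pool.Agent.Lib.SixB.S3ZplE

/-!
# Environments are simulated by the box

* `CovOK.simJ`: simulation with the triangles of the pockets in `J` only;
* `SEnv.TopOK.simG`: the window of an environment; `SEnv.TopOK.simH`: a part of it;
* `SimG.rot`: rotation by `relQ .. 3`.
-/

set_option autoImplicit false
set_option linter.unusedSectionVars false

namespace Pool.Agent.SixB

open Pool.Agent.Perc Pool.Agent.Perc.Q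
open Pool.Agent.SixB.Rel

section Cov

variable {ι VB ΦB : Type} {B : QC VB ΦB} {p : ℤ × ℤ → VB} {pf : ℤ × ℤ → ΦB}
  {σ : ΦB → ZMod 4 → Equiv.Perm (Option ι)} {μ : ι → Mouth} {U : ι → Set (ℤ × ℤ)} {B0 : Set ΦB}
  {J : Set ι}

/-- **SIMULATION** with some of the pockets. -/
theorem CovOK.simJ (h : CovOK B p pf σ μ U B0) (ω : Option ι × ΦB → Bool) :
    ∃ ω' : ΦB → Bool,
      ∀ a b n t, (a ∈ Sides (SQ B σ) (bF ι B0) ∨ a.swap ∈ Sides (SQ B σ) (bF ι B0)) →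
        (b ∈ Sides (SQ B σ) (bF ι B0) ∨ b.swap ∈ Sides (SQ B σ) (bF ι B0)) →
        Walk (SQ B σ) ω (covJ pf U B0 J) Set.univ n a b t →
        ∃ n', Walk B ω' (B0 ∪ ⋃ i ∈ J, pf '' {f | (μ i).tri f}) Set.univ n'
          (Prod.map Prod.snd Prod.snd a) (Prod.map Prod.snd Prod.snd b) t := by
  choose U' φ x₁ y m r φt pos hP hU' hT' using fun i : J => h.exists_ppocket i
  obtain ⟨ω', h1, h2⟩ := planar_pockets_sim (emb_base (B := B) (σ := σ) (B0 := B0)) hP (by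
    intro i j hij e he
    rw [hU'] at he ⊢
    exact h.glue (fun e => hij (Subtype.ext e)) he) (by
    intro i j hij
    rw [hT', hT', Set.disjoint_left]
    rintro _ ⟨f, hf, rfl⟩ ⟨g, hg, hfg⟩
    exact h.tri' i j (fun e => hij (Subtype.ext e)) f g hf hg hfg.symm) ω
  refine ⟨ω', ?_⟩
  intro a b n t ha hb hW
  have hF : bF ι B0 ∪ ⋃ i, φ i '' U' i = covJ pf U B0 J := by
    unfold covJ
    congr 1
    ext f
    simp only [hU', Set.mem_iUnion, Subtype.exists, exists_prop]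
  rw [hF] at h2
  obtain ⟨n', h3⟩ := h2 a b n t ha hb hW
  refine ⟨n', h3.mono ?_ subset_rfl⟩
  rintro f (⟨_, ⟨g, hg, rfl⟩, rfl⟩ | hf)
  · exact Or.inl hg
  · obtain ⟨i, hf⟩ := Set.mem_iUnion.1 hf
    rw [hT'] at hf
    exact Or.inr (Set.mem_iUnion.2 ⟨i, Set.mem_iUnion.2 ⟨i.2, hf⟩⟩)

theorem CovOK.simG (h : CovOK B p pf σ μ U B0) (hB : ∀ ω', T1 B ω' Set.univ) {T : Set ΦB}
    (hT : B0 ⊆ T) (htri : ∀ i ∈ J, ∀ f, (μ i).tri f → pf f ∈ T) :
    SimG (SQ B σ) (covJ pf U B0 J) B (Prod.mk none) T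
      {e | e ∈ Sides B B0 ∨ e.swap ∈ Sides B B0} where
  t1 ω := (h.t1 hB ω).mono covJ_sub
  sim ω := by
    obtain ⟨ω', h1⟩ := h.simJ (J := J) ω
    refine ⟨ω', fun a ha b hb n t hW => ?_⟩
    have key : ∀ e : VB × VB, (e ∈ Sides B B0 ∨ e.swap ∈ Sides B B0) →
        (Prod.map (Prod.mk none) (Prod.mk none) e ∈ Sides (SQ B σ) (bF ι B0) ∨
          (Prod.map (Prod.mk none) (Prod.mk none) e).swap ∈ Sides (SQ B σ) (bF ι B0)) := by
      rintro e (he | he)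
      · exact Or.inl (h.side he)
      · exact Or.inr (h.side he)
    obtain ⟨n', h2⟩ := h1 _ _ n t (key a ha) (key b hb) hW
    refine ⟨n', h2.mono ?_ subset_rfl⟩
    rintro g (hg | hg)
    · exact hT hg
    · obtain ⟨i, hg⟩ := Set.mem_iUnion.1 hg
      obtain ⟨hi, f, hf, rfl⟩ := Set.mem_iUnion.1 hg
      exact htri i hi f hf

end Cov

/-! ## Charts of the target -/

section Tgt

variable {V Φ VB ΦB VB' ΦB' : Type} {Q : QC V Φ} {B : QC VB ΦB} {B' : QC VB' ΦB'} {A : Set Φ}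
  {φ : VB → V} {T : Set ΦB}

theorem sides_tgt {p : VB → VB'} {pf : ΦB → ΦB'} {r : ΦB → ZMod 4}
    (hc : ∀ f ∈ T, ∀ k, B'.c (pf f) (k + r f) = p (B.c f k)) {e' : VB' × VB'} :
    e' ∈ Sides B' (pf '' T) ↔ ∃ e ∈ Sides B T, e' = Prod.map p p e := by
  have key : ∀ f ∈ T, ∀ k, sd B' (pf f) (k + r f) = Prod.map p p (sd B f k) := by
    intro f hf k
    unfold sd
    rw [hc f hf, show k + r f + 1 = k + 1 + r f by ring, hc f hf]
    rfl
  constructor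
  · rintro ⟨_, ⟨f, hf, rfl⟩, k, rfl⟩
    refine ⟨_, ⟨f, hf, k - r f, rfl⟩, ?_⟩
    rw [← key f hf, sub_add_cancel]
  · rintro ⟨_, ⟨f, hf, k, rfl⟩, rfl⟩
    exact ⟨pf f, ⟨f, hf, rfl⟩, k + r f, (key f hf k).symm⟩

/-- Change of the target, with all boundary sides. -/
theorem SimG.tgtKb (h : SimG Q A B φ T (KbS B T)) {p : VB → VB'} {pf : ΦB → ΦB'}
    {r : ΦB → ZMod 4} (hc : ∀ f ∈ T, ∀ k, B'.c (pf f) (k + r f) = p (B.c f k))
    (hinj : Set.InjOn pf T) {φ' : VB' → V} (hφ : ∀ v, φ' (p v) = φ v) :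
    SimG Q A B' φ' (pf '' T) (KbS B' (pf '' T)) := by
  refine h.tgt hc hinj ?_
  have hs := fun e' : VB' × VB' => sides_tgt hc (e' := e')
  have hφ2 : ∀ e : VB × VB, Prod.map φ' φ' (Prod.map p p e) = Prod.map φ φ e := fun e =>
    Prod.ext (hφ _) (hφ _)
  rintro a' (⟨h1, h2⟩ | ⟨h1, h2⟩)
  · obtain ⟨a, ha, rfl⟩ := (hs _).1 h1
    refine ⟨a, Or.inl ⟨ha, fun h3 => h2 ((hs _).2 ⟨_, h3, rfl⟩)⟩, rfl, hφ2 a⟩
  · obtain ⟨a, ha, h3⟩ := (hs _).1 h1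
    have h4 : a' = Prod.map p p a.swap := by
      rw [← Prod.swap_swap a', h3]
      rfl
    subst h4
    refine ⟨a.swap, Or.inr ⟨by rw [Prod.swap_swap]; exact ha, fun h5 => h2 ?_⟩, rfl, hφ2 _⟩
    exact (hs _).2 ⟨_, h5, rfl⟩

end Tgt

/-! ## Rotation -/

section Rot

variable {V Φ : Type} {Q : QC V Φ} {A : Set Φ} {φ : ℤ × ℤ → V} {T : Set (ℤ × ℤ)}
  {K : Set ((ℤ × ℤ) × (ℤ × ℤ))}

/-- **Rotation.** -/
theorem SimG.rot (h : SimG Q A ZQ φ T (KbS ZQ T)) :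
    SimG (relQ Q fun _ => 3) A ZQ (φ ∘ rv0) (rf0 ⁻¹' T) (KbS ZQ (rf0 ⁻¹' T)) := by
  have h1 : SimG (relQ Q fun _ => 3) A ZQ φ T (KbS ZQ T) := by
    have h2 := h.src (Q' := relQ Q fun _ => 3) (χv := id) (χf := id) (r := fun _ => 1)
      (X := Set.univ) (φ' := φ) (fun f _ k => by
        show Q.c f (k + 1 + 3) = Q.c f k
        rw [add_assoc, show (1 : ZMod 4) + 3 = 0 by decide, add_zero])
      (fun _ _ _ => Set.mem_univ _) (fun _ _ => ⟨Set.mem_univ _, Set.mem_univ _⟩)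
      (fun _ _ _ _ h => h) (fun _ _ => rfl)
    rwa [Set.image_id] at h2
  -- the inverse rotation
  have hT : (fun f : ℤ × ℤ => (-f.2 - 1, f.1)) '' T = rf0 ⁻¹' T := by
    ext f
    constructor
    · rintro ⟨g, hg, rfl⟩
      show rf0 (-g.2 - 1, g.1) ∈ T
      rw [rf0_surj]
      exact hg
    · intro hf
      exact ⟨rf0 f, hf, rf0_inj (rf0_surj _)⟩
  have h2 := h1.tgtKb (B' := ZQ) (p := fun v : ℤ × ℤ => (-v.2, v.1))
    (pf := fun f : ℤ × ℤ => (-f.2 - 1, f.1)) (r := fun _ => 1) (φ' := φ ∘ rv0) (by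
      intro f _ k
      have h3 := c_rf0 (-f.2 - 1, f.1) (k + 1)
      rw [rf0_surj, add_assoc, show (1 : ZMod 4) + 3 = 0 by decide, add_zero] at h3
      apply rv0_inj
      rw [← h3, rv0_surj]) (by
      intro f _ g _ h3
      have h4 := congrArg rf0 h3
      simpa only [rf0_surj] using h4) (by
      intro v
      show φ (rv0 (-v.2, v.1)) = φ v
      rw [rv0_surj])
  rwa [hT] at h2

end Rot

/-! ## Environments -/

namespace SEnv

variable {E : SEnv} {L : ℤ}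

/-- The faces of the blocks. -/
def Sol (E : SEnv) (f : ℤ × ℤ) : Prop := E.gu.solid true f ∨ E.gd.solid false f

theorem TopOK.winK (h : E.TopOK) (M : ℤ) : (win E M).TopOK :=
  ⟨h.discU, h.discL, h.leU, h.leL, h.innU, h.outU, h.leftU, h.rightU,
    h.innL, h.outL, h.leftL, h.rightL, h.hgtU, h.hgtL, h.slab⟩

theorem tri_sol (h : E.TopOK) {i : Bool} {f : ℤ × ℤ} (hf : (E.mu i).tri f) : E.Sol f := by
  cases i with
  | true => exact Or.inl (solid_of_tri h.hgtU hf)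
  | false => exact Or.inr (solid_of_tri h.hgtL hf)

/-- **A part of an environment.** -/
theorem TopOK.simH (h : E.TopOK) (hL : InBx E L) {H : Set (ℤ × ℤ)} {J : Set Bool}
    {A : Set (Option Bool × (ℤ × ℤ))} (hA : A ⊆ covJ id E.pk {f | f ∈ (Rel.win E L).base ∧ f ∈ H} J)
    (htri : ∀ i ∈ J, ∀ f, (E.mu i).tri f → f ∈ H)
    (hcut : ∀ f ∈ H, E.Sol f → ∀ k g l, (sd ZQ f k).swap = sd ZQ g l → g ∈ H) :
    SimG E.Q A ZQ (Prod.mk none) {f | f ∈ RFb (0, 0) L ∧ f ∈ H}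
      (KbS ZQ {f | f ∈ RFb (0, 0) L ∧ f ∈ H}) := by
  have hc := ((h.winK L).spok.cov).mono (B1 := {f | f ∈ (Rel.win E L).base ∧ f ∈ H})
    (fun f hf => Finset.mem_coe.2 hf.1)
  have h1 := hc.simG (J := J) (T := {f | f ∈ RFb (0, 0) L ∧ f ∈ H}) t1_plane
    (fun f hf => ⟨(mem_base_win.mp hf.1).1, hf.2⟩) (fun i hi f hf =>
      ⟨RF0_mono (by omega) (hL f (tri_sol h hf)), htri i hi f hf⟩)
  have h2 : SimG E.Q A ZQ (Prod.mk none) {f | f ∈ RFb (0, 0) L ∧ f ∈ H}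
      {e | e ∈ Sides ZQ {f | f ∈ (Rel.win E L).base ∧ f ∈ H} ∨
        e.swap ∈ Sides ZQ {f | f ∈ (Rel.win E L).base ∧ f ∈ H}} := h1.mono hA subset_rfl subset_rfl
  -- a face of a block has no boundary sides
  have key : ∀ e, e ∈ Sides ZQ {f | f ∈ RFb (0, 0) L ∧ f ∈ H} →
      e.swap ∉ Sides ZQ {f | f ∈ RFb (0, 0) L ∧ f ∈ H} →
      e ∈ Sides ZQ {f | f ∈ (Rel.win E L).base ∧ f ∈ H} := by
    rintro e ⟨f, ⟨hf1, hf2⟩, k, rfl⟩ hn
    by_cases hs : E.Sol f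
    · exfalso
      apply hn
      have h3 := hL f hs
      have h4 := cor0_le h3 k
      rw [mem_RF0] at h3
      obtain ⟨x, y⟩ := f
      rcases k4_cases k with rfl | rfl | rfl | rfl
      · refine ⟨(x, y - 1), ⟨?_, hcut _ hf2 hs 0 _ 2 (sd_swap_0 x y)⟩, 2, sd_swap_0 x y⟩
        rw [mem_RF0]
        simp only at *
        omega
      · refine ⟨(x + 1, y), ⟨?_, hcut _ hf2 hs 1 _ 3 (sd_swap_1 x y)⟩, 3, sd_swap_1 x y⟩
        rw [mem_RF0]
        simp only at *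
        omega
      · refine ⟨(x, y + 1), ⟨?_, hcut _ hf2 hs 2 _ 0 (sd_swap_2 x y)⟩, 0, sd_swap_2 x y⟩
        rw [mem_RF0]
        simp only at *
        omega
      · refine ⟨(x - 1, y), ⟨?_, hcut _ hf2 hs 3 _ 1 (sd_swap_3 x y)⟩, 1, sd_swap_3 x y⟩
        rw [mem_RF0]
        simp only at *
        omega
    · refine ⟨f, ⟨mem_base_win.mpr ⟨hf1, fun h3 => hs (Or.inl h3), fun h3 => hs (Or.inr h3)⟩,
        hf2⟩, k, rfl⟩
  refine h2.mono subset_rfl subset_rfl ?_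
  rintro e (⟨h3, h4⟩ | ⟨h3, h4⟩)
  · exact Or.inl (key e h3 h4)
  · exact Or.inr (key _ h3 (by rw [Prod.swap_swap]; exact h4))

/-- **The window of an environment.** -/
theorem TopOK.simG (h : E.TopOK) (hL : InBx E L) :
    SimG E.Q ((Rel.win E L).F : Set (Option Bool × (ℤ × ℤ))) ZQ (Prod.mk none)
      (RFb (0, 0) L : Set (ℤ × ℤ)) (KbS ZQ (RFb (0, 0) L : Set (ℤ × ℤ))) := by
  have h1 := h.simH (J := Set.univ) (H := Set.univ) hL
    (A := ((Rel.win E L).F : Set (Option Bool × (ℤ × ℤ)))) (by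
      rintro ⟨s, f⟩ hf
      rw [Finset.mem_coe, mem_F] at hf
      rcases hf with ⟨rfl, hf⟩ | ⟨rfl, hf⟩ | ⟨rfl, hf⟩
      · exact Or.inl ⟨f, ⟨hf, Set.mem_univ _⟩, rfl⟩
      · exact Or.inr (Set.mem_iUnion.2 ⟨true, Set.mem_iUnion.2 ⟨Set.mem_univ _, f, hf, rfl⟩⟩)
      · exact Or.inr (Set.mem_iUnion.2 ⟨false, Set.mem_iUnion.2 ⟨Set.mem_univ _, f, hf, rfl⟩⟩))
    (fun _ _ _ _ => Set.mem_univ _) (fun _ _ _ _ _ _ _ => Set.mem_univ _)
  have e : {f : ℤ × ℤ | f ∈ RFb (0, 0) L ∧ f ∈ Set.univ} = (RFb (0, 0) L : Set (ℤ × ℤ)) := by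
    ext f
    simp
  rwa [e] at h1

end SEnv

end Pool.Agent.SixB
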