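import Pool.Agent.Lib.SixB.S3bCoreC
import Pool.Agent.Lib.SixB.S3CylDblG
import Pool.Agent.Lib.SixB.S3CylSurf

/-!
# Doubles of cylinder surfaces are simulated by boxes

* `SimG.surf`: the surfaces over the cylinder of `S3CylSurf`;
* `SimG.dblN`: the double of one half of any cylinder surface.
-/

set_option autoImplicit false
set_option linter.unusedSectionVars false

namespace Pool.Agent.SixB

open Pool.Agent.Perc Pool.Agent.Perc.Q
open Pool.Agent.SixB.Dbl Pool.Agent.SixB.Rel Pool.Agent.SixB.Cyh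

section Surf

variable {S : Type} [DecidableEq S] {E : Surf S} {L : ℤ} {N : ℕ} [hN : Fact (3 ≤ N)]
  {A₀ : Set (S × (ℤ × ℤ))} {T : Set (ℤ × ℤ)} {K : Set ((ℤ × ℤ) × (ℤ × ℤ))}

/-- **The surface over the cylinder.** -/
theorem SimG.surf (hE : E.In L) (hN' : 2 * L < N) (h : SimG E.Q A₀ ZQ (Prod.mk E.s0) T K)
    (hA : ∀ f ∈ A₀, f ∈ E.core L)
    (hK : ∀ a ∈ K, (|a.1.1| ≤ L ∧ |a.1.2| ≤ L) ∧ |a.2.1| ≤ L ∧ |a.2.2| ≤ L) :
    SimG (E.QN N) (Surf.chi S N '' A₀) ZQ (fun v => (E.s0, pN N v)) T K := by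
  have hch := Surf.chi_chart (N := N) hE (le_refl L) hN' (F := E.core L)
    (fun f hf => Surf.core_box hE hf)
  refine h.src (r := fun _ => 0) (χv := Surf.chi S N) (X := {v | |v.2.1| ≤ L ∧ |v.2.2| ≤ L}) ?_ ?_ ?_
    ?_ ?_
  · intro f hf k
    exact hch.cor f (hA f hf) k
  · intro f hf k
    rw [Surf.Q_c]
    exact cor0_le (Surf.core_box hE (hA f hf)) k
  · intro a ha
    exact ⟨(hK a ha).1, (hK a ha).2⟩
  · intro u hu v hv h1
    obtain ⟨h2, h3⟩ := Prod.mk.inj h1
    exact Prod.ext h2 (pN_inj hN' hu.1 hv.1 h3)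
  · intro a ha
    rfl

end Surf

section DblN

variable {V Φ : Type} [DecidableEq V] [DecidableEq Φ]
variable {Q : QC V Φ} {A : Finset Φ} {L g L' : ℤ} {N : ℕ} [hN : Fact (3 ≤ N)]
  {φ : ZMod N × ℤ → V} {ψ : ZMod N × ℤ → Φ} {P : Finset (V × V)} {up : Bool} {S : Set Φ}
  {m : ZMod N → V × V}

/-- **The double of one half of a cylinder surface.** -/
theorem SimG.dblN (HG : ∀ M, L < M → GlueC N M L Q A φ ψ P)
    (H : HalfS up g (CQ N) {g | g ∉ bxC N L} Q A φ ψ S m)
    (hs : SimG Q {f | f ∈ A ∧ f ∈ S} ZQ (fun v => φ (pN N v)) (hbox up g L)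
      (KbS ZQ (hbox up g L)))
    (hφ : Function.Injective φ) (hm : ∀ x, m x = Cyh.ori up (φ (x, g), φ (x + 1, g)))
    (hg : |g| < L) (hL' : L + |g| ≤ L') (hNL : 2 * (L' + |g| + 1) < N) :
    SimG (dblS Q S m H.os) (cor2 up g A S ψ (wC N up g L L') : Set (Φ × Bool)) ZQ
      (fun v => dblφ up g φ m (pN N v)) (RFb (0, 0) L' : Set (ℤ × ℤ))
      (KbS ZQ (RFb (0, 0) L' : Set (ℤ × ℤ))) := by
  have hg0 := abs_nonneg g
  have hg1 := abs_le.mp (le_refl |g|)
  have hpi : ∀ u v : ℤ × ℤ, |u.1| ≤ L' + |g| → |v.1| ≤ L' + |g| → pN N u = pN N v → u = v :=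
    fun u v h1 h2 h3 => pN_inj (by omega) h1 h2 h3
  have hout : ∀ u ∈ RFb (0, 0) (L' + |g|), u ∉ RFb (0, 0) L → pN N u ∉ bxC N L := by
    intro u h1 h2
    rw [mem_RF0] at h1
    exact pN_notMem (M := L' + |g|) (by omega) (by omega) h2 (by omega) (by omega)
  have hcyl : ∀ u ∈ RFb (0, 0) (L' + |g|), u ∉ RFb (0, 0) L →
      pN N u ∈ cylF N (-(L' + |g| + 1)) (L' + |g| + 1) \ bxC N L := by
    intro u h1 h2
    refine Finset.mem_sdiff.mpr ⟨?_, hout u h1 h2⟩
    rw [mem_RF0] at h1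
    rw [mem_cylF]
    show -(L' + |g| + 1) ≤ u.2 ∧ u.2 < L' + |g| + 1
    omega
  have HM := HG (L' + |g| + 1) (by omega)
  have key := SimG.dbl (Q := Q) (A := A) (S := S)
    (φ := fun v => φ (pN N v)) (ψ := fun f => ψ (pN N f)) (up := up) (g₀ := g)
    (L := L) (L' := L') H.os (m := m) hs (by omega) hL' ?_ ?_ ?_ ?_ ?_ ?_ ?_
  · refine key.mono ?_ subset_rfl subset_rfl
    intro p hp
    rw [Finset.mem_coe, mem_cor2] at hp ⊢
    rcases hp with hp | ⟨w, hw, rfl⟩
    · exact Or.inl hp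
    · rw [wC_eq hL' (by omega)] at hw
      obtain ⟨u, hu, rfl⟩ := Finset.mem_image.mp hw
      exact Or.inr ⟨u, hu, rfl⟩
  · intro u hu v hv h
    exact hpi u v hu.1 hv.1 (hφ h)
  · intro u hu hn _ k
    have h1 := HM.chart.cor (pN N u) (hcyl u hu hn) k
    rw [add_zero] at h1
    rw [h1]
    show φ (corC N (pN N u) k) = φ (pN N (cor0 u k))
    rw [corC_pN]
  · intro u hu hn _
    exact HM.dj _ (hcyl u hu hn)
  · intro f hf k u hu hn l h
    have h1 : (CQ N).c (pN N u) l = pN N (ZQ.c u l) := corC_pN u l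
    have h2 := HM.nb f hf k (pN N u) (hcyl u hu hn) l (by rw [h1]; exact h)
    rw [h1] at h2
    obtain ⟨w, hw1, hw2, hw3⟩ := h2
    have h3 := cor0_le hu l
    have h4 := hpi _ w h3.1 (by omega) hw3
    rw [h4]
    exact ⟨hw1, hw2⟩
  · intro u hu hn hi
    exact H.out _ (hout u hu hn) hi
  · intro v h1 h2 h3
    constructor
    · rintro ⟨x, hx⟩
      rw [hm, ori_ends] at hx
      rcases hx with hx | hx
      · exact congrArg Prod.snd (hφ hx)
      · exact congrArg Prod.snd (hφ hx)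
    · intro hv
      refine ⟨(v.1 : ZMod N), ?_⟩
      rw [hm, ori_ends]
      left
      show φ (pN N v) = _
      unfold pN
      rw [hv]
  · rintro x ⟨f, ⟨hf, hfS⟩, k, hk⟩
    rw [hm] at hk
    have hends : ∃ k₁ k₂ : ZMod 4, Q.c f k₁ = φ (x, g) ∧ Q.c f k₂ = φ (x + 1, g) := by
      have e1 := congrArg Prod.fst hk
      have e2 := congrArg Prod.snd hk
      cases up
      · exact ⟨k + 1, k, e2.symm, e1.symm⟩
      · exact ⟨k, k + 1, e1.symm, e2.symm⟩
    obtain ⟨k₁, k₂, e1, e2⟩ := hends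
    have hgl := abs_lt.mp hg
    -- the face next to the side is in the box
    have hbx : ∀ y, (y = g ∨ y = g - 1) → ((x, y) : ZMod N × ℤ) ∈ bxC N L := by
      intro y hy
      by_contra hn
      have hM' : ((x, y) : ZMod N × ℤ) ∈ cylF N (-(L' + |g| + 1)) (L' + |g| + 1) \ bxC N L := by
        refine Finset.mem_sdiff.mpr ⟨?_, hn⟩
        rw [mem_cylF]
        show -(L' + |g| + 1) ≤ y ∧ y < L' + |g| + 1
        omega
      have hv : ((x, g) : ZMod N × ℤ) ∈ vb N L ∧ ((x + 1, g) : ZMod N × ℤ) ∈ vb N L := by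
        rcases hy with rfl | rfl
        · exact ⟨HM.nb f hf k₁ _ hM' 0 e1, HM.nb f hf k₂ _ hM' 1 e2⟩
        · have c3 : (CQ N).c ((x, g - 1) : ZMod N × ℤ) 3 = (x, g) :=
            Prod.ext rfl (by show g - 1 + 1 = g; ring)
          have c2 : (CQ N).c ((x, g - 1) : ZMod N × ℤ) 2 = (x + 1, g) :=
            Prod.ext rfl (by show g - 1 + 1 = g; ring)
          have h1 := HM.nb f hf k₁ _ hM' 3 (by rw [c3]; exact e1)
          have h2 := HM.nb f hf k₂ _ hM' 2 (by rw [c2]; exact e2)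
          rw [c3] at h1
          rw [c2] at h2
          exact ⟨h1, h2⟩
      obtain ⟨⟨u, hu1, hu2, hu3⟩, ⟨w, hw1, hw2, hw3⟩⟩ := hv
      have h4 : pN N (u.1 + 1, u.2) = pN N w := by
        rw [← hw3]
        have h5 := congrArg Prod.fst hu3
        have h6 := congrArg Prod.snd hu3
        unfold pN at h5 h6 ⊢
        simp only at h5 h6 ⊢
        push_cast
        rw [← h5, ← h6]
      have h7 := pN_inj (N := N) (L := L + 1) (by omega) (u := (u.1 + 1, u.2)) (u' := w)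
        (by rw [abs_le] at hu1 ⊢; simp only; omega) (by omega) h4
      apply hn
      rw [mem_bxC]
      have h8 : u.1 + 1 = w.1 := congrArg Prod.fst h7
      rw [abs_le] at hu1 hu2 hw1
      have h9 : u.2 = g := (congrArg Prod.snd hu3).symm
      refine ⟨(u.1, y), by simp only; omega, by simp only; omega, by simp only; omega,
        by simp only; omega, ?_⟩
      have h10 := congrArg Prod.fst hu3
      exact Prod.ext h10 rfl
    cases up
    · obtain ⟨u, h1, h2, h3, h4, h5⟩ := mem_bxC.mp (hbx (g - 1) (Or.inr rfl))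
      have h6 : x = (u.1 : ZMod N) := congrArg Prod.fst h5
      have h7 : g - 1 = u.2 := congrArg Prod.snd h5
      refine ⟨((u.1 + 1, g), (u.1, g)), ⟨(u.1, g - 1), ⟨?_, ?_⟩, 2, ?_⟩, ?_⟩
      · rw [mem_RF0]
        simp only
        omega
      · unfold inH
        simp
      · unfold sd
        change _ = (cor0 (u.1, g - 1) 2, cor0 (u.1, g - 1) (2 + 1))
        rw [show (2 : ZMod 4) + 1 = 3 by decide, cor0_2, cor0_3]
        simp
      · rw [hm]
        show (φ (x + 1, g), φ (x, g)) = (φ (pN N (u.1 + 1, g)), φ (pN N (u.1, g)))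
        unfold pN
        rw [h6]
        push_cast
        rfl
    · obtain ⟨u, h1, h2, h3, h4, h5⟩ := mem_bxC.mp (hbx g (Or.inl rfl))
      have h6 : x = (u.1 : ZMod N) := congrArg Prod.fst h5
      have h7 : g = u.2 := congrArg Prod.snd h5
      refine ⟨((u.1, g), (u.1 + 1, g)), ⟨(u.1, g), ⟨?_, ?_⟩, 0, ?_⟩, ?_⟩
      · rw [mem_RF0]
        simp only
        omega
      · unfold inH
        simp
      · unfold sd
        change _ = (cor0 (u.1, g) 0, cor0 (u.1, g) (0 + 1))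
        rw [zero_add, cor0_0, cor0_1]
      · rw [hm]
        show (φ (x, g), φ (x + 1, g)) = (φ (pN N (u.1, g)), φ (pN N (u.1 + 1, g)))
        unfold pN
        rw [h6]
        push_cast
        rfl

end DblN

end Pool.Agent.SixB
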