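import Pool.Agent.Lib.SixB.S3bCoreC
import Pool.Agent.Lib.SixB.S3HcsF

/-!
# The rotated environments and their halves are simulated by boxes

* `SEnv.TopOK.simRQ`: the rotated window; `simR`, `simL`: its halves along a column.
* `SEnv.TopOK.simU`, `simD`: the parts of a window above and below a row.
-/

set_option autoImplicit false
set_option linter.unusedSectionVars false

namespace Pool.Agent.SixB

open Pool.Agent.Perc Pool.Agent.Perc.Q
open Pool.Agent.SixB.Dbl Pool.Agent.SixB.Rel Pool.Agent.SixB.Hcs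

namespace SEnv

variable {E : SEnv} {L X Y : ℤ}

theorem preimage_rf0_box : rf0 ⁻¹' (RFb (0, 0) L : Set (ℤ × ℤ)) = (RFb (0, 0) L : Set (ℤ × ℤ)) := by
  ext f
  rw [Set.mem_preimage, Finset.mem_coe, Finset.mem_coe, mem_rf0]

/-- **The rotated window.** -/
theorem TopOK.simRQ (h : E.TopOK) (hB : InBx E L) :
    SimG (RQ E) ((Rel.win E L).F : Set VE) ZQ cv (RFb (0, 0) L : Set (ℤ × ℤ))
      (KbS ZQ (RFb (0, 0) L : Set (ℤ × ℤ))) := by
  have h1 := (h.simG hB).rot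
  rw [preimage_rf0_box] at h1
  exact h1

/-- **The right half.** -/
theorem TopOK.simR (h : E.TopOK) (H : LeftOf E X) (hB : InBx E L) :
    SimG (RQ E) {f | f ∈ (Rel.win E L).F ∧ f ∈ hR X} ZQ cv (hbox true X L)
      (KbS ZQ (hbox true X L)) := by
  have h1 := h.simH (J := ∅) (H := {f | X ≤ f.1}) (A := {f | f ∈ (Rel.win E L).F ∧ f ∈ hR X}) hB
    (by
      rintro ⟨s, f⟩ ⟨hf, h2, h3⟩
      simp only at h2 h3
      subst h2
      exact Or.inl ⟨f, ⟨EnvB.mem_F_none.mp hf, h3⟩, rfl⟩)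
    (fun i hi => absurd hi (Set.notMem_empty i)) (by
      intro f hf hs k g l _
      have h2 : X ≤ f.1 := hf
      have := H.sol f hs
      omega)
  have h2 := h1.rot
  have e : rf0 ⁻¹' {f : ℤ × ℤ | f ∈ RFb (0, 0) L ∧ f ∈ {f : ℤ × ℤ | X ≤ f.1}} = hbox true X L := by
    ext f
    show (rf0 f ∈ RFb (0, 0) L ∧ X ≤ f.2) ↔ (f ∈ RFb (0, 0) L ∧ inH true X f)
    rw [mem_rf0, inH_true]
  rw [e] at h2
  exact h2

theorem across_fst {f g : ℤ × ℤ} {k l : ZMod 4} (h : (sd ZQ f k).swap = sd ZQ g l) :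
    g.1 ≤ f.1 + 1 ∧ f.1 ≤ g.1 + 1 ∧ g.2 ≤ f.2 + 1 ∧ f.2 ≤ g.2 + 1 := by
  obtain ⟨x, y⟩ := f
  rcases k4_cases k with rfl | rfl | rfl | rfl
  · rw [sd_swap_0] at h
    obtain ⟨rfl, -⟩ := sd_inj h
    simp only
    omega
  · rw [sd_swap_1] at h
    obtain ⟨rfl, -⟩ := sd_inj h
    simp only
    omega
  · rw [sd_swap_2] at h
    obtain ⟨rfl, -⟩ := sd_inj h
    simp only
    omega
  · rw [sd_swap_3] at h
    obtain ⟨rfl, -⟩ := sd_inj h
    simp only
    omega

/-- **The left half.** -/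
theorem TopOK.simL (h : E.TopOK) (H : LeftOf E X) (hB : InBx E L) :
    SimG (RQ E) {f | f ∈ (Rel.win E L).F ∧ f ∈ hL E X} ZQ cv (hbox false X L)
      (KbS ZQ (hbox false X L)) := by
  have h1 := h.simH (J := Set.univ) (H := {f | f.1 < X})
    (A := {f | f ∈ (Rel.win E L).F ∧ f ∈ hL E X}) hB
    (by
      rintro ⟨s, f⟩ ⟨hf, h2⟩
      rcases h2 with ⟨h2, h3, -, -⟩ | ⟨h2, h3⟩ | ⟨h2, h3⟩
      · simp only at h2 h3
        subst h2
        exact Or.inl ⟨f, ⟨EnvB.mem_F_none.mp hf, h3⟩, rfl⟩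
      · simp only at h2 h3
        subst h2
        exact Or.inr (Set.mem_iUnion.2 ⟨true, Set.mem_iUnion.2 ⟨Set.mem_univ _, f, h3, rfl⟩⟩)
      · simp only at h2 h3
        subst h2
        exact Or.inr (Set.mem_iUnion.2 ⟨false, Set.mem_iUnion.2 ⟨Set.mem_univ _, f, h3, rfl⟩⟩))
    (by
      intro i _ f hf
      have h2 := H.sol f (tri_sol h hf)
      show f.1 < X
      omega) (by
      intro f _ hs k g l hfg
      have h2 := H.sol f hs
      have h3 := across_fst hfg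
      show g.1 < X
      omega)
  have h2 := h1.rot
  have e : rf0 ⁻¹' {f : ℤ × ℤ | f ∈ RFb (0, 0) L ∧ f ∈ {f : ℤ × ℤ | f.1 < X}} =
      hbox false X L := by
    ext f
    show (rf0 f ∈ RFb (0, 0) L ∧ f.2 < X) ↔ (f ∈ RFb (0, 0) L ∧ inH false X f)
    rw [mem_rf0, inH_false]
  rw [e] at h2
  exact h2

/-- **The part above a row.** -/
theorem TopOK.simU (h : E.TopOK) (hB : InBx E L) (hY : Y < E.gu.yc + E.gu.a)
    (hcut : ∀ f, E.Sol f → Y ≤ f.2 → Y < f.2) :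
    SimG E.Q {f | f ∈ (Rel.win E L).F ∧ ((f.1 = none ∧ Y ≤ f.2.2) ∨ f.1 = some true)} ZQ
      (Prod.mk none) (hbox true Y L) (KbS ZQ (hbox true Y L)) := by
  have h1 := h.simH (J := {true}) (H := {f | Y ≤ f.2})
    (A := {f | f ∈ (Rel.win E L).F ∧ ((f.1 = none ∧ Y ≤ f.2.2) ∨ f.1 = some true)}) hB
    (by
      rintro ⟨s, f⟩ ⟨hf, h2⟩
      rw [mem_F] at hf
      rcases h2 with ⟨h2, h3⟩ | h2
      · simp only at h2 h3
        subst h2
        rcases hf with ⟨-, h4⟩ | ⟨h4, -⟩ | ⟨h4, -⟩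
        · exact Or.inl ⟨f, ⟨h4, h3⟩, rfl⟩
        · exact absurd h4 (by simp)
        · exact absurd h4 (by simp)
      · simp only at h2
        subst h2
        rcases hf with ⟨h4, -⟩ | ⟨-, h4⟩ | ⟨h4, -⟩
        · exact absurd h4 (by simp)
        · exact Or.inr (Set.mem_iUnion.2 ⟨true, Set.mem_iUnion.2 ⟨rfl, f, h4, rfl⟩⟩)
        · exact absurd h4 (by simp))
    (by
      intro i hi f hf
      obtain rfl : i = true := hi
      have h2 : 0 ≤ f.2 - (E.gu.yc + E.gu.a) := hf.1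
      show Y ≤ f.2
      omega) (by
      intro f hf hs k g l hfg
      have h2 := hcut f hs hf
      have h3 := across_fst hfg
      show Y ≤ g.2
      omega)
  have e : {f : ℤ × ℤ | f ∈ RFb (0, 0) L ∧ f ∈ {f : ℤ × ℤ | Y ≤ f.2}} = hbox true Y L := by
    ext f
    show (f ∈ RFb (0, 0) L ∧ Y ≤ f.2) ↔ (f ∈ RFb (0, 0) L ∧ inH true Y f)
    rw [inH_true]
  rw [e] at h1
  exact h1

/-- **The part below a row.** -/
theorem TopOK.simD (h : E.TopOK) (hB : InBx E L) (hY : E.gd.yc - E.gd.a < Y)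
    (hcut : ∀ f, E.Sol f → f.2 < Y → f.2 + 1 < Y) :
    SimG E.Q {f | f ∈ (Rel.win E L).F ∧ ((f.1 = none ∧ f.2.2 < Y) ∨ f.1 = some false)} ZQ
      (Prod.mk none) (hbox false Y L) (KbS ZQ (hbox false Y L)) := by
  have h1 := h.simH (J := {false}) (H := {f | f.2 < Y})
    (A := {f | f ∈ (Rel.win E L).F ∧ ((f.1 = none ∧ f.2.2 < Y) ∨ f.1 = some false)}) hB
    (by
      rintro ⟨s, f⟩ ⟨hf, h2⟩
      rw [mem_F] at hf
      rcases h2 with ⟨h2, h3⟩ | h2
      · simp only at h2 h3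
        subst h2
        rcases hf with ⟨-, h4⟩ | ⟨h4, -⟩ | ⟨h4, -⟩
        · exact Or.inl ⟨f, ⟨h4, h3⟩, rfl⟩
        · exact absurd h4 (by simp)
        · exact absurd h4 (by simp)
      · simp only at h2
        subst h2
        rcases hf with ⟨h4, -⟩ | ⟨h4, -⟩ | ⟨-, h4⟩
        · exact absurd h4 (by simp)
        · exact absurd h4 (by simp)
        · exact Or.inr (Set.mem_iUnion.2 ⟨false, Set.mem_iUnion.2 ⟨rfl, f, h4, rfl⟩⟩))
    (by
      intro i hi f hf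
      obtain rfl : i = false := hi
      have h2 : 0 ≤ E.gd.yc - E.gd.a - 1 - f.2 := hf.1
      show f.2 < Y
      omega) (by
      intro f hf hs k g l hfg
      have h2 := hcut f hs hf
      have h3 := across_fst hfg
      show g.2 < Y
      omega)
  have e : {f : ℤ × ℤ | f ∈ RFb (0, 0) L ∧ f ∈ {f : ℤ × ℤ | f.2 < Y}} = hbox false Y L := by
    ext f
    show (f ∈ RFb (0, 0) L ∧ f.2 < Y) ↔ (f ∈ RFb (0, 0) L ∧ inH false Y f)
    rw [inH_false]
  rw [e] at h1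
  exact h1

end SEnv

theorem cv_inj : Function.Injective cv := fun _ _ h => rv0_inj (Prod.mk.inj h).2

/-- **The double of the left half of the rotated environment on the cylinder.** -/
theorem SEnv.TopOK.simDblL {E : SEnv} {L L' X : ℤ} {N : ℕ} [hN : Fact (3 ≤ N)] (h : E.TopOK)
    (HL : LeftOf E X) (hB : InBx E L) (H : GlueZ L (RQ E) (Rel.win E L).F cv cf (Rel.win E L).Z)
    (hL : 2 * (L + 1) < N) {O : Set (ZMod N × ℤ)}
    (hOS : OneSidedS (cyQ N H hL) (Cyh.cyS (Rel.win E L).F (Hcs.hL E X) false X O)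
      (Cyh.cyM VE N L X cv false (revFam (colF X))))
    (hO : ∀ u ∈ RFb (0, 0) (L' + |X|), pN N u ∉ bxC N L → inH false X (pN N u) → pN N u ∈ O)
    (hX : |X| < L) (hL' : L + |X| ≤ L') (hNL : 2 * (L' + |X|) + 1 < N) :
    SimG (dblS (cyQ N H hL) (Cyh.cyS (Rel.win E L).F (Hcs.hL E X) false X O)
        (Cyh.cyM VE N L X cv false (revFam (colF X))) hOS)
      (cor2 false X ((Rel.win E L).F.image Sum.inl) (Cyh.cyS (Rel.win E L).F (Hcs.hL E X) false X O)
        Sum.inr ((wZ false X L L').image (pN N)) : Set (CF VE N × Bool)) ZQ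
      (fun v => dblφ false X (glv VE N L cv) (Cyh.cyM VE N L X cv false (revFam (colF X))) (pN N v))
      (RFb (0, 0) L' : Set (ℤ × ℤ)) (KbS ZQ (RFb (0, 0) L' : Set (ℤ × ℤ))) := by
  refine SimG.dblC H hL (cyM_eq (by omega) hX.le ?_) hOS hO (h.simL HL hB) (cv_inj.injOn) hX hL' hNL
    ?_
  · intro x _ _
    unfold revFam
    rw [out_col]
    rfl
  · intro w hw
    obtain ⟨u, hu, rfl⟩ := Finset.mem_image.mp hw
    exact ⟨u, hu, rfl⟩

/-- **The double of the right half of the rotated environment on the cylinder.** -/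
theorem SEnv.TopOK.simDblR {E : SEnv} {L L' X : ℤ} {N : ℕ} [hN : Fact (3 ≤ N)] (h : E.TopOK)
    (HL : LeftOf E X) (hB : InBx E L) (H : GlueZ L (RQ E) (Rel.win E L).F cv cf (Rel.win E L).Z)
    (hL : 2 * (L + 1) < N) {O : Set (ZMod N × ℤ)}
    (hOS : OneSidedS (cyQ N H hL) (Cyh.cyS (Rel.win E L).F (hR X) true X O)
      (Cyh.cyM VE N L X cv true (colF X)))
    (hO : ∀ u ∈ RFb (0, 0) (L' + |X|), pN N u ∉ bxC N L → inH true X (pN N u) → pN N u ∈ O)
    (hX : |X| < L) (hL' : L + |X| ≤ L') (hNL : 2 * (L' + |X|) + 1 < N) :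
    SimG (dblS (cyQ N H hL) (Cyh.cyS (Rel.win E L).F (hR X) true X O)
        (Cyh.cyM VE N L X cv true (colF X)) hOS)
      (cor2 true X ((Rel.win E L).F.image Sum.inl) (Cyh.cyS (Rel.win E L).F (hR X) true X O)
        Sum.inr ((wZ true X L L').image (pN N)) : Set (CF VE N × Bool)) ZQ
      (fun v => dblφ true X (glv VE N L cv) (Cyh.cyM VE N L X cv true (colF X)) (pN N v))
      (RFb (0, 0) L' : Set (ℤ × ℤ)) (KbS ZQ (RFb (0, 0) L' : Set (ℤ × ℤ))) := by
  refine SimG.dblC H hL (cyM_eq (by omega) hX.le ?_) hOS hO (h.simR HL hB) (cv_inj.injOn) hX hL' hNL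
    ?_
  · intro x _ _
    rw [out_col]
    rfl
  · intro w hw
    obtain ⟨u, hu, rfl⟩ := Finset.mem_image.mp hw
    exact ⟨u, hu, rfl⟩

end Pool.Agent.SixB
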