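import Pool.Agent.Lib.SixB.S3bCoreF
import Pool.Agent.Lib.SixB.S3bCoreN
import Pool.Agent.Lib.SixB.S3SlabSurf
import Pool.Agent.Lib.SixB.S3SlbSurf
import Pool.Agent.Lib.SixB.S3bBox

/-!
# Halves of the slab surface on the cylinder, and turnings

* `SlabS.upS`, `SlabS.loS`, `SlabS.cutN`: the halves over the cylinder and the cut; `SlabS.half_up`, `SlabS.half_lo`;
  `SlabS.glueC_up`, `SlabS.glueC_lo`, `SlabS.faces_up`, `SlabS.faces_lo`: their doubles.
* `turns_surf`, `turns_dblN`: turnings of simulated cylinder surfaces and of their doubles.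
* `Slb.turnsN`, `Slb.turns_dblU`, `Slb.turns_dblD`: the surfaces of a slab.
-/

set_option autoImplicit false
set_option linter.unusedSectionVars false

namespace Pool.Agent.SixB

open Pool.Agent.Perc Pool.Agent.Perc.Q
open Pool.Agent.SixB.Dbl Pool.Agent.SixB.Rel Pool.Agent.SixB.Cyh

noncomputable section

namespace SlabS

variable {S : Type} [DecidableEq S] (E : SlabS S)

/-- the faces above the row `y₁` and the upper faces of the other sheets -/
def upS (N : ℕ) [Fact (3 ≤ N)] (X y₁ : ℤ) : Set (S × (ZMod N × ℤ)) :=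
  {f | ∃ M, f ∈ E.UN N X y₁ M}

/-- the faces below the row `y₀` and the lower faces of the other sheets -/
def loS (N : ℕ) [Fact (3 ≤ N)] (Y y₀ : ℤ) : Set (S × (ZMod N × ℤ)) :=
  {f | ∃ M, f ∈ E.LN N Y M y₀}

/-- the sides of the row `y` -/
def cutN (N : ℕ) [Fact (3 ≤ N)] (y : ℤ) (x : ZMod N) :
    (S × (ZMod N × ℤ)) × (S × (ZMod N × ℤ)) :=
  Prod.map (Prod.mk E.s0) (Prod.mk E.s0) (bE x y)

variable {E} {y₀ y₁ L X Y M : ℤ} {N : ℕ} [hN : Fact (3 ≤ N)]

theorem mem_upS {f : S × (ZMod N × ℤ)} : f ∈ E.upS N X y₁ ↔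
    (f.1 = E.s0 ∧ y₁ ≤ f.2.2 ∧ ∀ g ∈ E.Hu, pN N (shv X g) ≠ f.2) ∨
      ∃ f' ∈ E.Ku, Surf.chi S N (f'.1, shv X f'.2) = f := by
  unfold upS
  rw [Set.mem_ofPred_eq]
  simp only [mem_UN, mem_cylF]
  constructor
  · rintro ⟨M, ⟨h1, h2, h3⟩ | h⟩
    · exact Or.inl ⟨h1, h2.1, h3⟩
    · exact Or.inr h
  · rintro (⟨h1, h2, h3⟩ | h)
    · exact ⟨f.2.2 + 1, Or.inl ⟨h1, ⟨h2, by omega⟩, h3⟩⟩
    · exact ⟨0, Or.inr h⟩

theorem mem_loS {f : S × (ZMod N × ℤ)} : f ∈ E.loS N Y y₀ ↔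
    (f.1 = E.s0 ∧ f.2.2 < y₀ ∧ ∀ g ∈ E.Hl, pN N (shv Y g) ≠ f.2) ∨
      ∃ f' ∈ E.Kl, Surf.chi S N (f'.1, shv Y f'.2) = f := by
  unfold loS
  rw [Set.mem_ofPred_eq]
  simp only [mem_LN, mem_cylF]
  constructor
  · rintro ⟨M, ⟨h1, h2, h3⟩ | h⟩
    · exact Or.inl ⟨h1, h2.2, h3⟩
    · exact Or.inr h
  · rintro (⟨h1, h2, h3⟩ | h)
    · exact ⟨-f.2.2, Or.inl ⟨h1, ⟨by omega, h2⟩, h3⟩⟩
    · exact ⟨0, Or.inr h⟩

theorem onCut_cutN {y : ℤ} {v : S × (ZMod N × ℤ)} :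
    onCut (E.cutN N y) v ↔ v.1 = E.s0 ∧ v.2.2 = y := by
  constructor
  · rintro ⟨x, rfl | rfl⟩
    · exact ⟨rfl, rfl⟩
    · exact ⟨rfl, rfl⟩
  · rintro ⟨h1, h2⟩
    refine ⟨v.2.1, Or.inl ?_⟩
    obtain ⟨s, x, y'⟩ := v
    simp only at h1 h2
    subst h1 h2
    rfl

theorem fam_cutN (y : ℤ) : Fam (E.cutN N y) := by
  constructor
  · intro i j h
    have h1 := congrArg (fun z => z.1.2.1) h
    exact h1
  · intro i j h
    have h1 : i = j + 1 := congrArg (fun z => z.1.2.1) h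
    have h2 : i + 1 = j := congrArg (fun z => z.2.2.1) h
    have h3 : (2 : ZMod N) = 0 := by
      have : i + 1 = j + 1 + 1 := by rw [h1]
      rw [h2] at this
      have h4 : j + 0 = j + (1 + 1) := by rw [add_zero, ← add_assoc]; exact this
      have h5 := add_left_cancel h4
      rw [h5]
      norm_num
    have h4 : ((2 : ℕ) : ZMod N) = 0 := by exact_mod_cast h3
    rw [ZMod.natCast_eq_zero_iff] at h4
    have h5 := Nat.le_of_dvd (by norm_num) h4
    have h6 := hN.out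
    omega

/-- a row of base faces -/
theorem cN_row (hE : E.Ok y₀ y₁) (hI : (E.sf X Y).In L) {g : ZMod N × ℤ} (h0 : y₀ - 1 ≤ g.2)
    (h1 : g.2 ≤ y₁) (k : ZMod 4) :
    ((E.sf X Y).QN N).c (E.s0, g) k = (E.s0, (CQ N).c g k) := by
  refine c_base hI (f := (E.s0, g)) rfl (fun g' hg' e => ?_) (fun g' hg' e => ?_) k
  · have h5 := hE.Hu _ hg'
    have h6 : g'.2 = g.2 := congrArg Prod.snd e
    omega
  · have h5 := hE.Hl _ hg'
    have h6 : g'.2 = g.2 := congrArg Prod.snd e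
    omega

theorem row_upS (hE : E.Ok y₀ y₁) (x : ZMod N) : (E.s0, (x, y₁)) ∈ E.upS N X y₁ := by
  refine mem_upS.mpr (Or.inl ⟨rfl, le_rfl, fun g' hg' e => ?_⟩)
  have h5 := hE.Hu _ hg'
  have h6 : g'.2 = y₁ := congrArg Prod.snd e
  omega

theorem row_loS (hE : E.Ok y₀ y₁) (x : ZMod N) : (E.s0, (x, y₀ - 1)) ∈ E.loS N Y y₀ := by
  refine mem_loS.mpr (Or.inl ⟨rfl, by simp only; omega, fun g' hg' e => ?_⟩)
  have h5 := hE.Hl _ hg'
  have h6 : g'.2 = y₀ - 1 := congrArg Prod.snd e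
  omega

/-- **The upper half.** -/
theorem os_up (hE : E.Ok y₀ y₁) (hI : (E.sf X Y).In L) (hN' : 2 * L < N) :
    OneSidedS ((E.sf X Y).QN N) (E.upS N X y₁) (E.cutN N y₁) where
  fam := fam_cutN y₁
  into x := by
    have hlt := hE.hlt
    refine ⟨_, row_upS hE x, 0, ?_⟩
    unfold sd
    rw [cN_row hE hI (by simp only; omega) le_rfl, cN_row hE hI (by simp only; omega) le_rfl]
    rfl
  only f hf k h1 h2 := by
    have hlt := hE.hlt
    obtain ⟨M, hM⟩ := hf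
    obtain ⟨h3, h4⟩ := onCut_cutN.mp h1
    obtain ⟨h5, h6⟩ := onCut_cutN.mp h2
    rcases mem_UN.mp hM with ⟨h7, h8, h9⟩ | ⟨f', hf', rfl⟩
    · have h10 := mem_cylF.mp h8
      obtain ⟨s, g⟩ := f
      simp only at h7 h8 h9 h10
      subst h7
      have hc : ∀ k, ((E.sf X Y).QN N).c (E.s0, g) k = (E.s0, (CQ N).c g k) := fun k =>
        c_base hI (f := (E.s0, g)) rfl h9 (fun g' hg' e => by
          have h5 := hE.Hl _ hg'
          have h6 : g'.2 = g.2 := congrArg Prod.snd e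
          omega) k
      rw [hc] at h4 h6
      change ((CQ N).c g k).2 = y₁ at h4
      change ((CQ N).c g (k + 1)).2 = y₁ at h6
      have h11 : k = 0 ∧ g.2 = y₁ := by
        rcases k4_cases k with rfl | rfl | rfl | rfl
        · exact ⟨rfl, h4⟩
        · exfalso
          have h11 : g.2 + 1 = y₁ := h6
          omega
        · exfalso
          have h11 : g.2 + 1 = y₁ := h4
          omega
        · exfalso
          have h11 : g.2 + 1 = y₁ := h4
          omega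
      obtain ⟨rfl, h12⟩ := h11
      refine ⟨g.1, ?_⟩
      unfold sd
      rw [hc, hc, ← h12]
      rfl
    · exfalso
      rw [c_Ku hE hI hN' hf'] at h3 h4
      have h7 := hE.cu f' hf' k h3
      change (ZQ.c f'.2 k).2 = y₁ at h4
      omega

/-- **The lower half.** -/
theorem os_lo (hE : E.Ok y₀ y₁) (hI : (E.sf X Y).In L) (hN' : 2 * L < N) :
    OneSidedS ((E.sf X Y).QN N) (E.loS N Y y₀) (revFam (E.cutN N y₀)) where
  fam := Hcs.fam_rev (fam_cutN y₀)
  into x := by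
    have hlt := hE.hlt
    refine ⟨_, row_loS hE x, 2, ?_⟩
    unfold sd
    rw [cN_row hE hI (by simp only; omega) (by simp only; omega),
      cN_row hE hI (by simp only; omega) (by simp only; omega)]
    have e : ((CQ N).c (x, y₀ - 1) 2, (CQ N).c (x, y₀ - 1) (2 + 1)) =
        ((x + 1, y₀ - 1 + 1), (x, y₀ - 1 + 1)) := rfl
    obtain ⟨e1, e2⟩ := Prod.mk.inj e
    rw [e1, e2, sub_add_cancel]
    rfl
  only f hf k h1 h2 := by
    have hlt := hE.hlt
    rw [Hcs.onCut_rev] at h1 h2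
    obtain ⟨M, hM⟩ := hf
    obtain ⟨h3, h4⟩ := onCut_cutN.mp h1
    obtain ⟨h5, h6⟩ := onCut_cutN.mp h2
    rcases mem_LN.mp hM with ⟨h7, h8, h9⟩ | ⟨f', hf', rfl⟩
    · have h10 := mem_cylF.mp h8
      obtain ⟨s, g⟩ := f
      simp only at h7 h8 h9 h10
      subst h7
      have hc : ∀ k, ((E.sf X Y).QN N).c (E.s0, g) k = (E.s0, (CQ N).c g k) := fun k =>
        c_base hI (f := (E.s0, g)) rfl (fun g' hg' e => by
          have h5 := hE.Hu _ hg'
          have h6 : g'.2 = g.2 := congrArg Prod.snd e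
          omega) h9 k
      rw [hc] at h4 h6
      change ((CQ N).c g k).2 = y₀ at h4
      change ((CQ N).c g (k + 1)).2 = y₀ at h6
      have h11 : k = 2 ∧ g.2 + 1 = y₀ := by
        rcases k4_cases k with rfl | rfl | rfl | rfl
        · exfalso
          have h11 : g.2 = y₀ := h4
          omega
        · exfalso
          have h11 : g.2 = y₀ := h4
          omega
        · exact ⟨rfl, h4⟩
        · exfalso
          have h11 : g.2 = y₀ := h6
          omega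
      obtain ⟨rfl, h12⟩ := h11
      refine ⟨g.1, ?_⟩
      unfold sd
      rw [hc, hc, ← h12]
      rfl
    · exfalso
      rw [c_Kl hE hI hN' hf'] at h3 h4
      have h7 := hE.cl f' hf' k h3
      change (ZQ.c f'.2 k).2 = y₀ at h4
      omega

theorem H_bxC (hI : (E.sf X Y).In L) {g : ℤ × ℤ} (hg : g ∈ (E.sf X Y).H) : pN N g ∈ bxC N L :=
  Finset.mem_image_of_mem _ (RF0_mono (by omega) (hI.H g hg))

theorem Hu_bxC (hI : (E.sf X Y).In L) {g : ℤ × ℤ} (hg : g ∈ E.Hu) : pN N (shv X g) ∈ bxC N L :=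
  H_bxC hI (Finset.mem_union_left _ (Finset.mem_image_of_mem _ hg))

theorem Hl_bxC (hI : (E.sf X Y).In L) {g : ℤ × ℤ} (hg : g ∈ E.Hl) : pN N (shv Y g) ∈ bxC N L :=
  H_bxC hI (Finset.mem_union_right _ (Finset.mem_image_of_mem _ hg))

/-- the upper half is in the core and the outer part -/
theorem upS_core (hE : E.Ok y₀ y₁) {f : S × (ZMod N × ℤ)} (hf : f ∈ E.upS N X y₁) :
    f ∈ (E.sf X Y).coreN N L ∨ ∃ g ∈ {g : ZMod N × ℤ | g ∉ bxC N L}, inH true y₁ g ∧
      f = (E.s0, g) := by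
  have hlt := hE.hlt
  rcases mem_upS.mp hf with ⟨h1, h2, h3⟩ | ⟨f', hf', rfl⟩
  · by_cases hb : f.2 ∈ bxC N L
    · left
      obtain ⟨u, hu, e⟩ := Finset.mem_image.mp hb
      refine Finset.mem_image.mpr ⟨(E.s0, u), Surf.mem_core.mpr (Or.inl ⟨rfl, hu, fun h => ?_⟩),
        Prod.ext h1.symm e⟩
      rcases Finset.mem_union.mp h with h | h
      · obtain ⟨g', hg', rfl⟩ := Finset.mem_image.mp h
        exact h3 g' hg' e
      · obtain ⟨g', hg', rfl⟩ := Finset.mem_image.mp h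
        have h5 := hE.Hl _ hg'
        have h6 : g'.2 = f.2.2 := congrArg Prod.snd e
        omega
    · right
      refine ⟨f.2, hb, ?_, Prod.ext h1 rfl⟩
      unfold inH
      simp [h2]
  · left
    exact Finset.mem_image.mpr ⟨(f'.1, shv X f'.2), Surf.mem_core.mpr (Or.inr
      (Finset.mem_union_left _ (Finset.mem_image_of_mem (Prod.map id (shv X)) hf'))), rfl⟩

theorem loS_core (hE : E.Ok y₀ y₁) {f : S × (ZMod N × ℤ)} (hf : f ∈ E.loS N Y y₀) :
    f ∈ (E.sf X Y).coreN N L ∨ ∃ g ∈ {g : ZMod N × ℤ | g ∉ bxC N L}, inH false y₀ g ∧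
      f = (E.s0, g) := by
  have hlt := hE.hlt
  rcases mem_loS.mp hf with ⟨h1, h2, h3⟩ | ⟨f', hf', rfl⟩
  · by_cases hb : f.2 ∈ bxC N L
    · left
      obtain ⟨u, hu, e⟩ := Finset.mem_image.mp hb
      refine Finset.mem_image.mpr ⟨(E.s0, u), Surf.mem_core.mpr (Or.inl ⟨rfl, hu, fun h => ?_⟩),
        Prod.ext h1.symm e⟩
      rcases Finset.mem_union.mp h with h | h
      · obtain ⟨g', hg', rfl⟩ := Finset.mem_image.mp h
        have h5 := hE.Hu _ hg'
        have h6 : g'.2 = f.2.2 := congrArg Prod.snd e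
        omega
      · obtain ⟨g', hg', rfl⟩ := Finset.mem_image.mp h
        exact h3 g' hg' e
    · right
      refine ⟨f.2, hb, ?_, Prod.ext h1 rfl⟩
      unfold inH
      simp [h2]
  · left
    exact Finset.mem_image.mpr ⟨(f'.1, shv Y f'.2), Surf.mem_core.mpr (Or.inr
      (Finset.mem_union_right _ (Finset.mem_image_of_mem (Prod.map id (shv Y)) hf'))), rfl⟩

theorem upS_out (hI : (E.sf X Y).In L) {g : ZMod N × ℤ} (hg : g ∉ bxC N L) (h : y₁ ≤ g.2) :
    (E.s0, g) ∈ E.upS N X y₁ :=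
  mem_upS.mpr (Or.inl ⟨rfl, h, fun g' hg' e => hg (by
    have e' : pN N (shv X g') = g := e
    rw [← e']
    exact Hu_bxC hI hg')⟩)

theorem loS_out (hI : (E.sf X Y).In L) {g : ZMod N × ℤ} (hg : g ∉ bxC N L) (h : g.2 < y₀) :
    (E.s0, g) ∈ E.loS N Y y₀ :=
  mem_loS.mpr (Or.inl ⟨rfl, h, fun g' hg' e => hg (by
    have e' : pN N (shv Y g') = g := e
    rw [← e']
    exact Hl_bxC hI hg')⟩)

/-- **The upper half.** -/
theorem half_up (hE : E.Ok y₀ y₁) (hI : (E.sf X Y).In L) (hN' : 2 * L < N) :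
    HalfS true y₁ (CQ N) {g | g ∉ bxC N L} ((E.sf X Y).QN N) ((E.sf X Y).coreN N L)
      (Prod.mk E.s0) (Prod.mk E.s0) (E.upS N X y₁) (E.cutN N y₁) where
  os := os_up hE hI hN'
  mem f hf := upS_core hE hf
  out g hg h := upS_out hI hg (by unfold inH at h; simpa using h)
  cut g _ _ l := by
    rw [onCut_cutN]
    simp

/-- **The lower half.** -/
theorem half_lo (hE : E.Ok y₀ y₁) (hI : (E.sf X Y).In L) (hN' : 2 * L < N) :
    HalfS false y₀ (CQ N) {g | g ∉ bxC N L} ((E.sf X Y).QN N) ((E.sf X Y).coreN N L)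
      (Prod.mk E.s0) (Prod.mk E.s0) (E.loS N Y y₀) (revFam (E.cutN N y₀)) where
  os := os_lo hE hI hN'
  mem f hf := loS_core hE hf
  out g hg h := loS_out hI hg (by unfold inH at h; simpa using h)
  cut g _ _ l := by
    rw [Hcs.onCut_rev, onCut_cutN]
    simp

/-- the slab, as a set -/
abbrev midS (E : SlabS S) (N : ℕ) [Fact (3 ≤ N)] (y₀ y₁ : ℤ) : Set (S × (ZMod N × ℤ)) :=
  (E.SN N y₀ y₁ : Set (S × (ZMod N × ℤ)))

/-- a face of the core -/
theorem core_cov (hE : E.Ok y₀ y₁) (hI : (E.sf X Y).In L) (hN' : 2 * L < N)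
    {f : S × (ZMod N × ℤ)} (hf : f ∈ (E.sf X Y).coreN N L) :
    f ∈ E.loS N Y y₀ ∨ f ∈ E.midS N y₀ y₁ ∨ f ∈ E.upS N X y₁ := by
  have h0 := neg_abs_le y₀
  have h1 := le_abs_self y₁
  have h2 := abs_nonneg y₁
  have h3 := abs_nonneg y₀
  have h4 := hI.pos
  have h5 : f ∈ (E.sf X Y).FN N (L + |y₀| + |y₁|) := by
    rw [← Surf.FN_eq hI (by omega) hN']
    exact Finset.mem_union_left _ hf
  rw [FN_split hE (by omega) (by omega)] at h5
  rcases Finset.mem_union.mp h5 with h5 | h5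
  · rcases Finset.mem_union.mp h5 with h5 | h5
    · exact Or.inl ⟨_, h5⟩
    · exact Or.inr (Or.inl (Finset.mem_coe.mpr h5))
  · exact Or.inr (Or.inr ⟨_, h5⟩)

theorem sep_LU (hE : E.Ok y₀ y₁) (hI : (E.sf X Y).In L) (hN' : 2 * L < N)
    {f f' : S × (ZMod N × ℤ)} (hf : f ∈ E.upS N X y₁) (hf' : f' ∈ E.loS N Y y₀) {k l : ZMod 4}
    (h : ((E.sf X Y).QN N).c f k = ((E.sf X Y).QN N).c f' l) : False := by
  obtain ⟨M, hM⟩ := hf
  obtain ⟨M', hM'⟩ := hf'
  have h1 : f ∈ E.UN N X y₁ (max M M') := by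
    rcases mem_UN.mp hM with ⟨h1, h2, h3⟩ | h1
    · refine mem_UN.mpr (Or.inl ⟨h1, ?_, h3⟩)
      rw [mem_cylF] at h2 ⊢
      omega
    · exact mem_UN.mpr (Or.inr h1)
  have h2 : f' ∈ E.LN N Y (max M M') y₀ := by
    rcases mem_LN.mp hM' with ⟨h1, h2, h3⟩ | h1
    · refine mem_LN.mpr (Or.inl ⟨h1, ?_, h3⟩)
      rw [mem_cylF] at h2 ⊢
      omega
    · exact mem_LN.mpr (Or.inr h1)
  exact cor_LU hE hI hN' h2 h1 l k h.symm

theorem mid_c (hE : E.Ok y₀ y₁) (hI : (E.sf X Y).In L) {f : S × (ZMod N × ℤ)}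
    (hf : f ∈ E.midS N y₀ y₁) (k : ZMod 4) : (((E.sf X Y).QN N).c f k).1 = E.s0 ∧
      y₀ ≤ (((E.sf X Y).QN N).c f k).2.2 ∧ (((E.sf X Y).QN N).c f k).2.2 ≤ y₁ := by
  obtain ⟨h1, h2⟩ := mem_SN.mp (Finset.mem_coe.mp hf)
  have h3 := mem_cylF.mp h2
  obtain ⟨s, g⟩ := f
  simp only at h1 h3
  subst h1
  rw [cN_row hE hI (by omega) (by omega)]
  refine ⟨rfl, ?_⟩
  show y₀ ≤ ((CQ N).c g k).2 ∧ ((CQ N).c g k).2 ≤ y₁
  rcases GlueC.corner_y g k with h5 | h5 <;> rw [h5] <;> omega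

theorem sep_up (hE : E.Ok y₀ y₁) (hI : (E.sf X Y).In L) (hN' : 2 * L < N) :
    ∀ f ∈ E.upS N X y₁, ∀ f' ∈ E.loS N Y y₀ ∪ E.midS N y₀ y₁, ∀ k l,
      ((E.sf X Y).QN N).c f k = ((E.sf X Y).QN N).c f' l →
        onCut (E.cutN N y₁) (((E.sf X Y).QN N).c f k) := by
  rintro f hf f' (hf' | hf') k l h
  · exact absurd h fun h => sep_LU hE hI hN' hf hf' h
  · obtain ⟨M, hM⟩ := hf
    have h1 := mid_c hE hI hf' l
    have h2 := (cor_U hE hI hN' hM k).1
    rw [h] at h2 ⊢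
    rw [onCut_cutN]
    have h3 := h2 h1.1
    exact ⟨h1.1, by omega⟩

theorem sep_lo (hE : E.Ok y₀ y₁) (hI : (E.sf X Y).In L) (hN' : 2 * L < N) :
    ∀ f ∈ E.loS N Y y₀, ∀ f' ∈ E.midS N y₀ y₁ ∪ E.upS N X y₁, ∀ k l,
      ((E.sf X Y).QN N).c f k = ((E.sf X Y).QN N).c f' l →
        onCut (revFam (E.cutN N y₀)) (((E.sf X Y).QN N).c f k) := by
  rintro f hf f' (hf' | hf') k l h
  · obtain ⟨M, hM⟩ := hf
    have h1 := mid_c hE hI hf' l
    have h2 := (cor_L hE hI hN' hM k).1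
    rw [h] at h2 ⊢
    rw [Hcs.onCut_rev, onCut_cutN]
    have h3 := h2 h1.1
    exact ⟨h1.1, by omega⟩
  · exact absurd h.symm fun h => sep_LU hE hI hN' hf' hf h

/-- **The double of the upper half is a cylinder surface.** -/
theorem glueC_up (hE : E.Ok y₀ y₁) (hI : (E.sf X Y).In L) (hN' : 2 * L < N)
    {P : Finset ((S × (ZMod N × ℤ)) × (S × (ZMod N × ℤ)))} (HG : ∀ M, L < M →
      GlueC N M L ((E.sf X Y).QN N) ((E.sf X Y).coreN N L) (Prod.mk E.s0) (Prod.mk E.s0) P)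
    {L' : ℤ} (hL : L + |y₁| ≤ L') (hM : L' + |y₁| < M) :
    GlueC N (dM true M y₁) L' (dblS ((E.sf X Y).QN N) (E.upS N X y₁) (E.cutN N y₁)
        (os_up hE hI hN'))
      (cor2 true y₁ ((E.sf X Y).coreN N L) (E.upS N X y₁) (Prod.mk E.s0) (wC N true y₁ L L'))
      (dblφ true y₁ (Prod.mk E.s0) (E.cutN N y₁)) (dblψ true y₁ (Prod.mk E.s0))
      (isl2 ((E.sf X Y).QN N) ((E.sf X Y).coreN N L) (E.upS N X y₁) (E.cutN N y₁) P) :=
  glueC_dbl HG (half_up hE hI hN') (S' := E.loS N Y y₀ ∪ E.midS N y₀ y₁)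
    (fun f hf => by
      rcases core_cov hE hI hN' hf with h | h | h
      · exact Or.inr (Or.inl h)
      · exact Or.inr (Or.inr h)
      · exact Or.inl h)
    (fun g hg h => by
      have h1 : g.2 < y₁ := by unfold inH at h; simpa using h
      rcases lt_or_ge g.2 y₀ with h2 | h2
      · exact Or.inl (loS_out hI hg h2)
      · exact Or.inr (Finset.mem_coe.mpr (mem_SN.mpr ⟨rfl, mem_cylF.mpr ⟨h2, h1⟩⟩)))
    (sep_up hE hI hN') hL hM hI.pos.le

/-- **The double of the lower half is a cylinder surface.** -/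
theorem glueC_lo (hE : E.Ok y₀ y₁) (hI : (E.sf X Y).In L) (hN' : 2 * L < N)
    {P : Finset ((S × (ZMod N × ℤ)) × (S × (ZMod N × ℤ)))} (HG : ∀ M, L < M →
      GlueC N M L ((E.sf X Y).QN N) ((E.sf X Y).coreN N L) (Prod.mk E.s0) (Prod.mk E.s0) P)
    {L' : ℤ} (hL : L + |y₀| ≤ L') (hM : L' + |y₀| < M) :
    GlueC N (dM false M y₀) L' (dblS ((E.sf X Y).QN N) (E.loS N Y y₀) (revFam (E.cutN N y₀))
        (os_lo hE hI hN'))
      (cor2 false y₀ ((E.sf X Y).coreN N L) (E.loS N Y y₀) (Prod.mk E.s0) (wC N false y₀ L L'))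
      (dblφ false y₀ (Prod.mk E.s0) (revFam (E.cutN N y₀))) (dblψ false y₀ (Prod.mk E.s0))
      (isl2 ((E.sf X Y).QN N) ((E.sf X Y).coreN N L) (E.loS N Y y₀) (revFam (E.cutN N y₀)) P) :=
  glueC_dbl HG (half_lo hE hI hN') (S' := E.midS N y₀ y₁ ∪ E.upS N X y₁)
    (fun f hf => by
      rcases core_cov hE hI hN' hf with h | h | h
      · exact Or.inl h
      · exact Or.inr (Or.inl h)
      · exact Or.inr (Or.inr h))
    (fun g hg h => by
      have h1 : y₀ ≤ g.2 := by unfold inH at h; simpa using h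
      rcases lt_or_ge g.2 y₁ with h2 | h2
      · exact Or.inl (Finset.mem_coe.mpr (mem_SN.mpr ⟨rfl, mem_cylF.mpr ⟨h1, h2⟩⟩))
      · exact Or.inr (upS_out hI hg h2))
    (sep_lo hE hI hN') hL hM hI.pos.le

theorem corS_up (hE : E.Ok y₀ y₁) (h0 : -M ≤ y₀) (h1 : y₁ ≤ M) :
    corS ((E.sf X Y).FN N M) (E.upS N X y₁) = E.UN N X y₁ M := by
  have hlt := hE.hlt
  ext f
  rw [mem_corS]
  constructor
  · rintro ⟨h2, h3⟩
    rcases mem_upS.mp h3 with ⟨h4, h5, h6⟩ | h4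
    · rcases Surf.mem_FN.mp h2 with ⟨-, h7, -⟩ | ⟨f', hf', rfl⟩
      · refine mem_UN.mpr (Or.inl ⟨h4, ?_, h6⟩)
        rw [mem_cylF] at h7 ⊢
        exact ⟨h5, h7.2⟩
      · exfalso
        change f'.1 = E.s0 at h4
        rcases Finset.mem_union.mp hf' with h | h
        · obtain ⟨u, hu, rfl⟩ := Finset.mem_image.mp h
          exact hE.K0u _ hu h4
        · obtain ⟨u, hu, rfl⟩ := Finset.mem_image.mp h
          exact hE.K0l _ hu h4
    · exact mem_UN.mpr (Or.inr h4)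
  · intro h2
    refine ⟨?_, M, h2⟩
    rw [FN_split hE h0 h1]
    exact Finset.mem_union_right _ h2

theorem corS_lo (hE : E.Ok y₀ y₁) (h0 : -M ≤ y₀) (h1 : y₁ ≤ M) :
    corS ((E.sf X Y).FN N M) (E.loS N Y y₀) = E.LN N Y M y₀ := by
  have hlt := hE.hlt
  ext f
  rw [mem_corS]
  constructor
  · rintro ⟨h2, h3⟩
    rcases mem_loS.mp h3 with ⟨h4, h5, h6⟩ | h4
    · rcases Surf.mem_FN.mp h2 with ⟨-, h7, -⟩ | ⟨f', hf', rfl⟩
      · refine mem_LN.mpr (Or.inl ⟨h4, ?_, h6⟩)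
        rw [mem_cylF] at h7 ⊢
        exact ⟨h7.1, h5⟩
      · exfalso
        change f'.1 = E.s0 at h4
        rcases Finset.mem_union.mp hf' with h | h
        · obtain ⟨u, hu, rfl⟩ := Finset.mem_image.mp h
          exact hE.K0u _ hu h4
        · obtain ⟨u, hu, rfl⟩ := Finset.mem_image.mp h
          exact hE.K0l _ hu h4
    · exact mem_LN.mpr (Or.inr h4)
  · intro h2
    refine ⟨?_, M, h2⟩
    rw [FN_split hE h0 h1]
    exact Finset.mem_union_left _ (Finset.mem_union_left _ h2)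

/-- **The faces of the double of the upper half.** -/
theorem faces_up (hE : E.Ok y₀ y₁) (hI : (E.sf X Y).In L) (hN' : 2 * L < N)
    {P : Finset ((S × (ZMod N × ℤ)) × (S × (ZMod N × ℤ)))} (HG : ∀ M, L < M →
      GlueC N M L ((E.sf X Y).QN N) ((E.sf X Y).coreN N L) (Prod.mk E.s0) (Prod.mk E.s0) P)
    {L' : ℤ} (hL : L + |y₁| ≤ L') (hM : L' + |y₁| ≤ M) (h0 : -M ≤ y₀) :
    cor2 true y₁ ((E.sf X Y).coreN N L) (E.upS N X y₁) (Prod.mk E.s0) (wC N true y₁ L L') ∪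
        (cylF N (-(dM true M y₁)) (dM true M y₁) \ bxC N L').image (dblψ true y₁ (Prod.mk E.s0)) =
      cpy (E.UN N X y₁ M) false ∪ cpy (E.UN N X y₁ M) true := by
  have h1 := abs_nonneg y₁
  have h2 := le_abs_self y₁
  have h3 := hI.pos
  have e : (E.sf X Y).coreN N L ∪ (cylF N (-M) M \ bxC N L).image (Prod.mk E.s0) =
      (E.sf X Y).FN N M := Surf.FN_eq hI (by omega) hN'
  rw [Dbl.faces_dbl HG (half_up hE hI hN') hL hM hI.pos.le, e, corS_up hE h0 (by omega)]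

/-- **The faces of the double of the lower half.** -/
theorem faces_lo (hE : E.Ok y₀ y₁) (hI : (E.sf X Y).In L) (hN' : 2 * L < N)
    {P : Finset ((S × (ZMod N × ℤ)) × (S × (ZMod N × ℤ)))} (HG : ∀ M, L < M →
      GlueC N M L ((E.sf X Y).QN N) ((E.sf X Y).coreN N L) (Prod.mk E.s0) (Prod.mk E.s0) P)
    {L' : ℤ} (hL : L + |y₀| ≤ L') (hM : L' + |y₀| ≤ M) (h1 : y₁ ≤ M) :
    cor2 false y₀ ((E.sf X Y).coreN N L) (E.loS N Y y₀) (Prod.mk E.s0) (wC N false y₀ L L') ∪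
        (cylF N (-(dM false M y₀)) (dM false M y₀) \ bxC N L').image
          (dblψ false y₀ (Prod.mk E.s0)) =
      cpy (E.LN N Y M y₀) false ∪ cpy (E.LN N Y M y₀) true := by
  have h0 := abs_nonneg y₀
  have h2 := neg_abs_le y₀
  have h3 := hI.pos
  have e : (E.sf X Y).coreN N L ∪ (cylF N (-M) M \ bxC N L).image (Prod.mk E.s0) =
      (E.sf X Y).FN N M := Surf.FN_eq hI (by omega) hN'
  rw [Dbl.faces_dbl HG (half_lo hE hI hN') hL hM hI.pos.le, e, corS_lo hE (by omega) h1]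

end SlabS

section Gen

variable {V Φ : Type} [DecidableEq V] [DecidableEq Φ]
variable {Q : QC V Φ} {A : Finset Φ} {L g L' M : ℤ} {N : ℕ} [hN : Fact (3 ≤ N)]
  {φ : ZMod N × ℤ → V} {ψ : ZMod N × ℤ → Φ} {P : Finset (V × V)} {up : Bool} {S S' : Set Φ}
  {m : ZMod N → V × V}

/-- **Turnings of the double of one half of a cylinder surface.** -/
theorem turns_dblN (HG : ∀ M, L < M → GlueC N M L Q A φ ψ P)
    (H : HalfS up g (CQ N) {g | g ∉ bxC N L} Q A φ ψ S m)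
    (hs : SimG Q {f | f ∈ A ∧ f ∈ S} ZQ (fun v => φ (pN N v)) (hbox up g L)
      (KbS ZQ (hbox up g L)))
    (hD : GlueC N (dM up M g) L' (dblS Q S m H.os) (cor2 up g A S ψ (wC N up g L L'))
      (dblφ up g φ m) (dblψ up g ψ) (isl2 Q A S m P))
    (hQ : NoLoop Q) (hφ : Function.Injective φ)
    (hm : ∀ x, m x = Cyh.ori up (φ (x, g), φ (x + 1, g)))
    (hg : |g| < L) (hL' : L + |g| ≤ L') (hNL : 2 * (L' + |g| + 1) < N) (hodd : Odd N)
    (hM : L' + |g| < M) (ω : Φ × Bool → Bool) :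
    Rel.Turns (dblS Q S m H.os) (cor2 up g A S ψ (wC N up g L L') ∪
        (cylF N (-(dM up M g)) (dM up M g) \ bxC N L').image (dblψ up g ψ)) ω
      ((botE N (-(dM up M g))).image (Prod.map (dblφ up g φ m) (dblφ up g φ m)))
      ((topE N (dM up M g)).image (Prod.map (dblφ up g φ m) (dblφ up g φ m))) := by
  have hg0 := abs_nonneg g
  have hg1 := le_abs_self g
  have hg2 := neg_abs_le g
  have h1 := SimG.dblN HG H hs hφ hm hg hL' hNL
  have hdM : L' < dM up M g := by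
    unfold dM
    split_ifs <;> omega
  exact SimG.turns hD h1 (dblS_noLoop hQ) hodd (by omega) (by omega) hdM ω

end Gen

namespace Slb

variable {S : Slb} {X Y L L' M y₀ y₁ : ℤ} {N : ℕ} [hN : Fact (3 ≤ N)]
  {P : Finset ((Option Bool × (ℤ × ℤ)) × (Option Bool × (ℤ × ℤ)))}

/-- the surface of a slab over the cylinder -/
theorem glueN (h : S.Ok) (hI : (S.slabS.sf X Y).In L)
    (hP : P ⊆ dE (S.slabS.sf X Y).Q ((S.slabS.sf X Y).core L))
    (hZ : (S.env (RFb (0, 0) L) X Y).Z ⊆ P) (hL : 2 * (L + 1) < N) (hM : L < M) :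
    GlueC N M L ((S.slabS.sf X Y).QN N) ((S.slabS.sf X Y).coreN N L) (Prod.mk none)
      (Prod.mk none) (P.image (Prod.map (Surf.chi _ N) (Surf.chi _ N))) :=
  Surf.glueC hI (by omega) hL hP fun a ha ha' => by
    rcases Slb.ful h hI a ha ha' with h1 | h1
    · exact Or.inl (hZ h1)
    · exact Or.inr (hZ h1)

/-- **The surface of a slab over the cylinder is simulated by a box.** -/
theorem simN (h : S.Ok) (hI : (S.slabS.sf X Y).In L) (hL : 2 * L < N) :
    SimG ((S.slabS.sf X Y).QN N) ((S.slabS.sf X Y).coreN N L : Set (Option Bool × (ZMod N × ℤ)))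
      ZQ (fun v => ((none : Option Bool), pN N v)) (RFb (0, 0) L : Set (ℤ × ℤ))
      (KbS ZQ (RFb (0, 0) L : Set (ℤ × ℤ))) := by
  have h1 := (h.topOK ∅ X Y).simG (inBx_of_in hI)
  have h2 : ((Rel.win (S.env ∅ X Y) L).F : Set (Option Bool × (ℤ × ℤ))) =
      ((S.slabS.sf X Y).core L : Set (Option Bool × (ℤ × ℤ))) := by
    rw [core_env]
    rfl
  rw [h2] at h1
  have h3 := SimG.surf (E := S.slabS.sf X Y) hI hL h1 (fun f hf => Finset.mem_coe.mp hf)
    (fun a ha => kb_box (fun f hf => Finset.mem_coe.1 hf) ha)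
  unfold Surf.coreN
  rw [Finset.coe_image]
  exact h3

theorem simN_up (h : S.Ok) (hI : (S.slabS.sf X Y).In L) (hL : 2 * L < N)
    (h0 : S.yc - S.a < y₁) (h1 : y₁ < S.yc + S.a) :
    SimG ((S.slabS.sf X Y).QN N) {f | f ∈ (S.slabS.sf X Y).coreN N L ∧ f ∈ S.slabS.upS N X y₁}
      ZQ (fun v => ((none : Option Bool), pN N v)) (hbox true y₁ L)
      (KbS ZQ (hbox true y₁ L)) := by
  have h2 := (h.topOK ∅ X Y).simU (inBx_of_in hI) (Y := y₁) h1 (by
    rintro f (⟨h2, -⟩ | ⟨h2, -⟩) h3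
    · unfold BGeo.hgt at h2
      change (S.a : ℤ) ≤ (if true = true then f.2 - S.yc else S.yc - 1 - f.2) at h2
      simp only [if_true] at h2
      omega
    · exfalso
      unfold BGeo.hgt at h2
      change (S.a : ℤ) ≤ (if false = true then f.2 - S.yc else S.yc - 1 - f.2) at h2
      simp only [Bool.false_eq_true, if_false] at h2
      omega)
  have h3 := SimG.surf (E := S.slabS.sf X Y) hI hL h2 (fun f hf => by
      rw [core_env]
      exact hf.1)
    (fun a ha => kb_box (fun f hf => hf.1) ha)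
  refine h3.mono ?_ subset_rfl subset_rfl
  rintro f ⟨hf, hf'⟩
  obtain ⟨f₀, hf₀, rfl⟩ := Finset.mem_image.mp hf
  refine ⟨f₀, ⟨?_, ?_⟩, rfl⟩
  · have := hf₀
    rw [core_env] at this
    exact this
  · rcases SlabS.mem_upS.mp hf' with ⟨h4, h5, -⟩ | ⟨f', hf', e⟩
    · exact Or.inl ⟨h4, h5⟩
    · right
      obtain ⟨u, -, rfl⟩ := Finset.mem_image.mp hf'
      exact (congrArg Prod.fst e).symm

theorem simN_lo (h : S.Ok) (hI : (S.slabS.sf X Y).In L) (hL : 2 * L < N)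
    (h0 : S.yc - S.a < y₀) (h1 : y₀ < S.yc + S.a) :
    SimG ((S.slabS.sf X Y).QN N) {f | f ∈ (S.slabS.sf X Y).coreN N L ∧ f ∈ S.slabS.loS N Y y₀}
      ZQ (fun v => ((none : Option Bool), pN N v)) (hbox false y₀ L)
      (KbS ZQ (hbox false y₀ L)) := by
  have h2 := (h.topOK ∅ X Y).simD (inBx_of_in hI) (Y := y₀) h0 (by
    rintro f (⟨h2, -⟩ | ⟨h2, -⟩) h3
    · exfalso
      unfold BGeo.hgt at h2
      change (S.a : ℤ) ≤ (if true = true then f.2 - S.yc else S.yc - 1 - f.2) at h2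
      simp only [if_true] at h2
      omega
    · unfold BGeo.hgt at h2
      change (S.a : ℤ) ≤ (if false = true then f.2 - S.yc else S.yc - 1 - f.2) at h2
      simp only [Bool.false_eq_true, if_false] at h2
      omega)
  have h3 := SimG.surf (E := S.slabS.sf X Y) hI hL h2 (fun f hf => by
      rw [core_env]
      exact hf.1)
    (fun a ha => kb_box (fun f hf => hf.1) ha)
  refine h3.mono ?_ subset_rfl subset_rfl
  rintro f ⟨hf, hf'⟩
  obtain ⟨f₀, hf₀, rfl⟩ := Finset.mem_image.mp hf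
  refine ⟨f₀, ⟨?_, ?_⟩, rfl⟩
  · have := hf₀
    rw [core_env] at this
    exact this
  · rcases SlabS.mem_loS.mp hf' with ⟨h4, h5, -⟩ | ⟨f', hf', e⟩
    · exact Or.inl ⟨h4, h5⟩
    · right
      obtain ⟨u, -, rfl⟩ := Finset.mem_image.mp hf'
      exact (congrArg Prod.fst e).symm

/-- **Turnings of the surface of a slab over the cylinder.** -/
theorem turnsN (h : S.Ok) (hI : (S.slabS.sf X Y).In L) (hodd : Odd N) (hL : 2 * (L + 1) < N)
    (hM : L < M) (ω : Option Bool × (ZMod N × ℤ) → Bool) :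
    Rel.Turns ((S.slabS.sf X Y).QN N) ((S.slabS.sf X Y).coreN N L ∪
        (cylF N (-M) M \ bxC N L).image (Prod.mk none)) ω
      ((botE N (-M)).image (Prod.map (Prod.mk none) (Prod.mk none)))
      ((topE N M).image (Prod.map (Prod.mk none) (Prod.mk none))) :=
  SimG.turns (glueN h hI (Z_sub h hI) subset_rfl hL hM) (simN h hI (by omega))
    Surf.noLoop_QN hodd (by omega) hI.pos hM ω

theorem turnsFN (h : S.Ok) (hI : (S.slabS.sf X Y).In L) (hodd : Odd N) (hL : 2 * (L + 1) < N)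
    (hM : L < M) (ω : Option Bool × (ZMod N × ℤ) → Bool) :
    Rel.Turns ((S.slabS.sf X Y).QN N) ((S.slabS.sf X Y).FN N M) ω
      ((botE N (-M)).image (Prod.map (Prod.mk none) (Prod.mk none)))
      ((topE N M).image (Prod.map (Prod.mk none) (Prod.mk none))) := by
  rw [← Surf.FN_eq hI hM.le (by omega)]
  exact turnsN h hI hodd hL hM ω

theorem ok_rows (h : S.Ok) (h0 : S.yc - S.a < y₀) (hlt : y₀ < y₁) (h1 : y₁ < S.yc + S.a) :
    S.slabS.Ok y₀ y₁ := slabS_ok h h0 hlt h1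

/-- **The double of the upper half of a slab: the cylinder surface.** -/
theorem glueU (h : S.Ok) (h0 : S.yc - S.a < y₀) (hlt : y₀ < y₁) (h1 : y₁ < S.yc + S.a)
    (hI : (S.slabS.sf X Y).In L)
    (hP : P ⊆ dE (S.slabS.sf X Y).Q ((S.slabS.sf X Y).core L))
    (hZ : (S.env (RFb (0, 0) L) X Y).Z ⊆ P) (hL : 2 * (L + 1) < N) (hL' : L + |y₁| ≤ L')
    (hM : L' + |y₁| < M) :
    GlueC N (dM true M y₁) L' (dblS ((S.slabS.sf X Y).QN N) (S.slabS.upS N X y₁)
        (S.slabS.cutN N y₁) (SlabS.os_up (slabS_ok h h0 hlt h1) hI (by omega)))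
      (cor2 true y₁ ((S.slabS.sf X Y).coreN N L) (S.slabS.upS N X y₁) (Prod.mk none)
        (wC N true y₁ L L'))
      (dblφ true y₁ (Prod.mk none) (S.slabS.cutN N y₁)) (dblψ true y₁ (Prod.mk none))
      (isl2 ((S.slabS.sf X Y).QN N) ((S.slabS.sf X Y).coreN N L) (S.slabS.upS N X y₁)
        (S.slabS.cutN N y₁) (P.image (Prod.map (Surf.chi _ N) (Surf.chi _ N)))) :=
  SlabS.glueC_up (slabS_ok h h0 hlt h1) hI (by omega)
    (fun M hM => glueN h hI hP hZ hL hM) hL' hM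

/-- **The double of the lower half of a slab: the cylinder surface.** -/
theorem glueD (h : S.Ok) (h0 : S.yc - S.a < y₀) (hlt : y₀ < y₁) (h1 : y₁ < S.yc + S.a)
    (hI : (S.slabS.sf X Y).In L)
    (hP : P ⊆ dE (S.slabS.sf X Y).Q ((S.slabS.sf X Y).core L))
    (hZ : (S.env (RFb (0, 0) L) X Y).Z ⊆ P) (hL : 2 * (L + 1) < N) (hL' : L + |y₀| ≤ L')
    (hM : L' + |y₀| < M) :
    GlueC N (dM false M y₀) L' (dblS ((S.slabS.sf X Y).QN N) (S.slabS.loS N Y y₀)
        (revFam (S.slabS.cutN N y₀)) (SlabS.os_lo (slabS_ok h h0 hlt h1) hI (by omega)))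
      (cor2 false y₀ ((S.slabS.sf X Y).coreN N L) (S.slabS.loS N Y y₀) (Prod.mk none)
        (wC N false y₀ L L'))
      (dblφ false y₀ (Prod.mk none) (revFam (S.slabS.cutN N y₀))) (dblψ false y₀ (Prod.mk none))
      (isl2 ((S.slabS.sf X Y).QN N) ((S.slabS.sf X Y).coreN N L) (S.slabS.loS N Y y₀)
        (revFam (S.slabS.cutN N y₀)) (P.image (Prod.map (Surf.chi _ N) (Surf.chi _ N)))) :=
  SlabS.glueC_lo (slabS_ok h h0 hlt h1) hI (by omega)
    (fun M hM => glueN h hI hP hZ hL hM) hL' hM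

/-- **Turnings of the double of the upper half.** -/
theorem turns_dblU (h : S.Ok) (h0 : S.yc - S.a < y₀) (hlt : y₀ < y₁) (h1 : y₁ < S.yc + S.a)
    (hI : (S.slabS.sf X Y).In L) (hy : |y₁| < L) (hodd : Odd N) (hL' : L + |y₁| ≤ L')
    (hN' : 2 * (L' + |y₁| + 1) < N) (hM : L' + |y₁| < M)
    (ω : (Option Bool × (ZMod N × ℤ)) × Bool → Bool) :
    Rel.Turns (dblS ((S.slabS.sf X Y).QN N) (S.slabS.upS N X y₁) (S.slabS.cutN N y₁)
        (SlabS.os_up (slabS_ok h h0 hlt h1) hI (by have := abs_nonneg y₁; omega)))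
      (cor2 true y₁ ((S.slabS.sf X Y).coreN N L) (S.slabS.upS N X y₁) (Prod.mk none)
        (wC N true y₁ L L') ∪
        (cylF N (-(dM true M y₁)) (dM true M y₁) \ bxC N L').image
          (dblψ true y₁ (Prod.mk none))) ω
      ((botE N (-(dM true M y₁))).image (Prod.map
        (dblφ true y₁ (Prod.mk none) (S.slabS.cutN N y₁))
        (dblφ true y₁ (Prod.mk none) (S.slabS.cutN N y₁))))
      ((topE N (dM true M y₁)).image (Prod.map
        (dblφ true y₁ (Prod.mk none) (S.slabS.cutN N y₁))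
        (dblφ true y₁ (Prod.mk none) (S.slabS.cutN N y₁)))) := by
  have hg := abs_nonneg y₁
  exact turns_dblN (up := true)
    (fun M hM => glueN h hI (Z_sub h hI) subset_rfl (by omega) hM)
    (SlabS.half_up (slabS_ok h h0 hlt h1) hI (by omega))
    (simN_up h hI (by omega) (by omega) h1)
    (glueU h h0 hlt h1 hI (Z_sub h hI) subset_rfl (by omega) hL' hM)
    Surf.noLoop_QN (fun _ _ h => (Prod.mk.inj h).2) (fun _ => rfl) hy hL' hN' hodd hM ω

/-- **Turnings of the double of the lower half.** -/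
theorem turns_dblD (h : S.Ok) (h0 : S.yc - S.a < y₀) (hlt : y₀ < y₁) (h1 : y₁ < S.yc + S.a)
    (hI : (S.slabS.sf X Y).In L) (hy : |y₀| < L) (hodd : Odd N) (hL' : L + |y₀| ≤ L')
    (hN' : 2 * (L' + |y₀| + 1) < N) (hM : L' + |y₀| < M)
    (ω : (Option Bool × (ZMod N × ℤ)) × Bool → Bool) :
    Rel.Turns (dblS ((S.slabS.sf X Y).QN N) (S.slabS.loS N Y y₀) (revFam (S.slabS.cutN N y₀))
        (SlabS.os_lo (slabS_ok h h0 hlt h1) hI (by have := abs_nonneg y₀; omega)))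
      (cor2 false y₀ ((S.slabS.sf X Y).coreN N L) (S.slabS.loS N Y y₀) (Prod.mk none)
        (wC N false y₀ L L') ∪
        (cylF N (-(dM false M y₀)) (dM false M y₀) \ bxC N L').image
          (dblψ false y₀ (Prod.mk none))) ω
      ((botE N (-(dM false M y₀))).image (Prod.map
        (dblφ false y₀ (Prod.mk none) (revFam (S.slabS.cutN N y₀)))
        (dblφ false y₀ (Prod.mk none) (revFam (S.slabS.cutN N y₀)))))
      ((topE N (dM false M y₀)).image (Prod.map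
        (dblφ false y₀ (Prod.mk none) (revFam (S.slabS.cutN N y₀)))
        (dblφ false y₀ (Prod.mk none) (revFam (S.slabS.cutN N y₀))))) := by
  have hg := abs_nonneg y₀
  exact turns_dblN (up := false)
    (fun M hM => glueN h hI (Z_sub h hI) subset_rfl (by omega) hM)
    (SlabS.half_lo (slabS_ok h h0 hlt h1) hI (by omega))
    (simN_lo h hI (by omega) h0 (by omega))
    (glueD h h0 hlt h1 hI (Z_sub h hI) subset_rfl (by omega) hL' hM)
    Surf.noLoop_QN (fun _ _ h => (Prod.mk.inj h).2) (fun _ => rfl) hy hL' hN' hodd hM ω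

end Slb

end

end Pool.Agent.SixB
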