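import Pool.Agent.Lib.SixB.S3bPocket
import Pool.Agent.Lib.SixB.S0Plane
import Pool.Agent.Lib.SixB.CylWind
import Pool.Agent.Lib.SixB.S3Plane

/-!
# Turnings on the cylinder

* `t1_plane`, `t1_cyl`: closed strands of the plane and of the odd cylinder have turning `4` or `-4`.
* `cyl_bt`, `cyl_bb`, `cyl_tt`: turnings of the arcs which join the flat ends of a window of the
  cylinder.
* `turns_of_sim`: `Rel.Turns` for every complex whose strands are simulated on the cylinder;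
  `turns_cyl`: for subsets of the window.
-/

set_option autoImplicit false

namespace Pool.Agent.SixB

open Pool.Agent.Perc Pool.Agent.Perc.Q Relation

section General

variable {V Φ : Type} {Q : QC V Φ} {ω : Φ → Bool} {F F' : Set Φ} {G : Set (V × V)}
  {a b c e : V × V} {s t : ℤ} {m n : ℕ} {w u v : List ((V × V) × ℤ)} {x y : (V × V) × ℤ}

theorem Walk.exists_finite (h : Walk Q ω F G n a b t) :
    ∃ F' ⊆ F, F'.Finite ∧ Walk Q ω F' G n a b t := by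
  induction h with
  | one h =>
    obtain ⟨f, hf, h⟩ := h
    exact ⟨{f}, by simpa using hf, Set.finite_singleton f, Walk.one ⟨f, rfl, h⟩⟩
  | tail h hb h' ih =>
    obtain ⟨F', h1, h2, h3⟩ := ih
    obtain ⟨f, hf, h'⟩ := h'
    refine ⟨insert f F', Set.insert_subset hf h1, h2.insert f, ?_⟩
    exact Walk.tail (h3.mono (Set.subset_insert _ _) subset_rfl) hb ⟨f, Set.mem_insert _ _, h'⟩

theorem Walk.tg (h : Walk Q ω F G n a b t) : TransGen (Nx Q ω F) a b := by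
  induction h with
  | one h => exact TransGen.single (nx_iff.2 ⟨_, h⟩)
  | tail _ _ h' ih => exact ih.tail (nx_iff.2 ⟨_, h'⟩)

/-- The turning of a strand of a disc from an earlier side of the word to a later one. -/
theorem Disc.walk_fwd (h : Disc Q F G w) (hw : w = u ++ x :: v) (hy : y ∈ v)
    (hW : Walk Q ω F G n x.1 y.1.swap t) : t = y.2 - x.2 - 2 := by
  have hi := h.inv
  have hnd := hi.nodup
  have hout : ∀ z ∈ w, z.1.swap ∉ G := by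
    intro z hz h1
    have h2 := hi.symm _ h1
    rw [Prod.swap_swap] at h2
    exact hi.notG z.1 (List.mem_map_of_mem hz) h2
  have hyw : y ∈ w := by rw [hw]; simp [hy]
  rw [hw, List.map_append, List.map_cons] at hnd
  obtain ⟨hn1, hn2, hn3⟩ := List.nodup_append.1 hnd
  rcases (h.arcs ω).split hw with ⟨v1, z, v2, h1, n1, h2⟩ | ⟨u1, z, u2, h1, n1, h2⟩
  · have hzv : z ∈ v := by rw [h1]; simp
    have hzw : z ∈ w := by rw [hw]; simp [hzv]
    obtain ⟨-, h3, h4⟩ := hW.eq_of_end (hout y hyw) h2 (hout z hzw)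
    have h5 : y.1 = z.1 := by rw [← Prod.swap_swap y.1, h3, Prod.swap_swap]
    have h6 : y = z := List.inj_on_of_nodup_map (List.nodup_cons.1 hn2).2 hy hzv h5
    rw [h4, h6]
  · exfalso
    have hzu : z ∈ u := by rw [h1]; simp
    have hzw : z ∈ w := by rw [hw]; simp [hzu]
    have h2r := h2.rev hi.symm
    rw [Prod.swap_swap] at h2r
    obtain ⟨-, h3, -⟩ := hW.eq_of_end (hout y hyw) h2r (hout z hzw)
    have h5 : y.1 = z.1 := by rw [← Prod.swap_swap y.1, h3, Prod.swap_swap]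
    refine hn3 _ (List.mem_map_of_mem hzu) _ ?_ h5.symm
    exact List.mem_cons_of_mem _ (List.mem_map_of_mem hy)

theorem Disc.walk_bwd (h : Disc Q F G w) (hw : w = u ++ x :: v) (hy : y ∈ v)
    (hW : Walk Q ω F G n y.1 x.1.swap t) : t = x.2 - y.2 + 2 := by
  have h1 := hW.rev h.inv.symm
  rw [Prod.swap_swap] at h1
  have h2 := h.walk_fwd hw hy h1
  omega

end General

/-- **T1 OF THE PLANE.** -/
theorem t1_plane (ω : ℤ × ℤ → Bool) : T1 ZQ ω Set.univ := by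
  intro e n t hw
  obtain ⟨F', -, hf, hw'⟩ := hw.exists_finite
  exact plane_loop_univ hf (hw'.mono subset_rfl (Set.subset_univ _)) fun m hm s => hw'.min hm

/-! ## Arcs of a window of the plane strip -/

section Strip

variable {w : ℤ × ℤ → Bool} {a b : (ℤ × ℤ) × (ℤ × ℤ)} {n : ℕ} {t y₀ y₁ : ℤ}
  {G : Set ((ℤ × ℤ) × (ℤ × ℤ))}

theorem strip_rect {F : Set (ℤ × ℤ)} (hF : F.Finite) (hs : F ⊆ strip y₀ y₁) (z₀ z₁ : ℤ) :
    ∃ x₀ x₁ : ℤ, x₀ < z₀ ∧ z₁ < x₁ ∧ x₀ < x₁ ∧ F ⊆ RS x₀ x₁ y₀ y₁ := by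
  obtain ⟨x₀, x₁, u₀, u₁, hx, hy, h⟩ := exists_RS hF
  refine ⟨min x₀ (z₀ - 1), max x₁ (z₁ + 1), ?_, ?_, ?_, ?_⟩
  · have := min_le_right x₀ (z₀ - 1); omega
  · have := le_max_right x₁ (z₁ + 1); omega
  · have := min_le_left x₀ (z₀ - 1)
    have := le_max_left x₁ (z₁ + 1)
    omega
  · intro f hf
    have h1 := h hf
    have h2 := hs hf
    unfold RS at h1 ⊢
    have h3 := min_le_left x₀ (z₀ - 1)
    have h4 := le_max_left x₁ (z₁ + 1)
    have h5 : y₀ ≤ f.2 ∧ f.2 < y₁ := h2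
    simp only [Set.mem_ofPred_eq] at h1 ⊢
    omega

theorem segm_mem {V : Type} {pos : ℤ × ℤ → V} {a : ℤ} {n : ℕ} : ∀ {i : ℕ} {p : ℤ × ℤ}, i < n →
    ((pos (p + (i : ℤ) • dv a), pos (p + (i : ℤ) • dv a + dv a)), a) ∈ segm pos p a n := by
  induction n with
  | zero => intro i p h; omega
  | succ n ih =>
    intro i p h
    rw [segm_succ]
    cases i with
    | zero => simp
    | succ i =>
      have h1 := ih (i := i) (p := p + dv a) (by omega)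
      have h2 : p + dv a + (i : ℤ) • dv a = p + ((i + 1 : ℕ) : ℤ) • dv a := by
        push_cast
        rw [add_smul, one_smul, add_assoc, add_comm (dv a)]
      rw [h2] at h1
      exact List.mem_cons_of_mem _ h1

theorem botw_mem {x x₀ x₁ : ℤ} (h0 : x₀ ≤ x) (h1 : x < x₁) :
    (mo y₀ x, (0 : ℤ)) ∈ segm id (x₀, y₀) 0 (x₁ - x₀).toNat := by
  have h3 := segm_mem (pos := (id : ℤ × ℤ → ℤ × ℤ)) (a := 0) (n := (x₁ - x₀).toNat)
    (i := (x - x₀).toNat) (p := (x₀, y₀)) (by omega)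
  have h2 : ((x₀, y₀) : ℤ × ℤ) + (((x - x₀).toNat : ℕ) : ℤ) • dv 0 = (x, y₀) := by
    rw [dv0]
    ext
    · simp only [Prod.fst_add, Prod.smul_mk, smul_eq_mul, mul_one]; omega
    · simp
  rw [h2, dv0] at h3
  simpa [mo] using h3

theorem topw_mem {x x₀ x₁ : ℤ} (h0 : x₀ ≤ x) (h1 : x < x₁) :
    ((mo y₁ x).swap, (2 : ℤ)) ∈ segm id (x₁, y₁) 2 (x₁ - x₀).toNat := by
  have h3 := segm_mem (pos := (id : ℤ × ℤ → ℤ × ℤ)) (a := 2) (n := (x₁ - x₀).toNat)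
    (i := (x₁ - 1 - x).toNat) (p := (x₁, y₁)) (by omega)
  have h2 : ((x₁, y₁) : ℤ × ℤ) + (((x₁ - 1 - x).toNat : ℕ) : ℤ) • dv 2 = (x + 1, y₁) := by
    rw [dv2]
    ext
    · simp only [Prod.fst_add, Prod.smul_mk, smul_eq_mul]; omega
    · simp
  rw [h2, dv2] at h3
  simpa [mo] using h3

theorem two_of_mem {α : Type} {l r s : List α} {x y : α} (hx : x ∈ l) (hy : y ∈ l) (hxy : x ≠ y) :
    (∃ u v, r ++ (l ++ s) = u ++ x :: v ∧ y ∈ v) ∨ ∃ u v, r ++ (l ++ s) = u ++ y :: v ∧ x ∈ v := by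
  obtain ⟨l1, l2, rfl⟩ := List.append_of_mem hx
  rw [List.mem_append, List.mem_cons] at hy
  rcases hy with hy | hy | hy
  · obtain ⟨l3, l4, rfl⟩ := List.append_of_mem hy
    right
    exact ⟨r ++ l3, l4 ++ x :: l2 ++ s, by simp, by simp⟩
  · exact absurd hy.symm hxy
  · left
    exact ⟨r ++ l1, l2 ++ s, by simp, by simp [hy]⟩

theorem strip_bt {x x' : ℤ} (h : Walk ZQ w (strip y₀ y₁) G n (mo y₀ x) (mo y₁ x') t) (hy : y₀ < y₁) :
    t = 0 := by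
  obtain ⟨F', h1, h2, h3⟩ := h.exists_finite
  obtain ⟨x₀, x₁, hx0, hx1, hx, hF⟩ := strip_rect h2 h1 (min x x') (max x x')
  have a1 := min_le_left x x'
  have a2 := min_le_right x x'
  have a3 := le_max_left x x'
  have a4 := le_max_right x x'
  have h4 := (h3.interGlued).mono hF (Set.inter_subset_right.trans (glued_mono hF))
  have hb := botw_mem (y₀ := y₀) (x := x) (x₀ := x₀) (x₁ := x₁) (by omega) (by omega)
  have ht := topw_mem (y₁ := y₁) (x := x') (x₀ := x₀) (x₁ := x₁) (by omega) (by omega)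
  obtain ⟨l1, l2, hl⟩ := List.append_of_mem hb
  have hD := disc_RS (x₀ := x₀) (x₁ := x₁) (y₀ := y₀) (y₁ := y₁) hx hy
  have h5 := hD.walk_fwd (ω := w) (u := l1) (x := (mo y₀ x, 0))
    (v := l2 ++ (segm id (x₁, y₀) 1 (y₁ - y₀).toNat ++ (segm id (x₁, y₁) 2 (x₁ - x₀).toNat ++
      segm id (x₀, y₁) 3 (y₁ - y₀).toNat))) (y := ((mo y₁ x').swap, 2)) (n := n) (t := t)
    (by unfold rectW; rw [hl]; simp) (by simp [ht]) (by rw [Prod.swap_swap]; exact h4)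
  simpa using h5

theorem strip_bb {x x' : ℤ} (h : Walk ZQ w (strip y₀ y₁) G n (mo y₀ x) (mo y₀ x').swap t)
    (hy : y₀ < y₁) (hxx : x ≠ x') : t = 2 ∨ t = -2 := by
  obtain ⟨F', h1, h2, h3⟩ := h.exists_finite
  obtain ⟨x₀, x₁, hx0, hx1, hx, hF⟩ := strip_rect h2 h1 (min x x') (max x x')
  have a1 := min_le_left x x'
  have a2 := min_le_right x x'
  have a3 := le_max_left x x'
  have a4 := le_max_right x x'
  have h4 := (h3.interGlued).mono hF (Set.inter_subset_right.trans (glued_mono hF))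
  have hb := botw_mem (y₀ := y₀) (x := x) (x₀ := x₀) (x₁ := x₁) (by omega) (by omega)
  have ht := botw_mem (y₀ := y₀) (x := x') (x₀ := x₀) (x₁ := x₁) (by omega) (by omega)
  have hD := disc_RS (x₀ := x₀) (x₁ := x₁) (y₀ := y₀) (y₁ := y₁) hx hy
  have hne : ((mo y₀ x, (0 : ℤ)) : ((ℤ × ℤ) × (ℤ × ℤ)) × ℤ) ≠ (mo y₀ x', 0) := by
    intro he
    exact hxx (congrArg (fun z => z.1.1.1) he)
  rcases two_of_mem (r := []) (s := segm id (x₁, y₀) 1 (y₁ - y₀).toNat ++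
      (segm id (x₁, y₁) 2 (x₁ - x₀).toNat ++ segm id (x₀, y₁) 3 (y₁ - y₀).toNat)) hb ht hne with
    ⟨u, v, h5, h6⟩ | ⟨u, v, h5, h6⟩
  · right
    have h7 := hD.walk_fwd (ω := w) (u := u) (x := (mo y₀ x, 0)) (v := v) (y := (mo y₀ x', 0))
      (n := n) (t := t) h5 h6 h4
    simpa using h7
  · left
    have h7 := hD.walk_bwd (ω := w) (u := u) (x := (mo y₀ x', 0)) (v := v) (y := (mo y₀ x, 0))
      (n := n) (t := t) h5 h6 h4
    simpa using h7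

theorem strip_tt {x x' : ℤ} (h : Walk ZQ w (strip y₀ y₁) G n (mo y₁ x).swap (mo y₁ x') t)
    (hy : y₀ < y₁) (hxx : x ≠ x') : t = 2 ∨ t = -2 := by
  obtain ⟨F', h1, h2, h3⟩ := h.exists_finite
  obtain ⟨x₀, x₁, hx0, hx1, hx, hF⟩ := strip_rect h2 h1 (min x x') (max x x')
  have a1 := min_le_left x x'
  have a2 := min_le_right x x'
  have a3 := le_max_left x x'
  have a4 := le_max_right x x'
  have h4 := (h3.interGlued).mono hF (Set.inter_subset_right.trans (glued_mono hF))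
  have hb := topw_mem (y₁ := y₁) (x := x) (x₀ := x₀) (x₁ := x₁) (by omega) (by omega)
  have ht := topw_mem (y₁ := y₁) (x := x') (x₀ := x₀) (x₁ := x₁) (by omega) (by omega)
  have hD := disc_RS (x₀ := x₀) (x₁ := x₁) (y₀ := y₀) (y₁ := y₁) hx hy
  have hne : (((mo y₁ x).swap, (2 : ℤ)) : ((ℤ × ℤ) × (ℤ × ℤ)) × ℤ) ≠ ((mo y₁ x').swap, 2) := by
    intro he
    exact hxx (congrArg (fun z => z.1.2.1) he)
  rcases two_of_mem (r := segm id (x₀, y₀) 0 (x₁ - x₀).toNat ++ segm id (x₁, y₀) 1 (y₁ - y₀).toNat)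
      (s := segm id (x₀, y₁) 3 (y₁ - y₀).toNat) hb ht hne with
    ⟨u, v, h5, h6⟩ | ⟨u, v, h5, h6⟩
  · right
    have h7 := hD.walk_fwd (ω := w) (u := u) (x := ((mo y₁ x).swap, 2)) (v := v)
      (y := ((mo y₁ x').swap, 2)) (n := n) (t := t) (by rw [← h5]; unfold rectW; simp) h6
      (by rw [Prod.swap_swap]; exact h4)
    simpa using h7
  · left
    have h7 := hD.walk_bwd (ω := w) (u := u) (x := ((mo y₁ x').swap, 2)) (v := v)
      (y := ((mo y₁ x).swap, 2)) (n := n) (t := t) (by rw [← h5]; unfold rectW; simp) h6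
      (by rw [Prod.swap_swap]; exact h4)
    simpa using h7

end Strip

/-! ## The cylinder -/

section Cyl

variable {N : ℕ} [hN : Fact (3 ≤ N)] {ω : ZMod N × ℤ → Bool} {F' : Set (ZMod N × ℤ)}
  {G' : Set ((ZMod N × ℤ) × (ZMod N × ℤ))} {a b : (ℤ × ℤ) × (ℤ × ℤ)}
  {b' e : (ZMod N × ℤ) × (ZMod N × ℤ)} {n : ℕ} {t y₀ y₁ : ℤ}

theorem St.up (ha : UE a) (h : St (CQ N) ω F' (pE N a) b' t) :
    ∃ b, UE b ∧ pE N b = b' ∧ St ZQ (lc N ω) (pN N ⁻¹' F') a b t := by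
  obtain ⟨g, k, rfl⟩ := ha
  obtain ⟨f', hf', k', h1, h2, h3⟩ := h
  rw [pE_sd] at h1
  obtain ⟨rfl, rfl⟩ := sd_inj h1
  refine ⟨(sd ZQ g (mt (lc N ω g) k)).swap, UE.swap ⟨_, _, rfl⟩, ?_, g, hf', k, rfl, rfl, h3⟩
  rw [pE_swap, pE_sd, h2]
  rfl

theorem Walk.up (ha : UE a) (h : Walk (CQ N) ω F' G' n (pE N a) b' t) :
    ∃ b, UE b ∧ pE N b = b' ∧ Walk ZQ (lc N ω) (pN N ⁻¹' F') (pE N ⁻¹' G') n a b t := by
  generalize hx : pE N a = x at h
  induction h with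
  | one h =>
    subst hx
    obtain ⟨b, h1, h2, h3⟩ := h.up ha
    exact ⟨b, h1, h2, Walk.one h3⟩
  | tail h hb h' ih =>
    obtain ⟨b, h1, rfl, h3⟩ := ih hx
    obtain ⟨c, h4, h5, h6⟩ := h'.up h1
    exact ⟨c, h4, h5, Walk.tail h3 hb h6⟩

theorem exists_pE (h : e ∈ Sides (CQ N) F') : ∃ a, UE a ∧ pE N a = e := by
  obtain ⟨f, hf, k, rfl⟩ := h
  obtain ⟨x, hx⟩ := ZMod.intCast_surjective f.1
  refine ⟨sd ZQ (x, f.2) k, ⟨_, _, rfl⟩, ?_⟩
  rw [pE_sd]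
  congr 1
  exact Prod.ext hx rfl

/-- **T1 OF THE ODD CYLINDER.** -/
theorem t1_cyl (hodd : Odd N) (ω : ZMod N × ℤ → Bool) : T1 (CQ N) ω Set.univ := by
  intro e n t hw
  obtain ⟨F', -, hF', hw'⟩ := hw.exists_finite
  obtain ⟨B, hB⟩ := (hF'.image fun f : ZMod N × ℤ => f.2.natAbs).bddAbove
  have hs : pN N ⁻¹' F' ⊆ strip (-B) (B + 1) := by
    intro f hf
    have h1 := hB ⟨pN N f, hf, rfl⟩
    have h2 : (pN N f).2 = f.2 := rfl
    simp only at h1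
    show -(B : ℤ) ≤ f.2 ∧ f.2 < B + 1
    omega
  obtain ⟨a, ha, rfl⟩ := exists_pE hw'.first'
  obtain ⟨b, hb, h1, h2⟩ := hw'.up ha
  obtain ⟨m, rfl⟩ := exists_tau ha hb h1.symm
  obtain rfl : m = 0 := no_wind (ω := ω) hodd (by omega) (h2.mono hs subset_rfl).tg
  rw [tauE_zero] at h2
  refine t1_plane (lc N ω) a n t (h2.mono (Set.subset_univ _) ?_)
  rintro c hc rfl
  exact hc rfl

theorem cyl_strip {F : Set (ZMod N × ℤ)} (hF : F ⊆ (cylF N y₀ y₁ : Set (ZMod N × ℤ))) :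
    pN N ⁻¹' F ⊆ strip y₀ y₁ := by
  rw [← preimage_cylF (N := N)]
  exact Set.preimage_mono hF

theorem pE_mo (x : ℤ) (y : ℤ) : pE N (mo y x) = bE (x : ZMod N) y := by
  rw [mo_sd, pE_sd]
  rfl

theorem mo_UE (x y : ℤ) : UE (mo y x) := ⟨(x, y), 0, rfl⟩

theorem exists_mo {x : ZMod N} {y : ℤ} (hb : UE b) (h : pE N b = bE x y) : ∃ x', b = mo y x' := by
  obtain ⟨xi, rfl⟩ := ZMod.intCast_surjective x
  rw [← pE_mo] at h
  obtain ⟨m, rfl⟩ := exists_tau (mo_UE xi y) hb h.symm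
  refine ⟨xi + N * m, ?_⟩
  simp only [tauE, mo, tau, Prod.map]
  congr 2
  ring

theorem cyl_bt {x x' : ZMod N} {F : Set (ZMod N × ℤ)} (hF : F ⊆ (cylF N y₀ y₁ : Set (ZMod N × ℤ)))
    (hy : y₀ < y₁) (h : Walk (CQ N) ω F G' n (bE x y₀) (bE x' y₁) t) : t = 0 := by
  obtain ⟨xi, rfl⟩ := ZMod.intCast_surjective x
  rw [← pE_mo] at h
  obtain ⟨b, hb, h1, h2⟩ := h.up (mo_UE _ _)
  obtain ⟨x', rfl⟩ := exists_mo hb h1
  exact strip_bt (h2.mono (cyl_strip hF) subset_rfl) hy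

theorem cyl_bb {x x' : ZMod N} {F : Set (ZMod N × ℤ)} (hF : F ⊆ (cylF N y₀ y₁ : Set (ZMod N × ℤ)))
    (hy : y₀ < y₁) (hxx : x ≠ x') (h : Walk (CQ N) ω F G' n (bE x y₀) (bE x' y₀).swap t) :
    t = 2 ∨ t = -2 := by
  obtain ⟨xi, rfl⟩ := ZMod.intCast_surjective x
  rw [← pE_mo] at h
  obtain ⟨b, hb, h1, h2⟩ := h.up (mo_UE _ _)
  have h3 : pE N b.swap = bE x' y₀ := by rw [pE_swap, h1, Prod.swap_swap]
  obtain ⟨z, hz⟩ := exists_mo hb.swap h3
  have hb' : b = (mo y₀ z).swap := by rw [← hz, Prod.swap_swap]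
  rw [hb'] at h2
  refine strip_bb (h2.mono (cyl_strip hF) subset_rfl) hy ?_
  rintro rfl
  rw [hz, pE_mo] at h3
  exact hxx (bE_inj h3).1

theorem cyl_tt {x x' : ZMod N} {F : Set (ZMod N × ℤ)} (hF : F ⊆ (cylF N y₀ y₁ : Set (ZMod N × ℤ)))
    (hy : y₀ < y₁) (hxx : x ≠ x') (h : Walk (CQ N) ω F G' n (bE x y₁).swap (bE x' y₁) t) :
    t = 2 ∨ t = -2 := by
  obtain ⟨xi, rfl⟩ := ZMod.intCast_surjective x
  rw [← pE_mo, ← pE_swap] at h
  obtain ⟨b, hb, h1, h2⟩ := h.up (mo_UE _ _).swap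
  obtain ⟨z, rfl⟩ := exists_mo hb h1
  refine strip_tt (h2.mono (cyl_strip hF) subset_rfl) hy ?_
  rintro rfl
  rw [pE_mo] at h1
  exact hxx (bE_inj h1).1

end Cyl

/-! ## The turnings of the strands which join the flat ends -/

section Turns

variable {V Φ : Type} [DecidableEq V] [DecidableEq Φ] {Q : QC V Φ} {F : Finset Φ} {ω : Φ → Bool}
  {a : V × V} {N : ℕ} [hN : Fact (3 ≤ N)] {y₀ y₁ : ℤ}

/-- An arc is a walk. -/
theorem arc_walk (ha : a ∈ bS Q F) :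
    ∃ n, Walk Q ω (F : Set Φ) Set.univ n a (mate Q F ω a).swap (turn Q F ω a) := by
  obtain ⟨h1, h2⟩ := mem_bS.mp ha
  obtain ⟨h3, h4⟩ := lst_spec (Q := Q) (F := F) (ω := ω) h2
  have e1 : (mate Q F ω a).swap = lst Q F ω a := Prod.swap_swap _
  rcases exists_walk h3 with h5 | ⟨n, t, h5⟩
  · exact absurd (h5 ▸ h4) (fun h6 => not_ini_ter h1 h2 h6)
  · obtain ⟨-, h6⟩ := h5.mate_turn h2 h4
    refine ⟨n, ?_⟩
    rw [e1, h6]
    exact h5.mono subset_rfl (Set.subset_univ _)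

theorem turns_of_sim (hy : y₀ < y₁) {Eb Et : Finset (V × V)}
    {φ : V × V → (ZMod N × ℤ) × (ZMod N × ℤ)} (hT : T1 Q ω (F : Set Φ)) (hQ : NoLoop Q)
    (hφ : ∀ a, φ a.swap = (φ a).swap)
    (hb : ∀ a ∈ Eb, a ∈ bS Q F ∧ ∃ x, φ a = bE x y₀)
    (ht : ∀ a ∈ Et, a ∈ bS Q F ∧ ∃ x, φ a = (bE x y₁).swap)
    (hinj : ∀ a ∈ Eb ∪ Et, ∀ b ∈ Eb ∪ Et, φ a = φ b → a = b)
    (hsim : ∀ a ∈ Eb ∪ Et, ∀ b ∈ Eb ∪ Et, ∀ n t, Walk Q ω (F : Set Φ) Set.univ n a b.swap t →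
      ∃ (ω' : ZMod N × ℤ → Bool) (n' : ℕ),
        Walk (CQ N) ω' (cylF N y₀ y₁ : Set (ZMod N × ℤ)) Set.univ n' (φ a) (φ b.swap) t) :
    Rel.Turns Q F ω Eb Et where
  closed X hX hX' := hT.tX hX hX'
  bb a ha hm := by
    obtain ⟨h1, x, h2⟩ := hb a ha
    obtain ⟨h3, x', h4⟩ := hb _ hm
    obtain ⟨n, hW⟩ := arc_walk (ω := ω) h1
    obtain ⟨ω', n', h5⟩ := hsim a (Finset.mem_union_left _ ha) _ (Finset.mem_union_left _ hm) n _ hW
    rw [hφ, h2, h4] at h5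
    refine cyl_bb subset_rfl hy ?_ h5
    rintro rfl
    exact mate_ne hQ h1 (hinj _ (Finset.mem_union_left _ ha) _ (Finset.mem_union_left _ hm)
      (h2.trans h4.symm)).symm
  tt a ha hm := by
    obtain ⟨h1, x, h2⟩ := ht a ha
    obtain ⟨h3, x', h4⟩ := ht _ hm
    obtain ⟨n, hW⟩ := arc_walk (ω := ω) h1
    obtain ⟨ω', n', h5⟩ := hsim a (Finset.mem_union_right _ ha) _ (Finset.mem_union_right _ hm) n _ hW
    rw [hφ, h2, h4, Prod.swap_swap] at h5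
    refine cyl_tt subset_rfl hy ?_ h5
    rintro rfl
    exact mate_ne hQ h1 (hinj _ (Finset.mem_union_right _ ha) _ (Finset.mem_union_right _ hm)
      (h2.trans h4.symm)).symm
  bt a ha hm := by
    obtain ⟨h1, x, h2⟩ := hb a ha
    obtain ⟨h3, x', h4⟩ := ht _ hm
    obtain ⟨n, hW⟩ := arc_walk (ω := ω) h1
    obtain ⟨ω', n', h5⟩ := hsim a (Finset.mem_union_left _ ha) _ (Finset.mem_union_right _ hm) n _ hW
    rw [hφ, h2, h4, Prod.swap_swap] at h5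
    exact cyl_bt subset_rfl hy h5

/-- **TURNINGS FOR SUBSETS OF THE WINDOW** of the odd cylinder. -/
theorem turns_cyl (hodd : Odd N) (hy : y₀ < y₁) {F : Finset (ZMod N × ℤ)}
    (hF : F ⊆ cylF N y₀ y₁) (ω : ZMod N × ℤ → Bool)
    {Eb Et : Finset ((ZMod N × ℤ) × (ZMod N × ℤ))}
    (hb : ∀ a ∈ Eb, a ∈ bS (CQ N) F ∧ ∃ x, a = bE x y₀)
    (ht : ∀ a ∈ Et, a ∈ bS (CQ N) F ∧ ∃ x, a = (bE x y₁).swap) :
    Rel.Turns (CQ N) F ω Eb Et :=
  turns_of_sim (φ := id) hy ((t1_cyl hodd ω).mono (Set.subset_univ _)) noLoop_CQ (fun _ => rfl)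
    hb ht (fun _ _ _ _ h => h) fun _ _ _ _ n _ hW =>
      ⟨ω, n, hW.mono (Finset.coe_subset.mpr hF) subset_rfl⟩

/-- The turnings of the pure cylinder. -/
theorem turns_window (hodd : Odd N) (hy : y₀ < y₁) (ω : ZMod N × ℤ → Bool) :
    Rel.Turns (CQ N) (cylF N y₀ y₁) ω (Finset.univ.image fun x => bE x y₀)
      (Finset.univ.image fun x => (bE x y₁).swap) := by
  refine turns_cyl hodd hy subset_rfl ω ?_ ?_
  · intro a ha
    obtain ⟨x, -, rfl⟩ := Finset.mem_image.mp ha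
    refine ⟨mem_bS.mpr ⟨?_, bE_ini x⟩, x, rfl⟩
    exact sd_mem (mem_cylF_mk.mpr ⟨le_refl _, hy⟩) 0
  · intro a ha
    obtain ⟨x, -, rfl⟩ := Finset.mem_image.mp ha
    refine ⟨mem_bS.mpr ⟨?_, ?_⟩, x, rfl⟩
    · have h1 := csd_swap_0 x y₁
      have h2 : (bE x y₁).swap = sd (CQ N) (x, y₁ - 1) 2 := h1
      rw [h2]
      exact sd_mem (mem_cylF_mk.mpr ⟨by omega, by omega⟩) 2
    · rw [ini_swap]
      exact bE_top_ter x

end Turns

end Pool.Agent.SixB
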