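import Pool.Agent.Lib.SixB.S3bPoly
import Pool.Agent.Lib.SixB.S3Mirror

/-!
# T1 for doubled complexes

`Q` a complex with base faces `F0` (embedded in `B`) and planar pockets, `B` a complex with a reflection
(`RefOK`), everything on one side of the reflection line. Then the doubled complex `dbl Q F m` is again
a complex with base faces embedded in `B` and planar pockets: `t1_dbl`, `sim_dbl`.
-/

set_option autoImplicit false
set_option linter.unusedSectionVars false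
set_option linter.unnecessarySeqFocus false

namespace Pool.Agent.SixB

open Pool.Agent.Perc Pool.Agent.Perc.Q

/-! ## Reflection of the plane in the vertical axis -/

/-- reflection of the vertices -/
def mrv (v : ℤ × ℤ) : ℤ × ℤ := (-v.1, v.2)

/-- reflection of the faces -/
def mrf (f : ℤ × ℤ) : ℤ × ℤ := (-1 - f.1, f.2)

theorem mrv_mrv (v : ℤ × ℤ) : mrv (mrv v) = v := by ext <;> simp [mrv]

theorem mrf_mrf (v : ℤ × ℤ) : mrf (mrf v) = v := by ext <;> simp [mrf]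

theorem mrv_inj : Function.Injective mrv := fun f g h => by rw [← mrv_mrv f, h, mrv_mrv]

theorem mrf_inj : Function.Injective mrf := fun f g h => by rw [← mrf_mrf f, h, mrf_mrf]

theorem mrf_cor (f : ℤ × ℤ) (k : ZMod 4) : ZQ.c (mrf f) (1 - k) = mrv (ZQ.c f k) := by
  obtain ⟨x, y⟩ := f
  rcases k4_cases k with rfl | rfl | rfl | rfl
  · show ((-1 - x + 1, y) : ℤ × ℤ) = (-x, y)
    ext <;> simp only <;> ring
  · show ((-1 - x, y) : ℤ × ℤ) = (-(x + 1), y)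
    ext <;> simp only <;> ring
  · show ((-1 - x, y + 1) : ℤ × ℤ) = (-(x + 1), y + 1)
    ext <;> simp only <;> ring
  · show ((-1 - x + 1, y + 1) : ℤ × ℤ) = (-x, y + 1)
    ext <;> simp only <;> ring

theorem mrf_sd (f : ℤ × ℤ) (k : ZMod 4) :
    sd ZQ (mrf f) (0 - k) = (Prod.map mrv mrv (sd ZQ f k)).swap := by
  unfold sd
  have h1 := mrf_cor f (k + 1)
  have h2 := mrf_cor f k
  rw [show (1 : ZMod 4) - (k + 1) = 0 - k by ring] at h1
  rw [show (0 : ZMod 4) - k + 1 = 1 - k by ring, h1, h2]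
  rfl

theorem disc_mir {U : Set (ℤ × ℤ)} (h : ∃ w, Disc ZQ U (Glued ZQ U) w) :
    ∃ w, Disc ZQ (mrf '' U) (Glued ZQ (mrf '' U)) w := by
  obtain ⟨w, hw⟩ := h
  have h1 := hw.mirror (Q' := ZQ) mrf 0 (fun e => (Prod.map mrv mrv e).swap) mrf_inj.injOn
    (fun f _ k => (mrf_sd f k).symm) (fun _ _ => rfl)
  refine ⟨_, h1.complete ?_⟩
  intro x hx
  rw [List.mem_reverse] at hx
  obtain ⟨z, hz, rfl⟩ := List.mem_map.1 hx
  obtain ⟨⟨f, hf, k, h2⟩, h3⟩ := hw.bd hz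
  rintro ⟨_, ⟨g, hg, rfl⟩, l, hl⟩
  apply h3
  have h4 : (Prod.map mrv mrv z.1).swap.swap = sd ZQ (mrf g) l := hl
  rw [Prod.swap_swap] at h4
  have h5 := mrf_sd g (0 - l)
  rw [show (0 : ZMod 4) - (0 - l) = l by ring] at h5
  rw [h5] at h4
  refine ⟨g, hg, 0 - l, ?_⟩
  have h6 : Prod.map mrv mrv z.1.swap = Prod.map mrv mrv (sd ZQ g (0 - l)) := by
    have := congrArg Prod.swap h4
    exact this
  exact Prod.ext (mrv_inj (congrArg Prod.fst h6)) (mrv_inj (congrArg Prod.snd h6))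

/-! ## The doubled complex -/

section Dbl

variable {V Φ VB ΦB ι κ : Type} [DecidableEq V] [DecidableEq Φ] {Q : QC V Φ} {B : QC VB ΦB}
  {F : Finset Φ} {F0 : Set Φ} {ψ : Φ → ΦB} {pv : V → VB} {rf : Φ → ZMod 4} {m : κ → V × V}
  {hm : OneSided Q F m} {θv : VB → VB} {θf : ΦB → ΦB} {s : ZMod 4} {H : Set ΦB}

/-- A reflection of `B` and a half `H` of its faces; `s = 3`: horizontal line, `s = 1`: vertical line. -/
structure RefOK (B : QC VB ΦB) (θv : VB → VB) (θf : ΦB → ΦB) (s : ZMod 4) (H : Set ΦB) : Prop where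
  s13 : s = 3 ∨ s = 1
  inv : ∀ f, θf (θf f) = f
  invv : ∀ v, θv (θv v) = v
  cor : ∀ f k, B.c (θf f) (s - k) = θv (B.c f k)
  half : ∀ f ∈ H, θf f ∉ H

theorem dbl_false {f : Φ} (hf : f ∈ F) (k : ZMod 4) :
    (dbl Q F m hm).c (f, false) k = dblV m false (Q.c f k) := by
  unfold dbl
  simp [hf]

theorem dbl_true {f : Φ} (hf : f ∈ F) (k : ZMod 4) :
    (dbl Q F m hm).c (f, true) k = dblV m true (Q.c f (3 - k)) := by
  unfold dbl
  simp [hf]

/-- position of the vertices of the doubled complex -/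
def dpv (θv : VB → VB) (pv : V → VB) (z : V × Bool × Bool) : VB :=
  if z.2.1 = true then θv (pv z.1) else pv z.1

/-- position of the faces -/
def dψ (θf : ΦB → ΦB) (ψ : Φ → ΦB) (z : Φ × Bool) : ΦB := if z.2 = true then θf (ψ z.1) else ψ z.1

/-- rotation of the labels -/
def drf (s : ZMod 4) (rf : Φ → ZMod 4) (z : Φ × Bool) : ZMod 4 :=
  if z.2 = true then s - 3 - rf z.1 else rf z.1

/-- both copies of a set of faces -/
def dF (A : Set Φ) : Set (Φ × Bool) := {z | z.1 ∈ A}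

theorem dpv_false (v : V) : dpv θv pv (dblV m false v) = pv v := by
  unfold dpv dblV
  simp

theorem dpv_true (hc : ∀ v, onCut m v → θv (pv v) = pv v) (v : V) :
    dpv θv pv (dblV m true v) = θv (pv v) := by
  unfold dpv dblV
  by_cases h : onCut m v
  · simp [h, hc v h]
  · simp [h]

theorem zneg3 (s : ZMod 4) (hs : s = 3 ∨ s = 1) (r : ZMod 4) (hr : r = 0 ∨ r = 2) :
    s - 3 - r = 0 ∨ s - 3 - r = 2 := by
  rcases hs with rfl | rfl <;> rcases hr with rfl | rfl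
  · left; decide
  · right; decide
  · right; decide
  · left; decide

/-- The base faces of the doubled complex. -/
theorem emb_dbl (hE : Emb Q B rf ψ pv F0) (hR : RefOK B θv θf s H) (hF : F0 ⊆ (F : Set Φ))
    (hH : ψ '' F0 ⊆ H) (hc : ∀ v, onCut m v → θv (pv v) = pv v) :
    Emb (dbl Q F m hm) B (drf s rf) (dψ θf ψ) (dpv θv pv) (dF F0) where
  inj := by
    rintro ⟨f, b⟩ hf ⟨g, b'⟩ hg h
    have hf' : f ∈ F0 := hf
    have hg' : g ∈ F0 := hg
    unfold dψ at h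
    cases b <;> cases b'
    · simp only [Bool.false_eq_true, if_false] at h
      rw [hE.inj hf' hg' h]
    · simp only [Bool.false_eq_true, if_false, if_true] at h
      exact absurd (hH ⟨f, hf', rfl⟩) (h ▸ hR.half _ (hH ⟨g, hg', rfl⟩))
    · simp only [Bool.false_eq_true, if_false, if_true] at h
      exact absurd (hH ⟨g, hg', rfl⟩) (h ▸ hR.half _ (hH ⟨f, hf', rfl⟩))
    · simp only [if_true] at h
      have h1 := congrArg θf h
      rw [hR.inv, hR.inv] at h1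
      rw [hE.inj hf' hg' h1]
  c := by
    rintro ⟨f, b⟩ hf k
    have hf' : f ∈ F0 := hf
    have hfF : f ∈ F := Finset.mem_coe.1 (hF hf')
    cases b
    · rw [dbl_false hfF, dpv_false]
      exact hE.c f hf' k
    · rw [dbl_true hfF, dpv_true hc]
      show B.c (θf (ψ f)) (k + (s - 3 - rf f)) = _
      have h1 := hE.c f hf' (3 - k)
      have h2 := hR.cor (ψ f) (3 - k + rf f)
      rw [h1] at h2
      rw [← h2]
      congr 1
      ring
  r02 := by
    rintro ⟨f, b⟩ hf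
    have hf' : f ∈ F0 := hf
    cases b
    · exact hE.r02 f hf'
    · exact zneg3 s hR.s13 _ (hE.r02 f hf')

variable {U : Set (ℤ × ℤ)} {φ : ℤ × ℤ → Φ} {x₁ y : ℤ} {l : ℕ} {r rt : ZMod 4} {φt : ℤ × ℤ → ΦB}
  {pos : ℤ × ℤ → VB}

theorem cross_cut {a a' : V × V} (h : dblA m false a = dblA m true a') :
    a = a' ∧ onCut m a.1 ∧ onCut m a.2 := by
  have h1 : dblV m false a.1 = dblV m true a'.1 := congrArg Prod.fst h
  have h2 : dblV m false a.2 = dblV m true a'.2 := congrArg Prod.snd h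
  obtain ⟨e1, c1⟩ := dblV_cross h1
  obtain ⟨e2, c2⟩ := dblV_cross h2
  exact ⟨Prod.ext e1 e2, c1, c2⟩

theorem sides_dF {A : Set Φ} (hA : A ⊆ (F : Set Φ)) {e : (V × Bool × Bool) × (V × Bool × Bool)}
    (he : e ∈ Sides (dbl Q F m hm) (dF A)) :
    ∃ a ∈ Sides Q A, e = dblA m false a ∨ e = (dblA m true a).swap := by
  obtain ⟨⟨f, b⟩, hf, k, rfl⟩ := he
  have hf' : f ∈ A := hf
  have hfF : f ∈ F := Finset.mem_coe.1 (hA hf')
  cases b
  · exact ⟨_, ⟨f, hf', k, rfl⟩, Or.inl (sd_dbl_false hfF k)⟩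
  · refine ⟨_, ⟨f, hf', 2 - k, rfl⟩, Or.inr ?_⟩
    rw [sd_dbl_true hfF]
    rfl

/-- The first copy of a pocket. -/
theorem PPocket.dbl_false (h : PPocket Q B F0 ψ pv U φ x₁ y l r rt φt pos)
    (hR : RefOK B θv θf s H) (hF : F0 ⊆ (F : Set Φ)) (hH : ψ '' F0 ⊆ H)
    (hU : φ '' U ⊆ (F : Set Φ)) (hT : φt '' Tri x₁ y l ⊆ H)
    (hcut : ∀ f ∈ U, ∀ k, ¬ onCut m (Q.c (φ f) k)) :
    PPocket (dbl Q F m hm) B (dF F0) (dψ θf ψ) (dpv θv pv) U (fun f => (φ f, false)) x₁ y l r rt φt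
      pos where
  emb := by
    refine ⟨?_, h.emb.inj, ?_⟩
    · intro f hf k
      have hfF : φ f ∈ F := Finset.mem_coe.1 (hU ⟨f, hf, rfl⟩)
      rw [SixB.dbl_false hfF, dpv_false]
      exact h.emb.cor f hf k
    · intro f hf k g hg j hs
      have hfF : φ f ∈ F := Finset.mem_coe.1 (hU ⟨f, hf, rfl⟩)
      have hgF : φ g ∈ F := Finset.mem_coe.1 (hU ⟨g, hg, rfl⟩)
      rw [sd_dbl_false hfF, sd_dbl_false hgF, ← h.emb.glue f hf k g hg j hs]
      rfl
  disc := h.disc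
  row := h.row
  disj := fun f hf hf0 => h.disj f hf hf0
  mem := by
    intro f hf k hs
    have hfF : φ f ∈ F := Finset.mem_coe.1 (hU ⟨f, hf, rfl⟩)
    rw [sd_dbl_false hfF] at hs
    obtain ⟨a, ha, h1 | h1⟩ := sides_dF hF hs
    · have h2 : dblA m false (sd Q (φ f) (k + r)).swap = dblA m false a := h1
      have h3 := dblA_inj h2
      exact h.mem f hf k (h3 ▸ ha)
    · exfalso
      have h2 : dblA m false (sd Q (φ f) (k + r)) = dblA m true a := by
        have := congrArg Prod.swap h1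
        simpa using this
      exact hcut f hf _ (cross_cut h2).2.1
  tri := h.tri
  disj' := by
    rintro f hf ⟨⟨g, b⟩, hg, hgf⟩
    have hg' : g ∈ F0 := hg
    cases b
    · exact h.disj' f hf ⟨g, hg', hgf⟩
    · have h1 : θf (ψ g) = φt f := hgf
      exact hR.half _ (hH ⟨g, hg', rfl⟩) (h1 ▸ hT ⟨f, hf, rfl⟩)

/-- The second copy of a pocket. -/
theorem PPocket.dbl_true (h : PPocket Q B F0 ψ pv U φ x₁ y l r rt φt pos)
    (hR : RefOK B θv θf s H) (hF : F0 ⊆ (F : Set Φ)) (hH : ψ '' F0 ⊆ H)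
    (hU : φ '' U ⊆ (F : Set Φ)) (hT : φt '' Tri x₁ y l ⊆ H)
    (hcut : ∀ f ∈ U, ∀ k, ¬ onCut m (Q.c (φ f) k)) (hc : ∀ v, onCut m v → θv (pv v) = pv v) :
    PPocket (dbl Q F m hm) B (dF F0) (dψ θf ψ) (dpv θv pv) (mrf '' U) (fun f => (φ (mrf f), true))
      (-(x₁ + l)) y l (2 - r) (s - 1 - rt) (fun f => θf (φt (mrf f)))
      (fun v => θv (pos (mrv v))) := by
  have hmem : ∀ f, f ∈ mrf '' U ↔ mrf f ∈ U := by
    intro f
    constructor
    · rintro ⟨g, hg, rfl⟩; rw [mrf_mrf]; exact hg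
    · intro h; exact ⟨_, h, mrf_mrf f⟩
  have hcorm : ∀ f k, ZQ.c (mrf f) k = mrv (ZQ.c f (1 - k)) := by
    intro f k
    have := mrf_cor f (1 - k)
    rwa [show (1 : ZMod 4) - (1 - k) = k by ring] at this
  have htri : ∀ f, f ∈ Tri (-(x₁ + l)) y (l : ℕ) ↔ mrf f ∈ Tri x₁ y (l : ℕ) := by
    intro f
    unfold Tri mrf
    simp only [Set.mem_ofPred_eq]
    constructor
    · rintro ⟨a, b, c⟩; exact ⟨by omega, by omega, by omega⟩
    · rintro ⟨a, b, c⟩; exact ⟨by omega, by omega, by omega⟩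
  have hFm : ∀ f, mrf f ∈ U → φ (mrf f) ∈ F := fun f hf =>
    Finset.mem_coe.1 (hU ⟨mrf f, hf, rfl⟩)
  refine ⟨⟨?_, ?_, ?_⟩, disc_mir h.disc, ?_, ?_, ?_, ⟨?_, ?_, ?_⟩, ?_⟩
  · intro f hf k
    have hf' := (hmem f).1 hf
    rw [SixB.dbl_true (hFm f hf'), dpv_true hc]
    have h1 := h.emb.cor (mrf f) hf' (1 - k)
    rw [hcorm, show (1 : ZMod 4) - (1 - k) = k by ring] at h1
    rw [show (3 : ZMod 4) - (k + (2 - r)) = 1 - k + r by ring, h1]
  · intro u hu v hv huv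
    have hvert : ∀ v ∈ verts (mrf '' U), mrv v ∈ verts U := by
      rintro _ ⟨f, hf, k, rfl⟩
      refine ⟨mrf f, (hmem f).1 hf, 1 - k, ?_⟩
      rw [hcorm, show (1 : ZMod 4) - (1 - k) = k by ring]
    have h1 : pos (mrv u) = pos (mrv v) := by
      have := congrArg θv huv
      simpa only [hR.invv] using this
    exact mrv_inj (h.emb.inj (hvert u hu) (hvert v hv) h1)
  · intro f hf k g hg j hs
    have hf' := (hmem f).1 hf
    have hg' := (hmem g).1 hg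
    rw [sd_dbl_true (hFm f hf'), sd_dbl_true (hFm g hg'),
      show (2 : ZMod 4) - (k + (2 - r)) = -k + r by ring,
      show (2 : ZMod 4) - (j + (2 - r)) = -j + r by ring]
    have h1 : (sd ZQ (mrf f) (-k)).swap = sd ZQ (mrf g) (-j) := by
      have e1 := mrf_sd f k
      have e2 := mrf_sd g j
      rw [zero_sub] at e1 e2
      rw [e1, e2, ← hs]
      rfl
    have h2 := h.emb.glue _ hf' _ _ hg' _ h1
    rw [← h2]
    rfl
  · intro x h1 h2
    have h3 := h.row (-1 - x) (by omega) (by omega)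
    exact ⟨(hmem _).2 h3.1, fun h4 => h3.2 ((hmem _).1 h4)⟩
  · intro f hf hf0
    exact h.disj _ ((hmem f).1 hf) hf0
  · intro f hf k hs
    have hf' := (hmem f).1 hf
    rw [sd_dbl_true (hFm f hf'), show (2 : ZMod 4) - (k + (2 - r)) = -k + r by ring] at hs
    have hs' : dblA m true (sd Q (φ (mrf f)) (-k + r)) ∈ Sides (dbl Q F m hm) (dF F0) := hs
    obtain ⟨a, ha, h1 | h1⟩ := sides_dF hF hs'
    · exfalso
      obtain ⟨h2, h3, h4⟩ := cross_cut h1.symm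
      rw [h2] at h3
      exact hcut _ hf' _ h3
    · have h2 : dblA m true (sd Q (φ (mrf f)) (-k + r)).swap = dblA m true a := by
        have h2 := congrArg Prod.swap h1
        rw [Prod.swap_swap] at h2
        exact h2
      have h3 := dblA_inj h2
      obtain ⟨p, p1, p2, p3⟩ := h.mem _ hf' (-k) (h3 ▸ ha)
      refine ⟨-1 - p, by omega, by omega, ?_⟩
      have e1 := mrf_sd (mrf f) (-k)
      rw [mrf_mrf, show (0 : ZMod 4) - -k = k by ring, p3] at e1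
      rw [e1]
      unfold mo mrv
      simp only [Prod.map_apply, Prod.swap_prod_mk]
      congr 2 <;> ring
  · intro f hf g hg hfg
    have h1 : φt (mrf f) = φt (mrf g) := by
      have := congrArg θf hfg
      simpa only [hR.inv] using this
    exact mrf_inj (h.tri.inj ((htri f).1 hf) ((htri g).1 hg) h1)
  · intro f hf k
    have h1 := h.tri.c (mrf f) ((htri f).1 hf) (1 - k)
    have h2 := hR.cor (φt (mrf f)) (1 - k + rt)
    rw [h1, hcorm, show (1 : ZMod 4) - (1 - k) = k by ring] at h2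
    rw [← h2]
    congr 1
    ring
  · intro f hf
    have h1 : rt = 0 ∨ rt = 2 := h.tri.r02 (mrf f) ((htri f).1 hf)
    show s - 1 - rt = 0 ∨ s - 1 - rt = 2
    rcases hR.s13 with rfl | rfl <;> rcases h1 with rfl | rfl
    · right; decide
    · left; decide
    · left; decide
    · right; decide
  · rintro f hf ⟨⟨g, b⟩, hg, hgf⟩
    have hg' : g ∈ F0 := hg
    have hf' := (htri f).1 hf
    cases b
    · have h1 : ψ g = θf (φt (mrf f)) := hgf
      exact hR.half _ (hT ⟨_, hf', rfl⟩) (h1 ▸ hH ⟨g, hg', rfl⟩)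
    · have h1 : θf (ψ g) = θf (φt (mrf f)) := hgf
      have h2 := congrArg θf h1
      rw [hR.inv, hR.inv] at h2
      exact h.disj' _ hf' ⟨g, hg', h2⟩

end Dbl

/-! ## T1 -/

section Main

variable {V Φ VB ΦB ι κ : Type} [DecidableEq V] [DecidableEq Φ] {Q : QC V Φ} {B : QC VB ΦB}
  {F : Finset Φ} {F0 : Set Φ} {ψ : Φ → ΦB} {pv : V → VB} {rf : Φ → ZMod 4} {m : κ → V × V}
  {hm : OneSided Q F m} {θv : VB → VB} {θf : ΦB → ΦB} {s : ZMod 4} {H : Set ΦB}
  {U : ι → Set (ℤ × ℤ)} {φ : ι → ℤ × ℤ → Φ} {x₁ y : ι → ℤ} {l : ι → ℕ} {r rt : ι → ZMod 4}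
  {φt : ι → ℤ × ℤ → ΦB} {pos : ι → ℤ × ℤ → VB}

/-- A complex with planar pockets on one side of a reflection line of the base, and a cut line. -/
structure HalfOK (Q : QC V Φ) (B : QC VB ΦB) (F : Finset Φ) (F0 : Set Φ) (ψ : Φ → ΦB) (pv : V → VB)
    (rf : Φ → ZMod 4) (m : κ → V × V) (θv : VB → VB) (θf : ΦB → ΦB) (s : ZMod 4) (H : Set ΦB)
    (U : ι → Set (ℤ × ℤ)) (φ : ι → ℤ × ℤ → Φ) (x₁ y : ι → ℤ) (l : ι → ℕ) (r rt : ι → ZMod 4)
    (φt : ι → ℤ × ℤ → ΦB) (pos : ι → ℤ × ℤ → VB) : Prop where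
  emb : Emb Q B rf ψ pv F0
  pock : ∀ i, PPocket Q B F0 ψ pv (U i) (φ i) (x₁ i) (y i) (l i) (r i) (rt i) (φt i) (pos i)
  sep : ∀ i j, i ≠ j → ∀ e ∈ Sides Q (φ i '' U i), e.swap ∉ Sides Q (φ j '' U j)
  tri : ∀ i j, i ≠ j → Disjoint (φt i '' Tri (x₁ i) (y i) (l i)) (φt j '' Tri (x₁ j) (y j) (l j))
  ref : RefOK B θv θf s H
  sub0 : F0 ⊆ (F : Set Φ)
  subU : ∀ i, φ i '' U i ⊆ (F : Set Φ)
  half0 : ψ '' F0 ⊆ H
  halfT : ∀ i, φt i '' Tri (x₁ i) (y i) (l i) ⊆ H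
  cut : ∀ v, onCut m v → θv (pv v) = pv v
  nocut : ∀ i, ∀ f ∈ U i, ∀ k, ¬ onCut m (Q.c (φ i f) k)

theorem dF_union_iUnion (A : Set Φ) (P : ι → Set Φ) :
    dF (A ∪ ⋃ i, P i) = dF A ∪ ⋃ j : ι × Bool, (fun z => (z, j.2)) '' P j.1 := by
  ext ⟨f, b⟩
  constructor
  · rintro (hf | hf)
    · exact Or.inl hf
    · obtain ⟨i, hf⟩ := Set.mem_iUnion.1 hf
      exact Or.inr (Set.mem_iUnion.2 ⟨(i, b), f, hf, rfl⟩)
  · rintro (hf | hf)
    · exact Or.inl hf
    · obtain ⟨⟨i, b'⟩, g, hg, hgf⟩ := Set.mem_iUnion.1 hf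
      obtain ⟨rfl, rfl⟩ := Prod.mk.inj hgf
      exact Or.inr (Set.mem_iUnion.2 ⟨i, hg⟩)

/-- the planar pockets of the double -/
theorem HalfOK.dbl_pock (h : HalfOK Q B F F0 ψ pv rf m θv θf s H U φ x₁ y l r rt φt pos)
    (j : ι × Bool) :
    ∃ (U' : Set (ℤ × ℤ)) (φ' : ℤ × ℤ → Φ × Bool) (x₁' : ℤ) (r' rt' : ZMod 4)
      (φt' : ℤ × ℤ → ΦB) (pos' : ℤ × ℤ → VB),
      PPocket (dbl Q F m hm) B (dF F0) (dψ θf ψ) (dpv θv pv) U' φ' x₁' (y j.1) (l j.1) r' rt' φt'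
        pos' ∧ φ' '' U' = (fun z => (z, j.2)) '' (φ j.1 '' U j.1) ∧
        φt' '' Tri x₁' (y j.1) (l j.1) =
          (if j.2 = true then θf '' (φt j.1 '' Tri (x₁ j.1) (y j.1) (l j.1)) else
            φt j.1 '' Tri (x₁ j.1) (y j.1) (l j.1)) := by
  obtain ⟨i, b⟩ := j
  cases b
  · refine ⟨_, _, _, _, _, _, _, (h.pock i).dbl_false h.ref h.sub0 h.half0 (h.subU i) (h.halfT i)
      (h.nocut i), ?_, ?_⟩
    · rw [Set.image_image]
    · simp
  · refine ⟨_, _, _, _, _, _, _, (h.pock i).dbl_true h.ref h.sub0 h.half0 (h.subU i) (h.halfT i)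
      (h.nocut i) h.cut, ?_, ?_⟩
    · rw [Set.image_image, Set.image_image]
      simp only [mrf_mrf]
    · simp only [if_true]
      ext g
      constructor
      · rintro ⟨f, ⟨a, b, c⟩, rfl⟩
        refine ⟨_, ⟨mrf f, ⟨a, ?_, ?_⟩, rfl⟩, rfl⟩
        · simp only [mrf]; omega
        · simp only [mrf]; omega
      · rintro ⟨_, ⟨f, ⟨a, b, c⟩, rfl⟩, rfl⟩
        refine ⟨mrf f, ⟨a, ?_, ?_⟩, ?_⟩
        · simp only [mrf]; omega
        · simp only [mrf]; omega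
        · simp only [mrf_mrf]

theorem HalfOK.dbl_sep (h : HalfOK Q B F F0 ψ pv rf m θv θf s H U φ x₁ y l r rt φt pos)
    {j j' : ι × Bool} (hj : j ≠ j') {e : (V × Bool × Bool) × (V × Bool × Bool)}
    (he : e ∈ Sides (dbl Q F m hm) ((fun z => (z, j.2)) '' (φ j.1 '' U j.1))) :
    e.swap ∉ Sides (dbl Q F m hm) ((fun z => (z, j'.2)) '' (φ j'.1 '' U j'.1)) := by
  obtain ⟨i, b⟩ := j
  obtain ⟨i', b'⟩ := j'
  intro he'
  -- a side of the copy `b`
  have key : ∀ (i : ι) (b : Bool) (e : (V × Bool × Bool) × (V × Bool × Bool)),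
      e ∈ Sides (dbl Q F m hm) ((fun z => (z, b)) '' (φ i '' U i)) →
      ∃ a ∈ Sides Q (φ i '' U i), e = if b = true then (dblA m true a).swap else dblA m false a := by
    rintro i b e ⟨_, ⟨f, hf, rfl⟩, k, rfl⟩
    have hfF : f ∈ F := Finset.mem_coe.1 (h.subU i hf)
    cases b
    · exact ⟨_, ⟨f, hf, k, rfl⟩, sd_dbl_false hfF k⟩
    · refine ⟨_, ⟨f, hf, 2 - k, rfl⟩, ?_⟩
      rw [sd_dbl_true hfF]
      rfl
  have hno : ∀ (i : ι) (a : V × V), a ∈ Sides Q (φ i '' U i) → ¬ onCut m a.1 := by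
    rintro i a ⟨_, ⟨f, hf, rfl⟩, k, rfl⟩
    exact h.nocut i f hf k
  have hno2 : ∀ (i : ι) (a : V × V), a ∈ Sides Q (φ i '' U i) → ¬ onCut m a.2 := by
    rintro i a ⟨_, ⟨f, hf, rfl⟩, k, rfl⟩
    exact h.nocut i f hf (k + 1)
  obtain ⟨a, ha, h1⟩ := key i b e he
  obtain ⟨a', ha', h2⟩ := key i' b' _ he'
  cases b <;> cases b'
  · simp only [Bool.false_eq_true, if_false] at h1 h2
    have h3 : dblA m false a.swap = dblA m false a' := by rw [← h2, h1]; rfl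
    have h4 := dblA_inj h3
    have hii : i ≠ i' := fun e => hj (by rw [e])
    exact h.sep i i' hii a ha (h4 ▸ ha')
  · simp only [Bool.false_eq_true, if_false, if_true] at h1 h2
    have h3 : dblA m false a = dblA m true a' := by
      have := congrArg Prod.swap h2
      rw [Prod.swap_swap, Prod.swap_swap] at this
      rw [← this, h1]
    exact hno i a ha (cross_cut h3).2.1
  · simp only [Bool.false_eq_true, if_false, if_true] at h1 h2
    have h3 : dblA m false a' = dblA m true a := by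
      rw [← h2, h1, Prod.swap_swap]
    exact hno i' a' ha' (cross_cut h3).2.1
  · simp only [if_true] at h1 h2
    have h3 : dblA m true a = dblA m true a'.swap := by
      have h4 : e.swap = dblA m true a := by rw [h1, Prod.swap_swap]
      rw [← h4, h2]
      rfl
    have h4 := dblA_inj h3
    have hii : i ≠ i' := fun e => hj (by rw [e])
    refine h.sep i i' hii a ha ?_
    rw [h4, Prod.swap_swap]
    exact ha'

theorem HalfOK.dbl_tri (h : HalfOK Q B F F0 ψ pv rf m θv θf s H U φ x₁ y l r rt φt pos)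
    {j j' : ι × Bool} (hj : j ≠ j') :
    Disjoint (if j.2 = true then θf '' (φt j.1 '' Tri (x₁ j.1) (y j.1) (l j.1)) else
        φt j.1 '' Tri (x₁ j.1) (y j.1) (l j.1))
      (if j'.2 = true then θf '' (φt j'.1 '' Tri (x₁ j'.1) (y j'.1) (l j'.1)) else
        φt j'.1 '' Tri (x₁ j'.1) (y j'.1) (l j'.1)) := by
  obtain ⟨i, b⟩ := j
  obtain ⟨i', b'⟩ := j'
  cases b <;> cases b'
  · simp only [Bool.false_eq_true, if_false]
    exact h.tri i i' (fun e => hj (by rw [e]))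
  · simp only [Bool.false_eq_true, if_false, if_true]
    rw [Set.disjoint_left]
    rintro g hg ⟨g', hg', rfl⟩
    exact h.ref.half _ (h.halfT i' hg') (h.halfT i hg)
  · simp only [Bool.false_eq_true, if_false, if_true]
    rw [Set.disjoint_left]
    rintro _ ⟨g', hg', rfl⟩ hg
    exact h.ref.half _ (h.halfT i hg') (h.halfT i' hg)
  · simp only [if_true]
    rw [Set.disjoint_left]
    rintro _ ⟨g, hg, rfl⟩ ⟨g', hg', hgg⟩
    have h1 := congrArg θf hgg
    rw [h.ref.inv, h.ref.inv] at h1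
    rw [h1] at hg'
    exact Set.disjoint_left.1 (h.tri i i' (fun e => hj (by rw [e]))) hg hg'

/-- **T1 OF THE DOUBLED COMPLEX.** -/
theorem HalfOK.t1_dbl (h : HalfOK Q B F F0 ψ pv rf m θv θf s H U φ x₁ y l r rt φt pos)
    (hT : ∀ ω', T1 B ω' Set.univ) (ω : Φ × Bool → Bool) :
    T1 (dbl Q F m hm) ω (dF (F0 ∪ ⋃ i, φ i '' U i)) := by
  choose U' φ' x₁' r' rt' φt' pos' hP hU' hT' using fun j => h.dbl_pock (hm := hm) j
  have h1 := t1_planar_pockets (emb_dbl (hm := hm) h.emb h.ref h.sub0 h.half0 h.cut) hP (by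
    intro j j' hj e he
    rw [hU'] at he ⊢
    exact h.dbl_sep hj he) (by
    intro j j' hj
    rw [hT', hT']
    exact h.dbl_tri hj) hT ω
  simp only [hU'] at h1
  rw [dF_union_iUnion]
  exact h1

/-- **SIMULATION FOR THE DOUBLED COMPLEX**: walks with both ends at base sides. -/
theorem HalfOK.sim_dbl (h : HalfOK Q B F F0 ψ pv rf m θv θf s H U φ x₁ y l r rt φt pos)
    (ω : Φ × Bool → Bool) :
    ∃ ω' : ΦB → Bool, (∀ f ∈ F0, ω' (ψ f) = ω (f, false) ∧ ω' (θf (ψ f)) = ω (f, true)) ∧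
      ∀ a b n t, (a ∈ Sides (dbl Q F m hm) (dF F0) ∨ a.swap ∈ Sides (dbl Q F m hm) (dF F0)) →
        (b ∈ Sides (dbl Q F m hm) (dF F0) ∨ b.swap ∈ Sides (dbl Q F m hm) (dF F0)) →
        Walk (dbl Q F m hm) ω (dF (F0 ∪ ⋃ i, φ i '' U i)) Set.univ n a b t →
        ∃ n', Walk B ω' {g | ∃ g' ∈ ψ '' F0 ∪ ⋃ i, φt i '' Tri (x₁ i) (y i) (l i), g = g' ∨ g = θf g'}
          Set.univ n' (Prod.map (dpv θv pv) (dpv θv pv) a) (Prod.map (dpv θv pv) (dpv θv pv) b) t := by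
  choose U' φ' x₁' r' rt' φt' pos' hP hU' hT' using fun j => h.dbl_pock (hm := hm) j
  obtain ⟨ω', h1, h2⟩ := planar_pockets_sim
    (emb_dbl (hm := hm) h.emb h.ref h.sub0 h.half0 h.cut) hP (by
    intro j j' hj e he
    rw [hU'] at he ⊢
    exact h.dbl_sep hj he) (by
    intro j j' hj
    rw [hT', hT']
    exact h.dbl_tri hj) ω
  have hF : dF F0 ∪ ⋃ j, φ' j '' U' j = dF (F0 ∪ ⋃ i, φ i '' U i) := by
    simp only [hU']
    rw [dF_union_iUnion]
  rw [hF] at h2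
  refine ⟨ω', fun f hf => ⟨h1 (f, false) hf, h1 (f, true) hf⟩, ?_⟩
  intro a b n t ha hb hW
  obtain ⟨n', h3⟩ := h2 a b n t ha hb hW
  refine ⟨n', h3.mono ?_ subset_rfl⟩
  rintro g (⟨⟨f, b⟩, hf, rfl⟩ | hg)
  · have hf' : f ∈ F0 := hf
    cases b
    · exact ⟨ψ f, Or.inl ⟨f, hf', rfl⟩, Or.inl rfl⟩
    · exact ⟨ψ f, Or.inl ⟨f, hf', rfl⟩, Or.inr rfl⟩
  · obtain ⟨⟨i, b⟩, hg⟩ := Set.mem_iUnion.1 hg
    have hg' : g ∈ φt' (i, b) '' Tri (x₁' (i, b)) (y i) (l i) := hg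
    rw [hT'] at hg'
    cases b
    · simp only [Bool.false_eq_true, if_false] at hg'
      exact ⟨g, Or.inr (Set.mem_iUnion.2 ⟨i, hg'⟩), Or.inl rfl⟩
    · simp only [if_true] at hg'
      obtain ⟨g', hg', rfl⟩ := hg'
      exact ⟨g', Or.inr (Set.mem_iUnion.2 ⟨i, hg'⟩), Or.inr rfl⟩

end Main

end Pool.Agent.SixB
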