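import Pool.Agent.Lib.SixB.S3bPoly
import Pool.Agent.Lib.SixB.S3Defs

/-!
# T1 for the plane with pockets

`t1_SP`: every complex `SP μ` (plane with pockets glued along horizontal mouths) has `T1` if the
pockets are discs and there is a triangle of solid faces over every mouth (on the side of the
pocket). `sim_SP`: the strands between base sides are those of the plane for a suitable configuration.
`SEnv.t1`: the environments.
-/

set_option autoImplicit false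

namespace Pool.Agent.SixB

open Pool.Agent.Perc Pool.Agent.Perc.Q

/-! ## Rotation by 180 degrees -/

/-- rotation of the vertices -/
def rv2 (c : ℤ × ℤ) (v : ℤ × ℤ) : ℤ × ℤ := (c.1 - v.1, c.2 - v.2)

/-- rotation of the faces -/
def rf2 (c : ℤ × ℤ) (f : ℤ × ℤ) : ℤ × ℤ := (c.1 - 1 - f.1, c.2 - 1 - f.2)

theorem rv2_rv2 (c v : ℤ × ℤ) : rv2 c (rv2 c v) = v := by
  ext <;> simp [rv2]

theorem rf2_rf2 (c v : ℤ × ℤ) : rf2 c (rf2 c v) = v := by
  ext <;> simp [rf2]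

theorem rf2_cor (c f : ℤ × ℤ) (k : ZMod 4) : ZQ.c (rf2 c f) (k + 2) = rv2 c (ZQ.c f k) := by
  obtain ⟨x, y⟩ := f
  rcases k4_cases k with rfl | rfl | rfl | rfl
  · show ((c.1 - 1 - x + 1, c.2 - 1 - y + 1) : ℤ × ℤ) = (c.1 - x, c.2 - y)
    ext <;> simp only <;> ring
  · show ((c.1 - 1 - x, c.2 - 1 - y + 1) : ℤ × ℤ) = (c.1 - (x + 1), c.2 - y)
    ext <;> simp only <;> ring
  · show ((c.1 - 1 - x, c.2 - 1 - y) : ℤ × ℤ) = (c.1 - (x + 1), c.2 - (y + 1))
    ext <;> simp only <;> ring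
  · show ((c.1 - 1 - x + 1, c.2 - 1 - y) : ℤ × ℤ) = (c.1 - x, c.2 - (y + 1))
    ext <;> simp only <;> ring

theorem rf2_sd (c f : ℤ × ℤ) (k : ZMod 4) :
    sd ZQ (rf2 c f) (k + 2) = Prod.map (rv2 c) (rv2 c) (sd ZQ f k) := by
  unfold sd
  rw [rf2_cor, show k + 2 + 1 = k + 1 + 2 by ring, rf2_cor]
  rfl

theorem emb_id (R : Set (ℤ × ℤ)) : Emb ZQ ZQ (fun _ => 0) id id R where
  inj := fun _ _ _ _ h => h
  c := fun f _ k => by rw [add_zero]; rfl
  r02 := fun _ _ => Or.inl rfl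

theorem rf2_inj (c : ℤ × ℤ) : Function.Injective (rf2 c) := fun f g h => by
  rw [← rf2_rf2 c f, h, rf2_rf2]

theorem rv2_inj (c : ℤ × ℤ) : Function.Injective (rv2 c) := fun f g h => by
  rw [← rv2_rv2 c f, h, rv2_rv2]

theorem emb_rot (c : ℤ × ℤ) (R : Set (ℤ × ℤ)) : Emb ZQ ZQ (fun _ => 2) (rf2 c) (rv2 c) R where
  inj := (rf2_inj c).injOn
  c := fun f _ k => rf2_cor c f k
  r02 := fun _ _ => Or.inr rfl

theorem disc_rot {U : Set (ℤ × ℤ)} (c : ℤ × ℤ) (h : ∃ w, Disc ZQ U (Glued ZQ U) w) :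
    ∃ w, Disc ZQ (rf2 c '' U) (Glued ZQ (rf2 c '' U)) w := by
  obtain ⟨w, hw⟩ := h
  refine ⟨_, hw.lift (Q := ZQ) (φ := rf2 c) (r := 2) (pv := id) (pos := rv2 c) ⟨?_, ?_, ?_⟩⟩
  · intro f _ k
    exact rf2_cor c f k
  · exact (rv2_inj c).injOn
  · intro f _ k g _ l h
    rw [rf2_sd, rf2_sd, ← h]
    rfl

/-! ## Mouths -/

namespace Mouth

/-- the face of the column `x` at the mouth, on the side of the pocket -/
def inn (M : Mouth) (x : ℤ) : ℤ × ℤ := if M.up then (x, M.y) else (x, M.y - 1)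

/-- the face of the column `x` at the mouth, on the other side -/
def outf (M : Mouth) (x : ℤ) : ℤ × ℤ := if M.up then (x, M.y - 1) else (x, M.y)

/-- the triangle of faces over the mouth, on the side of the pocket -/
def tri (M : Mouth) (f : ℤ × ℤ) : Prop :=
  0 ≤ (if M.up then f.2 - M.y else M.y - 1 - f.2) ∧
    M.x1 + (if M.up then f.2 - M.y else M.y - 1 - f.2) ≤ f.1 ∧
    f.1 < M.x2 - (if M.up then f.2 - M.y else M.y - 1 - f.2)

/-- the pocket `U` and the base faces `B0` fit to the mouth -/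
structure OK (M : Mouth) (U B0 : Set (ℤ × ℤ)) : Prop where
  le : M.x1 ≤ M.x2
  disc : ∃ w, Disc ZQ U (Glued ZQ U) w
  inn : ∀ x, M.x1 ≤ x → x < M.x2 → M.inn x ∈ U
  outf : ∀ x, M.x1 ≤ x → x < M.x2 → M.outf x ∉ U
  left : M.inn (M.x1 - 1) ∉ U
  right : M.inn M.x2 ∉ U
  tri : ∀ f ∈ B0, ¬ M.tri f

end Mouth

/-- the sheet of a corner of a pocket face, mouth `[x1, x2] × {y}` -/
def shf {ι : Type} (i : ι) (x1 x2 y : ℤ) (f : ℤ × ℤ) (k : ZMod 4) : Option ι :=
  if x1 ≤ f.1 ∧ f.1 < x2 ∧ f.2 = y ∧ (k = 0 ∨ k = 1) then none else some i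

theorem shf_glue {ι : Type} {i : ι} {x1 x2 y : ℤ} {U : Set (ℤ × ℤ)}
    (ho : ∀ x, x1 ≤ x → x < x2 → (x, y - 1) ∉ U) (hl : (x1 - 1, y) ∉ U) (hr : (x2, y) ∉ U)
    {f g : ℤ × ℤ} (hf : f ∈ U) (hg : g ∈ U) {k l : ZMod 4} (h : (sd ZQ f k).swap = sd ZQ g l) :
    shf i x1 x2 y f (k + 1) = shf i x1 x2 y g l ∧ shf i x1 x2 y f k = shf i x1 x2 y g (l + 1) := by
  have n20 : (2 : ZMod 4) ≠ 0 := by decide
  have n21 : (2 : ZMod 4) ≠ 1 := by decide
  have n30 : (3 : ZMod 4) ≠ 0 := by decide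
  have n31 : (3 : ZMod 4) ≠ 1 := by decide
  have e1 : (0 : ZMod 4) + 1 = 1 := rfl
  have e2 : (1 : ZMod 4) + 1 = 2 := rfl
  have e3 : (2 : ZMod 4) + 1 = 3 := rfl
  have e4 : (3 : ZMod 4) + 1 = 0 := rfl
  have top : ∀ (z : ℤ × ℤ) (j : ZMod 4), j ≠ 0 → j ≠ 1 → shf i x1 x2 y z j = some i := by
    intro z j h0 h1
    unfold shf
    rw [if_neg]
    rintro ⟨-, -, -, h | h⟩
    · exact h0 h
    · exact h1 h
  -- a face above a face of `U` is not at the mouth
  have low : ∀ (x z : ℤ) (j : ZMod 4), (x, z - 1) ∈ U → shf i x1 x2 y (x, z) j = some i := by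
    intro x z j hU
    unfold shf
    rw [if_neg]
    rintro ⟨a, b, c, -⟩
    simp only at a b c
    rw [c] at hU
    exact ho x a b hU
  -- neighbours in a row
  have row : ∀ (x z : ℤ), (x, z) ∈ U → (x + 1, z) ∈ U →
      shf i x1 x2 y (x, z) 1 = shf i x1 x2 y (x + 1, z) 0 := by
    intro x z h1 h2
    have p1 : (1 : ZMod 4) = 0 ∨ (1 : ZMod 4) = 1 := Or.inr rfl
    have p0 : (0 : ZMod 4) = 0 ∨ (0 : ZMod 4) = 1 := Or.inl rfl
    show (if x1 ≤ x ∧ x < x2 ∧ z = y ∧ ((1 : ZMod 4) = 0 ∨ (1 : ZMod 4) = 1) then none else some i) =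
      (if x1 ≤ x + 1 ∧ x + 1 < x2 ∧ z = y ∧ ((0 : ZMod 4) = 0 ∨ (0 : ZMod 4) = 1) then none
        else some i)
    by_cases hz : z = y
    · subst hz
      have q1 : x ≠ x1 - 1 := fun e => hl (e ▸ h1)
      have q2 : x + 1 ≠ x2 := fun e => hr (e ▸ h2)
      by_cases hx : x1 ≤ x ∧ x < x2
      · rw [if_pos ⟨hx.1, hx.2, rfl, p1⟩, if_pos ⟨by omega, by omega, rfl, p0⟩]
      · rw [if_neg (fun h => hx ⟨h.1, h.2.1⟩), if_neg]
        rintro ⟨a, b, -⟩
        exact hx ⟨by omega, by omega⟩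
    · rw [if_neg (fun h => hz h.2.2.1), if_neg (fun h => hz h.2.2.1)]
  obtain ⟨x, z⟩ := f
  rcases k4_cases k with rfl | rfl | rfl | rfl
  · rw [sd_swap_0] at h
    obtain ⟨rfl, rfl⟩ := sd_inj h
    rw [e1, e3]
    exact ⟨by rw [low x z 1 hg, top _ 2 n20 n21], by rw [low x z 0 hg, top _ 3 n30 n31]⟩
  · rw [sd_swap_1] at h
    obtain ⟨rfl, rfl⟩ := sd_inj h
    rw [e2, e4]
    exact ⟨by rw [top _ 2 n20 n21, top _ 3 n30 n31], row x z hf hg⟩
  · rw [sd_swap_2] at h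
    obtain ⟨rfl, rfl⟩ := sd_inj h
    rw [e3, e1]
    have hf' : (x, z + 1 - 1) ∈ U := by rw [add_sub_cancel_right]; exact hf
    exact ⟨by rw [low x (z + 1) 0 hf', top _ 3 n30 n31],
      by rw [low x (z + 1) 1 hf', top _ 2 n20 n21]⟩
  · rw [sd_swap_3] at h
    obtain ⟨rfl, rfl⟩ := sd_inj h
    rw [e4, e2]
    have h1 := row (x - 1) z hg (by rw [sub_add_cancel]; exact hf)
    rw [sub_add_cancel] at h1
    exact ⟨h1.symm, by rw [top _ 3 n30 n31, top _ 2 n20 n21]⟩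

section SP

variable {ι : Type} {μ : ι → Mouth} {i : ι} {f : ℤ × ℤ} {k : ZMod 4}

/-- different mouths have no common vertices -/
def MthSep (μ : ι → Mouth) : Prop :=
  ∀ i j, i ≠ j → ∀ x, (μ i).x1 ≤ x → x ≤ (μ i).x2 → (μ j).x1 ≤ x → x ≤ (μ j).x2 → (μ i).y ≠ (μ j).y

theorem MthSep.adj (h : MthSep μ) {i j : ι} (hi : (μ i).adj f k) (hj : (μ j).adj f k) : i = j := by
  by_contra hne
  obtain ⟨a1, a2, a3⟩ := hi
  obtain ⟨b1, b2, b3⟩ := hj
  have h1 := h i j hne f.1 a1 a2.le b1 b2.le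
  have key : ∀ k : ZMod 4, (k = 0 ∨ k = 1) → ¬ (k = 2 ∨ k = 3) := by decide
  rcases a3 with ⟨-, a4, a5⟩ | ⟨-, a4, a5⟩ <;> rcases b3 with ⟨-, b4, b5⟩ | ⟨-, b4, b5⟩
  · omega
  · exact key k a5 b5
  · exact key k b5 a5
  · omega

open Classical in
/-- the sheet of a corner of a face of the pocket `i` -/
noncomputable def shM (M : Mouth) (i : ι) (f : ℤ × ℤ) (k : ZMod 4) : Option ι :=
  if M.adj f k then none else some i

theorem msig_self (h : MthSep μ) : msig μ f k (some i) = shM (μ i) i f k := by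
  classical
  unfold msig shM
  split_ifs with h1 h3 h3
  · rw [h.adj h1.choose_spec h3, Equiv.swap_apply_right]
  · have h4 : h1.choose ≠ i := fun e => h3 (e ▸ h1.choose_spec)
    have h5 : some i ≠ some h1.choose := fun e => h4 (Option.some.inj e).symm
    rw [Equiv.swap_apply_def, if_neg (Option.some_ne_none i), if_neg h5]
  · exact absurd ⟨i, h3⟩ h1
  · rfl

theorem msig_base (h : ∀ i, ¬ (μ i).adj f k) : msig μ f k none = none := by
  unfold msig
  rw [dif_neg (by rintro ⟨i, hi⟩; exact h i hi)]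
  rfl

theorem adj_tri (h : (μ i).adj f k) : (μ i).tri f := by
  obtain ⟨h1, h2, h3 | h3⟩ := h
  · obtain ⟨h3, h4, -⟩ := h3
    unfold Mouth.tri
    rw [h3]
    simp only [if_true]
    omega
  · obtain ⟨h3, h4, -⟩ := h3
    unfold Mouth.tri
    rw [h3]
    simp only [Bool.false_eq_true, if_false]
    omega

end SP

/-! ## Pockets over a base which is covered by the plane -/

section Cov

variable {ι VB ΦB : Type} {B : QC VB ΦB} {p : ℤ × ℤ → VB} {pf : ℤ × ℤ → ΦB}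
  {σ : ΦB → ZMod 4 → Equiv.Perm (Option ι)} {μ : ι → Mouth} {U : ι → Set (ℤ × ℤ)} {B0 : Set ΦB}
  {i : ι}

/-- the base faces -/
def bF (ι : Type) {ΦB : Type} (B0 : Set ΦB) : Set (Option ι × ΦB) := (fun f => (none, f)) '' B0

/-- the faces of a pocket -/
def pF {ι ΦB : Type} (pf : ℤ × ℤ → ΦB) (i : ι) (U : Set (ℤ × ℤ)) : Set (Option ι × ΦB) :=
  (fun f => (some i, pf f)) '' U

/-- Pockets `U i` at the mouths `μ i` over the base faces `B0` of `B`; `p`, `pf` is a local isomorphism from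
the plane to `B`. -/
structure CovOK (B : QC VB ΦB) (p : ℤ × ℤ → VB) (pf : ℤ × ℤ → ΦB)
    (σ : ΦB → ZMod 4 → Equiv.Perm (Option ι)) (μ : ι → Mouth) (U : ι → Set (ℤ × ℤ)) (B0 : Set ΦB) :
    Prop where
  cor : ∀ f k, B.c (pf f) k = p (ZQ.c f k)
  injU : ∀ i, Set.InjOn p (verts (U i))
  injT : ∀ i, Set.InjOn pf {f | (μ i).tri f}
  sh : ∀ i, ∀ f ∈ U i, ∀ k, σ (pf f) k (some i) = shM (μ i) i f k
  sh0 : ∀ g ∈ B0, ∀ k, σ g k none = none
  le : ∀ i, (μ i).x1 ≤ (μ i).x2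
  disc : ∀ i, ∃ w, Disc ZQ (U i) (Glued ZQ (U i)) w
  inn : ∀ i x, (μ i).x1 ≤ x → x < (μ i).x2 → (μ i).inn x ∈ U i
  outf : ∀ i x, (μ i).x1 ≤ x → x < (μ i).x2 → (μ i).outf x ∉ U i
  left : ∀ i, (μ i).inn ((μ i).x1 - 1) ∉ U i
  right : ∀ i, (μ i).inn (μ i).x2 ∉ U i
  tri : ∀ i f, (μ i).tri f → pf f ∉ B0
  tri' : ∀ i j, i ≠ j → ∀ f g, (μ i).tri f → (μ j).tri g → pf f ≠ pf g
  sep : ∀ i j, i ≠ j → ∀ x x', (μ i).x1 ≤ x → x ≤ (μ i).x2 → (μ j).x1 ≤ x' → x' ≤ (μ j).x2 →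
    p (x, (μ i).y) ≠ p (x', (μ j).y)

theorem emb_base : Emb (SQ B σ) B (fun _ => 0) Prod.snd Prod.snd (bF ι B0) where
  inj := by
    rintro _ ⟨f, -, rfl⟩ _ ⟨g, -, rfl⟩ h
    simp only at h
    rw [h]
  c := by
    rintro _ ⟨f, -, rfl⟩ k
    rw [add_zero]
    rfl
  r02 := fun _ _ => Or.inl rfl

theorem base_sides (h0 : ∀ g ∈ B0, ∀ k, σ g k none = none) {e : (Option ι × VB) × (Option ι × VB)}
    (he : e ∈ Sides (SQ B σ) (bF ι B0)) : e.1.1 = none ∧ e.2.1 = none := by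
  obtain ⟨_, ⟨f, hf, rfl⟩, k, rfl⟩ := he
  exact ⟨h0 f hf _, h0 f hf _⟩

theorem shM_none {M : Mouth} {f : ℤ × ℤ} {k : ZMod 4} : shM M i f k = none ↔ M.adj f k := by
  unfold shM
  split_ifs with h
  · simp [h]
  · simp [h]

theorem shM_some {M : Mouth} {f : ℤ × ℤ} {k : ZMod 4} (h : ¬ M.adj f k) : shM M i f k = some i :=
  if_neg h

/-- The pocket of the mouth `i`. -/
theorem CovOK.exists_ppocket (h : CovOK B p pf σ μ U B0) (i : ι) :
    ∃ (U' : Set (ℤ × ℤ)) (φ : ℤ × ℤ → Option ι × ΦB) (x₁ y : ℤ) (m : ℕ) (r : ZMod 4)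
      (φt : ℤ × ℤ → ΦB) (pos : ℤ × ℤ → VB),
      PPocket (SQ B σ) B (bF ι B0) Prod.snd Prod.snd U' φ x₁ y m r r φt pos ∧
        φ '' U' = pF pf i (U i) ∧ φt '' Tri x₁ y m = pf '' {f | (μ i).tri f} := by
  have key2 : ∀ k : ZMod 4, (k = 0 ∨ k = 1) → (k + 1 = 0 ∨ k + 1 = 1) → k = 0 := by decide
  have hdisc := h.disc i
  have hinU := h.inn i
  have houtU := h.outf i
  have hleft := h.left i
  have hright := h.right i
  have htri := h.tri i
  have hle := h.le i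
  have hinjU := h.injU i
  have hinjT := h.injT i
  have hsh := h.sh i
  set M := μ i with hM
  have hm : ((M.x2 - M.x1).toNat : ℤ) = M.x2 - M.x1 := Int.toNat_of_nonneg (by omega)
  cases hup : M.up with
  | true =>
    have hadj : ∀ f ∈ U i, ∀ k, σ (pf f) k (some i) = shf i M.x1 M.x2 M.y f k := by
      intro f hf k
      rw [hsh f hf]
      unfold shM shf
      congr 1
      rw [eq_iff_iff]
      constructor
      · rintro ⟨h1, h2, ⟨-, h4, h5⟩ | ⟨h3, -⟩⟩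
        · exact ⟨h1, h2, h4, h5⟩
        · rw [hup] at h3; exact absurd h3 (by simp)
      · rintro ⟨h1, h2, h3, h4⟩
        exact ⟨h1, h2, Or.inl ⟨hup, h3, h4⟩⟩
    have hinn : ∀ x, M.inn x = (x, M.y) := fun x => by unfold Mouth.inn; rw [hup]; rfl
    have hout : ∀ x, M.outf x = (x, M.y - 1) := fun x => by unfold Mouth.outf; rw [hup]; rfl
    have htri' : ∀ f, f ∈ Tri M.x1 M.y ((M.x2 - M.x1).toNat : ℕ) ↔ M.tri f := by
      intro f
      unfold Tri Mouth.tri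
      rw [hm, hup]
      simp only [if_true, Set.mem_ofPred_eq]
      constructor
      · rintro ⟨a, b, c⟩; exact ⟨by omega, by omega, by omega⟩
      · rintro ⟨a, b, c⟩; exact ⟨by omega, by omega, by omega⟩
    have hemb : Emb ZQ B (fun _ => 0) pf p (Tri M.x1 M.y ((M.x2 - M.x1).toNat : ℕ)) :=
      ⟨fun f hf g hg hfg => hinjT ((htri' f).1 hf) ((htri' g).1 hg) hfg,
        fun f _ k => by rw [add_zero]; exact h.cor f k, fun _ _ => Or.inl rfl⟩
    refine ⟨U i, fun f => (some i, pf f), M.x1, M.y, (M.x2 - M.x1).toNat, 0, pf, p, ?_, rfl, ?_⟩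
    · refine ⟨⟨?_, hinjU, ?_⟩, hdisc, ?_, ?_, ?_, hemb, ?_⟩
      · intro f _ k
        rw [add_zero]; exact h.cor f k
      · intro f hf k g hg l hs
        obtain ⟨h1, h2⟩ := shf_glue (i := i) (fun x a b => hout x ▸ houtU x a b)
          (hinn (M.x1 - 1) ▸ hleft) (hinn M.x2 ▸ hright) hf hg hs
        have h3 : ZQ.c f (k + 1) = ZQ.c g l := (Prod.mk.inj hs).1
        have h4 : ZQ.c f k = ZQ.c g (l + 1) := (Prod.mk.inj hs).2
        rw [add_zero, add_zero]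
        show ((σ (pf f) (k + 1) (some i), B.c (pf f) (k + 1)), (σ (pf f) k (some i), B.c (pf f) k)) =
          ((σ (pf g) l (some i), B.c (pf g) l), (σ (pf g) (l + 1) (some i), B.c (pf g) (l + 1)))
        rw [hadj f hf, hadj f hf, hadj g hg, hadj g hg, h.cor, h.cor, h.cor, h.cor, h1, h2, h3, h4]
      · intro x h1 h2
        rw [hm] at h2
        exact ⟨hinn x ▸ hinU x h1 (by omega), hout x ▸ houtU x h1 (by omega)⟩
      · rintro f _ ⟨g, -, hg⟩
        exact absurd (congrArg Prod.fst hg) (by simp)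
      · intro f hf k hs
        obtain ⟨h1, h2⟩ := base_sides h.sh0 hs
        rw [add_zero] at h1 h2
        have h3 : σ (pf f) (k + 1) (some i) = none := h1
        have h4 : σ (pf f) k (some i) = none := h2
        rw [hadj f hf] at h3 h4
        unfold shf at h3 h4
        split_ifs at h3 h4 with h5 h6
        have hk := key2 k h6.2.2.2 h5.2.2.2
        subst hk
        refine ⟨f.1, h6.1, by rw [hm]; omega, ?_⟩
        obtain ⟨x, z⟩ := f
        obtain rfl : z = M.y := h6.2.2.1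
        rfl
      · rintro f hf ⟨_, ⟨g, hg, rfl⟩, hfg⟩
        have hfg' : g = pf f := hfg
        exact htri f ((htri' f).1 hf) (hfg' ▸ hg)
    · congr 1
      ext f
      exact htri' f
  | false =>
    set c : ℤ × ℤ := (M.x1 + M.x2, 0) with hc
    have key3 : ∀ k : ZMod 4, (k + 2 = 2 ∨ k + 2 = 3) ↔ (k = 0 ∨ k = 1) := by decide
    have hmem : ∀ f, f ∈ rf2 c '' U i ↔ rf2 c f ∈ U i := by
      intro f
      constructor
      · rintro ⟨g, hg, rfl⟩; rw [rf2_rf2]; exact hg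
      · intro h; exact ⟨_, h, rf2_rf2 c f⟩
    have hadj : ∀ f ∈ rf2 c '' U i, ∀ k,
        σ (pf (rf2 c f)) (k + 2) (some i) = shf i M.x1 M.x2 (-M.y) f k := by
      intro f hf k
      rw [hsh _ ((hmem f).1 hf)]
      unfold shM shf
      congr 1
      rw [eq_iff_iff]
      constructor
      · rintro ⟨h1, h2, ⟨h3, -⟩ | ⟨-, h4, h5⟩⟩
        · rw [hup] at h3; exact absurd h3 (by simp)
        · simp only [rf2, hc] at h1 h2 h4
          exact ⟨by omega, by omega, by omega, (key3 k).1 h5⟩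
      · rintro ⟨h1, h2, h3, h4⟩
        refine ⟨?_, ?_, Or.inr ⟨hup, ?_, (key3 k).2 h4⟩⟩
        · simp only [rf2, hc]; omega
        · simp only [rf2, hc]; omega
        · simp only [rf2, hc]; omega
    have hinn : ∀ x, M.inn x = (x, M.y - 1) := fun x => by unfold Mouth.inn; rw [hup]; rfl
    have hout : ∀ x, M.outf x = (x, M.y) := fun x => by unfold Mouth.outf; rw [hup]; rfl
    have hin' : ∀ x, (x, -M.y) ∈ rf2 c '' U i ↔ M.inn (M.x1 + M.x2 - 1 - x) ∈ U i := by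
      intro x
      rw [hmem, hinn]
      have : rf2 c (x, -M.y) = (M.x1 + M.x2 - 1 - x, M.y - 1) := by
        simp only [rf2, hc]; congr 1; ring
      rw [this]
    have hout' : ∀ x, (x, -M.y - 1) ∈ rf2 c '' U i ↔ M.outf (M.x1 + M.x2 - 1 - x) ∈ U i := by
      intro x
      rw [hmem, hout]
      have : rf2 c (x, -M.y - 1) = (M.x1 + M.x2 - 1 - x, M.y) := by
        simp only [rf2, hc]; congr 1; ring
      rw [this]
    have htri' : ∀ f, f ∈ Tri M.x1 (-M.y) ((M.x2 - M.x1).toNat : ℕ) ↔ M.tri (rf2 c f) := by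
      intro f
      unfold Tri Mouth.tri
      rw [hm, hup]
      simp only [Bool.false_eq_true, if_false, rf2, hc, Set.mem_ofPred_eq]
      constructor
      · rintro ⟨a, b, c⟩; exact ⟨by omega, by omega, by omega⟩
      · rintro ⟨a, b, c⟩; exact ⟨by omega, by omega, by omega⟩
    have hcor : ∀ f k, B.c (pf (rf2 c f)) (k + 2) = p (rv2 c (ZQ.c f k)) := by
      intro f k
      rw [h.cor, rf2_cor]
    have hvert : ∀ v ∈ verts (rf2 c '' U i), rv2 c v ∈ verts (U i) := by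
      rintro _ ⟨f, hf, k, rfl⟩
      exact ⟨rf2 c f, (hmem f).1 hf, k + 2, (rf2_cor c f k).symm⟩
    have hemb : Emb ZQ B (fun _ => 2) (fun f => pf (rf2 c f)) (fun v => p (rv2 c v))
        (Tri M.x1 (-M.y) ((M.x2 - M.x1).toNat : ℕ)) :=
      ⟨fun f hf g hg hfg => rf2_inj c (hinjT ((htri' f).1 hf) ((htri' g).1 hg) hfg),
        fun f _ k => hcor f k, fun _ _ => Or.inr rfl⟩
    refine ⟨rf2 c '' U i, fun f => (some i, pf (rf2 c f)), M.x1, -M.y, (M.x2 - M.x1).toNat, 2,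
      fun f => pf (rf2 c f), fun v => p (rv2 c v), ?_, ?_, ?_⟩
    · refine ⟨⟨fun f _ k => hcor f k, ?_, ?_⟩, disc_rot c hdisc, ?_, ?_, ?_, hemb, ?_⟩
      · intro u hu v hv huv
        exact rv2_inj c (hinjU (hvert u hu) (hvert v hv) huv)
      · intro f hf k g hg l hs
        obtain ⟨h1, h2⟩ := shf_glue (i := i) (x1 := M.x1) (x2 := M.x2) (y := -M.y)
          (U := rf2 c '' U i) (fun x a b h => houtU _ (by omega) (by omega) ((hout' x).1 h))
          (fun h => hright (by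
            have := (hin' _).1 h
            rwa [show M.x1 + M.x2 - 1 - (M.x1 - 1) = M.x2 by ring] at this))
          (fun h => hleft (by
            have := (hin' _).1 h
            rwa [show M.x1 + M.x2 - 1 - M.x2 = M.x1 - 1 by ring] at this)) hf hg hs
        have h3 : ZQ.c f (k + 1) = ZQ.c g l := (Prod.mk.inj hs).1
        have h4 : ZQ.c f k = ZQ.c g (l + 1) := (Prod.mk.inj hs).2
        show ((σ (pf (rf2 c f)) (k + 2 + 1) (some i), B.c (pf (rf2 c f)) (k + 2 + 1)),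
            (σ (pf (rf2 c f)) (k + 2) (some i), B.c (pf (rf2 c f)) (k + 2))) =
          ((σ (pf (rf2 c g)) (l + 2) (some i), B.c (pf (rf2 c g)) (l + 2)),
            (σ (pf (rf2 c g)) (l + 2 + 1) (some i), B.c (pf (rf2 c g)) (l + 2 + 1)))
        rw [show k + 2 + 1 = k + 1 + 2 by ring, show l + 2 + 1 = l + 1 + 2 by ring, hadj f hf,
          hadj f hf, hadj g hg, hadj g hg, hcor, hcor, hcor, hcor, h1, h2, h3, h4]
      · intro x h1 h2
        rw [hm] at h2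
        exact ⟨(hin' x).2 (hinU _ (by omega) (by omega)),
          fun h => houtU _ (by omega) (by omega) ((hout' x).1 h)⟩
      · rintro f _ ⟨g, -, hg⟩
        exact absurd (congrArg Prod.fst hg) (by simp)
      · intro f hf k hs
        obtain ⟨h1, h2⟩ := base_sides h.sh0 hs
        have h3 : σ (pf (rf2 c f)) (k + 2 + 1) (some i) = none := h1
        have h4 : σ (pf (rf2 c f)) (k + 2) (some i) = none := h2
        rw [show k + 2 + 1 = k + 1 + 2 by ring, hadj f hf] at h3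
        rw [hadj f hf] at h4
        unfold shf at h3 h4
        split_ifs at h3 h4 with h5 h6
        have hk := key2 k h6.2.2.2 h5.2.2.2
        subst hk
        refine ⟨f.1, h6.1, by rw [hm]; omega, ?_⟩
        obtain ⟨x, z⟩ := f
        have hz : z = -M.y := h6.2.2.1
        rw [hz]
        rfl
      · rintro f hf ⟨_, ⟨g, hg, rfl⟩, hfg⟩
        have hfg' : g = pf (rf2 c f) := hfg
        exact htri _ ((htri' f).1 hf) (hfg' ▸ hg)
    · unfold pF
      rw [Set.image_image]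
      simp only [rf2_rf2]
    · ext g
      constructor
      · rintro ⟨f, hf, rfl⟩
        exact ⟨rf2 c f, (htri' f).1 hf, rfl⟩
      · rintro ⟨f, hf, rfl⟩
        refine ⟨rf2 c f, (htri' _).2 ?_, ?_⟩
        · rw [rf2_rf2]; exact hf
        · simp only [rf2_rf2]

/-- corners at a mouth -/
theorem adj_pos {M : Mouth} {f : ℤ × ℤ} {k : ZMod 4} (h : M.adj f k) :
    ∃ x, M.x1 ≤ x ∧ x ≤ M.x2 ∧ ZQ.c f k = (x, M.y) := by
  obtain ⟨x, z⟩ := f
  obtain ⟨h1, h2, ⟨-, h4, rfl | rfl⟩ | ⟨-, h4, rfl | rfl⟩⟩ := h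
  · exact ⟨x, h1, h2.le, Prod.ext rfl h4⟩
  · exact ⟨x + 1, by simp only at h1; omega, h2, Prod.ext rfl h4⟩
  · exact ⟨x + 1, by simp only at h1; omega, h2, Prod.ext rfl h4⟩
  · exact ⟨x, h1, h2.le, Prod.ext rfl h4⟩

theorem CovOK.glue (h : CovOK B p pf σ μ U B0) {i j : ι} (hij : i ≠ j)
    {e : (Option ι × VB) × (Option ι × VB)} (he : e ∈ Sides (SQ B σ) (pF pf i (U i))) :
    e.swap ∉ Sides (SQ B σ) (pF pf j (U j)) := by
  intro he'
  obtain ⟨_, ⟨f, hf, rfl⟩, k, rfl⟩ := he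
  obtain ⟨_, ⟨g, hg, rfl⟩, l, hl⟩ := he'
  have h1 : σ (pf f) k (some i) = σ (pf g) (l + 1) (some j) := congrArg (fun z => z.2.1) hl
  have h2 : B.c (pf f) k = B.c (pf g) (l + 1) := congrArg (fun z => z.2.2) hl
  rw [h.sh i f hf, h.sh j g hg] at h1
  by_cases h3 : (μ i).adj f k
  · rw [shM_none.2 h3] at h1
    have h4 := shM_none.1 h1.symm
    obtain ⟨x, a1, a2, a3⟩ := adj_pos h3
    obtain ⟨x', b1, b2, b3⟩ := adj_pos h4
    rw [h.cor, h.cor, a3, b3] at h2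
    exact h.sep i j hij x x' a1 a2 b1 b2 h2
  · rw [shM_some h3] at h1
    by_cases h4 : (μ j).adj g (l + 1)
    · rw [shM_none.2 h4] at h1
      exact absurd h1 (by simp)
    · rw [shM_some h4] at h1
      exact hij (Option.some.inj h1)

/-- all faces -/
def covF (pf : ℤ × ℤ → ΦB) (U : ι → Set (ℤ × ℤ)) (B0 : Set ΦB) : Set (Option ι × ΦB) :=
  bF ι B0 ∪ ⋃ i, pF pf i (U i)

/-- **T1 WITH POCKETS OVER A COVERED BASE.** -/
theorem CovOK.t1 (h : CovOK B p pf σ μ U B0) (hT : ∀ ω', T1 B ω' Set.univ)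
    (ω : Option ι × ΦB → Bool) : T1 (SQ B σ) ω (covF pf U B0) := by
  choose U' φ x₁ y m r φt pos hP hU' hT' using fun i => h.exists_ppocket i
  have h1 := t1_planar_pockets (emb_base (B := B) (σ := σ) (B0 := B0)) hP (by
    intro i j hij e he
    rw [hU'] at he ⊢
    exact h.glue hij he) (by
    intro i j hij
    rw [hT', hT', Set.disjoint_left]
    rintro _ ⟨f, hf, rfl⟩ ⟨g, hg, hfg⟩
    exact h.tri' i j hij f g hf hg hfg.symm) hT ω
  simp only [hU'] at h1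
  exact h1

/-- **SIMULATION**: the walks with ends at base sides are those of the base, for a suitable
configuration. The base faces used are those of `B0` and those of the triangles. -/
theorem CovOK.sim (h : CovOK B p pf σ μ U B0) (ω : Option ι × ΦB → Bool) :
    ∃ ω' : ΦB → Bool, (∀ f ∈ B0, ω' f = ω (none, f)) ∧
      ∀ a b n t, (a ∈ Sides (SQ B σ) (bF ι B0) ∨ a.swap ∈ Sides (SQ B σ) (bF ι B0)) →
        (b ∈ Sides (SQ B σ) (bF ι B0) ∨ b.swap ∈ Sides (SQ B σ) (bF ι B0)) →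
        Walk (SQ B σ) ω (covF pf U B0) Set.univ n a b t →
        ∃ n', Walk B ω' (B0 ∪ ⋃ i, pf '' {f | (μ i).tri f}) Set.univ n'
          (Prod.map Prod.snd Prod.snd a) (Prod.map Prod.snd Prod.snd b) t := by
  choose U' φ x₁ y m r φt pos hP hU' hT' using fun i => h.exists_ppocket i
  obtain ⟨ω', h1, h2⟩ := planar_pockets_sim (emb_base (B := B) (σ := σ) (B0 := B0)) hP (by
    intro i j hij e he
    rw [hU'] at he ⊢
    exact h.glue hij he) (by
    intro i j hij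
    rw [hT', hT', Set.disjoint_left]
    rintro _ ⟨f, hf, rfl⟩ ⟨g, hg, hfg⟩
    exact h.tri' i j hij f g hf hg hfg.symm) ω
  refine ⟨ω', fun f hf => h1 _ ⟨f, hf, rfl⟩, ?_⟩
  intro a b n t ha hb hW
  have hF : bF ι B0 ∪ ⋃ i, φ i '' U' i = covF pf U B0 := by
    unfold covF
    simp only [hU']
  rw [hF] at h2
  obtain ⟨n', h3⟩ := h2 a b n t ha hb hW
  refine ⟨n', h3.mono ?_ subset_rfl⟩
  rintro f (⟨_, ⟨g, hg, rfl⟩, rfl⟩ | hf)
  · exact Or.inl hg
  · obtain ⟨i, hf⟩ := Set.mem_iUnion.1 hf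
    rw [hT'] at hf
    exact Or.inr (Set.mem_iUnion.2 ⟨i, hf⟩)

end Cov

/-! ## The plane with pockets -/

section Plane

variable {ι : Type} {μ : ι → Mouth} {U : ι → Set (ℤ × ℤ)} {B0 : Set (ℤ × ℤ)}

/-- The hypotheses of `t1_SP`: the pockets `U i` of the mouths `μ i`, the base faces `B0`. -/
structure SPOK (μ : ι → Mouth) (U : ι → Set (ℤ × ℤ)) (B0 : Set (ℤ × ℤ)) : Prop where
  sep : ∀ i j, i ≠ j → ∀ x, (μ i).x1 ≤ x → x ≤ (μ i).x2 → (μ j).x1 ≤ x → x ≤ (μ j).x2 →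
    (μ i).y ≠ (μ j).y
  ok : ∀ i, (μ i).OK (U i) B0
  tri : ∀ i j, i ≠ j → ∀ f, (μ i).tri f → ¬ (μ j).tri f

/-- the faces -/
def SPF (U : ι → Set (ℤ × ℤ)) (B0 : Set (ℤ × ℤ)) : Set (Option ι × (ℤ × ℤ)) :=
  ((fun f => ((none : Option ι), f)) '' B0) ∪ ⋃ i, (fun f => (some i, f)) '' U i

theorem SPOK.cov (h : SPOK μ U B0) : CovOK ZQ id id (msig μ) μ U B0 where
  cor := fun _ _ => rfl
  injU := fun _ _ _ _ _ h => h
  injT := fun _ _ _ _ _ h => h
  sh := fun i f _ k => msig_self h.sep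
  sh0 := fun g hg k => msig_base fun i hi => (h.ok i).tri g hg (adj_tri hi)
  le := fun i => (h.ok i).le
  disc := fun i => (h.ok i).disc
  inn := fun i => (h.ok i).inn
  outf := fun i => (h.ok i).outf
  left := fun i => (h.ok i).left
  right := fun i => (h.ok i).right
  tri := fun i f hf hg => (h.ok i).tri f hg hf
  tri' := fun i j hij f g hf hg hfg => by
    obtain rfl : f = g := hfg
    exact h.tri i j hij f hf hg
  sep := fun i j hij x x' a1 a2 b1 b2 he => by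
    have h1 : x = x' := congrArg Prod.fst he
    have h2 : (μ i).y = (μ j).y := congrArg Prod.snd he
    subst h1
    exact h.sep i j hij x a1 a2 b1 b2 h2

/-- **T1 OF THE PLANE WITH POCKETS.** -/
theorem t1_SP (h : SPOK μ U B0) (ω : Option ι × (ℤ × ℤ) → Bool) : T1 (SP μ) ω (SPF U B0) :=
  h.cov.t1 t1_plane ω

/-- **SIMULATION**: the walks with ends at base sides are those of the plane, for a suitable
configuration of the plane. The plane faces used are base faces and faces of the triangles. -/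
theorem sim_SP (h : SPOK μ U B0) (ω : Option ι × (ℤ × ℤ) → Bool) :
    ∃ ω' : ℤ × ℤ → Bool, (∀ f ∈ B0, ω' f = ω (none, f)) ∧
      ∀ a b n t, (a ∈ Sides (SP μ) (bF ι B0) ∨ a.swap ∈ Sides (SP μ) (bF ι B0)) →
        (b ∈ Sides (SP μ) (bF ι B0) ∨ b.swap ∈ Sides (SP μ) (bF ι B0)) →
        Walk (SP μ) ω (SPF U B0) Set.univ n a b t →
        ∃ n', Walk ZQ ω' (B0 ∪ {f | ∃ i, (μ i).tri f}) Set.univ n'
          (Prod.map Prod.snd Prod.snd a) (Prod.map Prod.snd Prod.snd b) t := by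
  obtain ⟨ω', h1, h2⟩ := h.cov.sim ω
  refine ⟨ω', h1, ?_⟩
  intro a b n t ha hb hW
  obtain ⟨n', h3⟩ := h2 a b n t ha hb hW
  refine ⟨n', h3.mono ?_ subset_rfl⟩
  rintro f (hf | hf)
  · exact Or.inl hf
  · obtain ⟨i, g, hg, rfl⟩ := Set.mem_iUnion.1 hf
    exact Or.inr ⟨i, hg⟩

end Plane

/-! ## The environments -/

namespace SEnv

/-- the topological hypotheses on the environment -/
structure TopOK (E : SEnv) : Prop where
  discU : ∃ w, Disc ZQ (E.U : Set (ℤ × ℤ)) (Glued ZQ (E.U : Set (ℤ × ℤ))) w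
  discL : ∃ w, Disc ZQ (E.L : Set (ℤ × ℤ)) (Glued ZQ (E.L : Set (ℤ × ℤ))) w
  leU : E.gu.x1 ≤ E.gu.x2
  leL : E.gd.x1 ≤ E.gd.x2
  innU : ∀ x, E.gu.x1 ≤ x → x < E.gu.x2 → (x, E.gu.yc + E.gu.a) ∈ E.U
  outU : ∀ x, E.gu.x1 ≤ x → x < E.gu.x2 → (x, E.gu.yc + E.gu.a - 1) ∉ E.U
  leftU : (E.gu.x1 - 1, E.gu.yc + E.gu.a) ∉ E.U
  rightU : (E.gu.x2, E.gu.yc + E.gu.a) ∉ E.U
  innL : ∀ x, E.gd.x1 ≤ x → x < E.gd.x2 → (x, E.gd.yc - E.gd.a - 1) ∈ E.L
  outL : ∀ x, E.gd.x1 ≤ x → x < E.gd.x2 → (x, E.gd.yc - E.gd.a) ∉ E.L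
  leftL : (E.gd.x1 - 1, E.gd.yc - E.gd.a - 1) ∉ E.L
  rightL : (E.gd.x2, E.gd.yc - E.gd.a - 1) ∉ E.L
  hgtU : E.gu.x2 - E.gu.x1 ≤ 2 * ((E.gu.c : ℤ) - E.gu.a)
  hgtL : E.gd.x2 - E.gd.x1 ≤ 2 * ((E.gd.c : ℤ) - E.gd.a)
  slab : E.gd.yc - E.gd.a < E.gu.yc + E.gu.a

/-- the mouths -/
def mu (E : SEnv) : Bool → Mouth := fun i => if i then E.gu.mouth true else E.gd.mouth false

/-- the pockets -/
def pk (E : SEnv) : Bool → Set (ℤ × ℤ) := fun i => if i then (E.U : Set (ℤ × ℤ)) else E.L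

theorem Q_eq (E : SEnv) : E.Q = SP E.mu := rfl

theorem F_eq (E : SEnv) : (E.F : Set (Option Bool × (ℤ × ℤ))) = SPF E.pk (E.base : Set (ℤ × ℤ)) := by
  ext z
  unfold SPF SEnv.F
  simp only [Finset.coe_union, Finset.coe_image, Set.mem_union, Set.mem_iUnion]
  constructor
  · rintro ((h | h) | h)
    · exact Or.inl h
    · exact Or.inr ⟨true, h⟩
    · exact Or.inr ⟨false, h⟩
  · rintro (h | ⟨i, h⟩)
    · exact Or.inl (Or.inl h)
    · cases i with
      | true => exact Or.inl (Or.inr h)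
      | false => exact Or.inr h

theorem solid_of_tri {g : BGeo} {up : Bool} (h : g.x2 - g.x1 ≤ 2 * ((g.c : ℤ) - g.a)) {f : ℤ × ℤ}
    (hf : (g.mouth up).tri f) : g.solid up f := by
  unfold Mouth.tri BGeo.mouth at hf
  unfold BGeo.solid BGeo.hgt BGeo.cham
  have hk : (0 : ℤ) ≤ g.k := Int.natCast_nonneg _
  cases up with
  | true =>
    simp only [if_true] at hf ⊢
    obtain ⟨h1, h2, h3⟩ := hf
    refine ⟨by omega, by omega, by omega, by omega, ?_⟩
    rintro ⟨h4, -⟩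
    omega
  | false =>
    simp only [Bool.false_eq_true, if_false] at hf ⊢
    obtain ⟨h1, h2, h3⟩ := hf
    refine ⟨by omega, by omega, by omega, by omega, ?_⟩
    rintro ⟨h4, -⟩
    omega

theorem TopOK.spok {E : SEnv} (h : E.TopOK) : SPOK E.mu E.pk (E.base : Set (ℤ × ℤ)) where
  sep := by
    have h1 := h.slab
    intro i j hij x _ _ _ _
    cases i <;> cases j
    · exact absurd rfl hij
    · show E.gd.yc - E.gd.a ≠ E.gu.yc + E.gu.a
      omega
    · show E.gu.yc + E.gu.a ≠ E.gd.yc - E.gd.a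
      omega
    · exact absurd rfl hij
  ok := by
    have hb : ∀ f ∈ (E.base : Set (ℤ × ℤ)), ¬ E.gu.solid true f ∧ ¬ E.gd.solid false f := by
      intro f hf
      exact (Finset.mem_filter.mp (Finset.mem_coe.mp hf)).2
    intro i
    cases i with
    | true =>
      refine ⟨h.leU, h.discU, h.innU, h.outU, h.leftU, h.rightU, ?_⟩
      intro f hf ht
      exact (hb f hf).1 (solid_of_tri h.hgtU ht)
    | false =>
      refine ⟨h.leL, h.discL, h.innL, h.outL, h.leftL, h.rightL, ?_⟩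
      intro f hf ht
      exact (hb f hf).2 (solid_of_tri h.hgtL ht)
  tri := by
    have h1 := h.slab
    intro i j hij f
    cases i <;> cases j
    · exact absurd rfl hij
    · rintro ⟨a1, -⟩ ⟨b1, -⟩
      have a2 : 0 ≤ E.gd.yc - E.gd.a - 1 - f.2 := a1
      have b2 : 0 ≤ f.2 - (E.gu.yc + E.gu.a) := b1
      omega
    · rintro ⟨a1, -⟩ ⟨b1, -⟩
      have a2 : 0 ≤ f.2 - (E.gu.yc + E.gu.a) := a1
      have b2 : 0 ≤ E.gd.yc - E.gd.a - 1 - f.2 := b1
      omega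
    · exact absurd rfl hij

/-- **T1 OF THE ENVIRONMENTS** (and of all subsets of their faces, `T1.mono`). -/
theorem t1 {E : SEnv} (h : E.TopOK) (ω : Option Bool × (ℤ × ℤ) → Bool) :
    T1 E.Q ω (E.F : Set (Option Bool × (ℤ × ℤ))) := by
  rw [F_eq]
  exact t1_SP h.spok ω

end SEnv

end Pool.Agent.SixB
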