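import Pool.Agent.Lib.SixB.S3bReal
import Pool.Agent.Lib.SixB.S0Rect
import Pool.Agent.Lib.SixB.S0Link

/-!
# Closed strands of a complex with pockets

`T1 Q ω F`: every closed strand of the faces `F`, run through once, has turning `4` or `-4`.
`t1_pockets`: a complex `Q` with the faces `F0` and some pockets `P i` (discs glued to `F0` along a
straight segment of their boundary, the mouth) inherits `T1` from a complex `Q'` which contains a
copy of `F0` and a triangle of faces over each mouth: the strands of a pocket are realized by the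
faces of the triangle (`S3bReal`).
-/

set_option autoImplicit false

namespace Pool.Agent.SixB

open Pool.Agent.Perc.Q

section General

variable {V Φ V' Φ' : Type} {Q : QC V Φ} {Q' : QC V' Φ'} {ω : Φ → Bool} {ω' : Φ' → Bool}
  {F F' F0 : Set Φ} {G G' O : Set (V × V)} {a b c e : V × V} {f g : Φ} {k l : ZMod 4} {s t : ℤ}
  {m n : ℕ} {w : List ((V × V) × ℤ)}

/-- Closed strands, run through once, have turning `4` or `-4`. -/
def T1 (Q : QC V Φ) (ω : Φ → Bool) (F : Set Φ) : Prop :=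
  ∀ e n t, Walk Q ω F {e}ᶜ n e e t → t = 4 ∨ t = -4

theorem T1.mono (h : T1 Q ω F') (hF : F ⊆ F') : T1 Q ω F :=
  fun e n t hw => h e n t (hw.mono hF subset_rfl)

theorem glued_swap (h : e ∈ Glued Q F) : e.swap ∈ Glued Q F :=
  ⟨h.2, by rw [Prod.swap_swap]; exact h.1⟩

/-- The intermediate edges of a walk are glued sides. -/
theorem Walk.interGlued (h : Walk Q ω F G n a b t) : Walk Q ω F (G ∩ Glued Q F) n a b t := by
  induction h with
  | one h => exact Walk.one h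
  | tail h hb h' ih =>
    exact Walk.tail ih ⟨hb, (mem_sides_of_st h').1, h.last'⟩ h'

theorem Walk.split (O : Set (V × V)) (h : Walk Q ω F G n a b t) :
    Walk Q ω F (G ∩ Oᶜ) n a b t ∨ ∃ c ∈ G ∩ O, ∃ m s, 0 < m ∧ m < n ∧ Walk Q ω F G m a c s ∧
      Walk Q ω F G (n - m) c b (t - s) := by
  induction h with
  | one h => exact Or.inl (Walk.one h)
  | @tail n a b d t s h hb h' ih =>
    rcases ih with ih | ⟨c, hc, m, s', hm0, hm, h1, h2⟩
    · by_cases hO : b ∈ O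
      · exact Or.inr ⟨b, ⟨hb, hO⟩, n, t, h.pos, Nat.lt_succ_self n, h,
          (Walk.one h').cast (by omega) (by ring)⟩
      · exact Or.inl (Walk.tail ih ⟨hb, hO⟩ h')
    · exact Or.inr ⟨c, hc, m, s', hm0, by omega, h1,
        (Walk.tail h2 hb h').cast (by omega) (by ring)⟩

/-- A minimal closed walk does not come back earlier. -/
theorem Walk.of_min (h : Walk Q ω F G n e e t) (hmin : ∀ m < n, ∀ s, ¬ Walk Q ω F G m e e s) :
    Walk Q ω F (G ∩ {e}ᶜ) n e e t := by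
  rcases h.split {e} with h1 | ⟨c, ⟨-, rfl⟩, m, s, -, hm, h1, -⟩
  · exact h1
  · exact absurd h1 (hmin m hm s)

theorem Walk.min (h : Walk Q ω F {e}ᶜ n e e t) (hm : m < n) : ¬ Walk Q ω F G m e e s := by
  intro h1
  obtain ⟨d, s', h2, h3, -⟩ := h.prefix_ h1.pos hm
  exact h3 (h1.unique h2).1.symm

/-- A closed strand, seen from another of its edges. -/
theorem Walk.rot_min (h : Walk Q ω F {e}ᶜ n e e t) (h1 : Walk Q ω F G m e c s) (hm : m < n) :
    Walk Q ω F {c}ᶜ n c c t := by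
  have hu : Walk Q ω F Set.univ n e e t := h.mono subset_rfl (Set.subset_univ _)
  have h1u : Walk Q ω F Set.univ m e c s := h1.mono subset_rfl (Set.subset_univ _)
  obtain ⟨-, h2⟩ := hu.rotate (Set.mem_univ _) h1u hm
  refine (h2.of_min ?_).mono subset_rfl Set.inter_subset_right
  intro n1 hn1 s1 h6
  obtain ⟨d, s2, h7, -, h8⟩ := hu.prefix_ h1.pos hm
  obtain ⟨rfl, rfl⟩ := h1u.unique h7
  have h9 := (h1u.comp (Set.mem_univ _) h6).comp (Set.mem_univ _) h8
  obtain ⟨d', s3, h10, -, h11⟩ := h9.prefix_ (m := n) h.pos (by have := h6.pos; omega)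
  obtain ⟨rfl, -⟩ := hu.unique h10
  exact h.min (m := n + n1 - n) (by omega) (h11.cast (by omega) rfl)

theorem Walk.base (h : Walk Q ω F G n e e t) : e ∈ Glued Q F := ⟨h.first', h.last'⟩

/-- A complete disc has `T1`. -/
theorem Disc.t1 (h : Disc Q F (Glued Q F) w) (ω : Φ → Bool) : T1 Q ω F := by
  intro e n t hw
  exact h.loop ω hw.base (hw.interGlued.mono subset_rfl Set.inter_subset_right)
    fun m hm s => hw.min hm

/-! ## Embeddings -/

/-- The faces `f` of `F` are mapped to faces of `Q'`, turned by `r f = 0` or `2`. -/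
structure Emb (Q : QC V Φ) (Q' : QC V' Φ') (r : Φ → ZMod 4) (ψ : Φ → Φ') (pv : V → V')
    (F : Set Φ) : Prop where
  inj : Set.InjOn ψ F
  c : ∀ f ∈ F, ∀ k, Q'.c (ψ f) (k + r f) = pv (Q.c f k)
  r02 : ∀ f ∈ F, r f = 0 ∨ r f = 2

variable {r : Φ → ZMod 4} {ψ : Φ → Φ'} {pv : V → V'}

theorem Emb.mono (h : Emb Q Q' r ψ pv F) (hF : F' ⊆ F) : Emb Q Q' r ψ pv F' :=
  ⟨h.inj.mono hF, fun f hf => h.c f (hF hf), fun f hf => h.r02 f (hF hf)⟩

theorem Emb.sd_eq (h : Emb Q Q' r ψ pv F) (hf : f ∈ F) (k : ZMod 4) :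
    sd Q' (ψ f) (k + r f) = Prod.map pv pv (sd Q f k) := by
  unfold sd
  rw [h.c f hf, show k + r f + 1 = k + 1 + r f by ring, h.c f hf]
  rfl

theorem mt_add {r : ZMod 4} (hr : r = 0 ∨ r = 2) (b : Bool) (k : ZMod 4) :
    mt b (k + r) = mt b k + r := by
  rcases hr with rfl | rfl
  · rw [add_zero, add_zero]
  · revert b k; decide

theorem qk_add {r : ZMod 4} (hr : r = 0 ∨ r = 2) (b : Bool) (k : ZMod 4) : qk b (k + r) = qk b k := by
  rcases hr with rfl | rfl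
  · rw [add_zero]
  · revert b k; decide

theorem Emb.st (h : Emb Q Q' r ψ pv F) (hω : ∀ f ∈ F, ω' (ψ f) = ω f)
    (hs : St Q ω F a b t) : St Q' ω' (ψ '' F) (Prod.map pv pv a) (Prod.map pv pv b) t := by
  obtain ⟨f, hf, k, rfl, rfl, rfl⟩ := hs
  refine ⟨ψ f, ⟨f, hf, rfl⟩, k + r f, (h.sd_eq hf k).symm, ?_, ?_⟩
  · rw [hω f hf, mt_add (h.r02 f hf), h.sd_eq hf]
    rfl
  · rw [hω f hf, qk_add (h.r02 f hf)]

theorem Emb.walk (h : Emb Q Q' r ψ pv F) (hω : ∀ f ∈ F, ω' (ψ f) = ω f)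
    {G' : Set (V' × V')} (hG : ∀ c ∈ G, Prod.map pv pv c ∈ G') (hw : Walk Q ω F G n a b t) :
    Walk Q' ω' (ψ '' F) G' n (Prod.map pv pv a) (Prod.map pv pv b) t := by
  induction hw with
  | one hs => exact Walk.one (h.st hω hs)
  | tail _ hb hs ih => exact Walk.tail ih (hG _ hb) (h.st hω hs)

theorem Emb.sides (h : Emb Q Q' r ψ pv F) (he : e ∈ Sides Q F) :
    Prod.map pv pv e ∈ Sides Q' (ψ '' F) := by
  obtain ⟨f, hf, k, rfl⟩ := he
  exact ⟨ψ f, ⟨f, hf, rfl⟩, k + r f, (h.sd_eq hf k).symm⟩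

theorem Emb.eq_of_sides (h : Emb Q Q' r ψ pv F) (ha : a ∈ Sides Q F) (hb : b ∈ Sides Q F)
    (hab : Prod.map pv pv a = Prod.map pv pv b) : a = b := by
  obtain ⟨f, hf, k, rfl⟩ := ha
  obtain ⟨g, hg, l, rfl⟩ := hb
  rw [← h.sd_eq hf, ← h.sd_eq hg] at hab
  obtain ⟨h1, h2⟩ := sd_inj hab
  obtain rfl := h.inj hf hg h1
  rw [add_right_cancel h2]

/-! ## Simulation -/

theorem Walk.sim {F₁ : Set Φ'} {φ : V × V → V' × V'}
    (hφ : ∀ c ∈ O, ∀ e ∈ O, φ c = φ e → c = e)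
    (hstep : ∀ a ∈ O, ∀ b ∈ O, ∀ n t, Walk Q ω F Oᶜ n a b t →
      ∃ n', Walk Q' ω' F₁ (φ '' O)ᶜ n' (φ a) (φ b) t) (he : e ∈ O) (n : ℕ) :
    ∀ a b t, a ∈ O → b ∈ O → Walk Q ω F {e}ᶜ n a b t →
      ∃ n', Walk Q' ω' F₁ {φ e}ᶜ n' (φ a) (φ b) t := by
  induction n using Nat.strong_induction_on with
  | _ n ih =>
    intro a b t ha hb hw
    rcases hw.split O with h1 | ⟨c, ⟨hce, hc⟩, m, s, hm0, hm, h1, h2⟩
    · obtain ⟨n', h2⟩ := hstep a ha b hb n t (h1.mono subset_rfl Set.inter_subset_right)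
      refine ⟨n', h2.mono subset_rfl ?_⟩
      intro x hx hxe
      exact hx ⟨e, he, hxe.symm⟩
    · obtain ⟨n1, h3⟩ := ih m hm a c s ha hc h1
      obtain ⟨n2, h4⟩ := ih (n - m) (by omega) c b (t - s) hc hb h2
      refine ⟨n1 + n2, (h3.comp ?_ h4).cast rfl (by ring)⟩
      intro h5
      exact hce (hφ c hc e he h5)

theorem Walk.sim_open {F₁ : Set Φ'} {φ : V × V → V' × V'} {O' : Set (V × V)} (hOO : O ⊆ O')
    (hstep : ∀ a ∈ O', ∀ b ∈ O', ∀ n t, Walk Q ω F Oᶜ n a b t →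
      ∃ n', Walk Q' ω' F₁ (φ '' O)ᶜ n' (φ a) (φ b) t) (n : ℕ) :
    ∀ a b t, a ∈ O' → b ∈ O' → Walk Q ω F Set.univ n a b t →
      ∃ n', Walk Q' ω' F₁ Set.univ n' (φ a) (φ b) t := by
  induction n using Nat.strong_induction_on with
  | _ n ih =>
    intro a b t ha hb hw
    rcases hw.split O with h1 | ⟨c, ⟨-, hc⟩, m, s, hm0, hm, h1, h2⟩
    · obtain ⟨n', h2⟩ := hstep a ha b hb n t (h1.mono subset_rfl Set.inter_subset_right)
      exact ⟨n', h2.mono subset_rfl (Set.subset_univ _)⟩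
    · obtain ⟨n1, h3⟩ := ih m hm a c s ha (hOO hc) h1
      obtain ⟨n2, h4⟩ := ih (n - m) (by omega) c b (t - s) (hOO hc) hb h2
      exact ⟨n1 + n2, (h3.comp (Set.mem_univ _) h4).cast rfl (by ring)⟩

/-! ## Pockets -/

/-- The pocket `P` is glued to `F0` along `mouth`; in `Q'` there is a triangle of faces over the
mouth. -/
structure Pocket (Q : QC V Φ) (Q' : QC V' Φ') (F0 : Set Φ) (ψ : Φ → Φ') (pv : V → V')
    (P : Set Φ) (mouth rest : List ((V × V) × ℤ)) (A y : ℤ) (r : ℤ × ℤ → ZMod 4) (ψt : ℤ × ℤ → Φ')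
    (pt : ℤ × ℤ → V') : Prop where
  disc : Disc Q P (Glued Q P) (mouth ++ rest)
  lab : ∀ x ∈ mouth, ∀ x' ∈ mouth, x.2 = x'.2
  disj : Disjoint F0 P
  mem : ∀ e ∈ Sides Q P, e.swap ∈ Sides Q F0 → e ∈ mouth.map Prod.fst
  tri : Emb ZQ Q' r ψt pt (Tri A y mouth.length)
  fit : ∀ z ∈ lay A mouth, Prod.map pv pv z.1.1 = Prod.map pt pt (mo y z.2)
  disj' : Disjoint (ψ '' F0) (ψt '' Tri A y mouth.length)

theorem mem_lay_of_mem {α : Type} {A : ℤ} {l : List α} {x : α} (h : x ∈ l) :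
    ∃ p, (x, p) ∈ lay A l := by
  rw [← lay_map_fst A l] at h
  obtain ⟨z, hz, rfl⟩ := List.mem_map.1 h
  exact ⟨z.2, hz⟩

theorem mo_sd {y x : ℤ} : mo y x = sd ZQ (x, y) 0 := rfl

variable {P : Set Φ} {mouth rest : List ((V × V) × ℤ)} {A y : ℤ} {ψt : ℤ × ℤ → Φ'}
  {pt : ℤ × ℤ → V'} {rt : ℤ × ℤ → ZMod 4}

theorem Pocket.mouth_sides (h : Pocket Q Q' F0 ψ pv P mouth rest A y rt ψt pt)
    (he : e ∈ mouth.map Prod.fst) :
    Prod.map pv pv e ∈ Sides Q' (ψt '' Tri A y mouth.length) := by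
  obtain ⟨x, hx, rfl⟩ := List.mem_map.1 he
  obtain ⟨p, hp⟩ := mem_lay_of_mem (A := A) hx
  rw [h.fit _ hp]
  apply h.tri.sides
  have h1 := mem_lay hp
  simp only at h1
  refine ⟨(p, y), ⟨le_refl _, ?_, ?_⟩, 0, rfl⟩
  · simp only; omega
  · simp only; omega

/-- The part of the walk in a pocket is realized in the triangle. -/
theorem Pocket.step (h : Pocket Q Q' F0 ψ pv P mouth rest A y rt ψt pt) (ω : Φ → Bool) :
    ∃ ωt : ℤ × ℤ → Bool, ∀ ω' : Φ' → Bool, (∀ f ∈ Tri A y mouth.length, ω' (ψt f) = ωt f) →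
      ∀ (G' : Set (V' × V')), (∀ c ∈ Glued ZQ (Tri A y mouth.length), Prod.map pt pt c ∈ G') →
      ∀ (a b : V × V) (n : ℕ) (t : ℤ), a ∈ mouth.map Prod.fst → b.swap ∈ mouth.map Prod.fst →
        Walk Q ω P (Glued Q P) n a b t →
        ∃ n', Walk Q' ω' (ψt '' Tri A y mouth.length) G' n' (Prod.map pv pv a)
          (Prod.map pv pv b) t := by
  obtain ⟨ωt, hreal⟩ := realize mouth.length mouth rfl ((h.disc.arcs ω).pnc rfl) A y
  refine ⟨ωt, ?_⟩
  intro ω' hω' G' hG' a b n t ha hb hw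
  have hi := h.disc.inv
  have hnd := hi.nodup
  rw [List.map_append] at hnd
  obtain ⟨x, hx, rfl⟩ := List.mem_map.1 ha
  obtain ⟨x', hx', hxb⟩ := List.mem_map.1 hb
  have hb' : b = x'.1.swap := by rw [hxb, Prod.swap_swap]
  have hout : ∀ z ∈ mouth ++ rest, z.1.swap ∉ Glued Q P := by
    intro z hz h1
    have h2 := hi.symm _ h1
    rw [Prod.swap_swap] at h2
    exact hi.notG z.1 (List.mem_map_of_mem hz) h2
  have hbG : b ∉ Glued Q P := by
    rw [hb']; exact hout x' (List.mem_append_left _ hx')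
  obtain ⟨p, hp⟩ := mem_lay_of_mem (A := A) hx
  have hfp := h.fit _ hp
  simp only at hfp
  have key : ∀ {u v : (ℤ × ℤ) × (ℤ × ℤ)} {τ : ℤ} {n1 : ℕ},
      Walk ZQ ωt (Tri A y mouth.length) (Abv y) n1 u v τ →
      Walk Q' ω' (ψt '' Tri A y mouth.length) G' n1 (Prod.map pt pt u) (Prod.map pt pt v) τ :=
    fun hW => h.tri.walk hω' hG' (hW.interGlued.mono subset_rfl Set.inter_subset_right)
  rcases hreal.mem (x, p) hp with ⟨z, hz, n1, h1⟩ | ⟨⟨z, q⟩, hq, ⟨n1, h1⟩, -, -, -, n2, h2⟩ |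
    ⟨⟨z, q⟩, hq, ⟨n1, h1⟩, -, -, -, n2, h2⟩
  · exfalso
    obtain ⟨-, h3, -⟩ := hw.eq_of_end hbG h1 (hout z (List.mem_append_right _ hz))
    have h4 : x'.1 = z.1 := by
      rw [hxb, h3, Prod.swap_swap]
    exact (List.nodup_append.1 hnd).2.2 _ (List.mem_map_of_mem hx') _ (List.mem_map_of_mem hz) h4
  · have hz : z ∈ mouth := by
      have := List.mem_map_of_mem (f := Prod.fst) hq
      rwa [lay_map_fst] at this
    obtain ⟨-, h3, h4⟩ := hw.eq_of_end hbG h1 (hout z (List.mem_append_left _ hz))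
    have hl := h.lab x hx z hz
    have hfq := h.fit _ hq
    simp only at hfq
    refine ⟨n2, ?_⟩
    have h5 := key h2
    simp only at h5 h4
    rw [h3, hfp]
    have e1 : Prod.map pv pv z.1.swap = (Prod.map pt pt (mo y q)).swap := by
      rw [← hfq]; rfl
    rw [e1]
    refine h5.cast rfl ?_
    rw [h4]; omega
  · have hz : z ∈ mouth := by
      have := List.mem_map_of_mem (f := Prod.fst) hq
      rwa [lay_map_fst] at this
    have h1r := h1.rev hi.symm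
    simp only [Prod.swap_swap] at h1r
    obtain ⟨-, h3, h4⟩ := hw.eq_of_end hbG h1r (hout z (List.mem_append_left _ hz))
    have hl := h.lab x hx z hz
    have hfq := h.fit _ hq
    simp only at hfq
    refine ⟨n2, ?_⟩
    have h5 := key (h2.rev (fun e he => abv_swap he))
    simp only [Prod.swap_swap] at h5
    rw [h3, hfp]
    have e1 : Prod.map pv pv z.1.swap = (Prod.map pt pt (mo y q)).swap := by
      rw [← hfq]; rfl
    rw [e1]
    refine h5.cast rfl ?_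
    rw [h4]
    omega

/-- A walk which avoids the edges at `F0` and starts in a pocket stays in it. -/
theorem walk_pocket {ι : Type} {P : ι → Set Φ}
    (hPP : ∀ i j, i ≠ j → ∀ e ∈ Sides Q (P i), e.swap ∉ Sides Q (P j)) (i : ι)
    (ha : a ∈ Sides Q (P i))
    (hw : Walk Q ω (F0 ∪ ⋃ i, P i) {e | e ∈ Glued Q (F0 ∪ ⋃ i, P i) ∧
      (e ∈ Sides Q F0 ∨ e.swap ∈ Sides Q F0)}ᶜ n a b t) :
    Walk Q ω (P i) (Glued Q (P i)) n a b t := by
  have hFs : ∀ e ∈ Sides Q (F0 ∪ ⋃ i, P i), e ∈ Sides Q F0 ∨ ∃ i, e ∈ Sides Q (P i) := by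
    rintro e ⟨f, hf | hf, k, rfl⟩
    · exact Or.inl ⟨f, hf, k, rfl⟩
    · obtain ⟨i, hf⟩ := Set.mem_iUnion.1 hf
      exact Or.inr ⟨i, f, hf, k, rfl⟩
  have h1 : Walk Q ω (P i) Set.univ n a b t := by
    have hst : ∀ {a b : V × V} {t : ℤ}, St Q ω (F0 ∪ ⋃ i, P i) a b t → a ∈ Sides Q (P i) →
        St Q ω (P i) a b t := by
      rintro a b t ⟨f, hf, k, rfl, h⟩ ⟨g, hg, l, h2⟩
      obtain ⟨rfl, -⟩ := sd_inj h2
      exact ⟨f, hg, k, rfl, h⟩
    have hw' := hw.interGlued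
    clear hw
    induction hw' with
    | one h => exact Walk.one (hst h ha)
    | @tail n a b c t s h hb h' ih =>
      have h3 := ih ha
      refine Walk.tail h3 (Set.mem_univ _) (hst h' ?_)
      have h4 : b.swap ∈ Sides Q (P i) := h3.last'
      rcases hFs b hb.2.1 with h5 | ⟨j, h5⟩
      · exact absurd ⟨hb.2, Or.inl h5⟩ hb.1
      · by_cases hij : i = j
        · rw [hij]; exact h5
        · exact absurd (by rw [Prod.swap_swap]; exact h5) (hPP i j hij b.swap h4)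
  exact h1.interGlued.mono subset_rfl Set.inter_subset_right

/-- The faces of the complex `Q'` which are used. -/
def SimF (F0 : Set Φ) (ψ : Φ → Φ') {ι : Type} (A y : ι → ℤ) (m : ι → ℕ) (ψt : ι → ℤ × ℤ → Φ') :
    Set Φ' := ψ '' F0 ∪ ⋃ i, ψt i '' Tri (A i) (y i) (m i)

/-- **SIMULATION**: for every configuration of the complex with pockets there is a configuration of
`Q'` with the same strands outside the pockets, and the same turnings. -/
theorem pockets_sim {ι : Type} {P : ι → Set Φ} {mouth rest : ι → List ((V × V) × ℤ)}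
    {A y : ι → ℤ} {rt : ι → ℤ × ℤ → ZMod 4} {ψt : ι → ℤ × ℤ → Φ'} {pt : ι → ℤ × ℤ → V'}
    (hE : Emb Q Q' r ψ pv F0)
    (hP : ∀ i, Pocket Q Q' F0 ψ pv (P i) (mouth i) (rest i) (A i) (y i) (rt i) (ψt i) (pt i))
    (hPP : ∀ i j, i ≠ j → ∀ e ∈ Sides Q (P i), e.swap ∉ Sides Q (P j))
    (hTT : ∀ i j, i ≠ j → Disjoint (ψt i '' Tri (A i) (y i) (mouth i).length)
      (ψt j '' Tri (A j) (y j) (mouth j).length)) (ω : Φ → Bool) :
    ∃ ω' : Φ' → Bool, (∀ f ∈ F0, ω' (ψ f) = ω f) ∧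
      (∀ a b n t, (a ∈ Sides Q F0 ∨ a.swap ∈ Sides Q F0) → (b ∈ Sides Q F0 ∨ b.swap ∈ Sides Q F0) →
        Walk Q ω (F0 ∪ ⋃ i, P i) Set.univ n a b t →
        ∃ n', Walk Q' ω' (SimF F0 ψ A y (fun i => (mouth i).length) ψt) Set.univ n'
          (Prod.map pv pv a) (Prod.map pv pv b) t) ∧
      ∀ e n t, Walk Q ω (F0 ∪ ⋃ i, P i) {e}ᶜ n e e t → (e ∈ Sides Q F0 ∨ e.swap ∈ Sides Q F0) →
        ∃ n', Walk Q' ω' (SimF F0 ψ A y (fun i => (mouth i).length) ψt) {Prod.map pv pv e}ᶜ n'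
          (Prod.map pv pv e) (Prod.map pv pv e) t := by
  classical
  set F : Set Φ := F0 ∪ ⋃ i, P i with hF
  set F1 : Set Φ' := SimF F0 ψ A y (fun i => (mouth i).length) ψt with hF1
  choose ωt hωt using fun i => (hP i).step ω
  -- the configuration of the complex `Q'`
  set ω' : Φ' → Bool := fun g => decide ((∃ f ∈ F0, ψ f = g ∧ ω f = true) ∨
    ∃ i, ∃ f ∈ Tri (A i) (y i) (mouth i).length, ψt i f = g ∧ ωt i f = true) with hω'
  have h0 : ∀ f ∈ F0, ω' (ψ f) = ω f := by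
    intro f hf
    cases hc : ω f with
    | true =>
      exact decide_eq_true (Or.inl ⟨f, hf, rfl, hc⟩)
    | false =>
      refine decide_eq_false ?_
      rintro (⟨g, hg, h1, h2⟩ | ⟨i, g, hg, h1, h2⟩)
      · rw [hE.inj hg hf h1, hc] at h2
        exact Bool.false_ne_true h2
      · exact Set.disjoint_left.1 (hP i).disj' ⟨f, hf, rfl⟩ ⟨g, hg, h1⟩
  have hi : ∀ i, ∀ f ∈ Tri (A i) (y i) (mouth i).length, ω' (ψt i f) = ωt i f := by
    intro i f hf
    cases hc : ωt i f with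
    | true =>
      exact decide_eq_true (Or.inr ⟨i, f, hf, rfl, hc⟩)
    | false =>
      refine decide_eq_false ?_
      rintro (⟨g, hg, h1, h2⟩ | ⟨j, g, hg, h1, h2⟩)
      · exact Set.disjoint_left.1 (hP i).disj' ⟨g, hg, rfl⟩ ⟨f, hf, h1.symm⟩
      · by_cases hij : i = j
        · subst hij
          rw [(hP i).tri.inj hg hf h1, hc] at h2
          exact Bool.false_ne_true h2
        · exact Set.disjoint_left.1 (hTT i j hij) ⟨f, hf, rfl⟩ ⟨g, hg, h1⟩
  -- the edges at `F0`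
  set O' : Set (V × V) := {e | e ∈ Sides Q F0 ∨ e.swap ∈ Sides Q F0} with hO'
  set O : Set (V × V) := {e | e ∈ Glued Q F ∧ (e ∈ Sides Q F0 ∨ e.swap ∈ Sides Q F0)} with hO
  have hOO : O ⊆ O' := fun e he => he.2
  have hOs : ∀ e ∈ O, e.swap ∈ O := by
    rintro e ⟨h1, h2⟩
    exact ⟨glued_swap h1, by rw [Prod.swap_swap]; exact h2.symm⟩
  have hOs' : ∀ e ∈ O', e.swap ∈ O' := by
    rintro e h2
    have h2' : e ∈ Sides Q F0 ∨ e.swap ∈ Sides Q F0 := h2
    show e.swap ∈ Sides Q F0 ∨ e.swap.swap ∈ Sides Q F0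
    rw [Prod.swap_swap]; exact h2'.symm
  have hFs : ∀ e ∈ Sides Q F, e ∈ Sides Q F0 ∨ ∃ i, e ∈ Sides Q (P i) := by
    rintro e ⟨f, hf | hf, k, rfl⟩
    · exact Or.inl ⟨f, hf, k, rfl⟩
    · obtain ⟨i, hf⟩ := Set.mem_iUnion.1 hf
      exact Or.inr ⟨i, f, hf, k, rfl⟩
  have hOm : ∀ e ∈ O', ∀ i, e ∈ Sides Q (P i) → e ∈ (mouth i).map Prod.fst := by
    rintro e h2 i h3
    rcases h2 with h2 | h2
    · exact absurd h3 (sides_disj (hP i).disj h2)
    · exact (hP i).mem e h3 h2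
  have hinj0 : ∀ c ∈ Sides Q F0, ∀ e ∈ O, Prod.map pv pv c = Prod.map pv pv e → c = e := by
    intro c hc e he hce
    rcases hFs e he.1.1 with h1 | ⟨i, h1⟩
    · exact hE.eq_of_sides hc h1 hce
    · exfalso
      have h2 := (hP i).mouth_sides (hOm e (hOO he) i h1)
      rw [← hce] at h2
      exact sides_disj (hP i).disj' (hE.sides hc) h2
  have hinj : ∀ c ∈ O, ∀ e ∈ O, Prod.map pv pv c = Prod.map pv pv e → c = e := by
    intro c hc e he hce
    rcases hc.2 with h1 | h1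
    · exact hinj0 c h1 e he hce
    · have h2 := hinj0 c.swap h1 e.swap (hOs e he) (by
        have := congrArg Prod.swap hce
        exact this)
      rw [← Prod.swap_swap c, h2, Prod.swap_swap]
  -- the steps from an edge of `O` to the next one
  have hstep : ∀ a ∈ O', ∀ b ∈ O', ∀ n t, Walk Q ω F Oᶜ n a b t →
      ∃ n', Walk Q' ω' F1 (Prod.map pv pv '' O)ᶜ n' (Prod.map pv pv a)
        (Prod.map pv pv b) t := by
    intro a ha b hb n t hw
    rcases hFs a hw.first' with h1 | ⟨i, h1⟩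
    · -- one step in `F0`
      have hw' := hw.interGlued
      obtain ⟨f, hf, k, rfl⟩ := h1
      have hst : ∀ {b : V × V} {t : ℤ}, St Q ω F (sd Q f k) b t → St Q ω F0 (sd Q f k) b t := by
        rintro b t ⟨g, hg, l, h2, h⟩
        obtain ⟨rfl, rfl⟩ := sd_inj h2
        exact ⟨f, hf, k, rfl, h⟩
      cases hw' with
      | one h =>
        exact ⟨1, Walk.one ((hE.st h0 (hst h)).mono Set.subset_union_left)⟩
      | @tail n _ b _ t s h hb h' =>
        exfalso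
        have h2 : 0 < n := h.pos
        rcases Nat.lt_or_ge 1 n with h3 | h3
        · obtain ⟨d, s', h4, h5, -⟩ := h.prefix_ Nat.one_pos h3
          cases h4 with
          | one h4 => exact h5.1 ⟨h5.2, Or.inr (mem_sides_of_st (hst h4)).2⟩
          | tail h6 _ _ => exact absurd h6.pos (by omega)
        · obtain rfl : n = 1 := by omega
          cases h with
          | one h4 => exact hb.1 ⟨hb.2, Or.inr (mem_sides_of_st (hst h4)).2⟩
          | tail h6 _ _ => exact absurd h6.pos (by omega)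
    · -- a piece in the pocket `i`
      have h2 := walk_pocket (F0 := F0) (P := P) hPP i h1 hw
      have h3 := hOm a ha i h1
      have h4 := hOm b.swap (hOs' b hb) i h2.last'
      obtain ⟨n', h5⟩ := hωt i ω' (hi i) (Prod.map pv pv '' O)ᶜ (by
        rintro c ⟨hc1, hc2⟩ ⟨o, ho, hoc⟩
        rcases ho.2 with h6 | h6
        · exact sides_disj (hP i).disj' (hE.sides h6) (by rw [hoc]; exact (hP i).tri.sides hc1)
        · refine sides_disj (hP i).disj' (hE.sides h6) ?_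
          have h7 : Prod.map pv pv o.swap = Prod.map (pt i) (pt i) c.swap := by
            have := congrArg Prod.swap hoc
            exact this
          rw [h7]; exact (hP i).tri.sides hc2) a b n t h3 h4 h2
      exact ⟨n', h5.mono (fun x hx => Or.inr (Set.mem_iUnion.2 ⟨i, hx⟩)) subset_rfl⟩
  refine ⟨ω', h0, ?_, ?_⟩
  · intro a b n t ha hb hw
    exact Walk.sim_open hOO hstep n a b t ha hb hw
  · intro e n t hw he
    have he' : e ∈ O := ⟨hw.base, he⟩
    exact Walk.sim hinj (fun a ha b hb => hstep a (hOO ha) b (hOO hb)) he' n e e t he' he' hw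

/-- **T1 WITH POCKETS.** -/
theorem t1_pockets {ι : Type} {P : ι → Set Φ} {mouth rest : ι → List ((V × V) × ℤ)}
    {A y : ι → ℤ} {rt : ι → ℤ × ℤ → ZMod 4} {ψt : ι → ℤ × ℤ → Φ'} {pt : ι → ℤ × ℤ → V'}
    (hE : Emb Q Q' r ψ pv F0)
    (hP : ∀ i, Pocket Q Q' F0 ψ pv (P i) (mouth i) (rest i) (A i) (y i) (rt i) (ψt i) (pt i))
    (hPP : ∀ i j, i ≠ j → ∀ e ∈ Sides Q (P i), e.swap ∉ Sides Q (P j))
    (hTT : ∀ i j, i ≠ j → Disjoint (ψt i '' Tri (A i) (y i) (mouth i).length)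
      (ψt j '' Tri (A j) (y j) (mouth j).length))
    (hT : ∀ ω', T1 Q' ω' Set.univ) (ω : Φ → Bool) : T1 Q ω (F0 ∪ ⋃ i, P i) := by
  obtain ⟨ω', -, -, h2⟩ := pockets_sim hE hP hPP hTT ω
  have hcase : ∀ e n t, (e ∈ Sides Q F0 ∨ e.swap ∈ Sides Q F0) →
      Walk Q ω (F0 ∪ ⋃ i, P i) {e}ᶜ n e e t → t = 4 ∨ t = -4 := by
    intro e n t he hw
    obtain ⟨n', h1⟩ := h2 e n t hw he
    exact hT ω' _ _ _ (h1.mono (Set.subset_univ _) subset_rfl)
  intro e n t hw
  by_cases he : e ∈ Sides Q F0 ∨ e.swap ∈ Sides Q F0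
  · exact hcase e n t he hw
  · have heG := hw.base
    set O : Set (V × V) := {e | e ∈ Glued Q (F0 ∪ ⋃ i, P i) ∧
      (e ∈ Sides Q F0 ∨ e.swap ∈ Sides Q F0)} with hO
    rcases hw.split O with h1 | ⟨c, ⟨-, hc⟩, m, s, -, hm, h2, -⟩
    · obtain ⟨i, h2⟩ : ∃ i, e ∈ Sides Q (P i) := by
        obtain ⟨f, hf | hf, k, h2⟩ := heG.1
        · exact absurd (Or.inl ⟨f, hf, k, h2⟩) he
        · obtain ⟨i, hf⟩ := Set.mem_iUnion.1 hf
          exact ⟨i, f, hf, k, h2⟩
      have h3 := walk_pocket (F0 := F0) (P := P) hPP i h2 (h1.mono subset_rfl Set.inter_subset_right)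
      refine (hP i).disc.t1 ω e n t ?_
      refine (h3.of_min ?_).mono subset_rfl Set.inter_subset_right
      intro m hm s h4
      exact hw.min hm (h4.mono (F' := F0 ∪ ⋃ i, P i) (G' := Set.univ)
        (fun x hx => Or.inr (Set.mem_iUnion.2 ⟨i, hx⟩)) (Set.subset_univ _))
    · exact hcase c n t hc.2 (hw.rot_min h2 hm)

end General

/-! ## The strands as finsets -/

section Strands

variable {V Φ : Type} [DecidableEq V] [DecidableEq Φ] {Q : QC V Φ} {F : Finset Φ} {ω : Φ → Bool}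
  {X : Finset (V × V)}

theorem T1.tX (h : T1 Q ω (F : Set Φ)) (hX : X ∈ dstr Q F ω)
    (hX' : ∀ a ∈ X, ¬ Ini Q (F : Set Φ) a) : tX Q F ω X = 4 ∨ tX Q F ω X = -4 := by
  obtain ⟨a, ha⟩ : X.Nonempty := by
    by_contra hne
    rw [Finset.not_nonempty_iff_eq_empty] at hne
    obtain ⟨b, hb, hbX⟩ := Finset.mem_image.mp hX
    rw [hne] at hbX
    have h1 : b ∈ dst Q F ω b := mem_dst.mpr ⟨hb, Relation.EqvGen.refl _⟩
    rw [hbX] at h1
    exact absurd h1 (Finset.notMem_empty _)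
  obtain ⟨n, h1, h2⟩ := closed_walk hX hX' ha (G := Set.univ) (fun _ _ => Set.mem_univ _)
  refine h a n _ ((h1.of_min ?_).mono subset_rfl Set.inter_subset_right)
  intro m hm s h3
  exact h2 m s h3.pos hm h3

end Strands

end Pool.Agent.SixB
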