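import Pool.Agent.Lib.SixB.S3bCyl
import Pool.Agent.Lib.SixB.S0Cont

/-!
# Planar discs as pockets

* `Disc.mapE`: transport of discs along maps of faces and sides.
* `straight_word`: a straight segment of boundary sides is an initial segment of the boundary word.
* `Disc.lift`: a planar disc in a complex (with a chart whose sides are glued in the same way).
* `pocket_of_planar`: the hypotheses of `t1_pockets` for a planar pocket.
-/

set_option autoImplicit false

namespace Pool.Agent.SixB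

open Pool.Agent.Perc Pool.Agent.Perc.Q

section Map

variable {V Φ V' Φ' : Type} {Q : QC V Φ} {Q' : QC V' Φ'} {F : Set Φ} {G : Set (V × V)}
  {w : List ((V × V) × ℤ)}

/-- Transport of a disc. -/
theorem Disc.mapE (h : Disc Q F G w) (ψ : Φ → Φ') (r : ZMod 4) (ε : V × V → V' × V') :
    Set.InjOn ψ F → (∀ f ∈ F, ∀ k, ε (sd Q f k) = sd Q' (ψ f) (k + r)) →
      (∀ e ∈ G, ε e.swap = (ε e).swap) →
      Disc Q' (ψ '' F) (ε '' G) (w.map fun x => (ε x.1, x.2)) := by
  induction h with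
  | face f k a =>
    intro _ hε _
    have h1 := Disc.face (Q := Q') (ψ f) (k + r) a
    refine h1.cast Set.image_singleton.symm (Set.image_empty _).symm ?_
    simp only [List.map_cons, List.map_nil, hε f rfl]
    rw [show k + 1 + r = k + r + 1 by ring, show k + 2 + r = k + r + 2 by ring,
      show k + 3 + r = k + r + 3 by ring]
  | @join F F' G G' u v e a h h' hd ih ih' =>
    intro hinj hε hG
    have h1 := ih (hinj.mono Set.subset_union_left) (fun f hf => hε f (Or.inl hf))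
      (fun e he => hG e (Or.inl (Or.inl he)))
    have h2 := ih' (hinj.mono Set.subset_union_right) (fun f hf => hε f (Or.inr hf))
      (fun e he => hG e (Or.inl (Or.inr he)))
    have he : ε e.swap = (ε e).swap := hG e (Or.inr (Set.mem_insert _ _))
    rw [List.map_append, List.map_cons, List.map_nil] at h1
    rw [List.map_cons, he] at h2
    have hd' : Disjoint (ψ '' F) (ψ '' F') := by
      rw [Set.disjoint_left]
      rintro _ ⟨f, hf, rfl⟩ ⟨g, hg, hfg⟩
      rw [hinj (Or.inr hg) (Or.inl hf) hfg] at hg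
      exact Set.disjoint_left.1 hd hf hg
    refine (Disc.join h1 h2 hd').cast (Set.image_union _ _ _).symm ?_ (by rw [List.map_append])
    rw [Set.image_union, Set.image_union, Set.image_insert_eq, Set.image_singleton, he]
  | @zip F G u v e a h ih =>
    intro hinj hε hG
    have h1 := ih hinj hε (fun e he => hG e (Or.inl he))
    have he : ε e.swap = (ε e).swap := hG e (Or.inr (Set.mem_insert _ _))
    rw [List.map_append, List.map_cons, List.map_cons, he] at h1
    refine (Disc.zip h1).cast rfl ?_ (by rw [List.map_append])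
    rw [Set.image_union, Set.image_insert_eq, Set.image_singleton, he]
  | @rot F G u e a h ih =>
    intro hinj hε hG
    have h1 := ih hinj hε hG
    rw [List.map_cons] at h1
    exact (Disc.rot h1).cast rfl rfl (by rw [List.map_append]; rfl)
  | @shift F G u c h ih =>
    intro hinj hε hG
    have h1 := ih hinj hε hG
    refine (Disc.shift c h1).cast rfl rfl ?_
    rw [List.map_map, List.map_map]
    rfl

/-- A disc whose boundary word ends with a given entry can be rotated backwards. -/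
theorem Disc.rotb {u : List ((V × V) × ℤ)} {x : (V × V) × ℤ} (h : Disc Q F G (u ++ [x])) :
    Disc Q F G ((x.1, x.2 - 4) :: u) := by
  have h1 := (Disc.rots h).lft (-4)
  rw [lft_append, lft_lft] at h1
  refine h1.cast rfl rfl ?_
  rw [show (4 : ℤ) + -4 = 0 by norm_num, lft_zero, lft_cons, lft_nil]
  rfl

/-- The mirror image of a disc. -/
theorem Disc.mirror (h : Disc Q F G w) (ψ : Φ → Φ') (s : ZMod 4) (ε : V × V → V' × V') :
    Set.InjOn ψ F → (∀ f ∈ F, ∀ k, ε (sd Q f k) = sd Q' (ψ f) (s - k)) →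
      (∀ e ∈ G, ε e.swap = (ε e).swap) →
      Disc Q' (ψ '' F) (ε '' G) ((w.map fun x => (ε x.1, -x.2)).reverse) := by
  induction h with
  | face f k a =>
    intro _ hε _
    have h1 := Disc.face (Q := Q') (ψ f) (s - (k + 3)) (-(a + 3))
    refine h1.cast Set.image_singleton.symm (Set.image_empty _).symm ?_
    simp only [List.map_cons, List.map_nil, hε f rfl, List.reverse_cons, List.reverse_nil,
      List.nil_append, List.cons_append]
    have e1 : s - (k + 3) + 1 = s - (k + 2) := by ring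
    have e2 : s - (k + 3) + 2 = s - (k + 1) := by ring
    have e3 : s - (k + 3) + 3 = s - k := by ring
    have d1 : -(a + 3) + 1 = -(a + 2) := by ring
    have d2 : -(a + 3) + 2 = -(a + 1) := by ring
    have d3 : -(a + 3) + 3 = -a := by ring
    rw [e1, e2, e3, d1, d2, d3]
  | @join F F' G G' u v e a h h' hd ih ih' =>
    intro hinj hε hG
    have h1 := ih (hinj.mono Set.subset_union_left) (fun f hf => hε f (Or.inl hf))
      (fun e he => hG e (Or.inl (Or.inl he)))
    have h2 := ih' (hinj.mono Set.subset_union_right) (fun f hf => hε f (Or.inr hf))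
      (fun e he => hG e (Or.inl (Or.inr he)))
    have he : ε e.swap = (ε e).swap := hG e (Or.inr (Set.mem_insert _ _))
    rw [List.map_append, List.reverse_append, List.map_cons, List.map_nil, List.reverse_cons,
      List.reverse_nil, List.nil_append, List.singleton_append] at h1
    rw [List.map_cons, List.reverse_cons, he] at h2
    have hd' : Disjoint (ψ '' F') (ψ '' F) := by
      rw [Set.disjoint_left]
      rintro _ ⟨f, hf, rfl⟩ ⟨g, hg, hfg⟩
      rw [hinj (Or.inl hg) (Or.inr hf) hfg] at hg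
      exact Set.disjoint_left.1 hd hg hf
    have h1' : Disc Q' (ψ '' F) (ε '' G)
        (((ε e).swap.swap, -(a - 2) - 2) :: (u.map fun x => (ε x.1, -x.2)).reverse) := by
      refine h1.cast rfl rfl ?_
      rw [Prod.swap_swap]
      congr 2
      ring
    refine (Disc.join h2 h1' hd').cast ?_ ?_ ?_
    · rw [Set.image_union, Set.union_comm]
    · rw [Set.image_union, Set.image_union, Set.image_insert_eq, Set.image_singleton, he,
        Prod.swap_swap, Set.union_comm (ε '' G'), Set.pair_comm]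
    · rw [List.map_append, List.reverse_append]
  | @zip F G u v e a h ih =>
    intro hinj hε hG
    have h1 := ih hinj hε (fun e he => hG e (Or.inl he))
    have he : ε e.swap = (ε e).swap := hG e (Or.inr (Set.mem_insert _ _))
    rw [List.map_append, List.map_cons, List.map_cons, he, List.reverse_append, List.reverse_cons,
      List.reverse_cons, List.append_assoc, List.append_assoc, List.singleton_append,
      List.singleton_append] at h1
    have h1' : Disc Q' (ψ '' F) (ε '' G) ((v.map fun x => (ε x.1, -x.2)).reverse ++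
        ((ε e).swap, -(a - 2)) :: ((ε e).swap.swap, -(a - 2) - 2) ::
          (u.map fun x => (ε x.1, -x.2)).reverse) := by
      refine h1.cast rfl rfl ?_
      rw [Prod.swap_swap]
      congr 3
      congr 1
      ring
    refine (Disc.zip h1').cast rfl ?_ ?_
    · rw [Set.image_union, Set.image_insert_eq, Set.image_singleton, he, Prod.swap_swap,
        Set.pair_comm]
    · rw [List.map_append, List.reverse_append]
  | @rot F G u e a h ih =>
    intro hinj hε hG
    have h1 := ih hinj hε hG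
    rw [List.map_cons, List.reverse_cons] at h1
    refine (Disc.rotb h1).cast rfl rfl ?_
    rw [List.map_append, List.reverse_append]
    simp only [List.map_cons, List.map_nil, List.reverse_cons, List.reverse_nil, List.nil_append,
      List.singleton_append]
    congr 2
    ring
  | @shift F G u c h ih =>
    intro hinj hε hG
    have h1 := ih hinj hε hG
    refine (Disc.shift (-c) h1).cast rfl rfl ?_
    rw [List.map_reverse, List.map_map, List.map_map]
    congr 1
    apply List.map_congr_left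
    intro x _
    simp only [Function.comp]
    congr 1
    ring

end Map

/-! ## Planar discs -/

section Planar

variable {U : Set (ℤ × ℤ)} {w : List (((ℤ × ℤ) × (ℤ × ℤ)) × ℤ)} {x₁ y : ℤ} {m : ℕ}

theorem mo_mem_sides {x y : ℤ} (h : (x, y) ∈ U) : mo y x ∈ Sides ZQ U := ⟨(x, y), h, 0, rfl⟩

theorem mo_swap_sides {x y : ℤ} (h : (x, y - 1) ∉ U) : (mo y x).swap ∉ Sides ZQ U := by
  rintro ⟨f, hf, k, hk⟩
  have h1 : (mo y x).swap = sd ZQ (x, y - 1) 2 := sd_swap_0 x y
  obtain ⟨rfl, -⟩ := sd_inj (h1.symm.trans hk)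
  exact h hf

/-- A straight segment of boundary sides is an initial segment of the boundary word. -/
theorem straight_word (h : ∃ w, Disc ZQ U (Glued ZQ U) w)
    (hm : ∀ x, x₁ ≤ x → x < x₁ + m → (x, y) ∈ U ∧ (x, y - 1) ∉ U) :
    ∃ rest, Disc ZQ U (Glued ZQ U) (segm id (x₁, y) 0 m ++ rest) := by
  obtain ⟨w, hw⟩ := h
  rcases Nat.eq_zero_or_pos m with rfl | hm0
  · exact ⟨w, by rw [segm_zero, List.nil_append]; exact hw⟩
  have hbd : ∀ x, x₁ ≤ x → x < x₁ + m → mo y x ∉ Glued ZQ U := fun x h1 h2 h3 =>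
    mo_swap_sides (hm x h1 h2).2 h3.2
  -- the first side
  obtain ⟨w1, hw1⟩ : ∃ w1, Disc ZQ U (Glued ZQ U) ((mo y x₁, 0) :: w1) := by
    have h1 := hm x₁ (le_refl _) (by omega)
    have h2 := hw.mem_of_bd (mo_mem_sides h1.1) (mo_swap_sides h1.2)
    obtain ⟨z, hz, hz1⟩ := List.mem_map.1 h2
    obtain ⟨u, v, rfl⟩ := List.append_of_mem hz
    have h3 := (Disc.rots hw).lft (-z.2)
    rw [lft_append, lft_cons] at h3
    refine ⟨lft (-z.2) v ++ lft (-z.2) (lft 4 u), h3.cast rfl rfl ?_⟩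
    rw [List.cons_append, hz1, add_neg_cancel]
  have key : ∀ j : ℕ, 0 < j → j ≤ m → ∃ rest, (mo y x₁, (0 : ℤ)) :: w1 =
      segm id (x₁, y) 0 j ++ rest := by
    intro j hj0 hj
    induction j with
    | zero => exact absurd hj0 (lt_irrefl _)
    | succ j ih =>
      rcases Nat.eq_zero_or_pos j with rfl | hj1
      · refine ⟨w1, ?_⟩
        rw [segm_one, dv0]
        simp [mo]
      · obtain ⟨rest, hr⟩ := ih hj1 (by omega)
        have hlast : segm id (x₁, y) 0 j = segm id (x₁, y) 0 (j - 1) ++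
            [(mo y (x₁ + (j - 1 : ℕ)), 0)] := by
          have h1 : j = (j - 1) + 1 := by omega
          conv_lhs => rw [h1]
          rw [segm_add, segm_one, dv0]
          simp [mo]
        have hlast' : segm id (x₁, y) 0 (j + 1) = segm id (x₁, y) 0 j ++
            [(mo y (x₁ + j), 0)] := by
          rw [segm_add, segm_one, dv0]
          simp [mo]
        have e1 : x₁ + ((j - 1 : ℕ) : ℤ) + 1 = x₁ + j := by omega
        -- the next boundary side
        have hf1 := (hm (x₁ + (j - 1 : ℕ)) (by omega) (by omega)).1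
        have hf2 := (hm (x₁ + j) (by omega) (by omega)).1
        have hnx : Nx0 ZQ U (Glued ZQ U) (mo y (x₁ + (j - 1 : ℕ)), 0) (mo y (x₁ + j), 0) := by
          refine ⟨_, hf1, 0, rfl, ?_⟩
          have s1 : (sd ZQ (x₁ + ((j - 1 : ℕ) : ℤ), y) 1).swap = sd ZQ (x₁ + j, y) 3 := by
            rw [sd_swap_1, e1]
          refine Ar.step (f := (x₁ + j, y)) (k := 3) ?_ hf2 s1 ?_
          · exact ⟨⟨_, hf1, 1, rfl⟩, ⟨_, hf2, 3, s1⟩⟩
          · exact Ar.refl _
        rcases rest with _ | ⟨z, rest⟩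
        · exfalso
          rw [List.append_nil] at hr
          have h1 := hw1.cyc.2 (mo y x₁, 0) w1 (segm id (x₁, y) 0 (j - 1))
            (mo y (x₁ + (j - 1 : ℕ)), 0) rfl (by rw [hr, hlast])
          have h2 := h1.unique (by exact hbd x₁ (le_refl _) (by omega)) hnx
            (hbd _ (by omega) (by omega))
          have h3 : ((0 : ℤ) + 4) = 0 := congrArg Prod.snd h2
          omega
        · have h1 := hw1.cyc.1 (segm id (x₁, y) 0 (j - 1)) (mo y (x₁ + (j - 1 : ℕ)), 0) z rest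
            (by rw [hr, hlast]; simp)
          have hzm : z ∈ (mo y x₁, (0 : ℤ)) :: w1 := by rw [hr]; simp
          have h2 := h1.unique (hw1.inv.notG z.1 (List.mem_map_of_mem hzm)) hnx
            (hbd _ (by omega) (by omega))
          refine ⟨rest, ?_⟩
          rw [hr, h2, hlast']
          simp
  obtain ⟨rest, hr⟩ := key m hm0 (le_refl _)
  exact ⟨rest, hr ▸ hw1⟩

end Planar

/-! ## Planar discs in a complex -/

section Lift

variable {V Φ V' Φ' : Type} {Q : QC V Φ} {U : Set (ℤ × ℤ)}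
  {w : List (((ℤ × ℤ) × (ℤ × ℤ)) × ℤ)} {φ : ℤ × ℤ → Φ} {pv : V → V'} {pos : ℤ × ℤ → V'}
  {r : ZMod 4}

/-- The vertices of the faces. -/
def verts (U : Set (ℤ × ℤ)) : Set (ℤ × ℤ) := {v | ∃ f ∈ U, ∃ k, v = ZQ.c f k}

/-- A planar set of faces `U` in the complex `Q`; `pv` and `pos` are the positions of the vertices;
sides of `U` which are glued in the plane are glued in `Q`. -/
structure PlEmb (Q : QC V Φ) (U : Set (ℤ × ℤ)) (r : ZMod 4) (φ : ℤ × ℤ → Φ) (pv : V → V')
    (pos : ℤ × ℤ → V') : Prop where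
  cor : ∀ f ∈ U, ∀ k, pv (Q.c (φ f) (k + r)) = pos (ZQ.c f k)
  inj : Set.InjOn pos (verts U)
  glue : ∀ f ∈ U, ∀ k, ∀ g ∈ U, ∀ l, (sd ZQ f k).swap = sd ZQ g l →
    (sd Q (φ f) (k + r)).swap = sd Q (φ g) (l + r)

theorem PlEmb.injOn (h : PlEmb Q U r φ pv pos) : Set.InjOn φ U := by
  intro f hf g hg hfg
  have h1 := h.cor f hf 0
  have h2 := h.cor g hg 0
  rw [← hfg] at h2
  have h3 := h.inj ⟨f, hf, 0, rfl⟩ ⟨g, hg, 0, rfl⟩ (h1.symm.trans h2)
  exact h3

theorem PlEmb.swap_sides (h : PlEmb Q U r φ pv pos) {f : ℤ × ℤ} (hf : f ∈ U) {k : ZMod 4}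
    (hs : (sd ZQ f k).swap ∉ Sides ZQ U) : (sd Q (φ f) (k + r)).swap ∉ Sides Q (φ '' U) := by
  rintro ⟨_, ⟨g, hg, rfl⟩, l, hl⟩
  apply hs
  refine ⟨g, hg, l - r, ?_⟩
  have h1 : (sd Q (φ f) (k + r)).swap = sd Q (φ g) (l - r + r) := by rw [hl, sub_add_cancel]
  have h2 := congrArg (Prod.map pv pv) h1
  have e1 : k + r + 1 = k + 1 + r := by ring
  have e2 : l - r + r + 1 = l - r + 1 + r := by ring
  simp only [sd, Prod.swap_prod_mk, Prod.map_apply, Prod.mk.injEq] at h2
  rw [e1, e2, h.cor f hf, h.cor g hg, h.cor f hf, h.cor g hg] at h2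
  have h3 := h.inj ⟨f, hf, _, rfl⟩ ⟨g, hg, _, rfl⟩ h2.1
  have h4 := h.inj ⟨f, hf, _, rfl⟩ ⟨g, hg, _, rfl⟩ h2.2
  exact Prod.ext h3 h4

open Classical in
/-- The map of the sides. -/
noncomputable def sideM (Q : QC V Φ) (U : Set (ℤ × ℤ)) (r : ZMod 4) (φ : ℤ × ℤ → Φ)
    (e : (ℤ × ℤ) × (ℤ × ℤ)) : V × V :=
  if h : ∃ z : (ℤ × ℤ) × ZMod 4, z.1 ∈ U ∧ e = sd ZQ z.1 z.2 then
    sd Q (φ h.choose.1) (h.choose.2 + r) else (Q.c (φ e.1) 0, Q.c (φ e.1) 0)

theorem sideM_sd {f : ℤ × ℤ} (hf : f ∈ U) (k : ZMod 4) :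
    sideM Q U r φ (sd ZQ f k) = sd Q (φ f) (k + r) := by
  have h : ∃ z : (ℤ × ℤ) × ZMod 4, z.1 ∈ U ∧ sd ZQ f k = sd ZQ z.1 z.2 := ⟨(f, k), hf, rfl⟩
  unfold sideM
  rw [dif_pos h]
  obtain ⟨h1, h2⟩ := sd_inj h.choose_spec.2
  rw [← h1, ← h2]

/-- A planar disc in a complex. -/
theorem Disc.lift (h : Disc ZQ U (Glued ZQ U) w) (hE : PlEmb Q U r φ pv pos) :
    Disc Q (φ '' U) (Glued Q (φ '' U)) (w.map fun x => (sideM Q U r φ x.1, x.2)) := by
  have h1 := h.mapE (Q' := Q) φ r (sideM Q U r φ) hE.injOn (fun f hf k => sideM_sd hf k) (by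
    rintro e ⟨⟨f, hf, k, rfl⟩, ⟨g, hg, l, h2⟩⟩
    rw [h2, sideM_sd hf, sideM_sd hg, hE.glue f hf k g hg l h2])
  refine h1.complete ?_
  intro x hx
  obtain ⟨z, hz, rfl⟩ := List.mem_map.1 hx
  obtain ⟨⟨f, hf, k, h2⟩, h3⟩ := h.bd hz
  simp only
  rw [h2, sideM_sd hf]
  rw [h2] at h3
  exact hE.swap_sides hf h3

theorem lay_map {α β : Type} (g : α → β) (l : List α) : ∀ A : ℤ,
    lay A (l.map g) = (lay A l).map fun z => (g z.1, z.2) := by
  induction l with
  | nil => intro A; rfl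
  | cons a l ih => intro A; simp only [List.map_cons, lay, ih]

theorem mem_lay_segm {y : ℤ} {m : ℕ} : ∀ {x₁ : ℤ} {z : (((ℤ × ℤ) × (ℤ × ℤ)) × ℤ) × ℤ},
    z ∈ lay x₁ (segm id (x₁, y) 0 m) → z.1 = (mo y z.2, 0) := by
  induction m with
  | zero => intro x₁ z hz; exact absurd hz List.not_mem_nil
  | succ m ih =>
    intro x₁ z hz
    rw [segm_succ, dv0] at hz
    simp only [lay, List.mem_cons] at hz
    have e1 : ((x₁, y) : ℤ × ℤ) + (1, 0) = (x₁ + 1, y) := by ext <;> simp
    rcases hz with rfl | hz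
    · simp [mo]
    · rw [e1] at hz
      exact ih hz

variable {B : QC V' Φ'} {F0 : Set Φ} {ψ : Φ → Φ'} {x₁ y : ℤ} {m : ℕ} {φt : ℤ × ℤ → Φ'}
  {rf : Φ → ZMod 4} {rt : ZMod 4}

/-- A planar pocket whose mouth is the segment `[x₁, x₁ + m] × {y}`; `r`, `rt`: rotations of the labels of the
corners of the faces of the pocket and of the triangle. -/
structure PPocket (Q : QC V Φ) (B : QC V' Φ') (F0 : Set Φ) (ψ : Φ → Φ') (pv : V → V')
    (U : Set (ℤ × ℤ)) (φ : ℤ × ℤ → Φ) (x₁ y : ℤ) (m : ℕ) (r rt : ZMod 4) (φt : ℤ × ℤ → Φ')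
    (pos : ℤ × ℤ → V') : Prop where
  emb : PlEmb Q U r φ pv pos
  disc : ∃ w, Disc ZQ U (Glued ZQ U) w
  row : ∀ x, x₁ ≤ x → x < x₁ + m → (x, y) ∈ U ∧ (x, y - 1) ∉ U
  disj : ∀ f ∈ U, φ f ∉ F0
  mem : ∀ f ∈ U, ∀ k, (sd Q (φ f) (k + r)).swap ∈ Sides Q F0 →
    ∃ p, x₁ ≤ p ∧ p < x₁ + m ∧ sd ZQ f k = mo y p
  tri : Emb ZQ B (fun _ => rt) φt pos (Tri x₁ y m)
  disj' : ∀ f ∈ Tri x₁ y m, φt f ∉ ψ '' F0

theorem PPocket.pocket (h : PPocket Q B F0 ψ pv U φ x₁ y m r rt φt pos) :
    ∃ mouth rest, mouth.length = m ∧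
      Pocket Q B F0 ψ pv (φ '' U) mouth rest x₁ y (fun _ => rt) φt pos := by
  obtain ⟨rest, hr⟩ := straight_word h.disc h.row
  have hD := hr.lift h.emb
  rw [List.map_append] at hD
  have hlen : ((segm id (x₁, y) 0 m).map fun x => (sideM Q U r φ x.1, x.2)).length = m := by
    rw [List.length_map, segm_length]
  refine ⟨_, _, hlen, hD, ?_, ?_, ?_, ?_, ?_, ?_⟩
  · intro x hx x' hx'
    obtain ⟨z, hz, rfl⟩ := List.mem_map.1 hx
    obtain ⟨z', hz', rfl⟩ := List.mem_map.1 hx'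
    obtain ⟨p, hp⟩ := mem_lay_of_mem (A := x₁) hz
    obtain ⟨p', hp'⟩ := mem_lay_of_mem (A := x₁) hz'
    have h1 := mem_lay_segm hp
    have h2 := mem_lay_segm hp'
    simp only at h1 h2 ⊢
    rw [h1, h2]
  · rw [Set.disjoint_left]
    rintro _ hf ⟨f, hfU, rfl⟩
    exact h.disj f hfU hf
  · rintro e ⟨_, ⟨f, hf, rfl⟩, k, rfl⟩ he
    have e1 : k = k - r + r := (sub_add_cancel k r).symm
    rw [e1] at he ⊢
    obtain ⟨p, hp1, hp2, hp3⟩ := h.mem f hf (k - r) he
    rw [← sideM_sd hf, hp3]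
    have hb := botw_mem (y₀ := y) (x := p) (x₀ := x₁) (x₁ := x₁ + m) hp1 hp2
    have e2 : (x₁ + m - x₁).toNat = m := by omega
    rw [e2] at hb
    exact List.mem_map.2 ⟨_, List.mem_map.2 ⟨_, hb, rfl⟩, rfl⟩
  · rw [hlen]; exact h.tri
  · intro z hz
    rw [lay_map] at hz
    obtain ⟨z', hz', rfl⟩ := List.mem_map.1 hz
    have h1 := mem_lay_segm hz'
    have h2 := mem_lay hz'
    rw [segm_length] at h2
    simp only
    rw [h1]
    have h3 := (h.row z'.2 h2.1 h2.2).1
    simp only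
    rw [mo_sd, sideM_sd h3, ← mo_sd]
    have c0 := h.emb.cor _ h3 0
    have c1 := h.emb.cor _ h3 1
    simp only [sd, Prod.map_apply]
    rw [show (0 : ZMod 4) + r + 1 = 1 + r by ring, c0, c1]
    rfl
  · rw [hlen, Set.disjoint_left]
    rintro _ hf ⟨f, hfU, rfl⟩
    exact h.disj' f hfU hf

/-- **T1 WITH PLANAR POCKETS.** -/
theorem t1_planar_pockets {ι : Type} {U : ι → Set (ℤ × ℤ)} {φ : ι → ℤ × ℤ → Φ} {x₁ y : ι → ℤ}
    {m : ι → ℕ} {r rt : ι → ZMod 4} {φt : ι → ℤ × ℤ → Φ'} {pos : ι → ℤ × ℤ → V'}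
    (hE : Emb Q B rf ψ pv F0)
    (hP : ∀ i, PPocket Q B F0 ψ pv (U i) (φ i) (x₁ i) (y i) (m i) (r i) (rt i) (φt i) (pos i))
    (hPP : ∀ i j, i ≠ j → ∀ e ∈ Sides Q (φ i '' U i), e.swap ∉ Sides Q (φ j '' U j))
    (hTT : ∀ i j, i ≠ j → Disjoint (φt i '' Tri (x₁ i) (y i) (m i))
      (φt j '' Tri (x₁ j) (y j) (m j)))
    (hT : ∀ ω', T1 B ω' Set.univ) (ω : Φ → Bool) : T1 Q ω (F0 ∪ ⋃ i, φ i '' U i) := by
  choose mouth rest hlen hpk using fun i => (hP i).pocket
  refine t1_pockets hE hpk hPP ?_ hT ω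
  intro i j hij
  rw [hlen, hlen]
  exact hTT i j hij

/-- **SIMULATION WITH PLANAR POCKETS.** -/
theorem planar_pockets_sim {ι : Type} {U : ι → Set (ℤ × ℤ)} {φ : ι → ℤ × ℤ → Φ} {x₁ y : ι → ℤ}
    {m : ι → ℕ} {r rt : ι → ZMod 4} {φt : ι → ℤ × ℤ → Φ'} {pos : ι → ℤ × ℤ → V'}
    (hE : Emb Q B rf ψ pv F0)
    (hP : ∀ i, PPocket Q B F0 ψ pv (U i) (φ i) (x₁ i) (y i) (m i) (r i) (rt i) (φt i) (pos i))
    (hPP : ∀ i j, i ≠ j → ∀ e ∈ Sides Q (φ i '' U i), e.swap ∉ Sides Q (φ j '' U j))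
    (hTT : ∀ i j, i ≠ j → Disjoint (φt i '' Tri (x₁ i) (y i) (m i))
      (φt j '' Tri (x₁ j) (y j) (m j))) (ω : Φ → Bool) :
    ∃ ω' : Φ' → Bool, (∀ f ∈ F0, ω' (ψ f) = ω f) ∧
      ∀ a b n t, (a ∈ Sides Q F0 ∨ a.swap ∈ Sides Q F0) → (b ∈ Sides Q F0 ∨ b.swap ∈ Sides Q F0) →
        Walk Q ω (F0 ∪ ⋃ i, φ i '' U i) Set.univ n a b t →
        ∃ n', Walk B ω' (SimF F0 ψ x₁ y m φt) Set.univ n'
          (Prod.map pv pv a) (Prod.map pv pv b) t := by
  choose mouth rest hlen hpk using fun i => (hP i).pocket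
  obtain ⟨ω', h1, h2, -⟩ := pockets_sim hE hpk hPP (by
    intro i j hij
    rw [hlen, hlen]
    exact hTT i j hij) ω
  have e : (fun i => (mouth i).length) = m := funext hlen
  rw [e] at h2
  exact ⟨ω', h1, h2⟩

end Lift

end Pool.Agent.SixB
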