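import Pool.Agent.Lib.SixB.S0Walk
import Pool.Agent.Lib.SixB.S0Match
import Pool.Agent.Lib.MP_6bd702_zc.Y024

/-!
# Realization of non crossing matchings by faces of the plane

`PNC R S l`: partial non crossing matching of the list `l`; matched pairs satisfy `R`, the entries
which are not matched satisfy `S`.
* `NCM.pnc`: the part of a non crossing matching in an initial segment of the list.
* `realize`: for every partial non crossing matching of `l` there is a configuration of the triangle
  of faces over the segment `[A, A + l.length] × {y}` in which the strands which enter through the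
  sides of matched entries join them, with turning `-2`.
-/

set_option autoImplicit false

namespace Pool.Agent.SixB

open Pool.Agent.Perc.Q

/-- Partial non crossing matching. -/
inductive PNC {α : Type} (R : α → α → Prop) (S : α → Prop) : List α → Prop
  | nil : PNC R S []
  | skip {x : α} {s : List α} (hx : S x) (h : PNC R S s) : PNC R S (x :: s)
  | pair {x : α} {s : List α} {y : α} {r : List α} (h : R x y) (hs : NCM R s) (hr : PNC R S r) :
      PNC R S (x :: (s ++ y :: r))

section Lists

variable {α : Type} {R R' : α → α → Prop} {S S' : α → Prop} {s r u v w l : List α} {x y a b : α}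

theorem PNC.mono (h : PNC R S w) (hR : ∀ x y, R x y → R' x y) (hS : ∀ x, S x → S' x) :
    PNC R' S' w := by
  induction h with
  | nil => exact PNC.nil
  | skip hx _ ih => exact PNC.skip (hS _ hx) ih
  | pair h hs _ ih => exact PNC.pair (hR _ _ h) (hs.mono hR) ih

theorem NCM.append_pnc (h : NCM R s) (h' : PNC R S r) : PNC R S (s ++ r) := by
  induction h with
  | nil => exact h'
  | cons h hs _ _ ih2 =>
    rw [List.cons_append, List.append_assoc, List.cons_append]
    exact PNC.pair h hs ih2

theorem NCM.toPNC (h : NCM R s) : PNC R S s := by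
  have := h.append_pnc (S := S) PNC.nil
  rwa [List.append_nil] at this

theorem PNC.of_forall (h : ∀ x ∈ l, S x) : PNC R S l := by
  induction l with
  | nil => exact PNC.nil
  | cons x l ih =>
    exact PNC.skip (h x (List.mem_cons_self ..)) (ih fun z hz => h z (List.mem_cons_of_mem _ hz))

/-- The part of a non crossing matching in an initial segment. -/
theorem NCM.pnc (h : NCM R w) : ∀ {u v : List α}, w = u ++ v →
    PNC R (fun x => ∃ y ∈ v, R x y) u := by
  induction h with
  | nil =>
    intro u v hw
    obtain ⟨rfl, rfl⟩ := List.append_eq_nil_iff.1 hw.symm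
    exact PNC.nil
  | @cons x s y r h hs hr ihs ihr =>
    intro u v hw
    cases u with
    | nil => exact PNC.nil
    | cons c u' =>
      rw [List.cons_append] at hw
      obtain ⟨hx, hw1⟩ := List.cons.inj hw
      subst hx
      rcases List.append_eq_append_iff.1 hw1 with ⟨t, ht1, ht2⟩ | ⟨t, ht1, ht2⟩
      · cases t with
        | nil =>
          rw [List.nil_append] at ht2
          rw [List.append_nil] at ht1
          subst ht1
          refine PNC.skip ⟨y, ?_, h⟩ hs.toPNC
          rw [← ht2]; exact List.mem_cons_self ..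
        | cons d t' =>
          rw [List.cons_append] at ht2
          obtain ⟨hd, ht3⟩ := List.cons.inj ht2
          subst hd ht1
          exact PNC.pair h hs (ihr ht3)
      · subst ht2
        refine PNC.skip ⟨y, ?_, h⟩ ((ihs ht1).mono (fun _ _ h => h) ?_)
        · exact List.mem_append_right _ (List.mem_cons_self ..)
        · rintro z ⟨q, hq, hz⟩
          exact ⟨q, List.mem_append_left _ hq, hz⟩

theorem NCM.adj (h : NCM R w) : w ≠ [] →
    ∃ u a b v, w = u ++ a :: b :: v ∧ R a b ∧ NCM R (u ++ v) := by
  induction h with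
  | nil => intro h; exact absurd rfl h
  | @cons x s y r h hs hr ihs _ =>
    intro _
    cases s with
    | nil => exact ⟨[], x, y, r, rfl, h, hr⟩
    | cons c s' =>
      obtain ⟨u, a, b, v, h1, h2, h3⟩ := ihs (by simp)
      refine ⟨x :: u, a, b, v ++ y :: r, ?_, h2, ?_⟩
      · rw [h1]; simp
      · have := NCM.cons h h3 hr
        simpa using this

theorem PNC.adj (h : PNC R S w) : (∀ x ∈ w, S x) ∨
    ∃ u a b v, w = u ++ a :: b :: v ∧ R a b ∧ PNC R S (u ++ v) := by
  induction h with
  | nil => left; intro x hx; exact absurd hx (List.not_mem_nil)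
  | @skip x s hx h ih =>
    rcases ih with ih | ⟨u, a, b, v, h1, h2, h3⟩
    · left
      intro z hz
      rcases List.mem_cons.1 hz with rfl | hz
      · exact hx
      · exact ih z hz
    · right
      exact ⟨x :: u, a, b, v, by rw [h1]; rfl, h2, PNC.skip hx h3⟩
  | @pair x s y r h hs hr _ =>
    right
    cases s with
    | nil => exact ⟨[], x, y, r, rfl, h, hr⟩
    | cons c s' =>
      obtain ⟨u, a, b, v, h1, h2, h3⟩ := hs.adj (by simp)
      refine ⟨x :: u, a, b, v ++ y :: r, ?_, h2, ?_⟩
      · rw [h1]; simp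
      · have := PNC.pair h h3 hr
        simpa using this

theorem NCM.insert (h : NCM R w) (hab : R a b) : ∀ {u v : List α}, w = u ++ v →
    NCM R (u ++ a :: b :: v) := by
  induction h with
  | nil =>
    intro u v hw
    obtain ⟨rfl, rfl⟩ := List.append_eq_nil_iff.1 hw.symm
    exact NCM.cons (s := []) hab NCM.nil NCM.nil
  | @cons x s y r h hs hr ihs ihr =>
    intro u v hw
    cases u with
    | nil =>
      rw [List.nil_append] at hw
      subst hw
      exact NCM.cons (s := []) hab NCM.nil (NCM.cons h hs hr)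
    | cons c u' =>
      rw [List.cons_append] at hw
      obtain ⟨hx, hw1⟩ := List.cons.inj hw
      subst hx
      rcases List.append_eq_append_iff.1 hw1 with ⟨t, ht1, ht2⟩ | ⟨t, ht1, ht2⟩
      · cases t with
        | nil =>
          rw [List.nil_append] at ht2
          rw [List.append_nil] at ht1
          subst ht1 ht2
          have h1 := NCM.cons h (ihs (u := u') (v := []) (by simp)) hr
          simpa using h1
        | cons d t' =>
          rw [List.cons_append] at ht2
          obtain ⟨hd, ht3⟩ := List.cons.inj ht2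
          subst hd ht1
          have h1 := NCM.cons h hs (ihr ht3)
          simpa using h1
      · subst ht2
        have h1 := NCM.cons h (ihs ht1) hr
        simpa using h1

theorem PNC.insert (h : PNC R S w) (hab : R a b) : ∀ {u v : List α}, w = u ++ v →
    PNC R S (u ++ a :: b :: v) := by
  induction h with
  | nil =>
    intro u v hw
    obtain ⟨rfl, rfl⟩ := List.append_eq_nil_iff.1 hw.symm
    exact PNC.pair (s := []) hab NCM.nil PNC.nil
  | @skip x s hx h ih =>
    intro u v hw
    cases u with
    | nil =>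
      rw [List.nil_append] at hw
      subst hw
      exact PNC.pair (s := []) hab NCM.nil (PNC.skip hx h)
    | cons c u' =>
      rw [List.cons_append] at hw
      obtain ⟨hc, hw1⟩ := List.cons.inj hw
      subst hc
      exact PNC.skip hx (ih hw1)
  | @pair x s y r h hs hr ihr =>
    intro u v hw
    cases u with
    | nil =>
      rw [List.nil_append] at hw
      subst hw
      exact PNC.pair (s := []) hab NCM.nil (PNC.pair h hs hr)
    | cons c u' =>
      rw [List.cons_append] at hw
      obtain ⟨hx, hw1⟩ := List.cons.inj hw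
      subst hx
      rcases List.append_eq_append_iff.1 hw1 with ⟨t, ht1, ht2⟩ | ⟨t, ht1, ht2⟩
      · cases t with
        | nil =>
          rw [List.nil_append] at ht2
          rw [List.append_nil] at ht1
          subst ht1 ht2
          have h1 := PNC.pair h (hs.insert hab (u := u') (v := []) (by simp)) hr
          simpa using h1
        | cons d t' =>
          rw [List.cons_append] at ht2
          obtain ⟨hd, ht3⟩ := List.cons.inj ht2
          subst hd ht1
          have h1 := PNC.pair h hs (ihr ht3)
          simpa using h1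
      · subst ht2
        have h1 := PNC.pair h (hs.insert hab ht1) hr
        simpa using h1

theorem PNC.map {β : Type} {T : β → β → Prop} {S' : β → Prop} {f : α → β} (h : PNC R S w)
    (hf : ∀ x y, R x y → T (f x) (f y)) (hS : ∀ x, S x → S' (f x)) : PNC T S' (w.map f) := by
  induction h with
  | nil => exact PNC.nil
  | skip hx _ ih =>
    rw [List.map_cons]
    exact PNC.skip (hS _ hx) ih
  | pair h hs _ ih =>
    rw [List.map_cons, List.map_append, List.map_cons]
    exact PNC.pair (hf _ _ h) (hs.map hf) ih

/-- every entry is matched or satisfies `S` -/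
theorem NCM.mem (h : NCM R w) : ∀ x ∈ w, (∃ y ∈ w, R x y) ∨ ∃ y ∈ w, R y x := by
  induction h with
  | nil => intro x hx; exact absurd hx (List.not_mem_nil)
  | @cons x s y r h hs hr ihs ihr =>
    intro z hz
    have e1 : ∀ q ∈ s, q ∈ x :: (s ++ y :: r) := fun q hq => by simp [hq]
    have e2 : ∀ q ∈ r, q ∈ x :: (s ++ y :: r) := fun q hq => by simp [hq]
    simp only [List.mem_cons, List.mem_append] at hz
    rcases hz with rfl | hz | rfl | hz
    · exact Or.inl ⟨y, by simp, h⟩
    · rcases ihs z hz with ⟨q, hq, hR⟩ | ⟨q, hq, hR⟩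
      · exact Or.inl ⟨q, e1 q hq, hR⟩
      · exact Or.inr ⟨q, e1 q hq, hR⟩
    · exact Or.inr ⟨x, by simp, h⟩
    · rcases ihr z hz with ⟨q, hq, hR⟩ | ⟨q, hq, hR⟩
      · exact Or.inl ⟨q, e2 q hq, hR⟩
      · exact Or.inr ⟨q, e2 q hq, hR⟩

theorem PNC.mem (h : PNC R S w) : ∀ x ∈ w, S x ∨ (∃ y ∈ w, R x y) ∨ ∃ y ∈ w, R y x := by
  induction h with
  | nil => intro x hx; exact absurd hx (List.not_mem_nil)
  | @skip x s hx h ih =>
    intro z hz
    rcases List.mem_cons.1 hz with rfl | hz
    · exact Or.inl hx
    · rcases ih z hz with h1 | ⟨q, hq, hR⟩ | ⟨q, hq, hR⟩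
      · exact Or.inl h1
      · exact Or.inr (Or.inl ⟨q, List.mem_cons_of_mem _ hq, hR⟩)
      · exact Or.inr (Or.inr ⟨q, List.mem_cons_of_mem _ hq, hR⟩)
  | @pair x s y r h hs hr ihr =>
    intro z hz
    have e1 : ∀ q ∈ s, q ∈ x :: (s ++ y :: r) := fun q hq => by simp [hq]
    have e2 : ∀ q ∈ r, q ∈ x :: (s ++ y :: r) := fun q hq => by simp [hq]
    simp only [List.mem_cons, List.mem_append] at hz
    rcases hz with rfl | hz | rfl | hz
    · exact Or.inr (Or.inl ⟨y, by simp, h⟩)
    · rcases hs.mem z hz with ⟨q, hq, hR⟩ | ⟨q, hq, hR⟩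
      · exact Or.inr (Or.inl ⟨q, e1 q hq, hR⟩)
      · exact Or.inr (Or.inr ⟨q, e1 q hq, hR⟩)
    · exact Or.inr (Or.inr ⟨x, by simp, h⟩)
    · rcases ihr z hz with h1 | ⟨q, hq, hR⟩ | ⟨q, hq, hR⟩
      · exact Or.inl h1
      · exact Or.inr (Or.inl ⟨q, e2 q hq, hR⟩)
      · exact Or.inr (Or.inr ⟨q, e2 q hq, hR⟩)

/-- the entries with their positions, from `A` on -/
def lay : ℤ → List α → List (α × ℤ)
  | _, [] => []
  | A, a :: l => (a, A) :: lay (A + 1) l

theorem lay_append (A : ℤ) (u v : List α) : lay A (u ++ v) = lay A u ++ lay (A + u.length) v := by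
  induction u generalizing A with
  | nil => simp [lay]
  | cons a u ih =>
    simp only [List.cons_append, lay, List.length_cons, ih]
    congr 3
    push_cast
    ring

theorem lay_map_fst (A : ℤ) (l : List α) : (lay A l).map Prod.fst = l := by
  induction l generalizing A with
  | nil => rfl
  | cons a l ih => simp [lay, ih]

theorem mem_lay {A : ℤ} {l : List α} {p : α × ℤ} (h : p ∈ lay A l) : A ≤ p.2 ∧ p.2 < A + l.length := by
  induction l generalizing A with
  | nil => exact absurd h (List.not_mem_nil)
  | cons a l ih =>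
    simp only [lay, List.mem_cons] at h
    rw [List.length_cons]
    push_cast
    rcases h with rfl | h
    · constructor
      · exact le_refl _
      · show A < _
        have : (0 : ℤ) ≤ l.length := Int.natCast_nonneg _
        omega
    · have := ih h
      omega

theorem lay_shift (A c : ℤ) (l : List α) (g : α × ℤ → α × ℤ)
    (hg : ∀ p : α × ℤ, A ≤ p.2 → p.2 < A + l.length → g p = (p.1, p.2 + c)) :
    (lay A l).map g = lay (A + c) l := by
  induction l generalizing A with
  | nil => rfl
  | cons a l ih =>
    have h0 : (0 : ℤ) ≤ l.length := Int.natCast_nonneg _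
    rw [List.length_cons] at hg
    push_cast at hg
    simp only [lay, List.map_cons]
    rw [hg (a, A) (le_refl _) (by show A < _; omega), ih (A + 1) fun p h1 h2 => hg p (by omega) (by omega)]
    have : A + 1 + c = A + c + 1 := by ring
    rw [this]

end Lists

/-! ## Walks in the triangle over a segment -/

/-- the side `[x, x + 1] × {y}`, crossed upwards -/
def mo (y x : ℤ) : (ℤ × ℤ) × (ℤ × ℤ) := ((x, y), (x + 1, y))

/-- the triangle of faces over `[A, A + m] × {y}` -/
def Tri (A y m : ℤ) : Set (ℤ × ℤ) := {f | y ≤ f.2 ∧ A + (f.2 - y) ≤ f.1 ∧ f.1 < A + m - (f.2 - y)}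

/-- directed unit edges above the line of height `y` (not in the line) -/
def Abv (y : ℤ) : Set ((ℤ × ℤ) × (ℤ × ℤ)) := {e | y ≤ e.1.2 ∧ y ≤ e.2.2 ∧ (y < e.1.2 ∨ y < e.2.2)}

theorem abv_swap {y : ℤ} {e : (ℤ × ℤ) × (ℤ × ℤ)} (h : e ∈ Abv y) : e.swap ∈ Abv y :=
  ⟨h.2.1, h.1, h.2.2.symm⟩

theorem abv_succ {y : ℤ} : Abv (y + 1) ⊆ Abv y := by
  rintro e ⟨h1, h2, h3⟩
  exact ⟨by omega, by omega, by omega⟩

theorem tri_sub {A y m : ℤ} : Tri (A + 1) (y + 1) (m - 2) ⊆ Tri A y m := by
  rintro f ⟨h1, h2, h3⟩
  exact ⟨by omega, by omega, by omega⟩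

theorem mo_abv {y x : ℤ} : mo (y + 1) x ∈ Abv y := by
  refine ⟨?_, ?_, ?_⟩ <;> simp only [mo] <;> omega

variable {ω : ℤ × ℤ → Bool} {F : Set (ℤ × ℤ)}

/-- the strand goes up one row and one site to the right -/
theorem up_right {y x : ℤ} (h1 : (x, y) ∈ F) (h2 : (x + 1, y) ∈ F) (e1 : ω (x, y) = true)
    (e2 : ω (x + 1, y) = true) : Walk ZQ ω F (Abv y) 2 (mo y x) (mo (y + 1) (x + 1)) 0 := by
  have s1 : St ZQ ω F (mo y x) ((x + 1, y + 1), (x + 1, y)) (-1) := by
    refine ⟨(x, y), h1, 0, ?_, ?_, ?_⟩
    · rfl
    · rw [e1]; rfl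
    · rw [e1]; rfl
  have s2 : St ZQ ω F ((x + 1, y + 1), (x + 1, y)) (mo (y + 1) (x + 1)) 1 := by
    refine ⟨(x + 1, y), h2, 3, ?_, ?_, ?_⟩
    · rfl
    · rw [e2]; rfl
    · rw [e2]; rfl
  have hb : (((x + 1, y + 1), (x + 1, y)) : (ℤ × ℤ) × (ℤ × ℤ)) ∈ Abv y := by
    refine ⟨?_, ?_, ?_⟩ <;> simp only <;> omega
  exact (Walk.tail (Walk.one s1) hb s2).cast rfl (by ring)

/-- the strand goes up one row and one site to the left -/
theorem up_left {y x : ℤ} (h1 : (x, y) ∈ F) (h2 : (x - 1, y) ∈ F) (e1 : ω (x, y) = false)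
    (e2 : ω (x - 1, y) = false) : Walk ZQ ω F (Abv y) 2 (mo y x) (mo (y + 1) (x - 1)) 0 := by
  have s1 : St ZQ ω F (mo y x) ((x, y), (x, y + 1)) 1 := by
    refine ⟨(x, y), h1, 0, ?_, ?_, ?_⟩
    · rfl
    · rw [e1]; rfl
    · rw [e1]; rfl
  have s2 : St ZQ ω F ((x, y), (x, y + 1)) (mo (y + 1) (x - 1)) (-1) := by
    refine ⟨(x - 1, y), h2, 1, ?_, ?_, ?_⟩
    · have : sd ZQ (x - 1, y) 1 = ((x - 1 + 1, y), (x - 1 + 1, y + 1)) := rfl
      rw [this, sub_add_cancel]
    · rw [e2]
      have : (sd ZQ (x - 1, y) (mt false 1)).swap = ((x - 1, y + 1), (x - 1 + 1, y + 1)) := rfl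
      rw [this]
      rfl
    · rw [e2]; rfl
  have hb : (((x, y), (x, y + 1)) : (ℤ × ℤ) × (ℤ × ℤ)) ∈ Abv y := by
    refine ⟨?_, ?_, ?_⟩ <;> simp only <;> omega
  exact (Walk.tail (Walk.one s1) hb s2).cast rfl (by ring)

/-- the strand joins two neighbouring sides -/
theorem up_pair {y x : ℤ} (h1 : (x, y) ∈ F) (h2 : (x + 1, y) ∈ F) (e1 : ω (x, y) = true)
    (e2 : ω (x + 1, y) = false) : Walk ZQ ω F (Abv y) 2 (mo y x) (mo y (x + 1)).swap (-2) := by
  have s1 : St ZQ ω F (mo y x) ((x + 1, y + 1), (x + 1, y)) (-1) := by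
    refine ⟨(x, y), h1, 0, ?_, ?_, ?_⟩
    · rfl
    · rw [e1]; rfl
    · rw [e1]; rfl
  have s2 : St ZQ ω F ((x + 1, y + 1), (x + 1, y)) (mo y (x + 1)).swap (-1) := by
    refine ⟨(x + 1, y), h2, 3, ?_, ?_, ?_⟩
    · rfl
    · rw [e2]; rfl
    · rw [e2]; rfl
  have hb : (((x + 1, y + 1), (x + 1, y)) : (ℤ × ℤ) × (ℤ × ℤ)) ∈ Abv y := by
    refine ⟨?_, ?_, ?_⟩ <;> simp only <;> omega
  exact (Walk.tail (Walk.one s1) hb s2).cast rfl (by ring)

/-- REALIZATION. -/
theorem realize {α : Type} {R : α → α → Prop} {S : α → Prop} (m : ℕ) : ∀ (l : List α), l.length = m →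
    PNC R S l → ∀ A y : ℤ, ∃ ω : ℤ × ℤ → Bool,
      PNC (fun a b : α × ℤ => R a.1 b.1 ∧ A ≤ a.2 ∧ a.2 < b.2 ∧ b.2 < A + m ∧
        ∃ n, Walk ZQ ω (Tri A y m) (Abv y) n (mo y a.2) (mo y b.2).swap (-2))
        (fun a => S a.1) (lay A l) := by
  induction m using Nat.strong_induction_on with
  | _ m ih =>
    intro l hl h A y
    rcases h.adj with hS | ⟨u, a, b, v, hw, hab, huv⟩
    · refine ⟨fun _ => true, PNC.of_forall ?_⟩
      intro p hp
      apply hS
      rw [← lay_map_fst A l]
      exact List.mem_map_of_mem hp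
    · have hlen : m = (u ++ v).length + 2 := by
        rw [← hl, hw]; simp only [List.length_append, List.length_cons]; omega
      obtain ⟨ω', h1⟩ := ih (u ++ v).length (by omega) (u ++ v) rfl huv (A + 1) (y + 1)
      set i : ℤ := (u.length : ℤ) with hi
      have hi0 : 0 ≤ i := Int.natCast_nonneg _
      have hv0 : (0 : ℤ) ≤ v.length := Int.natCast_nonneg _
      have hmz : (m : ℤ) = i + v.length + 2 := by
        rw [hlen]; simp only [List.length_append]; push_cast; ring
      have hmz' : (((u ++ v).length : ℕ) : ℤ) = i + v.length := by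
        simp only [List.length_append]; push_cast; ring
      set ω : ℤ × ℤ → Bool := fun f => if f.2 = y then decide (f.1 ≤ A + i) else ω' f with hω
      have ω_t : ∀ x, x ≤ A + i → ω (x, y) = true := by
        intro x hx
        simp [hω, hx]
      have ω_f : ∀ x, A + i < x → ω (x, y) = false := by
        intro x hx
        simp only [hω, if_true]
        exact decide_eq_false (by omega)
      have inT : ∀ x, A ≤ x → x < A + m → (x, y) ∈ Tri A y m := by
        intro x h1 h2
        refine ⟨le_refl _, ?_, ?_⟩ <;> simp only <;> omega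
      set g : α × ℤ → α × ℤ := fun p => if p.2 ≤ A + i then (p.1, p.2 + -1) else (p.1, p.2 + 1) with hg
      have hup : ∀ p : ℤ, A + 1 ≤ p → p < A + 1 + (i + v.length) →
          Walk ZQ ω (Tri A y m) (Abv y) 2 (mo y (if p ≤ A + i then p + -1 else p + 1)) (mo (y + 1) p) 0 := by
        intro p hp1 hp2
        split_ifs with hp
        · have := up_right (ω := ω) (F := Tri A y m) (y := y) (x := p + -1) (inT _ (by omega) (by omega))
            (inT _ (by omega) (by omega)) (ω_t _ (by omega)) (ω_t _ (by omega))
          have e : p + -1 + 1 = p := by ring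
          rwa [e] at this
        · have := up_left (ω := ω) (F := Tri A y m) (y := y) (x := p + 1) (inT _ (by omega) (by omega))
            (inT _ (by omega) (by omega)) (ω_f _ (by omega)) (ω_f _ (by omega))
          have e : p + 1 - 1 = p := by ring
          rwa [e] at this
      have h2 : PNC (fun a b : α × ℤ => R a.1 b.1 ∧ A ≤ a.2 ∧ a.2 < b.2 ∧ b.2 < A + m ∧
          ∃ n, Walk ZQ ω (Tri A y m) (Abv y) n (mo y a.2) (mo y b.2).swap (-2))
          (fun a => S a.1) ((lay (A + 1) (u ++ v)).map g) := by
        refine h1.map ?_ ?_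
        · rintro p q ⟨hR, hp1, hpq, hq, n, hW⟩
          rw [hmz'] at hq
          have e1 : (g p).1 = p.1 := by simp only [hg]; split_ifs <;> rfl
          have e2 : (g q).1 = q.1 := by simp only [hg]; split_ifs <;> rfl
          have e3 : (g p).2 = if p.2 ≤ A + i then p.2 + -1 else p.2 + 1 := by
            simp only [hg]; split_ifs <;> rfl
          have e4 : (g q).2 = if q.2 ≤ A + i then q.2 + -1 else q.2 + 1 := by
            simp only [hg]; split_ifs <;> rfl
          refine ⟨by rw [e1, e2]; exact hR, ?_, ?_, ?_, ?_⟩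
          · rw [e3]; split_ifs <;> omega
          · rw [e3, e4]; split_ifs <;> omega
          · rw [e4]; split_ifs <;> omega
          · have w1 := hup p.2 hp1 (by omega)
            have w2 := (hup q.2 (by omega) hq).rev (fun e he => abv_swap he)
            rw [e3, e4]
            have w3 : Walk ZQ ω (Tri A y m) (Abv y) n (mo (y + 1) p.2) (mo (y + 1) q.2).swap (-2) := by
              have w4 : Walk ZQ ω (Tri (A + 1) (y + 1) ((u ++ v).length : ℕ)) (Abv (y + 1)) n
                  (mo (y + 1) p.2) (mo (y + 1) q.2).swap (-2) := by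
                refine hW.congr ?_
                rintro f ⟨hf, -, -⟩
                simp only [hω]
                rw [if_neg (by omega)]
              refine w4.mono ?_ abv_succ
              have : (((u ++ v).length : ℕ) : ℤ) = (m : ℤ) - 2 := by rw [hmz', hmz]; ring
              rw [this]
              exact tri_sub
            have w5 := (w1.comp mo_abv w3).comp (abv_swap mo_abv) w2
            exact ⟨_, w5.cast rfl (by ring)⟩
        · intro p hp
          simp only [hg]
          split_ifs <;> exact hp
      have h3 : (lay (A + 1) (u ++ v)).map g = lay A u ++ lay (A + i + 2) v := by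
        rw [lay_append, List.map_append]
        congr 1
        · have := lay_shift (A + 1) (-1) u g ?_
          · rw [this]; congr 1; ring
          · intro p hp1 hp2
            simp only [hg]
            rw [if_pos (by omega)]
        · have := lay_shift (A + 1 + i) 1 v g ?_
          · rw [this]; congr 1; ring
          · intro p hp1 hp2
            simp only [hg]
            rw [if_neg (by omega)]
      rw [h3] at h2
      refine ⟨ω, ?_⟩
      have h4 := h2.insert (a := (a, A + i)) (b := (b, A + i + 1)) ?_ rfl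
      · rw [hw, lay_append]
        have e : lay (A + u.length) (a :: b :: v) = (a, A + i) :: (b, A + i + 1) :: lay (A + i + 2) v := by
          simp only [lay, ← hi]
          congr 3
          ring
        rw [e]
        exact h4
      · refine ⟨hab, ?_, ?_, ?_, 2, ?_⟩
        · show A ≤ A + i; omega
        · show A + i < A + i + 1; omega
        · show A + i + 1 < A + m; omega
        · exact up_pair (inT _ (by omega) (by omega)) (inT _ (by omega) (by omega)) (ω_t _ (by omega))
            (ω_f _ (by omega))

end Pool.Agent.SixB
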